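import Pool.Agent.H93.Neg.TabQ14_4_0_4_6_0

/-!
Certificates.
-/

set_option autoImplicit false
set_option maxRecDepth 100000
set_option linter.all false

namespace Pool.Agent.H93.Neg.Q14_4_0_4_6_0

/-- part of the certificates -/
def L90 : List Prf := [(.br (nat_lit 9) (nat_lit 0) (.cons (.br (nat_lit 9) (nat_lit 0) (.cons (.ev (nat_lit 79228167236702878061522124801) (nat_lit 1)) .nil)) (.cons (.br (nat_lit 9) (nat_lit 0) (.cons (.ev (nat_lit 79228167236702878061522124801) (nat_lit 1)) .nil)) .nil))),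
 (.br (nat_lit 1) (nat_lit 0) (.cons (.br (nat_lit 13) (nat_lit 0) (.cons (.rf (nat_lit 2421) (nat_lit 14242959524133712897)) (.cons (.rf (nat_lit 2492) (nat_lit 14242959524133712897)) (.cons (.br (nat_lit 10) (nat_lit 0) (.cons (.br (nat_lit 10) (nat_lit 0) .nil) .nil)) .nil)))) (.cons (.br (nat_lit 13) (nat_lit 0) (.cons (.rf (nat_lit 2492) (nat_lit 14208022404722295885)) (.cons (.br (nat_lit 5) (nat_lit 0) (.cons (.ev (nat_lit 1213666704900266079027201) (nat_lit 1)) (.cons (.ev (nat_lit 20282409603670189226718822137856) (nat_lit 1)) .nil))) (.cons (.br (nat_lit 5) (nat_lit 0) (.cons (.ev (nat_lit 20282410817318375323118113652736) (nat_lit 1)) (.cons (.ev (nat_lit 309485009821626543718269184) (nat_lit 1)) (.cons (.br (nat_lit 10) (nat_lit 0) (.cons (.ev (nat_lit 310698658007725142033039616) (nat_lit 1)) .nil)) .nil)))) (.cons (.rf (nat_lit 2492) (nat_lit 5885226501296849997)) .nil))))) (.cons (.br (nat_lit 11) (nat_lit 0) (.cons (.rf (nat_lit 2497) (nat_lit 15433070910038444064)) (.cons (.br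 (nat_lit 5) (nat_lit 0) (.cons (.br (nat_lit 12) (nat_lit 0) (.cons (.ev (nat_lit 20282409603670189226718822137856) (nat_lit 1)) .nil)) (.cons (.br (nat_lit 10) (nat_lit 0) (.cons (.ev (nat_lit 20282409603670189226718822137856) (nat_lit 1)) .nil)) (.cons (.rf (nat_lit 2421) (nat_lit 14208022404722295885)) .nil)))) (.cons (.ev (nat_lit 309489750634853487073100033) (nat_lit 1)) (.cons (.rf (nat_lit 2283) (nat_lit 435906131014289453)) .nil))))) (.cons (.ev (nat_lit 158456329769632102835793560064) (nat_lit 3)) .nil))))),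
 (.br (nat_lit 7) (nat_lit 0) (.cons (.ev (nat_lit 20361637766166006820238656536833) (nat_lit 1)) .nil)),
 (.br (nat_lit 13) (nat_lit 0) (.cons (.rf (nat_lit 2496) (nat_lit 493858305440582043680)) (.cons (.rf (nat_lit 2498) (nat_lit 493858305440582043680)) (.cons (.br (nat_lit 1) (nat_lit 0) (.cons (.br (nat_lit 10) (nat_lit 0) (.cons (.br (nat_lit 11) (nat_lit 0) (.cons (.ev (nat_lit 79229371458603036469249442048) (nat_lit 1)) .nil)) (.cons (.ev (nat_lit 309485009821626543718269184) (nat_lit 1)) (.cons (.br (nat_lit 7) (nat_lit 0) (.cons (.ev (nat_lit 20361638975110273177842012455168) (nat_lit 1)) .nil)) .nil)))) (.cons (.br (nat_lit 5) (nat_lit 0) (.cons (.br (nat_lit 11) (nat_lit 0) (.cons (.ev (nat_lit 79229371458603036469249442048) (nat_lit 1)) .nil)) (.cons (.br (nat_lit 10) (nat_lit 0) (.cons (.ev (nat_lit 20361947251194203133262029651968) (nat_lit 1)) .nil)) (.cons (.br (nat_lit 10) (nat_lit 0) (.cons (.ev (nat_lit 20361948464842388948182049554433) (nat_lit 1)) .nil)) .nil)))) (.cons (.br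 (nat_lit 5) (nat_lit 0) (.cons (.br (nat_lit 11) (nat_lit 0) (.cons (.ev (nat_lit 79229371458603036469249442048) (nat_lit 1)) .nil)) (.cons (.ev (nat_lit 309485009821626543718269184) (nat_lit 1)) (.cons (.rf (nat_lit 2499) (nat_lit 493858305440582043680)) .nil)))) (.cons (.br (nat_lit 12) (nat_lit 0) (.cons (.rf (nat_lit 2499) (nat_lit 493823402543469922336)) (.cons (.rf (nat_lit 2256) (nat_lit 2674197215893894145)) (.cons (.br (nat_lit 5) (nat_lit 0) (.cons (.ev (nat_lit 20361638975110273177842012455168) (nat_lit 1)) .nil)) .nil)))) (.cons (.rf (nat_lit 2421) (nat_lit 6028215822752789505)) .nil)))))) (.cons (.br (nat_lit 1) (nat_lit 0) (.cons (.br (nat_lit 11) (nat_lit 0) (.cons (.br (nat_lit 10) (nat_lit 0) (.cons (.ev (nat_lit 953849730008712346475373266434) (nat_lit 4)) .nil)) (.cons (.br (nat_lit 7) (nat_lit 0) (.cons (.ev (nat_lit 953849730008712346475373266434) (nat_lit 4)) .nil)) .nil))) (.cons (.br (nat_lit 5) (nat_lit 0) (.cons (.kr (nat_lit 79228162514264338693055578368) (nat_lit 1208925819614629191548928)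 (nat_lit 1) (nat_lit 0)) (.cons (.br (nat_lit 10) (nat_lit 0) (.cons (.ev (nat_lit 318769564856943044397294027264) (nat_lit 3)) .nil)) .nil))) (.cons (.rf (nat_lit 2311) (nat_lit 6164517744835627053)) (.cons (.br (nat_lit 5) (nat_lit 0) (.cons (.br (nat_lit 10) (nat_lit 0) (.cons (.ev (nat_lit 81129645672976488105263363391490) (nat_lit 3)) .nil)) (.cons (.kr (nat_lit 158456325046975421464115675648) (nat_lit 2422574005993603005022208) (nat_lit 1) (nat_lit 0)) (.cons (.br (nat_lit 7) (nat_lit 0) (.cons (.ev (nat_lit 81446553487330266992722860704770) (nat_lit 3)) .nil)) .nil)))) .nil))))) .nil))))),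
 (.br (nat_lit 9) (nat_lit 0) (.cons (.ev (nat_lit 1208925819896104168194304) (nat_lit 1)) (.cons (.rf (nat_lit 2445) (nat_lit 1480914831068725634)) .nil))),
 (.br (nat_lit 13) (nat_lit 0) (.cons (.rf (nat_lit 2496) (nat_lit 493858305440582043680)) (.cons (.rf (nat_lit 2498) (nat_lit 493858305440582043680)) (.cons (.rf (nat_lit 2500) (nat_lit 493858305440582043680)) (.cons (.br (nat_lit 11) (nat_lit 0) (.cons (.rf (nat_lit 2311) (nat_lit 6132992408932419629)) (.cons (.rf (nat_lit 2501) (nat_lit 15433072009550071840)) (.cons (.ev (nat_lit 79537647542532708210971770881) (nat_lit 1)) (.cons (.br (nat_lit 1) (nat_lit 0) (.cons (.ev (nat_lit 309489750634572016391291136) (nat_lit 1)) (.cons (.br (nat_lit 5) (nat_lit 0) (.cons (.ev (nat_lit 79229371458603036469249442048) (nat_lit 1)) .nil)) (.cons (.br (nat_lit 5) (nat_lit 0) (.cons (.ev (nat_lit 79229371458603036469249442048) (nat_lit 1)) .nil)) .nil)))) .nil))))) .nil))))),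
 (.br (nat_lit 13) (nat_lit 0) (.cons (.rf (nat_lit 2496) (nat_lit 493858305440582043680)) (.cons (.rf (nat_lit 2498) (nat_lit 493858305440582043680)) (.cons (.rf (nat_lit 2500) (nat_lit 493858305440582043680)) (.cons (.rf (nat_lit 2502) (nat_lit 493858305440582043680)) (.cons (.br (nat_lit 13) (nat_lit 0) (.cons (.rf (nat_lit 2496) (nat_lit 493858305440582043680)) (.cons (.rf (nat_lit 2498) (nat_lit 493858305440582043680)) (.cons (.rf (nat_lit 2500) (nat_lit 493858305440582043680)) (.cons (.rf (nat_lit 2502) (nat_lit 493858305440582043680)) .nil))))) .nil)))))),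
 (.br (nat_lit 12) (nat_lit 0) (.cons (.ev (nat_lit 4722438823042466447361) (nat_lit 1)) (.cons (.br (nat_lit 9) (nat_lit 0) (.cons (.ev (nat_lit 4722438823042466447361) (nat_lit 1)) .nil)) .nil))),
 (.br (nat_lit 10) (nat_lit 0) (.cons (.rf (nat_lit 2504) (nat_lit 15433070910038444064)) (.cons (.br (nat_lit 11) (nat_lit 0) (.cons (.ev (nat_lit 317538878483545737790472193536) (nat_lit 3)) .nil)) .nil))),
 (.br (nat_lit 1) (nat_lit 0) (.cons (.br (nat_lit 12) (nat_lit 0) (.cons (.ev (nat_lit 79229376162522775265185169665) (nat_lit 1)) (.cons (.br (nat_lit 11) (nat_lit 0) (.cons (.kr (nat_lit 618974742153290394193887744) (nat_lit 2417870086254811364327424) (nat_lit 1) (nat_lit 0)) (.cons (.rf (nat_lit 2399) (nat_lit 15360909034194569248)) .nil))) (.cons (.rf (nat_lit 2400) (nat_lit 15360909034194569248)) .nil)))) (.cons (.br (nat_lit 10) (nat_lit 0) (.cons (.rf (nat_lit 2504) (nat_lit 15433070910038444064)) (.cons (.rf (nat_lit 2505) (nat_lit 493858305440582043680)) (.cons (.br (nat_lit 10) (nat_lit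 0) (.cons (.ev (nat_lit 1213666704900266079027201) (nat_lit 1)) (.cons (.rf (nat_lit 2505) (nat_lit 493858305440582043680)) .nil))) .nil)))) (.cons (.ev (nat_lit 79228167255149903610225099008) (nat_lit 1)) (.cons (.rf (nat_lit 2503) (nat_lit 493858305440582043680)) .nil))))),
 (.br (nat_lit 11) (nat_lit 0) (.cons (.ev (nat_lit 1213666704900266079027201) (nat_lit 1)) (.cons (.br (nat_lit 10) (nat_lit 0) (.cons (.ev (nat_lit 20282720297605758127718860325121) (nat_lit 1)) .nil)) (.cons (.ev (nat_lit 20282409608374108965514757865473) (nat_lit 1)) .nil)))),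
 (.br (nat_lit 11) (nat_lit 0) (.cons (.ev (nat_lit 79538856449905579865931841536) (nat_lit 1)) .nil)),
 (.br (nat_lit 7) (nat_lit 0) (.cons (.ev (nat_lit 1213666704900266079027201) (nat_lit 1)) (.cons (.rf (nat_lit 2508) (nat_lit 493858305440582043680)) (.cons (.rf (nat_lit 2507) (nat_lit 493858305440582043680)) .nil)))),
 (.br (nat_lit 7) (nat_lit 0) (.cons (.br (nat_lit 12) (nat_lit 0) (.cons (.ev (nat_lit 79538861190718525338604863488) (nat_lit 1)) .nil)) (.cons (.rf (nat_lit 2508) (nat_lit 493823368458609461280)) (.cons (.ev (nat_lit 20282409608374108965514757865473) (nat_lit 1)) .nil)))),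
 (.br (nat_lit 1) (nat_lit 0) (.cons (.rf (nat_lit 2506) (nat_lit 493858305440582043680)) (.cons (.br (nat_lit 13) (nat_lit 0) (.cons (.rf (nat_lit 2507) (nat_lit 493858305440582043680)) (.cons (.rf (nat_lit 2509) (nat_lit 493858305440582043680)) (.cons (.rf (nat_lit 2510) (nat_lit 493858305440582043680)) (.cons (.br (nat_lit 13) (nat_lit 0) (.cons (.rf (nat_lit 2507) (nat_lit 493858305440582043680)) (.cons (.rf (nat_lit 2509) (nat_lit 493858305440582043680)) (.cons (.rf (nat_lit 2510) (nat_lit 493858305440582043680)) .nil)))) .nil))))) (.cons (.br (nat_lit 7) (nat_lit 0) (.cons (.ev (nat_lit 79229376162522775265185169665) (nat_lit 1)) (.cons (.br (nat_lit 13) (nat_lit 0) (.cons (.ev (nat_lit 1213666704900266079027201) (nat_lit 1)) (.cons (.rf (nat_lit 2399) (nat_lit 15361084784256321568)) .nil))) (.cons (.rf (nat_lit 2400) (nat_lit 15361084784256321568)) .nil)))) (.cons (.rf (nat_lit 2503) (nat_lit 493858305440582043680)) .nil))))),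
 (.br (nat_lit 1) (nat_lit 0) (.cons (.rf (nat_lit 2506) (nat_lit 493858305440582043680)) (.cons (.rf (nat_lit 2511) (nat_lit 493858305440582043680)) (.cons (.br (nat_lit 11) (nat_lit 0) (.cons (.ev (nat_lit 79537647542532708210971770881) (nat_lit 1)) (.cons (.br (nat_lit 13) (nat_lit 0) (.cons (.br (nat_lit 10) (nat_lit 0) (.cons (.ev (nat_lit 20441795592635555650993001660675) (nat_lit 2)) .nil)) (.cons (.br (nat_lit 7) (nat_lit 0) (.cons (.ev (nat_lit 20441795592635555650993001660675) (nat_lit 2)) .nil)) .nil))) (.cons (.ev (nat_lit 309489750634853487073100033) (nat_lit 1)) .nil)))) (.cons (.rf (nat_lit 2503) (nat_lit 493858305440582043680)) .nil))))),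
 (.br (nat_lit 1) (nat_lit 0) (.cons (.rf (nat_lit 2506) (nat_lit 493858305440582043680)) (.cons (.rf (nat_lit 2511) (nat_lit 493858305440582043680)) (.cons (.rf (nat_lit 2512) (nat_lit 493858305440582043680)) (.cons (.br (nat_lit 1) (nat_lit 0) (.cons (.ev (nat_lit 79228167255149903610225099008) (nat_lit 1)) (.cons (.rf (nat_lit 2511) (nat_lit 493858305440582043680)) (.cons (.rf (nat_lit 2512) (nat_lit 493858305440582043680)) (.cons (.rf (nat_lit 2503) (nat_lit 493858305440582043680)) .nil))))) (.cons (.rf (nat_lit 2503) (nat_lit 493858305440582043680)) .nil)))))),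
 (.br (nat_lit 1) (nat_lit 0) (.cons (.ev (nat_lit 1208925819614633486516481) (nat_lit 1)) .nil)),
 (.br (nat_lit 13) (nat_lit 0) (.cons (.rf (nat_lit 2503) (nat_lit 493858305440582043680)) (.cons (.rf (nat_lit 2513) (nat_lit 493858305440582043680)) (.cons (.br (nat_lit 5) (nat_lit 0) (.cons (.br (nat_lit 10) (nat_lit 0) (.cons (.br (nat_lit 11) (nat_lit 0) (.cons (.zr (nat_lit 81129638419347494927138996355072) (nat_lit 310693935714143191861100546) (nat_lit 5) (nat_lit 7)) .nil)) (.cons (.ev (nat_lit 1213666704900266079027201) (nat_lit 1)) (.cons (.br (nat_lit 1) (nat_lit 0) (.cons (.zr (nat_lit 60847232437769364166826700832769) (nat_lit 618984186886256137779412992) (nat_lit 10) (nat_lit 10)) .nil)) .nil)))) (.cons (.br (nat_lit 11) (nat_lit 0) (.cons (.rf (nat_lit 2514) (nat_lit 15433072009550071840)) (.cons (.kr (nat_lit 618974760600034467903438850) (nat_lit 158458742880168185924742676480) (nat_lit 0) (nat_lit 1)) .nil))) (.cons (.br (nat_lit 1) (nat_lit 0) (.cons (.ev (nat_lit 1213666704900266079027201)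 (nat_lit 1)) (.cons (.br (nat_lit 1) (nat_lit 0) (.cons (.ev (nat_lit 1213666704900266079027201) (nat_lit 1)) .nil)) .nil))) (.cons (.kr (nat_lit 281474976776192) (nat_lit 20282409603651670425046762913792) (nat_lit 2) (nat_lit 0)) .nil))))) (.cons (.br (nat_lit 1) (nat_lit 0) (.cons (.ev (nat_lit 20282409603670189226718822137856) (nat_lit 1)) (.cons (.ev (nat_lit 20282410812577562096174758952961) (nat_lit 1)) (.cons (.br (nat_lit 1) (nat_lit 0) (.cons (.ev (nat_lit 20282409603670189226718822137856) (nat_lit 1)) (.cons (.ev (nat_lit 20282410817318375604588795461633) (nat_lit 1)) .nil))) .nil)))) .nil))))),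
 (.br (nat_lit 10) (nat_lit 0) (.cons (.kr (nat_lit 281474976776192) (nat_lit 20282409603651670425046762913792) (nat_lit 2) (nat_lit 0)) (.cons (.br (nat_lit 1) (nat_lit 0) (.cons (.ev (nat_lit 20441795592635555650993001660675) (nat_lit 2)) .nil)) .nil))),
 (.br (nat_lit 13) (nat_lit 0) (.cons (.rf (nat_lit 2503) (nat_lit 493858305440582043680)) (.cons (.ev (nat_lit 20282409608374108965514757865473) (nat_lit 1)) (.cons (.rf (nat_lit 2515) (nat_lit 493858305440582043680)) (.cons (.br (nat_lit 10) (nat_lit 0) (.cons (.rf (nat_lit 2516) (nat_lit 493858305440582043680)) (.cons (.kr (nat_lit 281474976776192) (nat_lit 20282409603651670425046762913792) (nat_lit 2) (nat_lit 0)) (.cons (.br (nat_lit 10) (nat_lit 0) (.cons (.rf (nat_lit 2516) (nat_lit 493858305440582043680)) (.cons (.kr (nat_lit 281474976776192) (nat_lit 20282409603651670425046762913792) (nat_lit 2) (nat_lit 0)) .nil))) .nil)))) .nil))))),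
 (.br (nat_lit 13) (nat_lit 0) (.cons (.rf (nat_lit 2503) (nat_lit 493858305440582043680)) (.cons (.rf (nat_lit 2513) (nat_lit 493858305440582043680)) (.cons (.rf (nat_lit 2515) (nat_lit 493858305440582043680)) (.cons (.rf (nat_lit 2517) (nat_lit 493858305440582043680)) (.cons (.br (nat_lit 13) (nat_lit 0) (.cons (.rf (nat_lit 2503) (nat_lit 493858305440582043680)) (.cons (.rf (nat_lit 2513) (nat_lit 493858305440582043680)) (.cons (.rf (nat_lit 2515) (nat_lit 493858305440582043680)) (.cons (.rf (nat_lit 2517) (nat_lit 493858305440582043680)) .nil))))) .nil)))))),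
 (.br (nat_lit 13) (nat_lit 0) (.cons (.rf (nat_lit 2503) (nat_lit 493858305440582043680)) (.cons (.rf (nat_lit 2513) (nat_lit 493858305440582043680)) (.cons (.rf (nat_lit 2518) (nat_lit 493858305440582043680)) (.cons (.br (nat_lit 5) (nat_lit 0) (.cons (.br (nat_lit 11) (nat_lit 0) (.cons (.ev (nat_lit 20361947251194202851782758039553) (nat_lit 1)) (.cons (.ev (nat_lit 79537647542532708210971770881) (nat_lit 1)) (.cons (.br (nat_lit 1) (nat_lit 0) (.cons (.ev (nat_lit 20441795592635555650993001660675) (nat_lit 2)) .nil)) .nil)))) (.cons (.kr (nat_lit 281474976776192) (nat_lit 20282409603651670425046762913792) (nat_lit 2) (nat_lit 0)) (.cons (.br (nat_lit 7) (nat_lit 0) (.cons (.br (nat_lit 1) (nat_lit 0) (.cons (.ev (nat_lit 79229371458603036469249442048) (nat_lit 1)) .nil)) (.cons (.ev (nat_lit 79537647542532708210971770881) (nat_lit 1)) .nil))) (.cons (.kr (nat_lit 4722367327294575476736) (nat_lit 40564819207321787594171530346496) (nat_lit 2) (nat_lit 0)) .nil))))) .nil))))),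
 (.br (nat_lit 13) (nat_lit 0) (.cons (.rf (nat_lit 2503) (nat_lit 493858305440582043680)) (.cons (.rf (nat_lit 2513) (nat_lit 493858305440582043680)) (.cons (.rf (nat_lit 2518) (nat_lit 493858305440582043680)) (.cons (.rf (nat_lit 2519) (nat_lit 493858305440582043680)) (.cons (.br (nat_lit 13) (nat_lit 0) (.cons (.rf (nat_lit 2503) (nat_lit 493858305440582043680)) (.cons (.rf (nat_lit 2513) (nat_lit 493858305440582043680)) (.cons (.rf (nat_lit 2518) (nat_lit 493858305440582043680)) (.cons (.rf (nat_lit 2519) (nat_lit 493858305440582043680)) .nil))))) .nil)))))),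
 (.br (nat_lit 13) (nat_lit 0) (.cons (.rf (nat_lit 2503) (nat_lit 493858305440582043680)) (.cons (.rf (nat_lit 2513) (nat_lit 493858305440582043680)) (.cons (.rf (nat_lit 2518) (nat_lit 493858305440582043680)) (.cons (.rf (nat_lit 2520) (nat_lit 493858305440582043680)) (.cons (.br (nat_lit 13) (nat_lit 0) (.cons (.rf (nat_lit 2503) (nat_lit 493858305440582043680)) (.cons (.rf (nat_lit 2513) (nat_lit 493858305440582043680)) (.cons (.rf (nat_lit 2518) (nat_lit 493858305440582043680)) (.cons (.rf (nat_lit 2520) (nat_lit 493858305440582043680)) .nil))))) .nil))))))]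

theorem c90 : chkAll C T R L90 (nat_lit 2497) = true := by decide +kernel

theorem l90 : (nat_lit 2497) + L90.length = (nat_lit 2522) := by decide +kernel

/-- part of the certificates -/
def L91 : List Prf := [(.br (nat_lit 2) (nat_lit 0) (.cons (.rf (nat_lit 2161) (nat_lit 14242959524133701664)) (.cons (.rf (nat_lit 2311) (nat_lit 14242959524133701664)) (.cons (.rf (nat_lit 2421) (nat_lit 14242959524133701664)) (.cons (.rf (nat_lit 2492) (nat_lit 14242959524133701664)) (.cons (.br (nat_lit 13) (nat_lit 0) (.cons (.rf (nat_lit 2503) (nat_lit 493858305440582043680)) (.cons (.rf (nat_lit 2513) (nat_lit 493858305440582043680)) (.cons (.rf (nat_lit 2518) (nat_lit 493858305440582043680)) (.cons (.rf (nat_lit 2520) (nat_lit 493858305440582043680)) (.cons (.rf (nat_lit 2521) (nat_lit 493858305440582043680)) (.cons (.br (nat_lit 13) (nat_lit 0) (.cons (.rf (nat_lit 2503) (nat_lit 493858305440582043680)) (.cons (.rf (nat_lit 2513) (nat_lit 493858305440582043680)) (.cons (.rf (nat_lit 2518) (nat_lit 493858305440582043680))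 (.cons (.rf (nat_lit 2520) (nat_lit 493858305440582043680)) (.cons (.rf (nat_lit 2521) (nat_lit 493858305440582043680)) .nil)))))) .nil))))))) .nil)))))),
 (.br (nat_lit 2) (nat_lit 0) (.cons (.rf (nat_lit 2161) (nat_lit 14242959524133701664)) (.cons (.rf (nat_lit 2311) (nat_lit 14242959524133701664)) (.cons (.rf (nat_lit 2421) (nat_lit 14242959524133701664)) (.cons (.rf (nat_lit 2492) (nat_lit 14242959524133701664)) (.cons (.rf (nat_lit 2522) (nat_lit 14242959524133701664)) (.cons (.br (nat_lit 2) (nat_lit 0) (.cons (.rf (nat_lit 1943) (nat_lit 427010)) (.cons (.rf (nat_lit 2311) (nat_lit 14242959524133701664)) (.cons (.rf (nat_lit 2421) (nat_lit 14242959524133701664)) (.cons (.rf (nat_lit 2492) (nat_lit 14242959524133701664)) (.cons (.rf (nat_lit 2522) (nat_lit 14242959524133701664)) .nil)))))) .nil))))))),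
 (.br (nat_lit 13) (nat_lit 0) (.cons (.br (nat_lit 7) (nat_lit 0) .nil) .nil)),
 (.br (nat_lit 11) (nat_lit 0) (.cons (.ev (nat_lit 79229376162522492686401798144) (nat_lit 1)) .nil)),
 (.br (nat_lit 11) (nat_lit 0) (.cons (.br (nat_lit 13) (nat_lit 0) (.cons (.ev (nat_lit 1213666704900266079027201) (nat_lit 1)) (.cons (.br (nat_lit 7) (nat_lit 0) (.cons (.ev (nat_lit 1213666704900266079027201) (nat_lit 1)) .nil)) .nil))) (.cons (.rf (nat_lit 2336) (nat_lit 465450275276832)) (.cons (.br (nat_lit 12) (nat_lit 0) (.cons (.br (nat_lit 7) (nat_lit 0) (.cons (.ev (nat_lit 18518801667764257024) (nat_lit 1)) .nil)) (.cons (.ev (nat_lit 20361948460101575721238694723841) (nat_lit 1)) .nil))) .nil)))),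
 (.br (nat_lit 13) (nat_lit 0) (.cons (.rf (nat_lit 2526) (nat_lit 493858305440582043680)) (.cons (.br (nat_lit 13) (nat_lit 0) (.cons (.rf (nat_lit 2526) (nat_lit 493858305440582043680)) (.cons (.br (nat_lit 1) (nat_lit 0) (.cons (.ev (nat_lit 79228167255149622130953486336) (nat_lit 1)) .nil)) .nil))) (.cons (.br (nat_lit 7) (nat_lit 0) (.cons (.ev (nat_lit 79228167255149622130953486336) (nat_lit 1)) (.cons (.ev (nat_lit 1213666704900266079027201) (nat_lit 1)) .nil))) .nil)))),
 (.br (nat_lit 13) (nat_lit 0) (.cons (.rf (nat_lit 2526) (nat_lit 493858305440582043680)) (.cons (.rf (nat_lit 2527) (nat_lit 493858305440582043680)) (.cons (.br (nat_lit 13) (nat_lit 0) (.cons (.ev (nat_lit 20361948460101575721238694723841) (nat_lit 1)) (.cons (.rf (nat_lit 2527) (nat_lit 493858305440582043680)) .nil))) .nil)))),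
 (.br (nat_lit 1) (nat_lit 0) (.cons (.br (nat_lit 7) (nat_lit 0) (.cons (.ev (nat_lit 1859332688418981001713288198) (nat_lit 3)) (.cons (.rf (nat_lit 2367) (nat_lit 470843646904352)) .nil))) (.cons (.zr (nat_lit 79228167273524593384119861253) (nat_lit 4835703278458516766065152) (nat_lit 5) (nat_lit 5)) (.cons (.br (nat_lit 7) (nat_lit 0) (.cons (.rf (nat_lit 2332) (nat_lit 465482521085984)) (.cons (.rf (nat_lit 2332) (nat_lit 465516847269920)) (.cons (.br (nat_lit 12) (nat_lit 0) (.cons (.ev (nat_lit 79229371458603036469249442048) (nat_lit 1)) (.cons (.ev (nat_lit 79228167255149622130953486336) (nat_lit 1)) .nil))) .nil)))) .nil)))),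
 (.br (nat_lit 1) (nat_lit 0) (.cons (.ev (nat_lit 18519083147036000513) (nat_lit 1)) (.cons (.ev (nat_lit 310693954087986346097443073) (nat_lit 1)) (.cons (.br (nat_lit 7) (nat_lit 0) (.cons (.ev (nat_lit 310693935857135791483387906) (nat_lit 2)) (.cons (.br (nat_lit 13) (nat_lit 0) (.cons (.ev (nat_lit 1864168465483848439413342212) (nat_lit 3)) .nil)) .nil))) (.cons (.br (nat_lit 7) (nat_lit 0) (.cons (.ev (nat_lit 310693935857135791483387906) (nat_lit 2)) (.cons (.rf (nat_lit 2423) (nat_lit 470976790890528)) (.cons (.rf (nat_lit 2523) (nat_lit 14242959524133712897)) .nil)))) .nil))))),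
 (.br (nat_lit 1) (nat_lit 0) (.cons (.ev (nat_lit 18519083147036000513) (nat_lit 1)) (.cons (.br (nat_lit 5) (nat_lit 0) (.cons (.ev (nat_lit 310693954087704875415634176) (nat_lit 1)) (.cons (.rf (nat_lit 2341) (nat_lit 465516847269920)) .nil))) (.cons (.br (nat_lit 5) (nat_lit 0) (.cons (.ev (nat_lit 79229376162522775265185169665) (nat_lit 1)) (.cons (.rf (nat_lit 2341) (nat_lit 465482521085984)) .nil))) (.cons (.br (nat_lit 5) (nat_lit 0) (.cons (.rf (nat_lit 2332) (nat_lit 465449235089440)) (.cons (.rf (nat_lit 2332) (nat_lit 465450275276832)) (.cons (.br (nat_lit 13) (nat_lit 0) (.cons (.ev (nat_lit 1864168465483848439413342212) (nat_lit 3)) (.cons (.br (nat_lit 11) (nat_lit 0) (.cons (.ev (nat_lit 1864168465483848439413342212) (nat_lit 3)) .nil)) .nil))) .nil)))) .nil))))),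
 (.br (nat_lit 1) (nat_lit 0) (.cons (.ev (nat_lit 310693954087986346097443073) (nat_lit 1)) (.cons (.rf (nat_lit 2531) (nat_lit 14242959524133701664)) (.cons (.br (nat_lit 5) (nat_lit 0) (.cons (.ev (nat_lit 310693954087704875415634176) (nat_lit 1)) (.cons (.br (nat_lit 13) (nat_lit 0) (.cons (.ev (nat_lit 317538878483544048932021862400) (nat_lit 3)) .nil)) .nil))) (.cons (.br (nat_lit 5) (nat_lit 0) (.cons (.rf (nat_lit 2343) (nat_lit 465516847269920)) (.cons (.rf (nat_lit 2330) (nat_lit 14895500974196768)) (.cons (.br (nat_lit 7) (nat_lit 0) (.cons (.ev (nat_lit 79229371458602754989977829633) (nat_lit 1)) (.cons (.br (nat_lit 12) (nat_lit 0) (.cons (.ev (nat_lit 81130259807329891061730126332928) (nat_lit 3)) .nil)) .nil))) .nil)))) .nil))))),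
 (.br (nat_lit 1) (nat_lit 0) (.cons (.rf (nat_lit 2530) (nat_lit 14242959524133701664)) (.cons (.rf (nat_lit 2531) (nat_lit 14242959524133701664)) (.cons (.rf (nat_lit 2532) (nat_lit 14242959524133701664)) (.cons (.br (nat_lit 13) (nat_lit 0) (.cons (.zr (nat_lit 36893770721907441667) (nat_lit 2417851639229258383032576) (nat_lit 5) (nat_lit 5)) (.cons (.ev (nat_lit 18518801667764257024) (nat_lit 1)) (.cons (.ev (nat_lit 79537647542532426740290093313) (nat_lit 1)) .nil)))) .nil))))),
 (.br (nat_lit 1) (nat_lit 0) (.cons (.kr (nat_lit 18446744073709551617) (nat_lit 79228162514264337593543950592) (nat_lit 0) (nat_lit 2)) (.cons (.kr (nat_lit 4740813508418331475970) (nat_lit 158456325028528675191382868480) (nat_lit 0) (nat_lit 2)) (.cons (.br (nat_lit 13) (nat_lit 0) (.cons (.rf (nat_lit 2523) (nat_lit 14242959524133712897)) (.cons (.br (nat_lit 7) (nat_lit 0) (.cons (.rf (nat_lit 2523) (nat_lit 14242959524133712897)) .nil)) .nil))) .nil)))),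
 (.br (nat_lit 13) (nat_lit 0) (.cons (.br (nat_lit 11) (nat_lit 0) (.cons (.ev (nat_lit 40724513477185755390273044611074) (nat_lit 3)) .nil)) (.cons (.br (nat_lit 7) (nat_lit 0) (.cons (.ev (nat_lit 40724513477185755390273044611074) (nat_lit 3)) .nil)) .nil))),
 (.br (nat_lit 13) (nat_lit 0) (.cons (.rf (nat_lit 2535) (nat_lit 493858305440582043680)) (.cons (.br (nat_lit 5) (nat_lit 0) (.cons (.ev (nat_lit 40724513477185755390273044611074) (nat_lit 3)) .nil)) .nil))),
 (.br (nat_lit 1) (nat_lit 0) (.cons (.kr (nat_lit 18446744073709551617) (nat_lit 79228162514264337593543950592) (nat_lit 0) (nat_lit 2)) (.cons (.br (nat_lit 5) (nat_lit 0) (.cons (.ev (nat_lit 310693954087704875415634176) (nat_lit 1)) (.cons (.rf (nat_lit 2313) (nat_lit 465517887457312)) .nil))) (.cons (.br (nat_lit 13) (nat_lit 0) (.cons (.rf (nat_lit 2535) (nat_lit 493858305440582043680)) (.cons (.rf (nat_lit 2536) (nat_lit 493858305440582043680)) (.cons (.br (nat_lit 13) (nat_lit 0) (.cons (.rf (nat_lit 2535) (nat_lit 493858305440582043680))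 (.cons (.rf (nat_lit 2536) (nat_lit 493858305440582043680)) .nil))) .nil)))) .nil)))),
 (.br (nat_lit 13) (nat_lit 0) (.cons (.br (nat_lit 7) (nat_lit 0) (.cons (.br (nat_lit 11) (nat_lit 0) (.cons (.ev (nat_lit 79231789328761348874634854915) (nat_lit 2)) .nil)) (.cons (.br (nat_lit 1) (nat_lit 0) (.cons (.ev (nat_lit 20283339267643920463953332863235) (nat_lit 2)) .nil)) (.cons (.ev (nat_lit 121694460044502764642055869300740) (nat_lit 3)) .nil)))) (.cons (.br (nat_lit 12) (nat_lit 0) (.cons (.ev (nat_lit 79537652246452447006907498753) (nat_lit 1)) (.cons (.ev (nat_lit 40724513477185755390273044611074) (nat_lit 3)) .nil))) (.cons (.zr (nat_lit 237684487542793294259903594497) (nat_lit 20282409613114850135959274520576) (nat_lit 5) (nat_lit 2)) .nil)))),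
 (.br (nat_lit 13) (nat_lit 0) (.cons (.rf (nat_lit 2538) (nat_lit 493858305440582043680)) (.cons (.br (nat_lit 1) (nat_lit 0) (.cons (.rf (nat_lit 2523) (nat_lit 14242959524133712897)) (.cons (.br (nat_lit 5) (nat_lit 0) (.cons (.ev (nat_lit 79537647542532708210971771136) (nat_lit 1)) .nil)) (.cons (.ev (nat_lit 79537652246452447006907498753) (nat_lit 1)) .nil)))) (.cons (.br (nat_lit 1) (nat_lit 0) (.cons (.rf (nat_lit 2523) (nat_lit 14242959524133712897)) (.cons (.ev (nat_lit 79228167255149622130953486336) (nat_lit 1)) (.cons (.br (nat_lit 5) (nat_lit 0) (.cons (.ev (nat_lit 163369716303007202056562610407438) (nat_lit 4)) .nil)) .nil)))) .nil)))),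
 (.br (nat_lit 13) (nat_lit 0) (.cons (.rf (nat_lit 2538) (nat_lit 493858305440582043680)) (.cons (.rf (nat_lit 2539) (nat_lit 493858305440582043680)) (.cons (.br (nat_lit 1) (nat_lit 0) (.cons (.ev (nat_lit 121854156727421930257159473725440) (nat_lit 3)) (.cons (.br (nat_lit 5) (nat_lit 0) (.cons (.ev (nat_lit 475385904825346341716766362630) (nat_lit 4)) .nil)) .nil))) .nil)))),
 (.br (nat_lit 13) (nat_lit 0) (.cons (.rf (nat_lit 2538) (nat_lit 493858305440582043680)) (.cons (.rf (nat_lit 2539) (nat_lit 493858305440582043680)) (.cons (.rf (nat_lit 2540) (nat_lit 493858305440582043680)) (.cons (.br (nat_lit 13) (nat_lit 0) (.cons (.zr (nat_lit 237684487542793294259903594497) (nat_lit 20282409613114850135959274520576) (nat_lit 5) (nat_lit 2)) (.cons (.rf (nat_lit 2539) (nat_lit 493858305440582043680)) (.cons (.rf (nat_lit 2540) (nat_lit 493858305440582043680)) .nil)))) .nil))))),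
 (.br (nat_lit 1) (nat_lit 0) (.cons (.br (nat_lit 7) (nat_lit 0) (.cons (.ev (nat_lit 476614173532151146359751575562) (nat_lit 4)) (.cons (.br (nat_lit 12) (nat_lit 0) (.cons (.ev (nat_lit 79228167255149622130953486336) (nat_lit 1)) .nil)) .nil))) (.cons (.br (nat_lit 7) (nat_lit 0) (.cons (.ev (nat_lit 1213666704900266079027201) (nat_lit 1)) (.cons (.br (nat_lit 11) (nat_lit 0) (.cons (.ev (nat_lit 475995203475179798913054016000) (nat_lit 3)) .nil)) .nil))) (.cons (.rf (nat_lit 2541) (nat_lit 493858305440582043680)) .nil)))),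
 (.br (nat_lit 1) (nat_lit 0) (.cons (.rf (nat_lit 2542) (nat_lit 493858305440582043680)) (.cons (.br (nat_lit 1) (nat_lit 0) (.cons (.rf (nat_lit 2542) (nat_lit 493858305440582043680)) (.cons (.ev (nat_lit 310693954087704875415634176) (nat_lit 1)) (.cons (.rf (nat_lit 2541) (nat_lit 493858305440582043680)) .nil)))) (.cons (.br (nat_lit 1) (nat_lit 0) (.cons (.rf (nat_lit 2542) (nat_lit 493858305440582043680)) (.cons (.ev (nat_lit 310693954087704875415634176) (nat_lit 1)) (.cons (.rf (nat_lit 2541) (nat_lit 493858305440582043680)) .nil)))) (.cons (.rf (nat_lit 2541) (nat_lit 493858305440582043680)) .nil))))),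
 (.br (nat_lit 13) (nat_lit 0) (.cons (.rf (nat_lit 2541) (nat_lit 493858305440582043680)) (.cons (.rf (nat_lit 2543) (nat_lit 493858305440582043680)) (.cons (.br (nat_lit 7) (nat_lit 0) (.cons (.ev (nat_lit 79228167255149622130953486336) (nat_lit 1)) (.cons (.ev (nat_lit 40724513477185755953248768229380) (nat_lit 3)) .nil))) .nil)))),
 (.br (nat_lit 13) (nat_lit 0) (.cons (.rf (nat_lit 2541) (nat_lit 493858305440582043680)) (.cons (.rf (nat_lit 2543) (nat_lit 493858305440582043680)) (.cons (.rf (nat_lit 2544) (nat_lit 493858305440582043680)) (.cons (.br (nat_lit 13) (nat_lit 0) (.cons (.rf (nat_lit 2541) (nat_lit 493858305440582043680)) (.cons (.rf (nat_lit 2543) (nat_lit 493858305440582043680)) (.cons (.rf (nat_lit 2544) (nat_lit 493858305440582043680)) .nil)))) .nil))))),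
 (.br (nat_lit 13) (nat_lit 0) (.cons (.rf (nat_lit 2541) (nat_lit 493858305440582043680)) (.cons (.rf (nat_lit 2543) (nat_lit 493858305440582043680)) (.cons (.rf (nat_lit 2545) (nat_lit 493858305440582043680)) (.cons (.br (nat_lit 13) (nat_lit 0) (.cons (.rf (nat_lit 2541) (nat_lit 493858305440582043680)) (.cons (.rf (nat_lit 2543) (nat_lit 493858305440582043680)) (.cons (.rf (nat_lit 2545) (nat_lit 493858305440582043680)) .nil)))) .nil))))),
 (.br (nat_lit 11) (nat_lit 0) (.cons (.ev (nat_lit 79537652246452165536225689601) (nat_lit 1)) .nil)),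
 (.br (nat_lit 13) (nat_lit 0) (.cons (.br (nat_lit 12) (nat_lit 0) (.cons (.ev (nat_lit 79537652246452165536225689601) (nat_lit 1)) .nil)) (.cons (.rf (nat_lit 2547) (nat_lit 493858305440582043680)) .nil))),
 (.br (nat_lit 12) (nat_lit 0) (.cons (.rf (nat_lit 2548) (nat_lit 493858305440582043680)) (.cons (.br (nat_lit 12) (nat_lit 0) (.cons (.rf (nat_lit 2548) (nat_lit 493858305440582043680)) (.cons (.ev (nat_lit 79538861190718806809286541568) (nat_lit 1)) .nil))) (.cons (.br (nat_lit 12) (nat_lit 0) (.cons (.rf (nat_lit 2547) (nat_lit 493858305440582043680)) (.cons (.ev (nat_lit 79538861190718806809286541568) (nat_lit 1)) .nil))) .nil)))),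
 (.br (nat_lit 5) (nat_lit 0) (.cons (.rf (nat_lit 2549) (nat_lit 493858305440582043680)) (.cons (.br (nat_lit 7) (nat_lit 0) (.cons (.ev (nat_lit 1213666704900266079027201) (nat_lit 1)) (.cons (.br (nat_lit 12) (nat_lit 0) (.cons (.ev (nat_lit 20361947251194203133262029651968) (nat_lit 1)) .nil)) .nil))) (.cons (.br (nat_lit 7) (nat_lit 0) (.cons (.br (nat_lit 12) (nat_lit 0) (.cons (.ev (nat_lit 284905727271184570686601152956932) (nat_lit 4)) .nil)) (.cons (.ev (nat_lit 1213666704900266079027201) (nat_lit 1)) .nil))) .nil)))),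
 (.br (nat_lit 7) (nat_lit 0) (.cons (.rf (nat_lit 2549) (nat_lit 493858305440582043680)) (.cons (.rf (nat_lit 2550) (nat_lit 493858305440582043680)) (.cons (.br (nat_lit 7) (nat_lit 0) (.cons (.rf (nat_lit 2548) (nat_lit 493858305440582043680)) (.cons (.rf (nat_lit 2550) (nat_lit 493858305440582043680)) (.cons (.ev (nat_lit 18518801667764257024) (nat_lit 1)) .nil)))) (.cons (.br (nat_lit 7) (nat_lit 0) (.cons (.rf (nat_lit 2549) (nat_lit 493858305440582043680)) (.cons (.rf (nat_lit 2550) (nat_lit 493858305440582043680)) (.cons (.ev (nat_lit 18518801667764257024) (nat_lit 1)) .nil)))) .nil)))))]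

theorem c91 : chkAll C T R L91 (nat_lit 2522) = true := by decide +kernel

theorem l91 : (nat_lit 2522) + L91.length = (nat_lit 2552) := by decide +kernel

/-- part of the certificates -/
def L92 : List Prf := [(.br (nat_lit 13) (nat_lit 0) (.cons (.rf (nat_lit 2551) (nat_lit 493858305440582043680)) (.cons (.rf (nat_lit 2400) (nat_lit 1418819812098146722)) (.cons (.br (nat_lit 7) (nat_lit 0) (.cons (.br (nat_lit 11) (nat_lit 0) (.cons (.ev (nat_lit 79538856449905298395250032896) (nat_lit 1)) .nil)) (.cons (.ev (nat_lit 1213666704900266079027201) (nat_lit 1)) (.cons (.br (nat_lit 1) (nat_lit 0) (.cons (.ev (nat_lit 20361948464842389229661321167105) (nat_lit 1)) .nil)) .nil)))) .nil)))),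
 (.br (nat_lit 7) (nat_lit 0) (.cons (.br (nat_lit 7) (nat_lit 0) (.cons (.ev (nat_lit 79537652246452165536225689601) (nat_lit 1)) .nil)) (.cons (.ev (nat_lit 79537652246452165536225689601) (nat_lit 1)) .nil))),
 (.br (nat_lit 13) (nat_lit 0) (.cons (.rf (nat_lit 2551) (nat_lit 493858305440582043680)) (.cons (.rf (nat_lit 2552) (nat_lit 493858305440582043680)) (.cons (.br (nat_lit 13) (nat_lit 0) (.cons (.ev (nat_lit 40566057152194120203233375813634) (nat_lit 3)) (.cons (.rf (nat_lit 2400) (nat_lit 1418819812098146722)) (.cons (.rf (nat_lit 2553) (nat_lit 493858305440582043680)) .nil)))) (.cons (.br (nat_lit 13) (nat_lit 0) (.cons (.rf (nat_lit 2551) (nat_lit 493858305440582043680)) (.cons (.rf (nat_lit 2552) (nat_lit 493858305440582043680)) (.cons (.rf (nat_lit 2553) (nat_lit 493858305440582043680)) .nil)))) .nil))))),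
 (.br (nat_lit 13) (nat_lit 0) (.cons (.rf (nat_lit 2551) (nat_lit 493858305440582043680)) (.cons (.rf (nat_lit 2400) (nat_lit 1418819812098146722)) (.cons (.br (nat_lit 7) (nat_lit 0) (.cons (.br (nat_lit 5) (nat_lit 0) (.cons (.ev (nat_lit 316919908353078467996919267842) (nat_lit 3)) .nil)) (.cons (.br (nat_lit 1) (nat_lit 0) (.cons (.ev (nat_lit 1245198335018267538671011330) (nat_lit 3)) .nil)) (.cons (.ev (nat_lit 79537652246452165536225689601) (nat_lit 1)) .nil)))) .nil)))),
 (.br (nat_lit 13) (nat_lit 0) (.cons (.rf (nat_lit 2551) (nat_lit 493858305440582043680)) (.cons (.rf (nat_lit 2554) (nat_lit 493858305440582043680)) (.cons (.rf (nat_lit 2555) (nat_lit 493858305440582043680)) (.cons (.br (nat_lit 13) (nat_lit 0) (.cons (.rf (nat_lit 2551) (nat_lit 493858305440582043680)) (.cons (.rf (nat_lit 2554) (nat_lit 493858305440582043680)) (.cons (.rf (nat_lit 2555) (nat_lit 493858305440582043680)) .nil)))) .nil))))),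
 (.br (nat_lit 13) (nat_lit 0) (.cons (.rf (nat_lit 2551) (nat_lit 493858305440582043680)) (.cons (.rf (nat_lit 2554) (nat_lit 493858305440582043680)) (.cons (.rf (nat_lit 2556) (nat_lit 493858305440582043680)) (.cons (.br (nat_lit 13) (nat_lit 0) (.cons (.rf (nat_lit 2523) (nat_lit 6132992408932418637)) (.cons (.rf (nat_lit 2553) (nat_lit 493858305440582043680)) (.cons (.rf (nat_lit 2556) (nat_lit 493858305440582043680)) .nil)))) .nil))))),
 (.br (nat_lit 7) (nat_lit 0) (.cons (.br (nat_lit 13) (nat_lit 0) (.cons (.ev (nat_lit 20282410812577562377645440630784) (nat_lit 1)) (.cons (.ev (nat_lit 20282409608374108965514757865728) (nat_lit 1)) .nil))) (.cons (.ev (nat_lit 310693935857980203528683521) (nat_lit 2)) (.cons (.br (nat_lit 1) (nat_lit 0) (.cons (.br (nat_lit 12) (nat_lit 0) (.cons (.ev (nat_lit 20282720302309678147994067665153) (nat_lit 1)) .nil)) (.cons (.br (nat_lit 11) (nat_lit 0) (.cons (.zr (nat_lit 237684496987526259999194152960) (nat_lit 310693991053249513082847489) (nat_lit 5) (nat_lit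 11)) .nil)) .nil))) .nil)))),
 (.br (nat_lit 13) (nat_lit 0) (.cons (.rf (nat_lit 2558) (nat_lit 493858305440582043680)) (.cons (.br (nat_lit 13) (nat_lit 0) (.cons (.rf (nat_lit 2558) (nat_lit 493858305440582043680)) (.cons (.rf (nat_lit 2523) (nat_lit 6132992408932418637)) .nil))) (.cons (.br (nat_lit 13) (nat_lit 0) (.cons (.rf (nat_lit 2558) (nat_lit 493858305440582043680)) (.cons (.rf (nat_lit 2523) (nat_lit 6132992408932418637)) .nil))) .nil)))),
 (.br (nat_lit 1) (nat_lit 0) (.cons (.ev (nat_lit 309485009821626543718269184) (nat_lit 1)) .nil)),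
 (.br (nat_lit 13) (nat_lit 0) (.cons (.rf (nat_lit 2559) (nat_lit 493858305440582043680)) (.cons (.br (nat_lit 7) (nat_lit 0) (.cons (.rf (nat_lit 2560) (nat_lit 15433072044983552032)) (.cons (.ev (nat_lit 79537647542532708210971770881) (nat_lit 1)) .nil))) .nil))),
 (.br (nat_lit 13) (nat_lit 0) (.cons (.rf (nat_lit 2559) (nat_lit 493858305440582043680)) (.cons (.rf (nat_lit 2561) (nat_lit 493858305440582043680)) (.cons (.br (nat_lit 13) (nat_lit 0) (.cons (.rf (nat_lit 2559) (nat_lit 493858305440582043680)) (.cons (.rf (nat_lit 2561) (nat_lit 493858305440582043680)) .nil))) .nil)))),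
 (.br (nat_lit 13) (nat_lit 0) (.cons (.rf (nat_lit 2559) (nat_lit 493858305440582043680)) (.cons (.rf (nat_lit 2562) (nat_lit 493858305440582043680)) (.cons (.br (nat_lit 13) (nat_lit 0) (.cons (.rf (nat_lit 2523) (nat_lit 6132992408932418637)) (.cons (.rf (nat_lit 2562) (nat_lit 493858305440582043680)) .nil))) .nil)))),
 (.br (nat_lit 13) (nat_lit 0) (.cons (.br (nat_lit 1) (nat_lit 0) (.cons (.kr (nat_lit 618970038233549403529936898) (nat_lit 40564821629877346841497507463168) (nat_lit 0) (nat_lit 1)) (.cons (.ev (nat_lit 18518801667764257024) (nat_lit 1)) .nil))) (.cons (.ev (nat_lit 40566057152194120203233375813634) (nat_lit 3)) (.cons (.br (nat_lit 1) (nat_lit 0) (.cons (.br (nat_lit 11) (nat_lit 0) (.cons (.ev (nat_lit 79229371458603036469249441793) (nat_lit 1)) .nil)) (.cons (.ev (nat_lit 20282720297605758127718860325121) (nat_lit 1)) (.cons (.rf (nat_lit 2311) (nat_lit 6028215822752789505)) .nil)))) .nil)))),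
 (.br (nat_lit 1) (nat_lit 0) (.cons (.rf (nat_lit 2523) (nat_lit 14242959524133712897)) (.cons (.br (nat_lit 5) (nat_lit 0) (.cons (.br (nat_lit 12) (nat_lit 0) (.cons (.ev (nat_lit 79537647542532426740290093056) (nat_lit 1)) .nil)) (.cons (.kr (nat_lit 618970038233549403529936898) (nat_lit 40564821629877346841497507463168) (nat_lit 0) (nat_lit 1)) .nil))) (.cons (.ev (nat_lit 18518801667764257024) (nat_lit 1)) .nil)))),
 (.br (nat_lit 13) (nat_lit 0) (.cons (.rf (nat_lit 2564) (nat_lit 493858305440582043680)) (.cons (.rf (nat_lit 2565) (nat_lit 493858305440582043680)) (.cons (.br (nat_lit 13) (nat_lit 0) (.cons (.ev (nat_lit 40566057152194120203233375813634) (nat_lit 3)) (.cons (.rf (nat_lit 2565) (nat_lit 493858305440582043680)) (.cons (.rf (nat_lit 2523) (nat_lit 6132992408932418637)) .nil)))) (.cons (.br (nat_lit 13) (nat_lit 0) (.cons (.rf (nat_lit 2564) (nat_lit 493858305440582043680)) (.cons (.rf (nat_lit 2565) (nat_lit 493858305440582043680)) (.cons (.rf (nat_lit 2523) (nat_lit 6132992408932418637))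 .nil)))) .nil))))),
 (.br (nat_lit 13) (nat_lit 0) (.cons (.rf (nat_lit 2566) (nat_lit 493858305440582043680)) (.cons (.ev (nat_lit 1864168465483848439413342212) (nat_lit 3)) (.cons (.br (nat_lit 13) (nat_lit 0) (.cons (.rf (nat_lit 2566) (nat_lit 493858305440582043680)) (.cons (.ev (nat_lit 1864168465483848439413342212) (nat_lit 3)) .nil))) .nil)))),
 (.br (nat_lit 1) (nat_lit 0) (.cons (.rf (nat_lit 2567) (nat_lit 493858305440582043680)) (.cons (.br (nat_lit 12) (nat_lit 0) (.cons (.ev (nat_lit 79537647542532708210971770881) (nat_lit 1)) (.cons (.ev (nat_lit 79850773496912628350644781825) (nat_lit 2)) .nil))) (.cons (.rf (nat_lit 2566) (nat_lit 493858305440582043680)) .nil)))),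
 (.br (nat_lit 1) (nat_lit 0) (.cons (.rf (nat_lit 2567) (nat_lit 493858305440582043680)) (.cons (.rf (nat_lit 2568) (nat_lit 493858305440582043680)) (.cons (.br (nat_lit 1) (nat_lit 0) (.cons (.rf (nat_lit 2567) (nat_lit 493858305440582043680)) (.cons (.rf (nat_lit 2568) (nat_lit 493858305440582043680)) (.cons (.rf (nat_lit 2566) (nat_lit 493858305440582043680)) .nil)))) (.cons (.rf (nat_lit 2566) (nat_lit 493858305440582043680)) .nil))))),
 (.br (nat_lit 1) (nat_lit 0) (.cons (.ev (nat_lit 1864168465483848439413342212) (nat_lit 3)) (.cons (.br (nat_lit 1) (nat_lit 0) (.cons (.ev (nat_lit 1864168465483848439413342212) (nat_lit 3)) (.cons (.ev (nat_lit 18518801667764257024) (nat_lit 1)) .nil))) (.cons (.rf (nat_lit 2566) (nat_lit 493858305440582043680)) .nil)))),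
 (.br (nat_lit 13) (nat_lit 0) (.cons (.rf (nat_lit 2566) (nat_lit 493858305440582043680)) (.cons (.rf (nat_lit 2569) (nat_lit 493858305440582043680)) (.cons (.rf (nat_lit 2570) (nat_lit 493858305440582043680)) (.cons (.br (nat_lit 13) (nat_lit 0) (.cons (.rf (nat_lit 2566) (nat_lit 493858305440582043680)) (.cons (.rf (nat_lit 2569) (nat_lit 493858305440582043680)) (.cons (.rf (nat_lit 2570) (nat_lit 493858305440582043680)) .nil)))) .nil))))),
 (.br (nat_lit 13) (nat_lit 0) (.cons (.rf (nat_lit 2566) (nat_lit 493858305440582043680)) (.cons (.rf (nat_lit 2569) (nat_lit 493858305440582043680)) (.cons (.rf (nat_lit 2571) (nat_lit 493858305440582043680)) (.cons (.br (nat_lit 13) (nat_lit 0) (.cons (.rf (nat_lit 2523) (nat_lit 6132992408932418637)) (.cons (.rf (nat_lit 2569) (nat_lit 493858305440582043680)) (.cons (.rf (nat_lit 2571) (nat_lit 493858305440582043680)) .nil)))) .nil))))),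
 (.br (nat_lit 11) (nat_lit 0) (.cons (.br (nat_lit 7) (nat_lit 0) (.cons (.ev (nat_lit 317531624891733433751928309250) (nat_lit 3)) .nil)) (.cons (.ev (nat_lit 40566057152194120203233375813634) (nat_lit 3)) .nil))),
 (.br (nat_lit 13) (nat_lit 0) (.cons (.rf (nat_lit 2573) (nat_lit 493858305440582043680)) (.cons (.br (nat_lit 13) (nat_lit 0) (.cons (.rf (nat_lit 2573) (nat_lit 493858305440582043680)) (.cons (.rf (nat_lit 2523) (nat_lit 6028215822752789505)) .nil))) (.cons (.rf (nat_lit 2523) (nat_lit 6028215822752789505)) .nil)))),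
 (.br (nat_lit 13) (nat_lit 0) (.cons (.rf (nat_lit 2574) (nat_lit 493858305440582043680)) (.cons (.br (nat_lit 13) (nat_lit 0) (.cons (.rf (nat_lit 2574) (nat_lit 493858305440582043680)) (.cons (.ev (nat_lit 40724513477185755390273044611074) (nat_lit 3)) .nil))) (.cons (.br (nat_lit 13) (nat_lit 0) (.cons (.ev (nat_lit 40566057152194120203233375813634) (nat_lit 3)) (.cons (.ev (nat_lit 40724513477185755390273044611074) (nat_lit 3)) .nil))) .nil)))),
 (.br (nat_lit 13) (nat_lit 0) (.cons (.rf (nat_lit 2574) (nat_lit 493858305440582043680)) (.cons (.rf (nat_lit 2575) (nat_lit 493858305440582043680)) (.cons (.br (nat_lit 13) (nat_lit 0) (.cons (.rf (nat_lit 2523) (nat_lit 6028215822752789505)) (.cons (.ev (nat_lit 40724513477185755390273044611074) (nat_lit 3)) .nil))) .nil)))),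
 (.br (nat_lit 7) (nat_lit 0) (.cons (.br (nat_lit 11) (nat_lit 0) (.cons (.ev (nat_lit 20282720302309677866514796052736) (nat_lit 1)) .nil)) (.cons (.ev (nat_lit 79229371458602754989977829376) (nat_lit 1)) .nil))),
 (.br (nat_lit 13) (nat_lit 0) (.cons (.rf (nat_lit 2577) (nat_lit 493858305440582043680)) (.cons (.br (nat_lit 13) (nat_lit 0) (.cons (.rf (nat_lit 2577) (nat_lit 493858305440582043680)) .nil)) .nil))),
 (.br (nat_lit 13) (nat_lit 0) (.cons (.rf (nat_lit 2578) (nat_lit 493858305440582043680)) (.cons (.br (nat_lit 13) (nat_lit 0) (.cons (.rf (nat_lit 2578) (nat_lit 493858305440582043680)) .nil)) .nil))),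
 (.br (nat_lit 1) (nat_lit 0) (.cons (.br (nat_lit 13) (nat_lit 0) (.cons (.br (nat_lit 11) (nat_lit 0) (.cons (.ev (nat_lit 20361638975110273177842012454913) (nat_lit 1)) .nil)) (.cons (.br (nat_lit 7) (nat_lit 0) (.cons (.ev (nat_lit 20361638975110273177842012454913) (nat_lit 1)) .nil)) .nil))) (.cons (.ev (nat_lit 79538861190718525338604863745) (nat_lit 1)) (.cons (.br (nat_lit 13) (nat_lit 0) (.cons (.rf (nat_lit 2523) (nat_lit 14242959524133712897)) (.cons (.rf (nat_lit 2497) (nat_lit 191653784895980621)) .nil))) .nil)))),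
 (.br (nat_lit 5) (nat_lit 0) (.cons (.ev (nat_lit 310698658007725142033039616) (nat_lit 1)) (.cons (.ev (nat_lit 79538856449905298395250032896) (nat_lit 1)) .nil))),
 (.br (nat_lit 1) (nat_lit 0) (.cons (.rf (nat_lit 2580) (nat_lit 493858305440582043680)) (.cons (.rf (nat_lit 2581) (nat_lit 493858305440582043680)) (.cons (.br (nat_lit 5) (nat_lit 0) (.cons (.zr (nat_lit 158456325028528957761576239107) (nat_lit 2417851639229258383032576) (nat_lit 5) (nat_lit 5)) (.cons (.ev (nat_lit 310693954087986346097443073) (nat_lit 1)) (.cons (.zr (nat_lit 79228162532711364241741840387) (nat_lit 2417851639229258383032576) (nat_lit 5) (nat_lit 5)) .nil)))) .nil)))),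
 (.br (nat_lit 1) (nat_lit 0) (.cons (.ev (nat_lit 79538856449905579865931841793) (nat_lit 1)) (.cons (.rf (nat_lit 2581) (nat_lit 493858305440582043680)) (.cons (.br (nat_lit 5) (nat_lit 0) (.cons (.ev (nat_lit 79538856449905298395250032896) (nat_lit 1)) (.cons (.ev (nat_lit 310698658007725142033039616) (nat_lit 1)) .nil))) .nil)))),
 (.br (nat_lit 12) (nat_lit 0) (.cons (.br (nat_lit 11) (nat_lit 0) (.cons (.ev (nat_lit 309485028340428211465814273) (nat_lit 1)) .nil)) (.cons (.ev (nat_lit 309485028340428211465814273) (nat_lit 1)) .nil))),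
 (.br (nat_lit 7) (nat_lit 0) (.cons (.rf (nat_lit 2584) (nat_lit 15433072044983552032)) (.cons (.br (nat_lit 12) (nat_lit 0) (.cons (.ev (nat_lit 121694460044502764079114505946628) (nat_lit 3)) .nil)) .nil))),
 (.br (nat_lit 12) (nat_lit 0) (.cons (.rf (nat_lit 2584) (nat_lit 15433072044983552032)) (.cons (.rf (nat_lit 2585) (nat_lit 493858305440582043680)) (.cons (.br (nat_lit 12) (nat_lit 0) (.cons (.ev (nat_lit 79228167255149622130953486593) (nat_lit 1)) (.cons (.rf (nat_lit 2585) (nat_lit 493858305440582043680)) .nil))) .nil))))]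

theorem c92 : chkAll C T R L92 (nat_lit 2552) = true := by decide +kernel

theorem l92 : (nat_lit 2552) + L92.length = (nat_lit 2587) := by decide +kernel

/-- part of the certificates -/
def L93 : List Prf := [(.br (nat_lit 7) (nat_lit 0) (.cons (.rf (nat_lit 2586) (nat_lit 493858305440582043680)) (.cons (.br (nat_lit 1) (nat_lit 0) (.cons (.ev (nat_lit 159701523474225718309565892100) (nat_lit 3)) (.cons (.br (nat_lit 12) (nat_lit 0) (.cons (.ev (nat_lit 20361638975110273177842012454913) (nat_lit 1)) .nil)) .nil))) (.cons (.ev (nat_lit 1208925891954801995939841) (nat_lit 1)) .nil)))),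
 (.br (nat_lit 7) (nat_lit 0) (.cons (.rf (nat_lit 2584) (nat_lit 15433072044983552032)) (.cons (.rf (nat_lit 2587) (nat_lit 493858305440582043680)) (.cons (.br (nat_lit 1) (nat_lit 0) (.cons (.ev (nat_lit 618974760889670024277657092) (nat_lit 3)) (.cons (.br (nat_lit 11) (nat_lit 0) (.cons (.zr (nat_lit 237684496987526259999194152960) (nat_lit 310693991053249513082847489) (nat_lit 5) (nat_lit 11)) .nil)) (.cons (.rf (nat_lit 2523) (nat_lit 14242959524133712897)) .nil)))) .nil)))),
 (.br (nat_lit 7) (nat_lit 0) (.cons (.rf (nat_lit 2586) (nat_lit 493858305440582043680)) (.cons (.rf (nat_lit 2587) (nat_lit 493858305440582043680)) (.cons (.rf (nat_lit 2588) (nat_lit 493858305440582043680)) (.cons (.br (nat_lit 7) (nat_lit 0) (.cons (.rf (nat_lit 2586) (nat_lit 493858305440582043680)) (.cons (.ev (nat_lit 1208925891954801995939841) (nat_lit 1)) (.cons (.rf (nat_lit 2588) (nat_lit 493858305440582043680)) .nil)))) .nil))))),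
 (.br (nat_lit 13) (nat_lit 0) (.cons (.br (nat_lit 12) (nat_lit 0) (.cons (.ev (nat_lit 79537647542532426740290093056) (nat_lit 1)) .nil)) (.cons (.ev (nat_lit 79537647542532426740290093056) (nat_lit 1)) .nil))),
 (.br (nat_lit 7) (nat_lit 0) (.cons (.br (nat_lit 12) (nat_lit 0) (.cons (.ev (nat_lit 202826574339409089801318329090570) (nat_lit 4)) .nil)) (.cons (.ev (nat_lit 79228162514336676666870399233) (nat_lit 1)) (.cons (.ev (nat_lit 20282409603670189508189503947008) (nat_lit 1)) .nil)))),
 (.br (nat_lit 12) (nat_lit 0) (.cons (.ev (nat_lit 79228162514336676666870399233) (nat_lit 1)) (.cons (.br (nat_lit 5) (nat_lit 0) (.cons (.ev (nat_lit 40644979451679940357708348129280) (nat_lit 2)) .nil)) (.cons (.ev (nat_lit 41198646930231846801895083084290) (nat_lit 4)) .nil)))),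
 (.br (nat_lit 1) (nat_lit 0) (.cons (.rf (nat_lit 2589) (nat_lit 493858305440582043680)) (.cons (.br (nat_lit 12) (nat_lit 0) (.cons (.rf (nat_lit 2590) (nat_lit 493858305440582043680)) (.cons (.br (nat_lit 12) (nat_lit 0) (.cons (.rf (nat_lit 2590) (nat_lit 493858305440582043680)) (.cons (.ev (nat_lit 952594865045711101427456413190) (nat_lit 4)) .nil))) (.cons (.br (nat_lit 12) (nat_lit 0) (.cons (.ev (nat_lit 79537647542532426740290093056) (nat_lit 1)) (.cons (.ev (nat_lit 952594865045711101427456413190) (nat_lit 4)) .nil))) .nil)))) (.cons (.br (nat_lit 5) (nat_lit 0) (.cons (.br (nat_lit 13) (nat_lit 0) (.cons (.br (nat_lit 12) (nat_lit 0) (.cons (.ev (nat_lit 475385904825344652892676294150) (nat_lit 4)) .nil)) (.cons (.ev (nat_lit 475385904825344652892676294150) (nat_lit 4)) .nil))) (.cons (.ev (nat_lit 310693954087986346097443073) (nat_lit 1)) (.cons (.br (nat_lit 13) (nat_lit 0) (.cons (.br (nat_lit 11) (nat_lit 0) (.cons (.ev (nat_lit 79537647542532426740290093056) (nat_lit 1)) .nil))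 (.cons (.ev (nat_lit 79537652246452447006907498496) (nat_lit 1)) .nil))) (.cons (.br (nat_lit 7) (nat_lit 0) (.cons (.ev (nat_lit 1213666704900266079027201) (nat_lit 1)) (.cons (.br (nat_lit 11) (nat_lit 0) (.cons (.ev (nat_lit 40724513477185755390273044611074) (nat_lit 3)) .nil)) (.cons (.br (nat_lit 11) (nat_lit 0) (.cons (.ev (nat_lit 79231789328761067403953176835) (nat_lit 2)) .nil)) .nil)))) .nil))))) (.cons (.br (nat_lit 12) (nat_lit 0) (.cons (.rf (nat_lit 2591) (nat_lit 493858305440582043680)) (.cons (.rf (nat_lit 2592) (nat_lit 493858305440582043680)) (.cons (.br (nat_lit 12) (nat_lit 0) (.cons (.rf (nat_lit 2591) (nat_lit 493858305440582043680)) (.cons (.rf (nat_lit 2592) (nat_lit 493858305440582043680)) (.cons (.rf (nat_lit 2523) (nat_lit 6164517744835626061)) .nil)))) (.cons (.rf (nat_lit 2523) (nat_lit 6164517744835626061)) .nil))))) .nil))))),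
 (.br (nat_lit 1) (nat_lit 0) (.cons (.rf (nat_lit 2589) (nat_lit 493858305440582043680)) (.cons (.rf (nat_lit 2593) (nat_lit 493858305440582043680)) (.cons (.br (nat_lit 7) (nat_lit 0) (.cons (.br (nat_lit 7) (nat_lit 0) (.cons (.ev (nat_lit 79537647542532708210971770881) (nat_lit 1)) (.cons (.ev (nat_lit 618974760889670024277657092) (nat_lit 3)) .nil))) (.cons (.ev (nat_lit 79537647542532708210971770881) (nat_lit 1)) (.cons (.br (nat_lit 7) (nat_lit 0) (.cons (.ev (nat_lit 618974760889670024277657092) (nat_lit 3)) (.cons (.ev (nat_lit 79537652246452165536225689601) (nat_lit 1)) .nil))) .nil)))) (.cons (.br (nat_lit 5) (nat_lit 0) (.cons (.br (nat_lit 7) (nat_lit 0) (.cons (.ev (nat_lit 618974760889670024277657092) (nat_lit 3)) (.cons (.ev (nat_lit 20282719088661491770115504537601) (nat_lit 1)) .nil))) (.cons (.ev (nat_lit 310693954087704875415634176) (nat_lit 1)) (.cons (.rf (nat_lit 2523) (nat_lit 14090929087143281741)) .nil)))) .nil))))),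
 (.br (nat_lit 1) (nat_lit 0) (.cons (.rf (nat_lit 2589) (nat_lit 493858305440582043680)) (.cons (.rf (nat_lit 2593) (nat_lit 493858305440582043680)) (.cons (.rf (nat_lit 2594) (nat_lit 493858305440582043680)) (.cons (.br (nat_lit 13) (nat_lit 0) (.cons (.br (nat_lit 7) (nat_lit 0) (.cons (.ev (nat_lit 20282719088661492051594776150016) (nat_lit 1)) (.cons (.br (nat_lit 7) (nat_lit 0) (.cons (.ev (nat_lit 20282719093402304997058859237376) (nat_lit 1)) .nil)) .nil))) (.cons (.br (nat_lit 7) (nat_lit 0) (.cons (.br (nat_lit 11) (nat_lit 0) (.cons (.zr (nat_lit 237684487561239756875816435712) (nat_lit 310703380446827456174752001) (nat_lit 5) (nat_lit 7)) .nil)) (.cons (.ev (nat_lit 283954989320939611096242423990786) (nat_lit 4)) (.cons (.br (nat_lit 5) (nat_lit 0) (.cons (.zr (nat_lit 237684496987526259999194152960) (nat_lit 310693991053249513082847489) (nat_lit 5) (nat_lit 11)) .nil)) .nil)))) (.cons (.rf (nat_lit 2523) (nat_lit 6028215822752789505)) (.cons (.rf (nat_lit 2283) (nat_lit 399875034141034541))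 .nil))))) .nil))))),
 (.br (nat_lit 2) (nat_lit 0) (.cons (.rf (nat_lit 2161) (nat_lit 14242959524133701664)) (.cons (.rf (nat_lit 2311) (nat_lit 14242959524133701664)) (.cons (.rf (nat_lit 2523) (nat_lit 14242959524133701664)) (.cons (.br (nat_lit 10) (nat_lit 0) (.cons (.br (nat_lit 5) (nat_lit 0) (.cons (.br (nat_lit 12) (nat_lit 0) (.cons (.kr (nat_lit 18446744073709551617) (nat_lit 79228162514264337593543950592) (nat_lit 0) (nat_lit 2)) (.cons (.kr (nat_lit 4740813508418331475970) (nat_lit 158456325028528675191382868480) (nat_lit 0) (nat_lit 2)) (.cons (.br (nat_lit 13) (nat_lit 0) (.cons (.rf (nat_lit 2524) (nat_lit 493858305440582043680)) (.cons (.br (nat_lit 7) (nat_lit 0) (.cons (.rf (nat_lit 2524) (nat_lit 493858305440582043680)) .nil)) .nil))) .nil)))) (.cons (.br (nat_lit 1) (nat_lit 0) (.cons (.ev (nat_lit 18519083147036000513) (nat_lit 1)) (.cons (.rf (nat_lit 2318) (nat_lit 264943007815534624)) (.cons (.br (nat_lit 11) (nat_lit 0) (.cons (.ev (nat_lit 476609337902657416701697197066)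 (nat_lit 4)) (.cons (.rf (nat_lit 2317) (nat_lit 465516847269920)) .nil))) (.cons (.br (nat_lit 7) (nat_lit 0) (.cons (.rf (nat_lit 2343) (nat_lit 465517887457312)) (.cons (.ev (nat_lit 79228162514336395187598655489) (nat_lit 1)) (.cons (.br (nat_lit 11) (nat_lit 0) (.cons (.ev (nat_lit 79229371458603036469249442048) (nat_lit 1)) (.cons (.rf (nat_lit 2525) (nat_lit 15433072045018155040)) .nil))) .nil)))) .nil))))) (.cons (.br (nat_lit 1) (nat_lit 0) (.cons (.br (nat_lit 7) (nat_lit 0) (.cons (.ev (nat_lit 79229376162522775265185169665) (nat_lit 1)) (.cons (.rf (nat_lit 2367) (nat_lit 470842606716960)) .nil))) (.cons (.ev (nat_lit 79850759311366435667999653891) (nat_lit 2)) (.cons (.rf (nat_lit 2330) (nat_lit 14894367169939488)) .nil)))) (.cons (.zr (nat_lit 475371392937225254841121898496) (nat_lit 14259334017800460042244) (nat_lit 10) (nat_lit 2)) (.cons (.br (nat_lit 13) (nat_lit 0) (.cons (.rf (nat_lit 2526) (nat_lit 493858305440582043680)) (.cons (.rf (nat_lit 2527) (nat_lit 493858305440582043680))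 (.cons (.rf (nat_lit 2528) (nat_lit 493858305440582043680)) (.cons (.br (nat_lit 13) (nat_lit 0) (.cons (.rf (nat_lit 2526) (nat_lit 493858305440582043680)) (.cons (.rf (nat_lit 2527) (nat_lit 493858305440582043680)) (.cons (.rf (nat_lit 2528) (nat_lit 493858305440582043680)) .nil)))) .nil))))) .nil)))))) (.cons (.br (nat_lit 1) (nat_lit 0) (.cons (.rf (nat_lit 2529) (nat_lit 14242959524133701664)) (.cons (.br (nat_lit 1) (nat_lit 0) (.cons (.rf (nat_lit 2529) (nat_lit 14242959524133701664)) (.cons (.zr (nat_lit 79229371458531259246398407424) (nat_lit 14167099450812253995008) (nat_lit 5) (nat_lit 1)) (.cons (.rf (nat_lit 2330) (nat_lit 14895432321828896)) .nil)))) (.cons (.br (nat_lit 1) (nat_lit 0) (.cons (.zr (nat_lit 79228167273524593384119861253) (nat_lit 4835703278458516766065152) (nat_lit 5) (nat_lit 5)) (.cons (.zr (nat_lit 79229371458531259246398407424) (nat_lit 14167099450812253995008) (nat_lit 5) (nat_lit 1)) (.cons (.rf (nat_lit 2330) (nat_lit 14896531799902240)) .nil)))) (.cons (.br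 (nat_lit 1) (nat_lit 0) (.cons (.rf (nat_lit 2529) (nat_lit 14242959524133701664)) (.cons (.rf (nat_lit 2330) (nat_lit 14895432321828896)) (.cons (.rf (nat_lit 2330) (nat_lit 14896531799902240)) .nil)))) .nil))))) (.cons (.br (nat_lit 1) (nat_lit 0) (.cons (.rf (nat_lit 2530) (nat_lit 14242959524133701664)) (.cons (.rf (nat_lit 2531) (nat_lit 14242959524133701664)) (.cons (.rf (nat_lit 2532) (nat_lit 14242959524133701664)) (.cons (.rf (nat_lit 2533) (nat_lit 14242959524133701664)) (.cons (.br (nat_lit 1) (nat_lit 0) (.cons (.rf (nat_lit 2530) (nat_lit 14242959524133701664)) (.cons (.rf (nat_lit 2531) (nat_lit 14242959524133701664)) (.cons (.rf (nat_lit 2532) (nat_lit 14242959524133701664)) (.cons (.rf (nat_lit 2533) (nat_lit 14242959524133701664)) .nil))))) .nil)))))) (.cons (.ev (nat_lit 309485009821626543718268929) (nat_lit 1)) (.cons (.br (nat_lit 1) (nat_lit 0) (.cons (.rf (nat_lit 2534) (nat_lit 14242959524133701664)) (.cons (.rf (nat_lit 2537) (nat_lit 14242959524133701664)) (.cons (.br (nat_lit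 1) (nat_lit 0) (.cons (.kr (nat_lit 4740813508418331475970) (nat_lit 158456325028528675191382868480) (nat_lit 0) (nat_lit 2)) (.cons (.rf (nat_lit 2537) (nat_lit 14242959524133701664)) (.cons (.rf (nat_lit 2336) (nat_lit 465484601460768)) .nil)))) (.cons (.br (nat_lit 1) (nat_lit 0) (.cons (.rf (nat_lit 2534) (nat_lit 14242959524133701664)) (.cons (.rf (nat_lit 2537) (nat_lit 14242959524133701664)) (.cons (.rf (nat_lit 2336) (nat_lit 465484601460768)) .nil)))) .nil))))) (.cons (.br (nat_lit 13) (nat_lit 0) (.cons (.rf (nat_lit 2541) (nat_lit 493858305440582043680)) (.cons (.rf (nat_lit 2543) (nat_lit 493858305440582043680)) (.cons (.rf (nat_lit 2545) (nat_lit 493858305440582043680)) (.cons (.rf (nat_lit 2546) (nat_lit 493858305440582043680)) (.cons (.br (nat_lit 13) (nat_lit 0) (.cons (.rf (nat_lit 2541) (nat_lit 493858305440582043680)) (.cons (.rf (nat_lit 2543) (nat_lit 493858305440582043680)) (.cons (.rf (nat_lit 2545) (nat_lit 493858305440582043680)) (.cons (.rf (nat_lit 2546) (nat_lit 493858305440582043680))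 .nil))))) .nil)))))) .nil))))))) (.cons (.br (nat_lit 10) (nat_lit 0) (.cons (.br (nat_lit 13) (nat_lit 0) (.cons (.rf (nat_lit 2551) (nat_lit 493858305440582043680)) (.cons (.rf (nat_lit 2554) (nat_lit 493858305440582043680)) (.cons (.rf (nat_lit 2556) (nat_lit 493858305440582043680)) (.cons (.rf (nat_lit 2557) (nat_lit 493858305440582043680)) (.cons (.br (nat_lit 13) (nat_lit 0) (.cons (.rf (nat_lit 2551) (nat_lit 493858305440582043680)) (.cons (.rf (nat_lit 2554) (nat_lit 493858305440582043680)) (.cons (.rf (nat_lit 2556) (nat_lit 493858305440582043680)) (.cons (.rf (nat_lit 2557) (nat_lit 493858305440582043680)) .nil))))) .nil)))))) (.cons (.br (nat_lit 13) (nat_lit 0) (.cons (.rf (nat_lit 2559) (nat_lit 493858305440582043680)) (.cons (.rf (nat_lit 2562) (nat_lit 493858305440582043680)) (.cons (.rf (nat_lit 2563) (nat_lit 493858305440582043680)) (.cons (.br (nat_lit 13) (nat_lit 0) (.cons (.rf (nat_lit 2559) (nat_lit 493858305440582043680)) (.cons (.rf (nat_lit 2562) (nat_lit 493858305440582043680))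 (.cons (.rf (nat_lit 2563) (nat_lit 493858305440582043680)) .nil)))) .nil))))) (.cons (.br (nat_lit 13) (nat_lit 0) (.cons (.rf (nat_lit 2566) (nat_lit 493858305440582043680)) (.cons (.rf (nat_lit 2569) (nat_lit 493858305440582043680)) (.cons (.rf (nat_lit 2571) (nat_lit 493858305440582043680)) (.cons (.rf (nat_lit 2572) (nat_lit 493858305440582043680)) (.cons (.br (nat_lit 13) (nat_lit 0) (.cons (.rf (nat_lit 2566) (nat_lit 493858305440582043680)) (.cons (.rf (nat_lit 2569) (nat_lit 493858305440582043680)) (.cons (.rf (nat_lit 2571) (nat_lit 493858305440582043680)) (.cons (.rf (nat_lit 2572) (nat_lit 493858305440582043680)) .nil))))) .nil)))))) (.cons (.ev (nat_lit 309485009821626543718268929) (nat_lit 1)) (.cons (.br (nat_lit 12) (nat_lit 0) (.cons (.br (nat_lit 13) (nat_lit 0) (.cons (.rf (nat_lit 2574) (nat_lit 493858305440582043680)) (.cons (.rf (nat_lit 2575) (nat_lit 493858305440582043680)) (.cons (.rf (nat_lit 2576) (nat_lit 493858305440582043680)) (.cons (.br (nat_lit 13) (nat_lit 0) (.cons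 (.rf (nat_lit 2523) (nat_lit 6028215822752789505)) (.cons (.rf (nat_lit 2575) (nat_lit 493858305440582043680)) (.cons (.rf (nat_lit 2576) (nat_lit 493858305440582043680)) .nil)))) .nil))))) (.cons (.br (nat_lit 13) (nat_lit 0) (.cons (.rf (nat_lit 2578) (nat_lit 493858305440582043680)) (.cons (.rf (nat_lit 2579) (nat_lit 493858305440582043680)) (.cons (.br (nat_lit 13) (nat_lit 0) (.cons (.rf (nat_lit 2578) (nat_lit 493858305440582043680)) (.cons (.rf (nat_lit 2579) (nat_lit 493858305440582043680)) .nil))) .nil)))) (.cons (.kr (nat_lit 18446744073709551616) (nat_lit 79228162514264337593543950336) (nat_lit 8) (nat_lit 0)) (.cons (.kr (nat_lit 158456325028528675191382867968) (nat_lit 4740813508418331475968) (nat_lit 4) (nat_lit 0)) (.cons (.br (nat_lit 1) (nat_lit 0) (.cons (.rf (nat_lit 2580) (nat_lit 493858305440582043680)) (.cons (.rf (nat_lit 2582) (nat_lit 493858305440582043680)) (.cons (.rf (nat_lit 2583) (nat_lit 493858305440582043680)) (.cons (.br (nat_lit 1) (nat_lit 0) (.cons (.rf (nat_lit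 2580) (nat_lit 493858305440582043680)) (.cons (.rf (nat_lit 2582) (nat_lit 493858305440582043680)) (.cons (.rf (nat_lit 2583) (nat_lit 493858305440582043680)) .nil)))) .nil))))) .nil)))))) (.cons (.br (nat_lit 1) (nat_lit 0) (.cons (.rf (nat_lit 2589) (nat_lit 493858305440582043680)) (.cons (.rf (nat_lit 2593) (nat_lit 493858305440582043680)) (.cons (.rf (nat_lit 2594) (nat_lit 493858305440582043680)) (.cons (.rf (nat_lit 2595) (nat_lit 493858305440582043680)) (.cons (.br (nat_lit 1) (nat_lit 0) (.cons (.rf (nat_lit 2589) (nat_lit 493858305440582043680)) (.cons (.rf (nat_lit 2593) (nat_lit 493858305440582043680)) (.cons (.rf (nat_lit 2594) (nat_lit 493858305440582043680)) (.cons (.rf (nat_lit 2595) (nat_lit 493858305440582043680)) .nil))))) .nil)))))) .nil))))))) .nil)))))),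
 (.br (nat_lit 11) (nat_lit 0) (.cons (.ev (nat_lit 20362566230640204102667704730370) (nat_lit 2)) .nil)),
 (.br (nat_lit 7) (nat_lit 0) (.cons (.ev (nat_lit 20282410812577562377645440630784) (nat_lit 1)) (.cons (.ev (nat_lit 18518801667764257024) (nat_lit 1)) .nil))),
 (.br (nat_lit 1) (nat_lit 0) (.cons (.br (nat_lit 10) (nat_lit 0) (.cons (.br (nat_lit 11) (nat_lit 0) (.cons (.br (nat_lit 11) (nat_lit 0) (.cons (.ev (nat_lit 40881731862212180403725984333830) (nat_lit 3)) .nil)) (.cons (.ev (nat_lit 121694462462465083207640265261062) (nat_lit 3)) .nil))) (.cons (.br (nat_lit 13) (nat_lit 0) (.cons (.ev (nat_lit 1213666704900266079027201) (nat_lit 1)) (.cons (.ev (nat_lit 121695700402430293381261354598402) (nat_lit 3)) (.cons (.br (nat_lit 7) (nat_lit 0) (.cons (.ev (nat_lit 79228167255149622130953486336) (nat_lit 1)) .nil)) .nil)))) (.cons (.br (nat_lit 11) (nat_lit 0) (.cons (.br (nat_lit 11) (nat_lit 0) (.cons (.ev (nat_lit 40881731862212180403725984333830) (nat_lit 3)) .nil)) (.cons (.br (nat_lit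 7) (nat_lit 0) (.cons (.ev (nat_lit 40881731862212180403725984333830) (nat_lit 3)) .nil)) .nil))) (.cons (.rf (nat_lit 2596) (nat_lit 14090929087143281741)) .nil))))) (.cons (.br (nat_lit 7) (nat_lit 0) (.cons (.br (nat_lit 7) (nat_lit 0) (.cons (.rf (nat_lit 2597) (nat_lit 493858305440582043680)) (.cons (.ev (nat_lit 1208925891954801995939841) (nat_lit 1)) .nil))) (.cons (.br (nat_lit 7) (nat_lit 0) (.cons (.rf (nat_lit 2597) (nat_lit 493858305440582043680)) (.cons (.ev (nat_lit 18518801667764257024) (nat_lit 1)) .nil))) (.cons (.rf (nat_lit 2598) (nat_lit 493858305440582043680)) .nil)))) (.cons (.br (nat_lit 10) (nat_lit 0) (.cons (.br (nat_lit 7) (nat_lit 0) (.cons (.br (nat_lit 12) (nat_lit 0) (.cons (.ev (nat_lit 20361638975110273177842012455168) (nat_lit 1)) .nil)) (.cons (.ev (nat_lit 79229371440228070709379792897) (nat_lit 2)) (.cons (.br (nat_lit 11) (nat_lit 0) (.cons (.ev (nat_lit 41041433380760838068390926090240) (nat_lit 3)) .nil)) .nil)))) (.cons (.br (nat_lit 12) (nat_lit 0) (.cons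 (.br (nat_lit 7) (nat_lit 0) (.cons (.ev (nat_lit 40723277955035292081480982986752) (nat_lit 3)) .nil)) (.cons (.ev (nat_lit 20282719093402305278538130981120) (nat_lit 1)) .nil))) (.cons (.rf (nat_lit 2495) (nat_lit 493854927841795344416)) (.cons (.rf (nat_lit 2523) (nat_lit 14090929087143281741)) .nil))))) (.cons (.br (nat_lit 11) (nat_lit 0) (.cons (.br (nat_lit 11) (nat_lit 0) (.cons (.ev (nat_lit 79538861190718806809286541568) (nat_lit 1)) (.cons (.rf (nat_lit 2523) (nat_lit 6028215822752789505)) .nil))) (.cons (.br (nat_lit 11) (nat_lit 0) (.cons (.ev (nat_lit 79538861190718806809286541568) (nat_lit 1)) (.cons (.ev (nat_lit 121695700402430293381261354598402) (nat_lit 3)) .nil))) (.cons (.rf (nat_lit 2523) (nat_lit 6028215822752789505)) .nil)))) .nil)))))]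

theorem c93 : chkAll C T R L93 (nat_lit 2587) = true := by decide +kernel

theorem l93 : (nat_lit 2587) + L93.length = (nat_lit 2600) := by decide +kernel

/-- part of the certificates -/
def L94 : List Prf := [(.br (nat_lit 13) (nat_lit 0) (.cons (.rf (nat_lit 2599) (nat_lit 493858305440582043680)) (.cons (.br (nat_lit 1) (nat_lit 0) (.cons (.rf (nat_lit 2523) (nat_lit 14242959524133712897)) (.cons (.br (nat_lit 11) (nat_lit 0) (.cons (.ev (nat_lit 1213666704900266079027201) (nat_lit 1)) (.cons (.ev (nat_lit 79228167255149622130953486336) (nat_lit 1)) .nil))) (.cons (.br (nat_lit 12) (nat_lit 0) (.cons (.br (nat_lit 7) (nat_lit 0) (.cons (.ev (nat_lit 202824098459183523800730971539970) (nat_lit 4)) .nil)) (.cons (.ev (nat_lit 41198646930231849053660536504834) (nat_lit 4)) (.cons (.ev (nat_lit 41201122810162269400902715179530) (nat_lit 4)) .nil)))) (.cons (.rf (nat_lit 2596) (nat_lit 6028215822752789505)) .nil))))) (.cons (.br (nat_lit 1) (nat_lit 0) (.cons (.rf (nat_lit 2523) (nat_lit 14242959524133712897))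 (.cons (.br (nat_lit 10) (nat_lit 0) (.cons (.ev (nat_lit 20282409603670189508189503947008) (nat_lit 1)) (.cons (.ev (nat_lit 121696321790375507515849574449668) (nat_lit 3)) (.cons (.br (nat_lit 5) (nat_lit 0) (.cons (.ev (nat_lit 20520713061232552872042882400512) (nat_lit 2)) .nil)) .nil)))) (.cons (.br (nat_lit 5) (nat_lit 0) (.cons (.ev (nat_lit 20282410817318375323118113652736) (nat_lit 1)) (.cons (.ev (nat_lit 309485009821626543718269184) (nat_lit 1)) (.cons (.zr (nat_lit 1208925819614633486647297) (nat_lit 18446746272732807936) (nat_lit 5) (nat_lit 2)) .nil)))) (.cons (.br (nat_lit 10) (nat_lit 0) (.cons (.br (nat_lit 7) (nat_lit 0) (.cons (.ev (nat_lit 316919908353076779172829201920) (nat_lit 3)) .nil)) (.cons (.br (nat_lit 5) (nat_lit 0) (.cons (.ev (nat_lit 79540065412835138003422871810) (nat_lit 2)) .nil)) (.cons (.ev (nat_lit 20282720302309678147994067664896) (nat_lit 1)) .nil)))) (.cons (.rf (nat_lit 2523) (nat_lit 6028215822752789505)) .nil)))))) (.cons (.br (nat_lit 1) (nat_lit 0)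 (.cons (.rf (nat_lit 2523) (nat_lit 14242959524133712897)) (.cons (.rf (nat_lit 2311) (nat_lit 5885226501296850989)) (.cons (.br (nat_lit 11) (nat_lit 0) (.cons (.br (nat_lit 7) (nat_lit 0) (.cons (.ev (nat_lit 636922572841819633745307894274) (nat_lit 4)) .nil)) (.cons (.br (nat_lit 5) (nat_lit 0) (.cons (.ev (nat_lit 636922572841819633745307894274) (nat_lit 4)) .nil)) .nil))) (.cons (.br (nat_lit 5) (nat_lit 0) (.cons (.br (nat_lit 10) (nat_lit 0) (.cons (.ev (nat_lit 162261150669012483006632045053446) (nat_lit 4)) .nil)) (.cons (.br (nat_lit 7) (nat_lit 0) (.cons (.ev (nat_lit 81129645672976488105263363392000) (nat_lit 3)) .nil)) (.cons (.br (nat_lit 7) (nat_lit 0) (.cons (.ev (nat_lit 162259898221863076267815552158210) (nat_lit 4)) .nil)) .nil)))) .nil))))) .nil))))),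
 (.br (nat_lit 1) (nat_lit 0) (.cons (.br (nat_lit 13) (nat_lit 0) (.cons (.rf (nat_lit 2523) (nat_lit 14242959524133712897)) (.cons (.rf (nat_lit 2596) (nat_lit 14242959524133712897)) (.cons (.br (nat_lit 7) (nat_lit 0) (.cons (.br (nat_lit 7) (nat_lit 0) .nil) .nil)) .nil)))) (.cons (.rf (nat_lit 2600) (nat_lit 43058005892254728610)) (.cons (.br (nat_lit 13) (nat_lit 0) (.cons (.rf (nat_lit 2523) (nat_lit 14090929087143281741)) (.cons (.rf (nat_lit 2600) (nat_lit 493858305440582043680)) (.cons (.rf (nat_lit 2283) (nat_lit 2497677252222091681)) (.cons (.rf (nat_lit 2596) (nat_lit 6164517744835626061)) .nil))))) (.cons (.rf (nat_lit 2599) (nat_lit 43058005892254728610)) .nil))))),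
 (.br (nat_lit 7) (nat_lit 0) (.cons (.ev (nat_lit 79537647542532708210971770881) (nat_lit 1)) (.cons (.ev (nat_lit 309489750634854590879629568) (nat_lit 1)) (.cons (.kr (nat_lit 158456325046976263685727584768) (nat_lit 618974742153288199465730048) (nat_lit 1) (nat_lit 0)) .nil)))),
 (.br (nat_lit 13) (nat_lit 0) (.cons (.rf (nat_lit 2599) (nat_lit 493858305440582043680)) (.cons (.rf (nat_lit 2600) (nat_lit 493858305440582043680)) (.cons (.rf (nat_lit 2601) (nat_lit 493858305440582043680)) (.cons (.br (nat_lit 11) (nat_lit 0) (.cons (.rf (nat_lit 2311) (nat_lit 6132992408932419629)) (.cons (.br (nat_lit 1) (nat_lit 0) (.cons (.rf (nat_lit 2602) (nat_lit 493858305440582043680)) (.cons (.ev (nat_lit 309489750634572016391291136) (nat_lit 1)) .nil))) (.cons (.ev (nat_lit 79537647542532708210971770881) (nat_lit 1)) (.cons (.br (nat_lit 1) (nat_lit 0) (.cons (.ev (nat_lit 309489750634572016391291136) (nat_lit 1)) (.cons (.br (nat_lit 5) (nat_lit 0) (.cons (.zr (nat_lit 928459752046690862228504576) (nat_lit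 20282410812632830834847036473345) (nat_lit 5) (nat_lit 13)) .nil)) .nil))) .nil))))) .nil))))),
 (.br (nat_lit 13) (nat_lit 0) (.cons (.rf (nat_lit 2599) (nat_lit 493858305440582043680)) (.cons (.rf (nat_lit 2600) (nat_lit 493858305440582043680)) (.cons (.rf (nat_lit 2601) (nat_lit 493858305440582043680)) (.cons (.rf (nat_lit 2603) (nat_lit 493858305440582043680)) (.cons (.br (nat_lit 13) (nat_lit 0) (.cons (.rf (nat_lit 2599) (nat_lit 493858305440582043680)) (.cons (.rf (nat_lit 2600) (nat_lit 493858305440582043680)) (.cons (.rf (nat_lit 2601) (nat_lit 493858305440582043680)) (.cons (.rf (nat_lit 2603) (nat_lit 493858305440582043680)) .nil))))) .nil)))))),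
 (.br (nat_lit 11) (nat_lit 0) (.cons (.ev (nat_lit 1208925891954801995939841) (nat_lit 1)) (.cons (.ev (nat_lit 79228162514336676666870398976) (nat_lit 1)) (.cons (.br (nat_lit 10) (nat_lit 0) (.cons (.ev (nat_lit 79538856449905298395250032896) (nat_lit 1)) .nil)) .nil)))),
 (.br (nat_lit 7) (nat_lit 0) (.cons (.ev (nat_lit 1213666704900266079027201) (nat_lit 1)) (.cons (.br (nat_lit 11) (nat_lit 0) (.cons (.ev (nat_lit 20282409603670189226718822138113) (nat_lit 1)) .nil)) (.cons (.rf (nat_lit 2605) (nat_lit 493858305440582043680)) .nil)))),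
 (.br (nat_lit 10) (nat_lit 0) (.cons (.br (nat_lit 12) (nat_lit 0) (.cons (.ev (nat_lit 20282409603670189226718822138113) (nat_lit 1)) .nil)) (.cons (.ev (nat_lit 79538861190718806809286541568) (nat_lit 1)) (.cons (.rf (nat_lit 2606) (nat_lit 493858305440582043680)) .nil)))),
 (.br (nat_lit 1) (nat_lit 0) (.cons (.br (nat_lit 12) (nat_lit 0) (.cons (.ev (nat_lit 79229376162522775265185169665) (nat_lit 1)) (.cons (.br (nat_lit 13) (nat_lit 0) (.cons (.ev (nat_lit 79228167255149622130953486336) (nat_lit 1)) (.cons (.ev (nat_lit 79538861190718806809286541568) (nat_lit 1)) .nil))) (.cons (.rf (nat_lit 2400) (nat_lit 15252928196253943840)) .nil)))) (.cons (.br (nat_lit 13) (nat_lit 0) (.cons (.rf (nat_lit 2605) (nat_lit 493858305440582043680)) (.cons (.rf (nat_lit 2606) (nat_lit 493858305440582043680)) (.cons (.rf (nat_lit 2607) (nat_lit 493858305440582043680)) (.cons (.br (nat_lit 13) (nat_lit 0) (.cons (.rf (nat_lit 2605) (nat_lit 493858305440582043680)) (.cons (.rf (nat_lit 2606) (nat_lit 493858305440582043680))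 (.cons (.rf (nat_lit 2607) (nat_lit 493858305440582043680)) .nil)))) .nil))))) (.cons (.br (nat_lit 10) (nat_lit 0) (.cons (.ev (nat_lit 79229371458602754989977829633) (nat_lit 1)) (.cons (.zr (nat_lit 4777707561714727256070) (nat_lit 4835703278458521061032448) (nat_lit 10) (nat_lit 5)) (.cons (.rf (nat_lit 2400) (nat_lit 15252998496278644768)) .nil)))) (.cons (.rf (nat_lit 2604) (nat_lit 493858305440582043680)) .nil))))),
 (.br (nat_lit 7) (nat_lit 0) (.cons (.ev (nat_lit 18518801667764257024) (nat_lit 1)) (.cons (.br (nat_lit 11) (nat_lit 0) (.cons (.ev (nat_lit 317538878483545737790472193536) (nat_lit 3)) .nil)) .nil))),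
 (.br (nat_lit 1) (nat_lit 0) (.cons (.rf (nat_lit 2608) (nat_lit 493858305440582043680)) (.cons (.br (nat_lit 7) (nat_lit 0) (.cons (.ev (nat_lit 310698658007443671351361536) (nat_lit 1)) (.cons (.rf (nat_lit 2609) (nat_lit 493858305440582043680)) (.cons (.br (nat_lit 7) (nat_lit 0) (.cons (.ev (nat_lit 1208925891954801995939841) (nat_lit 1)) (.cons (.rf (nat_lit 2609) (nat_lit 493858305440582043680)) .nil))) .nil)))) (.cons (.br (nat_lit 7) (nat_lit 0) (.cons (.br (nat_lit 7) (nat_lit 0) (.cons (.ev (nat_lit 1208925891954801995939841) (nat_lit 1)) .nil)) (.cons (.br (nat_lit 11) (nat_lit 0) (.cons (.ev (nat_lit 1208925891954801995939841) (nat_lit 1)) (.cons (.rf (nat_lit 2395) (nat_lit 15252998496278644768)) .nil))) .nil))) (.cons (.rf (nat_lit 2604) (nat_lit 493858305440582043680)) .nil))))),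
 (.br (nat_lit 1) (nat_lit 0) (.cons (.rf (nat_lit 2608) (nat_lit 493858305440582043680)) (.cons (.rf (nat_lit 2610) (nat_lit 493858305440582043680)) (.cons (.br (nat_lit 7) (nat_lit 0) (.cons (.zr (nat_lit 36893770721907441667) (nat_lit 2417851639229258383032576) (nat_lit 5) (nat_lit 5)) (.cons (.ev (nat_lit 79537652246452165536225689601) (nat_lit 1)) (.cons (.br (nat_lit 7) (nat_lit 0) (.cons (.zr (nat_lit 36893770721907441667) (nat_lit 2417851639229258383032576) (nat_lit 5) (nat_lit 5)) (.cons (.ev (nat_lit 79537652246452165536225689601) (nat_lit 1)) .nil))) .nil)))) (.cons (.rf (nat_lit 2604) (nat_lit 493858305440582043680)) .nil))))),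
 (.br (nat_lit 1) (nat_lit 0) (.cons (.rf (nat_lit 2608) (nat_lit 493858305440582043680)) (.cons (.rf (nat_lit 2610) (nat_lit 493858305440582043680)) (.cons (.rf (nat_lit 2611) (nat_lit 493858305440582043680)) (.cons (.br (nat_lit 1) (nat_lit 0) (.cons (.rf (nat_lit 2608) (nat_lit 493858305440582043680)) (.cons (.rf (nat_lit 2610) (nat_lit 493858305440582043680)) (.cons (.rf (nat_lit 2611) (nat_lit 493858305440582043680)) (.cons (.rf (nat_lit 2604) (nat_lit 493858305440582043680)) .nil))))) (.cons (.rf (nat_lit 2604) (nat_lit 493858305440582043680)) .nil)))))),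
 (.br (nat_lit 11) (nat_lit 0) (.cons (.ev (nat_lit 79228162514336676666870398976) (nat_lit 1)) .nil)),
 (.br (nat_lit 1) (nat_lit 0) (.cons (.rf (nat_lit 2613) (nat_lit 493858305440582043680)) (.cons (.br (nat_lit 7) (nat_lit 0) (.cons (.ev (nat_lit 20282409603670189226718822138113) (nat_lit 1)) .nil)) (.cons (.rf (nat_lit 2612) (nat_lit 43058005892254728610)) .nil)))),
 (.br (nat_lit 1) (nat_lit 0) (.cons (.rf (nat_lit 2613) (nat_lit 493858305440582043680)) (.cons (.br (nat_lit 5) (nat_lit 0) (.cons (.zr (nat_lit 80317123696978632572943) (nat_lit 1347189456678207887779666332672) (nat_lit 30) (nat_lit 3)) .nil)) (.cons (.rf (nat_lit 2612) (nat_lit 43058005892254728610)) .nil)))),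
 (.br (nat_lit 11) (nat_lit 0) (.cons (.br (nat_lit 7) (nat_lit 0) (.cons (.ev (nat_lit 1208925891954801995939841) (nat_lit 1)) .nil)) (.cons (.ev (nat_lit 1208925891954801995939841) (nat_lit 1)) .nil))),
 (.br (nat_lit 11) (nat_lit 0) (.cons (.rf (nat_lit 2613) (nat_lit 43058005892254728610)) (.cons (.ev (nat_lit 1213666704900266079027201) (nat_lit 1)) .nil))),
 (.br (nat_lit 13) (nat_lit 0) (.cons (.rf (nat_lit 2604) (nat_lit 493858305440582043680)) (.cons (.rf (nat_lit 2612) (nat_lit 493858305440582043680)) (.cons (.br (nat_lit 1) (nat_lit 0) (.cons (.rf (nat_lit 2614) (nat_lit 493858305440582043680)) (.cons (.rf (nat_lit 2615) (nat_lit 493858305440582043680)) (.cons (.br (nat_lit 1) (nat_lit 0) (.cons (.rf (nat_lit 2614) (nat_lit 493858305440582043680)) (.cons (.rf (nat_lit 2615) (nat_lit 493858305440582043680)) (.cons (.rf (nat_lit 2612) (nat_lit 43058005892254728610)) .nil)))) (.cons (.rf (nat_lit 2612) (nat_lit 43058005892254728610)) .nil))))) (.cons (.br (nat_lit 1) (nat_lit 0) (.cons (.rf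 (nat_lit 2616) (nat_lit 493858305440582043680)) (.cons (.rf (nat_lit 2617) (nat_lit 493858305440582043680)) (.cons (.br (nat_lit 1) (nat_lit 0) (.cons (.rf (nat_lit 2616) (nat_lit 493858305440582043680)) (.cons (.rf (nat_lit 2617) (nat_lit 493858305440582043680)) .nil))) .nil)))) .nil))))),
 (.br (nat_lit 1) (nat_lit 0) (.cons (.ev (nat_lit 79229376162522492686401798144) (nat_lit 1)) .nil)),
 (.br (nat_lit 13) (nat_lit 0) (.cons (.rf (nat_lit 2604) (nat_lit 493858305440582043680)) (.cons (.rf (nat_lit 2612) (nat_lit 493858305440582043680)) (.cons (.rf (nat_lit 2618) (nat_lit 493858305440582043680)) (.cons (.br (nat_lit 7) (nat_lit 0) (.cons (.br (nat_lit 1) (nat_lit 0) (.cons (.br (nat_lit 10) (nat_lit 0) (.cons (.ev (nat_lit 20441795592635555650993001660675) (nat_lit 2)) .nil)) (.cons (.br (nat_lit 5) (nat_lit 0) (.cons (.ev (nat_lit 20521022546224000375056865689856) (nat_lit 2)) .nil)) (.cons (.br (nat_lit 5) (nat_lit 0) (.cons (.ev (nat_lit 79229371458603036469249442048) (nat_lit 1)) .nil))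 .nil)))) (.cons (.br (nat_lit 10) (nat_lit 0) (.cons (.rf (nat_lit 2619) (nat_lit 15433072045018155040)) (.cons (.ev (nat_lit 20441484898736735559993729941506) (nat_lit 2)) .nil))) (.cons (.br (nat_lit 5) (nat_lit 0) (.cons (.br (nat_lit 1) (nat_lit 0) (.cons (.ev (nat_lit 310693954087986346097442816) (nat_lit 1)) .nil)) (.cons (.ev (nat_lit 20362257945148290835929865650177) (nat_lit 2)) .nil))) (.cons (.ev (nat_lit 79537652246452165536225689601) (nat_lit 1)) .nil))))) .nil))))),
 (.br (nat_lit 13) (nat_lit 0) (.cons (.rf (nat_lit 2604) (nat_lit 493858305440582043680)) (.cons (.rf (nat_lit 2612) (nat_lit 493858305440582043680)) (.cons (.rf (nat_lit 2618) (nat_lit 493858305440582043680)) (.cons (.rf (nat_lit 2620) (nat_lit 493858305440582043680)) (.cons (.br (nat_lit 13) (nat_lit 0) (.cons (.rf (nat_lit 2604) (nat_lit 493858305440582043680)) (.cons (.rf (nat_lit 2612) (nat_lit 493858305440582043680)) (.cons (.rf (nat_lit 2618) (nat_lit 493858305440582043680)) (.cons (.rf (nat_lit 2620) (nat_lit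 493858305440582043680)) .nil))))) .nil)))))),
 (.br (nat_lit 1) (nat_lit 0) (.cons (.rf (nat_lit 2621) (nat_lit 43058005892254728610)) (.cons (.br (nat_lit 7) (nat_lit 0) (.cons (.ev (nat_lit 310693954087986346097442816) (nat_lit 1)) (.cons (.br (nat_lit 7) (nat_lit 0) (.cons (.ev (nat_lit 310693954087986346097442816) (nat_lit 1)) (.cons (.rf (nat_lit 2621) (nat_lit 493858305440582043680)) .nil))) (.cons (.rf (nat_lit 2621) (nat_lit 493858305440582043680)) .nil)))) (.cons (.rf (nat_lit 2612) (nat_lit 43058005892254728610)) (.cons (.rf (nat_lit 2604) (nat_lit 493858305440582043680)) .nil))))),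
 (.br (nat_lit 1) (nat_lit 0) (.cons (.rf (nat_lit 2622) (nat_lit 493858305440582043680)) (.cons (.rf (nat_lit 2621) (nat_lit 43058005892254728610)) (.cons (.br (nat_lit 1) (nat_lit 0) (.cons (.rf (nat_lit 2622) (nat_lit 493858305440582043680)) (.cons (.rf (nat_lit 2621) (nat_lit 43058005892254728610)) (.cons (.rf (nat_lit 2612) (nat_lit 43058005892254728610)) (.cons (.rf (nat_lit 2604) (nat_lit 493858305440582043680)) .nil))))) (.cons (.rf (nat_lit 2612) (nat_lit 43058005892254728610)) (.cons (.rf (nat_lit 2604) (nat_lit 493858305440582043680)) .nil)))))),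
 (.br (nat_lit 13) (nat_lit 0) (.cons (.rf (nat_lit 2604) (nat_lit 493858305440582043680)) (.cons (.rf (nat_lit 2612) (nat_lit 493858305440582043680)) (.cons (.rf (nat_lit 2621) (nat_lit 493858305440582043680)) (.cons (.rf (nat_lit 2623) (nat_lit 493858305440582043680)) (.cons (.br (nat_lit 13) (nat_lit 0) (.cons (.rf (nat_lit 2604) (nat_lit 493858305440582043680)) (.cons (.rf (nat_lit 2612) (nat_lit 493858305440582043680)) (.cons (.rf (nat_lit 2621) (nat_lit 493858305440582043680)) (.cons (.rf (nat_lit 2623) (nat_lit 493858305440582043680)) .nil))))) .nil))))))]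

theorem c94 : chkAll C T R L94 (nat_lit 2600) = true := by decide +kernel

theorem l94 : (nat_lit 2600) + L94.length = (nat_lit 2625) := by decide +kernel

/-- part of the certificates -/
def L95 : List Prf := [(.br (nat_lit 2) (nat_lit 0) (.cons (.rf (nat_lit 2161) (nat_lit 14242959524133701664)) (.cons (.rf (nat_lit 2311) (nat_lit 14242959524133701664)) (.cons (.rf (nat_lit 2523) (nat_lit 14242959524133701664)) (.cons (.rf (nat_lit 2596) (nat_lit 14242959524133701664)) (.cons (.br (nat_lit 13) (nat_lit 0) (.cons (.rf (nat_lit 2604) (nat_lit 493858305440582043680)) (.cons (.rf (nat_lit 2612) (nat_lit 493858305440582043680)) (.cons (.rf (nat_lit 2621) (nat_lit 493858305440582043680)) (.cons (.rf (nat_lit 2623) (nat_lit 493858305440582043680)) (.cons (.rf (nat_lit 2624) (nat_lit 493858305440582043680)) (.cons (.br (nat_lit 13) (nat_lit 0) (.cons (.rf (nat_lit 2604) (nat_lit 493858305440582043680)) (.cons (.rf (nat_lit 2612) (nat_lit 493858305440582043680)) (.cons (.rf (nat_lit 2621) (nat_lit 493858305440582043680))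 (.cons (.rf (nat_lit 2623) (nat_lit 493858305440582043680)) (.cons (.rf (nat_lit 2624) (nat_lit 493858305440582043680)) .nil)))))) .nil))))))) .nil)))))),
 (.br (nat_lit 2) (nat_lit 0) (.cons (.rf (nat_lit 2161) (nat_lit 14242959524133701664)) (.cons (.rf (nat_lit 2311) (nat_lit 14242959524133701664)) (.cons (.rf (nat_lit 2523) (nat_lit 14242959524133701664)) (.cons (.rf (nat_lit 2596) (nat_lit 14242959524133701664)) (.cons (.rf (nat_lit 2625) (nat_lit 14242959524133701664)) (.cons (.br (nat_lit 2) (nat_lit 0) (.cons (.rf (nat_lit 1943) (nat_lit 427010)) (.cons (.rf (nat_lit 2311) (nat_lit 14242959524133701664)) (.cons (.rf (nat_lit 2523) (nat_lit 14242959524133701664)) (.cons (.rf (nat_lit 2596) (nat_lit 14242959524133701664)) (.cons (.rf (nat_lit 2625) (nat_lit 14242959524133701664)) .nil)))))) .nil))))))),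
 (.br (nat_lit 13) (nat_lit 0) (.cons (.br (nat_lit 12) (nat_lit 0) (.cons (.ev (nat_lit 40565129901239198544436916257539) (nat_lit 2)) .nil)) (.cons (.br (nat_lit 10) (nat_lit 0) (.cons (.ev (nat_lit 40565129901239198544436916257539) (nat_lit 2)) .nil)) .nil))),
 (.br (nat_lit 7) (nat_lit 0) (.cons (.rf (nat_lit 2627) (nat_lit 493858305440582043680)) (.cons (.ev (nat_lit 79228162514336395187598655489) (nat_lit 1)) (.cons (.br (nat_lit 12) (nat_lit 0) (.cons (.br (nat_lit 10) (nat_lit 0) (.cons (.ev (nat_lit 79538856449905298395250032896) (nat_lit 1)) .nil)) (.cons (.ev (nat_lit 20282719093402305278538130980865) (nat_lit 1)) .nil))) .nil)))),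
 (.br (nat_lit 9) (nat_lit 0) (.cons (.ev (nat_lit 4722438541563194835201) (nat_lit 1)) .nil)),
 (.br (nat_lit 5) (nat_lit 0) (.cons (.kr (nat_lit 79228162514264338693055578368) (nat_lit 1208925819614629191548928) (nat_lit 1) (nat_lit 0)) (.cons (.rf (nat_lit 2629) (nat_lit 15433070910038444064)) .nil))),
 (.br (nat_lit 11) (nat_lit 0) (.cons (.ev (nat_lit 79228167236702878061522125056) (nat_lit 1)) .nil)),
 (.br (nat_lit 9) (nat_lit 0) (.cons (.ev (nat_lit 4722438541563194835201) (nat_lit 1)) .nil)),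
 (.br (nat_lit 9) (nat_lit 0) (.cons (.ev (nat_lit 4722438541563194835201) (nat_lit 1)) .nil)),
 (.br (nat_lit 7) (nat_lit 0) (.cons (.rf (nat_lit 2627) (nat_lit 493858305440582043680)) (.cons (.rf (nat_lit 2630) (nat_lit 493858305440582043680)) (.cons (.br (nat_lit 5) (nat_lit 0) (.cons (.rf (nat_lit 2631) (nat_lit 15433070910038444064)) (.cons (.rf (nat_lit 2632) (nat_lit 15433070910038444064)) (.cons (.rf (nat_lit 2633) (nat_lit 15433070910038444064)) .nil)))) .nil)))),
 (.br (nat_lit 7) (nat_lit 0) (.cons (.ev (nat_lit 79228162514336395187598655489) (nat_lit 1)) (.cons (.rf (nat_lit 2630) (nat_lit 493858305440582043680)) (.cons (.br (nat_lit 10) (nat_lit 0) (.cons (.br (nat_lit 10) (nat_lit 0) (.cons (.ev (nat_lit 20361637766166006820238656536576) (nat_lit 1)) .nil)) (.cons (.br (nat_lit 5) (nat_lit 0) (.cons (.ev (nat_lit 20361637766166006820238656536576) (nat_lit 1)) .nil)) .nil))) .nil)))),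
 (.br (nat_lit 7) (nat_lit 0) (.cons (.rf (nat_lit 2628) (nat_lit 493858305440582043680)) (.cons (.rf (nat_lit 2634) (nat_lit 493858305440582043680)) (.cons (.rf (nat_lit 2635) (nat_lit 493858305440582043680)) (.cons (.br (nat_lit 7) (nat_lit 0) (.cons (.rf (nat_lit 2628) (nat_lit 493858305440582043680)) (.cons (.rf (nat_lit 2634) (nat_lit 493858305440582043680)) (.cons (.rf (nat_lit 2635) (nat_lit 493858305440582043680)) .nil)))) .nil))))),
 (.br (nat_lit 13) (nat_lit 0) (.cons (.rf (nat_lit 2636) (nat_lit 493858305440582043680)) (.cons (.ev (nat_lit 20282719088661492051594776150016) (nat_lit 1)) (.cons (.br (nat_lit 7) (nat_lit 0) (.cons (.br (nat_lit 7) (nat_lit 0) (.cons (.ev (nat_lit 79228167255149622130953486336) (nat_lit 1)) .nil)) (.cons (.br (nat_lit 1) (nat_lit 0) (.cons (.ev (nat_lit 79228167255149622130953486336) (nat_lit 1)) .nil)) .nil))) .nil)))),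
 (.br (nat_lit 13) (nat_lit 0) (.cons (.rf (nat_lit 2636) (nat_lit 493858305440582043680)) (.cons (.br (nat_lit 13) (nat_lit 0) (.cons (.rf (nat_lit 2636) (nat_lit 493858305440582043680)) (.cons (.ev (nat_lit 20282719088661492051594776150016) (nat_lit 1)) (.cons (.rf (nat_lit 2400) (nat_lit 1416566910662082978)) .nil)))) (.cons (.rf (nat_lit 2637) (nat_lit 493858305440582043680)) (.cons (.br (nat_lit 13) (nat_lit 0) (.cons (.rf (nat_lit 2636) (nat_lit 493858305440582043680)) (.cons (.rf (nat_lit 2400) (nat_lit 1416566910662082978)) (.cons (.rf (nat_lit 2637) (nat_lit 493858305440582043680)) .nil)))) .nil))))),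
 (.br (nat_lit 1) (nat_lit 0) (.cons (.ev (nat_lit 79228167236702878061522125056) (nat_lit 1)) .nil)),
 (.br (nat_lit 13) (nat_lit 0) (.cons (.rf (nat_lit 2636) (nat_lit 493858305440582043680)) (.cons (.ev (nat_lit 20282719088661492051594776150016) (nat_lit 1)) (.cons (.br (nat_lit 5) (nat_lit 0) (.cons (.br (nat_lit 7) (nat_lit 0) (.cons (.ev (nat_lit 20282722715476061120469888205569) (nat_lit 2)) .nil)) (.cons (.kr (nat_lit 18446744078004584448) (nat_lit 20282409608374036907916408127488) (nat_lit 2) (nat_lit 0)) (.cons (.rf (nat_lit 2639) (nat_lit 15433070910038444064)) .nil)))) .nil)))),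
 (.br (nat_lit 13) (nat_lit 0) (.cons (.rf (nat_lit 2636) (nat_lit 493858305440582043680)) (.cons (.rf (nat_lit 2638) (nat_lit 493858305440582043680)) (.cons (.rf (nat_lit 2640) (nat_lit 493858305440582043680)) (.cons (.br (nat_lit 13) (nat_lit 0) (.cons (.rf (nat_lit 2636) (nat_lit 493858305440582043680)) (.cons (.rf (nat_lit 2400) (nat_lit 1416566910662082978)) (.cons (.rf (nat_lit 2640) (nat_lit 493858305440582043680)) .nil)))) .nil))))),
 (.br (nat_lit 13) (nat_lit 0) (.cons (.rf (nat_lit 2636) (nat_lit 493858305440582043680)) (.cons (.rf (nat_lit 2638) (nat_lit 493858305440582043680)) (.cons (.rf (nat_lit 2641) (nat_lit 493858305440582043680)) (.cons (.br (nat_lit 13) (nat_lit 0) (.cons (.rf (nat_lit 2636) (nat_lit 493858305440582043680)) (.cons (.rf (nat_lit 2638) (nat_lit 493858305440582043680)) (.cons (.rf (nat_lit 2641) (nat_lit 493858305440582043680)) .nil)))) .nil))))),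
 (.br (nat_lit 6) (nat_lit 0) (.cons (.ev (nat_lit 72339069031416064) (nat_lit 1)) .nil)),
 (.br (nat_lit 13) (nat_lit 0) (.cons (.br (nat_lit 1) (nat_lit 0) (.cons (.br (nat_lit 10) (nat_lit 0) (.cons (.ev (nat_lit 79228167255149622130953486336) (nat_lit 1)) .nil)) (.cons (.rf (nat_lit 2643) (nat_lit 15433072044983552032)) (.cons (.rf (nat_lit 2626) (nat_lit 6028215822752789505)) .nil)))) (.cons (.br (nat_lit 1) (nat_lit 0) (.cons (.ev (nat_lit 79537647542532708210971771136) (nat_lit 1)) (.cons (.br (nat_lit 7) (nat_lit 0) (.cons (.ev (nat_lit 79229371458603036469249441793) (nat_lit 1)) .nil)) .nil))) .nil))),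
 (.br (nat_lit 13) (nat_lit 0) (.cons (.rf (nat_lit 2644) (nat_lit 493858305440582043680)) (.cons (.br (nat_lit 1) (nat_lit 0) (.cons (.ev (nat_lit 79537647542532708210971771136) (nat_lit 1)) (.cons (.rf (nat_lit 2311) (nat_lit 6164517744835627053)) .nil))) .nil))),
 (.br (nat_lit 13) (nat_lit 0) (.cons (.rf (nat_lit 2644) (nat_lit 493858305440582043680)) (.cons (.rf (nat_lit 2645) (nat_lit 493858305440582043680)) (.cons (.br (nat_lit 13) (nat_lit 0) (.cons (.rf (nat_lit 2644) (nat_lit 493858305440582043680)) (.cons (.rf (nat_lit 2645) (nat_lit 493858305440582043680)) .nil))) .nil)))),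
 (.br (nat_lit 13) (nat_lit 0) (.cons (.rf (nat_lit 2646) (nat_lit 493858305440582043680)) (.cons (.br (nat_lit 13) (nat_lit 0) (.cons (.rf (nat_lit 2646) (nat_lit 493858305440582043680)) (.cons (.kr (nat_lit 18447025552981360640) (nat_lit 40564819212025707332963171041280) (nat_lit 2) (nat_lit 0)) .nil))) (.cons (.br (nat_lit 13) (nat_lit 0) (.cons (.rf (nat_lit 2646) (nat_lit 493858305440582043680)) (.cons (.kr (nat_lit 18447025552981360640) (nat_lit 40564819212025707332963171041280) (nat_lit 2) (nat_lit 0)) .nil))) .nil)))),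
 (.br (nat_lit 13) (nat_lit 0) (.cons (.rf (nat_lit 2646) (nat_lit 493858305440582043680)) (.cons (.rf (nat_lit 2647) (nat_lit 493858305440582043680)) (.cons (.br (nat_lit 13) (nat_lit 0) (.cons (.rf (nat_lit 2646) (nat_lit 493858305440582043680)) (.cons (.kr (nat_lit 18447025552981360640) (nat_lit 40564819212025707332963171041280) (nat_lit 2) (nat_lit 0)) .nil))) .nil)))),
 (.br (nat_lit 13) (nat_lit 0) (.cons (.br (nat_lit 10) (nat_lit 0) (.cons (.br (nat_lit 10) (nat_lit 0) (.cons (.ev (nat_lit 122804906766962842490824544750092) (nat_lit 4)) .nil)) (.cons (.br (nat_lit 1) (nat_lit 0) (.cons (.ev (nat_lit 122804906766962842490824544750092) (nat_lit 4)) .nil)) .nil))) (.cons (.ev (nat_lit 20282719088661492051594776150016) (nat_lit 1)) (.cons (.br (nat_lit 10) (nat_lit 0) (.cons (.br (nat_lit 7) (nat_lit 0) (.cons (.ev (nat_lit 79229371458603036469249441793) (nat_lit 1)) .nil)) (.cons (.br (nat_lit 1) (nat_lit 0) (.cons (.ev (nat_lit 79229371458603036469249441793) (nat_lit 1)) .nil)) .nil))) .nil)))),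
 (.br (nat_lit 1) (nat_lit 0) (.cons (.rf (nat_lit 2523) (nat_lit 14242959524133712897)) (.cons (.br (nat_lit 5) (nat_lit 0) (.cons (.ev (nat_lit 1208925891954801995940096) (nat_lit 1)) (.cons (.br (nat_lit 10) (nat_lit 0) (.cons (.ev (nat_lit 20282410817318375323118113652993) (nat_lit 1)) .nil)) (.cons (.rf (nat_lit 2649) (nat_lit 493858305440582043680)) .nil)))) (.cons (.br (nat_lit 13) (nat_lit 0) (.cons (.rf (nat_lit 2649) (nat_lit 493858305440582043680)) (.cons (.rf (nat_lit 2626) (nat_lit 6028215822752789505)) .nil))) .nil)))),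
 (.br (nat_lit 13) (nat_lit 0) (.cons (.ev (nat_lit 20282719088661492051594776150016) (nat_lit 1)) (.cons (.rf (nat_lit 2650) (nat_lit 493858305440582043680)) (.cons (.br (nat_lit 1) (nat_lit 0) (.cons (.ev (nat_lit 79537647542532708210971771136) (nat_lit 1)) (.cons (.br (nat_lit 5) (nat_lit 0) (.cons (.zr (nat_lit 3626795906150915532587008) (nat_lit 20282719102828663280716507774977) (nat_lit 5) (nat_lit 13)) .nil)) (.cons (.rf (nat_lit 2311) (nat_lit 6164517744835627053)) .nil)))) .nil)))),
 (.br (nat_lit 13) (nat_lit 0) (.cons (.rf (nat_lit 2649) (nat_lit 493858305440582043680)) (.cons (.rf (nat_lit 2650) (nat_lit 493858305440582043680)) (.cons (.rf (nat_lit 2651) (nat_lit 493858305440582043680)) (.cons (.br (nat_lit 13) (nat_lit 0) (.cons (.rf (nat_lit 2649) (nat_lit 493858305440582043680)) (.cons (.rf (nat_lit 2650) (nat_lit 493858305440582043680)) (.cons (.rf (nat_lit 2651) (nat_lit 493858305440582043680)) .nil)))) .nil))))),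
 (.br (nat_lit 13) (nat_lit 0) (.cons (.ev (nat_lit 20282719088661492051594776150016) (nat_lit 1)) (.cons (.br (nat_lit 1) (nat_lit 0) (.cons (.ev (nat_lit 40883588772160285583340679988740) (nat_lit 3)) .nil)) .nil))),
 (.br (nat_lit 13) (nat_lit 0) (.cons (.rf (nat_lit 2652) (nat_lit 493858305440582043680)) (.cons (.rf (nat_lit 2653) (nat_lit 493858305440582043680)) (.cons (.br (nat_lit 13) (nat_lit 0) (.cons (.rf (nat_lit 2652) (nat_lit 493858305440582043680)) (.cons (.rf (nat_lit 2653) (nat_lit 493858305440582043680)) .nil))) .nil)))),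
 (.br (nat_lit 1) (nat_lit 0) (.cons (.rf (nat_lit 2654) (nat_lit 493858305440582043680)) (.cons (.br (nat_lit 13) (nat_lit 0) (.cons (.br (nat_lit 10) (nat_lit 0) (.cons (.ev (nat_lit 20283339267643920463953332863235) (nat_lit 2)) .nil)) (.cons (.br (nat_lit 7) (nat_lit 0) (.cons (.ev (nat_lit 20283339267643920463953332863235) (nat_lit 2)) .nil)) .nil))) (.cons (.rf (nat_lit 2652) (nat_lit 493858305440582043680)) .nil)))),
 (.br (nat_lit 1) (nat_lit 0) (.cons (.rf (nat_lit 2654) (nat_lit 493858305440582043680)) (.cons (.rf (nat_lit 2655) (nat_lit 493858305440582043680)) (.cons (.br (nat_lit 1) (nat_lit 0) (.cons (.rf (nat_lit 2654) (nat_lit 493858305440582043680)) (.cons (.rf (nat_lit 2655) (nat_lit 493858305440582043680)) (.cons (.rf (nat_lit 2652) (nat_lit 493858305440582043680)) .nil)))) (.cons (.rf (nat_lit 2652) (nat_lit 493858305440582043680)) .nil))))),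
 (.br (nat_lit 13) (nat_lit 0) (.cons (.rf (nat_lit 2652) (nat_lit 493858305440582043680)) (.cons (.rf (nat_lit 2656) (nat_lit 493858305440582043680)) (.cons (.br (nat_lit 5) (nat_lit 0) (.cons (.br (nat_lit 1) (nat_lit 0) (.cons (.ev (nat_lit 20283339267643920463953332863235) (nat_lit 2)) .nil)) (.cons (.ev (nat_lit 20282719088661491770115504537601) (nat_lit 1)) .nil))) .nil)))),
 (.br (nat_lit 13) (nat_lit 0) (.cons (.rf (nat_lit 2652) (nat_lit 493858305440582043680)) (.cons (.rf (nat_lit 2656) (nat_lit 493858305440582043680)) (.cons (.rf (nat_lit 2657) (nat_lit 493858305440582043680)) (.cons (.br (nat_lit 13) (nat_lit 0) (.cons (.rf (nat_lit 2652) (nat_lit 493858305440582043680)) (.cons (.zr (nat_lit 20282719098106297073824281133056) (nat_lit 158456325046975419269387386880) (nat_lit 5) (nat_lit 11)) (.cons (.rf (nat_lit 2657) (nat_lit 493858305440582043680)) .nil)))) .nil)))))]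

theorem c95 : chkAll C T R L95 (nat_lit 2625) = true := by decide +kernel

theorem l95 : (nat_lit 2625) + L95.length = (nat_lit 2659) := by decide +kernel

/-- part of the certificates -/
def L96 : List Prf := [(.br (nat_lit 13) (nat_lit 0) (.cons (.rf (nat_lit 2652) (nat_lit 493858305440582043680)) (.cons (.rf (nat_lit 2656) (nat_lit 493858305440582043680)) (.cons (.rf (nat_lit 2658) (nat_lit 493858305440582043680)) (.cons (.br (nat_lit 13) (nat_lit 0) (.cons (.rf (nat_lit 2652) (nat_lit 493858305440582043680)) (.cons (.rf (nat_lit 2656) (nat_lit 493858305440582043680)) (.cons (.rf (nat_lit 2658) (nat_lit 493858305440582043680)) .nil)))) .nil))))),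
 (.br (nat_lit 1) (nat_lit 0) (.cons (.br (nat_lit 7) (nat_lit 0) (.cons (.br (nat_lit 10) (nat_lit 0) (.cons (.ev (nat_lit 79229371458603036469249441793) (nat_lit 1)) .nil)) (.cons (.rf (nat_lit 2626) (nat_lit 14208022404722296877)) .nil))) (.cons (.br (nat_lit 10) (nat_lit 0) (.cons (.ev (nat_lit 79538861190718806809286541568) (nat_lit 1)) (.cons (.rf (nat_lit 2523) (nat_lit 14090929087143282733)) .nil))) .nil))),
 (.br (nat_lit 13) (nat_lit 0) (.cons (.rf (nat_lit 2660) (nat_lit 493858305440582043680)) (.cons (.br (nat_lit 1) (nat_lit 0) (.cons (.rf (nat_lit 2523) (nat_lit 14242959524133712897)) (.cons (.br (nat_lit 5) (nat_lit 0) (.cons (.ev (nat_lit 20282409608374108965514757865728) (nat_lit 1)) .nil)) (.cons (.br (nat_lit 5) (nat_lit 0) (.cons (.ev (nat_lit 79538856449905298395250032896) (nat_lit 1)) .nil)) .nil)))) .nil))),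
 (.br (nat_lit 13) (nat_lit 0) (.cons (.rf (nat_lit 2660) (nat_lit 493858305440582043680)) (.cons (.rf (nat_lit 2661) (nat_lit 493858305440582043680)) (.cons (.br (nat_lit 13) (nat_lit 0) (.cons (.rf (nat_lit 2660) (nat_lit 493858305440582043680)) (.cons (.rf (nat_lit 2661) (nat_lit 493858305440582043680)) .nil))) .nil)))),
 (.br (nat_lit 1) (nat_lit 0) (.cons (.br (nat_lit 10) (nat_lit 0) (.cons (.kr (nat_lit 618974742153290394193887744) (nat_lit 2417870086254811364327424) (nat_lit 1) (nat_lit 0)) (.cons (.ev (nat_lit 79538856449905298395250032896) (nat_lit 1)) .nil))) (.cons (.rf (nat_lit 2662) (nat_lit 493858305440582043680)) .nil))),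
 (.br (nat_lit 1) (nat_lit 0) (.cons (.rf (nat_lit 2663) (nat_lit 493858305440582043680)) (.cons (.br (nat_lit 1) (nat_lit 0) (.cons (.rf (nat_lit 2663) (nat_lit 493858305440582043680)) (.cons (.rf (nat_lit 2662) (nat_lit 493858305440582043680)) .nil))) (.cons (.rf (nat_lit 2662) (nat_lit 493858305440582043680)) .nil)))),
 (.br (nat_lit 13) (nat_lit 0) (.cons (.rf (nat_lit 2662) (nat_lit 493858305440582043680)) (.cons (.rf (nat_lit 2664) (nat_lit 493858305440582043680)) (.cons (.br (nat_lit 13) (nat_lit 0) (.cons (.rf (nat_lit 2662) (nat_lit 493858305440582043680)) (.cons (.rf (nat_lit 2664) (nat_lit 493858305440582043680)) .nil))) .nil)))),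
 (.br (nat_lit 2) (nat_lit 0) (.cons (.rf (nat_lit 2161) (nat_lit 14242959524133701664)) (.cons (.rf (nat_lit 2311) (nat_lit 14242959524133701664)) (.cons (.rf (nat_lit 2523) (nat_lit 14242959524133701664)) (.cons (.rf (nat_lit 2626) (nat_lit 14242959524133701664)) (.cons (.br (nat_lit 11) (nat_lit 0) (.cons (.br (nat_lit 13) (nat_lit 0) (.cons (.rf (nat_lit 2636) (nat_lit 493858305440582043680)) (.cons (.rf (nat_lit 2638) (nat_lit 493858305440582043680)) (.cons (.rf (nat_lit 2641) (nat_lit 493858305440582043680)) (.cons (.rf (nat_lit 2642) (nat_lit 493858305440582043680)) (.cons (.br (nat_lit 13) (nat_lit 0) (.cons (.rf (nat_lit 2636) (nat_lit 493858305440582043680)) (.cons (.rf (nat_lit 2638) (nat_lit 493858305440582043680)) (.cons (.rf (nat_lit 2641) (nat_lit 493858305440582043680)) (.cons (.rf (nat_lit 2642) (nat_lit 493858305440582043680)) .nil))))) .nil)))))) (.cons (.br (nat_lit 13) (nat_lit 0) (.cons (.rf (nat_lit 2646) (nat_lit 493858305440582043680)) (.cons (.rf (nat_lit 2647) (nat_lit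 493858305440582043680)) (.cons (.rf (nat_lit 2648) (nat_lit 493858305440582043680)) (.cons (.br (nat_lit 13) (nat_lit 0) (.cons (.rf (nat_lit 2646) (nat_lit 493858305440582043680)) (.cons (.rf (nat_lit 2647) (nat_lit 493858305440582043680)) (.cons (.rf (nat_lit 2648) (nat_lit 493858305440582043680)) .nil)))) .nil))))) (.cons (.br (nat_lit 13) (nat_lit 0) (.cons (.rf (nat_lit 2652) (nat_lit 493858305440582043680)) (.cons (.rf (nat_lit 2656) (nat_lit 493858305440582043680)) (.cons (.rf (nat_lit 2658) (nat_lit 493858305440582043680)) (.cons (.rf (nat_lit 2659) (nat_lit 493858305440582043680)) (.cons (.br (nat_lit 13) (nat_lit 0) (.cons (.rf (nat_lit 2652) (nat_lit 493858305440582043680)) (.cons (.rf (nat_lit 2656) (nat_lit 493858305440582043680)) (.cons (.rf (nat_lit 2658) (nat_lit 493858305440582043680)) (.cons (.rf (nat_lit 2659) (nat_lit 493858305440582043680)) .nil))))) .nil)))))) (.cons (.ev (nat_lit 309485009821626543718268929) (nat_lit 1)) (.cons (.br (nat_lit 13) (nat_lit 0) (.cons (.rf (nat_lit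 2662) (nat_lit 493858305440582043680)) (.cons (.rf (nat_lit 2664) (nat_lit 493858305440582043680)) (.cons (.rf (nat_lit 2665) (nat_lit 493858305440582043680)) (.cons (.br (nat_lit 13) (nat_lit 0) (.cons (.rf (nat_lit 2662) (nat_lit 493858305440582043680)) (.cons (.rf (nat_lit 2664) (nat_lit 493858305440582043680)) (.cons (.rf (nat_lit 2665) (nat_lit 493858305440582043680)) .nil)))) .nil))))) (.cons (.rf (nat_lit 2523) (nat_lit 6132992408932417954)) .nil))))))) .nil)))))),
 (.br (nat_lit 2) (nat_lit 0) (.cons (.rf (nat_lit 2161) (nat_lit 14242959524133701664)) (.cons (.rf (nat_lit 2311) (nat_lit 14242959524133701664)) (.cons (.rf (nat_lit 2523) (nat_lit 14242959524133701664)) (.cons (.rf (nat_lit 2626) (nat_lit 14242959524133701664)) (.cons (.rf (nat_lit 2666) (nat_lit 14242959524133701664)) (.cons (.br (nat_lit 2) (nat_lit 0) (.cons (.rf (nat_lit 1943) (nat_lit 427010)) (.cons (.rf (nat_lit 2311) (nat_lit 14242959524133701664)) (.cons (.rf (nat_lit 2523) (nat_lit 14242959524133701664)) (.cons (.rf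 (nat_lit 2626) (nat_lit 14242959524133701664)) (.cons (.rf (nat_lit 2666) (nat_lit 14242959524133701664)) .nil)))))) .nil))))))),
 (.br (nat_lit 2) (nat_lit 0) (.cons (.rf (nat_lit 2161) (nat_lit 14242959524133701664)) (.cons (.rf (nat_lit 2311) (nat_lit 14242959524133701664)) (.cons (.rf (nat_lit 2523) (nat_lit 14242959524133701664)) (.cons (.rf (nat_lit 2626) (nat_lit 14242959524133701664)) (.cons (.rf (nat_lit 2667) (nat_lit 14242959524133701664)) (.cons (.br (nat_lit 2) (nat_lit 0) (.cons (.rf (nat_lit 1943) (nat_lit 427010)) (.cons (.rf (nat_lit 2311) (nat_lit 14242959524133701664)) (.cons (.rf (nat_lit 2523) (nat_lit 14242959524133701664)) (.cons (.rf (nat_lit 2626) (nat_lit 14242959524133701664)) (.cons (.rf (nat_lit 2667) (nat_lit 14242959524133701664)) .nil)))))) .nil))))))),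
 (.br (nat_lit 2) (nat_lit 0) (.cons (.rf (nat_lit 2161) (nat_lit 14242959524133701664)) (.cons (.rf (nat_lit 2311) (nat_lit 14242959524133701664)) (.cons (.rf (nat_lit 2523) (nat_lit 14242959524133701664)) (.cons (.rf (nat_lit 2626) (nat_lit 14242959524133701664)) (.cons (.rf (nat_lit 2667) (nat_lit 14242959524133701664)) (.cons (.rf (nat_lit 2668) (nat_lit 14242959524133701664)) (.cons (.br (nat_lit 2) (nat_lit 0) (.cons (.rf (nat_lit 1943) (nat_lit 427010)) (.cons (.rf (nat_lit 2311) (nat_lit 14242959524133701664)) (.cons (.rf (nat_lit 2523) (nat_lit 14242959524133701664)) (.cons (.rf (nat_lit 2626) (nat_lit 14242959524133701664)) (.cons (.rf (nat_lit 2667) (nat_lit 14242959524133701664)) (.cons (.rf (nat_lit 2668) (nat_lit 14242959524133701664)) .nil))))))) .nil)))))))),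
 (.br (nat_lit 8) (nat_lit 0) (.cons (.br (nat_lit 8) (nat_lit 0) .nil) .nil)),
 (.br (nat_lit 10) (nat_lit 0) (.cons (.rf (nat_lit 2670) (nat_lit 362021891704864)) (.cons (.br (nat_lit 10) (nat_lit 0) (.cons (.rf (nat_lit 2670) (nat_lit 362021891704864)) .nil)) .nil))),
 (.br (nat_lit 1) (nat_lit 0) (.cons (.rf (nat_lit 2669) (nat_lit 14242959524133701664)) (.cons (.ev (nat_lit 1213666705181745350705408) (nat_lit 1)) (.cons (.br (nat_lit 3) (nat_lit 0) (.cons (.ev (nat_lit 309485009821626543718268929) (nat_lit 1)) (.cons (.br (nat_lit 10) (nat_lit 0) (.cons (.ev (nat_lit 79538861190718525338604863745) (nat_lit 1)) (.cons (.rf (nat_lit 2317) (nat_lit 470976788858912)) .nil))) (.cons (.rf (nat_lit 2671) (nat_lit 15071358309468192)) .nil)))) (.cons (.br (nat_lit 3) (nat_lit 0) (.cons (.br (nat_lit 11) (nat_lit 0) (.cons (.ev (nat_lit 311902917016981542224986115) (nat_lit 2)) (.cons (.rf (nat_lit 2312) (nat_lit 470976788858912)) .nil))) (.cons (.br (nat_lit 10) (nat_lit 0) (.cons (.ev (nat_lit 79537652246452447006907432961)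 (nat_lit 1)) (.cons (.rf (nat_lit 2312) (nat_lit 470942462674976)) .nil))) (.cons (.br (nat_lit 10) (nat_lit 0) (.cons (.ev (nat_lit 79538861190718525338604863745) (nat_lit 1)) (.cons (.rf (nat_lit 2314) (nat_lit 470976788858912)) .nil))) (.cons (.br (nat_lit 10) (nat_lit 0) (.cons (.rf (nat_lit 2313) (nat_lit 470976788858912)) (.cons (.rf (nat_lit 2341) (nat_lit 470979909421088)) (.cons (.br (nat_lit 11) (nat_lit 0) (.cons (.rf (nat_lit 2341) (nat_lit 470946623424544)) (.cons (.br (nat_lit 12) (nat_lit 0) (.cons (.ev (nat_lit 159076503992438571763822166274) (nat_lit 2)) .nil)) .nil))) .nil)))) .nil))))) (.cons (.br (nat_lit 3) (nat_lit 0) (.cons (.rf (nat_lit 2330) (nat_lit 15066960395143200)) (.cons (.rf (nat_lit 2330) (nat_lit 15066994721327136)) (.cons (.br (nat_lit 10) (nat_lit 0) (.cons (.rf (nat_lit 2336) (nat_lit 470843644872736)) (.cons (.rf (nat_lit 2343) (nat_lit 470979909421088)) (.cons (.br (nat_lit 12) (nat_lit 0) (.cons (.kr (nat_lit 4722366482869645213696) (nat_lit 79228162514264337593543950336)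 (nat_lit 9) (nat_lit 0)) (.cons (.kr (nat_lit 1213648186097498836697344) (nat_lit 158456325028528676286599593984) (nat_lit 1) (nat_lit 0)) .nil))) .nil)))) (.cons (.br (nat_lit 10) (nat_lit 0) (.cons (.rf (nat_lit 2336) (nat_lit 470843644872736)) (.cons (.br (nat_lit 12) (nat_lit 0) (.cons (.kr (nat_lit 158456325028528675191382867968) (nat_lit 4740813508418331475968) (nat_lit 4) (nat_lit 0)) (.cons (.kr (nat_lit 1208944266640177877745920) (nat_lit 158456325028528676290894561280) (nat_lit 1) (nat_lit 0)) .nil))) (.cons (.br (nat_lit 11) (nat_lit 0) (.cons (.br (nat_lit 12) (nat_lit 0) (.cons (.ev (nat_lit 158768227908652731523257270275) (nat_lit 2)) .nil)) (.cons (.ev (nat_lit 40565129901239198825907598000385) (nat_lit 2)) .nil))) .nil)))) .nil))))) .nil)))))),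
 (.br (nat_lit 11) (nat_lit 0) (.cons (.ev (nat_lit 79229376162522492686401798144) (nat_lit 1)) .nil)),
 (.br (nat_lit 1) (nat_lit 0) (.cons (.rf (nat_lit 2669) (nat_lit 14242959524133701664)) (.cons (.ev (nat_lit 1213666705181745350705408) (nat_lit 1)) (.cons (.br (nat_lit 3) (nat_lit 0) (.cons (.zr (nat_lit 309485028340709686425747459) (nat_lit 1213648186097507426632448) (nat_lit 5) (nat_lit 2)) (.cons (.br (nat_lit 7) (nat_lit 0) (.cons (.zr (nat_lit 4840425644941412180952064) (nat_lit 309485083681229979600879617) (nat_lit 10) (nat_lit 3)) (.cons (.rf (nat_lit 2317) (nat_lit 470979909421088)) .nil))) (.cons (.rf (nat_lit 2671) (nat_lit 15071255330916384)) .nil)))) (.cons (.br (nat_lit 7) (nat_lit 0) (.cons (.br (nat_lit 11) (nat_lit 0) (.cons (.ev (nat_lit 80156617580694200016185786881) (nat_lit 2)) (.cons (.rf (nat_lit 2312) (nat_lit 470979909421088)) .nil))) (.cons (.ev (nat_lit 310693954087704875415699713) (nat_lit 1)) (.cons (.br (nat_lit 3) (nat_lit 0) (.cons (.ev (nat_lit 475371397715222177212841198080)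 (nat_lit 3)) (.cons (.rf (nat_lit 2341) (nat_lit 470976788858912)) .nil))) (.cons (.br (nat_lit 3) (nat_lit 0) (.cons (.rf (nat_lit 2312) (nat_lit 470842604685344)) (.cons (.rf (nat_lit 2314) (nat_lit 470979909421088)) (.cons (.br (nat_lit 11) (nat_lit 0) (.cons (.rf (nat_lit 2341) (nat_lit 470843644872736)) (.cons (.br (nat_lit 12) (nat_lit 0) (.cons (.zr (nat_lit 237684492265160058600230682624) (nat_lit 310693972606505439373296128) (nat_lit 5) (nat_lit 11)) .nil)) .nil))) .nil)))) .nil))))) (.cons (.br (nat_lit 3) (nat_lit 0) (.cons (.rf (nat_lit 2330) (nat_lit 15070155850811424)) (.cons (.rf (nat_lit 2330) (nat_lit 15070293155547168)) (.cons (.br (nat_lit 7) (nat_lit 0) (.cons (.rf (nat_lit 2336) (nat_lit 470946623424544)) (.cons (.kr (nat_lit 4740813226947649732608) (nat_lit 158456325028528956662064611328) (nat_lit 4) (nat_lit 0)) (.cons (.br (nat_lit 11) (nat_lit 0) (.cons (.kr (nat_lit 4722366482869645213696) (nat_lit 79228162514264337593543950336) (nat_lit 9) (nat_lit 0)) (.cons (.rf (nat_lit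 2673) (nat_lit 15433072045018155040)) .nil))) .nil)))) (.cons (.br (nat_lit 7) (nat_lit 0) (.cons (.rf (nat_lit 2336) (nat_lit 470946623424544)) (.cons (.br (nat_lit 13) (nat_lit 0) (.cons (.br (nat_lit 12) (nat_lit 0) (.cons (.ev (nat_lit 79228162514336676666870398976) (nat_lit 1)) .nil)) (.cons (.ev (nat_lit 79228162514336676666870398976) (nat_lit 1)) .nil))) (.cons (.br (nat_lit 12) (nat_lit 0) (.cons (.br (nat_lit 12) (nat_lit 0) (.cons (.ev (nat_lit 20282409608374109246985439543553) (nat_lit 1)) .nil)) (.cons (.ev (nat_lit 20282409608374109246985439543553) (nat_lit 1)) .nil))) .nil)))) .nil))))) .nil)))))),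
 (.br (nat_lit 1) (nat_lit 0) (.cons (.rf (nat_lit 2669) (nat_lit 14242959524133701664)) (.cons (.rf (nat_lit 2672) (nat_lit 14242959524133701664)) (.cons (.rf (nat_lit 2674) (nat_lit 14242959524133701664)) (.cons (.br (nat_lit 3) (nat_lit 0) (.cons (.br (nat_lit 10) (nat_lit 0) (.cons (.ev (nat_lit 1213666704900266079027456) (nat_lit 1)) (.cons (.rf (nat_lit 2312) (nat_lit 470946623424544)) .nil))) (.cons (.ev (nat_lit 310693954087986346097443073) (nat_lit 1)) (.cons (.br (nat_lit 7) (nat_lit 0) (.cons (.ev (nat_lit 18519083147036000256) (nat_lit 1)) (.cons (.rf (nat_lit 2314) (nat_lit 470946623424544)) .nil))) (.cons (.br (nat_lit 7) (nat_lit 0) (.cons (.rf (nat_lit 2313) (nat_lit 470946623424544)) (.cons (.rf (nat_lit 2341) (nat_lit 470942462674976)) (.cons (.br (nat_lit 10) (nat_lit 0) (.cons (.rf (nat_lit 2341) (nat_lit 470842604685344)) (.cons (.br (nat_lit 12) (nat_lit 0) (.cons (.ev (nat_lit 20520714270139925741498852835331) (nat_lit 2)) .nil)) .nil))) .nil)))) .nil))))) (.cons (.br (nat_lit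 3) (nat_lit 0) (.cons (.rf (nat_lit 2330) (nat_lit 15071255328884768)) (.cons (.ev (nat_lit 309485009821626543718268929) (nat_lit 1)) (.cons (.br (nat_lit 10) (nat_lit 0) (.cons (.ev (nat_lit 18519083147036000256) (nat_lit 1)) (.cons (.rf (nat_lit 2343) (nat_lit 470979909421088)) (.cons (.br (nat_lit 12) (nat_lit 0) (.cons (.kr (nat_lit 4740813226947649732608) (nat_lit 158456325028528956662064611328) (nat_lit 4) (nat_lit 0)) (.cons (.kr (nat_lit 2422592452456206032699904) (nat_lit 316912650057057634048175898624) (nat_lit 1) (nat_lit 0)) .nil))) .nil)))) (.cons (.br (nat_lit 7) (nat_lit 0) (.cons (.rf (nat_lit 2336) (nat_lit 470979909421088)) (.cons (.br (nat_lit 13) (nat_lit 0) (.cons (.rf (nat_lit 1119) (nat_lit 119188093178158855200)) (.cons (.ev (nat_lit 79537647542532708210971770881) (nat_lit 1)) .nil))) (.cons (.br (nat_lit 12) (nat_lit 0) (.cons (.br (nat_lit 12) (nat_lit 0) (.cons (.zr (nat_lit 2422574005716530369921536) (nat_lit 40565438177341575804668621094914) (nat_lit 10) (nat_lit 0))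 .nil)) (.cons (.br (nat_lit 10) (nat_lit 0) (.cons (.zr (nat_lit 2422574005716530369921536) (nat_lit 40565438177341575804668621094914) (nat_lit 10) (nat_lit 0)) .nil)) .nil))) .nil)))) .nil))))) .nil)))))),
 (.br (nat_lit 10) (nat_lit 0) (.cons (.br (nat_lit 12) (nat_lit 0) (.cons (.ev (nat_lit 121695702820245039120173295206402) (nat_lit 3)) .nil)) (.cons (.br (nat_lit 11) (nat_lit 0) (.cons (.ev (nat_lit 203937627942409111395088663840268) (nat_lit 4)) .nil)) (.cons (.ev (nat_lit 20282409603670189226718822138113) (nat_lit 1)) .nil)))),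
 (.br (nat_lit 7) (nat_lit 0) (.cons (.br (nat_lit 12) (nat_lit 0) (.cons (.ev (nat_lit 79537652246452165536225689601) (nat_lit 1)) .nil)) (.cons (.br (nat_lit 11) (nat_lit 0) (.cons (.ev (nat_lit 79537652246452165536225689601) (nat_lit 1)) .nil)) (.cons (.ev (nat_lit 20282409603670189226718822138113) (nat_lit 1)) .nil)))),
 (.br (nat_lit 7) (nat_lit 0) (.cons (.br (nat_lit 12) (nat_lit 0) (.cons (.ev (nat_lit 159076503992438571763822166274) (nat_lit 2)) .nil)) (.cons (.ev (nat_lit 79537647542532708210971770881) (nat_lit 1)) (.cons (.rf (nat_lit 2676) (nat_lit 493858305440582043680)) .nil)))),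
 (.br (nat_lit 13) (nat_lit 0) (.cons (.rf (nat_lit 2676) (nat_lit 493858305440582043680)) (.cons (.rf (nat_lit 2677) (nat_lit 493858305440582043680)) (.cons (.rf (nat_lit 2678) (nat_lit 493858305440582043680)) (.cons (.br (nat_lit 13) (nat_lit 0) (.cons (.rf (nat_lit 2676) (nat_lit 493858305440582043680)) (.cons (.rf (nat_lit 2677) (nat_lit 493858305440582043680)) (.cons (.rf (nat_lit 2678) (nat_lit 493858305440582043680)) .nil)))) .nil))))),
 (.br (nat_lit 3) (nat_lit 0) (.cons (.br (nat_lit 12) (nat_lit 0) (.cons (.ev (nat_lit 40566057152194120203233376208390) (nat_lit 3)) .nil)) (.cons (.br (nat_lit 11) (nat_lit 0) (.cons (.ev (nat_lit 40726380058614494954222327695880) (nat_lit 4)) .nil)) (.cons (.ev (nat_lit 20282409603670189226718822138113) (nat_lit 1)) .nil))))]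

theorem c96 : chkAll C T R L96 (nat_lit 2659) = true := by decide +kernel

theorem l96 : (nat_lit 2659) + L96.length = (nat_lit 2681) := by decide +kernel

/-- part of the certificates -/
def L97 : List Prf := [(.br (nat_lit 13) (nat_lit 0) (.cons (.rf (nat_lit 2679) (nat_lit 493858305440582043680)) (.cons (.rf (nat_lit 2680) (nat_lit 493858305440582043680)) (.cons (.br (nat_lit 13) (nat_lit 0) (.cons (.rf (nat_lit 2679) (nat_lit 493858305440582043680)) (.cons (.rf (nat_lit 2680) (nat_lit 493858305440582043680)) (.cons (.zr (nat_lit 237684492265159496758378955264) (nat_lit 60847538296020245469675598643203) (nat_lit 5) (nat_lit 0)) .nil)))) (.cons (.br (nat_lit 13) (nat_lit 0) (.cons (.rf (nat_lit 2679) (nat_lit 493858305440582043680)) (.cons (.rf (nat_lit 2680) (nat_lit 493858305440582043680)) (.cons (.zr (nat_lit 237684492265159496758378955264) (nat_lit 60847538296020245469675598643203) (nat_lit 5) (nat_lit 0)) .nil)))) .nil))))),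
 (.br (nat_lit 13) (nat_lit 0) (.cons (.rf (nat_lit 2677) (nat_lit 493858305440582043680)) (.cons (.rf (nat_lit 2681) (nat_lit 493858305440582043680)) (.cons (.br (nat_lit 13) (nat_lit 0) (.cons (.rf (nat_lit 2677) (nat_lit 493858305440582043680)) (.cons (.rf (nat_lit 2681) (nat_lit 493858305440582043680)) (.cons (.ev (nat_lit 79538856449905298395250098433) (nat_lit 1)) .nil)))) (.cons (.br (nat_lit 13) (nat_lit 0) (.cons (.rf (nat_lit 2677) (nat_lit 493858305440582043680)) (.cons (.rf (nat_lit 2681) (nat_lit 493858305440582043680)) (.cons (.ev (nat_lit 79538856449905298395250098433) (nat_lit 1)) .nil)))) .nil))))),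
 (.br (nat_lit 13) (nat_lit 0) (.cons (.rf (nat_lit 2679) (nat_lit 493858305440582043680)) (.cons (.rf (nat_lit 2681) (nat_lit 493858305440582043680)) (.cons (.rf (nat_lit 2682) (nat_lit 493858305440582043680)) (.cons (.br (nat_lit 13) (nat_lit 0) (.cons (.rf (nat_lit 2679) (nat_lit 493858305440582043680)) (.cons (.zr (nat_lit 237684492265159496758378955264) (nat_lit 60847538296020245469675598643203) (nat_lit 5) (nat_lit 0)) (.cons (.ev (nat_lit 79538856449905298395250098433) (nat_lit 1)) .nil)))) .nil))))),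
 (.br (nat_lit 1) (nat_lit 0) (.cons (.rf (nat_lit 2669) (nat_lit 14242959524133701664)) (.cons (.rf (nat_lit 2672) (nat_lit 14242959524133701664)) (.cons (.rf (nat_lit 2674) (nat_lit 14242959524133701664)) (.cons (.rf (nat_lit 2675) (nat_lit 14242959524133701664)) (.cons (.br (nat_lit 13) (nat_lit 0) (.cons (.rf (nat_lit 2679) (nat_lit 493858305440582043680)) (.cons (.rf (nat_lit 2681) (nat_lit 493858305440582043680)) (.cons (.rf (nat_lit 2682) (nat_lit 493858305440582043680)) (.cons (.rf (nat_lit 2683) (nat_lit 493858305440582043680)) (.cons (.br (nat_lit 13) (nat_lit 0) (.cons (.rf (nat_lit 2679) (nat_lit 493858305440582043680)) (.cons (.rf (nat_lit 2681) (nat_lit 493858305440582043680)) (.cons (.rf (nat_lit 2682) (nat_lit 493858305440582043680)) (.cons (.rf (nat_lit 2683) (nat_lit 493858305440582043680)) .nil))))) .nil)))))) .nil)))))),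
 (.br (nat_lit 1) (nat_lit 0) (.cons (.rf (nat_lit 2669) (nat_lit 14242959524133701664)) (.cons (.rf (nat_lit 2672) (nat_lit 14242959524133701664)) (.cons (.rf (nat_lit 2674) (nat_lit 14242959524133701664)) (.cons (.rf (nat_lit 2675) (nat_lit 14242959524133701664)) (.cons (.rf (nat_lit 2684) (nat_lit 14242959524133701664)) (.cons (.br (nat_lit 1) (nat_lit 0) (.cons (.rf (nat_lit 2669) (nat_lit 14242959524133701664)) (.cons (.rf (nat_lit 2672) (nat_lit 14242959524133701664)) (.cons (.rf (nat_lit 2674) (nat_lit 14242959524133701664)) (.cons (.rf (nat_lit 2675) (nat_lit 14242959524133701664)) (.cons (.rf (nat_lit 2684) (nat_lit 14242959524133701664)) .nil)))))) .nil))))))),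
 (.br (nat_lit 1) (nat_lit 0) (.cons (.ev (nat_lit 4722438823042466447616) (nat_lit 1)) (.cons (.rf (nat_lit 2329) (nat_lit 433595440334880)) .nil))),
 (.br (nat_lit 1) (nat_lit 0) .nil),
 (.br (nat_lit 9) (nat_lit 0) (.cons (.br (nat_lit 9) (nat_lit 0) (.cons (.rf (nat_lit 2687) (nat_lit 325702574508064)) .nil)) (.cons (.br (nat_lit 1) (nat_lit 0) (.cons (.rf (nat_lit 2687) (nat_lit 325702574508064)) .nil)) .nil))),
 (.br (nat_lit 1) (nat_lit 0) (.cons (.ev (nat_lit 318776818448755911377201135620) (nat_lit 3)) (.cons (.br (nat_lit 12) (nat_lit 0) (.cons (.ev (nat_lit 79228162532855478343224656131) (nat_lit 2)) .nil)) .nil))),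
 (.br (nat_lit 1) (nat_lit 0) (.cons (.ev (nat_lit 318776818448755911377201135620) (nat_lit 3)) (.cons (.br (nat_lit 11) (nat_lit 0) (.cons (.ev (nat_lit 284433450728308236428630080619016) (nat_lit 4)) .nil)) .nil))),
 (.br (nat_lit 1) (nat_lit 0) (.cons (.ev (nat_lit 1208925891673322724262144) (nat_lit 1)) (.cons (.br (nat_lit 10) (nat_lit 0) (.cons (.ev (nat_lit 79538856449905579865931841793) (nat_lit 1)) (.cons (.rf (nat_lit 2312) (nat_lit 469842984601632)) .nil))) (.cons (.rf (nat_lit 2330) (nat_lit 15031842561493024)) .nil)))),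
 (.br (nat_lit 1) (nat_lit 0) (.cons (.rf (nat_lit 2691) (nat_lit 14242959524133701664)) (.cons (.kr (nat_lit 4740813508418331475970) (nat_lit 158456325028528675191382868480) (nat_lit 0) (nat_lit 2)) (.cons (.br (nat_lit 11) (nat_lit 0) (.cons (.rf (nat_lit 2332) (nat_lit 469745206986784)) (.cons (.rf (nat_lit 2332) (nat_lit 469848185538592)) (.cons (.rf (nat_lit 2669) (nat_lit 13951351549195551137)) .nil)))) .nil)))),
 (.br (nat_lit 1) (nat_lit 0) (.cons (.br (nat_lit 13) (nat_lit 0) (.cons (.rf (nat_lit 2685) (nat_lit 14090929087143293953)) (.cons (.ev (nat_lit 79228167255149903610225164545) (nat_lit 1)) .nil))) (.cons (.br (nat_lit 13) (nat_lit 0) (.cons (.rf (nat_lit 2685) (nat_lit 13951351549195564033)) (.cons (.rf (nat_lit 2669) (nat_lit 13951351549195551137)) (.cons (.br (nat_lit 10) (nat_lit 0) (.cons (.ev (nat_lit 20283339267643919901011969377025) (nat_lit 2)) .nil)) .nil)))) (.cons (.br (nat_lit 10) (nat_lit 0) (.cons (.br (nat_lit 11) (nat_lit 0) (.cons (.ev (nat_lit 41042059604557769872587746444812)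 (nat_lit 4)) .nil)) (.cons (.ev (nat_lit 20282409608374109246985439543553) (nat_lit 1)) .nil))) .nil)))),
 (.br (nat_lit 7) (nat_lit 0) (.cons (.br (nat_lit 11) (nat_lit 0) (.cons (.br (nat_lit 11) (nat_lit 0) (.cons (.ev (nat_lit 1110439473793839799697780115458) (nat_lit 4)) .nil)) (.cons (.rf (nat_lit 2685) (nat_lit 14208022404722308097)) .nil))) (.cons (.br (nat_lit 1) (nat_lit 0) (.cons (.ev (nat_lit 309485009821345073036525824) (nat_lit 1)) (.cons (.br (nat_lit 11) (nat_lit 0) (.cons (.ev (nat_lit 79537647542532708210971770881) (nat_lit 1)) .nil)) .nil))) (.cons (.ev (nat_lit 79231789328760785916091629571) (nat_lit 2)) (.cons (.rf (nat_lit 2693) (nat_lit 493858305440582043680)) .nil))))),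
 (.br (nat_lit 13) (nat_lit 0) (.cons (.rf (nat_lit 2693) (nat_lit 493858305440582043680)) (.cons (.rf (nat_lit 2694) (nat_lit 493858305440582043680)) (.cons (.br (nat_lit 1) (nat_lit 0) (.cons (.ev (nat_lit 40723275537072972389979365965824) (nat_lit 3)) (.cons (.br (nat_lit 7) (nat_lit 0) (.cons (.ev (nat_lit 160315657680055293924109189638) (nat_lit 3)) .nil)) (.cons (.rf (nat_lit 2669) (nat_lit 13951351549195551137)) .nil)))) .nil)))),
 (.br (nat_lit 13) (nat_lit 0) (.cons (.rf (nat_lit 2693) (nat_lit 493858305440582043680)) (.cons (.rf (nat_lit 2694) (nat_lit 493858305440582043680)) (.cons (.rf (nat_lit 2695) (nat_lit 493858305440582043680)) (.cons (.br (nat_lit 13) (nat_lit 0) (.cons (.rf (nat_lit 2693) (nat_lit 493858305440582043680)) (.cons (.rf (nat_lit 2694) (nat_lit 493858305440582043680)) (.cons (.rf (nat_lit 2695) (nat_lit 493858305440582043680)) .nil)))) .nil))))),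
 (.br (nat_lit 1) (nat_lit 0) (.cons (.br (nat_lit 11) (nat_lit 0) (.cons (.ev (nat_lit 79228162514336395187598721281) (nat_lit 1)) (.cons (.br (nat_lit 12) (nat_lit 0) (.cons (.ev (nat_lit 20283339267643919901011969377025) (nat_lit 2)) .nil)) .nil))) (.cons (.rf (nat_lit 2670) (nat_lit 469911639001120)) (.cons (.rf (nat_lit 2696) (nat_lit 493858305440582043680)) .nil)))),
 (.br (nat_lit 1) (nat_lit 0) (.cons (.rf (nat_lit 2697) (nat_lit 493858305440582043680)) (.cons (.br (nat_lit 10) (nat_lit 0) (.cons (.rf (nat_lit 2341) (nat_lit 469743126612000)) (.cons (.br (nat_lit 11) (nat_lit 0) (.cons (.ev (nat_lit 310693954087986346097442816) (nat_lit 1)) .nil)) .nil))) (.cons (.rf (nat_lit 2696) (nat_lit 493858305440582043680)) .nil)))),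
 (.br (nat_lit 1) (nat_lit 0) (.cons (.rf (nat_lit 2697) (nat_lit 493858305440582043680)) (.cons (.rf (nat_lit 2698) (nat_lit 493858305440582043680)) (.cons (.br (nat_lit 1) (nat_lit 0) (.cons (.rf (nat_lit 2670) (nat_lit 469911639001120)) (.cons (.rf (nat_lit 2698) (nat_lit 493858305440582043680)) (.cons (.rf (nat_lit 2696) (nat_lit 493858305440582043680)) .nil)))) (.cons (.rf (nat_lit 2696) (nat_lit 493858305440582043680)) .nil))))),
 (.br (nat_lit 13) (nat_lit 0) (.cons (.rf (nat_lit 2696) (nat_lit 493858305440582043680)) (.cons (.rf (nat_lit 2699) (nat_lit 493858305440582043680)) (.cons (.br (nat_lit 1) (nat_lit 0) (.cons (.ev (nat_lit 20282410812577562377645440696321) (nat_lit 1)) (.cons (.ev (nat_lit 310698658007443671351361536) (nat_lit 1)) .nil))) .nil)))),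
 (.br (nat_lit 13) (nat_lit 0) (.cons (.rf (nat_lit 2696) (nat_lit 493858305440582043680)) (.cons (.rf (nat_lit 2699) (nat_lit 493858305440582043680)) (.cons (.rf (nat_lit 2700) (nat_lit 493858305440582043680)) (.cons (.br (nat_lit 13) (nat_lit 0) (.cons (.rf (nat_lit 2696) (nat_lit 493858305440582043680)) (.cons (.rf (nat_lit 2699) (nat_lit 493858305440582043680)) (.cons (.rf (nat_lit 2700) (nat_lit 493858305440582043680)) .nil)))) .nil))))),
 (.br (nat_lit 13) (nat_lit 0) (.cons (.rf (nat_lit 2696) (nat_lit 493858305440582043680)) (.cons (.rf (nat_lit 2699) (nat_lit 493858305440582043680)) (.cons (.rf (nat_lit 2701) (nat_lit 493858305440582043680)) (.cons (.br (nat_lit 13) (nat_lit 0) (.cons (.rf (nat_lit 2696) (nat_lit 493858305440582043680)) (.cons (.rf (nat_lit 2699) (nat_lit 493858305440582043680)) (.cons (.rf (nat_lit 2701) (nat_lit 493858305440582043680)) .nil)))) .nil))))),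
 (.br (nat_lit 10) (nat_lit 0) (.cons (.kr (nat_lit 1208925819614629191483648) (nat_lit 4722366483969156907008) (nat_lit 1) (nat_lit 0)) (.cons (.ev (nat_lit 310693954087986346097442816) (nat_lit 1)) .nil))),
 (.br (nat_lit 12) (nat_lit 0) (.cons (.kr (nat_lit 1208925819614629191483648) (nat_lit 4722366483969156907008) (nat_lit 1) (nat_lit 0)) (.cons (.rf (nat_lit 2703) (nat_lit 493858305440582043680)) (.cons (.br (nat_lit 12) (nat_lit 0) (.cons (.kr (nat_lit 1208925819614629191483648) (nat_lit 4722366483969156907008) (nat_lit 1) (nat_lit 0)) (.cons (.rf (nat_lit 2703) (nat_lit 493858305440582043680)) .nil))) .nil)))),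
 (.br (nat_lit 12) (nat_lit 0) (.cons (.kr (nat_lit 1208925819614629191483648) (nat_lit 4722366483969156907008) (nat_lit 1) (nat_lit 0)) (.cons (.ev (nat_lit 310693954087986346097442816) (nat_lit 1)) (.cons (.br (nat_lit 12) (nat_lit 0) (.cons (.kr (nat_lit 1208925819614629191483648) (nat_lit 4722366483969156907008) (nat_lit 1) (nat_lit 0)) (.cons (.ev (nat_lit 310693954087986346097442816) (nat_lit 1)) .nil))) .nil)))),
 (.br (nat_lit 13) (nat_lit 0) (.cons (.ev (nat_lit 309489750634853487073034496) (nat_lit 1)) (.cons (.rf (nat_lit 2705) (nat_lit 493858305440582043680)) (.cons (.br (nat_lit 13) (nat_lit 0) (.cons (.ev (nat_lit 309489750634853487073034496) (nat_lit 1)) (.cons (.rf (nat_lit 2705) (nat_lit 493858305440582043680)) .nil))) .nil)))),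
 (.br (nat_lit 10) (nat_lit 0) (.cons (.kr (nat_lit 1208925819614629191483648) (nat_lit 4722366483969156907008) (nat_lit 1) (nat_lit 0)) (.cons (.br (nat_lit 11) (nat_lit 0) (.cons (.br (nat_lit 11) (nat_lit 0) .nil) .nil)) (.cons (.rf (nat_lit 2400) (nat_lit 15432963264132319264)) .nil)))),
 (.br (nat_lit 3) (nat_lit 0) (.cons (.kr (nat_lit 1208925819614629191483648) (nat_lit 4722366483969156907008) (nat_lit 1) (nat_lit 0)) (.cons (.br (nat_lit 11) (nat_lit 0) (.cons (.br (nat_lit 11) (nat_lit 0) .nil) .nil)) (.cons (.rf (nat_lit 2400) (nat_lit 15432963264132319264)) .nil)))),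
 (.br (nat_lit 13) (nat_lit 0) (.cons (.rf (nat_lit 2707) (nat_lit 493858305440582043680)) (.cons (.rf (nat_lit 2708) (nat_lit 493858305440582043680)) (.cons (.br (nat_lit 13) (nat_lit 0) (.cons (.ev (nat_lit 20282409603670189508189503881216) (nat_lit 1)) (.cons (.rf (nat_lit 2708) (nat_lit 493858305440582043680)) .nil))) .nil)))),
 (.br (nat_lit 10) (nat_lit 0) (.cons (.kr (nat_lit 1208925819614629191483648) (nat_lit 4722366483969156907008) (nat_lit 1) (nat_lit 0)) (.cons (.ev (nat_lit 1861750503164156937796452864) (nat_lit 3)) .nil))),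
 (.br (nat_lit 12) (nat_lit 0) (.cons (.kr (nat_lit 1208925819614629191483648) (nat_lit 4722366483969156907008) (nat_lit 1) (nat_lit 0)) (.cons (.rf (nat_lit 2710) (nat_lit 493858305440582043680)) (.cons (.br (nat_lit 12) (nat_lit 0) (.cons (.kr (nat_lit 1208925819614629191483648) (nat_lit 4722366483969156907008) (nat_lit 1) (nat_lit 0)) (.cons (.rf (nat_lit 2710) (nat_lit 493858305440582043680)) .nil))) .nil)))),
 (.br (nat_lit 3) (nat_lit 0) (.cons (.rf (nat_lit 2711) (nat_lit 493858305440582043680)) (.cons (.kr (nat_lit 1208925819614629191483648) (nat_lit 4722366483969156907008) (nat_lit 1) (nat_lit 0)) (.cons (.br (nat_lit 12) (nat_lit 0) (.cons (.br (nat_lit 12) (nat_lit 0) (.cons (.ev (nat_lit 122169829019625244718705915724288) (nat_lit 3)) .nil)) (.cons (.br (nat_lit 11) (nat_lit 0) (.cons (.ev (nat_lit 122169829019625244718705915724288) (nat_lit 3)) .nil)) .nil))) .nil)))),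
 (.br (nat_lit 11) (nat_lit 0) (.cons (.rf (nat_lit 2711) (nat_lit 493858305440582043680)) (.cons (.rf (nat_lit 2712) (nat_lit 493858305440582043680)) (.cons (.br (nat_lit 12) (nat_lit 0) (.cons (.kr (nat_lit 4722366482869645213696) (nat_lit 79228162514264337593543950336) (nat_lit 9) (nat_lit 0)) (.cons (.kr (nat_lit 158456325028528675191382867968) (nat_lit 4740813508418331475968) (nat_lit 4) (nat_lit 0)) (.cons (.br (nat_lit 3) (nat_lit 0) (.cons (.ev (nat_lit 159080135529589733332099663360) (nat_lit 3)) .nil)) .nil)))) .nil))))]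

theorem c97 : chkAll C T R L97 (nat_lit 2681) = true := by decide +kernel

theorem l97 : (nat_lit 2681) + L97.length = (nat_lit 2714) := by decide +kernel

/-- part of the certificates -/
def L98 : List Prf := [(.br (nat_lit 1) (nat_lit 0) (.cons (.rf (nat_lit 2669) (nat_lit 14242959524133701664)) (.cons (.ev (nat_lit 1213666705181745350705408) (nat_lit 1)) (.cons (.br (nat_lit 13) (nat_lit 0) (.cons (.rf (nat_lit 2704) (nat_lit 493858305440582043680)) (.cons (.rf (nat_lit 2705) (nat_lit 493858305440582043680)) (.cons (.rf (nat_lit 2706) (nat_lit 493858305440582043680)) (.cons (.br (nat_lit 13) (nat_lit 0) (.cons (.rf (nat_lit 2704) (nat_lit 493858305440582043680)) (.cons (.rf (nat_lit 2705) (nat_lit 493858305440582043680)) (.cons (.rf (nat_lit 2706) (nat_lit 493858305440582043680)) .nil)))) .nil))))) (.cons (.br (nat_lit 13) (nat_lit 0) (.cons (.rf (nat_lit 2707) (nat_lit 493858305440582043680)) (.cons (.rf (nat_lit 2708) (nat_lit 493858305440582043680)) (.cons (.rf (nat_lit 2709) (nat_lit 493858305440582043680))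 (.cons (.br (nat_lit 13) (nat_lit 0) (.cons (.rf (nat_lit 2707) (nat_lit 493858305440582043680)) (.cons (.rf (nat_lit 2708) (nat_lit 493858305440582043680)) (.cons (.rf (nat_lit 2709) (nat_lit 493858305440582043680)) .nil)))) .nil))))) (.cons (.br (nat_lit 11) (nat_lit 0) (.cons (.rf (nat_lit 2711) (nat_lit 493858305440582043680)) (.cons (.rf (nat_lit 2712) (nat_lit 493858305440582043680)) (.cons (.rf (nat_lit 2713) (nat_lit 493858305440582043680)) (.cons (.br (nat_lit 11) (nat_lit 0) (.cons (.rf (nat_lit 2711) (nat_lit 493858305440582043680)) (.cons (.rf (nat_lit 2712) (nat_lit 493858305440582043680)) (.cons (.rf (nat_lit 2713) (nat_lit 493858305440582043680)) .nil)))) .nil))))) .nil)))))),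
 (.br (nat_lit 11) (nat_lit 0) (.cons (.ev (nat_lit 79228167255149622130953486336) (nat_lit 1)) (.cons (.br (nat_lit 12) (nat_lit 0) (.cons (.ev (nat_lit 20283339267643919619524107763712) (nat_lit 2)) .nil)) .nil))),
 (.br (nat_lit 7) (nat_lit 0) (.cons (.ev (nat_lit 79228162514336676666870398976) (nat_lit 1)) (.cons (.br (nat_lit 12) (nat_lit 0) (.cons (.ev (nat_lit 318774400634009046582533685760) (nat_lit 3)) .nil)) .nil))),
 (.br (nat_lit 7) (nat_lit 0) (.cons (.br (nat_lit 13) (nat_lit 0) (.cons (.rf (nat_lit 2399) (nat_lit 15433068714169370656)) (.cons (.br (nat_lit 11) (nat_lit 0) (.cons (.ev (nat_lit 20282719093402305278538130981120) (nat_lit 1)) .nil)) .nil))) (.cons (.ev (nat_lit 475371397715222177212841198080) (nat_lit 3)) (.cons (.rf (nat_lit 2400) (nat_lit 15433068714169370656)) .nil)))),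
 (.br (nat_lit 11) (nat_lit 0) (.cons (.br (nat_lit 12) (nat_lit 0) (.cons (.zr (nat_lit 1856910059360415976576255488) (nat_lit 40564821629932687075921954340866) (nat_lit 10) (nat_lit 13)) .nil)) (.cons (.ev (nat_lit 310693954087986346097442816) (nat_lit 1)) .nil))),
 (.br (nat_lit 13) (nat_lit 0) (.cons (.rf (nat_lit 2400) (nat_lit 15433068714169370656)) (.cons (.rf (nat_lit 2718) (nat_lit 493858305440582043680)) (.cons (.br (nat_lit 13) (nat_lit 0) (.cons (.rf (nat_lit 2400) (nat_lit 15433068714169370656)) (.cons (.rf (nat_lit 2718) (nat_lit 493858305440582043680)) .nil))) .nil)))),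
 (.br (nat_lit 13) (nat_lit 0) (.cons (.rf (nat_lit 2717) (nat_lit 493858305440582043680)) (.cons (.rf (nat_lit 2719) (nat_lit 493858305440582043680)) (.cons (.br (nat_lit 13) (nat_lit 0) (.cons (.rf (nat_lit 2717) (nat_lit 493858305440582043680)) (.cons (.rf (nat_lit 2719) (nat_lit 493858305440582043680)) .nil))) .nil)))),
 (.br (nat_lit 12) (nat_lit 0) (.cons (.br (nat_lit 11) (nat_lit 0) (.cons (.ev (nat_lit 309485028340428211465814016) (nat_lit 1)) .nil)) (.cons (.ev (nat_lit 309485028340428211465814016) (nat_lit 1)) .nil))),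
 (.br (nat_lit 12) (nat_lit 0) (.cons (.rf (nat_lit 2721) (nat_lit 15433072044983552032)) (.cons (.br (nat_lit 12) (nat_lit 0) (.cons (.rf (nat_lit 2721) (nat_lit 15433072044983552032)) (.cons (.ev (nat_lit 79538861190718806809286606848) (nat_lit 1)) .nil))) (.cons (.br (nat_lit 12) (nat_lit 0) (.cons (.ev (nat_lit 79228162514336676666870398976) (nat_lit 1)) (.cons (.ev (nat_lit 79538861190718806809286606848) (nat_lit 1)) .nil))) .nil)))),
 (.br (nat_lit 11) (nat_lit 0) (.cons (.ev (nat_lit 79229376162522492686401798144) (nat_lit 1)) .nil)),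
 (.br (nat_lit 3) (nat_lit 0) (.cons (.rf (nat_lit 2722) (nat_lit 493858305440582043680)) (.cons (.br (nat_lit 11) (nat_lit 0) (.cons (.kr (nat_lit 4722366482869645213696) (nat_lit 79228162514264337593543950336) (nat_lit 9) (nat_lit 0)) (.cons (.rf (nat_lit 2723) (nat_lit 15433072045018155040)) .nil))) (.cons (.br (nat_lit 12) (nat_lit 0) (.cons (.br (nat_lit 12) (nat_lit 0) (.cons (.ev (nat_lit 20282409603670189508189503881216) (nat_lit 1)) .nil)) (.cons (.ev (nat_lit 20282409603670189508189503881216) (nat_lit 1)) .nil))) .nil)))),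
 (.br (nat_lit 1) (nat_lit 0) (.cons (.rf (nat_lit 2669) (nat_lit 14242959524133701664)) (.cons (.ev (nat_lit 1213666705181745350705408) (nat_lit 1)) (.cons (.br (nat_lit 3) (nat_lit 0) (.cons (.br (nat_lit 12) (nat_lit 0) (.cons (.rf (nat_lit 2453) (nat_lit 470946623424544)) (.cons (.br (nat_lit 12) (nat_lit 0) (.cons (.ev (nat_lit 159080135529590296273463150080) (nat_lit 3)) .nil)) .nil))) (.cons (.ev (nat_lit 309489750634572016391291136) (nat_lit 1)) (.cons (.br (nat_lit 12) (nat_lit 0) (.cons (.kr (nat_lit 4740813226947649732608) (nat_lit 158456325028528956662064611328) (nat_lit 4) (nat_lit 0)) (.cons (.kr (nat_lit 4722366482869645213696) (nat_lit 79228162514264337593543950336) (nat_lit 9) (nat_lit 0)) (.cons (.br (nat_lit 13) (nat_lit 0) (.cons (.br (nat_lit 11) (nat_lit 0) (.cons (.ev (nat_lit 20282720297605758127718860324864) (nat_lit 1)) .nil)) (.cons (.br (nat_lit 7) (nat_lit 0) (.cons (.ev (nat_lit 20282720297605758127718860324864) (nat_lit 1)) .nil)) .nil))) .nil)))) (.cons (.br (nat_lit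 12) (nat_lit 0) (.cons (.rf (nat_lit 2715) (nat_lit 493858305440582043680)) (.cons (.rf (nat_lit 2716) (nat_lit 493858305440582043680)) (.cons (.br (nat_lit 12) (nat_lit 0) (.cons (.rf (nat_lit 2715) (nat_lit 493858305440582043680)) (.cons (.rf (nat_lit 2716) (nat_lit 493858305440582043680)) .nil))) .nil)))) .nil))))) (.cons (.br (nat_lit 13) (nat_lit 0) (.cons (.rf (nat_lit 2717) (nat_lit 493858305440582043680)) (.cons (.rf (nat_lit 2719) (nat_lit 493858305440582043680)) (.cons (.rf (nat_lit 2720) (nat_lit 493858305440582043680)) (.cons (.br (nat_lit 13) (nat_lit 0) (.cons (.rf (nat_lit 2717) (nat_lit 493858305440582043680)) (.cons (.rf (nat_lit 2719) (nat_lit 493858305440582043680)) (.cons (.rf (nat_lit 2720) (nat_lit 493858305440582043680)) .nil)))) .nil))))) (.cons (.br (nat_lit 11) (nat_lit 0) (.cons (.rf (nat_lit 2722) (nat_lit 493858305440582043680)) (.cons (.rf (nat_lit 2724) (nat_lit 493858305440582043680)) (.cons (.br (nat_lit 11) (nat_lit 0) (.cons (.rf (nat_lit 2722) (nat_lit 493858305440582043680))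 (.cons (.rf (nat_lit 2724) (nat_lit 493858305440582043680)) (.cons (.ev (nat_lit 310698658007443671351361536) (nat_lit 1)) .nil)))) (.cons (.br (nat_lit 11) (nat_lit 0) (.cons (.rf (nat_lit 2722) (nat_lit 493858305440582043680)) (.cons (.rf (nat_lit 2724) (nat_lit 493858305440582043680)) (.cons (.ev (nat_lit 310698658007443671351361536) (nat_lit 1)) .nil)))) .nil))))) .nil)))))),
 (.br (nat_lit 10) (nat_lit 0) (.cons (.kr (nat_lit 1208925819614629191483648) (nat_lit 4722366483969156907008) (nat_lit 1) (nat_lit 0)) (.cons (.kr (nat_lit 2417870085973336387486208) (nat_lit 14167099732282935738368) (nat_lit 1) (nat_lit 0)) (.cons (.br (nat_lit 13) (nat_lit 0) (.cons (.br (nat_lit 11) (nat_lit 0) (.cons (.ev (nat_lit 310693954087986346097442816) (nat_lit 1)) .nil)) (.cons (.ev (nat_lit 310693954087986346097442816) (nat_lit 1)) .nil))) (.cons (.br (nat_lit 11) (nat_lit 0) (.cons (.rf (nat_lit 2403) (nat_lit 493858305440515000352)) (.cons (.ev (nat_lit 310698658007443671351361536) (nat_lit 1)) (.cons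 (.br (nat_lit 7) (nat_lit 0) (.cons (.ev (nat_lit 20361637766166007101709338279936) (nat_lit 1)) .nil)) .nil)))) .nil))))),
 (.br (nat_lit 3) (nat_lit 0) (.cons (.kr (nat_lit 2417870085973336387486208) (nat_lit 14167099732282935738368) (nat_lit 1) (nat_lit 0)) (.cons (.br (nat_lit 11) (nat_lit 0) (.cons (.ev (nat_lit 20361637766166007101709338279936) (nat_lit 1)) .nil)) (.cons (.rf (nat_lit 2726) (nat_lit 493858305440582043680)) .nil)))),
 (.br (nat_lit 10) (nat_lit 0) (.cons (.br (nat_lit 12) (nat_lit 0) (.cons (.ev (nat_lit 20361947255898122590578693701888) (nat_lit 1)) .nil)) (.cons (.ev (nat_lit 310693954087986346097442816) (nat_lit 1)) (.cons (.rf (nat_lit 2727) (nat_lit 493858305440582043680)) .nil)))),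
 (.br (nat_lit 13) (nat_lit 0) (.cons (.rf (nat_lit 2726) (nat_lit 493858305440582043680)) (.cons (.rf (nat_lit 2727) (nat_lit 493858305440582043680)) (.cons (.rf (nat_lit 2728) (nat_lit 493858305440582043680)) (.cons (.br (nat_lit 13) (nat_lit 0) (.cons (.rf (nat_lit 2726) (nat_lit 493858305440582043680)) (.cons (.rf (nat_lit 2727) (nat_lit 493858305440582043680)) (.cons (.rf (nat_lit 2728) (nat_lit 493858305440582043680)) .nil)))) .nil))))),
 (.br (nat_lit 3) (nat_lit 0) (.cons (.kr (nat_lit 1208925819614629191483648) (nat_lit 4722366483969156907008) (nat_lit 1) (nat_lit 0)) (.cons (.kr (nat_lit 2417870085973336387486208) (nat_lit 14167099732282935738368) (nat_lit 1) (nat_lit 0)) (.cons (.br (nat_lit 7) (nat_lit 0) (.cons (.ev (nat_lit 309485009821345073036525824) (nat_lit 1)) (.cons (.rf (nat_lit 2729) (nat_lit 493858305440582043680)) .nil))) (.cons (.rf (nat_lit 2726) (nat_lit 493858305440582043680)) .nil))))),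
 (.br (nat_lit 13) (nat_lit 0) (.cons (.rf (nat_lit 2726) (nat_lit 493858305440582043680)) (.cons (.rf (nat_lit 2729) (nat_lit 493858305440582043680)) (.cons (.rf (nat_lit 2730) (nat_lit 493858305440582043680)) (.cons (.br (nat_lit 13) (nat_lit 0) (.cons (.rf (nat_lit 2726) (nat_lit 493858305440582043680)) (.cons (.rf (nat_lit 2729) (nat_lit 493858305440582043680)) (.cons (.ev (nat_lit 20361948460101575721238694723584) (nat_lit 1)) .nil)))) .nil))))),
 (.br (nat_lit 11) (nat_lit 0) (.cons (.ev (nat_lit 309485009821345073036525824) (nat_lit 1)) (.cons (.br (nat_lit 7) (nat_lit 0) (.cons (.br (nat_lit 12) (nat_lit 0) (.cons (.ev (nat_lit 20521023755205159376378449166336) (nat_lit 2)) .nil)) (.cons (.ev (nat_lit 20282719093402305278538130981120) (nat_lit 1)) .nil))) (.cons (.br (nat_lit 10) (nat_lit 0) (.cons (.br (nat_lit 12) (nat_lit 0) (.cons (.ev (nat_lit 20362569848028270495607243866624) (nat_lit 2)) .nil)) (.cons (.kr (nat_lit 158456325028528675191382867968) (nat_lit 4740813508418331475968)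 (nat_lit 4) (nat_lit 0)) (.cons (.ev (nat_lit 310698658007443671351361536) (nat_lit 1)) .nil)))) (.cons (.rf (nat_lit 2669) (nat_lit 13951351549195551137)) .nil))))),
 (.br (nat_lit 3) (nat_lit 0) (.cons (.ev (nat_lit 1208925891954801995940096) (nat_lit 1)) (.cons (.br (nat_lit 12) (nat_lit 0) (.cons (.kr (nat_lit 2417870085973336387486208) (nat_lit 14167099732282935738368) (nat_lit 1) (nat_lit 0)) (.cons (.rf (nat_lit 2669) (nat_lit 5885226501296849997)) .nil))) (.cons (.rf (nat_lit 2602) (nat_lit 5885226501296849997)) (.cons (.rf (nat_lit 2732) (nat_lit 493858305440582043680)) .nil))))),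
 (.br (nat_lit 1) (nat_lit 0) (.cons (.rf (nat_lit 2669) (nat_lit 14242959524133701664)) (.cons (.rf (nat_lit 2714) (nat_lit 493858305440582043680)) (.cons (.rf (nat_lit 2725) (nat_lit 493858305440582043680)) (.cons (.br (nat_lit 13) (nat_lit 0) (.cons (.rf (nat_lit 2726) (nat_lit 493858305440582043680)) (.cons (.rf (nat_lit 2729) (nat_lit 493858305440582043680)) (.cons (.rf (nat_lit 2730) (nat_lit 493858305440582043680)) (.cons (.rf (nat_lit 2731) (nat_lit 493858305440582043680)) (.cons (.br (nat_lit 13) (nat_lit 0) (.cons (.rf (nat_lit 2726) (nat_lit 493858305440582043680)) (.cons (.rf (nat_lit 2729) (nat_lit 493858305440582043680)) (.cons (.rf (nat_lit 2730) (nat_lit 493858305440582043680)) (.cons (.rf (nat_lit 2731) (nat_lit 493858305440582043680)) .nil))))) .nil)))))) (.cons (.br (nat_lit 13) (nat_lit 0) (.cons (.rf (nat_lit 2732) (nat_lit 493858305440582043680)) (.cons (.rf (nat_lit 2733) (nat_lit 493858305440582043680)) (.cons (.br (nat_lit 13) (nat_lit 0) (.cons (.rf (nat_lit 2732) (nat_lit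 493858305440582043680)) (.cons (.rf (nat_lit 2733) (nat_lit 493858305440582043680)) (.cons (.rf (nat_lit 2669) (nat_lit 13951351549195551137)) (.cons (.rf (nat_lit 2669) (nat_lit 6164517744835626061)) .nil))))) (.cons (.rf (nat_lit 2669) (nat_lit 13951351549195551137)) (.cons (.br (nat_lit 13) (nat_lit 0) (.cons (.rf (nat_lit 2732) (nat_lit 493858305440582043680)) (.cons (.rf (nat_lit 2669) (nat_lit 5885226501296849997)) (.cons (.rf (nat_lit 2669) (nat_lit 6164517744835626061)) (.cons (.rf (nat_lit 2669) (nat_lit 13951351549195551137)) .nil))))) .nil)))))) .nil)))))),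
 (.br (nat_lit 10) (nat_lit 0) (.cons (.kr (nat_lit 1208925819614629191483648) (nat_lit 4722366483969156907008) (nat_lit 1) (nat_lit 0)) (.cons (.kr (nat_lit 2417870085973336387486208) (nat_lit 14167099732282935738368) (nat_lit 1) (nat_lit 0)) (.cons (.br (nat_lit 13) (nat_lit 0) (.cons (.br (nat_lit 11) (nat_lit 0) (.cons (.ev (nat_lit 20440868346568876779451648770560) (nat_lit 2)) .nil)) (.cons (.br (nat_lit 7) (nat_lit 0) (.cons (.ev (nat_lit 20440868346568876779451648770560) (nat_lit 2)) .nil)) .nil))) (.cons (.br (nat_lit 12) (nat_lit 0) (.cons (.br (nat_lit 11) (nat_lit 0) (.cons (.ev (nat_lit 20282410817318375323118113718528) (nat_lit 1)) .nil)) (.cons (.ev (nat_lit 79538861190718806809286606848) (nat_lit 1)) (.cons (.rf (nat_lit 2669) (nat_lit 6164517744835626061)) .nil)))) .nil))))),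
 (.br (nat_lit 11) (nat_lit 0) (.cons (.ev (nat_lit 79538856449905579865931841536) (nat_lit 1)) .nil)),
 (.br (nat_lit 3) (nat_lit 0) (.cons (.br (nat_lit 13) (nat_lit 0) (.cons (.br (nat_lit 12) (nat_lit 0) (.cons (.zr (nat_lit 51946031322561214414848) (nat_lit 40566061983101533430762719675906) (nat_lit 10) (nat_lit 0)) .nil)) (.cons (.br (nat_lit 11) (nat_lit 0) (.cons (.zr (nat_lit 51946031322561214414848) (nat_lit 40566061983101533430762719675906) (nat_lit 10) (nat_lit 0)) .nil)) .nil))) (.cons (.rf (nat_lit 2735) (nat_lit 493858305440582043680)) (.cons (.br (nat_lit 13) (nat_lit 0) (.cons (.br (nat_lit 11) (nat_lit 0) (.cons (.ev (nat_lit 79537652246452165536225689856) (nat_lit 1)) .nil)) (.cons (.ev (nat_lit 79537652246452165536225689856) (nat_lit 1)) .nil))) (.cons (.br (nat_lit 12) (nat_lit 0) (.cons (.rf (nat_lit 2736) (nat_lit 493858305440582043680)) (.cons (.br (nat_lit 10) (nat_lit 0) (.cons (.ev (nat_lit 20283030991559846397751842635776) (nat_lit 2)) .nil)) (.cons (.ev (nat_lit 20282409608374108965514757799936)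 (nat_lit 1)) .nil)))) .nil))))),
 (.br (nat_lit 3) (nat_lit 0) (.cons (.kr (nat_lit 1208925819614629191483648) (nat_lit 4722366483969156907008) (nat_lit 1) (nat_lit 0)) (.cons (.kr (nat_lit 2417870085973336387486208) (nat_lit 14167099732282935738368) (nat_lit 1) (nat_lit 0)) (.cons (.br (nat_lit 7) (nat_lit 0) (.cons (.rf (nat_lit 2737) (nat_lit 493858305440582043680)) (.cons (.br (nat_lit 11) (nat_lit 0) (.cons (.ev (nat_lit 20440865928680344059846890422272) (nat_lit 2)) .nil)) .nil))) (.cons (.br (nat_lit 11) (nat_lit 0) (.cons (.rf (nat_lit 2737) (nat_lit 493858305440582043680)) (.cons (.ev (nat_lit 79537652246452447006907433216) (nat_lit 1)) (.cons (.br (nat_lit 7) (nat_lit 0) (.cons (.ev (nat_lit 20282409603670189508189503881216) (nat_lit 1)) .nil)) .nil)))) .nil)))))]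

theorem c98 : chkAll C T R L98 (nat_lit 2714) = true := by decide +kernel

theorem l98 : (nat_lit 2714) + L98.length = (nat_lit 2739) := by decide +kernel

/-- part of the certificates -/
def L99 : List Prf := [(.br (nat_lit 11) (nat_lit 0) (.cons (.rf (nat_lit 2735) (nat_lit 493858305440582043680)) (.cons (.rf (nat_lit 2737) (nat_lit 493858305440582043680)) (.cons (.rf (nat_lit 2738) (nat_lit 493858305440582043680)) (.cons (.br (nat_lit 3) (nat_lit 0) (.cons (.br (nat_lit 10) (nat_lit 0) (.cons (.ev (nat_lit 20361947255898122590578693701888) (nat_lit 1)) .nil)) (.cons (.ev (nat_lit 79538856449905298395250098176) (nat_lit 1)) (.cons (.br (nat_lit 7) (nat_lit 0) (.cons (.ev (nat_lit 20361948460101576002717966401536) (nat_lit 1)) .nil)) .nil)))) .nil))))),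
 (.br (nat_lit 1) (nat_lit 0) (.cons (.rf (nat_lit 2669) (nat_lit 14242959524133701664)) (.cons (.rf (nat_lit 2714) (nat_lit 493858305440582043680)) (.cons (.rf (nat_lit 2725) (nat_lit 493858305440582043680)) (.cons (.rf (nat_lit 2734) (nat_lit 493858305440582043680)) (.cons (.br (nat_lit 11) (nat_lit 0) (.cons (.rf (nat_lit 2735) (nat_lit 493858305440582043680)) (.cons (.rf (nat_lit 2737) (nat_lit 493858305440582043680)) (.cons (.rf (nat_lit 2738) (nat_lit 493858305440582043680)) (.cons (.rf (nat_lit 2739) (nat_lit 493858305440582043680)) (.cons (.br (nat_lit 11) (nat_lit 0) (.cons (.rf (nat_lit 2735) (nat_lit 493858305440582043680)) (.cons (.rf (nat_lit 2737) (nat_lit 493858305440582043680)) (.cons (.rf (nat_lit 2738) (nat_lit 493858305440582043680)) (.cons (.rf (nat_lit 2739) (nat_lit 493858305440582043680)) .nil))))) .nil)))))) .nil)))))),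
 (.br (nat_lit 2) (nat_lit 0) (.cons (.rf (nat_lit 2161) (nat_lit 14242959524133701664)) (.cons (.rf (nat_lit 2669) (nat_lit 14242959524133700672)) (.cons (.rf (nat_lit 2685) (nat_lit 14242959524133701664)) (.cons (.br (nat_lit 3) (nat_lit 0) (.cons (.rf (nat_lit 2669) (nat_lit 14242959524133701664)) (.cons (.ev (nat_lit 18518801667764322304) (nat_lit 1)) (.cons (.br (nat_lit 7) (nat_lit 0) (.cons (.br (nat_lit 1) (nat_lit 0) (.cons (.br (nat_lit 11) (nat_lit 0) (.cons (.ev (nat_lit 1240362705526226773560657408) (nat_lit 3)) (.cons (.rf (nat_lit 2367) (nat_lit 470976788858912)) .nil))) (.cons (.ev (nat_lit 79229371458602754989977763841) (nat_lit 1)) (.cons (.rf (nat_lit 2330) (nat_lit 15031773909125152)) .nil)))) (.cons (.ev (nat_lit 18519083147036000256) (nat_lit 1)) (.cons (.ev (nat_lit 158463583361443280957250863110) (nat_lit 3)) (.cons (.br (nat_lit 13) (nat_lit 0) (.cons (.rf (nat_lit 2686) (nat_lit 15433070910038444064)) (.cons (.br (nat_lit 13) (nat_lit 0) (.cons (.rf (nat_lit 2686) (nat_lit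 15433070910038444064)) (.cons (.ev (nat_lit 79229371458602754989977763841) (nat_lit 1)) .nil))) (.cons (.ev (nat_lit 79229371458602754989977763841) (nat_lit 1)) .nil)))) .nil))))) (.cons (.br (nat_lit 7) (nat_lit 0) (.cons (.br (nat_lit 1) (nat_lit 0) (.cons (.ev (nat_lit 1213666705181745350705408) (nat_lit 1)) (.cons (.br (nat_lit 10) (nat_lit 0) (.cons (.ev (nat_lit 79537652246452447006907432961) (nat_lit 1)) (.cons (.rf (nat_lit 2314) (nat_lit 469911636969504)) .nil))) (.cons (.br (nat_lit 10) (nat_lit 0) (.cons (.ev (nat_lit 79537652246452447006907432961) (nat_lit 1)) (.cons (.rf (nat_lit 2317) (nat_lit 469911636969504)) .nil))) (.cons (.br (nat_lit 10) (nat_lit 0) (.cons (.rf (nat_lit 2343) (nat_lit 469914757531680)) (.cons (.rf (nat_lit 2336) (nat_lit 469745206986784)) (.cons (.br (nat_lit 11) (nat_lit 0) (.cons (.ev (nat_lit 1858119077126935691171006208) (nat_lit 3)) (.cons (.ev (nat_lit 626228352700285204371341312) (nat_lit 3)) .nil))) .nil)))) .nil))))) (.cons (.ev (nat_lit 18519083147036000256)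 (nat_lit 1)) (.cons (.br (nat_lit 1) (nat_lit 0) (.cons (.ev (nat_lit 313126009936043680840417280) (nat_lit 2)) (.cons (.br (nat_lit 1) (nat_lit 0) (.cons (.ev (nat_lit 158767019001279580596672135170) (nat_lit 2)) (.cons (.rf (nat_lit 2343) (nat_lit 469911636969504)) .nil))) (.cons (.rf (nat_lit 2343) (nat_lit 469911636969504)) .nil)))) (.cons (.br (nat_lit 10) (nat_lit 0) (.cons (.br (nat_lit 1) (nat_lit 0) (.cons (.ev (nat_lit 309489750634572016391291136) (nat_lit 1)) (.cons (.rf (nat_lit 2336) (nat_lit 469848185538592)) .nil))) (.cons (.ev (nat_lit 79231789328760785916091629571) (nat_lit 2)) (.cons (.rf (nat_lit 2688) (nat_lit 470979911452704)) .nil)))) (.cons (.br (nat_lit 10) (nat_lit 0) (.cons (.br (nat_lit 1) (nat_lit 0) (.cons (.ev (nat_lit 309489750634572016391291136) (nat_lit 1)) (.cons (.rf (nat_lit 2317) (nat_lit 469914757531680)) (.cons (.br (nat_lit 11) (nat_lit 0) (.cons (.ev (nat_lit 79228162514336395187598721281) (nat_lit 1)) (.cons (.ev (nat_lit 626228352700285204371341312) (nat_lit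 3)) .nil))) .nil)))) (.cons (.br (nat_lit 1) (nat_lit 0) (.cons (.ev (nat_lit 79537647542532426740290027521) (nat_lit 1)) (.cons (.rf (nat_lit 2343) (nat_lit 469914757531680)) .nil))) (.cons (.rf (nat_lit 2688) (nat_lit 470976790890528)) (.cons (.br (nat_lit 1) (nat_lit 0) (.cons (.rf (nat_lit 2689) (nat_lit 493858305440582043680)) (.cons (.rf (nat_lit 2690) (nat_lit 493858305440582043680)) (.cons (.br (nat_lit 1) (nat_lit 0) (.cons (.rf (nat_lit 2689) (nat_lit 493858305440582043680)) (.cons (.rf (nat_lit 2690) (nat_lit 493858305440582043680)) .nil))) .nil)))) .nil))))) .nil)))))) (.cons (.br (nat_lit 1) (nat_lit 0) (.cons (.rf (nat_lit 2691) (nat_lit 14242959524133701664)) (.cons (.br (nat_lit 1) (nat_lit 0) (.cons (.ev (nat_lit 1213666705181745350705408) (nat_lit 1)) (.cons (.kr (nat_lit 4740813508418331475970) (nat_lit 158456325028528675191382868480) (nat_lit 0) (nat_lit 2)) (.cons (.rf (nat_lit 2330) (nat_lit 15035140995713056)) .nil)))) (.cons (.rf (nat_lit 2692) (nat_lit 14242959524133701664))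 (.cons (.br (nat_lit 1) (nat_lit 0) (.cons (.rf (nat_lit 2330) (nat_lit 15031842561493024)) (.cons (.rf (nat_lit 2330) (nat_lit 15035140995713056)) (.cons (.rf (nat_lit 2692) (nat_lit 14242959524133701664)) .nil)))) .nil))))) (.cons (.br (nat_lit 13) (nat_lit 0) (.cons (.rf (nat_lit 2696) (nat_lit 493858305440582043680)) (.cons (.rf (nat_lit 2699) (nat_lit 493858305440582043680)) (.cons (.rf (nat_lit 2701) (nat_lit 493858305440582043680)) (.cons (.rf (nat_lit 2702) (nat_lit 493858305440582043680)) (.cons (.br (nat_lit 13) (nat_lit 0) (.cons (.rf (nat_lit 2696) (nat_lit 493858305440582043680)) (.cons (.rf (nat_lit 2699) (nat_lit 493858305440582043680)) (.cons (.rf (nat_lit 2701) (nat_lit 493858305440582043680)) (.cons (.rf (nat_lit 2702) (nat_lit 493858305440582043680)) .nil))))) .nil)))))) .nil))))))) (.cons (.br (nat_lit 1) (nat_lit 0) (.cons (.rf (nat_lit 2669) (nat_lit 14242959524133701664)) (.cons (.rf (nat_lit 2714) (nat_lit 493858305440582043680)) (.cons (.rf (nat_lit 2725) (nat_lit 493858305440582043680))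 (.cons (.rf (nat_lit 2734) (nat_lit 493858305440582043680)) (.cons (.rf (nat_lit 2740) (nat_lit 493858305440582043680)) (.cons (.br (nat_lit 1) (nat_lit 0) (.cons (.rf (nat_lit 2669) (nat_lit 14242959524133701664)) (.cons (.rf (nat_lit 2714) (nat_lit 493858305440582043680)) (.cons (.rf (nat_lit 2725) (nat_lit 493858305440582043680)) (.cons (.rf (nat_lit 2734) (nat_lit 493858305440582043680)) (.cons (.rf (nat_lit 2740) (nat_lit 493858305440582043680)) .nil)))))) .nil))))))) .nil)))))),
 (.br (nat_lit 11) (nat_lit 0) (.cons (.ev (nat_lit 79229376162522493785913426176) (nat_lit 1)) (.cons (.rf (nat_lit 2314) (nat_lit 468812158896160)) .nil))),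
 (.br (nat_lit 6) (nat_lit 0) (.cons (.br (nat_lit 9) (nat_lit 0) .nil) .nil)),
 (.br (nat_lit 3) (nat_lit 0) (.cons (.ev (nat_lit 1208925819896104168194049) (nat_lit 1)) (.cons (.rf (nat_lit 2743) (nat_lit 12448129189920)) (.cons (.rf (nat_lit 2671) (nat_lit 13838837986986016)) .nil)))),
 (.br (nat_lit 1) (nat_lit 0) (.cons (.ev (nat_lit 18519083147036000256) (nat_lit 1)) (.cons (.br (nat_lit 10) (nat_lit 0) (.cons (.rf (nat_lit 2742) (nat_lit 14242959524133701664)) (.cons (.ev (nat_lit 1208925891954801995939841) (nat_lit 1)) (.cons (.kr (nat_lit 55340513696105365506) (nat_lit 158456329750895158061028082176) (nat_lit 0) (nat_lit 2)) (.cons (.br (nat_lit 3) (nat_lit 0) (.cons (.rf (nat_lit 2367) (nat_lit 470942462674976)) (.cons (.kr (nat_lit 18446744073709551617) (nat_lit 79228162514264337593543950592) (nat_lit 0) (nat_lit 2)) (.cons (.br (nat_lit 11) (nat_lit 0) (.cons (.rf (nat_lit 2313) (nat_lit 468812158896160)) (.cons (.br (nat_lit 12) (nat_lit 0) (.cons (.ev (nat_lit 20441179040467695744551013647105)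 (nat_lit 2)) .nil)) .nil))) .nil)))) .nil))))) (.cons (.rf (nat_lit 2744) (nat_lit 445092449661061152)) (.cons (.br (nat_lit 3) (nat_lit 0) (.cons (.br (nat_lit 11) (nat_lit 0) (.cons (.ev (nat_lit 311902917017544483588473345) (nat_lit 2)) (.cons (.rf (nat_lit 2317) (nat_lit 468812158896160)) .nil))) (.cons (.rf (nat_lit 2743) (nat_lit 12517922408480)) (.cons (.rf (nat_lit 2671) (nat_lit 15002121289173024)) .nil)))) (.cons (.br (nat_lit 3) (nat_lit 0) (.cons (.br (nat_lit 10) (nat_lit 0) (.cons (.rf (nat_lit 2343) (nat_lit 468816319645728)) (.cons (.rf (nat_lit 2343) (nat_lit 468783033649184)) (.cons (.br (nat_lit 11) (nat_lit 0) (.cons (.ev (nat_lit 79850792497492781638806340864) (nat_lit 3)) (.cons (.br (nat_lit 12) (nat_lit 0) (.cons (.ev (nat_lit 203617003890049232436102066209796) (nat_lit 4)) .nil)) .nil))) .nil)))) (.cons (.rf (nat_lit 2330) (nat_lit 14996623896774688)) (.cons (.rf (nat_lit 2330) (nat_lit 14996658222958624)) (.cons (.br (nat_lit 11) (nat_lit 0) (.cons (.br (nat_lit 10) (nat_lit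 0) (.cons (.ev (nat_lit 158768227908652731523257270275) (nat_lit 2)) (.cons (.br (nat_lit 12) (nat_lit 0) (.cons (.ev (nat_lit 40724513477185756516190131716100) (nat_lit 3)) .nil)) .nil))) (.cons (.rf (nat_lit 2336) (nat_lit 468645728913440)) (.cons (.rf (nat_lit 2741) (nat_lit 14208022404722308097)) .nil)))) .nil))))) .nil)))))),
 (.br (nat_lit 3) (nat_lit 0) (.cons (.ev (nat_lit 310698658007725142033104896) (nat_lit 1)) (.cons (.rf (nat_lit 2341) (nat_lit 468777832712224)) .nil))),
 (.br (nat_lit 9) (nat_lit 0) (.cons (.rf (nat_lit 2688) (nat_lit 325669288511520)) .nil)),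
 (.br (nat_lit 1) (nat_lit 0) (.cons (.rf (nat_lit 2669) (nat_lit 14242959524133701664)) (.cons (.rf (nat_lit 2745) (nat_lit 14242959524133701664)) (.cons (.br (nat_lit 3) (nat_lit 0) (.cons (.br (nat_lit 10) (nat_lit 0) (.cons (.ev (nat_lit 3109361949010394921604088834) (nat_lit 4)) (.cons (.rf (nat_lit 2367) (nat_lit 470946623424544)) .nil))) (.cons (.ev (nat_lit 309485009821626543718268929) (nat_lit 1)) (.cons (.kr (nat_lit 4740813508418331475970) (nat_lit 158456325028528675191382868480) (nat_lit 0) (nat_lit 2)) (.cons (.rf (nat_lit 2430) (nat_lit 15433072045016123424)) .nil))))) (.cons (.br (nat_lit 10) (nat_lit 0) (.cons (.zr (nat_lit 1213648186097507426631936) (nat_lit 36893771821419069440) (nat_lit 5) (nat_lit 3)) (.cons (.rf (nat_lit 2746) (nat_lit 14242959524133701664)) (.cons (.ev (nat_lit 310693954087986346097442816) (nat_lit 1)) (.cons (.br (nat_lit 3) (nat_lit 0) (.cons (.rf (nat_lit 2367) (nat_lit 469848185538592)) (.cons (.rf (nat_lit 2367) (nat_lit 465450273245216)) (.cons (.br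 (nat_lit 7) (nat_lit 0) (.cons (.zr (nat_lit 237684487542793294264198692864) (nat_lit 618970038233550498746597378) (nat_lit 5) (nat_lit 12)) (.cons (.ev (nat_lit 18519083147036000256) (nat_lit 1)) .nil))) .nil)))) .nil))))) (.cons (.br (nat_lit 10) (nat_lit 0) (.cons (.br (nat_lit 7) (nat_lit 0) (.cons (.ev (nat_lit 310693954087704875415699456) (nat_lit 1)) (.cons (.rf (nat_lit 2747) (nat_lit 470979911452704)) (.cons (.br (nat_lit 11) (nat_lit 0) (.cons (.ev (nat_lit 79228162514336395187598721281) (nat_lit 1)) (.cons (.br (nat_lit 12) (nat_lit 0) (.cons (.ev (nat_lit 159082553344334909302676653570) (nat_lit 3)) .nil)) .nil))) .nil)))) (.cons (.br (nat_lit 3) (nat_lit 0) (.cons (.ev (nat_lit 310693954087704875415699456) (nat_lit 1)) (.cons (.rf (nat_lit 2332) (nat_lit 468645728913440)) (.cons (.br (nat_lit 11) (nat_lit 0) (.cons (.ev (nat_lit 79228162514336395187598721281) (nat_lit 1)) (.cons (.ev (nat_lit 1859332688419543943076905988) (nat_lit 3)) .nil))) .nil)))) (.cons (.ev (nat_lit 310693954087986346097442816)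 (nat_lit 1)) (.cons (.br (nat_lit 3) (nat_lit 0) (.cons (.rf (nat_lit 2332) (nat_lit 468812158896160)) (.cons (.rf (nat_lit 2332) (nat_lit 468816319645728)) (.cons (.br (nat_lit 13) (nat_lit 0) (.cons (.ev (nat_lit 18519083147036000256) (nat_lit 1)) (.cons (.rf (nat_lit 2741) (nat_lit 14090929087143293953)) .nil))) .nil)))) (.cons (.rf (nat_lit 2669) (nat_lit 14090929087143281057)) .nil)))))) .nil)))))),
 (.br (nat_lit 1) (nat_lit 0) (.cons (.rf (nat_lit 2669) (nat_lit 14242959524133701664)) (.cons (.rf (nat_lit 2744) (nat_lit 445092449661061152)) (.cons (.rf (nat_lit 2748) (nat_lit 14242959524133701664)) (.cons (.rf (nat_lit 2744) (nat_lit 264948636364933152)) (.cons (.br (nat_lit 3) (nat_lit 0) (.cons (.rf (nat_lit 2330) (nat_lit 15000884504332320)) (.cons (.ev (nat_lit 309485009821626543718268929) (nat_lit 1)) (.cons (.rf (nat_lit 2330) (nat_lit 15001056135252000)) (.cons (.br (nat_lit 12) (nat_lit 0) (.cons (.rf (nat_lit 2336) (nat_lit 468783033649184)) (.cons (.ev (nat_lit 79537647542532426740290027776)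 (nat_lit 1)) (.cons (.ev (nat_lit 79847132589247541431427399937) (nat_lit 2)) .nil)))) .nil))))) .nil)))))),
 (.br (nat_lit 1) (nat_lit 0) (.cons (.rf (nat_lit 2669) (nat_lit 14242959524133701664)) (.cons (.rf (nat_lit 2745) (nat_lit 14242959524133701664)) (.cons (.rf (nat_lit 2748) (nat_lit 14242959524133701664)) (.cons (.rf (nat_lit 2744) (nat_lit 264948636364933152)) (.cons (.br (nat_lit 3) (nat_lit 0) (.cons (.rf (nat_lit 2330) (nat_lit 15001983982405664)) (.cons (.rf (nat_lit 2438) (nat_lit 15398168012859279392)) (.cons (.rf (nat_lit 2330) (nat_lit 15002121287141408)) (.cons (.br (nat_lit 7) (nat_lit 0) (.cons (.br (nat_lit 13) (nat_lit 0) (.cons (.br (nat_lit 11) (nat_lit 0) (.cons (.ev (nat_lit 318153012688796600852898251778) (nat_lit 3)) .nil)) (.cons (.br (nat_lit 10) (nat_lit 0) (.cons (.ev (nat_lit 318153012688796600852898251778) (nat_lit 3)) .nil)) .nil))) (.cons (.zr (nat_lit 237684487542793294264198692864) (nat_lit 618970038233550498746597378) (nat_lit 5) (nat_lit 12)) (.cons (.ev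 (nat_lit 18519083147036000256) (nat_lit 1)) .nil)))) .nil))))) .nil)))))),
 (.br (nat_lit 8) (nat_lit 0) (.cons (.br (nat_lit 8) (nat_lit 0) .nil) .nil)),
 (.br (nat_lit 10) (nat_lit 0) (.cons (.rf (nat_lit 2751) (nat_lit 362021891704864)) (.cons (.br (nat_lit 10) (nat_lit 0) (.cons (.rf (nat_lit 2751) (nat_lit 362021891704864)) .nil)) .nil))),
 (.br (nat_lit 12) (nat_lit 0) (.cons (.kr (nat_lit 18446744073709551617) (nat_lit 79228162514264337593543950592) (nat_lit 0) (nat_lit 2)) (.cons (.kr (nat_lit 4722366482869645213696) (nat_lit 79228162514264337593543950336) (nat_lit 9) (nat_lit 0)) (.cons (.ev (nat_lit 79229371458602754989977763841) (nat_lit 1)) .nil)))),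
 (.br (nat_lit 3) (nat_lit 0) (.cons (.kr (nat_lit 4722366482869645213696) (nat_lit 79228162514264337593543950336) (nat_lit 9) (nat_lit 0)) (.cons (.br (nat_lit 12) (nat_lit 0) (.cons (.ev (nat_lit 20283341694940291816720737436160) (nat_lit 2)) .nil)) .nil))),
 (.br (nat_lit 10) (nat_lit 0) (.cons (.ev (nat_lit 309485009821626543718268929) (nat_lit 1)) (.cons (.br (nat_lit 3) (nat_lit 0) (.cons (.ev (nat_lit 79538856449905298395250098176) (nat_lit 1)) (.cons (.br (nat_lit 12) (nat_lit 0) (.cons (.ev (nat_lit 476614173457496092388903485442) (nat_lit 3)) .nil)) .nil))) .nil))),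
 (.br (nat_lit 13) (nat_lit 0) (.cons (.br (nat_lit 12) (nat_lit 0) (.cons (.ev (nat_lit 79229371458602754989977763841) (nat_lit 1)) .nil)) (.cons (.ev (nat_lit 79229371458602754989977763841) (nat_lit 1)) .nil))),
 (.br (nat_lit 10) (nat_lit 0) (.cons (.ev (nat_lit 79538856449905298395250098176) (nat_lit 1)) (.cons (.rf (nat_lit 2756) (nat_lit 493858305440582043680)) .nil))),
 (.br (nat_lit 12) (nat_lit 0) (.cons (.ev (nat_lit 310698658007443671351361536) (nat_lit 1)) (.cons (.ev (nat_lit 18519083147036000256) (nat_lit 1)) (.cons (.ev (nat_lit 284748508886157569775337273032710) (nat_lit 4)) .nil)))),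
 (.br (nat_lit 13) (nat_lit 0) (.cons (.rf (nat_lit 2758) (nat_lit 493858305440582043680)) (.cons (.br (nat_lit 10) (nat_lit 0) (.cons (.ev (nat_lit 284746023334673018567336967536646) (nat_lit 4)) .nil)) .nil))),
 (.br (nat_lit 10) (nat_lit 0) (.cons (.rf (nat_lit 2759) (nat_lit 493858305440582043680)) (.cons (.br (nat_lit 11) (nat_lit 0) (.cons (.ev (nat_lit 20282719088661492051594776215553) (nat_lit 1)) .nil)) .nil))),
 (.br (nat_lit 11) (nat_lit 0) (.cons (.kr (nat_lit 158456325028528675191382867968) (nat_lit 4740813508418331475968) (nat_lit 4) (nat_lit 0)) (.cons (.br (nat_lit 12) (nat_lit 0) (.cons (.ev (nat_lit 41677120426674195779893369897984) (nat_lit 4)) .nil)) .nil))),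
 (.br (nat_lit 10) (nat_lit 0) (.cons (.kr (nat_lit 158456325028528675191382867968) (nat_lit 4740813508418331475968) (nat_lit 4) (nat_lit 0)) (.cons (.br (nat_lit 12) (nat_lit 0) (.cons (.ev (nat_lit 20283032200467219267207812874241) (nat_lit 2)) .nil)) .nil))),
 (.br (nat_lit 12) (nat_lit 0) (.cons (.rf (nat_lit 2761) (nat_lit 493858305440582043680)) (.cons (.rf (nat_lit 2762) (nat_lit 493858305440582043680)) (.cons (.br (nat_lit 12) (nat_lit 0) (.cons (.rf (nat_lit 2761) (nat_lit 493858305440582043680)) (.cons (.rf (nat_lit 2762) (nat_lit 493858305440582043680)) .nil))) .nil))))]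

theorem c99 : chkAll C T R L99 (nat_lit 2739) = true := by decide +kernel

theorem l99 : (nat_lit 2739) + L99.length = (nat_lit 2764) := by decide +kernel

/-- part of the certificates -/
def L100 : List Prf := [(.br (nat_lit 3) (nat_lit 0) (.cons (.rf (nat_lit 2763) (nat_lit 493858305440582043680)) (.cons (.br (nat_lit 13) (nat_lit 0) (.cons (.br (nat_lit 12) (nat_lit 0) (.cons (.ev (nat_lit 284750356124847266771267047787528) (nat_lit 4)) .nil)) (.cons (.br (nat_lit 10) (nat_lit 0) (.cons (.ev (nat_lit 284750356124847266771267047787528) (nat_lit 4)) .nil)) .nil))) (.cons (.br (nat_lit 12) (nat_lit 0) (.cons (.br (nat_lit 12) (nat_lit 0) (.cons (.ev (nat_lit 41043285455153526405149835789320) (nat_lit 4)) .nil)) (.cons (.br (nat_lit 10) (nat_lit 0) (.cons (.ev (nat_lit 41043285455153526405149835789320) (nat_lit 4)) .nil)) .nil))) .nil)))),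
 (.br (nat_lit 10) (nat_lit 0) (.cons (.rf (nat_lit 2763) (nat_lit 493858305440582043680)) (.cons (.rf (nat_lit 2764) (nat_lit 493858305440582043680)) (.cons (.br (nat_lit 11) (nat_lit 0) (.cons (.br (nat_lit 12) (nat_lit 0) (.cons (.ev (nat_lit 41677120426674195779893369897984) (nat_lit 4)) .nil)) (.cons (.kr (nat_lit 158456325028528675191382867968) (nat_lit 4740813508418331475968) (nat_lit 4) (nat_lit 0)) (.cons (.br (nat_lit 3) (nat_lit 0) (.cons (.ev (nat_lit 79538856505462550018201223680) (nat_lit 2)) .nil)) .nil)))) .nil)))),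
 (.br (nat_lit 1) (nat_lit 0) (.cons (.rf (nat_lit 2669) (nat_lit 14242959524133701664)) (.cons (.br (nat_lit 10) (nat_lit 0) (.cons (.rf (nat_lit 2752) (nat_lit 15071358309468192)) (.cons (.ev (nat_lit 1208925891954801995939841) (nat_lit 1)) (.cons (.br (nat_lit 11) (nat_lit 0) (.cons (.rf (nat_lit 2453) (nat_lit 470842604685344)) (.cons (.kr (nat_lit 158456325028528675191382867968) (nat_lit 4740813508418331475968) (nat_lit 4) (nat_lit 0)) (.cons (.br (nat_lit 3) (nat_lit 0) (.cons (.ev (nat_lit 79538856449905298395250098176) (nat_lit 1)) (.cons (.br (nat_lit 12) (nat_lit 0) (.cons (.ev (nat_lit 20282409603670189508189503881216) (nat_lit 1)) .nil)) .nil))) .nil)))) (.cons (.br (nat_lit 12) (nat_lit 0) (.cons (.rf (nat_lit 2753) (nat_lit 493858305440582043680)) (.cons (.rf (nat_lit 2754) (nat_lit 493858305440582043680)) (.cons (.br (nat_lit 12) (nat_lit 0) (.cons (.ev (nat_lit 79229371458602754989977763841) (nat_lit 1)) (.cons (.rf (nat_lit 2754) (nat_lit 493858305440582043680)) .nil))) .nil))))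 .nil))))) (.cons (.br (nat_lit 10) (nat_lit 0) (.cons (.ev (nat_lit 309485009821626543718268929) (nat_lit 1)) (.cons (.rf (nat_lit 2755) (nat_lit 493858305440582043680)) (.cons (.br (nat_lit 10) (nat_lit 0) (.cons (.ev (nat_lit 309485009821626543718268929) (nat_lit 1)) (.cons (.rf (nat_lit 2755) (nat_lit 493858305440582043680)) .nil))) .nil)))) (.cons (.br (nat_lit 3) (nat_lit 0) (.cons (.br (nat_lit 13) (nat_lit 0) (.cons (.rf (nat_lit 2756) (nat_lit 493858305440582043680)) (.cons (.rf (nat_lit 2757) (nat_lit 493858305440582043680)) (.cons (.br (nat_lit 13) (nat_lit 0) (.cons (.ev (nat_lit 79229371458602754989977763841) (nat_lit 1)) (.cons (.rf (nat_lit 2757) (nat_lit 493858305440582043680)) .nil))) .nil)))) (.cons (.br (nat_lit 10) (nat_lit 0) (.cons (.ev (nat_lit 79537652246452447006907432961) (nat_lit 1)) (.cons (.br (nat_lit 10) (nat_lit 0) (.cons (.ev (nat_lit 79538856449905298395250098176) (nat_lit 1)) .nil)) .nil))) (.cons (.rf (nat_lit 2752) (nat_lit 15001056137283616)) (.cons (.br (nat_lit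 10) (nat_lit 0) (.cons (.rf (nat_lit 2759) (nat_lit 493858305440582043680)) (.cons (.rf (nat_lit 2760) (nat_lit 493858305440582043680)) (.cons (.br (nat_lit 10) (nat_lit 0) (.cons (.rf (nat_lit 2758) (nat_lit 493858305440582043680)) (.cons (.rf (nat_lit 2760) (nat_lit 493858305440582043680)) .nil))) .nil)))) .nil))))) (.cons (.br (nat_lit 10) (nat_lit 0) (.cons (.rf (nat_lit 2763) (nat_lit 493858305440582043680)) (.cons (.rf (nat_lit 2764) (nat_lit 493858305440582043680)) (.cons (.rf (nat_lit 2765) (nat_lit 493858305440582043680)) (.cons (.br (nat_lit 10) (nat_lit 0) (.cons (.rf (nat_lit 2763) (nat_lit 493858305440582043680)) (.cons (.rf (nat_lit 2764) (nat_lit 493858305440582043680)) (.cons (.rf (nat_lit 2765) (nat_lit 493858305440582043680)) .nil)))) .nil))))) .nil)))))),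
 (.br (nat_lit 8) (nat_lit 0) (.cons (.rf (nat_lit 2453) (nat_lit 325702573492256)) (.cons (.br (nat_lit 8) (nat_lit 0) (.cons (.rf (nat_lit 2453) (nat_lit 325702573492256)) .nil)) .nil))),
 (.br (nat_lit 9) (nat_lit 0) (.cons (.br (nat_lit 9) (nat_lit 0) .nil) .nil)),
 (.br (nat_lit 7) (nat_lit 0) (.cons (.kr (nat_lit 18446744073709551616) (nat_lit 79228162514264337593543950336) (nat_lit 8) (nat_lit 0)) (.cons (.br (nat_lit 12) (nat_lit 0) (.cons (.ev (nat_lit 20361638975110273459312694198273) (nat_lit 1)) .nil)) .nil))),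
 (.br (nat_lit 9) (nat_lit 0) (.cons (.br (nat_lit 9) (nat_lit 0) .nil) .nil)),
 (.br (nat_lit 7) (nat_lit 0) (.cons (.ev (nat_lit 79228167236702878061522124801) (nat_lit 1)) .nil)),
 (.br (nat_lit 13) (nat_lit 0) (.cons (.br (nat_lit 12) (nat_lit 0) (.cons (.br (nat_lit 11) (nat_lit 0) (.cons (.zr (nat_lit 81129638419347495208605383131136) (nat_lit 310693935713017304839160065) (nat_lit 5) (nat_lit 1)) .nil)) (.cons (.br (nat_lit 10) (nat_lit 0) (.cons (.zr (nat_lit 81129638419347495208605383131136) (nat_lit 310693935713017304839160065) (nat_lit 5) (nat_lit 1)) .nil)) .nil))) (.cons (.rf (nat_lit 2669) (nat_lit 14090929087143281057)) (.cons (.rf (nat_lit 2741) (nat_lit 14090929087143293953)) (.cons (.br (nat_lit 7) (nat_lit 0) (.cons (.br (nat_lit 11) (nat_lit 0) (.cons (.ev (nat_lit 79538856449905579865931841536) (nat_lit 1)) .nil)) (.cons (.ev (nat_lit 20282409603670189508189503881216) (nat_lit 1)) (.cons (.ev (nat_lit 18519083147036000256) (nat_lit 1)) .nil)))) .nil))))),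
 (.br (nat_lit 13) (nat_lit 0) (.cons (.rf (nat_lit 2772) (nat_lit 493858305440582043680)) (.cons (.ev (nat_lit 20282412021503454053175778279426) (nat_lit 2)) (.cons (.br (nat_lit 12) (nat_lit 0) (.cons (.ev (nat_lit 18519083147036000256) (nat_lit 1)) (.cons (.ev (nat_lit 20282720297605758127718860324864) (nat_lit 1)) .nil))) (.cons (.rf (nat_lit 2669) (nat_lit 5885226501296849997)) .nil))))),
 (.br (nat_lit 1) (nat_lit 0) (.cons (.rf (nat_lit 2669) (nat_lit 14242959524133701664)) (.cons (.rf (nat_lit 2766) (nat_lit 493858305440582043680)) (.cons (.br (nat_lit 3) (nat_lit 0) (.cons (.rf (nat_lit 2767) (nat_lit 470979911452704)) (.cons (.ev (nat_lit 309485009821626543718268929) (nat_lit 1)) (.cons (.br (nat_lit 7) (nat_lit 0) (.cons (.rf (nat_lit 2768) (nat_lit 470979911452704)) (.cons (.kr (nat_lit 4740813226947649732608) (nat_lit 158456325028528956662064611328) (nat_lit 4) (nat_lit 0)) (.cons (.ev (nat_lit 18519083147036000256) (nat_lit 1)) .nil)))) (.cons (.br (nat_lit 12) (nat_lit 0) (.cons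 (.ev (nat_lit 18519083147036000256) (nat_lit 1)) (.cons (.rf (nat_lit 2769) (nat_lit 493858305440582043680)) (.cons (.br (nat_lit 12) (nat_lit 0) (.cons (.ev (nat_lit 18519083147036000256) (nat_lit 1)) (.cons (.rf (nat_lit 2769) (nat_lit 493858305440582043680)) .nil))) .nil)))) .nil))))) (.cons (.br (nat_lit 3) (nat_lit 0) (.cons (.br (nat_lit 13) (nat_lit 0) (.cons (.br (nat_lit 13) (nat_lit 0) (.cons (.rf (nat_lit 2560) (nat_lit 1591012302946402722)) (.cons (.ev (nat_lit 79229376162522775265185103873) (nat_lit 1)) .nil))) (.cons (.br (nat_lit 13) (nat_lit 0) (.cons (.rf (nat_lit 2560) (nat_lit 1591012302946402722)) (.cons (.ev (nat_lit 79537647542532708210971770881) (nat_lit 1)) .nil))) (.cons (.br (nat_lit 13) (nat_lit 0) (.cons (.ev (nat_lit 79229376162522775265185103873) (nat_lit 1)) (.cons (.ev (nat_lit 79537647542532708210971770881) (nat_lit 1)) .nil))) .nil)))) (.cons (.zr (nat_lit 1213648186097507426631936) (nat_lit 36893771821419069440) (nat_lit 5) (nat_lit 3)) (.cons (.br (nat_lit 10)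 (nat_lit 0) (.cons (.rf (nat_lit 2770) (nat_lit 470979911452704)) (.cons (.ev (nat_lit 79537647542532426740290027521) (nat_lit 1)) (.cons (.br (nat_lit 7) (nat_lit 0) (.cons (.rf (nat_lit 2770) (nat_lit 468783035680800)) (.cons (.br (nat_lit 12) (nat_lit 0) (.cons (.zr (nat_lit 1856910059360415976576254976) (nat_lit 158458747620981412876687376384) (nat_lit 10) (nat_lit 2)) .nil)) .nil))) .nil)))) (.cons (.br (nat_lit 13) (nat_lit 0) (.cons (.ev (nat_lit 18519083147036000256) (nat_lit 1)) (.cons (.br (nat_lit 13) (nat_lit 0) (.cons (.ev (nat_lit 18519083147036000256) (nat_lit 1)) (.cons (.rf (nat_lit 2771) (nat_lit 15433070910038444064)) .nil))) (.cons (.br (nat_lit 13) (nat_lit 0) (.cons (.ev (nat_lit 18519083147036000256) (nat_lit 1)) (.cons (.rf (nat_lit 2771) (nat_lit 15433070910038444064)) .nil))) .nil)))) (.cons (.br (nat_lit 7) (nat_lit 0) (.cons (.br (nat_lit 11) (nat_lit 0) (.cons (.ev (nat_lit 79229371458603036469249441793) (nat_lit 1)) (.cons (.ev (nat_lit 1859332688419543943076905988)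 (nat_lit 3)) .nil))) (.cons (.br (nat_lit 13) (nat_lit 0) (.cons (.br (nat_lit 12) (nat_lit 0) (.cons (.ev (nat_lit 79537647542532708210971770881) (nat_lit 1)) .nil)) (.cons (.ev (nat_lit 79537647542532708210971770881) (nat_lit 1)) .nil))) (.cons (.ev (nat_lit 18519083147036000256) (nat_lit 1)) (.cons (.br (nat_lit 10) (nat_lit 0) (.cons (.br (nat_lit 12) (nat_lit 0) (.cons (.zr (nat_lit 928459752046690857933341184) (nat_lit 79229371476978003320108023808) (nat_lit 5) (nat_lit 2)) .nil)) (.cons (.br (nat_lit 11) (nat_lit 0) (.cons (.ev (nat_lit 476614173457496092388903485442) (nat_lit 3)) .nil)) (.cons (.br (nat_lit 11) (nat_lit 0) (.cons (.ev (nat_lit 20520715479121086154606184038400) (nat_lit 2)) .nil)) .nil)))) .nil))))) .nil)))))) (.cons (.br (nat_lit 13) (nat_lit 0) (.cons (.rf (nat_lit 2772) (nat_lit 493858305440582043680)) (.cons (.rf (nat_lit 2773) (nat_lit 493858305440582043680)) (.cons (.rf (nat_lit 2669) (nat_lit 14090929087143281057)) (.cons (.br (nat_lit 13) (nat_lit 0) (.cons (.rf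 (nat_lit 2741) (nat_lit 14090929087143293953)) (.cons (.rf (nat_lit 2773) (nat_lit 493858305440582043680)) (.cons (.rf (nat_lit 2669) (nat_lit 14090929087143281057)) (.cons (.rf (nat_lit 2669) (nat_lit 6132992408932418637)) .nil))))) (.cons (.br (nat_lit 13) (nat_lit 0) (.cons (.rf (nat_lit 2772) (nat_lit 493858305440582043680)) (.cons (.rf (nat_lit 2669) (nat_lit 5885226501296849997)) (.cons (.rf (nat_lit 2669) (nat_lit 14090929087143281057)) (.cons (.rf (nat_lit 2669) (nat_lit 6132992408932418637)) .nil))))) .nil)))))) .nil)))))),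
 (.br (nat_lit 3) (nat_lit 0) (.cons (.ev (nat_lit 1208925891673322724261889) (nat_lit 1)) (.cons (.br (nat_lit 13) (nat_lit 0) (.cons (.br (nat_lit 12) (nat_lit 0) (.cons (.ev (nat_lit 316915072723586427231808913410) (nat_lit 3)) .nil)) (.cons (.br (nat_lit 10) (nat_lit 0) (.cons (.ev (nat_lit 316915072723586427231808913410) (nat_lit 3)) .nil)) .nil))) (.cons (.br (nat_lit 12) (nat_lit 0) (.cons (.br (nat_lit 12) (nat_lit 0) (.cons (.ev (nat_lit 318157848465860905349234688002) (nat_lit 3)) .nil)) (.cons (.br (nat_lit 10) (nat_lit 0) (.cons (.ev (nat_lit 318157848465860905349234688002) (nat_lit 3)) .nil)) .nil))) .nil)))),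
 (.br (nat_lit 10) (nat_lit 0) (.cons (.ev (nat_lit 309485009821626543718268929) (nat_lit 1)) (.cons (.rf (nat_lit 2775) (nat_lit 493858305440582043680)) (.cons (.br (nat_lit 3) (nat_lit 0) (.cons (.ev (nat_lit 1245198335016578680220680194) (nat_lit 3)) (.cons (.ev (nat_lit 79538861190718806809286606848) (nat_lit 1)) (.cons (.ev (nat_lit 20282720302309677866514795986944) (nat_lit 1)) .nil)))) .nil)))),
 (.br (nat_lit 1) (nat_lit 0) (.cons (.rf (nat_lit 2669) (nat_lit 14242959524133701664)) (.cons (.rf (nat_lit 2766) (nat_lit 493858305440582043680)) (.cons (.rf (nat_lit 2774) (nat_lit 493858305440582043680)) (.cons (.br (nat_lit 3) (nat_lit 0) (.cons (.rf (nat_lit 2767) (nat_lit 468783035680800)) (.cons (.ev (nat_lit 309485009821626543718268929) (nat_lit 1)) (.cons (.rf (nat_lit 2752) (nat_lit 14996658224990240)) (.cons (.br (nat_lit 7) (nat_lit 0) (.cons (.br (nat_lit 13) (nat_lit 0) (.cons (.br (nat_lit 12) (nat_lit 0) (.cons (.ev (nat_lit 317538878483545174814748836868) (nat_lit 3)) .nil)) (.cons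 (.br (nat_lit 10) (nat_lit 0) (.cons (.ev (nat_lit 317538878483545174814748836868) (nat_lit 3)) .nil)) .nil))) (.cons (.ev (nat_lit 18519083147036000256) (nat_lit 1)) (.cons (.br (nat_lit 10) (nat_lit 0) (.cons (.br (nat_lit 10) (nat_lit 0) (.cons (.ev (nat_lit 20361948460101576002717966401536) (nat_lit 1)) .nil)) (.cons (.br (nat_lit 10) (nat_lit 0) (.cons (.ev (nat_lit 20361948460101576002717966401536) (nat_lit 1)) .nil)) .nil))) .nil)))) .nil))))) (.cons (.br (nat_lit 10) (nat_lit 0) (.cons (.ev (nat_lit 309485009821626543718268929) (nat_lit 1)) (.cons (.rf (nat_lit 2775) (nat_lit 493858305440582043680)) (.cons (.rf (nat_lit 2776) (nat_lit 493858305440582043680)) (.cons (.br (nat_lit 10) (nat_lit 0) (.cons (.ev (nat_lit 309485009821626543718268929) (nat_lit 1)) (.cons (.rf (nat_lit 2775) (nat_lit 493858305440582043680)) (.cons (.rf (nat_lit 2776) (nat_lit 493858305440582043680)) .nil)))) .nil))))) .nil)))))),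
 (.br (nat_lit 7) (nat_lit 0) (.cons (.ev (nat_lit 1208925891673322724261889) (nat_lit 1)) (.cons (.br (nat_lit 10) (nat_lit 0) (.cons (.ev (nat_lit 79537647542532708210971770881) (nat_lit 1)) (.cons (.br (nat_lit 12) (nat_lit 0) (.cons (.ev (nat_lit 20283029782652472960939349639171) (nat_lit 2)) .nil)) .nil))) (.cons (.br (nat_lit 10) (nat_lit 0) (.cons (.ev (nat_lit 79537647542532708210971770881) (nat_lit 1)) (.cons (.br (nat_lit 11) (nat_lit 0) (.cons (.ev (nat_lit 40644978242698780507559493304835) (nat_lit 2)) .nil)) .nil))) (.cons (.br (nat_lit 12) (nat_lit 0) (.cons (.br (nat_lit 11) (nat_lit 0) (.cons (.ev (nat_lit 79538856449905298395250098176) (nat_lit 1)) .nil)) (.cons (.br (nat_lit 10) (nat_lit 0) (.cons (.ev (nat_lit 20440868346568876779451648770050) (nat_lit 2)) .nil)) (.cons (.ev (nat_lit 20282409603670189226718822137856) (nat_lit 1)) .nil)))) .nil))))),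
 (.br (nat_lit 3) (nat_lit 0) (.cons (.ev (nat_lit 1208925891673322724261889) (nat_lit 1)) (.cons (.br (nat_lit 10) (nat_lit 0) (.cons (.ev (nat_lit 79537652246452447006907432961) (nat_lit 1)) (.cons (.br (nat_lit 12) (nat_lit 0) (.cons (.ev (nat_lit 40723894507203438533855831655430) (nat_lit 3)) .nil)) .nil))) (.cons (.br (nat_lit 13) (nat_lit 0) (.cons (.br (nat_lit 11) (nat_lit 0) (.cons (.zr (nat_lit 158456325065422163343097135104) (nat_lit 310703380445983031244620033) (nat_lit 5) (nat_lit 7)) .nil)) (.cons (.br (nat_lit 10) (nat_lit 0) (.cons (.zr (nat_lit 158456325065422163343097135104) (nat_lit 310703380445983031244620033) (nat_lit 5) (nat_lit 7)) .nil)) .nil))) (.cons (.br (nat_lit 11) (nat_lit 0) (.cons (.br (nat_lit 12) (nat_lit 0) (.cons (.ev (nat_lit 80157826488067355358064148994) (nat_lit 2)) .nil)) (.cons (.rf (nat_lit 2736) (nat_lit 493823368458609461280)) (.cons (.br (nat_lit 10) (nat_lit 0) (.cons (.ev (nat_lit 318157848465860905349234688002) (nat_lit 3)) .nil)) .nil)))) .nil))))),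
 (.br (nat_lit 10) (nat_lit 0) (.cons (.rf (nat_lit 2778) (nat_lit 493858305440582043680)) (.cons (.rf (nat_lit 2779) (nat_lit 493858305440582043680)) (.cons (.br (nat_lit 3) (nat_lit 0) (.cons (.ev (nat_lit 79537647542532708210971770881) (nat_lit 1)) (.cons (.br (nat_lit 7) (nat_lit 0) (.cons (.zr (nat_lit 158456334473262203876331945984) (nat_lit 310693972606505439373295873) (nat_lit 5) (nat_lit 11)) .nil)) .nil))) (.cons (.br (nat_lit 13) (nat_lit 0) (.cons (.rf (nat_lit 2758) (nat_lit 493858305440582043680)) (.cons (.ev (nat_lit 1208925891954801995939841) (nat_lit 1)) (.cons (.br (nat_lit 3) (nat_lit 0) (.cons (.ev (nat_lit 40723894507203439659772918367238) (nat_lit 3)) .nil)) .nil)))) .nil))))),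
 (.br (nat_lit 10) (nat_lit 0) (.cons (.rf (nat_lit 2778) (nat_lit 493858305440582043680)) (.cons (.rf (nat_lit 2779) (nat_lit 493858305440582043680)) (.cons (.rf (nat_lit 2780) (nat_lit 493858305440582043680)) (.cons (.br (nat_lit 11) (nat_lit 0) (.cons (.ev (nat_lit 79538856449905298395250098176) (nat_lit 1)) (.cons (.br (nat_lit 3) (nat_lit 0) (.cons (.ev (nat_lit 20361948460101576002717966401536) (nat_lit 1)) .nil)) (.cons (.kr (nat_lit 316912650057057631853447610368) (nat_lit 40564819212081047565184299696128) (nat_lit 2) (nat_lit 0)) .nil)))) .nil))))),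
 (.br (nat_lit 1) (nat_lit 0) (.cons (.rf (nat_lit 2669) (nat_lit 14242959524133701664)) (.cons (.rf (nat_lit 2766) (nat_lit 493858305440582043680)) (.cons (.rf (nat_lit 2774) (nat_lit 493858305440582043680)) (.cons (.rf (nat_lit 2777) (nat_lit 493858305440582043680)) (.cons (.br (nat_lit 10) (nat_lit 0) (.cons (.rf (nat_lit 2778) (nat_lit 493858305440582043680)) (.cons (.rf (nat_lit 2779) (nat_lit 493858305440582043680)) (.cons (.rf (nat_lit 2780) (nat_lit 493858305440582043680)) (.cons (.rf (nat_lit 2781) (nat_lit 493858305440582043680)) (.cons (.br (nat_lit 10) (nat_lit 0) (.cons (.rf (nat_lit 2778) (nat_lit 493858305440582043680)) (.cons (.rf (nat_lit 2779) (nat_lit 493858305440582043680)) (.cons (.rf (nat_lit 2780) (nat_lit 493858305440582043680)) (.cons (.rf (nat_lit 2781) (nat_lit 493858305440582043680)) .nil))))) .nil)))))) .nil)))))),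
 (.br (nat_lit 2) (nat_lit 0) (.cons (.rf (nat_lit 2161) (nat_lit 14242959524133701664)) (.cons (.rf (nat_lit 2669) (nat_lit 14242959524133700672)) (.cons (.rf (nat_lit 2741) (nat_lit 14242959524133701664)) (.cons (.br (nat_lit 1) (nat_lit 0) (.cons (.rf (nat_lit 2669) (nat_lit 14242959524133701664)) (.cons (.rf (nat_lit 2745) (nat_lit 14242959524133701664)) (.cons (.rf (nat_lit 2748) (nat_lit 14242959524133701664)) (.cons (.rf (nat_lit 2749) (nat_lit 14242959524133701664)) (.cons (.rf (nat_lit 2750) (nat_lit 14242959524133701664)) (.cons (.br (nat_lit 1) (nat_lit 0) (.cons (.rf (nat_lit 2669) (nat_lit 14242959524133701664)) (.cons (.rf (nat_lit 2745) (nat_lit 14242959524133701664)) (.cons (.rf (nat_lit 2748) (nat_lit 14242959524133701664)) (.cons (.rf (nat_lit 2749) (nat_lit 14242959524133701664)) (.cons (.rf (nat_lit 2750) (nat_lit 14242959524133701664)) .nil)))))) .nil))))))) (.cons (.br (nat_lit 1) (nat_lit 0) (.cons (.rf (nat_lit 2669) (nat_lit 14242959524133701664)) (.cons (.rf (nat_lit 2766)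 (nat_lit 493858305440582043680)) (.cons (.rf (nat_lit 2774) (nat_lit 493858305440582043680)) (.cons (.rf (nat_lit 2777) (nat_lit 493858305440582043680)) (.cons (.rf (nat_lit 2782) (nat_lit 493858305440582043680)) (.cons (.br (nat_lit 1) (nat_lit 0) (.cons (.rf (nat_lit 2669) (nat_lit 14242959524133701664)) (.cons (.rf (nat_lit 2766) (nat_lit 493858305440582043680)) (.cons (.rf (nat_lit 2774) (nat_lit 493858305440582043680)) (.cons (.rf (nat_lit 2777) (nat_lit 493858305440582043680)) (.cons (.rf (nat_lit 2782) (nat_lit 493858305440582043680)) .nil)))))) .nil))))))) .nil))))))]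

theorem c100 : chkAll C T R L100 (nat_lit 2764) = true := by decide +kernel

theorem l100 : (nat_lit 2764) + L100.length = (nat_lit 2784) := by decide +kernel

/-- part of the certificates -/
def L101 : List Prf := [(.br (nat_lit 7) (nat_lit 0) (.cons (.br (nat_lit 13) (nat_lit 0) (.cons (.rf (nat_lit 2783) (nat_lit 14208022404722308097)) (.cons (.rf (nat_lit 2741) (nat_lit 14208022404722308097)) (.cons (.ev (nat_lit 20440865928680343215434845192706) (nat_lit 2)) .nil)))) (.cons (.br (nat_lit 1) (nat_lit 0) (.cons (.br (nat_lit 13) (nat_lit 0) (.cons (.rf (nat_lit 2741) (nat_lit 14090929087143293953)) (.cons (.ev (nat_lit 79228162514336395187598721281) (nat_lit 1)) .nil))) (.cons (.br (nat_lit 13) (nat_lit 0) (.cons (.rf (nat_lit 2783) (nat_lit 13951351549195564033)) (.cons (.rf (nat_lit 2669) (nat_lit 13951351549195551137)) (.cons (.br (nat_lit 10) (nat_lit 0) (.cons (.ev (nat_lit 20283339267643919901011969377025) (nat_lit 2)) .nil)) .nil)))) (.cons (.br (nat_lit 10) (nat_lit 0) (.cons (.br (nat_lit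 11) (nat_lit 0) (.cons (.ev (nat_lit 81129640837199422666053846958082) (nat_lit 3)) .nil)) (.cons (.zr (nat_lit 316915067908697987020327224838) (nat_lit 121694457645540301713100559876096) (nat_lit 10) (nat_lit 5)) .nil))) .nil)))) (.cons (.ev (nat_lit 18519083147036000256) (nat_lit 1)) (.cons (.br (nat_lit 13) (nat_lit 0) (.cons (.br (nat_lit 1) (nat_lit 0) (.cons (.rf (nat_lit 2669) (nat_lit 14090929087143281057)) (.cons (.rf (nat_lit 2783) (nat_lit 13951351549195564033)) .nil))) (.cons (.ev (nat_lit 20282409608374108965514757799936) (nat_lit 1)) .nil))) (.cons (.rf (nat_lit 2669) (nat_lit 5885226501296849314)) .nil)))))),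
 (.br (nat_lit 13) (nat_lit 0) (.cons (.rf (nat_lit 2784) (nat_lit 493858305440582043680)) (.cons (.rf (nat_lit 2669) (nat_lit 5885226501296849314)) (.cons (.br (nat_lit 1) (nat_lit 0) (.cons (.rf (nat_lit 2669) (nat_lit 14242959524133701664)) (.cons (.br (nat_lit 11) (nat_lit 0) (.cons (.br (nat_lit 10) (nat_lit 0) (.cons (.ev (nat_lit 40566064405638359117623606641670) (nat_lit 3)) .nil)) (.cons (.br (nat_lit 3) (nat_lit 0) (.cons (.ev (nat_lit 121695702820245040809031745405958) (nat_lit 3)) .nil)) (.cons (.kr (nat_lit 309485009893684137739419649) (nat_lit 20361637766165934762644601831424) (nat_lit 0) (nat_lit 1)) .nil)))) (.cons (.rf (nat_lit 2669) (nat_lit 14090929087143281057)) (.cons (.rf (nat_lit 2669) (nat_lit 13951351549195551137)) (.cons (.br (nat_lit 3) (nat_lit 0) (.cons (.br (nat_lit 10) (nat_lit 0) (.cons (.zr (nat_lit 81129638419347494926039484727296) (nat_lit 618970019787649750455615745) (nat_lit 5) (nat_lit 1)) .nil)) (.cons (.br (nat_lit 7) (nat_lit 0) (.cons (.ev (nat_lit 81132116717499066688053438973954)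 (nat_lit 4)) .nil)) (.cons (.br (nat_lit 7) (nat_lit 0) (.cons (.zr (nat_lit 81129638419347494926039484727296) (nat_lit 618970019787649750455615745) (nat_lit 5) (nat_lit 1)) .nil)) .nil)))) .nil)))))) (.cons (.br (nat_lit 1) (nat_lit 0) (.cons (.rf (nat_lit 2669) (nat_lit 14242959524133701664)) (.cons (.br (nat_lit 3) (nat_lit 0) (.cons (.ev (nat_lit 20520096509064693528559437939459) (nat_lit 2)) (.cons (.br (nat_lit 10) (nat_lit 0) (.cons (.ev (nat_lit 79541274320208288930074853890) (nat_lit 2)) .nil)) .nil))) (.cons (.rf (nat_lit 2669) (nat_lit 14090929087143281057)) (.cons (.br (nat_lit 3) (nat_lit 0) (.cons (.ev (nat_lit 79228162532856041284588142851) (nat_lit 2)) (.cons (.br (nat_lit 7) (nat_lit 0) (.cons (.ev (nat_lit 79228162532855478343224656131) (nat_lit 2)) .nil)) (.cons (.ev (nat_lit 79847132589247541431427400451) (nat_lit 2)) .nil)))) .nil))))) .nil))))),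
 (.br (nat_lit 13) (nat_lit 0) (.cons (.rf (nat_lit 2784) (nat_lit 493858305440582043680)) (.cons (.rf (nat_lit 2669) (nat_lit 5885226501296849314)) (.cons (.rf (nat_lit 2785) (nat_lit 493858305440582043680)) (.cons (.br (nat_lit 1) (nat_lit 0) (.cons (.rf (nat_lit 2669) (nat_lit 14242959524133701664)) (.cons (.br (nat_lit 10) (nat_lit 0) (.cons (.br (nat_lit 10) (nat_lit 0) (.cons (.ev (nat_lit 284116535660510218626814712086536) (nat_lit 4)) .nil)) (.cons (.br (nat_lit 3) (nat_lit 0) (.cons (.ev (nat_lit 284116535660510218626814712086536) (nat_lit 4)) .nil)) .nil))) (.cons (.br (nat_lit 3) (nat_lit 0) (.cons (.br (nat_lit 10) (nat_lit 0) (.cons (.zr (nat_lit 6063518564851248492380417) (nat_lit 182542614888005394487985871781888) (nat_lit 20) (nat_lit 0)) .nil)) (.cons (.br (nat_lit 7) (nat_lit 0) (.cons (.ev (nat_lit 1117248143751514817214530193432) (nat_lit 5)) .nil)) (.cons (.br (nat_lit 7) (nat_lit 0) (.cons (.zr (nat_lit 6063518564851248492380417) (nat_lit 182542614888005394487985871781888)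 (nat_lit 20) (nat_lit 0)) .nil)) .nil)))) (.cons (.rf (nat_lit 2283) (nat_lit 2427695633917116833)) .nil))))) .nil))))),
 (.br (nat_lit 13) (nat_lit 0) (.cons (.rf (nat_lit 2784) (nat_lit 493858305440582043680)) (.cons (.rf (nat_lit 2669) (nat_lit 5885226501296849314)) (.cons (.rf (nat_lit 2785) (nat_lit 493858305440582043680)) (.cons (.rf (nat_lit 2786) (nat_lit 493858305440582043680)) (.cons (.br (nat_lit 13) (nat_lit 0) (.cons (.rf (nat_lit 2784) (nat_lit 493858305440582043680)) (.cons (.rf (nat_lit 2669) (nat_lit 5885226501296849314)) (.cons (.rf (nat_lit 2785) (nat_lit 493858305440582043680)) (.cons (.rf (nat_lit 2786) (nat_lit 493858305440582043680)) .nil))))) .nil)))))),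
 (.br (nat_lit 10) (nat_lit 0) (.cons (.ev (nat_lit 79229371440083953322247127296) (nat_lit 1)) .nil)),
 (.br (nat_lit 13) (nat_lit 0) (.cons (.rf (nat_lit 2787) (nat_lit 493858305440582043680)) (.cons (.rf (nat_lit 2669) (nat_lit 5885226501296849314)) (.cons (.br (nat_lit 7) (nat_lit 0) (.cons (.br (nat_lit 1) (nat_lit 0) (.cons (.rf (nat_lit 2788) (nat_lit 15433072009550071840)) (.cons (.ev (nat_lit 309485009821345073036525824) (nat_lit 1)) (.cons (.rf (nat_lit 2395) (nat_lit 15361081488875620384)) .nil)))) (.cons (.br (nat_lit 11) (nat_lit 0) (.cons (.br (nat_lit 1) (nat_lit 0) (.cons (.ev (nat_lit 20361637770906820328652693045505) (nat_lit 1)) .nil)) (.cons (.kr (nat_lit 618974742153569670147342338) (nat_lit 40723275532350316269358618247168) (nat_lit 0) (nat_lit 1)) .nil))) (.cons (.ev (nat_lit 18519083147036000256) (nat_lit 1)) (.cons (.br (nat_lit 11) (nat_lit 0) (.cons (.ev (nat_lit 79537652246452165536225689601) (nat_lit 1)) (.cons (.kr (nat_lit 309485009893402662762708993) (nat_lit 20361637766165934762640306864128)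 (nat_lit 0) (nat_lit 1)) .nil))) .nil))))) (.cons (.br (nat_lit 7) (nat_lit 0) (.cons (.br (nat_lit 1) (nat_lit 0) (.cons (.rf (nat_lit 2400) (nat_lit 15360905738813868064)) (.cons (.br (nat_lit 10) (nat_lit 0) (.cons (.ev (nat_lit 20441795592635555650993001660675) (nat_lit 2)) .nil)) .nil))) (.cons (.rf (nat_lit 2751) (nat_lit 47461649580450)) (.cons (.ev (nat_lit 18519083147036000256) (nat_lit 1)) .nil)))) .nil))))),
 (.br (nat_lit 13) (nat_lit 0) (.cons (.rf (nat_lit 2787) (nat_lit 493858305440582043680)) (.cons (.rf (nat_lit 2669) (nat_lit 5885226501296849314)) (.cons (.rf (nat_lit 2789) (nat_lit 493858305440582043680)) (.cons (.br (nat_lit 7) (nat_lit 0) (.cons (.ev (nat_lit 20282409608374108965514757799936) (nat_lit 1)) (.cons (.br (nat_lit 1) (nat_lit 0) (.cons (.br (nat_lit 1) (nat_lit 0) (.cons (.ev (nat_lit 20283339267643919901011969377025) (nat_lit 2)) .nil)) (.cons (.br (nat_lit 1) (nat_lit 0) (.cons (.ev (nat_lit 20283339267643919901011969377025) (nat_lit 2)) .nil)) .nil))) (.cons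 (.ev (nat_lit 18519083147036000256) (nat_lit 1)) .nil)))) .nil))))),
 (.br (nat_lit 13) (nat_lit 0) (.cons (.rf (nat_lit 2787) (nat_lit 493858305440582043680)) (.cons (.rf (nat_lit 2669) (nat_lit 5885226501296849314)) (.cons (.rf (nat_lit 2789) (nat_lit 493858305440582043680)) (.cons (.rf (nat_lit 2790) (nat_lit 493858305440582043680)) (.cons (.br (nat_lit 13) (nat_lit 0) (.cons (.rf (nat_lit 2787) (nat_lit 493858305440582043680)) (.cons (.rf (nat_lit 2669) (nat_lit 5885226501296849314)) (.cons (.rf (nat_lit 2789) (nat_lit 493858305440582043680)) (.cons (.rf (nat_lit 2790) (nat_lit 493858305440582043680)) .nil))))) .nil)))))),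
 (.br (nat_lit 1) (nat_lit 0) (.cons (.rf (nat_lit 2669) (nat_lit 14242959524133701664)) (.cons (.br (nat_lit 3) (nat_lit 0) (.cons (.ev (nat_lit 20441179040467695744551013647105) (nat_lit 2)) .nil)) (.cons (.br (nat_lit 3) (nat_lit 0) (.cons (.ev (nat_lit 20441795592635555650993001660675) (nat_lit 2)) .nil)) .nil)))),
 (.br (nat_lit 13) (nat_lit 0) (.cons (.rf (nat_lit 2787) (nat_lit 493858305440582043680)) (.cons (.rf (nat_lit 2791) (nat_lit 493858305440582043680)) (.cons (.rf (nat_lit 2669) (nat_lit 5885226501296849314)) (.cons (.br (nat_lit 1) (nat_lit 0) (.cons (.rf (nat_lit 2669) (nat_lit 14242959524133701664)) (.cons (.rf (nat_lit 2792) (nat_lit 493858305440582043680)) (.cons (.br (nat_lit 1) (nat_lit 0) (.cons (.rf (nat_lit 2669) (nat_lit 14242959524133701664)) (.cons (.rf (nat_lit 2792) (nat_lit 493858305440582043680)) (.cons (.ev (nat_lit 20361948460101575721238694723584) (nat_lit 1)) .nil)))) (.cons (.br (nat_lit 1) (nat_lit 0) (.cons (.ev (nat_lit 20361947251194202851782758039553) (nat_lit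 1)) (.cons (.rf (nat_lit 2792) (nat_lit 493858305440582043680)) (.cons (.ev (nat_lit 20361948460101575721238694723584) (nat_lit 1)) .nil)))) .nil))))) .nil))))),
 (.br (nat_lit 13) (nat_lit 0) (.cons (.rf (nat_lit 2787) (nat_lit 493858305440582043680)) (.cons (.rf (nat_lit 2791) (nat_lit 493858305440582043680)) (.cons (.rf (nat_lit 2669) (nat_lit 5885226501296849314)) (.cons (.rf (nat_lit 2793) (nat_lit 493858305440582043680)) (.cons (.br (nat_lit 13) (nat_lit 0) (.cons (.rf (nat_lit 2787) (nat_lit 493858305440582043680)) (.cons (.rf (nat_lit 2791) (nat_lit 493858305440582043680)) (.cons (.rf (nat_lit 2669) (nat_lit 5885226501296849314)) (.cons (.rf (nat_lit 2793) (nat_lit 493858305440582043680)) .nil))))) .nil)))))),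
 (.br (nat_lit 13) (nat_lit 0) (.cons (.rf (nat_lit 2787) (nat_lit 493858305440582043680)) (.cons (.rf (nat_lit 2791) (nat_lit 493858305440582043680)) (.cons (.rf (nat_lit 2669) (nat_lit 5885226501296849314)) (.cons (.rf (nat_lit 2794) (nat_lit 493858305440582043680)) (.cons (.br (nat_lit 13) (nat_lit 0) (.cons (.rf (nat_lit 2787) (nat_lit 493858305440582043680)) (.cons (.rf (nat_lit 2791) (nat_lit 493858305440582043680)) (.cons (.rf (nat_lit 2669) (nat_lit 5885226501296849314)) (.cons (.rf (nat_lit 2794) (nat_lit 493858305440582043680)) .nil))))) .nil)))))),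
 (.br (nat_lit 2) (nat_lit 0) (.cons (.rf (nat_lit 2161) (nat_lit 14242959524133701664)) (.cons (.rf (nat_lit 2669) (nat_lit 14242959524133700672)) (.cons (.rf (nat_lit 2741) (nat_lit 14242959524133701664)) (.cons (.rf (nat_lit 2783) (nat_lit 14242959524133701664)) (.cons (.br (nat_lit 13) (nat_lit 0) (.cons (.rf (nat_lit 2787) (nat_lit 493858305440582043680)) (.cons (.rf (nat_lit 2791) (nat_lit 493858305440582043680)) (.cons (.rf (nat_lit 2669) (nat_lit 5885226501296849314)) (.cons (.rf (nat_lit 2794) (nat_lit 493858305440582043680)) (.cons (.rf (nat_lit 2795) (nat_lit 493858305440582043680)) (.cons (.br (nat_lit 13) (nat_lit 0) (.cons (.rf (nat_lit 2787) (nat_lit 493858305440582043680)) (.cons (.rf (nat_lit 2791) (nat_lit 493858305440582043680)) (.cons (.rf (nat_lit 2669) (nat_lit 5885226501296849314)) (.cons (.rf (nat_lit 2794) (nat_lit 493858305440582043680)) (.cons (.rf (nat_lit 2795) (nat_lit 493858305440582043680)) .nil)))))) .nil))))))) .nil)))))),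
 (.br (nat_lit 2) (nat_lit 0) (.cons (.rf (nat_lit 2161) (nat_lit 14242959524133701664)) (.cons (.rf (nat_lit 2669) (nat_lit 14242959524133700672)) (.cons (.rf (nat_lit 2741) (nat_lit 14242959524133701664)) (.cons (.rf (nat_lit 2783) (nat_lit 14242959524133701664)) (.cons (.rf (nat_lit 2796) (nat_lit 14242959524133701664)) (.cons (.br (nat_lit 2) (nat_lit 0) (.cons (.rf (nat_lit 1943) (nat_lit 427010)) (.cons (.rf (nat_lit 2669) (nat_lit 14242959524133700672)) (.cons (.rf (nat_lit 2741) (nat_lit 14242959524133701664)) (.cons (.rf (nat_lit 2783) (nat_lit 14242959524133701664)) (.cons (.rf (nat_lit 2796) (nat_lit 14242959524133701664)) .nil)))))) .nil))))))),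
 (.br (nat_lit 13) (nat_lit 0) (.cons (.rf (nat_lit 2797) (nat_lit 14208022404722308097)) (.cons (.rf (nat_lit 2669) (nat_lit 14208022404722295201)) (.cons (.br (nat_lit 13) (nat_lit 0) (.cons (.rf (nat_lit 2797) (nat_lit 14208022404722308097)) (.cons (.rf (nat_lit 2669) (nat_lit 14208022404722295201)) (.cons (.ev (nat_lit 121854156727421930257159473725440) (nat_lit 3)) .nil)))) (.cons (.br (nat_lit 13) (nat_lit 0) (.cons (.rf (nat_lit 2797) (nat_lit 14208022404722308097)) (.cons (.ev (nat_lit 121694462462465084333557352104450) (nat_lit 3)) (.cons (.ev (nat_lit 121854156727421930257159473725440) (nat_lit 3)) .nil)))) .nil))))),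
 (.br (nat_lit 13) (nat_lit 0) (.cons (.rf (nat_lit 2797) (nat_lit 14208022404722308097)) (.cons (.rf (nat_lit 2669) (nat_lit 14208022404722295201)) (.cons (.rf (nat_lit 2798) (nat_lit 493858305440582043680)) (.cons (.br (nat_lit 13) (nat_lit 0) (.cons (.rf (nat_lit 2797) (nat_lit 14208022404722308097)) (.cons (.rf (nat_lit 2669) (nat_lit 14208022404722295201)) (.cons (.ev (nat_lit 121854156727421930257159473725440) (nat_lit 3)) .nil)))) .nil))))),
 (.br (nat_lit 1) (nat_lit 0) (.cons (.rf (nat_lit 2669) (nat_lit 14242959524133701664)) (.cons (.br (nat_lit 3) (nat_lit 0) (.cons (.rf (nat_lit 2742) (nat_lit 14239581925347002400)) (.cons (.br (nat_lit 7) (nat_lit 0) (.cons (.ev (nat_lit 79538861190718806809286606848) (nat_lit 1)) (.cons (.rf (nat_lit 2367) (nat_lit 470842604685344)) .nil))) (.cons (.kr (nat_lit 18446744073709551617) (nat_lit 79228162514264337593543950592) (nat_lit 0) (nat_lit 2)) (.cons (.br (nat_lit 7) (nat_lit 0) (.cons (.ev (nat_lit 1213666704900266079027201) (nat_lit 1)) (.cons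 (.rf (nat_lit 2341) (nat_lit 465484599429152)) (.cons (.br (nat_lit 11) (nat_lit 0) (.cons (.rf (nat_lit 2313) (nat_lit 465516845238304)) (.cons (.br (nat_lit 12) (nat_lit 0) (.cons (.ev (nat_lit 20441179040467695744551013647105) (nat_lit 2)) .nil)) .nil))) .nil)))) .nil))))) (.cons (.br (nat_lit 3) (nat_lit 0) (.cons (.br (nat_lit 10) (nat_lit 0) (.cons (.ev (nat_lit 79537647542532426740290027776) (nat_lit 1)) (.cons (.rf (nat_lit 2314) (nat_lit 465517885425696)) .nil))) (.cons (.ev (nat_lit 310693954087986346097443073) (nat_lit 1)) (.cons (.br (nat_lit 7) (nat_lit 0) (.cons (.ev (nat_lit 79538861190718806809286606848) (nat_lit 1)) (.cons (.rf (nat_lit 2367) (nat_lit 468644688726048)) .nil))) (.cons (.br (nat_lit 7) (nat_lit 0) (.cons (.rf (nat_lit 2341) (nat_lit 465516845238304)) (.cons (.rf (nat_lit 2341) (nat_lit 465450273245216)) (.cons (.br (nat_lit 10) (nat_lit 0) (.cons (.rf (nat_lit 2313) (nat_lit 465517885425696)) (.cons (.br (nat_lit 12) (nat_lit 0) (.cons (.ev (nat_lit 20441795592635555088051638174465)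 (nat_lit 2)) .nil)) .nil))) .nil)))) .nil))))) (.cons (.br (nat_lit 10) (nat_lit 0) (.cons (.zr (nat_lit 79231794014089945825740326144) (nat_lit 92233724766594400258) (nat_lit 5) (nat_lit 3)) (.cons (.br (nat_lit 3) (nat_lit 0) (.cons (.ev (nat_lit 79538861190718806809286606848) (nat_lit 1)) (.cons (.rf (nat_lit 2341) (nat_lit 465482519054368)) .nil))) (.cons (.ev (nat_lit 79538856449905579865931841536) (nat_lit 1)) (.cons (.br (nat_lit 3) (nat_lit 0) (.cons (.rf (nat_lit 2314) (nat_lit 465484599429152)) (.cons (.rf (nat_lit 2312) (nat_lit 465450273245216)) (.cons (.br (nat_lit 7) (nat_lit 0) (.cons (.zr (nat_lit 309485028340146740767228160) (nat_lit 79228167236631103037677502464) (nat_lit 5) (nat_lit 7)) (.cons (.ev (nat_lit 79228162514336676666870398976) (nat_lit 1)) .nil))) .nil)))) .nil))))) (.cons (.br (nat_lit 13) (nat_lit 0) (.cons (.rf (nat_lit 2797) (nat_lit 14208022404722308097)) (.cons (.rf (nat_lit 2669) (nat_lit 14208022404722295201)) (.cons (.rf (nat_lit 2798) (nat_lit 493858305440582043680))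 (.cons (.rf (nat_lit 2799) (nat_lit 493858305440582043680)) (.cons (.br (nat_lit 13) (nat_lit 0) (.cons (.rf (nat_lit 2797) (nat_lit 14208022404722308097)) (.cons (.rf (nat_lit 2669) (nat_lit 14208022404722295201)) (.cons (.rf (nat_lit 2798) (nat_lit 493858305440582043680)) (.cons (.rf (nat_lit 2799) (nat_lit 493858305440582043680)) .nil))))) .nil)))))) .nil)))))),
 (.br (nat_lit 1) (nat_lit 0) (.cons (.rf (nat_lit 2669) (nat_lit 14242959524133701664)) (.cons (.rf (nat_lit 2800) (nat_lit 14242959524133701664)) (.cons (.br (nat_lit 3) (nat_lit 0) (.cons (.br (nat_lit 12) (nat_lit 0) (.cons (.ev (nat_lit 79537647542532426740290027776) (nat_lit 1)) (.cons (.rf (nat_lit 2317) (nat_lit 465482519054368)) .nil))) (.cons (.kr (nat_lit 4740813508418331475970) (nat_lit 158456325028528675191382868480) (nat_lit 0) (nat_lit 2)) (.cons (.rf (nat_lit 2671) (nat_lit 14895500974196768)) .nil)))) (.cons (.br (nat_lit 3) (nat_lit 0) (.cons (.br (nat_lit 11) (nat_lit 0) (.cons (.ev (nat_lit 80156617580694200016185786881)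 (nat_lit 2)) (.cons (.rf (nat_lit 2317) (nat_lit 465516845238304)) .nil))) (.cons (.ev (nat_lit 79848341496620133814762668545) (nat_lit 2)) (.cons (.rf (nat_lit 2671) (nat_lit 14896566126086176)) .nil)))) (.cons (.br (nat_lit 11) (nat_lit 0) (.cons (.rf (nat_lit 2330) (nat_lit 14894367167907872)) (.cons (.br (nat_lit 3) (nat_lit 0) (.cons (.rf (nat_lit 2343) (nat_lit 465517885425696)) (.cons (.ev (nat_lit 79538861190718806809286606848) (nat_lit 1)) (.cons (.br (nat_lit 13) (nat_lit 0) (.cons (.br (nat_lit 12) (nat_lit 0) (.cons (.ev (nat_lit 160315657680054168041382217218) (nat_lit 3)) .nil)) (.cons (.br (nat_lit 7) (nat_lit 0) (.cons (.ev (nat_lit 160315657680054168041382217218) (nat_lit 3)) .nil)) .nil))) .nil)))) (.cons (.rf (nat_lit 2336) (nat_lit 465450273245216)) (.cons (.ev (nat_lit 310693954087704875415699713) (nat_lit 1)) .nil))))) .nil))))))]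

theorem c101 : chkAll C T R L101 (nat_lit 2784) = true := by decide +kernel

theorem l101 : (nat_lit 2784) + L101.length = (nat_lit 2802) := by decide +kernel

/-- part of the certificates -/
def L102 : List Prf := [(.br (nat_lit 1) (nat_lit 0) (.cons (.rf (nat_lit 2669) (nat_lit 14242959524133701664)) (.cons (.rf (nat_lit 2800) (nat_lit 14242959524133701664)) (.cons (.rf (nat_lit 2801) (nat_lit 14242959524133701664)) (.cons (.br (nat_lit 3) (nat_lit 0) (.cons (.rf (nat_lit 2318) (nat_lit 266104089876793376)) (.cons (.ev (nat_lit 309485009821626543718268929) (nat_lit 1)) (.cons (.rf (nat_lit 2671) (nat_lit 14896531799902240)) .nil)))) (.cons (.br (nat_lit 10) (nat_lit 0) (.cons (.ev (nat_lit 309485009821626543718268929) (nat_lit 1)) (.cons (.br (nat_lit 3) (nat_lit 0) (.cons (.ev (nat_lit 1208925891673322724261889) (nat_lit 1)) (.cons (.ev (nat_lit 79538861190718806809286606848) (nat_lit 1)) (.cons (.br (nat_lit 13) (nat_lit 0) (.cons (.br (nat_lit 12) (nat_lit 0) (.cons (.ev (nat_lit 79228162532856041284588143361)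 (nat_lit 2)) .nil)) (.cons (.ev (nat_lit 79847132589247541431427399937) (nat_lit 2)) .nil))) .nil)))) (.cons (.rf (nat_lit 2336) (nat_lit 465484599429152)) (.cons (.rf (nat_lit 2797) (nat_lit 13951351549195564033)) .nil))))) .nil)))))),
 (.br (nat_lit 1) (nat_lit 0) (.cons (.rf (nat_lit 2669) (nat_lit 14242959524133701664)) (.cons (.rf (nat_lit 2800) (nat_lit 14242959524133701664)) (.cons (.rf (nat_lit 2801) (nat_lit 14242959524133701664)) (.cons (.rf (nat_lit 2802) (nat_lit 14242959524133701664)) (.cons (.br (nat_lit 3) (nat_lit 0) (.cons (.br (nat_lit 7) (nat_lit 0) (.cons (.ev (nat_lit 1208925891673322724261889) (nat_lit 1)) (.cons (.rf (nat_lit 2343) (nat_lit 465517885425696)) (.cons (.br (nat_lit 10) (nat_lit 0) (.cons (.ev (nat_lit 79538856449905579865931841536) (nat_lit 1)) (.cons (.br (nat_lit 11) (nat_lit 0) (.cons (.ev (nat_lit 284112824258133607790141999155716) (nat_lit 4)) .nil)) .nil))) .nil)))) (.cons (.rf (nat_lit 2330) (nat_lit 14896531797870624)) (.cons (.rf (nat_lit 2330) (nat_lit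 14896566124054560)) (.cons (.br (nat_lit 10) (nat_lit 0) (.cons (.br (nat_lit 13) (nat_lit 0) (.cons (.br (nat_lit 11) (nat_lit 0) (.cons (.ev (nat_lit 40726384894539130959508661079560) (nat_lit 4)) .nil)) (.cons (.br (nat_lit 7) (nat_lit 0) (.cons (.ev (nat_lit 40726384894539130959508661079560) (nat_lit 4)) .nil)) .nil))) (.cons (.ev (nat_lit 79538861190718525338604863488) (nat_lit 1)) (.cons (.br (nat_lit 11) (nat_lit 0) (.cons (.br (nat_lit 7) (nat_lit 0) (.cons (.ev (nat_lit 1213666704900266079027201) (nat_lit 1)) .nil)) (.cons (.ev (nat_lit 20361948460101575721238694723841) (nat_lit 1)) .nil))) .nil)))) .nil))))) .nil)))))),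
 (.br (nat_lit 10) (nat_lit 0) (.cons (.kr (nat_lit 1208925819896104168194304) (nat_lit 18446745177516212224) (nat_lit 1) (nat_lit 0)) (.cons (.kr (nat_lit 2417851639510733359677952) (nat_lit 4740813229146673119232) (nat_lit 1) (nat_lit 0)) (.cons (.br (nat_lit 7) (nat_lit 0) (.cons (.ev (nat_lit 79228162514336395187598721281) (nat_lit 1)) (.cons (.br (nat_lit 11) (nat_lit 0) (.cons (.ev (nat_lit 20282719088661492051594776215553) (nat_lit 1)) .nil)) .nil))) (.cons (.br (nat_lit 7) (nat_lit 0) (.cons (.br (nat_lit 12) (nat_lit 0) (.cons (.ev (nat_lit 79537647542532708210971770881) (nat_lit 1)) .nil)) (.cons (.br (nat_lit 11) (nat_lit 0) (.cons (.ev (nat_lit 79537647542532708210971770881) (nat_lit 1)) .nil)) (.cons (.ev (nat_lit 20282410812577562377645440696321) (nat_lit 1)) .nil)))) .nil))))),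
 (.br (nat_lit 3) (nat_lit 0) (.cons (.kr (nat_lit 2417851639510733359677952) (nat_lit 4740813229146673119232) (nat_lit 1) (nat_lit 0)) (.cons (.ev (nat_lit 79229376162522775265185103873) (nat_lit 1)) (.cons (.ev (nat_lit 20282410812577562377645440696321) (nat_lit 1)) .nil)))),
 (.br (nat_lit 13) (nat_lit 0) (.cons (.ev (nat_lit 20282719093402304997058859302913) (nat_lit 1)) (.cons (.rf (nat_lit 2805) (nat_lit 493858305440582043680)) (.cons (.br (nat_lit 3) (nat_lit 0) (.cons (.ev (nat_lit 79229376162522775265185103873) (nat_lit 1)) .nil)) .nil)))),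
 (.br (nat_lit 13) (nat_lit 0) (.cons (.rf (nat_lit 2804) (nat_lit 493858305440582043680)) (.cons (.rf (nat_lit 2805) (nat_lit 493858305440582043680)) (.cons (.rf (nat_lit 2806) (nat_lit 493858305440582043680)) (.cons (.br (nat_lit 13) (nat_lit 0) (.cons (.rf (nat_lit 2804) (nat_lit 493858305440582043680)) (.cons (.rf (nat_lit 2805) (nat_lit 493858305440582043680)) (.cons (.rf (nat_lit 2806) (nat_lit 493858305440582043680)) .nil)))) .nil))))),
 (.br (nat_lit 3) (nat_lit 0) (.cons (.kr (nat_lit 1208925819896104168194304) (nat_lit 18446745177516212224) (nat_lit 1) (nat_lit 0)) (.cons (.kr (nat_lit 2417851639510733359677952) (nat_lit 4740813229146673119232) (nat_lit 1) (nat_lit 0)) (.cons (.br (nat_lit 13) (nat_lit 0) (.cons (.ev (nat_lit 79229376162522775265185103873) (nat_lit 1)) (.cons (.br (nat_lit 7) (nat_lit 0) (.cons (.ev (nat_lit 79229376162522775265185103873) (nat_lit 1)) .nil)) .nil))) (.cons (.rf (nat_lit 2804) (nat_lit 493858305440582043680)) .nil))))),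
 (.br (nat_lit 13) (nat_lit 0) (.cons (.rf (nat_lit 2804) (nat_lit 493858305440582043680)) (.cons (.rf (nat_lit 2807) (nat_lit 493858305440582043680)) (.cons (.rf (nat_lit 2808) (nat_lit 493858305440582043680)) (.cons (.br (nat_lit 7) (nat_lit 0) (.cons (.ev (nat_lit 79537647542532708210971770881) (nat_lit 1)) (.cons (.ev (nat_lit 1861750503165845796246652420) (nat_lit 3)) (.cons (.rf (nat_lit 2807) (nat_lit 493858305440582043680)) .nil)))) .nil))))),
 (.br (nat_lit 7) (nat_lit 0) (.cons (.zr (nat_lit 158456325028528679585134673920) (nat_lit 20282720297587384004189158899969) (nat_lit 5) (nat_lit 0)) .nil)),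
 (.br (nat_lit 13) (nat_lit 0) (.cons (.rf (nat_lit 2797) (nat_lit 14208022404722308097)) (.cons (.rf (nat_lit 2669) (nat_lit 14208022404722295201)) (.cons (.br (nat_lit 12) (nat_lit 0) (.cons (.rf (nat_lit 2810) (nat_lit 493858305440582043680)) (.cons (.rf (nat_lit 2810) (nat_lit 87994998699560514561)) .nil))) (.cons (.rf (nat_lit 2669) (nat_lit 6164517744835626061)) .nil))))),
 (.br (nat_lit 1) (nat_lit 0) (.cons (.rf (nat_lit 2669) (nat_lit 14242959524133701664)) (.cons (.br (nat_lit 3) (nat_lit 0) (.cons (.rf (nat_lit 2752) (nat_lit 15071255330916384)) (.cons (.rf (nat_lit 2767) (nat_lit 470942464706592)) (.cons (.br (nat_lit 7) (nat_lit 0) (.cons (.ev (nat_lit 1213666704900266079027201) (nat_lit 1)) (.cons (.kr (nat_lit 4740813226947649732608) (nat_lit 158456325028528956662064611328) (nat_lit 4) (nat_lit 0)) (.cons (.rf (nat_lit 2753) (nat_lit 493854927841795344416)) .nil)))) (.cons (.br (nat_lit 7) (nat_lit 0) (.cons (.ev (nat_lit 1213666704900266079027201) (nat_lit 1)) (.cons (.br (nat_lit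 13) (nat_lit 0) (.cons (.ev (nat_lit 1856914873673233293679919620) (nat_lit 3)) (.cons (.br (nat_lit 11) (nat_lit 0) (.cons (.ev (nat_lit 1856914873673233293679919620) (nat_lit 3)) .nil)) .nil))) (.cons (.br (nat_lit 11) (nat_lit 0) (.cons (.br (nat_lit 12) (nat_lit 0) (.cons (.ev (nat_lit 20441798010524087526168534908930) (nat_lit 2)) .nil)) (.cons (.ev (nat_lit 20282719093402304997058859302913) (nat_lit 1)) .nil))) .nil)))) .nil))))) (.cons (.br (nat_lit 3) (nat_lit 0) (.cons (.rf (nat_lit 2752) (nat_lit 15070155852843040)) (.cons (.ev (nat_lit 309489750634572016391290881) (nat_lit 1)) (.cons (.br (nat_lit 7) (nat_lit 0) (.cons (.rf (nat_lit 2768) (nat_lit 470976790890528)) (.cons (.kr (nat_lit 4740813226947649732608) (nat_lit 158456325028528956662064611328) (nat_lit 4) (nat_lit 0)) (.cons (.br (nat_lit 13) (nat_lit 0) (.cons (.kr (nat_lit 2417851639510733359677952) (nat_lit 4740813229146673119232) (nat_lit 1) (nat_lit 0)) (.cons (.br (nat_lit 10) (nat_lit 0) (.cons (.zr (nat_lit 4740813230246184812544)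 (nat_lit 20361947251175829008628488077313) (nat_lit 5) (nat_lit 0)) .nil)) .nil))) .nil)))) (.cons (.br (nat_lit 12) (nat_lit 0) (.cons (.br (nat_lit 12) (nat_lit 0) (.cons (.kr (nat_lit 18446744073709551616) (nat_lit 79228162514264337593543950336) (nat_lit 8) (nat_lit 0)) (.cons (.ev (nat_lit 79537647542532708210971770881) (nat_lit 1)) .nil))) (.cons (.kr (nat_lit 2417851639510733359677952) (nat_lit 4740813229146673119232) (nat_lit 1) (nat_lit 0)) (.cons (.br (nat_lit 12) (nat_lit 0) (.cons (.ev (nat_lit 79537647542532708210971770881) (nat_lit 1)) (.cons (.kr (nat_lit 2417851639510733359677952) (nat_lit 4740813229146673119232) (nat_lit 1) (nat_lit 0)) .nil))) .nil)))) .nil))))) (.cons (.br (nat_lit 13) (nat_lit 0) (.cons (.rf (nat_lit 2804) (nat_lit 493858305440582043680)) (.cons (.rf (nat_lit 2807) (nat_lit 493858305440582043680)) (.cons (.rf (nat_lit 2808) (nat_lit 493858305440582043680)) (.cons (.rf (nat_lit 2809) (nat_lit 493858305440582043680)) (.cons (.br (nat_lit 13) (nat_lit 0) (.cons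 (.rf (nat_lit 2804) (nat_lit 493858305440582043680)) (.cons (.rf (nat_lit 2807) (nat_lit 493858305440582043680)) (.cons (.rf (nat_lit 2808) (nat_lit 493858305440582043680)) (.cons (.rf (nat_lit 2809) (nat_lit 493858305440582043680)) .nil))))) .nil)))))) (.cons (.br (nat_lit 13) (nat_lit 0) (.cons (.rf (nat_lit 2797) (nat_lit 14208022404722308097)) (.cons (.rf (nat_lit 2669) (nat_lit 14208022404722295201)) (.cons (.rf (nat_lit 2811) (nat_lit 493858305440582043680)) (.cons (.br (nat_lit 13) (nat_lit 0) (.cons (.rf (nat_lit 2797) (nat_lit 14208022404722308097)) (.cons (.rf (nat_lit 2669) (nat_lit 14208022404722295201)) (.cons (.rf (nat_lit 2811) (nat_lit 493858305440582043680)) (.cons (.rf (nat_lit 2669) (nat_lit 6132992408932418637)) .nil))))) (.cons (.br (nat_lit 13) (nat_lit 0) (.cons (.rf (nat_lit 2797) (nat_lit 14208022404722308097)) (.cons (.rf (nat_lit 2669) (nat_lit 14208022404722295201)) (.cons (.rf (nat_lit 2669) (nat_lit 6164517744835626061)) (.cons (.rf (nat_lit 2669) (nat_lit 6132992408932418637))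 .nil))))) .nil)))))) .nil)))))),
 (.br (nat_lit 12) (nat_lit 0) (.cons (.ev (nat_lit 79537652246452165536225689601) (nat_lit 1)) .nil)),
 (.br (nat_lit 7) (nat_lit 0) (.cons (.rf (nat_lit 2813) (nat_lit 493858305440582043680)) (.cons (.br (nat_lit 7) (nat_lit 0) (.cons (.rf (nat_lit 2813) (nat_lit 493858305440582043680)) .nil)) .nil))),
 (.br (nat_lit 13) (nat_lit 0) (.cons (.rf (nat_lit 2814) (nat_lit 493858305440582043680)) (.cons (.br (nat_lit 13) (nat_lit 0) (.cons (.rf (nat_lit 2814) (nat_lit 493858305440582043680)) .nil)) .nil))),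
 (.br (nat_lit 7) (nat_lit 0) (.cons (.ev (nat_lit 79537652246452165536225689601) (nat_lit 1)) .nil)),
 (.br (nat_lit 7) (nat_lit 0) (.cons (.ev (nat_lit 79537652246452165536225689601) (nat_lit 1)) (.cons (.rf (nat_lit 2816) (nat_lit 493858305440582043680)) .nil))),
 (.br (nat_lit 12) (nat_lit 0) (.cons (.rf (nat_lit 2632) (nat_lit 14205874064161146912)) (.cons (.rf (nat_lit 2632) (nat_lit 14205698309808621600)) .nil))),
 (.br (nat_lit 6) (nat_lit 0) (.cons (.rf (nat_lit 2818) (nat_lit 14242959524133701664)) (.cons (.br (nat_lit 6) (nat_lit 0) (.cons (.rf (nat_lit 2818) (nat_lit 14242959524133701664)) .nil)) .nil))),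
 (.br (nat_lit 7) (nat_lit 0) (.cons (.kr (nat_lit 4740813226947649732608) (nat_lit 158456325028528956662064611328) (nat_lit 4) (nat_lit 0)) (.cons (.br (nat_lit 12) (nat_lit 0) (.cons (.ev (nat_lit 20282720302309677866514795987201) (nat_lit 1)) .nil)) .nil))),
 (.br (nat_lit 3) (nat_lit 0) (.cons (.kr (nat_lit 4740813226947649732608) (nat_lit 158456325028528956662064611328) (nat_lit 4) (nat_lit 0)) (.cons (.rf (nat_lit 2629) (nat_lit 15395986585010997280)) .nil))),
 (.br (nat_lit 1) (nat_lit 0) (.cons (.rf (nat_lit 2669) (nat_lit 14242959524133701664)) (.cons (.rf (nat_lit 2812) (nat_lit 493858305440582043680)) (.cons (.br (nat_lit 13) (nat_lit 0) (.cons (.rf (nat_lit 2814) (nat_lit 493858305440582043680)) (.cons (.rf (nat_lit 2815) (nat_lit 493858305440582043680)) (.cons (.br (nat_lit 13) (nat_lit 0) (.cons (.rf (nat_lit 2814) (nat_lit 493858305440582043680)) (.cons (.rf (nat_lit 2815) (nat_lit 493858305440582043680)) .nil))) .nil)))) (.cons (.br (nat_lit 3) (nat_lit 0) (.cons (.br (nat_lit 13)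 (nat_lit 0) (.cons (.ev (nat_lit 18519083147036000513) (nat_lit 1)) (.cons (.ev (nat_lit 310693954087704875415699713) (nat_lit 1)) (.cons (.br (nat_lit 13) (nat_lit 0) (.cons (.ev (nat_lit 18519083147036000513) (nat_lit 1)) (.cons (.ev (nat_lit 310693954087704875415699713) (nat_lit 1)) .nil))) .nil)))) (.cons (.rf (nat_lit 2767) (nat_lit 465450275276832)) (.cons (.rf (nat_lit 2752) (nat_lit 14895500974196768)) (.cons (.br (nat_lit 13) (nat_lit 0) (.cons (.br (nat_lit 13) (nat_lit 0) (.cons (.ev (nat_lit 310698658007725142033105153) (nat_lit 1)) (.cons (.rf (nat_lit 2817) (nat_lit 493858305440582043680)) .nil))) (.cons (.ev (nat_lit 310698658007725142033105153) (nat_lit 1)) (.cons (.rf (nat_lit 2817) (nat_lit 493858305440582043680)) .nil)))) .nil))))) (.cons (.br (nat_lit 11) (nat_lit 0) (.cons (.rf (nat_lit 2819) (nat_lit 15433072044983552032)) (.cons (.br (nat_lit 12) (nat_lit 0) (.cons (.rf (nat_lit 2820) (nat_lit 493858305440582043680)) (.cons (.rf (nat_lit 2821) (nat_lit 493858305440582043680))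 (.cons (.br (nat_lit 12) (nat_lit 0) (.cons (.rf (nat_lit 2820) (nat_lit 493858305440582043680)) (.cons (.rf (nat_lit 2821) (nat_lit 493858305440582043680)) .nil))) .nil)))) (.cons (.ev (nat_lit 310693954087704875415699713) (nat_lit 1)) (.cons (.rf (nat_lit 2797) (nat_lit 14090929087143293953)) .nil))))) .nil)))))),
 (.br (nat_lit 7) (nat_lit 0) (.cons (.kr (nat_lit 2417851639510733359677952) (nat_lit 4740813229146673119232) (nat_lit 1) (nat_lit 0)) (.cons (.br (nat_lit 10) (nat_lit 0) (.cons (.ev (nat_lit 20361948464842389229661321167105) (nat_lit 1)) .nil)) .nil))),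
 (.br (nat_lit 1) (nat_lit 0) (.cons (.rf (nat_lit 2669) (nat_lit 14242959524133701664)) (.cons (.rf (nat_lit 2812) (nat_lit 493858305440582043680)) (.cons (.rf (nat_lit 2822) (nat_lit 493858305440582043680)) (.cons (.br (nat_lit 3) (nat_lit 0) (.cons (.br (nat_lit 10) (nat_lit 0) (.cons (.ev (nat_lit 1208925891673322724261889) (nat_lit 1)) (.cons (.rf (nat_lit 2768) (nat_lit 465484601460768)) (.cons (.kr (nat_lit 2417851639510733359677952) (nat_lit 4740813229146673119232) (nat_lit 1) (nat_lit 0)) .nil)))) (.cons (.ev (nat_lit 309485009821626543718268929) (nat_lit 1)) (.cons (.rf (nat_lit 2752) (nat_lit 14894401496123424)) (.cons (.br (nat_lit 7) (nat_lit 0) (.cons (.kr (nat_lit 2417851639510733359677952) (nat_lit 4740813229146673119232) (nat_lit 1) (nat_lit 0)) (.cons (.rf (nat_lit 2823) (nat_lit 493858305440582043680)) (.cons (.br (nat_lit 7) (nat_lit 0) (.cons (.kr (nat_lit 2417851639510733359677952) (nat_lit 4740813229146673119232) (nat_lit 1) (nat_lit 0)) (.cons (.rf (nat_lit 2823) (nat_lit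 493858305440582043680)) .nil))) .nil)))) .nil))))) (.cons (.br (nat_lit 10) (nat_lit 0) (.cons (.ev (nat_lit 309485009821626543718268929) (nat_lit 1)) (.cons (.br (nat_lit 12) (nat_lit 0) (.cons (.kr (nat_lit 2417851639510733359677952) (nat_lit 4740813229146673119232) (nat_lit 1) (nat_lit 0)) (.cons (.rf (nat_lit 2630) (nat_lit 491554608681219950624)) (.cons (.br (nat_lit 3) (nat_lit 0) (.cons (.ev (nat_lit 1208925891673322724261889) (nat_lit 1)) (.cons (.kr (nat_lit 2417851639510733359677952) (nat_lit 4740813229146673119232) (nat_lit 1) (nat_lit 0)) (.cons (.ev (nat_lit 20282720297605758127718860325121) (nat_lit 1)) .nil)))) .nil)))) (.cons (.br (nat_lit 7) (nat_lit 0) (.cons (.kr (nat_lit 2417851639510733359677952) (nat_lit 4740813229146673119232) (nat_lit 1) (nat_lit 0)) (.cons (.kr (nat_lit 18446744073709551616) (nat_lit 79228162514264337593543950336) (nat_lit 8) (nat_lit 0)) (.cons (.br (nat_lit 3) (nat_lit 0) (.cons (.kr (nat_lit 2417851639510733359677952) (nat_lit 4740813229146673119232)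 (nat_lit 1) (nat_lit 0)) (.cons (.ev (nat_lit 79538856449905579865931841793) (nat_lit 1)) (.cons (.ev (nat_lit 20282720297605758127718860325121) (nat_lit 1)) .nil)))) .nil)))) (.cons (.rf (nat_lit 2797) (nat_lit 13951351549195564033)) .nil))))) .nil)))))),
 (.br (nat_lit 10) (nat_lit 0) (.cons (.ev (nat_lit 18519083147036000513) (nat_lit 1)) (.cons (.kr (nat_lit 2417851639510733359677952) (nat_lit 4740813229146673119232) (nat_lit 1) (nat_lit 0)) (.cons (.br (nat_lit 7) (nat_lit 0) (.cons (.ev (nat_lit 475987949883369183732960462340) (nat_lit 3)) (.cons (.br (nat_lit 11) (nat_lit 0) (.cons (.ev (nat_lit 80156617580694481504047399170) (nat_lit 2)) .nil)) .nil))) (.cons (.br (nat_lit 13) (nat_lit 0) (.cons (.ev (nat_lit 20282410812577562377645440696321) (nat_lit 1)) (.cons (.br (nat_lit 7) (nat_lit 0) (.cons (.ev (nat_lit 79538856449905298395250098433) (nat_lit 1)) .nil)) (.cons (.rf (nat_lit 2669) (nat_lit 6164517744835626061)) .nil)))) .nil)))))]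

theorem c102 : chkAll C T R L102 (nat_lit 2802) = true := by decide +kernel

theorem l102 : (nat_lit 2802) + L102.length = (nat_lit 2826) := by decide +kernel

/-- part of the certificates -/
def L103 : List Prf := [(.br (nat_lit 3) (nat_lit 0) (.cons (.ev (nat_lit 18519083147036000513) (nat_lit 1)) (.cons (.kr (nat_lit 2417851639510733359677952) (nat_lit 4740813229146673119232) (nat_lit 1) (nat_lit 0)) (.cons (.br (nat_lit 7) (nat_lit 0) (.cons (.ev (nat_lit 475992785660433497059750183428) (nat_lit 3)) (.cons (.br (nat_lit 11) (nat_lit 0) (.cons (.ev (nat_lit 80159035395439661855423922946) (nat_lit 2)) .nil)) .nil))) (.cons (.br (nat_lit 13) (nat_lit 0) (.cons (.ev (nat_lit 20282409603670189226718822138113) (nat_lit 1)) (.cons (.br (nat_lit 7) (nat_lit 0) (.cons (.ev (nat_lit 79537647542532708210971770881) (nat_lit 1)) .nil)) (.cons (.rf (nat_lit 2797) (nat_lit 6028215822752778285)) .nil)))) .nil))))),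
 (.br (nat_lit 7) (nat_lit 0) (.cons (.rf (nat_lit 2825) (nat_lit 493858305440582043680)) (.cons (.rf (nat_lit 2826) (nat_lit 493858305440582043680)) (.cons (.br (nat_lit 3) (nat_lit 0) (.cons (.ev (nat_lit 318157848465860905349234689540) (nat_lit 3)) (.cons (.br (nat_lit 10) (nat_lit 0) (.cons (.ev (nat_lit 159076503992438571763822166274) (nat_lit 2)) .nil)) .nil))) (.cons (.br (nat_lit 13) (nat_lit 0) (.cons (.ev (nat_lit 18518801667764322561) (nat_lit 1)) (.cons (.ev (nat_lit 1213666704900266079027201) (nat_lit 1)) (.cons (.zr (nat_lit 4740813230241889779968) (nat_lit 20440865928680199943559269318657) (nat_lit 5) (nat_lit 0)) .nil)))) .nil))))),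
 (.br (nat_lit 7) (nat_lit 0) (.cons (.rf (nat_lit 2825) (nat_lit 493858305440582043680)) (.cons (.rf (nat_lit 2826) (nat_lit 493858305440582043680)) (.cons (.rf (nat_lit 2827) (nat_lit 493858305440582043680)) (.cons (.br (nat_lit 13) (nat_lit 0) (.cons (.rf (nat_lit 2819) (nat_lit 2710156741563528193)) (.cons (.br (nat_lit 3) (nat_lit 0) (.cons (.ev (nat_lit 20361947255898122590578693701633) (nat_lit 1)) .nil)) (.cons (.kr (nat_lit 316912650057057631853447610368) (nat_lit 40564819212081047565184299696128) (nat_lit 2) (nat_lit 0)) .nil)))) .nil))))),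
 (.br (nat_lit 1) (nat_lit 0) (.cons (.rf (nat_lit 2669) (nat_lit 14242959524133701664)) (.cons (.rf (nat_lit 2812) (nat_lit 493858305440582043680)) (.cons (.rf (nat_lit 2822) (nat_lit 493858305440582043680)) (.cons (.rf (nat_lit 2824) (nat_lit 493858305440582043680)) (.cons (.br (nat_lit 7) (nat_lit 0) (.cons (.rf (nat_lit 2825) (nat_lit 493858305440582043680)) (.cons (.rf (nat_lit 2826) (nat_lit 493858305440582043680)) (.cons (.rf (nat_lit 2827) (nat_lit 493858305440582043680)) (.cons (.rf (nat_lit 2828) (nat_lit 493858305440582043680)) (.cons (.br (nat_lit 7) (nat_lit 0) (.cons (.rf (nat_lit 2825) (nat_lit 493858305440582043680)) (.cons (.rf (nat_lit 2826) (nat_lit 493858305440582043680)) (.cons (.rf (nat_lit 2827) (nat_lit 493858305440582043680)) (.cons (.rf (nat_lit 2828) (nat_lit 493858305440582043680)) .nil))))) .nil)))))) .nil)))))),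
 (.br (nat_lit 2) (nat_lit 0) (.cons (.rf (nat_lit 2161) (nat_lit 14242959524133701664)) (.cons (.rf (nat_lit 2669) (nat_lit 14242959524133700672)) (.cons (.rf (nat_lit 2797) (nat_lit 14242959524133701664)) (.cons (.br (nat_lit 1) (nat_lit 0) (.cons (.rf (nat_lit 2669) (nat_lit 14242959524133701664)) (.cons (.rf (nat_lit 2800) (nat_lit 14242959524133701664)) (.cons (.rf (nat_lit 2801) (nat_lit 14242959524133701664)) (.cons (.rf (nat_lit 2802) (nat_lit 14242959524133701664)) (.cons (.rf (nat_lit 2803) (nat_lit 14242959524133701664)) (.cons (.br (nat_lit 1) (nat_lit 0) (.cons (.rf (nat_lit 2669) (nat_lit 14242959524133701664)) (.cons (.rf (nat_lit 2800) (nat_lit 14242959524133701664)) (.cons (.rf (nat_lit 2801) (nat_lit 14242959524133701664)) (.cons (.rf (nat_lit 2802) (nat_lit 14242959524133701664)) (.cons (.rf (nat_lit 2803) (nat_lit 14242959524133701664)) .nil)))))) .nil))))))) (.cons (.br (nat_lit 1) (nat_lit 0) (.cons (.rf (nat_lit 2669) (nat_lit 14242959524133701664)) (.cons (.rf (nat_lit 2812)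 (nat_lit 493858305440582043680)) (.cons (.rf (nat_lit 2822) (nat_lit 493858305440582043680)) (.cons (.rf (nat_lit 2824) (nat_lit 493858305440582043680)) (.cons (.rf (nat_lit 2829) (nat_lit 493858305440582043680)) (.cons (.br (nat_lit 1) (nat_lit 0) (.cons (.rf (nat_lit 2669) (nat_lit 14242959524133701664)) (.cons (.rf (nat_lit 2812) (nat_lit 493858305440582043680)) (.cons (.rf (nat_lit 2822) (nat_lit 493858305440582043680)) (.cons (.rf (nat_lit 2824) (nat_lit 493858305440582043680)) (.cons (.rf (nat_lit 2829) (nat_lit 493858305440582043680)) .nil)))))) .nil))))))) .nil)))))),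
 (.br (nat_lit 13) (nat_lit 0) (.cons (.rf (nat_lit 1943) (nat_lit 66573)) (.cons (.rf (nat_lit 2830) (nat_lit 13951351549195564033)) (.cons (.rf (nat_lit 2797) (nat_lit 13951351549195564033)) (.cons (.rf (nat_lit 2669) (nat_lit 13951351549195551137)) (.cons (.rf (nat_lit 2797) (nat_lit 6028215822752777293)) .nil)))))),
 (.br (nat_lit 6) (nat_lit 0) (.cons (.br (nat_lit 6) (nat_lit 0) (.cons (.ev (nat_lit 79538861172271780161088651521) (nat_lit 1)) .nil)) (.cons (.rf (nat_lit 2633) (nat_lit 2525751150531194881)) .nil))),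
 (.br (nat_lit 1) (nat_lit 0) (.cons (.rf (nat_lit 2797) (nat_lit 14208022404722308097)) (.cons (.br (nat_lit 13) (nat_lit 0) (.cons (.rf (nat_lit 2830) (nat_lit 14090929087143293953)) (.cons (.rf (nat_lit 2797) (nat_lit 14090929087143293953)) (.cons (.br (nat_lit 7) (nat_lit 0) (.cons (.br (nat_lit 7) (nat_lit 0) .nil) .nil)) .nil)))) (.cons (.rf (nat_lit 2831) (nat_lit 493858305440582043680)) (.cons (.br (nat_lit 10) (nat_lit 0) (.cons (.br (nat_lit 7) (nat_lit 0) (.cons (.br (nat_lit 11) (nat_lit 0) (.cons (.ev (nat_lit 79537647542532708210971770881) (nat_lit 1)) .nil)) (.cons (.ev (nat_lit 20282409608374109246985439543553) (nat_lit 1)) .nil))) (.cons (.rf (nat_lit 2832) (nat_lit 15433072045018155040)) (.cons (.rf (nat_lit 2669) (nat_lit 6164517744835625378)) .nil)))) .nil))))),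
 (.br (nat_lit 13) (nat_lit 0) (.cons (.rf (nat_lit 2833) (nat_lit 493858305440582043680)) (.cons (.rf (nat_lit 2669) (nat_lit 6164517744835625378)) (.cons (.br (nat_lit 1) (nat_lit 0) (.cons (.rf (nat_lit 2669) (nat_lit 14242959524133701664)) (.cons (.rf (nat_lit 2669) (nat_lit 14208022404722295201)) (.cons (.rf (nat_lit 2797) (nat_lit 14090929087143293953)) (.cons (.rf (nat_lit 2669) (nat_lit 13951351549195551137)) (.cons (.br (nat_lit 3) (nat_lit 0) (.cons (.br (nat_lit 10) (nat_lit 0) (.cons (.ev (nat_lit 20283029782652472960939349639936) (nat_lit 2)) .nil)) (.cons (.br (nat_lit 7) (nat_lit 0) (.cons (.ev (nat_lit 40723894507203439659772918367748) (nat_lit 3)) .nil)) (.cons (.br (nat_lit 7) (nat_lit 0) (.cons (.ev (nat_lit 20283029782652473523897892995840) (nat_lit 2)) .nil)) .nil)))) .nil)))))) (.cons (.br (nat_lit 1) (nat_lit 0) (.cons (.rf (nat_lit 2669) (nat_lit 14242959524133701664)) (.cons (.rf (nat_lit 2669) (nat_lit 14208022404722295201)) (.cons (.rf (nat_lit 2797) (nat_lit 5885226501296849997))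 (.cons (.br (nat_lit 3) (nat_lit 0) (.cons (.ev (nat_lit 79228162532855478343224656641) (nat_lit 2)) (.cons (.br (nat_lit 7) (nat_lit 0) (.cons (.ev (nat_lit 79228162532856041284588143361) (nat_lit 2)) .nil)) (.cons (.ev (nat_lit 79847132589247541431427400451) (nat_lit 2)) .nil)))) .nil))))) .nil))))),
 (.br (nat_lit 13) (nat_lit 0) (.cons (.rf (nat_lit 2833) (nat_lit 493858305440582043680)) (.cons (.rf (nat_lit 2834) (nat_lit 493858305440582043680)) (.cons (.rf (nat_lit 2669) (nat_lit 6164517744835625378)) (.cons (.br (nat_lit 1) (nat_lit 0) (.cons (.rf (nat_lit 2669) (nat_lit 14242959524133701664)) (.cons (.rf (nat_lit 2834) (nat_lit 43058005892254728610)) (.cons (.rf (nat_lit 2797) (nat_lit 14090929087143293953)) (.cons (.rf (nat_lit 2283) (nat_lit 2427801086099554721)) .nil))))) .nil))))),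
 (.br (nat_lit 13) (nat_lit 0) (.cons (.rf (nat_lit 2833) (nat_lit 493858305440582043680)) (.cons (.rf (nat_lit 2834) (nat_lit 493858305440582043680)) (.cons (.rf (nat_lit 2669) (nat_lit 6164517744835625378)) (.cons (.rf (nat_lit 2835) (nat_lit 493858305440582043680)) (.cons (.br (nat_lit 1) (nat_lit 0) (.cons (.rf (nat_lit 2669) (nat_lit 14242959524133701664)) (.cons (.rf (nat_lit 2834) (nat_lit 43058005892254728610)) (.cons (.rf (nat_lit 2833) (nat_lit 43058005892254728610)) (.cons (.rf (nat_lit 2835) (nat_lit 43058005892254728610)) .nil))))) .nil)))))),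
 (.br (nat_lit 7) (nat_lit 0) (.cons (.ev (nat_lit 309485009821345073036525824) (nat_lit 1)) (.cons (.ev (nat_lit 310698658007443671351361536) (nat_lit 1)) (.cons (.ev (nat_lit 79537652246452165536225689601) (nat_lit 1)) .nil)))),
 (.br (nat_lit 13) (nat_lit 0) (.cons (.rf (nat_lit 2836) (nat_lit 493858305440582043680)) (.cons (.rf (nat_lit 2669) (nat_lit 6164517744835625378)) (.cons (.br (nat_lit 1) (nat_lit 0) (.cons (.br (nat_lit 1) (nat_lit 0) (.cons (.rf (nat_lit 2788) (nat_lit 15432966559513020448)) (.cons (.ev (nat_lit 309489750634853487073034496) (nat_lit 1)) (.cons (.rf (nat_lit 2788) (nat_lit 15360909034194569248)) .nil)))) (.cons (.br (nat_lit 1) (nat_lit 0) (.cons (.rf (nat_lit 2788) (nat_lit 15432966559513020448)) (.cons (.rf (nat_lit 2837) (nat_lit 493858305440582043680)) (.cons (.rf (nat_lit 2395) (nat_lit 15252995200897943584)) .nil)))) (.cons (.rf (nat_lit 2837) (nat_lit 493858305440582043680)) (.cons (.br (nat_lit 1) (nat_lit 0) (.cons (.rf (nat_lit 2788) (nat_lit 15360909034194569248))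 (.cons (.rf (nat_lit 2395) (nat_lit 15252995200897943584)) (.cons (.rf (nat_lit 2837) (nat_lit 493858305440582043680)) .nil)))) .nil))))) (.cons (.br (nat_lit 7) (nat_lit 0) (.cons (.br (nat_lit 1) (nat_lit 0) (.cons (.rf (nat_lit 2400) (nat_lit 15252924900873242656)) (.cons (.br (nat_lit 10) (nat_lit 0) (.cons (.ev (nat_lit 20441795592635555650993001660675) (nat_lit 2)) .nil)) .nil))) (.cons (.rf (nat_lit 2751) (nat_lit 47458428453282)) (.cons (.ev (nat_lit 79228167255149622130953486336) (nat_lit 1)) .nil)))) .nil))))),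
 (.br (nat_lit 13) (nat_lit 0) (.cons (.rf (nat_lit 2836) (nat_lit 493858305440582043680)) (.cons (.rf (nat_lit 2838) (nat_lit 493858305440582043680)) (.cons (.rf (nat_lit 2669) (nat_lit 6164517744835625378)) (.cons (.br (nat_lit 10) (nat_lit 0) (.cons (.br (nat_lit 7) (nat_lit 0) (.cons (.rf (nat_lit 2400) (nat_lit 15252924900873242656)) (.cons (.ev (nat_lit 310693954087986346097442816) (nat_lit 1)) .nil))) (.cons (.br (nat_lit 1) (nat_lit 0) (.cons (.ev (nat_lit 20282410812577562377645440696321) (nat_lit 1)) (.cons (.ev (nat_lit 310698658007443671351361536) (nat_lit 1)) .nil))) (.cons (.ev (nat_lit 20282720297605758409198132002816) (nat_lit 1)) .nil)))) .nil))))),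
 (.br (nat_lit 13) (nat_lit 0) (.cons (.rf (nat_lit 2836) (nat_lit 493858305440582043680)) (.cons (.rf (nat_lit 2838) (nat_lit 493858305440582043680)) (.cons (.rf (nat_lit 2669) (nat_lit 6164517744835625378)) (.cons (.rf (nat_lit 2839) (nat_lit 493858305440582043680)) (.cons (.br (nat_lit 13) (nat_lit 0) (.cons (.rf (nat_lit 2836) (nat_lit 493858305440582043680)) (.cons (.rf (nat_lit 2838) (nat_lit 493858305440582043680)) (.cons (.rf (nat_lit 2669) (nat_lit 6164517744835625378)) (.cons (.rf (nat_lit 2839) (nat_lit 493858305440582043680)) .nil))))) .nil)))))),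
 (.br (nat_lit 3) (nat_lit 0) (.cons (.ev (nat_lit 20441795592635555650993001660675) (nat_lit 2)) .nil)),
 (.br (nat_lit 13) (nat_lit 0) (.cons (.rf (nat_lit 2836) (nat_lit 493858305440582043680)) (.cons (.rf (nat_lit 2840) (nat_lit 493858305440582043680)) (.cons (.rf (nat_lit 2669) (nat_lit 6164517744835625378)) (.cons (.br (nat_lit 1) (nat_lit 0) (.cons (.rf (nat_lit 2669) (nat_lit 14242959524133701664)) (.cons (.br (nat_lit 1) (nat_lit 0) (.cons (.rf (nat_lit 2669) (nat_lit 14242959524133701664)) (.cons (.rf (nat_lit 2840) (nat_lit 43058005892254728610)) (.cons (.rf (nat_lit 2841) (nat_lit 493858305440582043680)) .nil)))) (.cons (.rf (nat_lit 2840) (nat_lit 43058005892254728610)) (.cons (.br (nat_lit 1) (nat_lit 0) (.cons (.ev (nat_lit 20361947255898122872057965379585) (nat_lit 1)) (.cons (.rf (nat_lit 2841) (nat_lit 493858305440582043680)) (.cons (.ev (nat_lit 20282720302309678147994067664896) (nat_lit 1)) .nil)))) .nil))))) .nil))))),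
 (.br (nat_lit 13) (nat_lit 0) (.cons (.rf (nat_lit 2836) (nat_lit 493858305440582043680)) (.cons (.rf (nat_lit 2840) (nat_lit 493858305440582043680)) (.cons (.rf (nat_lit 2669) (nat_lit 6164517744835625378)) (.cons (.rf (nat_lit 2842) (nat_lit 493858305440582043680)) (.cons (.br (nat_lit 13) (nat_lit 0) (.cons (.rf (nat_lit 2836) (nat_lit 493858305440582043680)) (.cons (.rf (nat_lit 2840) (nat_lit 493858305440582043680)) (.cons (.rf (nat_lit 2669) (nat_lit 6164517744835625378)) (.cons (.rf (nat_lit 2842) (nat_lit 493858305440582043680)) .nil))))) .nil)))))),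
 (.br (nat_lit 13) (nat_lit 0) (.cons (.rf (nat_lit 2836) (nat_lit 493858305440582043680)) (.cons (.rf (nat_lit 2840) (nat_lit 493858305440582043680)) (.cons (.rf (nat_lit 2843) (nat_lit 493858305440582043680)) (.cons (.rf (nat_lit 2669) (nat_lit 6164517744835625378)) (.cons (.br (nat_lit 13) (nat_lit 0) (.cons (.rf (nat_lit 2836) (nat_lit 493858305440582043680)) (.cons (.rf (nat_lit 2840) (nat_lit 493858305440582043680)) (.cons (.rf (nat_lit 2843) (nat_lit 493858305440582043680)) (.cons (.rf (nat_lit 2669) (nat_lit 6164517744835625378)) .nil))))) .nil)))))),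
 (.br (nat_lit 2) (nat_lit 0) (.cons (.rf (nat_lit 2161) (nat_lit 14242959524133701664)) (.cons (.rf (nat_lit 2669) (nat_lit 14242959524133700672)) (.cons (.rf (nat_lit 2797) (nat_lit 14242959524133701664)) (.cons (.rf (nat_lit 2830) (nat_lit 14242959524133701664)) (.cons (.br (nat_lit 13) (nat_lit 0) (.cons (.rf (nat_lit 2836) (nat_lit 493858305440582043680)) (.cons (.rf (nat_lit 2840) (nat_lit 493858305440582043680)) (.cons (.rf (nat_lit 2843) (nat_lit 493858305440582043680)) (.cons (.rf (nat_lit 2669) (nat_lit 6164517744835625378)) (.cons (.rf (nat_lit 2844) (nat_lit 493858305440582043680)) (.cons (.br (nat_lit 1) (nat_lit 0) (.cons (.rf (nat_lit 2669) (nat_lit 14242959524133701664)) (.cons (.rf (nat_lit 2843) (nat_lit 43058005892254728610)) (.cons (.rf (nat_lit 2840) (nat_lit 43058005892254728610)) (.cons (.rf (nat_lit 2844) (nat_lit 43058005892254728610)) (.cons (.rf (nat_lit 2836) (nat_lit 493858305440582043680)) .nil)))))) .nil))))))) .nil)))))),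
 (.br (nat_lit 2) (nat_lit 0) (.cons (.rf (nat_lit 2161) (nat_lit 14242959524133701664)) (.cons (.rf (nat_lit 2669) (nat_lit 14242959524133700672)) (.cons (.rf (nat_lit 2797) (nat_lit 14242959524133701664)) (.cons (.rf (nat_lit 2830) (nat_lit 14242959524133701664)) (.cons (.rf (nat_lit 2845) (nat_lit 14242959524133701664)) (.cons (.br (nat_lit 2) (nat_lit 0) (.cons (.rf (nat_lit 1943) (nat_lit 427010)) (.cons (.rf (nat_lit 2669) (nat_lit 14242959524133700672)) (.cons (.rf (nat_lit 2797) (nat_lit 14242959524133701664)) (.cons (.rf (nat_lit 2830) (nat_lit 14242959524133701664)) (.cons (.rf (nat_lit 2845) (nat_lit 14242959524133701664)) .nil)))))) .nil))))))),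
 (.br (nat_lit 1) (nat_lit 0) (.cons (.rf (nat_lit 2797) (nat_lit 14208022404722308097)) (.cons (.rf (nat_lit 2846) (nat_lit 14090929087143293953)) (.cons (.rf (nat_lit 2831) (nat_lit 493858305440582043680)) (.cons (.br (nat_lit 11) (nat_lit 0) (.cons (.br (nat_lit 10) (nat_lit 0) (.cons (.br (nat_lit 10) (nat_lit 0) (.cons (.ev (nat_lit 20361947251194202851782758039808) (nat_lit 1)) .nil)) (.cons (.ev (nat_lit 20361947255898122872057965379840) (nat_lit 1)) .nil))) (.cons (.rf (nat_lit 2832) (nat_lit 15431980264331511840)) (.cons (.rf (nat_lit 2669) (nat_lit 6132992408932417954)) .nil)))) .nil)))))]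

theorem c103 : chkAll C T R L103 (nat_lit 2826) = true := by decide +kernel

theorem l103 : (nat_lit 2826) + L103.length = (nat_lit 2848) := by decide +kernel

/-- part of the certificates -/
def L104 : List Prf := [(.br (nat_lit 13) (nat_lit 0) (.cons (.rf (nat_lit 2847) (nat_lit 493858305440582043680)) (.cons (.br (nat_lit 1) (nat_lit 0) (.cons (.rf (nat_lit 2669) (nat_lit 14242959524133701664)) (.cons (.rf (nat_lit 2669) (nat_lit 14208022404722295201)) (.cons (.rf (nat_lit 2669) (nat_lit 14090929087143281057)) (.cons (.rf (nat_lit 2797) (nat_lit 13951351549195564033)) (.cons (.br (nat_lit 3) (nat_lit 0) (.cons (.br (nat_lit 10) (nat_lit 0) (.cons (.zr (nat_lit 6044665991562392888344579) (nat_lit 40566057161510014188633760727552) (nat_lit 10) (nat_lit 0)) .nil)) (.cons (.br (nat_lit 7) (nat_lit 0) (.cons (.ev (nat_lit 81926252834886325304037827018766) (nat_lit 4)) .nil)) (.cons (.br (nat_lit 7) (nat_lit 0) (.cons (.zr (nat_lit 6044665991562392888344579) (nat_lit 40566057161510014188633760727552)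 (nat_lit 10) (nat_lit 0)) .nil)) .nil)))) .nil)))))) (.cons (.rf (nat_lit 2669) (nat_lit 6132992408932417954)) (.cons (.rf (nat_lit 2797) (nat_lit 6132992408932417954)) .nil))))),
 (.br (nat_lit 13) (nat_lit 0) (.cons (.rf (nat_lit 2847) (nat_lit 493858305440582043680)) (.cons (.rf (nat_lit 2848) (nat_lit 493858305440582043680)) (.cons (.br (nat_lit 13) (nat_lit 0) (.cons (.rf (nat_lit 2847) (nat_lit 493858305440582043680)) (.cons (.rf (nat_lit 2848) (nat_lit 493858305440582043680)) (.cons (.rf (nat_lit 2669) (nat_lit 6132992408932417954)) (.cons (.rf (nat_lit 2797) (nat_lit 6132992408932417954)) .nil))))) (.cons (.rf (nat_lit 2669) (nat_lit 6132992408932417954)) (.cons (.rf (nat_lit 2797) (nat_lit 6132992408932417954)) .nil)))))),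
 (.br (nat_lit 9) (nat_lit 0) (.cons (.ev (nat_lit 79228167236702878061522125056) (nat_lit 1)) .nil)),
 (.br (nat_lit 7) (nat_lit 0) (.cons (.ev (nat_lit 1213666705181745350705408) (nat_lit 1)) (.cons (.br (nat_lit 1) (nat_lit 0) (.cons (.ev (nat_lit 40883593607937351022550196422148) (nat_lit 3)) .nil)) (.cons (.ev (nat_lit 20361638979814192916637948116993) (nat_lit 1)) .nil)))),
 (.br (nat_lit 6) (nat_lit 0) (.cons (.ev (nat_lit 79538861172271780161088651521) (nat_lit 1)) .nil)),
 (.br (nat_lit 13) (nat_lit 0) (.cons (.rf (nat_lit 2849) (nat_lit 493858305440582043680)) (.cons (.br (nat_lit 1) (nat_lit 0) (.cons (.br (nat_lit 1) (nat_lit 0) (.cons (.ev (nat_lit 1213666705181745350705408) (nat_lit 1)) (.cons (.rf (nat_lit 2850) (nat_lit 15398168012926322720)) (.cons (.rf (nat_lit 2850) (nat_lit 15433070910038444064)) .nil)))) (.cons (.rf (nat_lit 2851) (nat_lit 493858305440582043680)) (.cons (.br (nat_lit 1) (nat_lit 0) (.cons (.rf (nat_lit 2850) (nat_lit 15398168012926322720)) (.cons (.rf (nat_lit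 2851) (nat_lit 493858305440582043680)) (.cons (.rf (nat_lit 2852) (nat_lit 15433072045018155040)) .nil)))) (.cons (.br (nat_lit 1) (nat_lit 0) (.cons (.rf (nat_lit 2850) (nat_lit 15433070910038444064)) (.cons (.rf (nat_lit 2851) (nat_lit 493858305440582043680)) (.cons (.rf (nat_lit 2852) (nat_lit 15433072045018155040)) .nil)))) .nil))))) (.cons (.rf (nat_lit 2669) (nat_lit 6132992408932417954)) (.cons (.rf (nat_lit 2797) (nat_lit 6132992408932417954)) .nil))))),
 (.br (nat_lit 13) (nat_lit 0) (.cons (.rf (nat_lit 2849) (nat_lit 493858305440582043680)) (.cons (.rf (nat_lit 2853) (nat_lit 493858305440582043680)) (.cons (.br (nat_lit 13) (nat_lit 0) (.cons (.rf (nat_lit 2849) (nat_lit 493858305440582043680)) (.cons (.rf (nat_lit 2853) (nat_lit 493858305440582043680)) (.cons (.rf (nat_lit 2669) (nat_lit 6132992408932417954)) (.cons (.rf (nat_lit 2797) (nat_lit 6132992408932417954)) .nil))))) (.cons (.rf (nat_lit 2669) (nat_lit 6132992408932417954)) (.cons (.rf (nat_lit 2797) (nat_lit 6132992408932417954))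 .nil)))))),
 (.br (nat_lit 13) (nat_lit 0) (.cons (.rf (nat_lit 2849) (nat_lit 493858305440582043680)) (.cons (.rf (nat_lit 2854) (nat_lit 493858305440582043680)) (.cons (.br (nat_lit 13) (nat_lit 0) (.cons (.rf (nat_lit 2849) (nat_lit 493858305440582043680)) (.cons (.rf (nat_lit 2854) (nat_lit 493858305440582043680)) (.cons (.rf (nat_lit 2669) (nat_lit 6132992408932417954)) (.cons (.rf (nat_lit 2797) (nat_lit 6132992408932417954)) .nil))))) (.cons (.rf (nat_lit 2669) (nat_lit 6132992408932417954)) (.cons (.rf (nat_lit 2797) (nat_lit 6132992408932417954)) .nil)))))),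
 (.br (nat_lit 2) (nat_lit 0) (.cons (.rf (nat_lit 2161) (nat_lit 14242959524133701664)) (.cons (.rf (nat_lit 2669) (nat_lit 14242959524133700672)) (.cons (.rf (nat_lit 2797) (nat_lit 14242959524133701664)) (.cons (.rf (nat_lit 2846) (nat_lit 14242959524133701664)) (.cons (.br (nat_lit 13) (nat_lit 0) (.cons (.rf (nat_lit 2849) (nat_lit 493858305440582043680)) (.cons (.rf (nat_lit 2854) (nat_lit 493858305440582043680)) (.cons (.rf (nat_lit 2855) (nat_lit 493858305440582043680)) (.cons (.br (nat_lit 13) (nat_lit 0) (.cons (.rf (nat_lit 2849) (nat_lit 493858305440582043680)) (.cons (.rf (nat_lit 2854) (nat_lit 493858305440582043680)) (.cons (.rf (nat_lit 2855) (nat_lit 493858305440582043680)) (.cons (.rf (nat_lit 2669) (nat_lit 6132992408932417954)) (.cons (.rf (nat_lit 2797) (nat_lit 6132992408932417954)) .nil)))))) (.cons (.rf (nat_lit 2669) (nat_lit 6132992408932417954)) (.cons (.rf (nat_lit 2797) (nat_lit 6132992408932417954)) .nil))))))) .nil)))))),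
 (.br (nat_lit 2) (nat_lit 0) (.cons (.rf (nat_lit 2161) (nat_lit 14242959524133701664)) (.cons (.rf (nat_lit 2669) (nat_lit 14242959524133700672)) (.cons (.rf (nat_lit 2797) (nat_lit 14242959524133701664)) (.cons (.rf (nat_lit 2846) (nat_lit 14242959524133701664)) (.cons (.rf (nat_lit 2856) (nat_lit 14242959524133701664)) (.cons (.br (nat_lit 2) (nat_lit 0) (.cons (.rf (nat_lit 1943) (nat_lit 427010)) (.cons (.rf (nat_lit 2669) (nat_lit 14242959524133700672)) (.cons (.rf (nat_lit 2797) (nat_lit 14242959524133701664)) (.cons (.rf (nat_lit 2846) (nat_lit 14242959524133701664)) (.cons (.rf (nat_lit 2856) (nat_lit 14242959524133701664)) .nil)))))) .nil))))))),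
 (.br (nat_lit 2) (nat_lit 0) (.cons (.rf (nat_lit 2161) (nat_lit 14242959524133701664)) (.cons (.rf (nat_lit 2669) (nat_lit 14242959524133700672)) (.cons (.rf (nat_lit 2797) (nat_lit 14242959524133701664)) (.cons (.rf (nat_lit 2846) (nat_lit 14242959524133701664)) (.cons (.rf (nat_lit 2857) (nat_lit 14242959524133701664)) (.cons (.br (nat_lit 2) (nat_lit 0) (.cons (.rf (nat_lit 1943) (nat_lit 427010)) (.cons (.rf (nat_lit 2669) (nat_lit 14242959524133700672)) (.cons (.rf (nat_lit 2797) (nat_lit 14242959524133701664)) (.cons (.rf (nat_lit 2846) (nat_lit 14242959524133701664)) (.cons (.rf (nat_lit 2857) (nat_lit 14242959524133701664)) .nil)))))) .nil))))))),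
 (.br (nat_lit 2) (nat_lit 0) (.cons (.rf (nat_lit 2161) (nat_lit 14242959524133701664)) (.cons (.rf (nat_lit 2669) (nat_lit 14242959524133700672)) (.cons (.rf (nat_lit 2797) (nat_lit 14242959524133701664)) (.cons (.rf (nat_lit 2846) (nat_lit 14242959524133701664)) (.cons (.rf (nat_lit 2857) (nat_lit 14242959524133701664)) (.cons (.rf (nat_lit 2858) (nat_lit 14242959524133701664)) (.cons (.br (nat_lit 2) (nat_lit 0) (.cons (.rf (nat_lit 1943) (nat_lit 427010)) (.cons (.rf (nat_lit 2669) (nat_lit 14242959524133700672)) (.cons (.rf (nat_lit 2797) (nat_lit 14242959524133701664)) (.cons (.rf (nat_lit 2846) (nat_lit 14242959524133701664)) (.cons (.rf (nat_lit 2857) (nat_lit 14242959524133701664)) (.cons (.rf (nat_lit 2858) (nat_lit 14242959524133701664)) .nil))))))) .nil)))))))),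
 (.br (nat_lit 5) (nat_lit 0) (.cons (.ev (nat_lit 79538856449905579865931841793) (nat_lit 1)) (.cons (.br (nat_lit 13) (nat_lit 0) (.cons (.ev (nat_lit 79229371458602754989977829633) (nat_lit 1)) .nil)) .nil))),
 (.br (nat_lit 3) (nat_lit 0) (.cons (.ev (nat_lit 79538861190718525338604863745) (nat_lit 1)) (.cons (.br (nat_lit 13) (nat_lit 0) (.cons (.zr (nat_lit 158765810056868821953625129728) (nat_lit 2427296373603472068575235) (nat_lit 15) (nat_lit 7)) .nil)) .nil))),
 (.br (nat_lit 9) (nat_lit 0) (.cons (.br (nat_lit 9) (nat_lit 0) .nil) .nil)),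
 (.br (nat_lit 3) (nat_lit 0) (.cons (.ev (nat_lit 79538856449905579865931841793) (nat_lit 1)) (.cons (.rf (nat_lit 2862) (nat_lit 470979911452704)) .nil))),
 (.br (nat_lit 5) (nat_lit 0) (.cons (.ev (nat_lit 310693954087986346097442816) (nat_lit 1)) (.cons (.ev (nat_lit 1208925891954801996005633) (nat_lit 1)) .nil))),
 (.br (nat_lit 13) (nat_lit 0) (.cons (.ev (nat_lit 1208925891954801996005633) (nat_lit 1)) (.cons (.rf (nat_lit 2864) (nat_lit 493858305440582043680)) (.cons (.br (nat_lit 13) (nat_lit 0) (.cons (.ev (nat_lit 1208925891954801996005633) (nat_lit 1)) (.cons (.rf (nat_lit 2864) (nat_lit 493858305440582043680)) .nil))) .nil)))),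
 (.br (nat_lit 13) (nat_lit 0) (.cons (.rf (nat_lit 2865) (nat_lit 493858305440582043680)) (.cons (.ev (nat_lit 1208925891954801996005633) (nat_lit 1)) (.cons (.br (nat_lit 13) (nat_lit 0) (.cons (.rf (nat_lit 2865) (nat_lit 493858305440582043680)) (.cons (.ev (nat_lit 1208925891954801996005633) (nat_lit 1)) .nil))) .nil)))),
 (.br (nat_lit 2) (nat_lit 0) (.cons (.rf (nat_lit 2669) (nat_lit 14242959524133700672)) (.cons (.ev (nat_lit 1213666705181745350770688) (nat_lit 1)) (.cons (.br (nat_lit 12) (nat_lit 0) (.cons (.rf (nat_lit 2860) (nat_lit 14242959524133701664)) (.cons (.rf (nat_lit 2861) (nat_lit 14242959524133701664)) (.cons (.br (nat_lit 12) (nat_lit 0) (.cons (.rf (nat_lit 2860) (nat_lit 14242959524133701664)) (.cons (.rf (nat_lit 2861) (nat_lit 14242959524133701664)) .nil))) .nil)))) (.cons (.br (nat_lit 5) (nat_lit 0) (.cons (.br (nat_lit 11) (nat_lit 0) (.cons (.ev (nat_lit 311902917016981542224790275) (nat_lit 2)) (.cons (.br (nat_lit 13) (nat_lit 0) (.cons (.ev (nat_lit 318153012688795474935811277312)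 (nat_lit 3)) .nil)) .nil))) (.cons (.rf (nat_lit 2863) (nat_lit 14242959524133701664)) (.cons (.ev (nat_lit 1208925891954801996005633) (nat_lit 1)) (.cons (.br (nat_lit 3) (nat_lit 0) (.cons (.rf (nat_lit 2862) (nat_lit 470979909421088)) (.cons (.rf (nat_lit 2862) (nat_lit 469914757530688)) (.cons (.br (nat_lit 13) (nat_lit 0) (.cons (.ev (nat_lit 310693954087986346097442816) (nat_lit 1)) (.cons (.br (nat_lit 11) (nat_lit 0) (.cons (.ev (nat_lit 310693954087986346097442816) (nat_lit 1)) .nil)) .nil))) .nil)))) .nil))))) (.cons (.br (nat_lit 13) (nat_lit 0) (.cons (.rf (nat_lit 2865) (nat_lit 493858305440582043680)) (.cons (.ev (nat_lit 1208925891954801996005633) (nat_lit 1)) (.cons (.rf (nat_lit 2866) (nat_lit 493858305440582043680)) (.cons (.br (nat_lit 13) (nat_lit 0) (.cons (.rf (nat_lit 2865) (nat_lit 493858305440582043680)) (.cons (.ev (nat_lit 1208925891954801996005633) (nat_lit 1)) (.cons (.rf (nat_lit 2866) (nat_lit 493858305440582043680)) .nil)))) .nil))))) .nil)))))),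
 (.br (nat_lit 9) (nat_lit 0) (.cons (.br (nat_lit 9) (nat_lit 0) .nil) .nil)),
 (.br (nat_lit 3) (nat_lit 0) (.cons (.ev (nat_lit 79229371458602754989977829633) (nat_lit 1)) (.cons (.rf (nat_lit 2868) (nat_lit 470979911452704)) .nil))),
 (.br (nat_lit 4) (nat_lit 0) (.cons (.rf (nat_lit 2862) (nat_lit 432496969876544)) (.cons (.br (nat_lit 11) (nat_lit 0) (.cons (.ev (nat_lit 79229376162522492686401798401) (nat_lit 1)) .nil)) .nil))),
 (.br (nat_lit 12) (nat_lit 0) (.cons (.rf (nat_lit 2870) (nat_lit 14242959524133701664)) (.cons (.rf (nat_lit 2870) (nat_lit 14242959524132685856)) (.cons (.br (nat_lit 12) (nat_lit 0) (.cons (.rf (nat_lit 2870) (nat_lit 14242959524133701664)) (.cons (.rf (nat_lit 2870) (nat_lit 14242959524132685856)) .nil))) .nil)))),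
 (.br (nat_lit 8) (nat_lit 0) (.cons (.br (nat_lit 8) (nat_lit 0) .nil) .nil)),
 (.br (nat_lit 10) (nat_lit 0) (.cons (.rf (nat_lit 2872) (nat_lit 362021891704864)) (.cons (.br (nat_lit 10) (nat_lit 0) (.cons (.rf (nat_lit 2872) (nat_lit 362021891704864)) .nil)) .nil))),
 (.br (nat_lit 10) (nat_lit 0) (.cons (.ev (nat_lit 79538856449905298395250098176) (nat_lit 1)) (.cons (.br (nat_lit 12) (nat_lit 0) (.cons (.ev (nat_lit 202985647216568873129556937671680) (nat_lit 4)) .nil)) .nil))),
 (.br (nat_lit 5) (nat_lit 0) (.cons (.ev (nat_lit 81395799639403311956989773319) (nat_lit 3)) (.cons (.rf (nat_lit 2874) (nat_lit 493858305440582043680)) .nil))),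
 (.br (nat_lit 11) (nat_lit 0) (.cons (.ev (nat_lit 79229376180897179166073421824) (nat_lit 1)) .nil)),
 (.br (nat_lit 13) (nat_lit 0) (.cons (.rf (nat_lit 2876) (nat_lit 15433072045018155040)) (.cons (.br (nat_lit 10) (nat_lit 0) (.cons (.ev (nat_lit 20282720302309677866514795986944) (nat_lit 1)) .nil)) .nil))),
 (.br (nat_lit 5) (nat_lit 0) (.cons (.rf (nat_lit 2877) (nat_lit 493858305440582043680)) (.cons (.br (nat_lit 12) (nat_lit 0) (.cons (.ev (nat_lit 284114062198099394424481031785476) (nat_lit 4)) .nil)) .nil))),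
 (.br (nat_lit 2) (nat_lit 0) (.cons (.rf (nat_lit 2669) (nat_lit 14242959524133700672)) (.cons (.rf (nat_lit 2859) (nat_lit 14242959524133700672)) (.cons (.rf (nat_lit 2867) (nat_lit 14242959524133701664)) (.cons (.br (nat_lit 10) (nat_lit 0) (.cons (.ev (nat_lit 309485009821626543718268929) (nat_lit 1)) (.cons (.rf (nat_lit 2863) (nat_lit 14208022542161119264)) (.cons (.rf (nat_lit 2869) (nat_lit 14242959524133701664)) (.cons (.rf (nat_lit 2871) (nat_lit 15433072045018155040)) .nil))))) (.cons (.br (nat_lit 3) (nat_lit 0) (.cons (.rf (nat_lit 2873) (nat_lit 15071358309468192)) (.cons (.ev (nat_lit 309485009821626543718268929) (nat_lit 1)) (.cons (.br (nat_lit 13) (nat_lit 0) (.cons (.rf (nat_lit 2874) (nat_lit 493858305440582043680)) (.cons (.rf (nat_lit 2875) (nat_lit 493858305440582043680)) (.cons (.br (nat_lit 13) (nat_lit 0) (.cons (.rf (nat_lit 2874) (nat_lit 493858305440582043680)) (.cons (.rf (nat_lit 2875) (nat_lit 493858305440582043680)) .nil))) .nil)))) (.cons (.br (nat_lit 12) (nat_lit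 0) (.cons (.rf (nat_lit 2877) (nat_lit 493858305440582043680)) (.cons (.rf (nat_lit 2878) (nat_lit 493858305440582043680)) (.cons (.br (nat_lit 12) (nat_lit 0) (.cons (.rf (nat_lit 2877) (nat_lit 493858305440582043680)) (.cons (.rf (nat_lit 2878) (nat_lit 493858305440582043680)) .nil))) .nil)))) .nil))))) .nil)))))),
 (.br (nat_lit 12) (nat_lit 0) (.cons (.br (nat_lit 13) (nat_lit 0) (.cons (.br (nat_lit 11) (nat_lit 0) (.cons (.zr (nat_lit 792281625142643376008454147840) (nat_lit 310712898968745312698499084) (nat_lit 30) (nat_lit 7)) .nil)) (.cons (.br (nat_lit 10) (nat_lit 0) (.cons (.zr (nat_lit 792281625142643376008454147840) (nat_lit 310712898968745312698499084) (nat_lit 30) (nat_lit 7)) .nil)) .nil))) (.cons (.br (nat_lit 13) (nat_lit 0) (.cons (.br (nat_lit 11) (nat_lit 0) (.cons (.ev (nat_lit 202984423783492713867786073278472) (nat_lit 4)) .nil)) (.cons (.br (nat_lit 5) (nat_lit 0) (.cons (.ev (nat_lit 202984423783492713867786073278472) (nat_lit 4)) .nil)) .nil))) (.cons (.ev (nat_lit 158765810093906988213337195265)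 (nat_lit 2)) (.cons (.rf (nat_lit 2859) (nat_lit 5885226501296849314)) .nil)))))]

theorem c104 : chkAll C T R L104 (nat_lit 2848) = true := by decide +kernel

theorem l104 : (nat_lit 2848) + L104.length = (nat_lit 2881) := by decide +kernel

/-- part of the certificates -/
def L105 : List Prf := [(.br (nat_lit 12) (nat_lit 0) (.cons (.br (nat_lit 11) (nat_lit 0) (.cons (.ev (nat_lit 41361438463212476512310322399232) (nat_lit 4)) .nil)) (.cons (.ev (nat_lit 158768227908652731523257074435) (nat_lit 2)) (.cons (.rf (nat_lit 2859) (nat_lit 5885226501296849314)) .nil)))),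
 (.br (nat_lit 13) (nat_lit 0) (.cons (.rf (nat_lit 2880) (nat_lit 493858305440582043680)) (.cons (.rf (nat_lit 2881) (nat_lit 493858305440582043680)) (.cons (.br (nat_lit 13) (nat_lit 0) (.cons (.rf (nat_lit 2880) (nat_lit 493858305440582043680)) (.cons (.rf (nat_lit 2881) (nat_lit 493858305440582043680)) (.cons (.rf (nat_lit 2859) (nat_lit 5885226501296849314)) .nil)))) (.cons (.rf (nat_lit 2859) (nat_lit 5885226501296849314)) .nil))))),
 (.br (nat_lit 13) (nat_lit 0) (.cons (.rf (nat_lit 2880) (nat_lit 493858305440582043680)) (.cons (.rf (nat_lit 2882) (nat_lit 493858305440582043680)) (.cons (.br (nat_lit 13) (nat_lit 0) (.cons (.rf (nat_lit 2880) (nat_lit 493858305440582043680)) (.cons (.rf (nat_lit 2882) (nat_lit 493858305440582043680)) (.cons (.ev (nat_lit 20361948460101575721238694723584) (nat_lit 1)) .nil)))) (.cons (.rf (nat_lit 2859) (nat_lit 5885226501296849314)) .nil))))),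
 (.br (nat_lit 2) (nat_lit 0) (.cons (.rf (nat_lit 2669) (nat_lit 14242959524133700672)) (.cons (.rf (nat_lit 2859) (nat_lit 14242959524133700672)) (.cons (.rf (nat_lit 2867) (nat_lit 14242959524133701664)) (.cons (.rf (nat_lit 2879) (nat_lit 14242959524133701664)) (.cons (.br (nat_lit 13) (nat_lit 0) (.cons (.rf (nat_lit 2880) (nat_lit 493858305440582043680)) (.cons (.rf (nat_lit 2882) (nat_lit 493858305440582043680)) (.cons (.rf (nat_lit 2883) (nat_lit 493858305440582043680)) (.cons (.br (nat_lit 13) (nat_lit 0) (.cons (.rf (nat_lit 2880) (nat_lit 493858305440582043680)) (.cons (.rf (nat_lit 2882) (nat_lit 493858305440582043680)) (.cons (.rf (nat_lit 2883) (nat_lit 493858305440582043680)) (.cons (.rf (nat_lit 2859) (nat_lit 5885226501296849314)) .nil))))) (.cons (.rf (nat_lit 2859) (nat_lit 5885226501296849314)) .nil)))))) .nil)))))),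
 (.br (nat_lit 2) (nat_lit 0) (.cons (.rf (nat_lit 2669) (nat_lit 14242959524133700672)) (.cons (.rf (nat_lit 2859) (nat_lit 14242959524133700672)) (.cons (.rf (nat_lit 2867) (nat_lit 14242959524133701664)) (.cons (.rf (nat_lit 2879) (nat_lit 14242959524133701664)) (.cons (.rf (nat_lit 2884) (nat_lit 14242959524133701664)) (.cons (.br (nat_lit 2) (nat_lit 0) (.cons (.rf (nat_lit 2669) (nat_lit 14242959524133700672)) (.cons (.rf (nat_lit 2859) (nat_lit 14242959524133700672)) (.cons (.rf (nat_lit 2867) (nat_lit 14242959524133701664)) (.cons (.rf (nat_lit 2879) (nat_lit 14242959524133701664)) (.cons (.rf (nat_lit 2884) (nat_lit 14242959524133701664)) .nil)))))) .nil))))))),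
 (.br (nat_lit 4) (nat_lit 0) (.cons (.rf (nat_lit 2862) (nat_lit 429198535656512)) (.cons (.br (nat_lit 11) (nat_lit 0) (.cons (.ev (nat_lit 79538861172271780161088651521) (nat_lit 1)) .nil)) .nil))),
 (.br (nat_lit 12) (nat_lit 0) (.cons (.rf (nat_lit 2886) (nat_lit 14242959524133701664)) (.cons (.rf (nat_lit 2886) (nat_lit 14242959524132685856)) (.cons (.br (nat_lit 12) (nat_lit 0) (.cons (.rf (nat_lit 2886) (nat_lit 14242959524133701664)) (.cons (.rf (nat_lit 2886) (nat_lit 14242959524132685856)) .nil))) .nil)))),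
 (.br (nat_lit 8) (nat_lit 0) (.cons (.br (nat_lit 8) (nat_lit 0) .nil) .nil)),
 (.br (nat_lit 10) (nat_lit 0) (.cons (.rf (nat_lit 2888) (nat_lit 362021891704864)) (.cons (.br (nat_lit 10) (nat_lit 0) (.cons (.rf (nat_lit 2888) (nat_lit 362021891704864)) .nil)) .nil))),
 (.br (nat_lit 9) (nat_lit 0) (.cons (.br (nat_lit 9) (nat_lit 0) .nil) .nil)),
 (.br (nat_lit 11) (nat_lit 0) (.cons (.br (nat_lit 11) (nat_lit 0) (.cons (.ev (nat_lit 79538861172271780161088651521) (nat_lit 1)) .nil)) (.cons (.br (nat_lit 4) (nat_lit 0) (.cons (.ev (nat_lit 79538861172271780161088651521) (nat_lit 1)) .nil)) .nil))),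
 (.br (nat_lit 2) (nat_lit 0) (.cons (.rf (nat_lit 2669) (nat_lit 14242959524133700672)) (.cons (.rf (nat_lit 2859) (nat_lit 14242959524133700672)) (.cons (.rf (nat_lit 2885) (nat_lit 14242959524133701664)) (.cons (.br (nat_lit 7) (nat_lit 0) (.cons (.br (nat_lit 5) (nat_lit 0) (.cons (.ev (nat_lit 79537647542532426740290027776) (nat_lit 1)) (.cons (.rf (nat_lit 2862) (nat_lit 470843644872736)) .nil))) (.cons (.br (nat_lit 3) (nat_lit 0) (.cons (.ev (nat_lit 79538861190718806809286606848) (nat_lit 1)) (.cons (.rf (nat_lit 2862) (nat_lit 470843646904352)) .nil))) (.cons (.rf (nat_lit 2869) (nat_lit 14239581925347002400)) (.cons (.rf (nat_lit 2887) (nat_lit 15433072045018155040)) .nil))))) (.cons (.br (nat_lit 3) (nat_lit 0) (.cons (.rf (nat_lit 2873) (nat_lit 15071255330916384)) (.cons (.rf (nat_lit 2889) (nat_lit 15071358309468192)) (.cons (.br (nat_lit 5) (nat_lit 0) (.cons (.rf (nat_lit 2889) (nat_lit 15071358307436576)) (.cons (.rf (nat_lit 2890) (nat_lit 470979911452704)) (.cons (.zr (nat_lit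 36894052196884152323) (nat_lit 2417851639229262677999872) (nat_lit 5) (nat_lit 5)) .nil)))) (.cons (.br (nat_lit 7) (nat_lit 0) (.cons (.rf (nat_lit 2888) (nat_lit 470979909421088)) (.cons (.ev (nat_lit 309485028484824878830191361) (nat_lit 2)) (.cons (.rf (nat_lit 2891) (nat_lit 15433072045018155040)) .nil)))) .nil))))) .nil)))))),
 (.br (nat_lit 13) (nat_lit 0) (.cons (.rf (nat_lit 2891) (nat_lit 1554980238436663714)) (.cons (.br (nat_lit 5) (nat_lit 0) (.cons (.zr (nat_lit 52093605827127202217999) (nat_lit 1347189456678206761879759490048) (nat_lit 30) (nat_lit 3)) .nil)) (.cons (.rf (nat_lit 2788) (nat_lit 1345703389505585570)) .nil)))),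
 (.br (nat_lit 13) (nat_lit 0) (.cons (.br (nat_lit 7) (nat_lit 0) (.cons (.ev (nat_lit 310693954087986346097442816) (nat_lit 1)) (.cons (.br (nat_lit 11) (nat_lit 0) (.cons (.ev (nat_lit 79537647542532708210971770881) (nat_lit 1)) .nil)) (.cons (.rf (nat_lit 2891) (nat_lit 1554980238436663714)) .nil)))) (.cons (.rf (nat_lit 2893) (nat_lit 493858305440582043680)) (.cons (.br (nat_lit 7) (nat_lit 0) (.cons (.ev (nat_lit 310698658007443671351361536) (nat_lit 1)) (.cons (.ev (nat_lit 79537647542532708210971770881) (nat_lit 1)) (.cons (.rf (nat_lit 2893) (nat_lit 493858305440582043680)) .nil)))) (.cons (.rf (nat_lit 2859) (nat_lit 6164517744835625378)) .nil))))),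
 (.br (nat_lit 13) (nat_lit 0) (.cons (.rf (nat_lit 2894) (nat_lit 493858305440582043680)) (.cons (.br (nat_lit 13) (nat_lit 0) (.cons (.rf (nat_lit 2891) (nat_lit 1554980238436663714)) (.cons (.ev (nat_lit 20282410817318375323118113652736) (nat_lit 1)) (.cons (.rf (nat_lit 2788) (nat_lit 1273645864187134370)) .nil)))) (.cons (.br (nat_lit 13) (nat_lit 0) (.cons (.rf (nat_lit 2894) (nat_lit 493858305440582043680)) (.cons (.ev (nat_lit 20282410817318375323118113652736) (nat_lit 1)) (.cons (.rf (nat_lit 2859) (nat_lit 6164517744835625378)) .nil)))) (.cons (.rf (nat_lit 2859) (nat_lit 6164517744835625378)) .nil))))),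
 (.br (nat_lit 13) (nat_lit 0) (.cons (.rf (nat_lit 2894) (nat_lit 493858305440582043680)) (.cons (.rf (nat_lit 2895) (nat_lit 493858305440582043680)) (.cons (.br (nat_lit 13) (nat_lit 0) (.cons (.rf (nat_lit 2894) (nat_lit 493858305440582043680)) (.cons (.ev (nat_lit 20282410817318375323118113652736) (nat_lit 1)) (.cons (.ev (nat_lit 20282720297605758127718860324864) (nat_lit 1)) .nil)))) (.cons (.rf (nat_lit 2859) (nat_lit 6164517744835625378)) .nil))))),
 (.br (nat_lit 2) (nat_lit 0) (.cons (.rf (nat_lit 2669) (nat_lit 14242959524133700672)) (.cons (.rf (nat_lit 2859) (nat_lit 14242959524133700672)) (.cons (.rf (nat_lit 2885) (nat_lit 14242959524133701664)) (.cons (.rf (nat_lit 2892) (nat_lit 14242959524133701664)) (.cons (.br (nat_lit 13) (nat_lit 0) (.cons (.rf (nat_lit 2894) (nat_lit 493858305440582043680)) (.cons (.rf (nat_lit 2895) (nat_lit 493858305440582043680)) (.cons (.rf (nat_lit 2896) (nat_lit 493858305440582043680)) (.cons (.br (nat_lit 13) (nat_lit 0) (.cons (.rf (nat_lit 2894)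 (nat_lit 493858305440582043680)) (.cons (.rf (nat_lit 2895) (nat_lit 493858305440582043680)) (.cons (.rf (nat_lit 2896) (nat_lit 493858305440582043680)) (.cons (.rf (nat_lit 2859) (nat_lit 6164517744835625378)) .nil))))) (.cons (.rf (nat_lit 2859) (nat_lit 6164517744835625378)) .nil)))))) .nil)))))),
 (.br (nat_lit 2) (nat_lit 0) (.cons (.rf (nat_lit 2669) (nat_lit 14242959524133700672)) (.cons (.rf (nat_lit 2859) (nat_lit 14242959524133700672)) (.cons (.rf (nat_lit 2885) (nat_lit 14242959524133701664)) (.cons (.rf (nat_lit 2892) (nat_lit 14242959524133701664)) (.cons (.rf (nat_lit 2897) (nat_lit 14242959524133701664)) (.cons (.br (nat_lit 2) (nat_lit 0) (.cons (.rf (nat_lit 2669) (nat_lit 14242959524133700672)) (.cons (.rf (nat_lit 2859) (nat_lit 14242959524133700672)) (.cons (.rf (nat_lit 2885) (nat_lit 14242959524133701664)) (.cons (.rf (nat_lit 2892) (nat_lit 14242959524133701664)) (.cons (.rf (nat_lit 2897) (nat_lit 14242959524133701664)) .nil)))))) .nil))))))),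
 (.br (nat_lit 12) (nat_lit 0) (.cons (.br (nat_lit 10) (nat_lit 0) (.cons (.ev (nat_lit 316919908353076779172829200390) (nat_lit 3)) .nil)) (.cons (.br (nat_lit 7) (nat_lit 0) (.cons (.ev (nat_lit 41360195687322050477375868767240) (nat_lit 4)) .nil)) (.cons (.rf (nat_lit 2395) (nat_lit 1416566910662082978)) .nil)))),
 (.br (nat_lit 13) (nat_lit 0) (.cons (.rf (nat_lit 2899) (nat_lit 493858305440582043680)) (.cons (.br (nat_lit 13) (nat_lit 0) (.cons (.rf (nat_lit 2899) (nat_lit 493858305440582043680)) (.cons (.rf (nat_lit 2885) (nat_lit 6132992408932417954)) (.cons (.rf (nat_lit 2788) (nat_lit 1344577488526082466)) .nil)))) (.cons (.br (nat_lit 13) (nat_lit 0) (.cons (.rf (nat_lit 2899) (nat_lit 493858305440582043680)) (.cons (.rf (nat_lit 2885) (nat_lit 6132992408932417954)) (.cons (.ev (nat_lit 20282720302309677866514795986944) (nat_lit 1)) .nil)))) (.cons (.rf (nat_lit 2859) (nat_lit 6132992408932417954)) .nil))))),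
 (.br (nat_lit 3) (nat_lit 0) (.cons (.ev (nat_lit 310698658007725142033104896) (nat_lit 1)) (.cons (.br (nat_lit 10) (nat_lit 0) (.cons (.ev (nat_lit 41360205358876183607560356105216) (nat_lit 4)) .nil)) (.cons (.rf (nat_lit 2900) (nat_lit 493858305440582043680)) .nil)))),
 (.br (nat_lit 13) (nat_lit 0) (.cons (.rf (nat_lit 2900) (nat_lit 493858305440582043680)) (.cons (.rf (nat_lit 2901) (nat_lit 493858305440582043680)) (.cons (.br (nat_lit 13) (nat_lit 0) (.cons (.rf (nat_lit 2900) (nat_lit 493858305440582043680)) (.cons (.rf (nat_lit 2901) (nat_lit 493858305440582043680)) (.cons (.rf (nat_lit 2859) (nat_lit 6132992408932417954)) .nil)))) (.cons (.rf (nat_lit 2859) (nat_lit 6132992408932417954)) .nil))))),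
 (.br (nat_lit 13) (nat_lit 0) (.cons (.rf (nat_lit 2900) (nat_lit 493858305440582043680)) (.cons (.rf (nat_lit 2902) (nat_lit 493858305440582043680)) (.cons (.br (nat_lit 13) (nat_lit 0) (.cons (.rf (nat_lit 2885) (nat_lit 6132992408932417954)) (.cons (.rf (nat_lit 2902) (nat_lit 493858305440582043680)) (.cons (.rf (nat_lit 2859) (nat_lit 6132992408932417954)) .nil)))) (.cons (.rf (nat_lit 2859) (nat_lit 6132992408932417954)) .nil))))),
 (.br (nat_lit 2) (nat_lit 0) (.cons (.rf (nat_lit 2669) (nat_lit 14242959524133700672)) (.cons (.rf (nat_lit 2859) (nat_lit 14242959524133700672)) (.cons (.rf (nat_lit 2885) (nat_lit 14242959524133701664)) (.cons (.rf (nat_lit 2898) (nat_lit 14242959524133701664)) (.cons (.br (nat_lit 13) (nat_lit 0) (.cons (.rf (nat_lit 2900) (nat_lit 493858305440582043680)) (.cons (.rf (nat_lit 2902) (nat_lit 493858305440582043680)) (.cons (.rf (nat_lit 2903) (nat_lit 493858305440582043680)) (.cons (.br (nat_lit 13) (nat_lit 0) (.cons (.rf (nat_lit 2900) (nat_lit 493858305440582043680))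 (.cons (.rf (nat_lit 2902) (nat_lit 493858305440582043680)) (.cons (.rf (nat_lit 2903) (nat_lit 493858305440582043680)) (.cons (.rf (nat_lit 2859) (nat_lit 6132992408932417954)) .nil))))) (.cons (.rf (nat_lit 2859) (nat_lit 6132992408932417954)) .nil)))))) .nil)))))),
 (.br (nat_lit 2) (nat_lit 0) (.cons (.rf (nat_lit 2669) (nat_lit 14242959524133700672)) (.cons (.rf (nat_lit 2859) (nat_lit 14242959524133700672)) (.cons (.rf (nat_lit 2885) (nat_lit 14242959524133701664)) (.cons (.rf (nat_lit 2898) (nat_lit 14242959524133701664)) (.cons (.rf (nat_lit 2904) (nat_lit 14242959524133701664)) (.cons (.br (nat_lit 2) (nat_lit 0) (.cons (.rf (nat_lit 2669) (nat_lit 14242959524133700672)) (.cons (.rf (nat_lit 2859) (nat_lit 14242959524133700672)) (.cons (.rf (nat_lit 2885) (nat_lit 14242959524133701664)) (.cons (.rf (nat_lit 2898) (nat_lit 14242959524133701664)) (.cons (.rf (nat_lit 2904) (nat_lit 14242959524133701664)) .nil)))))) .nil))))))),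
 (.br (nat_lit 2) (nat_lit 0) (.cons (.rf (nat_lit 2669) (nat_lit 14242959524133700672)) (.cons (.rf (nat_lit 2859) (nat_lit 14242959524133700672)) (.cons (.rf (nat_lit 2885) (nat_lit 14242959524133701664)) (.cons (.rf (nat_lit 2898) (nat_lit 14242959524133701664)) (.cons (.rf (nat_lit 2905) (nat_lit 14242959524133701664)) (.cons (.br (nat_lit 2) (nat_lit 0) (.cons (.rf (nat_lit 2669) (nat_lit 14242959524133700672)) (.cons (.rf (nat_lit 2859) (nat_lit 14242959524133700672)) (.cons (.rf (nat_lit 2885) (nat_lit 14242959524133701664)) (.cons (.rf (nat_lit 2898) (nat_lit 14242959524133701664)) (.cons (.rf (nat_lit 2905) (nat_lit 14242959524133701664)) .nil)))))) .nil))))))),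
 (.br (nat_lit 2) (nat_lit 0) (.cons (.rf (nat_lit 2669) (nat_lit 14242959524133700672)) (.cons (.rf (nat_lit 2859) (nat_lit 14242959524133700672)) (.cons (.rf (nat_lit 2885) (nat_lit 14242959524133701664)) (.cons (.rf (nat_lit 2898) (nat_lit 14242959524133701664)) (.cons (.rf (nat_lit 2905) (nat_lit 14242959524133701664)) (.cons (.rf (nat_lit 2906) (nat_lit 14242959524133701664)) (.cons (.br (nat_lit 2) (nat_lit 0) (.cons (.rf (nat_lit 2669) (nat_lit 14242959524133700672)) (.cons (.rf (nat_lit 2859) (nat_lit 14242959524133700672)) (.cons (.rf (nat_lit 2885) (nat_lit 14242959524133701664)) (.cons (.rf (nat_lit 2898) (nat_lit 14242959524133701664)) (.cons (.rf (nat_lit 2905) (nat_lit 14242959524133701664)) (.cons (.rf (nat_lit 2906) (nat_lit 14242959524133701664)) .nil))))))) .nil)))))))),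
 (.br (nat_lit 11) (nat_lit 0) (.cons (.br (nat_lit 11) (nat_lit 0) .nil) .nil))]

theorem c105 : chkAll C T R L105 (nat_lit 2881) = true := by decide +kernel

theorem l105 : (nat_lit 2881) + L105.length = (nat_lit 2909) := by decide +kernel

/-- part of the certificates -/
def L106 : List Prf := [(.br (nat_lit 2) (nat_lit 0) (.cons (.rf (nat_lit 2669) (nat_lit 14242959524133700672)) (.cons (.ev (nat_lit 1213666705181745350770688) (nat_lit 1)) (.cons (.rf (nat_lit 2907) (nat_lit 14242959524133700672)) (.cons (.br (nat_lit 5) (nat_lit 0) (.cons (.ev (nat_lit 79229371458602754989977763841) (nat_lit 1)) (.cons (.ev (nat_lit 1208925891954801996005633) (nat_lit 1)) (.cons (.br (nat_lit 13) (nat_lit 0) (.cons (.rf (nat_lit 2908) (nat_lit 493858305440582043680)) (.cons (.br (nat_lit 13) (nat_lit 0) (.cons (.rf (nat_lit 2908) (nat_lit 493858305440582043680)) .nil)) .nil))) .nil)))) (.cons (.br (nat_lit 3) (nat_lit 0) (.cons (.rf (nat_lit 2873) (nat_lit 15035140997744672)) (.cons (.br (nat_lit 5) (nat_lit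 0) (.cons (.rf (nat_lit 2890) (nat_lit 469842986633248)) (.cons (.rf (nat_lit 2889) (nat_lit 15034969364793376)) (.cons (.br (nat_lit 11) (nat_lit 0) (.cons (.ev (nat_lit 79538856449905298395250098176) (nat_lit 1)) (.cons (.br (nat_lit 12) (nat_lit 0) (.cons (.ev (nat_lit 81131497747295101798292578893828) (nat_lit 3)) .nil)) .nil))) .nil)))) (.cons (.rf (nat_lit 2889) (nat_lit 15034969366824992)) (.cons (.br (nat_lit 5) (nat_lit 0) (.cons (.br (nat_lit 11) (nat_lit 0) (.cons (.ev (nat_lit 310698658007725142033039361) (nat_lit 1)) (.cons (.br (nat_lit 12) (nat_lit 0) (.cons (.ev (nat_lit 162734653062779725642934102787590) (nat_lit 4)) .nil)) .nil))) (.cons (.rf (nat_lit 2888) (nat_lit 469842984601632)) (.cons (.br (nat_lit 12) (nat_lit 0) (.cons (.br (nat_lit 11) (nat_lit 0) (.cons (.ev (nat_lit 41041430962946091766537622126598) (nat_lit 3)) .nil)) (.cons (.ev (nat_lit 20282409603670189226718822203393) (nat_lit 1)) .nil))) .nil)))) .nil))))) .nil)))))),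
 (.br (nat_lit 5) (nat_lit 0) (.cons (.br (nat_lit 13) (nat_lit 0) (.cons (.br (nat_lit 12) (nat_lit 0) (.cons (.ev (nat_lit 20283340476551292493378057404931) (nat_lit 2)) .nil)) (.cons (.br (nat_lit 11) (nat_lit 0) (.cons (.ev (nat_lit 20283340476551292493378057404931) (nat_lit 2)) .nil)) .nil))) (.cons (.ev (nat_lit 309485009821345073036591104) (nat_lit 1)) (.cons (.br (nat_lit 13) (nat_lit 0) (.cons (.ev (nat_lit 158463583361443280957250469892) (nat_lit 3)) (.cons (.br (nat_lit 10) (nat_lit 0) (.cons (.ev (nat_lit 158463583361443280957250469892) (nat_lit 3)) .nil)) .nil))) (.cons (.br (nat_lit 13) (nat_lit 0) (.cons (.ev (nat_lit 20282410817318375604588795396096) (nat_lit 1)) (.cons (.ev (nat_lit 20282719093402305278538130915328) (nat_lit 1)) (.cons (.zr (nat_lit 237684487542793294259903529217) (nat_lit 20282409608410930397163338858496) (nat_lit 5) (nat_lit 1)) .nil)))) .nil))))),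
 (.br (nat_lit 3) (nat_lit 0) (.cons (.ev (nat_lit 626228352700285204371080192) (nat_lit 3)) (.cons (.ev (nat_lit 79229371458602754989977763841) (nat_lit 1)) (.cons (.ev (nat_lit 20282410817318375604588795396096) (nat_lit 1)) .nil)))),
 (.br (nat_lit 13) (nat_lit 0) (.cons (.ev (nat_lit 20282719093402305278538130915328) (nat_lit 1)) (.cons (.rf (nat_lit 2911) (nat_lit 493858305440582043680)) (.cons (.br (nat_lit 3) (nat_lit 0) (.cons (.ev (nat_lit 79229376162522775265185103873) (nat_lit 1)) .nil)) .nil)))),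
 (.br (nat_lit 13) (nat_lit 0) (.cons (.rf (nat_lit 2910) (nat_lit 493858305440582043680)) (.cons (.rf (nat_lit 2911) (nat_lit 493858305440582043680)) (.cons (.rf (nat_lit 2912) (nat_lit 493858305440582043680)) (.cons (.br (nat_lit 13) (nat_lit 0) (.cons (.zr (nat_lit 237684487542793294259903529217) (nat_lit 20282409608410930397163338858496) (nat_lit 5) (nat_lit 1)) (.cons (.zr (nat_lit 4740813230241889648897) (nat_lit 20440865928680199380617905831936) (nat_lit 5) (nat_lit 0)) (.cons (.rf (nat_lit 2912) (nat_lit 493858305440582043680)) .nil)))) .nil))))),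
 (.br (nat_lit 13) (nat_lit 0) (.cons (.rf (nat_lit 2910) (nat_lit 493858305440582043680)) (.cons (.rf (nat_lit 2913) (nat_lit 493858305440582043680)) (.cons (.br (nat_lit 13) (nat_lit 0) (.cons (.rf (nat_lit 2910) (nat_lit 493858305440582043680)) (.cons (.rf (nat_lit 2913) (nat_lit 493858305440582043680)) (.cons (.ev (nat_lit 20361948460101575721238694723584) (nat_lit 1)) .nil)))) (.cons (.br (nat_lit 13) (nat_lit 0) (.cons (.rf (nat_lit 2910) (nat_lit 493858305440582043680)) (.cons (.zr (nat_lit 4740813230241889648897) (nat_lit 20440865928680199380617905831936) (nat_lit 5) (nat_lit 0)) (.cons (.ev (nat_lit 20361948460101575721238694723584) (nat_lit 1)) .nil)))) .nil))))),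
 (.br (nat_lit 13) (nat_lit 0) (.cons (.rf (nat_lit 2910) (nat_lit 493858305440582043680)) (.cons (.rf (nat_lit 2913) (nat_lit 493858305440582043680)) (.cons (.rf (nat_lit 2914) (nat_lit 493858305440582043680)) (.cons (.br (nat_lit 13) (nat_lit 0) (.cons (.rf (nat_lit 2910) (nat_lit 493858305440582043680)) (.cons (.rf (nat_lit 2913) (nat_lit 493858305440582043680)) (.cons (.ev (nat_lit 20361948460101575721238694723584) (nat_lit 1)) .nil)))) .nil))))),
 (.br (nat_lit 2) (nat_lit 0) (.cons (.rf (nat_lit 2669) (nat_lit 14242959524133700672)) (.cons (.rf (nat_lit 2859) (nat_lit 14242959524133700672)) (.cons (.rf (nat_lit 2907) (nat_lit 14242959524133700672)) (.cons (.br (nat_lit 3) (nat_lit 0) (.cons (.br (nat_lit 10) (nat_lit 0) (.cons (.ev (nat_lit 158765810093906425271973773315) (nat_lit 2)) (.cons (.br (nat_lit 13) (nat_lit 0) (.cons (.ev (nat_lit 159699105511906026807948870144) (nat_lit 3)) .nil)) .nil))) (.cons (.br (nat_lit 5) (nat_lit 0) (.cons (.ev (nat_lit 1245198557243896347935508486) (nat_lit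 4)) (.cons (.rf (nat_lit 2862) (nat_lit 469848185538592)) .nil))) (.cons (.ev (nat_lit 475368979900475866563444344320) (nat_lit 3)) (.cons (.br (nat_lit 5) (nat_lit 0) (.cons (.rf (nat_lit 2862) (nat_lit 469848187570208)) (.cons (.rf (nat_lit 2862) (nat_lit 468783035679808)) (.cons (.br (nat_lit 10) (nat_lit 0) (.cons (.kr (nat_lit 618984186886256133484315136) (nat_lit 158458742898614929998452228096) (nat_lit 1) (nat_lit 0)) (.cons (.ev (nat_lit 475373815529967353183284102660) (nat_lit 3)) .nil))) .nil)))) .nil))))) (.cons (.br (nat_lit 13) (nat_lit 0) (.cons (.rf (nat_lit 2910) (nat_lit 493858305440582043680)) (.cons (.rf (nat_lit 2913) (nat_lit 493858305440582043680)) (.cons (.rf (nat_lit 2914) (nat_lit 493858305440582043680)) (.cons (.rf (nat_lit 2915) (nat_lit 493858305440582043680)) (.cons (.br (nat_lit 13) (nat_lit 0) (.cons (.rf (nat_lit 2910) (nat_lit 493858305440582043680)) (.cons (.rf (nat_lit 2913) (nat_lit 493858305440582043680)) (.cons (.rf (nat_lit 2914) (nat_lit 493858305440582043680))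 (.cons (.rf (nat_lit 2915) (nat_lit 493858305440582043680)) .nil))))) .nil)))))) .nil)))))),
 (.br (nat_lit 2) (nat_lit 0) (.cons (.ev (nat_lit 79228167255149903610225164288) (nat_lit 1)) (.cons (.rf (nat_lit 2859) (nat_lit 14242959524133700672)) (.cons (.rf (nat_lit 2909) (nat_lit 14242959524133701664)) (.cons (.rf (nat_lit 2916) (nat_lit 14242959524133701664)) (.cons (.br (nat_lit 3) (nat_lit 0) (.cons (.rf (nat_lit 2873) (nat_lit 15037271301523488)) (.cons (.rf (nat_lit 2889) (nat_lit 15037168322971680)) (.cons (.br (nat_lit 5) (nat_lit 0) (.cons (.rf (nat_lit 2889) (nat_lit 15037168320940064)) (.cons (.rf (nat_lit 2890) (nat_lit 469911639001120)) (.cons (.br (nat_lit 10) (nat_lit 0) (.cons (.ev (nat_lit 79538856449905298395250098176) (nat_lit 1)) (.cons (.br (nat_lit 11) (nat_lit 0) (.cons (.ev (nat_lit 20283339267643919901011969508099) (nat_lit 2)) .nil)) .nil))) .nil)))) (.cons (.br (nat_lit 5) (nat_lit 0) (.cons (.rf (nat_lit 2888) (nat_lit 469911636969504)) (.cons (.br (nat_lit 13) (nat_lit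 0) (.cons (.br (nat_lit 11) (nat_lit 0) (.cons (.ev (nat_lit 82238849619693715569341939322382) (nat_lit 4)) .nil)) (.cons (.br (nat_lit 10) (nat_lit 0) (.cons (.ev (nat_lit 82238849619693715569341939322382) (nat_lit 4)) .nil)) .nil))) (.cons (.br (nat_lit 10) (nat_lit 0) (.cons (.br (nat_lit 11) (nat_lit 0) (.cons (.ev (nat_lit 20441795592635555650993001660675) (nat_lit 2)) .nil)) (.cons (.ev (nat_lit 20282409603670189226718822203393) (nat_lit 1)) .nil))) .nil)))) .nil))))) .nil)))))),
 (.br (nat_lit 2) (nat_lit 0) (.cons (.rf (nat_lit 2669) (nat_lit 14242959524133700672)) (.cons (.rf (nat_lit 2859) (nat_lit 14242959524133700672)) (.cons (.rf (nat_lit 2909) (nat_lit 14242959524133701664)) (.cons (.rf (nat_lit 2916) (nat_lit 14242959524133701664)) (.cons (.rf (nat_lit 2917) (nat_lit 14242959524133701664)) (.cons (.br (nat_lit 2) (nat_lit 0) (.cons (.rf (nat_lit 2669) (nat_lit 14242959524133700672)) (.cons (.rf (nat_lit 2859) (nat_lit 14242959524133700672)) (.cons (.rf (nat_lit 2909) (nat_lit 14242959524133701664))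 (.cons (.rf (nat_lit 2916) (nat_lit 14242959524133701664)) (.cons (.rf (nat_lit 2917) (nat_lit 14242959524133701664)) .nil)))))) .nil))))))),
 (.br (nat_lit 7) (nat_lit 0) (.cons (.rf (nat_lit 2862) (nat_lit 469745209018400)) (.cons (.rf (nat_lit 2868) (nat_lit 469911639001120)) (.cons (.ev (nat_lit 79228162514336676666870398976) (nat_lit 1)) .nil)))),
 (.br (nat_lit 12) (nat_lit 0) (.cons (.ev (nat_lit 79228162514336395187598721281) (nat_lit 1)) (.cons (.ev (nat_lit 79229371458602754989977763841) (nat_lit 1)) .nil))),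
 (.br (nat_lit 7) (nat_lit 0) (.cons (.ev (nat_lit 79228162514336395187598721281) (nat_lit 1)) (.cons (.ev (nat_lit 79229371458602754989977763841) (nat_lit 1)) .nil))),
 (.br (nat_lit 13) (nat_lit 0) (.cons (.ev (nat_lit 626228352700285204371080192) (nat_lit 3)) (.cons (.br (nat_lit 7) (nat_lit 0) (.cons (.ev (nat_lit 626228352700285204371080192) (nat_lit 3)) .nil)) .nil))),
 (.br (nat_lit 5) (nat_lit 0) (.cons (.ev (nat_lit 79228162514336395187598721281) (nat_lit 1)) (.cons (.ev (nat_lit 626228352700285204371080192) (nat_lit 3)) .nil))),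
 (.br (nat_lit 5) (nat_lit 0) (.cons (.ev (nat_lit 79228167236703159532203802624) (nat_lit 1)) .nil)),
 (.br (nat_lit 13) (nat_lit 0) (.cons (.ev (nat_lit 121694460044502764079114505946628) (nat_lit 3)) (.cons (.rf (nat_lit 2788) (nat_lit 1346831488400032162)) (.cons (.br (nat_lit 5) (nat_lit 0) (.cons (.ev (nat_lit 1112925025278389881815358243342) (nat_lit 4)) .nil)) .nil)))),
 (.br (nat_lit 7) (nat_lit 0) (.cons (.ev (nat_lit 1856914873673233293679919620) (nat_lit 3)) (.cons (.ev (nat_lit 79537647542532708210971770881) (nat_lit 1)) (.cons (.rf (nat_lit 2788) (nat_lit 1346831488400032162)) .nil)))),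
 (.br (nat_lit 2) (nat_lit 0) (.cons (.rf (nat_lit 2669) (nat_lit 14242959524133700672)) (.cons (.rf (nat_lit 2859) (nat_lit 14242959524133700672)) (.cons (.rf (nat_lit 2907) (nat_lit 14242959524133700672)) (.cons (.br (nat_lit 3) (nat_lit 0) (.cons (.zr (nat_lit 79229376162450716567357358848) (nat_lit 55340234420152041472) (nat_lit 5) (nat_lit 1)) (.cons (.ev (nat_lit 18518801667764257024) (nat_lit 1)) (.cons (.br (nat_lit 5) (nat_lit 0) (.cons (.ev (nat_lit 79538861190718806809286606848) (nat_lit 1)) (.cons (.rf (nat_lit 2862) (nat_lit 465484599428160)) .nil))) (.cons (.rf (nat_lit 2919) (nat_lit 493858305440582043680)) .nil))))) (.cons (.br (nat_lit 3) (nat_lit 0) (.cons (.br (nat_lit 13) (nat_lit 0) (.cons (.rf (nat_lit 2920) (nat_lit 493858305440582043680)) (.cons (.br (nat_lit 13) (nat_lit 0) (.cons (.rf (nat_lit 2920) (nat_lit 493858305440582043680)) (.cons (.rf (nat_lit 2921) (nat_lit 493858305440582043680)) .nil))) (.cons (.rf (nat_lit 2921) (nat_lit 493858305440582043680)) .nil)))) (.cons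 (.ev (nat_lit 18518801667764257024) (nat_lit 1)) (.cons (.br (nat_lit 13) (nat_lit 0) (.cons (.rf (nat_lit 2922) (nat_lit 493858305440582043680)) (.cons (.rf (nat_lit 2923) (nat_lit 493858305440582043680)) (.cons (.br (nat_lit 13) (nat_lit 0) (.cons (.rf (nat_lit 2922) (nat_lit 493858305440582043680)) (.cons (.rf (nat_lit 2923) (nat_lit 493858305440582043680)) .nil))) .nil)))) (.cons (.br (nat_lit 13) (nat_lit 0) (.cons (.br (nat_lit 13) (nat_lit 0) (.cons (.ev (nat_lit 79229376162522775265185103873) (nat_lit 1)) (.cons (.ev (nat_lit 310693954087986346097377536) (nat_lit 1)) .nil))) (.cons (.br (nat_lit 13) (nat_lit 0) (.cons (.ev (nat_lit 79229376162522775265185103873) (nat_lit 1)) (.cons (.rf (nat_lit 2924) (nat_lit 15433070910038444064)) .nil))) (.cons (.br (nat_lit 13) (nat_lit 0) (.cons (.ev (nat_lit 310693954087986346097377536) (nat_lit 1)) (.cons (.rf (nat_lit 2924) (nat_lit 15433070910038444064)) .nil))) .nil)))) (.cons (.br (nat_lit 13) (nat_lit 0) (.cons (.br (nat_lit 13) (nat_lit 0)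 (.cons (.ev (nat_lit 121694460044502764079114505946628) (nat_lit 3)) (.cons (.ev (nat_lit 310693954087986346097377536) (nat_lit 1)) (.cons (.zr (nat_lit 237684487542793294259903529217) (nat_lit 20282409608410930397163338858496) (nat_lit 5) (nat_lit 1)) .nil)))) (.cons (.rf (nat_lit 2925) (nat_lit 493858305440582043680)) (.cons (.rf (nat_lit 2926) (nat_lit 493858305440582043680)) (.cons (.br (nat_lit 13) (nat_lit 0) (.cons (.zr (nat_lit 237684487542793294259903529217) (nat_lit 20282409608410930397163338858496) (nat_lit 5) (nat_lit 1)) (.cons (.rf (nat_lit 2925) (nat_lit 493858305440582043680)) (.cons (.rf (nat_lit 2926) (nat_lit 493858305440582043680)) .nil)))) .nil))))) .nil)))))) .nil)))))),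
 (.br (nat_lit 2) (nat_lit 0) (.cons (.rf (nat_lit 2669) (nat_lit 14242959524133700672)) (.cons (.rf (nat_lit 2859) (nat_lit 14242959524133700672)) (.cons (.rf (nat_lit 2918) (nat_lit 14242959524133701664)) (.cons (.rf (nat_lit 2927) (nat_lit 14242959524133701664)) (.cons (.br (nat_lit 3) (nat_lit 0) (.cons (.rf (nat_lit 2873) (nat_lit 15037168322971680)) (.cons (.ev (nat_lit 18518801667764257024) (nat_lit 1)) (.cons (.br (nat_lit 13) (nat_lit 0) (.cons (.zr (nat_lit 36894052196884152323) (nat_lit 2417851639229262677999872) (nat_lit 5) (nat_lit 5)) (.cons (.ev (nat_lit 79228167255149622130953486336) (nat_lit 1)) (.cons (.ev (nat_lit 309485009821345073036591361) (nat_lit 1)) .nil)))) (.cons (.br (nat_lit 7) (nat_lit 0) (.cons (.rf (nat_lit 2888) (nat_lit 469914757531680)) (.cons (.ev (nat_lit 79228167255149622130953486336) (nat_lit 1)) (.cons (.rf (nat_lit 2891) (nat_lit 15398169079253665824)) .nil)))) .nil))))) .nil)))))),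
 (.br (nat_lit 2) (nat_lit 0) (.cons (.rf (nat_lit 2669) (nat_lit 14242959524133700672)) (.cons (.rf (nat_lit 2859) (nat_lit 14242959524133700672)) (.cons (.rf (nat_lit 2918) (nat_lit 14242959524133701664)) (.cons (.rf (nat_lit 2927) (nat_lit 14242959524133701664)) (.cons (.rf (nat_lit 2928) (nat_lit 14242959524133701664)) (.cons (.br (nat_lit 2) (nat_lit 0) (.cons (.rf (nat_lit 2669) (nat_lit 14242959524133700672)) (.cons (.rf (nat_lit 2859) (nat_lit 14242959524133700672)) (.cons (.rf (nat_lit 2918) (nat_lit 14242959524133701664)) (.cons (.rf (nat_lit 2927) (nat_lit 14242959524133701664)) (.cons (.rf (nat_lit 2928) (nat_lit 14242959524133701664)) .nil)))))) .nil))))))),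
 (.br (nat_lit 7) (nat_lit 0) (.cons (.ev (nat_lit 1208925891954801996005633) (nat_lit 1)) (.cons (.br (nat_lit 10) (nat_lit 0) (.cons (.ev (nat_lit 20441179040467696307509557002499) (nat_lit 2)) .nil)) (.cons (.rf (nat_lit 2918) (nat_lit 6132992408932417954)) .nil)))),
 (.br (nat_lit 13) (nat_lit 0) (.cons (.rf (nat_lit 2930) (nat_lit 493858305440582043680)) (.cons (.br (nat_lit 13) (nat_lit 0) (.cons (.rf (nat_lit 2918) (nat_lit 6132992408932417954)) (.cons (.rf (nat_lit 2907) (nat_lit 6132992408932417954)) (.cons (.rf (nat_lit 2669) (nat_lit 6132992408932417954)) .nil)))) (.cons (.br (nat_lit 13) (nat_lit 0) (.cons (.rf (nat_lit 2930) (nat_lit 493858305440582043680)) (.cons (.rf (nat_lit 2907) (nat_lit 6132992408932417954)) (.cons (.rf (nat_lit 2669) (nat_lit 6132992408932417954)) .nil)))) (.cons (.rf (nat_lit 2669) (nat_lit 6132992408932417954)) .nil))))),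
 (.br (nat_lit 3) (nat_lit 0) (.cons (.ev (nat_lit 79228167255149622130953486336) (nat_lit 1)) (.cons (.br (nat_lit 10) (nat_lit 0) (.cons (.ev (nat_lit 20282722715476061120469888336643) (nat_lit 2)) .nil)) (.cons (.rf (nat_lit 2918) (nat_lit 6132992408932417954)) .nil)))),
 (.br (nat_lit 13) (nat_lit 0) (.cons (.rf (nat_lit 2931) (nat_lit 493858305440582043680)) (.cons (.rf (nat_lit 2932) (nat_lit 493858305440582043680)) (.cons (.br (nat_lit 13) (nat_lit 0) (.cons (.rf (nat_lit 2931) (nat_lit 493858305440582043680)) (.cons (.rf (nat_lit 2932) (nat_lit 493858305440582043680)) (.cons (.ev (nat_lit 20282720297605758409198132068353) (nat_lit 1)) .nil)))) (.cons (.rf (nat_lit 2669) (nat_lit 6132992408932417954)) .nil)))))]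

theorem c106 : chkAll C T R L106 (nat_lit 2909) = true := by decide +kernel

theorem l106 : (nat_lit 2909) + L106.length = (nat_lit 2934) := by decide +kernel

/-- part of the certificates -/
def L107 : List Prf := [(.br (nat_lit 13) (nat_lit 0) (.cons (.rf (nat_lit 2931) (nat_lit 493858305440582043680)) (.cons (.rf (nat_lit 2933) (nat_lit 493858305440582043680)) (.cons (.br (nat_lit 13) (nat_lit 0) (.cons (.rf (nat_lit 2907) (nat_lit 6132992408932417954)) (.cons (.rf (nat_lit 2933) (nat_lit 493858305440582043680)) (.cons (.rf (nat_lit 2669) (nat_lit 6132992408932417954)) .nil)))) (.cons (.rf (nat_lit 2669) (nat_lit 6132992408932417954)) .nil))))),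
 (.br (nat_lit 2) (nat_lit 0) (.cons (.rf (nat_lit 2669) (nat_lit 14242959524133700672)) (.cons (.rf (nat_lit 2859) (nat_lit 14242959524133700672)) (.cons (.rf (nat_lit 2918) (nat_lit 14242959524133701664)) (.cons (.rf (nat_lit 2929) (nat_lit 14242959524133701664)) (.cons (.br (nat_lit 13) (nat_lit 0) (.cons (.rf (nat_lit 2931) (nat_lit 493858305440582043680)) (.cons (.rf (nat_lit 2933) (nat_lit 493858305440582043680)) (.cons (.rf (nat_lit 2934) (nat_lit 493858305440582043680)) (.cons (.br (nat_lit 13) (nat_lit 0) (.cons (.rf (nat_lit 2931) (nat_lit 493858305440582043680)) (.cons (.rf (nat_lit 2933) (nat_lit 493858305440582043680)) (.cons (.rf (nat_lit 2934) (nat_lit 493858305440582043680)) (.cons (.rf (nat_lit 2669) (nat_lit 6132992408932417954)) .nil))))) (.cons (.rf (nat_lit 2669) (nat_lit 6132992408932417954)) .nil)))))) .nil)))))),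
 (.br (nat_lit 2) (nat_lit 0) (.cons (.rf (nat_lit 2669) (nat_lit 14242959524133700672)) (.cons (.rf (nat_lit 2859) (nat_lit 14242959524133700672)) (.cons (.rf (nat_lit 2918) (nat_lit 14242959524133701664)) (.cons (.rf (nat_lit 2929) (nat_lit 14242959524133701664)) (.cons (.rf (nat_lit 2935) (nat_lit 14242959524133701664)) (.cons (.br (nat_lit 2) (nat_lit 0) (.cons (.rf (nat_lit 2669) (nat_lit 14242959524133700672)) (.cons (.rf (nat_lit 2859) (nat_lit 14242959524133700672)) (.cons (.rf (nat_lit 2918) (nat_lit 14242959524133701664)) (.cons (.rf (nat_lit 2929) (nat_lit 14242959524133701664)) (.cons (.rf (nat_lit 2935) (nat_lit 14242959524133701664)) .nil)))))) .nil))))))),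
 (.br (nat_lit 2) (nat_lit 0) (.cons (.rf (nat_lit 2669) (nat_lit 14242959524133700672)) (.cons (.rf (nat_lit 2859) (nat_lit 14242959524133700672)) (.cons (.rf (nat_lit 2918) (nat_lit 14242959524133701664)) (.cons (.rf (nat_lit 2929) (nat_lit 14242959524133701664)) (.cons (.rf (nat_lit 2936) (nat_lit 14242959524133701664)) (.cons (.br (nat_lit 2) (nat_lit 0) (.cons (.rf (nat_lit 2669) (nat_lit 14242959524133700672)) (.cons (.rf (nat_lit 2859) (nat_lit 14242959524133700672)) (.cons (.rf (nat_lit 2918) (nat_lit 14242959524133701664)) (.cons (.rf (nat_lit 2929) (nat_lit 14242959524133701664)) (.cons (.rf (nat_lit 2936) (nat_lit 14242959524133701664)) .nil)))))) .nil))))))),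
 (.br (nat_lit 2) (nat_lit 0) (.cons (.rf (nat_lit 2669) (nat_lit 14242959524133700672)) (.cons (.rf (nat_lit 2859) (nat_lit 14242959524133700672)) (.cons (.rf (nat_lit 2918) (nat_lit 14242959524133701664)) (.cons (.rf (nat_lit 2929) (nat_lit 14242959524133701664)) (.cons (.rf (nat_lit 2936) (nat_lit 14242959524133701664)) (.cons (.rf (nat_lit 2937) (nat_lit 14242959524133701664)) (.cons (.br (nat_lit 2) (nat_lit 0) (.cons (.rf (nat_lit 2669) (nat_lit 14242959524133700672)) (.cons (.rf (nat_lit 2859) (nat_lit 14242959524133700672)) (.cons (.rf (nat_lit 2918) (nat_lit 14242959524133701664)) (.cons (.rf (nat_lit 2929) (nat_lit 14242959524133701664)) (.cons (.rf (nat_lit 2936) (nat_lit 14242959524133701664)) (.cons (.rf (nat_lit 2937) (nat_lit 14242959524133701664)) .nil))))))) .nil)))))))),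
 (.br (nat_lit 5) (nat_lit 0) (.cons (.ev (nat_lit 1208925891954801996005633) (nat_lit 1)) (.cons (.br (nat_lit 13) (nat_lit 0) (.cons (.br (nat_lit 12) (nat_lit 0) (.cons (.ev (nat_lit 79538856449905579865931776001) (nat_lit 1)) .nil)) (.cons (.br (nat_lit 11) (nat_lit 0) (.cons (.ev (nat_lit 79538856449905579865931776001) (nat_lit 1)) .nil)) .nil))) (.cons (.br (nat_lit 11) (nat_lit 0) (.cons (.br (nat_lit 12) (nat_lit 0) (.cons (.ev (nat_lit 20282719093402305278538130981120) (nat_lit 1)) .nil)) (.cons (.kr (nat_lit 309485009893684137739419649) (nat_lit 20282410812577490038580737736704) (nat_lit 0) (nat_lit 1)) .nil))) .nil)))),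
 (.br (nat_lit 11) (nat_lit 0) (.cons (.rf (nat_lit 2939) (nat_lit 493858305440582043680)) (.cons (.ev (nat_lit 1208925891954801996005633) (nat_lit 1)) (.cons (.br (nat_lit 3) (nat_lit 0) (.cons (.br (nat_lit 12) (nat_lit 0) (.cons (.ev (nat_lit 20282719093402305278538130981120) (nat_lit 1)) .nil)) (.cons (.kr (nat_lit 4722366482869645213696) (nat_lit 79228162514264337593543950336) (nat_lit 9) (nat_lit 0)) (.cons (.br (nat_lit 5) (nat_lit 0) (.cons (.ev (nat_lit 20282409603670189508189503881216) (nat_lit 1)) .nil)) .nil)))) .nil)))),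
 (.br (nat_lit 2) (nat_lit 0) (.cons (.rf (nat_lit 2669) (nat_lit 14242959524133700672)) (.cons (.ev (nat_lit 1213666705181745350770688) (nat_lit 1)) (.cons (.rf (nat_lit 2907) (nat_lit 14242959524133700672)) (.cons (.rf (nat_lit 2938) (nat_lit 14242959524133700672)) (.cons (.br (nat_lit 11) (nat_lit 0) (.cons (.rf (nat_lit 2939) (nat_lit 493858305440582043680)) (.cons (.ev (nat_lit 1208925891954801996005633) (nat_lit 1)) (.cons (.rf (nat_lit 2940) (nat_lit 493858305440582043680)) (.cons (.br (nat_lit 11) (nat_lit 0) (.cons (.rf (nat_lit 2939) (nat_lit 493858305440582043680)) (.cons (.ev (nat_lit 1208925891954801996005633) (nat_lit 1)) (.cons (.rf (nat_lit 2940) (nat_lit 493858305440582043680)) .nil)))) .nil))))) .nil)))))),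
 (.br (nat_lit 13) (nat_lit 0) (.cons (.rf (nat_lit 2852) (nat_lit 2489756339524567457)) (.cons (.br (nat_lit 10) (nat_lit 0) (.cons (.ev (nat_lit 20282410812577562096174758953216) (nat_lit 1)) .nil)) (.cons (.rf (nat_lit 2891) (nat_lit 2707901748410024353)) .nil)))),
 (.br (nat_lit 5) (nat_lit 0) (.cons (.br (nat_lit 12) (nat_lit 0) (.cons (.ev (nat_lit 163372803899476279067179846861312) (nat_lit 4)) .nil)) (.cons (.br (nat_lit 11) (nat_lit 0) (.cons (.ev (nat_lit 1113536741521898640011063331336) (nat_lit 4)) .nil)) (.cons (.rf (nat_lit 2852) (nat_lit 2489756339524567457)) .nil)))),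
 (.br (nat_lit 5) (nat_lit 0) (.cons (.ev (nat_lit 79228167236702878061522125056) (nat_lit 1)) .nil)),
 (.br (nat_lit 13) (nat_lit 0) (.cons (.rf (nat_lit 2942) (nat_lit 493858305440582043680)) (.cons (.rf (nat_lit 2943) (nat_lit 493858305440582043680)) (.cons (.br (nat_lit 13) (nat_lit 0) (.cons (.rf (nat_lit 2942) (nat_lit 493858305440582043680)) (.cons (.rf (nat_lit 2943) (nat_lit 493858305440582043680)) (.cons (.rf (nat_lit 2944) (nat_lit 15433070910038444064)) .nil)))) (.cons (.br (nat_lit 13) (nat_lit 0) (.cons (.ev (nat_lit 20282409608374109246985439543553) (nat_lit 1)) (.cons (.rf (nat_lit 2943) (nat_lit 493858305440582043680)) (.cons (.rf (nat_lit 2944) (nat_lit 15433070910038444064)) .nil)))) .nil))))),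
 (.br (nat_lit 3) (nat_lit 0) (.cons (.br (nat_lit 12) (nat_lit 0) (.cons (.ev (nat_lit 81447172457313160872868100441088) (nat_lit 3)) .nil)) (.cons (.br (nat_lit 11) (nat_lit 0) (.cons (.ev (nat_lit 79537647542532426740290093313) (nat_lit 1)) .nil)) (.cons (.rf (nat_lit 2852) (nat_lit 2489756339524567457)) .nil)))),
 (.br (nat_lit 13) (nat_lit 0) (.cons (.rf (nat_lit 2942) (nat_lit 493858305440582043680)) (.cons (.rf (nat_lit 2946) (nat_lit 493858305440582043680)) (.cons (.br (nat_lit 13) (nat_lit 0) (.cons (.rf (nat_lit 2942) (nat_lit 493858305440582043680)) (.cons (.rf (nat_lit 2946) (nat_lit 493858305440582043680)) (.cons (.zr (nat_lit 4740813230241889714177) (nat_lit 20440865928680199380617905831936) (nat_lit 5) (nat_lit 0)) .nil)))) (.cons (.br (nat_lit 13) (nat_lit 0) (.cons (.ev (nat_lit 20282409608374109246985439543553) (nat_lit 1)) (.cons (.rf (nat_lit 2946) (nat_lit 493858305440582043680)) (.cons (.zr (nat_lit 4740813230241889714177) (nat_lit 20440865928680199380617905831936) (nat_lit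 5) (nat_lit 0)) .nil)))) .nil))))),
 (.br (nat_lit 13) (nat_lit 0) (.cons (.rf (nat_lit 2945) (nat_lit 493858305440582043680)) (.cons (.rf (nat_lit 2947) (nat_lit 493858305440582043680)) (.cons (.br (nat_lit 12) (nat_lit 0) (.cons (.ev (nat_lit 79537647542532426740290093313) (nat_lit 1)) (.cons (.ev (nat_lit 1113536741521898640011063331336) (nat_lit 4)) (.cons (.ev (nat_lit 20361948464842389229661321166848) (nat_lit 1)) .nil)))) (.cons (.br (nat_lit 13) (nat_lit 0) (.cons (.rf (nat_lit 2945) (nat_lit 493858305440582043680)) (.cons (.rf (nat_lit 2947) (nat_lit 493858305440582043680)) (.cons (.ev (nat_lit 20361948464842389229661321166848) (nat_lit 1)) .nil)))) .nil))))),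
 (.br (nat_lit 13) (nat_lit 0) (.cons (.rf (nat_lit 2945) (nat_lit 493858305440582043680)) (.cons (.rf (nat_lit 2947) (nat_lit 493858305440582043680)) (.cons (.rf (nat_lit 2948) (nat_lit 493858305440582043680)) (.cons (.br (nat_lit 13) (nat_lit 0) (.cons (.rf (nat_lit 2944) (nat_lit 15433070910038444064)) (.cons (.zr (nat_lit 4740813230241889714177) (nat_lit 20440865928680199380617905831936) (nat_lit 5) (nat_lit 0)) (.cons (.ev (nat_lit 20361948464842389229661321166848) (nat_lit 1)) .nil)))) .nil))))),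
 (.br (nat_lit 11) (nat_lit 0) (.cons (.br (nat_lit 10) (nat_lit 0) (.cons (.ev (nat_lit 310698658007725142033039361) (nat_lit 1)) (.cons (.br (nat_lit 12) (nat_lit 0) (.cons (.ev (nat_lit 284591892546116246462312204864512) (nat_lit 4)) .nil)) .nil))) (.cons (.br (nat_lit 13) (nat_lit 0) (.cons (.br (nat_lit 12) (nat_lit 0) (.cons (.ev (nat_lit 41040807157408360881937079993344) (nat_lit 4)) .nil)) (.cons (.br (nat_lit 5) (nat_lit 0) (.cons (.ev (nat_lit 41040807157408360881937079993344) (nat_lit 4)) .nil)) .nil))) (.cons (.kr (nat_lit 4722366482869645213696) (nat_lit 79228162514264337593543950336) (nat_lit 9) (nat_lit 0)) (.cons (.br (nat_lit 13) (nat_lit 0) (.cons (.rf (nat_lit 2669) (nat_lit 13951351549195551821)) (.cons (.br (nat_lit 5) (nat_lit 0) (.cons (.ev (nat_lit 79538856449905579865931776001) (nat_lit 1)) .nil)) (.cons (.rf (nat_lit 2669) (nat_lit 6132992408932418637)) .nil)))) .nil))))),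
 (.br (nat_lit 3) (nat_lit 0) (.cons (.br (nat_lit 13) (nat_lit 0) (.cons (.br (nat_lit 12) (nat_lit 0) (.cons (.ev (nat_lit 79538856449905579865931776001) (nat_lit 1)) .nil)) (.cons (.br (nat_lit 11) (nat_lit 0) (.cons (.ev (nat_lit 79538856449905579865931776001) (nat_lit 1)) .nil)) .nil))) (.cons (.br (nat_lit 12) (nat_lit 0) (.cons (.ev (nat_lit 621392723208807380624344068) (nat_lit 3)) (.cons (.ev (nat_lit 79537652246452165536225755136) (nat_lit 1)) .nil))) (.cons (.rf (nat_lit 2950) (nat_lit 493858305440582043680)) (.cons (.br (nat_lit 11) (nat_lit 0) (.cons (.br (nat_lit 12) (nat_lit 0) (.cons (.ev (nat_lit 122171066959738027718999594631168) (nat_lit 3)) .nil)) (.cons (.br (nat_lit 10) (nat_lit 0) (.cons (.ev (nat_lit 20282720297605758409198132002816) (nat_lit 1)) .nil)) (.cons (.ev (nat_lit 20282409603670189508189503881216) (nat_lit 1)) .nil)))) .nil))))),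
 (.br (nat_lit 12) (nat_lit 0) (.cons (.rf (nat_lit 2950) (nat_lit 493858305440582043680)) (.cons (.rf (nat_lit 2951) (nat_lit 493858305440582043680)) (.cons (.kr (nat_lit 158456325028528675191382867968) (nat_lit 4740813508418331475968) (nat_lit 4) (nat_lit 0)) (.cons (.br (nat_lit 11) (nat_lit 0) (.cons (.br (nat_lit 5) (nat_lit 0) (.cons (.ev (nat_lit 122491072042189667842946853899272) (nat_lit 4)) .nil)) (.cons (.ev (nat_lit 310693954087704875415633921) (nat_lit 1)) (.cons (.rf (nat_lit 2669) (nat_lit 6132992408932418637)) .nil)))) .nil))))),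
 (.br (nat_lit 12) (nat_lit 0) (.cons (.kr (nat_lit 4722366482869645213696) (nat_lit 79228162514264337593543950336) (nat_lit 9) (nat_lit 0)) (.cons (.rf (nat_lit 2951) (nat_lit 493858305440582043680)) (.cons (.kr (nat_lit 158456325028528675191382867968) (nat_lit 4740813508418331475968) (nat_lit 4) (nat_lit 0)) (.cons (.br (nat_lit 10) (nat_lit 0) (.cons (.br (nat_lit 5) (nat_lit 0) (.cons (.ev (nat_lit 161560851311150163479127786498) (nat_lit 4)) .nil)) (.cons (.br (nat_lit 3) (nat_lit 0) (.cons (.ev (nat_lit 243549233319537073433455419329542) (nat_lit 4)) .nil)) (.cons (.rf (nat_lit 2669) (nat_lit 6164517744835627053)) .nil)))) .nil))))),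
 (.br (nat_lit 2) (nat_lit 0) (.cons (.rf (nat_lit 2669) (nat_lit 14242959524133700672)) (.cons (.rf (nat_lit 2859) (nat_lit 14242959524133700672)) (.cons (.rf (nat_lit 2907) (nat_lit 14242959524133700672)) (.cons (.br (nat_lit 13) (nat_lit 0) (.cons (.rf (nat_lit 2945) (nat_lit 493858305440582043680)) (.cons (.rf (nat_lit 2947) (nat_lit 493858305440582043680)) (.cons (.rf (nat_lit 2948) (nat_lit 493858305440582043680)) (.cons (.rf (nat_lit 2949) (nat_lit 493858305440582043680)) (.cons (.br (nat_lit 13) (nat_lit 0) (.cons (.rf (nat_lit 2945) (nat_lit 493858305440582043680)) (.cons (.rf (nat_lit 2947) (nat_lit 493858305440582043680)) (.cons (.rf (nat_lit 2948) (nat_lit 493858305440582043680)) (.cons (.rf (nat_lit 2949) (nat_lit 493858305440582043680)) .nil))))) .nil)))))) (.cons (.br (nat_lit 12) (nat_lit 0) (.cons (.rf (nat_lit 2950) (nat_lit 493858305440582043680)) (.cons (.rf (nat_lit 2951) (nat_lit 493858305440582043680)) (.cons (.rf (nat_lit 2952) (nat_lit 493858305440582043680)) (.cons (.rf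 (nat_lit 2953) (nat_lit 493858305440582043680)) (.cons (.br (nat_lit 12) (nat_lit 0) (.cons (.rf (nat_lit 2950) (nat_lit 493858305440582043680)) (.cons (.rf (nat_lit 2951) (nat_lit 493858305440582043680)) (.cons (.rf (nat_lit 2952) (nat_lit 493858305440582043680)) (.cons (.rf (nat_lit 2953) (nat_lit 493858305440582043680)) .nil))))) .nil)))))) .nil)))))),
 (.br (nat_lit 10) (nat_lit 0) (.cons (.br (nat_lit 10) (nat_lit 0) (.cons (.ev (nat_lit 79228167236703159532203868161) (nat_lit 1)) .nil)) (.cons (.ev (nat_lit 79228167236703159532203868161) (nat_lit 1)) .nil))),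
 (.br (nat_lit 12) (nat_lit 0) (.cons (.br (nat_lit 13) (nat_lit 0) (.cons (.zr (nat_lit 60926456982914008579572634747392) (nat_lit 2417870086536282046005251) (nat_lit 5) (nat_lit 12)) (.cons (.ev (nat_lit 20282409603670189508189503881216) (nat_lit 1)) .nil))) (.cons (.rf (nat_lit 2955) (nat_lit 15433070910038444064)) (.cons (.br (nat_lit 11) (nat_lit 0) (.cons (.br (nat_lit 10) (nat_lit 0) (.cons (.ev (nat_lit 20282719093402305278538130981120) (nat_lit 1)) .nil)) (.cons (.br (nat_lit 5) (nat_lit 0) (.cons (.ev (nat_lit 20282720297605758127718860325121) (nat_lit 1)) .nil)) (.cons (.ev (nat_lit 309489750634572016391356673) (nat_lit 1)) .nil)))) (.cons (.rf (nat_lit 2859) (nat_lit 5885226501296849314)) .nil))))),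
 (.br (nat_lit 13) (nat_lit 0) (.cons (.rf (nat_lit 2956) (nat_lit 493858305440582043680)) (.cons (.rf (nat_lit 2669) (nat_lit 14090929087143282733)) (.cons (.br (nat_lit 12) (nat_lit 0) (.cons (.ev (nat_lit 40881731862212181529608711046150) (nat_lit 3)) (.cons (.ev (nat_lit 122011375112448353581719603119110) (nat_lit 3)) (.cons (.br (nat_lit 3) (nat_lit 0) (.cons (.ev (nat_lit 40566057152194120203233376076802) (nat_lit 3)) .nil)) .nil)))) (.cons (.rf (nat_lit 2859) (nat_lit 5885226501296849314)) .nil))))),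
 (.br (nat_lit 5) (nat_lit 0) (.cons (.ev (nat_lit 79538856449905579865931776001) (nat_lit 1)) .nil)),
 (.br (nat_lit 13) (nat_lit 0) (.cons (.rf (nat_lit 2956) (nat_lit 493858305440582043680)) (.cons (.rf (nat_lit 2669) (nat_lit 14090929087143282733)) (.cons (.br (nat_lit 11) (nat_lit 0) (.cons (.rf (nat_lit 2958) (nat_lit 493858305440582043680)) (.cons (.br (nat_lit 3) (nat_lit 0) (.cons (.ev (nat_lit 79537652246452165536225755136) (nat_lit 1)) .nil)) (.cons (.rf (nat_lit 2819) (nat_lit 121853519298136109)) .nil)))) (.cons (.rf (nat_lit 2669) (nat_lit 6164517744835627053)) .nil)))))]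

theorem c107 : chkAll C T R L107 (nat_lit 2934) = true := by decide +kernel

theorem l107 : (nat_lit 2934) + L107.length = (nat_lit 2960) := by decide +kernel

/-- part of the certificates -/
def L108 : List Prf := [(.br (nat_lit 2) (nat_lit 0) (.cons (.rf (nat_lit 2669) (nat_lit 14242959524133700672)) (.cons (.rf (nat_lit 2859) (nat_lit 14242959524133700672)) (.cons (.rf (nat_lit 2938) (nat_lit 14242959524133700672)) (.cons (.rf (nat_lit 2954) (nat_lit 493858305440582043680)) (.cons (.br (nat_lit 13) (nat_lit 0) (.cons (.rf (nat_lit 2956) (nat_lit 493858305440582043680)) (.cons (.rf (nat_lit 2957) (nat_lit 493858305440582043680)) (.cons (.rf (nat_lit 2959) (nat_lit 493858305440582043680)) (.cons (.br (nat_lit 13) (nat_lit 0) (.cons (.rf (nat_lit 2956) (nat_lit 493858305440582043680)) (.cons (.rf (nat_lit 2957) (nat_lit 493858305440582043680)) (.cons (.rf (nat_lit 2959) (nat_lit 493858305440582043680)) (.cons (.rf (nat_lit 2859) (nat_lit 5885226501296849314)) .nil))))) (.cons (.rf (nat_lit 2859)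 (nat_lit 5885226501296849314)) .nil)))))) .nil)))))),
 (.br (nat_lit 2) (nat_lit 0) (.cons (.rf (nat_lit 2669) (nat_lit 14242959524133700672)) (.cons (.rf (nat_lit 2859) (nat_lit 14242959524133700672)) (.cons (.rf (nat_lit 2941) (nat_lit 493858305440582043680)) (.cons (.rf (nat_lit 2954) (nat_lit 493858305440582043680)) (.cons (.rf (nat_lit 2960) (nat_lit 493858305440582043680)) (.cons (.br (nat_lit 2) (nat_lit 0) (.cons (.rf (nat_lit 2669) (nat_lit 14242959524133700672)) (.cons (.rf (nat_lit 2859) (nat_lit 14242959524133700672)) (.cons (.rf (nat_lit 2941) (nat_lit 493858305440582043680)) (.cons (.rf (nat_lit 2954) (nat_lit 493858305440582043680)) (.cons (.rf (nat_lit 2960) (nat_lit 493858305440582043680)) .nil)))))) .nil))))))),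
 (.br (nat_lit 12) (nat_lit 0) (.cons (.br (nat_lit 11) (nat_lit 0) (.cons (.ev (nat_lit 79229371440083953322247127296) (nat_lit 1)) .nil)) (.cons (.br (nat_lit 5) (nat_lit 0) (.cons (.ev (nat_lit 79229371440083953322247127296) (nat_lit 1)) .nil)) .nil))),
 (.br (nat_lit 11) (nat_lit 0) (.cons (.br (nat_lit 13) (nat_lit 0) (.cons (.br (nat_lit 12) (nat_lit 0) (.cons (.ev (nat_lit 81131500165109847537204385153540) (nat_lit 3)) .nil)) (.cons (.br (nat_lit 7) (nat_lit 0) (.cons (.ev (nat_lit 81131500165109847537204385153540) (nat_lit 3)) .nil)) .nil))) (.cons (.rf (nat_lit 2962) (nat_lit 15433072009550071840)) (.cons (.ev (nat_lit 79537652246452165536225755393) (nat_lit 1)) (.cons (.br (nat_lit 5) (nat_lit 0) (.cons (.br (nat_lit 12) (nat_lit 0) (.cons (.ev (nat_lit 163369716303007202056562610407438) (nat_lit 4)) .nil)) (.cons (.ev (nat_lit 310693954087986346097377536) (nat_lit 1)) (.cons (.br (nat_lit 7) (nat_lit 0) (.cons (.ev (nat_lit 40564826465673148944036877697028) (nat_lit 3)) .nil)) .nil))))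 .nil))))),
 (.br (nat_lit 11) (nat_lit 0) (.cons (.br (nat_lit 13) (nat_lit 0) (.cons (.br (nat_lit 12) (nat_lit 0) (.cons (.ev (nat_lit 40644050996632101636018207391745) (nat_lit 2)) .nil)) (.cons (.br (nat_lit 7) (nat_lit 0) (.cons (.ev (nat_lit 40644050996632101636018207391745) (nat_lit 2)) .nil)) .nil))) (.cons (.rf (nat_lit 2962) (nat_lit 15433068714169370656)) (.cons (.ev (nat_lit 310693954087986346097377536) (nat_lit 1)) (.cons (.br (nat_lit 3) (nat_lit 0) (.cons (.br (nat_lit 12) (nat_lit 0) (.cons (.ev (nat_lit 81288718550136271424740238163970) (nat_lit 3)) .nil)) (.cons (.br (nat_lit 7) (nat_lit 0) (.cons (.ev (nat_lit 477225889996152747002362724358) (nat_lit 3)) .nil)) (.cons (.rf (nat_lit 2963) (nat_lit 493858305440582043680)) .nil)))) .nil))))),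
 (.br (nat_lit 13) (nat_lit 0) (.cons (.rf (nat_lit 2963) (nat_lit 493858305440582043680)) (.cons (.rf (nat_lit 2964) (nat_lit 493858305440582043680)) (.cons (.br (nat_lit 12) (nat_lit 0) (.cons (.ev (nat_lit 477225889996152747002362724358) (nat_lit 3)) (.cons (.ev (nat_lit 310693954087986346097377536) (nat_lit 1)) (.cons (.ev (nat_lit 20282720302309678147994067664896) (nat_lit 1)) .nil)))) (.cons (.br (nat_lit 13) (nat_lit 0) (.cons (.rf (nat_lit 2963) (nat_lit 493858305440582043680)) (.cons (.rf (nat_lit 2964) (nat_lit 493858305440582043680)) (.cons (.ev (nat_lit 20282720302309678147994067664896) (nat_lit 1)) .nil)))) .nil))))),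
 (.br (nat_lit 13) (nat_lit 0) (.cons (.rf (nat_lit 2963) (nat_lit 493858305440582043680)) (.cons (.rf (nat_lit 2964) (nat_lit 493858305440582043680)) (.cons (.rf (nat_lit 2965) (nat_lit 493858305440582043680)) (.cons (.br (nat_lit 13) (nat_lit 0) (.cons (.rf (nat_lit 2963) (nat_lit 493858305440582043680)) (.cons (.rf (nat_lit 2964) (nat_lit 493858305440582043680)) (.cons (.ev (nat_lit 20282720302309678147994067664896) (nat_lit 1)) .nil)))) .nil))))),
 (.br (nat_lit 12) (nat_lit 0) (.cons (.br (nat_lit 11) (nat_lit 0) (.cons (.zr (nat_lit 1251427117960490358145027) (nat_lit 476606915125159922085337759744) (nat_lit 15) (nat_lit 3)) (.cons (.ev (nat_lit 310693954087986346097377536) (nat_lit 1)) .nil))) (.cons (.kr (nat_lit 4740813226947649732608) (nat_lit 158456325028528956662064611328) (nat_lit 4) (nat_lit 0)) (.cons (.kr (nat_lit 4722366482869645213696) (nat_lit 79228162514264337593543950336) (nat_lit 9) (nat_lit 0)) (.cons (.br (nat_lit 5) (nat_lit 0) (.cons (.ev (nat_lit 79229376162522493785913491456)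 (nat_lit 1)) (.cons (.zr (nat_lit 158456325065422727383972052995) (nat_lit 2427296372195001968427264) (nat_lit 5) (nat_lit 5)) (.cons (.zr (nat_lit 79228162551158389790428102659) (nat_lit 2422574005712132323213568) (nat_lit 5) (nat_lit 5)) .nil)))) .nil))))),
 (.br (nat_lit 6) (nat_lit 0) (.cons (.ev (nat_lit 79538861172271780161088651521) (nat_lit 1)) .nil)),
 (.br (nat_lit 11) (nat_lit 0) (.cons (.br (nat_lit 12) (nat_lit 0) (.cons (.ev (nat_lit 79848341460160403000239785730) (nat_lit 3)) .nil)) (.cons (.rf (nat_lit 2968) (nat_lit 15433072045018155040)) (.cons (.ev (nat_lit 310693954087986346097377536) (nat_lit 1)) .nil)))),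
 (.br (nat_lit 13) (nat_lit 0) (.cons (.rf (nat_lit 2969) (nat_lit 493858305440582043680)) (.cons (.br (nat_lit 13) (nat_lit 0) (.cons (.rf (nat_lit 2969) (nat_lit 493858305440582043680)) (.cons (.ev (nat_lit 310698658007443671351296256) (nat_lit 1)) (.cons (.rf (nat_lit 2669) (nat_lit 5885226501296850989)) .nil)))) (.cons (.ev (nat_lit 310698658007443671351296256) (nat_lit 1)) (.cons (.br (nat_lit 13) (nat_lit 0) (.cons (.rf (nat_lit 2969) (nat_lit 493858305440582043680)) (.cons (.rf (nat_lit 2669) (nat_lit 5885226501296850989)) (.cons (.ev (nat_lit 310693954087986346097377536) (nat_lit 1)) .nil)))) .nil))))),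
 (.br (nat_lit 12) (nat_lit 0) (.cons (.kr (nat_lit 4740813226947649732608) (nat_lit 158456325028528956662064611328) (nat_lit 4) (nat_lit 0)) (.cons (.rf (nat_lit 2970) (nat_lit 493858305440582043680)) (.cons (.br (nat_lit 13) (nat_lit 0) (.cons (.ev (nat_lit 79228162514336676666870333696) (nat_lit 1)) (.cons (.ev (nat_lit 310693954087986346097377536) (nat_lit 1)) .nil))) (.cons (.br (nat_lit 11) (nat_lit 0) (.cons (.ev (nat_lit 79228167255149622130953421056) (nat_lit 1)) (.cons (.br (nat_lit 3) (nat_lit 0) (.cons (.ev (nat_lit 283957465201165181600429408649742) (nat_lit 4)) .nil)) (.cons (.ev (nat_lit 20282410812577562096174758952961) (nat_lit 1)) .nil)))) .nil))))),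
 (.br (nat_lit 12) (nat_lit 0) (.cons (.kr (nat_lit 4722366482869645213696) (nat_lit 79228162514264337593543950336) (nat_lit 9) (nat_lit 0)) (.cons (.rf (nat_lit 2970) (nat_lit 493858305440582043680)) (.cons (.rf (nat_lit 2971) (nat_lit 493858305440582043680)) (.cons (.br (nat_lit 5) (nat_lit 0) (.cons (.ev (nat_lit 79538861190718806809286541568) (nat_lit 1)) (.cons (.br (nat_lit 3) (nat_lit 0) (.cons (.ev (nat_lit 284588804949647171140519058866702) (nat_lit 4)) .nil)) (.cons (.ev (nat_lit 310693954087986346097377536) (nat_lit 1)) .nil)))) .nil))))),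
 (.br (nat_lit 2) (nat_lit 0) (.cons (.rf (nat_lit 2669) (nat_lit 14242959524133700672)) (.cons (.rf (nat_lit 2859) (nat_lit 14242959524133700672)) (.cons (.rf (nat_lit 2907) (nat_lit 14242959524133700672)) (.cons (.br (nat_lit 13) (nat_lit 0) (.cons (.rf (nat_lit 2963) (nat_lit 493858305440582043680)) (.cons (.rf (nat_lit 2964) (nat_lit 493858305440582043680)) (.cons (.rf (nat_lit 2965) (nat_lit 493858305440582043680)) (.cons (.rf (nat_lit 2966) (nat_lit 493858305440582043680)) (.cons (.br (nat_lit 13) (nat_lit 0) (.cons (.rf (nat_lit 2963) (nat_lit 493858305440582043680)) (.cons (.rf (nat_lit 2964) (nat_lit 493858305440582043680)) (.cons (.rf (nat_lit 2965) (nat_lit 493858305440582043680)) (.cons (.rf (nat_lit 2966) (nat_lit 493858305440582043680)) .nil))))) .nil)))))) (.cons (.br (nat_lit 12) (nat_lit 0) (.cons (.rf (nat_lit 2967) (nat_lit 493858305440582043680)) (.cons (.rf (nat_lit 2970) (nat_lit 493858305440582043680)) (.cons (.rf (nat_lit 2971) (nat_lit 493858305440582043680)) (.cons (.rf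 (nat_lit 2972) (nat_lit 493858305440582043680)) (.cons (.br (nat_lit 12) (nat_lit 0) (.cons (.rf (nat_lit 2967) (nat_lit 493858305440582043680)) (.cons (.rf (nat_lit 2970) (nat_lit 493858305440582043680)) (.cons (.rf (nat_lit 2971) (nat_lit 493858305440582043680)) (.cons (.rf (nat_lit 2972) (nat_lit 493858305440582043680)) .nil))))) .nil)))))) .nil)))))),
 (.br (nat_lit 4) (nat_lit 0) (.cons (.ev (nat_lit 79538861172271780161088651521) (nat_lit 1)) .nil)),
 (.br (nat_lit 12) (nat_lit 0) (.cons (.br (nat_lit 11) (nat_lit 0) (.cons (.br (nat_lit 11) (nat_lit 0) (.cons (.ev (nat_lit 202824098459183523800730971539970) (nat_lit 4)) .nil)) (.cons (.br (nat_lit 7) (nat_lit 0) (.cons (.ev (nat_lit 202824098459183523800730971539970) (nat_lit 4)) .nil)) .nil))) (.cons (.br (nat_lit 11) (nat_lit 0) (.cons (.ev (nat_lit 1109201533532903008345220582406) (nat_lit 4)) (.cons (.ev (nat_lit 41198646930231849053660536504834) (nat_lit 4)) .nil))) (.cons (.br (nat_lit 11) (nat_lit 0) (.cons (.ev (nat_lit 310698658007725142033039361)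 (nat_lit 1)) (.cons (.rf (nat_lit 2974) (nat_lit 15433072045018155040)) (.cons (.ev (nat_lit 41201122810162269400902715179530) (nat_lit 4)) .nil)))) (.cons (.rf (nat_lit 2859) (nat_lit 6164517744835625378)) .nil))))),
 (.br (nat_lit 13) (nat_lit 0) (.cons (.rf (nat_lit 2975) (nat_lit 493858305440582043680)) (.cons (.rf (nat_lit 2669) (nat_lit 14208022404722296877)) (.cons (.br (nat_lit 11) (nat_lit 0) (.cons (.br (nat_lit 5) (nat_lit 0) (.cons (.ev (nat_lit 40566683375768825824441436209668) (nat_lit 3)) .nil)) (.cons (.br (nat_lit 3) (nat_lit 0) (.cons (.ev (nat_lit 20362256736240917685003213734656) (nat_lit 2)) .nil)) (.cons (.ev (nat_lit 20282720297605758127718860324864) (nat_lit 1)) .nil)))) (.cons (.rf (nat_lit 2669) (nat_lit 5885226501296850989)) .nil))))),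
 (.br (nat_lit 2) (nat_lit 0) (.cons (.rf (nat_lit 2669) (nat_lit 14242959524133700672)) (.cons (.rf (nat_lit 2859) (nat_lit 14242959524133700672)) (.cons (.rf (nat_lit 2938) (nat_lit 14242959524133700672)) (.cons (.rf (nat_lit 2973) (nat_lit 493858305440582043680)) (.cons (.br (nat_lit 13) (nat_lit 0) (.cons (.rf (nat_lit 2975) (nat_lit 493858305440582043680)) (.cons (.br (nat_lit 13) (nat_lit 0) (.cons (.rf (nat_lit 2975) (nat_lit 493858305440582043680)) (.cons (.rf (nat_lit 2669) (nat_lit 14208022404722296877)) (.cons (.rf (nat_lit 2961) (nat_lit 13951351549195552813)) (.cons (.rf (nat_lit 2859) (nat_lit 6164517744835625378)) .nil))))) (.cons (.rf (nat_lit 2976) (nat_lit 493858305440582043680)) (.cons (.br (nat_lit 13) (nat_lit 0) (.cons (.rf (nat_lit 2975) (nat_lit 493858305440582043680)) (.cons (.rf (nat_lit 2961) (nat_lit 13951351549195552813)) (.cons (.rf (nat_lit 2976) (nat_lit 493858305440582043680)) (.cons (.rf (nat_lit 2859) (nat_lit 6164517744835625378)) .nil))))) (.cons (.rf (nat_lit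 2859) (nat_lit 6164517744835625378)) .nil)))))) .nil)))))),
 (.br (nat_lit 2) (nat_lit 0) (.cons (.rf (nat_lit 2669) (nat_lit 14242959524133700672)) (.cons (.rf (nat_lit 2859) (nat_lit 14242959524133700672)) (.cons (.rf (nat_lit 2961) (nat_lit 493858305440582043680)) (.cons (.rf (nat_lit 2973) (nat_lit 493858305440582043680)) (.cons (.rf (nat_lit 2977) (nat_lit 493858305440582043680)) (.cons (.br (nat_lit 2) (nat_lit 0) (.cons (.rf (nat_lit 2669) (nat_lit 14242959524133700672)) (.cons (.rf (nat_lit 2859) (nat_lit 14242959524133700672)) (.cons (.rf (nat_lit 2961) (nat_lit 493858305440582043680)) (.cons (.rf (nat_lit 2973) (nat_lit 493858305440582043680)) (.cons (.rf (nat_lit 2977) (nat_lit 493858305440582043680)) .nil)))))) .nil))))))),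
 (.br (nat_lit 10) (nat_lit 0) (.cons (.ev (nat_lit 79538861172271780161088651521) (nat_lit 1)) .nil)),
 (.br (nat_lit 10) (nat_lit 0) (.cons (.ev (nat_lit 79538856449905579865931776256) (nat_lit 1)) .nil)),
 (.br (nat_lit 13) (nat_lit 0) (.cons (.br (nat_lit 7) (nat_lit 0) (.cons (.rf (nat_lit 2979) (nat_lit 15433072045018155040)) (.cons (.rf (nat_lit 2980) (nat_lit 493858305440582043680)) (.cons (.ev (nat_lit 20282409603670189226718822138113) (nat_lit 1)) .nil)))) (.cons (.rf (nat_lit 2961) (nat_lit 43026480556351521186)) (.cons (.br (nat_lit 11) (nat_lit 0) (.cons (.br (nat_lit 7) (nat_lit 0) (.cons (.ev (nat_lit 20361637766166007101709338279936) (nat_lit 1)) .nil)) (.cons (.rf (nat_lit 2958) (nat_lit 42921703695294235042)) (.cons (.ev (nat_lit 20282720302309677866514795986944) (nat_lit 1)) .nil)))) (.cons (.rf (nat_lit 2669) (nat_lit 6132992408932417954)) (.cons (.rf (nat_lit 2859) (nat_lit 6132992408932417954)) .nil)))))),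
 (.br (nat_lit 13) (nat_lit 0) (.cons (.rf (nat_lit 2961) (nat_lit 43026480556351521186)) (.cons (.rf (nat_lit 2669) (nat_lit 14208022404722296877)) (.cons (.br (nat_lit 3) (nat_lit 0) (.cons (.br (nat_lit 11) (nat_lit 0) (.cons (.ev (nat_lit 79538856449905298395250032896) (nat_lit 1)) .nil)) (.cons (.br (nat_lit 5) (nat_lit 0) (.cons (.ev (nat_lit 20282719093402304997058859302913) (nat_lit 1)) .nil)) (.cons (.br (nat_lit 5) (nat_lit 0) (.cons (.ev (nat_lit 20361637766166007101709338279936) (nat_lit 1)) .nil)) .nil)))) (.cons (.rf (nat_lit 2669) (nat_lit 6132992408932417954)) (.cons (.rf (nat_lit 2669) (nat_lit 5885226501296850989)) .nil)))))),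
 (.br (nat_lit 2) (nat_lit 0) (.cons (.rf (nat_lit 2669) (nat_lit 14242959524133700672)) (.cons (.rf (nat_lit 2859) (nat_lit 14242959524133700672)) (.cons (.rf (nat_lit 2961) (nat_lit 493858305440582043680)) (.cons (.rf (nat_lit 2978) (nat_lit 493858305440582043680)) (.cons (.br (nat_lit 13) (nat_lit 0) (.cons (.rf (nat_lit 2981) (nat_lit 493858305440582043680)) (.cons (.br (nat_lit 13) (nat_lit 0) (.cons (.rf (nat_lit 2981) (nat_lit 493858305440582043680)) (.cons (.rf (nat_lit 2669) (nat_lit 14208022404722296877)) (.cons (.rf (nat_lit 2669) (nat_lit 14090929087143282733)) (.cons (.rf (nat_lit 2669) (nat_lit 6132992408932417954)) (.cons (.rf (nat_lit 2859) (nat_lit 6132992408932417954)) .nil)))))) (.cons (.rf (nat_lit 2982) (nat_lit 493858305440582043680)) (.cons (.br (nat_lit 13) (nat_lit 0) (.cons (.rf (nat_lit 2981) (nat_lit 493858305440582043680)) (.cons (.rf (nat_lit 2669) (nat_lit 14090929087143282733)) (.cons (.rf (nat_lit 2982) (nat_lit 493858305440582043680)) (.cons (.rf (nat_lit 2669)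 (nat_lit 6132992408932417954)) (.cons (.rf (nat_lit 2669) (nat_lit 6164517744835627053)) .nil)))))) (.cons (.rf (nat_lit 2669) (nat_lit 6132992408932417954)) (.cons (.rf (nat_lit 2859) (nat_lit 6132992408932417954)) .nil))))))) .nil)))))),
 (.br (nat_lit 2) (nat_lit 0) (.cons (.rf (nat_lit 2669) (nat_lit 14242959524133700672)) (.cons (.rf (nat_lit 2859) (nat_lit 14242959524133700672)) (.cons (.rf (nat_lit 2961) (nat_lit 493858305440582043680)) (.cons (.rf (nat_lit 2978) (nat_lit 493858305440582043680)) (.cons (.rf (nat_lit 2983) (nat_lit 493858305440582043680)) (.cons (.br (nat_lit 2) (nat_lit 0) (.cons (.rf (nat_lit 2669) (nat_lit 14242959524133700672)) (.cons (.rf (nat_lit 2859) (nat_lit 14242959524133700672)) (.cons (.rf (nat_lit 2961) (nat_lit 493858305440582043680)) (.cons (.rf (nat_lit 2978) (nat_lit 493858305440582043680)) (.cons (.rf (nat_lit 2983) (nat_lit 493858305440582043680)) .nil)))))) .nil)))))))]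

theorem c108 : chkAll C T R L108 (nat_lit 2960) = true := by decide +kernel

theorem l108 : (nat_lit 2960) + L108.length = (nat_lit 2985) := by decide +kernel

/-- part of the certificates -/
def L109 : List Prf := [(.br (nat_lit 2) (nat_lit 0) (.cons (.rf (nat_lit 2669) (nat_lit 14242959524133700672)) (.cons (.rf (nat_lit 2859) (nat_lit 14242959524133700672)) (.cons (.rf (nat_lit 2961) (nat_lit 493858305440582043680)) (.cons (.rf (nat_lit 2978) (nat_lit 493858305440582043680)) (.cons (.rf (nat_lit 2984) (nat_lit 493858305440582043680)) (.cons (.br (nat_lit 2) (nat_lit 0) (.cons (.rf (nat_lit 2669) (nat_lit 14242959524133700672)) (.cons (.rf (nat_lit 2859) (nat_lit 14242959524133700672)) (.cons (.rf (nat_lit 2961) (nat_lit 493858305440582043680)) (.cons (.rf (nat_lit 2978) (nat_lit 493858305440582043680)) (.cons (.rf (nat_lit 2984) (nat_lit 493858305440582043680)) .nil)))))) .nil))))))),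
 (.br (nat_lit 1) (nat_lit 0) (.cons (.rf (nat_lit 2161) (nat_lit 14242959524133701664)) (.cons (.rf (nat_lit 2669) (nat_lit 14242959524133701664)) (.cons (.rf (nat_lit 2859) (nat_lit 14242959524133701664)) (.cons (.rf (nat_lit 2907) (nat_lit 14242959524133701664)) (.cons (.rf (nat_lit 2938) (nat_lit 14242959524133701664)) (.cons (.br (nat_lit 2) (nat_lit 0) (.cons (.rf (nat_lit 2669) (nat_lit 14242959524133700672)) (.cons (.rf (nat_lit 2859) (nat_lit 14242959524133700672)) (.cons (.rf (nat_lit 2961) (nat_lit 493858305440582043680)) (.cons (.rf (nat_lit 2978) (nat_lit 493858305440582043680)) (.cons (.rf (nat_lit 2984) (nat_lit 493858305440582043680)) (.cons (.rf (nat_lit 2985) (nat_lit 493858305440582043680)) (.cons (.br (nat_lit 2) (nat_lit 0) (.cons (.rf (nat_lit 2669) (nat_lit 14242959524133700672)) (.cons (.rf (nat_lit 2859) (nat_lit 14242959524133700672)) (.cons (.rf (nat_lit 2961) (nat_lit 493858305440582043680)) (.cons (.rf (nat_lit 2978) (nat_lit 493858305440582043680)) (.cons (.rf (nat_lit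 2984) (nat_lit 493858305440582043680)) (.cons (.rf (nat_lit 2985) (nat_lit 493858305440582043680)) .nil))))))) .nil)))))))) .nil))))))),
 (.br (nat_lit 3) (nat_lit 0) (.cons (.ev (nat_lit 309485009821626543718268929) (nat_lit 1)) (.cons (.br (nat_lit 13) (nat_lit 0) (.cons (.br (nat_lit 13) (nat_lit 0) .nil) .nil)) .nil))),
 (.br (nat_lit 2) (nat_lit 0) (.cons (.ev (nat_lit 18519083147035934976) (nat_lit 1)) (.cons (.rf (nat_lit 2744) (nat_lit 445092449661060160)) (.cons (.rf (nat_lit 2986) (nat_lit 14242959524133700672)) (.cons (.br (nat_lit 10) (nat_lit 0) (.cons (.ev (nat_lit 309485009821626543718268929) (nat_lit 1)) (.cons (.rf (nat_lit 2987) (nat_lit 14242959524133701664)) (.cons (.br (nat_lit 10) (nat_lit 0) (.cons (.ev (nat_lit 309485009821626543718268929) (nat_lit 1)) (.cons (.rf (nat_lit 2987) (nat_lit 14242959524133701664)) .nil))) .nil)))) (.cons (.br (nat_lit 3) (nat_lit 0) (.cons (.rf (nat_lit 2873) (nat_lit 15001056137283616)) (.cons (.ev (nat_lit 309485009821626543718268929) (nat_lit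 1)) (.cons (.rf (nat_lit 2889) (nat_lit 15000884506363936)) (.cons (.br (nat_lit 5) (nat_lit 0) (.cons (.br (nat_lit 13) (nat_lit 0) (.cons (.br (nat_lit 12) (nat_lit 0) (.cons (.ev (nat_lit 20283029782652473805368574803970) (nat_lit 2)) .nil)) (.cons (.br (nat_lit 10) (nat_lit 0) (.cons (.ev (nat_lit 20283029782652473805368574803970) (nat_lit 2)) .nil)) .nil))) (.cons (.rf (nat_lit 2888) (nat_lit 468777832712224)) (.cons (.br (nat_lit 10) (nat_lit 0) (.cons (.br (nat_lit 10) (nat_lit 0) (.cons (.ev (nat_lit 20283029782652473805368574803970) (nat_lit 2)) .nil)) (.cons (.br (nat_lit 10) (nat_lit 0) (.cons (.ev (nat_lit 20283029782652473805368574803970) (nat_lit 2)) .nil)) .nil))) .nil)))) .nil))))) .nil)))))),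
 (.br (nat_lit 2) (nat_lit 0) (.cons (.ev (nat_lit 18519083147035934976) (nat_lit 1)) (.cons (.rf (nat_lit 2859) (nat_lit 14242959524133700672)) (.cons (.rf (nat_lit 2986) (nat_lit 14242959524133700672)) (.cons (.rf (nat_lit 2988) (nat_lit 14242959524133701664)) (.cons (.br (nat_lit 3) (nat_lit 0) (.cons (.rf (nat_lit 2873) (nat_lit 15002121289173024)) (.cons (.br (nat_lit 5) (nat_lit 0) (.cons (.rf (nat_lit 2890) (nat_lit 468812160927776)) (.cons (.rf (nat_lit 2889) (nat_lit 15001983982405664)) (.cons (.br (nat_lit 10) (nat_lit 0) (.cons (.ev (nat_lit 79229371458602754989977829633) (nat_lit 1)) (.cons (.br (nat_lit 11) (nat_lit 0) (.cons (.ev (nat_lit 20282722715476060557511344849155) (nat_lit 2)) .nil)) .nil))) .nil)))) (.cons (.rf (nat_lit 2889) (nat_lit 15001983984437280)) (.cons (.br (nat_lit 5) (nat_lit 0) (.cons (.br (nat_lit 13) (nat_lit 0) (.cons (.br (nat_lit 11) (nat_lit 0) (.cons (.ev (nat_lit 160318075642373296567141924870) (nat_lit 3)) .nil)) (.cons (.br (nat_lit 10) (nat_lit 0) (.cons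 (.ev (nat_lit 160318075642373296567141924870) (nat_lit 3)) .nil)) .nil))) (.cons (.rf (nat_lit 2888) (nat_lit 468812158896160)) (.cons (.br (nat_lit 10) (nat_lit 0) (.cons (.br (nat_lit 10) (nat_lit 0) (.cons (.ev (nat_lit 1213666704900266079027201) (nat_lit 1)) .nil)) (.cons (.ev (nat_lit 20282409603670189226718822203393) (nat_lit 1)) .nil))) .nil)))) .nil))))) .nil)))))),
 (.br (nat_lit 2) (nat_lit 0) (.cons (.ev (nat_lit 18519083147035934976) (nat_lit 1)) (.cons (.rf (nat_lit 2859) (nat_lit 14242959524133700672)) (.cons (.rf (nat_lit 2986) (nat_lit 14242959524133700672)) (.cons (.rf (nat_lit 2988) (nat_lit 14242959524133701664)) (.cons (.rf (nat_lit 2989) (nat_lit 14242959524133701664)) (.cons (.br (nat_lit 2) (nat_lit 0) (.cons (.ev (nat_lit 18519083147035934976) (nat_lit 1)) (.cons (.rf (nat_lit 2859) (nat_lit 14242959524133700672)) (.cons (.rf (nat_lit 2986) (nat_lit 14242959524133700672)) (.cons (.rf (nat_lit 2988) (nat_lit 14242959524133701664)) (.cons (.rf (nat_lit 2989) (nat_lit 14242959524133701664))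 .nil)))))) .nil))))))),
 (.br (nat_lit 7) (nat_lit 0) (.cons (.ev (nat_lit 1208925891673322724261889) (nat_lit 1)) (.cons (.rf (nat_lit 2887) (nat_lit 15362174367128717344)) .nil))),
 (.br (nat_lit 12) (nat_lit 0) (.cons (.ev (nat_lit 79228162514336395187598721281) (nat_lit 1)) (.cons (.ev (nat_lit 79537647542532426740290093056) (nat_lit 1)) .nil))),
 (.br (nat_lit 13) (nat_lit 0) (.cons (.br (nat_lit 12) (nat_lit 0) (.cons (.ev (nat_lit 316915072723586427231809046018) (nat_lit 3)) .nil)) (.cons (.br (nat_lit 10) (nat_lit 0) (.cons (.ev (nat_lit 316915072723586427231809046018) (nat_lit 3)) .nil)) .nil))),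
 (.br (nat_lit 13) (nat_lit 0) (.cons (.rf (nat_lit 2993) (nat_lit 493858305440582043680)) (.cons (.br (nat_lit 5) (nat_lit 0) (.cons (.ev (nat_lit 316915072723586427231809046018) (nat_lit 3)) .nil)) .nil))),
 (.br (nat_lit 9) (nat_lit 0) (.cons (.ev (nat_lit 79538861172271780161088651521) (nat_lit 1)) .nil)),
 (.br (nat_lit 7) (nat_lit 0) (.cons (.ev (nat_lit 311907620937564750205812995) (nat_lit 2)) (.cons (.rf (nat_lit 2995) (nat_lit 15433072045018155040)) .nil))),
 (.br (nat_lit 12) (nat_lit 0) (.cons (.rf (nat_lit 2995) (nat_lit 14242959524133701664)) (.cons (.br (nat_lit 4) (nat_lit 0) (.cons (.ev (nat_lit 79538861172271780161088651521) (nat_lit 1)) .nil)) .nil))),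
 (.br (nat_lit 2) (nat_lit 0) (.cons (.rf (nat_lit 2669) (nat_lit 14242959524133700672)) (.cons (.rf (nat_lit 2859) (nat_lit 14242959524133700672)) (.cons (.rf (nat_lit 2986) (nat_lit 14242959524133700672)) (.cons (.br (nat_lit 3) (nat_lit 0) (.cons (.rf (nat_lit 2991) (nat_lit 14242959524133701664)) (.cons (.br (nat_lit 5) (nat_lit 0) (.cons (.ev (nat_lit 160318075642373859542865149958) (nat_lit 3)) (.cons (.rf (nat_lit 2862) (nat_lit 468645728913440)) .nil))) (.cons (.ev (nat_lit 309489750634572016391290881) (nat_lit 1)) (.cons (.rf (nat_lit 2919) (nat_lit 493823402543469922336)) .nil))))) (.cons (.br (nat_lit 3) (nat_lit 0) (.cons (.br (nat_lit 13) (nat_lit 0) (.cons (.rf (nat_lit 2992) (nat_lit 493858305440582043680)) (.cons (.br (nat_lit 13) (nat_lit 0) (.cons (.rf (nat_lit 2992) (nat_lit 493858305440582043680)) (.cons (.ev (nat_lit 79537647542532426740290093056) (nat_lit 1)) .nil))) (.cons (.ev (nat_lit 79537647542532426740290093056) (nat_lit 1)) .nil)))) (.cons (.br (nat_lit 13) (nat_lit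 0) (.cons (.rf (nat_lit 2993) (nat_lit 493858305440582043680)) (.cons (.rf (nat_lit 2994) (nat_lit 493858305440582043680)) (.cons (.br (nat_lit 13) (nat_lit 0) (.cons (.rf (nat_lit 2993) (nat_lit 493858305440582043680)) (.cons (.rf (nat_lit 2994) (nat_lit 493858305440582043680)) .nil))) .nil)))) (.cons (.ev (nat_lit 309489750634572016391290881) (nat_lit 1)) (.cons (.br (nat_lit 13) (nat_lit 0) (.cons (.rf (nat_lit 2996) (nat_lit 493858305440582043680)) (.cons (.rf (nat_lit 2997) (nat_lit 15433072045018155040)) (.cons (.br (nat_lit 13) (nat_lit 0) (.cons (.rf (nat_lit 2996) (nat_lit 493858305440582043680)) (.cons (.rf (nat_lit 2997) (nat_lit 15433072045018155040)) .nil))) .nil)))) (.cons (.br (nat_lit 7) (nat_lit 0) (.cons (.br (nat_lit 10) (nat_lit 0) (.cons (.ev (nat_lit 79228162514336395187598721281) (nat_lit 1)) (.cons (.ev (nat_lit 7258369807530976218186242) (nat_lit 3)) .nil))) (.cons (.ev (nat_lit 309485028484824878830191361) (nat_lit 2)) (.cons (.br (nat_lit 5) (nat_lit 0) (.cons (.kr (nat_lit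 2417870086254807069229568) (nat_lit 158456329750895160260051468288) (nat_lit 1) (nat_lit 0)) (.cons (.br (nat_lit 10) (nat_lit 0) (.cons (.ev (nat_lit 20361948464842389229661321167105) (nat_lit 1)) .nil)) .nil))) (.cons (.ev (nat_lit 18519083147035934976) (nat_lit 1)) .nil))))) .nil)))))) .nil)))))),
 (.br (nat_lit 7) (nat_lit 0) (.cons (.br (nat_lit 11) (nat_lit 0) (.cons (.ev (nat_lit 20441176636838496475394420703489) (nat_lit 2)) .nil)) (.cons (.ev (nat_lit 79228167255149622130953486336) (nat_lit 1)) (.cons (.ev (nat_lit 4722438540463699919104) (nat_lit 1)) .nil)))),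
 (.br (nat_lit 13) (nat_lit 0) (.cons (.rf (nat_lit 2999) (nat_lit 493858305440582043680)) (.cons (.ev (nat_lit 18519083147035934976) (nat_lit 1)) (.cons (.rf (nat_lit 2669) (nat_lit 6164517744835625378)) (.cons (.br (nat_lit 13) (nat_lit 0) (.cons (.rf (nat_lit 2999) (nat_lit 493858305440582043680)) (.cons (.ev (nat_lit 18519083147035934976) (nat_lit 1)) (.cons (.rf (nat_lit 2669) (nat_lit 6164517744835625378)) .nil)))) .nil))))),
 (.br (nat_lit 3) (nat_lit 0) (.cons (.br (nat_lit 11) (nat_lit 0) (.cons (.ev (nat_lit 20282722715476060557511344849155) (nat_lit 2)) .nil)) (.cons (.ev (nat_lit 79228167255149622130953486336) (nat_lit 1)) (.cons (.ev (nat_lit 18519083147035934976) (nat_lit 1)) .nil)))),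
 (.br (nat_lit 13) (nat_lit 0) (.cons (.rf (nat_lit 2999) (nat_lit 493858305440582043680)) (.cons (.rf (nat_lit 3001) (nat_lit 493858305440582043680)) (.cons (.rf (nat_lit 2669) (nat_lit 6164517744835625378)) (.cons (.br (nat_lit 13) (nat_lit 0) (.cons (.rf (nat_lit 2999) (nat_lit 493858305440582043680)) (.cons (.rf (nat_lit 3001) (nat_lit 493858305440582043680)) (.cons (.rf (nat_lit 2669) (nat_lit 6164517744835625378)) .nil)))) .nil))))),
 (.br (nat_lit 13) (nat_lit 0) (.cons (.ev (nat_lit 18519083147035934976) (nat_lit 1)) (.cons (.rf (nat_lit 3002) (nat_lit 493858305440582043680)) (.cons (.rf (nat_lit 2669) (nat_lit 6164517744835625378)) (.cons (.br (nat_lit 13) (nat_lit 0) (.cons (.ev (nat_lit 18519083147035934976) (nat_lit 1)) (.cons (.rf (nat_lit 3002) (nat_lit 493858305440582043680)) (.cons (.rf (nat_lit 2669) (nat_lit 6164517744835625378)) .nil)))) .nil))))),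
 (.br (nat_lit 2) (nat_lit 0) (.cons (.rf (nat_lit 2669) (nat_lit 14242959524133700672)) (.cons (.rf (nat_lit 2859) (nat_lit 14242959524133700672)) (.cons (.rf (nat_lit 2986) (nat_lit 14242959524133700672)) (.cons (.rf (nat_lit 2998) (nat_lit 14242959524133701664)) (.cons (.br (nat_lit 13) (nat_lit 0) (.cons (.rf (nat_lit 3000) (nat_lit 493858305440582043680)) (.cons (.rf (nat_lit 3002) (nat_lit 493858305440582043680)) (.cons (.rf (nat_lit 3003) (nat_lit 493858305440582043680)) (.cons (.rf (nat_lit 2669) (nat_lit 6164517744835625378)) (.cons (.br (nat_lit 13) (nat_lit 0) (.cons (.rf (nat_lit 3000) (nat_lit 493858305440582043680)) (.cons (.rf (nat_lit 3002) (nat_lit 493858305440582043680)) (.cons (.rf (nat_lit 3003) (nat_lit 493858305440582043680)) (.cons (.rf (nat_lit 2669) (nat_lit 6164517744835625378)) .nil))))) .nil)))))) .nil)))))),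
 (.br (nat_lit 2) (nat_lit 0) (.cons (.rf (nat_lit 2669) (nat_lit 14242959524133700672)) (.cons (.rf (nat_lit 2859) (nat_lit 14242959524133700672)) (.cons (.rf (nat_lit 2986) (nat_lit 14242959524133700672)) (.cons (.rf (nat_lit 2998) (nat_lit 14242959524133701664)) (.cons (.rf (nat_lit 3004) (nat_lit 14242959524133701664)) (.cons (.br (nat_lit 2) (nat_lit 0) (.cons (.rf (nat_lit 2669) (nat_lit 14242959524133700672)) (.cons (.rf (nat_lit 2859) (nat_lit 14242959524133700672)) (.cons (.rf (nat_lit 2986) (nat_lit 14242959524133700672)) (.cons (.rf (nat_lit 2998) (nat_lit 14242959524133701664)) (.cons (.rf (nat_lit 3004) (nat_lit 14242959524133701664)) .nil)))))) .nil))))))),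
 (.br (nat_lit 2) (nat_lit 0) (.cons (.rf (nat_lit 2669) (nat_lit 14242959524133700672)) (.cons (.rf (nat_lit 2744) (nat_lit 264948636364932160)) (.cons (.rf (nat_lit 2990) (nat_lit 14242959524133701664)) (.cons (.rf (nat_lit 3005) (nat_lit 14242959524133701664)) (.cons (.br (nat_lit 3) (nat_lit 0) (.cons (.rf (nat_lit 2873) (nat_lit 15001983984437280)) (.cons (.rf (nat_lit 2889) (nat_lit 15002121289173024)) (.cons (.ev (nat_lit 309485009821626543718268929) (nat_lit 1)) (.cons (.ev (nat_lit 79537652246452165536225755393) (nat_lit 1)) .nil))))) .nil)))))),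
 (.br (nat_lit 2) (nat_lit 0) (.cons (.rf (nat_lit 2669) (nat_lit 14242959524133700672)) (.cons (.rf (nat_lit 2859) (nat_lit 14242959524133700672)) (.cons (.rf (nat_lit 2990) (nat_lit 14242959524133701664)) (.cons (.rf (nat_lit 3005) (nat_lit 14242959524133701664)) (.cons (.rf (nat_lit 3006) (nat_lit 14242959524133701664)) (.cons (.br (nat_lit 2) (nat_lit 0) (.cons (.rf (nat_lit 2669) (nat_lit 14242959524133700672)) (.cons (.rf (nat_lit 2859) (nat_lit 14242959524133700672)) (.cons (.rf (nat_lit 2990) (nat_lit 14242959524133701664)) (.cons (.rf (nat_lit 3005) (nat_lit 14242959524133701664)) (.cons (.rf (nat_lit 3006) (nat_lit 14242959524133701664)) .nil)))))) .nil))))))),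
 (.br (nat_lit 2) (nat_lit 0) (.cons (.rf (nat_lit 2669) (nat_lit 14242959524133700672)) (.cons (.rf (nat_lit 2859) (nat_lit 14242959524133700672)) (.cons (.rf (nat_lit 2990) (nat_lit 14242959524133701664)) (.cons (.rf (nat_lit 3005) (nat_lit 14242959524133701664)) (.cons (.rf (nat_lit 3007) (nat_lit 14242959524133701664)) (.cons (.br (nat_lit 2) (nat_lit 0) (.cons (.rf (nat_lit 2669) (nat_lit 14242959524133700672)) (.cons (.rf (nat_lit 2859) (nat_lit 14242959524133700672)) (.cons (.rf (nat_lit 2990) (nat_lit 14242959524133701664)) (.cons (.rf (nat_lit 3005) (nat_lit 14242959524133701664)) (.cons (.rf (nat_lit 3007) (nat_lit 14242959524133701664)) .nil)))))) .nil))))))),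
 (.br (nat_lit 2) (nat_lit 0) (.cons (.rf (nat_lit 2669) (nat_lit 14242959524133700672)) (.cons (.rf (nat_lit 2859) (nat_lit 14242959524133700672)) (.cons (.rf (nat_lit 2990) (nat_lit 14242959524133701664)) (.cons (.rf (nat_lit 3005) (nat_lit 14242959524133701664)) (.cons (.rf (nat_lit 3007) (nat_lit 14242959524133701664)) (.cons (.rf (nat_lit 3008) (nat_lit 14242959524133701664)) (.cons (.br (nat_lit 2) (nat_lit 0) (.cons (.rf (nat_lit 2669) (nat_lit 14242959524133700672)) (.cons (.rf (nat_lit 2859) (nat_lit 14242959524133700672)) (.cons (.rf (nat_lit 2990) (nat_lit 14242959524133701664)) (.cons (.rf (nat_lit 3005) (nat_lit 14242959524133701664)) (.cons (.rf (nat_lit 3007) (nat_lit 14242959524133701664)) (.cons (.rf (nat_lit 3008) (nat_lit 14242959524133701664)) .nil))))))) .nil))))))))]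

theorem c109 : chkAll C T R L109 (nat_lit 2985) = true := by decide +kernel

theorem l109 : (nat_lit 2985) + L109.length = (nat_lit 3010) := by decide +kernel

/-- part of the certificates -/
def L110 : List Prf := [(.br (nat_lit 3) (nat_lit 0) (.cons (.ev (nat_lit 309485009821626543718268929) (nat_lit 1)) (.cons (.br (nat_lit 10) (nat_lit 0) (.cons (.ev (nat_lit 79538861190718525338604797953) (nat_lit 1)) (.cons (.br (nat_lit 12) (nat_lit 0) (.cons (.ev (nat_lit 121696316954598440959519064589318) (nat_lit 3)) .nil)) .nil))) (.cons (.br (nat_lit 10) (nat_lit 0) (.cons (.br (nat_lit 12) (nat_lit 0) (.cons (.zr (nat_lit 202914184862344938496) (nat_lit 20282727565309401703523196862465) (nat_lit 30) (nat_lit 7)) .nil)) (.cons (.ev (nat_lit 20282410812577562096174758887424) (nat_lit 1)) .nil))) .nil)))),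
 (.br (nat_lit 10) (nat_lit 0) (.cons (.ev (nat_lit 309485009821626543718268929) (nat_lit 1)) (.cons (.rf (nat_lit 3010) (nat_lit 493858305440582043680)) (.cons (.br (nat_lit 3) (nat_lit 0) (.cons (.br (nat_lit 12) (nat_lit 0) (.cons (.ev (nat_lit 40566683375768824698558709236738) (nat_lit 3)) .nil)) (.cons (.br (nat_lit 5) (nat_lit 0) (.cons (.ev (nat_lit 80160244376599789076914242050) (nat_lit 2)) .nil)) (.cons (.ev (nat_lit 20282720302309677866514795986944) (nat_lit 1)) .nil)))) .nil)))),
 (.br (nat_lit 2) (nat_lit 0) (.cons (.rf (nat_lit 2669) (nat_lit 14242959524133700672)) (.cons (.rf (nat_lit 2859) (nat_lit 14242959524133700672)) (.cons (.rf (nat_lit 2986) (nat_lit 14242959524133700672)) (.cons (.rf (nat_lit 3009) (nat_lit 14242959524133700672)) (.cons (.br (nat_lit 10) (nat_lit 0) (.cons (.ev (nat_lit 309485009821626543718268929) (nat_lit 1)) (.cons (.rf (nat_lit 3010) (nat_lit 493858305440582043680)) (.cons (.rf (nat_lit 3011) (nat_lit 493858305440582043680)) (.cons (.br (nat_lit 10) (nat_lit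 0) (.cons (.ev (nat_lit 309485009821626543718268929) (nat_lit 1)) (.cons (.rf (nat_lit 3010) (nat_lit 493858305440582043680)) (.cons (.rf (nat_lit 3011) (nat_lit 493858305440582043680)) .nil)))) .nil))))) .nil)))))),
 (.br (nat_lit 5) (nat_lit 0) (.cons (.br (nat_lit 13) (nat_lit 0) (.cons (.ev (nat_lit 20282410812577562096174758887424) (nat_lit 1)) (.cons (.ev (nat_lit 20282719093402304997058859237633) (nat_lit 1)) (.cons (.rf (nat_lit 2859) (nat_lit 5885226501296849314)) .nil)))) (.cons (.ev (nat_lit 309489750634853487073034496) (nat_lit 1)) (.cons (.br (nat_lit 11) (nat_lit 0) (.cons (.br (nat_lit 10) (nat_lit 0) (.cons (.ev (nat_lit 310698658007443671351296256) (nat_lit 1)) .nil)) (.cons (.ev (nat_lit 20282409603670189508189503881216) (nat_lit 1)) .nil))) (.cons (.br (nat_lit 10) (nat_lit 0) (.cons (.br (nat_lit 10) (nat_lit 0) (.cons (.ev (nat_lit 310698658007443671351296256) (nat_lit 1)) .nil)) (.cons (.br (nat_lit 10) (nat_lit 0) (.cons (.ev (nat_lit 310698658007443671351296256) (nat_lit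 1)) .nil)) .nil))) .nil))))),
 (.br (nat_lit 13) (nat_lit 0) (.cons (.rf (nat_lit 3013) (nat_lit 493858305440582043680)) (.cons (.br (nat_lit 10) (nat_lit 0) (.cons (.ev (nat_lit 20282410812577562096174758887424) (nat_lit 1)) (.cons (.ev (nat_lit 1213666704900266079027201) (nat_lit 1)) (.cons (.br (nat_lit 3) (nat_lit 0) (.cons (.ev (nat_lit 79537652246452447006907432961) (nat_lit 1)) .nil)) .nil)))) (.cons (.rf (nat_lit 2669) (nat_lit 13951351549195552813)) (.cons (.rf (nat_lit 2859) (nat_lit 5885226501296849314)) .nil))))),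
 (.br (nat_lit 2) (nat_lit 0) (.cons (.rf (nat_lit 2669) (nat_lit 14242959524133700672)) (.cons (.rf (nat_lit 2859) (nat_lit 14242959524133700672)) (.cons (.rf (nat_lit 2986) (nat_lit 14242959524133700672)) (.cons (.rf (nat_lit 3009) (nat_lit 14242959524133700672)) (.cons (.br (nat_lit 13) (nat_lit 0) (.cons (.rf (nat_lit 3013) (nat_lit 493858305440582043680)) (.cons (.rf (nat_lit 3014) (nat_lit 493858305440582043680)) (.cons (.br (nat_lit 13) (nat_lit 0) (.cons (.rf (nat_lit 3013) (nat_lit 493858305440582043680)) (.cons (.rf (nat_lit 3014) (nat_lit 493858305440582043680)) (.cons (.rf (nat_lit 2986) (nat_lit 5885226501296849314)) (.cons (.rf (nat_lit 2859) (nat_lit 5885226501296849314)) .nil))))) (.cons (.br (nat_lit 13) (nat_lit 0) (.cons (.rf (nat_lit 3013) (nat_lit 493858305440582043680)) (.cons (.rf (nat_lit 2669) (nat_lit 13951351549195552813)) (.cons (.rf (nat_lit 2986) (nat_lit 5885226501296849314)) (.cons (.rf (nat_lit 2669) (nat_lit 6132992408932419629)) .nil))))) (.cons (.rf (nat_lit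 2859) (nat_lit 5885226501296849314)) .nil)))))) .nil)))))),
 (.br (nat_lit 2) (nat_lit 0) (.cons (.rf (nat_lit 2669) (nat_lit 14242959524133700672)) (.cons (.rf (nat_lit 2859) (nat_lit 14242959524133700672)) (.cons (.rf (nat_lit 2986) (nat_lit 14242959524133700672)) (.cons (.rf (nat_lit 3012) (nat_lit 493858305440582043680)) (.cons (.rf (nat_lit 3015) (nat_lit 493858305440582043680)) (.cons (.br (nat_lit 2) (nat_lit 0) (.cons (.rf (nat_lit 2669) (nat_lit 14242959524133700672)) (.cons (.rf (nat_lit 2859) (nat_lit 14242959524133700672)) (.cons (.rf (nat_lit 2986) (nat_lit 14242959524133700672)) (.cons (.rf (nat_lit 3012) (nat_lit 493858305440582043680)) (.cons (.rf (nat_lit 3015) (nat_lit 493858305440582043680)) .nil)))))) .nil))))))),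
 (.br (nat_lit 13) (nat_lit 0) (.cons (.br (nat_lit 12) (nat_lit 0) (.cons (.ev (nat_lit 41040195440795626768887109912068) (nat_lit 3)) .nil)) (.cons (.br (nat_lit 10) (nat_lit 0) (.cons (.ev (nat_lit 41040195440795626768887109912068) (nat_lit 3)) .nil)) .nil))),
 (.br (nat_lit 13) (nat_lit 0) (.cons (.rf (nat_lit 3017) (nat_lit 493858305440582043680)) (.cons (.br (nat_lit 5) (nat_lit 0) (.cons (.ev (nat_lit 41040195440795626768887109912068) (nat_lit 3)) .nil)) .nil))),
 (.br (nat_lit 7) (nat_lit 0) (.cons (.ev (nat_lit 316915072723586427231808782850) (nat_lit 3)) (.cons (.ev (nat_lit 18519083147035934976) (nat_lit 1)) .nil))),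
 (.br (nat_lit 11) (nat_lit 0) (.cons (.ev (nat_lit 79229376180897179166073421824) (nat_lit 1)) .nil)),
 (.br (nat_lit 9) (nat_lit 0) (.cons (.ev (nat_lit 79538861172271780161088651521) (nat_lit 1)) .nil)),
 (.br (nat_lit 13) (nat_lit 0) (.cons (.br (nat_lit 12) (nat_lit 0) (.cons (.ev (nat_lit 20361637766184526184856374215171) (nat_lit 2)) .nil)) (.cons (.br (nat_lit 10) (nat_lit 0) (.cons (.ev (nat_lit 20361637766184526184856374215171) (nat_lit 2)) .nil)) .nil))),
 (.br (nat_lit 5) (nat_lit 0) (.cons (.rf (nat_lit 3022) (nat_lit 493858305440582043680)) (.cons (.br (nat_lit 12) (nat_lit 0) (.cons (.ev (nat_lit 284747887498361083077819059931652) (nat_lit 4)) .nil)) .nil))),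
 (.br (nat_lit 2) (nat_lit 0) (.cons (.rf (nat_lit 2669) (nat_lit 14242959524133700672)) (.cons (.rf (nat_lit 2859) (nat_lit 14242959524133700672)) (.cons (.rf (nat_lit 2986) (nat_lit 14242959524133700672)) (.cons (.br (nat_lit 3) (nat_lit 0) (.cons (.br (nat_lit 7) (nat_lit 0) (.cons (.ev (nat_lit 1208925891673322724261889) (nat_lit 1)) (.cons (.ev (nat_lit 79228162514336395187598655489) (nat_lit 1)) (.cons (.br (nat_lit 10) (nat_lit 0) (.cons (.kr (nat_lit 1208925819614629191483392) (nat_lit 79228162514264338693055578112) (nat_lit 3) (nat_lit 0)) (.cons (.br (nat_lit 12) (nat_lit 0) (.cons (.ev (nat_lit 41040195440795626768887109912068) (nat_lit 3)) .nil)) .nil))) .nil)))) (.cons (.br (nat_lit 13) (nat_lit 0) (.cons (.rf (nat_lit 3017) (nat_lit 493858305440582043680)) (.cons (.rf (nat_lit 3018) (nat_lit 493858305440582043680)) (.cons (.br (nat_lit 13) (nat_lit 0) (.cons (.rf (nat_lit 3017) (nat_lit 493858305440582043680)) (.cons (.rf (nat_lit 3018) (nat_lit 493858305440582043680)) .nil))) .nil))))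 (.cons (.ev (nat_lit 309489750634572016391290881) (nat_lit 1)) (.cons (.br (nat_lit 13) (nat_lit 0) (.cons (.rf (nat_lit 3019) (nat_lit 493858305440582043680)) (.cons (.ev (nat_lit 18519083147035934976) (nat_lit 1)) (.cons (.br (nat_lit 13) (nat_lit 0) (.cons (.rf (nat_lit 3019) (nat_lit 493858305440582043680)) (.cons (.ev (nat_lit 18519083147035934976) (nat_lit 1)) .nil))) .nil)))) (.cons (.br (nat_lit 7) (nat_lit 0) (.cons (.br (nat_lit 13) (nat_lit 0) (.cons (.rf (nat_lit 3020) (nat_lit 15433072045018155040)) (.cons (.br (nat_lit 10) (nat_lit 0) (.cons (.ev (nat_lit 20282720297605758409198132002816) (nat_lit 1)) .nil)) .nil))) (.cons (.br (nat_lit 13) (nat_lit 0) (.cons (.br (nat_lit 12) (nat_lit 0) (.cons (.ev (nat_lit 317538878483544048932021862400) (nat_lit 3)) .nil)) (.cons (.br (nat_lit 5) (nat_lit 0) (.cons (.ev (nat_lit 317538878483544048932021862400) (nat_lit 3)) .nil)) .nil))) (.cons (.ev (nat_lit 18519083147035934976) (nat_lit 1)) (.cons (.br (nat_lit 5) (nat_lit 0) (.cons (.br (nat_lit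 12) (nat_lit 0) (.cons (.ev (nat_lit 159082553344335472244040140290) (nat_lit 3)) .nil)) (.cons (.br (nat_lit 10) (nat_lit 0) (.cons (.zr (nat_lit 121696314536710196474675485212678) (nat_lit 316917485760335808929596703744) (nat_lit 20) (nat_lit 1)) .nil)) (.cons (.rf (nat_lit 3021) (nat_lit 15433072045018155040)) .nil)))) .nil))))) .nil)))))) (.cons (.br (nat_lit 3) (nat_lit 0) (.cons (.br (nat_lit 7) (nat_lit 0) (.cons (.ev (nat_lit 1208925891673322724261889) (nat_lit 1)) (.cons (.br (nat_lit 10) (nat_lit 0) (.cons (.kr (nat_lit 18446744073709551616) (nat_lit 79228162514264337593543950336) (nat_lit 8) (nat_lit 0)) (.cons (.br (nat_lit 12) (nat_lit 0) (.cons (.ev (nat_lit 40565440600026549085728103727110) (nat_lit 3)) .nil)) .nil))) (.cons (.br (nat_lit 12) (nat_lit 0) (.cons (.br (nat_lit 12) (nat_lit 0) (.cons (.ev (nat_lit 79538856449905298395250032896) (nat_lit 1)) .nil)) (.cons (.rf (nat_lit 2669) (nat_lit 5885226501296850989)) .nil))) .nil)))) (.cons (.br (nat_lit 12) (nat_lit 0) (.cons (.rf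 (nat_lit 3022) (nat_lit 493858305440582043680)) (.cons (.rf (nat_lit 3023) (nat_lit 493858305440582043680)) (.cons (.br (nat_lit 12) (nat_lit 0) (.cons (.rf (nat_lit 3022) (nat_lit 493858305440582043680)) (.cons (.rf (nat_lit 3023) (nat_lit 493858305440582043680)) .nil))) .nil)))) (.cons (.ev (nat_lit 309489750634572016391290881) (nat_lit 1)) (.cons (.br (nat_lit 7) (nat_lit 0) (.cons (.br (nat_lit 13) (nat_lit 0) (.cons (.ev (nat_lit 7258369807530976218186242) (nat_lit 3)) (.cons (.br (nat_lit 10) (nat_lit 0) (.cons (.ev (nat_lit 7258369807530976218186242) (nat_lit 3)) .nil)) .nil))) (.cons (.br (nat_lit 5) (nat_lit 0) (.cons (.ev (nat_lit 318771982819262744695004201988) (nat_lit 3)) (.cons (.br (nat_lit 12) (nat_lit 0) (.cons (.ev (nat_lit 203302574373735764733996461985292) (nat_lit 4)) .nil)) .nil))) (.cons (.kr (nat_lit 4740813226947649732608) (nat_lit 158456325028528956662064611328) (nat_lit 4) (nat_lit 0)) (.cons (.ev (nat_lit 18519083147035934976) (nat_lit 1)) .nil))))) (.cons (.br (nat_lit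 12) (nat_lit 0) (.cons (.br (nat_lit 12) (nat_lit 0) (.cons (.ev (nat_lit 18519083147035934976) (nat_lit 1)) (.cons (.rf (nat_lit 2968) (nat_lit 15431980264331511840)) (.cons (.rf (nat_lit 2986) (nat_lit 6028215822752777293)) .nil)))) (.cons (.ev (nat_lit 18519083147035934976) (nat_lit 1)) (.cons (.br (nat_lit 12) (nat_lit 0) (.cons (.rf (nat_lit 2968) (nat_lit 15431980264331511840)) (.cons (.ev (nat_lit 18519083147035934976) (nat_lit 1)) (.cons (.rf (nat_lit 2986) (nat_lit 6028215822752777293)) .nil)))) (.cons (.rf (nat_lit 2986) (nat_lit 6028215822752777293)) .nil))))) .nil)))))) .nil)))))),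
 (.br (nat_lit 13) (nat_lit 0) (.cons (.br (nat_lit 7) (nat_lit 0) (.cons (.rf (nat_lit 2980) (nat_lit 493823368458609461280)) (.cons (.rf (nat_lit 2979) (nat_lit 15431980264331511840)) (.cons (.ev (nat_lit 18519083147035934976) (nat_lit 1)) .nil)))) (.cons (.rf (nat_lit 2986) (nat_lit 6164517744835625378)) (.cons (.rf (nat_lit 2669) (nat_lit 6164517744835625378)) (.cons (.br (nat_lit 10) (nat_lit 0) (.cons (.ev (nat_lit 20282719093402304997058859237633) (nat_lit 1)) (.cons (.br (nat_lit 5) (nat_lit 0) (.cons (.ev (nat_lit 20282721506568687969526056353795) (nat_lit 2)) .nil)) (.cons (.ev (nat_lit 121854159145384248259802640155650) (nat_lit 3)) .nil)))) (.cons (.rf (nat_lit 2859) (nat_lit 6164517744835625378)) .nil)))))),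
 (.br (nat_lit 13) (nat_lit 0) (.cons (.rf (nat_lit 2986) (nat_lit 6164517744835625378)) (.cons (.rf (nat_lit 2669) (nat_lit 14208022404722296877)) (.cons (.rf (nat_lit 2669) (nat_lit 6164517744835625378)) (.cons (.br (nat_lit 3) (nat_lit 0) (.cons (.ev (nat_lit 309485009821345073036525824) (nat_lit 1)) (.cons (.br (nat_lit 5) (nat_lit 0) (.cons (.ev (nat_lit 40566683375768825824441436209668) (nat_lit 3)) .nil)) (.cons (.ev (nat_lit 18519083147035934976) (nat_lit 1)) .nil)))) (.cons (.rf (nat_lit 2669) (nat_lit 5885226501296850989)) .nil)))))),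
 (.br (nat_lit 2) (nat_lit 0) (.cons (.rf (nat_lit 2669) (nat_lit 14242959524133700672)) (.cons (.rf (nat_lit 2859) (nat_lit 14242959524133700672)) (.cons (.rf (nat_lit 2986) (nat_lit 14242959524133700672)) (.cons (.rf (nat_lit 3024) (nat_lit 493858305440582043680)) (.cons (.br (nat_lit 13) (nat_lit 0) (.cons (.rf (nat_lit 3025) (nat_lit 493858305440582043680)) (.cons (.br (nat_lit 13) (nat_lit 0) (.cons (.rf (nat_lit 3025) (nat_lit 493858305440582043680)) (.cons (.rf (nat_lit 2669) (nat_lit 14208022404722296877)) (.cons (.rf (nat_lit 2669) (nat_lit 6164517744835625378)) (.cons (.rf (nat_lit 2669) (nat_lit 13951351549195552813)) (.cons (.rf (nat_lit 2859) (nat_lit 6164517744835625378)) .nil)))))) (.cons (.rf (nat_lit 3026) (nat_lit 493858305440582043680)) (.cons (.rf (nat_lit 2669) (nat_lit 6164517744835625378)) (.cons (.br (nat_lit 13) (nat_lit 0) (.cons (.rf (nat_lit 3025) (nat_lit 493858305440582043680)) (.cons (.rf (nat_lit 2669) (nat_lit 13951351549195552813)) (.cons (.rf (nat_lit 3026) (nat_lit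 493858305440582043680)) (.cons (.rf (nat_lit 2669) (nat_lit 6164517744835625378)) (.cons (.rf (nat_lit 2669) (nat_lit 6132992408932419629)) .nil)))))) (.cons (.rf (nat_lit 2859) (nat_lit 6164517744835625378)) .nil))))))) .nil)))))),
 (.br (nat_lit 2) (nat_lit 0) (.cons (.rf (nat_lit 2669) (nat_lit 14242959524133700672)) (.cons (.rf (nat_lit 2859) (nat_lit 14242959524133700672)) (.cons (.rf (nat_lit 2986) (nat_lit 14242959524133700672)) (.cons (.rf (nat_lit 3024) (nat_lit 493858305440582043680)) (.cons (.rf (nat_lit 3027) (nat_lit 493858305440582043680)) (.cons (.br (nat_lit 2) (nat_lit 0) (.cons (.rf (nat_lit 2669) (nat_lit 14242959524133700672)) (.cons (.rf (nat_lit 2859) (nat_lit 14242959524133700672)) (.cons (.rf (nat_lit 2986) (nat_lit 14242959524133700672)) (.cons (.rf (nat_lit 3024) (nat_lit 493858305440582043680)) (.cons (.rf (nat_lit 3027) (nat_lit 493858305440582043680)) .nil)))))) .nil))))))),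
 (.br (nat_lit 3) (nat_lit 0) (.cons (.ev (nat_lit 309485009821626543718268929) (nat_lit 1)) (.cons (.ev (nat_lit 18519083147035934976) (nat_lit 1)) (.cons (.rf (nat_lit 2986) (nat_lit 6132992408932417954)) .nil)))),
 (.br (nat_lit 13) (nat_lit 0) (.cons (.br (nat_lit 12) (nat_lit 0) (.cons (.ev (nat_lit 18519083147035934976) (nat_lit 1)) (.cons (.rf (nat_lit 2968) (nat_lit 15362174367128717344)) (.cons (.rf (nat_lit 2859) (nat_lit 6132992408932417954)) .nil)))) (.cons (.rf (nat_lit 3029) (nat_lit 493858305440582043680)) (.cons (.br (nat_lit 13) (nat_lit 0) (.cons (.rf (nat_lit 3016) (nat_lit 43026480556351521186)) (.cons (.rf (nat_lit 3029) (nat_lit 493858305440582043680)) (.cons (.rf (nat_lit 2859) (nat_lit 6132992408932417954)) .nil)))) (.cons (.rf (nat_lit 2859) (nat_lit 6132992408932417954)) .nil))))),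
 (.br (nat_lit 10) (nat_lit 0) (.cons (.ev (nat_lit 309485009821626543718268929) (nat_lit 1)) (.cons (.rf (nat_lit 3030) (nat_lit 493858305440582043680)) (.cons (.br (nat_lit 13) (nat_lit 0) (.cons (.rf (nat_lit 2974) (nat_lit 15431980264331511840)) (.cons (.rf (nat_lit 2974) (nat_lit 15431980264329480224)) .nil))) (.cons (.br (nat_lit 13) (nat_lit 0) (.cons (.rf (nat_lit 3016) (nat_lit 43026480556351521186)) (.cons (.rf (nat_lit 3016) (nat_lit 14090929087143282733)) (.cons (.rf (nat_lit 2859) (nat_lit 6132992408932417954)) .nil)))) .nil))))),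
 (.br (nat_lit 10) (nat_lit 0) (.cons (.ev (nat_lit 309485009821626543718268929) (nat_lit 1)) (.cons (.rf (nat_lit 3030) (nat_lit 493858305440582043680)) (.cons (.rf (nat_lit 3031) (nat_lit 493858305440582043680)) (.cons (.br (nat_lit 3) (nat_lit 0) (.cons (.ev (nat_lit 79538856449905298395250032896) (nat_lit 1)) (.cons (.br (nat_lit 5) (nat_lit 0) (.cons (.ev (nat_lit 20282719093402304997058859237376) (nat_lit 1)) .nil)) (.cons (.ev (nat_lit 20282720302309677866514795986944) (nat_lit 1)) .nil)))) .nil)))))]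

theorem c110 : chkAll C T R L110 (nat_lit 3010) = true := by decide +kernel

theorem l110 : (nat_lit 3010) + L110.length = (nat_lit 3033) := by decide +kernel

/-- part of the certificates -/
def L111 : List Prf := [(.br (nat_lit 2) (nat_lit 0) (.cons (.rf (nat_lit 2669) (nat_lit 14242959524133700672)) (.cons (.rf (nat_lit 2859) (nat_lit 14242959524133700672)) (.cons (.rf (nat_lit 3009) (nat_lit 14242959524133700672)) (.cons (.rf (nat_lit 3028) (nat_lit 493858305440582043680)) (.cons (.br (nat_lit 10) (nat_lit 0) (.cons (.ev (nat_lit 309485009821626543718268929) (nat_lit 1)) (.cons (.rf (nat_lit 3030) (nat_lit 493858305440582043680)) (.cons (.rf (nat_lit 3031) (nat_lit 493858305440582043680)) (.cons (.rf (nat_lit 3032) (nat_lit 493858305440582043680)) (.cons (.br (nat_lit 10) (nat_lit 0) (.cons (.ev (nat_lit 309485009821626543718268929) (nat_lit 1)) (.cons (.rf (nat_lit 3030) (nat_lit 493858305440582043680)) (.cons (.rf (nat_lit 3031) (nat_lit 493858305440582043680)) (.cons (.rf (nat_lit 3032)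 (nat_lit 493858305440582043680)) .nil))))) .nil)))))) .nil)))))),
 (.br (nat_lit 2) (nat_lit 0) (.cons (.rf (nat_lit 2669) (nat_lit 14242959524133700672)) (.cons (.rf (nat_lit 2859) (nat_lit 14242959524133700672)) (.cons (.rf (nat_lit 3016) (nat_lit 493858305440582043680)) (.cons (.rf (nat_lit 3028) (nat_lit 493858305440582043680)) (.cons (.rf (nat_lit 3033) (nat_lit 493858305440582043680)) (.cons (.br (nat_lit 2) (nat_lit 0) (.cons (.rf (nat_lit 2669) (nat_lit 14242959524133700672)) (.cons (.rf (nat_lit 2859) (nat_lit 14242959524133700672)) (.cons (.rf (nat_lit 3016) (nat_lit 493858305440582043680)) (.cons (.rf (nat_lit 3028) (nat_lit 493858305440582043680)) (.cons (.rf (nat_lit 3033) (nat_lit 493858305440582043680)) .nil)))))) .nil))))))),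
 (.br (nat_lit 2) (nat_lit 0) (.cons (.rf (nat_lit 2669) (nat_lit 14242959524133700672)) (.cons (.rf (nat_lit 2859) (nat_lit 14242959524133700672)) (.cons (.rf (nat_lit 3016) (nat_lit 493858305440582043680)) (.cons (.rf (nat_lit 3028) (nat_lit 493858305440582043680)) (.cons (.rf (nat_lit 3034) (nat_lit 493858305440582043680)) (.cons (.br (nat_lit 2) (nat_lit 0) (.cons (.rf (nat_lit 2669) (nat_lit 14242959524133700672)) (.cons (.rf (nat_lit 2859) (nat_lit 14242959524133700672)) (.cons (.rf (nat_lit 3016) (nat_lit 493858305440582043680)) (.cons (.rf (nat_lit 3028) (nat_lit 493858305440582043680)) (.cons (.rf (nat_lit 3034) (nat_lit 493858305440582043680)) .nil)))))) .nil))))))),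
 (.br (nat_lit 1) (nat_lit 0) (.cons (.rf (nat_lit 2161) (nat_lit 14242959524133701664)) (.cons (.rf (nat_lit 2669) (nat_lit 14242959524133701664)) (.cons (.rf (nat_lit 2859) (nat_lit 14242959524133701664)) (.cons (.rf (nat_lit 2986) (nat_lit 14242959524133701664)) (.cons (.rf (nat_lit 3009) (nat_lit 14242959524133701664)) (.cons (.br (nat_lit 2) (nat_lit 0) (.cons (.rf (nat_lit 2669) (nat_lit 14242959524133700672)) (.cons (.rf (nat_lit 2859) (nat_lit 14242959524133700672)) (.cons (.rf (nat_lit 3016) (nat_lit 493858305440582043680)) (.cons (.rf (nat_lit 3028) (nat_lit 493858305440582043680)) (.cons (.rf (nat_lit 3034) (nat_lit 493858305440582043680)) (.cons (.rf (nat_lit 3035) (nat_lit 493858305440582043680)) (.cons (.br (nat_lit 2) (nat_lit 0) (.cons (.rf (nat_lit 2669) (nat_lit 14242959524133700672)) (.cons (.rf (nat_lit 2859) (nat_lit 14242959524133700672)) (.cons (.rf (nat_lit 3016) (nat_lit 493858305440582043680)) (.cons (.rf (nat_lit 3028) (nat_lit 493858305440582043680)) (.cons (.rf (nat_lit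 3034) (nat_lit 493858305440582043680)) (.cons (.rf (nat_lit 3035) (nat_lit 493858305440582043680)) .nil))))))) .nil)))))))) .nil))))))),
 (.br (nat_lit 10) (nat_lit 0) (.cons (.ev (nat_lit 79229371458602754989977829633) (nat_lit 1)) (.cons (.br (nat_lit 11) (nat_lit 0) (.cons (.ev (nat_lit 20361947255898122590578693636096) (nat_lit 1)) .nil)) .nil))),
 (.br (nat_lit 5) (nat_lit 0) (.cons (.ev (nat_lit 79229371458602754989977829633) (nat_lit 1)) (.cons (.br (nat_lit 11) (nat_lit 0) (.cons (.ev (nat_lit 317538878483545737790472193536) (nat_lit 3)) .nil)) .nil))),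
 (.br (nat_lit 11) (nat_lit 0) (.cons (.rf (nat_lit 3037) (nat_lit 493858305440582043680)) (.cons (.rf (nat_lit 3038) (nat_lit 493858305440582043680)) (.cons (.br (nat_lit 11) (nat_lit 0) (.cons (.rf (nat_lit 3037) (nat_lit 493858305440582043680)) (.cons (.rf (nat_lit 3038) (nat_lit 493858305440582043680)) .nil))) .nil)))),
 (.br (nat_lit 10) (nat_lit 0) (.cons (.ev (nat_lit 1208925819896104168259841) (nat_lit 1)) .nil)),
 (.br (nat_lit 3) (nat_lit 0) (.cons (.rf (nat_lit 3039) (nat_lit 493858305440582043680)) (.cons (.br (nat_lit 10) (nat_lit 0) (.cons (.ev (nat_lit 79537652246452447006907432961) (nat_lit 1)) (.cons (.br (nat_lit 11) (nat_lit 0) (.cons (.ev (nat_lit 20361638979814192916637948117248) (nat_lit 1)) .nil)) .nil))) (.cons (.br (nat_lit 10) (nat_lit 0) (.cons (.rf (nat_lit 3040) (nat_lit 15433072009550071840)) (.cons (.ev (nat_lit 20282410812577562096174758887424) (nat_lit 1)) .nil))) .nil)))),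
 (.br (nat_lit 10) (nat_lit 0) (.cons (.rf (nat_lit 3039) (nat_lit 493858305440582043680)) (.cons (.rf (nat_lit 3041) (nat_lit 493858305440582043680)) (.cons (.br (nat_lit 13) (nat_lit 0) (.cons (.rf (nat_lit 3036) (nat_lit 5885226501296849313)) (.cons (.ev (nat_lit 1213666704900266079027201) (nat_lit 1)) (.cons (.rf (nat_lit 2979) (nat_lit 2489756337379180961)) .nil)))) .nil)))),
 (.br (nat_lit 2) (nat_lit 0) (.cons (.rf (nat_lit 1943) (nat_lit 427010)) (.cons (.rf (nat_lit 2669) (nat_lit 14242959524133700672)) (.cons (.rf (nat_lit 2859) (nat_lit 14242959524133700672)) (.cons (.rf (nat_lit 2986) (nat_lit 14242959524133700672)) (.cons (.rf (nat_lit 3036) (nat_lit 14242959524133700672)) (.cons (.br (nat_lit 1) (nat_lit 0) (.cons (.ev (nat_lit 79228167255149903610225099008) (nat_lit 1)) (.cons (.rf (nat_lit 2859) (nat_lit 14242959524133701664)) (.cons (.rf (nat_lit 2986) (nat_lit 14242959524133701664)) (.cons (.rf (nat_lit 3036) (nat_lit 14242959524133701664)) (.cons (.br (nat_lit 10) (nat_lit 0)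 (.cons (.rf (nat_lit 3039) (nat_lit 493858305440582043680)) (.cons (.rf (nat_lit 3041) (nat_lit 493858305440582043680)) (.cons (.rf (nat_lit 3042) (nat_lit 493858305440582043680)) (.cons (.br (nat_lit 10) (nat_lit 0) (.cons (.rf (nat_lit 3039) (nat_lit 493858305440582043680)) (.cons (.rf (nat_lit 3041) (nat_lit 493858305440582043680)) (.cons (.rf (nat_lit 3042) (nat_lit 493858305440582043680)) .nil)))) .nil))))) .nil)))))) .nil))))))),
 (.br (nat_lit 2) (nat_lit 0) (.cons (.rf (nat_lit 2669) (nat_lit 14242959524133700672)) (.cons (.rf (nat_lit 2859) (nat_lit 14242959524133700672)) (.cons (.rf (nat_lit 2986) (nat_lit 14242959524133700672)) (.cons (.rf (nat_lit 3036) (nat_lit 14242959524133700672)) (.cons (.rf (nat_lit 3043) (nat_lit 493858305440582042688)) (.cons (.rf (nat_lit 3043) (nat_lit 493858305440582043680)) .nil))))))),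
 (.br (nat_lit 7) (nat_lit 0) (.cons (.br (nat_lit 11) (nat_lit 0) (.cons (.ev (nat_lit 20282720311773074312059913569025) (nat_lit 2)) .nil)) (.cons (.ev (nat_lit 4722438540463699919104) (nat_lit 1)) (.cons (.ev (nat_lit 79228167255149622130953486336) (nat_lit 1)) .nil)))),
 (.br (nat_lit 13) (nat_lit 0) (.cons (.rf (nat_lit 3045) (nat_lit 493858305440582043680)) (.cons (.ev (nat_lit 79228167255149622130953486336) (nat_lit 1)) (.cons (.rf (nat_lit 3036) (nat_lit 5885226501296849313)) (.cons (.br (nat_lit 13) (nat_lit 0) (.cons (.rf (nat_lit 3045) (nat_lit 493858305440582043680)) (.cons (.ev (nat_lit 79228167255149622130953486336) (nat_lit 1)) (.cons (.rf (nat_lit 2986) (nat_lit 5885226501296849313)) .nil)))) .nil))))),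
 (.br (nat_lit 13) (nat_lit 0) (.cons (.rf (nat_lit 3045) (nat_lit 493858305440582043680)) (.cons (.rf (nat_lit 2669) (nat_lit 5885226501296849313)) (.cons (.br (nat_lit 13) (nat_lit 0) (.cons (.rf (nat_lit 2891) (nat_lit 2707901746259558817)) (.cons (.ev (nat_lit 79229376162522493785913491713) (nat_lit 1)) (.cons (.rf (nat_lit 2986) (nat_lit 5885226501296849313)) .nil)))) (.cons (.br (nat_lit 13) (nat_lit 0) (.cons (.rf (nat_lit 3045) (nat_lit 493858305440582043680)) (.cons (.rf (nat_lit 2669) (nat_lit 5885226501296849313)) (.cons (.rf (nat_lit 2986) (nat_lit 5885226501296849313)) .nil)))) .nil))))),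
 (.br (nat_lit 13) (nat_lit 0) (.cons (.br (nat_lit 7) (nat_lit 0) (.cons (.ev (nat_lit 20282409603670189226718822138113) (nat_lit 1)) (.cons (.ev (nat_lit 18519083147035934976) (nat_lit 1)) (.cons (.rf (nat_lit 2979) (nat_lit 15395984452728490016)) .nil)))) (.cons (.rf (nat_lit 2669) (nat_lit 5885226501296849313)) (.cons (.rf (nat_lit 3036) (nat_lit 5885226501296849313)) (.cons (.br (nat_lit 7) (nat_lit 0) (.cons (.ev (nat_lit 20282719093402304997058859302913) (nat_lit 1)) (.cons (.ev (nat_lit 20282720297605758409198132068608) (nat_lit 1)) (.cons (.ev (nat_lit 79537652246452165536225689601) (nat_lit 1)) .nil)))) (.cons (.rf (nat_lit 2859) (nat_lit 5885226501296849313)) .nil)))))),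
 (.br (nat_lit 2) (nat_lit 0) (.cons (.rf (nat_lit 2669) (nat_lit 14242959524133700672)) (.cons (.rf (nat_lit 2859) (nat_lit 14242959524133700672)) (.cons (.rf (nat_lit 2986) (nat_lit 14242959524133700672)) (.cons (.br (nat_lit 13) (nat_lit 0) (.cons (.rf (nat_lit 3046) (nat_lit 493858305440582043680)) (.cons (.rf (nat_lit 3047) (nat_lit 493858305440582043680)) (.cons (.rf (nat_lit 2669) (nat_lit 5885226501296849313)) (.cons (.br (nat_lit 13) (nat_lit 0) (.cons (.rf (nat_lit 3036) (nat_lit 5885226501296849313)) (.cons (.rf (nat_lit 3047) (nat_lit 493858305440582043680)) (.cons (.rf (nat_lit 2669) (nat_lit 5885226501296849313)) (.cons (.rf (nat_lit 2986) (nat_lit 5885226501296849313)) .nil))))) (.cons (.br (nat_lit 13) (nat_lit 0) (.cons (.rf (nat_lit 3046) (nat_lit 493858305440582043680)) (.cons (.rf (nat_lit 3047) (nat_lit 493858305440582043680)) (.cons (.rf (nat_lit 2669) (nat_lit 5885226501296849313)) (.cons (.rf (nat_lit 2986) (nat_lit 5885226501296849313)) .nil))))) .nil)))))) (.cons (.br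 (nat_lit 13) (nat_lit 0) (.cons (.rf (nat_lit 3048) (nat_lit 493858305440582043680)) (.cons (.br (nat_lit 13) (nat_lit 0) (.cons (.rf (nat_lit 3048) (nat_lit 493858305440582043680)) (.cons (.rf (nat_lit 2669) (nat_lit 5885226501296849313)) (.cons (.rf (nat_lit 2669) (nat_lit 14090929087143281741)) (.cons (.rf (nat_lit 2669) (nat_lit 13951351549195551821)) (.cons (.rf (nat_lit 2859) (nat_lit 5885226501296849313)) .nil)))))) (.cons (.rf (nat_lit 2669) (nat_lit 5885226501296849313)) (.cons (.br (nat_lit 13) (nat_lit 0) (.cons (.rf (nat_lit 3036) (nat_lit 5885226501296849313)) (.cons (.rf (nat_lit 2669) (nat_lit 14090929087143281741)) (.cons (.rf (nat_lit 2669) (nat_lit 5885226501296849313)) (.cons (.rf (nat_lit 2986) (nat_lit 5885226501296849313)) (.cons (.rf (nat_lit 2669) (nat_lit 6164517744835626061)) .nil)))))) (.cons (.br (nat_lit 13) (nat_lit 0) (.cons (.rf (nat_lit 3048) (nat_lit 493858305440582043680)) (.cons (.rf (nat_lit 2669) (nat_lit 13951351549195551821)) (.cons (.rf (nat_lit 2669) (nat_lit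 5885226501296849313)) (.cons (.rf (nat_lit 2986) (nat_lit 5885226501296849313)) (.cons (.rf (nat_lit 2669) (nat_lit 6132992408932418637)) .nil)))))) (.cons (.rf (nat_lit 2859) (nat_lit 5885226501296849313)) .nil))))))) .nil)))))),
 (.br (nat_lit 7) (nat_lit 0) (.cons (.br (nat_lit 10) (nat_lit 0) (.cons (.br (nat_lit 11) (nat_lit 0) (.cons (.ev (nat_lit 81130883612941698278884452336130) (nat_lit 3)) .nil)) (.cons (.ev (nat_lit 20361638975110273177842012455168) (nat_lit 1)) .nil))) (.cons (.br (nat_lit 5) (nat_lit 0) (.cons (.br (nat_lit 11) (nat_lit 0) (.cons (.ev (nat_lit 81129640837199422666053846566402) (nat_lit 3)) .nil)) (.cons (.ev (nat_lit 20361637770906820328652693110785) (nat_lit 1)) .nil))) (.cons (.ev (nat_lit 18519083147035934976) (nat_lit 1)) (.cons (.rf (nat_lit 2669) (nat_lit 5885226501296849313)) .nil))))),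
 (.br (nat_lit 13) (nat_lit 0) (.cons (.rf (nat_lit 3050) (nat_lit 493858305440582043680)) (.cons (.rf (nat_lit 2669) (nat_lit 5885226501296849313)) (.cons (.rf (nat_lit 2669) (nat_lit 6164517744835625378)) (.cons (.br (nat_lit 3) (nat_lit 0) (.cons (.ev (nat_lit 40564819212081337202939697038342) (nat_lit 3)) (.cons (.br (nat_lit 7) (nat_lit 0) (.cons (.ev (nat_lit 40564819212081336077056970064902) (nat_lit 3)) .nil)) (.cons (.ev (nat_lit 40566057152194121329150462788610) (nat_lit 3)) .nil)))) .nil))))),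
 (.br (nat_lit 2) (nat_lit 0) (.cons (.rf (nat_lit 2669) (nat_lit 14242959524133700672)) (.cons (.rf (nat_lit 2859) (nat_lit 14242959524133700672)) (.cons (.rf (nat_lit 2986) (nat_lit 14242959524133700672)) (.cons (.rf (nat_lit 3049) (nat_lit 493858305440582043680)) (.cons (.br (nat_lit 13) (nat_lit 0) (.cons (.rf (nat_lit 3050) (nat_lit 493858305440582043680)) (.cons (.rf (nat_lit 3051) (nat_lit 493858305440582043680)) (.cons (.rf (nat_lit 2669) (nat_lit 5885226501296849313)) (.cons (.rf (nat_lit 2669) (nat_lit 6164517744835625378)) (.cons (.br (nat_lit 13) (nat_lit 0) (.cons (.rf (nat_lit 3050) (nat_lit 493858305440582043680)) (.cons (.rf (nat_lit 3051) (nat_lit 493858305440582043680)) (.cons (.rf (nat_lit 2669) (nat_lit 5885226501296849313)) (.cons (.rf (nat_lit 2669) (nat_lit 6164517744835625378)) .nil))))) .nil)))))) .nil)))))),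
 (.br (nat_lit 2) (nat_lit 0) (.cons (.rf (nat_lit 2669) (nat_lit 14242959524133700672)) (.cons (.rf (nat_lit 2859) (nat_lit 14242959524133700672)) (.cons (.rf (nat_lit 2986) (nat_lit 14242959524133700672)) (.cons (.rf (nat_lit 3049) (nat_lit 493858305440582043680)) (.cons (.rf (nat_lit 3052) (nat_lit 493858305440582043680)) (.cons (.br (nat_lit 2) (nat_lit 0) (.cons (.rf (nat_lit 2669) (nat_lit 14242959524133700672)) (.cons (.rf (nat_lit 2859) (nat_lit 14242959524133700672)) (.cons (.rf (nat_lit 2986) (nat_lit 14242959524133700672)) (.cons (.rf (nat_lit 3049) (nat_lit 493858305440582043680)) (.cons (.rf (nat_lit 3052) (nat_lit 493858305440582043680)) .nil)))))) .nil))))))),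
 (.br (nat_lit 10) (nat_lit 0) (.cons (.ev (nat_lit 18518801667764257024) (nat_lit 1)) (.cons (.kr (nat_lit 158458742880168185924742545408) (nat_lit 618974760600034467903438848) (nat_lit 3) (nat_lit 0)) .nil))),
 (.br (nat_lit 13) (nat_lit 0) (.cons (.rf (nat_lit 3043) (nat_lit 43026480556351534082)) (.cons (.rf (nat_lit 2669) (nat_lit 5885226501296849313)) (.cons (.br (nat_lit 3) (nat_lit 0) (.cons (.rf (nat_lit 3054) (nat_lit 493858305440582043680)) (.cons (.br (nat_lit 7) (nat_lit 0) (.cons (.ev (nat_lit 1117267486859774287102769371152) (nat_lit 5)) .nil)) (.cons (.rf (nat_lit 3054) (nat_lit 43026480556351534082)) .nil)))) (.cons (.rf (nat_lit 2669) (nat_lit 6132992408932417954)) .nil))))),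
 (.br (nat_lit 2) (nat_lit 0) (.cons (.rf (nat_lit 2669) (nat_lit 14242959524133700672)) (.cons (.rf (nat_lit 2859) (nat_lit 14242959524133700672)) (.cons (.rf (nat_lit 3036) (nat_lit 14242959524133700672)) (.cons (.rf (nat_lit 3053) (nat_lit 493858305440582043680)) (.cons (.br (nat_lit 13) (nat_lit 0) (.cons (.rf (nat_lit 3043) (nat_lit 43026480556351534082)) (.cons (.rf (nat_lit 3055) (nat_lit 493858305440582043680)) (.cons (.rf (nat_lit 2669) (nat_lit 5885226501296849313)) (.cons (.br (nat_lit 13) (nat_lit 0) (.cons (.rf (nat_lit 3036) (nat_lit 5885226501296849313)) (.cons (.rf (nat_lit 3055) (nat_lit 493858305440582043680)) (.cons (.rf (nat_lit 2669) (nat_lit 5885226501296849313)) (.cons (.rf (nat_lit 2669) (nat_lit 6132992408932417954)) .nil))))) (.cons (.rf (nat_lit 2669) (nat_lit 6132992408932417954)) .nil)))))) .nil))))))]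

theorem c111 : chkAll C T R L111 (nat_lit 3033) = true := by decide +kernel

theorem l111 : (nat_lit 3033) + L111.length = (nat_lit 3057) := by decide +kernel

/-- part of the certificates -/
def L112 : List Prf := [(.br (nat_lit 2) (nat_lit 0) (.cons (.rf (nat_lit 2669) (nat_lit 14242959524133700672)) (.cons (.rf (nat_lit 2859) (nat_lit 14242959524133700672)) (.cons (.rf (nat_lit 3036) (nat_lit 14242959524133700672)) (.cons (.rf (nat_lit 3053) (nat_lit 493858305440582043680)) (.cons (.rf (nat_lit 3056) (nat_lit 493858305440582043680)) (.cons (.br (nat_lit 2) (nat_lit 0) (.cons (.rf (nat_lit 2669) (nat_lit 14242959524133700672)) (.cons (.rf (nat_lit 2859) (nat_lit 14242959524133700672)) (.cons (.rf (nat_lit 3036) (nat_lit 14242959524133700672)) (.cons (.rf (nat_lit 3053) (nat_lit 493858305440582043680)) (.cons (.rf (nat_lit 3056) (nat_lit 493858305440582043680)) .nil)))))) .nil))))))),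
 (.br (nat_lit 2) (nat_lit 0) (.cons (.rf (nat_lit 2669) (nat_lit 14242959524133700672)) (.cons (.rf (nat_lit 2859) (nat_lit 14242959524133700672)) (.cons (.rf (nat_lit 3043) (nat_lit 493858305440582042688)) (.cons (.rf (nat_lit 3053) (nat_lit 493858305440582043680)) (.cons (.rf (nat_lit 3057) (nat_lit 493858305440582043680)) (.cons (.br (nat_lit 2) (nat_lit 0) (.cons (.rf (nat_lit 2669) (nat_lit 14242959524133700672)) (.cons (.rf (nat_lit 2859) (nat_lit 14242959524133700672)) (.cons (.rf (nat_lit 3043) (nat_lit 493858305440582043680)) (.cons (.rf (nat_lit 3053) (nat_lit 493858305440582043680)) (.cons (.rf (nat_lit 3057) (nat_lit 493858305440582043680)) .nil)))))) .nil))))))),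
 (.br (nat_lit 1) (nat_lit 0) (.cons (.rf (nat_lit 2161) (nat_lit 14242959524133701664)) (.cons (.rf (nat_lit 2669) (nat_lit 14242959524133701664)) (.cons (.rf (nat_lit 2859) (nat_lit 14242959524133701664)) (.cons (.rf (nat_lit 2986) (nat_lit 14242959524133701664)) (.cons (.rf (nat_lit 3036) (nat_lit 14242959524133701664)) (.cons (.br (nat_lit 2) (nat_lit 0) (.cons (.rf (nat_lit 2669) (nat_lit 14242959524133700672)) (.cons (.rf (nat_lit 2859) (nat_lit 14242959524133700672)) (.cons (.rf (nat_lit 3044) (nat_lit 493858305440582043680)) (.cons (.rf (nat_lit 3053) (nat_lit 493858305440582043680)) (.cons (.rf (nat_lit 3057) (nat_lit 493858305440582043680)) (.cons (.rf (nat_lit 3058) (nat_lit 493858305440582043680)) (.cons (.br (nat_lit 2) (nat_lit 0) (.cons (.rf (nat_lit 2669) (nat_lit 14242959524133700672)) (.cons (.rf (nat_lit 2859) (nat_lit 14242959524133700672)) (.cons (.rf (nat_lit 3043) (nat_lit 493858305440582043680)) (.cons (.rf (nat_lit 3053) (nat_lit 493858305440582043680)) (.cons (.rf (nat_lit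 3057) (nat_lit 493858305440582043680)) (.cons (.rf (nat_lit 3058) (nat_lit 493858305440582043680)) .nil))))))) .nil)))))))) .nil))))))),
 (.br (nat_lit 1) (nat_lit 0) (.cons (.rf (nat_lit 2161) (nat_lit 14242959524133701664)) (.cons (.rf (nat_lit 2669) (nat_lit 14242959524133701664)) (.cons (.rf (nat_lit 2859) (nat_lit 14242959524133701664)) (.cons (.rf (nat_lit 2986) (nat_lit 14242959524133701664)) (.cons (.rf (nat_lit 3036) (nat_lit 14242959524133701664)) (.cons (.rf (nat_lit 3059) (nat_lit 14242959524133701664)) (.cons (.br (nat_lit 1) (nat_lit 0) (.cons (.rf (nat_lit 1943) (nat_lit 428033)) (.cons (.rf (nat_lit 2669) (nat_lit 14242959524133701664)) (.cons (.rf (nat_lit 2859) (nat_lit 14242959524133701664)) (.cons (.rf (nat_lit 2986) (nat_lit 14242959524133701664)) (.cons (.rf (nat_lit 3036) (nat_lit 14242959524133701664)) (.cons (.rf (nat_lit 3059) (nat_lit 14242959524133701664)) .nil))))))) .nil)))))))),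
 (.br (nat_lit 7) (nat_lit 0) (.cons (.br (nat_lit 7) (nat_lit 0) .nil) .nil)),
 (.br (nat_lit 2) (nat_lit 0) (.cons (.rf (nat_lit 2669) (nat_lit 14242959524133700672)) (.cons (.rf (nat_lit 2859) (nat_lit 14242959524133700672)) (.cons (.rf (nat_lit 3060) (nat_lit 14242959524133700672)) (.cons (.br (nat_lit 3) (nat_lit 0) (.cons (.zr (nat_lit 158458742880167904458355770880) (nat_lit 4777707000963797352448) (nat_lit 10) (nat_lit 1)) (.cons (.ev (nat_lit 79537652246452165536225755393) (nat_lit 1)) (.cons (.br (nat_lit 13) (nat_lit 0) (.cons (.rf (nat_lit 3061) (nat_lit 493858305440582043680)) (.cons (.br (nat_lit 13) (nat_lit 0) (.cons (.rf (nat_lit 3061) (nat_lit 493858305440582043680)) .nil)) .nil))) .nil)))) (.cons (.br (nat_lit 3) (nat_lit 0) (.cons (.rf (nat_lit 2873) (nat_lit 14895500974196768)) (.cons (.br (nat_lit 5) (nat_lit 0) (.cons (.rf (nat_lit 2890) (nat_lit 465482521085984)) (.cons (.rf (nat_lit 2889) (nat_lit 14895432319797280)) (.cons (.br (nat_lit 13) (nat_lit 0) (.cons (.br (nat_lit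 12) (nat_lit 0) (.cons (.ev (nat_lit 475987949883368620791597106690) (nat_lit 3)) .nil)) (.cons (.br (nat_lit 7) (nat_lit 0) (.cons (.ev (nat_lit 475987949883368620791597106690) (nat_lit 3)) .nil)) .nil))) .nil)))) (.cons (.rf (nat_lit 2889) (nat_lit 14895432321828896)) (.cons (.br (nat_lit 5) (nat_lit 0) (.cons (.br (nat_lit 13) (nat_lit 0) (.cons (.br (nat_lit 12) (nat_lit 0) (.cons (.ev (nat_lit 475385904825347467599493727750) (nat_lit 4)) .nil)) (.cons (.ev (nat_lit 477861785050913468186850758150) (nat_lit 4)) .nil))) (.cons (.ev (nat_lit 79537652246452447006907498496) (nat_lit 1)) (.cons (.br (nat_lit 12) (nat_lit 0) (.cons (.br (nat_lit 7) (nat_lit 0) (.cons (.ev (nat_lit 40724513477185755953248767836162) (nat_lit 3)) .nil)) (.cons (.zr (nat_lit 4740813230241889648897) (nat_lit 20440865928680199662088587575296) (nat_lit 5) (nat_lit 0)) .nil))) .nil)))) .nil))))) .nil)))))),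
 (.br (nat_lit 2) (nat_lit 0) (.cons (.rf (nat_lit 2669) (nat_lit 14242959524133700672)) (.cons (.rf (nat_lit 2859) (nat_lit 14242959524133700672)) (.cons (.rf (nat_lit 3060) (nat_lit 14242959524133700672)) (.cons (.rf (nat_lit 3062) (nat_lit 14242959524133701664)) (.cons (.br (nat_lit 3) (nat_lit 0) (.cons (.rf (nat_lit 2873) (nat_lit 14896566126086176)) (.cons (.br (nat_lit 5) (nat_lit 0) (.cons (.rf (nat_lit 2890) (nat_lit 465516847269920)) (.cons (.rf (nat_lit 2889) (nat_lit 14896531797870624)) (.cons (.zr (nat_lit 92234566992501145606) (nat_lit 4840425644941390706246144) (nat_lit 10) (nat_lit 5)) .nil)))) (.cons (.rf (nat_lit 2889) (nat_lit 14896531799902240)) (.cons (.br (nat_lit 7) (nat_lit 0) (.cons (.br (nat_lit 13) (nat_lit 0) (.cons (.rf (nat_lit 3060) (nat_lit 6164517744835625378)) (.cons (.ev (nat_lit 310698658007443671351361536) (nat_lit 1)) .nil))) (.cons (.br (nat_lit 13) (nat_lit 0) (.cons (.ev (nat_lit 310693954087986346097442816) (nat_lit 1)) (.cons (.rf (nat_lit 3060) (nat_lit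 6164517744835625378)) .nil))) (.cons (.rf (nat_lit 3060) (nat_lit 6164517744835625378)) .nil)))) .nil))))) .nil)))))),
 (.br (nat_lit 2) (nat_lit 0) (.cons (.rf (nat_lit 2161) (nat_lit 14242959524133701664)) (.cons (.rf (nat_lit 2669) (nat_lit 14242959524133700672)) (.cons (.rf (nat_lit 2859) (nat_lit 14242959524133700672)) (.cons (.rf (nat_lit 3060) (nat_lit 14242959524133700672)) (.cons (.br (nat_lit 1) (nat_lit 0) (.cons (.rf (nat_lit 2669) (nat_lit 14242959524133701664)) (.cons (.rf (nat_lit 2859) (nat_lit 14242959524133701664)) (.cons (.rf (nat_lit 3060) (nat_lit 14242959524133701664)) (.cons (.rf (nat_lit 3062) (nat_lit 14242959524133700672)) (.cons (.rf (nat_lit 3063) (nat_lit 14242959524133700672)) (.cons (.br (nat_lit 1) (nat_lit 0) (.cons (.rf (nat_lit 2669) (nat_lit 14242959524133701664)) (.cons (.rf (nat_lit 2859) (nat_lit 14242959524133701664)) (.cons (.rf (nat_lit 3060) (nat_lit 14242959524133701664)) (.cons (.rf (nat_lit 3062) (nat_lit 14242959524133700672)) (.cons (.rf (nat_lit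 3063) (nat_lit 14242959524133700672)) .nil)))))) .nil))))))) (.cons (.rf (nat_lit 3060) (nat_lit 6132992408932430850)) .nil))))))),
 (.br (nat_lit 2) (nat_lit 0) (.cons (.rf (nat_lit 1943) (nat_lit 427010)) (.cons (.rf (nat_lit 2669) (nat_lit 14242959524133700672)) (.cons (.rf (nat_lit 2859) (nat_lit 14242959524133700672)) (.cons (.rf (nat_lit 3060) (nat_lit 14242959524133700672)) (.cons (.rf (nat_lit 3064) (nat_lit 14242959524133700672)) (.cons (.rf (nat_lit 3060) (nat_lit 6132992408932430850)) .nil))))))),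
 (.br (nat_lit 2) (nat_lit 0) (.cons (.rf (nat_lit 1943) (nat_lit 427010)) (.cons (.rf (nat_lit 2669) (nat_lit 14242959524133700672)) (.cons (.rf (nat_lit 2859) (nat_lit 14242959524133700672)) (.cons (.rf (nat_lit 3060) (nat_lit 14242959524133700672)) (.cons (.rf (nat_lit 3064) (nat_lit 14242959524133700672)) (.cons (.rf (nat_lit 3060) (nat_lit 6132992408932430850)) .nil))))))),
 (.br (nat_lit 13) (nat_lit 0) (.cons (.br (nat_lit 12) (nat_lit 0) (.cons (.ev (nat_lit 20361947255898122590578693636096) (nat_lit 1)) .nil)) (.cons (.br (nat_lit 7) (nat_lit 0) (.cons (.ev (nat_lit 20361947255898122590578693636096) (nat_lit 1)) .nil)) .nil))),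
 (.br (nat_lit 12) (nat_lit 0) (.cons (.ev (nat_lit 20361638975110273177842012389376) (nat_lit 1)) .nil)),
 (.br (nat_lit 5) (nat_lit 0) (.cons (.rf (nat_lit 3067) (nat_lit 493858305440582043680)) (.cons (.rf (nat_lit 3068) (nat_lit 493858305440582043680)) .nil))),
 (.br (nat_lit 12) (nat_lit 0) (.cons (.rf (nat_lit 3067) (nat_lit 493858305440582043680)) (.cons (.rf (nat_lit 3069) (nat_lit 493858305440582043680)) (.cons (.br (nat_lit 12) (nat_lit 0) (.cons (.rf (nat_lit 3067) (nat_lit 493858305440582043680)) (.cons (.rf (nat_lit 3069) (nat_lit 493858305440582043680)) .nil))) .nil)))),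
 (.br (nat_lit 3) (nat_lit 0) (.cons (.rf (nat_lit 3070) (nat_lit 493858305440582043680)) (.cons (.br (nat_lit 12) (nat_lit 0) (.cons (.kr (nat_lit 4740813226947649732608) (nat_lit 158456325028528956662064611328) (nat_lit 4) (nat_lit 0)) (.cons (.zr (nat_lit 158456325046976264785239212035) (nat_lit 2422574005712136618180864) (nat_lit 5) (nat_lit 5)) .nil))) (.cons (.br (nat_lit 12) (nat_lit 0) (.cons (.rf (nat_lit 3068) (nat_lit 493858305440515000352)) (.cons (.rf (nat_lit 3060) (nat_lit 6028215822752778285)) .nil))) .nil)))),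
 (.br (nat_lit 7) (nat_lit 0) (.cons (.rf (nat_lit 3070) (nat_lit 493858305440582043680)) (.cons (.rf (nat_lit 3071) (nat_lit 493858305440582043680)) (.cons (.br (nat_lit 12) (nat_lit 0) (.cons (.kr (nat_lit 4740813226947649732608) (nat_lit 158456325028528956662064611328) (nat_lit 4) (nat_lit 0)) (.cons (.br (nat_lit 3) (nat_lit 0) (.cons (.ev (nat_lit 79228167255149903610225164545) (nat_lit 1)) .nil)) (.cons (.rf (nat_lit 3060) (nat_lit 5885226501296850989)) .nil)))) .nil)))),
 (.br (nat_lit 2) (nat_lit 0) (.cons (.rf (nat_lit 2669) (nat_lit 14242959524133700672)) (.cons (.rf (nat_lit 2859) (nat_lit 14242959524133700672)) (.cons (.rf (nat_lit 3060) (nat_lit 14242959524133700672)) (.cons (.rf (nat_lit 3064) (nat_lit 14242959524133701664)) (.cons (.br (nat_lit 7) (nat_lit 0) (.cons (.rf (nat_lit 3070) (nat_lit 493858305440582043680)) (.cons (.rf (nat_lit 3071) (nat_lit 493858305440582043680)) (.cons (.rf (nat_lit 3072) (nat_lit 493858305440582043680)) (.cons (.br (nat_lit 7) (nat_lit 0) (.cons (.rf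 (nat_lit 3070) (nat_lit 493858305440582043680)) (.cons (.rf (nat_lit 3071) (nat_lit 493858305440582043680)) (.cons (.rf (nat_lit 3072) (nat_lit 493858305440582043680)) .nil)))) .nil))))) .nil)))))),
 (.br (nat_lit 13) (nat_lit 0) (.cons (.br (nat_lit 7) (nat_lit 0) (.cons (.ev (nat_lit 310693954087986346097442816) (nat_lit 1)) (.cons (.br (nat_lit 7) (nat_lit 0) (.cons (.ev (nat_lit 310693954087986346097442816) (nat_lit 1)) .nil)) .nil))) (.cons (.rf (nat_lit 3060) (nat_lit 6164517744835625378)) (.cons (.br (nat_lit 7) (nat_lit 0) (.cons (.ev (nat_lit 310698658007443671351361536) (nat_lit 1)) (.cons (.ev (nat_lit 79537652246452165536225689601) (nat_lit 1)) .nil))) (.cons (.rf (nat_lit 2859) (nat_lit 6164517744835625378)) .nil))))),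
 (.br (nat_lit 2) (nat_lit 0) (.cons (.rf (nat_lit 2669) (nat_lit 14242959524133700672)) (.cons (.rf (nat_lit 2859) (nat_lit 14242959524133700672)) (.cons (.rf (nat_lit 3060) (nat_lit 14242959524133700672)) (.cons (.rf (nat_lit 3064) (nat_lit 14242959524133701664)) (.cons (.br (nat_lit 13) (nat_lit 0) (.cons (.rf (nat_lit 3074) (nat_lit 493858305440582043680)) (.cons (.br (nat_lit 13) (nat_lit 0) (.cons (.rf (nat_lit 3074) (nat_lit 493858305440582043680)) (.cons (.rf (nat_lit 3060) (nat_lit 6164517744835625378)) (.cons (.rf (nat_lit 2669) (nat_lit 13951351549195552813)) (.cons (.rf (nat_lit 2859) (nat_lit 6164517744835625378)) .nil))))) (.cons (.rf (nat_lit 3060) (nat_lit 6164517744835625378)) (.cons (.br (nat_lit 13) (nat_lit 0) (.cons (.rf (nat_lit 3074) (nat_lit 493858305440582043680)) (.cons (.rf (nat_lit 2669) (nat_lit 13951351549195552813)) (.cons (.rf (nat_lit 3060) (nat_lit 6164517744835625378)) (.cons (.rf (nat_lit 2669) (nat_lit 6132992408932419629)) .nil))))) (.cons (.rf (nat_lit 2859)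 (nat_lit 6164517744835625378)) .nil)))))) .nil)))))),
 (.br (nat_lit 2) (nat_lit 0) (.cons (.rf (nat_lit 2669) (nat_lit 14242959524133700672)) (.cons (.rf (nat_lit 2859) (nat_lit 14242959524133700672)) (.cons (.rf (nat_lit 3060) (nat_lit 14242959524133700672)) (.cons (.rf (nat_lit 3073) (nat_lit 493858305440582043680)) (.cons (.rf (nat_lit 3075) (nat_lit 493858305440582043680)) (.cons (.br (nat_lit 2) (nat_lit 0) (.cons (.rf (nat_lit 2669) (nat_lit 14242959524133700672)) (.cons (.rf (nat_lit 2859) (nat_lit 14242959524133700672)) (.cons (.rf (nat_lit 3060) (nat_lit 14242959524133700672)) (.cons (.rf (nat_lit 3073) (nat_lit 493858305440582043680)) (.cons (.rf (nat_lit 3075) (nat_lit 493858305440582043680)) .nil)))))) .nil))))))),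
 (.br (nat_lit 2) (nat_lit 0) (.cons (.rf (nat_lit 2669) (nat_lit 14242959524133700672)) (.cons (.rf (nat_lit 2859) (nat_lit 14242959524133700672)) (.cons (.rf (nat_lit 3060) (nat_lit 14242959524133700672)) (.cons (.rf (nat_lit 3076) (nat_lit 493858305440582043680)) (.cons (.rf (nat_lit 3064) (nat_lit 14242959524133701664)) (.cons (.br (nat_lit 2) (nat_lit 0) (.cons (.rf (nat_lit 2669) (nat_lit 14242959524133700672)) (.cons (.rf (nat_lit 2859) (nat_lit 14242959524133700672)) (.cons (.rf (nat_lit 3060) (nat_lit 14242959524133700672)) (.cons (.rf (nat_lit 3076) (nat_lit 493858305440582043680)) (.cons (.rf (nat_lit 3060) (nat_lit 6132992408932430850)) .nil)))))) .nil))))))),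
 (.br (nat_lit 2) (nat_lit 0) (.cons (.rf (nat_lit 2669) (nat_lit 14242959524133700672)) (.cons (.rf (nat_lit 2859) (nat_lit 14242959524133700672)) (.cons (.rf (nat_lit 3060) (nat_lit 14242959524133700672)) (.cons (.rf (nat_lit 3076) (nat_lit 493858305440582043680)) (.cons (.rf (nat_lit 3064) (nat_lit 14242959524133701664)) (.cons (.br (nat_lit 2) (nat_lit 0) (.cons (.rf (nat_lit 2669) (nat_lit 14242959524133700672)) (.cons (.rf (nat_lit 2859) (nat_lit 14242959524133700672)) (.cons (.rf (nat_lit 3060) (nat_lit 14242959524133700672)) (.cons (.rf (nat_lit 3076) (nat_lit 493858305440582043680)) (.cons (.rf (nat_lit 3060) (nat_lit 6132992408932430850)) .nil)))))) .nil))))))),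
 (.br (nat_lit 1) (nat_lit 0) (.cons (.rf (nat_lit 2161) (nat_lit 14242959524133701664)) (.cons (.rf (nat_lit 2669) (nat_lit 14242959524133701664)) (.cons (.rf (nat_lit 2859) (nat_lit 14242959524133701664)) (.cons (.rf (nat_lit 3060) (nat_lit 14242959524133701664)) (.cons (.br (nat_lit 2) (nat_lit 0) (.cons (.rf (nat_lit 2669) (nat_lit 14242959524133700672)) (.cons (.rf (nat_lit 2859) (nat_lit 14242959524133700672)) (.cons (.rf (nat_lit 3060) (nat_lit 14242959524133700672)) (.cons (.rf (nat_lit 3064) (nat_lit 14242959524133700672)) (.cons (.br (nat_lit 2) (nat_lit 0) (.cons (.rf (nat_lit 2669) (nat_lit 14242959524133700672)) (.cons (.rf (nat_lit 2859) (nat_lit 14242959524133700672)) (.cons (.rf (nat_lit 3060) (nat_lit 14242959524133700672)) (.cons (.rf (nat_lit 3064) (nat_lit 14242959524133700672)) (.cons (.rf (nat_lit 3064) (nat_lit 14242959524133701664)) (.cons (.rf (nat_lit 3065) (nat_lit 493858305440582043680)) .nil))))))) (.cons (.br (nat_lit 2) (nat_lit 0) (.cons (.rf (nat_lit 2669) (nat_lit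 14242959524133700672)) (.cons (.rf (nat_lit 2859) (nat_lit 14242959524133700672)) (.cons (.rf (nat_lit 3060) (nat_lit 14242959524133700672)) (.cons (.rf (nat_lit 3064) (nat_lit 14242959524133700672)) (.cons (.rf (nat_lit 3064) (nat_lit 14242959524133701664)) (.cons (.rf (nat_lit 3066) (nat_lit 493858305440582043680)) .nil))))))) (.cons (.br (nat_lit 2) (nat_lit 0) (.cons (.rf (nat_lit 2669) (nat_lit 14242959524133700672)) (.cons (.rf (nat_lit 2859) (nat_lit 14242959524133700672)) (.cons (.rf (nat_lit 3060) (nat_lit 14242959524133700672)) (.cons (.rf (nat_lit 3064) (nat_lit 14242959524133700672)) (.cons (.rf (nat_lit 3065) (nat_lit 493858305440582043680)) (.cons (.rf (nat_lit 3066) (nat_lit 493858305440582043680)) .nil))))))) .nil)))))))) (.cons (.br (nat_lit 2) (nat_lit 0) (.cons (.rf (nat_lit 2669) (nat_lit 14242959524133700672)) (.cons (.rf (nat_lit 2859) (nat_lit 14242959524133700672)) (.cons (.rf (nat_lit 3060) (nat_lit 14242959524133700672)) (.cons (.rf (nat_lit 3076) (nat_lit 493858305440582043680))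 (.cons (.rf (nat_lit 3077) (nat_lit 493858305440582043680)) (.cons (.rf (nat_lit 3078) (nat_lit 493858305440582043680)) (.cons (.br (nat_lit 2) (nat_lit 0) (.cons (.rf (nat_lit 2669) (nat_lit 14242959524133700672)) (.cons (.rf (nat_lit 2859) (nat_lit 14242959524133700672)) (.cons (.rf (nat_lit 3060) (nat_lit 14242959524133700672)) (.cons (.rf (nat_lit 3076) (nat_lit 493858305440582043680)) (.cons (.rf (nat_lit 3077) (nat_lit 493858305440582043680)) (.cons (.rf (nat_lit 3078) (nat_lit 493858305440582043680)) .nil))))))) .nil)))))))) .nil)))))))]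

theorem c112 : chkAll C T R L112 (nat_lit 3057) = true := by decide +kernel

theorem l112 : (nat_lit 3057) + L112.length = (nat_lit 3080) := by decide +kernel

/-- part of the certificates -/
def L113 : List Prf := [(.br (nat_lit 13) (nat_lit 0) (.cons (.br (nat_lit 13) (nat_lit 0) (.cons (.ev (nat_lit 79229371458602754989977829633) (nat_lit 1)) (.cons (.rf (nat_lit 3060) (nat_lit 13951351549195552813)) .nil))) (.cons (.rf (nat_lit 3060) (nat_lit 6164517744835625377)) (.cons (.br (nat_lit 13) (nat_lit 0) (.cons (.rf (nat_lit 3060) (nat_lit 13951351549195552813)) (.cons (.rf (nat_lit 3060) (nat_lit 6164517744835625377)) .nil))) .nil)))),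
 (.br (nat_lit 7) (nat_lit 0) (.cons (.rf (nat_lit 3080) (nat_lit 493858305440582043680)) (.cons (.br (nat_lit 3) (nat_lit 0) (.cons (.ev (nat_lit 309485009821345073036591361) (nat_lit 1)) (.cons (.br (nat_lit 11) (nat_lit 0) (.cons (.ev (nat_lit 79537647542532708210971770881) (nat_lit 1)) .nil)) .nil))) (.cons (.rf (nat_lit 3060) (nat_lit 6164517744835625377)) .nil)))),
 (.br (nat_lit 2) (nat_lit 0) (.cons (.rf (nat_lit 1943) (nat_lit 427010)) (.cons (.rf (nat_lit 2669) (nat_lit 14242959524133700672)) (.cons (.rf (nat_lit 2859) (nat_lit 14242959524133700672)) (.cons (.rf (nat_lit 3060) (nat_lit 14242959524133700672)) (.cons (.rf (nat_lit 3079) (nat_lit 14242959524133700672)) (.cons (.br (nat_lit 1) (nat_lit 0) (.cons (.rf (nat_lit 2669) (nat_lit 14242959524133701664)) (.cons (.rf (nat_lit 2859) (nat_lit 14242959524133701664)) (.cons (.rf (nat_lit 3060) (nat_lit 14242959524133701664)) (.cons (.rf (nat_lit 3079) (nat_lit 14242959524133701664)) (.cons (.br (nat_lit 7) (nat_lit 0) (.cons (.rf (nat_lit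 3080) (nat_lit 493858305440582043680)) (.cons (.rf (nat_lit 3081) (nat_lit 493858305440582043680)) (.cons (.br (nat_lit 7) (nat_lit 0) (.cons (.rf (nat_lit 3080) (nat_lit 493858305440582043680)) (.cons (.rf (nat_lit 3081) (nat_lit 493858305440582043680)) (.cons (.rf (nat_lit 3060) (nat_lit 6164517744835625377)) .nil)))) (.cons (.rf (nat_lit 3060) (nat_lit 6164517744835625377)) .nil))))) .nil)))))) .nil))))))),
 (.br (nat_lit 2) (nat_lit 0) (.cons (.rf (nat_lit 2669) (nat_lit 14242959524133700672)) (.cons (.rf (nat_lit 2859) (nat_lit 14242959524133700672)) (.cons (.rf (nat_lit 3060) (nat_lit 14242959524133700672)) (.cons (.rf (nat_lit 3079) (nat_lit 14242959524133700672)) (.cons (.rf (nat_lit 3082) (nat_lit 493858305440582042688)) (.cons (.rf (nat_lit 3082) (nat_lit 493858305440582043680)) .nil))))))),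
 (.br (nat_lit 2) (nat_lit 0) (.cons (.rf (nat_lit 2669) (nat_lit 14242959524133700672)) (.cons (.rf (nat_lit 2859) (nat_lit 14242959524133700672)) (.cons (.rf (nat_lit 3060) (nat_lit 14242959524133700672)) (.cons (.rf (nat_lit 3079) (nat_lit 14242959524133700672)) (.cons (.rf (nat_lit 3064) (nat_lit 14242959524133701664)) (.cons (.br (nat_lit 2) (nat_lit 0) (.cons (.rf (nat_lit 2669) (nat_lit 14242959524133700672)) (.cons (.rf (nat_lit 2859) (nat_lit 14242959524133700672)) (.cons (.rf (nat_lit 3060) (nat_lit 14242959524133700672)) (.cons (.rf (nat_lit 3079) (nat_lit 14242959524133700672)) (.cons (.rf (nat_lit 3060) (nat_lit 6132992408932430850)) .nil)))))) .nil))))))),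
 (.br (nat_lit 2) (nat_lit 0) (.cons (.rf (nat_lit 2669) (nat_lit 14242959524133700672)) (.cons (.rf (nat_lit 2859) (nat_lit 14242959524133700672)) (.cons (.rf (nat_lit 3060) (nat_lit 14242959524133700672)) (.cons (.rf (nat_lit 3082) (nat_lit 493858305440582042688)) (.cons (.rf (nat_lit 3064) (nat_lit 14242959524133701664)) (.cons (.br (nat_lit 2) (nat_lit 0) (.cons (.rf (nat_lit 2669) (nat_lit 14242959524133700672)) (.cons (.rf (nat_lit 2859) (nat_lit 14242959524133700672)) (.cons (.rf (nat_lit 3060) (nat_lit 14242959524133700672)) (.cons (.rf (nat_lit 3082) (nat_lit 493858305440582043680)) (.cons (.rf (nat_lit 3060) (nat_lit 6132992408932430850)) .nil)))))) .nil))))))),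
 (.br (nat_lit 1) (nat_lit 0) (.cons (.rf (nat_lit 2161) (nat_lit 14242959524133701664)) (.cons (.rf (nat_lit 2669) (nat_lit 14242959524133701664)) (.cons (.rf (nat_lit 2859) (nat_lit 14242959524133701664)) (.cons (.rf (nat_lit 3060) (nat_lit 14242959524133701664)) (.cons (.rf (nat_lit 3079) (nat_lit 14242959524133701664)) (.cons (.br (nat_lit 2) (nat_lit 0) (.cons (.rf (nat_lit 2669) (nat_lit 14242959524133700672)) (.cons (.rf (nat_lit 2859) (nat_lit 14242959524133700672)) (.cons (.rf (nat_lit 3060) (nat_lit 14242959524133700672)) (.cons (.rf (nat_lit 3083) (nat_lit 493858305440582043680)) (.cons (.rf (nat_lit 3084) (nat_lit 493858305440582043680)) (.cons (.rf (nat_lit 3085) (nat_lit 493858305440582043680)) (.cons (.br (nat_lit 2) (nat_lit 0) (.cons (.rf (nat_lit 2669) (nat_lit 14242959524133700672)) (.cons (.rf (nat_lit 2859) (nat_lit 14242959524133700672)) (.cons (.rf (nat_lit 3060) (nat_lit 14242959524133700672)) (.cons (.rf (nat_lit 3082) (nat_lit 493858305440582043680)) (.cons (.rf (nat_lit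 3084) (nat_lit 493858305440582043680)) (.cons (.rf (nat_lit 3085) (nat_lit 493858305440582043680)) .nil))))))) .nil)))))))) .nil))))))),
 (.br (nat_lit 1) (nat_lit 0) (.cons (.rf (nat_lit 2161) (nat_lit 14242959524133701664)) (.cons (.rf (nat_lit 2669) (nat_lit 14242959524133701664)) (.cons (.rf (nat_lit 2859) (nat_lit 14242959524133701664)) (.cons (.rf (nat_lit 3060) (nat_lit 14242959524133701664)) (.cons (.rf (nat_lit 3079) (nat_lit 14242959524133701664)) (.cons (.rf (nat_lit 3086) (nat_lit 14242959524133701664)) (.cons (.br (nat_lit 1) (nat_lit 0) (.cons (.rf (nat_lit 1943) (nat_lit 428033)) (.cons (.rf (nat_lit 2669) (nat_lit 14242959524133701664)) (.cons (.rf (nat_lit 2859) (nat_lit 14242959524133701664)) (.cons (.rf (nat_lit 3060) (nat_lit 14242959524133701664)) (.cons (.rf (nat_lit 3079) (nat_lit 14242959524133701664)) (.cons (.rf (nat_lit 3086) (nat_lit 14242959524133701664)) .nil))))))) .nil)))))))),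
 (.br (nat_lit 1) (nat_lit 0) (.cons (.rf (nat_lit 2161) (nat_lit 14242959524133701664)) (.cons (.rf (nat_lit 2669) (nat_lit 14242959524133701664)) (.cons (.rf (nat_lit 2859) (nat_lit 14242959524133701664)) (.cons (.rf (nat_lit 3060) (nat_lit 14242959524133701664)) (.cons (.rf (nat_lit 3087) (nat_lit 14242959524133701664)) (.cons (.br (nat_lit 1) (nat_lit 0) (.cons (.rf (nat_lit 2161) (nat_lit 14242959524133701664)) (.cons (.rf (nat_lit 2669) (nat_lit 14242959524133701664)) (.cons (.rf (nat_lit 2859) (nat_lit 14242959524133701664)) (.cons (.rf (nat_lit 3060) (nat_lit 14242959524133701664)) (.cons (.rf (nat_lit 3087) (nat_lit 14242959524133701664)) (.cons (.rf (nat_lit 3060) (nat_lit 6132992408932430849)) .nil))))))) (.cons (.br (nat_lit 1) (nat_lit 0) (.cons (.rf (nat_lit 1943) (nat_lit 428033)) (.cons (.rf (nat_lit 2669) (nat_lit 14242959524133701664)) (.cons (.rf (nat_lit 2859) (nat_lit 14242959524133701664)) (.cons (.rf (nat_lit 3060) (nat_lit 14242959524133701664)) (.cons (.rf (nat_lit 3087)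 (nat_lit 14242959524133701664)) (.cons (.rf (nat_lit 3060) (nat_lit 6132992408932430849)) .nil))))))) .nil)))))))),
 (.br (nat_lit 1) (nat_lit 0) (.cons (.rf (nat_lit 2161) (nat_lit 14242959524133701664)) (.cons (.rf (nat_lit 2669) (nat_lit 14242959524133701664)) (.cons (.rf (nat_lit 2859) (nat_lit 14242959524133701664)) (.cons (.rf (nat_lit 3060) (nat_lit 14242959524133701664)) (.cons (.rf (nat_lit 3087) (nat_lit 14242959524133701664)) (.cons (.rf (nat_lit 3088) (nat_lit 14242959524133701664)) (.cons (.br (nat_lit 1) (nat_lit 0) (.cons (.rf (nat_lit 1943) (nat_lit 428033)) (.cons (.rf (nat_lit 2669) (nat_lit 14242959524133701664)) (.cons (.rf (nat_lit 2859) (nat_lit 14242959524133701664)) (.cons (.rf (nat_lit 3060) (nat_lit 14242959524133701664)) (.cons (.rf (nat_lit 3087) (nat_lit 14242959524133701664)) (.cons (.rf (nat_lit 3060) (nat_lit 6132992408932430849)) .nil))))))) .nil)))))))),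
 (.br (nat_lit 1) (nat_lit 0) (.cons (.rf (nat_lit 2161) (nat_lit 14242959524133701664)) (.cons (.rf (nat_lit 2669) (nat_lit 14242959524133701664)) (.cons (.rf (nat_lit 2859) (nat_lit 14242959524133701664)) (.cons (.rf (nat_lit 3060) (nat_lit 14242959524133701664)) (.cons (.rf (nat_lit 3087) (nat_lit 14242959524133701664)) (.cons (.rf (nat_lit 3088) (nat_lit 14242959524133701664)) (.cons (.rf (nat_lit 3089) (nat_lit 14242959524133701664)) (.cons (.br (nat_lit 1) (nat_lit 0) (.cons (.rf (nat_lit 1943) (nat_lit 428033)) (.cons (.rf (nat_lit 2669) (nat_lit 14242959524133701664)) (.cons (.rf (nat_lit 2859) (nat_lit 14242959524133701664)) (.cons (.rf (nat_lit 3060) (nat_lit 14242959524133701664)) (.cons (.rf (nat_lit 3087) (nat_lit 14242959524133701664)) (.cons (.rf (nat_lit 3088) (nat_lit 14242959524133701664)) (.cons (.rf (nat_lit 3089) (nat_lit 14242959524133701664)) .nil)))))))) .nil))))))))),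
 (.br (nat_lit 11) (nat_lit 0) (.cons (.ev (nat_lit 309489750634854590879629313) (nat_lit 1)) (.cons (.ev (nat_lit 309489750634854590879629568) (nat_lit 1)) (.cons (.kr (nat_lit 158456325028528956666359578624) (nat_lit 4740813229142378020864) (nat_lit 4) (nat_lit 0)) (.cons (.br (nat_lit 12) (nat_lit 0) (.cons (.kr (nat_lit 18446745173221179392) (nat_lit 79228162514264619068520660992) (nat_lit 5) (nat_lit 0)) (.cons (.kr (nat_lit 79228162514264619068520660993) (nat_lit 18446745173221179648) (nat_lit 0) (nat_lit 2)) (.cons (.ev (nat_lit 79537647542532708210971770881) (nat_lit 1)) .nil)))) .nil))))),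
 (.br (nat_lit 9) (nat_lit 0) (.cons (.br (nat_lit 9) (nat_lit 0) .nil) .nil)),
 (.br (nat_lit 9) (nat_lit 0) (.cons (.ev (nat_lit 4722438541563194835201) (nat_lit 1)) (.cons (.rf (nat_lit 3092) (nat_lit 434660594255904)) .nil))),
 (.br (nat_lit 5) (nat_lit 0) (.cons (.ev (nat_lit 1208925891954801995940096) (nat_lit 1)) (.cons (.ev (nat_lit 309489750634854590879629313) (nat_lit 1)) (.cons (.rf (nat_lit 3093) (nat_lit 445091350149433376)) (.cons (.br (nat_lit 12) (nat_lit 0) (.cons (.ev (nat_lit 79229376162522492690696830976) (nat_lit 1)) (.cons (.ev (nat_lit 79537647542532426740290093313) (nat_lit 1)) (.cons (.kr (nat_lit 158456325028528956666359578624) (nat_lit 4740813229142378020864) (nat_lit 4) (nat_lit 0)) .nil)))) .nil))))),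
 (.br (nat_lit 5) (nat_lit 0) (.cons (.ev (nat_lit 1208925891954801995939841) (nat_lit 1)) (.cons (.ev (nat_lit 309489750634854590879629568) (nat_lit 1)) (.cons (.rf (nat_lit 3093) (nat_lit 444985897966995457)) (.cons (.br (nat_lit 12) (nat_lit 0) (.cons (.ev (nat_lit 79229376162522492690696831233) (nat_lit 1)) (.cons (.ev (nat_lit 79537647542532426740290093056) (nat_lit 1)) (.cons (.kr (nat_lit 158456325028528956666359578624) (nat_lit 4740813229142378020864) (nat_lit 4) (nat_lit 0)) .nil)))) .nil))))),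
 (.br (nat_lit 5) (nat_lit 0) (.cons (.kr (nat_lit 79228162514264337597838917632) (nat_lit 4722366483969156841472) (nat_lit 4) (nat_lit 0)) (.cons (.kr (nat_lit 4722366483969156841473) (nat_lit 79228162514264337597838917888) (nat_lit 0) (nat_lit 2)) (.cons (.kr (nat_lit 158456325028528956666359578624) (nat_lit 4740813229142378020864) (nat_lit 4) (nat_lit 0)) (.cons (.br (nat_lit 11) (nat_lit 0) (.cons (.ev (nat_lit 79537647542532426740290093313) (nat_lit 1)) (.cons (.ev (nat_lit 79537647542532426740290093056) (nat_lit 1)) (.cons (.ev (nat_lit 309489750634573111608017153) (nat_lit 1)) .nil)))) .nil))))),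
 (.br (nat_lit 2) (nat_lit 0) (.cons (.rf (nat_lit 3090) (nat_lit 14208022404722295810)) (.cons (.rf (nat_lit 3090) (nat_lit 14090929087143281666)) (.cons (.rf (nat_lit 3090) (nat_lit 13951351549195551746)) (.cons (.br (nat_lit 11) (nat_lit 0) (.cons (.rf (nat_lit 3091) (nat_lit 14242959524133701664)) (.cons (.rf (nat_lit 3094) (nat_lit 14242959524133701664)) (.cons (.rf (nat_lit 3095) (nat_lit 14242959524133701664)) (.cons (.rf (nat_lit 3096) (nat_lit 14242959524133701664)) (.cons (.br (nat_lit 11) (nat_lit 0) (.cons (.rf (nat_lit 3091) (nat_lit 14242959524133701664)) (.cons (.rf (nat_lit 3094) (nat_lit 14242959524133701664)) (.cons (.rf (nat_lit 3095) (nat_lit 14242959524133701664)) (.cons (.rf (nat_lit 3096) (nat_lit 14242959524133701664)) .nil))))) .nil)))))) (.cons (.rf (nat_lit 1943) (nat_lit 427010)) .nil)))))),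
 (.br (nat_lit 1) (nat_lit 0) (.cons (.rf (nat_lit 3090) (nat_lit 14242959524133701633)) (.cons (.kr (nat_lit 1) (nat_lit 256) (nat_lit 0) (nat_lit 2)) (.cons (.br (nat_lit 2) (nat_lit 0) (.cons (.rf (nat_lit 3097) (nat_lit 14242959524133701664)) (.cons (.br (nat_lit 2) (nat_lit 0) (.cons (.rf (nat_lit 3090) (nat_lit 14208022404722295810)) (.cons (.kr (nat_lit 18447025548686262274) (nat_lit 4722366482873940312064) (nat_lit 0) (nat_lit 1)) (.cons (.kr (nat_lit 281474976710658) (nat_lit 4295033088) (nat_lit 0) (nat_lit 3)) (.cons (.rf (nat_lit 3090) (nat_lit 5885226501296849922)) (.cons (.rf (nat_lit 1943) (nat_lit 427010)) .nil)))))) (.cons (.br (nat_lit 2) (nat_lit 0) (.cons (.rf (nat_lit 3090) (nat_lit 14090929087143281666)) (.cons (.kr (nat_lit 18447025548686262274) (nat_lit 4722366482873940312064) (nat_lit 0) (nat_lit 1)) (.cons (.kr (nat_lit 281474976710657) (nat_lit 4295032832) (nat_lit 0) (nat_lit 1)) (.cons (.rf (nat_lit 3090) (nat_lit 6164517744835625986)) (.cons (.rf (nat_lit 1943) (nat_lit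 427010)) .nil)))))) (.cons (.br (nat_lit 2) (nat_lit 0) (.cons (.rf (nat_lit 3090) (nat_lit 13951351549195551746)) (.cons (.kr (nat_lit 281474976710658) (nat_lit 4295033088) (nat_lit 0) (nat_lit 3)) (.cons (.kr (nat_lit 281474976710657) (nat_lit 4295032832) (nat_lit 0) (nat_lit 1)) (.cons (.rf (nat_lit 3090) (nat_lit 6132992408932418562)) (.cons (.rf (nat_lit 1943) (nat_lit 427010)) .nil)))))) (.cons (.br (nat_lit 2) (nat_lit 0) (.cons (.rf (nat_lit 3097) (nat_lit 14242959524133701664)) (.cons (.rf (nat_lit 3090) (nat_lit 5885226501296849922)) (.cons (.rf (nat_lit 3090) (nat_lit 6164517744835625986)) (.cons (.rf (nat_lit 3090) (nat_lit 6132992408932418562)) (.cons (.rf (nat_lit 1943) (nat_lit 427010)) .nil)))))) (.cons (.rf (nat_lit 1943) (nat_lit 427010)) .nil))))))) (.cons (.kr (nat_lit 4722366764344621924354) (nat_lit 18446744078004519424) (nat_lit 0) (nat_lit 2)) (.cons (.rf (nat_lit 3090) (nat_lit 6028215822752778241)) (.cons (.rf (nat_lit 1943) (nat_lit 428033)) .nil))))))),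
 (.br (nat_lit 2) (nat_lit 0) (.cons (.rf (nat_lit 3090) (nat_lit 14242959524133700610)) (.cons (.rf (nat_lit 3090) (nat_lit 14208022404722295810)) (.cons (.rf (nat_lit 3090) (nat_lit 14090929087143281666)) (.cons (.rf (nat_lit 3090) (nat_lit 13951351549195551746)) (.cons (.kr (nat_lit 158456325028528956666359578624) (nat_lit 4740813229142378020864) (nat_lit 4) (nat_lit 0)) (.cons (.rf (nat_lit 1943) (nat_lit 427010)) .nil))))))),
 (.br (nat_lit 2) (nat_lit 0) (.cons (.rf (nat_lit 3098) (nat_lit 14242959524133700672)) (.cons (.rf (nat_lit 3090) (nat_lit 14090929087143281666)) (.cons (.kr (nat_lit 18447025548686262274) (nat_lit 4722366482873940312064) (nat_lit 0) (nat_lit 1)) (.cons (.kr (nat_lit 281474976710657) (nat_lit 4295032832) (nat_lit 0) (nat_lit 1)) (.cons (.rf (nat_lit 3090) (nat_lit 6164517744835625986)) (.cons (.rf (nat_lit 1943) (nat_lit 427010)) .nil))))))),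
 (.br (nat_lit 1) (nat_lit 0) (.cons (.rf (nat_lit 3090) (nat_lit 14242959524133701633)) (.cons (.rf (nat_lit 3090) (nat_lit 14208022404722296833)) (.cons (.rf (nat_lit 3090) (nat_lit 14090929087143282689)) (.cons (.rf (nat_lit 3090) (nat_lit 13951351549195552769)) (.cons (.br (nat_lit 2) (nat_lit 0) (.cons (.rf (nat_lit 3098) (nat_lit 14242959524133700672)) (.cons (.rf (nat_lit 3099) (nat_lit 14242959524133701664)) (.cons (.rf (nat_lit 3098) (nat_lit 14208022404722295872)) (.cons (.rf (nat_lit 3100) (nat_lit 14242959524133701664)) (.cons (.rf (nat_lit 3100) (nat_lit 14208022404722296864)) (.cons (.rf (nat_lit 3099) (nat_lit 5885226501296850976)) (.cons (.rf (nat_lit 1943) (nat_lit 427010)) .nil)))))))) (.cons (.rf (nat_lit 1943) (nat_lit 428033)) .nil))))))),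
 (.br (nat_lit 1) (nat_lit 0) (.cons (.rf (nat_lit 3098) (nat_lit 14242959524133701664)) (.cons (.rf (nat_lit 3101) (nat_lit 14242959524133701664)) (.cons (.rf (nat_lit 3098) (nat_lit 14208022404722296864)) (.cons (.rf (nat_lit 3100) (nat_lit 14242959524133700672)) (.cons (.rf (nat_lit 3100) (nat_lit 14208022404722295872)) (.cons (.br (nat_lit 1) (nat_lit 0) (.cons (.rf (nat_lit 3090) (nat_lit 6028215822752778241)) (.cons (.rf (nat_lit 3101) (nat_lit 14242959524133701664)) (.cons (.rf (nat_lit 3090) (nat_lit 5885226501296850945)) (.cons (.rf (nat_lit 3090) (nat_lit 6164517744835627009)) (.cons (.rf (nat_lit 3090) (nat_lit 6132992408932419585)) (.cons (.rf (nat_lit 1943) (nat_lit 428033)) .nil))))))) (.cons (.rf (nat_lit 1943) (nat_lit 428033)) .nil)))))))),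
 (.br (nat_lit 9) (nat_lit 0) (.cons (.br (nat_lit 10) (nat_lit 0) (.cons (.ev (nat_lit 1208925819896104168194304) (nat_lit 1)) (.cons (.rf (nat_lit 2234) (nat_lit 13907903307285568)) .nil))) (.cons (.rf (nat_lit 2164) (nat_lit 10251188406304)) (.cons (.rf (nat_lit 2163) (nat_lit 13875053082149952)) .nil))))]

theorem c113 : chkAll C T R L113 (nat_lit 3080) = true := by decide +kernel

theorem l113 : (nat_lit 3080) + L113.length = (nat_lit 3104) := by decide +kernel

/-- part of the certificates -/
def L114 : List Prf := [(.br (nat_lit 1) (nat_lit 0) (.cons (.ev (nat_lit 1208925891672227507601664) (nat_lit 1)) (.cons (.br (nat_lit 10) (nat_lit 0) (.cons (.ev (nat_lit 310693935857978013095494400) (nat_lit 2)) (.cons (.br (nat_lit 11) (nat_lit 0) (.cons (.zr (nat_lit 621387871426034588203483648) (nat_lit 9481627020135197835267) (nat_lit 5) (nat_lit 0)) (.cons (.rf (nat_lit 2163) (nat_lit 15070293092567072)) .nil))) (.cons (.rf (nat_lit 2163) (nat_lit 15071358240392256)) .nil)))) (.cons (.rf (nat_lit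 3103) (nat_lit 445092449661061152)) (.cons (.rf (nat_lit 3090) (nat_lit 14242959524133712897)) .nil))))),
 (.br (nat_lit 11) (nat_lit 0) (.cons (.br (nat_lit 12) (nat_lit 0) (.cons (.ev (nat_lit 20520097717972066396903011648256) (nat_lit 2)) .nil)) .nil)),
 (.br (nat_lit 11) (nat_lit 0) (.cons (.rf (nat_lit 3105) (nat_lit 493858305440582043680)) (.cons (.br (nat_lit 12) (nat_lit 0) (.cons (.rf (nat_lit 3105) (nat_lit 493858305440582043680)) (.cons (.rf (nat_lit 2266) (nat_lit 492741410467466020896)) .nil))) .nil))),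
 (.br (nat_lit 13) (nat_lit 0) (.cons (.rf (nat_lit 3106) (nat_lit 493858305440582043680)) (.cons (.br (nat_lit 5) (nat_lit 0) (.cons (.rf (nat_lit 2233) (nat_lit 470773885273152)) (.cons (.rf (nat_lit 2233) (nat_lit 469674407199808)) (.cons (.rf (nat_lit 3106) (nat_lit 493858305440582043680)) .nil)))) .nil))),
 (.br (nat_lit 1) (nat_lit 0) (.cons (.ev (nat_lit 1208925891672227507601664) (nat_lit 1)) (.cons (.br (nat_lit 5) (nat_lit 0) (.cons (.kr (nat_lit 4722367327294575345666) (nat_lit 18446746277027774976) (nat_lit 0) (nat_lit 2)) (.cons (.br (nat_lit 11) (nat_lit 0) (.cons (.ev (nat_lit 309489750634573111608016896) (nat_lit 1)) (.cons (.rf (nat_lit 2163) (nat_lit 15064795702200352)) .nil))) (.cons (.rf (nat_lit 2163) (nat_lit 15071186609472576)) .nil)))) (.cons (.rf (nat_lit 3103) (nat_lit 444916527968389152)) (.cons (.br (nat_lit 13) (nat_lit 0) (.cons (.rf (nat_lit 3106) (nat_lit 493858305440582043680)) (.cons (.rf (nat_lit 3107) (nat_lit 493858305440582043680)) (.cons (.br (nat_lit 13)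 (nat_lit 0) (.cons (.rf (nat_lit 3106) (nat_lit 493858305440582043680)) (.cons (.rf (nat_lit 3107) (nat_lit 493858305440582043680)) .nil))) .nil)))) .nil))))),
 (.br (nat_lit 10) (nat_lit 0) (.cons (.ev (nat_lit 79537647542532427835506688001) (nat_lit 1)) (.cons (.rf (nat_lit 2173) (nat_lit 469909489550400)) .nil))),
 (.br (nat_lit 1) (nat_lit 0) (.cons (.rf (nat_lit 3104) (nat_lit 14242959524133701664)) (.cons (.rf (nat_lit 3108) (nat_lit 14242959524133701664)) (.cons (.br (nat_lit 11) (nat_lit 0) (.cons (.rf (nat_lit 3109) (nat_lit 14242959524133701664)) (.cons (.br (nat_lit 5) (nat_lit 0) (.cons (.ev (nat_lit 1864168465483852854639985158) (nat_lit 3)) (.cons (.rf (nat_lit 2173) (nat_lit 469914690487360)) .nil))) (.cons (.br (nat_lit 5) (nat_lit 0) (.cons (.ev (nat_lit 79229371458603036469249441793) (nat_lit 1)) (.cons (.rf (nat_lit 2242) (nat_lit 470946560444448)) .nil))) (.cons (.rf (nat_lit 2206) (nat_lit 15362174364778988608)) .nil))))) (.cons (.br (nat_lit 5) (nat_lit 0) (.cons (.rf (nat_lit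 2175) (nat_lit 15071358240392256)) (.cons (.rf (nat_lit 2198) (nat_lit 15035139955590208)) (.cons (.br (nat_lit 10) (nat_lit 0) (.cons (.rf (nat_lit 2198) (nat_lit 15029647766160448)) (.cons (.ev (nat_lit 1213666705181745350770688) (nat_lit 1)) (.cons (.br (nat_lit 11) (nat_lit 0) (.cons (.ev (nat_lit 309489750634573111608016896) (nat_lit 1)) (.cons (.ev (nat_lit 310693935857413959335412226) (nat_lit 2)) .nil))) .nil)))) (.cons (.br (nat_lit 13) (nat_lit 0) (.cons (.ev (nat_lit 1213666705181745350770688) (nat_lit 1)) (.cons (.ev (nat_lit 309489750634573111608016896) (nat_lit 1)) (.cons (.br (nat_lit 13) (nat_lit 0) (.cons (.ev (nat_lit 1213666705181745350770688) (nat_lit 1)) (.cons (.ev (nat_lit 309489750634573111608016896) (nat_lit 1)) .nil))) .nil)))) .nil))))) .nil))))),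
 (.br (nat_lit 1) (nat_lit 0) (.cons (.rf (nat_lit 3104) (nat_lit 14242959524133701664)) (.cons (.rf (nat_lit 3108) (nat_lit 14242959524133701664)) (.cons (.rf (nat_lit 3110) (nat_lit 14242959524133701664)) (.cons (.br (nat_lit 1) (nat_lit 0) (.cons (.rf (nat_lit 3103) (nat_lit 445092449661061152)) (.cons (.rf (nat_lit 3103) (nat_lit 444916527968389152)) (.cons (.rf (nat_lit 3110) (nat_lit 14242959524133701664)) (.cons (.rf (nat_lit 3090) (nat_lit 6028215822752789505)) .nil))))) (.cons (.br (nat_lit 1) (nat_lit 0) (.cons (.rf (nat_lit 3090) (nat_lit 14242959524133712897)) (.cons (.rf (nat_lit 3108) (nat_lit 14242959524133701664)) (.cons (.rf (nat_lit 3110) (nat_lit 14242959524133701664)) (.cons (.rf (nat_lit 3090) (nat_lit 6028215822752789505)) .nil))))) .nil)))))),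
 (.br (nat_lit 1) (nat_lit 0) (.cons (.br (nat_lit 10) (nat_lit 0) (.cons (.ev (nat_lit 310693935857978013095494400) (nat_lit 2)) (.cons (.br (nat_lit 11) (nat_lit 0) (.cons (.zr (nat_lit 621387871426034588203483648) (nat_lit 9481627020135197835267) (nat_lit 5) (nat_lit 0)) (.cons (.rf (nat_lit 2163) (nat_lit 15070293088502848)) .nil))) (.cons (.rf (nat_lit 2163) (nat_lit 15071358244456480)) .nil)))) (.cons (.ev (nat_lit 309489750634853487073099776) (nat_lit 1)) (.cons (.br (nat_lit 11) (nat_lit 0) (.cons (.br (nat_lit 10) (nat_lit 0) (.cons (.ev (nat_lit 1213666704900266079027456) (nat_lit 1)) (.cons (.rf (nat_lit 2234) (nat_lit 15071186609472576)) .nil))) (.cons (.rf (nat_lit 2164) (nat_lit 12451285403680)) (.cons (.rf (nat_lit 2163) (nat_lit 15002121220097088)) .nil)))) (.cons (.rf (nat_lit 3090) (nat_lit 14242959524133712897)) .nil))))),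
 (.br (nat_lit 1) (nat_lit 0) (.cons (.rf (nat_lit 3112) (nat_lit 14242959524133701664)) (.cons (.ev (nat_lit 309485009821345073036591104) (nat_lit 1)) (.cons (.br (nat_lit 5) (nat_lit 0) (.cons (.br (nat_lit 11) (nat_lit 0) (.cons (.ev (nat_lit 79537652246452166631442415873) (nat_lit 1)) (.cons (.rf (nat_lit 2173) (nat_lit 468810011477056)) .nil))) (.cons (.br (nat_lit 10) (nat_lit 0) (.cons (.ev (nat_lit 79229376162522775265185169665) (nat_lit 1)) (.cons (.rf (nat_lit 2242) (nat_lit 469909489550400)) .nil))) (.cons (.br (nat_lit 10) (nat_lit 0) (.cons (.ev (nat_lit 79230580421388197947982807555) (nat_lit 2)) (.cons (.rf (nat_lit 2173) (nat_lit 463285580302368)) .nil))) (.cons (.br (nat_lit 10) (nat_lit 0) (.cons (.rf (nat_lit 2173) (nat_lit 468816252601408)) (.cons (.rf (nat_lit 2242) (nat_lit 470979846440992)) (.cons (.br (nat_lit 11) (nat_lit 0) (.cons (.rf (nat_lit 2173) (nat_lit 469676491638816)) (.cons (.ev (nat_lit 310708121403890320275537920) (nat_lit 2)) .nil))) .nil)))) .nil))))) (.cons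 (.br (nat_lit 5) (nat_lit 0) (.cons (.rf (nat_lit 2198) (nat_lit 15001055095129152)) (.cons (.rf (nat_lit 2175) (nat_lit 15070293088502848)) (.cons (.br (nat_lit 10) (nat_lit 0) (.cons (.rf (nat_lit 2198) (nat_lit 14994464467813440)) (.cons (.rf (nat_lit 2196) (nat_lit 468782966604864)) (.cons (.br (nat_lit 13) (nat_lit 0) (.cons (.ev (nat_lit 310693935857413959335412226) (nat_lit 2)) (.cons (.ev (nat_lit 79229371458602753894761103361) (nat_lit 1)) .nil))) .nil)))) (.cons (.br (nat_lit 10) (nat_lit 0) (.cons (.rf (nat_lit 2198) (nat_lit 14994464467813440)) (.cons (.br (nat_lit 12) (nat_lit 0) (.cons (.kr (nat_lit 158456325028528675191382867968) (nat_lit 4740813508418331475968) (nat_lit 4) (nat_lit 0)) (.cons (.kr (nat_lit 316912650057057631853447479298) (nat_lit 4777706717289797124608) (nat_lit 0) (nat_lit 2)) .nil))) (.cons (.br (nat_lit 11) (nat_lit 0) (.cons (.br (nat_lit 12) (nat_lit 0) (.cons (.ev (nat_lit 121852916369641972657992920989698) (nat_lit 3)) .nil)) (.cons (.ev (nat_lit 310693935857413959335412226)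 (nat_lit 2)) .nil))) .nil)))) .nil))))) .nil))))),
 (.br (nat_lit 1) (nat_lit 0) (.cons (.rf (nat_lit 3112) (nat_lit 14242959524133701664)) (.cons (.rf (nat_lit 3113) (nat_lit 14242959524133701664)) (.cons (.ev (nat_lit 309485009821345073036591104) (nat_lit 1)) (.cons (.br (nat_lit 1) (nat_lit 0) (.cons (.rf (nat_lit 3112) (nat_lit 14242959524133701664)) (.cons (.rf (nat_lit 3113) (nat_lit 14242959524133701664)) (.cons (.ev (nat_lit 309485009821345073036591104) (nat_lit 1)) (.cons (.rf (nat_lit 3090) (nat_lit 6028215822752789505)) .nil))))) (.cons (.br (nat_lit 1) (nat_lit 0) (.cons (.rf (nat_lit 3090) (nat_lit 14242959524133712897)) (.cons (.rf (nat_lit 3113) (nat_lit 14242959524133701664)) (.cons (.ev (nat_lit 309485009821345073036591104) (nat_lit 1)) (.cons (.rf (nat_lit 3090) (nat_lit 6028215822752789505)) .nil))))) .nil)))))),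
 (.br (nat_lit 10) (nat_lit 0) (.cons (.rf (nat_lit 2164) (nat_lit 5886662772768)) (.cons (.ev (nat_lit 79229371458603035365442912513) (nat_lit 1)) (.cons (.rf (nat_lit 2163) (nat_lit 15029574889998368)) .nil)))),
 (.br (nat_lit 1) (nat_lit 0) (.cons (.rf (nat_lit 3114) (nat_lit 14208022404722295872)) (.cons (.br (nat_lit 5) (nat_lit 0) (.cons (.ev (nat_lit 1208925891954801995940096) (nat_lit 1)) (.cons (.kr (nat_lit 4722367327294575345666) (nat_lit 18446746277027774976) (nat_lit 0) (nat_lit 2)) (.cons (.br (nat_lit 10) (nat_lit 0) (.cons (.ev (nat_lit 309489750634573111608016896) (nat_lit 1)) (.cons (.rf (nat_lit 2242) (nat_lit 470974641439808)) .nil))) (.cons (.br (nat_lit 12) (nat_lit 0) (.cons (.rf (nat_lit 2173) (nat_lit 468782966604864)) (.cons (.kr (nat_lit 4722366764344621924353) (nat_lit 79228162514264337597838917888) (nat_lit 0) (nat_lit 2)) (.cons (.kr (nat_lit 158456325028528956666359578624) (nat_lit 4740813229142378020864) (nat_lit 4) (nat_lit 0)) .nil)))) .nil))))) (.cons (.rf (nat_lit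 3115) (nat_lit 14242959524133701664)) (.cons (.br (nat_lit 5) (nat_lit 0) (.cons (.rf (nat_lit 2198) (nat_lit 15002120179909696)) (.cons (.br (nat_lit 11) (nat_lit 0) (.cons (.rf (nat_lit 2196) (nat_lit 468816252601408)) (.cons (.kr (nat_lit 158456325028528956666359578624) (nat_lit 4740813229142378020864) (nat_lit 4) (nat_lit 0)) (.cons (.ev (nat_lit 309485009821626543718269184) (nat_lit 1)) .nil)))) (.cons (.rf (nat_lit 2175) (nat_lit 15035140928668736)) (.cons (.br (nat_lit 12) (nat_lit 0) (.cons (.rf (nat_lit 2198) (nat_lit 14994431114708032)) (.cons (.kr (nat_lit 14185546476356645158914) (nat_lit 316912650057057350387060703744) (nat_lit 0) (nat_lit 2)) (.cons (.kr (nat_lit 158456325028528956666359578624) (nat_lit 4740813229142378020864) (nat_lit 4) (nat_lit 0)) .nil)))) .nil))))) .nil))))),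
 (.br (nat_lit 11) (nat_lit 0) (.cons (.ev (nat_lit 309485009821626543718268929) (nat_lit 1)) (.cons (.ev (nat_lit 79537647542604765805009698816) (nat_lit 1)) .nil))),
 (.br (nat_lit 1) (nat_lit 0) (.cons (.rf (nat_lit 3103) (nat_lit 444000497175856192)) (.cons (.rf (nat_lit 3116) (nat_lit 14242959524133701664)) (.cons (.br (nat_lit 5) (nat_lit 0) (.cons (.br (nat_lit 10) (nat_lit 0) (.cons (.ev (nat_lit 79229371458603036469249441793) (nat_lit 1)) (.cons (.rf (nat_lit 2234) (nat_lit 15029643538302016)) .nil))) (.cons (.ev (nat_lit 79537652246452165536225689601) (nat_lit 1)) (.cons (.rf (nat_lit 2163) (nat_lit 15000815784920128)) .nil)))) (.cons (.br (nat_lit 5) (nat_lit 0) (.cons (.br (nat_lit 10) (nat_lit 0) (.cons (.rf (nat_lit 2196) (nat_lit 469914690487360)) (.cons (.kr (nat_lit 158456325028528956666359578624) (nat_lit 4740813229142378020864) (nat_lit 4) (nat_lit 0)) (.cons (.br (nat_lit 11) (nat_lit 0) (.cons (.ev (nat_lit 309489750634573111608016896) (nat_lit 1)) (.cons (.rf (nat_lit 3117)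 (nat_lit 15433072044983552032)) .nil))) .nil)))) (.cons (.rf (nat_lit 2198) (nat_lit 15037270192260160)) (.cons (.rf (nat_lit 2175) (nat_lit 15001056068207680)) (.cons (.br (nat_lit 12) (nat_lit 0) (.cons (.br (nat_lit 10) (nat_lit 0) (.cons (.ev (nat_lit 1208925891953698189410304) (nat_lit 1)) (.cons (.ev (nat_lit 79229376162522492690696831233) (nat_lit 1)) .nil))) (.cons (.ev (nat_lit 79537647542532709314778431745) (nat_lit 1)) (.cons (.kr (nat_lit 158456325028528956666359578624) (nat_lit 4740813229142378020864) (nat_lit 4) (nat_lit 0)) .nil)))) .nil))))) .nil))))),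
 (.br (nat_lit 2) (nat_lit 0) (.cons (.rf (nat_lit 3090) (nat_lit 14208022404722295810)) (.cons (.rf (nat_lit 3111) (nat_lit 14242959524133701664)) (.cons (.rf (nat_lit 3114) (nat_lit 14242959524133701664)) (.cons (.br (nat_lit 1) (nat_lit 0) (.cons (.br (nat_lit 1) (nat_lit 0) (.cons (.rf (nat_lit 3114) (nat_lit 14208022404722295872)) (.cons (.rf (nat_lit 3103) (nat_lit 444000497175856192)) (.cons (.kr (nat_lit 158456325028528956666359578624) (nat_lit 4740813229142378020864) (nat_lit 4) (nat_lit 0)) (.cons (.rf (nat_lit 3090) (nat_lit 14242959524133712897)) .nil))))) (.cons (.rf (nat_lit 3116) (nat_lit 14242959524133701664)) (.cons (.rf (nat_lit 3118) (nat_lit 14242959524133701664)) (.cons (.br (nat_lit 1) (nat_lit 0) (.cons (.kr (nat_lit 158456325028528956666359578624) (nat_lit 4740813229142378020864) (nat_lit 4) (nat_lit 0)) (.cons (.rf (nat_lit 3115) (nat_lit 14242959524133701664)) (.cons (.rf (nat_lit 3118) (nat_lit 14242959524133701664)) (.cons (.rf (nat_lit 3090) (nat_lit 6028215822752789505))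 .nil))))) (.cons (.br (nat_lit 1) (nat_lit 0) (.cons (.rf (nat_lit 3090) (nat_lit 14242959524133712897)) (.cons (.rf (nat_lit 3116) (nat_lit 14242959524133701664)) (.cons (.rf (nat_lit 3118) (nat_lit 14242959524133701664)) (.cons (.rf (nat_lit 3090) (nat_lit 6028215822752789505)) .nil))))) .nil)))))) (.cons (.rf (nat_lit 3090) (nat_lit 14208022404722308098)) .nil)))))),
 (.br (nat_lit 11) (nat_lit 0) (.cons (.ev (nat_lit 79537652246452166631442415873) (nat_lit 1)) (.cons (.rf (nat_lit 2334) (nat_lit 470979846440992)) .nil))),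
 (.br (nat_lit 5) (nat_lit 0) (.cons (.rf (nat_lit 3120) (nat_lit 14242959524133701664)) (.cons (.rf (nat_lit 3120) (nat_lit 14208022404722296864)) (.cons (.br (nat_lit 10) (nat_lit 0) (.cons (.ev (nat_lit 475990367698114929250561033218) (nat_lit 3)) (.cons (.rf (nat_lit 2340) (nat_lit 470974645504032)) .nil))) (.cons (.br (nat_lit 10) (nat_lit 0) (.cons (.rf (nat_lit 2334) (nat_lit 470774929524768)) (.cons (.rf (nat_lit 2340) (nat_lit 470979846440992)) (.cons (.br (nat_lit 12) (nat_lit 0) (.cons (.rf (nat_lit 2340) (nat_lit 470946560444448)) (.cons (.ev (nat_lit 79229371458603035365442912256) (nat_lit 1)) .nil))) .nil)))) .nil))))),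
 (.br (nat_lit 11) (nat_lit 0) (.cons (.ev (nat_lit 79537652246452448110714028288) (nat_lit 1)) (.cons (.br (nat_lit 13) (nat_lit 0) (.cons (.ev (nat_lit 79537652246452165536225689601) (nat_lit 1)) .nil)) .nil))),
 (.br (nat_lit 1) (nat_lit 0) (.cons (.rf (nat_lit 3122) (nat_lit 14242959524133701664)) (.cons (.rf (nat_lit 3122) (nat_lit 14208022404722296864)) (.cons (.rf (nat_lit 3121) (nat_lit 14242959524133701664)) (.cons (.br (nat_lit 12) (nat_lit 0) (.cons (.rf (nat_lit 2423) (nat_lit 468782970669088)) (.cons (.rf (nat_lit 2423) (nat_lit 469848122558496)) (.cons (.br (nat_lit 13) (nat_lit 0) (.cons (.ev (nat_lit 79229371458602753894761103361) (nat_lit 1)) (.cons (.ev (nat_lit 79537647542532708210971770881) (nat_lit 1)) .nil))) .nil)))) .nil))))),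
 (.br (nat_lit 10) (nat_lit 0) (.cons (.ev (nat_lit 79537647524085964137262284801) (nat_lit 1)) .nil)),
 (.br (nat_lit 1) (nat_lit 0) (.cons (.ev (nat_lit 79537652246452166631442415873) (nat_lit 1)) (.cons (.rf (nat_lit 3124) (nat_lit 15433072044983552032)) .nil))),
 (.br (nat_lit 12) (nat_lit 0) (.cons (.rf (nat_lit 3121) (nat_lit 14242959524133701664)) (.cons (.rf (nat_lit 3123) (nat_lit 14242959524133701664)) (.cons (.kr (nat_lit 158456325028528675191382867968) (nat_lit 4740813508418331475968) (nat_lit 4) (nat_lit 0)) (.cons (.br (nat_lit 13) (nat_lit 0) (.cons (.br (nat_lit 5) (nat_lit 0) (.cons (.ev (nat_lit 79537647542532427835506688256) (nat_lit 1)) (.cons (.rf (nat_lit 3124) (nat_lit 15433072044983552032)) .nil))) (.cons (.rf (nat_lit 3125) (nat_lit 493858305440582043680)) (.cons (.br (nat_lit 13) (nat_lit 0) (.cons (.rf (nat_lit 3124) (nat_lit 15426316645743822880)) (.cons (.rf (nat_lit 3125) (nat_lit 493858305440582043680)) .nil))) .nil)))) .nil))))),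
 (.br (nat_lit 1) (nat_lit 0) (.cons (.kr (nat_lit 281474976710657) (nat_lit 1099511628032) (nat_lit 0) (nat_lit 2)) (.cons (.br (nat_lit 11) (nat_lit 0) (.cons (.ev (nat_lit 79537652246452166631442415873) (nat_lit 1)) (.cons (.rf (nat_lit 2312) (nat_lit 470979846440992)) .nil))) (.cons (.rf (nat_lit 2330) (nat_lit 15070087135463456)) .nil)))),
 (.br (nat_lit 1) (nat_lit 0) (.cons (.kr (nat_lit 281474976710657) (nat_lit 1099511628032) (nat_lit 0) (nat_lit 2)) (.cons (.br (nat_lit 10) (nat_lit 0) (.cons (.ev (nat_lit 79229371458603036469249442048) (nat_lit 1)) (.cons (.rf (nat_lit 2312) (nat_lit 470946560444448)) .nil))) (.cons (.rf (nat_lit 2330) (nat_lit 15071186613536800)) .nil)))),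
 (.br (nat_lit 1) (nat_lit 0) (.cons (.rf (nat_lit 2330) (nat_lit 15064795702200352)) (.cons (.ev (nat_lit 621392723208800774964641792) (nat_lit 3)) (.cons (.rf (nat_lit 3090) (nat_lit 6028215822752789505)) .nil)))),
 (.br (nat_lit 1) (nat_lit 0) (.cons (.ev (nat_lit 621392723208800774964641792) (nat_lit 3)) (.cons (.br (nat_lit 1) (nat_lit 0) (.cons (.ev (nat_lit 621392723208800774964641792) (nat_lit 3)) (.cons (.rf (nat_lit 3090) (nat_lit 6028215822752789505)) .nil))) (.cons (.rf (nat_lit 3129) (nat_lit 493858305440582043680)) .nil))))]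

theorem c114 : chkAll C T R L114 (nat_lit 3104) = true := by decide +kernel

theorem l114 : (nat_lit 3104) + L114.length = (nat_lit 3131) := by decide +kernel

/-- part of the certificates -/
def L115 : List Prf := [(.br (nat_lit 9) (nat_lit 0) (.cons (.rf (nat_lit 2343) (nat_lit 325700461627424)) (.cons (.br (nat_lit 1) (nat_lit 0) (.cons (.rf (nat_lit 2343) (nat_lit 325700461627424)) .nil)) .nil))),
 (.br (nat_lit 1) (nat_lit 0) (.cons (.rf (nat_lit 3090) (nat_lit 14242959524133712897)) (.cons (.br (nat_lit 11) (nat_lit 0) (.cons (.rf (nat_lit 2336) (nat_lit 470946560444448)) (.cons (.br (nat_lit 13) (nat_lit 0) (.cons (.br (nat_lit 12) (nat_lit 0) (.cons (.ev (nat_lit 20361641392980431490238807932931) (nat_lit 2)) .nil)) (.cons (.br (nat_lit 5) (nat_lit 0) (.cons (.ev (nat_lit 20361641392980431490238807932931) (nat_lit 2)) .nil)) .nil))) (.cons (.ev (nat_lit 310693935857413959335411712) (nat_lit 2)) .nil)))) (.cons (.br (nat_lit 13) (nat_lit 0) (.cons (.ev (nat_lit 309485009821627647524929793)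 (nat_lit 1)) (.cons (.ev (nat_lit 310693935857413959335411712) (nat_lit 2)) (.cons (.br (nat_lit 13) (nat_lit 0) (.cons (.ev (nat_lit 309485009821627647524929793) (nat_lit 1)) (.cons (.ev (nat_lit 310693935857413959335411712) (nat_lit 2)) .nil))) .nil)))) (.cons (.rf (nat_lit 3090) (nat_lit 6028215822752789505)) .nil))))),
 (.br (nat_lit 13) (nat_lit 0) (.cons (.ev (nat_lit 309485009821627647524929793) (nat_lit 1)) (.cons (.ev (nat_lit 310693935857413959335411712) (nat_lit 2)) (.cons (.br (nat_lit 1) (nat_lit 0) (.cons (.rf (nat_lit 2670) (nat_lit 470974641440800)) (.cons (.rf (nat_lit 2290) (nat_lit 79815192117590995969)) (.cons (.ev (nat_lit 309485009821627647524929793) (nat_lit 1)) .nil)))) .nil)))),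
 (.br (nat_lit 1) (nat_lit 0) (.cons (.br (nat_lit 1) (nat_lit 0) (.cons (.rf (nat_lit 2670) (nat_lit 470974641440800)) (.cons (.rf (nat_lit 2315) (nat_lit 15433072042872768544)) (.cons (.rf (nat_lit 3132) (nat_lit 493858305440582043680)) .nil)))) (.cons (.rf (nat_lit 3133) (nat_lit 493858305440582043680)) (.cons (.br (nat_lit 1) (nat_lit 0) (.cons (.rf (nat_lit 2315) (nat_lit 15433072042872768544)) (.cons (.rf (nat_lit 3133) (nat_lit 493858305440582043680)) (.cons (.rf (nat_lit 3090) (nat_lit 6028215822752789505)) .nil)))) (.cons (.rf (nat_lit 3132) (nat_lit 493858305440582043680)) .nil))))),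
 (.br (nat_lit 1) (nat_lit 0) (.cons (.ev (nat_lit 1213666704900266079027456) (nat_lit 1)) (.cons (.br (nat_lit 12) (nat_lit 0) (.cons (.ev (nat_lit 80157836007019926634749166848) (nat_lit 3)) (.cons (.rf (nat_lit 2290) (nat_lit 79815192117590995969)) .nil))) (.cons (.rf (nat_lit 3090) (nat_lit 14242959524133712897)) .nil)))),
 (.br (nat_lit 1) (nat_lit 0) (.cons (.rf (nat_lit 3135) (nat_lit 493858305440582043680)) (.cons (.ev (nat_lit 310693935857413959335411712) (nat_lit 2)) (.cons (.br (nat_lit 1) (nat_lit 0) (.cons (.rf (nat_lit 3135) (nat_lit 493858305440582043680)) (.cons (.ev (nat_lit 310693935857413959335411712) (nat_lit 2)) (.cons (.rf (nat_lit 3090) (nat_lit 6028215822752789505)) .nil)))) (.cons (.rf (nat_lit 3132) (nat_lit 493858305440582043680)) .nil))))),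
 (.br (nat_lit 13) (nat_lit 0) (.cons (.rf (nat_lit 3132) (nat_lit 493858305440582043680)) (.cons (.rf (nat_lit 3134) (nat_lit 493858305440582043680)) (.cons (.rf (nat_lit 3136) (nat_lit 493858305440582043680)) (.cons (.br (nat_lit 13) (nat_lit 0) (.cons (.ev (nat_lit 20282409608374108964410951204864) (nat_lit 1)) (.cons (.ev (nat_lit 20282409608374109245890222948353) (nat_lit 1)) (.cons (.rf (nat_lit 3136) (nat_lit 493858305440582043680)) .nil)))) .nil))))),
 (.br (nat_lit 7) (nat_lit 0) (.cons (.br (nat_lit 12) (nat_lit 0) (.cons (.rf (nat_lit 3121) (nat_lit 14242959524133701664)) (.cons (.rf (nat_lit 3123) (nat_lit 14242959524133701664)) (.cons (.rf (nat_lit 3126) (nat_lit 14242959524133701664)) (.cons (.rf (nat_lit 3126) (nat_lit 14208022404722296864)) (.cons (.br (nat_lit 12) (nat_lit 0) (.cons (.rf (nat_lit 3121) (nat_lit 14242959524133701664)) (.cons (.rf (nat_lit 3123) (nat_lit 14242959524133701664)) (.cons (.rf (nat_lit 3126) (nat_lit 14242959524133701664)) (.cons (.rf (nat_lit 3126) (nat_lit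 14208022404722296864)) .nil))))) .nil)))))) (.cons (.br (nat_lit 1) (nat_lit 0) (.cons (.rf (nat_lit 3127) (nat_lit 14242959524133701664)) (.cons (.rf (nat_lit 3128) (nat_lit 14242959524133701664)) (.cons (.br (nat_lit 1) (nat_lit 0) (.cons (.rf (nat_lit 3127) (nat_lit 14242959524133701664)) (.cons (.rf (nat_lit 3128) (nat_lit 14242959524133701664)) (.cons (.rf (nat_lit 3090) (nat_lit 6028215822752789505)) .nil)))) (.cons (.br (nat_lit 1) (nat_lit 0) (.cons (.rf (nat_lit 2330) (nat_lit 15070087135463456)) (.cons (.rf (nat_lit 2330) (nat_lit 15071186613536800)) (.cons (.rf (nat_lit 3090) (nat_lit 6028215822752789505)) .nil)))) .nil))))) (.cons (.ev (nat_lit 1213666704899170862432256) (nat_lit 1)) (.cons (.br (nat_lit 10) (nat_lit 0) (.cons (.ev (nat_lit 621392723208800774964641792) (nat_lit 3)) (.cons (.ev (nat_lit 621392723209363750687735810) (nat_lit 3)) (.cons (.br (nat_lit 1) (nat_lit 0) (.cons (.br (nat_lit 1) (nat_lit 0) (.cons (.ev (nat_lit 1213666704900266079027456) (nat_lit 1)) (.cons (.rf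 (nat_lit 2330) (nat_lit 15064795702200352)) .nil))) (.cons (.br (nat_lit 1) (nat_lit 0) (.cons (.ev (nat_lit 1213666704900266079027456) (nat_lit 1)) (.cons (.rf (nat_lit 2332) (nat_lit 470946560444448)) .nil))) (.cons (.rf (nat_lit 3129) (nat_lit 493858305440582043680)) .nil)))) (.cons (.br (nat_lit 13) (nat_lit 0) (.cons (.rf (nat_lit 3129) (nat_lit 493858305440582043680)) (.cons (.rf (nat_lit 3130) (nat_lit 493858305440582043680)) (.cons (.br (nat_lit 13) (nat_lit 0) (.cons (.rf (nat_lit 3129) (nat_lit 493858305440582043680)) (.cons (.rf (nat_lit 3130) (nat_lit 493858305440582043680)) .nil))) .nil)))) .nil))))) (.cons (.br (nat_lit 10) (nat_lit 0) (.cons (.br (nat_lit 11) (nat_lit 0) (.cons (.br (nat_lit 5) (nat_lit 0) (.cons (.ev (nat_lit 79229376162522493785913426176) (nat_lit 1)) (.cons (.rf (nat_lit 2317) (nat_lit 470979846440992)) .nil))) (.cons (.br (nat_lit 1) (nat_lit 0) (.cons (.ev (nat_lit 79229376162522775265185169665) (nat_lit 1)) (.cons (.rf (nat_lit 2336) (nat_lit 470946560444448))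 .nil))) (.cons (.ev (nat_lit 310693935857413959335411712) (nat_lit 2)) (.cons (.br (nat_lit 1) (nat_lit 0) (.cons (.rf (nat_lit 2317) (nat_lit 470940319320096)) (.cons (.rf (nat_lit 2314) (nat_lit 470773889337376)) (.cons (.br (nat_lit 5) (nat_lit 0) (.cons (.rf (nat_lit 2343) (nat_lit 470974645504032)) (.cons (.br (nat_lit 12) (nat_lit 0) (.cons (.ev (nat_lit 20362257945148291398888409137155) (nat_lit 2)) .nil)) .nil))) .nil)))) .nil))))) (.cons (.br (nat_lit 11) (nat_lit 0) (.cons (.br (nat_lit 1) (nat_lit 0) (.cons (.ev (nat_lit 79229376162522493785913426176) (nat_lit 1)) (.cons (.rf (nat_lit 2336) (nat_lit 470979846440992)) .nil))) (.cons (.ev (nat_lit 310693935857695430017089537) (nat_lit 2)) (.cons (.rf (nat_lit 2688) (nat_lit 468816252602400)) .nil)))) (.cons (.br (nat_lit 5) (nat_lit 0) (.cons (.br (nat_lit 1) (nat_lit 0) (.cons (.ev (nat_lit 1213666704900266079027456) (nat_lit 1)) (.cons (.rf (nat_lit 2336) (nat_lit 470774929524768)) .nil))) (.cons (.br (nat_lit 1) (nat_lit 0) (.cons (.rf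 (nat_lit 2343) (nat_lit 470974645504032)) .nil)) (.cons (.rf (nat_lit 2688) (nat_lit 469909489551392)) .nil)))) (.cons (.kr (nat_lit 18446744073709551616) (nat_lit 79228162514264337593543950336) (nat_lit 8) (nat_lit 0)) (.cons (.br (nat_lit 5) (nat_lit 0) (.cons (.br (nat_lit 1) (nat_lit 0) (.cons (.ev (nat_lit 309489750634854590879629568) (nat_lit 1)) (.cons (.rf (nat_lit 2314) (nat_lit 470974645504032)) (.cons (.rf (nat_lit 3090) (nat_lit 14242959524133712897)) .nil)))) (.cons (.rf (nat_lit 2688) (nat_lit 469914690488352)) (.cons (.rf (nat_lit 3131) (nat_lit 470979911452704)) (.cons (.br (nat_lit 11) (nat_lit 0) (.cons (.br (nat_lit 1) (nat_lit 0) (.cons (.ev (nat_lit 1208925891673322724327681) (nat_lit 1)) (.cons (.ev (nat_lit 309485009821627647524929793) (nat_lit 1)) .nil))) (.cons (.rf (nat_lit 3131) (nat_lit 470940189296672)) (.cons (.br (nat_lit 1) (nat_lit 0) (.cons (.br (nat_lit 1) (nat_lit 0) (.cons (.ev (nat_lit 41042666485170634216053479571980) (nat_lit 4)) .nil)) (.cons (.br (nat_lit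 1) (nat_lit 0) (.cons (.ev (nat_lit 41042666485170634216053479571980) (nat_lit 4)) .nil)) .nil))) .nil)))) .nil))))) .nil)))))) (.cons (.br (nat_lit 13) (nat_lit 0) (.cons (.rf (nat_lit 3132) (nat_lit 493858305440582043680)) (.cons (.rf (nat_lit 3134) (nat_lit 493858305440582043680)) (.cons (.rf (nat_lit 3136) (nat_lit 493858305440582043680)) (.cons (.rf (nat_lit 3137) (nat_lit 493858305440582043680)) (.cons (.br (nat_lit 13) (nat_lit 0) (.cons (.rf (nat_lit 3132) (nat_lit 493858305440582043680)) (.cons (.rf (nat_lit 3134) (nat_lit 493858305440582043680)) (.cons (.rf (nat_lit 3136) (nat_lit 493858305440582043680)) (.cons (.rf (nat_lit 3137) (nat_lit 493858305440582043680)) .nil))))) .nil)))))) .nil))))))),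
 (.br (nat_lit 9) (nat_lit 0) (.cons (.br (nat_lit 9) (nat_lit 0) .nil) .nil)),
 (.br (nat_lit 7) (nat_lit 0) (.cons (.br (nat_lit 12) (nat_lit 0) (.cons (.ev (nat_lit 309489750634573111608016896) (nat_lit 1)) (.cons (.rf (nat_lit 2317) (nat_lit 469840841246752)) .nil))) (.cons (.rf (nat_lit 2743) (nat_lit 13549719226400)) (.cons (.rf (nat_lit 2671) (nat_lit 15035140928669728)) .nil)))),
 (.br (nat_lit 1) (nat_lit 0) (.cons (.br (nat_lit 10) (nat_lit 0) (.cons (.br (nat_lit 11) (nat_lit 0) (.cons (.ev (nat_lit 79229371458602753894761103616) (nat_lit 1)) (.cons (.rf (nat_lit 3139) (nat_lit 470979911452704)) .nil))) (.cons (.ev (nat_lit 79229371458602754989977829376) (nat_lit 1)) (.cons (.br (nat_lit 13) (nat_lit 0) (.cons (.br (nat_lit 13) (nat_lit 0) (.cons (.ev (nat_lit 79229371458602753894761103616) (nat_lit 1)) .nil)) (.cons (.ev (nat_lit 79229371458602753894761103616) (nat_lit 1)) .nil))) .nil)))) (.cons (.rf (nat_lit 3140) (nat_lit 14242959524133701664)) (.cons (.br (nat_lit 11) (nat_lit 0)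 (.cons (.br (nat_lit 10) (nat_lit 0) (.cons (.ev (nat_lit 79537652246452448110714028288) (nat_lit 1)) (.cons (.rf (nat_lit 2314) (nat_lit 469909493614624)) .nil))) (.cons (.br (nat_lit 7) (nat_lit 0) (.cons (.ev (nat_lit 79537652246452448110714028288) (nat_lit 1)) (.cons (.rf (nat_lit 2341) (nat_lit 469914694551584)) .nil))) (.cons (.ev (nat_lit 79537647542532426740290093056) (nat_lit 1)) (.cons (.br (nat_lit 7) (nat_lit 0) (.cons (.rf (nat_lit 2367) (nat_lit 470974645504032)) (.cons (.rf (nat_lit 2367) (nat_lit 468775689357344)) (.cons (.br (nat_lit 10) (nat_lit 0) (.cons (.rf (nat_lit 2313) (nat_lit 469909493614624)) (.cons (.ev (nat_lit 1213666704900266079027456) (nat_lit 1)) .nil))) .nil)))) .nil))))) (.cons (.kr (nat_lit 158456325028528956666359578624) (nat_lit 4740813229142378020864) (nat_lit 4) (nat_lit 0)) (.cons (.rf (nat_lit 3090) (nat_lit 14242959524133712897)) .nil)))))),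
 (.br (nat_lit 7) (nat_lit 0) (.cons (.rf (nat_lit 3139) (nat_lit 323501407963168)) (.cons (.rf (nat_lit 3139) (nat_lit 321304532191264)) .nil))),
 (.br (nat_lit 11) (nat_lit 0) (.cons (.br (nat_lit 11) (nat_lit 0) (.cons (.ev (nat_lit 79229371458603035365442912513) (nat_lit 1)) (.cons (.rf (nat_lit 3142) (nat_lit 470979911452704)) .nil))) (.cons (.ev (nat_lit 79229371458603035365442912513) (nat_lit 1)) (.cons (.rf (nat_lit 3142) (nat_lit 470979911452704)) .nil)))),
 (.br (nat_lit 13) (nat_lit 0) (.cons (.br (nat_lit 13) (nat_lit 0) (.cons (.rf (nat_lit 3138) (nat_lit 14242959524133712897)) (.cons (.kr (nat_lit 158456325028528956666359578624) (nat_lit 4740813229142378020864) (nat_lit 4) (nat_lit 0)) .nil))) (.cons (.br (nat_lit 13) (nat_lit 0) (.cons (.rf (nat_lit 3138) (nat_lit 14242959524133712897)) (.cons (.kr (nat_lit 158456325028528956666359578624) (nat_lit 4740813229142378020864) (nat_lit 4) (nat_lit 0)) .nil))) (.cons (.kr (nat_lit 158456325028528956666359578624) (nat_lit 4740813229142378020864)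 (nat_lit 4) (nat_lit 0)) .nil)))),
 (.br (nat_lit 12) (nat_lit 0) (.cons (.ev (nat_lit 79537647542532427835506688256) (nat_lit 1)) (.cons (.ev (nat_lit 79537652246452165536225689601) (nat_lit 1)) .nil))),
 (.br (nat_lit 5) (nat_lit 0) (.cons (.br (nat_lit 11) (nat_lit 0) (.cons (.kr (nat_lit 158456325028528956666359578624) (nat_lit 4740813229142378020864) (nat_lit 4) (nat_lit 0)) (.cons (.rf (nat_lit 3145) (nat_lit 493858305440582043680)) .nil))) (.cons (.ev (nat_lit 79229371458602753894761103616) (nat_lit 1)) (.cons (.rf (nat_lit 3144) (nat_lit 493858305440582043680)) .nil)))),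
 (.br (nat_lit 13) (nat_lit 0) (.cons (.rf (nat_lit 3144) (nat_lit 493858305440582043680)) (.cons (.rf (nat_lit 3146) (nat_lit 493858305440582043680)) (.cons (.br (nat_lit 5) (nat_lit 0) (.cons (.ev (nat_lit 79229371458602753894761103616) (nat_lit 1)) (.cons (.ev (nat_lit 79537647542532708210971770881) (nat_lit 1)) (.cons (.kr (nat_lit 158456325028528956666359578624) (nat_lit 4740813229142378020864) (nat_lit 4) (nat_lit 0)) .nil)))) .nil)))),
 (.br (nat_lit 1) (nat_lit 0) (.cons (.rf (nat_lit 3141) (nat_lit 14242959524133701664)) (.cons (.br (nat_lit 11) (nat_lit 0) (.cons (.kr (nat_lit 281474976710657) (nat_lit 1099511628032) (nat_lit 0) (nat_lit 2)) (.cons (.kr (nat_lit 4740813508418331475970) (nat_lit 158456325028528675191382868480) (nat_lit 0) (nat_lit 2)) (.cons (.rf (nat_lit 3142) (nat_lit 468783035680800)) .nil)))) (.cons (.br (nat_lit 10) (nat_lit 0) (.cons (.kr (nat_lit 281474976710657) (nat_lit 1099511628032) (nat_lit 0) (nat_lit 2)) (.cons (.br (nat_lit 5) (nat_lit 0) (.cons (.ev (nat_lit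 79229371458602753894761103616) (nat_lit 1)) (.cons (.rf (nat_lit 2340) (nat_lit 469914694551584)) .nil))) (.cons (.kr (nat_lit 4740813508418331475970) (nat_lit 158456325028528675191382868480) (nat_lit 0) (nat_lit 2)) (.cons (.br (nat_lit 5) (nat_lit 0) (.cons (.rf (nat_lit 2340) (nat_lit 469909493614624)) (.cons (.rf (nat_lit 2334) (nat_lit 469848122558496)) (.cons (.br (nat_lit 12) (nat_lit 0) (.cons (.ev (nat_lit 79537652246452447006907498496) (nat_lit 1)) (.cons (.kr (nat_lit 158456325028528956666359578624) (nat_lit 4740813229142378020864) (nat_lit 4) (nat_lit 0)) .nil))) .nil)))) .nil))))) (.cons (.rf (nat_lit 3143) (nat_lit 14242959524133701664)) (.cons (.br (nat_lit 13) (nat_lit 0) (.cons (.rf (nat_lit 3144) (nat_lit 493858305440582043680)) (.cons (.rf (nat_lit 3146) (nat_lit 493858305440582043680)) (.cons (.rf (nat_lit 3147) (nat_lit 493858305440582043680)) (.cons (.br (nat_lit 13) (nat_lit 0) (.cons (.kr (nat_lit 158456325028528956666359578624) (nat_lit 4740813229142378020864) (nat_lit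 4) (nat_lit 0)) (.cons (.rf (nat_lit 3146) (nat_lit 493858305440582043680)) (.cons (.rf (nat_lit 3147) (nat_lit 493858305440582043680)) .nil)))) .nil))))) .nil)))))),
 (.br (nat_lit 7) (nat_lit 0) (.cons (.rf (nat_lit 2743) (nat_lit 5886558046240)) (.cons (.rf (nat_lit 2318) (nat_lit 372998536373045280)) (.cons (.rf (nat_lit 2671) (nat_lit 13874915777415200)) .nil)))),
 (.br (nat_lit 1) (nat_lit 0) (.cons (.rf (nat_lit 3140) (nat_lit 14242959524133701664)) (.cons (.rf (nat_lit 3148) (nat_lit 14242959524133701664)) (.cons (.br (nat_lit 5) (nat_lit 0) (.cons (.kr (nat_lit 281474976710657) (nat_lit 1099511628032) (nat_lit 0) (nat_lit 2)) (.cons (.kr (nat_lit 4722367327294575345666) (nat_lit 18446746277027774976) (nat_lit 0) (nat_lit 2)) (.cons (.br (nat_lit 7) (nat_lit 0) (.cons (.ev (nat_lit 309489750634573111608016896) (nat_lit 1)) (.cons (.rf (nat_lit 2313) (nat_lit 469914694551584)) .nil))) (.cons (.br (nat_lit 12) (nat_lit 0) (.cons (.kr (nat_lit 4740813508418331475970) (nat_lit 158456325028528675191382868480)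 (nat_lit 0) (nat_lit 2)) (.cons (.ev (nat_lit 309489750634853487073100033) (nat_lit 1)) (.cons (.kr (nat_lit 158456325028528956666359578624) (nat_lit 4740813229142378020864) (nat_lit 4) (nat_lit 0)) .nil)))) .nil))))) (.cons (.rf (nat_lit 3149) (nat_lit 445092449661061152)) (.cons (.br (nat_lit 5) (nat_lit 0) (.cons (.rf (nat_lit 2330) (nat_lit 15034900649445408)) (.cons (.br (nat_lit 11) (nat_lit 0) (.cons (.ev (nat_lit 309485009821346168253186049) (nat_lit 1)) (.cons (.kr (nat_lit 158456325028528956666359578624) (nat_lit 4740813229142378020864) (nat_lit 4) (nat_lit 0)) (.cons (.ev (nat_lit 309485009821626543718269184) (nat_lit 1)) .nil)))) (.cons (.rf (nat_lit 2336) (nat_lit 469848122558496)) (.cons (.br (nat_lit 12) (nat_lit 0) (.cons (.kr (nat_lit 4777706717289797124098) (nat_lit 316912650057057631853447479808) (nat_lit 0) (nat_lit 2)) (.cons (.kr (nat_lit 14185546476356645158914) (nat_lit 316912650057057350387060703744) (nat_lit 0) (nat_lit 2)) (.cons (.kr (nat_lit 158456325028528956666359578624)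 (nat_lit 4740813229142378020864) (nat_lit 4) (nat_lit 0)) .nil)))) .nil))))) .nil)))))),
 (.br (nat_lit 12) (nat_lit 0) (.cons (.br (nat_lit 10) (nat_lit 0) (.cons (.ev (nat_lit 1208925891673322724327681) (nat_lit 1)) (.cons (.ev (nat_lit 79229371458603035365442912513) (nat_lit 1)) .nil))) (.cons (.br (nat_lit 7) (nat_lit 0) (.cons (.ev (nat_lit 1208925891673322724327681) (nat_lit 1)) (.cons (.ev (nat_lit 79229376162522775265185169408) (nat_lit 1)) .nil))) (.cons (.ev (nat_lit 79537647542532426740290093056) (nat_lit 1)) (.cons (.kr (nat_lit 158456325028528956666359578624) (nat_lit 4740813229142378020864) (nat_lit 4) (nat_lit 0)) .nil))))),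
 (.br (nat_lit 13) (nat_lit 0) (.cons (.rf (nat_lit 3151) (nat_lit 493858305440582043680)) (.cons (.br (nat_lit 5) (nat_lit 0) (.cons (.ev (nat_lit 40566059570008865946560543195140) (nat_lit 3)) .nil)) (.cons (.ev (nat_lit 20282409608374108964410951204864) (nat_lit 1)) .nil)))),
 (.br (nat_lit 1) (nat_lit 0) (.cons (.rf (nat_lit 3141) (nat_lit 14242959524133701664)) (.cons (.rf (nat_lit 3148) (nat_lit 14242959524133701664)) (.cons (.rf (nat_lit 3150) (nat_lit 14242959524133701664)) (.cons (.br (nat_lit 11) (nat_lit 0) (.cons (.ev (nat_lit 79537652246452165536225689601) (nat_lit 1)) (.cons (.br (nat_lit 5) (nat_lit 0) (.cons (.ev (nat_lit 79229371458603036469249441793) (nat_lit 1)) (.cons (.rf (nat_lit 2314) (nat_lit 469848122558496)) .nil))) (.cons (.ev (nat_lit 309485009821345073036591361) (nat_lit 1)) (.cons (.br (nat_lit 7) (nat_lit 0) (.cons (.rf (nat_lit 2367) (nat_lit 468782970669088)) (.cons (.rf (nat_lit 2367) (nat_lit 463285580302368)) (.cons (.br (nat_lit 5) (nat_lit 0) (.cons (.rf (nat_lit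 2313) (nat_lit 469848122558496)) (.cons (.br (nat_lit 10) (nat_lit 0) (.cons (.ev (nat_lit 20282720297605758128822666985473) (nat_lit 1)) .nil)) .nil))) .nil)))) .nil))))) (.cons (.br (nat_lit 11) (nat_lit 0) (.cons (.br (nat_lit 7) (nat_lit 0) (.cons (.rf (nat_lit 2332) (nat_lit 469674411264032)) (.cons (.kr (nat_lit 18446745173221179392) (nat_lit 79228162514264619068520660992) (nat_lit 5) (nat_lit 0)) (.cons (.br (nat_lit 10) (nat_lit 0) (.cons (.ev (nat_lit 1208925891673322724327681) (nat_lit 1)) (.cons (.br (nat_lit 12) (nat_lit 0) (.cons (.ev (nat_lit 20361637766166007100614121619713) (nat_lit 1)) .nil)) .nil))) .nil)))) (.cons (.br (nat_lit 5) (nat_lit 0) (.cons (.rf (nat_lit 2747) (nat_lit 468816252602400)) (.cons (.ev (nat_lit 309489750634573111608016896) (nat_lit 1)) (.cons (.rf (nat_lit 3151) (nat_lit 493858305440582043680)) .nil)))) (.cons (.br (nat_lit 7) (nat_lit 0) (.cons (.rf (nat_lit 2332) (nat_lit 469840841246752)) (.cons (.rf (nat_lit 2332) (nat_lit 469848122558496)) (.cons (.br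 (nat_lit 5) (nat_lit 0) (.cons (.ev (nat_lit 1208925891673322724327681) (nat_lit 1)) (.cons (.rf (nat_lit 3151) (nat_lit 493858305440582043680)) .nil))) .nil)))) (.cons (.ev (nat_lit 79537652246452447006907498496) (nat_lit 1)) (.cons (.br (nat_lit 13) (nat_lit 0) (.cons (.rf (nat_lit 3151) (nat_lit 493858305440582043680)) (.cons (.rf (nat_lit 3152) (nat_lit 493858305440582043680)) (.cons (.br (nat_lit 7) (nat_lit 0) (.cons (.rf (nat_lit 3117) (nat_lit 435979735947118637)) (.cons (.ev (nat_lit 79229371458603035365442912513) (nat_lit 1)) (.cons (.rf (nat_lit 3152) (nat_lit 493858305440582043680)) .nil)))) (.cons (.rf (nat_lit 3119) (nat_lit 6028215822752789505)) .nil))))) .nil)))))) .nil))))))]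

theorem c115 : chkAll C T R L115 (nat_lit 3131) = true := by decide +kernel

theorem l115 : (nat_lit 3131) + L115.length = (nat_lit 3154) := by decide +kernel

/-- part of the certificates -/
def L116 : List Prf := [(.br (nat_lit 2) (nat_lit 0) (.cons (.rf (nat_lit 3090) (nat_lit 14090929087143281666)) (.cons (.rf (nat_lit 3119) (nat_lit 14242959524133701664)) (.cons (.rf (nat_lit 3138) (nat_lit 14242959524133701664)) (.cons (.br (nat_lit 1) (nat_lit 0) (.cons (.rf (nat_lit 3141) (nat_lit 14242959524133701664)) (.cons (.rf (nat_lit 3148) (nat_lit 14242959524133701664)) (.cons (.rf (nat_lit 3150) (nat_lit 14242959524133701664)) (.cons (.rf (nat_lit 3153) (nat_lit 14242959524133701664)) (.cons (.br (nat_lit 1) (nat_lit 0) (.cons (.kr (nat_lit 158456325028528956666359578624) (nat_lit 4740813229142378020864) (nat_lit 4) (nat_lit 0)) (.cons (.rf (nat_lit 3143) (nat_lit 14242959524133701664)) (.cons (.rf (nat_lit 3149) (nat_lit 445092449661061152)) (.cons (.rf (nat_lit 3153) (nat_lit 14242959524133701664))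 (.cons (.rf (nat_lit 3090) (nat_lit 6028215822752789505)) .nil)))))) (.cons (.br (nat_lit 1) (nat_lit 0) (.cons (.rf (nat_lit 3090) (nat_lit 14242959524133712897)) (.cons (.rf (nat_lit 3148) (nat_lit 14242959524133701664)) (.cons (.rf (nat_lit 3150) (nat_lit 14242959524133701664)) (.cons (.rf (nat_lit 3153) (nat_lit 14242959524133701664)) (.cons (.rf (nat_lit 3090) (nat_lit 6028215822752789505)) .nil)))))) .nil))))))) (.cons (.rf (nat_lit 3090) (nat_lit 14090929087143293954)) .nil)))))),
 (.br (nat_lit 9) (nat_lit 0) (.cons (.rf (nat_lit 2341) (nat_lit 432496939468832)) (.cons (.rf (nat_lit 2341) (nat_lit 432463653472288)) (.cons (.ev (nat_lit 4722438540467978109184) (nat_lit 1)) .nil)))),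
 (.br (nat_lit 7) (nat_lit 0) (.cons (.rf (nat_lit 2314) (nat_lit 432491738531872)) (.cons (.rf (nat_lit 2312) (nat_lit 432457412347936)) (.cons (.rf (nat_lit 3155) (nat_lit 14242959524133701664)) .nil)))),
 (.br (nat_lit 1) (nat_lit 0) (.cons (.rf (nat_lit 3154) (nat_lit 14208022404722296864)) (.cons (.br (nat_lit 11) (nat_lit 0) (.cons (.br (nat_lit 10) (nat_lit 0) (.cons (.ev (nat_lit 79537647542532708210971771136) (nat_lit 1)) (.cons (.rf (nat_lit 2367) (nat_lit 470940319320096)) .nil))) (.cons (.br (nat_lit 7) (nat_lit 0) (.cons (.ev (nat_lit 79537647542532708210971771136) (nat_lit 1)) (.cons (.rf (nat_lit 2341) (nat_lit 468816256665632)) .nil))) (.cons (.ev (nat_lit 79537652246452166631442415616) (nat_lit 1)) (.cons (.rf (nat_lit 3156) (nat_lit 15433070910038444064)) .nil))))) (.cons (.ev (nat_lit 309485009821346168253186304) (nat_lit 1)) (.cons (.kr (nat_lit 158456325028528956666359578624) (nat_lit 4740813229142378020864) (nat_lit 4) (nat_lit 0)) (.cons (.rf (nat_lit 3090) (nat_lit 14242959524133712897))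 .nil)))))),
 (.br (nat_lit 12) (nat_lit 0) (.cons (.kr (nat_lit 4777706717289797124098) (nat_lit 316912650057057631853447479808) (nat_lit 0) (nat_lit 2)) (.cons (.br (nat_lit 7) (nat_lit 0) (.cons (.rf (nat_lit 2332) (nat_lit 468816256665632)) (.cons (.br (nat_lit 11) (nat_lit 0) (.cons (.ev (nat_lit 20282413230484613896718973534466) (nat_lit 2)) .nil)) .nil))) (.cons (.kr (nat_lit 14185546476356645158914) (nat_lit 316912650057057350387060703744) (nat_lit 0) (nat_lit 2)) (.cons (.kr (nat_lit 158456325028528956666359578624) (nat_lit 4740813229142378020864) (nat_lit 4) (nat_lit 0)) .nil))))),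
 (.br (nat_lit 12) (nat_lit 0) (.cons (.kr (nat_lit 18446745173221179392) (nat_lit 79228162514264619068520660992) (nat_lit 5) (nat_lit 0)) (.cons (.ev (nat_lit 79537647542532427835506688001) (nat_lit 1)) (.cons (.kr (nat_lit 79228162514264900543497371649) (nat_lit 18446746272732807424) (nat_lit 0) (nat_lit 2)) .nil)))),
 (.br (nat_lit 5) (nat_lit 0) (.cons (.ev (nat_lit 1208925891672227507601664) (nat_lit 1)) (.cons (.rf (nat_lit 3159) (nat_lit 493858305440582043680)) (.cons (.br (nat_lit 13) (nat_lit 0) (.cons (.ev (nat_lit 79229371458602753894761103361) (nat_lit 1)) (.cons (.br (nat_lit 10) (nat_lit 0) (.cons (.ev (nat_lit 79229371458602753894761103361) (nat_lit 1)) .nil)) .nil))) (.cons (.rf (nat_lit 3158) (nat_lit 493858305440582043680)) .nil))))),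
 (.br (nat_lit 5) (nat_lit 0) (.cons (.ev (nat_lit 1208925891672227507601664) (nat_lit 1)) (.cons (.rf (nat_lit 3159) (nat_lit 493858305440582043680)) (.cons (.br (nat_lit 13) (nat_lit 0) (.cons (.ev (nat_lit 79229371458602753894761103361) (nat_lit 1)) (.cons (.br (nat_lit 7) (nat_lit 0) (.cons (.ev (nat_lit 79229371458602753894761103361) (nat_lit 1)) .nil)) .nil))) (.cons (.rf (nat_lit 3158) (nat_lit 493858305440582043680)) .nil))))),
 (.br (nat_lit 13) (nat_lit 0) (.cons (.rf (nat_lit 3158) (nat_lit 493858305440582043680)) (.cons (.rf (nat_lit 3160) (nat_lit 493858305440582043680)) (.cons (.rf (nat_lit 3161) (nat_lit 493858305440582043680)) (.cons (.br (nat_lit 13) (nat_lit 0) (.cons (.kr (nat_lit 158456325028528956666359578624) (nat_lit 4740813229142378020864) (nat_lit 4) (nat_lit 0)) (.cons (.ev (nat_lit 20361637766166007100614121619713) (nat_lit 1)) (.cons (.ev (nat_lit 20361948460101575721238694723584) (nat_lit 1)) .nil)))) .nil))))),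
 (.br (nat_lit 1) (nat_lit 0) (.cons (.rf (nat_lit 3157) (nat_lit 14242959524133701664)) (.cons (.rf (nat_lit 3154) (nat_lit 14208022404722296864)) (.cons (.br (nat_lit 5) (nat_lit 0) (.cons (.kr (nat_lit 281474976710657) (nat_lit 1099511628032) (nat_lit 0) (nat_lit 2)) (.cons (.br (nat_lit 7) (nat_lit 0) (.cons (.zr (nat_lit 129127217312059886080) (nat_lit 621402038526327622069256196) (nat_lit 20) (nat_lit 10)) (.cons (.rf (nat_lit 2341) (nat_lit 468810015541280)) .nil))) (.cons (.ev (nat_lit 309485009821627647524929793) (nat_lit 1)) (.cons (.br (nat_lit 7) (nat_lit 0) (.cons (.rf (nat_lit 2314) (nat_lit 468816256665632)) (.cons (.kr (nat_lit 4740813508418331475970) (nat_lit 158456325028528675191382868480) (nat_lit 0) (nat_lit 2)) (.cons (.br (nat_lit 12) (nat_lit 0) (.cons (.rf (nat_lit 2341) (nat_lit 468577013565472)) (.cons (.kr (nat_lit 158456325028528956666359578624) (nat_lit 4740813229142378020864) (nat_lit 4) (nat_lit 0)) .nil))) .nil)))) .nil))))) (.cons (.br (nat_lit 7) (nat_lit 0) (.cons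 (.br (nat_lit 10) (nat_lit 0) (.cons (.ev (nat_lit 1208925891954801995939841) (nat_lit 1)) (.cons (.rf (nat_lit 2367) (nat_lit 469848122558496)) .nil))) (.cons (.br (nat_lit 5) (nat_lit 0) (.cons (.ev (nat_lit 79229376162522775265185169665) (nat_lit 1)) (.cons (.rf (nat_lit 2314) (nat_lit 468782970669088)) .nil))) (.cons (.ev (nat_lit 79537647542532426740290093313) (nat_lit 1)) (.cons (.br (nat_lit 5) (nat_lit 0) (.cons (.rf (nat_lit 2341) (nat_lit 468775689357344)) (.cons (.rf (nat_lit 2313) (nat_lit 468782970669088)) (.cons (.br (nat_lit 10) (nat_lit 0) (.cons (.rf (nat_lit 2341) (nat_lit 468575973378080)) (.cons (.br (nat_lit 11) (nat_lit 0) (.cons (.ev (nat_lit 20282409603670189225615015608321) (nat_lit 1)) .nil)) .nil))) .nil)))) .nil))))) (.cons (.br (nat_lit 13) (nat_lit 0) (.cons (.rf (nat_lit 3158) (nat_lit 493858305440582043680)) (.cons (.rf (nat_lit 3160) (nat_lit 493858305440582043680)) (.cons (.rf (nat_lit 3161) (nat_lit 493858305440582043680)) (.cons (.rf (nat_lit 3162) (nat_lit 493858305440582043680))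 (.cons (.br (nat_lit 13) (nat_lit 0) (.cons (.kr (nat_lit 158456325028528956666359578624) (nat_lit 4740813229142378020864) (nat_lit 4) (nat_lit 0)) (.cons (.rf (nat_lit 3160) (nat_lit 493858305440582043680)) (.cons (.rf (nat_lit 3161) (nat_lit 493858305440582043680)) (.cons (.rf (nat_lit 3162) (nat_lit 493858305440582043680)) .nil))))) .nil)))))) .nil)))))),
 (.br (nat_lit 5) (nat_lit 0) (.cons (.rf (nat_lit 2317) (nat_lit 359858269423648)) (.cons (.rf (nat_lit 2670) (nat_lit 359854106642464)) .nil))),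
 (.br (nat_lit 1) (nat_lit 0) (.cons (.ev (nat_lit 309485009821346168253186304) (nat_lit 1)) (.cons (.rf (nat_lit 3154) (nat_lit 14208022404722296864)) (.cons (.rf (nat_lit 3163) (nat_lit 14242959524133701664)) (.cons (.br (nat_lit 5) (nat_lit 0) (.cons (.rf (nat_lit 2743) (nat_lit 5920984893472)) (.cons (.ev (nat_lit 309485009821627647524929793) (nat_lit 1)) (.cons (.rf (nat_lit 3164) (nat_lit 15071356161984544)) .nil)))) (.cons (.br (nat_lit 5) (nat_lit 0) (.cons (.rf (nat_lit 2330) (nat_lit 15000815788984352)) (.cons (.br (nat_lit 7) (nat_lit 0) (.cons (.rf (nat_lit 2343) (nat_lit 468810015541280)) (.cons (.rf (nat_lit 2330) (nat_lit 15001056072271904)) (.cons (.br (nat_lit 10) (nat_lit 0) (.cons (.kr (nat_lit 158456325028528956666359578624) (nat_lit 4740813229142378020864) (nat_lit 4) (nat_lit 0)) (.cons (.br (nat_lit 12) (nat_lit 0) (.cons (.ev (nat_lit 20361637766166007100614121619713) (nat_lit 1)) .nil)) .nil))) .nil)))) (.cons (.rf (nat_lit 2336) (nat_lit 468782970669088)) (.cons (.br (nat_lit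 12) (nat_lit 0) (.cons (.rf (nat_lit 2329) (nat_lit 468782970669088)) (.cons (.br (nat_lit 7) (nat_lit 0) (.cons (.ev (nat_lit 79229371458602754989977829633) (nat_lit 1)) (.cons (.br (nat_lit 10) (nat_lit 0) (.cons (.ev (nat_lit 79229376162522492690696830976) (nat_lit 1)) .nil)) .nil))) (.cons (.kr (nat_lit 158456325028528956666359578624) (nat_lit 4740813229142378020864) (nat_lit 4) (nat_lit 0)) .nil)))) .nil))))) .nil)))))),
 (.br (nat_lit 2) (nat_lit 0) (.cons (.rf (nat_lit 3090) (nat_lit 13951351549195551746)) (.cons (.rf (nat_lit 3119) (nat_lit 14242959524133701664)) (.cons (.rf (nat_lit 3154) (nat_lit 14242959524133701664)) (.cons (.br (nat_lit 1) (nat_lit 0) (.cons (.rf (nat_lit 3157) (nat_lit 14242959524133701664)) (.cons (.rf (nat_lit 3154) (nat_lit 14208022404722296864)) (.cons (.rf (nat_lit 3163) (nat_lit 14242959524133701664)) (.cons (.rf (nat_lit 3165) (nat_lit 14242959524133701664)) (.cons (.br (nat_lit 1) (nat_lit 0) (.cons (.kr (nat_lit 158456325028528956666359578624) (nat_lit 4740813229142378020864)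 (nat_lit 4) (nat_lit 0)) (.cons (.rf (nat_lit 3143) (nat_lit 14208022404722296864)) (.cons (.rf (nat_lit 3163) (nat_lit 14242959524133701664)) (.cons (.rf (nat_lit 3165) (nat_lit 14242959524133701664)) (.cons (.rf (nat_lit 3090) (nat_lit 6028215822752789505)) .nil)))))) (.cons (.br (nat_lit 1) (nat_lit 0) (.cons (.rf (nat_lit 3090) (nat_lit 14242959524133712897)) (.cons (.rf (nat_lit 3154) (nat_lit 14208022404722296864)) (.cons (.rf (nat_lit 3163) (nat_lit 14242959524133701664)) (.cons (.rf (nat_lit 3165) (nat_lit 14242959524133701664)) (.cons (.rf (nat_lit 3090) (nat_lit 6028215822752789505)) .nil)))))) .nil))))))) (.cons (.rf (nat_lit 3090) (nat_lit 13951351549195564034)) .nil)))))),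
 (.br (nat_lit 1) (nat_lit 0) (.cons (.rf (nat_lit 3090) (nat_lit 14242959524133712897)) (.cons (.br (nat_lit 5) (nat_lit 0) (.cons (.ev (nat_lit 1208925891672227507601664) (nat_lit 1)) (.cons (.br (nat_lit 11) (nat_lit 0) (.cons (.br (nat_lit 12) (nat_lit 0) (.cons (.ev (nat_lit 40566676122177013518212458873862) (nat_lit 3)) .nil)) (.cons (.kr (nat_lit 158456325028528956666359578624) (nat_lit 4740813229142378020864) (nat_lit 4) (nat_lit 0)) (.cons (.ev (nat_lit 309485009821626543718269184) (nat_lit 1)) .nil)))) (.cons (.br (nat_lit 10) (nat_lit 0) (.cons (.br (nat_lit 11) (nat_lit 0) (.cons (.ev (nat_lit 20282720302309677867618602582016) (nat_lit 1)) .nil)) (.cons (.ev (nat_lit 79229371458602753894761103361) (nat_lit 1)) .nil))) (.cons (.rf (nat_lit 3090) (nat_lit 14208022404722296877)) .nil))))) (.cons (.br (nat_lit 12) (nat_lit 0) (.cons (.br (nat_lit 13) (nat_lit 0) (.cons (.ev (nat_lit 20282409603670189226718822137856) (nat_lit 1)) (.cons (.rf (nat_lit 2256) (nat_lit 2672013654520607745))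 .nil))) (.cons (.br (nat_lit 10) (nat_lit 0) (.cons (.kr (nat_lit 158456325028528956666359578624) (nat_lit 4740813229142378020864) (nat_lit 4) (nat_lit 0)) (.cons (.ev (nat_lit 79229371458603035365442912256) (nat_lit 1)) (.cons (.ev (nat_lit 1213666704899170862432513) (nat_lit 1)) .nil)))) (.cons (.ev (nat_lit 309485009821345073036591361) (nat_lit 1)) (.cons (.rf (nat_lit 3090) (nat_lit 5885226501296850989)) .nil))))) (.cons (.rf (nat_lit 3090) (nat_lit 6028215822752789505)) .nil))))),
 (.br (nat_lit 10) (nat_lit 0) (.cons (.ev (nat_lit 20361948460101576003813183062273) (nat_lit 1)) .nil)),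
 (.br (nat_lit 13) (nat_lit 0) (.cons (.rf (nat_lit 3090) (nat_lit 14090929087143282733)) (.cons (.rf (nat_lit 3167) (nat_lit 493858305440582043680)) (.cons (.br (nat_lit 1) (nat_lit 0) (.cons (.rf (nat_lit 3090) (nat_lit 14242959524133712897)) (.cons (.br (nat_lit 5) (nat_lit 0) (.cons (.rf (nat_lit 3145) (nat_lit 493823368321170638880)) (.cons (.rf (nat_lit 3145) (nat_lit 493858305440582043680)) (.cons (.br (nat_lit 10) (nat_lit 0) (.cons (.ev (nat_lit 20361948464842388948182049554433) (nat_lit 1)) .nil)) .nil)))) (.cons (.br (nat_lit 5) (nat_lit 0) (.cons (.ev (nat_lit 1208925891672227507601664) (nat_lit 1)) (.cons (.ev (nat_lit 309485009821626543718269184) (nat_lit 1)) (.cons (.br (nat_lit 7) (nat_lit 0) (.cons (.ev (nat_lit 621392723209931072917995520) (nat_lit 3)) .nil)) .nil)))) (.cons (.br (nat_lit 5) (nat_lit 0) (.cons (.rf (nat_lit 3168) (nat_lit 493858305440582043680)) (.cons (.rf (nat_lit 3168) (nat_lit 13951351549195552813)) (.cons (.rf (nat_lit 2256) (nat_lit 2672013654520607745))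 .nil)))) (.cons (.rf (nat_lit 3090) (nat_lit 6028215822752789505)) .nil)))))) (.cons (.rf (nat_lit 3090) (nat_lit 6164517744835627053)) .nil))))),
 (.br (nat_lit 13) (nat_lit 0) (.cons (.rf (nat_lit 3099) (nat_lit 14242959524133712961)) (.cons (.rf (nat_lit 3167) (nat_lit 493858305440582043680)) (.cons (.rf (nat_lit 3169) (nat_lit 493858305440582043680)) (.cons (.br (nat_lit 13) (nat_lit 0) (.cons (.rf (nat_lit 3090) (nat_lit 13951351549195552813)) (.cons (.rf (nat_lit 3167) (nat_lit 493858305440582043680)) (.cons (.rf (nat_lit 3169) (nat_lit 493858305440582043680)) (.cons (.rf (nat_lit 3090) (nat_lit 6132992408932419629)) .nil))))) (.cons (.rf (nat_lit 3099) (nat_lit 5885226501296862273)) .nil)))))),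
 (.br (nat_lit 13) (nat_lit 0) (.cons (.rf (nat_lit 3090) (nat_lit 14208022404722296877)) (.cons (.br (nat_lit 10) (nat_lit 0) (.cons (.br (nat_lit 11) (nat_lit 0) (.cons (.br (nat_lit 11) (nat_lit 0) (.cons (.ev (nat_lit 40566676122177014644129545847810) (nat_lit 3)) .nil)) (.cons (.br (nat_lit 1) (nat_lit 0) (.cons (.ev (nat_lit 40566676122177014644129545847810) (nat_lit 3)) .nil)) .nil))) (.cons (.br (nat_lit 1) (nat_lit 0) (.cons (.ev (nat_lit 20282720297605758128822666985473) (nat_lit 1)) (.cons (.br (nat_lit 1) (nat_lit 0) (.cons (.ev (nat_lit 20282720297605758128822666985473) (nat_lit 1)) .nil)) .nil))) (.cons (.ev (nat_lit 122011372694633609527285380284418) (nat_lit 3)) .nil)))) (.cons (.ev (nat_lit 20282409608374108965514757865473) (nat_lit 1)) (.cons (.kr (nat_lit 158456325028528956666359578624) (nat_lit 4740813229142378020864) (nat_lit 4) (nat_lit 0)) .nil))))),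
 (.br (nat_lit 11) (nat_lit 0) (.cons (.zr (nat_lit 158456325028528679585134412289) (nat_lit 20282720297587383441247795478528) (nat_lit 5) (nat_lit 2)) .nil)),
 (.br (nat_lit 1) (nat_lit 0) (.cons (.rf (nat_lit 3172) (nat_lit 493858305440582043680)) (.cons (.rf (nat_lit 3172) (nat_lit 493823368321170638880)) (.cons (.br (nat_lit 10) (nat_lit 0) (.cons (.ev (nat_lit 20361948460101576002717966467073) (nat_lit 1)) .nil)) .nil)))),
 (.br (nat_lit 7) (nat_lit 0) (.cons (.zr (nat_lit 158456325028528679585134412289) (nat_lit 20282720297587383441247795478528) (nat_lit 5) (nat_lit 2)) .nil)),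
 (.br (nat_lit 1) (nat_lit 0) (.cons (.rf (nat_lit 3173) (nat_lit 493858305440582043680)) (.cons (.rf (nat_lit 3174) (nat_lit 493858305440582043680)) (.cons (.br (nat_lit 7) (nat_lit 0) (.cons (.ev (nat_lit 1864168465485535107430482948) (nat_lit 3)) .nil)) .nil)))),
 (.br (nat_lit 13) (nat_lit 0) (.cons (.rf (nat_lit 3090) (nat_lit 14090929087143282733)) (.cons (.rf (nat_lit 3171) (nat_lit 493858305440582043680)) (.cons (.br (nat_lit 1) (nat_lit 0) (.cons (.rf (nat_lit 3173) (nat_lit 493858305440582043680)) (.cons (.rf (nat_lit 3175) (nat_lit 493858305440582043680)) (.cons (.br (nat_lit 1) (nat_lit 0) (.cons (.rf (nat_lit 3173) (nat_lit 493858305440582043680)) (.cons (.rf (nat_lit 3174) (nat_lit 493858305440582043680)) (.cons (.ev (nat_lit 309489750634853487073100033) (nat_lit 1)) .nil)))) (.cons (.br (nat_lit 1) (nat_lit 0) (.cons (.rf (nat_lit 3173) (nat_lit 493858305440582043680)) (.cons (.rf (nat_lit 3175) (nat_lit 493858305440582043680)) (.cons (.ev (nat_lit 309489750634853487073100033) (nat_lit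 1)) .nil)))) .nil))))) (.cons (.kr (nat_lit 158456325028528956666359578624) (nat_lit 4740813229142378020864) (nat_lit 4) (nat_lit 0)) .nil))))),
 (.br (nat_lit 13) (nat_lit 0) (.cons (.rf (nat_lit 3099) (nat_lit 14242959524133712961)) (.cons (.rf (nat_lit 3171) (nat_lit 493858305440582043680)) (.cons (.rf (nat_lit 3176) (nat_lit 493858305440582043680)) (.cons (.br (nat_lit 13) (nat_lit 0) (.cons (.rf (nat_lit 3090) (nat_lit 13951351549195552813)) (.cons (.ev (nat_lit 20282409608374108965514757865473) (nat_lit 1)) (.cons (.rf (nat_lit 3176) (nat_lit 493858305440582043680)) (.cons (.kr (nat_lit 158456325028528956666359578624) (nat_lit 4740813229142378020864) (nat_lit 4) (nat_lit 0)) .nil))))) (.cons (.kr (nat_lit 158456325028528956666359578624) (nat_lit 4740813229142378020864) (nat_lit 4) (nat_lit 0)) .nil))))))]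

theorem c116 : chkAll C T R L116 (nat_lit 3154) = true := by decide +kernel

theorem l116 : (nat_lit 3154) + L116.length = (nat_lit 3178) := by decide +kernel

/-- part of the certificates -/
def L117 : List Prf := [(.br (nat_lit 1) (nat_lit 0) (.cons (.ev (nat_lit 1208925891672227507601664) (nat_lit 1)) (.cons (.br (nat_lit 10) (nat_lit 0) (.cons (.ev (nat_lit 621392723209928882484807168) (nat_lit 3)) .nil)) (.cons (.kr (nat_lit 158456325028528956666359578624) (nat_lit 4740813229142378020864) (nat_lit 4) (nat_lit 0)) .nil)))),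
 (.br (nat_lit 5) (nat_lit 0) (.cons (.ev (nat_lit 1208925891672227507601664) (nat_lit 1)) (.cons (.br (nat_lit 1) (nat_lit 0) (.cons (.ev (nat_lit 20361637766166006820238656536833) (nat_lit 1)) .nil)) (.cons (.ev (nat_lit 79229371458602753894761103361) (nat_lit 1)) .nil)))),
 (.br (nat_lit 13) (nat_lit 0) (.cons (.rf (nat_lit 3170) (nat_lit 493858305440582043680)) (.cons (.rf (nat_lit 3177) (nat_lit 493858305440582043680)) (.cons (.br (nat_lit 1) (nat_lit 0) (.cons (.rf (nat_lit 3178) (nat_lit 493858305440582043680)) (.cons (.rf (nat_lit 3179) (nat_lit 493858305440582043680)) (.cons (.br (nat_lit 1) (nat_lit 0) (.cons (.rf (nat_lit 3178) (nat_lit 493858305440582043680)) (.cons (.rf (nat_lit 3179) (nat_lit 493858305440582043680)) (.cons (.ev (nat_lit 309489750634853487073100033) (nat_lit 1)) .nil)))) (.cons (.br (nat_lit 1) (nat_lit 0) (.cons (.kr (nat_lit 158456325028528956666359578624) (nat_lit 4740813229142378020864) (nat_lit 4) (nat_lit 0)) (.cons (.rf (nat_lit 3179) (nat_lit 493858305440582043680))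 (.cons (.ev (nat_lit 309489750634853487073100033) (nat_lit 1)) .nil)))) .nil))))) (.cons (.br (nat_lit 5) (nat_lit 0) (.cons (.ev (nat_lit 20282409603670189226718822137856) (nat_lit 1)) (.cons (.rf (nat_lit 2751) (nat_lit 47393064255906)) (.cons (.br (nat_lit 1) (nat_lit 0) (.cons (.br (nat_lit 1) (nat_lit 0) (.cons (.zr (nat_lit 60848157266003138223908046503938) (nat_lit 158458742880168187019959337216) (nat_lit 10) (nat_lit 7)) .nil)) (.cons (.br (nat_lit 1) (nat_lit 0) (.cons (.zr (nat_lit 60848157266003138223908046503938) (nat_lit 158458742880168187019959337216) (nat_lit 10) (nat_lit 7)) .nil)) .nil))) .nil)))) .nil))))),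
 (.br (nat_lit 13) (nat_lit 0) (.cons (.rf (nat_lit 3170) (nat_lit 493858305440582043680)) (.cons (.ev (nat_lit 20282409608374108965514757865473) (nat_lit 1)) (.cons (.rf (nat_lit 3180) (nat_lit 493858305440582043680)) (.cons (.br (nat_lit 5) (nat_lit 0) (.cons (.br (nat_lit 10) (nat_lit 0) (.cons (.br (nat_lit 10) (nat_lit 0) (.cons (.ev (nat_lit 20282720302309677867618602582016) (nat_lit 1)) .nil)) (.cons (.br (nat_lit 1) (nat_lit 0) (.cons (.ev (nat_lit 20282720302309677867618602582016) (nat_lit 1)) .nil)) .nil))) (.cons (.br (nat_lit 10) (nat_lit 0) (.cons (.ev (nat_lit 79229376162522774161378508801) (nat_lit 1)) (.cons (.kr (nat_lit 79228162514264900543497371649) (nat_lit 20282410812577490039675954397184) (nat_lit 0) (nat_lit 1)) .nil))) (.cons (.ev (nat_lit 79537652246452165536225689601) (nat_lit 1)) .nil)))) .nil))))),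
 (.br (nat_lit 13) (nat_lit 0) (.cons (.rf (nat_lit 3170) (nat_lit 493858305440582043680)) (.cons (.rf (nat_lit 3177) (nat_lit 493858305440582043680)) (.cons (.rf (nat_lit 3180) (nat_lit 493858305440582043680)) (.cons (.rf (nat_lit 3181) (nat_lit 493858305440582043680)) (.cons (.br (nat_lit 13) (nat_lit 0) (.cons (.rf (nat_lit 3090) (nat_lit 5885226501296850989)) (.cons (.kr (nat_lit 158456325028528956666359578624) (nat_lit 4740813229142378020864) (nat_lit 4) (nat_lit 0)) (.cons (.rf (nat_lit 3180) (nat_lit 493858305440582043680)) (.cons (.rf (nat_lit 3181) (nat_lit 493858305440582043680)) .nil))))) .nil)))))),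
 (.br (nat_lit 1) (nat_lit 0) (.cons (.ev (nat_lit 20361637770906820046078204706816) (nat_lit 1)) (.cons (.br (nat_lit 7) (nat_lit 0) (.cons (.ev (nat_lit 122645212502005420108694912241156) (nat_lit 4)) .nil)) (.cons (.br (nat_lit 7) (nat_lit 0) (.cons (.ev (nat_lit 79229371458603036469249442048) (nat_lit 1)) .nil)) .nil)))),
 (.br (nat_lit 13) (nat_lit 0) (.cons (.rf (nat_lit 3170) (nat_lit 493858305440582043680)) (.cons (.rf (nat_lit 3177) (nat_lit 493858305440582043680)) (.cons (.rf (nat_lit 3182) (nat_lit 493858305440582043680)) (.cons (.br (nat_lit 1) (nat_lit 0) (.cons (.rf (nat_lit 3183) (nat_lit 493858305440582043680)) (.cons (.ev (nat_lit 20361637770906820046078204706816) (nat_lit 1)) (.cons (.br (nat_lit 1) (nat_lit 0) (.cons (.rf (nat_lit 3183) (nat_lit 493858305440582043680)) (.cons (.ev (nat_lit 20361637766166007100614121619456) (nat_lit 1)) (.cons (.ev (nat_lit 20361948464842389229661321166848) (nat_lit 1)) .nil)))) (.cons (.br (nat_lit 1) (nat_lit 0) (.cons (.rf (nat_lit 3183) (nat_lit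 493858305440582043680)) (.cons (.ev (nat_lit 20361637770906820046078204706816) (nat_lit 1)) (.cons (.ev (nat_lit 20361948464842389229661321166848) (nat_lit 1)) .nil)))) .nil))))) .nil))))),
 (.br (nat_lit 13) (nat_lit 0) (.cons (.rf (nat_lit 3170) (nat_lit 493858305440582043680)) (.cons (.rf (nat_lit 3177) (nat_lit 493858305440582043680)) (.cons (.rf (nat_lit 3182) (nat_lit 493858305440582043680)) (.cons (.rf (nat_lit 3184) (nat_lit 493858305440582043680)) (.cons (.br (nat_lit 13) (nat_lit 0) (.cons (.rf (nat_lit 3090) (nat_lit 6164517744835627053)) (.cons (.kr (nat_lit 158456325028528956666359578624) (nat_lit 4740813229142378020864) (nat_lit 4) (nat_lit 0)) (.cons (.rf (nat_lit 3182) (nat_lit 493858305440582043680)) (.cons (.rf (nat_lit 3184) (nat_lit 493858305440582043680)) .nil))))) .nil)))))),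
 (.br (nat_lit 13) (nat_lit 0) (.cons (.rf (nat_lit 3170) (nat_lit 493858305440582043680)) (.cons (.rf (nat_lit 3177) (nat_lit 493858305440582043680)) (.cons (.rf (nat_lit 3182) (nat_lit 493858305440582043680)) (.cons (.rf (nat_lit 3185) (nat_lit 493858305440582043680)) (.cons (.br (nat_lit 13) (nat_lit 0) (.cons (.rf (nat_lit 3090) (nat_lit 6132992408932419629)) (.cons (.kr (nat_lit 158456325028528956666359578624) (nat_lit 4740813229142378020864) (nat_lit 4) (nat_lit 0)) (.cons (.rf (nat_lit 3182) (nat_lit 493858305440582043680)) (.cons (.rf (nat_lit 3185) (nat_lit 493858305440582043680)) .nil))))) .nil)))))),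
 (.br (nat_lit 2) (nat_lit 0) (.cons (.rf (nat_lit 3102) (nat_lit 14242959524133701664)) (.cons (.rf (nat_lit 3119) (nat_lit 14242959524133701664)) (.cons (.rf (nat_lit 3154) (nat_lit 14242959524133701664)) (.cons (.rf (nat_lit 3166) (nat_lit 14242959524133701664)) (.cons (.br (nat_lit 13) (nat_lit 0) (.cons (.rf (nat_lit 3170) (nat_lit 493858305440582043680)) (.cons (.rf (nat_lit 3177) (nat_lit 493858305440582043680)) (.cons (.rf (nat_lit 3182) (nat_lit 493858305440582043680)) (.cons (.rf (nat_lit 3185) (nat_lit 493858305440582043680)) (.cons (.rf (nat_lit 3186) (nat_lit 493858305440582043680)) (.cons (.br (nat_lit 13) (nat_lit 0) (.cons (.rf (nat_lit 3099) (nat_lit 5885226501296862273)) (.cons (.kr (nat_lit 158456325028528956666359578624) (nat_lit 4740813229142378020864) (nat_lit 4) (nat_lit 0)) (.cons (.rf (nat_lit 3182) (nat_lit 493858305440582043680)) (.cons (.rf (nat_lit 3185) (nat_lit 493858305440582043680)) (.cons (.rf (nat_lit 3186) (nat_lit 493858305440582043680)) .nil)))))) .nil)))))))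 .nil)))))),
 (.br (nat_lit 2) (nat_lit 0) (.cons (.rf (nat_lit 3102) (nat_lit 14242959524133701664)) (.cons (.rf (nat_lit 3119) (nat_lit 14242959524133701664)) (.cons (.rf (nat_lit 3154) (nat_lit 14242959524133701664)) (.cons (.rf (nat_lit 3166) (nat_lit 14242959524133701664)) (.cons (.rf (nat_lit 3187) (nat_lit 14242959524133701664)) (.cons (.br (nat_lit 2) (nat_lit 0) (.cons (.rf (nat_lit 1943) (nat_lit 427010)) (.cons (.rf (nat_lit 3090) (nat_lit 14208022404722308098)) (.cons (.rf (nat_lit 3090) (nat_lit 14090929087143293954)) (.cons (.rf (nat_lit 3090) (nat_lit 13951351549195564034)) (.cons (.rf (nat_lit 3187) (nat_lit 14242959524133701664)) .nil)))))) .nil))))))),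
 (.br (nat_lit 5) (nat_lit 0) (.cons (.kr (nat_lit 4722367327294575345666) (nat_lit 18446746277027774976) (nat_lit 0) (nat_lit 2)) (.cons (.br (nat_lit 2) (nat_lit 0) (.cons (.ev (nat_lit 79229371458602753894761103361) (nat_lit 1)) (.cons (.br (nat_lit 13) (nat_lit 0) (.cons (.rf (nat_lit 3188) (nat_lit 5885226501296862210)) .nil)) .nil))) (.cons (.rf (nat_lit 2234) (nat_lit 15071358244456480)) .nil)))),
 (.br (nat_lit 5) (nat_lit 0) (.cons (.rf (nat_lit 3188) (nat_lit 14242959524133701664)) (.cons (.rf (nat_lit 3189) (nat_lit 14242959524133701664)) (.cons (.br (nat_lit 2) (nat_lit 0) (.cons (.rf (nat_lit 2276) (nat_lit 14682520913952)) (.cons (.ev (nat_lit 79229376162522774161378508801) (nat_lit 1)) (.cons (.br (nat_lit 12) (nat_lit 0) (.cons (.ev (nat_lit 79537647542532709314778431745) (nat_lit 1)) (.cons (.rf (nat_lit 3188) (nat_lit 5885226501296862210)) .nil))) .nil)))) .nil)))),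
 (.br (nat_lit 5) (nat_lit 0) (.cons (.rf (nat_lit 3188) (nat_lit 14242959524133701664)) (.cons (.rf (nat_lit 3189) (nat_lit 14242959524133701664)) (.cons (.rf (nat_lit 3190) (nat_lit 14242959524133701664)) (.cons (.br (nat_lit 5) (nat_lit 0) (.cons (.rf (nat_lit 2163) (nat_lit 15071186609472576)) (.cons (.rf (nat_lit 2234) (nat_lit 15071358244456480)) (.cons (.rf (nat_lit 3190) (nat_lit 14242959524133701664)) .nil)))) .nil))))),
 (.br (nat_lit 5) (nat_lit 0) (.cons (.rf (nat_lit 2233) (nat_lit 470946560444448)) (.cons (.br (nat_lit 10) (nat_lit 0) (.cons (.kr (nat_lit 2422574006556552958443522) (nat_lit 618970038233551602553193472) (nat_lit 0) (nat_lit 12)) (.cons (.br (nat_lit 12) (nat_lit 0) (.cons (.ev (nat_lit 79229371458602753894761103361) (nat_lit 1)) .nil)) .nil))) .nil))),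
 (.br (nat_lit 5) (nat_lit 0) (.cons (.br (nat_lit 13) (nat_lit 0) (.cons (.rf (nat_lit 3192) (nat_lit 493858305440582043680)) (.cons (.ev (nat_lit 79229376162522774161378508801) (nat_lit 1)) .nil))) (.cons (.rf (nat_lit 3192) (nat_lit 493858305440582043680)) .nil))),
 (.br (nat_lit 2) (nat_lit 0) (.cons (.ev (nat_lit 309485009821345073036591104) (nat_lit 1)) (.cons (.rf (nat_lit 3191) (nat_lit 14242959524133701664)) (.cons (.br (nat_lit 10) (nat_lit 0) (.cons (.br (nat_lit 5) (nat_lit 0) (.cons (.ev (nat_lit 79537652246452166631442415873) (nat_lit 1)) (.cons (.rf (nat_lit 2234) (nat_lit 15070293092567072)) .nil))) (.cons (.rf (nat_lit 2164) (nat_lit 13377052182560)) (.cons (.rf (nat_lit 2163) (nat_lit 14826163057821728)) .nil)))) (.cons (.br (nat_lit 13) (nat_lit 0) (.cons (.rf (nat_lit 3192) (nat_lit 493858305440582043680)) (.cons (.rf (nat_lit 3193) (nat_lit 493858305440582043680)) (.cons (.br (nat_lit 13) (nat_lit 0) (.cons (.rf (nat_lit 3192) (nat_lit 493858305440582043680)) (.cons (.rf (nat_lit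 3193) (nat_lit 493858305440582043680)) .nil))) .nil)))) .nil))))),
 (.br (nat_lit 2) (nat_lit 0) (.cons (.rf (nat_lit 3188) (nat_lit 14242959524133701664)) (.cons (.rf (nat_lit 3191) (nat_lit 14242959524133701664)) (.cons (.rf (nat_lit 3194) (nat_lit 14242959524133701664)) (.cons (.br (nat_lit 2) (nat_lit 0) (.cons (.rf (nat_lit 3188) (nat_lit 14242959524133701664)) (.cons (.rf (nat_lit 3191) (nat_lit 14242959524133701664)) (.cons (.rf (nat_lit 3194) (nat_lit 14242959524133701664)) (.cons (.rf (nat_lit 3090) (nat_lit 5885226501296862210)) .nil))))) (.cons (.br (nat_lit 2) (nat_lit 0) (.cons (.rf (nat_lit 3090) (nat_lit 14208022404722308098)) (.cons (.rf (nat_lit 3191) (nat_lit 14242959524133701664)) (.cons (.rf (nat_lit 3194) (nat_lit 14242959524133701664)) (.cons (.rf (nat_lit 3090) (nat_lit 5885226501296862210)) .nil))))) .nil)))))),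
 (.br (nat_lit 4) (nat_lit 0) (.cons (.rf (nat_lit 2276) (nat_lit 9043193202720)) (.cons (.br (nat_lit 4) (nat_lit 0) (.cons (.rf (nat_lit 2276) (nat_lit 10142704830496)) .nil)) .nil))),
 (.br (nat_lit 13) (nat_lit 0) (.cons (.br (nat_lit 12) (nat_lit 0) (.cons (.ev (nat_lit 79229376162522775265185169665) (nat_lit 1)) (.cons (.rf (nat_lit 2233) (nat_lit 463317826111520)) (.cons (.rf (nat_lit 3188) (nat_lit 5885226501296862210)) .nil)))) (.cons (.rf (nat_lit 3188) (nat_lit 5885226501296862210)) .nil))),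
 (.br (nat_lit 2) (nat_lit 0) (.cons (.rf (nat_lit 3103) (nat_lit 444916527968389152)) (.cons (.rf (nat_lit 3195) (nat_lit 14208022404722295872)) (.cons (.rf (nat_lit 3196) (nat_lit 423294502944)) (.cons (.br (nat_lit 13) (nat_lit 0) (.cons (.rf (nat_lit 3197) (nat_lit 493858305440582043680)) (.cons (.br (nat_lit 13) (nat_lit 0) (.cons (.rf (nat_lit 3197) (nat_lit 493858305440582043680)) (.cons (.rf (nat_lit 3188) (nat_lit 5885226501296862210)) .nil))) (.cons (.rf (nat_lit 3188) (nat_lit 5885226501296862210)) .nil)))) .nil))))),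
 (.br (nat_lit 12) (nat_lit 0) (.cons (.ev (nat_lit 79229376162522493785913491456) (nat_lit 1)) (.cons (.ev (nat_lit 79230594533147978372369940481) (nat_lit 2)) (.cons (.ev (nat_lit 79230594533147132847928180737) (nat_lit 2)) .nil)))),
 (.br (nat_lit 2) (nat_lit 0) (.cons (.rf (nat_lit 3188) (nat_lit 14242959524133701664)) (.cons (.rf (nat_lit 3195) (nat_lit 14208022404722295872)) (.cons (.rf (nat_lit 3115) (nat_lit 14026786742221244448)) (.cons (.br (nat_lit 10) (nat_lit 0) (.cons (.br (nat_lit 5) (nat_lit 0) (.cons (.kr (nat_lit 1099511627776) (nat_lit 281474976710656) (nat_lit 5) (nat_lit 0)) (.cons (.rf (nat_lit 2187) (nat_lit 14478677739552)) (.cons (.rf (nat_lit 3199) (nat_lit 493858305440582043680)) .nil)))) (.cons (.rf (nat_lit 2198) (nat_lit 15037103699232800)) (.cons (.rf (nat_lit 2175) (nat_lit 14825132232116256)) (.cons (.br (nat_lit 11) (nat_lit 0) (.cons (.br (nat_lit 5) (nat_lit 0) (.cons (.ev (nat_lit 79538856505462267452303016449) (nat_lit 2)) (.cons (.br (nat_lit 12) (nat_lit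 0) (.cons (.ev (nat_lit 40566059570008867633194200072192) (nat_lit 3)) .nil)) .nil))) (.cons (.rf (nat_lit 2198) (nat_lit 15034906823460896)) (.cons (.br (nat_lit 12) (nat_lit 0) (.cons (.br (nat_lit 5) (nat_lit 0) (.cons (.ev (nat_lit 40881739115656419315891422232580) (nat_lit 3)) .nil)) (.cons (.ev (nat_lit 20282720302309677866514796052481) (nat_lit 1)) .nil))) .nil)))) .nil))))) .nil))))),
 (.br (nat_lit 2) (nat_lit 0) (.cons (.rf (nat_lit 3188) (nat_lit 14242959524133701664)) (.cons (.rf (nat_lit 3198) (nat_lit 14242959524133701664)) (.cons (.rf (nat_lit 3200) (nat_lit 14242959524133701664)) (.cons (.br (nat_lit 2) (nat_lit 0) (.cons (.rf (nat_lit 3115) (nat_lit 14242959524133701664)) (.cons (.rf (nat_lit 3196) (nat_lit 423294502944)) (.cons (.rf (nat_lit 3115) (nat_lit 14026786742221244448)) (.cons (.rf (nat_lit 3090) (nat_lit 5885226501296862210)) .nil))))) (.cons (.br (nat_lit 2) (nat_lit 0) (.cons (.rf (nat_lit 3090) (nat_lit 14208022404722308098)) (.cons (.rf (nat_lit 3198) (nat_lit 14242959524133701664))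 (.cons (.rf (nat_lit 3200) (nat_lit 14242959524133701664)) (.cons (.rf (nat_lit 3090) (nat_lit 5885226501296862210)) .nil))))) .nil)))))),
 (.br (nat_lit 5) (nat_lit 0) (.cons (.ev (nat_lit 79229376162522774161378508801) (nat_lit 1)) (.cons (.br (nat_lit 13) (nat_lit 0) (.cons (.ev (nat_lit 309485009821626543718269184) (nat_lit 1)) (.cons (.br (nat_lit 11) (nat_lit 0) (.cons (.ev (nat_lit 309485009821626543718269184) (nat_lit 1)) .nil)) .nil))) .nil))),
 (.br (nat_lit 12) (nat_lit 0) (.cons (.br (nat_lit 13) (nat_lit 0) (.cons (.br (nat_lit 11) (nat_lit 0) (.cons (.ev (nat_lit 20361637766166006820238656536576) (nat_lit 1)) .nil)) (.cons (.br (nat_lit 5) (nat_lit 0) (.cons (.ev (nat_lit 20361637766166006820238656536576) (nat_lit 1)) .nil)) .nil))) (.cons (.rf (nat_lit 3188) (nat_lit 5885226501296862210)) .nil))),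
 (.br (nat_lit 2) (nat_lit 0) (.cons (.rf (nat_lit 3188) (nat_lit 14242959524133701664)) (.cons (.rf (nat_lit 3195) (nat_lit 14208022404722295872)) (.cons (.br (nat_lit 5) (nat_lit 0) (.cons (.rf (nat_lit 3202) (nat_lit 493858305440582043680)) (.cons (.ev (nat_lit 79229376162522774161378508801) (nat_lit 1)) (.cons (.br (nat_lit 5) (nat_lit 0) (.cons (.rf (nat_lit 3202) (nat_lit 493858305440582043680)) (.cons (.ev (nat_lit 79229371458602753894761103361) (nat_lit 1)) .nil))) .nil)))) (.cons (.br (nat_lit 12) (nat_lit 0) (.cons (.rf (nat_lit 3203) (nat_lit 493858305440582043680)) (.cons (.br (nat_lit 12) (nat_lit 0) (.cons (.rf (nat_lit 3203) (nat_lit 493858305440582043680)) (.cons (.rf (nat_lit 3188) (nat_lit 5885226501296862210)) .nil))) (.cons (.rf (nat_lit 3188) (nat_lit 5885226501296862210)) .nil)))) .nil)))))]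

theorem c117 : chkAll C T R L117 (nat_lit 3178) = true := by decide +kernel

theorem l117 : (nat_lit 3178) + L117.length = (nat_lit 3205) := by decide +kernel

/-- part of the certificates -/
def L118 : List Prf := [(.br (nat_lit 5) (nat_lit 0) (.cons (.ev (nat_lit 310693935857133583870329346) (nat_lit 2)) (.cons (.br (nat_lit 11) (nat_lit 0) (.cons (.ev (nat_lit 79537652246452448110714028033) (nat_lit 1)) (.cons (.br (nat_lit 12) (nat_lit 0) (.cons (.ev (nat_lit 79537647542532708210971770881) (nat_lit 1)) .nil)) .nil))) (.cons (.br (nat_lit 11) (nat_lit 0) (.cons (.br (nat_lit 12) (nat_lit 0) (.cons (.ev (nat_lit 79229371458603036469249441793) (nat_lit 1)) .nil)) (.cons (.rf (nat_lit 2283) (nat_lit 1336804248374195202)) .nil))) .nil)))),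
 (.br (nat_lit 5) (nat_lit 0) (.cons (.rf (nat_lit 3205) (nat_lit 493858305440582043680)) (.cons (.rf (nat_lit 3205) (nat_lit 493823368321170637888)) (.cons (.br (nat_lit 13) (nat_lit 0) (.cons (.rf (nat_lit 2283) (nat_lit 2494265636457395201)) (.cons (.rf (nat_lit 2283) (nat_lit 1336804248374195202)) (.cons (.rf (nat_lit 2256) (nat_lit 15398169077108279328)) .nil)))) .nil)))),
 (.br (nat_lit 2) (nat_lit 0) (.cons (.rf (nat_lit 3188) (nat_lit 14242959524133701664)) (.cons (.rf (nat_lit 3195) (nat_lit 14208022404722295872)) (.cons (.rf (nat_lit 3201) (nat_lit 14208022404722295872)) (.cons (.br (nat_lit 5) (nat_lit 0) (.cons (.rf (nat_lit 3205) (nat_lit 493858305440582043680)) (.cons (.rf (nat_lit 3205) (nat_lit 493823368321170637888)) (.cons (.rf (nat_lit 3206) (nat_lit 493858305440582043680)) (.cons (.br (nat_lit 5) (nat_lit 0) (.cons (.rf (nat_lit 3205) (nat_lit 493858305440582043680)) (.cons (.rf (nat_lit 3205) (nat_lit 493823368321170637888)) (.cons (.rf (nat_lit 3206) (nat_lit 493858305440582043680))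 .nil)))) .nil))))) .nil))))),
 (.br (nat_lit 1) (nat_lit 0) (.cons (.rf (nat_lit 3102) (nat_lit 14242959524133701664)) (.cons (.rf (nat_lit 3188) (nat_lit 14208022404722295872)) (.cons (.rf (nat_lit 3195) (nat_lit 14242959524133701664)) (.cons (.rf (nat_lit 3201) (nat_lit 14242959524133701664)) (.cons (.br (nat_lit 2) (nat_lit 0) (.cons (.rf (nat_lit 3188) (nat_lit 14242959524133701664)) (.cons (.rf (nat_lit 3204) (nat_lit 493858305440582043680)) (.cons (.rf (nat_lit 3207) (nat_lit 493858305440582043680)) (.cons (.br (nat_lit 2) (nat_lit 0) (.cons (.rf (nat_lit 3188) (nat_lit 14242959524133701664)) (.cons (.rf (nat_lit 3204) (nat_lit 493858305440582043680)) (.cons (.rf (nat_lit 3201) (nat_lit 14208022404722295872)) (.cons (.rf (nat_lit 3090) (nat_lit 5885226501296862210)) .nil))))) (.cons (.br (nat_lit 2) (nat_lit 0) (.cons (.rf (nat_lit 3090) (nat_lit 14208022404722308098)) (.cons (.rf (nat_lit 3204) (nat_lit 493858305440582043680)) (.cons (.rf (nat_lit 3207) (nat_lit 493858305440582043680)) (.cons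 (.rf (nat_lit 3090) (nat_lit 5885226501296862210)) .nil))))) .nil)))))) .nil)))))),
 (.br (nat_lit 2) (nat_lit 0) (.cons (.rf (nat_lit 3188) (nat_lit 14242959524133701664)) (.cons (.rf (nat_lit 3208) (nat_lit 14208022404722295872)) (.cons (.rf (nat_lit 2274) (nat_lit 14242959455481333792)) (.cons (.br (nat_lit 12) (nat_lit 0) (.cons (.br (nat_lit 5) (nat_lit 0) (.cons (.rf (nat_lit 2196) (nat_lit 468775689357344)) (.cons (.rf (nat_lit 2187) (nat_lit 14478711293984)) (.cons (.br (nat_lit 10) (nat_lit 0) (.cons (.rf (nat_lit 2197) (nat_lit 468810015541280)) (.cons (.br (nat_lit 11) (nat_lit 0) (.cons (.ev (nat_lit 158767019001279579501455475200) (nat_lit 2)) .nil)) .nil))) .nil)))) (.cons (.rf (nat_lit 2198) (nat_lit 15000821962999840)) (.cons (.rf (nat_lit 2175) (nat_lit 14824032754042912)) (.cons (.rf (nat_lit 3188) (nat_lit 5885226501296862210)) .nil))))) .nil))))),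
 (.br (nat_lit 2) (nat_lit 0) (.cons (.rf (nat_lit 3188) (nat_lit 14242959524133701664)) (.cons (.rf (nat_lit 3209) (nat_lit 14242959524133701664)) (.cons (.rf (nat_lit 3208) (nat_lit 14208022404722295872)) (.cons (.br (nat_lit 2) (nat_lit 0) (.cons (.rf (nat_lit 3188) (nat_lit 14242959524133701664)) (.cons (.rf (nat_lit 2274) (nat_lit 14242959455481333792)) (.cons (.rf (nat_lit 3196) (nat_lit 424368244768)) (.cons (.rf (nat_lit 3090) (nat_lit 5885226501296862210)) .nil))))) (.cons (.br (nat_lit 2) (nat_lit 0) (.cons (.rf (nat_lit 3090) (nat_lit 14208022404722308098)) (.cons (.rf (nat_lit 3209) (nat_lit 14242959524133701664)) (.cons (.rf (nat_lit 3208) (nat_lit 14208022404722295872)) (.cons (.rf (nat_lit 3090) (nat_lit 5885226501296862210)) .nil))))) .nil)))))),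
 (.br (nat_lit 5) (nat_lit 0) (.cons (.ev (nat_lit 79229371458602754989977829633) (nat_lit 1)) (.cons (.br (nat_lit 11) (nat_lit 0) (.cons (.ev (nat_lit 20361948460101575721238694723584) (nat_lit 1)) .nil)) .nil))),
 (.br (nat_lit 12) (nat_lit 0) (.cons (.rf (nat_lit 3211) (nat_lit 493858305440582043680)) (.cons (.rf (nat_lit 3211) (nat_lit 493823368321170637888)) (.cons (.rf (nat_lit 3188) (nat_lit 6028215822752789505)) .nil)))),
 (.br (nat_lit 12) (nat_lit 0) (.cons (.rf (nat_lit 3211) (nat_lit 493858305440582043680)) (.cons (.kr (nat_lit 158456325028528675191382867968) (nat_lit 4740813508418331475968) (nat_lit 4) (nat_lit 0)) (.cons (.rf (nat_lit 3188) (nat_lit 6028215822752789505)) .nil)))),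
 (.br (nat_lit 2) (nat_lit 0) (.cons (.rf (nat_lit 3090) (nat_lit 5885226501296849922)) (.cons (.rf (nat_lit 3188) (nat_lit 14242959524133701664)) (.cons (.rf (nat_lit 3210) (nat_lit 14208022404722295872)) (.cons (.rf (nat_lit 3208) (nat_lit 14208022404722295872)) (.cons (.rf (nat_lit 3090) (nat_lit 5885226501296862210)) .nil)))))),
 (.br (nat_lit 2) (nat_lit 0) (.cons (.kr (nat_lit 4722366764344621924354) (nat_lit 18446744078004519424) (nat_lit 0) (nat_lit 2)) (.cons (.rf (nat_lit 3090) (nat_lit 14208022404722308098)) (.cons (.br (nat_lit 1) (nat_lit 0) (.cons (.rf (nat_lit 3188) (nat_lit 14208022404722295872)) (.cons (.rf (nat_lit 3208) (nat_lit 14242959524133701664)) (.cons (.rf (nat_lit 3214) (nat_lit 14208022404722295872)) (.cons (.br (nat_lit 12) (nat_lit 0) (.cons (.rf (nat_lit 3212) (nat_lit 493858305440582043680)) (.cons (.rf (nat_lit 3213) (nat_lit 493858305440582043680)) (.cons (.rf (nat_lit 3213) (nat_lit 493823368321170637888)) (.cons (.rf (nat_lit 3188) (nat_lit 6028215822752789505))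 .nil))))) .nil))))) (.cons (.rf (nat_lit 3208) (nat_lit 14208022404722295872)) (.cons (.rf (nat_lit 3090) (nat_lit 5885226501296862210)) .nil)))))),
 (.br (nat_lit 1) (nat_lit 0) (.cons (.kr (nat_lit 4722366764344621924354) (nat_lit 18446744078004519424) (nat_lit 0) (nat_lit 2)) (.cons (.rf (nat_lit 3188) (nat_lit 14208022404722295872)) (.cons (.rf (nat_lit 3208) (nat_lit 14242959524133701664)) (.cons (.rf (nat_lit 3214) (nat_lit 14208022404722295872)) (.cons (.br (nat_lit 2) (nat_lit 0) (.cons (.rf (nat_lit 3188) (nat_lit 14242959524133701664)) (.cons (.rf (nat_lit 3215) (nat_lit 493823368321170637888)) (.cons (.rf (nat_lit 3208) (nat_lit 14208022404722295872)) (.cons (.rf (nat_lit 3214) (nat_lit 14242959524133701664)) (.cons (.rf (nat_lit 3215) (nat_lit 493858305440582043680)) .nil)))))) .nil)))))),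
 (.br (nat_lit 1) (nat_lit 0) (.cons (.rf (nat_lit 3102) (nat_lit 14242959524133701664)) (.cons (.rf (nat_lit 3188) (nat_lit 14208022404722295872)) (.cons (.rf (nat_lit 3208) (nat_lit 14242959524133701664)) (.cons (.rf (nat_lit 3216) (nat_lit 14242959524133701664)) (.cons (.rf (nat_lit 3214) (nat_lit 14208022404722295872)) (.cons (.br (nat_lit 1) (nat_lit 0) (.cons (.rf (nat_lit 1943) (nat_lit 428033)) (.cons (.rf (nat_lit 3090) (nat_lit 14242959524133712897)) (.cons (.rf (nat_lit 3208) (nat_lit 14242959524133701664)) (.cons (.rf (nat_lit 3216) (nat_lit 14242959524133701664)) (.cons (.rf (nat_lit 3090) (nat_lit 6028215822752789505)) .nil)))))) .nil))))))),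
 (.br (nat_lit 11) (nat_lit 0) (.cons (.ev (nat_lit 79537652246452166631442415873) (nat_lit 1)) (.cons (.rf (nat_lit 2340) (nat_lit 463317826111520)) .nil))),
 (.br (nat_lit 12) (nat_lit 0) (.cons (.rf (nat_lit 2334) (nat_lit 463251254118432)) (.cons (.ev (nat_lit 79229371458602753894761103616) (nat_lit 1)) .nil))),
 (.br (nat_lit 5) (nat_lit 0) (.cons (.ev (nat_lit 79229371458602754989977829633) (nat_lit 1)) (.cons (.rf (nat_lit 2367) (nat_lit 469676491638816)) .nil))),
 (.br (nat_lit 1) (nat_lit 0) (.cons (.br (nat_lit 5) (nat_lit 0) (.cons (.rf (nat_lit 3218) (nat_lit 14242959524133701664)) (.cons (.rf (nat_lit 3218) (nat_lit 14208022404722296864)) (.cons (.br (nat_lit 10) (nat_lit 0) (.cons (.ev (nat_lit 475990367698115492191924389378) (nat_lit 3)) (.cons (.rf (nat_lit 2340) (nat_lit 463285580302368)) .nil))) (.cons (.br (nat_lit 13) (nat_lit 0) (.cons (.rf (nat_lit 3219) (nat_lit 493858305440582043680)) (.cons (.rf (nat_lit 3219) (nat_lit 493823368321170638880)) (.cons (.br (nat_lit 13) (nat_lit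 0) (.cons (.ev (nat_lit 79229371458602753894761103616) (nat_lit 1)) (.cons (.ev (nat_lit 79537647542532708210971771136) (nat_lit 1)) .nil))) .nil)))) .nil))))) (.cons (.br (nat_lit 5) (nat_lit 0) (.cons (.br (nat_lit 11) (nat_lit 0) (.cons (.ev (nat_lit 79537652246452166631442415873) (nat_lit 1)) (.cons (.rf (nat_lit 2314) (nat_lit 463317826111520)) .nil))) (.cons (.br (nat_lit 7) (nat_lit 0) (.cons (.ev (nat_lit 79229376162522775265185169665) (nat_lit 1)) (.cons (.rf (nat_lit 2341) (nat_lit 463318866298912)) .nil))) (.cons (.br (nat_lit 7) (nat_lit 0) (.cons (.ev (nat_lit 79230580421387916460121260291) (nat_lit 2)) (.cons (.rf (nat_lit 2341) (nat_lit 463285580302368)) .nil))) (.cons (.br (nat_lit 7) (nat_lit 0) (.cons (.rf (nat_lit 2367) (nat_lit 470773889337376)) (.cons (.rf (nat_lit 2367) (nat_lit 469674411264032)) (.cons (.br (nat_lit 11) (nat_lit 0) (.cons (.rf (nat_lit 2313) (nat_lit 463317826111520)) (.cons (.br (nat_lit 12) (nat_lit 0) (.cons (.zr (nat_lit 4740813511716866359299) (nat_lit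 79537647524157740269191627008) (nat_lit 5) (nat_lit 1)) .nil)) .nil))) .nil)))) .nil))))) (.cons (.br (nat_lit 5) (nat_lit 0) (.cons (.br (nat_lit 10) (nat_lit 0) (.cons (.ev (nat_lit 79537652246452448110714028288) (nat_lit 1)) (.cons (.rf (nat_lit 2314) (nat_lit 463318866298912)) .nil))) (.cons (.br (nat_lit 7) (nat_lit 0) (.cons (.ev (nat_lit 79537652246452448110714028288) (nat_lit 1)) (.cons (.rf (nat_lit 2341) (nat_lit 463317826111520)) .nil))) (.cons (.ev (nat_lit 79847132589247824014505869570) (nat_lit 2)) (.cons (.br (nat_lit 7) (nat_lit 0) (.cons (.rf (nat_lit 2367) (nat_lit 470774929524768)) (.cons (.rf (nat_lit 2367) (nat_lit 468575973378080)) (.cons (.br (nat_lit 10) (nat_lit 0) (.cons (.rf (nat_lit 2313) (nat_lit 463318866298912)) (.cons (.br (nat_lit 12) (nat_lit 0) (.cons (.ev (nat_lit 158767019001279579501455475200) (nat_lit 2)) .nil)) .nil))) .nil)))) .nil))))) (.cons (.br (nat_lit 7) (nat_lit 0) (.cons (.br (nat_lit 10) (nat_lit 0) (.cons (.ev (nat_lit 1208925891954801995939841)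 (nat_lit 1)) (.cons (.rf (nat_lit 2314) (nat_lit 463285580302368)) .nil))) (.cons (.rf (nat_lit 3220) (nat_lit 14242959524133701664)) (.cons (.ev (nat_lit 79537647542532426740290093313) (nat_lit 1)) (.cons (.br (nat_lit 5) (nat_lit 0) (.cons (.rf (nat_lit 2341) (nat_lit 463283499927584)) (.cons (.rf (nat_lit 2341) (nat_lit 463250213931040)) (.cons (.br (nat_lit 10) (nat_lit 0) (.cons (.rf (nat_lit 2313) (nat_lit 463285580302368)) (.cons (.br (nat_lit 11) (nat_lit 0) (.cons (.ev (nat_lit 20361637770906820046078204707073) (nat_lit 1)) .nil)) .nil))) .nil)))) .nil))))) (.cons (.rf (nat_lit 3090) (nat_lit 14242959524133712897)) .nil)))))),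
 (.br (nat_lit 5) (nat_lit 0) (.cons (.br (nat_lit 5) (nat_lit 0) (.cons (.ev (nat_lit 79229371458602754989977829633) (nat_lit 1)) (.cons (.rf (nat_lit 3142) (nat_lit 468576883542048)) .nil))) (.cons (.br (nat_lit 5) (nat_lit 0) (.cons (.ev (nat_lit 79229371458602754989977829633) (nat_lit 1)) (.cons (.rf (nat_lit 3142) (nat_lit 468576883542048)) .nil))) (.cons (.rf (nat_lit 3142) (nat_lit 468576883542048)) .nil)))),
 (.br (nat_lit 5) (nat_lit 0) (.cons (.br (nat_lit 13) (nat_lit 0) (.cons (.rf (nat_lit 3188) (nat_lit 14242959524133712897)) (.cons (.ev (nat_lit 79537647542532708210971771136) (nat_lit 1)) .nil))) (.cons (.ev (nat_lit 79229371458602753894761103616) (nat_lit 1)) (.cons (.rf (nat_lit 3188) (nat_lit 14242959524133712897)) .nil)))),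
 (.br (nat_lit 1) (nat_lit 0) (.cons (.rf (nat_lit 3221) (nat_lit 14242959524133701664)) (.cons (.rf (nat_lit 3222) (nat_lit 14242959524133701664)) (.cons (.rf (nat_lit 3222) (nat_lit 14208022404722296864)) (.cons (.rf (nat_lit 3143) (nat_lit 14026786742221244448)) (.cons (.br (nat_lit 13) (nat_lit 0) (.cons (.rf (nat_lit 3188) (nat_lit 14242959524133712897)) (.cons (.rf (nat_lit 3223) (nat_lit 493858305440582043680)) (.cons (.rf (nat_lit 3223) (nat_lit 493823368321170638880)) (.cons (.br (nat_lit 5) (nat_lit 0) (.cons (.ev (nat_lit 79229371458602753894761103616) (nat_lit 1)) (.cons (.ev (nat_lit 79537647542532708210971771136) (nat_lit 1)) (.cons (.rf (nat_lit 3188) (nat_lit 14242959524133712897)) .nil)))) .nil))))) .nil)))))),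
 (.br (nat_lit 1) (nat_lit 0) (.cons (.rf (nat_lit 3221) (nat_lit 14242959524133701664)) (.cons (.rf (nat_lit 3222) (nat_lit 14242959524133701664)) (.cons (.br (nat_lit 7) (nat_lit 0) (.cons (.br (nat_lit 12) (nat_lit 0) (.cons (.ev (nat_lit 79537652246452166631442415873) (nat_lit 1)) (.cons (.rf (nat_lit 2317) (nat_lit 463283499927584)) .nil))) (.cons (.kr (nat_lit 4740813508418331475970) (nat_lit 158456325028528675191382868480) (nat_lit 0) (nat_lit 2)) (.cons (.rf (nat_lit 2671) (nat_lit 14825132228053024)) .nil)))) (.cons (.rf (nat_lit 3149) (nat_lit 438331552868436000)) (.cons (.br (nat_lit 7) (nat_lit 0) (.cons (.br (nat_lit 5) (nat_lit 0) (.cons (.ev (nat_lit 1208925891954801995939841) (nat_lit 1)) (.cons (.rf (nat_lit 2343) (nat_lit 463285580302368)) (.cons (.br (nat_lit 12) (nat_lit 0) (.cons (.ev (nat_lit 79229371458603036469249442048) (nat_lit 1)) (.cons (.ev (nat_lit 79230594533147414335789728001) (nat_lit 2)) .nil))) .nil)))) (.cons (.rf (nat_lit 2330) (nat_lit 14823998427858976)) (.cons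 (.rf (nat_lit 2330) (nat_lit 14824032754042912)) (.cons (.br (nat_lit 11) (nat_lit 0) (.cons (.br (nat_lit 5) (nat_lit 0) (.cons (.ev (nat_lit 80157826599181013079457661185) (nat_lit 3)) (.cons (.rf (nat_lit 3199) (nat_lit 493823368321170637888)) .nil))) (.cons (.rf (nat_lit 2336) (nat_lit 463251254118432)) (.cons (.br (nat_lit 12) (nat_lit 0) (.cons (.br (nat_lit 5) (nat_lit 0) (.cons (.zr (nat_lit 4740813230241889714177) (nat_lit 79537647524158021735578337536) (nat_lit 5) (nat_lit 12)) .nil)) (.cons (.ev (nat_lit 20282720297605758127718860324864) (nat_lit 1)) .nil))) .nil)))) .nil))))) .nil)))))),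
 (.br (nat_lit 1) (nat_lit 0) (.cons (.rf (nat_lit 3221) (nat_lit 14242959524133701664)) (.cons (.rf (nat_lit 3222) (nat_lit 14208022404722296864)) (.cons (.rf (nat_lit 3225) (nat_lit 14242959524133701664)) (.cons (.br (nat_lit 7) (nat_lit 0) (.cons (.br (nat_lit 10) (nat_lit 0) (.cons (.zr (nat_lit 621387871426037882443399680) (nat_lit 237684487561241445708496633859) (nat_lit 5) (nat_lit 0)) (.cons (.rf (nat_lit 2317) (nat_lit 463318866298912)) .nil))) (.cons (.rf (nat_lit 2743) (nat_lit 11413174323232)) (.cons (.rf (nat_lit 2671) (nat_lit 14826163053758496)) .nil)))) (.cons (.br (nat_lit 12) (nat_lit 0) (.cons (.br (nat_lit 7) (nat_lit 0) (.cons (.rf (nat_lit 2343) (nat_lit 463285580302368)) (.cons (.rf (nat_lit 2330) (nat_lit 14825063579748384)) (.cons (.br (nat_lit 13) (nat_lit 0) (.cons (.br (nat_lit 10) (nat_lit 0) (.cons (.ev (nat_lit 158767019001280142442819092994) (nat_lit 2)) .nil)) (.cons (.br (nat_lit 5) (nat_lit 0) (.cons (.ev (nat_lit 158767019001280142442819092994) (nat_lit 2)) .nil))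 .nil))) .nil)))) (.cons (.rf (nat_lit 2330) (nat_lit 14825132232116256)) (.cons (.rf (nat_lit 2336) (nat_lit 463285580302368)) (.cons (.rf (nat_lit 3188) (nat_lit 6028215822752789505)) .nil))))) .nil)))))),
 (.br (nat_lit 5) (nat_lit 0) (.cons (.rf (nat_lit 3188) (nat_lit 14242959524133701664)) (.cons (.ev (nat_lit 310693935857135791483387906) (nat_lit 2)) (.cons (.br (nat_lit 11) (nat_lit 0) (.cons (.ev (nat_lit 79537652246452448110714028033) (nat_lit 1)) (.cons (.br (nat_lit 12) (nat_lit 0) (.cons (.ev (nat_lit 79537647542532708210971771136) (nat_lit 1)) (.cons (.ev (nat_lit 79537647542532708210971770881) (nat_lit 1)) .nil))) .nil))) (.cons (.rf (nat_lit 3188) (nat_lit 14242959524133712897)) .nil)))))]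

theorem c118 : chkAll C T R L118 (nat_lit 3205) = true := by decide +kernel

theorem l118 : (nat_lit 3205) + L118.length = (nat_lit 3228) := by decide +kernel

/-- part of the certificates -/
def L119 : List Prf := [(.br (nat_lit 5) (nat_lit 0) (.cons (.ev (nat_lit 1208925891954801995939841) (nat_lit 1)) (.cons (.br (nat_lit 13) (nat_lit 0) (.cons (.br (nat_lit 12) (nat_lit 0) (.cons (.ev (nat_lit 79537647542532708210971770881) (nat_lit 1)) .nil)) (.cons (.rf (nat_lit 2547) (nat_lit 493858305371929675808)) .nil))) (.cons (.br (nat_lit 13) (nat_lit 0) (.cons (.rf (nat_lit 3090) (nat_lit 13951351549195552813)) (.cons (.ev (nat_lit 202824098459183523237789608184320) (nat_lit 4)) .nil))) .nil)))),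
 (.br (nat_lit 5) (nat_lit 0) (.cons (.ev (nat_lit 1208925891954801995939841) (nat_lit 1)) (.cons (.br (nat_lit 13) (nat_lit 0) (.cons (.br (nat_lit 12) (nat_lit 0) (.cons (.ev (nat_lit 79229371458602753894761103361) (nat_lit 1)) .nil)) (.cons (.br (nat_lit 7) (nat_lit 0) (.cons (.ev (nat_lit 79229371458602753894761103361) (nat_lit 1)) .nil)) .nil))) (.cons (.br (nat_lit 13) (nat_lit 0) (.cons (.rf (nat_lit 3090) (nat_lit 14208022404722296877)) (.cons (.ev (nat_lit 40567297510195728098564409393664) (nat_lit 4)) .nil))) .nil)))),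
 (.br (nat_lit 5) (nat_lit 0) (.cons (.rf (nat_lit 3228) (nat_lit 493858305440582043680)) (.cons (.rf (nat_lit 3229) (nat_lit 493858305440582043680)) (.cons (.br (nat_lit 13) (nat_lit 0) (.cons (.rf (nat_lit 3090) (nat_lit 14208022404722296877)) (.cons (.rf (nat_lit 3090) (nat_lit 13951351549195552813)) (.cons (.br (nat_lit 7) (nat_lit 0) (.cons (.ev (nat_lit 41201122810162266586127177875968) (nat_lit 4)) .nil)) .nil)))) .nil)))),
 (.br (nat_lit 12) (nat_lit 0) (.cons (.br (nat_lit 5) (nat_lit 0) (.cons (.zr (nat_lit 1209073394975693263077379) (nat_lit 318150594818997443907756752896) (nat_lit 15) (nat_lit 10)) (.cons (.br (nat_lit 10) (nat_lit 0) (.cons (.ev (nat_lit 20361637770906820046078204707073) (nat_lit 1)) .nil)) .nil))) (.cons (.br (nat_lit 7) (nat_lit 0) (.cons (.zr (nat_lit 79229390329549883731381059587) (nat_lit 1237940076467103196516450304) (nat_lit 15) (nat_lit 3)) (.cons (.rf (nat_lit 2832) (nat_lit 15398169077104216096)) .nil))) (.cons (.ev (nat_lit 79537652246452447006907498496)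 (nat_lit 1)) .nil)))),
 (.br (nat_lit 1) (nat_lit 0) (.cons (.rf (nat_lit 3090) (nat_lit 14242959524133712897)) (.cons (.br (nat_lit 5) (nat_lit 0) (.cons (.rf (nat_lit 3227) (nat_lit 493858305440582043680)) (.cons (.rf (nat_lit 3227) (nat_lit 493823368321170638880)) (.cons (.br (nat_lit 5) (nat_lit 0) (.cons (.rf (nat_lit 3227) (nat_lit 493858305440582043680)) (.cons (.rf (nat_lit 3227) (nat_lit 493823368321170638880)) (.cons (.rf (nat_lit 3188) (nat_lit 14242959524133712897)) .nil)))) (.cons (.rf (nat_lit 3188) (nat_lit 14242959524133712897)) .nil))))) (.cons (.br (nat_lit 5) (nat_lit 0) (.cons (.rf (nat_lit 3228) (nat_lit 493858305440582043680)) (.cons (.rf (nat_lit 3229) (nat_lit 493858305440582043680)) (.cons (.rf (nat_lit 3230) (nat_lit 493858305440582043680)) (.cons (.br (nat_lit 5) (nat_lit 0) (.cons (.rf (nat_lit 3228) (nat_lit 493858305440582043680)) (.cons (.rf (nat_lit 3229) (nat_lit 493858305440582043680)) (.cons (.rf (nat_lit 3230) (nat_lit 493858305440582043680)) .nil)))) .nil)))))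 (.cons (.br (nat_lit 12) (nat_lit 0) (.cons (.rf (nat_lit 3231) (nat_lit 493858305440582043680)) (.cons (.br (nat_lit 12) (nat_lit 0) (.cons (.rf (nat_lit 3231) (nat_lit 493858305440582043680)) (.cons (.kr (nat_lit 18446744073709551616) (nat_lit 79228162514264337593543950336) (nat_lit 8) (nat_lit 0)) (.cons (.rf (nat_lit 3188) (nat_lit 6028215822752789505)) .nil)))) (.cons (.br (nat_lit 12) (nat_lit 0) (.cons (.rf (nat_lit 3231) (nat_lit 493858305440582043680)) (.cons (.kr (nat_lit 18446744073709551616) (nat_lit 79228162514264337593543950336) (nat_lit 8) (nat_lit 0)) (.cons (.rf (nat_lit 3188) (nat_lit 6028215822752789505)) .nil)))) (.cons (.rf (nat_lit 3188) (nat_lit 6028215822752789505)) .nil))))) (.cons (.rf (nat_lit 3090) (nat_lit 6028215822752789505)) .nil)))))),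
 (.br (nat_lit 1) (nat_lit 0) (.cons (.ev (nat_lit 20361637766166007100614121619713) (nat_lit 1)) .nil)),
 (.br (nat_lit 1) (nat_lit 0) (.cons (.rf (nat_lit 2788) (nat_lit 15397992197299341344)) (.cons (.rf (nat_lit 2395) (nat_lit 15182031619990063136)) (.cons (.br (nat_lit 5) (nat_lit 0) (.cons (.ev (nat_lit 79537647542532426740290093056) (nat_lit 1)) .nil)) .nil)))),
 (.br (nat_lit 1) (nat_lit 0) (.cons (.rf (nat_lit 2788) (nat_lit 15361963434640115744)) (.cons (.rf (nat_lit 2395) (nat_lit 15182031619990063136)) (.cons (.rf (nat_lit 2817) (nat_lit 493823368389823006752)) .nil)))),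
 (.br (nat_lit 13) (nat_lit 0) (.cons (.rf (nat_lit 3090) (nat_lit 14208022404722296877)) (.cons (.br (nat_lit 11) (nat_lit 0) (.cons (.rf (nat_lit 2400) (nat_lit 1346831488400032162)) (.cons (.rf (nat_lit 2751) (nat_lit 48487205274018)) (.cons (.br (nat_lit 1) (nat_lit 0) (.cons (.rf (nat_lit 3233) (nat_lit 493858305440582043680)) (.cons (.br (nat_lit 1) (nat_lit 0) (.cons (.ev (nat_lit 20361637770906820046078204707073) (nat_lit 1)) .nil)) .nil))) .nil)))) (.cons (.br (nat_lit 10) (nat_lit 0) (.cons (.rf (nat_lit 2400) (nat_lit 1346832586804396450)) (.cons (.rf (nat_lit 2751) (nat_lit 48487206289826)) (.cons (.br (nat_lit 1) (nat_lit 0) (.cons (.rf (nat_lit 3233) (nat_lit 493823402543469922336)) (.cons (.br (nat_lit 1) (nat_lit 0) (.cons (.ev (nat_lit 20361637770906820046078204707073) (nat_lit 1)) .nil)) .nil))) .nil)))) (.cons (.br (nat_lit 1) (nat_lit 0) (.cons (.br (nat_lit 1) (nat_lit 0) (.cons (.rf (nat_lit 2788) (nat_lit 15397992197299341344)) (.cons (.rf (nat_lit 2788) (nat_lit 15361963434640115744))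 (.cons (.kr (nat_lit 158456325028528956666359578624) (nat_lit 4740813229142378020864) (nat_lit 4) (nat_lit 0)) .nil)))) (.cons (.rf (nat_lit 3234) (nat_lit 493858305440582043680)) (.cons (.rf (nat_lit 3235) (nat_lit 493858305440582043680)) (.cons (.br (nat_lit 1) (nat_lit 0) (.cons (.kr (nat_lit 158456325028528956666359578624) (nat_lit 4740813229142378020864) (nat_lit 4) (nat_lit 0)) (.cons (.rf (nat_lit 3234) (nat_lit 493858305440582043680)) (.cons (.rf (nat_lit 2817) (nat_lit 493823368389823006752)) .nil)))) .nil))))) .nil))))),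
 (.br (nat_lit 6) (nat_lit 0) (.cons (.ev (nat_lit 79538861190790581828836196608) (nat_lit 1)) .nil)),
 (.br (nat_lit 12) (nat_lit 0) (.cons (.rf (nat_lit 3237) (nat_lit 15433072045018155040)) (.cons (.br (nat_lit 1) (nat_lit 0) (.cons (.ev (nat_lit 20361948464842388948182049554688) (nat_lit 1)) .nil)) .nil))),
 (.br (nat_lit 1) (nat_lit 0) (.cons (.rf (nat_lit 3238) (nat_lit 493858305440582043680)) (.cons (.br (nat_lit 5) (nat_lit 0) (.cons (.ev (nat_lit 79537647542532426740290093056) (nat_lit 1)) .nil)) .nil))),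
 (.br (nat_lit 5) (nat_lit 0) (.cons (.rf (nat_lit 3237) (nat_lit 1593263038580195746)) (.cons (.br (nat_lit 1) (nat_lit 0) (.cons (.ev (nat_lit 79537647542532426740290093056) (nat_lit 1)) .nil)) (.cons (.ev (nat_lit 79229371458602753894761103361) (nat_lit 1)) .nil)))),
 (.br (nat_lit 1) (nat_lit 0) (.cons (.rf (nat_lit 3236) (nat_lit 50984417234562384290)) (.cons (.rf (nat_lit 3240) (nat_lit 493858305440582043680)) (.cons (.br (nat_lit 5) (nat_lit 0) (.cons (.ev (nat_lit 79229371458602753894761103361) (nat_lit 1)) .nil)) .nil)))),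
 (.br (nat_lit 13) (nat_lit 0) (.cons (.rf (nat_lit 3090) (nat_lit 14090929087143282733)) (.cons (.rf (nat_lit 3236) (nat_lit 493858305440582043680)) (.cons (.br (nat_lit 1) (nat_lit 0) (.cons (.rf (nat_lit 3238) (nat_lit 493858305440582043680)) (.cons (.rf (nat_lit 3239) (nat_lit 493858305440582043680)) (.cons (.br (nat_lit 1) (nat_lit 0) (.cons (.rf (nat_lit 3237) (nat_lit 15433072045018155040)) (.cons (.rf (nat_lit 3239) (nat_lit 493858305440582043680)) .nil))) .nil)))) (.cons (.br (nat_lit 1) (nat_lit 0) (.cons (.br (nat_lit 1) (nat_lit 0) (.cons (.rf (nat_lit 3237) (nat_lit 1593263038580195746)) (.cons (.rf (nat_lit 3236) (nat_lit 50984417234562384290)) (.cons (.kr (nat_lit 158456325028528956666359578624) (nat_lit 4740813229142378020864) (nat_lit 4) (nat_lit 0)) .nil)))) (.cons (.rf (nat_lit 3240) (nat_lit 493858305440582043680)) (.cons (.rf (nat_lit 3241) (nat_lit 493858305440582043680)) (.cons (.br (nat_lit 1) (nat_lit 0) (.cons (.kr (nat_lit 158456325028528956666359578624) (nat_lit 4740813229142378020864)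 (nat_lit 4) (nat_lit 0)) (.cons (.rf (nat_lit 3240) (nat_lit 493858305440582043680)) (.cons (.rf (nat_lit 3241) (nat_lit 493858305440582043680)) .nil)))) .nil))))) .nil))))),
 (.br (nat_lit 1) (nat_lit 0) (.cons (.rf (nat_lit 3236) (nat_lit 50844839696614654370)) (.cons (.rf (nat_lit 3242) (nat_lit 493823368321170638880)) (.cons (.br (nat_lit 5) (nat_lit 0) (.cons (.ev (nat_lit 79229371458603035365442912256) (nat_lit 1)) .nil)) .nil)))),
 (.br (nat_lit 13) (nat_lit 0) (.cons (.rf (nat_lit 3090) (nat_lit 13951351549195552813)) (.cons (.rf (nat_lit 3236) (nat_lit 493858305440582043680)) (.cons (.rf (nat_lit 3242) (nat_lit 493858305440582043680)) (.cons (.br (nat_lit 1) (nat_lit 0) (.cons (.br (nat_lit 1) (nat_lit 0) (.cons (.rf (nat_lit 3237) (nat_lit 1588901240519360930)) (.cons (.rf (nat_lit 3236) (nat_lit 50844839696614654370)) (.cons (.kr (nat_lit 158456325028528956666359578624) (nat_lit 4740813229142378020864) (nat_lit 4) (nat_lit 0)) .nil)))) (.cons (.rf (nat_lit 3242) (nat_lit 493823368321170638880))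 (.cons (.rf (nat_lit 3243) (nat_lit 493858305440582043680)) (.cons (.br (nat_lit 1) (nat_lit 0) (.cons (.kr (nat_lit 158456325028528956666359578624) (nat_lit 4740813229142378020864) (nat_lit 4) (nat_lit 0)) (.cons (.rf (nat_lit 3242) (nat_lit 493823368321170638880)) (.cons (.rf (nat_lit 3243) (nat_lit 493858305440582043680)) .nil)))) .nil))))) .nil))))),
 (.br (nat_lit 13) (nat_lit 0) (.cons (.rf (nat_lit 3232) (nat_lit 493858305440582043680)) (.cons (.rf (nat_lit 3236) (nat_lit 493858305440582043680)) (.cons (.rf (nat_lit 3242) (nat_lit 493858305440582043680)) (.cons (.rf (nat_lit 3244) (nat_lit 493858305440582043680)) (.cons (.br (nat_lit 13) (nat_lit 0) (.cons (.rf (nat_lit 3232) (nat_lit 493858305440582043680)) (.cons (.rf (nat_lit 3236) (nat_lit 493858305440582043680)) (.cons (.rf (nat_lit 3242) (nat_lit 493858305440582043680)) (.cons (.rf (nat_lit 3244) (nat_lit 493858305440582043680)) .nil))))) .nil)))))),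
 (.br (nat_lit 5) (nat_lit 0) (.cons (.rf (nat_lit 2400) (nat_lit 15182031619990063136)) (.cons (.br (nat_lit 1) (nat_lit 0) (.cons (.rf (nat_lit 2400) (nat_lit 15182031619990063136)) (.cons (.ev (nat_lit 79229371458602753894761103361) (nat_lit 1)) (.cons (.rf (nat_lit 3232) (nat_lit 493858305440582043680)) .nil)))) (.cons (.rf (nat_lit 2400) (nat_lit 1346831488400032162)) .nil)))),
 (.br (nat_lit 1) (nat_lit 0) (.cons (.rf (nat_lit 3245) (nat_lit 50984417234562384290)) (.cons (.rf (nat_lit 3246) (nat_lit 493858305440582043680)) (.cons (.br (nat_lit 1) (nat_lit 0) (.cons (.rf (nat_lit 3245) (nat_lit 50984417234562384290)) (.cons (.rf (nat_lit 3246) (nat_lit 493858305440582043680)) (.cons (.rf (nat_lit 3090) (nat_lit 6028215822752789505)) .nil)))) (.cons (.rf (nat_lit 3232) (nat_lit 493858305440582043680)) .nil))))),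
 (.br (nat_lit 13) (nat_lit 0) (.cons (.rf (nat_lit 3232) (nat_lit 493858305440582043680)) (.cons (.rf (nat_lit 3245) (nat_lit 493858305440582043680)) (.cons (.rf (nat_lit 3247) (nat_lit 493858305440582043680)) (.cons (.br (nat_lit 1) (nat_lit 0) (.cons (.rf (nat_lit 3245) (nat_lit 50844839696614654370)) (.cons (.rf (nat_lit 2553) (nat_lit 493858305371929675808)) (.cons (.br (nat_lit 5) (nat_lit 0) (.cons (.rf (nat_lit 3245) (nat_lit 50844839696614654370)) (.cons (.ev (nat_lit 79229371458602753894761103361) (nat_lit 1)) .nil))) .nil)))) .nil))))),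
 (.br (nat_lit 13) (nat_lit 0) (.cons (.rf (nat_lit 3232) (nat_lit 493858305440582043680)) (.cons (.rf (nat_lit 3245) (nat_lit 493858305440582043680)) (.cons (.rf (nat_lit 3247) (nat_lit 493858305440582043680)) (.cons (.rf (nat_lit 3248) (nat_lit 493858305440582043680)) (.cons (.br (nat_lit 13) (nat_lit 0) (.cons (.rf (nat_lit 3090) (nat_lit 5885226501296850989)) (.cons (.rf (nat_lit 3245) (nat_lit 493858305440582043680)) (.cons (.rf (nat_lit 3247) (nat_lit 493858305440582043680)) (.cons (.rf (nat_lit 3248) (nat_lit 493858305440582043680)) .nil))))) .nil)))))),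
 (.br (nat_lit 1) (nat_lit 0) (.cons (.rf (nat_lit 3245) (nat_lit 50984417234562384290)) (.cons (.rf (nat_lit 3249) (nat_lit 50984417234562384290)) (.cons (.br (nat_lit 5) (nat_lit 0) (.cons (.br (nat_lit 13) (nat_lit 0) (.cons (.rf (nat_lit 3245) (nat_lit 493858305440582043680)) (.cons (.ev (nat_lit 79537647542532426740290093056) (nat_lit 1)) .nil))) (.cons (.ev (nat_lit 79229371458603035365442912256) (nat_lit 1)) (.cons (.rf (nat_lit 3245) (nat_lit 493858305440582043680)) .nil)))) (.cons (.rf (nat_lit 3232) (nat_lit 493858305440582043680)) .nil))))),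
 (.br (nat_lit 1) (nat_lit 0) (.cons (.rf (nat_lit 3245) (nat_lit 50984417234562384290)) (.cons (.rf (nat_lit 3250) (nat_lit 493858305440582043680)) (.cons (.rf (nat_lit 3249) (nat_lit 50984417234562384290)) (.cons (.br (nat_lit 1) (nat_lit 0) (.cons (.rf (nat_lit 3245) (nat_lit 50984417234562384290)) (.cons (.rf (nat_lit 3250) (nat_lit 493858305440582043680)) (.cons (.rf (nat_lit 3249) (nat_lit 50984417234562384290)) (.cons (.rf (nat_lit 3090) (nat_lit 6028215822752789505)) .nil))))) (.cons (.rf (nat_lit 3232) (nat_lit 493858305440582043680)) .nil)))))),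
 (.br (nat_lit 1) (nat_lit 0) (.cons (.rf (nat_lit 3245) (nat_lit 50844839696614654370)) (.cons (.rf (nat_lit 3251) (nat_lit 493823368321170638880)) (.cons (.rf (nat_lit 3249) (nat_lit 50844839696614654370)) (.cons (.br (nat_lit 1) (nat_lit 0) (.cons (.rf (nat_lit 3245) (nat_lit 50844839696614654370)) (.cons (.rf (nat_lit 3251) (nat_lit 493823368321170638880)) (.cons (.rf (nat_lit 3249) (nat_lit 50844839696614654370)) (.cons (.rf (nat_lit 3090) (nat_lit 6028215822752789505)) .nil))))) (.cons (.rf (nat_lit 3232) (nat_lit 493858305440582043680)) .nil)))))),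
 (.br (nat_lit 2) (nat_lit 0) (.cons (.kr (nat_lit 281474976710657) (nat_lit 4295032832) (nat_lit 0) (nat_lit 1)) (.cons (.rf (nat_lit 3188) (nat_lit 14242959524133701664)) (.cons (.rf (nat_lit 3217) (nat_lit 14242959524133701664)) (.cons (.br (nat_lit 1) (nat_lit 0) (.cons (.rf (nat_lit 3221) (nat_lit 14242959524133701664)) (.cons (.rf (nat_lit 3224) (nat_lit 14242959524133701664)) (.cons (.rf (nat_lit 3225) (nat_lit 14242959524133701664)) (.cons (.rf (nat_lit 3226) (nat_lit 14242959524133701664)) (.cons (.br (nat_lit 1) (nat_lit 0) (.cons (.rf (nat_lit 3221) (nat_lit 14242959524133701664)) (.cons (.rf (nat_lit 3143) (nat_lit 14026786742221244448)) (.cons (.rf (nat_lit 3149) (nat_lit 438331552868436000)) (.cons (.rf (nat_lit 3226) (nat_lit 14242959524133701664)) (.cons (.rf (nat_lit 3090) (nat_lit 6028215822752789505)) .nil)))))) (.cons (.br (nat_lit 1) (nat_lit 0) (.cons (.rf (nat_lit 3090) (nat_lit 14242959524133712897)) (.cons (.rf (nat_lit 3224) (nat_lit 14242959524133701664)) (.cons (.rf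 (nat_lit 3225) (nat_lit 14242959524133701664)) (.cons (.rf (nat_lit 3226) (nat_lit 14242959524133701664)) (.cons (.rf (nat_lit 3090) (nat_lit 6028215822752789505)) .nil)))))) .nil))))))) (.cons (.br (nat_lit 13) (nat_lit 0) (.cons (.rf (nat_lit 3232) (nat_lit 493858305440582043680)) (.cons (.rf (nat_lit 3245) (nat_lit 493858305440582043680)) (.cons (.rf (nat_lit 3249) (nat_lit 493858305440582043680)) (.cons (.rf (nat_lit 3251) (nat_lit 493858305440582043680)) (.cons (.rf (nat_lit 3252) (nat_lit 493858305440582043680)) (.cons (.br (nat_lit 13) (nat_lit 0) (.cons (.rf (nat_lit 3232) (nat_lit 493858305440582043680)) (.cons (.rf (nat_lit 3245) (nat_lit 493858305440582043680)) (.cons (.rf (nat_lit 3249) (nat_lit 493858305440582043680)) (.cons (.rf (nat_lit 3251) (nat_lit 493858305440582043680)) (.cons (.rf (nat_lit 3252) (nat_lit 493858305440582043680)) .nil)))))) .nil))))))) .nil))))))]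

theorem c119 : chkAll C T R L119 (nat_lit 3228) = true := by decide +kernel

theorem l119 : (nat_lit 3228) + L119.length = (nat_lit 3254) := by decide +kernel

end Pool.Agent.H93.Neg.Q14_4_0_4_6_0
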