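import Pool.Agent.H93.Neg.TabQ14_4_0_4_6_0

/-!
Certificates.
-/

set_option autoImplicit false
set_option maxRecDepth 100000
set_option linter.all false

namespace Pool.Agent.H93.Neg.Q14_4_0_4_6_0

/-- part of the certificates -/
def L120 : List Prf := [(.br (nat_lit 2) (nat_lit 0) (.cons (.rf (nat_lit 3102) (nat_lit 14242959524133701664)) (.cons (.rf (nat_lit 3188) (nat_lit 14242959524133701664)) (.cons (.rf (nat_lit 3217) (nat_lit 14242959524133701664)) (.cons (.rf (nat_lit 3253) (nat_lit 14242959524133701664)) (.cons (.br (nat_lit 2) (nat_lit 0) (.cons (.rf (nat_lit 3090) (nat_lit 6164517744835625986)) (.cons (.rf (nat_lit 3188) (nat_lit 14242959524133701664)) (.cons (.rf (nat_lit 3217) (nat_lit 14242959524133701664)) (.cons (.rf (nat_lit 3253) (nat_lit 14242959524133701664)) (.cons (.rf (nat_lit 3090) (nat_lit 6164517744835638274)) .nil)))))) (.cons (.br (nat_lit 2) (nat_lit 0) (.cons (.rf (nat_lit 1943) (nat_lit 427010)) (.cons (.rf (nat_lit 3090) (nat_lit 14090929087143293954)) (.cons (.rf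 (nat_lit 3217) (nat_lit 14242959524133701664)) (.cons (.rf (nat_lit 3253) (nat_lit 14242959524133701664)) (.cons (.rf (nat_lit 3090) (nat_lit 6164517744835638274)) .nil)))))) .nil))))))),
 (.br (nat_lit 2) (nat_lit 0) (.cons (.rf (nat_lit 3102) (nat_lit 14242959524133701664)) (.cons (.rf (nat_lit 3188) (nat_lit 14242959524133701664)) (.cons (.rf (nat_lit 3217) (nat_lit 14242959524133701664)) (.cons (.rf (nat_lit 3254) (nat_lit 14242959524133701664)) (.cons (.br (nat_lit 2) (nat_lit 0) (.cons (.rf (nat_lit 3090) (nat_lit 6132992408932418562)) (.cons (.rf (nat_lit 3188) (nat_lit 14242959524133701664)) (.cons (.rf (nat_lit 3217) (nat_lit 14242959524133701664)) (.cons (.rf (nat_lit 3254) (nat_lit 14242959524133701664)) (.cons (.rf (nat_lit 3090) (nat_lit 6132992408932430850)) .nil)))))) (.cons (.br (nat_lit 2) (nat_lit 0) (.cons (.rf (nat_lit 1943) (nat_lit 427010)) (.cons (.rf (nat_lit 3090) (nat_lit 13951351549195564034)) (.cons (.rf (nat_lit 3217) (nat_lit 14242959524133701664)) (.cons (.rf (nat_lit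 3254) (nat_lit 14242959524133701664)) (.cons (.rf (nat_lit 3090) (nat_lit 6132992408932430850)) .nil)))))) .nil))))))),
 (.br (nat_lit 2) (nat_lit 0) (.cons (.rf (nat_lit 3102) (nat_lit 14242959524133701664)) (.cons (.rf (nat_lit 3188) (nat_lit 14242959524133701664)) (.cons (.rf (nat_lit 3217) (nat_lit 14242959524133701664)) (.cons (.rf (nat_lit 3254) (nat_lit 14242959524133701664)) (.cons (.rf (nat_lit 3255) (nat_lit 14242959524133701664)) (.cons (.br (nat_lit 2) (nat_lit 0) (.cons (.rf (nat_lit 1943) (nat_lit 427010)) (.cons (.rf (nat_lit 3188) (nat_lit 14242959524133701664)) (.cons (.rf (nat_lit 3090) (nat_lit 5885226501296862210)) (.cons (.rf (nat_lit 3090) (nat_lit 6164517744835638274)) (.cons (.rf (nat_lit 3090) (nat_lit 6132992408932430850)) .nil)))))) .nil))))))),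
 (.br (nat_lit 2) (nat_lit 0) (.cons (.rf (nat_lit 3102) (nat_lit 14242959524133701664)) (.cons (.rf (nat_lit 3188) (nat_lit 14242959524133701664)) (.cons (.rf (nat_lit 3217) (nat_lit 14242959524133701664)) (.cons (.rf (nat_lit 3254) (nat_lit 14242959524133701664)) (.cons (.rf (nat_lit 3255) (nat_lit 14242959524133701664)) (.cons (.rf (nat_lit 3256) (nat_lit 14242959524133701664)) (.cons (.br (nat_lit 2) (nat_lit 0) (.cons (.rf (nat_lit 1943) (nat_lit 427010)) (.cons (.rf (nat_lit 3188) (nat_lit 14242959524133701664)) (.cons (.rf (nat_lit 3217) (nat_lit 14242959524133701664)) (.cons (.rf (nat_lit 3254) (nat_lit 14242959524133701664)) (.cons (.rf (nat_lit 3255) (nat_lit 14242959524133701664)) (.cons (.rf (nat_lit 3256) (nat_lit 14242959524133701664)) .nil))))))) .nil)))))))),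
 (.br (nat_lit 9) (nat_lit 0) (.cons (.br (nat_lit 9) (nat_lit 0) .nil) .nil)),
 (.br (nat_lit 8) (nat_lit 0) (.cons (.rf (nat_lit 3258) (nat_lit 325702507464736)) (.cons (.br (nat_lit 8) (nat_lit 0) (.cons (.rf (nat_lit 3258) (nat_lit 325702507464736)) .nil)) .nil))),
 (.br (nat_lit 2) (nat_lit 0) (.cons (.rf (nat_lit 3257) (nat_lit 14242959524133700672)) (.cons (.ev (nat_lit 1208925891673322724327424) (nat_lit 1)) (.cons (.br (nat_lit 3) (nat_lit 0) (.cons (.ev (nat_lit 310693935857417262165328640) (nat_lit 2)) (.cons (.br (nat_lit 7) (nat_lit 0) (.cons (.zr (nat_lit 621387871426034596793418240) (nat_lit 9481627583085151256579) (nat_lit 5) (nat_lit 0)) (.cons (.rf (nat_lit 3259) (nat_lit 470979777366048)) .nil))) (.cons (.rf (nat_lit 3259) (nat_lit 470979911452704)) .nil)))) (.cons (.br (nat_lit 3) (nat_lit 0) (.cons (.br (nat_lit 11) (nat_lit 0) (.cons (.ev (nat_lit 309489750634573111608016896) (nat_lit 1)) (.cons (.br (nat_lit 13) (nat_lit 0) (.cons (.ev (nat_lit 475990367698113798952607286272)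 (nat_lit 3)) .nil)) .nil))) (.cons (.ev (nat_lit 309489750634572016391291136) (nat_lit 1)) (.cons (.br (nat_lit 7) (nat_lit 0) (.cons (.ev (nat_lit 309489750634573111608016896) (nat_lit 1)) (.cons (.rf (nat_lit 2862) (nat_lit 469914690487360)) .nil))) (.cons (.br (nat_lit 7) (nat_lit 0) (.cons (.rf (nat_lit 2862) (nat_lit 470979846440992)) (.cons (.rf (nat_lit 2862) (nat_lit 469914694550592)) (.cons (.br (nat_lit 12) (nat_lit 0) (.cons (.rf (nat_lit 2868) (nat_lit 470946560444448)) (.cons (.ev (nat_lit 79229371458603035365442846976) (nat_lit 1)) .nil))) .nil)))) .nil))))) (.cons (.rf (nat_lit 3090) (nat_lit 14090929087143293954)) .nil)))))),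
 (.br (nat_lit 9) (nat_lit 0) (.cons (.br (nat_lit 9) (nat_lit 0) .nil) .nil)),
 (.br (nat_lit 9) (nat_lit 0) (.cons (.br (nat_lit 9) (nat_lit 0) .nil) .nil)),
 (.br (nat_lit 7) (nat_lit 0) (.cons (.ev (nat_lit 1208925891672227507601664) (nat_lit 1)) (.cons (.rf (nat_lit 3262) (nat_lit 470979911452704)) (.cons (.br (nat_lit 13) (nat_lit 0) (.cons (.ev (nat_lit 1864168465484972166066734080) (nat_lit 3)) (.cons (.br (nat_lit 11) (nat_lit 0) (.cons (.ev (nat_lit 1864168465484972166066734080) (nat_lit 3)) .nil)) .nil))) .nil)))),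
 (.br (nat_lit 7) (nat_lit 0) (.cons (.ev (nat_lit 1213666704899170862366976) (nat_lit 1)) (.cons (.rf (nat_lit 3262) (nat_lit 470946491369504)) (.cons (.br (nat_lit 13) (nat_lit 0) (.cons (.br (nat_lit 11) (nat_lit 0) (.cons (.ev (nat_lit 121856013637591684041924126835716) (nat_lit 4)) .nil)) (.cons (.br (nat_lit 10) (nat_lit 0) (.cons (.ev (nat_lit 121856013637591684041924126835716) (nat_lit 4)) .nil)) .nil))) .nil)))),
 (.br (nat_lit 11) (nat_lit 0) (.cons (.ev (nat_lit 203935161733737674021086165861388) (nat_lit 4)) .nil)),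
 (.br (nat_lit 2) (nat_lit 0) (.cons (.rf (nat_lit 3257) (nat_lit 14242959524133700672)) (.cons (.rf (nat_lit 3257) (nat_lit 14208022404722295872)) (.cons (.rf (nat_lit 3260) (nat_lit 14242959524133701664)) (.cons (.rf (nat_lit 3260) (nat_lit 14208022404722296864)) (.cons (.br (nat_lit 3) (nat_lit 0) (.cons (.br (nat_lit 10) (nat_lit 0) (.cons (.ev (nat_lit 1208925891672227507601664) (nat_lit 1)) (.cons (.rf (nat_lit 3261) (nat_lit 470979911452704)) (.cons (.br (nat_lit 11) (nat_lit 0) (.cons (.rf (nat_lit 3261) (nat_lit 470946625456160)) (.cons (.br (nat_lit 12) (nat_lit 0) (.cons (.ev (nat_lit 20361948464842389229661321166848) (nat_lit 1)) .nil)) .nil))) .nil)))) (.cons (.rf (nat_lit 3263) (nat_lit 493858305440582043680)) (.cons (.ev (nat_lit 309485009821626543718269184) (nat_lit 1)) (.cons (.rf (nat_lit 3264) (nat_lit 493858305440582043680)) (.cons (.br (nat_lit 7) (nat_lit 0) (.cons (.ev (nat_lit 1208925891953698189345024) (nat_lit 1)) (.cons (.rf (nat_lit 3263) (nat_lit 493823368321170638880))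 (.cons (.rf (nat_lit 3264) (nat_lit 493823368321170638880)) (.cons (.br (nat_lit 12) (nat_lit 0) (.cons (.rf (nat_lit 3265) (nat_lit 493858305440582043680)) (.cons (.rf (nat_lit 3265) (nat_lit 493823368321170638880)) (.cons (.ev (nat_lit 20361637770906820327557476384768) (nat_lit 1)) .nil)))) .nil))))) .nil)))))) .nil)))))),
 (.br (nat_lit 2) (nat_lit 0) (.cons (.rf (nat_lit 3257) (nat_lit 14242959524133700672)) (.cons (.rf (nat_lit 3257) (nat_lit 14208022404722295872)) (.cons (.rf (nat_lit 3260) (nat_lit 14242959524133701664)) (.cons (.rf (nat_lit 3260) (nat_lit 14208022404722296864)) (.cons (.rf (nat_lit 3266) (nat_lit 14242959524133701664)) (.cons (.br (nat_lit 2) (nat_lit 0) (.cons (.rf (nat_lit 3090) (nat_lit 14242959524133712898)) (.cons (.rf (nat_lit 3090) (nat_lit 14208022404722308098)) (.cons (.rf (nat_lit 3090) (nat_lit 14090929087143293954)) (.cons (.rf (nat_lit 3090) (nat_lit 13951351549195564034)) (.cons (.rf (nat_lit 3266) (nat_lit 14242959524133701664)) .nil)))))) .nil))))))),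
 (.br (nat_lit 7) (nat_lit 0) (.cons (.ev (nat_lit 79229371458602754989977829633) (nat_lit 1)) (.cons (.rf (nat_lit 2862) (nat_lit 470774925461536)) .nil))),
 (.br (nat_lit 12) (nat_lit 0) (.cons (.rf (nat_lit 2891) (nat_lit 14242959521985267744)) (.cons (.br (nat_lit 4) (nat_lit 0) (.cons (.ev (nat_lit 79538861172271780161088651521) (nat_lit 1)) .nil)) .nil))),
 (.br (nat_lit 2) (nat_lit 0) (.cons (.rf (nat_lit 3257) (nat_lit 14242959524133700672)) (.cons (.rf (nat_lit 3267) (nat_lit 14242959524133701664)) (.cons (.rf (nat_lit 3257) (nat_lit 14208022404722295872)) (.cons (.br (nat_lit 5) (nat_lit 0) (.cons (.rf (nat_lit 3268) (nat_lit 14242959524133701664)) (.cons (.rf (nat_lit 3268) (nat_lit 14208022404722296864)) (.cons (.br (nat_lit 3) (nat_lit 0) (.cons (.ev (nat_lit 475990367698115487811057485318) (nat_lit 3)) (.cons (.rf (nat_lit 2868) (nat_lit 470974645504032)) .nil))) (.cons (.rf (nat_lit 2887) (nat_lit 15433072042872768544)) .nil))))) (.cons (.br (nat_lit 3) (nat_lit 0) (.cons (.rf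 (nat_lit 2889) (nat_lit 15071358244456480)) (.cons (.rf (nat_lit 2873) (nat_lit 15071186613536800)) (.cons (.br (nat_lit 7) (nat_lit 0) (.cons (.rf (nat_lit 2889) (nat_lit 15071358240393248)) (.cons (.kr (nat_lit 4740813226947649732608) (nat_lit 158456325028528956662064611328) (nat_lit 4) (nat_lit 0)) (.cons (.rf (nat_lit 3269) (nat_lit 15433072045018155040)) .nil)))) (.cons (.br (nat_lit 5) (nat_lit 0) (.cons (.rf (nat_lit 2888) (nat_lit 470979842377760)) (.cons (.br (nat_lit 12) (nat_lit 0) (.cons (.rf (nat_lit 3269) (nat_lit 15433072040723318816)) (.cons (.ev (nat_lit 79537647542532708210971770881) (nat_lit 1)) .nil))) (.cons (.rf (nat_lit 2891) (nat_lit 15433072042872768544)) .nil)))) .nil))))) .nil)))))),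
 (.br (nat_lit 2) (nat_lit 0) (.cons (.rf (nat_lit 3257) (nat_lit 14242959524133700672)) (.cons (.rf (nat_lit 3267) (nat_lit 14242959524133701664)) (.cons (.rf (nat_lit 3257) (nat_lit 14208022404722295872)) (.cons (.rf (nat_lit 3270) (nat_lit 14242959524133701664)) (.cons (.br (nat_lit 2) (nat_lit 0) (.cons (.rf (nat_lit 3257) (nat_lit 14242959524133700672)) (.cons (.rf (nat_lit 3267) (nat_lit 14242959524133701664)) (.cons (.rf (nat_lit 3257) (nat_lit 14208022404722295872)) (.cons (.rf (nat_lit 3270) (nat_lit 14242959524133701664)) (.cons (.rf (nat_lit 3090) (nat_lit 6164517744835638274)) .nil)))))) (.cons (.br (nat_lit 2) (nat_lit 0) (.cons (.rf (nat_lit 3257) (nat_lit 14242959524133700672)) (.cons (.rf (nat_lit 3090) (nat_lit 14090929087143293954)) (.cons (.rf (nat_lit 3257) (nat_lit 14208022404722295872)) (.cons (.rf (nat_lit 3270) (nat_lit 14242959524133701664)) (.cons (.rf (nat_lit 3090) (nat_lit 6164517744835638274)) .nil)))))) .nil))))))),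
 (.br (nat_lit 2) (nat_lit 0) (.cons (.rf (nat_lit 3257) (nat_lit 14242959524133700672)) (.cons (.rf (nat_lit 3267) (nat_lit 14242959524133701664)) (.cons (.rf (nat_lit 3257) (nat_lit 14208022404722295872)) (.cons (.rf (nat_lit 3271) (nat_lit 14242959524133701664)) (.cons (.rf (nat_lit 3271) (nat_lit 14208022404722296864)) (.cons (.br (nat_lit 2) (nat_lit 0) (.cons (.rf (nat_lit 3090) (nat_lit 6028215822752789506)) (.cons (.rf (nat_lit 3267) (nat_lit 14242959524133701664)) (.cons (.rf (nat_lit 3090) (nat_lit 5885226501296862210)) (.cons (.rf (nat_lit 3090) (nat_lit 6164517744835638274)) (.cons (.rf (nat_lit 3090) (nat_lit 6132992408932430850)) .nil)))))) .nil))))))),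
 (.br (nat_lit 2) (nat_lit 0) (.cons (.rf (nat_lit 3257) (nat_lit 14242959524133700672)) (.cons (.rf (nat_lit 3267) (nat_lit 14242959524133701664)) (.cons (.rf (nat_lit 3257) (nat_lit 14208022404722295872)) (.cons (.rf (nat_lit 3271) (nat_lit 14242959524133701664)) (.cons (.rf (nat_lit 3271) (nat_lit 14208022404722296864)) (.cons (.rf (nat_lit 3272) (nat_lit 14242959524133701664)) (.cons (.br (nat_lit 2) (nat_lit 0) (.cons (.rf (nat_lit 3257) (nat_lit 14242959524133700672)) (.cons (.rf (nat_lit 3267) (nat_lit 14242959524133701664)) (.cons (.rf (nat_lit 3257) (nat_lit 14208022404722295872)) (.cons (.rf (nat_lit 3271) (nat_lit 14242959524133701664)) (.cons (.rf (nat_lit 3271) (nat_lit 14208022404722296864)) (.cons (.rf (nat_lit 3272) (nat_lit 14242959524133701664)) .nil))))))) .nil)))))))),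
 (.br (nat_lit 2) (nat_lit 0) (.cons (.rf (nat_lit 3090) (nat_lit 14090929087143281666)) (.cons (.rf (nat_lit 3257) (nat_lit 14242959524133700672)) (.cons (.rf (nat_lit 3257) (nat_lit 14208022404722295872)) (.cons (.rf (nat_lit 3273) (nat_lit 14242959524133700672)) (.cons (.kr (nat_lit 158456325028528956666359578624) (nat_lit 4740813229142378020864) (nat_lit 4) (nat_lit 0)) (.cons (.rf (nat_lit 3090) (nat_lit 14090929087143293954)) .nil))))))),
 (.br (nat_lit 2) (nat_lit 0) (.cons (.rf (nat_lit 3090) (nat_lit 14242959524133712898)) (.cons (.rf (nat_lit 3090) (nat_lit 14208022404722308098)) (.cons (.rf (nat_lit 3090) (nat_lit 14090929087143293954)) (.cons (.rf (nat_lit 3090) (nat_lit 13951351549195564034)) (.cons (.kr (nat_lit 158456325028528956666359578624) (nat_lit 4740813229142378020864) (nat_lit 4) (nat_lit 0)) .nil)))))),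
 (.br (nat_lit 2) (nat_lit 0) (.cons (.rf (nat_lit 3257) (nat_lit 14242959524133700672)) (.cons (.rf (nat_lit 3257) (nat_lit 14208022404722295872)) (.cons (.rf (nat_lit 3274) (nat_lit 14242959524133701664)) (.cons (.rf (nat_lit 3274) (nat_lit 14208022404722296864)) (.cons (.kr (nat_lit 158456325028528956666359578624) (nat_lit 4740813229142378020864) (nat_lit 4) (nat_lit 0)) (.cons (.rf (nat_lit 3275) (nat_lit 493858305440582043680)) .nil))))))),
 (.br (nat_lit 12) (nat_lit 0) (.cons (.kr (nat_lit 18446745173221179392) (nat_lit 79228162514264619068520660992) (nat_lit 5) (nat_lit 0)) (.cons (.ev (nat_lit 79537652246452166631442415616) (nat_lit 1)) (.cons (.ev (nat_lit 79537647542532708210971770881) (nat_lit 1)) .nil)))),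
 (.br (nat_lit 11) (nat_lit 0) (.cons (.rf (nat_lit 3277) (nat_lit 493858305440582043680)) (.cons (.br (nat_lit 13) (nat_lit 0) (.cons (.br (nat_lit 12) (nat_lit 0) (.cons (.zr (nat_lit 4740813793191843069956) (nat_lit 20282720297587383441252090446080) (nat_lit 5) (nat_lit 1)) .nil)) (.cons (.br (nat_lit 5) (nat_lit 0) (.cons (.zr (nat_lit 4740813793191843069956) (nat_lit 20282720297587383441252090446080) (nat_lit 5) (nat_lit 1)) .nil)) .nil))) (.cons (.rf (nat_lit 2962) (nat_lit 15181996469977711680)) (.cons (.rf (nat_lit 3257) (nat_lit 13951351549195551138)) .nil))))),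
 (.br (nat_lit 13) (nat_lit 0) (.cons (.rf (nat_lit 3278) (nat_lit 493858305440582043680)) (.cons (.br (nat_lit 12) (nat_lit 0) (.cons (.rf (nat_lit 2997) (nat_lit 15431980262186125344)) (.cons (.rf (nat_lit 2962) (nat_lit 15181995371405739072)) (.cons (.kr (nat_lit 158456325028528956666359578624) (nat_lit 4740813229142378020864) (nat_lit 4) (nat_lit 0)) .nil)))) (.cons (.rf (nat_lit 3257) (nat_lit 13951351549195551138)) (.cons (.kr (nat_lit 158456325028528956666359578624) (nat_lit 4740813229142378020864) (nat_lit 4) (nat_lit 0)) .nil))))),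
 (.br (nat_lit 13) (nat_lit 0) (.cons (.rf (nat_lit 3278) (nat_lit 493858305440582043680)) (.cons (.rf (nat_lit 3279) (nat_lit 493858305440582043680)) (.cons (.rf (nat_lit 3257) (nat_lit 13951351549195551138)) (.cons (.br (nat_lit 13) (nat_lit 0) (.cons (.rf (nat_lit 3278) (nat_lit 493858305440582043680)) (.cons (.kr (nat_lit 158456325028528956666359578624) (nat_lit 4740813229142378020864) (nat_lit 4) (nat_lit 0)) (.cons (.rf (nat_lit 3257) (nat_lit 13951351549195551138)) .nil)))) .nil)))))]

theorem c120 : chkAll C T R L120 (nat_lit 3254) = true := by decide +kernel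

theorem l120 : (nat_lit 3254) + L120.length = (nat_lit 3281) := by decide +kernel

/-- part of the certificates -/
def L121 : List Prf := [(.br (nat_lit 2) (nat_lit 0) (.cons (.rf (nat_lit 3257) (nat_lit 14242959524133700672)) (.cons (.rf (nat_lit 3273) (nat_lit 14242959524133700672)) (.cons (.rf (nat_lit 3257) (nat_lit 14208022404722295872)) (.cons (.br (nat_lit 7) (nat_lit 0) (.cons (.rf (nat_lit 2991) (nat_lit 11974233762885240864)) (.cons (.br (nat_lit 3) (nat_lit 0) (.cons (.ev (nat_lit 79537652246452166631442415873) (nat_lit 1)) (.cons (.rf (nat_lit 2862) (nat_lit 469676491638816)) .nil))) (.cons (.ev (nat_lit 79229376162522774161378574593) (nat_lit 1)) (.cons (.br (nat_lit 5) (nat_lit 0) (.cons (.rf (nat_lit 2862) (nat_lit 469676487575584)) (.cons (.rf (nat_lit 2868) (nat_lit 469909489551392)) (.cons (.rf (nat_lit 2887) (nat_lit 15398169077108279328)) .nil)))) .nil))))) (.cons (.br (nat_lit 13) (nat_lit 0) (.cons (.rf (nat_lit 3278) (nat_lit 493858305440582043680)) (.cons (.rf (nat_lit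 3279) (nat_lit 493858305440582043680)) (.cons (.rf (nat_lit 3280) (nat_lit 493858305440582043680)) (.cons (.rf (nat_lit 3257) (nat_lit 13951351549195551138)) (.cons (.br (nat_lit 13) (nat_lit 0) (.cons (.rf (nat_lit 3278) (nat_lit 493858305440582043680)) (.cons (.kr (nat_lit 158456325028528956666359578624) (nat_lit 4740813229142378020864) (nat_lit 4) (nat_lit 0)) (.cons (.rf (nat_lit 3280) (nat_lit 493858305440582043680)) (.cons (.rf (nat_lit 3257) (nat_lit 13951351549195551138)) .nil))))) .nil)))))) .nil)))))),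
 (.br (nat_lit 2) (nat_lit 0) (.cons (.rf (nat_lit 3257) (nat_lit 14242959524133700672)) (.cons (.rf (nat_lit 3274) (nat_lit 14242959524133701664)) (.cons (.rf (nat_lit 3257) (nat_lit 14208022404722295872)) (.cons (.rf (nat_lit 3281) (nat_lit 14242959524133701664)) (.cons (.br (nat_lit 2) (nat_lit 0) (.cons (.rf (nat_lit 3149) (nat_lit 445092449661060160)) (.cons (.kr (nat_lit 158456325028528956666359578624) (nat_lit 4740813229142378020864) (nat_lit 4) (nat_lit 0)) (.cons (.rf (nat_lit 3257) (nat_lit 14208022404722295872)) (.cons (.rf (nat_lit 3281) (nat_lit 14242959524133701664)) (.cons (.rf (nat_lit 3090) (nat_lit 6164517744835638274)) .nil)))))) (.cons (.br (nat_lit 2) (nat_lit 0) (.cons (.rf (nat_lit 3257) (nat_lit 14242959524133700672)) (.cons (.rf (nat_lit 3090) (nat_lit 14090929087143293954)) (.cons (.rf (nat_lit 3257) (nat_lit 14208022404722295872)) (.cons (.rf (nat_lit 3281) (nat_lit 14242959524133701664)) (.cons (.rf (nat_lit 3090) (nat_lit 6164517744835638274)) .nil)))))) .nil))))))),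
 (.br (nat_lit 2) (nat_lit 0) (.cons (.rf (nat_lit 3257) (nat_lit 14242959524133700672)) (.cons (.rf (nat_lit 3274) (nat_lit 14208022404722296864)) (.cons (.rf (nat_lit 3257) (nat_lit 14208022404722295872)) (.cons (.rf (nat_lit 3282) (nat_lit 14242959524133701664)) (.cons (.br (nat_lit 2) (nat_lit 0) (.cons (.rf (nat_lit 3257) (nat_lit 14242959524133700672)) (.cons (.kr (nat_lit 158456325028528956666359578624) (nat_lit 4740813229142378020864) (nat_lit 4) (nat_lit 0)) (.cons (.rf (nat_lit 3257) (nat_lit 14208022404722295872)) (.cons (.rf (nat_lit 3282) (nat_lit 14242959524133701664)) (.cons (.rf (nat_lit 3090) (nat_lit 6132992408932430850)) .nil)))))) (.cons (.br (nat_lit 2) (nat_lit 0) (.cons (.rf (nat_lit 3257) (nat_lit 14242959524133700672)) (.cons (.rf (nat_lit 3090) (nat_lit 13951351549195564034)) (.cons (.rf (nat_lit 3257) (nat_lit 14208022404722295872)) (.cons (.rf (nat_lit 3282) (nat_lit 14242959524133701664)) (.cons (.rf (nat_lit 3090) (nat_lit 6132992408932430850)) .nil)))))) .nil))))))),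
 (.br (nat_lit 1) (nat_lit 0) (.cons (.rf (nat_lit 3090) (nat_lit 14090929087143282689)) (.cons (.rf (nat_lit 3257) (nat_lit 14242959524133701664)) (.cons (.rf (nat_lit 3257) (nat_lit 14208022404722296864)) (.cons (.rf (nat_lit 3273) (nat_lit 14242959524133701664)) (.cons (.br (nat_lit 2) (nat_lit 0) (.cons (.rf (nat_lit 3257) (nat_lit 14242959524133700672)) (.cons (.rf (nat_lit 3276) (nat_lit 14242959524133701664)) (.cons (.rf (nat_lit 3257) (nat_lit 14208022404722295872)) (.cons (.rf (nat_lit 3282) (nat_lit 14242959524133701664)) (.cons (.rf (nat_lit 3283) (nat_lit 14242959524133701664)) (.cons (.br (nat_lit 2) (nat_lit 0) (.cons (.rf (nat_lit 3257) (nat_lit 14242959524133700672)) (.cons (.kr (nat_lit 158456325028528956666359578624) (nat_lit 4740813229142378020864) (nat_lit 4) (nat_lit 0)) (.cons (.rf (nat_lit 3257) (nat_lit 14208022404722295872)) (.cons (.rf (nat_lit 3282) (nat_lit 14242959524133701664)) (.cons (.rf (nat_lit 3283) (nat_lit 14242959524133701664)) (.cons (.rf (nat_lit 3275)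 (nat_lit 485643561739201120288)) .nil))))))) (.cons (.br (nat_lit 2) (nat_lit 0) (.cons (.rf (nat_lit 3257) (nat_lit 14242959524133700672)) (.cons (.rf (nat_lit 3276) (nat_lit 14242959524133701664)) (.cons (.rf (nat_lit 3257) (nat_lit 14208022404722295872)) (.cons (.rf (nat_lit 3282) (nat_lit 14242959524133701664)) (.cons (.rf (nat_lit 3283) (nat_lit 14242959524133701664)) (.cons (.rf (nat_lit 3275) (nat_lit 485643561739201120288)) .nil))))))) .nil)))))))) (.cons (.rf (nat_lit 3090) (nat_lit 14090929087143293953)) .nil))))))),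
 (.br (nat_lit 13) (nat_lit 0) (.cons (.rf (nat_lit 3021) (nat_lit 15398169077108279328)) (.cons (.br (nat_lit 7) (nat_lit 0) (.cons (.ev (nat_lit 41201122810162269411923601262596) (nat_lit 4)) .nil)) (.cons (.ev (nat_lit 79537652246452448110714093825) (nat_lit 1)) .nil)))),
 (.br (nat_lit 11) (nat_lit 0) (.cons (.ev (nat_lit 122171693183239809924777610577420) (nat_lit 4)) .nil)),
 (.br (nat_lit 5) (nat_lit 0) (.cons (.rf (nat_lit 3286) (nat_lit 493858305440582043680)) (.cons (.rf (nat_lit 3286) (nat_lit 493823368321170638880)) (.cons (.rf (nat_lit 3021) (nat_lit 15398169077108279328)) .nil)))),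
 (.br (nat_lit 13) (nat_lit 0) (.cons (.rf (nat_lit 3285) (nat_lit 493858305440582043680)) (.cons (.rf (nat_lit 3287) (nat_lit 493858305440582043680)) (.cons (.br (nat_lit 5) (nat_lit 0) (.cons (.ev (nat_lit 122169843526735368885400273683980) (nat_lit 4)) .nil)) .nil)))),
 (.br (nat_lit 13) (nat_lit 0) (.cons (.rf (nat_lit 3285) (nat_lit 493858305440582043680)) (.cons (.rf (nat_lit 3287) (nat_lit 493858305440582043680)) (.cons (.rf (nat_lit 3288) (nat_lit 493858305440582043680)) (.cons (.br (nat_lit 13) (nat_lit 0) (.cons (.ev (nat_lit 79537652246452448110714093825) (nat_lit 1)) (.cons (.rf (nat_lit 3287) (nat_lit 493858305440582043680)) (.cons (.rf (nat_lit 3288) (nat_lit 493858305440582043680)) .nil)))) .nil))))),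
 (.br (nat_lit 13) (nat_lit 0) (.cons (.rf (nat_lit 3289) (nat_lit 493858305440582043680)) (.cons (.ev (nat_lit 79229376162522493785913491713) (nat_lit 1)) (.cons (.br (nat_lit 3) (nat_lit 0) (.cons (.ev (nat_lit 20361637770906820046078204707073) (nat_lit 1)) .nil)) .nil)))),
 (.br (nat_lit 13) (nat_lit 0) (.cons (.rf (nat_lit 3289) (nat_lit 493858305440582043680)) (.cons (.rf (nat_lit 3289) (nat_lit 493823368321170638880)) (.cons (.rf (nat_lit 3290) (nat_lit 493858305440582043680)) (.cons (.rf (nat_lit 3290) (nat_lit 493823368321170638880)) .nil))))),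
 (.br (nat_lit 13) (nat_lit 0) (.cons (.rf (nat_lit 3289) (nat_lit 493858305440582043680)) (.cons (.rf (nat_lit 3291) (nat_lit 493858305440582043680)) (.cons (.rf (nat_lit 3289) (nat_lit 493823368321170638880)) (.cons (.br (nat_lit 13) (nat_lit 0) (.cons (.rf (nat_lit 3289) (nat_lit 493858305440582043680)) (.cons (.rf (nat_lit 3291) (nat_lit 493858305440582043680)) (.cons (.rf (nat_lit 3289) (nat_lit 493823368321170638880)) .nil)))) .nil))))),
 (.br (nat_lit 13) (nat_lit 0) (.cons (.rf (nat_lit 3090) (nat_lit 14242959524133701677)) (.cons (.br (nat_lit 5) (nat_lit 0) (.cons (.rf (nat_lit 3277) (nat_lit 493823368321170638880)) (.cons (.rf (nat_lit 3277) (nat_lit 493858305440582043680)) (.cons (.rf (nat_lit 2979) (nat_lit 15395984450583103520)) .nil)))) (.cons (.rf (nat_lit 3257) (nat_lit 14090929087143281058)) (.cons (.rf (nat_lit 3257) (nat_lit 13951351549195551138)) (.cons (.rf (nat_lit 3090) (nat_lit 6028215822752778285)) .nil)))))),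
 (.br (nat_lit 2) (nat_lit 0) (.cons (.rf (nat_lit 3257) (nat_lit 14242959524133700672)) (.cons (.rf (nat_lit 3284) (nat_lit 14242959524133700672)) (.cons (.rf (nat_lit 3257) (nat_lit 14208022404722295872)) (.cons (.br (nat_lit 13) (nat_lit 0) (.cons (.rf (nat_lit 3289) (nat_lit 493858305440582043680)) (.cons (.rf (nat_lit 3291) (nat_lit 493858305440582043680)) (.cons (.rf (nat_lit 3289) (nat_lit 493823368321170638880)) (.cons (.rf (nat_lit 3292) (nat_lit 493858305440582043680)) (.cons (.rf (nat_lit 3292) (nat_lit 493823368321170638880)) .nil)))))) (.cons (.br (nat_lit 13) (nat_lit 0) (.cons (.rf (nat_lit 3293) (nat_lit 493858305440582043680)) (.cons (.rf (nat_lit 3099) (nat_lit 14242959524133712930)) (.cons (.rf (nat_lit 3293) (nat_lit 493823368321170638880)) (.cons (.rf (nat_lit 3257) (nat_lit 14090929087143281058)) (.cons (.rf (nat_lit 3257) (nat_lit 13951351549195551138)) (.cons (.rf (nat_lit 3099) (nat_lit 5885226501296862242)) .nil))))))) .nil)))))),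
 (.br (nat_lit 2) (nat_lit 0) (.cons (.rf (nat_lit 3257) (nat_lit 14242959524133700672)) (.cons (.rf (nat_lit 3284) (nat_lit 14242959524133700672)) (.cons (.rf (nat_lit 3257) (nat_lit 14208022404722295872)) (.cons (.rf (nat_lit 3294) (nat_lit 493858305440582043680)) (.cons (.br (nat_lit 2) (nat_lit 0) (.cons (.rf (nat_lit 3257) (nat_lit 14242959524133700672)) (.cons (.kr (nat_lit 158456325028528956666359578624) (nat_lit 4740813229142378020864) (nat_lit 4) (nat_lit 0)) (.cons (.rf (nat_lit 3257) (nat_lit 14208022404722295872)) (.cons (.rf (nat_lit 3294) (nat_lit 493858305440582043680)) (.cons (.rf (nat_lit 3090) (nat_lit 6164517744835638274)) .nil)))))) (.cons (.br (nat_lit 2) (nat_lit 0) (.cons (.rf (nat_lit 3257) (nat_lit 14242959524133700672)) (.cons (.rf (nat_lit 3090) (nat_lit 14090929087143293954)) (.cons (.rf (nat_lit 3257) (nat_lit 14208022404722295872)) (.cons (.rf (nat_lit 3294) (nat_lit 493858305440582043680)) (.cons (.rf (nat_lit 3090) (nat_lit 6164517744835638274)) .nil)))))) .nil))))))),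
 (.br (nat_lit 2) (nat_lit 0) (.cons (.rf (nat_lit 3090) (nat_lit 6028215822752789506)) (.cons (.kr (nat_lit 158456325028528956666359578624) (nat_lit 4740813229142378020864) (nat_lit 4) (nat_lit 0)) (.cons (.rf (nat_lit 3090) (nat_lit 5885226501296862210)) (.cons (.rf (nat_lit 3090) (nat_lit 6164517744835638274)) (.cons (.rf (nat_lit 3090) (nat_lit 6132992408932430850)) .nil)))))),
 (.br (nat_lit 1) (nat_lit 0) (.cons (.rf (nat_lit 3102) (nat_lit 14242959524133701664)) (.cons (.rf (nat_lit 3257) (nat_lit 14242959524133701664)) (.cons (.rf (nat_lit 3257) (nat_lit 14208022404722296864)) (.cons (.rf (nat_lit 3284) (nat_lit 14242959524133701664)) (.cons (.rf (nat_lit 3284) (nat_lit 14208022404722296864)) (.cons (.br (nat_lit 2) (nat_lit 0) (.cons (.rf (nat_lit 3257) (nat_lit 14242959524133700672)) (.cons (.br (nat_lit 2) (nat_lit 0) (.cons (.rf (nat_lit 3257) (nat_lit 14242959524133700672)) (.cons (.rf (nat_lit 3257) (nat_lit 14208022404722295872)) (.cons (.rf (nat_lit 3284) (nat_lit 14242959524133700672))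 (.cons (.rf (nat_lit 3284) (nat_lit 14208022404722295872)) (.cons (.kr (nat_lit 158456325028528956666359578624) (nat_lit 4740813229142378020864) (nat_lit 4) (nat_lit 0)) (.cons (.rf (nat_lit 3296) (nat_lit 485779863661283969056)) .nil))))))) (.cons (.rf (nat_lit 3257) (nat_lit 14208022404722295872)) (.cons (.rf (nat_lit 3295) (nat_lit 493858305440582043680)) (.cons (.rf (nat_lit 3295) (nat_lit 493823368321170638880)) (.cons (.br (nat_lit 2) (nat_lit 0) (.cons (.rf (nat_lit 3257) (nat_lit 14242959524133700672)) (.cons (.kr (nat_lit 158456325028528956666359578624) (nat_lit 4740813229142378020864) (nat_lit 4) (nat_lit 0)) (.cons (.rf (nat_lit 3257) (nat_lit 14208022404722295872)) (.cons (.rf (nat_lit 3295) (nat_lit 493858305440582043680)) (.cons (.rf (nat_lit 3295) (nat_lit 493823368321170638880)) (.cons (.rf (nat_lit 3296) (nat_lit 493858305440582043680)) .nil))))))) (.cons (.br (nat_lit 2) (nat_lit 0) (.cons (.rf (nat_lit 3257) (nat_lit 14242959524133700672)) (.cons (.rf (nat_lit 3296) (nat_lit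 485779863661283969056)) (.cons (.rf (nat_lit 3257) (nat_lit 14208022404722295872)) (.cons (.rf (nat_lit 3295) (nat_lit 493858305440582043680)) (.cons (.rf (nat_lit 3295) (nat_lit 493823368321170638880)) (.cons (.rf (nat_lit 3296) (nat_lit 493858305440582043680)) .nil))))))) .nil)))))))) .nil))))))),
 (.br (nat_lit 1) (nat_lit 0) (.cons (.rf (nat_lit 3102) (nat_lit 14242959524133701664)) (.cons (.rf (nat_lit 3257) (nat_lit 14242959524133701664)) (.cons (.rf (nat_lit 3257) (nat_lit 14208022404722296864)) (.cons (.rf (nat_lit 3284) (nat_lit 14242959524133701664)) (.cons (.rf (nat_lit 3284) (nat_lit 14208022404722296864)) (.cons (.rf (nat_lit 3297) (nat_lit 14242959524133701664)) (.cons (.br (nat_lit 1) (nat_lit 0) (.cons (.rf (nat_lit 1943) (nat_lit 428033)) (.cons (.rf (nat_lit 3090) (nat_lit 14242959524133712897)) (.cons (.rf (nat_lit 3090) (nat_lit 14208022404722308097)) (.cons (.rf (nat_lit 3090) (nat_lit 14090929087143293953)) (.cons (.rf (nat_lit 3090) (nat_lit 13951351549195564033)) (.cons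 (.rf (nat_lit 3297) (nat_lit 14242959524133701664)) .nil))))))) .nil)))))))),
 (.br (nat_lit 9) (nat_lit 0) (.cons (.rf (nat_lit 3259) (nat_lit 321339963574304)) (.cons (.rf (nat_lit 3259) (nat_lit 321339896530976)) .nil))),
 (.br (nat_lit 13) (nat_lit 0) (.cons (.rf (nat_lit 3298) (nat_lit 14090929087143281058)) (.cons (.br (nat_lit 13) (nat_lit 0) (.cons (.rf (nat_lit 3298) (nat_lit 14090929087143281058)) (.cons (.ev (nat_lit 79537647542532426740290093056) (nat_lit 1)) .nil))) (.cons (.ev (nat_lit 79537647542532426740290093056) (nat_lit 1)) .nil)))),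
 (.br (nat_lit 2) (nat_lit 0) (.cons (.rf (nat_lit 3257) (nat_lit 14242959524133700672)) (.cons (.rf (nat_lit 3298) (nat_lit 14242959524133700672)) (.cons (.rf (nat_lit 3257) (nat_lit 14208022404722295872)) (.cons (.br (nat_lit 5) (nat_lit 0) (.cons (.ev (nat_lit 79537652246452165536225755393) (nat_lit 1)) (.cons (.ev (nat_lit 79229376162522774161378574593) (nat_lit 1)) (.cons (.rf (nat_lit 3299) (nat_lit 470979911452704)) .nil)))) (.cons (.br (nat_lit 3) (nat_lit 0) (.cons (.rf (nat_lit 3300) (nat_lit 493858305440582043680)) (.cons (.rf (nat_lit 2873) (nat_lit 14825132232116256)) (.cons (.rf (nat_lit 2889) (nat_lit 14825063579748384)) (.cons (.br (nat_lit 5) (nat_lit 0) (.cons (.rf (nat_lit 3300) (nat_lit 493823368321170638880)) (.cons (.ev (nat_lit 79537652246452447006907498496) (nat_lit 1)) (.cons (.rf (nat_lit 3298) (nat_lit 14090929087143281058)) .nil)))) .nil))))) .nil)))))),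
 (.br (nat_lit 2) (nat_lit 0) (.cons (.rf (nat_lit 3257) (nat_lit 14242959524133700672)) (.cons (.rf (nat_lit 3298) (nat_lit 14242959524133700672)) (.cons (.rf (nat_lit 3257) (nat_lit 14208022404722295872)) (.cons (.rf (nat_lit 3301) (nat_lit 14242959524133701664)) (.cons (.br (nat_lit 2) (nat_lit 0) (.cons (.rf (nat_lit 3149) (nat_lit 438331552868435008)) (.cons (.rf (nat_lit 3298) (nat_lit 14242959524133700672)) (.cons (.rf (nat_lit 3257) (nat_lit 14208022404722295872)) (.cons (.rf (nat_lit 3301) (nat_lit 14242959524133701664)) (.cons (.rf (nat_lit 3090) (nat_lit 6164517744835638274)) .nil)))))) (.cons (.br (nat_lit 2) (nat_lit 0) (.cons (.rf (nat_lit 3257) (nat_lit 14242959524133700672)) (.cons (.rf (nat_lit 3090) (nat_lit 14090929087143293954)) (.cons (.rf (nat_lit 3257) (nat_lit 14208022404722295872)) (.cons (.rf (nat_lit 3301) (nat_lit 14242959524133701664)) (.cons (.rf (nat_lit 3090) (nat_lit 6164517744835638274)) .nil)))))) .nil)))))))]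

theorem c121 : chkAll C T R L121 (nat_lit 3281) = true := by decide +kernel

theorem l121 : (nat_lit 3281) + L121.length = (nat_lit 3303) := by decide +kernel

/-- part of the certificates -/
def L122 : List Prf := [(.br (nat_lit 2) (nat_lit 0) (.cons (.rf (nat_lit 3257) (nat_lit 14242959524133700672)) (.cons (.rf (nat_lit 3298) (nat_lit 14242959524133700672)) (.cons (.rf (nat_lit 3257) (nat_lit 14208022404722295872)) (.cons (.rf (nat_lit 3302) (nat_lit 14242959524133701664)) (.cons (.rf (nat_lit 3302) (nat_lit 14208022404722296864)) (.cons (.br (nat_lit 2) (nat_lit 0) (.cons (.rf (nat_lit 3090) (nat_lit 6028215822752789506)) (.cons (.rf (nat_lit 3298) (nat_lit 14242959524133700672)) (.cons (.rf (nat_lit 3090) (nat_lit 5885226501296862210)) (.cons (.rf (nat_lit 3090) (nat_lit 6164517744835638274)) (.cons (.rf (nat_lit 3090) (nat_lit 6132992408932430850)) .nil)))))) .nil))))))),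
 (.br (nat_lit 2) (nat_lit 0) (.cons (.rf (nat_lit 3257) (nat_lit 14242959524133700672)) (.cons (.rf (nat_lit 3298) (nat_lit 14242959524133700672)) (.cons (.rf (nat_lit 3257) (nat_lit 14208022404722295872)) (.cons (.rf (nat_lit 3302) (nat_lit 14242959524133701664)) (.cons (.rf (nat_lit 3302) (nat_lit 14208022404722296864)) (.cons (.rf (nat_lit 3303) (nat_lit 14242959524133701664)) (.cons (.br (nat_lit 2) (nat_lit 0) (.cons (.rf (nat_lit 3257) (nat_lit 14242959524133700672)) (.cons (.rf (nat_lit 3298) (nat_lit 14242959524133700672)) (.cons (.rf (nat_lit 3257) (nat_lit 14208022404722295872)) (.cons (.rf (nat_lit 3302) (nat_lit 14242959524133701664)) (.cons (.rf (nat_lit 3302) (nat_lit 14208022404722296864)) (.cons (.rf (nat_lit 3303) (nat_lit 14242959524133701664)) .nil))))))) .nil)))))))),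
 (.br (nat_lit 5) (nat_lit 0) (.cons (.ev (nat_lit 310693935857976917878636546) (nat_lit 2)) (.cons (.br (nat_lit 7) (nat_lit 0) (.cons (.ev (nat_lit 79229376162522775265185103873) (nat_lit 1)) (.cons (.br (nat_lit 12) (nat_lit 0) (.cons (.ev (nat_lit 79229371458602753894761103361) (nat_lit 1)) .nil)) .nil))) (.cons (.rf (nat_lit 3298) (nat_lit 14090929087143281057)) .nil)))),
 (.br (nat_lit 2) (nat_lit 0) (.cons (.rf (nat_lit 3090) (nat_lit 6164517744835625986)) (.cons (.rf (nat_lit 3257) (nat_lit 14242959524133700672)) (.cons (.rf (nat_lit 3298) (nat_lit 14242959524133700672)) (.cons (.rf (nat_lit 3257) (nat_lit 14208022404722295872)) (.cons (.rf (nat_lit 3304) (nat_lit 14242959524133700672)) (.cons (.rf (nat_lit 3090) (nat_lit 6164517744835638274)) .nil))))))),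
 (.br (nat_lit 2) (nat_lit 0) (.cons (.kr (nat_lit 281474976710657) (nat_lit 4294967552) (nat_lit 0) (nat_lit 2)) (.cons (.rf (nat_lit 3257) (nat_lit 14242959524133700672)) (.cons (.rf (nat_lit 3090) (nat_lit 14090929087143293954)) (.cons (.rf (nat_lit 3257) (nat_lit 14208022404722295872)) (.cons (.br (nat_lit 1) (nat_lit 0) (.cons (.rf (nat_lit 3257) (nat_lit 14242959524133701664)) (.cons (.rf (nat_lit 3298) (nat_lit 14242959524133701664)) (.cons (.rf (nat_lit 3257) (nat_lit 14208022404722296864)) (.cons (.rf (nat_lit 3306) (nat_lit 14242959524133700672)) (.cons (.br (nat_lit 5) (nat_lit 0) (.cons (.rf (nat_lit 3305) (nat_lit 493858305440582043680)) (.cons (.rf (nat_lit 3305) (nat_lit 493823368321170638880)) (.cons (.br (nat_lit 5) (nat_lit 0) (.cons (.rf (nat_lit 3305) (nat_lit 493858305440582043680)) (.cons (.rf (nat_lit 3305) (nat_lit 493823368321170638880)) (.cons (.rf (nat_lit 3298) (nat_lit 14090929087143281057)) .nil)))) (.cons (.rf (nat_lit 3298) (nat_lit 14090929087143281057)) .nil)))))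 .nil)))))) (.cons (.rf (nat_lit 3090) (nat_lit 6164517744835638274)) .nil))))))),
 (.br (nat_lit 2) (nat_lit 0) (.cons (.rf (nat_lit 3257) (nat_lit 14242959524133700672)) (.cons (.rf (nat_lit 3298) (nat_lit 14242959524133700672)) (.cons (.rf (nat_lit 3257) (nat_lit 14208022404722295872)) (.cons (.rf (nat_lit 3307) (nat_lit 493858305440582042688)) (.cons (.rf (nat_lit 3306) (nat_lit 14242959524133701664)) (.cons (.rf (nat_lit 3307) (nat_lit 493858305440582043680)) .nil))))))),
 (.br (nat_lit 2) (nat_lit 0) (.cons (.kr (nat_lit 281474976710657) (nat_lit 4294967552) (nat_lit 0) (nat_lit 2)) (.cons (.rf (nat_lit 3257) (nat_lit 14242959524133700672)) (.cons (.rf (nat_lit 3298) (nat_lit 14242959524133700672)) (.cons (.rf (nat_lit 3257) (nat_lit 14208022404722295872)) (.cons (.rf (nat_lit 3306) (nat_lit 14242959524133701664)) (.cons (.rf (nat_lit 3306) (nat_lit 14208022404722296864)) (.cons (.br (nat_lit 2) (nat_lit 0) (.cons (.kr (nat_lit 281474976710657) (nat_lit 4294967552) (nat_lit 0) (nat_lit 2))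 (.cons (.rf (nat_lit 3090) (nat_lit 6028215822752789506)) (.cons (.rf (nat_lit 3298) (nat_lit 14242959524133700672)) (.cons (.rf (nat_lit 3090) (nat_lit 5885226501296862210)) (.cons (.rf (nat_lit 3090) (nat_lit 6164517744835638274)) (.cons (.rf (nat_lit 3090) (nat_lit 6132992408932430850)) .nil))))))) .nil)))))))),
 (.br (nat_lit 1) (nat_lit 0) (.cons (.kr (nat_lit 281474976710657) (nat_lit 4294967552) (nat_lit 0) (nat_lit 2)) (.cons (.rf (nat_lit 3257) (nat_lit 14242959524133701664)) (.cons (.rf (nat_lit 3298) (nat_lit 14242959524133701664)) (.cons (.rf (nat_lit 3257) (nat_lit 14208022404722296864)) (.cons (.rf (nat_lit 3306) (nat_lit 14242959524133700672)) (.cons (.br (nat_lit 2) (nat_lit 0) (.cons (.rf (nat_lit 3257) (nat_lit 14242959524133700672)) (.cons (.rf (nat_lit 3298) (nat_lit 14242959524133700672)) (.cons (.rf (nat_lit 3257) (nat_lit 14208022404722295872)) (.cons (.rf (nat_lit 3308) (nat_lit 493858305440582043680)) (.cons (.rf (nat_lit 3308) (nat_lit 493823368321170638880)) (.cons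 (.rf (nat_lit 3309) (nat_lit 14242959524133701664)) (.cons (.br (nat_lit 2) (nat_lit 0) (.cons (.rf (nat_lit 3257) (nat_lit 14242959524133700672)) (.cons (.rf (nat_lit 3298) (nat_lit 14242959524133700672)) (.cons (.rf (nat_lit 3257) (nat_lit 14208022404722295872)) (.cons (.rf (nat_lit 3307) (nat_lit 493858305440582043680)) (.cons (.rf (nat_lit 3307) (nat_lit 493823368321170638880)) (.cons (.rf (nat_lit 3309) (nat_lit 14242959524133701664)) .nil))))))) .nil)))))))) .nil))))))),
 (.br (nat_lit 1) (nat_lit 0) (.cons (.rf (nat_lit 3102) (nat_lit 14242959524133701664)) (.cons (.rf (nat_lit 3257) (nat_lit 14242959524133701664)) (.cons (.rf (nat_lit 3298) (nat_lit 14242959524133701664)) (.cons (.rf (nat_lit 3257) (nat_lit 14208022404722296864)) (.cons (.rf (nat_lit 3310) (nat_lit 14242959524133701664)) (.cons (.rf (nat_lit 3306) (nat_lit 14242959524133700672)) (.cons (.br (nat_lit 1) (nat_lit 0) (.cons (.rf (nat_lit 1943) (nat_lit 428033)) (.cons (.rf (nat_lit 3257) (nat_lit 14242959524133701664)) (.cons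 (.rf (nat_lit 3090) (nat_lit 14090929087143293953)) (.cons (.rf (nat_lit 3257) (nat_lit 14208022404722296864)) (.cons (.rf (nat_lit 3310) (nat_lit 14242959524133701664)) (.cons (.rf (nat_lit 3090) (nat_lit 6164517744835638273)) .nil))))))) .nil)))))))),
 (.br (nat_lit 1) (nat_lit 0) (.cons (.rf (nat_lit 3102) (nat_lit 14242959524133701664)) (.cons (.rf (nat_lit 3257) (nat_lit 14242959524133701664)) (.cons (.rf (nat_lit 3298) (nat_lit 14242959524133701664)) (.cons (.rf (nat_lit 3257) (nat_lit 14208022404722296864)) (.cons (.rf (nat_lit 3311) (nat_lit 14242959524133701664)) (.cons (.rf (nat_lit 3311) (nat_lit 14208022404722296864)) (.cons (.br (nat_lit 1) (nat_lit 0) (.cons (.rf (nat_lit 1943) (nat_lit 428033)) (.cons (.rf (nat_lit 3090) (nat_lit 6028215822752789505)) (.cons (.rf (nat_lit 3298) (nat_lit 14242959524133701664)) (.cons (.rf (nat_lit 3090) (nat_lit 5885226501296862209)) (.cons (.rf (nat_lit 3090) (nat_lit 6164517744835638273)) (.cons (.rf (nat_lit 3090) (nat_lit 6132992408932430849))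 .nil))))))) .nil)))))))),
 (.br (nat_lit 1) (nat_lit 0) (.cons (.rf (nat_lit 3102) (nat_lit 14242959524133701664)) (.cons (.rf (nat_lit 3257) (nat_lit 14242959524133701664)) (.cons (.rf (nat_lit 3298) (nat_lit 14242959524133701664)) (.cons (.rf (nat_lit 3257) (nat_lit 14208022404722296864)) (.cons (.rf (nat_lit 3311) (nat_lit 14242959524133701664)) (.cons (.rf (nat_lit 3311) (nat_lit 14208022404722296864)) (.cons (.rf (nat_lit 3312) (nat_lit 14242959524133701664)) (.cons (.br (nat_lit 1) (nat_lit 0) (.cons (.rf (nat_lit 1943) (nat_lit 428033)) (.cons (.rf (nat_lit 3257) (nat_lit 14242959524133701664)) (.cons (.rf (nat_lit 3298) (nat_lit 14242959524133701664)) (.cons (.rf (nat_lit 3257) (nat_lit 14208022404722296864)) (.cons (.rf (nat_lit 3311) (nat_lit 14242959524133701664)) (.cons (.rf (nat_lit 3311) (nat_lit 14208022404722296864)) (.cons (.rf (nat_lit 3312) (nat_lit 14242959524133701664)) .nil)))))))) .nil))))))))),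
 (.br (nat_lit 1) (nat_lit 0) (.cons (.rf (nat_lit 3090) (nat_lit 14242959524133701633)) (.cons (.rf (nat_lit 3313) (nat_lit 14242959524133701633)) (.cons (.kr (nat_lit 1) (nat_lit 256) (nat_lit 0) (nat_lit 2)) (.cons (.rf (nat_lit 3313) (nat_lit 6028215822752778241)) (.cons (.rf (nat_lit 3090) (nat_lit 6028215822752778241)) (.cons (.rf (nat_lit 1943) (nat_lit 428033)) .nil))))))),
 (.br (nat_lit 7) (nat_lit 0) (.cons (.ev (nat_lit 4740957344339077562881) (nat_lit 2)) (.cons (.ev (nat_lit 18519084242252595456) (nat_lit 1)) (.cons (.kr (nat_lit 158456325028528956666359578625) (nat_lit 36893490346442424320) (nat_lit 0) (nat_lit 1)) (.cons (.br (nat_lit 12) (nat_lit 0) (.cons (.kr (nat_lit 79228162514264337597838917632) (nat_lit 18446745173221179392) (nat_lit 4) (nat_lit 0)) (.cons (.kr (nat_lit 158456325028528675195677835265) (nat_lit 4740813229142378086400) (nat_lit 0) (nat_lit 1)) (.cons (.ev (nat_lit 158456329806379505465971376641) (nat_lit 2)) .nil)))) .nil))))),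
 (.br (nat_lit 5) (nat_lit 0) (.cons (.ev (nat_lit 2417851783628133310332931) (nat_lit 2)) (.cons (.ev (nat_lit 618970019642973824368181251) (nat_lit 2)) (.cons (.ev (nat_lit 18519084242252660736) (nat_lit 1)) (.cons (.br (nat_lit 12) (nat_lit 0) (.cons (.ev (nat_lit 158458742917205789260204147201) (nat_lit 2)) (.cons (.ev (nat_lit 159075295085065134951261995521) (nat_lit 2)) (.cons (.kr (nat_lit 158456325028528956666359578624) (nat_lit 4740813229142378020864) (nat_lit 4) (nat_lit 0)) .nil)))) .nil))))),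
 (.br (nat_lit 5) (nat_lit 0) (.cons (.ev (nat_lit 18519084242252660993) (nat_lit 1)) (.cons (.ev (nat_lit 309489750634573111608016896) (nat_lit 1)) (.cons (.br (nat_lit 7) (nat_lit 0) (.cons (.ev (nat_lit 18518802771570917376) (nat_lit 1)) (.cons (.br (nat_lit 13) (nat_lit 0) (.cons (.br (nat_lit 13) (nat_lit 0) .nil) .nil)) .nil))) (.cons (.br (nat_lit 12) (nat_lit 0) (.cons (.ev (nat_lit 79229376162522492690696831233) (nat_lit 1)) (.cons (.ev (nat_lit 79537647542532426740290027776) (nat_lit 1)) (.cons (.kr (nat_lit 158456325028528956666359578624) (nat_lit 4740813229142378020864) (nat_lit 4) (nat_lit 0)) .nil)))) .nil))))),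
 (.br (nat_lit 2) (nat_lit 0) (.cons (.rf (nat_lit 3313) (nat_lit 14242959524133700610)) (.cons (.rf (nat_lit 3090) (nat_lit 14208022404722295810)) (.cons (.rf (nat_lit 3313) (nat_lit 5885226501296849922)) (.cons (.br (nat_lit 3) (nat_lit 0) (.cons (.rf (nat_lit 3315) (nat_lit 14242959524133701664)) (.cons (.rf (nat_lit 3316) (nat_lit 14242959524133701664)) (.cons (.rf (nat_lit 3317) (nat_lit 14242959524133701664)) (.cons (.rf (nat_lit 3316) (nat_lit 6028215822752778272)) (.cons (.rf (nat_lit 3315) (nat_lit 6028215822752778272)) (.cons (.br (nat_lit 7) (nat_lit 0) (.cons (.rf (nat_lit 3315) (nat_lit 14208022404722294818)) (.cons (.rf (nat_lit 3316) (nat_lit 6164517744835627040)) (.cons (.rf (nat_lit 3317) (nat_lit 14208022404722294818)) (.cons (.rf (nat_lit 3315) (nat_lit 5885226501296848930)) (.cons (.br (nat_lit 5) (nat_lit 0) (.cons (.rf (nat_lit 3315) (nat_lit 14090929087143282720)) (.cons (.rf (nat_lit 3315) (nat_lit 13951351549195550754)) (.cons (.ev (nat_lit 4740957344339077562371) (nat_lit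 2)) (.cons (.br (nat_lit 12) (nat_lit 0) (.cons (.ev (nat_lit 2417851783628133310333441) (nat_lit 2)) (.cons (.ev (nat_lit 618970019642973824368050691) (nat_lit 2)) (.cons (.kr (nat_lit 158456325028528956666359578624) (nat_lit 4740813229142378020864) (nat_lit 4) (nat_lit 0)) .nil)))) .nil))))) .nil)))))) .nil))))))) (.cons (.rf (nat_lit 3090) (nat_lit 5885226501296849922)) (.cons (.rf (nat_lit 1943) (nat_lit 427010)) .nil))))))),
 (.br (nat_lit 1) (nat_lit 0) (.cons (.rf (nat_lit 3090) (nat_lit 14242959524133701633)) (.cons (.rf (nat_lit 3090) (nat_lit 14208022404722296833)) (.cons (.rf (nat_lit 3090) (nat_lit 14090929087143282689)) (.cons (.rf (nat_lit 3090) (nat_lit 13951351549195552769)) (.cons (.br (nat_lit 2) (nat_lit 0) (.cons (.rf (nat_lit 3314) (nat_lit 14242959524133700672)) (.cons (.rf (nat_lit 3099) (nat_lit 14242959524133701664)) (.cons (.rf (nat_lit 3318) (nat_lit 14242959524133701664)) (.cons (.rf (nat_lit 3314) (nat_lit 14090929087143281728)) (.cons (.rf (nat_lit 3318) (nat_lit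 6028215822752778272)) (.cons (.rf (nat_lit 3099) (nat_lit 5885226501296850976)) (.cons (.rf (nat_lit 1943) (nat_lit 427010)) .nil)))))))) (.cons (.rf (nat_lit 1943) (nat_lit 428033)) .nil))))))),
 (.br (nat_lit 1) (nat_lit 0) (.cons (.rf (nat_lit 3313) (nat_lit 14242959524133701633)) (.cons (.rf (nat_lit 3090) (nat_lit 14208022404722296833)) (.cons (.rf (nat_lit 3313) (nat_lit 5885226501296850945)) (.cons (.br (nat_lit 2) (nat_lit 0) (.cons (.rf (nat_lit 3314) (nat_lit 14242959524133700672)) (.cons (.rf (nat_lit 3319) (nat_lit 14242959524133700672)) (.cons (.rf (nat_lit 3314) (nat_lit 14208022404722294849)) (.cons (.rf (nat_lit 3314) (nat_lit 14090929087143281728)) (.cons (.rf (nat_lit 3314) (nat_lit 13951351549195550785)) (.cons (.rf (nat_lit 3319) (nat_lit 6028215822752777280)) (.cons (.rf (nat_lit 1943) (nat_lit 427010)) .nil)))))))) (.cons (.rf (nat_lit 3090) (nat_lit 5885226501296850945)) (.cons (.rf (nat_lit 1943) (nat_lit 428033)) .nil))))))),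
 (.br (nat_lit 1) (nat_lit 0) (.cons (.rf (nat_lit 3314) (nat_lit 14242959524133701664)) (.cons (.rf (nat_lit 3319) (nat_lit 14242959524133701664)) (.cons (.rf (nat_lit 3320) (nat_lit 14242959524133701664)) (.cons (.rf (nat_lit 3314) (nat_lit 14090929087143282720)) (.cons (.rf (nat_lit 3320) (nat_lit 6028215822752778272)) (.cons (.rf (nat_lit 3319) (nat_lit 6028215822752778272)) (.cons (.rf (nat_lit 1943) (nat_lit 428033)) .nil)))))))),
 (.br (nat_lit 1) (nat_lit 0) (.cons (.br (nat_lit 7) (nat_lit 0) (.cons (.br (nat_lit 11) (nat_lit 0) (.cons (.ev (nat_lit 317531624818238072155869415430) (nat_lit 4)) (.cons (.rf (nat_lit 2234) (nat_lit 15066788596614208)) .nil))) (.cons (.ev (nat_lit 18518801667764256769) (nat_lit 1)) (.cons (.rf (nat_lit 2163) (nat_lit 15037168153330752)) .nil)))) (.cons (.br (nat_lit 5) (nat_lit 0) (.cons (.br (nat_lit 11) (nat_lit 0) (.cons (.zr (nat_lit 4840425645222861388121088) (nat_lit 618970075127037559538974726) (nat_lit 10) (nat_lit 0)) (.cons (.rf (nat_lit 2234)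 (nat_lit 15064658292835392)) .nil))) (.cons (.rf (nat_lit 2164) (nat_lit 5888645629984)) (.cons (.rf (nat_lit 2163) (nat_lit 15037099500962880)) .nil)))) (.cons (.br (nat_lit 11) (nat_lit 0) (.cons (.rf (nat_lit 3109) (nat_lit 14239581927492388896)) (.cons (.br (nat_lit 5) (nat_lit 0) (.cons (.ev (nat_lit 1856914800752650162773819904) (nat_lit 4)) (.cons (.rf (nat_lit 2173) (nat_lit 469911469360192)) .nil))) (.cons (.ev (nat_lit 310698658007442567544700929) (nat_lit 1)) (.cons (.rf (nat_lit 2206) (nat_lit 15254087905004815424)) .nil))))) (.cons (.rf (nat_lit 3090) (nat_lit 6028215822752789505)) .nil))))),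
 (.br (nat_lit 1) (nat_lit 0) (.cons (.ev (nat_lit 318769564856944174695247380992) (nat_lit 3)) .nil)),
 (.br (nat_lit 12) (nat_lit 0) (.cons (.rf (nat_lit 3322) (nat_lit 14242959524133701664)) (.cons (.ev (nat_lit 18518801667764256769) (nat_lit 1)) (.cons (.br (nat_lit 11) (nat_lit 0) (.cons (.ev (nat_lit 309489750634573111608016896) (nat_lit 1)) (.cons (.ev (nat_lit 79537647542532427835506688001) (nat_lit 1)) (.cons (.br (nat_lit 13) (nat_lit 0) (.cons (.rf (nat_lit 3323) (nat_lit 493858305440582043680)) (.cons (.br (nat_lit 1) (nat_lit 0) (.cons (.rf (nat_lit 3323) (nat_lit 493858305440582043680)) .nil)) .nil))) .nil)))) (.cons (.br (nat_lit 1) (nat_lit 0) (.cons (.rf (nat_lit 2234) (nat_lit 15029471806817344)) (.cons (.br (nat_lit 1) (nat_lit 0) (.cons (.rf (nat_lit 2234) (nat_lit 15029471806817344)) (.cons (.rf (nat_lit 3313) (nat_lit 6028215822752789505)) .nil))) (.cons (.br (nat_lit 1) (nat_lit 0) (.cons (.ev (nat_lit 79228167255149904705441825025) (nat_lit 1)) (.cons (.rf (nat_lit 3313)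 (nat_lit 6028215822752789505)) .nil))) .nil)))) .nil)))))]

theorem c122 : chkAll C T R L122 (nat_lit 3303) = true := by decide +kernel

theorem l122 : (nat_lit 3303) + L122.length = (nat_lit 3325) := by decide +kernel

/-- part of the certificates -/
def L123 : List Prf := [(.br (nat_lit 1) (nat_lit 0) (.cons (.rf (nat_lit 1943) (nat_lit 428033)) (.cons (.rf (nat_lit 3090) (nat_lit 14242959524133712897)) (.cons (.rf (nat_lit 3313) (nat_lit 14242959524133712897)) (.cons (.rf (nat_lit 3313) (nat_lit 6028215822752789505)) (.cons (.rf (nat_lit 3090) (nat_lit 6028215822752789505)) .nil)))))),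
 (.br (nat_lit 12) (nat_lit 0) (.cons (.rf (nat_lit 3322) (nat_lit 14242959524133701664)) (.cons (.rf (nat_lit 3324) (nat_lit 14242959524133701664)) (.cons (.ev (nat_lit 18518801667764256769) (nat_lit 1)) (.cons (.br (nat_lit 1) (nat_lit 0) (.cons (.br (nat_lit 1) (nat_lit 0) (.cons (.ev (nat_lit 1213666705181745350770688) (nat_lit 1)) (.cons (.ev (nat_lit 310693954087985250880716801) (nat_lit 1)) (.cons (.rf (nat_lit 3090) (nat_lit 14242959524133712897)) .nil)))) (.cons (.br (nat_lit 1) (nat_lit 0) (.cons (.ev (nat_lit 1213666705181745350770688) (nat_lit 1)) (.cons (.ev (nat_lit 310693954087985250880716801) (nat_lit 1)) (.cons (.rf (nat_lit 3313) (nat_lit 14242959524133712897)) .nil)))) (.cons (.ev (nat_lit 310698658007442567544700929) (nat_lit 1)) (.cons (.rf (nat_lit 3325) (nat_lit 493858305440582043680)) .nil))))) .nil))))),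
 (.br (nat_lit 8) (nat_lit 0) (.cons (.rf (nat_lit 3142) (nat_lit 321339996080160)) .nil)),
 (.br (nat_lit 1) (nat_lit 0) (.cons (.ev (nat_lit 4722438541563194835201) (nat_lit 1)) .nil)),
 (.br (nat_lit 12) (nat_lit 0) (.cons (.rf (nat_lit 3328) (nat_lit 14242959524133701664)) (.cons (.br (nat_lit 1) (nat_lit 0) (.cons (.rf (nat_lit 3328) (nat_lit 14242959524133701664)) .nil)) .nil))),
 (.br (nat_lit 1) (nat_lit 0) (.cons (.rf (nat_lit 2334) (nat_lit 470774832007200)) (.cons (.ev (nat_lit 4722438541567506514176) (nat_lit 1)) .nil))),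
 (.br (nat_lit 1) (nat_lit 0) (.cons (.rf (nat_lit 3220) (nat_lit 6029341689372575776)) (.cons (.br (nat_lit 5) (nat_lit 0) (.cons (.zr (nat_lit 18889465931495760723972) (nat_lit 79538856468424381533696098560) (nat_lit 10) (nat_lit 3)) (.cons (.rf (nat_lit 2312) (nat_lit 470770671257632)) .nil))) (.cons (.rf (nat_lit 3090) (nat_lit 6028215822752789505)) .nil)))),
 (.br (nat_lit 1) (nat_lit 0) (.cons (.ev (nat_lit 79538856449905579865931841793) (nat_lit 1)) .nil)),
 (.br (nat_lit 12) (nat_lit 0) (.cons (.rf (nat_lit 3331) (nat_lit 14242959524133701664)) (.cons (.ev (nat_lit 18518801667764256769) (nat_lit 1)) (.cons (.br (nat_lit 13) (nat_lit 0) (.cons (.rf (nat_lit 3332) (nat_lit 493858305440582043680)) (.cons (.br (nat_lit 1) (nat_lit 0) (.cons (.rf (nat_lit 3332) (nat_lit 493858305440582043680)) .nil)) .nil))) .nil)))),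
 (.br (nat_lit 9) (nat_lit 0) (.cons (.rf (nat_lit 2314) (nat_lit 434656303482912)) (.cons (.ev (nat_lit 4722438821938659917824) (nat_lit 1)) .nil))),
 (.br (nat_lit 1) (nat_lit 0) (.cons (.br (nat_lit 7) (nat_lit 0) (.cons (.rf (nat_lit 2312) (nat_lit 470974547986464)) (.cons (.ev (nat_lit 18518801667764256769) (nat_lit 1)) (.cons (.rf (nat_lit 3334) (nat_lit 15433070910038444064)) .nil)))) (.cons (.br (nat_lit 10) (nat_lit 0) (.cons (.ev (nat_lit 1208925891672227507601409) (nat_lit 1)) (.cons (.rf (nat_lit 2314) (nat_lit 470770671257632)) (.cons (.br (nat_lit 5) (nat_lit 0) (.cons (.rf (nat_lit 2341) (nat_lit 470974547986464)) (.cons (.br (nat_lit 12) (nat_lit 0) (.cons (.ev (nat_lit 638167766546993072320756977156) (nat_lit 4)) .nil)) .nil))) .nil)))) (.cons (.br (nat_lit 5) (nat_lit 0) (.cons (.ev (nat_lit 1208925891672227507601409) (nat_lit 1)) (.cons (.rf (nat_lit 2340) (nat_lit 470837243250720)) (.cons (.br (nat_lit 7) (nat_lit 0) (.cons (.ev (nat_lit 18518801667764256769) (nat_lit 1))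 (.cons (.br (nat_lit 12) (nat_lit 0) (.cons (.ev (nat_lit 40723588644119366729249195163650) (nat_lit 2)) .nil)) .nil))) .nil)))) (.cons (.rf (nat_lit 3090) (nat_lit 6028215822752789505)) .nil))))),
 (.br (nat_lit 1) (nat_lit 0) (.cons (.ev (nat_lit 1208925891953698189410304) (nat_lit 1)) (.cons (.br (nat_lit 7) (nat_lit 0) (.cons (.ev (nat_lit 40723588644119366729249195163650) (nat_lit 2)) .nil)) .nil))),
 (.br (nat_lit 12) (nat_lit 0) (.cons (.rf (nat_lit 3335) (nat_lit 493858305440582043680)) (.cons (.ev (nat_lit 18518801667764256769) (nat_lit 1)) (.cons (.rf (nat_lit 3131) (nat_lit 470843646904352)) (.cons (.br (nat_lit 1) (nat_lit 0) (.cons (.br (nat_lit 13) (nat_lit 0) (.cons (.rf (nat_lit 3313) (nat_lit 14242959524133712897)) (.cons (.zr (nat_lit 2417851639230357894725632) (nat_lit 79537647524158021735578337281) (nat_lit 5) (nat_lit 0)) .nil))) (.cons (.rf (nat_lit 3336) (nat_lit 493858305440582043680)) (.cons (.br (nat_lit 1) (nat_lit 0) (.cons (.rf (nat_lit 3313) (nat_lit 14242959524133712897))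 (.cons (.rf (nat_lit 3336) (nat_lit 493858305440582043680)) .nil))) .nil)))) .nil))))),
 (.br (nat_lit 12) (nat_lit 0) (.cons (.rf (nat_lit 3335) (nat_lit 493858305440582043680)) (.cons (.rf (nat_lit 3131) (nat_lit 470843646904352)) (.cons (.ev (nat_lit 18518801667764256769) (nat_lit 1)) (.cons (.br (nat_lit 5) (nat_lit 0) (.cons (.br (nat_lit 1) (nat_lit 0) (.cons (.ev (nat_lit 318150594874049729418210968064) (nat_lit 3)) (.cons (.ev (nat_lit 159694269882414542378542170624) (nat_lit 3)) .nil))) (.cons (.rf (nat_lit 2688) (nat_lit 465517717817376)) (.cons (.br (nat_lit 7) (nat_lit 0) (.cons (.br (nat_lit 1) (nat_lit 0) (.cons (.ev (nat_lit 40564820416247752166210443346435) (nat_lit 2)) .nil)) (.cons (.ev (nat_lit 40723276755424932703711145426945) (nat_lit 2)) .nil))) .nil)))) .nil))))),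
 (.br (nat_lit 11) (nat_lit 0) (.cons (.zr (nat_lit 79230580365903570150461932032) (nat_lit 928455029680489467559804931) (nat_lit 5) (nat_lit 0)) (.cons (.rf (nat_lit 3142) (nat_lit 465484601460768)) .nil))),
 (.br (nat_lit 1) (nat_lit 0) (.cons (.br (nat_lit 11) (nat_lit 0) (.cons (.ev (nat_lit 159080135529590294083029435910) (nat_lit 3)) (.cons (.rf (nat_lit 2367) (nat_lit 470974547986464)) .nil))) (.cons (.kr (nat_lit 158456325028528956666359578624) (nat_lit 4740813229142378020864) (nat_lit 4) (nat_lit 0)) (.cons (.rf (nat_lit 2330) (nat_lit 15029471813928992)) .nil)))),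
 (.br (nat_lit 1) (nat_lit 0) (.cons (.rf (nat_lit 3340) (nat_lit 14242959524133701664)) (.cons (.br (nat_lit 5) (nat_lit 0) (.cons (.ev (nat_lit 160318075642374420293795185158) (nat_lit 3)) (.cons (.rf (nat_lit 2312) (nat_lit 469676394121248)) .nil))) (.cons (.rf (nat_lit 3313) (nat_lit 6028215822752789505)) .nil)))),
 (.br (nat_lit 11) (nat_lit 0) (.cons (.ev (nat_lit 618974760890237380867655170) (nat_lit 3)) (.cons (.rf (nat_lit 3142) (nat_lit 463285580302368)) .nil))),
 (.br (nat_lit 13) (nat_lit 0) (.cons (.rf (nat_lit 226) (nat_lit 196253584450852566048)) .nil)),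
 (.br (nat_lit 1) (nat_lit 0) (.cons (.rf (nat_lit 3313) (nat_lit 6028215822752789505)) (.cons (.ev (nat_lit 18519084242252595456) (nat_lit 1)) .nil))),
 (.br (nat_lit 11) (nat_lit 0) (.cons (.ev (nat_lit 309485009821626543718268929) (nat_lit 1)) (.cons (.kr (nat_lit 309489732259885532407922689) (nat_lit 158456325028528675191382868224) (nat_lit 0) (nat_lit 2)) (.cons (.ev (nat_lit 309485009821626543718269184) (nat_lit 1)) .nil)))),
 (.br (nat_lit 11) (nat_lit 0) (.cons (.ev (nat_lit 309485009821626543718269184) (nat_lit 1)) (.cons (.ev (nat_lit 310698658007442567544701184) (nat_lit 1)) .nil))),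
 (.br (nat_lit 1) (nat_lit 0) (.cons (.ev (nat_lit 18518802771570917633) (nat_lit 1)) (.cons (.br (nat_lit 11) (nat_lit 0) (.cons (.rf (nat_lit 3345) (nat_lit 493858305440582043680)) (.cons (.rf (nat_lit 3345) (nat_lit 485779863661283969056)) (.cons (.rf (nat_lit 3346) (nat_lit 493858305440582043680)) .nil)))) (.cons (.rf (nat_lit 3313) (nat_lit 6028215822752789505)) (.cons (.rf (nat_lit 3090) (nat_lit 6028215822752789505)) .nil))))),
 (.br (nat_lit 13) (nat_lit 0) (.cons (.rf (nat_lit 3347) (nat_lit 493858305440582043680)) (.cons (.br (nat_lit 11) (nat_lit 0) (.cons (.br (nat_lit 1) (nat_lit 0) (.cons (.ev (nat_lit 18519084242252595456) (nat_lit 1)) .nil)) (.cons (.zr (nat_lit 20441175413690092501809986797568) (nat_lit 14167099733382447235072) (nat_lit 5) (nat_lit 7)) .nil))) (.cons (.kr (nat_lit 158456325028528956666359578624) (nat_lit 4740813229142378020864) (nat_lit 4) (nat_lit 0)) .nil)))),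
 (.br (nat_lit 13) (nat_lit 0) (.cons (.rf (nat_lit 3347) (nat_lit 493858305440582043680)) (.cons (.rf (nat_lit 3348) (nat_lit 493858305440582043680)) (.cons (.br (nat_lit 13) (nat_lit 0) (.cons (.rf (nat_lit 3347) (nat_lit 493858305440582043680)) (.cons (.rf (nat_lit 3348) (nat_lit 493858305440582043680)) (.cons (.kr (nat_lit 158456325028528956666359578624) (nat_lit 4740813229142378020864) (nat_lit 4) (nat_lit 0)) .nil)))) (.cons (.kr (nat_lit 158456325028528956666359578624) (nat_lit 4740813229142378020864) (nat_lit 4) (nat_lit 0)) .nil))))),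
 (.br (nat_lit 13) (nat_lit 0) (.cons (.rf (nat_lit 3347) (nat_lit 493858305440582043680)) (.cons (.rf (nat_lit 3349) (nat_lit 493858305440582043680)) (.cons (.br (nat_lit 5) (nat_lit 0) (.cons (.br (nat_lit 1) (nat_lit 0) (.cons (.ev (nat_lit 1213666704900266079027456) (nat_lit 1)) .nil)) (.cons (.zr (nat_lit 20282719098106296794548327677952) (nat_lit 237684487542793294264198496256) (nat_lit 5) (nat_lit 11)) .nil))) .nil)))),
 (.br (nat_lit 13) (nat_lit 0) (.cons (.rf (nat_lit 3347) (nat_lit 493858305440582043680)) (.cons (.rf (nat_lit 3349) (nat_lit 493858305440582043680)) (.cons (.rf (nat_lit 3350) (nat_lit 493858305440582043680)) (.cons (.br (nat_lit 13) (nat_lit 0) (.cons (.rf (nat_lit 3347) (nat_lit 493858305440582043680)) (.cons (.kr (nat_lit 158456325028528956666359578624) (nat_lit 4740813229142378020864) (nat_lit 4) (nat_lit 0)) (.cons (.rf (nat_lit 3350) (nat_lit 493858305440582043680)) .nil)))) .nil))))),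
 (.br (nat_lit 13) (nat_lit 0) (.cons (.rf (nat_lit 3347) (nat_lit 493858305440582043680)) (.cons (.rf (nat_lit 3349) (nat_lit 493858305440582043680)) (.cons (.rf (nat_lit 3351) (nat_lit 493858305440582043680)) (.cons (.br (nat_lit 13) (nat_lit 0) (.cons (.rf (nat_lit 3347) (nat_lit 493858305440582043680)) (.cons (.kr (nat_lit 158456325028528956666359578624) (nat_lit 4740813229142378020864) (nat_lit 4) (nat_lit 0)) (.cons (.rf (nat_lit 3351) (nat_lit 493858305440582043680)) .nil)))) .nil))))),
 (.br (nat_lit 2) (nat_lit 0) (.cons (.rf (nat_lit 3090) (nat_lit 14208022404722295810)) (.cons (.br (nat_lit 12) (nat_lit 0) (.cons (.rf (nat_lit 3322) (nat_lit 14242959524133701664)) (.cons (.rf (nat_lit 3324) (nat_lit 14242959524133701664)) (.cons (.ev (nat_lit 18518801667764256769) (nat_lit 1)) (.cons (.rf (nat_lit 3326) (nat_lit 14242959524133701664)) (.cons (.br (nat_lit 12) (nat_lit 0) (.cons (.rf (nat_lit 3322) (nat_lit 14242959524133701664)) (.cons (.rf (nat_lit 3324) (nat_lit 14242959524133701664))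 (.cons (.ev (nat_lit 18518801667764256769) (nat_lit 1)) (.cons (.rf (nat_lit 3326) (nat_lit 14242959524133701664)) .nil))))) .nil)))))) (.cons (.br (nat_lit 11) (nat_lit 0) (.cons (.ev (nat_lit 309489750634853487073099776) (nat_lit 1)) (.cons (.ev (nat_lit 309485009821626543718268929) (nat_lit 1)) (.cons (.br (nat_lit 5) (nat_lit 0) (.cons (.br (nat_lit 1) (nat_lit 0) (.cons (.rf (nat_lit 3327) (nat_lit 13583074297888)) (.cons (.ev (nat_lit 18518802771570917633) (nat_lit 1)) (.cons (.rf (nat_lit 2336) (nat_lit 470774832007200)) .nil)))) (.cons (.zr (nat_lit 618970148914295346533892098) (nat_lit 2450908204618141992484864) (nat_lit 20) (nat_lit 7)) (.cons (.br (nat_lit 10) (nat_lit 0) (.cons (.br (nat_lit 1) (nat_lit 0) (.cons (.ev (nat_lit 1110441891608582167463851853316) (nat_lit 4)) (.cons (.br (nat_lit 13) (nat_lit 0) (.cons (.ev (nat_lit 79537647561340027227456145157) (nat_lit 3)) .nil)) .nil))) (.cons (.ev (nat_lit 79537647542532708210971770881) (nat_lit 1)) (.cons (.rf (nat_lit 3329) (nat_lit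 15433070910038444064)) .nil)))) (.cons (.br (nat_lit 12) (nat_lit 0) (.cons (.rf (nat_lit 3330) (nat_lit 493858305440582043680)) (.cons (.rf (nat_lit 2688) (nat_lit 469909388986400)) (.cons (.br (nat_lit 12) (nat_lit 0) (.cons (.rf (nat_lit 3330) (nat_lit 493858305440582043680)) (.cons (.rf (nat_lit 2688) (nat_lit 469909388986400)) .nil))) .nil)))) .nil))))) (.cons (.br (nat_lit 12) (nat_lit 0) (.cons (.rf (nat_lit 3331) (nat_lit 14242959524133701664)) (.cons (.rf (nat_lit 3333) (nat_lit 14242959524133701664)) (.cons (.ev (nat_lit 18518801667764256769) (nat_lit 1)) (.cons (.br (nat_lit 12) (nat_lit 0) (.cons (.rf (nat_lit 3331) (nat_lit 14242959524133701664)) (.cons (.rf (nat_lit 3333) (nat_lit 14242959524133701664)) (.cons (.ev (nat_lit 18518801667764256769) (nat_lit 1)) .nil)))) .nil))))) (.cons (.br (nat_lit 10) (nat_lit 0) (.cons (.ev (nat_lit 310693954087985250880716801) (nat_lit 1)) (.cons (.ev (nat_lit 310698658007724046816444416) (nat_lit 1)) (.cons (.br (nat_lit 1) (nat_lit 0) (.cons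 (.br (nat_lit 1) (nat_lit 0) (.cons (.ev (nat_lit 796614420279642491127828187146) (nat_lit 4)) (.cons (.rf (nat_lit 2330) (nat_lit 15064658299947040)) .nil))) (.cons (.br (nat_lit 1) (nat_lit 0) (.cons (.ev (nat_lit 796614420279642491127828187146) (nat_lit 4)) (.cons (.rf (nat_lit 2332) (nat_lit 470976628361248)) .nil))) (.cons (.br (nat_lit 1) (nat_lit 0) (.cons (.rf (nat_lit 2330) (nat_lit 15064658299947040)) (.cons (.rf (nat_lit 2332) (nat_lit 470976628361248)) .nil))) .nil)))) (.cons (.kr (nat_lit 158456325028528675191382867968) (nat_lit 4740813508418331475968) (nat_lit 4) (nat_lit 0)) (.cons (.br (nat_lit 7) (nat_lit 0) (.cons (.br (nat_lit 1) (nat_lit 0) (.cons (.rf (nat_lit 2671) (nat_lit 15066994553718816)) (.cons (.ev (nat_lit 158765824205665923130462372355) (nat_lit 2)) (.cons (.rf (nat_lit 3313) (nat_lit 14242959524133712897)) .nil)))) (.cons (.kr (nat_lit 309485009893402667057676288) (nat_lit 4722366485068668469248) (nat_lit 4) (nat_lit 0)) (.cons (.ev (nat_lit 18518801667764256769)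 (nat_lit 1)) (.cons (.ev (nat_lit 1213666704899170862432256) (nat_lit 1)) .nil))))) .nil)))))) (.cons (.br (nat_lit 12) (nat_lit 0) (.cons (.rf (nat_lit 3335) (nat_lit 493858305440582043680)) (.cons (.rf (nat_lit 3337) (nat_lit 493858305440582043680)) (.cons (.ev (nat_lit 18518801667764256769) (nat_lit 1)) (.cons (.rf (nat_lit 3338) (nat_lit 493858305440582043680)) (.cons (.br (nat_lit 12) (nat_lit 0) (.cons (.rf (nat_lit 3335) (nat_lit 493858305440582043680)) (.cons (.rf (nat_lit 3337) (nat_lit 493858305440582043680)) (.cons (.ev (nat_lit 18518801667764256769) (nat_lit 1)) (.cons (.rf (nat_lit 3338) (nat_lit 493858305440582043680)) .nil))))) .nil)))))) .nil))))))) (.cons (.br (nat_lit 7) (nat_lit 0) (.cons (.br (nat_lit 1) (nat_lit 0) (.cons (.rf (nat_lit 3140) (nat_lit 14239581927492388896)) (.cons (.br (nat_lit 11) (nat_lit 0) (.cons (.rf (nat_lit 3339) (nat_lit 14242959524133701664)) (.cons (.rf (nat_lit 3339) (nat_lit 6164517744835627040)) (.cons (.rf (nat_lit 3142) (nat_lit 465484601460768))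 .nil)))) (.cons (.br (nat_lit 5) (nat_lit 0) (.cons (.ev (nat_lit 1208925891672227507601409) (nat_lit 1)) (.cons (.br (nat_lit 10) (nat_lit 0) (.cons (.zr (nat_lit 70835497243117692649486) (nat_lit 1242775871980128705783792128) (nat_lit 40) (nat_lit 3)) (.cons (.rf (nat_lit 2341) (nat_lit 469909396097056)) .nil))) (.cons (.ev (nat_lit 79228162514336676666870399233) (nat_lit 1)) (.cons (.br (nat_lit 12) (nat_lit 0) (.cons (.rf (nat_lit 2312) (nat_lit 469671193184288)) (.cons (.ev (nat_lit 79847146701007320777777873665) (nat_lit 2)) (.cons (.kr (nat_lit 158456325028528956666359578624) (nat_lit 4740813229142378020864) (nat_lit 4) (nat_lit 0)) .nil)))) .nil))))) (.cons (.ev (nat_lit 79228167255149903610225099008) (nat_lit 1)) (.cons (.rf (nat_lit 3313) (nat_lit 14242959524133712897)) .nil)))))) (.cons (.br (nat_lit 1) (nat_lit 0) (.cons (.ev (nat_lit 1208925891672227507601409) (nat_lit 1)) (.cons (.br (nat_lit 1) (nat_lit 0) (.cons (.ev (nat_lit 1208925891672227507601409) (nat_lit 1)) (.cons (.ev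 (nat_lit 79228167255149904705441824768) (nat_lit 1)) (.cons (.rf (nat_lit 3313) (nat_lit 6028215822752789505)) .nil)))) (.cons (.ev (nat_lit 79228167255149904705441824768) (nat_lit 1)) (.cons (.br (nat_lit 1) (nat_lit 0) (.cons (.ev (nat_lit 1208925891672227507601409) (nat_lit 1)) (.cons (.rf (nat_lit 3313) (nat_lit 6028215822752789505)) (.cons (.ev (nat_lit 79228162514336396291405316096) (nat_lit 1)) .nil)))) .nil))))) (.cons (.br (nat_lit 1) (nat_lit 0) (.cons (.rf (nat_lit 3340) (nat_lit 14242959524133701664)) (.cons (.rf (nat_lit 3341) (nat_lit 14242959524133701664)) (.cons (.br (nat_lit 1) (nat_lit 0) (.cons (.kr (nat_lit 158456325028528956666359578624) (nat_lit 4740813229142378020864) (nat_lit 4) (nat_lit 0)) (.cons (.rf (nat_lit 3341) (nat_lit 14242959524133701664)) (.cons (.rf (nat_lit 2330) (nat_lit 15037168160442400)) .nil)))) (.cons (.br (nat_lit 1) (nat_lit 0) (.cons (.rf (nat_lit 2330) (nat_lit 15029471813928992)) (.cons (.rf (nat_lit 3313) (nat_lit 6028215822752789505)) (.cons (.rf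 (nat_lit 2330) (nat_lit 15037168160442400)) .nil)))) .nil))))) (.cons (.br (nat_lit 10) (nat_lit 0) (.cons (.br (nat_lit 1) (nat_lit 0) (.cons (.rf (nat_lit 3342) (nat_lit 14242959524133701664)) (.cons (.br (nat_lit 5) (nat_lit 0) (.cons (.ev (nat_lit 1856914800753771664634154500) (nat_lit 4)) (.cons (.rf (nat_lit 2340) (nat_lit 469911476471840)) .nil))) (.cons (.rf (nat_lit 3342) (nat_lit 6164517744835627040)) (.cons (.br (nat_lit 11) (nat_lit 0) (.cons (.rf (nat_lit 2423) (nat_lit 465517724928032)) (.cons (.rf (nat_lit 2423) (nat_lit 470774832007200)) (.cons (.br (nat_lit 5) (nat_lit 0) (.cons (.ev (nat_lit 79537647561340027227456145157) (nat_lit 3)) (.cons (.br (nat_lit 12) (nat_lit 0) (.cons (.zr (nat_lit 1237944780386857385614901282) (nat_lit 20282416857206590363556573680896) (nat_lit 55) (nat_lit 2)) .nil)) .nil))) .nil)))) .nil))))) (.cons (.br (nat_lit 1) (nat_lit 0) (.cons (.br (nat_lit 1) (nat_lit 0) (.cons (.ev (nat_lit 1856914800750950317797279754) (nat_lit 4)) (.cons (.rf (nat_lit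 2332) (nat_lit 469737765177376)) .nil))) (.cons (.br (nat_lit 1) (nat_lit 0) (.cons (.ev (nat_lit 1856914800750950317797279754) (nat_lit 4)) (.cons (.rf (nat_lit 2330) (nat_lit 15037099508074528)) .nil))) (.cons (.br (nat_lit 1) (nat_lit 0) (.cons (.rf (nat_lit 2332) (nat_lit 469737765177376)) (.cons (.rf (nat_lit 2330) (nat_lit 15037099508074528)) .nil))) .nil)))) (.cons (.br (nat_lit 5) (nat_lit 0) (.cons (.br (nat_lit 1) (nat_lit 0) (.cons (.zr (nat_lit 1237940058020354733350323200) (nat_lit 1227815286392731725791233) (nat_lit 10) (nat_lit 7)) (.cons (.rf (nat_lit 2343) (nat_lit 469911476471840)) .nil))) (.cons (.ev (nat_lit 79537647542532708210971770881) (nat_lit 1)) (.cons (.rf (nat_lit 3131) (nat_lit 469909493614624)) .nil)))) (.cons (.ev (nat_lit 1208925891953698189410304) (nat_lit 1)) (.cons (.br (nat_lit 5) (nat_lit 0) (.cons (.br (nat_lit 1) (nat_lit 0) (.cons (.ev (nat_lit 18518802771570917633) (nat_lit 1)) (.cons (.kr (nat_lit 158456325028528956666359578624) (nat_lit 4740813229142378020864)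 (nat_lit 4) (nat_lit 0)) (.cons (.ev (nat_lit 1208925891954801995940096) (nat_lit 1)) .nil)))) (.cons (.br (nat_lit 13) (nat_lit 0) (.cons (.rf (nat_lit 3343) (nat_lit 493858305440582043680)) (.cons (.br (nat_lit 1) (nat_lit 0) (.cons (.rf (nat_lit 226) (nat_lit 196253584450852566048)) .nil)) .nil))) (.cons (.rf (nat_lit 3329) (nat_lit 15398165747398182944)) (.cons (.br (nat_lit 13) (nat_lit 0) (.cons (.rf (nat_lit 3344) (nat_lit 493858305440582043680)) (.cons (.br (nat_lit 13) (nat_lit 0) (.cons (.rf (nat_lit 3344) (nat_lit 493858305440582043680)) (.cons (.kr (nat_lit 158456325028528956666359578624) (nat_lit 4740813229142378020864) (nat_lit 4) (nat_lit 0)) .nil))) (.cons (.kr (nat_lit 158456325028528956666359578624) (nat_lit 4740813229142378020864) (nat_lit 4) (nat_lit 0)) .nil)))) .nil))))) .nil)))))) (.cons (.ev (nat_lit 18518801667764256769) (nat_lit 1)) (.cons (.br (nat_lit 13) (nat_lit 0) (.cons (.rf (nat_lit 3347) (nat_lit 493858305440582043680)) (.cons (.rf (nat_lit 3349) (nat_lit 493858305440582043680))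 (.cons (.rf (nat_lit 3351) (nat_lit 493858305440582043680)) (.cons (.rf (nat_lit 3352) (nat_lit 493858305440582043680)) (.cons (.br (nat_lit 13) (nat_lit 0) (.cons (.rf (nat_lit 3347) (nat_lit 493858305440582043680)) (.cons (.kr (nat_lit 158456325028528956666359578624) (nat_lit 4740813229142378020864) (nat_lit 4) (nat_lit 0)) (.cons (.rf (nat_lit 3351) (nat_lit 493858305440582043680)) (.cons (.rf (nat_lit 3352) (nat_lit 493858305440582043680)) .nil))))) .nil)))))) .nil))))))) (.cons (.rf (nat_lit 3090) (nat_lit 14208022404722308098)) .nil))))))]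

theorem c123 : chkAll C T R L123 (nat_lit 3325) = true := by decide +kernel

theorem l123 : (nat_lit 3325) + L123.length = (nat_lit 3354) := by decide +kernel

/-- part of the certificates -/
def L124 : List Prf := [(.br (nat_lit 1) (nat_lit 0) (.cons (.br (nat_lit 7) (nat_lit 0) (.cons (.rf (nat_lit 2164) (nat_lit 12514639317024)) (.cons (.ev (nat_lit 18519083147036000513) (nat_lit 1)) (.cons (.rf (nat_lit 2163) (nat_lit 15071255168387104)) .nil)))) (.cons (.ev (nat_lit 309489750634854590879629568) (nat_lit 1)) (.cons (.br (nat_lit 11) (nat_lit 0) (.cons (.ev (nat_lit 310693954087703771609104641) (nat_lit 1)) (.cons (.rf (nat_lit 2164) (nat_lit 12348209334304)) (.cons (.rf (nat_lit 2163) (nat_lit 14896565956445248)) .nil)))) (.cons (.rf (nat_lit 3090) (nat_lit 14242959524133712897)) .nil))))),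
 (.br (nat_lit 1) (nat_lit 0) (.cons (.rf (nat_lit 3354) (nat_lit 14242959524133701664)) (.cons (.br (nat_lit 5) (nat_lit 0) (.cons (.ev (nat_lit 1208925891672227507601409) (nat_lit 1)) (.cons (.br (nat_lit 7) (nat_lit 0) (.cons (.ev (nat_lit 796624091538629391814453102086) (nat_lit 4)) (.cons (.rf (nat_lit 2163) (nat_lit 15064658299947040)) .nil))) (.cons (.rf (nat_lit 2163) (nat_lit 15066788596614208)) .nil)))) (.cons (.rf (nat_lit 3353) (nat_lit 6164517744835626048)) (.cons (.rf (nat_lit 3313) (nat_lit 14242959524133712897)) .nil))))),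
 (.br (nat_lit 1) (nat_lit 0) (.cons (.ev (nat_lit 309489750634854590879629568) (nat_lit 1)) (.cons (.rf (nat_lit 3355) (nat_lit 14242959524133701664)) (.cons (.br (nat_lit 5) (nat_lit 0) (.cons (.br (nat_lit 7) (nat_lit 0) (.cons (.zr (nat_lit 4835721725202594770715648) (nat_lit 618984186887098359391191046) (nat_lit 10) (nat_lit 0)) (.cons (.rf (nat_lit 2234) (nat_lit 15064795597571136)) .nil))) (.cons (.rf (nat_lit 2164) (nat_lit 5751340894240)) (.cons (.rf (nat_lit 2163) (nat_lit 14896359999341632)) .nil)))) (.cons (.rf (nat_lit 3313) (nat_lit 6028215822752789505)) .nil))))),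
 (.br (nat_lit 1) (nat_lit 0) (.cons (.rf (nat_lit 3354) (nat_lit 14242959524133701664)) (.cons (.rf (nat_lit 3355) (nat_lit 14242959524133701664)) (.cons (.rf (nat_lit 3356) (nat_lit 14242959524133701664)) (.cons (.br (nat_lit 1) (nat_lit 0) (.cons (.rf (nat_lit 3354) (nat_lit 14242959524133701664)) (.cons (.rf (nat_lit 3353) (nat_lit 6164517744835626048)) (.cons (.rf (nat_lit 3356) (nat_lit 14242959524133701664)) (.cons (.rf (nat_lit 3090) (nat_lit 6028215822752789505)) .nil))))) (.cons (.rf (nat_lit 3325) (nat_lit 493858305440582043680)) .nil)))))),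
 (.br (nat_lit 1) (nat_lit 0) (.cons (.rf (nat_lit 3357) (nat_lit 14090929087143281728)) (.cons (.rf (nat_lit 3353) (nat_lit 14090929087143281728)) (.cons (.kr (nat_lit 158456325028528956666359578624) (nat_lit 4740813229142378020864) (nat_lit 4) (nat_lit 0)) (.cons (.rf (nat_lit 3090) (nat_lit 14242959524133712897)) .nil))))),
 (.br (nat_lit 1) (nat_lit 0) (.cons (.rf (nat_lit 3357) (nat_lit 14090929087143281728)) (.cons (.br (nat_lit 5) (nat_lit 0) (.cons (.ev (nat_lit 18519083147036000513) (nat_lit 1)) (.cons (.br (nat_lit 7) (nat_lit 0) (.cons (.ev (nat_lit 309485028484545598581637122) (nat_lit 2)) (.cons (.rf (nat_lit 2173) (nat_lit 463318768781344)) .nil))) (.cons (.zr (nat_lit 2417851639229258383163648) (nat_lit 79228162532711364241741840387) (nat_lit 5) (nat_lit 0)) (.cons (.br (nat_lit 12) (nat_lit 0) (.cons (.rf (nat_lit 2173) (nat_lit 465484431819840)) (.cons (.ev (nat_lit 309489750634853487073100033) (nat_lit 1)) (.cons (.kr (nat_lit 158456325028528956666359578624) (nat_lit 4740813229142378020864)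 (nat_lit 4) (nat_lit 0)) .nil)))) .nil))))) (.cons (.rf (nat_lit 3353) (nat_lit 6164517744835626048)) (.cons (.rf (nat_lit 3313) (nat_lit 14242959524133712897)) .nil))))),
 (.br (nat_lit 2) (nat_lit 0) (.cons (.rf (nat_lit 3090) (nat_lit 14090929087143281666)) (.cons (.rf (nat_lit 3353) (nat_lit 14242959524133701664)) (.cons (.rf (nat_lit 3357) (nat_lit 14242959524133701664)) (.cons (.br (nat_lit 1) (nat_lit 0) (.cons (.rf (nat_lit 3358) (nat_lit 14242959524133701664)) (.cons (.rf (nat_lit 3359) (nat_lit 14242959524133701664)) (.cons (.rf (nat_lit 3359) (nat_lit 6028215822752778272)) (.cons (.rf (nat_lit 3358) (nat_lit 6028215822752778272)) (.cons (.rf (nat_lit 3325) (nat_lit 493858305440582043680)) .nil)))))) (.cons (.rf (nat_lit 3090) (nat_lit 14090929087143293954)) .nil)))))),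
 (.br (nat_lit 7) (nat_lit 0) (.cons (.ev (nat_lit 1208925891672227507601664) (nat_lit 1)) (.cons (.br (nat_lit 13) (nat_lit 0) (.cons (.rf (nat_lit 3090) (nat_lit 14208022404722296877)) (.cons (.br (nat_lit 5) (nat_lit 0) (.cons (.ev (nat_lit 81130259807329890500979196166148) (nat_lit 3)) .nil)) (.cons (.rf (nat_lit 3090) (nat_lit 5885226501296850989)) .nil)))) (.cons (.ev (nat_lit 18518801667764257024) (nat_lit 1)) .nil)))),
 (.br (nat_lit 1) (nat_lit 0) (.cons (.rf (nat_lit 3090) (nat_lit 14242959524133712897)) (.cons (.rf (nat_lit 3313) (nat_lit 14242959524133712897)) (.cons (.br (nat_lit 13) (nat_lit 0) (.cons (.rf (nat_lit 3099) (nat_lit 14242959524133712961)) (.cons (.rf (nat_lit 3361) (nat_lit 493858305440582043680)) (.cons (.rf (nat_lit 3361) (nat_lit 485643561739201120288)) (.cons (.rf (nat_lit 3099) (nat_lit 5885226501296862273)) .nil))))) (.cons (.rf (nat_lit 3313) (nat_lit 6028215822752789505)) (.cons (.rf (nat_lit 3090) (nat_lit 6028215822752789505)) .nil)))))),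
 (.br (nat_lit 1) (nat_lit 0) (.cons (.br (nat_lit 11) (nat_lit 0) (.cons (.ev (nat_lit 79538856449905298395250032896) (nat_lit 1)) .nil)) (.cons (.br (nat_lit 10) (nat_lit 0) (.cons (.ev (nat_lit 79538856449905298395250032896) (nat_lit 1)) .nil)) (.cons (.br (nat_lit 10) (nat_lit 0) (.cons (.ev (nat_lit 79538856449905298395250032896) (nat_lit 1)) .nil)) .nil)))),
 (.br (nat_lit 1) (nat_lit 0) (.cons (.rf (nat_lit 3363) (nat_lit 493858305440582043680)) (.cons (.rf (nat_lit 3363) (nat_lit 493706275003591624736)) (.cons (.br (nat_lit 7) (nat_lit 0) (.cons (.ev (nat_lit 81131502583072166109394575032320) (nat_lit 3)) .nil)) .nil)))),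
 (.br (nat_lit 7) (nat_lit 0) (.cons (.ev (nat_lit 4722438821938659918081) (nat_lit 1)) .nil)),
 (.br (nat_lit 13) (nat_lit 0) (.cons (.rf (nat_lit 3090) (nat_lit 14208022404722296877)) (.cons (.br (nat_lit 7) (nat_lit 0) (.cons (.br (nat_lit 11) (nat_lit 0) (.cons (.br (nat_lit 11) (nat_lit 0) (.cons (.ev (nat_lit 79849550403993003270665666817) (nat_lit 2)) .nil)) (.cons (.br (nat_lit 1) (nat_lit 0) (.cons (.ev (nat_lit 79849550403993003270665666817) (nat_lit 2)) .nil)) .nil))) (.cons (.br (nat_lit 11) (nat_lit 0) (.cons (.br (nat_lit 1) (nat_lit 0) (.cons (.ev (nat_lit 81129640837273500689725234482186) (nat_lit 4)) .nil)) (.cons (.zr (nat_lit 20361947251175828164212147879936) (nat_lit 9444733249413290393600) (nat_lit 5) (nat_lit 7)) .nil))) (.cons (.rf (nat_lit 2751) (nat_lit 47389936583074)) .nil)))) (.cons (.br (nat_lit 1) (nat_lit 0) (.cons (.rf (nat_lit 3363) (nat_lit 493858305440582043680)) (.cons (.rf (nat_lit 3364) (nat_lit 493858305440582043680)) (.cons (.br (nat_lit 1) (nat_lit 0)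 (.cons (.rf (nat_lit 3363) (nat_lit 493858305440582043680)) (.cons (.rf (nat_lit 3363) (nat_lit 493706275003591624736)) (.cons (.rf (nat_lit 3365) (nat_lit 15433070910038444064)) .nil)))) (.cons (.br (nat_lit 1) (nat_lit 0) (.cons (.rf (nat_lit 3363) (nat_lit 493858305440582043680)) (.cons (.rf (nat_lit 3364) (nat_lit 493858305440582043680)) (.cons (.rf (nat_lit 3365) (nat_lit 15433070910038444064)) .nil)))) .nil))))) (.cons (.kr (nat_lit 158456325028528956666359578624) (nat_lit 4740813229142378020864) (nat_lit 4) (nat_lit 0)) .nil))))),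
 (.br (nat_lit 13) (nat_lit 0) (.cons (.rf (nat_lit 3090) (nat_lit 14090929087143282733)) (.cons (.rf (nat_lit 3366) (nat_lit 493858305440582043680)) (.cons (.br (nat_lit 11) (nat_lit 0) (.cons (.br (nat_lit 7) (nat_lit 0) (.cons (.br (nat_lit 7) (nat_lit 0) (.cons (.ev (nat_lit 40644669966614707566145580499200) (nat_lit 2)) .nil)) (.cons (.br (nat_lit 1) (nat_lit 0) (.cons (.ev (nat_lit 40644669966614707566145580499200) (nat_lit 2)) .nil)) .nil))) (.cons (.br (nat_lit 7) (nat_lit 0) (.cons (.br (nat_lit 1) (nat_lit 0) (.cons (.ev (nat_lit 81763466137535187100059541834762) (nat_lit 4)) .nil)) (.cons (.zr (nat_lit 20361947251175828164212147879936) (nat_lit 9444733249413290393600) (nat_lit 5) (nat_lit 7)) .nil))) (.cons (.rf (nat_lit 2751) (nat_lit 42996185039266)) .nil)))) (.cons (.kr (nat_lit 158456325028528956666359578624) (nat_lit 4740813229142378020864) (nat_lit 4) (nat_lit 0)) .nil))))),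
 (.br (nat_lit 13) (nat_lit 0) (.cons (.rf (nat_lit 3099) (nat_lit 14242959524133712961)) (.cons (.rf (nat_lit 3366) (nat_lit 493858305440582043680)) (.cons (.rf (nat_lit 3367) (nat_lit 493858305440582043680)) (.cons (.br (nat_lit 13) (nat_lit 0) (.cons (.rf (nat_lit 3090) (nat_lit 13951351549195552813)) (.cons (.rf (nat_lit 3366) (nat_lit 493858305440582043680)) (.cons (.rf (nat_lit 3367) (nat_lit 493858305440582043680)) (.cons (.kr (nat_lit 158456325028528956666359578624) (nat_lit 4740813229142378020864) (nat_lit 4) (nat_lit 0)) .nil))))) (.cons (.kr (nat_lit 158456325028528956666359578624) (nat_lit 4740813229142378020864) (nat_lit 4) (nat_lit 0)) .nil)))))),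
 (.br (nat_lit 12) (nat_lit 0) (.cons (.kr (nat_lit 158456325028528956666359578624) (nat_lit 4740813229142378020864) (nat_lit 4) (nat_lit 0)) (.cons (.ev (nat_lit 244339660452361312347921637048326) (nat_lit 4)) (.cons (.br (nat_lit 1) (nat_lit 0) (.cons (.ev (nat_lit 244343374272552669473236335854602) (nat_lit 4)) .nil)) .nil)))),
 (.br (nat_lit 1) (nat_lit 0) (.cons (.rf (nat_lit 3369) (nat_lit 493858305440582043680)) (.cons (.br (nat_lit 5) (nat_lit 0) (.cons (.ev (nat_lit 477230725625644794373132780548) (nat_lit 3)) .nil)) (.cons (.rf (nat_lit 3369) (nat_lit 485643561739201120288)) .nil)))),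
 (.br (nat_lit 13) (nat_lit 0) (.cons (.rf (nat_lit 3313) (nat_lit 5885226501296850989)) (.cons (.rf (nat_lit 3368) (nat_lit 493858305440582043680)) (.cons (.br (nat_lit 1) (nat_lit 0) (.cons (.rf (nat_lit 3369) (nat_lit 493858305440582043680)) (.cons (.rf (nat_lit 3370) (nat_lit 493858305440582043680)) (.cons (.rf (nat_lit 3370) (nat_lit 485643561739201120288)) (.cons (.rf (nat_lit 3369) (nat_lit 485643561739201120288)) .nil))))) (.cons (.rf (nat_lit 3368) (nat_lit 485643561739201120288)) .nil))))),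
 (.br (nat_lit 13) (nat_lit 0) (.cons (.rf (nat_lit 3362) (nat_lit 493858305440582043680)) (.cons (.rf (nat_lit 3368) (nat_lit 493858305440582043680)) (.cons (.rf (nat_lit 3371) (nat_lit 493858305440582043680)) (.cons (.br (nat_lit 13) (nat_lit 0) (.cons (.rf (nat_lit 3362) (nat_lit 493858305440582043680)) (.cons (.rf (nat_lit 3368) (nat_lit 493858305440582043680)) (.cons (.rf (nat_lit 3371) (nat_lit 493858305440582043680)) (.cons (.rf (nat_lit 3368) (nat_lit 485643561739201120288)) .nil))))) (.cons (.rf (nat_lit 3368) (nat_lit 485643561739201120288)) .nil)))))),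
 (.br (nat_lit 2) (nat_lit 0) (.cons (.rf (nat_lit 3321) (nat_lit 14242959524133701664)) (.cons (.rf (nat_lit 3353) (nat_lit 14242959524133701664)) (.cons (.rf (nat_lit 3360) (nat_lit 14242959524133701664)) (.cons (.rf (nat_lit 3353) (nat_lit 6028215822752778272)) (.cons (.br (nat_lit 13) (nat_lit 0) (.cons (.rf (nat_lit 3362) (nat_lit 493858305440582043680)) (.cons (.rf (nat_lit 3368) (nat_lit 493858305440582043680)) (.cons (.rf (nat_lit 3372) (nat_lit 493858305440582043680)) (.cons (.br (nat_lit 13) (nat_lit 0) (.cons (.rf (nat_lit 3362) (nat_lit 493858305440582043680)) (.cons (.rf (nat_lit 3368) (nat_lit 493858305440582043680)) (.cons (.rf (nat_lit 3372) (nat_lit 493858305440582043680)) (.cons (.rf (nat_lit 3372) (nat_lit 485643561739201120288)) (.cons (.rf (nat_lit 3368) (nat_lit 485643561739201120288)) .nil)))))) (.cons (.rf (nat_lit 3372) (nat_lit 485643561739201120288)) (.cons (.rf (nat_lit 3368) (nat_lit 485643561739201120288)) .nil))))))) .nil)))))),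
 (.br (nat_lit 2) (nat_lit 0) (.cons (.rf (nat_lit 3321) (nat_lit 14242959524133701664)) (.cons (.rf (nat_lit 3353) (nat_lit 14242959524133701664)) (.cons (.rf (nat_lit 3360) (nat_lit 14242959524133701664)) (.cons (.br (nat_lit 2) (nat_lit 0) (.cons (.rf (nat_lit 3090) (nat_lit 13951351549195551746)) (.cons (.rf (nat_lit 3353) (nat_lit 14242959524133701664)) (.cons (.rf (nat_lit 3360) (nat_lit 14242959524133701664)) (.cons (.rf (nat_lit 3353) (nat_lit 6028215822752778272)) (.cons (.rf (nat_lit 3090) (nat_lit 13951351549195564034)) .nil)))))) (.cons (.rf (nat_lit 3373) (nat_lit 14242959524133701664)) (.cons (.br (nat_lit 2) (nat_lit 0) (.cons (.rf (nat_lit 1943) (nat_lit 427010)) (.cons (.rf (nat_lit 3090) (nat_lit 14208022404722308098)) (.cons (.rf (nat_lit 3090) (nat_lit 14090929087143293954)) (.cons (.rf (nat_lit 3090) (nat_lit 13951351549195564034)) (.cons (.rf (nat_lit 3373) (nat_lit 14242959524133701664)) .nil)))))) .nil))))))),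
 (.br (nat_lit 1) (nat_lit 0) (.cons (.rf (nat_lit 3374) (nat_lit 14090929087143281728)) (.cons (.rf (nat_lit 3196) (nat_lit 385814202400)) (.cons (.rf (nat_lit 2200) (nat_lit 444916527968389152)) (.cons (.rf (nat_lit 3313) (nat_lit 14242959524133712897)) .nil))))),
 (.br (nat_lit 2) (nat_lit 0) (.cons (.rf (nat_lit 3313) (nat_lit 5885226501296849922)) (.cons (.rf (nat_lit 3374) (nat_lit 14242959524133701664)) (.cons (.br (nat_lit 1) (nat_lit 0) (.cons (.rf (nat_lit 3374) (nat_lit 14090929087143281728)) (.cons (.rf (nat_lit 3375) (nat_lit 14242959524133701664)) (.cons (.rf (nat_lit 3375) (nat_lit 6028215822752778272)) (.cons (.rf (nat_lit 3374) (nat_lit 6164517744835626048)) (.cons (.br (nat_lit 1) (nat_lit 0) (.cons (.rf (nat_lit 3090) (nat_lit 14242959524133712897)) (.cons (.rf (nat_lit 3313) (nat_lit 14242959524133712897)) (.cons (.rf (nat_lit 3313) (nat_lit 6028215822752789505)) (.cons (.rf (nat_lit 3090) (nat_lit 6028215822752789505)) .nil))))) .nil)))))) (.cons (.rf (nat_lit 3374) (nat_lit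 6028215822752778272)) (.cons (.rf (nat_lit 3313) (nat_lit 5885226501296862210)) .nil)))))),
 (.br (nat_lit 11) (nat_lit 0) (.cons (.ev (nat_lit 310698658007442567544700929) (nat_lit 1)) (.cons (.ev (nat_lit 309485009821626543718268929) (nat_lit 1)) (.cons (.kr (nat_lit 158456325028528675191382867968) (nat_lit 4740813508418331475968) (nat_lit 4) (nat_lit 0)) (.cons (.ev (nat_lit 310698658007724046816444416) (nat_lit 1)) .nil))))),
 (.br (nat_lit 5) (nat_lit 0) (.cons (.ev (nat_lit 1208925891672227507601409) (nat_lit 1)) (.cons (.ev (nat_lit 309485009821626543718268929) (nat_lit 1)) (.cons (.br (nat_lit 10) (nat_lit 0) (.cons (.ev (nat_lit 310698658007725142033039361) (nat_lit 1)) (.cons (.rf (nat_lit 3377) (nat_lit 493858305440582043680)) (.cons (.br (nat_lit 11) (nat_lit 0) (.cons (.ev (nat_lit 310693954087703771609104384) (nat_lit 1)) (.cons (.zr (nat_lit 9481626460488074526722) (nat_lit 929663955500667042409743360) (nat_lit 10) (nat_lit 12)) .nil))) .nil)))) (.cons (.br (nat_lit 10) (nat_lit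 0) (.cons (.rf (nat_lit 2767) (nat_lit 470837236140064)) (.cons (.rf (nat_lit 3377) (nat_lit 493858305440582043680)) (.cons (.br (nat_lit 12) (nat_lit 0) (.cons (.ev (nat_lit 310693954087703771609104384) (nat_lit 1)) (.cons (.br (nat_lit 11) (nat_lit 0) (.cons (.ev (nat_lit 310693954087703771609104384) (nat_lit 1)) .nil)) .nil))) .nil)))) .nil))))),
 (.br (nat_lit 7) (nat_lit 0) (.cons (.rf (nat_lit 2454) (nat_lit 470974547986464)) (.cons (.ev (nat_lit 18518801667764256769) (nat_lit 1)) (.cons (.br (nat_lit 11) (nat_lit 0) (.cons (.ev (nat_lit 310698658007442567544700929) (nat_lit 1)) (.cons (.br (nat_lit 12) (nat_lit 0) (.cons (.ev (nat_lit 40565129915424744175256234754560) (nat_lit 2)) .nil)) .nil))) .nil))))]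

theorem c124 : chkAll C T R L124 (nat_lit 3354) = true := by decide +kernel

theorem l124 : (nat_lit 3354) + L124.length = (nat_lit 3380) := by decide +kernel

/-- part of the certificates -/
def L125 : List Prf := [(.br (nat_lit 10) (nat_lit 0) (.cons (.rf (nat_lit 2770) (nat_lit 470974540875808)) (.cons (.br (nat_lit 13) (nat_lit 0) (.cons (.ev (nat_lit 310693954087703771609104384) (nat_lit 1)) .nil)) (.cons (.ev (nat_lit 1208925891953698189410304) (nat_lit 1)) .nil)))),
 (.br (nat_lit 7) (nat_lit 0) (.cons (.ev (nat_lit 1208925891672227507601409) (nat_lit 1)) (.cons (.ev (nat_lit 1208925891954801995939841) (nat_lit 1)) (.cons (.ev (nat_lit 18518801667764256769) (nat_lit 1)) (.cons (.ev (nat_lit 1208925891953698189410304) (nat_lit 1)) .nil))))),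
 (.br (nat_lit 1) (nat_lit 0) (.cons (.rf (nat_lit 3378) (nat_lit 493858305440582043680)) (.cons (.br (nat_lit 12) (nat_lit 0) (.cons (.rf (nat_lit 3379) (nat_lit 493858305440582043680)) (.cons (.ev (nat_lit 18518801667764256769) (nat_lit 1)) (.cons (.ev (nat_lit 310693954087985250880716801) (nat_lit 1)) (.cons (.br (nat_lit 12) (nat_lit 0) (.cons (.rf (nat_lit 3379) (nat_lit 493858305440582043680)) (.cons (.ev (nat_lit 18518801667764256769) (nat_lit 1)) (.cons (.ev (nat_lit 310698658007442567544700929) (nat_lit 1)) .nil)))) .nil))))) (.cons (.br (nat_lit 10) (nat_lit 0) (.cons (.rf (nat_lit 2752) (nat_lit 15066788596615200)) (.cons (.rf (nat_lit 2767) (nat_lit 470974540875808)) (.cons (.ev (nat_lit 310693954087985250880716801) (nat_lit 1)) (.cons (.br (nat_lit 7) (nat_lit 0) (.cons (.ev (nat_lit 1208925891953698189410304) (nat_lit 1)) (.cons (.ev (nat_lit 18518801667764256769) (nat_lit 1)) (.cons (.br (nat_lit 12) (nat_lit 0) (.cons (.zr (nat_lit 18889465938075650883586) (nat_lit 929663955500104096751289344)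 (nat_lit 10) (nat_lit 12)) (.cons (.rf (nat_lit 3378) (nat_lit 42778714648715952546)) .nil))) .nil)))) .nil))))) (.cons (.br (nat_lit 5) (nat_lit 0) (.cons (.rf (nat_lit 3380) (nat_lit 493858305440582043680)) (.cons (.rf (nat_lit 3381) (nat_lit 493858305440582043680)) (.cons (.ev (nat_lit 309485009821626543718268929) (nat_lit 1)) (.cons (.br (nat_lit 7) (nat_lit 0) (.cons (.ev (nat_lit 79229371458602753894761103361) (nat_lit 1)) (.cons (.ev (nat_lit 80156631766240396001660633600) (nat_lit 2)) (.cons (.br (nat_lit 11) (nat_lit 0) (.cons (.ev (nat_lit 310698658007725142033039361) (nat_lit 1)) (.cons (.ev (nat_lit 475987949883369185957753390080) (nat_lit 3)) .nil))) .nil)))) (.cons (.br (nat_lit 12) (nat_lit 0) (.cons (.ev (nat_lit 18518801667764256769) (nat_lit 1)) (.cons (.rf (nat_lit 3381) (nat_lit 485643561739201120288)) (.cons (.rf (nat_lit 3380) (nat_lit 485643561739201120288)) (.cons (.kr (nat_lit 158456325028528956666359578624) (nat_lit 4740813229142378020864) (nat_lit 4) (nat_lit 0)) .nil)))))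 .nil)))))) (.cons (.rf (nat_lit 3090) (nat_lit 14242959524133712897)) .nil)))))),
 (.br (nat_lit 1) (nat_lit 0) (.cons (.rf (nat_lit 3382) (nat_lit 493858305440582043680)) (.cons (.ev (nat_lit 1208925891672227507601409) (nat_lit 1)) (.cons (.br (nat_lit 1) (nat_lit 0) (.cons (.rf (nat_lit 3382) (nat_lit 493858305440582043680)) (.cons (.ev (nat_lit 1208925891672227507601409) (nat_lit 1)) (.cons (.rf (nat_lit 3382) (nat_lit 485643561739201120288)) (.cons (.rf (nat_lit 3313) (nat_lit 6028215822752789505)) .nil))))) (.cons (.rf (nat_lit 3382) (nat_lit 485643561739201120288)) (.cons (.br (nat_lit 1) (nat_lit 0) (.cons (.rf (nat_lit 3090) (nat_lit 14242959524133712897)) (.cons (.ev (nat_lit 1208925891672227507601409) (nat_lit 1)) (.cons (.rf (nat_lit 3313) (nat_lit 6028215822752789505)) (.cons (.rf (nat_lit 3090) (nat_lit 6028215822752789505)) .nil))))) .nil)))))),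
 (.br (nat_lit 1) (nat_lit 0) (.cons (.rf (nat_lit 3381) (nat_lit 493858305440582043680)) (.cons (.ev (nat_lit 1208925891672227507601409) (nat_lit 1)) (.cons (.rf (nat_lit 3377) (nat_lit 485643561739201120288)) (.cons (.rf (nat_lit 3382) (nat_lit 485643561739201120288)) (.cons (.br (nat_lit 1) (nat_lit 0) (.cons (.rf (nat_lit 3090) (nat_lit 14242959524133712897)) (.cons (.ev (nat_lit 1208925891672227507601409) (nat_lit 1)) (.cons (.rf (nat_lit 3313) (nat_lit 6028215822752789505)) (.cons (.rf (nat_lit 3090) (nat_lit 6028215822752789505)) .nil))))) .nil)))))),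
 (.br (nat_lit 5) (nat_lit 0) (.cons (.rf (nat_lit 3382) (nat_lit 493858305440582043680)) (.cons (.rf (nat_lit 3383) (nat_lit 493858305440582043680)) (.cons (.rf (nat_lit 3384) (nat_lit 493858305440582043680)) (.cons (.ev (nat_lit 309485009821626543718268929) (nat_lit 1)) (.cons (.br (nat_lit 12) (nat_lit 0) (.cons (.rf (nat_lit 3382) (nat_lit 485643561739201120288)) (.cons (.ev (nat_lit 18518801667764256769) (nat_lit 1)) (.cons (.rf (nat_lit 3384) (nat_lit 485643561739201120288)) (.cons (.rf (nat_lit 3383) (nat_lit 485643561739201120288)) (.cons (.br (nat_lit 7) (nat_lit 0) (.cons (.br (nat_lit 11) (nat_lit 0) (.cons (.ev (nat_lit 159075299900097690376555463680) (nat_lit 3)) (.cons (.ev (nat_lit 310693954087986346097442816) (nat_lit 1)) (.cons (.rf (nat_lit 3382) (nat_lit 50844839696614654370)) .nil)))) (.cons (.ev (nat_lit 79229376162522492690696830976) (nat_lit 1)) (.cons (.br (nat_lit 1) (nat_lit 0) (.cons (.br (nat_lit 1) (nat_lit 0) (.cons (.ev (nat_lit 81130259807329890500979196167168)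 (nat_lit 3)) .nil)) (.cons (.br (nat_lit 1) (nat_lit 0) (.cons (.ev (nat_lit 81130259807329890500979196167168) (nat_lit 3)) .nil)) .nil))) (.cons (.rf (nat_lit 3382) (nat_lit 51101510552141398434)) .nil))))) .nil)))))) .nil)))))),
 (.br (nat_lit 2) (nat_lit 0) (.cons (.rf (nat_lit 3321) (nat_lit 14242959524133701664)) (.cons (.rf (nat_lit 3374) (nat_lit 14242959524133701664)) (.cons (.rf (nat_lit 3376) (nat_lit 14242959524133701664)) (.cons (.rf (nat_lit 3374) (nat_lit 6028215822752778272)) (.cons (.br (nat_lit 5) (nat_lit 0) (.cons (.rf (nat_lit 3382) (nat_lit 493858305440582043680)) (.cons (.rf (nat_lit 3383) (nat_lit 493858305440582043680)) (.cons (.rf (nat_lit 3384) (nat_lit 493858305440582043680)) (.cons (.ev (nat_lit 309485009821626543718268929) (nat_lit 1)) (.cons (.rf (nat_lit 3385) (nat_lit 493858305440582043680)) (.cons (.br (nat_lit 5) (nat_lit 0) (.cons (.rf (nat_lit 3382) (nat_lit 493858305440582043680)) (.cons (.rf (nat_lit 3383) (nat_lit 493858305440582043680)) (.cons (.rf (nat_lit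 3384) (nat_lit 493858305440582043680)) (.cons (.ev (nat_lit 309485009821626543718268929) (nat_lit 1)) (.cons (.rf (nat_lit 3385) (nat_lit 493858305440582043680)) .nil)))))) .nil))))))) .nil)))))),
 (.br (nat_lit 2) (nat_lit 0) (.cons (.rf (nat_lit 3321) (nat_lit 14242959524133701664)) (.cons (.rf (nat_lit 3374) (nat_lit 14242959524133701664)) (.cons (.rf (nat_lit 3376) (nat_lit 14242959524133701664)) (.cons (.rf (nat_lit 3386) (nat_lit 14242959524133701664)) (.cons (.rf (nat_lit 3374) (nat_lit 6028215822752778272)) (.cons (.br (nat_lit 2) (nat_lit 0) (.cons (.rf (nat_lit 1943) (nat_lit 427010)) (.cons (.rf (nat_lit 3090) (nat_lit 14208022404722308098)) (.cons (.rf (nat_lit 3313) (nat_lit 5885226501296862210)) (.cons (.rf (nat_lit 3386) (nat_lit 14242959524133701664)) (.cons (.rf (nat_lit 3090) (nat_lit 5885226501296862210)) .nil)))))) .nil))))))),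
 (.br (nat_lit 1) (nat_lit 0) (.cons (.rf (nat_lit 3321) (nat_lit 14242959524133701664)) (.cons (.rf (nat_lit 3374) (nat_lit 14090929087143281728)) (.cons (.rf (nat_lit 3387) (nat_lit 6164517744835626048)) (.cons (.rf (nat_lit 3387) (nat_lit 14090929087143281728)) (.cons (.rf (nat_lit 3374) (nat_lit 6164517744835626048)) (.cons (.br (nat_lit 1) (nat_lit 0) (.cons (.rf (nat_lit 1943) (nat_lit 428033)) (.cons (.rf (nat_lit 3090) (nat_lit 14242959524133712897)) (.cons (.rf (nat_lit 3313) (nat_lit 14242959524133712897)) (.cons (.rf (nat_lit 3313) (nat_lit 6028215822752789505)) (.cons (.rf (nat_lit 3090) (nat_lit 6028215822752789505)) .nil)))))) .nil))))))),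
 (.br (nat_lit 2) (nat_lit 0) (.cons (.rf (nat_lit 3321) (nat_lit 14242959524133701664)) (.cons (.rf (nat_lit 3374) (nat_lit 14242959524133701664)) (.cons (.rf (nat_lit 3387) (nat_lit 14242959524133701664)) (.cons (.rf (nat_lit 3388) (nat_lit 14242959524133701664)) (.cons (.rf (nat_lit 3387) (nat_lit 6028215822752778272)) (.cons (.rf (nat_lit 3374) (nat_lit 6028215822752778272)) (.cons (.br (nat_lit 2) (nat_lit 0) (.cons (.rf (nat_lit 1943) (nat_lit 427010)) (.cons (.rf (nat_lit 3374) (nat_lit 14242959524133701664)) (.cons (.rf (nat_lit 3387) (nat_lit 14242959524133701664)) (.cons (.rf (nat_lit 3388) (nat_lit 14242959524133701664)) (.cons (.rf (nat_lit 3387) (nat_lit 6028215822752778272)) (.cons (.rf (nat_lit 3374) (nat_lit 6028215822752778272)) .nil))))))) .nil)))))))),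
 (.br (nat_lit 10) (nat_lit 0) (.cons (.rf (nat_lit 2862) (nat_lit 434658383857696)) (.cons (.rf (nat_lit 2868) (nat_lit 434558525868064)) (.cons (.ev (nat_lit 1208925819614633486450944) (nat_lit 1)) .nil)))),
 (.br (nat_lit 2) (nat_lit 0) (.cons (.rf (nat_lit 3389) (nat_lit 14242959524133700672)) (.cons (.ev (nat_lit 1213666704899170862366976) (nat_lit 1)) (.cons (.br (nat_lit 12) (nat_lit 0) (.cons (.ev (nat_lit 18518801667764256769) (nat_lit 1)) (.cons (.ev (nat_lit 310693954087985250880716801) (nat_lit 1)) (.cons (.rf (nat_lit 3299) (nat_lit 469737700165664)) .nil)))) (.cons (.br (nat_lit 3) (nat_lit 0) (.cons (.ev (nat_lit 18519084242252660993) (nat_lit 1)) (.cons (.ev (nat_lit 618974760889672249070978050) (nat_lit 3)) (.cons (.ev (nat_lit 18518801667764256769) (nat_lit 1)) (.cons (.rf (nat_lit 3390) (nat_lit 15433072009550071840)) .nil))))) (.cons (.rf (nat_lit 3090) (nat_lit 14208022404722308098)) .nil)))))),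
 (.br (nat_lit 13) (nat_lit 0) (.cons (.ev (nat_lit 1208925891953698189345024) (nat_lit 1)) (.cons (.ev (nat_lit 309485009821345073036525824) (nat_lit 1)) (.cons (.br (nat_lit 7) (nat_lit 0) (.cons (.ev (nat_lit 81130259807329891626861923139588) (nat_lit 3)) .nil)) .nil)))),
 (.br (nat_lit 13) (nat_lit 0) (.cons (.br (nat_lit 13) (nat_lit 0) (.cons (.ev (nat_lit 1208925891953698189345024) (nat_lit 1)) (.cons (.ev (nat_lit 309485009821345073036525824) (nat_lit 1)) (.cons (.ev (nat_lit 79228162514336677762087059713) (nat_lit 1)) .nil)))) (.cons (.rf (nat_lit 3392) (nat_lit 493858305440582043680)) (.cons (.ev (nat_lit 309485009821345073036525824) (nat_lit 1)) (.cons (.br (nat_lit 13) (nat_lit 0) (.cons (.ev (nat_lit 79228162514336677762087059713) (nat_lit 1)) (.cons (.rf (nat_lit 3392) (nat_lit 493858305440582043680)) (.cons (.ev (nat_lit 309489750634853487073034496) (nat_lit 1)) .nil)))) .nil))))),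
 (.br (nat_lit 13) (nat_lit 0) (.cons (.ev (nat_lit 309485009821345073036525824) (nat_lit 1)) (.cons (.ev (nat_lit 1208925891953698189345024) (nat_lit 1)) (.cons (.br (nat_lit 3) (nat_lit 0) (.cons (.ev (nat_lit 81131502583072166672335938781188) (nat_lit 3)) .nil)) .nil)))),
 (.br (nat_lit 13) (nat_lit 0) (.cons (.rf (nat_lit 3393) (nat_lit 493858305440582043680)) (.cons (.ev (nat_lit 1208925891953698189345024) (nat_lit 1)) (.cons (.rf (nat_lit 3394) (nat_lit 493858305440582043680)) (.cons (.br (nat_lit 13) (nat_lit 0) (.cons (.ev (nat_lit 79228162514336677762087059713) (nat_lit 1)) (.cons (.ev (nat_lit 1208925891953698189345024) (nat_lit 1)) (.cons (.rf (nat_lit 3394) (nat_lit 493858305440582043680)) .nil)))) .nil))))),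
 (.br (nat_lit 2) (nat_lit 0) (.cons (.rf (nat_lit 3389) (nat_lit 14242959524133700672)) (.cons (.rf (nat_lit 3391) (nat_lit 14242959524133701664)) (.cons (.rf (nat_lit 3389) (nat_lit 14090929087143281728)) (.cons (.rf (nat_lit 3391) (nat_lit 14090929087143282720)) (.cons (.br (nat_lit 13) (nat_lit 0) (.cons (.rf (nat_lit 3393) (nat_lit 493858305440582043680)) (.cons (.rf (nat_lit 3395) (nat_lit 493858305440582043680)) (.cons (.rf (nat_lit 3393) (nat_lit 493706275003591624736)) (.cons (.rf (nat_lit 3395) (nat_lit 493706275003591624736)) (.cons (.br (nat_lit 13) (nat_lit 0) (.cons (.rf (nat_lit 3393) (nat_lit 493858305440582043680)) (.cons (.rf (nat_lit 3395) (nat_lit 493858305440582043680)) (.cons (.rf (nat_lit 3393) (nat_lit 493706275003591624736)) (.cons (.rf (nat_lit 3395) (nat_lit 493706275003591624736)) .nil))))) .nil)))))) .nil)))))),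
 (.br (nat_lit 2) (nat_lit 0) (.cons (.rf (nat_lit 3389) (nat_lit 14242959524133700672)) (.cons (.rf (nat_lit 3391) (nat_lit 14242959524133701664)) (.cons (.rf (nat_lit 3389) (nat_lit 14090929087143281728)) (.cons (.rf (nat_lit 3391) (nat_lit 14090929087143282720)) (.cons (.rf (nat_lit 3396) (nat_lit 14242959524133701664)) (.cons (.br (nat_lit 2) (nat_lit 0) (.cons (.rf (nat_lit 3090) (nat_lit 14242959524133712898)) (.cons (.rf (nat_lit 3090) (nat_lit 14208022404722308098)) (.cons (.rf (nat_lit 3090) (nat_lit 14090929087143293954)) (.cons (.rf (nat_lit 3090) (nat_lit 13951351549195564034)) (.cons (.rf (nat_lit 3396) (nat_lit 14242959524133701664)) .nil)))))) .nil))))))),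
 (.br (nat_lit 2) (nat_lit 0) (.cons (.ev (nat_lit 309489750634853487073034496) (nat_lit 1)) (.cons (.rf (nat_lit 3397) (nat_lit 14242959524133701664)) (.cons (.ev (nat_lit 1213666704899170862366976) (nat_lit 1)) (.cons (.br (nat_lit 3) (nat_lit 0) (.cons (.ev (nat_lit 309485009821626543718268929) (nat_lit 1)) (.cons (.br (nat_lit 5) (nat_lit 0) (.cons (.ev (nat_lit 1110432220054454099439488992776) (nat_lit 4)) (.cons (.br (nat_lit 13) (nat_lit 0) (.cons (.ev (nat_lit 159080135529590298498255947268) (nat_lit 3)) .nil)) .nil))) (.cons (.ev (nat_lit 18518801667764256769) (nat_lit 1)) (.cons (.br (nat_lit 5) (nat_lit 0) (.cons (.ev (nat_lit 1208925891672227507601409) (nat_lit 1)) (.cons (.rf (nat_lit 2868) (nat_lit 470974547986464)) (.cons (.br (nat_lit 10) (nat_lit 0) (.cons (.ev (nat_lit 310693954087985250880716801) (nat_lit 1)) (.cons (.br (nat_lit 12) (nat_lit 0) (.cons (.ev (nat_lit 40723588644119366166307831546370) (nat_lit 2)) .nil)) .nil))) .nil)))) .nil))))) (.cons (.br (nat_lit 3) (nat_lit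 0) (.cons (.ev (nat_lit 309485009821626543718268929) (nat_lit 1)) (.cons (.rf (nat_lit 2873) (nat_lit 15071186516019232)) (.cons (.ev (nat_lit 18518801667764256769) (nat_lit 1)) (.cons (.br (nat_lit 10) (nat_lit 0) (.cons (.ev (nat_lit 1208925891672227507601409) (nat_lit 1)) (.cons (.ev (nat_lit 310693954087985250880716801) (nat_lit 1)) (.cons (.br (nat_lit 12) (nat_lit 0) (.cons (.br (nat_lit 12) (nat_lit 0) (.cons (.ev (nat_lit 40723588644119366166307831546370) (nat_lit 2)) .nil)) (.cons (.br (nat_lit 5) (nat_lit 0) (.cons (.ev (nat_lit 40723588644119366166307831546370) (nat_lit 2)) .nil)) .nil))) .nil)))) .nil))))) .nil)))))),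
 (.br (nat_lit 2) (nat_lit 0) (.cons (.rf (nat_lit 3389) (nat_lit 14242959524133700672)) (.cons (.rf (nat_lit 3397) (nat_lit 14242959524133701664)) (.cons (.ev (nat_lit 1213666704899170862366976) (nat_lit 1)) (.cons (.rf (nat_lit 3398) (nat_lit 14242959524133701664)) (.cons (.br (nat_lit 2) (nat_lit 0) (.cons (.rf (nat_lit 3389) (nat_lit 14242959524133700672)) (.cons (.rf (nat_lit 3397) (nat_lit 14242959524133701664)) (.cons (.ev (nat_lit 1213666704899170862366976) (nat_lit 1)) (.cons (.rf (nat_lit 3398) (nat_lit 14242959524133701664)) (.cons (.rf (nat_lit 3090) (nat_lit 5885226501296862210)) .nil)))))) (.cons (.br (nat_lit 2) (nat_lit 0) (.cons (.rf (nat_lit 3313) (nat_lit 14242959524133712898)) (.cons (.rf (nat_lit 3090) (nat_lit 14208022404722308098)) (.cons (.ev (nat_lit 1213666704899170862366976) (nat_lit 1)) (.cons (.rf (nat_lit 3398) (nat_lit 14242959524133701664)) (.cons (.rf (nat_lit 3090) (nat_lit 5885226501296862210)) .nil)))))) .nil))))))),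
 (.br (nat_lit 2) (nat_lit 0) (.cons (.rf (nat_lit 3389) (nat_lit 14242959524133700672)) (.cons (.rf (nat_lit 3397) (nat_lit 14242959524133701664)) (.cons (.rf (nat_lit 3399) (nat_lit 14242959524133701664)) (.cons (.rf (nat_lit 3389) (nat_lit 14090929087143281728)) (.cons (.rf (nat_lit 3399) (nat_lit 14090929087143282720)) (.cons (.br (nat_lit 2) (nat_lit 0) (.cons (.rf (nat_lit 3090) (nat_lit 6028215822752789506)) (.cons (.rf (nat_lit 3397) (nat_lit 14242959524133701664)) (.cons (.rf (nat_lit 3090) (nat_lit 5885226501296862210)) (.cons (.rf (nat_lit 3090) (nat_lit 6164517744835638274)) (.cons (.rf (nat_lit 3090) (nat_lit 6132992408932430850)) .nil)))))) .nil))))))),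
 (.br (nat_lit 2) (nat_lit 0) (.cons (.rf (nat_lit 3389) (nat_lit 14242959524133700672)) (.cons (.rf (nat_lit 3397) (nat_lit 14242959524133701664)) (.cons (.rf (nat_lit 3399) (nat_lit 14242959524133701664)) (.cons (.rf (nat_lit 3389) (nat_lit 14090929087143281728)) (.cons (.rf (nat_lit 3399) (nat_lit 14090929087143282720)) (.cons (.rf (nat_lit 3400) (nat_lit 14242959524133701664)) (.cons (.br (nat_lit 2) (nat_lit 0) (.cons (.rf (nat_lit 3389) (nat_lit 14242959524133700672)) (.cons (.rf (nat_lit 3397) (nat_lit 14242959524133701664)) (.cons (.rf (nat_lit 3399) (nat_lit 14242959524133701664)) (.cons (.rf (nat_lit 3389) (nat_lit 14090929087143281728)) (.cons (.rf (nat_lit 3399) (nat_lit 14090929087143282720)) (.cons (.rf (nat_lit 3400) (nat_lit 14242959524133701664)) .nil))))))) .nil))))))))]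

theorem c125 : chkAll C T R L125 (nat_lit 3380) = true := by decide +kernel

theorem l125 : (nat_lit 3380) + L125.length = (nat_lit 3402) := by decide +kernel

/-- part of the certificates -/
def L126 : List Prf := [(.br (nat_lit 2) (nat_lit 0) (.cons (.rf (nat_lit 3090) (nat_lit 14208022404722295810)) (.cons (.rf (nat_lit 3389) (nat_lit 14242959524133700672)) (.cons (.rf (nat_lit 3389) (nat_lit 14090929087143281728)) (.cons (.rf (nat_lit 3401) (nat_lit 14242959524133700672)) (.cons (.kr (nat_lit 158456325028528956666359578624) (nat_lit 4740813229142378020864) (nat_lit 4) (nat_lit 0)) (.cons (.rf (nat_lit 3090) (nat_lit 14208022404722308098)) .nil))))))),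
 (.br (nat_lit 2) (nat_lit 0) (.cons (.rf (nat_lit 3389) (nat_lit 14242959524133700672)) (.cons (.rf (nat_lit 3402) (nat_lit 14242959524133701664)) (.cons (.rf (nat_lit 3389) (nat_lit 14090929087143281728)) (.cons (.rf (nat_lit 3402) (nat_lit 14090929087143282720)) (.cons (.kr (nat_lit 158456325028528956666359578624) (nat_lit 4740813229142378020864) (nat_lit 4) (nat_lit 0)) (.cons (.rf (nat_lit 3275) (nat_lit 493566697465643894816)) .nil))))))),
 (.br (nat_lit 5) (nat_lit 0) (.cons (.ev (nat_lit 1208925891672227507601409) (nat_lit 1)) (.cons (.ev (nat_lit 309489750634853487073099776) (nat_lit 1)) (.cons (.br (nat_lit 11) (nat_lit 0) (.cons (.ev (nat_lit 310698658007725142033039361) (nat_lit 1)) (.cons (.ev (nat_lit 160313239865308426904648680450) (nat_lit 3)) .nil))) (.cons (.br (nat_lit 13) (nat_lit 0) (.cons (.rf (nat_lit 3401) (nat_lit 14208022404722295202)) (.cons (.rf (nat_lit 3389) (nat_lit 13951351549195551138)) (.cons (.kr (nat_lit 158456325028528956666359578624) (nat_lit 4740813229142378020864)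 (nat_lit 4) (nat_lit 0)) .nil)))) .nil))))),
 (.br (nat_lit 13) (nat_lit 0) (.cons (.rf (nat_lit 3404) (nat_lit 493858305440582043680)) (.cons (.rf (nat_lit 3404) (nat_lit 485779863661283969056)) (.cons (.rf (nat_lit 3389) (nat_lit 13951351549195551138)) (.cons (.kr (nat_lit 158456325028528956666359578624) (nat_lit 4740813229142378020864) (nat_lit 4) (nat_lit 0)) .nil))))),
 (.br (nat_lit 2) (nat_lit 0) (.cons (.rf (nat_lit 3389) (nat_lit 14242959524133700672)) (.cons (.rf (nat_lit 3401) (nat_lit 14242959524133700672)) (.cons (.rf (nat_lit 3389) (nat_lit 14090929087143281728)) (.cons (.rf (nat_lit 3401) (nat_lit 6028215822752777280)) (.cons (.br (nat_lit 13) (nat_lit 0) (.cons (.rf (nat_lit 3404) (nat_lit 493858305440582043680)) (.cons (.rf (nat_lit 3405) (nat_lit 493858305440582043680)) (.cons (.rf (nat_lit 3404) (nat_lit 485779863661283969056)) (.cons (.rf (nat_lit 3389) (nat_lit 13951351549195551138)) (.cons (.rf (nat_lit 3405) (nat_lit 485779863661283969056)) .nil)))))) .nil)))))),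
 (.br (nat_lit 2) (nat_lit 0) (.cons (.rf (nat_lit 3389) (nat_lit 14242959524133700672)) (.cons (.rf (nat_lit 3402) (nat_lit 14242959524133701664)) (.cons (.rf (nat_lit 3389) (nat_lit 14090929087143281728)) (.cons (.rf (nat_lit 3406) (nat_lit 14242959524133701664)) (.cons (.rf (nat_lit 3402) (nat_lit 6164517744835627040)) (.cons (.br (nat_lit 2) (nat_lit 0) (.cons (.rf (nat_lit 3313) (nat_lit 14242959524133712898)) (.cons (.rf (nat_lit 3090) (nat_lit 14208022404722308098)) (.cons (.rf (nat_lit 3313) (nat_lit 5885226501296862210)) (.cons (.rf (nat_lit 3406) (nat_lit 14242959524133701664)) (.cons (.rf (nat_lit 3090) (nat_lit 5885226501296862210)) .nil)))))) .nil))))))),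
 (.br (nat_lit 2) (nat_lit 0) (.cons (.rf (nat_lit 3389) (nat_lit 14242959524133700672)) (.cons (.rf (nat_lit 3402) (nat_lit 14090929087143282720)) (.cons (.rf (nat_lit 3407) (nat_lit 14242959524133701664)) (.cons (.rf (nat_lit 3389) (nat_lit 14090929087143281728)) (.cons (.rf (nat_lit 3402) (nat_lit 6028215822752778272)) (.cons (.br (nat_lit 2) (nat_lit 0) (.cons (.rf (nat_lit 3313) (nat_lit 6028215822752789506)) (.cons (.rf (nat_lit 3090) (nat_lit 13951351549195564034)) (.cons (.rf (nat_lit 3407) (nat_lit 14242959524133701664)) (.cons (.rf (nat_lit 3313) (nat_lit 14090929087143293954)) (.cons (.rf (nat_lit 3090) (nat_lit 6132992408932430850)) .nil)))))) .nil))))))),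
 (.br (nat_lit 1) (nat_lit 0) (.cons (.rf (nat_lit 3090) (nat_lit 14208022404722296833)) (.cons (.rf (nat_lit 3389) (nat_lit 14242959524133701664)) (.cons (.rf (nat_lit 3389) (nat_lit 14090929087143282720)) (.cons (.rf (nat_lit 3401) (nat_lit 14242959524133701664)) (.cons (.br (nat_lit 2) (nat_lit 0) (.cons (.rf (nat_lit 3389) (nat_lit 14242959524133700672)) (.cons (.rf (nat_lit 3403) (nat_lit 14242959524133701664)) (.cons (.rf (nat_lit 3407) (nat_lit 14242959524133701664)) (.cons (.rf (nat_lit 3389) (nat_lit 14090929087143281728)) (.cons (.rf (nat_lit 3408) (nat_lit 14242959524133701664)) (.cons (.rf (nat_lit 3403) (nat_lit 6164517744835627040)) (.cons (.br (nat_lit 2) (nat_lit 0) (.cons (.rf (nat_lit 3389) (nat_lit 14242959524133700672)) (.cons (.rf (nat_lit 3403) (nat_lit 14242959524133701664)) (.cons (.rf (nat_lit 3407) (nat_lit 14242959524133701664)) (.cons (.rf (nat_lit 3389) (nat_lit 14090929087143281728)) (.cons (.rf (nat_lit 3408) (nat_lit 14242959524133701664)) (.cons (.rf (nat_lit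 3403) (nat_lit 6164517744835627040)) .nil))))))) .nil)))))))) (.cons (.rf (nat_lit 3090) (nat_lit 14208022404722308097)) .nil))))))),
 (.br (nat_lit 2) (nat_lit 0) (.cons (.rf (nat_lit 3389) (nat_lit 14242959524133700672)) (.cons (.rf (nat_lit 3409) (nat_lit 14242959524133700672)) (.cons (.rf (nat_lit 3389) (nat_lit 14090929087143281728)) (.cons (.rf (nat_lit 3409) (nat_lit 14090929087143281728)) (.cons (.kr (nat_lit 158456325028528956666359578624) (nat_lit 4740813229142378020864) (nat_lit 4) (nat_lit 0)) (.cons (.rf (nat_lit 3296) (nat_lit 485779863661283969056)) .nil))))))),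
 (.br (nat_lit 13) (nat_lit 0) (.cons (.rf (nat_lit 3090) (nat_lit 14242959524133701677)) (.cons (.rf (nat_lit 3313) (nat_lit 14242959524133701677)) (.cons (.br (nat_lit 5) (nat_lit 0) (.cons (.ev (nat_lit 1208925891953698189410304) (nat_lit 1)) (.cons (.ev (nat_lit 309489750634853487073099776) (nat_lit 1)) (.cons (.zr (nat_lit 4835703278458516766066190) (nat_lit 324677009988196068968964758175744) (nat_lit 30) (nat_lit 0)) .nil)))) (.cons (.rf (nat_lit 3313) (nat_lit 6028215822752778285)) (.cons (.rf (nat_lit 3090) (nat_lit 6028215822752778285)) .nil)))))),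
 (.br (nat_lit 2) (nat_lit 0) (.cons (.rf (nat_lit 3389) (nat_lit 14242959524133700672)) (.cons (.rf (nat_lit 3409) (nat_lit 14242959524133700672)) (.cons (.rf (nat_lit 3389) (nat_lit 14090929087143281728)) (.cons (.rf (nat_lit 3409) (nat_lit 6028215822752777280)) (.cons (.br (nat_lit 13) (nat_lit 0) (.cons (.rf (nat_lit 3411) (nat_lit 493858305440582043680)) (.cons (.rf (nat_lit 3099) (nat_lit 14242959524133712930)) (.cons (.rf (nat_lit 3389) (nat_lit 14208022404722295202)) (.cons (.rf (nat_lit 3411) (nat_lit 493706275003591624736)) (.cons (.rf (nat_lit 3389) (nat_lit 13951351549195551138)) (.cons (.rf (nat_lit 3099) (nat_lit 5885226501296862242)) .nil))))))) .nil)))))),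
 (.br (nat_lit 2) (nat_lit 0) (.cons (.rf (nat_lit 3389) (nat_lit 14242959524133700672)) (.cons (.rf (nat_lit 3409) (nat_lit 14242959524133700672)) (.cons (.rf (nat_lit 3389) (nat_lit 14090929087143281728)) (.cons (.rf (nat_lit 3412) (nat_lit 493858305440582043680)) (.cons (.rf (nat_lit 3409) (nat_lit 6164517744835626048)) (.cons (.br (nat_lit 2) (nat_lit 0) (.cons (.rf (nat_lit 3313) (nat_lit 14242959524133712898)) (.cons (.rf (nat_lit 3090) (nat_lit 14208022404722308098)) (.cons (.rf (nat_lit 3313) (nat_lit 5885226501296862210)) (.cons (.rf (nat_lit 3412) (nat_lit 493858305440582043680)) (.cons (.rf (nat_lit 3090) (nat_lit 5885226501296862210)) .nil)))))) .nil))))))),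
 (.br (nat_lit 1) (nat_lit 0) (.cons (.rf (nat_lit 3321) (nat_lit 14242959524133701664)) (.cons (.rf (nat_lit 3389) (nat_lit 14242959524133701664)) (.cons (.rf (nat_lit 3409) (nat_lit 14242959524133701664)) (.cons (.rf (nat_lit 3389) (nat_lit 14090929087143282720)) (.cons (.rf (nat_lit 3409) (nat_lit 6028215822752778272)) (.cons (.br (nat_lit 2) (nat_lit 0) (.cons (.rf (nat_lit 3389) (nat_lit 14242959524133700672)) (.cons (.rf (nat_lit 3410) (nat_lit 493858305440582043680)) (.cons (.rf (nat_lit 3413) (nat_lit 493858305440582043680)) (.cons (.rf (nat_lit 3389) (nat_lit 14090929087143281728)) (.cons (.rf (nat_lit 3413) (nat_lit 485643561739201120288)) (.cons (.rf (nat_lit 3410) (nat_lit 485643561739201120288)) (.cons (.br (nat_lit 2) (nat_lit 0) (.cons (.rf (nat_lit 3389) (nat_lit 14242959524133700672)) (.cons (.rf (nat_lit 3296) (nat_lit 485779863661283969056)) (.cons (.rf (nat_lit 3413) (nat_lit 493858305440582043680)) (.cons (.rf (nat_lit 3389) (nat_lit 14090929087143281728)) (.cons (.rf (nat_lit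 3413) (nat_lit 485643561739201120288)) (.cons (.rf (nat_lit 3296) (nat_lit 493858305440582043680)) .nil))))))) .nil)))))))) .nil))))))),
 (.br (nat_lit 1) (nat_lit 0) (.cons (.rf (nat_lit 3321) (nat_lit 14242959524133701664)) (.cons (.rf (nat_lit 3389) (nat_lit 14242959524133701664)) (.cons (.rf (nat_lit 3409) (nat_lit 14242959524133701664)) (.cons (.rf (nat_lit 3389) (nat_lit 14090929087143282720)) (.cons (.rf (nat_lit 3409) (nat_lit 14090929087143282720)) (.cons (.rf (nat_lit 3414) (nat_lit 14242959524133701664)) (.cons (.br (nat_lit 1) (nat_lit 0) (.cons (.rf (nat_lit 1943) (nat_lit 428033)) (.cons (.rf (nat_lit 3090) (nat_lit 14242959524133712897)) (.cons (.rf (nat_lit 3090) (nat_lit 14208022404722308097)) (.cons (.rf (nat_lit 3090) (nat_lit 14090929087143293953)) (.cons (.rf (nat_lit 3090) (nat_lit 13951351549195564033)) (.cons (.rf (nat_lit 3414) (nat_lit 14242959524133701664)) .nil))))))) .nil)))))))),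
 (.br (nat_lit 2) (nat_lit 0) (.cons (.rf (nat_lit 1943) (nat_lit 427010)) (.cons (.rf (nat_lit 3313) (nat_lit 14242959524133712898)) (.cons (.rf (nat_lit 3090) (nat_lit 14208022404722308098)) (.cons (.rf (nat_lit 3313) (nat_lit 5885226501296862210)) (.cons (.br (nat_lit 5) (nat_lit 0) (.cons (.rf (nat_lit 3415) (nat_lit 14242959524133701664)) (.cons (.ev (nat_lit 309485009821626543718268929) (nat_lit 1)) (.cons (.ev (nat_lit 1208925891672227507601409) (nat_lit 1)) (.cons (.br (nat_lit 5) (nat_lit 0) (.cons (.rf (nat_lit 3415) (nat_lit 14242959524133701664)) (.cons (.ev (nat_lit 309485009821626543718268929) (nat_lit 1)) (.cons (.ev (nat_lit 1208925891672227507601409) (nat_lit 1)) (.cons (.rf (nat_lit 3415) (nat_lit 14208022404722295202)) .nil))))) (.cons (.rf (nat_lit 3415) (nat_lit 14208022404722295202)) .nil)))))) (.cons (.rf (nat_lit 3090) (nat_lit 5885226501296862210)) .nil))))))),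
 (.br (nat_lit 2) (nat_lit 0) (.cons (.rf (nat_lit 3389) (nat_lit 14242959524133700672)) (.cons (.rf (nat_lit 3415) (nat_lit 14242959524133700672)) (.cons (.rf (nat_lit 3389) (nat_lit 14090929087143281728)) (.cons (.rf (nat_lit 3416) (nat_lit 493858305440582042688)) (.cons (.rf (nat_lit 3415) (nat_lit 6028215822752777280)) (.cons (.rf (nat_lit 3416) (nat_lit 493858305440582043680)) .nil))))))),
 (.br (nat_lit 1) (nat_lit 0) (.cons (.rf (nat_lit 3321) (nat_lit 14242959524133701664)) (.cons (.rf (nat_lit 3389) (nat_lit 14242959524133701664)) (.cons (.rf (nat_lit 3415) (nat_lit 14242959524133701664)) (.cons (.rf (nat_lit 3389) (nat_lit 14090929087143282720)) (.cons (.rf (nat_lit 3415) (nat_lit 6028215822752778272)) (.cons (.br (nat_lit 2) (nat_lit 0) (.cons (.rf (nat_lit 3389) (nat_lit 14242959524133700672)) (.cons (.rf (nat_lit 3415) (nat_lit 14242959524133700672)) (.cons (.rf (nat_lit 3417) (nat_lit 493858305440582043680)) (.cons (.rf (nat_lit 3389) (nat_lit 14090929087143281728)) (.cons (.rf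 (nat_lit 3417) (nat_lit 485643561739201120288)) (.cons (.rf (nat_lit 3415) (nat_lit 6028215822752777280)) (.cons (.br (nat_lit 2) (nat_lit 0) (.cons (.rf (nat_lit 3389) (nat_lit 14242959524133700672)) (.cons (.rf (nat_lit 3415) (nat_lit 14242959524133700672)) (.cons (.rf (nat_lit 3416) (nat_lit 493858305440582043680)) (.cons (.rf (nat_lit 3389) (nat_lit 14090929087143281728)) (.cons (.rf (nat_lit 3416) (nat_lit 485643561739201120288)) (.cons (.rf (nat_lit 3415) (nat_lit 6028215822752777280)) .nil))))))) .nil)))))))) .nil))))))),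
 (.br (nat_lit 1) (nat_lit 0) (.cons (.rf (nat_lit 3321) (nat_lit 14242959524133701664)) (.cons (.rf (nat_lit 3389) (nat_lit 14242959524133701664)) (.cons (.rf (nat_lit 3415) (nat_lit 14242959524133701664)) (.cons (.rf (nat_lit 3389) (nat_lit 14090929087143282720)) (.cons (.rf (nat_lit 3418) (nat_lit 14242959524133701664)) (.cons (.rf (nat_lit 3415) (nat_lit 6028215822752778272)) (.cons (.br (nat_lit 1) (nat_lit 0) (.cons (.rf (nat_lit 1943) (nat_lit 428033)) (.cons (.rf (nat_lit 3313) (nat_lit 14242959524133712897)) (.cons (.rf (nat_lit 3090) (nat_lit 14208022404722308097)) (.cons (.rf (nat_lit 3313) (nat_lit 5885226501296862209)) (.cons (.rf (nat_lit 3418) (nat_lit 14242959524133701664)) (.cons (.rf (nat_lit 3090) (nat_lit 5885226501296862209)) .nil))))))) .nil)))))))),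
 (.br (nat_lit 11) (nat_lit 1) (.cons (.rf (nat_lit 0) (nat_lit 110741432517)) (.cons (.br (nat_lit 3) (nat_lit 1) (.cons (.rf (nat_lit 0) (nat_lit 388903472261)) (.cons (.br (nat_lit 8) (nat_lit 0) (.cons (.br (nat_lit 12) (nat_lit 1) (.cons (.br (nat_lit 0) (nat_lit 0) (.cons (.rf (nat_lit 3090) (nat_lit 14242959524133701664)) (.cons (.rf (nat_lit 3313) (nat_lit 14242959524133701664)) (.cons (.br (nat_lit 1) (nat_lit 0) (.cons (.rf (nat_lit 3321) (nat_lit 14242959524133701664)) (.cons (.rf (nat_lit 3389) (nat_lit 14242959524133701664)) (.cons (.rf (nat_lit 3415) (nat_lit 14242959524133701664)) (.cons (.rf (nat_lit 3419) (nat_lit 14242959524133701664)) (.cons (.rf (nat_lit 3389) (nat_lit 14090929087143282720)) (.cons (.rf (nat_lit 3419) (nat_lit 6028215822752778272)) (.cons (.rf (nat_lit 3415) (nat_lit 6028215822752778272)) (.cons (.br (nat_lit 1) (nat_lit 0) (.cons (.rf (nat_lit 1943) (nat_lit 428033)) (.cons (.rf (nat_lit 3389) (nat_lit 14242959524133701664)) (.cons (.rf (nat_lit 3415) (nat_lit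 14242959524133701664)) (.cons (.rf (nat_lit 3419) (nat_lit 14242959524133701664)) (.cons (.rf (nat_lit 3389) (nat_lit 14090929087143282720)) (.cons (.rf (nat_lit 3419) (nat_lit 6028215822752778272)) (.cons (.rf (nat_lit 3415) (nat_lit 6028215822752778272)) .nil)))))))) .nil))))))))) (.cons (.rf (nat_lit 3313) (nat_lit 6028215822752778272)) (.cons (.rf (nat_lit 3090) (nat_lit 6028215822752778272)) (.cons (.rf (nat_lit 1943) (nat_lit 428064)) .nil))))))) .nil)) .nil)) .nil))) .nil))),
 (.br (nat_lit 7) (nat_lit 1) (.cons (.rf (nat_lit 1) (nat_lit 7541891)) (.cons (.br (nat_lit 8) (nat_lit 1) (.cons (.br (nat_lit 6) (nat_lit 0) (.cons (.rf (nat_lit 1) (nat_lit 5442695)) (.cons (.br (nat_lit 6) (nat_lit 0) (.cons (.rf (nat_lit 1) (nat_lit 5442695)) (.cons (.br (nat_lit 10) (nat_lit 1) (.cons (.rf (nat_lit 3420) (nat_lit 407901468851537952)) (.cons (.br (nat_lit 11) (nat_lit 1) (.cons (.rf (nat_lit 3420) (nat_lit 372998571739416608)) (.cons (.rf (nat_lit 676) (nat_lit 12448164942979)) .nil))) .nil)))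 .nil))) .nil))) .nil)) .nil))),
 (.br (nat_lit 10) (nat_lit 0) (.cons (.ev (nat_lit 2422666673192054299034628) (nat_lit 3)) (.cons (.rf (nat_lit 2048) (nat_lit 465517887457312)) .nil))),
 (.br (nat_lit 11) (nat_lit 0) (.cons (.ev (nat_lit 79229371440156292391244988673) (nat_lit 1)) (.cons (.rf (nat_lit 1960) (nat_lit 465516585190402)) .nil))),
 (.br (nat_lit 6) (nat_lit 0) (.cons (.br (nat_lit 9) (nat_lit 0) .nil) .nil)),
 (.br (nat_lit 12) (nat_lit 0) (.cons (.br (nat_lit 11) (nat_lit 0) (.cons (.ev (nat_lit 79229371458602754989977763841) (nat_lit 1)) (.cons (.rf (nat_lit 1960) (nat_lit 465450013197314)) .nil))) (.cons (.rf (nat_lit 3424) (nat_lit 13583074297888)) (.cons (.rf (nat_lit 1948) (nat_lit 15066958247658560)) .nil)))),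
 (.br (nat_lit 10) (nat_lit 0) (.cons (.rf (nat_lit 1947) (nat_lit 468783035680800)) (.cons (.br (nat_lit 11) (nat_lit 0) (.cons (.kr (nat_lit 237684487542865071474181406721) (nat_lit 310698658007724042538254336) (nat_lit 0) (nat_lit 1)) (.cons (.br (nat_lit 12) (nat_lit 0) (.cons (.ev (nat_lit 475995203437998080380893266432) (nat_lit 3)) .nil)) .nil))) .nil)))]

theorem c126 : chkAll C T R L126 (nat_lit 3402) = true := by decide +kernel

theorem l126 : (nat_lit 3402) + L126.length = (nat_lit 3427) := by decide +kernel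

/-- part of the certificates -/
def L127 : List Prf := [(.br (nat_lit 10) (nat_lit 0) (.cons (.br (nat_lit 10) (nat_lit 0) (.cons (.rf (nat_lit 3426) (nat_lit 493858305440582043680)) .nil)) (.cons (.rf (nat_lit 3426) (nat_lit 493858305440582043680)) .nil))),
 (.br (nat_lit 7) (nat_lit 0) (.cons (.br (nat_lit 10) (nat_lit 0) (.cons (.zr (nat_lit 2475880115752483475710543104) (nat_lit 8471925471112568561008641) (nat_lit 15) (nat_lit 2)) (.cons (.rf (nat_lit 3423) (nat_lit 14242959524133701664)) (.cons (.rf (nat_lit 1948) (nat_lit 14996660370441280)) .nil)))) (.cons (.ev (nat_lit 309485009821345073036591104) (nat_lit 1)) (.cons (.rf (nat_lit 3425) (nat_lit 14242959524133701664)) (.cons (.br (nat_lit 13) (nat_lit 0) (.cons (.rf (nat_lit 3426) (nat_lit 493858305440582043680)) (.cons (.rf (nat_lit 3427) (nat_lit 493858305440582043680)) (.cons (.br (nat_lit 13) (nat_lit 0) (.cons (.rf (nat_lit 3426) (nat_lit 493858305440582043680)) (.cons (.rf (nat_lit 3427) (nat_lit 493858305440582043680)) .nil)))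 .nil)))) .nil))))),
 (.br (nat_lit 2) (nat_lit 0) (.cons (.br (nat_lit 10) (nat_lit 0) (.cons (.rf (nat_lit 3422) (nat_lit 14242959524133701664)) (.cons (.rf (nat_lit 3422) (nat_lit 13126066816545818656)) (.cons (.rf (nat_lit 2050) (nat_lit 476656203075782688)) .nil)))) (.cons (.kr (nat_lit 4722366764344621924354) (nat_lit 18446744078004649984) (nat_lit 0) (nat_lit 1)) (.cons (.rf (nat_lit 3428) (nat_lit 14242959524133701664)) (.cons (.rf (nat_lit 3428) (nat_lit 13126066816545818656)) (.cons (.rf (nat_lit 1943) (nat_lit 427010)) .nil)))))),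
 (.br (nat_lit 11) (nat_lit 0) (.cons (.ev (nat_lit 79229371440156292391244988673) (nat_lit 1)) (.cons (.rf (nat_lit 2094) (nat_lit 463317822048257)) .nil))),
 (.br (nat_lit 12) (nat_lit 0) (.cons (.rf (nat_lit 3430) (nat_lit 14242959524133701664)) (.cons (.br (nat_lit 7) (nat_lit 0) (.cons (.ev (nat_lit 79229371440156292391244988673) (nat_lit 1)) (.cons (.rf (nat_lit 1966) (nat_lit 468816256665601)) .nil))) (.cons (.br (nat_lit 12) (nat_lit 0) (.cons (.rf (nat_lit 3430) (nat_lit 14242959524133701664)) (.cons (.rf (nat_lit 2079) (nat_lit 469914757531680)) .nil))) .nil)))),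
 (.br (nat_lit 9) (nat_lit 0) (.cons (.br (nat_lit 9) (nat_lit 0) .nil) .nil)),
 (.br (nat_lit 11) (nat_lit 0) (.cons (.ev (nat_lit 79229371458602754989977764096) (nat_lit 1)) (.cons (.rf (nat_lit 2092) (nat_lit 465517885425696)) .nil))),
 (.br (nat_lit 7) (nat_lit 0) (.cons (.rf (nat_lit 1979) (nat_lit 469848122558465)) (.cons (.br (nat_lit 11) (nat_lit 0) (.cons (.ev (nat_lit 80784073729800659128754963718) (nat_lit 3)) (.cons (.br (nat_lit 12) (nat_lit 0) (.cons (.ev (nat_lit 40726370387318615115126918481414) (nat_lit 4)) .nil)) .nil))) (.cons (.br (nat_lit 12) (nat_lit 0) (.cons (.br (nat_lit 12) (nat_lit 0) (.cons (.ev (nat_lit 41675875233154646074730993549826) (nat_lit 4)) .nil)) (.cons (.br (nat_lit 11) (nat_lit 0) (.cons (.ev (nat_lit 41675875233154646074730993549826) (nat_lit 4)) .nil)) .nil))) .nil)))),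
 (.br (nat_lit 13) (nat_lit 0) (.cons (.rf (nat_lit 3434) (nat_lit 493858305440582043680)) (.cons (.rf (nat_lit 3434) (nat_lit 493858305371929675777)) (.cons (.br (nat_lit 13) (nat_lit 0) (.cons (.rf (nat_lit 3434) (nat_lit 493858305440582043680)) (.cons (.rf (nat_lit 3434) (nat_lit 493858305371929675777)) .nil))) .nil)))),
 (.br (nat_lit 10) (nat_lit 0) (.cons (.rf (nat_lit 3431) (nat_lit 14242959524133701664)) (.cons (.rf (nat_lit 3431) (nat_lit 14242959455481333761)) (.cons (.ev (nat_lit 309485009821345073036591361) (nat_lit 1)) (.cons (.br (nat_lit 5) (nat_lit 0) (.cons (.br (nat_lit 11) (nat_lit 0) (.cons (.ev (nat_lit 79229376180969237863918010625) (nat_lit 1)) (.cons (.rf (nat_lit 3432) (nat_lit 470979911452704)) .nil))) (.cons (.br (nat_lit 7) (nat_lit 0) (.cons (.ev (nat_lit 79229376162522775265185103873) (nat_lit 1)) (.cons (.rf (nat_lit 1966) (nat_lit 469914694551553)) .nil))) (.cons (.rf (nat_lit 3433) (nat_lit 14242959524133701664)) (.cons (.br (nat_lit 7) (nat_lit 0) (.cons (.rf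 (nat_lit 1966) (nat_lit 469914759563296)) (.cons (.rf (nat_lit 3433) (nat_lit 14242959455481333761)) (.cons (.br (nat_lit 11) (nat_lit 0) (.cons (.ev (nat_lit 79229371440156292391244988416) (nat_lit 1)) (.cons (.br (nat_lit 12) (nat_lit 0) (.cons (.ev (nat_lit 20282720297587311665120127483904) (nat_lit 1)) .nil)) .nil))) .nil)))) .nil))))) (.cons (.br (nat_lit 13) (nat_lit 0) (.cons (.rf (nat_lit 3434) (nat_lit 493858305440582043680)) (.cons (.rf (nat_lit 3434) (nat_lit 493858305371929675777)) (.cons (.rf (nat_lit 3435) (nat_lit 493858305440582043680)) (.cons (.br (nat_lit 13) (nat_lit 0) (.cons (.rf (nat_lit 3434) (nat_lit 493858305440582043680)) (.cons (.rf (nat_lit 3434) (nat_lit 493858305371929675777)) (.cons (.rf (nat_lit 3435) (nat_lit 493858305440582043680)) .nil)))) .nil))))) .nil)))))),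
 (.br (nat_lit 2) (nat_lit 0) (.cons (.kr (nat_lit 4722366764344621924354) (nat_lit 18446744078004649984) (nat_lit 0) (nat_lit 1)) (.cons (.kr (nat_lit 4722366764344621924864) (nat_lit 18446744078004649984) (nat_lit 1) (nat_lit 0)) (.cons (.rf (nat_lit 3436) (nat_lit 14242959524133701664)) (.cons (.rf (nat_lit 3436) (nat_lit 13126066816545818656)) (.cons (.rf (nat_lit 1943) (nat_lit 427010)) .nil)))))),
 (.br (nat_lit 6) (nat_lit 0) (.cons (.rf (nat_lit 2094) (nat_lit 356491180836865)) (.cons (.rf (nat_lit 1979) (nat_lit 360956773369888)) .nil))),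
 (.br (nat_lit 12) (nat_lit 0) (.cons (.ev (nat_lit 159075299788986562605681476612) (nat_lit 3)) (.cons (.ev (nat_lit 477225889996008068847153316870) (nat_lit 3)) (.cons (.rf (nat_lit 3438) (nat_lit 15071357202171936)) .nil)))),
 (.br (nat_lit 12) (nat_lit 0) (.cons (.ev (nat_lit 477225889996008068847153316870) (nat_lit 3)) (.cons (.ev (nat_lit 477225889996008068847153317380) (nat_lit 3)) (.cons (.ev (nat_lit 159075299862772413000612577794) (nat_lit 3)) (.cons (.br (nat_lit 5) (nat_lit 0) (.cons (.rf (nat_lit 3432) (nat_lit 468816321677344)) (.cons (.rf (nat_lit 2092) (nat_lit 465450273245216)) (.cons (.br (nat_lit 7) (nat_lit 0) (.cons (.ev (nat_lit 79229371458602754989977763841) (nat_lit 1)) (.cons (.br (nat_lit 10) (nat_lit 0) (.cons (.ev (nat_lit 79229376180969237863918010368) (nat_lit 1)) .nil)) .nil))) .nil)))) .nil))))),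
 (.br (nat_lit 13) (nat_lit 0) (.cons (.br (nat_lit 10) (nat_lit 0) (.cons (.ev (nat_lit 40564820430396332251301189713921) (nat_lit 2)) .nil)) (.cons (.br (nat_lit 7) (nat_lit 0) (.cons (.ev (nat_lit 40564820430396332251301189713921) (nat_lit 2)) .nil)) .nil))),
 (.br (nat_lit 2) (nat_lit 0) (.cons (.rf (nat_lit 3429) (nat_lit 14242959524133701664)) (.cons (.rf (nat_lit 3429) (nat_lit 14242959455481333761)) (.cons (.rf (nat_lit 3437) (nat_lit 14242959524133701664)) (.cons (.br (nat_lit 11) (nat_lit 0) (.cons (.rf (nat_lit 3439) (nat_lit 14242959524133701664)) (.cons (.rf (nat_lit 3439) (nat_lit 14242959455481333761)) (.cons (.rf (nat_lit 3440) (nat_lit 14242959524133701664)) (.cons (.ev (nat_lit 309485009821345073036591361) (nat_lit 1)) (.cons (.br (nat_lit 12) (nat_lit 0) (.cons (.rf (nat_lit 3438) (nat_lit 15037272341710880)) (.cons (.rf (nat_lit 3438) (nat_lit 15037270196324353)) (.cons (.rf (nat_lit 3440) (nat_lit 13126066816545818656)) (.cons (.br (nat_lit 10) (nat_lit 0) (.cons (.rf (nat_lit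 3441) (nat_lit 493858305440582043680)) (.cons (.rf (nat_lit 3441) (nat_lit 493858305371929675777)) (.cons (.br (nat_lit 10) (nat_lit 0) (.cons (.rf (nat_lit 3441) (nat_lit 493858305440582043680)) (.cons (.rf (nat_lit 3441) (nat_lit 493858305371929675777)) .nil))) .nil)))) .nil))))) .nil)))))) (.cons (.rf (nat_lit 1943) (nat_lit 427010)) .nil)))))),
 (.br (nat_lit 11) (nat_lit 0) (.cons (.rf (nat_lit 3424) (nat_lit 12348371863584)) (.cons (.br (nat_lit 10) (nat_lit 0) (.cons (.zr (nat_lit 4840425933453237539569672) (nat_lit 618970074982928968532887040) (nat_lit 10) (nat_lit 1)) (.cons (.rf (nat_lit 1960) (nat_lit 465517724928001)) .nil))) (.cons (.rf (nat_lit 1948) (nat_lit 15031844711008288)) .nil)))),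
 (.br (nat_lit 11) (nat_lit 0) (.cons (.rf (nat_lit 1947) (nat_lit 469848185537600)) (.cons (.rf (nat_lit 1615) (nat_lit 383176606277875172354)) .nil))),
 (.br (nat_lit 7) (nat_lit 0) (.cons (.ev (nat_lit 1208925819615732981301504) (nat_lit 1)) (.cons (.ev (nat_lit 309485009821345073036591104) (nat_lit 1)) (.cons (.br (nat_lit 12) (nat_lit 0) (.cons (.ev (nat_lit 1208944266641281667629056) (nat_lit 1)) (.cons (.ev (nat_lit 309485028268370621722788096) (nat_lit 1)) (.cons (.br (nat_lit 13) (nat_lit 0) (.cons (.ev (nat_lit 475373815567005519477322548228) (nat_lit 3)) (.cons (.ev (nat_lit 476606919903012436837543182340) (nat_lit 3)) .nil))) .nil)))) .nil)))),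
 (.br (nat_lit 7) (nat_lit 0) (.cons (.ev (nat_lit 1208925819615732981301504) (nat_lit 1)) (.cons (.ev (nat_lit 309489750634853487073099776) (nat_lit 1)) (.cons (.rf (nat_lit 3445) (nat_lit 14242959524133701664)) (.cons (.br (nat_lit 7) (nat_lit 0) (.cons (.ev (nat_lit 1208925819615732981301504) (nat_lit 1)) (.cons (.ev (nat_lit 309485009821345073036591104) (nat_lit 1)) (.cons (.rf (nat_lit 3445) (nat_lit 14242959524133701664)) .nil)))) .nil))))),
 (.br (nat_lit 2) (nat_lit 0) (.cons (.br (nat_lit 7) (nat_lit 0) (.cons (.ev (nat_lit 72339069031415809) (nat_lit 1)) (.cons (.rf (nat_lit 3443) (nat_lit 14242959524133701664)) (.cons (.rf (nat_lit 3443) (nat_lit 13126066816545818656)) (.cons (.br (nat_lit 13) (nat_lit 0) (.cons (.br (nat_lit 11) (nat_lit 0) (.cons (.br (nat_lit 13) (nat_lit 0) (.cons (.rf (nat_lit 1615) (nat_lit 383176606277875172354)) (.cons (.rf (nat_lit 1615) (nat_lit 382059713570287289346)) .nil))) (.cons (.rf (nat_lit 3444) (nat_lit 493858305440582043680)) .nil))) (.cons (.rf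 (nat_lit 3444) (nat_lit 493858305440582043680)) (.cons (.rf (nat_lit 3444) (nat_lit 492741412732994160672)) .nil)))) .nil))))) (.cons (.kr (nat_lit 4722366764344621924354) (nat_lit 18446744078004649984) (nat_lit 0) (nat_lit 1)) (.cons (.rf (nat_lit 3446) (nat_lit 14242959524133701664)) (.cons (.rf (nat_lit 3446) (nat_lit 13126066816545818656)) (.cons (.rf (nat_lit 1943) (nat_lit 427010)) .nil)))))),
 (.br (nat_lit 11) (nat_lit 0) (.cons (.rf (nat_lit 3424) (nat_lit 12348209334273)) (.cons (.br (nat_lit 7) (nat_lit 0) (.cons (.zr (nat_lit 129127208546031634432) (nat_lit 1240362613435491265003388928) (nat_lit 20) (nat_lit 3)) (.cons (.rf (nat_lit 1960) (nat_lit 463318631645218)) .nil))) (.cons (.rf (nat_lit 1948) (nat_lit 15029645585219649)) .nil)))),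
 (.br (nat_lit 13) (nat_lit 0) (.cons (.rf (nat_lit 1615) (nat_lit 383176606277875172354)) (.cons (.rf (nat_lit 1615) (nat_lit 382059713570287289346)) .nil))),
 (.br (nat_lit 7) (nat_lit 0) (.cons (.ev (nat_lit 72339069031416064) (nat_lit 1)) (.cons (.ev (nat_lit 72339069031415809) (nat_lit 1)) (.cons (.br (nat_lit 5) (nat_lit 0) (.cons (.ev (nat_lit 623810574560929955015032832) (nat_lit 3)) (.cons (.br (nat_lit 10) (nat_lit 0) (.cons (.ev (nat_lit 623810574560929955015033860) (nat_lit 3)) (.cons (.rf (nat_lit 3092) (nat_lit 469914694551584)) .nil))) (.cons (.br (nat_lit 10) (nat_lit 0) (.cons (.rf (nat_lit 3092) (nat_lit 469909493614593)) (.cons (.ev (nat_lit 623810574560929955015033860) (nat_lit 3)) .nil))) .nil)))) (.cons (.ev (nat_lit 18518801667764322304) (nat_lit 1)) (.cons (.br (nat_lit 11) (nat_lit 0) (.cons (.ev (nat_lit 309489750634853487073099776) (nat_lit 1)) (.cons (.ev (nat_lit 309489750634853487073100033) (nat_lit 1)) (.cons (.ev (nat_lit 309489732187827938386772224) (nat_lit 1))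 (.cons (.br (nat_lit 12) (nat_lit 0) (.cons (.br (nat_lit 13) (nat_lit 0) (.cons (.ev (nat_lit 311902898426403746826223872) (nat_lit 2)) (.cons (.ev (nat_lit 158765824260861758688538460416) (nat_lit 2)) .nil))) (.cons (.br (nat_lit 13) (nat_lit 0) (.cons (.ev (nat_lit 311902898426403746826223872) (nat_lit 2)) (.cons (.ev (nat_lit 158765824260861758688538460930) (nat_lit 2)) .nil))) (.cons (.br (nat_lit 12) (nat_lit 0) (.cons (.ev (nat_lit 158765824260861758688538460416) (nat_lit 2)) (.cons (.ev (nat_lit 158765824260861758688538460930) (nat_lit 2)) .nil))) .nil)))) .nil))))) .nil)))))),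
 (.br (nat_lit 2) (nat_lit 0) (.cons (.rf (nat_lit 3447) (nat_lit 14242959524133701664)) (.cons (.br (nat_lit 5) (nat_lit 0) (.cons (.ev (nat_lit 72339069031416064) (nat_lit 1)) (.cons (.rf (nat_lit 3448) (nat_lit 14242959524133701664)) (.cons (.rf (nat_lit 3448) (nat_lit 13126066816545818656)) (.cons (.br (nat_lit 7) (nat_lit 0) (.cons (.rf (nat_lit 3448) (nat_lit 14235044069127815202)) (.cons (.rf (nat_lit 3448) (nat_lit 13118151361539932194)) (.cons (.br (nat_lit 11) (nat_lit 0) (.cons (.rf (nat_lit 3449) (nat_lit 493858305440582043680)) (.cons (.br (nat_lit 11) (nat_lit 0) (.cons (.rf (nat_lit 1615) (nat_lit 383176606277875172354)) .nil)) .nil))) .nil)))) .nil))))) (.cons (.rf (nat_lit 3450) (nat_lit 14242959524133701664)) (.cons (.rf (nat_lit 3450) (nat_lit 13126066816545818656)) (.cons (.rf (nat_lit 1943) (nat_lit 427010)) .nil)))))),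
 (.br (nat_lit 7) (nat_lit 0) (.cons (.ev (nat_lit 1208925819615732981301504) (nat_lit 1)) (.cons (.ev (nat_lit 309485009821345073036591361) (nat_lit 1)) (.cons (.br (nat_lit 12) (nat_lit 0) (.cons (.ev (nat_lit 1208944266641281667629313) (nat_lit 1)) (.cons (.ev (nat_lit 309485028268370621722788096) (nat_lit 1)) (.cons (.br (nat_lit 13) (nat_lit 0) (.cons (.ev (nat_lit 475373815567005519477322547200) (nat_lit 3)) (.cons (.ev (nat_lit 476606919903012436837543182340) (nat_lit 3)) .nil))) .nil)))) .nil)))),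
 (.br (nat_lit 7) (nat_lit 0) (.cons (.ev (nat_lit 1208925819615732981301504) (nat_lit 1)) (.cons (.ev (nat_lit 309489750634853487073100033) (nat_lit 1)) (.cons (.rf (nat_lit 3452) (nat_lit 14242959524133701664)) (.cons (.br (nat_lit 7) (nat_lit 0) (.cons (.ev (nat_lit 1208925819615732981301504) (nat_lit 1)) (.cons (.ev (nat_lit 309485009821345073036591361) (nat_lit 1)) (.cons (.rf (nat_lit 3452) (nat_lit 14242959524133701664)) .nil)))) .nil))))),
 (.br (nat_lit 2) (nat_lit 0) (.cons (.kr (nat_lit 4722366764344621924354) (nat_lit 18446744078004649984) (nat_lit 0) (nat_lit 1)) (.cons (.rf (nat_lit 3451) (nat_lit 14242959524133701664)) (.cons (.rf (nat_lit 3453) (nat_lit 14242959524133701664)) (.cons (.rf (nat_lit 3453) (nat_lit 13126066816545818656)) (.cons (.rf (nat_lit 1943) (nat_lit 427010)) .nil)))))),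
 (.br (nat_lit 5) (nat_lit 0) (.cons (.rf (nat_lit 2092) (nat_lit 468645728913440)) (.cons (.rf (nat_lit 3432) (nat_lit 465517887457312)) (.cons (.br (nat_lit 7) (nat_lit 0) (.cons (.ev (nat_lit 79229376162522775265185103873) (nat_lit 1)) (.cons (.br (nat_lit 10) (nat_lit 0) (.cons (.ev (nat_lit 79229371440156292391244988416) (nat_lit 1)) .nil)) .nil))) .nil)))),
 (.br (nat_lit 13) (nat_lit 0) (.cons (.br (nat_lit 10) (nat_lit 0) (.cons (.ev (nat_lit 40564820416229232802705138909186) (nat_lit 2)) .nil)) (.cons (.br (nat_lit 7) (nat_lit 0) (.cons (.ev (nat_lit 40564820416229232802705138909186) (nat_lit 2)) .nil)) .nil))),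
 (.br (nat_lit 5) (nat_lit 0) (.cons (.rf (nat_lit 3456) (nat_lit 493858305440582043680)) (.cons (.br (nat_lit 7) (nat_lit 0) (.cons (.ev (nat_lit 40564820416229232802705138909441) (nat_lit 2)) .nil)) .nil))),
 (.br (nat_lit 2) (nat_lit 0) (.cons (.rf (nat_lit 3447) (nat_lit 14242959524133701664)) (.cons (.rf (nat_lit 3451) (nat_lit 14242959524133701664)) (.cons (.rf (nat_lit 3454) (nat_lit 14242959524133701664)) (.cons (.br (nat_lit 11) (nat_lit 0) (.cons (.br (nat_lit 12) (nat_lit 0) (.cons (.ev (nat_lit 159075299862772413000612578304) (nat_lit 3)) (.cons (.ev (nat_lit 477225889922222218452222215170) (nat_lit 3)) (.cons (.rf (nat_lit 3438) (nat_lit 15071257277073440)) .nil)))) (.cons (.br (nat_lit 12) (nat_lit 0) (.cons (.ev (nat_lit 159075299862772413000612578304) (nat_lit 3)) (.cons (.ev (nat_lit 477225889996008068847153317380) (nat_lit 3)) (.cons (.ev (nat_lit 159075299862772413000612577794) (nat_lit 3)) (.cons (.rf (nat_lit 3455) (nat_lit 493858305440582043680)) .nil))))) (.cons (.br (nat_lit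 12) (nat_lit 0) (.cons (.ev (nat_lit 477225889922222218452222215170) (nat_lit 3)) (.cons (.ev (nat_lit 159075299862772413000612577794) (nat_lit 3)) (.cons (.rf (nat_lit 3438) (nat_lit 15071251913607169)) .nil)))) (.cons (.ev (nat_lit 309489732187827938386772224) (nat_lit 1)) (.cons (.br (nat_lit 12) (nat_lit 0) (.cons (.rf (nat_lit 3438) (nat_lit 15037172416612384)) (.cons (.rf (nat_lit 3455) (nat_lit 492741412732994160672)) (.cons (.rf (nat_lit 3438) (nat_lit 15037167053146113)) (.cons (.br (nat_lit 7) (nat_lit 0) (.cons (.rf (nat_lit 3456) (nat_lit 493858305440582043680)) (.cons (.rf (nat_lit 3457) (nat_lit 493858305440582043680)) (.cons (.br (nat_lit 7) (nat_lit 0) (.cons (.rf (nat_lit 3456) (nat_lit 493858305440582043680)) (.cons (.rf (nat_lit 3457) (nat_lit 493858305440582043680)) .nil))) .nil)))) .nil))))) .nil)))))) (.cons (.rf (nat_lit 1943) (nat_lit 427010)) .nil))))))]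

theorem c127 : chkAll C T R L127 (nat_lit 3427) = true := by decide +kernel

theorem l127 : (nat_lit 3427) + L127.length = (nat_lit 3459) := by decide +kernel

/-- part of the certificates -/
def L128 : List Prf := [(.br (nat_lit 10) (nat_lit 0) (.cons (.br (nat_lit 13) (nat_lit 0) (.cons (.ev (nat_lit 79538856449905298395250032896) (nat_lit 1)) .nil)) .nil)),
 (.br (nat_lit 10) (nat_lit 0) (.cons (.rf (nat_lit 3459) (nat_lit 14242959524133701664)) (.cons (.br (nat_lit 10) (nat_lit 0) (.cons (.rf (nat_lit 3459) (nat_lit 14242959524133701664)) .nil)) .nil))),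
 (.br (nat_lit 10) (nat_lit 0) (.cons (.rf (nat_lit 1947) (nat_lit 468783033648192)) (.cons (.br (nat_lit 11) (nat_lit 0) (.cons (.rf (nat_lit 1960) (nat_lit 469848055514114)) (.cons (.br (nat_lit 12) (nat_lit 0) (.cons (.ev (nat_lit 475995203437998080380893266432) (nat_lit 3)) .nil)) .nil))) .nil))),
 (.br (nat_lit 10) (nat_lit 0) (.cons (.br (nat_lit 10) (nat_lit 0) (.cons (.rf (nat_lit 3461) (nat_lit 493858305440582043680)) .nil)) (.cons (.rf (nat_lit 3461) (nat_lit 493858305440582043680)) .nil))),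
 (.br (nat_lit 7) (nat_lit 0) (.cons (.br (nat_lit 10) (nat_lit 0) (.cons (.ev (nat_lit 313111842765381889912078850) (nat_lit 2)) (.cons (.rf (nat_lit 2047) (nat_lit 469848187570208)) .nil))) (.cons (.rf (nat_lit 2048) (nat_lit 469914759563296)) .nil))),
 (.br (nat_lit 7) (nat_lit 0) (.cons (.br (nat_lit 13) (nat_lit 0) (.cons (.ev (nat_lit 310693954159762465158594561) (nat_lit 1)) .nil)) .nil)),
 (.br (nat_lit 7) (nat_lit 0) (.cons (.rf (nat_lit 3464) (nat_lit 14242959524133701664)) (.cons (.br (nat_lit 7) (nat_lit 0) (.cons (.rf (nat_lit 3464) (nat_lit 14242959524133701664)) .nil)) .nil))),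
 (.br (nat_lit 7) (nat_lit 0) (.cons (.br (nat_lit 10) (nat_lit 0) (.cons (.rf (nat_lit 1960) (nat_lit 469742834058242)) (.cons (.br (nat_lit 11) (nat_lit 0) (.cons (.ev (nat_lit 477228307774005006537207449088) (nat_lit 3)) .nil)) .nil))) (.cons (.rf (nat_lit 1947) (nat_lit 465482519053376)) .nil))),
 (.br (nat_lit 13) (nat_lit 0) (.cons (.rf (nat_lit 3466) (nat_lit 493858305440582043680)) (.cons (.br (nat_lit 13) (nat_lit 0) (.cons (.ev (nat_lit 40882350832120855524927751586304) (nat_lit 3)) .nil)) .nil))),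
 (.br (nat_lit 2) (nat_lit 0) (.cons (.br (nat_lit 7) (nat_lit 0) (.cons (.ev (nat_lit 72339069031415809) (nat_lit 1)) (.cons (.rf (nat_lit 3460) (nat_lit 14242959524133701664)) (.cons (.ev (nat_lit 18518801667764322561) (nat_lit 1)) (.cons (.br (nat_lit 13) (nat_lit 0) (.cons (.rf (nat_lit 3461) (nat_lit 493858305440582043680)) (.cons (.rf (nat_lit 3462) (nat_lit 493858305440582043680)) (.cons (.br (nat_lit 13) (nat_lit 0) (.cons (.rf (nat_lit 3461) (nat_lit 493858305440582043680)) (.cons (.rf (nat_lit 3462) (nat_lit 493858305440582043680)) .nil))) .nil)))) .nil))))) (.cons (.kr (nat_lit 4722366764344621924354) (nat_lit 18446744078004649984) (nat_lit 0) (nat_lit 1)) (.cons (.br (nat_lit 10) (nat_lit 0) (.cons (.rf (nat_lit 3463) (nat_lit 14242959524133701664)) (.cons (.rf (nat_lit 3463) (nat_lit 8262069443048343553)) (.cons (.rf (nat_lit 2050) (nat_lit 481019030720841760)) .nil)))) (.cons (.br (nat_lit 12) (nat_lit 0) (.cons (.ev (nat_lit 79228162514264337597855760384) (nat_lit 1)) (.cons (.ev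 (nat_lit 79228167236630820463205941504) (nat_lit 1)) (.cons (.rf (nat_lit 3465) (nat_lit 14242959524133701664)) (.cons (.br (nat_lit 13) (nat_lit 0) (.cons (.rf (nat_lit 3466) (nat_lit 493858305440582043680)) (.cons (.rf (nat_lit 3467) (nat_lit 493858305440582043680)) (.cons (.br (nat_lit 13) (nat_lit 0) (.cons (.rf (nat_lit 3466) (nat_lit 493858305440582043680)) (.cons (.rf (nat_lit 3467) (nat_lit 493858305440582043680)) .nil))) .nil)))) .nil))))) (.cons (.rf (nat_lit 1943) (nat_lit 427010)) .nil)))))),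
 (.br (nat_lit 8) (nat_lit 0) (.cons (.br (nat_lit 9) (nat_lit 0) .nil) .nil)),
 (.br (nat_lit 11) (nat_lit 0) (.cons (.rf (nat_lit 2092) (nat_lit 433593359960096)) (.cons (.rf (nat_lit 2092) (nat_lit 428095801985025)) (.cons (.rf (nat_lit 2085) (nat_lit 14237257523341363201)) .nil)))),
 (.br (nat_lit 13) (nat_lit 0) (.cons (.br (nat_lit 12) (nat_lit 0) (.cons (.ev (nat_lit 122171683512017723830536260683266) (nat_lit 4)) .nil)) (.cons (.br (nat_lit 11) (nat_lit 0) (.cons (.ev (nat_lit 122171683512017723830536260683266) (nat_lit 4)) .nil)) .nil))),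
 (.br (nat_lit 5) (nat_lit 0) (.cons (.rf (nat_lit 3471) (nat_lit 493858305440582043680)) (.cons (.br (nat_lit 12) (nat_lit 0) (.cons (.ev (nat_lit 122171683512017723830536260683266) (nat_lit 4)) .nil)) .nil))),
 (.br (nat_lit 11) (nat_lit 0) (.cons (.zr (nat_lit 158456325046975424762650690048) (nat_lit 1218370769316100549115907) (nat_lit 5) (nat_lit 0)) (.cons (.rf (nat_lit 3092) (nat_lit 470946560444448)) .nil))),
 (.br (nat_lit 10) (nat_lit 0) (.cons (.kr (nat_lit 2422574005993603004891136) (nat_lit 618970038089436414477336576) (nat_lit 3) (nat_lit 0)) (.cons (.rf (nat_lit 2064) (nat_lit 492561094097353410592)) .nil))),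
 (.br (nat_lit 2) (nat_lit 0) (.cons (.rf (nat_lit 3468) (nat_lit 14242959524133701664)) (.cons (.br (nat_lit 7) (nat_lit 0) (.cons (.br (nat_lit 10) (nat_lit 0) (.cons (.rf (nat_lit 3469) (nat_lit 13583074297888)) (.cons (.br (nat_lit 11) (nat_lit 0) (.cons (.ev (nat_lit 79538861172271781260600344833) (nat_lit 1)) (.cons (.rf (nat_lit 1966) (nat_lit 465516652234753)) .nil))) (.cons (.rf (nat_lit 3438) (nat_lit 14996663493036064)) .nil)))) (.cons (.ev (nat_lit 72339069031415809) (nat_lit 1)) (.cons (.br (nat_lit 10) (nat_lit 0) (.cons (.rf (nat_lit 3469) (nat_lit 13579953735712)) (.cons (.br (nat_lit 5) (nat_lit 0) (.cons (.ev (nat_lit 79538861172271781260600344576) (nat_lit 1)) (.cons (.rf (nat_lit 1966) (nat_lit 465516847269920)) .nil))) (.cons (.rf (nat_lit 3438) (nat_lit 14996657056876545)) .nil)))) (.cons (.br (nat_lit 5) (nat_lit 0) (.cons (.br (nat_lit 11) (nat_lit 0) (.cons (.ev (nat_lit 79538861190718806809286541313) (nat_lit 1)) (.cons (.rf (nat_lit 1966) (nat_lit 468811965892609))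 .nil))) (.cons (.br (nat_lit 10) (nat_lit 0) (.cons (.ev (nat_lit 79538861190718806809286541313) (nat_lit 1)) (.cons (.rf (nat_lit 3432) (nat_lit 470942464706592)) .nil))) (.cons (.br (nat_lit 10) (nat_lit 0) (.cons (.ev (nat_lit 79538861190718806809286541313) (nat_lit 1)) (.cons (.rf (nat_lit 2092) (nat_lit 469914757531680)) .nil))) (.cons (.br (nat_lit 10) (nat_lit 0) (.cons (.rf (nat_lit 1966) (nat_lit 468812160927776)) (.cons (.rf (nat_lit 2101) (nat_lit 469848185538592)) (.cons (.br (nat_lit 11) (nat_lit 0) (.cons (.ev (nat_lit 79546143098642423846155650310) (nat_lit 3)) (.cons (.br (nat_lit 12) (nat_lit 0) (.cons (.ev (nat_lit 284749115766882268646077299294726) (nat_lit 4)) .nil)) .nil))) .nil)))) .nil))))) (.cons (.br (nat_lit 10) (nat_lit 0) (.cons (.rf (nat_lit 3438) (nat_lit 14894408911652896)) (.cons (.rf (nat_lit 3438) (nat_lit 14894402475493377)) (.cons (.rf (nat_lit 3470) (nat_lit 15433072009550071840)) (.cons (.br (nat_lit 12) (nat_lit 0) (.cons (.rf (nat_lit 3471) (nat_lit 493858305440582043680))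 (.cons (.rf (nat_lit 3472) (nat_lit 493858305440582043680)) (.cons (.br (nat_lit 12) (nat_lit 0) (.cons (.rf (nat_lit 3471) (nat_lit 493858305440582043680)) (.cons (.rf (nat_lit 3472) (nat_lit 493858305440582043680)) .nil))) .nil)))) .nil))))) .nil)))))) (.cons (.rf (nat_lit 3468) (nat_lit 8262069443048343553)) (.cons (.br (nat_lit 7) (nat_lit 0) (.cons (.ev (nat_lit 18518801667764322561) (nat_lit 1)) (.cons (.ev (nat_lit 72339069031415809) (nat_lit 1)) (.cons (.ev (nat_lit 18518801667764322304) (nat_lit 1)) (.cons (.br (nat_lit 10) (nat_lit 0) (.cons (.rf (nat_lit 3473) (nat_lit 14242959524133701664)) (.cons (.rf (nat_lit 3473) (nat_lit 8262069443048343553)) (.cons (.br (nat_lit 10) (nat_lit 0) (.cons (.rf (nat_lit 3473) (nat_lit 14242959524133701664)) (.cons (.rf (nat_lit 3473) (nat_lit 8262069443048343553)) .nil))) .nil)))) (.cons (.br (nat_lit 12) (nat_lit 0) (.cons (.ev (nat_lit 79228167255077846011892269056) (nat_lit 1)) (.cons (.ev (nat_lit 79228167236630820463205941504) (nat_lit 1)) (.cons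 (.ev (nat_lit 79228167255077846011892269313) (nat_lit 1)) (.cons (.br (nat_lit 10) (nat_lit 0) (.cons (.rf (nat_lit 3474) (nat_lit 493858305440582043680)) (.cons (.rf (nat_lit 3474) (nat_lit 487877415359496685569)) (.cons (.rf (nat_lit 2064) (nat_lit 492561094097353410592)) .nil)))) .nil))))) .nil)))))) (.cons (.rf (nat_lit 1943) (nat_lit 427010)) .nil)))))),
 (.br (nat_lit 2) (nat_lit 0) (.cons (.rf (nat_lit 3468) (nat_lit 14242959524133701664)) (.cons (.rf (nat_lit 3475) (nat_lit 14242959524133701664)) (.cons (.br (nat_lit 2) (nat_lit 0) (.cons (.kr (nat_lit 4722366764344621924354) (nat_lit 18446744078004649984) (nat_lit 0) (nat_lit 1)) (.cons (.rf (nat_lit 3475) (nat_lit 14242959524133701664)) (.cons (.kr (nat_lit 4722366764344621924864) (nat_lit 18446744078004649984) (nat_lit 1) (nat_lit 0)) (.cons (.rf (nat_lit 3475) (nat_lit 8262069443048343553)) (.cons (.rf (nat_lit 1943) (nat_lit 427010)) .nil)))))) (.cons (.rf (nat_lit 3468) (nat_lit 8262069443048343553)) (.cons (.rf (nat_lit 3475) (nat_lit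 8262069443048343553)) (.cons (.rf (nat_lit 1943) (nat_lit 427010)) .nil))))))),
 (.br (nat_lit 1) (nat_lit 0) (.cons (.kr (nat_lit 1) (nat_lit 256) (nat_lit 0) (nat_lit 2)) (.cons (.br (nat_lit 2) (nat_lit 0) (.cons (.rf (nat_lit 3429) (nat_lit 14242959524133701664)) (.cons (.rf (nat_lit 3429) (nat_lit 14242959455481333761)) (.cons (.rf (nat_lit 3437) (nat_lit 14242959524133701664)) (.cons (.rf (nat_lit 3442) (nat_lit 14242959524133701664)) (.cons (.rf (nat_lit 3442) (nat_lit 13126066816545818656)) (.cons (.rf (nat_lit 1943) (nat_lit 427010)) .nil))))))) (.cons (.br (nat_lit 2) (nat_lit 0) (.cons (.rf (nat_lit 3447) (nat_lit 14242959524133701664)) (.cons (.rf (nat_lit 3451) (nat_lit 14242959524133701664)) (.cons (.rf (nat_lit 3454) (nat_lit 14242959524133701664)) (.cons (.rf (nat_lit 3458) (nat_lit 14242959524133701664)) (.cons (.rf (nat_lit 3458) (nat_lit 13126066816545818656)) (.cons (.rf (nat_lit 1943) (nat_lit 427010)) .nil))))))) (.cons (.rf (nat_lit 3476) (nat_lit 14242959524133701664))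 (.cons (.rf (nat_lit 3476) (nat_lit 13126066816545818656)) (.cons (.rf (nat_lit 1943) (nat_lit 428033)) .nil))))))),
 (.br (nat_lit 11) (nat_lit 0) (.cons (.rf (nat_lit 3424) (nat_lit 12451218360321)) (.cons (.br (nat_lit 10) (nat_lit 0) (.cons (.zr (nat_lit 2417870085975535410872832) (nat_lit 309494454771046540082413571) (nat_lit 5) (nat_lit 0)) (.cons (.rf (nat_lit 1960) (nat_lit 461119678545954)) .nil))) (.cons (.rf (nat_lit 1948) (nat_lit 15027446664626241)) .nil)))),
 (.br (nat_lit 9) (nat_lit 0) (.cons (.br (nat_lit 10) (nat_lit 0) (.cons (.kr (nat_lit 4722366482869645213696) (nat_lit 1208925819614629174706176) (nat_lit 9) (nat_lit 0)) .nil)) .nil)),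
 (.br (nat_lit 10) (nat_lit 0) (.cons (.rf (nat_lit 1947) (nat_lit 468782903625729)) (.cons (.br (nat_lit 11) (nat_lit 0) (.cons (.rf (nat_lit 1960) (nat_lit 469848185538592)) (.cons (.br (nat_lit 12) (nat_lit 0) (.cons (.ev (nat_lit 475995203437998080380893265922) (nat_lit 3)) .nil)) .nil))) .nil))),
 (.br (nat_lit 10) (nat_lit 0) (.cons (.br (nat_lit 10) (nat_lit 0) (.cons (.rf (nat_lit 3480) (nat_lit 493858305440582043680)) .nil)) (.cons (.rf (nat_lit 3480) (nat_lit 493858305440582043680)) .nil))),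
 (.br (nat_lit 3) (nat_lit 0) (.cons (.ev (nat_lit 72339069031415809) (nat_lit 1)) (.cons (.rf (nat_lit 3460) (nat_lit 14242959386694877249)) (.cons (.ev (nat_lit 18518801667764322304) (nat_lit 1)) (.cons (.br (nat_lit 13) (nat_lit 0) (.cons (.rf (nat_lit 3480) (nat_lit 493858305440582043680)) (.cons (.rf (nat_lit 3481) (nat_lit 493858305440582043680)) (.cons (.br (nat_lit 13) (nat_lit 0) (.cons (.rf (nat_lit 3480) (nat_lit 493858305440582043680)) (.cons (.rf (nat_lit 3481) (nat_lit 493858305440582043680)) .nil))) .nil)))) .nil))))),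
 (.br (nat_lit 2) (nat_lit 0) (.cons (.rf (nat_lit 3477) (nat_lit 14242959524133700672)) (.cons (.br (nat_lit 3) (nat_lit 0) (.cons (.ev (nat_lit 72339069031415809) (nat_lit 1)) (.cons (.rf (nat_lit 3478) (nat_lit 14242959524133701664)) (.cons (.rf (nat_lit 3478) (nat_lit 13126066816545818656)) (.cons (.br (nat_lit 10) (nat_lit 0) (.cons (.rf (nat_lit 3478) (nat_lit 14235044069127815202)) (.cons (.rf (nat_lit 3478) (nat_lit 13118151361539932194)) (.cons (.br (nat_lit 11) (nat_lit 0) (.cons (.rf (nat_lit 3479) (nat_lit 482283501405702176)) (.cons (.br (nat_lit 11) (nat_lit 0) (.cons (.rf (nat_lit 3479) (nat_lit 482283501405702176)) .nil)) .nil))) .nil)))) .nil))))) (.cons (.rf (nat_lit 3482) (nat_lit 14242959524133701664)) (.cons (.rf (nat_lit 3482) (nat_lit 13126066816545818656)) (.cons (.rf (nat_lit 1943) (nat_lit 427010)) .nil)))))),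
 (.br (nat_lit 13) (nat_lit 0) (.cons (.br (nat_lit 12) (nat_lit 0) (.cons (.ev (nat_lit 122806135035706398902600140589572) (nat_lit 4)) .nil)) (.cons (.br (nat_lit 7) (nat_lit 0) (.cons (.ev (nat_lit 122806135035706398902600140589572) (nat_lit 4)) .nil)) .nil))),
 (.br (nat_lit 3) (nat_lit 0) (.cons (.rf (nat_lit 3484) (nat_lit 493858305440582043680)) (.cons (.br (nat_lit 12) (nat_lit 0) (.cons (.ev (nat_lit 122806135035706398902600140587532) (nat_lit 4)) .nil)) .nil))),
 (.br (nat_lit 10) (nat_lit 0) (.cons (.br (nat_lit 11) (nat_lit 0) (.cons (.rf (nat_lit 3469) (nat_lit 13446807717920)) (.cons (.br (nat_lit 7) (nat_lit 0) (.cons (.ev (nat_lit 79537652246524504605240393728) (nat_lit 1)) (.cons (.rf (nat_lit 1966) (nat_lit 468816189622273)) .nil))) (.cons (.rf (nat_lit 3438) (nat_lit 15035142103009312)) .nil)))) (.cons (.br (nat_lit 11) (nat_lit 0) (.cons (.rf (nat_lit 3469) (nat_lit 13445767530528)) (.cons (.br (nat_lit 3) (nat_lit 0) (.cons (.ev (nat_lit 79537652246524504605240393985) (nat_lit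 1)) (.cons (.rf (nat_lit 1966) (nat_lit 468816319645728)) .nil))) (.cons (.rf (nat_lit 3438) (nat_lit 15035137812236289)) .nil)))) (.cons (.ev (nat_lit 1208925819615732981367041) (nat_lit 1)) (.cons (.br (nat_lit 3) (nat_lit 0) (.cons (.br (nat_lit 11) (nat_lit 0) (.cons (.ev (nat_lit 79537652264970967203973169408) (nat_lit 1)) (.cons (.rf (nat_lit 3432) (nat_lit 470979909421088)) .nil))) (.cons (.br (nat_lit 7) (nat_lit 0) (.cons (.ev (nat_lit 79537652264970967203973169408) (nat_lit 1)) (.cons (.rf (nat_lit 1966) (nat_lit 469914627508225)) .nil))) (.cons (.br (nat_lit 11) (nat_lit 0) (.cons (.ev (nat_lit 79537652264970967203973169408) (nat_lit 1)) (.cons (.rf (nat_lit 2092) (nat_lit 465517887457312)) .nil))) (.cons (.br (nat_lit 11) (nat_lit 0) (.cons (.rf (nat_lit 1966) (nat_lit 469914757531680)) (.cons (.rf (nat_lit 2101) (nat_lit 465484601460768)) (.cons (.br (nat_lit 7) (nat_lit 0) (.cons (.ev (nat_lit 81400611786044061372632794375) (nat_lit 3)) (.cons (.br (nat_lit 12) (nat_lit 0) (.cons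 (.ev (nat_lit 122490455489985056870323451856396) (nat_lit 4)) .nil)) .nil))) .nil)))) .nil))))) (.cons (.br (nat_lit 11) (nat_lit 0) (.cons (.rf (nat_lit 3438) (nat_lit 15001057242548256)) (.cons (.rf (nat_lit 3438) (nat_lit 15001052951775233)) (.cons (.rf (nat_lit 3470) (nat_lit 15424099001525504001)) (.cons (.br (nat_lit 12) (nat_lit 0) (.cons (.rf (nat_lit 3484) (nat_lit 493858305440582043680)) (.cons (.rf (nat_lit 3485) (nat_lit 493858305440582043680)) (.cons (.br (nat_lit 12) (nat_lit 0) (.cons (.rf (nat_lit 3484) (nat_lit 493858305440582043680)) (.cons (.rf (nat_lit 3485) (nat_lit 493858305440582043680)) .nil))) .nil)))) .nil))))) .nil)))))),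
 (.br (nat_lit 2) (nat_lit 0) (.cons (.rf (nat_lit 3477) (nat_lit 14242959524133700672)) (.cons (.rf (nat_lit 3483) (nat_lit 14242959524133701664)) (.cons (.rf (nat_lit 3486) (nat_lit 14242959524133701664)) (.cons (.rf (nat_lit 3486) (nat_lit 13126066816545818656)) (.cons (.rf (nat_lit 1943) (nat_lit 427010)) .nil))))))]

theorem c128 : chkAll C T R L128 (nat_lit 3459) = true := by decide +kernel

theorem l128 : (nat_lit 3459) + L128.length = (nat_lit 3488) := by decide +kernel

/-- part of the certificates -/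
def L129 : List Prf := [(.br (nat_lit 2) (nat_lit 0) (.cons (.rf (nat_lit 3477) (nat_lit 14242959524133700672)) (.cons (.rf (nat_lit 3483) (nat_lit 14242959524133701664)) (.cons (.rf (nat_lit 3487) (nat_lit 14242959524133701664)) (.cons (.kr (nat_lit 4740813226943354765824) (nat_lit 281479271809024) (nat_lit 1) (nat_lit 0)) (.cons (.rf (nat_lit 1943) (nat_lit 427010)) .nil)))))),
 (.br (nat_lit 11) (nat_lit 0) (.cons (.kr (nat_lit 475368979808096907292984737794) (nat_lit 621387926622151629846086144) (nat_lit 0) (nat_lit 2)) (.cons (.br (nat_lit 12) (nat_lit 0) (.cons (.ev (nat_lit 122013846157008837845486622344196) (nat_lit 4)) .nil)) .nil))),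
 (.br (nat_lit 3) (nat_lit 0) (.cons (.kr (nat_lit 475368979808096907292984737794) (nat_lit 621387926622151629846086144) (nat_lit 0) (nat_lit 2)) (.cons (.br (nat_lit 12) (nat_lit 0) (.cons (.ev (nat_lit 122013846157008837845486622344706) (nat_lit 4)) .nil)) .nil))),
 (.br (nat_lit 10) (nat_lit 0) (.cons (.br (nat_lit 12) (nat_lit 0) (.cons (.ev (nat_lit 475995203437998080380893265922) (nat_lit 3)) .nil)) .nil)),
 (.br (nat_lit 10) (nat_lit 0) (.cons (.rf (nat_lit 3491) (nat_lit 493858305440582043680)) (.cons (.br (nat_lit 10) (nat_lit 0) (.cons (.rf (nat_lit 3491) (nat_lit 493858305440582043680)) .nil)) .nil))),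
 (.br (nat_lit 13) (nat_lit 0) (.cons (.rf (nat_lit 3492) (nat_lit 493858305440582043680)) (.cons (.br (nat_lit 3) (nat_lit 0) (.cons (.rf (nat_lit 1947) (nat_lit 468508158033985)) (.cons (.rf (nat_lit 1947) (nat_lit 470705033805889)) (.cons (.rf (nat_lit 3492) (nat_lit 493858305440582043680)) .nil)))) .nil))),
 (.br (nat_lit 7) (nat_lit 0) (.cons (.br (nat_lit 12) (nat_lit 0) (.cons (.ev (nat_lit 317538878372432927766807052292) (nat_lit 3)) (.cons (.rf (nat_lit 2092) (nat_lit 469848187570208)) .nil))) (.cons (.br (nat_lit 12) (nat_lit 0) (.cons (.ev (nat_lit 626228389450784080801301508) (nat_lit 3)) (.cons (.rf (nat_lit 2094) (nat_lit 469842986633248)) .nil))) (.cons (.br (nat_lit 11) (nat_lit 0) (.cons (.ev (nat_lit 476606919903012436837543182340) (nat_lit 3)) (.cons (.rf (nat_lit 3092) (nat_lit 470946493401120)) .nil))) (.cons (.br (nat_lit 12) (nat_lit 0) (.cons (.rf (nat_lit 2092) (nat_lit 469842986633248)) (.cons (.rf (nat_lit 2094) (nat_lit 469848187570208)) (.cons (.br (nat_lit 13) (nat_lit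 0) (.cons (.br (nat_lit 11) (nat_lit 0) (.cons (.zr (nat_lit 244339653193991219122038584115724) (nat_lit 2485565708143819165699014656) (nat_lit 40) (nat_lit 5)) .nil)) (.cons (.br (nat_lit 10) (nat_lit 0) (.cons (.zr (nat_lit 244339653193991219122038584115724) (nat_lit 2485565708143819165699014656) (nat_lit 40) (nat_lit 5)) .nil)) .nil))) .nil)))) .nil))))),
 (.br (nat_lit 3) (nat_lit 0) (.cons (.rf (nat_lit 3494) (nat_lit 14242959524133701664)) (.cons (.br (nat_lit 12) (nat_lit 0) (.cons (.ev (nat_lit 1859332688562533239835721730) (nat_lit 3)) (.cons (.rf (nat_lit 3432) (nat_lit 468812158896160)) .nil))) (.cons (.br (nat_lit 10) (nat_lit 0) (.cons (.ev (nat_lit 317538878372432927766807053830) (nat_lit 3)) (.cons (.rf (nat_lit 2079) (nat_lit 465450275276832)) .nil))) (.cons (.br (nat_lit 12) (nat_lit 0) (.cons (.rf (nat_lit 2101) (nat_lit 469914759563296)) (.cons (.rf (nat_lit 1966) (nat_lit 470942462674976)) (.cons (.br (nat_lit 10) (nat_lit 0) (.cons (.rf (nat_lit 2092) (nat_lit 461052094810113))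 (.cons (.br (nat_lit 11) (nat_lit 0) (.cons (.zr (nat_lit 61084913298497805132358735627008) (nat_lit 621397353052488470618046466) (nat_lit 10) (nat_lit 5)) .nil)) .nil))) .nil)))) .nil))))),
 (.br (nat_lit 7) (nat_lit 0) (.cons (.rf (nat_lit 3092) (nat_lit 470938171901953)) (.cons (.br (nat_lit 12) (nat_lit 0) (.cons (.zr (nat_lit 244339653227176909740287165858304) (nat_lit 2485551485704982773448572936) (nat_lit 40) (nat_lit 12)) .nil)) .nil))),
 (.br (nat_lit 3) (nat_lit 0) (.cons (.rf (nat_lit 2094) (nat_lit 461052094810113)) (.cons (.rf (nat_lit 3496) (nat_lit 493858305440582043680)) .nil))),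
 (.br (nat_lit 10) (nat_lit 0) (.cons (.rf (nat_lit 3494) (nat_lit 14242959524133701664)) (.cons (.rf (nat_lit 3495) (nat_lit 14242959524133701664)) (.cons (.br (nat_lit 7) (nat_lit 0) (.cons (.ev (nat_lit 626228389450784080801300998) (nat_lit 3)) (.cons (.rf (nat_lit 2092) (nat_lit 461046893873153)) .nil))) (.cons (.br (nat_lit 13) (nat_lit 0) (.cons (.rf (nat_lit 3496) (nat_lit 493858305440582043680)) (.cons (.rf (nat_lit 3497) (nat_lit 493858305440582043680)) (.cons (.br (nat_lit 13) (nat_lit 0) (.cons (.rf (nat_lit 3496) (nat_lit 493858305440582043680)) (.cons (.rf (nat_lit 3497) (nat_lit 493858305440582043680)) .nil))) .nil)))) .nil))))),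
 (.br (nat_lit 10) (nat_lit 0) (.cons (.rf (nat_lit 3494) (nat_lit 14242959524133701664)) (.cons (.rf (nat_lit 3495) (nat_lit 14242959524133701664)) (.cons (.rf (nat_lit 3498) (nat_lit 14242959524133701664)) (.cons (.br (nat_lit 7) (nat_lit 0) (.cons (.rf (nat_lit 2079) (nat_lit 470942464706592)) (.cons (.rf (nat_lit 2079) (nat_lit 470942196533249)) (.cons (.br (nat_lit 3) (nat_lit 0) (.cons (.rf (nat_lit 3432) (nat_lit 468645728913440)) (.cons (.br (nat_lit 11) (nat_lit 0) (.cons (.ev (nat_lit 20283028573689976876473589628930) (nat_lit 2)) .nil)) .nil))) .nil)))) .nil))))),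
 (.br (nat_lit 2) (nat_lit 0) (.cons (.rf (nat_lit 3477) (nat_lit 14242959524133700672)) (.cons (.br (nat_lit 10) (nat_lit 0) (.cons (.ev (nat_lit 1208925819615732981366784) (nat_lit 1)) (.cons (.br (nat_lit 3) (nat_lit 0) (.cons (.zr (nat_lit 9444734654597740626948) (nat_lit 621387908247466236801515520) (nat_lit 15) (nat_lit 5)) (.cons (.br (nat_lit 11) (nat_lit 0) (.cons (.ev (nat_lit 79537652246524504605240393985) (nat_lit 1)) (.cons (.rf (nat_lit 3092) (nat_lit 468816189622304)) .nil))) (.cons (.br (nat_lit 12) (nat_lit 0) (.cons (.rf (nat_lit 3092) (nat_lit 468807868123137)) (.cons (.br (nat_lit 12) (nat_lit 0) (.cons (.ev (nat_lit 79537647524158021731300147201) (nat_lit 1)) .nil)) .nil))) .nil)))) (.cons (.ev (nat_lit 1208925819615732981367041) (nat_lit 1)) (.cons (.ev (nat_lit 1213648186098598331547904) (nat_lit 1)) (.cons (.br (nat_lit 7) (nat_lit 0) (.cons (.rf (nat_lit 3438) (nat_lit 14996663491004448)) (.cons (.rf (nat_lit 3438) (nat_lit 14996654909458433)) (.cons (.br (nat_lit 3)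 (nat_lit 0) (.cons (.rf (nat_lit 3432) (nat_lit 470942462674976)) (.cons (.rf (nat_lit 2092) (nat_lit 469914759563296)) (.cons (.br (nat_lit 11) (nat_lit 0) (.cons (.rf (nat_lit 2092) (nat_lit 461118666803201)) (.cons (.br (nat_lit 12) (nat_lit 0) (.cons (.ev (nat_lit 20361947255916569334656698155008) (nat_lit 1)) .nil)) .nil))) .nil)))) (.cons (.br (nat_lit 12) (nat_lit 0) (.cons (.rf (nat_lit 3489) (nat_lit 493858305440582043680)) (.cons (.rf (nat_lit 3490) (nat_lit 493858305440582043680)) (.cons (.br (nat_lit 12) (nat_lit 0) (.cons (.rf (nat_lit 3489) (nat_lit 493858305440582043680)) (.cons (.rf (nat_lit 3490) (nat_lit 493858305440582043680)) .nil))) .nil)))) .nil))))) .nil)))))) (.cons (.br (nat_lit 7) (nat_lit 0) (.cons (.ev (nat_lit 309485009821345073036525824) (nat_lit 1)) (.cons (.br (nat_lit 10) (nat_lit 0) (.cons (.zr (nat_lit 4722369016174500384258) (nat_lit 1242775761154700252474376192) (nat_lit 30) (nat_lit 5)) (.cons (.rf (nat_lit 3423) (nat_lit 13954729147982250049)) (.cons (.rf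 (nat_lit 1948) (nat_lit 14996660110395393)) .nil)))) (.cons (.rf (nat_lit 3425) (nat_lit 13954729147982250049)) (.cons (.br (nat_lit 13) (nat_lit 0) (.cons (.rf (nat_lit 3492) (nat_lit 493858305440582043680)) (.cons (.rf (nat_lit 3493) (nat_lit 493858305440582043680)) (.cons (.br (nat_lit 13) (nat_lit 0) (.cons (.rf (nat_lit 3492) (nat_lit 493858305440582043680)) (.cons (.rf (nat_lit 3493) (nat_lit 493858305440582043680)) .nil))) .nil)))) .nil))))) (.cons (.br (nat_lit 10) (nat_lit 0) (.cons (.rf (nat_lit 3494) (nat_lit 14242959524133701664)) (.cons (.rf (nat_lit 3495) (nat_lit 14242959524133701664)) (.cons (.rf (nat_lit 3498) (nat_lit 14242959524133701664)) (.cons (.rf (nat_lit 3499) (nat_lit 14242959524133701664)) (.cons (.br (nat_lit 10) (nat_lit 0) (.cons (.rf (nat_lit 3494) (nat_lit 14242959524133701664)) (.cons (.rf (nat_lit 3495) (nat_lit 14242959524133701664)) (.cons (.rf (nat_lit 3498) (nat_lit 14242959524133701664)) (.cons (.rf (nat_lit 3499) (nat_lit 14242959524133701664)) .nil)))))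 .nil)))))) (.cons (.rf (nat_lit 1943) (nat_lit 427010)) .nil)))))),
 (.br (nat_lit 7) (nat_lit 0) (.cons (.ev (nat_lit 309485009821345073036525824) (nat_lit 1)) (.cons (.ev (nat_lit 1208925819615732981367041) (nat_lit 1)) (.cons (.br (nat_lit 12) (nat_lit 0) (.cons (.ev (nat_lit 309485028268370621722853633) (nat_lit 1)) (.cons (.ev (nat_lit 1208944266641281667563776) (nat_lit 1)) (.cons (.br (nat_lit 13) (nat_lit 0) (.cons (.ev (nat_lit 476606919903012436837543182340) (nat_lit 3)) (.cons (.ev (nat_lit 475373815567005519477322547200) (nat_lit 3)) .nil))) .nil)))) .nil)))),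
 (.br (nat_lit 13) (nat_lit 0) (.cons (.br (nat_lit 11) (nat_lit 0) (.cons (.ev (nat_lit 121696331461671671644680253604360) (nat_lit 4)) .nil)) (.cons (.br (nat_lit 7) (nat_lit 0) (.cons (.ev (nat_lit 121696331461671671644680253604360) (nat_lit 4)) .nil)) .nil))),
 (.br (nat_lit 3) (nat_lit 0) (.cons (.rf (nat_lit 3502) (nat_lit 493858305440582043680)) (.cons (.br (nat_lit 7) (nat_lit 0) (.cons (.ev (nat_lit 121696331461671671644680253604360) (nat_lit 4)) .nil)) .nil))),
 (.br (nat_lit 2) (nat_lit 0) (.cons (.rf (nat_lit 3477) (nat_lit 14242959524133700672)) (.cons (.rf (nat_lit 3500) (nat_lit 14242959524133701664)) (.cons (.br (nat_lit 7) (nat_lit 0) (.cons (.ev (nat_lit 309489750634853487073034496) (nat_lit 1)) (.cons (.ev (nat_lit 1208925819615732981367041) (nat_lit 1)) (.cons (.rf (nat_lit 3501) (nat_lit 14242959524133701664)) (.cons (.br (nat_lit 7) (nat_lit 0) (.cons (.ev (nat_lit 309485009821345073036525824) (nat_lit 1)) (.cons (.ev (nat_lit 1208925819615732981367041) (nat_lit 1)) (.cons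 (.rf (nat_lit 3501) (nat_lit 14242959524133701664)) .nil)))) .nil))))) (.cons (.br (nat_lit 10) (nat_lit 0) (.cons (.br (nat_lit 12) (nat_lit 0) (.cons (.br (nat_lit 7) (nat_lit 0) (.cons (.ev (nat_lit 79537652264970967203973169153) (nat_lit 1)) (.cons (.rf (nat_lit 2079) (nat_lit 470842606716960)) .nil))) (.cons (.rf (nat_lit 3469) (nat_lit 8087762274336)) (.cons (.rf (nat_lit 3438) (nat_lit 15070158837155872)) .nil)))) (.cons (.br (nat_lit 3) (nat_lit 0) (.cons (.br (nat_lit 12) (nat_lit 0) (.cons (.ev (nat_lit 79537652246524504605240393985) (nat_lit 1)) (.cons (.rf (nat_lit 2092) (nat_lit 469745209018400)) .nil))) (.cons (.br (nat_lit 12) (nat_lit 0) (.cons (.ev (nat_lit 79537652246524504605240393985) (nat_lit 1)) (.cons (.rf (nat_lit 3432) (nat_lit 465516845238304)) .nil))) (.cons (.br (nat_lit 7) (nat_lit 0) (.cons (.ev (nat_lit 79537652246524504605240393985) (nat_lit 1)) (.cons (.rf (nat_lit 2079) (nat_lit 468645730945056)) .nil))) (.cons (.br (nat_lit 12) (nat_lit 0) (.cons (.rf (nat_lit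 2101) (nat_lit 469911639001120)) (.cons (.rf (nat_lit 1966) (nat_lit 470842604685344)) (.cons (.br (nat_lit 7) (nat_lit 0) (.cons (.ev (nat_lit 81398193897944817638712541953) (nat_lit 3)) (.cons (.br (nat_lit 11) (nat_lit 0) (.cons (.ev (nat_lit 284905103465313358391497468415496) (nat_lit 4)) .nil)) .nil))) .nil)))) .nil))))) (.cons (.br (nat_lit 12) (nat_lit 0) (.cons (.rf (nat_lit 3469) (nat_lit 8085681899552)) (.cons (.br (nat_lit 3) (nat_lit 0) (.cons (.ev (nat_lit 79537652264970967203973169408) (nat_lit 1)) (.cons (.rf (nat_lit 1966) (nat_lit 468645728913440)) .nil))) (.cons (.rf (nat_lit 3438) (nat_lit 15070150255609857)) .nil)))) (.cons (.ev (nat_lit 1213648186098598331547904) (nat_lit 1)) (.cons (.br (nat_lit 12) (nat_lit 0) (.cons (.rf (nat_lit 3438) (nat_lit 15001989116233760)) (.cons (.br (nat_lit 3) (nat_lit 0) (.cons (.rf (nat_lit 2092) (nat_lit 469743128643616)) (.cons (.rf (nat_lit 3432) (nat_lit 465450273245216)) (.cons (.br (nat_lit 7) (nat_lit 0) (.cons (.rf (nat_lit 2092) (nat_lit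 460947035883521)) (.cons (.br (nat_lit 11) (nat_lit 0) (.cons (.ev (nat_lit 20361638975110201120243679494144) (nat_lit 1)) .nil)) .nil))) .nil)))) (.cons (.rf (nat_lit 3438) (nat_lit 15001980534687745)) (.cons (.br (nat_lit 7) (nat_lit 0) (.cons (.rf (nat_lit 3502) (nat_lit 493858305440582043680)) (.cons (.rf (nat_lit 3503) (nat_lit 493858305440582043680)) (.cons (.br (nat_lit 7) (nat_lit 0) (.cons (.rf (nat_lit 3502) (nat_lit 493858305440582043680)) (.cons (.rf (nat_lit 3503) (nat_lit 493858305440582043680)) .nil))) .nil)))) .nil))))) .nil)))))) (.cons (.rf (nat_lit 1943) (nat_lit 427010)) .nil)))))),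
 (.br (nat_lit 7) (nat_lit 0) (.cons (.br (nat_lit 10) (nat_lit 0) (.cons (.rf (nat_lit 1960) (nat_lit 470842604685344)) (.cons (.br (nat_lit 12) (nat_lit 0) (.cons (.ev (nat_lit 477228307774005006537207447558) (nat_lit 3)) .nil)) .nil))) (.cons (.rf (nat_lit 1947) (nat_lit 465516585191425)) .nil))),
 (.br (nat_lit 13) (nat_lit 0) (.cons (.rf (nat_lit 3505) (nat_lit 493858305440582043680)) (.cons (.br (nat_lit 13) (nat_lit 0) (.cons (.ev (nat_lit 40724513477111969539878113378304) (nat_lit 3)) .nil)) .nil))),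
 (.br (nat_lit 2) (nat_lit 0) (.cons (.rf (nat_lit 3477) (nat_lit 14242959524133700672)) (.cons (.rf (nat_lit 3500) (nat_lit 14242959524133701664)) (.cons (.rf (nat_lit 3504) (nat_lit 14242959524133701664)) (.cons (.br (nat_lit 3) (nat_lit 0) (.cons (.ev (nat_lit 309485009821345073036525824) (nat_lit 1)) (.cons (.ev (nat_lit 309489732187827938386837761) (nat_lit 1)) (.cons (.rf (nat_lit 3465) (nat_lit 3902694779691302977)) (.cons (.br (nat_lit 13) (nat_lit 0) (.cons (.rf (nat_lit 3505) (nat_lit 493858305440582043680)) (.cons (.rf (nat_lit 3506) (nat_lit 493858305440582043680)) (.cons (.br (nat_lit 13) (nat_lit 0) (.cons (.rf (nat_lit 3505) (nat_lit 493858305440582043680)) (.cons (.rf (nat_lit 3506) (nat_lit 493858305440582043680)) .nil))) .nil)))) .nil))))) (.cons (.rf (nat_lit 1943) (nat_lit 427010)) .nil)))))),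
 (.br (nat_lit 2) (nat_lit 0) (.cons (.rf (nat_lit 3477) (nat_lit 14242959524133700672)) (.cons (.rf (nat_lit 3500) (nat_lit 14242959524133701664)) (.cons (.rf (nat_lit 3504) (nat_lit 14242959524133701664)) (.cons (.rf (nat_lit 3507) (nat_lit 14242959524133701664)) (.cons (.br (nat_lit 2) (nat_lit 0) (.cons (.rf (nat_lit 3477) (nat_lit 14242959524133700672)) (.cons (.rf (nat_lit 3500) (nat_lit 14242959524133701664)) (.cons (.rf (nat_lit 3504) (nat_lit 14242959524133701664)) (.cons (.rf (nat_lit 3507) (nat_lit 14242959524133701664)) (.cons (.rf (nat_lit 1943) (nat_lit 427010)) .nil)))))) (.cons (.rf (nat_lit 1943) (nat_lit 427010)) .nil))))))),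
 (.br (nat_lit 1) (nat_lit 0) (.cons (.kr (nat_lit 1) (nat_lit 256) (nat_lit 0) (nat_lit 2)) (.cons (.br (nat_lit 2) (nat_lit 0) (.cons (.rf (nat_lit 3477) (nat_lit 14242959524133700672)) (.cons (.rf (nat_lit 3483) (nat_lit 14242959524133701664)) (.cons (.rf (nat_lit 3487) (nat_lit 14242959524133701664)) (.cons (.rf (nat_lit 3488) (nat_lit 14242959524133701664)) (.cons (.rf (nat_lit 3488) (nat_lit 13126066816545818656)) (.cons (.rf (nat_lit 1943) (nat_lit 427010)) .nil))))))) (.cons (.kr (nat_lit 4722366764344621924354) (nat_lit 18446744078004519424) (nat_lit 0) (nat_lit 2)) (.cons (.rf (nat_lit 3508) (nat_lit 14242959524133701664)) (.cons (.rf (nat_lit 3508) (nat_lit 13126066816545818656)) (.cons (.rf (nat_lit 1943) (nat_lit 428033)) .nil))))))),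
 (.br (nat_lit 9) (nat_lit 0) (.cons (.br (nat_lit 9) (nat_lit 0) .nil) .nil)),
 (.br (nat_lit 5) (nat_lit 0) (.cons (.br (nat_lit 10) (nat_lit 0) (.cons (.ev (nat_lit 620179000874597884671034115) (nat_lit 2)) (.cons (.rf (nat_lit 2129) (nat_lit 470979911452704)) .nil))) (.cons (.br (nat_lit 7) (nat_lit 0) (.cons (.ev (nat_lit 158457533954421195138110914816) (nat_lit 2)) (.cons (.rf (nat_lit 2129) (nat_lit 470976790890528)) .nil))) (.cons (.br (nat_lit 7) (nat_lit 0) (.cons (.ev (nat_lit 159077717751450378082877178880) (nat_lit 3)) (.cons (.rf (nat_lit 3510) (nat_lit 470979911452704)) .nil))) (.cons (.br (nat_lit 7) (nat_lit 0) (.cons (.rf (nat_lit 2124) (nat_lit 470974413899777)) (.cons (.rf (nat_lit 2129) (nat_lit 468637952902146)) (.cons (.br (nat_lit 10) (nat_lit 0) (.cons (.ev (nat_lit 1240362705669216035959473152) (nat_lit 3)) (.cons (.rf (nat_lit 2133) (nat_lit 15432820154985318401)) .nil))) .nil)))) .nil)))))]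

theorem c129 : chkAll C T R L129 (nat_lit 3488) = true := by decide +kernel

theorem l129 : (nat_lit 3488) + L129.length = (nat_lit 3512) := by decide +kernel

/-- part of the certificates -/
def L130 : List Prf := [(.br (nat_lit 3) (nat_lit 0) (.cons (.rf (nat_lit 2129) (nat_lit 432360739931200)) (.cons (.rf (nat_lit 2129) (nat_lit 430230436152384)) (.cons (.br (nat_lit 12) (nat_lit 0) (.cons (.rf (nat_lit 2139) (nat_lit 14167378957573653506)) (.cons (.rf (nat_lit 2139) (nat_lit 14097573163349410818)) .nil))) .nil)))),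
 (.br (nat_lit 12) (nat_lit 0) (.cons (.rf (nat_lit 3511) (nat_lit 13126066816545818656)) (.cons (.br (nat_lit 3) (nat_lit 0) (.cons (.ev (nat_lit 158457534009760582934309502976) (nat_lit 2)) (.cons (.rf (nat_lit 2129) (nat_lit 468635872527362)) .nil))) (.cons (.rf (nat_lit 3511) (nat_lit 13118151361539934209)) (.cons (.rf (nat_lit 3512) (nat_lit 15433070910038444064)) .nil))))),
 (.br (nat_lit 5) (nat_lit 0) (.cons (.rf (nat_lit 2133) (nat_lit 15356329259266573314)) (.cons (.rf (nat_lit 3512) (nat_lit 15102122448954556481)) (.cons (.br (nat_lit 7) (nat_lit 0) (.cons (.ev (nat_lit 159077717751450378082877572098) (nat_lit 3)) .nil)) .nil)))),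
 (.br (nat_lit 3) (nat_lit 0) (.cons (.br (nat_lit 10) (nat_lit 0) (.cons (.ev (nat_lit 20361947255898122872057965379840) (nat_lit 1)) .nil)) (.cons (.rf (nat_lit 3512) (nat_lit 15171928243178799169)) (.cons (.rf (nat_lit 3514) (nat_lit 493858305440582043680)) .nil)))),
 (.br (nat_lit 2) (nat_lit 0) (.cons (.rf (nat_lit 3477) (nat_lit 14242959524133700672)) (.cons (.rf (nat_lit 3509) (nat_lit 14242959524133700672)) (.cons (.rf (nat_lit 3509) (nat_lit 14235044069127815233)) (.cons (.rf (nat_lit 3477) (nat_lit 14235044069127815233)) (.cons (.br (nat_lit 11) (nat_lit 0) (.cons (.rf (nat_lit 3511) (nat_lit 14242959524133701664)) (.cons (.rf (nat_lit 3513) (nat_lit 14242959524133701664)) (.cons (.rf (nat_lit 3513) (nat_lit 14235044069127817217)) (.cons (.rf (nat_lit 3511) (nat_lit 14235044069127817217)) (.cons (.kr (nat_lit 309485009821345068724781056) (nat_lit 79228162514264337593543950336) (nat_lit 11) (nat_lit 0)) (.cons (.br (nat_lit 12) (nat_lit 0) (.cons (.rf (nat_lit 3511) (nat_lit 13126066816545818656))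 (.cons (.rf (nat_lit 3512) (nat_lit 15398168012926322720)) (.cons (.rf (nat_lit 3512) (nat_lit 15397993051060504577)) (.cons (.rf (nat_lit 3511) (nat_lit 13118151361539934209)) (.cons (.br (nat_lit 13) (nat_lit 0) (.cons (.rf (nat_lit 3514) (nat_lit 493858305440582043680)) (.cons (.rf (nat_lit 3515) (nat_lit 493858305440582043680)) (.cons (.rf (nat_lit 3515) (nat_lit 493850389985576159233)) (.cons (.rf (nat_lit 3514) (nat_lit 493850389985576159233)) .nil))))) .nil)))))) .nil))))))) (.cons (.rf (nat_lit 1943) (nat_lit 427010)) .nil))))))),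
 (.br (nat_lit 13) (nat_lit 0) (.cons (.br (nat_lit 12) (nat_lit 0) (.cons (.zr (nat_lit 121699409382086043161022406459392) (nat_lit 316917528261636687992539055108) (nat_lit 20) (nat_lit 1)) .nil)) (.cons (.br (nat_lit 10) (nat_lit 0) (.cons (.zr (nat_lit 121699409382086043161022406459392) (nat_lit 316917528261636687992539055108) (nat_lit 20) (nat_lit 1)) .nil)) .nil))),
 (.br (nat_lit 2) (nat_lit 0) (.cons (.rf (nat_lit 3477) (nat_lit 14242959524133700672)) (.cons (.rf (nat_lit 3509) (nat_lit 14242959524133700672)) (.cons (.rf (nat_lit 3509) (nat_lit 14235044069127815202)) (.cons (.kr (nat_lit 256) (nat_lit 65536) (nat_lit 1) (nat_lit 0)) (.cons (.br (nat_lit 3) (nat_lit 0) (.cons (.br (nat_lit 11) (nat_lit 0) (.cons (.br (nat_lit 12) (nat_lit 0) (.cons (.ev (nat_lit 79538861172271781260600344833) (nat_lit 1)) (.cons (.rf (nat_lit 3092) (nat_lit 463251250053185)) .nil))) (.cons (.zr (nat_lit 36894051123142591488) (nat_lit 159075304492976391956400701445) (nat_lit 15) (nat_lit 7)) (.cons (.br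 (nat_lit 10) (nat_lit 0) (.cons (.rf (nat_lit 3092) (nat_lit 463250209865762)) (.cons (.br (nat_lit 10) (nat_lit 0) (.cons (.ev (nat_lit 79538856449905298395250032896) (nat_lit 1)) .nil)) .nil))) .nil)))) (.cons (.ev (nat_lit 72339069031415809) (nat_lit 1)) (.cons (.ev (nat_lit 18518801667764322304) (nat_lit 1)) (.cons (.ev (nat_lit 18518801667764257024) (nat_lit 1)) (.cons (.br (nat_lit 5) (nat_lit 0) (.cons (.br (nat_lit 10) (nat_lit 0) (.cons (.rf (nat_lit 2092) (nat_lit 470937970769985)) (.cons (.rf (nat_lit 2092) (nat_lit 469838459174946)) (.cons (.br (nat_lit 11) (nat_lit 0) (.cons (.zr (nat_lit 2475889523592238140217098245) (nat_lit 554597137636743854613646606592) (nat_lit 15) (nat_lit 1)) (.cons (.br (nat_lit 12) (nat_lit 0) (.cons (.ev (nat_lit 20361948464842461287251064127488) (nat_lit 1)) .nil)) .nil))) .nil)))) (.cons (.rf (nat_lit 3438) (nat_lit 14748106158735425)) (.cons (.rf (nat_lit 3438) (nat_lit 14748105086042146)) (.cons (.br (nat_lit 10) (nat_lit 0) (.cons (.rf (nat_lit 3517)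 (nat_lit 493858305440582043680)) (.cons (.rf (nat_lit 3517) (nat_lit 492741412732994159680)) (.cons (.br (nat_lit 10) (nat_lit 0) (.cons (.rf (nat_lit 3517) (nat_lit 493858305440582043680)) (.cons (.rf (nat_lit 3517) (nat_lit 492741412732994159680)) .nil))) .nil)))) .nil))))) .nil)))))) (.cons (.rf (nat_lit 1943) (nat_lit 427010)) .nil))))))),
 (.br (nat_lit 10) (nat_lit 0) (.cons (.br (nat_lit 11) (nat_lit 0) (.cons (.ev (nat_lit 159077717751450378082877441028) (nat_lit 3)) (.cons (.rf (nat_lit 2124) (nat_lit 470946625456160)) .nil))) (.cons (.br (nat_lit 7) (nat_lit 0) (.cons (.ev (nat_lit 159077717751450378082877441028) (nat_lit 3)) (.cons (.rf (nat_lit 2124) (nat_lit 470942464706592)) .nil))) (.cons (.kr (nat_lit 1208925819614629191483392) (nat_lit 79228162514264338693055578112) (nat_lit 3) (nat_lit 0)) (.cons (.br (nat_lit 12) (nat_lit 0) (.cons (.rf (nat_lit 2124) (nat_lit 469743128642624)) (.cons (.rf (nat_lit 2124) (nat_lit 465482521084992)) (.cons (.br (nat_lit 13) (nat_lit 0) (.cons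 (.br (nat_lit 11) (nat_lit 0) (.cons (.ev (nat_lit 159077717677662275888132260352) (nat_lit 3)) .nil)) (.cons (.br (nat_lit 7) (nat_lit 0) (.cons (.ev (nat_lit 159077717677662275888132260352) (nat_lit 3)) .nil)) .nil))) .nil)))) .nil))))),
 (.br (nat_lit 12) (nat_lit 0) (.cons (.br (nat_lit 10) (nat_lit 0) (.cons (.ev (nat_lit 158765810056869384877842170371) (nat_lit 2)) (.cons (.rf (nat_lit 2129) (nat_lit 469743128642624)) .nil))) (.cons (.rf (nat_lit 3519) (nat_lit 6020334523405107234)) (.cons (.ev (nat_lit 158765810038422922279109329152) (nat_lit 2)) (.cons (.br (nat_lit 5) (nat_lit 0) (.cons (.rf (nat_lit 2129) (nat_lit 469745209017408)) (.cons (.rf (nat_lit 3510) (nat_lit 469743128642624)) (.cons (.br (nat_lit 10) (nat_lit 0) (.cons (.rf (nat_lit 2129) (nat_lit 470940051146753)) (.cons (.br (nat_lit 11) (nat_lit 0) (.cons (.ev (nat_lit 20361948464842461287251064127488) (nat_lit 1)) .nil)) .nil))) .nil)))) .nil))))),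
 (.br (nat_lit 5) (nat_lit 0) (.cons (.rf (nat_lit 3510) (nat_lit 465482521084992)) (.cons (.rf (nat_lit 2129) (nat_lit 465484601459776)) (.cons (.br (nat_lit 7) (nat_lit 0) (.cons (.rf (nat_lit 2129) (nat_lit 470940055209985)) (.cons (.br (nat_lit 10) (nat_lit 0) (.cons (.ev (nat_lit 20361948464824014261702377930753) (nat_lit 1)) .nil)) .nil))) .nil)))),
 (.br (nat_lit 12) (nat_lit 0) (.cons (.br (nat_lit 7) (nat_lit 0) (.cons (.ev (nat_lit 158765810093762310075307983361) (nat_lit 2)) (.cons (.rf (nat_lit 2129) (nat_lit 468812158896160)) .nil))) (.cons (.ev (nat_lit 158765810038422922279109329152) (nat_lit 2)) (.cons (.rf (nat_lit 3519) (nat_lit 6020334523405107234)) (.cons (.rf (nat_lit 3521) (nat_lit 493858305440582043680)) .nil))))),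
 (.br (nat_lit 10) (nat_lit 0) (.cons (.kr (nat_lit 1208925819614629191483392) (nat_lit 79228162514264338693055578112) (nat_lit 3) (nat_lit 0)) (.cons (.rf (nat_lit 3522) (nat_lit 6020334523405107234)) (.cons (.rf (nat_lit 3520) (nat_lit 6020334523405107234)) (.cons (.br (nat_lit 5) (nat_lit 0) (.cons (.rf (nat_lit 2129) (nat_lit 469743126611008)) (.cons (.rf (nat_lit 2129) (nat_lit 465482519053376)) (.cons (.br (nat_lit 7) (nat_lit 0) (.cons (.ev (nat_lit 1861750540347564328407531520) (nat_lit 3)) (.cons (.br (nat_lit 11) (nat_lit 0) (.cons (.ev (nat_lit 81606247752324295760739869787648) (nat_lit 3)) .nil)) .nil))) .nil)))) .nil))))),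
 (.br (nat_lit 7) (nat_lit 0) (.cons (.ev (nat_lit 1861750540347564328407531520) (nat_lit 3)) (.cons (.rf (nat_lit 3521) (nat_lit 485635680439786405922)) (.cons (.br (nat_lit 11) (nat_lit 0) (.cons (.ev (nat_lit 20282719093383930310579187613696) (nat_lit 1)) .nil)) .nil)))),
 (.br (nat_lit 13) (nat_lit 0) (.cons (.rf (nat_lit 3524) (nat_lit 493858305440582043680)) (.cons (.br (nat_lit 5) (nat_lit 0) (.cons (.zr (nat_lit 1856914800173924399203090438) (nat_lit 81446555900367017509077993391104) (nat_lit 20) (nat_lit 1)) .nil)) (.cons (.rf (nat_lit 3524) (nat_lit 485635680439853449250)) .nil)))),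
 (.br (nat_lit 2) (nat_lit 0) (.cons (.rf (nat_lit 3477) (nat_lit 14242959524133700672)) (.cons (.kr (nat_lit 4722366764344621924354) (nat_lit 18446744078004649984) (nat_lit 0) (nat_lit 1)) (.cons (.rf (nat_lit 3509) (nat_lit 14235044069127815202)) (.cons (.rf (nat_lit 3509) (nat_lit 8254119972907057186)) (.cons (.br (nat_lit 3) (nat_lit 0) (.cons (.rf (nat_lit 3519) (nat_lit 14242959524133701664)) (.cons (.rf (nat_lit 3520) (nat_lit 14242959524133701664)) (.cons (.br (nat_lit 5) (nat_lit 0) (.cons (.br (nat_lit 11) (nat_lit 0) (.cons (.ev (nat_lit 158765810093762310075307917826) (nat_lit 2)) (.cons (.rf (nat_lit 2129) (nat_lit 470946625456160)) .nil))) (.cons (.br (nat_lit 7) (nat_lit 0) (.cons (.ev (nat_lit 158765810056869384877842104832) (nat_lit 2)) (.cons (.rf (nat_lit 2129) (nat_lit 470942464706592)) .nil))) (.cons (.br (nat_lit 7) (nat_lit 0) (.cons (.ev (nat_lit 623810574560929955015033860) (nat_lit 3)) (.cons (.rf (nat_lit 3510) (nat_lit 470946625456160)) .nil))) (.cons (.br (nat_lit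 7) (nat_lit 0) (.cons (.rf (nat_lit 2124) (nat_lit 470940055209985)) (.cons (.rf (nat_lit 2129) (nat_lit 469737463481346)) (.cons (.br (nat_lit 11) (nat_lit 0) (.cons (.rf (nat_lit 2129) (nat_lit 465476855923714)) (.cons (.br (nat_lit 12) (nat_lit 0) (.cons (.zr (nat_lit 1856914800173924399203090438) (nat_lit 81446555900367017509077993391104) (nat_lit 20) (nat_lit 1)) .nil)) .nil))) .nil)))) .nil))))) (.cons (.rf (nat_lit 3522) (nat_lit 14242959524133701664)) (.cons (.rf (nat_lit 3523) (nat_lit 14242959524133701664)) (.cons (.br (nat_lit 10) (nat_lit 0) (.cons (.rf (nat_lit 3523) (nat_lit 6020334523405107234)) (.cons (.rf (nat_lit 3522) (nat_lit 6020334523405107234)) (.cons (.rf (nat_lit 3520) (nat_lit 6020334523405107234)) (.cons (.rf (nat_lit 3519) (nat_lit 6020334523405107234)) (.cons (.br (nat_lit 13) (nat_lit 0) (.cons (.rf (nat_lit 3524) (nat_lit 493858305440582043680)) (.cons (.rf (nat_lit 3525) (nat_lit 493858305440582043680)) (.cons (.rf (nat_lit 3525) (nat_lit 485635680439853449250))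 (.cons (.rf (nat_lit 3524) (nat_lit 485635680439853449250)) .nil))))) .nil)))))) .nil))))))) (.cons (.rf (nat_lit 1943) (nat_lit 427010)) .nil))))))),
 (.br (nat_lit 13) (nat_lit 0) (.cons (.br (nat_lit 12) (nat_lit 0) (.cons (.ev (nat_lit 122803668827071277993077164999682) (nat_lit 4)) .nil)) (.cons (.br (nat_lit 10) (nat_lit 0) (.cons (.ev (nat_lit 122803668827071277993077164999682) (nat_lit 4)) .nil)) .nil))),
 (.br (nat_lit 7) (nat_lit 0) (.cons (.rf (nat_lit 3527) (nat_lit 493858305440582043680)) (.cons (.br (nat_lit 10) (nat_lit 0) (.cons (.ev (nat_lit 122803668827071277993077164477442) (nat_lit 4)) .nil)) .nil))),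
 (.br (nat_lit 2) (nat_lit 0) (.cons (.rf (nat_lit 3477) (nat_lit 14242959524133700672)) (.cons (.rf (nat_lit 3509) (nat_lit 14242959524133700672)) (.cons (.kr (nat_lit 256) (nat_lit 65536) (nat_lit 1) (nat_lit 0)) (.cons (.rf (nat_lit 3509) (nat_lit 8254119972907057186)) (.cons (.br (nat_lit 3) (nat_lit 0) (.cons (.ev (nat_lit 309485009821345073036525824) (nat_lit 1)) (.cons (.br (nat_lit 5) (nat_lit 0) (.cons (.br (nat_lit 10) (nat_lit 0) (.cons (.ev (nat_lit 79229376180969237863917944833) (nat_lit 1)) (.cons (.rf (nat_lit 2079) (nat_lit 463241628319809)) .nil))) (.cons (.rf (nat_lit 3469) (nat_lit 11412910211137)) (.cons (.rf (nat_lit 3438) (nat_lit 14816275875594305)) .nil)))) (.cons (.br (nat_lit 5) (nat_lit 0) (.cons (.br (nat_lit 10) (nat_lit 0) (.cons (.ev (nat_lit 79229376162522775265185169408) (nat_lit 1)) (.cons (.rf (nat_lit 2079) (nat_lit 461044752547905)) .nil))) (.cons (.br (nat_lit 7) (nat_lit 0) (.cons (.ev (nat_lit 79229376162522775265185169408) (nat_lit 1)) (.cons (.rf (nat_lit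 2101) (nat_lit 470773625225281)) .nil))) (.cons (.br (nat_lit 7) (nat_lit 0) (.cons (.ev (nat_lit 79229376162522775265185169408) (nat_lit 1)) (.cons (.rf (nat_lit 1966) (nat_lit 463241624256577)) .nil))) (.cons (.br (nat_lit 7) (nat_lit 0) (.cons (.rf (nat_lit 2092) (nat_lit 470940055208001)) (.cons (.rf (nat_lit 3432) (nat_lit 468567383703617)) (.cons (.br (nat_lit 10) (nat_lit 0) (.cons (.ev (nat_lit 80157835914354988788018841345) (nat_lit 3)) (.cons (.br (nat_lit 12) (nat_lit 0) (.cons (.ev (nat_lit 122487989281128578409615682440202) (nat_lit 4)) .nil)) .nil))) .nil)))) .nil))))) (.cons (.br (nat_lit 5) (nat_lit 0) (.cons (.rf (nat_lit 3469) (nat_lit 11410829836353)) (.cons (.br (nat_lit 7) (nat_lit 0) (.cons (.ev (nat_lit 79229376180969237863918010625) (nat_lit 1)) (.cons (.rf (nat_lit 1966) (nat_lit 461044748484673)) .nil))) (.cons (.rf (nat_lit 3438) (nat_lit 14816270512128034)) .nil)))) (.cons (.br (nat_lit 5) (nat_lit 0) (.cons (.rf (nat_lit 3438) (nat_lit 14748106154672193)) (.cons (.rf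 (nat_lit 3470) (nat_lit 15356331456142344226)) (.cons (.rf (nat_lit 3438) (nat_lit 14748100791205922)) (.cons (.br (nat_lit 10) (nat_lit 0) (.cons (.rf (nat_lit 3527) (nat_lit 493858305440582043680)) (.cons (.rf (nat_lit 3528) (nat_lit 493858305440582043680)) (.cons (.br (nat_lit 10) (nat_lit 0) (.cons (.rf (nat_lit 3527) (nat_lit 493858305440582043680)) (.cons (.rf (nat_lit 3528) (nat_lit 493858305440582043680)) .nil))) .nil)))) .nil))))) .nil)))))) (.cons (.rf (nat_lit 1943) (nat_lit 427010)) .nil))))))),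
 (.br (nat_lit 2) (nat_lit 0) (.cons (.rf (nat_lit 3477) (nat_lit 14242959524133700672)) (.cons (.rf (nat_lit 3509) (nat_lit 14242959524133700672)) (.cons (.rf (nat_lit 3518) (nat_lit 14242959524133701664)) (.cons (.rf (nat_lit 3526) (nat_lit 14242959524133701664)) (.cons (.rf (nat_lit 3529) (nat_lit 14242959524133701664)) (.cons (.br (nat_lit 2) (nat_lit 0) (.cons (.rf (nat_lit 3477) (nat_lit 14242959524133700672)) (.cons (.rf (nat_lit 3509) (nat_lit 14242959524133700672)) (.cons (.rf (nat_lit 3518) (nat_lit 14242959524133701664)) (.cons (.rf (nat_lit 3526) (nat_lit 14242959524133701664)) (.cons (.rf (nat_lit 3529) (nat_lit 14242959524133701664)) (.cons (.rf (nat_lit 1943) (nat_lit 427010)) .nil))))))) (.cons (.rf (nat_lit 1943) (nat_lit 427010)) .nil)))))))),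
 (.br (nat_lit 1) (nat_lit 0) (.cons (.rf (nat_lit 3477) (nat_lit 14242959524133701664)) (.cons (.rf (nat_lit 3509) (nat_lit 14242959524133701664)) (.cons (.br (nat_lit 2) (nat_lit 0) (.cons (.rf (nat_lit 3477) (nat_lit 14242959524133700672)) (.cons (.rf (nat_lit 3509) (nat_lit 14242959524133700672)) (.cons (.rf (nat_lit 3509) (nat_lit 14235044069127815233)) (.cons (.rf (nat_lit 3477) (nat_lit 14235044069127815233)) (.cons (.rf (nat_lit 3516) (nat_lit 14242959524133701664)) (.cons (.rf (nat_lit 3516) (nat_lit 13126066816545818656)) (.cons (.rf (nat_lit 1943) (nat_lit 427010)) .nil)))))))) (.cons (.rf (nat_lit 3530) (nat_lit 14242959524133701664)) (.cons (.rf (nat_lit 3530) (nat_lit 13126066816545818656)) (.cons (.rf (nat_lit 1943) (nat_lit 428033)) .nil))))))),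
 (.br (nat_lit 2) (nat_lit 0) (.cons (.rf (nat_lit 3477) (nat_lit 14242959524133700672)) (.cons (.rf (nat_lit 3509) (nat_lit 14242959524133700672)) (.cons (.rf (nat_lit 3531) (nat_lit 14242959524133700672)) (.cons (.rf (nat_lit 3477) (nat_lit 8254119972907057217)) (.cons (.rf (nat_lit 3509) (nat_lit 8254119972907057217)) (.cons (.rf (nat_lit 3531) (nat_lit 8254119972907057217)) (.cons (.rf (nat_lit 1943) (nat_lit 427010)) .nil)))))))),
 (.br (nat_lit 1) (nat_lit 0) (.cons (.rf (nat_lit 3477) (nat_lit 14242959524133701664)) (.cons (.kr (nat_lit 4722366764344621924354) (nat_lit 18446744078004519424) (nat_lit 0) (nat_lit 2)) (.cons (.rf (nat_lit 3531) (nat_lit 14242959524133701664)) (.cons (.rf (nat_lit 3532) (nat_lit 14242959524133701664)) (.cons (.rf (nat_lit 3532) (nat_lit 13126066816545818656)) (.cons (.rf (nat_lit 1943) (nat_lit 428033)) .nil))))))),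
 (.br (nat_lit 2) (nat_lit 0) (.cons (.rf (nat_lit 3477) (nat_lit 14242959524133700672)) (.cons (.rf (nat_lit 3509) (nat_lit 14242959524133700672)) (.cons (.rf (nat_lit 3531) (nat_lit 14242959524133700672)) (.cons (.rf (nat_lit 3509) (nat_lit 8254119972907057186)) (.cons (.kr (nat_lit 256) (nat_lit 65536) (nat_lit 1) (nat_lit 0)) (.cons (.rf (nat_lit 1943) (nat_lit 427010)) .nil)))))))]

theorem c130 : chkAll C T R L130 (nat_lit 3512) = true := by decide +kernel

theorem l130 : (nat_lit 3512) + L130.length = (nat_lit 3535) := by decide +kernel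

/-- part of the certificates -/
def L131 : List Prf := [(.br (nat_lit 1) (nat_lit 0) (.cons (.rf (nat_lit 3477) (nat_lit 14242959524133701664)) (.cons (.rf (nat_lit 3509) (nat_lit 14242959524133701664)) (.cons (.rf (nat_lit 3531) (nat_lit 14242959524133701664)) (.cons (.rf (nat_lit 3533) (nat_lit 14242959524133701664)) (.cons (.br (nat_lit 2) (nat_lit 0) (.cons (.rf (nat_lit 3477) (nat_lit 14242959524133700672)) (.cons (.rf (nat_lit 3509) (nat_lit 14242959524133700672)) (.cons (.rf (nat_lit 3531) (nat_lit 14242959524133700672)) (.cons (.rf (nat_lit 3533) (nat_lit 14242959524133700672)) (.cons (.rf (nat_lit 3534) (nat_lit 14242959524133701664)) (.cons (.rf (nat_lit 3534) (nat_lit 13126066816545818656)) (.cons (.rf (nat_lit 1943) (nat_lit 427010)) .nil)))))))) (.cons (.rf (nat_lit 1943) (nat_lit 428033)) .nil))))))),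
 (.br (nat_lit 1) (nat_lit 0) (.cons (.rf (nat_lit 3477) (nat_lit 14242959524133701664)) (.cons (.rf (nat_lit 3509) (nat_lit 14242959524133701664)) (.cons (.rf (nat_lit 3531) (nat_lit 14242959524133701664)) (.cons (.rf (nat_lit 3533) (nat_lit 14242959524133701664)) (.cons (.rf (nat_lit 3535) (nat_lit 14242959524133701664)) (.cons (.rf (nat_lit 3535) (nat_lit 13126066816545818656)) (.cons (.rf (nat_lit 1943) (nat_lit 428033)) .nil)))))))),
 (.br (nat_lit 10) (nat_lit 0) (.cons (.ev (nat_lit 309485010037799338733928961) (nat_lit 2)) (.cons (.br (nat_lit 11) (nat_lit 0) (.cons (.ev (nat_lit 79229376180969237863918010625) (nat_lit 1)) (.cons (.rf (nat_lit 2163) (nat_lit 15070293155546176)) .nil))) (.cons (.rf (nat_lit 2163) (nat_lit 15071358309468192)) .nil)))),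
 (.br (nat_lit 11) (nat_lit 0) (.cons (.br (nat_lit 13) (nat_lit 0) (.cons (.ev (nat_lit 623810537665752957735535104) (nat_lit 3)) (.cons (.ev (nat_lit 158461165546551738007373873664) (nat_lit 3)) .nil))) (.cons (.br (nat_lit 11) (nat_lit 0) (.cons (.ev (nat_lit 623810537665752957735535104) (nat_lit 3)) .nil)) .nil))),
 (.br (nat_lit 13) (nat_lit 0) (.cons (.rf (nat_lit 3538) (nat_lit 493858305440582043680)) (.cons (.br (nat_lit 10) (nat_lit 0) (.cons (.ev (nat_lit 310698676526245339098841345) (nat_lit 1)) (.cons (.ev (nat_lit 79229371440156292391244988673) (nat_lit 1)) (.cons (.rf (nat_lit 3538) (nat_lit 493858305440582043680)) .nil)))) .nil))),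
 (.br (nat_lit 2) (nat_lit 0) (.cons (.ev (nat_lit 1208925819615732981301504) (nat_lit 1)) (.cons (.rf (nat_lit 3537) (nat_lit 14242959524133701664)) (.cons (.rf (nat_lit 3537) (nat_lit 13126066816545818656)) (.cons (.br (nat_lit 13) (nat_lit 0) (.cons (.rf (nat_lit 3538) (nat_lit 493858305440582043680)) (.cons (.rf (nat_lit 3539) (nat_lit 493858305440582043680)) (.cons (.rf (nat_lit 3539) (nat_lit 492741412732994160672)) .nil)))) .nil))))),
 (.br (nat_lit 10) (nat_lit 0) (.cons (.ev (nat_lit 310698658007445870425014786) (nat_lit 2)) (.cons (.rf (nat_lit 2173) (nat_lit 469911639001120)) .nil))),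
 (.br (nat_lit 11) (nat_lit 0) (.cons (.ev (nat_lit 79229376162522492686401863681) (nat_lit 1)) .nil)),
 (.br (nat_lit 2) (nat_lit 0) (.cons (.rf (nat_lit 3540) (nat_lit 14242959524133701664)) (.cons (.ev (nat_lit 1213666633124147017810176) (nat_lit 1)) (.cons (.br (nat_lit 7) (nat_lit 0) (.cons (.ev (nat_lit 18518801667764322561) (nat_lit 1)) (.cons (.rf (nat_lit 3541) (nat_lit 14242959524133701664)) (.cons (.rf (nat_lit 3541) (nat_lit 13126066816545818656)) (.cons (.br (nat_lit 10) (nat_lit 0) (.cons (.rf (nat_lit 2173) (nat_lit 469914759563296)) (.cons (.rf (nat_lit 2173) (nat_lit 470979911452704)) (.cons (.br (nat_lit 11) (nat_lit 0) (.cons (.kr (nat_lit 309485009821345068724781056) (nat_lit 79228162514264337593543950336) (nat_lit 11) (nat_lit 0)) (.cons (.br (nat_lit 12) (nat_lit 0) (.cons (.ev (nat_lit 20282410812577634435252413989121) (nat_lit 2)) .nil)) .nil))) .nil)))) .nil))))) (.cons (.br (nat_lit 7) (nat_lit 0) (.cons (.rf (nat_lit 2175) (nat_lit 15071358309468192)) (.cons (.rf (nat_lit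 2198) (nat_lit 15035142105040928)) (.cons (.br (nat_lit 10) (nat_lit 0) (.cons (.rf (nat_lit 2198) (nat_lit 15031846791383072)) (.cons (.rf (nat_lit 2187) (nat_lit 14716945664032)) (.cons (.br (nat_lit 11) (nat_lit 0) (.cons (.ev (nat_lit 79228162532711363146541957376) (nat_lit 1)) (.cons (.rf (nat_lit 3542) (nat_lit 15433072045018155040)) .nil))) .nil)))) (.cons (.br (nat_lit 10) (nat_lit 0) (.cons (.rf (nat_lit 2198) (nat_lit 15031846791383072)) (.cons (.br (nat_lit 11) (nat_lit 0) (.cons (.kr (nat_lit 237684487542865071474181406721) (nat_lit 310698658007724042538254336) (nat_lit 0) (nat_lit 1)) (.cons (.br (nat_lit 12) (nat_lit 0) (.cons (.ev (nat_lit 20440865928698862861523227902720) (nat_lit 2)) .nil)) .nil))) (.cons (.br (nat_lit 11) (nat_lit 0) (.cons (.br (nat_lit 12) (nat_lit 0) (.cons (.ev (nat_lit 79538856449905298395250032896) (nat_lit 1)) .nil)) (.cons (.ev (nat_lit 20282409608392483651994429489153) (nat_lit 1)) .nil))) .nil)))) .nil))))) .nil))))),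
 (.br (nat_lit 10) (nat_lit 0) (.cons (.rf (nat_lit 2233) (nat_lit 470976790890528)) (.cons (.br (nat_lit 11) (nat_lit 0) (.cons (.ev (nat_lit 310693935713299866425819393) (nat_lit 1)) (.cons (.br (nat_lit 12) (nat_lit 0) (.cons (.ev (nat_lit 20520406003500873152874896490496) (nat_lit 2)) .nil)) .nil))) .nil))),
 (.br (nat_lit 10) (nat_lit 0) (.cons (.br (nat_lit 10) (nat_lit 0) (.cons (.rf (nat_lit 3544) (nat_lit 493858305440582043680)) .nil)) (.cons (.rf (nat_lit 3544) (nat_lit 493858305440582043680)) .nil))),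
 (.br (nat_lit 2) (nat_lit 0) (.cons (.br (nat_lit 10) (nat_lit 0) (.cons (.rf (nat_lit 2164) (nat_lit 11419484522528)) (.cons (.br (nat_lit 11) (nat_lit 0) (.cons (.ev (nat_lit 79537647524158021731300147201) (nat_lit 1)) (.cons (.rf (nat_lit 2163) (nat_lit 15070293157578784)) .nil))) (.cons (.rf (nat_lit 2163) (nat_lit 15071358307435584)) .nil)))) (.cons (.ev (nat_lit 309485009821345073036591104) (nat_lit 1)) (.cons (.br (nat_lit 11) (nat_lit 0) (.cons (.br (nat_lit 10) (nat_lit 0) (.cons (.ev (nat_lit 1240362705669216035959473152) (nat_lit 3)) (.cons (.rf (nat_lit 2234) (nat_lit 15071255330916384)) .nil))) (.cons (.rf (nat_lit 2164) (nat_lit 13549788301344)) (.cons (.rf (nat_lit 2163) (nat_lit 15002121289173024)) .nil)))) (.cons (.br (nat_lit 13) (nat_lit 0) (.cons (.rf (nat_lit 3544) (nat_lit 493858305440582043680)) (.cons (.rf (nat_lit 3545) (nat_lit 493858305440582043680)) (.cons (.br (nat_lit 13) (nat_lit 0) (.cons (.rf (nat_lit 3544) (nat_lit 493858305440582043680)) (.cons (.rf (nat_lit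 3545) (nat_lit 493858305440582043680)) .nil))) .nil)))) .nil))))),
 (.br (nat_lit 6) (nat_lit 0) (.cons (.rf (nat_lit 2164) (nat_lit 10280345110560)) (.cons (.br (nat_lit 9) (nat_lit 0) (.cons (.ev (nat_lit 309485028268089142451110144) (nat_lit 1)) (.cons (.rf (nat_lit 2163) (nat_lit 13904741137548352)) .nil))) (.cons (.rf (nat_lit 2163) (nat_lit 13907936595249184)) .nil)))),
 (.br (nat_lit 2) (nat_lit 0) (.cons (.rf (nat_lit 3546) (nat_lit 14242959524133701664)) (.cons (.rf (nat_lit 3547) (nat_lit 445092485094541344)) (.cons (.br (nat_lit 7) (nat_lit 0) (.cons (.ev (nat_lit 18518801667764322561) (nat_lit 1)) (.cons (.br (nat_lit 10) (nat_lit 0) (.cons (.ev (nat_lit 313111842765381889912078850) (nat_lit 2)) (.cons (.rf (nat_lit 2242) (nat_lit 469911639001120)) .nil))) (.cons (.br (nat_lit 10) (nat_lit 0) (.cons (.ev (nat_lit 1240362705669216035959473152) (nat_lit 3)) (.cons (.rf (nat_lit 2173) (nat_lit 465484599428160)) .nil))) (.cons (.br (nat_lit 10) (nat_lit 0) (.cons (.rf (nat_lit 2173) (nat_lit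 468816321677344)) (.cons (.rf (nat_lit 2242) (nat_lit 470979909420096)) (.cons (.br (nat_lit 11) (nat_lit 0) (.cons (.rf (nat_lit 2173) (nat_lit 470946625456160)) (.cons (.br (nat_lit 12) (nat_lit 0) (.cons (.ev (nat_lit 284115285631212738800058783369742) (nat_lit 4)) .nil)) .nil))) .nil)))) .nil))))) (.cons (.br (nat_lit 7) (nat_lit 0) (.cons (.rf (nat_lit 2198) (nat_lit 15001057244579872)) (.cons (.rf (nat_lit 2175) (nat_lit 15070293157578784)) (.cons (.br (nat_lit 10) (nat_lit 0) (.cons (.ev (nat_lit 1240362705669216035959473152) (nat_lit 3)) (.cons (.ev (nat_lit 79228167236630820463205941504) (nat_lit 1)) (.cons (.br (nat_lit 11) (nat_lit 0) (.cons (.rf (nat_lit 2187) (nat_lit 14718019405856)) (.cons (.br (nat_lit 12) (nat_lit 0) (.cons (.ev (nat_lit 121695081432447832409630295982592) (nat_lit 3)) .nil)) .nil))) .nil)))) (.cons (.br (nat_lit 10) (nat_lit 0) (.cons (.rf (nat_lit 2198) (nat_lit 14996663493036064)) (.cons (.br (nat_lit 11) (nat_lit 0) (.cons (.rf (nat_lit 2196) (nat_lit 468645730945056))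 (.cons (.br (nat_lit 12) (nat_lit 0) (.cons (.ev (nat_lit 79538856449905298395250032896) (nat_lit 1)) .nil)) .nil))) (.cons (.br (nat_lit 12) (nat_lit 0) (.cons (.br (nat_lit 12) (nat_lit 0) (.cons (.zr (nat_lit 4845350925609092631232522) (nat_lit 20286123423769599478885544755456) (nat_lit 30) (nat_lit 3)) .nil)) (.cons (.br (nat_lit 11) (nat_lit 0) (.cons (.zr (nat_lit 4845350925609092631232522) (nat_lit 20286123423769599478885544755456) (nat_lit 30) (nat_lit 3)) .nil)) .nil))) .nil)))) .nil))))) .nil))))),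
 (.br (nat_lit 9) (nat_lit 0) (.cons (.ev (nat_lit 4740813228042866458624) (nat_lit 1)) .nil)),
 (.br (nat_lit 10) (nat_lit 0) (.cons (.rf (nat_lit 3549) (nat_lit 15433072009550071840)) (.cons (.br (nat_lit 12) (nat_lit 0) (.cons (.ev (nat_lit 1208944266641281667629056) (nat_lit 1)) (.cons (.rf (nat_lit 2303) (nat_lit 15398165817057248320)) .nil))) .nil))),
 (.br (nat_lit 9) (nat_lit 0) (.cons (.rf (nat_lit 2233) (nat_lit 434558655891488)) (.cons (.ev (nat_lit 4740813228042866458624) (nat_lit 1)) .nil))),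
 (.br (nat_lit 2) (nat_lit 0) (.cons (.ev (nat_lit 309485009821345073036591104) (nat_lit 1)) (.cons (.rf (nat_lit 3547) (nat_lit 445092485094541344)) (.cons (.br (nat_lit 7) (nat_lit 0) (.cons (.br (nat_lit 10) (nat_lit 0) (.cons (.ev (nat_lit 475376233455104763211377148930) (nat_lit 3)) (.cons (.rf (nat_lit 2234) (nat_lit 15066994723358752)) .nil))) (.cons (.rf (nat_lit 2164) (nat_lit 13545627551776)) (.cons (.rf (nat_lit 2163) (nat_lit 15001983984437280)) .nil)))) (.cons (.br (nat_lit 13) (nat_lit 0) (.cons (.rf (nat_lit 3550) (nat_lit 493858305440582043680)) (.cons (.rf (nat_lit 3551) (nat_lit 15433072009550071840)) (.cons (.br (nat_lit 13) (nat_lit 0) (.cons (.rf (nat_lit 3550) (nat_lit 493858305440582043680)) (.cons (.rf (nat_lit 3551) (nat_lit 15433072009550071840)) .nil))) .nil)))) .nil))))),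
 (.br (nat_lit 2) (nat_lit 0) (.cons (.rf (nat_lit 3546) (nat_lit 14242959524133701664)) (.cons (.rf (nat_lit 3548) (nat_lit 14242959524133701664)) (.cons (.rf (nat_lit 3552) (nat_lit 14242959524133701664)) (.cons (.br (nat_lit 7) (nat_lit 0) (.cons (.br (nat_lit 10) (nat_lit 0) (.cons (.rf (nat_lit 2187) (nat_lit 14649299929120)) (.cons (.rf (nat_lit 2196) (nat_lit 470979911452704)) (.cons (.br (nat_lit 11) (nat_lit 0) (.cons (.ev (nat_lit 79537647524158021731300147201) (nat_lit 1)) (.cons (.br (nat_lit 12) (nat_lit 0) (.cons (.ev (nat_lit 40882350832120855524927751586304) (nat_lit 3)) .nil)) .nil))) .nil)))) (.cons (.rf (nat_lit 2175) (nat_lit 15002121289173024)) (.cons (.rf (nat_lit 2198) (nat_lit 15071357202171936)) (.cons (.ev (nat_lit 18518801667764322561) (nat_lit 1)) .nil))))) .nil))))),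
 (.br (nat_lit 2) (nat_lit 0) (.cons (.rf (nat_lit 3546) (nat_lit 14242959524133701664)) (.cons (.rf (nat_lit 3548) (nat_lit 14242959524133701664)) (.cons (.rf (nat_lit 3552) (nat_lit 14242959524133701664)) (.cons (.rf (nat_lit 3553) (nat_lit 14242959524133701664)) (.cons (.br (nat_lit 2) (nat_lit 0) (.cons (.rf (nat_lit 3546) (nat_lit 14242959524133701664)) (.cons (.rf (nat_lit 3548) (nat_lit 14242959524133701664)) (.cons (.rf (nat_lit 3552) (nat_lit 14242959524133701664)) (.cons (.rf (nat_lit 3553) (nat_lit 14242959524133701664)) .nil))))) .nil)))))),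
 (.br (nat_lit 11) (nat_lit 0) (.cons (.br (nat_lit 11) (nat_lit 0) (.cons (.ev (nat_lit 79228167255149622130936643584) (nat_lit 1)) .nil)) (.cons (.ev (nat_lit 79228167255149622130936643584) (nat_lit 1)) .nil))),
 (.br (nat_lit 9) (nat_lit 0) (.cons (.rf (nat_lit 3555) (nat_lit 14242959524133701664)) (.cons (.rf (nat_lit 3555) (nat_lit 14208056627021580320)) (.cons (.rf (nat_lit 2252) (nat_lit 434658513881120)) .nil)))),
 (.br (nat_lit 10) (nat_lit 0) (.cons (.rf (nat_lit 3555) (nat_lit 14242959524133701664)) (.cons (.rf (nat_lit 3556) (nat_lit 14242959524133701664)) (.cons (.br (nat_lit 11) (nat_lit 0) (.cons (.ev (nat_lit 79228167255149622130936643584) (nat_lit 1)) (.cons (.rf (nat_lit 3556) (nat_lit 14242959524133701664)) .nil))) .nil)))),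
 (.br (nat_lit 13) (nat_lit 0) (.cons (.rf (nat_lit 3557) (nat_lit 2750935390222398465)) (.cons (.ev (nat_lit 40566057152157659623608728027650) (nat_lit 3)) .nil))),
 (.br (nat_lit 10) (nat_lit 0) (.cons (.rf (nat_lit 3558) (nat_lit 493858305440582043680)) (.cons (.br (nat_lit 10) (nat_lit 0) (.cons (.rf (nat_lit 3558) (nat_lit 493858305440582043680)) (.cons (.ev (nat_lit 1208944266641281667629056) (nat_lit 1)) .nil))) (.cons (.rf (nat_lit 3557) (nat_lit 2750935390222398465)) .nil)))),
 (.br (nat_lit 2) (nat_lit 0) (.cons (.rf (nat_lit 3557) (nat_lit 15433072009550071840)) (.cons (.rf (nat_lit 3559) (nat_lit 493858305440582043680)) (.cons (.rf (nat_lit 3559) (nat_lit 492741412732994160672)) .nil)))),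
 (.br (nat_lit 7) (nat_lit 0) (.cons (.ev (nat_lit 310693954159762465158594561) (nat_lit 1)) .nil)),
 (.br (nat_lit 11) (nat_lit 0) (.cons (.ev (nat_lit 18518801667764322561) (nat_lit 1)) (.cons (.ev (nat_lit 1208944266641281667629056) (nat_lit 1)) (.cons (.rf (nat_lit 3561) (nat_lit 493858305440582043680)) .nil)))),
 (.br (nat_lit 2) (nat_lit 0) (.cons (.br (nat_lit 11) (nat_lit 0) (.cons (.ev (nat_lit 20282722715475916160843997250306) (nat_lit 2)) .nil)) (.cons (.ev (nat_lit 18518801667764322561) (nat_lit 1)) (.cons (.rf (nat_lit 3562) (nat_lit 493858305440582043680)) .nil)))),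
 (.br (nat_lit 2) (nat_lit 0) (.cons (.br (nat_lit 11) (nat_lit 0) (.cons (.ev (nat_lit 20282720297624421607533277348096) (nat_lit 2)) .nil)) (.cons (.ev (nat_lit 1213648186098598331613184) (nat_lit 1)) (.cons (.rf (nat_lit 3562) (nat_lit 493858305440582043680)) .nil)))),
 (.br (nat_lit 12) (nat_lit 0) (.cons (.rf (nat_lit 3562) (nat_lit 493858305440582043680)) (.cons (.rf (nat_lit 3563) (nat_lit 493858305440582043680)) (.cons (.rf (nat_lit 3564) (nat_lit 493858305440582043680)) (.cons (.br (nat_lit 12) (nat_lit 0) (.cons (.rf (nat_lit 3561) (nat_lit 493858305440582043680)) (.cons (.rf (nat_lit 3563) (nat_lit 493858305440582043680)) (.cons (.rf (nat_lit 3564) (nat_lit 493858305440582043680)) .nil)))) .nil))))),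
 (.br (nat_lit 13) (nat_lit 0) (.cons (.rf (nat_lit 3557) (nat_lit 2750935390222398465)) (.cons (.rf (nat_lit 3565) (nat_lit 493858305440582043680)) (.cons (.rf (nat_lit 3565) (nat_lit 492741412732994160672)) .nil)))),
 (.br (nat_lit 7) (nat_lit 0) (.cons (.ev (nat_lit 20282719088680010853262523695360) (nat_lit 1)) (.cons (.ev (nat_lit 18518801667764322561) (nat_lit 1)) .nil)))]

theorem c131 : chkAll C T R L131 (nat_lit 3535) = true := by decide +kernel

theorem l131 : (nat_lit 3535) + L131.length = (nat_lit 3568) := by decide +kernel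

/-- part of the certificates -/
def L132 : List Prf := [(.br (nat_lit 2) (nat_lit 0) (.cons (.br (nat_lit 10) (nat_lit 0) (.cons (.ev (nat_lit 81129640837199278550874360905732) (nat_lit 3)) .nil)) (.cons (.ev (nat_lit 18518801667764322561) (nat_lit 1)) .nil))),
 (.br (nat_lit 13) (nat_lit 0) (.cons (.rf (nat_lit 3560) (nat_lit 493858305440582043680)) (.cons (.rf (nat_lit 3566) (nat_lit 493858305440582043680)) (.cons (.br (nat_lit 11) (nat_lit 0) (.cons (.rf (nat_lit 3567) (nat_lit 493858305440582043680)) (.cons (.rf (nat_lit 3568) (nat_lit 493858305440582043680)) (.cons (.br (nat_lit 12) (nat_lit 0) (.cons (.rf (nat_lit 3567) (nat_lit 492741412732994160672)) (.cons (.rf (nat_lit 3568) (nat_lit 492741412732994160672)) (.cons (.br (nat_lit 2) (nat_lit 0) (.cons (.ev (nat_lit 20361947251212866331597141639680) (nat_lit 2)) .nil)) .nil)))) (.cons (.kr (nat_lit 309485009821345068724781056) (nat_lit 79228162514264337593543950336) (nat_lit 11) (nat_lit 0)) .nil))))) .nil)))),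
 (.br (nat_lit 13) (nat_lit 0) (.cons (.rf (nat_lit 3560) (nat_lit 493858305440582043680)) (.cons (.rf (nat_lit 3566) (nat_lit 493858305440582043680)) (.cons (.rf (nat_lit 3569) (nat_lit 493858305440582043680)) (.cons (.rf (nat_lit 3569) (nat_lit 492741412732994160672)) .nil))))),
 (.br (nat_lit 11) (nat_lit 0) (.cons (.ev (nat_lit 79228162532711082766781907201) (nat_lit 1)) .nil)),
 (.br (nat_lit 10) (nat_lit 0) (.cons (.rf (nat_lit 2174) (nat_lit 470843644871744)) (.cons (.br (nat_lit 11) (nat_lit 0) (.cons (.ev (nat_lit 79538861172271781260600344576) (nat_lit 1)) (.cons (.rf (nat_lit 3571) (nat_lit 15433070910038444064)) .nil))) (.cons (.br (nat_lit 11) (nat_lit 0) (.cons (.br (nat_lit 12) (nat_lit 0) (.cons (.ev (nat_lit 40723909014350171342652607433226) (nat_lit 4)) .nil)) (.cons (.kr (nat_lit 72057594037993472) (nat_lit 20282409603651670425046762913792) (nat_lit 2) (nat_lit 0)) .nil))) .nil)))),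
 (.br (nat_lit 2) (nat_lit 0) (.cons (.rf (nat_lit 3572) (nat_lit 493858305440582043680)) (.cons (.rf (nat_lit 3572) (nat_lit 492741412732994160672)) (.cons (.rf (nat_lit 3557) (nat_lit 15433072009550071840)) .nil)))),
 (.br (nat_lit 2) (nat_lit 0) (.cons (.rf (nat_lit 3573) (nat_lit 493858305440582043680)) (.cons (.ev (nat_lit 18518801667764322561) (nat_lit 1)) (.cons (.rf (nat_lit 3570) (nat_lit 493858305440582043680)) .nil)))),
 (.br (nat_lit 2) (nat_lit 0) (.cons (.rf (nat_lit 3573) (nat_lit 493858305440582043680)) (.cons (.rf (nat_lit 3574) (nat_lit 493858305440582043680)) (.cons (.rf (nat_lit 3574) (nat_lit 492741412732994160672)) (.cons (.rf (nat_lit 3570) (nat_lit 493858305440582043680)) .nil))))),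
 (.br (nat_lit 10) (nat_lit 0) (.cons (.ev (nat_lit 310693935641241172876263424) (nat_lit 1)) (.cons (.ev (nat_lit 20282720302309678147994067730688) (nat_lit 1)) (.cons (.ev (nat_lit 20282720307032260522166605316352) (nat_lit 2)) .nil)))),
 (.br (nat_lit 10) (nat_lit 0) (.cons (.br (nat_lit 2) (nat_lit 0) (.cons (.ev (nat_lit 20361641392980359153368816419586) (nat_lit 2)) .nil)) (.cons (.ev (nat_lit 20361948460120094804385713881088) (nat_lit 1)) .nil))),
 (.br (nat_lit 13) (nat_lit 0) (.cons (.rf (nat_lit 3570) (nat_lit 493858305440582043680)) (.cons (.rf (nat_lit 3575) (nat_lit 493858305440582043680)) (.cons (.br (nat_lit 7) (nat_lit 0) (.cons (.br (nat_lit 11) (nat_lit 0) (.cons (.rf (nat_lit 3576) (nat_lit 493858305440582043680)) (.cons (.br (nat_lit 2) (nat_lit 0) (.cons (.ev (nat_lit 20361638975128864600058096517376) (nat_lit 2)) .nil)) (.cons (.kr (nat_lit 309485009821345068724781056) (nat_lit 79228162514264337593543950336) (nat_lit 11) (nat_lit 0)) .nil)))) (.cons (.ev (nat_lit 20282410812596009121723445149696)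 (nat_lit 1)) (.cons (.rf (nat_lit 3577) (nat_lit 493858305440582043680)) (.cons (.rf (nat_lit 3577) (nat_lit 492741412732994160672)) .nil))))) .nil)))),
 (.br (nat_lit 13) (nat_lit 0) (.cons (.rf (nat_lit 3570) (nat_lit 493858305440582043680)) (.cons (.rf (nat_lit 3575) (nat_lit 493858305440582043680)) (.cons (.rf (nat_lit 3578) (nat_lit 493858305440582043680)) (.cons (.rf (nat_lit 3578) (nat_lit 492741412732994160672)) .nil))))),
 (.br (nat_lit 13) (nat_lit 0) (.cons (.rf (nat_lit 3570) (nat_lit 493858305440582043680)) (.cons (.rf (nat_lit 3575) (nat_lit 493858305440582043680)) (.cons (.rf (nat_lit 3579) (nat_lit 493858305440582043680)) (.cons (.br (nat_lit 13) (nat_lit 0) (.cons (.rf (nat_lit 3570) (nat_lit 493858305440582043680)) (.cons (.ev (nat_lit 20282409608374037189395696582913) (nat_lit 1)) (.cons (.rf (nat_lit 3579) (nat_lit 493858305440582043680)) .nil)))) .nil))))),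
 (.br (nat_lit 1) (nat_lit 0) (.cons (.rf (nat_lit 3536) (nat_lit 14242959524133701664)) (.cons (.br (nat_lit 2) (nat_lit 0) (.cons (.rf (nat_lit 3540) (nat_lit 14242959524133701664)) (.cons (.ev (nat_lit 1213666633124147017810176) (nat_lit 1)) (.cons (.rf (nat_lit 3543) (nat_lit 14242959524133701664)) (.cons (.rf (nat_lit 3543) (nat_lit 13126066816545818656)) (.cons (.br (nat_lit 2) (nat_lit 0) (.cons (.rf (nat_lit 3540) (nat_lit 14242959524133701664)) (.cons (.ev (nat_lit 1213666633124147017810176) (nat_lit 1)) (.cons (.rf (nat_lit 3543) (nat_lit 14242959524133701664)) (.cons (.rf (nat_lit 3543) (nat_lit 13126066816545818656)) .nil))))) .nil)))))) (.cons (.rf (nat_lit 3554) (nat_lit 14242959524133701664)) (.cons (.rf (nat_lit 3554) (nat_lit 13126066816545818656)) (.cons (.br (nat_lit 13) (nat_lit 0) (.cons (.rf (nat_lit 3570) (nat_lit 493858305440582043680)) (.cons (.rf (nat_lit 3575) (nat_lit 493858305440582043680)) (.cons (.rf (nat_lit 3579) (nat_lit 493858305440582043680)) (.cons (.rf (nat_lit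 3580) (nat_lit 493858305440582043680)) (.cons (.rf (nat_lit 3580) (nat_lit 492741412732994160672)) .nil)))))) .nil)))))),
 (.br (nat_lit 2) (nat_lit 0) (.cons (.br (nat_lit 7) (nat_lit 0) (.cons (.rf (nat_lit 2164) (nat_lit 8121050302496)) (.cons (.br (nat_lit 11) (nat_lit 0) (.cons (.zr (nat_lit 1856910059504531194717276160) (nat_lit 2469853011056719608938506) (nat_lit 20) (nat_lit 7)) (.cons (.rf (nat_lit 2163) (nat_lit 15066994723358752)) .nil))) (.cons (.rf (nat_lit 2163) (nat_lit 15071255328883776)) .nil)))) (.cons (.ev (nat_lit 309489750634853487073099776) (nat_lit 1)) (.cons (.br (nat_lit 7) (nat_lit 0) (.cons (.ev (nat_lit 72339069031415809) (nat_lit 1)) (.cons (.br (nat_lit 10) (nat_lit 0) (.cons (.ev (nat_lit 7258369662289879645814784) (nat_lit 3)) (.cons (.rf (nat_lit 2173) (nat_lit 465517887457312)) .nil))) (.cons (.br (nat_lit 10) (nat_lit 0) (.cons (.ev (nat_lit 79231789347208374414731248130) (nat_lit 2)) (.cons (.rf (nat_lit 2242) (nat_lit 470976788857920)) .nil))) (.cons (.br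 (nat_lit 10) (nat_lit 0) (.cons (.rf (nat_lit 2242) (nat_lit 469914759563296)) (.cons (.rf (nat_lit 2173) (nat_lit 468783033648192)) (.cons (.br (nat_lit 11) (nat_lit 0) (.cons (.rf (nat_lit 2173) (nat_lit 470843646904352)) (.cons (.br (nat_lit 12) (nat_lit 0) (.cons (.ev (nat_lit 20440869555457802341896840872705) (nat_lit 2)) .nil)) .nil))) .nil)))) .nil))))) (.cons (.br (nat_lit 7) (nat_lit 0) (.cons (.ev (nat_lit 72339069031415809) (nat_lit 1)) (.cons (.rf (nat_lit 2198) (nat_lit 14894408911652896)) (.cons (.br (nat_lit 10) (nat_lit 0) (.cons (.rf (nat_lit 2175) (nat_lit 15066994723358752)) (.cons (.rf (nat_lit 2196) (nat_lit 465484601460768)) (.cons (.br (nat_lit 11) (nat_lit 0) (.cons (.rf (nat_lit 2196) (nat_lit 465450275276832)) (.cons (.br (nat_lit 12) (nat_lit 0) (.cons (.ev (nat_lit 79538861172271781260600344576) (nat_lit 1)) .nil)) .nil))) .nil)))) (.cons (.br (nat_lit 10) (nat_lit 0) (.cons (.rf (nat_lit 2174) (nat_lit 470843646904352)) (.cons (.br (nat_lit 11) (nat_lit 0) (.cons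 (.ev (nat_lit 476609337754218764170224992770) (nat_lit 3)) (.cons (.br (nat_lit 12) (nat_lit 0) (.cons (.ev (nat_lit 121695081432447832409630295982592) (nat_lit 3)) .nil)) .nil))) (.cons (.br (nat_lit 12) (nat_lit 0) (.cons (.br (nat_lit 12) (nat_lit 0) (.cons (.ev (nat_lit 20282720297587311665120127484161) (nat_lit 1)) .nil)) (.cons (.rf (nat_lit 2287) (nat_lit 1589042044681237506)) .nil))) .nil)))) .nil))))) .nil))))),
 (.br (nat_lit 7) (nat_lit 0) (.cons (.rf (nat_lit 2233) (nat_lit 470979911452704)) (.cons (.br (nat_lit 11) (nat_lit 0) (.cons (.ev (nat_lit 79537647542604484330033053953) (nat_lit 1)) (.cons (.br (nat_lit 12) (nat_lit 0) (.cons (.ev (nat_lit 20362566235399463792201202533120) (nat_lit 2)) .nil)) .nil))) .nil))),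
 (.br (nat_lit 7) (nat_lit 0) (.cons (.br (nat_lit 13) (nat_lit 0) (.cons (.rf (nat_lit 3583) (nat_lit 493858305440582043680)) (.cons (.zr (nat_lit 1213648186378973813538816) (nat_lit 79537647524085684861291986945) (nat_lit 5) (nat_lit 10)) .nil))) (.cons (.rf (nat_lit 3583) (nat_lit 493858305440582043680)) .nil))),
 (.br (nat_lit 2) (nat_lit 0) (.cons (.rf (nat_lit 3582) (nat_lit 14242959524133701664)) (.cons (.rf (nat_lit 3196) (nat_lit 388869752864)) (.cons (.br (nat_lit 11) (nat_lit 0) (.cons (.br (nat_lit 7) (nat_lit 0) (.cons (.ev (nat_lit 2422666673192054299034628) (nat_lit 3)) (.cons (.rf (nat_lit 2234) (nat_lit 15071358309468192)) .nil))) (.cons (.rf (nat_lit 2164) (nat_lit 13446809749536)) (.cons (.rf (nat_lit 2163) (nat_lit 14896566126086176)) .nil)))) (.cons (.br (nat_lit 13) (nat_lit 0) (.cons (.rf (nat_lit 3583) (nat_lit 493858305440582043680)) (.cons (.rf (nat_lit 3584) (nat_lit 493858305440582043680)) (.cons (.br (nat_lit 13) (nat_lit 0) (.cons (.rf (nat_lit 3583) (nat_lit 493858305440582043680))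 (.cons (.rf (nat_lit 3584) (nat_lit 493858305440582043680)) .nil))) .nil)))) .nil))))),
 (.br (nat_lit 7) (nat_lit 0) (.cons (.rf (nat_lit 2233) (nat_lit 470946625456160)) (.cons (.br (nat_lit 13) (nat_lit 0) (.cons (.br (nat_lit 12) (nat_lit 0) (.cons (.zr (nat_lit 40564820420951527226868315979776) (nat_lit 79537647524229797850344587265) (nat_lit 5) (nat_lit 10)) .nil)) (.cons (.br (nat_lit 10) (nat_lit 0) (.cons (.zr (nat_lit 40564820420951527226868315979776) (nat_lit 79537647524229797850344587265) (nat_lit 5) (nat_lit 10)) .nil)) .nil))) .nil))),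
 (.br (nat_lit 7) (nat_lit 0) (.cons (.br (nat_lit 7) (nat_lit 0) (.cons (.rf (nat_lit 3586) (nat_lit 493858305440582043680)) .nil)) (.cons (.rf (nat_lit 3586) (nat_lit 493858305440582043680)) .nil))),
 (.br (nat_lit 2) (nat_lit 0) (.cons (.ev (nat_lit 309489750634853487073099776) (nat_lit 1)) (.cons (.rf (nat_lit 3196) (nat_lit 388869752864)) (.cons (.br (nat_lit 10) (nat_lit 0) (.cons (.br (nat_lit 7) (nat_lit 0) (.cons (.ev (nat_lit 79537652246524504605240393985) (nat_lit 1)) (.cons (.rf (nat_lit 2234) (nat_lit 15070293157578784)) .nil))) (.cons (.ev (nat_lit 475992785586215301092001054722) (nat_lit 3)) (.cons (.rf (nat_lit 2163) (nat_lit 14896531799902240)) .nil)))) (.cons (.br (nat_lit 13) (nat_lit 0) (.cons (.rf (nat_lit 3586) (nat_lit 493858305440582043680)) (.cons (.rf (nat_lit 3587) (nat_lit 493858305440582043680)) (.cons (.br (nat_lit 13) (nat_lit 0) (.cons (.rf (nat_lit 3586) (nat_lit 493858305440582043680)) (.cons (.rf (nat_lit 3587) (nat_lit 493858305440582043680)) .nil))) .nil))))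 .nil))))),
 (.br (nat_lit 2) (nat_lit 0) (.cons (.rf (nat_lit 3582) (nat_lit 14242959524133701664)) (.cons (.rf (nat_lit 3585) (nat_lit 14242959524133701664)) (.cons (.rf (nat_lit 3588) (nat_lit 14242959524133701664)) (.cons (.br (nat_lit 10) (nat_lit 0) (.cons (.br (nat_lit 7) (nat_lit 0) (.cons (.ev (nat_lit 620193131081121300435960065) (nat_lit 2)) (.cons (.rf (nat_lit 2196) (nat_lit 470976790890528)) (.cons (.br (nat_lit 11) (nat_lit 0) (.cons (.ev (nat_lit 79850773515359372437239103490) (nat_lit 2)) (.cons (.br (nat_lit 12) (nat_lit 0) (.cons (.ev (nat_lit 40565438182137873381241745573380) (nat_lit 3)) .nil)) .nil))) .nil)))) (.cons (.rf (nat_lit 2175) (nat_lit 14896566126086176)) (.cons (.rf (nat_lit 2198) (nat_lit 15071257277073440)) (.cons (.br (nat_lit 11) (nat_lit 0) (.cons (.br (nat_lit 12) (nat_lit 0) (.cons (.rf (nat_lit 2196) (nat_lit 470942464706592)) (.cons (.rf (nat_lit 3571) (nat_lit 15251834184264746048)) .nil))) (.cons (.rf (nat_lit 2198) (nat_lit 15070158839187488)) (.cons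 (.br (nat_lit 12) (nat_lit 0) (.cons (.br (nat_lit 7) (nat_lit 0) (.cons (.ev (nat_lit 20361947255898122872057965314305) (nat_lit 1)) .nil)) (.cons (.ev (nat_lit 20361638979814121140518886899713) (nat_lit 1)) .nil))) .nil)))) .nil))))) .nil))))),
 (.br (nat_lit 2) (nat_lit 0) (.cons (.rf (nat_lit 3582) (nat_lit 14242959524133701664)) (.cons (.rf (nat_lit 3585) (nat_lit 14242959524133701664)) (.cons (.rf (nat_lit 3588) (nat_lit 14242959524133701664)) (.cons (.rf (nat_lit 3589) (nat_lit 14242959524133701664)) (.cons (.br (nat_lit 2) (nat_lit 0) (.cons (.rf (nat_lit 3582) (nat_lit 14242959524133701664)) (.cons (.rf (nat_lit 3585) (nat_lit 14242959524133701664)) (.cons (.rf (nat_lit 3588) (nat_lit 14242959524133701664)) (.cons (.rf (nat_lit 3589) (nat_lit 14242959524133701664)) .nil))))) .nil)))))),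
 (.br (nat_lit 12) (nat_lit 0) (.cons (.br (nat_lit 12) (nat_lit 0) (.cons (.ev (nat_lit 79228167236630820463205941504) (nat_lit 1)) .nil)) (.cons (.ev (nat_lit 20282410817299928579040109133824) (nat_lit 1)) .nil))),
 (.br (nat_lit 7) (nat_lit 0) (.cons (.br (nat_lit 11) (nat_lit 0) (.cons (.br (nat_lit 12) (nat_lit 0) (.cons (.ev (nat_lit 79538856449905298395250032896) (nat_lit 1)) .nil)) (.cons (.kr (nat_lit 1208926035787411305398275) (nat_lit 40564819207303341132672309134080) (nat_lit 0) (nat_lit 8)) .nil))) (.cons (.br (nat_lit 12) (nat_lit 0) (.cons (.br (nat_lit 12) (nat_lit 0) (.cons (.ev (nat_lit 475376233418211838013911336450) (nat_lit 3)) .nil)) (.cons (.br (nat_lit 10) (nat_lit 0) (.cons (.ev (nat_lit 475376233418211838013911336450) (nat_lit 3)) .nil)) .nil))) (.cons (.br (nat_lit 10) (nat_lit 0) (.cons (.br (nat_lit 12) (nat_lit 0) (.cons (.ev (nat_lit 81605012230173398980492129207300) (nat_lit 3)) .nil)) (.cons (.br (nat_lit 11) (nat_lit 0) (.cons (.ev (nat_lit 20283341685495703529128066155264)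 (nat_lit 2)) .nil)) (.cons (.br (nat_lit 11) (nat_lit 0) (.cons (.ev (nat_lit 79538856449905298395250032896) (nat_lit 1)) .nil)) .nil)))) .nil)))),
 (.br (nat_lit 2) (nat_lit 0) (.cons (.rf (nat_lit 3557) (nat_lit 15433072009483027520)) (.cons (.br (nat_lit 7) (nat_lit 0) (.cons (.rf (nat_lit 3591) (nat_lit 493858305440582043680)) (.cons (.rf (nat_lit 3591) (nat_lit 492741412732994160672)) .nil))) (.cons (.rf (nat_lit 3592) (nat_lit 493858305440582043680)) (.cons (.rf (nat_lit 3592) (nat_lit 492741412732994160672)) .nil))))),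
 (.br (nat_lit 5) (nat_lit 0) (.cons (.rf (nat_lit 2252) (nat_lit 291549061679136)) .nil)),
 (.br (nat_lit 11) (nat_lit 0) (.cons (.rf (nat_lit 3594) (nat_lit 14682585925664)) (.cons (.ev (nat_lit 20282720302328124610592800506113) (nat_lit 1)) (.cons (.ev (nat_lit 309489732187827938386772224) (nat_lit 1)) .nil)))),
 (.br (nat_lit 13) (nat_lit 0) (.cons (.rf (nat_lit 3593) (nat_lit 493858305440582043680)) (.cons (.rf (nat_lit 3595) (nat_lit 493858305440582043680)) (.cons (.rf (nat_lit 3595) (nat_lit 492741412732994160672)) .nil))))]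

theorem c132 : chkAll C T R L132 (nat_lit 3568) = true := by decide +kernel

theorem l132 : (nat_lit 3568) + L132.length = (nat_lit 3597) := by decide +kernel

/-- part of the certificates -/
def L133 : List Prf := [(.br (nat_lit 10) (nat_lit 0) (.cons (.br (nat_lit 7) (nat_lit 0) (.cons (.ev (nat_lit 158768227945546219679266111745) (nat_lit 2)) .nil)) (.cons (.ev (nat_lit 475376233418211838013911336450) (nat_lit 3)) .nil))),
 (.br (nat_lit 2) (nat_lit 0) (.cons (.br (nat_lit 10) (nat_lit 0) (.cons (.ev (nat_lit 40644049787724800819753933340931) (nat_lit 2)) .nil)) (.cons (.br (nat_lit 7) (nat_lit 0) (.cons (.ev (nat_lit 318153012763015922703373960196) (nat_lit 3)) .nil)) (.cons (.rf (nat_lit 3597) (nat_lit 492741412732994160672)) .nil)))),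
 (.br (nat_lit 13) (nat_lit 0) (.cons (.rf (nat_lit 3593) (nat_lit 493858305440582043680)) (.cons (.rf (nat_lit 3595) (nat_lit 493858305440582043680)) (.cons (.br (nat_lit 11) (nat_lit 0) (.cons (.rf (nat_lit 3597) (nat_lit 493858305440582043680)) (.cons (.rf (nat_lit 3598) (nat_lit 493858305440582043680)) (.cons (.br (nat_lit 12) (nat_lit 0) (.cons (.ev (nat_lit 1864168391553882864996320770) (nat_lit 3)) (.cons (.rf (nat_lit 3598) (nat_lit 492741412732994160672)) .nil))) (.cons (.ev (nat_lit 309489732187827938386772224) (nat_lit 1)) .nil))))) .nil)))),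
 (.br (nat_lit 13) (nat_lit 0) (.cons (.rf (nat_lit 3593) (nat_lit 493858305440582043680)) (.cons (.rf (nat_lit 3596) (nat_lit 493858305440582043680)) (.cons (.rf (nat_lit 3599) (nat_lit 493858305440582043680)) (.cons (.rf (nat_lit 3599) (nat_lit 492741412732994160672)) .nil))))),
 (.br (nat_lit 11) (nat_lit 0) (.cons (.ev (nat_lit 20282720302328124610592800506113) (nat_lit 1)) (.cons (.kr (nat_lit 4722510879532697780226) (nat_lit 40564819207321787594171530346496) (nat_lit 0) (nat_lit 1)) (.cons (.ev (nat_lit 309485028268370621722788096) (nat_lit 1)) .nil)))),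
 (.br (nat_lit 13) (nat_lit 0) (.cons (.rf (nat_lit 3600) (nat_lit 493858305440582043680)) (.cons (.rf (nat_lit 3601) (nat_lit 493858305440582043680)) (.cons (.rf (nat_lit 3601) (nat_lit 492741412732994160672)) .nil)))),
 (.br (nat_lit 7) (nat_lit 0) (.cons (.br (nat_lit 10) (nat_lit 0) (.cons (.ev (nat_lit 476609337828004614565156619778) (nat_lit 3)) .nil)) (.cons (.br (nat_lit 2) (nat_lit 0) (.cons (.ev (nat_lit 40564820416229232802705138909441) (nat_lit 2)) .nil)) (.cons (.ev (nat_lit 476606919903012436837543182340) (nat_lit 3)) .nil)))),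
 (.br (nat_lit 2) (nat_lit 0) (.cons (.ev (nat_lit 81131500165146741025343214191620) (nat_lit 3)) (.cons (.ev (nat_lit 318769564894126451787904843780) (nat_lit 3)) .nil))),
 (.br (nat_lit 13) (nat_lit 0) (.cons (.rf (nat_lit 3600) (nat_lit 493858305440582043680)) (.cons (.rf (nat_lit 3602) (nat_lit 493858305440582043680)) (.cons (.br (nat_lit 11) (nat_lit 0) (.cons (.rf (nat_lit 3603) (nat_lit 493858305440582043680)) (.cons (.rf (nat_lit 3604) (nat_lit 493858305440582043680)) (.cons (.br (nat_lit 12) (nat_lit 0) (.cons (.rf (nat_lit 3603) (nat_lit 492741412732994160672)) (.cons (.rf (nat_lit 3604) (nat_lit 492741412732994160672)) .nil))) (.cons (.ev (nat_lit 309489732187827938386772224) (nat_lit 1)) .nil))))) .nil)))),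
 (.br (nat_lit 13) (nat_lit 0) (.cons (.rf (nat_lit 3600) (nat_lit 493858305440582043680)) (.cons (.rf (nat_lit 3602) (nat_lit 493858305440582043680)) (.cons (.rf (nat_lit 3605) (nat_lit 493858305440582043680)) (.cons (.rf (nat_lit 3605) (nat_lit 492741412732994160672)) .nil))))),
 (.br (nat_lit 13) (nat_lit 0) (.cons (.rf (nat_lit 3595) (nat_lit 493858305440582043680)) (.cons (.rf (nat_lit 3606) (nat_lit 493858305440582043680)) (.cons (.ev (nat_lit 20282409608374037189395696582913) (nat_lit 1)) .nil)))),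
 (.br (nat_lit 13) (nat_lit 0) (.cons (.rf (nat_lit 3600) (nat_lit 493858305440582043680)) (.cons (.rf (nat_lit 3606) (nat_lit 493858305440582043680)) (.cons (.rf (nat_lit 3607) (nat_lit 493858305440582043680)) (.cons (.rf (nat_lit 3607) (nat_lit 492741412732994160672)) .nil))))),
 (.br (nat_lit 13) (nat_lit 0) (.cons (.rf (nat_lit 3600) (nat_lit 493858305440582043680)) (.cons (.rf (nat_lit 3606) (nat_lit 493858305440582043680)) (.cons (.rf (nat_lit 3608) (nat_lit 493858305440582043680)) (.cons (.br (nat_lit 13) (nat_lit 0) (.cons (.rf (nat_lit 3600) (nat_lit 493858305440582043680)) (.cons (.rf (nat_lit 3606) (nat_lit 493858305440582043680)) (.cons (.ev (nat_lit 20282409608374037189395696582913) (nat_lit 1)) .nil)))) .nil))))),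
 (.br (nat_lit 1) (nat_lit 0) (.cons (.rf (nat_lit 3536) (nat_lit 14242959524133701664)) (.cons (.rf (nat_lit 3581) (nat_lit 14242959524133701664)) (.cons (.rf (nat_lit 3590) (nat_lit 14242959524133701664)) (.cons (.rf (nat_lit 3590) (nat_lit 13126066816545818656)) (.cons (.br (nat_lit 13) (nat_lit 0) (.cons (.rf (nat_lit 3600) (nat_lit 493858305440582043680)) (.cons (.rf (nat_lit 3606) (nat_lit 493858305440582043680)) (.cons (.rf (nat_lit 3608) (nat_lit 493858305440582043680)) (.cons (.rf (nat_lit 3609) (nat_lit 493858305440582043680)) (.cons (.rf (nat_lit 3609) (nat_lit 492741412732994160672)) .nil)))))) .nil)))))),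
 (.br (nat_lit 12) (nat_lit 0) (.cons (.ev (nat_lit 316919908463901921744525592068) (nat_lit 3)) (.cons (.zr (nat_lit 1223092919344713103835139) (nat_lit 79537647524085684869881922048) (nat_lit 5) (nat_lit 10)) .nil))),
 (.br (nat_lit 10) (nat_lit 0) (.cons (.zr (nat_lit 1223092919344713103835139) (nat_lit 79537647524085684869881922048) (nat_lit 5) (nat_lit 10)) .nil)),
 (.br (nat_lit 7) (nat_lit 0) (.cons (.br (nat_lit 13) (nat_lit 0) (.cons (.rf (nat_lit 3611) (nat_lit 493858305440582043680)) (.cons (.rf (nat_lit 3612) (nat_lit 493858305440582043680)) .nil))) (.cons (.rf (nat_lit 2233) (nat_lit 468816321677344)) .nil))),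
 (.br (nat_lit 2) (nat_lit 0) (.cons (.ev (nat_lit 309489750634853487073099776) (nat_lit 1)) (.cons (.br (nat_lit 10) (nat_lit 0) (.cons (.br (nat_lit 7) (nat_lit 0) (.cons (.ev (nat_lit 310693954159762465158594561) (nat_lit 1)) (.cons (.rf (nat_lit 2234) (nat_lit 15070293155546176)) .nil))) (.cons (.rf (nat_lit 2164) (nat_lit 11248893790240)) (.cons (.rf (nat_lit 2163) (nat_lit 14896531797869632)) .nil)))) (.cons (.rf (nat_lit 3196) (nat_lit 424303233056)) (.cons (.br (nat_lit 13) (nat_lit 0) (.cons (.rf (nat_lit 3613) (nat_lit 493858305440582043680)) (.cons (.br (nat_lit 10) (nat_lit 0) (.cons (.rf (nat_lit 3611) (nat_lit 493858305440582043680)) (.cons (.ev (nat_lit 1208944266641281667629056) (nat_lit 1)) .nil))) (.cons (.br (nat_lit 7) (nat_lit 0) (.cons (.rf (nat_lit 3612) (nat_lit 493858305440582043680)) (.cons (.rf (nat_lit 3613) (nat_lit 493858305440582043680)) .nil))) .nil)))) .nil))))),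
 (.br (nat_lit 2) (nat_lit 0) (.cons (.br (nat_lit 10) (nat_lit 0) (.cons (.ev (nat_lit 310698658007445870425014786) (nat_lit 2)) (.cons (.rf (nat_lit 2173) (nat_lit 469911636968512)) .nil))) (.cons (.ev (nat_lit 79228162514264337597855760384) (nat_lit 1)) (.cons (.rf (nat_lit 2198) (nat_lit 14896539148322848)) .nil)))),
 (.br (nat_lit 2) (nat_lit 0) (.cons (.rf (nat_lit 3615) (nat_lit 14242959524133701664)) (.cons (.rf (nat_lit 3614) (nat_lit 13126066816545818656)) (.cons (.br (nat_lit 7) (nat_lit 0) (.cons (.rf (nat_lit 2196) (nat_lit 468812160927776)) (.cons (.rf (nat_lit 2187) (nat_lit 14547428673568)) (.cons (.br (nat_lit 10) (nat_lit 0) (.cons (.rf (nat_lit 2197) (nat_lit 468777834743840)) (.cons (.rf (nat_lit 3581) (nat_lit 14235044137780183458)) .nil))) .nil)))) .nil)))),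
 (.br (nat_lit 2) (nat_lit 0) (.cons (.rf (nat_lit 3615) (nat_lit 14242959524133701664)) (.cons (.rf (nat_lit 3616) (nat_lit 14242959524133701664)) (.cons (.rf (nat_lit 3614) (nat_lit 13126066816545818656)) (.cons (.br (nat_lit 2) (nat_lit 0) (.cons (.rf (nat_lit 2198) (nat_lit 14896539148322848)) (.cons (.rf (nat_lit 3616) (nat_lit 14242959524133701664)) (.cons (.rf (nat_lit 3614) (nat_lit 13126066816545818656)) .nil)))) .nil))))),
 (.br (nat_lit 2) (nat_lit 0) (.cons (.br (nat_lit 7) (nat_lit 0) (.cons (.ev (nat_lit 72339069031415809) (nat_lit 1)) (.cons (.br (nat_lit 10) (nat_lit 0) (.cons (.ev (nat_lit 40724513477185755390273044874752) (nat_lit 3)) .nil)) .nil))) (.cons (.rf (nat_lit 2198) (nat_lit 15001989118265376)) .nil))),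
 (.br (nat_lit 13) (nat_lit 0) (.cons (.rf (nat_lit 3618) (nat_lit 493858305440582043680)) (.cons (.br (nat_lit 13) (nat_lit 0) (.cons (.rf (nat_lit 3618) (nat_lit 493858305440582043680)) .nil)) .nil))),
 (.br (nat_lit 12) (nat_lit 0) (.cons (.rf (nat_lit 3614) (nat_lit 13126066816545818656)) (.cons (.rf (nat_lit 3617) (nat_lit 13126066816545818656)) (.cons (.zr (nat_lit 928459770277263249040736768) (nat_lit 158458742880167904445470867457) (nat_lit 5) (nat_lit 11)) (.cons (.br (nat_lit 13) (nat_lit 0) (.cons (.rf (nat_lit 3618) (nat_lit 493858305440582043680)) (.cons (.rf (nat_lit 3619) (nat_lit 493858305440582043680)) (.cons (.br (nat_lit 13) (nat_lit 0) (.cons (.rf (nat_lit 3618) (nat_lit 493858305440582043680)) (.cons (.rf (nat_lit 3619) (nat_lit 493858305440582043680)) .nil))) .nil)))) .nil))))),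
 (.br (nat_lit 7) (nat_lit 0) (.cons (.ev (nat_lit 72339069031415809) (nat_lit 1)) (.cons (.br (nat_lit 10) (nat_lit 0) (.cons (.br (nat_lit 10) (nat_lit 0) (.cons (.ev (nat_lit 121853532921847016536974497287686) (nat_lit 4)) .nil)) (.cons (.br (nat_lit 2) (nat_lit 0) (.cons (.ev (nat_lit 121853532921847016536974497287686) (nat_lit 4)) .nil)) .nil))) .nil))),
 (.br (nat_lit 7) (nat_lit 0) (.cons (.br (nat_lit 7) (nat_lit 0) (.cons (.ev (nat_lit 20361947251175756389184025198593) (nat_lit 1)) .nil)) (.cons (.ev (nat_lit 20361947251175756389184025198593) (nat_lit 1)) .nil))),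
 (.br (nat_lit 11) (nat_lit 0) (.cons (.ev (nat_lit 310693954159762465158594561) (nat_lit 1)) .nil)),
 (.br (nat_lit 12) (nat_lit 0) (.cons (.br (nat_lit 10) (nat_lit 0) (.cons (.ev (nat_lit 79538856449905298395250032896) (nat_lit 1)) .nil)) (.cons (.br (nat_lit 7) (nat_lit 0) (.cons (.ev (nat_lit 79538856449905298395250032896) (nat_lit 1)) .nil)) .nil))),
 (.br (nat_lit 12) (nat_lit 0) (.cons (.br (nat_lit 10) (nat_lit 0) (.cons (.ev (nat_lit 81606245334509405906648443387908) (nat_lit 3)) .nil)) (.cons (.ev (nat_lit 79228162532711363146541957376) (nat_lit 1)) (.cons (.kr (nat_lit 158456329750895439531709825026) (nat_lit 618970038089434215454212096) (nat_lit 0) (nat_lit 1)) .nil)))),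
 (.br (nat_lit 2) (nat_lit 0) (.cons (.rf (nat_lit 3625) (nat_lit 493858305440582043680)) (.cons (.ev (nat_lit 20282719093383930310579187679488) (nat_lit 1)) (.cons (.br (nat_lit 10) (nat_lit 0) (.cons (.ev (nat_lit 20282410812577562096174758953216) (nat_lit 1)) .nil)) .nil)))),
 (.br (nat_lit 13) (nat_lit 0) (.cons (.br (nat_lit 2) (nat_lit 0) (.cons (.kr (nat_lit 4722510879532697780226) (nat_lit 40564819207321787594171530346496) (nat_lit 0) (nat_lit 1)) (.cons (.rf (nat_lit 3581) (nat_lit 14235044137780183458)) (.cons (.br (nat_lit 12) (nat_lit 0) (.cons (.ev (nat_lit 20282719093383930310579187679488) (nat_lit 1)) (.cons (.ev (nat_lit 1208944266641281667629056) (nat_lit 1)) .nil))) (.cons (.br (nat_lit 10) (nat_lit 0) (.cons (.rf (nat_lit 3623) (nat_lit 493858305440582043680)) (.cons (.ev (nat_lit 1208944266641281667629056) (nat_lit 1)) (.cons (.br (nat_lit 7) (nat_lit 0) (.cons (.ev (nat_lit 79538856449905298395250032896) (nat_lit 1)) .nil)) .nil)))) .nil))))) (.cons (.br (nat_lit 2) (nat_lit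 0) (.cons (.rf (nat_lit 3594) (nat_lit 14546321377312)) (.cons (.rf (nat_lit 3624) (nat_lit 493858305440582043680)) (.cons (.br (nat_lit 10) (nat_lit 0) (.cons (.ev (nat_lit 20282719088716976680487564149505) (nat_lit 2)) (.cons (.ev (nat_lit 20441175413708467752330567155971) (nat_lit 2)) .nil))) .nil)))) (.cons (.br (nat_lit 10) (nat_lit 0) (.cons (.rf (nat_lit 3625) (nat_lit 493858305440582043680)) (.cons (.rf (nat_lit 3626) (nat_lit 493858305440582043680)) (.cons (.br (nat_lit 10) (nat_lit 0) (.cons (.rf (nat_lit 3625) (nat_lit 493858305440582043680)) (.cons (.rf (nat_lit 3626) (nat_lit 493858305440582043680)) (.cons (.ev (nat_lit 79228162532711363146541957376) (nat_lit 1)) .nil)))) (.cons (.ev (nat_lit 79228162532711363146541957376) (nat_lit 1)) .nil))))) .nil)))),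
 (.br (nat_lit 7) (nat_lit 0) (.cons (.ev (nat_lit 79229371440156292391244988673) (nat_lit 1)) .nil)),
 (.br (nat_lit 13) (nat_lit 0) (.cons (.rf (nat_lit 3627) (nat_lit 493858305440582043680)) (.cons (.br (nat_lit 2) (nat_lit 0) (.cons (.br (nat_lit 7) (nat_lit 0) (.cons (.ev (nat_lit 72339069031415809) (nat_lit 1)) (.cons (.ev (nat_lit 20282719088680010853262523695360) (nat_lit 1)) .nil))) (.cons (.rf (nat_lit 3594) (nat_lit 14649299929120)) (.cons (.rf (nat_lit 3624) (nat_lit 82049045737886561281)) .nil)))) (.cons (.br (nat_lit 10) (nat_lit 0) (.cons (.br (nat_lit 11) (nat_lit 0) (.cons (.br (nat_lit 7) (nat_lit 0) (.cons (.ev (nat_lit 203935147226590081587787891868166) (nat_lit 4)) .nil)) (.cons (.kr (nat_lit 158456329750895439531709825026) (nat_lit 618970038089434215454212096) (nat_lit 0) (nat_lit 1)) .nil))) (.cons (.br (nat_lit 2) (nat_lit 0) (.cons (.ev (nat_lit 72339069031415809) (nat_lit 1)) (.cons (.br (nat_lit 7) (nat_lit 0) (.cons (.ev (nat_lit 317536460595012459625150022148) (nat_lit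 3)) .nil)) (.cons (.br (nat_lit 7) (nat_lit 0) (.cons (.ev (nat_lit 318781654300329465806315323910) (nat_lit 4)) .nil)) .nil)))) (.cons (.br (nat_lit 2) (nat_lit 0) (.cons (.rf (nat_lit 3628) (nat_lit 493858305440582043680)) (.cons (.ev (nat_lit 1208944266641281667629056) (nat_lit 1)) .nil))) (.cons (.ev (nat_lit 79228162532711363146541957376) (nat_lit 1)) .nil))))) .nil)))),
 (.br (nat_lit 2) (nat_lit 0) (.cons (.br (nat_lit 10) (nat_lit 0) (.cons (.ev (nat_lit 72339069031415809) (nat_lit 1)) (.cons (.br (nat_lit 10) (nat_lit 0) (.cons (.ev (nat_lit 72339069031415809) (nat_lit 1)) (.cons (.rf (nat_lit 3629) (nat_lit 493858305440582043680)) .nil))) (.cons (.rf (nat_lit 3629) (nat_lit 493858305440582043680)) .nil)))) (.cons (.rf (nat_lit 3629) (nat_lit 82049045737886561281)) (.cons (.rf (nat_lit 3627) (nat_lit 82049045737886561281)) .nil))))]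

theorem c133 : chkAll C T R L133 (nat_lit 3597) = true := by decide +kernel

theorem l133 : (nat_lit 3597) + L133.length = (nat_lit 3631) := by decide +kernel

/-- part of the certificates -/
def L134 : List Prf := [(.br (nat_lit 13) (nat_lit 0) (.cons (.rf (nat_lit 3627) (nat_lit 493858305440582043680)) (.cons (.rf (nat_lit 3629) (nat_lit 493858305440582043680)) (.cons (.rf (nat_lit 3630) (nat_lit 493858305440582043680)) (.cons (.br (nat_lit 13) (nat_lit 0) (.cons (.rf (nat_lit 3627) (nat_lit 493858305440582043680)) (.cons (.rf (nat_lit 3629) (nat_lit 493858305440582043680)) (.cons (.rf (nat_lit 3630) (nat_lit 493858305440582043680)) .nil)))) .nil))))),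
 (.br (nat_lit 10) (nat_lit 0) (.cons (.ev (nat_lit 79229371440084233697695432704) (nat_lit 1)) (.cons (.ev (nat_lit 20361638979814121140518886899968) (nat_lit 1)) (.cons (.ev (nat_lit 20282410812577562096174758953216) (nat_lit 1)) .nil)))),
 (.br (nat_lit 13) (nat_lit 0) (.cons (.rf (nat_lit 3631) (nat_lit 493858305440582043680)) (.cons (.br (nat_lit 7) (nat_lit 0) (.cons (.br (nat_lit 2) (nat_lit 0) (.cons (.ev (nat_lit 121695081432484727586627575480320) (nat_lit 3)) (.cons (.rf (nat_lit 2287) (nat_lit 15433068714236413984)) .nil))) (.cons (.rf (nat_lit 2174) (nat_lit 83745658208673)) (.cons (.br (nat_lit 10) (nat_lit 0) (.cons (.br (nat_lit 2) (nat_lit 0) (.cons (.ev (nat_lit 122174164227799281437146085461506) (nat_lit 4)) .nil)) (.cons (.rf (nat_lit 2187) (nat_lit 2622315921825)) .nil))) .nil)))) (.cons (.br (nat_lit 12) (nat_lit 0) (.cons (.br (nat_lit 2) (nat_lit 0) (.cons (.rf (nat_lit 3632) (nat_lit 493858305440582043680)) (.cons (.br (nat_lit 7) (nat_lit 0) (.cons (.ev (nat_lit 121856008801999951860436984007182)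 (nat_lit 4)) .nil)) (.cons (.br (nat_lit 7) (nat_lit 0) (.cons (.ev (nat_lit 317531624817658790022301745664) (nat_lit 3)) .nil)) .nil)))) (.cons (.kr (nat_lit 4722510879532697780226) (nat_lit 40564819207321787594171530346496) (nat_lit 0) (nat_lit 1)) (.cons (.ev (nat_lit 79228162532711363146541957376) (nat_lit 1)) (.cons (.br (nat_lit 7) (nat_lit 0) (.cons (.br (nat_lit 2) (nat_lit 0) (.cons (.ev (nat_lit 20441795592672592972857814810880) (nat_lit 2)) .nil)) (.cons (.ev (nat_lit 310693954159762465158594561) (nat_lit 1)) .nil))) .nil))))) .nil)))),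
 (.br (nat_lit 9) (nat_lit 0) (.cons (.rf (nat_lit 2287) (nat_lit 2526845230065496065)) (.cons (.br (nat_lit 2) (nat_lit 0) (.cons (.ev (nat_lit 79537652246524223125951938561) (nat_lit 1)) .nil)) .nil))),
 (.br (nat_lit 13) (nat_lit 0) (.cons (.rf (nat_lit 3631) (nat_lit 493858305440582043680)) (.cons (.rf (nat_lit 3633) (nat_lit 493858305440582043680)) (.cons (.br (nat_lit 12) (nat_lit 0) (.cons (.rf (nat_lit 3634) (nat_lit 15433072045018155040)) (.cons (.rf (nat_lit 2174) (nat_lit 81548782436769)) (.cons (.ev (nat_lit 79228167236630820463205941504) (nat_lit 1)) .nil)))) .nil)))),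
 (.br (nat_lit 13) (nat_lit 0) (.cons (.rf (nat_lit 3631) (nat_lit 493858305440582043680)) (.cons (.rf (nat_lit 3633) (nat_lit 493858305440582043680)) (.cons (.rf (nat_lit 3635) (nat_lit 493858305440582043680)) (.cons (.br (nat_lit 13) (nat_lit 0) (.cons (.rf (nat_lit 3631) (nat_lit 493858305440582043680)) (.cons (.rf (nat_lit 3633) (nat_lit 493858305440582043680)) (.cons (.rf (nat_lit 3635) (nat_lit 493858305440582043680)) .nil)))) .nil))))),
 (.br (nat_lit 13) (nat_lit 0) (.cons (.rf (nat_lit 3631) (nat_lit 493858305440582043680)) (.cons (.rf (nat_lit 3636) (nat_lit 493858305440582043680)) (.cons (.br (nat_lit 12) (nat_lit 0) (.cons (.rf (nat_lit 3636) (nat_lit 82049045737886561281)) (.cons (.br (nat_lit 7) (nat_lit 0) (.cons (.br (nat_lit 2) (nat_lit 0) (.cons (.ev (nat_lit 202985652052162334684504898012682) (nat_lit 4)) .nil)) (.cons (.ev (nat_lit 310693954159762465158594561) (nat_lit 1)) .nil))) (.cons (.ev (nat_lit 79228162532711363146541957376) (nat_lit 1)) .nil)))) .nil)))),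
 (.br (nat_lit 13) (nat_lit 0) (.cons (.rf (nat_lit 3631) (nat_lit 493858305440582043680)) (.cons (.rf (nat_lit 3636) (nat_lit 493858305440582043680)) (.cons (.rf (nat_lit 3637) (nat_lit 493858305440582043680)) (.cons (.br (nat_lit 13) (nat_lit 0) (.cons (.rf (nat_lit 3631) (nat_lit 493858305440582043680)) (.cons (.rf (nat_lit 3636) (nat_lit 493858305440582043680)) (.cons (.rf (nat_lit 3637) (nat_lit 493858305440582043680)) .nil)))) .nil))))),
 (.br (nat_lit 2) (nat_lit 0) (.cons (.br (nat_lit 2) (nat_lit 0) (.cons (.rf (nat_lit 3638) (nat_lit 82049045737886561281)) (.cons (.rf (nat_lit 3636) (nat_lit 82049045737886561281)) (.cons (.rf (nat_lit 3631) (nat_lit 493858305440582043680)) .nil)))) (.cons (.rf (nat_lit 3638) (nat_lit 82049045737886561281)) (.cons (.rf (nat_lit 3636) (nat_lit 82049045737886561281)) (.cons (.rf (nat_lit 3631) (nat_lit 493858305440582043680)) .nil))))),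
 (.br (nat_lit 1) (nat_lit 0) (.cons (.rf (nat_lit 3536) (nat_lit 14242959524133701664)) (.cons (.rf (nat_lit 3581) (nat_lit 14242959524133701664)) (.cons (.rf (nat_lit 3610) (nat_lit 14242959524133701664)) (.cons (.br (nat_lit 11) (nat_lit 0) (.cons (.rf (nat_lit 3614) (nat_lit 14242959524133701664)) (.cons (.rf (nat_lit 3617) (nat_lit 14242959524133701664)) (.cons (.rf (nat_lit 3620) (nat_lit 14242959524133701664)) (.cons (.kr (nat_lit 309485009821345068724781056) (nat_lit 79228162514264337593543950336) (nat_lit 11) (nat_lit 0)) (.cons (.br (nat_lit 12) (nat_lit 0) (.cons (.rf (nat_lit 3614) (nat_lit 13126066816545818656)) (.cons (.rf (nat_lit 3617) (nat_lit 13126066816545818656)) (.cons (.rf (nat_lit 3620) (nat_lit 13126066816545818656)) (.cons (.br (nat_lit 2) (nat_lit 0) (.cons (.rf (nat_lit 3621) (nat_lit 493858305440582043680)) (.cons (.br (nat_lit 2) (nat_lit 0) (.cons (.rf (nat_lit 3621) (nat_lit 493858305440582043680)) (.cons (.rf (nat_lit 3622) (nat_lit 493858305440582043680)) .nil)))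 (.cons (.br (nat_lit 2) (nat_lit 0) (.cons (.rf (nat_lit 3622) (nat_lit 493854927843940730912)) (.cons (.rf (nat_lit 3622) (nat_lit 493858305440582043680)) .nil))) .nil)))) .nil))))) .nil)))))) (.cons (.br (nat_lit 13) (nat_lit 0) (.cons (.rf (nat_lit 3631) (nat_lit 493858305440582043680)) (.cons (.rf (nat_lit 3636) (nat_lit 493858305440582043680)) (.cons (.rf (nat_lit 3638) (nat_lit 493858305440582043680)) (.cons (.rf (nat_lit 3639) (nat_lit 493858305440582043680)) (.cons (.br (nat_lit 13) (nat_lit 0) (.cons (.rf (nat_lit 3631) (nat_lit 493858305440582043680)) (.cons (.rf (nat_lit 3636) (nat_lit 493858305440582043680)) (.cons (.rf (nat_lit 3638) (nat_lit 493858305440582043680)) (.cons (.rf (nat_lit 3639) (nat_lit 493858305440582043680)) .nil))))) .nil)))))) .nil)))))),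
 (.br (nat_lit 1) (nat_lit 0) (.cons (.rf (nat_lit 3536) (nat_lit 14242959524133701664)) (.cons (.rf (nat_lit 3581) (nat_lit 14242959524133701664)) (.cons (.rf (nat_lit 3610) (nat_lit 14242959524133701664)) (.cons (.rf (nat_lit 3640) (nat_lit 14242959524133701664)) (.cons (.rf (nat_lit 3640) (nat_lit 13126066816545818656)) (.cons (.br (nat_lit 1) (nat_lit 0) (.cons (.rf (nat_lit 1943) (nat_lit 428033)) (.cons (.rf (nat_lit 3581) (nat_lit 14242959524133701664)) (.cons (.rf (nat_lit 3610) (nat_lit 14242959524133701664)) (.cons (.rf (nat_lit 3640) (nat_lit 14242959524133701664)) (.cons (.rf (nat_lit 3640) (nat_lit 13126066816545818656)) .nil)))))) .nil))))))),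
 (.br (nat_lit 11) (nat_lit 0) (.cons (.ev (nat_lit 79229371440156292391244988673) (nat_lit 1)) (.cons (.rf (nat_lit 2312) (nat_lit 470976790890528)) .nil))),
 (.br (nat_lit 5) (nat_lit 0) (.cons (.rf (nat_lit 3642) (nat_lit 14242959524133701664)) (.cons (.br (nat_lit 10) (nat_lit 0) (.cons (.ev (nat_lit 316919908427008996547059777540) (nat_lit 3)) (.cons (.rf (nat_lit 2312) (nat_lit 470942464706592)) .nil))) (.cons (.br (nat_lit 10) (nat_lit 0) (.cons (.ev (nat_lit 159699105770308508482517074446) (nat_lit 4)) (.cons (.rf (nat_lit 2314) (nat_lit 470976790890528)) .nil))) (.cons (.br (nat_lit 10) (nat_lit 0) (.cons (.rf (nat_lit 2313) (nat_lit 470976790890528)) (.cons (.rf (nat_lit 2341) (nat_lit 470979911452704)) (.cons (.br (nat_lit 11) (nat_lit 0) (.cons (.ev (nat_lit 80779238026811561269048443138) (nat_lit 3)) (.cons (.br (nat_lit 12) (nat_lit 0) (.cons (.zr (nat_lit 60847233646658290011833496633344) (nat_lit 1237940057804185241181487617) (nat_lit 10) (nat_lit 10)) .nil)) .nil))) .nil))))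 .nil))))),
 (.br (nat_lit 1) (nat_lit 0) (.cons (.br (nat_lit 11) (nat_lit 0) (.cons (.ev (nat_lit 79229376180969237863918010625) (nat_lit 1)) (.cons (.rf (nat_lit 2317) (nat_lit 470942464706592)) .nil))) (.cons (.br (nat_lit 10) (nat_lit 0) (.cons (.ev (nat_lit 79229376162522775265185104128) (nat_lit 1)) (.cons (.rf (nat_lit 2317) (nat_lit 470976790890528)) .nil))) (.cons (.rf (nat_lit 3643) (nat_lit 14242959524133701664)) (.cons (.br (nat_lit 10) (nat_lit 0) (.cons (.rf (nat_lit 2336) (nat_lit 470843646904352)) (.cons (.rf (nat_lit 2343) (nat_lit 470979911452704)) (.cons (.br (nat_lit 12) (nat_lit 0) (.cons (.ev (nat_lit 79848341496764248994248590080) (nat_lit 2)) (.cons (.ev (nat_lit 158461165472765887612442771972) (nat_lit 3)) .nil))) .nil)))) .nil))))),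
 (.br (nat_lit 11) (nat_lit 0) (.cons (.ev (nat_lit 79228162532711082766781906944) (nat_lit 1)) .nil)),
 (.br (nat_lit 5) (nat_lit 0) (.cons (.br (nat_lit 12) (nat_lit 0) (.cons (.ev (nat_lit 79229376180969237863918010625) (nat_lit 1)) (.cons (.rf (nat_lit 3142) (nat_lit 465517724928032)) .nil))) (.cons (.ev (nat_lit 621392685882973668977541122) (nat_lit 3)) (.cons (.rf (nat_lit 3644) (nat_lit 14242959524133701664)) (.cons (.br (nat_lit 1) (nat_lit 0) (.cons (.rf (nat_lit 2671) (nat_lit 15071358307436576)) (.cons (.rf (nat_lit 2341) (nat_lit 470979911452704)) (.cons (.br (nat_lit 11) (nat_lit 0) (.cons (.ev (nat_lit 79538856468352323943936360705) (nat_lit 1)) (.cons (.rf (nat_lit 3645) (nat_lit 15433070910038444064)) .nil))) .nil)))) .nil))))),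
 (.br (nat_lit 12) (nat_lit 0) (.cons (.rf (nat_lit 3643) (nat_lit 14242959524133701664)) (.cons (.rf (nat_lit 3644) (nat_lit 14242959524133701664)) (.cons (.rf (nat_lit 3646) (nat_lit 14242959524133701664)) (.cons (.br (nat_lit 1) (nat_lit 0) (.cons (.rf (nat_lit 3142) (nat_lit 465517724928032)) (.cons (.br (nat_lit 13) (nat_lit 0) (.cons (.ev (nat_lit 79538856449905298395250032896) (nat_lit 1)) .nil)) (.cons (.br (nat_lit 5) (nat_lit 0) (.cons (.ev (nat_lit 79229371458602754989977764096) (nat_lit 1)) (.cons (.br (nat_lit 10) (nat_lit 0) (.cons (.ev (nat_lit 41360200523136874104631716872706) (nat_lit 4)) .nil)) .nil))) .nil)))) .nil))))),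
 (.br (nat_lit 1) (nat_lit 0) (.cons (.ev (nat_lit 313111787424868193806778371) (nat_lit 2)) (.cons (.br (nat_lit 11) (nat_lit 0) (.cons (.ev (nat_lit 79229371440156292391244988673) (nat_lit 1)) (.cons (.rf (nat_lit 2312) (nat_lit 470979911452704)) .nil))) (.cons (.rf (nat_lit 2330) (nat_lit 15070155852843040)) .nil)))),
 (.br (nat_lit 10) (nat_lit 0) (.cons (.ev (nat_lit 79538861172271781260600344833) (nat_lit 1)) (.cons (.rf (nat_lit 2312) (nat_lit 470946625456160)) .nil))),
 (.br (nat_lit 1) (nat_lit 0) (.cons (.rf (nat_lit 3648) (nat_lit 14242959524133701664)) (.cons (.rf (nat_lit 3649) (nat_lit 14242959524133701664)) (.cons (.br (nat_lit 12) (nat_lit 0) (.cons (.rf (nat_lit 2332) (nat_lit 470942464706592)) (.cons (.rf (nat_lit 2332) (nat_lit 470976790890528)) (.cons (.rf (nat_lit 3641) (nat_lit 8262069408722170881)) .nil)))) .nil)))),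
 (.br (nat_lit 10) (nat_lit 0) (.cons (.ev (nat_lit 7258406557466876925314050) (nat_lit 3)) (.cons (.ev (nat_lit 313111805871330792539422722) (nat_lit 2)) (.cons (.br (nat_lit 12) (nat_lit 0) (.cons (.rf (nat_lit 2334) (nat_lit 470946625456160)) (.cons (.br (nat_lit 12) (nat_lit 0) (.cons (.ev (nat_lit 317536460558119534427684208640) (nat_lit 3)) .nil)) .nil))) .nil)))),
 (.br (nat_lit 1) (nat_lit 0) (.cons (.ev (nat_lit 7258406557466876925314050) (nat_lit 3)) (.cons (.br (nat_lit 5) (nat_lit 0) (.cons (.ev (nat_lit 313111842765381889912078336) (nat_lit 2)) (.cons (.rf (nat_lit 2313) (nat_lit 470979911452704)) .nil))) (.cons (.rf (nat_lit 2336) (nat_lit 470946625456160)) .nil)))),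
 (.br (nat_lit 1) (nat_lit 0) (.cons (.rf (nat_lit 3651) (nat_lit 14242959524133701664)) (.cons (.rf (nat_lit 3652) (nat_lit 14242959524133701664)) (.cons (.br (nat_lit 12) (nat_lit 0) (.cons (.rf (nat_lit 2747) (nat_lit 469848185538592)) (.cons (.br (nat_lit 13) (nat_lit 0) (.cons (.ev (nat_lit 623810574560929955015033860) (nat_lit 3)) .nil)) (.cons (.kr (nat_lit 618974742009454482071486976) (nat_lit 158456325046975419265092550656) (nat_lit 1) (nat_lit 0)) .nil)))) .nil)))),
 (.br (nat_lit 1) (nat_lit 0) (.cons (.br (nat_lit 12) (nat_lit 0) (.cons (.ev (nat_lit 79229376180969237863918010625) (nat_lit 1)) (.cons (.rf (nat_lit 3142) (nat_lit 468816256665632)) .nil))) (.cons (.br (nat_lit 12) (nat_lit 0) (.cons (.ev (nat_lit 79229376162522775265185104128) (nat_lit 1)) (.cons (.rf (nat_lit 3142) (nat_lit 469914694551584)) .nil))) (.cons (.br (nat_lit 10) (nat_lit 0) (.cons (.ev (nat_lit 1245198409237026447783101440) (nat_lit 3)) (.cons (.rf (nat_lit 2340) (nat_lit 470976790890528)) .nil))) (.cons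 (.br (nat_lit 12) (nat_lit 0) (.cons (.rf (nat_lit 2423) (nat_lit 468783035680800)) (.cons (.rf (nat_lit 2423) (nat_lit 469848187570208)) (.cons (.br (nat_lit 11) (nat_lit 0) (.cons (.ev (nat_lit 79231789310314323317358592771) (nat_lit 2)) (.cons (.ev (nat_lit 476606919903012436837543183878) (nat_lit 3)) .nil))) .nil)))) .nil))))),
 (.br (nat_lit 1) (nat_lit 0) (.cons (.rf (nat_lit 3654) (nat_lit 14242959524133701664)) (.cons (.br (nat_lit 5) (nat_lit 0) (.cons (.ev (nat_lit 79229376162522775265185104128) (nat_lit 1)) (.cons (.rf (nat_lit 2671) (nat_lit 15071255328884768)) .nil))) (.cons (.br (nat_lit 5) (nat_lit 0) (.cons (.ev (nat_lit 158765810056869384877842235392) (nat_lit 2)) (.cons (.rf (nat_lit 2341) (nat_lit 470976790890528)) .nil))) (.cons (.br (nat_lit 5) (nat_lit 0) (.cons (.rf (nat_lit 2330) (nat_lit 15070293157578784)) (.cons (.rf (nat_lit 2343) (nat_lit 470976790890528)) (.cons (.br (nat_lit 11) (nat_lit 0) (.cons (.ev (nat_lit 79538856449905298395250032896) (nat_lit 1)) (.cons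 (.rf (nat_lit 3645) (nat_lit 15432965460001392672)) .nil))) .nil)))) .nil))))),
 (.br (nat_lit 5) (nat_lit 0) (.cons (.ev (nat_lit 79229371458602754989977764096) (nat_lit 1)) (.cons (.rf (nat_lit 2341) (nat_lit 470942464706592)) .nil))),
 (.br (nat_lit 1) (nat_lit 0) (.cons (.rf (nat_lit 3654) (nat_lit 14242959524133701664)) (.cons (.rf (nat_lit 3655) (nat_lit 14242959524133701664)) (.cons (.rf (nat_lit 3656) (nat_lit 14242959524133701664)) (.cons (.br (nat_lit 5) (nat_lit 0) (.cons (.rf (nat_lit 2330) (nat_lit 15071358309468192)) (.cons (.rf (nat_lit 2343) (nat_lit 470976790890528)) (.cons (.br (nat_lit 10) (nat_lit 0) (.cons (.ev (nat_lit 79538856449905298395250032896) (nat_lit 1)) (.cons (.br (nat_lit 12) (nat_lit 0) (.cons (.ev (nat_lit 41360210194616642654345688908302) (nat_lit 4)) .nil)) .nil))) .nil)))) .nil))))),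
 (.br (nat_lit 1) (nat_lit 0) (.cons (.rf (nat_lit 3654) (nat_lit 14242959524133701664)) (.cons (.rf (nat_lit 3655) (nat_lit 14242959524133701664)) (.cons (.rf (nat_lit 3656) (nat_lit 14242959524133701664)) (.cons (.br (nat_lit 5) (nat_lit 0) (.cons (.rf (nat_lit 2332) (nat_lit 470842606716960)) (.cons (.ev (nat_lit 158765810056869384877842235392) (nat_lit 2)) (.cons (.br (nat_lit 10) (nat_lit 0) (.cons (.ev (nat_lit 79538856449905298395250032896) (nat_lit 1)) (.cons (.br (nat_lit 11) (nat_lit 0) (.cons (.ev (nat_lit 284112824258022928451608238752266) (nat_lit 4)) .nil)) .nil))) .nil)))) .nil)))))]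

theorem c134 : chkAll C T R L134 (nat_lit 3631) = true := by decide +kernel

theorem l134 : (nat_lit 3631) + L134.length = (nat_lit 3659) := by decide +kernel

/-- part of the certificates -/
def L135 : List Prf := [(.br (nat_lit 12) (nat_lit 0) (.cons (.kr (nat_lit 309485009821345068724781056) (nat_lit 79228162514264337593543950336) (nat_lit 11) (nat_lit 0)) (.cons (.ev (nat_lit 79538856449905298395250032896) (nat_lit 1)) (.cons (.ev (nat_lit 79228167236630820463205941504) (nat_lit 1)) .nil)))),
 (.br (nat_lit 10) (nat_lit 0) (.cons (.ev (nat_lit 79229376162522492686401863681) (nat_lit 1)) .nil)),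
 (.br (nat_lit 1) (nat_lit 0) (.cons (.br (nat_lit 11) (nat_lit 0) (.cons (.rf (nat_lit 3659) (nat_lit 493858305440582043680)) (.cons (.ev (nat_lit 20282720297587311665120127483904) (nat_lit 1)) .nil))) (.cons (.br (nat_lit 10) (nat_lit 0) (.cons (.br (nat_lit 12) (nat_lit 0) (.cons (.ev (nat_lit 79228162532711363146541957376) (nat_lit 1)) .nil)) (.cons (.ev (nat_lit 121695081432484727586627575480320) (nat_lit 3)) .nil))) (.cons (.br (nat_lit 12) (nat_lit 0) (.cons (.rf (nat_lit 3660) (nat_lit 15433072045018155040)) (.cons (.zr (nat_lit 1237944761868035926658121732) (nat_lit 237684487561239759061954658560) (nat_lit 10) (nat_lit 2)) (.cons (.rf (nat_lit 3641) (nat_lit 8262069408722170881)) .nil)))) .nil)))),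
 (.br (nat_lit 13) (nat_lit 0) (.cons (.rf (nat_lit 3661) (nat_lit 493858305440582043680)) (.cons (.br (nat_lit 12) (nat_lit 0) (.cons (.br (nat_lit 5) (nat_lit 0) (.cons (.ev (nat_lit 203619487023683006311082605543942) (nat_lit 4)) .nil)) (.cons (.br (nat_lit 1) (nat_lit 0) (.cons (.ev (nat_lit 203619487023683006311082605543942) (nat_lit 4)) .nil)) .nil))) (.cons (.br (nat_lit 1) (nat_lit 0) (.cons (.br (nat_lit 11) (nat_lit 0) (.cons (.ev (nat_lit 40566061987935302658283928685576) (nat_lit 4)) .nil)) (.cons (.br (nat_lit 5) (nat_lit 0) (.cons (.ev (nat_lit 41675875233007074373941131349518) (nat_lit 4)) .nil)) (.cons (.rf (nat_lit 3641) (nat_lit 8262069408722170881)) .nil)))) .nil)))),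
 (.br (nat_lit 13) (nat_lit 0) (.cons (.rf (nat_lit 3661) (nat_lit 493858305440582043680)) (.cons (.rf (nat_lit 3662) (nat_lit 493858305440582043680)) (.cons (.rf (nat_lit 3632) (nat_lit 82049045703560377345)) .nil)))),
 (.br (nat_lit 13) (nat_lit 0) (.cons (.rf (nat_lit 3661) (nat_lit 493858305440582043680)) (.cons (.rf (nat_lit 3662) (nat_lit 493858305440582043680)) (.cons (.rf (nat_lit 3663) (nat_lit 493858305440582043680)) (.cons (.br (nat_lit 13) (nat_lit 0) (.cons (.rf (nat_lit 3661) (nat_lit 493858305440582043680)) (.cons (.rf (nat_lit 3662) (nat_lit 493858305440582043680)) (.cons (.rf (nat_lit 3632) (nat_lit 82049045703560377345)) .nil)))) .nil))))),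
 (.br (nat_lit 1) (nat_lit 0) (.cons (.rf (nat_lit 2670) (nat_lit 470976788858912)) (.cons (.br (nat_lit 10) (nat_lit 0) (.cons (.ev (nat_lit 79228167255077846011892269313) (nat_lit 1)) (.cons (.br (nat_lit 12) (nat_lit 0) (.cons (.ev (nat_lit 40565438182137873381241745571842) (nat_lit 3)) .nil)) .nil))) (.cons (.rf (nat_lit 3664) (nat_lit 493858305440582043680)) .nil)))),
 (.br (nat_lit 1) (nat_lit 0) (.cons (.br (nat_lit 1) (nat_lit 0) (.cons (.rf (nat_lit 2670) (nat_lit 470976788858912)) (.cons (.rf (nat_lit 2315) (nat_lit 15433070876887713824)) (.cons (.rf (nat_lit 3664) (nat_lit 493858305440582043680)) .nil)))) (.cons (.rf (nat_lit 3665) (nat_lit 493858305440582043680)) (.cons (.br (nat_lit 1) (nat_lit 0) (.cons (.rf (nat_lit 2315) (nat_lit 15433070876887713824)) (.cons (.rf (nat_lit 3665) (nat_lit 493858305440582043680)) (.cons (.rf (nat_lit 3664) (nat_lit 493858305440582043680)) .nil)))) (.cons (.rf (nat_lit 3664) (nat_lit 493858305440582043680)) .nil))))),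
 (.br (nat_lit 13) (nat_lit 0) (.cons (.rf (nat_lit 3664) (nat_lit 493858305440582043680)) (.cons (.rf (nat_lit 3666) (nat_lit 493858305440582043680)) (.cons (.br (nat_lit 1) (nat_lit 0) (.cons (.br (nat_lit 1) (nat_lit 0) (.cons (.ev (nat_lit 122487358222035495800635537359366) (nat_lit 4)) .nil)) (.cons (.br (nat_lit 1) (nat_lit 0) (.cons (.ev (nat_lit 122487358222035495800635537359366) (nat_lit 4)) .nil)) .nil))) .nil)))),
 (.br (nat_lit 13) (nat_lit 0) (.cons (.rf (nat_lit 3664) (nat_lit 493858305440582043680)) (.cons (.rf (nat_lit 3666) (nat_lit 493858305440582043680)) (.cons (.rf (nat_lit 3667) (nat_lit 493858305440582043680)) (.cons (.br (nat_lit 13) (nat_lit 0) (.cons (.rf (nat_lit 3664) (nat_lit 493858305440582043680)) (.cons (.rf (nat_lit 3666) (nat_lit 493858305440582043680)) (.cons (.rf (nat_lit 3667) (nat_lit 493858305440582043680)) .nil)))) .nil))))),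
 (.br (nat_lit 13) (nat_lit 0) (.cons (.rf (nat_lit 3664) (nat_lit 493858305440582043680)) (.cons (.rf (nat_lit 3666) (nat_lit 493858305440582043680)) (.cons (.rf (nat_lit 3668) (nat_lit 493858305440582043680)) (.cons (.br (nat_lit 13) (nat_lit 0) (.cons (.rf (nat_lit 3632) (nat_lit 82049045703560377345)) (.cons (.rf (nat_lit 3666) (nat_lit 493858305440582043680)) (.cons (.rf (nat_lit 3668) (nat_lit 493858305440582043680)) .nil)))) .nil))))),
 (.br (nat_lit 7) (nat_lit 0) (.cons (.br (nat_lit 12) (nat_lit 0) (.cons (.rf (nat_lit 3643) (nat_lit 14242959524133701664)) (.cons (.rf (nat_lit 3644) (nat_lit 14242959524133701664)) (.cons (.rf (nat_lit 3646) (nat_lit 14242959524133701664)) (.cons (.rf (nat_lit 3647) (nat_lit 14242959524133701664)) (.cons (.br (nat_lit 12) (nat_lit 0) (.cons (.rf (nat_lit 3643) (nat_lit 14242959524133701664)) (.cons (.rf (nat_lit 3644) (nat_lit 14242959524133701664)) (.cons (.rf (nat_lit 3646) (nat_lit 14242959524133701664)) (.cons (.rf (nat_lit 3647) (nat_lit 14242959524133701664))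 .nil))))) .nil)))))) (.cons (.br (nat_lit 1) (nat_lit 0) (.cons (.rf (nat_lit 3648) (nat_lit 14242959524133701664)) (.cons (.br (nat_lit 1) (nat_lit 0) (.cons (.ev (nat_lit 1223111581983392519029250) (nat_lit 2)) (.cons (.rf (nat_lit 3649) (nat_lit 14242959524133701664)) (.cons (.rf (nat_lit 2330) (nat_lit 15071255330916384)) .nil)))) (.cons (.rf (nat_lit 3650) (nat_lit 14242959524133701664)) (.cons (.br (nat_lit 1) (nat_lit 0) (.cons (.rf (nat_lit 2330) (nat_lit 15070155852843040)) (.cons (.rf (nat_lit 2330) (nat_lit 15071255330916384)) (.cons (.rf (nat_lit 3650) (nat_lit 14242959524133701664)) .nil)))) .nil))))) (.cons (.ev (nat_lit 72339069031415809) (nat_lit 1)) (.cons (.br (nat_lit 1) (nat_lit 0) (.cons (.rf (nat_lit 3651) (nat_lit 14242959524133701664)) (.cons (.rf (nat_lit 3652) (nat_lit 14242959524133701664)) (.cons (.rf (nat_lit 3653) (nat_lit 14242959524133701664)) (.cons (.br (nat_lit 1) (nat_lit 0) (.cons (.rf (nat_lit 3651) (nat_lit 14242959524133701664)) (.cons (.rf (nat_lit 2336)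 (nat_lit 470946625456160)) (.cons (.rf (nat_lit 3653) (nat_lit 14242959524133701664)) .nil)))) .nil))))) (.cons (.br (nat_lit 1) (nat_lit 0) (.cons (.rf (nat_lit 3654) (nat_lit 14242959524133701664)) (.cons (.rf (nat_lit 3655) (nat_lit 14242959524133701664)) (.cons (.rf (nat_lit 3657) (nat_lit 14242959524133701664)) (.cons (.rf (nat_lit 3658) (nat_lit 14242959524133701664)) (.cons (.br (nat_lit 1) (nat_lit 0) (.cons (.rf (nat_lit 3654) (nat_lit 14242959524133701664)) (.cons (.rf (nat_lit 3655) (nat_lit 14242959524133701664)) (.cons (.rf (nat_lit 3657) (nat_lit 14242959524133701664)) (.cons (.rf (nat_lit 3658) (nat_lit 14242959524133701664)) .nil))))) .nil)))))) (.cons (.br (nat_lit 13) (nat_lit 0) (.cons (.rf (nat_lit 3664) (nat_lit 493858305440582043680)) (.cons (.rf (nat_lit 3666) (nat_lit 493858305440582043680)) (.cons (.rf (nat_lit 3668) (nat_lit 493858305440582043680)) (.cons (.rf (nat_lit 3669) (nat_lit 493858305440582043680)) (.cons (.br (nat_lit 13) (nat_lit 0) (.cons (.rf (nat_lit 3664)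 (nat_lit 493858305440582043680)) (.cons (.rf (nat_lit 3666) (nat_lit 493858305440582043680)) (.cons (.rf (nat_lit 3668) (nat_lit 493858305440582043680)) (.cons (.rf (nat_lit 3669) (nat_lit 493858305440582043680)) .nil))))) .nil)))))) .nil))))))),
 (.br (nat_lit 11) (nat_lit 0) (.cons (.ev (nat_lit 623810463879902562804433412) (nat_lit 3)) (.cons (.br (nat_lit 12) (nat_lit 0) (.cons (.zr (nat_lit 618970075271152739025354756) (nat_lit 79228171958998432531276105728) (nat_lit 15) (nat_lit 2)) .nil)) .nil))),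
 (.br (nat_lit 12) (nat_lit 0) (.cons (.rf (nat_lit 3671) (nat_lit 493858305440582043680)) (.cons (.ev (nat_lit 1856914799886819923025069572) (nat_lit 3)) (.cons (.br (nat_lit 12) (nat_lit 0) (.cons (.rf (nat_lit 3671) (nat_lit 493858305440582043680)) (.cons (.ev (nat_lit 1856914799886819923025069572) (nat_lit 3)) .nil))) .nil)))),
 (.br (nat_lit 5) (nat_lit 0) (.cons (.rf (nat_lit 3672) (nat_lit 493858305440582043680)) (.cons (.rf (nat_lit 3672) (nat_lit 492741412732994160672)) (.cons (.br (nat_lit 12) (nat_lit 0) (.cons (.br (nat_lit 12) (nat_lit 0) (.cons (.ev (nat_lit 20282410817299928579040109134081) (nat_lit 1)) .nil)) (.cons (.ev (nat_lit 20282410817299928579040109134081) (nat_lit 1)) .nil))) .nil)))),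
 (.br (nat_lit 11) (nat_lit 0) (.cons (.ev (nat_lit 1856914799886819923025069572) (nat_lit 3)) (.cons (.rf (nat_lit 3673) (nat_lit 493858305440582043680)) (.cons (.br (nat_lit 12) (nat_lit 0) (.cons (.ev (nat_lit 475368979826544775071940085252) (nat_lit 3)) (.cons (.rf (nat_lit 3673) (nat_lit 492741412732994160672)) (.cons (.kr (nat_lit 309485009821345068724781056) (nat_lit 79228162514264337593543950336) (nat_lit 11) (nat_lit 0)) .nil)))) .nil)))),
 (.br (nat_lit 11) (nat_lit 0) (.cons (.rf (nat_lit 3672) (nat_lit 493858305440582043680)) (.cons (.rf (nat_lit 3673) (nat_lit 493858305440582043680)) (.cons (.rf (nat_lit 3674) (nat_lit 493858305440582043680)) (.cons (.br (nat_lit 11) (nat_lit 0) (.cons (.rf (nat_lit 3672) (nat_lit 493858305440582043680)) (.cons (.rf (nat_lit 3673) (nat_lit 493858305440582043680)) (.cons (.rf (nat_lit 3674) (nat_lit 493858305440582043680)) .nil)))) .nil))))),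
 (.br (nat_lit 12) (nat_lit 0) (.cons (.br (nat_lit 12) (nat_lit 0) (.cons (.ev (nat_lit 122487358222035495800635537360386) (nat_lit 4)) .nil)) (.cons (.br (nat_lit 11) (nat_lit 0) (.cons (.ev (nat_lit 122487358222035495800635537360386) (nat_lit 4)) .nil)) .nil))),
 (.br (nat_lit 1) (nat_lit 0) (.cons (.rf (nat_lit 3676) (nat_lit 493858305440582043680)) (.cons (.rf (nat_lit 3676) (nat_lit 492741412732994160672)) (.cons (.rf (nat_lit 3675) (nat_lit 493858305440582043680)) .nil)))),
 (.br (nat_lit 13) (nat_lit 0) (.cons (.rf (nat_lit 3675) (nat_lit 493858305440582043680)) (.cons (.rf (nat_lit 3677) (nat_lit 493858305440582043680)) (.cons (.br (nat_lit 1) (nat_lit 0) (.cons (.ev (nat_lit 81129645672939739295245383630850) (nat_lit 3)) (.cons (.rf (nat_lit 2396) (nat_lit 15433068714236413984)) (.cons (.rf (nat_lit 2396) (nat_lit 15398165817124292640)) .nil)))) .nil)))),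
 (.br (nat_lit 13) (nat_lit 0) (.cons (.rf (nat_lit 3675) (nat_lit 493858305440582043680)) (.cons (.rf (nat_lit 3677) (nat_lit 493858305440582043680)) (.cons (.rf (nat_lit 3678) (nat_lit 493858305440582043680)) (.cons (.rf (nat_lit 3678) (nat_lit 492741412732994160672)) .nil))))),
 (.br (nat_lit 13) (nat_lit 0) (.cons (.rf (nat_lit 3675) (nat_lit 493858305440582043680)) (.cons (.rf (nat_lit 3679) (nat_lit 493858305440582043680)) (.cons (.br (nat_lit 11) (nat_lit 0) (.cons (.br (nat_lit 5) (nat_lit 0) (.cons (.ev (nat_lit 475368979826544775071940085252) (nat_lit 3)) .nil)) (.cons (.br (nat_lit 1) (nat_lit 0) (.cons (.ev (nat_lit 1856914799886819923025069572) (nat_lit 3)) .nil)) (.cons (.kr (nat_lit 309485009821345068724781056) (nat_lit 79228162514264337593543950336) (nat_lit 11) (nat_lit 0)) .nil)))) .nil)))),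
 (.br (nat_lit 13) (nat_lit 0) (.cons (.rf (nat_lit 3675) (nat_lit 493858305440582043680)) (.cons (.rf (nat_lit 3679) (nat_lit 493858305440582043680)) (.cons (.rf (nat_lit 3680) (nat_lit 493858305440582043680)) (.cons (.rf (nat_lit 3680) (nat_lit 492741412732994160672)) .nil))))),
 (.br (nat_lit 13) (nat_lit 0) (.cons (.rf (nat_lit 3675) (nat_lit 493858305440582043680)) (.cons (.rf (nat_lit 3679) (nat_lit 493858305440582043680)) (.cons (.rf (nat_lit 3681) (nat_lit 493858305440582043680)) (.cons (.br (nat_lit 13) (nat_lit 0) (.cons (.rf (nat_lit 3675) (nat_lit 493858305440582043680)) (.cons (.rf (nat_lit 3679) (nat_lit 493858305440582043680)) (.cons (.rf (nat_lit 3681) (nat_lit 493858305440582043680)) .nil)))) .nil))))),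
 (.br (nat_lit 13) (nat_lit 0) (.cons (.rf (nat_lit 3675) (nat_lit 493858305440582043680)) (.cons (.rf (nat_lit 3679) (nat_lit 493858305440582043680)) (.cons (.rf (nat_lit 3681) (nat_lit 493858305440582043680)) (.cons (.rf (nat_lit 3682) (nat_lit 493858305440582043680)) (.cons (.rf (nat_lit 3682) (nat_lit 492741412732994160672)) .nil)))))),
 (.br (nat_lit 11) (nat_lit 0) (.cons (.ev (nat_lit 309489750634853487073100033) (nat_lit 1)) (.cons (.br (nat_lit 10) (nat_lit 0) (.cons (.ev (nat_lit 79229371440156292391244988673) (nat_lit 1)) (.cons (.br (nat_lit 12) (nat_lit 0) (.cons (.ev (nat_lit 121775236836325145803614857463296) (nat_lit 3)) .nil)) .nil))) (.cons (.rf (nat_lit 3641) (nat_lit 8262069443048354817)) .nil)))),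
 (.br (nat_lit 1) (nat_lit 0) (.cons (.ev (nat_lit 1223111581983392519029250) (nat_lit 2)) (.cons (.rf (nat_lit 3684) (nat_lit 493858305440582043680)) (.cons (.rf (nat_lit 3684) (nat_lit 492741412732994160672)) .nil)))),
 (.br (nat_lit 1) (nat_lit 0) (.cons (.br (nat_lit 11) (nat_lit 0) (.cons (.kr (nat_lit 309485009821345068724781056) (nat_lit 79228162514264337593543950336) (nat_lit 11) (nat_lit 0)) (.cons (.br (nat_lit 12) (nat_lit 0) (.cons (.ev (nat_lit 285067266357126761790102713796098) (nat_lit 4)) .nil)) .nil))) (.cons (.rf (nat_lit 3685) (nat_lit 493858305440582043680)) .nil))),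
 (.br (nat_lit 1) (nat_lit 0) (.cons (.rf (nat_lit 3686) (nat_lit 493858305440582043680)) (.cons (.rf (nat_lit 3686) (nat_lit 492741412732994160672)) (.cons (.rf (nat_lit 3685) (nat_lit 493858305440582043680)) .nil))))]

theorem c135 : chkAll C T R L135 (nat_lit 3659) = true := by decide +kernel

theorem l135 : (nat_lit 3659) + L135.length = (nat_lit 3688) := by decide +kernel

/-- part of the certificates -/
def L136 : List Prf := [(.br (nat_lit 13) (nat_lit 0) (.cons (.rf (nat_lit 3685) (nat_lit 493858305440582043680)) (.cons (.rf (nat_lit 3687) (nat_lit 493858305440582043680)) (.cons (.br (nat_lit 13) (nat_lit 0) (.cons (.rf (nat_lit 3685) (nat_lit 493858305440582043680)) (.cons (.rf (nat_lit 3687) (nat_lit 493858305440582043680)) .nil))) .nil)))),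
 (.br (nat_lit 10) (nat_lit 0) (.cons (.br (nat_lit 11) (nat_lit 0) (.cons (.br (nat_lit 12) (nat_lit 0) (.cons (.ev (nat_lit 79228162532711363146541957376) (nat_lit 1)) .nil)) (.cons (.ev (nat_lit 20282720297587311665120127483904) (nat_lit 1)) .nil))) (.cons (.ev (nat_lit 1240362742564393033238970370) (nat_lit 3)) (.cons (.br (nat_lit 1) (nat_lit 0) (.cons (.br (nat_lit 12) (nat_lit 0) (.cons (.ev (nat_lit 79228162532711363146541957376) (nat_lit 1)) .nil)) (.cons (.ev (nat_lit 79228167255077846011892269313) (nat_lit 1)) .nil))) (.cons (.rf (nat_lit 3683) (nat_lit 51128532216546918818)) .nil))))),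
 (.br (nat_lit 13) (nat_lit 0) (.cons (.rf (nat_lit 3683) (nat_lit 51128532216546918818)) (.cons (.br (nat_lit 1) (nat_lit 0) (.cons (.ev (nat_lit 81131495329517537777878439297538) (nat_lit 3)) (.cons (.br (nat_lit 5) (nat_lit 0) (.cons (.ev (nat_lit 80776796489408265424300277762) (nat_lit 3)) .nil)) .nil))) (.cons (.br (nat_lit 1) (nat_lit 0) (.cons (.br (nat_lit 11) (nat_lit 0) (.cons (.ev (nat_lit 40723588644174634344229162320643) (nat_lit 2)) .nil)) (.cons (.br (nat_lit 5) (nat_lit 0) (.cons (.ev (nat_lit 81210415211096378187191410885638) (nat_lit 3)) .nil)) (.cons (.rf (nat_lit 3641) (nat_lit 8262069408722170881)) .nil)))) .nil)))),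
 (.br (nat_lit 13) (nat_lit 0) (.cons (.rf (nat_lit 3689) (nat_lit 493858305440582043680)) (.cons (.rf (nat_lit 3690) (nat_lit 493858305440582043680)) (.cons (.br (nat_lit 1) (nat_lit 0) (.cons (.br (nat_lit 10) (nat_lit 0) (.cons (.ev (nat_lit 313111805871330792539423491) (nat_lit 2)) .nil)) (.cons (.br (nat_lit 5) (nat_lit 0) (.cons (.ev (nat_lit 7258369662289879645815812) (nat_lit 3)) .nil)) (.cons (.zr (nat_lit 20440865928717092587286053453825) (nat_lit 618974742009735957048198144) (nat_lit 5) (nat_lit 2)) .nil)))) .nil)))),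
 (.br (nat_lit 13) (nat_lit 0) (.cons (.rf (nat_lit 3689) (nat_lit 493858305440582043680)) (.cons (.rf (nat_lit 3690) (nat_lit 493858305440582043680)) (.cons (.rf (nat_lit 3691) (nat_lit 493858305440582043680)) (.cons (.br (nat_lit 13) (nat_lit 0) (.cons (.rf (nat_lit 3689) (nat_lit 493858305440582043680)) (.cons (.rf (nat_lit 3690) (nat_lit 493858305440582043680)) (.cons (.rf (nat_lit 3691) (nat_lit 493858305440582043680)) .nil)))) .nil))))),
 (.br (nat_lit 13) (nat_lit 0) (.cons (.rf (nat_lit 3692) (nat_lit 493858305440582043680)) (.cons (.rf (nat_lit 2751) (nat_lit 48493580485026)) (.cons (.br (nat_lit 10) (nat_lit 0) (.cons (.br (nat_lit 1) (nat_lit 0) (.cons (.ev (nat_lit 79228167255077846011892269313) (nat_lit 1)) .nil)) (.cons (.ev (nat_lit 20282720297587311665120127483904) (nat_lit 1)) .nil))) .nil)))),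
 (.br (nat_lit 13) (nat_lit 0) (.cons (.rf (nat_lit 3692) (nat_lit 493858305440582043680)) (.cons (.rf (nat_lit 3683) (nat_lit 51128532216546918818)) (.cons (.rf (nat_lit 3693) (nat_lit 493858305440582043680)) (.cons (.br (nat_lit 13) (nat_lit 0) (.cons (.rf (nat_lit 3692) (nat_lit 493858305440582043680)) (.cons (.rf (nat_lit 3683) (nat_lit 51128532216546918818)) (.cons (.rf (nat_lit 3693) (nat_lit 493858305440582043680)) .nil)))) .nil))))),
 (.br (nat_lit 13) (nat_lit 0) (.cons (.rf (nat_lit 3692) (nat_lit 493858305440582043680)) (.cons (.rf (nat_lit 2751) (nat_lit 48493580485026)) (.cons (.br (nat_lit 1) (nat_lit 0) (.cons (.br (nat_lit 1) (nat_lit 0) (.cons (.ev (nat_lit 313111805871330792539423491) (nat_lit 2)) .nil)) (.cons (.br (nat_lit 1) (nat_lit 0) (.cons (.ev (nat_lit 313111805871330792539423491) (nat_lit 2)) .nil)) .nil))) .nil)))),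
 (.br (nat_lit 13) (nat_lit 0) (.cons (.rf (nat_lit 3692) (nat_lit 493858305440582043680)) (.cons (.rf (nat_lit 3683) (nat_lit 51128532216546918818)) (.cons (.rf (nat_lit 3695) (nat_lit 493858305440582043680)) (.cons (.br (nat_lit 13) (nat_lit 0) (.cons (.rf (nat_lit 3692) (nat_lit 493858305440582043680)) (.cons (.rf (nat_lit 3683) (nat_lit 51128532216546918818)) (.cons (.rf (nat_lit 3695) (nat_lit 493858305440582043680)) .nil)))) .nil))))),
 (.br (nat_lit 13) (nat_lit 0) (.cons (.rf (nat_lit 3692) (nat_lit 493858305440582043680)) (.cons (.rf (nat_lit 3694) (nat_lit 493858305440582043680)) (.cons (.rf (nat_lit 3696) (nat_lit 493858305440582043680)) (.cons (.br (nat_lit 13) (nat_lit 0) (.cons (.rf (nat_lit 3692) (nat_lit 493858305440582043680)) (.cons (.rf (nat_lit 3694) (nat_lit 493858305440582043680)) (.cons (.rf (nat_lit 3696) (nat_lit 493858305440582043680)) .nil)))) .nil))))),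
 (.br (nat_lit 13) (nat_lit 0) (.cons (.rf (nat_lit 3692) (nat_lit 493858305440582043680)) (.cons (.rf (nat_lit 3694) (nat_lit 493858305440582043680)) (.cons (.rf (nat_lit 3696) (nat_lit 493858305440582043680)) (.cons (.rf (nat_lit 3697) (nat_lit 493858305440582043680)) (.cons (.br (nat_lit 13) (nat_lit 0) (.cons (.rf (nat_lit 3692) (nat_lit 493858305440582043680)) (.cons (.rf (nat_lit 3694) (nat_lit 493858305440582043680)) (.cons (.rf (nat_lit 3696) (nat_lit 493858305440582043680)) (.cons (.rf (nat_lit 3697) (nat_lit 493858305440582043680)) .nil))))) .nil)))))),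
 (.br (nat_lit 11) (nat_lit 0) (.cons (.ev (nat_lit 79537647542604484330033053696) (nat_lit 1)) .nil)),
 (.br (nat_lit 13) (nat_lit 0) (.cons (.br (nat_lit 12) (nat_lit 0) (.cons (.ev (nat_lit 79537647542604484330033053696) (nat_lit 1)) .nil)) (.cons (.rf (nat_lit 3699) (nat_lit 493858305440582043680)) .nil))),
 (.br (nat_lit 10) (nat_lit 0) (.cons (.rf (nat_lit 3700) (nat_lit 493858305440582043680)) (.cons (.br (nat_lit 12) (nat_lit 0) (.cons (.ev (nat_lit 121856008801999951860436984006146) (nat_lit 4)) .nil)) .nil))),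
 (.br (nat_lit 12) (nat_lit 0) (.cons (.rf (nat_lit 3700) (nat_lit 493858305440582043680)) (.cons (.rf (nat_lit 3701) (nat_lit 493858305440582043680)) (.cons (.br (nat_lit 12) (nat_lit 0) (.cons (.rf (nat_lit 3699) (nat_lit 493858305440582043680)) (.cons (.rf (nat_lit 3701) (nat_lit 493858305440582043680)) .nil))) .nil)))),
 (.br (nat_lit 12) (nat_lit 0) (.cons (.ev (nat_lit 79537652264970967203973169408) (nat_lit 1)) (.cons (.kr (nat_lit 309485009821345068724781056) (nat_lit 79228162514264337593543950336) (nat_lit 11) (nat_lit 0)) (.cons (.ev (nat_lit 79537652264970967203973169153) (nat_lit 1)) .nil)))),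
 (.br (nat_lit 11) (nat_lit 0) (.cons (.rf (nat_lit 3703) (nat_lit 493858305440582043680)) (.cons (.ev (nat_lit 20282410812577562096174758953216) (nat_lit 1)) .nil))),
 (.br (nat_lit 7) (nat_lit 0) .nil),
 (.br (nat_lit 10) (nat_lit 0) (.cons (.rf (nat_lit 3703) (nat_lit 493858305440582043680)) (.cons (.rf (nat_lit 3703) (nat_lit 492741412732994160672)) (.cons (.rf (nat_lit 3705) (nat_lit 470979911452704)) .nil)))),
 (.br (nat_lit 1) (nat_lit 0) (.cons (.ev (nat_lit 7258406557466876925314050) (nat_lit 3)) (.cons (.rf (nat_lit 3702) (nat_lit 493858305440582043680)) (.cons (.rf (nat_lit 3702) (nat_lit 492741412732994160672)) (.cons (.br (nat_lit 11) (nat_lit 0) (.cons (.rf (nat_lit 3704) (nat_lit 493858305440582043680)) (.cons (.rf (nat_lit 3706) (nat_lit 493858305440582043680)) (.cons (.br (nat_lit 12) (nat_lit 0) (.cons (.rf (nat_lit 3704) (nat_lit 492741412732994160672)) (.cons (.rf (nat_lit 3706) (nat_lit 493858305440582043680)) .nil))) .nil)))) .nil))))),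
 (.br (nat_lit 11) (nat_lit 0) (.cons (.rf (nat_lit 2751) (nat_lit 470843644872736)) (.cons (.br (nat_lit 13) (nat_lit 0) (.cons (.br (nat_lit 12) (nat_lit 0) (.cons (.ev (nat_lit 122645195577044381785685175698946) (nat_lit 4)) .nil)) (.cons (.br (nat_lit 5) (nat_lit 0) (.cons (.ev (nat_lit 122645195577044381785685175698946) (nat_lit 4)) .nil)) .nil))) (.cons (.ev (nat_lit 309485009821345073036591361) (nat_lit 1)) .nil)))),
 (.br (nat_lit 11) (nat_lit 0) (.cons (.br (nat_lit 12) (nat_lit 0) (.cons (.ev (nat_lit 79228162532711363146541957376) (nat_lit 1)) .nil)) (.cons (.ev (nat_lit 20282720297587311665120127483904) (nat_lit 1)) .nil))),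
 (.br (nat_lit 1) (nat_lit 0) (.cons (.ev (nat_lit 7258406557466876925314050) (nat_lit 3)) (.cons (.rf (nat_lit 3708) (nat_lit 493858305440582043680)) (.cons (.rf (nat_lit 3708) (nat_lit 492741412732994160672)) (.cons (.br (nat_lit 11) (nat_lit 0) (.cons (.rf (nat_lit 3709) (nat_lit 493858305440582043680)) (.cons (.br (nat_lit 11) (nat_lit 0) (.cons (.rf (nat_lit 3709) (nat_lit 493858305440582043680)) (.cons (.ev (nat_lit 309485028268370621722788096) (nat_lit 1)) .nil))) (.cons (.br (nat_lit 12) (nat_lit 0) (.cons (.rf (nat_lit 3709) (nat_lit 492741412732994160672)) (.cons (.ev (nat_lit 309485028268370621722788096) (nat_lit 1)) .nil))) .nil)))) .nil))))),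
 (.br (nat_lit 10) (nat_lit 0) (.cons (.ev (nat_lit 72339069031415809) (nat_lit 1)) (.cons (.zr (nat_lit 396140812608215179417968705540) (nat_lit 623805722921430129192207104) (nat_lit 5) (nat_lit 5)) (.cons (.rf (nat_lit 3698) (nat_lit 51128532216546918818)) .nil)))),
 (.br (nat_lit 5) (nat_lit 0) (.cons (.zr (nat_lit 1547425086000216793872859140) (nat_lit 158461160731807415178830545664) (nat_lit 5) (nat_lit 5)) (.cons (.br (nat_lit 12) (nat_lit 0) (.cons (.ev (nat_lit 40565438182137873381241745571842) (nat_lit 3)) .nil)) .nil))),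
 (.br (nat_lit 1) (nat_lit 0) (.cons (.rf (nat_lit 3707) (nat_lit 493858305440582043680)) (.cons (.rf (nat_lit 3710) (nat_lit 493858305440582043680)) (.cons (.br (nat_lit 11) (nat_lit 0) (.cons (.rf (nat_lit 3711) (nat_lit 493858305440582043680)) (.cons (.rf (nat_lit 3712) (nat_lit 493858305440582043680)) (.cons (.kr (nat_lit 309485009821345068724781056) (nat_lit 79228162514264337593543950336) (nat_lit 11) (nat_lit 0)) (.cons (.br (nat_lit 12) (nat_lit 0) (.cons (.rf (nat_lit 3711) (nat_lit 492741412732994160672)) (.cons (.rf (nat_lit 3712) (nat_lit 492741412732994160672)) (.cons (.br (nat_lit 5) (nat_lit 0) (.cons (.ev (nat_lit 20361948464824014261702377865473) (nat_lit 1)) .nil)) .nil)))) .nil))))) (.cons (.br (nat_lit 11) (nat_lit 0) (.cons (.br (nat_lit 10) (nat_lit 0) (.cons (.br (nat_lit 12) (nat_lit 0) (.cons (.ev (nat_lit 79228162532711363146541957376) (nat_lit 1)) .nil)) (.cons (.ev (nat_lit 121695081432484727586627575481348) (nat_lit 3)) .nil))) (.cons (.ev (nat_lit 309485009821345073036591361)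 (nat_lit 1)) (.cons (.br (nat_lit 5) (nat_lit 0) (.cons (.br (nat_lit 12) (nat_lit 0) (.cons (.ev (nat_lit 20361948464824014261702377865473) (nat_lit 1)) .nil)) (.cons (.br (nat_lit 10) (nat_lit 0) (.cons (.ev (nat_lit 20520095300138802134499832430592) (nat_lit 2)) .nil)) (.cons (.br (nat_lit 10) (nat_lit 0) (.cons (.ev (nat_lit 40723275537146759366291383910402) (nat_lit 3)) .nil)) .nil)))) (.cons (.rf (nat_lit 3641) (nat_lit 8262069443048354817)) .nil))))) .nil))))),
 (.br (nat_lit 2) (nat_lit 0) (.cons (.rf (nat_lit 3536) (nat_lit 14242959524133701664)) (.cons (.rf (nat_lit 3641) (nat_lit 14242959524133701664)) (.cons (.rf (nat_lit 3670) (nat_lit 14242959524133701664)) (.cons (.rf (nat_lit 3670) (nat_lit 13126066816545818656)) (.cons (.br (nat_lit 7) (nat_lit 0) (.cons (.rf (nat_lit 3683) (nat_lit 493858305440582043680)) (.cons (.br (nat_lit 13) (nat_lit 0) (.cons (.rf (nat_lit 3685) (nat_lit 493858305440582043680)) (.cons (.rf (nat_lit 3687) (nat_lit 493858305440582043680)) (.cons (.rf (nat_lit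 3688) (nat_lit 493858305440582043680)) (.cons (.rf (nat_lit 3688) (nat_lit 492741412732994160672)) .nil))))) (.cons (.ev (nat_lit 72339069031415809) (nat_lit 1)) (.cons (.rf (nat_lit 3698) (nat_lit 493858305440582043680)) (.cons (.rf (nat_lit 3698) (nat_lit 492741412732994160672)) (.cons (.br (nat_lit 1) (nat_lit 0) (.cons (.rf (nat_lit 3707) (nat_lit 493858305440582043680)) (.cons (.rf (nat_lit 3710) (nat_lit 493858305440582043680)) (.cons (.rf (nat_lit 3713) (nat_lit 493858305440582043680)) (.cons (.rf (nat_lit 3713) (nat_lit 492741412732994160672)) (.cons (.br (nat_lit 1) (nat_lit 0) (.cons (.rf (nat_lit 3707) (nat_lit 493858305440582043680)) (.cons (.rf (nat_lit 3710) (nat_lit 493858305440582043680)) (.cons (.rf (nat_lit 3713) (nat_lit 493858305440582043680)) (.cons (.rf (nat_lit 3713) (nat_lit 492741412732994160672)) .nil))))) .nil)))))) .nil))))))) .nil)))))),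
 (.br (nat_lit 1) (nat_lit 0) (.cons (.br (nat_lit 10) (nat_lit 0) (.cons (.ev (nat_lit 79538861172271781260600344833) (nat_lit 1)) (.cons (.rf (nat_lit 2367) (nat_lit 470946625456160)) .nil))) (.cons (.rf (nat_lit 2743) (nat_lit 8120008083488)) (.cons (.rf (nat_lit 2330) (nat_lit 15000884506363936)) .nil)))),
 (.br (nat_lit 1) (nat_lit 0) (.cons (.ev (nat_lit 79229371458602754989977764096) (nat_lit 1)) .nil)),
 (.br (nat_lit 12) (nat_lit 0) (.cons (.rf (nat_lit 3715) (nat_lit 13126066816545818656)) (.cons (.zr (nat_lit 2417851711849810964447232) (nat_lit 79537657005712139847513145346) (nat_lit 5) (nat_lit 7)) (.cons (.br (nat_lit 13) (nat_lit 0) (.cons (.rf (nat_lit 3716) (nat_lit 493858305440582043680)) (.cons (.br (nat_lit 1) (nat_lit 0) (.cons (.rf (nat_lit 3716) (nat_lit 493858305440582043680)) .nil)) .nil))) .nil)))),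
 (.br (nat_lit 1) (nat_lit 0) (.cons (.br (nat_lit 10) (nat_lit 0) (.cons (.ev (nat_lit 1208925819615732981301504) (nat_lit 1)) .nil)) .nil)),
 (.br (nat_lit 1) (nat_lit 0) (.cons (.br (nat_lit 12) (nat_lit 0) (.cons (.ev (nat_lit 317536460558119534427684208640) (nat_lit 3)) (.cons (.rf (nat_lit 2334) (nat_lit 468816321677344)) .nil))) (.cons (.rf (nat_lit 3327) (nat_lit 11378689673248)) (.cons (.br (nat_lit 13) (nat_lit 0) (.cons (.br (nat_lit 13) (nat_lit 0) (.cons (.ev (nat_lit 318769564894126451787904844800) (nat_lit 3)) .nil)) (.cons (.ev (nat_lit 318769564894126451787904844800) (nat_lit 3)) .nil))) .nil))))]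

theorem c136 : chkAll C T R L136 (nat_lit 3688) = true := by decide +kernel

theorem l136 : (nat_lit 3688) + L136.length = (nat_lit 3720) := by decide +kernel

/-- part of the certificates -/
def L137 : List Prf := [(.br (nat_lit 1) (nat_lit 0) (.cons (.rf (nat_lit 3719) (nat_lit 14242959524133701664)) (.cons (.br (nat_lit 5) (nat_lit 0) (.cons (.ev (nat_lit 320638564321642346205189507590) (nat_lit 4)) (.cons (.rf (nat_lit 2313) (nat_lit 468783035680800)) .nil))) (.cons (.br (nat_lit 5) (nat_lit 0) (.cons (.rf (nat_lit 2747) (nat_lit 469914757531680)) (.cons (.br (nat_lit 13) (nat_lit 0) (.cons (.ev (nat_lit 477230725662682962857604154368) (nat_lit 3)) .nil)) (.cons (.br (nat_lit 10) (nat_lit 0) (.cons (.ev (nat_lit 80160244358153045007499657985) (nat_lit 2)) (.cons (.br (nat_lit 12) (nat_lit 0) (.cons (.ev (nat_lit 20283028573726869801671055114755) (nat_lit 2)) .nil)) .nil))) .nil)))) .nil)))),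
 (.br (nat_lit 1) (nat_lit 0) (.cons (.rf (nat_lit 3719) (nat_lit 14242959524133701664)) (.cons (.rf (nat_lit 3720) (nat_lit 14242959524133701664)) (.cons (.br (nat_lit 1) (nat_lit 0) (.cons (.rf (nat_lit 3327) (nat_lit 11378689673248)) (.cons (.rf (nat_lit 3720) (nat_lit 14242959524133701664)) (.cons (.rf (nat_lit 2336) (nat_lit 468816321677344)) .nil)))) (.cons (.br (nat_lit 1) (nat_lit 0) (.cons (.rf (nat_lit 3719) (nat_lit 14242959524133701664)) (.cons (.rf (nat_lit 3720) (nat_lit 14242959524133701664)) (.cons (.rf (nat_lit 2336) (nat_lit 468816321677344)) .nil)))) .nil))))),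
 (.br (nat_lit 1) (nat_lit 0) (.cons (.br (nat_lit 13) (nat_lit 0) (.cons (.rf (nat_lit 3142) (nat_lit 469848122558496)) (.cons (.br (nat_lit 10) (nat_lit 0) (.cons (.rf (nat_lit 3142) (nat_lit 469848122558496)) .nil)) .nil))) (.cons (.br (nat_lit 5) (nat_lit 0) (.cons (.rf (nat_lit 2314) (nat_lit 468816321677344)) (.cons (.rf (nat_lit 2312) (nat_lit 468644690757664)) (.cons (.br (nat_lit 10) (nat_lit 0) (.cons (.rf (nat_lit 2341) (nat_lit 468645730945056)) (.cons (.ev (nat_lit 621392612097123274046440960) (nat_lit 3)) .nil))) .nil)))) (.cons (.rf (nat_lit 3164) (nat_lit 15071356096972832)) (.cons (.br (nat_lit 5) (nat_lit 0) (.cons (.rf (nat_lit 2438) (nat_lit 15433068714236413984)) (.cons (.rf (nat_lit 2329) (nat_lit 468783035680800)) (.cons (.br (nat_lit 10) (nat_lit 0) (.cons (.rf (nat_lit 2439) (nat_lit 15433068714236413984)) (.cons (.rf (nat_lit 3576) (nat_lit 485643629909994735648)) .nil))) .nil)))) .nil))))),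
 (.br (nat_lit 1) (nat_lit 0) (.cons (.rf (nat_lit 2312) (nat_lit 468645730945056)) (.cons (.br (nat_lit 10) (nat_lit 0) (.cons (.rf (nat_lit 2332) (nat_lit 468816321677344)) (.cons (.br (nat_lit 12) (nat_lit 0) (.cons (.ev (nat_lit 20361638979832567603117619675393) (nat_lit 1)) .nil)) .nil))) .nil))),
 (.br (nat_lit 1) (nat_lit 0) (.cons (.rf (nat_lit 3723) (nat_lit 493858305440582043680)) (.cons (.rf (nat_lit 3722) (nat_lit 492741412732994160672)) (.cons (.br (nat_lit 1) (nat_lit 0) (.cons (.rf (nat_lit 3723) (nat_lit 493858305440582043680)) (.cons (.rf (nat_lit 2329) (nat_lit 468816321677344)) .nil))) .nil)))),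
 (.br (nat_lit 5) (nat_lit 0) (.cons (.br (nat_lit 1) (nat_lit 0) (.cons (.rf (nat_lit 2340) (nat_lit 468816321677344)) (.cons (.rf (nat_lit 3722) (nat_lit 492741412732994160672)) (.cons (.br (nat_lit 10) (nat_lit 0) (.cons (.rf (nat_lit 2423) (nat_lit 470842606716960)) (.cons (.rf (nat_lit 3714) (nat_lit 14242959524133712897)) .nil))) .nil)))) (.cons (.rf (nat_lit 3131) (nat_lit 468811965892640)) (.cons (.rf (nat_lit 3724) (nat_lit 492741412732994160672)) (.cons (.br (nat_lit 1) (nat_lit 0) (.cons (.br (nat_lit 1) (nat_lit 0) (.cons (.rf (nat_lit 2341) (nat_lit 468644690757664)) (.cons (.ev (nat_lit 1859332688562533239835854338) (nat_lit 3)) .nil))) (.cons (.rf (nat_lit 3722) (nat_lit 492741412732994160672)) (.cons (.br (nat_lit 1) (nat_lit 0) (.cons (.ev (nat_lit 1859332688562533239835854338) (nat_lit 3)) (.cons (.rf (nat_lit 2439) (nat_lit 15398165817124292640)) .nil))) .nil)))) .nil))))),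
 (.br (nat_lit 1) (nat_lit 0) (.cons (.br (nat_lit 10) (nat_lit 0) (.cons (.ev (nat_lit 20282413230429130114463040733441) (nat_lit 2)) .nil)) (.cons (.ev (nat_lit 121853532921699153228074334946308) (nat_lit 3)) .nil))),
 (.br (nat_lit 1) (nat_lit 0) (.cons (.rf (nat_lit 3726) (nat_lit 493858305440582043680)) (.cons (.br (nat_lit 5) (nat_lit 0) (.cons (.ev (nat_lit 159082553344334909302676653570) (nat_lit 3)) .nil)) .nil))),
 (.br (nat_lit 13) (nat_lit 0) (.cons (.br (nat_lit 12) (nat_lit 0) (.cons (.ev (nat_lit 20441795602135772401187248340994) (nat_lit 2)) .nil)) (.cons (.br (nat_lit 11) (nat_lit 0) (.cons (.ev (nat_lit 20441795602135772401187248340994) (nat_lit 2)) .nil)) .nil))),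
 (.br (nat_lit 13) (nat_lit 0) (.cons (.rf (nat_lit 3728) (nat_lit 493858305440582043680)) (.cons (.br (nat_lit 7) (nat_lit 0) (.cons (.ev (nat_lit 20441795592654146510259082166274) (nat_lit 2)) .nil)) .nil))),
 (.br (nat_lit 11) (nat_lit 0) (.cons (.ev (nat_lit 79538856449905298395250032641) (nat_lit 1)) (.cons (.br (nat_lit 12) (nat_lit 0) (.cons (.ev (nat_lit 20282409603670117169120489242881) (nat_lit 1)) .nil)) .nil))),
 (.br (nat_lit 13) (nat_lit 0) (.cons (.br (nat_lit 7) (nat_lit 0) (.cons (.ev (nat_lit 1859332688562533239835854338) (nat_lit 3)) (.cons (.ev (nat_lit 20282720297587527556435904954881) (nat_lit 2)) .nil))) (.cons (.rf (nat_lit 2501) (nat_lit 1272695886102888866)) (.cons (.br (nat_lit 12) (nat_lit 0) (.cons (.zr (nat_lit 309485046714833224733819392) (nat_lit 79229376162450716567357423616) (nat_lit 5) (nat_lit 3)) (.cons (.ev (nat_lit 160313239828559047374005077510) (nat_lit 3)) .nil))) .nil)))),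
 (.br (nat_lit 1) (nat_lit 0) (.cons (.zr (nat_lit 1856910077663047061233205762) (nat_lit 4840425645785815636377600) (nat_lit 10) (nat_lit 2)) (.cons (.br (nat_lit 7) (nat_lit 0) (.cons (.ev (nat_lit 79229371440156292391244988416) (nat_lit 1)) (.cons (.br (nat_lit 12) (nat_lit 0) (.cons (.ev (nat_lit 20282720297605758127718860390401) (nat_lit 1)) .nil)) .nil))) (.cons (.rf (nat_lit 3731) (nat_lit 493858305440582043680)) .nil)))),
 (.br (nat_lit 13) (nat_lit 0) (.cons (.rf (nat_lit 2501) (nat_lit 1272695886102888866)) (.cons (.rf (nat_lit 3732) (nat_lit 493858305440582043680)) (.cons (.br (nat_lit 13) (nat_lit 0) (.cons (.ev (nat_lit 20282410812596009121723445149696) (nat_lit 1)) (.cons (.ev (nat_lit 20282720302309678147994067730433) (nat_lit 1)) .nil))) .nil)))),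
 (.br (nat_lit 7) (nat_lit 0) (.cons (.br (nat_lit 12) (nat_lit 0) (.cons (.ev (nat_lit 81130262225181530851722125116420) (nat_lit 3)) .nil)) (.cons (.br (nat_lit 11) (nat_lit 0) (.cons (.ev (nat_lit 20282719088698530217888831242496) (nat_lit 2)) .nil)) (.cons (.zr (nat_lit 9444805586283281777153) (nat_lit 20282410812595936783753958981632) (nat_lit 5) (nat_lit 10)) .nil)))),
 (.br (nat_lit 12) (nat_lit 0) (.cons (.ev (nat_lit 20361948464824014261702377865473) (nat_lit 1)) .nil)),
 (.br (nat_lit 11) (nat_lit 0) (.cons (.rf (nat_lit 3735) (nat_lit 493858305440582043680)) (.cons (.kr (nat_lit 237684487542865070374669778945) (nat_lit 618974742009454482071486720) (nat_lit 0) (nat_lit 2)) (.cons (.ev (nat_lit 20282410817299928579040109133824) (nat_lit 1)) .nil)))),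
 (.br (nat_lit 13) (nat_lit 0) (.cons (.rf (nat_lit 3734) (nat_lit 493858305440582043680)) (.cons (.rf (nat_lit 3736) (nat_lit 493858305440582043680)) (.cons (.br (nat_lit 13) (nat_lit 0) (.cons (.rf (nat_lit 3734) (nat_lit 493858305440582043680)) (.cons (.ev (nat_lit 20282410812596009121723445149696) (nat_lit 1)) (.cons (.zr (nat_lit 20520094091212910180801592754177) (nat_lit 928455029464316681151054336) (nat_lit 5) (nat_lit 12)) .nil)))) (.cons (.br (nat_lit 13) (nat_lit 0) (.cons (.rf (nat_lit 3734) (nat_lit 493858305440582043680)) (.cons (.rf (nat_lit 3736) (nat_lit 493858305440582043680)) (.cons (.zr (nat_lit 20520094091212910180801592754177) (nat_lit 928455029464316681151054336) (nat_lit 5) (nat_lit 12)) .nil)))) .nil))))),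
 (.br (nat_lit 1) (nat_lit 0) (.cons (.br (nat_lit 12) (nat_lit 0) (.cons (.ev (nat_lit 79230580384422933672912487171) (nat_lit 2)) .nil)) (.cons (.br (nat_lit 11) (nat_lit 0) (.cons (.ev (nat_lit 475995203437998080380893265922) (nat_lit 3)) .nil)) (.cons (.zr (nat_lit 9444805586283281777153) (nat_lit 20282410812595936783753958981632) (nat_lit 5) (nat_lit 10)) .nil)))),
 (.br (nat_lit 13) (nat_lit 0) (.cons (.rf (nat_lit 3737) (nat_lit 493858305440582043680)) (.cons (.rf (nat_lit 3738) (nat_lit 493858305440582043680)) (.cons (.br (nat_lit 1) (nat_lit 0) (.cons (.ev (nat_lit 40723276741313245543817864741120) (nat_lit 2)) .nil)) .nil)))),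
 (.br (nat_lit 13) (nat_lit 0) (.cons (.rf (nat_lit 3737) (nat_lit 493858305440582043680)) (.cons (.rf (nat_lit 3738) (nat_lit 493858305440582043680)) (.cons (.rf (nat_lit 3739) (nat_lit 493858305440582043680)) (.cons (.br (nat_lit 13) (nat_lit 0) (.cons (.rf (nat_lit 3737) (nat_lit 493858305440582043680)) (.cons (.rf (nat_lit 3738) (nat_lit 493858305440582043680)) (.cons (.rf (nat_lit 3739) (nat_lit 493858305440582043680)) .nil)))) .nil))))),
 (.br (nat_lit 13) (nat_lit 0) (.cons (.ev (nat_lit 20282410812596009121723445149696) (nat_lit 1)) (.cons (.rf (nat_lit 3740) (nat_lit 493858305440582043680)) (.cons (.br (nat_lit 1) (nat_lit 0) (.cons (.ev (nat_lit 20282413230429130114463040733696) (nat_lit 2)) .nil)) .nil)))),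
 (.br (nat_lit 13) (nat_lit 0) (.cons (.rf (nat_lit 3736) (nat_lit 493858305440582043680)) (.cons (.rf (nat_lit 3740) (nat_lit 493858305440582043680)) (.cons (.rf (nat_lit 3741) (nat_lit 493858305440582043680)) (.cons (.br (nat_lit 13) (nat_lit 0) (.cons (.rf (nat_lit 3736) (nat_lit 493858305440582043680)) (.cons (.rf (nat_lit 3740) (nat_lit 493858305440582043680)) (.cons (.rf (nat_lit 3741) (nat_lit 493858305440582043680)) .nil)))) .nil))))),
 (.br (nat_lit 13) (nat_lit 0) (.cons (.rf (nat_lit 3737) (nat_lit 493858305440582043680)) (.cons (.rf (nat_lit 3740) (nat_lit 493858305440582043680)) (.cons (.rf (nat_lit 3742) (nat_lit 493858305440582043680)) (.cons (.br (nat_lit 13) (nat_lit 0) (.cons (.zr (nat_lit 20520094091212910180801592754177) (nat_lit 928455029464316681151054336) (nat_lit 5) (nat_lit 12)) (.cons (.rf (nat_lit 3740) (nat_lit 493858305440582043680)) (.cons (.rf (nat_lit 3742) (nat_lit 493858305440582043680)) .nil)))) .nil))))),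
 (.br (nat_lit 7) (nat_lit 0) (.cons (.br (nat_lit 12) (nat_lit 0) (.cons (.ev (nat_lit 82557616761811065414810125862400) (nat_lit 5)) .nil)) (.cons (.br (nat_lit 11) (nat_lit 0) (.cons (.zr (nat_lit 122169826601736422084264467628038) (nat_lit 1242775742852069167817032704) (nat_lit 20) (nat_lit 5)) .nil)) (.cons (.br (nat_lit 11) (nat_lit 0) (.cons (.ev (nat_lit 40723275537146759366291383910402) (nat_lit 3)) .nil)) .nil)))),
 (.br (nat_lit 12) (nat_lit 0) (.cons (.ev (nat_lit 20361948464824014261702377865473) (nat_lit 1)) .nil)),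
 (.br (nat_lit 5) (nat_lit 0) (.cons (.rf (nat_lit 3745) (nat_lit 493858305440582043680)) (.cons (.rf (nat_lit 2456) (nat_lit 15433068714236413984)) (.cons (.rf (nat_lit 3744) (nat_lit 493858305440582043680)) .nil)))),
 (.br (nat_lit 5) (nat_lit 0) (.cons (.ev (nat_lit 310693954159762465158594816) (nat_lit 1)) (.cons (.rf (nat_lit 2771) (nat_lit 15433068714169370656)) (.cons (.rf (nat_lit 3744) (nat_lit 493858305440582043680)) .nil)))),
 (.br (nat_lit 13) (nat_lit 0) (.cons (.rf (nat_lit 3744) (nat_lit 493858305440582043680)) (.cons (.rf (nat_lit 3746) (nat_lit 493858305440582043680)) (.cons (.rf (nat_lit 3747) (nat_lit 493858305440582043680)) (.cons (.br (nat_lit 13) (nat_lit 0) (.cons (.rf (nat_lit 3744) (nat_lit 493858305440582043680)) (.cons (.rf (nat_lit 3746) (nat_lit 493858305440582043680)) (.cons (.rf (nat_lit 3747) (nat_lit 493858305440582043680)) .nil)))) .nil))))),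
 (.br (nat_lit 1) (nat_lit 0) (.cons (.br (nat_lit 11) (nat_lit 0) (.cons (.ev (nat_lit 475989177717029986971234534146) (nat_lit 3)) (.cons (.br (nat_lit 12) (nat_lit 0) (.cons (.ev (nat_lit 40723276741313245543817864741120) (nat_lit 2)) .nil)) .nil))) (.cons (.ev (nat_lit 621392612097123274046440960) (nat_lit 3)) (.cons (.rf (nat_lit 3748) (nat_lit 493858305440582043680)) (.cons (.br (nat_lit 13) (nat_lit 0) (.cons (.rf (nat_lit 3641) (nat_lit 14235044069127817261)) (.cons (.ev (nat_lit 20282409608374037189395696582913) (nat_lit 1)) (.cons (.br (nat_lit 7) (nat_lit 0) (.cons (.ev (nat_lit 79538856449978202613291810816) (nat_lit 2)) .nil)) .nil)))) .nil))))),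
 (.br (nat_lit 12) (nat_lit 0) (.cons (.rf (nat_lit 3748) (nat_lit 493858305440582043680)) (.cons (.rf (nat_lit 3749) (nat_lit 493858305440582043680)) (.cons (.br (nat_lit 5) (nat_lit 0) (.cons (.ev (nat_lit 79229371440156292391244988416) (nat_lit 1)) (.cons (.zr (nat_lit 316912650057201747041523466240) (nat_lit 1237944780098609417277145088) (nat_lit 10) (nat_lit 7)) .nil))) (.cons (.br (nat_lit 1) (nat_lit 0) (.cons (.br (nat_lit 11) (nat_lit 0) (.cons (.ev (nat_lit 20282719093402377336127873876225) (nat_lit 1)) .nil)) (.cons (.br (nat_lit 5) (nat_lit 0) (.cons (.ev (nat_lit 20282719093402377336127873876225) (nat_lit 1)) .nil)) (.cons (.ev (nat_lit 20361638975091754657644946653441) (nat_lit 1)) .nil)))) .nil))))),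
 (.br (nat_lit 12) (nat_lit 0) (.cons (.rf (nat_lit 3748) (nat_lit 493858305440582043680)) (.cons (.rf (nat_lit 3749) (nat_lit 493858305440582043680)) (.cons (.rf (nat_lit 3750) (nat_lit 493858305440582043680)) (.cons (.br (nat_lit 13) (nat_lit 0) (.cons (.ev (nat_lit 79228162532711363146541957376) (nat_lit 1)) (.cons (.rf (nat_lit 2924) (nat_lit 1588827635622183330)) (.cons (.br (nat_lit 1) (nat_lit 0) (.cons (.ev (nat_lit 79537647524158021731300147456) (nat_lit 1)) .nil)) .nil)))) .nil))))),
 (.br (nat_lit 10) (nat_lit 0) (.cons (.br (nat_lit 1) (nat_lit 0) (.cons (.rf (nat_lit 2752) (nat_lit 15071358307436576)) (.cons (.rf (nat_lit 2752) (nat_lit 15066960395143200)) (.cons (.br (nat_lit 13) (nat_lit 0) (.cons (.rf (nat_lit 3728) (nat_lit 493858305440582043680)) (.cons (.rf (nat_lit 3729) (nat_lit 493858305440582043680)) (.cons (.br (nat_lit 13) (nat_lit 0) (.cons (.rf (nat_lit 3728) (nat_lit 493858305440582043680)) (.cons (.rf (nat_lit 3729) (nat_lit 493858305440582043680)) .nil))) .nil))))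 (.cons (.br (nat_lit 12) (nat_lit 0) (.cons (.rf (nat_lit 3730) (nat_lit 493858305440582043680)) (.cons (.br (nat_lit 12) (nat_lit 0) (.cons (.ev (nat_lit 79538861190718806809286541313) (nat_lit 1)) (.cons (.ev (nat_lit 79228162532711363146541957376) (nat_lit 1)) .nil))) (.cons (.br (nat_lit 12) (nat_lit 0) (.cons (.rf (nat_lit 3730) (nat_lit 493858305440582043680)) (.cons (.ev (nat_lit 79228162532711363146541957376) (nat_lit 1)) .nil))) .nil)))) .nil))))) (.cons (.ev (nat_lit 72339069031415809) (nat_lit 1)) (.cons (.br (nat_lit 13) (nat_lit 0) (.cons (.rf (nat_lit 3731) (nat_lit 493858305440582043680)) (.cons (.rf (nat_lit 3732) (nat_lit 493858305440582043680)) (.cons (.rf (nat_lit 3733) (nat_lit 493858305440582043680)) (.cons (.br (nat_lit 13) (nat_lit 0) (.cons (.rf (nat_lit 3731) (nat_lit 493858305440582043680)) (.cons (.rf (nat_lit 3732) (nat_lit 493858305440582043680)) (.cons (.rf (nat_lit 3733) (nat_lit 493858305440582043680)) .nil)))) .nil))))) (.cons (.br (nat_lit 13) (nat_lit 0) (.cons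 (.rf (nat_lit 3737) (nat_lit 493858305440582043680)) (.cons (.rf (nat_lit 3740) (nat_lit 493858305440582043680)) (.cons (.rf (nat_lit 3742) (nat_lit 493858305440582043680)) (.cons (.rf (nat_lit 3743) (nat_lit 493858305440582043680)) (.cons (.br (nat_lit 13) (nat_lit 0) (.cons (.rf (nat_lit 3737) (nat_lit 493858305440582043680)) (.cons (.rf (nat_lit 3740) (nat_lit 493858305440582043680)) (.cons (.rf (nat_lit 3742) (nat_lit 493858305440582043680)) (.cons (.rf (nat_lit 3743) (nat_lit 493858305440582043680)) .nil))))) .nil)))))) (.cons (.br (nat_lit 12) (nat_lit 0) (.cons (.rf (nat_lit 3748) (nat_lit 493858305440582043680)) (.cons (.rf (nat_lit 3749) (nat_lit 493858305440582043680)) (.cons (.rf (nat_lit 3750) (nat_lit 493858305440582043680)) (.cons (.rf (nat_lit 3751) (nat_lit 493858305440582043680)) (.cons (.br (nat_lit 12) (nat_lit 0) (.cons (.rf (nat_lit 3748) (nat_lit 493858305440582043680)) (.cons (.rf (nat_lit 3749) (nat_lit 493858305440582043680)) (.cons (.rf (nat_lit 3750) (nat_lit 493858305440582043680))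 (.cons (.rf (nat_lit 3751) (nat_lit 493858305440582043680)) .nil))))) .nil)))))) .nil))))))]

theorem c137 : chkAll C T R L137 (nat_lit 3720) = true := by decide +kernel

theorem l137 : (nat_lit 3720) + L137.length = (nat_lit 3753) := by decide +kernel

/-- part of the certificates -/
def L138 : List Prf := [(.br (nat_lit 12) (nat_lit 0) (.cons (.ev (nat_lit 79229376162522492686401863681) (nat_lit 1)) .nil)),
 (.br (nat_lit 13) (nat_lit 0) (.cons (.rf (nat_lit 3753) (nat_lit 15433072045018155040)) (.cons (.br (nat_lit 12) (nat_lit 0) (.cons (.rf (nat_lit 3641) (nat_lit 8262069408722170881)) (.cons (.ev (nat_lit 79538856468352323943936360448) (nat_lit 1)) .nil))) .nil))),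
 (.br (nat_lit 1) (nat_lit 0) (.cons (.br (nat_lit 1) (nat_lit 0) (.cons (.rf (nat_lit 3753) (nat_lit 14242959524133701664)) .nil)) (.cons (.rf (nat_lit 3753) (nat_lit 14242959524133701664)) .nil))),
 (.br (nat_lit 9) (nat_lit 0) (.cons (.br (nat_lit 9) (nat_lit 0) .nil) .nil)),
 (.br (nat_lit 1) (nat_lit 0) (.cons (.rf (nat_lit 3756) (nat_lit 470979911452704)) (.cons (.kr (nat_lit 2422574005993603004891136) (nat_lit 158456325046975421464115675136) (nat_lit 3) (nat_lit 0)) (.cons (.br (nat_lit 11) (nat_lit 0) (.cons (.kr (nat_lit 309485009821346168236409088) (nat_lit 1208925819614629191548928) (nat_lit 1) (nat_lit 0)) (.cons (.ev (nat_lit 310693954159762465158594816) (nat_lit 1)) .nil))) .nil)))),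
 (.br (nat_lit 1) (nat_lit 0) (.cons (.rf (nat_lit 3756) (nat_lit 470979911452704)) (.cons (.kr (nat_lit 2422574005993603004891136) (nat_lit 158456325046975421464115675136) (nat_lit 3) (nat_lit 0)) (.cons (.br (nat_lit 13) (nat_lit 0) (.cons (.br (nat_lit 12) (nat_lit 0) (.cons (.ev (nat_lit 79228162532711363146541957376) (nat_lit 1)) .nil)) (.cons (.ev (nat_lit 79228162532711363146541957376) (nat_lit 1)) .nil))) .nil)))),
 (.br (nat_lit 13) (nat_lit 0) (.cons (.ev (nat_lit 310693954159762465158594816) (nat_lit 1)) (.cons (.rf (nat_lit 1724) (nat_lit 123804102510666353056)) .nil))),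
 (.br (nat_lit 1) (nat_lit 0) (.cons (.ev (nat_lit 313111824317793391272329472) (nat_lit 2)) (.cons (.ev (nat_lit 310693954159762465158594816) (nat_lit 1)) .nil))),
 (.br (nat_lit 1) (nat_lit 0) (.cons (.rf (nat_lit 2768) (nat_lit 432463716452384)) (.cons (.br (nat_lit 11) (nat_lit 0) (.cons (.ev (nat_lit 79228162532711082766781907201) (nat_lit 1)) .nil)) .nil))),
 (.br (nat_lit 11) (nat_lit 0) (.cons (.ev (nat_lit 623810574560929955015032832) (nat_lit 3)) (.cons (.ev (nat_lit 79228167255077846011892269313) (nat_lit 1)) (.cons (.ev (nat_lit 20282409608374037189395696582913) (nat_lit 1)) .nil)))),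
 (.br (nat_lit 1) (nat_lit 0) (.cons (.br (nat_lit 12) (nat_lit 0) (.cons (.ev (nat_lit 79228167255077846011892269313) (nat_lit 1)) .nil)) (.cons (.ev (nat_lit 81130878777349534314800349578756) (nat_lit 3)) .nil))),
 (.br (nat_lit 1) (nat_lit 0) (.cons (.rf (nat_lit 3763) (nat_lit 493858305440582043680)) (.cons (.rf (nat_lit 3762) (nat_lit 493858305440582043680)) .nil))),
 (.br (nat_lit 10) (nat_lit 0) (.cons (.rf (nat_lit 3752) (nat_lit 493858305440582043680)) (.cons (.ev (nat_lit 72339069031415809) (nat_lit 1)) (.cons (.br (nat_lit 13) (nat_lit 0) (.cons (.rf (nat_lit 3754) (nat_lit 493858305440582043680)) (.cons (.rf (nat_lit 3755) (nat_lit 15433072045018155040)) (.cons (.br (nat_lit 13) (nat_lit 0) (.cons (.rf (nat_lit 3754) (nat_lit 493858305440582043680)) (.cons (.rf (nat_lit 3755) (nat_lit 15433072045018155040)) .nil))) .nil)))) (.cons (.br (nat_lit 1) (nat_lit 0) (.cons (.rf (nat_lit 3757) (nat_lit 493858305440582043680)) (.cons (.rf (nat_lit 3758) (nat_lit 493858305440582043680)) (.cons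 (.kr (nat_lit 2422574005993603004891136) (nat_lit 158456325046975421464115675136) (nat_lit 3) (nat_lit 0)) (.cons (.br (nat_lit 1) (nat_lit 0) (.cons (.rf (nat_lit 3757) (nat_lit 493858305440582043680)) (.cons (.rf (nat_lit 3758) (nat_lit 493858305440582043680)) (.cons (.kr (nat_lit 2422574005993603004891136) (nat_lit 158456325046975421464115675136) (nat_lit 3) (nat_lit 0)) .nil)))) .nil))))) (.cons (.br (nat_lit 7) (nat_lit 0) (.cons (.br (nat_lit 12) (nat_lit 0) (.cons (.rf (nat_lit 3759) (nat_lit 493858305440582043680)) (.cons (.rf (nat_lit 3760) (nat_lit 493858305440582043680)) (.cons (.br (nat_lit 12) (nat_lit 0) (.cons (.rf (nat_lit 1724) (nat_lit 123804102510666353056)) (.cons (.rf (nat_lit 3760) (nat_lit 493858305440582043680)) .nil))) .nil)))) (.cons (.ev (nat_lit 623810574560929955015032832) (nat_lit 3)) (.cons (.br (nat_lit 1) (nat_lit 0) (.cons (.rf (nat_lit 3761) (nat_lit 15433070910038444064)) (.cons (.br (nat_lit 1) (nat_lit 0) (.cons (.rf (nat_lit 2768) (nat_lit 468783033649184))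 (.cons (.rf (nat_lit 3762) (nat_lit 493858305440582043680)) .nil))) (.cons (.br (nat_lit 1) (nat_lit 0) (.cons (.rf (nat_lit 3761) (nat_lit 15433070910038444064)) (.cons (.rf (nat_lit 3762) (nat_lit 493858305440582043680)) .nil))) .nil)))) (.cons (.br (nat_lit 1) (nat_lit 0) (.cons (.rf (nat_lit 3763) (nat_lit 493858305440582043680)) (.cons (.rf (nat_lit 3764) (nat_lit 493858305440582043680)) (.cons (.br (nat_lit 1) (nat_lit 0) (.cons (.ev (nat_lit 81130878777349534314800349578756) (nat_lit 3)) (.cons (.rf (nat_lit 3762) (nat_lit 493858305440582043680)) .nil))) .nil)))) .nil))))) .nil)))))),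
 (.br (nat_lit 13) (nat_lit 0) (.cons (.ev (nat_lit 20282720302309678147994067730433) (nat_lit 1)) (.cons (.br (nat_lit 1) (nat_lit 0) (.cons (.ev (nat_lit 477230725662682962857604154886) (nat_lit 3)) .nil)) .nil))),
 (.br (nat_lit 13) (nat_lit 0) (.cons (.ev (nat_lit 20282720297605758127718860390401) (nat_lit 1)) (.cons (.br (nat_lit 1) (nat_lit 0) (.cons (.ev (nat_lit 20441486121811351711771734901250) (nat_lit 2)) .nil)) .nil))),
 (.br (nat_lit 13) (nat_lit 0) (.cons (.rf (nat_lit 3766) (nat_lit 493858305440582043680)) (.cons (.rf (nat_lit 3767) (nat_lit 493858305440582043680)) (.cons (.br (nat_lit 13) (nat_lit 0) (.cons (.rf (nat_lit 3766) (nat_lit 493858305440582043680)) (.cons (.rf (nat_lit 3767) (nat_lit 493858305440582043680)) .nil))) .nil)))),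
 (.br (nat_lit 13) (nat_lit 0) (.cons (.rf (nat_lit 3768) (nat_lit 493858305440582043680)) (.cons (.br (nat_lit 1) (nat_lit 0) (.cons (.ev (nat_lit 477230725662682962857604154886) (nat_lit 3)) .nil)) .nil))),
 (.br (nat_lit 1) (nat_lit 0) (.cons (.rf (nat_lit 3769) (nat_lit 493858305440582043680)) (.cons (.br (nat_lit 1) (nat_lit 0) (.cons (.rf (nat_lit 3769) (nat_lit 493858305440582043680)) (.cons (.rf (nat_lit 3768) (nat_lit 493858305440582043680)) .nil))) (.cons (.rf (nat_lit 3768) (nat_lit 493858305440582043680)) .nil)))),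
 (.br (nat_lit 13) (nat_lit 0) (.cons (.rf (nat_lit 3767) (nat_lit 493858305440582043680)) (.cons (.rf (nat_lit 3770) (nat_lit 493858305440582043680)) (.cons (.br (nat_lit 13) (nat_lit 0) (.cons (.rf (nat_lit 3767) (nat_lit 493858305440582043680)) (.cons (.ev (nat_lit 20283341699644356515142563921923) (nat_lit 2)) .nil))) .nil)))),
 (.br (nat_lit 7) (nat_lit 0) (.cons (.ev (nat_lit 79229371440156292391244988416) (nat_lit 1)) (.cons (.br (nat_lit 12) (nat_lit 0) (.cons (.zr (nat_lit 2475880079003106114025817600) (nat_lit 158458757065714941557341290498) (nat_lit 10) (nat_lit 2)) .nil)) .nil))),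
 (.br (nat_lit 12) (nat_lit 0) (.cons (.rf (nat_lit 3772) (nat_lit 493858305440582043680)) (.cons (.br (nat_lit 12) (nat_lit 0) (.cons (.ev (nat_lit 79229371440156292391244988416) (nat_lit 1)) (.cons (.ev (nat_lit 79231789310314323317358592002) (nat_lit 2)) .nil))) (.cons (.br (nat_lit 12) (nat_lit 0) (.cons (.rf (nat_lit 3772) (nat_lit 493858305440582043680)) (.cons (.ev (nat_lit 79231789310314323317358592002) (nat_lit 2)) .nil))) .nil)))),
 (.br (nat_lit 1) (nat_lit 0) (.cons (.rf (nat_lit 3773) (nat_lit 493858305440582043680)) (.cons (.br (nat_lit 5) (nat_lit 0) (.cons (.ev (nat_lit 1110441891570968659728936734210) (nat_lit 4)) (.cons (.br (nat_lit 12) (nat_lit 0) (.cons (.ev (nat_lit 20362568639084148253191930183680) (nat_lit 2)) .nil)) .nil))) (.cons (.br (nat_lit 13) (nat_lit 0) (.cons (.rf (nat_lit 3714) (nat_lit 14242959455481345025)) (.cons (.zr (nat_lit 309489732260167007384634112) (nat_lit 20282412021503309653205634252801) (nat_lit 5) (nat_lit 7)) .nil))) .nil)))),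
 (.br (nat_lit 1) (nat_lit 0) (.cons (.rf (nat_lit 3773) (nat_lit 493858305440582043680)) (.cons (.rf (nat_lit 3774) (nat_lit 493858305440582043680)) (.cons (.br (nat_lit 13) (nat_lit 0) (.cons (.br (nat_lit 7) (nat_lit 0) (.cons (.ev (nat_lit 79231789310314323317358592002) (nat_lit 2)) .nil)) (.cons (.ev (nat_lit 20282410817318375604588795461633) (nat_lit 1)) (.cons (.rf (nat_lit 3641) (nat_lit 8262069408722170881)) .nil)))) .nil)))),
 (.br (nat_lit 10) (nat_lit 0) (.cons (.rf (nat_lit 3752) (nat_lit 493858305440582043680)) (.cons (.rf (nat_lit 3765) (nat_lit 493858305440582043680)) (.cons (.ev (nat_lit 72339069031415809) (nat_lit 1)) (.cons (.br (nat_lit 13) (nat_lit 0) (.cons (.rf (nat_lit 3768) (nat_lit 493858305440582043680)) (.cons (.rf (nat_lit 3770) (nat_lit 493858305440582043680)) (.cons (.rf (nat_lit 3771) (nat_lit 493858305440582043680)) (.cons (.br (nat_lit 13) (nat_lit 0) (.cons (.rf (nat_lit 3768) (nat_lit 493858305440582043680)) (.cons (.rf (nat_lit 3770) (nat_lit 493858305440582043680))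 (.cons (.rf (nat_lit 3771) (nat_lit 493858305440582043680)) .nil)))) .nil))))) (.cons (.br (nat_lit 1) (nat_lit 0) (.cons (.rf (nat_lit 3773) (nat_lit 493858305440582043680)) (.cons (.rf (nat_lit 3774) (nat_lit 493858305440582043680)) (.cons (.rf (nat_lit 3775) (nat_lit 493858305440582043680)) (.cons (.br (nat_lit 1) (nat_lit 0) (.cons (.rf (nat_lit 3773) (nat_lit 493858305440582043680)) (.cons (.rf (nat_lit 3774) (nat_lit 493858305440582043680)) (.cons (.rf (nat_lit 3775) (nat_lit 493858305440582043680)) .nil)))) .nil))))) .nil)))))),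
 (.br (nat_lit 7) (nat_lit 0) (.cons (.ev (nat_lit 313111805871330792539422977) (nat_lit 2)) (.cons (.br (nat_lit 11) (nat_lit 0) (.cons (.ev (nat_lit 20282719088680010853262523695360) (nat_lit 1)) .nil)) (.cons (.rf (nat_lit 3714) (nat_lit 14242959524133712897)) .nil)))),
 (.br (nat_lit 1) (nat_lit 0) (.cons (.ev (nat_lit 1245198335448924253038315010) (nat_lit 3)) (.cons (.br (nat_lit 11) (nat_lit 0) (.cons (.ev (nat_lit 122487358222035495800635537360896) (nat_lit 4)) .nil)) (.cons (.rf (nat_lit 3714) (nat_lit 14242959524133712897)) .nil)))),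
 (.br (nat_lit 13) (nat_lit 0) (.cons (.rf (nat_lit 3777) (nat_lit 493858305440582043680)) (.cons (.rf (nat_lit 3778) (nat_lit 493858305440582043680)) (.cons (.br (nat_lit 1) (nat_lit 0) (.cons (.ev (nat_lit 81288094744376167999002088965632) (nat_lit 3)) .nil)) .nil)))),
 (.br (nat_lit 13) (nat_lit 0) (.cons (.rf (nat_lit 3777) (nat_lit 493858305440582043680)) (.cons (.rf (nat_lit 3778) (nat_lit 493858305440582043680)) (.cons (.rf (nat_lit 3779) (nat_lit 493858305440582043680)) (.cons (.br (nat_lit 13) (nat_lit 0) (.cons (.rf (nat_lit 3777) (nat_lit 493858305440582043680)) (.cons (.rf (nat_lit 3778) (nat_lit 493858305440582043680)) (.cons (.rf (nat_lit 3779) (nat_lit 493858305440582043680)) .nil)))) .nil))))),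
 (.br (nat_lit 12) (nat_lit 0) (.cons (.zr (nat_lit 20520094091194463440030712987905) (nat_lit 3631499825326757219794944) (nat_lit 5) (nat_lit 5)) .nil)),
 (.br (nat_lit 1) (nat_lit 0) (.cons (.rf (nat_lit 3780) (nat_lit 493858305440582043680)) (.cons (.br (nat_lit 5) (nat_lit 0) (.cons (.rf (nat_lit 3756) (nat_lit 468783035680800)) (.cons (.br (nat_lit 12) (nat_lit 0) (.cons (.ev (nat_lit 475995203437998080380893265922) (nat_lit 3)) .nil)) .nil))) (.cons (.br (nat_lit 13) (nat_lit 0) (.cons (.zr (nat_lit 72620552581415680) (nat_lit 1213666632842672057876483) (nat_lit 10) (nat_lit 7)) (.cons (.kr (nat_lit 618974742009454482071486976) (nat_lit 158456325046975419265092550656) (nat_lit 1) (nat_lit 0)) .nil))) (.cons (.br (nat_lit 5) (nat_lit 0) (.cons (.rf (nat_lit 3781) (nat_lit 493858305440582043680)) (.cons (.br (nat_lit 11) (nat_lit 0) (.cons (.ev (nat_lit 81289344773821371540636148039686) (nat_lit 4)) .nil)) (.cons (.ev (nat_lit 1213648186098598331613441) (nat_lit 1)) .nil)))) .nil))))),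
 (.br (nat_lit 1) (nat_lit 0) (.cons (.rf (nat_lit 3780) (nat_lit 493858305440582043680)) (.cons (.rf (nat_lit 3782) (nat_lit 493858305440582043680)) (.cons (.br (nat_lit 5) (nat_lit 0) (.cons (.ev (nat_lit 79537652264970967203973169408) (nat_lit 1)) (.cons (.br (nat_lit 7) (nat_lit 0) (.cons (.ev (nat_lit 81447186964570716009461035565570) (nat_lit 4)) .nil)) .nil))) (.cons (.br (nat_lit 12) (nat_lit 0) (.cons (.br (nat_lit 7) (nat_lit 0) (.cons (.ev (nat_lit 80156617599213564633886688000) (nat_lit 2)) .nil)) (.cons (.br (nat_lit 5) (nat_lit 0) (.cons (.ev (nat_lit 20282719088680010853262523695360) (nat_lit 1)) .nil)) (.cons (.ev (nat_lit 79228162532711363146541957376) (nat_lit 1)) .nil)))) .nil))))),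
 (.br (nat_lit 1) (nat_lit 0) (.cons (.rf (nat_lit 3780) (nat_lit 493858305440582043680)) (.cons (.rf (nat_lit 3782) (nat_lit 493858305440582043680)) (.cons (.rf (nat_lit 3783) (nat_lit 493858305440582043680)) (.cons (.br (nat_lit 11) (nat_lit 0) (.cons (.br (nat_lit 7) (nat_lit 0) (.cons (.ev (nat_lit 20361948464824014261702377865473) (nat_lit 1)) .nil)) (.cons (.kr (nat_lit 618974742009454482071486976) (nat_lit 158456325046975419265092550656) (nat_lit 1) (nat_lit 0)) (.cons (.rf (nat_lit 3714) (nat_lit 8262069408722170881)) .nil)))) .nil))))),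
 (.br (nat_lit 10) (nat_lit 0) (.cons (.rf (nat_lit 3752) (nat_lit 493858305440582043680)) (.cons (.rf (nat_lit 3765) (nat_lit 493858305440582043680)) (.cons (.ev (nat_lit 72339069031415809) (nat_lit 1)) (.cons (.rf (nat_lit 3776) (nat_lit 493858305440582043680)) (.cons (.br (nat_lit 1) (nat_lit 0) (.cons (.rf (nat_lit 3780) (nat_lit 493858305440582043680)) (.cons (.rf (nat_lit 3782) (nat_lit 493858305440582043680)) (.cons (.rf (nat_lit 3783) (nat_lit 493858305440582043680)) (.cons (.rf (nat_lit 3784) (nat_lit 493858305440582043680)) (.cons (.br (nat_lit 1) (nat_lit 0) (.cons (.rf (nat_lit 3780) (nat_lit 493858305440582043680)) (.cons (.rf (nat_lit 3782) (nat_lit 493858305440582043680)) (.cons (.rf (nat_lit 3783) (nat_lit 493858305440582043680)) (.cons (.rf (nat_lit 3784) (nat_lit 493858305440582043680)) .nil))))) .nil)))))) .nil))))))]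

theorem c138 : chkAll C T R L138 (nat_lit 3753) = true := by decide +kernel

theorem l138 : (nat_lit 3753) + L138.length = (nat_lit 3786) := by decide +kernel

/-- part of the certificates -/
def L139 : List Prf := [(.br (nat_lit 2) (nat_lit 0) (.cons (.rf (nat_lit 3536) (nat_lit 14242959524133701664)) (.cons (.rf (nat_lit 3641) (nat_lit 14242959524133701664)) (.cons (.rf (nat_lit 3714) (nat_lit 14242959524133701664)) (.cons (.br (nat_lit 7) (nat_lit 0) (.cons (.ev (nat_lit 18518801667764322304) (nat_lit 1)) (.cons (.br (nat_lit 11) (nat_lit 0) (.cons (.rf (nat_lit 3715) (nat_lit 14242959524133701664)) (.cons (.rf (nat_lit 3717) (nat_lit 14242959524133701664)) (.cons (.kr (nat_lit 309485009821345068724781056) (nat_lit 79228162514264337593543950336) (nat_lit 11) (nat_lit 0)) (.cons (.br (nat_lit 12) (nat_lit 0) (.cons (.rf (nat_lit 3715) (nat_lit 13126066816545818656)) (.cons (.rf (nat_lit 3717) (nat_lit 13126066816545818656)) (.cons (.br (nat_lit 1) (nat_lit 0) (.cons (.rf (nat_lit 3718) (nat_lit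 493858305440582043680)) (.cons (.br (nat_lit 1) (nat_lit 0) (.cons (.rf (nat_lit 3718) (nat_lit 493858305440582043680)) .nil)) .nil))) .nil)))) .nil))))) (.cons (.ev (nat_lit 72339069031415809) (nat_lit 1)) (.cons (.rf (nat_lit 3721) (nat_lit 14242959524133701664)) (.cons (.rf (nat_lit 3721) (nat_lit 13126066816545818656)) (.cons (.br (nat_lit 11) (nat_lit 0) (.cons (.rf (nat_lit 3722) (nat_lit 493858305440582043680)) (.cons (.rf (nat_lit 3724) (nat_lit 493858305440582043680)) (.cons (.rf (nat_lit 3725) (nat_lit 493858305440582043680)) (.cons (.kr (nat_lit 309485009821345068724781056) (nat_lit 79228162514264337593543950336) (nat_lit 11) (nat_lit 0)) (.cons (.br (nat_lit 12) (nat_lit 0) (.cons (.rf (nat_lit 3722) (nat_lit 492741412732994160672)) (.cons (.rf (nat_lit 3724) (nat_lit 492741412732994160672)) (.cons (.rf (nat_lit 3725) (nat_lit 492741412732994160672)) (.cons (.br (nat_lit 1) (nat_lit 0) (.cons (.rf (nat_lit 3726) (nat_lit 493858305440582043680)) (.cons (.rf (nat_lit 3727) (nat_lit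 493858305440582043680)) (.cons (.br (nat_lit 1) (nat_lit 0) (.cons (.ev (nat_lit 121853532921699153228074334946308) (nat_lit 3)) (.cons (.rf (nat_lit 3727) (nat_lit 493858305440582043680)) .nil))) .nil)))) .nil))))) .nil)))))) .nil))))))) (.cons (.br (nat_lit 10) (nat_lit 0) (.cons (.rf (nat_lit 3752) (nat_lit 493858305440582043680)) (.cons (.rf (nat_lit 3765) (nat_lit 493858305440582043680)) (.cons (.ev (nat_lit 72339069031415809) (nat_lit 1)) (.cons (.rf (nat_lit 3776) (nat_lit 493858305440582043680)) (.cons (.rf (nat_lit 3785) (nat_lit 493858305440582043680)) (.cons (.br (nat_lit 10) (nat_lit 0) (.cons (.rf (nat_lit 3752) (nat_lit 493858305440582043680)) (.cons (.rf (nat_lit 3765) (nat_lit 493858305440582043680)) (.cons (.ev (nat_lit 72339069031415809) (nat_lit 1)) (.cons (.rf (nat_lit 3776) (nat_lit 493858305440582043680)) (.cons (.rf (nat_lit 3785) (nat_lit 493858305440582043680)) .nil)))))) .nil))))))) .nil)))))),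
 (.br (nat_lit 2) (nat_lit 0) (.cons (.rf (nat_lit 3536) (nat_lit 14242959524133701664)) (.cons (.rf (nat_lit 3641) (nat_lit 14242959524133701664)) (.cons (.rf (nat_lit 3714) (nat_lit 14242959524133701664)) (.cons (.rf (nat_lit 3786) (nat_lit 14242959524133701664)) (.cons (.rf (nat_lit 3786) (nat_lit 13126066816545818656)) (.cons (.br (nat_lit 2) (nat_lit 0) (.cons (.rf (nat_lit 1943) (nat_lit 427010)) (.cons (.rf (nat_lit 3641) (nat_lit 14242959524133701664)) (.cons (.rf (nat_lit 3714) (nat_lit 14242959524133701664)) (.cons (.rf (nat_lit 3786) (nat_lit 14242959524133701664)) (.cons (.rf (nat_lit 3786) (nat_lit 13126066816545818656)) .nil)))))) .nil))))))),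
 (.br (nat_lit 7) (nat_lit 0) (.cons (.br (nat_lit 7) (nat_lit 0) (.cons (.zr (nat_lit 4722367046923405230082) (nat_lit 2417851711286852420894976) (nat_lit 5) (nat_lit 5)) (.cons (.rf (nat_lit 3142) (nat_lit 469745046489120)) .nil))) (.cons (.br (nat_lit 7) (nat_lit 0) (.cons (.zr (nat_lit 4722367046923405230082) (nat_lit 2417851711286852420894976) (nat_lit 5) (nat_lit 5)) (.cons (.rf (nat_lit 3142) (nat_lit 469745046489120)) .nil))) (.cons (.rf (nat_lit 3142) (nat_lit 469745046489120)) .nil)))),
 (.br (nat_lit 12) (nat_lit 0) (.cons (.rf (nat_lit 3788) (nat_lit 13126066816545818656)) (.cons (.br (nat_lit 1) (nat_lit 0) (.cons (.ev (nat_lit 79537652264970967203973169408) (nat_lit 1)) (.cons (.rf (nat_lit 2423) (nat_lit 470942464706592)) .nil))) (.cons (.ev (nat_lit 310708102740411618305245186) (nat_lit 2)) (.cons (.br (nat_lit 13) (nat_lit 0) (.cons (.br (nat_lit 13) (nat_lit 0) (.cons (.ev (nat_lit 318769564894126451787904845318) (nat_lit 3)) (.cons (.zr (nat_lit 1218370553143318435332097) (nat_lit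 79537647542532428939296505856) (nat_lit 5) (nat_lit 10)) .nil))) (.cons (.br (nat_lit 13) (nat_lit 0) (.cons (.ev (nat_lit 318769564894126451787904845318) (nat_lit 3)) (.cons (.zr (nat_lit 1218370553143318435332097) (nat_lit 79537647542532428939296505856) (nat_lit 5) (nat_lit 10)) .nil))) (.cons (.zr (nat_lit 1218370553143318435332097) (nat_lit 79537647542532428939296505856) (nat_lit 5) (nat_lit 10)) .nil)))) .nil))))),
 (.br (nat_lit 12) (nat_lit 0) (.cons (.ev (nat_lit 79229371476978006627266396161) (nat_lit 2)) (.cons (.ev (nat_lit 79229385607183404143124414466) (nat_lit 2)) (.cons (.br (nat_lit 7) (nat_lit 0) (.cons (.rf (nat_lit 2334) (nat_lit 465517887457312)) (.cons (.br (nat_lit 13) (nat_lit 0) (.cons (.rf (nat_lit 3787) (nat_lit 14242959524133712897)) .nil)) .nil))) .nil)))),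
 (.br (nat_lit 7) (nat_lit 0) (.cons (.ev (nat_lit 18518801667764322561) (nat_lit 1)) (.cons (.br (nat_lit 10) (nat_lit 0) (.cons (.ev (nat_lit 284112819422466934593751597057550) (nat_lit 4)) .nil)) .nil))),
 (.br (nat_lit 7) (nat_lit 0) (.cons (.ev (nat_lit 72339069031415809) (nat_lit 1)) (.cons (.ev (nat_lit 310693954159762465158594816) (nat_lit 1)) (.cons (.ev (nat_lit 72339069031416064) (nat_lit 1)) .nil)))),
 (.br (nat_lit 10) (nat_lit 0) (.cons (.br (nat_lit 12) (nat_lit 0) (.cons (.ev (nat_lit 79537652246524504605240393985) (nat_lit 1)) (.cons (.rf (nat_lit 2317) (nat_lit 465482521085984)) .nil))) (.cons (.br (nat_lit 1) (nat_lit 0) (.cons (.ev (nat_lit 79537652264970967203973169408) (nat_lit 1)) (.cons (.rf (nat_lit 2343) (nat_lit 465516847269920)) .nil))) (.cons (.ev (nat_lit 310708139634462715677900800) (nat_lit 2)) (.cons (.br (nat_lit 12) (nat_lit 0) (.cons (.rf (nat_lit 2317) (nat_lit 465517887457312)) (.cons (.rf (nat_lit 3131) (nat_lit 465482293544992)) (.cons (.zr (nat_lit 1213648186660448790183936)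 (nat_lit 79537647542532428935001538560) (nat_lit 5) (nat_lit 10)) .nil)))) .nil))))),
 (.br (nat_lit 1) (nat_lit 0) (.cons (.ev (nat_lit 1208925819615732981301504) (nat_lit 1)) (.cons (.ev (nat_lit 310693954159762465158594816) (nat_lit 1)) (.cons (.ev (nat_lit 72339069031416064) (nat_lit 1)) .nil)))),
 (.br (nat_lit 1) (nat_lit 0) (.cons (.br (nat_lit 7) (nat_lit 0) (.cons (.ev (nat_lit 621392685882973668977541122) (nat_lit 3)) (.cons (.rf (nat_lit 2332) (nat_lit 465517887457312)) (.cons (.rf (nat_lit 3641) (nat_lit 14242959455481345025)) .nil)))) (.cons (.ev (nat_lit 1864168391553882864996319232) (nat_lit 3)) (.cons (.rf (nat_lit 2330) (nat_lit 14896566126086176)) .nil)))),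
 (.br (nat_lit 13) (nat_lit 0) (.cons (.rf (nat_lit 3795) (nat_lit 493858305440582043680)) (.cons (.br (nat_lit 13) (nat_lit 0) (.cons (.ev (nat_lit 40644667562948613965516149686275) (nat_lit 2)) .nil)) .nil))),
 (.br (nat_lit 10) (nat_lit 0) (.cons (.ev (nat_lit 1864168391553882864996319232) (nat_lit 3)) (.cons (.ev (nat_lit 621392685882973668977541122) (nat_lit 3)) (.cons (.ev (nat_lit 79538856468352323943936360448) (nat_lit 1)) (.cons (.br (nat_lit 13) (nat_lit 0) (.cons (.rf (nat_lit 3795) (nat_lit 493858305440582043680)) (.cons (.rf (nat_lit 3796) (nat_lit 493858305440582043680)) (.cons (.br (nat_lit 13) (nat_lit 0) (.cons (.rf (nat_lit 3795) (nat_lit 493858305440582043680)) (.cons (.rf (nat_lit 3796) (nat_lit 493858305440582043680)) .nil))) .nil)))) .nil))))),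
 (.br (nat_lit 1) (nat_lit 0) (.cons (.br (nat_lit 7) (nat_lit 0) (.cons (.rf (nat_lit 2341) (nat_lit 465516847269920)) (.cons (.rf (nat_lit 2341) (nat_lit 465450275276832)) (.cons (.br (nat_lit 10) (nat_lit 0) (.cons (.rf (nat_lit 2313) (nat_lit 465517887457312)) (.cons (.br (nat_lit 12) (nat_lit 0) (.cons (.ev (nat_lit 121695081432447832409630295983110) (nat_lit 3)) .nil)) .nil))) .nil)))) (.cons (.rf (nat_lit 2671) (nat_lit 14895500972165152)) (.cons (.rf (nat_lit 2671) (nat_lit 14896531797870624)) (.cons (.br (nat_lit 12) (nat_lit 0) (.cons (.br (nat_lit 13) (nat_lit 0) (.cons (.br (nat_lit 10) (nat_lit 0) (.cons (.ev (nat_lit 285067276028385168284963545154062) (nat_lit 4)) .nil)) (.cons (.br (nat_lit 7) (nat_lit 0) (.cons (.ev (nat_lit 285067276028385168284963545154062) (nat_lit 4)) .nil)) .nil))) (.cons (.rf (nat_lit 2336) (nat_lit 465484601460768)) (.cons (.rf (nat_lit 3787) (nat_lit 8262069443048354817)) .nil)))) .nil))))),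
 (.br (nat_lit 1) (nat_lit 0) (.cons (.rf (nat_lit 2341) (nat_lit 465517887457312)) (.cons (.rf (nat_lit 2671) (nat_lit 14896566124054560)) (.cons (.br (nat_lit 13) (nat_lit 0) (.cons (.br (nat_lit 12) (nat_lit 0) (.cons (.ev (nat_lit 20361638975091754657644946653184) (nat_lit 1)) .nil)) (.cons (.br (nat_lit 7) (nat_lit 0) (.cons (.ev (nat_lit 20361638975091754657644946653184) (nat_lit 1)) .nil)) .nil))) .nil)))),
 (.br (nat_lit 1) (nat_lit 0) (.cons (.br (nat_lit 1) (nat_lit 0) (.cons (.rf (nat_lit 2341) (nat_lit 465517887457312)) (.cons (.rf (nat_lit 2341) (nat_lit 465449235089440)) (.cons (.rf (nat_lit 3787) (nat_lit 14242959455481345025)) .nil)))) (.cons (.rf (nat_lit 3799) (nat_lit 493858305440582043680)) (.cons (.rf (nat_lit 3798) (nat_lit 492741412732994160672)) (.cons (.br (nat_lit 1) (nat_lit 0) (.cons (.rf (nat_lit 3787) (nat_lit 14242959455481345025)) (.cons (.rf (nat_lit 3799) (nat_lit 493858305440582043680)) (.cons (.rf (nat_lit 3798) (nat_lit 492741412732994160672)) .nil)))) .nil))))),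
 (.br (nat_lit 10) (nat_lit 0) (.cons (.ev (nat_lit 79538856449905298395250032896) (nat_lit 1)) .nil)),
 (.br (nat_lit 7) (nat_lit 0) (.cons (.zr (nat_lit 4864037480451967971622912) (nat_lit 20286123423824938866681743147521) (nat_lit 30) (nat_lit 10)) .nil)),
 (.br (nat_lit 1) (nat_lit 0) (.cons (.rf (nat_lit 3787) (nat_lit 14242959455481345025)) (.cons (.br (nat_lit 12) (nat_lit 0) (.cons (.br (nat_lit 12) (nat_lit 0) (.cons (.ev (nat_lit 79538856449905298395250032896) (nat_lit 1)) (.cons (.ev (nat_lit 20361638975091754657644946653184) (nat_lit 1)) .nil))) (.cons (.rf (nat_lit 3659) (nat_lit 493858305440582043680)) (.cons (.rf (nat_lit 2598) (nat_lit 492561094097353410592)) .nil)))) (.cons (.br (nat_lit 12) (nat_lit 0) (.cons (.br (nat_lit 12) (nat_lit 0) (.cons (.ev (nat_lit 79538856449905298395250032896) (nat_lit 1)) (.cons (.ev (nat_lit 20361947251175756389184025198593) (nat_lit 1)) .nil))) (.cons (.br (nat_lit 12) (nat_lit 0) (.cons (.ev (nat_lit 79538856449905298395250032896) (nat_lit 1))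 (.cons (.ev (nat_lit 79228162532711363146541957376) (nat_lit 1)) .nil))) (.cons (.rf (nat_lit 3787) (nat_lit 8262069443048354817)) .nil)))) (.cons (.br (nat_lit 13) (nat_lit 0) (.cons (.br (nat_lit 7) (nat_lit 0) (.cons (.br (nat_lit 11) (nat_lit 0) (.cons (.ev (nat_lit 79229371458602754989977763841) (nat_lit 1)) .nil)) (.cons (.br (nat_lit 10) (nat_lit 0) (.cons (.ev (nat_lit 79537647542604484330033053696) (nat_lit 1)) .nil)) (.cons (.rf (nat_lit 3801) (nat_lit 493858305440582043680)) .nil)))) (.cons (.br (nat_lit 7) (nat_lit 0) (.cons (.rf (nat_lit 3802) (nat_lit 493858305440582043680)) (.cons (.rf (nat_lit 3802) (nat_lit 13118151430192301133)) .nil))) (.cons (.rf (nat_lit 3787) (nat_lit 8262069408722170881)) (.cons (.rf (nat_lit 3641) (nat_lit 8262069408722170881)) .nil))))) .nil))))),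
 (.br (nat_lit 1) (nat_lit 0) (.cons (.rf (nat_lit 3787) (nat_lit 14242959524133712897)) (.cons (.rf (nat_lit 3641) (nat_lit 14242959455481345025)) (.cons (.br (nat_lit 5) (nat_lit 0) (.cons (.ev (nat_lit 72339069031416064) (nat_lit 1)) (.cons (.br (nat_lit 7) (nat_lit 0) (.cons (.br (nat_lit 12) (nat_lit 0) (.cons (.ev (nat_lit 79541274301760981919296782850) (nat_lit 2)) .nil)) .nil)) (.cons (.br (nat_lit 7) (nat_lit 0) (.cons (.rf (nat_lit 2723) (nat_lit 15428562986485319712)) (.cons (.br (nat_lit 11) (nat_lit 0) (.cons (.ev (nat_lit 20282410812596009121723445149696) (nat_lit 1)) .nil)) .nil))) (.cons (.rf (nat_lit 3803) (nat_lit 493858305440582043680)) .nil))))) (.cons (.br (nat_lit 13) (nat_lit 0) (.cons (.rf (nat_lit 3803) (nat_lit 493858305440582043680)) (.cons (.rf (nat_lit 3803) (nat_lit 79815260322710795265)) (.cons (.rf (nat_lit 3787) (nat_lit 8262069443048354817)) .nil)))) (.cons (.br (nat_lit 13) (nat_lit 0) (.cons (.rf (nat_lit 3803) (nat_lit 493858305440582043680)) (.cons (.br (nat_lit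 5) (nat_lit 0) (.cons (.br (nat_lit 11) (nat_lit 0) (.cons (.ev (nat_lit 80776796489408265424300278272) (nat_lit 3)) .nil)) (.cons (.br (nat_lit 7) (nat_lit 0) (.cons (.ev (nat_lit 121775241672028134910236297265158) (nat_lit 3)) .nil)) (.cons (.br (nat_lit 7) (nat_lit 0) (.cons (.ev (nat_lit 40645598421718175881847747380226) (nat_lit 3)) .nil)) .nil)))) (.cons (.rf (nat_lit 3787) (nat_lit 8262069408722170881)) (.cons (.rf (nat_lit 3641) (nat_lit 8262069408722170881)) .nil))))) .nil)))))),
 (.br (nat_lit 7) (nat_lit 0) (.cons (.br (nat_lit 12) (nat_lit 0) (.cons (.ev (nat_lit 203301326762106320804209243062786) (nat_lit 4)) .nil)) (.cons (.ev (nat_lit 81131495329517537777878439297538) (nat_lit 3)) .nil))),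
 (.br (nat_lit 7) (nat_lit 0) (.cons (.rf (nat_lit 3805) (nat_lit 493858305440582043680)) (.cons (.br (nat_lit 7) (nat_lit 0) (.cons (.rf (nat_lit 3805) (nat_lit 493858305440582043680)) (.cons (.rf (nat_lit 3787) (nat_lit 14242959524133712897)) .nil))) (.cons (.rf (nat_lit 3787) (nat_lit 14242959524133712897)) .nil)))),
 (.br (nat_lit 1) (nat_lit 0) (.cons (.rf (nat_lit 3806) (nat_lit 493858305440582043680)) (.cons (.br (nat_lit 13) (nat_lit 0) (.cons (.rf (nat_lit 3787) (nat_lit 14242959455481345025)) (.cons (.rf (nat_lit 3641) (nat_lit 14242959455481345025)) (.cons (.rf (nat_lit 3806) (nat_lit 45147608120326160802)) (.cons (.br (nat_lit 5) (nat_lit 0) (.cons (.br (nat_lit 11) (nat_lit 0) (.cons (.ev (nat_lit 81209177271093698627654912312838) (nat_lit 3)) .nil)) (.cons (.br (nat_lit 7) (nat_lit 0) (.cons (.ev (nat_lit 121773998896322463992244185989120) (nat_lit 3)) .nil)) (.cons (.br (nat_lit 7) (nat_lit 0) (.cons (.ev (nat_lit 121773998896322463992244185989120) (nat_lit 3)) .nil)) .nil))))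 .nil))))) (.cons (.rf (nat_lit 3803) (nat_lit 45147608120326160802)) (.cons (.rf (nat_lit 3804) (nat_lit 45147608120326160802)) .nil))))),
 (.br (nat_lit 5) (nat_lit 0) (.cons (.ev (nat_lit 310693954159762465158594816) (nat_lit 1)) .nil)),
 (.br (nat_lit 13) (nat_lit 0) (.cons (.rf (nat_lit 3803) (nat_lit 493858305440582043680)) (.cons (.rf (nat_lit 3804) (nat_lit 493858305440582043680)) (.cons (.rf (nat_lit 3807) (nat_lit 493858305440582043680)) (.cons (.br (nat_lit 1) (nat_lit 0) (.cons (.br (nat_lit 10) (nat_lit 0) (.cons (.rf (nat_lit 3792) (nat_lit 493858305440582043680)) (.cons (.rf (nat_lit 2497) (nat_lit 191653782747448397)) .nil))) (.cons (.br (nat_lit 7) (nat_lit 0) (.cons (.ev (nat_lit 20282409608374037189395696582913) (nat_lit 1)) (.cons (.ev (nat_lit 20282720302309678147994067730688) (nat_lit 1)) (.cons (.zr (nat_lit 20520094091212910180801592754177) (nat_lit 928455029464316681151054336) (nat_lit 5) (nat_lit 12)) .nil)))) (.cons (.br (nat_lit 7) (nat_lit 0) (.cons (.br (nat_lit 7)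 (nat_lit 0) (.cons (.ev (nat_lit 310693954159762465158594816) (nat_lit 1)) .nil)) (.cons (.rf (nat_lit 3808) (nat_lit 493858305440582043680)) .nil))) (.cons (.kr (nat_lit 618974742009454482071486976) (nat_lit 158456325046975419265092550656) (nat_lit 1) (nat_lit 0)) .nil))))) .nil))))),
 (.br (nat_lit 13) (nat_lit 0) (.cons (.rf (nat_lit 3803) (nat_lit 493858305440582043680)) (.cons (.rf (nat_lit 3804) (nat_lit 493858305440582043680)) (.cons (.rf (nat_lit 3807) (nat_lit 493858305440582043680)) (.cons (.rf (nat_lit 3809) (nat_lit 493858305440582043680)) (.cons (.br (nat_lit 13) (nat_lit 0) (.cons (.rf (nat_lit 3803) (nat_lit 493858305440582043680)) (.cons (.rf (nat_lit 3804) (nat_lit 493858305440582043680)) (.cons (.rf (nat_lit 3807) (nat_lit 493858305440582043680)) (.cons (.rf (nat_lit 3809) (nat_lit 493858305440582043680)) .nil))))) .nil))))))]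

theorem c139 : chkAll C T R L139 (nat_lit 3786) = true := by decide +kernel

theorem l139 : (nat_lit 3786) + L139.length = (nat_lit 3811) := by decide +kernel

/-- part of the certificates -/
def L140 : List Prf := [(.br (nat_lit 11) (nat_lit 0) (.cons (.ev (nat_lit 79228162532711363146541957376) (nat_lit 1)) (.cons (.br (nat_lit 12) (nat_lit 0) (.cons (.ev (nat_lit 284113435974634938056829955211780) (nat_lit 4)) .nil)) .nil))),
 (.br (nat_lit 10) (nat_lit 0) (.cons (.ev (nat_lit 79228162532711363146541957376) (nat_lit 1)) (.cons (.br (nat_lit 12) (nat_lit 0) (.cons (.ev (nat_lit 41042045097262601234831263534594) (nat_lit 4)) .nil)) .nil))),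
 (.br (nat_lit 11) (nat_lit 0) (.cons (.br (nat_lit 12) (nat_lit 0) (.cons (.ev (nat_lit 79538856449905298395250032896) (nat_lit 1)) .nil)) (.cons (.zr (nat_lit 316912654779640006025934798852) (nat_lit 928455047910781487497150720) (nat_lit 10) (nat_lit 1)) (.cons (.br (nat_lit 10) (nat_lit 0) (.cons (.ev (nat_lit 122490455489985056870323451856396) (nat_lit 4)) .nil)) .nil)))),
 (.br (nat_lit 7) (nat_lit 0) (.cons (.br (nat_lit 12) (nat_lit 0) (.cons (.ev (nat_lit 284433441056790710825583092042242) (nat_lit 4)) .nil)) (.cons (.br (nat_lit 11) (nat_lit 0) (.cons (.zr (nat_lit 60847232437806257092041346384128) (nat_lit 1237954206529790695864008706) (nat_lit 10) (nat_lit 3)) .nil)) (.cons (.rf (nat_lit 3813) (nat_lit 493858305440582043680)) .nil)))),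
 (.br (nat_lit 7) (nat_lit 0) (.cons (.br (nat_lit 12) (nat_lit 0) (.cons (.ev (nat_lit 20440865928735755786720693453315) (nat_lit 2)) .nil)) (.cons (.kr (nat_lit 618974742009454482071486976) (nat_lit 158456325046975419265092550656) (nat_lit 1) (nat_lit 0)) (.cons (.rf (nat_lit 3813) (nat_lit 493858305440582043680)) .nil)))),
 (.br (nat_lit 1) (nat_lit 0) (.cons (.br (nat_lit 12) (nat_lit 0) (.cons (.rf (nat_lit 3811) (nat_lit 493858305440582043680)) (.cons (.br (nat_lit 12) (nat_lit 0) (.cons (.ev (nat_lit 79228162532711363146541957376) (nat_lit 1)) (.cons (.ev (nat_lit 79538856449905298395250032896) (nat_lit 1)) .nil))) (.cons (.br (nat_lit 12) (nat_lit 0) (.cons (.rf (nat_lit 3811) (nat_lit 493858305440582043680)) (.cons (.ev (nat_lit 79538856449905298395250032896) (nat_lit 1)) .nil))) .nil)))) (.cons (.br (nat_lit 12) (nat_lit 0) (.cons (.rf (nat_lit 3812) (nat_lit 493858305440582043680)) (.cons (.br (nat_lit 12) (nat_lit 0) (.cons (.ev (nat_lit 79228162532711363146541957376) (nat_lit 1))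 (.cons (.ev (nat_lit 79538856449905298395250032896) (nat_lit 1)) .nil))) (.cons (.br (nat_lit 12) (nat_lit 0) (.cons (.rf (nat_lit 3812) (nat_lit 493858305440582043680)) (.cons (.ev (nat_lit 79538856449905298395250032896) (nat_lit 1)) .nil))) .nil)))) (.cons (.br (nat_lit 13) (nat_lit 0) (.cons (.rf (nat_lit 3813) (nat_lit 493858305440582043680)) (.cons (.rf (nat_lit 3814) (nat_lit 493858305440582043680)) (.cons (.rf (nat_lit 3815) (nat_lit 493858305440582043680)) (.cons (.br (nat_lit 13) (nat_lit 0) (.cons (.rf (nat_lit 3813) (nat_lit 493858305440582043680)) (.cons (.rf (nat_lit 3814) (nat_lit 493858305440582043680)) (.cons (.rf (nat_lit 3815) (nat_lit 493858305440582043680)) .nil)))) .nil))))) (.cons (.rf (nat_lit 3787) (nat_lit 14242959455481345025)) .nil))))),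
 (.br (nat_lit 7) (nat_lit 0) (.cons (.br (nat_lit 12) (nat_lit 0) (.cons (.ev (nat_lit 81605007394544195733027354313728) (nat_lit 3)) .nil)) .nil)),
 (.br (nat_lit 1) (nat_lit 0) (.cons (.rf (nat_lit 3816) (nat_lit 493858305440582043680)) (.cons (.br (nat_lit 7) (nat_lit 0) (.cons (.rf (nat_lit 3817) (nat_lit 493858305440582043680)) (.cons (.br (nat_lit 7) (nat_lit 0) (.cons (.rf (nat_lit 3817) (nat_lit 493858305440582043680)) .nil)) .nil))) (.cons (.br (nat_lit 11) (nat_lit 0) (.cons (.br (nat_lit 13) (nat_lit 0) (.cons (.br (nat_lit 12) (nat_lit 0) (.cons (.ev (nat_lit 20361638975091754657644946653184) (nat_lit 1)) .nil)) (.cons (.br (nat_lit 7) (nat_lit 0) (.cons (.ev (nat_lit 20361638975091754657644946653184) (nat_lit 1)) .nil)) .nil))) (.cons (.ev (nat_lit 79538861172271781260600344833) (nat_lit 1)) (.cons (.br (nat_lit 7) (nat_lit 0) (.cons (.br (nat_lit 7) (nat_lit 0) (.cons (.ev (nat_lit 122490460325688626932500863650312) (nat_lit 4)) .nil)) (.cons (.br (nat_lit 7) (nat_lit 0) (.cons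 (.ev (nat_lit 122490460325688626932500863650312) (nat_lit 4)) .nil)) .nil))) .nil)))) (.cons (.rf (nat_lit 3810) (nat_lit 493858305440582043680)) .nil))))),
 (.br (nat_lit 1) (nat_lit 0) (.cons (.rf (nat_lit 3816) (nat_lit 493858305440582043680)) (.cons (.rf (nat_lit 3818) (nat_lit 493858305440582043680)) (.cons (.br (nat_lit 10) (nat_lit 0) (.cons (.br (nat_lit 13) (nat_lit 0) (.cons (.br (nat_lit 12) (nat_lit 0) (.cons (.ev (nat_lit 20361947251175756389184025198593) (nat_lit 1)) .nil)) (.cons (.br (nat_lit 7) (nat_lit 0) (.cons (.ev (nat_lit 20361947251175756389184025198593) (nat_lit 1)) .nil)) .nil))) (.cons (.ev (nat_lit 79538861172271781260600344833) (nat_lit 1)) (.cons (.br (nat_lit 12) (nat_lit 0) (.cons (.br (nat_lit 7) (nat_lit 0) (.cons (.ev (nat_lit 203935156897923426854548260652550) (nat_lit 4)) .nil)) (.cons (.rf (nat_lit 3816) (nat_lit 45147608120326160802)) .nil))) .nil)))) (.cons (.rf (nat_lit 3810) (nat_lit 493858305440582043680)) .nil))))),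
 (.br (nat_lit 1) (nat_lit 0) (.cons (.rf (nat_lit 3816) (nat_lit 493858305440582043680)) (.cons (.rf (nat_lit 3818) (nat_lit 493858305440582043680)) (.cons (.rf (nat_lit 3819) (nat_lit 493858305440582043680)) (.cons (.br (nat_lit 1) (nat_lit 0) (.cons (.rf (nat_lit 3816) (nat_lit 493858305440582043680)) (.cons (.rf (nat_lit 3818) (nat_lit 493858305440582043680)) (.cons (.rf (nat_lit 3819) (nat_lit 493858305440582043680)) (.cons (.rf (nat_lit 3810) (nat_lit 493858305440582043680)) .nil))))) (.cons (.rf (nat_lit 3810) (nat_lit 493858305440582043680)) .nil)))))),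
 (.br (nat_lit 12) (nat_lit 0) (.cons (.br (nat_lit 7) (nat_lit 0) (.cons (.ev (nat_lit 122487358222035495800635537361422) (nat_lit 4)) .nil)) (.cons (.br (nat_lit 1) (nat_lit 0) (.cons (.ev (nat_lit 122487358222035495800635537361422) (nat_lit 4)) .nil)) .nil))),
 (.br (nat_lit 1) (nat_lit 0) (.cons (.rf (nat_lit 3821) (nat_lit 493858305440582043680)) (.cons (.br (nat_lit 5) (nat_lit 0) (.cons (.ev (nat_lit 122489848609223036124156588592642) (nat_lit 4)) .nil)) .nil))),
 (.br (nat_lit 1) (nat_lit 0) (.cons (.rf (nat_lit 3821) (nat_lit 493858305440582043680)) (.cons (.rf (nat_lit 3822) (nat_lit 493858305440582043680)) (.cons (.br (nat_lit 1) (nat_lit 0) (.cons (.rf (nat_lit 3821) (nat_lit 493858305440582043680)) (.cons (.rf (nat_lit 3822) (nat_lit 493858305440582043680)) .nil))) .nil)))),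
 (.br (nat_lit 1) (nat_lit 0) (.cons (.br (nat_lit 11) (nat_lit 0) (.cons (.ev (nat_lit 40644048578762016504912088793859) (nat_lit 2)) .nil)) (.cons (.rf (nat_lit 3820) (nat_lit 45147608120326160802)) (.cons (.rf (nat_lit 3823) (nat_lit 45147608120326160802)) .nil)))),
 (.br (nat_lit 1) (nat_lit 0) (.cons (.rf (nat_lit 3824) (nat_lit 493858305440582043680)) (.cons (.rf (nat_lit 3820) (nat_lit 45147608120326160802)) (.cons (.br (nat_lit 5) (nat_lit 0) (.cons (.ev (nat_lit 284746635051248282740257336723982) (nat_lit 4)) .nil)) .nil)))),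
 (.br (nat_lit 13) (nat_lit 0) (.cons (.rf (nat_lit 3810) (nat_lit 493858305440582043680)) (.cons (.rf (nat_lit 3820) (nat_lit 493858305440582043680)) (.cons (.rf (nat_lit 3823) (nat_lit 493858305440582043680)) (.cons (.br (nat_lit 1) (nat_lit 0) (.cons (.rf (nat_lit 3824) (nat_lit 493858305440582043680)) (.cons (.rf (nat_lit 3825) (nat_lit 493858305440582043680)) (.cons (.rf (nat_lit 3820) (nat_lit 45147608120326160802)) (.cons (.br (nat_lit 1) (nat_lit 0) (.cons (.rf (nat_lit 3823) (nat_lit 45147608120326160802)) (.cons (.rf (nat_lit 3825) (nat_lit 493858305440582043680)) (.cons (.rf (nat_lit 3820) (nat_lit 45147608120326160802)) .nil)))) .nil))))) .nil))))),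
 (.br (nat_lit 13) (nat_lit 0) (.cons (.rf (nat_lit 3810) (nat_lit 493858305440582043680)) (.cons (.rf (nat_lit 3820) (nat_lit 493858305440582043680)) (.cons (.rf (nat_lit 3826) (nat_lit 493858305440582043680)) (.cons (.br (nat_lit 7) (nat_lit 0) (.cons (.br (nat_lit 1) (nat_lit 0) (.cons (.ev (nat_lit 20282719088680010853262523695105) (nat_lit 1)) (.cons (.ev (nat_lit 20282410812596009121723445149696) (nat_lit 1)) (.cons (.br (nat_lit 5) (nat_lit 0) (.cons (.ev (nat_lit 310693954159762465158594816) (nat_lit 1)) .nil)) .nil)))) (.cons (.br (nat_lit 1) (nat_lit 0) (.cons (.rf (nat_lit 3794) (nat_lit 493858305440582043680)) (.cons (.br (nat_lit 1) (nat_lit 0) (.cons (.ev (nat_lit 310693954159762465158594816) (nat_lit 1)) .nil)) .nil))) (.cons (.br (nat_lit 1) (nat_lit 0) (.cons (.br (nat_lit 1) (nat_lit 0) (.cons (.ev (nat_lit 310693954159762465158594816) (nat_lit 1)) .nil)) (.cons (.br (nat_lit 1) (nat_lit 0) (.cons (.ev (nat_lit 310693954159762465158594816) (nat_lit 1)) .nil)) .nil))) (.cons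 (.ev (nat_lit 476606919903012436837543182340) (nat_lit 3)) .nil))))) .nil))))),
 (.br (nat_lit 13) (nat_lit 0) (.cons (.rf (nat_lit 3810) (nat_lit 493858305440582043680)) (.cons (.rf (nat_lit 3820) (nat_lit 493858305440582043680)) (.cons (.rf (nat_lit 3826) (nat_lit 493858305440582043680)) (.cons (.rf (nat_lit 3827) (nat_lit 493858305440582043680)) (.cons (.br (nat_lit 13) (nat_lit 0) (.cons (.rf (nat_lit 3810) (nat_lit 493858305440582043680)) (.cons (.rf (nat_lit 3820) (nat_lit 493858305440582043680)) (.cons (.rf (nat_lit 3826) (nat_lit 493858305440582043680)) (.cons (.rf (nat_lit 3827) (nat_lit 493858305440582043680)) .nil))))) .nil)))))),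
 (.br (nat_lit 7) (nat_lit 0) (.cons (.br (nat_lit 12) (nat_lit 0) (.cons (.ev (nat_lit 284112819422466934593751597056514) (nat_lit 4)) .nil)) (.cons (.rf (nat_lit 3828) (nat_lit 493858305440582043680)) .nil))),
 (.br (nat_lit 1) (nat_lit 0) (.cons (.br (nat_lit 13) (nat_lit 0) (.cons (.rf (nat_lit 3828) (nat_lit 493858305440582043680)) (.cons (.rf (nat_lit 3829) (nat_lit 493858305440582043680)) (.cons (.br (nat_lit 13) (nat_lit 0) (.cons (.rf (nat_lit 3828) (nat_lit 493858305440582043680)) (.cons (.rf (nat_lit 3829) (nat_lit 493858305440582043680)) .nil))) .nil)))) (.cons (.rf (nat_lit 3820) (nat_lit 45147608120326160802)) (.cons (.rf (nat_lit 3828) (nat_lit 45147608120326160802)) (.cons (.rf (nat_lit 3810) (nat_lit 493858305440582043680)) .nil))))),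
 (.br (nat_lit 1) (nat_lit 0) (.cons (.rf (nat_lit 3830) (nat_lit 493858305440582043680)) (.cons (.br (nat_lit 1) (nat_lit 0) (.cons (.rf (nat_lit 3830) (nat_lit 493858305440582043680)) (.cons (.rf (nat_lit 3820) (nat_lit 45147608120326160802)) (.cons (.rf (nat_lit 3828) (nat_lit 45147608120326160802)) (.cons (.rf (nat_lit 3810) (nat_lit 493858305440582043680)) .nil))))) (.cons (.rf (nat_lit 3820) (nat_lit 45147608120326160802)) (.cons (.rf (nat_lit 3828) (nat_lit 45147608120326160802)) (.cons (.rf (nat_lit 3810) (nat_lit 493858305440582043680)) .nil)))))),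
 (.br (nat_lit 13) (nat_lit 0) (.cons (.rf (nat_lit 3810) (nat_lit 493858305440582043680)) (.cons (.rf (nat_lit 3820) (nat_lit 493858305440582043680)) (.cons (.rf (nat_lit 3828) (nat_lit 493858305440582043680)) (.cons (.rf (nat_lit 3831) (nat_lit 493858305440582043680)) (.cons (.br (nat_lit 13) (nat_lit 0) (.cons (.rf (nat_lit 3810) (nat_lit 493858305440582043680)) (.cons (.rf (nat_lit 3820) (nat_lit 493858305440582043680)) (.cons (.rf (nat_lit 3828) (nat_lit 493858305440582043680)) (.cons (.rf (nat_lit 3831) (nat_lit 493858305440582043680)) .nil))))) .nil)))))),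
 (.br (nat_lit 2) (nat_lit 0) (.cons (.rf (nat_lit 3536) (nat_lit 14242959524133701664)) (.cons (.rf (nat_lit 3641) (nat_lit 14242959524133701664)) (.cons (.rf (nat_lit 3787) (nat_lit 14242959524133701664)) (.cons (.br (nat_lit 5) (nat_lit 0) (.cons (.br (nat_lit 11) (nat_lit 0) (.cons (.rf (nat_lit 3788) (nat_lit 14242959524133701664)) (.cons (.rf (nat_lit 3789) (nat_lit 14242959524133701664)) (.cons (.rf (nat_lit 3790) (nat_lit 14242959524133701664)) (.cons (.kr (nat_lit 309485009821345068724781056) (nat_lit 79228162514264337593543950336) (nat_lit 11) (nat_lit 0)) (.cons (.br (nat_lit 12) (nat_lit 0) (.cons (.rf (nat_lit 3788) (nat_lit 13126066816545818656)) (.cons (.rf (nat_lit 3789) (nat_lit 13126066816545818656)) (.cons (.rf (nat_lit 3790) (nat_lit 13126066816545818656)) (.cons (.br (nat_lit 7) (nat_lit 0) (.cons (.rf (nat_lit 3791) (nat_lit 493858305440582043680)) (.cons (.br (nat_lit 1) (nat_lit 0) (.cons (.ev (nat_lit 18518801667764322561) (nat_lit 1)) (.cons (.rf (nat_lit 3792) (nat_lit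 493858305440582043680)) .nil))) (.cons (.br (nat_lit 1) (nat_lit 0) (.cons (.rf (nat_lit 3791) (nat_lit 493858305440582043680)) (.cons (.rf (nat_lit 3142) (nat_lit 468645535909920)) (.cons (.rf (nat_lit 3787) (nat_lit 14242959524133712897)) .nil)))) .nil)))) .nil))))) .nil)))))) (.cons (.br (nat_lit 11) (nat_lit 0) (.cons (.rf (nat_lit 3793) (nat_lit 14242959524133701664)) (.cons (.br (nat_lit 12) (nat_lit 0) (.cons (.rf (nat_lit 3793) (nat_lit 13126066816545818656)) (.cons (.ev (nat_lit 310693972535014102447226881) (nat_lit 2)) (.cons (.rf (nat_lit 3131) (nat_lit 465450080241696)) .nil)))) (.cons (.br (nat_lit 12) (nat_lit 0) (.cons (.ev (nat_lit 79229385644077455240497070080) (nat_lit 2)) (.cons (.ev (nat_lit 79229371476978006627266396161) (nat_lit 2)) (.cons (.rf (nat_lit 2688) (nat_lit 469745206986784)) .nil)))) (.cons (.kr (nat_lit 309485009821345068724781056) (nat_lit 79228162514264337593543950336) (nat_lit 11) (nat_lit 0)) (.cons (.br (nat_lit 12) (nat_lit 0) (.cons (.rf (nat_lit 3793)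 (nat_lit 13126066816545818656)) (.cons (.rf (nat_lit 3131) (nat_lit 465449007548448)) (.cons (.rf (nat_lit 2688) (nat_lit 470843644872736)) (.cons (.br (nat_lit 7) (nat_lit 0) (.cons (.br (nat_lit 1) (nat_lit 0) (.cons (.ev (nat_lit 18518801667764322561) (nat_lit 1)) (.cons (.br (nat_lit 10) (nat_lit 0) (.cons (.ev (nat_lit 284112819422319362892961734854150) (nat_lit 4)) .nil)) .nil))) (.cons (.rf (nat_lit 3131) (nat_lit 465517724928032)) (.cons (.br (nat_lit 1) (nat_lit 0) (.cons (.rf (nat_lit 3794) (nat_lit 493858305440582043680)) (.cons (.br (nat_lit 1) (nat_lit 0) (.cons (.ev (nat_lit 72339069031416064) (nat_lit 1)) .nil)) .nil))) .nil)))) .nil))))) .nil)))))) (.cons (.ev (nat_lit 1208944266641281667629056) (nat_lit 1)) (.cons (.rf (nat_lit 3797) (nat_lit 14242959524133701664)) (.cons (.rf (nat_lit 3797) (nat_lit 13126066816545818656)) (.cons (.br (nat_lit 11) (nat_lit 0) (.cons (.rf (nat_lit 3798) (nat_lit 493858305440582043680)) (.cons (.rf (nat_lit 3800) (nat_lit 493858305440582043680))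 (.cons (.br (nat_lit 12) (nat_lit 0) (.cons (.rf (nat_lit 3798) (nat_lit 492741412732994160672)) (.cons (.rf (nat_lit 3800) (nat_lit 492741412732994160672)) (.cons (.ev (nat_lit 79229371476978006627266396161) (nat_lit 2)) .nil)))) (.cons (.kr (nat_lit 309485009821345068724781056) (nat_lit 79228162514264337593543950336) (nat_lit 11) (nat_lit 0)) (.cons (.br (nat_lit 12) (nat_lit 0) (.cons (.rf (nat_lit 3798) (nat_lit 492741412732994160672)) (.cons (.rf (nat_lit 3800) (nat_lit 492741412732994160672)) (.cons (.ev (nat_lit 310693972535014102447226881) (nat_lit 2)) (.cons (.br (nat_lit 13) (nat_lit 0) (.cons (.ev (nat_lit 20282409608374037189395696582656) (nat_lit 1)) (.cons (.ev (nat_lit 20282409603651670706521756467201) (nat_lit 1)) (.cons (.ev (nat_lit 203301329179993843587190994239490) (nat_lit 4)) .nil)))) .nil))))) .nil)))))) .nil))))))) (.cons (.br (nat_lit 13) (nat_lit 0) (.cons (.rf (nat_lit 3810) (nat_lit 493858305440582043680)) (.cons (.rf (nat_lit 3820) (nat_lit 493858305440582043680))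 (.cons (.rf (nat_lit 3828) (nat_lit 493858305440582043680)) (.cons (.rf (nat_lit 3831) (nat_lit 493858305440582043680)) (.cons (.rf (nat_lit 3832) (nat_lit 493858305440582043680)) (.cons (.br (nat_lit 13) (nat_lit 0) (.cons (.rf (nat_lit 3810) (nat_lit 493858305440582043680)) (.cons (.rf (nat_lit 3820) (nat_lit 493858305440582043680)) (.cons (.rf (nat_lit 3828) (nat_lit 493858305440582043680)) (.cons (.rf (nat_lit 3831) (nat_lit 493858305440582043680)) (.cons (.rf (nat_lit 3832) (nat_lit 493858305440582043680)) .nil)))))) .nil))))))) .nil))))))]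

theorem c140 : chkAll C T R L140 (nat_lit 3811) = true := by decide +kernel

theorem l140 : (nat_lit 3811) + L140.length = (nat_lit 3834) := by decide +kernel

/-- part of the certificates -/
def L141 : List Prf := [(.br (nat_lit 2) (nat_lit 0) (.cons (.rf (nat_lit 3536) (nat_lit 14242959524133701664)) (.cons (.rf (nat_lit 3641) (nat_lit 14242959524133701664)) (.cons (.rf (nat_lit 3787) (nat_lit 14242959524133701664)) (.cons (.rf (nat_lit 3833) (nat_lit 14242959524133701664)) (.cons (.rf (nat_lit 3833) (nat_lit 13126066816545818656)) (.cons (.br (nat_lit 2) (nat_lit 0) (.cons (.rf (nat_lit 1943) (nat_lit 427010)) (.cons (.rf (nat_lit 3641) (nat_lit 14242959524133701664)) (.cons (.rf (nat_lit 3787) (nat_lit 14242959524133701664)) (.cons (.rf (nat_lit 3833) (nat_lit 14242959524133701664)) (.cons (.rf (nat_lit 3833) (nat_lit 13126066816545818656)) .nil)))))) .nil))))))),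
 (.br (nat_lit 13) (nat_lit 0) (.cons (.br (nat_lit 10) (nat_lit 0) (.cons (.ev (nat_lit 20282719088716976680487564149505) (nat_lit 2)) (.cons (.ev (nat_lit 20441175413708467752330567155971) (nat_lit 2)) .nil))) (.cons (.rf (nat_lit 3834) (nat_lit 8262069443048354817)) (.cons (.rf (nat_lit 3787) (nat_lit 8262069443048354817)) .nil)))),
 (.br (nat_lit 13) (nat_lit 0) (.cons (.rf (nat_lit 3835) (nat_lit 493858305440582043680)) (.cons (.br (nat_lit 13) (nat_lit 0) (.cons (.rf (nat_lit 3835) (nat_lit 493858305440582043680)) (.cons (.rf (nat_lit 3834) (nat_lit 8262069443048354817)) (.cons (.rf (nat_lit 3787) (nat_lit 8262069443048354817)) .nil)))) (.cons (.rf (nat_lit 3834) (nat_lit 8262069443048354817)) (.cons (.rf (nat_lit 3787) (nat_lit 8262069443048354817)) .nil))))),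
 (.br (nat_lit 13) (nat_lit 0) (.cons (.rf (nat_lit 3836) (nat_lit 493858305440582043680)) (.cons (.br (nat_lit 1) (nat_lit 0) (.cons (.rf (nat_lit 2850) (nat_lit 15398165817057249312)) (.cons (.br (nat_lit 7) (nat_lit 0) (.cons (.ev (nat_lit 310698676526245339098841088) (nat_lit 1)) .nil)) (.cons (.br (nat_lit 7) (nat_lit 0) (.cons (.ev (nat_lit 477228307774005006537207447558) (nat_lit 3)) .nil)) .nil)))) (.cons (.br (nat_lit 1) (nat_lit 0) (.cons (.zr (nat_lit 60926766467923829922442336273153) (nat_lit 562967133683712) (nat_lit 5) (nat_lit 1)) (.cons (.br (nat_lit 7) (nat_lit 0) (.cons (.ev (nat_lit 40644668757707405906564477878531) (nat_lit 2)) .nil)) .nil))) .nil)))),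
 (.br (nat_lit 13) (nat_lit 0) (.cons (.rf (nat_lit 3834) (nat_lit 8262069443048354817)) (.cons (.rf (nat_lit 3837) (nat_lit 493858305440582043680)) (.cons (.br (nat_lit 1) (nat_lit 0) (.cons (.br (nat_lit 7) (nat_lit 0) (.cons (.ev (nat_lit 81448410397352015596411519500814) (nat_lit 4)) .nil)) (.cons (.ev (nat_lit 20361638975110201120243679559681) (nat_lit 1)) .nil))) .nil)))),
 (.br (nat_lit 13) (nat_lit 0) (.cons (.rf (nat_lit 3836) (nat_lit 493858305440582043680)) (.cons (.rf (nat_lit 3837) (nat_lit 493858305440582043680)) (.cons (.rf (nat_lit 3838) (nat_lit 493858305440582043680)) (.cons (.br (nat_lit 13) (nat_lit 0) (.cons (.rf (nat_lit 3787) (nat_lit 8262069443048354817)) (.cons (.rf (nat_lit 3837) (nat_lit 493858305440582043680)) (.cons (.rf (nat_lit 3838) (nat_lit 493858305440582043680)) .nil)))) .nil))))),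
 (.br (nat_lit 13) (nat_lit 0) (.cons (.rf (nat_lit 3834) (nat_lit 8262069443048354817)) (.cons (.rf (nat_lit 3839) (nat_lit 493858305440582043680)) (.cons (.br (nat_lit 5) (nat_lit 0) (.cons (.br (nat_lit 7) (nat_lit 0) (.cons (.ev (nat_lit 623810537665752957735536132) (nat_lit 3)) .nil)) (.cons (.br (nat_lit 1) (nat_lit 0) (.cons (.ev (nat_lit 317531624817658790022301745664) (nat_lit 3)) .nil)) (.cons (.rf (nat_lit 2639) (nat_lit 15433068714236413984)) .nil)))) .nil)))),
 (.br (nat_lit 13) (nat_lit 0) (.cons (.rf (nat_lit 3836) (nat_lit 493858305440582043680)) (.cons (.rf (nat_lit 3839) (nat_lit 493858305440582043680)) (.cons (.rf (nat_lit 3840) (nat_lit 493858305440582043680)) (.cons (.br (nat_lit 13) (nat_lit 0) (.cons (.rf (nat_lit 3787) (nat_lit 8262069443048354817)) (.cons (.rf (nat_lit 3839) (nat_lit 493858305440582043680)) (.cons (.rf (nat_lit 3840) (nat_lit 493858305440582043680)) .nil)))) .nil))))),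
 (.br (nat_lit 13) (nat_lit 0) (.cons (.rf (nat_lit 3834) (nat_lit 8262069443048354817)) (.cons (.rf (nat_lit 3839) (nat_lit 493858305440582043680)) (.cons (.rf (nat_lit 3841) (nat_lit 493858305440582043680)) (.cons (.br (nat_lit 13) (nat_lit 0) (.cons (.rf (nat_lit 3787) (nat_lit 8262069443048354817)) (.cons (.rf (nat_lit 3839) (nat_lit 493858305440582043680)) (.cons (.rf (nat_lit 3841) (nat_lit 493858305440582043680)) .nil)))) .nil))))),
 (.br (nat_lit 13) (nat_lit 0) (.cons (.rf (nat_lit 3836) (nat_lit 493858305440582043680)) (.cons (.rf (nat_lit 3839) (nat_lit 493858305440582043680)) (.cons (.rf (nat_lit 3841) (nat_lit 493858305440582043680)) (.cons (.rf (nat_lit 3842) (nat_lit 493858305440582043680)) (.cons (.br (nat_lit 13) (nat_lit 0) (.cons (.rf (nat_lit 3787) (nat_lit 8262069443048354817)) (.cons (.rf (nat_lit 3839) (nat_lit 493858305440582043680)) (.cons (.rf (nat_lit 3841) (nat_lit 493858305440582043680)) (.cons (.rf (nat_lit 3842) (nat_lit 493858305440582043680)) .nil))))) .nil)))))),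
 (.br (nat_lit 13) (nat_lit 0) (.cons (.ev (nat_lit 20282409603670117169120489242881) (nat_lit 1)) (.cons (.zr (nat_lit 20283338058699581203227135246592) (nat_lit 237684487542793294255608561666) (nat_lit 5) (nat_lit 11)) .nil))),
 (.br (nat_lit 1) (nat_lit 0) (.cons (.br (nat_lit 12) (nat_lit 0) (.cons (.rf (nat_lit 2770) (nat_lit 468777832712224)) (.cons (.rf (nat_lit 2770) (nat_lit 465482519054368)) (.cons (.br (nat_lit 13) (nat_lit 0) (.cons (.br (nat_lit 10) (nat_lit 0) (.cons (.ev (nat_lit 79229376180969237863918010368) (nat_lit 1)) .nil)) (.cons (.br (nat_lit 7) (nat_lit 0) (.cons (.ev (nat_lit 79229376180969237863918010368) (nat_lit 1)) .nil)) .nil))) .nil)))) (.cons (.rf (nat_lit 2767) (nat_lit 468812158896160)) (.cons (.br (nat_lit 13) (nat_lit 0) (.cons (.rf (nat_lit 3641) (nat_lit 14242959455481345025)) (.cons (.rf (nat_lit 3834) (nat_lit 14242959455481345025)) (.cons (.rf (nat_lit 3844) (nat_lit 493858305440582043680)) .nil)))) .nil)))),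
 (.br (nat_lit 7) (nat_lit 0) (.cons (.br (nat_lit 12) (nat_lit 0) (.cons (.ev (nat_lit 79229371458602754989977763841) (nat_lit 1)) .nil)) (.cons (.ev (nat_lit 160313239828559047374005076992) (nat_lit 3)) .nil))),
 (.br (nat_lit 1) (nat_lit 0) (.cons (.rf (nat_lit 3845) (nat_lit 493858305440582043680)) (.cons (.rf (nat_lit 2767) (nat_lit 465516845238304)) (.cons (.br (nat_lit 13) (nat_lit 0) (.cons (.rf (nat_lit 3846) (nat_lit 493858305440582043680)) (.cons (.br (nat_lit 7) (nat_lit 0) (.cons (.ev (nat_lit 475992785549322375894535242752) (nat_lit 3)) (.cons (.rf (nat_lit 3846) (nat_lit 493858305440582043680)) .nil))) (.cons (.rf (nat_lit 3844) (nat_lit 493854927843940730912)) .nil)))) .nil)))),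
 (.br (nat_lit 1) (nat_lit 0) (.cons (.rf (nat_lit 3845) (nat_lit 493858305440582043680)) (.cons (.rf (nat_lit 3847) (nat_lit 493858305440582043680)) (.cons (.rf (nat_lit 3843) (nat_lit 492741412732994160672)) (.cons (.br (nat_lit 1) (nat_lit 0) (.cons (.rf (nat_lit 3845) (nat_lit 493858305440582043680)) (.cons (.rf (nat_lit 3847) (nat_lit 493858305440582043680)) (.cons (.rf (nat_lit 3843) (nat_lit 492741412732994160672)) .nil)))) .nil))))),
 (.br (nat_lit 1) (nat_lit 0) (.cons (.br (nat_lit 10) (nat_lit 0) (.cons (.ev (nat_lit 20282409617818842494204018426371) (nat_lit 2)) .nil)) .nil)),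
 (.br (nat_lit 13) (nat_lit 0) (.cons (.rf (nat_lit 3849) (nat_lit 493858305440582043680)) (.cons (.br (nat_lit 13) (nat_lit 0) (.cons (.rf (nat_lit 3849) (nat_lit 493858305440582043680)) .nil)) .nil))),
 (.br (nat_lit 1) (nat_lit 0) (.cons (.br (nat_lit 1) (nat_lit 0) (.cons (.rf (nat_lit 3850) (nat_lit 493858305440582043680)) .nil)) (.cons (.rf (nat_lit 3850) (nat_lit 493858305440582043680)) .nil))),
 (.br (nat_lit 13) (nat_lit 0) (.cons (.br (nat_lit 1) (nat_lit 0) (.cons (.rf (nat_lit 3787) (nat_lit 14242959455481345025)) (.cons (.br (nat_lit 7) (nat_lit 0) (.cons (.ev (nat_lit 40644668757707405906564477878531) (nat_lit 2)) .nil)) .nil))) (.cons (.br (nat_lit 1) (nat_lit 0) (.cons (.rf (nat_lit 3787) (nat_lit 14242959524133712897)) (.cons (.br (nat_lit 5) (nat_lit 0) (.cons (.ev (nat_lit 40644668757707405906564477878531) (nat_lit 2)) .nil)) .nil))) (.cons (.br (nat_lit 1) (nat_lit 0) (.cons (.ev (nat_lit 310708102740411618305245955) (nat_lit 2)) (.cons (.rf (nat_lit 3834) (nat_lit 14242959455481345025))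 .nil))) .nil)))),
 (.br (nat_lit 13) (nat_lit 0) (.cons (.rf (nat_lit 3787) (nat_lit 14242959455481345025)) (.cons (.br (nat_lit 1) (nat_lit 0) (.cons (.zr (nat_lit 618998353842437277809116423) (nat_lit 162259278038213186155314218598400) (nat_lit 15) (nat_lit 0)) .nil)) .nil))),
 (.br (nat_lit 1) (nat_lit 0) (.cons (.rf (nat_lit 3853) (nat_lit 493858305440582043680)) (.cons (.br (nat_lit 1) (nat_lit 0) (.cons (.rf (nat_lit 3853) (nat_lit 493858305440582043680)) (.cons (.rf (nat_lit 3852) (nat_lit 493858305440582043680)) .nil))) (.cons (.rf (nat_lit 3852) (nat_lit 493858305440582043680)) .nil)))),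
 (.br (nat_lit 13) (nat_lit 0) (.cons (.rf (nat_lit 3852) (nat_lit 493858305440582043680)) (.cons (.rf (nat_lit 3854) (nat_lit 493858305440582043680)) (.cons (.br (nat_lit 13) (nat_lit 0) (.cons (.rf (nat_lit 3852) (nat_lit 493858305440582043680)) (.cons (.ev (nat_lit 20361638979832567603117619675136) (nat_lit 1)) .nil))) .nil)))),
 (.br (nat_lit 13) (nat_lit 0) (.cons (.br (nat_lit 10) (nat_lit 0) (.cons (.ev (nat_lit 79229371440156292391244988416) (nat_lit 1)) .nil)) (.cons (.br (nat_lit 7) (nat_lit 0) (.cons (.ev (nat_lit 79229371440156292391244988416) (nat_lit 1)) .nil)) .nil))),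
 (.br (nat_lit 10) (nat_lit 0) (.cons (.rf (nat_lit 3856) (nat_lit 493858305440582043680)) (.cons (.br (nat_lit 10) (nat_lit 0) (.cons (.rf (nat_lit 3856) (nat_lit 493858305440582043680)) (.cons (.ev (nat_lit 79229376162522775265185103873) (nat_lit 1)) .nil))) (.cons (.br (nat_lit 10) (nat_lit 0) (.cons (.rf (nat_lit 3856) (nat_lit 493858305440582043680)) (.cons (.ev (nat_lit 79229376162522775265185103873) (nat_lit 1)) .nil))) .nil)))),
 (.br (nat_lit 1) (nat_lit 0) (.cons (.rf (nat_lit 3857) (nat_lit 493858305440582043680)) (.cons (.br (nat_lit 13) (nat_lit 0) (.cons (.rf (nat_lit 2619) (nat_lit 1272452857365660066)) (.cons (.rf (nat_lit 2514) (nat_lit 1344580784878911906)) .nil))) (.cons (.br (nat_lit 13) (nat_lit 0) (.cons (.rf (nat_lit 3787) (nat_lit 14242959455481345025)) (.cons (.rf (nat_lit 3834) (nat_lit 14242959455481345025)) .nil))) .nil)))),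
 (.br (nat_lit 1) (nat_lit 0) (.cons (.rf (nat_lit 3856) (nat_lit 493858305440582043680)) (.cons (.rf (nat_lit 3858) (nat_lit 493858305440582043680)) (.cons (.br (nat_lit 13) (nat_lit 0) (.cons (.ev (nat_lit 20362256750408017133616444211456) (nat_lit 2)) (.cons (.br (nat_lit 5) (nat_lit 0) (.cons (.ev (nat_lit 20361638975091754657644946653184) (nat_lit 1)) .nil)) (.cons (.rf (nat_lit 3641) (nat_lit 8254119938580875309)) .nil)))) .nil)))),
 (.br (nat_lit 12) (nat_lit 0) (.cons (.rf (nat_lit 3843) (nat_lit 492741412732994160672)) (.cons (.rf (nat_lit 3848) (nat_lit 492741412732994160672)) (.cons (.br (nat_lit 13) (nat_lit 0) (.cons (.rf (nat_lit 3850) (nat_lit 493858305440582043680)) (.cons (.rf (nat_lit 3851) (nat_lit 493858305440582043680)) (.cons (.br (nat_lit 13) (nat_lit 0) (.cons (.rf (nat_lit 3850) (nat_lit 493858305440582043680)) (.cons (.rf (nat_lit 3851) (nat_lit 493858305440582043680)) .nil))) .nil)))) (.cons (.br (nat_lit 13) (nat_lit 0) (.cons (.rf (nat_lit 3852) (nat_lit 493858305440582043680))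 (.cons (.rf (nat_lit 3854) (nat_lit 493858305440582043680)) (.cons (.rf (nat_lit 3855) (nat_lit 493858305440582043680)) (.cons (.br (nat_lit 13) (nat_lit 0) (.cons (.rf (nat_lit 3852) (nat_lit 493858305440582043680)) (.cons (.rf (nat_lit 3854) (nat_lit 493858305440582043680)) (.cons (.rf (nat_lit 3855) (nat_lit 493858305440582043680)) .nil)))) .nil))))) (.cons (.br (nat_lit 1) (nat_lit 0) (.cons (.rf (nat_lit 3857) (nat_lit 493858305440582043680)) (.cons (.rf (nat_lit 3858) (nat_lit 493858305440582043680)) (.cons (.rf (nat_lit 3859) (nat_lit 493858305440582043680)) (.cons (.br (nat_lit 1) (nat_lit 0) (.cons (.rf (nat_lit 3857) (nat_lit 493858305440582043680)) (.cons (.rf (nat_lit 3858) (nat_lit 493858305440582043680)) (.cons (.rf (nat_lit 3859) (nat_lit 493858305440582043680)) .nil)))) .nil))))) .nil)))))),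
 (.br (nat_lit 1) (nat_lit 0) (.cons (.rf (nat_lit 3787) (nat_lit 14242959524133712897)) (.cons (.rf (nat_lit 3641) (nat_lit 14242959455481345025)) .nil))),
 (.br (nat_lit 13) (nat_lit 0) (.cons (.rf (nat_lit 3861) (nat_lit 493858305371929675808)) (.cons (.rf (nat_lit 3861) (nat_lit 493858305440582043680)) .nil))),
 (.br (nat_lit 1) (nat_lit 0) (.cons (.br (nat_lit 1) (nat_lit 0) (.cons (.rf (nat_lit 3787) (nat_lit 14242959455481345025)) .nil)) (.cons (.rf (nat_lit 3861) (nat_lit 493858305371929675808)) .nil))),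
 (.br (nat_lit 7) (nat_lit 0) (.cons (.br (nat_lit 13) (nat_lit 0) (.cons (.ev (nat_lit 18518801667764322561) (nat_lit 1)) (.cons (.br (nat_lit 7) (nat_lit 0) (.cons (.ev (nat_lit 18518801667764322561) (nat_lit 1)) .nil)) .nil))) (.cons (.br (nat_lit 13) (nat_lit 0) (.cons (.ev (nat_lit 79229385607183404143124415235) (nat_lit 2)) (.cons (.ev (nat_lit 79229376162522775265185103873) (nat_lit 1)) .nil))) (.cons (.br (nat_lit 7) (nat_lit 0) (.cons (.ev (nat_lit 18518801667764322561) (nat_lit 1)) (.cons (.ev (nat_lit 79229376162522775265185103873) (nat_lit 1)) .nil))) .nil))))]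

theorem c141 : chkAll C T R L141 (nat_lit 3834) = true := by decide +kernel

theorem l141 : (nat_lit 3834) + L141.length = (nat_lit 3865) := by decide +kernel

/-- part of the certificates -/
def L142 : List Prf := [(.br (nat_lit 1) (nat_lit 0) (.cons (.rf (nat_lit 3864) (nat_lit 493858305440582043680)) (.cons (.br (nat_lit 5) (nat_lit 0) (.cons (.ev (nat_lit 1859332762350635434580640258) (nat_lit 3)) (.cons (.br (nat_lit 7) (nat_lit 0) (.cons (.ev (nat_lit 79229376180969237863918010368) (nat_lit 1)) .nil)) .nil))) (.cons (.br (nat_lit 13) (nat_lit 0) (.cons (.rf (nat_lit 3787) (nat_lit 14242959455481345025)) (.cons (.rf (nat_lit 3641) (nat_lit 14242959455481345025)) (.cons (.rf (nat_lit 2497) (nat_lit 1344575287320773026)) .nil)))) .nil)))),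
 (.br (nat_lit 1) (nat_lit 0) (.cons (.rf (nat_lit 3864) (nat_lit 493858305440582043680)) (.cons (.rf (nat_lit 3865) (nat_lit 493858305440582043680)) (.cons (.br (nat_lit 5) (nat_lit 0) (.cons (.br (nat_lit 7) (nat_lit 0) (.cons (.ev (nat_lit 72339069031416064) (nat_lit 1)) .nil)) (.cons (.ev (nat_lit 40725139700797210947381811741698) (nat_lit 3)) .nil))) .nil)))),
 (.br (nat_lit 12) (nat_lit 0) (.cons (.rf (nat_lit 3843) (nat_lit 492741412732994160672)) (.cons (.rf (nat_lit 3848) (nat_lit 492741412732994160672)) (.cons (.rf (nat_lit 3860) (nat_lit 492741412732994160672)) (.cons (.br (nat_lit 13) (nat_lit 0) (.cons (.rf (nat_lit 3862) (nat_lit 493858305440582043680)) (.cons (.rf (nat_lit 3863) (nat_lit 493858305440582043680)) (.cons (.br (nat_lit 13) (nat_lit 0) (.cons (.rf (nat_lit 3861) (nat_lit 493858305440582043680)) (.cons (.rf (nat_lit 3863) (nat_lit 493858305440582043680)) .nil))) .nil)))) (.cons (.br (nat_lit 1) (nat_lit 0) (.cons (.rf (nat_lit 3864) (nat_lit 493858305440582043680)) (.cons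 (.rf (nat_lit 3865) (nat_lit 493858305440582043680)) (.cons (.rf (nat_lit 3866) (nat_lit 493858305440582043680)) (.cons (.br (nat_lit 1) (nat_lit 0) (.cons (.rf (nat_lit 3864) (nat_lit 493858305440582043680)) (.cons (.rf (nat_lit 3865) (nat_lit 493858305440582043680)) (.cons (.rf (nat_lit 3866) (nat_lit 493858305440582043680)) .nil)))) .nil))))) .nil)))))),
 (.br (nat_lit 7) (nat_lit 0) (.cons (.br (nat_lit 10) (nat_lit 0) (.cons (.ev (nat_lit 284112819422466934593751597059080) (nat_lit 4)) .nil)) (.cons (.ev (nat_lit 18518801667764322561) (nat_lit 1)) .nil))),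
 (.br (nat_lit 1) (nat_lit 0) (.cons (.rf (nat_lit 3868) (nat_lit 493858305440582043680)) (.cons (.br (nat_lit 7) (nat_lit 0) (.cons (.ev (nat_lit 20282413230429130114463040733696) (nat_lit 2)) .nil)) (.cons (.rf (nat_lit 3705) (nat_lit 468645730945056)) .nil)))),
 (.br (nat_lit 7) (nat_lit 0) (.cons (.rf (nat_lit 3868) (nat_lit 493858305440582043680)) (.cons (.rf (nat_lit 3869) (nat_lit 493858305440582043680)) (.cons (.br (nat_lit 7) (nat_lit 0) (.cons (.ev (nat_lit 18518801667764322561) (nat_lit 1)) (.cons (.rf (nat_lit 3869) (nat_lit 493858305440582043680)) .nil))) .nil)))),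
 (.br (nat_lit 1) (nat_lit 0) (.cons (.rf (nat_lit 3870) (nat_lit 493858305440582043680)) (.cons (.br (nat_lit 5) (nat_lit 0) (.cons (.br (nat_lit 10) (nat_lit 0) (.cons (.ev (nat_lit 20282410812596009121723445149953) (nat_lit 1)) .nil)) (.cons (.br (nat_lit 7) (nat_lit 0) (.cons (.ev (nat_lit 41042045097225995414109975478278) (nat_lit 3)) .nil)) (.cons (.br (nat_lit 7) (nat_lit 0) (.cons (.ev (nat_lit 477228307774005006537207447558) (nat_lit 3)) .nil)) .nil)))) (.cons (.br (nat_lit 5) (nat_lit 0) (.cons (.ev (nat_lit 18518801667764322561) (nat_lit 1)) (.cons (.br (nat_lit 7) (nat_lit 0) (.cons (.ev (nat_lit 40723896924943966076800023527424) (nat_lit 3)) .nil)) .nil))) .nil)))),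
 (.br (nat_lit 1) (nat_lit 0) (.cons (.rf (nat_lit 3870) (nat_lit 493858305440582043680)) (.cons (.rf (nat_lit 3871) (nat_lit 493858305440582043680)) (.cons (.br (nat_lit 5) (nat_lit 0) (.cons (.br (nat_lit 7) (nat_lit 0) (.cons (.ev (nat_lit 20282410812596009121723445149953) (nat_lit 1)) .nil)) (.cons (.ev (nat_lit 20282409608374037189395696582913) (nat_lit 1)) .nil))) .nil)))),
 (.br (nat_lit 2) (nat_lit 0) (.cons (.rf (nat_lit 3536) (nat_lit 14242959524133701664)) (.cons (.rf (nat_lit 3641) (nat_lit 14242959524133701664)) (.cons (.rf (nat_lit 3787) (nat_lit 14242959524133701664)) (.cons (.rf (nat_lit 3834) (nat_lit 14242959524133701664)) (.cons (.br (nat_lit 11) (nat_lit 0) (.cons (.rf (nat_lit 3843) (nat_lit 493858305440582043680)) (.cons (.rf (nat_lit 3848) (nat_lit 493858305440582043680)) (.cons (.rf (nat_lit 3860) (nat_lit 493858305440582043680)) (.cons (.rf (nat_lit 3867) (nat_lit 493858305440582043680)) (.cons (.kr (nat_lit 309485009821345068724781056) (nat_lit 79228162514264337593543950336)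 (nat_lit 11) (nat_lit 0)) (.cons (.br (nat_lit 12) (nat_lit 0) (.cons (.rf (nat_lit 3843) (nat_lit 492741412732994160672)) (.cons (.rf (nat_lit 3848) (nat_lit 492741412732994160672)) (.cons (.rf (nat_lit 3860) (nat_lit 492741412732994160672)) (.cons (.rf (nat_lit 3867) (nat_lit 492741412732994160672)) (.cons (.br (nat_lit 1) (nat_lit 0) (.cons (.rf (nat_lit 3870) (nat_lit 493858305440582043680)) (.cons (.rf (nat_lit 3871) (nat_lit 493858305440582043680)) (.cons (.rf (nat_lit 3872) (nat_lit 493858305440582043680)) (.cons (.br (nat_lit 1) (nat_lit 0) (.cons (.rf (nat_lit 3870) (nat_lit 493858305440582043680)) (.cons (.rf (nat_lit 3871) (nat_lit 493858305440582043680)) (.cons (.rf (nat_lit 3872) (nat_lit 493858305440582043680)) .nil)))) .nil))))) .nil)))))) .nil))))))) .nil)))))),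
 (.br (nat_lit 2) (nat_lit 0) (.cons (.rf (nat_lit 3536) (nat_lit 14242959524133701664)) (.cons (.rf (nat_lit 3641) (nat_lit 14242959524133701664)) (.cons (.rf (nat_lit 3787) (nat_lit 14242959524133701664)) (.cons (.rf (nat_lit 3834) (nat_lit 14242959524133701664)) (.cons (.rf (nat_lit 3873) (nat_lit 14242959524133701664)) (.cons (.br (nat_lit 2) (nat_lit 0) (.cons (.rf (nat_lit 1943) (nat_lit 427010)) (.cons (.rf (nat_lit 3641) (nat_lit 14242959524133701664)) (.cons (.rf (nat_lit 3787) (nat_lit 14242959524133701664)) (.cons (.rf (nat_lit 3834) (nat_lit 14242959524133701664)) (.cons (.rf (nat_lit 3873) (nat_lit 14242959524133701664)) .nil)))))) .nil))))))),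
 (.br (nat_lit 2) (nat_lit 0) (.cons (.rf (nat_lit 3536) (nat_lit 14242959524133701664)) (.cons (.rf (nat_lit 3641) (nat_lit 14242959524133701664)) (.cons (.rf (nat_lit 3787) (nat_lit 14242959524133701664)) (.cons (.rf (nat_lit 3834) (nat_lit 14242959524133701664)) (.cons (.rf (nat_lit 3874) (nat_lit 14242959524133701664)) (.cons (.rf (nat_lit 3874) (nat_lit 13126066816545818656)) (.cons (.br (nat_lit 2) (nat_lit 0) (.cons (.rf (nat_lit 1943) (nat_lit 427010)) (.cons (.rf (nat_lit 3641) (nat_lit 14242959524133701664)) (.cons (.rf (nat_lit 3787) (nat_lit 14242959524133701664)) (.cons (.rf (nat_lit 3834) (nat_lit 14242959524133701664)) (.cons (.rf (nat_lit 3874) (nat_lit 14242959524133701664)) (.cons (.rf (nat_lit 3874) (nat_lit 13126066816545818656)) .nil))))))) .nil)))))))),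
 (.br (nat_lit 3) (nat_lit 0) (.cons (.rf (nat_lit 3875) (nat_lit 14242959524133701664)) (.cons (.ev (nat_lit 72339069031415809) (nat_lit 1)) (.cons (.br (nat_lit 1) (nat_lit 0) (.cons (.rf (nat_lit 2743) (nat_lit 12451350415392)) (.cons (.br (nat_lit 10) (nat_lit 0) (.cons (.ev (nat_lit 7258369662289879645553664) (nat_lit 3)) (.cons (.rf (nat_lit 2312) (nat_lit 470942462674976)) .nil))) (.cons (.rf (nat_lit 2330) (nat_lit 15066994721327136)) .nil)))) (.cons (.br (nat_lit 1) (nat_lit 0) (.cons (.br (nat_lit 11) (nat_lit 0) (.cons (.ev (nat_lit 79229376162522775265185104128) (nat_lit 1)) (.cons (.rf (nat_lit 2317) (nat_lit 470942462674976)) .nil))) (.cons (.br (nat_lit 10) (nat_lit 0) (.cons (.ev (nat_lit 79229376180969237863918010625) (nat_lit 1)) (.cons (.rf (nat_lit 2317) (nat_lit 470976788858912)) .nil))) (.cons (.br (nat_lit 10) (nat_lit 0) (.cons (.ev (nat_lit 159699105770308508482517074446) (nat_lit 4)) (.cons (.rf (nat_lit 2314) (nat_lit 470976788858912)) .nil))) (.cons (.br (nat_lit 10)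 (nat_lit 0) (.cons (.rf (nat_lit 2336) (nat_lit 470843644872736)) (.cons (.rf (nat_lit 2343) (nat_lit 470979909421088)) (.cons (.br (nat_lit 12) (nat_lit 0) (.cons (.ev (nat_lit 79234230773787095044339073792) (nat_lit 3)) (.cons (.ev (nat_lit 158461165546551738007373873664) (nat_lit 3)) .nil))) .nil)))) .nil))))) (.cons (.br (nat_lit 1) (nat_lit 0) (.cons (.rf (nat_lit 2671) (nat_lit 15070293157578784)) (.cons (.rf (nat_lit 2671) (nat_lit 15071358309468192)) (.cons (.rf (nat_lit 3155) (nat_lit 15395986447706261536)) (.cons (.br (nat_lit 10) (nat_lit 0) (.cons (.rf (nat_lit 2336) (nat_lit 470843644872736)) (.cons (.br (nat_lit 13) (nat_lit 0) (.cons (.br (nat_lit 12) (nat_lit 0) (.cons (.ev (nat_lit 121695081432447832409630295851012) (nat_lit 3)) .nil)) (.cons (.br (nat_lit 11) (nat_lit 0) (.cons (.ev (nat_lit 121695081432447832409630295851012) (nat_lit 3)) .nil)) .nil))) (.cons (.br (nat_lit 12) (nat_lit 0) (.cons (.br (nat_lit 12) (nat_lit 0) (.cons (.ev (nat_lit 20282720297587311665120127549441)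 (nat_lit 1)) .nil)) (.cons (.br (nat_lit 11) (nat_lit 0) (.cons (.ev (nat_lit 20282720297587311665120127549441) (nat_lit 1)) .nil)) .nil))) .nil)))) .nil))))) .nil)))))),
 (.br (nat_lit 12) (nat_lit 0) (.cons (.rf (nat_lit 2673) (nat_lit 14239577465055971360)) (.cons (.rf (nat_lit 2525) (nat_lit 14203548669108717600)) .nil))),
 (.br (nat_lit 1) (nat_lit 0) (.cons (.rf (nat_lit 3875) (nat_lit 14242959524133701664)) (.cons (.rf (nat_lit 3876) (nat_lit 14242959524133701664)) (.cons (.br (nat_lit 3) (nat_lit 0) (.cons (.ev (nat_lit 310693935640963005074833411) (nat_lit 2)) (.cons (.br (nat_lit 7) (nat_lit 0) (.cons (.ev (nat_lit 79229376180969237863918010625) (nat_lit 1)) (.cons (.rf (nat_lit 2317) (nat_lit 470979909421088)) .nil))) (.cons (.rf (nat_lit 2671) (nat_lit 15071255330916384)) .nil)))) (.cons (.br (nat_lit 7) (nat_lit 0) (.cons (.br (nat_lit 11) (nat_lit 0) (.cons (.ev (nat_lit 158458747731661883916081825280) (nat_lit 3)) (.cons (.rf (nat_lit 2312) (nat_lit 470979909421088)) .nil))) (.cons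 (.br (nat_lit 3) (nat_lit 0) (.cons (.ev (nat_lit 313111842765381889912078336) (nat_lit 2)) (.cons (.rf (nat_lit 2313) (nat_lit 470979909421088)) .nil))) (.cons (.ev (nat_lit 79230580384422933672912683266) (nat_lit 2)) (.cons (.br (nat_lit 3) (nat_lit 0) (.cons (.rf (nat_lit 2312) (nat_lit 470842604685344)) (.cons (.rf (nat_lit 2314) (nat_lit 470979909421088)) (.cons (.br (nat_lit 11) (nat_lit 0) (.cons (.rf (nat_lit 2341) (nat_lit 470843644872736)) (.cons (.br (nat_lit 12) (nat_lit 0) (.cons (.ev (nat_lit 203619477352349661026661330715146) (nat_lit 4)) .nil)) .nil))) .nil)))) .nil))))) (.cons (.br (nat_lit 3) (nat_lit 0) (.cons (.rf (nat_lit 2330) (nat_lit 15070155850811424)) (.cons (.rf (nat_lit 2330) (nat_lit 15070293155547168)) (.cons (.br (nat_lit 7) (nat_lit 0) (.cons (.ev (nat_lit 313111842765381889912078336) (nat_lit 2)) (.cons (.rf (nat_lit 2343) (nat_lit 470976788858912)) (.cons (.rf (nat_lit 3877) (nat_lit 15433072009550071840)) .nil)))) (.cons (.br (nat_lit 7) (nat_lit 0) (.cons (.rf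 (nat_lit 2336) (nat_lit 470946623424544)) (.cons (.br (nat_lit 13) (nat_lit 0) (.cons (.br (nat_lit 12) (nat_lit 0) (.cons (.ev (nat_lit 121695081432447832409630295851012) (nat_lit 3)) .nil)) (.cons (.br (nat_lit 11) (nat_lit 0) (.cons (.ev (nat_lit 121695081432447832409630295851012) (nat_lit 3)) .nil)) .nil))) (.cons (.br (nat_lit 12) (nat_lit 0) (.cons (.br (nat_lit 12) (nat_lit 0) (.cons (.zr (nat_lit 4845350925609092631232522) (nat_lit 20286123423769599478885544690176) (nat_lit 30) (nat_lit 3)) .nil)) (.cons (.br (nat_lit 11) (nat_lit 0) (.cons (.zr (nat_lit 4845350925609092631232522) (nat_lit 20286123423769599478885544690176) (nat_lit 30) (nat_lit 3)) .nil)) .nil))) .nil)))) .nil))))) .nil)))))),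
 (.br (nat_lit 1) (nat_lit 0) (.cons (.rf (nat_lit 3875) (nat_lit 14242959524133701664)) (.cons (.rf (nat_lit 3876) (nat_lit 14242959524133701664)) (.cons (.rf (nat_lit 3878) (nat_lit 14242959524133701664)) (.cons (.br (nat_lit 10) (nat_lit 0) (.cons (.br (nat_lit 7) (nat_lit 0) (.cons (.ev (nat_lit 18518801667764322304) (nat_lit 1)) (.cons (.rf (nat_lit 2312) (nat_lit 470843644872736)) .nil))) (.cons (.ev (nat_lit 310698676526245339098841088) (nat_lit 1)) (.cons (.ev (nat_lit 475992785586215301092000924162) (nat_lit 3)) (.cons (.br (nat_lit 3) (nat_lit 0) (.cons (.rf (nat_lit 2312) (nat_lit 470946623424544)) (.cons (.rf (nat_lit 2314) (nat_lit 470843644872736)) (.cons (.br (nat_lit 7) (nat_lit 0) (.cons (.rf (nat_lit 2341) (nat_lit 470942462674976)) (.cons (.br (nat_lit 12) (nat_lit 0) (.cons (.ev (nat_lit 20282409603670117169120489308161) (nat_lit 1)) .nil)) .nil))) .nil)))) .nil))))) (.cons (.br (nat_lit 3) (nat_lit 0) (.cons (.rf (nat_lit 2330) (nat_lit 15071255328884768)) (.cons (.rf (nat_lit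 2330) (nat_lit 15071358307436576)) (.cons (.br (nat_lit 12) (nat_lit 0) (.cons (.rf (nat_lit 2343) (nat_lit 470976788858912)) (.cons (.rf (nat_lit 2343) (nat_lit 470979909421088)) (.cons (.ev (nat_lit 79537661728079182381495550720) (nat_lit 2)) .nil)))) (.cons (.br (nat_lit 7) (nat_lit 0) (.cons (.ev (nat_lit 310698676526245339098841088) (nat_lit 1)) (.cons (.br (nat_lit 13) (nat_lit 0) (.cons (.rf (nat_lit 833) (nat_lit 192905088891922482592)) (.cons (.br (nat_lit 10) (nat_lit 0) (.cons (.ev (nat_lit 20282720297605758127718860324864) (nat_lit 1)) .nil)) .nil))) (.cons (.br (nat_lit 13) (nat_lit 0) (.cons (.ev (nat_lit 20282409603651670706521756401664) (nat_lit 1)) (.cons (.ev (nat_lit 20283028587838628736588180423170) (nat_lit 2)) .nil))) .nil)))) .nil))))) .nil)))))),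
 (.br (nat_lit 7) (nat_lit 0) (.cons (.br (nat_lit 11) (nat_lit 0) (.cons (.ev (nat_lit 310693954159762465158594561) (nat_lit 1)) (.cons (.br (nat_lit 12) (nat_lit 0) (.cons (.ev (nat_lit 158767018964314316321602077185) (nat_lit 2)) .nil)) .nil))) (.cons (.br (nat_lit 13) (nat_lit 0) (.cons (.br (nat_lit 12) (nat_lit 0) (.cons (.ev (nat_lit 81446553487367306284899625992198) (nat_lit 3)) .nil)) (.cons (.ev (nat_lit 318769564894126451787904843780) (nat_lit 3)) .nil))) (.cons (.ev (nat_lit 79228167255077846011892203776) (nat_lit 1)) (.cons (.br (nat_lit 10) (nat_lit 0) (.cons (.br (nat_lit 12) (nat_lit 0) (.cons (.ev (nat_lit 318157848429112095331254927362) (nat_lit 3)) .nil)) (.cons (.br (nat_lit 11) (nat_lit 0) (.cons (.ev (nat_lit 284747887498286720203696101392900) (nat_lit 4)) .nil)) (.cons (.ev (nat_lit 20282409608392483651994429423616) (nat_lit 1)) .nil)))) .nil))))),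
 (.br (nat_lit 13) (nat_lit 0) (.cons (.ev (nat_lit 20282409608392483651994429423616) (nat_lit 1)) (.cons (.br (nat_lit 3) (nat_lit 0) (.cons (.ev (nat_lit 122806746751986367677513490761216) (nat_lit 4)) .nil)) (.cons (.ev (nat_lit 284904482077516728141741132742656) (nat_lit 4)) .nil)))),
 (.br (nat_lit 13) (nat_lit 0) (.cons (.rf (nat_lit 3880) (nat_lit 493858305440582043680)) (.cons (.rf (nat_lit 3881) (nat_lit 493858305440582043680)) (.cons (.br (nat_lit 3) (nat_lit 0) (.cons (.ev (nat_lit 20361947255898122872057965379840) (nat_lit 1)) .nil)) .nil)))),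
 (.br (nat_lit 13) (nat_lit 0) (.cons (.rf (nat_lit 3880) (nat_lit 493858305440582043680)) (.cons (.rf (nat_lit 3881) (nat_lit 493858305440582043680)) (.cons (.rf (nat_lit 3882) (nat_lit 493858305440582043680)) (.cons (.br (nat_lit 13) (nat_lit 0) (.cons (.rf (nat_lit 3880) (nat_lit 493858305440582043680)) (.cons (.ev (nat_lit 284904482077516728141741132742656) (nat_lit 4)) (.cons (.rf (nat_lit 3882) (nat_lit 493858305440582043680)) .nil)))) .nil))))),
 (.br (nat_lit 13) (nat_lit 0) (.cons (.rf (nat_lit 3880) (nat_lit 493858305440582043680)) (.cons (.rf (nat_lit 3883) (nat_lit 493858305440582043680)) (.cons (.br (nat_lit 13) (nat_lit 0) (.cons (.rf (nat_lit 3880) (nat_lit 493858305440582043680)) (.cons (.rf (nat_lit 3883) (nat_lit 493858305440582043680)) (.cons (.ev (nat_lit 79538861190718806809286607105) (nat_lit 1)) .nil)))) (.cons (.br (nat_lit 7) (nat_lit 0) (.cons (.ev (nat_lit 79228162514264337597855695104) (nat_lit 1)) (.cons (.ev (nat_lit 317536460558119534427684208640) (nat_lit 3)) (.cons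 (.ev (nat_lit 284904482077516728141741132742656) (nat_lit 4)) .nil)))) .nil))))),
 (.br (nat_lit 13) (nat_lit 0) (.cons (.rf (nat_lit 3880) (nat_lit 493858305440582043680)) (.cons (.rf (nat_lit 3883) (nat_lit 493858305440582043680)) (.cons (.rf (nat_lit 3884) (nat_lit 493858305440582043680)) (.cons (.br (nat_lit 13) (nat_lit 0) (.cons (.rf (nat_lit 3880) (nat_lit 493858305440582043680)) (.cons (.rf (nat_lit 3883) (nat_lit 493858305440582043680)) (.cons (.ev (nat_lit 79538861190718806809286607105) (nat_lit 1)) .nil)))) .nil)))))]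

theorem c142 : chkAll C T R L142 (nat_lit 3865) = true := by decide +kernel

theorem l142 : (nat_lit 3865) + L142.length = (nat_lit 3886) := by decide +kernel

/-- part of the certificates -/
def L143 : List Prf := [(.br (nat_lit 1) (nat_lit 0) (.cons (.rf (nat_lit 3875) (nat_lit 14242959524133701664)) (.cons (.rf (nat_lit 3876) (nat_lit 14242959524133701664)) (.cons (.rf (nat_lit 3878) (nat_lit 14242959524133701664)) (.cons (.rf (nat_lit 3879) (nat_lit 14242959524133701664)) (.cons (.br (nat_lit 13) (nat_lit 0) (.cons (.rf (nat_lit 3880) (nat_lit 493858305440582043680)) (.cons (.rf (nat_lit 3883) (nat_lit 493858305440582043680)) (.cons (.rf (nat_lit 3884) (nat_lit 493858305440582043680)) (.cons (.rf (nat_lit 3885) (nat_lit 493858305440582043680)) (.cons (.br (nat_lit 13) (nat_lit 0) (.cons (.rf (nat_lit 3880) (nat_lit 493858305440582043680)) (.cons (.rf (nat_lit 3883) (nat_lit 493858305440582043680)) (.cons (.rf (nat_lit 3884) (nat_lit 493858305440582043680)) (.cons (.rf (nat_lit 3885) (nat_lit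 493858305440582043680)) .nil))))) .nil)))))) .nil)))))),
 (.br (nat_lit 1) (nat_lit 0) (.cons (.rf (nat_lit 3875) (nat_lit 14242959524133701664)) (.cons (.rf (nat_lit 3876) (nat_lit 14242959524133701664)) (.cons (.rf (nat_lit 3878) (nat_lit 14242959524133701664)) (.cons (.rf (nat_lit 3879) (nat_lit 14242959524133701664)) (.cons (.rf (nat_lit 3886) (nat_lit 14242959524133701664)) (.cons (.br (nat_lit 1) (nat_lit 0) (.cons (.rf (nat_lit 3875) (nat_lit 14242959524133701664)) (.cons (.rf (nat_lit 3876) (nat_lit 14242959524133701664)) (.cons (.rf (nat_lit 3878) (nat_lit 14242959524133701664)) (.cons (.rf (nat_lit 3879) (nat_lit 14242959524133701664)) (.cons (.rf (nat_lit 3886) (nat_lit 14242959524133701664)) .nil)))))) .nil))))))),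
 (.br (nat_lit 10) (nat_lit 0) (.cons (.ev (nat_lit 20282410817318375604588795461888) (nat_lit 1)) (.cons (.rf (nat_lit 3808) (nat_lit 85571918375603581953)) .nil))),
 (.br (nat_lit 1) (nat_lit 0) (.cons (.ev (nat_lit 20282410817318375604588795461888) (nat_lit 1)) (.cons (.rf (nat_lit 3808) (nat_lit 85571918341277398017)) .nil))),
 (.br (nat_lit 7) (nat_lit 0) (.cons (.br (nat_lit 11) (nat_lit 0) (.cons (.ev (nat_lit 79537652264970967203973169153) (nat_lit 1)) .nil)) (.cons (.ev (nat_lit 309489732187827938386837761) (nat_lit 1)) (.cons (.ev (nat_lit 79228162514264337597855695104) (nat_lit 1)) .nil)))),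
 (.br (nat_lit 1) (nat_lit 0) (.cons (.br (nat_lit 11) (nat_lit 0) (.cons (.ev (nat_lit 20282722715475916160843997446656) (nat_lit 2)) .nil)) (.cons (.ev (nat_lit 40565438182100980456044279889922) (nat_lit 3)) (.cons (.ev (nat_lit 79228167255077846011892203776) (nat_lit 1)) .nil)))),
 (.br (nat_lit 12) (nat_lit 0) (.cons (.rf (nat_lit 3890) (nat_lit 493858305440582043680)) (.cons (.rf (nat_lit 3891) (nat_lit 493858305440582043680)) (.cons (.br (nat_lit 1) (nat_lit 0) (.cons (.ev (nat_lit 20282410812596009121723445149953) (nat_lit 1)) (.cons (.ev (nat_lit 121696319372449937760248664424450) (nat_lit 3)) (.cons (.rf (nat_lit 3890) (nat_lit 493858305440582043680)) .nil)))) (.cons (.br (nat_lit 12) (nat_lit 0) (.cons (.rf (nat_lit 3890) (nat_lit 493858305440582043680)) (.cons (.rf (nat_lit 3891) (nat_lit 493858305440582043680)) (.cons (.ev (nat_lit 20361638975091754657644946718721) (nat_lit 1)) .nil)))) .nil))))),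
 (.br (nat_lit 13) (nat_lit 0) (.cons (.br (nat_lit 11) (nat_lit 0) (.cons (.rf (nat_lit 3888) (nat_lit 493858305440582043680)) (.cons (.rf (nat_lit 3889) (nat_lit 493858305440582043680)) (.cons (.br (nat_lit 11) (nat_lit 0) (.cons (.rf (nat_lit 3888) (nat_lit 493858305440582043680)) (.cons (.rf (nat_lit 3889) (nat_lit 493858305440582043680)) .nil))) .nil)))) (.cons (.rf (nat_lit 3875) (nat_lit 14235044069127815586)) (.cons (.rf (nat_lit 3892) (nat_lit 493858305440582043680)) (.cons (.rf (nat_lit 3892) (nat_lit 492741412732994160672)) .nil))))),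
 (.br (nat_lit 13) (nat_lit 0) (.cons (.rf (nat_lit 3893) (nat_lit 493858305440582043680)) (.cons (.rf (nat_lit 3875) (nat_lit 14235044069127815586)) (.cons (.br (nat_lit 3) (nat_lit 0) (.cons (.ev (nat_lit 20282409608392483651994429423873) (nat_lit 1)) (.cons (.br (nat_lit 10) (nat_lit 0) (.cons (.ev (nat_lit 79538856505317590409490333696) (nat_lit 2)) .nil)) .nil))) (.cons (.br (nat_lit 3) (nat_lit 0) (.cons (.br (nat_lit 11) (nat_lit 0) (.cons (.ev (nat_lit 79538856449905298395250098176) (nat_lit 1)) .nil)) (.cons (.br (nat_lit 10) (nat_lit 0) (.cons (.ev (nat_lit 121854775697479475804693847869960) (nat_lit 4)) .nil)) (.cons (.br (nat_lit 10) (nat_lit 0) (.cons (.ev (nat_lit 41040811993037273101859667054080) (nat_lit 4)) .nil)) .nil)))) .nil))))),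
 (.br (nat_lit 1) (nat_lit 0) (.cons (.rf (nat_lit 3875) (nat_lit 14242959524133701664)) (.cons (.rf (nat_lit 3893) (nat_lit 51128532216546918818)) (.cons (.rf (nat_lit 3894) (nat_lit 493858305440582043680)) (.cons (.rf (nat_lit 3894) (nat_lit 492741412732994160672)) .nil))))),
 (.br (nat_lit 10) (nat_lit 0) (.cons (.ev (nat_lit 1240362705669216035959734272) (nat_lit 3)) (.cons (.ev (nat_lit 20282409608392483651994429423873) (nat_lit 1)) .nil))),
 (.br (nat_lit 10) (nat_lit 0) (.cons (.rf (nat_lit 3628) (nat_lit 81976988143848698881)) (.cons (.rf (nat_lit 3623) (nat_lit 77689671074529509793)) (.cons (.rf (nat_lit 2643) (nat_lit 263646536737851437)) .nil)))),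
 (.br (nat_lit 13) (nat_lit 0) (.cons (.rf (nat_lit 3893) (nat_lit 493858305440582043680)) (.cons (.rf (nat_lit 3895) (nat_lit 493858305440582043680)) (.cons (.rf (nat_lit 3875) (nat_lit 14235044069127815586)) (.cons (.br (nat_lit 1) (nat_lit 0) (.cons (.rf (nat_lit 3875) (nat_lit 14242959524133701664)) (.cons (.br (nat_lit 3) (nat_lit 0) (.cons (.ev (nat_lit 72339069031415809) (nat_lit 1)) (.cons (.rf (nat_lit 3896) (nat_lit 493858305440582043680)) (.cons (.rf (nat_lit 3896) (nat_lit 492741412732994160672)) .nil)))) (.cons (.br (nat_lit 11) (nat_lit 0) (.cons (.br (nat_lit 7) (nat_lit 0) (.cons (.ev (nat_lit 1240362705669216035959734272) (nat_lit 3)) .nil)) (.cons (.br (nat_lit 3) (nat_lit 0) (.cons (.ev (nat_lit 316915072723441186135236411392) (nat_lit 3)) .nil)) (.cons (.kr (nat_lit 309485009821345068724781056) (nat_lit 79228162514264337593543950336) (nat_lit 11) (nat_lit 0)) .nil)))) (.cons (.rf (nat_lit 3897) (nat_lit 493858305440582043680)) (.cons (.rf (nat_lit 3897) (nat_lit 492741412732994160672))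 .nil)))))) .nil))))),
 (.br (nat_lit 13) (nat_lit 0) (.cons (.rf (nat_lit 3893) (nat_lit 493858305440582043680)) (.cons (.rf (nat_lit 3895) (nat_lit 493858305440582043680)) (.cons (.rf (nat_lit 3875) (nat_lit 14235044069127815586)) (.cons (.rf (nat_lit 3898) (nat_lit 493858305440582043680)) (.cons (.rf (nat_lit 3898) (nat_lit 492741412732994160672)) .nil)))))),
 (.br (nat_lit 10) (nat_lit 0) (.cons (.br (nat_lit 1) (nat_lit 0) (.cons (.kr (nat_lit 18590859266080375296) (nat_lit 40564819212025707614438147751936) (nat_lit 1) (nat_lit 0)) (.cons (.br (nat_lit 11) (nat_lit 0) (.cons (.ev (nat_lit 121856008801999951860436984006146) (nat_lit 4)) .nil)) .nil))) (.cons (.rf (nat_lit 2751) (nat_lit 48562229805474)) (.cons (.br (nat_lit 1) (nat_lit 0) (.cons (.br (nat_lit 1) (nat_lit 0) (.cons (.ev (nat_lit 79537652246524504605240393728) (nat_lit 1)) .nil)) (.cons (.br (nat_lit 1) (nat_lit 0) (.cons (.ev (nat_lit 79537652246524504605240393728) (nat_lit 1)) .nil)) .nil))) .nil)))),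
 (.br (nat_lit 13) (nat_lit 0) (.cons (.rf (nat_lit 3899) (nat_lit 493858305440582043680)) (.cons (.ev (nat_lit 81129645673013527397440128679938) (nat_lit 3)) (.cons (.rf (nat_lit 3900) (nat_lit 493858305440582043680)) (.cons (.rf (nat_lit 3900) (nat_lit 492741412732994160672)) .nil))))),
 (.br (nat_lit 13) (nat_lit 0) (.cons (.rf (nat_lit 3899) (nat_lit 493858305440582043680)) (.cons (.rf (nat_lit 3901) (nat_lit 493858305440582043680)) (.cons (.rf (nat_lit 3875) (nat_lit 14235044069127815586)) (.cons (.br (nat_lit 10) (nat_lit 0) (.cons (.br (nat_lit 11) (nat_lit 0) (.cons (.br (nat_lit 7) (nat_lit 0) (.cons (.ev (nat_lit 20441179040504589514177704558594) (nat_lit 2)) .nil)) (.cons (.br (nat_lit 1) (nat_lit 0) (.cons (.ev (nat_lit 20362260363000146521652885389314) (nat_lit 2)) .nil)) (.cons (.ev (nat_lit 121696319372449937760248664424450) (nat_lit 3)) .nil)))) (.cons (.br (nat_lit 11) (nat_lit 0) (.cons (.br (nat_lit 1) (nat_lit 0) (.cons (.ev (nat_lit 79537652246524504605240393728) (nat_lit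 1)) .nil)) (.cons (.kr (nat_lit 309485009821345068724781056) (nat_lit 79228162514264337593543950336) (nat_lit 11) (nat_lit 0)) .nil))) (.cons (.ev (nat_lit 20282720302309678147994067664896) (nat_lit 1)) (.cons (.ev (nat_lit 20361638979814121140518886834176) (nat_lit 1)) .nil))))) .nil))))),
 (.br (nat_lit 13) (nat_lit 0) (.cons (.rf (nat_lit 3899) (nat_lit 493858305440582043680)) (.cons (.rf (nat_lit 3901) (nat_lit 493858305440582043680)) (.cons (.rf (nat_lit 3875) (nat_lit 14235044069127815586)) (.cons (.rf (nat_lit 3902) (nat_lit 493858305440582043680)) (.cons (.rf (nat_lit 3902) (nat_lit 492741412732994160672)) .nil)))))),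
 (.br (nat_lit 13) (nat_lit 0) (.cons (.rf (nat_lit 3903) (nat_lit 493858305440582043680)) (.cons (.rf (nat_lit 3875) (nat_lit 14235044069127815586)) (.cons (.zr (nat_lit 4332804360226742168362945024) (nat_lit 1267650600228229689573044781058) (nat_lit 30) (nat_lit 11)) .nil)))),
 (.br (nat_lit 1) (nat_lit 0) (.cons (.rf (nat_lit 3875) (nat_lit 14242959524133701664)) (.cons (.rf (nat_lit 3903) (nat_lit 51128532216546918818)) (.cons (.br (nat_lit 13) (nat_lit 0) (.cons (.rf (nat_lit 3903) (nat_lit 493858305440582043680)) (.cons (.rf (nat_lit 3875) (nat_lit 14235044069127815586)) (.cons (.rf (nat_lit 3904) (nat_lit 493858305440582043680)) (.cons (.rf (nat_lit 3904) (nat_lit 492741412732994160672)) .nil))))) (.cons (.rf (nat_lit 3899) (nat_lit 493858305440582043680)) .nil))))),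
 (.br (nat_lit 1) (nat_lit 0) (.cons (.rf (nat_lit 3875) (nat_lit 14242959524133701664)) (.cons (.rf (nat_lit 3903) (nat_lit 51128532216546918818)) (.cons (.rf (nat_lit 3905) (nat_lit 493858305440582043680)) (.cons (.rf (nat_lit 3905) (nat_lit 492741412732994160672)) (.cons (.rf (nat_lit 3899) (nat_lit 493858305440582043680)) .nil)))))),
 (.br (nat_lit 13) (nat_lit 0) (.cons (.rf (nat_lit 3899) (nat_lit 493858305440582043680)) (.cons (.rf (nat_lit 3903) (nat_lit 493858305440582043680)) (.cons (.rf (nat_lit 3906) (nat_lit 493858305440582043680)) (.cons (.rf (nat_lit 3875) (nat_lit 14235044069127815586)) (.cons (.br (nat_lit 13) (nat_lit 0) (.cons (.rf (nat_lit 3899) (nat_lit 493858305440582043680)) (.cons (.rf (nat_lit 3903) (nat_lit 493858305440582043680)) (.cons (.rf (nat_lit 3906) (nat_lit 493858305440582043680)) (.cons (.rf (nat_lit 3875) (nat_lit 14235044069127815586)) .nil))))) .nil)))))),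
 (.br (nat_lit 2) (nat_lit 0) (.cons (.rf (nat_lit 3536) (nat_lit 14242959524133701664)) (.cons (.rf (nat_lit 3875) (nat_lit 14242959524133700672)) (.cons (.rf (nat_lit 3887) (nat_lit 14242959524133701664)) (.cons (.rf (nat_lit 3887) (nat_lit 13126066816545818656)) (.cons (.br (nat_lit 13) (nat_lit 0) (.cons (.rf (nat_lit 3899) (nat_lit 493858305440582043680)) (.cons (.rf (nat_lit 3903) (nat_lit 493858305440582043680)) (.cons (.rf (nat_lit 3906) (nat_lit 493858305440582043680)) (.cons (.rf (nat_lit 3875) (nat_lit 14235044069127815586)) (.cons (.rf (nat_lit 3907) (nat_lit 493858305440582043680)) (.cons (.rf (nat_lit 3907) (nat_lit 492741412732994160672)) .nil))))))) .nil)))))),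
 (.br (nat_lit 13) (nat_lit 0) (.cons (.br (nat_lit 12) (nat_lit 0) (.cons (.ev (nat_lit 158458747657876033521150199300) (nat_lit 3)) .nil)) (.cons (.br (nat_lit 10) (nat_lit 0) (.cons (.ev (nat_lit 158458747657876033521150199300) (nat_lit 3)) .nil)) .nil))),
 (.br (nat_lit 1) (nat_lit 0) (.cons (.ev (nat_lit 18518801667764322304) (nat_lit 1)) (.cons (.zr (nat_lit 4722439103413636628483) (nat_lit 36893489251225699072) (nat_lit 5) (nat_lit 2)) (.cons (.rf (nat_lit 2744) (nat_lit 440583489918699552)) (.cons (.rf (nat_lit 2744) (nat_lit 404554727259473952)) (.cons (.br (nat_lit 3) (nat_lit 0) (.cons (.ev (nat_lit 72339069031415809) (nat_lit 1)) (.cons (.rf (nat_lit 2330) (nat_lit 14996623896774688)) (.cons (.rf (nat_lit 2330) (nat_lit 14996658222958624)) (.cons (.br (nat_lit 11) (nat_lit 0) (.cons (.rf (nat_lit 3909) (nat_lit 493858305440582043680)) (.cons (.kr (nat_lit 309485009821345068724781056) (nat_lit 79228162514264337593543950336) (nat_lit 11) (nat_lit 0)) (.cons (.br (nat_lit 10) (nat_lit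 0) (.cons (.rf (nat_lit 3909) (nat_lit 492741412732994160672)) (.cons (.br (nat_lit 10) (nat_lit 0) (.cons (.ev (nat_lit 621392648990048471511860740) (nat_lit 3)) .nil)) .nil))) .nil)))) .nil))))) .nil)))))),
 (.br (nat_lit 3) (nat_lit 0) (.cons (.ev (nat_lit 79229371440156292391244988673) (nat_lit 1)) (.cons (.rf (nat_lit 2341) (nat_lit 468812158896160)) .nil))),
 (.br (nat_lit 3) (nat_lit 0) (.cons (.rf (nat_lit 2367) (nat_lit 434627306227744)) (.cons (.rf (nat_lit 2367) (nat_lit 430229393934368)) (.cons (.br (nat_lit 7) (nat_lit 0) (.cons (.rf (nat_lit 2313) (nat_lit 432497002448928)) (.cons (.ev (nat_lit 18518801667764322304) (nat_lit 1)) .nil))) .nil)))),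
 (.br (nat_lit 10) (nat_lit 0) (.cons (.br (nat_lit 7) (nat_lit 0) (.cons (.ev (nat_lit 3730749967863449949732865550) (nat_lit 4)) (.cons (.rf (nat_lit 2314) (nat_lit 468816319645728)) .nil))) (.cons (.rf (nat_lit 3911) (nat_lit 14242959524133701664)) (.cons (.ev (nat_lit 1208925819615732981367041) (nat_lit 1)) (.cons (.rf (nat_lit 3912) (nat_lit 15433070910038444064)) .nil))))),
 (.br (nat_lit 13) (nat_lit 0) (.cons (.ev (nat_lit 18518801667764322304) (nat_lit 1)) (.cons (.rf (nat_lit 3875) (nat_lit 14235044137780183457)) (.cons (.br (nat_lit 7) (nat_lit 0) (.cons (.ev (nat_lit 20282410812596009121723445149953) (nat_lit 1)) .nil)) .nil)))),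
 (.br (nat_lit 13) (nat_lit 0) (.cons (.ev (nat_lit 18518801667764322304) (nat_lit 1)) (.cons (.rf (nat_lit 3875) (nat_lit 14235044137780183457)) (.cons (.rf (nat_lit 3914) (nat_lit 493858305440582043680)) (.cons (.rf (nat_lit 3914) (nat_lit 492741412732994160672)) .nil)))))]

theorem c143 : chkAll C T R L143 (nat_lit 3886) = true := by decide +kernel

theorem l143 : (nat_lit 3886) + L143.length = (nat_lit 3916) := by decide +kernel

/-- part of the certificates -/
def L144 : List Prf := [(.br (nat_lit 13) (nat_lit 0) (.cons (.ev (nat_lit 18518801667764322304) (nat_lit 1)) (.cons (.rf (nat_lit 3875) (nat_lit 14235044137780183457)) (.cons (.br (nat_lit 3) (nat_lit 0) (.cons (.ev (nat_lit 159082553344334909302676653570) (nat_lit 3)) .nil)) .nil)))),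
 (.br (nat_lit 13) (nat_lit 0) (.cons (.ev (nat_lit 18518801667764322304) (nat_lit 1)) (.cons (.rf (nat_lit 3875) (nat_lit 14235044137780183457)) (.cons (.rf (nat_lit 3916) (nat_lit 493858305440582043680)) (.cons (.rf (nat_lit 3916) (nat_lit 492741412732994160672)) .nil))))),
 (.br (nat_lit 13) (nat_lit 0) (.cons (.rf (nat_lit 3915) (nat_lit 493858305440582043680)) (.cons (.rf (nat_lit 3917) (nat_lit 493858305440582043680)) (.cons (.rf (nat_lit 3875) (nat_lit 14235044137780183457)) (.cons (.br (nat_lit 13) (nat_lit 0) (.cons (.rf (nat_lit 3915) (nat_lit 493858305440582043680)) (.cons (.rf (nat_lit 3917) (nat_lit 493858305440582043680)) (.cons (.ev (nat_lit 79538856449905298395250098433) (nat_lit 1)) .nil)))) .nil))))),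
 (.br (nat_lit 1) (nat_lit 0) (.cons (.rf (nat_lit 3875) (nat_lit 14242959524133701664)) (.cons (.zr (nat_lit 4722439103413636628483) (nat_lit 36893489251225699072) (nat_lit 5) (nat_lit 2)) (.cons (.rf (nat_lit 3913) (nat_lit 14242959524133701664)) (.cons (.rf (nat_lit 3913) (nat_lit 13126066816545818656)) (.cons (.br (nat_lit 13) (nat_lit 0) (.cons (.rf (nat_lit 3915) (nat_lit 493858305440582043680)) (.cons (.rf (nat_lit 3917) (nat_lit 493858305440582043680)) (.cons (.rf (nat_lit 3875) (nat_lit 14235044137780183457)) (.cons (.rf (nat_lit 3918) (nat_lit 493858305440582043680)) (.cons (.rf (nat_lit 3918) (nat_lit 492741412732994160672)) .nil)))))) .nil)))))),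
 (.br (nat_lit 1) (nat_lit 0) (.cons (.rf (nat_lit 3875) (nat_lit 14242959524133701664)) (.cons (.rf (nat_lit 2744) (nat_lit 440583489918699552)) (.cons (.rf (nat_lit 3919) (nat_lit 14242959524133701664)) (.cons (.br (nat_lit 3) (nat_lit 0) (.cons (.rf (nat_lit 2743) (nat_lit 8120010115104)) (.cons (.br (nat_lit 7) (nat_lit 0) (.cons (.ev (nat_lit 18518801667764322304) (nat_lit 1)) (.cons (.rf (nat_lit 2317) (nat_lit 468816319645728)) .nil))) (.cons (.rf (nat_lit 2671) (nat_lit 15001983984437280)) .nil)))) (.cons (.br (nat_lit 3) (nat_lit 0) (.cons (.rf (nat_lit 2330) (nat_lit 15000884504332320)) (.cons (.rf (nat_lit 2438) (nat_lit 15433068714169370656)) (.cons (.rf (nat_lit 2330) (nat_lit 15001056135252000)) (.cons (.br (nat_lit 7) (nat_lit 0) (.cons (.br (nat_lit 10) (nat_lit 0) (.cons (.zr (nat_lit 1213666632841572546248707) (nat_lit 158456325028528677386111222016) (nat_lit 5) (nat_lit 3)) (.cons (.br (nat_lit 12) (nat_lit 0) (.cons (.ev (nat_lit 476614173531572424976980115968) (nat_lit 3))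 .nil)) .nil))) (.cons (.rf (nat_lit 2336) (nat_lit 468783033649184)) (.cons (.ev (nat_lit 18518801667764322304) (nat_lit 1)) .nil)))) .nil))))) .nil)))))),
 (.br (nat_lit 12) (nat_lit 0) (.cons (.rf (nat_lit 3781) (nat_lit 491554712034239219744)) .nil)),
 (.br (nat_lit 13) (nat_lit 0) (.cons (.br (nat_lit 12) (nat_lit 0) (.cons (.ev (nat_lit 20282409608392483651994429423873) (nat_lit 1)) .nil)) (.cons (.rf (nat_lit 3761) (nat_lit 15356578025613461536)) .nil))),
 (.br (nat_lit 10) (nat_lit 0) (.cons (.rf (nat_lit 3922) (nat_lit 493858305440582043680)) (.cons (.br (nat_lit 11) (nat_lit 0) (.cons (.ev (nat_lit 40644358063808802551293045506560) (nat_lit 2)) .nil)) .nil))),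
 (.br (nat_lit 13) (nat_lit 0) (.cons (.br (nat_lit 12) (nat_lit 0) (.cons (.ev (nat_lit 81447186964533823084263569883650) (nat_lit 4)) .nil)) (.cons (.br (nat_lit 11) (nat_lit 0) (.cons (.ev (nat_lit 81447186964533823084263569883650) (nat_lit 4)) .nil)) .nil))),
 (.br (nat_lit 10) (nat_lit 0) (.cons (.rf (nat_lit 3924) (nat_lit 493858305440582043680)) (.cons (.br (nat_lit 12) (nat_lit 0) (.cons (.ev (nat_lit 20441795592672592972857814876160) (nat_lit 2)) .nil)) .nil))),
 (.br (nat_lit 12) (nat_lit 0) (.cons (.rf (nat_lit 3924) (nat_lit 493858305440582043680)) (.cons (.rf (nat_lit 3925) (nat_lit 493858305440582043680)) (.cons (.br (nat_lit 12) (nat_lit 0) (.cons (.rf (nat_lit 3924) (nat_lit 493858305440582043680)) (.cons (.rf (nat_lit 3925) (nat_lit 493858305440582043680)) .nil))) .nil)))),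
 (.br (nat_lit 1) (nat_lit 0) (.cons (.rf (nat_lit 3926) (nat_lit 493858305440582043680)) (.cons (.br (nat_lit 13) (nat_lit 0) (.cons (.br (nat_lit 12) (nat_lit 0) (.cons (.ev (nat_lit 79228162514264337597855695104) (nat_lit 1)) .nil)) (.cons (.ev (nat_lit 79228167255077846011892203776) (nat_lit 1)) .nil))) (.cons (.br (nat_lit 12) (nat_lit 0) (.cons (.br (nat_lit 12) (nat_lit 0) (.cons (.ev (nat_lit 79228167236630820463206007041) (nat_lit 1)) .nil)) (.cons (.br (nat_lit 10) (nat_lit 0) (.cons (.ev (nat_lit 79228167236630820463206007041) (nat_lit 1)) .nil)) .nil))) .nil)))),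
 (.br (nat_lit 10) (nat_lit 0) (.cons (.rf (nat_lit 3926) (nat_lit 493858305440582043680)) (.cons (.rf (nat_lit 3927) (nat_lit 493858305440582043680)) (.cons (.br (nat_lit 1) (nat_lit 0) (.cons (.br (nat_lit 12) (nat_lit 0) (.cons (.ev (nat_lit 475995203437998080380893265922) (nat_lit 3)) .nil)) (.cons (.ev (nat_lit 79230580402869396271645459201) (nat_lit 2)) (.cons (.br (nat_lit 11) (nat_lit 0) (.cons (.ev (nat_lit 621392648990048471511860740) (nat_lit 3)) .nil)) .nil)))) .nil)))),
 (.br (nat_lit 3) (nat_lit 0) (.cons (.rf (nat_lit 3875) (nat_lit 14242959524133701664)) (.cons (.ev (nat_lit 72339069031415809) (nat_lit 1)) (.cons (.br (nat_lit 1) (nat_lit 0) (.cons (.rf (nat_lit 2767) (nat_lit 470842606716960)) (.cons (.rf (nat_lit 2767) (nat_lit 468645730945056)) (.cons (.br (nat_lit 10) (nat_lit 0) (.cons (.rf (nat_lit 3921) (nat_lit 493858305440582043680)) (.cons (.br (nat_lit 10) (nat_lit 0) (.cons (.rf (nat_lit 3921) (nat_lit 493858305440582043680)) .nil)) .nil))) .nil)))) (.cons (.br (nat_lit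 1) (nat_lit 0) (.cons (.br (nat_lit 10) (nat_lit 0) (.cons (.rf (nat_lit 2768) (nat_lit 470842606716960)) (.cons (.br (nat_lit 13) (nat_lit 0) (.cons (.ev (nat_lit 79538856449905298395250098176) (nat_lit 1)) .nil)) (.cons (.br (nat_lit 13) (nat_lit 0) (.cons (.br (nat_lit 12) (nat_lit 0) (.cons (.ev (nat_lit 81131507418812485555586509570566) (nat_lit 4)) .nil)) (.cons (.br (nat_lit 11) (nat_lit 0) (.cons (.ev (nat_lit 81131507418812485555586509570566) (nat_lit 4)) .nil)) .nil))) .nil)))) (.cons (.br (nat_lit 10) (nat_lit 0) (.cons (.rf (nat_lit 3756) (nat_lit 468783033649184)) (.cons (.br (nat_lit 10) (nat_lit 0) (.cons (.ev (nat_lit 79538856449905298395250098176) (nat_lit 1)) .nil)) .nil))) (.cons (.rf (nat_lit 2752) (nat_lit 15001056137283616)) (.cons (.br (nat_lit 10) (nat_lit 0) (.cons (.rf (nat_lit 3922) (nat_lit 493858305440582043680)) (.cons (.rf (nat_lit 3923) (nat_lit 493858305440582043680)) (.cons (.br (nat_lit 10) (nat_lit 0) (.cons (.rf (nat_lit 3922) (nat_lit 493858305440582043680))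 (.cons (.rf (nat_lit 3923) (nat_lit 493858305440582043680)) .nil))) .nil)))) .nil))))) (.cons (.br (nat_lit 10) (nat_lit 0) (.cons (.rf (nat_lit 3926) (nat_lit 493858305440582043680)) (.cons (.rf (nat_lit 3927) (nat_lit 493858305440582043680)) (.cons (.rf (nat_lit 3928) (nat_lit 493858305440582043680)) (.cons (.br (nat_lit 10) (nat_lit 0) (.cons (.rf (nat_lit 3926) (nat_lit 493858305440582043680)) (.cons (.rf (nat_lit 3927) (nat_lit 493858305440582043680)) (.cons (.rf (nat_lit 3928) (nat_lit 493858305440582043680)) .nil)))) .nil))))) .nil)))))),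
 (.br (nat_lit 7) (nat_lit 0) (.cons (.ev (nat_lit 18518801667764322304) (nat_lit 1)) (.cons (.br (nat_lit 12) (nat_lit 0) (.cons (.ev (nat_lit 163052177429338692535540987332096) (nat_lit 4)) .nil)) .nil))),
 (.br (nat_lit 7) (nat_lit 0) (.cons (.br (nat_lit 11) (nat_lit 0) (.cons (.ev (nat_lit 79229371458602754989977763841) (nat_lit 1)) (.cons (.br (nat_lit 12) (nat_lit 0) (.cons (.ev (nat_lit 40564826465599073174390164423682) (nat_lit 3)) .nil)) .nil))) (.cons (.br (nat_lit 13) (nat_lit 0) (.cons (.br (nat_lit 12) (nat_lit 0) (.cons (.ev (nat_lit 318769564894126451787904843780) (nat_lit 3)) .nil)) (.cons (.ev (nat_lit 318769564894126451787904843780) (nat_lit 3)) .nil))) (.cons (.ev (nat_lit 18518801667764322304) (nat_lit 1)) (.cons (.br (nat_lit 12) (nat_lit 0) (.cons (.br (nat_lit 11) (nat_lit 0) (.cons (.ev (nat_lit 475995203437998080380893265922) (nat_lit 3)) .nil)) (.cons (.br (nat_lit 10) (nat_lit 0) (.cons (.ev (nat_lit 20361947251175756389184025133056) (nat_lit 1)) .nil)) (.cons (.kr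 (nat_lit 18590859266080375296) (nat_lit 40564819212025707614438147751936) (nat_lit 1) (nat_lit 0)) .nil)))) .nil))))),
 (.br (nat_lit 3) (nat_lit 0) (.cons (.br (nat_lit 13) (nat_lit 0) (.cons (.br (nat_lit 12) (nat_lit 0) (.cons (.ev (nat_lit 79538861172271781260600279041) (nat_lit 1)) .nil)) (.cons (.br (nat_lit 11) (nat_lit 0) (.cons (.ev (nat_lit 79538861172271781260600279041) (nat_lit 1)) .nil)) .nil))) (.cons (.br (nat_lit 13) (nat_lit 0) (.cons (.rf (nat_lit 3745) (nat_lit 493858305440515000352)) (.cons (.ev (nat_lit 79537647524158021731300147456) (nat_lit 1)) .nil))) (.cons (.ev (nat_lit 18518801667764322304) (nat_lit 1)) (.cons (.rf (nat_lit 3931) (nat_lit 493858305440582043680)) .nil))))),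
 (.br (nat_lit 13) (nat_lit 0) (.cons (.rf (nat_lit 3931) (nat_lit 493858305440582043680)) (.cons (.rf (nat_lit 3932) (nat_lit 493858305440582043680)) (.cons (.br (nat_lit 13) (nat_lit 0) (.cons (.rf (nat_lit 3931) (nat_lit 493858305440582043680)) (.cons (.ev (nat_lit 20282410817318375604588795461633) (nat_lit 1)) (.cons (.ev (nat_lit 40883593607974100395509539668480) (nat_lit 3)) .nil)))) (.cons (.br (nat_lit 11) (nat_lit 0) (.cons (.ev (nat_lit 79538861172271781260600279041) (nat_lit 1)) (.cons (.ev (nat_lit 318774400670903660604089697280) (nat_lit 3)) (.cons (.ev (nat_lit 40883593607974100395509539668480) (nat_lit 3)) .nil)))) .nil))))),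
 (.br (nat_lit 13) (nat_lit 0) (.cons (.rf (nat_lit 3931) (nat_lit 493858305440582043680)) (.cons (.rf (nat_lit 3932) (nat_lit 493858305440582043680)) (.cons (.rf (nat_lit 3933) (nat_lit 493858305440582043680)) (.cons (.br (nat_lit 13) (nat_lit 0) (.cons (.rf (nat_lit 3931) (nat_lit 493858305440582043680)) (.cons (.rf (nat_lit 3932) (nat_lit 493858305440582043680)) (.cons (.ev (nat_lit 40883593607974100395509539668480) (nat_lit 3)) .nil)))) .nil))))),
 (.br (nat_lit 11) (nat_lit 0) (.cons (.zr (nat_lit 2417980766437795824664580) (nat_lit 159694269790181389353632137216) (nat_lit 20) (nat_lit 3)) (.cons (.br (nat_lit 12) (nat_lit 0) (.cons (.ev (nat_lit 40566680958027721829541235789326) (nat_lit 4)) .nil)) .nil))),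
 (.br (nat_lit 7) (nat_lit 0) (.cons (.br (nat_lit 12) (nat_lit 0) (.cons (.ev (nat_lit 81130257389404177190949729861632) (nat_lit 3)) .nil)) (.cons (.ev (nat_lit 18518801667764322304) (nat_lit 1)) (.cons (.rf (nat_lit 3908) (nat_lit 14235044137780196353)) .nil)))),
 (.br (nat_lit 3) (nat_lit 0) (.cons (.rf (nat_lit 3735) (nat_lit 493858305440515000352)) (.cons (.ev (nat_lit 18518801667764322304) (nat_lit 1)) (.cons (.rf (nat_lit 3908) (nat_lit 14235044137780196353)) .nil)))),
 (.br (nat_lit 3) (nat_lit 0) (.cons (.br (nat_lit 12) (nat_lit 0) (.cons (.ev (nat_lit 20759641533499359774490692486656) (nat_lit 3)) .nil)) (.cons (.ev (nat_lit 79538856449905298395250098176) (nat_lit 1)) (.cons (.rf (nat_lit 3936) (nat_lit 493858305440582043680)) .nil)))),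
 (.br (nat_lit 1) (nat_lit 0) (.cons (.rf (nat_lit 3875) (nat_lit 14242959524133701664)) (.cons (.rf (nat_lit 3929) (nat_lit 493858305440582043680)) (.cons (.br (nat_lit 3) (nat_lit 0) (.cons (.rf (nat_lit 2767) (nat_lit 470979911452704)) (.cons (.rf (nat_lit 2752) (nat_lit 15066960397174816)) (.cons (.br (nat_lit 13) (nat_lit 0) (.cons (.ev (nat_lit 18518801667764322304) (nat_lit 1)) (.cons (.ev (nat_lit 1213666633124147017875713) (nat_lit 1)) (.cons (.ev (nat_lit 79537661728079182381495550720) (nat_lit 2)) .nil)))) (.cons (.br (nat_lit 12) (nat_lit 0) (.cons (.ev (nat_lit 18518801667764322304) (nat_lit 1)) (.cons (.rf (nat_lit 3930) (nat_lit 493858305440582043680)) (.cons (.br (nat_lit 12) (nat_lit 0) (.cons (.ev (nat_lit 18518801667764322304) (nat_lit 1)) (.cons (.rf (nat_lit 3930) (nat_lit 493858305440582043680)) .nil))) .nil)))) .nil))))) (.cons (.br (nat_lit 13) (nat_lit 0) (.cons (.rf (nat_lit 3931) (nat_lit 493858305440582043680)) (.cons (.rf (nat_lit 3932) (nat_lit 493858305440582043680))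 (.cons (.rf (nat_lit 3933) (nat_lit 493858305440582043680)) (.cons (.rf (nat_lit 3934) (nat_lit 493858305440582043680)) (.cons (.br (nat_lit 13) (nat_lit 0) (.cons (.rf (nat_lit 3931) (nat_lit 493858305440582043680)) (.cons (.rf (nat_lit 3932) (nat_lit 493858305440582043680)) (.cons (.rf (nat_lit 3933) (nat_lit 493858305440582043680)) (.cons (.rf (nat_lit 3934) (nat_lit 493858305440582043680)) .nil))))) .nil)))))) (.cons (.br (nat_lit 10) (nat_lit 0) (.cons (.br (nat_lit 12) (nat_lit 0) (.cons (.rf (nat_lit 3935) (nat_lit 493858305440582043680)) (.cons (.br (nat_lit 12) (nat_lit 0) (.cons (.zr (nat_lit 2417980766437795824664580) (nat_lit 159694269790181389353632137216) (nat_lit 20) (nat_lit 3)) (.cons (.kr (nat_lit 158456329750895439531709825026) (nat_lit 618970038089434215454081536) (nat_lit 0) (nat_lit 2)) .nil))) (.cons (.br (nat_lit 12) (nat_lit 0) (.cons (.rf (nat_lit 3935) (nat_lit 493858305440582043680)) (.cons (.kr (nat_lit 158456329750895439531709825026) (nat_lit 618970038089434215454081536)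 (nat_lit 0) (nat_lit 2)) .nil))) .nil)))) (.cons (.br (nat_lit 3) (nat_lit 0) (.cons (.ev (nat_lit 310698676526245339098841345) (nat_lit 1)) (.cons (.br (nat_lit 11) (nat_lit 0) (.cons (.ev (nat_lit 79537647542604484330033053953) (nat_lit 1)) (.cons (.br (nat_lit 12) (nat_lit 0) (.cons (.ev (nat_lit 20442107495607913432117307311106) (nat_lit 3)) .nil)) .nil))) (.cons (.br (nat_lit 11) (nat_lit 0) (.cons (.br (nat_lit 12) (nat_lit 0) (.cons (.zr (nat_lit 928455048199009660330574592) (nat_lit 20282410826744590332709820235776) (nat_lit 5) (nat_lit 2)) .nil)) (.cons (.ev (nat_lit 20282719093402377336127873876225) (nat_lit 1)) .nil))) .nil)))) (.cons (.ev (nat_lit 1208925819615732981367041) (nat_lit 1)) (.cons (.br (nat_lit 13) (nat_lit 0) (.cons (.rf (nat_lit 3936) (nat_lit 493858305440582043680)) (.cons (.rf (nat_lit 3937) (nat_lit 493858305440582043680)) (.cons (.rf (nat_lit 3938) (nat_lit 493858305440582043680)) (.cons (.br (nat_lit 13) (nat_lit 0) (.cons (.rf (nat_lit 3936) (nat_lit 493858305440582043680))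 (.cons (.rf (nat_lit 3937) (nat_lit 493858305440582043680)) (.cons (.rf (nat_lit 3938) (nat_lit 493858305440582043680)) .nil)))) .nil))))) (.cons (.rf (nat_lit 3875) (nat_lit 14235044137780183457)) .nil)))))) .nil)))))),
 (.br (nat_lit 9) (nat_lit 0) (.cons (.br (nat_lit 9) (nat_lit 0) .nil) .nil)),
 (.br (nat_lit 10) (nat_lit 0) (.cons (.ev (nat_lit 316919908463901921744525853188) (nat_lit 3)) (.cons (.br (nat_lit 12) (nat_lit 0) (.cons (.ev (nat_lit 20282720297605758127718860324864) (nat_lit 1)) .nil)) .nil))),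
 (.br (nat_lit 12) (nat_lit 0) (.cons (.rf (nat_lit 3941) (nat_lit 493858305440582043680)) (.cons (.br (nat_lit 13) (nat_lit 0) (.cons (.rf (nat_lit 1418) (nat_lit 124920995218254267808)) (.cons (.ev (nat_lit 79538861190718806809286606848) (nat_lit 1)) .nil))) (.cons (.br (nat_lit 12) (nat_lit 0) (.cons (.rf (nat_lit 3941) (nat_lit 493858305440582043680)) (.cons (.ev (nat_lit 79538861190718806809286606848) (nat_lit 1)) .nil))) .nil))))]

theorem c144 : chkAll C T R L144 (nat_lit 3916) = true := by decide +kernel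

theorem l144 : (nat_lit 3916) + L144.length = (nat_lit 3943) := by decide +kernel

/-- part of the certificates -/
def L145 : List Prf := [(.br (nat_lit 3) (nat_lit 0) (.cons (.rf (nat_lit 3942) (nat_lit 493858305440582043680)) (.cons (.br (nat_lit 13) (nat_lit 0) (.cons (.br (nat_lit 12) (nat_lit 0) (.cons (.ev (nat_lit 79537647524158021731300147456) (nat_lit 1)) .nil)) (.cons (.ev (nat_lit 79537652264970967203973169408) (nat_lit 1)) .nil))) (.cons (.br (nat_lit 12) (nat_lit 0) (.cons (.br (nat_lit 12) (nat_lit 0) (.cons (.ev (nat_lit 20282719088680010853262523695360) (nat_lit 1)) .nil)) (.cons (.ev (nat_lit 20282719088680010853262523695360) (nat_lit 1)) .nil))) .nil)))),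
 (.br (nat_lit 1) (nat_lit 0) (.cons (.rf (nat_lit 3875) (nat_lit 14242959524133701664)) (.cons (.rf (nat_lit 3929) (nat_lit 493858305440582043680)) (.cons (.rf (nat_lit 3939) (nat_lit 493858305440582043680)) (.cons (.br (nat_lit 3) (nat_lit 0) (.cons (.rf (nat_lit 2767) (nat_lit 468783035680800)) (.cons (.br (nat_lit 7) (nat_lit 0) (.cons (.rf (nat_lit 3940) (nat_lit 470979911452704)) (.cons (.rf (nat_lit 2768) (nat_lit 468783035680800)) (.cons (.br (nat_lit 10) (nat_lit 0) (.cons (.kr (nat_lit 79228167255077565636410408961) (nat_lit 310693935713017291954192896) (nat_lit 0) (nat_lit 4)) (.cons (.br (nat_lit 12) (nat_lit 0) (.cons (.ev (nat_lit 79538861172271781260600279041) (nat_lit 1)) .nil)) .nil))) .nil)))) (.cons (.rf (nat_lit 2752) (nat_lit 14996658224990240)) (.cons (.br (nat_lit 7) (nat_lit 0) (.cons (.br (nat_lit 13) (nat_lit 0) (.cons (.br (nat_lit 12) (nat_lit 0) (.cons (.ev (nat_lit 20282719093402377336127873876225) (nat_lit 1)) .nil)) (.cons (.br (nat_lit 10) (nat_lit 0) (.cons (.ev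 (nat_lit 20282719093402377336127873876225) (nat_lit 1)) .nil)) .nil))) (.cons (.ev (nat_lit 18518801667764322304) (nat_lit 1)) (.cons (.br (nat_lit 10) (nat_lit 0) (.cons (.br (nat_lit 10) (nat_lit 0) (.cons (.ev (nat_lit 40564820416229232802705138844416) (nat_lit 2)) .nil)) (.cons (.br (nat_lit 10) (nat_lit 0) (.cons (.ev (nat_lit 40564820416229232802705138844416) (nat_lit 2)) .nil)) .nil))) .nil)))) .nil))))) (.cons (.br (nat_lit 10) (nat_lit 0) (.cons (.rf (nat_lit 3942) (nat_lit 493858305440582043680)) (.cons (.rf (nat_lit 3943) (nat_lit 493858305440582043680)) (.cons (.br (nat_lit 10) (nat_lit 0) (.cons (.rf (nat_lit 3942) (nat_lit 493858305440582043680)) (.cons (.rf (nat_lit 3943) (nat_lit 493858305440582043680)) (.cons (.ev (nat_lit 1213648186098598331547904) (nat_lit 1)) .nil)))) (.cons (.br (nat_lit 10) (nat_lit 0) (.cons (.rf (nat_lit 3942) (nat_lit 493858305440582043680)) (.cons (.rf (nat_lit 3943) (nat_lit 493858305440582043680)) (.cons (.ev (nat_lit 1213648186098598331547904) (nat_lit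 1)) .nil)))) .nil))))) .nil)))))),
 (.br (nat_lit 12) (nat_lit 0) (.cons (.br (nat_lit 11) (nat_lit 0) (.cons (.ev (nat_lit 79538856449905298395250098176) (nat_lit 1)) .nil)) (.cons (.br (nat_lit 10) (nat_lit 0) (.cons (.zr (nat_lit 79231869572028825558845489163) (nat_lit 3094850208893926171866169856) (nat_lit 35) (nat_lit 10)) .nil)) (.cons (.ev (nat_lit 20282409608392483651994429423873) (nat_lit 1)) .nil)))),
 (.br (nat_lit 7) (nat_lit 0) (.cons (.br (nat_lit 12) (nat_lit 0) (.cons (.zr (nat_lit 237684492302053265281263075331) (nat_lit 1548633975070455160891246080) (nat_lit 5) (nat_lit 3)) .nil)) (.cons (.br (nat_lit 11) (nat_lit 0) (.cons (.ev (nat_lit 529090002065543266314336644110366) (nat_lit 5)) .nil)) (.cons (.rf (nat_lit 3945) (nat_lit 493858305440582043680)) .nil)))),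
 (.br (nat_lit 10) (nat_lit 0) (.cons (.ev (nat_lit 310693954159762465158594816) (nat_lit 1)) (.cons (.ev (nat_lit 79538856449905298395250098176) (nat_lit 1)) (.cons (.rf (nat_lit 3946) (nat_lit 493858305440582043680)) .nil)))),
 (.br (nat_lit 13) (nat_lit 0) (.cons (.rf (nat_lit 3945) (nat_lit 493858305440582043680)) (.cons (.rf (nat_lit 3946) (nat_lit 493858305440582043680)) (.cons (.rf (nat_lit 3947) (nat_lit 493858305440582043680)) (.cons (.br (nat_lit 13) (nat_lit 0) (.cons (.ev (nat_lit 20282409608392483651994429423873) (nat_lit 1)) (.cons (.rf (nat_lit 3946) (nat_lit 493858305440582043680)) (.cons (.rf (nat_lit 3947) (nat_lit 493858305440582043680)) .nil)))) .nil))))),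
 (.br (nat_lit 3) (nat_lit 0) (.cons (.rf (nat_lit 3948) (nat_lit 493858305440582043680)) (.cons (.br (nat_lit 13) (nat_lit 0) (.cons (.ev (nat_lit 310693954159762465158594816) (nat_lit 1)) (.cons (.ev (nat_lit 79537652264970967203973169408) (nat_lit 1)) .nil))) (.cons (.br (nat_lit 13) (nat_lit 0) (.cons (.br (nat_lit 11) (nat_lit 0) (.cons (.ev (nat_lit 122013236858321243966036308001286) (nat_lit 4)) .nil)) (.cons (.br (nat_lit 10) (nat_lit 0) (.cons (.ev (nat_lit 122013236858321243966036308001286) (nat_lit 4)) .nil)) .nil))) (.cons (.br (nat_lit 10) (nat_lit 0) (.cons (.br (nat_lit 12) (nat_lit 0) (.cons (.ev (nat_lit 79229371458531544028533621250) (nat_lit 2)) .nil)) (.cons (.br (nat_lit 11) (nat_lit 0) (.cons (.ev (nat_lit 317534042780122605533857710596) (nat_lit 3)) .nil)) (.cons (.br (nat_lit 11) (nat_lit 0) (.cons (.ev (nat_lit 79229371458531544028533621250) (nat_lit 2)) .nil)) .nil)))) .nil))))),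
 (.br (nat_lit 10) (nat_lit 0) (.cons (.rf (nat_lit 3948) (nat_lit 493858305440582043680)) (.cons (.rf (nat_lit 3949) (nat_lit 493858305440582043680)) (.cons (.br (nat_lit 13) (nat_lit 0) (.cons (.br (nat_lit 7) (nat_lit 0) (.cons (.ev (nat_lit 159076504011101488619645502208) (nat_lit 2)) .nil)) (.cons (.br (nat_lit 3) (nat_lit 0) (.cons (.ev (nat_lit 159076504011101488619645502208) (nat_lit 2)) .nil)) .nil))) (.cons (.ev (nat_lit 1213648186098598331547904) (nat_lit 1)) .nil))))),
 (.br (nat_lit 10) (nat_lit 0) (.cons (.rf (nat_lit 3948) (nat_lit 493858305440582043680)) (.cons (.rf (nat_lit 3949) (nat_lit 493858305440582043680)) (.cons (.rf (nat_lit 3950) (nat_lit 493858305440582043680)) (.cons (.br (nat_lit 3) (nat_lit 0) (.cons (.br (nat_lit 11) (nat_lit 0) (.cons (.ev (nat_lit 122649528366960375009633368670726) (nat_lit 4)) .nil)) (.cons (.ev (nat_lit 79538856449905298395250098176) (nat_lit 1)) (.cons (.br (nat_lit 7) (nat_lit 0) (.cons (.ev (nat_lit 40723276741257906156021666087170) (nat_lit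 2)) .nil)) .nil)))) .nil))))),
 (.br (nat_lit 1) (nat_lit 0) (.cons (.rf (nat_lit 3875) (nat_lit 14242959524133701664)) (.cons (.rf (nat_lit 3929) (nat_lit 493858305440582043680)) (.cons (.rf (nat_lit 3939) (nat_lit 493858305440582043680)) (.cons (.rf (nat_lit 3944) (nat_lit 493858305440582043680)) (.cons (.br (nat_lit 10) (nat_lit 0) (.cons (.rf (nat_lit 3948) (nat_lit 493858305440582043680)) (.cons (.rf (nat_lit 3949) (nat_lit 493858305440582043680)) (.cons (.rf (nat_lit 3950) (nat_lit 493858305440582043680)) (.cons (.rf (nat_lit 3951) (nat_lit 493858305440582043680)) (.cons (.br (nat_lit 10) (nat_lit 0) (.cons (.rf (nat_lit 3948) (nat_lit 493858305440582043680)) (.cons (.rf (nat_lit 3949) (nat_lit 493858305440582043680)) (.cons (.ev (nat_lit 1213648186098598331547904) (nat_lit 1)) (.cons (.rf (nat_lit 3951) (nat_lit 493858305440582043680)) .nil))))) .nil)))))) .nil)))))),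
 (.br (nat_lit 2) (nat_lit 0) (.cons (.rf (nat_lit 3536) (nat_lit 14242959524133701664)) (.cons (.rf (nat_lit 3875) (nat_lit 14242959524133700672)) (.cons (.rf (nat_lit 3908) (nat_lit 14242959524133701664)) (.cons (.br (nat_lit 1) (nat_lit 0) (.cons (.rf (nat_lit 3875) (nat_lit 14242959524133701664)) (.cons (.rf (nat_lit 3910) (nat_lit 14242959524133701664)) (.cons (.rf (nat_lit 3919) (nat_lit 14242959524133701664)) (.cons (.rf (nat_lit 3920) (nat_lit 14242959524133701664)) (.cons (.rf (nat_lit 3920) (nat_lit 13126066816545818656)) (.cons (.br (nat_lit 1) (nat_lit 0) (.cons (.rf (nat_lit 3875) (nat_lit 14242959524133701664)) (.cons (.rf (nat_lit 3910) (nat_lit 14242959524133701664)) (.cons (.rf (nat_lit 3919) (nat_lit 14242959524133701664)) (.cons (.rf (nat_lit 3920) (nat_lit 14242959524133701664)) (.cons (.rf (nat_lit 3920) (nat_lit 13126066816545818656)) .nil)))))) .nil))))))) (.cons (.br (nat_lit 1) (nat_lit 0) (.cons (.rf (nat_lit 3875) (nat_lit 14242959524133701664)) (.cons (.rf (nat_lit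 3929) (nat_lit 493858305440582043680)) (.cons (.rf (nat_lit 3939) (nat_lit 493858305440582043680)) (.cons (.rf (nat_lit 3944) (nat_lit 493858305440582043680)) (.cons (.rf (nat_lit 3952) (nat_lit 493858305440582043680)) (.cons (.br (nat_lit 1) (nat_lit 0) (.cons (.rf (nat_lit 3875) (nat_lit 14242959524133701664)) (.cons (.rf (nat_lit 3929) (nat_lit 493858305440582043680)) (.cons (.rf (nat_lit 3939) (nat_lit 493858305440582043680)) (.cons (.rf (nat_lit 3944) (nat_lit 493858305440582043680)) (.cons (.rf (nat_lit 3952) (nat_lit 493858305440582043680)) .nil)))))) .nil))))))) .nil)))))),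
 (.br (nat_lit 2) (nat_lit 0) (.cons (.rf (nat_lit 3536) (nat_lit 14242959524133701664)) (.cons (.rf (nat_lit 3875) (nat_lit 14242959524133700672)) (.cons (.rf (nat_lit 3908) (nat_lit 14242959524133701664)) (.cons (.rf (nat_lit 3953) (nat_lit 14242959524133701664)) (.cons (.rf (nat_lit 3953) (nat_lit 13126066816545818656)) (.cons (.br (nat_lit 2) (nat_lit 0) (.cons (.rf (nat_lit 1943) (nat_lit 427010)) (.cons (.rf (nat_lit 3875) (nat_lit 14242959524133700672)) (.cons (.rf (nat_lit 3908) (nat_lit 14242959524133701664)) (.cons (.rf (nat_lit 3953) (nat_lit 14242959524133701664)) (.cons (.rf (nat_lit 3953) (nat_lit 13126066816545818656)) .nil)))))) .nil))))))),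
 (.br (nat_lit 10) (nat_lit 0) (.cons (.br (nat_lit 12) (nat_lit 0) (.cons (.ev (nat_lit 79537652264970967203973169408) (nat_lit 1)) (.cons (.rf (nat_lit 2317) (nat_lit 465482519054368)) .nil))) (.cons (.br (nat_lit 1) (nat_lit 0) (.cons (.ev (nat_lit 79537652246524504605240393985) (nat_lit 1)) (.cons (.rf (nat_lit 2343) (nat_lit 465516845238304)) .nil))) (.cons (.ev (nat_lit 310708139634462715677900800) (nat_lit 2)) (.cons (.br (nat_lit 12) (nat_lit 0) (.cons (.rf (nat_lit 2317) (nat_lit 465517885425696)) (.cons (.rf (nat_lit 3131) (nat_lit 465482226501664)) (.cons (.zr (nat_lit 1227815286109057725759491) (nat_lit 79537647542532428947886571520) (nat_lit 5) (nat_lit 10)) .nil)))) .nil))))),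
 (.br (nat_lit 1) (nat_lit 0) (.cons (.br (nat_lit 7) (nat_lit 0) (.cons (.ev (nat_lit 79538856449905298395250098176) (nat_lit 1)) (.cons (.rf (nat_lit 2367) (nat_lit 470843644872736)) .nil))) (.cons (.ev (nat_lit 79538861172271781260600279041) (nat_lit 1)) (.cons (.rf (nat_lit 2330) (nat_lit 14895432319797280)) .nil)))),
 (.br (nat_lit 1) (nat_lit 0) (.cons (.rf (nat_lit 2332) (nat_lit 322404139272224)) .nil)),
 (.br (nat_lit 9) (nat_lit 0) (.cons (.rf (nat_lit 3957) (nat_lit 325702574508064)) (.cons (.br (nat_lit 1) (nat_lit 0) (.cons (.rf (nat_lit 3957) (nat_lit 325702574508064)) .nil)) .nil))),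
 (.br (nat_lit 11) (nat_lit 0) (.cons (.rf (nat_lit 2341) (nat_lit 429130922461216)) (.cons (.rf (nat_lit 2313) (nat_lit 429198534641696)) (.cons (.rf (nat_lit 2315) (nat_lit 14061721530437601312)) .nil)))),
 (.br (nat_lit 1) (nat_lit 0) (.cons (.rf (nat_lit 3959) (nat_lit 15433072045018155040)) (.cons (.rf (nat_lit 2671) (nat_lit 14895500974196768)) (.cons (.rf (nat_lit 2671) (nat_lit 14896531799902240)) (.cons (.br (nat_lit 10) (nat_lit 0) (.cons (.br (nat_lit 13) (nat_lit 0) (.cons (.br (nat_lit 12) (nat_lit 0) (.cons (.ev (nat_lit 40723275537146759366291384304640) (nat_lit 3)) .nil)) (.cons (.zr (nat_lit 1227815286109057725759491) (nat_lit 79537647542532428947886571520) (nat_lit 5) (nat_lit 10)) .nil))) (.cons (.rf (nat_lit 2336) (nat_lit 465484599429152)) (.cons (.br (nat_lit 7) (nat_lit 0) (.cons (.rf (nat_lit 3645) (nat_lit 15251869334277097504)) (.cons (.ev (nat_lit 20282409603651670706521756401664) (nat_lit 1)) .nil))) .nil)))) .nil))))),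
 (.br (nat_lit 1) (nat_lit 0) (.cons (.rf (nat_lit 2341) (nat_lit 465517885425696)) (.cons (.rf (nat_lit 2341) (nat_lit 465449233057824)) (.cons (.br (nat_lit 13) (nat_lit 0) (.cons (.br (nat_lit 12) (nat_lit 0) (.cons (.ev (nat_lit 20282720297587311665120127549441) (nat_lit 1)) .nil)) (.cons (.rf (nat_lit 3660) (nat_lit 15251837281102891040)) .nil))) .nil)))),
 (.br (nat_lit 1) (nat_lit 0) (.cons (.rf (nat_lit 2341) (nat_lit 465517885425696)) (.cons (.rf (nat_lit 2671) (nat_lit 14896566126086176)) (.cons (.br (nat_lit 13) (nat_lit 0) (.cons (.rf (nat_lit 3954) (nat_lit 14235044137780196353)) (.cons (.zr (nat_lit 1218370553143318435332097) (nat_lit 79537647542532428939296505856) (nat_lit 5) (nat_lit 10)) .nil))) .nil)))),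
 (.br (nat_lit 1) (nat_lit 0) (.cons (.rf (nat_lit 3961) (nat_lit 493858305440582043680)) (.cons (.rf (nat_lit 3962) (nat_lit 493858305440582043680)) (.cons (.rf (nat_lit 3960) (nat_lit 492741412732994160672)) (.cons (.br (nat_lit 1) (nat_lit 0) (.cons (.rf (nat_lit 3961) (nat_lit 493858305440582043680)) (.cons (.rf (nat_lit 3962) (nat_lit 493858305440582043680)) (.cons (.rf (nat_lit 3960) (nat_lit 492741412732994160672)) .nil)))) .nil))))),
 (.br (nat_lit 13) (nat_lit 0) (.cons (.br (nat_lit 1) (nat_lit 0) (.cons (.kr (nat_lit 72057594037927937) (nat_lit 20282409603651670425046762913792) (nat_lit 0) (nat_lit 1)) (.cons (.rf (nat_lit 3954) (nat_lit 14235044137780196353)) (.cons (.br (nat_lit 12) (nat_lit 0) (.cons (.br (nat_lit 10) (nat_lit 0) (.cons (.ev (nat_lit 20283341685495703529128066220034) (nat_lit 2)) .nil)) (.cons (.br (nat_lit 7) (nat_lit 0) (.cons (.ev (nat_lit 20283341685495703529128066220034) (nat_lit 2)) .nil)) .nil))) (.cons (.br (nat_lit 7) (nat_lit 0) (.cons (.br (nat_lit 11)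 (nat_lit 0) (.cons (.ev (nat_lit 79537647524158021731300147201) (nat_lit 1)) .nil)) (.cons (.br (nat_lit 10) (nat_lit 0) (.cons (.ev (nat_lit 79229371440156292391244988416) (nat_lit 1)) .nil)) (.cons (.ev (nat_lit 79228162514264337597855695104) (nat_lit 1)) .nil)))) .nil))))) (.cons (.rf (nat_lit 3875) (nat_lit 8254119972907057570)) (.cons (.br (nat_lit 12) (nat_lit 0) (.cons (.rf (nat_lit 3954) (nat_lit 8262069443048342605)) (.cons (.br (nat_lit 12) (nat_lit 0) (.cons (.ev (nat_lit 79228162514264337597855695104) (nat_lit 1)) (.cons (.ev (nat_lit 20361638975091754657644946718721) (nat_lit 1)) .nil))) (.cons (.br (nat_lit 12) (nat_lit 0) (.cons (.ev (nat_lit 20361947255898122872057965379585) (nat_lit 1)) (.cons (.ev (nat_lit 20361638975091754657644946718721) (nat_lit 1)) .nil))) .nil)))) (.cons (.br (nat_lit 1) (nat_lit 0) (.cons (.br (nat_lit 7) (nat_lit 0) (.cons (.br (nat_lit 11) (nat_lit 0) (.cons (.ev (nat_lit 79537647524158021731300147201) (nat_lit 1)) .nil)) (.cons (.br (nat_lit 10) (nat_lit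 0) (.cons (.ev (nat_lit 79229371440156292391244988416) (nat_lit 1)) .nil)) (.cons (.ev (nat_lit 79228167236630820463206007041) (nat_lit 1)) .nil)))) (.cons (.br (nat_lit 11) (nat_lit 0) (.cons (.br (nat_lit 7) (nat_lit 0) (.cons (.ev (nat_lit 203935147226590081587787891609102) (nat_lit 4)) .nil)) (.cons (.kr (nat_lit 158456329750895439531709825026) (nat_lit 618970038089434215454081536) (nat_lit 0) (nat_lit 2)) .nil))) (.cons (.br (nat_lit 10) (nat_lit 0) (.cons (.br (nat_lit 7) (nat_lit 0) (.cons (.ev (nat_lit 121852926041086144208643893232140) (nat_lit 4)) .nil)) (.cons (.kr (nat_lit 2422574005993603004891648) (nat_lit 158456325046975421464115806208) (nat_lit 1) (nat_lit 0)) .nil))) (.cons (.rf (nat_lit 3954) (nat_lit 8262069408722159661)) .nil))))) .nil))))),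
 (.br (nat_lit 13) (nat_lit 0) (.cons (.rf (nat_lit 3964) (nat_lit 493858305440582043680)) (.cons (.rf (nat_lit 3875) (nat_lit 8254119972907057570)) (.cons (.br (nat_lit 1) (nat_lit 0) (.cons (.rf (nat_lit 3875) (nat_lit 14242959524133701664)) (.cons (.rf (nat_lit 3624) (nat_lit 88022020535697506721)) (.cons (.rf (nat_lit 3954) (nat_lit 14235044137780196353)) (.cons (.br (nat_lit 3) (nat_lit 0) (.cons (.br (nat_lit 10) (nat_lit 0) (.cons (.ev (nat_lit 121773690620183122872908808388615) (nat_lit 3)) .nil)) (.cons (.br (nat_lit 7) (nat_lit 0) (.cons (.ev (nat_lit 122649528366960375009633368671746) (nat_lit 4)) .nil)) (.cons (.br (nat_lit 7) (nat_lit 0) (.cons (.ev (nat_lit 79851968329635383800695423489) (nat_lit 3)) .nil)) .nil)))) .nil))))) (.cons (.br (nat_lit 1) (nat_lit 0) (.cons (.rf (nat_lit 3875) (nat_lit 14242959524133701664)) (.cons (.br (nat_lit 10) (nat_lit 0) (.cons (.br (nat_lit 11) (nat_lit 0) (.cons (.ev (nat_lit 79537647524158021731300147201) (nat_lit 1)) .nil)) (.cons (.ev (nat_lit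 20282410812596009121723445149696) (nat_lit 1)) (.cons (.br (nat_lit 3) (nat_lit 0) (.cons (.ev (nat_lit 20361947251175756389184025133056) (nat_lit 1)) .nil)) .nil)))) (.cons (.rf (nat_lit 3954) (nat_lit 14235044137780196353)) (.cons (.br (nat_lit 3) (nat_lit 0) (.cons (.br (nat_lit 10) (nat_lit 0) (.cons (.ev (nat_lit 313111805871330792539423232) (nat_lit 2)) .nil)) (.cons (.br (nat_lit 7) (nat_lit 0) (.cons (.ev (nat_lit 475368979937225802464150946820) (nat_lit 3)) .nil)) (.cons (.br (nat_lit 7) (nat_lit 0) (.cons (.ev (nat_lit 40565129901294466437584735174656) (nat_lit 2)) .nil)) .nil)))) (.cons (.br (nat_lit 3) (nat_lit 0) (.cons (.ev (nat_lit 79228162514264337597855695104) (nat_lit 1)) (.cons (.ev (nat_lit 20282409608392483651994429423873) (nat_lit 1)) (.cons (.rf (nat_lit 3561) (nat_lit 77653642277510578593)) .nil)))) .nil)))))) .nil)))))]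

theorem c145 : chkAll C T R L145 (nat_lit 3943) = true := by decide +kernel

theorem l145 : (nat_lit 3943) + L145.length = (nat_lit 3966) := by decide +kernel

/-- part of the certificates -/
def L146 : List Prf := [(.br (nat_lit 1) (nat_lit 0) (.cons (.rf (nat_lit 3875) (nat_lit 14242959524133701664)) (.cons (.br (nat_lit 13) (nat_lit 0) (.cons (.rf (nat_lit 3964) (nat_lit 493858305440582043680)) (.cons (.rf (nat_lit 3624) (nat_lit 88022020535697506721)) (.cons (.rf (nat_lit 3875) (nat_lit 8254119972907057570)) (.cons (.br (nat_lit 3) (nat_lit 0) (.cons (.br (nat_lit 10) (nat_lit 0) (.cons (.ev (nat_lit 40644047369910056769717723530245) (nat_lit 3)) .nil)) (.cons (.br (nat_lit 7) (nat_lit 0) (.cons (.ev (nat_lit 284908814867727869270868678544898) (nat_lit 4)) .nil)) (.cons (.br (nat_lit 7) (nat_lit 0) (.cons (.ev (nat_lit 81209485547269932672187621377543) (nat_lit 3)) .nil)) .nil)))) .nil))))) (.cons (.rf (nat_lit 3964) (nat_lit 45147608120326160802)) (.cons (.rf (nat_lit 3965) (nat_lit 45147608120326160802))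 .nil))))),
 (.br (nat_lit 13) (nat_lit 0) (.cons (.rf (nat_lit 3964) (nat_lit 493858305440582043680)) (.cons (.rf (nat_lit 3965) (nat_lit 493858305440582043680)) (.cons (.rf (nat_lit 3875) (nat_lit 8254119972907057570)) (.cons (.rf (nat_lit 3966) (nat_lit 493858305440582043680)) (.cons (.br (nat_lit 13) (nat_lit 0) (.cons (.rf (nat_lit 3964) (nat_lit 493858305440582043680)) (.cons (.rf (nat_lit 3965) (nat_lit 493858305440582043680)) (.cons (.rf (nat_lit 3875) (nat_lit 8254119972907057570)) (.cons (.rf (nat_lit 3966) (nat_lit 493858305440582043680)) .nil))))) .nil)))))),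
 (.br (nat_lit 11) (nat_lit 0) (.cons (.rf (nat_lit 3365) (nat_lit 1268089134014333314)) (.cons (.br (nat_lit 1) (nat_lit 0) (.cons (.ev (nat_lit 79537652246452166631425638401) (nat_lit 1)) .nil)) .nil))),
 (.br (nat_lit 13) (nat_lit 0) (.cons (.rf (nat_lit 3967) (nat_lit 493858305440582043680)) (.cons (.rf (nat_lit 3875) (nat_lit 8254119972907057570)) (.cons (.br (nat_lit 7) (nat_lit 0) (.cons (.rf (nat_lit 3968) (nat_lit 15433072045018155040)) (.cons (.rf (nat_lit 2751) (nat_lit 48557939032482)) (.cons (.br (nat_lit 10) (nat_lit 0) (.cons (.br (nat_lit 1) (nat_lit 0) (.cons (.ev (nat_lit 41042045097336387085226195422730) (nat_lit 4)) .nil)) (.cons (.ev (nat_lit 20361947251194202851782758039553) (nat_lit 1)) .nil))) .nil)))) (.cons (.br (nat_lit 7) (nat_lit 0) (.cons (.br (nat_lit 1) (nat_lit 0) (.cons (.br (nat_lit 11) (nat_lit 0) (.cons (.ev (nat_lit 20282720297624421607533277413376) (nat_lit 2)) .nil)) (.cons (.br (nat_lit 10) (nat_lit 0) (.cons (.ev (nat_lit 20282720297624421607533277413376)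 (nat_lit 2)) .nil)) (.cons (.ev (nat_lit 79228162514264337597855695104) (nat_lit 1)) .nil)))) (.cons (.br (nat_lit 11) (nat_lit 0) (.cons (.br (nat_lit 1) (nat_lit 0) (.cons (.ev (nat_lit 284746028170339838693613404422656) (nat_lit 4)) .nil)) (.cons (.ev (nat_lit 79229371458602754989977763841) (nat_lit 1)) .nil))) (.cons (.br (nat_lit 10) (nat_lit 0) (.cons (.br (nat_lit 1) (nat_lit 0) (.cons (.ev (nat_lit 41042045097336387085226195422730) (nat_lit 4)) .nil)) (.cons (.ev (nat_lit 79537647542604484330033053696) (nat_lit 1)) .nil))) (.cons (.kr (nat_lit 72057594037927937) (nat_lit 20282409603651670425046762913792) (nat_lit 0) (nat_lit 1)) .nil))))) .nil))))),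
 (.br (nat_lit 13) (nat_lit 0) (.cons (.rf (nat_lit 3967) (nat_lit 493858305440582043680)) (.cons (.rf (nat_lit 3969) (nat_lit 493858305440582043680)) (.cons (.rf (nat_lit 3875) (nat_lit 8254119972907057570)) (.cons (.br (nat_lit 10) (nat_lit 0) (.cons (.br (nat_lit 1) (nat_lit 0) (.cons (.br (nat_lit 7) (nat_lit 0) (.cons (.ev (nat_lit 203935156898144788909332682114566) (nat_lit 4)) .nil)) (.cons (.rf (nat_lit 3968) (nat_lit 1410862753760215458)) .nil))) (.cons (.br (nat_lit 1) (nat_lit 0) (.cons (.br (nat_lit 1) (nat_lit 0) (.cons (.ev (nat_lit 79228162514264337597855695104) (nat_lit 1)) .nil)) (.cons (.br (nat_lit 1) (nat_lit 0) (.cons (.ev (nat_lit 79228162514264337597855695104) (nat_lit 1)) .nil)) .nil))) (.cons (.ev (nat_lit 20361638979814121140518886834176) (nat_lit 1)) .nil)))) .nil))))),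
 (.br (nat_lit 13) (nat_lit 0) (.cons (.rf (nat_lit 3967) (nat_lit 493858305440582043680)) (.cons (.rf (nat_lit 3969) (nat_lit 493858305440582043680)) (.cons (.rf (nat_lit 3875) (nat_lit 8254119972907057570)) (.cons (.rf (nat_lit 3970) (nat_lit 493858305440582043680)) (.cons (.br (nat_lit 13) (nat_lit 0) (.cons (.rf (nat_lit 3967) (nat_lit 493858305440582043680)) (.cons (.rf (nat_lit 3969) (nat_lit 493858305440582043680)) (.cons (.rf (nat_lit 3875) (nat_lit 8254119972907057570)) (.cons (.rf (nat_lit 3970) (nat_lit 493858305440582043680)) .nil))))) .nil)))))),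
 (.br (nat_lit 1) (nat_lit 0) (.cons (.ev (nat_lit 20282719088680010853262523695105) (nat_lit 1)) (.cons (.ev (nat_lit 20282410817299928579040109133824) (nat_lit 1)) (.cons (.br (nat_lit 3) (nat_lit 0) (.cons (.ev (nat_lit 20440869555457802341896841003265) (nat_lit 2)) .nil)) .nil)))),
 (.br (nat_lit 13) (nat_lit 0) (.cons (.rf (nat_lit 3967) (nat_lit 493858305440582043680)) (.cons (.rf (nat_lit 3971) (nat_lit 493858305440582043680)) (.cons (.rf (nat_lit 3875) (nat_lit 8254119972907057570)) (.cons (.br (nat_lit 1) (nat_lit 0) (.cons (.rf (nat_lit 3875) (nat_lit 14242959524133701664)) (.cons (.rf (nat_lit 3972) (nat_lit 493858305440582043680)) (.cons (.rf (nat_lit 3971) (nat_lit 45147608120326160802)) (.cons (.br (nat_lit 1) (nat_lit 0) (.cons (.rf (nat_lit 3875) (nat_lit 14242959524133701664)) (.cons (.rf (nat_lit 3972) (nat_lit 493858305440582043680)) (.cons (.rf (nat_lit 3968) (nat_lit 1410862753760215458)) .nil)))) .nil))))) .nil))))),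
 (.br (nat_lit 13) (nat_lit 0) (.cons (.rf (nat_lit 3967) (nat_lit 493858305440582043680)) (.cons (.rf (nat_lit 3971) (nat_lit 493858305440582043680)) (.cons (.rf (nat_lit 3875) (nat_lit 8254119972907057570)) (.cons (.rf (nat_lit 3973) (nat_lit 493858305440582043680)) (.cons (.br (nat_lit 13) (nat_lit 0) (.cons (.rf (nat_lit 3967) (nat_lit 493858305440582043680)) (.cons (.rf (nat_lit 3971) (nat_lit 493858305440582043680)) (.cons (.rf (nat_lit 3875) (nat_lit 8254119972907057570)) (.cons (.rf (nat_lit 3973) (nat_lit 493858305440582043680)) .nil))))) .nil)))))),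
 (.br (nat_lit 1) (nat_lit 0) (.cons (.rf (nat_lit 3875) (nat_lit 14242959524133701664)) (.cons (.br (nat_lit 1) (nat_lit 0) (.cons (.rf (nat_lit 3875) (nat_lit 14242959524133701664)) (.cons (.rf (nat_lit 3971) (nat_lit 45147608120326160802)) (.cons (.rf (nat_lit 3974) (nat_lit 45147608120326160802)) (.cons (.rf (nat_lit 3967) (nat_lit 493858305440582043680)) .nil))))) (.cons (.rf (nat_lit 3971) (nat_lit 45147608120326160802)) (.cons (.rf (nat_lit 3974) (nat_lit 45147608120326160802)) (.cons (.rf (nat_lit 3967) (nat_lit 493858305440582043680)) .nil)))))),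
 (.br (nat_lit 2) (nat_lit 0) (.cons (.rf (nat_lit 3536) (nat_lit 14242959524133701664)) (.cons (.rf (nat_lit 3875) (nat_lit 14242959524133700672)) (.cons (.rf (nat_lit 3954) (nat_lit 14242959524133701664)) (.cons (.br (nat_lit 3) (nat_lit 0) (.cons (.rf (nat_lit 3875) (nat_lit 14242959524133701664)) (.cons (.br (nat_lit 11) (nat_lit 0) (.cons (.rf (nat_lit 3955) (nat_lit 14242959524133701664)) (.cons (.br (nat_lit 12) (nat_lit 0) (.cons (.rf (nat_lit 3955) (nat_lit 13126066816545818656)) (.cons (.ev (nat_lit 310693972535014102447226881) (nat_lit 2)) (.cons (.rf (nat_lit 3131) (nat_lit 465450013198368)) .nil)))) (.cons (.br (nat_lit 12) (nat_lit 0) (.cons (.ev (nat_lit 79229385644077455240497070080) (nat_lit 2)) (.cons (.ev (nat_lit 79229371476978006627266396161) (nat_lit 2)) (.cons (.rf (nat_lit 2688) (nat_lit 469745209018400)) .nil)))) (.cons (.kr (nat_lit 309485009821345068724781056) (nat_lit 79228162514264337593543950336) (nat_lit 11) (nat_lit 0)) (.cons (.br (nat_lit 12) (nat_lit 0) (.cons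 (.rf (nat_lit 3955) (nat_lit 13126066816545818656)) (.cons (.rf (nat_lit 3131) (nat_lit 465448940505120)) (.cons (.rf (nat_lit 2688) (nat_lit 470843646904352)) (.cons (.br (nat_lit 7) (nat_lit 0) (.cons (.br (nat_lit 1) (nat_lit 0) (.cons (.ev (nat_lit 72339069031416064) (nat_lit 1)) (.cons (.br (nat_lit 10) (nat_lit 0) (.cons (.ev (nat_lit 203301331597845626366479618015744) (nat_lit 4)) .nil)) .nil))) (.cons (.rf (nat_lit 3131) (nat_lit 465517657884704)) (.cons (.br (nat_lit 1) (nat_lit 0) (.cons (.br (nat_lit 1) (nat_lit 0) (.cons (.ev (nat_lit 18518801667764322561) (nat_lit 1)) .nil)) (.cons (.br (nat_lit 1) (nat_lit 0) (.cons (.ev (nat_lit 18518801667764322561) (nat_lit 1)) .nil)) .nil))) .nil)))) .nil))))) .nil)))))) (.cons (.br (nat_lit 11) (nat_lit 0) (.cons (.rf (nat_lit 3956) (nat_lit 14242959524133701664)) (.cons (.br (nat_lit 12) (nat_lit 0) (.cons (.ev (nat_lit 79538856449905298395250098176) (nat_lit 1)) (.cons (.ev (nat_lit 79538861172271781260600279041) (nat_lit 1)) (.cons (.rf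 (nat_lit 3958) (nat_lit 470979911452704)) .nil)))) (.cons (.ev (nat_lit 621392648990048471511859202) (nat_lit 3)) (.cons (.br (nat_lit 12) (nat_lit 0) (.cons (.rf (nat_lit 3956) (nat_lit 13126066816545818656)) (.cons (.rf (nat_lit 3958) (nat_lit 469914759563296)) (.cons (.ev (nat_lit 79538856468352323943936294913) (nat_lit 1)) .nil)))) .nil))))) (.cons (.ev (nat_lit 309485028268370621722853376) (nat_lit 1)) (.cons (.ev (nat_lit 79228162532711363146542022656) (nat_lit 1)) (.cons (.br (nat_lit 11) (nat_lit 0) (.cons (.rf (nat_lit 3960) (nat_lit 493858305440582043680)) (.cons (.rf (nat_lit 3963) (nat_lit 493858305440582043680)) (.cons (.br (nat_lit 12) (nat_lit 0) (.cons (.rf (nat_lit 3960) (nat_lit 492741412732994160672)) (.cons (.rf (nat_lit 3963) (nat_lit 492741412732994160672)) (.cons (.ev (nat_lit 79229371476978006627266396161) (nat_lit 2)) .nil)))) (.cons (.kr (nat_lit 309485009821345068724781056) (nat_lit 79228162514264337593543950336) (nat_lit 11) (nat_lit 0)) (.cons (.br (nat_lit 12) (nat_lit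 0) (.cons (.rf (nat_lit 3960) (nat_lit 492741412732994160672)) (.cons (.rf (nat_lit 3963) (nat_lit 492741412732994160672)) (.cons (.ev (nat_lit 310693972535014102447226881) (nat_lit 2)) (.cons (.br (nat_lit 10) (nat_lit 0) (.cons (.br (nat_lit 7) (nat_lit 0) (.cons (.br (nat_lit 7) (nat_lit 0) (.cons (.ev (nat_lit 285067276028458954135358476517902) (nat_lit 4)) .nil)) (.cons (.br (nat_lit 1) (nat_lit 0) (.cons (.ev (nat_lit 285067276028458954135358476517902) (nat_lit 4)) .nil)) .nil))) (.cons (.br (nat_lit 1) (nat_lit 0) (.cons (.br (nat_lit 1) (nat_lit 0) (.cons (.ev (nat_lit 41360210194653535579543154460172) (nat_lit 4)) .nil)) (.cons (.br (nat_lit 1) (nat_lit 0) (.cons (.ev (nat_lit 41360210194653535579543154460172) (nat_lit 4)) .nil)) .nil))) (.cons (.ev (nat_lit 20361947251194202851782758039553) (nat_lit 1)) .nil)))) .nil))))) .nil)))))) .nil))))))) (.cons (.br (nat_lit 13) (nat_lit 0) (.cons (.rf (nat_lit 3967) (nat_lit 493858305440582043680)) (.cons (.rf (nat_lit 3971) (nat_lit 493858305440582043680))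 (.cons (.rf (nat_lit 3974) (nat_lit 493858305440582043680)) (.cons (.rf (nat_lit 3875) (nat_lit 8254119972907057570)) (.cons (.rf (nat_lit 3975) (nat_lit 493858305440582043680)) (.cons (.br (nat_lit 13) (nat_lit 0) (.cons (.rf (nat_lit 3967) (nat_lit 493858305440582043680)) (.cons (.rf (nat_lit 3971) (nat_lit 493858305440582043680)) (.cons (.rf (nat_lit 3974) (nat_lit 493858305440582043680)) (.cons (.rf (nat_lit 3875) (nat_lit 8254119972907057570)) (.cons (.rf (nat_lit 3975) (nat_lit 493858305440582043680)) .nil)))))) .nil))))))) .nil)))))),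
 (.br (nat_lit 2) (nat_lit 0) (.cons (.rf (nat_lit 3536) (nat_lit 14242959524133701664)) (.cons (.rf (nat_lit 3875) (nat_lit 14242959524133700672)) (.cons (.rf (nat_lit 3954) (nat_lit 14242959524133701664)) (.cons (.rf (nat_lit 3976) (nat_lit 14242959524133701664)) (.cons (.rf (nat_lit 3976) (nat_lit 13126066816545818656)) (.cons (.br (nat_lit 2) (nat_lit 0) (.cons (.rf (nat_lit 1943) (nat_lit 427010)) (.cons (.rf (nat_lit 3875) (nat_lit 14242959524133700672)) (.cons (.rf (nat_lit 3954) (nat_lit 14242959524133701664)) (.cons (.rf (nat_lit 3976) (nat_lit 14242959524133701664)) (.cons (.rf (nat_lit 3976) (nat_lit 13126066816545818656)) .nil)))))) .nil))))))),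
 (.br (nat_lit 8) (nat_lit 0) (.cons (.br (nat_lit 8) (nat_lit 0) .nil) .nil)),
 (.br (nat_lit 12) (nat_lit 0) (.cons (.ev (nat_lit 79537652264970967203973169408) (nat_lit 1)) (.cons (.zr (nat_lit 3626777459406841822838788) (nat_lit 159075295066618113796293526272) (nat_lit 5) (nat_lit 3)) (.cons (.br (nat_lit 13) (nat_lit 0) (.cons (.br (nat_lit 10) (nat_lit 0) (.cons (.ev (nat_lit 40723275537109866441093918230020) (nat_lit 3)) .nil)) (.cons (.br (nat_lit 7) (nat_lit 0) (.cons (.ev (nat_lit 40723275537109866441093918230020) (nat_lit 3)) .nil)) .nil))) .nil)))),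
 (.br (nat_lit 12) (nat_lit 0) (.cons (.br (nat_lit 11) (nat_lit 0) (.cons (.ev (nat_lit 79228167255149622130936643841) (nat_lit 1)) .nil)) (.cons (.rf (nat_lit 2639) (nat_lit 1336696390973489538)) .nil))),
 (.br (nat_lit 7) (nat_lit 0) (.cons (.rf (nat_lit 3980) (nat_lit 15398169112437950496)) (.cons (.br (nat_lit 12) (nat_lit 0) (.cons (.ev (nat_lit 40566064405712433761353233072130) (nat_lit 3)) .nil)) .nil))),
 (.br (nat_lit 3) (nat_lit 0) (.cons (.rf (nat_lit 2752) (nat_lit 15001983984437280)) (.cons (.br (nat_lit 12) (nat_lit 0) (.cons (.rf (nat_lit 2768) (nat_lit 468777834743840)) (.cons (.rf (nat_lit 3940) (nat_lit 465482521085984)) (.cons (.br (nat_lit 13) (nat_lit 0) (.cons (.br (nat_lit 10) (nat_lit 0) (.cons (.ev (nat_lit 20282410812577562096174758953216) (nat_lit 1)) .nil)) (.cons (.br (nat_lit 7) (nat_lit 0) (.cons (.ev (nat_lit 20282410812577562096174758953216) (nat_lit 1)) .nil)) .nil))) .nil)))) (.cons (.rf (nat_lit 2767) (nat_lit 468777834743840)) (.cons (.br (nat_lit 10) (nat_lit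 0) (.cons (.br (nat_lit 13) (nat_lit 0) (.cons (.ev (nat_lit 311902898426403746826289921) (nat_lit 2)) (.cons (.ev (nat_lit 158765824260861758688538394881) (nat_lit 2)) .nil))) (.cons (.br (nat_lit 7) (nat_lit 0) (.cons (.ev (nat_lit 1208944266641281667563776) (nat_lit 1)) (.cons (.br (nat_lit 10) (nat_lit 0) (.cons (.ev (nat_lit 20282410812577562096174758953216) (nat_lit 1)) .nil)) .nil))) (.cons (.br (nat_lit 7) (nat_lit 0) (.cons (.ev (nat_lit 311902898426403746826289921) (nat_lit 2)) (.cons (.rf (nat_lit 2619) (nat_lit 1345565982634344866)) (.cons (.rf (nat_lit 2850) (nat_lit 15398165817124292640)) .nil)))) .nil)))) .nil))))),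
 (.br (nat_lit 13) (nat_lit 0) (.cons (.br (nat_lit 12) (nat_lit 0) (.cons (.ev (nat_lit 285066652222736755255918316880398) (nat_lit 4)) .nil)) (.cons (.br (nat_lit 10) (nat_lit 0) (.cons (.ev (nat_lit 285066652222736755255918316880398) (nat_lit 4)) .nil)) .nil))),
 (.br (nat_lit 7) (nat_lit 0) (.cons (.rf (nat_lit 3983) (nat_lit 493858305440582043680)) (.cons (.br (nat_lit 10) (nat_lit 0) (.cons (.zr (nat_lit 159075295048460440129914732548) (nat_lit 3636295978785921703086080) (nat_lit 15) (nat_lit 2)) .nil)) .nil))),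
 (.br (nat_lit 10) (nat_lit 0) (.cons (.rf (nat_lit 3983) (nat_lit 493858305440582043680)) (.cons (.rf (nat_lit 3984) (nat_lit 493858305440582043680)) (.cons (.br (nat_lit 10) (nat_lit 0) (.cons (.rf (nat_lit 3983) (nat_lit 493858305440582043680)) (.cons (.rf (nat_lit 3984) (nat_lit 493858305440582043680)) .nil))) .nil)))),
 (.br (nat_lit 3) (nat_lit 0) (.cons (.br (nat_lit 10) (nat_lit 0) (.cons (.ev (nat_lit 158765810093762310075307983106) (nat_lit 2)) (.cons (.br (nat_lit 12) (nat_lit 0) (.cons (.zr (nat_lit 4835832621839844911349768) (nat_lit 160003768967102468904315846912) (nat_lit 30) (nat_lit 3)) .nil)) .nil))) (.cons (.rf (nat_lit 3985) (nat_lit 492741412732994160672)) (.cons (.br (nat_lit 12) (nat_lit 0) (.cons (.br (nat_lit 10) (nat_lit 0) (.cons (.ev (nat_lit 81446558322959614364163214934020) (nat_lit 3)) .nil)) (.cons (.ev (nat_lit 158765810093762310075307983106) (nat_lit 2)) .nil))) .nil)))),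
 (.br (nat_lit 12) (nat_lit 0) (.cons (.rf (nat_lit 3985) (nat_lit 492741412732994160672)) (.cons (.rf (nat_lit 3986) (nat_lit 492741412732994160672)) (.cons (.br (nat_lit 13) (nat_lit 0) (.cons (.br (nat_lit 7) (nat_lit 0) (.cons (.ev (nat_lit 318157848466005020528720479232) (nat_lit 3)) .nil)) (.cons (.br (nat_lit 3) (nat_lit 0) (.cons (.ev (nat_lit 318157848466005020528720479232) (nat_lit 3)) .nil)) .nil))) (.cons (.br (nat_lit 3) (nat_lit 0) (.cons (.br (nat_lit 10) (nat_lit 0) (.cons (.ev (nat_lit 284430341370989362473006657045006) (nat_lit 4)) .nil)) (.cons (.br (nat_lit 7) (nat_lit 0) (.cons (.ev (nat_lit 20361637766184453845787342864385) (nat_lit 1)) .nil)) (.cons (.br (nat_lit 7) (nat_lit 0) (.cons (.ev (nat_lit 158458747657876033521150199300) (nat_lit 3)) .nil)) .nil)))) .nil)))))]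

theorem c146 : chkAll C T R L146 (nat_lit 3966) = true := by decide +kernel

theorem l146 : (nat_lit 3966) + L146.length = (nat_lit 3988) := by decide +kernel

/-- part of the certificates -/
def L147 : List Prf := [(.br (nat_lit 10) (nat_lit 0) (.cons (.ev (nat_lit 20361947251175756389184025133313) (nat_lit 1)) (.cons (.br (nat_lit 3) (nat_lit 0) (.cons (.ev (nat_lit 20361947251175756389184025133313) (nat_lit 1)) .nil)) .nil))),
 (.br (nat_lit 1) (nat_lit 0) (.cons (.rf (nat_lit 3875) (nat_lit 14242959524133701664)) (.cons (.br (nat_lit 3) (nat_lit 0) (.cons (.ev (nat_lit 72339069031416064) (nat_lit 1)) (.cons (.br (nat_lit 11) (nat_lit 0) (.cons (.rf (nat_lit 3978) (nat_lit 14682585925664)) (.cons (.zr (nat_lit 1208981159846858910072835) (nat_lit 928455029464319979685937408) (nat_lit 10) (nat_lit 3)) (.cons (.br (nat_lit 7) (nat_lit 0) (.cons (.rf (nat_lit 3978) (nat_lit 14716945664032)) (.cons (.br (nat_lit 12) (nat_lit 0) (.cons (.ev (nat_lit 20361947255898122872057965379840) (nat_lit 1))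 .nil)) .nil))) .nil)))) (.cons (.rf (nat_lit 3979) (nat_lit 493858305440582043680)) (.cons (.rf (nat_lit 3979) (nat_lit 492741412732994160672)) (.cons (.br (nat_lit 11) (nat_lit 0) (.cons (.rf (nat_lit 3980) (nat_lit 15433072009550071840)) (.cons (.rf (nat_lit 3981) (nat_lit 493858305440582043680)) (.cons (.kr (nat_lit 309485009821345068724781056) (nat_lit 79228162514264337593543950336) (nat_lit 11) (nat_lit 0)) (.cons (.br (nat_lit 12) (nat_lit 0) (.cons (.rf (nat_lit 2639) (nat_lit 1336696425401385378)) (.cons (.rf (nat_lit 3981) (nat_lit 492741412732994160672)) (.cons (.br (nat_lit 7) (nat_lit 0) (.cons (.ev (nat_lit 477228307774005006537207447558) (nat_lit 3)) .nil)) .nil)))) .nil))))) .nil)))))) (.cons (.rf (nat_lit 3982) (nat_lit 493858305440582043680)) (.cons (.rf (nat_lit 3982) (nat_lit 492741412732994160672)) (.cons (.br (nat_lit 11) (nat_lit 0) (.cons (.rf (nat_lit 3985) (nat_lit 493858305440582043680)) (.cons (.rf (nat_lit 3986) (nat_lit 493858305440582043680)) (.cons (.rf (nat_lit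 3987) (nat_lit 493858305440582043680)) (.cons (.kr (nat_lit 309485009821345068724781056) (nat_lit 79228162514264337593543950336) (nat_lit 11) (nat_lit 0)) (.cons (.br (nat_lit 12) (nat_lit 0) (.cons (.rf (nat_lit 3985) (nat_lit 492741412732994160672)) (.cons (.rf (nat_lit 3986) (nat_lit 492741412732994160672)) (.cons (.rf (nat_lit 3987) (nat_lit 492741412732994160672)) (.cons (.rf (nat_lit 3988) (nat_lit 493858305440582043680)) .nil))))) .nil)))))) .nil)))))),
 (.br (nat_lit 7) (nat_lit 0) (.cons (.ev (nat_lit 310693954159762465158594561) (nat_lit 1)) (.cons (.br (nat_lit 12) (nat_lit 0) (.cons (.ev (nat_lit 163051570548429095584984633704966) (nat_lit 4)) .nil)) .nil))),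
 (.br (nat_lit 7) (nat_lit 0) (.cons (.ev (nat_lit 310693954159762465158594561) (nat_lit 1)) (.cons (.br (nat_lit 10) (nat_lit 0) (.cons (.ev (nat_lit 81921932133822702115173733761546) (nat_lit 4)) .nil)) .nil))),
 (.br (nat_lit 3) (nat_lit 0) (.cons (.br (nat_lit 12) (nat_lit 0) (.cons (.ev (nat_lit 79537652264970967203973169408) (nat_lit 1)) (.cons (.rf (nat_lit 2768) (nat_lit 465482521085984)) (.cons (.br (nat_lit 13) (nat_lit 0) (.cons (.br (nat_lit 10) (nat_lit 0) (.cons (.ev (nat_lit 796007539260087327733907197446) (nat_lit 4)) .nil)) (.cons (.ev (nat_lit 159696687660270749211737984526) (nat_lit 4)) .nil))) .nil)))) (.cons (.rf (nat_lit 2752) (nat_lit 14896531799902240)) (.cons (.rf (nat_lit 2767) (nat_lit 465482521085984)) (.cons (.br (nat_lit 7) (nat_lit 0) (.cons (.rf (nat_lit 3990) (nat_lit 493858305440582043680)) (.cons (.rf (nat_lit 3991) (nat_lit 493858305440582043680)) (.cons (.br (nat_lit 7) (nat_lit 0) (.cons (.rf (nat_lit 3990) (nat_lit 493858305440582043680)) (.cons (.rf (nat_lit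 3991) (nat_lit 493858305440582043680)) .nil))) .nil)))) .nil))))),
 (.br (nat_lit 13) (nat_lit 0) (.cons (.rf (nat_lit 3977) (nat_lit 14235044137780196353)) (.cons (.rf (nat_lit 3954) (nat_lit 14235044137780196353)) (.cons (.rf (nat_lit 3875) (nat_lit 14235044137780183457)) (.cons (.rf (nat_lit 3988) (nat_lit 493854927843940730912)) .nil))))),
 (.br (nat_lit 1) (nat_lit 0) (.cons (.rf (nat_lit 3875) (nat_lit 14242959524133701664)) (.cons (.rf (nat_lit 3989) (nat_lit 493858305440582043680)) (.cons (.rf (nat_lit 3992) (nat_lit 493858305440582043680)) (.cons (.rf (nat_lit 3992) (nat_lit 492741412732994160672)) (.cons (.br (nat_lit 13) (nat_lit 0) (.cons (.rf (nat_lit 3977) (nat_lit 14235044137780196353)) (.cons (.rf (nat_lit 3954) (nat_lit 14235044137780196353)) (.cons (.rf (nat_lit 3875) (nat_lit 14235044137780183457)) (.cons (.rf (nat_lit 3993) (nat_lit 493858305440582043680)) (.cons (.rf (nat_lit 3993) (nat_lit 492741412732994160672)) .nil)))))) .nil)))))),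
 (.br (nat_lit 7) (nat_lit 0) (.cons (.br (nat_lit 7) (nat_lit 0) (.cons (.zr (nat_lit 79537647524301855444382515969) (nat_lit 4722367046923405426688) (nat_lit 5) (nat_lit 1)) .nil)) (.cons (.br (nat_lit 10) (nat_lit 0) (.cons (.zr (nat_lit 79537647524301855444382515969) (nat_lit 4722367046923405426688) (nat_lit 5) (nat_lit 1)) (.cons (.zr (nat_lit 60926766458479096956703045845760) (nat_lit 4722367045823893798914) (nat_lit 5) (nat_lit 1)) .nil))) .nil))),
 (.br (nat_lit 7) (nat_lit 0) (.cons (.ev (nat_lit 79537652246524504605240393985) (nat_lit 1)) (.cons (.zr (nat_lit 79537647524301855444382515969) (nat_lit 4722367046923405426688) (nat_lit 5) (nat_lit 1)) .nil))),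
 (.br (nat_lit 10) (nat_lit 0) (.cons (.ev (nat_lit 317531624891444640417233371652) (nat_lit 3)) (.cons (.br (nat_lit 12) (nat_lit 0) (.cons (.ev (nat_lit 79541274357101495615402016770) (nat_lit 2)) .nil)) .nil))),
 (.br (nat_lit 10) (nat_lit 0) (.cons (.rf (nat_lit 3997) (nat_lit 493858305440582043680)) (.cons (.br (nat_lit 10) (nat_lit 0) (.cons (.ev (nat_lit 317531624891444640417233371652) (nat_lit 3)) (.cons (.ev (nat_lit 1208944266641281667563776) (nat_lit 1)) .nil))) (.cons (.br (nat_lit 10) (nat_lit 0) (.cons (.rf (nat_lit 3997) (nat_lit 493858305440582043680)) (.cons (.ev (nat_lit 1208944266641281667563776) (nat_lit 1)) .nil))) .nil)))),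
 (.br (nat_lit 7) (nat_lit 0) (.cons (.rf (nat_lit 3998) (nat_lit 493858305440582043680)) (.cons (.br (nat_lit 3) (nat_lit 0) (.cons (.ev (nat_lit 83576668724602695324099217160) (nat_lit 4)) (.cons (.br (nat_lit 10) (nat_lit 0) (.cons (.ev (nat_lit 20282721506550024771199551275776) (nat_lit 2)) .nil)) .nil))) (.cons (.br (nat_lit 3) (nat_lit 0) (.cons (.rf (nat_lit 2631) (nat_lit 15433068714169370656)) (.cons (.ev (nat_lit 79537652264970967203973169408) (nat_lit 1)) (.cons (.br (nat_lit 10) (nat_lit 0) (.cons (.ev (nat_lit 20282410812577562096174758953216) (nat_lit 1)) .nil)) .nil)))) .nil)))),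
 (.br (nat_lit 7) (nat_lit 0) (.cons (.rf (nat_lit 3998) (nat_lit 493858305440582043680)) (.cons (.rf (nat_lit 3999) (nat_lit 493858305440582043680)) (.cons (.br (nat_lit 10) (nat_lit 0) (.cons (.br (nat_lit 10) (nat_lit 0) (.cons (.ev (nat_lit 20361637766166006820238656536576) (nat_lit 1)) .nil)) (.cons (.br (nat_lit 3) (nat_lit 0) (.cons (.ev (nat_lit 20361637766166006820238656536576) (nat_lit 1)) .nil)) .nil))) .nil)))),
 (.br (nat_lit 1) (nat_lit 0) (.cons (.rf (nat_lit 3875) (nat_lit 14242959524133701664)) (.cons (.rf (nat_lit 3989) (nat_lit 493858305440582043680)) (.cons (.rf (nat_lit 3994) (nat_lit 493858305440582043680)) (.cons (.br (nat_lit 13) (nat_lit 0) (.cons (.rf (nat_lit 3995) (nat_lit 493858305440582043680)) (.cons (.rf (nat_lit 3996) (nat_lit 493858305440582043680)) (.cons (.br (nat_lit 13) (nat_lit 0) (.cons (.rf (nat_lit 3995) (nat_lit 493858305440582043680)) (.cons (.rf (nat_lit 3996) (nat_lit 493858305440582043680)) .nil))) .nil)))) (.cons (.br (nat_lit 7) (nat_lit 0) (.cons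 (.rf (nat_lit 3998) (nat_lit 493858305440582043680)) (.cons (.rf (nat_lit 3999) (nat_lit 493858305440582043680)) (.cons (.rf (nat_lit 4000) (nat_lit 493858305440582043680)) (.cons (.br (nat_lit 7) (nat_lit 0) (.cons (.rf (nat_lit 3998) (nat_lit 493858305440582043680)) (.cons (.rf (nat_lit 3999) (nat_lit 493858305440582043680)) (.cons (.rf (nat_lit 4000) (nat_lit 493858305440582043680)) .nil)))) .nil))))) .nil)))))),
 (.br (nat_lit 2) (nat_lit 0) (.cons (.rf (nat_lit 3536) (nat_lit 14242959524133701664)) (.cons (.rf (nat_lit 3875) (nat_lit 14242959524133700672)) (.cons (.rf (nat_lit 3954) (nat_lit 14242959524133701664)) (.cons (.rf (nat_lit 3977) (nat_lit 14242959524133701664)) (.cons (.br (nat_lit 1) (nat_lit 0) (.cons (.rf (nat_lit 3875) (nat_lit 14242959524133701664)) (.cons (.rf (nat_lit 3989) (nat_lit 493858305440582043680)) (.cons (.rf (nat_lit 3994) (nat_lit 493858305440582043680)) (.cons (.rf (nat_lit 4001) (nat_lit 493858305440582043680)) (.cons (.rf (nat_lit 4001) (nat_lit 492741412732994160672))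 (.cons (.br (nat_lit 1) (nat_lit 0) (.cons (.rf (nat_lit 3875) (nat_lit 14242959524133701664)) (.cons (.rf (nat_lit 3989) (nat_lit 493858305440582043680)) (.cons (.rf (nat_lit 3994) (nat_lit 493858305440582043680)) (.cons (.rf (nat_lit 4001) (nat_lit 493858305440582043680)) (.cons (.rf (nat_lit 4001) (nat_lit 492741412732994160672)) .nil)))))) .nil))))))) .nil)))))),
 (.br (nat_lit 2) (nat_lit 0) (.cons (.rf (nat_lit 3536) (nat_lit 14242959524133701664)) (.cons (.rf (nat_lit 3875) (nat_lit 14242959524133700672)) (.cons (.rf (nat_lit 3954) (nat_lit 14242959524133701664)) (.cons (.rf (nat_lit 3977) (nat_lit 14242959524133701664)) (.cons (.rf (nat_lit 4002) (nat_lit 14242959524133701664)) (.cons (.br (nat_lit 2) (nat_lit 0) (.cons (.rf (nat_lit 1943) (nat_lit 427010)) (.cons (.rf (nat_lit 3875) (nat_lit 14242959524133700672)) (.cons (.rf (nat_lit 3954) (nat_lit 14242959524133701664)) (.cons (.rf (nat_lit 3977) (nat_lit 14242959524133701664)) (.cons (.rf (nat_lit 4002) (nat_lit 14242959524133701664))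 .nil)))))) .nil))))))),
 (.br (nat_lit 2) (nat_lit 0) (.cons (.rf (nat_lit 3536) (nat_lit 14242959524133701664)) (.cons (.rf (nat_lit 3875) (nat_lit 14242959524133700672)) (.cons (.rf (nat_lit 3954) (nat_lit 14242959524133701664)) (.cons (.rf (nat_lit 3977) (nat_lit 14242959524133701664)) (.cons (.rf (nat_lit 4003) (nat_lit 14242959524133701664)) (.cons (.rf (nat_lit 4003) (nat_lit 13126066816545818656)) (.cons (.br (nat_lit 2) (nat_lit 0) (.cons (.rf (nat_lit 1943) (nat_lit 427010)) (.cons (.rf (nat_lit 3875) (nat_lit 14242959524133700672)) (.cons (.rf (nat_lit 3954) (nat_lit 14242959524133701664)) (.cons (.rf (nat_lit 3977) (nat_lit 14242959524133701664)) (.cons (.rf (nat_lit 4003) (nat_lit 14242959524133701664)) (.cons (.rf (nat_lit 4003) (nat_lit 13126066816545818656)) .nil))))))) .nil)))))))),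
 (.br (nat_lit 5) (nat_lit 0) (.cons (.ev (nat_lit 1240362705669216035959734272) (nat_lit 3)) (.cons (.rf (nat_lit 2862) (nat_lit 470979909421088)) .nil))),
 (.br (nat_lit 2) (nat_lit 0) (.cons (.rf (nat_lit 3875) (nat_lit 14242959524133700672)) (.cons (.rf (nat_lit 4004) (nat_lit 14242959524133700672)) (.cons (.br (nat_lit 12) (nat_lit 0) (.cons (.br (nat_lit 5) (nat_lit 0) (.cons (.ev (nat_lit 79229376180969237863918010625) (nat_lit 1)) (.cons (.rf (nat_lit 3259) (nat_lit 470979779397664)) .nil))) (.cons (.br (nat_lit 3) (nat_lit 0) (.cons (.ev (nat_lit 79229376180969237863918010625) (nat_lit 1)) (.cons (.rf (nat_lit 3259) (nat_lit 470979846440992)) .nil))) (.cons (.rf (nat_lit 3299) (nat_lit 469842759092256)) .nil)))) (.cons (.br (nat_lit 3) (nat_lit 0) (.cons (.br (nat_lit 11) (nat_lit 0) (.cons (.ev (nat_lit 79538861172271781260600344833) (nat_lit 1)) (.cons (.br (nat_lit 13) (nat_lit 0) (.cons (.kr (nat_lit 79228162514264337593543950592) (nat_lit 309485009821345068724846592) (nat_lit 1)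 (nat_lit 0)) .nil)) .nil))) (.cons (.rf (nat_lit 4005) (nat_lit 14242959524133701664)) (.cons (.rf (nat_lit 4005) (nat_lit 13126066816545817664)) (.cons (.br (nat_lit 5) (nat_lit 0) (.cons (.rf (nat_lit 2862) (nat_lit 470979911452704)) (.cons (.rf (nat_lit 2862) (nat_lit 469914759562304)) (.cons (.br (nat_lit 11) (nat_lit 0) (.cons (.rf (nat_lit 2868) (nat_lit 470946625456160)) (.cons (.br (nat_lit 12) (nat_lit 0) (.cons (.ev (nat_lit 202825348488555225218729376483338) (nat_lit 4)) .nil)) .nil))) .nil)))) .nil))))) (.cons (.br (nat_lit 3) (nat_lit 0) (.cons (.rf (nat_lit 2873) (nat_lit 15070293157578784)) (.cons (.rf (nat_lit 2889) (nat_lit 15070155852843040)) (.cons (.br (nat_lit 5) (nat_lit 0) (.cons (.ev (nat_lit 1859332651669608042369909250) (nat_lit 3)) (.cons (.rf (nat_lit 2890) (nat_lit 470942464706592)) (.cons (.br (nat_lit 11) (nat_lit 0) (.cons (.ev (nat_lit 79538856449905298395250098176) (nat_lit 1)) (.cons (.br (nat_lit 12) (nat_lit 0) (.cons (.ev (nat_lit 20282409603651670706521756401921)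 (nat_lit 1)) .nil)) .nil))) .nil)))) (.cons (.br (nat_lit 5) (nat_lit 0) (.cons (.rf (nat_lit 2888) (nat_lit 470942462674976)) (.cons (.br (nat_lit 13) (nat_lit 0) (.cons (.br (nat_lit 12) (nat_lit 0) (.cons (.ev (nat_lit 40565438182100980456044279889922) (nat_lit 3)) .nil)) (.cons (.br (nat_lit 11) (nat_lit 0) (.cons (.ev (nat_lit 40565438182100980456044279889922) (nat_lit 3)) .nil)) .nil))) (.cons (.br (nat_lit 12) (nat_lit 0) (.cons (.br (nat_lit 12) (nat_lit 0) (.cons (.ev (nat_lit 121856008801999951860436984006146) (nat_lit 4)) .nil)) (.cons (.br (nat_lit 11) (nat_lit 0) (.cons (.ev (nat_lit 121856008801999951860436984006146) (nat_lit 4)) .nil)) .nil))) .nil)))) .nil))))) .nil)))))),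
 (.br (nat_lit 3) (nat_lit 0) (.cons (.ev (nat_lit 79229371440156292391244988673) (nat_lit 1)) (.cons (.rf (nat_lit 2862) (nat_lit 470946625456160)) .nil))),
 (.br (nat_lit 2) (nat_lit 0) (.cons (.rf (nat_lit 3875) (nat_lit 14242959524133700672)) (.cons (.rf (nat_lit 4004) (nat_lit 14242959524133700672)) (.cons (.rf (nat_lit 4006) (nat_lit 14242959524133701664)) (.cons (.br (nat_lit 10) (nat_lit 0) (.cons (.ev (nat_lit 72339069031415809) (nat_lit 1)) (.cons (.rf (nat_lit 4007) (nat_lit 14242959524133701664)) (.cons (.br (nat_lit 3) (nat_lit 0) (.cons (.ev (nat_lit 79538861172271781260600344833) (nat_lit 1)) (.cons (.rf (nat_lit 2868) (nat_lit 470979911452704)) .nil))) (.cons (.rf (nat_lit 2871) (nat_lit 15428562986487351328)) .nil))))) (.cons (.br (nat_lit 3) (nat_lit 0) (.cons (.rf (nat_lit 2873) (nat_lit 15071358309468192)) (.cons (.ev (nat_lit 72339069031415809) (nat_lit 1)) (.cons (.br (nat_lit 5) (nat_lit 0) (.cons (.rf (nat_lit 2889) (nat_lit 15071255328884768)) (.cons (.rf (nat_lit 2890)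 (nat_lit 470976790890528)) (.cons (.br (nat_lit 10) (nat_lit 0) (.cons (.ev (nat_lit 79538856449905298395250098176) (nat_lit 1)) (.cons (.br (nat_lit 12) (nat_lit 0) (.cons (.ev (nat_lit 122806746751986367677513490369536) (nat_lit 4)) .nil)) .nil))) .nil)))) (.cons (.br (nat_lit 5) (nat_lit 0) (.cons (.rf (nat_lit 2888) (nat_lit 470976788858912)) (.cons (.br (nat_lit 10) (nat_lit 0) (.cons (.ev (nat_lit 794769599294300693326155613190) (nat_lit 4)) (.cons (.rf (nat_lit 2876) (nat_lit 15433070876887713824)) .nil))) (.cons (.br (nat_lit 10) (nat_lit 0) (.cons (.br (nat_lit 12) (nat_lit 0) (.cons (.ev (nat_lit 203300088822251212945393888134156) (nat_lit 4)) .nil)) (.cons (.ev (nat_lit 20282410812577562096174758887424) (nat_lit 1)) .nil))) .nil)))) .nil))))) .nil)))))),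
 (.br (nat_lit 11) (nat_lit 0) (.cons (.rf (nat_lit 3261) (nat_lit 434660528195616)) (.cons (.rf (nat_lit 3261) (nat_lit 434627242199072)) (.cons (.ev (nat_lit 309485009821345073036591104) (nat_lit 1)) .nil)))),
 (.br (nat_lit 12) (nat_lit 0) (.cons (.ev (nat_lit 79228162514264337597855760384) (nat_lit 1)) (.cons (.ev (nat_lit 80156627025498941883127365890) (nat_lit 2)) (.cons (.ev (nat_lit 79537652264970967203973234945) (nat_lit 1)) .nil)))),
 (.br (nat_lit 11) (nat_lit 0) (.cons (.ev (nat_lit 158765824260861758688538394881) (nat_lit 2)) (.cons (.kr (nat_lit 79228162514264337593543950592) (nat_lit 309485009821345068724846592) (nat_lit 1) (nat_lit 0)) (.cons (.ev (nat_lit 79537652264970967203973234945) (nat_lit 1)) .nil))))]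

theorem c147 : chkAll C T R L147 (nat_lit 3988) = true := by decide +kernel

theorem l147 : (nat_lit 3988) + L147.length = (nat_lit 4012) := by decide +kernel

/-- part of the certificates -/
def L148 : List Prf := [(.br (nat_lit 2) (nat_lit 0) (.cons (.rf (nat_lit 3875) (nat_lit 14242959524133700672)) (.cons (.rf (nat_lit 4004) (nat_lit 14242959524133700672)) (.cons (.rf (nat_lit 4006) (nat_lit 14242959524133701664)) (.cons (.rf (nat_lit 4008) (nat_lit 14242959524133701664)) (.cons (.br (nat_lit 3) (nat_lit 0) (.cons (.rf (nat_lit 4009) (nat_lit 15433072044983552032)) (.cons (.ev (nat_lit 72339069031415809) (nat_lit 1)) (.cons (.br (nat_lit 5) (nat_lit 0) (.cons (.kr (nat_lit 1208925819614629191483392) (nat_lit 309485009821346168236408832) (nat_lit 3) (nat_lit 0)) (.cons (.rf (nat_lit 3262) (nat_lit 470946560444448)) (.cons (.br (nat_lit 13) (nat_lit 0) (.cons (.zr (nat_lit 18591140766827152896) (nat_lit 2441463471645805632290822) (nat_lit 20) (nat_lit 7)) (.cons (.kr (nat_lit 158456325046975419265092420096)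 (nat_lit 618974742009454482071617536) (nat_lit 1) (nat_lit 0)) .nil))) .nil)))) (.cons (.br (nat_lit 5) (nat_lit 0) (.cons (.rf (nat_lit 3262) (nat_lit 470979779397664)) (.cons (.rf (nat_lit 3262) (nat_lit 470946493401120)) (.cons (.br (nat_lit 10) (nat_lit 0) (.cons (.ev (nat_lit 79538856449905298395250098176) (nat_lit 1)) (.cons (.br (nat_lit 11) (nat_lit 0) (.cons (.ev (nat_lit 20441484898699914410915325280512) (nat_lit 2)) .nil)) .nil))) .nil)))) (.cons (.br (nat_lit 5) (nat_lit 0) (.cons (.br (nat_lit 13) (nat_lit 0) (.cons (.rf (nat_lit 4010) (nat_lit 493858305440582043680)) (.cons (.rf (nat_lit 4011) (nat_lit 493858305440582043680)) .nil))) (.cons (.br (nat_lit 13) (nat_lit 0) (.cons (.zr (nat_lit 18591140766827152896) (nat_lit 2441463471645805632290822) (nat_lit 20) (nat_lit 7)) (.cons (.ev (nat_lit 158765824260861758688538394881) (nat_lit 2)) .nil))) (.cons (.ev (nat_lit 79228167255077846011892269056) (nat_lit 1)) (.cons (.br (nat_lit 13) (nat_lit 0) (.cons (.ev (nat_lit 20282410812577562096174758887424)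 (nat_lit 1)) (.cons (.rf (nat_lit 4010) (nat_lit 493858305440582043680)) (.cons (.rf (nat_lit 4011) (nat_lit 493858305440582043680)) .nil)))) .nil))))) .nil)))))) .nil)))))),
 (.br (nat_lit 2) (nat_lit 0) (.cons (.rf (nat_lit 3875) (nat_lit 14242959524133700672)) (.cons (.rf (nat_lit 4004) (nat_lit 14242959524133700672)) (.cons (.rf (nat_lit 4006) (nat_lit 14242959524133701664)) (.cons (.rf (nat_lit 4008) (nat_lit 14242959524133701664)) (.cons (.rf (nat_lit 4012) (nat_lit 14242959524133701664)) (.cons (.br (nat_lit 2) (nat_lit 0) (.cons (.rf (nat_lit 3875) (nat_lit 14242959524133700672)) (.cons (.rf (nat_lit 4004) (nat_lit 14242959524133700672)) (.cons (.rf (nat_lit 4006) (nat_lit 14242959524133701664)) (.cons (.rf (nat_lit 4008) (nat_lit 14242959524133701664)) (.cons (.rf (nat_lit 4012) (nat_lit 14242959524133701664)) .nil)))))) .nil))))))),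
 (.br (nat_lit 9) (nat_lit 0) (.cons (.br (nat_lit 9) (nat_lit 0) .nil) .nil)),
 (.br (nat_lit 7) (nat_lit 0) (.cons (.zr (nat_lit 36965545741457031427) (nat_lit 1108101758976) (nat_lit 5) (nat_lit 1)) (.cons (.rf (nat_lit 4014) (nat_lit 434660594255904)) .nil))),
 (.br (nat_lit 2) (nat_lit 0) (.cons (.rf (nat_lit 3875) (nat_lit 14242959524133700672)) (.cons (.rf (nat_lit 4004) (nat_lit 14242959524133700672)) (.cons (.rf (nat_lit 4013) (nat_lit 14242959524133701664)) (.cons (.br (nat_lit 3) (nat_lit 0) (.cons (.rf (nat_lit 4015) (nat_lit 445092449661061152)) (.cons (.br (nat_lit 5) (nat_lit 0) (.cons (.ev (nat_lit 158458747620983108323684777990) (nat_lit 3)) (.cons (.rf (nat_lit 2862) (nat_lit 470843644872736)) .nil))) (.cons (.ev (nat_lit 79228167236630820463206006784) (nat_lit 1)) (.cons (.br (nat_lit 5) (nat_lit 0) (.cons (.rf (nat_lit 2862) (nat_lit 470843646904352)) (.cons (.rf (nat_lit 2862) (nat_lit 465517887456320)) (.cons (.br (nat_lit 7) (nat_lit 0) (.cons (.rf (nat_lit 2868) (nat_lit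 470976790890528)) (.cons (.br (nat_lit 12) (nat_lit 0) (.cons (.ev (nat_lit 475373815567005519477322679808) (nat_lit 3)) .nil)) .nil))) .nil)))) .nil))))) (.cons (.br (nat_lit 3) (nat_lit 0) (.cons (.rf (nat_lit 2873) (nat_lit 15071255330916384)) (.cons (.rf (nat_lit 2889) (nat_lit 15071358309468192)) (.cons (.br (nat_lit 5) (nat_lit 0) (.cons (.rf (nat_lit 2889) (nat_lit 15071358307436576)) (.cons (.rf (nat_lit 2890) (nat_lit 470979911452704)) (.cons (.br (nat_lit 12) (nat_lit 0) (.cons (.ev (nat_lit 79538856468352323943936360705) (nat_lit 1)) (.cons (.ev (nat_lit 79228162514264337597855760641) (nat_lit 1)) .nil))) .nil)))) (.cons (.br (nat_lit 5) (nat_lit 0) (.cons (.rf (nat_lit 2888) (nat_lit 470979909421088)) (.cons (.br (nat_lit 13) (nat_lit 0) (.cons (.br (nat_lit 12) (nat_lit 0) (.cons (.ev (nat_lit 20284273767339808690803407454213) (nat_lit 3)) .nil)) (.cons (.br (nat_lit 7) (nat_lit 0) (.cons (.ev (nat_lit 20284273767339808690803407454213) (nat_lit 3)) .nil)) .nil))) (.cons (.br (nat_lit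 12) (nat_lit 0) (.cons (.br (nat_lit 12) (nat_lit 0) (.cons (.ev (nat_lit 121856018473184568018964161628686) (nat_lit 4)) .nil)) (.cons (.br (nat_lit 7) (nat_lit 0) (.cons (.ev (nat_lit 121856018473184568018964161628686) (nat_lit 4)) .nil)) .nil))) .nil)))) .nil))))) .nil)))))),
 (.br (nat_lit 11) (nat_lit 0) (.cons (.rf (nat_lit 4016) (nat_lit 8254119938580886530)) (.cons (.ev (nat_lit 1861750540347564328407531520) (nat_lit 3)) (.cons (.br (nat_lit 7) (nat_lit 0) (.cons (.zr (nat_lit 1208962713102780905553921) (nat_lit 158456325028601015355614167040) (nat_lit 5) (nat_lit 3)) (.cons (.zr (nat_lit 20282410812614383526728156839936) (nat_lit 158456325028601015355614167040) (nat_lit 5) (nat_lit 3)) .nil))) (.cons (.rf (nat_lit 4016) (nat_lit 8254119938580873634)) .nil))))),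
 (.br (nat_lit 13) (nat_lit 0) (.cons (.rf (nat_lit 4004) (nat_lit 8254119972907057569)) (.cons (.rf (nat_lit 4016) (nat_lit 8254119938580873634)) (.cons (.br (nat_lit 1) (nat_lit 0) (.cons (.rf (nat_lit 4004) (nat_lit 14242959524133701664)) (.cons (.br (nat_lit 5) (nat_lit 0) (.cons (.ev (nat_lit 41678346277529072546524344747530) (nat_lit 4)) .nil)) (.cons (.rf (nat_lit 4017) (nat_lit 79807310818243314081)) .nil)))) (.cons (.rf (nat_lit 4004) (nat_lit 8254119938580873634)) .nil))))),
 (.br (nat_lit 13) (nat_lit 0) (.cons (.rf (nat_lit 4017) (nat_lit 493858305440582043680)) (.cons (.rf (nat_lit 4018) (nat_lit 42913822670824210850)) (.cons (.rf (nat_lit 4018) (nat_lit 493858305440582043680)) (.cons (.rf (nat_lit 4004) (nat_lit 8254119938580873634)) .nil))))),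
 (.br (nat_lit 13) (nat_lit 0) (.cons (.rf (nat_lit 4017) (nat_lit 493858305440582043680)) (.cons (.br (nat_lit 13) (nat_lit 0) (.cons (.rf (nat_lit 4017) (nat_lit 493858305440582043680)) (.cons (.ev (nat_lit 20282720302328124610592800505856) (nat_lit 1)) (.cons (.rf (nat_lit 4004) (nat_lit 8254119938580873634)) .nil)))) (.cons (.br (nat_lit 3) (nat_lit 0) (.cons (.ev (nat_lit 310693935640963005074637571) (nat_lit 2)) (.cons (.rf (nat_lit 3020) (nat_lit 15251834051321037888)) (.cons (.rf (nat_lit 4016) (nat_lit 8254119938580873634)) .nil)))) (.cons (.rf (nat_lit 4004) (nat_lit 8254119938580873634)) .nil))))),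
 (.br (nat_lit 13) (nat_lit 0) (.cons (.rf (nat_lit 4018) (nat_lit 42913822670824210850)) (.cons (.rf (nat_lit 4020) (nat_lit 493858305440582043680)) (.cons (.br (nat_lit 13) (nat_lit 0) (.cons (.rf (nat_lit 4018) (nat_lit 493858305440582043680)) (.cons (.ev (nat_lit 20282720302328124610592800505856) (nat_lit 1)) (.cons (.ev (nat_lit 20282410817299928579040109133824) (nat_lit 1)) .nil)))) (.cons (.rf (nat_lit 4004) (nat_lit 8254119938580873634)) .nil))))),
 (.br (nat_lit 2) (nat_lit 0) (.cons (.rf (nat_lit 3875) (nat_lit 14242959524133700672)) (.cons (.rf (nat_lit 4004) (nat_lit 14242959524133700672)) (.cons (.rf (nat_lit 4013) (nat_lit 14242959524133701664)) (.cons (.rf (nat_lit 4016) (nat_lit 14242959524133701664)) (.cons (.br (nat_lit 13) (nat_lit 0) (.cons (.rf (nat_lit 4019) (nat_lit 493858305440582043680)) (.cons (.rf (nat_lit 4020) (nat_lit 493858305440582043680)) (.cons (.rf (nat_lit 4021) (nat_lit 493858305440582043680)) (.cons (.br (nat_lit 13) (nat_lit 0) (.cons (.rf (nat_lit 4018)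 (nat_lit 493858305440582043680)) (.cons (.rf (nat_lit 4020) (nat_lit 493858305440582043680)) (.cons (.rf (nat_lit 4021) (nat_lit 493858305440582043680)) (.cons (.rf (nat_lit 4004) (nat_lit 8254119938580873634)) .nil))))) (.cons (.rf (nat_lit 4004) (nat_lit 8254119938580873634)) .nil)))))) .nil)))))),
 (.br (nat_lit 2) (nat_lit 0) (.cons (.rf (nat_lit 3875) (nat_lit 14242959524133700672)) (.cons (.rf (nat_lit 4004) (nat_lit 14242959524133700672)) (.cons (.rf (nat_lit 4013) (nat_lit 14242959524133701664)) (.cons (.rf (nat_lit 4016) (nat_lit 14242959524133701664)) (.cons (.rf (nat_lit 4022) (nat_lit 14242959524133701664)) (.cons (.br (nat_lit 2) (nat_lit 0) (.cons (.rf (nat_lit 3875) (nat_lit 14242959524133700672)) (.cons (.rf (nat_lit 4004) (nat_lit 14242959524133700672)) (.cons (.rf (nat_lit 4013) (nat_lit 14242959524133701664)) (.cons (.rf (nat_lit 4016) (nat_lit 14242959524133701664)) (.cons (.rf (nat_lit 4022) (nat_lit 14242959524133701664)) .nil)))))) .nil))))))),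
 (.br (nat_lit 7) (nat_lit 0) (.cons (.br (nat_lit 12) (nat_lit 0) (.cons (.ev (nat_lit 81605007394544195733027354444288) (nat_lit 3)) .nil)) (.cons (.br (nat_lit 10) (nat_lit 0) (.cons (.ev (nat_lit 20282410812596009121723445149953) (nat_lit 1)) .nil)) (.cons (.br (nat_lit 10) (nat_lit 0) (.cons (.ev (nat_lit 475373815640791369872254042628) (nat_lit 3)) .nil)) .nil)))),
 (.br (nat_lit 13) (nat_lit 0) (.cons (.rf (nat_lit 4024) (nat_lit 493858305440582043680)) (.cons (.rf (nat_lit 2944) (nat_lit 1521271203984421890)) (.cons (.rf (nat_lit 2396) (nat_lit 1521271203950887330)) .nil)))),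
 (.br (nat_lit 13) (nat_lit 0) (.cons (.rf (nat_lit 4024) (nat_lit 493858305440582043680)) (.cons (.rf (nat_lit 4025) (nat_lit 493858305440582043680)) (.cons (.br (nat_lit 13) (nat_lit 0) (.cons (.rf (nat_lit 4024) (nat_lit 493858305440582043680)) (.cons (.rf (nat_lit 2944) (nat_lit 1521271203984421890)) (.cons (.ev (nat_lit 20282720297605758127718860324864) (nat_lit 1)) .nil)))) (.cons (.br (nat_lit 13) (nat_lit 0) (.cons (.rf (nat_lit 4024) (nat_lit 493858305440582043680)) (.cons (.rf (nat_lit 2396) (nat_lit 1521271203950887330)) (.cons (.ev (nat_lit 20282720297605758127718860324864) (nat_lit 1)) .nil)))) .nil))))),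
 (.br (nat_lit 13) (nat_lit 0) (.cons (.rf (nat_lit 4026) (nat_lit 493858305440582043680)) (.cons (.br (nat_lit 13) (nat_lit 0) (.cons (.rf (nat_lit 4026) (nat_lit 493858305440582043680)) (.cons (.ev (nat_lit 121695081432484727586627575088640) (nat_lit 3)) (.cons (.zr (nat_lit 121853532921735900628496865560066) (nat_lit 1970346312597504) (nat_lit 10) (nat_lit 1)) .nil)))) (.cons (.br (nat_lit 13) (nat_lit 0) (.cons (.rf (nat_lit 4026) (nat_lit 493858305440582043680)) (.cons (.ev (nat_lit 121695081432484727586627575088640) (nat_lit 3)) (.cons (.ev (nat_lit 20361638979814121140518886899713) (nat_lit 1)) .nil)))) (.cons (.br (nat_lit 13) (nat_lit 0) (.cons (.rf (nat_lit 4026) (nat_lit 493858305440582043680)) (.cons (.zr (nat_lit 121853532921735900628496865560066) (nat_lit 1970346312597504) (nat_lit 10) (nat_lit 1)) (.cons (.ev (nat_lit 20361638979814121140518886899713) (nat_lit 1)) .nil)))) .nil))))),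
 (.br (nat_lit 13) (nat_lit 0) (.cons (.rf (nat_lit 2944) (nat_lit 1521271203984421890)) (.cons (.ev (nat_lit 121695081432484727586627575088640) (nat_lit 3)) (.cons (.br (nat_lit 3) (nat_lit 0) (.cons (.ev (nat_lit 20282719088680010853262523629568) (nat_lit 1)) .nil)) .nil)))),
 (.br (nat_lit 13) (nat_lit 0) (.cons (.rf (nat_lit 4026) (nat_lit 493858305440582043680)) (.cons (.rf (nat_lit 4027) (nat_lit 493858305440582043680)) (.cons (.rf (nat_lit 4028) (nat_lit 493858305440582043680)) (.cons (.br (nat_lit 13) (nat_lit 0) (.cons (.rf (nat_lit 2396) (nat_lit 1521271203950887330)) (.cons (.zr (nat_lit 121853532921735900628496865560066) (nat_lit 1970346312597504) (nat_lit 10) (nat_lit 1)) (.cons (.rf (nat_lit 4028) (nat_lit 493858305440582043680)) .nil)))) .nil))))),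
 (.br (nat_lit 13) (nat_lit 0) (.cons (.rf (nat_lit 4026) (nat_lit 493858305440582043680)) (.cons (.rf (nat_lit 4027) (nat_lit 493858305440582043680)) (.cons (.rf (nat_lit 4029) (nat_lit 493858305440582043680)) (.cons (.br (nat_lit 13) (nat_lit 0) (.cons (.ev (nat_lit 20282720297605758127718860324864) (nat_lit 1)) (.cons (.ev (nat_lit 20361638979814121140518886899713) (nat_lit 1)) (.cons (.rf (nat_lit 4029) (nat_lit 493858305440582043680)) .nil)))) .nil))))),
 (.br (nat_lit 2) (nat_lit 0) (.cons (.rf (nat_lit 3875) (nat_lit 14242959524133700672)) (.cons (.rf (nat_lit 4004) (nat_lit 14242959524133700672)) (.cons (.rf (nat_lit 4013) (nat_lit 14242959524133701664)) (.cons (.rf (nat_lit 4023) (nat_lit 14242959524133701664)) (.cons (.br (nat_lit 13) (nat_lit 0) (.cons (.rf (nat_lit 4026) (nat_lit 493858305440582043680)) (.cons (.rf (nat_lit 4027) (nat_lit 493858305440582043680)) (.cons (.rf (nat_lit 4029) (nat_lit 493858305440582043680)) (.cons (.rf (nat_lit 4030) (nat_lit 493858305440582043680))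 (.cons (.br (nat_lit 13) (nat_lit 0) (.cons (.rf (nat_lit 4026) (nat_lit 493858305440582043680)) (.cons (.rf (nat_lit 4027) (nat_lit 493858305440582043680)) (.cons (.rf (nat_lit 4029) (nat_lit 493858305440582043680)) (.cons (.rf (nat_lit 4030) (nat_lit 493858305440582043680)) .nil))))) .nil)))))) .nil)))))),
 (.br (nat_lit 2) (nat_lit 0) (.cons (.rf (nat_lit 3875) (nat_lit 14242959524133700672)) (.cons (.rf (nat_lit 4004) (nat_lit 14242959524133700672)) (.cons (.rf (nat_lit 4013) (nat_lit 14242959524133701664)) (.cons (.rf (nat_lit 4023) (nat_lit 14242959524133701664)) (.cons (.rf (nat_lit 4031) (nat_lit 14242959524133701664)) (.cons (.br (nat_lit 2) (nat_lit 0) (.cons (.rf (nat_lit 3875) (nat_lit 14242959524133700672)) (.cons (.rf (nat_lit 4004) (nat_lit 14242959524133700672)) (.cons (.rf (nat_lit 4013) (nat_lit 14242959524133701664)) (.cons (.rf (nat_lit 4023) (nat_lit 14242959524133701664)) (.cons (.rf (nat_lit 4031) (nat_lit 14242959524133701664)) .nil)))))) .nil))))))),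
 (.br (nat_lit 2) (nat_lit 0) (.cons (.rf (nat_lit 3875) (nat_lit 14242959524133700672)) (.cons (.rf (nat_lit 4004) (nat_lit 14242959524133700672)) (.cons (.rf (nat_lit 4013) (nat_lit 14242959524133701664)) (.cons (.rf (nat_lit 4023) (nat_lit 14242959524133701664)) (.cons (.rf (nat_lit 4032) (nat_lit 14242959524133701664)) (.cons (.br (nat_lit 2) (nat_lit 0) (.cons (.rf (nat_lit 3875) (nat_lit 14242959524133700672)) (.cons (.rf (nat_lit 4004) (nat_lit 14242959524133700672)) (.cons (.rf (nat_lit 4013) (nat_lit 14242959524133701664)) (.cons (.rf (nat_lit 4023) (nat_lit 14242959524133701664)) (.cons (.rf (nat_lit 4032) (nat_lit 14242959524133701664)) .nil)))))) .nil))))))),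
 (.br (nat_lit 2) (nat_lit 0) (.cons (.rf (nat_lit 3875) (nat_lit 14242959524133700672)) (.cons (.rf (nat_lit 4004) (nat_lit 14242959524133700672)) (.cons (.rf (nat_lit 4013) (nat_lit 14242959524133701664)) (.cons (.rf (nat_lit 4023) (nat_lit 14242959524133701664)) (.cons (.rf (nat_lit 4032) (nat_lit 14242959524133701664)) (.cons (.rf (nat_lit 4033) (nat_lit 14242959524133701664)) (.cons (.br (nat_lit 2) (nat_lit 0) (.cons (.rf (nat_lit 3875) (nat_lit 14242959524133700672)) (.cons (.rf (nat_lit 4004) (nat_lit 14242959524133700672)) (.cons (.rf (nat_lit 4013) (nat_lit 14242959524133701664)) (.cons (.rf (nat_lit 4023) (nat_lit 14242959524133701664)) (.cons (.rf (nat_lit 4032) (nat_lit 14242959524133701664)) (.cons (.rf (nat_lit 4033) (nat_lit 14242959524133701664)) .nil))))))) .nil))))))))]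

theorem c148 : chkAll C T R L148 (nat_lit 4012) = true := by decide +kernel

theorem l148 : (nat_lit 4012) + L148.length = (nat_lit 4035) := by decide +kernel

/-- part of the certificates -/
def L149 : List Prf := [(.br (nat_lit 11) (nat_lit 0) (.cons (.br (nat_lit 11) (nat_lit 0) (.cons (.ev (nat_lit 79228162532711082766781972736) (nat_lit 1)) .nil)) (.cons (.ev (nat_lit 79228162532711082766781972736) (nat_lit 1)) .nil))),
 (.br (nat_lit 5) (nat_lit 0) (.cons (.ev (nat_lit 310698676526245339098841345) (nat_lit 1)) (.cons (.br (nat_lit 13) (nat_lit 0) (.cons (.br (nat_lit 12) (nat_lit 0) (.cons (.ev (nat_lit 318153012763015922703373960196) (nat_lit 3)) .nil)) (.cons (.br (nat_lit 11) (nat_lit 0) (.cons (.ev (nat_lit 318153012763015922703373960196) (nat_lit 3)) .nil)) .nil))) (.cons (.rf (nat_lit 4035) (nat_lit 15433070910038444064)) .nil)))),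
 (.br (nat_lit 3) (nat_lit 0) (.cons (.ev (nat_lit 310698676526245339098841345) (nat_lit 1)) (.cons (.rf (nat_lit 4036) (nat_lit 492741412732994160672)) (.cons (.br (nat_lit 11) (nat_lit 0) (.cons (.br (nat_lit 12) (nat_lit 0) (.cons (.ev (nat_lit 40723275537109866441093918228482) (nat_lit 3)) .nil)) (.cons (.rf (nat_lit 2955) (nat_lit 2499893730459484577)) .nil))) .nil)))),
 (.br (nat_lit 11) (nat_lit 0) (.cons (.rf (nat_lit 4036) (nat_lit 493858305440582043680)) (.cons (.rf (nat_lit 4037) (nat_lit 493858305440582043680)) (.cons (.br (nat_lit 12) (nat_lit 0) (.cons (.rf (nat_lit 4036) (nat_lit 492741412732994160672)) (.cons (.rf (nat_lit 4037) (nat_lit 492741412732994160672)) (.cons (.kr (nat_lit 309485009821345068724781056) (nat_lit 79228162514264337593543950336) (nat_lit 11) (nat_lit 0)) .nil)))) .nil)))),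
 (.br (nat_lit 2) (nat_lit 0) (.cons (.rf (nat_lit 3875) (nat_lit 14242959524133700672)) (.cons (.rf (nat_lit 4004) (nat_lit 14242959524133700672)) (.cons (.rf (nat_lit 4034) (nat_lit 14242959524133700672)) (.cons (.rf (nat_lit 4034) (nat_lit 13126066816545817664)) (.cons (.br (nat_lit 11) (nat_lit 0) (.cons (.rf (nat_lit 4036) (nat_lit 493858305440582043680)) (.cons (.rf (nat_lit 4037) (nat_lit 493858305440582043680)) (.cons (.rf (nat_lit 4038) (nat_lit 493858305440582043680)) (.cons (.br (nat_lit 11) (nat_lit 0) (.cons (.rf (nat_lit 4036) (nat_lit 493858305440582043680)) (.cons (.rf (nat_lit 4037) (nat_lit 493858305440582043680)) (.cons (.rf (nat_lit 4038) (nat_lit 493858305440582043680)) .nil)))) .nil))))) .nil)))))),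
 (.br (nat_lit 5) (nat_lit 0) (.cons (.rf (nat_lit 3262) (nat_lit 468816256664640)) (.cons (.ev (nat_lit 79228162514264337597855760384) (nat_lit 1)) (.cons (.br (nat_lit 10) (nat_lit 0) (.cons (.ev (nat_lit 80160244358153045007499657985) (nat_lit 2)) (.cons (.rf (nat_lit 3875) (nat_lit 14235044069127815585)) .nil))) .nil)))),
 (.br (nat_lit 13) (nat_lit 0) (.cons (.rf (nat_lit 4034) (nat_lit 14235044069127815585)) (.cons (.ev (nat_lit 20282720302328124610592800506113) (nat_lit 1)) (.cons (.rf (nat_lit 2944) (nat_lit 15433068714236413984)) .nil)))),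
 (.br (nat_lit 5) (nat_lit 0) (.cons (.ev (nat_lit 158461165472765887612442510852) (nat_lit 3)) (.cons (.br (nat_lit 12) (nat_lit 0) (.cons (.ev (nat_lit 284750363378292079322837817623556) (nat_lit 4)) .nil)) .nil))),
 (.br (nat_lit 3) (nat_lit 0) (.cons (.ev (nat_lit 158461165472765887612442510852) (nat_lit 3)) (.cons (.br (nat_lit 12) (nat_lit 0) (.cons (.ev (nat_lit 79228167236630820463206007041) (nat_lit 1)) .nil)) .nil))),
 (.br (nat_lit 5) (nat_lit 0) (.cons (.ev (nat_lit 309485009821345073036591104) (nat_lit 1)) (.cons (.br (nat_lit 11) (nat_lit 0) (.cons (.ev (nat_lit 81923174909490901386585943968770) (nat_lit 4)) .nil)) (.cons (.ev (nat_lit 20282410812596009121723445215233) (nat_lit 1)) .nil)))),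
 (.br (nat_lit 3) (nat_lit 0) (.cons (.br (nat_lit 12) (nat_lit 0) (.cons (.ev (nat_lit 203300098493509619457915623967756) (nat_lit 4)) .nil)) (.cons (.br (nat_lit 11) (nat_lit 0) (.cons (.ev (nat_lit 40644358063808802551293045506560) (nat_lit 2)) .nil)) (.cons (.ev (nat_lit 20282410812596009121723445215233) (nat_lit 1)) .nil)))),
 (.br (nat_lit 3) (nat_lit 0) (.cons (.ev (nat_lit 309485009821345073036591104) (nat_lit 1)) (.cons (.br (nat_lit 5) (nat_lit 0) (.cons (.ev (nat_lit 40644358063808802551293045506560) (nat_lit 2)) .nil)) (.cons (.rf (nat_lit 4004) (nat_lit 8262069443048342605)) .nil)))),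
 (.br (nat_lit 2) (nat_lit 0) (.cons (.rf (nat_lit 3875) (nat_lit 14242959524133700672)) (.cons (.rf (nat_lit 4004) (nat_lit 14242959524133700672)) (.cons (.rf (nat_lit 4034) (nat_lit 14242959524133700672)) (.cons (.br (nat_lit 3) (nat_lit 0) (.cons (.rf (nat_lit 4009) (nat_lit 15362175466438034496)) (.cons (.ev (nat_lit 72339069031415809) (nat_lit 1)) (.cons (.rf (nat_lit 4040) (nat_lit 493858305440582043680)) (.cons (.rf (nat_lit 4040) (nat_lit 492741412732994160672)) (.cons (.br (nat_lit 13) (nat_lit 0) (.cons (.rf (nat_lit 4039) (nat_lit 88022020363966034945)) (.cons (.rf (nat_lit 3875) (nat_lit 14235044069127815585)) (.cons (.rf (nat_lit 4041) (nat_lit 493858305440582043680)) (.cons (.rf (nat_lit 4041) (nat_lit 492741412732994160672)) .nil))))) .nil)))))) (.cons (.br (nat_lit 10) (nat_lit 0) (.cons (.ev (nat_lit 72339069031415809) (nat_lit 1)) (.cons (.br (nat_lit 3) (nat_lit 0) (.cons (.ev (nat_lit 310698676526245339098841345) (nat_lit 1)) (.cons (.br (nat_lit 12) (nat_lit 0) (.cons (.kr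 (nat_lit 618970038089436414477337088) (nat_lit 2422574005993603005022208) (nat_lit 1) (nat_lit 0)) (.cons (.ev (nat_lit 79229371458602754989977829376) (nat_lit 1)) .nil))) (.cons (.br (nat_lit 13) (nat_lit 0) (.cons (.kr (nat_lit 618970038089436414477337088) (nat_lit 2422574005993603005022208) (nat_lit 1) (nat_lit 0)) (.cons (.ev (nat_lit 20282410812596009121723445215233) (nat_lit 1)) .nil))) .nil)))) (.cons (.br (nat_lit 12) (nat_lit 0) (.cons (.rf (nat_lit 4042) (nat_lit 493858305440582043680)) (.cons (.rf (nat_lit 4043) (nat_lit 493858305440582043680)) (.cons (.br (nat_lit 12) (nat_lit 0) (.cons (.rf (nat_lit 4042) (nat_lit 493858305440582043680)) (.cons (.rf (nat_lit 4043) (nat_lit 493858305440582043680)) .nil))) .nil)))) (.cons (.br (nat_lit 13) (nat_lit 0) (.cons (.rf (nat_lit 4044) (nat_lit 493858305440582043680)) (.cons (.rf (nat_lit 4045) (nat_lit 493858305440582043680)) (.cons (.rf (nat_lit 4046) (nat_lit 493858305440582043680)) (.cons (.br (nat_lit 13) (nat_lit 0) (.cons (.rf (nat_lit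 4044) (nat_lit 493858305440582043680)) (.cons (.rf (nat_lit 4045) (nat_lit 493858305440582043680)) (.cons (.rf (nat_lit 4046) (nat_lit 493858305440582043680)) .nil)))) .nil))))) (.cons (.rf (nat_lit 3875) (nat_lit 14235044069127815585)) .nil)))))) .nil)))))),
 (.br (nat_lit 2) (nat_lit 0) (.cons (.rf (nat_lit 3875) (nat_lit 14242959524133700672)) (.cons (.rf (nat_lit 4004) (nat_lit 14242959524133700672)) (.cons (.rf (nat_lit 4039) (nat_lit 493858305440582043680)) (.cons (.rf (nat_lit 4047) (nat_lit 493858305440582043680)) (.cons (.rf (nat_lit 4047) (nat_lit 492741412732994160672)) (.cons (.br (nat_lit 2) (nat_lit 0) (.cons (.rf (nat_lit 3875) (nat_lit 14242959524133700672)) (.cons (.rf (nat_lit 4004) (nat_lit 14242959524133700672)) (.cons (.rf (nat_lit 4039) (nat_lit 493858305440582043680)) (.cons (.rf (nat_lit 4047) (nat_lit 493858305440582043680)) (.cons (.rf (nat_lit 4047) (nat_lit 492741412732994160672)) .nil)))))) .nil))))))),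
 (.br (nat_lit 13) (nat_lit 0) (.cons (.rf (nat_lit 4034) (nat_lit 14235044069127815585)) (.cons (.rf (nat_lit 4004) (nat_lit 14235044069127815585)) (.cons (.br (nat_lit 5) (nat_lit 0) (.cons (.ev (nat_lit 122807989527912821928976307847682) (nat_lit 4)) .nil)) .nil)))),
 (.br (nat_lit 13) (nat_lit 0) (.cons (.rf (nat_lit 4048) (nat_lit 88022020363966034945)) (.cons (.rf (nat_lit 4004) (nat_lit 14235044069127815585)) (.cons (.rf (nat_lit 4049) (nat_lit 493858305440582043680)) (.cons (.rf (nat_lit 4049) (nat_lit 492741412732994160672)) .nil))))),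
 (.br (nat_lit 13) (nat_lit 0) (.cons (.rf (nat_lit 4050) (nat_lit 493858305440582043680)) (.cons (.rf (nat_lit 4048) (nat_lit 88022020363966034945)) (.cons (.rf (nat_lit 4004) (nat_lit 14235044069127815585)) (.cons (.br (nat_lit 13) (nat_lit 0) (.cons (.rf (nat_lit 4050) (nat_lit 493858305440582043680)) (.cons (.rf (nat_lit 2944) (nat_lit 2750683604209447937)) (.cons (.rf (nat_lit 4004) (nat_lit 14235044069127815585)) .nil)))) .nil))))),
 (.br (nat_lit 13) (nat_lit 0) (.cons (.rf (nat_lit 4048) (nat_lit 88022020363966034945)) (.cons (.rf (nat_lit 4004) (nat_lit 14235044069127815585)) (.cons (.rf (nat_lit 4004) (nat_lit 8254119972907057570)) (.cons (.br (nat_lit 5) (nat_lit 0) (.cons (.br (nat_lit 11) (nat_lit 0) (.cons (.ev (nat_lit 121775241672028134910236297658368) (nat_lit 3)) .nil)) (.cons (.br (nat_lit 7) (nat_lit 0) (.cons (.ev (nat_lit 81210420046799367293847210296838) (nat_lit 3)) .nil)) (.cons (.br (nat_lit 7) (nat_lit 0) (.cons (.ev (nat_lit 80776796489408265424300147202) (nat_lit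 3)) .nil)) .nil)))) .nil))))),
 (.br (nat_lit 2) (nat_lit 0) (.cons (.rf (nat_lit 3875) (nat_lit 14242959524133700672)) (.cons (.rf (nat_lit 4004) (nat_lit 14242959524133700672)) (.cons (.rf (nat_lit 4034) (nat_lit 14242959524133700672)) (.cons (.br (nat_lit 13) (nat_lit 0) (.cons (.rf (nat_lit 4050) (nat_lit 493858305440582043680)) (.cons (.rf (nat_lit 4048) (nat_lit 88022020363966034945)) (.cons (.rf (nat_lit 4004) (nat_lit 14235044069127815585)) (.cons (.rf (nat_lit 4051) (nat_lit 493858305440582043680)) (.cons (.rf (nat_lit 4051) (nat_lit 492741412732994160672)) .nil)))))) (.cons (.br (nat_lit 13) (nat_lit 0) (.cons (.rf (nat_lit 4052) (nat_lit 493858305440582043680)) (.cons (.rf (nat_lit 4048) (nat_lit 88022020363966034945)) (.cons (.rf (nat_lit 4004) (nat_lit 14235044069127815585)) (.cons (.rf (nat_lit 4004) (nat_lit 8254119972907057570)) (.cons (.br (nat_lit 13) (nat_lit 0) (.cons (.rf (nat_lit 4052) (nat_lit 493858305440582043680)) (.cons (.rf (nat_lit 4048) (nat_lit 88022020363966034945))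 (.cons (.rf (nat_lit 4004) (nat_lit 14235044069127815585)) (.cons (.rf (nat_lit 4004) (nat_lit 8254119972907057570)) .nil))))) .nil)))))) .nil)))))),
 (.br (nat_lit 2) (nat_lit 0) (.cons (.rf (nat_lit 3875) (nat_lit 14242959524133700672)) (.cons (.rf (nat_lit 4004) (nat_lit 14242959524133700672)) (.cons (.rf (nat_lit 4048) (nat_lit 493858305440582043680)) (.cons (.rf (nat_lit 4053) (nat_lit 493858305440582043680)) (.cons (.rf (nat_lit 4053) (nat_lit 492741412732994160672)) (.cons (.br (nat_lit 2) (nat_lit 0) (.cons (.rf (nat_lit 3875) (nat_lit 14242959524133700672)) (.cons (.rf (nat_lit 4004) (nat_lit 14242959524133700672)) (.cons (.rf (nat_lit 4048) (nat_lit 493858305440582043680)) (.cons (.rf (nat_lit 4053) (nat_lit 493858305440582043680)) (.cons (.rf (nat_lit 4053) (nat_lit 492741412732994160672)) .nil)))))) .nil))))))),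
 (.br (nat_lit 13) (nat_lit 0) (.cons (.rf (nat_lit 4004) (nat_lit 8262069443048342605)) (.cons (.rf (nat_lit 4048) (nat_lit 88022020363966034945)) (.cons (.rf (nat_lit 4004) (nat_lit 14235044069127815585)) (.cons (.rf (nat_lit 3875) (nat_lit 14235044069127815585)) (.cons (.br (nat_lit 5) (nat_lit 0) (.cons (.br (nat_lit 7) (nat_lit 0) (.cons (.ev (nat_lit 20361949669045914422309128568832) (nat_lit 2)) .nil)) (.cons (.kr (nat_lit 72057594037993472) (nat_lit 20282409603651670425046762913792) (nat_lit 2) (nat_lit 0)) (.cons (.br (nat_lit 3) (nat_lit 0) (.cons (.ev (nat_lit 20521024964130979838731038556160) (nat_lit 2)) .nil)) .nil)))) .nil)))))),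
 (.br (nat_lit 2) (nat_lit 0) (.cons (.rf (nat_lit 3875) (nat_lit 14242959524133700672)) (.cons (.rf (nat_lit 4004) (nat_lit 14242959524133700672)) (.cons (.rf (nat_lit 4048) (nat_lit 493858305440582043680)) (.cons (.rf (nat_lit 4054) (nat_lit 493858305440582043680)) (.cons (.br (nat_lit 13) (nat_lit 0) (.cons (.rf (nat_lit 4054) (nat_lit 88022020363966034945)) (.cons (.rf (nat_lit 4048) (nat_lit 88022020363966034945)) (.cons (.rf (nat_lit 4004) (nat_lit 14235044069127815585)) (.cons (.rf (nat_lit 3875) (nat_lit 14235044069127815585)) (.cons (.rf (nat_lit 4055) (nat_lit 493858305440582043680)) (.cons (.rf (nat_lit 4055) (nat_lit 492741412732994160672)) .nil))))))) .nil)))))),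
 (.br (nat_lit 2) (nat_lit 0) (.cons (.rf (nat_lit 3875) (nat_lit 14242959524133700672)) (.cons (.rf (nat_lit 4004) (nat_lit 14242959524133700672)) (.cons (.rf (nat_lit 4048) (nat_lit 493858305440582043680)) (.cons (.rf (nat_lit 4054) (nat_lit 493858305440582043680)) (.cons (.rf (nat_lit 4056) (nat_lit 493858305440582043680)) (.cons (.br (nat_lit 2) (nat_lit 0) (.cons (.rf (nat_lit 3875) (nat_lit 14242959524133700672)) (.cons (.rf (nat_lit 4004) (nat_lit 14242959524133700672)) (.cons (.rf (nat_lit 4048) (nat_lit 493858305440582043680)) (.cons (.rf (nat_lit 4054) (nat_lit 493858305440582043680)) (.cons (.rf (nat_lit 4056) (nat_lit 493858305440582043680)) .nil)))))) .nil))))))),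
 (.br (nat_lit 1) (nat_lit 0) (.cons (.rf (nat_lit 3536) (nat_lit 14242959524133701664)) (.cons (.rf (nat_lit 3875) (nat_lit 14242959524133701664)) (.cons (.rf (nat_lit 4004) (nat_lit 14242959524133701664)) (.cons (.rf (nat_lit 4034) (nat_lit 14242959524133701664)) (.cons (.rf (nat_lit 4034) (nat_lit 13126066816545818656)) (.cons (.br (nat_lit 2) (nat_lit 0) (.cons (.rf (nat_lit 3875) (nat_lit 14242959524133700672)) (.cons (.rf (nat_lit 4004) (nat_lit 14242959524133700672)) (.cons (.rf (nat_lit 4048) (nat_lit 493858305440582043680)) (.cons (.rf (nat_lit 4054) (nat_lit 493858305440582043680)) (.cons (.rf (nat_lit 4057) (nat_lit 493858305440582043680)) (.cons (.rf (nat_lit 4057) (nat_lit 492741412732994160672)) (.cons (.br (nat_lit 2) (nat_lit 0) (.cons (.rf (nat_lit 3875) (nat_lit 14242959524133700672)) (.cons (.rf (nat_lit 4004) (nat_lit 14242959524133700672)) (.cons (.rf (nat_lit 4048) (nat_lit 493858305440582043680)) (.cons (.rf (nat_lit 4054) (nat_lit 493858305440582043680)) (.cons (.rf (nat_lit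 4057) (nat_lit 493858305440582043680)) (.cons (.rf (nat_lit 4057) (nat_lit 492741412732994160672)) .nil))))))) .nil)))))))) .nil))))))),
 (.br (nat_lit 9) (nat_lit 0) (.cons (.ev (nat_lit 72339069031415809) (nat_lit 1)) (.cons (.br (nat_lit 3) (nat_lit 0) (.cons (.ev (nat_lit 72339069031415809) (nat_lit 1)) (.cons (.rf (nat_lit 3259) (nat_lit 432496939468832)) .nil))) (.cons (.rf (nat_lit 3299) (nat_lit 434658383857696)) .nil)))),
 (.br (nat_lit 2) (nat_lit 0) (.cons (.ev (nat_lit 18518801667764257024) (nat_lit 1)) (.cons (.rf (nat_lit 2744) (nat_lit 440583489918698560)) (.cons (.rf (nat_lit 4058) (nat_lit 14242959524133700672)) (.cons (.rf (nat_lit 4059) (nat_lit 445091350149433376)) (.cons (.br (nat_lit 3) (nat_lit 0) (.cons (.rf (nat_lit 2873) (nat_lit 15001056137283616)) (.cons (.ev (nat_lit 72339069031415809) (nat_lit 1)) (.cons (.rf (nat_lit 2889) (nat_lit 15000884506363936)) (.cons (.br (nat_lit 5) (nat_lit 0) (.cons (.br (nat_lit 13) (nat_lit 0) (.cons (.br (nat_lit 12) (nat_lit 0) (.cons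 (.ev (nat_lit 20441488525495747942386310905856) (nat_lit 2)) .nil)) (.cons (.br (nat_lit 10) (nat_lit 0) (.cons (.ev (nat_lit 20441488525495747942386310905856) (nat_lit 2)) .nil)) .nil))) (.cons (.rf (nat_lit 2888) (nat_lit 468777832712224)) (.cons (.br (nat_lit 10) (nat_lit 0) (.cons (.br (nat_lit 10) (nat_lit 0) (.cons (.ev (nat_lit 20440869555513142855592946237440) (nat_lit 2)) .nil)) (.cons (.br (nat_lit 10) (nat_lit 0) (.cons (.ev (nat_lit 20440869555513142855592946237440) (nat_lit 2)) .nil)) .nil))) .nil)))) .nil))))) .nil))))))]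

theorem c149 : chkAll C T R L149 (nat_lit 4035) = true := by decide +kernel

theorem l149 : (nat_lit 4035) + L149.length = (nat_lit 4061) := by decide +kernel

end Pool.Agent.H93.Neg.Q14_4_0_4_6_0
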