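import Pool.Agent.H93.Neg.TabQ14_4_0_4_6_0

/-!
Certificates.
-/

set_option autoImplicit false
set_option maxRecDepth 100000
set_option linter.all false

namespace Pool.Agent.H93.Neg.Q14_4_0_4_6_0

/-- part of the certificates -/
def L150 : List Prf := [(.br (nat_lit 2) (nat_lit 0) (.cons (.ev (nat_lit 18518801667764257024) (nat_lit 1)) (.cons (.rf (nat_lit 4004) (nat_lit 14242959524133700672)) (.cons (.rf (nat_lit 4058) (nat_lit 14242959524133700672)) (.cons (.rf (nat_lit 4060) (nat_lit 14242959524133701664)) (.cons (.rf (nat_lit 4060) (nat_lit 13126066816545818656)) (.cons (.br (nat_lit 2) (nat_lit 0) (.cons (.ev (nat_lit 18518801667764257024) (nat_lit 1)) (.cons (.rf (nat_lit 4004) (nat_lit 14242959524133700672)) (.cons (.rf (nat_lit 4058) (nat_lit 14242959524133700672)) (.cons (.rf (nat_lit 4060) (nat_lit 14242959524133701664)) (.cons (.rf (nat_lit 4060) (nat_lit 13126066816545818656)) .nil)))))) .nil))))))),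
 (.br (nat_lit 13) (nat_lit 0) (.cons (.br (nat_lit 13) (nat_lit 0) (.cons (.ev (nat_lit 18518801667764257024) (nat_lit 1)) (.cons (.rf (nat_lit 3875) (nat_lit 8254119972907057570)) (.cons (.rf (nat_lit 4058) (nat_lit 8254119972907057570)) .nil)))) (.cons (.ev (nat_lit 18518801667764257024) (nat_lit 1)) (.cons (.rf (nat_lit 3875) (nat_lit 8254119972907057570)) (.cons (.rf (nat_lit 4058) (nat_lit 8254119972907057570)) .nil))))),
 (.br (nat_lit 3) (nat_lit 0) (.cons (.zr (nat_lit 626223574560388907714743296) (nat_lit 33149376405637592907782) (nat_lit 20) (nat_lit 0)) (.cons (.br (nat_lit 10) (nat_lit 0) (.cons (.ev (nat_lit 310693954159762465158660353) (nat_lit 1)) .nil)) (.cons (.ev (nat_lit 18518801667764257024) (nat_lit 1)) .nil)))),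
 (.br (nat_lit 13) (nat_lit 0) (.cons (.rf (nat_lit 4062) (nat_lit 493858305440582043680)) (.cons (.rf (nat_lit 4063) (nat_lit 493858305440582043680)) (.cons (.rf (nat_lit 3875) (nat_lit 8254119972907057570)) (.cons (.br (nat_lit 13) (nat_lit 0) (.cons (.rf (nat_lit 4058) (nat_lit 8254119972907057570)) (.cons (.rf (nat_lit 4063) (nat_lit 493858305440582043680)) (.cons (.rf (nat_lit 3875) (nat_lit 8254119972907057570)) .nil)))) .nil))))),
 (.br (nat_lit 13) (nat_lit 0) (.cons (.ev (nat_lit 18518801667764257024) (nat_lit 1)) (.cons (.rf (nat_lit 4064) (nat_lit 493858305440582043680)) (.cons (.rf (nat_lit 3875) (nat_lit 8254119972907057570)) (.cons (.br (nat_lit 13) (nat_lit 0) (.cons (.ev (nat_lit 18518801667764257024) (nat_lit 1)) (.cons (.rf (nat_lit 4064) (nat_lit 493858305440582043680)) (.cons (.rf (nat_lit 3875) (nat_lit 8254119972907057570)) .nil)))) .nil))))),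
 (.br (nat_lit 2) (nat_lit 0) (.cons (.rf (nat_lit 3875) (nat_lit 14242959524133700672)) (.cons (.rf (nat_lit 4004) (nat_lit 14242959524133700672)) (.cons (.rf (nat_lit 4058) (nat_lit 14242959524133700672)) (.cons (.br (nat_lit 3) (nat_lit 0) (.cons (.rf (nat_lit 4015) (nat_lit 374195939902064672)) (.cons (.br (nat_lit 5) (nat_lit 0) (.cons (.ev (nat_lit 1213648186098598331613184) (nat_lit 1)) (.cons (.rf (nat_lit 2862) (nat_lit 468645728913440)) .nil))) (.cons (.br (nat_lit 5) (nat_lit 0) (.cons (.ev (nat_lit 79538861190718806809286606848) (nat_lit 1)) (.cons (.rf (nat_lit 2862) (nat_lit 465450273244224)) .nil))) (.cons (.rf (nat_lit 3390) (nat_lit 15356329568470403104)) .nil))))) (.cons (.br (nat_lit 13) (nat_lit 0) (.cons (.rf (nat_lit 4062) (nat_lit 493858305440582043680)) (.cons (.rf (nat_lit 4064) (nat_lit 493858305440582043680)) (.cons (.rf (nat_lit 4065) (nat_lit 493858305440582043680)) (.cons (.rf (nat_lit 3875) (nat_lit 8254119972907057570)) (.cons (.br (nat_lit 13) (nat_lit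 0) (.cons (.rf (nat_lit 4058) (nat_lit 8254119972907057570)) (.cons (.rf (nat_lit 4064) (nat_lit 493858305440582043680)) (.cons (.rf (nat_lit 4065) (nat_lit 493858305440582043680)) (.cons (.rf (nat_lit 3875) (nat_lit 8254119972907057570)) .nil))))) .nil)))))) .nil)))))),
 (.br (nat_lit 2) (nat_lit 0) (.cons (.rf (nat_lit 3875) (nat_lit 14242959524133700672)) (.cons (.rf (nat_lit 4004) (nat_lit 14242959524133700672)) (.cons (.rf (nat_lit 4058) (nat_lit 14242959524133700672)) (.cons (.rf (nat_lit 4066) (nat_lit 14242959524133701664)) (.cons (.rf (nat_lit 4066) (nat_lit 13126066816545818656)) (.cons (.br (nat_lit 2) (nat_lit 0) (.cons (.rf (nat_lit 3875) (nat_lit 14242959524133700672)) (.cons (.rf (nat_lit 4004) (nat_lit 14242959524133700672)) (.cons (.rf (nat_lit 4058) (nat_lit 14242959524133700672)) (.cons (.rf (nat_lit 4066) (nat_lit 14242959524133701664)) (.cons (.rf (nat_lit 4066) (nat_lit 13126066816545818656)) .nil)))))) .nil))))))),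
 (.br (nat_lit 2) (nat_lit 0) (.cons (.rf (nat_lit 3875) (nat_lit 14242959524133700672)) (.cons (.rf (nat_lit 4004) (nat_lit 14242959524133700672)) (.cons (.rf (nat_lit 4059) (nat_lit 445091350149433376)) (.cons (.rf (nat_lit 4067) (nat_lit 14242959524133701664)) (.cons (.br (nat_lit 3) (nat_lit 0) (.cons (.rf (nat_lit 2873) (nat_lit 15001983984437280)) (.cons (.rf (nat_lit 2889) (nat_lit 15002121289173024)) (.cons (.br (nat_lit 5) (nat_lit 0) (.cons (.rf (nat_lit 2889) (nat_lit 15002121287141408)) (.cons (.rf (nat_lit 2890) (nat_lit 468816321677344)) (.cons (.br (nat_lit 7) (nat_lit 0) (.cons (.ev (nat_lit 18518801667764257024) (nat_lit 1)) (.cons (.br (nat_lit 10) (nat_lit 0) (.cons (.ev (nat_lit 20282410812577562096174758953216) (nat_lit 1)) .nil)) .nil))) .nil)))) (.cons (.br (nat_lit 7) (nat_lit 0) (.cons (.rf (nat_lit 2888) (nat_lit 468816319645728)) (.cons (.br (nat_lit 13) (nat_lit 0) (.cons (.br (nat_lit 10) (nat_lit 0) (.cons (.ev (nat_lit 20441486107644252263175684293120) (nat_lit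 2)) .nil)) (.cons (.br (nat_lit 5) (nat_lit 0) (.cons (.ev (nat_lit 20441486107644252263175684293120) (nat_lit 2)) .nil)) .nil))) (.cons (.ev (nat_lit 18518801667764257024) (nat_lit 1)) .nil)))) .nil))))) .nil)))))),
 (.br (nat_lit 2) (nat_lit 0) (.cons (.rf (nat_lit 3875) (nat_lit 14242959524133700672)) (.cons (.rf (nat_lit 4004) (nat_lit 14242959524133700672)) (.cons (.rf (nat_lit 4061) (nat_lit 14242959524133701664)) (.cons (.rf (nat_lit 4067) (nat_lit 14242959524133701664)) (.cons (.rf (nat_lit 4068) (nat_lit 14242959524133701664)) (.cons (.br (nat_lit 2) (nat_lit 0) (.cons (.rf (nat_lit 3875) (nat_lit 14242959524133700672)) (.cons (.rf (nat_lit 4004) (nat_lit 14242959524133700672)) (.cons (.rf (nat_lit 4061) (nat_lit 14242959524133701664)) (.cons (.rf (nat_lit 4067) (nat_lit 14242959524133701664)) (.cons (.rf (nat_lit 4068) (nat_lit 14242959524133701664)) .nil)))))) .nil))))))),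
 (.br (nat_lit 2) (nat_lit 0) (.cons (.rf (nat_lit 3875) (nat_lit 14242959524133700672)) (.cons (.rf (nat_lit 4004) (nat_lit 14242959524133700672)) (.cons (.rf (nat_lit 4061) (nat_lit 14242959524133701664)) (.cons (.rf (nat_lit 4067) (nat_lit 14242959524133701664)) (.cons (.rf (nat_lit 4069) (nat_lit 14242959524133701664)) (.cons (.rf (nat_lit 4069) (nat_lit 13126066816545818656)) (.cons (.br (nat_lit 2) (nat_lit 0) (.cons (.rf (nat_lit 3875) (nat_lit 14242959524133700672)) (.cons (.rf (nat_lit 4004) (nat_lit 14242959524133700672)) (.cons (.rf (nat_lit 4061) (nat_lit 14242959524133701664)) (.cons (.rf (nat_lit 4067) (nat_lit 14242959524133701664)) (.cons (.rf (nat_lit 4069) (nat_lit 14242959524133701664)) (.cons (.rf (nat_lit 4069) (nat_lit 13126066816545818656)) .nil))))))) .nil)))))))),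
 (.br (nat_lit 3) (nat_lit 0) (.cons (.ev (nat_lit 72339069031415809) (nat_lit 1)) (.cons (.br (nat_lit 10) (nat_lit 0) (.cons (.ev (nat_lit 79229376180969237863917944833) (nat_lit 1)) (.cons (.br (nat_lit 12) (nat_lit 0) (.cons (.ev (nat_lit 121695697984578942947511054369798) (nat_lit 3)) .nil)) .nil))) (.cons (.br (nat_lit 10) (nat_lit 0) (.cons (.br (nat_lit 12) (nat_lit 0) (.cons (.zr (nat_lit 141979033620741122864072534131200) (nat_lit 13307629325750362653589512) (nat_lit 15) (nat_lit 11)) .nil)) (.cons (.ev (nat_lit 20282410812577562096174758887424) (nat_lit 1)) .nil))) .nil)))),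
 (.br (nat_lit 10) (nat_lit 0) (.cons (.ev (nat_lit 72339069031415809) (nat_lit 1)) (.cons (.rf (nat_lit 4071) (nat_lit 493858305440582043680)) (.cons (.br (nat_lit 3) (nat_lit 0) (.cons (.br (nat_lit 12) (nat_lit 0) (.cons (.ev (nat_lit 40564826465709754201782375154690) (nat_lit 3)) .nil)) (.cons (.br (nat_lit 5) (nat_lit 0) (.cons (.ev (nat_lit 40644358063808802551293045506560) (nat_lit 2)) .nil)) (.cons (.ev (nat_lit 20282720297605758127718860324864) (nat_lit 1)) .nil)))) .nil)))),
 (.br (nat_lit 2) (nat_lit 0) (.cons (.rf (nat_lit 3875) (nat_lit 14242959524133700672)) (.cons (.rf (nat_lit 4004) (nat_lit 14242959524133700672)) (.cons (.rf (nat_lit 4058) (nat_lit 14242959524133700672)) (.cons (.rf (nat_lit 4070) (nat_lit 14242959524133700672)) (.cons (.br (nat_lit 10) (nat_lit 0) (.cons (.ev (nat_lit 72339069031415809) (nat_lit 1)) (.cons (.rf (nat_lit 4071) (nat_lit 493858305440582043680)) (.cons (.rf (nat_lit 4072) (nat_lit 493858305440582043680)) (.cons (.br (nat_lit 10) (nat_lit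 0) (.cons (.ev (nat_lit 72339069031415809) (nat_lit 1)) (.cons (.rf (nat_lit 4071) (nat_lit 493858305440582043680)) (.cons (.rf (nat_lit 4072) (nat_lit 493858305440582043680)) .nil)))) .nil))))) .nil)))))),
 (.br (nat_lit 10) (nat_lit 0) (.cons (.kr (nat_lit 158456325046975419265092420096) (nat_lit 618974742009454482071617536) (nat_lit 1) (nat_lit 0)) (.cons (.ev (nat_lit 310693954159762465158660096) (nat_lit 1)) .nil))),
 (.br (nat_lit 3) (nat_lit 0) (.cons (.ev (nat_lit 72339069031415809) (nat_lit 1)) (.cons (.rf (nat_lit 4074) (nat_lit 493858305440582043680)) (.cons (.rf (nat_lit 4074) (nat_lit 492741412732994159680)) (.cons (.br (nat_lit 13) (nat_lit 0) (.cons (.ev (nat_lit 20282410812577562096174758887424) (nat_lit 1)) (.cons (.rf (nat_lit 4004) (nat_lit 8262069443048343597)) (.cons (.rf (nat_lit 4004) (nat_lit 8262069408722158669)) .nil)))) .nil))))),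
 (.br (nat_lit 10) (nat_lit 0) (.cons (.ev (nat_lit 72339069031415809) (nat_lit 1)) (.cons (.rf (nat_lit 4075) (nat_lit 493858305440582043680)) (.cons (.kr (nat_lit 79228162514264337593543950592) (nat_lit 309485009821345068724846592) (nat_lit 1) (nat_lit 0)) (.cons (.br (nat_lit 12) (nat_lit 0) (.cons (.kr (nat_lit 158456329750895439531709825536) (nat_lit 618970038089434215454212096) (nat_lit 1) (nat_lit 0)) (.cons (.br (nat_lit 3) (nat_lit 0) (.cons (.ev (nat_lit 79228162514264337597855760384) (nat_lit 1)) .nil)) (.cons (.rf (nat_lit 4004) (nat_lit 8254119938580874317)) .nil)))) .nil))))),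
 (.br (nat_lit 2) (nat_lit 0) (.cons (.rf (nat_lit 3875) (nat_lit 14242959524133700672)) (.cons (.rf (nat_lit 4004) (nat_lit 14242959524133700672)) (.cons (.rf (nat_lit 4058) (nat_lit 14242959524133700672)) (.cons (.rf (nat_lit 4070) (nat_lit 14242959524133700672)) (.cons (.br (nat_lit 10) (nat_lit 0) (.cons (.ev (nat_lit 72339069031415809) (nat_lit 1)) (.cons (.rf (nat_lit 4075) (nat_lit 493858305440582043680)) (.cons (.rf (nat_lit 4076) (nat_lit 493858305440582043680)) (.cons (.rf (nat_lit 4076) (nat_lit 492741412732994159680)) (.cons (.br (nat_lit 10) (nat_lit 0) (.cons (.ev (nat_lit 72339069031415809) (nat_lit 1)) (.cons (.rf (nat_lit 4075) (nat_lit 493858305440582043680)) (.cons (.rf (nat_lit 4076) (nat_lit 493858305440582043680)) (.cons (.rf (nat_lit 4076) (nat_lit 492741412732994159680)) .nil))))) .nil)))))) .nil)))))),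
 (.br (nat_lit 2) (nat_lit 0) (.cons (.rf (nat_lit 3875) (nat_lit 14242959524133700672)) (.cons (.rf (nat_lit 4004) (nat_lit 14242959524133700672)) (.cons (.rf (nat_lit 4058) (nat_lit 14242959524133700672)) (.cons (.rf (nat_lit 4073) (nat_lit 493858305440582043680)) (.cons (.rf (nat_lit 4077) (nat_lit 493858305440582043680)) (.cons (.br (nat_lit 2) (nat_lit 0) (.cons (.rf (nat_lit 3875) (nat_lit 14242959524133700672)) (.cons (.rf (nat_lit 4004) (nat_lit 14242959524133700672)) (.cons (.rf (nat_lit 4058) (nat_lit 14242959524133700672)) (.cons (.rf (nat_lit 4073) (nat_lit 493858305440582043680)) (.cons (.rf (nat_lit 4077) (nat_lit 493858305440582043680)) .nil)))))) .nil))))))),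
 (.br (nat_lit 10) (nat_lit 0) (.cons (.ev (nat_lit 79538856468352323943936294913) (nat_lit 1)) (.cons (.ev (nat_lit 475373815640791369872253781508) (nat_lit 3)) (.cons (.ev (nat_lit 40883593607974100395509539799040) (nat_lit 3)) .nil)))),
 (.br (nat_lit 13) (nat_lit 0) (.cons (.br (nat_lit 7) (nat_lit 0) (.cons (.ev (nat_lit 20282719088661563827713837432833) (nat_lit 1)) (.cons (.ev (nat_lit 18518801667764257024) (nat_lit 1)) .nil))) (.cons (.rf (nat_lit 4004) (nat_lit 14242959455481333805)) (.cons (.rf (nat_lit 3875) (nat_lit 8254119972907057570)) (.cons (.rf (nat_lit 4058) (nat_lit 8254119972907057570)) .nil))))),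
 (.br (nat_lit 13) (nat_lit 0) (.cons (.rf (nat_lit 4080) (nat_lit 493858305440582043680)) (.cons (.br (nat_lit 12) (nat_lit 0) (.cons (.ev (nat_lit 18518801667764257024) (nat_lit 1)) (.cons (.ev (nat_lit 310698658079782740366000385) (nat_lit 1)) .nil))) (.cons (.rf (nat_lit 3875) (nat_lit 8254119972907057570)) (.cons (.br (nat_lit 3) (nat_lit 0) (.cons (.br (nat_lit 10) (nat_lit 0) (.cons (.ev (nat_lit 79851968292742458603229741569) (nat_lit 3)) .nil)) (.cons (.br (nat_lit 7) (nat_lit 0) (.cons (.ev (nat_lit 122013236858173667761646817379850) (nat_lit 4)) .nil)) (.cons (.br (nat_lit 7) (nat_lit 0) (.cons (.ev (nat_lit 40645290145652620612907301012483) (nat_lit 3)) .nil)) .nil)))) .nil))))),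
 (.br (nat_lit 13) (nat_lit 0) (.cons (.rf (nat_lit 4004) (nat_lit 14242959455481333805)) (.cons (.rf (nat_lit 4081) (nat_lit 493858305440582043680)) (.cons (.rf (nat_lit 3875) (nat_lit 8254119972907057570)) (.cons (.br (nat_lit 3) (nat_lit 0) (.cons (.br (nat_lit 10) (nat_lit 0) (.cons (.ev (nat_lit 79538856449905298395250032896) (nat_lit 1)) .nil)) (.cons (.br (nat_lit 5) (nat_lit 0) (.cons (.ev (nat_lit 79229371440156292391244922881) (nat_lit 1)) .nil)) (.cons (.ev (nat_lit 18518801667764257024) (nat_lit 1)) .nil)))) .nil))))),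
 (.br (nat_lit 2) (nat_lit 0) (.cons (.rf (nat_lit 3875) (nat_lit 14242959524133700672)) (.cons (.rf (nat_lit 4004) (nat_lit 14242959524133700672)) (.cons (.rf (nat_lit 4058) (nat_lit 14242959524133700672)) (.cons (.br (nat_lit 3) (nat_lit 0) (.cons (.br (nat_lit 7) (nat_lit 0) (.cons (.rf (nat_lit 3261) (nat_lit 465516652233792)) (.cons (.rf (nat_lit 3261) (nat_lit 465450080240704)) (.cons (.br (nat_lit 10) (nat_lit 0) (.cons (.kr (nat_lit 1208925819614629191483392) (nat_lit 79228162514264338693055578112) (nat_lit 3) (nat_lit 0)) (.cons (.br (nat_lit 12) (nat_lit 0) (.cons (.ev (nat_lit 79538861172271781260600279041) (nat_lit 1)) .nil)) .nil))) .nil)))) (.cons (.br (nat_lit 5) (nat_lit 0) (.cons (.ev (nat_lit 1213648186098598331613184) (nat_lit 1)) (.cons (.rf (nat_lit 3262) (nat_lit 465450013197376)) (.cons (.br (nat_lit 13) (nat_lit 0) (.cons (.br (nat_lit 12) (nat_lit 0) (.cons (.ev (nat_lit 40566680957917330149628788999168) (nat_lit 3)) .nil)) (.cons (.rf (nat_lit 4079) (nat_lit 493858305440582043680))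 .nil))) .nil)))) (.cons (.br (nat_lit 5) (nat_lit 0) (.cons (.rf (nat_lit 3262) (nat_lit 465516652233792)) (.cons (.ev (nat_lit 79229371476978006627266461696) (nat_lit 2)) (.cons (.br (nat_lit 12) (nat_lit 0) (.cons (.zr (nat_lit 144396684527665664) (nat_lit 23630279160620958875652) (nat_lit 10) (nat_lit 7)) (.cons (.ev (nat_lit 79538856468352323943936294913) (nat_lit 1)) .nil))) .nil)))) (.cons (.ev (nat_lit 79228167236630820463206006784) (nat_lit 1)) (.cons (.br (nat_lit 5) (nat_lit 0) (.cons (.br (nat_lit 13) (nat_lit 0) (.cons (.rf (nat_lit 3020) (nat_lit 15433070876887713824)) (.cons (.br (nat_lit 10) (nat_lit 0) (.cons (.ev (nat_lit 20282720297605758127718860324864) (nat_lit 1)) .nil)) .nil))) (.cons (.ev (nat_lit 1213648186098598331613184) (nat_lit 1)) (.cons (.br (nat_lit 13) (nat_lit 0) (.cons (.br (nat_lit 10) (nat_lit 0) (.cons (.ev (nat_lit 475376233418211838013911334912) (nat_lit 3)) .nil)) (.cons (.ev (nat_lit 475376233418211838013911334912) (nat_lit 3)) .nil))) (.cons (.br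 (nat_lit 12) (nat_lit 0) (.cons (.ev (nat_lit 18518801667764257024) (nat_lit 1)) (.cons (.br (nat_lit 7) (nat_lit 0) (.cons (.ev (nat_lit 81605007394544195733027354183168) (nat_lit 3)) .nil)) (.cons (.rf (nat_lit 4079) (nat_lit 493858305440582043680)) .nil)))) .nil))))) .nil)))))) (.cons (.br (nat_lit 13) (nat_lit 0) (.cons (.rf (nat_lit 4080) (nat_lit 493858305440582043680)) (.cons (.rf (nat_lit 4081) (nat_lit 493858305440582043680)) (.cons (.rf (nat_lit 4082) (nat_lit 493858305440582043680)) (.cons (.rf (nat_lit 3875) (nat_lit 8254119972907057570)) (.cons (.br (nat_lit 13) (nat_lit 0) (.cons (.rf (nat_lit 4058) (nat_lit 8254119972907057570)) (.cons (.rf (nat_lit 4081) (nat_lit 493858305440582043680)) (.cons (.rf (nat_lit 4082) (nat_lit 493858305440582043680)) (.cons (.rf (nat_lit 3875) (nat_lit 8254119972907057570)) .nil))))) .nil)))))) .nil))))))]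

theorem c150 : chkAll C T R L150 (nat_lit 4061) = true := by decide +kernel

theorem l150 : (nat_lit 4061) + L150.length = (nat_lit 4084) := by decide +kernel

/-- part of the certificates -/
def L151 : List Prf := [(.br (nat_lit 8) (nat_lit 0) (.cons (.kr (nat_lit 1208925819614629174706432) (nat_lit 4722366482869645279232) (nat_lit 1) (nat_lit 0)) .nil)),
 (.br (nat_lit 13) (nat_lit 0) (.cons (.br (nat_lit 7) (nat_lit 0) (.cons (.ev (nat_lit 81129645672976632220442849051140) (nat_lit 3)) (.cons (.rf (nat_lit 4084) (nat_lit 482283501405702176)) (.cons (.ev (nat_lit 18518801667764257024) (nat_lit 1)) .nil)))) (.cons (.rf (nat_lit 4004) (nat_lit 14242959455481333805)) (.cons (.rf (nat_lit 3875) (nat_lit 8254119938580873634)) (.cons (.rf (nat_lit 4004) (nat_lit 8262069443048343597)) (.cons (.rf (nat_lit 4004) (nat_lit 8254119938580873634)) .nil)))))),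
 (.br (nat_lit 13) (nat_lit 0) (.cons (.rf (nat_lit 4085) (nat_lit 493858305440582043680)) (.cons (.br (nat_lit 3) (nat_lit 0) (.cons (.ev (nat_lit 20282409608374037189395696648448) (nat_lit 1)) (.cons (.rf (nat_lit 3801) (nat_lit 13126066679106996269)) (.cons (.ev (nat_lit 18518801667764257024) (nat_lit 1)) .nil)))) (.cons (.rf (nat_lit 3875) (nat_lit 8254119938580873634)) (.cons (.rf (nat_lit 4083) (nat_lit 45147608085999976866)) (.cons (.rf (nat_lit 4004) (nat_lit 8254119938580873634)) .nil)))))),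
 (.br (nat_lit 13) (nat_lit 0) (.cons (.rf (nat_lit 4004) (nat_lit 8262069443048343597)) (.cons (.rf (nat_lit 4083) (nat_lit 45147608085999976866)) (.cons (.br (nat_lit 1) (nat_lit 0) (.cons (.rf (nat_lit 3875) (nat_lit 14242959524133701664)) (.cons (.rf (nat_lit 4004) (nat_lit 14242959524133701664)) (.cons (.br (nat_lit 3) (nat_lit 0) (.cons (.ev (nat_lit 309485009821345073036525824) (nat_lit 1)) (.cons (.br (nat_lit 5) (nat_lit 0) (.cons (.ev (nat_lit 40566064405749326686550699016708) (nat_lit 3)) .nil)) (.cons (.ev (nat_lit 18518801667764257024) (nat_lit 1)) .nil)))) (.cons (.rf (nat_lit 4004) (nat_lit 8254119972907057569)) (.cons (.rf (nat_lit 4086) (nat_lit 42913822670824210850)) .nil)))))) (.cons (.rf (nat_lit 3875) (nat_lit 8254119938580873634)) (.cons (.rf (nat_lit 4004) (nat_lit 8254119938580873634)) .nil)))))),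
 (.br (nat_lit 2) (nat_lit 0) (.cons (.rf (nat_lit 3875) (nat_lit 14242959524133700672)) (.cons (.rf (nat_lit 4004) (nat_lit 14242959524133700672)) (.cons (.rf (nat_lit 4058) (nat_lit 14242959524133700672)) (.cons (.rf (nat_lit 4083) (nat_lit 493858305440582043680)) (.cons (.br (nat_lit 13) (nat_lit 0) (.cons (.rf (nat_lit 4085) (nat_lit 493858305440582043680)) (.cons (.rf (nat_lit 4086) (nat_lit 493858305440582043680)) (.cons (.rf (nat_lit 4087) (nat_lit 42913822670824210850)) (.cons (.rf (nat_lit 3875) (nat_lit 8254119938580873634)) (.cons (.rf (nat_lit 4087) (nat_lit 493858305440582043680)) (.cons (.rf (nat_lit 4004) (nat_lit 8254119938580873634)) .nil))))))) .nil)))))),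
 (.br (nat_lit 2) (nat_lit 0) (.cons (.rf (nat_lit 3875) (nat_lit 14242959524133700672)) (.cons (.rf (nat_lit 4004) (nat_lit 14242959524133700672)) (.cons (.rf (nat_lit 4058) (nat_lit 14242959524133700672)) (.cons (.rf (nat_lit 4083) (nat_lit 493858305440582043680)) (.cons (.rf (nat_lit 4088) (nat_lit 493858305440582043680)) (.cons (.br (nat_lit 2) (nat_lit 0) (.cons (.rf (nat_lit 3875) (nat_lit 14242959524133700672)) (.cons (.rf (nat_lit 4004) (nat_lit 14242959524133700672)) (.cons (.rf (nat_lit 4058) (nat_lit 14242959524133700672)) (.cons (.rf (nat_lit 4083) (nat_lit 493858305440582043680)) (.cons (.rf (nat_lit 4088) (nat_lit 493858305440582043680)) .nil)))))) .nil))))))),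
 (.br (nat_lit 12) (nat_lit 0) (.cons (.br (nat_lit 10) (nat_lit 0) (.cons (.ev (nat_lit 1905835291884701133733240641040) (nat_lit 5)) .nil)) (.cons (.ev (nat_lit 79538861190718806809286541568) (nat_lit 1)) (.cons (.ev (nat_lit 20361947251175756389184025133313) (nat_lit 1)) .nil)))),
 (.br (nat_lit 13) (nat_lit 0) (.cons (.rf (nat_lit 4090) (nat_lit 493858305440582043680)) (.cons (.rf (nat_lit 4004) (nat_lit 14235044069127817261)) (.cons (.br (nat_lit 5) (nat_lit 0) (.cons (.ev (nat_lit 40644048578762016504912088662785) (nat_lit 2)) .nil)) .nil)))),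
 (.br (nat_lit 13) (nat_lit 0) (.cons (.rf (nat_lit 4090) (nat_lit 493858305440582043680)) (.cons (.rf (nat_lit 4091) (nat_lit 493858305440582043680)) (.cons (.br (nat_lit 13) (nat_lit 0) (.cons (.rf (nat_lit 4090) (nat_lit 493858305440582043680)) (.cons (.rf (nat_lit 4004) (nat_lit 14235044069127817261)) (.cons (.ev (nat_lit 20282720297605758127718860324864) (nat_lit 1)) .nil)))) (.cons (.br (nat_lit 13) (nat_lit 0) (.cons (.ev (nat_lit 20361947251175756389184025133313) (nat_lit 1)) (.cons (.rf (nat_lit 4091) (nat_lit 493858305440582043680)) (.cons (.ev (nat_lit 20282720297605758127718860324864) (nat_lit 1)) .nil)))) .nil))))),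
 (.br (nat_lit 12) (nat_lit 0) (.cons (.ev (nat_lit 18518801667764257024) (nat_lit 1)) (.cons (.ev (nat_lit 1208925819615732981367041) (nat_lit 1)) (.cons (.ev (nat_lit 20282409603651670706521756467456) (nat_lit 1)) .nil)))),
 (.br (nat_lit 10) (nat_lit 0) (.cons (.rf (nat_lit 4092) (nat_lit 493858305440582043680)) (.cons (.br (nat_lit 13) (nat_lit 0) (.cons (.rf (nat_lit 4093) (nat_lit 493858305440582043680)) (.cons (.br (nat_lit 3) (nat_lit 0) (.cons (.ev (nat_lit 20282409608392483651994429489408) (nat_lit 1)) .nil)) .nil))) (.cons (.ev (nat_lit 1208925819615732981367041) (nat_lit 1)) (.cons (.br (nat_lit 13) (nat_lit 0) (.cons (.rf (nat_lit 4093) (nat_lit 493858305440582043680)) (.cons (.rf (nat_lit 4004) (nat_lit 14235044069127817261)) (.cons (.ev (nat_lit 20361638979814121140518886899713) (nat_lit 1)) .nil)))) .nil))))),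
 (.br (nat_lit 10) (nat_lit 0) (.cons (.rf (nat_lit 4092) (nat_lit 493858305440582043680)) (.cons (.rf (nat_lit 4094) (nat_lit 493858305440582043680)) (.cons (.br (nat_lit 13) (nat_lit 0) (.cons (.br (nat_lit 5) (nat_lit 0) (.cons (.ev (nat_lit 475373815567005519477322416640) (nat_lit 3)) .nil)) (.cons (.ev (nat_lit 475373815567005519477322416640) (nat_lit 3)) .nil))) (.cons (.br (nat_lit 12) (nat_lit 0) (.cons (.br (nat_lit 5) (nat_lit 0) (.cons (.ev (nat_lit 202825967458647644389986683194882) (nat_lit 4)) .nil)) (.cons (.br (nat_lit 3) (nat_lit 0) (.cons (.ev (nat_lit 20282409608392483651994429489408) (nat_lit 1)) .nil)) (.cons (.rf (nat_lit 4004) (nat_lit 8254119938580874317)) .nil)))) .nil))))),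
 (.br (nat_lit 10) (nat_lit 0) (.cons (.rf (nat_lit 4092) (nat_lit 493858305440582043680)) (.cons (.ev (nat_lit 1208925819615732981367041) (nat_lit 1)) (.cons (.rf (nat_lit 4095) (nat_lit 493858305440582043680)) (.cons (.br (nat_lit 3) (nat_lit 0) (.cons (.ev (nat_lit 79538861190718806809286541568) (nat_lit 1)) (.cons (.br (nat_lit 5) (nat_lit 0) (.cons (.ev (nat_lit 202828433667172082020317634364930) (nat_lit 4)) .nil)) (.cons (.ev (nat_lit 20282720297605758127718860324864) (nat_lit 1)) .nil)))) .nil))))),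
 (.br (nat_lit 2) (nat_lit 0) (.cons (.rf (nat_lit 3875) (nat_lit 14242959524133700672)) (.cons (.rf (nat_lit 4004) (nat_lit 14242959524133700672)) (.cons (.rf (nat_lit 4070) (nat_lit 14242959524133700672)) (.cons (.rf (nat_lit 4089) (nat_lit 493858305440582043680)) (.cons (.br (nat_lit 10) (nat_lit 0) (.cons (.rf (nat_lit 4092) (nat_lit 493858305440582043680)) (.cons (.rf (nat_lit 4094) (nat_lit 493858305440582043680)) (.cons (.rf (nat_lit 4095) (nat_lit 493858305440582043680)) (.cons (.rf (nat_lit 4096) (nat_lit 493858305440582043680)) (.cons (.br (nat_lit 10) (nat_lit 0) (.cons (.rf (nat_lit 4092) (nat_lit 493858305440582043680)) (.cons (.rf (nat_lit 4094) (nat_lit 493858305440582043680)) (.cons (.rf (nat_lit 4095) (nat_lit 493858305440582043680)) (.cons (.rf (nat_lit 4096) (nat_lit 493858305440582043680)) .nil))))) .nil)))))) .nil)))))),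
 (.br (nat_lit 2) (nat_lit 0) (.cons (.rf (nat_lit 3875) (nat_lit 14242959524133700672)) (.cons (.rf (nat_lit 4004) (nat_lit 14242959524133700672)) (.cons (.rf (nat_lit 4078) (nat_lit 493858305440582043680)) (.cons (.rf (nat_lit 4089) (nat_lit 493858305440582043680)) (.cons (.rf (nat_lit 4097) (nat_lit 493858305440582043680)) (.cons (.br (nat_lit 2) (nat_lit 0) (.cons (.rf (nat_lit 3875) (nat_lit 14242959524133700672)) (.cons (.rf (nat_lit 4004) (nat_lit 14242959524133700672)) (.cons (.rf (nat_lit 4078) (nat_lit 493858305440582043680)) (.cons (.rf (nat_lit 4089) (nat_lit 493858305440582043680)) (.cons (.rf (nat_lit 4097) (nat_lit 493858305440582043680)) .nil)))))) .nil))))))),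
 (.br (nat_lit 2) (nat_lit 0) (.cons (.rf (nat_lit 3875) (nat_lit 14242959524133700672)) (.cons (.rf (nat_lit 4004) (nat_lit 14242959524133700672)) (.cons (.rf (nat_lit 4078) (nat_lit 493858305440582043680)) (.cons (.rf (nat_lit 4089) (nat_lit 493858305440582043680)) (.cons (.rf (nat_lit 4098) (nat_lit 493858305440582043680)) (.cons (.br (nat_lit 2) (nat_lit 0) (.cons (.rf (nat_lit 3875) (nat_lit 14242959524133700672)) (.cons (.rf (nat_lit 4004) (nat_lit 14242959524133700672)) (.cons (.rf (nat_lit 4078) (nat_lit 493858305440582043680)) (.cons (.rf (nat_lit 4089) (nat_lit 493858305440582043680)) (.cons (.rf (nat_lit 4098) (nat_lit 493858305440582043680)) .nil)))))) .nil))))))),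
 (.br (nat_lit 1) (nat_lit 0) (.cons (.rf (nat_lit 3536) (nat_lit 14242959524133701664)) (.cons (.rf (nat_lit 3875) (nat_lit 14242959524133701664)) (.cons (.rf (nat_lit 4004) (nat_lit 14242959524133701664)) (.cons (.rf (nat_lit 4058) (nat_lit 14242959524133701664)) (.cons (.rf (nat_lit 4070) (nat_lit 14242959524133701664)) (.cons (.br (nat_lit 2) (nat_lit 0) (.cons (.rf (nat_lit 3875) (nat_lit 14242959524133700672)) (.cons (.rf (nat_lit 4004) (nat_lit 14242959524133700672)) (.cons (.rf (nat_lit 4078) (nat_lit 493858305440582043680)) (.cons (.rf (nat_lit 4089) (nat_lit 493858305440582043680)) (.cons (.rf (nat_lit 4098) (nat_lit 493858305440582043680)) (.cons (.rf (nat_lit 4099) (nat_lit 493858305440582043680)) (.cons (.br (nat_lit 2) (nat_lit 0) (.cons (.rf (nat_lit 3875) (nat_lit 14242959524133700672)) (.cons (.rf (nat_lit 4004) (nat_lit 14242959524133700672)) (.cons (.rf (nat_lit 4078) (nat_lit 493858305440582043680)) (.cons (.rf (nat_lit 4089) (nat_lit 493858305440582043680)) (.cons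 (.rf (nat_lit 4098) (nat_lit 493858305440582043680)) (.cons (.rf (nat_lit 4099) (nat_lit 493858305440582043680)) .nil))))))) .nil)))))))) .nil))))))),
 (.br (nat_lit 1) (nat_lit 0) (.cons (.rf (nat_lit 3536) (nat_lit 14242959524133701664)) (.cons (.rf (nat_lit 3875) (nat_lit 14242959524133701664)) (.cons (.rf (nat_lit 4004) (nat_lit 14242959524133701664)) (.cons (.rf (nat_lit 4058) (nat_lit 14242959524133701664)) (.cons (.rf (nat_lit 4100) (nat_lit 14242959524133701664)) (.cons (.rf (nat_lit 4100) (nat_lit 13126066816545818656)) (.cons (.br (nat_lit 1) (nat_lit 0) (.cons (.rf (nat_lit 1943) (nat_lit 428033)) (.cons (.rf (nat_lit 3875) (nat_lit 14242959524133701664)) (.cons (.rf (nat_lit 4004) (nat_lit 14242959524133701664)) (.cons (.rf (nat_lit 4058) (nat_lit 14242959524133701664)) (.cons (.rf (nat_lit 4100) (nat_lit 14242959524133701664)) (.cons (.rf (nat_lit 4100) (nat_lit 13126066816545818656)) .nil))))))) .nil)))))))),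
 (.br (nat_lit 9) (nat_lit 0) (.cons (.br (nat_lit 9) (nat_lit 0) .nil) .nil)),
 (.br (nat_lit 2) (nat_lit 0) (.cons (.rf (nat_lit 3875) (nat_lit 14242959524133700672)) (.cons (.rf (nat_lit 4004) (nat_lit 14242959524133700672)) (.cons (.rf (nat_lit 4101) (nat_lit 14242959524133700672)) (.cons (.br (nat_lit 3) (nat_lit 0) (.cons (.ev (nat_lit 79538861172271781260600279041) (nat_lit 1)) (.cons (.br (nat_lit 5) (nat_lit 0) (.cons (.ev (nat_lit 79537652246524504605240393985) (nat_lit 1)) (.cons (.rf (nat_lit 3259) (nat_lit 465517657884704)) .nil))) (.cons (.rf (nat_lit 3259) (nat_lit 465517724928032)) .nil)))) (.cons (.br (nat_lit 12) (nat_lit 0) (.cons (.ev (nat_lit 79228167236630820463205941504) (nat_lit 1)) (.cons (.rf (nat_lit 2889) (nat_lit 14895432319797280)) (.cons (.br (nat_lit 3) (nat_lit 0) (.cons (.ev (nat_lit 79538861190718806809286541568) (nat_lit 1)) (.cons (.rf (nat_lit 4102) (nat_lit 470979911452704)) (.cons (.br (nat_lit 5) (nat_lit 0) (.cons (.rf (nat_lit 4102) (nat_lit 470979909421088))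 (.cons (.br (nat_lit 7) (nat_lit 0) (.cons (.ev (nat_lit 284749110931179856009004122505738) (nat_lit 4)) .nil)) .nil))) .nil)))) (.cons (.rf (nat_lit 4101) (nat_lit 8254119972907057570)) .nil))))) .nil)))))),
 (.br (nat_lit 2) (nat_lit 0) (.cons (.rf (nat_lit 3875) (nat_lit 14242959524133700672)) (.cons (.rf (nat_lit 4004) (nat_lit 14242959524133700672)) (.cons (.rf (nat_lit 4101) (nat_lit 14242959524133700672)) (.cons (.rf (nat_lit 4103) (nat_lit 14242959524133701664)) (.cons (.rf (nat_lit 4103) (nat_lit 13126066816545818656)) (.cons (.br (nat_lit 2) (nat_lit 0) (.cons (.rf (nat_lit 3875) (nat_lit 14242959524133700672)) (.cons (.rf (nat_lit 4004) (nat_lit 14242959524133700672)) (.cons (.rf (nat_lit 4101) (nat_lit 14242959524133700672)) (.cons (.rf (nat_lit 4103) (nat_lit 14242959524133701664)) (.cons (.rf (nat_lit 4103) (nat_lit 13126066816545818656)) .nil)))))) .nil))))))),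
 (.br (nat_lit 2) (nat_lit 0) (.cons (.rf (nat_lit 3875) (nat_lit 14242959524133700672)) (.cons (.rf (nat_lit 4004) (nat_lit 14242959524133700672)) (.cons (.rf (nat_lit 4101) (nat_lit 14242959524133700672)) (.cons (.rf (nat_lit 4104) (nat_lit 14242959524133701664)) (.cons (.br (nat_lit 3) (nat_lit 0) (.cons (.rf (nat_lit 2873) (nat_lit 14896531799902240)) (.cons (.br (nat_lit 5) (nat_lit 0) (.cons (.rf (nat_lit 2890) (nat_lit 465517887457312)) (.cons (.ev (nat_lit 1213648186098598331547904) (nat_lit 1)) (.cons (.br (nat_lit 7) (nat_lit 0) (.cons (.rf (nat_lit 4102) (nat_lit 468816321677344)) (.cons (.br (nat_lit 10) (nat_lit 0) (.cons (.ev (nat_lit 41360210194432173524758733130756) (nat_lit 4)) .nil)) .nil))) .nil)))) (.cons (.rf (nat_lit 2889) (nat_lit 14896566126086176)) (.cons (.br (nat_lit 5) (nat_lit 0) (.cons (.br (nat_lit 7) (nat_lit 0) (.cons (.rf (nat_lit 4102) (nat_lit 468816319645728)) (.cons (.br (nat_lit 10) (nat_lit 0) (.cons (.ev (nat_lit 20282409603670117169120489242881)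 (nat_lit 1)) .nil)) .nil))) (.cons (.ev (nat_lit 1208944266641281667563776) (nat_lit 1)) (.cons (.br (nat_lit 10) (nat_lit 0) (.cons (.br (nat_lit 7) (nat_lit 0) (.cons (.ev (nat_lit 203301331597845626366479617360904) (nat_lit 4)) .nil)) (.cons (.zr (nat_lit 1223092919626188080545794) (nat_lit 79537647542532428943591473408) (nat_lit 5) (nat_lit 10)) .nil))) .nil)))) .nil))))) .nil)))))),
 (.br (nat_lit 2) (nat_lit 0) (.cons (.rf (nat_lit 3875) (nat_lit 14242959524133700672)) (.cons (.rf (nat_lit 4004) (nat_lit 14242959524133700672)) (.cons (.rf (nat_lit 4101) (nat_lit 14242959524133700672)) (.cons (.rf (nat_lit 4104) (nat_lit 14242959524133701664)) (.cons (.rf (nat_lit 4105) (nat_lit 14242959524133701664)) (.cons (.br (nat_lit 2) (nat_lit 0) (.cons (.rf (nat_lit 3875) (nat_lit 14242959524133700672)) (.cons (.rf (nat_lit 4004) (nat_lit 14242959524133700672)) (.cons (.rf (nat_lit 4101) (nat_lit 14242959524133700672)) (.cons (.rf (nat_lit 4104) (nat_lit 14242959524133701664)) (.cons (.rf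 (nat_lit 4105) (nat_lit 14242959524133701664)) .nil)))))) .nil))))))),
 (.br (nat_lit 2) (nat_lit 0) (.cons (.rf (nat_lit 3875) (nat_lit 14242959524133700672)) (.cons (.rf (nat_lit 4004) (nat_lit 14242959524133700672)) (.cons (.rf (nat_lit 4101) (nat_lit 14242959524133700672)) (.cons (.rf (nat_lit 4104) (nat_lit 14242959524133701664)) (.cons (.rf (nat_lit 4106) (nat_lit 14242959524133701664)) (.cons (.rf (nat_lit 4106) (nat_lit 13126066816545818656)) (.cons (.br (nat_lit 2) (nat_lit 0) (.cons (.rf (nat_lit 3875) (nat_lit 14242959524133700672)) (.cons (.rf (nat_lit 4004) (nat_lit 14242959524133700672)) (.cons (.rf (nat_lit 4101) (nat_lit 14242959524133700672)) (.cons (.rf (nat_lit 4104) (nat_lit 14242959524133701664)) (.cons (.rf (nat_lit 4106) (nat_lit 14242959524133701664)) (.cons (.rf (nat_lit 4106) (nat_lit 13126066816545818656)) .nil))))))) .nil))))))))]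

theorem c151 : chkAll C T R L151 (nat_lit 4084) = true := by decide +kernel

theorem l151 : (nat_lit 4084) + L151.length = (nat_lit 4108) := by decide +kernel

/-- part of the certificates -/
def L152 : List Prf := [(.br (nat_lit 12) (nat_lit 0) (.cons (.br (nat_lit 7) (nat_lit 0) (.cons (.br (nat_lit 7) (nat_lit 0) .nil) .nil)) (.cons (.ev (nat_lit 79228162514264337597855760641) (nat_lit 1)) (.cons (.rf (nat_lit 4101) (nat_lit 8254119972907057569)) .nil)))),
 (.br (nat_lit 12) (nat_lit 0) (.cons (.rf (nat_lit 4108) (nat_lit 493858305440582043680)) (.cons (.br (nat_lit 13) (nat_lit 0) (.cons (.ev (nat_lit 161565687124966655710479650316) (nat_lit 4)) (.cons (.br (nat_lit 3) (nat_lit 0) (.cons (.ev (nat_lit 161565687124966655710479650316) (nat_lit 4)) .nil)) .nil))) (.cons (.rf (nat_lit 4101) (nat_lit 8254119972907057569)) .nil)))),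
 (.br (nat_lit 2) (nat_lit 0) (.cons (.rf (nat_lit 3875) (nat_lit 14242959524133700672)) (.cons (.rf (nat_lit 4004) (nat_lit 14242959524133700672)) (.cons (.rf (nat_lit 4101) (nat_lit 14242959524133700672)) (.cons (.rf (nat_lit 4107) (nat_lit 14242959524133700672)) (.cons (.br (nat_lit 12) (nat_lit 0) (.cons (.rf (nat_lit 4108) (nat_lit 493858305440582043680)) (.cons (.rf (nat_lit 4109) (nat_lit 493858305440582043680)) (.cons (.br (nat_lit 12) (nat_lit 0) (.cons (.ev (nat_lit 79228162514264337597855760641) (nat_lit 1)) (.cons (.rf (nat_lit 4109) (nat_lit 493858305440582043680)) (.cons (.rf (nat_lit 4101) (nat_lit 8254119972907057569)) .nil)))) (.cons (.rf (nat_lit 4101) (nat_lit 8254119972907057569)) .nil))))) .nil)))))),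
 (.br (nat_lit 7) (nat_lit 0) (.cons (.ev (nat_lit 81209177271167484478049843807748) (nat_lit 3)) .nil)),
 (.br (nat_lit 13) (nat_lit 0) (.cons (.rf (nat_lit 4110) (nat_lit 82041096267745276929)) (.cons (.br (nat_lit 5) (nat_lit 0) (.cons (.br (nat_lit 11) (nat_lit 0) (.cons (.ev (nat_lit 40644365317345273778694154093570) (nat_lit 3)) .nil)) (.cons (.rf (nat_lit 4111) (nat_lit 493858305440582043680)) (.cons (.rf (nat_lit 4111) (nat_lit 492741412732994159680)) .nil)))) (.cons (.rf (nat_lit 4004) (nat_lit 8254119972907057569)) (.cons (.rf (nat_lit 4004) (nat_lit 8254119938580873634)) .nil))))),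
 (.br (nat_lit 13) (nat_lit 0) (.cons (.rf (nat_lit 4110) (nat_lit 82041096267745276929)) (.cons (.br (nat_lit 7) (nat_lit 0) (.cons (.ev (nat_lit 20282409608374037189395696648448) (nat_lit 1)) (.cons (.ev (nat_lit 20282720302309678147994067730433) (nat_lit 1)) (.cons (.ev (nat_lit 20361638979814121140518886834433) (nat_lit 1)) .nil)))) (.cons (.rf (nat_lit 4004) (nat_lit 8254119972907057569)) (.cons (.rf (nat_lit 4004) (nat_lit 8254119938580873634)) .nil))))),
 (.br (nat_lit 2) (nat_lit 0) (.cons (.rf (nat_lit 1943) (nat_lit 427010)) (.cons (.rf (nat_lit 3875) (nat_lit 14242959524133700672)) (.cons (.rf (nat_lit 4004) (nat_lit 14242959524133700672)) (.cons (.rf (nat_lit 4101) (nat_lit 14242959524133700672)) (.cons (.rf (nat_lit 4110) (nat_lit 493858305440582042688)) (.cons (.br (nat_lit 1) (nat_lit 0) (.cons (.rf (nat_lit 3875) (nat_lit 14242959524133701664)) (.cons (.rf (nat_lit 4004) (nat_lit 14242959524133701664)) (.cons (.rf (nat_lit 4101) (nat_lit 14242959524133701664)) (.cons (.rf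 (nat_lit 4107) (nat_lit 14242959524133701664)) (.cons (.br (nat_lit 13) (nat_lit 0) (.cons (.rf (nat_lit 4112) (nat_lit 493858305440582043680)) (.cons (.rf (nat_lit 4113) (nat_lit 493858305440582043680)) (.cons (.br (nat_lit 13) (nat_lit 0) (.cons (.rf (nat_lit 4112) (nat_lit 493858305440582043680)) (.cons (.rf (nat_lit 4113) (nat_lit 493858305440582043680)) (.cons (.rf (nat_lit 4004) (nat_lit 8254119972907057569)) (.cons (.rf (nat_lit 4004) (nat_lit 8254119938580873634)) .nil))))) (.cons (.rf (nat_lit 4004) (nat_lit 8254119972907057569)) (.cons (.rf (nat_lit 4004) (nat_lit 8254119938580873634)) .nil)))))) .nil)))))) .nil))))))),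
 (.br (nat_lit 2) (nat_lit 0) (.cons (.rf (nat_lit 3875) (nat_lit 14242959524133700672)) (.cons (.rf (nat_lit 4004) (nat_lit 14242959524133700672)) (.cons (.rf (nat_lit 4101) (nat_lit 14242959524133700672)) (.cons (.rf (nat_lit 4114) (nat_lit 493858305440582042688)) (.cons (.rf (nat_lit 4114) (nat_lit 492741412732994159680)) (.cons (.rf (nat_lit 4114) (nat_lit 493858305440582043680)) .nil))))))),
 (.br (nat_lit 13) (nat_lit 0) (.cons (.rf (nat_lit 4114) (nat_lit 82041096267745276929)) (.cons (.br (nat_lit 2) (nat_lit 0) (.cons (.rf (nat_lit 3875) (nat_lit 14242959524133700672)) (.cons (.rf (nat_lit 4101) (nat_lit 14242959524133700672)) (.cons (.rf (nat_lit 4114) (nat_lit 493858305440582043680)) (.cons (.br (nat_lit 3) (nat_lit 0) (.cons (.br (nat_lit 10) (nat_lit 0) (.cons (.ev (nat_lit 81209485547159251644795410843395) (nat_lit 3)) .nil)) (.cons (.br (nat_lit 7) (nat_lit 0) (.cons (.ev (nat_lit 284272504016128048188746881696266) (nat_lit 4)) .nil)) (.cons (.br (nat_lit 7) (nat_lit 0)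 (.cons (.ev (nat_lit 121774923724519129799065121849605) (nat_lit 3)) .nil)) .nil)))) .nil))))) (.cons (.rf (nat_lit 3875) (nat_lit 8254119972907057569)) (.cons (.rf (nat_lit 4101) (nat_lit 8254119972907057569)) .nil))))),
 (.br (nat_lit 2) (nat_lit 0) (.cons (.rf (nat_lit 3875) (nat_lit 14242959524133700672)) (.cons (.rf (nat_lit 4004) (nat_lit 14242959524133700672)) (.cons (.rf (nat_lit 4101) (nat_lit 14242959524133700672)) (.cons (.rf (nat_lit 4107) (nat_lit 14242959524133700672)) (.cons (.br (nat_lit 13) (nat_lit 0) (.cons (.rf (nat_lit 4114) (nat_lit 82041096267745276929)) (.cons (.rf (nat_lit 4116) (nat_lit 82041096267745276929)) (.cons (.rf (nat_lit 4116) (nat_lit 493858305440582043680)) (.cons (.rf (nat_lit 3875) (nat_lit 8254119972907057569)) (.cons (.rf (nat_lit 4101) (nat_lit 8254119972907057569)) .nil)))))) .nil)))))),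
 (.br (nat_lit 2) (nat_lit 0) (.cons (.rf (nat_lit 3875) (nat_lit 14242959524133700672)) (.cons (.rf (nat_lit 4004) (nat_lit 14242959524133700672)) (.cons (.rf (nat_lit 4101) (nat_lit 14242959524133700672)) (.cons (.rf (nat_lit 4114) (nat_lit 493858305440582042688)) (.cons (.rf (nat_lit 4117) (nat_lit 493858305440582043680)) (.cons (.br (nat_lit 2) (nat_lit 0) (.cons (.rf (nat_lit 3875) (nat_lit 14242959524133700672)) (.cons (.rf (nat_lit 4004) (nat_lit 14242959524133700672)) (.cons (.rf (nat_lit 4101) (nat_lit 14242959524133700672)) (.cons (.rf (nat_lit 4114) (nat_lit 493858305440582043680)) (.cons (.rf (nat_lit 4117) (nat_lit 493858305440582043680)) .nil)))))) .nil))))))),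
 (.br (nat_lit 2) (nat_lit 0) (.cons (.rf (nat_lit 3875) (nat_lit 14242959524133700672)) (.cons (.rf (nat_lit 4004) (nat_lit 14242959524133700672)) (.cons (.rf (nat_lit 4101) (nat_lit 14242959524133700672)) (.cons (.rf (nat_lit 4114) (nat_lit 492741412732994159680)) (.cons (.rf (nat_lit 4118) (nat_lit 493858305440582043680)) (.cons (.br (nat_lit 2) (nat_lit 0) (.cons (.rf (nat_lit 3875) (nat_lit 14242959524133700672)) (.cons (.rf (nat_lit 4004) (nat_lit 14242959524133700672)) (.cons (.rf (nat_lit 4101) (nat_lit 14242959524133700672)) (.cons (.rf (nat_lit 4114) (nat_lit 493858305440582043680)) (.cons (.rf (nat_lit 4118) (nat_lit 493858305440582043680)) .nil)))))) .nil))))))),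
 (.br (nat_lit 1) (nat_lit 0) (.cons (.rf (nat_lit 3536) (nat_lit 14242959524133701664)) (.cons (.rf (nat_lit 3875) (nat_lit 14242959524133701664)) (.cons (.rf (nat_lit 4004) (nat_lit 14242959524133701664)) (.cons (.rf (nat_lit 4101) (nat_lit 14242959524133701664)) (.cons (.rf (nat_lit 4107) (nat_lit 14242959524133701664)) (.cons (.br (nat_lit 2) (nat_lit 0) (.cons (.rf (nat_lit 3875) (nat_lit 14242959524133700672)) (.cons (.rf (nat_lit 4004) (nat_lit 14242959524133700672)) (.cons (.rf (nat_lit 4101) (nat_lit 14242959524133700672)) (.cons (.rf (nat_lit 4115) (nat_lit 493858305440582043680)) (.cons (.rf (nat_lit 4118) (nat_lit 493858305440582043680)) (.cons (.rf (nat_lit 4119) (nat_lit 493858305440582043680)) (.cons (.br (nat_lit 2) (nat_lit 0) (.cons (.rf (nat_lit 3875) (nat_lit 14242959524133700672)) (.cons (.rf (nat_lit 4004) (nat_lit 14242959524133700672)) (.cons (.rf (nat_lit 4101) (nat_lit 14242959524133700672)) (.cons (.rf (nat_lit 4114) (nat_lit 493858305440582043680)) (.cons (.rf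 (nat_lit 4118) (nat_lit 493858305440582043680)) (.cons (.rf (nat_lit 4119) (nat_lit 493858305440582043680)) .nil))))))) .nil)))))))) .nil))))))),
 (.br (nat_lit 1) (nat_lit 0) (.cons (.rf (nat_lit 3536) (nat_lit 14242959524133701664)) (.cons (.rf (nat_lit 3875) (nat_lit 14242959524133701664)) (.cons (.rf (nat_lit 4004) (nat_lit 14242959524133701664)) (.cons (.rf (nat_lit 4101) (nat_lit 14242959524133701664)) (.cons (.rf (nat_lit 4120) (nat_lit 14242959524133701664)) (.cons (.rf (nat_lit 4120) (nat_lit 13126066816545818656)) (.cons (.br (nat_lit 1) (nat_lit 0) (.cons (.rf (nat_lit 1943) (nat_lit 428033)) (.cons (.rf (nat_lit 3875) (nat_lit 14242959524133701664)) (.cons (.rf (nat_lit 4004) (nat_lit 14242959524133701664)) (.cons (.rf (nat_lit 4101) (nat_lit 14242959524133701664)) (.cons (.rf (nat_lit 4120) (nat_lit 14242959524133701664)) (.cons (.rf (nat_lit 4120) (nat_lit 13126066816545818656)) .nil))))))) .nil)))))))),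
 (.br (nat_lit 5) (nat_lit 0) (.cons (.ev (nat_lit 79537647542604484330033053953) (nat_lit 1)) (.cons (.br (nat_lit 7) (nat_lit 0) (.cons (.ev (nat_lit 1208925819615732981367041) (nat_lit 1)) (.cons (.br (nat_lit 10) (nat_lit 0) (.cons (.ev (nat_lit 318153012726122997505908278276) (nat_lit 3)) .nil)) .nil))) (.cons (.br (nat_lit 7) (nat_lit 0) (.cons (.br (nat_lit 10) (nat_lit 0) (.cons (.ev (nat_lit 79541274357101495615402016770) (nat_lit 2)) .nil)) (.cons (.ev (nat_lit 20361947251194202851782758039808) (nat_lit 1)) .nil))) .nil)))),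
 (.br (nat_lit 3) (nat_lit 0) (.cons (.ev (nat_lit 79537647542604484330033053953) (nat_lit 1)) (.cons (.br (nat_lit 7) (nat_lit 0) (.cons (.ev (nat_lit 79538856468352323943936360705) (nat_lit 1)) (.cons (.br (nat_lit 10) (nat_lit 0) (.cons (.ev (nat_lit 20361947251231312794195874283521) (nat_lit 2)) .nil)) .nil))) (.cons (.rf (nat_lit 4035) (nat_lit 15356578025613461536)) .nil)))),
 (.br (nat_lit 7) (nat_lit 0) (.cons (.rf (nat_lit 4122) (nat_lit 493858305440582043680)) (.cons (.rf (nat_lit 4123) (nat_lit 493858305440582043680)) (.cons (.br (nat_lit 10) (nat_lit 0) (.cons (.br (nat_lit 5) (nat_lit 0) (.cons (.ev (nat_lit 20282410812577562096174758953216) (nat_lit 1)) .nil)) (.cons (.ev (nat_lit 1213666633124147017875713) (nat_lit 1)) (.cons (.rf (nat_lit 4084) (nat_lit 77936893513531809)) .nil)))) .nil)))),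
 (.br (nat_lit 2) (nat_lit 0) (.cons (.rf (nat_lit 3875) (nat_lit 14242959524133700672)) (.cons (.rf (nat_lit 4004) (nat_lit 14242959524133700672)) (.cons (.rf (nat_lit 4101) (nat_lit 14242959524133700672)) (.cons (.rf (nat_lit 4121) (nat_lit 14242959524133700672)) (.cons (.br (nat_lit 7) (nat_lit 0) (.cons (.rf (nat_lit 4122) (nat_lit 493858305440582043680)) (.cons (.rf (nat_lit 4123) (nat_lit 493858305440582043680)) (.cons (.rf (nat_lit 4124) (nat_lit 493858305440582043680)) (.cons (.br (nat_lit 7) (nat_lit 0) (.cons (.rf (nat_lit 4122) (nat_lit 493858305440582043680)) (.cons (.rf (nat_lit 4123) (nat_lit 493858305440582043680)) (.cons (.rf (nat_lit 4124) (nat_lit 493858305440582043680)) .nil)))) .nil))))) .nil)))))),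
 (.br (nat_lit 2) (nat_lit 0) (.cons (.rf (nat_lit 3875) (nat_lit 14242959524133700672)) (.cons (.rf (nat_lit 4004) (nat_lit 14242959524133700672)) (.cons (.rf (nat_lit 4101) (nat_lit 14242959524133700672)) (.cons (.rf (nat_lit 4121) (nat_lit 14242959524133700672)) (.cons (.rf (nat_lit 4125) (nat_lit 493858305440582043680)) (.cons (.br (nat_lit 2) (nat_lit 0) (.cons (.rf (nat_lit 3875) (nat_lit 14242959524133700672)) (.cons (.rf (nat_lit 4004) (nat_lit 14242959524133700672)) (.cons (.rf (nat_lit 4101) (nat_lit 14242959524133700672)) (.cons (.rf (nat_lit 4121) (nat_lit 14242959524133700672)) (.cons (.rf (nat_lit 4125) (nat_lit 493858305440582043680)) .nil)))))) .nil))))))),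
 (.br (nat_lit 1) (nat_lit 0) (.cons (.rf (nat_lit 3536) (nat_lit 14242959524133701664)) (.cons (.rf (nat_lit 3875) (nat_lit 14242959524133701664)) (.cons (.rf (nat_lit 4004) (nat_lit 14242959524133701664)) (.cons (.rf (nat_lit 4101) (nat_lit 14242959524133701664)) (.cons (.rf (nat_lit 4121) (nat_lit 14242959524133701664)) (.cons (.br (nat_lit 2) (nat_lit 0) (.cons (.rf (nat_lit 3875) (nat_lit 14242959524133700672)) (.cons (.rf (nat_lit 4004) (nat_lit 14242959524133700672)) (.cons (.rf (nat_lit 4101) (nat_lit 14242959524133700672)) (.cons (.rf (nat_lit 4121) (nat_lit 14242959524133700672)) (.cons (.rf (nat_lit 4126) (nat_lit 493858305440582043680)) (.cons (.rf (nat_lit 4126) (nat_lit 492741412732994160672)) (.cons (.br (nat_lit 2) (nat_lit 0) (.cons (.rf (nat_lit 3875) (nat_lit 14242959524133700672)) (.cons (.rf (nat_lit 4004) (nat_lit 14242959524133700672)) (.cons (.rf (nat_lit 4101) (nat_lit 14242959524133700672)) (.cons (.rf (nat_lit 4121) (nat_lit 14242959524133700672)) (.cons (.rf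 (nat_lit 4126) (nat_lit 493858305440582043680)) (.cons (.rf (nat_lit 4126) (nat_lit 492741412732994160672)) .nil))))))) .nil)))))))) .nil))))))),
 (.br (nat_lit 1) (nat_lit 0) (.cons (.rf (nat_lit 3536) (nat_lit 14242959524133701664)) (.cons (.rf (nat_lit 3875) (nat_lit 14242959524133701664)) (.cons (.rf (nat_lit 4004) (nat_lit 14242959524133701664)) (.cons (.rf (nat_lit 4101) (nat_lit 14242959524133701664)) (.cons (.rf (nat_lit 4121) (nat_lit 14242959524133701664)) (.cons (.rf (nat_lit 4127) (nat_lit 14242959524133701664)) (.cons (.br (nat_lit 1) (nat_lit 0) (.cons (.rf (nat_lit 1943) (nat_lit 428033)) (.cons (.rf (nat_lit 3875) (nat_lit 14242959524133701664)) (.cons (.rf (nat_lit 4004) (nat_lit 14242959524133701664)) (.cons (.rf (nat_lit 4101) (nat_lit 14242959524133701664)) (.cons (.rf (nat_lit 4121) (nat_lit 14242959524133701664)) (.cons (.rf (nat_lit 4127) (nat_lit 14242959524133701664)) .nil))))))) .nil)))))))),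
 (.br (nat_lit 1) (nat_lit 0) (.cons (.rf (nat_lit 3536) (nat_lit 14242959524133701664)) (.cons (.rf (nat_lit 3875) (nat_lit 14242959524133701664)) (.cons (.rf (nat_lit 4004) (nat_lit 14242959524133701664)) (.cons (.rf (nat_lit 4101) (nat_lit 14242959524133701664)) (.cons (.rf (nat_lit 4121) (nat_lit 14242959524133701664)) (.cons (.rf (nat_lit 4128) (nat_lit 14242959524133701664)) (.cons (.rf (nat_lit 4128) (nat_lit 13126066816545818656)) (.cons (.br (nat_lit 1) (nat_lit 0) (.cons (.rf (nat_lit 1943) (nat_lit 428033)) (.cons (.rf (nat_lit 3875) (nat_lit 14242959524133701664)) (.cons (.rf (nat_lit 4004) (nat_lit 14242959524133701664)) (.cons (.rf (nat_lit 4101) (nat_lit 14242959524133701664)) (.cons (.rf (nat_lit 4121) (nat_lit 14242959524133701664)) (.cons (.rf (nat_lit 4128) (nat_lit 14242959524133701664)) (.cons (.rf (nat_lit 4128) (nat_lit 13126066816545818656)) .nil)))))))) .nil))))))))),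
 (.br (nat_lit 1) (nat_lit 0) (.cons (.rf (nat_lit 4129) (nat_lit 14242959524133701633)) (.cons (.rf (nat_lit 4129) (nat_lit 14242959455481333761)) (.cons (.kr (nat_lit 1) (nat_lit 256) (nat_lit 0) (nat_lit 2)) (.cons (.rf (nat_lit 4129) (nat_lit 8262069443048343553)) (.cons (.rf (nat_lit 4129) (nat_lit 8262069408722159617)) (.cons (.rf (nat_lit 1943) (nat_lit 428033)) .nil)))))))]

theorem c152 : chkAll C T R L152 (nat_lit 4108) = true := by decide +kernel

theorem l152 : (nat_lit 4108) + L152.length = (nat_lit 4131) := by decide +kernel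

/-- part of the certificates -/
def L153 : List Prf := [(.br (nat_lit 11) (nat_lit 0) (.cons (.zr (nat_lit 2422592452456201737733376) (nat_lit 309485009893965621306130435) (nat_lit 5) (nat_lit 0)) (.cons (.rf (nat_lit 3092) (nat_lit 468816319643713)) .nil))),
 (.br (nat_lit 7) (nat_lit 0) (.cons (.zr (nat_lit 2422592452456201737733376) (nat_lit 309485009893965621306130435) (nat_lit 5) (nat_lit 0)) (.cons (.rf (nat_lit 3092) (nat_lit 468812158894114)) .nil))),
 (.br (nat_lit 11) (nat_lit 0) (.cons (.kr (nat_lit 158456329769341904329465922048) (nat_lit 618970019787086804797227008) (nat_lit 1) (nat_lit 0)) (.cons (.br (nat_lit 12) (nat_lit 0) (.cons (.ev (nat_lit 40565439386248948114477501383170) (nat_lit 2)) .nil)) .nil))),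
 (.br (nat_lit 7) (nat_lit 0) (.cons (.kr (nat_lit 158456329769341904329465922048) (nat_lit 618970019787086804797227008) (nat_lit 1) (nat_lit 0)) (.cons (.br (nat_lit 12) (nat_lit 0) (.cons (.ev (nat_lit 40565439386248948114477501513730) (nat_lit 2)) .nil)) .nil))),
 (.br (nat_lit 3) (nat_lit 0) (.cons (.ev (nat_lit 282574505115649) (nat_lit 1)) (.cons (.br (nat_lit 12) (nat_lit 0) (.cons (.rf (nat_lit 4131) (nat_lit 14242959524133701664)) (.cons (.rf (nat_lit 4132) (nat_lit 14242959524133701664)) (.cons (.br (nat_lit 12) (nat_lit 0) (.cons (.rf (nat_lit 4131) (nat_lit 14242959524133701664)) (.cons (.rf (nat_lit 4132) (nat_lit 14242959524133701664)) .nil))) .nil)))) (.cons (.ev (nat_lit 282574505181441) (nat_lit 1)) (.cons (.ev (nat_lit 18446745173238022144) (nat_lit 1)) (.cons (.br (nat_lit 10) (nat_lit 0) (.cons (.ev (nat_lit 1208925819615732981301249) (nat_lit 1)) (.cons (.ev (nat_lit 1208925819615732981367041) (nat_lit 1)) (.cons (.ev (nat_lit 1208944266641281667629056) (nat_lit 1))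 (.cons (.br (nat_lit 12) (nat_lit 0) (.cons (.rf (nat_lit 4133) (nat_lit 493858305440582043680)) (.cons (.rf (nat_lit 4134) (nat_lit 493858305440582043680)) (.cons (.br (nat_lit 12) (nat_lit 0) (.cons (.rf (nat_lit 4133) (nat_lit 493858305440582043680)) (.cons (.rf (nat_lit 4134) (nat_lit 493858305440582043680)) .nil))) .nil)))) .nil))))) .nil)))))),
 (.br (nat_lit 2) (nat_lit 0) (.cons (.rf (nat_lit 4129) (nat_lit 14242959524133700610)) (.cons (.kr (nat_lit 256) (nat_lit 65536) (nat_lit 1) (nat_lit 0)) (.cons (.rf (nat_lit 4129) (nat_lit 14235044137780184066)) (.cons (.rf (nat_lit 4135) (nat_lit 14242959524133701664)) (.cons (.rf (nat_lit 4135) (nat_lit 13126066816545818656)) (.cons (.rf (nat_lit 1943) (nat_lit 427010)) .nil))))))),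
 (.br (nat_lit 2) (nat_lit 0) (.cons (.rf (nat_lit 4129) (nat_lit 8262069443048342530)) (.cons (.rf (nat_lit 4136) (nat_lit 14242959524133701664)) (.cons (.rf (nat_lit 4136) (nat_lit 14242959455481333792)) (.cons (.rf (nat_lit 4129) (nat_lit 8254119972907058178)) (.cons (.kr (nat_lit 4740813226943354765824) (nat_lit 281479271809024) (nat_lit 1) (nat_lit 0)) (.cons (.rf (nat_lit 1943) (nat_lit 427010)) .nil))))))),
 (.br (nat_lit 2) (nat_lit 0) (.cons (.rf (nat_lit 4130) (nat_lit 14242959524133700672)) (.cons (.rf (nat_lit 4136) (nat_lit 14242959524133701664)) (.cons (.rf (nat_lit 4136) (nat_lit 14242959455481333792)) (.cons (.rf (nat_lit 4130) (nat_lit 14235044137780184128)) (.cons (.rf (nat_lit 4137) (nat_lit 14242959524133701664)) (.cons (.rf (nat_lit 4137) (nat_lit 13126066816545818656)) (.cons (.rf (nat_lit 1943) (nat_lit 427010)) .nil)))))))),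
 (.br (nat_lit 12) (nat_lit 0) (.cons (.zr (nat_lit 73786976312018075652) (nat_lit 79538861172344120329631760640) (nat_lit 10) (nat_lit 3)) (.cons (.rf (nat_lit 3092) (nat_lit 468645728911425)) .nil))),
 (.br (nat_lit 12) (nat_lit 0) (.cons (.ev (nat_lit 40723895725462878022729933521410) (nat_lit 2)) .nil)),
 (.br (nat_lit 13) (nat_lit 0) (.cons (.rf (nat_lit 4140) (nat_lit 493858305440582043680)) (.cons (.br (nat_lit 7) (nat_lit 0) (.cons (.ev (nat_lit 40564820416229304859199665209856) (nat_lit 2)) .nil)) .nil))),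
 (.br (nat_lit 2) (nat_lit 0) (.cons (.rf (nat_lit 4129) (nat_lit 14242959524133700610)) (.cons (.rf (nat_lit 4138) (nat_lit 14242959524133700672)) (.cons (.rf (nat_lit 4129) (nat_lit 14235044137780184066)) (.cons (.kr (nat_lit 256) (nat_lit 65536) (nat_lit 1) (nat_lit 0)) (.cons (.br (nat_lit 3) (nat_lit 0) (.cons (.ev (nat_lit 282574505115649) (nat_lit 1)) (.cons (.br (nat_lit 7) (nat_lit 0) (.cons (.rf (nat_lit 4139) (nat_lit 14242959524133701664)) (.cons (.rf (nat_lit 4139) (nat_lit 13126066816545817664)) (.cons (.br (nat_lit 7) (nat_lit 0) (.cons (.rf (nat_lit 4139) (nat_lit 14242959524133701664)) (.cons (.rf (nat_lit 4139) (nat_lit 13126066816545817664)) .nil))) .nil)))) (.cons (.ev (nat_lit 18446745173238022144) (nat_lit 1)) (.cons (.ev (nat_lit 18446745173237956864) (nat_lit 1)) (.cons (.br (nat_lit 10) (nat_lit 0) (.cons (.ev (nat_lit 1208925819615732981301249) (nat_lit 1)) (.cons (.ev (nat_lit 1208944266641281667629056) (nat_lit 1)) (.cons (.ev (nat_lit 1208944266641281667563776)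 (nat_lit 1)) (.cons (.br (nat_lit 7) (nat_lit 0) (.cons (.rf (nat_lit 4141) (nat_lit 493858305440582043680)) (.cons (.rf (nat_lit 4141) (nat_lit 492741412732994159680)) (.cons (.br (nat_lit 7) (nat_lit 0) (.cons (.rf (nat_lit 4140) (nat_lit 493858305440582043680)) (.cons (.rf (nat_lit 4140) (nat_lit 492741412732994159680)) .nil))) .nil)))) .nil))))) .nil)))))) (.cons (.rf (nat_lit 1943) (nat_lit 427010)) .nil))))))),
 (.br (nat_lit 7) (nat_lit 0) (.cons (.br (nat_lit 11) (nat_lit 0) (.cons (.ev (nat_lit 1585820538028099497395870375444) (nat_lit 5)) (.cons (.rf (nat_lit 2129) (nat_lit 470843477264416)) .nil))) (.cons (.br (nat_lit 10) (nat_lit 0) (.cons (.ev (nat_lit 1590752955445913052416057410064) (nat_lit 5)) (.cons (.rf (nat_lit 2129) (nat_lit 470842338543617)) .nil))) (.cons (.ev (nat_lit 475368979937514037238349168640) (nat_lit 3)) (.cons (.br (nat_lit 10) (nat_lit 0) (.cons (.rf (nat_lit 3510) (nat_lit 469676394120256)) (.cons (.rf (nat_lit 2129) (nat_lit 469671193183296)) (.cons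 (.br (nat_lit 11) (nat_lit 0) (.cons (.zr (nat_lit 1856910059000130205409869826) (nat_lit 237685701227872598431182618624) (nat_lit 10) (nat_lit 1)) (.cons (.br (nat_lit 12) (nat_lit 0) (.cons (.ev (nat_lit 79847132533979929754290291201) (nat_lit 2)) .nil)) .nil))) .nil)))) .nil))))),
 (.br (nat_lit 11) (nat_lit 0) (.cons (.ev (nat_lit 158765810093690253580781617666) (nat_lit 2)) (.cons (.rf (nat_lit 2124) (nat_lit 470843484375072)) .nil))),
 (.br (nat_lit 7) (nat_lit 0) (.cons (.ev (nat_lit 623810574705042944067634180) (nat_lit 3)) (.cons (.br (nat_lit 13) (nat_lit 0) (.cons (.br (nat_lit 13) (nat_lit 0) .nil) .nil)) .nil))),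
 (.br (nat_lit 7) (nat_lit 0) (.cons (.ev (nat_lit 79228162569677192570605797376) (nat_lit 2)) (.cons (.rf (nat_lit 2124) (nat_lit 469671193183296)) .nil))),
 (.br (nat_lit 7) (nat_lit 0) (.cons (.br (nat_lit 12) (nat_lit 0) (.cons (.zr (nat_lit 7258295731196197775738368) (nat_lit 81447789004703312661212278292484) (nat_lit 20) (nat_lit 0)) .nil)) (.cons (.br (nat_lit 11) (nat_lit 0) (.cons (.ev (nat_lit 309485046859793941579956481) (nat_lit 2)) .nil)) (.cons (.br (nat_lit 11) (nat_lit 0) (.cons (.ev (nat_lit 41042046301447462379230026792962) (nat_lit 3)) .nil)) .nil)))),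
 (.br (nat_lit 2) (nat_lit 0) (.cons (.rf (nat_lit 4129) (nat_lit 14242959455481332738)) (.cons (.rf (nat_lit 4138) (nat_lit 14242959524133700672)) (.cons (.rf (nat_lit 4129) (nat_lit 14235044069127816194)) (.cons (.rf (nat_lit 4142) (nat_lit 8262069443048343584)) (.cons (.br (nat_lit 3) (nat_lit 0) (.cons (.rf (nat_lit 4143) (nat_lit 14242959524133701664)) (.cons (.rf (nat_lit 4143) (nat_lit 13126066747893449792)) (.cons (.br (nat_lit 5) (nat_lit 0) (.cons (.rf (nat_lit 4144) (nat_lit 14242959524133701664)) (.cons (.rf (nat_lit 4145) (nat_lit 14242959524133701664)) (.cons (.rf (nat_lit 4146) (nat_lit 14242959524133701664)) (.cons (.br (nat_lit 7) (nat_lit 0) (.cons (.rf (nat_lit 2124) (nat_lit 470837243250720)) (.cons (.rf (nat_lit 4145) (nat_lit 13126066747893449792)) (.cons (.br (nat_lit 11) (nat_lit 0) (.cons (.rf (nat_lit 2124) (nat_lit 465511483803680)) (.cons (.br (nat_lit 12) (nat_lit 0) (.cons (.ev (nat_lit 477235561513391256594060938240) (nat_lit 4)) .nil)) .nil))) .nil)))) .nil)))))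 (.cons (.rf (nat_lit 4143) (nat_lit 8262069443048343584)) (.cons (.rf (nat_lit 4143) (nat_lit 6028283993546392640)) (.cons (.br (nat_lit 10) (nat_lit 0) (.cons (.rf (nat_lit 4143) (nat_lit 14235044137780185120)) (.cons (.rf (nat_lit 4143) (nat_lit 13118151361539933248)) (.cons (.rf (nat_lit 4143) (nat_lit 8254119972907059232)) (.cons (.rf (nat_lit 4143) (nat_lit 6020334523405108288)) (.cons (.br (nat_lit 13) (nat_lit 0) (.cons (.rf (nat_lit 4147) (nat_lit 493858305440582043680)) (.cons (.rf (nat_lit 4147) (nat_lit 492741412664341791808)) (.cons (.rf (nat_lit 4147) (nat_lit 487877415359496685600)) (.cons (.rf (nat_lit 4147) (nat_lit 485643629909994734656)) .nil))))) .nil)))))) .nil))))))) (.cons (.rf (nat_lit 1943) (nat_lit 427010)) .nil))))))),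
 (.br (nat_lit 2) (nat_lit 0) (.cons (.rf (nat_lit 4130) (nat_lit 14242959524133700672)) (.cons (.rf (nat_lit 4142) (nat_lit 14242959524133701664)) (.cons (.rf (nat_lit 4148) (nat_lit 14242959524133701664)) (.cons (.rf (nat_lit 4130) (nat_lit 14235044137780184128)) (.cons (.rf (nat_lit 4142) (nat_lit 8262069443048343584)) (.cons (.rf (nat_lit 4148) (nat_lit 8262069443048343584)) (.cons (.rf (nat_lit 1943) (nat_lit 427010)) .nil)))))))),
 (.br (nat_lit 1) (nat_lit 0) (.cons (.rf (nat_lit 4129) (nat_lit 14242959524133701633)) (.cons (.rf (nat_lit 4138) (nat_lit 14242959524133701664)) (.cons (.rf (nat_lit 4129) (nat_lit 14235044137780185089)) (.cons (.rf (nat_lit 4149) (nat_lit 14242959524133701664)) (.cons (.rf (nat_lit 4149) (nat_lit 13126066816545818656)) (.cons (.rf (nat_lit 1943) (nat_lit 428033)) .nil))))))),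
 (.br (nat_lit 1) (nat_lit 0) (.cons (.rf (nat_lit 4130) (nat_lit 14242959524133701664)) (.cons (.rf (nat_lit 4150) (nat_lit 14242959524133701664)) (.cons (.rf (nat_lit 4150) (nat_lit 14242959455481333792)) (.cons (.rf (nat_lit 4130) (nat_lit 14235044137780185120)) (.cons (.rf (nat_lit 4150) (nat_lit 8262069443048343584)) (.cons (.rf (nat_lit 4150) (nat_lit 8262069408722159648)) (.cons (.rf (nat_lit 1943) (nat_lit 428033)) .nil)))))))),
 (.br (nat_lit 1) (nat_lit 0) (.cons (.rf (nat_lit 3196) (nat_lit 246234056736)) (.cons (.rf (nat_lit 2200) (nat_lit 265018766673642560)) (.cons (.rf (nat_lit 2200) (nat_lit 266109482208396352)) (.cons (.rf (nat_lit 4129) (nat_lit 14242959524133712897)) .nil))))),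
 (.br (nat_lit 1) (nat_lit 0) (.cons (.rf (nat_lit 4129) (nat_lit 8262069408722159617)) (.cons (.ev (nat_lit 309485028340429315272343808) (nat_lit 1)) (.cons (.rf (nat_lit 4129) (nat_lit 8262069408722170881)) .nil)))),
 (.br (nat_lit 1) (nat_lit 0) (.cons (.rf (nat_lit 1943) (nat_lit 428033)) (.cons (.rf (nat_lit 4129) (nat_lit 14242959524133712897)) (.cons (.rf (nat_lit 4129) (nat_lit 14242959455481345025)) (.cons (.rf (nat_lit 4129) (nat_lit 8262069443048354817)) (.cons (.rf (nat_lit 4129) (nat_lit 8262069408722170881)) .nil)))))),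
 (.br (nat_lit 1) (nat_lit 0) (.cons (.br (nat_lit 1) (nat_lit 0) (.cons (.rf (nat_lit 4129) (nat_lit 8262069408722170881)) .nil)) (.cons (.rf (nat_lit 4154) (nat_lit 493858305440582043680)) .nil))),
 (.br (nat_lit 7) (nat_lit 0) (.cons (.rf (nat_lit 4152) (nat_lit 14242959455481333792)) (.cons (.br (nat_lit 1) (nat_lit 0) (.cons (.rf (nat_lit 4153) (nat_lit 14242959524133701664)) (.cons (.rf (nat_lit 2187) (nat_lit 14679295722560)) .nil))) (.cons (.ev (nat_lit 4741246423559714111492) (nat_lit 3)) (.cons (.br (nat_lit 13) (nat_lit 0) (.cons (.rf (nat_lit 4154) (nat_lit 493858305440582043680)) (.cons (.rf (nat_lit 4155) (nat_lit 493858305440582043680)) (.cons (.br (nat_lit 13) (nat_lit 0) (.cons (.rf (nat_lit 4154) (nat_lit 493858305440582043680)) (.cons (.rf (nat_lit 4155) (nat_lit 493858305440582043680)) .nil))) .nil)))) .nil))))),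
 (.br (nat_lit 1) (nat_lit 0) (.cons (.br (nat_lit 11) (nat_lit 0) (.cons (.ev (nat_lit 309489750634853487073100033) (nat_lit 1)) (.cons (.br (nat_lit 12) (nat_lit 0) (.cons (.ev (nat_lit 159075299936993993290988913664) (nat_lit 4)) .nil)) .nil))) (.cons (.rf (nat_lit 4129) (nat_lit 8262069443048354817)) .nil))),
 (.br (nat_lit 1) (nat_lit 0) (.cons (.br (nat_lit 10) (nat_lit 0) (.cons (.zr (nat_lit 4759548482876783001600) (nat_lit 620178945462311363710812673) (nat_lit 10) (nat_lit 7)) (.cons (.rf (nat_lit 2313) (nat_lit 470976628361248)) .nil))) (.cons (.br (nat_lit 7) (nat_lit 0) (.cons (.ev (nat_lit 4741246423559714111492) (nat_lit 3)) (.cons (.rf (nat_lit 2334) (nat_lit 470843484375072)) .nil))) (.cons (.rf (nat_lit 4129) (nat_lit 8262069408722170881)) .nil)))),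
 (.br (nat_lit 7) (nat_lit 0) (.cons (.br (nat_lit 1) (nat_lit 0) (.cons (.zr (nat_lit 4759548482876783001600) (nat_lit 620178945462311363710812673) (nat_lit 10) (nat_lit 7)) (.cons (.rf (nat_lit 2336) (nat_lit 470843484375072)) .nil))) (.cons (.ev (nat_lit 4741246423559714111492) (nat_lit 3)) (.cons (.rf (nat_lit 2688) (nat_lit 469911469361184)) .nil)))),
 (.br (nat_lit 12) (nat_lit 0) (.cons (.rf (nat_lit 4158) (nat_lit 14242959524133701664)) (.cons (.ev (nat_lit 4741246423559714111492) (nat_lit 3)) (.cons (.rf (nat_lit 4159) (nat_lit 14242959524133701664)) (.cons (.br (nat_lit 12) (nat_lit 0) (.cons (.rf (nat_lit 4158) (nat_lit 14242959524133701664)) (.cons (.ev (nat_lit 4741246423559714111492) (nat_lit 3)) (.cons (.rf (nat_lit 4159) (nat_lit 14242959524133701664)) .nil)))) .nil))))),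
 (.br (nat_lit 1) (nat_lit 0) (.cons (.zr (nat_lit 4722367338293986722816) (nat_lit 2417870806549272471797762) (nat_lit 20) (nat_lit 5)) (.cons (.br (nat_lit 7) (nat_lit 0) (.cons (.zr (nat_lit 73786976312018075652) (nat_lit 79538861172344120329631760640) (nat_lit 10) (nat_lit 3)) (.cons (.rf (nat_lit 2312) (nat_lit 470837243250720)) .nil))) (.cons (.rf (nat_lit 2330) (nat_lit 15064795604682784)) .nil)))),
 (.br (nat_lit 1) (nat_lit 0) (.cons (.br (nat_lit 9) (nat_lit 0) .nil) .nil)),
 (.br (nat_lit 1) (nat_lit 0) (.cons (.rf (nat_lit 4129) (nat_lit 8262069408722159617)) (.cons (.ev (nat_lit 310698658007724046816379136) (nat_lit 1)) (.cons (.rf (nat_lit 4129) (nat_lit 8262069408722170881)) .nil))))]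

theorem c153 : chkAll C T R L153 (nat_lit 4131) = true := by decide +kernel

theorem l153 : (nat_lit 4131) + L153.length = (nat_lit 4164) := by decide +kernel

/-- part of the certificates -/
def L154 : List Prf := [(.br (nat_lit 1) (nat_lit 0) (.cons (.ev (nat_lit 4851927450951925236738) (nat_lit 3)) (.cons (.rf (nat_lit 4129) (nat_lit 8262069443048354817)) (.cons (.rf (nat_lit 4129) (nat_lit 8262069408722170881)) .nil)))),
 (.br (nat_lit 7) (nat_lit 0) (.cons (.ev (nat_lit 159075299862772413000612578822) (nat_lit 3)) (.cons (.br (nat_lit 12) (nat_lit 0) (.cons (.ev (nat_lit 40564820416229160746210612609536) (nat_lit 2)) .nil)) .nil))),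
 (.br (nat_lit 1) (nat_lit 0) (.cons (.rf (nat_lit 4129) (nat_lit 14242959524133712897)) (.cons (.rf (nat_lit 4129) (nat_lit 14242959455481345025)) (.cons (.br (nat_lit 5) (nat_lit 0) (.cons (.ev (nat_lit 282574505115649) (nat_lit 1)) (.cons (.rf (nat_lit 4165) (nat_lit 493858305440582043680)) (.cons (.br (nat_lit 7) (nat_lit 0) (.cons (.rf (nat_lit 4165) (nat_lit 493858305371929675808)) (.cons (.ev (nat_lit 40573485996504595824646996235798) (nat_lit 5)) .nil))) .nil)))) (.cons (.rf (nat_lit 4129) (nat_lit 8262069408722170881)) .nil))))),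
 (.br (nat_lit 13) (nat_lit 0) (.cons (.rf (nat_lit 4166) (nat_lit 493858305440582043680)) (.cons (.ev (nat_lit 310693935641241172876263424) (nat_lit 1)) (.cons (.br (nat_lit 10) (nat_lit 0) (.cons (.br (nat_lit 1) (nat_lit 0) (.cons (.ev (nat_lit 40565439386248948114477501383170) (nat_lit 2)) .nil)) (.cons (.ev (nat_lit 40723276741313173487323338440705) (nat_lit 2)) .nil))) .nil)))),
 (.br (nat_lit 13) (nat_lit 0) (.cons (.rf (nat_lit 4166) (nat_lit 493858305440582043680)) (.cons (.rf (nat_lit 4167) (nat_lit 493858305440582043680)) (.cons (.ev (nat_lit 310698676454186645549285376) (nat_lit 1)) (.cons (.br (nat_lit 13) (nat_lit 0) (.cons (.rf (nat_lit 4166) (nat_lit 493858305440582043680)) (.cons (.rf (nat_lit 4167) (nat_lit 493858305440582043680)) (.cons (.ev (nat_lit 310698676454186645549285376) (nat_lit 1)) .nil)))) .nil))))),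
 (.br (nat_lit 11) (nat_lit 0) (.cons (.ev (nat_lit 309489750634853487073099776) (nat_lit 1)) (.cons (.rf (nat_lit 4160) (nat_lit 14242959524133701664)) (.cons (.rf (nat_lit 4160) (nat_lit 14242959455481333792)) (.cons (.br (nat_lit 5) (nat_lit 0) (.cons (.rf (nat_lit 4161) (nat_lit 14242959524133701664)) (.cons (.ev (nat_lit 282574505115649) (nat_lit 1)) (.cons (.br (nat_lit 7) (nat_lit 0) (.cons (.rf (nat_lit 4161) (nat_lit 14242959455481333792)) (.cons (.rf (nat_lit 4162) (nat_lit 13583074297888)) (.cons (.rf (nat_lit 3958) (nat_lit 465277434529824)) .nil)))) (.cons (.br (nat_lit 7) (nat_lit 0) (.cons (.rf (nat_lit 4161) (nat_lit 14242959455481333792)) (.cons (.rf (nat_lit 3958) (nat_lit 463147130751008)) (.cons (.br (nat_lit 1) (nat_lit 0) (.cons (.rf (nat_lit 4163) (nat_lit 493858305440582043680)) (.cons (.rf (nat_lit 4164) (nat_lit 493858305440582043680)) .nil))) .nil)))) .nil))))) (.cons (.ev (nat_lit 309489732187827938386771969) (nat_lit 1)) (.cons (.br (nat_lit 13) (nat_lit 0)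 (.cons (.rf (nat_lit 4166) (nat_lit 493858305440582043680)) (.cons (.rf (nat_lit 4168) (nat_lit 493858305440582043680)) (.cons (.rf (nat_lit 4168) (nat_lit 493858305371929675808)) (.cons (.ev (nat_lit 310698676454186645549285376) (nat_lit 1)) (.cons (.br (nat_lit 13) (nat_lit 0) (.cons (.rf (nat_lit 4166) (nat_lit 493858305440582043680)) (.cons (.rf (nat_lit 4168) (nat_lit 493858305440582043680)) (.cons (.rf (nat_lit 4168) (nat_lit 493858305371929675808)) (.cons (.ev (nat_lit 310698676454186645549285376) (nat_lit 1)) .nil))))) .nil)))))) .nil))))))),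
 (.br (nat_lit 11) (nat_lit 0) (.cons (.br (nat_lit 12) (nat_lit 0) (.cons (.ev (nat_lit 40644360481605029773319272923650) (nat_lit 2)) .nil)) (.cons (.ev (nat_lit 1237944890923474933585675270) (nat_lit 3)) .nil))),
 (.br (nat_lit 1) (nat_lit 0) (.cons (.rf (nat_lit 4170) (nat_lit 493858305440582043680)) (.cons (.rf (nat_lit 4170) (nat_lit 492741412732994160672)) (.cons (.rf (nat_lit 4129) (nat_lit 14242959524133712897)) .nil)))),
 (.br (nat_lit 13) (nat_lit 0) (.cons (.rf (nat_lit 4129) (nat_lit 14242959524133712897)) (.cons (.rf (nat_lit 4171) (nat_lit 493858305440582043680)) (.cons (.br (nat_lit 1) (nat_lit 0) (.cons (.br (nat_lit 11) (nat_lit 0) (.cons (.ev (nat_lit 623810537809865946788135424) (nat_lit 3)) .nil)) (.cons (.ev (nat_lit 1237944890923474933585675270) (nat_lit 3)) (.cons (.ev (nat_lit 316912654908695445032862352390) (nat_lit 3)) .nil)))) .nil)))),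
 (.br (nat_lit 13) (nat_lit 0) (.cons (.rf (nat_lit 4129) (nat_lit 14242959524133712897)) (.cons (.rf (nat_lit 4171) (nat_lit 493858305440582043680)) (.cons (.rf (nat_lit 4172) (nat_lit 493858305440582043680)) (.cons (.rf (nat_lit 4172) (nat_lit 492741412732994160672)) .nil))))),
 (.br (nat_lit 7) (nat_lit 0) (.cons (.ev (nat_lit 310698676454186645549220096) (nat_lit 1)) (.cons (.ev (nat_lit 4740813228047178137601) (nat_lit 1)) (.cons (.ev (nat_lit 79538861172271781260600344576) (nat_lit 1)) .nil)))),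
 (.br (nat_lit 13) (nat_lit 0) (.cons (.rf (nat_lit 4129) (nat_lit 14242959524133712897)) (.cons (.rf (nat_lit 4173) (nat_lit 493858305440582043680)) (.cons (.br (nat_lit 1) (nat_lit 0) (.cons (.ev (nat_lit 81129645672939739295245383630850) (nat_lit 3)) (.cons (.rf (nat_lit 4174) (nat_lit 493858305440582043680)) (.cons (.rf (nat_lit 4174) (nat_lit 492741412732994160672)) .nil)))) .nil)))),
 (.br (nat_lit 13) (nat_lit 0) (.cons (.rf (nat_lit 4129) (nat_lit 14242959524133712897)) (.cons (.rf (nat_lit 4173) (nat_lit 493858305440582043680)) (.cons (.rf (nat_lit 4175) (nat_lit 493858305440582043680)) (.cons (.rf (nat_lit 4175) (nat_lit 492741412732994160672)) .nil))))),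
 (.br (nat_lit 13) (nat_lit 0) (.cons (.rf (nat_lit 4129) (nat_lit 14242959524133712897)) (.cons (.rf (nat_lit 4173) (nat_lit 493858305440582043680)) (.cons (.rf (nat_lit 4176) (nat_lit 493858305440582043680)) (.cons (.br (nat_lit 13) (nat_lit 0) (.cons (.rf (nat_lit 4129) (nat_lit 14242959524133712897)) (.cons (.rf (nat_lit 4173) (nat_lit 493858305440582043680)) (.cons (.rf (nat_lit 4176) (nat_lit 493858305440582043680)) .nil)))) .nil))))),
 (.br (nat_lit 13) (nat_lit 0) (.cons (.rf (nat_lit 4129) (nat_lit 14242959524133712897)) (.cons (.rf (nat_lit 4173) (nat_lit 493858305440582043680)) (.cons (.rf (nat_lit 4176) (nat_lit 493858305440582043680)) (.cons (.rf (nat_lit 4177) (nat_lit 493858305440582043680)) (.cons (.rf (nat_lit 4177) (nat_lit 492741412732994160672)) .nil)))))),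
 (.br (nat_lit 1) (nat_lit 0) (.cons (.ev (nat_lit 1208925891672227507601409) (nat_lit 1)) (.cons (.br (nat_lit 7) (nat_lit 0) (.cons (.ev (nat_lit 310698658079782740365934848) (nat_lit 1)) (.cons (.ev (nat_lit 79229376162522775265185104128) (nat_lit 1)) (.cons (.br (nat_lit 11) (nat_lit 0) (.cons (.kr (nat_lit 309485009821345068724781056) (nat_lit 79228162514264337593543950336) (nat_lit 11) (nat_lit 0)) (.cons (.br (nat_lit 12) (nat_lit 0) (.cons (.ev (nat_lit 79538861172343837755126644736) (nat_lit 1)) .nil)) .nil))) .nil)))) (.cons (.rf (nat_lit 4129) (nat_lit 8262069443048354817)) .nil)))),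
 (.br (nat_lit 1) (nat_lit 0) (.cons (.ev (nat_lit 1208925891672227507601409) (nat_lit 1)) (.cons (.rf (nat_lit 4179) (nat_lit 493858305440582043680)) (.cons (.rf (nat_lit 4179) (nat_lit 492741412732994160672)) (.cons (.br (nat_lit 1) (nat_lit 0) (.cons (.ev (nat_lit 1208925891672227507601409) (nat_lit 1)) (.cons (.rf (nat_lit 4129) (nat_lit 8262069443048354817)) (.cons (.rf (nat_lit 4129) (nat_lit 8262069408722170881)) .nil)))) .nil))))),
 (.br (nat_lit 12) (nat_lit 0) (.cons (.ev (nat_lit 309489732259886631936327936) (nat_lit 1)) (.cons (.br (nat_lit 12) (nat_lit 0) (.cons (.ev (nat_lit 309489732259886631936327936) (nat_lit 1)) .nil)) .nil))),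
 (.br (nat_lit 13) (nat_lit 0) (.cons (.rf (nat_lit 3699) (nat_lit 492735783233627719712)) (.cons (.ev (nat_lit 79228162514264337597855760641) (nat_lit 1)) .nil))),
 (.br (nat_lit 12) (nat_lit 0) (.cons (.rf (nat_lit 4182) (nat_lit 493858305440582043680)) (.cons (.br (nat_lit 12) (nat_lit 0) (.cons (.rf (nat_lit 4182) (nat_lit 493858305440582043680)) (.cons (.ev (nat_lit 79537652264970967203973169153) (nat_lit 1)) .nil))) (.cons (.br (nat_lit 12) (nat_lit 0) (.cons (.ev (nat_lit 79228162514264337597855760641) (nat_lit 1)) (.cons (.ev (nat_lit 79537652264970967203973169153) (nat_lit 1)) .nil))) .nil)))),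
 (.br (nat_lit 1) (nat_lit 0) (.cons (.rf (nat_lit 4183) (nat_lit 493858305440582043680)) (.cons (.br (nat_lit 10) (nat_lit 0) (.cons (.ev (nat_lit 79229376162450716571635548416) (nat_lit 1)) (.cons (.br (nat_lit 12) (nat_lit 0) (.cons (.ev (nat_lit 79538861172343837755126644736) (nat_lit 1)) .nil)) .nil))) (.cons (.rf (nat_lit 4129) (nat_lit 8262069443048354817)) .nil)))),
 (.br (nat_lit 7) (nat_lit 0) (.cons (.rf (nat_lit 4178) (nat_lit 493858305371929675808)) (.cons (.rf (nat_lit 4180) (nat_lit 493858305371929675808)) (.cons (.br (nat_lit 1) (nat_lit 0) (.cons (.rf (nat_lit 4181) (nat_lit 493858305440582043680)) (.cons (.rf (nat_lit 4153) (nat_lit 14242959524133701664)) (.cons (.br (nat_lit 1) (nat_lit 0) (.cons (.rf (nat_lit 4181) (nat_lit 493858305440582043680)) (.cons (.rf (nat_lit 4129) (nat_lit 8262069408722170881)) .nil))) .nil)))) (.cons (.ev (nat_lit 4741246423559714111492) (nat_lit 3)) (.cons (.br (nat_lit 1) (nat_lit 0) (.cons (.rf (nat_lit 4183) (nat_lit 493858305440582043680))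 (.cons (.rf (nat_lit 4184) (nat_lit 493858305440582043680)) (.cons (.br (nat_lit 1) (nat_lit 0) (.cons (.rf (nat_lit 4182) (nat_lit 493858305440582043680)) (.cons (.rf (nat_lit 4184) (nat_lit 493858305440582043680)) (.cons (.rf (nat_lit 4129) (nat_lit 8262069408722170881)) .nil)))) (.cons (.br (nat_lit 1) (nat_lit 0) (.cons (.rf (nat_lit 4183) (nat_lit 493858305440582043680)) (.cons (.rf (nat_lit 4129) (nat_lit 8262069443048354817)) (.cons (.rf (nat_lit 4129) (nat_lit 8262069408722170881)) .nil)))) .nil))))) .nil)))))),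
 (.br (nat_lit 11) (nat_lit 0) (.cons (.br (nat_lit 12) (nat_lit 0) (.cons (.ev (nat_lit 40565439391026509867751951172096) (nat_lit 2)) .nil)) (.cons (.ev (nat_lit 310698676454186645549285633) (nat_lit 1)) .nil))),
 (.br (nat_lit 1) (nat_lit 0) (.cons (.br (nat_lit 1) (nat_lit 0) (.cons (.ev (nat_lit 310698658007724046816379136) (nat_lit 1)) (.cons (.ev (nat_lit 309489750634853487073100033) (nat_lit 1)) .nil))) (.cons (.rf (nat_lit 4163) (nat_lit 493858305440582043680)) (.cons (.rf (nat_lit 4164) (nat_lit 493858305440582043680)) .nil)))),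
 (.br (nat_lit 2) (nat_lit 0) (.cons (.rf (nat_lit 4151) (nat_lit 14242959524133701664)) (.cons (.br (nat_lit 5) (nat_lit 0) (.cons (.rf (nat_lit 4152) (nat_lit 14242959524133701664)) (.cons (.ev (nat_lit 282574505115649) (nat_lit 1)) (.cons (.rf (nat_lit 4156) (nat_lit 14242959524133701664)) (.cons (.rf (nat_lit 4156) (nat_lit 13126066816545818656)) (.cons (.br (nat_lit 7) (nat_lit 0) (.cons (.rf (nat_lit 4152) (nat_lit 14242959455481333792)) (.cons (.rf (nat_lit 4156) (nat_lit 14242959455481333792)) (.cons (.rf (nat_lit 4156) (nat_lit 13126066747893450784)) (.cons (.br (nat_lit 1) (nat_lit 0) (.cons (.rf (nat_lit 4157) (nat_lit 493858305440582043680)) (.cons (.rf (nat_lit 4157) (nat_lit 492741412732994160672)) (.cons (.rf (nat_lit 4154) (nat_lit 493858305440582043680)) .nil)))) .nil))))) .nil)))))) (.cons (.rf (nat_lit 4169) (nat_lit 14242959524133701664)) (.cons (.rf (nat_lit 4169) (nat_lit 13126066816545818656)) (.cons (.br (nat_lit 5) (nat_lit 0) (.cons (.rf (nat_lit 4178) (nat_lit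 493858305440582043680)) (.cons (.ev (nat_lit 282574505115649) (nat_lit 1)) (.cons (.rf (nat_lit 4180) (nat_lit 493858305440582043680)) (.cons (.rf (nat_lit 4185) (nat_lit 493858305440582043680)) (.cons (.rf (nat_lit 4185) (nat_lit 492741412732994160672)) (.cons (.br (nat_lit 7) (nat_lit 0) (.cons (.rf (nat_lit 4178) (nat_lit 493858305371929675808)) (.cons (.rf (nat_lit 4180) (nat_lit 493858305371929675808)) (.cons (.rf (nat_lit 4185) (nat_lit 493858305371929675808)) (.cons (.rf (nat_lit 4185) (nat_lit 492741412664341792800)) (.cons (.br (nat_lit 10) (nat_lit 0) (.cons (.br (nat_lit 1) (nat_lit 0) (.cons (.rf (nat_lit 4186) (nat_lit 493858305440582043680)) (.cons (.rf (nat_lit 4186) (nat_lit 492741412732994160672)) (.cons (.ev (nat_lit 40564820444600397246755422470144) (nat_lit 3)) .nil)))) (.cons (.rf (nat_lit 4187) (nat_lit 493858305440582043680)) (.cons (.rf (nat_lit 4187) (nat_lit 492741412732994160672)) (.cons (.ev (nat_lit 81129645673013239162665930194950) (nat_lit 3)) .nil))))) .nil))))))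 .nil))))))) .nil)))))),
 (.br (nat_lit 1) (nat_lit 0) (.cons (.rf (nat_lit 2200) (nat_lit 265017668468312096)) (.cons (.rf (nat_lit 3196) (nat_lit 383668815904)) (.cons (.br (nat_lit 11) (nat_lit 0) (.cons (.br (nat_lit 7) (nat_lit 0) (.cons (.zr (nat_lit 33056567350412353470472) (nat_lit 1240357909515470998385722368) (nat_lit 20) (nat_lit 10)) (.cons (.rf (nat_lit 2234) (nat_lit 15071186508907584)) .nil))) (.cons (.ev (nat_lit 309489732187827938386771969) (nat_lit 1)) (.cons (.rf (nat_lit 2163) (nat_lit 14896565956445248)) .nil)))) (.cons (.rf (nat_lit 4129) (nat_lit 14242959524133712897)) .nil))))),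
 (.br (nat_lit 1) (nat_lit 0) (.cons (.rf (nat_lit 2200) (nat_lit 265017668468312096)) (.cons (.rf (nat_lit 4189) (nat_lit 8262069443048343584)) (.cons (.br (nat_lit 5) (nat_lit 0) (.cons (.ev (nat_lit 282574505115649) (nat_lit 1)) (.cons (.zr (nat_lit 2417851639229258383163648) (nat_lit 309489732188110512858333187) (nat_lit 5) (nat_lit 0)) (.cons (.br (nat_lit 7) (nat_lit 0) (.cons (.ev (nat_lit 309485065306256540312928256) (nat_lit 2)) (.cons (.rf (nat_lit 2173) (nat_lit 463285482784800)) .nil))) (.cons (.br (nat_lit 7) (nat_lit 0) (.cons (.rf (nat_lit 2173) (nat_lit 465517717816384)) (.cons (.zr (nat_lit 2417851639229258383033088) (nat_lit 79228162532783139265586397187) (nat_lit 5) (nat_lit 0)) (.cons (.br (nat_lit 11) (nat_lit 0) (.cons (.ev (nat_lit 309485028268370621722787841) (nat_lit 1)) (.cons (.br (nat_lit 12) (nat_lit 0) (.cons (.ev (nat_lit 792900600124896804995818588160) (nat_lit 4)) .nil)) .nil))) .nil)))) .nil))))) (.cons (.rf (nat_lit 4129) (nat_lit 14242959455481345025))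 .nil))))),
 (.br (nat_lit 1) (nat_lit 0) (.cons (.rf (nat_lit 4189) (nat_lit 14242959524133701664)) (.cons (.rf (nat_lit 4190) (nat_lit 14242959524133701664)) (.cons (.rf (nat_lit 4189) (nat_lit 8262069443048343584)) (.cons (.rf (nat_lit 4190) (nat_lit 8262069443048343584)) (.cons (.rf (nat_lit 4154) (nat_lit 493858305371929675808)) .nil))))))]

theorem c154 : chkAll C T R L154 (nat_lit 4164) = true := by decide +kernel

theorem l154 : (nat_lit 4164) + L154.length = (nat_lit 4192) := by decide +kernel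

/-- part of the certificates -/
def L155 : List Prf := [(.br (nat_lit 2) (nat_lit 0) (.cons (.rf (nat_lit 4129) (nat_lit 14235044137780184066)) (.cons (.rf (nat_lit 4188) (nat_lit 14242959524133701664)) (.cons (.rf (nat_lit 4191) (nat_lit 14242959524133701664)) (.cons (.rf (nat_lit 4191) (nat_lit 13126066816545818656)) (.cons (.rf (nat_lit 4129) (nat_lit 14235044137780196354)) .nil)))))),
 (.br (nat_lit 11) (nat_lit 0) (.cons (.br (nat_lit 13) (nat_lit 0) (.cons (.ev (nat_lit 79228162514336396291405316096) (nat_lit 1)) .nil)) (.cons (.ev (nat_lit 310698658007724046816378881) (nat_lit 1)) (.cons (.br (nat_lit 13) (nat_lit 0) (.cons (.br (nat_lit 12) (nat_lit 0) (.cons (.ev (nat_lit 160313239828270821395899876870) (nat_lit 3)) .nil)) (.cons (.ev (nat_lit 160313239828270821395899876870) (nat_lit 3)) .nil))) .nil)))),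
 (.br (nat_lit 5) (nat_lit 0) (.cons (.rf (nat_lit 2454) (nat_lit 470976628361248)) (.cons (.rf (nat_lit 4193) (nat_lit 493858305440582043680)) (.cons (.br (nat_lit 11) (nat_lit 0) (.cons (.ev (nat_lit 310698658007724046816378881) (nat_lit 1)) (.cons (.br (nat_lit 12) (nat_lit 0) (.cons (.ev (nat_lit 40564820416229304859199665209856) (nat_lit 2)) .nil)) .nil))) .nil)))),
 (.br (nat_lit 11) (nat_lit 0) (.cons (.rf (nat_lit 2770) (nat_lit 470770664146976)) (.cons (.ev (nat_lit 309485028268370621722787841) (nat_lit 1)) (.cons (.br (nat_lit 13) (nat_lit 0) (.cons (.ev (nat_lit 310698658079782740365934848) (nat_lit 1)) (.cons (.br (nat_lit 7) (nat_lit 0) (.cons (.ev (nat_lit 310693954159762465158594816) (nat_lit 1)) .nil)) .nil))) .nil)))),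
 (.br (nat_lit 13) (nat_lit 0) (.cons (.ev (nat_lit 1861750539915216565156709380) (nat_lit 3)) (.cons (.ev (nat_lit 317531624928483939199657968640) (nat_lit 3)) .nil))),
 (.br (nat_lit 1) (nat_lit 0) (.cons (.br (nat_lit 10) (nat_lit 0) (.cons (.ev (nat_lit 1213666633124147017809921) (nat_lit 1)) (.cons (.rf (nat_lit 2767) (nat_lit 470770664146976)) (.cons (.br (nat_lit 11) (nat_lit 0) (.cons (.rf (nat_lit 2768) (nat_lit 470770664146976)) (.cons (.ev (nat_lit 309485028268370621722787841) (nat_lit 1)) (.cons (.br (nat_lit 13) (nat_lit 0) (.cons (.ev (nat_lit 311902898498460241352523777) (nat_lit 2)) (.cons (.br (nat_lit 7) (nat_lit 0) (.cons (.ev (nat_lit 311902898498460241352523777) (nat_lit 2)) .nil)) .nil))) .nil)))) (.cons (.br (nat_lit 11) (nat_lit 0) (.cons (.ev (nat_lit 310698676454186645549285376) (nat_lit 1)) (.cons (.ev (nat_lit 309485028268370621722787841) (nat_lit 1)) (.cons (.br (nat_lit 12) (nat_lit 0) (.cons (.ev (nat_lit 311902898498460241352523777) (nat_lit 2)) (.cons (.br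 (nat_lit 7) (nat_lit 0) (.cons (.ev (nat_lit 311902898498460241352523777) (nat_lit 2)) .nil)) .nil))) .nil)))) .nil))))) (.cons (.br (nat_lit 12) (nat_lit 0) (.cons (.rf (nat_lit 4193) (nat_lit 493858305440582043680)) (.cons (.rf (nat_lit 4194) (nat_lit 493858305440582043680)) (.cons (.ev (nat_lit 310698658007724046816378881) (nat_lit 1)) (.cons (.br (nat_lit 12) (nat_lit 0) (.cons (.rf (nat_lit 4193) (nat_lit 493858305440582043680)) (.cons (.rf (nat_lit 4194) (nat_lit 493858305440582043680)) (.cons (.ev (nat_lit 310698658007724046816378881) (nat_lit 1)) .nil)))) .nil))))) (.cons (.br (nat_lit 10) (nat_lit 0) (.cons (.rf (nat_lit 2767) (nat_lit 470976621250592)) (.cons (.rf (nat_lit 2752) (nat_lit 15064658292836384)) (.cons (.ev (nat_lit 310698658007724046816378881) (nat_lit 1)) (.cons (.br (nat_lit 5) (nat_lit 0) (.cons (.ev (nat_lit 282574505115649) (nat_lit 1)) (.cons (.ev (nat_lit 1208944266641281667629056) (nat_lit 1)) (.cons (.br (nat_lit 7) (nat_lit 0) (.cons (.ev (nat_lit 311902898498460241352523777)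 (nat_lit 2)) (.cons (.rf (nat_lit 3968) (nat_lit 1589006790481510818)) .nil))) .nil)))) .nil))))) (.cons (.br (nat_lit 5) (nat_lit 0) (.cons (.ev (nat_lit 282574505115649) (nat_lit 1)) (.cons (.rf (nat_lit 4195) (nat_lit 493858305440582043680)) (.cons (.br (nat_lit 13) (nat_lit 0) (.cons (.rf (nat_lit 4196) (nat_lit 493858305440582043680)) (.cons (.ev (nat_lit 1861750539915216565156709380) (nat_lit 3)) (.cons (.rf (nat_lit 4196) (nat_lit 487877415359496685600)) .nil)))) (.cons (.rf (nat_lit 3380) (nat_lit 488093660468889094176)) (.cons (.br (nat_lit 11) (nat_lit 0) (.cons (.rf (nat_lit 3380) (nat_lit 493641957973629700128)) (.cons (.rf (nat_lit 4195) (nat_lit 487877415359496685600)) (.cons (.ev (nat_lit 309489732187827938386771969) (nat_lit 1)) (.cons (.br (nat_lit 7) (nat_lit 0) (.cons (.ev (nat_lit 310693935641241172876263424) (nat_lit 1)) (.cons (.ev (nat_lit 476606919902724210859437982720) (nat_lit 3)) (.cons (.br (nat_lit 10) (nat_lit 0) (.cons (.ev (nat_lit 1208944266641281667629056)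 (nat_lit 1)) .nil)) .nil)))) .nil))))) .nil)))))) (.cons (.rf (nat_lit 4129) (nat_lit 14242959455481345025)) .nil)))))),
 (.br (nat_lit 1) (nat_lit 0) (.cons (.ev (nat_lit 1208925819615732981301249) (nat_lit 1)) (.cons (.rf (nat_lit 4197) (nat_lit 493858305440582043680)) (.cons (.br (nat_lit 1) (nat_lit 0) (.cons (.ev (nat_lit 1213666633124147017809921) (nat_lit 1)) (.cons (.rf (nat_lit 2752) (nat_lit 15064658292836384)) (.cons (.rf (nat_lit 4197) (nat_lit 487877415359496685600)) (.cons (.rf (nat_lit 4129) (nat_lit 8262069443048354817)) .nil))))) (.cons (.rf (nat_lit 4197) (nat_lit 487877415359496685600)) (.cons (.br (nat_lit 1) (nat_lit 0) (.cons (.ev (nat_lit 1208925819615732981301249) (nat_lit 1)) (.cons (.rf (nat_lit 4129) (nat_lit 14242959455481345025)) (.cons (.rf (nat_lit 4129) (nat_lit 8262069443048354817)) (.cons (.rf (nat_lit 4129) (nat_lit 8262069408722170881)) .nil))))) .nil)))))),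
 (.br (nat_lit 1) (nat_lit 0) (.cons (.ev (nat_lit 309485009821345073036591104) (nat_lit 1)) (.cons (.rf (nat_lit 4129) (nat_lit 14242959524133712897)) (.cons (.br (nat_lit 5) (nat_lit 0) (.cons (.ev (nat_lit 79538861190790863303812841473) (nat_lit 1)) (.cons (.ev (nat_lit 4741246423559714112002) (nat_lit 3)) .nil))) (.cons (.rf (nat_lit 4129) (nat_lit 8262069408722170881)) .nil))))),
 (.br (nat_lit 7) (nat_lit 0) (.cons (.rf (nat_lit 4197) (nat_lit 493858305440582043680)) (.cons (.ev (nat_lit 282574505115649) (nat_lit 1)) (.cons (.rf (nat_lit 4198) (nat_lit 493858305440582043680)) (.cons (.br (nat_lit 12) (nat_lit 0) (.cons (.rf (nat_lit 4197) (nat_lit 487877415359496685600)) (.cons (.ev (nat_lit 79537652264970967203973169153) (nat_lit 1)) (.cons (.rf (nat_lit 4198) (nat_lit 487877415359496685600)) (.cons (.br (nat_lit 13) (nat_lit 0) (.cons (.rf (nat_lit 4199) (nat_lit 493858305440582043680)) (.cons (.br (nat_lit 13) (nat_lit 0) (.cons (.rf (nat_lit 4199) (nat_lit 493858305440582043680))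 (.cons (.ev (nat_lit 310693935641241172876263424) (nat_lit 1)) .nil))) (.cons (.ev (nat_lit 310693935641241172876263424) (nat_lit 1)) .nil)))) .nil))))) (.cons (.br (nat_lit 12) (nat_lit 0) (.cons (.rf (nat_lit 4197) (nat_lit 487877415359496685600)) (.cons (.br (nat_lit 12) (nat_lit 0) (.cons (.ev (nat_lit 79228167255149904705441824768) (nat_lit 1)) (.cons (.ev (nat_lit 475678460224536271298712567812) (nat_lit 3)) (.cons (.ev (nat_lit 81394581287586266785003864068) (nat_lit 3)) .nil)))) (.cons (.rf (nat_lit 4198) (nat_lit 487877415359496685600)) (.cons (.br (nat_lit 12) (nat_lit 0) (.cons (.rf (nat_lit 4197) (nat_lit 487877415359496685600)) (.cons (.ev (nat_lit 81394581287586266785003864068) (nat_lit 3)) (.cons (.rf (nat_lit 4198) (nat_lit 487877415359496685600)) .nil)))) .nil))))) .nil)))))),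
 (.br (nat_lit 7) (nat_lit 0) (.cons (.rf (nat_lit 4197) (nat_lit 493858305440582043680)) (.cons (.ev (nat_lit 282574505115649) (nat_lit 1)) (.cons (.rf (nat_lit 4198) (nat_lit 493858305440582043680)) (.cons (.rf (nat_lit 4200) (nat_lit 493858305440582043680)) (.cons (.br (nat_lit 12) (nat_lit 0) (.cons (.rf (nat_lit 4197) (nat_lit 487877415359496685600)) (.cons (.rf (nat_lit 4200) (nat_lit 487877415359496685600)) (.cons (.rf (nat_lit 4198) (nat_lit 487877415359496685600)) (.cons (.ev (nat_lit 309489732187827938386771969) (nat_lit 1)) (.cons (.br (nat_lit 5) (nat_lit 0) (.cons (.br (nat_lit 11) (nat_lit 0) (.cons (.ev (nat_lit 159694269919742067139072230400) (nat_lit 3)) (.cons (.ev (nat_lit 159699105548945314603847647232) (nat_lit 3)) (.cons (.ev (nat_lit 309485046859793941580021761) (nat_lit 2)) .nil)))) (.cons (.ev (nat_lit 475373815567005519477322547200) (nat_lit 3)) (.cons (.kr (nat_lit 79228162514264338693055578112) (nat_lit 309485009893402662762708992) (nat_lit 5) (nat_lit 0)) (.cons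 (.br (nat_lit 11) (nat_lit 0) (.cons (.ev (nat_lit 309485046859793941580021761) (nat_lit 2)) (.cons (.ev (nat_lit 159699105548945314603847647232) (nat_lit 3)) .nil))) .nil))))) .nil)))))) .nil)))))),
 (.br (nat_lit 2) (nat_lit 0) (.cons (.rf (nat_lit 4151) (nat_lit 14242959524133701664)) (.cons (.rf (nat_lit 4188) (nat_lit 14242959524133701664)) (.cons (.rf (nat_lit 4192) (nat_lit 14242959524133701664)) (.cons (.rf (nat_lit 4188) (nat_lit 8262069443048343584)) (.cons (.br (nat_lit 7) (nat_lit 0) (.cons (.rf (nat_lit 4197) (nat_lit 493858305440582043680)) (.cons (.ev (nat_lit 282574505115649) (nat_lit 1)) (.cons (.rf (nat_lit 4198) (nat_lit 493858305440582043680)) (.cons (.rf (nat_lit 4200) (nat_lit 493858305440582043680)) (.cons (.rf (nat_lit 4201) (nat_lit 493858305440582043680)) (.cons (.br (nat_lit 7) (nat_lit 0) (.cons (.rf (nat_lit 4197) (nat_lit 493858305440582043680)) (.cons (.ev (nat_lit 282574505115649) (nat_lit 1)) (.cons (.rf (nat_lit 4198) (nat_lit 493858305440582043680)) (.cons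 (.rf (nat_lit 4200) (nat_lit 493858305440582043680)) (.cons (.rf (nat_lit 4201) (nat_lit 493858305440582043680)) .nil)))))) .nil))))))) .nil)))))),
 (.br (nat_lit 2) (nat_lit 0) (.cons (.rf (nat_lit 4151) (nat_lit 14242959524133701664)) (.cons (.rf (nat_lit 4188) (nat_lit 14242959524133701664)) (.cons (.rf (nat_lit 4192) (nat_lit 14242959524133701664)) (.cons (.rf (nat_lit 4202) (nat_lit 14242959524133701664)) (.cons (.rf (nat_lit 4202) (nat_lit 13126066816545818656)) (.cons (.br (nat_lit 2) (nat_lit 0) (.cons (.rf (nat_lit 1943) (nat_lit 427010)) (.cons (.rf (nat_lit 4188) (nat_lit 14242959524133701664)) (.cons (.rf (nat_lit 4129) (nat_lit 14235044137780196354)) (.cons (.rf (nat_lit 4202) (nat_lit 14242959524133701664)) (.cons (.rf (nat_lit 4202) (nat_lit 13126066816545818656)) .nil)))))) .nil))))))),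
 (.br (nat_lit 1) (nat_lit 0) (.cons (.rf (nat_lit 4151) (nat_lit 14242959524133701664)) (.cons (.rf (nat_lit 4203) (nat_lit 14235044137780184128)) (.cons (.rf (nat_lit 4203) (nat_lit 14235044069127816256)) (.cons (.rf (nat_lit 4203) (nat_lit 8254119972907058240)) (.cons (.rf (nat_lit 4203) (nat_lit 8254119938580874304)) (.cons (.br (nat_lit 1) (nat_lit 0) (.cons (.rf (nat_lit 1943) (nat_lit 428033)) (.cons (.rf (nat_lit 4129) (nat_lit 14242959524133712897)) (.cons (.rf (nat_lit 4129) (nat_lit 14242959455481345025)) (.cons (.rf (nat_lit 4129) (nat_lit 8262069443048354817)) (.cons (.rf (nat_lit 4129) (nat_lit 8262069408722170881)) .nil)))))) .nil))))))),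
 (.br (nat_lit 2) (nat_lit 0) (.cons (.rf (nat_lit 4151) (nat_lit 14242959524133701664)) (.cons (.rf (nat_lit 4203) (nat_lit 14242959524133701664)) (.cons (.rf (nat_lit 4203) (nat_lit 14242959455481333792)) (.cons (.rf (nat_lit 4204) (nat_lit 14242959524133701664)) (.cons (.rf (nat_lit 4203) (nat_lit 8262069443048343584)) (.cons (.rf (nat_lit 4203) (nat_lit 8262069408722159648)) (.cons (.br (nat_lit 2) (nat_lit 0) (.cons (.rf (nat_lit 1943) (nat_lit 427010)) (.cons (.rf (nat_lit 4203) (nat_lit 14242959524133701664)) (.cons (.rf (nat_lit 4203) (nat_lit 14242959455481333792)) (.cons (.rf (nat_lit 4204) (nat_lit 14242959524133701664)) (.cons (.rf (nat_lit 4203) (nat_lit 8262069443048343584)) (.cons (.rf (nat_lit 4203) (nat_lit 8262069408722159648)) .nil))))))) .nil)))))))),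
 (.br (nat_lit 10) (nat_lit 0) (.cons (.zr (nat_lit 33056567350412353470472) (nat_lit 1240357909515470998385983488) (nat_lit 20) (nat_lit 10)) (.cons (.rf (nat_lit 2862) (nat_lit 470976621250592)) .nil))),
 (.br (nat_lit 10) (nat_lit 0) (.cons (.rf (nat_lit 2889) (nat_lit 15066788596615200)) (.cons (.rf (nat_lit 2890) (nat_lit 470837243250720)) (.cons (.br (nat_lit 11) (nat_lit 0) (.cons (.ev (nat_lit 309485009821345073036525824) (nat_lit 1)) (.cons (.ev (nat_lit 310698676454186645549220096) (nat_lit 1)) .nil))) .nil)))),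
 (.br (nat_lit 2) (nat_lit 0) (.cons (.rf (nat_lit 4205) (nat_lit 14242959524133700672)) (.cons (.rf (nat_lit 4205) (nat_lit 14235044137780184128)) (.cons (.rf (nat_lit 4059) (nat_lit 258258077143369760)) (.cons (.br (nat_lit 3) (nat_lit 0) (.cons (.br (nat_lit 11) (nat_lit 0) (.cons (.zr (nat_lit 73786976312018075652) (nat_lit 79538861172344120329631760640) (nat_lit 10) (nat_lit 3)) (.cons (.rf (nat_lit 4014) (nat_lit 470837243250720)) .nil))) (.cons (.rf (nat_lit 4206) (nat_lit 14242959524133701664)) (.cons (.rf (nat_lit 4206) (nat_lit 13126066816545817664)) (.cons (.rf (nat_lit 3390) (nat_lit 15433070913259669536)) .nil))))) (.cons (.br (nat_lit 3) (nat_lit 0) (.cons (.rf (nat_lit 2873) (nat_lit 15066994560829472)) (.cons (.rf (nat_lit 2889) (nat_lit 15066788603725856)) (.cons (.rf (nat_lit 4207) (nat_lit 493858305440582043680)) (.cons (.br (nat_lit 10) (nat_lit 0) (.cons (.rf (nat_lit 2888) (nat_lit 470837236140064)) (.cons (.rf (nat_lit 4207) (nat_lit 493850390054228527136)) (.cons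 (.br (nat_lit 11) (nat_lit 0) (.cons (.br (nat_lit 12) (nat_lit 0) (.cons (.ev (nat_lit 40723276741257834099527139721730) (nat_lit 2)) .nil)) (.cons (.ev (nat_lit 310693935641241172876198144) (nat_lit 1)) .nil))) .nil)))) .nil))))) .nil)))))),
 (.br (nat_lit 2) (nat_lit 0) (.cons (.ev (nat_lit 309485009821345073036525824) (nat_lit 1)) (.cons (.rf (nat_lit 4059) (nat_lit 258258077143369760)) (.cons (.ev (nat_lit 310698676454186645549220096) (nat_lit 1)) (.cons (.br (nat_lit 7) (nat_lit 0) (.cons (.ev (nat_lit 282574505115649) (nat_lit 1)) (.cons (.ev (nat_lit 1208925819615732981301249) (nat_lit 1)) (.cons (.kr (nat_lit 158456329769341904329465922048) (nat_lit 618970019787086804797227008) (nat_lit 1) (nat_lit 0)) (.cons (.br (nat_lit 3) (nat_lit 0) (.cons (.rf (nat_lit 4014) (nat_lit 470974547986464)) (.cons (.ev (nat_lit 309485028268370621722787841) (nat_lit 1)) (.cons (.br (nat_lit 10) (nat_lit 0) (.cons (.ev (nat_lit 310693954087703771609038849) (nat_lit 1)) (.cons (.br (nat_lit 12) (nat_lit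 0) (.cons (.ev (nat_lit 40565439386248948114477501513730) (nat_lit 2)) .nil)) .nil))) .nil)))) .nil))))) (.cons (.br (nat_lit 3) (nat_lit 0) (.cons (.ev (nat_lit 282574505115649) (nat_lit 1)) (.cons (.rf (nat_lit 2873) (nat_lit 15071255168387104)) (.cons (.ev (nat_lit 309489732187827938386771969) (nat_lit 1)) (.cons (.br (nat_lit 10) (nat_lit 0) (.cons (.ev (nat_lit 1208925819615732981301249) (nat_lit 1)) (.cons (.ev (nat_lit 310698658007724046816378881) (nat_lit 1)) (.cons (.br (nat_lit 7) (nat_lit 0) (.cons (.br (nat_lit 12) (nat_lit 0) (.cons (.ev (nat_lit 40564820416229304859199665209856) (nat_lit 2)) .nil)) (.cons (.kr (nat_lit 144396667347664898) (nat_lit 40564820416229160464722717311488) (nat_lit 0) (nat_lit 8)) .nil))) .nil)))) .nil))))) .nil)))))),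
 (.br (nat_lit 13) (nat_lit 0) (.cons (.br (nat_lit 11) (nat_lit 0) (.cons (.ev (nat_lit 40565439391026509867751951172096) (nat_lit 2)) .nil)) (.cons (.ev (nat_lit 309485009821345073036525824) (nat_lit 1)) (.cons (.ev (nat_lit 79228167255077567844057154051) (nat_lit 2)) .nil)))),
 (.br (nat_lit 2) (nat_lit 0) (.cons (.rf (nat_lit 4205) (nat_lit 14242959524133700672)) (.cons (.rf (nat_lit 4208) (nat_lit 14242959524133701664)) (.cons (.rf (nat_lit 4205) (nat_lit 14235044137780184128)) (.cons (.rf (nat_lit 4209) (nat_lit 14242959524133701664)) (.cons (.br (nat_lit 7) (nat_lit 0) (.cons (.ev (nat_lit 282574505115649) (nat_lit 1)) (.cons (.ev (nat_lit 1208925819615732981301249) (nat_lit 1)) (.cons (.br (nat_lit 13) (nat_lit 0) (.cons (.ev (nat_lit 309485046859793941580088065) (nat_lit 2)) (.cons (.ev (nat_lit 311902898498460241352590081) (nat_lit 2)) (.cons (.kr (nat_lit 79228162514264337593543950592) (nat_lit 309485009821345068724846592) (nat_lit 1) (nat_lit 0)) .nil)))) (.cons (.br (nat_lit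 13) (nat_lit 0) (.cons (.ev (nat_lit 79228162514264337597855760384) (nat_lit 1)) (.cons (.ev (nat_lit 79229371440084233697695432704) (nat_lit 1)) (.cons (.br (nat_lit 13) (nat_lit 0) (.cons (.ev (nat_lit 309485009821345073036525824) (nat_lit 1)) (.cons (.ev (nat_lit 310693935641241172876198144) (nat_lit 1)) .nil))) .nil)))) (.cons (.br (nat_lit 13) (nat_lit 0) (.cons (.rf (nat_lit 4210) (nat_lit 493858305440582043680)) (.cons (.rf (nat_lit 4210) (nat_lit 493850390054228527136)) (.cons (.br (nat_lit 13) (nat_lit 0) (.cons (.ev (nat_lit 309485009821345073036525824) (nat_lit 1)) (.cons (.ev (nat_lit 310693935641241172876198144) (nat_lit 1)) (.cons (.zr (nat_lit 40881731857360542594936025908224) (nat_lit 1237944780098609417277407232) (nat_lit 10) (nat_lit 7)) .nil)))) (.cons (.br (nat_lit 11) (nat_lit 0) (.cons (.ev (nat_lit 79228162551302786466399191041) (nat_lit 2)) (.cons (.ev (nat_lit 79230580402941452766171693057) (nat_lit 2)) (.cons (.zr (nat_lit 40881731857360542594936025908224) (nat_lit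 1237944780098609417277407232) (nat_lit 10) (nat_lit 7)) .nil)))) .nil))))) .nil)))))) .nil)))))),
 (.br (nat_lit 2) (nat_lit 0) (.cons (.rf (nat_lit 4205) (nat_lit 14242959524133700672)) (.cons (.rf (nat_lit 4208) (nat_lit 14242959524133701664)) (.cons (.rf (nat_lit 4205) (nat_lit 14235044137780184128)) (.cons (.rf (nat_lit 4209) (nat_lit 14242959524133701664)) (.cons (.rf (nat_lit 4211) (nat_lit 14242959524133701664)) (.cons (.br (nat_lit 2) (nat_lit 0) (.cons (.rf (nat_lit 4129) (nat_lit 14242959524133712898)) (.cons (.rf (nat_lit 4208) (nat_lit 14242959524133701664)) (.cons (.rf (nat_lit 4129) (nat_lit 14235044137780196354)) (.cons (.rf (nat_lit 4209) (nat_lit 14242959524133701664)) (.cons (.rf (nat_lit 4211) (nat_lit 14242959524133701664)) .nil)))))) .nil)))))))]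

theorem c155 : chkAll C T R L155 (nat_lit 4192) = true := by decide +kernel

theorem l155 : (nat_lit 4192) + L155.length = (nat_lit 4213) := by decide +kernel

/-- part of the certificates -/
def L156 : List Prf := [(.br (nat_lit 3) (nat_lit 0) (.cons (.ev (nat_lit 18446745173237956864) (nat_lit 1)) (.cons (.rf (nat_lit 3261) (nat_lit 470837210744864)) (.cons (.br (nat_lit 7) (nat_lit 0) (.cons (.ev (nat_lit 1208944266641281667563776) (nat_lit 1)) (.cons (.br (nat_lit 10) (nat_lit 0) (.cons (.ev (nat_lit 40564820416229160746210612609536) (nat_lit 2)) .nil)) .nil))) .nil)))),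
 (.br (nat_lit 2) (nat_lit 0) (.cons (.ev (nat_lit 309489750634853487073034496) (nat_lit 1)) (.cons (.rf (nat_lit 4212) (nat_lit 14242959524133701664)) (.cons (.rf (nat_lit 4212) (nat_lit 14242959455481333792)) (.cons (.ev (nat_lit 310698676454186645549220096) (nat_lit 1)) (.cons (.br (nat_lit 12) (nat_lit 0) (.cons (.ev (nat_lit 309485028268370621722787841) (nat_lit 1)) (.cons (.rf (nat_lit 4213) (nat_lit 493858305440582043680)) (.cons (.rf (nat_lit 4213) (nat_lit 493858305371929675808)) (.cons (.ev (nat_lit 310693954087703771609038849) (nat_lit 1)) (.cons (.br (nat_lit 5) (nat_lit 0) (.cons (.ev (nat_lit 160313239938951848788111000578) (nat_lit 3)) (.cons (.kr (nat_lit 1099511627776) (nat_lit 72057594037927936) (nat_lit 5) (nat_lit 0)) (.cons (.ev (nat_lit 475992785660001151486932419590) (nat_lit 3)) (.cons (.br (nat_lit 7) (nat_lit 0) (.cons (.ev (nat_lit 160313239939240074766216201218) (nat_lit 3)) (.cons (.ev (nat_lit 475992785660289377465037620230) (nat_lit 3)) (.cons (.zr (nat_lit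 61164141470493839193489738303236) (nat_lit 1688875630788608) (nat_lit 15) (nat_lit 1)) .nil)))) .nil))))) .nil)))))) .nil)))))),
 (.br (nat_lit 2) (nat_lit 0) (.cons (.ev (nat_lit 309489750634853487073034496) (nat_lit 1)) (.cons (.rf (nat_lit 4212) (nat_lit 14242959524133701664)) (.cons (.rf (nat_lit 4212) (nat_lit 14242959455481333792)) (.cons (.ev (nat_lit 310698676454186645549220096) (nat_lit 1)) (.cons (.rf (nat_lit 4214) (nat_lit 14242959524133701664)) (.cons (.br (nat_lit 2) (nat_lit 0) (.cons (.ev (nat_lit 309489750634853487073034496) (nat_lit 1)) (.cons (.rf (nat_lit 4212) (nat_lit 14242959524133701664)) (.cons (.rf (nat_lit 4212) (nat_lit 14242959455481333792)) (.cons (.ev (nat_lit 310698676454186645549220096) (nat_lit 1)) (.cons (.rf (nat_lit 4214) (nat_lit 14242959524133701664)) .nil)))))) .nil))))))),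
 (.br (nat_lit 2) (nat_lit 0) (.cons (.rf (nat_lit 4205) (nat_lit 14242959524133700672)) (.cons (.rf (nat_lit 4212) (nat_lit 14242959524133701664)) (.cons (.rf (nat_lit 4212) (nat_lit 14242959455481333792)) (.cons (.rf (nat_lit 4205) (nat_lit 14235044137780184128)) (.cons (.rf (nat_lit 4215) (nat_lit 14242959524133701664)) (.cons (.br (nat_lit 2) (nat_lit 0) (.cons (.rf (nat_lit 4129) (nat_lit 8262069408722170882)) (.cons (.rf (nat_lit 4212) (nat_lit 14242959524133701664)) (.cons (.rf (nat_lit 4212) (nat_lit 14242959455481333792)) (.cons (.rf (nat_lit 4129) (nat_lit 8254119938580886530)) (.cons (.rf (nat_lit 4215) (nat_lit 14242959524133701664)) .nil)))))) .nil))))))),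
 (.br (nat_lit 2) (nat_lit 0) (.cons (.rf (nat_lit 4205) (nat_lit 14242959524133700672)) (.cons (.rf (nat_lit 4212) (nat_lit 14242959524133701664)) (.cons (.rf (nat_lit 4212) (nat_lit 14242959455481333792)) (.cons (.rf (nat_lit 4205) (nat_lit 14235044137780184128)) (.cons (.rf (nat_lit 4215) (nat_lit 14242959524133701664)) (.cons (.rf (nat_lit 4216) (nat_lit 14242959524133701664)) (.cons (.br (nat_lit 2) (nat_lit 0) (.cons (.rf (nat_lit 4205) (nat_lit 14242959524133700672)) (.cons (.rf (nat_lit 4212) (nat_lit 14242959524133701664)) (.cons (.rf (nat_lit 4212) (nat_lit 14242959455481333792)) (.cons (.rf (nat_lit 4205) (nat_lit 14235044137780184128)) (.cons (.rf (nat_lit 4215) (nat_lit 14242959524133701664)) (.cons (.rf (nat_lit 4216) (nat_lit 14242959524133701664)) .nil))))))) .nil)))))))),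
 (.br (nat_lit 10) (nat_lit 0) (.cons (.ev (nat_lit 310698676526245339098841345) (nat_lit 1)) (.cons (.br (nat_lit 11) (nat_lit 0) (.cons (.kr (nat_lit 158456325046975419265092419584) (nat_lit 618974742009454482071486464) (nat_lit 4) (nat_lit 0)) (.cons (.br (nat_lit 12) (nat_lit 0) (.cons (.ev (nat_lit 80159035414031366645945991170) (nat_lit 2)) .nil)) .nil))) (.cons (.br (nat_lit 12) (nat_lit 0) (.cons (.rf (nat_lit 3040) (nat_lit 15254089042097408032)) (.cons (.rf (nat_lit 4129) (nat_lit 8254119938580875309)) .nil))) .nil)))),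
 (.br (nat_lit 11) (nat_lit 0) (.cons (.rf (nat_lit 4218) (nat_lit 493858305440582043680)) (.cons (.rf (nat_lit 4218) (nat_lit 493850390054228527136)) (.cons (.br (nat_lit 12) (nat_lit 0) (.cons (.rf (nat_lit 4218) (nat_lit 492741412732994160672)) (.cons (.rf (nat_lit 4218) (nat_lit 492733497346640644128)) (.cons (.kr (nat_lit 309485009821345068724781056) (nat_lit 79228162514264337593543950336) (nat_lit 11) (nat_lit 0)) .nil)))) .nil)))),
 (.br (nat_lit 2) (nat_lit 0) (.cons (.rf (nat_lit 4205) (nat_lit 14242959524133700672)) (.cons (.rf (nat_lit 4205) (nat_lit 14235044137780184128)) (.cons (.rf (nat_lit 4217) (nat_lit 14242959524133700672)) (.cons (.rf (nat_lit 4217) (nat_lit 13126066816545817664)) (.cons (.br (nat_lit 11) (nat_lit 0) (.cons (.rf (nat_lit 4218) (nat_lit 493858305440582043680)) (.cons (.rf (nat_lit 4218) (nat_lit 493850390054228527136)) (.cons (.rf (nat_lit 4219) (nat_lit 493858305440582043680)) (.cons (.br (nat_lit 11) (nat_lit 0) (.cons (.rf (nat_lit 4218) (nat_lit 493858305440582043680))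 (.cons (.rf (nat_lit 4218) (nat_lit 493850390054228527136)) (.cons (.rf (nat_lit 4219) (nat_lit 493858305440582043680)) .nil)))) .nil))))) .nil)))))),
 (.br (nat_lit 13) (nat_lit 0) (.cons (.br (nat_lit 11) (nat_lit 0) (.cons (.ev (nat_lit 40723276741257834099527139852290) (nat_lit 2)) .nil)) (.cons (.ev (nat_lit 309485046859793941580021761) (nat_lit 2)) (.cons (.ev (nat_lit 79228167236630820463206007041) (nat_lit 1)) .nil)))),
 (.br (nat_lit 3) (nat_lit 0) (.cons (.br (nat_lit 12) (nat_lit 0) (.cons (.ev (nat_lit 81446553487366873937136375301120) (nat_lit 3)) .nil)) (.cons (.ev (nat_lit 309499232261592147311002115) (nat_lit 2)) (.cons (.ev (nat_lit 309485046859793941580021761) (nat_lit 2)) .nil)))),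
 (.br (nat_lit 2) (nat_lit 0) (.cons (.rf (nat_lit 4205) (nat_lit 14242959524133700672)) (.cons (.rf (nat_lit 4217) (nat_lit 14242959524133700672)) (.cons (.rf (nat_lit 4205) (nat_lit 14235044137780184128)) (.cons (.rf (nat_lit 4217) (nat_lit 8262069443048342592)) (.cons (.br (nat_lit 7) (nat_lit 0) (.cons (.ev (nat_lit 282574505115649) (nat_lit 1)) (.cons (.ev (nat_lit 1208925819615732981301249) (nat_lit 1)) (.cons (.br (nat_lit 13) (nat_lit 0) (.cons (.ev (nat_lit 309485009821345073036591104) (nat_lit 1)) (.cons (.ev (nat_lit 310693935641241172876263424) (nat_lit 1)) (.cons (.br (nat_lit 13) (nat_lit 0) (.cons (.ev (nat_lit 309485009821345073036591104) (nat_lit 1)) (.cons (.ev (nat_lit 310693935641241172876263424) (nat_lit 1)) .nil))) .nil)))) (.cons (.br (nat_lit 13) (nat_lit 0) (.cons (.rf (nat_lit 4221) (nat_lit 493858305440582043680)) (.cons (.rf (nat_lit 4221) (nat_lit 493850390054228527136)) (.cons (.rf (nat_lit 4222) (nat_lit 493858305440582043680)) (.cons (.br (nat_lit 13) (nat_lit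 0) (.cons (.ev (nat_lit 79228167236630820463206007041) (nat_lit 1)) (.cons (.ev (nat_lit 79229376162450716571635613953) (nat_lit 1)) (.cons (.rf (nat_lit 4222) (nat_lit 493858305440582043680)) .nil)))) .nil))))) (.cons (.br (nat_lit 13) (nat_lit 0) (.cons (.rf (nat_lit 4129) (nat_lit 14242959455481333805)) (.cons (.rf (nat_lit 4129) (nat_lit 14235044069127817261)) (.cons (.br (nat_lit 12) (nat_lit 0) (.cons (.ev (nat_lit 309485046859793941580021761) (nat_lit 2)) (.cons (.ev (nat_lit 311902898498460241352523777) (nat_lit 2)) .nil))) (.cons (.br (nat_lit 3) (nat_lit 0) (.cons (.br (nat_lit 11) (nat_lit 0) (.cons (.ev (nat_lit 318150594948270181600999769606) (nat_lit 3)) .nil)) (.cons (.br (nat_lit 10) (nat_lit 0) (.cons (.ev (nat_lit 80159035414031366645945991170) (nat_lit 2)) .nil)) (.cons (.br (nat_lit 10) (nat_lit 0) (.cons (.ev (nat_lit 80156617562247457041987666432) (nat_lit 2)) .nil)) .nil)))) .nil))))) .nil)))))) .nil)))))),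
 (.br (nat_lit 2) (nat_lit 0) (.cons (.rf (nat_lit 4205) (nat_lit 14242959524133700672)) (.cons (.rf (nat_lit 4220) (nat_lit 493858305440582043680)) (.cons (.rf (nat_lit 4205) (nat_lit 14235044137780184128)) (.cons (.rf (nat_lit 4223) (nat_lit 493858305440582043680)) (.cons (.rf (nat_lit 4223) (nat_lit 492741412732994160672)) (.cons (.br (nat_lit 2) (nat_lit 0) (.cons (.rf (nat_lit 4129) (nat_lit 14242959524133712898)) (.cons (.rf (nat_lit 4220) (nat_lit 493858305440582043680)) (.cons (.rf (nat_lit 4129) (nat_lit 14235044137780196354)) (.cons (.rf (nat_lit 4223) (nat_lit 493858305440582043680)) (.cons (.rf (nat_lit 4223) (nat_lit 492741412732994160672)) .nil)))))) .nil))))))),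
 (.br (nat_lit 7) (nat_lit 0) (.cons (.ev (nat_lit 79847132589319317550488813826) (nat_lit 2)) (.cons (.br (nat_lit 12) (nat_lit 0) (.cons (.ev (nat_lit 81131502583035416738625665499648) (nat_lit 3)) .nil)) .nil))),
 (.br (nat_lit 11) (nat_lit 0) (.cons (.br (nat_lit 10) (nat_lit 0) (.cons (.ev (nat_lit 158765810093762310075307983106) (nat_lit 2)) (.cons (.br (nat_lit 12) (nat_lit 0) (.cons (.ev (nat_lit 81288097162338775918672244508160) (nat_lit 3)) .nil)) .nil))) (.cons (.rf (nat_lit 4225) (nat_lit 493858305440582043680)) (.cons (.kr (nat_lit 309485009821345068724781056) (nat_lit 79228162514264337593543950336) (nat_lit 11) (nat_lit 0)) (.cons (.br (nat_lit 10) (nat_lit 0) (.cons (.br (nat_lit 12) (nat_lit 0) (.cons (.ev (nat_lit 79540065394243998361877348352) (nat_lit 2)) .nil)) (.cons (.rf (nat_lit 4225) (nat_lit 492741412732994160672)) (.cons (.rf (nat_lit 4129) (nat_lit 8254119972907059245)) .nil)))) .nil))))),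
 (.br (nat_lit 3) (nat_lit 0) (.cons (.rf (nat_lit 4226) (nat_lit 493858305371929675808)) (.cons (.ev (nat_lit 311902916800809851032765186) (nat_lit 2)) (.cons (.rf (nat_lit 4226) (nat_lit 487877415325170500672)) (.cons (.br (nat_lit 7) (nat_lit 0) (.cons (.rf (nat_lit 4226) (nat_lit 493850389985576159264)) (.cons (.kr (nat_lit 79228162514264338693055578112) (nat_lit 309485009893402662762708992) (nat_lit 5) (nat_lit 0)) (.cons (.rf (nat_lit 4129) (nat_lit 14242959455481333805)) .nil)))) .nil))))),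
 (.br (nat_lit 2) (nat_lit 0) (.cons (.rf (nat_lit 4205) (nat_lit 14242959524133700672)) (.cons (.rf (nat_lit 4217) (nat_lit 8262069443048342592)) (.cons (.rf (nat_lit 4217) (nat_lit 6028284027872576576)) (.cons (.rf (nat_lit 4205) (nat_lit 14235044137780184128)) (.cons (.br (nat_lit 5) (nat_lit 0) (.cons (.rf (nat_lit 4226) (nat_lit 493858305440582043680)) (.cons (.kr (nat_lit 1099511627776) (nat_lit 72057594037927936) (nat_lit 5) (nat_lit 0)) (.cons (.rf (nat_lit 4226) (nat_lit 493850390054228527136)) (.cons (.rf (nat_lit 4227) (nat_lit 493858305440582043680)) (.cons (.rf (nat_lit 4227) (nat_lit 492741412732994160672)) (.cons (.br (nat_lit 3) (nat_lit 0) (.cons (.rf (nat_lit 4226) (nat_lit 493858305371929675808)) (.cons (.br (nat_lit 7) (nat_lit 0) (.cons (.ev (nat_lit 311902917016979334611665666) (nat_lit 2)) (.cons (.ev (nat_lit 79230580421459971859430834946) (nat_lit 2)) (.cons (.br (nat_lit 11) (nat_lit 0) (.cons (.ev (nat_lit 81130883613052667534445201588228) (nat_lit 3)) .nil))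 .nil)))) (.cons (.rf (nat_lit 4226) (nat_lit 487877415359496684608)) (.cons (.rf (nat_lit 4226) (nat_lit 487877415325170500672)) (.cons (.rf (nat_lit 4129) (nat_lit 14242959524133701677)) .nil)))))) .nil))))))) .nil)))))),
 (.br (nat_lit 2) (nat_lit 0) (.cons (.rf (nat_lit 4205) (nat_lit 14242959524133700672)) (.cons (.rf (nat_lit 4224) (nat_lit 493858305440582043680)) (.cons (.rf (nat_lit 4224) (nat_lit 493858305371929675808)) (.cons (.rf (nat_lit 4205) (nat_lit 14235044137780184128)) (.cons (.rf (nat_lit 4228) (nat_lit 493858305440582043680)) (.cons (.br (nat_lit 2) (nat_lit 0) (.cons (.rf (nat_lit 4129) (nat_lit 8262069443048354818)) (.cons (.rf (nat_lit 4224) (nat_lit 493858305440582043680)) (.cons (.rf (nat_lit 4224) (nat_lit 493858305371929675808)) (.cons (.rf (nat_lit 4129) (nat_lit 8254119972907070466)) (.cons (.rf (nat_lit 4228) (nat_lit 493858305440582043680)) .nil)))))) .nil))))))),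
 (.br (nat_lit 1) (nat_lit 0) (.cons (.rf (nat_lit 4151) (nat_lit 14242959524133701664)) (.cons (.rf (nat_lit 4205) (nat_lit 14242959524133701664)) (.cons (.rf (nat_lit 4205) (nat_lit 14235044137780185120)) (.cons (.rf (nat_lit 4217) (nat_lit 14242959524133701664)) (.cons (.rf (nat_lit 4217) (nat_lit 13126066816545818656)) (.cons (.br (nat_lit 2) (nat_lit 0) (.cons (.rf (nat_lit 4205) (nat_lit 14242959524133700672)) (.cons (.rf (nat_lit 4224) (nat_lit 493858305440582043680)) (.cons (.rf (nat_lit 4224) (nat_lit 493858305371929675808)) (.cons (.rf (nat_lit 4205) (nat_lit 14235044137780184128)) (.cons (.rf (nat_lit 4229) (nat_lit 493858305440582043680)) (.cons (.rf (nat_lit 4229) (nat_lit 492741412732994160672)) (.cons (.br (nat_lit 2) (nat_lit 0) (.cons (.rf (nat_lit 4205) (nat_lit 14242959524133700672)) (.cons (.rf (nat_lit 4224) (nat_lit 493858305440582043680)) (.cons (.rf (nat_lit 4224) (nat_lit 493858305371929675808)) (.cons (.rf (nat_lit 4205) (nat_lit 14235044137780184128)) (.cons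 (.rf (nat_lit 4229) (nat_lit 493858305440582043680)) (.cons (.rf (nat_lit 4229) (nat_lit 492741412732994160672)) .nil))))))) .nil)))))))) .nil))))))),
 (.br (nat_lit 7) (nat_lit 0) (.cons (.ev (nat_lit 282574505115649) (nat_lit 1)) (.cons (.ev (nat_lit 1208925819615732981301249) (nat_lit 1)) (.cons (.br (nat_lit 12) (nat_lit 0) (.cons (.ev (nat_lit 309485028268370621722787841) (nat_lit 1)) (.cons (.ev (nat_lit 310693954087703771609038849) (nat_lit 1)) (.cons (.zr (nat_lit 61164141470493695646757764071936) (nat_lit 2475880079363394084215455748) (nat_lit 15) (nat_lit 5)) .nil)))) .nil)))),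
 (.br (nat_lit 2) (nat_lit 0) (.cons (.rf (nat_lit 4205) (nat_lit 14242959524133700672)) (.cons (.rf (nat_lit 4230) (nat_lit 14242959524133700672)) (.cons (.rf (nat_lit 4205) (nat_lit 14235044137780184128)) (.cons (.rf (nat_lit 4230) (nat_lit 8262069443048342592)) (.cons (.br (nat_lit 7) (nat_lit 0) (.cons (.ev (nat_lit 282574505115649) (nat_lit 1)) (.cons (.ev (nat_lit 1208925819615732981301249) (nat_lit 1)) (.cons (.rf (nat_lit 4231) (nat_lit 493858305440582043680)) (.cons (.br (nat_lit 7) (nat_lit 0) (.cons (.ev (nat_lit 282574505115649) (nat_lit 1)) (.cons (.ev (nat_lit 1208925819615732981301249) (nat_lit 1)) (.cons (.rf (nat_lit 4231) (nat_lit 493858305440582043680)) .nil)))) .nil))))) .nil)))))),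
 (.br (nat_lit 7) (nat_lit 0) (.cons (.ev (nat_lit 282574505115649) (nat_lit 1)) (.cons (.ev (nat_lit 1208925819615732981301249) (nat_lit 1)) (.cons (.kr (nat_lit 79228162514264337593543950592) (nat_lit 309485009821345068724846592) (nat_lit 1) (nat_lit 0)) (.cons (.br (nat_lit 13) (nat_lit 0) (.cons (.ev (nat_lit 309485009821345073036525824) (nat_lit 1)) (.cons (.ev (nat_lit 310693935641241172876198144) (nat_lit 1)) (.cons (.zr (nat_lit 40566057147342770624836749492224) (nat_lit 316912654797870579516553823232) (nat_lit 10) (nat_lit 7)) .nil)))) .nil))))),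
 (.br (nat_lit 2) (nat_lit 0) (.cons (.rf (nat_lit 4205) (nat_lit 14242959524133700672)) (.cons (.rf (nat_lit 4230) (nat_lit 14242959524133700672)) (.cons (.rf (nat_lit 4205) (nat_lit 14235044137780184128)) (.cons (.rf (nat_lit 4230) (nat_lit 8262069443048342592)) (.cons (.br (nat_lit 7) (nat_lit 0) (.cons (.ev (nat_lit 282574505115649) (nat_lit 1)) (.cons (.ev (nat_lit 1208925819615732981301249) (nat_lit 1)) (.cons (.rf (nat_lit 4233) (nat_lit 493858305440582043680)) (.cons (.rf (nat_lit 4233) (nat_lit 492741412732994159680)) (.cons (.br (nat_lit 7) (nat_lit 0) (.cons (.ev (nat_lit 282574505115649) (nat_lit 1)) (.cons (.ev (nat_lit 1208925819615732981301249) (nat_lit 1)) (.cons (.rf (nat_lit 4233) (nat_lit 493858305440582043680)) (.cons (.rf (nat_lit 4233) (nat_lit 492741412732994159680)) .nil))))) .nil)))))) .nil)))))),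
 (.br (nat_lit 2) (nat_lit 0) (.cons (.rf (nat_lit 4205) (nat_lit 14242959524133700672)) (.cons (.rf (nat_lit 4230) (nat_lit 14242959524133700672)) (.cons (.rf (nat_lit 4205) (nat_lit 14235044137780184128)) (.cons (.rf (nat_lit 4232) (nat_lit 493858305440582043680)) (.cons (.rf (nat_lit 4234) (nat_lit 493858305440582043680)) (.cons (.br (nat_lit 2) (nat_lit 0) (.cons (.rf (nat_lit 4129) (nat_lit 14242959524133712898)) (.cons (.rf (nat_lit 4230) (nat_lit 14242959524133700672)) (.cons (.rf (nat_lit 4129) (nat_lit 14235044137780196354)) (.cons (.rf (nat_lit 4232) (nat_lit 493858305440582043680)) (.cons (.rf (nat_lit 4234) (nat_lit 493858305440582043680)) .nil)))))) .nil)))))))]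

theorem c156 : chkAll C T R L156 (nat_lit 4213) = true := by decide +kernel

theorem l156 : (nat_lit 4213) + L156.length = (nat_lit 4236) := by decide +kernel

/-- part of the certificates -/
def L157 : List Prf := [(.br (nat_lit 13) (nat_lit 0) (.cons (.rf (nat_lit 4129) (nat_lit 14242959524133701677)) (.cons (.rf (nat_lit 4129) (nat_lit 14242959455481333805)) (.cons (.br (nat_lit 5) (nat_lit 0) (.cons (.ev (nat_lit 81129645672976632220442849051140) (nat_lit 3)) (.cons (.ev (nat_lit 40565439386248803997090402271746) (nat_lit 2)) (.cons (.ev (nat_lit 18446745173237956864) (nat_lit 1)) .nil)))) (.cons (.rf (nat_lit 4129) (nat_lit 8262069443048343597)) (.cons (.rf (nat_lit 4129) (nat_lit 8262069408722159661)) .nil)))))),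
 (.br (nat_lit 10) (nat_lit 0) (.cons (.br (nat_lit 12) (nat_lit 0) (.cons (.ev (nat_lit 81131497747332283519015173095936) (nat_lit 3)) .nil)) (.cons (.ev (nat_lit 1208944266641281667563776) (nat_lit 1)) (.cons (.rf (nat_lit 4129) (nat_lit 14235044137780185133)) .nil)))),
 (.br (nat_lit 3) (nat_lit 0) (.cons (.rf (nat_lit 4237) (nat_lit 493858305440582043680)) (.cons (.br (nat_lit 7) (nat_lit 0) (.cons (.br (nat_lit 12) (nat_lit 0) (.cons (.ev (nat_lit 158768227908652168581893653250) (nat_lit 2)) .nil)) (.cons (.ev (nat_lit 475373815566717284703124325380) (nat_lit 3)) (.cons (.br (nat_lit 11) (nat_lit 0) (.cons (.ev (nat_lit 40644358063771837569601053458690) (nat_lit 2)) .nil)) .nil)))) (.cons (.br (nat_lit 10) (nat_lit 0) (.cons (.rf (nat_lit 4237) (nat_lit 493850390054228527136)) (.cons (.ev (nat_lit 1213648186098598331547904) (nat_lit 1)) (.cons (.rf (nat_lit 4129) (nat_lit 14235044137780185133)) .nil)))) (.cons (.ev (nat_lit 18446745173237956864) (nat_lit 1)) (.cons (.rf (nat_lit 4129)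 (nat_lit 14242959524133701677)) .nil)))))),
 (.br (nat_lit 2) (nat_lit 0) (.cons (.rf (nat_lit 4205) (nat_lit 14242959524133700672)) (.cons (.rf (nat_lit 4230) (nat_lit 14242959524133700672)) (.cons (.rf (nat_lit 4205) (nat_lit 14235044137780184128)) (.cons (.rf (nat_lit 4230) (nat_lit 8262069443048342592)) (.cons (.br (nat_lit 13) (nat_lit 0) (.cons (.rf (nat_lit 4236) (nat_lit 493858305440582043680)) (.cons (.rf (nat_lit 4238) (nat_lit 493858305440582043680)) (.cons (.rf (nat_lit 4238) (nat_lit 492741412664341791808)) (.cons (.rf (nat_lit 4236) (nat_lit 493850390054228527136)) (.cons (.rf (nat_lit 4238) (nat_lit 487877415359496685600)) (.cons (.rf (nat_lit 4238) (nat_lit 485643629909994734656)) .nil))))))) .nil)))))),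
 (.br (nat_lit 2) (nat_lit 0) (.cons (.rf (nat_lit 4205) (nat_lit 14242959524133700672)) (.cons (.rf (nat_lit 4230) (nat_lit 14242959524133700672)) (.cons (.rf (nat_lit 4205) (nat_lit 14235044137780184128)) (.cons (.rf (nat_lit 4235) (nat_lit 487877415359496685600)) (.cons (.rf (nat_lit 4239) (nat_lit 493858305440582043680)) (.cons (.br (nat_lit 2) (nat_lit 0) (.cons (.rf (nat_lit 4129) (nat_lit 14242959455481345026)) (.cons (.rf (nat_lit 4230) (nat_lit 14242959524133700672)) (.cons (.rf (nat_lit 4129) (nat_lit 14235044069127828482)) (.cons (.rf (nat_lit 4235) (nat_lit 487877415359496685600)) (.cons (.rf (nat_lit 4239) (nat_lit 493858305440582043680)) .nil)))))) .nil))))))),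
 (.br (nat_lit 1) (nat_lit 0) (.cons (.rf (nat_lit 4151) (nat_lit 14242959524133701664)) (.cons (.rf (nat_lit 4205) (nat_lit 14242959524133701664)) (.cons (.rf (nat_lit 4230) (nat_lit 14242959524133701664)) (.cons (.rf (nat_lit 4205) (nat_lit 14235044137780185120)) (.cons (.rf (nat_lit 4230) (nat_lit 8262069443048343584)) (.cons (.br (nat_lit 2) (nat_lit 0) (.cons (.rf (nat_lit 4205) (nat_lit 14242959524133700672)) (.cons (.rf (nat_lit 4235) (nat_lit 493858305440582043680)) (.cons (.rf (nat_lit 4240) (nat_lit 493858305440582043680)) (.cons (.rf (nat_lit 4205) (nat_lit 14235044137780184128)) (.cons (.rf (nat_lit 4235) (nat_lit 487877415359496685600)) (.cons (.rf (nat_lit 4240) (nat_lit 487877415359496685600)) (.cons (.br (nat_lit 2) (nat_lit 0) (.cons (.rf (nat_lit 4205) (nat_lit 14242959524133700672)) (.cons (.rf (nat_lit 4235) (nat_lit 493858305440582043680)) (.cons (.rf (nat_lit 4240) (nat_lit 493858305440582043680)) (.cons (.rf (nat_lit 4205) (nat_lit 14235044137780184128)) (.cons (.rf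 (nat_lit 4235) (nat_lit 487877415359496685600)) (.cons (.rf (nat_lit 4240) (nat_lit 487877415359496685600)) .nil))))))) .nil)))))))) .nil))))))),
 (.br (nat_lit 1) (nat_lit 0) (.cons (.rf (nat_lit 4151) (nat_lit 14242959524133701664)) (.cons (.rf (nat_lit 4205) (nat_lit 14242959524133701664)) (.cons (.rf (nat_lit 4230) (nat_lit 14242959524133701664)) (.cons (.rf (nat_lit 4205) (nat_lit 14235044137780185120)) (.cons (.rf (nat_lit 4241) (nat_lit 14242959524133701664)) (.cons (.rf (nat_lit 4241) (nat_lit 13126066816545818656)) (.cons (.br (nat_lit 1) (nat_lit 0) (.cons (.rf (nat_lit 1943) (nat_lit 428033)) (.cons (.rf (nat_lit 4129) (nat_lit 14242959524133712897)) (.cons (.rf (nat_lit 4230) (nat_lit 14242959524133701664)) (.cons (.rf (nat_lit 4129) (nat_lit 14235044137780196353)) (.cons (.rf (nat_lit 4241) (nat_lit 14242959524133701664)) (.cons (.rf (nat_lit 4241) (nat_lit 13126066816545818656)) .nil))))))) .nil)))))))),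
 (.br (nat_lit 11) (nat_lit 1) (.cons (.br (nat_lit 12) (nat_lit 1) (.cons (.br (nat_lit 0) (nat_lit 0) (.cons (.rf (nat_lit 4129) (nat_lit 14242959524133701664)) (.cons (.rf (nat_lit 4129) (nat_lit 14242959455481333792)) (.cons (.br (nat_lit 1) (nat_lit 0) (.cons (.rf (nat_lit 4151) (nat_lit 14242959524133701664)) (.cons (.rf (nat_lit 4205) (nat_lit 14242959524133701664)) (.cons (.rf (nat_lit 4242) (nat_lit 14242959524133701664)) (.cons (.rf (nat_lit 4242) (nat_lit 14242959455481333792)) (.cons (.rf (nat_lit 4205) (nat_lit 14235044137780185120)) (.cons (.rf (nat_lit 4242) (nat_lit 8262069443048343584)) (.cons (.rf (nat_lit 4242) (nat_lit 8262069408722159648)) (.cons (.br (nat_lit 1) (nat_lit 0) (.cons (.rf (nat_lit 1943) (nat_lit 428033)) (.cons (.rf (nat_lit 4205) (nat_lit 14242959524133701664)) (.cons (.rf (nat_lit 4242) (nat_lit 14242959524133701664)) (.cons (.rf (nat_lit 4242) (nat_lit 14242959455481333792)) (.cons (.rf (nat_lit 4205) (nat_lit 14235044137780185120)) (.cons (.rf (nat_lit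 4242) (nat_lit 8262069443048343584)) (.cons (.rf (nat_lit 4242) (nat_lit 8262069408722159648)) .nil)))))))) .nil))))))))) (.cons (.rf (nat_lit 4129) (nat_lit 8262069443048343584)) (.cons (.rf (nat_lit 4129) (nat_lit 8262069408722159648)) (.cons (.rf (nat_lit 1943) (nat_lit 428064)) .nil))))))) .nil)) .nil)),
 (.br (nat_lit 9) (nat_lit 0) (.cons (.br (nat_lit 9) (nat_lit 0) (.cons (.br (nat_lit 9) (nat_lit 0) (.cons (.br (nat_lit 6) (nat_lit 0) (.cons (.rf (nat_lit 4243) (nat_lit 14242959524133701664)) (.cons (.rf (nat_lit 4243) (nat_lit 14208056627021580320)) (.cons (.rf (nat_lit 4243) (nat_lit 13056261022321575968)) .nil)))) .nil)) .nil)) .nil)),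
 (.br (nat_lit 8) (nat_lit 0) (.cons (.rf (nat_lit 4244) (nat_lit 325702574508064)) (.cons (.br (nat_lit 8) (nat_lit 0) (.cons (.rf (nat_lit 4244) (nat_lit 325702574508064)) (.cons (.br (nat_lit 8) (nat_lit 0) (.cons (.rf (nat_lit 4244) (nat_lit 325702574508064)) (.cons (.rf (nat_lit 1056) (nat_lit 434660630008963)) .nil))) .nil))) .nil))),
 (.br (nat_lit 1) (nat_lit 0) (.cons (.rf (nat_lit 3099) (nat_lit 11939262764771607554)) (.cons (.rf (nat_lit 3421) (nat_lit 250286868481)) (.cons (.rf (nat_lit 3421) (nat_lit 181567457281)) (.cons (.rf (nat_lit 3099) (nat_lit 3724627911817462786)) (.cons (.rf (nat_lit 3421) (nat_lit 180730824705)) (.cons (.rf (nat_lit 3421) (nat_lit 247304947713)) (.cons (.rf (nat_lit 1943) (nat_lit 428033)) .nil)))))))),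
 (.br (nat_lit 9) (nat_lit 0) (.cons (.rf (nat_lit 2743) (nat_lit 11247616821280)) (.cons (.ev (nat_lit 4740885567111881097473) (nat_lit 1)) (.cons (.rf (nat_lit 2671) (nat_lit 13905875915016224)) .nil)))),
 (.br (nat_lit 2) (nat_lit 0) (.cons (.ev (nat_lit 4722438541563194834944) (nat_lit 1)) (.cons (.rf (nat_lit 4247) (nat_lit 407901468851537952)) (.cons (.rf (nat_lit 4247) (nat_lit 372996306211276832)) (.cons (.rf (nat_lit 3421) (nat_lit 352495775746)) .nil))))),
 (.br (nat_lit 2) (nat_lit 0) (.cons (.ev (nat_lit 1213666705181745350770688) (nat_lit 1)) (.cons (.br (nat_lit 7) (nat_lit 0) (.cons (.rf (nat_lit 2164) (nat_lit 12514639317024)) (.cons (.br (nat_lit 11) (nat_lit 0) (.cons (.zr (nat_lit 2422592452456201737863680) (nat_lit 309485009893965621306064899) (nat_lit 5) (nat_lit 0)) (.cons (.rf (nat_lit 2163) (nat_lit 15066994553717824)) .nil))) (.cons (.rf (nat_lit 2163) (nat_lit 15071255168387104)) .nil)))) (.cons (.br (nat_lit 7) (nat_lit 0) (.cons (.br (nat_lit 11) (nat_lit 0)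 (.cons (.ev (nat_lit 79229371458602753894761103616) (nat_lit 1)) (.cons (.rf (nat_lit 2234) (nat_lit 15066788603725856)) .nil))) (.cons (.rf (nat_lit 2164) (nat_lit 13579791206432)) (.cons (.rf (nat_lit 2163) (nat_lit 15037168160442400)) .nil)))) (.cons (.rf (nat_lit 3421) (nat_lit 250286879746)) .nil))))),
 (.br (nat_lit 2) (nat_lit 0) (.cons (.rf (nat_lit 4248) (nat_lit 445091350149433376)) (.cons (.rf (nat_lit 4249) (nat_lit 14242959524133701664)) (.cons (.br (nat_lit 7) (nat_lit 0) (.cons (.br (nat_lit 11) (nat_lit 0) (.cons (.ev (nat_lit 1856914836779749535717393920) (nat_lit 3)) (.cons (.rf (nat_lit 2314) (nat_lit 465511483803680)) .nil))) (.cons (.br (nat_lit 10) (nat_lit 0) (.cons (.ev (nat_lit 79229376180969236760111349761) (nat_lit 1)) (.cons (.rf (nat_lit 2341) (nat_lit 465517724928032)) .nil))) (.cons (.ev (nat_lit 79228176699954648771423437315) (nat_lit 2)) (.cons (.br (nat_lit 10) (nat_lit 0) (.cons (.rf (nat_lit 2367) (nat_lit 470837243250720)) (.cons (.rf (nat_lit 2367)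 (nat_lit 469737765177376)) (.cons (.br (nat_lit 11) (nat_lit 0) (.cons (.ev (nat_lit 159699105623452877834248390670) (nat_lit 4)) (.cons (.ev (nat_lit 310693935641242276682793216) (nat_lit 1)) .nil))) .nil)))) .nil))))) (.cons (.rf (nat_lit 3421) (nat_lit 250286879746)) .nil))))),
 (.br (nat_lit 2) (nat_lit 0) (.cons (.rf (nat_lit 4248) (nat_lit 445091350149433376)) (.cons (.rf (nat_lit 4249) (nat_lit 14242959524133701664)) (.cons (.rf (nat_lit 4250) (nat_lit 14242959524133701664)) (.cons (.br (nat_lit 2) (nat_lit 0) (.cons (.rf (nat_lit 4248) (nat_lit 445091350149433376)) (.cons (.rf (nat_lit 4249) (nat_lit 14242959524133701664)) (.cons (.rf (nat_lit 4250) (nat_lit 14242959524133701664)) (.cons (.rf (nat_lit 3421) (nat_lit 250286879746)) .nil))))) (.cons (.rf (nat_lit 3421) (nat_lit 250286879746)) .nil)))))),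
 (.br (nat_lit 2) (nat_lit 0) (.cons (.rf (nat_lit 4251) (nat_lit 14242959524133701664)) (.cons (.rf (nat_lit 4251) (nat_lit 13126064551017678880)) (.cons (.br (nat_lit 5) (nat_lit 0) (.cons (.br (nat_lit 11) (nat_lit 0) (.cons (.ev (nat_lit 1856914836779749535717392900) (nat_lit 3)) (.cons (.rf (nat_lit 2242) (nat_lit 465511483803680)) .nil))) (.cons (.br (nat_lit 7) (nat_lit 0) (.cons (.ev (nat_lit 1856914910567851730462441988) (nat_lit 3)) (.cons (.rf (nat_lit 2173) (nat_lit 469909396097056)) .nil))) (.cons (.br (nat_lit 7) (nat_lit 0) (.cons (.ev (nat_lit 81399393397189417263199158272) (nat_lit 3)) (.cons (.rf (nat_lit 2173) (nat_lit 470974547986464)) .nil))) (.cons (.rf (nat_lit 2206) (nat_lit 15428391462574031936)) .nil))))) (.cons (.rf (nat_lit 3421) (nat_lit 180730835970)) .nil))))),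
 (.br (nat_lit 2) (nat_lit 0) (.cons (.rf (nat_lit 4251) (nat_lit 14242959524133701664)) (.cons (.rf (nat_lit 4251) (nat_lit 13126064551017678880)) (.cons (.rf (nat_lit 4252) (nat_lit 14242959524133701664)) (.cons (.rf (nat_lit 4252) (nat_lit 13126064551017678880)) (.cons (.rf (nat_lit 4246) (nat_lit 14242959524133712960)) .nil)))))),
 (.br (nat_lit 2) (nat_lit 0) (.cons (.rf (nat_lit 4251) (nat_lit 14242959524133701664)) (.cons (.rf (nat_lit 4251) (nat_lit 13126064551017678880)) (.cons (.rf (nat_lit 4253) (nat_lit 14242959524133701664)) (.cons (.br (nat_lit 2) (nat_lit 0) (.cons (.rf (nat_lit 4251) (nat_lit 14242959524133701664)) (.cons (.rf (nat_lit 4251) (nat_lit 13126064551017678880)) (.cons (.rf (nat_lit 4253) (nat_lit 14242959524133701664)) (.cons (.rf (nat_lit 3421) (nat_lit 180730835970)) .nil))))) (.cons (.rf (nat_lit 3421) (nat_lit 180730835970)) .nil)))))),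
 (.br (nat_lit 2) (nat_lit 0) (.cons (.rf (nat_lit 4251) (nat_lit 14242959524133701664)) (.cons (.rf (nat_lit 4251) (nat_lit 13126064551017678880)) (.cons (.rf (nat_lit 4253) (nat_lit 14242959524133701664)) (.cons (.rf (nat_lit 4254) (nat_lit 14242959524133701664)) (.cons (.rf (nat_lit 4254) (nat_lit 13126064551017678880)) (.cons (.rf (nat_lit 4246) (nat_lit 14242959524133712960)) .nil))))))),
 (.br (nat_lit 2) (nat_lit 0) (.cons (.br (nat_lit 7) (nat_lit 0) (.cons (.rf (nat_lit 2164) (nat_lit 8120887773216)) (.cons (.br (nat_lit 11) (nat_lit 0) (.cons (.zr (nat_lit 2422592452456201737863680) (nat_lit 309485009893965621306064899) (nat_lit 5) (nat_lit 0)) (.cons (.rf (nat_lit 2163) (nat_lit 15066994560829472)) .nil))) (.cons (.rf (nat_lit 2163) (nat_lit 15071255161275456)) .nil)))) (.cons (.ev (nat_lit 309489750634854590879629568) (nat_lit 1)) (.cons (.br (nat_lit 7) (nat_lit 0) (.cons (.rf (nat_lit 2328) (nat_lit 13122684652376655904)) (.cons (.ev (nat_lit 18518802771570917633) (nat_lit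 1)) (.cons (.br (nat_lit 10) (nat_lit 0) (.cons (.ev (nat_lit 1861750613845184330007446020) (nat_lit 3)) (.cons (.rf (nat_lit 2313) (nat_lit 469909396097056)) .nil))) (.cons (.br (nat_lit 10) (nat_lit 0) (.cons (.rf (nat_lit 2314) (nat_lit 469909396097056)) (.cons (.rf (nat_lit 2312) (nat_lit 469737765177376)) (.cons (.br (nat_lit 12) (nat_lit 0) (.cons (.rf (nat_lit 2341) (nat_lit 469745046489120)) (.cons (.ev (nat_lit 79228167236702878061538836736) (nat_lit 1)) .nil))) .nil)))) .nil))))) (.cons (.rf (nat_lit 3421) (nat_lit 250286879746)) .nil))))),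
 (.br (nat_lit 2) (nat_lit 0) (.cons (.rf (nat_lit 4256) (nat_lit 14242959524133701664)) (.cons (.ev (nat_lit 309489750634854590879629568) (nat_lit 1)) (.cons (.rf (nat_lit 2191) (nat_lit 12870382154165847104)) (.cons (.rf (nat_lit 3421) (nat_lit 250286879746)) .nil))))),
 (.br (nat_lit 2) (nat_lit 0) (.cons (.rf (nat_lit 4256) (nat_lit 14242959524133701664)) (.cons (.rf (nat_lit 4257) (nat_lit 14242959524133701664)) (.cons (.ev (nat_lit 309489750634854590879629568) (nat_lit 1)) (.cons (.br (nat_lit 2) (nat_lit 0) (.cons (.rf (nat_lit 4256) (nat_lit 14242959524133701664)) (.cons (.rf (nat_lit 2191) (nat_lit 12870382154165847104)) (.cons (.ev (nat_lit 309489750634854590879629568) (nat_lit 1)) (.cons (.rf (nat_lit 3421) (nat_lit 250286879746)) .nil))))) (.cons (.rf (nat_lit 3421) (nat_lit 250286879746)) .nil)))))),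
 (.br (nat_lit 2) (nat_lit 0) (.cons (.rf (nat_lit 4258) (nat_lit 14242959524133701664)) (.cons (.br (nat_lit 2) (nat_lit 0) (.cons (.rf (nat_lit 4258) (nat_lit 14242959524133701664)) (.cons (.rf (nat_lit 2191) (nat_lit 6174655241737536576)) (.cons (.rf (nat_lit 4255) (nat_lit 12865879654183273536)) (.cons (.rf (nat_lit 3421) (nat_lit 181567468546)) .nil))))) (.cons (.rf (nat_lit 4258) (nat_lit 8262003469130500128)) (.cons (.br (nat_lit 2) (nat_lit 0) (.cons (.rf (nat_lit 4258) (nat_lit 14242959524133701664)) (.cons (.rf (nat_lit 4255) (nat_lit 12865879654183273536)) (.cons (.rf (nat_lit 4258) (nat_lit 8262003469130500128)) (.cons (.rf (nat_lit 3421) (nat_lit 181567468546)) .nil))))) (.cons (.rf (nat_lit 3421) (nat_lit 181567468546)) .nil)))))),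
 (.br (nat_lit 2) (nat_lit 0) (.cons (.rf (nat_lit 4258) (nat_lit 14242959524133701664)) (.cons (.rf (nat_lit 4259) (nat_lit 14242959524133701664)) (.cons (.br (nat_lit 2) (nat_lit 0) (.cons (.rf (nat_lit 4258) (nat_lit 14242959524133701664)) (.cons (.rf (nat_lit 4259) (nat_lit 14242959524133701664)) (.cons (.rf (nat_lit 4258) (nat_lit 8262003469130500128)) (.cons (.rf (nat_lit 4259) (nat_lit 8262003469130500128)) (.cons (.rf (nat_lit 4246) (nat_lit 14242959524133712960)) .nil)))))) (.cons (.rf (nat_lit 4258) (nat_lit 8262003469130500128)) (.cons (.rf (nat_lit 4259) (nat_lit 8262003469130500128)) (.cons (.rf (nat_lit 4246) (nat_lit 14242959524133712960)) .nil))))))),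
 (.br (nat_lit 2) (nat_lit 0) (.cons (.rf (nat_lit 2191) (nat_lit 8263130468514367520)) (.cons (.br (nat_lit 7) (nat_lit 0) (.cons (.br (nat_lit 11) (nat_lit 0) (.cons (.ev (nat_lit 310693935641242276682793216) (nat_lit 1)) (.cons (.rf (nat_lit 2312) (nat_lit 470974547986464)) .nil))) (.cons (.ev (nat_lit 18518802771570917633) (nat_lit 1)) (.cons (.rf (nat_lit 2746) (nat_lit 6174655241737537568)) (.cons (.rf (nat_lit 2315) (nat_lit 15432895985724000288)) .nil))))) (.cons (.br (nat_lit 7) (nat_lit 0) (.cons (.ev (nat_lit 79231789328760788115148308481) (nat_lit 2)) (.cons (.br (nat_lit 10) (nat_lit 0) (.cons (.ev (nat_lit 1864168465483850647094034948) (nat_lit 3)) (.cons (.rf (nat_lit 2671) (nat_lit 15037168153331744)) .nil))) (.cons (.rf (nat_lit 3164) (nat_lit 15064793554716704)) .nil)))) (.cons (.rf (nat_lit 3421) (nat_lit 250286879746)) .nil)))))]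

theorem c157 : chkAll C T R L157 (nat_lit 4236) = true := by decide +kernel

theorem l157 : (nat_lit 4236) + L157.length = (nat_lit 4262) := by decide +kernel

/-- part of the certificates -/
def L158 : List Prf := [(.br (nat_lit 2) (nat_lit 0) (.cons (.rf (nat_lit 4261) (nat_lit 14242959524133701664)) (.cons (.br (nat_lit 2) (nat_lit 0) (.cons (.rf (nat_lit 2191) (nat_lit 8263130468514367520)) (.cons (.rf (nat_lit 4255) (nat_lit 14090929087143281728)) (.cons (.rf (nat_lit 3196) (nat_lit 418028554272)) (.cons (.rf (nat_lit 3421) (nat_lit 250286879746)) .nil))))) (.cons (.br (nat_lit 2) (nat_lit 0) (.cons (.rf (nat_lit 4261) (nat_lit 14242959524133701664)) (.cons (.rf (nat_lit 4255) (nat_lit 14090929087143281728)) (.cons (.rf (nat_lit 4261) (nat_lit 6028215822752778272)) (.cons (.rf (nat_lit 3421) (nat_lit 250286879746)) .nil))))) (.cons (.br (nat_lit 2) (nat_lit 0) (.cons (.rf (nat_lit 4261) (nat_lit 14242959524133701664)) (.cons (.rf (nat_lit 3196) (nat_lit 418028554272)) (.cons (.rf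 (nat_lit 4261) (nat_lit 6028215822752778272)) (.cons (.rf (nat_lit 3421) (nat_lit 250286879746)) .nil))))) (.cons (.rf (nat_lit 3421) (nat_lit 250286879746)) .nil)))))),
 (.br (nat_lit 2) (nat_lit 0) (.cons (.rf (nat_lit 2191) (nat_lit 8263130468514367520)) (.cons (.br (nat_lit 5) (nat_lit 0) (.cons (.ev (nat_lit 72340172838076416) (nat_lit 1)) (.cons (.ev (nat_lit 310698658007725142033039616) (nat_lit 1)) (.cons (.br (nat_lit 7) (nat_lit 0) (.cons (.ev (nat_lit 18518802771570917376) (nat_lit 1)) (.cons (.rf (nat_lit 2242) (nat_lit 470974547986464)) .nil))) (.cons (.br (nat_lit 7) (nat_lit 0) (.cons (.rf (nat_lit 2242) (nat_lit 469911469360192)) (.cons (.ev (nat_lit 79229371458602753894761103616) (nat_lit 1)) (.cons (.br (nat_lit 11) (nat_lit 0) (.cons (.ev (nat_lit 79537652264898909605640339456) (nat_lit 1)) (.cons (.br (nat_lit 12) (nat_lit 0) (.cons (.ev (nat_lit 79537647542749447241590637056) (nat_lit 2)) .nil)) .nil))) .nil)))) .nil))))) (.cons (.rf (nat_lit 4255) (nat_lit 12865879654183273536))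 (.cons (.rf (nat_lit 3421) (nat_lit 181567468546)) .nil))))),
 (.br (nat_lit 2) (nat_lit 0) (.cons (.rf (nat_lit 4262) (nat_lit 14242959524133701664)) (.cons (.rf (nat_lit 4263) (nat_lit 14242959524133701664)) (.cons (.br (nat_lit 2) (nat_lit 0) (.cons (.rf (nat_lit 4262) (nat_lit 14242959524133701664)) (.cons (.rf (nat_lit 4263) (nat_lit 14242959524133701664)) (.cons (.rf (nat_lit 4262) (nat_lit 6028215822752778272)) (.cons (.rf (nat_lit 3421) (nat_lit 181567468546)) .nil))))) (.cons (.rf (nat_lit 4262) (nat_lit 6028215822752778272)) (.cons (.rf (nat_lit 3421) (nat_lit 181567468546)) .nil)))))),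
 (.br (nat_lit 1) (nat_lit 0) (.cons (.rf (nat_lit 3421) (nat_lit 250286868481)) (.cons (.rf (nat_lit 4255) (nat_lit 14242959524133701664)) (.cons (.kr (nat_lit 18447025548719816704) (nat_lit 2422574005712132289593344) (nat_lit 3) (nat_lit 0)) (.cons (.rf (nat_lit 4260) (nat_lit 14242959524133701664)) (.cons (.br (nat_lit 2) (nat_lit 0) (.cons (.rf (nat_lit 4262) (nat_lit 14242959524133701664)) (.cons (.rf (nat_lit 4264) (nat_lit 14242959524133701664)) (.cons (.br (nat_lit 2) (nat_lit 0) (.cons (.rf (nat_lit 4262) (nat_lit 14242959524133701664)) (.cons (.rf (nat_lit 4264) (nat_lit 14242959524133701664)) (.cons (.rf (nat_lit 4264) (nat_lit 6028215822752778272)) (.cons (.rf (nat_lit 4262) (nat_lit 6028215822752778272)) (.cons (.rf (nat_lit 4246) (nat_lit 14242959524133712960)) .nil)))))) (.cons (.rf (nat_lit 4264) (nat_lit 6028215822752778272)) (.cons (.rf (nat_lit 4262) (nat_lit 6028215822752778272)) (.cons (.rf (nat_lit 4246) (nat_lit 14242959524133712960)) .nil))))))) (.cons (.rf (nat_lit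 3421) (nat_lit 250286879745)) .nil))))))),
 (.br (nat_lit 1) (nat_lit 0) (.cons (.rf (nat_lit 4246) (nat_lit 14242959524133701664)) (.cons (.rf (nat_lit 4265) (nat_lit 14242959524133701664)) (.cons (.rf (nat_lit 4265) (nat_lit 13126064551017678880)) (.cons (.kr (nat_lit 18447025548719816704) (nat_lit 2422574005712132289593344) (nat_lit 3) (nat_lit 0)) (.cons (.rf (nat_lit 4265) (nat_lit 8262003469130500128)) (.cons (.rf (nat_lit 4265) (nat_lit 6028215822752778272)) (.cons (.rf (nat_lit 4246) (nat_lit 14242959524133712928)) .nil)))))))),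
 (.br (nat_lit 10) (nat_lit 0) (.cons (.zr (nat_lit 309522788826391519831326977) (nat_lit 316912650075504098854572130304) (nat_lit 15) (nat_lit 11)) (.cons (.rf (nat_lit 3259) (nat_lit 470976556238880)) .nil))),
 (.br (nat_lit 10) (nat_lit 0) (.cons (.ev (nat_lit 310693935641242276682858496) (nat_lit 1)) (.cons (.rf (nat_lit 2862) (nat_lit 470976621250592)) .nil))),
 (.br (nat_lit 2) (nat_lit 0) (.cons (.rf (nat_lit 4248) (nat_lit 445091350149432384)) (.cons (.ev (nat_lit 1213666705181745350770688) (nat_lit 1)) (.cons (.br (nat_lit 12) (nat_lit 0) (.cons (.rf (nat_lit 4267) (nat_lit 14242959524133701664)) (.cons (.rf (nat_lit 4267) (nat_lit 14090929087143282720)) (.cons (.rf (nat_lit 3299) (nat_lit 469737700165664)) .nil)))) (.cons (.br (nat_lit 3) (nat_lit 0) (.cons (.ev (nat_lit 1208944338698871410589953) (nat_lit 1)) (.cons (.rf (nat_lit 4268) (nat_lit 14242959524133701664)) (.cons (.rf (nat_lit 4268) (nat_lit 13126064551017677888)) (.cons (.br (nat_lit 10) (nat_lit 0) (.cons (.rf (nat_lit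 2862) (nat_lit 470976628361248)) (.cons (.rf (nat_lit 2862) (nat_lit 469911476470848)) (.cons (.kr (nat_lit 18447025548719816704) (nat_lit 2422574005712132289593344) (nat_lit 3) (nat_lit 0)) .nil)))) .nil))))) (.cons (.rf (nat_lit 3421) (nat_lit 250286879746)) .nil)))))),
 (.br (nat_lit 2) (nat_lit 0) (.cons (.rf (nat_lit 4266) (nat_lit 14242959524133700672)) (.cons (.rf (nat_lit 4269) (nat_lit 14242959524133701664)) (.cons (.rf (nat_lit 4266) (nat_lit 14090929087143281728)) (.cons (.rf (nat_lit 4269) (nat_lit 14090929087143282720)) (.cons (.br (nat_lit 2) (nat_lit 0) (.cons (.rf (nat_lit 4266) (nat_lit 14242959524133700672)) (.cons (.rf (nat_lit 4269) (nat_lit 14242959524133701664)) (.cons (.rf (nat_lit 4266) (nat_lit 14090929087143281728)) (.cons (.rf (nat_lit 4269) (nat_lit 14090929087143282720)) (.cons (.rf (nat_lit 3421) (nat_lit 250286879746)) .nil)))))) (.cons (.rf (nat_lit 3421) (nat_lit 250286879746)) .nil))))))),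
 (.br (nat_lit 10) (nat_lit 0) (.cons (.kr (nat_lit 18446744073726328832) (nat_lit 1208925819614633469673472) (nat_lit 3) (nat_lit 0)) (.cons (.rf (nat_lit 2862) (nat_lit 470774824896544)) .nil))),
 (.br (nat_lit 2) (nat_lit 0) (.cons (.rf (nat_lit 3421) (nat_lit 181567457281)) (.cons (.rf (nat_lit 4266) (nat_lit 14242959524133700672)) (.cons (.rf (nat_lit 4270) (nat_lit 13126064551017677888)) (.cons (.rf (nat_lit 4266) (nat_lit 14090929087143281728)) (.cons (.br (nat_lit 1) (nat_lit 0) (.cons (.rf (nat_lit 4266) (nat_lit 14242959524133701664)) (.cons (.br (nat_lit 3) (nat_lit 0) (.cons (.rf (nat_lit 4271) (nat_lit 14242959524133701664)) (.cons (.br (nat_lit 5) (nat_lit 0) (.cons (.ev (nat_lit 80159035450780176646745948930) (nat_lit 2)) (.cons (.rf (nat_lit 4014) (nat_lit 470976628361248)) .nil))) (.cons (.rf (nat_lit 4271) (nat_lit 6028215822752777280)) (.cons (.br (nat_lit 10) (nat_lit 0) (.cons (.rf (nat_lit 2862) (nat_lit 470774832007200)) (.cons (.rf (nat_lit 2862) (nat_lit 463318768780352))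 (.cons (.kr (nat_lit 18447025548719816704) (nat_lit 2422574005712132289593344) (nat_lit 3) (nat_lit 0)) .nil)))) .nil))))) (.cons (.rf (nat_lit 4266) (nat_lit 14090929087143282720)) (.cons (.rf (nat_lit 4270) (nat_lit 6028215822752778272)) (.cons (.rf (nat_lit 3421) (nat_lit 181567468545)) .nil)))))) (.cons (.rf (nat_lit 3421) (nat_lit 181567468546)) .nil))))))),
 (.br (nat_lit 2) (nat_lit 0) (.cons (.rf (nat_lit 4266) (nat_lit 14242959524133700672)) (.cons (.rf (nat_lit 4270) (nat_lit 14242959524133701664)) (.cons (.rf (nat_lit 4266) (nat_lit 14090929087143281728)) (.cons (.rf (nat_lit 4272) (nat_lit 6028215822752777280)) (.cons (.rf (nat_lit 4272) (nat_lit 14242959524133701664)) (.cons (.rf (nat_lit 3421) (nat_lit 181567468546)) .nil))))))),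
 (.br (nat_lit 2) (nat_lit 0) (.cons (.rf (nat_lit 4266) (nat_lit 14242959524133700672)) (.cons (.rf (nat_lit 4270) (nat_lit 14242959524133701664)) (.cons (.rf (nat_lit 4273) (nat_lit 14242959524133701664)) (.cons (.rf (nat_lit 4266) (nat_lit 14090929087143281728)) (.cons (.rf (nat_lit 4273) (nat_lit 14090929087143282720)) (.cons (.br (nat_lit 2) (nat_lit 0) (.cons (.rf (nat_lit 4266) (nat_lit 14242959524133700672)) (.cons (.rf (nat_lit 4270) (nat_lit 14242959524133701664)) (.cons (.rf (nat_lit 4272) (nat_lit 14242959524133701664)) (.cons (.rf (nat_lit 4266) (nat_lit 14090929087143281728)) (.cons (.rf (nat_lit 4272) (nat_lit 14090929087143282720)) (.cons (.rf (nat_lit 3421) (nat_lit 247304958978)) .nil))))))) (.cons (.rf (nat_lit 4246) (nat_lit 14242959524133712960)) .nil)))))))),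
 (.br (nat_lit 1) (nat_lit 0) (.cons (.rf (nat_lit 3421) (nat_lit 250286868481)) (.cons (.rf (nat_lit 4266) (nat_lit 14242959524133701664)) (.cons (.rf (nat_lit 4266) (nat_lit 14090929087143282720)) (.cons (.rf (nat_lit 4274) (nat_lit 14242959524133701664)) (.cons (.rf (nat_lit 4274) (nat_lit 13126064551017678880)) (.cons (.rf (nat_lit 3421) (nat_lit 250286879745)) .nil))))))),
 (.br (nat_lit 1) (nat_lit 0) (.cons (.rf (nat_lit 3421) (nat_lit 250286868481)) (.cons (.rf (nat_lit 4266) (nat_lit 14242959524133701664)) (.cons (.rf (nat_lit 4275) (nat_lit 14242959524133701664)) (.cons (.rf (nat_lit 4266) (nat_lit 14090929087143282720)) (.cons (.rf (nat_lit 4275) (nat_lit 14090929087143282720)) (.cons (.br (nat_lit 1) (nat_lit 0) (.cons (.rf (nat_lit 3421) (nat_lit 250286868481)) (.cons (.rf (nat_lit 4266) (nat_lit 14242959524133701664)) (.cons (.rf (nat_lit 4275) (nat_lit 14242959524133701664)) (.cons (.rf (nat_lit 4266) (nat_lit 14090929087143282720)) (.cons (.rf (nat_lit 4275) (nat_lit 8262003469130500128))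 (.cons (.rf (nat_lit 3421) (nat_lit 250286879745)) .nil))))))) (.cons (.rf (nat_lit 3421) (nat_lit 250286879745)) .nil)))))))),
 (.br (nat_lit 11) (nat_lit 1) (.cons (.rf (nat_lit 1) (nat_lit 11806917)) (.cons (.br (nat_lit 8) (nat_lit 0) (.cons (.br (nat_lit 12) (nat_lit 1) (.cons (.br (nat_lit 0) (nat_lit 0) (.cons (.rf (nat_lit 3421) (nat_lit 250286868512)) (.cons (.rf (nat_lit 3421) (nat_lit 181567457312)) (.cons (.br (nat_lit 1) (nat_lit 0) (.cons (.rf (nat_lit 4246) (nat_lit 14242959524133701664)) (.cons (.rf (nat_lit 4266) (nat_lit 14242959524133701664)) (.cons (.rf (nat_lit 4276) (nat_lit 14242959524133701664)) (.cons (.rf (nat_lit 4276) (nat_lit 13126064551017678880)) (.cons (.rf (nat_lit 4266) (nat_lit 14090929087143282720)) (.cons (.rf (nat_lit 4276) (nat_lit 8262003469130500128)) (.cons (.rf (nat_lit 4276) (nat_lit 6028215822752778272)) (.cons (.rf (nat_lit 4246) (nat_lit 14242959524133712928)) .nil))))))))) (.cons (.rf (nat_lit 3421) (nat_lit 180730824736)) (.cons (.rf (nat_lit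 3421) (nat_lit 247304947744)) (.cons (.rf (nat_lit 1943) (nat_lit 428064)) .nil))))))) .nil)) .nil)) .nil))),
 (.br (nat_lit 6) (nat_lit 0) (.cons (.br (nat_lit 6) (nat_lit 0) (.cons (.br (nat_lit 10) (nat_lit 1) (.cons (.rf (nat_lit 4277) (nat_lit 407901468851537952)) (.cons (.br (nat_lit 11) (nat_lit 1) (.cons (.rf (nat_lit 4277) (nat_lit 372998571739416608)) (.cons (.rf (nat_lit 0) (nat_lit 243885451461)) .nil))) .nil))) .nil)) .nil)),
 (.br (nat_lit 5) (nat_lit 0) (.cons (.br (nat_lit 11) (nat_lit 0) (.cons (.ev (nat_lit 313111805943389486122664450) (nat_lit 2)) (.cons (.rf (nat_lit 2047) (nat_lit 468782970669088)) .nil))) (.cons (.rf (nat_lit 2048) (nat_lit 468816256665632)) .nil))),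
 (.br (nat_lit 2) (nat_lit 0) (.cons (.rf (nat_lit 4245) (nat_lit 323505631691778)) (.cons (.br (nat_lit 1) (nat_lit 0) (.cons (.rf (nat_lit 4245) (nat_lit 323505631692801)) (.cons (.br (nat_lit 11) (nat_lit 0) (.cons (.rf (nat_lit 4279) (nat_lit 14242959524133701664)) (.cons (.rf (nat_lit 4279) (nat_lit 6172399044183296032)) (.cons (.rf (nat_lit 2050) (nat_lit 479822763145660448)) .nil)))) (.cons (.kr (nat_lit 4722366764344621924356) (nat_lit 18446744078004650496) (nat_lit 0) (nat_lit 3)) (.cons (.rf (nat_lit 4245) (nat_lit 221246759766017)) (.cons (.rf (nat_lit 1943) (nat_lit 428033)) .nil)))))) (.cons (.kr (nat_lit 4722366764344621924354) (nat_lit 18446744078004649984) (nat_lit 0) (nat_lit 1)) (.cons (.rf (nat_lit 4245) (nat_lit 221246759764994)) (.cons (.rf (nat_lit 1943) (nat_lit 427010)) .nil)))))),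
 (.br (nat_lit 2) (nat_lit 0) (.cons (.rf (nat_lit 4245) (nat_lit 323505631691778)) (.cons (.rf (nat_lit 4280) (nat_lit 14242959386694878272)) (.cons (.rf (nat_lit 4280) (nat_lit 14242959524133701664)) (.cons (.rf (nat_lit 4280) (nat_lit 14208056627021580320)) (.cons (.rf (nat_lit 4245) (nat_lit 221246759764994)) (.cons (.rf (nat_lit 1943) (nat_lit 427010)) .nil))))))),
 (.br (nat_lit 1) (nat_lit 0) (.cons (.rf (nat_lit 4245) (nat_lit 323505631692801)) (.cons (.kr (nat_lit 1) (nat_lit 256) (nat_lit 0) (nat_lit 2)) (.cons (.rf (nat_lit 4281) (nat_lit 14242959524133701664)) (.cons (.rf (nat_lit 4281) (nat_lit 14208056627021580320)) (.cons (.rf (nat_lit 4245) (nat_lit 221246759766017)) (.cons (.rf (nat_lit 1943) (nat_lit 428033)) .nil))))))),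
 (.br (nat_lit 1) (nat_lit 0) (.cons (.kr (nat_lit 72057594037928192) (nat_lit 16842752) (nat_lit 1) (nat_lit 0)) (.cons (.br (nat_lit 10) (nat_lit 0) (.cons (.rf (nat_lit 2164) (nat_lit 11419419510816)) (.cons (.br (nat_lit 11) (nat_lit 0) (.cons (.ev (nat_lit 159699105586126476774635471876) (nat_lit 3)) (.cons (.rf (nat_lit 2163) (nat_lit 15070293092567072)) .nil))) (.cons (.rf (nat_lit 2163) (nat_lit 15071358240392256)) .nil)))) (.cons (.ev (nat_lit 18518802767259107584) (nat_lit 1)) (.cons (.rf (nat_lit 4245) (nat_lit 323505631704065)) .nil))))),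
 (.br (nat_lit 11) (nat_lit 0) (.cons (.rf (nat_lit 3549) (nat_lit 14205875128239326272)) (.cons (.rf (nat_lit 3551) (nat_lit 14205875128239326272)) .nil))),
 (.br (nat_lit 1) (nat_lit 0) (.cons (.kr (nat_lit 72057594037928192) (nat_lit 16842752) (nat_lit 1) (nat_lit 0)) (.cons (.rf (nat_lit 3547) (nat_lit 444001767345325120)) (.cons (.kr (nat_lit 144396667347534336) (nat_lit 4740813226943388450816) (nat_lit 1) (nat_lit 0)) (.cons (.br (nat_lit 13) (nat_lit 0) (.cons (.rf (nat_lit 4284) (nat_lit 15433072044983552032)) (.cons (.br (nat_lit 13) (nat_lit 0) (.cons (.rf (nat_lit 4284) (nat_lit 15433072044983552032)) (.cons (.rf (nat_lit 3551) (nat_lit 15395987614729471040)) .nil))) (.cons (.rf (nat_lit 3551) (nat_lit 15395987614729471040)) .nil)))) .nil))))),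
 (.br (nat_lit 1) (nat_lit 0) (.cons (.rf (nat_lit 4283) (nat_lit 14242959524133701664)) (.cons (.rf (nat_lit 3547) (nat_lit 444001767345325120)) (.cons (.br (nat_lit 5) (nat_lit 0) (.cons (.br (nat_lit 11) (nat_lit 0) (.cons (.ev (nat_lit 313111805943389486122664450) (nat_lit 2)) (.cons (.rf (nat_lit 2242) (nat_lit 468810011477056)) .nil))) (.cons (.br (nat_lit 10) (nat_lit 0) (.cons (.ev (nat_lit 313111805799274298013122562) (nat_lit 2)) (.cons (.rf (nat_lit 2173) (nat_lit 469909489550400)) .nil))) (.cons (.br (nat_lit 10) (nat_lit 0) (.cons (.ev (nat_lit 796000285704883093991604748804) (nat_lit 4)) (.cons (.rf (nat_lit 2173) (nat_lit 470974641439808)) .nil))) (.cons (.br (nat_lit 10) (nat_lit 0) (.cons (.rf (nat_lit 2173) (nat_lit 469914690487360)) (.cons (.rf (nat_lit 2173) (nat_lit 470979842376768)) (.cons (.br (nat_lit 11) (nat_lit 0) (.cons (.zr (nat_lit 621387871498092182224634880) (nat_lit 158456339214075151543733059589) (nat_lit 5) (nat_lit 0)) (.cons (.br (nat_lit 12) (nat_lit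 0) (.cons (.ev (nat_lit 243389546308097387581319638942732) (nat_lit 4)) .nil)) .nil))) .nil)))) .nil))))) (.cons (.br (nat_lit 5) (nat_lit 0) (.cons (.rf (nat_lit 2175) (nat_lit 15071358240392256)) (.cons (.rf (nat_lit 2198) (nat_lit 15035139955590208)) (.cons (.br (nat_lit 10) (nat_lit 0) (.cons (.rf (nat_lit 2198) (nat_lit 15029647766160448)) (.cons (.rf (nat_lit 2187) (nat_lit 14716876588096)) (.cons (.br (nat_lit 12) (nat_lit 0) (.cons (.ev (nat_lit 79228162532783420740563173376) (nat_lit 1)) (.cons (.zr (nat_lit 79228162514264620172327321600) (nat_lit 1213666704899166567399424) (nat_lit 5) (nat_lit 5)) .nil))) .nil)))) (.cons (.br (nat_lit 10) (nat_lit 0) (.cons (.rf (nat_lit 2198) (nat_lit 15029647766160448)) (.cons (.br (nat_lit 12) (nat_lit 0) (.cons (.rf (nat_lit 2196) (nat_lit 469676487574592)) (.cons (.ev (nat_lit 79228162532711363146541957376) (nat_lit 1)) .nil))) (.cons (.br (nat_lit 11) (nat_lit 0) (.cons (.br (nat_lit 12) (nat_lit 0) (.cons (.ev (nat_lit 79538856449905297295755247616)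 (nat_lit 1)) .nil)) (.cons (.ev (nat_lit 40565438182174622193450158784512) (nat_lit 3)) .nil))) .nil)))) .nil))))) .nil))))),
 (.br (nat_lit 1) (nat_lit 0) (.cons (.rf (nat_lit 4283) (nat_lit 14242959524133701664)) (.cons (.rf (nat_lit 4285) (nat_lit 14242959524133701664)) (.cons (.rf (nat_lit 4286) (nat_lit 14242959524133701664)) (.cons (.br (nat_lit 1) (nat_lit 0) (.cons (.ev (nat_lit 18518802767259107584) (nat_lit 1)) (.cons (.kr (nat_lit 144396667347534336) (nat_lit 4740813226943388450816) (nat_lit 1) (nat_lit 0)) (.cons (.rf (nat_lit 4286) (nat_lit 14242959524133701664)) (.cons (.rf (nat_lit 4245) (nat_lit 221246759777281)) .nil))))) (.cons (.br (nat_lit 1) (nat_lit 0) (.cons (.rf (nat_lit 4245) (nat_lit 323505631704065)) (.cons (.rf (nat_lit 4285) (nat_lit 14242959524133701664)) (.cons (.rf (nat_lit 4286) (nat_lit 14242959524133701664)) (.cons (.rf (nat_lit 4245) (nat_lit 221246759777281)) .nil))))) .nil))))))]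

theorem c158 : chkAll C T R L158 (nat_lit 4262) = true := by decide +kernel

theorem l158 : (nat_lit 4262) + L158.length = (nat_lit 4288) := by decide +kernel

/-- part of the certificates -/
def L159 : List Prf := [(.br (nat_lit 11) (nat_lit 0) (.cons (.ev (nat_lit 159082553380797745133808256000) (nat_lit 3)) (.cons (.rf (nat_lit 2173) (nat_lit 463317826111520)) .nil))),
 (.br (nat_lit 10) (nat_lit 0) (.cons (.rf (nat_lit 2196) (nat_lit 468816252601408)) (.cons (.rf (nat_lit 2198) (nat_lit 14994431114708032)) (.cons (.br (nat_lit 12) (nat_lit 0) (.cons (.ev (nat_lit 79228162532855200166749274112) (nat_lit 2)) (.cons (.rf (nat_lit 3634) (nat_lit 2746467076945327105)) .nil))) .nil)))),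
 (.br (nat_lit 1) (nat_lit 0) (.cons (.ev (nat_lit 18446745173238022144) (nat_lit 1)) (.cons (.br (nat_lit 5) (nat_lit 0) (.cons (.rf (nat_lit 4288) (nat_lit 14242959524133701664)) (.cons (.rf (nat_lit 4288) (nat_lit 14208056627021580320)) (.cons (.ev (nat_lit 158456329806525597597395320832) (nat_lit 3)) (.cons (.br (nat_lit 12) (nat_lit 0) (.cons (.rf (nat_lit 2173) (nat_lit 468782966604864)) (.cons (.rf (nat_lit 2173) (nat_lit 469848118494272)) (.cons (.ev (nat_lit 79228162532855200166749274112) (nat_lit 2)) .nil)))) .nil))))) (.cons (.ev (nat_lit 79228162514264337597855760384) (nat_lit 1)) (.cons (.br (nat_lit 5) (nat_lit 0) (.cons (.rf (nat_lit 2198) (nat_lit 15002120179909696)) (.cons (.rf (nat_lit 4289) (nat_lit 493858305440582043680)) (.cons (.ev (nat_lit 158456329806525597597395320832) (nat_lit 3)) (.cons (.br (nat_lit 12) (nat_lit 0) (.cons (.rf (nat_lit 2198) (nat_lit 14994431114708032)) (.cons (.rf (nat_lit 4289) (nat_lit 485787744960631638048)) (.cons (.ev (nat_lit 79228162532855200166749274112)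 (nat_lit 2)) .nil)))) .nil))))) .nil))))),
 (.br (nat_lit 2) (nat_lit 0) (.cons (.rf (nat_lit 4245) (nat_lit 323505631691778)) (.cons (.rf (nat_lit 4287) (nat_lit 14242959524133701664)) (.cons (.rf (nat_lit 4287) (nat_lit 14208056627021580320)) (.cons (.br (nat_lit 1) (nat_lit 0) (.cons (.ev (nat_lit 18446745173238022144) (nat_lit 1)) (.cons (.rf (nat_lit 4290) (nat_lit 14242959524133701664)) (.cons (.rf (nat_lit 4290) (nat_lit 14208056627021580320)) (.cons (.ev (nat_lit 79228162514264337597855760384) (nat_lit 1)) (.cons (.br (nat_lit 1) (nat_lit 0) (.cons (.ev (nat_lit 18446745173238022144) (nat_lit 1)) (.cons (.rf (nat_lit 4290) (nat_lit 14242959524133701664)) (.cons (.rf (nat_lit 4290) (nat_lit 14208056627021580320)) (.cons (.ev (nat_lit 79228162514264337597855760384) (nat_lit 1)) .nil))))) .nil)))))) (.cons (.rf (nat_lit 4245) (nat_lit 323505631704066)) .nil)))))),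
 (.br (nat_lit 12) (nat_lit 0) (.cons (.ev (nat_lit 79849550441103228254009098498) (nat_lit 2)) (.cons (.rf (nat_lit 3142) (nat_lit 463318768781344)) .nil))),
 (.br (nat_lit 7) (nat_lit 0) (.cons (.ev (nat_lit 310698676454187745077624833) (nat_lit 1)) (.cons (.br (nat_lit 11) (nat_lit 0) (.cons (.ev (nat_lit 79849550422656765655276192003) (nat_lit 2)) (.cons (.rf (nat_lit 2317) (nat_lit 470940319320096)) .nil))) (.cons (.rf (nat_lit 2671) (nat_lit 15070293088503840)) .nil)))),
 (.br (nat_lit 8) (nat_lit 0) (.cons (.rf (nat_lit 2334) (nat_lit 325702542002208)) (.cons (.br (nat_lit 8) (nat_lit 0) (.cons (.rf (nat_lit 2334) (nat_lit 325702542002208)) .nil)) .nil))),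
 (.br (nat_lit 1) (nat_lit 0) (.cons (.rf (nat_lit 2336) (nat_lit 470979846440992)) (.cons (.rf (nat_lit 4245) (nat_lit 221246759777281)) .nil))),
 (.br (nat_lit 7) (nat_lit 0) (.cons (.br (nat_lit 11) (nat_lit 0) (.cons (.ev (nat_lit 313111787496926887389757441) (nat_lit 2)) (.cons (.ev (nat_lit 313111842837440583495057410) (nat_lit 2)) (.cons (.rf (nat_lit 4294) (nat_lit 470979911452704)) .nil)))) (.cons (.ev (nat_lit 310693935713299866425819136) (nat_lit 1)) (.cons (.br (nat_lit 11) (nat_lit 0) (.cons (.ev (nat_lit 313111805943389486122663936) (nat_lit 2)) (.cons (.ev (nat_lit 313111787496926887389757441) (nat_lit 2)) (.cons (.rf (nat_lit 2688) (nat_lit 468816252602400)) .nil)))) (.cons (.br (nat_lit 13) (nat_lit 0) (.cons (.rf (nat_lit 4295) (nat_lit 493858305440582043680)) (.cons (.ev (nat_lit 313111787496926887389757441) (nat_lit 2)) (.cons (.br (nat_lit 13) (nat_lit 0) (.cons (.rf (nat_lit 4295) (nat_lit 493858305440582043680)) (.cons (.ev (nat_lit 313111787496926887389757441) (nat_lit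 2)) .nil))) .nil)))) .nil))))),
 (.br (nat_lit 1) (nat_lit 0) (.cons (.br (nat_lit 12) (nat_lit 0) (.cons (.ev (nat_lit 79849550422656765655276192003) (nat_lit 2)) (.cons (.rf (nat_lit 3142) (nat_lit 468816321677344)) .nil))) (.cons (.br (nat_lit 7) (nat_lit 0) (.cons (.ev (nat_lit 79849550404209177156636442880) (nat_lit 2)) (.cons (.rf (nat_lit 2671) (nat_lit 15071186609473568)) .nil))) (.cons (.zr (nat_lit 79228167255077565636410343680) (nat_lit 1208925819896108463161344) (nat_lit 5) (nat_lit 12)) (.cons (.br (nat_lit 7) (nat_lit 0) (.cons (.ev (nat_lit 310698658007725146344849408) (nat_lit 1)) (.cons (.rf (nat_lit 2343) (nat_lit 470974645504032)) (.cons (.br (nat_lit 11) (nat_lit 0) (.cons (.ev (nat_lit 79538856449977354889776333056) (nat_lit 1)) (.cons (.br (nat_lit 12) (nat_lit 0) (.cons (.ev (nat_lit 40882350832121143753104846881792) (nat_lit 3)) .nil)) .nil))) .nil)))) .nil))))),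
 (.br (nat_lit 1) (nat_lit 0) (.cons (.rf (nat_lit 2423) (nat_lit 323505666230304)) .nil)),
 (.br (nat_lit 9) (nat_lit 0) (.cons (.rf (nat_lit 4298) (nat_lit 325702574508064)) (.cons (.br (nat_lit 1) (nat_lit 0) (.cons (.rf (nat_lit 4298) (nat_lit 325702574508064)) .nil)) .nil))),
 (.br (nat_lit 7) (nat_lit 0) (.cons (.rf (nat_lit 2314) (nat_lit 470979846440992)) (.cons (.br (nat_lit 12) (nat_lit 0) (.cons (.ev (nat_lit 40564821629969725807373592821762) (nat_lit 3)) .nil)) .nil))),
 (.br (nat_lit 11) (nat_lit 0) (.cons (.rf (nat_lit 3164) (nat_lit 15035143145228320)) (.cons (.zr (nat_lit 1208926036068890560167939) (nat_lit 618970019642690137516802048) (nat_lit 5) (nat_lit 7)) (.cons (.br (nat_lit 12) (nat_lit 0) (.cons (.ev (nat_lit 79228167255077846011892269313) (nat_lit 1)) (.cons (.rf (nat_lit 3131) (nat_lit 470940189296672)) (.cons (.br (nat_lit 1) (nat_lit 0) (.cons (.ev (nat_lit 158456329843274407606818439682) (nat_lit 3)) (.cons (.ev (nat_lit 79228167236630820463205941504) (nat_lit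 1)) .nil))) .nil)))) (.cons (.br (nat_lit 12) (nat_lit 0) (.cons (.rf (nat_lit 4300) (nat_lit 493858305440582043680)) (.cons (.br (nat_lit 1) (nat_lit 0) (.cons (.rf (nat_lit 2314) (nat_lit 470979846440992)) (.cons (.rf (nat_lit 3877) (nat_lit 15433071940763617312)) .nil))) (.cons (.br (nat_lit 1) (nat_lit 0) (.cons (.rf (nat_lit 3142) (nat_lit 468816321677344)) (.cons (.rf (nat_lit 4300) (nat_lit 493858305440582043680)) (.cons (.ev (nat_lit 20282410817299856522545582833664) (nat_lit 1)) .nil)))) .nil)))) .nil))))),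
 (.br (nat_lit 11) (nat_lit 0) (.cons (.rf (nat_lit 4301) (nat_lit 493823402543469922336)) (.cons (.zr (nat_lit 1208926036350365536878596) (nat_lit 618970038089434211226419200) (nat_lit 5) (nat_lit 7)) (.cons (.rf (nat_lit 4299) (nat_lit 470774832007200)) (.cons (.br (nat_lit 7) (nat_lit 0) (.cons (.br (nat_lit 1) (nat_lit 0) (.cons (.rf (nat_lit 2340) (nat_lit 470979846440992)) (.cons (.br (nat_lit 12) (nat_lit 0) (.cons (.ev (nat_lit 20282410812577490039680232652801) (nat_lit 1)) .nil)) .nil))) (.cons (.rf (nat_lit 3131) (nat_lit 470974547986464)) (.cons (.br (nat_lit 13) (nat_lit 0) (.cons (.ev (nat_lit 40564821629969725807373592821762) (nat_lit 3)) (.cons (.ev (nat_lit 40564821629932832882176127533060) (nat_lit 3)) .nil))) .nil)))) .nil))))),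
 (.br (nat_lit 13) (nat_lit 0) (.cons (.ev (nat_lit 81130259807477465020942642315264) (nat_lit 4)) (.cons (.ev (nat_lit 81130259807403679170547710689284) (nat_lit 4)) .nil))),
 (.br (nat_lit 5) (nat_lit 0) (.cons (.br (nat_lit 1) (nat_lit 0) (.cons (.br (nat_lit 12) (nat_lit 0) (.cons (.rf (nat_lit 4292) (nat_lit 14242959524133701664)) (.cons (.rf (nat_lit 4292) (nat_lit 14208056627021580320)) (.cons (.rf (nat_lit 3142) (nat_lit 463318768781344)) .nil)))) (.cons (.rf (nat_lit 4293) (nat_lit 14242959524133701664)) (.cons (.rf (nat_lit 4293) (nat_lit 14208056627021580320)) (.cons (.br (nat_lit 10) (nat_lit 0) (.cons (.br (nat_lit 11) (nat_lit 0) (.cons (.ev (nat_lit 310698658007725146344849408) (nat_lit 1)) (.cons (.rf (nat_lit 2312) (nat_lit 470974645504032)) .nil))) (.cons (.kr (nat_lit 1208925819614629174706176) (nat_lit 309485009821345068724781056) (nat_lit 10) (nat_lit 0)) (.cons (.zr (nat_lit 79228167236631384512654213379) (nat_lit 1208962713102780905750528) (nat_lit 5) (nat_lit 1))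 (.cons (.rf (nat_lit 3156) (nat_lit 15395986585078040608)) .nil))))) (.cons (.rf (nat_lit 4245) (nat_lit 323505631704065)) .nil)))))) (.cons (.ev (nat_lit 72340168526331904) (nat_lit 1)) (.cons (.rf (nat_lit 4296) (nat_lit 14242959524133701664)) (.cons (.rf (nat_lit 4296) (nat_lit 14208056627021580320)) (.cons (.br (nat_lit 10) (nat_lit 0) (.cons (.rf (nat_lit 4297) (nat_lit 14242959524133701664)) (.cons (.br (nat_lit 11) (nat_lit 0) (.cons (.ev (nat_lit 310698658007725146344849408) (nat_lit 1)) (.cons (.ev (nat_lit 310698676454187745077624833) (nat_lit 1)) (.cons (.rf (nat_lit 3958) (nat_lit 469674407200800)) .nil)))) (.cons (.kr (nat_lit 1208925819614629174706176) (nat_lit 309485009821345068724781056) (nat_lit 10) (nat_lit 0)) (.cons (.br (nat_lit 11) (nat_lit 0) (.cons (.rf (nat_lit 4297) (nat_lit 14208056627021580320)) (.cons (.ev (nat_lit 310698676454187745077624833) (nat_lit 1)) (.cons (.rf (nat_lit 4299) (nat_lit 470979911452704)) .nil)))) (.cons (.br (nat_lit 11) (nat_lit 0) (.cons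 (.rf (nat_lit 4297) (nat_lit 14208056627021580320)) (.cons (.rf (nat_lit 3958) (nat_lit 468575969314848)) (.cons (.rf (nat_lit 4299) (nat_lit 470946625456160)) (.cons (.br (nat_lit 7) (nat_lit 0) (.cons (.br (nat_lit 1) (nat_lit 0) (.cons (.ev (nat_lit 160941881255335689268129563140) (nat_lit 4)) (.cons (.br (nat_lit 12) (nat_lit 0) (.cons (.ev (nat_lit 82083483309059980020772474457092) (nat_lit 4)) .nil)) .nil))) (.cons (.rf (nat_lit 3131) (nat_lit 470979911452704)) (.cons (.br (nat_lit 1) (nat_lit 0) (.cons (.br (nat_lit 1) (nat_lit 0) (.cons (.ev (nat_lit 79228162514336395191876845824) (nat_lit 1)) .nil)) (.cons (.br (nat_lit 1) (nat_lit 0) (.cons (.ev (nat_lit 79228162514336395191876845824) (nat_lit 1)) .nil)) .nil))) .nil)))) .nil))))) .nil)))))) (.cons (.br (nat_lit 10) (nat_lit 0) (.cons (.rf (nat_lit 4301) (nat_lit 493858305440582043680)) (.cons (.br (nat_lit 11) (nat_lit 0) (.cons (.zr (nat_lit 309485010037799330110242819) (nat_lit 2417851639229258416652288) (nat_lit 5) (nat_lit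 7)) (.cons (.zr (nat_lit 309485010038080805086953476) (nat_lit 2417870085973332126269440) (nat_lit 5) (nat_lit 7)) (.cons (.ev (nat_lit 310698676454187745077624833) (nat_lit 1)) .nil)))) (.cons (.kr (nat_lit 1208925819614629174706176) (nat_lit 309485009821345068724781056) (nat_lit 10) (nat_lit 0)) (.cons (.rf (nat_lit 4302) (nat_lit 493858305440582043680)) (.cons (.br (nat_lit 11) (nat_lit 0) (.cons (.rf (nat_lit 4301) (nat_lit 493823402543469922336)) (.cons (.ev (nat_lit 310698676454187745077624833) (nat_lit 1)) (.cons (.rf (nat_lit 4302) (nat_lit 493823402543469922336)) (.cons (.br (nat_lit 1) (nat_lit 0) (.cons (.rf (nat_lit 4303) (nat_lit 493858305440582043680)) (.cons (.br (nat_lit 1) (nat_lit 0) (.cons (.rf (nat_lit 4303) (nat_lit 493858305440582043680)) (.cons (.rf (nat_lit 4245) (nat_lit 221246759777281)) .nil))) (.cons (.br (nat_lit 12) (nat_lit 0) (.cons (.rf (nat_lit 4245) (nat_lit 221246759777281)) (.cons (.ev (nat_lit 81130259807366786245350245924870) (nat_lit 4)) .nil)))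 .nil)))) .nil))))) .nil)))))) .nil))))))),
 (.br (nat_lit 1) (nat_lit 0) (.cons (.br (nat_lit 11) (nat_lit 0) (.cons (.br (nat_lit 11) (nat_lit 0) (.cons (.zr (nat_lit 4740813789901965230085) (nat_lit 79230580366335913515632624128) (nat_lit 10) (nat_lit 3)) (.cons (.rf (nat_lit 3142) (nat_lit 463285482784800)) .nil))) (.cons (.br (nat_lit 11) (nat_lit 0) (.cons (.zr (nat_lit 4740813789901965230085) (nat_lit 79230580366335913515632624128) (nat_lit 10) (nat_lit 3)) (.cons (.rf (nat_lit 3142) (nat_lit 463285482784800)) .nil))) (.cons (.rf (nat_lit 3142) (nat_lit 463285482784800)) .nil)))) (.cons (.br (nat_lit 7) (nat_lit 0) (.cons (.br (nat_lit 12) (nat_lit 0) (.cons (.ev (nat_lit 79849550422584708061187997699) (nat_lit 2)) (.cons (.rf (nat_lit 2317) (nat_lit 469840841246752)) .nil))) (.cons (.rf (nat_lit 2743) (nat_lit 13549719226400)) (.cons (.rf (nat_lit 2671) (nat_lit 15035140928669728)) .nil)))) (.cons (.br (nat_lit 7) (nat_lit 0) (.cons (.br (nat_lit 11) (nat_lit 0) (.cons (.ev (nat_lit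 79228162514264622379974197761) (nat_lit 2)) (.cons (.rf (nat_lit 2367) (nat_lit 470974645504032)) .nil))) (.cons (.br (nat_lit 10) (nat_lit 0) (.cons (.ev (nat_lit 792917525123697230330429178382) (nat_lit 4)) (.cons (.rf (nat_lit 2314) (nat_lit 469909493614624)) .nil))) (.cons (.br (nat_lit 10) (nat_lit 0) (.cons (.ev (nat_lit 310698676526245339098841345) (nat_lit 1)) (.cons (.rf (nat_lit 2312) (nat_lit 469840841246752)) .nil))) (.cons (.rf (nat_lit 2430) (nat_lit 15426346369974110240)) .nil))))) (.cons (.ev (nat_lit 79228162532711084978706842112) (nat_lit 2)) (.cons (.rf (nat_lit 4245) (nat_lit 323505631704065)) .nil)))))),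
 (.br (nat_lit 11) (nat_lit 0) (.cons (.kr (nat_lit 4722366764344621924354) (nat_lit 79228162514264338693055578624) (nat_lit 0) (nat_lit 2)) (.cons (.rf (nat_lit 3142) (nat_lit 468783035680800)) .nil))),
 (.br (nat_lit 12) (nat_lit 0) (.cons (.rf (nat_lit 4294) (nat_lit 469676394121248)) (.cons (.br (nat_lit 10) (nat_lit 0) (.cons (.rf (nat_lit 4299) (nat_lit 469676394121248)) (.cons (.br (nat_lit 11) (nat_lit 0) (.cons (.ev (nat_lit 20282719088661491770119782727936) (nat_lit 1)) .nil)) .nil))) (.cons (.ev (nat_lit 79228172051376833258384785922) (nat_lit 3)) .nil)))),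
 (.br (nat_lit 13) (nat_lit 0) (.cons (.rf (nat_lit 4307) (nat_lit 493858305440582043680)) (.cons (.br (nat_lit 5) (nat_lit 0) (.cons (.rf (nat_lit 2427) (nat_lit 15179779886752565280)) (.cons (.rf (nat_lit 4294) (nat_lit 469848187570208)) (.cons (.rf (nat_lit 4304) (nat_lit 14242959524133712897)) .nil)))) (.cons (.rf (nat_lit 4307) (nat_lit 485787744960631638048)) .nil)))),
 (.br (nat_lit 1) (nat_lit 0) (.cons (.rf (nat_lit 4305) (nat_lit 14242959524133701664)) (.cons (.br (nat_lit 11) (nat_lit 0) (.cons (.rf (nat_lit 4306) (nat_lit 14242959524133701664)) (.cons (.rf (nat_lit 4306) (nat_lit 6172399044183296032)) (.cons (.rf (nat_lit 3142) (nat_lit 468783035680800)) .nil)))) (.cons (.br (nat_lit 5) (nat_lit 0) (.cons (.br (nat_lit 12) (nat_lit 0) (.cons (.ev (nat_lit 475368979826544777270929654784) (nat_lit 3)) (.cons (.rf (nat_lit 4294) (nat_lit 469914759563296)) .nil))) (.cons (.br (nat_lit 10) (nat_lit 0) (.cons (.ev (nat_lit 158456329843274407606818440192) (nat_lit 3)) (.cons (.rf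 (nat_lit 2340) (nat_lit 469909493614624)) .nil))) (.cons (.br (nat_lit 10) (nat_lit 0) (.cons (.ev (nat_lit 792917524864865789596104000004) (nat_lit 4)) (.cons (.rf (nat_lit 4294) (nat_lit 469848187570208)) .nil))) (.cons (.br (nat_lit 10) (nat_lit 0) (.cons (.rf (nat_lit 2340) (nat_lit 469914694551584)) (.cons (.rf (nat_lit 4294) (nat_lit 469676394121248)) (.cons (.br (nat_lit 11) (nat_lit 0) (.cons (.rf (nat_lit 2340) (nat_lit 469848122558496)) (.cons (.br (nat_lit 12) (nat_lit 0) (.cons (.ev (nat_lit 40644666339892732226337564131330) (nat_lit 2)) .nil)) .nil))) .nil)))) .nil))))) (.cons (.rf (nat_lit 4305) (nat_lit 6172399044183296032)) (.cons (.br (nat_lit 13) (nat_lit 0) (.cons (.rf (nat_lit 4307) (nat_lit 493858305440582043680)) (.cons (.rf (nat_lit 4308) (nat_lit 493858305440582043680)) (.cons (.br (nat_lit 13) (nat_lit 0) (.cons (.rf (nat_lit 4307) (nat_lit 493858305440582043680)) (.cons (.rf (nat_lit 4308) (nat_lit 493858305440582043680)) (.cons (.rf (nat_lit 4307) (nat_lit 485787744960631638048))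 .nil)))) (.cons (.rf (nat_lit 4307) (nat_lit 485787744960631638048)) .nil))))) .nil)))))),
 (.br (nat_lit 12) (nat_lit 0) (.cons (.ev (nat_lit 79228162532855200166749274626) (nat_lit 2)) (.cons (.rf (nat_lit 2439) (nat_lit 15179779886752565280)) .nil))),
 (.br (nat_lit 1) (nat_lit 0) (.cons (.rf (nat_lit 4305) (nat_lit 14242959524133701664)) (.cons (.rf (nat_lit 4309) (nat_lit 14242959524133701664)) (.cons (.br (nat_lit 7) (nat_lit 0) (.cons (.rf (nat_lit 3649) (nat_lit 13056258756793436192)) (.cons (.br (nat_lit 5) (nat_lit 0) (.cons (.ev (nat_lit 158456329806525597597395321860) (nat_lit 3)) (.cons (.rf (nat_lit 2314) (nat_lit 469914694551584)) .nil))) (.cons (.rf (nat_lit 3649) (nat_lit 13048275439091550240)) (.cons (.br (nat_lit 5) (nat_lit 0) (.cons (.rf (nat_lit 2341) (nat_lit 469909493614624)) (.cons (.rf (nat_lit 2313) (nat_lit 469914694551584)) (.cons (.br (nat_lit 11) (nat_lit 0) (.cons (.rf (nat_lit 2341) (nat_lit 469676491638816)) (.cons (.br (nat_lit 12) (nat_lit 0) (.cons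 (.ev (nat_lit 40564821629969725807373592821762) (nat_lit 3)) .nil)) .nil))) .nil)))) .nil))))) (.cons (.rf (nat_lit 4305) (nat_lit 6172399044183296032)) (.cons (.br (nat_lit 7) (nat_lit 0) (.cons (.rf (nat_lit 2330) (nat_lit 15034900649445408)) (.cons (.rf (nat_lit 2438) (nat_lit 15431977930049292320)) (.cons (.rf (nat_lit 2330) (nat_lit 15035140932732960)) (.cons (.br (nat_lit 5) (nat_lit 0) (.cons (.rf (nat_lit 4310) (nat_lit 493858305440582043680)) (.cons (.ev (nat_lit 158456329806525597597395321860) (nat_lit 3)) (.cons (.br (nat_lit 12) (nat_lit 0) (.cons (.rf (nat_lit 2439) (nat_lit 15431977930049292320)) (.cons (.ev (nat_lit 79228162532855200166749274626) (nat_lit 2)) .nil))) .nil)))) .nil))))) .nil))))))]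

theorem c159 : chkAll C T R L159 (nat_lit 4288) = true := by decide +kernel

theorem l159 : (nat_lit 4288) + L159.length = (nat_lit 4312) := by decide +kernel

/-- part of the certificates -/
def L160 : List Prf := [(.br (nat_lit 10) (nat_lit 0) (.cons (.ev (nat_lit 79538856449905298390955065601) (nat_lit 1)) .nil)),
 (.br (nat_lit 10) (nat_lit 0) (.cons (.br (nat_lit 12) (nat_lit 0) (.cons (.ev (nat_lit 40564821629969725807373592821762) (nat_lit 3)) .nil)) (.cons (.br (nat_lit 11) (nat_lit 0) (.cons (.ev (nat_lit 476611755606001541259993415682) (nat_lit 3)) .nil)) (.cons (.rf (nat_lit 4312) (nat_lit 15433072045018155040)) .nil)))),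
 (.br (nat_lit 13) (nat_lit 0) (.cons (.rf (nat_lit 4312) (nat_lit 15433072045018155040)) (.cons (.ev (nat_lit 310698658007725146344849665) (nat_lit 1)) (.cons (.br (nat_lit 7) (nat_lit 0) (.cons (.ev (nat_lit 121774309594869575925673320513542) (nat_lit 3)) .nil)) .nil)))),
 (.br (nat_lit 13) (nat_lit 0) (.cons (.rf (nat_lit 4313) (nat_lit 493858305440582043680)) (.cons (.rf (nat_lit 4314) (nat_lit 493858305440582043680)) (.cons (.br (nat_lit 13) (nat_lit 0) (.cons (.rf (nat_lit 4313) (nat_lit 493858305440582043680)) (.cons (.ev (nat_lit 310693954087704871137509633) (nat_lit 1)) (.cons (.ev (nat_lit 40644666354041241097163952357376) (nat_lit 2)) .nil)))) (.cons (.br (nat_lit 13) (nat_lit 0) (.cons (.rf (nat_lit 4313) (nat_lit 493858305440582043680)) (.cons (.rf (nat_lit 4314) (nat_lit 493858305440582043680)) (.cons (.ev (nat_lit 40644666354041241097163952357376) (nat_lit 2)) .nil)))) .nil))))),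
 (.br (nat_lit 13) (nat_lit 0) (.cons (.rf (nat_lit 4312) (nat_lit 15433072045018155040)) (.cons (.br (nat_lit 5) (nat_lit 0) (.cons (.ev (nat_lit 20361638975147094893173250523650) (nat_lit 2)) .nil)) (.cons (.rf (nat_lit 4312) (nat_lit 15180937398761654304)) .nil)))),
 (.br (nat_lit 13) (nat_lit 0) (.cons (.rf (nat_lit 4315) (nat_lit 493858305440582043680)) (.cons (.rf (nat_lit 4316) (nat_lit 493858305440582043680)) (.cons (.br (nat_lit 13) (nat_lit 0) (.cons (.rf (nat_lit 4315) (nat_lit 493858305440582043680)) (.cons (.rf (nat_lit 4316) (nat_lit 493858305440582043680)) (.cons (.rf (nat_lit 4315) (nat_lit 485787744960631638048)) .nil)))) (.cons (.rf (nat_lit 4315) (nat_lit 485787744960631638048)) .nil))))),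
 (.br (nat_lit 13) (nat_lit 0) (.cons (.rf (nat_lit 4314) (nat_lit 493858305440582043680)) (.cons (.rf (nat_lit 4317) (nat_lit 493858305440582043680)) (.cons (.br (nat_lit 13) (nat_lit 0) (.cons (.ev (nat_lit 310693954087704871137509633) (nat_lit 1)) (.cons (.rf (nat_lit 4317) (nat_lit 493858305440582043680)) (.cons (.ev (nat_lit 79538856449905297295755247873) (nat_lit 1)) .nil)))) (.cons (.rf (nat_lit 4314) (nat_lit 485787744960631638048)) .nil))))),
 (.br (nat_lit 1) (nat_lit 0) (.cons (.rf (nat_lit 4305) (nat_lit 14242959524133701664)) (.cons (.rf (nat_lit 4309) (nat_lit 14242959524133701664)) (.cons (.rf (nat_lit 4311) (nat_lit 14242959524133701664)) (.cons (.rf (nat_lit 4305) (nat_lit 6172399044183296032)) (.cons (.br (nat_lit 13) (nat_lit 0) (.cons (.rf (nat_lit 4315) (nat_lit 493858305440582043680)) (.cons (.rf (nat_lit 4317) (nat_lit 493858305440582043680)) (.cons (.rf (nat_lit 4318) (nat_lit 493858305440582043680)) (.cons (.br (nat_lit 13) (nat_lit 0) (.cons (.rf (nat_lit 4315)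 (nat_lit 493858305440582043680)) (.cons (.rf (nat_lit 4317) (nat_lit 493858305440582043680)) (.cons (.rf (nat_lit 4318) (nat_lit 493858305440582043680)) (.cons (.rf (nat_lit 4315) (nat_lit 485787744960631638048)) .nil))))) (.cons (.rf (nat_lit 4315) (nat_lit 485787744960631638048)) .nil)))))) .nil)))))),
 (.br (nat_lit 2) (nat_lit 0) (.cons (.rf (nat_lit 4245) (nat_lit 323505631691778)) (.cons (.rf (nat_lit 4291) (nat_lit 14242959524133701664)) (.cons (.rf (nat_lit 4304) (nat_lit 14242959524133701664)) (.cons (.br (nat_lit 1) (nat_lit 0) (.cons (.rf (nat_lit 4305) (nat_lit 14242959524133701664)) (.cons (.rf (nat_lit 4309) (nat_lit 14242959524133701664)) (.cons (.rf (nat_lit 4311) (nat_lit 14242959524133701664)) (.cons (.rf (nat_lit 4319) (nat_lit 14242959524133701664)) (.cons (.rf (nat_lit 4305) (nat_lit 6172399044183296032)) (.cons (.br (nat_lit 1) (nat_lit 0) (.cons (.rf (nat_lit 4245) (nat_lit 323505631704065)) (.cons (.rf (nat_lit 4309) (nat_lit 14242959524133701664)) (.cons (.rf (nat_lit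 4311) (nat_lit 14242959524133701664)) (.cons (.rf (nat_lit 4319) (nat_lit 14242959524133701664)) (.cons (.rf (nat_lit 4245) (nat_lit 221246759777281)) .nil)))))) .nil))))))) (.cons (.rf (nat_lit 4245) (nat_lit 323505631704066)) .nil)))))),
 (.br (nat_lit 2) (nat_lit 0) (.cons (.rf (nat_lit 4245) (nat_lit 323505631691778)) (.cons (.rf (nat_lit 4291) (nat_lit 14242959524133701664)) (.cons (.rf (nat_lit 4320) (nat_lit 14242959524133701664)) (.cons (.rf (nat_lit 4320) (nat_lit 14208056627021580320)) (.cons (.br (nat_lit 2) (nat_lit 0) (.cons (.rf (nat_lit 4245) (nat_lit 323505631691778)) (.cons (.rf (nat_lit 4291) (nat_lit 14242959524133701664)) (.cons (.rf (nat_lit 4320) (nat_lit 14242959524133701664)) (.cons (.rf (nat_lit 4320) (nat_lit 14208056627021580320)) (.cons (.rf (nat_lit 4245) (nat_lit 323505631704066)) .nil)))))) (.cons (.rf (nat_lit 4245) (nat_lit 323505631704066)) .nil))))))),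
 (.br (nat_lit 5) (nat_lit 0) (.cons (.ev (nat_lit 72340168526331904) (nat_lit 1)) (.cons (.br (nat_lit 13) (nat_lit 0) (.cons (.br (nat_lit 12) (nat_lit 0) (.cons (.ev (nat_lit 20361947251231312796394864115970) (nat_lit 2)) .nil)) (.cons (.br (nat_lit 11) (nat_lit 0) (.cons (.ev (nat_lit 20361947251231312796394864115970) (nat_lit 2)) .nil)) .nil))) .nil))),
 (.br (nat_lit 2) (nat_lit 0) (.cons (.rf (nat_lit 3547) (nat_lit 444001767345325120)) (.cons (.kr (nat_lit 72057594037928192) (nat_lit 16842752) (nat_lit 1) (nat_lit 0)) (.cons (.rf (nat_lit 3547) (nat_lit 191796759759127616)) (.cons (.br (nat_lit 13) (nat_lit 0) (.cons (.rf (nat_lit 4322) (nat_lit 493858305440582043680)) (.cons (.br (nat_lit 13) (nat_lit 0) (.cons (.rf (nat_lit 4322) (nat_lit 493858305440582043680)) (.cons (.rf (nat_lit 4322) (nat_lit 485787744960631638048)) .nil))) (.cons (.rf (nat_lit 4322) (nat_lit 485787744960631638048)) .nil)))) .nil))))),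
 (.br (nat_lit 2) (nat_lit 0) (.cons (.rf (nat_lit 4321) (nat_lit 14242959524133701664)) (.cons (.rf (nat_lit 4323) (nat_lit 14242959524133701664)) (.cons (.rf (nat_lit 4323) (nat_lit 14208056627021580320)) (.cons (.rf (nat_lit 4321) (nat_lit 6172399044183296032)) (.cons (.br (nat_lit 2) (nat_lit 0) (.cons (.rf (nat_lit 4245) (nat_lit 323505631704066)) (.cons (.rf (nat_lit 4323) (nat_lit 14242959524133701664)) (.cons (.rf (nat_lit 4323) (nat_lit 14208056627021580320)) (.cons (.rf (nat_lit 4245) (nat_lit 221246759777282)) .nil))))) .nil)))))),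
 (.br (nat_lit 13) (nat_lit 0) (.cons (.rf (nat_lit 4245) (nat_lit 286260986021933)) (.cons (.rf (nat_lit 3594) (nat_lit 14682520913952)) (.cons (.rf (nat_lit 4245) (nat_lit 149918326327341)) .nil)))),
 (.br (nat_lit 13) (nat_lit 0) (.cons (.rf (nat_lit 4245) (nat_lit 286260986021933)) (.cons (.rf (nat_lit 4325) (nat_lit 493858305440582043680)) (.cons (.rf (nat_lit 4325) (nat_lit 493823402406031098944)) (.cons (.rf (nat_lit 4245) (nat_lit 149918326327341)) .nil))))),
 (.br (nat_lit 1) (nat_lit 0) (.cons (.rf (nat_lit 4282) (nat_lit 14242959524133701664)) (.cons (.rf (nat_lit 4321) (nat_lit 14242959386694878272)) (.cons (.rf (nat_lit 4324) (nat_lit 14242959524133701664)) (.cons (.rf (nat_lit 4321) (nat_lit 6172398906744472640)) (.cons (.br (nat_lit 2) (nat_lit 0) (.cons (.rf (nat_lit 4321) (nat_lit 14242959524133701664)) (.cons (.br (nat_lit 2) (nat_lit 0) (.cons (.rf (nat_lit 4321) (nat_lit 14242959524133701664)) (.cons (.rf (nat_lit 4324) (nat_lit 14242959386694878272)) (.cons (.rf (nat_lit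 4321) (nat_lit 6172399044183296032)) (.cons (.kr (nat_lit 72057594037928192) (nat_lit 16842752) (nat_lit 1) (nat_lit 0)) .nil))))) (.cons (.br (nat_lit 2) (nat_lit 0) (.cons (.rf (nat_lit 4321) (nat_lit 14242959524133701664)) (.cons (.rf (nat_lit 4324) (nat_lit 14242959386694878272)) (.cons (.rf (nat_lit 4321) (nat_lit 6172399044183296032)) (.cons (.rf (nat_lit 4326) (nat_lit 493858305440582043680)) .nil))))) (.cons (.rf (nat_lit 4321) (nat_lit 6172399044183296032)) (.cons (.br (nat_lit 2) (nat_lit 0) (.cons (.rf (nat_lit 4245) (nat_lit 323505631704066)) (.cons (.kr (nat_lit 72057594037928192) (nat_lit 16842752) (nat_lit 1) (nat_lit 0)) (.cons (.rf (nat_lit 4326) (nat_lit 493858305440582043680)) (.cons (.rf (nat_lit 4245) (nat_lit 221246759777282)) .nil))))) .nil)))))) .nil)))))),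
 (.br (nat_lit 1) (nat_lit 0) (.cons (.rf (nat_lit 4282) (nat_lit 14242959524133701664)) (.cons (.rf (nat_lit 4321) (nat_lit 14242959386694878272)) (.cons (.rf (nat_lit 4327) (nat_lit 14242959524133701664)) (.cons (.rf (nat_lit 4327) (nat_lit 14208056627021580320)) (.cons (.rf (nat_lit 4321) (nat_lit 6172398906744472640)) (.cons (.br (nat_lit 1) (nat_lit 0) (.cons (.rf (nat_lit 1943) (nat_lit 428033)) (.cons (.rf (nat_lit 4245) (nat_lit 323505631704065)) (.cons (.rf (nat_lit 4327) (nat_lit 14242959524133701664)) (.cons (.rf (nat_lit 4327) (nat_lit 14208056627021580320)) (.cons (.rf (nat_lit 4245) (nat_lit 221246759777281)) .nil)))))) .nil))))))),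
 (.br (nat_lit 13) (nat_lit 0) (.cons (.rf (nat_lit 4245) (nat_lit 323505631692845)) (.cons (.br (nat_lit 5) (nat_lit 0) (.cons (.br (nat_lit 5) (nat_lit 0) .nil) .nil)) (.cons (.rf (nat_lit 4245) (nat_lit 221246759766061)) .nil)))),
 (.br (nat_lit 13) (nat_lit 0) (.cons (.rf (nat_lit 4329) (nat_lit 50984417200202678690)) (.cons (.rf (nat_lit 4245) (nat_lit 323505631692845)) (.cons (.rf (nat_lit 4329) (nat_lit 50844805611754193314)) (.cons (.rf (nat_lit 4245) (nat_lit 221246759766061)) .nil))))),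
 (.br (nat_lit 13) (nat_lit 0) (.cons (.rf (nat_lit 4245) (nat_lit 323505631692845)) (.cons (.rf (nat_lit 4330) (nat_lit 50844805646113898914)) (.cons (.rf (nat_lit 4330) (nat_lit 493858305440582043680)) (.cons (.rf (nat_lit 4245) (nat_lit 221246759766061)) .nil))))),
 (.br (nat_lit 11) (nat_lit 0) (.cons (.ev (nat_lit 79538856449977354889776333056) (nat_lit 1)) .nil)),
 (.br (nat_lit 13) (nat_lit 0) (.cons (.rf (nat_lit 4245) (nat_lit 323505631692845)) (.cons (.br (nat_lit 12) (nat_lit 0) (.cons (.br (nat_lit 5) (nat_lit 0) (.cons (.ev (nat_lit 81133978463224525539513022548996) (nat_lit 4)) .nil)) (.cons (.br (nat_lit 1) (nat_lit 0) (.cons (.ev (nat_lit 81133978463224525539513022548996) (nat_lit 4)) .nil)) .nil))) (.cons (.br (nat_lit 1) (nat_lit 0) (.cons (.rf (nat_lit 4332) (nat_lit 493858305440582043680)) (.cons (.br (nat_lit 5) (nat_lit 0) (.cons (.ev (nat_lit 475368979937369919851182949380) (nat_lit 3)) .nil)) (.cons (.rf (nat_lit 4332) (nat_lit 485787744960631638048)) .nil)))) .nil)))),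
 (.br (nat_lit 13) (nat_lit 0) (.cons (.rf (nat_lit 4245) (nat_lit 323505631692845)) (.cons (.rf (nat_lit 4333) (nat_lit 493858305440582043680)) (.cons (.br (nat_lit 5) (nat_lit 0) (.cons (.ev (nat_lit 20282410817299856522545582833664) (nat_lit 1)) (.cons (.rf (nat_lit 2619) (nat_lit 15398167977630205984)) (.cons (.ev (nat_lit 81606245334509261789261276905472) (nat_lit 3)) .nil)))) .nil)))),
 (.br (nat_lit 13) (nat_lit 0) (.cons (.rf (nat_lit 4245) (nat_lit 323505631692845)) (.cons (.rf (nat_lit 4333) (nat_lit 493858305440582043680)) (.cons (.rf (nat_lit 4334) (nat_lit 493858305440582043680)) (.cons (.br (nat_lit 13) (nat_lit 0) (.cons (.rf (nat_lit 4245) (nat_lit 323505631692845)) (.cons (.rf (nat_lit 4333) (nat_lit 493858305440582043680)) (.cons (.rf (nat_lit 4334) (nat_lit 493858305440582043680)) .nil)))) .nil))))),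
 (.br (nat_lit 13) (nat_lit 0) (.cons (.rf (nat_lit 4330) (nat_lit 50844805646113898914)) (.cons (.rf (nat_lit 4335) (nat_lit 493858305440582043680)) (.cons (.br (nat_lit 1) (nat_lit 0) (.cons (.rf (nat_lit 4335) (nat_lit 50844805611754193314)) (.cons (.rf (nat_lit 4335) (nat_lit 42774211048016019874)) (.cons (.rf (nat_lit 4330) (nat_lit 493858305440582043680)) .nil)))) (.cons (.rf (nat_lit 4335) (nat_lit 485787744960631638048)) .nil))))),
 (.br (nat_lit 13) (nat_lit 0) (.cons (.rf (nat_lit 4331) (nat_lit 493858305440582043680)) (.cons (.rf (nat_lit 4335) (nat_lit 493858305440582043680)) (.cons (.rf (nat_lit 4336) (nat_lit 493858305440582043680)) (.cons (.br (nat_lit 13) (nat_lit 0) (.cons (.rf (nat_lit 4330) (nat_lit 493858305440582043680)) (.cons (.rf (nat_lit 4335) (nat_lit 493858305440582043680)) (.cons (.rf (nat_lit 4336) (nat_lit 493858305440582043680)) (.cons (.rf (nat_lit 4335) (nat_lit 485787744960631638048)) .nil))))) (.cons (.rf (nat_lit 4335) (nat_lit 485787744960631638048))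 .nil)))))),
 (.br (nat_lit 8) (nat_lit 0) (.cons (.br (nat_lit 8) (nat_lit 0) .nil) .nil)),
 (.br (nat_lit 1) (nat_lit 0) (.cons (.br (nat_lit 13) (nat_lit 0) (.cons (.rf (nat_lit 4338) (nat_lit 470979911452704)) (.cons (.br (nat_lit 13) (nat_lit 0) (.cons (.rf (nat_lit 4338) (nat_lit 470979911452704)) .nil)) .nil))) (.cons (.rf (nat_lit 4337) (nat_lit 493823402543469922336)) (.cons (.br (nat_lit 7) (nat_lit 0) (.cons (.rf (nat_lit 2770) (nat_lit 470974641440800)) (.cons (.rf (nat_lit 3978) (nat_lit 14650304596000)) (.cons (.br (nat_lit 13) (nat_lit 0) (.cons (.rf (nat_lit 2619) (nat_lit 1274775023842066850)) (.cons (.ev (nat_lit 79228167255149903605913354496) (nat_lit 1)) .nil))) .nil)))) (.cons (.rf (nat_lit 4245) (nat_lit 323505631704065)) .nil))))),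
 (.br (nat_lit 1) (nat_lit 0) (.cons (.rf (nat_lit 4339) (nat_lit 493858305440582043680)) (.cons (.rf (nat_lit 4337) (nat_lit 493823402543469922336)) (.cons (.br (nat_lit 11) (nat_lit 0) (.cons (.br (nat_lit 13) (nat_lit 0) (.cons (.br (nat_lit 13) (nat_lit 0) .nil) .nil)) (.cons (.rf (nat_lit 4339) (nat_lit 485752842063519516704)) (.cons (.br (nat_lit 13) (nat_lit 0) (.cons (.br (nat_lit 12) (nat_lit 0) (.cons (.ev (nat_lit 20361947251175828445678551498753) (nat_lit 1)) .nil)) (.cons (.br (nat_lit 5) (nat_lit 0) (.cons (.ev (nat_lit 20361947251175828445678551498753) (nat_lit 1)) .nil)) .nil))) .nil)))) (.cons (.br (nat_lit 13) (nat_lit 0) (.cons (.rf (nat_lit 4245) (nat_lit 323505631692845)) (.cons (.br (nat_lit 13) (nat_lit 0) (.cons (.rf (nat_lit 4245) (nat_lit 323505631692845)) (.cons (.rf (nat_lit 4245) (nat_lit 221246759766061)) .nil))) (.cons (.rf (nat_lit 4245) (nat_lit 221246759766061)) .nil)))) .nil)))))]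

theorem c160 : chkAll C T R L160 (nat_lit 4312) = true := by decide +kernel

theorem l160 : (nat_lit 4312) + L160.length = (nat_lit 4341) := by decide +kernel

/-- part of the certificates -/
def L161 : List Prf := [(.br (nat_lit 1) (nat_lit 0) (.cons (.rf (nat_lit 4339) (nat_lit 493858305440582043680)) (.cons (.rf (nat_lit 4340) (nat_lit 493858305440582043680)) (.cons (.rf (nat_lit 4337) (nat_lit 493823402543469922336)) (.cons (.br (nat_lit 1) (nat_lit 0) (.cons (.rf (nat_lit 4339) (nat_lit 493858305440582043680)) (.cons (.rf (nat_lit 4340) (nat_lit 493858305440582043680)) (.cons (.rf (nat_lit 4337) (nat_lit 493823402543469922336)) (.cons (.rf (nat_lit 4245) (nat_lit 221246759777281)) .nil))))) (.cons (.br (nat_lit 1) (nat_lit 0) (.cons (.rf (nat_lit 4245) (nat_lit 323505631704065)) (.cons (.rf (nat_lit 4340) (nat_lit 493858305440582043680)) (.cons (.rf (nat_lit 4337) (nat_lit 493823402543469922336)) (.cons (.rf (nat_lit 4245) (nat_lit 221246759777281)) .nil))))) .nil)))))),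
 (.br (nat_lit 1) (nat_lit 0) (.cons (.br (nat_lit 5) (nat_lit 0) (.cons (.ev (nat_lit 158456329806237367221310456832) (nat_lit 3)) (.cons (.br (nat_lit 12) (nat_lit 0) (.cons (.ev (nat_lit 79228162532711084978706842112) (nat_lit 2)) .nil)) .nil))) (.cons (.rf (nat_lit 4245) (nat_lit 323505631704065)) .nil))),
 (.br (nat_lit 11) (nat_lit 0) (.cons (.rf (nat_lit 4337) (nat_lit 493823402543469922336)) (.cons (.rf (nat_lit 4341) (nat_lit 493823402543469922336)) (.cons (.rf (nat_lit 4341) (nat_lit 485752842063519516704)) (.cons (.br (nat_lit 1) (nat_lit 0) (.cons (.rf (nat_lit 4342) (nat_lit 493858305440582043680)) (.cons (.rf (nat_lit 4342) (nat_lit 485787744960631638048)) (.cons (.br (nat_lit 13) (nat_lit 0) (.cons (.rf (nat_lit 4245) (nat_lit 323505631692845)) (.cons (.rf (nat_lit 4245) (nat_lit 221246759766061)) .nil))) .nil)))) .nil))))),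
 (.br (nat_lit 12) (nat_lit 0) (.cons (.br (nat_lit 12) (nat_lit 0) (.cons (.ev (nat_lit 81130259807256102966158221118464) (nat_lit 4)) .nil)) (.cons (.br (nat_lit 5) (nat_lit 0) (.cons (.ev (nat_lit 81130259807256102966158221118464) (nat_lit 4)) .nil)) .nil))),
 (.br (nat_lit 2) (nat_lit 0) (.cons (.kr (nat_lit 4722366764344621924354) (nat_lit 18446744078004649984) (nat_lit 0) (nat_lit 1)) (.cons (.rf (nat_lit 4321) (nat_lit 14242959524133701664)) (.cons (.rf (nat_lit 4328) (nat_lit 14242959524133701664)) (.cons (.rf (nat_lit 4321) (nat_lit 6172399044183296032)) (.cons (.br (nat_lit 10) (nat_lit 0) (.cons (.rf (nat_lit 4337) (nat_lit 493858305440582043680)) (.cons (.rf (nat_lit 4341) (nat_lit 493858305440582043680)) (.cons (.rf (nat_lit 4343) (nat_lit 493858305440582043680)) (.cons (.kr (nat_lit 1208925819614629174706176) (nat_lit 309485009821345068724781056) (nat_lit 10) (nat_lit 0)) (.cons (.rf (nat_lit 4341) (nat_lit 485787744960631638048)) (.cons (.br (nat_lit 7) (nat_lit 0) (.cons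 (.br (nat_lit 11) (nat_lit 0) (.cons (.rf (nat_lit 4337) (nat_lit 493823402543469922336)) (.cons (.rf (nat_lit 4341) (nat_lit 493823402543469922336)) (.cons (.rf (nat_lit 4341) (nat_lit 485752842063519516704)) (.cons (.br (nat_lit 5) (nat_lit 0) (.cons (.rf (nat_lit 4344) (nat_lit 493858305440582043680)) (.cons (.br (nat_lit 1) (nat_lit 0) (.cons (.rf (nat_lit 4344) (nat_lit 493858305440582043680)) (.cons (.rf (nat_lit 4344) (nat_lit 485787744960631638048)) (.cons (.rf (nat_lit 3705) (nat_lit 470774929524768)) .nil)))) (.cons (.rf (nat_lit 4344) (nat_lit 50984417234562384290)) .nil)))) .nil))))) (.cons (.rf (nat_lit 4341) (nat_lit 50844805646113898914)) (.cons (.rf (nat_lit 4343) (nat_lit 493823402543469922336)) (.cons (.rf (nat_lit 4341) (nat_lit 42774211082375725474)) (.cons (.rf (nat_lit 4337) (nat_lit 50844805646113898914)) .nil)))))) .nil))))))) .nil)))))),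
 (.br (nat_lit 2) (nat_lit 0) (.cons (.rf (nat_lit 4282) (nat_lit 14242959524133701664)) (.cons (.rf (nat_lit 4321) (nat_lit 14242959524133701664)) (.cons (.rf (nat_lit 4328) (nat_lit 14242959524133701664)) (.cons (.rf (nat_lit 4345) (nat_lit 14242959524133701664)) (.cons (.rf (nat_lit 4321) (nat_lit 6172399044183296032)) (.cons (.br (nat_lit 2) (nat_lit 0) (.cons (.rf (nat_lit 1943) (nat_lit 427010)) (.cons (.rf (nat_lit 4245) (nat_lit 323505631704066)) (.cons (.rf (nat_lit 4328) (nat_lit 14242959524133701664)) (.cons (.rf (nat_lit 4345) (nat_lit 14242959524133701664)) (.cons (.rf (nat_lit 4245) (nat_lit 221246759777282)) .nil)))))) .nil))))))),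
 (.br (nat_lit 2) (nat_lit 0) (.cons (.rf (nat_lit 4282) (nat_lit 14242959524133701664)) (.cons (.rf (nat_lit 4321) (nat_lit 14242959524133701664)) (.cons (.rf (nat_lit 4328) (nat_lit 14242959524133701664)) (.cons (.rf (nat_lit 4346) (nat_lit 14242959524133701664)) (.cons (.rf (nat_lit 4346) (nat_lit 14208056627021580320)) (.cons (.rf (nat_lit 4321) (nat_lit 6172399044183296032)) (.cons (.br (nat_lit 2) (nat_lit 0) (.cons (.rf (nat_lit 1943) (nat_lit 427010)) (.cons (.rf (nat_lit 4245) (nat_lit 323505631704066)) (.cons (.rf (nat_lit 4328) (nat_lit 14242959524133701664)) (.cons (.rf (nat_lit 4346) (nat_lit 14242959524133701664)) (.cons (.rf (nat_lit 4346) (nat_lit 14208056627021580320)) (.cons (.rf (nat_lit 4245) (nat_lit 221246759777282)) .nil))))))) .nil)))))))),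
 (.br (nat_lit 1) (nat_lit 0) (.cons (.kr (nat_lit 4722366764344621924354) (nat_lit 18446744078004519424) (nat_lit 0) (nat_lit 2)) (.cons (.rf (nat_lit 4245) (nat_lit 221246759766017)) (.cons (.rf (nat_lit 1943) (nat_lit 428033)) .nil)))),
 (.br (nat_lit 1) (nat_lit 0) (.cons (.rf (nat_lit 4348) (nat_lit 14242959524133701664)) (.cons (.rf (nat_lit 4348) (nat_lit 14208056627021580320)) (.cons (.rf (nat_lit 4245) (nat_lit 221246759766017)) (.cons (.rf (nat_lit 1943) (nat_lit 428033)) .nil))))),
 (.br (nat_lit 2) (nat_lit 0) (.cons (.rf (nat_lit 1943) (nat_lit 427010)) (.cons (.rf (nat_lit 4245) (nat_lit 149918326338562)) .nil))),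
 (.br (nat_lit 13) (nat_lit 0) (.cons (.rf (nat_lit 4350) (nat_lit 493858305440582043680)) (.cons (.br (nat_lit 2) (nat_lit 0) (.cons (.rf (nat_lit 4350) (nat_lit 493858305440582043680)) .nil)) .nil))),
 (.br (nat_lit 2) (nat_lit 0) (.cons (.ev (nat_lit 158769436816025036934090851075) (nat_lit 2)) (.cons (.br (nat_lit 2) (nat_lit 0) (.cons (.ev (nat_lit 158769436816025036934090851075) (nat_lit 2)) .nil)) .nil))),
 (.br (nat_lit 12) (nat_lit 0) (.cons (.kr (nat_lit 18446745173221179394) (nat_lit 72057594054705664) (nat_lit 0) (nat_lit 2)) (.cons (.rf (nat_lit 4347) (nat_lit 12900816566258794881)) (.cons (.rf (nat_lit 4347) (nat_lit 12900816531899089281)) (.cons (.br (nat_lit 12) (nat_lit 0) (.cons (.kr (nat_lit 18446745173221179394) (nat_lit 72057594054705664) (nat_lit 0) (nat_lit 2)) (.cons (.rf (nat_lit 4347) (nat_lit 12900816566258794881)) (.cons (.rf (nat_lit 4347) (nat_lit 12900816531899089281)) (.cons (.rf (nat_lit 4245) (nat_lit 184927407944748)) .nil))))) (.cons (.br (nat_lit 12)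 (nat_lit 0) (.cons (.kr (nat_lit 18446745173221179394) (nat_lit 72057594054705664) (nat_lit 0) (nat_lit 2)) (.cons (.rf (nat_lit 4347) (nat_lit 12900816566258794881)) (.cons (.rf (nat_lit 4347) (nat_lit 12900816531899089281)) (.cons (.rf (nat_lit 4245) (nat_lit 184927407944748)) .nil))))) .nil)))))),
 (.br (nat_lit 1) (nat_lit 0) (.cons (.kr (nat_lit 4722366764344621924354) (nat_lit 18446744078004519424) (nat_lit 0) (nat_lit 2)) (.cons (.br (nat_lit 10) (nat_lit 0) (.cons (.br (nat_lit 11) (nat_lit 0) (.cons (.br (nat_lit 2) (nat_lit 0) (.cons (.ev (nat_lit 79849550404065061968527164160) (nat_lit 2)) (.cons (.rf (nat_lit 2890) (nat_lit 463283499927584)) .nil))) (.cons (.ev (nat_lit 158769436815880921745981440257) (nat_lit 2)) (.cons (.rf (nat_lit 4351) (nat_lit 493858305440582043680)) .nil)))) (.cons (.kr (nat_lit 1208925819614629174706176) (nat_lit 309485009821345068724781056) (nat_lit 10) (nat_lit 0)) (.cons (.rf (nat_lit 4352) (nat_lit 14242959524133701664)) (.cons (.br (nat_lit 11)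 (nat_lit 0) (.cons (.rf (nat_lit 4351) (nat_lit 493823402543469922336)) (.cons (.rf (nat_lit 4352) (nat_lit 14208056627021580320)) (.cons (.br (nat_lit 2) (nat_lit 0) (.cons (.br (nat_lit 2) (nat_lit 0) (.cons (.rf (nat_lit 4245) (nat_lit 221246759777282)) .nil)) (.cons (.br (nat_lit 2) (nat_lit 0) (.cons (.rf (nat_lit 4245) (nat_lit 221246759777282)) .nil)) .nil))) .nil)))) .nil))))) (.cons (.rf (nat_lit 4353) (nat_lit 15433072045018188832)) .nil)))),
 (.br (nat_lit 1) (nat_lit 0) (.cons (.rf (nat_lit 4349) (nat_lit 14242959524133701664)) (.cons (.rf (nat_lit 4354) (nat_lit 14242959524133701664)) (.cons (.br (nat_lit 1) (nat_lit 0) (.cons (.rf (nat_lit 4245) (nat_lit 221246759766017)) (.cons (.rf (nat_lit 4354) (nat_lit 14242959524133701664)) (.cons (.rf (nat_lit 4245) (nat_lit 221246759777281)) .nil)))) (.cons (.br (nat_lit 1) (nat_lit 0) (.cons (.rf (nat_lit 1943) (nat_lit 428033)) (.cons (.rf (nat_lit 4353) (nat_lit 15433072045018188832)) (.cons (.rf (nat_lit 4245) (nat_lit 221246759777281))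 .nil)))) .nil))))),
 (.br (nat_lit 1) (nat_lit 0) (.cons (.rf (nat_lit 4245) (nat_lit 323505631692801)) (.cons (.br (nat_lit 1) (nat_lit 0) (.cons (.rf (nat_lit 4245) (nat_lit 323505631692801)) (.cons (.kr (nat_lit 4722366764344621924354) (nat_lit 18446744078004519424) (nat_lit 0) (nat_lit 2)) (.cons (.rf (nat_lit 4245) (nat_lit 221246759766017)) (.cons (.rf (nat_lit 1943) (nat_lit 428033)) .nil))))) (.cons (.br (nat_lit 1) (nat_lit 0) (.cons (.rf (nat_lit 4245) (nat_lit 323505631692801)) (.cons (.kr (nat_lit 4722366764344621924354) (nat_lit 18446744078004519424) (nat_lit 0) (nat_lit 2)) (.cons (.rf (nat_lit 4245) (nat_lit 221246759766017)) (.cons (.rf (nat_lit 1943) (nat_lit 428033)) .nil))))) (.cons (.rf (nat_lit 4245) (nat_lit 221246759766017)) (.cons (.rf (nat_lit 1943) (nat_lit 428033)) .nil)))))),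
 (.br (nat_lit 2) (nat_lit 0) (.cons (.ev (nat_lit 79538861190718805709791756288) (nat_lit 1)) (.cons (.rf (nat_lit 3262) (nat_lit 468809885517856)) .nil))),
 (.br (nat_lit 2) (nat_lit 0) (.cons (.ev (nat_lit 79541288524056831222400352769) (nat_lit 2)) .nil)),
 (.br (nat_lit 11) (nat_lit 0) (.cons (.rf (nat_lit 4357) (nat_lit 14242959524133701664)) (.cons (.zr (nat_lit 79230580365903567955699958528) (nat_lit 928459751902575669857484802) (nat_lit 5) (nat_lit 5)) (.cons (.br (nat_lit 13) (nat_lit 0) (.cons (.rf (nat_lit 4358) (nat_lit 493858305440582043680)) (.cons (.br (nat_lit 2) (nat_lit 0) (.cons (.rf (nat_lit 4358) (nat_lit 493858305440582043680)) .nil)) .nil))) .nil)))),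
 (.br (nat_lit 2) (nat_lit 0) (.cons (.rf (nat_lit 4357) (nat_lit 14242959524133701664)) (.cons (.br (nat_lit 2) (nat_lit 0) (.cons (.ev (nat_lit 79538861190718805709791756288) (nat_lit 1)) (.cons (.rf (nat_lit 4245) (nat_lit 149918326338562)) .nil))) (.cons (.br (nat_lit 2) (nat_lit 0) (.cons (.rf (nat_lit 3262) (nat_lit 468809885517856)) (.cons (.rf (nat_lit 4245) (nat_lit 149918326338562)) .nil))) .nil)))),
 (.br (nat_lit 1) (nat_lit 0) (.cons (.rf (nat_lit 4245) (nat_lit 323505631692801)) (.cons (.ev (nat_lit 282574505115904) (nat_lit 1)) (.cons (.br (nat_lit 2) (nat_lit 0) (.cons (.rf (nat_lit 4359) (nat_lit 14242959524133701664)) (.cons (.rf (nat_lit 4360) (nat_lit 14242959524133701664)) (.cons (.br (nat_lit 2) (nat_lit 0) (.cons (.rf (nat_lit 4359) (nat_lit 14242959524133701664)) (.cons (.rf (nat_lit 4360) (nat_lit 14242959524133701664)) (.cons (.rf (nat_lit 4245) (nat_lit 221246759777282)) .nil)))) (.cons (.br (nat_lit 2) (nat_lit 0) (.cons (.rf (nat_lit 4359) (nat_lit 14242959524133701664))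 (.cons (.rf (nat_lit 4360) (nat_lit 14242959524133701664)) (.cons (.rf (nat_lit 4245) (nat_lit 221246759777282)) .nil)))) .nil))))) (.cons (.rf (nat_lit 4245) (nat_lit 323505631704065)) .nil))))),
 (.br (nat_lit 1) (nat_lit 0) (.cons (.rf (nat_lit 4245) (nat_lit 323505631692801)) (.cons (.br (nat_lit 1) (nat_lit 0) (.cons (.rf (nat_lit 4245) (nat_lit 323505631692801)) (.cons (.ev (nat_lit 282574505115904) (nat_lit 1)) (.cons (.ev (nat_lit 18518802767259107584) (nat_lit 1)) (.cons (.rf (nat_lit 4245) (nat_lit 323505631704065)) .nil))))) (.cons (.rf (nat_lit 4361) (nat_lit 14242959524133701664)) (.cons (.br (nat_lit 1) (nat_lit 0) (.cons (.rf (nat_lit 4245) (nat_lit 323505631692801)) (.cons (.ev (nat_lit 18518802767259107584) (nat_lit 1)) (.cons (.rf (nat_lit 4361) (nat_lit 14242959524133701664)) (.cons (.rf (nat_lit 4245) (nat_lit 323505631704065)) .nil))))) (.cons (.rf (nat_lit 4245) (nat_lit 323505631704065)) .nil)))))),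
 (.br (nat_lit 2) (nat_lit 0) (.cons (.rf (nat_lit 4356) (nat_lit 14242959524133701664)) (.cons (.rf (nat_lit 4362) (nat_lit 14242959524133700672)) (.cons (.br (nat_lit 2) (nat_lit 0) (.cons (.rf (nat_lit 4245) (nat_lit 221246759764994)) (.cons (.rf (nat_lit 4362) (nat_lit 14242959524133700672)) (.cons (.rf (nat_lit 4245) (nat_lit 221246759777282)) .nil)))) (.cons (.br (nat_lit 2) (nat_lit 0) (.cons (.rf (nat_lit 1943) (nat_lit 427010)) (.cons (.rf (nat_lit 4245) (nat_lit 323505631704066)) (.cons (.rf (nat_lit 4245) (nat_lit 221246759777282)) .nil)))) .nil))))),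
 (.br (nat_lit 2) (nat_lit 0) (.cons (.rf (nat_lit 4356) (nat_lit 14242959524133701664)) (.cons (.rf (nat_lit 4362) (nat_lit 14242959524133700672)) (.cons (.rf (nat_lit 4363) (nat_lit 14242959524133701664)) (.cons (.br (nat_lit 2) (nat_lit 0) (.cons (.rf (nat_lit 4245) (nat_lit 221246759764994)) (.cons (.rf (nat_lit 4362) (nat_lit 14242959524133700672)) (.cons (.rf (nat_lit 4363) (nat_lit 14242959524133701664)) (.cons (.rf (nat_lit 4245) (nat_lit 221246759777282)) .nil))))) (.cons (.br (nat_lit 2) (nat_lit 0) (.cons (.rf (nat_lit 1943) (nat_lit 427010)) (.cons (.rf (nat_lit 4245) (nat_lit 323505631704066)) (.cons (.rf (nat_lit 4363) (nat_lit 14242959524133701664)) (.cons (.rf (nat_lit 4245) (nat_lit 221246759777282)) .nil))))) .nil)))))),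
 (.br (nat_lit 1) (nat_lit 0) (.cons (.rf (nat_lit 4356) (nat_lit 14242959524133701664)) (.cons (.rf (nat_lit 4362) (nat_lit 14242959524133701664)) (.cons (.rf (nat_lit 4364) (nat_lit 14242959524133701664)) (.cons (.br (nat_lit 1) (nat_lit 0) (.cons (.rf (nat_lit 4245) (nat_lit 221246759766017)) (.cons (.rf (nat_lit 4362) (nat_lit 14242959524133701664)) (.cons (.rf (nat_lit 4364) (nat_lit 14242959524133701664)) (.cons (.rf (nat_lit 4245) (nat_lit 221246759777281)) .nil))))) (.cons (.br (nat_lit 1) (nat_lit 0) (.cons (.rf (nat_lit 1943) (nat_lit 428033)) (.cons (.rf (nat_lit 4245) (nat_lit 323505631704065)) (.cons (.rf (nat_lit 4364) (nat_lit 14242959524133701664)) (.cons (.rf (nat_lit 4245) (nat_lit 221246759777281)) .nil))))) .nil)))))),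
 (.br (nat_lit 1) (nat_lit 0) (.cons (.rf (nat_lit 4356) (nat_lit 14242959524133701664)) (.cons (.rf (nat_lit 4362) (nat_lit 14242959524133701664)) (.cons (.rf (nat_lit 4364) (nat_lit 14242959524133701664)) (.cons (.rf (nat_lit 4365) (nat_lit 14242959524133701664)) (.cons (.br (nat_lit 1) (nat_lit 0) (.cons (.rf (nat_lit 4245) (nat_lit 221246759766017)) (.cons (.rf (nat_lit 4362) (nat_lit 14242959524133701664)) (.cons (.rf (nat_lit 4364) (nat_lit 14242959524133701664)) (.cons (.rf (nat_lit 4365) (nat_lit 14242959524133701664)) (.cons (.rf (nat_lit 4245) (nat_lit 221246759777281)) .nil)))))) (.cons (.br (nat_lit 1) (nat_lit 0) (.cons (.rf (nat_lit 1943) (nat_lit 428033)) (.cons (.rf (nat_lit 4245) (nat_lit 323505631704065)) (.cons (.rf (nat_lit 4364) (nat_lit 14242959524133701664)) (.cons (.rf (nat_lit 4365) (nat_lit 14242959524133701664)) (.cons (.rf (nat_lit 4245) (nat_lit 221246759777281)) .nil)))))) .nil))))))),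
 (.br (nat_lit 1) (nat_lit 0) (.cons (.rf (nat_lit 4245) (nat_lit 323505631692801)) (.cons (.kr (nat_lit 4722366764344621924354) (nat_lit 18446744078004519424) (nat_lit 0) (nat_lit 2)) (.cons (.rf (nat_lit 4245) (nat_lit 221246759766017)) (.cons (.rf (nat_lit 1943) (nat_lit 428033)) .nil))))),
 (.br (nat_lit 1) (nat_lit 0) (.cons (.rf (nat_lit 4245) (nat_lit 323505631692801)) (.cons (.rf (nat_lit 4367) (nat_lit 14242959524133701664)) (.cons (.rf (nat_lit 4367) (nat_lit 14208056627021580320)) (.cons (.rf (nat_lit 4245) (nat_lit 221246759766017)) (.cons (.rf (nat_lit 1943) (nat_lit 428033)) .nil))))))]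

theorem c161 : chkAll C T R L161 (nat_lit 4341) = true := by decide +kernel

theorem l161 : (nat_lit 4341) + L161.length = (nat_lit 4369) := by decide +kernel

/-- part of the certificates -/
def L162 : List Prf := [(.br (nat_lit 2) (nat_lit 0) (.cons (.br (nat_lit 13) (nat_lit 0) (.cons (.rf (nat_lit 4347) (nat_lit 14090929052783575458)) .nil)) .nil)),
 (.br (nat_lit 2) (nat_lit 0) (.cons (.rf (nat_lit 4369) (nat_lit 14242959524133701664)) (.cons (.br (nat_lit 2) (nat_lit 0) (.cons (.rf (nat_lit 4369) (nat_lit 14242959524133701664)) .nil)) .nil))),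
 (.br (nat_lit 2) (nat_lit 0) (.cons (.rf (nat_lit 4370) (nat_lit 14242959524133701664)) (.cons (.br (nat_lit 2) (nat_lit 0) (.cons (.rf (nat_lit 4370) (nat_lit 14242959524133701664)) .nil)) .nil))),
 (.br (nat_lit 1) (nat_lit 0) (.cons (.rf (nat_lit 4245) (nat_lit 323505631692801)) (.cons (.ev (nat_lit 282574505115904) (nat_lit 1)) (.cons (.br (nat_lit 2) (nat_lit 0) (.cons (.rf (nat_lit 4370) (nat_lit 14242959524133701664)) (.cons (.rf (nat_lit 4371) (nat_lit 14242959524133701664)) (.cons (.br (nat_lit 2) (nat_lit 0) (.cons (.rf (nat_lit 4370) (nat_lit 14242959524133701664)) (.cons (.rf (nat_lit 4371) (nat_lit 14242959524133701664)) .nil))) .nil)))) (.cons (.rf (nat_lit 4245) (nat_lit 323505631704065)) .nil))))),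
 (.br (nat_lit 1) (nat_lit 0) (.cons (.rf (nat_lit 4245) (nat_lit 323505631692801)) (.cons (.rf (nat_lit 4372) (nat_lit 14242959524133701664)) (.cons (.rf (nat_lit 4372) (nat_lit 14208056627021580320)) (.cons (.br (nat_lit 1) (nat_lit 0) (.cons (.rf (nat_lit 4245) (nat_lit 323505631692801)) (.cons (.rf (nat_lit 4372) (nat_lit 14242959524133701664)) (.cons (.rf (nat_lit 4372) (nat_lit 14208056627021580320)) (.cons (.rf (nat_lit 4245) (nat_lit 323505631704065)) .nil))))) (.cons (.rf (nat_lit 4245) (nat_lit 323505631704065)) .nil)))))),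
 (.br (nat_lit 13) (nat_lit 0) (.cons (.kr (nat_lit 4722366764344621924354) (nat_lit 18446744078004519424) (nat_lit 0) (nat_lit 2)) (.cons (.rf (nat_lit 4245) (nat_lit 323505631692845)) (.cons (.rf (nat_lit 4347) (nat_lit 14090929087143281057)) (.cons (.rf (nat_lit 4347) (nat_lit 14090929052783575457)) (.cons (.rf (nat_lit 4245) (nat_lit 221246759766061)) .nil)))))),
 (.br (nat_lit 2) (nat_lit 0) (.cons (.rf (nat_lit 4373) (nat_lit 14242959524133700672)) (.cons (.br (nat_lit 2) (nat_lit 0) (.cons (.ev (nat_lit 282574505181184) (nat_lit 1)) (.cons (.ev (nat_lit 79538861190718805709791756288) (nat_lit 1)) (.cons (.rf (nat_lit 4374) (nat_lit 493858305440582043680)) .nil)))) (.cons (.rf (nat_lit 4373) (nat_lit 6172398906744472640)) (.cons (.rf (nat_lit 4374) (nat_lit 493858305440582043680)) .nil))))),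
 (.br (nat_lit 1) (nat_lit 0) (.cons (.kr (nat_lit 4722366764344621924354) (nat_lit 18446744078004519424) (nat_lit 0) (nat_lit 2)) (.cons (.ev (nat_lit 282574505115904) (nat_lit 1)) (.cons (.ev (nat_lit 79228167236702878057227092224) (nat_lit 1)) (.cons (.br (nat_lit 2) (nat_lit 0) (.cons (.rf (nat_lit 4373) (nat_lit 14242959524133700672)) (.cons (.rf (nat_lit 4375) (nat_lit 493858305440582043680)) (.cons (.rf (nat_lit 4375) (nat_lit 493823402543469922336)) (.cons (.rf (nat_lit 4373) (nat_lit 6172398906744472640)) (.cons (.rf (nat_lit 4374) (nat_lit 493858305440582043680)) .nil)))))) .nil))))),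
 (.br (nat_lit 1) (nat_lit 0) (.cons (.rf (nat_lit 4368) (nat_lit 14242959524133701664)) (.cons (.rf (nat_lit 4373) (nat_lit 14242959524133701664)) (.cons (.rf (nat_lit 4376) (nat_lit 14242959524133701664)) (.cons (.rf (nat_lit 4373) (nat_lit 6172398906744473632)) (.cons (.br (nat_lit 1) (nat_lit 0) (.cons (.rf (nat_lit 1943) (nat_lit 428033)) (.cons (.rf (nat_lit 4245) (nat_lit 323505631704065)) (.cons (.rf (nat_lit 4376) (nat_lit 14242959524133701664)) (.cons (.rf (nat_lit 4245) (nat_lit 221246759777281)) .nil))))) .nil)))))),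
 (.br (nat_lit 1) (nat_lit 0) (.cons (.rf (nat_lit 4245) (nat_lit 323505631692801)) (.cons (.kr (nat_lit 4722366764344621924354) (nat_lit 18446744078004519424) (nat_lit 0) (nat_lit 2)) (.cons (.rf (nat_lit 4245) (nat_lit 221246759766017)) (.cons (.rf (nat_lit 1943) (nat_lit 428033)) .nil))))),
 (.br (nat_lit 1) (nat_lit 0) (.cons (.rf (nat_lit 4245) (nat_lit 323505631692801)) (.cons (.rf (nat_lit 4378) (nat_lit 493858305440582043680)) (.cons (.rf (nat_lit 4378) (nat_lit 493823402543469922336)) (.cons (.rf (nat_lit 4245) (nat_lit 221246759766017)) (.cons (.rf (nat_lit 1943) (nat_lit 428033)) .nil)))))),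
 (.br (nat_lit 2) (nat_lit 0) (.cons (.br (nat_lit 11) (nat_lit 0) (.cons (.ev (nat_lit 317548549779709305870354876426) (nat_lit 4)) (.cons (.rf (nat_lit 4347) (nat_lit 14090929052783575458)) .nil))) (.cons (.rf (nat_lit 4245) (nat_lit 221246759777282)) .nil))),
 (.br (nat_lit 13) (nat_lit 0) (.cons (.rf (nat_lit 4380) (nat_lit 493858305440582043680)) (.cons (.br (nat_lit 13) (nat_lit 0) (.cons (.ev (nat_lit 20282410812596009122822973554688) (nat_lit 1)) .nil)) .nil))),
 (.br (nat_lit 13) (nat_lit 0) (.cons (.rf (nat_lit 4380) (nat_lit 493858305440582043680)) (.cons (.rf (nat_lit 4381) (nat_lit 493858305440582043680)) (.cons (.br (nat_lit 13) (nat_lit 0) (.cons (.rf (nat_lit 4380) (nat_lit 493858305440582043680)) (.cons (.rf (nat_lit 4381) (nat_lit 493858305440582043680)) .nil))) .nil)))),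
 (.br (nat_lit 2) (nat_lit 0) (.cons (.rf (nat_lit 4382) (nat_lit 493858305440582043680)) (.cons (.br (nat_lit 2) (nat_lit 0) (.cons (.zr (nat_lit 79228171958997585907322716419) (nat_lit 1208944266358711491166208) (nat_lit 5) (nat_lit 1)) (.cons (.rf (nat_lit 4245) (nat_lit 221246759777282)) .nil))) (.cons (.br (nat_lit 2) (nat_lit 0) (.cons (.rf (nat_lit 4382) (nat_lit 493858305440582043680)) (.cons (.rf (nat_lit 4245) (nat_lit 221246759777282)) .nil))) .nil)))),
 (.br (nat_lit 1) (nat_lit 0) (.cons (.rf (nat_lit 4245) (nat_lit 323505631692801)) (.cons (.ev (nat_lit 282574505115904) (nat_lit 1)) (.cons (.br (nat_lit 2) (nat_lit 0) (.cons (.rf (nat_lit 4382) (nat_lit 493858305440582043680)) (.cons (.rf (nat_lit 4383) (nat_lit 493858305440582043680)) (.cons (.br (nat_lit 2) (nat_lit 0) (.cons (.rf (nat_lit 4382) (nat_lit 493858305440582043680)) (.cons (.rf (nat_lit 4383) (nat_lit 493858305440582043680)) (.cons (.rf (nat_lit 4245) (nat_lit 221246759777282)) .nil)))) (.cons (.br (nat_lit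 2) (nat_lit 0) (.cons (.rf (nat_lit 4382) (nat_lit 493858305440582043680)) (.cons (.rf (nat_lit 4383) (nat_lit 493858305440582043680)) (.cons (.rf (nat_lit 4245) (nat_lit 221246759777282)) .nil)))) .nil))))) (.cons (.rf (nat_lit 4245) (nat_lit 323505631704065)) .nil))))),
 (.br (nat_lit 1) (nat_lit 0) (.cons (.rf (nat_lit 4245) (nat_lit 323505631692801)) (.cons (.rf (nat_lit 4384) (nat_lit 493858305440582043680)) (.cons (.rf (nat_lit 4384) (nat_lit 493823402543469922336)) (.cons (.br (nat_lit 1) (nat_lit 0) (.cons (.rf (nat_lit 4245) (nat_lit 323505631692801)) (.cons (.rf (nat_lit 4384) (nat_lit 493858305440582043680)) (.cons (.rf (nat_lit 4384) (nat_lit 493823402543469922336)) (.cons (.ev (nat_lit 18518802767259107584) (nat_lit 1)) .nil))))) (.cons (.rf (nat_lit 4245) (nat_lit 323505631704065)) .nil)))))),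
 (.br (nat_lit 2) (nat_lit 0) (.cons (.ev (nat_lit 282574505181184) (nat_lit 1)) (.cons (.rf (nat_lit 3259) (nat_lit 463318634694688)) (.cons (.br (nat_lit 5) (nat_lit 0) (.cons (.ev (nat_lit 310693935713299866425819393) (nat_lit 1)) (.cons (.ev (nat_lit 18446745173238022401) (nat_lit 1)) .nil))) .nil)))),
 (.br (nat_lit 2) (nat_lit 0) (.cons (.rf (nat_lit 4385) (nat_lit 493858305440582042688)) (.cons (.rf (nat_lit 4386) (nat_lit 493858305440582043680)) (.cons (.br (nat_lit 2) (nat_lit 0) (.cons (.zr (nat_lit 79228171958997585907322781699) (nat_lit 1208944266358711490970368) (nat_lit 5) (nat_lit 2)) (.cons (.rf (nat_lit 3259) (nat_lit 463318634694688)) (.cons (.rf (nat_lit 4245) (nat_lit 221246759777282)) .nil)))) (.cons (.br (nat_lit 2) (nat_lit 0) (.cons (.rf (nat_lit 4245) (nat_lit 323505631704066)) (.cons (.rf (nat_lit 4386) (nat_lit 493858305440582043680)) (.cons (.rf (nat_lit 4245) (nat_lit 221246759777282)) .nil)))) .nil))))),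
 (.br (nat_lit 13) (nat_lit 0) (.cons (.rf (nat_lit 4245) (nat_lit 323505631692845)) (.cons (.rf (nat_lit 4347) (nat_lit 14090929087143281057)) (.cons (.rf (nat_lit 4347) (nat_lit 14090929052783575457)) (.cons (.br (nat_lit 10) (nat_lit 0) (.cons (.br (nat_lit 11) (nat_lit 0) (.cons (.br (nat_lit 2) (nat_lit 0) (.cons (.ev (nat_lit 18446745173238022401) (nat_lit 1)) .nil)) (.cons (.ev (nat_lit 162579301259219217410553345478146) (nat_lit 4)) .nil))) (.cons (.kr (nat_lit 1208925819614629174706176) (nat_lit 309485009821345068724781056) (nat_lit 10) (nat_lit 0)) (.cons (.br (nat_lit 2) (nat_lit 0) (.cons (.ev (nat_lit 162580534363555224332311545777666) (nat_lit 4)) .nil)) .nil)))) .nil))))),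
 (.br (nat_lit 1) (nat_lit 0) (.cons (.kr (nat_lit 4722366764344621924354) (nat_lit 18446744078004519424) (nat_lit 0) (nat_lit 2)) (.cons (.ev (nat_lit 282574505115904) (nat_lit 1)) (.cons (.br (nat_lit 2) (nat_lit 0) (.cons (.rf (nat_lit 4385) (nat_lit 493858305440582042688)) (.cons (.rf (nat_lit 4387) (nat_lit 493858305440582043680)) (.cons (.rf (nat_lit 4387) (nat_lit 493823402543469922336)) (.cons (.br (nat_lit 2) (nat_lit 0) (.cons (.rf (nat_lit 4385) (nat_lit 493858305440582042688)) (.cons (.rf (nat_lit 4387) (nat_lit 493858305440582043680)) (.cons (.rf (nat_lit 4387) (nat_lit 493823402543469922336)) (.cons (.rf (nat_lit 4245) (nat_lit 221246759777282)) .nil))))) (.cons (.br (nat_lit 2) (nat_lit 0) (.cons (.rf (nat_lit 4245) (nat_lit 323505631704066)) (.cons (.rf (nat_lit 4387) (nat_lit 493858305440582043680)) (.cons (.rf (nat_lit 4387) (nat_lit 493823402543469922336)) (.cons (.rf (nat_lit 4245) (nat_lit 221246759777282)) .nil))))) .nil)))))) (.cons (.br (nat_lit 13) (nat_lit 0)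 (.cons (.br (nat_lit 13) (nat_lit 0) (.cons (.rf (nat_lit 4245) (nat_lit 323505631692845)) (.cons (.rf (nat_lit 4347) (nat_lit 14090929087143281057)) (.cons (.rf (nat_lit 4347) (nat_lit 14090929052783575457)) (.cons (.rf (nat_lit 4245) (nat_lit 221246759766061)) .nil))))) (.cons (.rf (nat_lit 4388) (nat_lit 493858305440582043680)) (.cons (.rf (nat_lit 4347) (nat_lit 14090929087143281057)) (.cons (.rf (nat_lit 4347) (nat_lit 14090929052783575457)) (.cons (.br (nat_lit 13) (nat_lit 0) (.cons (.rf (nat_lit 4245) (nat_lit 221246759766061)) (.cons (.rf (nat_lit 4388) (nat_lit 493858305440582043680)) (.cons (.rf (nat_lit 4347) (nat_lit 14090929087143281057)) (.cons (.rf (nat_lit 4347) (nat_lit 14090929052783575457)) .nil))))) .nil)))))) .nil))))),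
 (.br (nat_lit 1) (nat_lit 0) (.cons (.rf (nat_lit 4379) (nat_lit 493858305440582043680)) (.cons (.rf (nat_lit 4385) (nat_lit 493858305440582043680)) (.cons (.rf (nat_lit 4389) (nat_lit 493858305440582043680)) (.cons (.br (nat_lit 1) (nat_lit 0) (.cons (.rf (nat_lit 4245) (nat_lit 221246759766017)) (.cons (.rf (nat_lit 4385) (nat_lit 493858305440582043680)) (.cons (.rf (nat_lit 4389) (nat_lit 493858305440582043680)) (.cons (.rf (nat_lit 4245) (nat_lit 221246759777281)) .nil))))) (.cons (.br (nat_lit 1) (nat_lit 0) (.cons (.rf (nat_lit 1943) (nat_lit 428033)) (.cons (.rf (nat_lit 4245) (nat_lit 323505631704065)) (.cons (.rf (nat_lit 4389) (nat_lit 493858305440582043680)) (.cons (.rf (nat_lit 4245) (nat_lit 221246759777281)) .nil))))) .nil)))))),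
 (.br (nat_lit 7) (nat_lit 0) (.cons (.rf (nat_lit 4347) (nat_lit 14242959386694879264)) (.cons (.rf (nat_lit 4347) (nat_lit 14242959386694878272)) (.cons (.br (nat_lit 1) (nat_lit 0) (.cons (.rf (nat_lit 4349) (nat_lit 14242959524133701664)) (.cons (.rf (nat_lit 4355) (nat_lit 14242959524133701664)) (.cons (.rf (nat_lit 4355) (nat_lit 14208056627021580320)) (.cons (.br (nat_lit 1) (nat_lit 0) (.cons (.rf (nat_lit 4245) (nat_lit 221246759766017)) (.cons (.rf (nat_lit 4355) (nat_lit 14242959524133701664)) (.cons (.rf (nat_lit 4355) (nat_lit 14208056627021580320)) (.cons (.rf (nat_lit 4245) (nat_lit 221246759777281)) .nil))))) (.cons (.br (nat_lit 1) (nat_lit 0) (.cons (.rf (nat_lit 1943) (nat_lit 428033)) (.cons (.rf (nat_lit 4355) (nat_lit 14242959524133701664)) (.cons (.rf (nat_lit 4355) (nat_lit 14208056627021580320)) (.cons (.rf (nat_lit 4245) (nat_lit 221246759777281)) .nil))))) .nil)))))) (.cons (.rf (nat_lit 4366) (nat_lit 14242959524133701664)) (.cons (.rf (nat_lit 4366) (nat_lit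 14208056627021580320)) (.cons (.br (nat_lit 1) (nat_lit 0) (.cons (.rf (nat_lit 4368) (nat_lit 14242959524133701664)) (.cons (.rf (nat_lit 4373) (nat_lit 14242959524133701664)) (.cons (.rf (nat_lit 4377) (nat_lit 14242959524133701664)) (.cons (.rf (nat_lit 4377) (nat_lit 14208056627021580320)) (.cons (.rf (nat_lit 4373) (nat_lit 6172398906744473632)) (.cons (.br (nat_lit 1) (nat_lit 0) (.cons (.rf (nat_lit 1943) (nat_lit 428033)) (.cons (.rf (nat_lit 4245) (nat_lit 323505631704065)) (.cons (.rf (nat_lit 4377) (nat_lit 14242959524133701664)) (.cons (.rf (nat_lit 4377) (nat_lit 14208056627021580320)) (.cons (.rf (nat_lit 4245) (nat_lit 221246759777281)) .nil)))))) .nil))))))) (.cons (.br (nat_lit 1) (nat_lit 0) (.cons (.rf (nat_lit 4379) (nat_lit 493858305440582043680)) (.cons (.rf (nat_lit 4385) (nat_lit 493858305440582043680)) (.cons (.rf (nat_lit 4390) (nat_lit 493858305440582043680)) (.cons (.rf (nat_lit 4390) (nat_lit 493823402543469922336)) (.cons (.br (nat_lit 1) (nat_lit 0) (.cons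 (.rf (nat_lit 4245) (nat_lit 221246759766017)) (.cons (.rf (nat_lit 4385) (nat_lit 493858305440582043680)) (.cons (.rf (nat_lit 4390) (nat_lit 493858305440582043680)) (.cons (.rf (nat_lit 4390) (nat_lit 493823402543469922336)) (.cons (.rf (nat_lit 4245) (nat_lit 221246759777281)) .nil)))))) (.cons (.br (nat_lit 1) (nat_lit 0) (.cons (.rf (nat_lit 1943) (nat_lit 428033)) (.cons (.rf (nat_lit 4245) (nat_lit 323505631704065)) (.cons (.rf (nat_lit 4390) (nat_lit 493858305440582043680)) (.cons (.rf (nat_lit 4390) (nat_lit 493823402543469922336)) (.cons (.rf (nat_lit 4245) (nat_lit 221246759777281)) .nil)))))) .nil))))))) .nil)))))))),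
 (.br (nat_lit 1) (nat_lit 0) (.cons (.rf (nat_lit 4245) (nat_lit 286260986021889)) (.cons (.br (nat_lit 1) (nat_lit 0) (.cons (.rf (nat_lit 4245) (nat_lit 286260986021889)) (.cons (.rf (nat_lit 4245) (nat_lit 149918326327297)) (.cons (.rf (nat_lit 1943) (nat_lit 428033)) .nil)))) (.cons (.rf (nat_lit 4245) (nat_lit 149918326327297)) (.cons (.rf (nat_lit 1943) (nat_lit 428033)) .nil))))),
 (.br (nat_lit 2) (nat_lit 0) (.cons (.br (nat_lit 2) (nat_lit 0) (.cons (.ev (nat_lit 80470938312312529322003269120) (nat_lit 3)) (.cons (.rf (nat_lit 4245) (nat_lit 323505631704066)) .nil))) (.cons (.br (nat_lit 2) (nat_lit 0) (.cons (.ev (nat_lit 80470938312312529322003269120) (nat_lit 3)) (.cons (.rf (nat_lit 4245) (nat_lit 323505631704066)) .nil))) (.cons (.rf (nat_lit 4245) (nat_lit 323505631704066)) .nil)))),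
 (.br (nat_lit 1) (nat_lit 0) (.cons (.rf (nat_lit 4245) (nat_lit 323505631692801)) (.cons (.br (nat_lit 2) (nat_lit 0) (.cons (.rf (nat_lit 4393) (nat_lit 14242959524133701664)) (.cons (.br (nat_lit 2) (nat_lit 0) (.cons (.rf (nat_lit 4393) (nat_lit 14242959524133701664)) (.cons (.rf (nat_lit 4393) (nat_lit 6172399044183296032)) (.cons (.rf (nat_lit 4392) (nat_lit 14242959524133712960)) .nil)))) (.cons (.rf (nat_lit 4393) (nat_lit 6172399044183296032)) (.cons (.rf (nat_lit 4392) (nat_lit 14242959524133712960)) .nil))))) (.cons (.rf (nat_lit 4245) (nat_lit 323505631704065)) .nil))))]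

theorem c162 : chkAll C T R L162 (nat_lit 4369) = true := by decide +kernel

theorem l162 : (nat_lit 4369) + L162.length = (nat_lit 4395) := by decide +kernel

/-- part of the certificates -/
def L163 : List Prf := [(.br (nat_lit 1) (nat_lit 0) (.cons (.rf (nat_lit 4245) (nat_lit 323505631692801)) (.cons (.rf (nat_lit 4394) (nat_lit 14242959524133701664)) (.cons (.br (nat_lit 1) (nat_lit 0) (.cons (.rf (nat_lit 4245) (nat_lit 323505631692801)) (.cons (.rf (nat_lit 4394) (nat_lit 14242959524133701664)) (.cons (.rf (nat_lit 4245) (nat_lit 323505631704065)) .nil)))) (.cons (.rf (nat_lit 4245) (nat_lit 323505631704065)) .nil))))),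
 (.br (nat_lit 1) (nat_lit 0) (.cons (.rf (nat_lit 4245) (nat_lit 286260986021889)) (.cons (.kr (nat_lit 309485009821345068741558272) (nat_lit 1208925891672223212634112) (nat_lit 3) (nat_lit 0)) (.cons (.rf (nat_lit 4245) (nat_lit 149918326327297)) (.cons (.rf (nat_lit 1943) (nat_lit 428033)) .nil))))),
 (.br (nat_lit 1) (nat_lit 0) (.cons (.rf (nat_lit 4245) (nat_lit 286260986021889)) (.cons (.rf (nat_lit 4396) (nat_lit 14242959524133701664)) (.cons (.rf (nat_lit 4396) (nat_lit 14208056489582757920)) (.cons (.rf (nat_lit 4245) (nat_lit 149918326327297)) (.cons (.rf (nat_lit 1943) (nat_lit 428033)) .nil)))))),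
 (.br (nat_lit 2) (nat_lit 0) (.cons (.br (nat_lit 2) (nat_lit 0) (.cons (.ev (nat_lit 79228162570036920906623877632) (nat_lit 3)) (.cons (.rf (nat_lit 4245) (nat_lit 323505631704066)) .nil))) (.cons (.br (nat_lit 2) (nat_lit 0) (.cons (.ev (nat_lit 79228162570036920906623877632) (nat_lit 3)) (.cons (.rf (nat_lit 4245) (nat_lit 323505631704066)) .nil))) (.cons (.rf (nat_lit 4245) (nat_lit 323505631704066)) .nil)))),
 (.br (nat_lit 1) (nat_lit 0) (.cons (.rf (nat_lit 4245) (nat_lit 323505631692801)) (.cons (.kr (nat_lit 309485009821345068741558272) (nat_lit 1208925891672223212634112) (nat_lit 3) (nat_lit 0)) (.cons (.br (nat_lit 2) (nat_lit 0) (.cons (.rf (nat_lit 4398) (nat_lit 14242959524133701664)) (.cons (.br (nat_lit 2) (nat_lit 0) (.cons (.rf (nat_lit 4398) (nat_lit 14242959524133701664)) (.cons (.rf (nat_lit 4398) (nat_lit 6172399044183296032)) (.cons (.rf (nat_lit 4397) (nat_lit 14242959524133712960)) .nil)))) (.cons (.rf (nat_lit 4398) (nat_lit 6172399044183296032)) (.cons (.rf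 (nat_lit 4397) (nat_lit 14242959524133712960)) .nil))))) (.cons (.rf (nat_lit 4245) (nat_lit 323505631704065)) .nil))))),
 (.br (nat_lit 1) (nat_lit 0) (.cons (.rf (nat_lit 4245) (nat_lit 323505631692801)) (.cons (.rf (nat_lit 4399) (nat_lit 14242959524133701664)) (.cons (.rf (nat_lit 4399) (nat_lit 14208056489582757920)) (.cons (.br (nat_lit 1) (nat_lit 0) (.cons (.rf (nat_lit 4245) (nat_lit 323505631692801)) (.cons (.rf (nat_lit 4399) (nat_lit 14242959524133701664)) (.cons (.rf (nat_lit 4399) (nat_lit 14208056489582757920)) (.cons (.rf (nat_lit 4245) (nat_lit 323505631704065)) .nil))))) (.cons (.rf (nat_lit 4245) (nat_lit 323505631704065)) .nil)))))),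
 (.br (nat_lit 1) (nat_lit 0) (.cons (.rf (nat_lit 4397) (nat_lit 14242959524133701664)) (.cons (.rf (nat_lit 4400) (nat_lit 14242959524133701664)) (.cons (.kr (nat_lit 309485009821345068741558272) (nat_lit 1208925891672223212634112) (nat_lit 3) (nat_lit 0)) (.cons (.rf (nat_lit 4400) (nat_lit 6172399044183296032)) (.cons (.rf (nat_lit 4397) (nat_lit 14242959524133712928)) .nil)))))),
 (.br (nat_lit 1) (nat_lit 0) (.cons (.rf (nat_lit 4245) (nat_lit 323505631692801)) (.cons (.br (nat_lit 1) (nat_lit 0) (.cons (.rf (nat_lit 4245) (nat_lit 323505631692801)) (.cons (.kr (nat_lit 4722366764344621924354) (nat_lit 18446744078004519424) (nat_lit 0) (nat_lit 2)) (.cons (.rf (nat_lit 4245) (nat_lit 221246759766017)) (.cons (.rf (nat_lit 1943) (nat_lit 428033)) .nil))))) (.cons (.br (nat_lit 1) (nat_lit 0) (.cons (.rf (nat_lit 4245) (nat_lit 323505631692801)) (.cons (.kr (nat_lit 4722366764344621924354) (nat_lit 18446744078004519424) (nat_lit 0) (nat_lit 2)) (.cons (.rf (nat_lit 4245) (nat_lit 221246759766017))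 (.cons (.rf (nat_lit 1943) (nat_lit 428033)) .nil))))) (.cons (.rf (nat_lit 4245) (nat_lit 221246759766017)) (.cons (.rf (nat_lit 1943) (nat_lit 428033)) .nil)))))),
 (.br (nat_lit 2) (nat_lit 0) (.cons (.rf (nat_lit 1943) (nat_lit 427010)) (.cons (.rf (nat_lit 4245) (nat_lit 286260986033154)) (.cons (.br (nat_lit 2) (nat_lit 0) (.cons (.rf (nat_lit 1943) (nat_lit 427010)) (.cons (.rf (nat_lit 4245) (nat_lit 286260986033154)) (.cons (.rf (nat_lit 4245) (nat_lit 149918326338562)) .nil)))) (.cons (.rf (nat_lit 4245) (nat_lit 149918326338562)) .nil))))),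
 (.br (nat_lit 13) (nat_lit 0) (.cons (.rf (nat_lit 4245) (nat_lit 286260986033154)) (.cons (.br (nat_lit 13) (nat_lit 0) (.cons (.rf (nat_lit 4245) (nat_lit 286260986033154)) .nil)) .nil))),
 (.br (nat_lit 13) (nat_lit 0) (.cons (.rf (nat_lit 4245) (nat_lit 286260986033154)) (.cons (.rf (nat_lit 4404) (nat_lit 493858305440582043680)) (.cons (.br (nat_lit 13) (nat_lit 0) (.cons (.rf (nat_lit 4245) (nat_lit 286260986033154)) (.cons (.rf (nat_lit 4404) (nat_lit 493858305440582043680)) .nil))) .nil)))),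
 (.br (nat_lit 1) (nat_lit 0) (.cons (.rf (nat_lit 4245) (nat_lit 323505631692801)) (.cons (.br (nat_lit 5) (nat_lit 0) (.cons (.br (nat_lit 13) (nat_lit 0) (.cons (.rf (nat_lit 4245) (nat_lit 323505631704066)) (.cons (.ev (nat_lit 310693935713299866425753601) (nat_lit 1)) (.cons (.br (nat_lit 13) (nat_lit 0) (.cons (.rf (nat_lit 4245) (nat_lit 323505631704066)) (.cons (.ev (nat_lit 310693935713299866425753601) (nat_lit 1)) .nil))) .nil)))) (.cons (.ev (nat_lit 310693935641242272404603136) (nat_lit 1)) (.cons (.br (nat_lit 13) (nat_lit 0) (.cons (.rf (nat_lit 4403) (nat_lit 493858305440582043680)) (.cons (.ev (nat_lit 310698658079782740365934848) (nat_lit 1)) (.cons (.br (nat_lit 13) (nat_lit 0) (.cons (.rf (nat_lit 4403) (nat_lit 493858305440582043680)) (.cons (.ev (nat_lit 310698658079782740365934848) (nat_lit 1)) .nil))) .nil)))) (.cons (.br (nat_lit 2) (nat_lit 0) (.cons (.ev (nat_lit 310693935713299866425753601) (nat_lit 1)) (.cons (.br (nat_lit 2) (nat_lit 0) (.cons (.ev (nat_lit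 310693935713299866425753601) (nat_lit 1)) (.cons (.rf (nat_lit 4245) (nat_lit 149918326338562)) .nil))) (.cons (.rf (nat_lit 4403) (nat_lit 493858305440582043680)) .nil)))) .nil))))) (.cons (.br (nat_lit 2) (nat_lit 0) (.cons (.rf (nat_lit 4405) (nat_lit 493858305440582043680)) (.cons (.br (nat_lit 2) (nat_lit 0) (.cons (.rf (nat_lit 4405) (nat_lit 493858305440582043680)) (.cons (.rf (nat_lit 4405) (nat_lit 485787744960631638048)) (.cons (.rf (nat_lit 4403) (nat_lit 493858305440582043680)) .nil)))) (.cons (.rf (nat_lit 4405) (nat_lit 485787744960631638048)) (.cons (.rf (nat_lit 4403) (nat_lit 493858305440582043680)) .nil))))) (.cons (.rf (nat_lit 4245) (nat_lit 323505631704065)) .nil))))),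
 (.br (nat_lit 2) (nat_lit 0) (.cons (.rf (nat_lit 4406) (nat_lit 493858305440582042688)) (.cons (.br (nat_lit 2) (nat_lit 0) (.cons (.rf (nat_lit 2862) (nat_lit 470946556380224)) (.cons (.rf (nat_lit 3259) (nat_lit 468816187590688)) (.cons (.rf (nat_lit 4245) (nat_lit 323505631704066)) .nil)))) (.cons (.br (nat_lit 2) (nat_lit 0) (.cons (.rf (nat_lit 2862) (nat_lit 469848118494272)) (.cons (.rf (nat_lit 3259) (nat_lit 468816187590688)) (.cons (.rf (nat_lit 4245) (nat_lit 323505631704066)) .nil)))) (.cons (.rf (nat_lit 4245) (nat_lit 323505631704066)) .nil))))),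
 (.br (nat_lit 2) (nat_lit 0) (.cons (.rf (nat_lit 2862) (nat_lit 470946556380224)) (.cons (.rf (nat_lit 2862) (nat_lit 463251250054208)) (.cons (.br (nat_lit 5) (nat_lit 0) (.cons (.ev (nat_lit 159699105548801206012908405760) (nat_lit 3)) (.cons (.br (nat_lit 12) (nat_lit 0) (.cons (.ev (nat_lit 79849550403993004374505816576) (nat_lit 2)) .nil)) .nil))) .nil)))),
 (.br (nat_lit 2) (nat_lit 0) (.cons (.rf (nat_lit 4406) (nat_lit 493858305440582042688)) (.cons (.rf (nat_lit 4408) (nat_lit 493858305440582043680)) (.cons (.rf (nat_lit 4406) (nat_lit 485787744960631637056)) (.cons (.br (nat_lit 2) (nat_lit 0) (.cons (.rf (nat_lit 4245) (nat_lit 323505631704066)) (.cons (.rf (nat_lit 4408) (nat_lit 493858305440582043680)) (.cons (.rf (nat_lit 4245) (nat_lit 221246759777282)) .nil)))) .nil))))),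
 (.br (nat_lit 2) (nat_lit 0) (.cons (.rf (nat_lit 4407) (nat_lit 493858305440582043680)) (.cons (.rf (nat_lit 4409) (nat_lit 493858305440582043680)) (.cons (.rf (nat_lit 4407) (nat_lit 485787744960631638048)) (.cons (.br (nat_lit 2) (nat_lit 0) (.cons (.rf (nat_lit 4245) (nat_lit 323505631704066)) (.cons (.rf (nat_lit 4409) (nat_lit 493858305440582043680)) (.cons (.rf (nat_lit 4245) (nat_lit 221246759777282)) .nil)))) .nil))))),
 (.br (nat_lit 1) (nat_lit 0) (.cons (.rf (nat_lit 4245) (nat_lit 323505631692801)) (.cons (.rf (nat_lit 4406) (nat_lit 493858305440582043680)) (.cons (.br (nat_lit 2) (nat_lit 0) (.cons (.rf (nat_lit 4407) (nat_lit 493858305440582043680)) (.cons (.rf (nat_lit 4409) (nat_lit 493858305440582043680)) (.cons (.rf (nat_lit 4410) (nat_lit 493858305440582043680)) (.cons (.rf (nat_lit 4407) (nat_lit 485787744960631638048)) (.cons (.br (nat_lit 2) (nat_lit 0) (.cons (.rf (nat_lit 4245) (nat_lit 323505631704066)) (.cons (.rf (nat_lit 4409) (nat_lit 493858305440582043680))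 (.cons (.rf (nat_lit 4410) (nat_lit 493858305440582043680)) (.cons (.rf (nat_lit 4245) (nat_lit 221246759777282)) .nil))))) .nil)))))) (.cons (.rf (nat_lit 4245) (nat_lit 323505631704065)) .nil))))),
 (.br (nat_lit 1) (nat_lit 0) (.cons (.rf (nat_lit 4245) (nat_lit 323505631692801)) (.cons (.rf (nat_lit 4406) (nat_lit 493858305440582043680)) (.cons (.rf (nat_lit 4411) (nat_lit 493858305440582043680)) (.cons (.br (nat_lit 1) (nat_lit 0) (.cons (.rf (nat_lit 4245) (nat_lit 323505631692801)) (.cons (.rf (nat_lit 4406) (nat_lit 493858305440582043680)) (.cons (.rf (nat_lit 4411) (nat_lit 493858305440582043680)) (.cons (.rf (nat_lit 4245) (nat_lit 323505631704065)) .nil))))) (.cons (.rf (nat_lit 4245) (nat_lit 323505631704065)) .nil)))))),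
 (.br (nat_lit 2) (nat_lit 0) (.cons (.rf (nat_lit 4402) (nat_lit 493858305440582043680)) (.cons (.rf (nat_lit 4412) (nat_lit 493858305440582042688)) (.cons (.rf (nat_lit 4412) (nat_lit 485787744960631637056)) (.cons (.br (nat_lit 2) (nat_lit 0) (.cons (.rf (nat_lit 1943) (nat_lit 427010)) (.cons (.rf (nat_lit 4245) (nat_lit 323505631704066)) (.cons (.rf (nat_lit 4245) (nat_lit 221246759777282)) .nil)))) .nil))))),
 (.br (nat_lit 2) (nat_lit 0) (.cons (.rf (nat_lit 4402) (nat_lit 493858305440582043680)) (.cons (.rf (nat_lit 4412) (nat_lit 493858305440582042688)) (.cons (.rf (nat_lit 4413) (nat_lit 493858305440582043680)) (.cons (.rf (nat_lit 4412) (nat_lit 485787744960631637056)) (.cons (.br (nat_lit 2) (nat_lit 0) (.cons (.rf (nat_lit 1943) (nat_lit 427010)) (.cons (.rf (nat_lit 4245) (nat_lit 323505631704066)) (.cons (.rf (nat_lit 4413) (nat_lit 493858305440582043680)) (.cons (.rf (nat_lit 4245) (nat_lit 221246759777282)) .nil))))) .nil)))))),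
 (.br (nat_lit 1) (nat_lit 0) (.cons (.rf (nat_lit 4402) (nat_lit 493858305440582043680)) (.cons (.rf (nat_lit 4412) (nat_lit 493858305440582043680)) (.cons (.rf (nat_lit 4414) (nat_lit 493858305440582043680)) (.cons (.rf (nat_lit 4412) (nat_lit 485787744960631638048)) (.cons (.br (nat_lit 1) (nat_lit 0) (.cons (.rf (nat_lit 1943) (nat_lit 428033)) (.cons (.rf (nat_lit 4245) (nat_lit 323505631704065)) (.cons (.rf (nat_lit 4414) (nat_lit 493858305440582043680)) (.cons (.rf (nat_lit 4245) (nat_lit 221246759777281)) .nil))))) .nil)))))),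
 (.br (nat_lit 7) (nat_lit 0) (.cons (.rf (nat_lit 4347) (nat_lit 14242959386694879264)) (.cons (.rf (nat_lit 4347) (nat_lit 14242959386694878272)) (.cons (.rf (nat_lit 4391) (nat_lit 14242959386694879264)) (.cons (.br (nat_lit 1) (nat_lit 0) (.cons (.rf (nat_lit 4392) (nat_lit 14242959524133701664)) (.cons (.rf (nat_lit 4395) (nat_lit 14242959524133701664)) (.cons (.br (nat_lit 1) (nat_lit 0) (.cons (.rf (nat_lit 4392) (nat_lit 14242959524133701664)) (.cons (.rf (nat_lit 4395) (nat_lit 14242959524133701664)) (.cons (.rf (nat_lit 4395) (nat_lit 6172399044183296032)) (.cons (.rf (nat_lit 4392) (nat_lit 14242959524133712928)) .nil))))) (.cons (.rf (nat_lit 4395) (nat_lit 6172399044183296032)) (.cons (.rf (nat_lit 4392) (nat_lit 14242959524133712928)) .nil)))))) (.cons (.br (nat_lit 1) (nat_lit 0) (.cons (.rf (nat_lit 4397) (nat_lit 14242959524133701664)) (.cons (.rf (nat_lit 4400) (nat_lit 14242959524133701664)) (.cons (.rf (nat_lit 4401) (nat_lit 14242959524133701664)) (.cons (.rf (nat_lit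 4401) (nat_lit 14208056489582757920)) (.cons (.rf (nat_lit 4400) (nat_lit 6172399044183296032)) (.cons (.rf (nat_lit 4397) (nat_lit 14242959524133712928)) .nil))))))) (.cons (.rf (nat_lit 4391) (nat_lit 6172398906744473632)) (.cons (.br (nat_lit 1) (nat_lit 0) (.cons (.rf (nat_lit 4402) (nat_lit 493858305440582043680)) (.cons (.rf (nat_lit 4412) (nat_lit 493858305440582043680)) (.cons (.rf (nat_lit 4414) (nat_lit 493858305440582043680)) (.cons (.rf (nat_lit 4415) (nat_lit 493858305440582043680)) (.cons (.rf (nat_lit 4412) (nat_lit 485787744960631638048)) (.cons (.br (nat_lit 1) (nat_lit 0) (.cons (.rf (nat_lit 1943) (nat_lit 428033)) (.cons (.rf (nat_lit 4245) (nat_lit 323505631704065)) (.cons (.rf (nat_lit 4414) (nat_lit 493858305440582043680)) (.cons (.rf (nat_lit 4415) (nat_lit 493858305440582043680)) (.cons (.rf (nat_lit 4245) (nat_lit 221246759777281)) .nil)))))) .nil))))))) .nil)))))))),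
 (.br (nat_lit 1) (nat_lit 0) (.cons (.rf (nat_lit 4245) (nat_lit 323505631692801)) (.cons (.kr (nat_lit 4722366764344621924354) (nat_lit 18446744078004519424) (nat_lit 0) (nat_lit 2)) (.cons (.rf (nat_lit 4245) (nat_lit 221246759766017)) (.cons (.rf (nat_lit 1943) (nat_lit 428033)) .nil))))),
 (.br (nat_lit 1) (nat_lit 0) (.cons (.rf (nat_lit 4245) (nat_lit 323505631692801)) (.cons (.rf (nat_lit 4417) (nat_lit 493858305440582043680)) (.cons (.rf (nat_lit 4417) (nat_lit 493823402543469922336)) (.cons (.rf (nat_lit 4245) (nat_lit 221246759766017)) (.cons (.rf (nat_lit 1943) (nat_lit 428033)) .nil)))))),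
 (.br (nat_lit 10) (nat_lit 0) (.cons (.rf (nat_lit 2868) (nat_lit 434627243247648)) (.cons (.rf (nat_lit 2871) (nat_lit 14237360848542730272)) .nil))),
 (.br (nat_lit 2) (nat_lit 0) (.cons (.rf (nat_lit 3259) (nat_lit 470979911452704)) (.cons (.br (nat_lit 5) (nat_lit 0) (.cons (.rf (nat_lit 2868) (nat_lit 470974645504032)) (.cons (.br (nat_lit 12) (nat_lit 0) (.cons (.ev (nat_lit 82083483308912403816382984881156) (nat_lit 4)) .nil)) .nil))) (.cons (.br (nat_lit 12) (nat_lit 0) (.cons (.br (nat_lit 12) (nat_lit 0) (.cons (.ev (nat_lit 81130259807256102966158220594184) (nat_lit 4)) .nil)) (.cons (.br (nat_lit 5) (nat_lit 0) (.cons (.ev (nat_lit 81130259807256102966158220594184) (nat_lit 4)) .nil)) .nil))) .nil)))),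
 (.br (nat_lit 2) (nat_lit 0) (.cons (.br (nat_lit 2) (nat_lit 0) (.cons (.rf (nat_lit 3259) (nat_lit 470979911452704)) (.cons (.rf (nat_lit 4419) (nat_lit 15433072009550071840)) (.cons (.rf (nat_lit 4245) (nat_lit 323505631704066)) .nil)))) (.cons (.rf (nat_lit 4420) (nat_lit 493858305440582043680)) (.cons (.br (nat_lit 2) (nat_lit 0) (.cons (.rf (nat_lit 4419) (nat_lit 15433072009550071840)) (.cons (.rf (nat_lit 4420) (nat_lit 493858305440582043680)) (.cons (.rf (nat_lit 4245) (nat_lit 221246759777282)) .nil)))) (.cons (.br (nat_lit 2) (nat_lit 0) (.cons (.rf (nat_lit 4245) (nat_lit 323505631704066)) (.cons (.rf (nat_lit 4420) (nat_lit 493858305440582043680)) (.cons (.rf (nat_lit 4245) (nat_lit 221246759777282)) .nil)))) .nil))))),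
 (.br (nat_lit 2) (nat_lit 0) (.cons (.rf (nat_lit 4245) (nat_lit 323505631704066)) (.cons (.rf (nat_lit 4421) (nat_lit 493858305440582043680)) (.cons (.rf (nat_lit 4421) (nat_lit 493823402543469922336)) (.cons (.rf (nat_lit 4245) (nat_lit 221246759777282)) .nil)))))]

theorem c163 : chkAll C T R L163 (nat_lit 4395) = true := by decide +kernel

theorem l163 : (nat_lit 4395) + L163.length = (nat_lit 4423) := by decide +kernel

/-- part of the certificates -/
def L164 : List Prf := [(.br (nat_lit 2) (nat_lit 0) (.cons (.rf (nat_lit 4421) (nat_lit 493823402543469922336)) (.cons (.br (nat_lit 2) (nat_lit 0) (.cons (.rf (nat_lit 4421) (nat_lit 493823402543469922336)) (.cons (.rf (nat_lit 4245) (nat_lit 221246759777282)) .nil))) (.cons (.rf (nat_lit 4422) (nat_lit 493858305440582043680)) .nil)))),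
 (.br (nat_lit 11) (nat_lit 0) (.cons (.rf (nat_lit 4421) (nat_lit 493823402543469922336)) (.cons (.rf (nat_lit 4423) (nat_lit 493823402543469922336)) (.cons (.rf (nat_lit 4353) (nat_lit 2493978463070103553)) (.cons (.br (nat_lit 13) (nat_lit 0) (.cons (.rf (nat_lit 4422) (nat_lit 493858305440582043680)) (.cons (.ev (nat_lit 20282410817299928580139637538816) (nat_lit 1)) (.cons (.br (nat_lit 2) (nat_lit 0) (.cons (.ev (nat_lit 20282719093383858252985132908801) (nat_lit 1)) .nil)) .nil)))) .nil))))),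
 (.br (nat_lit 2) (nat_lit 0) (.cons (.br (nat_lit 2) (nat_lit 0) .nil) .nil)),
 (.br (nat_lit 10) (nat_lit 0) (.cons (.rf (nat_lit 4421) (nat_lit 493858305440582043680)) (.cons (.rf (nat_lit 4423) (nat_lit 493858305440582043680)) (.cons (.kr (nat_lit 1208925819614629174706176) (nat_lit 309485009821345068724781056) (nat_lit 10) (nat_lit 0)) (.cons (.rf (nat_lit 4424) (nat_lit 493858305440582043680)) (.cons (.br (nat_lit 11) (nat_lit 0) (.cons (.rf (nat_lit 4421) (nat_lit 493823402543469922336)) (.cons (.rf (nat_lit 4423) (nat_lit 493823402543469922336)) (.cons (.rf (nat_lit 4424) (nat_lit 493823402543469922336)) (.cons (.br (nat_lit 2) (nat_lit 0) (.cons (.rf (nat_lit 4425) (nat_lit 14682585925664)) (.cons (.br (nat_lit 2) (nat_lit 0) (.cons (.rf (nat_lit 4425) (nat_lit 14682585925664)) .nil)) .nil))) .nil))))) .nil)))))),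
 (.br (nat_lit 2) (nat_lit 0) (.cons (.br (nat_lit 2) (nat_lit 0) (.cons (.rf (nat_lit 4419) (nat_lit 15433072009550070848)) (.cons (.rf (nat_lit 3259) (nat_lit 469914759563296)) (.cons (.rf (nat_lit 4245) (nat_lit 323505631704066)) .nil)))) (.cons (.br (nat_lit 2) (nat_lit 0) (.cons (.rf (nat_lit 4419) (nat_lit 15433072009550070848)) (.cons (.rf (nat_lit 4419) (nat_lit 15395987681368442912)) (.cons (.rf (nat_lit 4245) (nat_lit 323505631704066)) .nil)))) (.cons (.br (nat_lit 2) (nat_lit 0) (.cons (.rf (nat_lit 3259) (nat_lit 469914759563296)) (.cons (.rf (nat_lit 4419) (nat_lit 15395987681368442912)) (.cons (.rf (nat_lit 4245) (nat_lit 323505631704066)) .nil)))) (.cons (.rf (nat_lit 4245) (nat_lit 323505631704066)) .nil))))),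
 (.br (nat_lit 2) (nat_lit 0) (.cons (.rf (nat_lit 4419) (nat_lit 15433072009550070848)) (.cons (.rf (nat_lit 4419) (nat_lit 15180867135342740544)) (.cons (.br (nat_lit 11) (nat_lit 0) (.cons (.rf (nat_lit 4391) (nat_lit 14090929052783588354)) (.cons (.rf (nat_lit 4391) (nat_lit 6020334489045414914)) (.cons (.rf (nat_lit 4347) (nat_lit 14090929052783575458)) .nil)))) .nil)))),
 (.br (nat_lit 2) (nat_lit 0) (.cons (.rf (nat_lit 4427) (nat_lit 493858305440582043680)) (.cons (.rf (nat_lit 4428) (nat_lit 493858305440582043680)) (.cons (.rf (nat_lit 4427) (nat_lit 485787744960631638048)) (.cons (.br (nat_lit 2) (nat_lit 0) (.cons (.rf (nat_lit 4245) (nat_lit 323505631704066)) (.cons (.rf (nat_lit 4428) (nat_lit 493858305440582043680)) (.cons (.rf (nat_lit 4245) (nat_lit 221246759777282)) .nil)))) .nil))))),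
 (.br (nat_lit 2) (nat_lit 0) (.cons (.rf (nat_lit 4427) (nat_lit 493858305440582043680)) (.cons (.rf (nat_lit 4429) (nat_lit 493858305440582043680)) (.cons (.rf (nat_lit 4427) (nat_lit 485787744960631638048)) (.cons (.br (nat_lit 2) (nat_lit 0) (.cons (.rf (nat_lit 4245) (nat_lit 323505631704066)) (.cons (.rf (nat_lit 4429) (nat_lit 493858305440582043680)) (.cons (.rf (nat_lit 4245) (nat_lit 221246759777282)) .nil)))) .nil))))),
 (.br (nat_lit 1) (nat_lit 0) (.cons (.rf (nat_lit 4245) (nat_lit 323505631692801)) (.cons (.rf (nat_lit 4426) (nat_lit 493858305440582043680)) (.cons (.br (nat_lit 2) (nat_lit 0) (.cons (.rf (nat_lit 4427) (nat_lit 493858305440582043680)) (.cons (.rf (nat_lit 4429) (nat_lit 493858305440582043680)) (.cons (.rf (nat_lit 4430) (nat_lit 493858305440582043680)) (.cons (.rf (nat_lit 4427) (nat_lit 485787744960631638048)) (.cons (.br (nat_lit 2) (nat_lit 0) (.cons (.rf (nat_lit 4245) (nat_lit 323505631704066)) (.cons (.rf (nat_lit 4429) (nat_lit 493858305440582043680))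 (.cons (.rf (nat_lit 4430) (nat_lit 493858305440582043680)) (.cons (.rf (nat_lit 4245) (nat_lit 221246759777282)) .nil))))) .nil)))))) (.cons (.rf (nat_lit 4245) (nat_lit 323505631704065)) .nil))))),
 (.br (nat_lit 1) (nat_lit 0) (.cons (.rf (nat_lit 4245) (nat_lit 323505631692801)) (.cons (.rf (nat_lit 4431) (nat_lit 493858305440582043680)) (.cons (.rf (nat_lit 4431) (nat_lit 493823402543469922336)) (.cons (.br (nat_lit 1) (nat_lit 0) (.cons (.rf (nat_lit 4245) (nat_lit 323505631692801)) (.cons (.rf (nat_lit 4431) (nat_lit 493858305440582043680)) (.cons (.rf (nat_lit 4431) (nat_lit 493823402543469922336)) (.cons (.rf (nat_lit 4245) (nat_lit 323505631704065)) .nil))))) (.cons (.rf (nat_lit 4245) (nat_lit 323505631704065)) .nil)))))),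
 (.br (nat_lit 1) (nat_lit 0) (.cons (.kr (nat_lit 4722366764344621924354) (nat_lit 18446744078004519424) (nat_lit 0) (nat_lit 2)) (.cons (.rf (nat_lit 4432) (nat_lit 493858305440582043680)) (.cons (.rf (nat_lit 4432) (nat_lit 485787744960631638048)) (.cons (.br (nat_lit 10) (nat_lit 0) (.cons (.br (nat_lit 11) (nat_lit 0) (.cons (.br (nat_lit 5) (nat_lit 0) (.cons (.rf (nat_lit 4432) (nat_lit 493858305440582042688)) (.cons (.br (nat_lit 5) (nat_lit 0) (.cons (.rf (nat_lit 4432) (nat_lit 493858305440582042688)) (.cons (.rf (nat_lit 4432) (nat_lit 87877905381981487521)) .nil))) (.cons (.rf (nat_lit 4432) (nat_lit 87877905381981487521)) .nil)))) (.cons (.rf (nat_lit 4391) (nat_lit 14090929052783588353)) (.cons (.rf (nat_lit 4391) (nat_lit 6020334489045414913)) (.cons (.rf (nat_lit 4347) (nat_lit 14090929052783575457)) .nil))))) (.cons (.rf (nat_lit 4391) (nat_lit 14090929087143293953)) (.cons (.kr (nat_lit 1208925819614629174706176) (nat_lit 309485009821345068724781056) (nat_lit 10) (nat_lit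 0)) (.cons (.rf (nat_lit 4391) (nat_lit 6020334523405120513)) (.cons (.rf (nat_lit 4347) (nat_lit 14090929087143281057)) .nil)))))) .nil))))),
 (.br (nat_lit 1) (nat_lit 0) (.cons (.rf (nat_lit 4418) (nat_lit 493858305440582043680)) (.cons (.rf (nat_lit 4432) (nat_lit 493858305440582043680)) (.cons (.rf (nat_lit 4433) (nat_lit 493858305440582043680)) (.cons (.rf (nat_lit 4432) (nat_lit 485787744960631638048)) (.cons (.br (nat_lit 1) (nat_lit 0) (.cons (.rf (nat_lit 1943) (nat_lit 428033)) (.cons (.rf (nat_lit 4245) (nat_lit 323505631704065)) (.cons (.rf (nat_lit 4433) (nat_lit 493858305440582043680)) (.cons (.rf (nat_lit 4245) (nat_lit 221246759777281)) .nil))))) .nil)))))),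
 (.br (nat_lit 3) (nat_lit 0) (.cons (.rf (nat_lit 4347) (nat_lit 14242959524133701664)) (.cons (.rf (nat_lit 4347) (nat_lit 14242959524133700672)) (.cons (.rf (nat_lit 4391) (nat_lit 14242959524133701664)) (.cons (.kr (nat_lit 16777216) (nat_lit 72057594037927936) (nat_lit 3) (nat_lit 0)) (.cons (.rf (nat_lit 4416) (nat_lit 14242959524133701664)) (.cons (.rf (nat_lit 4416) (nat_lit 14208056627021580320)) (.cons (.rf (nat_lit 4391) (nat_lit 6172399044183296032)) (.cons (.br (nat_lit 7) (nat_lit 0) (.cons (.rf (nat_lit 4347) (nat_lit 14242959386694879264)) (.cons (.rf (nat_lit 4347) (nat_lit 14242959386694878272)) (.cons (.rf (nat_lit 4391) (nat_lit 14242959386694879264)) (.cons (.rf (nat_lit 4416) (nat_lit 14242959386694879264)) (.cons (.rf (nat_lit 4416) (nat_lit 14208056489582757920)) (.cons (.rf (nat_lit 4391) (nat_lit 6172398906744473632)) (.cons (.br (nat_lit 1) (nat_lit 0) (.cons (.rf (nat_lit 4418) (nat_lit 493858305440582043680)) (.cons (.rf (nat_lit 4432) (nat_lit 493858305440582043680))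 (.cons (.rf (nat_lit 4434) (nat_lit 493858305440582043680)) (.cons (.rf (nat_lit 4434) (nat_lit 493823402543469922336)) (.cons (.rf (nat_lit 4432) (nat_lit 485787744960631638048)) (.cons (.br (nat_lit 1) (nat_lit 0) (.cons (.rf (nat_lit 1943) (nat_lit 428033)) (.cons (.rf (nat_lit 4245) (nat_lit 323505631704065)) (.cons (.rf (nat_lit 4434) (nat_lit 493858305440582043680)) (.cons (.rf (nat_lit 4434) (nat_lit 493823402543469922336)) (.cons (.rf (nat_lit 4245) (nat_lit 221246759777281)) .nil)))))) .nil))))))) .nil)))))))) .nil))))))))),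
 (.br (nat_lit 5) (nat_lit 0) (.cons (.ev (nat_lit 3106944356487463489270450176) (nat_lit 4)) (.cons (.br (nat_lit 11) (nat_lit 0) (.cons (.ev (nat_lit 955087670011683516329784641032) (nat_lit 4)) (.cons (.rf (nat_lit 1960) (nat_lit 465511451297793)) .nil))) (.cons (.rf (nat_lit 1948) (nat_lit 14820738517272608)) .nil)))),
 (.br (nat_lit 11) (nat_lit 0) (.cons (.ev (nat_lit 4349719951189119280614214656) (nat_lit 4)) .nil)),
 (.br (nat_lit 5) (nat_lit 0) (.cons (.rf (nat_lit 4436) (nat_lit 14242959524133701664)) (.cons (.rf (nat_lit 4436) (nat_lit 14090929087143281728)) (.cons (.br (nat_lit 12) (nat_lit 0) (.cons (.rf (nat_lit 4436) (nat_lit 6172399044183296032)) (.cons (.rf (nat_lit 4436) (nat_lit 6020334523405108288)) (.cons (.br (nat_lit 13) (nat_lit 0) (.cons (.rf (nat_lit 4437) (nat_lit 493858305440582043680)) (.cons (.rf (nat_lit 4437) (nat_lit 493706275003591623744)) .nil))) .nil)))) .nil)))),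
 (.br (nat_lit 5) (nat_lit 0) (.cons (.rf (nat_lit 4436) (nat_lit 14242959524133701664)) (.cons (.rf (nat_lit 4436) (nat_lit 14090929087143281728)) (.cons (.rf (nat_lit 4438) (nat_lit 14242959524133701664)) (.cons (.br (nat_lit 5) (nat_lit 0) (.cons (.rf (nat_lit 1948) (nat_lit 14820738517272608)) (.cons (.rf (nat_lit 1948) (nat_lit 14825136422454336)) (.cons (.rf (nat_lit 4438) (nat_lit 14242959524133701664)) .nil)))) .nil))))),
 (.br (nat_lit 2) (nat_lit 0) (.cons (.kr (nat_lit 1) (nat_lit 65536) (nat_lit 0) (nat_lit 1)) (.cons (.rf (nat_lit 4245) (nat_lit 323505631691778)) (.cons (.br (nat_lit 1) (nat_lit 0) (.cons (.rf (nat_lit 4439) (nat_lit 14242959524133701664)) (.cons (.rf (nat_lit 4245) (nat_lit 323505631692801)) (.cons (.rf (nat_lit 4439) (nat_lit 13951317498694796290)) (.cons (.rf (nat_lit 4245) (nat_lit 221246759766017)) (.cons (.rf (nat_lit 1943) (nat_lit 428033)) .nil)))))) (.cons (.rf (nat_lit 4435) (nat_lit 14090929087143281666)) (.cons (.rf (nat_lit 4245) (nat_lit 221246759764994))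 (.cons (.rf (nat_lit 1943) (nat_lit 427010)) .nil))))))),
 (.br (nat_lit 1) (nat_lit 0) (.cons (.rf (nat_lit 4245) (nat_lit 323505631692801)) (.cons (.rf (nat_lit 4435) (nat_lit 14242959524133701633)) (.cons (.kr (nat_lit 1) (nat_lit 256) (nat_lit 0) (nat_lit 2)) (.cons (.br (nat_lit 2) (nat_lit 0) (.cons (.rf (nat_lit 4245) (nat_lit 323505631691778)) (.cons (.rf (nat_lit 4440) (nat_lit 14090929087143281728)) (.cons (.rf (nat_lit 4440) (nat_lit 14242959524133701664)) (.cons (.rf (nat_lit 4440) (nat_lit 14208056627021580289)) (.cons (.rf (nat_lit 4245) (nat_lit 221246759764994)) (.cons (.rf (nat_lit 1943) (nat_lit 427010)) .nil))))))) (.cons (.rf (nat_lit 4245) (nat_lit 221246759766017)) (.cons (.rf (nat_lit 1943) (nat_lit 428033)) .nil))))))),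
 (.br (nat_lit 1) (nat_lit 0) (.cons (.rf (nat_lit 4435) (nat_lit 14242959524133701633)) (.cons (.rf (nat_lit 4245) (nat_lit 323505631692801)) (.cons (.rf (nat_lit 4441) (nat_lit 14090929087143282720)) (.cons (.br (nat_lit 2) (nat_lit 0) (.cons (.rf (nat_lit 4441) (nat_lit 14242959524133700672)) (.cons (.rf (nat_lit 4245) (nat_lit 323505631691778)) (.cons (.rf (nat_lit 4441) (nat_lit 14208056489582755905)) (.cons (.rf (nat_lit 4441) (nat_lit 14090929087143281728)) (.cons (.rf (nat_lit 4441) (nat_lit 13951317464335089729)) (.cons (.rf (nat_lit 4245) (nat_lit 221246759764994)) (.cons (.rf (nat_lit 1943) (nat_lit 427010)) .nil)))))))) (.cons (.rf (nat_lit 4245) (nat_lit 221246759766017)) (.cons (.rf (nat_lit 1943) (nat_lit 428033)) .nil))))))),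
 (.br (nat_lit 1) (nat_lit 0) (.cons (.rf (nat_lit 4441) (nat_lit 14242959524133701664)) (.cons (.rf (nat_lit 4245) (nat_lit 323505631692801)) (.cons (.rf (nat_lit 4442) (nat_lit 14242959524133701664)) (.cons (.rf (nat_lit 4441) (nat_lit 14090929087143282720)) (.cons (.rf (nat_lit 4442) (nat_lit 14090929087143282720)) (.cons (.rf (nat_lit 4245) (nat_lit 221246759766017)) (.cons (.rf (nat_lit 1943) (nat_lit 428033)) .nil)))))))),
 (.br (nat_lit 11) (nat_lit 0) (.cons (.ev (nat_lit 282574505115649) (nat_lit 1)) (.cons (.br (nat_lit 1) (nat_lit 0) (.cons (.rf (nat_lit 2164) (nat_lit 8120887773216)) (.cons (.br (nat_lit 5) (nat_lit 0) (.cons (.ev (nat_lit 80778005525764508579264726020) (nat_lit 3)) (.cons (.rf (nat_lit 2173) (nat_lit 469911469360192)) .nil))) (.cons (.rf (nat_lit 2198) (nat_lit 15029644545033280)) .nil)))) (.cons (.br (nat_lit 1) (nat_lit 0) (.cons (.br (nat_lit 7) (nat_lit 0) (.cons (.zr (nat_lit 2422592452456201737863680) (nat_lit 309485009893965621306064899) (nat_lit 5)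 (nat_lit 0)) (.cons (.rf (nat_lit 2163) (nat_lit 15071255161275456)) .nil))) (.cons (.br (nat_lit 5) (nat_lit 0) (.cons (.ev (nat_lit 1213648186098598331613441) (nat_lit 1)) (.cons (.rf (nat_lit 2163) (nat_lit 15071186508907584)) .nil))) (.cons (.ev (nat_lit 79228167255077846011892269313) (nat_lit 1)) (.cons (.br (nat_lit 5) (nat_lit 0) (.cons (.rf (nat_lit 2175) (nat_lit 15071255161275456)) (.cons (.rf (nat_lit 2196) (nat_lit 469745039377472)) (.cons (.br (nat_lit 7) (nat_lit 0) (.cons (.rf (nat_lit 2196) (nat_lit 469676387009600)) (.cons (.br (nat_lit 12) (nat_lit 0) (.cons (.ev (nat_lit 20282720302328124611692328976385) (nat_lit 1)) .nil)) .nil))) .nil)))) .nil))))) (.cons (.br (nat_lit 1) (nat_lit 0) (.cons (.rf (nat_lit 2163) (nat_lit 15066994560829472)) (.cons (.rf (nat_lit 2163) (nat_lit 15064795604682784)) (.cons (.br (nat_lit 5) (nat_lit 0) (.cons (.ev (nat_lit 1213648186098598331613441) (nat_lit 1)) (.cons (.rf (nat_lit 2173) (nat_lit 463148178049056)) (.cons (.br (nat_lit 7)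 (nat_lit 0) (.cons (.ev (nat_lit 79229371458530696296428208129) (nat_lit 1)) (.cons (.ev (nat_lit 631064277342493952623247360) (nat_lit 4)) .nil))) .nil)))) (.cons (.br (nat_lit 7) (nat_lit 0) (.cons (.ev (nat_lit 309489750706912180622655745) (nat_lit 1)) (.cons (.br (nat_lit 5) (nat_lit 0) (.cons (.rf (nat_lit 2187) (nat_lit 14713655460928)) (.cons (.rf (nat_lit 3542) (nat_lit 15432892858913588288)) .nil))) (.cons (.zr (nat_lit 2417851639229258383098368) (nat_lit 309485009893684142034386947) (nat_lit 5) (nat_lit 0)) .nil)))) .nil))))) .nil))))),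
 (.br (nat_lit 1) (nat_lit 0) (.cons (.rf (nat_lit 4245) (nat_lit 221246759777281)) .nil)),
 (.br (nat_lit 11) (nat_lit 0) (.cons (.rf (nat_lit 4444) (nat_lit 14242959524133701664)) (.cons (.ev (nat_lit 282574505115649) (nat_lit 1)) (.cons (.br (nat_lit 5) (nat_lit 0) (.cons (.br (nat_lit 1) (nat_lit 0) (.cons (.ev (nat_lit 309489750706912180622655745) (nat_lit 1)) (.cons (.rf (nat_lit 4245) (nat_lit 323505631704065)) .nil))) (.cons (.ev (nat_lit 79537652264970967203973169153) (nat_lit 1)) (.cons (.br (nat_lit 13) (nat_lit 0) (.cons (.rf (nat_lit 4445) (nat_lit 493858305440582043680)) (.cons (.br (nat_lit 1) (nat_lit 0) (.cons (.rf (nat_lit 4445) (nat_lit 493858305440582043680)) .nil)) .nil))) .nil)))) (.cons (.br (nat_lit 1) (nat_lit 0) (.cons (.rf (nat_lit 2234) (nat_lit 15066788596614208)) (.cons (.br (nat_lit 1) (nat_lit 0) (.cons (.rf (nat_lit 2234) (nat_lit 15066788596614208)) (.cons (.rf (nat_lit 4245) (nat_lit 221246759777281)) .nil))) (.cons (.br (nat_lit 1) (nat_lit 0) (.cons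 (.ev (nat_lit 309489750706912180622655745) (nat_lit 1)) (.cons (.rf (nat_lit 4245) (nat_lit 221246759777281)) .nil))) .nil)))) .nil))))),
 (.br (nat_lit 1) (nat_lit 0) (.cons (.rf (nat_lit 1943) (nat_lit 428033)) (.cons (.rf (nat_lit 4245) (nat_lit 323505631704065)) (.cons (.rf (nat_lit 4435) (nat_lit 14242959524133712897)) (.cons (.rf (nat_lit 4245) (nat_lit 221246759777281)) .nil)))))]

theorem c164 : chkAll C T R L164 (nat_lit 4423) = true := by decide +kernel

theorem l164 : (nat_lit 4423) + L164.length = (nat_lit 4448) := by decide +kernel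

/-- part of the certificates -/
def L165 : List Prf := [(.br (nat_lit 1) (nat_lit 0) (.cons (.rf (nat_lit 2163) (nat_lit 15037099500962880)) (.cons (.ev (nat_lit 79228162514264337597855760641) (nat_lit 1)) (.cons (.rf (nat_lit 4245) (nat_lit 149918326338561)) .nil)))),
 (.br (nat_lit 1) (nat_lit 0) (.cons (.br (nat_lit 1) (nat_lit 0) (.cons (.rf (nat_lit 2163) (nat_lit 15037099500962880)) (.cons (.ev (nat_lit 618974834388420358190531072) (nat_lit 3)) .nil))) (.cons (.rf (nat_lit 4448) (nat_lit 493858305440582043680)) (.cons (.rf (nat_lit 4447) (nat_lit 493858305440582043680)) .nil)))),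
 (.br (nat_lit 1) (nat_lit 0) (.cons (.br (nat_lit 1) (nat_lit 0) (.cons (.ev (nat_lit 80157826488066792408077239040) (nat_lit 2)) (.cons (.rf (nat_lit 4245) (nat_lit 323505631704065)) .nil))) (.cons (.rf (nat_lit 4448) (nat_lit 493858305371929675808)) (.cons (.rf (nat_lit 4447) (nat_lit 493858305440582043680)) .nil)))),
 (.br (nat_lit 11) (nat_lit 0) (.cons (.rf (nat_lit 4444) (nat_lit 14242959524133701664)) (.cons (.ev (nat_lit 282574505115649) (nat_lit 1)) (.cons (.rf (nat_lit 4446) (nat_lit 14242959524133701664)) (.cons (.br (nat_lit 13) (nat_lit 0) (.cons (.rf (nat_lit 4447) (nat_lit 493858305440582043680)) (.cons (.rf (nat_lit 4449) (nat_lit 493858305440582043680)) (.cons (.rf (nat_lit 4450) (nat_lit 493858305440582043680)) (.cons (.br (nat_lit 13) (nat_lit 0) (.cons (.rf (nat_lit 4447) (nat_lit 493858305440582043680)) (.cons (.rf (nat_lit 4449) (nat_lit 493858305440582043680)) (.cons (.rf (nat_lit 4450) (nat_lit 493858305440582043680)) .nil)))) .nil))))) .nil))))),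
 (.br (nat_lit 11) (nat_lit 0) (.cons (.rf (nat_lit 4444) (nat_lit 14242959524133701664)) (.cons (.ev (nat_lit 282574505115649) (nat_lit 1)) (.cons (.rf (nat_lit 4446) (nat_lit 14242959524133701664)) (.cons (.rf (nat_lit 4451) (nat_lit 14242959524133701664)) (.cons (.br (nat_lit 11) (nat_lit 0) (.cons (.rf (nat_lit 4444) (nat_lit 14242959524133701664)) (.cons (.ev (nat_lit 282574505115649) (nat_lit 1)) (.cons (.rf (nat_lit 4446) (nat_lit 14242959524133701664)) (.cons (.rf (nat_lit 4451) (nat_lit 14242959524133701664)) .nil))))) .nil)))))),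
 (.br (nat_lit 12) (nat_lit 0) (.cons (.ev (nat_lit 955082834344718144575774133256) (nat_lit 4)) (.cons (.rf (nat_lit 3142) (nat_lit 463318866298912)) .nil))),
 (.br (nat_lit 1) (nat_lit 0) (.cons (.ev (nat_lit 313111787496926887389757441) (nat_lit 2)) (.cons (.br (nat_lit 11) (nat_lit 0) (.cons (.ev (nat_lit 158463583435229698726018680326) (nat_lit 3)) (.cons (.rf (nat_lit 2312) (nat_lit 470976628361248)) .nil))) (.cons (.rf (nat_lit 2330) (nat_lit 15066788603725856)) .nil)))),
 (.br (nat_lit 1) (nat_lit 0) (.cons (.ev (nat_lit 313111787496926887389757441) (nat_lit 2)) (.cons (.br (nat_lit 7) (nat_lit 0) (.cons (.ev (nat_lit 475376233418500068390129893890) (nat_lit 3)) (.cons (.rf (nat_lit 2312) (nat_lit 470843484375072)) .nil))) (.cons (.rf (nat_lit 2330) (nat_lit 15071186516019232)) .nil)))),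
 (.br (nat_lit 1) (nat_lit 0) (.cons (.br (nat_lit 12) (nat_lit 0) (.cons (.ev (nat_lit 475371397789008586185382298118) (nat_lit 3)) (.cons (.rf (nat_lit 3142) (nat_lit 465517887457312)) .nil))) (.cons (.br (nat_lit 10) (nat_lit 0) (.cons (.ev (nat_lit 159701523363546947115282728448) (nat_lit 3)) (.cons (.rf (nat_lit 2671) (nat_lit 15071186508908576)) .nil))) (.cons (.br (nat_lit 10) (nat_lit 0) (.cons (.ev (nat_lit 79537652264970967203973169408) (nat_lit 1)) (.cons (.rf (nat_lit 2341) (nat_lit 470974547986464)) .nil))) (.cons (.rf (nat_lit 4435) (nat_lit 14242959524133712897)) .nil))))),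
 (.br (nat_lit 1) (nat_lit 0) (.cons (.ev (nat_lit 623810574560929955015033860) (nat_lit 3)) .nil)),
 (.br (nat_lit 9) (nat_lit 0) (.cons (.br (nat_lit 9) (nat_lit 0) .nil) .nil)),
 (.br (nat_lit 12) (nat_lit 0) (.cons (.kr (nat_lit 158456329769341904329465921538) (nat_lit 618970019787086804797096448) (nat_lit 0) (nat_lit 2)) (.cons (.ev (nat_lit 79229376162450716571635548416) (nat_lit 1)) .nil))),
 (.br (nat_lit 1) (nat_lit 0) (.cons (.rf (nat_lit 4435) (nat_lit 14242959524133712897)) (.cons (.br (nat_lit 12) (nat_lit 0) (.cons (.rf (nat_lit 4459) (nat_lit 493858305440582043680)) (.cons (.rf (nat_lit 4459) (nat_lit 493706275003591624736)) (.cons (.rf (nat_lit 3346) (nat_lit 488129689265874503712)) .nil)))) (.cons (.br (nat_lit 10) (nat_lit 0) (.cons (.rf (nat_lit 2329) (nat_lit 470976628361248)) (.cons (.rf (nat_lit 2369) (nat_lit 15254087943892076576)) (.cons (.br (nat_lit 13) (nat_lit 0) (.cons (.ev (nat_lit 631064277342493952623249416) (nat_lit 4)) (.cons (.ev (nat_lit 20282719088679938795668468924416)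 (nat_lit 1)) .nil))) .nil)))) (.cons (.rf (nat_lit 4245) (nat_lit 221246759777281)) .nil))))),
 (.br (nat_lit 1) (nat_lit 0) (.cons (.br (nat_lit 12) (nat_lit 0) (.cons (.ev (nat_lit 162262374102162719729047033612296) (nat_lit 4)) .nil)) (.cons (.rf (nat_lit 4460) (nat_lit 493858305440582043680)) .nil))),
 (.br (nat_lit 13) (nat_lit 0) (.cons (.rf (nat_lit 4460) (nat_lit 493858305440582043680)) (.cons (.rf (nat_lit 4461) (nat_lit 493858305440582043680)) (.cons (.br (nat_lit 13) (nat_lit 0) (.cons (.rf (nat_lit 3346) (nat_lit 488129689265874503712)) (.cons (.rf (nat_lit 4461) (nat_lit 493858305440582043680)) .nil))) .nil)))),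
 (.br (nat_lit 1) (nat_lit 0) (.cons (.rf (nat_lit 4462) (nat_lit 493858305440582043680)) (.cons (.br (nat_lit 10) (nat_lit 0) (.cons (.ev (nat_lit 79228167255077846011892269313) (nat_lit 1)) (.cons (.br (nat_lit 12) (nat_lit 0) (.cons (.ev (nat_lit 447165021025727912375618232385542) (nat_lit 5)) .nil)) .nil))) (.cons (.rf (nat_lit 4460) (nat_lit 493858305440582043680)) .nil)))),
 (.br (nat_lit 1) (nat_lit 0) (.cons (.rf (nat_lit 4462) (nat_lit 493858305440582043680)) (.cons (.rf (nat_lit 4463) (nat_lit 493858305440582043680)) (.cons (.br (nat_lit 1) (nat_lit 0) (.cons (.rf (nat_lit 4462) (nat_lit 493858305440582043680)) (.cons (.rf (nat_lit 4463) (nat_lit 493858305440582043680)) (.cons (.rf (nat_lit 4245) (nat_lit 221246759777281)) .nil)))) (.cons (.rf (nat_lit 4460) (nat_lit 493858305440582043680)) .nil))))),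
 (.br (nat_lit 13) (nat_lit 0) (.cons (.rf (nat_lit 4460) (nat_lit 493858305440582043680)) (.cons (.ev (nat_lit 20282720302328124611692328976385) (nat_lit 1)) (.cons (.br (nat_lit 7) (nat_lit 0) (.cons (.br (nat_lit 1) (nat_lit 0) (.cons (.ev (nat_lit 40881734280026782027432635663362) (nat_lit 3)) .nil)) (.cons (.ev (nat_lit 40564821629932832882176127533060) (nat_lit 3)) .nil))) .nil)))),
 (.br (nat_lit 13) (nat_lit 0) (.cons (.rf (nat_lit 4460) (nat_lit 493858305440582043680)) (.cons (.rf (nat_lit 4464) (nat_lit 493858305440582043680)) (.cons (.rf (nat_lit 4465) (nat_lit 493858305440582043680)) (.cons (.br (nat_lit 13) (nat_lit 0) (.cons (.rf (nat_lit 4460) (nat_lit 493858305440582043680)) (.cons (.rf (nat_lit 4464) (nat_lit 493858305440582043680)) (.cons (.rf (nat_lit 4465) (nat_lit 493858305440582043680)) .nil)))) .nil))))),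
 (.br (nat_lit 13) (nat_lit 0) (.cons (.rf (nat_lit 4460) (nat_lit 493858305440582043680)) (.cons (.rf (nat_lit 4464) (nat_lit 493858305440582043680)) (.cons (.rf (nat_lit 4466) (nat_lit 493858305440582043680)) (.cons (.br (nat_lit 13) (nat_lit 0) (.cons (.rf (nat_lit 4460) (nat_lit 493858305440582043680)) (.cons (.rf (nat_lit 4464) (nat_lit 493858305440582043680)) (.cons (.rf (nat_lit 4466) (nat_lit 493858305440582043680)) .nil)))) .nil))))),
 (.br (nat_lit 1) (nat_lit 0) (.cons (.ev (nat_lit 18446745173238022144) (nat_lit 1)) (.cons (.br (nat_lit 11) (nat_lit 0) (.cons (.ev (nat_lit 282574505115649) (nat_lit 1)) (.cons (.ev (nat_lit 79228167236630820463205941249) (nat_lit 1)) (.cons (.rf (nat_lit 3142) (nat_lit 465484601460768)) .nil)))) (.cons (.br (nat_lit 11) (nat_lit 0) (.cons (.ev (nat_lit 282574505115649) (nat_lit 1)) (.cons (.zr (nat_lit 1856910058930040758728130560) (nat_lit 9685666322431575108616706) (nat_lit 20) (nat_lit 5)) (.cons (.ev (nat_lit 79228162532711363146541957121)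 (nat_lit 1)) (.cons (.br (nat_lit 10) (nat_lit 0) (.cons (.rf (nat_lit 2367) (nat_lit 470976628361248)) (.cons (.rf (nat_lit 2367) (nat_lit 463280281847840)) (.cons (.br (nat_lit 5) (nat_lit 0) (.cons (.rf (nat_lit 2313) (nat_lit 469911476471840)) (.cons (.br (nat_lit 12) (nat_lit 0) (.cons (.ev (nat_lit 121695697984615691757520343532550) (nat_lit 3)) .nil)) .nil))) .nil)))) .nil))))) (.cons (.ev (nat_lit 79228167255077846011892269056) (nat_lit 1)) (.cons (.rf (nat_lit 4435) (nat_lit 14242959524133712897)) .nil)))))),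
 (.br (nat_lit 11) (nat_lit 0) (.cons (.ev (nat_lit 282574505115649) (nat_lit 1)) (.cons (.ev (nat_lit 79228162532711363146541957121) (nat_lit 1)) (.cons (.br (nat_lit 5) (nat_lit 0) (.cons (.ev (nat_lit 80778005451976406384519414529) (nat_lit 3)) (.cons (.br (nat_lit 12) (nat_lit 0) (.cons (.ev (nat_lit 40644049787724728765458463982080) (nat_lit 2)) .nil)) .nil))) .nil)))),
 (.br (nat_lit 1) (nat_lit 0) (.cons (.ev (nat_lit 18446745173238022144) (nat_lit 1)) (.cons (.rf (nat_lit 4468) (nat_lit 14242959524133701664)) (.cons (.br (nat_lit 5) (nat_lit 0) (.cons (.ev (nat_lit 1208925819615732981301249) (nat_lit 1)) (.cons (.ev (nat_lit 282574505115649) (nat_lit 1)) (.cons (.br (nat_lit 7) (nat_lit 0) (.cons (.ev (nat_lit 952604536525477975459937783300) (nat_lit 4)) (.cons (.rf (nat_lit 4294) (nat_lit 469745209018400)) .nil))) (.cons (.br (nat_lit 7) (nat_lit 0) (.cons (.rf (nat_lit 2340) (nat_lit 469911476471840)) (.cons (.ev (nat_lit 79229376162450716571635548161) (nat_lit 1)) (.cons (.br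 (nat_lit 11) (nat_lit 0) (.cons (.ev (nat_lit 79228162532711363146541957121) (nat_lit 1)) (.cons (.br (nat_lit 12) (nat_lit 0) (.cons (.ev (nat_lit 40644047369836196048061251715586) (nat_lit 2)) .nil)) .nil))) .nil)))) .nil))))) (.cons (.ev (nat_lit 79228167255077846011892269056) (nat_lit 1)) (.cons (.br (nat_lit 11) (nat_lit 0) (.cons (.ev (nat_lit 282574505115649) (nat_lit 1)) (.cons (.rf (nat_lit 4469) (nat_lit 493858305440582043680)) (.cons (.ev (nat_lit 79228167236630820463205941249) (nat_lit 1)) (.cons (.br (nat_lit 11) (nat_lit 0) (.cons (.ev (nat_lit 282574505115649) (nat_lit 1)) (.cons (.rf (nat_lit 4469) (nat_lit 493858305440582043680)) (.cons (.ev (nat_lit 79228162532711363146541957121) (nat_lit 1)) .nil)))) .nil))))) .nil)))))),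
 (.br (nat_lit 12) (nat_lit 0) (.cons (.ev (nat_lit 40644054642354366645817332466180) (nat_lit 3)) .nil)),
 (.br (nat_lit 7) (nat_lit 0) (.cons (.ev (nat_lit 620193112562600008120074241) (nat_lit 2)) (.cons (.br (nat_lit 10) (nat_lit 0) (.cons (.ev (nat_lit 79848341496620133806139048451) (nat_lit 2)) .nil)) (.cons (.rf (nat_lit 4452) (nat_lit 14208056627021591553)) .nil)))),
 (.br (nat_lit 13) (nat_lit 0) (.cons (.rf (nat_lit 4452) (nat_lit 14208056627021591553)) (.cons (.br (nat_lit 5) (nat_lit 0) (.cons (.ev (nat_lit 20282412021558866341891450012160) (nat_lit 2)) .nil)) (.cons (.rf (nat_lit 4452) (nat_lit 6137496147071185921)) .nil)))),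
 (.br (nat_lit 1) (nat_lit 0) (.cons (.ev (nat_lit 18446745173238022144) (nat_lit 1)) (.cons (.rf (nat_lit 4468) (nat_lit 14242959524133701664)) (.cons (.rf (nat_lit 4470) (nat_lit 14242959524133701664)) (.cons (.ev (nat_lit 79228167255077846011892269056) (nat_lit 1)) (.cons (.br (nat_lit 11) (nat_lit 0) (.cons (.ev (nat_lit 282574505115649) (nat_lit 1)) (.cons (.br (nat_lit 10) (nat_lit 0) (.cons (.rf (nat_lit 2332) (nat_lit 469737765177376)) (.cons (.rf (nat_lit 2332) (nat_lit 469745046489120)) (.cons (.br (nat_lit 13) (nat_lit 0) (.cons (.rf (nat_lit 4471) (nat_lit 493858305440582043680)) (.cons (.rf (nat_lit 4471) (nat_lit 485787744960631638048)) .nil))) .nil)))) (.cons (.br (nat_lit 5) (nat_lit 0) (.cons (.ev (nat_lit 1208944266641281667629056) (nat_lit 1)) (.cons (.rf (nat_lit 2747) (nat_lit 470843477264416)) (.cons (.br (nat_lit 7) (nat_lit 0) (.cons (.ev (nat_lit 79229371440084233697695432704) (nat_lit 1)) (.cons (.br (nat_lit 12) (nat_lit 0) (.cons (.ev (nat_lit 81131502583072453776812183650818)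 (nat_lit 3)) .nil)) .nil))) .nil)))) (.cons (.ev (nat_lit 79228167236630820463205941249) (nat_lit 1)) (.cons (.br (nat_lit 13) (nat_lit 0) (.cons (.rf (nat_lit 4472) (nat_lit 493858305440582043680)) (.cons (.rf (nat_lit 4473) (nat_lit 493858305440582043680)) (.cons (.br (nat_lit 13) (nat_lit 0) (.cons (.rf (nat_lit 4472) (nat_lit 493858305440582043680)) (.cons (.rf (nat_lit 4473) (nat_lit 493858305440582043680)) (.cons (.rf (nat_lit 4472) (nat_lit 485787744960631638048)) .nil)))) (.cons (.rf (nat_lit 4472) (nat_lit 485787744960631638048)) .nil))))) .nil)))))) .nil)))))),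
 (.br (nat_lit 2) (nat_lit 0) (.cons (.rf (nat_lit 4245) (nat_lit 323505631691778)) (.cons (.rf (nat_lit 4452) (nat_lit 14242959524133701664)) (.cons (.br (nat_lit 5) (nat_lit 0) (.cons (.br (nat_lit 1) (nat_lit 0) (.cons (.br (nat_lit 10) (nat_lit 0) (.cons (.rf (nat_lit 2743) (nat_lit 12348202223648)) (.cons (.br (nat_lit 11) (nat_lit 0) (.cons (.ev (nat_lit 318781654300185357215511348232) (nat_lit 4)) (.cons (.rf (nat_lit 2317) (nat_lit 470837243250720)) .nil))) (.cons (.rf (nat_lit 2671) (nat_lit 15066994553718816)) .nil)))) (.cons (.br (nat_lit 12) (nat_lit 0) (.cons (.rf (nat_lit 4453) (nat_lit 14242959524133701664)) (.cons (.rf (nat_lit 4453) (nat_lit 14090929087143282720)) (.cons (.rf (nat_lit 3142) (nat_lit 463318866298912)) .nil)))) (.cons (.br (nat_lit 7) (nat_lit 0) (.cons (.ev (nat_lit 1208925819615732981301249) (nat_lit 1)) (.cons (.br (nat_lit 10) (nat_lit 0) (.cons (.ev (nat_lit 3097272949932798221192529920) (nat_lit 4)) (.cons (.rf (nat_lit 2671) (nat_lit 15071255161276448))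 .nil))) (.cons (.rf (nat_lit 3164) (nat_lit 15029645689849888)) .nil)))) (.cons (.br (nat_lit 7) (nat_lit 0) (.cons (.ev (nat_lit 1213666633124147017809921) (nat_lit 1)) (.cons (.br (nat_lit 10) (nat_lit 0) (.cons (.ev (nat_lit 1861750614133414723338634240) (nat_lit 3)) (.cons (.rf (nat_lit 2313) (nat_lit 470974547986464)) .nil))) (.cons (.rf (nat_lit 3911) (nat_lit 12876114840284104736)) (.cons (.br (nat_lit 10) (nat_lit 0) (.cons (.rf (nat_lit 2312) (nat_lit 470837243250720)) (.cons (.rf (nat_lit 2314) (nat_lit 470974547986464)) (.cons (.rf (nat_lit 3959) (nat_lit 15390176734598203424)) .nil)))) .nil))))) (.cons (.rf (nat_lit 4245) (nat_lit 323505631704065)) .nil)))))) (.cons (.br (nat_lit 1) (nat_lit 0) (.cons (.ev (nat_lit 1208925819615732981301249) (nat_lit 1)) (.cons (.ev (nat_lit 309489750706912180622655488) (nat_lit 1)) (.cons (.br (nat_lit 1) (nat_lit 0) (.cons (.ev (nat_lit 1208925819615732981301249) (nat_lit 1)) (.cons (.ev (nat_lit 309485009893403766586146816) (nat_lit 1))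 (.cons (.rf (nat_lit 4245) (nat_lit 221246759777281)) .nil)))) (.cons (.br (nat_lit 1) (nat_lit 0) (.cons (.ev (nat_lit 1208925819615732981301249) (nat_lit 1)) (.cons (.ev (nat_lit 309485009893403766586146816) (nat_lit 1)) (.cons (.rf (nat_lit 4245) (nat_lit 221246759777281)) .nil)))) .nil))))) (.cons (.br (nat_lit 1) (nat_lit 0) (.cons (.rf (nat_lit 4454) (nat_lit 14242959524133701664)) (.cons (.rf (nat_lit 4455) (nat_lit 14242959524133701664)) (.cons (.br (nat_lit 1) (nat_lit 0) (.cons (.rf (nat_lit 4454) (nat_lit 14242959524133701664)) (.cons (.rf (nat_lit 4455) (nat_lit 14242959524133701664)) (.cons (.rf (nat_lit 4245) (nat_lit 221246759777281)) .nil)))) (.cons (.br (nat_lit 1) (nat_lit 0) (.cons (.rf (nat_lit 2330) (nat_lit 15066788603725856)) (.cons (.rf (nat_lit 2330) (nat_lit 15071186516019232)) (.cons (.rf (nat_lit 4245) (nat_lit 221246759777281)) .nil)))) .nil))))) (.cons (.ev (nat_lit 282574505115649) (nat_lit 1)) (.cons (.br (nat_lit 7) (nat_lit 0) (.cons (.rf (nat_lit 4456)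 (nat_lit 14242959524133701664)) (.cons (.ev (nat_lit 1208944266641281667629056) (nat_lit 1)) (.cons (.br (nat_lit 10) (nat_lit 0) (.cons (.br (nat_lit 1) (nat_lit 0) (.cons (.ev (nat_lit 477859367236166614378843868676) (nat_lit 4)) (.cons (.br (nat_lit 13) (nat_lit 0) (.cons (.ev (nat_lit 80778005451976406384519415557) (nat_lit 3)) .nil)) .nil))) (.cons (.ev (nat_lit 318774400671191886582195159040) (nat_lit 3)) (.cons (.br (nat_lit 13) (nat_lit 0) (.cons (.rf (nat_lit 4457) (nat_lit 493858305440582043680)) (.cons (.br (nat_lit 1) (nat_lit 0) (.cons (.rf (nat_lit 4457) (nat_lit 493858305440582043680)) .nil)) .nil))) .nil)))) (.cons (.br (nat_lit 11) (nat_lit 0) (.cons (.br (nat_lit 1) (nat_lit 0) (.cons (.ev (nat_lit 475376233418500068390129893890) (nat_lit 3)) (.cons (.rf (nat_lit 4458) (nat_lit 470979911452704)) .nil))) (.cons (.rf (nat_lit 4162) (nat_lit 13583074297888)) (.cons (.rf (nat_lit 4299) (nat_lit 470976790890528)) .nil)))) (.cons (.br (nat_lit 10) (nat_lit 0) (.cons (.br (nat_lit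 1) (nat_lit 0) (.cons (.rf (nat_lit 4456) (nat_lit 14090929087143282720)) (.cons (.rf (nat_lit 2340) (nat_lit 470974547986464)) (.cons (.br (nat_lit 11) (nat_lit 0) (.cons (.ev (nat_lit 79538856449977354889776333056) (nat_lit 1)) (.cons (.br (nat_lit 12) (nat_lit 0) (.cons (.ev (nat_lit 162259907893491282346282802743296) (nat_lit 4)) .nil)) .nil))) .nil)))) (.cons (.rf (nat_lit 3958) (nat_lit 465277434529824)) (.cons (.rf (nat_lit 3131) (nat_lit 470976790890528)) (.cons (.br (nat_lit 11) (nat_lit 0) (.cons (.br (nat_lit 1) (nat_lit 0) (.cons (.ev (nat_lit 631064277342493952623249416) (nat_lit 4)) (.cons (.br (nat_lit 12) (nat_lit 0) (.cons (.ev (nat_lit 366992912306251704549449393898524) (nat_lit 5)) .nil)) .nil))) (.cons (.rf (nat_lit 4299) (nat_lit 470843646904352)) (.cons (.br (nat_lit 13) (nat_lit 0) (.cons (.ev (nat_lit 20282409608374109246989717798913) (nat_lit 1)) (.cons (.ev (nat_lit 20282409603651742764115777552384) (nat_lit 1)) .nil))) .nil)))) .nil))))) .nil)))))) (.cons (.br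 (nat_lit 13) (nat_lit 0) (.cons (.rf (nat_lit 4460) (nat_lit 493858305440582043680)) (.cons (.rf (nat_lit 4464) (nat_lit 493858305440582043680)) (.cons (.rf (nat_lit 4466) (nat_lit 493858305440582043680)) (.cons (.rf (nat_lit 4467) (nat_lit 493858305440582043680)) (.cons (.br (nat_lit 13) (nat_lit 0) (.cons (.rf (nat_lit 4460) (nat_lit 493858305440582043680)) (.cons (.rf (nat_lit 4464) (nat_lit 493858305440582043680)) (.cons (.rf (nat_lit 4466) (nat_lit 493858305440582043680)) (.cons (.rf (nat_lit 4467) (nat_lit 493858305440582043680)) .nil))))) .nil)))))) .nil))))))) (.cons (.br (nat_lit 1) (nat_lit 0) (.cons (.ev (nat_lit 18446745173238022144) (nat_lit 1)) (.cons (.rf (nat_lit 4468) (nat_lit 14242959524133701664)) (.cons (.rf (nat_lit 4470) (nat_lit 14242959524133701664)) (.cons (.rf (nat_lit 4474) (nat_lit 14242959524133701664)) (.cons (.ev (nat_lit 79228167255077846011892269056) (nat_lit 1)) (.cons (.br (nat_lit 1) (nat_lit 0) (.cons (.ev (nat_lit 18446745173238022144) (nat_lit 1))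 (.cons (.rf (nat_lit 4435) (nat_lit 14242959524133712897)) (.cons (.rf (nat_lit 4470) (nat_lit 14242959524133701664)) (.cons (.rf (nat_lit 4474) (nat_lit 14242959524133701664)) (.cons (.ev (nat_lit 79228167255077846011892269056) (nat_lit 1)) .nil)))))) .nil))))))) (.cons (.rf (nat_lit 4245) (nat_lit 323505631704066)) .nil))))))]

theorem c165 : chkAll C T R L165 (nat_lit 4448) = true := by decide +kernel

theorem l165 : (nat_lit 4448) + L165.length = (nat_lit 4476) := by decide +kernel

/-- part of the certificates -/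
def L166 : List Prf := [(.br (nat_lit 10) (nat_lit 0) (.cons (.rf (nat_lit 2233) (nat_lit 361885525574720)) (.cons (.br (nat_lit 10) (nat_lit 0) (.cons (.rf (nat_lit 2233) (nat_lit 361885525574720)) .nil)) .nil))),
 (.br (nat_lit 1) (nat_lit 0) (.cons (.rf (nat_lit 2164) (nat_lit 4782791165984)) (.cons (.rf (nat_lit 2200) (nat_lit 156720340596458560)) (.cons (.rf (nat_lit 4476) (nat_lit 13909139050825760)) .nil)))),
 (.br (nat_lit 1) (nat_lit 0) (.cons (.br (nat_lit 7) (nat_lit 0) (.cons (.ev (nat_lit 79537647524158021731300147201) (nat_lit 1)) (.cons (.rf (nat_lit 2163) (nat_lit 15064658299947040)) .nil))) (.cons (.br (nat_lit 7) (nat_lit 0) (.cons (.ev (nat_lit 80778005451976406384519413764) (nat_lit 3)) (.cons (.rf (nat_lit 2173) (nat_lit 463285482784800)) .nil))) (.cons (.rf (nat_lit 4435) (nat_lit 14242959524133712897)) .nil)))),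
 (.br (nat_lit 1) (nat_lit 0) (.cons (.rf (nat_lit 4478) (nat_lit 14242959524133701664)) (.cons (.zr (nat_lit 79228167255077565636410343680) (nat_lit 309485009821626548013236224) (nat_lit 5) (nat_lit 12)) (.cons (.rf (nat_lit 4476) (nat_lit 14895432321828896)) .nil)))),
 (.br (nat_lit 1) (nat_lit 0) (.cons (.rf (nat_lit 4435) (nat_lit 14242959524133712897)) (.cons (.br (nat_lit 7) (nat_lit 0) (.cons (.br (nat_lit 7) (nat_lit 0) (.cons (.rf (nat_lit 4475) (nat_lit 14208056627021591553)) .nil)) (.cons (.rf (nat_lit 4475) (nat_lit 14208056627021591553)) .nil))) (.cons (.ev (nat_lit 1208944266641281667629313) (nat_lit 1)) .nil)))),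
 (.br (nat_lit 13) (nat_lit 0) (.cons (.rf (nat_lit 4480) (nat_lit 493858305440582043680)) (.cons (.br (nat_lit 7) (nat_lit 0) (.cons (.br (nat_lit 1) (nat_lit 0) (.cons (.ev (nat_lit 621392796997474758705808384) (nat_lit 4)) .nil)) (.cons (.ev (nat_lit 121695697984652586934517623029760) (nat_lit 3)) .nil))) .nil))),
 (.br (nat_lit 13) (nat_lit 0) (.cons (.rf (nat_lit 4480) (nat_lit 493858305440582043680)) (.cons (.rf (nat_lit 4481) (nat_lit 493858305440582043680)) (.cons (.br (nat_lit 13) (nat_lit 0) (.cons (.rf (nat_lit 4480) (nat_lit 493858305440582043680)) (.cons (.rf (nat_lit 4481) (nat_lit 493858305440582043680)) .nil))) .nil)))),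
 (.br (nat_lit 13) (nat_lit 0) (.cons (.rf (nat_lit 4480) (nat_lit 493858305440582043680)) (.cons (.rf (nat_lit 4482) (nat_lit 493858305440582043680)) (.cons (.br (nat_lit 13) (nat_lit 0) (.cons (.rf (nat_lit 4480) (nat_lit 493858305440582043680)) (.cons (.rf (nat_lit 4482) (nat_lit 493858305440582043680)) .nil))) .nil)))),
 (.br (nat_lit 1) (nat_lit 0) (.cons (.rf (nat_lit 4475) (nat_lit 14090929087143281728)) (.cons (.br (nat_lit 5) (nat_lit 0) (.cons (.ev (nat_lit 1213648186098598331613441) (nat_lit 1)) (.cons (.ev (nat_lit 282574505115649) (nat_lit 1)) (.cons (.ev (nat_lit 475373815566573171714071724032) (nat_lit 3)) (.cons (.br (nat_lit 12) (nat_lit 0) (.cons (.ev (nat_lit 79229376180897179170368454913) (nat_lit 1)) (.cons (.ev (nat_lit 79228167236630820463205941249) (nat_lit 1)) (.cons (.ev (nat_lit 79230594569896788390349766656) (nat_lit 2)) .nil)))) .nil))))) (.cons (.rf (nat_lit 4475) (nat_lit 6020334523405108288)) (.cons (.br (nat_lit 5) (nat_lit 0) (.cons (.br (nat_lit 12) (nat_lit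 0) (.cons (.ev (nat_lit 79230594569896788390349766656) (nat_lit 2)) (.cons (.ev (nat_lit 79228167236630820463205941249) (nat_lit 1)) (.cons (.ev (nat_lit 79229376180897179170368454913) (nat_lit 1)) .nil)))) (.cons (.ev (nat_lit 282574505115649) (nat_lit 1)) (.cons (.ev (nat_lit 475373815566573171714071724032) (nat_lit 3)) (.cons (.ev (nat_lit 1208944266641281667629313) (nat_lit 1)) .nil))))) .nil))))),
 (.br (nat_lit 1) (nat_lit 0) (.cons (.rf (nat_lit 2234) (nat_lit 15066788603725856)) (.cons (.ev (nat_lit 79230585088270897445003722752) (nat_lit 2)) (.cons (.rf (nat_lit 4245) (nat_lit 286260986033153)) .nil)))),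
 (.br (nat_lit 1) (nat_lit 0) (.cons (.rf (nat_lit 4485) (nat_lit 485787744960631638048)) (.cons (.br (nat_lit 1) (nat_lit 0) (.cons (.kr (nat_lit 1208925891672223212634368) (nat_lit 309485009821345068741623808) (nat_lit 1) (nat_lit 0)) .nil)) .nil))),
 (.br (nat_lit 11) (nat_lit 0) (.cons (.rf (nat_lit 4484) (nat_lit 14242959524133701664)) (.cons (.ev (nat_lit 282574505115649) (nat_lit 1)) (.cons (.ev (nat_lit 79228167236630820463205941249) (nat_lit 1)) (.cons (.br (nat_lit 5) (nat_lit 0) (.cons (.rf (nat_lit 4485) (nat_lit 493858305440582043680)) (.cons (.rf (nat_lit 4486) (nat_lit 493858305440582043680)) (.cons (.ev (nat_lit 475373815566573171714071724032) (nat_lit 3)) (.cons (.br (nat_lit 12) (nat_lit 0) (.cons (.rf (nat_lit 4485) (nat_lit 485787744960631638048)) (.cons (.rf (nat_lit 4486) (nat_lit 485787744960631638048)) (.cons (.ev (nat_lit 79230594569896788390349766656) (nat_lit 2)) .nil)))) .nil))))) .nil))))),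
 (.br (nat_lit 2) (nat_lit 0) (.cons (.rf (nat_lit 4245) (nat_lit 323505631691778)) (.cons (.rf (nat_lit 4475) (nat_lit 14242959524133701664)) (.cons (.br (nat_lit 5) (nat_lit 0) (.cons (.br (nat_lit 1) (nat_lit 0) (.cons (.br (nat_lit 7) (nat_lit 0) (.cons (.rf (nat_lit 2164) (nat_lit 12514639317024)) (.cons (.br (nat_lit 11) (nat_lit 0) (.cons (.zr (nat_lit 2422592452456201737863680) (nat_lit 309485009893965621306064899) (nat_lit 5) (nat_lit 0)) (.cons (.rf (nat_lit 2163) (nat_lit 15066994553717824)) .nil))) (.cons (.rf (nat_lit 2163) (nat_lit 15071255168387104)) .nil)))) (.cons (.ev (nat_lit 1240362742420275646073013760) (nat_lit 3)) (.cons (.rf (nat_lit 2200) (nat_lit 410083932795896896)) (.cons (.rf (nat_lit 4245) (nat_lit 323505631704065)) .nil))))) (.cons (.br (nat_lit 1) (nat_lit 0) (.cons (.br (nat_lit 1) (nat_lit 0) (.cons (.rf (nat_lit 2164) (nat_lit 5917770876960)) (.cons (.ev (nat_lit 1213648186098598331613441) (nat_lit 1)) (.cons (.rf (nat_lit 2198) (nat_lit 14895501978960960))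 .nil)))) (.cons (.rf (nat_lit 4477) (nat_lit 445092485129144352)) (.cons (.br (nat_lit 1) (nat_lit 0) (.cons (.ev (nat_lit 1213648186098598331613441) (nat_lit 1)) (.cons (.rf (nat_lit 2200) (nat_lit 193911356840543296)) (.cons (.rf (nat_lit 4245) (nat_lit 221246759777281)) .nil)))) (.cons (.br (nat_lit 1) (nat_lit 0) (.cons (.rf (nat_lit 2198) (nat_lit 14895501978960960)) (.cons (.rf (nat_lit 4476) (nat_lit 15071358309468192)) (.cons (.rf (nat_lit 4245) (nat_lit 221246759777281)) .nil)))) .nil))))) (.cons (.ev (nat_lit 282574505115649) (nat_lit 1)) (.cons (.br (nat_lit 1) (nat_lit 0) (.cons (.rf (nat_lit 4478) (nat_lit 14242959524133701664)) (.cons (.rf (nat_lit 4479) (nat_lit 14242959524133701664)) (.cons (.br (nat_lit 1) (nat_lit 0) (.cons (.rf (nat_lit 4478) (nat_lit 14242959524133701664)) (.cons (.zr (nat_lit 79228167255077565636410343680) (nat_lit 309485009821626548013236224) (nat_lit 5) (nat_lit 12)) (.cons (.rf (nat_lit 4245) (nat_lit 221246759777281)) .nil)))) (.cons (.br (nat_lit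 1) (nat_lit 0) (.cons (.rf (nat_lit 4435) (nat_lit 14242959524133712897)) (.cons (.rf (nat_lit 4476) (nat_lit 14895432321828896)) (.cons (.rf (nat_lit 4245) (nat_lit 221246759777281)) .nil)))) .nil))))) (.cons (.br (nat_lit 13) (nat_lit 0) (.cons (.rf (nat_lit 4480) (nat_lit 493858305440582043680)) (.cons (.rf (nat_lit 4482) (nat_lit 493858305440582043680)) (.cons (.rf (nat_lit 4483) (nat_lit 493858305440582043680)) (.cons (.br (nat_lit 13) (nat_lit 0) (.cons (.rf (nat_lit 4480) (nat_lit 493858305440582043680)) (.cons (.rf (nat_lit 4482) (nat_lit 493858305440582043680)) (.cons (.rf (nat_lit 4483) (nat_lit 493858305440582043680)) .nil)))) .nil))))) .nil)))))) (.cons (.br (nat_lit 11) (nat_lit 0) (.cons (.rf (nat_lit 4484) (nat_lit 14242959524133701664)) (.cons (.ev (nat_lit 282574505115649) (nat_lit 1)) (.cons (.rf (nat_lit 4487) (nat_lit 14242959524133701664)) (.cons (.ev (nat_lit 79228167236630820463205941249) (nat_lit 1)) (.cons (.br (nat_lit 11) (nat_lit 0) (.cons (.rf (nat_lit 4484)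 (nat_lit 14242959524133701664)) (.cons (.ev (nat_lit 282574505115649) (nat_lit 1)) (.cons (.rf (nat_lit 4487) (nat_lit 14242959524133701664)) (.cons (.ev (nat_lit 79228162532711363146541957121) (nat_lit 1)) .nil))))) .nil)))))) (.cons (.rf (nat_lit 4245) (nat_lit 323505631704066)) .nil)))))),
 (.br (nat_lit 7) (nat_lit 0) (.cons (.ev (nat_lit 1208944266641281667629056) (nat_lit 1)) (.cons (.rf (nat_lit 4458) (nat_lit 465482521085984)) (.cons (.br (nat_lit 12) (nat_lit 0) (.cons (.ev (nat_lit 79538856449977354889776333056) (nat_lit 1)) (.cons (.rf (nat_lit 4475) (nat_lit 6137496147071185921)) .nil))) .nil)))),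
 (.br (nat_lit 1) (nat_lit 0) (.cons (.rf (nat_lit 3656) (nat_lit 8264391577210816544)) (.cons (.ev (nat_lit 1208944266641281667629056) (nat_lit 1)) (.cons (.ev (nat_lit 79228162532711084978706842112) (nat_lit 2)) (.cons (.rf (nat_lit 4245) (nat_lit 323505631704065)) .nil))))),
 (.br (nat_lit 1) (nat_lit 0) (.cons (.br (nat_lit 7) (nat_lit 0) (.cons (.ev (nat_lit 79537647542604484330033053953) (nat_lit 1)) (.cons (.rf (nat_lit 2367) (nat_lit 470837243250720)) .nil))) (.cons (.ev (nat_lit 79228162532711084978706842112) (nat_lit 2)) (.cons (.rf (nat_lit 4245) (nat_lit 323505631704065)) .nil)))),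
 (.br (nat_lit 12) (nat_lit 0) (.cons (.rf (nat_lit 4491) (nat_lit 6172399044183296032)) (.cons (.ev (nat_lit 1223093063462100203143171) (nat_lit 2)) (.cons (.rf (nat_lit 3958) (nat_lit 470774824896544)) .nil)))),
 (.br (nat_lit 1) (nat_lit 0) (.cons (.br (nat_lit 13) (nat_lit 0) (.cons (.rf (nat_lit 3912) (nat_lit 15390179135323441184)) (.cons (.br (nat_lit 13) (nat_lit 0) (.cons (.rf (nat_lit 3912) (nat_lit 15390179135323441184)) (.cons (.ev (nat_lit 79229371440084233697695432704) (nat_lit 1)) .nil))) (.cons (.rf (nat_lit 3334) (nat_lit 15252928196258138144)) .nil)))) (.cons (.ev (nat_lit 1208944266641281667629056) (nat_lit 1)) (.cons (.ev (nat_lit 79228162532711084978706842112) (nat_lit 2)) (.cons (.rf (nat_lit 4245) (nat_lit 323505631704065)) .nil))))),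
 (.br (nat_lit 2) (nat_lit 0) (.cons (.rf (nat_lit 4245) (nat_lit 323505631691778)) (.cons (.rf (nat_lit 4475) (nat_lit 14242959524133701664)) (.cons (.rf (nat_lit 4488) (nat_lit 14242959524133701664)) (.cons (.br (nat_lit 11) (nat_lit 0) (.cons (.br (nat_lit 1) (nat_lit 0) (.cons (.rf (nat_lit 2744) (nat_lit 438228333798688800)) (.cons (.br (nat_lit 10) (nat_lit 0) (.cons (.rf (nat_lit 3642) (nat_lit 8508575514335741984)) (.cons (.br (nat_lit 5) (nat_lit 0) (.cons (.ev (nat_lit 159699105549089436388993269760) (nat_lit 3)) (.cons (.rf (nat_lit 2314) (nat_lit 465517724928032)) .nil))) (.cons (.rf (nat_lit 3642) (nat_lit 8264391577210816544)) (.cons (.rf (nat_lit 3959) (nat_lit 15432892858913589280)) .nil))))) (.cons (.rf (nat_lit 4475) (nat_lit 14090929087143282720)) (.cons (.rf (nat_lit 2744) (nat_lit 193911356840544288)) (.cons (.br (nat_lit 5) (nat_lit 0) (.cons (.rf (nat_lit 4489) (nat_lit 493858305440582043680)) (.cons (.rf (nat_lit 2330) (nat_lit 14895260528379936)) (.cons (.rf (nat_lit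 2336) (nat_lit 465484438931488)) (.cons (.br (nat_lit 7) (nat_lit 0) (.cons (.br (nat_lit 7) (nat_lit 0) (.cons (.ev (nat_lit 79229371440084233697695432704) (nat_lit 1)) (.cons (.ev (nat_lit 623810463879902562804433412) (nat_lit 3)) .nil))) (.cons (.rf (nat_lit 4489) (nat_lit 485787744960631638048)) (.cons (.rf (nat_lit 4475) (nat_lit 14208056627021591553)) .nil)))) .nil))))) .nil)))))) (.cons (.ev (nat_lit 282574505115649) (nat_lit 1)) (.cons (.br (nat_lit 1) (nat_lit 0) (.cons (.rf (nat_lit 4490) (nat_lit 14242959524133701664)) (.cons (.br (nat_lit 1) (nat_lit 0) (.cons (.rf (nat_lit 3656) (nat_lit 8264391577210816544)) (.cons (.rf (nat_lit 4475) (nat_lit 14090929087143282720)) (.cons (.rf (nat_lit 3656) (nat_lit 8508575514335741984)) (.cons (.rf (nat_lit 4435) (nat_lit 14242959524133712897)) .nil))))) (.cons (.rf (nat_lit 4475) (nat_lit 14090929087143282720)) (.cons (.rf (nat_lit 4490) (nat_lit 6172399044183296032)) (.cons (.br (nat_lit 1) (nat_lit 0) (.cons (.rf (nat_lit 4245) (nat_lit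 323505631704065)) (.cons (.rf (nat_lit 4435) (nat_lit 14242959524133712897)) (.cons (.rf (nat_lit 4475) (nat_lit 14090929087143282720)) (.cons (.rf (nat_lit 4245) (nat_lit 221246759777281)) .nil))))) .nil)))))) (.cons (.br (nat_lit 5) (nat_lit 0) (.cons (.rf (nat_lit 4491) (nat_lit 14242959524133701664)) (.cons (.rf (nat_lit 4492) (nat_lit 14242959524133701664)) (.cons (.ev (nat_lit 159701523437332797510213828610) (nat_lit 3)) (.cons (.br (nat_lit 12) (nat_lit 0) (.cons (.rf (nat_lit 4491) (nat_lit 6172399044183296032)) (.cons (.rf (nat_lit 3958) (nat_lit 463318761670688)) (.cons (.ev (nat_lit 79850759348259926023065370625) (nat_lit 2)) .nil)))) .nil))))) (.cons (.ev (nat_lit 79228162532711363146541957121) (nat_lit 1)) (.cons (.br (nat_lit 1) (nat_lit 0) (.cons (.rf (nat_lit 4493) (nat_lit 493858305440582043680)) (.cons (.br (nat_lit 1) (nat_lit 0) (.cons (.rf (nat_lit 4493) (nat_lit 493858305440582043680)) (.cons (.rf (nat_lit 4475) (nat_lit 14090929087143282720)) (.cons (.rf (nat_lit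 4493) (nat_lit 485787744960631638048)) (.cons (.rf (nat_lit 4435) (nat_lit 14242959524133712897)) .nil))))) (.cons (.rf (nat_lit 4475) (nat_lit 14090929087143282720)) (.cons (.rf (nat_lit 4493) (nat_lit 485787744960631638048)) (.cons (.br (nat_lit 1) (nat_lit 0) (.cons (.rf (nat_lit 4245) (nat_lit 323505631704065)) (.cons (.rf (nat_lit 4435) (nat_lit 14242959524133712897)) (.cons (.rf (nat_lit 4475) (nat_lit 14090929087143282720)) (.cons (.rf (nat_lit 4245) (nat_lit 221246759777281)) .nil))))) .nil)))))) .nil))))))) (.cons (.rf (nat_lit 4245) (nat_lit 323505631704066)) .nil)))))),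
 (.br (nat_lit 2) (nat_lit 0) (.cons (.rf (nat_lit 4245) (nat_lit 323505631691778)) (.cons (.rf (nat_lit 4475) (nat_lit 14242959524133701664)) (.cons (.rf (nat_lit 4488) (nat_lit 14242959524133701664)) (.cons (.rf (nat_lit 4494) (nat_lit 14242959524133701664)) (.cons (.br (nat_lit 2) (nat_lit 0) (.cons (.rf (nat_lit 4245) (nat_lit 323505631691778)) (.cons (.rf (nat_lit 4475) (nat_lit 14242959524133701664)) (.cons (.rf (nat_lit 4488) (nat_lit 14242959524133701664)) (.cons (.rf (nat_lit 4494) (nat_lit 14242959524133701664)) (.cons (.rf (nat_lit 4245) (nat_lit 323505631704066)) .nil)))))) (.cons (.rf (nat_lit 4245) (nat_lit 323505631704066)) .nil))))))),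
 (.br (nat_lit 1) (nat_lit 0) (.cons (.rf (nat_lit 4495) (nat_lit 14090929087143281728)) (.cons (.rf (nat_lit 3196) (nat_lit 385814202400)) (.cons (.rf (nat_lit 4495) (nat_lit 6020334523405108288)) (.cons (.rf (nat_lit 4435) (nat_lit 14242959524133712897)) .nil))))),
 (.br (nat_lit 1) (nat_lit 0) (.cons (.rf (nat_lit 4495) (nat_lit 14090929087143281728)) (.cons (.rf (nat_lit 3196) (nat_lit 385814202400)) (.cons (.rf (nat_lit 4495) (nat_lit 6020334523405108288)) (.cons (.br (nat_lit 13) (nat_lit 0) (.cons (.rf (nat_lit 4495) (nat_lit 14208056627021591553)) (.cons (.br (nat_lit 13) (nat_lit 0) (.cons (.rf (nat_lit 4495) (nat_lit 14208056627021591553)) (.cons (.rf (nat_lit 4495) (nat_lit 6137496147071185921)) .nil))) (.cons (.rf (nat_lit 4495) (nat_lit 6137496147071185921)) .nil)))) .nil))))),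
 (.br (nat_lit 13) (nat_lit 0) (.cons (.rf (nat_lit 4245) (nat_lit 323505631692845)) (.cons (.rf (nat_lit 3594) (nat_lit 14546158848032)) (.cons (.rf (nat_lit 4245) (nat_lit 221246759766061)) .nil)))),
 (.br (nat_lit 1) (nat_lit 0) (.cons (.rf (nat_lit 4245) (nat_lit 323505631704065)) (.cons (.rf (nat_lit 4435) (nat_lit 14242959524133712897)) (.cons (.br (nat_lit 13) (nat_lit 0) (.cons (.rf (nat_lit 4245) (nat_lit 323505631692845)) (.cons (.rf (nat_lit 4498) (nat_lit 493858305440582043680)) (.cons (.rf (nat_lit 4498) (nat_lit 493706275003591623744)) (.cons (.rf (nat_lit 4245) (nat_lit 221246759766061)) .nil))))) (.cons (.rf (nat_lit 4245) (nat_lit 221246759777281)) .nil))))),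
 (.br (nat_lit 1) (nat_lit 0) (.cons (.rf (nat_lit 4495) (nat_lit 14090929087143281728)) (.cons (.br (nat_lit 1) (nat_lit 0) (.cons (.rf (nat_lit 4495) (nat_lit 14090929087143281728)) (.cons (.rf (nat_lit 4495) (nat_lit 6020334523405108288)) (.cons (.rf (nat_lit 4499) (nat_lit 493858305440582043680)) .nil)))) (.cons (.rf (nat_lit 4495) (nat_lit 6020334523405108288)) (.cons (.rf (nat_lit 4499) (nat_lit 493858305440582043680)) .nil)))))]

theorem c166 : chkAll C T R L166 (nat_lit 4476) = true := by decide +kernel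

theorem l166 : (nat_lit 4476) + L166.length = (nat_lit 4501) := by decide +kernel

/-- part of the certificates -/
def L167 : List Prf := [(.br (nat_lit 2) (nat_lit 0) (.cons (.rf (nat_lit 4443) (nat_lit 14242959524133701664)) (.cons (.rf (nat_lit 4495) (nat_lit 14242959524133701664)) (.cons (.br (nat_lit 1) (nat_lit 0) (.cons (.rf (nat_lit 4495) (nat_lit 14090929087143281728)) (.cons (.rf (nat_lit 4496) (nat_lit 14242959524133701664)) (.cons (.rf (nat_lit 4497) (nat_lit 14242959524133701664)) (.cons (.rf (nat_lit 4495) (nat_lit 6020334523405108288)) (.cons (.br (nat_lit 1) (nat_lit 0) (.cons (.rf (nat_lit 4245) (nat_lit 323505631704065)) (.cons (.rf (nat_lit 4435) (nat_lit 14242959524133712897)) (.cons (.rf (nat_lit 4497) (nat_lit 14242959524133701664)) (.cons (.rf (nat_lit 4245) (nat_lit 221246759777281)) .nil))))) .nil)))))) (.cons (.rf (nat_lit 4495) (nat_lit 6172399044183296032)) (.cons (.br (nat_lit 13) (nat_lit 0) (.cons (.rf (nat_lit 4499) (nat_lit 493858305440582043680)) (.cons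 (.rf (nat_lit 4495) (nat_lit 13951317498694808578)) (.cons (.rf (nat_lit 4500) (nat_lit 493858305440582043680)) (.cons (.br (nat_lit 13) (nat_lit 0) (.cons (.rf (nat_lit 4499) (nat_lit 493858305440582043680)) (.cons (.rf (nat_lit 4495) (nat_lit 13951317498694808578)) (.cons (.rf (nat_lit 4500) (nat_lit 493858305440582043680)) (.cons (.rf (nat_lit 4495) (nat_lit 5880722934956635138)) .nil))))) (.cons (.rf (nat_lit 4495) (nat_lit 5880722934956635138)) .nil)))))) .nil)))))),
 (.br (nat_lit 13) (nat_lit 0) (.cons (.rf (nat_lit 4245) (nat_lit 323505631692845)) (.cons (.br (nat_lit 5) (nat_lit 0) (.cons (.rf (nat_lit 3705) (nat_lit 470774832007200)) .nil)) (.cons (.rf (nat_lit 4245) (nat_lit 221246759766061)) .nil)))),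
 (.br (nat_lit 5) (nat_lit 0) (.cons (.rf (nat_lit 1418) (nat_lit 454657812064690570656)) (.cons (.br (nat_lit 5) (nat_lit 0) (.cons (.ev (nat_lit 310698658079782740365934848) (nat_lit 1)) (.cons (.rf (nat_lit 4245) (nat_lit 323505631692845)) .nil))) (.cons (.rf (nat_lit 4245) (nat_lit 323505631692845)) .nil)))),
 (.br (nat_lit 1) (nat_lit 0) (.cons (.rf (nat_lit 4245) (nat_lit 323505631704065)) (.cons (.rf (nat_lit 4435) (nat_lit 14242959524133712897)) (.cons (.br (nat_lit 13) (nat_lit 0) (.cons (.rf (nat_lit 4245) (nat_lit 323505631692845)) (.cons (.rf (nat_lit 4502) (nat_lit 493858305440582043680)) (.cons (.rf (nat_lit 4502) (nat_lit 493706275003591624736)) (.cons (.rf (nat_lit 4245) (nat_lit 221246759766061)) .nil))))) (.cons (.br (nat_lit 13) (nat_lit 0) (.cons (.rf (nat_lit 4245) (nat_lit 323505631692845)) (.cons (.rf (nat_lit 4503) (nat_lit 493858305440582043680)) (.cons (.br (nat_lit 13) (nat_lit 0) (.cons (.rf (nat_lit 4245) (nat_lit 323505631692845)) (.cons (.rf (nat_lit 4503)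 (nat_lit 493858305440582043680)) (.cons (.rf (nat_lit 4245) (nat_lit 221246759766061)) .nil)))) (.cons (.rf (nat_lit 4245) (nat_lit 221246759766061)) .nil))))) (.cons (.rf (nat_lit 4245) (nat_lit 221246759777281)) .nil)))))),
 (.br (nat_lit 12) (nat_lit 0) (.cons (.br (nat_lit 11) (nat_lit 0) (.cons (.ev (nat_lit 20361948460101575721243006468096) (nat_lit 1)) .nil)) (.cons (.br (nat_lit 1) (nat_lit 0) (.cons (.ev (nat_lit 20361948460101575721243006468096) (nat_lit 1)) .nil)) .nil))),
 (.br (nat_lit 12) (nat_lit 0) (.cons (.br (nat_lit 10) (nat_lit 0) (.cons (.ev (nat_lit 20361948460101575721243006468096) (nat_lit 1)) .nil)) (.cons (.br (nat_lit 1) (nat_lit 0) (.cons (.ev (nat_lit 20361948460101575721243006468096) (nat_lit 1)) .nil)) .nil))),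
 (.br (nat_lit 1) (nat_lit 0) (.cons (.rf (nat_lit 4506) (nat_lit 51101544637001859490)) (.cons (.rf (nat_lit 4505) (nat_lit 51101544637001859490)) (.cons (.kr (nat_lit 72057594037928192) (nat_lit 20282409603651670423947268063232) (nat_lit 1) (nat_lit 0)) .nil)))),
 (.br (nat_lit 13) (nat_lit 0) (.cons (.rf (nat_lit 4245) (nat_lit 323505631692845)) (.cons (.br (nat_lit 5) (nat_lit 0) (.cons (.rf (nat_lit 4505) (nat_lit 493858305440582043680)) (.cons (.ev (nat_lit 20282720297587311666219655954433) (nat_lit 1)) (.cons (.br (nat_lit 11) (nat_lit 0) (.cons (.br (nat_lit 1) (nat_lit 0) (.cons (.ev (nat_lit 162259907893491282346282802743296) (nat_lit 4)) .nil)) (.cons (.ev (nat_lit 20361637770888373302004478377984) (nat_lit 1)) .nil))) .nil)))) (.cons (.br (nat_lit 5) (nat_lit 0) (.cons (.rf (nat_lit 4506) (nat_lit 493858305440582043680)) (.cons (.ev (nat_lit 20282720302328124611692328976385) (nat_lit 1)) (.cons (.br (nat_lit 10) (nat_lit 0) (.cons (.br (nat_lit 1) (nat_lit 0) (.cons (.ev (nat_lit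 162262374102162719729047033612296) (nat_lit 4)) .nil)) (.cons (.ev (nat_lit 20361637770888373302004478377984) (nat_lit 1)) .nil))) .nil)))) (.cons (.br (nat_lit 5) (nat_lit 0) (.cons (.rf (nat_lit 4507) (nat_lit 493858305440582043680)) (.cons (.br (nat_lit 12) (nat_lit 0) (.cons (.rf (nat_lit 4507) (nat_lit 485787744960631638048)) (.cons (.ev (nat_lit 162580524692074883816717525319682) (nat_lit 4)) .nil))) (.cons (.br (nat_lit 12) (nat_lit 0) (.cons (.rf (nat_lit 4507) (nat_lit 485787744960631638048)) (.cons (.ev (nat_lit 162576825379066574821066570596366) (nat_lit 4)) .nil))) (.cons (.ev (nat_lit 81288094744413207293386400202752) (nat_lit 3)) .nil))))) .nil))))),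
 (.br (nat_lit 1) (nat_lit 0) (.cons (.ev (nat_lit 20282410817299928580139637604353) (nat_lit 1)) (.cons (.ev (nat_lit 20282719088679938795668468924416) (nat_lit 1)) (.cons (.ev (nat_lit 79228162532711084978706842112) (nat_lit 2)) .nil)))),
 (.br (nat_lit 1) (nat_lit 0) (.cons (.ev (nat_lit 20282410817299928580139637604353) (nat_lit 1)) (.cons (.br (nat_lit 5) (nat_lit 0) (.cons (.ev (nat_lit 158461165583302802015600772100) (nat_lit 3)) .nil)) (.cons (.ev (nat_lit 20361638975091826715239001423873) (nat_lit 1)) .nil)))),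
 (.br (nat_lit 13) (nat_lit 0) (.cons (.rf (nat_lit 4245) (nat_lit 323505631692845)) (.cons (.rf (nat_lit 4508) (nat_lit 493858305440582043680)) (.cons (.br (nat_lit 5) (nat_lit 0) (.cons (.rf (nat_lit 3968) (nat_lit 15432965424533538848)) (.cons (.ev (nat_lit 20282409603651742764115777552384) (nat_lit 1)) (.cons (.br (nat_lit 7) (nat_lit 0) (.cons (.ev (nat_lit 4349719951189119280614211596) (nat_lit 4)) (.cons (.ev (nat_lit 20361948460120022746791692795905) (nat_lit 1)) .nil))) .nil)))) (.cons (.br (nat_lit 1) (nat_lit 0) (.cons (.rf (nat_lit 4509) (nat_lit 493858305440582043680)) (.cons (.rf (nat_lit 4510) (nat_lit 493858305440582043680)) (.cons (.br (nat_lit 1) (nat_lit 0) (.cons (.ev (nat_lit 20282719088679938795668468924416) (nat_lit 1)) (.cons (.rf (nat_lit 4510) (nat_lit 493858305440582043680)) (.cons (.ev (nat_lit 20361947255916569333557169750016) (nat_lit 1)) .nil)))) (.cons (.rf (nat_lit 4509) (nat_lit 485787744960631638048)) .nil))))) .nil))))),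
 (.br (nat_lit 1) (nat_lit 0) (.cons (.rf (nat_lit 3968) (nat_lit 1589006788340187554)) (.cons (.rf (nat_lit 4506) (nat_lit 50844805611754193314)) (.cons (.ev (nat_lit 79228162532711084978706842112) (nat_lit 2)) .nil)))),
 (.br (nat_lit 13) (nat_lit 0) (.cons (.rf (nat_lit 4245) (nat_lit 323505631692845)) (.cons (.rf (nat_lit 4508) (nat_lit 493858305440582043680)) (.cons (.rf (nat_lit 4511) (nat_lit 493858305440582043680)) (.cons (.br (nat_lit 1) (nat_lit 0) (.cons (.rf (nat_lit 4512) (nat_lit 493858305440582043680)) (.cons (.br (nat_lit 1) (nat_lit 0) (.cons (.rf (nat_lit 3968) (nat_lit 1589006788340187554)) (.cons (.rf (nat_lit 4508) (nat_lit 493706275003591624736)) (.cons (.rf (nat_lit 3968) (nat_lit 1336801780850459042)) .nil)))) (.cons (.rf (nat_lit 4508) (nat_lit 493706275003591624736)) (.cons (.rf (nat_lit 4512) (nat_lit 485787744960631638048)) .nil))))) .nil))))),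
 (.br (nat_lit 13) (nat_lit 0) (.cons (.rf (nat_lit 4245) (nat_lit 323505631692845)) (.cons (.rf (nat_lit 4508) (nat_lit 493858305440582043680)) (.cons (.rf (nat_lit 4511) (nat_lit 493858305440582043680)) (.cons (.rf (nat_lit 4513) (nat_lit 493858305440582043680)) (.cons (.br (nat_lit 13) (nat_lit 0) (.cons (.rf (nat_lit 4245) (nat_lit 323505631692845)) (.cons (.rf (nat_lit 4508) (nat_lit 493858305440582043680)) (.cons (.rf (nat_lit 4511) (nat_lit 493858305440582043680)) (.cons (.rf (nat_lit 4513) (nat_lit 493858305440582043680)) .nil))))) .nil)))))),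
 (.br (nat_lit 13) (nat_lit 0) (.cons (.rf (nat_lit 4502) (nat_lit 493858305440582043680)) (.cons (.rf (nat_lit 4514) (nat_lit 493858305440582043680)) (.cons (.br (nat_lit 1) (nat_lit 0) (.cons (.rf (nat_lit 4514) (nat_lit 51101544637001859490)) (.cons (.rf (nat_lit 4514) (nat_lit 43030984157051453858)) (.cons (.rf (nat_lit 4502) (nat_lit 493858305440582043680)) .nil)))) (.cons (.rf (nat_lit 4514) (nat_lit 485787744960631638048)) .nil))))),
 (.br (nat_lit 1) (nat_lit 0) (.cons (.rf (nat_lit 4514) (nat_lit 51101544637001859490)) (.cons (.rf (nat_lit 4515) (nat_lit 493858305440582043680)) (.cons (.br (nat_lit 1) (nat_lit 0) (.cons (.rf (nat_lit 4514) (nat_lit 51101544637001859490)) (.cons (.rf (nat_lit 4515) (nat_lit 493858305440582043680)) (.cons (.rf (nat_lit 4514) (nat_lit 43030984157051453858)) (.cons (.rf (nat_lit 4504) (nat_lit 493858305440582043680)) .nil))))) (.cons (.rf (nat_lit 4514) (nat_lit 43030984157051453858)) (.cons (.rf (nat_lit 4504) (nat_lit 493858305440582043680)) .nil)))))),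
 (.br (nat_lit 13) (nat_lit 0) (.cons (.rf (nat_lit 4504) (nat_lit 493858305440582043680)) (.cons (.rf (nat_lit 4514) (nat_lit 493858305440582043680)) (.cons (.rf (nat_lit 4516) (nat_lit 493858305440582043680)) (.cons (.br (nat_lit 13) (nat_lit 0) (.cons (.rf (nat_lit 4435) (nat_lit 14090929087143282733)) (.cons (.rf (nat_lit 4514) (nat_lit 493858305440582043680)) (.cons (.rf (nat_lit 4516) (nat_lit 493858305440582043680)) (.cons (.rf (nat_lit 4514) (nat_lit 485787744960631638048)) .nil))))) (.cons (.rf (nat_lit 4514) (nat_lit 485787744960631638048)) .nil)))))),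
 (.br (nat_lit 2) (nat_lit 0) (.cons (.rf (nat_lit 4443) (nat_lit 14242959524133701664)) (.cons (.rf (nat_lit 4495) (nat_lit 14242959524133701664)) (.cons (.rf (nat_lit 4501) (nat_lit 14242959524133701664)) (.cons (.rf (nat_lit 4495) (nat_lit 6172399044183296032)) (.cons (.br (nat_lit 13) (nat_lit 0) (.cons (.rf (nat_lit 4504) (nat_lit 493858305440582043680)) (.cons (.rf (nat_lit 4514) (nat_lit 493858305440582043680)) (.cons (.rf (nat_lit 4516) (nat_lit 493858305440582043680)) (.cons (.rf (nat_lit 4517) (nat_lit 493858305440582043680)) (.cons (.br (nat_lit 1) (nat_lit 0) (.cons (.rf (nat_lit 4514) (nat_lit 50844805611754193314)) (.cons (.rf (nat_lit 4517) (nat_lit 50844805611754193314)) (.cons (.rf (nat_lit 4516) (nat_lit 493706275003591624736)) (.cons (.rf (nat_lit 4514) (nat_lit 42774211048016019874)) (.cons (.rf (nat_lit 4504) (nat_lit 493858305440582043680)) .nil)))))) (.cons (.rf (nat_lit 4514) (nat_lit 485787744960631638048)) .nil))))))) .nil)))))),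
 (.br (nat_lit 2) (nat_lit 0) (.cons (.rf (nat_lit 4443) (nat_lit 14242959524133701664)) (.cons (.rf (nat_lit 4495) (nat_lit 14242959524133701664)) (.cons (.rf (nat_lit 4501) (nat_lit 14242959524133701664)) (.cons (.rf (nat_lit 4518) (nat_lit 14242959524133701664)) (.cons (.rf (nat_lit 4495) (nat_lit 6172399044183296032)) (.cons (.br (nat_lit 2) (nat_lit 0) (.cons (.rf (nat_lit 1943) (nat_lit 427010)) (.cons (.rf (nat_lit 4245) (nat_lit 323505631704066)) (.cons (.rf (nat_lit 4501) (nat_lit 14242959524133701664)) (.cons (.rf (nat_lit 4518) (nat_lit 14242959524133701664)) (.cons (.rf (nat_lit 4245) (nat_lit 221246759777282)) .nil)))))) .nil))))))),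
 (.br (nat_lit 1) (nat_lit 0) (.cons (.rf (nat_lit 4443) (nat_lit 14242959524133701664)) (.cons (.rf (nat_lit 4495) (nat_lit 14090929087143281728)) (.cons (.br (nat_lit 1) (nat_lit 0) (.cons (.rf (nat_lit 4435) (nat_lit 14242959524133701633)) (.cons (.rf (nat_lit 4495) (nat_lit 14090929087143281728)) (.cons (.rf (nat_lit 4519) (nat_lit 14090929087143281728)) (.cons (.rf (nat_lit 4495) (nat_lit 6020334523405108288)) (.cons (.rf (nat_lit 4435) (nat_lit 14242959524133712897)) .nil)))))) (.cons (.rf (nat_lit 4519) (nat_lit 14090929087143281728)) (.cons (.rf (nat_lit 4495) (nat_lit 6020334523405108288)) (.cons (.br (nat_lit 1) (nat_lit 0) (.cons (.rf (nat_lit 1943) (nat_lit 428033)) (.cons (.rf (nat_lit 4245) (nat_lit 323505631704065)) (.cons (.rf (nat_lit 4435) (nat_lit 14242959524133712897)) (.cons (.rf (nat_lit 4519) (nat_lit 14090929087143281728)) (.cons (.rf (nat_lit 4245) (nat_lit 221246759777281)) .nil)))))) .nil))))))),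
 (.br (nat_lit 2) (nat_lit 0) (.cons (.rf (nat_lit 4443) (nat_lit 14242959524133701664)) (.cons (.rf (nat_lit 4495) (nat_lit 14242959524133701664)) (.cons (.rf (nat_lit 4519) (nat_lit 14242959524133701664)) (.cons (.rf (nat_lit 4520) (nat_lit 14242959524133701664)) (.cons (.rf (nat_lit 4495) (nat_lit 6172399044183296032)) (.cons (.br (nat_lit 2) (nat_lit 0) (.cons (.rf (nat_lit 1943) (nat_lit 427010)) (.cons (.rf (nat_lit 4245) (nat_lit 323505631704066)) (.cons (.rf (nat_lit 4519) (nat_lit 14242959524133701664)) (.cons (.rf (nat_lit 4435) (nat_lit 14090929087143293954)) (.cons (.rf (nat_lit 4245) (nat_lit 221246759777282)) .nil)))))) .nil))))))),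
 (.br (nat_lit 2) (nat_lit 0) (.cons (.rf (nat_lit 4443) (nat_lit 14242959524133701664)) (.cons (.rf (nat_lit 4495) (nat_lit 14242959524133701664)) (.cons (.rf (nat_lit 4519) (nat_lit 14242959524133701664)) (.cons (.rf (nat_lit 4520) (nat_lit 14242959524133701664)) (.cons (.rf (nat_lit 4521) (nat_lit 14242959524133701664)) (.cons (.rf (nat_lit 4495) (nat_lit 6172399044183296032)) (.cons (.br (nat_lit 2) (nat_lit 0) (.cons (.rf (nat_lit 1943) (nat_lit 427010)) (.cons (.rf (nat_lit 4245) (nat_lit 323505631704066)) (.cons (.rf (nat_lit 4519) (nat_lit 14242959524133701664)) (.cons (.rf (nat_lit 4520) (nat_lit 14242959524133701664)) (.cons (.rf (nat_lit 4521) (nat_lit 14242959524133701664)) (.cons (.rf (nat_lit 4245) (nat_lit 221246759777282)) .nil))))))) .nil)))))))),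
 (.br (nat_lit 10) (nat_lit 0) (.cons (.ev (nat_lit 955082834492294348965264755712) (nat_lit 4)) (.cons (.rf (nat_lit 3259) (nat_lit 470976556238880)) .nil))),
 (.br (nat_lit 2) (nat_lit 0) (.cons (.rf (nat_lit 4522) (nat_lit 14242959524133700672)) (.cons (.rf (nat_lit 4522) (nat_lit 14090929087143281728)) (.cons (.br (nat_lit 12) (nat_lit 0) (.cons (.rf (nat_lit 4523) (nat_lit 14242959524133701664)) (.cons (.rf (nat_lit 4523) (nat_lit 14090929087143282720)) (.cons (.rf (nat_lit 3299) (nat_lit 469737700165664)) .nil)))) (.cons (.br (nat_lit 3) (nat_lit 0) (.cons (.br (nat_lit 11) (nat_lit 0) (.cons (.ev (nat_lit 1245198445697608280111841280) (nat_lit 3)) (.cons (.rf (nat_lit 4014) (nat_lit 470837243250720)) .nil))) (.cons (.ev (nat_lit 282574505115649) (nat_lit 1)) (.cons (.rf (nat_lit 4007) (nat_lit 12876114840284103744)) (.cons (.rf (nat_lit 3390) (nat_lit 15398168016147547200)) .nil))))) (.cons (.rf (nat_lit 4245) (nat_lit 323505631704066)) .nil)))))),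
 (.br (nat_lit 2) (nat_lit 0) (.cons (.rf (nat_lit 4522) (nat_lit 14242959524133700672)) (.cons (.rf (nat_lit 4524) (nat_lit 14242959524133701664)) (.cons (.rf (nat_lit 4522) (nat_lit 14090929087143281728)) (.cons (.rf (nat_lit 4524) (nat_lit 14090929087143282720)) (.cons (.br (nat_lit 2) (nat_lit 0) (.cons (.rf (nat_lit 4522) (nat_lit 14242959524133700672)) (.cons (.rf (nat_lit 4524) (nat_lit 14242959524133701664)) (.cons (.rf (nat_lit 4522) (nat_lit 14090929087143281728)) (.cons (.rf (nat_lit 4524) (nat_lit 14090929087143282720)) (.cons (.rf (nat_lit 4245) (nat_lit 323505631704066)) .nil)))))) (.cons (.rf (nat_lit 4245) (nat_lit 323505631704066)) .nil)))))))]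

theorem c167 : chkAll C T R L167 (nat_lit 4501) = true := by decide +kernel

theorem l167 : (nat_lit 4501) + L167.length = (nat_lit 4526) := by decide +kernel

/-- part of the certificates -/
def L168 : List Prf := [(.br (nat_lit 10) (nat_lit 0) (.cons (.ev (nat_lit 475376233381607143192664344068) (nat_lit 3)) (.cons (.rf (nat_lit 2862) (nat_lit 470774824896544)) .nil))),
 (.br (nat_lit 5) (nat_lit 0) (.cons (.rf (nat_lit 2889) (nat_lit 15071255161276448)) (.cons (.rf (nat_lit 4102) (nat_lit 463280281847840)) (.cons (.br (nat_lit 10) (nat_lit 0) (.cons (.ev (nat_lit 1429235630535394515237025487894) (nat_lit 5)) (.cons (.rf (nat_lit 2876) (nat_lit 15432895985716889632)) .nil))) .nil)))),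
 (.br (nat_lit 2) (nat_lit 0) (.cons (.rf (nat_lit 4522) (nat_lit 14242959524133700672)) (.cons (.rf (nat_lit 4525) (nat_lit 14242959524133701664)) (.cons (.rf (nat_lit 4522) (nat_lit 14090929087143281728)) (.cons (.br (nat_lit 3) (nat_lit 0) (.cons (.rf (nat_lit 4526) (nat_lit 14242959524133701664)) (.cons (.br (nat_lit 5) (nat_lit 0) (.cons (.ev (nat_lit 79230580421243802375851934466) (nat_lit 2)) (.cons (.rf (nat_lit 4014) (nat_lit 470976628361248)) .nil))) (.cons (.rf (nat_lit 4526) (nat_lit 6172399044183295040)) (.cons (.br (nat_lit 5) (nat_lit 0) (.cons (.rf (nat_lit 2862) (nat_lit 470774832007200)) (.cons (.rf (nat_lit 2868) (nat_lit 470974547986464)) (.cons (.br (nat_lit 10) (nat_lit 0) (.cons (.rf (nat_lit 2862) (nat_lit 463318768780352)) (.cons (.br (nat_lit 12) (nat_lit 0) (.cons (.ev (nat_lit 162262374102162719729047034134536) (nat_lit 4)) .nil)) .nil))) .nil)))) .nil))))) (.cons (.br (nat_lit 3) (nat_lit 0) (.cons (.rf (nat_lit 2889) (nat_lit 15071255168387104)) (.cons (.rf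 (nat_lit 2873) (nat_lit 15071186516019232)) (.cons (.rf (nat_lit 4527) (nat_lit 493858305440582043680)) (.cons (.br (nat_lit 10) (nat_lit 0) (.cons (.rf (nat_lit 2888) (nat_lit 470976621250592)) (.cons (.rf (nat_lit 4527) (nat_lit 493706275003591624736)) (.cons (.br (nat_lit 12) (nat_lit 0) (.cons (.br (nat_lit 12) (nat_lit 0) (.cons (.ev (nat_lit 162259907893491282346282802743296) (nat_lit 4)) .nil)) (.cons (.br (nat_lit 5) (nat_lit 0) (.cons (.ev (nat_lit 162259907893491282346282802743296) (nat_lit 4)) .nil)) .nil))) .nil)))) .nil))))) .nil)))))),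
 (.br (nat_lit 2) (nat_lit 0) (.cons (.rf (nat_lit 4522) (nat_lit 14242959524133700672)) (.cons (.rf (nat_lit 4525) (nat_lit 14242959524133701664)) (.cons (.rf (nat_lit 4522) (nat_lit 14090929087143281728)) (.cons (.rf (nat_lit 4528) (nat_lit 14242959524133701664)) (.cons (.br (nat_lit 2) (nat_lit 0) (.cons (.rf (nat_lit 4522) (nat_lit 14242959524133700672)) (.cons (.rf (nat_lit 4525) (nat_lit 14242959524133701664)) (.cons (.rf (nat_lit 4522) (nat_lit 14090929087143281728)) (.cons (.rf (nat_lit 4528) (nat_lit 14242959524133701664)) (.cons (.rf (nat_lit 4245) (nat_lit 221246759777282)) .nil)))))) (.cons (.br (nat_lit 2) (nat_lit 0) (.cons (.rf (nat_lit 4435) (nat_lit 14242959524133712898)) (.cons (.rf (nat_lit 4245) (nat_lit 323505631704066)) (.cons (.rf (nat_lit 4522) (nat_lit 14090929087143281728)) (.cons (.rf (nat_lit 4528) (nat_lit 14242959524133701664)) (.cons (.rf (nat_lit 4245) (nat_lit 221246759777282)) .nil)))))) .nil))))))),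
 (.br (nat_lit 2) (nat_lit 0) (.cons (.rf (nat_lit 4522) (nat_lit 14242959524133700672)) (.cons (.rf (nat_lit 4525) (nat_lit 14242959524133701664)) (.cons (.rf (nat_lit 4529) (nat_lit 14242959524133701664)) (.cons (.rf (nat_lit 4522) (nat_lit 14090929087143281728)) (.cons (.rf (nat_lit 4529) (nat_lit 14090929087143282720)) (.cons (.br (nat_lit 2) (nat_lit 0) (.cons (.rf (nat_lit 4522) (nat_lit 14242959524133700672)) (.cons (.rf (nat_lit 4525) (nat_lit 14242959524133701664)) (.cons (.rf (nat_lit 4529) (nat_lit 14242959524133701664)) (.cons (.rf (nat_lit 4522) (nat_lit 14090929087143281728)) (.cons (.rf (nat_lit 4529) (nat_lit 14090929087143282720)) (.cons (.rf (nat_lit 4245) (nat_lit 221246759777282)) .nil))))))) (.cons (.br (nat_lit 2) (nat_lit 0) (.cons (.rf (nat_lit 4522) (nat_lit 14242959524133700672)) (.cons (.rf (nat_lit 4245) (nat_lit 323505631704066)) (.cons (.rf (nat_lit 4529) (nat_lit 14242959524133701664)) (.cons (.rf (nat_lit 4522) (nat_lit 14090929087143281728)) (.cons (.rf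 (nat_lit 4529) (nat_lit 14090929087143282720)) (.cons (.rf (nat_lit 4245) (nat_lit 221246759777282)) .nil))))))) .nil)))))))),
 (.br (nat_lit 2) (nat_lit 0) (.cons (.ev (nat_lit 18446745173237956864) (nat_lit 1)) (.cons (.rf (nat_lit 2744) (nat_lit 438366737205920832)) (.cons (.rf (nat_lit 4530) (nat_lit 14242959524133700672)) (.cons (.rf (nat_lit 4059) (nat_lit 440622866342447136)) (.cons (.rf (nat_lit 4245) (nat_lit 323505631704066)) .nil)))))),
 (.br (nat_lit 2) (nat_lit 0) (.cons (.ev (nat_lit 18446745173237956864) (nat_lit 1)) (.cons (.rf (nat_lit 4530) (nat_lit 14242959524133700672)) (.cons (.rf (nat_lit 4522) (nat_lit 14090929087143281728)) (.cons (.br (nat_lit 3) (nat_lit 0) (.cons (.br (nat_lit 10) (nat_lit 0) (.cons (.ev (nat_lit 309489750706912180622655745) (nat_lit 1)) (.cons (.rf (nat_lit 2862) (nat_lit 469745039378464)) .nil))) (.cons (.br (nat_lit 7) (nat_lit 0) (.cons (.ev (nat_lit 79847132589391378443061428226) (nat_lit 2)) (.cons (.rf (nat_lit 4014) (nat_lit 469909396097056))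 .nil))) (.cons (.ev (nat_lit 282574505115649) (nat_lit 1)) (.cons (.br (nat_lit 7) (nat_lit 0) (.cons (.ev (nat_lit 1208925819615732981301249) (nat_lit 1)) (.cons (.rf (nat_lit 2868) (nat_lit 469911476471840)) (.cons (.br (nat_lit 10) (nat_lit 0) (.cons (.ev (nat_lit 79849550441319966185082586112) (nat_lit 3)) (.cons (.br (nat_lit 11) (nat_lit 0) (.cons (.ev (nat_lit 40644047369836196048061251846146) (nat_lit 2)) .nil)) .nil))) .nil)))) .nil))))) (.cons (.rf (nat_lit 4245) (nat_lit 323505631704066)) .nil)))))),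
 (.br (nat_lit 2) (nat_lit 0) (.cons (.ev (nat_lit 18446745173237956864) (nat_lit 1)) (.cons (.rf (nat_lit 4531) (nat_lit 14242959524133701664)) (.cons (.rf (nat_lit 4522) (nat_lit 14090929087143281728)) (.cons (.rf (nat_lit 4532) (nat_lit 14242959524133701664)) (.cons (.br (nat_lit 2) (nat_lit 0) (.cons (.ev (nat_lit 18446745173237956864) (nat_lit 1)) (.cons (.rf (nat_lit 4059) (nat_lit 440622866342447136)) (.cons (.ev (nat_lit 79230594569896788390349766656) (nat_lit 2)) (.cons (.rf (nat_lit 4532) (nat_lit 14242959524133701664)) (.cons (.rf (nat_lit 4245) (nat_lit 323505631704066)) .nil)))))) (.cons (.rf (nat_lit 4245) (nat_lit 323505631704066)) .nil))))))),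
 (.br (nat_lit 13) (nat_lit 0) (.cons (.ev (nat_lit 18446745173237956864) (nat_lit 1)) (.cons (.br (nat_lit 13) (nat_lit 0) (.cons (.ev (nat_lit 18446745173237956864) (nat_lit 1)) (.cons (.rf (nat_lit 4522) (nat_lit 13951317464335090082)) (.cons (.ev (nat_lit 79228167255077846011892203776) (nat_lit 1)) .nil)))) (.cons (.rf (nat_lit 4522) (nat_lit 13951317464335090082)) (.cons (.ev (nat_lit 79228162514264337597855695104) (nat_lit 1)) .nil))))),
 (.br (nat_lit 13) (nat_lit 0) (.cons (.ev (nat_lit 18446745173237956864) (nat_lit 1)) (.cons (.br (nat_lit 13) (nat_lit 0) (.cons (.ev (nat_lit 18446745173237956864) (nat_lit 1)) (.cons (.ev (nat_lit 310693954159762465158660353) (nat_lit 1)) (.cons (.br (nat_lit 3) (nat_lit 0) (.cons (.ev (nat_lit 40644668757707333852269008388096) (nat_lit 2)) .nil)) .nil)))) (.cons (.rf (nat_lit 4522) (nat_lit 13951317464335090082)) (.cons (.br (nat_lit 11) (nat_lit 0) (.cons (.ev (nat_lit 79847146738044364457559196160) (nat_lit 2)) (.cons (.ev (nat_lit 79849550404137119562548118016)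 (nat_lit 2)) (.cons (.ev (nat_lit 40644666354041241097163952357376) (nat_lit 2)) .nil)))) .nil))))),
 (.br (nat_lit 2) (nat_lit 0) (.cons (.rf (nat_lit 4522) (nat_lit 14242959524133700672)) (.cons (.rf (nat_lit 4530) (nat_lit 14242959524133700672)) (.cons (.rf (nat_lit 4522) (nat_lit 14090929087143281728)) (.cons (.rf (nat_lit 4530) (nat_lit 6172399044183295040)) (.cons (.br (nat_lit 13) (nat_lit 0) (.cons (.rf (nat_lit 4534) (nat_lit 493858305440582043680)) (.cons (.rf (nat_lit 4535) (nat_lit 493858305440582043680)) (.cons (.br (nat_lit 13) (nat_lit 0) (.cons (.rf (nat_lit 4534) (nat_lit 493858305440582043680)) (.cons (.rf (nat_lit 4535) (nat_lit 493858305440582043680)) (.cons (.rf (nat_lit 4522) (nat_lit 13951317464335090082)) (.cons (.rf (nat_lit 4535) (nat_lit 485787744960631638048)) .nil))))) (.cons (.rf (nat_lit 4522) (nat_lit 13951317464335090082)) (.cons (.rf (nat_lit 4535) (nat_lit 485787744960631638048)) .nil)))))) .nil)))))),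
 (.br (nat_lit 2) (nat_lit 0) (.cons (.rf (nat_lit 4522) (nat_lit 14242959524133700672)) (.cons (.rf (nat_lit 4533) (nat_lit 14242959524133701664)) (.cons (.rf (nat_lit 4522) (nat_lit 14090929087143281728)) (.cons (.rf (nat_lit 4536) (nat_lit 14242959524133701664)) (.cons (.rf (nat_lit 4533) (nat_lit 6172399044183296032)) (.cons (.br (nat_lit 2) (nat_lit 0) (.cons (.rf (nat_lit 4435) (nat_lit 14242959524133712898)) (.cons (.rf (nat_lit 4245) (nat_lit 323505631704066)) (.cons (.rf (nat_lit 4522) (nat_lit 14090929087143281728)) (.cons (.rf (nat_lit 4536) (nat_lit 14242959524133701664)) (.cons (.rf (nat_lit 4245) (nat_lit 221246759777282)) .nil)))))) .nil))))))),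
 (.br (nat_lit 2) (nat_lit 0) (.cons (.rf (nat_lit 4522) (nat_lit 14242959524133700672)) (.cons (.rf (nat_lit 4533) (nat_lit 14242959524133701664)) (.cons (.rf (nat_lit 4537) (nat_lit 14242959524133701664)) (.cons (.rf (nat_lit 4522) (nat_lit 14090929087143281728)) (.cons (.rf (nat_lit 4533) (nat_lit 6172399044183296032)) (.cons (.br (nat_lit 2) (nat_lit 0) (.cons (.rf (nat_lit 4522) (nat_lit 14242959524133700672)) (.cons (.rf (nat_lit 4245) (nat_lit 323505631704066)) (.cons (.rf (nat_lit 4537) (nat_lit 14242959524133701664)) (.cons (.rf (nat_lit 4435) (nat_lit 14090929087143293954)) (.cons (.rf (nat_lit 4245) (nat_lit 221246759777282)) .nil)))))) .nil))))))),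
 (.br (nat_lit 1) (nat_lit 0) (.cons (.rf (nat_lit 4245) (nat_lit 323505631692801)) (.cons (.rf (nat_lit 4522) (nat_lit 14242959524133701664)) (.cons (.rf (nat_lit 4522) (nat_lit 14090929087143282720)) (.cons (.rf (nat_lit 4530) (nat_lit 14242959524133701664)) (.cons (.br (nat_lit 2) (nat_lit 0) (.cons (.rf (nat_lit 4522) (nat_lit 14242959524133700672)) (.cons (.rf (nat_lit 4533) (nat_lit 14242959524133701664)) (.cons (.rf (nat_lit 4537) (nat_lit 14242959524133701664)) (.cons (.rf (nat_lit 4522) (nat_lit 14090929087143281728)) (.cons (.rf (nat_lit 4538) (nat_lit 14242959524133701664)) (.cons (.rf (nat_lit 4533) (nat_lit 6172399044183296032)) (.cons (.br (nat_lit 2) (nat_lit 0) (.cons (.rf (nat_lit 4522) (nat_lit 14242959524133700672)) (.cons (.rf (nat_lit 4245) (nat_lit 323505631704066)) (.cons (.rf (nat_lit 4537) (nat_lit 14242959524133701664)) (.cons (.rf (nat_lit 4522) (nat_lit 14090929087143281728)) (.cons (.rf (nat_lit 4538) (nat_lit 14242959524133701664)) (.cons (.rf (nat_lit 4245)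 (nat_lit 221246759777282)) .nil))))))) .nil)))))))) (.cons (.rf (nat_lit 4245) (nat_lit 323505631704065)) .nil))))))),
 (.br (nat_lit 1) (nat_lit 0) (.cons (.rf (nat_lit 4245) (nat_lit 323505631692801)) (.cons (.rf (nat_lit 4522) (nat_lit 14242959524133701664)) (.cons (.rf (nat_lit 4539) (nat_lit 14242959524133701664)) (.cons (.rf (nat_lit 4522) (nat_lit 14090929087143282720)) (.cons (.rf (nat_lit 4539) (nat_lit 14090929087143282720)) (.cons (.br (nat_lit 1) (nat_lit 0) (.cons (.rf (nat_lit 4245) (nat_lit 323505631692801)) (.cons (.rf (nat_lit 4522) (nat_lit 14242959524133701664)) (.cons (.rf (nat_lit 4539) (nat_lit 14242959524133701664)) (.cons (.rf (nat_lit 4522) (nat_lit 14090929087143282720)) (.cons (.rf (nat_lit 4539) (nat_lit 14090929087143282720)) (.cons (.rf (nat_lit 4245) (nat_lit 323505631704065)) .nil))))))) (.cons (.rf (nat_lit 4245) (nat_lit 323505631704065)) .nil)))))))),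
 (.br (nat_lit 13) (nat_lit 0) (.cons (.rf (nat_lit 4245) (nat_lit 323505631692845)) (.cons (.br (nat_lit 5) (nat_lit 0) (.cons (.br (nat_lit 5) (nat_lit 0) .nil) .nil)) (.cons (.rf (nat_lit 4245) (nat_lit 221246759766061)) .nil)))),
 (.br (nat_lit 2) (nat_lit 0) (.cons (.rf (nat_lit 1943) (nat_lit 427010)) (.cons (.rf (nat_lit 4435) (nat_lit 14242959524133712898)) (.cons (.rf (nat_lit 4245) (nat_lit 323505631704066)) (.cons (.rf (nat_lit 4522) (nat_lit 14090929087143281728)) (.cons (.br (nat_lit 1) (nat_lit 0) (.cons (.rf (nat_lit 4522) (nat_lit 14242959524133701664)) (.cons (.rf (nat_lit 4540) (nat_lit 14242959524133701664)) (.cons (.rf (nat_lit 4522) (nat_lit 14090929087143282720)) (.cons (.rf (nat_lit 4540) (nat_lit 6172399044183296032)) (.cons (.br (nat_lit 13) (nat_lit 0) (.cons (.rf (nat_lit 4541) (nat_lit 493858305440582043680)) (.cons (.rf (nat_lit 4245) (nat_lit 323505631692845)) (.cons (.rf (nat_lit 4541) (nat_lit 493706275003591624736)) (.cons (.rf (nat_lit 4245) (nat_lit 221246759766061))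 .nil))))) .nil)))))) (.cons (.rf (nat_lit 4245) (nat_lit 221246759777282)) .nil))))))),
 (.br (nat_lit 2) (nat_lit 0) (.cons (.rf (nat_lit 4522) (nat_lit 14242959524133700672)) (.cons (.rf (nat_lit 4540) (nat_lit 14242959524133700672)) (.cons (.rf (nat_lit 4522) (nat_lit 14090929087143281728)) (.cons (.rf (nat_lit 4542) (nat_lit 493858305440582042688)) (.cons (.rf (nat_lit 4540) (nat_lit 6172399044183295040)) (.cons (.rf (nat_lit 4542) (nat_lit 493858305440582043680)) .nil))))))),
 (.br (nat_lit 1) (nat_lit 0) (.cons (.rf (nat_lit 4443) (nat_lit 14242959524133701664)) (.cons (.rf (nat_lit 4522) (nat_lit 14242959524133701664)) (.cons (.rf (nat_lit 4540) (nat_lit 14242959524133701664)) (.cons (.rf (nat_lit 4522) (nat_lit 14090929087143282720)) (.cons (.rf (nat_lit 4540) (nat_lit 6172399044183296032)) (.cons (.br (nat_lit 2) (nat_lit 0) (.cons (.rf (nat_lit 4522) (nat_lit 14242959524133700672)) (.cons (.rf (nat_lit 4540) (nat_lit 14242959524133700672)) (.cons (.rf (nat_lit 4543) (nat_lit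 493858305440582043680)) (.cons (.rf (nat_lit 4522) (nat_lit 14090929087143281728)) (.cons (.rf (nat_lit 4543) (nat_lit 493706275003591624736)) (.cons (.rf (nat_lit 4540) (nat_lit 6172399044183295040)) (.cons (.br (nat_lit 2) (nat_lit 0) (.cons (.rf (nat_lit 4522) (nat_lit 14242959524133700672)) (.cons (.rf (nat_lit 4245) (nat_lit 323505631704066)) (.cons (.rf (nat_lit 4542) (nat_lit 493858305440582043680)) (.cons (.rf (nat_lit 4522) (nat_lit 14090929087143281728)) (.cons (.rf (nat_lit 4542) (nat_lit 493706275003591624736)) (.cons (.rf (nat_lit 4245) (nat_lit 221246759777282)) .nil))))))) .nil)))))))) .nil))))))),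
 (.br (nat_lit 1) (nat_lit 0) (.cons (.rf (nat_lit 4443) (nat_lit 14242959524133701664)) (.cons (.rf (nat_lit 4522) (nat_lit 14242959524133701664)) (.cons (.rf (nat_lit 4540) (nat_lit 14242959524133701664)) (.cons (.rf (nat_lit 4522) (nat_lit 14090929087143282720)) (.cons (.rf (nat_lit 4544) (nat_lit 14242959524133701664)) (.cons (.rf (nat_lit 4540) (nat_lit 6172399044183296032)) (.cons (.br (nat_lit 1) (nat_lit 0) (.cons (.rf (nat_lit 1943) (nat_lit 428033)) (.cons (.rf (nat_lit 4435) (nat_lit 14242959524133712897)) (.cons (.rf (nat_lit 4245) (nat_lit 323505631704065)) (.cons (.rf (nat_lit 4522) (nat_lit 14090929087143282720)) (.cons (.rf (nat_lit 4544) (nat_lit 14242959524133701664)) (.cons (.rf (nat_lit 4245) (nat_lit 221246759777281)) .nil))))))) .nil)))))))),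
 (.br (nat_lit 1) (nat_lit 0) (.cons (.rf (nat_lit 4443) (nat_lit 14242959524133701664)) (.cons (.rf (nat_lit 4522) (nat_lit 14242959524133701664)) (.cons (.rf (nat_lit 4540) (nat_lit 14242959524133701664)) (.cons (.rf (nat_lit 4545) (nat_lit 14242959524133701664)) (.cons (.rf (nat_lit 4522) (nat_lit 14090929087143282720)) (.cons (.rf (nat_lit 4545) (nat_lit 14090929087143282720)) (.cons (.rf (nat_lit 4540) (nat_lit 6172399044183296032)) (.cons (.br (nat_lit 1) (nat_lit 0) (.cons (.rf (nat_lit 1943) (nat_lit 428033)) (.cons (.rf (nat_lit 4522) (nat_lit 14242959524133701664)) (.cons (.rf (nat_lit 4245) (nat_lit 323505631704065)) (.cons (.rf (nat_lit 4545) (nat_lit 14242959524133701664)) (.cons (.rf (nat_lit 4522) (nat_lit 14090929087143282720)) (.cons (.rf (nat_lit 4545) (nat_lit 14090929087143282720)) (.cons (.rf (nat_lit 4245) (nat_lit 221246759777281)) .nil)))))))) .nil))))))))),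
 (.br (nat_lit 12) (nat_lit 1) (.cons (.br (nat_lit 3) (nat_lit 1) (.cons (.br (nat_lit 0) (nat_lit 0) (.cons (.rf (nat_lit 4245) (nat_lit 323505631692832)) (.cons (.rf (nat_lit 4435) (nat_lit 14242959524133701664)) (.cons (.rf (nat_lit 4546) (nat_lit 14242959524133701664)) (.cons (.rf (nat_lit 4546) (nat_lit 14208056627021580320)) (.cons (.rf (nat_lit 4245) (nat_lit 221246759766048)) (.cons (.rf (nat_lit 1943) (nat_lit 428064)) .nil))))))) .nil)) .nil))]

theorem c168 : chkAll C T R L168 (nat_lit 4526) = true := by decide +kernel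

theorem l168 : (nat_lit 4526) + L168.length = (nat_lit 4548) := by decide +kernel

/-- part of the certificates -/
def L169 : List Prf := [(.br (nat_lit 11) (nat_lit 1) (.cons (.rf (nat_lit 4547) (nat_lit 14242959524133701664)) (.cons (.br (nat_lit 12) (nat_lit 1) (.cons (.rf (nat_lit 4547) (nat_lit 13126066816545818656)) (.cons (.rf (nat_lit 4547) (nat_lit 11974268946317674528)) .nil))) .nil))),
 (.br (nat_lit 0) (nat_lit 0) (.cons (.rf (nat_lit 1943) (nat_lit 100384)) (.cons (.br (nat_lit 3) (nat_lit 1) (.cons (.br (nat_lit 4) (nat_lit 0) (.cons (.br (nat_lit 5) (nat_lit 1) (.cons (.br (nat_lit 4) (nat_lit 0) (.cons (.br (nat_lit 6) (nat_lit 1) (.cons (.rf (nat_lit 3421) (nat_lit 247132686368)) (.cons (.br (nat_lit 4) (nat_lit 1) (.cons (.br (nat_lit 7) (nat_lit 1) (.cons (.rf (nat_lit 4245) (nat_lit 325702574508064)) (.cons (.br (nat_lit 9) (nat_lit 0) (.cons (.rf (nat_lit 4278) (nat_lit 325702574508064)) (.cons (.br (nat_lit 9) (nat_lit 0) (.cons (.rf (nat_lit 4278) (nat_lit 325702574508064))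 (.cons (.br (nat_lit 9) (nat_lit 0) (.cons (.rf (nat_lit 4278) (nat_lit 325702574508064)) (.cons (.br (nat_lit 10) (nat_lit 1) (.cons (.rf (nat_lit 4548) (nat_lit 14242959524133701664)) (.cons (.rf (nat_lit 4548) (nat_lit 14242957258605561888)) .nil))) .nil))) .nil))) .nil))) (.cons (.rf (nat_lit 3421) (nat_lit 181701543968)) .nil)))) .nil)) .nil))) .nil)) .nil)) .nil)) .nil)) .nil))),
 (.br (nat_lit 11) (nat_lit 0) (.cons (.br (nat_lit 13) (nat_lit 0) (.cons (.ev (nat_lit 318153036301133696505749832708) (nat_lit 3)) .nil)) .nil)),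
 (.br (nat_lit 11) (nat_lit 0) (.cons (.rf (nat_lit 4550) (nat_lit 14242959524133701664)) (.cons (.br (nat_lit 11) (nat_lit 0) (.cons (.rf (nat_lit 4550) (nat_lit 14242959524133701664)) .nil)) .nil))),
 (.br (nat_lit 12) (nat_lit 0) (.cons (.rf (nat_lit 4551) (nat_lit 14242959524133701664)) (.cons (.br (nat_lit 12) (nat_lit 0) (.cons (.rf (nat_lit 4551) (nat_lit 14242959524133701664)) .nil)) .nil))),
 (.br (nat_lit 9) (nat_lit 0) (.cons (.br (nat_lit 9) (nat_lit 0) .nil) .nil)),
 (.br (nat_lit 6) (nat_lit 0) (.cons (.br (nat_lit 6) (nat_lit 0) (.cons (.rf (nat_lit 4553) (nat_lit 325702574508064)) .nil)) (.cons (.rf (nat_lit 4553) (nat_lit 325702574508064)) .nil))),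
 (.br (nat_lit 8) (nat_lit 0) (.cons (.rf (nat_lit 4554) (nat_lit 9043225708576)) (.cons (.br (nat_lit 8) (nat_lit 0) (.cons (.rf (nat_lit 4554) (nat_lit 9043225708576)) .nil)) .nil))),
 (.br (nat_lit 9) (nat_lit 0) (.cons (.rf (nat_lit 4554) (nat_lit 10178204370976)) (.cons (.rf (nat_lit 4555) (nat_lit 10178204370976)) (.cons (.br (nat_lit 9) (nat_lit 0) (.cons (.rf (nat_lit 4554) (nat_lit 10178204370976)) (.cons (.rf (nat_lit 4555) (nat_lit 10178204370976)) .nil))) .nil)))),
 (.br (nat_lit 9) (nat_lit 0) (.cons (.br (nat_lit 9) (nat_lit 0) .nil) .nil)),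
 (.br (nat_lit 9) (nat_lit 0) (.cons (.rf (nat_lit 4554) (nat_lit 13549758973953)) (.cons (.rf (nat_lit 4554) (nat_lit 13583044970497)) (.cons (.ev (nat_lit 4722366764344638701824) (nat_lit 1)) (.cons (.br (nat_lit 11) (nat_lit 0) (.cons (.rf (nat_lit 4557) (nat_lit 470979979642912)) (.cons (.ev (nat_lit 309489732260167007401410561) (nat_lit 1)) .nil))) .nil))))),
 (.br (nat_lit 12) (nat_lit 0) (.cons (.ev (nat_lit 4722366764344638701824) (nat_lit 1)) (.cons (.rf (nat_lit 4558) (nat_lit 14242959524133701664)) (.cons (.br (nat_lit 12) (nat_lit 0) (.cons (.ev (nat_lit 4722366764344638701824) (nat_lit 1)) (.cons (.rf (nat_lit 4558) (nat_lit 14242959524133701664)) .nil))) .nil)))),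
 (.br (nat_lit 11) (nat_lit 0) (.cons (.ev (nat_lit 4722366764344638701824) (nat_lit 1)) (.cons (.br (nat_lit 11) (nat_lit 0) (.cons (.ev (nat_lit 4722366764344638701824) (nat_lit 1)) (.cons (.rf (nat_lit 4559) (nat_lit 13057386922228418592)) .nil))) (.cons (.rf (nat_lit 4559) (nat_lit 13056261022321575968)) .nil)))),
 (.br (nat_lit 8) (nat_lit 0) (.cons (.br (nat_lit 9) (nat_lit 0) .nil) .nil)),
 (.br (nat_lit 8) (nat_lit 0) (.cons (.rf (nat_lit 4561) (nat_lit 9043225708576)) (.cons (.br (nat_lit 8) (nat_lit 0) (.cons (.rf (nat_lit 4561) (nat_lit 9043225708576)) .nil)) .nil))),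
 (.br (nat_lit 9) (nat_lit 0) (.cons (.ev (nat_lit 4722366483969156907264) (nat_lit 1)) (.cons (.rf (nat_lit 4562) (nat_lit 12448163825696)) .nil))),
 (.br (nat_lit 11) (nat_lit 0) (.cons (.ev (nat_lit 79541283746277775971723510275) (nat_lit 2)) (.cons (.rf (nat_lit 4557) (nat_lit 470944613271584)) .nil))),
 (.br (nat_lit 6) (nat_lit 0) (.cons (.ev (nat_lit 79541283746277775971723510275) (nat_lit 2)) (.cons (.rf (nat_lit 4557) (nat_lit 470944450742273)) .nil))),
 (.br (nat_lit 8) (nat_lit 0) (.cons (.br (nat_lit 8) (nat_lit 0) .nil) .nil)),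
 (.br (nat_lit 9) (nat_lit 0) (.cons (.rf (nat_lit 4566) (nat_lit 325702574508064)) (.cons (.br (nat_lit 9) (nat_lit 0) (.cons (.rf (nat_lit 4566) (nat_lit 325702574508064)) .nil)) .nil))),
 (.br (nat_lit 8) (nat_lit 0) (.cons (.rf (nat_lit 4567) (nat_lit 325702574508064)) (.cons (.rf (nat_lit 4567) (nat_lit 325599498438657)) (.cons (.br (nat_lit 8) (nat_lit 0) (.cons (.rf (nat_lit 4567) (nat_lit 325702574508064)) (.cons (.rf (nat_lit 4567) (nat_lit 325599498438657)) .nil))) .nil)))),
 (.br (nat_lit 9) (nat_lit 0) (.cons (.rf (nat_lit 4563) (nat_lit 12746919793231904)) (.cons (.rf (nat_lit 4563) (nat_lit 7117425627727873)) (.cons (.br (nat_lit 10) (nat_lit 0) (.cons (.ev (nat_lit 1208925819615728686399489) (nat_lit 1)) (.cons (.ev (nat_lit 1208925819615728686399744) (nat_lit 1)) (.cons (.br (nat_lit 12) (nat_lit 0) (.cons (.rf (nat_lit 4564) (nat_lit 14242959524133701664)) (.cons (.rf (nat_lit 4565) (nat_lit 14242959524133701664)) (.cons (.br (nat_lit 12) (nat_lit 0) (.cons (.rf (nat_lit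 4564) (nat_lit 14242959524133701664)) (.cons (.rf (nat_lit 4565) (nat_lit 14242959524133701664)) .nil))) .nil)))) (.cons (.rf (nat_lit 4568) (nat_lit 470979979642912)) .nil))))) .nil)))),
 (.br (nat_lit 13) (nat_lit 0) (.cons (.ev (nat_lit 309489750634854586567884801) (nat_lit 1)) (.cons (.br (nat_lit 13) (nat_lit 0) (.cons (.ev (nat_lit 309489750634854586567884801) (nat_lit 1)) .nil)) .nil))),
 (.br (nat_lit 13) (nat_lit 0) (.cons (.rf (nat_lit 4570) (nat_lit 493858305440582043680)) (.cons (.ev (nat_lit 309489750634854586567884801) (nat_lit 1)) (.cons (.br (nat_lit 13) (nat_lit 0) (.cons (.rf (nat_lit 4570) (nat_lit 493858305440582043680)) (.cons (.ev (nat_lit 309489750634854586567884801) (nat_lit 1)) .nil))) .nil)))),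
 (.br (nat_lit 8) (nat_lit 0) (.cons (.br (nat_lit 8) (nat_lit 0) .nil) .nil)),
 (.br (nat_lit 6) (nat_lit 0) (.cons (.rf (nat_lit 4555) (nat_lit 13547776116768)) (.cons (.rf (nat_lit 4572) (nat_lit 13583142488096)) (.cons (.rf (nat_lit 4571) (nat_lit 493858305440582043680)) (.cons (.rf (nat_lit 4571) (nat_lit 458117738797769787424)) .nil))))),
 (.br (nat_lit 13) (nat_lit 0) (.cons (.ev (nat_lit 309489750634854586567884801) (nat_lit 1)) (.cons (.rf (nat_lit 4573) (nat_lit 458117738797769787424)) (.cons (.br (nat_lit 13) (nat_lit 0) (.cons (.ev (nat_lit 309489750634854586567884801) (nat_lit 1)) (.cons (.rf (nat_lit 4573) (nat_lit 458117738797769787424)) .nil))) .nil)))),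
 (.br (nat_lit 1) (nat_lit 0) (.cons (.kr (nat_lit 1) (nat_lit 256) (nat_lit 0) (nat_lit 2)) (.cons (.br (nat_lit 6) (nat_lit 0) (.cons (.ev (nat_lit 4740885567111881031681) (nat_lit 1)) (.cons (.br (nat_lit 9) (nat_lit 0) (.cons (.ev (nat_lit 4722366764344638701824) (nat_lit 1)) (.cons (.br (nat_lit 10) (nat_lit 0) (.cons (.zr (nat_lit 37037605547403116547) (nat_lit 2427296372757947610169856) (nat_lit 5) (nat_lit 4)) (.cons (.rf (nat_lit 4556) (nat_lit 433595443447840)) .nil))) (.cons (.br (nat_lit 12) (nat_lit 0) (.cons (.rf (nat_lit 4554) (nat_lit 13549856491552)) (.cons (.rf (nat_lit 4552) (nat_lit 14242959524133701664)) (.cons (.br (nat_lit 12) (nat_lit 0) (.cons (.rf (nat_lit 4554) (nat_lit 13549856491552)) (.cons (.rf (nat_lit 4552) (nat_lit 14242959524133701664)) .nil))) .nil)))) .nil)))) (.cons (.br (nat_lit 11) (nat_lit 0) (.cons (.ev (nat_lit 4722366764344638701824) (nat_lit 1)) (.cons (.kr (nat_lit 18518802767259107330) (nat_lit 618970019642690137466339840) (nat_lit 0) (nat_lit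 2)) (.cons (.rf (nat_lit 4556) (nat_lit 434660528228384)) .nil)))) (.cons (.br (nat_lit 12) (nat_lit 0) (.cons (.ev (nat_lit 4722366764344638701824) (nat_lit 1)) (.cons (.rf (nat_lit 4559) (nat_lit 14242959524133701664)) (.cons (.rf (nat_lit 4560) (nat_lit 445056165777344544)) (.cons (.br (nat_lit 12) (nat_lit 0) (.cons (.ev (nat_lit 4722366764344638701824) (nat_lit 1)) (.cons (.rf (nat_lit 4559) (nat_lit 14242959524133701664)) (.cons (.rf (nat_lit 4560) (nat_lit 445056165777344544)) .nil)))) .nil))))) .nil))))) (.cons (.kr (nat_lit 18446745173221179394) (nat_lit 72057594054705664) (nat_lit 0) (nat_lit 2)) (.cons (.br (nat_lit 9) (nat_lit 0) (.cons (.br (nat_lit 9) (nat_lit 0) (.cons (.rf (nat_lit 4563) (nat_lit 12746919793231904)) (.cons (.ev (nat_lit 309489732260167007401410816) (nat_lit 1)) (.cons (.rf (nat_lit 4556) (nat_lit 432463652456480)) .nil)))) (.cons (.rf (nat_lit 4569) (nat_lit 407901468851537952)) (.cons (.br (nat_lit 9) (nat_lit 0) (.cons (.ev (nat_lit 309489732260167007401410816)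 (nat_lit 1)) (.cons (.rf (nat_lit 4563) (nat_lit 7117425627727873)) (.cons (.rf (nat_lit 4556) (nat_lit 432458288990209)) .nil)))) (.cons (.br (nat_lit 9) (nat_lit 0) (.cons (.rf (nat_lit 4556) (nat_lit 432463652456480)) (.cons (.rf (nat_lit 4569) (nat_lit 407901468851537952)) (.cons (.rf (nat_lit 4556) (nat_lit 432458288990209)) (.cons (.br (nat_lit 12) (nat_lit 0) (.cons (.rf (nat_lit 4571) (nat_lit 493858305440582043680)) (.cons (.rf (nat_lit 4573) (nat_lit 493858305440582043680)) (.cons (.rf (nat_lit 4574) (nat_lit 493858305440582043680)) (.cons (.br (nat_lit 12) (nat_lit 0) (.cons (.rf (nat_lit 4571) (nat_lit 493858305440582043680)) (.cons (.rf (nat_lit 4573) (nat_lit 493858305440582043680)) (.cons (.rf (nat_lit 4574) (nat_lit 493858305440582043680)) .nil)))) .nil))))) .nil))))) .nil))))) (.cons (.rf (nat_lit 4549) (nat_lit 12289)) .nil)))))),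
 (.br (nat_lit 7) (nat_lit 0) (.cons (.br (nat_lit 8) (nat_lit 0) (.cons (.br (nat_lit 8) (nat_lit 0) .nil) .nil)) .nil)),
 (.br (nat_lit 10) (nat_lit 0) (.cons (.rf (nat_lit 4576) (nat_lit 389002954784)) (.cons (.br (nat_lit 11) (nat_lit 0) (.cons (.zr (nat_lit 3626777459688312471028480) (nat_lit 309494454554310816605274114) (nat_lit 5) (nat_lit 6)) (.cons (.rf (nat_lit 4562) (nat_lit 13515528276000)) .nil))) (.cons (.rf (nat_lit 4556) (nat_lit 433595441416224)) .nil)))),
 (.br (nat_lit 10) (nat_lit 0) (.cons (.rf (nat_lit 4576) (nat_lit 389002954784)) (.cons (.br (nat_lit 11) (nat_lit 0) (.cons (.zr (nat_lit 3626777459688312471027714) (nat_lit 309494454554310816605274368) (nat_lit 5) (nat_lit 6)) (.cons (.rf (nat_lit 4562) (nat_lit 13343734827009)) .nil))) (.cons (.rf (nat_lit 4556) (nat_lit 433590077949953)) .nil)))),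
 (.br (nat_lit 10) (nat_lit 0) (.cons (.rf (nat_lit 4577) (nat_lit 407901468851537952)) (.cons (.rf (nat_lit 4578) (nat_lit 407901468851537952)) (.cons (.br (nat_lit 11) (nat_lit 0) (.cons (.kr (nat_lit 18518802767259107330) (nat_lit 618970019642690137466339840) (nat_lit 0) (nat_lit 2)) (.cons (.kr (nat_lit 618970019642690137466339328) (nat_lit 18518802767259107328) (nat_lit 3) (nat_lit 0)) (.cons (.br (nat_lit 4) (nat_lit 0) (.cons (.ev (nat_lit 310698676526245339098775553) (nat_lit 1)) (.cons (.br (nat_lit 9) (nat_lit 0) (.cons (.ev (nat_lit 310698658007442571856445696) (nat_lit 1)) (.cons (.rf (nat_lit 4557) (nat_lit 470979977611296)) .nil))) (.cons (.br (nat_lit 9) (nat_lit 0) (.cons (.rf (nat_lit 4557) (nat_lit 470979815081985)) (.cons (.ev (nat_lit 310698658007442571856445696) (nat_lit 1)) .nil))) .nil)))) (.cons (.rf (nat_lit 4568) (nat_lit 470912365430816)) .nil))))) .nil)))),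
 (.br (nat_lit 11) (nat_lit 0) (.cons (.br (nat_lit 11) (nat_lit 0) (.cons (.ev (nat_lit 310693954087703771625881601) (nat_lit 1)) .nil)) (.cons (.br (nat_lit 11) (nat_lit 0) (.cons (.ev (nat_lit 310693954087703771625881601) (nat_lit 1)) .nil)) .nil))),
 (.br (nat_lit 11) (nat_lit 0) (.cons (.rf (nat_lit 4555) (nat_lit 14682652084256)) (.cons (.rf (nat_lit 4555) (nat_lit 14682489554945)) (.cons (.ev (nat_lit 310693954087703771625881601) (nat_lit 1)) .nil)))),
 (.br (nat_lit 13) (nat_lit 0) (.cons (.rf (nat_lit 4580) (nat_lit 493858305440582043680)) (.cons (.rf (nat_lit 4581) (nat_lit 493858305440582043680)) (.cons (.br (nat_lit 13) (nat_lit 0) (.cons (.rf (nat_lit 4580) (nat_lit 493858305440582043680)) (.cons (.rf (nat_lit 4581) (nat_lit 493858305440582043680)) .nil))) .nil)))),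
 (.br (nat_lit 13) (nat_lit 0) (.cons (.rf (nat_lit 4582) (nat_lit 458117738797769787424)) (.cons (.rf (nat_lit 4581) (nat_lit 493858305440582043680)) (.cons (.br (nat_lit 13) (nat_lit 0) (.cons (.rf (nat_lit 4582) (nat_lit 458117738797769787424)) (.cons (.rf (nat_lit 4581) (nat_lit 493858305440582043680)) .nil))) .nil)))),
 (.br (nat_lit 10) (nat_lit 0) (.cons (.rf (nat_lit 4577) (nat_lit 407901468851537952)) (.cons (.rf (nat_lit 4578) (nat_lit 407901468851537952)) (.cons (.rf (nat_lit 4579) (nat_lit 407901468851537952)) (.cons (.br (nat_lit 10) (nat_lit 0) (.cons (.rf (nat_lit 4556) (nat_lit 433595441416224)) (.cons (.rf (nat_lit 4556) (nat_lit 433590077949953)) (.cons (.rf (nat_lit 4579) (nat_lit 407901468851537952)) (.cons (.br (nat_lit 12) (nat_lit 0) (.cons (.rf (nat_lit 4582) (nat_lit 493858305440582043680)) (.cons (.rf (nat_lit 4583) (nat_lit 493858305440582043680)) (.cons (.rf (nat_lit 4581) (nat_lit 458117738797769787424)) (.cons (.br (nat_lit 12) (nat_lit 0) (.cons (.rf (nat_lit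 4582) (nat_lit 493858305440582043680)) (.cons (.rf (nat_lit 4583) (nat_lit 493858305440582043680)) (.cons (.rf (nat_lit 4581) (nat_lit 458117738797769787424)) .nil)))) .nil))))) .nil))))) .nil))))),
 (.br (nat_lit 9) (nat_lit 0) (.cons (.br (nat_lit 10) (nat_lit 0) (.cons (.ev (nat_lit 309485028340428215760781568) (nat_lit 1)) (.cons (.rf (nat_lit 4562) (nat_lit 13583140456480)) .nil))) (.cons (.kr (nat_lit 9444805024432840114176) (nat_lit 618970038089434219765825536) (nat_lit 2) (nat_lit 0)) (.cons (.rf (nat_lit 4556) (nat_lit 432463650424864)) .nil)))),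
 (.br (nat_lit 6) (nat_lit 0) (.cons (.rf (nat_lit 4562) (nat_lit 8905789933569)) (.cons (.rf (nat_lit 4562) (nat_lit 10005301561345)) .nil))),
 (.br (nat_lit 4) (nat_lit 0) (.cons (.rf (nat_lit 4585) (nat_lit 407901468851537952)) (.cons (.rf (nat_lit 4585) (nat_lit 406809683869931552)) (.cons (.br (nat_lit 9) (nat_lit 0) (.cons (.br (nat_lit 10) (nat_lit 0) (.cons (.ev (nat_lit 310698676526245339098775553) (nat_lit 1)) (.cons (.rf (nat_lit 4568) (nat_lit 470979977611296)) .nil))) .nil)) (.cons (.br (nat_lit 9) (nat_lit 0) (.cons (.rf (nat_lit 4586) (nat_lit 13583142488096)) (.cons (.br (nat_lit 10) (nat_lit 0) (.cons (.rf (nat_lit 4562) (nat_lit 13341589440513)) (.cons (.br (nat_lit 11) (nat_lit 0) (.cons (.ev (nat_lit 310698658007442571856445696) (nat_lit 1)) (.cons (.rf (nat_lit 4557) (nat_lit 470944611239968)) .nil))) (.cons (.rf (nat_lit 4568) (nat_lit 470979977611296)) .nil)))) (.cons (.br (nat_lit 10) (nat_lit 0) (.cons (.rf (nat_lit 4562) (nat_lit 14441101068289)) (.cons (.rf (nat_lit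 4568) (nat_lit 436895117150240)) (.cons (.br (nat_lit 11) (nat_lit 0) (.cons (.ev (nat_lit 310698658007442571856445696) (nat_lit 1)) (.cons (.rf (nat_lit 4557) (nat_lit 436859523237889)) .nil))) .nil)))) .nil)))) .nil))))),
 (.br (nat_lit 9) (nat_lit 0) (.cons (.kr (nat_lit 9444805024432840114176) (nat_lit 618970038089434219765825536) (nat_lit 2) (nat_lit 0)) (.cons (.rf (nat_lit 4587) (nat_lit 407901468851537952)) (.cons (.rf (nat_lit 4556) (nat_lit 432456141572097)) .nil)))),
 (.br (nat_lit 8) (nat_lit 0) (.cons (.kr (nat_lit 4722366482869645213697) (nat_lit 18446744073709551872) (nat_lit 0) (nat_lit 2)) .nil)),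
 (.br (nat_lit 11) (nat_lit 0) (.cons (.zr (nat_lit 18518801680632381697) (nat_lit 79847132533907027731043844096) (nat_lit 5) (nat_lit 0)) (.cons (.rf (nat_lit 4589) (nat_lit 470979979642912)) .nil))),
 (.br (nat_lit 10) (nat_lit 0) (.cons (.rf (nat_lit 4555) (nat_lit 13547774085152)) (.cons (.rf (nat_lit 4555) (nat_lit 13547546544129)) (.cons (.br (nat_lit 4) (nat_lit 0) (.cons (.ev (nat_lit 620193167974887624280178690) (nat_lit 2)) (.cons (.rf (nat_lit 4590) (nat_lit 493858305440582043680)) (.cons (.rf (nat_lit 4590) (nat_lit 458117738797769787424)) .nil)))) .nil))))]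

theorem c169 : chkAll C T R L169 (nat_lit 4548) = true := by decide +kernel

theorem l169 : (nat_lit 4548) + L169.length = (nat_lit 4592) := by decide +kernel

/-- part of the certificates -/
def L170 : List Prf := [(.br (nat_lit 1) (nat_lit 0) (.cons (.kr (nat_lit 1) (nat_lit 256) (nat_lit 0) (nat_lit 2)) (.cons (.rf (nat_lit 4584) (nat_lit 407901468851537952)) (.cons (.rf (nat_lit 4584) (nat_lit 406809683869931552)) (.cons (.br (nat_lit 9) (nat_lit 0) (.cons (.rf (nat_lit 4585) (nat_lit 407901468851537952)) (.cons (.rf (nat_lit 4587) (nat_lit 407901468851537952)) (.cons (.rf (nat_lit 4588) (nat_lit 407901468851537952)) (.cons (.br (nat_lit 9) (nat_lit 0) (.cons (.rf (nat_lit 4556) (nat_lit 432463650424864)) (.cons (.rf (nat_lit 4587) (nat_lit 407901468851537952)) (.cons (.rf (nat_lit 4556) (nat_lit 432456141572097)) (.cons (.br (nat_lit 10) (nat_lit 0) (.cons (.rf (nat_lit 4585) (nat_lit 406809683869931552)) (.cons (.rf (nat_lit 4588) (nat_lit 406809683869931552)) (.cons (.rf (nat_lit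 4591) (nat_lit 493858305440582043680)) (.cons (.rf (nat_lit 4591) (nat_lit 458117738797769787424)) .nil))))) .nil))))) .nil))))) (.cons (.rf (nat_lit 4549) (nat_lit 12289)) .nil)))))),
 (.br (nat_lit 8) (nat_lit 0) (.cons (.br (nat_lit 9) (nat_lit 0) .nil) .nil)),
 (.br (nat_lit 8) (nat_lit 0) (.cons (.rf (nat_lit 4593) (nat_lit 9043225708576)) (.cons (.br (nat_lit 8) (nat_lit 0) (.cons (.rf (nat_lit 4593) (nat_lit 9043225708576)) .nil)) .nil))),
 (.br (nat_lit 12) (nat_lit 0) (.cons (.br (nat_lit 12) (nat_lit 0) .nil) .nil)),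
 (.br (nat_lit 11) (nat_lit 0) (.cons (.rf (nat_lit 4594) (nat_lit 13582102300704)) (.cons (.br (nat_lit 13) (nat_lit 0) (.cons (.rf (nat_lit 4595) (nat_lit 493858305440582043680)) (.cons (.br (nat_lit 13) (nat_lit 0) (.cons (.rf (nat_lit 4595) (nat_lit 493858305440582043680)) .nil)) .nil))) .nil))),
 (.br (nat_lit 8) (nat_lit 0) (.cons (.br (nat_lit 9) (nat_lit 0) .nil) .nil)),
 (.br (nat_lit 8) (nat_lit 0) (.cons (.rf (nat_lit 4597) (nat_lit 9043225708576)) (.cons (.br (nat_lit 8) (nat_lit 0) (.cons (.rf (nat_lit 4597) (nat_lit 9043225708576)) .nil)) .nil))),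
 (.br (nat_lit 11) (nat_lit 0) (.cons (.rf (nat_lit 4598) (nat_lit 13578684106753)) (.cons (.br (nat_lit 13) (nat_lit 0) (.cons (.zr (nat_lit 310693935713298766947680512) (nat_lit 4759259972120870977536) (nat_lit 5) (nat_lit 6)) (.cons (.br (nat_lit 13) (nat_lit 0) (.cons (.zr (nat_lit 310693935713298766947680512) (nat_lit 4759259972120870977536) (nat_lit 5) (nat_lit 6)) .nil)) .nil))) .nil))),
 (.br (nat_lit 11) (nat_lit 0) (.cons (.ev (nat_lit 309485009821627647508152576) (nat_lit 1)) (.cons (.br (nat_lit 13) (nat_lit 0) (.cons (.ev (nat_lit 160315652957760581680178135552) (nat_lit 3)) .nil)) .nil))),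
 (.br (nat_lit 12) (nat_lit 0) (.cons (.ev (nat_lit 309485009821627647508152576) (nat_lit 1)) (.cons (.br (nat_lit 12) (nat_lit 0) (.cons (.ev (nat_lit 309485009821627647508152576) (nat_lit 1)) .nil)) .nil))),
 (.br (nat_lit 9) (nat_lit 0) (.cons (.br (nat_lit 9) (nat_lit 0) .nil) .nil)),
 (.br (nat_lit 8) (nat_lit 0) (.cons (.br (nat_lit 8) (nat_lit 0) .nil) .nil)),
 (.br (nat_lit 9) (nat_lit 0) (.cons (.rf (nat_lit 4603) (nat_lit 325702574508064)) (.cons (.br (nat_lit 9) (nat_lit 0) (.cons (.rf (nat_lit 4603) (nat_lit 325702574508064)) .nil)) .nil))),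
 (.br (nat_lit 10) (nat_lit 0) (.cons (.kr (nat_lit 618970019642690137466339328) (nat_lit 18518802767259107328) (nat_lit 3) (nat_lit 0)) (.cons (.br (nat_lit 11) (nat_lit 0) (.cons (.ev (nat_lit 160325343253782313122904410636) (nat_lit 4)) (.cons (.rf (nat_lit 4602) (nat_lit 470979979642912)) .nil))) (.cons (.rf (nat_lit 4604) (nat_lit 470979979642912)) .nil)))),
 (.br (nat_lit 9) (nat_lit 0) (.cons (.kr (nat_lit 618970019642690137466339328) (nat_lit 18518802767259107328) (nat_lit 3) (nat_lit 0)) (.cons (.br (nat_lit 11) (nat_lit 0) (.cons (.ev (nat_lit 79229371458602753894761168896) (nat_lit 1)) (.cons (.rf (nat_lit 4602) (nat_lit 470978939455520)) .nil))) (.cons (.rf (nat_lit 4604) (nat_lit 470978939455520)) .nil)))),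
 (.br (nat_lit 9) (nat_lit 0) (.cons (.ev (nat_lit 4740885567111881031681) (nat_lit 1)) (.cons (.ev (nat_lit 79229376162522492686401798401) (nat_lit 1)) (.cons (.ev (nat_lit 20282720302309677866514795986944) (nat_lit 1)) .nil)))),
 (.br (nat_lit 11) (nat_lit 0) (.cons (.rf (nat_lit 4605) (nat_lit 14242959524133701664)) (.cons (.rf (nat_lit 4606) (nat_lit 14242959524133701664)) (.cons (.br (nat_lit 13) (nat_lit 0) (.cons (.ev (nat_lit 309489732260167007401410561) (nat_lit 1)) (.cons (.br (nat_lit 13) (nat_lit 0) (.cons (.ev (nat_lit 309489732260167007401410561) (nat_lit 1)) (.cons (.rf (nat_lit 4607) (nat_lit 493858305440582043680)) .nil))) (.cons (.br (nat_lit 13) (nat_lit 0) (.cons (.ev (nat_lit 309489732260167007401410561) (nat_lit 1)) (.cons (.rf (nat_lit 4607) (nat_lit 493858305440582043680)) .nil))) .nil)))) .nil)))),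
 (.br (nat_lit 11) (nat_lit 0) (.cons (.rf (nat_lit 4605) (nat_lit 14242959524133701664)) (.cons (.rf (nat_lit 4606) (nat_lit 14242959524133701664)) (.cons (.rf (nat_lit 4608) (nat_lit 14242959524133701664)) (.cons (.br (nat_lit 11) (nat_lit 0) (.cons (.rf (nat_lit 4605) (nat_lit 14242959524133701664)) (.cons (.rf (nat_lit 4606) (nat_lit 14242959524133701664)) (.cons (.rf (nat_lit 4608) (nat_lit 14242959524133701664)) .nil)))) .nil))))),
 (.br (nat_lit 9) (nat_lit 0) (.cons (.br (nat_lit 7) (nat_lit 0) .nil) .nil)),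
 (.br (nat_lit 10) (nat_lit 0) (.cons (.rf (nat_lit 4610) (nat_lit 362021925259296)) (.cons (.br (nat_lit 8) (nat_lit 0) (.cons (.rf (nat_lit 4610) (nat_lit 362021925259296)) .nil)) .nil))),
 (.br (nat_lit 4) (nat_lit 0) (.cons (.br (nat_lit 11) (nat_lit 0) (.cons (.ev (nat_lit 792912722218077569421242535424) (nat_lit 4)) (.cons (.rf (nat_lit 4602) (nat_lit 470975521261569)) .nil))) (.cons (.rf (nat_lit 4609) (nat_lit 14242959524133701664)) (.cons (.rf (nat_lit 4611) (nat_lit 15071359384291360)) .nil)))),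
 (.br (nat_lit 10) (nat_lit 0) (.cons (.ev (nat_lit 79538856449977355989304803585) (nat_lit 1)) (.cons (.br (nat_lit 11) (nat_lit 0) (.cons (.ev (nat_lit 476614187588062625581219447810) (nat_lit 3)) .nil)) .nil))),
 (.br (nat_lit 12) (nat_lit 0) (.cons (.rf (nat_lit 4609) (nat_lit 14242959524133701664)) (.cons (.rf (nat_lit 4612) (nat_lit 14242959524133701664)) (.cons (.br (nat_lit 13) (nat_lit 0) (.cons (.rf (nat_lit 4613) (nat_lit 493858305440582043680)) (.cons (.br (nat_lit 13) (nat_lit 0) (.cons (.rf (nat_lit 4613) (nat_lit 493858305440582043680)) (.cons (.ev (nat_lit 476614187588062625581219447810) (nat_lit 3)) .nil))) (.cons (.br (nat_lit 13) (nat_lit 0) (.cons (.rf (nat_lit 4613) (nat_lit 493858305440582043680)) (.cons (.ev (nat_lit 476614187588062625581219447810) (nat_lit 3)) .nil))) .nil)))) .nil)))),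
 (.br (nat_lit 12) (nat_lit 0) (.cons (.rf (nat_lit 4609) (nat_lit 14242959524133701664)) (.cons (.rf (nat_lit 4612) (nat_lit 14242959524133701664)) (.cons (.rf (nat_lit 4614) (nat_lit 14242959524133701664)) (.cons (.br (nat_lit 12) (nat_lit 0) (.cons (.rf (nat_lit 4609) (nat_lit 14242959524133701664)) (.cons (.rf (nat_lit 4612) (nat_lit 14242959524133701664)) (.cons (.rf (nat_lit 4614) (nat_lit 14242959524133701664)) .nil)))) .nil))))),
 (.br (nat_lit 13) (nat_lit 0) (.cons (.ev (nat_lit 79229376162522492686401798144) (nat_lit 1)) (.cons (.rf (nat_lit 4607) (nat_lit 458117738797769787424)) .nil))),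
 (.br (nat_lit 12) (nat_lit 0) (.cons (.rf (nat_lit 4609) (nat_lit 14242959524133701664)) (.cons (.rf (nat_lit 4615) (nat_lit 14242959524133701664)) (.cons (.br (nat_lit 13) (nat_lit 0) (.cons (.rf (nat_lit 4616) (nat_lit 493858305440582043680)) (.cons (.ev (nat_lit 79229376162522492686401798144) (nat_lit 1)) (.cons (.br (nat_lit 13) (nat_lit 0) (.cons (.rf (nat_lit 4607) (nat_lit 458117738797769787424)) (.cons (.ev (nat_lit 309489732260167007401410561) (nat_lit 1)) .nil))) .nil)))) .nil)))),
 (.br (nat_lit 12) (nat_lit 0) (.cons (.rf (nat_lit 4609) (nat_lit 14242959524133701664)) (.cons (.rf (nat_lit 4615) (nat_lit 14242959524133701664)) (.cons (.rf (nat_lit 4617) (nat_lit 14242959524133701664)) (.cons (.br (nat_lit 12) (nat_lit 0) (.cons (.rf (nat_lit 4609) (nat_lit 14242959524133701664)) (.cons (.rf (nat_lit 4615) (nat_lit 14242959524133701664)) (.cons (.rf (nat_lit 4617) (nat_lit 14242959524133701664)) .nil)))) .nil))))),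
 (.br (nat_lit 12) (nat_lit 0) (.cons (.rf (nat_lit 4609) (nat_lit 14242959524133701664)) (.cons (.rf (nat_lit 4615) (nat_lit 14242959524133701664)) (.cons (.rf (nat_lit 4618) (nat_lit 14242959524133701664)) (.cons (.br (nat_lit 12) (nat_lit 0) (.cons (.rf (nat_lit 4609) (nat_lit 14242959524133701664)) (.cons (.rf (nat_lit 4615) (nat_lit 14242959524133701664)) (.cons (.rf (nat_lit 4618) (nat_lit 14242959524133701664)) .nil)))) .nil))))),
 (.br (nat_lit 8) (nat_lit 0) (.cons (.br (nat_lit 8) (nat_lit 0) .nil) .nil)),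
 (.br (nat_lit 9) (nat_lit 0) (.cons (.rf (nat_lit 4620) (nat_lit 291549061679136)) (.cons (.br (nat_lit 9) (nat_lit 0) (.cons (.rf (nat_lit 4620) (nat_lit 291549061679136)) .nil)) .nil))),
 (.br (nat_lit 6) (nat_lit 0) (.cons (.rf (nat_lit 4594) (nat_lit 9007859337248)) (.cons (.br (nat_lit 6) (nat_lit 0) (.cons (.rf (nat_lit 4594) (nat_lit 9007859337248)) (.cons (.rf (nat_lit 4621) (nat_lit 325702574508064)) .nil))) (.cons (.rf (nat_lit 4621) (nat_lit 325702574508064)) .nil)))),
 (.br (nat_lit 8) (nat_lit 0) (.cons (.br (nat_lit 9) (nat_lit 0) .nil) .nil)),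
 (.br (nat_lit 8) (nat_lit 0) (.cons (.rf (nat_lit 4623) (nat_lit 9043225708576)) (.cons (.br (nat_lit 8) (nat_lit 0) (.cons (.rf (nat_lit 4623) (nat_lit 9043225708576)) .nil)) .nil))),
 (.br (nat_lit 12) (nat_lit 0) (.cons (.rf (nat_lit 4604) (nat_lit 470939082196993)) (.cons (.br (nat_lit 12) (nat_lit 0) (.cons (.ev (nat_lit 316919931965125648864822559748) (nat_lit 3)) .nil)) .nil))),
 (.br (nat_lit 8) (nat_lit 0) (.cons (.br (nat_lit 8) (nat_lit 0) .nil) .nil)),
 (.br (nat_lit 9) (nat_lit 0) (.cons (.rf (nat_lit 4626) (nat_lit 291514570934273)) (.cons (.br (nat_lit 9) (nat_lit 0) (.cons (.rf (nat_lit 4626) (nat_lit 291514570934273)) .nil)) .nil))),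
 (.br (nat_lit 10) (nat_lit 0) (.cons (.ev (nat_lit 1213666632842676336066816) (nat_lit 1)) (.cons (.rf (nat_lit 4602) (nat_lit 470946693646368)) .nil))),
 (.br (nat_lit 4) (nat_lit 0) (.cons (.ev (nat_lit 1213666632842676336066816) (nat_lit 1)) (.cons (.br (nat_lit 13) (nat_lit 0) (.cons (.ev (nat_lit 159080149659434562510976451072) (nat_lit 3)) .nil)) .nil))),
 (.br (nat_lit 11) (nat_lit 0) (.cons (.ev (nat_lit 310693935713299866425819393) (nat_lit 1)) .nil)),
 (.br (nat_lit 8) (nat_lit 0) (.cons (.rf (nat_lit 4602) (nat_lit 325666003388417)) (.cons (.br (nat_lit 8) (nat_lit 0) (.cons (.rf (nat_lit 4602) (nat_lit 325666003388417)) .nil)) .nil))),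
 (.br (nat_lit 10) (nat_lit 0) (.cons (.ev (nat_lit 1208925819615728686399744) (nat_lit 1)) (.cons (.br (nat_lit 11) (nat_lit 0) (.cons (.ev (nat_lit 79537652264899192184423579905) (nat_lit 1)) (.cons (.br (nat_lit 13) (nat_lit 0) (.cons (.ev (nat_lit 80157840636864456556325962243) (nat_lit 2)) .nil)) .nil))) (.cons (.rf (nat_lit 4631) (nat_lit 470979979642912)) .nil)))),
 (.br (nat_lit 10) (nat_lit 0) (.cons (.ev (nat_lit 1208925819615728686399744) (nat_lit 1)) (.cons (.br (nat_lit 4) (nat_lit 0) (.cons (.ev (nat_lit 478468727019451462394375964172) (nat_lit 4)) (.cons (.br (nat_lit 13) (nat_lit 0) (.cons (.ev (nat_lit 79538856449977355989304803585) (nat_lit 1)) .nil)) .nil))) (.cons (.rf (nat_lit 4631) (nat_lit 470739364186113)) .nil)))),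
 (.br (nat_lit 9) (nat_lit 0) (.cons (.rf (nat_lit 4610) (nat_lit 325666001356801)) .nil)),
 (.br (nat_lit 4) (nat_lit 0) (.cons (.rf (nat_lit 4627) (nat_lit 434660626827296)) (.cons (.rf (nat_lit 4634) (nat_lit 434660627843104)) (.cons (.br (nat_lit 10) (nat_lit 0) (.cons (.rf (nat_lit 4610) (nat_lit 434627341846560)) (.cons (.br (nat_lit 11) (nat_lit 0) (.cons (.ev (nat_lit 79540065375869592257670807811) (nat_lit 2)) .nil)) .nil))) .nil)))),
 (.br (nat_lit 12) (nat_lit 0) (.cons (.ev (nat_lit 79537647524085965236773912833) (nat_lit 1)) .nil)),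
 (.br (nat_lit 11) (nat_lit 0) (.cons (.rf (nat_lit 4604) (nat_lit 470944613271584)) (.cons (.rf (nat_lit 4611) (nat_lit 15070117003298817)) (.cons (.br (nat_lit 10) (nat_lit 0) (.cons (.rf (nat_lit 4636) (nat_lit 493858305440582043680)) (.cons (.br (nat_lit 12) (nat_lit 0) (.cons (.rf (nat_lit 4636) (nat_lit 493858305440582043680)) (.cons (.ev (nat_lit 20282719088661492051590481248256) (nat_lit 1)) .nil))) .nil))) .nil)))),
 (.br (nat_lit 12) (nat_lit 0) (.cons (.rf (nat_lit 4611) (nat_lit 15070117003298817)) (.cons (.br (nat_lit 4) (nat_lit 0) (.cons (.ev (nat_lit 80159106231155895760616622095) (nat_lit 4)) (.cons (.br (nat_lit 10) (nat_lit 0) (.cons (.ev (nat_lit 40565438196231257632960570982402) (nat_lit 3)) .nil)) .nil))) .nil))),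
 (.br (nat_lit 12) (nat_lit 0) (.cons (.rf (nat_lit 4637) (nat_lit 493858305440582043680)) (.cons (.rf (nat_lit 4638) (nat_lit 493858305440582043680)) (.cons (.br (nat_lit 12) (nat_lit 0) (.cons (.rf (nat_lit 4637) (nat_lit 493858305440582043680)) (.cons (.rf (nat_lit 4638) (nat_lit 493858305440582043680)) .nil))) .nil)))),
 (.br (nat_lit 12) (nat_lit 0) (.cons (.rf (nat_lit 4611) (nat_lit 15070117003298817)) (.cons (.rf (nat_lit 4639) (nat_lit 493858305440582043680)) (.cons (.br (nat_lit 12) (nat_lit 0) (.cons (.rf (nat_lit 4611) (nat_lit 15070117003298817)) (.cons (.rf (nat_lit 4639) (nat_lit 493858305440582043680)) .nil))) .nil)))),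
 (.br (nat_lit 1) (nat_lit 0) (.cons (.rf (nat_lit 4575) (nat_lit 407901468851537952)) (.cons (.rf (nat_lit 4592) (nat_lit 407901468851537952)) (.cons (.br (nat_lit 6) (nat_lit 0) (.cons (.br (nat_lit 9) (nat_lit 0) (.cons (.ev (nat_lit 4722366764344638701824) (nat_lit 1)) (.cons (.br (nat_lit 10) (nat_lit 0) (.cons (.zr (nat_lit 4796153459168828784897) (nat_lit 4835703351643110155223040) (nat_lit 10) (nat_lit 2)) (.cons (.rf (nat_lit 4622) (nat_lit 13515530307616)) .nil))) (.cons (.rf (nat_lit 4622) (nat_lit 13549856491552)) .nil)))) (.cons (.ev (nat_lit 4740885567111881031681) (nat_lit 1)) (.cons (.br (nat_lit 4) (nat_lit 0) (.cons (.ev (nat_lit 4722366764344638701824) (nat_lit 1)) (.cons (.br (nat_lit 9) (nat_lit 0) (.cons (.ev (nat_lit 309485009821627647508152321) (nat_lit 1)) (.cons (.rf (nat_lit 4598) (nat_lit 13583142488096)) .nil))) (.cons (.br (nat_lit 11) (nat_lit 0) (.cons (.rf (nat_lit 4598) (nat_lit 13578684106753)) (.cons (.rf (nat_lit 4599) (nat_lit 14242959524133701664))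 (.cons (.rf (nat_lit 4627) (nat_lit 470946693646368)) .nil)))) .nil)))) (.cons (.br (nat_lit 4) (nat_lit 0) (.cons (.ev (nat_lit 72340172821299456) (nat_lit 1)) (.cons (.br (nat_lit 9) (nat_lit 0) (.cons (.ev (nat_lit 4864055996160709459314182) (nat_lit 3)) (.cons (.rf (nat_lit 4598) (nat_lit 13583140456480)) .nil))) (.cons (.kr (nat_lit 18518802767259107330) (nat_lit 618970019642690137466339840) (nat_lit 0) (nat_lit 2)) (.cons (.br (nat_lit 9) (nat_lit 0) (.cons (.rf (nat_lit 4622) (nat_lit 13412254124033)) (.cons (.kr (nat_lit 72057594037927936) (nat_lit 309485009821345068724781056) (nat_lit 7) (nat_lit 0)) (.cons (.br (nat_lit 12) (nat_lit 0) (.cons (.rf (nat_lit 4600) (nat_lit 14242959524133701664)) (.cons (.ev (nat_lit 309485028340428215760781568) (nat_lit 1)) (.cons (.br (nat_lit 12) (nat_lit 0) (.cons (.rf (nat_lit 4600) (nat_lit 14242959524133701664)) (.cons (.ev (nat_lit 309485009821627647508152576) (nat_lit 1)) .nil))) .nil)))) (.cons (.br (nat_lit 12) (nat_lit 0) (.cons (.rf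 (nat_lit 4601) (nat_lit 493858305440582043680)) (.cons (.ev (nat_lit 309485028340428215760781568) (nat_lit 1)) (.cons (.br (nat_lit 12) (nat_lit 0) (.cons (.rf (nat_lit 4601) (nat_lit 493858305440582043680)) (.cons (.ev (nat_lit 309485028340428215760781568) (nat_lit 1)) .nil))) .nil)))) .nil))))) .nil))))) (.cons (.br (nat_lit 12) (nat_lit 0) (.cons (.rf (nat_lit 4609) (nat_lit 14242959524133701664)) (.cons (.rf (nat_lit 4615) (nat_lit 14242959524133701664)) (.cons (.rf (nat_lit 4618) (nat_lit 14242959524133701664)) (.cons (.rf (nat_lit 4619) (nat_lit 14242959524133701664)) (.cons (.br (nat_lit 12) (nat_lit 0) (.cons (.rf (nat_lit 4609) (nat_lit 14242959524133701664)) (.cons (.rf (nat_lit 4615) (nat_lit 14242959524133701664)) (.cons (.rf (nat_lit 4618) (nat_lit 14242959524133701664)) (.cons (.rf (nat_lit 4619) (nat_lit 14242959524133701664)) .nil))))) .nil)))))) .nil)))))) (.cons (.br (nat_lit 6) (nat_lit 0) (.cons (.br (nat_lit 9) (nat_lit 0) (.cons (.br (nat_lit 11) (nat_lit 0) (.cons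 (.zr (nat_lit 4796153459164533817601) (nat_lit 1237940039357438981333581824) (nat_lit 10) (nat_lit 2)) (.cons (.rf (nat_lit 4622) (nat_lit 13514490120224)) .nil))) (.cons (.ev (nat_lit 4722366764344638701824) (nat_lit 1)) (.cons (.rf (nat_lit 4622) (nat_lit 13583142488096)) .nil)))) (.cons (.ev (nat_lit 4740885567111881031681) (nat_lit 1)) (.cons (.br (nat_lit 9) (nat_lit 0) (.cons (.ev (nat_lit 72340172821299456) (nat_lit 1)) (.cons (.ev (nat_lit 1208925819615728686399489) (nat_lit 1)) (.cons (.br (nat_lit 4) (nat_lit 0) (.cons (.ev (nat_lit 1213666632842676336066561) (nat_lit 1)) (.cons (.rf (nat_lit 4622) (nat_lit 13411181430785)) .nil))) (.cons (.br (nat_lit 4) (nat_lit 0) (.cons (.rf (nat_lit 4624) (nat_lit 13583142488096)) (.cons (.rf (nat_lit 4598) (nat_lit 13549854459936)) (.cons (.br (nat_lit 10) (nat_lit 0) (.cons (.ev (nat_lit 1242785205815613921071334918) (nat_lit 3)) (.cons (.br (nat_lit 11) (nat_lit 0) (.cons (.ev (nat_lit 159076503974207999372697927939) (nat_lit 2)) (.cons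 (.br (nat_lit 13) (nat_lit 0) (.cons (.ev (nat_lit 80160258488359007668056162305) (nat_lit 2)) .nil)) .nil))) (.cons (.rf (nat_lit 4631) (nat_lit 470979977611296)) .nil)))) (.cons (.br (nat_lit 12) (nat_lit 0) (.cons (.rf (nat_lit 4625) (nat_lit 493858305440582043680)) (.cons (.rf (nat_lit 4604) (nat_lit 470939082196993)) (.cons (.br (nat_lit 12) (nat_lit 0) (.cons (.rf (nat_lit 4625) (nat_lit 493858305440582043680)) (.cons (.rf (nat_lit 4604) (nat_lit 470939082196993)) .nil))) .nil)))) .nil))))) .nil))))) (.cons (.br (nat_lit 4) (nat_lit 0) (.cons (.ev (nat_lit 4722366764344638701824) (nat_lit 1)) (.cons (.br (nat_lit 9) (nat_lit 0) (.cons (.ev (nat_lit 1237968392004208384746325510) (nat_lit 3)) (.cons (.rf (nat_lit 4598) (nat_lit 13549856491552)) .nil))) (.cons (.br (nat_lit 10) (nat_lit 0) (.cons (.rf (nat_lit 4598) (nat_lit 13544325416961)) (.cons (.br (nat_lit 10) (nat_lit 0) (.cons (.ev (nat_lit 1213666632842676336066816) (nat_lit 1)) (.cons (.rf (nat_lit 4627) (nat_lit 470979979642912))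 .nil))) (.cons (.rf (nat_lit 4627) (nat_lit 470979979642912)) .nil)))) .nil)))) (.cons (.br (nat_lit 9) (nat_lit 0) (.cons (.br (nat_lit 10) (nat_lit 0) (.cons (.zr (nat_lit 4722510601356256018688) (nat_lit 928455029464035214797832192) (nat_lit 5) (nat_lit 9)) (.cons (.br (nat_lit 10) (nat_lit 0) (.cons (.zr (nat_lit 4722510601356256018688) (nat_lit 928455029464035214797832192) (nat_lit 5) (nat_lit 9)) (.cons (.rf (nat_lit 4627) (nat_lit 470911325243424)) .nil))) (.cons (.rf (nat_lit 4627) (nat_lit 470911325243424)) .nil)))) (.cons (.br (nat_lit 11) (nat_lit 0) (.cons (.rf (nat_lit 4598) (nat_lit 13542245042177)) (.cons (.rf (nat_lit 4624) (nat_lit 13342529062913)) (.cons (.br (nat_lit 12) (nat_lit 0) (.cons (.rf (nat_lit 4628) (nat_lit 14242959524133701664)) (.cons (.rf (nat_lit 4629) (nat_lit 14242959524133701664)) (.cons (.br (nat_lit 12) (nat_lit 0) (.cons (.rf (nat_lit 4628) (nat_lit 14242959524133701664)) (.cons (.rf (nat_lit 4629) (nat_lit 14242959524133701664)) .nil))) .nil))))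 (.cons (.br (nat_lit 12) (nat_lit 0) (.cons (.rf (nat_lit 4604) (nat_lit 470946693646368)) (.cons (.br (nat_lit 12) (nat_lit 0) (.cons (.ev (nat_lit 1213666632842676336066816) (nat_lit 1)) (.cons (.rf (nat_lit 4630) (nat_lit 15433072045017106464)) .nil))) (.cons (.br (nat_lit 12) (nat_lit 0) (.cons (.rf (nat_lit 4604) (nat_lit 470946693646368)) (.cons (.rf (nat_lit 4630) (nat_lit 15433072045017106464)) .nil))) .nil)))) .nil))))) (.cons (.rf (nat_lit 4622) (nat_lit 13342529062913)) (.cons (.br (nat_lit 10) (nat_lit 0) (.cons (.rf (nat_lit 4632) (nat_lit 14242959524133701664)) (.cons (.rf (nat_lit 4633) (nat_lit 14242959524133701664)) (.cons (.br (nat_lit 10) (nat_lit 0) (.cons (.rf (nat_lit 4632) (nat_lit 14242959524133701664)) (.cons (.rf (nat_lit 4633) (nat_lit 14242959524133701664)) (.cons (.rf (nat_lit 4635) (nat_lit 15433072045017106464)) .nil)))) (.cons (.br (nat_lit 10) (nat_lit 0) (.cons (.rf (nat_lit 4631) (nat_lit 470979979642912)) (.cons (.rf (nat_lit 4631) (nat_lit 470739364186113))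 (.cons (.rf (nat_lit 4635) (nat_lit 15433072045017106464)) .nil)))) .nil))))) (.cons (.br (nat_lit 12) (nat_lit 0) (.cons (.rf (nat_lit 4637) (nat_lit 493858305440582043680)) (.cons (.rf (nat_lit 4639) (nat_lit 493858305440582043680)) (.cons (.rf (nat_lit 4640) (nat_lit 493858305440582043680)) (.cons (.br (nat_lit 12) (nat_lit 0) (.cons (.rf (nat_lit 4637) (nat_lit 493858305440582043680)) (.cons (.rf (nat_lit 4639) (nat_lit 493858305440582043680)) (.cons (.rf (nat_lit 4640) (nat_lit 493858305440582043680)) .nil)))) .nil))))) .nil)))))) .nil)))))) (.cons (.rf (nat_lit 4549) (nat_lit 12289)) .nil))))))]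

theorem c170 : chkAll C T R L170 (nat_lit 4592) = true := by decide +kernel

theorem l170 : (nat_lit 4592) + L170.length = (nat_lit 4642) := by decide +kernel

/-- part of the certificates -/
def L171 : List Prf := [(.br (nat_lit 9) (nat_lit 0) (.cons (.br (nat_lit 9) (nat_lit 0) .nil) .nil)),
 (.br (nat_lit 10) (nat_lit 0) (.cons (.rf (nat_lit 4622) (nat_lit 13341455353857)) (.cons (.br (nat_lit 11) (nat_lit 0) (.cons (.ev (nat_lit 310693954087703771625881601) (nat_lit 1)) (.cons (.rf (nat_lit 4642) (nat_lit 470979979642912)) .nil))) (.cons (.br (nat_lit 11) (nat_lit 0) (.cons (.rf (nat_lit 4642) (nat_lit 470946693646368)) (.cons (.ev (nat_lit 310693954087703771625881601) (nat_lit 1)) .nil))) .nil)))),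
 (.br (nat_lit 12) (nat_lit 0) (.cons (.rf (nat_lit 4643) (nat_lit 14242959524133701664)) (.cons (.ev (nat_lit 310693954087703771625881601) (nat_lit 1)) (.cons (.br (nat_lit 12) (nat_lit 0) (.cons (.rf (nat_lit 4643) (nat_lit 14242959524133701664)) (.cons (.ev (nat_lit 310693954087703771625881601) (nat_lit 1)) .nil))) .nil)))),
 (.br (nat_lit 12) (nat_lit 0) (.cons (.rf (nat_lit 4643) (nat_lit 14242959524133701664)) (.cons (.ev (nat_lit 310693954087703771625881601) (nat_lit 1)) (.cons (.br (nat_lit 12) (nat_lit 0) (.cons (.rf (nat_lit 4643) (nat_lit 14242959524133701664)) (.cons (.ev (nat_lit 310693954087703771625881601) (nat_lit 1)) .nil))) .nil)))),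
 (.br (nat_lit 12) (nat_lit 0) (.cons (.rf (nat_lit 4643) (nat_lit 14242959524133701664)) (.cons (.rf (nat_lit 4644) (nat_lit 14242959524133701664)) (.cons (.rf (nat_lit 4645) (nat_lit 14242959524133701664)) (.cons (.br (nat_lit 12) (nat_lit 0) (.cons (.rf (nat_lit 4643) (nat_lit 14242959524133701664)) (.cons (.rf (nat_lit 4644) (nat_lit 14242959524133701664)) (.cons (.rf (nat_lit 4645) (nat_lit 14242959524133701664)) .nil)))) .nil))))),
 (.br (nat_lit 9) (nat_lit 0) (.cons (.ev (nat_lit 72340172821299456) (nat_lit 1)) (.cons (.br (nat_lit 6) (nat_lit 0) (.cons (.ev (nat_lit 309489750634854586567885056) (nat_lit 1)) (.cons (.br (nat_lit 12) (nat_lit 0) (.cons (.ev (nat_lit 310703380518885063114359041) (nat_lit 2)) (.cons (.br (nat_lit 12) (nat_lit 0) (.cons (.ev (nat_lit 310703380518885063114359041) (nat_lit 2)) .nil)) .nil))) .nil))) (.cons (.kr (nat_lit 9444805024432840114176) (nat_lit 618970038089434219765825536) (nat_lit 2) (nat_lit 0)) (.cons (.rf (nat_lit 4646) (nat_lit 14242959524133701664))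 .nil))))),
 (.br (nat_lit 9) (nat_lit 0) (.cons (.ev (nat_lit 72340172821299456) (nat_lit 1)) (.cons (.kr (nat_lit 9444805024432840114176) (nat_lit 2417870086536282029162496) (nat_lit 2) (nat_lit 0)) (.cons (.rf (nat_lit 4647) (nat_lit 151190728183384065)) (.cons (.rf (nat_lit 4646) (nat_lit 14242959521988315168)) .nil))))),
 (.br (nat_lit 6) (nat_lit 0) (.cons (.rf (nat_lit 4627) (nat_lit 470944613271584)) (.cons (.rf (nat_lit 4627) (nat_lit 470978939455520)) (.cons (.ev (nat_lit 72340172821299456) (nat_lit 1)) (.cons (.br (nat_lit 10) (nat_lit 0) (.cons (.zr (nat_lit 4722510600256744390912) (nat_lit 310693954087985250897494016) (nat_lit 5) (nat_lit 9)) (.cons (.br (nat_lit 11) (nat_lit 0) (.cons (.ev (nat_lit 309489732260167007401410561) (nat_lit 1)) (.cons (.br (nat_lit 12) (nat_lit 0) (.cons (.ev (nat_lit 160320516995092702915278798850) (nat_lit 3)) .nil)) .nil))) (.cons (.ev (nat_lit 1213666632842676336066816) (nat_lit 1)) .nil)))) .nil))))),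
 (.br (nat_lit 4) (nat_lit 0) (.cons (.rf (nat_lit 4627) (nat_lit 470944611239968)) (.cons (.rf (nat_lit 4627) (nat_lit 470978937423904)) (.cons (.ev (nat_lit 72340172821299456) (nat_lit 1)) (.cons (.rf (nat_lit 4649) (nat_lit 458117738797769787424)) .nil))))),
 (.br (nat_lit 1) (nat_lit 0) (.cons (.kr (nat_lit 18446745173221179394) (nat_lit 72057594054705664) (nat_lit 0) (nat_lit 2)) (.cons (.rf (nat_lit 4592) (nat_lit 407901468851537952)) (.cons (.rf (nat_lit 4641) (nat_lit 407901468851537952)) (.cons (.br (nat_lit 9) (nat_lit 0) (.cons (.rf (nat_lit 4647) (nat_lit 407901468851537952)) (.cons (.rf (nat_lit 4648) (nat_lit 407901468851537952)) (.cons (.rf (nat_lit 4648) (nat_lit 151190728183384065)) (.cons (.rf (nat_lit 4647) (nat_lit 151190728183384065)) (.cons (.br (nat_lit 9) (nat_lit 0) (.cons (.rf (nat_lit 4646) (nat_lit 14242959524133701664)) (.cons (.rf (nat_lit 4646) (nat_lit 14242959521988315168)) (.cons (.rf (nat_lit 4646) (nat_lit 13986248784538241025)) (.cons (.rf (nat_lit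 4646) (nat_lit 13986248783465547777)) (.cons (.br (nat_lit 12) (nat_lit 0) (.cons (.rf (nat_lit 4649) (nat_lit 493858305440582043680)) (.cons (.rf (nat_lit 4650) (nat_lit 493858305440582043680)) (.cons (.rf (nat_lit 4650) (nat_lit 493601594699913889793)) (.cons (.rf (nat_lit 4649) (nat_lit 493601594699913889793)) (.cons (.br (nat_lit 12) (nat_lit 0) (.cons (.rf (nat_lit 4649) (nat_lit 493858305440582043680)) (.cons (.rf (nat_lit 4650) (nat_lit 493858305440582043680)) (.cons (.rf (nat_lit 4650) (nat_lit 493601594699913889793)) (.cons (.rf (nat_lit 4649) (nat_lit 493601594699913889793)) .nil))))) .nil)))))) .nil)))))) .nil)))))) (.cons (.rf (nat_lit 4549) (nat_lit 12289)) .nil)))))),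
 (.br (nat_lit 1) (nat_lit 0) (.cons (.rf (nat_lit 4575) (nat_lit 407901468851537952)) (.cons (.rf (nat_lit 4592) (nat_lit 407901468851537952)) (.cons (.rf (nat_lit 4641) (nat_lit 407901468851537952)) (.cons (.rf (nat_lit 4651) (nat_lit 407901468851537952)) (.cons (.br (nat_lit 1) (nat_lit 0) (.cons (.rf (nat_lit 4575) (nat_lit 407901468851537952)) (.cons (.rf (nat_lit 4592) (nat_lit 407901468851537952)) (.cons (.rf (nat_lit 4641) (nat_lit 407901468851537952)) (.cons (.rf (nat_lit 4651) (nat_lit 407901468851537952)) (.cons (.rf (nat_lit 4549) (nat_lit 12289)) .nil)))))) (.cons (.rf (nat_lit 4549) (nat_lit 12289)) .nil))))))),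
 (.br (nat_lit 8) (nat_lit 0) (.cons (.br (nat_lit 9) (nat_lit 0) .nil) .nil)),
 (.br (nat_lit 8) (nat_lit 0) (.cons (.rf (nat_lit 4653) (nat_lit 9043225708576)) (.cons (.br (nat_lit 8) (nat_lit 0) (.cons (.rf (nat_lit 4653) (nat_lit 9043225708576)) .nil)) .nil))),
 (.br (nat_lit 7) (nat_lit 0) (.cons (.rf (nat_lit 4654) (nat_lit 10074084968480)) (.cons (.rf (nat_lit 4604) (nat_lit 325665969835009)) (.cons (.br (nat_lit 6) (nat_lit 0) (.cons (.rf (nat_lit 4631) (nat_lit 291549061647392)) (.cons (.rf (nat_lit 4642) (nat_lit 291550101834784)) .nil))) .nil)))),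
 (.br (nat_lit 6) (nat_lit 0) (.cons (.rf (nat_lit 4598) (nat_lit 9009937648672)) (.cons (.br (nat_lit 6) (nat_lit 0) (.cons (.rf (nat_lit 4598) (nat_lit 9009937648672)) (.cons (.rf (nat_lit 4627) (nat_lit 325530745474049)) .nil))) (.cons (.rf (nat_lit 4627) (nat_lit 325530745474049)) .nil)))),
 (.br (nat_lit 10) (nat_lit 0) (.cons (.ev (nat_lit 309485009821627643213185024) (nat_lit 1)) (.cons (.rf (nat_lit 4655) (nat_lit 400507111871520)) .nil))),
 (.br (nat_lit 6) (nat_lit 0) (.cons (.br (nat_lit 9) (nat_lit 0) .nil) .nil)),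
 (.br (nat_lit 10) (nat_lit 0) (.cons (.rf (nat_lit 4655) (nat_lit 470979975452704)) (.cons (.rf (nat_lit 4655) (nat_lit 436723088763905)) (.cons (.br (nat_lit 11) (nat_lit 0) (.cons (.rf (nat_lit 4656) (nat_lit 13583138297888)) (.cons (.ev (nat_lit 310693954087703771625881601) (nat_lit 1)) (.cons (.br (nat_lit 13) (nat_lit 0) (.cons (.zr (nat_lit 621387889729227519040685057) (nat_lit 81129638424051630834331884322816) (nat_lit 5) (nat_lit 4)) (.cons (.rf (nat_lit 4652) (nat_lit 154464996501498253)) .nil))) .nil)))) .nil)))),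
 (.br (nat_lit 1) (nat_lit 0) (.cons (.rf (nat_lit 4652) (nat_lit 407901468851537952)) (.cons (.kr (nat_lit 72058693549555714) (nat_lit 18446744073726329344) (nat_lit 0) (nat_lit 2)) (.cons (.kr (nat_lit 1099511627777) (nat_lit 16777472) (nat_lit 0) (nat_lit 2)) (.cons (.br (nat_lit 9) (nat_lit 0) (.cons (.zr (nat_lit 4740813226943388385536) (nat_lit 144116296177418240) (nat_lit 5) (nat_lit 2)) (.cons (.ev (nat_lit 4722366764344638701569) (nat_lit 1)) (.cons (.br (nat_lit 2) (nat_lit 0) (.cons (.ev (nat_lit 4722366765444133552129) (nat_lit 1)) (.cons (.br (nat_lit 6) (nat_lit 0) (.cons (.ev (nat_lit 310693954087704871120732161) (nat_lit 1)) (.cons (.rf (nat_lit 4654) (nat_lit 13583142488096)) .nil))) (.cons (.br (nat_lit 6) (nat_lit 0) (.cons (.ev (nat_lit 310693954087703771625881856) (nat_lit 1)) (.cons (.rf (nat_lit 4656) (nat_lit 13273807334401)) .nil))) (.cons (.br (nat_lit 6) (nat_lit 0) (.cons (.rf (nat_lit 4654) (nat_lit 13583138297888)) (.cons (.rf (nat_lit 4656) (nat_lit 13411112070145))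 (.cons (.br (nat_lit 11) (nat_lit 0) (.cons (.rf (nat_lit 4624) (nat_lit 13411114323969)) (.cons (.br (nat_lit 10) (nat_lit 0) (.cons (.ev (nat_lit 1864191966564023321520898052) (nat_lit 3)) (.cons (.rf (nat_lit 4631) (nat_lit 470807951478785)) .nil))) (.cons (.rf (nat_lit 4655) (nat_lit 470807951320065)) .nil)))) (.cons (.br (nat_lit 10) (nat_lit 0) (.cons (.rf (nat_lit 4624) (nat_lit 13411114323969)) (.cons (.br (nat_lit 11) (nat_lit 0) (.cons (.rf (nat_lit 4655) (nat_lit 436585786123265)) (.cons (.ev (nat_lit 1864191966564023321520898052) (nat_lit 3)) .nil))) (.cons (.br (nat_lit 11) (nat_lit 0) (.cons (.ev (nat_lit 1864191966564023321520898052) (nat_lit 3)) (.cons (.rf (nat_lit 4655) (nat_lit 470807951320065)) .nil))) .nil)))) .nil))))) .nil))))) (.cons (.br (nat_lit 2) (nat_lit 0) (.cons (.ev (nat_lit 4722366764344638701824) (nat_lit 1)) (.cons (.br (nat_lit 6) (nat_lit 0) (.cons (.ev (nat_lit 310693954087704871120732161) (nat_lit 1)) (.cons (.rf (nat_lit 4622) (nat_lit 13273809588225))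 .nil))) (.cons (.rf (nat_lit 4622) (nat_lit 13411114323969)) .nil)))) (.cons (.br (nat_lit 2) (nat_lit 0) (.cons (.rf (nat_lit 4622) (nat_lit 13583142424608)) (.cons (.br (nat_lit 6) (nat_lit 0) (.cons (.rf (nat_lit 4624) (nat_lit 13583142424608)) (.cons (.rf (nat_lit 4656) (nat_lit 13583138297888)) (.cons (.br (nat_lit 10) (nat_lit 0) (.cons (.ev (nat_lit 310698713348519213637239555) (nat_lit 2)) (.cons (.br (nat_lit 11) (nat_lit 0) (.cons (.ev (nat_lit 158456334491781576207844639750) (nat_lit 3)) (.cons (.rf (nat_lit 4655) (nat_lit 436826466813984)) .nil))) (.cons (.rf (nat_lit 4631) (nat_lit 470979979579424)) .nil)))) (.cons (.rf (nat_lit 4655) (nat_lit 470979979642912)) .nil))))) (.cons (.rf (nat_lit 4656) (nat_lit 13583142488096)) (.cons (.br (nat_lit 6) (nat_lit 0) (.cons (.br (nat_lit 10) (nat_lit 0) (.cons (.zr (nat_lit 310693935641243371899453441) (nat_lit 144115196682567680) (nat_lit 5) (nat_lit 10)) (.cons (.rf (nat_lit 4657) (nat_lit 445092485128095776)) (.cons (.rf (nat_lit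 4631) (nat_lit 470979975516192)) .nil)))) (.cons (.rf (nat_lit 4656) (nat_lit 13583138297888)) (.cons (.br (nat_lit 11) (nat_lit 0) (.cons (.br (nat_lit 10) (nat_lit 0) (.cons (.ev (nat_lit 310693954087704871120732416) (nat_lit 1)) (.cons (.rf (nat_lit 4631) (nat_lit 470807949447169)) .nil))) (.cons (.rf (nat_lit 4658) (nat_lit 13583142488096)) (.cons (.rf (nat_lit 4611) (nat_lit 15070114853785601)) .nil)))) (.cons (.br (nat_lit 11) (nat_lit 0) (.cons (.rf (nat_lit 4655) (nat_lit 436585784028161)) (.cons (.rf (nat_lit 4611) (nat_lit 15070294161166368)) (.cons (.br (nat_lit 10) (nat_lit 0) (.cons (.br (nat_lit 13) (nat_lit 0) (.cons (.ev (nat_lit 310693935713018391449108481) (nat_lit 1)) (.cons (.ev (nat_lit 79228162514336677762087059713) (nat_lit 1)) .nil))) (.cons (.br (nat_lit 12) (nat_lit 0) (.cons (.ev (nat_lit 310693935713018391449108481) (nat_lit 1)) (.cons (.ev (nat_lit 20282409603651742764115794395136) (nat_lit 1)) .nil))) .nil))) .nil)))) .nil))))) (.cons (.br (nat_lit 10) (nat_lit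 0) (.cons (.rf (nat_lit 4655) (nat_lit 470979975452704)) (.cons (.rf (nat_lit 4655) (nat_lit 436723088763905)) (.cons (.rf (nat_lit 4659) (nat_lit 493858305440582043680)) (.cons (.br (nat_lit 10) (nat_lit 0) (.cons (.rf (nat_lit 4655) (nat_lit 470979975452704)) (.cons (.ev (nat_lit 310693954087704871120732416) (nat_lit 1)) (.cons (.rf (nat_lit 4659) (nat_lit 493858305440582043680)) .nil)))) .nil))))) .nil)))))) .nil)))))) (.cons (.rf (nat_lit 4549) (nat_lit 12289)) .nil)))))),
 (.br (nat_lit 1) (nat_lit 0) (.cons (.rf (nat_lit 4652) (nat_lit 407901468851537952)) (.cons (.rf (nat_lit 4652) (nat_lit 406809683869931552)) (.cons (.rf (nat_lit 4660) (nat_lit 407901468851537952)) (.cons (.rf (nat_lit 4660) (nat_lit 406809683869931552)) (.cons (.br (nat_lit 1) (nat_lit 0) (.cons (.rf (nat_lit 4652) (nat_lit 407901468851537952)) (.cons (.rf (nat_lit 4652) (nat_lit 406809683869931552)) (.cons (.rf (nat_lit 4660) (nat_lit 407901468851537952)) (.cons (.rf (nat_lit 4660) (nat_lit 406809683869931552))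 (.cons (.rf (nat_lit 4549) (nat_lit 12289)) .nil)))))) (.cons (.rf (nat_lit 4549) (nat_lit 12289)) .nil))))))),
 (.br (nat_lit 8) (nat_lit 0) (.cons (.br (nat_lit 8) (nat_lit 0) .nil) .nil)),
 (.br (nat_lit 9) (nat_lit 0) (.cons (.rf (nat_lit 4662) (nat_lit 325702574508064)) (.cons (.br (nat_lit 9) (nat_lit 0) (.cons (.rf (nat_lit 4662) (nat_lit 325702574508064)) .nil)) .nil))),
 (.br (nat_lit 8) (nat_lit 0) (.cons (.rf (nat_lit 4663) (nat_lit 325702574508064)) (.cons (.rf (nat_lit 4663) (nat_lit 325669288511520)) (.cons (.br (nat_lit 8) (nat_lit 0) (.cons (.rf (nat_lit 4663) (nat_lit 325702574508064)) (.cons (.rf (nat_lit 4663) (nat_lit 325669288511520)) .nil))) .nil)))),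
 (.br (nat_lit 6) (nat_lit 0) (.cons (.ev (nat_lit 4740885567111881031681) (nat_lit 1)) (.cons (.br (nat_lit 9) (nat_lit 0) (.cons (.ev (nat_lit 2427315325032179037505030) (nat_lit 3)) (.cons (.br (nat_lit 12) (nat_lit 0) (.cons (.ev (nat_lit 310698676526245339098775808) (nat_lit 1)) (.cons (.br (nat_lit 12) (nat_lit 0) (.cons (.ev (nat_lit 310698676526245339098775808) (nat_lit 1)) .nil)) .nil))) .nil))) (.cons (.ev (nat_lit 309485028340429315255631873) (nat_lit 1)) (.cons (.br (nat_lit 9) (nat_lit 0) (.cons (.br (nat_lit 12) (nat_lit 0) (.cons (.ev (nat_lit 310693935641804127158272771) (nat_lit 2)) (.cons (.br (nat_lit 12) (nat_lit 0) (.cons (.ev (nat_lit 310693935641804127158272771) (nat_lit 2)) .nil)) .nil))) (.cons (.kr (nat_lit 4722366482869645279232) (nat_lit 309485009821345073019748352) (nat_lit 2) (nat_lit 0)) (.cons (.br (nat_lit 10) (nat_lit 0) (.cons (.ev (nat_lit 1213648186941923783803651) (nat_lit 2)) (.cons (.br (nat_lit 11) (nat_lit 0) (.cons (.ev (nat_lit 79537652264899192184423579905)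 (nat_lit 1)) (.cons (.rf (nat_lit 4664) (nat_lit 470944613271584)) .nil))) (.cons (.rf (nat_lit 4664) (nat_lit 470978939455520)) .nil)))) (.cons (.rf (nat_lit 4664) (nat_lit 470979979642912)) .nil))))) .nil))))),
 (.br (nat_lit 10) (nat_lit 0) (.cons (.ev (nat_lit 310698676526245339098775553) (nat_lit 1)) (.cons (.br (nat_lit 12) (nat_lit 0) (.cons (.ev (nat_lit 313121232013438373834261251) (nat_lit 2)) (.cons (.br (nat_lit 12) (nat_lit 0) (.cons (.ev (nat_lit 313121232013438373834261251) (nat_lit 2)) .nil)) .nil))) .nil))),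
 (.br (nat_lit 8) (nat_lit 0) (.cons (.br (nat_lit 8) (nat_lit 0) .nil) .nil)),
 (.br (nat_lit 9) (nat_lit 0) (.cons (.rf (nat_lit 4667) (nat_lit 325702574508064)) (.cons (.br (nat_lit 9) (nat_lit 0) (.cons (.rf (nat_lit 4667) (nat_lit 325702574508064)) .nil)) .nil))),
 (.br (nat_lit 10) (nat_lit 0) (.cons (.ev (nat_lit 309485028340429315255632128) (nat_lit 1)) (.cons (.ev (nat_lit 7281908068296274410078212) (nat_lit 3)) (.cons (.rf (nat_lit 4668) (nat_lit 470979979642912)) .nil)))),
 (.br (nat_lit 12) (nat_lit 0) (.cons (.rf (nat_lit 4669) (nat_lit 14242959524133701664)) (.cons (.ev (nat_lit 7281908068296274410078212) (nat_lit 3)) (.cons (.br (nat_lit 12) (nat_lit 0) (.cons (.rf (nat_lit 4669) (nat_lit 14242959524133701664)) (.cons (.ev (nat_lit 7281908068296274410078212) (nat_lit 3)) .nil))) .nil)))),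
 (.br (nat_lit 6) (nat_lit 0) (.cons (.rf (nat_lit 4665) (nat_lit 406809683869931552)) (.cons (.ev (nat_lit 4722366765444133552129) (nat_lit 1)) (.cons (.br (nat_lit 4) (nat_lit 0) (.cons (.ev (nat_lit 7281908068298473399780870) (nat_lit 3)) (.cons (.br (nat_lit 12) (nat_lit 0) (.cons (.ev (nat_lit 310698676526245339098775808) (nat_lit 1)) (.cons (.br (nat_lit 12) (nat_lit 0) (.cons (.ev (nat_lit 310698676526245339098775808) (nat_lit 1)) .nil)) .nil))) .nil))) (.cons (.br (nat_lit 12) (nat_lit 0) (.cons (.rf (nat_lit 4669) (nat_lit 14242959524133701664)) (.cons (.ev (nat_lit 7281908068296274410078212) (nat_lit 3)) (.cons (.rf (nat_lit 4670) (nat_lit 14242959524133701664)) (.cons (.br (nat_lit 12) (nat_lit 0) (.cons (.rf (nat_lit 4669) (nat_lit 14242959524133701664)) (.cons (.ev (nat_lit 7281908068296274410078212) (nat_lit 3)) (.cons (.rf (nat_lit 4670) (nat_lit 14242959524133701664)) .nil)))) .nil))))) .nil))))),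
 (.br (nat_lit 10) (nat_lit 0) (.cons (.rf (nat_lit 4668) (nat_lit 470801507986433)) (.cons (.zr (nat_lit 1208962713385351082148096) (nat_lit 309489732259885536702955520) (nat_lit 5) (nat_lit 10)) .nil))),
 (.br (nat_lit 12) (nat_lit 0) (.cons (.rf (nat_lit 4668) (nat_lit 470801507986433)) (.cons (.br (nat_lit 12) (nat_lit 0) (.cons (.ev (nat_lit 79538856468352041369448022273) (nat_lit 1)) .nil)) .nil))),
 (.br (nat_lit 6) (nat_lit 0) (.cons (.ev (nat_lit 309485028340429315255631873) (nat_lit 1)) (.cons (.ev (nat_lit 4740885567111881031681) (nat_lit 1)) (.cons (.rf (nat_lit 4671) (nat_lit 406809683869931552)) (.cons (.br (nat_lit 4) (nat_lit 0) (.cons (.kr (nat_lit 4722366482869645279232) (nat_lit 309485009821345073019748352) (nat_lit 2) (nat_lit 0)) (.cons (.br (nat_lit 12) (nat_lit 0) (.cons (.ev (nat_lit 1213648186944122773504257) (nat_lit 2)) (.cons (.br (nat_lit 12) (nat_lit 0) (.cons (.ev (nat_lit 1213648186944122773504257) (nat_lit 2)) .nil)) .nil))) (.cons (.br (nat_lit 9) (nat_lit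 0) (.cons (.ev (nat_lit 310693935641806326147973377) (nat_lit 2)) (.cons (.br (nat_lit 10) (nat_lit 0) (.cons (.ev (nat_lit 79537652264899191084895174656) (nat_lit 1)) (.cons (.rf (nat_lit 4668) (nat_lit 470911327275040)) .nil))) (.cons (.rf (nat_lit 4668) (nat_lit 470944613271584)) .nil)))) (.cons (.br (nat_lit 12) (nat_lit 0) (.cons (.rf (nat_lit 4672) (nat_lit 493858305440582043680)) (.cons (.rf (nat_lit 4673) (nat_lit 493858305440582043680)) (.cons (.br (nat_lit 12) (nat_lit 0) (.cons (.rf (nat_lit 4672) (nat_lit 493858305440582043680)) (.cons (.rf (nat_lit 4673) (nat_lit 493858305440582043680)) .nil))) .nil)))) .nil))))) .nil)))))]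

theorem c171 : chkAll C T R L171 (nat_lit 4642) = true := by decide +kernel

theorem l171 : (nat_lit 4642) + L171.length = (nat_lit 4675) := by decide +kernel

/-- part of the certificates -/
def L172 : List Prf := [(.br (nat_lit 10) (nat_lit 0) (.cons (.ev (nat_lit 79538856468352042468976427008) (nat_lit 1)) (.cons (.rf (nat_lit 4664) (nat_lit 436716647588865)) .nil))),
 (.br (nat_lit 8) (nat_lit 0) (.cons (.kr (nat_lit 4722366482869645213697) (nat_lit 18446744073709551872) (nat_lit 0) (nat_lit 2)) .nil)),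
 (.br (nat_lit 13) (nat_lit 0) (.cons (.rf (nat_lit 4676) (nat_lit 470979979642912)) (.cons (.ev (nat_lit 475987945123748646573542999042) (nat_lit 3)) .nil))),
 (.br (nat_lit 11) (nat_lit 0) (.cons (.rf (nat_lit 4675) (nat_lit 14242959524133701664)) (.cons (.rf (nat_lit 4675) (nat_lit 14241867739152095264)) (.cons (.zr (nat_lit 18518801680632381697) (nat_lit 79847132533907029930033545216) (nat_lit 5) (nat_lit 0)) (.cons (.br (nat_lit 13) (nat_lit 0) (.cons (.rf (nat_lit 4677) (nat_lit 493858305440582043680)) (.cons (.rf (nat_lit 4677) (nat_lit 493857213655600437280)) (.cons (.ev (nat_lit 475987945123748646573542999042) (nat_lit 3)) .nil)))) .nil))))),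
 (.br (nat_lit 11) (nat_lit 0) (.cons (.ev (nat_lit 79538856449977355989304803585) (nat_lit 1)) (.cons (.ev (nat_lit 951356929654212881161170586114) (nat_lit 4)) .nil))),
 (.br (nat_lit 4) (nat_lit 0) (.cons (.rf (nat_lit 4668) (nat_lit 470911327211552)) (.cons (.rf (nat_lit 4679) (nat_lit 493858305440582043680)) .nil))),
 (.br (nat_lit 12) (nat_lit 0) (.cons (.rf (nat_lit 4678) (nat_lit 14242959524133701664)) (.cons (.ev (nat_lit 1213648186945222335463426) (nat_lit 2)) (.cons (.br (nat_lit 4) (nat_lit 0) (.cons (.ev (nat_lit 79537652264899192184423579905) (nat_lit 1)) (.cons (.br (nat_lit 13) (nat_lit 0) (.cons (.br (nat_lit 13) (nat_lit 0) .nil) .nil)) .nil))) (.cons (.br (nat_lit 13) (nat_lit 0) (.cons (.rf (nat_lit 4679) (nat_lit 493858305440582043680)) (.cons (.rf (nat_lit 4680) (nat_lit 493858305440582043680)) (.cons (.br (nat_lit 13) (nat_lit 0) (.cons (.ev (nat_lit 951356929654212881161170586114) (nat_lit 4)) (.cons (.rf (nat_lit 4680) (nat_lit 493858305440582043680)) .nil))) .nil))))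 .nil))))),
 (.br (nat_lit 4) (nat_lit 0) (.cons (.rf (nat_lit 4668) (nat_lit 470978939392032)) (.cons (.ev (nat_lit 475987945123748644374553298432) (nat_lit 3)) .nil))),
 (.br (nat_lit 12) (nat_lit 0) (.cons (.zr (nat_lit 18518801680632381697) (nat_lit 79847132533907029930033545216) (nat_lit 5) (nat_lit 0)) (.cons (.rf (nat_lit 4681) (nat_lit 14242959524133701664)) (.cons (.rf (nat_lit 4681) (nat_lit 14241867739152095264)) (.cons (.br (nat_lit 13) (nat_lit 0) (.cons (.ev (nat_lit 475987945123748644374553298432) (nat_lit 3)) (.cons (.rf (nat_lit 4682) (nat_lit 493858305440582043680)) (.cons (.rf (nat_lit 4682) (nat_lit 493857213655600437280)) .nil)))) .nil))))),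
 (.br (nat_lit 10) (nat_lit 0) (.cons (.zr (nat_lit 4759259971017097937152) (nat_lit 310693935713299870720720896) (nat_lit 5) (nat_lit 2)) (.cons (.ev (nat_lit 1213648186945222335463426) (nat_lit 2)) (.cons (.br (nat_lit 12) (nat_lit 0) (.cons (.br (nat_lit 12) (nat_lit 0) (.cons (.ev (nat_lit 317543709354136135066842566150) (nat_lit 4)) .nil)) (.cons (.br (nat_lit 11) (nat_lit 0) (.cons (.ev (nat_lit 317543709354136135066842566150) (nat_lit 4)) .nil)) .nil))) .nil)))),
 (.br (nat_lit 9) (nat_lit 0) (.cons (.rf (nat_lit 4664) (nat_lit 436716647588865)) (.cons (.ev (nat_lit 1213648186945222335463426) (nat_lit 2)) (.cons (.rf (nat_lit 4684) (nat_lit 493858305440582043680)) .nil)))),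
 (.br (nat_lit 13) (nat_lit 0) (.cons (.rf (nat_lit 4684) (nat_lit 493858305440582043680)) (.cons (.rf (nat_lit 4685) (nat_lit 493858305440582043680)) (.cons (.br (nat_lit 9) (nat_lit 0) (.cons (.zr (nat_lit 618970038161491813870863872) (nat_lit 2427296372761246128275460) (nat_lit 10) (nat_lit 11)) (.cons (.ev (nat_lit 79228162514336677762087059713) (nat_lit 1)) (.cons (.rf (nat_lit 4684) (nat_lit 493858305440582043680)) .nil)))) .nil)))),
 (.br (nat_lit 13) (nat_lit 0) (.cons (.rf (nat_lit 4684) (nat_lit 493858305440582043680)) (.cons (.rf (nat_lit 4685) (nat_lit 493858305440582043680)) (.cons (.rf (nat_lit 4686) (nat_lit 493858305440582043680)) (.cons (.br (nat_lit 13) (nat_lit 0) (.cons (.rf (nat_lit 4684) (nat_lit 493858305440582043680)) (.cons (.rf (nat_lit 4685) (nat_lit 493858305440582043680)) (.cons (.rf (nat_lit 4686) (nat_lit 493858305440582043680)) .nil)))) .nil))))),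
 (.br (nat_lit 13) (nat_lit 0) (.cons (.rf (nat_lit 4687) (nat_lit 458116647012788181024)) (.cons (.ev (nat_lit 1213648186945222335463426) (nat_lit 2)) (.cons (.br (nat_lit 13) (nat_lit 0) (.cons (.ev (nat_lit 243390772220010769092133479909890) (nat_lit 4)) (.cons (.ev (nat_lit 20282409603651742764115794395136) (nat_lit 1)) .nil))) .nil)))),
 (.br (nat_lit 13) (nat_lit 0) (.cons (.rf (nat_lit 4687) (nat_lit 458116647012788181024)) (.cons (.ev (nat_lit 1213648186945222335463426) (nat_lit 2)) (.cons (.rf (nat_lit 4688) (nat_lit 493858305440582043680)) (.cons (.br (nat_lit 13) (nat_lit 0) (.cons (.rf (nat_lit 4687) (nat_lit 458116647012788181024)) (.cons (.ev (nat_lit 1213648186945222335463426) (nat_lit 2)) (.cons (.rf (nat_lit 4688) (nat_lit 493858305440582043680)) .nil)))) .nil))))),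
 (.br (nat_lit 9) (nat_lit 0) (.cons (.br (nat_lit 11) (nat_lit 0) (.cons (.rf (nat_lit 4668) (nat_lit 470666284704769)) (.cons (.zr (nat_lit 1208925964011292244049921) (nat_lit 309489750634572016374579200) (nat_lit 5) (nat_lit 6)) .nil))) (.cons (.rf (nat_lit 4664) (nat_lit 470730775307265)) (.cons (.rf (nat_lit 4689) (nat_lit 493858305440582043680)) (.cons (.ev (nat_lit 1213648186945222335463426) (nat_lit 2)) .nil))))),
 (.br (nat_lit 13) (nat_lit 0) (.cons (.rf (nat_lit 4687) (nat_lit 458116647012788181024)) (.cons (.rf (nat_lit 4690) (nat_lit 458116647012788181024)) (.cons (.rf (nat_lit 4689) (nat_lit 458116647012788181024)) (.cons (.br (nat_lit 13) (nat_lit 0) (.cons (.rf (nat_lit 4687) (nat_lit 458116647012788181024)) (.cons (.rf (nat_lit 4690) (nat_lit 458116647012788181024)) (.cons (.rf (nat_lit 4689) (nat_lit 458116647012788181024)) .nil)))) .nil))))),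
 (.br (nat_lit 1) (nat_lit 0) (.cons (.rf (nat_lit 4652) (nat_lit 407901468851537952)) (.cons (.kr (nat_lit 1099511627777) (nat_lit 16777472) (nat_lit 0) (nat_lit 2)) (.cons (.rf (nat_lit 4652) (nat_lit 406809683869931552)) (.cons (.br (nat_lit 2) (nat_lit 0) (.cons (.rf (nat_lit 4665) (nat_lit 407901468851537952)) (.cons (.br (nat_lit 4) (nat_lit 0) (.cons (.rf (nat_lit 4666) (nat_lit 407901468851537952)) (.cons (.rf (nat_lit 4666) (nat_lit 406809683869931552)) (.cons (.ev (nat_lit 309485028340429315255631873) (nat_lit 1)) (.cons (.br (nat_lit 9) (nat_lit 0) (.cons (.ev (nat_lit 4722366765444133552129) (nat_lit 1)) (.cons (.br (nat_lit 10) (nat_lit 0) (.cons (.ev (nat_lit 313121232013436174844559617) (nat_lit 2)) (.cons (.rf (nat_lit 4664) (nat_lit 470978937423904)) .nil))) (.cons (.br (nat_lit 11) (nat_lit 0) (.cons (.ev (nat_lit 311917028560022940338422017) (nat_lit 2)) (.cons (.ev (nat_lit 309485028340428215760781568) (nat_lit 1)) (.cons (.rf (nat_lit 4664) (nat_lit 470944611239968))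 .nil)))) (.cons (.rf (nat_lit 4664) (nat_lit 470979977611296)) .nil))))) .nil))))) (.cons (.rf (nat_lit 4671) (nat_lit 407901468851537952)) (.cons (.ev (nat_lit 1208944338417396433879041) (nat_lit 1)) (.cons (.rf (nat_lit 4674) (nat_lit 407901468851537952)) (.cons (.br (nat_lit 6) (nat_lit 0) (.cons (.rf (nat_lit 4665) (nat_lit 406809683869931552)) (.cons (.ev (nat_lit 4740885567111881031681) (nat_lit 1)) (.cons (.rf (nat_lit 4671) (nat_lit 406809683869931552)) (.cons (.rf (nat_lit 4674) (nat_lit 406809683869931552)) (.cons (.br (nat_lit 12) (nat_lit 0) (.cons (.rf (nat_lit 4678) (nat_lit 14242959524133701664)) (.cons (.rf (nat_lit 4681) (nat_lit 14242959524133701664)) (.cons (.rf (nat_lit 4681) (nat_lit 14241867739152095264)) (.cons (.rf (nat_lit 4683) (nat_lit 14242959524133701664)) (.cons (.br (nat_lit 12) (nat_lit 0) (.cons (.rf (nat_lit 4678) (nat_lit 14242959524133701664)) (.cons (.rf (nat_lit 4681) (nat_lit 14242959524133701664)) (.cons (.rf (nat_lit 4681) (nat_lit 14241867739152095264))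 (.cons (.rf (nat_lit 4683) (nat_lit 14242959524133701664)) .nil))))) .nil)))))) (.cons (.br (nat_lit 12) (nat_lit 0) (.cons (.rf (nat_lit 4687) (nat_lit 493858305440582043680)) (.cons (.rf (nat_lit 4689) (nat_lit 493858305440582043680)) (.cons (.rf (nat_lit 4690) (nat_lit 493858305440582043680)) (.cons (.rf (nat_lit 4691) (nat_lit 493858305440582043680)) (.cons (.br (nat_lit 12) (nat_lit 0) (.cons (.rf (nat_lit 4687) (nat_lit 493858305440582043680)) (.cons (.rf (nat_lit 4689) (nat_lit 493858305440582043680)) (.cons (.rf (nat_lit 4690) (nat_lit 493858305440582043680)) (.cons (.rf (nat_lit 4691) (nat_lit 493858305440582043680)) .nil))))) .nil)))))) .nil))))))) .nil))))))) (.cons (.rf (nat_lit 4549) (nat_lit 12289)) .nil)))))),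
 (.br (nat_lit 1) (nat_lit 0) (.cons (.rf (nat_lit 4652) (nat_lit 407901468851537952)) (.cons (.rf (nat_lit 4661) (nat_lit 407901468851537952)) (.cons (.rf (nat_lit 4652) (nat_lit 406809683869931552)) (.cons (.rf (nat_lit 4692) (nat_lit 407901468851537952)) (.cons (.br (nat_lit 1) (nat_lit 0) (.cons (.rf (nat_lit 4652) (nat_lit 407901468851537952)) (.cons (.rf (nat_lit 4661) (nat_lit 407901468851537952)) (.cons (.rf (nat_lit 4652) (nat_lit 406809683869931552)) (.cons (.rf (nat_lit 4692) (nat_lit 407901468851537952)) (.cons (.rf (nat_lit 4549) (nat_lit 12289)) .nil)))))) (.cons (.rf (nat_lit 4549) (nat_lit 12289)) .nil))))))),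
 (.br (nat_lit 1) (nat_lit 0) (.cons (.rf (nat_lit 4652) (nat_lit 407901468851537952)) (.cons (.rf (nat_lit 4661) (nat_lit 407901468851537952)) (.cons (.rf (nat_lit 4652) (nat_lit 406809683869931552)) (.cons (.rf (nat_lit 4693) (nat_lit 407901468851537952)) (.cons (.rf (nat_lit 4693) (nat_lit 406809683869931552)) (.cons (.br (nat_lit 1) (nat_lit 0) (.cons (.rf (nat_lit 4652) (nat_lit 407901468851537952)) (.cons (.rf (nat_lit 4661) (nat_lit 407901468851537952)) (.cons (.rf (nat_lit 4652) (nat_lit 406809683869931552)) (.cons (.rf (nat_lit 4693) (nat_lit 407901468851537952)) (.cons (.rf (nat_lit 4693) (nat_lit 406809683869931552)) (.cons (.rf (nat_lit 4549) (nat_lit 12289)) .nil))))))) (.cons (.rf (nat_lit 4549) (nat_lit 12289)) .nil)))))))),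
 (.br (nat_lit 8) (nat_lit 0) (.cons (.kr (nat_lit 4722366482869645213697) (nat_lit 1099511628032) (nat_lit 0) (nat_lit 2)) (.cons (.rf (nat_lit 4586) (nat_lit 11245435750401)) .nil))),
 (.br (nat_lit 7) (nat_lit 0) (.cons (.kr (nat_lit 1099511627776) (nat_lit 4722366482869645213696) (nat_lit 5) (nat_lit 0)) (.cons (.rf (nat_lit 4586) (nat_lit 11279795456032)) .nil))),
 (.br (nat_lit 12) (nat_lit 0) (.cons (.ev (nat_lit 79229376162522493790208393473) (nat_lit 1)) .nil)),
 (.br (nat_lit 6) (nat_lit 0) (.cons (.rf (nat_lit 4695) (nat_lit 398341278140448)) (.cons (.rf (nat_lit 4696) (nat_lit 398341278140448)) (.cons (.br (nat_lit 11) (nat_lit 0) (.cons (.kr (nat_lit 72057594037927936) (nat_lit 309485009821345068724781056) (nat_lit 7) (nat_lit 0)) (.cons (.kr (nat_lit 309485009821345068724781057) (nat_lit 72057594037928192) (nat_lit 0) (nat_lit 2)) (.cons (.br (nat_lit 9) (nat_lit 0) (.cons (.rf (nat_lit 4572) (nat_lit 13549758973984)) (.cons (.br (nat_lit 10) (nat_lit 0) (.cons (.ev (nat_lit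 79538861172271781264895246593) (nat_lit 1)) (.cons (.rf (nat_lit 4557) (nat_lit 470975721375776)) .nil))) (.cons (.br (nat_lit 12) (nat_lit 0) (.cons (.rf (nat_lit 4557) (nat_lit 470975688869889)) (.cons (.rf (nat_lit 4697) (nat_lit 493858305440582043680)) .nil))) .nil)))) (.cons (.rf (nat_lit 4568) (nat_lit 470946596128800)) .nil))))) .nil)))),
 (.br (nat_lit 13) (nat_lit 0) (.cons (.ev (nat_lit 1213703599231747506765826) (nat_lit 2)) (.cons (.rf (nat_lit 4697) (nat_lit 458117738797769787424)) .nil))),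
 (.br (nat_lit 13) (nat_lit 0) (.cons (.ev (nat_lit 1213703599231747506765826) (nat_lit 2)) (.cons (.rf (nat_lit 4699) (nat_lit 493858305440582043680)) (.cons (.br (nat_lit 13) (nat_lit 0) (.cons (.ev (nat_lit 1213703599231747506765826) (nat_lit 2)) (.cons (.rf (nat_lit 4697) (nat_lit 458117738797769787424)) .nil))) .nil)))),
 (.br (nat_lit 9) (nat_lit 0) (.cons (.br (nat_lit 11) (nat_lit 0) (.cons (.rf (nat_lit 4554) (nat_lit 13578884220960)) (.cons (.rf (nat_lit 4555) (nat_lit 14678395848736)) .nil))) (.cons (.rf (nat_lit 4700) (nat_lit 493858305440582043680)) (.cons (.ev (nat_lit 1213703599231747506765826) (nat_lit 2)) .nil)))),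
 (.br (nat_lit 9) (nat_lit 0) (.cons (.rf (nat_lit 4572) (nat_lit 13549758973984)) (.cons (.rf (nat_lit 4555) (nat_lit 13578884220960)) (.cons (.rf (nat_lit 4700) (nat_lit 493858305440582043680)) (.cons (.rf (nat_lit 4700) (nat_lit 458117738797769787424)) .nil))))),
 (.br (nat_lit 9) (nat_lit 0) (.cons (.rf (nat_lit 4589) (nat_lit 325702539970592)) (.cons (.br (nat_lit 7) (nat_lit 0) (.cons (.kr (nat_lit 4722366482869645213697) (nat_lit 18446744073709551872) (nat_lit 0) (nat_lit 2)) .nil)) .nil))),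
 (.br (nat_lit 10) (nat_lit 0) (.cons (.ev (nat_lit 621397334823609344647890438) (nat_lit 3)) (.cons (.rf (nat_lit 4703) (nat_lit 470979979642912)) .nil))),
 (.br (nat_lit 10) (nat_lit 0) (.cons (.br (nat_lit 13) (nat_lit 0) (.cons (.rf (nat_lit 4703) (nat_lit 470979979642912)) (.cons (.ev (nat_lit 477225913497665267431584694788) (nat_lit 3)) .nil))) (.cons (.rf (nat_lit 4704) (nat_lit 493858305440582043680)) .nil))),
 (.br (nat_lit 6) (nat_lit 0) (.cons (.br (nat_lit 10) (nat_lit 0) (.cons (.ev (nat_lit 310698713348519222193619715) (nat_lit 2)) (.cons (.br (nat_lit 11) (nat_lit 0) (.cons (.ev (nat_lit 79228162514336676666870398976) (nat_lit 1)) (.cons (.rf (nat_lit 4557) (nat_lit 470941395191840)) .nil))) (.cons (.rf (nat_lit 4568) (nat_lit 470979882125344)) .nil)))) (.cons (.ev (nat_lit 309489750634854586567885056) (nat_lit 1)) (.cons (.br (nat_lit 13) (nat_lit 0) (.cons (.rf (nat_lit 4704) (nat_lit 493858305440582043680)) (.cons (.rf (nat_lit 4705) (nat_lit 493858305440582043680)) (.cons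 (.br (nat_lit 13) (nat_lit 0) (.cons (.rf (nat_lit 4704) (nat_lit 493858305440582043680)) (.cons (.rf (nat_lit 4705) (nat_lit 493858305440582043680)) .nil))) .nil)))) .nil)))),
 (.br (nat_lit 4) (nat_lit 0) (.cons (.rf (nat_lit 4568) (nat_lit 291617681541152)) .nil)),
 (.br (nat_lit 10) (nat_lit 0) (.cons (.rf (nat_lit 4707) (nat_lit 362021925259296)) (.cons (.br (nat_lit 4) (nat_lit 0) (.cons (.rf (nat_lit 4707) (nat_lit 362021925259296)) .nil)) .nil))),
 (.br (nat_lit 12) (nat_lit 0) (.cons (.rf (nat_lit 4706) (nat_lit 14242959524133701664)) (.cons (.br (nat_lit 12) (nat_lit 0) (.cons (.rf (nat_lit 4706) (nat_lit 14242959524133701664)) (.cons (.rf (nat_lit 4708) (nat_lit 15071359250073632)) .nil))) (.cons (.br (nat_lit 12) (nat_lit 0) (.cons (.rf (nat_lit 4706) (nat_lit 14242959524133701664)) (.cons (.rf (nat_lit 4708) (nat_lit 15071359250073632)) .nil))) .nil))))]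

theorem c172 : chkAll C T R L172 (nat_lit 4675) = true := by decide +kernel

theorem l172 : (nat_lit 4675) + L172.length = (nat_lit 4710) := by decide +kernel

/-- part of the certificates -/
def L173 : List Prf := [(.br (nat_lit 10) (nat_lit 0) (.cons (.rf (nat_lit 4708) (nat_lit 12746817758398496)) (.cons (.rf (nat_lit 4708) (nat_lit 12746920901576736)) .nil))),
 (.br (nat_lit 1) (nat_lit 0) (.cons (.rf (nat_lit 4694) (nat_lit 407901468851537921)) (.cons (.kr (nat_lit 1) (nat_lit 256) (nat_lit 0) (nat_lit 2)) (.cons (.br (nat_lit 6) (nat_lit 0) (.cons (.br (nat_lit 6) (nat_lit 0) (.cons (.ev (nat_lit 1213648186943031902143235) (nat_lit 2)) (.cons (.rf (nat_lit 4695) (nat_lit 398341278140448)) (.cons (.rf (nat_lit 4556) (nat_lit 429198473824288)) .nil)))) (.cons (.br (nat_lit 6) (nat_lit 0) (.cons (.ev (nat_lit 1213648186943031902143235) (nat_lit 2)) (.cons (.rf (nat_lit 4696) (nat_lit 398341278140448)) (.cons (.rf (nat_lit 4556) (nat_lit 429197401131009)) .nil)))) (.cons (.rf (nat_lit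 4698) (nat_lit 407901468851537952)) (.cons (.br (nat_lit 6) (nat_lit 0) (.cons (.rf (nat_lit 4556) (nat_lit 429198473824288)) (.cons (.rf (nat_lit 4556) (nat_lit 429197401131009)) (.cons (.rf (nat_lit 4698) (nat_lit 407901468851537952)) (.cons (.br (nat_lit 12) (nat_lit 0) (.cons (.rf (nat_lit 4700) (nat_lit 493858305440582043680)) (.cons (.rf (nat_lit 4701) (nat_lit 493858305440582043680)) (.cons (.rf (nat_lit 4702) (nat_lit 493858305440582043680)) (.cons (.br (nat_lit 12) (nat_lit 0) (.cons (.rf (nat_lit 4700) (nat_lit 493858305440582043680)) (.cons (.rf (nat_lit 4701) (nat_lit 493858305440582043680)) (.cons (.rf (nat_lit 4702) (nat_lit 493858305440582043680)) .nil)))) .nil))))) .nil))))) .nil))))) (.cons (.br (nat_lit 9) (nat_lit 0) (.cons (.br (nat_lit 6) (nat_lit 0) (.cons (.br (nat_lit 10) (nat_lit 0) (.cons (.ev (nat_lit 309489750634854586567884801) (nat_lit 1)) (.cons (.rf (nat_lit 4562) (nat_lit 13583044970528)) .nil))) (.cons (.rf (nat_lit 4576) (nat_lit 350413424672)) (.cons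 (.rf (nat_lit 4556) (nat_lit 429165120718880)) .nil)))) (.cons (.br (nat_lit 10) (nat_lit 0) (.cons (.br (nat_lit 6) (nat_lit 0) (.cons (.ev (nat_lit 309489750634854586567885056) (nat_lit 1)) (.cons (.rf (nat_lit 4562) (nat_lit 13578884220960)) .nil))) (.cons (.ev (nat_lit 1208944338416296939028736) (nat_lit 1)) (.cons (.rf (nat_lit 4556) (nat_lit 433425661167648)) .nil)))) (.cons (.zr (nat_lit 309489732187830137393315841) (nat_lit 36893488160304005120) (nat_lit 5) (nat_lit 9)) (.cons (.br (nat_lit 12) (nat_lit 0) (.cons (.rf (nat_lit 4706) (nat_lit 14242959524133701664)) (.cons (.rf (nat_lit 4709) (nat_lit 14242959524133701664)) (.cons (.br (nat_lit 12) (nat_lit 0) (.cons (.rf (nat_lit 4706) (nat_lit 14242959524133701664)) (.cons (.rf (nat_lit 4709) (nat_lit 14242959524133701664)) (.cons (.rf (nat_lit 4710) (nat_lit 482279100236564512)) .nil)))) (.cons (.br (nat_lit 12) (nat_lit 0) (.cons (.rf (nat_lit 4706) (nat_lit 14242959524133701664)) (.cons (.rf (nat_lit 4709) (nat_lit 14242959524133701664))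 (.cons (.rf (nat_lit 4710) (nat_lit 482279100236564512)) .nil)))) .nil))))) .nil))))) (.cons (.rf (nat_lit 4549) (nat_lit 12289)) .nil)))))),
 (.br (nat_lit 10) (nat_lit 0) (.cons (.rf (nat_lit 4557) (nat_lit 398341142972417)) (.cons (.br (nat_lit 11) (nat_lit 0) (.cons (.rf (nat_lit 4710) (nat_lit 372857696946456608)) .nil)) .nil))),
 (.br (nat_lit 4) (nat_lit 0) (.cons (.rf (nat_lit 4572) (nat_lit 13412449159200)) (.cons (.br (nat_lit 6) (nat_lit 0) (.cons (.ev (nat_lit 79537647524085964141557252353) (nat_lit 1)) (.cons (.rf (nat_lit 4557) (nat_lit 470979877046304)) .nil))) (.cons (.rf (nat_lit 4712) (nat_lit 482283500298438688)) .nil)))),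
 (.br (nat_lit 10) (nat_lit 0) (.cons (.ev (nat_lit 1213666632841572529471489) (nat_lit 1)) (.cons (.ev (nat_lit 1213666632841572529471744) (nat_lit 1)) (.cons (.br (nat_lit 11) (nat_lit 0) (.cons (.rf (nat_lit 4562) (nat_lit 13411408971808)) (.cons (.rf (nat_lit 4562) (nat_lit 13342691592193)) (.cons (.rf (nat_lit 4713) (nat_lit 14242959524133701664)) (.cons (.rf (nat_lit 4568) (nat_lit 470809286314016)) .nil))))) .nil)))),
 (.br (nat_lit 7) (nat_lit 0) (.cons (.rf (nat_lit 4703) (nat_lit 325600504088608)) .nil)),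
 (.br (nat_lit 7) (nat_lit 0) (.cons (.rf (nat_lit 4715) (nat_lit 325702574508064)) (.cons (.rf (nat_lit 4715) (nat_lit 291617713031169)) .nil))),
 (.br (nat_lit 8) (nat_lit 0) (.cons (.rf (nat_lit 4555) (nat_lit 11277615433729)) (.cons (.rf (nat_lit 4703) (nat_lit 361885462628384)) .nil))),
 (.br (nat_lit 11) (nat_lit 0) (.cons (.rf (nat_lit 4716) (nat_lit 398341277059104)) (.cons (.rf (nat_lit 4717) (nat_lit 12746920834467872)) (.cons (.br (nat_lit 11) (nat_lit 0) (.cons (.rf (nat_lit 4716) (nat_lit 398341277059104)) (.cons (.rf (nat_lit 4717) (nat_lit 12746920834467872)) .nil))) .nil)))),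
 (.br (nat_lit 3) (nat_lit 0) (.cons (.rf (nat_lit 4572) (nat_lit 11176850458656)) (.cons (.rf (nat_lit 4555) (nat_lit 11313115007008)) (.cons (.rf (nat_lit 4718) (nat_lit 407901468851537952)) (.cons (.rf (nat_lit 4717) (nat_lit 11656205299714080)) .nil))))),
 (.br (nat_lit 10) (nat_lit 0) (.cons (.rf (nat_lit 4718) (nat_lit 407901468851537952)) (.cons (.rf (nat_lit 4718) (nat_lit 407901468784494593)) (.cons (.rf (nat_lit 4719) (nat_lit 407901468851537952)) (.cons (.br (nat_lit 10) (nat_lit 0) (.cons (.rf (nat_lit 4718) (nat_lit 407901468851537952)) (.cons (.rf (nat_lit 4718) (nat_lit 407901468784494593)) (.cons (.rf (nat_lit 4719) (nat_lit 407901468851537952)) .nil)))) .nil))))),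
 (.br (nat_lit 8) (nat_lit 0) (.cons (.rf (nat_lit 4656) (nat_lit 12414808563744)) (.cons (.rf (nat_lit 4624) (nat_lit 12414812817440)) (.cons (.ev (nat_lit 18447025548703039489) (nat_lit 1)) (.cons (.rf (nat_lit 4655) (nat_lit 434627277819936)) .nil))))),
 (.br (nat_lit 6) (nat_lit 0) (.cons (.br (nat_lit 10) (nat_lit 0) (.cons (.ev (nat_lit 311912306265599859459359491) (nat_lit 2)) (.cons (.rf (nat_lit 4656) (nat_lit 13412448936992)) .nil))) (.cons (.br (nat_lit 9) (nat_lit 0) (.cons (.ev (nat_lit 310698658007443667073105921) (nat_lit 1)) (.cons (.rf (nat_lit 4622) (nat_lit 13343702321153)) .nil))) (.cons (.br (nat_lit 9) (nat_lit 0) (.cons (.ev (nat_lit 313111787424586718813224962) (nat_lit 2)) (.cons (.rf (nat_lit 4654) (nat_lit 13549758910496)) .nil))) (.cons (.rf (nat_lit 4721) (nat_lit 445092449661061152)) .nil))))),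
 (.br (nat_lit 9) (nat_lit 0) (.cons (.ev (nat_lit 4740885284537392693249) (nat_lit 1)) (.cons (.rf (nat_lit 4622) (nat_lit 12277474494496)) .nil))),
 (.br (nat_lit 4) (nat_lit 0) (.cons (.rf (nat_lit 4723) (nat_lit 12746920901609504)) (.cons (.ev (nat_lit 1208981304808662349513216) (nat_lit 2)) (.cons (.rf (nat_lit 4722) (nat_lit 407901468851537952)) (.cons (.br (nat_lit 10) (nat_lit 0) (.cons (.rf (nat_lit 4656) (nat_lit 13515328923649)) (.cons (.rf (nat_lit 4624) (nat_lit 13515333240833)) (.cons (.br (nat_lit 9) (nat_lit 0) (.cons (.ev (nat_lit 4722366764344638701569) (nat_lit 1)) (.cons (.br (nat_lit 11) (nat_lit 0) (.cons (.ev (nat_lit 158463588046842811831625843718) (nat_lit 3)) (.cons (.rf (nat_lit 4631) (nat_lit 470912170395649)) .nil))) (.cons (.rf (nat_lit 4655) (nat_lit 436655678887937)) .nil)))) (.cons (.rf (nat_lit 4655) (nat_lit 470912170268673)) .nil))))) .nil))))),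
 (.br (nat_lit 6) (nat_lit 0) (.cons (.rf (nat_lit 4622) (nat_lit 13515333240833)) (.cons (.br (nat_lit 10) (nat_lit 0) (.cons (.ev (nat_lit 79537647524085964141557252353) (nat_lit 1)) (.cons (.rf (nat_lit 4655) (nat_lit 436724425630752)) .nil))) (.cons (.rf (nat_lit 4655) (nat_lit 436861730366496)) .nil)))),
 (.br (nat_lit 4) (nat_lit 0) (.cons (.rf (nat_lit 4622) (nat_lit 10075026622465)) (.cons (.rf (nat_lit 4655) (nat_lit 325669253878816)) (.cons (.rf (nat_lit 4631) (nat_lit 291584393512992)) .nil)))),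
 (.br (nat_lit 11) (nat_lit 0) (.cons (.rf (nat_lit 4722) (nat_lit 407901468851537952)) (.cons (.ev (nat_lit 4740885567111881031681) (nat_lit 1)) (.cons (.kr (nat_lit 618970019642690137466339328) (nat_lit 18518802767259107328) (nat_lit 3) (nat_lit 0)) (.cons (.br (nat_lit 4) (nat_lit 0) (.cons (.br (nat_lit 10) (nat_lit 0) (.cons (.rf (nat_lit 4656) (nat_lit 13412454174752)) (.cons (.rf (nat_lit 4656) (nat_lit 14511965802528)) .nil))) (.cons (.ev (nat_lit 1213648258156192386252801) (nat_lit 1)) (.cons (.rf (nat_lit 4725) (nat_lit 14242959524133701664)) (.cons (.rf (nat_lit 4726) (nat_lit 470979979642912)) .nil))))) .nil))))),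
 (.br (nat_lit 11) (nat_lit 0) (.cons (.rf (nat_lit 4722) (nat_lit 407901468851537952)) (.cons (.rf (nat_lit 4724) (nat_lit 407901468851537952)) (.cons (.kr (nat_lit 618970019642690137466339328) (nat_lit 18518802767259107328) (nat_lit 3) (nat_lit 0)) (.cons (.br (nat_lit 9) (nat_lit 0) (.cons (.ev (nat_lit 1213648258156192386252801) (nat_lit 1)) (.cons (.br (nat_lit 4) (nat_lit 0) (.cons (.rf (nat_lit 4656) (nat_lit 13515333113857)) (.cons (.rf (nat_lit 4656) (nat_lit 14614844741633)) .nil))) (.cons (.ev (nat_lit 310698658007443667073106176) (nat_lit 1)) (.cons (.br (nat_lit 6) (nat_lit 0) (.cons (.rf (nat_lit 4656) (nat_lit 14443213821953)) (.cons (.rf (nat_lit 4655) (nat_lit 436655674697729)) (.cons (.ev (nat_lit 4722366764344638701569) (nat_lit 1)) .nil)))) .nil))))) .nil))))),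
 (.br (nat_lit 6) (nat_lit 0) (.cons (.rf (nat_lit 4656) (nat_lit 13515333113857)) (.cons (.rf (nat_lit 4622) (nat_lit 13515333240833)) (.cons (.br (nat_lit 9) (nat_lit 0) (.cons (.rf (nat_lit 4656) (nat_lit 13549753672736)) (.cons (.ev (nat_lit 4722366764344638701569) (nat_lit 1)) (.cons (.br (nat_lit 10) (nat_lit 0) (.cons (.rf (nat_lit 4610) (nat_lit 470979877046304)) (.cons (.br (nat_lit 12) (nat_lit 0) (.cons (.ev (nat_lit 20520713070658983770742685958915) (nat_lit 2)) .nil)) .nil))) .nil)))) (.cons (.br (nat_lit 9) (nat_lit 0) (.cons (.rf (nat_lit 4656) (nat_lit 14649265300512)) (.cons (.br (nat_lit 12) (nat_lit 0) (.cons (.rf (nat_lit 4610) (nat_lit 470978742388737)) (.cons (.ev (nat_lit 159075323401034306423470818820) (nat_lit 3)) .nil))) (.cons (.ev (nat_lit 4722366764344638701569) (nat_lit 1)) .nil)))) .nil))))),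
 (.br (nat_lit 4) (nat_lit 0) (.cons (.rf (nat_lit 4622) (nat_lit 13549758973984)) (.cons (.rf (nat_lit 4656) (nat_lit 13549758910496)) (.cons (.rf (nat_lit 4729) (nat_lit 493858305440582043680)) (.cons (.rf (nat_lit 4729) (nat_lit 458117738797769787424)) .nil))))),
 (.br (nat_lit 4) (nat_lit 0) (.cons (.rf (nat_lit 4656) (nat_lit 13343702194177)) (.cons (.rf (nat_lit 4656) (nat_lit 13343698003969)) (.cons (.rf (nat_lit 4729) (nat_lit 493858305440582043680)) (.cons (.rf (nat_lit 4729) (nat_lit 458117738797769787424)) .nil))))),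
 (.br (nat_lit 4) (nat_lit 0) (.cons (.rf (nat_lit 4656) (nat_lit 13412454174752)) (.cons (.rf (nat_lit 4622) (nat_lit 13412454238240)) (.cons (.rf (nat_lit 4729) (nat_lit 493858305440582043680)) (.cons (.rf (nat_lit 4729) (nat_lit 458117738797769787424)) .nil))))),
 (.br (nat_lit 9) (nat_lit 0) (.cons (.kr (nat_lit 309485009821346168236408832) (nat_lit 1208925819896104151416832) (nat_lit 5) (nat_lit 0)) (.cons (.rf (nat_lit 4622) (nat_lit 13342629627905)) .nil))),
 (.br (nat_lit 6) (nat_lit 0) (.cons (.br (nat_lit 11) (nat_lit 0) (.cons (.zr (nat_lit 4796153462463068700929) (nat_lit 3626777603803517709975552) (nat_lit 10) (nat_lit 2)) (.cons (.rf (nat_lit 4656) (nat_lit 13411408749600)) .nil))) (.cons (.br (nat_lit 9) (nat_lit 0) (.cons (.ev (nat_lit 310698658007443667073105921) (nat_lit 1)) (.cons (.rf (nat_lit 4654) (nat_lit 13583044907040)) .nil))) (.cons (.rf (nat_lit 4733) (nat_lit 407901468851537952)) (.cons (.rf (nat_lit 4721) (nat_lit 444001734126307360)) .nil))))),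
 (.br (nat_lit 8) (nat_lit 0) (.cons (.ev (nat_lit 18447025548703039489) (nat_lit 1)) (.cons (.rf (nat_lit 4656) (nat_lit 12242005338113)) .nil))),
 (.br (nat_lit 3) (nat_lit 0) (.cons (.rf (nat_lit 4656) (nat_lit 8974439095297)) (.cons (.rf (nat_lit 4656) (nat_lit 10073950723073)) .nil))),
 (.br (nat_lit 10) (nat_lit 0) (.cons (.rf (nat_lit 4734) (nat_lit 407901468851537952)) (.cons (.ev (nat_lit 4722366764344638701569) (nat_lit 1)) (.cons (.ev (nat_lit 309485009821626543701557504) (nat_lit 1)) (.cons (.br (nat_lit 11) (nat_lit 0) (.cons (.rf (nat_lit 4736) (nat_lit 13582974879776)) (.cons (.rf (nat_lit 4736) (nat_lit 13583142488096)) (.cons (.br (nat_lit 4) (nat_lit 0) (.cons (.rf (nat_lit 4622) (nat_lit 13411414050848)) (.cons (.br (nat_lit 9) (nat_lit 0) (.cons (.ev (nat_lit 7281908068302888626159620) (nat_lit 3)) (.cons (.rf (nat_lit 4655) (nat_lit 436654606194689)) .nil))) (.cons (.rf (nat_lit 4655) (nat_lit 436826237114369)) .nil)))) (.cons (.rf (nat_lit 4726) (nat_lit 470944443631617))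 .nil))))) .nil))))),
 (.br (nat_lit 10) (nat_lit 0) (.cons (.rf (nat_lit 4654) (nat_lit 12276430086176)) (.cons (.ev (nat_lit 1208925819615728686399744) (nat_lit 1)) (.cons (.rf (nat_lit 4655) (nat_lit 400404034691104)) .nil)))),
 (.br (nat_lit 6) (nat_lit 0) (.cons (.br (nat_lit 10) (nat_lit 0) (.cons (.zr (nat_lit 1208962713384264455421955) (nat_lit 9444805024432856891904) (nat_lit 5) (nat_lit 4)) (.cons (.rf (nat_lit 4736) (nat_lit 13342527031297)) .nil))) (.cons (.ev (nat_lit 4722366764344638701569) (nat_lit 1)) (.cons (.rf (nat_lit 4733) (nat_lit 407725546996336672)) (.cons (.br (nat_lit 4) (nat_lit 0) (.cons (.rf (nat_lit 4624) (nat_lit 13583044970528)) (.cons (.rf (nat_lit 4656) (nat_lit 13583044907040)) (.cons (.rf (nat_lit 4738) (nat_lit 445092485128095776)) (.cons (.rf (nat_lit 4655) (nat_lit 470979876824096)) .nil))))) .nil))))),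
 (.br (nat_lit 6) (nat_lit 0) (.cons (.rf (nat_lit 4736) (nat_lit 12310594979872)) (.cons (.rf (nat_lit 4736) (nat_lit 12310729066528)) (.cons (.br (nat_lit 8) (nat_lit 0) (.cons (.rf (nat_lit 4622) (nat_lit 12448098813984)) (.cons (.ev (nat_lit 18447025548703039489) (nat_lit 1)) (.cons (.rf (nat_lit 4655) (nat_lit 400369609943041)) .nil)))) (.cons (.rf (nat_lit 4726) (nat_lit 434625260488705)) .nil))))),
 (.br (nat_lit 6) (nat_lit 0) (.cons (.rf (nat_lit 4656) (nat_lit 13514260420609)) (.cons (.rf (nat_lit 4622) (nat_lit 13514260547585)) (.cons (.br (nat_lit 9) (nat_lit 0) (.cons (.rf (nat_lit 4656) (nat_lit 13583039669280)) (.cons (.ev (nat_lit 4722366764344638701569) (nat_lit 1)) (.cons (.br (nat_lit 11) (nat_lit 0) (.cons (.ev (nat_lit 309485028340429310977442048) (nat_lit 1)) (.cons (.br (nat_lit 12) (nat_lit 0) (.cons (.ev (nat_lit 159075313956445460253156311042) (nat_lit 3)) .nil)) .nil))) .nil)))) (.cons (.br (nat_lit 9) (nat_lit 0) (.cons (.rf (nat_lit 4656) (nat_lit 14682551297056))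 (.cons (.ev (nat_lit 1213703599231747506765826) (nat_lit 2)) (.cons (.ev (nat_lit 4722366764344638701569) (nat_lit 1)) .nil)))) .nil))))),
 (.br (nat_lit 4) (nat_lit 0) (.cons (.rf (nat_lit 4622) (nat_lit 13583044970528)) (.cons (.rf (nat_lit 4656) (nat_lit 13583044907040)) (.cons (.rf (nat_lit 4741) (nat_lit 493858305440582043680)) (.cons (.rf (nat_lit 4741) (nat_lit 458117738797769787424)) .nil))))),
 (.br (nat_lit 4) (nat_lit 0) (.cons (.rf (nat_lit 4656) (nat_lit 13342629500929)) (.cons (.rf (nat_lit 4656) (nat_lit 13342624263169)) (.cons (.rf (nat_lit 4741) (nat_lit 493858305440582043680)) (.cons (.rf (nat_lit 4741) (nat_lit 458117738797769787424)) .nil))))),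
 (.br (nat_lit 4) (nat_lit 0) (.cons (.rf (nat_lit 4656) (nat_lit 13411413987360)) (.cons (.rf (nat_lit 4622) (nat_lit 13411414050848)) (.cons (.rf (nat_lit 4741) (nat_lit 493858305440582043680)) (.cons (.rf (nat_lit 4741) (nat_lit 458117738797769787424)) .nil))))),
 (.br (nat_lit 1) (nat_lit 0) (.cons (.rf (nat_lit 4694) (nat_lit 407901468851537921)) (.cons (.br (nat_lit 10) (nat_lit 0) (.cons (.br (nat_lit 10) (nat_lit 0) (.cons (.ev (nat_lit 1208925819615728686399744) (nat_lit 1)) (.cons (.ev (nat_lit 1213666632841572529471489) (nat_lit 1)) (.cons (.rf (nat_lit 4556) (nat_lit 433592220289056)) .nil)))) (.cons (.br (nat_lit 10) (nat_lit 0) (.cons (.ev (nat_lit 1208925819615728686399744) (nat_lit 1)) (.cons (.ev (nat_lit 1213666632841572529471744) (nat_lit 1)) (.cons (.rf (nat_lit 4556) (nat_lit 433590074902529)) .nil)))) (.cons (.rf (nat_lit 4714) (nat_lit 407901468851537952)) (.cons (.br (nat_lit 10) (nat_lit 0) (.cons (.rf (nat_lit 4556) (nat_lit 433592220289056)) (.cons (.rf (nat_lit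 4556) (nat_lit 433590074902529)) (.cons (.rf (nat_lit 4714) (nat_lit 407901468851537952)) (.cons (.rf (nat_lit 4720) (nat_lit 482283500298438688)) .nil))))) .nil))))) (.cons (.br (nat_lit 11) (nat_lit 0) (.cons (.rf (nat_lit 4722) (nat_lit 407901468851537952)) (.cons (.rf (nat_lit 4724) (nat_lit 407901468851537952)) (.cons (.rf (nat_lit 4727) (nat_lit 407901468851537952)) (.cons (.rf (nat_lit 4728) (nat_lit 407901468851537952)) (.cons (.br (nat_lit 11) (nat_lit 0) (.cons (.rf (nat_lit 4722) (nat_lit 407901468851537952)) (.cons (.rf (nat_lit 4724) (nat_lit 407901468851537952)) (.cons (.rf (nat_lit 4727) (nat_lit 407901468851537952)) (.cons (.rf (nat_lit 4740) (nat_lit 444001734126307360)) (.cons (.br (nat_lit 12) (nat_lit 0) (.cons (.rf (nat_lit 4729) (nat_lit 493858305440582043680)) (.cons (.rf (nat_lit 4730) (nat_lit 493858305440582043680)) (.cons (.rf (nat_lit 4731) (nat_lit 493858305440582043680)) (.cons (.rf (nat_lit 4732) (nat_lit 493858305440582043680)) (.cons (.br (nat_lit 12) (nat_lit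 0) (.cons (.rf (nat_lit 4729) (nat_lit 493858305440582043680)) (.cons (.rf (nat_lit 4730) (nat_lit 493858305440582043680)) (.cons (.rf (nat_lit 4731) (nat_lit 493858305440582043680)) (.cons (.rf (nat_lit 4732) (nat_lit 493858305440582043680)) .nil))))) .nil)))))) .nil)))))) .nil)))))) (.cons (.br (nat_lit 10) (nat_lit 0) (.cons (.rf (nat_lit 4734) (nat_lit 407901468851537952)) (.cons (.rf (nat_lit 4737) (nat_lit 407901468851537952)) (.cons (.rf (nat_lit 4739) (nat_lit 407901468851537952)) (.cons (.br (nat_lit 10) (nat_lit 0) (.cons (.rf (nat_lit 4734) (nat_lit 407901468851537952)) (.cons (.ev (nat_lit 309485009821626543701557504) (nat_lit 1)) (.cons (.rf (nat_lit 4739) (nat_lit 407901468851537952)) (.cons (.rf (nat_lit 4740) (nat_lit 445092449661061152)) .nil))))) (.cons (.br (nat_lit 10) (nat_lit 0) (.cons (.rf (nat_lit 4734) (nat_lit 407901468851537952)) (.cons (.rf (nat_lit 4737) (nat_lit 407901468851537952)) (.cons (.rf (nat_lit 4739) (nat_lit 407901468851537952)) (.cons (.rf (nat_lit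 4740) (nat_lit 445092449661061152)) (.cons (.br (nat_lit 12) (nat_lit 0) (.cons (.rf (nat_lit 4741) (nat_lit 493858305440582043680)) (.cons (.rf (nat_lit 4742) (nat_lit 493858305440582043680)) (.cons (.rf (nat_lit 4743) (nat_lit 493858305440582043680)) (.cons (.rf (nat_lit 4744) (nat_lit 493858305440582043680)) (.cons (.br (nat_lit 12) (nat_lit 0) (.cons (.rf (nat_lit 4741) (nat_lit 493858305440582043680)) (.cons (.rf (nat_lit 4742) (nat_lit 493858305440582043680)) (.cons (.rf (nat_lit 4743) (nat_lit 493858305440582043680)) (.cons (.rf (nat_lit 4744) (nat_lit 493858305440582043680)) .nil))))) .nil)))))) .nil)))))) .nil)))))) (.cons (.rf (nat_lit 4549) (nat_lit 12289)) .nil))))))]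

theorem c173 : chkAll C T R L173 (nat_lit 4710) = true := by decide +kernel

theorem l173 : (nat_lit 4710) + L173.length = (nat_lit 4746) := by decide +kernel

/-- part of the certificates -/
def L174 : List Prf := [(.br (nat_lit 6) (nat_lit 0) (.cons (.br (nat_lit 10) (nat_lit 0) (.cons (.ev (nat_lit 621392593720459868122579715) (nat_lit 2)) (.cons (.rf (nat_lit 4562) (nat_lit 13583039891488)) .nil))) (.cons (.ev (nat_lit 72339069014704129) (nat_lit 1)) (.cons (.rf (nat_lit 4556) (nat_lit 429165115639840)) .nil)))),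
 (.br (nat_lit 6) (nat_lit 0) (.cons (.br (nat_lit 10) (nat_lit 0) (.cons (.ev (nat_lit 158456329769342468378931167491) (nat_lit 2)) (.cons (.rf (nat_lit 4568) (nat_lit 470979877046304)) .nil))) (.cons (.rf (nat_lit 4720) (nat_lit 482243915898030112)) .nil))),
 (.br (nat_lit 6) (nat_lit 0) (.cons (.br (nat_lit 8) (nat_lit 0) (.cons (.rf (nat_lit 4557) (nat_lit 398304836028448)) (.cons (.rf (nat_lit 4568) (nat_lit 398341242587168)) .nil))) (.cons (.rf (nat_lit 4716) (nat_lit 398304774064160)) .nil))),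
 (.br (nat_lit 10) (nat_lit 0) (.cons (.rf (nat_lit 4748) (nat_lit 407901468851537952)) (.cons (.rf (nat_lit 4748) (nat_lit 407899271908722720)) (.cons (.br (nat_lit 10) (nat_lit 0) (.cons (.rf (nat_lit 4748) (nat_lit 407901468851537952)) (.cons (.rf (nat_lit 4748) (nat_lit 407899271908722720)) .nil))) .nil)))),
 (.br (nat_lit 1) (nat_lit 0) (.cons (.kr (nat_lit 1) (nat_lit 256) (nat_lit 0) (nat_lit 2)) (.cons (.rf (nat_lit 4745) (nat_lit 407901468851537952)) (.cons (.rf (nat_lit 4745) (nat_lit 403150517695587360)) (.cons (.br (nat_lit 4) (nat_lit 0) (.cons (.rf (nat_lit 4746) (nat_lit 407901468851537952)) (.cons (.rf (nat_lit 4746) (nat_lit 403150517695587360)) (.cons (.zr (nat_lit 309485009821345073019748355) (nat_lit 4722366482869645279744) (nat_lit 5) (nat_lit 4)) (.cons (.br (nat_lit 11) (nat_lit 0) (.cons (.rf (nat_lit 4746) (nat_lit 155450163248473089)) (.cons (.rf (nat_lit 4746) (nat_lit 151190728183384065)) (.cons (.br (nat_lit 12) (nat_lit 0) (.cons (.rf (nat_lit 4747) (nat_lit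 14242959524133701664)) (.cons (.rf (nat_lit 4747) (nat_lit 14238208572977751072)) (.cons (.rf (nat_lit 4710) (nat_lit 482278928438036512)) .nil)))) (.cons (.rf (nat_lit 4749) (nat_lit 482283499190061088)) .nil))))) .nil))))) (.cons (.rf (nat_lit 4549) (nat_lit 12289)) .nil)))))),
 (.br (nat_lit 1) (nat_lit 0) (.cons (.rf (nat_lit 4711) (nat_lit 407901468851537952)) (.cons (.rf (nat_lit 4745) (nat_lit 407901468851537952)) (.cons (.rf (nat_lit 4750) (nat_lit 407901468851537952)) (.cons (.br (nat_lit 1) (nat_lit 0) (.cons (.rf (nat_lit 4711) (nat_lit 407901468851537952)) (.cons (.rf (nat_lit 4745) (nat_lit 407901468851537952)) (.cons (.rf (nat_lit 4745) (nat_lit 403150517695587360)) (.cons (.rf (nat_lit 4694) (nat_lit 151190728183384065)) (.cons (.rf (nat_lit 4549) (nat_lit 12289)) .nil)))))) (.cons (.br (nat_lit 1) (nat_lit 0) (.cons (.rf (nat_lit 4711) (nat_lit 407901468851537952)) (.cons (.rf (nat_lit 4745) (nat_lit 407901468851537952)) (.cons (.rf (nat_lit 4750) (nat_lit 407901468851537952))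 (.cons (.rf (nat_lit 4694) (nat_lit 151190728183384065)) (.cons (.rf (nat_lit 4549) (nat_lit 12289)) .nil)))))) (.cons (.rf (nat_lit 4549) (nat_lit 12289)) .nil))))))),
 (.br (nat_lit 6) (nat_lit 0) (.cons (.ev (nat_lit 9444733529788772253953) (nat_lit 2)) (.cons (.br (nat_lit 10) (nat_lit 0) (.cons (.ev (nat_lit 621397316448920665986564865) (nat_lit 3)) (.cons (.rf (nat_lit 4622) (nat_lit 13412454174752)) .nil))) (.cons (.rf (nat_lit 4622) (nat_lit 13549758910496)) .nil)))),
 (.br (nat_lit 6) (nat_lit 0) (.cons (.ev (nat_lit 9444733529788772254467) (nat_lit 2)) (.cons (.rf (nat_lit 4752) (nat_lit 406809683869931521)) (.cons (.kr (nat_lit 18518801667764256768) (nat_lit 618970019642691236961189888) (nat_lit 3) (nat_lit 0)) (.cons (.rf (nat_lit 4721) (nat_lit 445092449658966048)) .nil))))),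
 (.br (nat_lit 11) (nat_lit 0) (.cons (.rf (nat_lit 4655) (nat_lit 470912103225345)) (.cons (.rf (nat_lit 4655) (nat_lit 436724423599136)) (.cons (.ev (nat_lit 621387908175408642746614531) (nat_lit 2)) .nil)))),
 (.br (nat_lit 6) (nat_lit 0) (.cons (.rf (nat_lit 4656) (nat_lit 12310787792928)) (.cons (.rf (nat_lit 4654) (nat_lit 12379247220737)) (.cons (.rf (nat_lit 4721) (nat_lit 406810753314689056)) (.cons (.rf (nat_lit 4721) (nat_lit 442839550333653024)) .nil))))),
 (.br (nat_lit 11) (nat_lit 0) (.cons (.rf (nat_lit 4723) (nat_lit 11582430581723137)) (.cons (.zr (nat_lit 4722510598066311069697) (nat_lit 928455029464036305719525376) (nat_lit 5) (nat_lit 0)) (.cons (.ev (nat_lit 310693954087703771625881856) (nat_lit 1)) (.cons (.rf (nat_lit 4755) (nat_lit 445092449661061152)) .nil))))),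
 (.br (nat_lit 2) (nat_lit 0) (.cons (.br (nat_lit 11) (nat_lit 0) (.cons (.ev (nat_lit 310693954087704871120732416) (nat_lit 1)) (.cons (.rf (nat_lit 4622) (nat_lit 13411413987360)) .nil))) (.cons (.rf (nat_lit 4756) (nat_lit 407901468851537952)) (.cons (.rf (nat_lit 4735) (nat_lit 12746885431398432)) (.cons (.br (nat_lit 11) (nat_lit 0) (.cons (.ev (nat_lit 4722366765444133552384) (nat_lit 1)) (.cons (.rf (nat_lit 4624) (nat_lit 13514193440769)) (.cons (.br (nat_lit 10) (nat_lit 0) (.cons (.ev (nat_lit 4722366764344638701569) (nat_lit 1)) (.cons (.zr (nat_lit 1208925891953698206122240) (nat_lit 309485028268090246240927744) (nat_lit 5) (nat_lit 6)) (.cons (.rf (nat_lit 4726) (nat_lit 436859581075457)) .nil)))) (.cons (.rf (nat_lit 4655) (nat_lit 470911030532097)) .nil))))) .nil))))),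
 (.br (nat_lit 2) (nat_lit 0) (.cons (.br (nat_lit 10) (nat_lit 0) (.cons (.ev (nat_lit 310693954087704871120732416) (nat_lit 1)) (.cons (.rf (nat_lit 4736) (nat_lit 13273807556609)) .nil))) (.cons (.rf (nat_lit 4756) (nat_lit 407901468851537952)) (.cons (.zr (nat_lit 618974742009173007128395777) (nat_lit 18590859274670309376) (nat_lit 5) (nat_lit 2)) (.cons (.br (nat_lit 6) (nat_lit 0) (.cons (.ev (nat_lit 4722366764344638701569) (nat_lit 1)) (.cons (.ev (nat_lit 4722366765444133552384) (nat_lit 1)) (.cons (.br (nat_lit 10) (nat_lit 0) (.cons (.rf (nat_lit 4654) (nat_lit 13411406717984)) (.cons (.br (nat_lit 11) (nat_lit 0) (.cons (.ev (nat_lit 621397334823609344647888900) (nat_lit 3)) (.cons (.rf (nat_lit 4655) (nat_lit 436723383411744)) .nil))) (.cons (.rf (nat_lit 4726) (nat_lit 436861833121824)) .nil)))) (.cons (.rf (nat_lit 4655) (nat_lit 436895014331424)) .nil))))) .nil))))),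
 (.br (nat_lit 11) (nat_lit 0) (.cons (.rf (nat_lit 4610) (nat_lit 470946588954656)) (.cons (.br (nat_lit 12) (nat_lit 0) (.cons (.ev (nat_lit 20520715479102638844271134900995) (nat_lit 2)) .nil)) .nil))),
 (.br (nat_lit 8) (nat_lit 0) (.cons (.kr (nat_lit 4722366482869645213697) (nat_lit 18446744073709551872) (nat_lit 0) (nat_lit 2)) .nil)),
 (.br (nat_lit 6) (nat_lit 0) (.cons (.rf (nat_lit 4656) (nat_lit 13514193377281)) (.cons (.rf (nat_lit 4622) (nat_lit 13514193440769)) (.cons (.br (nat_lit 9) (nat_lit 0) (.cons (.rf (nat_lit 4656) (nat_lit 13583037637664)) (.cons (.ev (nat_lit 4722366764344638701569) (nat_lit 1)) (.cons (.rf (nat_lit 4759) (nat_lit 493858305440582043680)) .nil)))) (.cons (.br (nat_lit 9) (nat_lit 0) (.cons (.rf (nat_lit 4656) (nat_lit 14682549265440)) (.cons (.br (nat_lit 11) (nat_lit 0) (.cons (.zr (nat_lit 18944806163712594674944) (nat_lit 81394557583013755273724559361) (nat_lit 15) (nat_lit 0)) (.cons (.rf (nat_lit 4760) (nat_lit 470979979642912)) .nil))) (.cons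 (.ev (nat_lit 4722366764344638701569) (nat_lit 1)) .nil)))) .nil))))),
 (.br (nat_lit 2) (nat_lit 0) (.cons (.rf (nat_lit 4622) (nat_lit 13583044907040)) (.cons (.rf (nat_lit 4656) (nat_lit 13583044970528)) (.cons (.rf (nat_lit 4761) (nat_lit 493858305440582043680)) (.cons (.rf (nat_lit 4761) (nat_lit 458117738797769787424)) .nil))))),
 (.br (nat_lit 2) (nat_lit 0) (.cons (.rf (nat_lit 4656) (nat_lit 13273910089729)) (.cons (.rf (nat_lit 4656) (nat_lit 13273904851969)) (.cons (.rf (nat_lit 4761) (nat_lit 493858305440582043680)) (.cons (.rf (nat_lit 4761) (nat_lit 458117738797769787424)) .nil))))),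
 (.br (nat_lit 2) (nat_lit 0) (.cons (.rf (nat_lit 4656) (nat_lit 13411414050848)) (.cons (.rf (nat_lit 4622) (nat_lit 13411413987360)) (.cons (.rf (nat_lit 4761) (nat_lit 493858305440582043680)) (.cons (.rf (nat_lit 4761) (nat_lit 458117738797769787424)) .nil))))),
 (.br (nat_lit 1) (nat_lit 0) (.cons (.rf (nat_lit 4694) (nat_lit 407901468851537921)) (.cons (.rf (nat_lit 4751) (nat_lit 403150517695587360)) (.cons (.br (nat_lit 2) (nat_lit 0) (.cons (.br (nat_lit 9) (nat_lit 0) (.cons (.ev (nat_lit 9444733529788772253953) (nat_lit 2)) (.cons (.rf (nat_lit 4753) (nat_lit 403150517695587360)) (.cons (.rf (nat_lit 4656) (nat_lit 13274982782977)) .nil)))) (.cons (.rf (nat_lit 4752) (nat_lit 407901468851537952)) (.cons (.ev (nat_lit 2417851639230357877949187) (nat_lit 2)) (.cons (.rf (nat_lit 4753) (nat_lit 407901468851537952)) (.cons (.br (nat_lit 10) (nat_lit 0) (.cons (.rf (nat_lit 4622) (nat_lit 13515266134017)) (.cons (.rf (nat_lit 4656) (nat_lit 13515261880321)) (.cons (.rf (nat_lit 4755)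 (nat_lit 434991239490873345)) (.cons (.ev (nat_lit 1208944338416296939028481) (nat_lit 1)) (.cons (.br (nat_lit 11) (nat_lit 0) (.cons (.rf (nat_lit 4655) (nat_lit 470912103225345)) (.cons (.rf (nat_lit 4655) (nat_lit 436724423599136)) (.cons (.rf (nat_lit 4754) (nat_lit 493858305440582043680)) (.cons (.rf (nat_lit 4754) (nat_lit 458108626048552970241)) .nil))))) .nil)))))) .nil)))))) (.cons (.br (nat_lit 10) (nat_lit 0) (.cons (.rf (nat_lit 4756) (nat_lit 407901468851537952)) (.cons (.rf (nat_lit 4757) (nat_lit 407901468851537952)) (.cons (.rf (nat_lit 4758) (nat_lit 407901468851537952)) (.cons (.br (nat_lit 10) (nat_lit 0) (.cons (.ev (nat_lit 310693954087703771625881856) (nat_lit 1)) (.cons (.rf (nat_lit 4757) (nat_lit 407901468851537952)) (.cons (.rf (nat_lit 4758) (nat_lit 407901468851537952)) (.cons (.rf (nat_lit 4740) (nat_lit 445092449658966048)) .nil))))) (.cons (.br (nat_lit 10) (nat_lit 0) (.cons (.rf (nat_lit 4756) (nat_lit 407901468851537952)) (.cons (.rf (nat_lit 4757) (nat_lit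 407901468851537952)) (.cons (.rf (nat_lit 4758) (nat_lit 407901468851537952)) (.cons (.rf (nat_lit 4740) (nat_lit 445092449658966048)) (.cons (.br (nat_lit 12) (nat_lit 0) (.cons (.rf (nat_lit 4761) (nat_lit 493858305440582043680)) (.cons (.rf (nat_lit 4762) (nat_lit 493858305440582043680)) (.cons (.rf (nat_lit 4763) (nat_lit 493858305440582043680)) (.cons (.rf (nat_lit 4764) (nat_lit 493858305440582043680)) (.cons (.br (nat_lit 12) (nat_lit 0) (.cons (.rf (nat_lit 4761) (nat_lit 493858305440582043680)) (.cons (.rf (nat_lit 4762) (nat_lit 493858305440582043680)) (.cons (.rf (nat_lit 4763) (nat_lit 493858305440582043680)) (.cons (.rf (nat_lit 4764) (nat_lit 493858305440582043680)) .nil))))) .nil)))))) .nil)))))) .nil)))))) (.cons (.rf (nat_lit 4549) (nat_lit 12289)) .nil)))))),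
 (.br (nat_lit 1) (nat_lit 0) (.cons (.rf (nat_lit 4751) (nat_lit 407901468851537952)) (.cons (.rf (nat_lit 4765) (nat_lit 407901468851537952)) (.cons (.rf (nat_lit 4751) (nat_lit 403150517695587360)) (.cons (.rf (nat_lit 4765) (nat_lit 403150517695587360)) (.cons (.br (nat_lit 1) (nat_lit 0) (.cons (.rf (nat_lit 4751) (nat_lit 407901468851537952)) (.cons (.rf (nat_lit 4765) (nat_lit 407901468851537952)) (.cons (.rf (nat_lit 4751) (nat_lit 403150517695587360)) (.cons (.rf (nat_lit 4765) (nat_lit 403150517695587360)) (.cons (.rf (nat_lit 4549) (nat_lit 12289)) .nil)))))) (.cons (.rf (nat_lit 4549) (nat_lit 12289)) .nil))))))),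
 (.br (nat_lit 8) (nat_lit 0) (.cons (.br (nat_lit 9) (nat_lit 0) .nil) .nil)),
 (.br (nat_lit 8) (nat_lit 0) (.cons (.rf (nat_lit 4767) (nat_lit 9043225708576)) (.cons (.br (nat_lit 8) (nat_lit 0) (.cons (.rf (nat_lit 4767) (nat_lit 9043225708576)) .nil)) .nil))),
 (.br (nat_lit 9) (nat_lit 0) (.cons (.rf (nat_lit 4664) (nat_lit 325702542002208)) (.cons (.rf (nat_lit 4664) (nat_lit 325700461627424)) (.cons (.rf (nat_lit 4664) (nat_lit 325666135443488)) .nil)))),
 (.br (nat_lit 11) (nat_lit 0) (.cons (.ev (nat_lit 72339069014704129) (nat_lit 1)) (.cons (.kr (nat_lit 4722366482869662056448) (nat_lit 72057602627862528) (nat_lit 2) (nat_lit 0)) (.cons (.ev (nat_lit 1208944338417396433879296) (nat_lit 1)) (.cons (.br (nat_lit 9) (nat_lit 0) (.cons (.rf (nat_lit 4768) (nat_lit 13583142488096)) (.cons (.rf (nat_lit 4768) (nat_lit 13578851715104)) (.cons (.br (nat_lit 12) (nat_lit 0) (.cons (.ev (nat_lit 4722366764344638701569) (nat_lit 1)) (.cons (.ev (nat_lit 1213666632842672057876736) (nat_lit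 1)) (.cons (.rf (nat_lit 4769) (nat_lit 470979979642912)) .nil)))) (.cons (.rf (nat_lit 4664) (nat_lit 436856534730784)) .nil))))) .nil))))),
 (.br (nat_lit 8) (nat_lit 0) (.cons (.br (nat_lit 9) (nat_lit 0) .nil) .nil)),
 (.br (nat_lit 8) (nat_lit 0) (.cons (.rf (nat_lit 4771) (nat_lit 9043225708576)) (.cons (.br (nat_lit 8) (nat_lit 0) (.cons (.rf (nat_lit 4771) (nat_lit 9043225708576)) .nil)) .nil))),
 (.br (nat_lit 8) (nat_lit 0) (.cons (.rf (nat_lit 4668) (nat_lit 325563964395521)) (.cons (.br (nat_lit 8) (nat_lit 0) (.cons (.rf (nat_lit 4668) (nat_lit 325563964395521)) .nil)) .nil))),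
 (.br (nat_lit 4) (nat_lit 0) (.cons (.rf (nat_lit 4770) (nat_lit 403150517695587360)) (.cons (.br (nat_lit 9) (nat_lit 0) (.cons (.ev (nat_lit 1213648258156192386252801) (nat_lit 1)) (.cons (.rf (nat_lit 4772) (nat_lit 13583142488096)) .nil))) (.cons (.br (nat_lit 9) (nat_lit 0) (.cons (.ev (nat_lit 1858123707403812285077323780) (nat_lit 3)) (.cons (.rf (nat_lit 4772) (nat_lit 13549856491552)) .nil))) (.cons (.br (nat_lit 9) (nat_lit 0) (.cons (.rf (nat_lit 4772) (nat_lit 13582974879776)) (.cons (.rf (nat_lit 4772) (nat_lit 13549688883232)) (.cons (.br (nat_lit 10) (nat_lit 0) (.cons (.rf (nat_lit 4768) (nat_lit 13507875940353)) (.cons (.ev (nat_lit 1213648258155092857848064) (nat_lit 1)) (.cons (.rf (nat_lit 4668) (nat_lit 470979882125344)) .nil)))) (.cons (.br (nat_lit 10) (nat_lit 0) (.cons (.rf (nat_lit 4768) (nat_lit 14607387568129)) (.cons (.rf (nat_lit 4773) (nat_lit 470979979642912)) (.cons (.ev (nat_lit 1213648258155092857848064) (nat_lit 1)) .nil)))) .nil))))) .nil))))),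
 (.br (nat_lit 4) (nat_lit 0) (.cons (.ev (nat_lit 9463252894423653418502) (nat_lit 3)) (.cons (.ev (nat_lit 4864055996158519025993222) (nat_lit 3)) (.cons (.br (nat_lit 6) (nat_lit 0) (.cons (.ev (nat_lit 28353007060676432233990) (nat_lit 3)) (.cons (.rf (nat_lit 4768) (nat_lit 13411181430816)) .nil))) (.cons (.br (nat_lit 11) (nat_lit 0) (.cons (.rf (nat_lit 4770) (nat_lit 146722311887886337)) (.cons (.rf (nat_lit 4770) (nat_lit 154464996501497857)) (.cons (.br (nat_lit 6) (nat_lit 0) (.cons (.ev (nat_lit 1858152170946091883444765696) (nat_lit 3)) (.cons (.br (nat_lit 10) (nat_lit 0) (.cons (.ev (nat_lit 158457543399298274970226918145) (nat_lit 2)) (.cons (.rf (nat_lit 4664) (nat_lit 470975716296736)) .nil))) (.cons (.rf (nat_lit 4664) (nat_lit 470979877046304)) .nil)))) (.cons (.rf (nat_lit 4664) (nat_lit 470941390112800)) .nil))))) .nil))))),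
 (.br (nat_lit 8) (nat_lit 0) (.cons (.rf (nat_lit 4772) (nat_lit 12310594979872)) (.cons (.ev (nat_lit 18447025548703039489) (nat_lit 1)) (.cons (.rf (nat_lit 4773) (nat_lit 434623052122144)) .nil)))),
 (.br (nat_lit 4) (nat_lit 0) (.cons (.ev (nat_lit 72339069014704129) (nat_lit 1)) (.cons (.kr (nat_lit 4722366483969156907008) (nat_lit 18446744082299486208) (nat_lit 2) (nat_lit 0)) (.cons (.ev (nat_lit 1208944338417396433879296) (nat_lit 1)) (.cons (.br (nat_lit 6) (nat_lit 0) (.cons (.rf (nat_lit 4772) (nat_lit 13544325416992)) (.cons (.ev (nat_lit 1245193612722433767176930822) (nat_lit 3)) (.cons (.rf (nat_lit 4776) (nat_lit 445092449661061152)) (.cons (.br (nat_lit 9) (nat_lit 0) (.cons (.rf (nat_lit 4772) (nat_lit 13411181430816)) (.cons (.rf (nat_lit 4668) (nat_lit 470941395191840)) (.cons (.ev (nat_lit 4722366764344638701569) (nat_lit 1)) .nil)))) .nil))))) .nil))))),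
 (.br (nat_lit 9) (nat_lit 0) (.cons (.rf (nat_lit 4676) (nat_lit 325702542002208)) (.cons (.br (nat_lit 7) (nat_lit 0) (.cons (.kr (nat_lit 4722366482869645213697) (nat_lit 18446744073709551872) (nat_lit 0) (nat_lit 2)) .nil)) .nil))),
 (.br (nat_lit 1) (nat_lit 0) (.cons (.rf (nat_lit 4751) (nat_lit 407901468851537952)) (.cons (.rf (nat_lit 4766) (nat_lit 407901468851537952)) (.cons (.rf (nat_lit 4751) (nat_lit 403150517695587360)) (.cons (.br (nat_lit 2) (nat_lit 0) (.cons (.rf (nat_lit 4770) (nat_lit 407901468851537952)) (.cons (.rf (nat_lit 4774) (nat_lit 407901468851537952)) (.cons (.rf (nat_lit 4775) (nat_lit 407901468851537952)) (.cons (.rf (nat_lit 4774) (nat_lit 154464996501497857)) (.cons (.rf (nat_lit 4777) (nat_lit 407901468851537952)) (.cons (.br (nat_lit 6) (nat_lit 0) (.cons (.rf (nat_lit 4777) (nat_lit 146722311887886337)) (.cons (.rf (nat_lit 4774) (nat_lit 146722311887886337)) (.cons (.rf (nat_lit 4775) (nat_lit 146722311887886337)) (.cons (.rf (nat_lit 4770) (nat_lit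 146722311887886337)) (.cons (.ev (nat_lit 72340168543109376) (nat_lit 1)) (.cons (.br (nat_lit 9) (nat_lit 0) (.cons (.rf (nat_lit 4664) (nat_lit 470979874951200)) (.cons (.rf (nat_lit 4774) (nat_lit 403150517695587360)) (.cons (.rf (nat_lit 4777) (nat_lit 403150517695587360)) (.cons (.br (nat_lit 10) (nat_lit 0) (.cons (.ev (nat_lit 2422574221888217233424641) (nat_lit 2)) (.cons (.rf (nat_lit 4664) (nat_lit 436819722610689)) (.cons (.ev (nat_lit 1208925819615728686399489) (nat_lit 1)) (.cons (.br (nat_lit 4) (nat_lit 0) (.cons (.rf (nat_lit 4668) (nat_lit 470941395128352)) (.cons (.rf (nat_lit 4778) (nat_lit 470979979642912)) (.cons (.br (nat_lit 11) (nat_lit 0) (.cons (.br (nat_lit 12) (nat_lit 0) (.cons (.ev (nat_lit 159075295066691298398356898304) (nat_lit 3)) .nil)) (.cons (.rf (nat_lit 4778) (nat_lit 436653590386689)) .nil))) .nil)))) .nil))))) (.cons (.ev (nat_lit 4722366764344638701569) (nat_lit 1)) .nil)))))) .nil))))))) .nil))))))) (.cons (.rf (nat_lit 4549) (nat_lit 12289))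 .nil))))))]

theorem c174 : chkAll C T R L174 (nat_lit 4746) = true := by decide +kernel

theorem l174 : (nat_lit 4746) + L174.length = (nat_lit 4780) := by decide +kernel

/-- part of the certificates -/
def L175 : List Prf := [(.br (nat_lit 1) (nat_lit 0) (.cons (.rf (nat_lit 4751) (nat_lit 407901468851537952)) (.cons (.rf (nat_lit 4766) (nat_lit 407901468851537952)) (.cons (.rf (nat_lit 4751) (nat_lit 403150517695587360)) (.cons (.rf (nat_lit 4779) (nat_lit 407901468851537952)) (.cons (.br (nat_lit 1) (nat_lit 0) (.cons (.rf (nat_lit 4751) (nat_lit 407901468851537952)) (.cons (.rf (nat_lit 4766) (nat_lit 407901468851537952)) (.cons (.rf (nat_lit 4694) (nat_lit 146722311887886337)) (.cons (.rf (nat_lit 4779) (nat_lit 407901468851537952)) (.cons (.rf (nat_lit 4549) (nat_lit 12289)) .nil)))))) (.cons (.rf (nat_lit 4549) (nat_lit 12289)) .nil))))))),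
 (.br (nat_lit 1) (nat_lit 0) (.cons (.rf (nat_lit 4751) (nat_lit 407901468851537952)) (.cons (.rf (nat_lit 4766) (nat_lit 407901468851537952)) (.cons (.rf (nat_lit 4780) (nat_lit 407901468851537952)) (.cons (.rf (nat_lit 4751) (nat_lit 403150517695587360)) (.cons (.rf (nat_lit 4780) (nat_lit 403150517695587360)) (.cons (.br (nat_lit 1) (nat_lit 0) (.cons (.rf (nat_lit 4751) (nat_lit 407901468851537952)) (.cons (.rf (nat_lit 4766) (nat_lit 407901468851537952)) (.cons (.rf (nat_lit 4780) (nat_lit 407901468851537952)) (.cons (.rf (nat_lit 4751) (nat_lit 403150517695587360)) (.cons (.rf (nat_lit 4780) (nat_lit 403150517695587360)) (.cons (.rf (nat_lit 4549) (nat_lit 12289)) .nil))))))) (.cons (.rf (nat_lit 4549) (nat_lit 12289)) .nil)))))))),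
 (.br (nat_lit 6) (nat_lit 0) (.cons (.br (nat_lit 9) (nat_lit 0) (.cons (.ev (nat_lit 310693954087704875432476673) (nat_lit 1)) (.cons (.rf (nat_lit 4562) (nat_lit 13581972277280)) .nil))) (.cons (.br (nat_lit 9) (nat_lit 0) (.cons (.ev (nat_lit 310693954087704875432476673) (nat_lit 1)) (.cons (.rf (nat_lit 4562) (nat_lit 13547613587457)) .nil))) (.cons (.br (nat_lit 9) (nat_lit 0) (.cons (.rf (nat_lit 4562) (nat_lit 13578851715104)) (.cons (.rf (nat_lit 4562) (nat_lit 13544493025281)) (.cons (.br (nat_lit 10) (nat_lit 0) (.cons (.ev (nat_lit 310698713348519222193619715) (nat_lit 2)) (.cons (.br (nat_lit 11) (nat_lit 0) (.cons (.ev (nat_lit 158456334491781576190731879430) (nat_lit 3)) (.cons (.rf (nat_lit 4557) (nat_lit 470907036502048)) .nil))) (.cons (.rf (nat_lit 4712) (nat_lit 482208559727446048)) .nil)))) (.cons (.rf (nat_lit 4568) (nat_lit 470978809432096)) .nil))))) .nil)))),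
 (.br (nat_lit 1) (nat_lit 0) (.cons (.kr (nat_lit 72057594054705154) (nat_lit 18446745173221179904) (nat_lit 0) (nat_lit 2)) (.cons (.rf (nat_lit 4781) (nat_lit 407901468851537921)) (.cons (.ev (nat_lit 1208944338417400745623553) (nat_lit 1)) (.cons (.br (nat_lit 6) (nat_lit 0) (.cons (.rf (nat_lit 4782) (nat_lit 407901468851537952)) (.cons (.br (nat_lit 6) (nat_lit 0) (.cons (.rf (nat_lit 4782) (nat_lit 407901468851537952)) (.cons (.zr (nat_lit 310693935641243371899453441) (nat_lit 144115196682567680) (nat_lit 5) (nat_lit 10)) (.cons (.rf (nat_lit 4556) (nat_lit 429130762029088)) .nil)))) (.cons (.br (nat_lit 6) (nat_lit 0) (.cons (.rf (nat_lit 4782) (nat_lit 407901468851537952)) (.cons (.zr (nat_lit 310693935641243371899453441) (nat_lit 144115196682567680) (nat_lit 5) (nat_lit 10)) (.cons (.rf (nat_lit 4556) (nat_lit 429129689335809)) .nil)))) (.cons (.br (nat_lit 6) (nat_lit 0) (.cons (.rf (nat_lit 4782) (nat_lit 407901468851537952)) (.cons (.rf (nat_lit 4556) (nat_lit 429130762029088))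 (.cons (.rf (nat_lit 4556) (nat_lit 429129689335809)) (.cons (.rf (nat_lit 4720) (nat_lit 482208559727446048)) .nil))))) .nil))))) (.cons (.rf (nat_lit 4549) (nat_lit 12289)) .nil)))))),
 (.br (nat_lit 6) (nat_lit 0) (.cons (.rf (nat_lit 4723) (nat_lit 12746920834566145)) (.cons (.br (nat_lit 9) (nat_lit 0) (.cons (.ev (nat_lit 1213648258156192386253056) (nat_lit 1)) (.cons (.rf (nat_lit 4656) (nat_lit 13412415383584)) .nil))) (.cons (.kr (nat_lit 216172782130561026) (nat_lit 618970038089435310670742016) (nat_lit 0) (nat_lit 2)) (.cons (.br (nat_lit 10) (nat_lit 0) (.cons (.rf (nat_lit 4656) (nat_lit 13515393935392)) (.cons (.ev (nat_lit 1208925819614633469739009) (nat_lit 1)) (.cons (.br (nat_lit 9) (nat_lit 0) (.cons (.rf (nat_lit 4654) (nat_lit 13412421668896)) (.cons (.br (nat_lit 11) (nat_lit 0) (.cons (.ev (nat_lit 1856938412079248467290096640) (nat_lit 3)) (.cons (.rf (nat_lit 4726) (nat_lit 436893877864480)) .nil))) (.cons (.rf (nat_lit 4655) (nat_lit 436724398362656)) .nil))))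 (.cons (.rf (nat_lit 4655) (nat_lit 470912237375520)) .nil))))) .nil))))),
 (.br (nat_lit 11) (nat_lit 0) (.cons (.kr (nat_lit 216172782130561026) (nat_lit 618970038089435310670742016) (nat_lit 0) (nat_lit 2)) (.cons (.kr (nat_lit 72057594037927936) (nat_lit 309485009821345068724781056) (nat_lit 7) (nat_lit 0)) (.cons (.br (nat_lit 4) (nat_lit 0) (.cons (.ev (nat_lit 310698658007443667073105921) (nat_lit 1)) (.cons (.rf (nat_lit 4654) (nat_lit 13515393935392)) .nil))) (.cons (.br (nat_lit 9) (nat_lit 0) (.cons (.rf (nat_lit 4736) (nat_lit 13515329177632)) (.cons (.rf (nat_lit 4736) (nat_lit 13515530307616)) (.cons (.br (nat_lit 4) (nat_lit 0) (.cons (.rf (nat_lit 4622) (nat_lit 13412421732384)) (.cons (.rf (nat_lit 4738) (nat_lit 443998468849108993)) (.cons (.rf (nat_lit 4655) (nat_lit 436861668497409)) .nil)))) (.cons (.rf (nat_lit 4726) (nat_lit 470979877046273)) .nil))))) .nil))))),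
 (.br (nat_lit 6) (nat_lit 0) (.cons (.rf (nat_lit 4736) (nat_lit 12311666657312)) (.cons (.rf (nat_lit 4736) (nat_lit 12311834265632)) (.cons (.br (nat_lit 4) (nat_lit 0) (.cons (.rf (nat_lit 4622) (nat_lit 12380454127648)) (.cons (.rf (nat_lit 4738) (nat_lit 406810752211585025)) (.cons (.rf (nat_lit 4655) (nat_lit 400542348156929)) .nil)))) (.cons (.rf (nat_lit 4726) (nat_lit 434660626860033)) .nil))))),
 (.br (nat_lit 11) (nat_lit 0) (.cons (.ev (nat_lit 1208944338417400745623553) (nat_lit 1)) (.cons (.rf (nat_lit 4785) (nat_lit 407901468851537952)) (.cons (.kr (nat_lit 618970019642690137466339328) (nat_lit 18518802767259107328) (nat_lit 3) (nat_lit 0)) (.cons (.br (nat_lit 4) (nat_lit 0) (.cons (.rf (nat_lit 4736) (nat_lit 13343601756161)) (.cons (.rf (nat_lit 4736) (nat_lit 13343702321153)) (.cons (.rf (nat_lit 4725) (nat_lit 14241868808598947872)) (.cons (.rf (nat_lit 4726) (nat_lit 470978939455520)) .nil))))) .nil))))),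
 (.br (nat_lit 10) (nat_lit 0) (.cons (.rf (nat_lit 4656) (nat_lit 13549691803649)) (.cons (.rf (nat_lit 4656) (nat_lit 13549688660993)) (.cons (.ev (nat_lit 1208925819614633469739009) (nat_lit 1)) (.cons (.br (nat_lit 6) (nat_lit 0) (.cons (.rf (nat_lit 4622) (nat_lit 13549691930625)) (.cons (.br (nat_lit 12) (nat_lit 0) (.cons (.rf (nat_lit 4610) (nat_lit 470978803337248)) (.cons (.ev (nat_lit 158463578602253963470743799300) (nat_lit 3)) .nil))) (.cons (.br (nat_lit 13) (nat_lit 0) (.cons (.rf (nat_lit 4610) (nat_lit 436893948971040)) (.cons (.rf (nat_lit 4781) (nat_lit 146722311887886733)) .nil))) .nil)))) .nil))))),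
 (.br (nat_lit 4) (nat_lit 0) (.cons (.rf (nat_lit 4656) (nat_lit 13515400220704)) (.cons (.rf (nat_lit 4622) (nat_lit 13515400284192)) (.cons (.rf (nat_lit 4788) (nat_lit 493858305440582043680)) (.cons (.rf (nat_lit 4788) (nat_lit 458117738797769787424)) .nil))))),
 (.br (nat_lit 4) (nat_lit 0) (.cons (.rf (nat_lit 4656) (nat_lit 13412421668896)) (.cons (.rf (nat_lit 4622) (nat_lit 13412421732384)) (.cons (.rf (nat_lit 4788) (nat_lit 493858305440582043680)) (.cons (.rf (nat_lit 4788) (nat_lit 458117738797769787424)) .nil))))),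
 (.br (nat_lit 4) (nat_lit 0) (.cons (.rf (nat_lit 4656) (nat_lit 13343734700033)) (.cons (.rf (nat_lit 4656) (nat_lit 13343731557377)) (.cons (.ev (nat_lit 1208925819614633469739009) (nat_lit 1)) (.cons (.rf (nat_lit 4788) (nat_lit 458117738797769787424)) .nil))))),
 (.br (nat_lit 9) (nat_lit 0) (.cons (.rf (nat_lit 4696) (nat_lit 391641132500993)) (.cons (.rf (nat_lit 4695) (nat_lit 391641132500993)) (.cons (.br (nat_lit 11) (nat_lit 0) (.cons (.kr (nat_lit 72057594037927937) (nat_lit 309485009821345068724781312) (nat_lit 0) (nat_lit 2)) (.cons (.kr (nat_lit 72057594037927936) (nat_lit 309485009821345068724781056) (nat_lit 7) (nat_lit 0)) (.cons (.rf (nat_lit 4713) (nat_lit 14241868808598947872)) (.cons (.rf (nat_lit 4568) (nat_lit 470809252792352)) .nil))))) .nil)))),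
 (.br (nat_lit 9) (nat_lit 0) (.cons (.br (nat_lit 10) (nat_lit 0) (.cons (.ev (nat_lit 310698658007443667073105921) (nat_lit 1)) (.cons (.rf (nat_lit 4654) (nat_lit 13581972213792)) .nil))) (.cons (.ev (nat_lit 1208944338417400745623553) (nat_lit 1)) (.cons (.kr (nat_lit 9444805024432840114176) (nat_lit 618970038089434219765825536) (nat_lit 2) (nat_lit 0)) (.cons (.rf (nat_lit 4786) (nat_lit 442870375385237505)) .nil))))),
 (.br (nat_lit 9) (nat_lit 0) (.cons (.rf (nat_lit 4793) (nat_lit 407901468851537952)) (.cons (.kr (nat_lit 9444805024432840114176) (nat_lit 2417870086536282029162496) (nat_lit 2) (nat_lit 0)) (.cons (.ev (nat_lit 309485028340429310977442048) (nat_lit 1)) (.cons (.rf (nat_lit 4786) (nat_lit 442837391040940064)) .nil))))),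
 (.br (nat_lit 6) (nat_lit 0) (.cons (.rf (nat_lit 4656) (nat_lit 13547546417153)) (.cons (.rf (nat_lit 4622) (nat_lit 13547546544129)) (.cons (.br (nat_lit 10) (nat_lit 0) (.cons (.rf (nat_lit 4656) (nat_lit 13581965928480)) (.cons (.ev (nat_lit 1208944338417400745623553) (nat_lit 1)) (.cons (.br (nat_lit 11) (nat_lit 0) (.cons (.ev (nat_lit 309485028340429310977442048) (nat_lit 1)) (.cons (.br (nat_lit 12) (nat_lit 0) (.cons (.ev (nat_lit 475990391309587336016963961858) (nat_lit 3)) .nil)) .nil))) .nil)))) (.cons (.ev (nat_lit 4740885566016664371201) (nat_lit 1)) .nil))))),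
 (.br (nat_lit 4) (nat_lit 0) (.cons (.rf (nat_lit 4622) (nat_lit 13581972277280)) (.cons (.rf (nat_lit 4656) (nat_lit 13581972213792)) (.cons (.rf (nat_lit 4795) (nat_lit 493858305440582043680)) (.cons (.ev (nat_lit 4740885566016664371201) (nat_lit 1)) .nil))))),
 (.br (nat_lit 1) (nat_lit 0) (.cons (.kr (nat_lit 72057594054705154) (nat_lit 18446745173221179904) (nat_lit 0) (nat_lit 2)) (.cons (.br (nat_lit 11) (nat_lit 0) (.cons (.rf (nat_lit 4784) (nat_lit 407901468851537952)) (.cons (.rf (nat_lit 4785) (nat_lit 407901468851537952)) (.cons (.br (nat_lit 11) (nat_lit 0) (.cons (.rf (nat_lit 4784) (nat_lit 407901468851537952)) (.cons (.kr (nat_lit 72057594037927936) (nat_lit 309485009821345068724781056) (nat_lit 7) (nat_lit 0)) (.cons (.kr (nat_lit 618970019642690137466339328) (nat_lit 18518802767259107328) (nat_lit 3) (nat_lit 0)) (.cons (.rf (nat_lit 4786) (nat_lit 445092484020799520)) .nil))))) (.cons (.rf (nat_lit 4787) (nat_lit 407901468851537952)) (.cons (.br (nat_lit 11) (nat_lit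 0) (.cons (.rf (nat_lit 4784) (nat_lit 407901468851537952)) (.cons (.rf (nat_lit 4786) (nat_lit 445089188707141664)) (.cons (.rf (nat_lit 4786) (nat_lit 445092484020799520)) (.cons (.rf (nat_lit 4787) (nat_lit 407901468851537952)) (.cons (.br (nat_lit 12) (nat_lit 0) (.cons (.rf (nat_lit 4788) (nat_lit 493858305440582043680)) (.cons (.rf (nat_lit 4789) (nat_lit 493858305440582043680)) (.cons (.rf (nat_lit 4790) (nat_lit 493858305440582043680)) (.cons (.rf (nat_lit 4791) (nat_lit 493858305440582043680)) (.cons (.br (nat_lit 12) (nat_lit 0) (.cons (.rf (nat_lit 4788) (nat_lit 493858305440582043680)) (.cons (.rf (nat_lit 4789) (nat_lit 493858305440582043680)) (.cons (.rf (nat_lit 4790) (nat_lit 493858305440582043680)) (.cons (.rf (nat_lit 4791) (nat_lit 493858305440582043680)) .nil))))) .nil)))))) .nil)))))) .nil)))))) (.cons (.br (nat_lit 9) (nat_lit 0) (.cons (.br (nat_lit 9) (nat_lit 0) (.cons (.ev (nat_lit 4740885566016664371456) (nat_lit 1)) (.cons (.rf (nat_lit 4696) (nat_lit 391641132500993))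 (.cons (.rf (nat_lit 4556) (nat_lit 432492708694048)) .nil)))) (.cons (.br (nat_lit 9) (nat_lit 0) (.cons (.ev (nat_lit 4740885566016664371456) (nat_lit 1)) (.cons (.rf (nat_lit 4695) (nat_lit 391641132500993)) (.cons (.rf (nat_lit 4556) (nat_lit 432490563307521)) .nil)))) (.cons (.rf (nat_lit 4792) (nat_lit 407901468851537952)) (.cons (.br (nat_lit 9) (nat_lit 0) (.cons (.rf (nat_lit 4556) (nat_lit 432492708694048)) (.cons (.rf (nat_lit 4556) (nat_lit 432490563307521)) (.cons (.rf (nat_lit 4792) (nat_lit 407901468851537952)) (.cons (.rf (nat_lit 4720) (nat_lit 482282435146549280)) .nil))))) .nil))))) (.cons (.br (nat_lit 9) (nat_lit 0) (.cons (.rf (nat_lit 4793) (nat_lit 407901468851537952)) (.cons (.rf (nat_lit 4794) (nat_lit 407901468851537952)) (.cons (.rf (nat_lit 4794) (nat_lit 151190728183384065)) (.cons (.rf (nat_lit 4793) (nat_lit 151190728183384065)) (.cons (.br (nat_lit 9) (nat_lit 0) (.cons (.rf (nat_lit 4786) (nat_lit 442870375385237505)) (.cons (.rf (nat_lit 4786) (nat_lit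 442837391040940064)) (.cons (.rf (nat_lit 4786) (nat_lit 442876966012553217)) (.cons (.rf (nat_lit 4786) (nat_lit 442842883230369824)) (.cons (.br (nat_lit 12) (nat_lit 0) (.cons (.rf (nat_lit 4795) (nat_lit 493858305440582043680)) (.cons (.rf (nat_lit 4796) (nat_lit 493858305440582043680)) (.cons (.rf (nat_lit 4796) (nat_lit 493601594699913889793)) (.cons (.rf (nat_lit 4795) (nat_lit 493601594699913889793)) (.cons (.br (nat_lit 12) (nat_lit 0) (.cons (.rf (nat_lit 4795) (nat_lit 493858305440582043680)) (.cons (.rf (nat_lit 4796) (nat_lit 493858305440582043680)) (.cons (.rf (nat_lit 4796) (nat_lit 493601594699913889793)) (.cons (.rf (nat_lit 4795) (nat_lit 493601594699913889793)) .nil))))) .nil)))))) .nil)))))) .nil)))))) (.cons (.rf (nat_lit 4549) (nat_lit 12289)) .nil)))))),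
 (.br (nat_lit 1) (nat_lit 0) (.cons (.rf (nat_lit 4783) (nat_lit 407901468851537952)) (.cons (.rf (nat_lit 4797) (nat_lit 407901468851537952)) (.cons (.br (nat_lit 1) (nat_lit 0) (.cons (.rf (nat_lit 4781) (nat_lit 407901468851537921)) (.cons (.rf (nat_lit 4797) (nat_lit 407901468851537952)) (.cons (.rf (nat_lit 4797) (nat_lit 398788719634720800)) (.cons (.rf (nat_lit 4781) (nat_lit 151190728183384065)) (.cons (.rf (nat_lit 4549) (nat_lit 12289)) .nil)))))) (.cons (.br (nat_lit 1) (nat_lit 0) (.cons (.ev (nat_lit 1208944338417400745623553) (nat_lit 1)) (.cons (.rf (nat_lit 4797) (nat_lit 407901468851537952)) (.cons (.rf (nat_lit 4797) (nat_lit 398788719634720800)) (.cons (.rf (nat_lit 4694) (nat_lit 151190728183384065)) (.cons (.rf (nat_lit 4549) (nat_lit 12289)) .nil)))))) (.cons (.br (nat_lit 1) (nat_lit 0) (.cons (.rf (nat_lit 4783) (nat_lit 407901468851537952)) (.cons (.rf (nat_lit 4797) (nat_lit 407901468851537952)) (.cons (.rf (nat_lit 4781) (nat_lit 151190728183384065)) (.cons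 (.rf (nat_lit 4694) (nat_lit 151190728183384065)) (.cons (.rf (nat_lit 4549) (nat_lit 12289)) .nil)))))) (.cons (.rf (nat_lit 4549) (nat_lit 12289)) .nil))))))),
 (.br (nat_lit 5) (nat_lit 0) (.cons (.br (nat_lit 8) (nat_lit 0) (.cons (.br (nat_lit 8) (nat_lit 0) .nil) .nil)) .nil)),
 (.br (nat_lit 5) (nat_lit 0) (.cons (.br (nat_lit 8) (nat_lit 0) (.cons (.br (nat_lit 8) (nat_lit 0) .nil) .nil)) .nil)),
 (.br (nat_lit 9) (nat_lit 0) (.cons (.br (nat_lit 12) (nat_lit 0) (.cons (.ev (nat_lit 20362882978723535415502291600645) (nat_lit 3)) .nil)) .nil)),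
 (.br (nat_lit 9) (nat_lit 0) (.cons (.br (nat_lit 12) (nat_lit 0) (.cons (.ev (nat_lit 20361637766166079439687448133891) (nat_lit 2)) .nil)) .nil)),
 (.br (nat_lit 1) (nat_lit 0) (.cons (.kr (nat_lit 72057594054705154) (nat_lit 18446745173221179904) (nat_lit 0) (nat_lit 2)) (.cons (.kr (nat_lit 72057594037927937) (nat_lit 18446744073709551872) (nat_lit 0) (nat_lit 2)) (.cons (.rf (nat_lit 4781) (nat_lit 406809683869931521)) (.cons (.br (nat_lit 6) (nat_lit 0) (.cons (.br (nat_lit 10) (nat_lit 0) (.cons (.br (nat_lit 9) (nat_lit 0) (.cons (.ev (nat_lit 309489732260168111208005888) (nat_lit 1)) (.cons (.rf (nat_lit 4736) (nat_lit 13272734863361)) .nil))) (.cons (.rf (nat_lit 4799) (nat_lit 389002954784)) (.cons (.rf (nat_lit 4656) (nat_lit 13272869902337)) .nil)))) (.cons (.br (nat_lit 9) (nat_lit 0) (.cons (.br (nat_lit 10) (nat_lit 0) (.cons (.ev (nat_lit 1208944338416301217218816) (nat_lit 1)) (.cons (.rf (nat_lit 4654) (nat_lit 13581972277280)) .nil))) (.cons (.br (nat_lit 2) (nat_lit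 0) (.cons (.ev (nat_lit 1208944338416301217218816) (nat_lit 1)) (.cons (.rf (nat_lit 4654) (nat_lit 13581963896864)) .nil))) (.cons (.ev (nat_lit 309489750634854590879629568) (nat_lit 1)) (.cons (.rf (nat_lit 4786) (nat_lit 442837288060293152)) .nil))))) (.cons (.zr (nat_lit 1208944266642376884224256) (nat_lit 144115196682567680) (nat_lit 5) (nat_lit 10)) (.cons (.br (nat_lit 2) (nat_lit 0) (.cons (.br (nat_lit 10) (nat_lit 0) (.cons (.ev (nat_lit 1208944338417400745623553) (nat_lit 1)) (.cons (.rf (nat_lit 4622) (nat_lit 13272869965825)) .nil))) (.cons (.rf (nat_lit 4800) (nat_lit 389002954784)) (.cons (.rf (nat_lit 4622) (nat_lit 13547479437313)) .nil)))) (.cons (.br (nat_lit 2) (nat_lit 0) (.cons (.br (nat_lit 10) (nat_lit 0) (.cons (.ev (nat_lit 1208944338417400745623553) (nat_lit 1)) (.cons (.ev (nat_lit 1208944338416301217218816) (nat_lit 1)) (.cons (.br (nat_lit 9) (nat_lit 0) (.cons (.zr (nat_lit 309489732187827938403614721) (nat_lit 144116296177418240) (nat_lit 5) (nat_lit 2))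 (.cons (.br (nat_lit 11) (nat_lit 0) (.cons (.ev (nat_lit 79538861190790582932642725888) (nat_lit 1)) (.cons (.rf (nat_lit 4655) (nat_lit 436722318051360)) .nil))) (.cons (.rf (nat_lit 4726) (nat_lit 436827238764576)) .nil)))) (.cons (.rf (nat_lit 4655) (nat_lit 470978809432096)) .nil))))) (.cons (.rf (nat_lit 4622) (nat_lit 13581972213792)) (.cons (.rf (nat_lit 4656) (nat_lit 13581972277280)) (.cons (.br (nat_lit 10) (nat_lit 0) (.cons (.br (nat_lit 9) (nat_lit 0) (.cons (.rf (nat_lit 4654) (nat_lit 13410332977184)) (.cons (.br (nat_lit 11) (nat_lit 0) (.cons (.ev (nat_lit 80159049562611165855129600515) (nat_lit 2)) (.cons (.rf (nat_lit 4655) (nat_lit 436722309670944)) .nil))) (.cons (.rf (nat_lit 4726) (nat_lit 436827506937888)) .nil)))) (.cons (.rf (nat_lit 4656) (nat_lit 13581963896864)) (.cons (.ev (nat_lit 1208944338417400745623553) (nat_lit 1)) (.cons (.br (nat_lit 11) (nat_lit 0) (.cons (.rf (nat_lit 4655) (nat_lit 436584841358337)) (.cons (.rf (nat_lit 4611) (nat_lit 15069191428444192))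 (.cons (.br (nat_lit 9) (nat_lit 0) (.cons (.rf (nat_lit 4801) (nat_lit 493858305440582043680)) (.cons (.br (nat_lit 9) (nat_lit 0) (.cons (.rf (nat_lit 4801) (nat_lit 493858305440582043680)) .nil)) .nil))) .nil)))) .nil))))) (.cons (.br (nat_lit 10) (nat_lit 0) (.cons (.rf (nat_lit 4655) (nat_lit 470978801051680)) (.cons (.rf (nat_lit 4656) (nat_lit 13581963896864)) (.cons (.br (nat_lit 11) (nat_lit 0) (.cons (.rf (nat_lit 4655) (nat_lit 436859450829825)) (.cons (.rf (nat_lit 4611) (nat_lit 15069191436570656)) (.cons (.br (nat_lit 9) (nat_lit 0) (.cons (.rf (nat_lit 4802) (nat_lit 493858305440582043680)) (.cons (.br (nat_lit 12) (nat_lit 0) (.cons (.rf (nat_lit 4802) (nat_lit 493858305440582043680)) (.cons (.rf (nat_lit 4781) (nat_lit 151190728183384461)) .nil))) .nil))) .nil)))) (.cons (.ev (nat_lit 1208944338417400745623553) (nat_lit 1)) .nil))))) .nil)))))) .nil)))))) (.cons (.rf (nat_lit 4549) (nat_lit 12289)) .nil))))))]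

theorem c175 : chkAll C T R L175 (nat_lit 4780) = true := by decide +kernel

theorem l175 : (nat_lit 4780) + L175.length = (nat_lit 4804) := by decide +kernel

/-- part of the certificates -/
def L176 : List Prf := [(.br (nat_lit 1) (nat_lit 0) (.cons (.rf (nat_lit 4798) (nat_lit 407901468851537952)) (.cons (.rf (nat_lit 4803) (nat_lit 407901468851537952)) (.cons (.rf (nat_lit 4803) (nat_lit 398788719634720800)) (.cons (.rf (nat_lit 4798) (nat_lit 398788719634720800)) (.cons (.br (nat_lit 1) (nat_lit 0) (.cons (.rf (nat_lit 4798) (nat_lit 407901468851537952)) (.cons (.rf (nat_lit 4803) (nat_lit 407901468851537952)) (.cons (.rf (nat_lit 4803) (nat_lit 398788719634720800)) (.cons (.rf (nat_lit 4798) (nat_lit 398788719634720800)) (.cons (.rf (nat_lit 4549) (nat_lit 12289)) .nil)))))) (.cons (.rf (nat_lit 4549) (nat_lit 12289)) .nil))))))),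
 (.br (nat_lit 1) (nat_lit 0) (.cons (.rf (nat_lit 4798) (nat_lit 407901468851537952)) (.cons (.rf (nat_lit 4804) (nat_lit 407901468851537952)) (.cons (.br (nat_lit 1) (nat_lit 0) (.cons (.rf (nat_lit 4798) (nat_lit 407901468851537952)) (.cons (.kr (nat_lit 72057594037927937) (nat_lit 18446744073709551872) (nat_lit 0) (nat_lit 2)) (.cons (.rf (nat_lit 4798) (nat_lit 398788719634720800)) (.cons (.rf (nat_lit 4694) (nat_lit 146722311887886337)) (.cons (.rf (nat_lit 4549) (nat_lit 12289)) .nil)))))) (.cons (.rf (nat_lit 4798) (nat_lit 398788719634720800)) (.cons (.br (nat_lit 1) (nat_lit 0) (.cons (.rf (nat_lit 4798) (nat_lit 407901468851537952)) (.cons (.rf (nat_lit 4804) (nat_lit 407901468851537952)) (.cons (.rf (nat_lit 4694) (nat_lit 146722311887886337)) (.cons (.rf (nat_lit 4781) (nat_lit 146722311887886337)) (.cons (.rf (nat_lit 4549) (nat_lit 12289)) .nil)))))) (.cons (.rf (nat_lit 4549) (nat_lit 12289)) .nil))))))),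
 (.br (nat_lit 1) (nat_lit 0) (.cons (.rf (nat_lit 4798) (nat_lit 407901468851537952)) (.cons (.rf (nat_lit 4804) (nat_lit 407901468851537952)) (.cons (.rf (nat_lit 4805) (nat_lit 407901468851537952)) (.cons (.rf (nat_lit 4805) (nat_lit 398788719634720800)) (.cons (.rf (nat_lit 4798) (nat_lit 398788719634720800)) (.cons (.br (nat_lit 1) (nat_lit 0) (.cons (.rf (nat_lit 4798) (nat_lit 407901468851537952)) (.cons (.rf (nat_lit 4804) (nat_lit 407901468851537952)) (.cons (.rf (nat_lit 4805) (nat_lit 407901468851537952)) (.cons (.rf (nat_lit 4805) (nat_lit 398788719634720800)) (.cons (.rf (nat_lit 4798) (nat_lit 398788719634720800)) (.cons (.rf (nat_lit 4549) (nat_lit 12289)) .nil))))))) (.cons (.rf (nat_lit 4549) (nat_lit 12289)) .nil)))))))),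
 (.br (nat_lit 1) (nat_lit 0) (.cons (.rf (nat_lit 4694) (nat_lit 407901468851537921)) (.cons (.rf (nat_lit 4781) (nat_lit 407901468851537921)) (.cons (.rf (nat_lit 4806) (nat_lit 407901468851537921)) (.cons (.kr (nat_lit 618970019642691236977967104) (nat_lit 18518801676337414144) (nat_lit 3) (nat_lit 0)) (.cons (.rf (nat_lit 4549) (nat_lit 12289)) .nil)))))),
 (.br (nat_lit 6) (nat_lit 0) (.cons (.br (nat_lit 11) (nat_lit 0) (.cons (.zr (nat_lit 3626814353176464168321792) (nat_lit 9444949139620932747266) (nat_lit 5) (nat_lit 10)) (.cons (.rf (nat_lit 4622) (nat_lit 13342694639617)) .nil))) (.cons (.ev (nat_lit 1208944338416296939028736) (nat_lit 1)) (.cons (.kr (nat_lit 72057598332895232) (nat_lit 309485009821346168236408832) (nat_lit 4) (nat_lit 0)) (.cons (.br (nat_lit 11) (nat_lit 0) (.cons (.rf (nat_lit 4656) (nat_lit 13514320194592)) (.cons (.kr (nat_lit 618970019642691236977967104) (nat_lit 18518801676337414144) (nat_lit 3) (nat_lit 0)) (.cons (.br (nat_lit 10) (nat_lit 0) (.cons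 (.rf (nat_lit 4654) (nat_lit 13411348975648)) (.cons (.ev (nat_lit 310693954087704875432476928) (nat_lit 1)) (.cons (.rf (nat_lit 4726) (nat_lit 436859518158880)) .nil)))) (.cons (.rf (nat_lit 4655) (nat_lit 470911164682272)) .nil))))) .nil))))),
 (.br (nat_lit 4) (nat_lit 0) (.cons (.br (nat_lit 10) (nat_lit 0) (.cons (.ev (nat_lit 310693935713017296232448001) (nat_lit 1)) (.cons (.rf (nat_lit 4736) (nat_lit 13514255468576)) .nil))) (.cons (.ev (nat_lit 1208944338416296939028736) (nat_lit 1)) (.cons (.br (nat_lit 9) (nat_lit 0) (.cons (.ev (nat_lit 1213666632842676336066816) (nat_lit 1)) (.cons (.rf (nat_lit 4622) (nat_lit 13411349039136)) .nil))) (.cons (.br (nat_lit 9) (nat_lit 0) (.cons (.rf (nat_lit 4624) (nat_lit 13582977927169)) (.cons (.rf (nat_lit 4656) (nat_lit 13582974657537)) (.cons (.br (nat_lit 10) (nat_lit 0) (.cons (.rf (nat_lit 4654) (nat_lit 13514320194592)) (.cons (.zr (nat_lit 1208925891953698206122240) (nat_lit 4740813228042866458624) (nat_lit 5) (nat_lit 6)) (.cons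 (.rf (nat_lit 4726) (nat_lit 436861730588673)) .nil)))) (.cons (.rf (nat_lit 4655) (nat_lit 470979814955009)) .nil))))) .nil))))),
 (.br (nat_lit 10) (nat_lit 0) (.cons (.rf (nat_lit 4808) (nat_lit 407901468851537952)) (.cons (.rf (nat_lit 4809) (nat_lit 407901468851537952)) (.cons (.ev (nat_lit 1208944338416296939028481) (nat_lit 1)) (.cons (.br (nat_lit 6) (nat_lit 0) (.cons (.rf (nat_lit 4736) (nat_lit 13411179399200)) (.cons (.ev (nat_lit 618998372505631210579559942) (nat_lit 3)) (.cons (.br (nat_lit 4) (nat_lit 0) (.cons (.rf (nat_lit 4622) (nat_lit 13514327590944)) (.cons (.br (nat_lit 11) (nat_lit 0) (.cons (.zr (nat_lit 2417906980025528959894018) (nat_lit 237684501710036576581938511872) (nat_lit 5) (nat_lit 2)) (.cons (.rf (nat_lit 4655) (nat_lit 436654668063745)) .nil))) (.cons (.rf (nat_lit 4655) (nat_lit 436894951351297)) .nil)))) (.cons (.rf (nat_lit 4726) (nat_lit 470946691614721)) .nil))))) .nil))))),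
 (.br (nat_lit 10) (nat_lit 0) (.cons (.kr (nat_lit 618970019642691236977967104) (nat_lit 18518801676337414144) (nat_lit 3) (nat_lit 0)) (.cons (.rf (nat_lit 4809) (nat_lit 407901468851537952)) (.cons (.ev (nat_lit 1208944338416296939028481) (nat_lit 1)) (.cons (.br (nat_lit 4) (nat_lit 0) (.cons (.kr (nat_lit 309485009821345068741558272) (nat_lit 18446744078004518912) (nat_lit 3) (nat_lit 0)) (.cons (.rf (nat_lit 4736) (nat_lit 13342629627905)) (.cons (.br (nat_lit 6) (nat_lit 0) (.cons (.rf (nat_lit 4622) (nat_lit 13582977927169)) (.cons (.br (nat_lit 9) (nat_lit 0) (.cons (.ev (nat_lit 792284080792600779004061945344) (nat_lit 4)) (.cons (.rf (nat_lit 4655) (nat_lit 436723318336544)) .nil))) (.cons (.rf (nat_lit 4655) (nat_lit 436826296888352)) .nil)))) (.cons (.rf (nat_lit 4726) (nat_lit 470944613271584)) .nil))))) .nil))))),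
 (.br (nat_lit 11) (nat_lit 0) (.cons (.rf (nat_lit 4656) (nat_lit 13582977800193)) (.cons (.rf (nat_lit 4656) (nat_lit 13582974657537)) (.cons (.kr (nat_lit 618970019642691236977967104) (nat_lit 18518801676337414144) (nat_lit 3) (nat_lit 0)) (.cons (.br (nat_lit 6) (nat_lit 0) (.cons (.rf (nat_lit 4622) (nat_lit 13582977927169)) (.cons (.br (nat_lit 12) (nat_lit 0) (.cons (.ev (nat_lit 318155454152627126132799570438) (nat_lit 3)) (.cons (.ev (nat_lit 79537647542604765804992987393) (nat_lit 1)) .nil))) (.cons (.br (nat_lit 13) (nat_lit 0) (.cons (.rf (nat_lit 4610) (nat_lit 436859590281248)) (.cons (.rf (nat_lit 4781) (nat_lit 146722311887886733)) .nil))) .nil)))) .nil))))),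
 (.br (nat_lit 4) (nat_lit 0) (.cons (.rf (nat_lit 4656) (nat_lit 13514327527456)) (.cons (.rf (nat_lit 4622) (nat_lit 13514327590944)) (.cons (.rf (nat_lit 4812) (nat_lit 493858305440582043680)) (.cons (.rf (nat_lit 4812) (nat_lit 458117738797769787424)) .nil))))),
 (.br (nat_lit 4) (nat_lit 0) (.cons (.rf (nat_lit 4656) (nat_lit 13411348975648)) (.cons (.rf (nat_lit 4622) (nat_lit 13411349039136)) (.cons (.rf (nat_lit 4812) (nat_lit 493858305440582043680)) (.cons (.rf (nat_lit 4812) (nat_lit 458117738797769787424)) .nil))))),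
 (.br (nat_lit 4) (nat_lit 0) (.cons (.rf (nat_lit 4656) (nat_lit 13342694512641)) (.cons (.rf (nat_lit 4656) (nat_lit 13342691369985)) (.cons (.kr (nat_lit 618970019642691236977967104) (nat_lit 18518801676337414144) (nat_lit 3) (nat_lit 0)) (.cons (.rf (nat_lit 4812) (nat_lit 458117738797769787424)) .nil))))),
 (.br (nat_lit 9) (nat_lit 0) (.cons (.ev (nat_lit 4740885566016664371456) (nat_lit 1)) (.cons (.ev (nat_lit 1213648258155097169592321) (nat_lit 1)) (.cons (.kr (nat_lit 618970019642691236977967104) (nat_lit 18518801676337414144) (nat_lit 3) (nat_lit 0)) (.cons (.br (nat_lit 11) (nat_lit 0) (.cons (.rf (nat_lit 4736) (nat_lit 13581966182401)) (.cons (.rf (nat_lit 4736) (nat_lit 13582100269057)) (.cons (.br (nat_lit 6) (nat_lit 0) (.cons (.ev (nat_lit 309489732260167007401410816) (nat_lit 1)) (.cons (.br (nat_lit 10) (nat_lit 0) (.cons (.ev (nat_lit 159699129124098446539041670660) (nat_lit 3)) (.cons (.rf (nat_lit 4655) (nat_lit 436722285482016)) .nil))) (.cons (.rf (nat_lit 4655)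 (nat_lit 436859590217760)) .nil)))) (.cons (.rf (nat_lit 4726) (nat_lit 470911092623392)) .nil))))) .nil))))),
 (.br (nat_lit 9) (nat_lit 0) (.cons (.ev (nat_lit 4740885566016664371456) (nat_lit 1)) (.cons (.br (nat_lit 4) (nat_lit 0) (.cons (.ev (nat_lit 1859327929231910882647474180) (nat_lit 3)) (.cons (.rf (nat_lit 4624) (nat_lit 13581905233921)) .nil))) (.cons (.ev (nat_lit 309489750634854586567884801) (nat_lit 1)) (.cons (.br (nat_lit 10) (nat_lit 0) (.cons (.rf (nat_lit 4736) (nat_lit 13547541465120)) (.cons (.rf (nat_lit 4736) (nat_lit 13547776116768)) (.cons (.br (nat_lit 4) (nat_lit 0) (.cons (.ev (nat_lit 1213648258155097169592576) (nat_lit 1)) (.cons (.br (nat_lit 11) (nat_lit 0) (.cons (.zr (nat_lit 79229371513871213299658393088) (nat_lit 18889537989072652599300) (nat_lit 15) (nat_lit 10)) (.cons (.rf (nat_lit 4655) (nat_lit 436653598513153)) .nil))) (.cons (.rf (nat_lit 4655) (nat_lit 436893881800705)) .nil)))) (.cons (.rf (nat_lit 4726) (nat_lit 470912231344129)) .nil)))))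 .nil))))),
 (.br (nat_lit 11) (nat_lit 0) (.cons (.rf (nat_lit 4656) (nat_lit 13581905106945)) (.cons (.rf (nat_lit 4656) (nat_lit 13581900916737)) (.cons (.kr (nat_lit 618970019642691236977967104) (nat_lit 18518801676337414144) (nat_lit 3) (nat_lit 0)) (.cons (.br (nat_lit 6) (nat_lit 0) (.cons (.zr (nat_lit 4722510600256744390912) (nat_lit 310693954087985250897494016) (nat_lit 5) (nat_lit 9)) (.cons (.br (nat_lit 13) (nat_lit 0) (.cons (.rf (nat_lit 4759) (nat_lit 493857213657745823745)) (.cons (.ev (nat_lit 79537647542604765804992987393) (nat_lit 1)) .nil))) (.cons (.br (nat_lit 13) (nat_lit 0) (.cons (.rf (nat_lit 4610) (nat_lit 436826304284704)) (.cons (.ev (nat_lit 20282409603651742763020577734656) (nat_lit 1)) .nil))) .nil)))) .nil))))),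
 (.br (nat_lit 4) (nat_lit 0) (.cons (.rf (nat_lit 4656) (nat_lit 13547613524000)) (.cons (.rf (nat_lit 4622) (nat_lit 13547613587488)) (.cons (.rf (nat_lit 4818) (nat_lit 493858305440582043680)) (.cons (.rf (nat_lit 4818) (nat_lit 458117738797769787424)) .nil))))),
 (.br (nat_lit 1) (nat_lit 0) (.cons (.rf (nat_lit 4694) (nat_lit 407901468851537921)) (.cons (.br (nat_lit 10) (nat_lit 0) (.cons (.rf (nat_lit 4808) (nat_lit 407901468851537952)) (.cons (.rf (nat_lit 4809) (nat_lit 407901468851537952)) (.cons (.rf (nat_lit 4810) (nat_lit 407901468851537952)) (.cons (.rf (nat_lit 4811) (nat_lit 407901468851537952)) (.cons (.br (nat_lit 10) (nat_lit 0) (.cons (.rf (nat_lit 4808) (nat_lit 407901468851537952)) (.cons (.rf (nat_lit 4809) (nat_lit 407901468851537952)) (.cons (.rf (nat_lit 4810) (nat_lit 407901468851537952)) (.cons (.rf (nat_lit 4811) (nat_lit 407901468851537952)) (.cons (.br (nat_lit 12) (nat_lit 0) (.cons (.rf (nat_lit 4812) (nat_lit 493858305440582043680)) (.cons (.rf (nat_lit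 4813) (nat_lit 493858305440582043680)) (.cons (.rf (nat_lit 4814) (nat_lit 493858305440582043680)) (.cons (.rf (nat_lit 4815) (nat_lit 493858305440582043680)) (.cons (.br (nat_lit 12) (nat_lit 0) (.cons (.rf (nat_lit 4812) (nat_lit 493858305440582043680)) (.cons (.rf (nat_lit 4813) (nat_lit 493858305440582043680)) (.cons (.rf (nat_lit 4814) (nat_lit 493858305440582043680)) (.cons (.rf (nat_lit 4815) (nat_lit 493858305440582043680)) .nil))))) .nil)))))) .nil)))))) .nil)))))) (.cons (.br (nat_lit 9) (nat_lit 0) (.cons (.rf (nat_lit 4816) (nat_lit 407901468851537952)) (.cons (.rf (nat_lit 4817) (nat_lit 407901468851537952)) (.cons (.rf (nat_lit 4817) (nat_lit 151190728183384096)) (.cons (.rf (nat_lit 4816) (nat_lit 151190728183384096)) (.cons (.br (nat_lit 9) (nat_lit 0) (.cons (.rf (nat_lit 4816) (nat_lit 407901468851537952)) (.cons (.rf (nat_lit 4817) (nat_lit 407901468851537952)) (.cons (.rf (nat_lit 4817) (nat_lit 151190728183384096)) (.cons (.rf (nat_lit 4816) (nat_lit 151190728183384096))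 (.cons (.br (nat_lit 12) (nat_lit 0) (.cons (.rf (nat_lit 4818) (nat_lit 493858305440582043680)) (.cons (.rf (nat_lit 4819) (nat_lit 493858305440582043680)) (.cons (.rf (nat_lit 4819) (nat_lit 493601594699913889824)) (.cons (.rf (nat_lit 4818) (nat_lit 493601594699913889824)) (.cons (.br (nat_lit 12) (nat_lit 0) (.cons (.rf (nat_lit 4818) (nat_lit 493858305440582043680)) (.cons (.rf (nat_lit 4819) (nat_lit 493858305440582043680)) (.cons (.rf (nat_lit 4819) (nat_lit 493601594699913889824)) (.cons (.rf (nat_lit 4818) (nat_lit 493601594699913889824)) .nil))))) .nil)))))) .nil)))))) .nil)))))) (.cons (.rf (nat_lit 4806) (nat_lit 151190728183384065)) (.cons (.rf (nat_lit 4549) (nat_lit 12289)) .nil)))))),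
 (.br (nat_lit 1) (nat_lit 0) (.cons (.rf (nat_lit 4807) (nat_lit 407901468851537952)) (.cons (.rf (nat_lit 4820) (nat_lit 407901468851537952)) (.cons (.br (nat_lit 1) (nat_lit 0) (.cons (.rf (nat_lit 4781) (nat_lit 407901468851537921)) (.cons (.rf (nat_lit 4820) (nat_lit 407901468851537952)) (.cons (.rf (nat_lit 4820) (nat_lit 151190728183384096)) (.cons (.rf (nat_lit 4781) (nat_lit 151190728183384065)) (.cons (.rf (nat_lit 4549) (nat_lit 12289)) .nil)))))) (.cons (.rf (nat_lit 4820) (nat_lit 151190728183384096)) (.cons (.rf (nat_lit 4807) (nat_lit 151190728183384096)) (.cons (.rf (nat_lit 4549) (nat_lit 12289)) .nil))))))),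
 (.br (nat_lit 1) (nat_lit 0) (.cons (.rf (nat_lit 4807) (nat_lit 407901468851537952)) (.cons (.rf (nat_lit 4807) (nat_lit 406809683869931552)) (.cons (.rf (nat_lit 4807) (nat_lit 403150517695587360)) (.cons (.rf (nat_lit 4807) (nat_lit 398788719634720800)) (.cons (.kr (nat_lit 618970019642691236977967104) (nat_lit 18518801676337414144) (nat_lit 3) (nat_lit 0)) (.cons (.rf (nat_lit 4549) (nat_lit 12289)) .nil))))))),
 (.br (nat_lit 9) (nat_lit 0) (.cons (.ev (nat_lit 72339069014704129) (nat_lit 1)) (.cons (.ev (nat_lit 1208944338417396433879296) (nat_lit 1)) (.cons (.kr (nat_lit 309485009821345068741558272) (nat_lit 72057598332895232) (nat_lit 3) (nat_lit 0)) (.cons (.br (nat_lit 11) (nat_lit 0) (.cons (.rf (nat_lit 4768) (nat_lit 13514490120224)) (.cons (.rf (nat_lit 4768) (nat_lit 13510199347232)) (.cons (.br (nat_lit 12) (nat_lit 0) (.cons (.ev (nat_lit 309485009821626548013301761) (nat_lit 1)) (.cons (.ev (nat_lit 310693954087704875432476928) (nat_lit 1)) (.cons (.rf (nat_lit 4769)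 (nat_lit 470944613271584)) .nil)))) (.cons (.rf (nat_lit 4664) (nat_lit 436856469719072)) .nil))))) .nil))))),
 (.br (nat_lit 5) (nat_lit 0) (.cons (.rf (nat_lit 4768) (nat_lit 10139480560641)) (.cons (.rf (nat_lit 4773) (nat_lit 325667208136736)) (.cons (.rf (nat_lit 4773) (nat_lit 291582213589024)) .nil)))),
 (.br (nat_lit 4) (nat_lit 0) (.cons (.br (nat_lit 10) (nat_lit 0) (.cons (.ev (nat_lit 310693935713017296232448001) (nat_lit 1)) (.cons (.rf (nat_lit 4772) (nat_lit 13576729565185)) .nil))) (.cons (.br (nat_lit 9) (nat_lit 0) (.cons (.ev (nat_lit 310693935713018395760853248) (nat_lit 1)) (.cons (.rf (nat_lit 4772) (nat_lit 13576696043521)) .nil))) (.cons (.ev (nat_lit 618970038162618830402356742) (nat_lit 3)) (.cons (.br (nat_lit 11) (nat_lit 0) (.cons (.rf (nat_lit 4772) (nat_lit 13547541465120)) (.cons (.rf (nat_lit 4772) (nat_lit 13514255468576)) (.cons (.kr (nat_lit 618970019642691236977967104) (nat_lit 18518801676337414144) (nat_lit 3) (nat_lit 0)) (.cons (.rf (nat_lit 4824)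 (nat_lit 470979979642912)) .nil))))) .nil))))),
 (.br (nat_lit 9) (nat_lit 0) (.cons (.br (nat_lit 9) (nat_lit 0) .nil) .nil)),
 (.br (nat_lit 12) (nat_lit 0) (.cons (.br (nat_lit 10) (nat_lit 0) (.cons (.ev (nat_lit 79537652264899191084895174656) (nat_lit 1)) (.cons (.rf (nat_lit 4826) (nat_lit 470979979642912)) .nil))) (.cons (.br (nat_lit 9) (nat_lit 0) (.cons (.ev (nat_lit 620188390268172524899533571) (nat_lit 2)) (.cons (.rf (nat_lit 4826) (nat_lit 470978939455520)) .nil))) (.cons (.kr (nat_lit 618970019642691236977967104) (nat_lit 18518801676337414144) (nat_lit 3) (nat_lit 0)) (.cons (.rf (nat_lit 4694) (nat_lit 407901468851538348)) .nil))))),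
 (.br (nat_lit 12) (nat_lit 0) (.cons (.rf (nat_lit 4827) (nat_lit 14242959524133701664)) (.cons (.br (nat_lit 6) (nat_lit 0) (.cons (.ev (nat_lit 79538861190790581833147875585) (nat_lit 1)) (.cons (.rf (nat_lit 4826) (nat_lit 470975721375776)) .nil))) (.cons (.kr (nat_lit 618970019642691236977967104) (nat_lit 18518801676337414144) (nat_lit 3) (nat_lit 0)) (.cons (.rf (nat_lit 4781) (nat_lit 407901468851538348)) .nil))))),
 (.br (nat_lit 12) (nat_lit 0) (.cons (.rf (nat_lit 4827) (nat_lit 14242959524133701664)) (.cons (.rf (nat_lit 4828) (nat_lit 14242959524133701664)) (.cons (.br (nat_lit 12) (nat_lit 0) (.cons (.rf (nat_lit 4827) (nat_lit 14242959524133701664)) (.cons (.rf (nat_lit 4828) (nat_lit 14242959524133701664)) (.cons (.kr (nat_lit 618970019642691236977967104) (nat_lit 18518801676337414144) (nat_lit 3) (nat_lit 0)) (.cons (.rf (nat_lit 4806) (nat_lit 407901468851538348)) .nil))))) (.cons (.kr (nat_lit 618970019642691236977967104) (nat_lit 18518801676337414144) (nat_lit 3) (nat_lit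 0)) (.cons (.br (nat_lit 12) (nat_lit 0) (.cons (.rf (nat_lit 4694) (nat_lit 407901468851538348)) (.cons (.rf (nat_lit 4781) (nat_lit 407901468851538348)) (.cons (.rf (nat_lit 4806) (nat_lit 407901468851538348)) (.cons (.kr (nat_lit 618970019642691236977967104) (nat_lit 18518801676337414144) (nat_lit 3) (nat_lit 0)) .nil))))) .nil))))))]

theorem c176 : chkAll C T R L176 (nat_lit 4804) = true := by decide +kernel

theorem l176 : (nat_lit 4804) + L176.length = (nat_lit 4830) := by decide +kernel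

/-- part of the certificates -/
def L177 : List Prf := [(.br (nat_lit 12) (nat_lit 0) (.cons (.rf (nat_lit 4829) (nat_lit 14242959524133701664)) (.cons (.br (nat_lit 4) (nat_lit 0) (.cons (.ev (nat_lit 158457533954421194042894320385) (nat_lit 2)) (.cons (.br (nat_lit 13) (nat_lit 0) (.cons (.kr (nat_lit 618970019642691236977967104) (nat_lit 18518801676337414144) (nat_lit 3) (nat_lit 0)) .nil)) .nil))) (.cons (.rf (nat_lit 4829) (nat_lit 13986248783465547808)) (.cons (.br (nat_lit 4) (nat_lit 0) (.cons (.br (nat_lit 13) (nat_lit 0) (.cons (.ev (nat_lit 79538861172271781264895246593) (nat_lit 1)) .nil)) (.cons (.rf (nat_lit 4769) (nat_lit 470944311513120)) (.cons (.br (nat_lit 11) (nat_lit 0) (.cons (.ev (nat_lit 79538861172271780165400395776) (nat_lit 1)) (.cons (.kr (nat_lit 618970019642691236977967104) (nat_lit 18518801676337414144) (nat_lit 3) (nat_lit 0)) .nil))) .nil)))) .nil))))),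
 (.br (nat_lit 9) (nat_lit 0) (.cons (.ev (nat_lit 1218425893660321648738561) (nat_lit 2)) (.cons (.ev (nat_lit 620188390268172524899533571) (nat_lit 2)) (.cons (.rf (nat_lit 4830) (nat_lit 14242959524133701664)) (.cons (.br (nat_lit 4) (nat_lit 0) (.cons (.rf (nat_lit 4664) (nat_lit 470941320974368)) (.cons (.rf (nat_lit 4826) (nat_lit 470978939455520)) (.cons (.br (nat_lit 13) (nat_lit 0) (.cons (.kr (nat_lit 618970019642691236977967104) (nat_lit 18518801676337414144) (nat_lit 3) (nat_lit 0)) (.cons (.zr (nat_lit 158457533954708859270136333568) (nat_lit 18926359426223069986819) (nat_lit 20) (nat_lit 6)) .nil))) .nil)))) .nil))))),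
 (.br (nat_lit 12) (nat_lit 0) (.cons (.rf (nat_lit 4829) (nat_lit 14242959524133701664)) (.cons (.rf (nat_lit 4830) (nat_lit 14242959524133701664)) (.cons (.rf (nat_lit 4831) (nat_lit 14242959524133701664)) (.cons (.rf (nat_lit 4829) (nat_lit 13986248783465547808)) (.cons (.br (nat_lit 12) (nat_lit 0) (.cons (.rf (nat_lit 4694) (nat_lit 407901468851538348)) (.cons (.rf (nat_lit 4830) (nat_lit 14242959524133701664)) (.cons (.rf (nat_lit 4831) (nat_lit 14242959524133701664)) (.cons (.rf (nat_lit 4806) (nat_lit 151190728183384492)) .nil))))) .nil)))))),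
 (.br (nat_lit 12) (nat_lit 0) (.cons (.rf (nat_lit 4829) (nat_lit 14242959524133701664)) (.cons (.rf (nat_lit 4832) (nat_lit 14242959524133701664)) (.cons (.rf (nat_lit 4832) (nat_lit 13986248783465547808)) (.cons (.rf (nat_lit 4829) (nat_lit 13986248783465547808)) (.cons (.br (nat_lit 12) (nat_lit 0) (.cons (.rf (nat_lit 4781) (nat_lit 407901468851538348)) (.cons (.rf (nat_lit 4832) (nat_lit 14242959524133701664)) (.cons (.rf (nat_lit 4832) (nat_lit 13986248783465547808)) (.cons (.rf (nat_lit 4781) (nat_lit 151190728183384492)) .nil))))) .nil)))))),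
 (.br (nat_lit 1) (nat_lit 0) (.cons (.rf (nat_lit 4821) (nat_lit 407901468851537952)) (.cons (.rf (nat_lit 4806) (nat_lit 406809683869931521)) (.cons (.br (nat_lit 2) (nat_lit 0) (.cons (.rf (nat_lit 4823) (nat_lit 407901468851537952)) (.cons (.rf (nat_lit 4825) (nat_lit 407901468851537952)) (.cons (.br (nat_lit 4) (nat_lit 0) (.cons (.ev (nat_lit 72339069014704129) (nat_lit 1)) (.cons (.ev (nat_lit 1208944338417396433879296) (nat_lit 1)) (.cons (.br (nat_lit 6) (nat_lit 0) (.cons (.ev (nat_lit 2436759913882747465106950) (nat_lit 3)) (.cons (.rf (nat_lit 4768) (nat_lit 13411112292384)) .nil))) (.cons (.br (nat_lit 11) (nat_lit 0) (.cons (.ev (nat_lit 72340168543109376) (nat_lit 1)) (.cons (.ev (nat_lit 1208925819615728686399489) (nat_lit 1)) (.cons (.kr (nat_lit 618970019642691236977967104) (nat_lit 18518801676337414144) (nat_lit 3) (nat_lit 0)) (.cons (.rf (nat_lit 4824) (nat_lit 470979882125344)) .nil))))) .nil))))) (.cons (.rf (nat_lit 4825) (nat_lit 151190728183384096)) (.cons (.rf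 (nat_lit 4823) (nat_lit 151190728183384096)) (.cons (.br (nat_lit 12) (nat_lit 0) (.cons (.rf (nat_lit 4829) (nat_lit 14242959524133701664)) (.cons (.rf (nat_lit 4832) (nat_lit 14242959524133701664)) (.cons (.rf (nat_lit 4833) (nat_lit 14242959524133701664)) (.cons (.rf (nat_lit 4832) (nat_lit 13986248783465547808)) (.cons (.rf (nat_lit 4829) (nat_lit 13986248783465547808)) (.cons (.br (nat_lit 12) (nat_lit 0) (.cons (.rf (nat_lit 4829) (nat_lit 14242959524133701664)) (.cons (.rf (nat_lit 4832) (nat_lit 14242959524133701664)) (.cons (.rf (nat_lit 4833) (nat_lit 14242959524133701664)) (.cons (.rf (nat_lit 4832) (nat_lit 13986248783465547808)) (.cons (.rf (nat_lit 4829) (nat_lit 13986248783465547808)) .nil)))))) .nil))))))) .nil))))))) (.cons (.rf (nat_lit 4694) (nat_lit 146722311887886337)) (.cons (.rf (nat_lit 4549) (nat_lit 12289)) .nil)))))),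
 (.br (nat_lit 1) (nat_lit 0) (.cons (.rf (nat_lit 4821) (nat_lit 407901468851537952)) (.cons (.rf (nat_lit 4822) (nat_lit 407901468851537952)) (.cons (.rf (nat_lit 4834) (nat_lit 407901468851537952)) (.cons (.br (nat_lit 1) (nat_lit 0) (.cons (.rf (nat_lit 4821) (nat_lit 407901468851537952)) (.cons (.rf (nat_lit 4781) (nat_lit 406809683869931521)) (.cons (.rf (nat_lit 4834) (nat_lit 407901468851537952)) (.cons (.rf (nat_lit 4781) (nat_lit 146722311887886337)) (.cons (.rf (nat_lit 4549) (nat_lit 12289)) .nil)))))) (.cons (.rf (nat_lit 4822) (nat_lit 146722311887886368)) (.cons (.rf (nat_lit 4549) (nat_lit 12289)) .nil))))))),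
 (.br (nat_lit 0) (nat_lit 0) (.cons (.rf (nat_lit 4694) (nat_lit 407901468851537952)) (.cons (.rf (nat_lit 4781) (nat_lit 407901468851537952)) (.cons (.rf (nat_lit 4806) (nat_lit 407901468851537952)) (.cons (.br (nat_lit 1) (nat_lit 0) (.cons (.rf (nat_lit 4821) (nat_lit 407901468851537952)) (.cons (.rf (nat_lit 4822) (nat_lit 407901468851537952)) (.cons (.rf (nat_lit 4835) (nat_lit 407901468851537952)) (.cons (.br (nat_lit 1) (nat_lit 0) (.cons (.rf (nat_lit 4821) (nat_lit 407901468851537952)) (.cons (.rf (nat_lit 4822) (nat_lit 407901468851537952)) (.cons (.rf (nat_lit 4835) (nat_lit 407901468851537952)) (.cons (.rf (nat_lit 4835) (nat_lit 151190728183384096)) (.cons (.rf (nat_lit 4822) (nat_lit 146722311887886368)) (.cons (.rf (nat_lit 4549) (nat_lit 12289)) .nil))))))) (.cons (.rf (nat_lit 4835) (nat_lit 151190728183384096)) (.cons (.rf (nat_lit 4822) (nat_lit 146722311887886368)) (.cons (.rf (nat_lit 4549) (nat_lit 12289)) .nil)))))))) (.cons (.rf (nat_lit 4549) (nat_lit 12320))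 .nil)))))),
 (.br (nat_lit 4) (nat_lit 0) (.cons (.kr (nat_lit 4294967296) (nat_lit 1099511627776) (nat_lit 4) (nat_lit 0)) (.cons (.br (nat_lit 10) (nat_lit 0) (.cons (.ev (nat_lit 310698658007443667073106176) (nat_lit 1)) (.cons (.rf (nat_lit 4586) (nat_lit 13515329177601)) .nil))) (.cons (.rf (nat_lit 4556) (nat_lit 426999450634272)) .nil)))),
 (.br (nat_lit 4) (nat_lit 0) (.cons (.rf (nat_lit 4837) (nat_lit 407901468851537952)) (.cons (.rf (nat_lit 4837) (nat_lit 406809688164894721)) (.cons (.br (nat_lit 11) (nat_lit 0) (.cons (.rf (nat_lit 4562) (nat_lit 13542410618912)) (.cons (.rf (nat_lit 4562) (nat_lit 13508051929089)) (.cons (.br (nat_lit 9) (nat_lit 0) (.cons (.rf (nat_lit 4572) (nat_lit 13549691930656)) (.cons (.br (nat_lit 10) (nat_lit 0) (.cons (.ev (nat_lit 79537647524085965236773912576) (nat_lit 1)) (.cons (.rf (nat_lit 4557) (nat_lit 470973573957664)) .nil))) (.cons (.rf (nat_lit 4712) (nat_lit 482276800281741344)) .nil)))) (.cons (.rf (nat_lit 4568) (nat_lit 470946529085472))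 .nil))))) .nil)))),
 (.br (nat_lit 1) (nat_lit 0) (.cons (.rf (nat_lit 4836) (nat_lit 407901468851537921)) (.cons (.kr (nat_lit 1) (nat_lit 256) (nat_lit 0) (nat_lit 2)) (.cons (.br (nat_lit 4) (nat_lit 0) (.cons (.rf (nat_lit 4837) (nat_lit 407901468851537952)) (.cons (.rf (nat_lit 4837) (nat_lit 406809688164894721)) (.cons (.rf (nat_lit 4838) (nat_lit 407901468851537952)) (.cons (.br (nat_lit 4) (nat_lit 0) (.cons (.rf (nat_lit 4556) (nat_lit 426999450634272)) (.cons (.rf (nat_lit 4556) (nat_lit 426998377940993)) (.cons (.rf (nat_lit 4838) (nat_lit 407901468851537952)) (.cons (.rf (nat_lit 4720) (nat_lit 482276800281741344)) .nil))))) .nil))))) (.cons (.rf (nat_lit 4836) (nat_lit 146722311887886337)) (.cons (.rf (nat_lit 4549) (nat_lit 12289)) .nil)))))),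
 (.br (nat_lit 1) (nat_lit 0) (.cons (.rf (nat_lit 4836) (nat_lit 407901468851537921)) (.cons (.rf (nat_lit 4839) (nat_lit 407901468851537952)) (.cons (.br (nat_lit 1) (nat_lit 0) (.cons (.rf (nat_lit 4836) (nat_lit 407901468851537921)) (.cons (.kr (nat_lit 1) (nat_lit 256) (nat_lit 0) (nat_lit 2)) (.cons (.kr (nat_lit 18446745173221179394) (nat_lit 72057594054705664) (nat_lit 0) (nat_lit 2)) (.cons (.rf (nat_lit 4836) (nat_lit 155450163248473089)) (.cons (.rf (nat_lit 4549) (nat_lit 12289)) .nil)))))) (.cons (.br (nat_lit 1) (nat_lit 0) (.cons (.rf (nat_lit 4836) (nat_lit 407901468851537921)) (.cons (.rf (nat_lit 4839) (nat_lit 407901468851537952)) (.cons (.kr (nat_lit 18446745173221179394) (nat_lit 72057594054705664) (nat_lit 0) (nat_lit 2)) (.cons (.rf (nat_lit 4836) (nat_lit 151190728183384065)) (.cons (.rf (nat_lit 4549) (nat_lit 12289)) .nil)))))) (.cons (.rf (nat_lit 4836) (nat_lit 151190728183384065)) (.cons (.rf (nat_lit 4549) (nat_lit 12289)) .nil))))))),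
 (.br (nat_lit 1) (nat_lit 0) (.cons (.rf (nat_lit 4836) (nat_lit 407901468851537921)) (.cons (.rf (nat_lit 4836) (nat_lit 406809683869931521)) (.cons (.rf (nat_lit 4836) (nat_lit 403150517695587329)) (.cons (.rf (nat_lit 4836) (nat_lit 398788719634720769)) (.cons (.br (nat_lit 1) (nat_lit 0) (.cons (.rf (nat_lit 4836) (nat_lit 407901468851537921)) (.cons (.rf (nat_lit 4836) (nat_lit 406809683869931521)) (.cons (.rf (nat_lit 4836) (nat_lit 403150517695587329)) (.cons (.rf (nat_lit 4836) (nat_lit 398788719634720769)) (.cons (.rf (nat_lit 4549) (nat_lit 12289)) .nil)))))) (.cons (.rf (nat_lit 4549) (nat_lit 12289)) .nil))))))),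
 (.br (nat_lit 1) (nat_lit 0) (.cons (.rf (nat_lit 4840) (nat_lit 406809683869931521)) (.cons (.rf (nat_lit 4841) (nat_lit 407901468851537952)) (.cons (.rf (nat_lit 4840) (nat_lit 146722311887886337)) (.cons (.rf (nat_lit 4841) (nat_lit 146722311887886368)) (.cons (.rf (nat_lit 4549) (nat_lit 12289)) .nil)))))),
 (.br (nat_lit 1) (nat_lit 0) (.cons (.rf (nat_lit 4842) (nat_lit 406809683869931521)) (.cons (.rf (nat_lit 4841) (nat_lit 407901468851537952)) (.cons (.br (nat_lit 1) (nat_lit 0) (.cons (.rf (nat_lit 4842) (nat_lit 406809683869931521)) (.cons (.rf (nat_lit 4841) (nat_lit 407901468851537952)) (.cons (.rf (nat_lit 4842) (nat_lit 398788719634720769)) (.cons (.rf (nat_lit 4842) (nat_lit 407901468851537952)) (.cons (.rf (nat_lit 4841) (nat_lit 146722311887886368)) (.cons (.rf (nat_lit 4549) (nat_lit 12289)) .nil))))))) (.cons (.rf (nat_lit 4842) (nat_lit 398788719634720769)) (.cons (.br (nat_lit 1) (nat_lit 0) (.cons (.rf (nat_lit 4842) (nat_lit 406809683869931521)) (.cons (.rf (nat_lit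 4841) (nat_lit 407901468851537952)) (.cons (.rf (nat_lit 4842) (nat_lit 407901468851537952)) (.cons (.rf (nat_lit 4842) (nat_lit 398788719634720769)) (.cons (.rf (nat_lit 4841) (nat_lit 146722311887886368)) (.cons (.rf (nat_lit 4549) (nat_lit 12289)) .nil))))))) (.cons (.rf (nat_lit 4841) (nat_lit 146722311887886368)) (.cons (.rf (nat_lit 4549) (nat_lit 12289)) .nil)))))))),
 (.br (nat_lit 0) (nat_lit 0) (.cons (.rf (nat_lit 4841) (nat_lit 407901468851537921)) (.cons (.rf (nat_lit 4843) (nat_lit 407901468851537952)) (.cons (.rf (nat_lit 4843) (nat_lit 406809683869931552)) (.cons (.rf (nat_lit 4841) (nat_lit 146722311887886337)) (.cons (.rf (nat_lit 4549) (nat_lit 12320)) .nil)))))),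
 (.br (nat_lit 10) (nat_lit 1) (.cons (.rf (nat_lit 0) (nat_lit 75273315492)) (.cons (.br (nat_lit 2) (nat_lit 1) (.cons (.rf (nat_lit 0) (nat_lit 353435355236)) (.cons (.br (nat_lit 7) (nat_lit 0) (.cons (.br (nat_lit 11) (nat_lit 1) (.cons (.br (nat_lit 0) (nat_lit 0) (.cons (.rf (nat_lit 4841) (nat_lit 407901468851537921)) (.cons (.rf (nat_lit 4844) (nat_lit 407901468851537952)) (.cons (.br (nat_lit 0) (nat_lit 0) (.cons (.rf (nat_lit 4841) (nat_lit 407901468851537921)) (.cons (.rf (nat_lit 4844) (nat_lit 407901468851537952)) (.cons (.rf (nat_lit 4844) (nat_lit 403150517695587360)) (.cons (.rf (nat_lit 4841) (nat_lit 146722311887886337)) (.cons (.rf (nat_lit 4549) (nat_lit 12320)) .nil)))))) (.cons (.rf (nat_lit 4844) (nat_lit 151190728183384096)) (.cons (.rf (nat_lit 4841) (nat_lit 146722311887886337)) (.cons (.rf (nat_lit 4549) (nat_lit 12320)) .nil))))))) .nil)) .nil)) .nil))) .nil))),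
 (.br (nat_lit 6) (nat_lit 1) (.cons (.rf (nat_lit 1) (nat_lit 6459490)) (.cons (.br (nat_lit 7) (nat_lit 1) (.cons (.br (nat_lit 5) (nat_lit 0) (.cons (.rf (nat_lit 1) (nat_lit 4360294)) (.cons (.br (nat_lit 5) (nat_lit 0) (.cons (.rf (nat_lit 1) (nat_lit 4360294)) (.cons (.br (nat_lit 9) (nat_lit 1) (.cons (.rf (nat_lit 4845) (nat_lit 11584701642934304)) (.cons (.br (nat_lit 10) (nat_lit 1) (.cons (.rf (nat_lit 4845) (nat_lit 10493986108180512)) (.cons (.rf (nat_lit 676) (nat_lit 11313185198178)) .nil))) .nil))) .nil))) .nil))) .nil)) .nil))),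
 (.br (nat_lit 10) (nat_lit 0) (.cons (.ev (nat_lit 4722366764344638701824) (nat_lit 1)) (.cons (.br (nat_lit 9) (nat_lit 0) (.cons (.kr (nat_lit 309485009821345068724781057) (nat_lit 1208925819614629174706432) (nat_lit 0) (nat_lit 2)) (.cons (.rf (nat_lit 4586) (nat_lit 13412449159169)) .nil))) (.cons (.rf (nat_lit 4556) (nat_lit 433595443447840)) .nil)))),
 (.br (nat_lit 7) (nat_lit 0) (.cons (.rf (nat_lit 4586) (nat_lit 10110591174688)) (.cons (.rf (nat_lit 4554) (nat_lit 10144853362689)) (.cons (.rf (nat_lit 4556) (nat_lit 359819649320961)) .nil)))),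
 (.br (nat_lit 9) (nat_lit 0) (.cons (.rf (nat_lit 4848) (nat_lit 434660628891680)) (.cons (.rf (nat_lit 4848) (nat_lit 433595443447840)) (.cons (.ev (nat_lit 4722366764344638701824) (nat_lit 1)) (.cons (.rf (nat_lit 4749) (nat_lit 482214062556678176)) .nil))))),
 (.br (nat_lit 10) (nat_lit 0) (.cons (.kr (nat_lit 9463179710912511737856) (nat_lit 2417851711849802357538816) (nat_lit 2) (nat_lit 0)) (.cons (.ev (nat_lit 1208944266640182156001281) (nat_lit 1)) (.cons (.rf (nat_lit 4848) (nat_lit 434623018567681)) .nil)))),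
 (.br (nat_lit 6) (nat_lit 0) (.cons (.kr (nat_lit 9463179710912511737856) (nat_lit 2417851711849802357538816) (nat_lit 2) (nat_lit 0)) (.cons (.ev (nat_lit 1208944266640182156001281) (nat_lit 1)) (.cons (.rf (nat_lit 4848) (nat_lit 434627309340704)) .nil)))),
 (.br (nat_lit 11) (nat_lit 0) (.cons (.rf (nat_lit 4562) (nat_lit 13547776116768)) (.cons (.rf (nat_lit 4562) (nat_lit 13410341357569)) (.cons (.br (nat_lit 6) (nat_lit 0) (.cons (.ev (nat_lit 310698658007724042538188801) (nat_lit 1)) (.cons (.br (nat_lit 10) (nat_lit 0) (.cons (.ev (nat_lit 310698658007724042538189056) (nat_lit 1)) (.cons (.rf (nat_lit 4557) (nat_lit 470978939455520)) .nil))) (.cons (.rf (nat_lit 4712) (nat_lit 482282229122402336)) .nil)))) (.cons (.rf (nat_lit 4568) (nat_lit 470946693646368)) .nil))))),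
 (.br (nat_lit 9) (nat_lit 0) (.cons (.rf (nat_lit 4850) (nat_lit 407901468851537952)) (.cons (.rf (nat_lit 4851) (nat_lit 407901468851537952)) (.cons (.br (nat_lit 9) (nat_lit 0) (.cons (.rf (nat_lit 4850) (nat_lit 407901468851537952)) (.cons (.rf (nat_lit 4851) (nat_lit 407901468851537952)) (.cons (.rf (nat_lit 4852) (nat_lit 14242959524133701664)) .nil)))) (.cons (.br (nat_lit 9) (nat_lit 0) (.cons (.rf (nat_lit 4556) (nat_lit 432497005561888)) (.cons (.rf (nat_lit 4556) (nat_lit 432492714788865)) (.cons (.rf (nat_lit 4852) (nat_lit 14242959524133701664)) (.cons (.rf (nat_lit 4720) (nat_lit 482282229122402336)) .nil))))) .nil))))),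
 (.br (nat_lit 1) (nat_lit 0) (.cons (.kr (nat_lit 1) (nat_lit 256) (nat_lit 0) (nat_lit 2)) (.cons (.br (nat_lit 6) (nat_lit 0) (.cons (.ev (nat_lit 4740885567111881031681) (nat_lit 1)) (.cons (.rf (nat_lit 4847) (nat_lit 407901468851537952)) (.cons (.rf (nat_lit 4847) (nat_lit 372998571739416608)) (.cons (.rf (nat_lit 4849) (nat_lit 14208056627021580320)) .nil))))) (.cons (.rf (nat_lit 4853) (nat_lit 407901468851537952)) (.cons (.rf (nat_lit 4853) (nat_lit 372998571739416608)) (.cons (.rf (nat_lit 4549) (nat_lit 12289)) .nil)))))),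
 (.br (nat_lit 6) (nat_lit 0) (.cons (.ev (nat_lit 4740885567111881031681) (nat_lit 1)) (.cons (.br (nat_lit 9) (nat_lit 0) (.cons (.ev (nat_lit 311917065525853450978525955) (nat_lit 2)) (.cons (.rf (nat_lit 4656) (nat_lit 13549856428064)) .nil))) (.cons (.rf (nat_lit 4656) (nat_lit 13343600486401)) .nil)))),
 (.br (nat_lit 6) (nat_lit 0) (.cons (.ev (nat_lit 4722366764344638701569) (nat_lit 1)) (.cons (.rf (nat_lit 4855) (nat_lit 407901466706151456)) (.cons (.ev (nat_lit 309485028268370621706076416) (nat_lit 1)) (.cons (.br (nat_lit 9) (nat_lit 0) (.cons (.rf (nat_lit 4622) (nat_lit 13343601756161)) (.cons (.rf (nat_lit 4654) (nat_lit 13549856428064)) (.cons (.br (nat_lit 10) (nat_lit 0) (.cons (.ev (nat_lit 311917084044654019264708610) (nat_lit 2)) (.cons (.br (nat_lit 11) (nat_lit 0) (.cons (.ev (nat_lit 477238040534795530722179680266) (nat_lit 4)) (.cons (.rf (nat_lit 4726) (nat_lit 436894954620960)) .nil))) (.cons (.rf (nat_lit 4655) (nat_lit 436827506937888)) .nil)))) (.cons (.rf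 (nat_lit 4655) (nat_lit 436861833121824)) .nil))))) .nil))))),
 (.br (nat_lit 7) (nat_lit 0) (.cons (.rf (nat_lit 4760) (nat_lit 325669255973920)) .nil)),
 (.br (nat_lit 7) (nat_lit 0) (.cons (.rf (nat_lit 4655) (nat_lit 361885461453825)) (.cons (.rf (nat_lit 4611) (nat_lit 11584595345737729)) (.cons (.br (nat_lit 8) (nat_lit 0) (.cons (.rf (nat_lit 4857) (nat_lit 362021925259296)) (.cons (.rf (nat_lit 4857) (nat_lit 327933746153473)) .nil))) .nil)))),
 (.br (nat_lit 6) (nat_lit 0) (.cons (.rf (nat_lit 4624) (nat_lit 8941155289089)) (.cons (.rf (nat_lit 4655) (nat_lit 291481317348353)) (.cons (.rf (nat_lit 4655) (nat_lit 325600503993345)) .nil)))),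
 (.br (nat_lit 12) (nat_lit 0) (.cons (.ev (nat_lit 158458761788441994975942541314) (nat_lit 3)) .nil))]

theorem c177 : chkAll C T R L177 (nat_lit 4830) = true := by decide +kernel

theorem l177 : (nat_lit 4830) + L177.length = (nat_lit 4861) := by decide +kernel

/-- part of the certificates -/
def L178 : List Prf := [(.br (nat_lit 10) (nat_lit 0) (.cons (.rf (nat_lit 4655) (nat_lit 436655577180161)) (.cons (.rf (nat_lit 4858) (nat_lit 15071150008993793)) (.cons (.br (nat_lit 11) (nat_lit 0) (.cons (.rf (nat_lit 4860) (nat_lit 493858305440582043680)) (.cons (.br (nat_lit 11) (nat_lit 0) (.cons (.rf (nat_lit 4860) (nat_lit 493858305440582043680)) .nil)) .nil))) .nil)))),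
 (.br (nat_lit 4) (nat_lit 0) (.cons (.kr (nat_lit 4294967296) (nat_lit 281474976710656) (nat_lit 4) (nat_lit 0)) (.cons (.ev (nat_lit 4740885285641199288321) (nat_lit 1)) (.cons (.rf (nat_lit 4855) (nat_lit 407901468851537952)) (.cons (.rf (nat_lit 4856) (nat_lit 407901468851537952)) (.cons (.br (nat_lit 6) (nat_lit 0) (.cons (.ev (nat_lit 4722366764344638701569) (nat_lit 1)) (.cons (.rf (nat_lit 4656) (nat_lit 13412252854273)) (.cons (.rf (nat_lit 4856) (nat_lit 407901466706151456)) (.cons (.br (nat_lit 9) (nat_lit 0) (.cons (.rf (nat_lit 4622) (nat_lit 13412254124033)) (.cons (.br (nat_lit 10) (nat_lit 0) (.cons (.ev (nat_lit 309485028268370621706076161) (nat_lit 1)) (.cons (.br (nat_lit 11) (nat_lit 0) (.cons (.ev (nat_lit 79229376162450436191875497984) (nat_lit 1)) (.cons (.rf (nat_lit 4726) (nat_lit 436890822313985)) .nil))) (.cons (.rf (nat_lit 4655) (nat_lit 470809091056641)) .nil)))) (.cons (.br (nat_lit 10) (nat_lit 0) (.cons (.br (nat_lit 11) (nat_lit 0) (.cons (.ev (nat_lit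 79229376180969518239399805185) (nat_lit 1)) (.cons (.rf (nat_lit 4726) (nat_lit 436890855835649)) .nil))) (.cons (.rf (nat_lit 4658) (nat_lit 13549856428064)) (.cons (.rf (nat_lit 4858) (nat_lit 15071326098294816)) .nil)))) (.cons (.rf (nat_lit 4858) (nat_lit 15071359384291360)) .nil))))) (.cons (.br (nat_lit 9) (nat_lit 0) (.cons (.rf (nat_lit 4622) (nat_lit 13412254124033)) (.cons (.rf (nat_lit 4859) (nat_lit 470979979642912)) (.cons (.rf (nat_lit 4861) (nat_lit 493858305440582043680)) (.cons (.rf (nat_lit 4861) (nat_lit 458117738795624400928)) .nil))))) .nil)))))) .nil)))))),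
 (.br (nat_lit 1) (nat_lit 0) (.cons (.rf (nat_lit 4854) (nat_lit 407901468851537952)) (.cons (.rf (nat_lit 4854) (nat_lit 407901466706151456)) (.cons (.rf (nat_lit 4862) (nat_lit 407901468851537952)) (.cons (.rf (nat_lit 4862) (nat_lit 372998571739416608)) (.cons (.rf (nat_lit 4549) (nat_lit 12289)) .nil)))))),
 (.br (nat_lit 1) (nat_lit 0) (.cons (.rf (nat_lit 4854) (nat_lit 407901468851537952)) (.cons (.rf (nat_lit 4854) (nat_lit 407901466706151456)) (.cons (.rf (nat_lit 4863) (nat_lit 407901468851537952)) (.cons (.kr (nat_lit 18518801667747479554) (nat_lit 1099528405504) (nat_lit 0) (nat_lit 2)) (.cons (.rf (nat_lit 4549) (nat_lit 12289)) .nil)))))),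
 (.br (nat_lit 1) (nat_lit 0) (.cons (.rf (nat_lit 4854) (nat_lit 407901468851537952)) (.cons (.rf (nat_lit 4854) (nat_lit 407901466706151456)) (.cons (.rf (nat_lit 4863) (nat_lit 407901468851537952)) (.cons (.rf (nat_lit 4864) (nat_lit 407901468851537952)) (.cons (.rf (nat_lit 4864) (nat_lit 372998571739416608)) (.cons (.rf (nat_lit 4549) (nat_lit 12289)) .nil))))))),
 (.br (nat_lit 10) (nat_lit 0) (.cons (.ev (nat_lit 1208925819614629191549184) (nat_lit 1)) (.cons (.ev (nat_lit 1208944266640182156001281) (nat_lit 1)) (.cons (.rf (nat_lit 4848) (nat_lit 434618757222401)) .nil)))),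
 (.br (nat_lit 2) (nat_lit 0) (.cons (.rf (nat_lit 4866) (nat_lit 407901468851537952)) (.cons (.ev (nat_lit 1208925819614629191548929) (nat_lit 1)) (.cons (.rf (nat_lit 4866) (nat_lit 335914243557787680)) (.cons (.rf (nat_lit 4849) (nat_lit 14241868735653711904)) .nil))))),
 (.br (nat_lit 1) (nat_lit 0) (.cons (.kr (nat_lit 1) (nat_lit 256) (nat_lit 0) (nat_lit 2)) (.cons (.kr (nat_lit 18446745173221179394) (nat_lit 72057594054705664) (nat_lit 0) (nat_lit 2)) (.cons (.rf (nat_lit 4867) (nat_lit 407901468851537952)) (.cons (.rf (nat_lit 4867) (nat_lit 372998571739416608)) (.cons (.rf (nat_lit 4549) (nat_lit 12289)) .nil)))))),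
 (.br (nat_lit 11) (nat_lit 0) (.cons (.rf (nat_lit 4859) (nat_lit 470979979579424)) (.cons (.rf (nat_lit 4859) (nat_lit 470978939392032)) (.cons (.br (nat_lit 9) (nat_lit 0) (.cons (.zr (nat_lit 618970019714748839672940032) (nat_lit 2427351712990168722046980) (nat_lit 10) (nat_lit 4)) (.cons (.br (nat_lit 13) (nat_lit 0) (.cons (.ev (nat_lit 1213648186941923783803651) (nat_lit 2)) (.cons (.ev (nat_lit 79228162514336676662558654721) (nat_lit 1)) .nil))) (.cons (.br (nat_lit 10) (nat_lit 0) (.cons (.ev (nat_lit 1213648186941923783803651) (nat_lit 2)) (.cons (.rf (nat_lit 4610) (nat_lit 436895119118368)) .nil))) .nil)))) .nil)))),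
 (.br (nat_lit 2) (nat_lit 0) (.cons (.br (nat_lit 9) (nat_lit 0) (.cons (.ev (nat_lit 4722366764344638701824) (nat_lit 1)) (.cons (.br (nat_lit 10) (nat_lit 0) (.cons (.ev (nat_lit 310698676454186645549220096) (nat_lit 1)) (.cons (.rf (nat_lit 4622) (nat_lit 13515530244128)) .nil))) (.cons (.rf (nat_lit 4622) (nat_lit 13549856428064)) .nil)))) (.cons (.br (nat_lit 6) (nat_lit 0) (.cons (.ev (nat_lit 4722366764344638701824) (nat_lit 1)) (.cons (.br (nat_lit 10) (nat_lit 0) (.cons (.ev (nat_lit 2427315325032179037505030) (nat_lit 3)) (.cons (.rf (nat_lit 4656) (nat_lit 13515530307616)) .nil))) (.cons (.rf (nat_lit 4656) (nat_lit 13274882122753)) .nil)))) (.cons (.ev (nat_lit 1208925819614629191548929) (nat_lit 1)) (.cons (.br (nat_lit 6) (nat_lit 0) (.cons (.ev (nat_lit 4740885567111881031681) (nat_lit 1)) (.cons (.br (nat_lit 9) (nat_lit 0) (.cons (.ev (nat_lit 7281908068296274410078212) (nat_lit 3)) (.cons (.rf (nat_lit 4656) (nat_lit 13549852301344)) .nil))) (.cons (.ev (nat_lit 309485028268370621706076416)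 (nat_lit 1)) (.cons (.br (nat_lit 9) (nat_lit 0) (.cons (.rf (nat_lit 4622) (nat_lit 13274882281473)) (.cons (.kr (nat_lit 309485028268089146729299969) (nat_lit 4722366482869662056704) (nat_lit 0) (nat_lit 5)) (.cons (.br (nat_lit 10) (nat_lit 0) (.cons (.ev (nat_lit 1213648186941923783803651) (nat_lit 2)) (.cons (.br (nat_lit 11) (nat_lit 0) (.cons (.ev (nat_lit 79537652264971248678949880065) (nat_lit 1)) (.cons (.rf (nat_lit 4726) (nat_lit 436894887514144)) .nil))) (.cons (.rf (nat_lit 4655) (nat_lit 436827507001376)) .nil)))) (.cons (.rf (nat_lit 4655) (nat_lit 436861833185312)) .nil))))) .nil))))) (.cons (.br (nat_lit 6) (nat_lit 0) (.cons (.ev (nat_lit 4740885567111881031681) (nat_lit 1)) (.cons (.rf (nat_lit 4656) (nat_lit 13412185810945)) (.cons (.br (nat_lit 9) (nat_lit 0) (.cons (.rf (nat_lit 4622) (nat_lit 13412187017217)) (.cons (.rf (nat_lit 4654) (nat_lit 13549852301344)) (.cons (.br (nat_lit 10) (nat_lit 0) (.cons (.ev (nat_lit 1213648186941923783803651) (nat_lit 2)) (.cons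 (.br (nat_lit 11) (nat_lit 0) (.cons (.ev (nat_lit 79538856468424098963502727168) (nat_lit 1)) (.cons (.rf (nat_lit 4726) (nat_lit 436895021600800)) .nil))) (.cons (.rf (nat_lit 4655) (nat_lit 436827502811168)) .nil)))) (.cons (.rf (nat_lit 4655) (nat_lit 436861828995104)) .nil))))) (.cons (.br (nat_lit 9) (nat_lit 0) (.cons (.rf (nat_lit 4622) (nat_lit 13412187017217)) (.cons (.br (nat_lit 10) (nat_lit 0) (.cons (.ev (nat_lit 310698658079501265406001408) (nat_lit 1)) (.cons (.br (nat_lit 11) (nat_lit 0) (.cons (.ev (nat_lit 79538856468424098963502727168) (nat_lit 1)) (.cons (.rf (nat_lit 4726) (nat_lit 436890820218881)) .nil))) (.cons (.rf (nat_lit 4655) (nat_lit 470809024013313)) .nil)))) (.cons (.br (nat_lit 10) (nat_lit 0) (.cons (.br (nat_lit 11) (nat_lit 0) (.cons (.ev (nat_lit 79537652264971248678949880065) (nat_lit 1)) (.cons (.rf (nat_lit 4726) (nat_lit 436890853740545)) .nil))) (.cons (.ev (nat_lit 1213648186941923783803651) (nat_lit 2)) (.cons (.rf (nat_lit 4858) (nat_lit 15071326098231328))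 .nil)))) (.cons (.rf (nat_lit 4858) (nat_lit 15071359384227872)) .nil))))) (.cons (.br (nat_lit 11) (nat_lit 0) (.cons (.rf (nat_lit 4859) (nat_lit 470979979579424)) (.cons (.rf (nat_lit 4859) (nat_lit 470978939392032)) (.cons (.rf (nat_lit 4869) (nat_lit 493858305440582043680)) (.cons (.br (nat_lit 11) (nat_lit 0) (.cons (.rf (nat_lit 4859) (nat_lit 470979979579424)) (.cons (.rf (nat_lit 4859) (nat_lit 470978939392032)) (.cons (.rf (nat_lit 4869) (nat_lit 493858305440582043680)) .nil)))) .nil))))) .nil)))))) .nil)))))),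
 (.br (nat_lit 1) (nat_lit 0) (.cons (.rf (nat_lit 4865) (nat_lit 407901468851537952)) (.cons (.kr (nat_lit 18446745173221179394) (nat_lit 72057594054705664) (nat_lit 0) (nat_lit 2)) (.cons (.rf (nat_lit 4870) (nat_lit 407901468851537952)) (.cons (.rf (nat_lit 4870) (nat_lit 372998571739416608)) (.cons (.rf (nat_lit 4549) (nat_lit 12289)) .nil)))))),
 (.br (nat_lit 11) (nat_lit 0) (.cons (.ev (nat_lit 310698676454186645549220096) (nat_lit 1)) (.cons (.br (nat_lit 9) (nat_lit 0) (.cons (.ev (nat_lit 479097330666142178481888168456) (nat_lit 4)) (.cons (.rf (nat_lit 4726) (nat_lit 436822134329345)) .nil))) (.cons (.rf (nat_lit 4655) (nat_lit 470806877579265)) .nil)))),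
 (.br (nat_lit 11) (nat_lit 0) (.cons (.rf (nat_lit 4610) (nat_lit 470912363335712)) (.cons (.br (nat_lit 12) (nat_lit 0) (.cons (.ev (nat_lit 159696682937972654835612516864) (nat_lit 3)) .nil)) .nil))),
 (.br (nat_lit 9) (nat_lit 0) (.cons (.rf (nat_lit 4859) (nat_lit 470912367398944)) (.cons (.rf (nat_lit 4859) (nat_lit 470911327211552)) (.cons (.br (nat_lit 10) (nat_lit 0) (.cons (.kr (nat_lit 1208925819614629174706176) (nat_lit 309485009821345068724781056) (nat_lit 10) (nat_lit 0)) (.cons (.rf (nat_lit 4873) (nat_lit 493858305440582043680)) (.cons (.br (nat_lit 11) (nat_lit 0) (.cons (.rf (nat_lit 4873) (nat_lit 493823402543469922336)) (.cons (.rf (nat_lit 4610) (nat_lit 436827506937888)) .nil))) .nil)))) .nil)))),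
 (.br (nat_lit 1) (nat_lit 0) (.cons (.rf (nat_lit 4865) (nat_lit 407901468851537952)) (.cons (.rf (nat_lit 4867) (nat_lit 407901468851537952)) (.cons (.rf (nat_lit 4871) (nat_lit 407901468851537952)) (.cons (.br (nat_lit 2) (nat_lit 0) (.cons (.br (nat_lit 10) (nat_lit 0) (.cons (.br (nat_lit 11) (nat_lit 0) (.cons (.ev (nat_lit 310698676454186645549220096) (nat_lit 1)) (.cons (.rf (nat_lit 4622) (nat_lit 13547776053280)) .nil))) (.cons (.ev (nat_lit 1208925819614629191549184) (nat_lit 1)) (.cons (.rf (nat_lit 4622) (nat_lit 13582102237216)) .nil)))) (.cons (.br (nat_lit 10) (nat_lit 0) (.cons (.br (nat_lit 9) (nat_lit 0) (.cons (.ev (nat_lit 309489732260451785224945921) (nat_lit 2)) (.cons (.rf (nat_lit 4736) (nat_lit 13410299645953)) .nil))) (.cons (.br (nat_lit 6) (nat_lit 0) (.cons (.ev (nat_lit 1213648258721345674871041) (nat_lit 2)) (.cons (.rf (nat_lit 4654) (nat_lit 13582102300704)) .nil))) (.cons (.kr (nat_lit 1208925819614629174706176) (nat_lit 309485009821345068724781056) (nat_lit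 10) (nat_lit 0)) (.cons (.br (nat_lit 6) (nat_lit 0) (.cons (.rf (nat_lit 4624) (nat_lit 13582102237216)) (.cons (.rf (nat_lit 4656) (nat_lit 13582098110496)) (.cons (.br (nat_lit 9) (nat_lit 0) (.cons (.ev (nat_lit 311907676350701193738388743) (nat_lit 3)) (.cons (.rf (nat_lit 4657) (nat_lit 445058297054205984)) (.cons (.rf (nat_lit 4726) (nat_lit 436827242827808)) .nil)))) (.cons (.rf (nat_lit 4655) (nat_lit 470978939455520)) .nil))))) .nil))))) (.cons (.ev (nat_lit 1208925819614629191548929) (nat_lit 1)) (.cons (.ev (nat_lit 309485009821345068741623809) (nat_lit 1)) (.cons (.br (nat_lit 6) (nat_lit 0) (.cons (.br (nat_lit 9) (nat_lit 0) (.cons (.rf (nat_lit 4654) (nat_lit 13582098110496)) (.cons (.rf (nat_lit 4654) (nat_lit 13547771926560)) (.cons (.br (nat_lit 10) (nat_lit 0) (.cons (.ev (nat_lit 1213703671010061346603520) (nat_lit 2)) (.cons (.br (nat_lit 11) (nat_lit 0) (.cons (.ev (nat_lit 79538856468352323939658170625) (nat_lit 1)) (.cons (.rf (nat_lit 4655) (nat_lit 436859748620320))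 .nil))) (.cons (.rf (nat_lit 4655) (nat_lit 436894074804256)) .nil)))) (.cons (.rf (nat_lit 4726) (nat_lit 436827376914464)) .nil))))) (.cons (.rf (nat_lit 4656) (nat_lit 13410040424449)) (.cons (.rf (nat_lit 4656) (nat_lit 13410039376897)) (.cons (.br (nat_lit 10) (nat_lit 0) (.cons (.rf (nat_lit 4872) (nat_lit 14242959524133701664)) (.cons (.kr (nat_lit 1208925819614629174706176) (nat_lit 309485009821345068724781056) (nat_lit 10) (nat_lit 0)) (.cons (.br (nat_lit 11) (nat_lit 0) (.cons (.rf (nat_lit 4872) (nat_lit 14208056627021580320)) (.cons (.rf (nat_lit 4658) (nat_lit 13582102300704)) (.cons (.rf (nat_lit 4858) (nat_lit 15069162441347104)) .nil)))) (.cons (.rf (nat_lit 4858) (nat_lit 15069195727343648)) .nil))))) (.cons (.br (nat_lit 9) (nat_lit 0) (.cons (.rf (nat_lit 4859) (nat_lit 470912367398944)) (.cons (.rf (nat_lit 4859) (nat_lit 470911327211552)) (.cons (.rf (nat_lit 4874) (nat_lit 493858305440582043680)) (.cons (.br (nat_lit 9) (nat_lit 0) (.cons (.rf (nat_lit 4859) (nat_lit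 470912367398944)) (.cons (.rf (nat_lit 4859) (nat_lit 470911327211552)) (.cons (.rf (nat_lit 4874) (nat_lit 493858305440582043680)) .nil)))) .nil))))) .nil)))))) .nil)))))) (.cons (.rf (nat_lit 4549) (nat_lit 12289)) .nil)))))),
 (.br (nat_lit 1) (nat_lit 0) (.cons (.rf (nat_lit 4865) (nat_lit 407901468851537952)) (.cons (.rf (nat_lit 4868) (nat_lit 407901468851537952)) (.cons (.rf (nat_lit 4871) (nat_lit 407901468851537952)) (.cons (.rf (nat_lit 4875) (nat_lit 407901468851537952)) (.cons (.rf (nat_lit 4875) (nat_lit 372998571739416608)) (.cons (.rf (nat_lit 4549) (nat_lit 12289)) .nil))))))),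
 (.br (nat_lit 1) (nat_lit 0) (.cons (.rf (nat_lit 4865) (nat_lit 407901468851537952)) (.cons (.rf (nat_lit 4876) (nat_lit 407901468851537952)) (.cons (.rf (nat_lit 4876) (nat_lit 407901466706151456)) (.cons (.kr (nat_lit 18446744073709551617) (nat_lit 16777472) (nat_lit 0) (nat_lit 2)) (.cons (.rf (nat_lit 4549) (nat_lit 12289)) .nil)))))),
 (.br (nat_lit 1) (nat_lit 0) (.cons (.rf (nat_lit 4865) (nat_lit 407901468851537952)) (.cons (.rf (nat_lit 4876) (nat_lit 407901468851537952)) (.cons (.rf (nat_lit 4876) (nat_lit 407901466706151456)) (.cons (.rf (nat_lit 4877) (nat_lit 407901468851537952)) (.cons (.rf (nat_lit 4877) (nat_lit 372998571739416608)) (.cons (.rf (nat_lit 4549) (nat_lit 12289)) .nil))))))),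
 (.br (nat_lit 1) (nat_lit 0) (.cons (.rf (nat_lit 4865) (nat_lit 407901468851537952)) (.cons (.rf (nat_lit 4876) (nat_lit 407901468851537952)) (.cons (.rf (nat_lit 4876) (nat_lit 407901466706151456)) (.cons (.rf (nat_lit 4878) (nat_lit 407901468851537952)) (.cons (.br (nat_lit 1) (nat_lit 0) (.cons (.kr (nat_lit 18518801667747479554) (nat_lit 1099528405504) (nat_lit 0) (nat_lit 2)) (.cons (.rf (nat_lit 4876) (nat_lit 407901468851537952)) (.cons (.rf (nat_lit 4876) (nat_lit 407901466706151456)) (.cons (.kr (nat_lit 18446744073709551617) (nat_lit 16777472) (nat_lit 0) (nat_lit 2)) (.cons (.rf (nat_lit 4549) (nat_lit 12289)) .nil)))))) (.cons (.rf (nat_lit 4549) (nat_lit 12289)) .nil))))))),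
 (.br (nat_lit 1) (nat_lit 0) (.cons (.rf (nat_lit 4865) (nat_lit 407901468851537952)) (.cons (.rf (nat_lit 4876) (nat_lit 407901468851537952)) (.cons (.rf (nat_lit 4876) (nat_lit 407901466706151456)) (.cons (.rf (nat_lit 4878) (nat_lit 407901468851537952)) (.cons (.rf (nat_lit 4879) (nat_lit 407901468851537952)) (.cons (.rf (nat_lit 4879) (nat_lit 372998571739416608)) (.cons (.rf (nat_lit 4549) (nat_lit 12289)) .nil)))))))),
 (.br (nat_lit 6) (nat_lit 0) (.cons (.ev (nat_lit 282574488404224) (nat_lit 1)) (.cons (.br (nat_lit 10) (nat_lit 0) (.cons (.ev (nat_lit 313125954379640872326201346) (nat_lit 2)) (.cons (.rf (nat_lit 4586) (nat_lit 13515394189313)) .nil))) (.cons (.rf (nat_lit 4556) (nat_lit 429198473824288)) .nil)))),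
 (.br (nat_lit 6) (nat_lit 0) (.cons (.ev (nat_lit 282574488404224) (nat_lit 1)) (.cons (.br (nat_lit 9) (nat_lit 0) (.cons (.ev (nat_lit 313125954379640872326201601) (nat_lit 2)) (.cons (.rf (nat_lit 4586) (nat_lit 13549753894944)) .nil))) (.cons (.rf (nat_lit 4556) (nat_lit 429197401131009)) .nil)))),
 (.br (nat_lit 6) (nat_lit 0) (.cons (.rf (nat_lit 4881) (nat_lit 407901468851537952)) (.cons (.rf (nat_lit 4882) (nat_lit 407901468851537952)) (.cons (.br (nat_lit 11) (nat_lit 0) (.cons (.rf (nat_lit 4562) (nat_lit 13544558037024)) (.cons (.rf (nat_lit 4562) (nat_lit 13510199347201)) (.cons (.br (nat_lit 9) (nat_lit 0) (.cons (.rf (nat_lit 4572) (nat_lit 13549758973984)) (.cons (.br (nat_lit 10) (nat_lit 0) (.cons (.zr (nat_lit 1213721973641141658124294) (nat_lit 1237940039429495484483371776) (nat_lit 15) (nat_lit 9)) (.cons (.rf (nat_lit 4557) (nat_lit 470975721375776)) .nil))) (.cons (.rf (nat_lit 4712) (nat_lit 482278930585520160)) .nil)))) (.cons (.rf (nat_lit 4568) (nat_lit 470946596128800))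 .nil))))) .nil)))),
 (.br (nat_lit 6) (nat_lit 0) (.cons (.rf (nat_lit 4881) (nat_lit 407901468851537952)) (.cons (.rf (nat_lit 4882) (nat_lit 407901468851537952)) (.cons (.rf (nat_lit 4883) (nat_lit 407901468851537952)) (.cons (.br (nat_lit 6) (nat_lit 0) (.cons (.rf (nat_lit 4556) (nat_lit 429198473824288)) (.cons (.rf (nat_lit 4556) (nat_lit 429197401131009)) (.cons (.rf (nat_lit 4883) (nat_lit 407901468851537952)) (.cons (.rf (nat_lit 4720) (nat_lit 482278930585520160)) .nil))))) .nil))))),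
 (.br (nat_lit 1) (nat_lit 0) (.cons (.rf (nat_lit 4880) (nat_lit 407901468851537921)) (.cons (.ev (nat_lit 4722366483977797304322) (nat_lit 2)) (.cons (.rf (nat_lit 4884) (nat_lit 407901468851537952)) (.cons (.rf (nat_lit 4884) (nat_lit 372998571739416608)) (.cons (.rf (nat_lit 4549) (nat_lit 12289)) .nil)))))),
 (.br (nat_lit 6) (nat_lit 0) (.cons (.rf (nat_lit 4576) (nat_lit 388905437216)) (.cons (.ev (nat_lit 4814962186681116328450) (nat_lit 3)) (.cons (.rf (nat_lit 4848) (nat_lit 434655226791937)) .nil)))),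
 (.br (nat_lit 12) (nat_lit 0) (.cons (.ev (nat_lit 316912654779712634275215246340) (nat_lit 3)) (.cons (.rf (nat_lit 4708) (nat_lit 15065856462850080)) .nil))),
 (.br (nat_lit 10) (nat_lit 0) (.cons (.br (nat_lit 9) (nat_lit 0) (.cons (.ev (nat_lit 313116509646672934046204161) (nat_lit 2)) (.cons (.rf (nat_lit 4622) (nat_lit 13343702321153)) .nil))) (.cons (.br (nat_lit 6) (nat_lit 0) (.cons (.ev (nat_lit 310693935641242272387891456) (nat_lit 1)) (.cons (.rf (nat_lit 4656) (nat_lit 13549753672736)) .nil))) (.cons (.ev (nat_lit 309485009893403762291179521) (nat_lit 1)) (.cons (.rf (nat_lit 4755) (nat_lit 444001665505398816)) .nil)))))]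

theorem c178 : chkAll C T R L178 (nat_lit 4861) = true := by decide +kernel

theorem l178 : (nat_lit 4861) + L178.length = (nat_lit 4889) := by decide +kernel

end Pool.Agent.H93.Neg.Q14_4_0_4_6_0
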