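import Pool.Agent.H93.Neg.TabQ14_4_0_4_6_0

/-!
Certificates.
-/

set_option autoImplicit false
set_option maxRecDepth 100000
set_option linter.all false

namespace Pool.Agent.H93.Neg.Q14_4_0_4_6_0

/-- part of the certificates -/
def L179 : List Prf := [(.br (nat_lit 4) (nat_lit 0) (.cons (.rf (nat_lit 4723) (nat_lit 12746884397533216)) (.cons (.ev (nat_lit 1208925892516648193229312) (nat_lit 2)) (.cons (.rf (nat_lit 4888) (nat_lit 407901468851537952)) (.cons (.br (nat_lit 9) (nat_lit 0) (.cons (.rf (nat_lit 4656) (nat_lit 13515328923649)) (.cons (.ev (nat_lit 4722366764344638701569) (nat_lit 1)) (.cons (.br (nat_lit 10) (nat_lit 0) (.cons (.rf (nat_lit 4624) (nat_lit 13515333240833)) (.cons (.br (nat_lit 11) (nat_lit 0) (.cons (.ev (nat_lit 623834076072883070596940800) (nat_lit 3)) (.cons (.rf (nat_lit 4726) (nat_lit 436893942876161)) .nil))) (.cons (.rf (nat_lit 4655) (nat_lit 470912170268673)) .nil)))) (.cons (.rf (nat_lit 4859) (nat_lit 470979882125344)) .nil)))))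 .nil))))),
 (.br (nat_lit 4) (nat_lit 0) (.cons (.br (nat_lit 10) (nat_lit 0) (.cons (.ev (nat_lit 1856919522613877748330267138) (nat_lit 3)) (.cons (.rf (nat_lit 4656) (nat_lit 13412454174752)) .nil))) (.cons (.ev (nat_lit 1213648258155092857847809) (nat_lit 1)) (.cons (.rf (nat_lit 4888) (nat_lit 407901468851537952)) (.cons (.br (nat_lit 6) (nat_lit 0) (.cons (.rf (nat_lit 4622) (nat_lit 13515333240833)) (.cons (.ev (nat_lit 4722366764344638701569) (nat_lit 1)) (.cons (.br (nat_lit 10) (nat_lit 0) (.cons (.rf (nat_lit 4654) (nat_lit 13412448936992)) (.cons (.br (nat_lit 11) (nat_lit 0) (.cons (.ev (nat_lit 79537647542604766908799582465) (nat_lit 1)) (.cons (.rf (nat_lit 4726) (nat_lit 436895119181856)) .nil))) (.cons (.rf (nat_lit 4655) (nat_lit 436724425630752)) .nil)))) (.cons (.rf (nat_lit 4655) (nat_lit 436861730366496)) .nil))))) .nil))))),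
 (.br (nat_lit 6) (nat_lit 0) (.cons (.rf (nat_lit 4656) (nat_lit 13515333113857)) (.cons (.rf (nat_lit 4622) (nat_lit 13515333240833)) (.cons (.br (nat_lit 9) (nat_lit 0) (.cons (.rf (nat_lit 4656) (nat_lit 13549753672736)) (.cons (.ev (nat_lit 4722366764344638701569) (nat_lit 1)) (.cons (.br (nat_lit 10) (nat_lit 0) (.cons (.rf (nat_lit 4610) (nat_lit 470979877046304)) (.cons (.br (nat_lit 12) (nat_lit 0) (.cons (.ev (nat_lit 158458761788441994975942541314) (nat_lit 3)) .nil)) .nil))) .nil)))) (.cons (.br (nat_lit 9) (nat_lit 0) (.cons (.rf (nat_lit 4656) (nat_lit 14649265300512)) (.cons (.rf (nat_lit 4858) (nat_lit 15071356166211616)) (.cons (.ev (nat_lit 4722366764344638701569) (nat_lit 1)) .nil)))) .nil))))),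
 (.br (nat_lit 4) (nat_lit 0) (.cons (.rf (nat_lit 4622) (nat_lit 13549758973984)) (.cons (.rf (nat_lit 4656) (nat_lit 13549758910496)) (.cons (.rf (nat_lit 4891) (nat_lit 493858305440582043680)) (.cons (.rf (nat_lit 4891) (nat_lit 458117738797769787424)) .nil))))),
 (.br (nat_lit 4) (nat_lit 0) (.cons (.rf (nat_lit 4656) (nat_lit 13343702194177)) (.cons (.rf (nat_lit 4656) (nat_lit 13343698003969)) (.cons (.rf (nat_lit 4891) (nat_lit 493858305440582043680)) (.cons (.rf (nat_lit 4891) (nat_lit 458117738797769787424)) .nil))))),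
 (.br (nat_lit 4) (nat_lit 0) (.cons (.rf (nat_lit 4656) (nat_lit 13412454174752)) (.cons (.rf (nat_lit 4622) (nat_lit 13412454238240)) (.cons (.rf (nat_lit 4891) (nat_lit 493858305440582043680)) (.cons (.rf (nat_lit 4891) (nat_lit 458117738797769787424)) .nil))))),
 (.br (nat_lit 11) (nat_lit 0) (.cons (.rf (nat_lit 4888) (nat_lit 407901468851537952)) (.cons (.rf (nat_lit 4889) (nat_lit 407901468851537952)) (.cons (.rf (nat_lit 4890) (nat_lit 407901468851537952)) (.cons (.br (nat_lit 11) (nat_lit 0) (.cons (.ev (nat_lit 309485009893403762291179521) (nat_lit 1)) (.cons (.rf (nat_lit 4889) (nat_lit 407901468851537952)) (.cons (.rf (nat_lit 4890) (nat_lit 407901468851537952)) (.cons (.rf (nat_lit 4740) (nat_lit 444001665507493920)) .nil))))) (.cons (.br (nat_lit 11) (nat_lit 0) (.cons (.rf (nat_lit 4888) (nat_lit 407901468851537952)) (.cons (.rf (nat_lit 4889) (nat_lit 407901468851537952)) (.cons (.rf (nat_lit 4890) (nat_lit 407901468851537952)) (.cons (.rf (nat_lit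 4740) (nat_lit 444001665507493920)) (.cons (.br (nat_lit 12) (nat_lit 0) (.cons (.rf (nat_lit 4891) (nat_lit 493858305440582043680)) (.cons (.rf (nat_lit 4892) (nat_lit 493858305440582043680)) (.cons (.rf (nat_lit 4893) (nat_lit 493858305440582043680)) (.cons (.rf (nat_lit 4894) (nat_lit 493858305440582043680)) (.cons (.br (nat_lit 12) (nat_lit 0) (.cons (.rf (nat_lit 4891) (nat_lit 493858305440582043680)) (.cons (.rf (nat_lit 4892) (nat_lit 493858305440582043680)) (.cons (.rf (nat_lit 4893) (nat_lit 493858305440582043680)) (.cons (.rf (nat_lit 4894) (nat_lit 493858305440582043680)) .nil))))) .nil)))))) .nil)))))) .nil)))))),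
 (.br (nat_lit 1) (nat_lit 0) (.cons (.rf (nat_lit 4880) (nat_lit 407901468851537921)) (.cons (.br (nat_lit 4) (nat_lit 0) (.cons (.ev (nat_lit 4722368175043927933442) (nat_lit 3)) (.cons (.rf (nat_lit 4886) (nat_lit 407901468851537952)) (.cons (.rf (nat_lit 4886) (nat_lit 372998571739416608)) (.cons (.br (nat_lit 6) (nat_lit 0) (.cons (.rf (nat_lit 4848) (nat_lit 434657372178464)) (.cons (.rf (nat_lit 4848) (nat_lit 433592220289056)) (.cons (.br (nat_lit 12) (nat_lit 0) (.cons (.rf (nat_lit 4887) (nat_lit 14242959524133701664)) (.cons (.rf (nat_lit 4887) (nat_lit 14208056627021580320)) (.cons (.rf (nat_lit 4710) (nat_lit 482107407883077664)) .nil)))) (.cons (.rf (nat_lit 4749) (nat_lit 482108681237006368)) .nil))))) .nil))))) (.cons (.rf (nat_lit 4895) (nat_lit 407901468851537952)) (.cons (.rf (nat_lit 4895) (nat_lit 372998571739416608)) (.cons (.rf (nat_lit 4549) (nat_lit 12289)) .nil)))))),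
 (.br (nat_lit 6) (nat_lit 0) (.cons (.ev (nat_lit 282574488404224) (nat_lit 1)) (.cons (.br (nat_lit 10) (nat_lit 0) (.cons (.ev (nat_lit 621392593648403373596278786) (nat_lit 2)) (.cons (.rf (nat_lit 4586) (nat_lit 13343600740353)) .nil))) (.cons (.rf (nat_lit 4556) (nat_lit 429198468745248)) .nil)))),
 (.br (nat_lit 10) (nat_lit 0) (.cons (.br (nat_lit 6) (nat_lit 0) (.cons (.ev (nat_lit 621392593648403373596279296) (nat_lit 2)) (.cons (.rf (nat_lit 4556) (nat_lit 429192032585729)) .nil))) (.cons (.ev (nat_lit 309489750634573111607951361) (nat_lit 1)) (.cons (.rf (nat_lit 4848) (nat_lit 429191898368001)) .nil)))),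
 (.br (nat_lit 6) (nat_lit 0) (.cons (.br (nat_lit 11) (nat_lit 0) (.cons (.ev (nat_lit 158456329806308010821853315586) (nat_lit 2)) (.cons (.rf (nat_lit 4568) (nat_lit 470946591049760)) .nil))) (.cons (.rf (nat_lit 4720) (nat_lit 482279102384048160)) .nil))),
 (.br (nat_lit 4) (nat_lit 0) (.cons (.rf (nat_lit 4897) (nat_lit 407901468851537952)) (.cons (.zr (nat_lit 1208925819614633469673475) (nat_lit 4722366482869645279744) (nat_lit 5) (nat_lit 4)) (.cons (.rf (nat_lit 4898) (nat_lit 407901468851537952)) (.cons (.br (nat_lit 10) (nat_lit 0) (.cons (.rf (nat_lit 4848) (nat_lit 434524228192288)) (.cons (.rf (nat_lit 4848) (nat_lit 429198334527520)) (.cons (.br (nat_lit 12) (nat_lit 0) (.cons (.rf (nat_lit 4899) (nat_lit 14242959524133701664)) (.cons (.rf (nat_lit 4899) (nat_lit 14056056709099784193)) (.cons (.rf (nat_lit 4710) (nat_lit 482243746246985760)) .nil)))) (.cons (.rf (nat_lit 4749) (nat_lit 482249414396708896)) .nil))))) .nil))))),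
 (.br (nat_lit 1) (nat_lit 0) (.cons (.ev (nat_lit 4722366483977797304322) (nat_lit 2)) (.cons (.rf (nat_lit 4896) (nat_lit 407901468851537952)) (.cons (.rf (nat_lit 4900) (nat_lit 407901468851537952)) (.cons (.rf (nat_lit 4900) (nat_lit 372998571739416608)) (.cons (.rf (nat_lit 4549) (nat_lit 12289)) .nil)))))),
 (.br (nat_lit 1) (nat_lit 0) (.cons (.rf (nat_lit 4885) (nat_lit 407901468851537952)) (.cons (.rf (nat_lit 4896) (nat_lit 407901468851537952)) (.cons (.rf (nat_lit 4901) (nat_lit 407901468851537952)) (.cons (.rf (nat_lit 4880) (nat_lit 220998653817620481)) (.cons (.rf (nat_lit 4549) (nat_lit 12289)) .nil)))))),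
 (.br (nat_lit 1) (nat_lit 0) (.cons (.rf (nat_lit 4885) (nat_lit 407901468851537952)) (.cons (.rf (nat_lit 4896) (nat_lit 407901468851537952)) (.cons (.rf (nat_lit 4901) (nat_lit 407901468851537952)) (.cons (.rf (nat_lit 4902) (nat_lit 407901468851537952)) (.cons (.rf (nat_lit 4902) (nat_lit 372998571739416608)) (.cons (.rf (nat_lit 4549) (nat_lit 12289)) .nil))))))),
 (.br (nat_lit 6) (nat_lit 0) (.cons (.rf (nat_lit 4799) (nat_lit 216201824288)) (.cons (.rf (nat_lit 4735) (nat_lit 11656101277831200)) (.cons (.rf (nat_lit 4656) (nat_lit 13549758973984)) .nil)))),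
 (.br (nat_lit 2) (nat_lit 0) (.cons (.br (nat_lit 9) (nat_lit 0) (.cons (.rf (nat_lit 4799) (nat_lit 353636583456)) (.cons (.rf (nat_lit 4735) (nat_lit 2650107805863937)) (.cons (.rf (nat_lit 4656) (nat_lit 13274982782977)) .nil)))) (.cons (.ev (nat_lit 9463684116287064506372) (nat_lit 3)) (.cons (.rf (nat_lit 4904) (nat_lit 407901468851537952)) (.cons (.br (nat_lit 11) (nat_lit 0) (.cons (.ev (nat_lit 282574488403969) (nat_lit 1)) (.cons (.ev (nat_lit 4722366483977797304322) (nat_lit 2)) (.cons (.ev (nat_lit 1208944338417396433879296) (nat_lit 1)) (.cons (.rf (nat_lit 4740) (nat_lit 434995672033431553)) .nil))))) (.cons (.br (nat_lit 6) (nat_lit 0) (.cons (.rf (nat_lit 4656) (nat_lit 13515266070529)) (.cons (.rf (nat_lit 4622) (nat_lit 13515266134017)) (.cons (.rf (nat_lit 4721) (nat_lit 445058360608395265)) (.cons (.ev (nat_lit 282574488403969) (nat_lit 1)) (.cons (.br (nat_lit 9) (nat_lit 0) (.cons (.rf (nat_lit 4656) (nat_lit 14649263268896)) (.cons (.rf (nat_lit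 4655) (nat_lit 436861728334880)) (.cons (.ev (nat_lit 4722366483977797304322) (nat_lit 2)) (.cons (.ev (nat_lit 4722366764344638701569) (nat_lit 1)) .nil))))) .nil)))))) .nil)))))),
 (.br (nat_lit 1) (nat_lit 0) (.cons (.rf (nat_lit 4880) (nat_lit 407901468851537921)) (.cons (.rf (nat_lit 4880) (nat_lit 407654113027990529)) (.cons (.rf (nat_lit 4905) (nat_lit 407901468851537952)) (.cons (.rf (nat_lit 4905) (nat_lit 372998571739416608)) (.cons (.rf (nat_lit 4549) (nat_lit 12289)) .nil)))))),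
 (.br (nat_lit 8) (nat_lit 0) (.cons (.ev (nat_lit 4740813226947649732864) (nat_lit 1)) (.cons (.rf (nat_lit 4654) (nat_lit 12443904477216)) .nil))),
 (.br (nat_lit 6) (nat_lit 0) (.cons (.ev (nat_lit 4722366483977797304322) (nat_lit 2)) (.cons (.rf (nat_lit 4907) (nat_lit 12746920901609504)) (.cons (.rf (nat_lit 4907) (nat_lit 11656205366855712)) (.cons (.br (nat_lit 9) (nat_lit 0) (.cons (.rf (nat_lit 4736) (nat_lit 13510157635585)) (.cons (.rf (nat_lit 4736) (nat_lit 13510191157249)) (.cons (.br (nat_lit 10) (nat_lit 0) (.cons (.ev (nat_lit 1208925819614629191549184) (nat_lit 1)) (.cons (.br (nat_lit 11) (nat_lit 0) (.cons (.zr (nat_lit 37778931862957162235392) (nat_lit 621387926695338409424060418) (nat_lit 20) (nat_lit 0)) (.cons (.rf (nat_lit 4655) (nat_lit 436856534730784)) .nil))) (.cons (.rf (nat_lit 4655) (nat_lit 436890860914720)) .nil)))) (.cons (.rf (nat_lit 4726) (nat_lit 470809024172064)) .nil))))) .nil))))),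
 (.br (nat_lit 9) (nat_lit 0) (.cons (.rf (nat_lit 4908) (nat_lit 407654113027990560)) (.cons (.ev (nat_lit 1859337374251415957762605060) (nat_lit 3)) (.cons (.rf (nat_lit 4656) (nat_lit 13269615126529)) .nil)))),
 (.br (nat_lit 11) (nat_lit 0) (.cons (.rf (nat_lit 4610) (nat_lit 470809284218912)) (.cons (.zr (nat_lit 1658450562997288986) (nat_lit 621397445142112377113808384) (nat_lit 60) (nat_lit 2)) .nil))),
 (.br (nat_lit 6) (nat_lit 0) (.cons (.rf (nat_lit 4859) (nat_lit 470809291329568)) (.cons (.rf (nat_lit 4859) (nat_lit 470808251142176)) (.cons (.br (nat_lit 10) (nat_lit 0) (.cons (.kr (nat_lit 1208925819614629174706176) (nat_lit 309485009821345068724781056) (nat_lit 10) (nat_lit 0)) (.cons (.rf (nat_lit 4910) (nat_lit 493858305440582043680)) (.cons (.rf (nat_lit 4910) (nat_lit 458117491441946240032)) .nil)))) .nil)))),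
 (.br (nat_lit 1) (nat_lit 0) (.cons (.rf (nat_lit 4903) (nat_lit 407901468851537952)) (.cons (.rf (nat_lit 4906) (nat_lit 407901468851537952)) (.cons (.rf (nat_lit 4903) (nat_lit 407654113027990560)) (.cons (.br (nat_lit 2) (nat_lit 0) (.cons (.rf (nat_lit 4908) (nat_lit 407901468851537952)) (.cons (.ev (nat_lit 9463684116287064506372) (nat_lit 3)) (.cons (.rf (nat_lit 4909) (nat_lit 407901468851537952)) (.cons (.rf (nat_lit 4909) (nat_lit 372998571739416608)) (.cons (.br (nat_lit 9) (nat_lit 0) (.cons (.rf (nat_lit 4908) (nat_lit 407654113027990560)) (.cons (.rf (nat_lit 4656) (nat_lit 13509898414081)) (.cons (.rf (nat_lit 4656) (nat_lit 13509897366529)) (.cons (.ev (nat_lit 4722366483977797304322) (nat_lit 2)) (.cons (.br (nat_lit 6) (nat_lit 0) (.cons (.rf (nat_lit 4859) (nat_lit 470809291329568)) (.cons (.rf (nat_lit 4859) (nat_lit 470808251142176)) (.cons (.rf (nat_lit 4911) (nat_lit 493858305440582043680)) (.cons (.rf (nat_lit 4911) (nat_lit 458117491441946240032))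 .nil))))) .nil)))))) .nil)))))) (.cons (.rf (nat_lit 4549) (nat_lit 12289)) .nil)))))),
 (.br (nat_lit 1) (nat_lit 0) (.cons (.rf (nat_lit 4903) (nat_lit 407901468851537952)) (.cons (.rf (nat_lit 4906) (nat_lit 407901468851537952)) (.cons (.rf (nat_lit 4903) (nat_lit 407654113027990560)) (.cons (.rf (nat_lit 4912) (nat_lit 407901468851537952)) (.cons (.rf (nat_lit 4912) (nat_lit 372998571739416608)) (.cons (.rf (nat_lit 4549) (nat_lit 12289)) .nil))))))),
 (.br (nat_lit 6) (nat_lit 0) (.cons (.ev (nat_lit 1223093135520802325725186) (nat_lit 2)) (.cons (.ev (nat_lit 4722366764344638701569) (nat_lit 1)) (.cons (.rf (nat_lit 4664) (nat_lit 470979882125344)) .nil)))),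
 (.br (nat_lit 9) (nat_lit 0) (.cons (.ev (nat_lit 9463180272762970178307) (nat_lit 2)) (.cons (.ev (nat_lit 2427296444253691189396227) (nat_lit 2)) (.cons (.ev (nat_lit 618979464447714570289545987) (nat_lit 2)) (.cons (.br (nat_lit 12) (nat_lit 0) (.cons (.ev (nat_lit 4722366764344638701569) (nat_lit 1)) (.cons (.rf (nat_lit 4914) (nat_lit 14242959524133701664)) (.cons (.rf (nat_lit 4914) (nat_lit 14208056627021580320)) (.cons (.rf (nat_lit 4769) (nat_lit 470979979642912)) .nil))))) .nil))))),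
 (.br (nat_lit 11) (nat_lit 0) (.cons (.ev (nat_lit 159699148013853182399141249030) (nat_lit 4)) (.cons (.rf (nat_lit 4664) (nat_lit 436819727816705)) .nil))),
 (.br (nat_lit 9) (nat_lit 0) (.cons (.rf (nat_lit 4778) (nat_lit 325702574508064)) (.cons (.rf (nat_lit 4778) (nat_lit 325669288511520)) (.cons (.br (nat_lit 9) (nat_lit 0) (.cons (.rf (nat_lit 4778) (nat_lit 325702574508064)) (.cons (.rf (nat_lit 4778) (nat_lit 325669288511520)) .nil))) .nil)))),
 (.br (nat_lit 6) (nat_lit 0) (.cons (.rf (nat_lit 4916) (nat_lit 14242959524133701664)) (.cons (.rf (nat_lit 4916) (nat_lit 14208056627021580320)) (.cons (.ev (nat_lit 282574488403969) (nat_lit 1)) (.cons (.rf (nat_lit 4917) (nat_lit 470979979642912)) .nil))))),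
 (.br (nat_lit 4) (nat_lit 0) (.cons (.br (nat_lit 11) (nat_lit 0) (.cons (.ev (nat_lit 79538861190790582932642725888) (nat_lit 1)) (.cons (.rf (nat_lit 4824) (nat_lit 470978669123585)) .nil))) (.cons (.rf (nat_lit 4776) (nat_lit 437172525678701569)) (.cons (.rf (nat_lit 4918) (nat_lit 14242959524133701664)) (.cons (.br (nat_lit 6) (nat_lit 0) (.cons (.rf (nat_lit 4664) (nat_lit 470902506887169)) (.cons (.ev (nat_lit 282574488403969) (nat_lit 1)) (.cons (.br (nat_lit 11) (nat_lit 0) (.cons (.rf (nat_lit 4826) (nat_lit 470735237974048)) (.cons (.br (nat_lit 12) (nat_lit 0) (.cons (.ev (nat_lit 159696682938260317872354231812) (nat_lit 3)) .nil)) .nil))) .nil)))) .nil))))),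
 (.br (nat_lit 7) (nat_lit 0) (.cons (.rf (nat_lit 4664) (nat_lit 325560843833345)) (.cons (.rf (nat_lit 4664) (nat_lit 291545675927553)) .nil))),
 (.br (nat_lit 6) (nat_lit 0) (.cons (.rf (nat_lit 4920) (nat_lit 470979979642912)) (.cons (.rf (nat_lit 4920) (nat_lit 470946693646368)) (.cons (.ev (nat_lit 282574488403969) (nat_lit 1)) (.cons (.ev (nat_lit 4722366764344638701569) (nat_lit 1)) .nil))))),
 (.br (nat_lit 1) (nat_lit 0) (.cons (.rf (nat_lit 4903) (nat_lit 407901468851537952)) (.cons (.rf (nat_lit 4913) (nat_lit 407901468851537952)) (.cons (.rf (nat_lit 4903) (nat_lit 407654113027990560)) (.cons (.br (nat_lit 2) (nat_lit 0) (.cons (.rf (nat_lit 4915) (nat_lit 407901468851537952)) (.cons (.ev (nat_lit 72621643503108867) (nat_lit 2)) (.cons (.br (nat_lit 10) (nat_lit 0) (.cons (.br (nat_lit 6) (nat_lit 0) (.cons (.ev (nat_lit 309489732404283303595803395) (nat_lit 2)) (.cons (.rf (nat_lit 4768) (nat_lit 13412254124064)) .nil))) (.cons (.br (nat_lit 4) (nat_lit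 0) (.cons (.ev (nat_lit 1213648402552864045728515) (nat_lit 2)) (.cons (.br (nat_lit 12) (nat_lit 0) (.cons (.ev (nat_lit 620202557439118002696029184) (nat_lit 3)) (.cons (.rf (nat_lit 4769) (nat_lit 470979812034592)) .nil))) .nil))) (.cons (.kr (nat_lit 1208925819614629174706176) (nat_lit 309485009821345068724781056) (nat_lit 10) (nat_lit 0)) (.cons (.br (nat_lit 4) (nat_lit 0) (.cons (.rf (nat_lit 4768) (nat_lit 13549688883232)) (.cons (.rf (nat_lit 4768) (nat_lit 13544325416992)) (.cons (.br (nat_lit 6) (nat_lit 0) (.cons (.ev (nat_lit 311926473437387563145954304) (nat_lit 3)) (.cons (.br (nat_lit 11) (nat_lit 0) (.cons (.ev (nat_lit 158456334473333701827574628611) (nat_lit 2)) (.cons (.rf (nat_lit 4664) (nat_lit 470941390112800)) .nil))) (.cons (.rf (nat_lit 4664) (nat_lit 470979877046304)) .nil)))) (.cons (.rf (nat_lit 4664) (nat_lit 436890855835680)) .nil))))) .nil))))) (.cons (.ev (nat_lit 2417870085973332075873027) (nat_lit 2)) (.cons (.ev (nat_lit 618970038089434211176022787)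 (nat_lit 2)) (.cons (.br (nat_lit 9) (nat_lit 0) (.cons (.rf (nat_lit 4915) (nat_lit 407654113027990560)) (.cons (.ev (nat_lit 9463180272762970178307) (nat_lit 2)) (.cons (.ev (nat_lit 2427296444253691189396227) (nat_lit 2)) (.cons (.ev (nat_lit 618979464447714570289545987) (nat_lit 2)) (.cons (.br (nat_lit 12) (nat_lit 0) (.cons (.rf (nat_lit 4918) (nat_lit 14242959524133701664)) (.cons (.ev (nat_lit 282574488403969) (nat_lit 1)) (.cons (.rf (nat_lit 4919) (nat_lit 14242959524133701664)) (.cons (.rf (nat_lit 4919) (nat_lit 14208056627021580320)) (.cons (.br (nat_lit 12) (nat_lit 0) (.cons (.rf (nat_lit 4918) (nat_lit 14242959524133701664)) (.cons (.ev (nat_lit 282574488403969) (nat_lit 1)) (.cons (.rf (nat_lit 4919) (nat_lit 14242959524133701664)) (.cons (.rf (nat_lit 4919) (nat_lit 14208056627021580320)) .nil))))) .nil)))))) (.cons (.br (nat_lit 4) (nat_lit 0) (.cons (.rf (nat_lit 4824) (nat_lit 470912367398944)) (.cons (.rf (nat_lit 4824) (nat_lit 470912237375520))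 (.cons (.rf (nat_lit 4824) (nat_lit 470911164682272)) (.cons (.rf (nat_lit 4921) (nat_lit 493858305440582043680)) (.cons (.rf (nat_lit 4921) (nat_lit 458117491441946240032)) .nil)))))) .nil))))))) .nil))))))) (.cons (.rf (nat_lit 4549) (nat_lit 12289)) .nil))))))]

theorem c179 : chkAll C T R L179 (nat_lit 4889) = true := by decide +kernel

theorem l179 : (nat_lit 4889) + L179.length = (nat_lit 4923) := by decide +kernel

/-- part of the certificates -/
def L180 : List Prf := [(.br (nat_lit 1) (nat_lit 0) (.cons (.rf (nat_lit 4903) (nat_lit 407901468851537952)) (.cons (.rf (nat_lit 4913) (nat_lit 407901468851537952)) (.cons (.rf (nat_lit 4903) (nat_lit 407654113027990560)) (.cons (.rf (nat_lit 4922) (nat_lit 407901468851537952)) (.cons (.rf (nat_lit 4922) (nat_lit 372998571739416608)) (.cons (.rf (nat_lit 4549) (nat_lit 12289)) .nil))))))),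
 (.br (nat_lit 1) (nat_lit 0) (.cons (.rf (nat_lit 4903) (nat_lit 407901468851537952)) (.cons (.rf (nat_lit 4913) (nat_lit 407901468851537952)) (.cons (.rf (nat_lit 4923) (nat_lit 407901468851537952)) (.cons (.rf (nat_lit 4903) (nat_lit 407654113027990560)) (.cons (.br (nat_lit 1) (nat_lit 0) (.cons (.rf (nat_lit 4880) (nat_lit 220998653817620481)) (.cons (.rf (nat_lit 4913) (nat_lit 407901468851537952)) (.cons (.rf (nat_lit 4923) (nat_lit 407901468851537952)) (.cons (.rf (nat_lit 4880) (nat_lit 220750232875705345)) (.cons (.rf (nat_lit 4549) (nat_lit 12289)) .nil)))))) (.cons (.rf (nat_lit 4549) (nat_lit 12289)) .nil))))))),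
 (.br (nat_lit 1) (nat_lit 0) (.cons (.rf (nat_lit 4903) (nat_lit 407901468851537952)) (.cons (.rf (nat_lit 4913) (nat_lit 407901468851537952)) (.cons (.rf (nat_lit 4923) (nat_lit 407901468851537952)) (.cons (.rf (nat_lit 4903) (nat_lit 407654113027990560)) (.cons (.rf (nat_lit 4924) (nat_lit 407901468851537952)) (.cons (.rf (nat_lit 4924) (nat_lit 372998571739416608)) (.cons (.rf (nat_lit 4549) (nat_lit 12289)) .nil)))))))),
 (.br (nat_lit 6) (nat_lit 0) (.cons (.ev (nat_lit 282574488403969) (nat_lit 1)) (.cons (.ev (nat_lit 282574488404224) (nat_lit 1)) (.cons (.br (nat_lit 9) (nat_lit 0) (.cons (.rf (nat_lit 4562) (nat_lit 13578851715104)) (.cons (.rf (nat_lit 4562) (nat_lit 13544493025281)) (.cons (.br (nat_lit 10) (nat_lit 0) (.cons (.rf (nat_lit 4572) (nat_lit 13581972277280)) (.cons (.br (nat_lit 11) (nat_lit 0) (.cons (.ev (nat_lit 79538856449977636360458141953) (nat_lit 1)) (.cons (.rf (nat_lit 4557) (nat_lit 470907036502048)) .nil))) (.cons (.rf (nat_lit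 4712) (nat_lit 482208559727446048)) .nil)))) (.cons (.rf (nat_lit 4568) (nat_lit 470978809432096)) .nil))))) .nil)))),
 (.br (nat_lit 6) (nat_lit 0) (.cons (.ev (nat_lit 282574488403969) (nat_lit 1)) (.cons (.rf (nat_lit 4576) (nat_lit 281660393504)) (.cons (.rf (nat_lit 4556) (nat_lit 393910955411488)) .nil)))),
 (.br (nat_lit 1) (nat_lit 0) (.cons (.rf (nat_lit 4880) (nat_lit 407901468851537921)) (.cons (.rf (nat_lit 4925) (nat_lit 407901468851537921)) (.cons (.kr (nat_lit 1) (nat_lit 256) (nat_lit 0) (nat_lit 2)) (.cons (.br (nat_lit 6) (nat_lit 0) (.cons (.rf (nat_lit 4926) (nat_lit 407901468851537952)) (.cons (.rf (nat_lit 4927) (nat_lit 12746885433493536)) (.cons (.rf (nat_lit 4927) (nat_lit 11656169898739713)) (.cons (.br (nat_lit 6) (nat_lit 0) (.cons (.rf (nat_lit 4926) (nat_lit 407901468851537952)) (.cons (.rf (nat_lit 4556) (nat_lit 429130762029088)) (.cons (.rf (nat_lit 4556) (nat_lit 429129689335809)) (.cons (.rf (nat_lit 4720) (nat_lit 482208559727446048))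 .nil))))) .nil))))) (.cons (.rf (nat_lit 4549) (nat_lit 12289)) .nil)))))),
 (.br (nat_lit 9) (nat_lit 0) (.cons (.br (nat_lit 10) (nat_lit 0) (.cons (.ev (nat_lit 1242785205816170256775120390) (nat_lit 3)) (.cons (.rf (nat_lit 4654) (nat_lit 13581972213792)) .nil))) (.cons (.br (nat_lit 6) (nat_lit 0) (.cons (.ev (nat_lit 1861745780870016448669680640) (nat_lit 3)) (.cons (.rf (nat_lit 4624) (nat_lit 13581972277280)) .nil))) (.cons (.kr (nat_lit 9463179710912511737856) (nat_lit 618970019714747740094201856) (nat_lit 2) (nat_lit 0)) (.cons (.br (nat_lit 10) (nat_lit 0) (.cons (.rf (nat_lit 4736) (nat_lit 13547606476801)) (.cons (.rf (nat_lit 4736) (nat_lit 13547774085121)) (.cons (.br (nat_lit 6) (nat_lit 0) (.cons (.rf (nat_lit 4622) (nat_lit 13341589440513)) (.cons (.br (nat_lit 11) (nat_lit 0) (.cons (.ev (nat_lit 159080159104168093373440328192) (nat_lit 3)) (.cons (.rf (nat_lit 4655) (nat_lit 436722317987872)) .nil))) (.cons (.rf (nat_lit 4655) (nat_lit 436893948907552))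 .nil)))) (.cons (.rf (nat_lit 4726) (nat_lit 470912166332448)) .nil))))) .nil))))),
 (.br (nat_lit 6) (nat_lit 0) (.cons (.rf (nat_lit 4656) (nat_lit 13547546417153)) (.cons (.rf (nat_lit 4622) (nat_lit 13547546544129)) (.cons (.br (nat_lit 12) (nat_lit 0) (.cons (.rf (nat_lit 4634) (nat_lit 470978809432096)) (.cons (.rf (nat_lit 4634) (nat_lit 470944383698945)) (.cons (.rf (nat_lit 4880) (nat_lit 407654113027990956)) .nil)))) (.cons (.br (nat_lit 10) (nat_lit 0) (.cons (.zr (nat_lit 18889970334636930499074) (nat_lit 1242775761011712080929095680) (nat_lit 20) (nat_lit 2)) (.cons (.rf (nat_lit 4858) (nat_lit 15069191436634144)) (.cons (.br (nat_lit 11) (nat_lit 0) (.cons (.ev (nat_lit 4349752897291614013439869956) (nat_lit 4)) (.cons (.rf (nat_lit 4610) (nat_lit 436827376977952)) .nil))) .nil)))) .nil))))),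
 (.br (nat_lit 1) (nat_lit 0) (.cons (.rf (nat_lit 4880) (nat_lit 407901468851537921)) (.cons (.rf (nat_lit 4925) (nat_lit 407901466706151425)) (.cons (.rf (nat_lit 4928) (nat_lit 220998653817620512)) (.cons (.br (nat_lit 9) (nat_lit 0) (.cons (.rf (nat_lit 4929) (nat_lit 407901468851537952)) (.cons (.rf (nat_lit 4929) (nat_lit 372998569594030081)) (.cons (.rf (nat_lit 4929) (nat_lit 220998653817620512)) (.cons (.rf (nat_lit 4929) (nat_lit 151192858520684545)) (.cons (.br (nat_lit 9) (nat_lit 0) (.cons (.rf (nat_lit 4929) (nat_lit 407901468851537952)) (.cons (.rf (nat_lit 4929) (nat_lit 372998569594030081)) (.cons (.rf (nat_lit 4929) (nat_lit 220998653817620512)) (.cons (.rf (nat_lit 4929) (nat_lit 151192858520684545)) (.cons (.br (nat_lit 12) (nat_lit 0) (.cons (.rf (nat_lit 4930) (nat_lit 493858305440582043680)) (.cons (.rf (nat_lit 4930) (nat_lit 493823402541324535809)) (.cons (.rf (nat_lit 4930) (nat_lit 493671402625548126240)) (.cons (.rf (nat_lit 4930) (nat_lit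 493601596830251190273)) (.cons (.br (nat_lit 12) (nat_lit 0) (.cons (.rf (nat_lit 4930) (nat_lit 493858305440582043680)) (.cons (.rf (nat_lit 4930) (nat_lit 493823402541324535809)) (.cons (.rf (nat_lit 4930) (nat_lit 493671402625548126240)) (.cons (.rf (nat_lit 4930) (nat_lit 493601596830251190273)) .nil))))) .nil)))))) .nil)))))) .nil)))))) (.cons (.rf (nat_lit 4549) (nat_lit 12289)) .nil)))))),
 (.br (nat_lit 1) (nat_lit 0) (.cons (.rf (nat_lit 4925) (nat_lit 407901468851537921)) (.cons (.rf (nat_lit 4925) (nat_lit 407901466706151425)) (.cons (.rf (nat_lit 4925) (nat_lit 220998653817620481)) (.cons (.rf (nat_lit 4925) (nat_lit 220998652744927233)) (.cons (.rf (nat_lit 4549) (nat_lit 12289)) .nil)))))),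
 (.br (nat_lit 1) (nat_lit 0) (.cons (.rf (nat_lit 4928) (nat_lit 407901468851537952)) (.cons (.rf (nat_lit 4931) (nat_lit 407901468851537952)) (.cons (.rf (nat_lit 4932) (nat_lit 407901468851537952)) (.cons (.rf (nat_lit 4928) (nat_lit 220998653817620512)) (.cons (.rf (nat_lit 4931) (nat_lit 220998653817620512)) (.cons (.rf (nat_lit 4549) (nat_lit 12289)) .nil))))))),
 (.br (nat_lit 9) (nat_lit 0) (.cons (.ev (nat_lit 4722438541567506513921) (nat_lit 1)) (.cons (.ev (nat_lit 4722438541567506514176) (nat_lit 1)) (.cons (.br (nat_lit 11) (nat_lit 0) (.cons (.zr (nat_lit 1208962785161470143365122) (nat_lit 928455029464035214764278016) (nat_lit 5) (nat_lit 10)) (.cons (.zr (nat_lit 1208962785161470143365632) (nat_lit 928455029464035214764277761) (nat_lit 5) (nat_lit 10)) (.cons (.br (nat_lit 2) (nat_lit 0) (.cons (.rf (nat_lit 4572) (nat_lit 13412413542432)) (.cons (.br (nat_lit 6) (nat_lit 0) (.cons (.ev (nat_lit 79537647542604766908799582465) (nat_lit 1)) (.cons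 (.rf (nat_lit 4557) (nat_lit 470978801242144)) .nil))) (.cons (.rf (nat_lit 4712) (nat_lit 482282435146485792)) .nil)))) (.cons (.rf (nat_lit 4568) (nat_lit 470809250697248)) .nil))))) .nil)))),
 (.br (nat_lit 12) (nat_lit 0) (.cons (.ev (nat_lit 309485009821345068741624064) (nat_lit 1)) (.cons (.rf (nat_lit 4932) (nat_lit 407901468851538317)) .nil))),
 (.br (nat_lit 1) (nat_lit 0) (.cons (.rf (nat_lit 4880) (nat_lit 407901468851537921)) (.cons (.rf (nat_lit 4880) (nat_lit 407654113027990529)) (.cons (.br (nat_lit 9) (nat_lit 0) (.cons (.rf (nat_lit 4927) (nat_lit 6837975835119648)) (.cons (.rf (nat_lit 4927) (nat_lit 2475113696104449)) (.cons (.rf (nat_lit 4934) (nat_lit 407901468851537952)) (.cons (.br (nat_lit 9) (nat_lit 0) (.cons (.rf (nat_lit 4556) (nat_lit 432492706598944)) (.cons (.rf (nat_lit 4556) (nat_lit 432488415825921)) (.cons (.rf (nat_lit 4934) (nat_lit 407901468851537952)) (.cons (.rf (nat_lit 4720) (nat_lit 482282435146485792)) .nil))))) .nil)))))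 (.cons (.br (nat_lit 6) (nat_lit 0) (.cons (.br (nat_lit 10) (nat_lit 0) (.cons (.br (nat_lit 9) (nat_lit 0) (.cons (.ev (nat_lit 309489732260167011679600896) (nat_lit 1)) (.cons (.rf (nat_lit 4736) (nat_lit 13272734863361)) .nil))) (.cons (.rf (nat_lit 4799) (nat_lit 389002954784)) (.cons (.rf (nat_lit 4656) (nat_lit 13272869902337)) .nil)))) (.cons (.br (nat_lit 10) (nat_lit 0) (.cons (.ev (nat_lit 282574488403969) (nat_lit 1)) (.cons (.ev (nat_lit 4722438541567506514176) (nat_lit 1)) (.cons (.br (nat_lit 2) (nat_lit 0) (.cons (.ev (nat_lit 311902861461422059146051841) (nat_lit 2)) (.cons (.rf (nat_lit 4656) (nat_lit 13547474136065)) .nil))) (.cons (.rf (nat_lit 4755) (nat_lit 443933560211085313)) .nil))))) (.cons (.rf (nat_lit 4904) (nat_lit 335914170610456577)) (.cons (.br (nat_lit 2) (nat_lit 0) (.cons (.br (nat_lit 10) (nat_lit 0) (.cons (.ev (nat_lit 623805741873992449762000900) (nat_lit 3)) (.cons (.rf (nat_lit 4622) (nat_lit 13272869965825)) .nil))) (.cons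 (.rf (nat_lit 4800) (nat_lit 389002954784)) (.cons (.rf (nat_lit 4622) (nat_lit 13547479437313)) .nil)))) (.cons (.br (nat_lit 2) (nat_lit 0) (.cons (.br (nat_lit 10) (nat_lit 0) (.cons (.rf (nat_lit 4624) (nat_lit 13581972213792)) (.cons (.rf (nat_lit 4656) (nat_lit 13581963896864)) (.cons (.br (nat_lit 9) (nat_lit 0) (.cons (.ev (nat_lit 4722438541567506513921) (nat_lit 1)) (.cons (.zr (nat_lit 4722438540463699984385) (nat_lit 1208944266359806690852864) (nat_lit 5) (nat_lit 2)) (.cons (.rf (nat_lit 4726) (nat_lit 436827238764576)) .nil)))) (.cons (.rf (nat_lit 4655) (nat_lit 470978809432096)) .nil))))) (.cons (.rf (nat_lit 4622) (nat_lit 13581972213792)) (.cons (.rf (nat_lit 4656) (nat_lit 13581972277280)) (.cons (.br (nat_lit 11) (nat_lit 0) (.cons (.br (nat_lit 9) (nat_lit 0) (.cons (.ev (nat_lit 1237968392293003892761952260) (nat_lit 3)) (.cons (.br (nat_lit 10) (nat_lit 0) (.cons (.ev (nat_lit 1109825334496923072044919685130) (nat_lit 4)) (.cons (.rf (nat_lit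 4655) (nat_lit 436584841358337)) .nil))) (.cons (.rf (nat_lit 4726) (nat_lit 436826462687233)) .nil)))) (.cons (.rf (nat_lit 4656) (nat_lit 13581963896864)) (.cons (.ev (nat_lit 309485028340147835983954176) (nat_lit 1)) (.cons (.br (nat_lit 10) (nat_lit 0) (.cons (.rf (nat_lit 4655) (nat_lit 436722309670944)) (.cons (.rf (nat_lit 4858) (nat_lit 15069025006587936)) (.cons (.br (nat_lit 9) (nat_lit 0) (.cons (.rf (nat_lit 4935) (nat_lit 493858305440582043680)) (.cons (.br (nat_lit 12) (nat_lit 0) (.cons (.rf (nat_lit 4935) (nat_lit 493858305440582043680)) (.cons (.ev (nat_lit 40566059565212784827543027187714) (nat_lit 3)) .nil))) .nil))) .nil)))) .nil))))) (.cons (.br (nat_lit 11) (nat_lit 0) (.cons (.rf (nat_lit 4655) (nat_lit 436859450829825)) (.cons (.rf (nat_lit 4656) (nat_lit 13581963896864)) (.cons (.rf (nat_lit 4858) (nat_lit 15069152783044609)) (.cons (.ev (nat_lit 309485028340147835983954176) (nat_lit 1)) .nil))))) .nil)))))) .nil)))))) (.cons (.rf (nat_lit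 4549) (nat_lit 12289)) .nil)))))),
 (.br (nat_lit 9) (nat_lit 0) (.cons (.zr (nat_lit 7705288770050) (nat_lit 28352718261835572576256) (nat_lit 20) (nat_lit 4)) (.cons (.br (nat_lit 6) (nat_lit 0) (.cons (.ev (nat_lit 309489732260167011679600896) (nat_lit 1)) (.cons (.rf (nat_lit 4736) (nat_lit 13544483819521)) .nil))) (.cons (.ev (nat_lit 309485028340147835983954176) (nat_lit 1)) (.cons (.br (nat_lit 10) (nat_lit 0) (.cons (.rf (nat_lit 4624) (nat_lit 13578851651616)) (.cons (.rf (nat_lit 4656) (nat_lit 13578843334688)) (.cons (.br (nat_lit 6) (nat_lit 0) (.cons (.ev (nat_lit 626233037957394104184079878) (nat_lit 3)) (.cons (.ev (nat_lit 1208925891954802012782848) (nat_lit 1)) (.cons (.rf (nat_lit 4726) (nat_lit 436724162695200)) .nil)))) (.cons (.rf (nat_lit 4655) (nat_lit 470975688869920)) .nil))))) .nil))))),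
 (.br (nat_lit 6) (nat_lit 0) (.cons (.rf (nat_lit 4937) (nat_lit 407901468851537952)) (.cons (.rf (nat_lit 4937) (nat_lit 372751215915869185)) (.cons (.rf (nat_lit 4907) (nat_lit 10522575590533152)) (.cons (.br (nat_lit 2) (nat_lit 0) (.cons (.ev (nat_lit 1213666704899166584176641) (nat_lit 1)) (.cons (.rf (nat_lit 4736) (nat_lit 13269681344513)) (.cons (.br (nat_lit 9) (nat_lit 0) (.cons (.ev (nat_lit 1237968392293003892761952260) (nat_lit 3)) (.cons (.rf (nat_lit 4657) (nat_lit 444951577049139232)) (.cons (.rf (nat_lit 4655) (nat_lit 436890820028448)) .nil)))) (.cons (.rf (nat_lit 4726) (nat_lit 470809291329568)) .nil))))) .nil))))),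
 (.br (nat_lit 9) (nat_lit 0) (.cons (.rf (nat_lit 4656) (nat_lit 13544258151425)) (.cons (.rf (nat_lit 4622) (nat_lit 13544258310145)) (.cons (.br (nat_lit 12) (nat_lit 0) (.cons (.rf (nat_lit 4634) (nat_lit 470975688806432)) (.cons (.rf (nat_lit 4634) (nat_lit 470941095464961)) (.cons (.rf (nat_lit 4932) (nat_lit 407901468851538317)) .nil)))) (.cons (.br (nat_lit 10) (nat_lit 0) (.cons (.rf (nat_lit 4656) (nat_lit 14678354962464)) (.cons (.rf (nat_lit 4858) (nat_lit 15065896055803936)) (.cons (.br (nat_lit 12) (nat_lit 0) (.cons (.zr (nat_lit 14167315621391099953409) (nat_lit 621387908175691230102945792) (nat_lit 10) (nat_lit 2)) (.cons (.kr (nat_lit 18447308123174600706) (nat_lit 40564819207303412905497147211776) (nat_lit 0) (nat_lit 1)) .nil))) .nil)))) .nil))))),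
 (.br (nat_lit 2) (nat_lit 0) (.cons (.rf (nat_lit 4656) (nat_lit 13269648679937)) (.cons (.rf (nat_lit 4656) (nat_lit 13269646584833)) (.cons (.rf (nat_lit 4939) (nat_lit 493858305440582043680)) (.cons (.rf (nat_lit 4939) (nat_lit 458117738797769787424)) .nil))))),
 (.br (nat_lit 1) (nat_lit 0) (.cons (.rf (nat_lit 4932) (nat_lit 407901468851537952)) (.cons (.rf (nat_lit 4880) (nat_lit 407654113027990529)) (.cons (.kr (nat_lit 18446745173221179394) (nat_lit 72057594054705664) (nat_lit 0) (nat_lit 2)) (.cons (.br (nat_lit 6) (nat_lit 0) (.cons (.rf (nat_lit 4937) (nat_lit 407901468851537952)) (.cons (.rf (nat_lit 4937) (nat_lit 372751215915869185)) (.cons (.rf (nat_lit 4938) (nat_lit 407901468851537952)) (.cons (.rf (nat_lit 4938) (nat_lit 372751215915869185)) (.cons (.br (nat_lit 6) (nat_lit 0) (.cons (.rf (nat_lit 4937) (nat_lit 407901468851537952)) (.cons (.rf (nat_lit 4937) (nat_lit 372751215915869185)) (.cons (.rf (nat_lit 4938) (nat_lit 407901468851537952))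 (.cons (.rf (nat_lit 4938) (nat_lit 372751215915869185)) (.cons (.br (nat_lit 12) (nat_lit 0) (.cons (.rf (nat_lit 4939) (nat_lit 493858305440582043680)) (.cons (.rf (nat_lit 4939) (nat_lit 493823155187646374913)) (.cons (.rf (nat_lit 4940) (nat_lit 493858305440582043680)) (.cons (.rf (nat_lit 4940) (nat_lit 493823155187646374913)) (.cons (.br (nat_lit 12) (nat_lit 0) (.cons (.rf (nat_lit 4939) (nat_lit 493858305440582043680)) (.cons (.rf (nat_lit 4939) (nat_lit 493823155187646374913)) (.cons (.rf (nat_lit 4940) (nat_lit 493858305440582043680)) (.cons (.rf (nat_lit 4940) (nat_lit 493823155187646374913)) .nil))))) .nil)))))) .nil)))))) .nil)))))) (.cons (.rf (nat_lit 4549) (nat_lit 12289)) .nil)))))),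
 (.br (nat_lit 1) (nat_lit 0) (.cons (.rf (nat_lit 4933) (nat_lit 407901468851537952)) (.cons (.rf (nat_lit 4936) (nat_lit 407901468851537952)) (.cons (.rf (nat_lit 4941) (nat_lit 407901468851537952)) (.cons (.br (nat_lit 1) (nat_lit 0) (.cons (.kr (nat_lit 1) (nat_lit 256) (nat_lit 0) (nat_lit 2)) (.cons (.rf (nat_lit 4936) (nat_lit 407901468851537952)) (.cons (.kr (nat_lit 18446745173221179394) (nat_lit 72057594054705664) (nat_lit 0) (nat_lit 2)) (.cons (.rf (nat_lit 4936) (nat_lit 220998653817620512)) (.cons (.rf (nat_lit 4549) (nat_lit 12289)) .nil)))))) (.cons (.br (nat_lit 1) (nat_lit 0) (.cons (.rf (nat_lit 4933) (nat_lit 407901468851537952)) (.cons (.rf (nat_lit 4936) (nat_lit 407901468851537952)) (.cons (.rf (nat_lit 4941) (nat_lit 407901468851537952)) (.cons (.rf (nat_lit 4936) (nat_lit 220998653817620512)) (.cons (.rf (nat_lit 4549) (nat_lit 12289)) .nil)))))) (.cons (.rf (nat_lit 4549) (nat_lit 12289)) .nil))))))),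
 (.br (nat_lit 6) (nat_lit 0) (.cons (.ev (nat_lit 1223093136083743689212416) (nat_lit 2)) (.cons (.ev (nat_lit 1208925891954802012782848) (nat_lit 1)) (.cons (.rf (nat_lit 4664) (nat_lit 470978809432096)) .nil)))),
 (.br (nat_lit 10) (nat_lit 0) (.cons (.ev (nat_lit 2417870086536290619228931) (nat_lit 2)) (.cons (.ev (nat_lit 2427296444253691189396227) (nat_lit 2)) (.cons (.ev (nat_lit 621387871353978097938596611) (nat_lit 2)) (.cons (.br (nat_lit 12) (nat_lit 0) (.cons (.ev (nat_lit 1208944338698875705556993) (nat_lit 1)) (.cons (.rf (nat_lit 4943) (nat_lit 14242959524133701664)) (.cons (.br (nat_lit 12) (nat_lit 0) (.cons (.ev (nat_lit 1208944266640182156001536) (nat_lit 1)) (.cons (.rf (nat_lit 4943) (nat_lit 14242959524133701664)) (.cons (.rf (nat_lit 4769) (nat_lit 470978939455520)) .nil)))) (.cons (.rf (nat_lit 4769) (nat_lit 470978939455520)) .nil))))) .nil))))),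
 (.br (nat_lit 12) (nat_lit 0) (.cons (.br (nat_lit 10) (nat_lit 0) (.cons (.ev (nat_lit 79537647542604766908799582465) (nat_lit 1)) (.cons (.rf (nat_lit 4826) (nat_lit 470979807844353)) .nil))) (.cons (.br (nat_lit 6) (nat_lit 0) (.cons (.ev (nat_lit 159077722344615621223373603075) (nat_lit 2)) (.cons (.rf (nat_lit 4917) (nat_lit 470978939455520)) .nil))) (.cons (.ev (nat_lit 618979482822399976270071047) (nat_lit 3)) (.cons (.rf (nat_lit 4932) (nat_lit 407901468851538317)) .nil))))),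
 (.br (nat_lit 4) (nat_lit 0) (.cons (.rf (nat_lit 4772) (nat_lit 8972261329952)) (.cons (.rf (nat_lit 4824) (nat_lit 325633753357313)) (.cons (.rf (nat_lit 4668) (nat_lit 291578993318913)) .nil))))]

theorem c180 : chkAll C T R L180 (nat_lit 4923) = true := by decide +kernel

theorem l180 : (nat_lit 4923) + L180.length = (nat_lit 4947) := by decide +kernel

/-- part of the certificates -/
def L181 : List Prf := [(.br (nat_lit 10) (nat_lit 0) (.cons (.rf (nat_lit 4946) (nat_lit 470801743939616)) (.cons (.rf (nat_lit 4946) (nat_lit 470973537388576)) (.cons (.rf (nat_lit 4917) (nat_lit 470975721375776)) (.cons (.br (nat_lit 6) (nat_lit 0) (.cons (.zr (nat_lit 4722510598057754689792) (nat_lit 310693954087986350392344576) (nat_lit 5) (nat_lit 2)) (.cons (.ev (nat_lit 2446185911876218653902597) (nat_lit 3)) (.cons (.br (nat_lit 11) (nat_lit 0) (.cons (.br (nat_lit 12) (nat_lit 0) (.cons (.ev (nat_lit 952602113804405259274295967756) (nat_lit 4)) .nil)) (.cons (.ev (nat_lit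 623834076000263634707154693) (nat_lit 3)) .nil))) .nil)))) .nil))))),
 (.br (nat_lit 1) (nat_lit 0) (.cons (.rf (nat_lit 4932) (nat_lit 407901468851537952)) (.cons (.rf (nat_lit 4880) (nat_lit 407654113027990529)) (.cons (.rf (nat_lit 4942) (nat_lit 220998653817620512)) (.cons (.br (nat_lit 2) (nat_lit 0) (.cons (.rf (nat_lit 4944) (nat_lit 407901468851537952)) (.cons (.ev (nat_lit 72621643503108867) (nat_lit 2)) (.cons (.br (nat_lit 4) (nat_lit 0) (.cons (.br (nat_lit 10) (nat_lit 0) (.cons (.ev (nat_lit 2427315035680318205329922) (nat_lit 3)) (.cons (.rf (nat_lit 4772) (nat_lit 13578884220960)) .nil))) (.cons (.br (nat_lit 6) (nat_lit 0) (.cons (.ev (nat_lit 7263018458256204890505220) (nat_lit 3)) (.cons (.rf (nat_lit 4768) (nat_lit 13412186001440)) .nil))) (.cons (.ev (nat_lit 4722366482873956958464) (nat_lit 1)) (.cons (.br (nat_lit 10) (nat_lit 0) (.cons (.ev (nat_lit 282574488403969) (nat_lit 1)) (.cons (.rf (nat_lit 4772) (nat_lit 13412253108256)) (.cons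 (.br (nat_lit 6) (nat_lit 0) (.cons (.ev (nat_lit 621387871353978097938596097) (nat_lit 2)) (.cons (.ev (nat_lit 7263018530312699416805635) (nat_lit 3)) (.cons (.rf (nat_lit 4946) (nat_lit 470911164682272)) .nil)))) (.cons (.rf (nat_lit 4824) (nat_lit 470946596128800)) .nil))))) .nil))))) (.cons (.rf (nat_lit 4944) (nat_lit 220998653817620512)) (.cons (.ev (nat_lit 618970038089434211176022787) (nat_lit 2)) (.cons (.br (nat_lit 9) (nat_lit 0) (.cons (.ev (nat_lit 9463179709821606691587) (nat_lit 2)) (.cons (.rf (nat_lit 4944) (nat_lit 372751213770482689)) (.cons (.ev (nat_lit 2427296444253691189396227) (nat_lit 2)) (.cons (.rf (nat_lit 4944) (nat_lit 150944437578769409)) (.cons (.br (nat_lit 12) (nat_lit 0) (.cons (.rf (nat_lit 4945) (nat_lit 14242959524133701664)) (.cons (.rf (nat_lit 4945) (nat_lit 14207809269052646401)) (.cons (.rf (nat_lit 4945) (nat_lit 14056056709099784224)) (.cons (.rf (nat_lit 4945) (nat_lit 13986002492860933121)) (.cons (.rf (nat_lit 4932)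 (nat_lit 407901468851538317)) .nil)))))) (.cons (.br (nat_lit 4) (nat_lit 0) (.cons (.rf (nat_lit 4946) (nat_lit 470808186193952)) (.cons (.rf (nat_lit 4664) (nat_lit 470975680679968)) (.cons (.rf (nat_lit 4946) (nat_lit 470979979642912)) (.cons (.rf (nat_lit 4947) (nat_lit 493858305440582043680)) (.cons (.br (nat_lit 11) (nat_lit 0) (.cons (.rf (nat_lit 4664) (nat_lit 436854085490689)) (.cons (.rf (nat_lit 4824) (nat_lit 470738292254752)) (.cons (.ev (nat_lit 618979482822399976270071047) (nat_lit 3)) (.cons (.rf (nat_lit 4947) (nat_lit 457860781766497018881)) .nil))))) .nil)))))) .nil))))))) .nil))))))) (.cons (.rf (nat_lit 4549) (nat_lit 12289)) .nil)))))),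
 (.br (nat_lit 1) (nat_lit 0) (.cons (.rf (nat_lit 4933) (nat_lit 407901468851537952)) (.cons (.rf (nat_lit 4942) (nat_lit 407901468851537952)) (.cons (.rf (nat_lit 4948) (nat_lit 407901468851537952)) (.cons (.rf (nat_lit 4942) (nat_lit 220998653817620512)) (.cons (.br (nat_lit 1) (nat_lit 0) (.cons (.rf (nat_lit 4933) (nat_lit 407901468851537952)) (.cons (.rf (nat_lit 4942) (nat_lit 407901468851537952)) (.cons (.rf (nat_lit 4948) (nat_lit 407901468851537952)) (.cons (.rf (nat_lit 4942) (nat_lit 220998653817620512)) (.cons (.rf (nat_lit 4549) (nat_lit 12289)) .nil)))))) (.cons (.rf (nat_lit 4549) (nat_lit 12289)) .nil))))))),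
 (.br (nat_lit 1) (nat_lit 0) (.cons (.rf (nat_lit 4933) (nat_lit 407901468851537952)) (.cons (.rf (nat_lit 4942) (nat_lit 407901468851537952)) (.cons (.rf (nat_lit 4949) (nat_lit 407901468851537952)) (.cons (.br (nat_lit 1) (nat_lit 0) (.cons (.rf (nat_lit 4932) (nat_lit 407901468851537952)) (.cons (.rf (nat_lit 4942) (nat_lit 407901468851537952)) (.cons (.rf (nat_lit 4949) (nat_lit 407901468851537952)) (.cons (.rf (nat_lit 4942) (nat_lit 220998653817620512)) (.cons (.rf (nat_lit 4949) (nat_lit 220998653817620512)) (.cons (.rf (nat_lit 4549) (nat_lit 12289)) .nil))))))) (.cons (.rf (nat_lit 4942) (nat_lit 220998653817620512)) (.cons (.rf (nat_lit 4949) (nat_lit 220998653817620512)) (.cons (.rf (nat_lit 4549) (nat_lit 12289)) .nil)))))))),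
 (.br (nat_lit 0) (nat_lit 0) (.cons (.rf (nat_lit 4880) (nat_lit 407901468851537952)) (.cons (.rf (nat_lit 4932) (nat_lit 407901468851537921)) (.cons (.rf (nat_lit 4950) (nat_lit 407901468851537952)) (.cons (.rf (nat_lit 4950) (nat_lit 372998571739416608)) (.cons (.rf (nat_lit 4549) (nat_lit 12320)) .nil)))))),
 (.br (nat_lit 10) (nat_lit 1) (.cons (.br (nat_lit 11) (nat_lit 1) (.cons (.br (nat_lit 0) (nat_lit 0) (.cons (.rf (nat_lit 4951) (nat_lit 407901468851537952)) (.cons (.rf (nat_lit 4951) (nat_lit 407901466706151456)) (.cons (.rf (nat_lit 4932) (nat_lit 407901468851537921)) (.cons (.rf (nat_lit 4951) (nat_lit 220998653817620512)) (.cons (.rf (nat_lit 4951) (nat_lit 220998652744927264)) (.cons (.rf (nat_lit 4549) (nat_lit 12320)) .nil))))))) .nil)) .nil)),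
 (.br (nat_lit 8) (nat_lit 0) (.cons (.br (nat_lit 8) (nat_lit 0) (.cons (.br (nat_lit 8) (nat_lit 0) (.cons (.br (nat_lit 5) (nat_lit 0) (.cons (.rf (nat_lit 4952) (nat_lit 407901468851537952)) (.cons (.rf (nat_lit 4952) (nat_lit 406810753316784160)) (.cons (.rf (nat_lit 4952) (nat_lit 370817140669909024)) .nil)))) .nil)) .nil)) .nil)),
 (.br (nat_lit 7) (nat_lit 0) (.cons (.rf (nat_lit 4953) (nat_lit 9043225708576)) (.cons (.br (nat_lit 7) (nat_lit 0) (.cons (.rf (nat_lit 4953) (nat_lit 9043225708576)) (.cons (.br (nat_lit 7) (nat_lit 0) (.cons (.rf (nat_lit 4953) (nat_lit 9043225708576)) (.cons (.rf (nat_lit 1056) (nat_lit 398341278175330)) .nil))) .nil))) .nil))),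
 (.br (nat_lit 4) (nat_lit 0) (.cons (.rf (nat_lit 4846) (nat_lit 6545347616)) .nil)),
 (.br (nat_lit 9) (nat_lit 1) (.cons (.rf (nat_lit 4955) (nat_lit 305399840)) (.cons (.br (nat_lit 10) (nat_lit 1) (.cons (.rf (nat_lit 4955) (nat_lit 338954272)) (.cons (.rf (nat_lit 4955) (nat_lit 341025824)) (.cons (.rf (nat_lit 4955) (nat_lit 343057440)) (.cons (.rf (nat_lit 4955) (nat_lit 344033312)) .nil))))) (.cons (.rf (nat_lit 4955) (nat_lit 310478880)) .nil)))),
 (.br (nat_lit 0) (nat_lit 0) (.cons (.rf (nat_lit 4955) (nat_lit 137627680)) (.cons (.rf (nat_lit 4955) (nat_lit 204736544)) (.cons (.rf (nat_lit 4549) (nat_lit 9248)) (.cons (.br (nat_lit 0) (nat_lit 0) (.cons (.rf (nat_lit 4955) (nat_lit 137627680)) (.cons (.rf (nat_lit 4955) (nat_lit 204736544)) (.cons (.rf (nat_lit 4549) (nat_lit 10272)) (.cons (.br (nat_lit 9) (nat_lit 1) (.cons (.rf (nat_lit 4956) (nat_lit 11584701642934304)) (.cons (.rf (nat_lit 4956) (nat_lit 11584630845179936)) (.cons (.rf (nat_lit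 4955) (nat_lit 310478880)) .nil)))) .nil))))) .nil))))),
 (.br (nat_lit 4) (nat_lit 0) (.cons (.ev (nat_lit 18952841596691154438) (nat_lit 3)) (.cons (.br (nat_lit 10) (nat_lit 0) (.cons (.ev (nat_lit 309485009822190606101971456) (nat_lit 2)) (.cons (.rf (nat_lit 4586) (nat_lit 13515329177601)) .nil))) (.cons (.rf (nat_lit 4556) (nat_lit 426999450634272)) .nil)))),
 (.br (nat_lit 11) (nat_lit 0) (.cons (.rf (nat_lit 4562) (nat_lit 13542410618912)) (.cons (.rf (nat_lit 4562) (nat_lit 13508051929089)) (.cons (.ev (nat_lit 309485065233916371753042177) (nat_lit 2)) (.cons (.rf (nat_lit 4568) (nat_lit 470946529085472)) .nil))))),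
 (.br (nat_lit 1) (nat_lit 0) (.cons (.rf (nat_lit 4954) (nat_lit 8974571245569)) (.cons (.kr (nat_lit 1) (nat_lit 256) (nat_lit 0) (nat_lit 2)) (.cons (.br (nat_lit 4) (nat_lit 0) (.cons (.rf (nat_lit 4958) (nat_lit 407901468851537952)) (.cons (.rf (nat_lit 4958) (nat_lit 406810753316784129)) (.cons (.br (nat_lit 4) (nat_lit 0) (.cons (.rf (nat_lit 4958) (nat_lit 407901468851537952)) (.cons (.rf (nat_lit 4958) (nat_lit 406810753316784129)) (.cons (.rf (nat_lit 4959) (nat_lit 14242959524133701664)) .nil)))) (.cons (.br (nat_lit 4) (nat_lit 0) (.cons (.rf (nat_lit 4556) (nat_lit 426999450634272)) (.cons (.rf (nat_lit 4556) (nat_lit 426998377940993)) (.cons (.rf (nat_lit 4959) (nat_lit 14242959524133701664)) (.cons (.rf (nat_lit 4720) (nat_lit 482276800281741344)) .nil))))) .nil))))) (.cons (.rf (nat_lit 4954) (nat_lit 5778981497857)) (.cons (.rf (nat_lit 4549) (nat_lit 12289)) .nil)))))),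
 (.br (nat_lit 4) (nat_lit 0) (.cons (.ev (nat_lit 1103806660609) (nat_lit 1)) (.cons (.br (nat_lit 10) (nat_lit 0) (.cons (.ev (nat_lit 621392593648966314959766275) (nat_lit 2)) (.cons (.rf (nat_lit 4586) (nat_lit 13412253108225)) .nil))) (.cons (.rf (nat_lit 4556) (nat_lit 426999447586848)) .nil)))),
 (.br (nat_lit 1) (nat_lit 0) (.cons (.rf (nat_lit 4954) (nat_lit 8974571245569)) (.cons (.kr (nat_lit 1) (nat_lit 256) (nat_lit 0) (nat_lit 2)) (.cons (.br (nat_lit 6) (nat_lit 0) (.cons (.rf (nat_lit 4961) (nat_lit 407901468851537952)) (.cons (.zr (nat_lit 1208925819896104151416835) (nat_lit 4722366482869645279744) (nat_lit 5) (nat_lit 6)) (.cons (.rf (nat_lit 4961) (nat_lit 155696453853087776)) (.cons (.br (nat_lit 10) (nat_lit 0) (.cons (.rf (nat_lit 4848) (nat_lit 434455510812704)) (.cons (.rf (nat_lit 4848) (nat_lit 426999313369120)) (.cons (.br (nat_lit 12) (nat_lit 0) (.cons (.rf (nat_lit 4747) (nat_lit 14207810196899800096)) (.cons (.rf (nat_lit 4747) (nat_lit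 14199925743838045216)) (.cons (.rf (nat_lit 4710) (nat_lit 482241615943206944)) .nil)))) (.cons (.rf (nat_lit 4749) (nat_lit 482249412251322400)) .nil))))) .nil))))) (.cons (.rf (nat_lit 4954) (nat_lit 5778981497857)) (.cons (.rf (nat_lit 4549) (nat_lit 12289)) .nil)))))),
 (.br (nat_lit 1) (nat_lit 0) (.cons (.rf (nat_lit 4954) (nat_lit 8974571245569)) (.cons (.rf (nat_lit 4960) (nat_lit 407901468851537952)) (.cons (.rf (nat_lit 4962) (nat_lit 407901468851537952)) (.cons (.br (nat_lit 1) (nat_lit 0) (.cons (.rf (nat_lit 4954) (nat_lit 8974571245569)) (.cons (.rf (nat_lit 4960) (nat_lit 407901468851537952)) (.cons (.rf (nat_lit 4962) (nat_lit 407901468851537952)) (.cons (.rf (nat_lit 4954) (nat_lit 5778981497857)) (.cons (.rf (nat_lit 4549) (nat_lit 12289)) .nil)))))) (.cons (.rf (nat_lit 4954) (nat_lit 5778981497857)) (.cons (.rf (nat_lit 4549) (nat_lit 12289)) .nil))))))),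
 (.br (nat_lit 1) (nat_lit 0) (.cons (.rf (nat_lit 4963) (nat_lit 403150517695587329)) (.cons (.rf (nat_lit 4954) (nat_lit 8974571245569)) (.cons (.rf (nat_lit 4963) (nat_lit 398787655556572161)) (.cons (.rf (nat_lit 4954) (nat_lit 5778981497857)) (.cons (.rf (nat_lit 4549) (nat_lit 12289)) .nil)))))),
 (.br (nat_lit 1) (nat_lit 0) (.cons (.rf (nat_lit 4964) (nat_lit 403150517695587329)) (.cons (.rf (nat_lit 4954) (nat_lit 8974571245569)) (.cons (.rf (nat_lit 4964) (nat_lit 398787655556572161)) (.cons (.br (nat_lit 1) (nat_lit 0) (.cons (.rf (nat_lit 4964) (nat_lit 403150517695587329)) (.cons (.rf (nat_lit 4954) (nat_lit 8974571245569)) (.cons (.rf (nat_lit 4964) (nat_lit 398787655556572161)) (.cons (.rf (nat_lit 4964) (nat_lit 407901468851537952)) (.cons (.rf (nat_lit 4954) (nat_lit 5778981497857)) (.cons (.rf (nat_lit 4549) (nat_lit 12289)) .nil))))))) (.cons (.br (nat_lit 1) (nat_lit 0) (.cons (.rf (nat_lit 4964) (nat_lit 403150517695587329)) (.cons (.rf (nat_lit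 4954) (nat_lit 8974571245569)) (.cons (.rf (nat_lit 4964) (nat_lit 398787655556572161)) (.cons (.rf (nat_lit 4964) (nat_lit 407901468851537952)) (.cons (.rf (nat_lit 4954) (nat_lit 5778981497857)) (.cons (.rf (nat_lit 4549) (nat_lit 12289)) .nil))))))) (.cons (.rf (nat_lit 4954) (nat_lit 5778981497857)) (.cons (.rf (nat_lit 4549) (nat_lit 12289)) .nil)))))))),
 (.br (nat_lit 0) (nat_lit 0) (.cons (.rf (nat_lit 4954) (nat_lit 8974571245600)) (.cons (.rf (nat_lit 4965) (nat_lit 407901468851537952)) (.cons (.rf (nat_lit 4965) (nat_lit 406810753316784160)) (.cons (.rf (nat_lit 4954) (nat_lit 5778981497888)) (.cons (.rf (nat_lit 4549) (nat_lit 12320)) .nil)))))),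
 (.br (nat_lit 0) (nat_lit 0) (.cons (.rf (nat_lit 4954) (nat_lit 8974571245600)) (.cons (.rf (nat_lit 4966) (nat_lit 407901468851537952)) (.cons (.rf (nat_lit 4966) (nat_lit 403150517695587360)) (.cons (.rf (nat_lit 4954) (nat_lit 5778981497888)) (.cons (.rf (nat_lit 4549) (nat_lit 12320)) .nil)))))),
 (.br (nat_lit 11) (nat_lit 1) (.cons (.br (nat_lit 2) (nat_lit 1) (.cons (.br (nat_lit 0) (nat_lit 0) (.cons (.rf (nat_lit 4954) (nat_lit 8974571245600)) (.cons (.rf (nat_lit 4966) (nat_lit 407901468851537952)) (.cons (.rf (nat_lit 4967) (nat_lit 407901468851537952)) (.cons (.rf (nat_lit 4967) (nat_lit 406810753316784160)) (.cons (.rf (nat_lit 4954) (nat_lit 5778981497888)) (.cons (.rf (nat_lit 4549) (nat_lit 12320)) .nil))))))) .nil)) .nil)),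
 (.br (nat_lit 10) (nat_lit 1) (.cons (.rf (nat_lit 4968) (nat_lit 407901468851537952)) (.cons (.br (nat_lit 11) (nat_lit 1) (.cons (.rf (nat_lit 4968) (nat_lit 372998571739416608)) (.cons (.rf (nat_lit 4968) (nat_lit 337004888294787104)) .nil))) .nil))),
 (.br (nat_lit 0) (nat_lit 0) (.cons (.rf (nat_lit 4549) (nat_lit 2080)) (.cons (.br (nat_lit 2) (nat_lit 1) (.cons (.br (nat_lit 3) (nat_lit 0) (.cons (.br (nat_lit 4) (nat_lit 1) (.cons (.br (nat_lit 3) (nat_lit 0) (.cons (.br (nat_lit 5) (nat_lit 1) (.cons (.rf (nat_lit 4955) (nat_lit 70422560)) (.cons (.br (nat_lit 3) (nat_lit 1) (.cons (.br (nat_lit 6) (nat_lit 1) (.cons (.rf (nat_lit 4954) (nat_lit 9043225708576)) (.cons (.br (nat_lit 8) (nat_lit 0) (.cons (.rf (nat_lit 4957) (nat_lit 9043225708576)) (.cons (.br (nat_lit 8) (nat_lit 0) (.cons (.rf (nat_lit 4957) (nat_lit 9043225708576)) (.cons (.br (nat_lit 8) (nat_lit 0) (.cons (.rf (nat_lit 4957) (nat_lit 9043225708576)) (.cons (.br (nat_lit 9) (nat_lit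 1) (.cons (.rf (nat_lit 4969) (nat_lit 407901468851537952)) (.cons (.rf (nat_lit 4969) (nat_lit 407901398053783584)) .nil))) .nil))) .nil))) .nil))) (.cons (.rf (nat_lit 4955) (nat_lit 70522912)) .nil)))) .nil)) .nil))) .nil)) .nil)) .nil)) .nil)) .nil))),
 (.br (nat_lit 2) (nat_lit 0) (.cons (.rf (nat_lit 1) (nat_lit 1146948)) .nil)),
 (.br (nat_lit 7) (nat_lit 0) (.cons (.br (nat_lit 7) (nat_lit 0) (.cons (.rf (nat_lit 4970) (nat_lit 263)) .nil)) (.cons (.rf (nat_lit 4970) (nat_lit 263)) .nil))),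
 (.br (nat_lit 7) (nat_lit 0) (.cons (.rf (nat_lit 4970) (nat_lit 224)) (.cons (.br (nat_lit 7) (nat_lit 0) (.cons (.rf (nat_lit 4970) (nat_lit 224)) (.cons (.rf (nat_lit 4970) (nat_lit 263)) .nil))) (.cons (.rf (nat_lit 4970) (nat_lit 263)) .nil)))),
 (.br (nat_lit 5) (nat_lit 0) (.cons (.ev (nat_lit 1208925891953698189410561) (nat_lit 1)) (.cons (.rf (nat_lit 4973) (nat_lit 389002987552)) .nil))),
 (.br (nat_lit 8) (nat_lit 0) (.cons (.br (nat_lit 7) (nat_lit 0) (.cons (.rf (nat_lit 4970) (nat_lit 263)) (.cons (.rf (nat_lit 4970) (nat_lit 295)) .nil))) (.cons (.rf (nat_lit 4970) (nat_lit 263)) (.cons (.rf (nat_lit 4970) (nat_lit 296)) .nil)))),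
 (.br (nat_lit 7) (nat_lit 0) (.cons (.rf (nat_lit 4975) (nat_lit 9043225708576)) (.cons (.br (nat_lit 8) (nat_lit 0) (.cons (.rf (nat_lit 4975) (nat_lit 7978073819168)) (.cons (.rf (nat_lit 4970) (nat_lit 263)) (.cons (.rf (nat_lit 4970) (nat_lit 296)) .nil)))) (.cons (.rf (nat_lit 4970) (nat_lit 263)) (.cons (.rf (nat_lit 4970) (nat_lit 295)) .nil))))),
 (.br (nat_lit 8) (nat_lit 0) (.cons (.ev (nat_lit 18518801667747545089) (nat_lit 1)) (.cons (.rf (nat_lit 4972) (nat_lit 353534808096)) .nil))),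
 (.br (nat_lit 11) (nat_lit 0) (.cons (.zr (nat_lit 36893489251225763841) (nat_lit 72620544008126720) (nat_lit 5) (nat_lit 5)) (.cons (.ev (nat_lit 4722438540467994951681) (nat_lit 1)) (.cons (.br (nat_lit 11) (nat_lit 0) (.cons (.zr (nat_lit 36893489251225763841) (nat_lit 72620544008126720) (nat_lit 5) (nat_lit 5)) (.cons (.ev (nat_lit 4722438540467994951681) (nat_lit 1)) (.cons (.rf (nat_lit 4970) (nat_lit 395)) .nil)))) (.cons (.rf (nat_lit 4970) (nat_lit 395)) .nil))))),
 (.br (nat_lit 2) (nat_lit 0) (.cons (.zr (nat_lit 72058693583175681) (nat_lit 18447025552981230080) (nat_lit 5) (nat_lit 2)) (.cons (.zr (nat_lit 36893489251225763841) (nat_lit 144396663052567040) (nat_lit 5) (nat_lit 5)) (.cons (.zr (nat_lit 36893489251225763841) (nat_lit 72620544008126720) (nat_lit 5) (nat_lit 5)) (.cons (.br (nat_lit 12) (nat_lit 0) (.cons (.ev (nat_lit 4722438540467994951681) (nat_lit 1)) (.cons (.br (nat_lit 12) (nat_lit 0) (.cons (.ev (nat_lit 4722438540467994951681)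 (nat_lit 1)) (.cons (.rf (nat_lit 4970) (nat_lit 395)) (.cons (.rf (nat_lit 4970) (nat_lit 428)) .nil)))) (.cons (.rf (nat_lit 4970) (nat_lit 395)) (.cons (.rf (nat_lit 4970) (nat_lit 428)) .nil))))) .nil))))),
 (.br (nat_lit 11) (nat_lit 0) (.cons (.ev (nat_lit 4722438540467994951681) (nat_lit 1)) (.cons (.rf (nat_lit 4979) (nat_lit 407901468851537952)) (.cons (.br (nat_lit 11) (nat_lit 0) (.cons (.ev (nat_lit 4722438540467994951681) (nat_lit 1)) (.cons (.rf (nat_lit 4979) (nat_lit 407901468851537952)) (.cons (.rf (nat_lit 4970) (nat_lit 395)) .nil)))) (.cons (.rf (nat_lit 4970) (nat_lit 395)) .nil))))),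
 (.br (nat_lit 6) (nat_lit 0) (.cons (.br (nat_lit 10) (nat_lit 0) (.cons (.br (nat_lit 9) (nat_lit 0) (.cons (.ev (nat_lit 1208925891953698189410561) (nat_lit 1)) (.cons (.rf (nat_lit 4972) (nat_lit 389002987552)) .nil))) (.cons (.rf (nat_lit 4974) (nat_lit 11584701642934304)) (.cons (.br (nat_lit 10) (nat_lit 0) (.cons (.rf (nat_lit 4972) (nat_lit 387962669216)) (.cons (.rf (nat_lit 4974) (nat_lit 11584701642934304)) (.cons (.rf (nat_lit 4976) (nat_lit 13583142520864)) .nil)))) .nil)))) (.cons (.br (nat_lit 2) (nat_lit 0) (.cons (.ev (nat_lit 4740885566016664436993) (nat_lit 1)) (.cons (.rf (nat_lit 4977) (nat_lit 362021926307872)) (.cons (.br (nat_lit 11) (nat_lit 0) (.cons (.ev (nat_lit 4722438540467994951681) (nat_lit 1)) (.cons (.br (nat_lit 11) (nat_lit 0) (.cons (.ev (nat_lit 4722438540467994951681) (nat_lit 1)) (.cons (.rf (nat_lit 4970) (nat_lit 395)) .nil))) (.cons (.rf (nat_lit 4970) (nat_lit 395)) .nil)))) .nil)))) (.cons (.kr (nat_lit 18518801667747480064)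 (nat_lit 562954265165824) (nat_lit 1) (nat_lit 0)) (.cons (.kr (nat_lit 72057594037928192) (nat_lit 281474993487872) (nat_lit 1) (nat_lit 0)) (.cons (.br (nat_lit 11) (nat_lit 0) (.cons (.rf (nat_lit 4978) (nat_lit 407901468851537952)) (.cons (.rf (nat_lit 4979) (nat_lit 407901468851537952)) (.cons (.rf (nat_lit 4980) (nat_lit 407901468851537952)) (.cons (.br (nat_lit 11) (nat_lit 0) (.cons (.rf (nat_lit 4978) (nat_lit 407901468851537952)) (.cons (.rf (nat_lit 4979) (nat_lit 407901468851537952)) (.cons (.rf (nat_lit 4980) (nat_lit 407901468851537952)) (.cons (.rf (nat_lit 4970) (nat_lit 395)) .nil))))) (.cons (.rf (nat_lit 4970) (nat_lit 395)) .nil)))))) .nil)))))),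
 (.br (nat_lit 12) (nat_lit 0) (.cons (.br (nat_lit 11) (nat_lit 0) (.cons (.rf (nat_lit 4970) (nat_lit 395)) (.cons (.rf (nat_lit 4970) (nat_lit 427)) .nil))) (.cons (.rf (nat_lit 4970) (nat_lit 395)) (.cons (.rf (nat_lit 4970) (nat_lit 428)) .nil)))),
 (.br (nat_lit 1) (nat_lit 0) (.cons (.br (nat_lit 9) (nat_lit 0) (.cons (.ev (nat_lit 2446204789275937300939780) (nat_lit 3)) (.cons (.rf (nat_lit 4972) (nat_lit 389002986560)) .nil))) (.cons (.zr (nat_lit 1099511693825) (nat_lit 18446744078038073344) (nat_lit 5) (nat_lit 0)) (.cons (.zr (nat_lit 1099511693825) (nat_lit 72057602644639744) (nat_lit 5) (nat_lit 0)) (.cons (.br (nat_lit 6) (nat_lit 0) (.cons (.zr (nat_lit 564049465114625) (nat_lit 36965545741473808384) (nat_lit 5) (nat_lit 0)) (.cons (.zr (nat_lit 564049465114625) (nat_lit 18590859266080374784) (nat_lit 5) (nat_lit 0)) (.cons (.kr (nat_lit 18518801667747480064) (nat_lit 562954265165824) (nat_lit 1) (nat_lit 0)) (.cons (.br (nat_lit 11) (nat_lit 0)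 (.cons (.rf (nat_lit 4982) (nat_lit 14242959524133701664)) (.cons (.rf (nat_lit 4982) (nat_lit 14241867743345382432)) (.cons (.rf (nat_lit 4970) (nat_lit 395)) (.cons (.rf (nat_lit 4970) (nat_lit 427)) .nil))))) .nil))))) .nil)))))]

theorem c181 : chkAll C T R L181 (nat_lit 4947) = true := by decide +kernel

theorem l181 : (nat_lit 4947) + L181.length = (nat_lit 4984) := by decide +kernel

/-- part of the certificates -/
def L182 : List Prf := [(.br (nat_lit 11) (nat_lit 0) (.cons (.br (nat_lit 11) (nat_lit 0) (.cons (.zr (nat_lit 928455029464038509021167616) (nat_lit 2427296372476472616551170) (nat_lit 5) (nat_lit 5)) (.cons (.rf (nat_lit 4970) (nat_lit 395)) .nil))) (.cons (.kr (nat_lit 18518801667747480064) (nat_lit 562954265165824) (nat_lit 1) (nat_lit 0)) (.cons (.rf (nat_lit 4970) (nat_lit 395)) .nil)))),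
 (.br (nat_lit 11) (nat_lit 0) (.cons (.rf (nat_lit 4984) (nat_lit 407901468851537952)) (.cons (.br (nat_lit 11) (nat_lit 0) (.cons (.zr (nat_lit 928455029464038509021167616) (nat_lit 2427296372476472616551170) (nat_lit 5) (nat_lit 5)) (.cons (.rf (nat_lit 4970) (nat_lit 395)) .nil))) (.cons (.rf (nat_lit 4970) (nat_lit 395)) .nil)))),
 (.br (nat_lit 10) (nat_lit 0) (.cons (.rf (nat_lit 4981) (nat_lit 10492920854615072)) (.cons (.rf (nat_lit 4983) (nat_lit 11584701642934304)) (.cons (.ev (nat_lit 1208944338416296939028481) (nat_lit 1)) (.cons (.br (nat_lit 11) (nat_lit 0) (.cons (.rf (nat_lit 4984) (nat_lit 407901468851537952)) (.cons (.rf (nat_lit 4985) (nat_lit 407901468851537952)) (.cons (.br (nat_lit 11) (nat_lit 0) (.cons (.kr (nat_lit 18518801667747480064) (nat_lit 562954265165824) (nat_lit 1) (nat_lit 0)) (.cons (.rf (nat_lit 4985) (nat_lit 407901468851537952)) (.cons (.rf (nat_lit 4970) (nat_lit 395)) .nil)))) (.cons (.rf (nat_lit 4970) (nat_lit 395)) .nil)))))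 .nil))))),
 (.br (nat_lit 11) (nat_lit 0) (.cons (.kr (nat_lit 18518801667747480064) (nat_lit 562954265165824) (nat_lit 1) (nat_lit 0)) (.cons (.br (nat_lit 12) (nat_lit 0) (.cons (.ev (nat_lit 310693935713298771209158656) (nat_lit 1)) (.cons (.rf (nat_lit 4970) (nat_lit 428)) .nil))) (.cons (.rf (nat_lit 4970) (nat_lit 395)) (.cons (.rf (nat_lit 4970) (nat_lit 427)) .nil))))),
 (.br (nat_lit 11) (nat_lit 0) (.cons (.rf (nat_lit 4987) (nat_lit 14242959524133701664)) (.cons (.kr (nat_lit 18518801667747480064) (nat_lit 562954265165824) (nat_lit 1) (nat_lit 0)) (.cons (.br (nat_lit 11) (nat_lit 0) (.cons (.rf (nat_lit 4987) (nat_lit 14242959524133701664)) (.cons (.kr (nat_lit 18518801667747480064) (nat_lit 562954265165824) (nat_lit 1) (nat_lit 0)) (.cons (.rf (nat_lit 4970) (nat_lit 395)) (.cons (.rf (nat_lit 4970) (nat_lit 427)) .nil))))) (.cons (.rf (nat_lit 4970) (nat_lit 395)) (.cons (.rf (nat_lit 4970) (nat_lit 427)) .nil)))))),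
 (.br (nat_lit 13) (nat_lit 0) (.cons (.kr (nat_lit 18518801667747480064) (nat_lit 562954265165824) (nat_lit 1) (nat_lit 0)) (.cons (.br (nat_lit 13) (nat_lit 0) (.cons (.kr (nat_lit 18518801667747480064) (nat_lit 562954265165824) (nat_lit 1) (nat_lit 0)) (.cons (.rf (nat_lit 4970) (nat_lit 427)) (.cons (.rf (nat_lit 4970) (nat_lit 428)) .nil)))) (.cons (.rf (nat_lit 4970) (nat_lit 427)) (.cons (.rf (nat_lit 4970) (nat_lit 428)) .nil))))),
 (.br (nat_lit 10) (nat_lit 0) (.cons (.rf (nat_lit 4981) (nat_lit 10492920854615072)) (.cons (.rf (nat_lit 4983) (nat_lit 11584701642934304)) (.cons (.rf (nat_lit 4981) (nat_lit 10489445258332352)) (.cons (.rf (nat_lit 4986) (nat_lit 11584701642934304)) (.cons (.br (nat_lit 10) (nat_lit 0) (.cons (.rf (nat_lit 4981) (nat_lit 10492920854615072)) (.cons (.rf (nat_lit 4983) (nat_lit 11584701642934304)) (.cons (.rf (nat_lit 4981) (nat_lit 10489445258332352)) (.cons (.rf (nat_lit 4986) (nat_lit 11584701642934304)) (.cons (.br (nat_lit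 1) (nat_lit 0) (.cons (.rf (nat_lit 4976) (nat_lit 13583141504064)) (.cons (.rf (nat_lit 4976) (nat_lit 13583142519872)) (.cons (.rf (nat_lit 4981) (nat_lit 11584701642934304)) (.cons (.rf (nat_lit 4988) (nat_lit 14242959524133701664)) (.cons (.rf (nat_lit 4988) (nat_lit 13126066816545818656)) (.cons (.br (nat_lit 13) (nat_lit 0) (.cons (.rf (nat_lit 4989) (nat_lit 493858305440582043680)) (.cons (.kr (nat_lit 18518801667747480064) (nat_lit 562954265165824) (nat_lit 1) (nat_lit 0)) (.cons (.br (nat_lit 13) (nat_lit 0) (.cons (.rf (nat_lit 4989) (nat_lit 493858305440582043680)) (.cons (.kr (nat_lit 18518801667747480064) (nat_lit 562954265165824) (nat_lit 1) (nat_lit 0)) (.cons (.rf (nat_lit 4970) (nat_lit 427)) (.cons (.rf (nat_lit 4970) (nat_lit 428)) .nil))))) (.cons (.rf (nat_lit 4970) (nat_lit 427)) (.cons (.rf (nat_lit 4970) (nat_lit 428)) .nil)))))) .nil))))))) .nil)))))) .nil)))))),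
 (.br (nat_lit 11) (nat_lit 0) (.cons (.ev (nat_lit 310693935640959697899553024) (nat_lit 1)) (.cons (.ev (nat_lit 309489750706630709940846848) (nat_lit 1)) (.cons (.kr (nat_lit 18518801667747480064) (nat_lit 562954265165824) (nat_lit 1) (nat_lit 0)) (.cons (.rf (nat_lit 4970) (nat_lit 395)) .nil))))),
 (.br (nat_lit 11) (nat_lit 0) (.cons (.ev (nat_lit 310693935640959697899553024) (nat_lit 1)) (.cons (.zr (nat_lit 2475880079075165907204571136) (nat_lit 7281944456817226933075972) (nat_lit 20) (nat_lit 2)) (.cons (.ev (nat_lit 309489732188109413346770944) (nat_lit 1)) (.cons (.rf (nat_lit 4970) (nat_lit 395)) .nil))))),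
 (.br (nat_lit 7) (nat_lit 0) (.cons (.rf (nat_lit 4970) (nat_lit 224)) (.cons (.rf (nat_lit 4970) (nat_lit 263)) (.cons (.br (nat_lit 7) (nat_lit 0) (.cons (.rf (nat_lit 4970) (nat_lit 224)) (.cons (.rf (nat_lit 4970) (nat_lit 295)) .nil))) .nil)))),
 (.br (nat_lit 7) (nat_lit 0) (.cons (.rf (nat_lit 4993) (nat_lit 282600769568)) (.cons (.rf (nat_lit 4993) (nat_lit 282600802336)) (.cons (.rf (nat_lit 4970) (nat_lit 263)) (.cons (.rf (nat_lit 4970) (nat_lit 295)) .nil))))),
 (.br (nat_lit 7) (nat_lit 0) (.cons (.rf (nat_lit 4994) (nat_lit 9043225708576)) (.cons (.rf (nat_lit 4994) (nat_lit 9043225676832)) (.cons (.rf (nat_lit 4994) (nat_lit 9043224629280)) (.cons (.rf (nat_lit 4970) (nat_lit 263)) (.cons (.rf (nat_lit 4970) (nat_lit 295)) .nil)))))),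
 (.br (nat_lit 7) (nat_lit 0) (.cons (.rf (nat_lit 4995) (nat_lit 9043225708576)) (.cons (.rf (nat_lit 4995) (nat_lit 9043225707584)) (.cons (.rf (nat_lit 4995) (nat_lit 9043225674848)) (.cons (.rf (nat_lit 4995) (nat_lit 9043224626304)) (.cons (.rf (nat_lit 4970) (nat_lit 263)) (.cons (.rf (nat_lit 4970) (nat_lit 295)) .nil))))))),
 (.br (nat_lit 9) (nat_lit 0) (.cons (.rf (nat_lit 4981) (nat_lit 11584701642934304)) (.cons (.rf (nat_lit 4990) (nat_lit 11584701642934304)) (.cons (.rf (nat_lit 4990) (nat_lit 11579095539520704)) (.cons (.rf (nat_lit 4981) (nat_lit 11579095539520704)) (.cons (.br (nat_lit 10) (nat_lit 0) (.cons (.rf (nat_lit 4981) (nat_lit 10492920854615072)) (.cons (.rf (nat_lit 4990) (nat_lit 10489445258332352)) (.cons (.rf (nat_lit 4990) (nat_lit 10492920854615072)) (.cons (.rf (nat_lit 4981) (nat_lit 10489445258332352)) (.cons (.br (nat_lit 11) (nat_lit 0) (.cons (.rf (nat_lit 4991) (nat_lit 407901468851537952)) (.cons (.rf (nat_lit 4992) (nat_lit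 407901468851537952)) (.cons (.rf (nat_lit 4992) (nat_lit 406809688063218720)) (.cons (.rf (nat_lit 4991) (nat_lit 406806212466936000)) (.cons (.rf (nat_lit 4970) (nat_lit 395)) .nil)))))) (.cons (.rf (nat_lit 4996) (nat_lit 13583142520864)) .nil))))))) .nil)))))),
 (.br (nat_lit 12) (nat_lit 0) (.cons (.br (nat_lit 12) (nat_lit 0) (.cons (.ev (nat_lit 951978355305148933797599907336) (nat_lit 4)) (.cons (.rf (nat_lit 4970) (nat_lit 428)) .nil))) (.cons (.br (nat_lit 12) (nat_lit 0) (.cons (.ev (nat_lit 951978355305148933797599907336) (nat_lit 4)) (.cons (.rf (nat_lit 4970) (nat_lit 428)) .nil))) (.cons (.rf (nat_lit 4970) (nat_lit 428)) .nil)))),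
 (.br (nat_lit 11) (nat_lit 0) (.cons (.rf (nat_lit 4998) (nat_lit 14242959524133701664)) (.cons (.rf (nat_lit 4998) (nat_lit 14241867743345382432)) (.cons (.kr (nat_lit 18518801667747480064) (nat_lit 562954265165824) (nat_lit 1) (nat_lit 0)) (.cons (.rf (nat_lit 4970) (nat_lit 395)) (.cons (.rf (nat_lit 4970) (nat_lit 427)) .nil)))))),
 (.br (nat_lit 12) (nat_lit 0) (.cons (.rf (nat_lit 4999) (nat_lit 13126066816545818656)) (.cons (.br (nat_lit 11) (nat_lit 0) (.cons (.rf (nat_lit 4999) (nat_lit 14242959524133701664)) (.cons (.rf (nat_lit 4999) (nat_lit 14241864267749099712)) (.cons (.kr (nat_lit 158456325028600732781142605824) (nat_lit 618970038089434215454081024) (nat_lit 3) (nat_lit 0)) (.cons (.rf (nat_lit 4970) (nat_lit 427)) .nil))))) (.cons (.rf (nat_lit 4999) (nat_lit 13124971560161216704)) (.cons (.rf (nat_lit 4970) (nat_lit 395)) (.cons (.rf (nat_lit 4970) (nat_lit 428)) .nil)))))),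
 (.br (nat_lit 8) (nat_lit 0) (.cons (.rf (nat_lit 4970) (nat_lit 256)) (.cons (.rf (nat_lit 4970) (nat_lit 262)) (.cons (.br (nat_lit 8) (nat_lit 0) (.cons (.rf (nat_lit 4970) (nat_lit 256)) (.cons (.rf (nat_lit 4970) (nat_lit 262)) .nil))) .nil)))),
 (.br (nat_lit 8) (nat_lit 0) (.cons (.rf (nat_lit 5001) (nat_lit 10178205419552)) (.cons (.rf (nat_lit 5001) (nat_lit 10178205452320)) (.cons (.rf (nat_lit 4970) (nat_lit 263)) (.cons (.rf (nat_lit 4970) (nat_lit 296)) .nil))))),
 (.br (nat_lit 8) (nat_lit 0) (.cons (.rf (nat_lit 5002) (nat_lit 325702574508064)) (.cons (.rf (nat_lit 5002) (nat_lit 325702574476320)) (.cons (.rf (nat_lit 5002) (nat_lit 325702573428768)) (.cons (.rf (nat_lit 4970) (nat_lit 263)) (.cons (.rf (nat_lit 4970) (nat_lit 296)) .nil)))))),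
 (.br (nat_lit 8) (nat_lit 0) (.cons (.rf (nat_lit 5003) (nat_lit 325702574508064)) (.cons (.rf (nat_lit 5003) (nat_lit 325702574507072)) (.cons (.rf (nat_lit 5003) (nat_lit 325702574474336)) (.cons (.rf (nat_lit 5003) (nat_lit 325702573425792)) (.cons (.rf (nat_lit 4970) (nat_lit 263)) (.cons (.rf (nat_lit 4970) (nat_lit 296)) .nil))))))),
 (.br (nat_lit 10) (nat_lit 0) (.cons (.rf (nat_lit 4981) (nat_lit 10492920854615072)) (.cons (.rf (nat_lit 4990) (nat_lit 10489445258332352)) (.cons (.rf (nat_lit 4990) (nat_lit 10492920854615072)) (.cons (.rf (nat_lit 4981) (nat_lit 10489445258332352)) (.cons (.br (nat_lit 11) (nat_lit 0) (.cons (.rf (nat_lit 4999) (nat_lit 14242959524133701664)) (.cons (.rf (nat_lit 5000) (nat_lit 14242959524133701664)) (.cons (.rf (nat_lit 5000) (nat_lit 14241867743345382432)) (.cons (.rf (nat_lit 4999) (nat_lit 14241864267749099712)) (.cons (.rf (nat_lit 4970) (nat_lit 395)) (.cons (.rf (nat_lit 4970) (nat_lit 427)) .nil))))))) (.cons (.rf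 (nat_lit 5004) (nat_lit 470979979675680)) .nil))))))),
 (.br (nat_lit 6) (nat_lit 1) (.cons (.br (nat_lit 1) (nat_lit 1) (.cons (.br (nat_lit 4) (nat_lit 0) (.cons (.br (nat_lit 10) (nat_lit 1) (.cons (.br (nat_lit 9) (nat_lit 0) (.cons (.rf (nat_lit 4981) (nat_lit 11584700602746912)) (.cons (.rf (nat_lit 4990) (nat_lit 11584700602746912)) (.cons (.rf (nat_lit 4981) (nat_lit 11579095539521696)) (.cons (.rf (nat_lit 4990) (nat_lit 11579095539521696)) (.cons (.rf (nat_lit 4997) (nat_lit 11584700602746912)) (.cons (.br (nat_lit 9) (nat_lit 0) (.cons (.rf (nat_lit 4981) (nat_lit 11584700602746912)) (.cons (.rf (nat_lit 4990) (nat_lit 11584700602746912)) (.cons (.rf (nat_lit 4981) (nat_lit 11579095539521696)) (.cons (.rf (nat_lit 4990) (nat_lit 11579095539521696)) (.cons (.rf (nat_lit 4997) (nat_lit 11584700602746912)) (.cons (.br (nat_lit 10) (nat_lit 0) (.cons (.rf (nat_lit 4981) (nat_lit 10492919780874272)) (.cons (.rf (nat_lit 4990) (nat_lit 10489445291886752)) (.cons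 (.rf (nat_lit 4981) (nat_lit 10489445291886752)) (.cons (.rf (nat_lit 4990) (nat_lit 10492919780874272)) (.cons (.rf (nat_lit 5005) (nat_lit 14242959523093514272)) (.cons (.rf (nat_lit 5005) (nat_lit 13126066815505631264)) (.cons (.br (nat_lit 10) (nat_lit 0) (.cons (.rf (nat_lit 4981) (nat_lit 10492919780874272)) (.cons (.rf (nat_lit 4990) (nat_lit 10489445291886752)) (.cons (.rf (nat_lit 4981) (nat_lit 10489445291886752)) (.cons (.rf (nat_lit 4990) (nat_lit 10492919780874272)) (.cons (.rf (nat_lit 5004) (nat_lit 470979979675680)) (.cons (.rf (nat_lit 5004) (nat_lit 469914827786272)) .nil))))))) .nil)))))))) .nil))))))) .nil))))))) .nil)) .nil)) (.cons (.rf (nat_lit 0) (nat_lit 211797902441)) .nil))) (.cons (.rf (nat_lit 4971) (nat_lit 269509)) .nil))),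
 (.br (nat_lit 5) (nat_lit 1) (.cons (.rf (nat_lit 5006) (nat_lit 320097511281856)) (.cons (.rf (nat_lit 5006) (nat_lit 325702574508064)) .nil))),
 (.br (nat_lit 2) (nat_lit 0) (.cons (.ev (nat_lit 4740813228042866393089) (nat_lit 1)) (.cons (.rf (nat_lit 4973) (nat_lit 353534808096)) .nil))),
 (.br (nat_lit 9) (nat_lit 0) (.cons (.br (nat_lit 8) (nat_lit 0) (.cons (.ev (nat_lit 4740813228042866393089) (nat_lit 1)) (.cons (.rf (nat_lit 4972) (nat_lit 353534808096)) .nil))) (.cons (.rf (nat_lit 5008) (nat_lit 325702574508064)) (.cons (.br (nat_lit 9) (nat_lit 0) (.cons (.rf (nat_lit 4972) (nat_lit 352494587968)) (.cons (.rf (nat_lit 5008) (nat_lit 325702574508064)) (.cons (.rf (nat_lit 4976) (nat_lit 12448162713632)) .nil)))) .nil)))),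
 (.br (nat_lit 8) (nat_lit 0) (.cons (.ev (nat_lit 4722366482873940246529) (nat_lit 1)) (.cons (.rf (nat_lit 4972) (nat_lit 353534937120)) .nil))),
 (.br (nat_lit 7) (nat_lit 0) (.cons (.rf (nat_lit 4970) (nat_lit 224)) (.cons (.br (nat_lit 7) (nat_lit 0) (.cons (.rf (nat_lit 4970) (nat_lit 224)) (.cons (.rf (nat_lit 4970) (nat_lit 263)) .nil))) (.cons (.rf (nat_lit 4970) (nat_lit 263)) .nil)))),
 (.br (nat_lit 5) (nat_lit 0) (.cons (.ev (nat_lit 4722366482873940246529) (nat_lit 1)) (.cons (.rf (nat_lit 5011) (nat_lit 353535952928)) .nil))),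
 (.br (nat_lit 11) (nat_lit 0) (.cons (.br (nat_lit 11) (nat_lit 0) (.cons (.ev (nat_lit 1208944266640177861034241) (nat_lit 1)) (.cons (.rf (nat_lit 4970) (nat_lit 395)) .nil))) (.cons (.ev (nat_lit 1208944266640177861034241) (nat_lit 1)) (.cons (.rf (nat_lit 4970) (nat_lit 395)) .nil)))),
 (.br (nat_lit 11) (nat_lit 0) (.cons (.br (nat_lit 11) (nat_lit 0) (.cons (.zr (nat_lit 309489732404000720483844608) (nat_lit 18447588511524585472) (nat_lit 5) (nat_lit 2)) (.cons (.ev (nat_lit 309485009821627647508152576) (nat_lit 1)) (.cons (.rf (nat_lit 4970) (nat_lit 395)) .nil)))) (.cons (.br (nat_lit 11) (nat_lit 0) (.cons (.zr (nat_lit 309489732404000720483844608) (nat_lit 18447588511524585472) (nat_lit 5) (nat_lit 2)) (.cons (.zr (nat_lit 309489769081316085789164032) (nat_lit 844429258653696) (nat_lit 5) (nat_lit 9)) (.cons (.rf (nat_lit 4970) (nat_lit 395)) .nil)))) (.cons (.br (nat_lit 11) (nat_lit 0) (.cons (.ev (nat_lit 309485009821627647508152576) (nat_lit 1)) (.cons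 (.zr (nat_lit 309489769081316085789164032) (nat_lit 844429258653696) (nat_lit 5) (nat_lit 9)) (.cons (.rf (nat_lit 4970) (nat_lit 395)) .nil)))) (.cons (.rf (nat_lit 4970) (nat_lit 395)) .nil))))),
 (.br (nat_lit 7) (nat_lit 0) (.cons (.rf (nat_lit 4970) (nat_lit 224)) (.cons (.rf (nat_lit 4970) (nat_lit 230)) (.cons (.rf (nat_lit 4970) (nat_lit 263)) (.cons (.br (nat_lit 7) (nat_lit 0) (.cons (.rf (nat_lit 4970) (nat_lit 224)) (.cons (.rf (nat_lit 4970) (nat_lit 230)) (.cons (.rf (nat_lit 4970) (nat_lit 295)) .nil)))) .nil))))),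
 (.br (nat_lit 11) (nat_lit 0) (.cons (.zr (nat_lit 309489732404000720483844608) (nat_lit 18447588511524585472) (nat_lit 5) (nat_lit 2)) (.cons (.br (nat_lit 2) (nat_lit 0) (.cons (.ev (nat_lit 1213666632841576824439041) (nat_lit 1)) (.cons (.rf (nat_lit 5015) (nat_lit 424436467744)) .nil))) (.cons (.rf (nat_lit 4970) (nat_lit 395)) .nil)))),
 (.br (nat_lit 11) (nat_lit 0) (.cons (.rf (nat_lit 5014) (nat_lit 407901468851537952)) (.cons (.rf (nat_lit 5016) (nat_lit 407901468851537952)) (.cons (.br (nat_lit 11) (nat_lit 0) (.cons (.ev (nat_lit 309485009821627647508152576) (nat_lit 1)) (.cons (.rf (nat_lit 5016) (nat_lit 407901468851537952)) (.cons (.rf (nat_lit 4970) (nat_lit 395)) .nil)))) (.cons (.rf (nat_lit 4970) (nat_lit 395)) .nil))))),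
 (.br (nat_lit 11) (nat_lit 0) (.cons (.rf (nat_lit 5014) (nat_lit 407901468851537952)) (.cons (.rf (nat_lit 5017) (nat_lit 407901468851537952)) (.cons (.br (nat_lit 11) (nat_lit 0) (.cons (.zr (nat_lit 309489769081316085789164032) (nat_lit 844429258653696) (nat_lit 5) (nat_lit 9)) (.cons (.rf (nat_lit 5017) (nat_lit 407901468851537952)) (.cons (.rf (nat_lit 4970) (nat_lit 395)) .nil)))) (.cons (.rf (nat_lit 4970) (nat_lit 395)) .nil))))),
 (.br (nat_lit 6) (nat_lit 0) (.cons (.kr (nat_lit 72057594037928192) (nat_lit 281479271677952) (nat_lit 1) (nat_lit 0)) (.cons (.rf (nat_lit 5009) (nat_lit 362021926340640)) (.cons (.kr (nat_lit 18518801667747480064) (nat_lit 562954265165824) (nat_lit 1) (nat_lit 0)) (.cons (.br (nat_lit 2) (nat_lit 0) (.cons (.rf (nat_lit 5010) (nat_lit 361986458224672)) (.cons (.rf (nat_lit 5012) (nat_lit 361986458224672)) (.cons (.ev (nat_lit 1208925819614629191548929) (nat_lit 1)) (.cons (.br (nat_lit 11) (nat_lit 0) (.cons (.rf (nat_lit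 5013) (nat_lit 407901468851537952)) (.cons (.br (nat_lit 11) (nat_lit 0) (.cons (.rf (nat_lit 5013) (nat_lit 407901468851537952)) (.cons (.ev (nat_lit 1208925891953702501155073) (nat_lit 1)) (.cons (.rf (nat_lit 4970) (nat_lit 395)) .nil)))) (.cons (.ev (nat_lit 1208925891953702501155073) (nat_lit 1)) (.cons (.rf (nat_lit 4970) (nat_lit 395)) .nil))))) .nil))))) (.cons (.br (nat_lit 11) (nat_lit 0) (.cons (.rf (nat_lit 5014) (nat_lit 407901468851537952)) (.cons (.rf (nat_lit 5017) (nat_lit 407901468851537952)) (.cons (.rf (nat_lit 5018) (nat_lit 407901468851537952)) (.cons (.br (nat_lit 11) (nat_lit 0) (.cons (.rf (nat_lit 5014) (nat_lit 407901468851537952)) (.cons (.rf (nat_lit 5017) (nat_lit 407901468851537952)) (.cons (.rf (nat_lit 5018) (nat_lit 407901468851537952)) (.cons (.rf (nat_lit 4970) (nat_lit 395)) .nil))))) (.cons (.rf (nat_lit 4970) (nat_lit 395)) .nil)))))) .nil)))))),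
 (.br (nat_lit 6) (nat_lit 0) (.cons (.zr (nat_lit 4740813226951944765441) (nat_lit 72339069048193280) (nat_lit 5) (nat_lit 9)) (.cons (.kr (nat_lit 18518801667747480064) (nat_lit 562954265165824) (nat_lit 1) (nat_lit 0)) (.cons (.rf (nat_lit 5015) (nat_lit 424435292224)) .nil)))),
 (.br (nat_lit 11) (nat_lit 0) (.cons (.kr (nat_lit 18518801667747480064) (nat_lit 562954265165824) (nat_lit 1) (nat_lit 0)) (.cons (.rf (nat_lit 5020) (nat_lit 407901468851537952)) (.cons (.br (nat_lit 11) (nat_lit 0) (.cons (.kr (nat_lit 18518801667747480064) (nat_lit 562954265165824) (nat_lit 1) (nat_lit 0)) (.cons (.rf (nat_lit 5020) (nat_lit 407901468851537952)) (.cons (.rf (nat_lit 4970) (nat_lit 395)) .nil)))) (.cons (.rf (nat_lit 4970) (nat_lit 395)) .nil))))),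
 (.br (nat_lit 11) (nat_lit 0) (.cons (.rf (nat_lit 5021) (nat_lit 407901468851537952)) (.cons (.kr (nat_lit 18518801667747480064) (nat_lit 562954265165824) (nat_lit 1) (nat_lit 0)) (.cons (.br (nat_lit 11) (nat_lit 0) (.cons (.rf (nat_lit 5021) (nat_lit 407901468851537952)) (.cons (.kr (nat_lit 18518801667747480064) (nat_lit 562954265165824) (nat_lit 1) (nat_lit 0)) (.cons (.rf (nat_lit 4970) (nat_lit 395)) .nil)))) (.cons (.rf (nat_lit 4970) (nat_lit 395)) .nil))))),
 (.br (nat_lit 1) (nat_lit 0) (.cons (.br (nat_lit 10) (nat_lit 0) (.cons (.kr (nat_lit 72057594037928192) (nat_lit 281474993487872) (nat_lit 1) (nat_lit 0)) (.cons (.zr (nat_lit 4722366482869678833665) (nat_lit 18446744078004519424) (nat_lit 5) (nat_lit 2)) (.cons (.br (nat_lit 10) (nat_lit 0) (.cons (.kr (nat_lit 72057594037928192) (nat_lit 281474993487872) (nat_lit 1) (nat_lit 0)) (.cons (.zr (nat_lit 4722366482869678833665) (nat_lit 18446744078004519424) (nat_lit 5) (nat_lit 2)) (.cons (.rf (nat_lit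 4976) (nat_lit 13583141504064)) .nil)))) .nil)))) (.cons (.rf (nat_lit 5009) (nat_lit 362021922149440)) (.cons (.rf (nat_lit 5019) (nat_lit 11584701642934304)) (.cons (.rf (nat_lit 5019) (nat_lit 10492920855630880)) (.cons (.br (nat_lit 11) (nat_lit 0) (.cons (.rf (nat_lit 5021) (nat_lit 407901468851537952)) (.cons (.kr (nat_lit 18518801667747480064) (nat_lit 562954265165824) (nat_lit 1) (nat_lit 0)) (.cons (.rf (nat_lit 5022) (nat_lit 407901468851537952)) (.cons (.br (nat_lit 11) (nat_lit 0) (.cons (.rf (nat_lit 5021) (nat_lit 407901468851537952)) (.cons (.kr (nat_lit 18518801667747480064) (nat_lit 562954265165824) (nat_lit 1) (nat_lit 0)) (.cons (.rf (nat_lit 5022) (nat_lit 407901468851537952)) (.cons (.rf (nat_lit 4970) (nat_lit 395)) .nil))))) (.cons (.rf (nat_lit 4970) (nat_lit 395)) .nil)))))) .nil))))))]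

theorem c182 : chkAll C T R L182 (nat_lit 4984) = true := by decide +kernel

theorem l182 : (nat_lit 4984) + L182.length = (nat_lit 5024) := by decide +kernel

/-- part of the certificates -/
def L183 : List Prf := [(.br (nat_lit 8) (nat_lit 0) (.cons (.rf (nat_lit 4970) (nat_lit 256)) (.cons (.br (nat_lit 8) (nat_lit 0) (.cons (.rf (nat_lit 4970) (nat_lit 256)) (.cons (.rf (nat_lit 4970) (nat_lit 263)) (.cons (.rf (nat_lit 4970) (nat_lit 296)) .nil)))) (.cons (.rf (nat_lit 4970) (nat_lit 263)) (.cons (.rf (nat_lit 4970) (nat_lit 296)) .nil))))),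
 (.br (nat_lit 6) (nat_lit 0) (.cons (.rf (nat_lit 5015) (nat_lit 247130525792)) (.cons (.rf (nat_lit 4970) (nat_lit 230)) (.cons (.rf (nat_lit 4970) (nat_lit 262)) (.cons (.br (nat_lit 6) (nat_lit 0) (.cons (.rf (nat_lit 5015) (nat_lit 247130525792)) (.cons (.rf (nat_lit 4970) (nat_lit 230)) (.cons (.rf (nat_lit 4970) (nat_lit 294)) .nil)))) .nil))))),
 (.br (nat_lit 7) (nat_lit 0) (.cons (.rf (nat_lit 5025) (nat_lit 213843546176)) (.cons (.rf (nat_lit 4970) (nat_lit 230)) (.cons (.rf (nat_lit 4970) (nat_lit 263)) (.cons (.br (nat_lit 7) (nat_lit 0) (.cons (.rf (nat_lit 5025) (nat_lit 213843546176)) (.cons (.rf (nat_lit 4970) (nat_lit 230)) (.cons (.rf (nat_lit 4970) (nat_lit 295)) .nil)))) .nil))))),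
 (.br (nat_lit 6) (nat_lit 0) (.cons (.rf (nat_lit 5025) (nat_lit 247132686368)) (.cons (.rf (nat_lit 5026) (nat_lit 247132686368)) (.cons (.rf (nat_lit 4970) (nat_lit 230)) (.cons (.rf (nat_lit 4970) (nat_lit 262)) (.cons (.br (nat_lit 6) (nat_lit 0) (.cons (.rf (nat_lit 5025) (nat_lit 247132686368)) (.cons (.rf (nat_lit 5026) (nat_lit 247132686368)) (.cons (.rf (nat_lit 4970) (nat_lit 230)) (.cons (.rf (nat_lit 4970) (nat_lit 294)) .nil))))) .nil)))))),
 (.br (nat_lit 1) (nat_lit 0) (.cons (.ev (nat_lit 72058697844588801) (nat_lit 1)) (.cons (.rf (nat_lit 5009) (nat_lit 362021922146464)) (.cons (.rf (nat_lit 5019) (nat_lit 11584701642934304)) (.cons (.rf (nat_lit 5019) (nat_lit 10492920855630880)) (.cons (.br (nat_lit 6) (nat_lit 0) (.cons (.rf (nat_lit 5009) (nat_lit 362021923194016)) (.cons (.ev (nat_lit 4740885285641199288321) (nat_lit 1)) (.cons (.br (nat_lit 2) (nat_lit 0) (.cons (.zr (nat_lit 4740813226951944765441) (nat_lit 562950003752960) (nat_lit 5)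 (nat_lit 9)) (.cons (.ev (nat_lit 1208944338416301217218561) (nat_lit 1)) (.cons (.br (nat_lit 11) (nat_lit 0) (.cons (.br (nat_lit 10) (nat_lit 0) (.cons (.ev (nat_lit 309489750634854586584662016) (nat_lit 1)) (.cons (.rf (nat_lit 5015) (nat_lit 424432150688)) .nil))) (.cons (.br (nat_lit 9) (nat_lit 0) (.cons (.ev (nat_lit 309489750634854586584662016) (nat_lit 1)) (.cons (.rf (nat_lit 5015) (nat_lit 424465704128)) .nil))) (.cons (.rf (nat_lit 4970) (nat_lit 395)) .nil)))) (.cons (.rf (nat_lit 5027) (nat_lit 424465863712)) .nil))))) (.cons (.kr (nat_lit 18518801667747480064) (nat_lit 562954265165824) (nat_lit 1) (nat_lit 0)) (.cons (.rf (nat_lit 5027) (nat_lit 424436467744)) .nil)))))) .nil)))))),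
 (.br (nat_lit 2) (nat_lit 0) (.cons (.kr (nat_lit 18446744073709551872) (nat_lit 281474993487872) (nat_lit 1) (nat_lit 0)) (.cons (.ev (nat_lit 4722366483973451808769) (nat_lit 1)) (.cons (.rf (nat_lit 5028) (nat_lit 10492920855630880)) (.cons (.br (nat_lit 1) (nat_lit 0) (.cons (.rf (nat_lit 4973) (nat_lit 389001839808)) (.cons (.rf (nat_lit 5019) (nat_lit 10492920855630880)) (.cons (.br (nat_lit 5) (nat_lit 0) (.cons (.zr (nat_lit 1208962713103876105437185) (nat_lit 72620548286316544) (nat_lit 5) (nat_lit 5)) (.cons (.ev (nat_lit 4722438823038171480321) (nat_lit 1)) (.cons (.rf (nat_lit 5027) (nat_lit 424435451936)) .nil)))) (.cons (.rf (nat_lit 5027) (nat_lit 391146312736)) .nil))))) .nil))))),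
 (.br (nat_lit 8) (nat_lit 0) (.cons (.rf (nat_lit 5027) (nat_lit 282564103200)) (.cons (.rf (nat_lit 5027) (nat_lit 282565150752)) (.cons (.br (nat_lit 8) (nat_lit 0) (.cons (.rf (nat_lit 5027) (nat_lit 282564103200)) (.cons (.rf (nat_lit 5027) (nat_lit 282565150752)) (.cons (.rf (nat_lit 4970) (nat_lit 263)) (.cons (.rf (nat_lit 4970) (nat_lit 296)) .nil))))) (.cons (.rf (nat_lit 4970) (nat_lit 263)) (.cons (.rf (nat_lit 4970) (nat_lit 296)) .nil)))))),
 (.br (nat_lit 10) (nat_lit 0) (.cons (.rf (nat_lit 5019) (nat_lit 10492920855630880)) (.cons (.rf (nat_lit 5028) (nat_lit 10492920855630880)) (.cons (.rf (nat_lit 5023) (nat_lit 10492920855630880)) (.cons (.rf (nat_lit 5029) (nat_lit 11584701642934304)) (.cons (.br (nat_lit 10) (nat_lit 0) (.cons (.rf (nat_lit 5019) (nat_lit 10492920855630880)) (.cons (.rf (nat_lit 5028) (nat_lit 10492920855630880)) (.cons (.rf (nat_lit 5023) (nat_lit 10492920855630880)) (.cons (.rf (nat_lit 5029) (nat_lit 11584701642934304))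 (.cons (.br (nat_lit 1) (nat_lit 0) (.cons (.kr (nat_lit 18446744073709551872) (nat_lit 281474993487872) (nat_lit 1) (nat_lit 0)) (.cons (.rf (nat_lit 4976) (nat_lit 13583141373120)) (.cons (.kr (nat_lit 18518801667747480064) (nat_lit 562954265165824) (nat_lit 1) (nat_lit 0)) (.cons (.rf (nat_lit 5030) (nat_lit 13583142520864)) (.cons (.rf (nat_lit 5030) (nat_lit 12517990631456)) (.cons (.rf (nat_lit 5030) (nat_lit 12552350369824)) .nil))))))) .nil)))))) .nil)))))),
 (.br (nat_lit 11) (nat_lit 0) (.cons (.ev (nat_lit 310693954159761369958777088) (nat_lit 1)) (.cons (.br (nat_lit 1) (nat_lit 0) (.cons (.ev (nat_lit 282574488403969) (nat_lit 1)) (.cons (.br (nat_lit 12) (nat_lit 0) (.cons (.kr (nat_lit 18518801667747480064) (nat_lit 562954265165824) (nat_lit 1) (nat_lit 0)) (.cons (.rf (nat_lit 4970) (nat_lit 428)) .nil))) .nil))) (.cons (.br (nat_lit 1) (nat_lit 0) (.cons (.ev (nat_lit 282574488403969) (nat_lit 1)) (.cons (.br (nat_lit 12) (nat_lit 0) (.cons (.zr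 (nat_lit 3626777459128661069266945) (nat_lit 9463251767407038038784) (nat_lit 5) (nat_lit 5)) (.cons (.rf (nat_lit 4970) (nat_lit 428)) .nil))) .nil))) (.cons (.rf (nat_lit 4970) (nat_lit 395)) .nil))))),
 (.br (nat_lit 9) (nat_lit 0) (.cons (.rf (nat_lit 5019) (nat_lit 11584701642934304)) (.cons (.rf (nat_lit 5023) (nat_lit 11584701642934304)) (.cons (.rf (nat_lit 5028) (nat_lit 11584701642934304)) (.cons (.rf (nat_lit 5031) (nat_lit 11584701642934304)) (.cons (.br (nat_lit 10) (nat_lit 0) (.cons (.rf (nat_lit 5019) (nat_lit 10492920855630880)) (.cons (.rf (nat_lit 5028) (nat_lit 10492920855630880)) (.cons (.rf (nat_lit 5023) (nat_lit 10492920855630880)) (.cons (.rf (nat_lit 5031) (nat_lit 10492920855630880)) (.cons (.br (nat_lit 11) (nat_lit 0) (.cons (.br (nat_lit 11) (nat_lit 0) (.cons (.ev (nat_lit 310693954159761369958777088) (nat_lit 1)) (.cons (.ev (nat_lit 309489750706630709940846848) (nat_lit 1)) (.cons (.kr (nat_lit 18518801667747480064) (nat_lit 562954265165824)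 (nat_lit 1) (nat_lit 0)) (.cons (.rf (nat_lit 4970) (nat_lit 395)) .nil))))) (.cons (.rf (nat_lit 5032) (nat_lit 407901468851537952)) (.cons (.rf (nat_lit 5032) (nat_lit 406809688064234528)) (.cons (.br (nat_lit 11) (nat_lit 0) (.cons (.kr (nat_lit 18518801667747480064) (nat_lit 562954265165824) (nat_lit 1) (nat_lit 0)) (.cons (.rf (nat_lit 5032) (nat_lit 407901468851537952)) (.cons (.rf (nat_lit 5032) (nat_lit 406809688064234528)) (.cons (.rf (nat_lit 4970) (nat_lit 395)) .nil))))) (.cons (.rf (nat_lit 4970) (nat_lit 395)) .nil)))))) (.cons (.rf (nat_lit 4996) (nat_lit 13583142520864)) .nil))))))) .nil)))))),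
 (.br (nat_lit 12) (nat_lit 0) (.cons (.br (nat_lit 6) (nat_lit 0) (.cons (.ev (nat_lit 80156622266166915475360121090) (nat_lit 2)) (.cons (.rf (nat_lit 5004) (nat_lit 470597597693995)) .nil))) (.cons (.br (nat_lit 5) (nat_lit 0) (.cons (.ev (nat_lit 80156622266166915475360121090) (nat_lit 2)) (.cons (.rf (nat_lit 5004) (nat_lit 436512737232939)) .nil))) (.cons (.rf (nat_lit 4970) (nat_lit 428)) .nil)))),
 (.br (nat_lit 11) (nat_lit 0) (.cons (.rf (nat_lit 5034) (nat_lit 14242959524133701664)) (.cons (.rf (nat_lit 5034) (nat_lit 14241867743346398240)) (.cons (.kr (nat_lit 18518801667747480064) (nat_lit 562954265165824) (nat_lit 1) (nat_lit 0)) (.cons (.rf (nat_lit 4970) (nat_lit 395)) (.cons (.rf (nat_lit 4970) (nat_lit 427)) .nil)))))),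
 (.br (nat_lit 1) (nat_lit 0) (.cons (.ev (nat_lit 1213648186378978108375041) (nat_lit 1)) (.cons (.rf (nat_lit 5035) (nat_lit 14242959524133701664)) (.cons (.rf (nat_lit 5035) (nat_lit 13126066816545818656)) (.cons (.br (nat_lit 13) (nat_lit 0) (.cons (.kr (nat_lit 18518801667747480064) (nat_lit 562954265165824) (nat_lit 1) (nat_lit 0)) (.cons (.rf (nat_lit 4970) (nat_lit 427)) (.cons (.rf (nat_lit 4970) (nat_lit 428)) .nil)))) .nil))))),
 (.br (nat_lit 12) (nat_lit 0) (.cons (.rf (nat_lit 5035) (nat_lit 13126066816545818656)) (.cons (.rf (nat_lit 5036) (nat_lit 14242959524133701664)) (.cons (.br (nat_lit 12) (nat_lit 0) (.cons (.kr (nat_lit 18518801667747480064) (nat_lit 562954265165824) (nat_lit 1) (nat_lit 0)) (.cons (.rf (nat_lit 5036) (nat_lit 14242959524133701664)) (.cons (.rf (nat_lit 4970) (nat_lit 395)) (.cons (.rf (nat_lit 4970) (nat_lit 428)) .nil))))) (.cons (.rf (nat_lit 4970) (nat_lit 395)) (.cons (.rf (nat_lit 4970) (nat_lit 428)) .nil)))))),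
 (.br (nat_lit 10) (nat_lit 0) (.cons (.rf (nat_lit 5019) (nat_lit 10492920855630880)) (.cons (.rf (nat_lit 5028) (nat_lit 10492920855630880)) (.cons (.rf (nat_lit 5023) (nat_lit 10492920855630880)) (.cons (.rf (nat_lit 5031) (nat_lit 10492920855630880)) (.cons (.br (nat_lit 11) (nat_lit 0) (.cons (.rf (nat_lit 5035) (nat_lit 14242959524133701664)) (.cons (.rf (nat_lit 5037) (nat_lit 14242959524133701664)) (.cons (.rf (nat_lit 5037) (nat_lit 14241867743346398240)) (.cons (.br (nat_lit 12) (nat_lit 0) (.cons (.rf (nat_lit 5035) (nat_lit 13126066816545818656)) (.cons (.rf (nat_lit 5037) (nat_lit 13126066816545818656)) (.cons (.rf (nat_lit 5037) (nat_lit 13124975035758515232)) (.cons (.rf (nat_lit 4970) (nat_lit 395)) (.cons (.rf (nat_lit 4970) (nat_lit 428)) .nil)))))) (.cons (.rf (nat_lit 4970) (nat_lit 395)) (.cons (.rf (nat_lit 4970) (nat_lit 427)) .nil))))))) (.cons (.rf (nat_lit 5004) (nat_lit 470979979675680)) .nil))))))),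
 (.br (nat_lit 6) (nat_lit 1) (.cons (.rf (nat_lit 0) (nat_lit 74198554753)) (.cons (.br (nat_lit 4) (nat_lit 0) (.cons (.br (nat_lit 10) (nat_lit 1) (.cons (.br (nat_lit 9) (nat_lit 0) (.cons (.rf (nat_lit 5019) (nat_lit 11584701642934304)) (.cons (.rf (nat_lit 5023) (nat_lit 11584701642934304)) (.cons (.rf (nat_lit 5028) (nat_lit 11584701642934304)) (.cons (.rf (nat_lit 5031) (nat_lit 11584701642934304)) (.cons (.rf (nat_lit 5033) (nat_lit 11584701642934304)) (.cons (.br (nat_lit 9) (nat_lit 0) (.cons (.rf (nat_lit 5019) (nat_lit 11584701642934304)) (.cons (.rf (nat_lit 5023) (nat_lit 11584701642934304)) (.cons (.rf (nat_lit 5028) (nat_lit 11584701642934304)) (.cons (.rf (nat_lit 5031) (nat_lit 11584701642934304)) (.cons (.rf (nat_lit 5033) (nat_lit 11584701642934304)) (.cons (.br (nat_lit 10) (nat_lit 0) (.cons (.rf (nat_lit 5019) (nat_lit 10492920855630880)) (.cons (.rf (nat_lit 5028) (nat_lit 10492920855630880)) (.cons (.rf (nat_lit 5023) (nat_lit 10492920855630880))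 (.cons (.rf (nat_lit 5031) (nat_lit 10492920855630880)) (.cons (.rf (nat_lit 5038) (nat_lit 14242959524133701664)) (.cons (.rf (nat_lit 5038) (nat_lit 13126066816545818656)) (.cons (.br (nat_lit 10) (nat_lit 0) (.cons (.rf (nat_lit 5019) (nat_lit 10492920855630880)) (.cons (.rf (nat_lit 5028) (nat_lit 10492920855630880)) (.cons (.rf (nat_lit 5023) (nat_lit 10492920855630880)) (.cons (.rf (nat_lit 5031) (nat_lit 10492920855630880)) (.cons (.rf (nat_lit 5004) (nat_lit 470979979675680)) (.cons (.rf (nat_lit 5004) (nat_lit 469914827786272)) .nil))))))) .nil)))))))) .nil))))))) .nil))))))) .nil)) .nil)) .nil))),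
 (.br (nat_lit 2) (nat_lit 0) (.cons (.rf (nat_lit 676) (nat_lit 7840631717960)) .nil)),
 (.br (nat_lit 5) (nat_lit 1) (.cons (.rf (nat_lit 5039) (nat_lit 325702574508064)) (.cons (.rf (nat_lit 5040) (nat_lit 318067838017)) (.cons (.br (nat_lit 6) (nat_lit 1) (.cons (.rf (nat_lit 5039) (nat_lit 325701534320672)) (.cons (.rf (nat_lit 5040) (nat_lit 318068886593)) (.cons (.rf (nat_lit 4971) (nat_lit 269509)) .nil)))) .nil)))),
 (.br (nat_lit 11) (nat_lit 0) (.cons (.ev (nat_lit 4722366483973451874561) (nat_lit 1)) (.cons (.ev (nat_lit 1208925819614633469739009) (nat_lit 1)) (.cons (.rf (nat_lit 4970) (nat_lit 395)) .nil)))),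
 (.br (nat_lit 5) (nat_lit 0) (.cons (.rf (nat_lit 5042) (nat_lit 407901468851537952)) (.cons (.ev (nat_lit 4722366483973451874561) (nat_lit 1)) (.cons (.rf (nat_lit 5027) (nat_lit 424435292224)) .nil)))),
 (.br (nat_lit 10) (nat_lit 0) (.cons (.rf (nat_lit 5042) (nat_lit 407901468851537952)) (.cons (.rf (nat_lit 5043) (nat_lit 407901468851537952)) (.cons (.br (nat_lit 10) (nat_lit 0) (.cons (.ev (nat_lit 1208925819614633469739009) (nat_lit 1)) (.cons (.rf (nat_lit 5043) (nat_lit 407901468851537952)) (.cons (.rf (nat_lit 5030) (nat_lit 13583137313856)) .nil)))) (.cons (.rf (nat_lit 5030) (nat_lit 13583137313856)) .nil))))),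
 (.br (nat_lit 2) (nat_lit 0) (.cons (.ev (nat_lit 4722366483973451874561) (nat_lit 1)) (.cons (.rf (nat_lit 5044) (nat_lit 407901468851537952)) (.cons (.rf (nat_lit 5027) (nat_lit 391150343232)) .nil)))),
 (.br (nat_lit 11) (nat_lit 0) (.cons (.rf (nat_lit 5044) (nat_lit 407901468851537952)) (.cons (.rf (nat_lit 5045) (nat_lit 407901468851537952)) (.cons (.br (nat_lit 11) (nat_lit 0) (.cons (.rf (nat_lit 5044) (nat_lit 407901468851537952)) (.cons (.rf (nat_lit 5045) (nat_lit 407901468851537952)) (.cons (.rf (nat_lit 4970) (nat_lit 395)) .nil)))) (.cons (.rf (nat_lit 4970) (nat_lit 395)) .nil))))),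
 (.br (nat_lit 11) (nat_lit 0) (.cons (.rf (nat_lit 5044) (nat_lit 407901468851537952)) (.cons (.rf (nat_lit 5046) (nat_lit 407901468851537952)) (.cons (.br (nat_lit 11) (nat_lit 0) (.cons (.rf (nat_lit 5044) (nat_lit 407901468851537952)) (.cons (.rf (nat_lit 5046) (nat_lit 407901468851537952)) (.cons (.rf (nat_lit 4970) (nat_lit 395)) .nil)))) (.cons (.rf (nat_lit 4970) (nat_lit 395)) .nil))))),
 (.br (nat_lit 6) (nat_lit 0) (.cons (.rf (nat_lit 5009) (nat_lit 362018702070816)) (.cons (.rf (nat_lit 5009) (nat_lit 362018705213472)) (.cons (.br (nat_lit 2) (nat_lit 0) (.cons (.ev (nat_lit 282574488338689) (nat_lit 1)) (.cons (.br (nat_lit 5) (nat_lit 0) (.cons (.ev (nat_lit 1208925819899407015019266) (nat_lit 2)) (.cons (.rf (nat_lit 5011) (nat_lit 388998797344)) .nil))) (.cons (.br (nat_lit 10) (nat_lit 0) (.cons (.rf (nat_lit 5011) (nat_lit 389001844768)) (.cons (.br (nat_lit 10) (nat_lit 0) (.cons (.ev (nat_lit 1208925819614633469739009) (nat_lit 1)) (.cons (.rf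 (nat_lit 5030) (nat_lit 13583142519872)) .nil))) (.cons (.rf (nat_lit 5030) (nat_lit 13583142519872)) .nil)))) .nil)))) (.cons (.br (nat_lit 10) (nat_lit 0) (.cons (.ev (nat_lit 1208925819614629191548929) (nat_lit 1)) (.cons (.br (nat_lit 2) (nat_lit 0) (.cons (.ev (nat_lit 2422574150108803932291586) (nat_lit 2)) (.cons (.rf (nat_lit 5011) (nat_lit 387957463200)) .nil))) (.cons (.ev (nat_lit 1213648186378978108375041) (nat_lit 1)) (.cons (.br (nat_lit 2) (nat_lit 0) (.cons (.rf (nat_lit 4972) (nat_lit 387961620672)) (.cons (.br (nat_lit 11) (nat_lit 0) (.cons (.rf (nat_lit 5011) (nat_lit 389002987552)) (.cons (.rf (nat_lit 4970) (nat_lit 395)) .nil))) (.cons (.br (nat_lit 5) (nat_lit 0) (.cons (.rf (nat_lit 5011) (nat_lit 389002892320)) (.cons (.br (nat_lit 9) (nat_lit 0) (.cons (.ev (nat_lit 310698658079500165894439168) (nat_lit 1)) (.cons (.rf (nat_lit 5015) (nat_lit 424468882624)) .nil))) (.cons (.rf (nat_lit 5027) (nat_lit 424469005376)) .nil)))) (.cons (.rf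 (nat_lit 5030) (nat_lit 12517985424448)) .nil))))) .nil))))) (.cons (.br (nat_lit 11) (nat_lit 0) (.cons (.rf (nat_lit 5044) (nat_lit 407901468851537952)) (.cons (.rf (nat_lit 5046) (nat_lit 407901468851537952)) (.cons (.rf (nat_lit 5047) (nat_lit 407901468851537952)) (.cons (.br (nat_lit 11) (nat_lit 0) (.cons (.rf (nat_lit 5044) (nat_lit 407901468851537952)) (.cons (.rf (nat_lit 5046) (nat_lit 407901468851537952)) (.cons (.rf (nat_lit 5047) (nat_lit 407901468851537952)) (.cons (.rf (nat_lit 4970) (nat_lit 395)) .nil))))) (.cons (.rf (nat_lit 4970) (nat_lit 395)) .nil)))))) .nil)))))),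
 (.br (nat_lit 6) (nat_lit 0) (.cons (.rf (nat_lit 5027) (nat_lit 247132654624)) (.cons (.rf (nat_lit 5027) (nat_lit 247132652640)) (.cons (.rf (nat_lit 4970) (nat_lit 230)) (.cons (.rf (nat_lit 4970) (nat_lit 262)) (.cons (.rf (nat_lit 5030) (nat_lit 6846347838592)) .nil)))))),
 (.br (nat_lit 9) (nat_lit 0) (.cons (.rf (nat_lit 5048) (nat_lit 11584701642934304)) (.cons (.kr (nat_lit 18518801667764256768) (nat_lit 9444732965743585394688) (nat_lit 3) (nat_lit 0)) (.cons (.br (nat_lit 10) (nat_lit 0) (.cons (.rf (nat_lit 5012) (nat_lit 361878013614144)) (.cons (.rf (nat_lit 5012) (nat_lit 361882174363712)) (.cons (.br (nat_lit 1) (nat_lit 0) (.cons (.ev (nat_lit 4740885285641199354113) (nat_lit 1)) (.cons (.rf (nat_lit 5012) (nat_lit 361878013614144)) (.cons (.br (nat_lit 10) (nat_lit 0) (.cons (.ev (nat_lit 7281907637077739665752580) (nat_lit 3)) (.cons (.rf (nat_lit 5030) (nat_lit 13583142520864)) .nil))) (.cons (.rf (nat_lit 5030) (nat_lit 12517990631456)) .nil)))))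 .nil)))) (.cons (.kr (nat_lit 72057594037927936) (nat_lit 4722366482869645213696) (nat_lit 7) (nat_lit 0)) (.cons (.br (nat_lit 6) (nat_lit 0) (.cons (.kr (nat_lit 72057594037928448) (nat_lit 281479271743488) (nat_lit 1) (nat_lit 0)) (.cons (.rf (nat_lit 5009) (nat_lit 362018705212480)) (.cons (.br (nat_lit 1) (nat_lit 0) (.cons (.zr (nat_lit 281474976776705) (nat_lit 18446744078038073344) (nat_lit 5) (nat_lit 0)) (.cons (.zr (nat_lit 281474976776705) (nat_lit 72057602644639744) (nat_lit 5) (nat_lit 0)) (.cons (.zr (nat_lit 72339069014704641) (nat_lit 9444732965747897139200) (nat_lit 5) (nat_lit 0)) (.cons (.rf (nat_lit 5049) (nat_lit 424431257760)) .nil))))) (.cons (.br (nat_lit 1) (nat_lit 0) (.cons (.zr (nat_lit 72339069014704641) (nat_lit 4740813226947683287040) (nat_lit 5) (nat_lit 0)) (.cons (.zr (nat_lit 281474976776705) (nat_lit 4722366482878251925504) (nat_lit 5) (nat_lit 0)) (.cons (.zr (nat_lit 144396663052632577) (nat_lit 14167099448617542352896) (nat_lit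 5) (nat_lit 0)) (.cons (.rf (nat_lit 5027) (nat_lit 391150375968)) .nil))))) (.cons (.rf (nat_lit 5049) (nat_lit 424436467744)) .nil)))))) .nil)))))),
 (.br (nat_lit 1) (nat_lit 0) (.cons (.ev (nat_lit 72058697844588801) (nat_lit 1)) (.cons (.rf (nat_lit 5009) (nat_lit 362018701019296)) (.cons (.rf (nat_lit 5048) (nat_lit 11584701642934304)) (.cons (.br (nat_lit 2) (nat_lit 0) (.cons (.rf (nat_lit 5009) (nat_lit 327800697623584)) (.cons (.kr (nat_lit 18518801667764256768) (nat_lit 9444732965743585394688) (nat_lit 3) (nat_lit 0)) (.cons (.kr (nat_lit 18518801667764257280) (nat_lit 2417851639231461667635200) (nat_lit 1) (nat_lit 0)) (.cons (.br (nat_lit 6) (nat_lit 0) (.cons (.kr (nat_lit 18446744073709551616) (nat_lit 4722366482869645213696) (nat_lit 8) (nat_lit 0)) (.cons (.kr (nat_lit 18446744073709551872) (nat_lit 1208925819615728686333952) (nat_lit 1) (nat_lit 0)) (.cons (.br (nat_lit 11) (nat_lit 0) (.cons (.br (nat_lit 10) (nat_lit 0) (.cons (.ev (nat_lit 618998372505071563489804802)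 (nat_lit 3)) (.cons (.rf (nat_lit 5049) (nat_lit 391184024640)) .nil))) (.cons (.br (nat_lit 9) (nat_lit 0) (.cons (.ev (nat_lit 618998372505071563489804802) (nat_lit 3)) (.cons (.rf (nat_lit 5049) (nat_lit 391150375968)) .nil))) (.cons (.rf (nat_lit 4970) (nat_lit 395)) .nil)))) (.cons (.rf (nat_lit 5027) (nat_lit 424436466752)) .nil))))) .nil))))) (.cons (.br (nat_lit 2) (nat_lit 0) (.cons (.rf (nat_lit 5009) (nat_lit 362018702066848)) (.cons (.kr (nat_lit 18518801667764256768) (nat_lit 9444732965743585394688) (nat_lit 3) (nat_lit 0)) (.cons (.br (nat_lit 6) (nat_lit 0) (.cons (.kr (nat_lit 18446744073709551616) (nat_lit 4722366482869645213696) (nat_lit 8) (nat_lit 0)) (.cons (.ev (nat_lit 1208944338416301217218561) (nat_lit 1)) (.cons (.br (nat_lit 9) (nat_lit 0) (.cons (.ev (nat_lit 2417870590946041726895620) (nat_lit 3)) (.cons (.br (nat_lit 10) (nat_lit 0) (.cons (.ev (nat_lit 1213666632841572546314241) (nat_lit 1)) (.cons (.rf (nat_lit 5049) (nat_lit 391184025632))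 .nil))) (.cons (.rf (nat_lit 5049) (nat_lit 391150375968)) .nil)))) (.cons (.rf (nat_lit 5027) (nat_lit 424436467744)) .nil))))) (.cons (.br (nat_lit 6) (nat_lit 0) (.cons (.kr (nat_lit 18446744073709551616) (nat_lit 4722366482869645213696) (nat_lit 8) (nat_lit 0)) (.cons (.br (nat_lit 11) (nat_lit 0) (.cons (.br (nat_lit 10) (nat_lit 0) (.cons (.ev (nat_lit 309489750634854586584662016) (nat_lit 1)) (.cons (.rf (nat_lit 5049) (nat_lit 391179835424)) .nil))) (.cons (.br (nat_lit 9) (nat_lit 0) (.cons (.ev (nat_lit 309489750634854586584662016) (nat_lit 1)) (.cons (.rf (nat_lit 5049) (nat_lit 391146312736)) .nil))) (.cons (.rf (nat_lit 4970) (nat_lit 395)) .nil)))) (.cons (.br (nat_lit 9) (nat_lit 0) (.cons (.br (nat_lit 10) (nat_lit 0) (.cons (.ev (nat_lit 620183668045245196190023936) (nat_lit 2)) (.cons (.rf (nat_lit 5030) (nat_lit 13583141505056)) .nil))) (.cons (.ev (nat_lit 309485009821627643229896704) (nat_lit 1)) (.cons (.rf (nat_lit 5049) (nat_lit 391150375968))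 .nil)))) (.cons (.rf (nat_lit 5027) (nat_lit 424436467744)) .nil))))) (.cons (.rf (nat_lit 5027) (nat_lit 424432277536)) .nil)))))) .nil)))))),
 (.br (nat_lit 9) (nat_lit 0) (.cons (.rf (nat_lit 5048) (nat_lit 11584701642934304)) (.cons (.rf (nat_lit 5050) (nat_lit 11584701642934304)) (.cons (.kr (nat_lit 18446744073709551616) (nat_lit 4722366482869645213696) (nat_lit 8) (nat_lit 0)) (.cons (.kr (nat_lit 9444732965739307204608) (nat_lit 18518801672042446848) (nat_lit 3) (nat_lit 0)) (.cons (.br (nat_lit 1) (nat_lit 0) (.cons (.kr (nat_lit 18446744073709552128) (nat_lit 281474993553408) (nat_lit 1) (nat_lit 0)) (.cons (.br (nat_lit 2) (nat_lit 0) (.cons (.zr (nat_lit 281474976776705) (nat_lit 18446744078038073344) (nat_lit 5) (nat_lit 0)) (.cons (.zr (nat_lit 36893769630985814017) (nat_lit 4722510598057721070336) (nat_lit 5) (nat_lit 6)) (.cons (.rf (nat_lit 5049) (nat_lit 424432277536)) .nil)))) (.cons (.br (nat_lit 2) (nat_lit 0) (.cons (.zr (nat_lit 144396667364376577)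 (nat_lit 55340232221128655616) (nat_lit 5) (nat_lit 2)) (.cons (.zr (nat_lit 281474976776705) (nat_lit 72057602644639744) (nat_lit 5) (nat_lit 0)) (.cons (.zr (nat_lit 144396667364376577) (nat_lit 4759259971017064317696) (nat_lit 5) (nat_lit 2)) (.cons (.rf (nat_lit 5049) (nat_lit 424432277536)) .nil))))) (.cons (.br (nat_lit 2) (nat_lit 0) (.cons (.zr (nat_lit 14167099730092502351873) (nat_lit 37037603335494959872) (nat_lit 5) (nat_lit 6)) (.cons (.zr (nat_lit 18447025548686328321) (nat_lit 9444732965743618949120) (nat_lit 5) (nat_lit 0)) (.cons (.zr (nat_lit 9444733247222857138177) (nat_lit 18590859261785408256) (nat_lit 5) (nat_lit 6)) (.cons (.rf (nat_lit 5027) (nat_lit 424432309280)) .nil))))) (.cons (.rf (nat_lit 5049) (nat_lit 424431228992)) .nil)))))) .nil))))))]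

theorem c183 : chkAll C T R L183 (nat_lit 5024) = true := by decide +kernel

theorem l183 : (nat_lit 5024) + L183.length = (nat_lit 5053) := by decide +kernel

/-- part of the certificates -/
def L184 : List Prf := [(.br (nat_lit 10) (nat_lit 0) (.cons (.rf (nat_lit 5041) (nat_lit 179298786018570)) (.cons (.rf (nat_lit 5006) (nat_lit 37490777072906)) (.cons (.rf (nat_lit 5041) (nat_lit 42031894336522)) (.cons (.rf (nat_lit 4970) (nat_lit 362)) .nil))))),
 (.br (nat_lit 10) (nat_lit 0) (.cons (.kr (nat_lit 9463179709813016756736) (nat_lit 2417851711289055705563136) (nat_lit 1) (nat_lit 0)) (.cons (.br (nat_lit 1) (nat_lit 0) (.cons (.ev (nat_lit 310698658079500165894439168) (nat_lit 1)) (.cons (.rf (nat_lit 5027) (nat_lit 391183009824)) .nil))) (.cons (.ev (nat_lit 309489732187829037881688064) (nat_lit 1)) (.cons (.rf (nat_lit 4996) (nat_lit 13583142520864)) .nil))))),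
 (.br (nat_lit 11) (nat_lit 0) (.cons (.zr (nat_lit 309485028268370626001043456) (nat_lit 4722438540463699919360) (nat_lit 5) (nat_lit 6)) (.cons (.rf (nat_lit 5054) (nat_lit 407901468851537952)) (.cons (.br (nat_lit 1) (nat_lit 0) (.cons (.ev (nat_lit 1856919522612750736026895878) (nat_lit 3)) (.cons (.br (nat_lit 12) (nat_lit 0) (.cons (.ev (nat_lit 4740813509522154848513) (nat_lit 1)) (.cons (.rf (nat_lit 4970) (nat_lit 428)) .nil))) .nil))) (.cons (.rf (nat_lit 4970) (nat_lit 395)) .nil))))),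
 (.br (nat_lit 11) (nat_lit 0) (.cons (.rf (nat_lit 5053) (nat_lit 12465445892362561)) (.cons (.rf (nat_lit 5054) (nat_lit 407901468851537952)) (.cons (.rf (nat_lit 5055) (nat_lit 407901468851537952)) (.cons (.br (nat_lit 11) (nat_lit 0) (.cons (.ev (nat_lit 310693935640959697899553024) (nat_lit 1)) (.cons (.ev (nat_lit 309489732187829037881688064) (nat_lit 1)) (.cons (.rf (nat_lit 5055) (nat_lit 407901468851537952)) (.cons (.rf (nat_lit 4970) (nat_lit 395)) .nil))))) (.cons (.rf (nat_lit 4970) (nat_lit 395)) .nil)))))),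
 (.br (nat_lit 1) (nat_lit 0) (.cons (.ev (nat_lit 282574488338689) (nat_lit 1)) (.cons (.kr (nat_lit 9463179709813016756736) (nat_lit 2417851711289055705563136) (nat_lit 1) (nat_lit 0)) (.cons (.ev (nat_lit 4740813509522154848513) (nat_lit 1)) (.cons (.br (nat_lit 12) (nat_lit 0) (.cons (.br (nat_lit 12) (nat_lit 0) (.cons (.rf (nat_lit 4996) (nat_lit 13583142520864)) (.cons (.rf (nat_lit 4970) (nat_lit 395)) (.cons (.rf (nat_lit 4970) (nat_lit 428)) .nil)))) (.cons (.rf (nat_lit 4996) (nat_lit 13583142520864)) (.cons (.rf (nat_lit 4970) (nat_lit 395)) (.cons (.rf (nat_lit 4970) (nat_lit 428)) .nil))))) .nil))))),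
 (.br (nat_lit 11) (nat_lit 0) (.cons (.rf (nat_lit 5053) (nat_lit 12570965626163393)) (.cons (.rf (nat_lit 5056) (nat_lit 407901468851537952)) (.cons (.rf (nat_lit 5057) (nat_lit 407901468851537952)) (.cons (.br (nat_lit 11) (nat_lit 0) (.cons (.rf (nat_lit 5006) (nat_lit 78351247184939)) (.cons (.ev (nat_lit 309489732187829037881688064) (nat_lit 1)) (.cons (.rf (nat_lit 5057) (nat_lit 407901468851537952)) (.cons (.rf (nat_lit 4970) (nat_lit 395)) .nil))))) (.cons (.rf (nat_lit 4970) (nat_lit 395)) .nil)))))),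
 (.br (nat_lit 11) (nat_lit 0) (.cons (.rf (nat_lit 5053) (nat_lit 12606150258330785)) (.cons (.rf (nat_lit 5056) (nat_lit 407901468851537952)) (.cons (.rf (nat_lit 5058) (nat_lit 407901468851537952)) (.cons (.br (nat_lit 11) (nat_lit 0) (.cons (.rf (nat_lit 5041) (nat_lit 78351246170155)) (.cons (.rf (nat_lit 5056) (nat_lit 407901468851537952)) (.cons (.rf (nat_lit 5058) (nat_lit 407901468851537952)) (.cons (.rf (nat_lit 4970) (nat_lit 395)) .nil))))) (.cons (.rf (nat_lit 4970) (nat_lit 395)) .nil)))))),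
 (.br (nat_lit 9) (nat_lit 0) (.cons (.rf (nat_lit 5048) (nat_lit 11584701642934304)) (.cons (.kr (nat_lit 72057594037927936) (nat_lit 4722366482869645213696) (nat_lit 7) (nat_lit 0)) (.cons (.rf (nat_lit 5051) (nat_lit 11584701642934304)) (.cons (.kr (nat_lit 9444732965739307204608) (nat_lit 18518801672042446848) (nat_lit 3) (nat_lit 0)) (.cons (.br (nat_lit 11) (nat_lit 0) (.cons (.br (nat_lit 10) (nat_lit 0) (.cons (.br (nat_lit 5) (nat_lit 0) (.cons (.rf (nat_lit 4973) (nat_lit 387962672192)) (.cons (.rf (nat_lit 5053) (nat_lit 12570965626163393)) (.cons (.rf (nat_lit 5027) (nat_lit 424468879392)) .nil)))) (.cons (.zr (nat_lit 1208925963730916762190593) (nat_lit 14167099448613280940032) (nat_lit 5) (nat_lit 0)) (.cons (.br (nat_lit 2) (nat_lit 0) (.cons (.rf (nat_lit 4973) (nat_lit 387961620672)) (.cons (.rf (nat_lit 5053) (nat_lit 12465445892362561)) (.cons (.rf (nat_lit 5027) (nat_lit 424465863712)) .nil)))) (.cons (.rf (nat_lit 5053) (nat_lit 12746920901610561))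 (.cons (.rf (nat_lit 4996) (nat_lit 13583142520864)) .nil)))))) (.cons (.rf (nat_lit 5056) (nat_lit 407901468851537952)) (.cons (.rf (nat_lit 5058) (nat_lit 407901468851537952)) (.cons (.rf (nat_lit 5059) (nat_lit 407901468851537952)) (.cons (.br (nat_lit 11) (nat_lit 0) (.cons (.rf (nat_lit 5053) (nat_lit 12746920901610561)) (.cons (.rf (nat_lit 5056) (nat_lit 407901468851537952)) (.cons (.rf (nat_lit 5058) (nat_lit 407901468851537952)) (.cons (.rf (nat_lit 5059) (nat_lit 407901468851537952)) (.cons (.rf (nat_lit 4970) (nat_lit 395)) .nil)))))) (.cons (.rf (nat_lit 4970) (nat_lit 395)) .nil))))))) .nil)))))),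
 (.br (nat_lit 10) (nat_lit 0) (.cons (.rf (nat_lit 5053) (nat_lit 11303226633686304)) (.cons (.rf (nat_lit 5053) (nat_lit 11408746367487136)) (.cons (.rf (nat_lit 5053) (nat_lit 11443930999654528)) (.cons (.rf (nat_lit 5053) (nat_lit 11584701642934304)) (.cons (.rf (nat_lit 4970) (nat_lit 362)) .nil)))))),
 (.br (nat_lit 12) (nat_lit 0) (.cons (.rf (nat_lit 4970) (nat_lit 384)) (.cons (.rf (nat_lit 5053) (nat_lit 13696865533006017)) (.cons (.br (nat_lit 12) (nat_lit 0) (.cons (.rf (nat_lit 4970) (nat_lit 384)) (.cons (.rf (nat_lit 5006) (nat_lit 215618136839468)) (.cons (.rf (nat_lit 4970) (nat_lit 395)) (.cons (.rf (nat_lit 4970) (nat_lit 428)) .nil))))) (.cons (.rf (nat_lit 4970) (nat_lit 395)) (.cons (.rf (nat_lit 4970) (nat_lit 428)) .nil)))))),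
 (.br (nat_lit 11) (nat_lit 0) (.cons (.rf (nat_lit 4970) (nat_lit 352)) (.cons (.rf (nat_lit 5053) (nat_lit 12465445892362561)) (.cons (.rf (nat_lit 5062) (nat_lit 14242959524133701664)) (.cons (.br (nat_lit 11) (nat_lit 0) (.cons (.rf (nat_lit 4970) (nat_lit 352)) (.cons (.rf (nat_lit 5041) (nat_lit 215618137852203)) (.cons (.rf (nat_lit 5062) (nat_lit 14242959524133701664)) (.cons (.rf (nat_lit 4970) (nat_lit 395)) (.cons (.rf (nat_lit 4970) (nat_lit 427)) .nil)))))) (.cons (.rf (nat_lit 4970) (nat_lit 395)) (.cons (.rf (nat_lit 4970) (nat_lit 427)) .nil))))))),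
 (.br (nat_lit 12) (nat_lit 0) (.cons (.rf (nat_lit 4970) (nat_lit 384)) (.cons (.rf (nat_lit 5053) (nat_lit 13732050165173409)) (.cons (.rf (nat_lit 5063) (nat_lit 14242959524133701664)) (.cons (.br (nat_lit 12) (nat_lit 0) (.cons (.rf (nat_lit 4970) (nat_lit 384)) (.cons (.rf (nat_lit 5041) (nat_lit 78351246170156)) (.cons (.rf (nat_lit 5063) (nat_lit 14242959524133701664)) (.cons (.rf (nat_lit 4970) (nat_lit 395)) (.cons (.rf (nat_lit 4970) (nat_lit 428)) .nil)))))) (.cons (.rf (nat_lit 4970) (nat_lit 395)) (.cons (.rf (nat_lit 4970) (nat_lit 428)) .nil))))))),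
 (.br (nat_lit 12) (nat_lit 0) (.cons (.rf (nat_lit 4970) (nat_lit 384)) (.cons (.rf (nat_lit 5061) (nat_lit 13872820808453185)) (.cons (.rf (nat_lit 5063) (nat_lit 14242959524133701664)) (.cons (.rf (nat_lit 5064) (nat_lit 14242959524133701664)) (.cons (.br (nat_lit 12) (nat_lit 0) (.cons (.rf (nat_lit 4970) (nat_lit 384)) (.cons (.rf (nat_lit 5053) (nat_lit 13872820808453185)) (.cons (.rf (nat_lit 5063) (nat_lit 14242959524133701664)) (.cons (.rf (nat_lit 5064) (nat_lit 14242959524133701664)) (.cons (.rf (nat_lit 4970) (nat_lit 395)) (.cons (.rf (nat_lit 4970) (nat_lit 428)) .nil))))))) (.cons (.rf (nat_lit 4970) (nat_lit 395)) (.cons (.rf (nat_lit 4970) (nat_lit 428)) .nil)))))))),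
 (.br (nat_lit 11) (nat_lit 0) (.cons (.rf (nat_lit 4970) (nat_lit 352)) (.cons (.rf (nat_lit 5053) (nat_lit 12570965626163393)) (.cons (.rf (nat_lit 5065) (nat_lit 14242959524133701664)) (.cons (.br (nat_lit 11) (nat_lit 0) (.cons (.rf (nat_lit 4970) (nat_lit 352)) (.cons (.rf (nat_lit 5006) (nat_lit 78351247184939)) (.cons (.rf (nat_lit 5065) (nat_lit 14242959524133701664)) (.cons (.rf (nat_lit 4970) (nat_lit 395)) (.cons (.rf (nat_lit 4970) (nat_lit 427)) .nil)))))) (.cons (.rf (nat_lit 4970) (nat_lit 395)) (.cons (.rf (nat_lit 4970) (nat_lit 427)) .nil))))))),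
 (.br (nat_lit 12) (nat_lit 0) (.cons (.rf (nat_lit 4970) (nat_lit 384)) (.cons (.rf (nat_lit 5061) (nat_lit 13872820808453185)) (.cons (.rf (nat_lit 5065) (nat_lit 13126066816545818656)) (.cons (.rf (nat_lit 5066) (nat_lit 14242959524133701664)) (.cons (.br (nat_lit 12) (nat_lit 0) (.cons (.rf (nat_lit 4970) (nat_lit 384)) (.cons (.rf (nat_lit 5053) (nat_lit 13872820808453185)) (.cons (.rf (nat_lit 5065) (nat_lit 13126066816545818656)) (.cons (.rf (nat_lit 5066) (nat_lit 14242959524133701664)) (.cons (.rf (nat_lit 4970) (nat_lit 395)) (.cons (.rf (nat_lit 4970) (nat_lit 428)) .nil))))))) (.cons (.rf (nat_lit 4970) (nat_lit 395)) (.cons (.rf (nat_lit 4970) (nat_lit 428)) .nil)))))))),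
 (.br (nat_lit 12) (nat_lit 0) (.cons (.rf (nat_lit 4970) (nat_lit 384)) (.cons (.rf (nat_lit 5061) (nat_lit 13872820808453185)) (.cons (.rf (nat_lit 5065) (nat_lit 13126066816545818656)) (.cons (.rf (nat_lit 5067) (nat_lit 13126066816545818656)) (.cons (.br (nat_lit 12) (nat_lit 0) (.cons (.rf (nat_lit 4970) (nat_lit 384)) (.cons (.rf (nat_lit 5053) (nat_lit 13872820808453185)) (.cons (.rf (nat_lit 5065) (nat_lit 13126066816545818656)) (.cons (.rf (nat_lit 5067) (nat_lit 13126066816545818656)) (.cons (.rf (nat_lit 4970) (nat_lit 395)) (.cons (.rf (nat_lit 4970) (nat_lit 428)) .nil))))))) (.cons (.rf (nat_lit 4970) (nat_lit 395)) (.cons (.rf (nat_lit 4970) (nat_lit 428)) .nil)))))))),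
 (.br (nat_lit 11) (nat_lit 0) (.cons (.rf (nat_lit 4970) (nat_lit 352)) (.cons (.rf (nat_lit 5061) (nat_lit 12746920901610561)) (.cons (.rf (nat_lit 5065) (nat_lit 14242959524133701664)) (.cons (.rf (nat_lit 5067) (nat_lit 14242959524133701664)) (.cons (.rf (nat_lit 5068) (nat_lit 14242959524133701664)) (.cons (.br (nat_lit 11) (nat_lit 0) (.cons (.rf (nat_lit 4970) (nat_lit 352)) (.cons (.rf (nat_lit 5053) (nat_lit 12746920901610561)) (.cons (.rf (nat_lit 5065) (nat_lit 14242959524133701664)) (.cons (.rf (nat_lit 5067) (nat_lit 14242959524133701664)) (.cons (.rf (nat_lit 5068) (nat_lit 14242959524133701664)) (.cons (.rf (nat_lit 4970) (nat_lit 395)) (.cons (.rf (nat_lit 4970) (nat_lit 427)) .nil)))))))) (.cons (.rf (nat_lit 4970) (nat_lit 395)) (.cons (.rf (nat_lit 4970) (nat_lit 427)) .nil))))))))),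
 (.br (nat_lit 6) (nat_lit 1) (.cons (.br (nat_lit 9) (nat_lit 0) (.cons (.rf (nat_lit 5048) (nat_lit 11584701642934304)) (.cons (.rf (nat_lit 5050) (nat_lit 11584701642934304)) (.cons (.rf (nat_lit 5051) (nat_lit 11584701642934304)) (.cons (.rf (nat_lit 5052) (nat_lit 11584701642934304)) (.cons (.rf (nat_lit 5060) (nat_lit 11584701642934304)) (.cons (.br (nat_lit 9) (nat_lit 0) (.cons (.rf (nat_lit 5048) (nat_lit 11584701642934304)) (.cons (.rf (nat_lit 5050) (nat_lit 11584701642934304)) (.cons (.rf (nat_lit 5051) (nat_lit 11584701642934304)) (.cons (.rf (nat_lit 5052) (nat_lit 11584701642934304)) (.cons (.rf (nat_lit 5060) (nat_lit 11584701642934304)) (.cons (.rf (nat_lit 5069) (nat_lit 14242959524133701664)) .nil))))))) .nil))))))) .nil)),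
 (.br (nat_lit 8) (nat_lit 0) (.cons (.br (nat_lit 9) (nat_lit 1) (.cons (.rf (nat_lit 5007) (nat_lit 325702574508064)) (.cons (.rf (nat_lit 5041) (nat_lit 325702574508064)) (.cons (.br (nat_lit 7) (nat_lit 0) (.cons (.rf (nat_lit 4971) (nat_lit 269605)) (.cons (.rf (nat_lit 4971) (nat_lit 269606)) (.cons (.br (nat_lit 10) (nat_lit 1) (.cons (.rf (nat_lit 1056) (nat_lit 323432791378017)) (.cons (.br (nat_lit 5) (nat_lit 1) (.cons (.rf (nat_lit 5070) (nat_lit 11584701642934304)) (.cons (.br (nat_lit 6) (nat_lit 1) (.cons (.rf (nat_lit 5070) (nat_lit 11584700602746912)) .nil)) .nil))) .nil))) .nil)))) .nil)))) .nil)),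
 (.br (nat_lit 6) (nat_lit 1) (.cons (.rf (nat_lit 4971) (nat_lit 134337)) (.cons (.br (nat_lit 5) (nat_lit 1) (.cons (.rf (nat_lit 5071) (nat_lit 7977973158944)) (.cons (.rf (nat_lit 5071) (nat_lit 7977972143136)) (.cons (.rf (nat_lit 5071) (nat_lit 4507610351776)) .nil)))) .nil))),
 (.br (nat_lit 8) (nat_lit 0) (.cons (.rf (nat_lit 5071) (nat_lit 9043225708576)) (.cons (.br (nat_lit 8) (nat_lit 0) (.cons (.rf (nat_lit 5071) (nat_lit 9043225708576)) (.cons (.br (nat_lit 6) (nat_lit 1) (.cons (.br (nat_lit 6) (nat_lit 1) (.cons (.rf (nat_lit 4971) (nat_lit 134337)) (.cons (.rf (nat_lit 1056) (nat_lit 361915694155873)) .nil))) (.cons (.rf (nat_lit 5072) (nat_lit 11584701642934304)) (.cons (.br (nat_lit 6) (nat_lit 1) (.cons (.rf (nat_lit 1056) (nat_lit 361915694155873)) (.cons (.rf (nat_lit 5072) (nat_lit 11584701642934304)) .nil))) .nil)))) .nil))) .nil))),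
 (.br (nat_lit 2) (nat_lit 1) (.cons (.rf (nat_lit 4971) (nat_lit 134209)) (.cons (.br (nat_lit 7) (nat_lit 1) (.cons (.br (nat_lit 8) (nat_lit 0) (.cons (.rf (nat_lit 5073) (nat_lit 9043225708576)) (.cons (.rf (nat_lit 5073) (nat_lit 9042185521184)) (.cons (.br (nat_lit 8) (nat_lit 0) (.cons (.rf (nat_lit 5073) (nat_lit 9043225708576)) (.cons (.rf (nat_lit 5073) (nat_lit 9042185521184)) (.cons (.br (nat_lit 8) (nat_lit 0) (.cons (.rf (nat_lit 5073) (nat_lit 9043225708576)) (.cons (.rf (nat_lit 5073) (nat_lit 9042185521184)) .nil))) .nil)))) .nil)))) .nil)) .nil))),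
 (.br (nat_lit 2) (nat_lit 1) (.cons (.rf (nat_lit 5074) (nat_lit 6614517792)) (.cons (.rf (nat_lit 5074) (nat_lit 6613501984)) (.cons (.br (nat_lit 7) (nat_lit 1) (.cons (.br (nat_lit 2) (nat_lit 1) (.cons (.rf (nat_lit 5074) (nat_lit 6614517792)) (.cons (.rf (nat_lit 5074) (nat_lit 6613501984)) (.cons (.br (nat_lit 5) (nat_lit 1) (.cons (.rf (nat_lit 5074) (nat_lit 6513857568)) (.cons (.rf (nat_lit 5074) (nat_lit 6512841760)) (.cons (.rf (nat_lit 5074) (nat_lit 6484628544)) (.cons (.rf (nat_lit 5074) (nat_lit 6483612736)) .nil))))) .nil)))) .nil)) .nil)))),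
 (.br (nat_lit 9) (nat_lit 0) (.cons (.rf (nat_lit 5010) (nat_lit 291475949814944)) (.cons (.ev (nat_lit 18518801667747479809) (nat_lit 1)) (.cons (.br (nat_lit 9) (nat_lit 0) (.cons (.rf (nat_lit 4972) (nat_lit 352493569184)) (.cons (.ev (nat_lit 18518801667747479809) (nat_lit 1)) (.cons (.rf (nat_lit 4976) (nat_lit 12448161760320)) .nil)))) .nil)))),
 (.br (nat_lit 6) (nat_lit 0) (.cons (.rf (nat_lit 4973) (nat_lit 247131604096)) (.cons (.br (nat_lit 6) (nat_lit 0) (.cons (.rf (nat_lit 4973) (nat_lit 247131604096)) (.cons (.rf (nat_lit 5030) (nat_lit 9043225707584)) .nil))) (.cons (.rf (nat_lit 5030) (nat_lit 9043225707584)) .nil)))),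
 (.br (nat_lit 2) (nat_lit 0) (.cons (.ev (nat_lit 4722438540463683207169) (nat_lit 1)) (.cons (.rf (nat_lit 5076) (nat_lit 327937061685408)) (.cons (.rf (nat_lit 5077) (nat_lit 389002987552)) .nil)))),
 (.br (nat_lit 6) (nat_lit 0) (.cons (.rf (nat_lit 4970) (nat_lit 192)) (.cons (.rf (nat_lit 4970) (nat_lit 230)) (.cons (.rf (nat_lit 4973) (nat_lit 210623497312)) .nil)))),
 (.br (nat_lit 9) (nat_lit 0) (.cons (.ev (nat_lit 4740813226943354765569) (nat_lit 1)) (.cons (.rf (nat_lit 5078) (nat_lit 11584701642934304)) (.cons (.br (nat_lit 10) (nat_lit 0) (.cons (.ev (nat_lit 1208944266359802395885569) (nat_lit 1)) (.cons (.rf (nat_lit 5079) (nat_lit 12156343328)) (.cons (.kr (nat_lit 1208925819614629174706432) (nat_lit 4722366483969156841472) (nat_lit 1) (nat_lit 0)) (.cons (.rf (nat_lit 4996) (nat_lit 13583142520864)) .nil))))) .nil)))),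
 (.br (nat_lit 6) (nat_lit 0) (.cons (.rf (nat_lit 4970) (nat_lit 192)) (.cons (.rf (nat_lit 4970) (nat_lit 197)) (.cons (.rf (nat_lit 4970) (nat_lit 230)) (.cons (.br (nat_lit 6) (nat_lit 0) (.cons (.rf (nat_lit 4970) (nat_lit 192)) (.cons (.rf (nat_lit 4970) (nat_lit 197)) (.cons (.rf (nat_lit 4970) (nat_lit 262)) (.cons (.br (nat_lit 6) (nat_lit 0) (.cons (.rf (nat_lit 4970) (nat_lit 192)) (.cons (.rf (nat_lit 4970) (nat_lit 197)) (.cons (.rf (nat_lit 4970) (nat_lit 294)) .nil)))) .nil))))) .nil))))),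
 (.br (nat_lit 6) (nat_lit 0) (.cons (.rf (nat_lit 5081) (nat_lit 7722862624)) (.cons (.rf (nat_lit 5081) (nat_lit 7722864672)) (.cons (.rf (nat_lit 4970) (nat_lit 230)) (.cons (.rf (nat_lit 4970) (nat_lit 262)) (.cons (.br (nat_lit 6) (nat_lit 0) (.cons (.rf (nat_lit 5081) (nat_lit 7722862624)) (.cons (.rf (nat_lit 5081) (nat_lit 7722864672)) (.cons (.rf (nat_lit 4970) (nat_lit 230)) (.cons (.rf (nat_lit 4970) (nat_lit 294)) .nil))))) .nil)))))),
 (.br (nat_lit 9) (nat_lit 0) (.cons (.rf (nat_lit 5076) (nat_lit 362021926307872)) (.cons (.rf (nat_lit 5078) (nat_lit 11584701642934304)) (.cons (.rf (nat_lit 5080) (nat_lit 11584701642934304)) (.cons (.br (nat_lit 9) (nat_lit 0) (.cons (.rf (nat_lit 5076) (nat_lit 362021926307872)) (.cons (.rf (nat_lit 5078) (nat_lit 11584701642934304)) (.cons (.rf (nat_lit 5080) (nat_lit 11584701642934304)) (.cons (.rf (nat_lit 5082) (nat_lit 424436467744)) .nil))))) .nil))))),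
 (.br (nat_lit 5) (nat_lit 0) (.cons (.rf (nat_lit 5083) (nat_lit 11584701642933312)) (.cons (.br (nat_lit 2) (nat_lit 0) (.cons (.ev (nat_lit 18520494945836729860) (nat_lit 3)) (.cons (.br (nat_lit 9) (nat_lit 0) (.cons (.ev (nat_lit 7272444457084252716466180) (nat_lit 3)) (.cons (.rf (nat_lit 4972) (nat_lit 389002888352)) .nil))) (.cons (.rf (nat_lit 5077) (nat_lit 389001971744)) .nil)))) (.cons (.ev (nat_lit 18807599404901467652) (nat_lit 3)) (.cons (.br (nat_lit 2) (nat_lit 0) (.cons (.rf (nat_lit 5077) (nat_lit 388998829088)) (.cons (.rf (nat_lit 5077) (nat_lit 387958641696)) (.cons (.ev (nat_lit 18520494945836729860) (nat_lit 3)) (.cons (.rf (nat_lit 5081) (nat_lit 12219254816)) .nil))))) .nil))))),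
 (.br (nat_lit 5) (nat_lit 0) (.cons (.ev (nat_lit 4722366764348916891649) (nat_lit 1)) (.cons (.rf (nat_lit 5011) (nat_lit 353533855776)) .nil))),
 (.br (nat_lit 6) (nat_lit 0) (.cons (.rf (nat_lit 5011) (nat_lit 247132686368)) (.cons (.br (nat_lit 6) (nat_lit 0) (.cons (.rf (nat_lit 5011) (nat_lit 247132686368)) (.cons (.rf (nat_lit 5030) (nat_lit 9043223643232)) .nil))) (.cons (.rf (nat_lit 5030) (nat_lit 9043223643232)) .nil)))),
 (.br (nat_lit 9) (nat_lit 0) (.cons (.ev (nat_lit 1208925819897207958012161) (nat_lit 1)) (.cons (.rf (nat_lit 4972) (nat_lit 389002892320)) .nil))),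
 (.br (nat_lit 9) (nat_lit 0) (.cons (.ev (nat_lit 4722438540463683141889) (nat_lit 1)) (.cons (.kr (nat_lit 1208925819614629174706432) (nat_lit 4722366483969156841472) (nat_lit 1) (nat_lit 0)) (.cons (.rf (nat_lit 5049) (nat_lit 391146308768)) .nil)))),
 (.br (nat_lit 2) (nat_lit 0) (.cons (.rf (nat_lit 5076) (nat_lit 362021926306880)) (.cons (.rf (nat_lit 5084) (nat_lit 11584701642933312)) (.cons (.br (nat_lit 5) (nat_lit 0) (.cons (.ev (nat_lit 4740885566016664436993) (nat_lit 1)) (.cons (.rf (nat_lit 5085) (nat_lit 362021926340640)) (.cons (.rf (nat_lit 5086) (nat_lit 389002987552)) .nil)))) (.cons (.br (nat_lit 5) (nat_lit 0) (.cons (.rf (nat_lit 5087) (nat_lit 11584701642934304)) (.cons (.ev (nat_lit 4722438540467994951681) (nat_lit 1)) (.cons (.rf (nat_lit 5085) (nat_lit 327937061655616)) (.cons (.br (nat_lit 6) (nat_lit 0) (.cons (.ev (nat_lit 4740813226947666510081) (nat_lit 1)) (.cons (.rf (nat_lit 5011) (nat_lit 387957561408)) (.cons (.br (nat_lit 9)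 (nat_lit 0) (.cons (.ev (nat_lit 1208925819897203679887361) (nat_lit 1)) (.cons (.br (nat_lit 10) (nat_lit 0) (.cons (.ev (nat_lit 7263018458255109572789252) (nat_lit 3)) (.cons (.rf (nat_lit 5049) (nat_lit 391184025632)) .nil))) (.cons (.rf (nat_lit 5049) (nat_lit 391150470208)) .nil)))) (.cons (.rf (nat_lit 5027) (nat_lit 424469922976)) .nil))))) .nil))))) (.cons (.br (nat_lit 5) (nat_lit 0) (.cons (.rf (nat_lit 5077) (nat_lit 388997777568)) (.cons (.rf (nat_lit 5086) (nat_lit 389002892320)) (.cons (.br (nat_lit 6) (nat_lit 0) (.cons (.ev (nat_lit 4740813226947666510081) (nat_lit 1)) (.cons (.ev (nat_lit 1208944266359806707630081) (nat_lit 1)) (.cons (.br (nat_lit 11) (nat_lit 0) (.cons (.rf (nat_lit 5088) (nat_lit 406810753181550752)) (.cons (.rf (nat_lit 5088) (nat_lit 407901468851537952)) (.cons (.rf (nat_lit 4970) (nat_lit 395)) .nil)))) (.cons (.rf (nat_lit 5027) (nat_lit 424470021184)) .nil))))) (.cons (.br (nat_lit 6) (nat_lit 0) (.cons (.ev (nat_lit 4740813226947666510081)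 (nat_lit 1)) (.cons (.br (nat_lit 11) (nat_lit 0) (.cons (.br (nat_lit 10) (nat_lit 0) (.cons (.ev (nat_lit 1856919522180970337854948870) (nat_lit 3)) (.cons (.rf (nat_lit 5049) (nat_lit 391182882848)) .nil))) (.cons (.br (nat_lit 9) (nat_lit 0) (.cons (.ev (nat_lit 1856919522180970337854948870) (nat_lit 3)) (.cons (.rf (nat_lit 5049) (nat_lit 391149454400)) .nil))) (.cons (.rf (nat_lit 4970) (nat_lit 395)) .nil)))) (.cons (.br (nat_lit 10) (nat_lit 0) (.cons (.br (nat_lit 10) (nat_lit 0) (.cons (.zr (nat_lit 4759259972116609695747) (nat_lit 618970019715310685735879936) (nat_lit 5) (nat_lit 2)) (.cons (.rf (nat_lit 5030) (nat_lit 13583137313856)) .nil))) (.cons (.br (nat_lit 9) (nat_lit 0) (.cons (.zr (nat_lit 4759259972116609695747) (nat_lit 618970019715310685735879936) (nat_lit 5) (nat_lit 2)) (.cons (.rf (nat_lit 5049) (nat_lit 391150470208)) .nil))) (.cons (.rf (nat_lit 5030) (nat_lit 13583137313856)) .nil)))) (.cons (.rf (nat_lit 5027) (nat_lit 424436339776))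 .nil))))) (.cons (.rf (nat_lit 5027) (nat_lit 424435292224)) .nil)))))) .nil))))))]

theorem c184 : chkAll C T R L184 (nat_lit 5053) = true := by decide +kernel

theorem l184 : (nat_lit 5053) + L184.length = (nat_lit 5090) := by decide +kernel

/-- part of the certificates -/
def L185 : List Prf := [(.br (nat_lit 5) (nat_lit 0) (.cons (.rf (nat_lit 4973) (nat_lit 242871340064)) .nil)),
 (.br (nat_lit 2) (nat_lit 0) (.cons (.rf (nat_lit 5076) (nat_lit 327937062732960)) (.cons (.rf (nat_lit 5084) (nat_lit 11584701642933312)) (.cons (.rf (nat_lit 5089) (nat_lit 11584701642933312)) (.cons (.br (nat_lit 5) (nat_lit 0) (.cons (.rf (nat_lit 5090) (nat_lit 11045865504)) (.cons (.ev (nat_lit 1208925891673327036006401) (nat_lit 1)) (.cons (.rf (nat_lit 5086) (nat_lit 387962800160)) .nil)))) (.cons (.br (nat_lit 5) (nat_lit 0) (.cons (.rf (nat_lit 5077) (nat_lit 387957590176)) (.cons (.br (nat_lit 6) (nat_lit 0) (.cons (.rf (nat_lit 5011) (nat_lit 388997650592)) (.cons (.rf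 (nat_lit 5011) (nat_lit 387961657376)) (.cons (.br (nat_lit 11) (nat_lit 0) (.cons (.ev (nat_lit 4722366764344638701569) (nat_lit 1)) (.cons (.ev (nat_lit 1208944338698875705491713) (nat_lit 1)) (.cons (.rf (nat_lit 4970) (nat_lit 395)) .nil)))) (.cons (.rf (nat_lit 5027) (nat_lit 424436466752)) .nil))))) (.cons (.rf (nat_lit 5086) (nat_lit 387962704928)) (.cons (.br (nat_lit 6) (nat_lit 0) (.cons (.br (nat_lit 11) (nat_lit 0) (.cons (.ev (nat_lit 4722366764348916957441) (nat_lit 1)) (.cons (.ev (nat_lit 1208944338698875705491713) (nat_lit 1)) (.cons (.rf (nat_lit 4970) (nat_lit 395)) .nil)))) (.cons (.rf (nat_lit 5086) (nat_lit 387961657376)) (.cons (.br (nat_lit 10) (nat_lit 0) (.cons (.ev (nat_lit 1208925819897203679822081) (nat_lit 1)) (.cons (.kr (nat_lit 2417870085973336354062338) (nat_lit 618970019715310681457689088) (nat_lit 0) (nat_lit 5)) (.cons (.rf (nat_lit 5049) (nat_lit 391184024640)) .nil)))) (.cons (.rf (nat_lit 5027) (nat_lit 424469894208)) .nil)))))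 (.cons (.rf (nat_lit 5027) (nat_lit 424468846656)) .nil)))))) .nil)))))),
 (.br (nat_lit 7) (nat_lit 0) (.cons (.rf (nat_lit 4970) (nat_lit 263)) (.cons (.br (nat_lit 7) (nat_lit 0) (.cons (.rf (nat_lit 4970) (nat_lit 295)) .nil)) .nil))),
 (.br (nat_lit 6) (nat_lit 0) (.cons (.rf (nat_lit 5049) (nat_lit 8794477607)) (.cons (.rf (nat_lit 5001) (nat_lit 9904400205863)) .nil))),
 (.br (nat_lit 10) (nat_lit 0) (.cons (.ev (nat_lit 309485028268371716922736896) (nat_lit 1)) (.cons (.br (nat_lit 6) (nat_lit 0) (.cons (.ev (nat_lit 309485028268371716922736896) (nat_lit 1)) (.cons (.rf (nat_lit 5030) (nat_lit 13200927131691)) .nil))) (.cons (.br (nat_lit 6) (nat_lit 0) (.cons (.rf (nat_lit 5015) (nat_lit 424432150720)) (.cons (.ev (nat_lit 309485028268371716922736896) (nat_lit 1)) (.cons (.rf (nat_lit 5093) (nat_lit 13583142520864)) (.cons (.rf (nat_lit 5001) (nat_lit 13208440178731)) .nil))))) .nil)))),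
 (.br (nat_lit 11) (nat_lit 0) (.cons (.br (nat_lit 9) (nat_lit 0) (.cons (.br (nat_lit 9) (nat_lit 0) (.cons (.rf (nat_lit 5092) (nat_lit 424436467744)) .nil)) (.cons (.rf (nat_lit 5092) (nat_lit 424436467744)) .nil))) (.cons (.rf (nat_lit 5094) (nat_lit 407901468851537952)) (.cons (.rf (nat_lit 5094) (nat_lit 406810753316784160)) (.cons (.rf (nat_lit 4970) (nat_lit 395)) .nil))))),
 (.br (nat_lit 6) (nat_lit 0) (.cons (.rf (nat_lit 5030) (nat_lit 8799520950311)) (.cons (.rf (nat_lit 5093) (nat_lit 9043224692768)) (.cons (.rf (nat_lit 5001) (nat_lit 9904399190055)) .nil)))),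
 (.br (nat_lit 11) (nat_lit 0) (.cons (.rf (nat_lit 5095) (nat_lit 407901468851537952)) (.cons (.br (nat_lit 5) (nat_lit 0) (.cons (.ev (nat_lit 4722366764344638701569) (nat_lit 1)) (.cons (.br (nat_lit 9) (nat_lit 0) (.cons (.ev (nat_lit 1223092991966369475002626) (nat_lit 2)) (.cons (.rf (nat_lit 5030) (nat_lit 13582101317664)) .nil))) (.cons (.rf (nat_lit 5096) (nat_lit 13583142520864)) .nil)))) (.cons (.br (nat_lit 5) (nat_lit 0) (.cons (.br (nat_lit 9) (nat_lit 0) (.cons (.ev (nat_lit 310698658007442571839734016) (nat_lit 1)) (.cons (.rf (nat_lit 5049) (nat_lit 391150375968)) .nil))) (.cons (.ev (nat_lit 309485009893685237251047424) (nat_lit 1)) (.cons (.rf (nat_lit 5096) (nat_lit 13582102333472)) .nil)))) (.cons (.rf (nat_lit 4970) (nat_lit 395)) .nil))))),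
 (.br (nat_lit 11) (nat_lit 0) (.cons (.rf (nat_lit 5094) (nat_lit 407901468851537952)) (.cons (.rf (nat_lit 5097) (nat_lit 407901468851537952)) (.cons (.br (nat_lit 5) (nat_lit 0) (.cons (.br (nat_lit 9) (nat_lit 0) (.cons (.ev (nat_lit 7263018171150659198649348) (nat_lit 3)) (.cons (.rf (nat_lit 5081) (nat_lit 13263635616)) .nil))) (.cons (.zr (nat_lit 618970019858862919613680130) (nat_lit 9463179712016318857216) (nat_lit 20) (nat_lit 1)) (.cons (.br (nat_lit 6) (nat_lit 0) (.cons (.ev (nat_lit 2446204645723682098905092) (nat_lit 3)) (.cons (.rf (nat_lit 5027) (nat_lit 424470022176)) .nil))) (.cons (.br (nat_lit 6) (nat_lit 0) (.cons (.rf (nat_lit 5027) (nat_lit 424435451936)) (.cons (.rf (nat_lit 5027) (nat_lit 424469006368)) (.cons (.br (nat_lit 12) (nat_lit 0) (.cons (.br (nat_lit 10) (nat_lit 0) (.cons (.zr (nat_lit 1109194275200207944217664947200) (nat_lit 2446351858829749561327628) (nat_lit 10) (nat_lit 12)) (.cons (.rf (nat_lit 5004) (nat_lit 470979979675680))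 .nil))) (.cons (.kr (nat_lit 2417870085973332075741186) (nat_lit 618970019715310685735878656) (nat_lit 0) (nat_lit 1)) (.cons (.rf (nat_lit 4970) (nat_lit 428)) .nil)))) (.cons (.rf (nat_lit 5004) (nat_lit 470597597693995)) .nil))))) .nil))))) (.cons (.rf (nat_lit 4970) (nat_lit 395)) .nil))))),
 (.br (nat_lit 11) (nat_lit 0) (.cons (.br (nat_lit 12) (nat_lit 0) (.cons (.br (nat_lit 10) (nat_lit 0) (.cons (.ev (nat_lit 319395830933594685396639942156) (nat_lit 4)) (.cons (.rf (nat_lit 5004) (nat_lit 470979979675680)) .nil))) (.cons (.br (nat_lit 9) (nat_lit 0) (.cons (.ev (nat_lit 319395830933594685396639942156) (nat_lit 4)) (.cons (.rf (nat_lit 5004) (nat_lit 436895119214624)) .nil))) (.cons (.rf (nat_lit 4970) (nat_lit 428)) .nil)))) (.cons (.ev (nat_lit 309485028340147840278921216) (nat_lit 1)) (.cons (.rf (nat_lit 4970) (nat_lit 427)) .nil)))),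
 (.br (nat_lit 11) (nat_lit 0) (.cons (.rf (nat_lit 5099) (nat_lit 14242959524133701664)) (.cons (.br (nat_lit 11) (nat_lit 0) (.cons (.rf (nat_lit 5099) (nat_lit 14242959524133701664)) (.cons (.rf (nat_lit 4970) (nat_lit 395)) (.cons (.rf (nat_lit 4970) (nat_lit 427)) .nil)))) (.cons (.rf (nat_lit 4970) (nat_lit 395)) (.cons (.rf (nat_lit 4970) (nat_lit 427)) .nil))))),
 (.br (nat_lit 12) (nat_lit 0) (.cons (.rf (nat_lit 5100) (nat_lit 14242959524133701664)) (.cons (.br (nat_lit 12) (nat_lit 0) (.cons (.rf (nat_lit 5100) (nat_lit 14242959524133701664)) (.cons (.rf (nat_lit 4970) (nat_lit 395)) (.cons (.rf (nat_lit 4970) (nat_lit 428)) .nil)))) (.cons (.rf (nat_lit 4970) (nat_lit 395)) (.cons (.rf (nat_lit 4970) (nat_lit 428)) .nil))))),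
 (.br (nat_lit 12) (nat_lit 0) (.cons (.rf (nat_lit 5100) (nat_lit 14242959524133701664)) (.cons (.rf (nat_lit 5101) (nat_lit 14242959524133701664)) (.cons (.br (nat_lit 12) (nat_lit 0) (.cons (.rf (nat_lit 5100) (nat_lit 14242959524133701664)) (.cons (.rf (nat_lit 5101) (nat_lit 14242959524133701664)) (.cons (.rf (nat_lit 4970) (nat_lit 395)) (.cons (.rf (nat_lit 4970) (nat_lit 428)) .nil))))) (.cons (.rf (nat_lit 4970) (nat_lit 395)) (.cons (.rf (nat_lit 4970) (nat_lit 428)) .nil)))))),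
 (.br (nat_lit 6) (nat_lit 0) (.cons (.rf (nat_lit 4970) (nat_lit 192)) (.cons (.rf (nat_lit 4970) (nat_lit 197)) (.cons (.rf (nat_lit 4970) (nat_lit 230)) (.cons (.br (nat_lit 6) (nat_lit 0) (.cons (.rf (nat_lit 4970) (nat_lit 192)) (.cons (.rf (nat_lit 4970) (nat_lit 197)) (.cons (.rf (nat_lit 4970) (nat_lit 230)) (.cons (.br (nat_lit 6) (nat_lit 0) (.cons (.rf (nat_lit 4970) (nat_lit 192)) (.cons (.rf (nat_lit 4970) (nat_lit 197)) (.cons (.rf (nat_lit 4970) (nat_lit 230)) .nil)))) .nil))))) .nil))))),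
 (.br (nat_lit 4) (nat_lit 0) (.cons (.rf (nat_lit 5103) (nat_lit 213846658080)) (.cons (.rf (nat_lit 5103) (nat_lit 179520441408)) (.cons (.rf (nat_lit 5103) (nat_lit 178480253024)) (.cons (.rf (nat_lit 5027) (nat_lit 246158592032)) .nil))))),
 (.br (nat_lit 9) (nat_lit 1) (.cons (.rf (nat_lit 0) (nat_lit 211663684713)) (.cons (.br (nat_lit 6) (nat_lit 1) (.cons (.br (nat_lit 4) (nat_lit 0) (.cons (.br (nat_lit 10) (nat_lit 1) (.cons (.br (nat_lit 1) (nat_lit 0) (.cons (.kr (nat_lit 256) (nat_lit 65536) (nat_lit 1) (nat_lit 0)) (.cons (.rf (nat_lit 5083) (nat_lit 11584701642934304)) (.cons (.rf (nat_lit 5084) (nat_lit 11584701642934304)) (.cons (.rf (nat_lit 5089) (nat_lit 11584701642934304)) (.cons (.rf (nat_lit 5091) (nat_lit 11584701642934304)) (.cons (.br (nat_lit 2) (nat_lit 0) (.cons (.rf (nat_lit 5083) (nat_lit 11584701642933312)) (.cons (.rf (nat_lit 5084) (nat_lit 11584701642933312)) (.cons (.rf (nat_lit 5089) (nat_lit 11584701642933312)) (.cons (.rf (nat_lit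 5091) (nat_lit 11584701642933312)) (.cons (.br (nat_lit 11) (nat_lit 0) (.cons (.rf (nat_lit 5095) (nat_lit 407901468851537952)) (.cons (.rf (nat_lit 5097) (nat_lit 407901468851537952)) (.cons (.rf (nat_lit 5098) (nat_lit 407901468851537952)) (.cons (.br (nat_lit 11) (nat_lit 0) (.cons (.rf (nat_lit 5094) (nat_lit 406810753316784160)) (.cons (.rf (nat_lit 5097) (nat_lit 407901468851537952)) (.cons (.rf (nat_lit 5098) (nat_lit 407901468851537952)) (.cons (.rf (nat_lit 4970) (nat_lit 395)) .nil))))) (.cons (.rf (nat_lit 4970) (nat_lit 395)) .nil)))))) (.cons (.br (nat_lit 5) (nat_lit 0) (.cons (.rf (nat_lit 5081) (nat_lit 13256295584)) (.cons (.rf (nat_lit 5027) (nat_lit 424432277536)) (.cons (.rf (nat_lit 5027) (nat_lit 424465831968)) (.cons (.rf (nat_lit 5102) (nat_lit 14242959524133701664)) (.cons (.rf (nat_lit 5102) (nat_lit 13126066816545817664)) (.cons (.rf (nat_lit 5104) (nat_lit 459937056800)) .nil))))))) .nil))))))) .nil))))))) .nil)) .nil)) .nil)) .nil))),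
 (.br (nat_lit 6) (nat_lit 0) (.cons (.rf (nat_lit 5090) (nat_lit 10004502592)) (.cons (.br (nat_lit 9) (nat_lit 0) (.cons (.ev (nat_lit 1223093135518594729443586) (nat_lit 2)) (.cons (.rf (nat_lit 4972) (nat_lit 389001970752)) .nil))) (.cons (.rf (nat_lit 5077) (nat_lit 388998797344)) .nil)))),
 (.br (nat_lit 9) (nat_lit 0) (.cons (.br (nat_lit 10) (nat_lit 0) (.cons (.kr (nat_lit 1213648186097498819919874) (nat_lit 618970019642691236961190144) (nat_lit 0) (nat_lit 2)) (.cons (.rf (nat_lit 5081) (nat_lit 13264652320)) .nil))) (.cons (.rf (nat_lit 5081) (nat_lit 13263603744)) .nil))),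
 (.br (nat_lit 2) (nat_lit 0) (.cons (.kr (nat_lit 281474976710912) (nat_lit 1099511693312) (nat_lit 1) (nat_lit 0)) (.cons (.rf (nat_lit 5106) (nat_lit 11584701642934304)) (.cons (.rf (nat_lit 5106) (nat_lit 10489450627041312)) (.cons (.br (nat_lit 6) (nat_lit 0) (.cons (.rf (nat_lit 5077) (nat_lit 389002987552)) (.cons (.rf (nat_lit 5077) (nat_lit 387962800160)) (.cons (.br (nat_lit 9) (nat_lit 0) (.cons (.rf (nat_lit 5107) (nat_lit 407901468851537952)) (.cons (.br (nat_lit 10) (nat_lit 0) (.cons (.rf (nat_lit 5107) (nat_lit 407901468851537952)) (.cons (.zr (nat_lit 18518803871082872836) (nat_lit 618970019643816037356406784) (nat_lit 10) (nat_lit 2)) (.cons (.rf (nat_lit 5081) (nat_lit 13264652320)) .nil)))) (.cons (.rf (nat_lit 5081) (nat_lit 13263603744)) .nil)))) (.cons (.rf (nat_lit 5081) (nat_lit 13260458016)) .nil))))) .nil))))),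
 (.br (nat_lit 6) (nat_lit 0) (.cons (.zr (nat_lit 282574488404225) (nat_lit 2427296372194997639839744) (nat_lit 5) (nat_lit 0)) (.cons (.rf (nat_lit 5011) (nat_lit 388998829088)) .nil))),
 (.br (nat_lit 11) (nat_lit 0) (.cons (.br (nat_lit 11) (nat_lit 0) (.cons (.ev (nat_lit 4722438540467994951681) (nat_lit 1)) (.cons (.ev (nat_lit 1208925891953698189344769) (nat_lit 1)) (.cons (.rf (nat_lit 4970) (nat_lit 395)) .nil)))) (.cons (.ev (nat_lit 4722438540467994951681) (nat_lit 1)) (.cons (.ev (nat_lit 1208944266359802395951361) (nat_lit 1)) (.cons (.rf (nat_lit 4970) (nat_lit 395)) .nil))))),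
 (.br (nat_lit 2) (nat_lit 0) (.cons (.rf (nat_lit 5108) (nat_lit 11584701642933312)) (.cons (.rf (nat_lit 5108) (nat_lit 11584700602745920)) (.cons (.br (nat_lit 5) (nat_lit 0) (.cons (.ev (nat_lit 4740885285641199354113) (nat_lit 1)) (.cons (.br (nat_lit 6) (nat_lit 0) (.cons (.zr (nat_lit 282574488404225) (nat_lit 18518801672059224064) (nat_lit 5) (nat_lit 0)) (.cons (.rf (nat_lit 5011) (nat_lit 389001971744)) .nil))) (.cons (.rf (nat_lit 5086) (nat_lit 389002987552)) .nil)))) (.cons (.br (nat_lit 5) (nat_lit 0) (.cons (.kr (nat_lit 1099511627776) (nat_lit 281474976710656) (nat_lit 5) (nat_lit 0)) (.cons (.rf (nat_lit 5109) (nat_lit 11584701642934304)) (.cons (.rf (nat_lit 5109) (nat_lit 10489450627040320)) (.cons (.br (nat_lit 6) (nat_lit 0) (.cons (.rf (nat_lit 5011) (nat_lit 388998797344)) (.cons (.rf (nat_lit 5011) (nat_lit 387957561408)) (.cons (.br (nat_lit 11) (nat_lit 0) (.cons (.ev (nat_lit 9463396730327168909570) (nat_lit 2)) (.cons (.ev (nat_lit 2417851783627025259102466)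 (nat_lit 2)) (.cons (.rf (nat_lit 4970) (nat_lit 395)) .nil)))) (.cons (.rf (nat_lit 5027) (nat_lit 424469922976)) .nil))))) .nil))))) (.cons (.br (nat_lit 9) (nat_lit 0) (.cons (.rf (nat_lit 5086) (nat_lit 389002892320)) (.cons (.rf (nat_lit 5086) (nat_lit 389001844768)) (.cons (.br (nat_lit 5) (nat_lit 0) (.cons (.kr (nat_lit 1099511627776) (nat_lit 281474976710656) (nat_lit 5) (nat_lit 0)) (.cons (.rf (nat_lit 5110) (nat_lit 407901468851537952)) (.cons (.br (nat_lit 6) (nat_lit 0) (.cons (.rf (nat_lit 5110) (nat_lit 407901467811350560)) (.cons (.ev (nat_lit 4740813509522154848513) (nat_lit 1)) (.cons (.rf (nat_lit 5027) (nat_lit 424436339776)) .nil)))) (.cons (.rf (nat_lit 5027) (nat_lit 424435292224)) .nil))))) (.cons (.ev (nat_lit 4740813226943354830849) (nat_lit 1)) (.cons (.rf (nat_lit 5049) (nat_lit 391146308768)) .nil)))))) .nil)))))),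
 (.br (nat_lit 11) (nat_lit 0) (.cons (.br (nat_lit 9) (nat_lit 0) (.cons (.br (nat_lit 9) (nat_lit 0) (.cons (.rf (nat_lit 5092) (nat_lit 424436467744)) .nil)) (.cons (.rf (nat_lit 5092) (nat_lit 424436467744)) .nil))) (.cons (.rf (nat_lit 5105) (nat_lit 356350525933611)) (.cons (.rf (nat_lit 5105) (nat_lit 325701668538411)) (.cons (.rf (nat_lit 4970) (nat_lit 395)) .nil))))),
 (.br (nat_lit 11) (nat_lit 0) (.cons (.br (nat_lit 9) (nat_lit 0) (.cons (.rf (nat_lit 5081) (nat_lit 12890473771)) (.cons (.br (nat_lit 10) (nat_lit 0) (.cons (.ev (nat_lit 475989177643386843281359896580) (nat_lit 3)) (.cons (.rf (nat_lit 5103) (nat_lit 426646874144)) .nil))) (.cons (.rf (nat_lit 5103) (nat_lit 426646873120)) .nil)))) (.cons (.rf (nat_lit 4970) (nat_lit 395)) (.cons (.rf (nat_lit 4970) (nat_lit 427)) .nil)))),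
 (.br (nat_lit 5) (nat_lit 0) (.cons (.kr (nat_lit 1099511627776) (nat_lit 281474976710656) (nat_lit 5) (nat_lit 0)) (.cons (.rf (nat_lit 5111) (nat_lit 11579096579709088)) (.cons (.rf (nat_lit 5111) (nat_lit 10492916526094496)) (.cons (.rf (nat_lit 5112) (nat_lit 407901468851537952)) (.cons (.br (nat_lit 6) (nat_lit 0) (.cons (.rf (nat_lit 5027) (nat_lit 424435451936)) (.cons (.rf (nat_lit 5027) (nat_lit 424469006368)) (.cons (.rf (nat_lit 5112) (nat_lit 407901467811350560)) (.cons (.br (nat_lit 11) (nat_lit 0) (.cons (.rf (nat_lit 5113) (nat_lit 14242959524133701664)) (.cons (.rf (nat_lit 5113) (nat_lit 14241864273117808672)) (.cons (.rf (nat_lit 4970) (nat_lit 395)) (.cons (.rf (nat_lit 4970) (nat_lit 427)) .nil))))) (.cons (.rf (nat_lit 5103) (nat_lit 426646870048)) .nil)))))) .nil)))))),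
 (.br (nat_lit 11) (nat_lit 0) (.cons (.br (nat_lit 9) (nat_lit 0) (.cons (.ev (nat_lit 2475917876744818085603970560) (nat_lit 4)) (.cons (.br (nat_lit 10) (nat_lit 0) (.cons (.ev (nat_lit 318151822634212062723773170180) (nat_lit 3)) (.cons (.rf (nat_lit 5103) (nat_lit 426649921568)) .nil))) (.cons (.rf (nat_lit 5103) (nat_lit 426649920544)) .nil)))) (.cons (.rf (nat_lit 4970) (nat_lit 395)) (.cons (.rf (nat_lit 4970) (nat_lit 427)) .nil)))),
 (.br (nat_lit 6) (nat_lit 0) (.cons (.rf (nat_lit 5027) (nat_lit 424432309280)) (.cons (.rf (nat_lit 5027) (nat_lit 424465863712)) (.cons (.rf (nat_lit 5112) (nat_lit 406809683734698144)) (.cons (.br (nat_lit 11) (nat_lit 0) (.cons (.rf (nat_lit 5115) (nat_lit 14242959524133701664)) (.cons (.rf (nat_lit 5115) (nat_lit 14241864273117808672)) (.cons (.rf (nat_lit 4970) (nat_lit 395)) (.cons (.rf (nat_lit 4970) (nat_lit 427)) .nil))))) (.cons (.rf (nat_lit 5103) (nat_lit 426649917472)) .nil)))))),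
 (.br (nat_lit 3) (nat_lit 0) (.cons (.rf (nat_lit 5075) (nat_lit 6513853600)) (.cons (.rf (nat_lit 5075) (nat_lit 5440111808)) (.cons (.br (nat_lit 5) (nat_lit 1) (.cons (.rf (nat_lit 5105) (nat_lit 325702574508064)) (.cons (.br (nat_lit 6) (nat_lit 1) (.cons (.rf (nat_lit 5105) (nat_lit 325701534320672)) (.cons (.br (nat_lit 4) (nat_lit 0) (.cons (.rf (nat_lit 5040) (nat_lit 76505256105)) (.cons (.br (nat_lit 9) (nat_lit 1) (.cons (.rf (nat_lit 1056) (nat_lit 318896194458762)) (.cons (.br (nat_lit 10) (nat_lit 1) (.cons (.br (nat_lit 1) (nat_lit 0) (.cons (.kr (nat_lit 256) (nat_lit 65536) (nat_lit 1) (nat_lit 0)) (.cons (.rf (nat_lit 5108) (nat_lit 11584701642934304)) (.cons (.rf (nat_lit 5108) (nat_lit 11584700602746912)) (.cons (.rf (nat_lit 5111) (nat_lit 11584701642934304)) (.cons (.rf (nat_lit 5111) (nat_lit 10489450627041312)) (.cons (.br (nat_lit 2) (nat_lit 0) (.cons (.rf (nat_lit 5108) (nat_lit 11584701642933312)) (.cons (.rf (nat_lit 5108) (nat_lit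 11584700602745920)) (.cons (.rf (nat_lit 5111) (nat_lit 11584701642933312)) (.cons (.rf (nat_lit 5111) (nat_lit 10489450627040320)) (.cons (.rf (nat_lit 5114) (nat_lit 407901468851537952)) (.cons (.br (nat_lit 5) (nat_lit 0) (.cons (.kr (nat_lit 1099511627776) (nat_lit 281474976710656) (nat_lit 5) (nat_lit 0)) (.cons (.rf (nat_lit 5027) (nat_lit 424432277536)) (.cons (.rf (nat_lit 5027) (nat_lit 424465831968)) (.cons (.rf (nat_lit 5116) (nat_lit 14242959524133701664)) (.cons (.rf (nat_lit 5116) (nat_lit 13126066816545817664)) (.cons (.rf (nat_lit 5104) (nat_lit 459937056800)) .nil))))))) .nil))))))) .nil))))))) .nil)) .nil))) .nil))) .nil))) .nil))) .nil)))),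
 (.br (nat_lit 7) (nat_lit 0) (.cons (.br (nat_lit 9) (nat_lit 0) (.cons (.kr (nat_lit 72057594037927936) (nat_lit 18446744073709551616) (nat_lit 7) (nat_lit 0)) (.cons (.rf (nat_lit 4970) (nat_lit 329)) .nil))) .nil)),
 (.br (nat_lit 8) (nat_lit 0) (.cons (.ev (nat_lit 18518801672042446849) (nat_lit 1)) (.cons (.br (nat_lit 9) (nat_lit 0) (.cons (.ev (nat_lit 4722438540467978108929) (nat_lit 1)) (.cons (.kr (nat_lit 18446744073709551616) (nat_lit 4722366482869645213696) (nat_lit 8) (nat_lit 0)) (.cons (.rf (nat_lit 5081) (nat_lit 12156277792)) .nil)))) (.cons (.rf (nat_lit 5081) (nat_lit 12155229216)) .nil)))),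
 (.br (nat_lit 2) (nat_lit 0) (.cons (.br (nat_lit 9) (nat_lit 0) (.cons (.rf (nat_lit 5118) (nat_lit 11313150560288)) (.cons (.br (nat_lit 9) (nat_lit 0) (.cons (.rf (nat_lit 5118) (nat_lit 11313150560288)) (.cons (.rf (nat_lit 5082) (nat_lit 424436467744)) .nil))) .nil))) (.cons (.rf (nat_lit 5076) (nat_lit 362021922146464)) (.cons (.rf (nat_lit 5076) (nat_lit 327937061685408)) (.cons (.br (nat_lit 6) (nat_lit 0) (.cons (.rf (nat_lit 5077) (nat_lit 389002987552)) (.cons (.rf (nat_lit 5077) (nat_lit 387962800160)) (.cons (.br (nat_lit 9) (nat_lit 0) (.cons (.rf (nat_lit 5119) (nat_lit 12746920901609504)) (.cons (.br (nat_lit 10) (nat_lit 0) (.cons (.rf (nat_lit 5119) (nat_lit 12746920901609504)) (.cons (.rf (nat_lit 5117) (nat_lit 7977972148523)) (.cons (.rf (nat_lit 5081) (nat_lit 13264652320)) .nil)))) (.cons (.rf (nat_lit 5081) (nat_lit 13263603744)) .nil)))) (.cons (.rf (nat_lit 5081) (nat_lit 13260458016)) .nil))))) .nil))))),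
 (.br (nat_lit 6) (nat_lit 0) (.cons (.zr (nat_lit 9444733248313778896897) (nat_lit 18590859270392119296) (nat_lit 5) (nat_lit 0)) (.cons (.rf (nat_lit 5011) (nat_lit 388998829088)) .nil))),
 (.br (nat_lit 2) (nat_lit 0) (.cons (.rf (nat_lit 5076) (nat_lit 362021923194016)) (.cons (.rf (nat_lit 5076) (nat_lit 361880155849920)) (.cons (.br (nat_lit 5) (nat_lit 0) (.cons (.rf (nat_lit 5090) (nat_lit 10005678112)) (.cons (.ev (nat_lit 4740813228042866393089) (nat_lit 1)) (.cons (.rf (nat_lit 5086) (nat_lit 389002987552)) .nil)))) (.cons (.br (nat_lit 5) (nat_lit 0) (.cons (.ev (nat_lit 72903122808406786) (nat_lit 2)) (.cons (.rf (nat_lit 5121) (nat_lit 11584701642934304)) (.cons (.rf (nat_lit 5121) (nat_lit 10493986108179520)) (.cons (.br (nat_lit 6) (nat_lit 0) (.cons (.rf (nat_lit 5011) (nat_lit 388998797344)) (.cons (.rf (nat_lit 5011) (nat_lit 387957561408)) (.cons (.ev (nat_lit 18807601595234518532) (nat_lit 3)) (.cons (.rf (nat_lit 5027) (nat_lit 424469922976))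 .nil))))) .nil))))) (.cons (.br (nat_lit 5) (nat_lit 0) (.cons (.rf (nat_lit 5077) (nat_lit 388997777568)) (.cons (.rf (nat_lit 5086) (nat_lit 389002892320)) (.cons (.br (nat_lit 6) (nat_lit 0) (.cons (.rf (nat_lit 5011) (nat_lit 389001844768)) (.cons (.ev (nat_lit 1208944338697776193863681) (nat_lit 1)) (.cons (.ev (nat_lit 18807601595234518532) (nat_lit 3)) (.cons (.rf (nat_lit 5027) (nat_lit 424470021184)) .nil))))) (.cons (.br (nat_lit 6) (nat_lit 0) (.cons (.rf (nat_lit 5086) (nat_lit 389001844768)) (.cons (.ev (nat_lit 18520492721010247172) (nat_lit 3)) (.cons (.br (nat_lit 9) (nat_lit 0) (.cons (.br (nat_lit 10) (nat_lit 0) (.cons (.ev (nat_lit 2427296445098116169990146) (nat_lit 2)) (.cons (.rf (nat_lit 5030) (nat_lit 13583137313856)) .nil))) (.cons (.ev (nat_lit 309485009893684137739419904) (nat_lit 1)) (.cons (.rf (nat_lit 5049) (nat_lit 391150470208)) .nil)))) (.cons (.rf (nat_lit 5027) (nat_lit 424436339776)) .nil))))) (.cons (.rf (nat_lit 5027) (nat_lit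 424435292224)) .nil)))))) .nil))))))]

theorem c185 : chkAll C T R L185 (nat_lit 5090) = true := by decide +kernel

theorem l185 : (nat_lit 5090) + L185.length = (nat_lit 5123) := by decide +kernel

/-- part of the certificates -/
def L186 : List Prf := [(.br (nat_lit 11) (nat_lit 0) (.cons (.ev (nat_lit 618970019716721354943628802) (nat_lit 3)) (.cons (.rf (nat_lit 5117) (nat_lit 9046446934059)) (.cons (.rf (nat_lit 5117) (nat_lit 9047520675883)) (.cons (.rf (nat_lit 4970) (nat_lit 395)) .nil))))),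
 (.br (nat_lit 10) (nat_lit 0) (.cons (.rf (nat_lit 5117) (nat_lit 7911467189258)) (.cons (.rf (nat_lit 5117) (nat_lit 3376019604490)) (.cons (.rf (nat_lit 5117) (nat_lit 7912675148810)) (.cons (.rf (nat_lit 4970) (nat_lit 362)) .nil))))),
 (.br (nat_lit 11) (nat_lit 0) (.cons (.rf (nat_lit 4970) (nat_lit 352)) (.cons (.rf (nat_lit 5117) (nat_lit 9046446934059)) (.cons (.rf (nat_lit 5117) (nat_lit 3441383713067)) (.cons (.rf (nat_lit 4970) (nat_lit 395)) (.cons (.rf (nat_lit 4970) (nat_lit 427)) .nil)))))),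
 (.br (nat_lit 6) (nat_lit 0) (.cons (.rf (nat_lit 5027) (nat_lit 424432309280)) (.cons (.rf (nat_lit 5027) (nat_lit 424465863712)) (.cons (.br (nat_lit 11) (nat_lit 0) (.cons (.rf (nat_lit 5096) (nat_lit 13583142425632)) (.cons (.rf (nat_lit 5096) (nat_lit 13582102238240)) (.cons (.rf (nat_lit 4970) (nat_lit 395)) (.cons (.rf (nat_lit 4970) (nat_lit 427)) .nil))))) (.cons (.br (nat_lit 12) (nat_lit 0) (.cons (.rf (nat_lit 5125) (nat_lit 13115686360586529056)) (.cons (.rf (nat_lit 5125) (nat_lit 13115686360586528064)) (.cons (.rf (nat_lit 4970) (nat_lit 395)) (.cons (.rf (nat_lit 4970) (nat_lit 428)) .nil))))) (.cons (.rf (nat_lit 5103) (nat_lit 426649917472)) .nil)))))),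
 (.br (nat_lit 6) (nat_lit 1) (.cons (.rf (nat_lit 1056) (nat_lit 361919854774497)) (.cons (.br (nat_lit 5) (nat_lit 1) (.cons (.br (nat_lit 9) (nat_lit 1) (.cons (.br (nat_lit 10) (nat_lit 1) (.cons (.br (nat_lit 1) (nat_lit 0) (.cons (.kr (nat_lit 256) (nat_lit 65536) (nat_lit 1) (nat_lit 0)) (.cons (.rf (nat_lit 5120) (nat_lit 11584701642934304)) (.cons (.rf (nat_lit 5120) (nat_lit 11580165121607712)) (.cons (.rf (nat_lit 5122) (nat_lit 11584701642934304)) (.cons (.rf (nat_lit 5122) (nat_lit 10493986108180512)) (.cons (.br (nat_lit 2) (nat_lit 0) (.cons (.rf (nat_lit 5120) (nat_lit 11584701642933312)) (.cons (.rf (nat_lit 5120) (nat_lit 11580165121606720)) (.cons (.rf (nat_lit 5122) (nat_lit 11584701642933312)) (.cons (.rf (nat_lit 5122) (nat_lit 10493986108179520)) (.cons (.br (nat_lit 11) (nat_lit 0) (.cons (.rf (nat_lit 5123) (nat_lit 407901468851537952)) (.cons (.rf (nat_lit 5123) (nat_lit 407896932330211360)) (.cons (.rf (nat_lit 5124) (nat_lit 12746920901610561))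 (.cons (.rf (nat_lit 5124) (nat_lit 12712836041149505)) (.cons (.rf (nat_lit 4970) (nat_lit 395)) .nil)))))) (.cons (.br (nat_lit 5) (nat_lit 0) (.cons (.rf (nat_lit 5081) (nat_lit 13256295584)) (.cons (.rf (nat_lit 5027) (nat_lit 424432277536)) (.cons (.rf (nat_lit 5027) (nat_lit 424465831968)) (.cons (.rf (nat_lit 5126) (nat_lit 14242959524133701664)) (.cons (.rf (nat_lit 5126) (nat_lit 13126066816545817664)) (.cons (.rf (nat_lit 5104) (nat_lit 459937056800)) .nil))))))) .nil))))))) .nil))))))) .nil)) .nil)) (.cons (.rf (nat_lit 5117) (nat_lit 4507744569376)) .nil))) .nil))),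
 (.br (nat_lit 4) (nat_lit 0) (.cons (.rf (nat_lit 5117) (nat_lit 9043225708576)) (.cons (.br (nat_lit 4) (nat_lit 0) (.cons (.rf (nat_lit 5117) (nat_lit 9043225708576)) (.cons (.br (nat_lit 6) (nat_lit 1) (.cons (.rf (nat_lit 5127) (nat_lit 11584701642934304)) (.cons (.rf (nat_lit 1056) (nat_lit 361919850579174)) (.cons (.br (nat_lit 6) (nat_lit 1) (.cons (.rf (nat_lit 5127) (nat_lit 11584701642934304)) (.cons (.rf (nat_lit 5075) (nat_lit 5444437184)) .nil))) .nil)))) .nil))) .nil))),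
 (.br (nat_lit 4) (nat_lit 0) (.cons (.rf (nat_lit 5128) (nat_lit 9043225708576)) (.cons (.rf (nat_lit 5128) (nat_lit 9042185521184)) (.cons (.br (nat_lit 4) (nat_lit 0) (.cons (.rf (nat_lit 5128) (nat_lit 9043225708576)) (.cons (.rf (nat_lit 5128) (nat_lit 9042185521184)) (.cons (.br (nat_lit 4) (nat_lit 0) (.cons (.rf (nat_lit 5128) (nat_lit 9043225708576)) (.cons (.rf (nat_lit 5128) (nat_lit 9042185521184)) .nil))) .nil)))) .nil)))),
 (.br (nat_lit 6) (nat_lit 0) (.cons (.rf (nat_lit 4970) (nat_lit 192)) (.cons (.rf (nat_lit 4970) (nat_lit 230)) (.cons (.br (nat_lit 6) (nat_lit 0) (.cons (.rf (nat_lit 4970) (nat_lit 192)) (.cons (.rf (nat_lit 4970) (nat_lit 262)) .nil))) .nil)))),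
 (.br (nat_lit 10) (nat_lit 0) (.cons (.br (nat_lit 10) (nat_lit 0) (.cons (.kr (nat_lit 2417851639229258366189568) (nat_lit 18518801672042446848) (nat_lit 3) (nat_lit 0)) (.cons (.rf (nat_lit 5053) (nat_lit 12466511982727369)) (.cons (.rf (nat_lit 5049) (nat_lit 391179867168)) .nil)))) (.cons (.br (nat_lit 11) (nat_lit 0) (.cons (.ev (nat_lit 9444805869970200199426) (nat_lit 2)) (.cons (.kr (nat_lit 1208925819614629191483392) (nat_lit 4740813226943354765312) (nat_lit 3) (nat_lit 0)) (.cons (.rf (nat_lit 4970) (nat_lit 395)) .nil)))) (.cons (.rf (nat_lit 5053) (nat_lit 12466511982727369)) (.cons (.rf (nat_lit 5030) (nat_lit 13583137313856)) .nil))))),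
 (.br (nat_lit 10) (nat_lit 0) (.cons (.br (nat_lit 10) (nat_lit 0) (.cons (.ev (nat_lit 9444805869970200199426) (nat_lit 2)) (.cons (.rf (nat_lit 5053) (nat_lit 12572098549648425)) (.cons (.rf (nat_lit 5049) (nat_lit 391183009824)) .nil)))) (.cons (.ev (nat_lit 9444805869970200199426) (nat_lit 2)) (.cons (.rf (nat_lit 5053) (nat_lit 12572098549648425)) (.cons (.rf (nat_lit 5030) (nat_lit 13583137310880)) .nil))))),
 (.br (nat_lit 9) (nat_lit 0) (.cons (.kr (nat_lit 16777216) (nat_lit 4722366482869645213696) (nat_lit 3) (nat_lit 0)) (.cons (.kr (nat_lit 72057598349672448) (nat_lit 9463179709812999979008) (nat_lit 3) (nat_lit 0)) (.cons (.br (nat_lit 2) (nat_lit 0) (.cons (.rf (nat_lit 5090) (nat_lit 10004535328)) (.cons (.br (nat_lit 5) (nat_lit 0) (.cons (.zr (nat_lit 282574488404225) (nat_lit 18518801672059224064) (nat_lit 5) (nat_lit 0)) (.cons (.rf (nat_lit 5011) (nat_lit 388998797344)) .nil))) (.cons (.rf (nat_lit 5086) (nat_lit 389001844768)) .nil)))) (.cons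 (.br (nat_lit 2) (nat_lit 0) (.cons (.br (nat_lit 6) (nat_lit 0) (.cons (.ev (nat_lit 72904230876217602) (nat_lit 2)) (.cons (.rf (nat_lit 4973) (nat_lit 389001971744)) .nil))) (.cons (.br (nat_lit 5) (nat_lit 0) (.cons (.ev (nat_lit 4722439387100571762946) (nat_lit 2)) (.cons (.rf (nat_lit 4973) (nat_lit 389002987552)) .nil))) (.cons (.br (nat_lit 5) (nat_lit 0) (.cons (.ev (nat_lit 1218370553146621248471042) (nat_lit 2)) (.cons (.rf (nat_lit 5130) (nat_lit 12156307488)) .nil))) (.cons (.br (nat_lit 5) (nat_lit 0) (.cons (.rf (nat_lit 4973) (nat_lit 389002892320)) (.cons (.rf (nat_lit 5130) (nat_lit 12156212256)) (.cons (.br (nat_lit 6) (nat_lit 0) (.cons (.rf (nat_lit 5130) (nat_lit 12156213280)) (.cons (.br (nat_lit 10) (nat_lit 0) (.cons (.ev (nat_lit 310698658079781636559405056) (nat_lit 1)) (.cons (.rf (nat_lit 5030) (nat_lit 13583137313856)) .nil))) (.cons (.rf (nat_lit 5027) (nat_lit 424436339776)) .nil)))) (.cons (.rf (nat_lit 5027) (nat_lit 424435292224))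 .nil))))) .nil))))) (.cons (.br (nat_lit 11) (nat_lit 0) (.cons (.rf (nat_lit 5131) (nat_lit 407901468851537952)) (.cons (.rf (nat_lit 5132) (nat_lit 407901468851537952)) (.cons (.br (nat_lit 11) (nat_lit 0) (.cons (.rf (nat_lit 5131) (nat_lit 407901468851537952)) (.cons (.rf (nat_lit 5132) (nat_lit 407901468851537952)) (.cons (.rf (nat_lit 5053) (nat_lit 12607249601137737)) (.cons (.rf (nat_lit 4970) (nat_lit 395)) .nil))))) (.cons (.rf (nat_lit 5061) (nat_lit 12572098549648425)) (.cons (.rf (nat_lit 4970) (nat_lit 395)) .nil)))))) .nil)))))),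
 (.br (nat_lit 9) (nat_lit 0) (.cons (.rf (nat_lit 5133) (nat_lit 11584701642934304)) (.cons (.rf (nat_lit 5133) (nat_lit 11583635450856512)) (.cons (.rf (nat_lit 5133) (nat_lit 11584697212737696)) (.cons (.rf (nat_lit 5133) (nat_lit 11583631020659904)) (.cons (.br (nat_lit 10) (nat_lit 0) (.cons (.rf (nat_lit 5133) (nat_lit 10489450526381088)) (.cons (.rf (nat_lit 5133) (nat_lit 10489449418070080)) (.cons (.rf (nat_lit 5133) (nat_lit 10488381213738144)) (.cons (.rf (nat_lit 5133) (nat_lit 10488380105427136)) (.cons (.rf (nat_lit 5061) (nat_lit 12572098549648425)) (.cons (.rf (nat_lit 4996) (nat_lit 13583142520864)) .nil))))))) .nil)))))),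
 (.br (nat_lit 5) (nat_lit 0) (.cons (.ev (nat_lit 4722438823038171480321) (nat_lit 1)) (.cons (.rf (nat_lit 5087) (nat_lit 11580166061134880)) (.cons (.rf (nat_lit 5077) (nat_lit 388997780544)) .nil)))),
 (.br (nat_lit 5) (nat_lit 0) (.cons (.zr (nat_lit 1099511693825) (nat_lit 9463179709813016756224) (nat_lit 5) (nat_lit 0)) (.cons (.kr (nat_lit 2417851639229258349412864) (nat_lit 72058693566398464) (nat_lit 1) (nat_lit 0)) (.cons (.br (nat_lit 9) (nat_lit 0) (.cons (.ev (nat_lit 2417870302991647204639490) (nat_lit 2)) (.cons (.br (nat_lit 10) (nat_lit 0) (.cons (.ev (nat_lit 1859327929086101351381075462) (nat_lit 3)) (.cons (.rf (nat_lit 5049) (nat_lit 391184025632)) .nil))) (.cons (.rf (nat_lit 5049) (nat_lit 391150470208)) .nil)))) (.cons (.rf (nat_lit 5027) (nat_lit 391183926432)) .nil))))),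
 (.br (nat_lit 6) (nat_lit 0) (.cons (.rf (nat_lit 5135) (nat_lit 11584701642934304)) (.cons (.rf (nat_lit 5135) (nat_lit 11580166061134880)) (.cons (.zr (nat_lit 281474976711425) (nat_lit 9444805023333345132544) (nat_lit 5) (nat_lit 0)) (.cons (.br (nat_lit 2) (nat_lit 0) (.cons (.br (nat_lit 9) (nat_lit 0) (.cons (.ev (nat_lit 2427296444536278562636546) (nat_lit 2)) (.cons (.rf (nat_lit 4972) (nat_lit 389001971744)) .nil))) (.cons (.kr (nat_lit 18446744073726329088) (nat_lit 9444733247214267138048) (nat_lit 1) (nat_lit 0)) (.cons (.kr (nat_lit 2417851639229258349412608) (nat_lit 18447025548703039488) (nat_lit 1) (nat_lit 0)) (.cons (.br (nat_lit 9) (nat_lit 0) (.cons (.kr (nat_lit 72057598332895488) (nat_lit 9444733247214267138048) (nat_lit 1) (nat_lit 0)) (.cons (.rf (nat_lit 5130) (nat_lit 12156213280)) (.cons (.br (nat_lit 10) (nat_lit 0) (.cons (.kr (nat_lit 2417851639229258349412608) (nat_lit 72339073309605888) (nat_lit 1) (nat_lit 0)) (.cons (.kr (nat_lit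 1208925819614629174706432) (nat_lit 4722366764344621924352) (nat_lit 1) (nat_lit 0)) (.cons (.rf (nat_lit 5049) (nat_lit 391179835424)) .nil)))) (.cons (.rf (nat_lit 5049) (nat_lit 391146308768)) .nil))))) .nil))))) (.cons (.br (nat_lit 2) (nat_lit 0) (.cons (.rf (nat_lit 5077) (nat_lit 388997748800)) (.cons (.rf (nat_lit 5086) (nat_lit 389001971744)) (.cons (.rf (nat_lit 5136) (nat_lit 407901468851537952)) (.cons (.br (nat_lit 5) (nat_lit 0) (.cons (.zr (nat_lit 4722438541567489802241) (nat_lit 18447025548703040000) (nat_lit 5) (nat_lit 5)) (.cons (.rf (nat_lit 5136) (nat_lit 407896933269738528)) (.cons (.br (nat_lit 11) (nat_lit 0) (.cons (.ev (nat_lit 1856910169681719456669433862) (nat_lit 3)) (.cons (.rf (nat_lit 5129) (nat_lit 7976898406603)) (.cons (.rf (nat_lit 4970) (nat_lit 395)) .nil)))) (.cons (.rf (nat_lit 5027) (nat_lit 424435292224)) .nil))))) (.cons (.rf (nat_lit 5027) (nat_lit 391150343232)) .nil)))))) .nil)))))),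
 (.br (nat_lit 5) (nat_lit 0) (.cons (.rf (nat_lit 4977) (nat_lit 327795332089888)) (.cons (.zr (nat_lit 3298535080450) (nat_lit 9463323825005404356608) (nat_lit 10) (nat_lit 0)) (.cons (.br (nat_lit 6) (nat_lit 0) (.cons (.zr (nat_lit 282574488404225) (nat_lit 18518801672059224064) (nat_lit 5) (nat_lit 0)) (.cons (.rf (nat_lit 5011) (nat_lit 387958641696)) .nil))) (.cons (.br (nat_lit 10) (nat_lit 0) (.cons (.zr (nat_lit 844424930132225) (nat_lit 2417870085973336353931264) (nat_lit 5) (nat_lit 0)) (.cons (.ev (nat_lit 1208925819614633469739009) (nat_lit 1)) (.cons (.ev (nat_lit 1208944266359802395885569) (nat_lit 1)) (.cons (.rf (nat_lit 5049) (nat_lit 391183008832)) .nil))))) .nil))))),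
 (.br (nat_lit 1) (nat_lit 0) (.cons (.br (nat_lit 9) (nat_lit 0) (.cons (.zr (nat_lit 9444733529788755542017) (nat_lit 36965545745785552896) (nat_lit 5) (nat_lit 0)) (.cons (.rf (nat_lit 4972) (nat_lit 389002986560)) .nil))) (.cons (.zr (nat_lit 1099511693825) (nat_lit 9444805023337623322624) (nat_lit 5) (nat_lit 0)) (.cons (.rf (nat_lit 5138) (nat_lit 11584701642934304)) (.cons (.br (nat_lit 6) (nat_lit 0) (.cons (.rf (nat_lit 5011) (nat_lit 389001812032)) (.cons (.zr (nat_lit 564049465114625) (nat_lit 2417870085973332075741184) (nat_lit 5) (nat_lit 0)) (.cons (.br (nat_lit 11) (nat_lit 0) (.cons (.ev (nat_lit 9444877365705223241986) (nat_lit 2)) (.cons (.ev (nat_lit 2417851783627025259102466) (nat_lit 2)) (.cons (.rf (nat_lit 4970) (nat_lit 395)) .nil)))) (.cons (.rf (nat_lit 5027) (nat_lit 424470022176)) .nil))))) .nil))))),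
 (.br (nat_lit 10) (nat_lit 0) (.cons (.ev (nat_lit 1208925819614633469739009) (nat_lit 1)) (.cons (.rf (nat_lit 5139) (nat_lit 11584701642934304)) (.cons (.rf (nat_lit 5137) (nat_lit 10488380105427136)) (.cons (.br (nat_lit 1) (nat_lit 0) (.cons (.rf (nat_lit 5079) (nat_lit 12123706400)) (.cons (.rf (nat_lit 5079) (nat_lit 12123707424)) (.cons (.br (nat_lit 6) (nat_lit 0) (.cons (.rf (nat_lit 5079) (nat_lit 12123707552)) (.cons (.rf (nat_lit 5124) (nat_lit 12702907113771334)) (.cons (.rf (nat_lit 5027) (nat_lit 424436372512)) .nil)))) (.cons (.rf (nat_lit 5030) (nat_lit 12517986472992)) .nil))))) .nil))))),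
 (.br (nat_lit 10) (nat_lit 0) (.cons (.rf (nat_lit 5138) (nat_lit 11584701642934304)) (.cons (.rf (nat_lit 5139) (nat_lit 11584701642934304)) (.cons (.rf (nat_lit 5137) (nat_lit 10488380105427136)) (.cons (.rf (nat_lit 5140) (nat_lit 11584701642934304)) (.cons (.br (nat_lit 10) (nat_lit 0) (.cons (.rf (nat_lit 5138) (nat_lit 11584701642934304)) (.cons (.rf (nat_lit 5139) (nat_lit 11584701642934304)) (.cons (.rf (nat_lit 5137) (nat_lit 10488380105427136)) (.cons (.rf (nat_lit 5140) (nat_lit 11584701642934304)) (.cons (.br (nat_lit 1) (nat_lit 0) (.cons (.rf (nat_lit 5082) (nat_lit 424470022176)) (.cons (.rf (nat_lit 5082) (nat_lit 424469006368)) (.cons (.rf (nat_lit 5137) (nat_lit 11584701642934304)) (.cons (.rf (nat_lit 5030) (nat_lit 13583138362400)) (.cons (.rf (nat_lit 5030) (nat_lit 12517986472992)) (.cons (.rf (nat_lit 5030) (nat_lit 12552346211360)) .nil))))))) .nil)))))) .nil)))))),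
 (.br (nat_lit 9) (nat_lit 0) (.cons (.zr (nat_lit 281474976711425) (nat_lit 9444805023333345132544) (nat_lit 5) (nat_lit 0)) (.cons (.rf (nat_lit 5141) (nat_lit 11584701642934304)) (.cons (.rf (nat_lit 5141) (nat_lit 11580166061134880)) (.cons (.br (nat_lit 10) (nat_lit 0) (.cons (.br (nat_lit 2) (nat_lit 0) (.cons (.ev (nat_lit 72904230876217602) (nat_lit 2)) (.cons (.rf (nat_lit 5130) (nat_lit 12123707424)) .nil))) (.cons (.ev (nat_lit 4722438540463683207169) (nat_lit 1)) (.cons (.ev (nat_lit 4722366483969173618689) (nat_lit 1)) (.cons (.br (nat_lit 1) (nat_lit 0) (.cons (.rf (nat_lit 5079) (nat_lit 12123834400)) (.cons (.rf (nat_lit 5079) (nat_lit 12123837472)) (.cons (.br (nat_lit 11) (nat_lit 0) (.cons (.ev (nat_lit 4722366764348916957441) (nat_lit 1)) (.cons (.ev (nat_lit 4740813509517843104001) (nat_lit 1)) (.cons (.rf (nat_lit 4970) (nat_lit 395)) .nil)))) (.cons (.rf (nat_lit 5030) (nat_lit 12517990631456)) .nil))))) .nil))))) (.cons (.br (nat_lit 11)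 (nat_lit 0) (.cons (.br (nat_lit 10) (nat_lit 0) (.cons (.ev (nat_lit 4722366764348916957441) (nat_lit 1)) (.cons (.ev (nat_lit 4722438823042483224833) (nat_lit 1)) (.cons (.rf (nat_lit 5124) (nat_lit 12607282790665505)) (.cons (.rf (nat_lit 5030) (nat_lit 13583142520864)) .nil))))) (.cons (.ev (nat_lit 4722438540463683207169) (nat_lit 1)) (.cons (.ev (nat_lit 4722366483969173618689) (nat_lit 1)) (.cons (.br (nat_lit 11) (nat_lit 0) (.cons (.rf (nat_lit 5124) (nat_lit 12607282790665505)) (.cons (.ev (nat_lit 4722438540463683207169) (nat_lit 1)) (.cons (.ev (nat_lit 4722366483969173618689) (nat_lit 1)) (.cons (.rf (nat_lit 4970) (nat_lit 395)) .nil))))) (.cons (.rf (nat_lit 4970) (nat_lit 395)) .nil)))))) .nil)))))),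
 (.br (nat_lit 11) (nat_lit 0) (.cons (.ev (nat_lit 1240367354176376970468918272) (nat_lit 3)) (.cons (.ev (nat_lit 618979464447714570340073472) (nat_lit 2)) (.cons (.ev (nat_lit 1245221946921892865655439360) (nat_lit 3)) (.cons (.rf (nat_lit 4970) (nat_lit 395)) .nil))))),
 (.br (nat_lit 9) (nat_lit 0) (.cons (.rf (nat_lit 5137) (nat_lit 11584701642934304)) (.cons (.rf (nat_lit 5141) (nat_lit 11584701642934304)) (.cons (.rf (nat_lit 5141) (nat_lit 11580166061134880)) (.cons (.rf (nat_lit 5142) (nat_lit 11584701642934304)) (.cons (.br (nat_lit 10) (nat_lit 0) (.cons (.rf (nat_lit 5142) (nat_lit 10488380105427136)) (.cons (.rf (nat_lit 5141) (nat_lit 10488380105427136)) (.cons (.rf (nat_lit 5141) (nat_lit 10492915485906112)) (.cons (.rf (nat_lit 5137) (nat_lit 10488380105427136)) (.cons (.br (nat_lit 11) (nat_lit 0) (.cons (.rf (nat_lit 5124) (nat_lit 12607282790665505)) (.cons (.rf (nat_lit 5143) (nat_lit 407901468851537952)) (.cons (.rf (nat_lit 5143) (nat_lit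 407896933269738528)) (.cons (.rf (nat_lit 5124) (nat_lit 12465412601123142)) (.cons (.rf (nat_lit 4970) (nat_lit 395)) .nil)))))) (.cons (.rf (nat_lit 4996) (nat_lit 13583142520864)) .nil))))))) .nil)))))),
 (.br (nat_lit 10) (nat_lit 0) (.cons (.rf (nat_lit 5142) (nat_lit 10488380105427136)) (.cons (.rf (nat_lit 5141) (nat_lit 10488380105427136)) (.cons (.rf (nat_lit 5141) (nat_lit 10492915485906112)) (.cons (.rf (nat_lit 5137) (nat_lit 10488380105427136)) (.cons (.br (nat_lit 1) (nat_lit 0) (.cons (.rf (nat_lit 5082) (nat_lit 424436372512)) (.cons (.rf (nat_lit 5082) (nat_lit 424436467744)) (.cons (.rf (nat_lit 5082) (nat_lit 424435451936)) (.cons (.rf (nat_lit 5124) (nat_lit 12607282790665505)) (.cons (.rf (nat_lit 5124) (nat_lit 13733182697508129)) (.cons (.br (nat_lit 11) (nat_lit 0) (.cons (.rf (nat_lit 5103) (nat_lit 14371849515)) (.cons (.rf (nat_lit 5103) (nat_lit 14371947819)) (.cons (.rf (nat_lit 5103) (nat_lit 14371980587)) (.cons (.rf (nat_lit 4970)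 (nat_lit 395)) (.cons (.rf (nat_lit 4970) (nat_lit 427)) .nil)))))) .nil))))))) (.cons (.rf (nat_lit 5004) (nat_lit 470979979675680)) .nil))))))),
 (.br (nat_lit 10) (nat_lit 1) (.cons (.br (nat_lit 9) (nat_lit 0) (.cons (.rf (nat_lit 5137) (nat_lit 11584701642934304)) (.cons (.rf (nat_lit 5141) (nat_lit 11584701642934304)) (.cons (.rf (nat_lit 5141) (nat_lit 11580166061134880)) (.cons (.rf (nat_lit 5142) (nat_lit 11584701642934304)) (.cons (.rf (nat_lit 5144) (nat_lit 11584701642934304)) (.cons (.br (nat_lit 9) (nat_lit 0) (.cons (.rf (nat_lit 5137) (nat_lit 11584701642934304)) (.cons (.rf (nat_lit 5141) (nat_lit 11584701642934304)) (.cons (.rf (nat_lit 5141) (nat_lit 11580166061134880)) (.cons (.rf (nat_lit 5142) (nat_lit 11584701642934304)) (.cons (.rf (nat_lit 5144) (nat_lit 11584701642934304)) (.cons (.br (nat_lit 10) (nat_lit 0) (.cons (.rf (nat_lit 5142) (nat_lit 10488380105427136)) (.cons (.rf (nat_lit 5141) (nat_lit 10488380105427136)) (.cons (.rf (nat_lit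 5141) (nat_lit 10492915485906112)) (.cons (.rf (nat_lit 5137) (nat_lit 10488380105427136)) (.cons (.rf (nat_lit 5145) (nat_lit 14242959524133701664)) (.cons (.rf (nat_lit 5145) (nat_lit 13126066816545818656)) (.cons (.br (nat_lit 10) (nat_lit 0) (.cons (.rf (nat_lit 5142) (nat_lit 10488380105427136)) (.cons (.rf (nat_lit 5141) (nat_lit 10488380105427136)) (.cons (.rf (nat_lit 5141) (nat_lit 10492915485906112)) (.cons (.rf (nat_lit 5137) (nat_lit 10488380105427136)) (.cons (.rf (nat_lit 5004) (nat_lit 470979979675680)) (.cons (.rf (nat_lit 5004) (nat_lit 469914827786272)) .nil))))))) .nil)))))))) .nil))))))) .nil))))))) .nil)),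
 (.br (nat_lit 6) (nat_lit 1) (.cons (.rf (nat_lit 5129) (nat_lit 9038795511968)) (.cons (.br (nat_lit 4) (nat_lit 0) (.cons (.br (nat_lit 7) (nat_lit 0) (.cons (.br (nat_lit 10) (nat_lit 1) (.cons (.br (nat_lit 9) (nat_lit 0) (.cons (.rf (nat_lit 5133) (nat_lit 11584701642934304)) (.cons (.rf (nat_lit 5133) (nat_lit 11583635450856512)) (.cons (.rf (nat_lit 5133) (nat_lit 11584697212737696)) (.cons (.rf (nat_lit 5133) (nat_lit 11583631020659904)) (.cons (.rf (nat_lit 5134) (nat_lit 11584701642934304)) (.cons (.br (nat_lit 9) (nat_lit 0) (.cons (.rf (nat_lit 5133) (nat_lit 11584701642934304)) (.cons (.rf (nat_lit 5133) (nat_lit 11583635450856512)) (.cons (.rf (nat_lit 5133) (nat_lit 11584697212737696)) (.cons (.rf (nat_lit 5133) (nat_lit 11583631020659904)) (.cons (.rf (nat_lit 5134) (nat_lit 11584701642934304)) (.cons (.rf (nat_lit 5069) (nat_lit 14233947789397820736)) .nil))))))) .nil))))))) .nil)) .nil)) (.cons (.br (nat_lit 9) (nat_lit 1) (.cons (.rf (nat_lit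 5146) (nat_lit 11584701642934304)) (.cons (.rf (nat_lit 5146) (nat_lit 11583635450856512)) .nil))) .nil))) .nil))),
 (.br (nat_lit 3) (nat_lit 0) (.cons (.rf (nat_lit 5075) (nat_lit 6513853600)) (.cons (.rf (nat_lit 5075) (nat_lit 5440111808)) (.cons (.br (nat_lit 5) (nat_lit 1) (.cons (.rf (nat_lit 5147) (nat_lit 325702574508064)) (.cons (.rf (nat_lit 5147) (nat_lit 324637422617664)) .nil))) .nil)))),
 (.br (nat_lit 6) (nat_lit 1) (.cons (.rf (nat_lit 5129) (nat_lit 9042051307552)) (.cons (.rf (nat_lit 5129) (nat_lit 9038795511968)) (.cons (.rf (nat_lit 5075) (nat_lit 5444437184)) .nil))))]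

theorem c186 : chkAll C T R L186 (nat_lit 5123) = true := by decide +kernel

theorem l186 : (nat_lit 5123) + L186.length = (nat_lit 5150) := by decide +kernel

/-- part of the certificates -/
def L187 : List Prf := [(.br (nat_lit 6) (nat_lit 1) (.cons (.rf (nat_lit 5149) (nat_lit 4507643909152)) (.cons (.rf (nat_lit 5148) (nat_lit 9043225708576)) (.cons (.rf (nat_lit 5149) (nat_lit 9043225708576)) (.cons (.rf (nat_lit 5148) (nat_lit 4507643909152)) .nil))))),
 (.br (nat_lit 5) (nat_lit 1) (.cons (.rf (nat_lit 5075) (nat_lit 6513853600)) (.cons (.rf (nat_lit 5150) (nat_lit 9043225708576)) (.cons (.rf (nat_lit 5150) (nat_lit 7978073818176)) .nil)))),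
 (.br (nat_lit 2) (nat_lit 1) (.cons (.rf (nat_lit 5075) (nat_lit 6614516800)) (.cons (.rf (nat_lit 5129) (nat_lit 9043225708576)) (.cons (.br (nat_lit 4) (nat_lit 0) (.cons (.rf (nat_lit 5151) (nat_lit 9043225708576)) (.cons (.rf (nat_lit 5151) (nat_lit 9042185521184)) (.cons (.br (nat_lit 4) (nat_lit 0) (.cons (.rf (nat_lit 5151) (nat_lit 9043225708576)) (.cons (.rf (nat_lit 5151) (nat_lit 9042185521184)) (.cons (.br (nat_lit 4) (nat_lit 0) (.cons (.rf (nat_lit 5151) (nat_lit 9043225708576)) (.cons (.rf (nat_lit 5151) (nat_lit 9042185521184)) .nil))) .nil)))) .nil)))) .nil)))),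
 (.br (nat_lit 2) (nat_lit 1) (.cons (.rf (nat_lit 5075) (nat_lit 6614516800)) (.cons (.rf (nat_lit 5152) (nat_lit 4507744569376)) (.cons (.br (nat_lit 5) (nat_lit 1) (.cons (.rf (nat_lit 5152) (nat_lit 9043125048352)) (.cons (.rf (nat_lit 5152) (nat_lit 7977938588736)) (.cons (.rf (nat_lit 5152) (nat_lit 4507643909152)) (.cons (.rf (nat_lit 5152) (nat_lit 3442457449536)) .nil))))) .nil)))),
 (.br (nat_lit 0) (nat_lit 0) (.cons (.rf (nat_lit 4970) (nat_lit 32)) (.cons (.br (nat_lit 0) (nat_lit 0) (.cons (.rf (nat_lit 4970) (nat_lit 64)) (.cons (.br (nat_lit 1) (nat_lit 1) (.cons (.br (nat_lit 3) (nat_lit 1) (.cons (.br (nat_lit 0) (nat_lit 0) (.cons (.rf (nat_lit 4970) (nat_lit 160)) (.cons (.br (nat_lit 0) (nat_lit 0) (.cons (.rf (nat_lit 4970) (nat_lit 192)) (.cons (.br (nat_lit 1) (nat_lit 1) (.cons (.rf (nat_lit 5075) (nat_lit 6614517792)) (.cons (.br (nat_lit 7) (nat_lit 1) (.cons (.br (nat_lit 2) (nat_lit 1) (.cons (.rf (nat_lit 5152) (nat_lit 9043225708576))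 (.cons (.rf (nat_lit 5153) (nat_lit 9043225708576)) (.cons (.rf (nat_lit 5152) (nat_lit 4507744569376)) (.cons (.rf (nat_lit 5153) (nat_lit 4507744569376)) .nil))))) .nil)) .nil))) .nil))) .nil))) .nil)) .nil)) .nil))) .nil)))]

theorem c187 : chkAll C T R L187 (nat_lit 5150) = true := by decide +kernel

theorem l187 : (nat_lit 5150) + L187.length = (nat_lit 5155) := by decide +kernel

end Pool.Agent.H93.Neg.Q14_4_0_4_6_0
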