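import Pool.Agent.H93.Neg.TabQ14_4_4_0_4_2

/-!
Certificates.
-/

set_option autoImplicit false
set_option maxRecDepth 100000
set_option linter.all false

namespace Pool.Agent.H93.Neg.Q14_4_4_0_4_2

/-- part of the certificates -/
def L0 : List Prf := [(.br (nat_lit 3) (nat_lit 0) .nil),
 (.br (nat_lit 11) (nat_lit 0) (.cons (.rf (nat_lit 0) (nat_lit 398467)) .nil)),
 (.br (nat_lit 4) (nat_lit 1) (.cons (.br (nat_lit 9) (nat_lit 1) (.cons (.br (nat_lit 10) (nat_lit 0) (.cons (.br (nat_lit 9) (nat_lit 1) (.cons (.rf (nat_lit 1) (nat_lit 407901468851537952)) .nil)) (.cons (.rf (nat_lit 0) (nat_lit 365699)) .nil))) .nil)) .nil)),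
 (.br (nat_lit 11) (nat_lit 0) (.cons (.br (nat_lit 10) (nat_lit 0) (.cons (.rf (nat_lit 0) (nat_lit 398467)) .nil)) (.cons (.rf (nat_lit 0) (nat_lit 398467)) .nil))),
 (.br (nat_lit 7) (nat_lit 0) (.cons (.kr (nat_lit 16777216) (nat_lit 4294967296) (nat_lit 3) (nat_lit 0)) (.cons (.rf (nat_lit 0) (nat_lit 267395)) (.cons (.br (nat_lit 2) (nat_lit 0) (.cons (.br (nat_lit 6) (nat_lit 0) (.cons (.kr (nat_lit 281474976710912) (nat_lit 72057594037993472) (nat_lit 1) (nat_lit 0)) (.cons (.rf (nat_lit 0) (nat_lit 300163)) .nil))) (.cons (.br (nat_lit 8) (nat_lit 1) (.cons (.rf (nat_lit 2) (nat_lit 9043225708576)) (.cons (.br (nat_lit 9) (nat_lit 1) (.cons (.br (nat_lit 10) (nat_lit 1) (.cons (.br (nat_lit 6) (nat_lit 0) (.cons (.rf (nat_lit 3) (nat_lit 407901468851537952)) (.cons (.rf (nat_lit 2) (nat_lit 9043225708576)) (.cons (.rf (nat_lit 0) (nat_lit 398467)) .nil)))) .nil)) .nil)) .nil))) (.cons (.rf (nat_lit 0) (nat_lit 300163)) .nil)))) .nil)))),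
 (.br (nat_lit 7) (nat_lit 0) (.cons (.rf (nat_lit 4) (nat_lit 247132686368)) (.cons (.rf (nat_lit 4) (nat_lit 247131670560)) (.cons (.rf (nat_lit 0) (nat_lit 267395)) (.cons (.br (nat_lit 7) (nat_lit 0) (.cons (.rf (nat_lit 4) (nat_lit 247132686368)) (.cons (.rf (nat_lit 4) (nat_lit 247131670560)) (.cons (.rf (nat_lit 0) (nat_lit 300163)) .nil)))) .nil))))),
 (.br (nat_lit 2) (nat_lit 0) (.cons (.rf (nat_lit 5) (nat_lit 247066657856)) (.cons (.rf (nat_lit 0) (nat_lit 398467)) (.cons (.br (nat_lit 6) (nat_lit 0) (.cons (.kr (nat_lit 16777216) (nat_lit 4294967296) (nat_lit 3) (nat_lit 0)) (.cons (.br (nat_lit 7) (nat_lit 0) (.cons (.br (nat_lit 12) (nat_lit 1) (.cons (.ev (nat_lit 72339073326383361) (nat_lit 1)) (.cons (.ev (nat_lit 4740813226947666575361) (nat_lit 1)) (.cons (.ev (nat_lit 1208944266358707196067841) (nat_lit 1)) (.cons (.ev (nat_lit 309485028268089146746142721) (nat_lit 1)) .nil))))) (.cons (.br (nat_lit 7) (nat_lit 0) (.cons (.ev (nat_lit 72339073326383361)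 (nat_lit 1)) (.cons (.rf (nat_lit 0) (nat_lit 431235)) .nil))) (.cons (.rf (nat_lit 0) (nat_lit 431235)) .nil)))) (.cons (.rf (nat_lit 0) (nat_lit 431235)) .nil)))) .nil)))),
 (.br (nat_lit 10) (nat_lit 1) (.cons (.br (nat_lit 11) (nat_lit 1) (.cons (.br (nat_lit 6) (nat_lit 0) (.cons (.rf (nat_lit 6) (nat_lit 407901468851537952)) (.cons (.rf (nat_lit 6) (nat_lit 407901468850522144)) (.cons (.rf (nat_lit 0) (nat_lit 398467)) (.cons (.br (nat_lit 6) (nat_lit 0) (.cons (.rf (nat_lit 6) (nat_lit 407901468851537952)) (.cons (.rf (nat_lit 6) (nat_lit 407901468850522144)) (.cons (.rf (nat_lit 0) (nat_lit 431235)) .nil)))) .nil))))) .nil)) .nil)),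
 (.br (nat_lit 5) (nat_lit 1) (.cons (.rf (nat_lit 5) (nat_lit 247132686368)) (.cons (.rf (nat_lit 5) (nat_lit 213846689824)) (.cons (.br (nat_lit 8) (nat_lit 1) (.cons (.br (nat_lit 9) (nat_lit 1) (.cons (.br (nat_lit 9) (nat_lit 1) (.cons (.br (nat_lit 8) (nat_lit 1) (.cons (.rf (nat_lit 7) (nat_lit 407901468851537952)) (.cons (.rf (nat_lit 7) (nat_lit 372998571739416608)) .nil))) .nil)) .nil)) .nil)) .nil)))),
 (.br (nat_lit 2) (nat_lit 0) (.cons (.kr (nat_lit 256) (nat_lit 65536) (nat_lit 1) (nat_lit 0)) (.cons (.rf (nat_lit 0) (nat_lit 267395)) (.cons (.br (nat_lit 6) (nat_lit 0) (.cons (.br (nat_lit 7) (nat_lit 0) (.cons (.kr (nat_lit 72057594037928192) (nat_lit 281474976776192) (nat_lit 1) (nat_lit 0)) (.cons (.rf (nat_lit 0) (nat_lit 300163)) .nil))) (.cons (.br (nat_lit 7) (nat_lit 0) (.cons (.kr (nat_lit 281474976710912) (nat_lit 72057594037993472) (nat_lit 1) (nat_lit 0)) (.cons (.kr (nat_lit 281474976710656) (nat_lit 72057594037927936) (nat_lit 6) (nat_lit 0)) (.cons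 (.rf (nat_lit 0) (nat_lit 300163)) .nil)))) (.cons (.rf (nat_lit 0) (nat_lit 300163)) .nil)))) .nil)))),
 (.br (nat_lit 2) (nat_lit 0) (.cons (.rf (nat_lit 9) (nat_lit 247132686368)) (.cons (.rf (nat_lit 9) (nat_lit 247131670560)) (.cons (.rf (nat_lit 0) (nat_lit 267395)) (.cons (.br (nat_lit 2) (nat_lit 0) (.cons (.rf (nat_lit 9) (nat_lit 247132686368)) (.cons (.rf (nat_lit 9) (nat_lit 247131670560)) (.cons (.rf (nat_lit 0) (nat_lit 300163)) .nil)))) .nil))))),
 (.br (nat_lit 7) (nat_lit 0) (.cons (.br (nat_lit 9) (nat_lit 0) (.cons (.kr (nat_lit 4722366764344621924608) (nat_lit 18518801667747545088) (nat_lit 1) (nat_lit 0)) (.cons (.rf (nat_lit 0) (nat_lit 431235)) .nil))) (.cons (.rf (nat_lit 0) (nat_lit 431235)) .nil))),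
 (.br (nat_lit 2) (nat_lit 0) (.cons (.kr (nat_lit 256) (nat_lit 65536) (nat_lit 1) (nat_lit 0)) (.cons (.rf (nat_lit 0) (nat_lit 398467)) (.cons (.br (nat_lit 6) (nat_lit 0) (.cons (.rf (nat_lit 10) (nat_lit 69899263168)) (.cons (.br (nat_lit 7) (nat_lit 0) (.cons (.rf (nat_lit 11) (nat_lit 14242959524133701664)) (.cons (.br (nat_lit 7) (nat_lit 0) (.cons (.rf (nat_lit 11) (nat_lit 14242959524133701664)) (.cons (.rf (nat_lit 0) (nat_lit 431235)) .nil))) (.cons (.rf (nat_lit 0) (nat_lit 431235)) .nil)))) (.cons (.rf (nat_lit 0) (nat_lit 431235)) .nil)))) .nil)))),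
 (.br (nat_lit 10) (nat_lit 1) (.cons (.br (nat_lit 11) (nat_lit 1) (.cons (.br (nat_lit 2) (nat_lit 0) (.cons (.rf (nat_lit 12) (nat_lit 407901468851537952)) (.cons (.rf (nat_lit 12) (nat_lit 407901468850522144)) (.cons (.rf (nat_lit 0) (nat_lit 398467)) (.cons (.br (nat_lit 2) (nat_lit 0) (.cons (.rf (nat_lit 12) (nat_lit 407901468851537952)) (.cons (.rf (nat_lit 12) (nat_lit 407901468850522144)) (.cons (.rf (nat_lit 0) (nat_lit 431235)) .nil)))) .nil))))) .nil)) .nil)),
 (.br (nat_lit 5) (nat_lit 1) (.cons (.rf (nat_lit 8) (nat_lit 247132686368)) (.cons (.rf (nat_lit 10) (nat_lit 247132686368)) (.cons (.br (nat_lit 8) (nat_lit 1) (.cons (.br (nat_lit 9) (nat_lit 1) (.cons (.br (nat_lit 9) (nat_lit 1) (.cons (.br (nat_lit 10) (nat_lit 1) (.cons (.rf (nat_lit 13) (nat_lit 407901468851537952)) (.cons (.br (nat_lit 8) (nat_lit 1) (.cons (.rf (nat_lit 13) (nat_lit 407901468851537952)) (.cons (.rf (nat_lit 13) (nat_lit 372998571739416608)) .nil))) .nil))) .nil)) .nil)) .nil)) .nil)))),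
 (.br (nat_lit 10) (nat_lit 1) (.cons (.br (nat_lit 11) (nat_lit 1) (.cons (.br (nat_lit 5) (nat_lit 1) (.cons (.rf (nat_lit 8) (nat_lit 247132686368)) (.cons (.rf (nat_lit 14) (nat_lit 247132686368)) (.cons (.rf (nat_lit 14) (nat_lit 213846689824)) (.cons (.kr (nat_lit 18446744073709551616) (nat_lit 4722366482869645213696) (nat_lit 8) (nat_lit 0)) (.cons (.kr (nat_lit 18446744073709551616) (nat_lit 1208925819614629174706176) (nat_lit 8) (nat_lit 0)) (.cons (.kr (nat_lit 18446744073709551616) (nat_lit 309485009821345068724781056) (nat_lit 8) (nat_lit 0)) .nil))))))) .nil)) .nil)),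
 (.br (nat_lit 5) (nat_lit 1) (.cons (.rf (nat_lit 8) (nat_lit 247132686368)) (.cons (.rf (nat_lit 14) (nat_lit 247132686368)) (.cons (.rf (nat_lit 14) (nat_lit 213846689824)) (.cons (.br (nat_lit 8) (nat_lit 1) (.cons (.br (nat_lit 9) (nat_lit 1) (.cons (.br (nat_lit 9) (nat_lit 1) (.cons (.br (nat_lit 8) (nat_lit 1) (.cons (.rf (nat_lit 15) (nat_lit 407901468851537952)) (.cons (.rf (nat_lit 15) (nat_lit 372998571739416608)) .nil))) .nil)) .nil)) .nil)) .nil))))),
 (.br (nat_lit 11) (nat_lit 0) (.cons (.rf (nat_lit 0) (nat_lit 398467)) .nil)),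
 (.br (nat_lit 11) (nat_lit 0) (.cons (.rf (nat_lit 17) (nat_lit 372998571739416608)) (.cons (.rf (nat_lit 0) (nat_lit 398467)) .nil))),
 (.br (nat_lit 4) (nat_lit 1) (.cons (.ev (nat_lit 72057598349738241) (nat_lit 1)) (.cons (.br (nat_lit 9) (nat_lit 1) (.cons (.br (nat_lit 10) (nat_lit 1) (.cons (.br (nat_lit 7) (nat_lit 0) (.cons (.rf (nat_lit 16) (nat_lit 69932783840)) (.cons (.rf (nat_lit 18) (nat_lit 407901468851537952)) (.cons (.rf (nat_lit 0) (nat_lit 398467)) .nil)))) .nil)) .nil)) .nil))),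
 (.br (nat_lit 11) (nat_lit 1) (.cons (.br (nat_lit 12) (nat_lit 1) (.cons (.br (nat_lit 4) (nat_lit 1) (.cons (.rf (nat_lit 19) (nat_lit 9043224691776)) (.cons (.kr (nat_lit 1208925819614629174706432) (nat_lit 4722366482869645279232) (nat_lit 1) (nat_lit 0)) (.cons (.kr (nat_lit 309485009821345068724781312) (nat_lit 4722366482869645279232) (nat_lit 1) (nat_lit 0)) (.cons (.kr (nat_lit 79228162514264337593543950592) (nat_lit 4722366482869645279232) (nat_lit 1) (nat_lit 0)) .nil))))) .nil)) .nil)),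
 (.br (nat_lit 6) (nat_lit 0) (.cons (.rf (nat_lit 16) (nat_lit 69932784832)) (.cons (.rf (nat_lit 16) (nat_lit 69899263168)) (.cons (.br (nat_lit 3) (nat_lit 1) (.cons (.rf (nat_lit 19) (nat_lit 9043225708576)) (.cons (.br (nat_lit 9) (nat_lit 1) (.cons (.br (nat_lit 10) (nat_lit 1) (.cons (.br (nat_lit 10) (nat_lit 1) (.cons (.br (nat_lit 9) (nat_lit 1) (.cons (.rf (nat_lit 20) (nat_lit 14242959524133701664)) (.cons (.rf (nat_lit 20) (nat_lit 13126066816545818656)) .nil))) .nil)) .nil)) .nil)) .nil))) (.cons (.rf (nat_lit 0) (nat_lit 300163)) .nil))))),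
 (.br (nat_lit 11) (nat_lit 1) (.cons (.br (nat_lit 12) (nat_lit 1) (.cons (.br (nat_lit 5) (nat_lit 1) (.cons (.rf (nat_lit 21) (nat_lit 9043225708576)) (.cons (.rf (nat_lit 21) (nat_lit 9009939712032)) (.cons (.kr (nat_lit 4722366482869645213696) (nat_lit 1208925819614629174706176) (nat_lit 9) (nat_lit 0)) (.cons (.kr (nat_lit 4722366482869645213696) (nat_lit 309485009821345068724781056) (nat_lit 9) (nat_lit 0)) (.cons (.kr (nat_lit 4722366482869645213696) (nat_lit 79228162514264337593543950336) (nat_lit 9) (nat_lit 0)) .nil)))))) .nil)) .nil)),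
 (.br (nat_lit 5) (nat_lit 1) (.cons (.rf (nat_lit 21) (nat_lit 9043225708576)) (.cons (.rf (nat_lit 21) (nat_lit 9009939712032)) (.cons (.br (nat_lit 9) (nat_lit 1) (.cons (.br (nat_lit 10) (nat_lit 1) (.cons (.br (nat_lit 10) (nat_lit 1) (.cons (.br (nat_lit 9) (nat_lit 1) (.cons (.rf (nat_lit 22) (nat_lit 14242959524133701664)) (.cons (.rf (nat_lit 22) (nat_lit 13126066816545818656)) .nil))) .nil)) .nil)) .nil)) .nil)))),
 (.br (nat_lit 2) (nat_lit 0) (.cons (.kr (nat_lit 256) (nat_lit 65536) (nat_lit 1) (nat_lit 0)) (.cons (.rf (nat_lit 23) (nat_lit 9043225708576)) (.cons (.rf (nat_lit 23) (nat_lit 9043193202720)) (.cons (.rf (nat_lit 0) (nat_lit 300163)) .nil))))),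
 (.br (nat_lit 6) (nat_lit 0) (.cons (.rf (nat_lit 24) (nat_lit 8866058312896)) (.cons (.rf (nat_lit 24) (nat_lit 8866057297088)) (.cons (.rf (nat_lit 24) (nat_lit 8866023775424)) (.cons (.rf (nat_lit 0) (nat_lit 300163)) .nil))))),
 (.br (nat_lit 11) (nat_lit 1) (.cons (.br (nat_lit 12) (nat_lit 1) (.cons (.br (nat_lit 8) (nat_lit 1) (.cons (.rf (nat_lit 25) (nat_lit 8866058312896)) (.cons (.rf (nat_lit 25) (nat_lit 9043225708576)) (.cons (.kr (nat_lit 4722366482869645213696) (nat_lit 1208925819614629174706176) (nat_lit 9) (nat_lit 0)) (.cons (.kr (nat_lit 4722366482869645213696) (nat_lit 309485009821345068724781056) (nat_lit 9) (nat_lit 0)) (.cons (.kr (nat_lit 4722366482869645213696) (nat_lit 79228162514264337593543950336) (nat_lit 9) (nat_lit 0)) .nil)))))) .nil)) .nil)),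
 (.br (nat_lit 8) (nat_lit 1) (.cons (.rf (nat_lit 25) (nat_lit 8866058312896)) (.cons (.rf (nat_lit 25) (nat_lit 9043225708576)) (.cons (.br (nat_lit 9) (nat_lit 1) (.cons (.br (nat_lit 10) (nat_lit 1) (.cons (.br (nat_lit 10) (nat_lit 1) (.cons (.br (nat_lit 9) (nat_lit 1) (.cons (.rf (nat_lit 26) (nat_lit 14242959524133701664)) (.cons (.rf (nat_lit 26) (nat_lit 13126066816545818656)) .nil))) .nil)) .nil)) .nil)) .nil)))),
 (.br (nat_lit 11) (nat_lit 1) (.cons (.br (nat_lit 12) (nat_lit 1) (.cons (.br (nat_lit 8) (nat_lit 1) (.cons (.rf (nat_lit 25) (nat_lit 8866058312896)) (.cons (.rf (nat_lit 27) (nat_lit 9043225708576)) (.cons (.rf (nat_lit 27) (nat_lit 9009939712032)) (.cons (.kr (nat_lit 4722366482869645213696) (nat_lit 1208925819614629174706176) (nat_lit 9) (nat_lit 0)) (.cons (.kr (nat_lit 4722366482869645213696) (nat_lit 309485009821345068724781056) (nat_lit 9) (nat_lit 0)) (.cons (.kr (nat_lit 4722366482869645213696) (nat_lit 79228162514264337593543950336) (nat_lit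 9) (nat_lit 0)) .nil))))))) .nil)) .nil)),
 (.br (nat_lit 4) (nat_lit 1) (.cons (.br (nat_lit 5) (nat_lit 1) (.cons (.br (nat_lit 6) (nat_lit 1) (.cons (.br (nat_lit 6) (nat_lit 1) .nil) .nil)) .nil)) .nil)),
 (.br (nat_lit 6) (nat_lit 1) (.cons (.br (nat_lit 7) (nat_lit 1) .nil) .nil)),
 (.br (nat_lit 4) (nat_lit 1) (.cons (.br (nat_lit 6) (nat_lit 1) (.cons (.rf (nat_lit 30) (nat_lit 6614517792)) (.cons (.br (nat_lit 6) (nat_lit 1) (.cons (.rf (nat_lit 30) (nat_lit 6614517792)) .nil)) .nil))) .nil)),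
 (.br (nat_lit 6) (nat_lit 0) (.cons (.rf (nat_lit 0) (nat_lit 398467)) (.cons (.br (nat_lit 7) (nat_lit 0) (.cons (.br (nat_lit 12) (nat_lit 1) (.cons (.rf (nat_lit 3) (nat_lit 370715946944437280)) (.cons (.rf (nat_lit 3) (nat_lit 405654028428647456)) (.cons (.rf (nat_lit 3) (nat_lit 405689212800736288)) (.cons (.rf (nat_lit 3) (nat_lit 370821500060703776)) .nil))))) (.cons (.rf (nat_lit 0) (nat_lit 431235)) .nil))) .nil))),
 (.br (nat_lit 7) (nat_lit 0) (.cons (.rf (nat_lit 32) (nat_lit 372998571739416608)) (.cons (.rf (nat_lit 0) (nat_lit 398467)) (.cons (.br (nat_lit 7) (nat_lit 0) (.cons (.rf (nat_lit 32) (nat_lit 372998571739416608)) (.cons (.rf (nat_lit 0) (nat_lit 431235)) .nil))) .nil)))),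
 (.br (nat_lit 6) (nat_lit 0) (.cons (.rf (nat_lit 33) (nat_lit 372998571739416608)) (.cons (.rf (nat_lit 33) (nat_lit 372998571706909760)) (.cons (.rf (nat_lit 0) (nat_lit 398467)) (.cons (.br (nat_lit 6) (nat_lit 0) (.cons (.rf (nat_lit 33) (nat_lit 372998571739416608)) (.cons (.rf (nat_lit 33) (nat_lit 372998571706909760)) (.cons (.rf (nat_lit 0) (nat_lit 431235)) .nil)))) .nil))))),
 (.br (nat_lit 7) (nat_lit 0) (.cons (.br (nat_lit 8) (nat_lit 0) (.cons (.ev (nat_lit 282574505181441) (nat_lit 1)) (.cons (.br (nat_lit 9) (nat_lit 0) (.cons (.kr (nat_lit 282574505181185) (nat_lit 1208925891672227507601920) (nat_lit 0) (nat_lit 8)) (.cons (.rf (nat_lit 0) (nat_lit 365699)) .nil))) (.cons (.rf (nat_lit 0) (nat_lit 365699)) .nil)))) (.cons (.rf (nat_lit 0) (nat_lit 365699)) .nil))),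
 (.br (nat_lit 6) (nat_lit 0) (.cons (.rf (nat_lit 34) (nat_lit 407901464555558944)) (.cons (.br (nat_lit 7) (nat_lit 0) (.cons (.rf (nat_lit 35) (nat_lit 13836501456619552)) (.cons (.br (nat_lit 7) (nat_lit 0) (.cons (.rf (nat_lit 35) (nat_lit 13836501456619552)) (.cons (.rf (nat_lit 0) (nat_lit 431235)) .nil))) (.cons (.rf (nat_lit 0) (nat_lit 431235)) .nil)))) (.cons (.rf (nat_lit 0) (nat_lit 431235)) .nil)))),
 (.br (nat_lit 4) (nat_lit 1) (.cons (.rf (nat_lit 1) (nat_lit 369623999828826144)) (.cons (.rf (nat_lit 1) (nat_lit 333630387181951008)) (.cons (.rf (nat_lit 1) (nat_lit 333700755926128672)) .nil)))),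
 (.br (nat_lit 7) (nat_lit 0) (.cons (.rf (nat_lit 35) (nat_lit 13802383310161952)) (.cons (.br (nat_lit 6) (nat_lit 0) (.cons (.rf (nat_lit 34) (nat_lit 372998567443437600)) (.cons (.br (nat_lit 8) (nat_lit 0) (.cons (.br (nat_lit 9) (nat_lit 0) (.cons (.kr (nat_lit 4722366764344621924608) (nat_lit 18518801667747545088) (nat_lit 1) (nat_lit 0)) (.cons (.rf (nat_lit 0) (nat_lit 431235)) .nil))) (.cons (.rf (nat_lit 37) (nat_lit 443930265870501920)) (.cons (.rf (nat_lit 0) (nat_lit 431235)) .nil)))) (.cons (.rf (nat_lit 0) (nat_lit 431235)) .nil)))) (.cons (.rf (nat_lit 0) (nat_lit 431235)) .nil)))),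
 (.br (nat_lit 6) (nat_lit 0) (.cons (.rf (nat_lit 34) (nat_lit 372998567443437600)) (.cons (.br (nat_lit 7) (nat_lit 0) (.cons (.rf (nat_lit 36) (nat_lit 14208022508875122720)) (.cons (.rf (nat_lit 38) (nat_lit 14242925405987244064)) (.cons (.rf (nat_lit 38) (nat_lit 14242959524133701664)) (.cons (.rf (nat_lit 0) (nat_lit 431235)) .nil))))) (.cons (.rf (nat_lit 0) (nat_lit 431235)) .nil)))),
 (.br (nat_lit 2) (nat_lit 0) (.cons (.kr (nat_lit 256) (nat_lit 65536) (nat_lit 1) (nat_lit 0)) (.cons (.rf (nat_lit 34) (nat_lit 372998571739416608)) (.cons (.rf (nat_lit 0) (nat_lit 398467)) (.cons (.br (nat_lit 6) (nat_lit 0) (.cons (.rf (nat_lit 36) (nat_lit 14208056627021580320)) (.cons (.rf (nat_lit 39) (nat_lit 14242959524133701664)) (.cons (.br (nat_lit 6) (nat_lit 0) (.cons (.rf (nat_lit 36) (nat_lit 14208056627021580320)) (.cons (.rf (nat_lit 39) (nat_lit 14242959524133701664)) (.cons (.rf (nat_lit 0) (nat_lit 431235)) .nil)))) (.cons (.rf (nat_lit 0) (nat_lit 431235)) .nil)))))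 .nil))))),
 (.br (nat_lit 7) (nat_lit 0) (.cons (.rf (nat_lit 34) (nat_lit 372998533083700256)) (.cons (.br (nat_lit 8) (nat_lit 0) (.cons (.br (nat_lit 9) (nat_lit 0) (.cons (.kr (nat_lit 4722366483969173618689) (nat_lit 79228162532711081671548469504) (nat_lit 0) (nat_lit 2)) (.cons (.rf (nat_lit 0) (nat_lit 431235)) .nil))) (.cons (.br (nat_lit 9) (nat_lit 0) (.cons (.kr (nat_lit 18446745177516146689) (nat_lit 79228167236630820463205941504) (nat_lit 0) (nat_lit 2)) (.cons (.rf (nat_lit 0) (nat_lit 431235)) .nil))) (.cons (.rf (nat_lit 0) (nat_lit 431235)) .nil)))) (.cons (.rf (nat_lit 0) (nat_lit 431235)) .nil)))),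
 (.br (nat_lit 7) (nat_lit 0) (.cons (.rf (nat_lit 34) (nat_lit 372998533083700256)) (.cons (.br (nat_lit 12) (nat_lit 1) (.cons (.rf (nat_lit 37) (nat_lit 443930261575538720)) (.cons (.ev (nat_lit 79228162514336395187598655744) (nat_lit 1)) (.cons (.rf (nat_lit 37) (nat_lit 441680660785109024)) (.cons (.rf (nat_lit 37) (nat_lit 443933560110422048)) .nil))))) (.cons (.rf (nat_lit 0) (nat_lit 431235)) .nil)))),
 (.br (nat_lit 6) (nat_lit 0) (.cons (.kr (nat_lit 16777216) (nat_lit 4294967296) (nat_lit 3) (nat_lit 0)) (.cons (.rf (nat_lit 34) (nat_lit 372998567444453408)) (.cons (.br (nat_lit 7) (nat_lit 0) (.cons (.rf (nat_lit 41) (nat_lit 14242959524133701664)) (.cons (.rf (nat_lit 42) (nat_lit 14204682225835935776)) (.cons (.br (nat_lit 7) (nat_lit 0) (.cons (.rf (nat_lit 41) (nat_lit 14242959524133701664)) (.cons (.rf (nat_lit 42) (nat_lit 14204682225835935776)) (.cons (.rf (nat_lit 0) (nat_lit 431235)) .nil)))) (.cons (.rf (nat_lit 0) (nat_lit 431235)) .nil))))) (.cons (.rf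 (nat_lit 0) (nat_lit 431235)) .nil))))),
 (.br (nat_lit 7) (nat_lit 0) (.cons (.rf (nat_lit 43) (nat_lit 14242925405987244064)) (.cons (.rf (nat_lit 43) (nat_lit 14242925405986228256)) (.cons (.br (nat_lit 7) (nat_lit 0) (.cons (.rf (nat_lit 42) (nat_lit 14205772908084693024)) (.cons (.rf (nat_lit 42) (nat_lit 14205772908083677216)) (.cons (.rf (nat_lit 0) (nat_lit 431235)) .nil)))) (.cons (.rf (nat_lit 0) (nat_lit 431235)) .nil))))),
 (.br (nat_lit 2) (nat_lit 0) (.cons (.rf (nat_lit 34) (nat_lit 372998571739416608)) (.cons (.rf (nat_lit 34) (nat_lit 372998571738400800)) (.cons (.rf (nat_lit 0) (nat_lit 398467)) (.cons (.br (nat_lit 6) (nat_lit 0) (.cons (.rf (nat_lit 43) (nat_lit 14242959524133701664)) (.cons (.rf (nat_lit 43) (nat_lit 14242959524132685856)) (.cons (.rf (nat_lit 44) (nat_lit 14242959524133701664)) (.cons (.br (nat_lit 6) (nat_lit 0) (.cons (.rf (nat_lit 43) (nat_lit 14242959524133701664)) (.cons (.rf (nat_lit 43) (nat_lit 14242959524132685856)) (.cons (.rf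 (nat_lit 44) (nat_lit 14242959524133701664)) (.cons (.rf (nat_lit 0) (nat_lit 431235)) .nil))))) (.cons (.rf (nat_lit 0) (nat_lit 431235)) .nil)))))) .nil)))))]

theorem c0 : chkAll C T R L0 (nat_lit 0) = true := by decide +kernel

theorem l0 : (nat_lit 0) + L0.length = (nat_lit 46) := by decide +kernel

/-- part of the certificates -/
def L1 : List Prf := [(.br (nat_lit 2) (nat_lit 0) (.cons (.rf (nat_lit 40) (nat_lit 407901468851537952)) (.cons (.rf (nat_lit 40) (nat_lit 407901468850522144)) (.cons (.rf (nat_lit 45) (nat_lit 407901468851537952)) (.cons (.rf (nat_lit 0) (nat_lit 398467)) (.cons (.br (nat_lit 2) (nat_lit 0) (.cons (.rf (nat_lit 40) (nat_lit 407901468851537952)) (.cons (.rf (nat_lit 40) (nat_lit 407901468850522144)) (.cons (.rf (nat_lit 45) (nat_lit 407901468851537952)) (.cons (.rf (nat_lit 0) (nat_lit 431235)) .nil))))) .nil)))))),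
 (.br (nat_lit 7) (nat_lit 0) (.cons (.rf (nat_lit 34) (nat_lit 372998394537483456)) (.cons (.br (nat_lit 8) (nat_lit 0) (.cons (.br (nat_lit 9) (nat_lit 0) (.cons (.kr (nat_lit 18518801667747479808) (nat_lit 4722366764344621989888) (nat_lit 1) (nat_lit 0)) (.cons (.rf (nat_lit 0) (nat_lit 431235)) .nil))) (.cons (.rf (nat_lit 37) (nat_lit 443930261543027904)) (.cons (.rf (nat_lit 0) (nat_lit 431235)) .nil)))) (.cons (.rf (nat_lit 0) (nat_lit 431235)) .nil)))),
 (.br (nat_lit 6) (nat_lit 0) (.cons (.rf (nat_lit 47) (nat_lit 14242959524133701664)) (.cons (.br (nat_lit 7) (nat_lit 0) (.cons (.rf (nat_lit 47) (nat_lit 14242925405986227264)) (.cons (.br (nat_lit 8) (nat_lit 0) (.cons (.br (nat_lit 9) (nat_lit 0) (.cons (.kr (nat_lit 18518801667747479808) (nat_lit 4722366764344621989888) (nat_lit 1) (nat_lit 0)) (.cons (.rf (nat_lit 0) (nat_lit 431235)) .nil))) (.cons (.rf (nat_lit 0) (nat_lit 431235)) .nil))) (.cons (.rf (nat_lit 0) (nat_lit 431235)) .nil)))) (.cons (.rf (nat_lit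 0) (nat_lit 431235)) .nil)))),
 (.br (nat_lit 4) (nat_lit 1) (.cons (.rf (nat_lit 18) (nat_lit 370715952314157088)) (.cons (.rf (nat_lit 18) (nat_lit 405654033798367264)) (.cons (.rf (nat_lit 18) (nat_lit 405689218170456096)) (.cons (.rf (nat_lit 18) (nat_lit 370821505430423584)) .nil))))),
 (.br (nat_lit 7) (nat_lit 0) (.cons (.rf (nat_lit 48) (nat_lit 14242959524133701664)) (.cons (.br (nat_lit 6) (nat_lit 0) (.cons (.br (nat_lit 8) (nat_lit 0) (.cons (.br (nat_lit 10) (nat_lit 0) (.cons (.ev (nat_lit 1208944338416301233930241) (nat_lit 1)) (.cons (.rf (nat_lit 0) (nat_lit 431235)) .nil))) (.cons (.br (nat_lit 10) (nat_lit 0) (.cons (.ev (nat_lit 1208944338416301233930241) (nat_lit 1)) (.cons (.rf (nat_lit 0) (nat_lit 431235)) .nil))) (.cons (.rf (nat_lit 0) (nat_lit 431235)) .nil)))) (.cons (.br (nat_lit 8) (nat_lit 0) (.cons (.br (nat_lit 9) (nat_lit 0) (.cons (.kr (nat_lit 18518801667747479808) (nat_lit 4722366764344621989888) (nat_lit 1) (nat_lit 0)) (.cons (.rf (nat_lit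 0) (nat_lit 431235)) .nil))) (.cons (.ev (nat_lit 79228162514264620168032354304) (nat_lit 1)) (.cons (.rf (nat_lit 0) (nat_lit 431235)) .nil)))) (.cons (.rf (nat_lit 49) (nat_lit 14208056627021580320)) (.cons (.rf (nat_lit 0) (nat_lit 431235)) .nil))))) (.cons (.rf (nat_lit 0) (nat_lit 431235)) .nil)))),
 (.br (nat_lit 7) (nat_lit 0) (.cons (.rf (nat_lit 48) (nat_lit 14242959524133701664)) (.cons (.rf (nat_lit 50) (nat_lit 14242959524133701664)) (.cons (.br (nat_lit 7) (nat_lit 0) (.cons (.rf (nat_lit 48) (nat_lit 14242959524133701664)) (.cons (.rf (nat_lit 50) (nat_lit 14242959524133701664)) (.cons (.rf (nat_lit 0) (nat_lit 431235)) .nil)))) (.cons (.rf (nat_lit 0) (nat_lit 431235)) .nil))))),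
 (.br (nat_lit 7) (nat_lit 0) (.cons (.rf (nat_lit 49) (nat_lit 14208056593735583776)) (.cons (.rf (nat_lit 49) (nat_lit 14208056593734566976)) (.cons (.rf (nat_lit 49) (nat_lit 14208056456262091968)) (.cons (.rf (nat_lit 0) (nat_lit 431235)) .nil))))),
 (.br (nat_lit 6) (nat_lit 0) (.cons (.rf (nat_lit 51) (nat_lit 14242959524133701664)) (.cons (.rf (nat_lit 51) (nat_lit 14242959524132684864)) (.cons (.br (nat_lit 7) (nat_lit 0) (.cons (.rf (nat_lit 51) (nat_lit 14242925405987244064)) (.cons (.rf (nat_lit 51) (nat_lit 14242925405986227264)) (.cons (.br (nat_lit 7) (nat_lit 0) (.cons (.rf (nat_lit 51) (nat_lit 14242925405987244064)) (.cons (.rf (nat_lit 51) (nat_lit 14242925405986227264)) (.cons (.rf (nat_lit 52) (nat_lit 14242959524133701664)) (.cons (.rf (nat_lit 0) (nat_lit 431235)) .nil))))) (.cons (.rf (nat_lit 52) (nat_lit 14242959524133701664)) (.cons (.rf (nat_lit 0) (nat_lit 431235)) .nil)))))) (.cons (.rf (nat_lit 0) (nat_lit 431235)) .nil))))),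
 (.br (nat_lit 2) (nat_lit 0) (.cons (.rf (nat_lit 46) (nat_lit 407901468851536960)) (.cons (.rf (nat_lit 46) (nat_lit 407901468785509440)) (.cons (.br (nat_lit 6) (nat_lit 0) (.cons (.rf (nat_lit 51) (nat_lit 14242959524133701664)) (.cons (.rf (nat_lit 51) (nat_lit 14242959524132684864)) (.cons (.rf (nat_lit 53) (nat_lit 14242959524133701664)) (.cons (.br (nat_lit 6) (nat_lit 0) (.cons (.rf (nat_lit 51) (nat_lit 14242959524133701664)) (.cons (.rf (nat_lit 51) (nat_lit 14242959524132684864)) (.cons (.rf (nat_lit 53) (nat_lit 14242959524133701664)) (.cons (.rf (nat_lit 0) (nat_lit 431235)) .nil))))) (.cons (.rf (nat_lit 0) (nat_lit 431235)) .nil)))))) (.cons (.rf (nat_lit 0) (nat_lit 431235)) .nil))))),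
 (.br (nat_lit 9) (nat_lit 1) (.cons (.br (nat_lit 10) (nat_lit 1) (.cons (.br (nat_lit 1) (nat_lit 0) (.cons (.rf (nat_lit 46) (nat_lit 407901468851537952)) (.cons (.rf (nat_lit 46) (nat_lit 407901468819032096)) (.cons (.rf (nat_lit 0) (nat_lit 398467)) (.cons (.br (nat_lit 2) (nat_lit 0) (.cons (.br (nat_lit 2) (nat_lit 0) (.cons (.rf (nat_lit 46) (nat_lit 407901468851536960)) (.cons (.rf (nat_lit 46) (nat_lit 407901468819031104)) (.cons (.kr (nat_lit 256) (nat_lit 65536) (nat_lit 1) (nat_lit 0)) (.cons (.rf (nat_lit 0) (nat_lit 431235)) .nil))))) (.cons (.rf (nat_lit 54) (nat_lit 14242959524133701664)) (.cons (.rf (nat_lit 54) (nat_lit 14242959524101195808)) (.cons (.br (nat_lit 2) (nat_lit 0) (.cons (.kr (nat_lit 256) (nat_lit 65536) (nat_lit 1) (nat_lit 0)) (.cons (.rf (nat_lit 54) (nat_lit 14242959524133701664)) (.cons (.rf (nat_lit 54) (nat_lit 14242959524101195808)) (.cons (.rf (nat_lit 0) (nat_lit 431235)) .nil))))) (.cons (.rf (nat_lit 0) (nat_lit 431235)) .nil))))))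 .nil))))) .nil)) .nil)),
 (.br (nat_lit 6) (nat_lit 1) (.cons (.br (nat_lit 1) (nat_lit 0) (.cons (.rf (nat_lit 16) (nat_lit 247132686368)) (.cons (.rf (nat_lit 16) (nat_lit 247100180512)) (.cons (.rf (nat_lit 0) (nat_lit 267395)) (.cons (.br (nat_lit 8) (nat_lit 1) (.cons (.rf (nat_lit 25) (nat_lit 8866058312896)) (.cons (.rf (nat_lit 27) (nat_lit 9043225708576)) (.cons (.rf (nat_lit 27) (nat_lit 9009939712032)) (.cons (.br (nat_lit 9) (nat_lit 1) (.cons (.br (nat_lit 10) (nat_lit 1) (.cons (.br (nat_lit 10) (nat_lit 1) (.cons (.br (nat_lit 9) (nat_lit 1) (.cons (.rf (nat_lit 28) (nat_lit 14242959524133701664)) (.cons (.rf (nat_lit 28) (nat_lit 13126066816545818656)) .nil))) .nil)) .nil)) .nil)) .nil))))) .nil))))) (.cons (.br (nat_lit 7) (nat_lit 1) (.cons (.rf (nat_lit 29) (nat_lit 8624193)) (.cons (.br (nat_lit 8) (nat_lit 1) (.cons (.rf (nat_lit 31) (nat_lit 310614081)) (.cons (.br (nat_lit 8) (nat_lit 1) (.cons (.rf (nat_lit 31) (nat_lit 310614081)) (.cons (.br (nat_lit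 9) (nat_lit 1) (.cons (.rf (nat_lit 55) (nat_lit 407901468851537952)) (.cons (.rf (nat_lit 55) (nat_lit 372998571739416608)) .nil))) .nil))) .nil))) .nil))) .nil))),
 (.br (nat_lit 2) (nat_lit 0) (.cons (.rf (nat_lit 56) (nat_lit 241763981376)) (.cons (.rf (nat_lit 56) (nat_lit 241762965568)) (.cons (.rf (nat_lit 56) (nat_lit 241729443904)) (.cons (.rf (nat_lit 0) (nat_lit 267395)) (.cons (.br (nat_lit 2) (nat_lit 0) (.cons (.rf (nat_lit 56) (nat_lit 241763981376)) (.cons (.rf (nat_lit 56) (nat_lit 241762965568)) (.cons (.rf (nat_lit 56) (nat_lit 241729443904)) (.cons (.rf (nat_lit 0) (nat_lit 300163)) .nil))))) .nil)))))),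
 (.br (nat_lit 0) (nat_lit 1) (.cons (.br (nat_lit 5) (nat_lit 1) (.cons (.br (nat_lit 6) (nat_lit 1) (.cons (.br (nat_lit 6) (nat_lit 1) .nil) .nil)) .nil)) .nil)),
 (.br (nat_lit 6) (nat_lit 0) (.cons (.rf (nat_lit 0) (nat_lit 332931)) (.cons (.br (nat_lit 7) (nat_lit 0) (.cons (.br (nat_lit 10) (nat_lit 1) (.cons (.ev (nat_lit 36965830519297212672) (nat_lit 2)) (.cons (.ev (nat_lit 9444805305920735215872) (nat_lit 2)) (.cons (.rf (nat_lit 3) (nat_lit 333664604111641632)) .nil)))) (.cons (.rf (nat_lit 0) (nat_lit 365699)) .nil))) .nil))),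
 (.br (nat_lit 7) (nat_lit 0) (.cons (.rf (nat_lit 59) (nat_lit 325702574508064)) (.cons (.rf (nat_lit 0) (nat_lit 332931)) (.cons (.br (nat_lit 7) (nat_lit 0) (.cons (.rf (nat_lit 59) (nat_lit 325702574508064)) (.cons (.rf (nat_lit 0) (nat_lit 365699)) .nil))) .nil)))),
 (.br (nat_lit 6) (nat_lit 0) (.cons (.rf (nat_lit 60) (nat_lit 325702574508064)) (.cons (.rf (nat_lit 0) (nat_lit 332931)) (.cons (.br (nat_lit 8) (nat_lit 0) (.cons (.br (nat_lit 7) (nat_lit 0) (.cons (.br (nat_lit 7) (nat_lit 0) (.cons (.rf (nat_lit 0) (nat_lit 365699)) .nil)) (.cons (.rf (nat_lit 0) (nat_lit 365699)) .nil))) (.cons (.ev (nat_lit 18447025548703039744) (nat_lit 1)) (.cons (.rf (nat_lit 0) (nat_lit 365699)) .nil)))) .nil)))),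
 (.br (nat_lit 6) (nat_lit 0) (.cons (.rf (nat_lit 60) (nat_lit 325702574508064)) (.cons (.rf (nat_lit 61) (nat_lit 325702574508064)) (.cons (.rf (nat_lit 0) (nat_lit 332931)) (.cons (.br (nat_lit 6) (nat_lit 0) (.cons (.rf (nat_lit 60) (nat_lit 325702574508064)) (.cons (.rf (nat_lit 61) (nat_lit 325702574508064)) (.cons (.rf (nat_lit 0) (nat_lit 365699)) .nil)))) .nil))))),
 (.br (nat_lit 7) (nat_lit 0) (.cons (.br (nat_lit 8) (nat_lit 0) (.cons (.ev (nat_lit 18447310322197988097) (nat_lit 2)) (.cons (.ev (nat_lit 1208944266640177861034241) (nat_lit 1)) (.cons (.rf (nat_lit 0) (nat_lit 365699)) .nil)))) (.cons (.rf (nat_lit 0) (nat_lit 365699)) .nil))),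
 (.br (nat_lit 6) (nat_lit 0) (.cons (.rf (nat_lit 62) (nat_lit 325698278529056)) (.cons (.br (nat_lit 7) (nat_lit 0) (.cons (.rf (nat_lit 63) (nat_lit 11584701642934304)) (.cons (.br (nat_lit 7) (nat_lit 0) (.cons (.rf (nat_lit 63) (nat_lit 11584701642934304)) (.cons (.rf (nat_lit 0) (nat_lit 365699)) .nil))) (.cons (.rf (nat_lit 0) (nat_lit 365699)) .nil)))) (.cons (.rf (nat_lit 0) (nat_lit 365699)) .nil)))),
 (.br (nat_lit 7) (nat_lit 0) (.cons (.br (nat_lit 9) (nat_lit 0) (.cons (.ev (nat_lit 4740885285641216131073) (nat_lit 1)) (.cons (.ev (nat_lit 1223129956667681757331456) (nat_lit 2)) (.cons (.rf (nat_lit 0) (nat_lit 365699)) .nil)))) (.cons (.rf (nat_lit 0) (nat_lit 365699)) .nil))),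
 (.br (nat_lit 6) (nat_lit 0) (.cons (.rf (nat_lit 62) (nat_lit 325698278529056)) (.cons (.br (nat_lit 8) (nat_lit 0) (.cons (.br (nat_lit 9) (nat_lit 0) (.cons (.ev (nat_lit 4740813509517859946753) (nat_lit 1)) (.cons (.br (nat_lit 7) (nat_lit 0) (.cons (.ev (nat_lit 4722366765444133552384) (nat_lit 1)) (.cons (.br (nat_lit 7) (nat_lit 0) (.cons (.ev (nat_lit 18518802767259172864) (nat_lit 1)) (.cons (.rf (nat_lit 0) (nat_lit 365699)) .nil))) (.cons (.rf (nat_lit 0) (nat_lit 365699)) .nil)))) (.cons (.rf (nat_lit 0) (nat_lit 365699)) .nil)))) (.cons (.br (nat_lit 7) (nat_lit 0) (.cons (.rf (nat_lit 65) (nat_lit 11584701642934304)) (.cons (.br (nat_lit 7) (nat_lit 0) (.cons (.rf (nat_lit 65) (nat_lit 11584701642934304)) (.cons (.rf (nat_lit 0) (nat_lit 365699)) .nil))) (.cons (.rf (nat_lit 0) (nat_lit 365699)) .nil)))) (.cons (.ev (nat_lit 18447025548703039744) (nat_lit 1)) (.cons (.rf (nat_lit 0) (nat_lit 365699)) .nil))))) (.cons (.rf (nat_lit 0) (nat_lit 365699)) .nil)))),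
 (.br (nat_lit 2) (nat_lit 0) (.cons (.kr (nat_lit 16777216) (nat_lit 4294967296) (nat_lit 3) (nat_lit 0)) (.cons (.rf (nat_lit 62) (nat_lit 325702574508064)) (.cons (.rf (nat_lit 0) (nat_lit 332931)) (.cons (.br (nat_lit 6) (nat_lit 0) (.cons (.rf (nat_lit 64) (nat_lit 11584701642934304)) (.cons (.rf (nat_lit 66) (nat_lit 11584701642934304)) (.cons (.br (nat_lit 6) (nat_lit 0) (.cons (.rf (nat_lit 64) (nat_lit 11584701642934304)) (.cons (.rf (nat_lit 66) (nat_lit 11584701642934304)) (.cons (.rf (nat_lit 0) (nat_lit 365699)) .nil)))) (.cons (.rf (nat_lit 0) (nat_lit 365699)) .nil))))) .nil))))),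
 (.br (nat_lit 4) (nat_lit 1) (.cons (.kr (nat_lit 18446744073726328832) (nat_lit 1208925819614633469673472) (nat_lit 3) (nat_lit 0)) (.cons (.rf (nat_lit 1) (nat_lit 333664642767357984)) .nil))),
 (.br (nat_lit 7) (nat_lit 0) (.cons (.kr (nat_lit 16777216) (nat_lit 4294967296) (nat_lit 3) (nat_lit 0)) (.cons (.br (nat_lit 8) (nat_lit 0) (.cons (.br (nat_lit 9) (nat_lit 0) (.cons (.ev (nat_lit 4740886128962356576512) (nat_lit 2)) (.cons (.rf (nat_lit 0) (nat_lit 365699)) .nil))) (.cons (.rf (nat_lit 68) (nat_lit 11584701642934304)) (.cons (.rf (nat_lit 0) (nat_lit 365699)) .nil)))) (.cons (.rf (nat_lit 0) (nat_lit 365699)) .nil)))),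
 (.br (nat_lit 6) (nat_lit 0) (.cons (.rf (nat_lit 67) (nat_lit 325698279544864)) (.cons (.rf (nat_lit 67) (nat_lit 325698278529056)) (.cons (.br (nat_lit 2) (nat_lit 0) (.cons (.rf (nat_lit 67) (nat_lit 325702574508064)) (.cons (.rf (nat_lit 67) (nat_lit 325702573492256)) (.cons (.br (nat_lit 7) (nat_lit 0) (.cons (.rf (nat_lit 69) (nat_lit 11584701642934304)) (.cons (.rf (nat_lit 69) (nat_lit 11584701641918496)) (.cons (.br (nat_lit 7) (nat_lit 0) (.cons (.rf (nat_lit 69) (nat_lit 11584701642934304)) (.cons (.rf (nat_lit 69) (nat_lit 11584701641918496)) (.cons (.rf (nat_lit 0) (nat_lit 365699)) .nil)))) (.cons (.rf (nat_lit 0) (nat_lit 365699)) .nil))))) (.cons (.rf (nat_lit 0) (nat_lit 365699)) .nil))))) (.cons (.rf (nat_lit 0) (nat_lit 365699)) .nil))))),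
 (.br (nat_lit 2) (nat_lit 0) (.cons (.rf (nat_lit 67) (nat_lit 325702574508064)) (.cons (.rf (nat_lit 67) (nat_lit 325702573492256)) (.cons (.rf (nat_lit 0) (nat_lit 332931)) (.cons (.br (nat_lit 6) (nat_lit 0) (.cons (.rf (nat_lit 67) (nat_lit 325698279544864)) (.cons (.rf (nat_lit 67) (nat_lit 325698278529056)) (.cons (.rf (nat_lit 70) (nat_lit 11584697347971104)) (.cons (.rf (nat_lit 70) (nat_lit 11584701642934304)) (.cons (.rf (nat_lit 0) (nat_lit 365699)) .nil)))))) .nil))))),
 (.br (nat_lit 2) (nat_lit 0) (.cons (.rf (nat_lit 67) (nat_lit 325702574508064)) (.cons (.rf (nat_lit 67) (nat_lit 325702573492256)) (.cons (.rf (nat_lit 71) (nat_lit 325702574508064)) (.cons (.rf (nat_lit 0) (nat_lit 332931)) (.cons (.br (nat_lit 2) (nat_lit 0) (.cons (.rf (nat_lit 67) (nat_lit 325702574508064)) (.cons (.rf (nat_lit 67) (nat_lit 325702573492256)) (.cons (.rf (nat_lit 71) (nat_lit 325702574508064)) (.cons (.rf (nat_lit 0) (nat_lit 365699)) .nil))))) .nil)))))),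
 (.br (nat_lit 5) (nat_lit 1) (.cons (.ev (nat_lit 4722366765448445362176) (nat_lit 1)) (.cons (.br (nat_lit 7) (nat_lit 0) (.cons (.rf (nat_lit 17) (nat_lit 336936618646673440)) (.cons (.rf (nat_lit 0) (nat_lit 398467)) .nil))) .nil))),
 (.br (nat_lit 6) (nat_lit 0) (.cons (.rf (nat_lit 72) (nat_lit 291446923068608)) (.cons (.br (nat_lit 8) (nat_lit 0) (.cons (.br (nat_lit 7) (nat_lit 0) (.cons (.rf (nat_lit 73) (nat_lit 11584701642934304)) (.cons (.br (nat_lit 7) (nat_lit 0) (.cons (.rf (nat_lit 73) (nat_lit 11584701642934304)) (.cons (.rf (nat_lit 0) (nat_lit 365699)) .nil))) (.cons (.rf (nat_lit 0) (nat_lit 365699)) .nil)))) (.cons (.ev (nat_lit 18447025548703039744) (nat_lit 1)) (.cons (.br (nat_lit 9) (nat_lit 0) (.cons (.ev (nat_lit 4740813508422643286273) (nat_lit 1)) (.cons (.br (nat_lit 7) (nat_lit 0) (.cons (.ev (nat_lit 4722366764348916891904) (nat_lit 1)) (.cons (.br (nat_lit 7) (nat_lit 0) (.cons (.ev (nat_lit 18518801672042512384) (nat_lit 1)) (.cons (.rf (nat_lit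 0) (nat_lit 365699)) .nil))) (.cons (.rf (nat_lit 0) (nat_lit 365699)) .nil)))) (.cons (.rf (nat_lit 0) (nat_lit 365699)) .nil)))) (.cons (.rf (nat_lit 0) (nat_lit 365699)) .nil))))) (.cons (.rf (nat_lit 0) (nat_lit 365699)) .nil)))),
 (.br (nat_lit 2) (nat_lit 0) (.cons (.rf (nat_lit 72) (nat_lit 291584428049472)) (.cons (.rf (nat_lit 72) (nat_lit 291584395543616)) (.cons (.br (nat_lit 6) (nat_lit 0) (.cons (.rf (nat_lit 74) (nat_lit 11584701642934304)) (.cons (.rf (nat_lit 74) (nat_lit 11584701610428448)) (.cons (.br (nat_lit 6) (nat_lit 0) (.cons (.rf (nat_lit 74) (nat_lit 11584701642934304)) (.cons (.rf (nat_lit 74) (nat_lit 11584701610428448)) (.cons (.rf (nat_lit 0) (nat_lit 365699)) .nil)))) (.cons (.rf (nat_lit 0) (nat_lit 365699)) .nil))))) (.cons (.rf (nat_lit 0) (nat_lit 365699)) .nil))))),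
 (.br (nat_lit 7) (nat_lit 0) (.cons (.br (nat_lit 1) (nat_lit 0) (.cons (.rf (nat_lit 72) (nat_lit 325702542002208)) (.cons (.br (nat_lit 8) (nat_lit 0) (.cons (.ev (nat_lit 36966390179322593536) (nat_lit 2)) (.cons (.rf (nat_lit 0) (nat_lit 365699)) .nil))) (.cons (.rf (nat_lit 0) (nat_lit 365699)) .nil)))) (.cons (.br (nat_lit 1) (nat_lit 0) (.cons (.rf (nat_lit 72) (nat_lit 325702542002208)) (.cons (.br (nat_lit 8) (nat_lit 0) (.cons (.ev (nat_lit 1208944266358707196002561) (nat_lit 1)) (.cons (.ev (nat_lit 1208944338417400728780801) (nat_lit 1)) (.cons (.rf (nat_lit 0) (nat_lit 365699)) .nil)))) (.cons (.rf (nat_lit 0) (nat_lit 365699)) .nil)))) (.cons (.rf (nat_lit 0) (nat_lit 365699)) .nil)))),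
 (.br (nat_lit 6) (nat_lit 0) (.cons (.rf (nat_lit 72) (nat_lit 291446989096128)) (.cons (.rf (nat_lit 72) (nat_lit 291446923068608)) (.cons (.br (nat_lit 7) (nat_lit 0) (.cons (.rf (nat_lit 76) (nat_lit 11584495484504288)) (.cons (.rf (nat_lit 76) (nat_lit 11584495417460960)) (.cons (.rf (nat_lit 76) (nat_lit 11584701642934304)) (.cons (.rf (nat_lit 0) (nat_lit 365699)) .nil))))) (.cons (.rf (nat_lit 0) (nat_lit 365699)) .nil))))),
 (.br (nat_lit 6) (nat_lit 0) (.cons (.rf (nat_lit 75) (nat_lit 11584697347971104)) (.cons (.rf (nat_lit 77) (nat_lit 11584697347971104)) (.cons (.br (nat_lit 2) (nat_lit 0) (.cons (.rf (nat_lit 72) (nat_lit 291584428049472)) (.cons (.rf (nat_lit 72) (nat_lit 291584362021952)) (.cons (.br (nat_lit 7) (nat_lit 0) (.cons (.rf (nat_lit 77) (nat_lit 11550583495459904)) (.cons (.rf (nat_lit 75) (nat_lit 11550577053015104)) (.cons (.rf (nat_lit 75) (nat_lit 11550439580540096)) (.cons (.br (nat_lit 7) (nat_lit 0) (.cons (.rf (nat_lit 77) (nat_lit 11550583495459904))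 (.cons (.rf (nat_lit 75) (nat_lit 11550577053015104)) (.cons (.rf (nat_lit 75) (nat_lit 11550439580540096)) (.cons (.rf (nat_lit 0) (nat_lit 365699)) .nil))))) (.cons (.rf (nat_lit 0) (nat_lit 365699)) .nil)))))) (.cons (.rf (nat_lit 0) (nat_lit 365699)) .nil))))) (.cons (.rf (nat_lit 0) (nat_lit 365699)) .nil))))),
 (.br (nat_lit 2) (nat_lit 0) (.cons (.rf (nat_lit 72) (nat_lit 291584428049472)) (.cons (.rf (nat_lit 72) (nat_lit 291584362021952)) (.cons (.br (nat_lit 6) (nat_lit 0) (.cons (.rf (nat_lit 75) (nat_lit 11584697347971104)) (.cons (.rf (nat_lit 78) (nat_lit 11584697347971104)) (.cons (.rf (nat_lit 78) (nat_lit 11584697315465248)) (.cons (.rf (nat_lit 78) (nat_lit 11584701642934304)) (.cons (.rf (nat_lit 0) (nat_lit 365699)) .nil)))))) (.cons (.rf (nat_lit 0) (nat_lit 365699)) .nil))))),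
 (.br (nat_lit 2) (nat_lit 0) (.cons (.rf (nat_lit 75) (nat_lit 11550583496475712)) (.cons (.rf (nat_lit 79) (nat_lit 11550583495459904)) (.cons (.rf (nat_lit 79) (nat_lit 11550583461938240)) (.cons (.rf (nat_lit 0) (nat_lit 365699)) .nil))))),
 (.br (nat_lit 6) (nat_lit 1) (.cons (.br (nat_lit 7) (nat_lit 1) .nil) .nil)),
 (.br (nat_lit 6) (nat_lit 1) (.cons (.rf (nat_lit 81) (nat_lit 6614517792)) (.cons (.br (nat_lit 6) (nat_lit 1) (.cons (.rf (nat_lit 81) (nat_lit 6614517792)) .nil)) .nil))),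
 (.br (nat_lit 6) (nat_lit 1) (.cons (.br (nat_lit 7) (nat_lit 1) .nil) .nil)),
 (.br (nat_lit 6) (nat_lit 1) (.cons (.rf (nat_lit 83) (nat_lit 6614517792)) (.cons (.br (nat_lit 6) (nat_lit 1) (.cons (.rf (nat_lit 83) (nat_lit 6614517792)) .nil)) .nil))),
 (.br (nat_lit 9) (nat_lit 0) (.cons (.br (nat_lit 10) (nat_lit 0) (.cons (.ev (nat_lit 309485009893402662779486464) (nat_lit 1)) (.cons (.rf (nat_lit 0) (nat_lit 398467)) .nil))) (.cons (.rf (nat_lit 0) (nat_lit 398467)) .nil)))]

theorem c1 : chkAll C T R L1 (nat_lit 46) = true := by decide +kernel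

theorem l1 : (nat_lit 46) + L1.length = (nat_lit 86) := by decide +kernel

/-- part of the certificates -/
def L2 : List Prf := [(.br (nat_lit 7) (nat_lit 0) (.cons (.br (nat_lit 8) (nat_lit 0) (.cons (.rf (nat_lit 85) (nat_lit 443930265870501920)) (.cons (.br (nat_lit 11) (nat_lit 0) (.cons (.rf (nat_lit 85) (nat_lit 443933564405385248)) (.cons (.rf (nat_lit 0) (nat_lit 431235)) .nil))) (.cons (.rf (nat_lit 0) (nat_lit 431235)) .nil)))) (.cons (.rf (nat_lit 0) (nat_lit 431235)) .nil))),
 (.br (nat_lit 7) (nat_lit 0) (.cons (.rf (nat_lit 86) (nat_lit 14242959524133701664)) (.cons (.br (nat_lit 7) (nat_lit 0) (.cons (.rf (nat_lit 86) (nat_lit 14242959524133701664)) (.cons (.rf (nat_lit 0) (nat_lit 431235)) .nil))) (.cons (.rf (nat_lit 0) (nat_lit 431235)) .nil)))),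
 (.br (nat_lit 7) (nat_lit 0) (.cons (.rf (nat_lit 34) (nat_lit 407901430195821600)) (.cons (.rf (nat_lit 87) (nat_lit 14242925405987244064)) (.cons (.rf (nat_lit 0) (nat_lit 431235)) .nil)))),
 (.br (nat_lit 7) (nat_lit 0) (.cons (.rf (nat_lit 34) (nat_lit 407901430195821600)) (.cons (.br (nat_lit 12) (nat_lit 1) (.cons (.rf (nat_lit 37) (nat_lit 445056165777344544)) (.cons (.rf (nat_lit 37) (nat_lit 443896147724044320)) (.cons (.rf (nat_lit 37) (nat_lit 442771347328829472)) (.cons (.rf (nat_lit 37) (nat_lit 441681764591700000)) .nil))))) (.cons (.rf (nat_lit 0) (nat_lit 431235)) .nil)))),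
 (.br (nat_lit 6) (nat_lit 0) (.cons (.rf (nat_lit 34) (nat_lit 407901464555558944)) (.cons (.br (nat_lit 7) (nat_lit 0) (.cons (.rf (nat_lit 88) (nat_lit 14242959524133701664)) (.cons (.rf (nat_lit 89) (nat_lit 14242959524133701664)) (.cons (.br (nat_lit 7) (nat_lit 0) (.cons (.rf (nat_lit 87) (nat_lit 14242925405987244064)) (.cons (.rf (nat_lit 89) (nat_lit 14242959524133701664)) (.cons (.rf (nat_lit 0) (nat_lit 431235)) .nil)))) (.cons (.rf (nat_lit 0) (nat_lit 431235)) .nil))))) (.cons (.rf (nat_lit 0) (nat_lit 431235)) .nil)))),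
 (.br (nat_lit 2) (nat_lit 0) (.cons (.kr (nat_lit 16777216) (nat_lit 4294967296) (nat_lit 3) (nat_lit 0)) (.cons (.rf (nat_lit 34) (nat_lit 407901468851537952)) (.cons (.rf (nat_lit 0) (nat_lit 398467)) (.cons (.br (nat_lit 6) (nat_lit 0) (.cons (.br (nat_lit 6) (nat_lit 0) (.cons (.rf (nat_lit 34) (nat_lit 407901464555558944)) (.cons (.rf (nat_lit 87) (nat_lit 14242959524133701664)) (.cons (.rf (nat_lit 0) (nat_lit 431235)) .nil)))) (.cons (.rf (nat_lit 90) (nat_lit 14242959524133701664)) (.cons (.br (nat_lit 6) (nat_lit 0) (.cons (.rf (nat_lit 87) (nat_lit 14242959524133701664)) (.cons (.rf (nat_lit 90) (nat_lit 14242959524133701664)) (.cons (.rf (nat_lit 0) (nat_lit 431235)) .nil)))) (.cons (.rf (nat_lit 0) (nat_lit 431235)) .nil))))) .nil))))),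
 (.br (nat_lit 7) (nat_lit 0) (.cons (.kr (nat_lit 16777216) (nat_lit 4294967296) (nat_lit 3) (nat_lit 0)) (.cons (.br (nat_lit 12) (nat_lit 1) (.cons (.rf (nat_lit 68) (nat_lit 13906870200797216)) (.cons (.rf (nat_lit 37) (nat_lit 443896142355340320)) (.cons (.rf (nat_lit 37) (nat_lit 442771341960125472)) (.cons (.rf (nat_lit 37) (nat_lit 442772441471753248)) .nil))))) (.cons (.rf (nat_lit 0) (nat_lit 431235)) .nil)))),
 (.br (nat_lit 7) (nat_lit 0) (.cons (.rf (nat_lit 92) (nat_lit 14242959524133701664)) (.cons (.rf (nat_lit 92) (nat_lit 14242959524132685856)) (.cons (.br (nat_lit 7) (nat_lit 0) (.cons (.rf (nat_lit 92) (nat_lit 14242959524133701664)) (.cons (.rf (nat_lit 92) (nat_lit 14242959524132685856)) (.cons (.rf (nat_lit 0) (nat_lit 431235)) .nil)))) (.cons (.rf (nat_lit 0) (nat_lit 431235)) .nil))))),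
 (.br (nat_lit 2) (nat_lit 0) (.cons (.rf (nat_lit 34) (nat_lit 407901468851537952)) (.cons (.rf (nat_lit 34) (nat_lit 407901468850522144)) (.cons (.rf (nat_lit 0) (nat_lit 398467)) (.cons (.br (nat_lit 6) (nat_lit 0) (.cons (.rf (nat_lit 91) (nat_lit 407901464556574752)) (.cons (.rf (nat_lit 91) (nat_lit 407901464555558944)) (.cons (.br (nat_lit 6) (nat_lit 0) (.cons (.rf (nat_lit 34) (nat_lit 407901464556574752)) (.cons (.rf (nat_lit 34) (nat_lit 407901464555558944)) (.cons (.rf (nat_lit 93) (nat_lit 14242959524133701664)) (.cons (.rf (nat_lit 0) (nat_lit 431235)) .nil))))) (.cons (.br (nat_lit 6) (nat_lit 0) (.cons (.rf (nat_lit 91) (nat_lit 407901464556574752)) (.cons (.rf (nat_lit 91) (nat_lit 407901464555558944)) (.cons (.rf (nat_lit 93) (nat_lit 14242959524133701664)) (.cons (.rf (nat_lit 0) (nat_lit 431235)) .nil))))) (.cons (.rf (nat_lit 0) (nat_lit 431235)) .nil)))))) .nil))))),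
 (.br (nat_lit 2) (nat_lit 0) (.cons (.rf (nat_lit 91) (nat_lit 407901468851537952)) (.cons (.rf (nat_lit 91) (nat_lit 407901468850522144)) (.cons (.rf (nat_lit 94) (nat_lit 407901468851537952)) (.cons (.rf (nat_lit 0) (nat_lit 398467)) (.cons (.br (nat_lit 2) (nat_lit 0) (.cons (.rf (nat_lit 91) (nat_lit 407901468851537952)) (.cons (.rf (nat_lit 91) (nat_lit 407901468850522144)) (.cons (.rf (nat_lit 94) (nat_lit 407901468851537952)) (.cons (.rf (nat_lit 0) (nat_lit 431235)) .nil))))) .nil)))))),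
 (.br (nat_lit 7) (nat_lit 0) (.cons (.rf (nat_lit 34) (nat_lit 407901429088558144)) (.cons (.br (nat_lit 11) (nat_lit 0) (.cons (.br (nat_lit 9) (nat_lit 0) (.cons (.br (nat_lit 8) (nat_lit 0) (.cons (.rf (nat_lit 0) (nat_lit 431235)) .nil)) (.cons (.rf (nat_lit 0) (nat_lit 431235)) .nil))) (.cons (.ev (nat_lit 79537647524157741355835130113) (nat_lit 1)) (.cons (.rf (nat_lit 0) (nat_lit 431235)) .nil)))) (.cons (.rf (nat_lit 0) (nat_lit 431235)) .nil)))),
 (.br (nat_lit 7) (nat_lit 0) (.cons (.kr (nat_lit 4294967296) (nat_lit 1099511627776) (nat_lit 4) (nat_lit 0)) (.cons (.rf (nat_lit 89) (nat_lit 14171994667420359872)) (.cons (.rf (nat_lit 0) (nat_lit 431235)) .nil)))),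
 (.br (nat_lit 7) (nat_lit 0) (.cons (.rf (nat_lit 97) (nat_lit 14242959524133701664)) (.cons (.rf (nat_lit 97) (nat_lit 14242959524101195808)) (.cons (.br (nat_lit 7) (nat_lit 0) (.cons (.rf (nat_lit 97) (nat_lit 14242959524133701664)) (.cons (.rf (nat_lit 97) (nat_lit 14242959524101195808)) (.cons (.rf (nat_lit 0) (nat_lit 431235)) .nil)))) (.cons (.rf (nat_lit 0) (nat_lit 431235)) .nil))))),
 (.br (nat_lit 8) (nat_lit 0) (.cons (.br (nat_lit 9) (nat_lit 0) (.cons (.ev (nat_lit 18447026648197955584) (nat_lit 1)) (.cons (.rf (nat_lit 0) (nat_lit 365699)) .nil))) (.cons (.rf (nat_lit 0) (nat_lit 365699)) .nil))),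
 (.br (nat_lit 2) (nat_lit 0) (.cons (.rf (nat_lit 88) (nat_lit 14204750362270860352)) (.cons (.br (nat_lit 6) (nat_lit 0) (.cons (.rf (nat_lit 34) (nat_lit 407901463448295488)) (.cons (.br (nat_lit 7) (nat_lit 0) (.cons (.rf (nat_lit 98) (nat_lit 14204750185102449856)) (.cons (.rf (nat_lit 96) (nat_lit 14242959524133701664)) (.cons (.br (nat_lit 7) (nat_lit 0) (.cons (.rf (nat_lit 98) (nat_lit 14204750185102449856)) (.cons (.rf (nat_lit 96) (nat_lit 14242959524133701664)) (.cons (.rf (nat_lit 0) (nat_lit 431235)) .nil)))) (.cons (.rf (nat_lit 0) (nat_lit 431235)) .nil))))) (.cons (.rf (nat_lit 0) (nat_lit 431235)) .nil)))) (.cons (.br (nat_lit 6) (nat_lit 0) (.cons (.rf (nat_lit 98) (nat_lit 14242959524133701664)) (.cons (.br (nat_lit 7) (nat_lit 0) (.cons (.br (nat_lit 7) (nat_lit 0) (.cons (.rf (nat_lit 91) (nat_lit 406810542797363424)) (.cons (.rf (nat_lit 99) (nat_lit 13906870200797216)) (.cons (.rf (nat_lit 0) (nat_lit 431235)) .nil)))) (.cons (.br (nat_lit 7) (nat_lit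 0) (.cons (.rf (nat_lit 91) (nat_lit 406810542797363424)) (.cons (.rf (nat_lit 52) (nat_lit 14208056456296634400)) (.cons (.rf (nat_lit 0) (nat_lit 431235)) .nil)))) (.cons (.br (nat_lit 7) (nat_lit 0) (.cons (.rf (nat_lit 99) (nat_lit 13906870200797216)) (.cons (.rf (nat_lit 52) (nat_lit 14208056456296634400)) (.cons (.rf (nat_lit 0) (nat_lit 431235)) .nil)))) (.cons (.rf (nat_lit 0) (nat_lit 431235)) .nil))))) (.cons (.rf (nat_lit 0) (nat_lit 431235)) .nil)))) (.cons (.rf (nat_lit 0) (nat_lit 431235)) .nil))))),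
 (.br (nat_lit 6) (nat_lit 0) (.cons (.rf (nat_lit 100) (nat_lit 14242959524133701664)) (.cons (.rf (nat_lit 100) (nat_lit 14242959524101195808)) (.cons (.br (nat_lit 6) (nat_lit 0) (.cons (.rf (nat_lit 100) (nat_lit 14242959524133701664)) (.cons (.rf (nat_lit 100) (nat_lit 14242959524101195808)) (.cons (.rf (nat_lit 0) (nat_lit 431235)) .nil)))) (.cons (.rf (nat_lit 0) (nat_lit 431235)) .nil))))),
 (.br (nat_lit 7) (nat_lit 0) (.cons (.rf (nat_lit 34) (nat_lit 407901429056052288)) (.cons (.br (nat_lit 12) (nat_lit 1) (.cons (.rf (nat_lit 37) (nat_lit 445056160342612032)) (.cons (.rf (nat_lit 37) (nat_lit 445092244510349376)) (.cons (.rf (nat_lit 37) (nat_lit 445058359365867584)) (.cons (.rf (nat_lit 37) (nat_lit 441681759156967488)) .nil))))) (.cons (.rf (nat_lit 0) (nat_lit 431235)) .nil)))),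
 (.br (nat_lit 6) (nat_lit 0) (.cons (.rf (nat_lit 34) (nat_lit 407901463416805440)) (.cons (.kr (nat_lit 4294967296) (nat_lit 1099511627776) (nat_lit 4) (nat_lit 0)) (.cons (.br (nat_lit 7) (nat_lit 0) (.cons (.rf (nat_lit 102) (nat_lit 14242959524133701664)) (.cons (.rf (nat_lit 88) (nat_lit 14168722692614789184)) (.cons (.br (nat_lit 7) (nat_lit 0) (.cons (.rf (nat_lit 102) (nat_lit 14242959524133701664)) (.cons (.rf (nat_lit 87) (nat_lit 14240743803053021248)) (.cons (.rf (nat_lit 0) (nat_lit 431235)) .nil)))) (.cons (.rf (nat_lit 0) (nat_lit 431235)) .nil))))) (.cons (.rf (nat_lit 0) (nat_lit 431235)) .nil))))),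
 (.br (nat_lit 6) (nat_lit 0) (.cons (.rf (nat_lit 98) (nat_lit 14242959519838738464)) (.cons (.rf (nat_lit 103) (nat_lit 14242959524133701664)) (.cons (.rf (nat_lit 103) (nat_lit 14242959524101195808)) (.cons (.br (nat_lit 6) (nat_lit 0) (.cons (.rf (nat_lit 98) (nat_lit 14242959519838738464)) (.cons (.rf (nat_lit 103) (nat_lit 14242959524133701664)) (.cons (.rf (nat_lit 103) (nat_lit 14242959524101195808)) (.cons (.rf (nat_lit 0) (nat_lit 431235)) .nil))))) (.cons (.rf (nat_lit 0) (nat_lit 431235)) .nil)))))),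
 (.br (nat_lit 7) (nat_lit 0) (.cons (.rf (nat_lit 95) (nat_lit 406810547125848288)) (.cons (.br (nat_lit 8) (nat_lit 0) (.cons (.br (nat_lit 9) (nat_lit 0) (.cons (.br (nat_lit 10) (nat_lit 0) (.cons (.rf (nat_lit 0) (nat_lit 431235)) .nil)) (.cons (.rf (nat_lit 0) (nat_lit 431235)) .nil))) (.cons (.rf (nat_lit 0) (nat_lit 431235)) .nil))) (.cons (.rf (nat_lit 0) (nat_lit 431235)) .nil)))),
 (.br (nat_lit 6) (nat_lit 0) (.cons (.rf (nat_lit 87) (nat_lit 14240709919048303808)) (.cons (.rf (nat_lit 104) (nat_lit 14242959519838738464)) (.cons (.br (nat_lit 7) (nat_lit 0) (.cons (.rf (nat_lit 105) (nat_lit 14242959524133701664)) (.cons (.br (nat_lit 7) (nat_lit 0) (.cons (.rf (nat_lit 95) (nat_lit 406810547125848288)) (.cons (.rf (nat_lit 52) (nat_lit 14208056593735583776)) (.cons (.rf (nat_lit 0) (nat_lit 431235)) .nil)))) (.cons (.br (nat_lit 7) (nat_lit 0) (.cons (.rf (nat_lit 105) (nat_lit 14242959524133701664)) (.cons (.rf (nat_lit 52) (nat_lit 14208056593735583776)) (.cons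 (.rf (nat_lit 0) (nat_lit 431235)) .nil)))) (.cons (.rf (nat_lit 0) (nat_lit 431235)) .nil))))) (.cons (.rf (nat_lit 0) (nat_lit 431235)) .nil))))),
 (.br (nat_lit 7) (nat_lit 0) (.cons (.rf (nat_lit 91) (nat_lit 406810547157338336)) (.cons (.rf (nat_lit 91) (nat_lit 406810547092326624)) (.cons (.rf (nat_lit 52) (nat_lit 14208056627021580320)) (.cons (.rf (nat_lit 0) (nat_lit 431235)) .nil))))),
 (.br (nat_lit 6) (nat_lit 0) (.cons (.rf (nat_lit 101) (nat_lit 14242959519838738464)) (.cons (.rf (nat_lit 104) (nat_lit 14242959519838738464)) (.cons (.br (nat_lit 7) (nat_lit 0) (.cons (.br (nat_lit 7) (nat_lit 0) (.cons (.rf (nat_lit 91) (nat_lit 406810547157338336)) (.cons (.rf (nat_lit 91) (nat_lit 406810542828853472)) (.cons (.rf (nat_lit 52) (nat_lit 14208056627021580320)) (.cons (.rf (nat_lit 0) (nat_lit 431235)) .nil))))) (.cons (.rf (nat_lit 107) (nat_lit 14242959524133701664)) (.cons (.rf (nat_lit 107) (nat_lit 14242959519806232608)) (.cons (.rf (nat_lit 52) (nat_lit 14208056627021580320))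 (.cons (.rf (nat_lit 0) (nat_lit 431235)) .nil)))))) (.cons (.rf (nat_lit 0) (nat_lit 431235)) .nil))))),
 (.br (nat_lit 2) (nat_lit 0) (.cons (.rf (nat_lit 101) (nat_lit 14242959524133701664)) (.cons (.rf (nat_lit 104) (nat_lit 14242959524133701664)) (.cons (.br (nat_lit 6) (nat_lit 0) (.cons (.rf (nat_lit 101) (nat_lit 14242959519838738464)) (.cons (.rf (nat_lit 106) (nat_lit 14242959524133701664)) (.cons (.rf (nat_lit 108) (nat_lit 14242959524133701664)) (.cons (.br (nat_lit 6) (nat_lit 0) (.cons (.rf (nat_lit 101) (nat_lit 14242959519838738464)) (.cons (.rf (nat_lit 106) (nat_lit 14242959524133701664)) (.cons (.rf (nat_lit 108) (nat_lit 14242959524133701664)) (.cons (.rf (nat_lit 0) (nat_lit 431235)) .nil))))) (.cons (.rf (nat_lit 0) (nat_lit 431235)) .nil)))))) (.cons (.rf (nat_lit 0) (nat_lit 431235)) .nil))))),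
 (.br (nat_lit 8) (nat_lit 1) (.cons (.rf (nat_lit 84) (nat_lit 11048032321)) (.cons (.rf (nat_lit 84) (nat_lit 10007648327)) (.cons (.br (nat_lit 9) (nat_lit 1) (.cons (.br (nat_lit 10) (nat_lit 1) (.cons (.br (nat_lit 1) (nat_lit 0) (.cons (.rf (nat_lit 95) (nat_lit 407901468851537952)) (.cons (.rf (nat_lit 95) (nat_lit 407901468819032096)) (.cons (.rf (nat_lit 0) (nat_lit 398467)) (.cons (.br (nat_lit 2) (nat_lit 0) (.cons (.rf (nat_lit 101) (nat_lit 14242959524133701664)) (.cons (.rf (nat_lit 109) (nat_lit 14242959524133701664)) (.cons (.rf (nat_lit 109) (nat_lit 14242959524101195808)) (.cons (.br (nat_lit 2) (nat_lit 0) (.cons (.rf (nat_lit 101) (nat_lit 14242959524133701664)) (.cons (.rf (nat_lit 109) (nat_lit 14242959524133701664)) (.cons (.rf (nat_lit 109) (nat_lit 14242959524101195808)) (.cons (.rf (nat_lit 0) (nat_lit 431235)) .nil))))) (.cons (.rf (nat_lit 0) (nat_lit 431235)) .nil)))))) .nil))))) .nil)) .nil)) .nil)))),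
 (.br (nat_lit 7) (nat_lit 1) (.cons (.rf (nat_lit 29) (nat_lit 8587489)) (.cons (.rf (nat_lit 58) (nat_lit 8624193)) (.cons (.br (nat_lit 1) (nat_lit 1) (.cons (.rf (nat_lit 58) (nat_lit 8587303)) (.cons (.br (nat_lit 8) (nat_lit 1) (.cons (.br (nat_lit 1) (nat_lit 0) (.cons (.rf (nat_lit 72) (nat_lit 325702574508064)) (.cons (.rf (nat_lit 72) (nat_lit 325702542002208)) (.cons (.rf (nat_lit 0) (nat_lit 332931)) (.cons (.br (nat_lit 2) (nat_lit 0) (.cons (.rf (nat_lit 80) (nat_lit 11550583496475712)) (.cons (.rf (nat_lit 80) (nat_lit 11550583495459904)) (.cons (.rf (nat_lit 80) (nat_lit 11550583461938240)) (.cons (.rf (nat_lit 80) (nat_lit 11584701642934304)) (.cons (.rf (nat_lit 0) (nat_lit 365699)) .nil)))))) .nil))))) (.cons (.rf (nat_lit 82) (nat_lit 11048032321)) .nil))) (.cons (.br (nat_lit 9) (nat_lit 1) (.cons (.rf (nat_lit 84) (nat_lit 11048032321)) (.cons (.rf (nat_lit 110) (nat_lit 11584701642934304)) (.cons (.br (nat_lit 9) (nat_lit 1) (.cons (.rf (nat_lit 84) (nat_lit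 11048032321)) (.cons (.rf (nat_lit 110) (nat_lit 11584701642934304)) .nil))) .nil)))) .nil)))) .nil)))),
 (.br (nat_lit 6) (nat_lit 0) (.cons (.rf (nat_lit 0) (nat_lit 332931)) (.cons (.br (nat_lit 6) (nat_lit 0) (.cons (.rf (nat_lit 0) (nat_lit 365699)) .nil)) .nil))),
 (.br (nat_lit 2) (nat_lit 0) (.cons (.rf (nat_lit 112) (nat_lit 325702574508064)) (.cons (.rf (nat_lit 0) (nat_lit 332931)) (.cons (.br (nat_lit 2) (nat_lit 0) (.cons (.rf (nat_lit 112) (nat_lit 325702574508064)) (.cons (.rf (nat_lit 0) (nat_lit 365699)) .nil))) .nil)))),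
 (.br (nat_lit 7) (nat_lit 0) (.cons (.rf (nat_lit 0) (nat_lit 332931)) (.cons (.br (nat_lit 7) (nat_lit 0) (.cons (.rf (nat_lit 0) (nat_lit 365699)) .nil)) .nil))),
 (.br (nat_lit 5) (nat_lit 1) (.cons (.rf (nat_lit 114) (nat_lit 325702574508064)) (.cons (.rf (nat_lit 114) (nat_lit 325669288511520)) (.cons (.rf (nat_lit 112) (nat_lit 362020817963040)) .nil)))),
 (.br (nat_lit 5) (nat_lit 1) (.cons (.rf (nat_lit 115) (nat_lit 325702574508064)) (.cons (.rf (nat_lit 115) (nat_lit 325698279544864)) (.cons (.rf (nat_lit 115) (nat_lit 325663919807520)) (.cons (.rf (nat_lit 113) (nat_lit 362020817963040)) .nil))))),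
 (.br (nat_lit 7) (nat_lit 0) (.cons (.rf (nat_lit 0) (nat_lit 332931)) (.cons (.br (nat_lit 7) (nat_lit 0) (.cons (.rf (nat_lit 0) (nat_lit 365699)) .nil)) .nil))),
 (.br (nat_lit 6) (nat_lit 0) (.cons (.rf (nat_lit 117) (nat_lit 325702574508064)) (.cons (.rf (nat_lit 0) (nat_lit 332931)) (.cons (.br (nat_lit 6) (nat_lit 0) (.cons (.rf (nat_lit 117) (nat_lit 325702574508064)) (.cons (.rf (nat_lit 0) (nat_lit 365699)) .nil))) .nil)))),
 (.br (nat_lit 4) (nat_lit 1) (.cons (.rf (nat_lit 118) (nat_lit 325702574508064)) (.cons (.rf (nat_lit 118) (nat_lit 325698279544864)) (.cons (.rf (nat_lit 118) (nat_lit 325663919807520)) (.cons (.rf (nat_lit 113) (nat_lit 327935957501984)) .nil))))),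
 (.br (nat_lit 12) (nat_lit 0) (.cons (.rf (nat_lit 117) (nat_lit 431255690774560)) (.cons (.br (nat_lit 6) (nat_lit 0) (.cons (.br (nat_lit 7) (nat_lit 0) (.cons (.br (nat_lit 2) (nat_lit 0) (.cons (.rf (nat_lit 0) (nat_lit 431235)) .nil)) (.cons (.rf (nat_lit 0) (nat_lit 431235)) .nil))) (.cons (.rf (nat_lit 0) (nat_lit 431235)) .nil))) (.cons (.rf (nat_lit 0) (nat_lit 431235)) .nil)))),
 (.br (nat_lit 1) (nat_lit 1) (.cons (.rf (nat_lit 111) (nat_lit 9038896202944)) (.cons (.rf (nat_lit 111) (nat_lit 10142736319552)) (.cons (.rf (nat_lit 111) (nat_lit 11208961950784)) (.cons (.rf (nat_lit 120) (nat_lit 14242959524133701664)) .nil))))),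
 (.br (nat_lit 6) (nat_lit 0) (.cons (.rf (nat_lit 121) (nat_lit 407901468851537952)) (.cons (.br (nat_lit 6) (nat_lit 0) (.cons (.rf (nat_lit 121) (nat_lit 407901468851537952)) (.cons (.rf (nat_lit 0) (nat_lit 398467)) .nil))) (.cons (.rf (nat_lit 0) (nat_lit 398467)) .nil)))),
 (.br (nat_lit 7) (nat_lit 0) (.cons (.rf (nat_lit 120) (nat_lit 14241868637874001952)) (.cons (.rf (nat_lit 0) (nat_lit 431235)) .nil)))]

theorem c2 : chkAll C T R L2 (nat_lit 86) = true := by decide +kernel

theorem l2 : (nat_lit 86) + L2.length = (nat_lit 124) := by decide +kernel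

/-- part of the certificates -/
def L3 : List Prf := [(.br (nat_lit 2) (nat_lit 0) (.cons (.rf (nat_lit 122) (nat_lit 407901468851537952)) (.cons (.br (nat_lit 1) (nat_lit 1) (.cons (.br (nat_lit 4) (nat_lit 1) (.cons (.rf (nat_lit 111) (nat_lit 9038929724608)) (.cons (.rf (nat_lit 111) (nat_lit 9004569986272)) (.cons (.rf (nat_lit 115) (nat_lit 431255690774560)) .nil)))) (.cons (.rf (nat_lit 111) (nat_lit 10142702797888)) (.cons (.rf (nat_lit 111) (nat_lit 11208928429120)) (.cons (.br (nat_lit 12) (nat_lit 0) (.cons (.rf (nat_lit 115) (nat_lit 431255690774560)) (.cons (.rf (nat_lit 119) (nat_lit 431255690774560)) (.cons (.br (nat_lit 6) (nat_lit 0) (.cons (.rf (nat_lit 123) (nat_lit 14242959524133701664)) (.cons (.br (nat_lit 7) (nat_lit 0) (.cons (.rf (nat_lit 120) (nat_lit 14242959352335014944)) (.cons (.rf (nat_lit 0) (nat_lit 431235)) .nil))) (.cons (.rf (nat_lit 0) (nat_lit 431235)) .nil)))) (.cons (.rf (nat_lit 0) (nat_lit 431235)) .nil))))) .nil))))) (.cons (.rf (nat_lit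 0) (nat_lit 398467)) .nil)))),
 (.br (nat_lit 9) (nat_lit 0) (.cons (.rf (nat_lit 116) (nat_lit 325702574508064)) (.cons (.rf (nat_lit 119) (nat_lit 325702574508064)) (.cons (.rf (nat_lit 0) (nat_lit 365699)) (.cons (.br (nat_lit 10) (nat_lit 0) (.cons (.rf (nat_lit 116) (nat_lit 360886946596896)) (.cons (.rf (nat_lit 119) (nat_lit 360886946596896)) (.cons (.br (nat_lit 2) (nat_lit 0) (.cons (.rf (nat_lit 122) (nat_lit 407901468851537952)) (.cons (.rf (nat_lit 124) (nat_lit 407901468851537952)) (.cons (.br (nat_lit 2) (nat_lit 0) (.cons (.rf (nat_lit 122) (nat_lit 407901468851537952)) (.cons (.rf (nat_lit 124) (nat_lit 407901468851537952)) (.cons (.rf (nat_lit 0) (nat_lit 398467)) .nil)))) (.cons (.rf (nat_lit 0) (nat_lit 398467)) .nil))))) (.cons (.rf (nat_lit 0) (nat_lit 398467)) .nil))))) .nil))))),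
 (.br (nat_lit 7) (nat_lit 0) (.cons (.rf (nat_lit 0) (nat_lit 332931)) (.cons (.br (nat_lit 7) (nat_lit 0) (.cons (.rf (nat_lit 0) (nat_lit 365699)) .nil)) .nil))),
 (.br (nat_lit 4) (nat_lit 1) (.cons (.kr (nat_lit 16777216) (nat_lit 4294967296) (nat_lit 3) (nat_lit 0)) (.cons (.rf (nat_lit 126) (nat_lit 325702574508064)) (.cons (.rf (nat_lit 126) (nat_lit 325669288511520)) (.cons (.rf (nat_lit 118) (nat_lit 292717224658976)) .nil))))),
 (.br (nat_lit 2) (nat_lit 0) (.cons (.rf (nat_lit 127) (nat_lit 325702574508064)) (.cons (.rf (nat_lit 127) (nat_lit 325702573492256)) (.cons (.rf (nat_lit 0) (nat_lit 332931)) (.cons (.br (nat_lit 2) (nat_lit 0) (.cons (.rf (nat_lit 127) (nat_lit 325702574508064)) (.cons (.rf (nat_lit 127) (nat_lit 325702573492256)) (.cons (.rf (nat_lit 0) (nat_lit 365699)) .nil)))) .nil))))),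
 (.br (nat_lit 6) (nat_lit 0) (.cons (.kr (nat_lit 16777216) (nat_lit 4294967296) (nat_lit 3) (nat_lit 0)) (.cons (.rf (nat_lit 0) (nat_lit 431235)) .nil))),
 (.br (nat_lit 7) (nat_lit 0) (.cons (.rf (nat_lit 129) (nat_lit 14242959490846689312)) (.cons (.rf (nat_lit 129) (nat_lit 14242959490847705120)) (.cons (.rf (nat_lit 0) (nat_lit 431235)) .nil)))),
 (.br (nat_lit 12) (nat_lit 0) (.cons (.rf (nat_lit 118) (nat_lit 294916247914528)) (.cons (.rf (nat_lit 128) (nat_lit 431255690774560)) (.cons (.br (nat_lit 2) (nat_lit 0) (.cons (.kr (nat_lit 16777216) (nat_lit 4294967296) (nat_lit 3) (nat_lit 0)) (.cons (.br (nat_lit 6) (nat_lit 0) (.cons (.br (nat_lit 7) (nat_lit 0) (.cons (.rf (nat_lit 130) (nat_lit 14242959490847705120)) (.cons (.rf (nat_lit 0) (nat_lit 431235)) .nil))) (.cons (.rf (nat_lit 130) (nat_lit 14242959524133701664)) (.cons (.rf (nat_lit 0) (nat_lit 431235)) .nil)))) (.cons (.br (nat_lit 5) (nat_lit 1) (.cons (.rf (nat_lit 130) (nat_lit 14242959519838738464))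 (.cons (.rf (nat_lit 130) (nat_lit 14242959485479001120)) .nil))) (.cons (.rf (nat_lit 0) (nat_lit 431235)) .nil))))) (.cons (.rf (nat_lit 0) (nat_lit 431235)) .nil))))),
 (.br (nat_lit 1) (nat_lit 1) (.cons (.rf (nat_lit 111) (nat_lit 9038930740416)) (.cons (.br (nat_lit 4) (nat_lit 1) (.cons (.rf (nat_lit 111) (nat_lit 10142736319552)) (.cons (.kr (nat_lit 16777216) (nat_lit 4294967296) (nat_lit 3) (nat_lit 0)) (.cons (.rf (nat_lit 111) (nat_lit 9970937627872)) (.cons (.rf (nat_lit 118) (nat_lit 294911952951328)) .nil))))) (.cons (.rf (nat_lit 111) (nat_lit 11071524013248)) (.cons (.rf (nat_lit 131) (nat_lit 14242959519838738464)) .nil))))),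
 (.br (nat_lit 9) (nat_lit 0) (.cons (.rf (nat_lit 119) (nat_lit 291617714047008)) (.cons (.rf (nat_lit 119) (nat_lit 291617713031200)) (.cons (.rf (nat_lit 128) (nat_lit 325702574508064)) (.cons (.rf (nat_lit 0) (nat_lit 365699)) (.cons (.br (nat_lit 10) (nat_lit 0) (.cons (.rf (nat_lit 119) (nat_lit 292717225674784)) (.cons (.rf (nat_lit 119) (nat_lit 292717224658976)) (.cons (.rf (nat_lit 128) (nat_lit 360886946596896)) (.cons (.br (nat_lit 3) (nat_lit 1) (.cons (.br (nat_lit 1) (nat_lit 1) (.cons (.br (nat_lit 4) (nat_lit 1) (.cons (.kr (nat_lit 16777216) (nat_lit 4294967296) (nat_lit 3) (nat_lit 0)) (.cons (.rf (nat_lit 111) (nat_lit 9038929724608)) (.cons (.rf (nat_lit 111) (nat_lit 9004569986272)) (.cons (.rf (nat_lit 118) (nat_lit 294916247914528)) .nil))))) (.cons (.rf (nat_lit 111) (nat_lit 10142737335360)) (.cons (.rf (nat_lit 111) (nat_lit 11208962966592)) (.cons (.rf (nat_lit 131) (nat_lit 14242959524133701664)) .nil))))) (.cons (.rf (nat_lit 132) (nat_lit 407901468851537952))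 (.cons (.rf (nat_lit 132) (nat_lit 406810720030787616)) (.cons (.rf (nat_lit 119) (nat_lit 294916248930336)) .nil))))) (.cons (.rf (nat_lit 0) (nat_lit 398467)) .nil)))))) .nil)))))),
 (.br (nat_lit 6) (nat_lit 0) (.cons (.kr (nat_lit 16777216) (nat_lit 4294967296) (nat_lit 3) (nat_lit 0)) (.cons (.rf (nat_lit 0) (nat_lit 431235)) .nil))),
 (.br (nat_lit 7) (nat_lit 0) (.cons (.rf (nat_lit 134) (nat_lit 14242959490813166656)) (.cons (.rf (nat_lit 134) (nat_lit 14242959490815198272)) (.cons (.rf (nat_lit 0) (nat_lit 431235)) .nil)))),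
 (.br (nat_lit 1) (nat_lit 1) (.cons (.br (nat_lit 5) (nat_lit 1) (.cons (.br (nat_lit 4) (nat_lit 1) (.cons (.rf (nat_lit 111) (nat_lit 9038929724608)) (.cons (.rf (nat_lit 111) (nat_lit 9004569986272)) (.cons (.rf (nat_lit 131) (nat_lit 11935959828655080512)) .nil)))) (.cons (.rf (nat_lit 111) (nat_lit 9038896202944)) (.cons (.rf (nat_lit 111) (nat_lit 9004536464608)) (.cons (.rf (nat_lit 131) (nat_lit 11935959828687587360)) .nil))))) (.cons (.rf (nat_lit 111) (nat_lit 10142737335360)) (.cons (.rf (nat_lit 111) (nat_lit 11208962966592)) (.cons (.br (nat_lit 12) (nat_lit 0) (.cons (.br (nat_lit 2) (nat_lit 0) (.cons (.rf (nat_lit 133) (nat_lit 11589099656938560)) (.cons (.br (nat_lit 6) (nat_lit 0) (.cons (.br (nat_lit 6) (nat_lit 0) (.cons (.rf (nat_lit 0) (nat_lit 431235)) .nil)) (.cons (.rf (nat_lit 0) (nat_lit 431235)) .nil))) (.cons (.rf (nat_lit 0) (nat_lit 431235)) .nil)))) (.cons (.rf (nat_lit 131) (nat_lit 11935959828687587360)) (.cons (.br (nat_lit 2) (nat_lit 0)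 (.cons (.kr (nat_lit 16777216) (nat_lit 4294967296) (nat_lit 3) (nat_lit 0)) (.cons (.br (nat_lit 6) (nat_lit 0) (.cons (.rf (nat_lit 135) (nat_lit 14242959524133701664)) (.cons (.rf (nat_lit 135) (nat_lit 14242959524101194816)) (.cons (.rf (nat_lit 0) (nat_lit 431235)) .nil)))) (.cons (.rf (nat_lit 0) (nat_lit 431235)) .nil)))) (.cons (.rf (nat_lit 0) (nat_lit 431235)) .nil))))) .nil))))),
 (.br (nat_lit 2) (nat_lit 0) (.cons (.rf (nat_lit 136) (nat_lit 407901468851537952)) (.cons (.rf (nat_lit 136) (nat_lit 407901468850522144)) (.cons (.br (nat_lit 6) (nat_lit 0) (.cons (.rf (nat_lit 136) (nat_lit 407867379696113696)) (.cons (.rf (nat_lit 136) (nat_lit 407867379695097888)) (.cons (.br (nat_lit 7) (nat_lit 0) (.cons (.rf (nat_lit 136) (nat_lit 406742544941161504)) (.cons (.rf (nat_lit 136) (nat_lit 406742544940145696)) (.cons (.rf (nat_lit 0) (nat_lit 398467)) .nil)))) (.cons (.rf (nat_lit 0) (nat_lit 398467)) .nil))))) (.cons (.rf (nat_lit 0) (nat_lit 398467)) .nil))))),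
 (.br (nat_lit 8) (nat_lit 0) (.cons (.rf (nat_lit 125) (nat_lit 11584701642934304)) (.cons (.rf (nat_lit 125) (nat_lit 11584701641918496)) (.cons (.rf (nat_lit 133) (nat_lit 11584701642934304)) (.cons (.rf (nat_lit 0) (nat_lit 365699)) (.cons (.br (nat_lit 9) (nat_lit 0) (.cons (.rf (nat_lit 125) (nat_lit 11550612487510048)) (.cons (.rf (nat_lit 125) (nat_lit 11550612486494240)) (.cons (.rf (nat_lit 133) (nat_lit 11550612487510048)) (.cons (.br (nat_lit 10) (nat_lit 0) (.cons (.rf (nat_lit 125) (nat_lit 10425777732557856)) (.cons (.rf (nat_lit 125) (nat_lit 10425777731542048)) (.cons (.rf (nat_lit 133) (nat_lit 10425777732557856)) (.cons (.br (nat_lit 2) (nat_lit 0) (.cons (.rf (nat_lit 136) (nat_lit 407901468851537952)) (.cons (.rf (nat_lit 136) (nat_lit 407901468850522144)) (.cons (.rf (nat_lit 137) (nat_lit 407901468851537952)) (.cons (.br (nat_lit 6) (nat_lit 0) (.cons (.rf (nat_lit 136) (nat_lit 407867379696113696)) (.cons (.rf (nat_lit 136) (nat_lit 407867379695097888))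 (.cons (.rf (nat_lit 137) (nat_lit 407867379696113696)) (.cons (.rf (nat_lit 0) (nat_lit 398467)) .nil))))) (.cons (.rf (nat_lit 0) (nat_lit 398467)) .nil)))))) (.cons (.rf (nat_lit 0) (nat_lit 398467)) .nil)))))) (.cons (.rf (nat_lit 0) (nat_lit 398467)) .nil)))))) .nil)))))),
 (.br (nat_lit 7) (nat_lit 0) (.cons (.rf (nat_lit 0) (nat_lit 365699)) (.cons (.br (nat_lit 7) (nat_lit 0) (.cons (.rf (nat_lit 0) (nat_lit 398467)) .nil)) .nil))),
 (.br (nat_lit 6) (nat_lit 0) (.cons (.rf (nat_lit 139) (nat_lit 11584701642934304)) (.cons (.rf (nat_lit 0) (nat_lit 365699)) (.cons (.br (nat_lit 6) (nat_lit 0) (.cons (.rf (nat_lit 139) (nat_lit 11584701642934304)) (.cons (.rf (nat_lit 0) (nat_lit 398467)) .nil))) .nil)))),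
 (.br (nat_lit 7) (nat_lit 0) (.cons (.rf (nat_lit 0) (nat_lit 365699)) (.cons (.br (nat_lit 7) (nat_lit 0) (.cons (.rf (nat_lit 0) (nat_lit 398467)) .nil)) .nil))),
 (.br (nat_lit 2) (nat_lit 0) (.cons (.rf (nat_lit 112) (nat_lit 292785879123008)) (.cons (.br (nat_lit 5) (nat_lit 1) (.cons (.rf (nat_lit 141) (nat_lit 11584701642934304)) (.cons (.rf (nat_lit 141) (nat_lit 11584668356937760)) (.cons (.rf (nat_lit 140) (nat_lit 13871685796202528)) .nil)))) (.cons (.rf (nat_lit 0) (nat_lit 398467)) .nil)))),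
 (.br (nat_lit 2) (nat_lit 0) (.cons (.rf (nat_lit 142) (nat_lit 407867383990060096)) (.cons (.rf (nat_lit 142) (nat_lit 406742583561323584)) (.cons (.rf (nat_lit 0) (nat_lit 398467)) .nil)))),
 (.br (nat_lit 2) (nat_lit 0) (.cons (.rf (nat_lit 143) (nat_lit 407867383990060096)) (.cons (.rf (nat_lit 143) (nat_lit 406742583561323584)) (.cons (.rf (nat_lit 143) (nat_lit 407901468851537952)) (.cons (.rf (nat_lit 0) (nat_lit 398467)) .nil))))),
 (.br (nat_lit 6) (nat_lit 0) (.cons (.rf (nat_lit 0) (nat_lit 398467)) .nil)),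
 (.br (nat_lit 12) (nat_lit 0) (.cons (.rf (nat_lit 141) (nat_lit 13836501456619552)) (.cons (.rf (nat_lit 145) (nat_lit 445092484020799520)) (.cons (.rf (nat_lit 0) (nat_lit 431235)) .nil)))),
 (.br (nat_lit 2) (nat_lit 0) (.cons (.rf (nat_lit 119) (nat_lit 291617648018496)) (.cons (.br (nat_lit 5) (nat_lit 1) (.cons (.br (nat_lit 1) (nat_lit 1) (.cons (.rf (nat_lit 111) (nat_lit 9038896202944)) (.cons (.rf (nat_lit 111) (nat_lit 10142736319552)) (.cons (.rf (nat_lit 111) (nat_lit 11208961950784)) (.cons (.rf (nat_lit 146) (nat_lit 14242959524133701664)) .nil))))) (.cons (.br (nat_lit 1) (nat_lit 1) (.cons (.rf (nat_lit 111) (nat_lit 9004536464608)) (.cons (.rf (nat_lit 111) (nat_lit 10142736319552)) (.cons (.rf (nat_lit 111) (nat_lit 11208961950784)) (.cons (.rf (nat_lit 146) (nat_lit 14242959490847705120)) .nil))))) (.cons (.rf (nat_lit 143) (nat_lit 410153268665223200)) .nil)))) (.cons (.rf (nat_lit 0) (nat_lit 398467)) .nil)))),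
 (.br (nat_lit 4) (nat_lit 1) (.cons (.rf (nat_lit 111) (nat_lit 9038929724608)) (.cons (.rf (nat_lit 111) (nat_lit 9004569986272)) (.cons (.rf (nat_lit 140) (nat_lit 12710601549776928)) .nil)))),
 (.br (nat_lit 6) (nat_lit 0) (.cons (.rf (nat_lit 119) (nat_lit 291613353051328)) (.cons (.rf (nat_lit 0) (nat_lit 431235)) .nil))),
 (.br (nat_lit 12) (nat_lit 0) (.cons (.rf (nat_lit 140) (nat_lit 13836501456619552)) (.cons (.rf (nat_lit 143) (nat_lit 410153268665223200)) (.cons (.br (nat_lit 6) (nat_lit 0) (.cons (.rf (nat_lit 149) (nat_lit 14242959524133701664)) (.cons (.br (nat_lit 7) (nat_lit 0) (.cons (.rf (nat_lit 149) (nat_lit 14242959490847705120)) (.cons (.rf (nat_lit 0) (nat_lit 431235)) .nil))) (.cons (.rf (nat_lit 0) (nat_lit 431235)) .nil)))) (.cons (.rf (nat_lit 0) (nat_lit 431235)) .nil))))),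
 (.br (nat_lit 2) (nat_lit 0) (.cons (.rf (nat_lit 119) (nat_lit 291617648018496)) (.cons (.br (nat_lit 1) (nat_lit 1) (.cons (.rf (nat_lit 148) (nat_lit 12710601549776928)) (.cons (.rf (nat_lit 111) (nat_lit 10142702797888)) (.cons (.rf (nat_lit 111) (nat_lit 11208928429120)) (.cons (.rf (nat_lit 150) (nat_lit 14242959524133701664)) .nil))))) (.cons (.rf (nat_lit 0) (nat_lit 398467)) .nil)))),
 (.br (nat_lit 10) (nat_lit 0) (.cons (.br (nat_lit 2) (nat_lit 0) (.cons (.rf (nat_lit 140) (nat_lit 11584701642934304)) (.cons (.br (nat_lit 2) (nat_lit 0) (.cons (.rf (nat_lit 140) (nat_lit 11584701642934304)) (.cons (.rf (nat_lit 0) (nat_lit 398467)) .nil))) (.cons (.rf (nat_lit 0) (nat_lit 398467)) .nil)))) (.cons (.rf (nat_lit 144) (nat_lit 407901468851537952)) (.cons (.br (nat_lit 2) (nat_lit 0) (.cons (.rf (nat_lit 147) (nat_lit 407901468851537952)) (.cons (.rf (nat_lit 151) (nat_lit 407901468851537952)) (.cons (.br (nat_lit 2) (nat_lit 0) (.cons (.rf (nat_lit 147) (nat_lit 407901468851537952))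 (.cons (.rf (nat_lit 151) (nat_lit 407901468851537952)) (.cons (.rf (nat_lit 0) (nat_lit 398467)) .nil)))) (.cons (.rf (nat_lit 0) (nat_lit 398467)) .nil))))) (.cons (.rf (nat_lit 0) (nat_lit 398467)) .nil))))),
 (.br (nat_lit 1) (nat_lit 1) (.cons (.br (nat_lit 5) (nat_lit 1) (.cons (.rf (nat_lit 138) (nat_lit 11584701576905792)) (.cons (.rf (nat_lit 111) (nat_lit 9038896202944)) (.cons (.rf (nat_lit 111) (nat_lit 9004536464608)) (.cons (.br (nat_lit 2) (nat_lit 0) (.cons (.rf (nat_lit 119) (nat_lit 294916181886016)) (.cons (.rf (nat_lit 148) (nat_lit 12816154633537568)) (.cons (.rf (nat_lit 0) (nat_lit 431235)) .nil)))) .nil))))) (.cons (.rf (nat_lit 111) (nat_lit 10142736319552)) (.cons (.rf (nat_lit 111) (nat_lit 11208961950784)) (.cons (.br (nat_lit 2) (nat_lit 0) (.cons (.rf (nat_lit 138) (nat_lit 11589099623416896)) (.cons (.br (nat_lit 12) (nat_lit 0) (.cons (.br (nat_lit 5) (nat_lit 1) (.cons (.rf (nat_lit 145) (nat_lit 373003004145666080)) (.cons (.rf (nat_lit 145)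 (nat_lit 373003005219407904)) .nil))) (.cons (.rf (nat_lit 150) (nat_lit 11936096168096925728)) (.cons (.rf (nat_lit 0) (nat_lit 431235)) .nil)))) (.cons (.rf (nat_lit 0) (nat_lit 431235)) .nil)))) .nil))))),
 (.br (nat_lit 9) (nat_lit 0) (.cons (.rf (nat_lit 152) (nat_lit 407901468851537952)) (.cons (.rf (nat_lit 152) (nat_lit 407901468819032096)) (.cons (.br (nat_lit 10) (nat_lit 0) (.cons (.rf (nat_lit 152) (nat_lit 406810720030787616)) (.cons (.rf (nat_lit 152) (nat_lit 406810719998281760)) (.cons (.br (nat_lit 2) (nat_lit 0) (.cons (.rf (nat_lit 153) (nat_lit 407901468851537952)) (.cons (.rf (nat_lit 153) (nat_lit 407901468819032096)) (.cons (.br (nat_lit 2) (nat_lit 0) (.cons (.rf (nat_lit 153) (nat_lit 407901468851537952)) (.cons (.rf (nat_lit 153) (nat_lit 407901468819032096)) (.cons (.rf (nat_lit 0) (nat_lit 398467)) .nil)))) (.cons (.rf (nat_lit 0) (nat_lit 398467)) .nil))))) (.cons (.rf (nat_lit 0) (nat_lit 398467)) .nil))))) (.cons (.rf (nat_lit 0) (nat_lit 398467))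 .nil))))),
 (.br (nat_lit 6) (nat_lit 0) (.cons (.rf (nat_lit 0) (nat_lit 365699)) (.cons (.br (nat_lit 6) (nat_lit 0) (.cons (.rf (nat_lit 0) (nat_lit 398467)) .nil)) .nil))),
 (.br (nat_lit 5) (nat_lit 1) (.cons (.rf (nat_lit 119) (nat_lit 292717191137312)) (.cons (.rf (nat_lit 140) (nat_lit 10425816320214080)) (.cons (.rf (nat_lit 140) (nat_lit 10425812025246912)) (.cons (.rf (nat_lit 140) (nat_lit 10425777665508576)) (.cons (.br (nat_lit 2) (nat_lit 0) (.cons (.rf (nat_lit 155) (nat_lit 12746919793231904)) (.cons (.rf (nat_lit 0) (nat_lit 398467)) (.cons (.br (nat_lit 2) (nat_lit 0) (.cons (.rf (nat_lit 155) (nat_lit 12746919793231904)) (.cons (.rf (nat_lit 0) (nat_lit 431235)) .nil))) .nil)))) .nil)))))),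
 (.br (nat_lit 6) (nat_lit 0) (.cons (.rf (nat_lit 0) (nat_lit 398467)) .nil)),
 (.br (nat_lit 12) (nat_lit 0) (.cons (.rf (nat_lit 139) (nat_lit 10428011048502464)) (.cons (.rf (nat_lit 157) (nat_lit 445092484020799520)) (.cons (.rf (nat_lit 0) (nat_lit 431235)) .nil)))),
 (.br (nat_lit 2) (nat_lit 0) (.cons (.rf (nat_lit 128) (nat_lit 325702542001216)) (.cons (.br (nat_lit 5) (nat_lit 1) (.cons (.br (nat_lit 1) (nat_lit 1) (.cons (.rf (nat_lit 111) (nat_lit 9038896202944)) (.cons (.rf (nat_lit 111) (nat_lit 10142737335360)) (.cons (.rf (nat_lit 111) (nat_lit 11208962966592)) (.cons (.rf (nat_lit 158) (nat_lit 14242959524133701664)) .nil))))) (.cons (.br (nat_lit 1) (nat_lit 1) (.cons (.rf (nat_lit 111) (nat_lit 9004536464608)) (.cons (.rf (nat_lit 111) (nat_lit 10142737335360)) (.cons (.rf (nat_lit 111) (nat_lit 11208962966592)) (.cons (.rf (nat_lit 158) (nat_lit 14242959490847705120)) .nil))))) (.cons (.rf (nat_lit 156) (nat_lit 13836501456619552)) .nil)))) (.cons (.rf (nat_lit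 0) (nat_lit 398467)) .nil)))),
 (.br (nat_lit 2) (nat_lit 0) (.cons (.rf (nat_lit 128) (nat_lit 325702542001216)) (.cons (.br (nat_lit 3) (nat_lit 1) (.cons (.rf (nat_lit 159) (nat_lit 407867379696113696)) (.cons (.br (nat_lit 1) (nat_lit 1) (.cons (.rf (nat_lit 111) (nat_lit 9004571002080)) (.cons (.rf (nat_lit 111) (nat_lit 10142702797888)) (.cons (.rf (nat_lit 111) (nat_lit 11208928429120)) (.cons (.br (nat_lit 7) (nat_lit 0) (.cons (.rf (nat_lit 126) (nat_lit 325663887295712)) (.cons (.rf (nat_lit 158) (nat_lit 14242959485479001120)) (.cons (.rf (nat_lit 0) (nat_lit 431235)) .nil)))) .nil))))) (.cons (.rf (nat_lit 140) (nat_lit 10428015410513952)) .nil)))) (.cons (.rf (nat_lit 0) (nat_lit 398467)) .nil)))),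
 (.br (nat_lit 10) (nat_lit 0) (.cons (.rf (nat_lit 154) (nat_lit 406742544941161504)) (.cons (.rf (nat_lit 156) (nat_lit 11584701642934304)) (.cons (.br (nat_lit 2) (nat_lit 0) (.cons (.rf (nat_lit 159) (nat_lit 407901468851537952)) (.cons (.rf (nat_lit 160) (nat_lit 407901468851537952)) (.cons (.br (nat_lit 2) (nat_lit 0) (.cons (.rf (nat_lit 159) (nat_lit 407901468851537952)) (.cons (.rf (nat_lit 160) (nat_lit 407901468851537952)) (.cons (.rf (nat_lit 0) (nat_lit 398467)) .nil)))) (.cons (.rf (nat_lit 0) (nat_lit 398467)) .nil))))) (.cons (.rf (nat_lit 0) (nat_lit 398467)) .nil))))),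
 (.br (nat_lit 6) (nat_lit 0) (.cons (.rf (nat_lit 138) (nat_lit 10426911603918016)) (.cons (.rf (nat_lit 138) (nat_lit 10426911537890496)) (.cons (.rf (nat_lit 0) (nat_lit 398467)) .nil)))),
 (.br (nat_lit 6) (nat_lit 0) (.cons (.rf (nat_lit 162) (nat_lit 407901468850522144)) (.cons (.rf (nat_lit 162) (nat_lit 407901468851537952)) (.cons (.rf (nat_lit 162) (nat_lit 407901468819032096)) (.cons (.rf (nat_lit 0) (nat_lit 398467)) .nil))))),
 (.br (nat_lit 2) (nat_lit 0) (.cons (.rf (nat_lit 118) (nat_lit 325702573491264)) (.cons (.rf (nat_lit 118) (nat_lit 291617679508544)) (.cons (.br (nat_lit 1) (nat_lit 1) (.cons (.br (nat_lit 4) (nat_lit 1) (.cons (.rf (nat_lit 111) (nat_lit 9038929724608)) (.cons (.rf (nat_lit 111) (nat_lit 9004569986272)) (.cons (.rf (nat_lit 156) (nat_lit 10564354852358176)) .nil)))) (.cons (.rf (nat_lit 111) (nat_lit 10142737335360)) (.cons (.rf (nat_lit 111) (nat_lit 11208962966592)) (.cons (.br (nat_lit 12) (nat_lit 0) (.cons (.rf (nat_lit 156) (nat_lit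 10564354852358176)) (.cons (.rf (nat_lit 156) (nat_lit 9439554424637472)) (.cons (.rf (nat_lit 163) (nat_lit 445091350149433376)) (.cons (.rf (nat_lit 0) (nat_lit 431235)) .nil))))) .nil))))) (.cons (.rf (nat_lit 0) (nat_lit 398467)) .nil)))))]

theorem c3 : chkAll C T R L3 (nat_lit 124) = true := by decide +kernel

theorem l3 : (nat_lit 124) + L3.length = (nat_lit 165) := by decide +kernel

/-- part of the certificates -/
def L4 : List Prf := [(.br (nat_lit 2) (nat_lit 0) (.cons (.rf (nat_lit 138) (nat_lit 10426915898885184)) (.cons (.rf (nat_lit 138) (nat_lit 10426915832857664)) (.cons (.rf (nat_lit 0) (nat_lit 398467)) .nil)))),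
 (.br (nat_lit 10) (nat_lit 0) (.cons (.rf (nat_lit 144) (nat_lit 406742583595862048)) (.cons (.rf (nat_lit 156) (nat_lit 10493986108180512)) (.cons (.rf (nat_lit 156) (nat_lit 9369185680459808)) (.cons (.br (nat_lit 3) (nat_lit 1) (.cons (.rf (nat_lit 164) (nat_lit 407901468851537952)) (.cons (.rf (nat_lit 164) (nat_lit 407867379663607840)) (.cons (.br (nat_lit 7) (nat_lit 0) (.cons (.rf (nat_lit 118) (nat_lit 325663918785760)) (.cons (.rf (nat_lit 118) (nat_lit 291579024803040)) (.cons (.br (nat_lit 1) (nat_lit 1) (.cons (.rf (nat_lit 111) (nat_lit 9004571002080)) (.cons (.rf (nat_lit 111) (nat_lit 9970938643680)) (.cons (.br (nat_lit 4) (nat_lit 1) (.cons (.rf (nat_lit 111) (nat_lit 11208961950784)) (.cons (.rf (nat_lit 111) (nat_lit 11071522997440)) (.cons (.rf (nat_lit 156) (nat_lit 10564354852358176)) .nil)))) (.cons (.br (nat_lit 12) (nat_lit 0) (.cons (.rf (nat_lit 156) (nat_lit 10564354852358176)) (.cons (.rf (nat_lit 156) (nat_lit 9439554424637472)) (.cons (.br (nat_lit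 2) (nat_lit 0) (.cons (.rf (nat_lit 165) (nat_lit 445092449661061152)) (.cons (.rf (nat_lit 165) (nat_lit 445092449628555296)) (.cons (.rf (nat_lit 0) (nat_lit 431235)) .nil)))) (.cons (.rf (nat_lit 0) (nat_lit 431235)) .nil))))) .nil))))) (.cons (.rf (nat_lit 0) (nat_lit 398467)) .nil))))) (.cons (.rf (nat_lit 144) (nat_lit 406744782619117600)) .nil))))) (.cons (.rf (nat_lit 0) (nat_lit 398467)) .nil)))))),
 (.br (nat_lit 6) (nat_lit 0) (.cons (.rf (nat_lit 138) (nat_lit 11553911022388416)) (.cons (.rf (nat_lit 138) (nat_lit 11553910956360896)) (.cons (.rf (nat_lit 0) (nat_lit 431235)) .nil)))),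
 (.br (nat_lit 1) (nat_lit 1) (.cons (.br (nat_lit 6) (nat_lit 0) (.cons (.rf (nat_lit 111) (nat_lit 9038930740416)) (.cons (.rf (nat_lit 111) (nat_lit 9038929724608)) (.cons (.rf (nat_lit 111) (nat_lit 9038896202944)) (.cons (.rf (nat_lit 163) (nat_lit 337004954797573312)) (.cons (.rf (nat_lit 0) (nat_lit 398467)) .nil)))))) (.cons (.rf (nat_lit 111) (nat_lit 10142737335360)) (.cons (.rf (nat_lit 111) (nat_lit 11208962966592)) (.cons (.br (nat_lit 2) (nat_lit 0) (.cons (.rf (nat_lit 138) (nat_lit 11589099689444416)) (.cons (.rf (nat_lit 138) (nat_lit 11589099656938560)) (.cons (.br (nat_lit 6) (nat_lit 0) (.cons (.rf (nat_lit 167) (nat_lit 14242959524132685856)) (.cons (.rf (nat_lit 167) (nat_lit 14242959524133701664)) (.cons (.rf (nat_lit 167) (nat_lit 14242959524101195808)) (.cons (.rf (nat_lit 0) (nat_lit 431235)) .nil))))) (.cons (.rf (nat_lit 0) (nat_lit 431235)) .nil))))) .nil))))),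
 (.br (nat_lit 2) (nat_lit 0) (.cons (.rf (nat_lit 168) (nat_lit 407901468851537952)) (.cons (.rf (nat_lit 168) (nat_lit 407901468850522144)) (.cons (.rf (nat_lit 168) (nat_lit 407901468817000480)) (.cons (.br (nat_lit 1) (nat_lit 1) (.cons (.rf (nat_lit 168) (nat_lit 407901468851536960)) (.cons (.rf (nat_lit 163) (nat_lit 337004959092541472)) (.cons (.rf (nat_lit 163) (nat_lit 372998538453420064)) (.cons (.rf (nat_lit 168) (nat_lit 407905866898048064)) .nil))))) (.cons (.rf (nat_lit 0) (nat_lit 398467)) .nil)))))),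
 (.br (nat_lit 9) (nat_lit 0) (.cons (.rf (nat_lit 154) (nat_lit 407867379696113696)) (.cons (.rf (nat_lit 161) (nat_lit 407901468851537952)) (.cons (.rf (nat_lit 166) (nat_lit 407901468851537952)) (.cons (.br (nat_lit 10) (nat_lit 0) (.cons (.rf (nat_lit 154) (nat_lit 406742544941161504)) (.cons (.rf (nat_lit 161) (nat_lit 406810720030787616)) (.cons (.rf (nat_lit 166) (nat_lit 406810720030787616)) (.cons (.rf (nat_lit 169) (nat_lit 407901468851537952)) (.cons (.rf (nat_lit 0) (nat_lit 398467)) .nil)))))) (.cons (.rf (nat_lit 0) (nat_lit 398467)) .nil)))))),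
 (.br (nat_lit 2) (nat_lit 1) (.cons (.rf (nat_lit 57) (nat_lit 242837718208)) (.cons (.rf (nat_lit 57) (nat_lit 247132686368)) (.cons (.rf (nat_lit 57) (nat_lit 213846689824)) (.cons (.br (nat_lit 6) (nat_lit 1) (.cons (.rf (nat_lit 57) (nat_lit 247132685376)) (.cons (.rf (nat_lit 57) (nat_lit 76407740448)) (.cons (.rf (nat_lit 111) (nat_lit 9043225708576)) (.cons (.br (nat_lit 7) (nat_lit 1) (.cons (.rf (nat_lit 57) (nat_lit 213846688832)) (.cons (.rf (nat_lit 111) (nat_lit 9009939712032)) (.cons (.rf (nat_lit 111) (nat_lit 9972012390432)) (.cons (.br (nat_lit 1) (nat_lit 0) (.cons (.rf (nat_lit 138) (nat_lit 11584701642934304)) (.cons (.rf (nat_lit 138) (nat_lit 11584701610428448)) (.cons (.rf (nat_lit 0) (nat_lit 365699)) (.cons (.br (nat_lit 8) (nat_lit 0) (.cons (.rf (nat_lit 154) (nat_lit 407901468851537952)) (.cons (.rf (nat_lit 170) (nat_lit 407901468851537952)) (.cons (.rf (nat_lit 170) (nat_lit 407901468819032096)) (.cons (.br (nat_lit 9) (nat_lit 0) (.cons (.rf (nat_lit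 154) (nat_lit 407867379696113696)) (.cons (.rf (nat_lit 170) (nat_lit 407867379696113696)) (.cons (.rf (nat_lit 170) (nat_lit 407867379663607840)) (.cons (.rf (nat_lit 169) (nat_lit 406742544941161504)) (.cons (.rf (nat_lit 0) (nat_lit 398467)) .nil)))))) (.cons (.rf (nat_lit 0) (nat_lit 398467)) .nil)))))) .nil))))) .nil))))) .nil))))) .nil))))),
 (.br (nat_lit 9) (nat_lit 0) (.cons (.rf (nat_lit 0) (nat_lit 332931)) .nil)),
 (.br (nat_lit 8) (nat_lit 0) (.cons (.rf (nat_lit 0) (nat_lit 300163)) (.cons (.br (nat_lit 9) (nat_lit 1) (.cons (.rf (nat_lit 172) (nat_lit 361986458224672)) (.cons (.br (nat_lit 9) (nat_lit 1) (.cons (.rf (nat_lit 172) (nat_lit 397170830313504)) (.cons (.br (nat_lit 9) (nat_lit 1) (.cons (.rf (nat_lit 172) (nat_lit 432355202402336)) .nil)) .nil))) .nil))) .nil))),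
 (.br (nat_lit 8) (nat_lit 0) (.cons (.rf (nat_lit 0) (nat_lit 300163)) (.cons (.rf (nat_lit 172) (nat_lit 291617714047008)) .nil))),
 (.br (nat_lit 2) (nat_lit 1) (.cons (.ev (nat_lit 281479288520961) (nat_lit 1)) (.cons (.br (nat_lit 6) (nat_lit 1) (.cons (.ev (nat_lit 281474976776449) (nat_lit 1)) (.cons (.rf (nat_lit 29) (nat_lit 7406854)) (.cons (.rf (nat_lit 173) (nat_lit 9043225708576)) .nil)))) (.cons (.rf (nat_lit 174) (nat_lit 9043225708576)) (.cons (.rf (nat_lit 173) (nat_lit 9043225708576)) .nil))))),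
 (.br (nat_lit 9) (nat_lit 0) (.cons (.kr (nat_lit 16777216) (nat_lit 1099511627776) (nat_lit 3) (nat_lit 0)) (.cons (.rf (nat_lit 0) (nat_lit 332931)) .nil))),
 (.br (nat_lit 9) (nat_lit 0) (.cons (.rf (nat_lit 176) (nat_lit 325702507464736)) (.cons (.rf (nat_lit 176) (nat_lit 325702574508064)) (.cons (.rf (nat_lit 0) (nat_lit 332931)) .nil)))),
 (.br (nat_lit 6) (nat_lit 0) (.cons (.br (nat_lit 7) (nat_lit 1) (.cons (.rf (nat_lit 175) (nat_lit 247132686368)) (.cons (.rf (nat_lit 175) (nat_lit 247100179520)) (.cons (.rf (nat_lit 175) (nat_lit 242771690688)) (.cons (.rf (nat_lit 174) (nat_lit 9043225708576)) (.cons (.rf (nat_lit 173) (nat_lit 9043225708576)) .nil)))))) (.cons (.rf (nat_lit 0) (nat_lit 267395)) (.cons (.br (nat_lit 8) (nat_lit 1) (.cons (.rf (nat_lit 177) (nat_lit 325702574508064)) (.cons (.br (nat_lit 8) (nat_lit 1) (.cons (.rf (nat_lit 177) (nat_lit 360886946596896)) (.cons (.br (nat_lit 8) (nat_lit 1) (.cons (.rf (nat_lit 177) (nat_lit 396071318685728)) (.cons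 (.br (nat_lit 5) (nat_lit 1) (.cons (.br (nat_lit 12) (nat_lit 0) (.cons (.rf (nat_lit 0) (nat_lit 431235)) .nil)) .nil)) .nil))) .nil))) .nil))) .nil)))),
 (.br (nat_lit 6) (nat_lit 0) (.cons (.rf (nat_lit 178) (nat_lit 247132686368)) (.cons (.rf (nat_lit 178) (nat_lit 247100179520)) (.cons (.rf (nat_lit 0) (nat_lit 267395)) (.cons (.br (nat_lit 6) (nat_lit 0) (.cons (.rf (nat_lit 178) (nat_lit 247132686368)) (.cons (.rf (nat_lit 178) (nat_lit 247100179520)) (.cons (.rf (nat_lit 0) (nat_lit 300163)) .nil)))) .nil))))),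
 (.br (nat_lit 8) (nat_lit 0) (.cons (.rf (nat_lit 0) (nat_lit 300163)) (.cons (.br (nat_lit 8) (nat_lit 0) (.cons (.rf (nat_lit 0) (nat_lit 332931)) .nil)) .nil))),
 (.br (nat_lit 6) (nat_lit 0) (.cons (.rf (nat_lit 179) (nat_lit 242836707360)) (.cons (.br (nat_lit 5) (nat_lit 1) (.cons (.rf (nat_lit 180) (nat_lit 10142737336352)) (.cons (.br (nat_lit 5) (nat_lit 1) (.cons (.rf (nat_lit 180) (nat_lit 11242248964128)) (.cons (.br (nat_lit 8) (nat_lit 1) (.cons (.rf (nat_lit 126) (nat_lit 362123897178152)) (.cons (.br (nat_lit 8) (nat_lit 1) (.cons (.rf (nat_lit 126) (nat_lit 362158256916520)) .nil)) .nil))) .nil))) .nil))) (.cons (.rf (nat_lit 0) (nat_lit 300163)) .nil)))),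
 (.br (nat_lit 11) (nat_lit 0) (.cons (.rf (nat_lit 0) (nat_lit 398467)) .nil)),
 (.br (nat_lit 6) (nat_lit 1) (.cons (.br (nat_lit 7) (nat_lit 1) (.cons (.kr (nat_lit 4294967297) (nat_lit 72057594054705152) (nat_lit 0) (nat_lit 1)) (.cons (.ev (nat_lit 18519083147019157761) (nat_lit 1)) (.cons (.rf (nat_lit 182) (nat_lit 407901468851537952)) .nil)))) (.cons (.kr (nat_lit 4722366482873940246529) (nat_lit 18447025548703039744) (nat_lit 0) (nat_lit 5)) (.cons (.br (nat_lit 10) (nat_lit 1) (.cons (.ev (nat_lit 1208925819896104168194304) (nat_lit 1)) (.cons (.kr (nat_lit 18446744073709551616) (nat_lit 1208925819614629174706176) (nat_lit 8) (nat_lit 0)) (.cons (.rf (nat_lit 182) (nat_lit 407901468851537952)) .nil)))) (.cons (.rf (nat_lit 182) (nat_lit 407901468851537952)) .nil))))),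
 (.br (nat_lit 10) (nat_lit 1) (.cons (.rf (nat_lit 183) (nat_lit 11584701642934304)) (.cons (.br (nat_lit 10) (nat_lit 1) (.cons (.ev (nat_lit 1208925819896104168194304) (nat_lit 1)) (.cons (.ev (nat_lit 1208925819896108446384384) (nat_lit 1)) (.cons (.rf (nat_lit 182) (nat_lit 407901468851537952)) .nil)))) (.cons (.br (nat_lit 10) (nat_lit 1) (.cons (.kr (nat_lit 18446744073709551616) (nat_lit 1208925819614629174706176) (nat_lit 8) (nat_lit 0)) (.cons (.ev (nat_lit 1208925819896108446384384) (nat_lit 1)) (.cons (.rf (nat_lit 182) (nat_lit 407901468851537952)) .nil)))) (.cons (.rf (nat_lit 182) (nat_lit 407901468851537952)) .nil))))),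
 (.br (nat_lit 10) (nat_lit 1) (.cons (.rf (nat_lit 183) (nat_lit 11584701642934304)) (.cons (.rf (nat_lit 184) (nat_lit 11584701642934304)) (.cons (.br (nat_lit 2) (nat_lit 1) (.cons (.kr (nat_lit 4722366482869645279233) (nat_lit 18447025548686262528) (nat_lit 0) (nat_lit 3)) (.cons (.ev (nat_lit 4722438540467978174464) (nat_lit 1)) (.cons (.ev (nat_lit 1213666632841576824504321) (nat_lit 1)) (.cons (.rf (nat_lit 182) (nat_lit 407901468851537952)) .nil))))) (.cons (.rf (nat_lit 182) (nat_lit 407901468851537952)) .nil))))),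
 (.br (nat_lit 10) (nat_lit 1) (.cons (.rf (nat_lit 183) (nat_lit 11584701642934304)) (.cons (.rf (nat_lit 184) (nat_lit 11584701642934304)) (.cons (.rf (nat_lit 185) (nat_lit 11584701642934304)) (.cons (.br (nat_lit 7) (nat_lit 1) (.cons (.rf (nat_lit 184) (nat_lit 7916829569882408)) (.cons (.rf (nat_lit 183) (nat_lit 7916829569882408)) (.cons (.rf (nat_lit 185) (nat_lit 11584701642934304)) (.cons (.rf (nat_lit 182) (nat_lit 407901468851537952)) .nil))))) (.cons (.rf (nat_lit 182) (nat_lit 407901468851537952)) .nil)))))),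
 (.br (nat_lit 9) (nat_lit 1) (.cons (.ev (nat_lit 4722366483969156907009) (nat_lit 1)) (.cons (.ev (nat_lit 4722366482873940246529) (nat_lit 1)) (.cons (.br (nat_lit 1) (nat_lit 1) (.cons (.rf (nat_lit 29) (nat_lit 7637185)) (.cons (.rf (nat_lit 58) (nat_lit 7637030)) (.cons (.br (nat_lit 6) (nat_lit 1) (.cons (.rf (nat_lit 58) (nat_lit 7641153)) (.cons (.br (nat_lit 7) (nat_lit 1) (.cons (.ev (nat_lit 18519084246547562753) (nat_lit 1)) (.cons (.rf (nat_lit 82) (nat_lit 12154250305)) .nil))) (.cons (.rf (nat_lit 182) (nat_lit 407901468851537952)) .nil)))) (.cons (.rf (nat_lit 182) (nat_lit 407901468851537952)) .nil))))) (.cons (.rf (nat_lit 186) (nat_lit 7916829569882408)) (.cons (.rf (nat_lit 182) (nat_lit 407901468851537952)) .nil)))))),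
 (.br (nat_lit 2) (nat_lit 1) (.cons (.ev (nat_lit 4722366483969156907009) (nat_lit 1)) (.cons (.rf (nat_lit 58) (nat_lit 7641153)) (.cons (.br (nat_lit 7) (nat_lit 1) (.cons (.kr (nat_lit 4294967297) (nat_lit 72057594054705152) (nat_lit 0) (nat_lit 1)) (.cons (.ev (nat_lit 4722438541567506579456) (nat_lit 1)) (.cons (.rf (nat_lit 182) (nat_lit 407901468851537952)) .nil)))) (.cons (.rf (nat_lit 182) (nat_lit 407901468851537952)) .nil))))),
 (.br (nat_lit 7) (nat_lit 1) (.cons (.rf (nat_lit 186) (nat_lit 11584701642934304)) (.cons (.rf (nat_lit 187) (nat_lit 11584701642934304)) (.cons (.rf (nat_lit 188) (nat_lit 11584701642934304)) (.cons (.br (nat_lit 7) (nat_lit 1) (.cons (.ev (nat_lit 18519083147019157761) (nat_lit 1)) (.cons (.rf (nat_lit 187) (nat_lit 11584701642934304)) (.cons (.rf (nat_lit 188) (nat_lit 11584701642934304)) (.cons (.rf (nat_lit 182) (nat_lit 407901468851537952)) .nil))))) (.cons (.rf (nat_lit 182) (nat_lit 407901468851537952)) .nil)))))),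
 (.br (nat_lit 2) (nat_lit 1) (.cons (.ev (nat_lit 4722366483969156907009) (nat_lit 1)) (.cons (.ev (nat_lit 4722366482873940246529) (nat_lit 1)) (.cons (.rf (nat_lit 187) (nat_lit 11584701642934304)) (.cons (.rf (nat_lit 189) (nat_lit 7916829569882408)) (.cons (.rf (nat_lit 182) (nat_lit 407901468851537952)) .nil)))))),
 (.br (nat_lit 9) (nat_lit 0) (.cons (.br (nat_lit 7) (nat_lit 1) (.cons (.rf (nat_lit 186) (nat_lit 11584701642934304)) (.cons (.rf (nat_lit 187) (nat_lit 11584701642934304)) (.cons (.rf (nat_lit 189) (nat_lit 11584701642934304)) (.cons (.rf (nat_lit 190) (nat_lit 11584701642934304)) (.cons (.br (nat_lit 7) (nat_lit 1) (.cons (.rf (nat_lit 186) (nat_lit 11584701642934304)) (.cons (.rf (nat_lit 187) (nat_lit 11584701642934304)) (.cons (.rf (nat_lit 189) (nat_lit 11584701642934304)) (.cons (.rf (nat_lit 190) (nat_lit 11584701642934304)) (.cons (.rf (nat_lit 182) (nat_lit 407901468851537952)) .nil)))))) (.cons (.rf (nat_lit 182) (nat_lit 407901468851537952)) .nil)))))))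 (.cons (.rf (nat_lit 0) (nat_lit 365699)) .nil))),
 (.br (nat_lit 8) (nat_lit 1) (.cons (.br (nat_lit 9) (nat_lit 0) (.cons (.rf (nat_lit 191) (nat_lit 11584701642934304)) (.cons (.br (nat_lit 9) (nat_lit 0) (.cons (.rf (nat_lit 191) (nat_lit 11584701642934304)) (.cons (.rf (nat_lit 0) (nat_lit 365699)) .nil))) (.cons (.rf (nat_lit 0) (nat_lit 365699)) .nil)))) .nil)),
 (.br (nat_lit 11) (nat_lit 0) (.cons (.kr (nat_lit 16777216) (nat_lit 4294967296) (nat_lit 3) (nat_lit 0)) (.cons (.br (nat_lit 11) (nat_lit 0) (.cons (.kr (nat_lit 16777216) (nat_lit 4294967296) (nat_lit 3) (nat_lit 0)) (.cons (.rf (nat_lit 0) (nat_lit 398467)) .nil))) (.cons (.rf (nat_lit 0) (nat_lit 398467)) .nil)))),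
 (.br (nat_lit 6) (nat_lit 0) (.cons (.rf (nat_lit 179) (nat_lit 242836707360)) (.cons (.br (nat_lit 8) (nat_lit 1) (.cons (.rf (nat_lit 192) (nat_lit 325702574508064)) (.cons (.br (nat_lit 8) (nat_lit 1) (.cons (.rf (nat_lit 192) (nat_lit 360886946596896)) (.cons (.br (nat_lit 4) (nat_lit 1) (.cons (.rf (nat_lit 193) (nat_lit 407901468851537952)) (.cons (.br (nat_lit 5) (nat_lit 1) (.cons (.br (nat_lit 12) (nat_lit 0) (.cons (.rf (nat_lit 0) (nat_lit 431235)) .nil)) .nil)) .nil))) .nil))) .nil))) (.cons (.rf (nat_lit 0) (nat_lit 300163)) .nil)))),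
 (.br (nat_lit 2) (nat_lit 0) (.cons (.kr (nat_lit 16777216) (nat_lit 4294967296) (nat_lit 3) (nat_lit 0)) (.cons (.rf (nat_lit 179) (nat_lit 247132686368)) (.cons (.rf (nat_lit 0) (nat_lit 267395)) (.cons (.br (nat_lit 6) (nat_lit 0) (.cons (.rf (nat_lit 181) (nat_lit 9043225708576)) (.cons (.rf (nat_lit 194) (nat_lit 9043225708576)) (.cons (.br (nat_lit 6) (nat_lit 0) (.cons (.rf (nat_lit 181) (nat_lit 9043225708576)) (.cons (.rf (nat_lit 194) (nat_lit 9043225708576)) (.cons (.rf (nat_lit 0) (nat_lit 300163)) .nil)))) (.cons (.rf (nat_lit 0) (nat_lit 300163)) .nil))))) .nil))))),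
 (.br (nat_lit 6) (nat_lit 0) (.cons (.rf (nat_lit 195) (nat_lit 242837723168)) (.cons (.rf (nat_lit 195) (nat_lit 242836707360)) (.cons (.br (nat_lit 2) (nat_lit 0) (.cons (.rf (nat_lit 195) (nat_lit 247132686368)) (.cons (.rf (nat_lit 195) (nat_lit 247131670560)) (.cons (.br (nat_lit 8) (nat_lit 1) (.cons (.rf (nat_lit 177) (nat_lit 325702542001216)) (.cons (.br (nat_lit 8) (nat_lit 1) (.cons (.rf (nat_lit 177) (nat_lit 360886914090048)) (.cons (.br (nat_lit 3) (nat_lit 1) (.cons (.rf (nat_lit 193) (nat_lit 407901468850522144)) (.cons (.br (nat_lit 4) (nat_lit 1) (.cons (.rf (nat_lit 193) (nat_lit 443930265870501920)) .nil)) .nil))) .nil))) .nil))) (.cons (.rf (nat_lit 0) (nat_lit 300163)) .nil))))) (.cons (.rf (nat_lit 0) (nat_lit 300163)) .nil))))),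
 (.br (nat_lit 2) (nat_lit 0) (.cons (.rf (nat_lit 195) (nat_lit 247132686368)) (.cons (.rf (nat_lit 195) (nat_lit 247131670560)) (.cons (.rf (nat_lit 0) (nat_lit 267395)) (.cons (.br (nat_lit 6) (nat_lit 0) (.cons (.rf (nat_lit 195) (nat_lit 242837723168)) (.cons (.rf (nat_lit 195) (nat_lit 242836707360)) (.cons (.rf (nat_lit 196) (nat_lit 9038930745376)) (.cons (.rf (nat_lit 196) (nat_lit 9043225708576)) (.cons (.rf (nat_lit 0) (nat_lit 300163)) .nil)))))) .nil))))),
 (.br (nat_lit 2) (nat_lit 0) (.cons (.rf (nat_lit 195) (nat_lit 247132686368)) (.cons (.rf (nat_lit 195) (nat_lit 247131670560)) (.cons (.rf (nat_lit 197) (nat_lit 247132686368)) (.cons (.rf (nat_lit 0) (nat_lit 267395)) (.cons (.br (nat_lit 2) (nat_lit 0) (.cons (.rf (nat_lit 195) (nat_lit 247132686368)) (.cons (.rf (nat_lit 195) (nat_lit 247131670560)) (.cons (.rf (nat_lit 197) (nat_lit 247132686368)) (.cons (.rf (nat_lit 0) (nat_lit 300163)) .nil))))) .nil)))))),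
 (.br (nat_lit 10) (nat_lit 0) (.cons (.br (nat_lit 10) (nat_lit 0) (.cons (.rf (nat_lit 0) (nat_lit 365699)) .nil)) (.cons (.rf (nat_lit 0) (nat_lit 365699)) .nil))),
 (.br (nat_lit 6) (nat_lit 0) (.cons (.rf (nat_lit 198) (nat_lit 242771690688)) (.cons (.br (nat_lit 8) (nat_lit 1) (.cons (.rf (nat_lit 171) (nat_lit 315852163112)) (.cons (.br (nat_lit 5) (nat_lit 1) (.cons (.rf (nat_lit 199) (nat_lit 11584701642934304)) (.cons (.br (nat_lit 4) (nat_lit 1) (.cons (.rf (nat_lit 199) (nat_lit 12710601517271072)) (.cons (.br (nat_lit 5) (nat_lit 1) (.cons (.rf (nat_lit 199) (nat_lit 13836501456619552)) .nil)) .nil))) .nil))) .nil))) (.cons (.rf (nat_lit 0) (nat_lit 300163)) .nil)))),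
 (.br (nat_lit 2) (nat_lit 0) (.cons (.rf (nat_lit 198) (nat_lit 247132685376)) (.cons (.rf (nat_lit 198) (nat_lit 247100179520)) (.cons (.br (nat_lit 6) (nat_lit 0) (.cons (.rf (nat_lit 200) (nat_lit 9043225708576)) (.cons (.rf (nat_lit 200) (nat_lit 9043193202720)) (.cons (.br (nat_lit 6) (nat_lit 0) (.cons (.rf (nat_lit 200) (nat_lit 9043225708576)) (.cons (.rf (nat_lit 200) (nat_lit 9043193202720)) (.cons (.rf (nat_lit 0) (nat_lit 300163)) .nil)))) (.cons (.rf (nat_lit 0) (nat_lit 300163)) .nil))))) (.cons (.rf (nat_lit 0) (nat_lit 300163)) .nil))))),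
 (.br (nat_lit 11) (nat_lit 0) (.cons (.rf (nat_lit 0) (nat_lit 398467)) .nil)),
 (.br (nat_lit 6) (nat_lit 1) (.cons (.rf (nat_lit 58) (nat_lit 7673921)) (.cons (.br (nat_lit 7) (nat_lit 1) (.cons (.ev (nat_lit 9463396729223395869440) (nat_lit 2)) (.cons (.rf (nat_lit 82) (nat_lit 12120696897)) .nil))) (.cons (.rf (nat_lit 202) (nat_lit 407901468851537952)) .nil)))),
 (.br (nat_lit 7) (nat_lit 1) (.cons (.rf (nat_lit 203) (nat_lit 11584701642934304)) (.cons (.rf (nat_lit 203) (nat_lit 11584697315465248)) (.cons (.br (nat_lit 2) (nat_lit 1) (.cons (.rf (nat_lit 31) (nat_lit 309373122)) (.cons (.rf (nat_lit 203) (nat_lit 11584701642934304)) (.cons (.kr (nat_lit 4722366483969156841472) (nat_lit 1208944266358702884257792) (nat_lit 5) (nat_lit 0)) (.cons (.rf (nat_lit 202) (nat_lit 407901468851537952)) .nil))))) (.cons (.rf (nat_lit 202) (nat_lit 407901468851537952)) .nil))))),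
 (.br (nat_lit 9) (nat_lit 1) (.cons (.rf (nat_lit 204) (nat_lit 11584701642934304)) (.cons (.rf (nat_lit 204) (nat_lit 11584701641917504)) (.cons (.rf (nat_lit 204) (nat_lit 11584697313428672)) (.cons (.br (nat_lit 9) (nat_lit 1) (.cons (.rf (nat_lit 204) (nat_lit 11584701642934304)) (.cons (.rf (nat_lit 204) (nat_lit 11584701641917504)) (.cons (.rf (nat_lit 204) (nat_lit 11584697313428672)) (.cons (.rf (nat_lit 202) (nat_lit 407901468851537952)) .nil))))) (.cons (.rf (nat_lit 202) (nat_lit 407901468851537952)) .nil)))))),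
 (.br (nat_lit 10) (nat_lit 0) (.cons (.br (nat_lit 10) (nat_lit 1) (.cons (.kr (nat_lit 16777216) (nat_lit 1208925819614629174706176) (nat_lit 3) (nat_lit 0)) (.cons (.kr (nat_lit 4294967296) (nat_lit 1208925819614629174706176) (nat_lit 4) (nat_lit 0)) (.cons (.kr (nat_lit 1099511627776) (nat_lit 1208925819614629174706176) (nat_lit 5) (nat_lit 0)) (.cons (.rf (nat_lit 205) (nat_lit 11584701642934304)) (.cons (.rf (nat_lit 205) (nat_lit 11505605525211176)) (.cons (.rf (nat_lit 202) (nat_lit 407901468851537952)) .nil))))))) (.cons (.rf (nat_lit 0) (nat_lit 365699)) .nil)))]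

theorem c4 : chkAll C T R L4 (nat_lit 165) = true := by decide +kernel

theorem l4 : (nat_lit 165) + L4.length = (nat_lit 207) := by decide +kernel

/-- part of the certificates -/
def L5 : List Prf := [(.br (nat_lit 10) (nat_lit 0) (.cons (.rf (nat_lit 206) (nat_lit 11584701642934304)) (.cons (.rf (nat_lit 206) (nat_lit 11584697315465248)) (.cons (.rf (nat_lit 0) (nat_lit 365699)) .nil)))),
 (.br (nat_lit 6) (nat_lit 0) (.cons (.rf (nat_lit 201) (nat_lit 9038930745376)) (.cons (.rf (nat_lit 201) (nat_lit 9037855983808)) (.cons (.br (nat_lit 2) (nat_lit 0) (.cons (.rf (nat_lit 198) (nat_lit 247132685376)) (.cons (.rf (nat_lit 198) (nat_lit 247066657856)) (.cons (.br (nat_lit 8) (nat_lit 1) (.cons (.rf (nat_lit 171) (nat_lit 315852163112)) (.cons (.br (nat_lit 3) (nat_lit 1) (.cons (.rf (nat_lit 207) (nat_lit 11584701642934304)) (.cons (.br (nat_lit 4) (nat_lit 1) (.cons (.rf (nat_lit 207) (nat_lit 12710601548760128)) (.cons (.br (nat_lit 5) (nat_lit 1) (.cons (.rf (nat_lit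 207) (nat_lit 13836497127113920)) .nil)) .nil))) .nil))) .nil))) (.cons (.rf (nat_lit 0) (nat_lit 300163)) .nil))))) (.cons (.rf (nat_lit 0) (nat_lit 300163)) .nil))))),
 (.br (nat_lit 2) (nat_lit 0) (.cons (.rf (nat_lit 198) (nat_lit 247132685376)) (.cons (.rf (nat_lit 198) (nat_lit 247066657856)) (.cons (.br (nat_lit 6) (nat_lit 0) (.cons (.rf (nat_lit 201) (nat_lit 9038930745376)) (.cons (.rf (nat_lit 201) (nat_lit 9037855987776)) (.cons (.rf (nat_lit 208) (nat_lit 9038898239520)) (.cons (.rf (nat_lit 208) (nat_lit 9043225708576)) (.cons (.rf (nat_lit 0) (nat_lit 300163)) .nil)))))) (.cons (.rf (nat_lit 0) (nat_lit 300163)) .nil))))),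
 (.br (nat_lit 2) (nat_lit 0) (.cons (.rf (nat_lit 201) (nat_lit 9043225707584)) (.cons (.rf (nat_lit 209) (nat_lit 9043224691776)) (.cons (.rf (nat_lit 209) (nat_lit 9043191170112)) (.cons (.rf (nat_lit 0) (nat_lit 300163)) .nil))))),
 (.br (nat_lit 0) (nat_lit 1) (.cons (.rf (nat_lit 171) (nat_lit 247132686368)) (.cons (.br (nat_lit 1) (nat_lit 0) (.cons (.rf (nat_lit 198) (nat_lit 247132686368)) (.cons (.rf (nat_lit 198) (nat_lit 247100180512)) (.cons (.rf (nat_lit 0) (nat_lit 267395)) (.cons (.br (nat_lit 2) (nat_lit 0) (.cons (.rf (nat_lit 210) (nat_lit 9043225707584)) (.cons (.rf (nat_lit 210) (nat_lit 9043224691776)) (.cons (.rf (nat_lit 210) (nat_lit 9043191170112)) (.cons (.rf (nat_lit 210) (nat_lit 9043225708576)) (.cons (.rf (nat_lit 0) (nat_lit 300163)) .nil)))))) .nil))))) .nil))),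
 (.br (nat_lit 10) (nat_lit 0) (.cons (.rf (nat_lit 0) (nat_lit 365699)) .nil)),
 (.br (nat_lit 8) (nat_lit 0) (.cons (.kr (nat_lit 16777216) (nat_lit 4294967296) (nat_lit 3) (nat_lit 0)) (.cons (.rf (nat_lit 0) (nat_lit 300163)) (.cons (.br (nat_lit 2) (nat_lit 0) (.cons (.br (nat_lit 9) (nat_lit 1) (.cons (.rf (nat_lit 212) (nat_lit 11584701642934304)) (.cons (.br (nat_lit 9) (nat_lit 1) (.cons (.rf (nat_lit 212) (nat_lit 12710601549776928)) (.cons (.br (nat_lit 9) (nat_lit 1) (.cons (.rf (nat_lit 212) (nat_lit 13836501456619552)) .nil)) .nil))) .nil))) (.cons (.br (nat_lit 9) (nat_lit 1) (.cons (.rf (nat_lit 211) (nat_lit 10874953801)) (.cons (.br (nat_lit 9) (nat_lit 1) (.cons (.rf (nat_lit 211) (nat_lit 11948695625)) (.cons (.br (nat_lit 4) (nat_lit 1) (.cons (.br (nat_lit 12) (nat_lit 0) (.cons (.rf (nat_lit 0) (nat_lit 431235)) .nil)) .nil)) .nil))) .nil))) (.cons (.rf (nat_lit 0) (nat_lit 332931)) .nil)))) .nil)))),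
 (.br (nat_lit 8) (nat_lit 0) (.cons (.rf (nat_lit 213) (nat_lit 9043225708576)) (.cons (.rf (nat_lit 213) (nat_lit 9043224692768)) (.cons (.rf (nat_lit 0) (nat_lit 300163)) (.cons (.br (nat_lit 8) (nat_lit 0) (.cons (.rf (nat_lit 213) (nat_lit 9043225708576)) (.cons (.rf (nat_lit 213) (nat_lit 9043224692768)) (.cons (.rf (nat_lit 0) (nat_lit 332931)) .nil)))) .nil))))),
 (.br (nat_lit 10) (nat_lit 0) (.cons (.rf (nat_lit 0) (nat_lit 365699)) (.cons (.br (nat_lit 11) (nat_lit 1) (.cons (.rf (nat_lit 118) (nat_lit 291793806690347)) .nil)) .nil))),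
 (.br (nat_lit 7) (nat_lit 1) (.cons (.kr (nat_lit 1099511627777) (nat_lit 72057594054705152) (nat_lit 0) (nat_lit 1)) (.cons (.br (nat_lit 8) (nat_lit 1) (.cons (.kr (nat_lit 2207613190146) (nat_lit 18518801667797811456) (nat_lit 0) (nat_lit 2)) (.cons (.rf (nat_lit 215) (nat_lit 11584701642934304)) .nil))) (.cons (.rf (nat_lit 215) (nat_lit 11584701642934304)) .nil)))),
 (.br (nat_lit 8) (nat_lit 1) (.cons (.rf (nat_lit 216) (nat_lit 325702574508064)) (.cons (.br (nat_lit 8) (nat_lit 1) (.cons (.rf (nat_lit 216) (nat_lit 325702574508064)) (.cons (.rf (nat_lit 215) (nat_lit 11584701642934304)) .nil))) (.cons (.rf (nat_lit 215) (nat_lit 11584701642934304)) .nil)))),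
 (.br (nat_lit 7) (nat_lit 1) (.cons (.kr (nat_lit 1099511627777) (nat_lit 72057594054705152) (nat_lit 0) (nat_lit 1)) (.cons (.rf (nat_lit 217) (nat_lit 291584395543616)) (.cons (.rf (nat_lit 215) (nat_lit 11584701642934304)) .nil)))),
 (.br (nat_lit 8) (nat_lit 1) (.cons (.rf (nat_lit 217) (nat_lit 325702574508064)) (.cons (.rf (nat_lit 218) (nat_lit 325702574508064)) (.cons (.br (nat_lit 8) (nat_lit 1) (.cons (.rf (nat_lit 217) (nat_lit 325702574508064)) (.cons (.rf (nat_lit 218) (nat_lit 325702574508064)) (.cons (.rf (nat_lit 215) (nat_lit 11584701642934304)) .nil)))) (.cons (.rf (nat_lit 215) (nat_lit 11584701642934304)) .nil))))),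
 (.br (nat_lit 6) (nat_lit 1) (.cons (.kr (nat_lit 1) (nat_lit 281474976710656) (nat_lit 0) (nat_lit 1)) (.cons (.br (nat_lit 7) (nat_lit 1) (.cons (.rf (nat_lit 219) (nat_lit 325702574508064)) (.cons (.br (nat_lit 7) (nat_lit 1) (.cons (.kr (nat_lit 1099511627777) (nat_lit 72057594054705152) (nat_lit 0) (nat_lit 1)) (.cons (.kr (nat_lit 1103806595073) (nat_lit 72057594071482368) (nat_lit 0) (nat_lit 1)) (.cons (.rf (nat_lit 215) (nat_lit 11584701642934304)) .nil)))) (.cons (.br (nat_lit 7) (nat_lit 1) (.cons (.kr (nat_lit 1103806595074) (nat_lit 72339069048193024) (nat_lit 0) (nat_lit 1)) (.cons (.kr (nat_lit 1103806595073) (nat_lit 72057594071482368) (nat_lit 0) (nat_lit 1)) (.cons (.rf (nat_lit 215) (nat_lit 11584701642934304)) .nil)))) (.cons (.rf (nat_lit 215) (nat_lit 11584701642934304)) .nil))))) (.cons (.kr (nat_lit 4294967297) (nat_lit 281474993487872) (nat_lit 0) (nat_lit 1)) (.cons (.rf (nat_lit 215) (nat_lit 11584701642934304)) .nil))))),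
 (.br (nat_lit 7) (nat_lit 1) (.cons (.rf (nat_lit 219) (nat_lit 325702574508064)) (.cons (.rf (nat_lit 220) (nat_lit 325702574508064)) (.cons (.br (nat_lit 7) (nat_lit 1) (.cons (.rf (nat_lit 219) (nat_lit 325702574508064)) (.cons (.kr (nat_lit 1103806595073) (nat_lit 72057594071482368) (nat_lit 0) (nat_lit 1)) (.cons (.rf (nat_lit 215) (nat_lit 11584701642934304)) .nil)))) (.cons (.rf (nat_lit 215) (nat_lit 11584701642934304)) .nil))))),
 (.br (nat_lit 7) (nat_lit 1) (.cons (.rf (nat_lit 219) (nat_lit 325702574508064)) (.cons (.rf (nat_lit 220) (nat_lit 325702574508064)) (.cons (.rf (nat_lit 221) (nat_lit 325702574508064)) (.cons (.br (nat_lit 7) (nat_lit 1) (.cons (.rf (nat_lit 219) (nat_lit 325702574508064)) (.cons (.rf (nat_lit 220) (nat_lit 325702574508064)) (.cons (.rf (nat_lit 221) (nat_lit 325702574508064)) (.cons (.rf (nat_lit 215) (nat_lit 11584701642934304)) .nil))))) (.cons (.rf (nat_lit 215) (nat_lit 11584701642934304)) .nil)))))),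
 (.br (nat_lit 6) (nat_lit 1) (.cons (.rf (nat_lit 222) (nat_lit 325702574508064)) (.cons (.kr (nat_lit 1099511627777) (nat_lit 281474993487872) (nat_lit 0) (nat_lit 1)) (.cons (.kr (nat_lit 1103806595073) (nat_lit 281475010265088) (nat_lit 0) (nat_lit 1)) (.cons (.rf (nat_lit 215) (nat_lit 11584701642934304)) .nil))))),
 (.br (nat_lit 6) (nat_lit 1) (.cons (.rf (nat_lit 222) (nat_lit 325702574508064)) (.cons (.rf (nat_lit 222) (nat_lit 291617681540160)) (.cons (.rf (nat_lit 223) (nat_lit 325702574508064)) (.cons (.rf (nat_lit 223) (nat_lit 291617681540160)) (.cons (.rf (nat_lit 215) (nat_lit 11584701642934304)) .nil)))))),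
 (.br (nat_lit 6) (nat_lit 1) (.cons (.rf (nat_lit 222) (nat_lit 325702574508064)) (.cons (.rf (nat_lit 222) (nat_lit 291617681540160)) (.cons (.rf (nat_lit 224) (nat_lit 325702574508064)) (.cons (.br (nat_lit 6) (nat_lit 1) (.cons (.rf (nat_lit 222) (nat_lit 325702574508064)) (.cons (.rf (nat_lit 222) (nat_lit 291617681540160)) (.cons (.kr (nat_lit 1103806595073) (nat_lit 281475010265088) (nat_lit 0) (nat_lit 1)) (.cons (.rf (nat_lit 215) (nat_lit 11584701642934304)) .nil))))) (.cons (.rf (nat_lit 215) (nat_lit 11584701642934304)) .nil)))))),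
 (.br (nat_lit 4) (nat_lit 1) (.cons (.rf (nat_lit 214) (nat_lit 10142704829504)) (.cons (.br (nat_lit 6) (nat_lit 1) (.cons (.rf (nat_lit 222) (nat_lit 325702574508064)) (.cons (.rf (nat_lit 222) (nat_lit 291617681540160)) (.cons (.rf (nat_lit 224) (nat_lit 325702574508064)) (.cons (.rf (nat_lit 225) (nat_lit 325702574508064)) (.cons (.rf (nat_lit 225) (nat_lit 291617681540160)) (.cons (.rf (nat_lit 215) (nat_lit 11584701642934304)) .nil))))))) .nil))),
 (.br (nat_lit 8) (nat_lit 1) (.cons (.rf (nat_lit 211) (nat_lit 10840319016)) (.cons (.br (nat_lit 8) (nat_lit 1) (.cons (.rf (nat_lit 211) (nat_lit 11914060840)) .nil)) .nil))),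
 (.br (nat_lit 8) (nat_lit 1) (.cons (.rf (nat_lit 227) (nat_lit 325702574508064)) (.cons (.br (nat_lit 8) (nat_lit 1) (.cons (.rf (nat_lit 227) (nat_lit 360886946596896)) .nil)) .nil))),
 (.br (nat_lit 5) (nat_lit 1) (.cons (.rf (nat_lit 214) (nat_lit 9043225708576)) (.cons (.br (nat_lit 2) (nat_lit 0) (.cons (.rf (nat_lit 226) (nat_lit 9043225708576)) (.cons (.rf (nat_lit 226) (nat_lit 9043224692768)) (.cons (.rf (nat_lit 0) (nat_lit 300163)) (.cons (.rf (nat_lit 228) (nat_lit 10178205453376)) .nil))))) .nil))),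
 (.br (nat_lit 6) (nat_lit 0) (.cons (.rf (nat_lit 211) (nat_lit 6614517792)) (.cons (.kr (nat_lit 16777216) (nat_lit 4294967296) (nat_lit 3) (nat_lit 0)) (.cons (.rf (nat_lit 211) (nat_lit 7687243976)) (.cons (.rf (nat_lit 0) (nat_lit 300163)) .nil))))),
 (.br (nat_lit 2) (nat_lit 0) (.cons (.kr (nat_lit 16777216) (nat_lit 4294967296) (nat_lit 3) (nat_lit 0)) (.cons (.rf (nat_lit 0) (nat_lit 332931)) (.cons (.br (nat_lit 8) (nat_lit 0) (.cons (.br (nat_lit 9) (nat_lit 0) (.cons (.rf (nat_lit 230) (nat_lit 11313115924512)) (.cons (.rf (nat_lit 0) (nat_lit 365699)) .nil))) (.cons (.br (nat_lit 9) (nat_lit 0) (.cons (.rf (nat_lit 230) (nat_lit 11279829927968)) (.cons (.rf (nat_lit 211) (nat_lit 9835749450)) (.cons (.rf (nat_lit 0) (nat_lit 365699)) .nil)))) (.cons (.rf (nat_lit 0) (nat_lit 365699)) .nil)))) .nil)))),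
 (.br (nat_lit 8) (nat_lit 0) (.cons (.kr (nat_lit 16777216) (nat_lit 4294967296) (nat_lit 3) (nat_lit 0)) (.cons (.rf (nat_lit 0) (nat_lit 332931)) (.cons (.rf (nat_lit 228) (nat_lit 11312076819712)) .nil)))),
 (.br (nat_lit 5) (nat_lit 1) (.cons (.rf (nat_lit 229) (nat_lit 247132686368)) (.cons (.br (nat_lit 2) (nat_lit 0) (.cons (.rf (nat_lit 231) (nat_lit 325702574508064)) (.cons (.rf (nat_lit 231) (nat_lit 325702573492256)) (.cons (.rf (nat_lit 0) (nat_lit 332931)) (.cons (.br (nat_lit 2) (nat_lit 0) (.cons (.rf (nat_lit 231) (nat_lit 325702574508064)) (.cons (.rf (nat_lit 231) (nat_lit 325702573492256)) (.cons (.rf (nat_lit 0) (nat_lit 365699)) .nil)))) .nil))))) (.cons (.br (nat_lit 8) (nat_lit 0) (.cons (.rf (nat_lit 232) (nat_lit 325702574508064)) (.cons (.rf (nat_lit 232) (nat_lit 325702573492256)) (.cons (.rf (nat_lit 0) (nat_lit 332931)) (.cons (.rf (nat_lit 228) (nat_lit 11312076819712)) .nil))))) .nil)))),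
 (.br (nat_lit 2) (nat_lit 0) (.cons (.kr (nat_lit 16777216) (nat_lit 4294967296) (nat_lit 3) (nat_lit 0)) (.cons (.rf (nat_lit 0) (nat_lit 332931)) (.cons (.br (nat_lit 10) (nat_lit 1) (.cons (.br (nat_lit 11) (nat_lit 0) (.cons (.rf (nat_lit 157) (nat_lit 252422867798558762)) (.cons (.rf (nat_lit 0) (nat_lit 398467)) .nil))) .nil)) .nil)))),
 (.br (nat_lit 5) (nat_lit 1) (.cons (.rf (nat_lit 229) (nat_lit 247132686368)) (.cons (.rf (nat_lit 233) (nat_lit 9043225708576)) (.cons (.br (nat_lit 5) (nat_lit 1) (.cons (.rf (nat_lit 229) (nat_lit 247132686368)) (.cons (.rf (nat_lit 233) (nat_lit 10142737336352)) (.cons (.br (nat_lit 3) (nat_lit 1) (.cons (.rf (nat_lit 234) (nat_lit 325702574508064)) (.cons (.br (nat_lit 4) (nat_lit 1) (.cons (.rf (nat_lit 234) (nat_lit 325702573492256)) (.cons (.kr (nat_lit 16777216) (nat_lit 4294967296) (nat_lit 3) (nat_lit 0)) (.cons (.rf (nat_lit 126) (nat_lit 325536144533536)) .nil)))) .nil))) .nil)))) .nil)))),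
 (.br (nat_lit 9) (nat_lit 0) (.cons (.br (nat_lit 5) (nat_lit 1) (.cons (.br (nat_lit 12) (nat_lit 0) (.cons (.rf (nat_lit 0) (nat_lit 431235)) .nil)) .nil)) (.cons (.rf (nat_lit 0) (nat_lit 398467)) .nil))),
 (.br (nat_lit 2) (nat_lit 0) (.cons (.rf (nat_lit 235) (nat_lit 247066657856)) (.cons (.br (nat_lit 8) (nat_lit 1) (.cons (.rf (nat_lit 211) (nat_lit 9835743272)) (.cons (.rf (nat_lit 211) (nat_lit 10909485096)) (.cons (.br (nat_lit 8) (nat_lit 1) (.cons (.rf (nat_lit 211) (nat_lit 9835743272)) (.cons (.rf (nat_lit 211) (nat_lit 11983226920)) (.cons (.br (nat_lit 9) (nat_lit 0) (.cons (.rf (nat_lit 236) (nat_lit 407901468851537952)) (.cons (.br (nat_lit 9) (nat_lit 0) (.cons (.rf (nat_lit 236) (nat_lit 407901468851537952)) (.cons (.rf (nat_lit 0) (nat_lit 398467)) .nil))) (.cons (.rf (nat_lit 0) (nat_lit 398467)) .nil)))) .nil)))) .nil)))) (.cons (.rf (nat_lit 0) (nat_lit 332931)) .nil)))),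
 (.br (nat_lit 8) (nat_lit 0) (.cons (.br (nat_lit 8) (nat_lit 0) .nil) .nil)),
 (.br (nat_lit 4) (nat_lit 1) (.cons (.br (nat_lit 6) (nat_lit 1) (.cons (.zr (nat_lit 216172782113784576) (nat_lit 282578800082945) (nat_lit 5) (nat_lit 0)) (.cons (.br (nat_lit 9) (nat_lit 1) (.cons (.br (nat_lit 10) (nat_lit 0) (.cons (.br (nat_lit 9) (nat_lit 1) (.cons (.br (nat_lit 12) (nat_lit 0) (.cons (.br (nat_lit 8) (nat_lit 0) (.cons (.br (nat_lit 9) (nat_lit 1) (.cons (.br (nat_lit 13) (nat_lit 0) (.cons (.zr (nat_lit 4740957342131430687232) (nat_lit 309485009821627647524864001) (nat_lit 5) (nat_lit 0)) .nil)) .nil)) .nil)) .nil)) .nil)) .nil)) .nil)) .nil))) (.cons (.br (nat_lit 9) (nat_lit 1) (.cons (.br (nat_lit 10) (nat_lit 1) (.cons (.br (nat_lit 10) (nat_lit 1) (.cons (.br (nat_lit 11) (nat_lit 0) (.cons (.rf (nat_lit 238) (nat_lit 12710601549776928)) (.cons (.br (nat_lit 12) (nat_lit 0) (.cons (.rf (nat_lit 238) (nat_lit 13836501456619552)) (.cons (.br (nat_lit 6) (nat_lit 1) (.cons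 (.br (nat_lit 8) (nat_lit 0) (.cons (.br (nat_lit 10) (nat_lit 0) (.cons (.zr (nat_lit 1208926035787411288490752) (nat_lit 20282409603651670706526051368961) (nat_lit 5) (nat_lit 0)) .nil)) .nil)) (.cons (.rf (nat_lit 238) (nat_lit 11584701642934304)) .nil))) .nil))) .nil))) .nil)) .nil)) .nil)) .nil))),
 (.br (nat_lit 12) (nat_lit 0) (.cons (.br (nat_lit 7) (nat_lit 0) (.cons (.br (nat_lit 8) (nat_lit 0) (.cons (.br (nat_lit 10) (nat_lit 0) (.cons (.br (nat_lit 9) (nat_lit 1) (.cons (.br (nat_lit 12) (nat_lit 1) (.cons (.zr (nat_lit 14167315621391049425664) (nat_lit 20282412021503309935784400781313) (nat_lit 5) (nat_lit 0)) (.cons (.zr (nat_lit 928455084804267427303194624) (nat_lit 20282412021503309935784400781313) (nat_lit 5) (nat_lit 0)) .nil))) (.cons (.br (nat_lit 11) (nat_lit 1) (.cons (.zr (nat_lit 14167315621391049425664) (nat_lit 20282412021503309935784400781313) (nat_lit 5) (nat_lit 0)) (.cons (.kr (nat_lit 1208925819614629174706176) (nat_lit 79228162514264337593543950336)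 (nat_lit 10) (nat_lit 0)) .nil))) .nil))) .nil)) .nil)) .nil)) .nil)),
 (.br (nat_lit 4) (nat_lit 1) (.cons (.br (nat_lit 6) (nat_lit 1) (.cons (.kr (nat_lit 281474976710656) (nat_lit 72057594037927936) (nat_lit 6) (nat_lit 0)) .nil)) .nil)),
 (.br (nat_lit 4) (nat_lit 1) (.cons (.rf (nat_lit 241) (nat_lit 9043225708576)) (.cons (.rf (nat_lit 241) (nat_lit 9009939712032)) .nil))),
 (.br (nat_lit 6) (nat_lit 1) (.cons (.rf (nat_lit 239) (nat_lit 9043225708576)) (.cons (.br (nat_lit 9) (nat_lit 1) (.cons (.br (nat_lit 10) (nat_lit 1) (.cons (.br (nat_lit 10) (nat_lit 1) (.cons (.br (nat_lit 11) (nat_lit 0) (.cons (.rf (nat_lit 240) (nat_lit 14242959524133701664)) (.cons (.br (nat_lit 12) (nat_lit 0) (.cons (.rf (nat_lit 240) (nat_lit 13126066816545818656)) (.cons (.rf (nat_lit 242) (nat_lit 14718124432449)) .nil))) .nil))) .nil)) .nil)) .nil)) .nil))),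
 (.br (nat_lit 11) (nat_lit 1) (.cons (.br (nat_lit 12) (nat_lit 1) (.cons (.br (nat_lit 6) (nat_lit 1) (.cons (.rf (nat_lit 239) (nat_lit 9043225708576)) (.cons (.rf (nat_lit 243) (nat_lit 9043225708576)) (.cons (.kr (nat_lit 4722366482869645213696) (nat_lit 1208925819614629174706176) (nat_lit 9) (nat_lit 0)) (.cons (.kr (nat_lit 4722366482869645213696) (nat_lit 309485009821345068724781056) (nat_lit 9) (nat_lit 0)) (.cons (.kr (nat_lit 4722366482869645213696) (nat_lit 79228162514264337593543950336) (nat_lit 9) (nat_lit 0)) .nil)))))) .nil)) .nil)),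
 (.br (nat_lit 6) (nat_lit 1) (.cons (.rf (nat_lit 239) (nat_lit 9043225708576)) (.cons (.rf (nat_lit 243) (nat_lit 9043225708576)) (.cons (.br (nat_lit 9) (nat_lit 1) (.cons (.br (nat_lit 10) (nat_lit 1) (.cons (.br (nat_lit 10) (nat_lit 1) (.cons (.br (nat_lit 9) (nat_lit 1) (.cons (.rf (nat_lit 244) (nat_lit 14242959524133701664)) (.cons (.rf (nat_lit 244) (nat_lit 13126066816545818656)) .nil))) .nil)) .nil)) .nil)) .nil)))),
 (.br (nat_lit 4) (nat_lit 1) (.cons (.rf (nat_lit 242) (nat_lit 6843099351072)) .nil)),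
 (.br (nat_lit 6) (nat_lit 1) (.cons (.kr (nat_lit 72057594037928192) (nat_lit 18446744073709617152) (nat_lit 1) (nat_lit 0)) (.cons (.br (nat_lit 9) (nat_lit 1) (.cons (.br (nat_lit 10) (nat_lit 0) (.cons (.br (nat_lit 9) (nat_lit 1) (.cons (.br (nat_lit 12) (nat_lit 0) (.cons (.rf (nat_lit 246) (nat_lit 424473271361)) .nil)) .nil)) .nil)) .nil)) .nil))),
 (.br (nat_lit 7) (nat_lit 1) (.cons (.rf (nat_lit 246) (nat_lit 249280170016)) (.cons (.rf (nat_lit 246) (nat_lit 249282267168)) .nil))),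
 (.br (nat_lit 12) (nat_lit 0) (.cons (.br (nat_lit 10) (nat_lit 0) (.cons (.rf (nat_lit 248) (nat_lit 14718124432449)) .nil)) .nil)),
 (.br (nat_lit 9) (nat_lit 1) (.cons (.br (nat_lit 10) (nat_lit 1) (.cons (.br (nat_lit 10) (nat_lit 1) (.cons (.br (nat_lit 11) (nat_lit 0) (.cons (.rf (nat_lit 249) (nat_lit 14242959524133701664)) (.cons (.br (nat_lit 12) (nat_lit 0) (.cons (.rf (nat_lit 249) (nat_lit 13126066816545818656)) (.cons (.rf (nat_lit 246) (nat_lit 426655358017)) .nil))) .nil))) .nil)) .nil)) .nil)),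
 (.br (nat_lit 13) (nat_lit 1) (.cons (.kr (nat_lit 309485009893402662762709248) (nat_lit 1208944266358702884323328) (nat_lit 1) (nat_lit 0)) (.cons (.zr (nat_lit 237684487543009185562745635584) (nat_lit 618974742009455585894858753) (nat_lit 5) (nat_lit 0)) .nil))),
 (.br (nat_lit 13) (nat_lit 0) (.cons (.br (nat_lit 8) (nat_lit 0) (.cons (.br (nat_lit 9) (nat_lit 1) (.cons (.br (nat_lit 10) (nat_lit 1) (.cons (.rf (nat_lit 251) (nat_lit 493858305440582043680)) (.cons (.rf (nat_lit 251) (nat_lit 458117738797769787424)) .nil))) .nil)) .nil)) (.cons (.br (nat_lit 9) (nat_lit 1) (.cons (.br (nat_lit 6) (nat_lit 1) (.cons (.br (nat_lit 10) (nat_lit 1) (.cons (.br (nat_lit 13) (nat_lit 1) (.cons (.zr (nat_lit 928455029824323176363984128) (nat_lit 2422610899482854213943297) (nat_lit 5) (nat_lit 0)) (.cons (.kr (nat_lit 309485009821345068724781056) (nat_lit 79228162514264337593543950336) (nat_lit 11) (nat_lit 0)) .nil))) (.cons (.br (nat_lit 12) (nat_lit 1) (.cons (.zr (nat_lit 928455029824323176363984128)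 (nat_lit 2422610899482854213943297) (nat_lit 5) (nat_lit 0)) (.cons (.zr (nat_lit 928455029680207988288127744) (nat_lit 40564819212025707613342947868673) (nat_lit 5) (nat_lit 0)) .nil))) .nil))) .nil)) (.cons (.rf (nat_lit 248) (nat_lit 10355546004545)) .nil))) .nil))),
 (.br (nat_lit 4) (nat_lit 1) (.cons (.kr (nat_lit 72057594037928192) (nat_lit 18446744073709617152) (nat_lit 1) (nat_lit 0)) (.cons (.br (nat_lit 10) (nat_lit 1) (.cons (.br (nat_lit 11) (nat_lit 1) (.cons (.br (nat_lit 11) (nat_lit 1) (.cons (.br (nat_lit 12) (nat_lit 0) (.cons (.rf (nat_lit 252) (nat_lit 493858305440582043680)) (.cons (.br (nat_lit 13) (nat_lit 0) (.cons (.rf (nat_lit 252) (nat_lit 458117738797769787424)) (.cons (.rf (nat_lit 246) (nat_lit 456754732097)) .nil))) .nil))) .nil)) .nil)) .nil)) .nil))),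
 (.br (nat_lit 9) (nat_lit 1) (.cons (.rf (nat_lit 253) (nat_lit 325702574508064)) (.cons (.br (nat_lit 10) (nat_lit 1) (.cons (.br (nat_lit 11) (nat_lit 1) (.cons (.br (nat_lit 11) (nat_lit 1) (.cons (.br (nat_lit 9) (nat_lit 1) (.cons (.rf (nat_lit 253) (nat_lit 325702574508064)) (.cons (.rf (nat_lit 248) (nat_lit 10253542628417)) (.cons (.rf (nat_lit 246) (nat_lit 422327884865)) (.cons (.rf (nat_lit 246) (nat_lit 456687623233)) .nil))))) .nil)) .nil)) .nil)) .nil)))]

theorem c5 : chkAll C T R L5 (nat_lit 207) = true := by decide +kernel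

theorem l5 : (nat_lit 207) + L5.length = (nat_lit 255) := by decide +kernel

/-- part of the certificates -/
def L6 : List Prf := [(.br (nat_lit 2) (nat_lit 0) (.cons (.rf (nat_lit 250) (nat_lit 325702573492256)) (.cons (.br (nat_lit 7) (nat_lit 0) (.cons (.br (nat_lit 8) (nat_lit 0) (.cons (.rf (nat_lit 245) (nat_lit 2236743885024)) (.cons (.br (nat_lit 10) (nat_lit 0) (.cons (.br (nat_lit 13) (nat_lit 1) (.cons (.kr (nat_lit 618970019714747731487490304) (nat_lit 1213666632841572529537024) (nat_lit 1) (nat_lit 0)) (.cons (.kr (nat_lit 158456325028600732781125828864) (nat_lit 1213666632841572529537024) (nat_lit 1) (nat_lit 0)) .nil))) (.cons (.br (nat_lit 6) (nat_lit 1) (.cons (.kr (nat_lit 2417851711286852387340544) (nat_lit 309489750634572012079611904) (nat_lit 1) (nat_lit 0)) (.cons (.kr (nat_lit 2417851711286852387340544) (nat_lit 79228167255077564536898781184) (nat_lit 1) (nat_lit 0)) .nil))) .nil))) .nil))) (.cons (.br (nat_lit 8) (nat_lit 0) (.cons (.br (nat_lit 6) (nat_lit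 1) (.cons (.kr (nat_lit 1208925891672223212634368) (nat_lit 4740813226943354830848) (nat_lit 1) (nat_lit 0)) (.cons (.kr (nat_lit 309485009893402662762709248) (nat_lit 4740813226943354830848) (nat_lit 1) (nat_lit 0)) (.cons (.kr (nat_lit 79228162514336395187581878528) (nat_lit 4740813226943354830848) (nat_lit 1) (nat_lit 0)) .nil)))) (.cons (.br (nat_lit 13) (nat_lit 1) (.cons (.kr (nat_lit 1208925891672223212634368) (nat_lit 4740813226943354830848) (nat_lit 1) (nat_lit 0)) (.cons (.kr (nat_lit 309485009893402662762709248) (nat_lit 4740813226943354830848) (nat_lit 1) (nat_lit 0)) (.cons (.kr (nat_lit 79228162514336395187581878528) (nat_lit 4740813226943354830848) (nat_lit 1) (nat_lit 0)) .nil)))) .nil))) .nil))) .nil))),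
 (.br (nat_lit 6) (nat_lit 1) (.cons (.kr (nat_lit 1208925891672223212634368) (nat_lit 4740813226943354830848) (nat_lit 1) (nat_lit 0)) (.cons (.kr (nat_lit 309485009893402662762709248) (nat_lit 4740813226943354830848) (nat_lit 1) (nat_lit 0)) (.cons (.kr (nat_lit 79228162514336395187581878528) (nat_lit 4740813226943354830848) (nat_lit 1) (nat_lit 0)) .nil)))),
 (.br (nat_lit 12) (nat_lit 0) (.cons (.kr (nat_lit 79537647524157740256306659584) (nat_lit 1213666632841572529537024) (nat_lit 1) (nat_lit 0)) .nil)),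
 (.br (nat_lit 6) (nat_lit 1) (.cons (.rf (nat_lit 257) (nat_lit 493858305440582043680)) (.cons (.rf (nat_lit 257) (nat_lit 492741412732994160672)) .nil))),
 (.br (nat_lit 4) (nat_lit 1) (.cons (.rf (nat_lit 258) (nat_lit 493858305440582043680)) (.cons (.rf (nat_lit 258) (nat_lit 493823402543469922336)) (.cons (.rf (nat_lit 258) (nat_lit 492671606938769917984)) .nil)))),
 (.br (nat_lit 8) (nat_lit 0) (.cons (.rf (nat_lit 255) (nat_lit 14242959524133701664)) (.cons (.br (nat_lit 2) (nat_lit 0) (.cons (.br (nat_lit 7) (nat_lit 0) (.cons (.kr (nat_lit 281474976776192) (nat_lit 72057598332895232) (nat_lit 2) (nat_lit 0)) (.cons (.rf (nat_lit 256) (nat_lit 493858305440582043680)) .nil))) (.cons (.ev (nat_lit 282574488338689) (nat_lit 1)) (.cons (.br (nat_lit 7) (nat_lit 0) (.cons (.br (nat_lit 13) (nat_lit 1) (.cons (.ev (nat_lit 1213666632842676336066561) (nat_lit 1)) (.cons (.ev (nat_lit 309489750634573115886141441) (nat_lit 1)) (.cons (.ev (nat_lit 79228167255077565640705310721)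 (nat_lit 1)) .nil)))) (.cons (.br (nat_lit 10) (nat_lit 0) (.cons (.br (nat_lit 13) (nat_lit 1) (.cons (.kr (nat_lit 618970019714747731487490304) (nat_lit 1213666632841572529537024) (nat_lit 1) (nat_lit 0)) (.cons (.kr (nat_lit 158456325028600732781125828864) (nat_lit 1213666632841572529537024) (nat_lit 1) (nat_lit 0)) .nil))) (.cons (.br (nat_lit 4) (nat_lit 1) (.cons (.kr (nat_lit 2417851711286852387340544) (nat_lit 309489750634572012079611904) (nat_lit 1) (nat_lit 0)) (.cons (.kr (nat_lit 2417851711286852387340544) (nat_lit 79228167255077564536898781184) (nat_lit 1) (nat_lit 0)) .nil))) .nil))) (.cons (.rf (nat_lit 259) (nat_lit 493858305440582043680)) .nil)))) .nil)))) .nil))),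
 (.br (nat_lit 11) (nat_lit 1) (.cons (.br (nat_lit 12) (nat_lit 1) (.cons (.br (nat_lit 8) (nat_lit 0) (.cons (.rf (nat_lit 255) (nat_lit 14242959524133701664)) (.cons (.rf (nat_lit 260) (nat_lit 14242959524133701664)) (.cons (.br (nat_lit 8) (nat_lit 0) (.cons (.rf (nat_lit 255) (nat_lit 14242959524133701664)) (.cons (.rf (nat_lit 260) (nat_lit 14242959524133701664)) .nil))) .nil)))) .nil)) .nil)),
 (.br (nat_lit 3) (nat_lit 1) (.cons (.rf (nat_lit 245) (nat_lit 9043225708576)) (.cons (.ev (nat_lit 72058693566332929) (nat_lit 1)) (.cons (.br (nat_lit 2) (nat_lit 0) (.cons (.br (nat_lit 7) (nat_lit 0) (.cons (.zr (nat_lit 144115188075922176) (nat_lit 1108118339585) (nat_lit 5) (nat_lit 0)) (.cons (.br (nat_lit 8) (nat_lit 0) (.cons (.zr (nat_lit 36893488147419300096) (nat_lit 1108118339585) (nat_lit 5) (nat_lit 0)) (.cons (.kr (nat_lit 72057594037928192) (nat_lit 18446744073709617152) (nat_lit 1) (nat_lit 0)) .nil))) .nil))) (.cons (.br (nat_lit 4) (nat_lit 1) (.cons (.ev (nat_lit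 4311810049) (nat_lit 1)) (.cons (.rf (nat_lit 247) (nat_lit 9043225708576)) (.cons (.rf (nat_lit 250) (nat_lit 325702574508064)) .nil)))) (.cons (.br (nat_lit 9) (nat_lit 1) (.cons (.rf (nat_lit 253) (nat_lit 325702574508064)) (.cons (.rf (nat_lit 254) (nat_lit 325702574508064)) (.cons (.br (nat_lit 10) (nat_lit 1) (.cons (.br (nat_lit 11) (nat_lit 1) (.cons (.br (nat_lit 11) (nat_lit 1) (.cons (.br (nat_lit 9) (nat_lit 1) (.cons (.rf (nat_lit 253) (nat_lit 325702574508064)) (.cons (.rf (nat_lit 254) (nat_lit 325702574508064)) (.cons (.rf (nat_lit 248) (nat_lit 10253542628417)) (.cons (.rf (nat_lit 246) (nat_lit 422327884865)) (.cons (.rf (nat_lit 246) (nat_lit 456687623233)) .nil)))))) .nil)) .nil)) .nil)) .nil)))) .nil)))) (.cons (.br (nat_lit 9) (nat_lit 1) (.cons (.br (nat_lit 10) (nat_lit 1) (.cons (.br (nat_lit 10) (nat_lit 1) (.cons (.br (nat_lit 9) (nat_lit 1) (.cons (.rf (nat_lit 261) (nat_lit 14242959524133701664)) (.cons (.rf (nat_lit 261) (nat_lit 13126066816545818656))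 .nil))) .nil)) .nil)) .nil)) .nil))))),
 (.br (nat_lit 7) (nat_lit 0) (.cons (.rf (nat_lit 262) (nat_lit 2238889271520)) (.cons (.br (nat_lit 8) (nat_lit 0) (.cons (.br (nat_lit 13) (nat_lit 1) (.cons (.ev (nat_lit 1213666704899170879144193) (nat_lit 1)) (.cons (.ev (nat_lit 309489750706629610429219073) (nat_lit 1)) (.cons (.ev (nat_lit 79228167255149622135248388353) (nat_lit 1)) .nil)))) (.cons (.br (nat_lit 6) (nat_lit 1) (.cons (.ev (nat_lit 1213666704899170879144193) (nat_lit 1)) (.cons (.ev (nat_lit 309489750706629610429219073) (nat_lit 1)) (.cons (.ev (nat_lit 79228167255149622135248388353) (nat_lit 1)) .nil)))) .nil))) .nil))),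
 (.br (nat_lit 4) (nat_lit 1) (.cons (.kr (nat_lit 4740813226943354765568) (nat_lit 1208925891672223212699648) (nat_lit 1) (nat_lit 0)) (.cons (.kr (nat_lit 4740813226943354765568) (nat_lit 309485009893402662762774528) (nat_lit 1) (nat_lit 0)) (.cons (.kr (nat_lit 4740813226943354765568) (nat_lit 79228162514336395187581943808) (nat_lit 1) (nat_lit 0)) .nil)))),
 (.br (nat_lit 12) (nat_lit 0) (.cons (.kr (nat_lit 79228167255077564536898715904) (nat_lit 310693935713017291937480704) (nat_lit 1) (nat_lit 0)) .nil)),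
 (.br (nat_lit 6) (nat_lit 1) (.cons (.rf (nat_lit 265) (nat_lit 493858305440582043680)) (.cons (.rf (nat_lit 265) (nat_lit 492741412732994160672)) .nil))),
 (.br (nat_lit 4) (nat_lit 1) (.cons (.rf (nat_lit 266) (nat_lit 493858305440582043680)) (.cons (.rf (nat_lit 266) (nat_lit 493823402543469922336)) (.cons (.rf (nat_lit 266) (nat_lit 492671606938769917984)) .nil)))),
 (.br (nat_lit 8) (nat_lit 0) (.cons (.rf (nat_lit 263) (nat_lit 493858305440582043680)) (.cons (.br (nat_lit 7) (nat_lit 0) (.cons (.kr (nat_lit 18446744078004519168) (nat_lit 72057594054770688) (nat_lit 1) (nat_lit 0)) (.cons (.rf (nat_lit 264) (nat_lit 493858305440582043680)) (.cons (.rf (nat_lit 267) (nat_lit 493858305440582043680)) .nil)))) .nil))),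
 (.br (nat_lit 2) (nat_lit 0) (.cons (.rf (nat_lit 262) (nat_lit 9043158664256)) (.cons (.rf (nat_lit 262) (nat_lit 9041013277760)) (.cons (.br (nat_lit 8) (nat_lit 0) (.cons (.rf (nat_lit 263) (nat_lit 493858305440582043680)) (.cons (.rf (nat_lit 268) (nat_lit 493858305440582043680)) (.cons (.br (nat_lit 8) (nat_lit 0) (.cons (.rf (nat_lit 263) (nat_lit 493858305440582043680)) (.cons (.rf (nat_lit 268) (nat_lit 493858305440582043680)) .nil))) .nil)))) .nil)))),
 (.br (nat_lit 8) (nat_lit 0) (.cons (.rf (nat_lit 262) (nat_lit 2238889270528)) (.cons (.br (nat_lit 2) (nat_lit 0) (.cons (.br (nat_lit 7) (nat_lit 0) (.cons (.br (nat_lit 13) (nat_lit 1) (.cons (.kr (nat_lit 4740813226943354765568) (nat_lit 1208925891672223212699648) (nat_lit 1) (nat_lit 0)) (.cons (.kr (nat_lit 4740813226943354765568) (nat_lit 309485009893402662762774528) (nat_lit 1) (nat_lit 0)) (.cons (.kr (nat_lit 4740813226943354765568) (nat_lit 79228162514336395187581943808) (nat_lit 1) (nat_lit 0)) .nil))))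 (.cons (.rf (nat_lit 256) (nat_lit 493858305440547505216)) .nil))) (.cons (.rf (nat_lit 262) (nat_lit 7977032615968)) (.cons (.br (nat_lit 7) (nat_lit 0) (.cons (.kr (nat_lit 18446744078004519168) (nat_lit 72057594054770688) (nat_lit 1) (nat_lit 0)) (.cons (.rf (nat_lit 264) (nat_lit 493858305440581027872)) (.cons (.rf (nat_lit 267) (nat_lit 493858305440581027872)) .nil)))) .nil)))) .nil))),
 (.br (nat_lit 8) (nat_lit 0) (.cons (.rf (nat_lit 269) (nat_lit 14242958458981812256)) (.cons (.rf (nat_lit 270) (nat_lit 14242959524133701664)) (.cons (.br (nat_lit 8) (nat_lit 0) (.cons (.rf (nat_lit 269) (nat_lit 14242958458981812256)) (.cons (.rf (nat_lit 270) (nat_lit 14242959524133701664)) .nil))) .nil)))),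
 (.br (nat_lit 7) (nat_lit 0) (.cons (.rf (nat_lit 269) (nat_lit 14242959524133701664)) (.cons (.rf (nat_lit 271) (nat_lit 14242959524133701664)) (.cons (.br (nat_lit 8) (nat_lit 0) (.cons (.rf (nat_lit 269) (nat_lit 14242958458981812256)) (.cons (.rf (nat_lit 271) (nat_lit 14242958458981812256)) (.cons (.br (nat_lit 8) (nat_lit 0) (.cons (.rf (nat_lit 269) (nat_lit 14242958458981812256)) (.cons (.rf (nat_lit 271) (nat_lit 14242958458981812256)) (.cons (.kr (nat_lit 72057594037927936) (nat_lit 18446744073709551616) (nat_lit 7) (nat_lit 0)) .nil)))) (.cons (.br (nat_lit 8) (nat_lit 0) (.cons (.rf (nat_lit 269) (nat_lit 14242958458981812256)) (.cons (.rf (nat_lit 271) (nat_lit 14242958458981812256)) (.cons (.kr (nat_lit 72057594037927936) (nat_lit 18446744073709551616) (nat_lit 7) (nat_lit 0)) .nil)))) .nil))))) .nil)))),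
 (.br (nat_lit 11) (nat_lit 1) (.cons (.br (nat_lit 12) (nat_lit 1) (.cons (.br (nat_lit 7) (nat_lit 0) (.cons (.rf (nat_lit 269) (nat_lit 14242959524133701664)) (.cons (.rf (nat_lit 271) (nat_lit 14242959524133701664)) (.cons (.rf (nat_lit 272) (nat_lit 14242959524133701664)) (.cons (.br (nat_lit 7) (nat_lit 0) (.cons (.rf (nat_lit 269) (nat_lit 14242959524133701664)) (.cons (.rf (nat_lit 271) (nat_lit 14242959524133701664)) (.cons (.rf (nat_lit 272) (nat_lit 14242959524133701664)) .nil)))) .nil))))) .nil)) .nil)),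
 (.br (nat_lit 5) (nat_lit 1) (.cons (.rf (nat_lit 262) (nat_lit 9043225708576)) (.cons (.rf (nat_lit 262) (nat_lit 7978073819168)) (.cons (.br (nat_lit 9) (nat_lit 1) (.cons (.br (nat_lit 10) (nat_lit 1) (.cons (.br (nat_lit 10) (nat_lit 1) (.cons (.br (nat_lit 9) (nat_lit 1) (.cons (.rf (nat_lit 273) (nat_lit 14242959524133701664)) (.cons (.rf (nat_lit 273) (nat_lit 13126066816545818656)) .nil))) .nil)) .nil)) .nil)) .nil)))),
 (.br (nat_lit 7) (nat_lit 1) (.cons (.kr (nat_lit 256) (nat_lit 65536) (nat_lit 1) (nat_lit 0)) (.cons (.kr (nat_lit 1099511627776) (nat_lit 281474976710656) (nat_lit 5) (nat_lit 0)) (.cons (.br (nat_lit 8) (nat_lit 1) (.cons (.br (nat_lit 9) (nat_lit 1) (.cons (.br (nat_lit 9) (nat_lit 1) (.cons (.br (nat_lit 7) (nat_lit 1) (.cons (.kr (nat_lit 256) (nat_lit 65536) (nat_lit 1) (nat_lit 0)) (.cons (.kr (nat_lit 1099511627776) (nat_lit 281474976710656) (nat_lit 5) (nat_lit 0)) (.cons (.rf (nat_lit 248) (nat_lit 7983583138881)) (.cons (.rf (nat_lit 246)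 (nat_lit 351391650881)) (.cons (.rf (nat_lit 246) (nat_lit 385751389249)) .nil)))))) .nil)) .nil)) .nil)) .nil)))),
 (.br (nat_lit 7) (nat_lit 1) (.cons (.kr (nat_lit 256) (nat_lit 65536) (nat_lit 1) (nat_lit 0)) (.cons (.rf (nat_lit 275) (nat_lit 247132686368)) (.cons (.rf (nat_lit 275) (nat_lit 246092498976)) (.cons (.br (nat_lit 8) (nat_lit 1) (.cons (.br (nat_lit 9) (nat_lit 1) (.cons (.br (nat_lit 9) (nat_lit 1) (.cons (.br (nat_lit 7) (nat_lit 1) (.cons (.kr (nat_lit 256) (nat_lit 65536) (nat_lit 1) (nat_lit 0)) (.cons (.rf (nat_lit 275) (nat_lit 247132686368)) (.cons (.rf (nat_lit 275) (nat_lit 246092498976)) (.cons (.rf (nat_lit 248) (nat_lit 7983583138881)) (.cons (.rf (nat_lit 246) (nat_lit 351391650881)) (.cons (.rf (nat_lit 246) (nat_lit 385751389249)) .nil))))))) .nil)) .nil)) .nil)) .nil))))),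
 (.br (nat_lit 2) (nat_lit 0) (.cons (.br (nat_lit 2) (nat_lit 0) (.cons (.kr (nat_lit 256) (nat_lit 65536) (nat_lit 1) (nat_lit 0)) (.cons (.rf (nat_lit 274) (nat_lit 9042184505376)) (.cons (.rf (nat_lit 276) (nat_lit 318067804192)) .nil)))) (.cons (.br (nat_lit 2) (nat_lit 0) (.cons (.kr (nat_lit 256) (nat_lit 65536) (nat_lit 1) (nat_lit 0)) (.cons (.rf (nat_lit 274) (nat_lit 9042184505376)) (.cons (.rf (nat_lit 276) (nat_lit 318067836960)) .nil)))) (.cons (.rf (nat_lit 274) (nat_lit 9042184505376)) (.cons (.br (nat_lit 2) (nat_lit 0) (.cons (.rf (nat_lit 276) (nat_lit 318067804192)) (.cons (.rf (nat_lit 276) (nat_lit 318067836960)) (.cons (.rf (nat_lit 274) (nat_lit 9042184505376)) .nil)))) .nil))))),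
 (.br (nat_lit 7) (nat_lit 0) (.cons (.br (nat_lit 12) (nat_lit 1) (.cons (.kr (nat_lit 4722366764344621924608) (nat_lit 18518801667747545088) (nat_lit 1) (nat_lit 0)) (.cons (.kr (nat_lit 1208925819896104151417088) (nat_lit 18518801667747545088) (nat_lit 1) (nat_lit 0)) (.cons (.kr (nat_lit 309485009821626543701491968) (nat_lit 18518801667747545088) (nat_lit 1) (nat_lit 0)) .nil)))) (.cons (.rf (nat_lit 264) (nat_lit 455774699100818249952)) .nil))),
 (.br (nat_lit 8) (nat_lit 0) (.cons (.rf (nat_lit 278) (nat_lit 15433072044983552032)) (.cons (.br (nat_lit 6) (nat_lit 1) (.cons (.kr (nat_lit 1208925891672223212634112) (nat_lit 4740813226943354765312) (nat_lit 7) (nat_lit 0)) (.cons (.kr (nat_lit 309485009893402662762708992) (nat_lit 4740813226943354765312) (nat_lit 7) (nat_lit 0)) (.cons (.kr (nat_lit 79228162514336395187581878272) (nat_lit 4740813226943354765312) (nat_lit 7) (nat_lit 0)) .nil)))) .nil))),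
 (.br (nat_lit 7) (nat_lit 0) (.cons (.rf (nat_lit 278) (nat_lit 14242959524133701664)) (.cons (.br (nat_lit 7) (nat_lit 0) (.cons (.rf (nat_lit 278) (nat_lit 14242959524133701664)) (.cons (.rf (nat_lit 279) (nat_lit 455774704780903024672)) .nil))) (.cons (.rf (nat_lit 279) (nat_lit 455774704780903024672)) .nil)))),
 (.br (nat_lit 2) (nat_lit 0) (.cons (.kr (nat_lit 256) (nat_lit 65536) (nat_lit 1) (nat_lit 0)) (.cons (.rf (nat_lit 274) (nat_lit 9042184505376)) (.cons (.br (nat_lit 7) (nat_lit 0) (.cons (.rf (nat_lit 277) (nat_lit 2239930474720)) (.cons (.rf (nat_lit 277) (nat_lit 2237785088224)) (.cons (.rf (nat_lit 280) (nat_lit 15433072044983552032)) .nil)))) .nil)))),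
 (.br (nat_lit 6) (nat_lit 1) (.cons (.kr (nat_lit 281474976710912) (nat_lit 72057598332895232) (nat_lit 1) (nat_lit 0)) (.cons (.rf (nat_lit 281) (nat_lit 14242958457940609056)) (.cons (.rf (nat_lit 281) (nat_lit 14241867742405855264)) (.cons (.rf (nat_lit 281) (nat_lit 14205874129758980128)) (.cons (.rf (nat_lit 281) (nat_lit 13052987809524221984)) .nil)))))),
 (.br (nat_lit 2) (nat_lit 0) (.cons (.kr (nat_lit 256) (nat_lit 65536) (nat_lit 1) (nat_lit 0)) (.cons (.rf (nat_lit 274) (nat_lit 9042184505376)) (.cons (.br (nat_lit 7) (nat_lit 0) (.cons (.br (nat_lit 8) (nat_lit 0) (.cons (.rf (nat_lit 282) (nat_lit 493858305440582043680)) (.cons (.br (nat_lit 8) (nat_lit 0) (.cons (.rf (nat_lit 282) (nat_lit 493858305440582043680)) .nil)) .nil))) (.cons (.rf (nat_lit 277) (nat_lit 2236743885024)) (.cons (.rf (nat_lit 280) (nat_lit 15433072044982536224)) .nil)))) .nil)))),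
 (.br (nat_lit 11) (nat_lit 1) (.cons (.br (nat_lit 12) (nat_lit 1) (.cons (.br (nat_lit 2) (nat_lit 0) (.cons (.rf (nat_lit 281) (nat_lit 14242959524133701664)) (.cons (.rf (nat_lit 283) (nat_lit 14242959524133701664)) (.cons (.rf (nat_lit 274) (nat_lit 9042184505376)) (.cons (.br (nat_lit 2) (nat_lit 0) (.cons (.rf (nat_lit 281) (nat_lit 14242959524133701664)) (.cons (.rf (nat_lit 283) (nat_lit 14242959524133701664)) (.cons (.rf (nat_lit 274) (nat_lit 9042184505376)) .nil)))) .nil))))) .nil)) .nil)),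
 (.br (nat_lit 5) (nat_lit 1) (.cons (.rf (nat_lit 274) (nat_lit 9043225708576)) (.cons (.rf (nat_lit 277) (nat_lit 9043225708576)) (.cons (.br (nat_lit 9) (nat_lit 1) (.cons (.br (nat_lit 10) (nat_lit 1) (.cons (.br (nat_lit 10) (nat_lit 1) (.cons (.br (nat_lit 9) (nat_lit 1) (.cons (.rf (nat_lit 284) (nat_lit 14242959524133701664)) (.cons (.rf (nat_lit 284) (nat_lit 13126066816545818656)) .nil))) .nil)) .nil)) .nil)) .nil)))),
 (.br (nat_lit 11) (nat_lit 1) (.cons (.br (nat_lit 12) (nat_lit 1) (.cons (.br (nat_lit 5) (nat_lit 1) (.cons (.rf (nat_lit 274) (nat_lit 9043225708576)) (.cons (.rf (nat_lit 285) (nat_lit 9043225708576)) (.cons (.rf (nat_lit 285) (nat_lit 7978073819168)) (.cons (.kr (nat_lit 4722366482869645213696) (nat_lit 1208925819614629174706176) (nat_lit 9) (nat_lit 0)) (.cons (.kr (nat_lit 4722366482869645213696) (nat_lit 309485009821345068724781056) (nat_lit 9) (nat_lit 0)) (.cons (.kr (nat_lit 4722366482869645213696) (nat_lit 79228162514264337593543950336)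 (nat_lit 9) (nat_lit 0)) .nil))))))) .nil)) .nil))]

theorem c6 : chkAll C T R L6 (nat_lit 255) = true := by decide +kernel

theorem l6 : (nat_lit 255) + L6.length = (nat_lit 287) := by decide +kernel

/-- part of the certificates -/
def L7 : List Prf := [(.br (nat_lit 5) (nat_lit 1) (.cons (.rf (nat_lit 274) (nat_lit 9043225708576)) (.cons (.rf (nat_lit 285) (nat_lit 9043225708576)) (.cons (.rf (nat_lit 285) (nat_lit 7978073819168)) (.cons (.br (nat_lit 9) (nat_lit 1) (.cons (.br (nat_lit 10) (nat_lit 1) (.cons (.br (nat_lit 10) (nat_lit 1) (.cons (.br (nat_lit 9) (nat_lit 1) (.cons (.rf (nat_lit 286) (nat_lit 14242959524133701664)) (.cons (.rf (nat_lit 286) (nat_lit 13126066816545818656)) .nil))) .nil)) .nil)) .nil)) .nil))))),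
 (.br (nat_lit 5) (nat_lit 1) (.cons (.rf (nat_lit 247) (nat_lit 7978041313312)) (.cons (.ev (nat_lit 18446745177516212481) (nat_lit 1)) (.cons (.rf (nat_lit 250) (nat_lit 324637390112800)) .nil)))),
 (.br (nat_lit 4) (nat_lit 1) (.cons (.ev (nat_lit 72057598349738241) (nat_lit 1)) (.cons (.rf (nat_lit 288) (nat_lit 9043225708576)) (.cons (.br (nat_lit 8) (nat_lit 0) (.cons (.ev (nat_lit 1099528405249) (nat_lit 1)) (.cons (.rf (nat_lit 250) (nat_lit 325701433754688)) (.cons (.br (nat_lit 8) (nat_lit 0) (.cons (.ev (nat_lit 1099528405249) (nat_lit 1)) (.cons (.rf (nat_lit 250) (nat_lit 325701433754688)) .nil))) .nil)))) .nil)))),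
 (.br (nat_lit 5) (nat_lit 1) (.cons (.kr (nat_lit 4722438540463683141888) (nat_lit 1208925819896104151482368) (nat_lit 1) (nat_lit 0)) (.cons (.kr (nat_lit 4722438540463683141888) (nat_lit 309485009821626543701557248) (nat_lit 1) (nat_lit 0)) (.cons (.kr (nat_lit 4722438540463683141888) (nat_lit 79228162514264619068520726528) (nat_lit 1) (nat_lit 0)) .nil)))),
 (.br (nat_lit 4) (nat_lit 1) (.cons (.rf (nat_lit 267) (nat_lit 347474464236777867296)) (.cons (.rf (nat_lit 267) (nat_lit 347473373521243113504)) (.cons (.rf (nat_lit 267) (nat_lit 347437379908596238368)) (.cons (.rf (nat_lit 267) (nat_lit 346284493588361480224)) .nil))))),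
 (.br (nat_lit 8) (nat_lit 0) (.cons (.rf (nat_lit 290) (nat_lit 15433072044983552032)) (.cons (.ev (nat_lit 1099528405249) (nat_lit 1)) (.cons (.rf (nat_lit 291) (nat_lit 493858305440582043680)) .nil)))),
 (.br (nat_lit 3) (nat_lit 1) (.cons (.rf (nat_lit 259) (nat_lit 347474464236777867296)) (.cons (.rf (nat_lit 259) (nat_lit 347473373521243113504)) (.cons (.rf (nat_lit 259) (nat_lit 347437379908596238368)) (.cons (.rf (nat_lit 259) (nat_lit 346284493588361480224)) .nil))))),
 (.br (nat_lit 12) (nat_lit 1) (.cons (.br (nat_lit 13) (nat_lit 1) (.cons (.br (nat_lit 7) (nat_lit 0) (.cons (.rf (nat_lit 292) (nat_lit 493858305440582043680)) (.cons (.br (nat_lit 8) (nat_lit 0) (.cons (.rf (nat_lit 290) (nat_lit 15433072011697555488)) (.cons (.rf (nat_lit 290) (nat_lit 15433072011630512160)) (.cons (.rf (nat_lit 293) (nat_lit 493858305440582043680)) .nil)))) (.cons (.rf (nat_lit 292) (nat_lit 493858305440515000352)) (.cons (.br (nat_lit 8) (nat_lit 0) (.cons (.rf (nat_lit 291) (nat_lit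 493858304375430154272)) (.cons (.rf (nat_lit 293) (nat_lit 493858304375430154272)) (.cons (.rf (nat_lit 291) (nat_lit 493858304375363110944)) (.cons (.kr (nat_lit 72057594037927936) (nat_lit 18446744073709551616) (nat_lit 7) (nat_lit 0)) .nil))))) .nil))))) .nil)) .nil)),
 (.br (nat_lit 9) (nat_lit 1) (.cons (.br (nat_lit 10) (nat_lit 1) (.cons (.br (nat_lit 11) (nat_lit 1) (.cons (.br (nat_lit 11) (nat_lit 1) (.cons (.br (nat_lit 10) (nat_lit 1) (.cons (.rf (nat_lit 294) (nat_lit 493858305440582043680)) (.cons (.rf (nat_lit 294) (nat_lit 458117738797769787424)) .nil))) .nil)) .nil)) .nil)) .nil)),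
 (.br (nat_lit 9) (nat_lit 1) (.cons (.rf (nat_lit 295) (nat_lit 325702574508064)) (.cons (.br (nat_lit 10) (nat_lit 1) (.cons (.br (nat_lit 11) (nat_lit 1) (.cons (.br (nat_lit 11) (nat_lit 1) (.cons (.br (nat_lit 9) (nat_lit 1) (.cons (.rf (nat_lit 295) (nat_lit 325702574508064)) (.cons (.rf (nat_lit 248) (nat_lit 10253542628417)) (.cons (.rf (nat_lit 246) (nat_lit 422327884865)) (.cons (.rf (nat_lit 246) (nat_lit 456687623233)) .nil))))) .nil)) .nil)) .nil)) .nil))),
 (.br (nat_lit 2) (nat_lit 0) (.cons (.rf (nat_lit 287) (nat_lit 9043225707584)) (.cons (.rf (nat_lit 287) (nat_lit 9040039117888)) (.cons (.br (nat_lit 7) (nat_lit 0) (.cons (.rf (nat_lit 289) (nat_lit 9043225708576)) (.cons (.rf (nat_lit 289) (nat_lit 9042184504384)) (.cons (.rf (nat_lit 289) (nat_lit 9043158665248)) (.cons (.rf (nat_lit 289) (nat_lit 9042117461056)) (.cons (.br (nat_lit 7) (nat_lit 0) (.cons (.rf (nat_lit 289) (nat_lit 9043225708576)) (.cons (.rf (nat_lit 289) (nat_lit 9042184504384)) (.cons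 (.rf (nat_lit 289) (nat_lit 9043158665248)) (.cons (.rf (nat_lit 289) (nat_lit 9042117461056)) .nil))))) .nil)))))) (.cons (.br (nat_lit 9) (nat_lit 1) (.cons (.rf (nat_lit 296) (nat_lit 325702574508064)) (.cons (.rf (nat_lit 296) (nat_lit 324637422618656)) (.cons (.br (nat_lit 10) (nat_lit 1) (.cons (.br (nat_lit 11) (nat_lit 1) (.cons (.br (nat_lit 11) (nat_lit 1) (.cons (.br (nat_lit 9) (nat_lit 1) (.cons (.rf (nat_lit 296) (nat_lit 325702574508064)) (.cons (.rf (nat_lit 296) (nat_lit 324637422618656)) (.cons (.rf (nat_lit 248) (nat_lit 10253542628417)) (.cons (.rf (nat_lit 246) (nat_lit 422327884865)) (.cons (.rf (nat_lit 246) (nat_lit 456687623233)) .nil)))))) .nil)) .nil)) .nil)) .nil)))) .nil))))),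
 (.br (nat_lit 2) (nat_lit 0) (.cons (.kr (nat_lit 256) (nat_lit 65536) (nat_lit 1) (nat_lit 0)) (.cons (.rf (nat_lit 287) (nat_lit 9041080321088)) (.cons (.rf (nat_lit 276) (nat_lit 318066755616)) .nil)))),
 (.br (nat_lit 2) (nat_lit 0) (.cons (.rf (nat_lit 298) (nat_lit 9043225708576)) (.cons (.rf (nat_lit 298) (nat_lit 9043158665248)) (.cons (.rf (nat_lit 297) (nat_lit 9041080322080)) (.cons (.br (nat_lit 2) (nat_lit 0) (.cons (.rf (nat_lit 276) (nat_lit 318066755616)) (.cons (.rf (nat_lit 276) (nat_lit 318066821152)) (.cons (.rf (nat_lit 297) (nat_lit 9041080322080)) .nil)))) .nil))))),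
 (.br (nat_lit 2) (nat_lit 0) (.cons (.kr (nat_lit 256) (nat_lit 65536) (nat_lit 1) (nat_lit 0)) (.cons (.rf (nat_lit 287) (nat_lit 9041080321088)) (.cons (.rf (nat_lit 280) (nat_lit 15433072044951046176)) .nil)))),
 (.br (nat_lit 11) (nat_lit 1) (.cons (.br (nat_lit 12) (nat_lit 1) (.cons (.br (nat_lit 7) (nat_lit 0) (.cons (.rf (nat_lit 287) (nat_lit 2239997518048)) (.cons (.rf (nat_lit 287) (nat_lit 2236810928352)) (.cons (.br (nat_lit 2) (nat_lit 0) (.cons (.rf (nat_lit 299) (nat_lit 2238956314848)) (.cons (.rf (nat_lit 299) (nat_lit 2236810928352)) (.cons (.rf (nat_lit 297) (nat_lit 9041080322080)) (.cons (.br (nat_lit 2) (nat_lit 0) (.cons (.rf (nat_lit 299) (nat_lit 2238956314848)) (.cons (.rf (nat_lit 299) (nat_lit 2236810928352)) (.cons (.rf (nat_lit 297) (nat_lit 9041080322080)) .nil)))) .nil))))) (.cons (.br (nat_lit 2) (nat_lit 0) (.cons (.rf (nat_lit 300) (nat_lit 493858305440582043680)) (.cons (.rf (nat_lit 300) (nat_lit 493858305440515000352)) (.cons (.rf (nat_lit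 297) (nat_lit 9041080322080)) (.cons (.br (nat_lit 2) (nat_lit 0) (.cons (.rf (nat_lit 280) (nat_lit 15433072044951046176)) (.cons (.rf (nat_lit 280) (nat_lit 15433072044949014560)) (.cons (.rf (nat_lit 297) (nat_lit 9041080322080)) .nil)))) .nil))))) .nil))))) .nil)) .nil)),
 (.br (nat_lit 4) (nat_lit 1) (.cons (.rf (nat_lit 297) (nat_lit 9043225708576)) (.cons (.rf (nat_lit 299) (nat_lit 9043225708576)) (.cons (.br (nat_lit 9) (nat_lit 1) (.cons (.br (nat_lit 10) (nat_lit 1) (.cons (.br (nat_lit 10) (nat_lit 1) (.cons (.br (nat_lit 9) (nat_lit 1) (.cons (.rf (nat_lit 301) (nat_lit 14242959524133701664)) (.cons (.rf (nat_lit 301) (nat_lit 13126066816545818656)) .nil))) .nil)) .nil)) .nil)) .nil)))),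
 (.br (nat_lit 11) (nat_lit 1) (.cons (.br (nat_lit 12) (nat_lit 1) (.cons (.br (nat_lit 4) (nat_lit 1) (.cons (.rf (nat_lit 297) (nat_lit 9043225708576)) (.cons (.rf (nat_lit 302) (nat_lit 9043225708576)) (.cons (.rf (nat_lit 302) (nat_lit 7978073819168)) (.cons (.kr (nat_lit 4722366482869645213696) (nat_lit 1208925819614629174706176) (nat_lit 9) (nat_lit 0)) (.cons (.kr (nat_lit 4722366482869645213696) (nat_lit 309485009821345068724781056) (nat_lit 9) (nat_lit 0)) (.cons (.kr (nat_lit 4722366482869645213696) (nat_lit 79228162514264337593543950336) (nat_lit 9) (nat_lit 0)) .nil))))))) .nil)) .nil)),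
 (.br (nat_lit 4) (nat_lit 1) (.cons (.rf (nat_lit 297) (nat_lit 9043225708576)) (.cons (.rf (nat_lit 302) (nat_lit 9043225708576)) (.cons (.rf (nat_lit 302) (nat_lit 7978073819168)) (.cons (.br (nat_lit 9) (nat_lit 1) (.cons (.br (nat_lit 10) (nat_lit 1) (.cons (.br (nat_lit 10) (nat_lit 1) (.cons (.br (nat_lit 9) (nat_lit 1) (.cons (.rf (nat_lit 303) (nat_lit 14242959524133701664)) (.cons (.rf (nat_lit 303) (nat_lit 13126066816545818656)) .nil))) .nil)) .nil)) .nil)) .nil))))),
 (.br (nat_lit 4) (nat_lit 1) (.cons (.kr (nat_lit 1208925819896104151417088) (nat_lit 4722438540463683207168) (nat_lit 1) (nat_lit 0)) (.cons (.kr (nat_lit 309485009821626543701491968) (nat_lit 4722438540463683207168) (nat_lit 1) (nat_lit 0)) (.cons (.kr (nat_lit 79228162514264619068520661248) (nat_lit 4722438540463683207168) (nat_lit 1) (nat_lit 0)) .nil)))),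
 (.br (nat_lit 11) (nat_lit 1) (.cons (.br (nat_lit 12) (nat_lit 1) (.cons (.br (nat_lit 7) (nat_lit 0) (.cons (.rf (nat_lit 305) (nat_lit 14242959524133701664)) (.cons (.rf (nat_lit 305) (nat_lit 14242959524132684864)) (.cons (.br (nat_lit 13) (nat_lit 1) (.cons (.kr (nat_lit 1208925819896104151416832) (nat_lit 4722438540463683141632) (nat_lit 6) (nat_lit 0)) (.cons (.kr (nat_lit 309485009821626543701491712) (nat_lit 4722438540463683141632) (nat_lit 6) (nat_lit 0)) (.cons (.kr (nat_lit 79228162514264619068520660992) (nat_lit 4722438540463683141632) (nat_lit 6) (nat_lit 0)) .nil)))) .nil)))) .nil)) .nil)),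
 (.br (nat_lit 5) (nat_lit 1) (.cons (.kr (nat_lit 281474976710656) (nat_lit 72057594037927936) (nat_lit 6) (nat_lit 0)) (.cons (.br (nat_lit 9) (nat_lit 1) (.cons (.br (nat_lit 10) (nat_lit 1) (.cons (.br (nat_lit 10) (nat_lit 1) (.cons (.br (nat_lit 9) (nat_lit 1) (.cons (.rf (nat_lit 306) (nat_lit 14242959524133701664)) (.cons (.rf (nat_lit 306) (nat_lit 13126066816545818656)) .nil))) .nil)) .nil)) .nil)) .nil))),
 (.br (nat_lit 11) (nat_lit 1) (.cons (.br (nat_lit 12) (nat_lit 1) (.cons (.br (nat_lit 5) (nat_lit 1) (.cons (.rf (nat_lit 307) (nat_lit 9043225708576)) (.cons (.rf (nat_lit 307) (nat_lit 9009939712032)) (.cons (.kr (nat_lit 4722366482869645213696) (nat_lit 1208925819614629174706176) (nat_lit 9) (nat_lit 0)) (.cons (.kr (nat_lit 4722366482869645213696) (nat_lit 309485009821345068724781056) (nat_lit 9) (nat_lit 0)) (.cons (.kr (nat_lit 4722366482869645213696) (nat_lit 79228162514264337593543950336) (nat_lit 9) (nat_lit 0)) .nil)))))) .nil)) .nil)),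
 (.br (nat_lit 5) (nat_lit 1) (.cons (.rf (nat_lit 307) (nat_lit 9043225708576)) (.cons (.rf (nat_lit 307) (nat_lit 9009939712032)) (.cons (.br (nat_lit 9) (nat_lit 1) (.cons (.br (nat_lit 10) (nat_lit 1) (.cons (.br (nat_lit 10) (nat_lit 1) (.cons (.br (nat_lit 9) (nat_lit 1) (.cons (.rf (nat_lit 308) (nat_lit 14242959524133701664)) (.cons (.rf (nat_lit 308) (nat_lit 13126066816545818656)) .nil))) .nil)) .nil)) .nil)) .nil)))),
 (.br (nat_lit 8) (nat_lit 0) (.cons (.rf (nat_lit 287) (nat_lit 2239997517056)) (.cons (.rf (nat_lit 304) (nat_lit 2239997517056)) (.cons (.rf (nat_lit 287) (nat_lit 2237852130560)) .nil)))),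
 (.br (nat_lit 8) (nat_lit 0) (.cons (.rf (nat_lit 310) (nat_lit 11584701642934304)) (.cons (.rf (nat_lit 310) (nat_lit 11584700601731104)) (.cons (.rf (nat_lit 310) (nat_lit 11584701575890976)) (.cons (.rf (nat_lit 310) (nat_lit 11584700534687776)) .nil))))),
 (.br (nat_lit 9) (nat_lit 1) (.cons (.br (nat_lit 2) (nat_lit 0) (.cons (.kr (nat_lit 256) (nat_lit 65536) (nat_lit 1) (nat_lit 0)) (.cons (.rf (nat_lit 309) (nat_lit 10178170816544)) (.cons (.rf (nat_lit 309) (nat_lit 10178138310688)) (.cons (.rf (nat_lit 309) (nat_lit 10178139359264)) .nil))))) (.cons (.rf (nat_lit 311) (nat_lit 11584701642934304)) .nil))),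
 (.br (nat_lit 9) (nat_lit 1) (.cons (.rf (nat_lit 312) (nat_lit 325702574508064)) (.cons (.rf (nat_lit 312) (nat_lit 324637422618656)) (.cons (.br (nat_lit 10) (nat_lit 1) (.cons (.br (nat_lit 11) (nat_lit 1) (.cons (.br (nat_lit 11) (nat_lit 1) (.cons (.br (nat_lit 9) (nat_lit 1) (.cons (.rf (nat_lit 312) (nat_lit 325702574508064)) (.cons (.rf (nat_lit 312) (nat_lit 324637422618656)) (.cons (.rf (nat_lit 248) (nat_lit 10253542628417)) (.cons (.rf (nat_lit 246) (nat_lit 422327884865)) (.cons (.rf (nat_lit 246) (nat_lit 456687623233)) .nil)))))) .nil)) .nil)) .nil)) .nil)))),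
 (.br (nat_lit 7) (nat_lit 0) (.cons (.rf (nat_lit 313) (nat_lit 318899346317536)) (.cons (.rf (nat_lit 313) (nat_lit 318898305114336)) (.cons (.rf (nat_lit 313) (nat_lit 318899279274208)) (.cons (.rf (nat_lit 313) (nat_lit 318898238071008)) .nil))))),
 (.br (nat_lit 9) (nat_lit 1) (.cons (.rf (nat_lit 314) (nat_lit 318899346317536)) (.cons (.rf (nat_lit 314) (nat_lit 325702574508064)) (.cons (.br (nat_lit 10) (nat_lit 1) (.cons (.br (nat_lit 11) (nat_lit 1) (.cons (.br (nat_lit 11) (nat_lit 1) (.cons (.br (nat_lit 9) (nat_lit 1) (.cons (.rf (nat_lit 314) (nat_lit 318899346317536)) (.cons (.rf (nat_lit 314) (nat_lit 325702574508064)) (.cons (.rf (nat_lit 248) (nat_lit 10253542628417)) (.cons (.rf (nat_lit 246) (nat_lit 422327884865)) (.cons (.rf (nat_lit 246) (nat_lit 456687623233)) .nil)))))) .nil)) .nil)) .nil)) .nil)))),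
 (.br (nat_lit 12) (nat_lit 0) (.cons (.kr (nat_lit 309489750634572012079546624) (nat_lit 79229371440156009816756649984) (nat_lit 1) (nat_lit 0)) .nil)),
 (.br (nat_lit 6) (nat_lit 1) (.cons (.rf (nat_lit 316) (nat_lit 493858305440582043680)) (.cons (.rf (nat_lit 316) (nat_lit 492741412732994160672)) .nil))),
 (.br (nat_lit 10) (nat_lit 0) (.cons (.kr (nat_lit 4740813226943354765568) (nat_lit 1208925891672223212699648) (nat_lit 1) (nat_lit 0)) (.cons (.rf (nat_lit 317) (nat_lit 493857213659862893632)) .nil))),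
 (.br (nat_lit 12) (nat_lit 0) (.cons (.kr (nat_lit 79228167255077564536898715904) (nat_lit 310693935713017291937480704) (nat_lit 1) (nat_lit 0)) .nil)),
 (.br (nat_lit 10) (nat_lit 0) (.cons (.kr (nat_lit 4740813226943354765568) (nat_lit 1208925891672223212699648) (nat_lit 1) (nat_lit 0)) (.cons (.br (nat_lit 6) (nat_lit 1) (.cons (.rf (nat_lit 319) (nat_lit 493858305440582043680)) (.cons (.rf (nat_lit 319) (nat_lit 492741412732994160672)) .nil))) .nil))),
 (.br (nat_lit 8) (nat_lit 0) (.cons (.br (nat_lit 9) (nat_lit 0) (.cons (.kr (nat_lit 18518801667747479808) (nat_lit 4722366764344621989888) (nat_lit 1) (nat_lit 0)) (.cons (.rf (nat_lit 320) (nat_lit 455773613000183874624)) .nil))) (.cons (.rf (nat_lit 320) (nat_lit 455774704780903024672)) .nil))),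
 (.br (nat_lit 7) (nat_lit 0) (.cons (.br (nat_lit 8) (nat_lit 0) (.cons (.br (nat_lit 9) (nat_lit 0) (.cons (.br (nat_lit 13) (nat_lit 1) (.cons (.kr (nat_lit 4740813226943354765568) (nat_lit 1208925891672223212699648) (nat_lit 1) (nat_lit 0)) (.cons (.zr (nat_lit 14222439680830064296704) (nat_lit 928455029464317784974426113) (nat_lit 5) (nat_lit 0)) (.cons (.zr (nat_lit 14222439680830064296704) (nat_lit 237684487542793295359431933953) (nat_lit 5) (nat_lit 0)) .nil)))) .nil)) (.cons (.br (nat_lit 9) (nat_lit 0) (.cons (.br (nat_lit 13) (nat_lit 1) (.cons (.kr (nat_lit 4740813226943354765568) (nat_lit 1208925891672223212699648) (nat_lit 1) (nat_lit 0)) (.cons (.zr (nat_lit 9481698511480747524608) (nat_lit 618970019642972716249645057) (nat_lit 5) (nat_lit 0)) (.cons (.zr (nat_lit 9481698511480747524608) (nat_lit 158456325028528957765887983617) (nat_lit 5) (nat_lit 0)) .nil)))) (.cons (.br (nat_lit 10) (nat_lit 0) (.cons (.br (nat_lit 13) (nat_lit 1) (.cons (.ev (nat_lit 620202575814648890118308612)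 (nat_lit 3)) (.cons (.ev (nat_lit 158457557584700633939756647172) (nat_lit 3)) .nil))) (.cons (.rf (nat_lit 318) (nat_lit 493857213659862893632)) .nil))) .nil))) .nil))) (.cons (.br (nat_lit 8) (nat_lit 0) (.cons (.br (nat_lit 9) (nat_lit 0) (.cons (.br (nat_lit 10) (nat_lit 0) (.cons (.br (nat_lit 13) (nat_lit 1) (.cons (.ev (nat_lit 620202649889855561107965700) (nat_lit 3)) (.cons (.ev (nat_lit 158457557658775840610746304260) (nat_lit 3)) .nil))) .nil)) (.cons (.rf (nat_lit 318) (nat_lit 493858305440582043680)) .nil))) (.cons (.rf (nat_lit 321) (nat_lit 15433072044983552032)) .nil))) .nil))),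
 (.br (nat_lit 12) (nat_lit 0) (.cons (.ev (nat_lit 20282410812577562377645457408001) (nat_lit 1)) .nil)),
 (.br (nat_lit 6) (nat_lit 1) (.cons (.rf (nat_lit 323) (nat_lit 493858305440582043680)) (.cons (.rf (nat_lit 323) (nat_lit 492741412732994160672)) .nil))),
 (.br (nat_lit 12) (nat_lit 0) (.cons (.ev (nat_lit 79537647542532427839784878081) (nat_lit 1)) (.cons (.kr (nat_lit 309485009821345068724781056) (nat_lit 79228162514264337593543950336) (nat_lit 11) (nat_lit 0)) .nil))),
 (.br (nat_lit 12) (nat_lit 0) (.cons (.kr (nat_lit 309489750634572012079546624) (nat_lit 79229371440156009816756649984) (nat_lit 1) (nat_lit 0)) .nil)),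
 (.br (nat_lit 5) (nat_lit 1) (.cons (.rf (nat_lit 326) (nat_lit 493858305440582043680)) (.cons (.rf (nat_lit 326) (nat_lit 492741412732994160672)) .nil)))]

theorem c7 : chkAll C T R L7 (nat_lit 287) = true := by decide +kernel

theorem l7 : (nat_lit 287) + L7.length = (nat_lit 328) := by decide +kernel

/-- part of the certificates -/
def L8 : List Prf := [(.br (nat_lit 12) (nat_lit 0) (.cons (.kr (nat_lit 79228167255077564536898715904) (nat_lit 310693935713017291937480704) (nat_lit 1) (nat_lit 0)) .nil)),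
 (.br (nat_lit 10) (nat_lit 0) (.cons (.kr (nat_lit 4740813226943354765568) (nat_lit 1208925891672223212699648) (nat_lit 1) (nat_lit 0)) (.cons (.br (nat_lit 6) (nat_lit 1) (.cons (.rf (nat_lit 328) (nat_lit 493858305440582043680)) (.cons (.rf (nat_lit 328) (nat_lit 492741412732994160672)) .nil))) .nil))),
 (.br (nat_lit 12) (nat_lit 0) (.cons (.ev (nat_lit 20361638979814193198108646572033) (nat_lit 1)) .nil)),
 (.br (nat_lit 6) (nat_lit 1) (.cons (.br (nat_lit 12) (nat_lit 0) (.cons (.kr (nat_lit 309489750634572012079546624) (nat_lit 79229371440156009816756649984) (nat_lit 1) (nat_lit 0)) .nil)) (.cons (.br (nat_lit 10) (nat_lit 0) (.cons (.kr (nat_lit 309489750634572012079546624) (nat_lit 79229371440156009816756649984) (nat_lit 1) (nat_lit 0)) .nil)) .nil))),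
 (.br (nat_lit 8) (nat_lit 0) (.cons (.rf (nat_lit 322) (nat_lit 14242959524133701664)) (.cons (.br (nat_lit 7) (nat_lit 0) (.cons (.br (nat_lit 9) (nat_lit 0) (.cons (.ev (nat_lit 72339069031415809) (nat_lit 1)) (.cons (.br (nat_lit 10) (nat_lit 0) (.cons (.br (nat_lit 11) (nat_lit 0) (.cons (.br (nat_lit 12) (nat_lit 0) (.cons (.ev (nat_lit 121695077833930570158312916452100) (nat_lit 3)) .nil)) .nil)) (.cons (.rf (nat_lit 324) (nat_lit 493858305440582043680)) .nil))) .nil))) (.cons (.br (nat_lit 9) (nat_lit 0) (.cons (.br (nat_lit 13) (nat_lit 1) (.cons (.kr (nat_lit 4740813226943354765568) (nat_lit 1208925891672223212699648) (nat_lit 1) (nat_lit 0)) (.cons (.zr (nat_lit 9481698511480747524608) (nat_lit 618970019642972716249645057) (nat_lit 5) (nat_lit 0)) (.cons (.zr (nat_lit 9481698511480747524608) (nat_lit 158456325028528957765887983617) (nat_lit 5) (nat_lit 0)) .nil)))) (.cons (.br (nat_lit 10) (nat_lit 0) (.cons (.br (nat_lit 11) (nat_lit 0) (.cons (.rf (nat_lit 325)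 (nat_lit 493858305440582043680)) .nil)) (.cons (.rf (nat_lit 327) (nat_lit 493858305440582043680)) .nil))) .nil))) (.cons (.br (nat_lit 9) (nat_lit 0) (.cons (.rf (nat_lit 329) (nat_lit 493858305440582043680)) (.cons (.br (nat_lit 10) (nat_lit 0) (.cons (.br (nat_lit 11) (nat_lit 0) (.cons (.br (nat_lit 12) (nat_lit 0) (.cons (.ev (nat_lit 40565439400508641850696849884420) (nat_lit 3)) .nil)) .nil)) (.cons (.ev (nat_lit 1213666633123047523025153) (nat_lit 1)) .nil))) (.cons (.br (nat_lit 5) (nat_lit 1) (.cons (.br (nat_lit 6) (nat_lit 1) (.cons (.rf (nat_lit 330) (nat_lit 493858305440582043680)) (.cons (.rf (nat_lit 330) (nat_lit 492741412732994160672)) .nil))) (.cons (.rf (nat_lit 331) (nat_lit 493858305440582043680)) (.cons (.rf (nat_lit 331) (nat_lit 492741412732994160672)) .nil)))) .nil)))) .nil)))) .nil))),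
 (.br (nat_lit 8) (nat_lit 0) (.cons (.rf (nat_lit 322) (nat_lit 14242959524133701664)) (.cons (.rf (nat_lit 332) (nat_lit 14242959524133701664)) (.cons (.br (nat_lit 8) (nat_lit 0) (.cons (.rf (nat_lit 322) (nat_lit 14242959524133701664)) (.cons (.rf (nat_lit 332) (nat_lit 14242959524133701664)) .nil))) .nil)))),
 (.br (nat_lit 12) (nat_lit 0) (.cons (.ev (nat_lit 79537647542532427839784878081) (nat_lit 1)) (.cons (.kr (nat_lit 309485009821345068724781056) (nat_lit 79228162514264337593543950336) (nat_lit 11) (nat_lit 0)) .nil))),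
 (.br (nat_lit 12) (nat_lit 0) (.cons (.ev (nat_lit 20361638979814193198108646572033) (nat_lit 1)) .nil)),
 (.br (nat_lit 8) (nat_lit 0) (.cons (.rf (nat_lit 333) (nat_lit 14241867743447058464)) (.cons (.br (nat_lit 7) (nat_lit 0) (.cons (.rf (nat_lit 333) (nat_lit 14242959524133701664)) (.cons (.br (nat_lit 9) (nat_lit 0) (.cons (.br (nat_lit 13) (nat_lit 1) (.cons (.kr (nat_lit 1208925891672223212634368) (nat_lit 4740813226943354830848) (nat_lit 1) (nat_lit 0)) (.cons (.zr (nat_lit 9481698511480747589888) (nat_lit 618970019642972716249645057) (nat_lit 5) (nat_lit 0)) (.cons (.zr (nat_lit 9481698511480747589888) (nat_lit 158456325028528957765887983617) (nat_lit 5) (nat_lit 0)) .nil)))) (.cons (.br (nat_lit 10) (nat_lit 0) (.cons (.br (nat_lit 11) (nat_lit 0) (.cons (.rf (nat_lit 334) (nat_lit 493858305440582043680)) .nil)) (.cons (.rf (nat_lit 327) (nat_lit 493858305440549536832)) .nil))) .nil))) (.cons (.br (nat_lit 9) (nat_lit 0) (.cons (.rf (nat_lit 329) (nat_lit 493858305440549536832))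 (.cons (.br (nat_lit 13) (nat_lit 1) (.cons (.ev (nat_lit 1213666633123047523025153) (nat_lit 1)) (.cons (.rf (nat_lit 325) (nat_lit 493857213452695773216)) (.cons (.rf (nat_lit 325) (nat_lit 492740320745107890208)) .nil)))) (.cons (.br (nat_lit 4) (nat_lit 1) (.cons (.br (nat_lit 6) (nat_lit 1) (.cons (.rf (nat_lit 335) (nat_lit 493858305440582043680)) (.cons (.rf (nat_lit 335) (nat_lit 492741412732994160672)) .nil))) (.cons (.rf (nat_lit 331) (nat_lit 493858305440549536832)) (.cons (.rf (nat_lit 331) (nat_lit 492741412732961653824)) .nil)))) .nil)))) .nil)))) .nil))),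
 (.br (nat_lit 8) (nat_lit 0) (.cons (.rf (nat_lit 333) (nat_lit 14241867743447058464)) (.cons (.rf (nat_lit 336) (nat_lit 14242959524133701664)) (.cons (.br (nat_lit 8) (nat_lit 0) (.cons (.rf (nat_lit 333) (nat_lit 14241867743447058464)) (.cons (.rf (nat_lit 336) (nat_lit 14242959524133701664)) .nil))) .nil)))),
 (.br (nat_lit 12) (nat_lit 0) (.cons (.kr (nat_lit 310693935713017291937415424) (nat_lit 79228167255077564536898781184) (nat_lit 1) (nat_lit 0)) .nil)),
 (.br (nat_lit 10) (nat_lit 0) (.cons (.kr (nat_lit 1208925891672223212634368) (nat_lit 4740813226943354830848) (nat_lit 1) (nat_lit 0)) (.cons (.br (nat_lit 5) (nat_lit 1) (.cons (.rf (nat_lit 338) (nat_lit 493858305440582043680)) (.cons (.rf (nat_lit 338) (nat_lit 492741412732994160672)) .nil))) .nil))),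
 (.br (nat_lit 9) (nat_lit 0) (.cons (.rf (nat_lit 339) (nat_lit 493858305440582043680)) (.cons (.rf (nat_lit 339) (nat_lit 493858305440549536832)) (.cons (.br (nat_lit 10) (nat_lit 0) (.cons (.rf (nat_lit 339) (nat_lit 493857213659895400480)) (.cons (.rf (nat_lit 339) (nat_lit 493857213659862893632)) (.cons (.kr (nat_lit 1208925891672223212634112) (nat_lit 4740813226943354765312) (nat_lit 7) (nat_lit 0)) .nil)))) .nil)))),
 (.br (nat_lit 7) (nat_lit 0) (.cons (.rf (nat_lit 333) (nat_lit 14242959524133701664)) (.cons (.rf (nat_lit 337) (nat_lit 14242959524133701664)) (.cons (.br (nat_lit 8) (nat_lit 0) (.cons (.rf (nat_lit 333) (nat_lit 14241867743447058464)) (.cons (.rf (nat_lit 337) (nat_lit 14241867743447058464)) (.cons (.br (nat_lit 8) (nat_lit 0) (.cons (.rf (nat_lit 333) (nat_lit 14241867743447058464)) (.cons (.rf (nat_lit 337) (nat_lit 14241867743447058464)) (.cons (.rf (nat_lit 340) (nat_lit 493858305440582043680)) .nil)))) (.cons (.br (nat_lit 8) (nat_lit 0) (.cons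 (.rf (nat_lit 333) (nat_lit 14241867743447058464)) (.cons (.rf (nat_lit 337) (nat_lit 14241867743447058464)) (.cons (.rf (nat_lit 340) (nat_lit 493858305440582043680)) .nil)))) .nil))))) .nil)))),
 (.br (nat_lit 11) (nat_lit 0) (.cons (.br (nat_lit 12) (nat_lit 0) (.cons (.kr (nat_lit 309485009821345068724781056) (nat_lit 79228162514264337593543950336) (nat_lit 11) (nat_lit 0)) .nil)) .nil)),
 (.br (nat_lit 12) (nat_lit 0) (.cons (.ev (nat_lit 20282719088661564108089285672961) (nat_lit 1)) .nil)),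
 (.br (nat_lit 10) (nat_lit 0) (.cons (.rf (nat_lit 342) (nat_lit 14242959524133701664)) (.cons (.br (nat_lit 6) (nat_lit 1) (.cons (.rf (nat_lit 343) (nat_lit 493858305440582043680)) (.cons (.rf (nat_lit 343) (nat_lit 492741412732994160672)) .nil))) .nil))),
 (.br (nat_lit 8) (nat_lit 0) (.cons (.br (nat_lit 7) (nat_lit 0) (.cons (.zr (nat_lit 2199040033536) (nat_lit 281479271809025) (nat_lit 5) (nat_lit 4)) (.cons (.br (nat_lit 9) (nat_lit 0) (.cons (.br (nat_lit 10) (nat_lit 0) (.cons (.br (nat_lit 13) (nat_lit 1) (.cons (.zr (nat_lit 1213666704899166567531008) (nat_lit 618970019642971616754794497) (nat_lit 5) (nat_lit 0)) (.cons (.zr (nat_lit 1213666704899166567531008) (nat_lit 158456325028528956666393133057) (nat_lit 5) (nat_lit 0)) .nil))) .nil)) (.cons (.rf (nat_lit 318) (nat_lit 493858305439541856288)) .nil))) .nil))) (.cons (.br (nat_lit 7) (nat_lit 0) (.cons (.br (nat_lit 9) (nat_lit 0) (.cons (.zr (nat_lit 72058693583110656) (nat_lit 281479271809025) (nat_lit 5) (nat_lit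 4)) (.cons (.br (nat_lit 10) (nat_lit 0) (.cons (.br (nat_lit 13) (nat_lit 1) (.cons (.kr (nat_lit 618970019642692336472883456) (nat_lit 1213666704899166600953856) (nat_lit 1) (nat_lit 0)) (.cons (.kr (nat_lit 158456325028528677386111222016) (nat_lit 1213666704899166600953856) (nat_lit 1) (nat_lit 0)) .nil))) (.cons (.rf (nat_lit 327) (nat_lit 493858305439541856288)) .nil))) .nil))) (.cons (.br (nat_lit 9) (nat_lit 0) (.cons (.br (nat_lit 11) (nat_lit 0) (.cons (.ev (nat_lit 309489750634853491351290113) (nat_lit 1)) .nil)) (.cons (.br (nat_lit 5) (nat_lit 1) (.cons (.kr (nat_lit 4722366485068668535040) (nat_lit 1208944338416296955740160) (nat_lit 1) (nat_lit 0)) (.cons (.ev (nat_lit 309489750634853491351290113) (nat_lit 1)) (.cons (.ev (nat_lit 79228167255077846016170459393) (nat_lit 1)) .nil)))) .nil))) (.cons (.br (nat_lit 9) (nat_lit 0) (.cons (.rf (nat_lit 344) (nat_lit 493858305440582043680)) (.cons (.rf (nat_lit 329) (nat_lit 493858305439541856288)) (.cons (.br (nat_lit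 6) (nat_lit 1) (.cons (.ev (nat_lit 1213648258436572129525761) (nat_lit 1)) (.cons (.rf (nat_lit 331) (nat_lit 493858305439541856288)) (.cons (.rf (nat_lit 331) (nat_lit 492741412731953973280)) .nil)))) .nil)))) .nil)))) .nil))),
 (.br (nat_lit 7) (nat_lit 0) (.cons (.rf (nat_lit 345) (nat_lit 14241867741301670976)) (.cons (.br (nat_lit 8) (nat_lit 0) (.cons (.rf (nat_lit 345) (nat_lit 14242959524133701664)) (.cons (.rf (nat_lit 321) (nat_lit 15433072045017106464)) .nil))) .nil))),
 (.br (nat_lit 8) (nat_lit 0) (.cons (.rf (nat_lit 345) (nat_lit 14242959524133701664)) (.cons (.rf (nat_lit 346) (nat_lit 14242959524133701664)) (.cons (.br (nat_lit 8) (nat_lit 0) (.cons (.rf (nat_lit 345) (nat_lit 14242959524133701664)) (.cons (.rf (nat_lit 346) (nat_lit 14242959524133701664)) .nil))) .nil)))),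
 (.br (nat_lit 8) (nat_lit 0) (.cons (.rf (nat_lit 347) (nat_lit 14241867743447058464)) (.cons (.rf (nat_lit 347) (nat_lit 14241867741301670976)) (.cons (.rf (nat_lit 340) (nat_lit 493858305439541856288)) .nil)))),
 (.br (nat_lit 7) (nat_lit 0) (.cons (.rf (nat_lit 347) (nat_lit 14242959524133701664)) (.cons (.rf (nat_lit 347) (nat_lit 14242959521988314176)) (.cons (.br (nat_lit 8) (nat_lit 0) (.cons (.rf (nat_lit 347) (nat_lit 14241867743447058464)) (.cons (.rf (nat_lit 348) (nat_lit 493858305440582043680)) (.cons (.rf (nat_lit 347) (nat_lit 14241867741301670976)) (.cons (.br (nat_lit 8) (nat_lit 0) (.cons (.rf (nat_lit 347) (nat_lit 14241867743447058464)) (.cons (.rf (nat_lit 340) (nat_lit 493858305439541856288)) (.cons (.rf (nat_lit 347) (nat_lit 14241867741301670976)) .nil)))) .nil))))) .nil)))),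
 (.br (nat_lit 12) (nat_lit 0) (.cons (.kr (nat_lit 79228167255077564536898715904) (nat_lit 310693935713017291937480704) (nat_lit 1) (nat_lit 0)) .nil)),
 (.br (nat_lit 10) (nat_lit 0) (.cons (.kr (nat_lit 4740813226943354765568) (nat_lit 1208925891672223212699648) (nat_lit 1) (nat_lit 0)) (.cons (.br (nat_lit 5) (nat_lit 1) (.cons (.rf (nat_lit 350) (nat_lit 493858305440582043680)) (.cons (.rf (nat_lit 350) (nat_lit 492741412732994160672)) .nil))) .nil))),
 (.br (nat_lit 11) (nat_lit 0) (.cons (.br (nat_lit 12) (nat_lit 0) (.cons (.kr (nat_lit 309485009821345068724781056) (nat_lit 79228162514264337593543950336) (nat_lit 11) (nat_lit 0)) .nil)) .nil)),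
 (.br (nat_lit 12) (nat_lit 0) (.cons (.ev (nat_lit 20282719088661564108089285672961) (nat_lit 1)) .nil)),
 (.br (nat_lit 10) (nat_lit 0) (.cons (.rf (nat_lit 352) (nat_lit 14242959524133701664)) (.cons (.br (nat_lit 6) (nat_lit 1) (.cons (.rf (nat_lit 353) (nat_lit 493858305440582043680)) (.cons (.rf (nat_lit 353) (nat_lit 492741412732994160672)) .nil))) .nil))),
 (.br (nat_lit 12) (nat_lit 0) (.cons (.kr (nat_lit 79228167255077564536898715904) (nat_lit 310693935713017291937480704) (nat_lit 1) (nat_lit 0)) .nil)),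
 (.br (nat_lit 10) (nat_lit 0) (.cons (.rf (nat_lit 355) (nat_lit 493858305440582043680)) (.cons (.ev (nat_lit 20282719093383930309483954241536) (nat_lit 1)) .nil))),
 (.br (nat_lit 12) (nat_lit 0) (.cons (.ev (nat_lit 20282719088661564108089285672961) (nat_lit 1)) .nil)),
 (.br (nat_lit 6) (nat_lit 1) (.cons (.rf (nat_lit 357) (nat_lit 493858305440582043680)) (.cons (.rf (nat_lit 357) (nat_lit 492741412732994160672)) .nil))),
 (.br (nat_lit 6) (nat_lit 1) (.cons (.br (nat_lit 12) (nat_lit 0) (.cons (.kr (nat_lit 79228167255077564536898715904) (nat_lit 310693935713017291937480704) (nat_lit 1) (nat_lit 0)) .nil)) (.cons (.br (nat_lit 9) (nat_lit 0) (.cons (.kr (nat_lit 79228167255077564536898715904) (nat_lit 310693935713017291937480704) (nat_lit 1) (nat_lit 0)) .nil)) .nil))),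
 (.br (nat_lit 12) (nat_lit 0) (.cons (.ev (nat_lit 20361637766166007100614104842241) (nat_lit 1)) .nil)),
 (.br (nat_lit 6) (nat_lit 1) (.cons (.rf (nat_lit 360) (nat_lit 493858305440582043680)) (.cons (.rf (nat_lit 360) (nat_lit 492741412732994160672)) .nil))),
 (.br (nat_lit 6) (nat_lit 1) (.cons (.br (nat_lit 12) (nat_lit 0) (.cons (.kr (nat_lit 79228167255077564536898715904) (nat_lit 310693935713017291937480704) (nat_lit 1) (nat_lit 0)) .nil)) (.cons (.br (nat_lit 9) (nat_lit 0) (.cons (.kr (nat_lit 79228167255077564536898715904) (nat_lit 310693935713017291937480704) (nat_lit 1) (nat_lit 0)) .nil)) .nil))),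
 (.br (nat_lit 8) (nat_lit 0) (.cons (.br (nat_lit 7) (nat_lit 0) (.cons (.br (nat_lit 9) (nat_lit 0) (.cons (.ev (nat_lit 72339069031415809) (nat_lit 1)) (.cons (.rf (nat_lit 351) (nat_lit 493858305439541856288)) .nil))) (.cons (.br (nat_lit 9) (nat_lit 0) (.cons (.br (nat_lit 11) (nat_lit 0) (.cons (.ev (nat_lit 309489750706912180605878273) (nat_lit 1)) .nil)) (.cons (.rf (nat_lit 351) (nat_lit 493858305440582043680)) .nil))) (.cons (.br (nat_lit 9) (nat_lit 0) (.cons (.rf (nat_lit 354) (nat_lit 493858305440582043680)) (.cons (.br (nat_lit 13) (nat_lit 1) (.cons (.ev (nat_lit 1213666633123047523025153) (nat_lit 1)) (.cons (.rf (nat_lit 334) (nat_lit 493857213417164802304)) (.cons (.rf (nat_lit 334) (nat_lit 492740320709576919296)) .nil)))) (.cons (.br (nat_lit 5) (nat_lit 1) (.cons (.kr (nat_lit 4722366483969156841728) (nat_lit 1208925891672223229411328) (nat_lit 1) (nat_lit 0)) (.cons (.rf (nat_lit 356) (nat_lit 493858305440582043680)) (.cons (.rf (nat_lit 356) (nat_lit 492741412732994160672))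 .nil)))) .nil)))) .nil)))) (.cons (.br (nat_lit 10) (nat_lit 0) (.cons (.kr (nat_lit 1099511693312) (nat_lit 18446744073726328832) (nat_lit 2) (nat_lit 0)) (.cons (.br (nat_lit 7) (nat_lit 0) (.cons (.br (nat_lit 6) (nat_lit 1) (.cons (.kr (nat_lit 4740813226943354765568) (nat_lit 1208925891672223212699648) (nat_lit 1) (nat_lit 0)) (.cons (.kr (nat_lit 309485009821346168236409088) (nat_lit 1208925891672223229411328) (nat_lit 1) (nat_lit 0)) (.cons (.kr (nat_lit 79228162514264338693055578368) (nat_lit 1208925891672223229411328) (nat_lit 1) (nat_lit 0)) .nil)))) (.cons (.ev (nat_lit 18447025548703105281) (nat_lit 1)) (.cons (.br (nat_lit 5) (nat_lit 1) (.cons (.rf (nat_lit 358) (nat_lit 493858305440582043680)) (.cons (.rf (nat_lit 359) (nat_lit 493858305440582043680)) (.cons (.rf (nat_lit 359) (nat_lit 492741412732994160672)) .nil)))) .nil)))) (.cons (.br (nat_lit 7) (nat_lit 0) (.cons (.br (nat_lit 13) (nat_lit 1) (.cons (.kr (nat_lit 4740813226943354765568) (nat_lit 1208925891672223212699648)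 (nat_lit 1) (nat_lit 0)) (.cons (.kr (nat_lit 309485009821346168236409088) (nat_lit 1208925891672223229411328) (nat_lit 1) (nat_lit 0)) (.cons (.kr (nat_lit 79228162514264338693055578368) (nat_lit 1208925891672223229411328) (nat_lit 1) (nat_lit 0)) .nil)))) (.cons (.br (nat_lit 5) (nat_lit 1) (.cons (.rf (nat_lit 361) (nat_lit 493858305440582043680)) (.cons (.rf (nat_lit 362) (nat_lit 493858305440582043680)) (.cons (.rf (nat_lit 362) (nat_lit 492741412732994160672)) .nil)))) (.cons (.ev (nat_lit 20282409603670117168025255805184) (nat_lit 1)) .nil)))) .nil)))) .nil)))]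

theorem c8 : chkAll C T R L8 (nat_lit 328) = true := by decide +kernel

theorem l8 : (nat_lit 328) + L8.length = (nat_lit 364) := by decide +kernel

/-- part of the certificates -/
def L9 : List Prf := [(.br (nat_lit 12) (nat_lit 0) (.cons (.ev (nat_lit 20282720302309750205588105592833) (nat_lit 1)) .nil)),
 (.br (nat_lit 6) (nat_lit 1) (.cons (.br (nat_lit 12) (nat_lit 0) (.cons (.kr (nat_lit 309489750634572012079546624) (nat_lit 79229371440156009816756649984) (nat_lit 1) (nat_lit 0)) .nil)) (.cons (.br (nat_lit 10) (nat_lit 0) (.cons (.kr (nat_lit 309489750634572012079546624) (nat_lit 79229371440156009816756649984) (nat_lit 1) (nat_lit 0)) .nil)) .nil))),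
 (.br (nat_lit 12) (nat_lit 0) (.cons (.kr (nat_lit 79228167255077564536898715904) (nat_lit 310693935713017291937480704) (nat_lit 1) (nat_lit 0)) .nil)),
 (.br (nat_lit 12) (nat_lit 0) (.cons (.kr (nat_lit 309489750634572012079546624) (nat_lit 79229371440156009816756649984) (nat_lit 1) (nat_lit 0)) .nil)),
 (.br (nat_lit 8) (nat_lit 0) (.cons (.br (nat_lit 9) (nat_lit 0) (.cons (.kr (nat_lit 18518801667747479808) (nat_lit 4722366764344621989888) (nat_lit 1) (nat_lit 0)) (.cons (.br (nat_lit 13) (nat_lit 1) (.cons (.rf (nat_lit 367) (nat_lit 455774704772581525536)) (.cons (.rf (nat_lit 367) (nat_lit 454657812064993642528)) .nil))) .nil))) (.cons (.br (nat_lit 9) (nat_lit 0) (.cons (.br (nat_lit 13) (nat_lit 1) (.cons (.rf (nat_lit 366) (nat_lit 455774704772581525536)) (.cons (.rf (nat_lit 366) (nat_lit 454657812064993642528)) .nil))) (.cons (.kr (nat_lit 18518801667747479808) (nat_lit 4722366764344621989888) (nat_lit 1) (nat_lit 0)) .nil))) .nil))),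
 (.br (nat_lit 6) (nat_lit 1) (.cons (.ev (nat_lit 1213666633123047523025153) (nat_lit 1)) (.cons (.rf (nat_lit 359) (nat_lit 493858305439541856288)) (.cons (.rf (nat_lit 359) (nat_lit 492741412731953973280)) .nil)))),
 (.br (nat_lit 12) (nat_lit 0) (.cons (.kr (nat_lit 79228167255077564536898715904) (nat_lit 310693935713017291937480704) (nat_lit 1) (nat_lit 0)) .nil)),
 (.br (nat_lit 5) (nat_lit 1) (.cons (.rf (nat_lit 370) (nat_lit 493858305440582043680)) (.cons (.rf (nat_lit 370) (nat_lit 492741412732994160672)) .nil))),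
 (.br (nat_lit 8) (nat_lit 0) (.cons (.rf (nat_lit 363) (nat_lit 493858305440582043680)) (.cons (.br (nat_lit 7) (nat_lit 0) (.cons (.br (nat_lit 9) (nat_lit 0) (.cons (.kr (nat_lit 1099511628032) (nat_lit 72057594054705152) (nat_lit 1) (nat_lit 0)) (.cons (.ev (nat_lit 72339069031415809) (nat_lit 1)) (.cons (.br (nat_lit 5) (nat_lit 1) (.cons (.br (nat_lit 6) (nat_lit 1) (.cons (.rf (nat_lit 364) (nat_lit 493858305440582043680)) (.cons (.rf (nat_lit 364) (nat_lit 492741412732994160672)) .nil))) (.cons (.rf (nat_lit 365) (nat_lit 493858305440582043680)) (.cons (.rf (nat_lit 365) (nat_lit 492741412732994160672)) .nil)))) .nil)))) (.cons (.rf (nat_lit 368) (nat_lit 15433072045017106464)) (.cons (.br (nat_lit 9) (nat_lit 0) (.cons (.br (nat_lit 10) (nat_lit 0) (.cons (.rf (nat_lit 369) (nat_lit 493858305440582043680)) (.cons (.rf (nat_lit 371) (nat_lit 493858305440582043680)) (.cons (.ev (nat_lit 20282410817299928579044404166656) (nat_lit 1)) .nil)))) (.cons (.br (nat_lit 10) (nat_lit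 0) (.cons (.ev (nat_lit 1213666633123047523025153) (nat_lit 1)) (.cons (.br (nat_lit 11) (nat_lit 0) (.cons (.br (nat_lit 5) (nat_lit 1) (.cons (.ev (nat_lit 40566058389343964063374665647366) (nat_lit 3)) .nil)) .nil)) .nil))) (.cons (.br (nat_lit 10) (nat_lit 0) (.cons (.rf (nat_lit 369) (nat_lit 493858305440582043680)) (.cons (.kr (nat_lit 4740813226943354765568) (nat_lit 1208925891672223212699648) (nat_lit 1) (nat_lit 0)) .nil))) .nil)))) .nil)))) .nil))),
 (.br (nat_lit 8) (nat_lit 0) (.cons (.rf (nat_lit 363) (nat_lit 493858305440582043680)) (.cons (.rf (nat_lit 372) (nat_lit 493858305440582043680)) (.cons (.br (nat_lit 8) (nat_lit 0) (.cons (.rf (nat_lit 363) (nat_lit 493858305440582043680)) (.cons (.rf (nat_lit 372) (nat_lit 493858305440582043680)) .nil))) .nil)))),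
 (.br (nat_lit 9) (nat_lit 0) (.cons (.br (nat_lit 10) (nat_lit 0) (.cons (.kr (nat_lit 1208925891672223212634368) (nat_lit 4740813226943354830848) (nat_lit 1) (nat_lit 0)) .nil)) (.cons (.br (nat_lit 10) (nat_lit 0) (.cons (.kr (nat_lit 4740813226943354765568) (nat_lit 1208925891672223212699648) (nat_lit 1) (nat_lit 0)) (.cons (.kr (nat_lit 1208925891672223212634112) (nat_lit 4740813226943354765312) (nat_lit 7) (nat_lit 0)) .nil))) .nil))),
 (.br (nat_lit 8) (nat_lit 0) (.cons (.rf (nat_lit 373) (nat_lit 493857213659895400480)) (.cons (.rf (nat_lit 374) (nat_lit 493858305440582043680)) (.cons (.br (nat_lit 10) (nat_lit 0) (.cons (.br (nat_lit 6) (nat_lit 1) (.cons (.kr (nat_lit 4740813226943354765568) (nat_lit 1208925891672223212699648) (nat_lit 1) (nat_lit 0)) (.cons (.kr (nat_lit 309485009821346168236409088) (nat_lit 1208925891672223229411328) (nat_lit 1) (nat_lit 0)) (.cons (.kr (nat_lit 79228162514264338693055578368) (nat_lit 1208925891672223229411328) (nat_lit 1) (nat_lit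 0)) .nil)))) (.cons (.ev (nat_lit 18447025548703105281) (nat_lit 1)) (.cons (.br (nat_lit 6) (nat_lit 1) (.cons (.kr (nat_lit 1208925891672223212634112) (nat_lit 4740813226943354765312) (nat_lit 7) (nat_lit 0)) (.cons (.kr (nat_lit 309485009821346168236474368) (nat_lit 1208925891672223229411328) (nat_lit 2) (nat_lit 0)) (.cons (.kr (nat_lit 79228162514264338693055643648) (nat_lit 1208925891672223229411328) (nat_lit 2) (nat_lit 0)) .nil)))) .nil)))) .nil)))),
 (.br (nat_lit 12) (nat_lit 0) (.cons (.kr (nat_lit 79229371440156009816756584704) (nat_lit 309489750634572012079611904) (nat_lit 1) (nat_lit 0)) .nil)),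
 (.br (nat_lit 5) (nat_lit 1) (.cons (.rf (nat_lit 376) (nat_lit 493858305440582043680)) (.cons (.rf (nat_lit 376) (nat_lit 492741412732994160672)) .nil))),
 (.br (nat_lit 10) (nat_lit 0) (.cons (.kr (nat_lit 4740813226943354765568) (nat_lit 1208925891672223212699648) (nat_lit 1) (nat_lit 0)) (.cons (.kr (nat_lit 1208925891672223212634112) (nat_lit 4740813226943354765312) (nat_lit 7) (nat_lit 0)) .nil))),
 (.br (nat_lit 12) (nat_lit 0) (.cons (.kr (nat_lit 309489750634572012079546624) (nat_lit 79229371440156009816756649984) (nat_lit 1) (nat_lit 0)) .nil)),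
 (.br (nat_lit 5) (nat_lit 1) (.cons (.rf (nat_lit 379) (nat_lit 493858305440582043680)) (.cons (.rf (nat_lit 379) (nat_lit 492741412732994160672)) .nil))),
 (.br (nat_lit 10) (nat_lit 0) (.cons (.kr (nat_lit 79228167255077564536898715904) (nat_lit 310693935713017291937480704) (nat_lit 1) (nat_lit 0)) .nil)),
 (.br (nat_lit 5) (nat_lit 1) (.cons (.ev (nat_lit 310693954160043940135370753) (nat_lit 1)) (.cons (.rf (nat_lit 381) (nat_lit 493858305440582043680)) .nil))),
 (.br (nat_lit 8) (nat_lit 0) (.cons (.rf (nat_lit 373) (nat_lit 493857213659895400480)) (.cons (.rf (nat_lit 374) (nat_lit 493858305440582043680)) (.cons (.br (nat_lit 9) (nat_lit 0) (.cons (.br (nat_lit 10) (nat_lit 0) (.cons (.br (nat_lit 13) (nat_lit 1) (.cons (.ev (nat_lit 309489732188110512858398721) (nat_lit 1)) (.cons (.ev (nat_lit 79228167236631103037677568001) (nat_lit 1)) .nil))) (.cons (.rf (nat_lit 377) (nat_lit 493858305440582043680)) .nil))) (.cons (.rf (nat_lit 378) (nat_lit 493858305440582043680))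 (.cons (.br (nat_lit 4) (nat_lit 1) (.cons (.rf (nat_lit 380) (nat_lit 493858305440582043680)) (.cons (.rf (nat_lit 382) (nat_lit 493858305440582043680)) (.cons (.rf (nat_lit 382) (nat_lit 492741412732994160672)) .nil)))) .nil)))) .nil)))),
 (.br (nat_lit 8) (nat_lit 0) (.cons (.rf (nat_lit 373) (nat_lit 493857213659895400480)) (.cons (.rf (nat_lit 375) (nat_lit 493858305440582043680)) (.cons (.rf (nat_lit 383) (nat_lit 493858305440582043680)) (.cons (.br (nat_lit 8) (nat_lit 0) (.cons (.rf (nat_lit 373) (nat_lit 493857213659895400480)) (.cons (.rf (nat_lit 375) (nat_lit 493858305440582043680)) (.cons (.rf (nat_lit 383) (nat_lit 493858305440582043680)) .nil)))) .nil))))),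
 (.br (nat_lit 8) (nat_lit 0) (.cons (.rf (nat_lit 368) (nat_lit 15433037926837094432)) (.cons (.rf (nat_lit 384) (nat_lit 493857213659895400480)) (.cons (.br (nat_lit 9) (nat_lit 0) (.cons (.br (nat_lit 13) (nat_lit 1) (.cons (.kr (nat_lit 1208925891672223212634368) (nat_lit 4740813226943354830848) (nat_lit 1) (nat_lit 0)) (.cons (.kr (nat_lit 309485009821346168236409088) (nat_lit 4740813226943371542528) (nat_lit 1) (nat_lit 0)) (.cons (.kr (nat_lit 79228162514264338693055578368) (nat_lit 4740813226943371542528) (nat_lit 1) (nat_lit 0)) .nil)))) (.cons (.br (nat_lit 6) (nat_lit 1) (.cons (.kr (nat_lit 1208925891672223212634112) (nat_lit 4740813226943354765312) (nat_lit 7) (nat_lit 0)) (.cons (.kr (nat_lit 309485009821346168236474368) (nat_lit 4740813226943371542528) (nat_lit 2) (nat_lit 0)) (.cons (.kr (nat_lit 79228162514264338693055643648) (nat_lit 4740813226943371542528) (nat_lit 2) (nat_lit 0)) .nil)))) (.cons (.br (nat_lit 4) (nat_lit 1) (.cons (.kr (nat_lit 4740813226943354765568)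 (nat_lit 1208925891672223212699648) (nat_lit 1) (nat_lit 0)) (.cons (.kr (nat_lit 4740813226943371542784) (nat_lit 309485009821346168236539904) (nat_lit 1) (nat_lit 0)) (.cons (.kr (nat_lit 4740813226943371542784) (nat_lit 79228162514264338693055709184) (nat_lit 1) (nat_lit 0)) .nil)))) .nil)))) .nil)))),
 (.br (nat_lit 12) (nat_lit 0) (.cons (.ev (nat_lit 20282720302309750205588105592833) (nat_lit 1)) .nil)),
 (.br (nat_lit 6) (nat_lit 1) (.cons (.br (nat_lit 12) (nat_lit 0) (.cons (.kr (nat_lit 79229371440156009816756584704) (nat_lit 309489750634572012079611904) (nat_lit 1) (nat_lit 0)) .nil)) (.cons (.br (nat_lit 10) (nat_lit 0) (.cons (.kr (nat_lit 79229371440156009816756584704) (nat_lit 309489750634572012079611904) (nat_lit 1) (nat_lit 0)) .nil)) .nil))),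
 (.br (nat_lit 6) (nat_lit 1) (.cons (.br (nat_lit 5) (nat_lit 1) (.cons (.zr (nat_lit 3626777675016669705011200) (nat_lit 20283028573671313396663484284929) (nat_lit 5) (nat_lit 6)) .nil)) (.cons (.ev (nat_lit 20282719088679938794568957296641) (nat_lit 1)) .nil))),
 (.br (nat_lit 8) (nat_lit 0) (.cons (.rf (nat_lit 373) (nat_lit 493857213659895400480)) (.cons (.rf (nat_lit 384) (nat_lit 493857213659895400480)) (.cons (.br (nat_lit 9) (nat_lit 0) (.cons (.br (nat_lit 5) (nat_lit 1) (.cons (.br (nat_lit 6) (nat_lit 1) (.cons (.rf (nat_lit 386) (nat_lit 493858305440582043680)) (.cons (.rf (nat_lit 386) (nat_lit 492741412732994160672)) .nil))) (.cons (.rf (nat_lit 387) (nat_lit 493858305440582043680)) (.cons (.rf (nat_lit 387) (nat_lit 492741412732994160672)) .nil)))) (.cons (.kr (nat_lit 1099511693312) (nat_lit 72057594054705152) (nat_lit 2) (nat_lit 0)) (.cons (.ev (nat_lit 72339069031481601) (nat_lit 1)) (.cons (.br (nat_lit 4) (nat_lit 1) (.cons (.br (nat_lit 6) (nat_lit 1)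 (.cons (.rf (nat_lit 387) (nat_lit 493857213658855213088)) (.cons (.rf (nat_lit 387) (nat_lit 492740320951267330080)) .nil))) (.cons (.rf (nat_lit 388) (nat_lit 493858305440582043680)) (.cons (.rf (nat_lit 388) (nat_lit 492741412732994160672)) .nil)))) .nil))))) .nil)))),
 (.br (nat_lit 7) (nat_lit 0) (.cons (.rf (nat_lit 373) (nat_lit 493858305440582043680)) (.cons (.rf (nat_lit 384) (nat_lit 493858305440582043680)) (.cons (.br (nat_lit 8) (nat_lit 0) (.cons (.rf (nat_lit 373) (nat_lit 493857213659895400480)) (.cons (.rf (nat_lit 385) (nat_lit 493858305440582043680)) (.cons (.rf (nat_lit 389) (nat_lit 493858305440582043680)) (.cons (.br (nat_lit 8) (nat_lit 0) (.cons (.rf (nat_lit 373) (nat_lit 493857213659895400480)) (.cons (.rf (nat_lit 385) (nat_lit 493858305440582043680)) (.cons (.rf (nat_lit 389) (nat_lit 493858305440582043680)) .nil)))) .nil))))) .nil)))),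
 (.br (nat_lit 12) (nat_lit 0) (.cons (.kr (nat_lit 79229371440156009816756584704) (nat_lit 309489750634572012079611904) (nat_lit 1) (nat_lit 0)) .nil)),
 (.br (nat_lit 9) (nat_lit 0) (.cons (.kr (nat_lit 4722366764344621924608) (nat_lit 18518801667747545088) (nat_lit 1) (nat_lit 0)) (.cons (.br (nat_lit 13) (nat_lit 1) (.cons (.rf (nat_lit 391) (nat_lit 455774704772581525536)) (.cons (.rf (nat_lit 391) (nat_lit 454657812064993642528)) .nil))) .nil))),
 (.br (nat_lit 5) (nat_lit 1) (.cons (.zr (nat_lit 928455029465161106081382400) (nat_lit 20282409613133296878937784188929) (nat_lit 5) (nat_lit 3)) .nil)),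
 (.br (nat_lit 10) (nat_lit 0) (.cons (.rf (nat_lit 392) (nat_lit 15433037926870648864)) (.cons (.kr (nat_lit 1208925891672223212634112) (nat_lit 4740813226943354765312) (nat_lit 7) (nat_lit 0)) (.cons (.br (nat_lit 4) (nat_lit 1) (.cons (.rf (nat_lit 393) (nat_lit 493858305440582043680)) (.cons (.rf (nat_lit 393) (nat_lit 492741412732994160672)) .nil))) .nil)))),
 (.br (nat_lit 8) (nat_lit 0) (.cons (.rf (nat_lit 373) (nat_lit 493857213659895400480)) (.cons (.rf (nat_lit 390) (nat_lit 493857213659895400480)) (.cons (.br (nat_lit 7) (nat_lit 0) (.cons (.rf (nat_lit 368) (nat_lit 15433072045017106464)) (.cons (.rf (nat_lit 390) (nat_lit 493858305440582043680)) (.cons (.br (nat_lit 9) (nat_lit 0) (.cons (.rf (nat_lit 392) (nat_lit 15433072045017106464)) (.cons (.rf (nat_lit 394) (nat_lit 493858305440582043680)) (.cons (.br (nat_lit 10) (nat_lit 0) (.cons (.kr (nat_lit 4740813226943354765568) (nat_lit 1208925891672223212699648) (nat_lit 1) (nat_lit 0)) (.cons (.rf (nat_lit 394)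 (nat_lit 493857213659895400480)) .nil))) .nil)))) .nil)))) .nil)))),
 (.br (nat_lit 7) (nat_lit 0) (.cons (.rf (nat_lit 373) (nat_lit 493858305440582043680)) (.cons (.rf (nat_lit 390) (nat_lit 493858305440582043680)) (.cons (.br (nat_lit 8) (nat_lit 0) (.cons (.rf (nat_lit 373) (nat_lit 493857213659895400480)) (.cons (.rf (nat_lit 390) (nat_lit 493857213659895400480)) (.cons (.rf (nat_lit 395) (nat_lit 493857213659895400480)) (.cons (.rf (nat_lit 395) (nat_lit 493858305440582043680)) .nil))))) .nil)))),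
 (.br (nat_lit 2) (nat_lit 0) (.cons (.kr (nat_lit 256) (nat_lit 65536) (nat_lit 1) (nat_lit 0)) (.cons (.br (nat_lit 7) (nat_lit 0) (.cons (.rf (nat_lit 333) (nat_lit 14242959524133701664)) (.cons (.rf (nat_lit 337) (nat_lit 14242959524133701664)) (.cons (.rf (nat_lit 341) (nat_lit 14242959524133701664)) (.cons (.br (nat_lit 7) (nat_lit 0) (.cons (.rf (nat_lit 333) (nat_lit 14242959524133701664)) (.cons (.rf (nat_lit 337) (nat_lit 14242959524133701664)) (.cons (.rf (nat_lit 341) (nat_lit 14242959524133701664)) .nil)))) .nil))))) (.cons (.br (nat_lit 7) (nat_lit 0) (.cons (.rf (nat_lit 347) (nat_lit 14242959524133701664)) (.cons (.rf (nat_lit 349) (nat_lit 14242959524133701664)) (.cons (.rf (nat_lit 347) (nat_lit 14242959521988314176)) (.cons (.br (nat_lit 7) (nat_lit 0) (.cons (.rf (nat_lit 347) (nat_lit 14242959524133701664)) (.cons (.rf (nat_lit 349) (nat_lit 14242959524133701664)) (.cons (.rf (nat_lit 347) (nat_lit 14242959521988314176)) .nil)))) .nil))))) (.cons (.br (nat_lit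 7) (nat_lit 0) (.cons (.rf (nat_lit 373) (nat_lit 493858305440582043680)) (.cons (.rf (nat_lit 390) (nat_lit 493858305440582043680)) (.cons (.rf (nat_lit 396) (nat_lit 493858305440582043680)) (.cons (.br (nat_lit 7) (nat_lit 0) (.cons (.rf (nat_lit 373) (nat_lit 493858305440582043680)) (.cons (.rf (nat_lit 390) (nat_lit 493858305440582043680)) (.cons (.rf (nat_lit 396) (nat_lit 493858305440582043680)) .nil)))) .nil))))) .nil)))))]

theorem c9 : chkAll C T R L9 (nat_lit 364) = true := by decide +kernel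

theorem l9 : (nat_lit 364) + L9.length = (nat_lit 398) := by decide +kernel

/-- part of the certificates -/
def L10 : List Prf := [(.br (nat_lit 12) (nat_lit 0) (.cons (.kr (nat_lit 309489750634572012079546624) (nat_lit 79229371440156009816756649984) (nat_lit 1) (nat_lit 0)) .nil)),
 (.br (nat_lit 6) (nat_lit 1) (.cons (.rf (nat_lit 398) (nat_lit 493858305440582043680)) (.cons (.rf (nat_lit 398) (nat_lit 492741412732994160672)) .nil))),
 (.br (nat_lit 8) (nat_lit 0) (.cons (.br (nat_lit 9) (nat_lit 0) (.cons (.br (nat_lit 13) (nat_lit 1) (.cons (.kr (nat_lit 4740813226943354765568) (nat_lit 1208925891672223212699648) (nat_lit 1) (nat_lit 0)) (.cons (.zr (nat_lit 14222439680830064296704) (nat_lit 928455029464317784974426113) (nat_lit 5) (nat_lit 0)) (.cons (.zr (nat_lit 14222439680830064296704) (nat_lit 237684487542793295359431933953) (nat_lit 5) (nat_lit 0)) .nil)))) .nil)) (.cons (.br (nat_lit 9) (nat_lit 0) (.cons (.br (nat_lit 13) (nat_lit 1) (.cons (.kr (nat_lit 4740813226943354765568)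 (nat_lit 1208925891672223212699648) (nat_lit 1) (nat_lit 0)) (.cons (.zr (nat_lit 9481698511480747524608) (nat_lit 618970019642972716249645057) (nat_lit 5) (nat_lit 0)) (.cons (.zr (nat_lit 9481698511480747524608) (nat_lit 158456325028528957765887983617) (nat_lit 5) (nat_lit 0)) .nil)))) (.cons (.br (nat_lit 10) (nat_lit 0) (.cons (.br (nat_lit 13) (nat_lit 1) (.cons (.ev (nat_lit 309489732188110512858333441) (nat_lit 1)) (.cons (.ev (nat_lit 79228167236631103037677502721) (nat_lit 1)) .nil))) (.cons (.rf (nat_lit 399) (nat_lit 493858305440582043680)) .nil))) .nil))) .nil))),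
 (.br (nat_lit 11) (nat_lit 0) (.cons (.br (nat_lit 12) (nat_lit 0) (.cons (.kr (nat_lit 309485009821345068724781056) (nat_lit 79228162514264337593543950336) (nat_lit 11) (nat_lit 0)) .nil)) .nil)),
 (.br (nat_lit 12) (nat_lit 0) (.cons (.kr (nat_lit 79228167255077564536898715904) (nat_lit 310693935713017291937480704) (nat_lit 1) (nat_lit 0)) .nil)),
 (.br (nat_lit 10) (nat_lit 0) (.cons (.kr (nat_lit 4740813226943354765568) (nat_lit 1208925891672223212699648) (nat_lit 1) (nat_lit 0)) (.cons (.br (nat_lit 4) (nat_lit 1) (.cons (.rf (nat_lit 402) (nat_lit 493858305440582043680)) (.cons (.rf (nat_lit 402) (nat_lit 492741412732994160672)) .nil))) .nil))),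
 (.br (nat_lit 6) (nat_lit 1) (.cons (.kr (nat_lit 79228167255077564536898715904) (nat_lit 310693935713017291937480704) (nat_lit 1) (nat_lit 0)) .nil)),
 (.br (nat_lit 4) (nat_lit 1) (.cons (.rf (nat_lit 404) (nat_lit 493858305440582043680)) (.cons (.rf (nat_lit 404) (nat_lit 492741412732994160672)) .nil))),
 (.br (nat_lit 7) (nat_lit 0) (.cons (.rf (nat_lit 400) (nat_lit 14242959524133701664)) (.cons (.ev (nat_lit 282574488338689) (nat_lit 1)) (.cons (.br (nat_lit 8) (nat_lit 0) (.cons (.ev (nat_lit 4311810049) (nat_lit 1)) (.cons (.rf (nat_lit 400) (nat_lit 14241867741234627648)) (.cons (.br (nat_lit 9) (nat_lit 0) (.cons (.br (nat_lit 6) (nat_lit 1) (.cons (.rf (nat_lit 401) (nat_lit 14242959524133701664)) (.cons (.ev (nat_lit 309489750706629610429219073) (nat_lit 1)) (.cons (.ev (nat_lit 79228167255149622135248388353) (nat_lit 1)) .nil)))) (.cons (.rf (nat_lit 403) (nat_lit 493858305440582043680)) (.cons (.br (nat_lit 10) (nat_lit 0) (.cons (.rf (nat_lit 403) (nat_lit 493857213657682969664))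 (.cons (.ev (nat_lit 1213648258436567851401473) (nat_lit 1)) (.cons (.rf (nat_lit 405) (nat_lit 493858305440582043680)) .nil)))) .nil)))) .nil)))) .nil)))),
 (.br (nat_lit 7) (nat_lit 0) (.cons (.rf (nat_lit 406) (nat_lit 14242959523092498464)) (.cons (.ev (nat_lit 282574488338689) (nat_lit 1)) (.cons (.br (nat_lit 8) (nat_lit 0) (.cons (.ev (nat_lit 4311810049) (nat_lit 1)) (.cons (.rf (nat_lit 406) (nat_lit 14242959524133701664)) (.cons (.br (nat_lit 9) (nat_lit 0) (.cons (.br (nat_lit 5) (nat_lit 1) (.cons (.rf (nat_lit 401) (nat_lit 14242959523093514272)) (.cons (.ev (nat_lit 309489750706629610429219073) (nat_lit 1)) (.cons (.ev (nat_lit 79228167255149622135248388353) (nat_lit 1)) .nil)))) (.cons (.rf (nat_lit 403) (nat_lit 493858305439541856288)) (.cons (.br (nat_lit 10) (nat_lit 0) (.cons (.rf (nat_lit 403) (nat_lit 493857213657681953856)) (.cons (.ev (nat_lit 1213648258156192386252801) (nat_lit 1)) (.cons (.rf (nat_lit 405) (nat_lit 493858305439541856288)) .nil)))) .nil))))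 .nil)))) .nil)))),
 (.br (nat_lit 8) (nat_lit 0) (.cons (.ev (nat_lit 4311810049) (nat_lit 1)) (.cons (.rf (nat_lit 406) (nat_lit 14242959524133701664)) (.cons (.rf (nat_lit 407) (nat_lit 14242959524133701664)) (.cons (.br (nat_lit 8) (nat_lit 0) (.cons (.ev (nat_lit 4311810049) (nat_lit 1)) (.cons (.rf (nat_lit 406) (nat_lit 14242959524133701664)) (.cons (.rf (nat_lit 407) (nat_lit 14242959524133701664)) .nil)))) .nil))))),
 (.br (nat_lit 12) (nat_lit 0) (.cons (.ev (nat_lit 20361637766165935044115283575041) (nat_lit 1)) .nil)),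
 (.br (nat_lit 5) (nat_lit 1) (.cons (.rf (nat_lit 409) (nat_lit 493858305440582043680)) (.cons (.rf (nat_lit 409) (nat_lit 492741412732994160672)) .nil))),
 (.br (nat_lit 12) (nat_lit 0) (.cons (.ev (nat_lit 20361637766165935044115283575041) (nat_lit 1)) .nil)),
 (.br (nat_lit 6) (nat_lit 1) (.cons (.ev (nat_lit 20361637766202973212604100576000) (nat_lit 2)) .nil)),
 (.br (nat_lit 12) (nat_lit 0) (.cons (.ev (nat_lit 20361637766165935044115283575041) (nat_lit 1)) .nil)),
 (.br (nat_lit 10) (nat_lit 0) (.cons (.rf (nat_lit 342) (nat_lit 14241862211528171552)) (.cons (.br (nat_lit 5) (nat_lit 1) (.cons (.rf (nat_lit 413) (nat_lit 493858305440582043680)) (.cons (.rf (nat_lit 413) (nat_lit 492741412732994160672)) .nil))) .nil))),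
 (.br (nat_lit 6) (nat_lit 1) (.cons (.ev (nat_lit 20441795597376368316094504501250) (nat_lit 2)) .nil)),
 (.br (nat_lit 6) (nat_lit 1) (.cons (.br (nat_lit 12) (nat_lit 0) (.cons (.ev (nat_lit 20282720302328196950757031870465) (nat_lit 1)) .nil)) (.cons (.br (nat_lit 9) (nat_lit 0) (.cons (.ev (nat_lit 20282722729661606749103101968898) (nat_lit 2)) .nil)) .nil))),
 (.br (nat_lit 6) (nat_lit 1) (.cons (.ev (nat_lit 20520094100639197250203540455680) (nat_lit 2)) .nil)),
 (.br (nat_lit 7) (nat_lit 0) (.cons (.br (nat_lit 8) (nat_lit 0) (.cons (.br (nat_lit 9) (nat_lit 0) (.cons (.br (nat_lit 11) (nat_lit 0) (.cons (.ev (nat_lit 309489750634573111608017153) (nat_lit 1)) .nil)) (.cons (.br (nat_lit 6) (nat_lit 1) (.cons (.br (nat_lit 11) (nat_lit 0) (.cons (.br (nat_lit 12) (nat_lit 0) (.cons (.ev (nat_lit 20282719088661492051590464405761) (nat_lit 1)) .nil)) .nil)) (.cons (.ev (nat_lit 309489750634573111608017153) (nat_lit 1)) (.cons (.ev (nat_lit 79228167255077565636427186433)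 (nat_lit 1)) .nil)))) .nil))) (.cons (.br (nat_lit 9) (nat_lit 0) (.cons (.br (nat_lit 6) (nat_lit 1) (.cons (.br (nat_lit 11) (nat_lit 0) (.cons (.br (nat_lit 12) (nat_lit 0) (.cons (.ev (nat_lit 20282719088661492051590464405761) (nat_lit 1)) .nil)) .nil)) (.cons (.ev (nat_lit 309489750634573111608017153) (nat_lit 1)) (.cons (.ev (nat_lit 79228167255077565636427186433) (nat_lit 1)) .nil)))) (.cons (.br (nat_lit 10) (nat_lit 0) (.cons (.ev (nat_lit 1213666704899170879144193) (nat_lit 1)) (.cons (.br (nat_lit 11) (nat_lit 0) (.cons (.br (nat_lit 6) (nat_lit 1) (.cons (.ev (nat_lit 1858152059976549332930725638) (nat_lit 3)) .nil)) .nil)) .nil))) .nil))) .nil))) (.cons (.br (nat_lit 9) (nat_lit 0) (.cons (.ev (nat_lit 72058697844523009) (nat_lit 1)) (.cons (.br (nat_lit 10) (nat_lit 0) (.cons (.ev (nat_lit 1213648258156192386252801) (nat_lit 1)) (.cons (.br (nat_lit 8) (nat_lit 0) (.cons (.br (nat_lit 13) (nat_lit 1) (.cons (.ev (nat_lit 309489750634573115886207233) (nat_lit 1))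 (.cons (.ev (nat_lit 79228167255077565640705376513) (nat_lit 1)) .nil))) (.cons (.rf (nat_lit 410) (nat_lit 493858305440582043680)) .nil))) .nil))) (.cons (.br (nat_lit 8) (nat_lit 0) (.cons (.br (nat_lit 6) (nat_lit 1) (.cons (.zr (nat_lit 4759259972116609499392) (nat_lit 1208925891953702484377601) (nat_lit 5) (nat_lit 4)) (.cons (.ev (nat_lit 309489750634573115886207233) (nat_lit 1)) (.cons (.ev (nat_lit 79228167255077565640705376513) (nat_lit 1)) .nil)))) (.cons (.br (nat_lit 10) (nat_lit 0) (.cons (.br (nat_lit 11) (nat_lit 0) (.cons (.rf (nat_lit 411) (nat_lit 493823402543469922336)) .nil)) (.cons (.br (nat_lit 5) (nat_lit 1) (.cons (.rf (nat_lit 411) (nat_lit 493858305440582043680)) (.cons (.rf (nat_lit 411) (nat_lit 492741412732994160672)) .nil))) .nil))) (.cons (.br (nat_lit 10) (nat_lit 0) (.cons (.ev (nat_lit 18446745173238022401) (nat_lit 1)) (.cons (.rf (nat_lit 410) (nat_lit 493857214725047289888)) (.cons (.br (nat_lit 5) (nat_lit 1) (.cons (.rf (nat_lit 412) (nat_lit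 493858305440582043680)) (.cons (.rf (nat_lit 412) (nat_lit 492741412732994160672)) .nil))) .nil)))) .nil)))) .nil)))) (.cons (.br (nat_lit 8) (nat_lit 0) (.cons (.br (nat_lit 9) (nat_lit 0) (.cons (.br (nat_lit 13) (nat_lit 1) (.cons (.ev (nat_lit 1213666704899170879144193) (nat_lit 1)) (.cons (.ev (nat_lit 309489750634573115886207233) (nat_lit 1)) (.cons (.ev (nat_lit 79228167255077565640705376513) (nat_lit 1)) .nil)))) (.cons (.br (nat_lit 6) (nat_lit 1) (.cons (.ev (nat_lit 1213666704899170879144193) (nat_lit 1)) (.cons (.ev (nat_lit 309489750634573115886207233) (nat_lit 1)) (.cons (.ev (nat_lit 79228167255077565640705376513) (nat_lit 1)) .nil)))) .nil))) (.cons (.br (nat_lit 9) (nat_lit 0) (.cons (.br (nat_lit 13) (nat_lit 1) (.cons (.ev (nat_lit 1213666632842676336132353) (nat_lit 1)) (.cons (.rf (nat_lit 334) (nat_lit 493857213416123605056)) (.cons (.rf (nat_lit 334) (nat_lit 492740320708535722048)) .nil)))) (.cons (.rf (nat_lit 414) (nat_lit 493858305440582043680)) (.cons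 (.br (nat_lit 10) (nat_lit 0) (.cons (.ev (nat_lit 1213648258156192386252801) (nat_lit 1)) (.cons (.rf (nat_lit 414) (nat_lit 493857214725047289888)) (.cons (.br (nat_lit 5) (nat_lit 1) (.cons (.rf (nat_lit 415) (nat_lit 493858305440582043680)) (.cons (.rf (nat_lit 415) (nat_lit 492741412732994160672)) .nil))) .nil)))) .nil)))) (.cons (.br (nat_lit 10) (nat_lit 0) (.cons (.ev (nat_lit 18446745173238022401) (nat_lit 1)) (.cons (.br (nat_lit 5) (nat_lit 1) (.cons (.ev (nat_lit 1213666632842676336132353) (nat_lit 1)) (.cons (.rf (nat_lit 416) (nat_lit 493858305440582043680)) (.cons (.rf (nat_lit 416) (nat_lit 492741412732994160672)) .nil)))) (.cons (.br (nat_lit 9) (nat_lit 0) (.cons (.br (nat_lit 11) (nat_lit 0) (.cons (.br (nat_lit 6) (nat_lit 1) (.cons (.ev (nat_lit 620193205300444267553161990) (nat_lit 3)) .nil)) .nil)) (.cons (.br (nat_lit 5) (nat_lit 1) (.cons (.rf (nat_lit 417) (nat_lit 493858305440582043680)) (.cons (.rf (nat_lit 417) (nat_lit 492741412732994160672)) .nil)))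 .nil))) .nil)))) .nil)))) .nil)))),
 (.br (nat_lit 11) (nat_lit 0) (.cons (.ev (nat_lit 313111787352810599768719362) (nat_lit 2)) (.cons (.br (nat_lit 12) (nat_lit 0) (.cons (.ev (nat_lit 79231789291795803124587888642) (nat_lit 2)) (.cons (.kr (nat_lit 309485009821345068724781056) (nat_lit 79228162514264337593543950336) (nat_lit 11) (nat_lit 0)) .nil))) .nil))),
 (.br (nat_lit 12) (nat_lit 0) (.cons (.kr (nat_lit 79228167255077564536898715904) (nat_lit 310693935713017291937480704) (nat_lit 1) (nat_lit 0)) .nil)),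
 (.br (nat_lit 10) (nat_lit 0) (.cons (.kr (nat_lit 4740813226943354765568) (nat_lit 1208925891672223212699648) (nat_lit 1) (nat_lit 0)) (.cons (.br (nat_lit 6) (nat_lit 1) (.cons (.rf (nat_lit 420) (nat_lit 493858305440582043680)) (.cons (.rf (nat_lit 420) (nat_lit 492741412732994160672)) .nil))) .nil))),
 (.br (nat_lit 12) (nat_lit 0) (.cons (.kr (nat_lit 79228167255077564536898715904) (nat_lit 310693935713017291937480704) (nat_lit 1) (nat_lit 0)) .nil)),
 (.br (nat_lit 6) (nat_lit 1) (.cons (.rf (nat_lit 422) (nat_lit 493858305440582043680)) (.cons (.rf (nat_lit 422) (nat_lit 492741412732994160672)) .nil))),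
 (.br (nat_lit 6) (nat_lit 1) (.cons (.zr (nat_lit 14167100293033865774080) (nat_lit 620178945534363460190732289) (nat_lit 5) (nat_lit 3)) (.cons (.br (nat_lit 10) (nat_lit 0) (.cons (.ev (nat_lit 20283341699644212398855009862144) (nat_lit 2)) .nil)) .nil))),
 (.br (nat_lit 12) (nat_lit 0) (.cons (.kr (nat_lit 79228167255077564536898715904) (nat_lit 310693935713017291937480704) (nat_lit 1) (nat_lit 0)) .nil)),
 (.br (nat_lit 12) (nat_lit 0) (.cons (.kr (nat_lit 309489750634572012079546624) (nat_lit 79229371440156009816756649984) (nat_lit 1) (nat_lit 0)) .nil)),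
 (.br (nat_lit 8) (nat_lit 0) (.cons (.br (nat_lit 9) (nat_lit 0) (.cons (.kr (nat_lit 18518801667747479808) (nat_lit 4722366764344621989888) (nat_lit 1) (nat_lit 0)) (.cons (.br (nat_lit 13) (nat_lit 1) (.cons (.rf (nat_lit 426) (nat_lit 455774704780903024672)) (.cons (.rf (nat_lit 426) (nat_lit 454657812073315141664)) .nil))) .nil))) (.cons (.br (nat_lit 9) (nat_lit 0) (.cons (.br (nat_lit 13) (nat_lit 1) (.cons (.rf (nat_lit 425) (nat_lit 455774704780903024672)) (.cons (.rf (nat_lit 425) (nat_lit 454657812073315141664)) .nil))) (.cons (.kr (nat_lit 18518801667747479808) (nat_lit 4722366764344621989888) (nat_lit 1) (nat_lit 0)) .nil))) .nil))),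
 (.br (nat_lit 12) (nat_lit 0) (.cons (.kr (nat_lit 309489750634572012079546624) (nat_lit 79229371440156009816756649984) (nat_lit 1) (nat_lit 0)) .nil)),
 (.br (nat_lit 6) (nat_lit 1) (.cons (.rf (nat_lit 428) (nat_lit 493858305440582043680)) (.cons (.rf (nat_lit 428) (nat_lit 492741412732994160672)) .nil))),
 (.br (nat_lit 10) (nat_lit 0) (.cons (.kr (nat_lit 79228167255077564536898715904) (nat_lit 310693935713017291937480704) (nat_lit 1) (nat_lit 0)) .nil)),
 (.br (nat_lit 6) (nat_lit 1) (.cons (.ev (nat_lit 309499195368101800851800322) (nat_lit 2)) (.cons (.rf (nat_lit 430) (nat_lit 493858305440582043680)) .nil))),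
 (.br (nat_lit 12) (nat_lit 0) (.cons (.kr (nat_lit 79228167255077564536898715904) (nat_lit 310693935713017291937480704) (nat_lit 1) (nat_lit 0)) .nil)),
 (.br (nat_lit 6) (nat_lit 1) (.cons (.rf (nat_lit 432) (nat_lit 493858305440582043680)) (.cons (.rf (nat_lit 432) (nat_lit 492741412732994160672)) .nil))),
 (.br (nat_lit 12) (nat_lit 0) (.cons (.kr (nat_lit 79228167255077564536898715904) (nat_lit 310693935713017291937480704) (nat_lit 1) (nat_lit 0)) .nil))]

theorem c10 : chkAll C T R L10 (nat_lit 398) = true := by decide +kernel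

theorem l10 : (nat_lit 398) + L10.length = (nat_lit 435) := by decide +kernel

/-- part of the certificates -/
def L11 : List Prf := [(.br (nat_lit 6) (nat_lit 1) (.cons (.rf (nat_lit 434) (nat_lit 493858305440582043680)) (.cons (.br (nat_lit 10) (nat_lit 0) (.cons (.ev (nat_lit 20282722720216874346313764962304) (nat_lit 2)) .nil)) .nil))),
 (.br (nat_lit 6) (nat_lit 1) (.cons (.zr (nat_lit 60847230019880903788502781527296) (nat_lit 1237940039285382473956196354) (nat_lit 10) (nat_lit 3)) .nil)),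
 (.br (nat_lit 8) (nat_lit 0) (.cons (.rf (nat_lit 418) (nat_lit 493858305440582043680)) (.cons (.br (nat_lit 7) (nat_lit 0) (.cons (.br (nat_lit 9) (nat_lit 0) (.cons (.br (nat_lit 10) (nat_lit 0) (.cons (.rf (nat_lit 419) (nat_lit 493858305440582043680)) .nil)) (.cons (.rf (nat_lit 421) (nat_lit 493858305440582043680)) .nil))) (.cons (.br (nat_lit 9) (nat_lit 0) (.cons (.ev (nat_lit 72058697844523009) (nat_lit 1)) (.cons (.br (nat_lit 10) (nat_lit 0) (.cons (.kr (nat_lit 4740813226943354765568) (nat_lit 1208925891672223212699648) (nat_lit 1) (nat_lit 0)) (.cons (.br (nat_lit 4) (nat_lit 1) (.cons (.zr (nat_lit 311902861605533940080247040) (nat_lit 14222439681929592700929) (nat_lit 5) (nat_lit 3)) (.cons (.zr (nat_lit 79230580366048526464899416320) (nat_lit 14222439681929592700929) (nat_lit 5) (nat_lit 3)) .nil))) .nil))) .nil))) (.cons (.br (nat_lit 9) (nat_lit 0) (.cons (.br (nat_lit 13) (nat_lit 1) (.cons (.ev (nat_lit 1213666632842676336132353) (nat_lit 1)) (.cons (.ev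 (nat_lit 309489750706629610429219073) (nat_lit 1)) (.cons (.ev (nat_lit 79228167255149622135248388353) (nat_lit 1)) .nil)))) (.cons (.br (nat_lit 10) (nat_lit 0) (.cons (.rf (nat_lit 401) (nat_lit 14241862211529187360)) (.cons (.br (nat_lit 13) (nat_lit 1) (.cons (.ev (nat_lit 310703417484150416204825090) (nat_lit 2)) (.cons (.ev (nat_lit 79229380921927142941023994370) (nat_lit 2)) .nil))) .nil))) (.cons (.br (nat_lit 4) (nat_lit 1) (.cons (.rf (nat_lit 423) (nat_lit 493858305440582043680)) (.cons (.rf (nat_lit 424) (nat_lit 493858305440582043680)) (.cons (.rf (nat_lit 424) (nat_lit 492741412732994160672)) .nil)))) .nil)))) .nil)))) (.cons (.br (nat_lit 7) (nat_lit 0) (.cons (.rf (nat_lit 427) (nat_lit 15433072044983552032)) (.cons (.br (nat_lit 9) (nat_lit 0) (.cons (.ev (nat_lit 72058697844523009) (nat_lit 1)) (.cons (.br (nat_lit 10) (nat_lit 0) (.cons (.kr (nat_lit 4740813226943354765568) (nat_lit 1208925891672223212699648) (nat_lit 1) (nat_lit 0)) (.cons (.br (nat_lit 4)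 (nat_lit 1) (.cons (.zr (nat_lit 2417851640073683279545344) (nat_lit 618970019714748831016026113) (nat_lit 5) (nat_lit 3)) (.cons (.zr (nat_lit 2417851640073683279545344) (nat_lit 158456325028600733880654364673) (nat_lit 5) (nat_lit 3)) .nil))) .nil))) (.cons (.br (nat_lit 4) (nat_lit 1) (.cons (.rf (nat_lit 429) (nat_lit 493858305440582043680)) (.cons (.rf (nat_lit 431) (nat_lit 493858305440582043680)) (.cons (.rf (nat_lit 431) (nat_lit 492741412732994160672)) .nil)))) .nil)))) (.cons (.br (nat_lit 9) (nat_lit 0) (.cons (.br (nat_lit 6) (nat_lit 1) (.cons (.ev (nat_lit 1213666632842676336132353) (nat_lit 1)) (.cons (.ev (nat_lit 309489750706629610429219073) (nat_lit 1)) (.cons (.ev (nat_lit 79228167255149622135248388353) (nat_lit 1)) .nil)))) (.cons (.br (nat_lit 4) (nat_lit 1) (.cons (.rf (nat_lit 433) (nat_lit 493858305440582043680)) (.cons (.rf (nat_lit 435) (nat_lit 493858305440582043680)) (.cons (.rf (nat_lit 435) (nat_lit 492741412732994160672)) .nil)))) (.cons (.br (nat_lit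 10) (nat_lit 0) (.cons (.kr (nat_lit 4740813226943354765568) (nat_lit 1208925891672223212699648) (nat_lit 1) (nat_lit 0)) (.cons (.br (nat_lit 4) (nat_lit 1) (.cons (.rf (nat_lit 436) (nat_lit 493858305440582043680)) (.cons (.rf (nat_lit 436) (nat_lit 492741412732994160672)) .nil))) .nil))) .nil)))) .nil)))) .nil)))),
 (.br (nat_lit 12) (nat_lit 0) (.cons (.kr (nat_lit 79228167255077564536898715904) (nat_lit 310693935713017291937480704) (nat_lit 1) (nat_lit 0)) .nil)),
 (.br (nat_lit 10) (nat_lit 0) (.cons (.kr (nat_lit 4740813226943354765568) (nat_lit 1208925891672223212699648) (nat_lit 1) (nat_lit 0)) (.cons (.br (nat_lit 6) (nat_lit 1) (.cons (.rf (nat_lit 438) (nat_lit 493858305440582043680)) (.cons (.rf (nat_lit 438) (nat_lit 492741412732994160672)) .nil))) .nil))),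
 (.br (nat_lit 12) (nat_lit 0) (.cons (.kr (nat_lit 79228167255077564545488650496) (nat_lit 310693935713017291971035136) (nat_lit 1) (nat_lit 0)) .nil)),
 (.br (nat_lit 12) (nat_lit 0) (.cons (.kr (nat_lit 309489750634572020669481216) (nat_lit 79229371440156009816790204416) (nat_lit 1) (nat_lit 0)) .nil)),
 (.br (nat_lit 12) (nat_lit 0) (.cons (.kr (nat_lit 309489750634572012079546624) (nat_lit 79229371440156009816756649984) (nat_lit 1) (nat_lit 0)) .nil)),
 (.br (nat_lit 5) (nat_lit 1) (.cons (.rf (nat_lit 442) (nat_lit 493858305440582043680)) (.cons (.rf (nat_lit 442) (nat_lit 492741412732994160672)) .nil))),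
 (.br (nat_lit 12) (nat_lit 0) (.cons (.kr (nat_lit 309499195367537759959908608) (nat_lit 237685696468684685003878105088) (nat_lit 1) (nat_lit 0)) .nil)),
 (.br (nat_lit 6) (nat_lit 1) (.cons (.br (nat_lit 12) (nat_lit 0) (.cons (.ev (nat_lit 20361947255916569615032146460673) (nat_lit 1)) .nil)) (.cons (.br (nat_lit 10) (nat_lit 0) (.cons (.ev (nat_lit 20283341699644212398855009862144) (nat_lit 2)) .nil)) .nil))),
 (.br (nat_lit 12) (nat_lit 0) (.cons (.kr (nat_lit 309489750634572012079546624) (nat_lit 79229371440156009816756649984) (nat_lit 1) (nat_lit 0)) .nil)),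
 (.br (nat_lit 9) (nat_lit 0) (.cons (.kr (nat_lit 4740813226943354765568) (nat_lit 1208925891672223212699648) (nat_lit 1) (nat_lit 0)) (.cons (.br (nat_lit 5) (nat_lit 1) (.cons (.rf (nat_lit 446) (nat_lit 493858305440582043680)) (.cons (.rf (nat_lit 446) (nat_lit 492741412732994160672)) .nil))) .nil))),
 (.br (nat_lit 12) (nat_lit 0) (.cons (.ev (nat_lit 20282410812577490321150914330881) (nat_lit 1)) .nil)),
 (.br (nat_lit 9) (nat_lit 0) (.cons (.kr (nat_lit 79228167255077564536898715904) (nat_lit 310693935713017291937480704) (nat_lit 1) (nat_lit 0)) .nil)),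
 (.br (nat_lit 5) (nat_lit 1) (.cons (.zr (nat_lit 618974760456761505734590464) (nat_lit 3626777602960175128379393) (nat_lit 5) (nat_lit 5)) (.cons (.rf (nat_lit 449) (nat_lit 493858305440582043680)) .nil))),
 (.br (nat_lit 12) (nat_lit 0) (.cons (.kr (nat_lit 79228167255077564536898715904) (nat_lit 310693935713017291937480704) (nat_lit 1) (nat_lit 0)) .nil)),
 (.br (nat_lit 6) (nat_lit 1) (.cons (.rf (nat_lit 451) (nat_lit 493858305440582043680)) (.cons (.rf (nat_lit 451) (nat_lit 492741412732994160672)) .nil))),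
 (.br (nat_lit 9) (nat_lit 0) (.cons (.kr (nat_lit 309489750634572012079546624) (nat_lit 79229371440156009816756649984) (nat_lit 1) (nat_lit 0)) .nil)),
 (.br (nat_lit 6) (nat_lit 1) (.cons (.kr (nat_lit 309485009821345068741558272) (nat_lit 4722366482873940180992) (nat_lit 3) (nat_lit 0)) (.cons (.rf (nat_lit 453) (nat_lit 493858305440582043680)) .nil))),
 (.br (nat_lit 12) (nat_lit 0) (.cons (.ev (nat_lit 20362260367703921862690585182210) (nat_lit 2)) .nil)),
 (.br (nat_lit 12) (nat_lit 0) (.cons (.ev (nat_lit 310698676454187745077690368) (nat_lit 1)) (.cons (.ev (nat_lit 20282719088679938794568957296641) (nat_lit 1)) .nil))),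
 (.br (nat_lit 4) (nat_lit 1) (.cons (.rf (nat_lit 456) (nat_lit 493858305440582043680)) (.cons (.rf (nat_lit 456) (nat_lit 492741412732994160672)) .nil))),
 (.br (nat_lit 5) (nat_lit 1) (.cons (.br (nat_lit 12) (nat_lit 0) (.cons (.kr (nat_lit 79228167255077564536898715904) (nat_lit 310693935713017291937480704) (nat_lit 1) (nat_lit 0)) .nil)) (.cons (.br (nat_lit 9) (nat_lit 0) (.cons (.kr (nat_lit 79228167255077564536898715904) (nat_lit 310693935713017291937480704) (nat_lit 1) (nat_lit 0)) .nil)) .nil))),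
 (.br (nat_lit 8) (nat_lit 0) (.cons (.rf (nat_lit 418) (nat_lit 493858305440582043680)) (.cons (.rf (nat_lit 437) (nat_lit 493858305440582043680)) (.cons (.br (nat_lit 7) (nat_lit 0) (.cons (.br (nat_lit 9) (nat_lit 0) (.cons (.rf (nat_lit 439) (nat_lit 493858305440582043680)) (.cons (.br (nat_lit 10) (nat_lit 0) (.cons (.kr (nat_lit 4740813226951944700160) (nat_lit 1208925891672223246254080) (nat_lit 1) (nat_lit 0)) (.cons (.br (nat_lit 5) (nat_lit 1) (.cons (.rf (nat_lit 440) (nat_lit 493858305440582043680)) (.cons (.rf (nat_lit 440) (nat_lit 492741412732994160672)) .nil))) .nil))) (.cons (.br (nat_lit 10) (nat_lit 0) (.cons (.br (nat_lit 6) (nat_lit 1) (.cons (.rf (nat_lit 441) (nat_lit 493858305440582043680)) (.cons (.rf (nat_lit 441) (nat_lit 492741412732994160672)) .nil))) (.cons (.rf (nat_lit 443) (nat_lit 493858305440582043680)) (.cons (.kr (nat_lit 4740813226947649732864) (nat_lit 1208925891672223229476864) (nat_lit 1) (nat_lit 0)) .nil)))) .nil)))) (.cons (.br (nat_lit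 9) (nat_lit 0) (.cons (.br (nat_lit 6) (nat_lit 1) (.cons (.rf (nat_lit 342) (nat_lit 14241868634687374560)) (.cons (.ev (nat_lit 309489750634573111608017153) (nat_lit 1)) (.cons (.ev (nat_lit 79228167255077565636427186433) (nat_lit 1)) .nil)))) (.cons (.br (nat_lit 4) (nat_lit 1) (.cons (.rf (nat_lit 342) (nat_lit 14242959350222128352)) (.cons (.ev (nat_lit 309489750634573111608017153) (nat_lit 1)) (.cons (.ev (nat_lit 79228167255077565636427186433) (nat_lit 1)) .nil)))) (.cons (.br (nat_lit 4) (nat_lit 1) (.cons (.br (nat_lit 6) (nat_lit 1) (.cons (.rf (nat_lit 444) (nat_lit 493858305440582043680)) (.cons (.rf (nat_lit 444) (nat_lit 492741412732994160672)) .nil))) (.cons (.rf (nat_lit 445) (nat_lit 493858305440582043680)) (.cons (.rf (nat_lit 445) (nat_lit 492741412732994160672)) .nil)))) .nil)))) (.cons (.br (nat_lit 10) (nat_lit 0) (.cons (.rf (nat_lit 447) (nat_lit 493858305440582043680)) (.cons (.rf (nat_lit 344) (nat_lit 493857208160191874272)) (.cons (.br (nat_lit 4)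 (nat_lit 1) (.cons (.br (nat_lit 5) (nat_lit 1) (.cons (.rf (nat_lit 448) (nat_lit 493858305440582043680)) (.cons (.rf (nat_lit 448) (nat_lit 492741412732994160672)) .nil))) (.cons (.rf (nat_lit 450) (nat_lit 493858305440582043680)) (.cons (.rf (nat_lit 450) (nat_lit 492741412732994160672)) .nil)))) .nil)))) (.cons (.br (nat_lit 10) (nat_lit 0) (.cons (.br (nat_lit 5) (nat_lit 1) (.cons (.rf (nat_lit 452) (nat_lit 493858305440582043680)) (.cons (.rf (nat_lit 454) (nat_lit 493858305440582043680)) (.cons (.rf (nat_lit 454) (nat_lit 492741412732994160672)) .nil)))) (.cons (.br (nat_lit 9) (nat_lit 0) (.cons (.br (nat_lit 6) (nat_lit 1) (.cons (.rf (nat_lit 455) (nat_lit 493858305440582043680)) (.cons (.rf (nat_lit 455) (nat_lit 492741412732994160672)) .nil))) (.cons (.rf (nat_lit 457) (nat_lit 493858305440582043680)) (.cons (.ev (nat_lit 1213648258156192386252801) (nat_lit 1)) .nil)))) (.cons (.br (nat_lit 4) (nat_lit 1) (.cons (.br (nat_lit 5) (nat_lit 1) (.cons (.ev (nat_lit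 309489750706629610429219073) (nat_lit 1)) (.cons (.ev (nat_lit 79228167255149622135248388353) (nat_lit 1)) .nil))) (.cons (.rf (nat_lit 458) (nat_lit 493858305440582043680)) (.cons (.rf (nat_lit 458) (nat_lit 492741412732994160672)) .nil)))) (.cons (.ev (nat_lit 20282409603670117168020977615104) (nat_lit 1)) .nil))))) .nil))))) .nil)))),
 (.br (nat_lit 8) (nat_lit 0) (.cons (.rf (nat_lit 418) (nat_lit 493858305440582043680)) (.cons (.rf (nat_lit 437) (nat_lit 493858305440582043680)) (.cons (.rf (nat_lit 459) (nat_lit 493858305440582043680)) (.cons (.br (nat_lit 8) (nat_lit 0) (.cons (.rf (nat_lit 418) (nat_lit 493858305440582043680)) (.cons (.rf (nat_lit 437) (nat_lit 493858305440582043680)) (.cons (.rf (nat_lit 459) (nat_lit 493858305440582043680)) .nil)))) .nil))))),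
 (.br (nat_lit 12) (nat_lit 0) (.cons (.kr (nat_lit 79228167255077564536898715904) (nat_lit 310693935713017291937480704) (nat_lit 1) (nat_lit 0)) .nil)),
 (.br (nat_lit 9) (nat_lit 0) (.cons (.br (nat_lit 11) (nat_lit 0) (.cons (.br (nat_lit 12) (nat_lit 0) (.cons (.kr (nat_lit 309485009821345068724781056) (nat_lit 79228162514264337593543950336) (nat_lit 11) (nat_lit 0)) .nil)) .nil)) (.cons (.br (nat_lit 10) (nat_lit 0) (.cons (.kr (nat_lit 4740813226943354765568) (nat_lit 1208925891672223212699648) (nat_lit 1) (nat_lit 0)) (.cons (.br (nat_lit 3) (nat_lit 1) (.cons (.rf (nat_lit 461) (nat_lit 493858305440582043680)) (.cons (.rf (nat_lit 461) (nat_lit 492741412732994160672)) .nil))) .nil))) .nil))),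
 (.br (nat_lit 12) (nat_lit 0) (.cons (.kr (nat_lit 79228167255077564536898715904) (nat_lit 310693935713017291937480704) (nat_lit 1) (nat_lit 0)) .nil)),
 (.br (nat_lit 10) (nat_lit 0) (.cons (.kr (nat_lit 4740813226943354765568) (nat_lit 1208925891672223212699648) (nat_lit 1) (nat_lit 0)) (.cons (.br (nat_lit 3) (nat_lit 1) (.cons (.rf (nat_lit 463) (nat_lit 493858305440582043680)) (.cons (.rf (nat_lit 463) (nat_lit 492741412732994160672)) .nil))) .nil))),
 (.br (nat_lit 6) (nat_lit 1) (.cons (.br (nat_lit 12) (nat_lit 0) (.cons (.ev (nat_lit 80779247452952824438197649668) (nat_lit 3)) .nil)) (.cons (.rf (nat_lit 430) (nat_lit 493858305440581027872)) .nil))),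
 (.br (nat_lit 12) (nat_lit 0) (.cons (.ev (nat_lit 80784064266765351476315619588) (nat_lit 3)) .nil)),
 (.br (nat_lit 12) (nat_lit 0) (.cons (.kr (nat_lit 79228167255077564536898715904) (nat_lit 310693935713017291937480704) (nat_lit 1) (nat_lit 0)) .nil)),
 (.br (nat_lit 3) (nat_lit 1) (.cons (.rf (nat_lit 467) (nat_lit 493858305440582043680)) (.cons (.rf (nat_lit 467) (nat_lit 492741412732994160672)) .nil))),
 (.br (nat_lit 3) (nat_lit 1) (.cons (.rf (nat_lit 434) (nat_lit 493858305440581027872)) (.cons (.rf (nat_lit 434) (nat_lit 492741412732993144864)) .nil)))]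

theorem c11 : chkAll C T R L11 (nat_lit 435) = true := by decide +kernel

theorem l11 : (nat_lit 435) + L11.length = (nat_lit 470) := by decide +kernel

/-- part of the certificates -/
def L12 : List Prf := [(.br (nat_lit 6) (nat_lit 1) (.cons (.zr (nat_lit 20282409603652394097212070887430) (nat_lit 237684525469298828366124682496) (nat_lit 20) (nat_lit 6)) .nil)),
 (.br (nat_lit 7) (nat_lit 0) (.cons (.rf (nat_lit 460) (nat_lit 493858305440582043680)) (.cons (.br (nat_lit 8) (nat_lit 0) (.cons (.rf (nat_lit 460) (nat_lit 493857213659895400480)) (.cons (.rf (nat_lit 462) (nat_lit 493858305440582043680)) (.cons (.br (nat_lit 9) (nat_lit 0) (.cons (.br (nat_lit 13) (nat_lit 1) (.cons (.ev (nat_lit 1213666632842672057876481) (nat_lit 1)) (.cons (.ev (nat_lit 309489750706629610429219073) (nat_lit 1)) (.cons (.ev (nat_lit 79228167255149622135248388353) (nat_lit 1)) .nil)))) (.cons (.rf (nat_lit 464) (nat_lit 493858305440582043680)) (.cons (.br (nat_lit 3) (nat_lit 1) (.cons (.rf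 (nat_lit 429) (nat_lit 493858305440581027872)) (.cons (.rf (nat_lit 465) (nat_lit 493858305440582043680)) (.cons (.rf (nat_lit 465) (nat_lit 492741412732994160672)) .nil)))) .nil)))) .nil)))) (.cons (.br (nat_lit 8) (nat_lit 0) (.cons (.rf (nat_lit 460) (nat_lit 493857213659895400480)) (.cons (.br (nat_lit 9) (nat_lit 0) (.cons (.ev (nat_lit 72058693566398721) (nat_lit 1)) (.cons (.br (nat_lit 10) (nat_lit 0) (.cons (.rf (nat_lit 401) (nat_lit 14241862211528171552)) (.cons (.br (nat_lit 3) (nat_lit 1) (.cons (.rf (nat_lit 466) (nat_lit 493858305440582043680)) (.cons (.rf (nat_lit 466) (nat_lit 492741412732994160672)) .nil))) .nil))) (.cons (.br (nat_lit 10) (nat_lit 0) (.cons (.rf (nat_lit 423) (nat_lit 493858305440581027872)) (.cons (.rf (nat_lit 468) (nat_lit 493858305440582043680)) (.cons (.ev (nat_lit 20282409603670189226714510393344) (nat_lit 1)) .nil)))) .nil)))) (.cons (.br (nat_lit 9) (nat_lit 0) (.cons (.ev (nat_lit 72058693566398721) (nat_lit 1)) (.cons (.br (nat_lit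 10) (nat_lit 0) (.cons (.rf (nat_lit 433) (nat_lit 493858305440581027872)) (.cons (.rf (nat_lit 469) (nat_lit 493858305440582043680)) (.cons (.ev (nat_lit 20282409603670117168025255805184) (nat_lit 1)) .nil)))) (.cons (.br (nat_lit 10) (nat_lit 0) (.cons (.kr (nat_lit 4740813226943354765568) (nat_lit 1208925891672223212699648) (nat_lit 1) (nat_lit 0)) (.cons (.br (nat_lit 3) (nat_lit 1) (.cons (.rf (nat_lit 470) (nat_lit 493858305440582043680)) (.cons (.rf (nat_lit 470) (nat_lit 492741412732994160672)) .nil))) .nil))) .nil)))) .nil)))) .nil)))),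
 (.br (nat_lit 12) (nat_lit 0) (.cons (.ev (nat_lit 20282410812577562377645457408001) (nat_lit 1)) .nil)),
 (.br (nat_lit 12) (nat_lit 0) (.cons (.kr (nat_lit 79537647542532426744568217856) (nat_lit 1213648258155092891467776) (nat_lit 1) (nat_lit 0)) .nil)),
 (.br (nat_lit 12) (nat_lit 0) (.cons (.ev (nat_lit 20282410812577490321150914330881) (nat_lit 1)) .nil)),
 (.br (nat_lit 5) (nat_lit 1) (.cons (.br (nat_lit 12) (nat_lit 0) (.cons (.kr (nat_lit 79228167255077564536898715904) (nat_lit 310693935713017291937480704) (nat_lit 1) (nat_lit 0)) .nil)) (.cons (.rf (nat_lit 449) (nat_lit 493858305440581027872)) .nil))),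
 (.br (nat_lit 12) (nat_lit 0) (.cons (.ev (nat_lit 20362260367703921862690585182210) (nat_lit 2)) .nil)),
 (.br (nat_lit 6) (nat_lit 1) (.cons (.zr (nat_lit 237684487635026733166359479552) (nat_lit 20282412021503454050968265687041) (nat_lit 5) (nat_lit 0)) .nil)),
 (.br (nat_lit 6) (nat_lit 1) (.cons (.br (nat_lit 5) (nat_lit 1) (.cons (.ev (nat_lit 1213648258156196664508673) (nat_lit 1)) (.cons (.ev (nat_lit 79228162532711364241758683136) (nat_lit 1)) .nil))) (.cons (.rf (nat_lit 458) (nat_lit 493858305440581027872)) (.cons (.br (nat_lit 5) (nat_lit 1) (.cons (.br (nat_lit 10) (nat_lit 0) (.cons (.ev (nat_lit 20283341699644212398855009992704) (nat_lit 2)) .nil)) (.cons (.br (nat_lit 9) (nat_lit 0) (.cons (.ev (nat_lit 20283341699644212398855009992704) (nat_lit 2)) .nil)) .nil))) .nil)))),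
 (.br (nat_lit 8) (nat_lit 0) (.cons (.rf (nat_lit 460) (nat_lit 493857213659895400480)) (.cons (.rf (nat_lit 471) (nat_lit 493858305440582043680)) (.cons (.br (nat_lit 7) (nat_lit 0) (.cons (.rf (nat_lit 460) (nat_lit 493858305440582043680)) (.cons (.br (nat_lit 9) (nat_lit 0) (.cons (.br (nat_lit 13) (nat_lit 1) (.cons (.br (nat_lit 6) (nat_lit 1) (.cons (.ev (nat_lit 310693935640959702211297281) (nat_lit 1)) (.cons (.ev (nat_lit 79229371440083952227030466561) (nat_lit 1)) .nil))) (.cons (.ev (nat_lit 309489750706629610429219073) (nat_lit 1)) (.cons (.ev (nat_lit 79228167255149622135248388353) (nat_lit 1)) .nil)))) (.cons (.br (nat_lit 10) (nat_lit 0) (.cons (.rf (nat_lit 342) (nat_lit 14242959349148419296)) (.cons (.br (nat_lit 3) (nat_lit 1) (.cons (.rf (nat_lit 472) (nat_lit 493858305440582043680)) (.cons (.rf (nat_lit 472) (nat_lit 492741412732994160672)) .nil))) .nil))) (.cons (.br (nat_lit 3) (nat_lit 1) (.cons (.br (nat_lit 6) (nat_lit 1) (.cons (.rf (nat_lit 473) (nat_lit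 493858305440582043680)) (.cons (.rf (nat_lit 473) (nat_lit 492741412732994160672)) .nil))) (.cons (.ev (nat_lit 309489750634573115886141441) (nat_lit 1)) (.cons (.ev (nat_lit 79228167255077565640705310721) (nat_lit 1)) .nil)))) .nil)))) (.cons (.br (nat_lit 10) (nat_lit 0) (.cons (.rf (nat_lit 447) (nat_lit 493858305440581027872)) (.cons (.br (nat_lit 13) (nat_lit 1) (.cons (.ev (nat_lit 1213648258156196664508673) (nat_lit 1)) (.cons (.rf (nat_lit 325) (nat_lit 493858305440582043680)) (.cons (.rf (nat_lit 325) (nat_lit 492741412732994160672)) .nil)))) (.cons (.br (nat_lit 3) (nat_lit 1) (.cons (.br (nat_lit 5) (nat_lit 1) (.cons (.rf (nat_lit 474) (nat_lit 493858305440582043680)) (.cons (.rf (nat_lit 474) (nat_lit 492741412732994160672)) .nil))) (.cons (.rf (nat_lit 475) (nat_lit 493858305440582043680)) (.cons (.rf (nat_lit 475) (nat_lit 492741412732994160672)) .nil)))) .nil)))) (.cons (.br (nat_lit 3) (nat_lit 1) (.cons (.br (nat_lit 5) (nat_lit 1) (.cons (.br (nat_lit 6) (nat_lit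 1) (.cons (.rf (nat_lit 476) (nat_lit 493858305440582043680)) (.cons (.rf (nat_lit 476) (nat_lit 492741412732994160672)) .nil))) (.cons (.ev (nat_lit 309489750706629610429219073) (nat_lit 1)) (.cons (.ev (nat_lit 79228167255149622135248388353) (nat_lit 1)) .nil)))) (.cons (.br (nat_lit 13) (nat_lit 1) (.cons (.br (nat_lit 5) (nat_lit 1) (.cons (.rf (nat_lit 477) (nat_lit 493858305440582043680)) (.cons (.rf (nat_lit 477) (nat_lit 492741412732994160672)) .nil))) (.cons (.kr (nat_lit 309485028268089146729300224) (nat_lit 1208925891672223229476864) (nat_lit 1) (nat_lit 0)) (.cons (.kr (nat_lit 79228162532711081671548469504) (nat_lit 1208925891672223229476864) (nat_lit 1) (nat_lit 0)) .nil)))) (.cons (.rf (nat_lit 478) (nat_lit 493858305440582043680)) (.cons (.rf (nat_lit 478) (nat_lit 492741412732994160672)) .nil))))) .nil))))) .nil)))),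
 (.br (nat_lit 8) (nat_lit 0) (.cons (.rf (nat_lit 460) (nat_lit 493857213659895400480)) (.cons (.rf (nat_lit 471) (nat_lit 493858305440582043680)) (.cons (.rf (nat_lit 479) (nat_lit 493858305440582043680)) (.cons (.br (nat_lit 8) (nat_lit 0) (.cons (.rf (nat_lit 460) (nat_lit 493857213659895400480)) (.cons (.rf (nat_lit 471) (nat_lit 493858305440582043680)) (.cons (.rf (nat_lit 479) (nat_lit 493858305440582043680)) .nil)))) .nil))))),
 (.br (nat_lit 12) (nat_lit 0) (.cons (.kr (nat_lit 79229371440156009816756584704) (nat_lit 309489750634572012079611904) (nat_lit 1) (nat_lit 0)) .nil)),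
 (.br (nat_lit 4) (nat_lit 1) (.cons (.rf (nat_lit 481) (nat_lit 493858305440582043680)) (.cons (.ev (nat_lit 79228162532783420740579950848) (nat_lit 1)) .nil))),
 (.br (nat_lit 12) (nat_lit 0) (.cons (.ev (nat_lit 20361638979869677546630281166850) (nat_lit 2)) .nil)),
 (.br (nat_lit 6) (nat_lit 1) (.cons (.br (nat_lit 12) (nat_lit 0) (.cons (.kr (nat_lit 79229371440156009816756584704) (nat_lit 309489750634572012079611904) (nat_lit 1) (nat_lit 0)) .nil)) (.cons (.br (nat_lit 10) (nat_lit 0) (.cons (.kr (nat_lit 79229371440156009816756584704) (nat_lit 309489750634572012079611904) (nat_lit 1) (nat_lit 0)) .nil)) .nil))),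
 (.br (nat_lit 12) (nat_lit 0) (.cons (.ev (nat_lit 20361638979869677546630281166850) (nat_lit 2)) .nil)),
 (.br (nat_lit 12) (nat_lit 0) (.cons (.ev (nat_lit 20282719088679938794568957296641) (nat_lit 1)) .nil)),
 (.br (nat_lit 4) (nat_lit 1) (.cons (.rf (nat_lit 484) (nat_lit 493858305440581027872)) (.cons (.br (nat_lit 6) (nat_lit 1) (.cons (.ev (nat_lit 1213648258156196664508673) (nat_lit 1)) (.cons (.br (nat_lit 9) (nat_lit 0) (.cons (.ev (nat_lit 20282722720179836742978269872640) (nat_lit 2)) .nil)) .nil))) (.cons (.br (nat_lit 9) (nat_lit 0) (.cons (.br (nat_lit 10) (nat_lit 0) (.cons (.ev (nat_lit 40644365378792243259737593022720) (nat_lit 4)) .nil)) (.cons (.ev (nat_lit 20361637770906820047177699557376) (nat_lit 1)) .nil))) .nil)))),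
 (.br (nat_lit 8) (nat_lit 0) (.cons (.rf (nat_lit 460) (nat_lit 493857213659895400480)) (.cons (.rf (nat_lit 480) (nat_lit 493857213659895400480)) (.cons (.br (nat_lit 7) (nat_lit 0) (.cons (.rf (nat_lit 460) (nat_lit 493858305440582043680)) (.cons (.rf (nat_lit 480) (nat_lit 493858305440582043680)) (.cons (.br (nat_lit 10) (nat_lit 0) (.cons (.rf (nat_lit 354) (nat_lit 493857207060613204192)) (.cons (.br (nat_lit 13) (nat_lit 1) (.cons (.ev (nat_lit 1213648258156196664508673) (nat_lit 1)) (.cons (.rf (nat_lit 334) (nat_lit 493858305440582043680)) (.cons (.rf (nat_lit 334) (nat_lit 492741412732994160672)) .nil)))) (.cons (.br (nat_lit 3) (nat_lit 1) (.cons (.br (nat_lit 4) (nat_lit 1) (.cons (.zr (nat_lit 618970019715592156417753088) (nat_lit 9481626454986237935617) (nat_lit 5) (nat_lit 5)) (.cons (.zr (nat_lit 158456325028601577206056091648) (nat_lit 9481626454986237935617) (nat_lit 5) (nat_lit 5)) .nil))) (.cons (.rf (nat_lit 482) (nat_lit 493858305440582043680)) (.cons (.rf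 (nat_lit 482) (nat_lit 492741412732994160672)) .nil)))) .nil)))) (.cons (.br (nat_lit 3) (nat_lit 1) (.cons (.br (nat_lit 4) (nat_lit 1) (.cons (.br (nat_lit 6) (nat_lit 1) (.cons (.rf (nat_lit 483) (nat_lit 493858305440582043680)) (.cons (.rf (nat_lit 483) (nat_lit 492741412732994160672)) .nil))) (.cons (.rf (nat_lit 484) (nat_lit 493858305440582043680)) (.cons (.rf (nat_lit 484) (nat_lit 492741412732994160672)) .nil)))) (.cons (.br (nat_lit 9) (nat_lit 0) (.cons (.br (nat_lit 6) (nat_lit 1) (.cons (.rf (nat_lit 485) (nat_lit 493858305440582043680)) (.cons (.rf (nat_lit 485) (nat_lit 492741412732994160672)) .nil))) (.cons (.br (nat_lit 4) (nat_lit 1) (.cons (.rf (nat_lit 486) (nat_lit 493858305440582043680)) (.cons (.rf (nat_lit 486) (nat_lit 492741412732994160672)) .nil))) (.cons (.ev (nat_lit 1213648258156192386252801) (nat_lit 1)) .nil)))) (.cons (.rf (nat_lit 487) (nat_lit 493858305440582043680)) (.cons (.rf (nat_lit 487) (nat_lit 492741412732994160672)) .nil))))) .nil)))))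 .nil)))),
 (.br (nat_lit 8) (nat_lit 0) (.cons (.rf (nat_lit 460) (nat_lit 493857213659895400480)) (.cons (.rf (nat_lit 480) (nat_lit 493857213659895400480)) (.cons (.rf (nat_lit 488) (nat_lit 493858305440582043680)) (.cons (.br (nat_lit 8) (nat_lit 0) (.cons (.rf (nat_lit 460) (nat_lit 493857213659895400480)) (.cons (.rf (nat_lit 480) (nat_lit 493857213659895400480)) (.cons (.rf (nat_lit 488) (nat_lit 493858305440582043680)) .nil)))) .nil))))),
 (.br (nat_lit 12) (nat_lit 0) (.cons (.ev (nat_lit 20361637766184453845783031054593) (nat_lit 1)) .nil)),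
 (.br (nat_lit 5) (nat_lit 1) (.cons (.br (nat_lit 12) (nat_lit 0) (.cons (.kr (nat_lit 79229371440156009816756584704) (nat_lit 309489750634572012079611904) (nat_lit 1) (nat_lit 0)) .nil)) (.cons (.br (nat_lit 10) (nat_lit 0) (.cons (.kr (nat_lit 79229371440156009816756584704) (nat_lit 309489750634572012079611904) (nat_lit 1) (nat_lit 0)) .nil)) .nil))),
 (.br (nat_lit 4) (nat_lit 1) (.cons (.br (nat_lit 5) (nat_lit 1) (.cons (.rf (nat_lit 490) (nat_lit 493858305440582043680)) (.cons (.rf (nat_lit 490) (nat_lit 492741412732994160672)) .nil))) (.cons (.rf (nat_lit 491) (nat_lit 493858305440582043680)) (.cons (.rf (nat_lit 491) (nat_lit 492741412732994160672)) .nil)))),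
 (.br (nat_lit 4) (nat_lit 1) (.cons (.rf (nat_lit 491) (nat_lit 493858305440581027872)) (.cons (.rf (nat_lit 491) (nat_lit 493857213659894384672)) (.cons (.ev (nat_lit 309485028340428215760715776) (nat_lit 1)) .nil)))),
 (.br (nat_lit 8) (nat_lit 0) (.cons (.rf (nat_lit 460) (nat_lit 493857213659895400480)) (.cons (.rf (nat_lit 480) (nat_lit 493857213659895400480)) (.cons (.rf (nat_lit 489) (nat_lit 493857213659895400480)) (.cons (.br (nat_lit 7) (nat_lit 0) (.cons (.rf (nat_lit 460) (nat_lit 493858305440582043680)) (.cons (.rf (nat_lit 480) (nat_lit 493858305440582043680)) (.cons (.rf (nat_lit 489) (nat_lit 493858305440582043680)) (.cons (.br (nat_lit 3) (nat_lit 1) (.cons (.rf (nat_lit 492) (nat_lit 493858305440582043680)) (.cons (.rf (nat_lit 492) (nat_lit 493857213659895400480)) (.cons (.rf (nat_lit 493) (nat_lit 493858305440582043680)) (.cons (.rf (nat_lit 493) (nat_lit 492741412732994160672)) .nil))))) .nil))))) .nil))))),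
 (.br (nat_lit 7) (nat_lit 0) (.cons (.rf (nat_lit 460) (nat_lit 493858305440582043680)) (.cons (.rf (nat_lit 480) (nat_lit 493858305440582043680)) (.cons (.rf (nat_lit 489) (nat_lit 493858305440582043680)) (.cons (.br (nat_lit 8) (nat_lit 0) (.cons (.rf (nat_lit 460) (nat_lit 493857213659895400480)) (.cons (.rf (nat_lit 480) (nat_lit 493857213659895400480)) (.cons (.rf (nat_lit 489) (nat_lit 493857213659895400480)) (.cons (.rf (nat_lit 494) (nat_lit 493857213659895400480)) (.cons (.rf (nat_lit 494) (nat_lit 493858305440582043680)) .nil)))))) .nil))))),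
 (.br (nat_lit 2) (nat_lit 0) (.cons (.rf (nat_lit 397) (nat_lit 14242959524133701664)) (.cons (.rf (nat_lit 397) (nat_lit 14242959523092498464)) (.cons (.br (nat_lit 7) (nat_lit 0) (.cons (.rf (nat_lit 408) (nat_lit 14242959524133701664)) (.cons (.rf (nat_lit 408) (nat_lit 14242959523092498464)) (.cons (.rf (nat_lit 408) (nat_lit 14242959521921270848)) (.cons (.rf (nat_lit 408) (nat_lit 14242959520880067648)) (.cons (.br (nat_lit 7) (nat_lit 0) (.cons (.rf (nat_lit 408) (nat_lit 14242959524133701664)) (.cons (.rf (nat_lit 408) (nat_lit 14242959523092498464)) (.cons (.rf (nat_lit 408) (nat_lit 14242959521921270848)) (.cons (.rf (nat_lit 408) (nat_lit 14242959520880067648)) .nil))))) .nil)))))) (.cons (.br (nat_lit 7) (nat_lit 0) (.cons (.rf (nat_lit 460) (nat_lit 493858305440582043680)) (.cons (.rf (nat_lit 480) (nat_lit 493858305440582043680)) (.cons (.rf (nat_lit 489) (nat_lit 493858305440582043680)) (.cons (.rf (nat_lit 495) (nat_lit 493858305440582043680)) (.cons (.br (nat_lit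 7) (nat_lit 0) (.cons (.rf (nat_lit 460) (nat_lit 493858305440582043680)) (.cons (.rf (nat_lit 480) (nat_lit 493858305440582043680)) (.cons (.rf (nat_lit 489) (nat_lit 493858305440582043680)) (.cons (.rf (nat_lit 495) (nat_lit 493858305440582043680)) .nil))))) .nil)))))) .nil)))))]

theorem c12 : chkAll C T R L12 (nat_lit 470) = true := by decide +kernel

theorem l12 : (nat_lit 470) + L12.length = (nat_lit 497) := by decide +kernel

/-- part of the certificates -/
def L13 : List Prf := [(.br (nat_lit 2) (nat_lit 0) (.cons (.rf (nat_lit 397) (nat_lit 14242959524133701664)) (.cons (.rf (nat_lit 397) (nat_lit 14242959523092498464)) (.cons (.rf (nat_lit 496) (nat_lit 14242959524133701664)) (.cons (.rf (nat_lit 496) (nat_lit 14242959523092498464)) (.cons (.br (nat_lit 2) (nat_lit 0) (.cons (.rf (nat_lit 397) (nat_lit 14242959524133701664)) (.cons (.rf (nat_lit 397) (nat_lit 14242959523092498464)) (.cons (.rf (nat_lit 496) (nat_lit 14242959524133701664)) (.cons (.rf (nat_lit 496)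 (nat_lit 14242959523092498464)) .nil))))) .nil)))))),
 (.br (nat_lit 8) (nat_lit 0) (.cons (.br (nat_lit 9) (nat_lit 0) (.cons (.ev (nat_lit 72339069031415809) (nat_lit 1)) (.cons (.rf (nat_lit 351) (nat_lit 493858305438469163040)) .nil))) (.cons (.rf (nat_lit 368) (nat_lit 15433072044951046176)) .nil))),
 (.br (nat_lit 8) (nat_lit 0) (.cons (.rf (nat_lit 498) (nat_lit 493858305440582043680)) (.cons (.br (nat_lit 9) (nat_lit 0) (.cons (.br (nat_lit 10) (nat_lit 0) (.cons (.kr (nat_lit 4740813226943354765568) (nat_lit 1208925891672223212699648) (nat_lit 1) (nat_lit 0)) (.cons (.br (nat_lit 6) (nat_lit 1) (.cons (.rf (nat_lit 362) (nat_lit 493858305438469163040)) (.cons (.rf (nat_lit 362) (nat_lit 492741412730881280032)) .nil))) .nil))) (.cons (.ev (nat_lit 72339069031415809) (nat_lit 1)) (.cons (.br (nat_lit 4) (nat_lit 1) (.cons (.ev (nat_lit 18446744078021361921) (nat_lit 1)) (.cons (.rf (nat_lit 365) (nat_lit 493858305440549537824)) (.cons (.rf (nat_lit 365) (nat_lit 492741412732961654816))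 .nil)))) .nil)))) .nil))),
 (.br (nat_lit 8) (nat_lit 0) (.cons (.rf (nat_lit 498) (nat_lit 493858305440582043680)) (.cons (.rf (nat_lit 499) (nat_lit 493858305440582043680)) (.cons (.br (nat_lit 8) (nat_lit 0) (.cons (.rf (nat_lit 368) (nat_lit 15433072044951046176)) (.cons (.rf (nat_lit 499) (nat_lit 493858305440582043680)) .nil))) .nil)))),
 (.br (nat_lit 9) (nat_lit 0) (.cons (.br (nat_lit 10) (nat_lit 0) (.cons (.rf (nat_lit 377) (nat_lit 493858305438469163040)) .nil)) (.cons (.br (nat_lit 5) (nat_lit 1) (.cons (.rf (nat_lit 380) (nat_lit 493858305438469163040)) (.cons (.rf (nat_lit 381) (nat_lit 492741412730881280032)) .nil))) .nil))),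
 (.br (nat_lit 8) (nat_lit 0) (.cons (.rf (nat_lit 498) (nat_lit 493857213659895400480)) (.cons (.rf (nat_lit 374) (nat_lit 493858305440549537824)) (.cons (.br (nat_lit 6) (nat_lit 1) (.cons (.rf (nat_lit 378) (nat_lit 493858305438469163040)) (.cons (.ev (nat_lit 18447025548703105281) (nat_lit 1)) (.cons (.rf (nat_lit 501) (nat_lit 493858305440582043680)) (.cons (.rf (nat_lit 501) (nat_lit 492741412732994160672)) .nil))))) .nil)))),
 (.br (nat_lit 10) (nat_lit 0) (.cons (.rf (nat_lit 352) (nat_lit 14242958458949306400)) (.cons (.br (nat_lit 6) (nat_lit 1) (.cons (.rf (nat_lit 355) (nat_lit 493857213657782519840)) (.cons (.rf (nat_lit 355) (nat_lit 492740320950194636832)) .nil))) .nil))),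
 (.br (nat_lit 6) (nat_lit 1) (.cons (.ev (nat_lit 1208944266640182172713216) (nat_lit 1)) .nil)),
 (.br (nat_lit 8) (nat_lit 0) (.cons (.rf (nat_lit 498) (nat_lit 493857213659895400480)) (.cons (.rf (nat_lit 498) (nat_lit 493857213657750013984)) (.cons (.br (nat_lit 9) (nat_lit 0) (.cons (.rf (nat_lit 503) (nat_lit 493858305440582043680)) (.cons (.rf (nat_lit 503) (nat_lit 493858305438436657184)) (.cons (.br (nat_lit 10) (nat_lit 0) (.cons (.ev (nat_lit 1213648258155097169658113) (nat_lit 1)) (.cons (.ev (nat_lit 1213648258436567851401473) (nat_lit 1)) (.cons (.br (nat_lit 4) (nat_lit 1) (.cons (.rf (nat_lit 504) (nat_lit 493858305440582043680)) (.cons (.rf (nat_lit 504) (nat_lit 492741412732994160672)) .nil))) .nil)))) .nil)))) .nil)))),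
 (.br (nat_lit 8) (nat_lit 0) (.cons (.rf (nat_lit 502) (nat_lit 493858305440582043680)) (.cons (.rf (nat_lit 505) (nat_lit 493858305440582043680)) (.cons (.rf (nat_lit 502) (nat_lit 493858305438436657184)) (.cons (.br (nat_lit 8) (nat_lit 0) (.cons (.rf (nat_lit 502) (nat_lit 493858305440582043680)) (.cons (.rf (nat_lit 505) (nat_lit 493858305440582043680)) (.cons (.rf (nat_lit 502) (nat_lit 493858305438436657184)) .nil)))) .nil))))),
 (.br (nat_lit 10) (nat_lit 0) (.cons (.kr (nat_lit 79229371440156009816756584704) (nat_lit 309489750634572012079611904) (nat_lit 1) (nat_lit 0)) .nil)),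
 (.br (nat_lit 11) (nat_lit 0) (.cons (.kr (nat_lit 309485009821345068724781312) (nat_lit 1208925819614629174771712) (nat_lit 1) (nat_lit 0)) (.cons (.br (nat_lit 13) (nat_lit 1) (.cons (.rf (nat_lit 507) (nat_lit 455774704780903024672)) (.cons (.rf (nat_lit 507) (nat_lit 455773613000216381472)) .nil))) .nil))),
 (.br (nat_lit 8) (nat_lit 0) (.cons (.rf (nat_lit 368) (nat_lit 15433037926804588576)) (.cons (.rf (nat_lit 502) (nat_lit 493857213659895400480)) (.cons (.br (nat_lit 5) (nat_lit 1) (.cons (.rf (nat_lit 392) (nat_lit 15433072044951046176)) (.cons (.rf (nat_lit 392) (nat_lit 15433037926804588576)) (.cons (.rf (nat_lit 508) (nat_lit 15433072044983552032)) (.cons (.rf (nat_lit 508) (nat_lit 15398169147871430688)) .nil))))) .nil)))),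
 (.br (nat_lit 6) (nat_lit 1) (.cons (.ev (nat_lit 1213648258436567851401473) (nat_lit 1)) (.cons (.ev (nat_lit 79229376180897460645361877248) (nat_lit 1)) .nil))),
 (.br (nat_lit 8) (nat_lit 0) (.cons (.rf (nat_lit 368) (nat_lit 15433037926804588576)) (.cons (.rf (nat_lit 500) (nat_lit 493857213657750013984)) (.cons (.br (nat_lit 9) (nat_lit 0) (.cons (.br (nat_lit 10) (nat_lit 0) (.cons (.rf (nat_lit 371) (nat_lit 493857213657782519840)) (.cons (.kr (nat_lit 1208925891672223212634368) (nat_lit 4740813226943354830848) (nat_lit 1) (nat_lit 0)) .nil))) (.cons (.br (nat_lit 4) (nat_lit 1) (.cons (.ev (nat_lit 1213648258155097169658113) (nat_lit 1)) (.cons (.rf (nat_lit 359) (nat_lit 493857213659862894624)) (.cons (.rf (nat_lit 359) (nat_lit 492740320952275011616)) .nil)))) (.cons (.br (nat_lit 10) (nat_lit 0) (.cons (.br (nat_lit 11) (nat_lit 0) (.cons (.br (nat_lit 6) (nat_lit 1) (.cons (.ev (nat_lit 1858133244586946044379595010) (nat_lit 3)) .nil)) .nil)) (.cons (.br (nat_lit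 4) (nat_lit 1) (.cons (.rf (nat_lit 510) (nat_lit 493858305440582043680)) (.cons (.rf (nat_lit 510) (nat_lit 492741412732994160672)) .nil))) .nil))) .nil)))) .nil)))),
 (.br (nat_lit 5) (nat_lit 1) (.cons (.rf (nat_lit 387) (nat_lit 493857213657782519840)) (.cons (.br (nat_lit 10) (nat_lit 0) (.cons (.kr (nat_lit 310693935713017291937415424) (nat_lit 79228167255077564536898781184) (nat_lit 1) (nat_lit 0)) .nil)) .nil))),
 (.br (nat_lit 6) (nat_lit 1) (.cons (.kr (nat_lit 1208925891672223212634112) (nat_lit 4740813226943354765312) (nat_lit 7) (nat_lit 0)) (.cons (.rf (nat_lit 512) (nat_lit 493858305440582043680)) (.cons (.rf (nat_lit 512) (nat_lit 492741412732994160672)) .nil)))),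
 (.br (nat_lit 6) (nat_lit 1) (.cons (.ev (nat_lit 72339069031481601) (nat_lit 1)) (.cons (.rf (nat_lit 513) (nat_lit 493857213657750013984)) (.cons (.br (nat_lit 5) (nat_lit 1) (.cons (.rf (nat_lit 387) (nat_lit 493858305440549537824)) (.cons (.rf (nat_lit 387) (nat_lit 492740320950194636832)) .nil))) .nil)))),
 (.br (nat_lit 8) (nat_lit 0) (.cons (.rf (nat_lit 502) (nat_lit 493857213659895400480)) (.cons (.rf (nat_lit 500) (nat_lit 493857213657750013984)) (.cons (.br (nat_lit 4) (nat_lit 1) (.cons (.rf (nat_lit 513) (nat_lit 493858305440582043680)) (.cons (.ev (nat_lit 18446744078021361921) (nat_lit 1)) (.cons (.rf (nat_lit 514) (nat_lit 493858305440582043680)) (.cons (.rf (nat_lit 514) (nat_lit 492741412732994160672)) .nil))))) .nil)))),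
 (.br (nat_lit 7) (nat_lit 0) (.cons (.rf (nat_lit 500) (nat_lit 493858305440582043680)) (.cons (.rf (nat_lit 506) (nat_lit 493858305440582043680)) (.cons (.br (nat_lit 8) (nat_lit 0) (.cons (.rf (nat_lit 509) (nat_lit 493858305440582043680)) (.cons (.rf (nat_lit 511) (nat_lit 493858305440582043680)) (.cons (.rf (nat_lit 515) (nat_lit 493858305440582043680)) (.cons (.br (nat_lit 8) (nat_lit 0) (.cons (.rf (nat_lit 509) (nat_lit 493858305440582043680)) (.cons (.rf (nat_lit 511) (nat_lit 493858305440582043680)) (.cons (.rf (nat_lit 515) (nat_lit 493858305440582043680)) .nil)))) .nil))))) .nil)))),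
 (.br (nat_lit 8) (nat_lit 0) (.cons (.rf (nat_lit 516) (nat_lit 493857213659895400480)) (.cons (.rf (nat_lit 516) (nat_lit 493857213657750013984)) (.cons (.br (nat_lit 8) (nat_lit 0) (.cons (.rf (nat_lit 516) (nat_lit 493857213659895400480)) (.cons (.rf (nat_lit 516) (nat_lit 493857213657750013984)) .nil))) .nil)))),
 (.br (nat_lit 2) (nat_lit 0) (.cons (.rf (nat_lit 497) (nat_lit 14242959524133700672)) (.cons (.kr (nat_lit 256) (nat_lit 65536) (nat_lit 1) (nat_lit 0)) (.cons (.rf (nat_lit 497) (nat_lit 14242959521988314176)) (.cons (.br (nat_lit 7) (nat_lit 0) (.cons (.rf (nat_lit 516) (nat_lit 493858305440582043680)) (.cons (.rf (nat_lit 517) (nat_lit 493858305440582043680)) (.cons (.rf (nat_lit 516) (nat_lit 493858305438436657184)) (.cons (.br (nat_lit 7) (nat_lit 0) (.cons (.rf (nat_lit 516) (nat_lit 493858305440582043680)) (.cons (.rf (nat_lit 517) (nat_lit 493858305440582043680)) (.cons (.rf (nat_lit 516) (nat_lit 493858305438436657184)) .nil)))) .nil))))) .nil))))),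
 (.br (nat_lit 8) (nat_lit 0) (.cons (.br (nat_lit 9) (nat_lit 0) (.cons (.br (nat_lit 13) (nat_lit 1) (.cons (.kr (nat_lit 4740813226943354765568) (nat_lit 1208925891672223212699648) (nat_lit 1) (nat_lit 0)) (.cons (.zr (nat_lit 14222439680830064296704) (nat_lit 928455029464317784974426113) (nat_lit 5) (nat_lit 0)) (.cons (.zr (nat_lit 14222439680830064296704) (nat_lit 237684487542793295359431933953) (nat_lit 5) (nat_lit 0)) .nil)))) .nil)) (.cons (.br (nat_lit 9) (nat_lit 0) (.cons (.br (nat_lit 13) (nat_lit 1) (.cons (.kr (nat_lit 4740813226943354765568) (nat_lit 1208925891672223212699648) (nat_lit 1) (nat_lit 0)) (.cons (.zr (nat_lit 9481698511480747524608) (nat_lit 618970019642972716249645057) (nat_lit 5) (nat_lit 0)) (.cons (.zr (nat_lit 9481698511480747524608) (nat_lit 158456325028528957765887983617) (nat_lit 5) (nat_lit 0)) .nil)))) (.cons (.br (nat_lit 10) (nat_lit 0) (.cons (.br (nat_lit 13) (nat_lit 1) (.cons (.ev (nat_lit 310693954160042844918644993) (nat_lit 1))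 (.cons (.ev (nat_lit 79229371458603035369737814273) (nat_lit 1)) .nil))) (.cons (.rf (nat_lit 399) (nat_lit 493858305440549537824)) .nil))) .nil))) .nil))),
 (.br (nat_lit 7) (nat_lit 0) (.cons (.rf (nat_lit 519) (nat_lit 14242959524133701664)) (.cons (.ev (nat_lit 281479271743489) (nat_lit 1)) (.cons (.br (nat_lit 8) (nat_lit 0) (.cons (.ev (nat_lit 1099528405249) (nat_lit 1)) (.cons (.rf (nat_lit 519) (nat_lit 14241867742405854272)) (.cons (.br (nat_lit 9) (nat_lit 0) (.cons (.br (nat_lit 6) (nat_lit 1) (.cons (.rf (nat_lit 401) (nat_lit 14242959524101195808)) (.cons (.ev (nat_lit 309489750706630705645944833) (nat_lit 1)) (.cons (.ev (nat_lit 79228167255149623230465114113) (nat_lit 1)) .nil)))) (.cons (.rf (nat_lit 403) (nat_lit 493858305440549537824)) (.cons (.br (nat_lit 10) (nat_lit 0) (.cons (.rf (nat_lit 403) (nat_lit 493857213658756678720)) (.cons (.ev (nat_lit 1213648258436567851401473) (nat_lit 1)) (.cons (.rf (nat_lit 405) (nat_lit 493858305440549537824)) .nil))))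 .nil)))) .nil)))) .nil)))),
 (.br (nat_lit 8) (nat_lit 0) (.cons (.rf (nat_lit 520) (nat_lit 14242959524133701664)) (.cons (.ev (nat_lit 1099528405249) (nat_lit 1)) (.cons (.rf (nat_lit 520) (nat_lit 14242959521988315168)) (.cons (.br (nat_lit 8) (nat_lit 0) (.cons (.rf (nat_lit 520) (nat_lit 14242959524133701664)) (.cons (.ev (nat_lit 1099528405249) (nat_lit 1)) (.cons (.rf (nat_lit 520) (nat_lit 14242959521988315168)) .nil)))) .nil))))),
 (.br (nat_lit 12) (nat_lit 0) (.cons (.ev (nat_lit 80779247527028024512218464516) (nat_lit 3)) .nil)),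
 (.br (nat_lit 6) (nat_lit 1) (.cons (.br (nat_lit 12) (nat_lit 0) (.cons (.ev (nat_lit 80784064340840551550336434436) (nat_lit 3)) .nil)) (.cons (.rf (nat_lit 430) (nat_lit 493858305440549537824)) .nil))),
 (.br (nat_lit 6) (nat_lit 1) (.cons (.zr (nat_lit 79228162514985761270273474568) (nat_lit 141976867244524945875404295506176) (nat_lit 10) (nat_lit 0)) .nil)),
 (.br (nat_lit 8) (nat_lit 0) (.cons (.ev (nat_lit 1099528405249) (nat_lit 1)) (.cons (.br (nat_lit 7) (nat_lit 0) (.cons (.br (nat_lit 9) (nat_lit 0) (.cons (.br (nat_lit 11) (nat_lit 0) (.cons (.br (nat_lit 12) (nat_lit 0) (.cons (.kr (nat_lit 309485009821345068724781056) (nat_lit 79228162514264337593543950336) (nat_lit 11) (nat_lit 0)) .nil)) .nil)) (.cons (.rf (nat_lit 421) (nat_lit 493858305440549537824)) .nil))) (.cons (.rf (nat_lit 462) (nat_lit 493858305440547506208)) (.cons (.br (nat_lit 9) (nat_lit 0) (.cons (.br (nat_lit 6) (nat_lit 1) (.cons (.rf (nat_lit 401) (nat_lit 14242952927031435296)) (.cons (.ev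 (nat_lit 309489750706630705645944833) (nat_lit 1)) (.cons (.ev (nat_lit 79228167255149623230465114113) (nat_lit 1)) .nil)))) (.cons (.br (nat_lit 10) (nat_lit 0) (.cons (.rf (nat_lit 401) (nat_lit 14241862211496681504)) (.cons (.br (nat_lit 5) (nat_lit 1) (.cons (.rf (nat_lit 522) (nat_lit 493858305440582043680)) (.cons (.rf (nat_lit 522) (nat_lit 492741412732994160672)) .nil))) .nil))) (.cons (.br (nat_lit 10) (nat_lit 0) (.cons (.rf (nat_lit 423) (nat_lit 493858305440549537824)) (.cons (.rf (nat_lit 468) (nat_lit 493858305440547506208)) (.cons (.ev (nat_lit 20282410817299856521450366238976) (nat_lit 1)) .nil)))) .nil)))) .nil)))) (.cons (.br (nat_lit 7) (nat_lit 0) (.cons (.rf (nat_lit 427) (nat_lit 15433072044951046176)) (.cons (.br (nat_lit 9) (nat_lit 0) (.cons (.ev (nat_lit 72058697844523009) (nat_lit 1)) (.cons (.rf (nat_lit 464) (nat_lit 493858305440547506208)) (.cons (.br (nat_lit 5) (nat_lit 1) (.cons (.rf (nat_lit 429) (nat_lit 493858305440549537824)) (.cons (.rf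 (nat_lit 523) (nat_lit 493858305440582043680)) (.cons (.rf (nat_lit 523) (nat_lit 492741412732994160672)) .nil)))) .nil)))) (.cons (.br (nat_lit 9) (nat_lit 0) (.cons (.br (nat_lit 10) (nat_lit 0) (.cons (.ev (nat_lit 1213666632842676336132353) (nat_lit 1)) (.cons (.br (nat_lit 11) (nat_lit 0) (.cons (.br (nat_lit 6) (nat_lit 1) (.cons (.ev (nat_lit 1858152060264779709082436358) (nat_lit 3)) .nil)) .nil)) .nil))) (.cons (.br (nat_lit 10) (nat_lit 0) (.cons (.rf (nat_lit 433) (nat_lit 493858305440549537824)) (.cons (.rf (nat_lit 469) (nat_lit 493858305440547506208)) (.cons (.ev (nat_lit 20282410817299928579040125976576) (nat_lit 1)) .nil)))) (.cons (.br (nat_lit 10) (nat_lit 0) (.cons (.kr (nat_lit 4740813226943354765568) (nat_lit 1208925891672223212699648) (nat_lit 1) (nat_lit 0)) (.cons (.br (nat_lit 5) (nat_lit 1) (.cons (.rf (nat_lit 524) (nat_lit 493858305440582043680)) (.cons (.rf (nat_lit 524) (nat_lit 492741412732994160672)) .nil))) .nil))) .nil)))) .nil)))) .nil))))]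

theorem c13 : chkAll C T R L13 (nat_lit 497) = true := by decide +kernel

theorem l13 : (nat_lit 497) + L13.length = (nat_lit 526) := by decide +kernel

/-- part of the certificates -/
def L14 : List Prf := [(.br (nat_lit 12) (nat_lit 0) (.cons (.ev (nat_lit 20282410812577562378744952258561) (nat_lit 1)) .nil)),
 (.br (nat_lit 5) (nat_lit 1) (.cons (.rf (nat_lit 526) (nat_lit 493858305440582043680)) (.cons (.rf (nat_lit 526) (nat_lit 492741412732994160672)) .nil))),
 (.br (nat_lit 12) (nat_lit 0) (.cons (.ev (nat_lit 79538880117150003671073227012) (nat_lit 3)) .nil)),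
 (.br (nat_lit 12) (nat_lit 0) (.cons (.ev (nat_lit 202906127759637731820736038374152) (nat_lit 4)) .nil)),
 (.br (nat_lit 10) (nat_lit 0) (.cons (.br (nat_lit 12) (nat_lit 0) (.cons (.ev (nat_lit 81403024878855668489649194756) (nat_lit 3)) .nil)) (.cons (.zr (nat_lit 309485028412204330510319617) (nat_lit 40564819212025707331863676190976) (nat_lit 5) (nat_lit 0)) .nil))),
 (.br (nat_lit 6) (nat_lit 1) (.cons (.rf (nat_lit 458) (nat_lit 493858305440549537824)) (.cons (.br (nat_lit 10) (nat_lit 0) (.cons (.ev (nat_lit 20283339272384877809383298302464) (nat_lit 2)) .nil)) .nil))),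
 (.br (nat_lit 5) (nat_lit 1) (.cons (.br (nat_lit 12) (nat_lit 0) (.cons (.ev (nat_lit 20282721506550168884197244207874) (nat_lit 2)) .nil)) (.cons (.br (nat_lit 9) (nat_lit 0) (.cons (.ev (nat_lit 20282721506550168884197244207874) (nat_lit 2)) .nil)) .nil))),
 (.br (nat_lit 5) (nat_lit 1) (.cons (.br (nat_lit 6) (nat_lit 1) (.cons (.br (nat_lit 12) (nat_lit 0) (.cons (.ev (nat_lit 20361947255916641672626184388865) (nat_lit 1)) .nil)) (.cons (.br (nat_lit 10) (nat_lit 0) (.cons (.ev (nat_lit 20283341690199478872356199465474) (nat_lit 2)) .nil)) .nil))) (.cons (.br (nat_lit 6) (nat_lit 1) (.cons (.br (nat_lit 12) (nat_lit 0) (.cons (.ev (nat_lit 284033285420609558362543574288136) (nat_lit 4)) .nil)) (.cons (.rf (nat_lit 453) (nat_lit 493858305440549537824)) .nil))) (.cons (.br (nat_lit 10) (nat_lit 0) (.cons (.rf (nat_lit 458) (nat_lit 492741412732961654816)) (.cons (.ev (nat_lit 20361947251194202850683246346496) (nat_lit 1)) .nil))) .nil)))),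
 (.br (nat_lit 8) (nat_lit 0) (.cons (.rf (nat_lit 525) (nat_lit 493858305440582043680)) (.cons (.ev (nat_lit 1099528405249) (nat_lit 1)) (.cons (.br (nat_lit 7) (nat_lit 0) (.cons (.br (nat_lit 9) (nat_lit 0) (.cons (.br (nat_lit 6) (nat_lit 1) (.cons (.rf (nat_lit 342) (nat_lit 14241868635760067808)) (.cons (.ev (nat_lit 309489750706630705645944833) (nat_lit 1)) (.cons (.ev (nat_lit 79228167255149623230465114113) (nat_lit 1)) .nil)))) (.cons (.br (nat_lit 10) (nat_lit 0) (.cons (.rf (nat_lit 342) (nat_lit 14242959351294821600)) (.cons (.rf (nat_lit 527) (nat_lit 493858305440582043680)) .nil))) (.cons (.br (nat_lit 5) (nat_lit 1) (.cons (.br (nat_lit 6) (nat_lit 1) (.cons (.rf (nat_lit 528) (nat_lit 493858305440582043680)) (.cons (.rf (nat_lit 528) (nat_lit 492741412732994160672)) .nil))) (.cons (.ev (nat_lit 309489750634572016391290881) (nat_lit 1)) (.cons (.ev (nat_lit 79228167255077564541210460161) (nat_lit 1)) .nil)))) .nil)))) (.cons (.br (nat_lit 9) (nat_lit 0) (.cons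 (.rf (nat_lit 439) (nat_lit 493858305440549537824)) (.cons (.br (nat_lit 10) (nat_lit 0) (.cons (.br (nat_lit 11) (nat_lit 0) (.cons (.br (nat_lit 12) (nat_lit 0) (.cons (.ev (nat_lit 121696315755191070632302422066948) (nat_lit 3)) .nil)) .nil)) (.cons (.br (nat_lit 4) (nat_lit 1) (.cons (.rf (nat_lit 529) (nat_lit 493858305440582043680)) (.cons (.rf (nat_lit 529) (nat_lit 492741412732994160672)) .nil))) .nil))) (.cons (.br (nat_lit 6) (nat_lit 1) (.cons (.rf (nat_lit 443) (nat_lit 493858305440549537824)) (.cons (.rf (nat_lit 530) (nat_lit 493858305440582043680)) (.cons (.rf (nat_lit 530) (nat_lit 492741412732994160672)) .nil)))) .nil)))) (.cons (.br (nat_lit 10) (nat_lit 0) (.cons (.br (nat_lit 13) (nat_lit 1) (.cons (.ev (nat_lit 1213648258155097169658113) (nat_lit 1)) (.cons (.rf (nat_lit 334) (nat_lit 493858305440514999360)) (.cons (.rf (nat_lit 334) (nat_lit 492741412732927116352)) .nil)))) (.cons (.rf (nat_lit 447) (nat_lit 493858305440549537824)) (.cons (.br (nat_lit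 5) (nat_lit 1) (.cons (.br (nat_lit 4) (nat_lit 1) (.cons (.ev (nat_lit 309489750706630705645944833) (nat_lit 1)) (.cons (.ev (nat_lit 79228167255149623230465114113) (nat_lit 1)) .nil))) (.cons (.rf (nat_lit 475) (nat_lit 493858305440547506208)) (.cons (.rf (nat_lit 475) (nat_lit 492741412732959623200)) .nil)))) .nil)))) (.cons (.br (nat_lit 4) (nat_lit 1) (.cons (.br (nat_lit 5) (nat_lit 1) (.cons (.rf (nat_lit 452) (nat_lit 493858305440549537824)) (.cons (.rf (nat_lit 531) (nat_lit 493858305440582043680)) (.cons (.rf (nat_lit 531) (nat_lit 492741412732994160672)) .nil)))) (.cons (.br (nat_lit 6) (nat_lit 1) (.cons (.ev (nat_lit 1213648258155097169658113) (nat_lit 1)) (.cons (.rf (nat_lit 532) (nat_lit 493858305440582043680)) (.cons (.rf (nat_lit 532) (nat_lit 492741412732994160672)) .nil)))) (.cons (.rf (nat_lit 533) (nat_lit 493858305440582043680)) (.cons (.rf (nat_lit 533) (nat_lit 492741412732994160672)) .nil))))) .nil))))) .nil)))),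
 (.br (nat_lit 8) (nat_lit 0) (.cons (.rf (nat_lit 525) (nat_lit 493858305440582043680)) (.cons (.ev (nat_lit 1099528405249) (nat_lit 1)) (.cons (.rf (nat_lit 534) (nat_lit 493858305440582043680)) (.cons (.br (nat_lit 8) (nat_lit 0) (.cons (.rf (nat_lit 525) (nat_lit 493858305440582043680)) (.cons (.ev (nat_lit 1099528405249) (nat_lit 1)) (.cons (.rf (nat_lit 534) (nat_lit 493858305440582043680)) .nil)))) .nil))))),
 (.br (nat_lit 10) (nat_lit 0) (.cons (.rf (nat_lit 352) (nat_lit 14242951860773325024)) (.cons (.br (nat_lit 5) (nat_lit 1) (.cons (.rf (nat_lit 481) (nat_lit 493858305440547506208)) (.cons (.rf (nat_lit 481) (nat_lit 492741412732959623200)) .nil))) .nil))),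
 (.br (nat_lit 12) (nat_lit 0) (.cons (.ev (nat_lit 20361641407129012140482859368450) (nat_lit 2)) .nil)),
 (.br (nat_lit 5) (nat_lit 1) (.cons (.br (nat_lit 6) (nat_lit 1) (.cons (.rf (nat_lit 537) (nat_lit 493858305440582043680)) (.cons (.rf (nat_lit 537) (nat_lit 492741412732994160672)) .nil))) (.cons (.rf (nat_lit 484) (nat_lit 493858305440549537824)) (.cons (.rf (nat_lit 484) (nat_lit 492741412732961654816)) .nil)))),
 (.br (nat_lit 6) (nat_lit 1) (.cons (.ev (nat_lit 20361640184054611876722063377154) (nat_lit 2)) .nil)),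
 (.br (nat_lit 9) (nat_lit 0) (.cons (.rf (nat_lit 538) (nat_lit 493858305440515000352)) (.cons (.ev (nat_lit 1213648258155097169658113) (nat_lit 1)) (.cons (.br (nat_lit 5) (nat_lit 1) (.cons (.rf (nat_lit 539) (nat_lit 493858305440582043680)) (.cons (.rf (nat_lit 539) (nat_lit 492741412732994160672)) .nil))) .nil)))),
 (.br (nat_lit 5) (nat_lit 1) (.cons (.rf (nat_lit 484) (nat_lit 493858305440547506208)) (.cons (.rf (nat_lit 540) (nat_lit 493858305440515000352)) (.cons (.br (nat_lit 6) (nat_lit 1) (.cons (.br (nat_lit 10) (nat_lit 0) (.cons (.ev (nat_lit 202903637334449324505234093312260) (nat_lit 4)) .nil)) (.cons (.ev (nat_lit 1208925819897203679821824) (nat_lit 1)) .nil))) .nil)))),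
 (.br (nat_lit 8) (nat_lit 0) (.cons (.rf (nat_lit 535) (nat_lit 493857213659895400480)) (.cons (.rf (nat_lit 535) (nat_lit 493857213659828357152)) (.cons (.br (nat_lit 7) (nat_lit 0) (.cons (.rf (nat_lit 535) (nat_lit 493858305440582043680)) (.cons (.rf (nat_lit 535) (nat_lit 493858305440515000352)) (.cons (.br (nat_lit 9) (nat_lit 0) (.cons (.rf (nat_lit 536) (nat_lit 493858305440582043680)) (.cons (.rf (nat_lit 536) (nat_lit 493858305440515000352)) (.cons (.br (nat_lit 10) (nat_lit 0) (.cons (.ev (nat_lit 1213648258155097169658113) (nat_lit 1)) (.cons (.ev (nat_lit 1213648258156196664508673) (nat_lit 1)) (.cons (.ev (nat_lit 20282410817299856521450366238976) (nat_lit 1)) .nil)))) .nil)))) (.cons (.br (nat_lit 3) (nat_lit 1) (.cons (.rf (nat_lit 538) (nat_lit 493858305440582043680)) (.cons (.rf (nat_lit 540) (nat_lit 493858305440582043680)) (.cons (.rf (nat_lit 541) (nat_lit 493858305440582043680)) (.cons (.rf (nat_lit 541) (nat_lit 492741412732994160672)) .nil))))) .nil)))))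 .nil)))),
 (.br (nat_lit 8) (nat_lit 0) (.cons (.rf (nat_lit 535) (nat_lit 493857213659895400480)) (.cons (.rf (nat_lit 535) (nat_lit 493857213659828357152)) (.cons (.rf (nat_lit 542) (nat_lit 493858305440582043680)) (.cons (.br (nat_lit 8) (nat_lit 0) (.cons (.rf (nat_lit 535) (nat_lit 493857213659895400480)) (.cons (.rf (nat_lit 535) (nat_lit 493857213659828357152)) (.cons (.rf (nat_lit 542) (nat_lit 493858305440582043680)) .nil)))) .nil))))),
 (.br (nat_lit 5) (nat_lit 1) (.cons (.ev (nat_lit 18518802767275884801) (nat_lit 1)) (.cons (.rf (nat_lit 491) (nat_lit 493858305440549537824)) (.cons (.rf (nat_lit 491) (nat_lit 492741412732961654816)) .nil)))),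
 (.br (nat_lit 10) (nat_lit 0) (.cons (.ev (nat_lit 79538861172271780165383618561) (nat_lit 1)) (.cons (.ev (nat_lit 1208925819897203679821824) (nat_lit 1)) (.cons (.ev (nat_lit 20361948464823942204112634904576) (nat_lit 1)) .nil)))),
 (.br (nat_lit 5) (nat_lit 1) (.cons (.rf (nat_lit 491) (nat_lit 493858305440547506208)) (.cons (.rf (nat_lit 491) (nat_lit 493857213659860863008)) (.cons (.br (nat_lit 4) (nat_lit 1) (.cons (.rf (nat_lit 545) (nat_lit 493858305440582043680)) (.cons (.rf (nat_lit 545) (nat_lit 493857213659895400480)) .nil))) .nil)))),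
 (.br (nat_lit 8) (nat_lit 0) (.cons (.rf (nat_lit 535) (nat_lit 493857213659895400480)) (.cons (.rf (nat_lit 543) (nat_lit 493857213659895400480)) (.cons (.rf (nat_lit 535) (nat_lit 493857213659828357152)) (.cons (.br (nat_lit 7) (nat_lit 0) (.cons (.rf (nat_lit 535) (nat_lit 493858305440582043680)) (.cons (.rf (nat_lit 543) (nat_lit 493858305440582043680)) (.cons (.rf (nat_lit 535) (nat_lit 493858305440515000352)) (.cons (.br (nat_lit 3) (nat_lit 1) (.cons (.rf (nat_lit 544) (nat_lit 493858305440582043680)) (.cons (.rf (nat_lit 544) (nat_lit 493857213659895400480)) (.cons (.rf (nat_lit 546) (nat_lit 493858305440582043680)) (.cons (.rf (nat_lit 546) (nat_lit 492741412732994160672)) .nil))))) .nil))))) .nil))))),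
 (.br (nat_lit 7) (nat_lit 0) (.cons (.rf (nat_lit 535) (nat_lit 493858305440582043680)) (.cons (.rf (nat_lit 543) (nat_lit 493858305440582043680)) (.cons (.rf (nat_lit 535) (nat_lit 493858305440515000352)) (.cons (.br (nat_lit 8) (nat_lit 0) (.cons (.rf (nat_lit 535) (nat_lit 493857213659895400480)) (.cons (.rf (nat_lit 543) (nat_lit 493857213659895400480)) (.cons (.rf (nat_lit 535) (nat_lit 493857213659828357152)) (.cons (.rf (nat_lit 547) (nat_lit 493857213659895400480)) (.cons (.rf (nat_lit 547) (nat_lit 493858305440582043680)) .nil)))))) .nil))))),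
 (.br (nat_lit 2) (nat_lit 0) (.cons (.rf (nat_lit 497) (nat_lit 14242959524133700672)) (.cons (.rf (nat_lit 497) (nat_lit 14242959520947110976)) (.cons (.br (nat_lit 7) (nat_lit 0) (.cons (.rf (nat_lit 521) (nat_lit 14242959524133701664)) (.cons (.rf (nat_lit 521) (nat_lit 14242959523092497472)) (.cons (.rf (nat_lit 521) (nat_lit 14242959524066658336)) (.cons (.rf (nat_lit 521) (nat_lit 14242959523025454144)) (.cons (.br (nat_lit 7) (nat_lit 0) (.cons (.rf (nat_lit 521) (nat_lit 14242959524133701664)) (.cons (.rf (nat_lit 521) (nat_lit 14242959523092497472)) (.cons (.rf (nat_lit 521) (nat_lit 14242959524066658336)) (.cons (.rf (nat_lit 521) (nat_lit 14242959523025454144)) .nil))))) .nil)))))) (.cons (.br (nat_lit 7) (nat_lit 0) (.cons (.rf (nat_lit 535) (nat_lit 493858305440582043680)) (.cons (.rf (nat_lit 543) (nat_lit 493858305440582043680)) (.cons (.rf (nat_lit 535) (nat_lit 493858305440515000352)) (.cons (.rf (nat_lit 548) (nat_lit 493858305440582043680)) (.cons (.br (nat_lit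 7) (nat_lit 0) (.cons (.rf (nat_lit 535) (nat_lit 493858305440582043680)) (.cons (.rf (nat_lit 543) (nat_lit 493858305440582043680)) (.cons (.rf (nat_lit 535) (nat_lit 493858305440515000352)) (.cons (.rf (nat_lit 548) (nat_lit 493858305440582043680)) .nil))))) .nil)))))) .nil))))),
 (.br (nat_lit 2) (nat_lit 0) (.cons (.rf (nat_lit 518) (nat_lit 14242959524133701664)) (.cons (.rf (nat_lit 549) (nat_lit 14242959524133701664)) (.cons (.rf (nat_lit 518) (nat_lit 14242959524066658336)) (.cons (.rf (nat_lit 549) (nat_lit 14242959521988315168)) (.cons (.br (nat_lit 2) (nat_lit 0) (.cons (.rf (nat_lit 518) (nat_lit 14242959524133701664)) (.cons (.rf (nat_lit 549) (nat_lit 14242959524133701664)) (.cons (.rf (nat_lit 518) (nat_lit 14242959524066658336)) (.cons (.rf (nat_lit 549) (nat_lit 14242959521988315168)) .nil))))) .nil)))))),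
 (.br (nat_lit 12) (nat_lit 0) (.cons (.kr (nat_lit 79228167255077564536898715904) (nat_lit 310693935713017291937480704) (nat_lit 1) (nat_lit 0)) .nil)),
 (.br (nat_lit 10) (nat_lit 0) (.cons (.kr (nat_lit 4740813226943354765568) (nat_lit 1208925891672223212699648) (nat_lit 1) (nat_lit 0)) (.cons (.br (nat_lit 6) (nat_lit 1) (.cons (.rf (nat_lit 551) (nat_lit 493858305440582043680)) (.cons (.rf (nat_lit 551) (nat_lit 492741412732994160672)) .nil))) .nil))),
 (.br (nat_lit 8) (nat_lit 0) (.cons (.br (nat_lit 9) (nat_lit 0) (.cons (.kr (nat_lit 18518801667747479808) (nat_lit 4722366764344621989888) (nat_lit 1) (nat_lit 0)) (.cons (.rf (nat_lit 552) (nat_lit 455773613000215364672)) .nil))) (.cons (.rf (nat_lit 552) (nat_lit 455774704780903024672)) .nil))),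
 (.br (nat_lit 12) (nat_lit 0) (.cons (.kr (nat_lit 79228167255077564536898715904) (nat_lit 310693935713017291937480704) (nat_lit 1) (nat_lit 0)) .nil)),
 (.br (nat_lit 10) (nat_lit 0) (.cons (.kr (nat_lit 4740813226943354765568) (nat_lit 1208925891672223212699648) (nat_lit 1) (nat_lit 0)) (.cons (.br (nat_lit 6) (nat_lit 1) (.cons (.rf (nat_lit 554) (nat_lit 493858305440582043680)) (.cons (.rf (nat_lit 554) (nat_lit 492741412732994160672)) .nil))) .nil)))]

theorem c14 : chkAll C T R L14 (nat_lit 526) = true := by decide +kernel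

theorem l14 : (nat_lit 526) + L14.length = (nat_lit 556) := by decide +kernel

/-- part of the certificates -/
def L15 : List Prf := [(.br (nat_lit 12) (nat_lit 0) (.cons (.ev (nat_lit 79543696894070166254065485572) (nat_lit 3)) .nil)),
 (.br (nat_lit 10) (nat_lit 0) (.cons (.rf (nat_lit 401) (nat_lit 14241862005338251488)) (.cons (.br (nat_lit 5) (nat_lit 1) (.cons (.rf (nat_lit 556) (nat_lit 493858305440582043680)) (.cons (.rf (nat_lit 556) (nat_lit 492741412732994160672)) .nil))) .nil))),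
 (.br (nat_lit 6) (nat_lit 1) (.cons (.zr (nat_lit 309489750634572025015107584) (nat_lit 40564819207303341413043479249922) (nat_lit 10) (nat_lit 4)) .nil)),
 (.br (nat_lit 12) (nat_lit 0) (.cons (.kr (nat_lit 309489750634572012079546624) (nat_lit 79229371440156009816756649984) (nat_lit 1) (nat_lit 0)) .nil)),
 (.br (nat_lit 9) (nat_lit 0) (.cons (.kr (nat_lit 18518801667747479808) (nat_lit 4722366764344621989888) (nat_lit 1) (nat_lit 0)) (.cons (.br (nat_lit 13) (nat_lit 1) (.cons (.rf (nat_lit 559) (nat_lit 455774704780903024672)) (.cons (.rf (nat_lit 559) (nat_lit 454657812073315141664)) .nil))) .nil))),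
 (.br (nat_lit 12) (nat_lit 0) (.cons (.ev (nat_lit 79543696968144251423195072260) (nat_lit 3)) .nil)),
 (.br (nat_lit 6) (nat_lit 1) (.cons (.br (nat_lit 12) (nat_lit 0) (.cons (.kr (nat_lit 309489750634572012079546624) (nat_lit 79229371440156009816756649984) (nat_lit 1) (nat_lit 0)) .nil)) (.cons (.br (nat_lit 10) (nat_lit 0) (.cons (.kr (nat_lit 309489750634572012079546624) (nat_lit 79229371440156009816756649984) (nat_lit 1) (nat_lit 0)) .nil)) .nil))),
 (.br (nat_lit 6) (nat_lit 1) (.cons (.ev (nat_lit 81210420070503289024191482233600) (nat_lit 3)) .nil)),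
 (.br (nat_lit 8) (nat_lit 0) (.cons (.rf (nat_lit 553) (nat_lit 15433072044983552032)) (.cons (.br (nat_lit 9) (nat_lit 0) (.cons (.rf (nat_lit 555) (nat_lit 493858305440582043680)) (.cons (.rf (nat_lit 557) (nat_lit 493858305440582043680)) (.cons (.br (nat_lit 10) (nat_lit 0) (.cons (.rf (nat_lit 557) (nat_lit 493857213658854196288)) (.cons (.rf (nat_lit 555) (nat_lit 493857213658854196288)) (.cons (.br (nat_lit 5) (nat_lit 1) (.cons (.rf (nat_lit 558) (nat_lit 493858305440582043680)) (.cons (.rf (nat_lit 558) (nat_lit 492741412732994160672)) .nil))) .nil)))) .nil)))) (.cons (.br (nat_lit 9) (nat_lit 0) (.cons (.rf (nat_lit 560) (nat_lit 15433072044983552032)) (.cons (.br (nat_lit 5) (nat_lit 1) (.cons (.br (nat_lit 6) (nat_lit 1) (.cons (.rf (nat_lit 561) (nat_lit 493858305440582043680)) (.cons (.rf (nat_lit 561) (nat_lit 492741412732994160672)) .nil))) (.cons (.rf (nat_lit 562) (nat_lit 493858305440582043680)) (.cons (.rf (nat_lit 562) (nat_lit 492741412732994160672)) .nil))))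 (.cons (.br (nat_lit 10) (nat_lit 0) (.cons (.br (nat_lit 6) (nat_lit 1) (.cons (.ev (nat_lit 620202575813525189268275972) (nat_lit 3)) (.cons (.ev (nat_lit 158457557584699510238906614532) (nat_lit 3)) .nil))) (.cons (.br (nat_lit 5) (nat_lit 1) (.cons (.rf (nat_lit 563) (nat_lit 493858305440582043680)) (.cons (.rf (nat_lit 563) (nat_lit 492741412732994160672)) .nil))) .nil))) .nil)))) .nil)))),
 (.br (nat_lit 12) (nat_lit 0) (.cons (.ev (nat_lit 79543696894069044752205415172) (nat_lit 3)) .nil)),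
 (.br (nat_lit 10) (nat_lit 0) (.cons (.rf (nat_lit 401) (nat_lit 14241862004265558240)) (.cons (.br (nat_lit 6) (nat_lit 1) (.cons (.rf (nat_lit 565) (nat_lit 493858305440582043680)) (.cons (.rf (nat_lit 565) (nat_lit 492741412732994160672)) .nil))) .nil))),
 (.br (nat_lit 6) (nat_lit 1) (.cons (.zr (nat_lit 79228167255077564549834276864) (nat_lit 40564819207303341413043479249922) (nat_lit 10) (nat_lit 4)) .nil)),
 (.br (nat_lit 12) (nat_lit 0) (.cons (.ev (nat_lit 79543696968145372925055664900) (nat_lit 3)) .nil)),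
 (.br (nat_lit 6) (nat_lit 1) (.cons (.ev (nat_lit 81210415215837045888277515798272) (nat_lit 3)) .nil)),
 (.br (nat_lit 8) (nat_lit 0) (.cons (.br (nat_lit 9) (nat_lit 0) (.cons (.rf (nat_lit 566) (nat_lit 493858305440582043680)) (.cons (.rf (nat_lit 555) (nat_lit 493858305439541856288)) (.cons (.br (nat_lit 10) (nat_lit 0) (.cons (.rf (nat_lit 555) (nat_lit 493857213659894383680)) (.cons (.rf (nat_lit 566) (nat_lit 493857213658854196288)) (.cons (.br (nat_lit 5) (nat_lit 1) (.cons (.rf (nat_lit 567) (nat_lit 493858305440582043680)) (.cons (.rf (nat_lit 567) (nat_lit 492741412732994160672)) .nil))) .nil)))) .nil)))) (.cons (.rf (nat_lit 553) (nat_lit 15433072045017106464)) (.cons (.br (nat_lit 9) (nat_lit 0) (.cons (.br (nat_lit 6) (nat_lit 1) (.cons (.br (nat_lit 5) (nat_lit 1) (.cons (.rf (nat_lit 568) (nat_lit 493858305440582043680)) (.cons (.rf (nat_lit 568) (nat_lit 492741412732994160672)) .nil))) (.cons (.rf (nat_lit 562) (nat_lit 493858305439541856288)) (.cons (.rf (nat_lit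 562) (nat_lit 492741412731953973280)) .nil)))) (.cons (.rf (nat_lit 560) (nat_lit 15433072045017106464)) (.cons (.br (nat_lit 10) (nat_lit 0) (.cons (.br (nat_lit 5) (nat_lit 1) (.cons (.rf (nat_lit 569) (nat_lit 493858305440582043680)) (.cons (.rf (nat_lit 569) (nat_lit 492741412732994160672)) .nil))) (.cons (.br (nat_lit 5) (nat_lit 1) (.cons (.ev (nat_lit 620202575814646691128346372) (nat_lit 3)) (.cons (.ev (nat_lit 158457557584700631740766684932) (nat_lit 3)) .nil))) .nil))) .nil)))) .nil)))),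
 (.br (nat_lit 6) (nat_lit 1) (.cons (.zr (nat_lit 310693935713017304872649984) (nat_lit 40564819207303341413043479511042) (nat_lit 10) (nat_lit 3)) .nil)),
 (.br (nat_lit 6) (nat_lit 1) (.cons (.zr (nat_lit 309489750634572025015107584) (nat_lit 40564819207303341413043479249922) (nat_lit 10) (nat_lit 4)) .nil)),
 (.br (nat_lit 7) (nat_lit 0) (.cons (.rf (nat_lit 564) (nat_lit 493858305440582043680)) (.cons (.rf (nat_lit 570) (nat_lit 493858305440582043680)) (.cons (.br (nat_lit 8) (nat_lit 0) (.cons (.rf (nat_lit 570) (nat_lit 493857213658854196288)) (.cons (.rf (nat_lit 564) (nat_lit 493857213658854196288)) (.cons (.br (nat_lit 9) (nat_lit 0) (.cons (.br (nat_lit 10) (nat_lit 0) (.cons (.kr (nat_lit 4740813226943354765568) (nat_lit 1208925891672223212699648) (nat_lit 1) (nat_lit 0)) (.cons (.br (nat_lit 5) (nat_lit 1) (.cons (.rf (nat_lit 571) (nat_lit 493858305440582043680)) (.cons (.rf (nat_lit 571) (nat_lit 492741412732994160672)) .nil))) .nil))) (.cons (.br (nat_lit 10)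 (nat_lit 0) (.cons (.br (nat_lit 5) (nat_lit 1) (.cons (.rf (nat_lit 572) (nat_lit 493858305440582043680)) (.cons (.rf (nat_lit 572) (nat_lit 492741412732994160672)) .nil))) (.cons (.kr (nat_lit 4740813226943354765568) (nat_lit 1208925891672223212699648) (nat_lit 1) (nat_lit 0)) .nil))) .nil))) .nil)))) .nil)))),
 (.br (nat_lit 12) (nat_lit 0) (.cons (.kr (nat_lit 79228167255077564536898715904) (nat_lit 310693935713017291937480704) (nat_lit 1) (nat_lit 0)) .nil)),
 (.br (nat_lit 6) (nat_lit 1) (.cons (.rf (nat_lit 574) (nat_lit 493858305440582043680)) (.cons (.rf (nat_lit 574) (nat_lit 492741412732994160672)) .nil))),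
 (.br (nat_lit 9) (nat_lit 0) (.cons (.kr (nat_lit 309489750634572012079546624) (nat_lit 79229371440156009816756649984) (nat_lit 1) (nat_lit 0)) .nil)),
 (.br (nat_lit 12) (nat_lit 0) (.cons (.rf (nat_lit 576) (nat_lit 493858305440582043680)) (.cons (.ev (nat_lit 20361637766184453563212854460673) (nat_lit 1)) .nil))),
 (.br (nat_lit 7) (nat_lit 0) (.cons (.br (nat_lit 6) (nat_lit 1) (.cons (.rf (nat_lit 352) (nat_lit 14241868636800255200)) (.cons (.ev (nat_lit 310693935713017296249225473) (nat_lit 1)) (.cons (.ev (nat_lit 79229371440156009821068394753) (nat_lit 1)) .nil)))) (.cons (.br (nat_lit 4) (nat_lit 1) (.cons (.kr (nat_lit 4740813226943354765568) (nat_lit 1208925891672223212699648) (nat_lit 1) (nat_lit 0)) (.cons (.kr (nat_lit 1208925891673322724261888) (nat_lit 309485028268370617411043328) (nat_lit 5) (nat_lit 0)) (.cons (.kr (nat_lit 1208925891673322724261888) (nat_lit 79228162532711363142230212608) (nat_lit 5) (nat_lit 0)) .nil)))) (.cons (.br (nat_lit 4) (nat_lit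 1) (.cons (.rf (nat_lit 575) (nat_lit 493858305440582043680)) (.cons (.rf (nat_lit 577) (nat_lit 493858305440582043680)) (.cons (.rf (nat_lit 577) (nat_lit 492741412732994160672)) .nil)))) .nil)))),
 (.br (nat_lit 12) (nat_lit 0) (.cons (.rf (nat_lit 576) (nat_lit 493858305439541856288)) (.cons (.ev (nat_lit 20361637766184453563212854460673) (nat_lit 1)) .nil))),
 (.br (nat_lit 12) (nat_lit 0) (.cons (.ev (nat_lit 20282410812577562378744952258561) (nat_lit 1)) .nil)),
 (.br (nat_lit 6) (nat_lit 1) (.cons (.rf (nat_lit 580) (nat_lit 493858305440582043680)) (.cons (.rf (nat_lit 580) (nat_lit 492741412732994160672)) .nil))),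
 (.br (nat_lit 6) (nat_lit 1) (.cons (.rf (nat_lit 581) (nat_lit 493858305439540839488)) (.cons (.br (nat_lit 9) (nat_lit 0) (.cons (.ev (nat_lit 20282410812577562378744952258561) (nat_lit 1)) .nil)) .nil))),
 (.br (nat_lit 5) (nat_lit 1) (.cons (.rf (nat_lit 581) (nat_lit 493858305440582043680)) (.cons (.rf (nat_lit 582) (nat_lit 493858305440582043680)) (.cons (.rf (nat_lit 582) (nat_lit 492741412732994160672)) .nil)))),
 (.br (nat_lit 12) (nat_lit 0) (.cons (.kr (nat_lit 79228167255077564536898715904) (nat_lit 310693935713017291937480704) (nat_lit 1) (nat_lit 0)) .nil)),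
 (.br (nat_lit 6) (nat_lit 1) (.cons (.rf (nat_lit 584) (nat_lit 493858305440582043680)) (.cons (.rf (nat_lit 584) (nat_lit 492741412732994160672)) .nil))),
 (.br (nat_lit 6) (nat_lit 1) (.cons (.rf (nat_lit 585) (nat_lit 493858305439541856288)) (.cons (.br (nat_lit 7) (nat_lit 0) (.cons (.ev (nat_lit 40644358096865657856099786883840) (nat_lit 3)) .nil)) .nil))),
 (.br (nat_lit 9) (nat_lit 0) (.cons (.kr (nat_lit 309489750634572012079546624) (nat_lit 79229371440156009816756649984) (nat_lit 1) (nat_lit 0)) .nil)),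
 (.br (nat_lit 5) (nat_lit 1) (.cons (.br (nat_lit 6) (nat_lit 1) (.cons (.ev (nat_lit 310693935641242272387825921) (nat_lit 1)) (.cons (.rf (nat_lit 587) (nat_lit 493858305440582043680)) .nil))) (.cons (.br (nat_lit 6) (nat_lit 1) (.cons (.ev (nat_lit 310693935641242272387825921) (nat_lit 1)) (.cons (.br (nat_lit 7) (nat_lit 0) (.cons (.ev (nat_lit 20520096523250311778823236026625) (nat_lit 2)) .nil)) .nil))) (.cons (.br (nat_lit 6) (nat_lit 1) (.cons (.rf (nat_lit 587) (nat_lit 493858305439541856288)) (.cons (.br (nat_lit 7) (nat_lit 0) (.cons (.ev (nat_lit 20520096523250312619949631209985) (nat_lit 2)) .nil)) .nil))) .nil)))),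
 (.br (nat_lit 12) (nat_lit 0) (.cons (.ev (nat_lit 20361948460101648061407220989953) (nat_lit 1)) .nil)),
 (.br (nat_lit 6) (nat_lit 1) (.cons (.ev (nat_lit 20282410812577562378744952258561) (nat_lit 1)) .nil)),
 (.br (nat_lit 5) (nat_lit 1) (.cons (.rf (nat_lit 590) (nat_lit 493858305440582043680)) (.cons (.rf (nat_lit 590) (nat_lit 492741412732994160672)) .nil))),
 (.br (nat_lit 12) (nat_lit 0) (.cons (.kr (nat_lit 309489750634572012079546624) (nat_lit 79229371440156009816756649984) (nat_lit 1) (nat_lit 0)) .nil)),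
 (.br (nat_lit 9) (nat_lit 0) (.cons (.kr (nat_lit 18518801667747479808) (nat_lit 4722366764344621989888) (nat_lit 1) (nat_lit 0)) (.cons (.br (nat_lit 13) (nat_lit 1) (.cons (.rf (nat_lit 592) (nat_lit 455774704780903024672)) (.cons (.rf (nat_lit 592) (nat_lit 454657812073315141664)) .nil))) .nil))),
 (.br (nat_lit 6) (nat_lit 1) (.cons (.br (nat_lit 12) (nat_lit 0) (.cons (.kr (nat_lit 309489750634572012079546624) (nat_lit 79229371440156009816756649984) (nat_lit 1) (nat_lit 0)) .nil)) (.cons (.br (nat_lit 10) (nat_lit 0) (.cons (.kr (nat_lit 309489750634572012079546624) (nat_lit 79229371440156009816756649984) (nat_lit 1) (nat_lit 0)) .nil)) .nil))),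
 (.br (nat_lit 12) (nat_lit 0) (.cons (.kr (nat_lit 309489750634572012079546624) (nat_lit 79229371440156009816756649984) (nat_lit 1) (nat_lit 0)) .nil)),
 (.br (nat_lit 6) (nat_lit 1) (.cons (.rf (nat_lit 595) (nat_lit 493858305440582043680)) (.cons (.rf (nat_lit 595) (nat_lit 492741412732994160672)) .nil))),
 (.br (nat_lit 10) (nat_lit 0) (.cons (.kr (nat_lit 79228167255077564536898715904) (nat_lit 310693935713017291937480704) (nat_lit 1) (nat_lit 0)) .nil))]

theorem c15 : chkAll C T R L15 (nat_lit 556) = true := by decide +kernel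

theorem l15 : (nat_lit 556) + L15.length = (nat_lit 598) := by decide +kernel

/-- part of the certificates -/
def L16 : List Prf := [(.br (nat_lit 6) (nat_lit 1) (.cons (.br (nat_lit 12) (nat_lit 0) (.cons (.ev (nat_lit 121775239287214614034404331422468) (nat_lit 3)) .nil)) (.cons (.rf (nat_lit 597) (nat_lit 493858305440582043680)) .nil))),
 (.br (nat_lit 6) (nat_lit 1) (.cons (.br (nat_lit 12) (nat_lit 0) (.cons (.ev (nat_lit 20361638979814193199208141422593) (nat_lit 1)) .nil)) (.cons (.br (nat_lit 9) (nat_lit 0) (.cons (.ev (nat_lit 20361638979814193199208141422593) (nat_lit 1)) .nil)) .nil))),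
 (.br (nat_lit 12) (nat_lit 0) (.cons (.kr (nat_lit 309489750634572012079546624) (nat_lit 79229371440156009816756649984) (nat_lit 1) (nat_lit 0)) .nil)),
 (.br (nat_lit 10) (nat_lit 0) (.cons (.kr (nat_lit 309489750634572012079546624) (nat_lit 79229371440156009816756649984) (nat_lit 1) (nat_lit 0)) .nil)),
 (.br (nat_lit 5) (nat_lit 1) (.cons (.br (nat_lit 10) (nat_lit 0) (.cons (.br (nat_lit 12) (nat_lit 0) (.cons (.ev (nat_lit 81398208028006101048709284100) (nat_lit 3)) .nil)) (.cons (.ev (nat_lit 20282719093383930310579170836736) (nat_lit 1)) .nil))) (.cons (.br (nat_lit 6) (nat_lit 1) (.cons (.rf (nat_lit 600) (nat_lit 493858305440582043680)) (.cons (.ev (nat_lit 1208944266640182172713216) (nat_lit 1)) .nil))) (.cons (.br (nat_lit 6) (nat_lit 1) (.cons (.rf (nat_lit 601) (nat_lit 493858305440582043680)) (.cons (.br (nat_lit 9) (nat_lit 0) (.cons (.ev (nat_lit 20283339267625401662281240084737) (nat_lit 2)) .nil)) .nil))) .nil)))),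
 (.br (nat_lit 6) (nat_lit 1) (.cons (.zr (nat_lit 288795525128650759) (nat_lit 162259587523149004351288845008896) (nat_lit 15) (nat_lit 0)) .nil)),
 (.br (nat_lit 6) (nat_lit 1) (.cons (.ev (nat_lit 1213648258436567851401473) (nat_lit 1)) (.cons (.ev (nat_lit 79229376180897460645361877248) (nat_lit 1)) .nil))),
 (.br (nat_lit 6) (nat_lit 1) (.cons (.ev (nat_lit 20282719088679938795664174022913) (nat_lit 1)) .nil)),
 (.br (nat_lit 6) (nat_lit 1) (.cons (.kr (nat_lit 309489750634572012079546624) (nat_lit 79229371440156009816756649984) (nat_lit 1) (nat_lit 0)) .nil)),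
 (.br (nat_lit 5) (nat_lit 1) (.cons (.br (nat_lit 6) (nat_lit 1) (.cons (.zr (nat_lit 14167099453006982152960) (nat_lit 20283028573708206883711408406529) (nat_lit 5) (nat_lit 6)) .nil)) (.cons (.rf (nat_lit 606) (nat_lit 493858305440582043680)) .nil))),
 (.br (nat_lit 8) (nat_lit 0) (.cons (.rf (nat_lit 573) (nat_lit 493858305440582043680)) (.cons (.br (nat_lit 10) (nat_lit 0) (.cons (.ev (nat_lit 18446744078021296129) (nat_lit 1)) (.cons (.rf (nat_lit 578) (nat_lit 493858305440582043680)) (.cons (.br (nat_lit 7) (nat_lit 0) (.cons (.rf (nat_lit 578) (nat_lit 493858305439540839488)) (.cons (.br (nat_lit 4) (nat_lit 1) (.cons (.kr (nat_lit 4740813226943354765568) (nat_lit 1208925891672223212699648) (nat_lit 1) (nat_lit 0)) (.cons (.kr (nat_lit 309485028268090241945960960) (nat_lit 1208925891953698189475840) (nat_lit 1) (nat_lit 0)) (.cons (.kr (nat_lit 79228162532711082766765130240) (nat_lit 1208925891953698189475840) (nat_lit 1) (nat_lit 0)) .nil)))) (.cons (.br (nat_lit 4)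 (nat_lit 1) (.cons (.rf (nat_lit 575) (nat_lit 493858305439541856288)) (.cons (.rf (nat_lit 579) (nat_lit 493858305440582043680)) (.cons (.rf (nat_lit 579) (nat_lit 492741412732994160672)) .nil)))) .nil)))) (.cons (.br (nat_lit 4) (nat_lit 1) (.cons (.rf (nat_lit 583) (nat_lit 493858305440582043680)) (.cons (.br (nat_lit 5) (nat_lit 1) (.cons (.rf (nat_lit 585) (nat_lit 493858305440582043680)) (.cons (.rf (nat_lit 586) (nat_lit 493858305440582043680)) (.cons (.rf (nat_lit 586) (nat_lit 492741412732994160672)) .nil)))) (.cons (.rf (nat_lit 588) (nat_lit 493858305440582043680)) (.cons (.rf (nat_lit 588) (nat_lit 492741412732994160672)) .nil))))) .nil))))) (.cons (.br (nat_lit 7) (nat_lit 0) (.cons (.br (nat_lit 9) (nat_lit 0) (.cons (.br (nat_lit 10) (nat_lit 0) (.cons (.br (nat_lit 6) (nat_lit 1) (.cons (.rf (nat_lit 589) (nat_lit 493858305440582043680)) (.cons (.rf (nat_lit 589) (nat_lit 492741412732994160672)) .nil))) (.cons (.br (nat_lit 6) (nat_lit 1) (.cons (.ev (nat_lit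 20282720297605758128818372018176) (nat_lit 1)) (.cons (.ev (nat_lit 20361638975110201121343191187456) (nat_lit 1)) .nil))) .nil))) (.cons (.br (nat_lit 13) (nat_lit 1) (.cons (.rf (nat_lit 591) (nat_lit 493858305440582043680)) (.cons (.ev (nat_lit 309489750634572016391290881) (nat_lit 1)) (.cons (.ev (nat_lit 79228167255077564541210460161) (nat_lit 1)) .nil)))) (.cons (.br (nat_lit 6) (nat_lit 1) (.cons (.br (nat_lit 5) (nat_lit 1) (.cons (.ev (nat_lit 310693935713017296249225473) (nat_lit 1)) (.cons (.ev (nat_lit 79229371440156009821068394753) (nat_lit 1)) .nil))) (.cons (.ev (nat_lit 309489750634572016391290881) (nat_lit 1)) (.cons (.ev (nat_lit 79228167255077564541210460161) (nat_lit 1)) .nil)))) .nil)))) (.cons (.br (nat_lit 9) (nat_lit 0) (.cons (.rf (nat_lit 593) (nat_lit 15433072044983552032)) (.cons (.br (nat_lit 4) (nat_lit 1) (.cons (.ev (nat_lit 1213648258155097169658113) (nat_lit 1)) (.cons (.rf (nat_lit 594) (nat_lit 493858305440582043680)) (.cons (.rf (nat_lit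 594) (nat_lit 492741412732994160672)) .nil)))) (.cons (.br (nat_lit 10) (nat_lit 0) (.cons (.ev (nat_lit 40564820449304676992068062610690) (nat_lit 3)) (.cons (.ev (nat_lit 20282410817318303266619292450816) (nat_lit 1)) .nil))) .nil)))) (.cons (.br (nat_lit 4) (nat_lit 1) (.cons (.br (nat_lit 5) (nat_lit 1) (.cons (.rf (nat_lit 596) (nat_lit 493858305440582043680)) (.cons (.rf (nat_lit 598) (nat_lit 493858305440582043680)) (.cons (.rf (nat_lit 598) (nat_lit 492741412732994160672)) .nil)))) (.cons (.br (nat_lit 5) (nat_lit 1) (.cons (.ev (nat_lit 1213648258155097169658113) (nat_lit 1)) (.cons (.rf (nat_lit 599) (nat_lit 493858305440582043680)) (.cons (.rf (nat_lit 599) (nat_lit 492741412732994160672)) .nil)))) (.cons (.rf (nat_lit 602) (nat_lit 493858305440582043680)) (.cons (.rf (nat_lit 602) (nat_lit 492741412732994160672)) .nil))))) (.cons (.br (nat_lit 9) (nat_lit 0) (.cons (.br (nat_lit 10) (nat_lit 0) (.cons (.kr (nat_lit 4740813226943354765568) (nat_lit 1208925891672223212699648)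 (nat_lit 1) (nat_lit 0)) (.cons (.br (nat_lit 5) (nat_lit 1) (.cons (.rf (nat_lit 603) (nat_lit 493858305440582043680)) (.cons (.rf (nat_lit 603) (nat_lit 492741412732994160672)) .nil))) .nil))) (.cons (.br (nat_lit 10) (nat_lit 0) (.cons (.ev (nat_lit 40564820449304676992068062610690) (nat_lit 3)) (.cons (.br (nat_lit 4) (nat_lit 1) (.cons (.rf (nat_lit 604) (nat_lit 493858305440582043680)) (.cons (.rf (nat_lit 604) (nat_lit 492741412732994160672)) .nil))) .nil))) (.cons (.br (nat_lit 4) (nat_lit 1) (.cons (.br (nat_lit 5) (nat_lit 1) (.cons (.rf (nat_lit 605) (nat_lit 493858305440582043680)) (.cons (.rf (nat_lit 605) (nat_lit 492741412732994160672)) .nil))) (.cons (.rf (nat_lit 607) (nat_lit 493858305440582043680)) (.cons (.rf (nat_lit 607) (nat_lit 492741412732994160672)) .nil)))) .nil)))) .nil))))) .nil)))),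
 (.br (nat_lit 5) (nat_lit 1) (.cons (.br (nat_lit 12) (nat_lit 0) (.cons (.ev (nat_lit 121775239287214615155906192017156) (nat_lit 3)) .nil)) (.cons (.rf (nat_lit 597) (nat_lit 493858305439541856288)) .nil))),
 (.br (nat_lit 5) (nat_lit 1) (.cons (.br (nat_lit 12) (nat_lit 0) (.cons (.ev (nat_lit 20361638979814193199208141422593) (nat_lit 1)) .nil)) (.cons (.br (nat_lit 9) (nat_lit 0) (.cons (.ev (nat_lit 20361638979814193199208141422593) (nat_lit 1)) .nil)) .nil))),
 (.br (nat_lit 6) (nat_lit 1) (.cons (.rf (nat_lit 600) (nat_lit 493858305439541856288)) (.cons (.rf (nat_lit 601) (nat_lit 493858305439541856288)) .nil))),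
 (.br (nat_lit 5) (nat_lit 1) (.cons (.rf (nat_lit 611) (nat_lit 493858305440582043680)) (.cons (.br (nat_lit 9) (nat_lit 0) (.cons (.br (nat_lit 12) (nat_lit 0) (.cons (.ev (nat_lit 81398208028007222550569878788) (nat_lit 3)) .nil)) (.cons (.ev (nat_lit 20283339267625400821154844901377) (nat_lit 2)) .nil))) (.cons (.br (nat_lit 6) (nat_lit 1) (.cons (.br (nat_lit 10) (nat_lit 0) (.cons (.ev (nat_lit 20361638975110201401718656205056) (nat_lit 1)) .nil)) (.cons (.ev (nat_lit 1208944266359806707695616) (nat_lit 1)) .nil))) .nil)))),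
 (.br (nat_lit 6) (nat_lit 1) (.cons (.zr (nat_lit 360853119166644231) (nat_lit 162259586318963997963603025068288) (nat_lit 15) (nat_lit 0)) .nil)),
 (.br (nat_lit 6) (nat_lit 1) (.cons (.ev (nat_lit 20282720302309750206683322253313) (nat_lit 1)) .nil)),
 (.br (nat_lit 6) (nat_lit 1) (.cons (.br (nat_lit 5) (nat_lit 1) (.cons (.zr (nat_lit 14167100574508842811392) (nat_lit 20283028573708206603335943324161) (nat_lit 5) (nat_lit 5)) .nil)) (.cons (.rf (nat_lit 606) (nat_lit 493858305439541856288)) .nil))),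
 (.br (nat_lit 5) (nat_lit 1) (.cons (.ev (nat_lit 309485009893403766586081536) (nat_lit 1)) .nil)),
 (.br (nat_lit 8) (nat_lit 0) (.cons (.rf (nat_lit 573) (nat_lit 493858305440582043680)) (.cons (.rf (nat_lit 608) (nat_lit 493858305440582043680)) (.cons (.br (nat_lit 7) (nat_lit 0) (.cons (.rf (nat_lit 608) (nat_lit 493858305439540839488)) (.cons (.br (nat_lit 4) (nat_lit 1) (.cons (.br (nat_lit 6) (nat_lit 1) (.cons (.rf (nat_lit 596) (nat_lit 493858305439541856288)) (.cons (.rf (nat_lit 609) (nat_lit 493858305440582043680)) (.cons (.rf (nat_lit 609) (nat_lit 492741412732994160672)) .nil)))) (.cons (.br (nat_lit 6) (nat_lit 1) (.cons (.ev (nat_lit 1213648258155097169658113) (nat_lit 1)) (.cons (.rf (nat_lit 610) (nat_lit 493858305440582043680)) (.cons (.rf (nat_lit 610) (nat_lit 492741412732994160672)) .nil)))) (.cons (.rf (nat_lit 612) (nat_lit 493858305440582043680)) (.cons (.rf (nat_lit 612) (nat_lit 492741412732994160672)) .nil))))) (.cons (.br (nat_lit 9) (nat_lit 0)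 (.cons (.rf (nat_lit 593) (nat_lit 15433072045017106464)) (.cons (.br (nat_lit 4) (nat_lit 1) (.cons (.ev (nat_lit 1213648258155097169658113) (nat_lit 1)) (.cons (.rf (nat_lit 594) (nat_lit 493858305439541856288)) (.cons (.rf (nat_lit 594) (nat_lit 492741412731953973280)) .nil)))) (.cons (.br (nat_lit 10) (nat_lit 0) (.cons (.ev (nat_lit 40564820449304677552818992907010) (nat_lit 3)) (.cons (.ev (nat_lit 20282410817318303546994757468416) (nat_lit 1)) .nil))) .nil)))) (.cons (.br (nat_lit 9) (nat_lit 0) (.cons (.br (nat_lit 10) (nat_lit 0) (.cons (.br (nat_lit 5) (nat_lit 1) (.cons (.rf (nat_lit 613) (nat_lit 493858305440582043680)) (.cons (.rf (nat_lit 613) (nat_lit 492741412732994160672)) .nil))) (.cons (.kr (nat_lit 4740813226943354765568) (nat_lit 1208925891672223212699648) (nat_lit 1) (nat_lit 0)) .nil))) (.cons (.br (nat_lit 4) (nat_lit 1) (.cons (.br (nat_lit 5) (nat_lit 1) (.cons (.rf (nat_lit 614) (nat_lit 493858305440582043680)) (.cons (.rf (nat_lit 614) (nat_lit 492741412732994160672))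 .nil))) (.cons (.rf (nat_lit 615) (nat_lit 493858305440582043680)) (.cons (.rf (nat_lit 615) (nat_lit 492741412732994160672)) .nil)))) (.cons (.br (nat_lit 10) (nat_lit 0) (.cons (.ev (nat_lit 40564820449304677552818992907010) (nat_lit 3)) (.cons (.br (nat_lit 4) (nat_lit 1) (.cons (.rf (nat_lit 616) (nat_lit 493858305440582043680)) (.cons (.rf (nat_lit 616) (nat_lit 492741412732994160672)) .nil))) .nil))) .nil)))) .nil))))) .nil)))),
 (.br (nat_lit 8) (nat_lit 0) (.cons (.rf (nat_lit 573) (nat_lit 493858305440582043680)) (.cons (.rf (nat_lit 608) (nat_lit 493858305440582043680)) (.cons (.rf (nat_lit 617) (nat_lit 493858305440582043680)) (.cons (.br (nat_lit 8) (nat_lit 0) (.cons (.rf (nat_lit 573) (nat_lit 493858305440582043680)) (.cons (.rf (nat_lit 608) (nat_lit 493858305440582043680)) (.cons (.rf (nat_lit 617) (nat_lit 493858305440582043680)) .nil)))) .nil))))),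
 (.br (nat_lit 12) (nat_lit 0) (.cons (.kr (nat_lit 79229371440156009816756584704) (nat_lit 309489750634572012079611904) (nat_lit 1) (nat_lit 0)) .nil)),
 (.br (nat_lit 6) (nat_lit 1) (.cons (.rf (nat_lit 619) (nat_lit 493858305440582043680)) (.cons (.rf (nat_lit 619) (nat_lit 492741412732994160672)) .nil))),
 (.br (nat_lit 10) (nat_lit 0) (.cons (.kr (nat_lit 310693935713017291937415424) (nat_lit 79228167255077564536898781184) (nat_lit 1) (nat_lit 0)) .nil)),
 (.br (nat_lit 6) (nat_lit 1) (.cons (.ev (nat_lit 310693954160043940135305473) (nat_lit 1)) (.cons (.rf (nat_lit 621) (nat_lit 493858305440582043680)) .nil))),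
 (.br (nat_lit 6) (nat_lit 1) (.cons (.ev (nat_lit 310693954160043940135370753) (nat_lit 1)) (.cons (.rf (nat_lit 621) (nat_lit 493858305440581026880)) .nil))),
 (.br (nat_lit 8) (nat_lit 0) (.cons (.rf (nat_lit 618) (nat_lit 493857213659895400480)) (.cons (.rf (nat_lit 618) (nat_lit 493857213658854196288)) (.cons (.kr (nat_lit 1099511628032) (nat_lit 281474976776192) (nat_lit 1) (nat_lit 0)) (.cons (.br (nat_lit 9) (nat_lit 0) (.cons (.br (nat_lit 4) (nat_lit 1) (.cons (.rf (nat_lit 620) (nat_lit 493858305440582043680)) (.cons (.rf (nat_lit 622) (nat_lit 493858305440582043680)) (.cons (.rf (nat_lit 622) (nat_lit 492741412732994160672)) .nil)))) (.cons (.br (nat_lit 3) (nat_lit 1) (.cons (.rf (nat_lit 620) (nat_lit 493858305440581026880)) (.cons (.rf (nat_lit 623) (nat_lit 493858305440582043680)) (.cons (.rf (nat_lit 623) (nat_lit 492741412732994160672)) .nil)))) (.cons (.br (nat_lit 13) (nat_lit 1) (.cons (.kr (nat_lit 1208925891672223212634112) (nat_lit 4740813226943354765312)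 (nat_lit 7) (nat_lit 0)) (.cons (.kr (nat_lit 309485009893403762274337024) (nat_lit 4740813508418331541504) (nat_lit 1) (nat_lit 0)) (.cons (.kr (nat_lit 79228162514336396287093506304) (nat_lit 4740813508418331541504) (nat_lit 1) (nat_lit 0)) .nil)))) (.cons (.ev (nat_lit 20282409603651742482640800907264) (nat_lit 1)) .nil))))) .nil))))),
 (.br (nat_lit 8) (nat_lit 0) (.cons (.rf (nat_lit 618) (nat_lit 493857213659895400480)) (.cons (.rf (nat_lit 618) (nat_lit 493857213658854196288)) (.cons (.rf (nat_lit 624) (nat_lit 493858305440582043680)) (.cons (.rf (nat_lit 624) (nat_lit 493858305439540839488)) (.cons (.br (nat_lit 8) (nat_lit 0) (.cons (.rf (nat_lit 618) (nat_lit 493857213659895400480)) (.cons (.rf (nat_lit 618) (nat_lit 493857213658854196288)) (.cons (.rf (nat_lit 624) (nat_lit 493858305440582043680)) (.cons (.rf (nat_lit 624) (nat_lit 493858305439540839488)) .nil))))) .nil)))))),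
 (.br (nat_lit 6) (nat_lit 1) (.cons (.zr (nat_lit 928455029464039604220855040) (nat_lit 20282412021503454049872965009409) (nat_lit 5) (nat_lit 4)) .nil))]

theorem c16 : chkAll C T R L16 (nat_lit 598) = true := by decide +kernel

theorem l16 : (nat_lit 598) + L16.length = (nat_lit 627) := by decide +kernel

/-- part of the certificates -/
def L17 : List Prf := [(.br (nat_lit 10) (nat_lit 0) (.cons (.kr (nat_lit 1208925891672223212634368) (nat_lit 4740813226943354830848) (nat_lit 1) (nat_lit 0)) (.cons (.br (nat_lit 4) (nat_lit 1) (.cons (.rf (nat_lit 626) (nat_lit 493858305440582043680)) (.cons (.rf (nat_lit 626) (nat_lit 492741412732994160672)) .nil))) .nil))),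
 (.br (nat_lit 6) (nat_lit 1) (.cons (.zr (nat_lit 928455029464039604221050880) (nat_lit 20282412021503454049872965009409) (nat_lit 5) (nat_lit 4)) .nil)),
 (.br (nat_lit 10) (nat_lit 0) (.cons (.kr (nat_lit 4740813226943354765568) (nat_lit 1208925891672223212699648) (nat_lit 1) (nat_lit 0)) (.cons (.br (nat_lit 3) (nat_lit 1) (.cons (.rf (nat_lit 628) (nat_lit 493858305440582043680)) (.cons (.rf (nat_lit 628) (nat_lit 492741412732994160672)) .nil))) .nil))),
 (.br (nat_lit 6) (nat_lit 1) (.cons (.br (nat_lit 5) (nat_lit 1) (.cons (.zr (nat_lit 23611833540248133238784) (nat_lit 20283030991523096459634949489153) (nat_lit 5) (nat_lit 3)) .nil)) (.cons (.ev (nat_lit 79228162532711363146541957376) (nat_lit 1)) .nil))),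
 (.br (nat_lit 4) (nat_lit 1) (.cons (.br (nat_lit 5) (nat_lit 1) (.cons (.zr (nat_lit 1208944410473890960179716) (nat_lit 121694767106919843888756544241664) (nat_lit 10) (nat_lit 0)) (.cons (.zr (nat_lit 1208944410473890960179716) (nat_lit 121773685784424286881281363410944) (nat_lit 10) (nat_lit 0)) .nil))) (.cons (.rf (nat_lit 630) (nat_lit 493858305440582043680)) (.cons (.rf (nat_lit 630) (nat_lit 492741412732994160672)) .nil)))),
 (.br (nat_lit 4) (nat_lit 1) (.cons (.zr (nat_lit 4759332028611102310916) (nat_lit 121694767106919843888756544241664) (nat_lit 10) (nat_lit 0)) (.cons (.br (nat_lit 5) (nat_lit 1) (.cons (.zr (nat_lit 3626777458848285570826240) (nat_lit 20283028573671457510752065159169) (nat_lit 5) (nat_lit 4)) .nil)) .nil))),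
 (.br (nat_lit 6) (nat_lit 1) (.cons (.rf (nat_lit 457) (nat_lit 493858305440514999360)) (.cons (.rf (nat_lit 632) (nat_lit 493858305440582043680)) (.cons (.rf (nat_lit 632) (nat_lit 492741412732994160672)) .nil)))),
 (.br (nat_lit 4) (nat_lit 1) (.cons (.rf (nat_lit 633) (nat_lit 493857213658854196288)) (.cons (.rf (nat_lit 631) (nat_lit 493857213658854196288)) (.cons (.kr (nat_lit 79228162514264337593543950592) (nat_lit 309485009821345068724846592) (nat_lit 1) (nat_lit 0)) .nil)))),
 (.br (nat_lit 8) (nat_lit 0) (.cons (.rf (nat_lit 618) (nat_lit 493857213659895400480)) (.cons (.rf (nat_lit 618) (nat_lit 493857213658854196288)) (.cons (.br (nat_lit 7) (nat_lit 0) (.cons (.rf (nat_lit 618) (nat_lit 493858305440582043680)) (.cons (.rf (nat_lit 618) (nat_lit 493858305439540839488)) (.cons (.rf (nat_lit 625) (nat_lit 493858305440582043680)) (.cons (.br (nat_lit 9) (nat_lit 0) (.cons (.rf (nat_lit 627) (nat_lit 493858305440582043680)) (.cons (.rf (nat_lit 629) (nat_lit 493858305440582043680))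 (.cons (.br (nat_lit 10) (nat_lit 0) (.cons (.rf (nat_lit 627) (nat_lit 493857213659895400480)) (.cons (.rf (nat_lit 629) (nat_lit 493857213659895400480)) (.cons (.kr (nat_lit 1208925891672223212634112) (nat_lit 4740813226943354765312) (nat_lit 7) (nat_lit 0)) .nil)))) .nil)))) .nil))))) (.cons (.br (nat_lit 7) (nat_lit 0) (.cons (.rf (nat_lit 618) (nat_lit 493858305440582043680)) (.cons (.rf (nat_lit 618) (nat_lit 493858305439540839488)) (.cons (.rf (nat_lit 625) (nat_lit 493858305440582043680)) (.cons (.br (nat_lit 3) (nat_lit 1) (.cons (.rf (nat_lit 631) (nat_lit 493858305440582043680)) (.cons (.rf (nat_lit 633) (nat_lit 493858305440582043680)) (.cons (.rf (nat_lit 634) (nat_lit 493858305440582043680)) (.cons (.rf (nat_lit 634) (nat_lit 492741412732994160672)) .nil))))) .nil))))) .nil))))),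
 (.br (nat_lit 7) (nat_lit 0) (.cons (.rf (nat_lit 618) (nat_lit 493858305440582043680)) (.cons (.rf (nat_lit 618) (nat_lit 493858305439540839488)) (.cons (.rf (nat_lit 625) (nat_lit 493858305440582043680)) (.cons (.br (nat_lit 8) (nat_lit 0) (.cons (.rf (nat_lit 618) (nat_lit 493857213659895400480)) (.cons (.rf (nat_lit 618) (nat_lit 493857213658854196288)) (.cons (.rf (nat_lit 635) (nat_lit 493857213659895400480)) (.cons (.rf (nat_lit 635) (nat_lit 493857213658854196288)) (.cons (.rf (nat_lit 635) (nat_lit 493858305440582043680)) .nil)))))) .nil))))),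
 (.br (nat_lit 2) (nat_lit 0) (.cons (.rf (nat_lit 497) (nat_lit 14242959524133700672)) (.cons (.rf (nat_lit 497) (nat_lit 14242959520947110976)) (.cons (.rf (nat_lit 550) (nat_lit 14242959523092497472)) (.cons (.br (nat_lit 7) (nat_lit 0) (.cons (.rf (nat_lit 618) (nat_lit 493858305440582043680)) (.cons (.rf (nat_lit 618) (nat_lit 493858305439540839488)) (.cons (.rf (nat_lit 636) (nat_lit 493858305440582043680)) (.cons (.rf (nat_lit 636) (nat_lit 493858305439540839488)) (.cons (.br (nat_lit 7) (nat_lit 0) (.cons (.rf (nat_lit 618) (nat_lit 493858305440582043680)) (.cons (.rf (nat_lit 618) (nat_lit 493858305439540839488)) (.cons (.rf (nat_lit 636) (nat_lit 493858305440582043680)) (.cons (.rf (nat_lit 636) (nat_lit 493858305439540839488)) .nil))))) .nil)))))) .nil))))),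
 (.br (nat_lit 10) (nat_lit 0) (.cons (.rf (nat_lit 401) (nat_lit 14241862003225370848)) (.cons (.rf (nat_lit 419) (nat_lit 493858305438436657184)) .nil))),
 (.br (nat_lit 6) (nat_lit 1) (.cons (.kr (nat_lit 79228167255077564536898715904) (nat_lit 310693935713017291937480704) (nat_lit 1) (nat_lit 0)) .nil)),
 (.br (nat_lit 6) (nat_lit 1) (.cons (.ev (nat_lit 20440865942865746136254799479296) (nat_lit 2)) .nil)),
 (.br (nat_lit 12) (nat_lit 0) (.cons (.ev (nat_lit 20361948460101575722338223128833) (nat_lit 1)) .nil)),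
 (.br (nat_lit 6) (nat_lit 1) (.cons (.br (nat_lit 12) (nat_lit 0) (.cons (.kr (nat_lit 309489750634572012079546624) (nat_lit 79229371440156009816756649984) (nat_lit 1) (nat_lit 0)) .nil)) (.cons (.br (nat_lit 10) (nat_lit 0) (.cons (.kr (nat_lit 309489750634572012079546624) (nat_lit 79229371440156009816756649984) (nat_lit 1) (nat_lit 0)) .nil)) .nil))),
 (.br (nat_lit 9) (nat_lit 0) (.cons (.br (nat_lit 10) (nat_lit 0) (.cons (.kr (nat_lit 4740813226943354765568) (nat_lit 1208925891672223212699648) (nat_lit 1) (nat_lit 0)) (.cons (.rf (nat_lit 585) (nat_lit 493858305440549537824)) .nil))) (.cons (.br (nat_lit 10) (nat_lit 0) (.cons (.rf (nat_lit 342) (nat_lit 14241862005369741536)) (.cons (.br (nat_lit 5) (nat_lit 1) (.cons (.rf (nat_lit 641) (nat_lit 493858305440582043680)) (.cons (.rf (nat_lit 641) (nat_lit 492741412732994160672)) .nil))) .nil))) (.cons (.br (nat_lit 5) (nat_lit 1) (.cons (.rf (nat_lit 361) (nat_lit 493857208162337260768)) (.cons (.rf (nat_lit 642) (nat_lit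 493858305440582043680)) (.cons (.rf (nat_lit 642) (nat_lit 492741412732994160672)) .nil)))) .nil)))),
 (.br (nat_lit 6) (nat_lit 1) (.cons (.rf (nat_lit 352) (nat_lit 14242959352302503136)) (.cons (.ev (nat_lit 309489750634573111608017153) (nat_lit 1)) (.cons (.ev (nat_lit 79228167255077565636427186433) (nat_lit 1)) .nil)))),
 (.br (nat_lit 12) (nat_lit 0) (.cons (.zr (nat_lit 618970038089715686152601600) (nat_lit 79230580365975624445931290624) (nat_lit 5) (nat_lit 6)) (.cons (.zr (nat_lit 618970038089716785647452160) (nat_lit 79230580365975624445931290624) (nat_lit 5) (nat_lit 6)) (.cons (.ev (nat_lit 20282409608392483932369877729281) (nat_lit 1)) .nil)))),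
 (.br (nat_lit 6) (nat_lit 1) (.cons (.rf (nat_lit 645) (nat_lit 493858305440582043680)) (.cons (.rf (nat_lit 645) (nat_lit 492741412732994160672)) .nil))),
 (.br (nat_lit 6) (nat_lit 1) (.cons (.rf (nat_lit 645) (nat_lit 493858305438436657184)) (.cons (.br (nat_lit 10) (nat_lit 0) (.cons (.ev (nat_lit 20361948460101648060312004395265) (nat_lit 1)) .nil)) .nil))),
 (.br (nat_lit 12) (nat_lit 0) (.cons (.br (nat_lit 10) (nat_lit 0) (.cons (.ev (nat_lit 20520094095916901977204451311617) (nat_lit 2)) .nil)) (.cons (.ev (nat_lit 20361637766184381787093776465921) (nat_lit 1)) .nil))),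
 (.br (nat_lit 6) (nat_lit 1) (.cons (.ev (nat_lit 18519083147019157761) (nat_lit 1)) (.cons (.rf (nat_lit 648) (nat_lit 493858305440582043680)) (.cons (.rf (nat_lit 648) (nat_lit 492741412732994160672)) .nil)))),
 (.br (nat_lit 6) (nat_lit 1) (.cons (.zr (nat_lit 158456325028673072975438678529) (nat_lit 81129642041476374260045077544960) (nat_lit 20) (nat_lit 3)) .nil)),
 (.br (nat_lit 9) (nat_lit 0) (.cons (.rf (nat_lit 575) (nat_lit 493858305440549537824)) (.cons (.ev (nat_lit 18519083147019157761) (nat_lit 1)) (.cons (.br (nat_lit 5) (nat_lit 1) (.cons (.rf (nat_lit 650) (nat_lit 493858305440582043680)) (.cons (.rf (nat_lit 650) (nat_lit 492741412732994160672)) .nil))) .nil)))),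
 (.br (nat_lit 6) (nat_lit 1) (.cons (.rf (nat_lit 648) (nat_lit 493858305438436657184)) (.cons (.rf (nat_lit 651) (nat_lit 493858305438436657184)) (.cons (.br (nat_lit 5) (nat_lit 1) (.cons (.ev (nat_lit 9444805587391400182272) (nat_lit 2)) (.cons (.ev (nat_lit 79537647542532427835506753793) (nat_lit 1)) .nil))) .nil)))),
 (.br (nat_lit 12) (nat_lit 0) (.cons (.ev (nat_lit 20282409608392483932369877729281) (nat_lit 1)) .nil)),
 (.br (nat_lit 6) (nat_lit 1) (.cons (.br (nat_lit 12) (nat_lit 0) (.cons (.ev (nat_lit 20282409608392483932369877729281) (nat_lit 1)) .nil)) (.cons (.br (nat_lit 10) (nat_lit 0) (.cons (.ev (nat_lit 20282409608392483932369877729281) (nat_lit 1)) .nil)) .nil))),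
 (.br (nat_lit 4) (nat_lit 1) (.cons (.br (nat_lit 6) (nat_lit 1) (.cons (.rf (nat_lit 653) (nat_lit 493858305440582043680)) (.cons (.rf (nat_lit 653) (nat_lit 492741412732994160672)) .nil))) (.cons (.rf (nat_lit 654) (nat_lit 493858305440582043680)) (.cons (.rf (nat_lit 654) (nat_lit 492741412732994160672)) .nil)))),
 (.br (nat_lit 13) (nat_lit 1) (.cons (.ev (nat_lit 20282719093383930309483954241536) (nat_lit 1)) (.cons (.ev (nat_lit 20282719088679938794568957296641) (nat_lit 1)) .nil))),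
 (.br (nat_lit 6) (nat_lit 1) (.cons (.ev (nat_lit 20282409603651742763016265990144) (nat_lit 1)) (.cons (.ev (nat_lit 4722438823038188257536) (nat_lit 1)) .nil))),
 (.br (nat_lit 9) (nat_lit 0) (.cons (.ev (nat_lit 20361637766184381787093776465921) (nat_lit 1)) .nil)),
 (.br (nat_lit 5) (nat_lit 1) (.cons (.br (nat_lit 6) (nat_lit 1) (.cons (.br (nat_lit 12) (nat_lit 0) (.cons (.ev (nat_lit 20282721506550241503633083465986) (nat_lit 2)) .nil)) (.cons (.rf (nat_lit 597) (nat_lit 493858305440549537824)) .nil))) (.cons (.br (nat_lit 6) (nat_lit 1) (.cons (.ev (nat_lit 1213648258156192386252801) (nat_lit 1)) (.cons (.rf (nat_lit 658) (nat_lit 493858305440582043680)) .nil))) (.cons (.br (nat_lit 6) (nat_lit 1) (.cons (.rf (nat_lit 611) (nat_lit 492741412730881280032)) (.cons (.br (nat_lit 9) (nat_lit 0) (.cons (.ev (nat_lit 20283339267625401662281240084737) (nat_lit 2)) .nil)) .nil))) .nil)))),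
 (.br (nat_lit 6) (nat_lit 1) (.cons (.ev (nat_lit 18519083147019157761) (nat_lit 1)) (.cons (.ev (nat_lit 79228162514336677762086994176) (nat_lit 1)) .nil))),
 (.br (nat_lit 6) (nat_lit 1) (.cons (.zr (nat_lit 7253554989748667671445504) (nat_lit 40566057147342626791127945052162) (nat_lit 10) (nat_lit 6)) .nil)),
 (.br (nat_lit 6) (nat_lit 1) (.cons (.zr (nat_lit 14167099448626115511040) (nat_lit 20283028573708206884806625067009) (nat_lit 5) (nat_lit 3)) .nil)),
 (.br (nat_lit 12) (nat_lit 0) (.cons (.rf (nat_lit 606) (nat_lit 492741412732961654816)) (.cons (.ev (nat_lit 20361637766184381787093776465921) (nat_lit 1)) .nil))),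
 (.br (nat_lit 8) (nat_lit 0) (.cons (.br (nat_lit 7) (nat_lit 0) (.cons (.rf (nat_lit 553) (nat_lit 15433072044951046176)) (.cons (.br (nat_lit 9) (nat_lit 0) (.cons (.rf (nat_lit 638) (nat_lit 493858305440582043680)) (.cons (.rf (nat_lit 555) (nat_lit 493858305438469163040)) (.cons (.br (nat_lit 10) (nat_lit 0) (.cons (.rf (nat_lit 555) (nat_lit 493857213659860862016)) (.cons (.rf (nat_lit 638) (nat_lit 493857213657682969664)) (.cons (.br (nat_lit 4) (nat_lit 1) (.cons (.rf (nat_lit 639) (nat_lit 493858305440582043680)) (.cons (.rf (nat_lit 639) (nat_lit 492741412732994160672)) .nil))) .nil)))) .nil)))) (.cons (.br (nat_lit 10) (nat_lit 0) (.cons (.rf (nat_lit 560) (nat_lit 15433037926802555968)) (.cons (.br (nat_lit 4) (nat_lit 1) (.cons (.br (nat_lit 6) (nat_lit 1) (.cons (.ev (nat_lit 310703417483587474841338370) (nat_lit 2)) (.cons (.ev (nat_lit 79229380921926579999660507650) (nat_lit 2)) .nil))) (.cons (.rf (nat_lit 562) (nat_lit 493857213659860862016)) (.cons (.rf (nat_lit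 562) (nat_lit 492740320952272979008)) .nil)))) (.cons (.br (nat_lit 9) (nat_lit 0) (.cons (.br (nat_lit 11) (nat_lit 0) (.cons (.br (nat_lit 6) (nat_lit 1) (.cons (.ev (nat_lit 40569153220810824134062273659140) (nat_lit 4)) .nil)) .nil)) (.cons (.br (nat_lit 4) (nat_lit 1) (.cons (.rf (nat_lit 640) (nat_lit 493858305440582043680)) (.cons (.rf (nat_lit 640) (nat_lit 492741412732994160672)) .nil))) .nil))) .nil)))) .nil)))) (.cons (.br (nat_lit 7) (nat_lit 0) (.cons (.rf (nat_lit 643) (nat_lit 493858305440582043680)) (.cons (.br (nat_lit 9) (nat_lit 0) (.cons (.rf (nat_lit 644) (nat_lit 493858305440582043680)) (.cons (.rf (nat_lit 644) (nat_lit 493858305438436657184)) (.cons (.br (nat_lit 4) (nat_lit 1) (.cons (.rf (nat_lit 646) (nat_lit 493858305440582043680)) (.cons (.rf (nat_lit 647) (nat_lit 493858305440582043680)) (.cons (.rf (nat_lit 647) (nat_lit 492741412732994160672)) .nil)))) .nil)))) (.cons (.rf (nat_lit 643) (nat_lit 493858305438436657184)) (.cons (.br (nat_lit 4)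 (nat_lit 1) (.cons (.rf (nat_lit 649) (nat_lit 493858305440582043680)) (.cons (.rf (nat_lit 651) (nat_lit 493858305440582043680)) (.cons (.rf (nat_lit 652) (nat_lit 493858305440582043680)) (.cons (.rf (nat_lit 652) (nat_lit 492741412732994160672)) .nil))))) .nil))))) (.cons (.br (nat_lit 7) (nat_lit 0) (.cons (.br (nat_lit 9) (nat_lit 0) (.cons (.rf (nat_lit 593) (nat_lit 15433072044951046176)) (.cons (.br (nat_lit 5) (nat_lit 1) (.cons (.rf (nat_lit 358) (nat_lit 493857208162337260768)) (.cons (.rf (nat_lit 594) (nat_lit 493858305440549537824)) (.cons (.rf (nat_lit 594) (nat_lit 492741412732961654816)) .nil)))) (.cons (.ev (nat_lit 20282409603651742481545584246784) (nat_lit 1)) .nil)))) (.cons (.br (nat_lit 9) (nat_lit 0) (.cons (.br (nat_lit 11) (nat_lit 0) (.cons (.br (nat_lit 6) (nat_lit 1) (.cons (.ev (nat_lit 310693935713018391465820161) (nat_lit 1)) (.cons (.kr (nat_lit 309485009821345068724781056) (nat_lit 79228162514264337593543950336) (nat_lit 11) (nat_lit 0)) .nil)))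 (.cons (.ev (nat_lit 309489750634573111608017153) (nat_lit 1)) .nil))) (.cons (.rf (nat_lit 655) (nat_lit 493858305440582043680)) (.cons (.br (nat_lit 4) (nat_lit 1) (.cons (.br (nat_lit 6) (nat_lit 1) (.cons (.ev (nat_lit 121695696785134676882572005672198) (nat_lit 3)) (.cons (.ev (nat_lit 122011371495152448852671282349318) (nat_lit 3)) .nil))) (.cons (.ev (nat_lit 309489750634573111608017153) (nat_lit 1)) (.cons (.ev (nat_lit 79228167255077565636427186433) (nat_lit 1)) .nil)))) .nil)))) (.cons (.br (nat_lit 4) (nat_lit 1) (.cons (.br (nat_lit 6) (nat_lit 1) (.cons (.ev (nat_lit 1223129956948061466919426) (nat_lit 2)) (.cons (.rf (nat_lit 656) (nat_lit 493858305440582043680)) (.cons (.rf (nat_lit 656) (nat_lit 492741412732994160672)) .nil)))) (.cons (.br (nat_lit 9) (nat_lit 0) (.cons (.rf (nat_lit 596) (nat_lit 493858305440549537824)) (.cons (.kr (nat_lit 4722366482873940180992) (nat_lit 1208925819896104151416832) (nat_lit 4) (nat_lit 0)) (.cons (.br (nat_lit 5) (nat_lit 1)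 (.cons (.rf (nat_lit 657) (nat_lit 493858305440582043680)) (.cons (.rf (nat_lit 657) (nat_lit 492741412732994160672)) .nil))) .nil)))) (.cons (.rf (nat_lit 659) (nat_lit 493858305440582043680)) (.cons (.rf (nat_lit 659) (nat_lit 492741412732994160672)) .nil))))) (.cons (.br (nat_lit 9) (nat_lit 0) (.cons (.br (nat_lit 10) (nat_lit 0) (.cons (.br (nat_lit 6) (nat_lit 1) (.cons (.zr (nat_lit 18944806164803532882176) (nat_lit 20283030991523168516125164044289) (nat_lit 10) (nat_lit 4)) (.cons (.zr (nat_lit 18944806164803532882176) (nat_lit 20440868346532054501174802382849) (nat_lit 10) (nat_lit 4)) .nil))) (.cons (.br (nat_lit 5) (nat_lit 1) (.cons (.rf (nat_lit 660) (nat_lit 493858305440582043680)) (.cons (.rf (nat_lit 660) (nat_lit 492741412732994160672)) .nil))) .nil))) (.cons (.br (nat_lit 10) (nat_lit 0) (.cons (.kr (nat_lit 4740813226943354765568) (nat_lit 1208925891672223212699648) (nat_lit 1) (nat_lit 0)) (.cons (.br (nat_lit 4) (nat_lit 1) (.cons (.rf (nat_lit 661) (nat_lit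 493858305440582043680)) (.cons (.rf (nat_lit 661) (nat_lit 492741412732994160672)) .nil))) .nil))) (.cons (.br (nat_lit 4) (nat_lit 1) (.cons (.br (nat_lit 5) (nat_lit 1) (.cons (.rf (nat_lit 662) (nat_lit 493858305440582043680)) (.cons (.rf (nat_lit 662) (nat_lit 492741412732994160672)) .nil))) (.cons (.rf (nat_lit 663) (nat_lit 493858305440582043680)) (.cons (.rf (nat_lit 663) (nat_lit 492741412732994160672)) .nil)))) .nil)))) .nil))))) .nil))))]

theorem c17 : chkAll C T R L17 (nat_lit 627) = true := by decide +kernel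

theorem l17 : (nat_lit 627) + L17.length = (nat_lit 665) := by decide +kernel

/-- part of the certificates -/
def L18 : List Prf := [(.br (nat_lit 6) (nat_lit 1) (.cons (.kr (nat_lit 79228167255077564536898715904) (nat_lit 310693935713017291937480704) (nat_lit 1) (nat_lit 0)) .nil)),
 (.br (nat_lit 7) (nat_lit 0) (.cons (.rf (nat_lit 664) (nat_lit 493857213659828356160)) (.cons (.rf (nat_lit 664) (nat_lit 493857213657682969664)) (.cons (.br (nat_lit 8) (nat_lit 0) (.cons (.rf (nat_lit 664) (nat_lit 493858305440582043680)) (.cons (.rf (nat_lit 664) (nat_lit 493858305438436657184)) (.cons (.br (nat_lit 9) (nat_lit 0) (.cons (.br (nat_lit 10) (nat_lit 0) (.cons (.kr (nat_lit 4740813226943354765568) (nat_lit 1208925891672223212699648) (nat_lit 1) (nat_lit 0)) (.cons (.br (nat_lit 4) (nat_lit 1) (.cons (.rf (nat_lit 665) (nat_lit 493858305440582043680)) (.cons (.rf (nat_lit 665) (nat_lit 492741412732994160672)) .nil))) .nil))) (.cons (.br (nat_lit 10) (nat_lit 0) (.cons (.br (nat_lit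 6) (nat_lit 1) (.cons (.rf (nat_lit 665) (nat_lit 493858305438436657184)) (.cons (.rf (nat_lit 665) (nat_lit 492741412730848774176)) .nil))) (.cons (.kr (nat_lit 4740813226943354765568) (nat_lit 1208925891672223212699648) (nat_lit 1) (nat_lit 0)) .nil))) .nil))) .nil)))) .nil)))),
 (.br (nat_lit 8) (nat_lit 0) (.cons (.rf (nat_lit 664) (nat_lit 493858305440582043680)) (.cons (.rf (nat_lit 666) (nat_lit 493858305440582043680)) (.cons (.rf (nat_lit 664) (nat_lit 493858305438436657184)) (.cons (.br (nat_lit 8) (nat_lit 0) (.cons (.rf (nat_lit 664) (nat_lit 493858305440582043680)) (.cons (.rf (nat_lit 666) (nat_lit 493858305440582043680)) (.cons (.rf (nat_lit 664) (nat_lit 493858305438436657184)) .nil)))) .nil))))),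
 (.br (nat_lit 12) (nat_lit 0) (.cons (.kr (nat_lit 310693935713017291937415424) (nat_lit 79228167255077564536898781184) (nat_lit 1) (nat_lit 0)) .nil)),
 (.br (nat_lit 10) (nat_lit 0) (.cons (.kr (nat_lit 1208925891672223212634368) (nat_lit 4740813226943354830848) (nat_lit 1) (nat_lit 0)) (.cons (.br (nat_lit 5) (nat_lit 1) (.cons (.rf (nat_lit 668) (nat_lit 493858305440582043680)) (.cons (.rf (nat_lit 668) (nat_lit 492741412732994160672)) .nil))) .nil))),
 (.br (nat_lit 12) (nat_lit 0) (.cons (.rf (nat_lit 621) (nat_lit 493858305440549537824)) (.cons (.ev (nat_lit 20282409608374036907916424970241) (nat_lit 1)) .nil))),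
 (.br (nat_lit 5) (nat_lit 1) (.cons (.rf (nat_lit 620) (nat_lit 493858305440549537824)) (.cons (.rf (nat_lit 670) (nat_lit 493858305440582043680)) (.cons (.rf (nat_lit 670) (nat_lit 492741412732994160672)) .nil)))),
 (.br (nat_lit 12) (nat_lit 0) (.cons (.kr (nat_lit 309489750634572012079546624) (nat_lit 79229371440156009816756649984) (nat_lit 1) (nat_lit 0)) .nil)),
 (.br (nat_lit 9) (nat_lit 0) (.cons (.rf (nat_lit 620) (nat_lit 493858305440547505216)) (.cons (.br (nat_lit 5) (nat_lit 1) (.cons (.rf (nat_lit 672) (nat_lit 493858305440582043680)) (.cons (.rf (nat_lit 672) (nat_lit 492741412732994160672)) .nil))) (.cons (.ev (nat_lit 20282410817318303265524075790336) (nat_lit 1)) .nil)))),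
 (.br (nat_lit 5) (nat_lit 1) (.cons (.rf (nat_lit 671) (nat_lit 493858305440514999360)) (.cons (.rf (nat_lit 673) (nat_lit 493858305440514999360)) (.cons (.kr (nat_lit 79228162514264337593543950592) (nat_lit 309485009821345068724846592) (nat_lit 1) (nat_lit 0)) .nil)))),
 (.br (nat_lit 8) (nat_lit 0) (.cons (.rf (nat_lit 667) (nat_lit 493857213659895400480)) (.cons (.rf (nat_lit 667) (nat_lit 493857213659828356160)) (.cons (.br (nat_lit 9) (nat_lit 0) (.cons (.rf (nat_lit 669) (nat_lit 493858305440582043680)) (.cons (.rf (nat_lit 669) (nat_lit 493858305440514999360)) (.cons (.br (nat_lit 10) (nat_lit 0) (.cons (.rf (nat_lit 669) (nat_lit 493857213659895400480)) (.cons (.rf (nat_lit 669) (nat_lit 493857213659828356160)) (.cons (.kr (nat_lit 1208925891672223212634112) (nat_lit 4740813226943354765312) (nat_lit 7) (nat_lit 0)) .nil)))) .nil)))) (.cons (.br (nat_lit 3) (nat_lit 1) (.cons (.rf (nat_lit 671) (nat_lit 493858305440582043680)) (.cons (.rf (nat_lit 673) (nat_lit 493858305440582043680))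 (.cons (.rf (nat_lit 674) (nat_lit 493858305440582043680)) (.cons (.rf (nat_lit 674) (nat_lit 492741412732994160672)) .nil))))) .nil))))),
 (.br (nat_lit 8) (nat_lit 0) (.cons (.rf (nat_lit 667) (nat_lit 493857213659895400480)) (.cons (.rf (nat_lit 675) (nat_lit 493858305440582043680)) (.cons (.rf (nat_lit 667) (nat_lit 493857213659828356160)) (.cons (.rf (nat_lit 675) (nat_lit 493858305438436657184)) (.cons (.br (nat_lit 8) (nat_lit 0) (.cons (.rf (nat_lit 667) (nat_lit 493857213659895400480)) (.cons (.rf (nat_lit 675) (nat_lit 493858305440582043680)) (.cons (.rf (nat_lit 667) (nat_lit 493857213659828356160)) (.cons (.rf (nat_lit 675) (nat_lit 493858305438436657184)) .nil))))) .nil)))))),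
 (.br (nat_lit 6) (nat_lit 1) (.cons (.zr (nat_lit 237684487542793012797811916800) (nat_lit 20282409613133297160408465932289) (nat_lit 5) (nat_lit 5)) .nil)),
 (.br (nat_lit 10) (nat_lit 0) (.cons (.kr (nat_lit 1208925891672223212634368) (nat_lit 4740813226943354830848) (nat_lit 1) (nat_lit 0)) (.cons (.br (nat_lit 5) (nat_lit 1) (.cons (.rf (nat_lit 677) (nat_lit 493858305440582043680)) (.cons (.rf (nat_lit 677) (nat_lit 492741412732994160672)) .nil))) .nil))),
 (.br (nat_lit 6) (nat_lit 1) (.cons (.ev (nat_lit 309485028268371716939513856) (nat_lit 1)) .nil)),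
 (.br (nat_lit 5) (nat_lit 1) (.cons (.br (nat_lit 6) (nat_lit 1) (.cons (.zr (nat_lit 1237940113072919528280948743) (nat_lit 162259282878564827950892114247680) (nat_lit 15) (nat_lit 0)) .nil)) (.cons (.br (nat_lit 6) (nat_lit 1) (.cons (.zr (nat_lit 6044629459487015970014464) (nat_lit 20283028583245173289443781640193) (nat_lit 5) (nat_lit 3)) .nil)) .nil))),
 (.br (nat_lit 4) (nat_lit 1) (.cons (.br (nat_lit 5) (nat_lit 1) (.cons (.rf (nat_lit 679) (nat_lit 493858305440582043680)) (.cons (.rf (nat_lit 679) (nat_lit 492741412732994160672)) .nil))) (.cons (.rf (nat_lit 680) (nat_lit 493858305440582043680)) (.cons (.rf (nat_lit 680) (nat_lit 492741412732994160672)) .nil)))),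
 (.br (nat_lit 5) (nat_lit 1) (.cons (.rf (nat_lit 681) (nat_lit 493858305440514999360)) (.cons (.rf (nat_lit 681) (nat_lit 493857213657682969664)) (.cons (.kr (nat_lit 79228162514264337593543950592) (nat_lit 309485009821345068724846592) (nat_lit 1) (nat_lit 0)) .nil)))),
 (.br (nat_lit 8) (nat_lit 0) (.cons (.rf (nat_lit 667) (nat_lit 493857213659895400480)) (.cons (.br (nat_lit 7) (nat_lit 0) (.cons (.rf (nat_lit 667) (nat_lit 493858305440582043680)) (.cons (.rf (nat_lit 667) (nat_lit 493858305440514999360)) (.cons (.rf (nat_lit 676) (nat_lit 493858305440582043680)) (.cons (.br (nat_lit 9) (nat_lit 0) (.cons (.rf (nat_lit 678) (nat_lit 493858305440582043680)) (.cons (.rf (nat_lit 678) (nat_lit 493858305440514999360)) (.cons (.br (nat_lit 10) (nat_lit 0) (.cons (.rf (nat_lit 678) (nat_lit 493857213659895400480)) (.cons (.rf (nat_lit 678) (nat_lit 493857213659828356160)) (.cons (.kr (nat_lit 1208925891672223212634112) (nat_lit 4740813226943354765312) (nat_lit 7) (nat_lit 0))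 .nil)))) .nil)))) .nil))))) (.cons (.rf (nat_lit 667) (nat_lit 493857213659828356160)) (.cons (.br (nat_lit 7) (nat_lit 0) (.cons (.rf (nat_lit 667) (nat_lit 493858305440582043680)) (.cons (.rf (nat_lit 667) (nat_lit 493858305440514999360)) (.cons (.rf (nat_lit 676) (nat_lit 493858305440582043680)) (.cons (.br (nat_lit 3) (nat_lit 1) (.cons (.rf (nat_lit 681) (nat_lit 493858305440582043680)) (.cons (.rf (nat_lit 681) (nat_lit 493857213657750013984)) (.cons (.rf (nat_lit 682) (nat_lit 493858305440582043680)) (.cons (.rf (nat_lit 682) (nat_lit 492741412732994160672)) .nil))))) .nil))))) .nil))))),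
 (.br (nat_lit 7) (nat_lit 0) (.cons (.rf (nat_lit 667) (nat_lit 493858305440582043680)) (.cons (.rf (nat_lit 667) (nat_lit 493858305440514999360)) (.cons (.rf (nat_lit 676) (nat_lit 493858305440582043680)) (.cons (.br (nat_lit 8) (nat_lit 0) (.cons (.rf (nat_lit 667) (nat_lit 493857213659895400480)) (.cons (.rf (nat_lit 683) (nat_lit 493857213659895400480)) (.cons (.rf (nat_lit 667) (nat_lit 493857213659828356160)) (.cons (.rf (nat_lit 683) (nat_lit 493857213657750013984)) (.cons (.rf (nat_lit 683) (nat_lit 493858305440582043680)) .nil)))))) .nil))))),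
 (.br (nat_lit 2) (nat_lit 0) (.cons (.rf (nat_lit 550) (nat_lit 14242959524133700672)) (.cons (.rf (nat_lit 497) (nat_lit 14242959520947110976)) (.cons (.rf (nat_lit 497) (nat_lit 14242959521921270848)) (.cons (.br (nat_lit 7) (nat_lit 0) (.cons (.rf (nat_lit 667) (nat_lit 493858305440582043680)) (.cons (.rf (nat_lit 684) (nat_lit 493858305440582043680)) (.cons (.rf (nat_lit 667) (nat_lit 493858305440514999360)) (.cons (.rf (nat_lit 684) (nat_lit 493858305438436657184)) (.cons (.br (nat_lit 7) (nat_lit 0) (.cons (.rf (nat_lit 667) (nat_lit 493858305440582043680)) (.cons (.rf (nat_lit 684) (nat_lit 493858305440582043680)) (.cons (.rf (nat_lit 667) (nat_lit 493858305440514999360)) (.cons (.rf (nat_lit 684) (nat_lit 493858305438436657184)) .nil))))) .nil)))))) .nil))))),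
 (.br (nat_lit 10) (nat_lit 1) (.cons (.br (nat_lit 11) (nat_lit 1) (.cons (.br (nat_lit 1) (nat_lit 0) (.cons (.rf (nat_lit 497) (nat_lit 14242959524133701664)) (.cons (.rf (nat_lit 550) (nat_lit 14242959524133701664)) (.cons (.rf (nat_lit 497) (nat_lit 14242959521988315168)) (.cons (.br (nat_lit 2) (nat_lit 0) (.cons (.br (nat_lit 2) (nat_lit 0) (.cons (.rf (nat_lit 497) (nat_lit 14242959524133700672)) (.cons (.rf (nat_lit 550) (nat_lit 14242959524133700672)) (.cons (.rf (nat_lit 497) (nat_lit 14242959521988314176)) (.cons (.kr (nat_lit 256) (nat_lit 65536) (nat_lit 1) (nat_lit 0)) .nil))))) (.cons (.rf (nat_lit 637) (nat_lit 493858305440582043680)) (.cons (.rf (nat_lit 685) (nat_lit 493858305440582043680)) (.cons (.rf (nat_lit 637) (nat_lit 493858305438436657184)) (.cons (.br (nat_lit 2) (nat_lit 0) (.cons (.kr (nat_lit 256) (nat_lit 65536) (nat_lit 1) (nat_lit 0)) (.cons (.rf (nat_lit 637) (nat_lit 493858305440582043680)) (.cons (.rf (nat_lit 685) (nat_lit 493858305440582043680))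 (.cons (.rf (nat_lit 637) (nat_lit 493858305438436657184)) .nil))))) .nil)))))) .nil))))) .nil)) .nil)),
 (.br (nat_lit 7) (nat_lit 1) (.cons (.br (nat_lit 1) (nat_lit 0) (.cons (.rf (nat_lit 287) (nat_lit 9043225708576)) (.cons (.rf (nat_lit 304) (nat_lit 9043225708576)) (.cons (.rf (nat_lit 287) (nat_lit 9041080322080)) (.cons (.br (nat_lit 9) (nat_lit 1) (.cons (.rf (nat_lit 314) (nat_lit 318899346317536)) (.cons (.rf (nat_lit 315) (nat_lit 325702574508064)) (.cons (.rf (nat_lit 315) (nat_lit 324637422618656)) (.cons (.br (nat_lit 10) (nat_lit 1) (.cons (.br (nat_lit 11) (nat_lit 1) (.cons (.br (nat_lit 11) (nat_lit 1) (.cons (.br (nat_lit 9) (nat_lit 1) (.cons (.rf (nat_lit 314) (nat_lit 318899346317536)) (.cons (.rf (nat_lit 315) (nat_lit 325702574508064)) (.cons (.rf (nat_lit 315) (nat_lit 324637422618656)) (.cons (.rf (nat_lit 248) (nat_lit 10253542628417)) (.cons (.rf (nat_lit 246) (nat_lit 422327884865)) (.cons (.rf (nat_lit 246) (nat_lit 456687623233)) .nil)))))))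 .nil)) .nil)) .nil)) .nil))))) .nil))))) (.cons (.br (nat_lit 8) (nat_lit 1) (.cons (.rf (nat_lit 29) (nat_lit 9706561)) (.cons (.br (nat_lit 9) (nat_lit 1) (.cons (.rf (nat_lit 31) (nat_lit 345250881)) (.cons (.br (nat_lit 9) (nat_lit 1) (.cons (.rf (nat_lit 31) (nat_lit 345250881)) (.cons (.br (nat_lit 10) (nat_lit 1) (.cons (.rf (nat_lit 686) (nat_lit 14242959524133701664)) (.cons (.rf (nat_lit 686) (nat_lit 13126066816545818656)) .nil))) .nil))) .nil))) .nil))) .nil))),
 (.br (nat_lit 2) (nat_lit 0) (.cons (.rf (nat_lit 687) (nat_lit 8837067283520)) (.cons (.rf (nat_lit 687) (nat_lit 8836026080320)) (.cons (.rf (nat_lit 687) (nat_lit 8837000240192)) (.cons (.rf (nat_lit 687) (nat_lit 8835959036992)) (.cons (.br (nat_lit 2) (nat_lit 0) (.cons (.rf (nat_lit 687) (nat_lit 8837067283520)) (.cons (.rf (nat_lit 687) (nat_lit 8836026080320)) (.cons (.rf (nat_lit 687) (nat_lit 8837000240192)) (.cons (.rf (nat_lit 687) (nat_lit 8835959036992)) .nil))))) .nil)))))),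
 (.br (nat_lit 6) (nat_lit 1) (.cons (.br (nat_lit 7) (nat_lit 1) .nil) .nil)),
 (.br (nat_lit 9) (nat_lit 0) (.cons (.br (nat_lit 11) (nat_lit 1) (.cons (.rf (nat_lit 689) (nat_lit 13230152769)) .nil)) .nil)),
 (.br (nat_lit 10) (nat_lit 0) (.cons (.ev (nat_lit 1208925819615728686399744) (nat_lit 1)) (.cons (.br (nat_lit 7) (nat_lit 0) (.cons (.rf (nat_lit 690) (nat_lit 407901468851537952)) (.cons (.br (nat_lit 11) (nat_lit 1) (.cons (.ev (nat_lit 4740885285636904321024) (nat_lit 1)) (.cons (.rf (nat_lit 689) (nat_lit 13230152769)) .nil))) .nil))) .nil))),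
 (.br (nat_lit 9) (nat_lit 0) (.cons (.ev (nat_lit 1103806660609) (nat_lit 1)) (.cons (.br (nat_lit 5) (nat_lit 1) (.cons (.rf (nat_lit 690) (nat_lit 406809687059694656)) (.cons (.br (nat_lit 11) (nat_lit 1) (.cons (.ev (nat_lit 1223148331355260890317570) (nat_lit 2)) (.cons (.rf (nat_lit 689) (nat_lit 13230152769)) .nil))) (.cons (.rf (nat_lit 689) (nat_lit 13230152769)) .nil)))) .nil))),
 (.br (nat_lit 2) (nat_lit 0) (.cons (.rf (nat_lit 691) (nat_lit 11584701642934304)) (.cons (.rf (nat_lit 692) (nat_lit 11584701642934304)) (.cons (.br (nat_lit 7) (nat_lit 0) (.cons (.rf (nat_lit 692) (nat_lit 11584528803044384)) (.cons (.rf (nat_lit 691) (nat_lit 11584528803044384)) (.cons (.br (nat_lit 11) (nat_lit 1) (.cons (.br (nat_lit 11) (nat_lit 1) (.cons (.kr (nat_lit 4722366482869645213696) (nat_lit 309485009821345068724781056) (nat_lit 9) (nat_lit 0)) (.cons (.rf (nat_lit 689) (nat_lit 13230152769)) .nil))) (.cons (.br (nat_lit 5) (nat_lit 1) (.cons (.ev (nat_lit 1213666704900270373994753)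 (nat_lit 1)) (.cons (.rf (nat_lit 689) (nat_lit 13230152769)) .nil))) (.cons (.rf (nat_lit 689) (nat_lit 13230152769)) .nil)))) .nil)))) .nil)))),
 (.br (nat_lit 11) (nat_lit 1) (.cons (.br (nat_lit 5) (nat_lit 1) (.cons (.br (nat_lit 6) (nat_lit 1) (.cons (.rf (nat_lit 689) (nat_lit 13230152769)) .nil)) (.cons (.rf (nat_lit 689) (nat_lit 13230152769)) .nil))) (.cons (.br (nat_lit 5) (nat_lit 1) (.cons (.ev (nat_lit 1213666704900270373994753) (nat_lit 1)) (.cons (.rf (nat_lit 689) (nat_lit 13230152769)) .nil))) (.cons (.rf (nat_lit 689) (nat_lit 13230152769)) .nil)))),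
 (.br (nat_lit 6) (nat_lit 1) (.cons (.rf (nat_lit 694) (nat_lit 407901468851537952)) (.cons (.br (nat_lit 11) (nat_lit 1) (.cons (.br (nat_lit 5) (nat_lit 1) (.cons (.rf (nat_lit 689) (nat_lit 13230152769)) .nil)) (.cons (.rf (nat_lit 689) (nat_lit 13230152769)) .nil))) (.cons (.rf (nat_lit 689) (nat_lit 13230152769)) .nil)))),
 (.br (nat_lit 8) (nat_lit 0) (.cons (.rf (nat_lit 693) (nat_lit 11584701642934304)) (.cons (.br (nat_lit 2) (nat_lit 0) (.cons (.br (nat_lit 10) (nat_lit 0) (.cons (.ev (nat_lit 1208925819615728686399744) (nat_lit 1)) (.cons (.br (nat_lit 6) (nat_lit 1) (.cons (.br (nat_lit 11) (nat_lit 1) (.cons (.ev (nat_lit 4740885285636904321024) (nat_lit 1)) (.cons (.rf (nat_lit 689) (nat_lit 13230152769)) .nil))) (.cons (.br (nat_lit 11) (nat_lit 1) (.cons (.ev (nat_lit 4740885285636904321024) (nat_lit 1)) (.cons (.rf (nat_lit 689) (nat_lit 13230152769)) .nil))) (.cons (.rf (nat_lit 689) (nat_lit 13230152769)) .nil)))) .nil))) (.cons (.br (nat_lit 5) (nat_lit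 1) (.cons (.rf (nat_lit 692) (nat_lit 10487420211561696)) (.cons (.ev (nat_lit 1103806660609) (nat_lit 1)) (.cons (.br (nat_lit 6) (nat_lit 1) (.cons (.ev (nat_lit 282574488338689) (nat_lit 1)) (.cons (.br (nat_lit 11) (nat_lit 1) (.cons (.ev (nat_lit 1223148331355260890317570) (nat_lit 2)) (.cons (.rf (nat_lit 689) (nat_lit 13230152769)) .nil))) (.cons (.rf (nat_lit 689) (nat_lit 13230152769)) .nil)))) (.cons (.rf (nat_lit 689) (nat_lit 13230152769)) .nil))))) (.cons (.br (nat_lit 6) (nat_lit 1) (.cons (.rf (nat_lit 694) (nat_lit 407901468851537952)) (.cons (.rf (nat_lit 695) (nat_lit 407901468851537952)) (.cons (.br (nat_lit 6) (nat_lit 1) (.cons (.rf (nat_lit 694) (nat_lit 407901468851537952)) (.cons (.rf (nat_lit 695) (nat_lit 407901468851537952)) (.cons (.rf (nat_lit 689) (nat_lit 13230152769)) .nil)))) (.cons (.rf (nat_lit 689) (nat_lit 13230152769)) .nil))))) .nil)))) .nil)))]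

theorem c18 : chkAll C T R L18 (nat_lit 665) = true := by decide +kernel

theorem l18 : (nat_lit 665) + L18.length = (nat_lit 697) := by decide +kernel

/-- part of the certificates -/
def L19 : List Prf := [(.br (nat_lit 8) (nat_lit 0) (.cons (.rf (nat_lit 696) (nat_lit 11584701642934304)) (.cons (.rf (nat_lit 696) (nat_lit 11584528803044384)) (.cons (.br (nat_lit 8) (nat_lit 0) (.cons (.rf (nat_lit 696) (nat_lit 11584701642934304)) (.cons (.rf (nat_lit 696) (nat_lit 11584528803044384)) .nil))) .nil)))),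
 (.br (nat_lit 9) (nat_lit 0) (.cons (.br (nat_lit 11) (nat_lit 1) (.cons (.br (nat_lit 11) (nat_lit 1) (.cons (.rf (nat_lit 689) (nat_lit 13230152769)) .nil)) (.cons (.rf (nat_lit 689) (nat_lit 13230152769)) .nil))) .nil)),
 (.br (nat_lit 6) (nat_lit 1) (.cons (.ev (nat_lit 1213703598389513009824512) (nat_lit 2)) (.cons (.rf (nat_lit 689) (nat_lit 13230152769)) .nil))),
 (.br (nat_lit 8) (nat_lit 0) (.cons (.rf (nat_lit 698) (nat_lit 11584701642934304)) (.cons (.br (nat_lit 11) (nat_lit 1) (.cons (.rf (nat_lit 699) (nat_lit 407901468851537952)) (.cons (.br (nat_lit 11) (nat_lit 1) (.cons (.rf (nat_lit 699) (nat_lit 407901468851537952)) (.cons (.rf (nat_lit 689) (nat_lit 13230152769)) .nil))) (.cons (.rf (nat_lit 689) (nat_lit 13230152769)) .nil)))) .nil))),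
 (.br (nat_lit 4) (nat_lit 1) (.cons (.rf (nat_lit 698) (nat_lit 11584701642934304)) (.cons (.br (nat_lit 8) (nat_lit 0) (.cons (.br (nat_lit 11) (nat_lit 1) (.cons (.br (nat_lit 11) (nat_lit 1) (.cons (.rf (nat_lit 689) (nat_lit 13230152769)) .nil)) (.cons (.rf (nat_lit 689) (nat_lit 13230152769)) .nil))) .nil)) (.cons (.ev (nat_lit 1208925891953698189345024) (nat_lit 1)) (.cons (.rf (nat_lit 689) (nat_lit 12156410945)) .nil))))),
 (.br (nat_lit 8) (nat_lit 0) (.cons (.rf (nat_lit 700) (nat_lit 11584701642934304)) (.cons (.rf (nat_lit 701) (nat_lit 11584701642934304)) (.cons (.br (nat_lit 8) (nat_lit 0) (.cons (.rf (nat_lit 700) (nat_lit 11584701642934304)) (.cons (.rf (nat_lit 701) (nat_lit 11584701642934304)) .nil))) .nil)))),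
 (.br (nat_lit 9) (nat_lit 0) (.cons (.ev (nat_lit 4722438540467978109184) (nat_lit 1)) (.cons (.br (nat_lit 11) (nat_lit 1) (.cons (.br (nat_lit 11) (nat_lit 1) (.cons (.ev (nat_lit 1208944266358707179290624) (nat_lit 1)) (.cons (.rf (nat_lit 689) (nat_lit 13230152769)) .nil))) (.cons (.br (nat_lit 11) (nat_lit 1) (.cons (.ev (nat_lit 1208944266358707179290624) (nat_lit 1)) (.cons (.rf (nat_lit 689) (nat_lit 13230152769)) .nil))) (.cons (.rf (nat_lit 689) (nat_lit 13230152769)) .nil)))) .nil))),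
 (.br (nat_lit 4) (nat_lit 1) (.cons (.rf (nat_lit 698) (nat_lit 11584700602746912)) (.cons (.ev (nat_lit 1103806660609) (nat_lit 1)) (.cons (.br (nat_lit 8) (nat_lit 0) (.cons (.br (nat_lit 11) (nat_lit 1) (.cons (.br (nat_lit 11) (nat_lit 1) (.cons (.rf (nat_lit 689) (nat_lit 13230152769)) .nil)) (.cons (.rf (nat_lit 689) (nat_lit 13230152769)) .nil))) .nil)) (.cons (.rf (nat_lit 689) (nat_lit 12156410945)) .nil))))),
 (.br (nat_lit 6) (nat_lit 1) (.cons (.ev (nat_lit 4740813508418331541504) (nat_lit 1)) (.cons (.ev (nat_lit 1213648258436567851401473) (nat_lit 1)) (.cons (.rf (nat_lit 689) (nat_lit 13230152769)) .nil)))),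
 (.br (nat_lit 10) (nat_lit 1) (.cons (.br (nat_lit 10) (nat_lit 1) (.cons (.ev (nat_lit 1213648258155092857847809) (nat_lit 1)) (.cons (.rf (nat_lit 689) (nat_lit 12121774145)) .nil))) (.cons (.br (nat_lit 10) (nat_lit 1) (.cons (.ev (nat_lit 1213648258155092857847809) (nat_lit 1)) (.cons (.rf (nat_lit 689) (nat_lit 12121774145)) .nil))) (.cons (.rf (nat_lit 689) (nat_lit 12121774145)) .nil)))),
 (.br (nat_lit 6) (nat_lit 1) (.cons (.br (nat_lit 11) (nat_lit 1) (.cons (.br (nat_lit 4) (nat_lit 1) (.cons (.ev (nat_lit 1208944266358702901100544) (nat_lit 1)) (.cons (.rf (nat_lit 689) (nat_lit 13230152769)) .nil))) (.cons (.br (nat_lit 4) (nat_lit 1) (.cons (.ev (nat_lit 1208944266358702901100544) (nat_lit 1)) (.cons (.rf (nat_lit 689) (nat_lit 13230152769)) .nil))) (.cons (.rf (nat_lit 689) (nat_lit 13230152769)) .nil)))) (.cons (.rf (nat_lit 706) (nat_lit 12746920900528160)) (.cons (.rf (nat_lit 689) (nat_lit 13230152769)) .nil)))),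
 (.br (nat_lit 6) (nat_lit 1) (.cons (.rf (nat_lit 707) (nat_lit 407901468851537952)) (.cons (.br (nat_lit 6) (nat_lit 1) (.cons (.rf (nat_lit 707) (nat_lit 407901468851537952)) (.cons (.ev (nat_lit 4722438821938659917824) (nat_lit 1)) (.cons (.rf (nat_lit 689) (nat_lit 13230152769)) .nil)))) (.cons (.br (nat_lit 6) (nat_lit 1) (.cons (.rf (nat_lit 706) (nat_lit 12746920900528160)) (.cons (.ev (nat_lit 4722438821938659917824) (nat_lit 1)) (.cons (.rf (nat_lit 689) (nat_lit 13230152769)) .nil)))) (.cons (.rf (nat_lit 689) (nat_lit 13230152769)) .nil))))),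
 (.br (nat_lit 4) (nat_lit 1) (.cons (.ev (nat_lit 18447025552981229824) (nat_lit 1)) (.cons (.ev (nat_lit 1208925819896108446384384) (nat_lit 1)) (.cons (.rf (nat_lit 689) (nat_lit 12121774145)) .nil)))),
 (.br (nat_lit 11) (nat_lit 1) (.cons (.rf (nat_lit 708) (nat_lit 407901468851537952)) (.cons (.br (nat_lit 11) (nat_lit 1) (.cons (.rf (nat_lit 708) (nat_lit 407901468851537952)) (.cons (.rf (nat_lit 709) (nat_lit 12746920866973728)) (.cons (.rf (nat_lit 689) (nat_lit 13230152769)) .nil)))) (.cons (.br (nat_lit 11) (nat_lit 1) (.cons (.rf (nat_lit 708) (nat_lit 407901468851537952)) (.cons (.rf (nat_lit 709) (nat_lit 12746920866973728)) (.cons (.rf (nat_lit 689) (nat_lit 13230152769)) .nil)))) (.cons (.rf (nat_lit 689) (nat_lit 13230152769)) .nil))))),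
 (.br (nat_lit 10) (nat_lit 1) (.cons (.kr (nat_lit 18446744073709551616) (nat_lit 1208925819614629174706176) (nat_lit 8) (nat_lit 0)) (.cons (.rf (nat_lit 709) (nat_lit 11584701642934304)) (.cons (.rf (nat_lit 689) (nat_lit 12121774145)) .nil)))),
 (.br (nat_lit 7) (nat_lit 0) (.cons (.rf (nat_lit 697) (nat_lit 11584701642934304)) (.cons (.br (nat_lit 5) (nat_lit 1) (.cons (.rf (nat_lit 702) (nat_lit 11584701642934304)) (.cons (.br (nat_lit 2) (nat_lit 0) (.cons (.rf (nat_lit 703) (nat_lit 11584701642934304)) (.cons (.rf (nat_lit 704) (nat_lit 11584701642934304)) (.cons (.br (nat_lit 8) (nat_lit 0) (.cons (.rf (nat_lit 704) (nat_lit 10487180667560160)) (.cons (.rf (nat_lit 703) (nat_lit 10487180667560160)) (.cons (.br (nat_lit 11) (nat_lit 1) (.cons (.rf (nat_lit 705) (nat_lit 407901468851537952)) (.cons (.rf (nat_lit 705) (nat_lit 406803947876163808)) (.cons (.rf (nat_lit 689) (nat_lit 13230152769)) .nil)))) .nil)))) .nil)))) (.cons (.ev (nat_lit 4722438540463699919104) (nat_lit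 1)) (.cons (.br (nat_lit 4) (nat_lit 1) (.cons (.br (nat_lit 6) (nat_lit 1) (.cons (.rf (nat_lit 703) (nat_lit 11584700601731104)) (.cons (.ev (nat_lit 4722438540467978109184) (nat_lit 1)) (.cons (.rf (nat_lit 689) (nat_lit 12156410945)) .nil)))) (.cons (.br (nat_lit 6) (nat_lit 1) (.cons (.br (nat_lit 8) (nat_lit 0) (.cons (.br (nat_lit 11) (nat_lit 1) (.cons (.ev (nat_lit 1223111582545242910425346) (nat_lit 2)) (.cons (.rf (nat_lit 689) (nat_lit 13230152769)) .nil))) .nil)) (.cons (.rf (nat_lit 701) (nat_lit 10487179626356960)) (.cons (.ev (nat_lit 1208925819897207958011904) (nat_lit 1)) (.cons (.rf (nat_lit 689) (nat_lit 12156410945)) .nil))))) (.cons (.ev (nat_lit 4722366483973468585984) (nat_lit 1)) (.cons (.rf (nat_lit 689) (nat_lit 12156410945)) .nil))))) (.cons (.rf (nat_lit 689) (nat_lit 12156410945)) .nil)))))) (.cons (.br (nat_lit 11) (nat_lit 1) (.cons (.rf (nat_lit 708) (nat_lit 407901468851537952)) (.cons (.rf (nat_lit 710) (nat_lit 407901468851537952)) (.cons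 (.br (nat_lit 11) (nat_lit 1) (.cons (.rf (nat_lit 708) (nat_lit 407901468851537952)) (.cons (.rf (nat_lit 710) (nat_lit 407901468851537952)) (.cons (.rf (nat_lit 711) (nat_lit 12746920866973728)) (.cons (.rf (nat_lit 689) (nat_lit 13230152769)) .nil))))) (.cons (.br (nat_lit 11) (nat_lit 1) (.cons (.rf (nat_lit 708) (nat_lit 407901468851537952)) (.cons (.rf (nat_lit 710) (nat_lit 407901468851537952)) (.cons (.rf (nat_lit 711) (nat_lit 12746920866973728)) (.cons (.rf (nat_lit 689) (nat_lit 13230152769)) .nil))))) (.cons (.rf (nat_lit 689) (nat_lit 13230152769)) .nil)))))) .nil)))),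
 (.br (nat_lit 4) (nat_lit 1) (.cons (.ev (nat_lit 1208944266358707179290624) (nat_lit 1)) (.cons (.br (nat_lit 5) (nat_lit 1) (.cons (.ev (nat_lit 4740885285636904321024) (nat_lit 1)) (.cons (.rf (nat_lit 689) (nat_lit 13230152769)) .nil))) (.cons (.rf (nat_lit 689) (nat_lit 13230152769)) .nil)))),
 (.br (nat_lit 5) (nat_lit 1) (.cons (.rf (nat_lit 713) (nat_lit 407901468851537952)) (.cons (.br (nat_lit 5) (nat_lit 1) (.cons (.rf (nat_lit 713) (nat_lit 407901468851537952)) (.cons (.rf (nat_lit 689) (nat_lit 13230152769)) .nil))) (.cons (.rf (nat_lit 689) (nat_lit 13230152769)) .nil)))),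
 (.br (nat_lit 11) (nat_lit 1) (.cons (.br (nat_lit 11) (nat_lit 1) (.cons (.ev (nat_lit 4722438540463699919104) (nat_lit 1)) (.cons (.rf (nat_lit 714) (nat_lit 407901468851537952)) (.cons (.rf (nat_lit 689) (nat_lit 13230152769)) .nil)))) (.cons (.ev (nat_lit 4722438540463699919104) (nat_lit 1)) (.cons (.br (nat_lit 11) (nat_lit 1) (.cons (.rf (nat_lit 714) (nat_lit 407901468851537952)) (.cons (.ev (nat_lit 4722438540463699919104) (nat_lit 1)) (.cons (.rf (nat_lit 689) (nat_lit 13230152769)) .nil)))) (.cons (.rf (nat_lit 689) (nat_lit 13230152769)) .nil))))),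
 (.br (nat_lit 11) (nat_lit 1) (.cons (.rf (nat_lit 715) (nat_lit 407901468851537952)) (.cons (.ev (nat_lit 4722438540463699919104) (nat_lit 1)) (.cons (.br (nat_lit 11) (nat_lit 1) (.cons (.rf (nat_lit 715) (nat_lit 407901468851537952)) (.cons (.ev (nat_lit 4722438540463699919104) (nat_lit 1)) (.cons (.rf (nat_lit 689) (nat_lit 13230152769)) .nil)))) (.cons (.rf (nat_lit 689) (nat_lit 13230152769)) .nil))))),
 (.br (nat_lit 7) (nat_lit 0) (.cons (.rf (nat_lit 697) (nat_lit 11584701642934304)) (.cons (.rf (nat_lit 712) (nat_lit 11584701642934304)) (.cons (.br (nat_lit 11) (nat_lit 1) (.cons (.rf (nat_lit 715) (nat_lit 407901468851537952)) (.cons (.rf (nat_lit 716) (nat_lit 407901468851537952)) (.cons (.ev (nat_lit 4722438540463699919104) (nat_lit 1)) (.cons (.br (nat_lit 11) (nat_lit 1) (.cons (.rf (nat_lit 715) (nat_lit 407901468851537952)) (.cons (.rf (nat_lit 716) (nat_lit 407901468851537952)) (.cons (.ev (nat_lit 4722438540463699919104) (nat_lit 1)) (.cons (.rf (nat_lit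 689) (nat_lit 13230152769)) .nil))))) (.cons (.rf (nat_lit 689) (nat_lit 13230152769)) .nil)))))) .nil)))),
 (.br (nat_lit 7) (nat_lit 0) (.cons (.rf (nat_lit 697) (nat_lit 11584701642934304)) (.cons (.rf (nat_lit 712) (nat_lit 11584701642934304)) (.cons (.rf (nat_lit 717) (nat_lit 11584701642934304)) (.cons (.br (nat_lit 7) (nat_lit 0) (.cons (.rf (nat_lit 697) (nat_lit 11584701642934304)) (.cons (.rf (nat_lit 712) (nat_lit 11584701642934304)) (.cons (.rf (nat_lit 717) (nat_lit 11584701642934304)) .nil)))) .nil))))),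
 (.br (nat_lit 9) (nat_lit 0) (.cons (.br (nat_lit 11) (nat_lit 1) (.cons (.br (nat_lit 11) (nat_lit 1) (.cons (.rf (nat_lit 689) (nat_lit 13230152769)) .nil)) (.cons (.rf (nat_lit 689) (nat_lit 13230152769)) .nil))) .nil)),
 (.br (nat_lit 8) (nat_lit 0) (.cons (.rf (nat_lit 719) (nat_lit 11584701642934304)) (.cons (.br (nat_lit 11) (nat_lit 1) (.cons (.br (nat_lit 11) (nat_lit 1) (.cons (.rf (nat_lit 711) (nat_lit 12712802655568960)) (.cons (.rf (nat_lit 689) (nat_lit 13230152769)) .nil))) (.cons (.br (nat_lit 11) (nat_lit 1) (.cons (.rf (nat_lit 711) (nat_lit 12712802655568960)) (.cons (.rf (nat_lit 689) (nat_lit 13230152769)) .nil))) (.cons (.rf (nat_lit 689) (nat_lit 13230152769)) .nil)))) .nil))),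
 (.br (nat_lit 11) (nat_lit 1) (.cons (.br (nat_lit 3) (nat_lit 1) (.cons (.ev (nat_lit 1213666633123047523025153) (nat_lit 1)) (.cons (.rf (nat_lit 689) (nat_lit 13230152769)) .nil))) (.cons (.rf (nat_lit 689) (nat_lit 13230152769)) .nil))),
 (.br (nat_lit 11) (nat_lit 1) (.cons (.br (nat_lit 11) (nat_lit 1) (.cons (.rf (nat_lit 689) (nat_lit 13230152769)) .nil)) (.cons (.rf (nat_lit 689) (nat_lit 13230152769)) .nil))),
 (.br (nat_lit 11) (nat_lit 1) (.cons (.rf (nat_lit 722) (nat_lit 407901468851537952)) (.cons (.br (nat_lit 11) (nat_lit 1) (.cons (.rf (nat_lit 722) (nat_lit 407901468851537952)) (.cons (.rf (nat_lit 689) (nat_lit 13230152769)) .nil))) (.cons (.rf (nat_lit 689) (nat_lit 13230152769)) .nil)))),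
 (.br (nat_lit 7) (nat_lit 0) (.cons (.rf (nat_lit 718) (nat_lit 11584529844247584)) (.cons (.rf (nat_lit 718) (nat_lit 11584528803044384)) (.cons (.br (nat_lit 8) (nat_lit 0) (.cons (.rf (nat_lit 720) (nat_lit 11584701642934304)) (.cons (.rf (nat_lit 720) (nat_lit 11584700601731104)) (.cons (.br (nat_lit 8) (nat_lit 0) (.cons (.rf (nat_lit 720) (nat_lit 11584701642934304)) (.cons (.rf (nat_lit 720) (nat_lit 11584700601731104)) .nil))) .nil)))) (.cons (.br (nat_lit 6) (nat_lit 1) (.cons (.rf (nat_lit 718) (nat_lit 10492677184495680)) (.cons (.br (nat_lit 11) (nat_lit 1) (.cons (.rf (nat_lit 721) (nat_lit 407901468851537952)) (.cons (.br (nat_lit 11) (nat_lit 1) (.cons (.rf (nat_lit 721) (nat_lit 407901468851537952)) (.cons (.rf (nat_lit 689) (nat_lit 13230152769)) .nil))) (.cons (.rf (nat_lit 689) (nat_lit 13230152769)) .nil)))) (.cons (.rf (nat_lit 723) (nat_lit 407901468851537952)) (.cons (.rf (nat_lit 689) (nat_lit 13230152769)) .nil))))) .nil))))),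
 (.br (nat_lit 7) (nat_lit 0) (.cons (.rf (nat_lit 718) (nat_lit 11584529844247584)) (.cons (.rf (nat_lit 718) (nat_lit 11584528803044384)) (.cons (.rf (nat_lit 724) (nat_lit 11584701642934304)) (.cons (.rf (nat_lit 724) (nat_lit 11584700601731104)) (.cons (.br (nat_lit 7) (nat_lit 0) (.cons (.rf (nat_lit 718) (nat_lit 11584529844247584)) (.cons (.rf (nat_lit 718) (nat_lit 11584528803044384)) (.cons (.rf (nat_lit 724) (nat_lit 11584701642934304)) (.cons (.rf (nat_lit 724) (nat_lit 11584700601731104)) .nil))))) .nil)))))),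
 (.br (nat_lit 4) (nat_lit 1) (.cons (.br (nat_lit 3) (nat_lit 1) (.cons (.br (nat_lit 6) (nat_lit 1) (.cons (.ev (nat_lit 4740813509517859881216) (nat_lit 1)) (.cons (.rf (nat_lit 689) (nat_lit 13230152769)) .nil))) (.cons (.kr (nat_lit 4722366482873940180992) (nat_lit 1208925819615728686333952) (nat_lit 4) (nat_lit 0)) (.cons (.rf (nat_lit 689) (nat_lit 13230152769)) .nil)))) (.cons (.ev (nat_lit 1213648258156196664508673) (nat_lit 1)) (.cons (.rf (nat_lit 689) (nat_lit 13230152769)) .nil)))),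
 (.br (nat_lit 3) (nat_lit 1) (.cons (.br (nat_lit 4) (nat_lit 1) (.cons (.ev (nat_lit 310693954303876558034764032) (nat_lit 2)) (.cons (.rf (nat_lit 689) (nat_lit 13230152769)) .nil))) (.cons (.br (nat_lit 4) (nat_lit 1) (.cons (.ev (nat_lit 310693954303876558034764032) (nat_lit 2)) (.cons (.rf (nat_lit 689) (nat_lit 13230152769)) .nil))) (.cons (.rf (nat_lit 689) (nat_lit 13230152769)) .nil)))),
 (.br (nat_lit 5) (nat_lit 1) (.cons (.ev (nat_lit 4740885285636904321024) (nat_lit 1)) (.cons (.rf (nat_lit 689) (nat_lit 13230152769)) .nil))),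
 (.br (nat_lit 11) (nat_lit 1) (.cons (.rf (nat_lit 727) (nat_lit 407901468851537952)) (.cons (.br (nat_lit 3) (nat_lit 1) (.cons (.br (nat_lit 4) (nat_lit 1) (.cons (.rf (nat_lit 728) (nat_lit 407901468851537952)) (.cons (.rf (nat_lit 689) (nat_lit 13230152769)) .nil))) (.cons (.rf (nat_lit 728) (nat_lit 407901296011648032)) (.cons (.rf (nat_lit 689) (nat_lit 13230152769)) .nil)))) (.cons (.rf (nat_lit 689) (nat_lit 13230152769)) .nil)))),
 (.br (nat_lit 7) (nat_lit 0) (.cons (.rf (nat_lit 718) (nat_lit 11584529844247584)) (.cons (.rf (nat_lit 718) (nat_lit 11584528803044384)) (.cons (.br (nat_lit 2) (nat_lit 0) (.cons (.rf (nat_lit 718) (nat_lit 11584701642934304)) (.cons (.rf (nat_lit 718) (nat_lit 11584700601731104)) (.cons (.rf (nat_lit 725) (nat_lit 11584701642934304)) (.cons (.br (nat_lit 6) (nat_lit 1) (.cons (.br (nat_lit 6) (nat_lit 1) (.cons (.rf (nat_lit 726) (nat_lit 407901468851537952)) (.cons (.ev (nat_lit 282574488338689) (nat_lit 1)) (.cons (.rf (nat_lit 689)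 (nat_lit 13230152769)) .nil)))) (.cons (.rf (nat_lit 726) (nat_lit 407901468851537952)) (.cons (.br (nat_lit 6) (nat_lit 1) (.cons (.ev (nat_lit 282574488338689) (nat_lit 1)) (.cons (.rf (nat_lit 726) (nat_lit 407901468851537952)) (.cons (.rf (nat_lit 689) (nat_lit 13230152769)) .nil)))) (.cons (.rf (nat_lit 689) (nat_lit 13230152769)) .nil))))) .nil))))) (.cons (.br (nat_lit 2) (nat_lit 0) (.cons (.rf (nat_lit 718) (nat_lit 11584701642934304)) (.cons (.rf (nat_lit 718) (nat_lit 11584700601731104)) (.cons (.rf (nat_lit 725) (nat_lit 11584701642934304)) (.cons (.br (nat_lit 11) (nat_lit 1) (.cons (.rf (nat_lit 729) (nat_lit 407901468851537952)) (.cons (.br (nat_lit 11) (nat_lit 1) (.cons (.rf (nat_lit 727) (nat_lit 407901468851537952)) (.cons (.kr (nat_lit 4722366482869645213696) (nat_lit 309485009821345068724781056) (nat_lit 9) (nat_lit 0)) (.cons (.rf (nat_lit 689) (nat_lit 13230152769)) .nil)))) (.cons (.br (nat_lit 11) (nat_lit 1) (.cons (.rf (nat_lit 729) (nat_lit 407901468851537952))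 (.cons (.kr (nat_lit 4722366482869645213696) (nat_lit 309485009821345068724781056) (nat_lit 9) (nat_lit 0)) (.cons (.rf (nat_lit 689) (nat_lit 13230152769)) .nil)))) (.cons (.rf (nat_lit 689) (nat_lit 13230152769)) .nil))))) .nil))))) .nil))))),
 (.br (nat_lit 2) (nat_lit 0) (.cons (.rf (nat_lit 718) (nat_lit 11584701642934304)) (.cons (.rf (nat_lit 718) (nat_lit 11584700601731104)) (.cons (.rf (nat_lit 725) (nat_lit 11584701642934304)) (.cons (.br (nat_lit 7) (nat_lit 0) (.cons (.rf (nat_lit 718) (nat_lit 11584529844247584)) (.cons (.rf (nat_lit 718) (nat_lit 11584528803044384)) (.cons (.rf (nat_lit 730) (nat_lit 407901297052851232)) (.cons (.rf (nat_lit 730) (nat_lit 407901296011648032)) (.cons (.rf (nat_lit 730) (nat_lit 407901468851537952)) .nil)))))) .nil))))),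
 (.br (nat_lit 2) (nat_lit 0) (.cons (.rf (nat_lit 718) (nat_lit 11584701642934304)) (.cons (.rf (nat_lit 718) (nat_lit 11584700601731104)) (.cons (.rf (nat_lit 731) (nat_lit 11584701642934304)) (.cons (.rf (nat_lit 731) (nat_lit 11584700601731104)) (.cons (.br (nat_lit 2) (nat_lit 0) (.cons (.rf (nat_lit 718) (nat_lit 11584701642934304)) (.cons (.rf (nat_lit 718) (nat_lit 11584700601731104)) (.cons (.rf (nat_lit 731) (nat_lit 11584701642934304)) (.cons (.rf (nat_lit 731) (nat_lit 11584700601731104)) .nil))))) .nil)))))),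
 (.br (nat_lit 10) (nat_lit 1) (.cons (.ev (nat_lit 4722366764348916891904) (nat_lit 1)) (.cons (.br (nat_lit 10) (nat_lit 1) (.cons (.ev (nat_lit 4722366764348916891904) (nat_lit 1)) (.cons (.ev (nat_lit 18518801672042512384) (nat_lit 1)) (.cons (.rf (nat_lit 689) (nat_lit 12121774145)) .nil)))) (.cons (.br (nat_lit 10) (nat_lit 1) (.cons (.ev (nat_lit 4722366764348916891904) (nat_lit 1)) (.cons (.ev (nat_lit 18518801672042512384) (nat_lit 1)) (.cons (.rf (nat_lit 689) (nat_lit 12121774145)) .nil)))) (.cons (.rf (nat_lit 689) (nat_lit 12121774145)) .nil))))),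
 (.br (nat_lit 10) (nat_lit 0) (.cons (.ev (nat_lit 1208925891672227507601664) (nat_lit 1)) (.cons (.rf (nat_lit 733) (nat_lit 12746920866973728)) .nil)))]

theorem c19 : chkAll C T R L19 (nat_lit 697) = true := by decide +kernel

theorem l19 : (nat_lit 697) + L19.length = (nat_lit 735) := by decide +kernel

/-- part of the certificates -/
def L20 : List Prf := [(.br (nat_lit 4) (nat_lit 1) (.cons (.ev (nat_lit 18518801672042512384) (nat_lit 1)) (.cons (.ev (nat_lit 4759260533971312902147) (nat_lit 2)) (.cons (.rf (nat_lit 689) (nat_lit 12121774145)) .nil)))),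
 (.br (nat_lit 8) (nat_lit 0) (.cons (.rf (nat_lit 735) (nat_lit 12712802720515136)) (.cons (.rf (nat_lit 735) (nat_lit 12712802722612288)) .nil))),
 (.br (nat_lit 11) (nat_lit 1) (.cons (.rf (nat_lit 736) (nat_lit 406809688164893760)) (.cons (.rf (nat_lit 736) (nat_lit 407901468851537952)) (.cons (.rf (nat_lit 689) (nat_lit 13230152769)) .nil)))),
 (.br (nat_lit 4) (nat_lit 1) (.cons (.rf (nat_lit 733) (nat_lit 11550583496475712)) (.cons (.ev (nat_lit 4759260533971312902147) (nat_lit 2)) (.cons (.rf (nat_lit 689) (nat_lit 12121774145)) .nil)))),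
 (.br (nat_lit 7) (nat_lit 0) (.cons (.br (nat_lit 8) (nat_lit 0) (.cons (.rf (nat_lit 734) (nat_lit 11584701642934304)) (.cons (.rf (nat_lit 734) (nat_lit 11584699497547808)) (.cons (.br (nat_lit 8) (nat_lit 0) (.cons (.rf (nat_lit 734) (nat_lit 11584701642934304)) (.cons (.rf (nat_lit 734) (nat_lit 11584699497547808)) .nil))) .nil)))) (.cons (.br (nat_lit 11) (nat_lit 1) (.cons (.rf (nat_lit 737) (nat_lit 407901468851537952)) (.cons (.rf (nat_lit 738) (nat_lit 12746920866973728)) (.cons (.br (nat_lit 11) (nat_lit 1) (.cons (.rf (nat_lit 737) (nat_lit 407901468851537952)) (.cons (.rf (nat_lit 738) (nat_lit 12746920866973728)) (.cons (.rf (nat_lit 689) (nat_lit 13230152769)) .nil)))) (.cons (.rf (nat_lit 689) (nat_lit 13230152769)) .nil))))) .nil))),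
 (.br (nat_lit 4) (nat_lit 1) (.cons (.br (nat_lit 11) (nat_lit 1) (.cons (.br (nat_lit 6) (nat_lit 1) (.cons (.ev (nat_lit 1208944266358702901100544) (nat_lit 1)) (.cons (.rf (nat_lit 689) (nat_lit 13230152769)) .nil))) (.cons (.ev (nat_lit 1208925891672227507601664) (nat_lit 1)) (.cons (.rf (nat_lit 689) (nat_lit 13230152769)) .nil)))) (.cons (.ev (nat_lit 1213648258155097169658113) (nat_lit 1)) (.cons (.rf (nat_lit 689) (nat_lit 13230152769)) .nil)))),
 (.br (nat_lit 6) (nat_lit 1) (.cons (.br (nat_lit 6) (nat_lit 1) (.cons (.rf (nat_lit 740) (nat_lit 407901468851537952)) (.cons (.rf (nat_lit 706) (nat_lit 12746920901576736)) (.cons (.rf (nat_lit 689) (nat_lit 13230152769)) .nil)))) (.cons (.rf (nat_lit 740) (nat_lit 407901468851537952)) (.cons (.br (nat_lit 6) (nat_lit 1) (.cons (.rf (nat_lit 706) (nat_lit 12746920901576736)) (.cons (.rf (nat_lit 740) (nat_lit 407901468851537952)) (.cons (.rf (nat_lit 689) (nat_lit 13230152769)) .nil)))) (.cons (.rf (nat_lit 689) (nat_lit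 13230152769)) .nil))))),
 (.br (nat_lit 7) (nat_lit 0) (.cons (.rf (nat_lit 741) (nat_lit 407901468851537952)) (.cons (.kr (nat_lit 1099511693312) (nat_lit 72057594054705152) (nat_lit 2) (nat_lit 0)) (.cons (.rf (nat_lit 741) (nat_lit 407901466706151456)) .nil)))),
 (.br (nat_lit 4) (nat_lit 1) (.cons (.br (nat_lit 6) (nat_lit 1) (.cons (.zr (nat_lit 18518801667747545345) (nat_lit 1213648186097503131664384) (nat_lit 5) (nat_lit 0)) (.cons (.rf (nat_lit 689) (nat_lit 13230152769)) .nil))) (.cons (.rf (nat_lit 689) (nat_lit 13230152769)) .nil))),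
 (.br (nat_lit 11) (nat_lit 1) (.cons (.rf (nat_lit 742) (nat_lit 407901468851537952)) (.cons (.br (nat_lit 4) (nat_lit 1) (.cons (.rf (nat_lit 743) (nat_lit 407901468851537952)) (.cons (.br (nat_lit 6) (nat_lit 1) (.cons (.rf (nat_lit 743) (nat_lit 407901466706151456)) (.cons (.rf (nat_lit 689) (nat_lit 13230152769)) .nil))) (.cons (.rf (nat_lit 689) (nat_lit 13230152769)) .nil)))) (.cons (.rf (nat_lit 689) (nat_lit 13230152769)) .nil)))),
 (.br (nat_lit 11) (nat_lit 1) (.cons (.rf (nat_lit 742) (nat_lit 407901468851537952)) (.cons (.rf (nat_lit 744) (nat_lit 407901468851537952)) (.cons (.br (nat_lit 11) (nat_lit 1) (.cons (.rf (nat_lit 742) (nat_lit 407901468851537952)) (.cons (.rf (nat_lit 744) (nat_lit 407901468851537952)) (.cons (.rf (nat_lit 689) (nat_lit 13230152769)) .nil)))) (.cons (.rf (nat_lit 689) (nat_lit 13230152769)) .nil))))),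
 (.br (nat_lit 11) (nat_lit 1) (.cons (.rf (nat_lit 742) (nat_lit 407901468851537952)) (.cons (.rf (nat_lit 745) (nat_lit 407901468851537952)) (.cons (.br (nat_lit 11) (nat_lit 1) (.cons (.kr (nat_lit 4722366482869645213696) (nat_lit 309485009821345068724781056) (nat_lit 9) (nat_lit 0)) (.cons (.rf (nat_lit 745) (nat_lit 407901468851537952)) (.cons (.rf (nat_lit 689) (nat_lit 13230152769)) .nil)))) (.cons (.rf (nat_lit 689) (nat_lit 13230152769)) .nil))))),
 (.br (nat_lit 2) (nat_lit 0) (.cons (.rf (nat_lit 732) (nat_lit 10492920956290112)) (.cons (.br (nat_lit 7) (nat_lit 0) (.cons (.rf (nat_lit 739) (nat_lit 11584701642934304)) (.cons (.rf (nat_lit 739) (nat_lit 11584699497547808)) (.cons (.br (nat_lit 8) (nat_lit 0) (.cons (.rf (nat_lit 739) (nat_lit 10492920956290112)) (.cons (.rf (nat_lit 739) (nat_lit 10492918810903616)) (.cons (.rf (nat_lit 737) (nat_lit 407901468851537952)) .nil)))) .nil)))) (.cons (.rf (nat_lit 732) (nat_lit 10492918810903616)) (.cons (.br (nat_lit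 11) (nat_lit 1) (.cons (.rf (nat_lit 742) (nat_lit 407901468851537952)) (.cons (.rf (nat_lit 745) (nat_lit 407901468851537952)) (.cons (.rf (nat_lit 746) (nat_lit 407901468851537952)) (.cons (.br (nat_lit 11) (nat_lit 1) (.cons (.rf (nat_lit 742) (nat_lit 407901468851537952)) (.cons (.rf (nat_lit 745) (nat_lit 407901468851537952)) (.cons (.rf (nat_lit 746) (nat_lit 407901468851537952)) (.cons (.rf (nat_lit 689) (nat_lit 13230152769)) .nil))))) (.cons (.rf (nat_lit 689) (nat_lit 13230152769)) .nil)))))) .nil))))),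
 (.br (nat_lit 5) (nat_lit 1) (.cons (.rf (nat_lit 719) (nat_lit 11584701610428448)) (.cons (.br (nat_lit 8) (nat_lit 0) (.cons (.rf (nat_lit 723) (nat_lit 406809687026172992)) .nil)) (.cons (.ev (nat_lit 72058693566398721) (nat_lit 1)) (.cons (.rf (nat_lit 689) (nat_lit 12156410945)) .nil))))),
 (.br (nat_lit 7) (nat_lit 0) (.cons (.rf (nat_lit 732) (nat_lit 10487423398151392)) (.cons (.rf (nat_lit 732) (nat_lit 10487420211561696)) (.cons (.br (nat_lit 8) (nat_lit 0) (.cons (.rf (nat_lit 748) (nat_lit 11584701642934304)) (.cons (.rf (nat_lit 748) (nat_lit 11584701575890976)) (.cons (.br (nat_lit 8) (nat_lit 0) (.cons (.rf (nat_lit 748) (nat_lit 11584701642934304)) (.cons (.rf (nat_lit 748) (nat_lit 11584701575890976)) .nil))) .nil)))) (.cons (.br (nat_lit 6) (nat_lit 1) (.cons (.rf (nat_lit 747) (nat_lit 10492679329882176)) (.cons (.br (nat_lit 11) (nat_lit 1) (.cons (.br (nat_lit 11) (nat_lit 1) (.cons (.ev (nat_lit 1213648258436572129525761) (nat_lit 1)) (.cons (.rf (nat_lit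 689) (nat_lit 13230152769)) .nil))) (.cons (.ev (nat_lit 1213648258436572129525761) (nat_lit 1)) (.cons (.rf (nat_lit 689) (nat_lit 13230152769)) .nil)))) (.cons (.rf (nat_lit 723) (nat_lit 407901468819032096)) (.cons (.rf (nat_lit 689) (nat_lit 13230152769)) .nil))))) .nil))))),
 (.br (nat_lit 7) (nat_lit 0) (.cons (.rf (nat_lit 747) (nat_lit 11584529844247584)) (.cons (.rf (nat_lit 749) (nat_lit 11584701642934304)) (.cons (.rf (nat_lit 747) (nat_lit 11584529777204256)) (.cons (.rf (nat_lit 749) (nat_lit 11584699497547808)) (.cons (.br (nat_lit 7) (nat_lit 0) (.cons (.rf (nat_lit 747) (nat_lit 11584529844247584)) (.cons (.rf (nat_lit 749) (nat_lit 11584701642934304)) (.cons (.rf (nat_lit 747) (nat_lit 11584529777204256)) (.cons (.rf (nat_lit 749) (nat_lit 11584699497547808)) .nil))))) .nil)))))),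
 (.br (nat_lit 3) (nat_lit 1) (.cons (.rf (nat_lit 732) (nat_lit 11577002916153600)) (.cons (.ev (nat_lit 1208925891953702501154816) (nat_lit 1)) (.cons (.rf (nat_lit 689) (nat_lit 13230152769)) .nil)))),
 (.br (nat_lit 6) (nat_lit 1) (.cons (.rf (nat_lit 751) (nat_lit 407901468851537952)) (.cons (.rf (nat_lit 706) (nat_lit 12746920901576736)) (.cons (.rf (nat_lit 689) (nat_lit 13230152769)) .nil)))),
 (.br (nat_lit 3) (nat_lit 1) (.cons (.br (nat_lit 5) (nat_lit 1) (.cons (.br (nat_lit 11) (nat_lit 1) (.cons (.zr (nat_lit 18518801667747545345) (nat_lit 2417851639229266939346944) (nat_lit 5) (nat_lit 0)) (.cons (.rf (nat_lit 689) (nat_lit 13230152769)) .nil))) (.cons (.ev (nat_lit 72058693566398721) (nat_lit 1)) (.cons (.rf (nat_lit 689) (nat_lit 13230152769)) .nil)))) (.cons (.ev (nat_lit 1213648258155097169658113) (nat_lit 1)) (.cons (.rf (nat_lit 689) (nat_lit 13230152769)) .nil)))),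
 (.br (nat_lit 4) (nat_lit 1) (.cons (.ev (nat_lit 1208925819614633469739264) (nat_lit 1)) (.cons (.br (nat_lit 6) (nat_lit 1) (.cons (.ev (nat_lit 1208925891953698189345024) (nat_lit 1)) (.cons (.rf (nat_lit 689) (nat_lit 13230152769)) .nil))) (.cons (.rf (nat_lit 689) (nat_lit 13230152769)) .nil)))),
 (.br (nat_lit 11) (nat_lit 1) (.cons (.br (nat_lit 3) (nat_lit 1) (.cons (.br (nat_lit 5) (nat_lit 1) (.cons (.ev (nat_lit 1213666632842672057876481) (nat_lit 1)) (.cons (.rf (nat_lit 689) (nat_lit 13230152769)) .nil))) (.cons (.br (nat_lit 5) (nat_lit 1) (.cons (.ev (nat_lit 1213666632842672057876481) (nat_lit 1)) (.cons (.rf (nat_lit 689) (nat_lit 13230152769)) .nil))) (.cons (.rf (nat_lit 689) (nat_lit 13230152769)) .nil)))) (.cons (.rf (nat_lit 754) (nat_lit 407901468851537952)) (.cons (.rf (nat_lit 689) (nat_lit 13230152769)) .nil)))),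
 (.br (nat_lit 7) (nat_lit 0) (.cons (.rf (nat_lit 747) (nat_lit 11584529844247584)) (.cons (.br (nat_lit 2) (nat_lit 0) (.cons (.rf (nat_lit 732) (nat_lit 10492920956290112)) (.cons (.rf (nat_lit 732) (nat_lit 10492917769700416)) (.cons (.rf (nat_lit 750) (nat_lit 11584701642934304)) (.cons (.br (nat_lit 6) (nat_lit 1) (.cons (.rf (nat_lit 752) (nat_lit 407901468851537952)) (.cons (.rf (nat_lit 753) (nat_lit 407901468851537952)) (.cons (.br (nat_lit 6) (nat_lit 1) (.cons (.rf (nat_lit 706) (nat_lit 12746920901576736)) (.cons (.rf (nat_lit 753) (nat_lit 407901468851537952)) (.cons (.rf (nat_lit 689) (nat_lit 13230152769)) .nil)))) (.cons (.rf (nat_lit 689) (nat_lit 13230152769)) .nil))))) .nil))))) (.cons (.rf (nat_lit 747) (nat_lit 11584529777204256)) (.cons (.br (nat_lit 2) (nat_lit 0) (.cons (.rf (nat_lit 732) (nat_lit 10492920956290112)) (.cons (.rf (nat_lit 732) (nat_lit 10492917769700416)) (.cons (.rf (nat_lit 750) (nat_lit 11584701642934304)) (.cons (.br (nat_lit 11)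 (nat_lit 1) (.cons (.rf (nat_lit 755) (nat_lit 407901468851537952)) (.cons (.br (nat_lit 11) (nat_lit 1) (.cons (.rf (nat_lit 755) (nat_lit 407901468851537952)) (.cons (.kr (nat_lit 4722366482869645213696) (nat_lit 309485009821345068724781056) (nat_lit 9) (nat_lit 0)) (.cons (.rf (nat_lit 689) (nat_lit 13230152769)) .nil)))) (.cons (.rf (nat_lit 754) (nat_lit 407901468851537952)) (.cons (.rf (nat_lit 689) (nat_lit 13230152769)) .nil))))) .nil))))) .nil))))),
 (.br (nat_lit 2) (nat_lit 0) (.cons (.rf (nat_lit 732) (nat_lit 10492920956290112)) (.cons (.rf (nat_lit 732) (nat_lit 10492917769700416)) (.cons (.rf (nat_lit 750) (nat_lit 11584701642934304)) (.cons (.br (nat_lit 7) (nat_lit 0) (.cons (.rf (nat_lit 747) (nat_lit 11584529844247584)) (.cons (.rf (nat_lit 756) (nat_lit 407901297052851232)) (.cons (.rf (nat_lit 747) (nat_lit 11584529777204256)) (.cons (.rf (nat_lit 756) (nat_lit 407901294907464736)) (.cons (.rf (nat_lit 756) (nat_lit 407901468851537952)) .nil)))))) .nil))))),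
 (.br (nat_lit 2) (nat_lit 0) (.cons (.rf (nat_lit 747) (nat_lit 11584701642934304)) (.cons (.rf (nat_lit 757) (nat_lit 11584701642934304)) (.cons (.rf (nat_lit 747) (nat_lit 11584701575890976)) (.cons (.rf (nat_lit 757) (nat_lit 11584699497547808)) (.cons (.br (nat_lit 2) (nat_lit 0) (.cons (.rf (nat_lit 747) (nat_lit 11584701642934304)) (.cons (.rf (nat_lit 757) (nat_lit 11584701642934304)) (.cons (.rf (nat_lit 747) (nat_lit 11584701575890976)) (.cons (.rf (nat_lit 757) (nat_lit 11584699497547808)) .nil))))) .nil)))))),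
 (.br (nat_lit 6) (nat_lit 1) (.cons (.ev (nat_lit 309489750634853491351224321) (nat_lit 1)) (.cons (.kr (nat_lit 18446744078004518912) (nat_lit 72339069014638592) (nat_lit 4) (nat_lit 0)) (.cons (.rf (nat_lit 689) (nat_lit 13230152769)) .nil)))),
 (.br (nat_lit 6) (nat_lit 1) (.cons (.br (nat_lit 4) (nat_lit 1) (.cons (.rf (nat_lit 759) (nat_lit 407901468851537952)) (.cons (.ev (nat_lit 1208944266358702901100544) (nat_lit 1)) (.cons (.rf (nat_lit 689) (nat_lit 13230152769)) .nil)))) (.cons (.ev (nat_lit 4722438540463699919104) (nat_lit 1)) (.cons (.br (nat_lit 6) (nat_lit 1) (.cons (.rf (nat_lit 759) (nat_lit 406809686019507264)) (.cons (.ev (nat_lit 4722438540463699919104) (nat_lit 1)) (.cons (.rf (nat_lit 689) (nat_lit 13230152769)) .nil)))) (.cons (.rf (nat_lit 689) (nat_lit 13230152769)) .nil))))),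
 (.br (nat_lit 4) (nat_lit 1) (.cons (.ev (nat_lit 18447025552981295104) (nat_lit 1)) (.cons (.rf (nat_lit 689) (nat_lit 12121774145)) .nil))),
 (.br (nat_lit 7) (nat_lit 0) (.cons (.rf (nat_lit 760) (nat_lit 407901468851537952)) (.cons (.br (nat_lit 8) (nat_lit 0) (.cons (.rf (nat_lit 760) (nat_lit 406809688164893760)) (.cons (.br (nat_lit 4) (nat_lit 1) (.cons (.rf (nat_lit 761) (nat_lit 12746920866973728)) (.cons (.rf (nat_lit 761) (nat_lit 12712802720515136)) (.cons (.rf (nat_lit 689) (nat_lit 13230152769)) .nil)))) (.cons (.rf (nat_lit 760) (nat_lit 406809686019507264)) .nil)))) (.cons (.rf (nat_lit 760) (nat_lit 407901466706151456)) .nil)))),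
 (.br (nat_lit 5) (nat_lit 1) (.cons (.br (nat_lit 4) (nat_lit 1) (.cons (.ev (nat_lit 620183686347591503073968386) (nat_lit 2)) (.cons (.rf (nat_lit 689) (nat_lit 13230152769)) .nil))) (.cons (.rf (nat_lit 751) (nat_lit 406809687123690560)) (.cons (.rf (nat_lit 689) (nat_lit 13230152769)) .nil)))),
 (.br (nat_lit 5) (nat_lit 1) (.cons (.rf (nat_lit 763) (nat_lit 407901468851537952)) (.cons (.br (nat_lit 6) (nat_lit 1) (.cons (.ev (nat_lit 4722438541563194834944) (nat_lit 1)) (.cons (.rf (nat_lit 689) (nat_lit 13230152769)) .nil))) (.cons (.rf (nat_lit 689) (nat_lit 13230152769)) .nil)))),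
 (.br (nat_lit 5) (nat_lit 1) (.cons (.rf (nat_lit 763) (nat_lit 407901468851537952)) (.cons (.rf (nat_lit 764) (nat_lit 407901468851537952)) (.cons (.br (nat_lit 5) (nat_lit 1) (.cons (.rf (nat_lit 751) (nat_lit 406809687123690560)) (.cons (.rf (nat_lit 764) (nat_lit 407901468851537952)) (.cons (.rf (nat_lit 689) (nat_lit 13230152769)) .nil)))) (.cons (.rf (nat_lit 689) (nat_lit 13230152769)) .nil))))),
 (.br (nat_lit 3) (nat_lit 1) (.cons (.rf (nat_lit 762) (nat_lit 407901297052851232)) (.cons (.rf (nat_lit 765) (nat_lit 407901468851537952)) (.cons (.br (nat_lit 4) (nat_lit 1) (.cons (.rf (nat_lit 765) (nat_lit 406809687123690560)) (.cons (.rf (nat_lit 762) (nat_lit 406809446605529152)) (.cons (.br (nat_lit 5) (nat_lit 1) (.cons (.br (nat_lit 5) (nat_lit 1) (.cons (.ev (nat_lit 620183686347591503073968386) (nat_lit 2)) (.cons (.rf (nat_lit 689) (nat_lit 13230152769)) .nil))) (.cons (.br (nat_lit 5) (nat_lit 1) (.cons (.ev (nat_lit 620183686347591503073968386) (nat_lit 2))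 (.cons (.rf (nat_lit 689) (nat_lit 13230152769)) .nil))) (.cons (.rf (nat_lit 689) (nat_lit 13230152769)) .nil)))) (.cons (.rf (nat_lit 689) (nat_lit 13230152769)) .nil))))) (.cons (.br (nat_lit 4) (nat_lit 1) (.cons (.rf (nat_lit 765) (nat_lit 406809687123690560)) (.cons (.rf (nat_lit 762) (nat_lit 406809446605529152)) (.cons (.br (nat_lit 5) (nat_lit 1) (.cons (.rf (nat_lit 759) (nat_lit 406809446605529152)) (.cons (.br (nat_lit 5) (nat_lit 1) (.cons (.ev (nat_lit 309489750634573111608017153) (nat_lit 1)) (.cons (.rf (nat_lit 689) (nat_lit 13230152769)) .nil))) (.cons (.rf (nat_lit 689) (nat_lit 13230152769)) .nil)))) (.cons (.rf (nat_lit 689) (nat_lit 13230152769)) .nil))))) (.cons (.rf (nat_lit 689) (nat_lit 13230152769)) .nil)))))),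
 (.br (nat_lit 4) (nat_lit 1) (.cons (.ev (nat_lit 4740813228047178137856) (nat_lit 1)) (.cons (.rf (nat_lit 689) (nat_lit 13230152769)) .nil))),
 (.br (nat_lit 5) (nat_lit 1) (.cons (.br (nat_lit 8) (nat_lit 0) (.cons (.ev (nat_lit 4740813226947649798144) (nat_lit 1)) (.cons (.rf (nat_lit 732) (nat_lit 11577002849110272)) .nil))) (.cons (.br (nat_lit 4) (nat_lit 1) (.cons (.ev (nat_lit 1208925891672227507601664) (nat_lit 1)) (.cons (.rf (nat_lit 689) (nat_lit 13230152769)) .nil))) (.cons (.rf (nat_lit 689) (nat_lit 13230152769)) .nil)))),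
 (.br (nat_lit 8) (nat_lit 0) (.cons (.rf (nat_lit 732) (nat_lit 11577005061540096)) (.cons (.rf (nat_lit 732) (nat_lit 11577001874950400)) (.cons (.rf (nat_lit 758) (nat_lit 11577004020336896)) .nil)))),
 (.br (nat_lit 4) (nat_lit 1) (.cons (.rf (nat_lit 768) (nat_lit 407901468851537952)) (.cons (.rf (nat_lit 769) (nat_lit 407901468851537952)) (.cons (.br (nat_lit 6) (nat_lit 1) (.cons (.rf (nat_lit 768) (nat_lit 407901466706151456)) (.cons (.rf (nat_lit 769) (nat_lit 407901466706151456)) (.cons (.rf (nat_lit 689) (nat_lit 13230152769)) .nil)))) (.cons (.rf (nat_lit 689) (nat_lit 13230152769)) .nil))))),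
 (.br (nat_lit 8) (nat_lit 0) (.cons (.rf (nat_lit 732) (nat_lit 11577002916153600)) (.cons (.rf (nat_lit 758) (nat_lit 11577004020336896)) (.cons (.rf (nat_lit 732) (nat_lit 11577002849110272)) .nil)))),
 (.br (nat_lit 11) (nat_lit 1) (.cons (.br (nat_lit 2) (nat_lit 0) (.cons (.rf (nat_lit 762) (nat_lit 407901468851537952)) (.cons (.rf (nat_lit 766) (nat_lit 407901468851537952)) (.cons (.br (nat_lit 7) (nat_lit 0) (.cons (.rf (nat_lit 762) (nat_lit 407901297052851232)) (.cons (.rf (nat_lit 766) (nat_lit 407901297052851232)) (.cons (.br (nat_lit 8) (nat_lit 0) (.cons (.br (nat_lit 4) (nat_lit 1) (.cons (.rf (nat_lit 767) (nat_lit 407901468851537952)) (.cons (.rf (nat_lit 767) (nat_lit 406809688097850432)) (.cons (.rf (nat_lit 689) (nat_lit 13230152769)) .nil)))) (.cons (.rf (nat_lit 766) (nat_lit 406809447579689024)) (.cons (.rf (nat_lit 766) (nat_lit 406809445434302528)) .nil)))) (.cons (.rf (nat_lit 766) (nat_lit 407901294907464736)) .nil))))) (.cons (.rf (nat_lit 766) (nat_lit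 407901466706151456)) .nil))))) (.cons (.br (nat_lit 3) (nat_lit 1) (.cons (.rf (nat_lit 770) (nat_lit 407901468851537952)) (.cons (.rf (nat_lit 770) (nat_lit 407901297052851232)) (.cons (.rf (nat_lit 769) (nat_lit 407901467810334752)) (.cons (.ev (nat_lit 310693935640959697899487489) (nat_lit 1)) (.cons (.rf (nat_lit 689) (nat_lit 13230152769)) .nil)))))) (.cons (.br (nat_lit 8) (nat_lit 0) (.cons (.rf (nat_lit 771) (nat_lit 407901465664948256)) (.cons (.rf (nat_lit 771) (nat_lit 407901466706151456)) (.cons (.rf (nat_lit 771) (nat_lit 407901467810334752)) (.cons (.rf (nat_lit 771) (nat_lit 407901468851537952)) .nil))))) (.cons (.rf (nat_lit 689) (nat_lit 13230152769)) .nil)))))]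

theorem c20 : chkAll C T R L20 (nat_lit 735) = true := by decide +kernel

theorem l20 : (nat_lit 735) + L20.length = (nat_lit 773) := by decide +kernel

/-- part of the certificates -/
def L21 : List Prf := [(.br (nat_lit 2) (nat_lit 0) (.cons (.rf (nat_lit 772) (nat_lit 406809688164893760)) (.cons (.rf (nat_lit 772) (nat_lit 406809687123690560)) (.cons (.rf (nat_lit 772) (nat_lit 406809688097850432)) (.cons (.rf (nat_lit 772) (nat_lit 406809687056647232)) .nil))))),
 (.br (nat_lit 7) (nat_lit 0) (.cons (.rf (nat_lit 758) (nat_lit 10487423398151392)) (.cons (.rf (nat_lit 732) (nat_lit 10487420211561696)) (.cons (.rf (nat_lit 732) (nat_lit 10487421185721568)) (.cons (.kr (nat_lit 4722366482869645213696) (nat_lit 309485009821345068724781056) (nat_lit 9) (nat_lit 0)) .nil))))),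
 (.br (nat_lit 11) (nat_lit 1) (.cons (.rf (nat_lit 773) (nat_lit 406809688164893760)) (.cons (.rf (nat_lit 773) (nat_lit 407901468851537952)) (.cons (.br (nat_lit 4) (nat_lit 1) (.cons (.br (nat_lit 5) (nat_lit 1) (.cons (.rf (nat_lit 774) (nat_lit 407901468851537952)) (.cons (.rf (nat_lit 774) (nat_lit 406809688164893760)) (.cons (.rf (nat_lit 689) (nat_lit 13230152769)) .nil)))) (.cons (.rf (nat_lit 774) (nat_lit 407901467743291424)) (.cons (.rf (nat_lit 774) (nat_lit 406809687056647232)) (.cons (.rf (nat_lit 689) (nat_lit 13230152769)) .nil))))) (.cons (.rf (nat_lit 689) (nat_lit 13230152769)) .nil))))),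
 (.br (nat_lit 2) (nat_lit 0) (.cons (.rf (nat_lit 775) (nat_lit 406809688164893760)) (.cons (.rf (nat_lit 775) (nat_lit 406809687123690560)) (.cons (.rf (nat_lit 775) (nat_lit 406809688097850432)) (.cons (.rf (nat_lit 775) (nat_lit 406809687056647232)) .nil))))),
 (.br (nat_lit 11) (nat_lit 1) (.cons (.rf (nat_lit 773) (nat_lit 406809688164893760)) (.cons (.rf (nat_lit 773) (nat_lit 407901468851537952)) (.cons (.rf (nat_lit 776) (nat_lit 406809688164893760)) (.cons (.rf (nat_lit 776) (nat_lit 407901468851537952)) (.cons (.rf (nat_lit 689) (nat_lit 13230152769)) .nil)))))),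
 (.br (nat_lit 11) (nat_lit 1) (.cons (.rf (nat_lit 777) (nat_lit 407901468851537952)) (.cons (.rf (nat_lit 777) (nat_lit 407901297052851232)) (.cons (.br (nat_lit 11) (nat_lit 1) (.cons (.rf (nat_lit 777) (nat_lit 407901468851537952)) (.cons (.rf (nat_lit 777) (nat_lit 407901297052851232)) (.cons (.kr (nat_lit 1208925819614629174706176) (nat_lit 309485009821345068724781056) (nat_lit 10) (nat_lit 0)) (.cons (.rf (nat_lit 689) (nat_lit 13230152769)) .nil))))) (.cons (.br (nat_lit 11) (nat_lit 1) (.cons (.rf (nat_lit 777) (nat_lit 407901468851537952)) (.cons (.rf (nat_lit 777) (nat_lit 407901297052851232)) (.cons (.kr (nat_lit 1208925819614629174706176) (nat_lit 309485009821345068724781056) (nat_lit 10) (nat_lit 0)) (.cons (.rf (nat_lit 689) (nat_lit 13230152769)) .nil))))) (.cons (.rf (nat_lit 689) (nat_lit 13230152769)) .nil)))))),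
 (.br (nat_lit 11) (nat_lit 1) (.cons (.rf (nat_lit 777) (nat_lit 407901468851537952)) (.cons (.rf (nat_lit 777) (nat_lit 407901297052851232)) (.cons (.rf (nat_lit 778) (nat_lit 407901468851537952)) (.cons (.br (nat_lit 8) (nat_lit 0) (.cons (.rf (nat_lit 774) (nat_lit 406809688097850432)) (.cons (.rf (nat_lit 774) (nat_lit 406809687056647232)) (.cons (.rf (nat_lit 774) (nat_lit 406809688164893760)) (.cons (.rf (nat_lit 774) (nat_lit 406809687123690560)) (.cons (.kr (nat_lit 1208925819614629174706176) (nat_lit 309485009821345068724781056) (nat_lit 10) (nat_lit 0)) .nil)))))) (.cons (.rf (nat_lit 689) (nat_lit 13230152769)) .nil)))))),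
 (.br (nat_lit 10) (nat_lit 0) (.cons (.br (nat_lit 11) (nat_lit 0) (.cons (.br (nat_lit 12) (nat_lit 0) (.cons (.ev (nat_lit 20361637766165934762640323706881) (nat_lit 1)) .nil)) .nil)) .nil)),
 (.br (nat_lit 11) (nat_lit 0) (.cons (.br (nat_lit 12) (nat_lit 0) (.cons (.kr (nat_lit 79228167255077564536898715904) (nat_lit 310693935713017291937480704) (nat_lit 1) (nat_lit 0)) .nil)) .nil)),
 (.br (nat_lit 12) (nat_lit 0) (.cons (.kr (nat_lit 79228167255077564536898715904) (nat_lit 310693935713017291937480704) (nat_lit 1) (nat_lit 0)) .nil)),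
 (.br (nat_lit 7) (nat_lit 0) (.cons (.br (nat_lit 9) (nat_lit 0) (.cons (.br (nat_lit 12) (nat_lit 0) (.cons (.zr (nat_lit 14222439680830064296704) (nat_lit 237684487542793295359431933953) (nat_lit 5) (nat_lit 0)) .nil)) .nil)) (.cons (.br (nat_lit 9) (nat_lit 0) (.cons (.rf (nat_lit 780) (nat_lit 493858305440582043680)) (.cons (.br (nat_lit 10) (nat_lit 0) (.cons (.rf (nat_lit 781) (nat_lit 493858305440582043680)) (.cons (.br (nat_lit 11) (nat_lit 0) (.cons (.rf (nat_lit 782) (nat_lit 493858305440582043680)) (.cons (.ev (nat_lit 20282719093383930309483954241536) (nat_lit 1)) .nil))) .nil))) .nil))) .nil))),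
 (.br (nat_lit 9) (nat_lit 0) (.cons (.ev (nat_lit 1103806660609) (nat_lit 1)) (.cons (.br (nat_lit 7) (nat_lit 0) (.cons (.br (nat_lit 12) (nat_lit 0) (.cons (.zr (nat_lit 14222439680830064296704) (nat_lit 237684487542793295359431933953) (nat_lit 5) (nat_lit 0)) .nil)) (.cons (.br (nat_lit 10) (nat_lit 0) (.cons (.kr (nat_lit 4722366483969156841728) (nat_lit 1208925891672223229411328) (nat_lit 1) (nat_lit 0)) (.cons (.br (nat_lit 5) (nat_lit 1) (.cons (.zr (nat_lit 2417851639229271234445568) (nat_lit 618970019786806425053822977) (nat_lit 5) (nat_lit 3)) (.cons (.ev (nat_lit 1208944338698875705557248) (nat_lit 1)) .nil))) .nil))) .nil))) .nil))),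
 (.br (nat_lit 12) (nat_lit 0) (.cons (.zr (nat_lit 40564819207303340850093542605568) (nat_lit 618970019642971616721371137) (nat_lit 5) (nat_lit 4)) .nil)),
 (.br (nat_lit 10) (nat_lit 0) (.cons (.br (nat_lit 11) (nat_lit 0) (.cons (.br (nat_lit 12) (nat_lit 0) (.cons (.zr (nat_lit 928469196780219547177190144) (nat_lit 20678550416222992113031679311873) (nat_lit 5) (nat_lit 0)) .nil)) .nil)) (.cons (.br (nat_lit 6) (nat_lit 1) (.cons (.rf (nat_lit 785) (nat_lit 493858305440582043680)) (.cons (.rf (nat_lit 353) (nat_lit 492741412732994160672)) .nil))) .nil))),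
 (.br (nat_lit 6) (nat_lit 1) (.cons (.zr (nat_lit 40564819207303341410848750961408) (nat_lit 618970019786806425053822977) (nat_lit 5) (nat_lit 3)) .nil)),
 (.br (nat_lit 6) (nat_lit 1) (.cons (.zr (nat_lit 40564819207303340850093542605568) (nat_lit 618970019642971616721371137) (nat_lit 5) (nat_lit 4)) .nil)),
 (.br (nat_lit 11) (nat_lit 0) (.cons (.br (nat_lit 12) (nat_lit 0) (.cons (.kr (nat_lit 79228167255077564536898715904) (nat_lit 310693935713017291937480704) (nat_lit 1) (nat_lit 0)) .nil)) .nil)),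
 (.br (nat_lit 12) (nat_lit 0) (.cons (.kr (nat_lit 79228167255077564536898715904) (nat_lit 310693935713017291937480704) (nat_lit 1) (nat_lit 0)) .nil)),
 (.br (nat_lit 11) (nat_lit 0) (.cons (.kr (nat_lit 79228167255077564536898715904) (nat_lit 310693935713017291937480704) (nat_lit 1) (nat_lit 0)) .nil)),
 (.br (nat_lit 11) (nat_lit 0) (.cons (.br (nat_lit 12) (nat_lit 0) (.cons (.kr (nat_lit 79228167255077564536898715904) (nat_lit 310693935713017291937480704) (nat_lit 1) (nat_lit 0)) .nil)) .nil)),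
 (.br (nat_lit 12) (nat_lit 0) (.cons (.zr (nat_lit 40564819207303341410848750961408) (nat_lit 618970019786806425053822977) (nat_lit 5) (nat_lit 3)) .nil)),
 (.br (nat_lit 6) (nat_lit 1) (.cons (.rf (nat_lit 793) (nat_lit 493858305440582043680)) (.cons (.rf (nat_lit 793) (nat_lit 491554714231182034976)) .nil))),
 (.br (nat_lit 11) (nat_lit 0) (.cons (.rf (nat_lit 360) (nat_lit 493823402543469922336)) .nil)),
 (.br (nat_lit 10) (nat_lit 0) (.cons (.br (nat_lit 12) (nat_lit 0) (.cons (.kr (nat_lit 79228167255077564536898715904) (nat_lit 310693935713017291937480704) (nat_lit 1) (nat_lit 0)) .nil)) .nil)),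
 (.br (nat_lit 11) (nat_lit 0) (.cons (.kr (nat_lit 79228167255077564536898715904) (nat_lit 310693935713017291937480704) (nat_lit 1) (nat_lit 0)) .nil)),
 (.br (nat_lit 10) (nat_lit 0) (.cons (.kr (nat_lit 79228167255077564536898715904) (nat_lit 310693935713017291937480704) (nat_lit 1) (nat_lit 0)) .nil)),
 (.br (nat_lit 11) (nat_lit 0) (.cons (.br (nat_lit 6) (nat_lit 1) (.cons (.ev (nat_lit 20361637766166007100614104842241) (nat_lit 1)) .nil)) .nil)),
 (.br (nat_lit 11) (nat_lit 0) (.cons (.zr (nat_lit 3626777675017769183084544) (nat_lit 20440865928717092868761029967873) (nat_lit 5) (nat_lit 4)) .nil)),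
 (.br (nat_lit 10) (nat_lit 0) (.cons (.zr (nat_lit 40564819207303341410848750961408) (nat_lit 618970019786806425053822977) (nat_lit 5) (nat_lit 3)) .nil)),
 (.br (nat_lit 6) (nat_lit 1) (.cons (.rf (nat_lit 801) (nat_lit 491554714231182034976)) (.cons (.rf (nat_lit 801) (nat_lit 493858305440582043680)) .nil))),
 (.br (nat_lit 6) (nat_lit 1) (.cons (.kr (nat_lit 4722366764344621924608) (nat_lit 1208925819614633469739008) (nat_lit 1) (nat_lit 0)) (.cons (.ev (nat_lit 1213648258436572129525761) (nat_lit 1)) (.cons (.kr (nat_lit 20282409603651670705422227996928) (nat_lit 1208925819614633469739008) (nat_lit 1) (nat_lit 0)) .nil)))),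
 (.br (nat_lit 8) (nat_lit 0) (.cons (.br (nat_lit 2) (nat_lit 0) (.cons (.rf (nat_lit 783) (nat_lit 14242959524133701664)) (.cons (.rf (nat_lit 784) (nat_lit 14242959524133701664)) (.cons (.br (nat_lit 7) (nat_lit 0) (.cons (.rf (nat_lit 784) (nat_lit 14242959351293811744)) (.cons (.rf (nat_lit 783) (nat_lit 14242959351293811744)) (.cons (.br (nat_lit 9) (nat_lit 0) (.cons (.rf (nat_lit 786) (nat_lit 493858305440582043680)) (.cons (.rf (nat_lit 786) (nat_lit 493858305267742153760)) (.cons (.br (nat_lit 10) (nat_lit 0) (.cons (.kr (nat_lit 4722366483969156841728) (nat_lit 1208925891672223229411328) (nat_lit 1) (nat_lit 0)) (.cons (.kr (nat_lit 4722366764344621924608) (nat_lit 1208925819614633469739008) (nat_lit 1) (nat_lit 0)) (.cons (.br (nat_lit 5) (nat_lit 1) (.cons (.rf (nat_lit 787) (nat_lit 493858305440582043680)) (.cons (.rf (nat_lit 788) (nat_lit 493858305440582043680)) .nil))) .nil)))) .nil)))) .nil)))) .nil)))) (.cons (.br (nat_lit 2) (nat_lit 0) (.cons (.br (nat_lit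 7) (nat_lit 0) (.cons (.br (nat_lit 11) (nat_lit 0) (.cons (.ev (nat_lit 282574488338689) (nat_lit 1)) (.cons (.br (nat_lit 9) (nat_lit 0) (.cons (.br (nat_lit 13) (nat_lit 1) (.cons (.zr (nat_lit 23704066134716773827840) (nat_lit 622596797245931791849750529) (nat_lit 5) (nat_lit 0)) (.cons (.zr (nat_lit 309494491519856549472305664) (nat_lit 237684487542793295359431933953) (nat_lit 5) (nat_lit 0)) .nil))) (.cons (.br (nat_lit 13) (nat_lit 1) (.cons (.zr (nat_lit 55484347409204577025) (nat_lit 60847228810955011272954167164928) (nat_lit 10) (nat_lit 0)) (.cons (.ev (nat_lit 20282409608374108964415246237953) (nat_lit 1)) .nil))) .nil))) .nil))) (.cons (.br (nat_lit 9) (nat_lit 0) (.cons (.br (nat_lit 10) (nat_lit 0) (.cons (.rf (nat_lit 789) (nat_lit 493858305440582043680)) (.cons (.br (nat_lit 11) (nat_lit 0) (.cons (.rf (nat_lit 790) (nat_lit 493858305440582043680)) (.cons (.ev (nat_lit 20282409603670117168025255805184) (nat_lit 1)) .nil))) .nil))) (.cons (.br (nat_lit 10) (nat_lit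 0) (.cons (.br (nat_lit 6) (nat_lit 1) (.cons (.ev (nat_lit 1213648258436572129525761) (nat_lit 1)) (.cons (.rf (nat_lit 791) (nat_lit 493858305440582043680)) .nil))) (.cons (.br (nat_lit 11) (nat_lit 0) (.cons (.br (nat_lit 6) (nat_lit 1) (.cons (.zr (nat_lit 13298184448950923098980355) (nat_lit 40566057194658524784930982988288) (nat_lit 10) (nat_lit 3)) .nil)) .nil)) .nil))) .nil))) .nil))) (.cons (.br (nat_lit 9) (nat_lit 0) (.cons (.ev (nat_lit 1103806660609) (nat_lit 1)) (.cons (.br (nat_lit 7) (nat_lit 0) (.cons (.br (nat_lit 10) (nat_lit 0) (.cons (.br (nat_lit 13) (nat_lit 1) (.cons (.zr (nat_lit 2417851639229275529478144) (nat_lit 618970019787087900030533633) (nat_lit 5) (nat_lit 3)) (.cons (.zr (nat_lit 14222439680830064296704) (nat_lit 158457533954348572395062689793) (nat_lit 5) (nat_lit 0)) .nil))) .nil)) (.cons (.br (nat_lit 10) (nat_lit 0) (.cons (.rf (nat_lit 792) (nat_lit 493858305440582043680)) (.cons (.br (nat_lit 11) (nat_lit 0) (.cons (.zr (nat_lit 2417851639229271234445568)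 (nat_lit 618970019786806425053822977) (nat_lit 5) (nat_lit 3)) (.cons (.ev (nat_lit 20282409603670117168025255805184) (nat_lit 1)) .nil))) .nil))) .nil))) (.cons (.br (nat_lit 7) (nat_lit 0) (.cons (.br (nat_lit 11) (nat_lit 0) (.cons (.ev (nat_lit 282574488338689) (nat_lit 1)) (.cons (.br (nat_lit 12) (nat_lit 0) (.cons (.br (nat_lit 10) (nat_lit 0) (.cons (.zr (nat_lit 3626777458843904704184320) (nat_lit 20283028573671457511847281819649) (nat_lit 5) (nat_lit 3)) .nil)) (.cons (.ev (nat_lit 20282409608374108964415246237953) (nat_lit 1)) .nil))) .nil))) (.cons (.br (nat_lit 10) (nat_lit 0) (.cons (.br (nat_lit 11) (nat_lit 0) (.cons (.br (nat_lit 12) (nat_lit 0) (.cons (.zr (nat_lit 14167099450807975674624) (nat_lit 20283028573671313395563972657153) (nat_lit 5) (nat_lit 4)) .nil)) .nil)) (.cons (.rf (nat_lit 324) (nat_lit 493858305267742153760)) .nil))) (.cons (.br (nat_lit 5) (nat_lit 1) (.cons (.kr (nat_lit 4722366483969156841728) (nat_lit 1208925891672223229411328) (nat_lit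 1) (nat_lit 0)) (.cons (.rf (nat_lit 794) (nat_lit 493858305440582043680)) (.cons (.br (nat_lit 6) (nat_lit 1) (.cons (.br (nat_lit 11) (nat_lit 0) (.cons (.ev (nat_lit 121775239287214614034421578663684) (nat_lit 3)) .nil)) (.cons (.br (nat_lit 10) (nat_lit 0) (.cons (.ev (nat_lit 1218426037773306406371331) (nat_lit 2)) .nil)) .nil))) .nil)))) .nil)))) .nil)))) (.cons (.br (nat_lit 7) (nat_lit 0) (.cons (.br (nat_lit 9) (nat_lit 0) (.cons (.br (nat_lit 6) (nat_lit 1) (.cons (.rf (nat_lit 789) (nat_lit 493858305268782341152)) (.cons (.br (nat_lit 13) (nat_lit 1) (.cons (.zr (nat_lit 2417851855402040513527808) (nat_lit 309489750634853491351289857) (nat_lit 5) (nat_lit 4)) (.cons (.zr (nat_lit 618974760527974674842386944) (nat_lit 237684487542793294259937083393) (nat_lit 5) (nat_lit 0)) .nil))) (.cons (.ev (nat_lit 79228162532783421835796611328) (nat_lit 1)) .nil)))) (.cons (.br (nat_lit 10) (nat_lit 0) (.cons (.br (nat_lit 12) (nat_lit 0) (.cons (.rf (nat_lit 791) (nat_lit 493858305268782341152))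 (.cons (.ev (nat_lit 20361638979814120860143421816833) (nat_lit 1)) .nil))) (.cons (.br (nat_lit 11) (nat_lit 0) (.cons (.br (nat_lit 6) (nat_lit 1) (.cons (.zr (nat_lit 3626777675016669705011200) (nat_lit 20283028573671313396663484284929) (nat_lit 5) (nat_lit 4)) .nil)) .nil)) .nil))) .nil))) (.cons (.br (nat_lit 9) (nat_lit 0) (.cons (.br (nat_lit 10) (nat_lit 0) (.cons (.rf (nat_lit 795) (nat_lit 493858305440582043680)) (.cons (.br (nat_lit 6) (nat_lit 1) (.cons (.rf (nat_lit 795) (nat_lit 493823402543469922336)) (.cons (.br (nat_lit 11) (nat_lit 0) (.cons (.ev (nat_lit 82024422342159092830070443266) (nat_lit 4)) .nil)) .nil))) .nil))) (.cons (.br (nat_lit 5) (nat_lit 1) (.cons (.kr (nat_lit 4722366483969156841728) (nat_lit 1208925891672223229411328) (nat_lit 1) (nat_lit 0)) (.cons (.rf (nat_lit 796) (nat_lit 493858305440582043680)) (.cons (.ev (nat_lit 79228162532783421835796611328) (nat_lit 1)) .nil)))) (.cons (.br (nat_lit 5) (nat_lit 1) (.cons (.br (nat_lit 6) (nat_lit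 1) (.cons (.br (nat_lit 12) (nat_lit 0) (.cons (.zr (nat_lit 14167099450807975674624) (nat_lit 20283028573671313395563972657153) (nat_lit 5) (nat_lit 4)) .nil)) (.cons (.rf (nat_lit 797) (nat_lit 493858305440582043680)) .nil))) (.cons (.br (nat_lit 6) (nat_lit 1) (.cons (.br (nat_lit 12) (nat_lit 0) (.cons (.ev (nat_lit 80779247452952824438197649668) (nat_lit 3)) .nil)) (.cons (.rf (nat_lit 798) (nat_lit 493858305440582043680)) .nil))) (.cons (.br (nat_lit 11) (nat_lit 0) (.cons (.br (nat_lit 10) (nat_lit 0) (.cons (.ev (nat_lit 40645600853718755759032004445956) (nat_lit 3)) .nil)) (.cons (.ev (nat_lit 20361947251212793712156923134211) (nat_lit 2)) .nil))) .nil)))) .nil)))) (.cons (.br (nat_lit 9) (nat_lit 0) (.cons (.br (nat_lit 10) (nat_lit 0) (.cons (.br (nat_lit 6) (nat_lit 1) (.cons (.br (nat_lit 12) (nat_lit 0) (.cons (.ev (nat_lit 40644360486456740479717183915780) (nat_lit 3)) .nil)) (.cons (.rf (nat_lit 357) (nat_lit 492741412732994160672)) .nil))) (.cons (.rf (nat_lit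 799) (nat_lit 493858305440582043680)) .nil))) (.cons (.br (nat_lit 5) (nat_lit 1) (.cons (.br (nat_lit 6) (nat_lit 1) (.cons (.br (nat_lit 12) (nat_lit 0) (.cons (.zr (nat_lit 3626777675016669705011200) (nat_lit 20283028573671313396663484284929) (nat_lit 5) (nat_lit 4)) .nil)) (.cons (.rf (nat_lit 800) (nat_lit 493858305440582043680)) .nil))) (.cons (.rf (nat_lit 802) (nat_lit 493858305440582043680)) (.cons (.br (nat_lit 11) (nat_lit 0) (.cons (.br (nat_lit 10) (nat_lit 0) (.cons (.ev (nat_lit 80160267951972471532631163648) (nat_lit 3)) .nil)) (.cons (.ev (nat_lit 20441484903422424448234967663360) (nat_lit 2)) .nil))) .nil)))) (.cons (.br (nat_lit 10) (nat_lit 0) (.cons (.kr (nat_lit 4722366483969156841728) (nat_lit 1208925891672223229411328) (nat_lit 1) (nat_lit 0)) (.cons (.rf (nat_lit 803) (nat_lit 493858305440582043680)) .nil))) .nil)))) .nil)))) .nil)))) .nil)))]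

theorem c21 : chkAll C T R L21 (nat_lit 773) = true := by decide +kernel

theorem l21 : (nat_lit 773) + L21.length = (nat_lit 805) := by decide +kernel

/-- part of the certificates -/
def L22 : List Prf := [(.br (nat_lit 8) (nat_lit 0) (.cons (.rf (nat_lit 804) (nat_lit 14242959524133701664)) (.cons (.rf (nat_lit 804) (nat_lit 14242959351293811744)) (.cons (.br (nat_lit 8) (nat_lit 0) (.cons (.rf (nat_lit 804) (nat_lit 14242959524133701664)) (.cons (.rf (nat_lit 804) (nat_lit 14242959351293811744)) .nil))) .nil)))),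
 (.br (nat_lit 12) (nat_lit 0) (.cons (.ev (nat_lit 20282410812577490039680232652801) (nat_lit 1)) .nil)),
 (.br (nat_lit 5) (nat_lit 1) (.cons (.rf (nat_lit 806) (nat_lit 493858305440582043680)) (.cons (.rf (nat_lit 806) (nat_lit 492741412732994160672)) .nil))),
 (.br (nat_lit 12) (nat_lit 0) (.cons (.kr (nat_lit 40644047369817677243082084450560) (nat_lit 310698676454186641254318080) (nat_lit 1) (nat_lit 0)) .nil)),
 (.br (nat_lit 2) (nat_lit 0) (.cons (.br (nat_lit 8) (nat_lit 0) (.cons (.br (nat_lit 9) (nat_lit 0) (.cons (.br (nat_lit 10) (nat_lit 0) (.cons (.ev (nat_lit 1213666632841576841281793) (nat_lit 1)) .nil)) .nil)) (.cons (.br (nat_lit 9) (nat_lit 0) (.cons (.rf (nat_lit 780) (nat_lit 493858304375430154272)) (.cons (.br (nat_lit 6) (nat_lit 1) (.cons (.ev (nat_lit 1213666632841576841281793) (nat_lit 1)) (.cons (.ev (nat_lit 309489750706630705645879553) (nat_lit 1)) (.cons (.br (nat_lit 10) (nat_lit 0) (.cons (.br (nat_lit 11) (nat_lit 0) (.cons (.ev (nat_lit 121776477199067994476478785587970)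 (nat_lit 4)) .nil)) .nil)) .nil)))) .nil))) .nil))) (.cons (.br (nat_lit 9) (nat_lit 0) (.cons (.ev (nat_lit 1103806660609) (nat_lit 1)) (.cons (.br (nat_lit 8) (nat_lit 0) (.cons (.br (nat_lit 10) (nat_lit 0) (.cons (.ev (nat_lit 1213666632841576841281793) (nat_lit 1)) .nil)) (.cons (.br (nat_lit 10) (nat_lit 0) (.cons (.ev (nat_lit 1213666632841576841281793) (nat_lit 1)) (.cons (.rf (nat_lit 807) (nat_lit 493858305440582043680)) .nil))) .nil))) .nil))) (.cons (.br (nat_lit 8) (nat_lit 0) (.cons (.br (nat_lit 10) (nat_lit 0) (.cons (.ev (nat_lit 18447025548703039489) (nat_lit 1)) (.cons (.br (nat_lit 6) (nat_lit 1) (.cons (.ev (nat_lit 1213666632841576841281793) (nat_lit 1)) (.cons (.kr (nat_lit 309485009821346168236474368) (nat_lit 1208925891672223229411328) (nat_lit 2) (nat_lit 0)) (.cons (.ev (nat_lit 79229371440083953326525317121) (nat_lit 1)) .nil)))) .nil))) (.cons (.br (nat_lit 10) (nat_lit 0) (.cons (.rf (nat_lit 780) (nat_lit 493857213452695773216)) (.cons (.br (nat_lit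 9) (nat_lit 0) (.cons (.ev (nat_lit 1213666632841576841281793) (nat_lit 1)) (.cons (.br (nat_lit 5) (nat_lit 1) (.cons (.br (nat_lit 12) (nat_lit 0) (.cons (.zr (nat_lit 311907602417916458504880640) (nat_lit 316912650057057632952975884289) (nat_lit 5) (nat_lit 0)) .nil)) (.cons (.br (nat_lit 11) (nat_lit 0) (.cons (.ev (nat_lit 80776810675097164833494597890) (nat_lit 3)) .nil)) .nil))) .nil))) .nil))) (.cons (.br (nat_lit 9) (nat_lit 0) (.cons (.br (nat_lit 10) (nat_lit 0) (.cons (.ev (nat_lit 1213666632841576841281793) (nat_lit 1)) (.cons (.br (nat_lit 11) (nat_lit 0) (.cons (.zr (nat_lit 1213666632842672074654208) (nat_lit 618970019642971616721371137) (nat_lit 5) (nat_lit 4)) (.cons (.ev (nat_lit 40564820430414850773692983542016) (nat_lit 2)) .nil))) .nil))) (.cons (.br (nat_lit 10) (nat_lit 0) (.cons (.ev (nat_lit 1213666632841576841281793) (nat_lit 1)) (.cons (.br (nat_lit 5) (nat_lit 1) (.cons (.rf (nat_lit 808) (nat_lit 493858305440582043680)) (.cons (.rf (nat_lit 353)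 (nat_lit 492741411460642644000)) .nil))) .nil))) (.cons (.br (nat_lit 5) (nat_lit 1) (.cons (.br (nat_lit 12) (nat_lit 0) (.cons (.rf (nat_lit 353) (nat_lit 492740320952307517472)) (.cons (.rf (nat_lit 788) (nat_lit 491554713166030145568)) .nil))) (.cons (.br (nat_lit 10) (nat_lit 0) (.cons (.br (nat_lit 12) (nat_lit 0) (.cons (.ev (nat_lit 121775233228418417920037290640388) (nat_lit 3)) .nil)) (.cons (.ev (nat_lit 20282720297605758127723155357696) (nat_lit 1)) .nil))) (.cons (.br (nat_lit 10) (nat_lit 0) (.cons (.br (nat_lit 11) (nat_lit 0) (.cons (.ev (nat_lit 40564820449322764853325867582722) (nat_lit 3)) .nil)) (.cons (.rf (nat_lit 788) (nat_lit 493858304375430154272)) .nil))) .nil)))) .nil)))) .nil)))) .nil)))),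
 (.br (nat_lit 11) (nat_lit 0) (.cons (.br (nat_lit 12) (nat_lit 0) (.cons (.kr (nat_lit 79228167255077564536898715904) (nat_lit 310693935713017291937480704) (nat_lit 1) (nat_lit 0)) .nil)) .nil)),
 (.br (nat_lit 11) (nat_lit 0) (.cons (.br (nat_lit 12) (nat_lit 0) (.cons (.kr (nat_lit 79228167255077564536898715904) (nat_lit 310693935713017291937480704) (nat_lit 1) (nat_lit 0)) .nil)) .nil)),
 (.br (nat_lit 11) (nat_lit 0) (.cons (.kr (nat_lit 79228167255077564536898715904) (nat_lit 310693935713017291937480704) (nat_lit 1) (nat_lit 0)) .nil)),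
 (.br (nat_lit 10) (nat_lit 0) (.cons (.kr (nat_lit 79228167255077564536898715904) (nat_lit 310693935713017291937480704) (nat_lit 1) (nat_lit 0)) .nil)),
 (.br (nat_lit 8) (nat_lit 0) (.cons (.rf (nat_lit 809) (nat_lit 14242959524133701664)) (.cons (.br (nat_lit 2) (nat_lit 0) (.cons (.br (nat_lit 9) (nat_lit 0) (.cons (.br (nat_lit 12) (nat_lit 0) (.cons (.zr (nat_lit 14222439680830064296704) (nat_lit 237684487542793295359431933953) (nat_lit 5) (nat_lit 0)) .nil)) .nil)) (.cons (.br (nat_lit 9) (nat_lit 0) (.cons (.br (nat_lit 12) (nat_lit 0) (.cons (.ev (nat_lit 79228167255077564541210525953) (nat_lit 1)) .nil)) (.cons (.br (nat_lit 10) (nat_lit 0) (.cons (.rf (nat_lit 810) (nat_lit 493858305440582043680)) (.cons (.br (nat_lit 4) (nat_lit 1) (.cons (.zr (nat_lit 618970019643816037356536064) (nat_lit 2417851783345550248640513) (nat_lit 5) (nat_lit 3)) (.cons (.ev (nat_lit 79229376162450436196187242496) (nat_lit 1)) .nil))) .nil))) .nil))) .nil))) (.cons (.br (nat_lit 2) (nat_lit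 0) (.cons (.br (nat_lit 9) (nat_lit 0) (.cons (.br (nat_lit 10) (nat_lit 0) (.cons (.br (nat_lit 13) (nat_lit 1) (.cons (.zr (nat_lit 928455029464039604221050880) (nat_lit 3626777603240554888429569) (nat_lit 5) (nat_lit 4)) (.cons (.zr (nat_lit 14222439680830064296704) (nat_lit 158457533954348572395062689793) (nat_lit 5) (nat_lit 0)) .nil))) .nil)) (.cons (.br (nat_lit 10) (nat_lit 0) (.cons (.br (nat_lit 13) (nat_lit 1) (.cons (.ev (nat_lit 310693954160043940135370753) (nat_lit 1)) (.cons (.ev (nat_lit 79228167236631103037677502721) (nat_lit 1)) .nil))) (.cons (.br (nat_lit 12) (nat_lit 0) (.cons (.br (nat_lit 11) (nat_lit 0) (.cons (.zr (nat_lit 928455029464039604221050880) (nat_lit 20282412021503454049872965009409) (nat_lit 5) (nat_lit 4)) .nil)) (.cons (.ev (nat_lit 20361637766166006819139144974593) (nat_lit 1)) .nil))) .nil))) .nil))) (.cons (.br (nat_lit 9) (nat_lit 0) (.cons (.ev (nat_lit 1103806660609) (nat_lit 1)) (.cons (.br (nat_lit 10) (nat_lit 0) (.cons (.br (nat_lit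 11) (nat_lit 0) (.cons (.br (nat_lit 12) (nat_lit 0) (.cons (.ev (nat_lit 20282719088661563826614325739521) (nat_lit 1)) .nil)) .nil)) (.cons (.rf (nat_lit 807) (nat_lit 493858305231169980640)) .nil))) .nil))) (.cons (.br (nat_lit 9) (nat_lit 0) (.cons (.br (nat_lit 12) (nat_lit 0) (.cons (.ev (nat_lit 79228167255077564541210525953) (nat_lit 1)) (.cons (.br (nat_lit 6) (nat_lit 1) (.cons (.ev (nat_lit 79230585143754961180224913666) (nat_lit 2)) (.cons (.zr (nat_lit 618974760527974674842386944) (nat_lit 237684487542793294259937083393) (nat_lit 5) (nat_lit 0)) .nil))) .nil))) (.cons (.br (nat_lit 10) (nat_lit 0) (.cons (.rf (nat_lit 811) (nat_lit 493858305440582043680)) (.cons (.br (nat_lit 4) (nat_lit 1) (.cons (.zr (nat_lit 928455029464039604221050880) (nat_lit 2422592524795275030560769) (nat_lit 5) (nat_lit 4)) (.cons (.ev (nat_lit 1208944266358707179225344) (nat_lit 1)) .nil))) .nil))) (.cons (.br (nat_lit 4) (nat_lit 1) (.cons (.br (nat_lit 12) (nat_lit 0) (.cons (.rf (nat_lit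 812) (nat_lit 493858305440582043680)) (.cons (.ev (nat_lit 20282409608392555709588450639873) (nat_lit 1)) .nil))) (.cons (.br (nat_lit 6) (nat_lit 1) (.cons (.ev (nat_lit 310693954160043940135370753) (nat_lit 1)) (.cons (.rf (nat_lit 813) (nat_lit 493858305440582043680)) .nil))) (.cons (.br (nat_lit 6) (nat_lit 1) (.cons (.ev (nat_lit 79230585143754961180224913666) (nat_lit 2)) (.cons (.ev (nat_lit 309485028340147840295698688) (nat_lit 1)) .nil))) .nil)))) .nil)))) .nil)))) .nil)))),
 (.br (nat_lit 12) (nat_lit 0) (.cons (.ev (nat_lit 20282719088661563826614325739521) (nat_lit 1)) .nil)),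
 (.br (nat_lit 4) (nat_lit 1) (.cons (.rf (nat_lit 815) (nat_lit 493858305440582043680)) (.cons (.rf (nat_lit 815) (nat_lit 491554714231182034976)) .nil))),
 (.br (nat_lit 8) (nat_lit 0) (.cons (.rf (nat_lit 809) (nat_lit 14242959524133701664)) (.cons (.rf (nat_lit 814) (nat_lit 14242959524133701664)) (.cons (.br (nat_lit 2) (nat_lit 0) (.cons (.rf (nat_lit 814) (nat_lit 14242959523092498464)) (.cons (.br (nat_lit 9) (nat_lit 0) (.cons (.rf (nat_lit 780) (nat_lit 493858297776147957984)) (.cons (.br (nat_lit 11) (nat_lit 0) (.cons (.ev (nat_lit 309489750706630705645879553) (nat_lit 1)) (.cons (.rf (nat_lit 816) (nat_lit 493858305440582043680)) .nil))) .nil))) (.cons (.br (nat_lit 9) (nat_lit 0) (.cons (.br (nat_lit 12) (nat_lit 0) (.cons (.ev (nat_lit 4722366483973468585984) (nat_lit 1)) (.cons (.br (nat_lit 5) (nat_lit 1) (.cons (.br (nat_lit 11) (nat_lit 0) (.cons (.ev (nat_lit 121774627589602750825086474062600) (nat_lit 4)) .nil)) (.cons (.br (nat_lit 10) (nat_lit 0) (.cons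 (.zr (nat_lit 310698676598301829330174464) (nat_lit 237684487542793295359431933953) (nat_lit 5) (nat_lit 0)) .nil)) .nil))) .nil))) (.cons (.br (nat_lit 10) (nat_lit 0) (.cons (.rf (nat_lit 811) (nat_lit 493858305439541856288)) (.cons (.br (nat_lit 11) (nat_lit 0) (.cons (.zr (nat_lit 928455029465161106081382400) (nat_lit 2422592524514899565477889) (nat_lit 5) (nat_lit 3)) (.cons (.ev (nat_lit 20282409603670117168020977615104) (nat_lit 1)) .nil))) .nil))) (.cons (.br (nat_lit 4) (nat_lit 1) (.cons (.br (nat_lit 5) (nat_lit 1) (.cons (.ev (nat_lit 310693935640960797427892481) (nat_lit 1)) (.cons (.rf (nat_lit 812) (nat_lit 493858305439541856288)) .nil))) (.cons (.br (nat_lit 5) (nat_lit 1) (.cons (.ev (nat_lit 310693954160043940135370753) (nat_lit 1)) (.cons (.rf (nat_lit 813) (nat_lit 493858305439541856288)) .nil))) (.cons (.br (nat_lit 13) (nat_lit 1) (.cons (.ev (nat_lit 20361637766166006819139144974593) (nat_lit 1)) (.cons (.ev (nat_lit 20361637766184381787093776465921) (nat_lit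 1)) .nil))) .nil)))) .nil)))) .nil)))) .nil)))),
 (.br (nat_lit 8) (nat_lit 0) (.cons (.rf (nat_lit 809) (nat_lit 14242959524133701664)) (.cons (.rf (nat_lit 814) (nat_lit 14242959524133701664)) (.cons (.rf (nat_lit 817) (nat_lit 14242959524133701664)) (.cons (.br (nat_lit 8) (nat_lit 0) (.cons (.rf (nat_lit 809) (nat_lit 14242959524133701664)) (.cons (.rf (nat_lit 814) (nat_lit 14242959524133701664)) (.cons (.rf (nat_lit 817) (nat_lit 14242959524133701664)) .nil)))) .nil))))),
 (.br (nat_lit 9) (nat_lit 0) (.cons (.br (nat_lit 12) (nat_lit 0) (.cons (.kr (nat_lit 79229376162522492686401798400) (nat_lit 40565128692331608937036936970240) (nat_lit 1) (nat_lit 0)) .nil)) .nil)),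
 (.br (nat_lit 2) (nat_lit 0) (.cons (.br (nat_lit 8) (nat_lit 0) (.cons (.br (nat_lit 11) (nat_lit 0) (.cons (.ev (nat_lit 282574488338689) (nat_lit 1)) (.cons (.br (nat_lit 6) (nat_lit 1) (.cons (.ev (nat_lit 309489750706630705645879553) (nat_lit 1)) (.cons (.rf (nat_lit 819) (nat_lit 493858305440582043680)) (.cons (.ev (nat_lit 79537647524157740260618403841) (nat_lit 1)) .nil)))) .nil))) (.cons (.br (nat_lit 9) (nat_lit 0) (.cons (.br (nat_lit 10) (nat_lit 0) (.cons (.br (nat_lit 11) (nat_lit 0) (.cons (.br (nat_lit 12) (nat_lit 0) (.cons (.ev (nat_lit 40645600853755359330135254827780) (nat_lit 3)) .nil)) .nil)) (.cons (.ev (nat_lit 1213666632841576841281793) (nat_lit 1)) .nil))) (.cons (.br (nat_lit 10) (nat_lit 0) (.cons (.ev (nat_lit 1213666632841576841281793) (nat_lit 1)) (.cons (.br (nat_lit 11) (nat_lit 0) (.cons (.br (nat_lit 6) (nat_lit 1) (.cons (.ev (nat_lit 80779219192685575047600996610) (nat_lit 3)) .nil)) .nil)) .nil))) .nil))) .nil))) (.cons (.br (nat_lit 8)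 (nat_lit 0) (.cons (.rf (nat_lit 818) (nat_lit 14208048758574456064)) (.cons (.br (nat_lit 9) (nat_lit 0) (.cons (.ev (nat_lit 1103806660609) (nat_lit 1)) (.cons (.br (nat_lit 11) (nat_lit 0) (.cons (.ev (nat_lit 282574488338689) (nat_lit 1)) (.cons (.br (nat_lit 12) (nat_lit 0) (.cons (.ev (nat_lit 79537652246452448110697250816) (nat_lit 1)) (.cons (.ev (nat_lit 20361637766184381787093776465921) (nat_lit 1)) .nil))) .nil))) .nil))) (.cons (.br (nat_lit 9) (nat_lit 0) (.cons (.ev (nat_lit 1103806660609) (nat_lit 1)) (.cons (.br (nat_lit 11) (nat_lit 0) (.cons (.ev (nat_lit 309489750706912180605878273) (nat_lit 1)) (.cons (.br (nat_lit 5) (nat_lit 1) (.cons (.br (nat_lit 12) (nat_lit 0) (.cons (.zr (nat_lit 14222440243780034495232) (nat_lit 20283028573671313115188507770881) (nat_lit 5) (nat_lit 4)) .nil)) (.cons (.br (nat_lit 10) (nat_lit 0) (.cons (.zr (nat_lit 309485028268092440969543939) (nat_lit 40564819226192807060856700403712) (nat_lit 10) (nat_lit 0)) .nil)) .nil))) .nil)))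 (.cons (.br (nat_lit 5) (nat_lit 1) (.cons (.ev (nat_lit 1213666632841576841281793) (nat_lit 1)) (.cons (.br (nat_lit 12) (nat_lit 0) (.cons (.br (nat_lit 10) (nat_lit 0) (.cons (.ev (nat_lit 80784064266764225559228646660) (nat_lit 3)) .nil)) (.cons (.ev (nat_lit 20361947255898194647073203159041) (nat_lit 1)) .nil))) (.cons (.br (nat_lit 11) (nat_lit 0) (.cons (.ev (nat_lit 79228167255077846011892203521) (nat_lit 1)) (.cons (.ev (nat_lit 20282409603651742481545584181504) (nat_lit 1)) .nil))) .nil)))) .nil)))) .nil)))) (.cons (.br (nat_lit 8) (nat_lit 0) (.cons (.br (nat_lit 9) (nat_lit 0) (.cons (.br (nat_lit 13) (nat_lit 1) (.cons (.ev (nat_lit 1213666632841576841281793) (nat_lit 1)) (.cons (.ev (nat_lit 309489750706630709924069633) (nat_lit 1)) (.cons (.br (nat_lit 6) (nat_lit 1) (.cons (.ev (nat_lit 79229371440083953326525317121) (nat_lit 1)) (.cons (.ev (nat_lit 79537647524157740260618403841) (nat_lit 1)) .nil))) .nil)))) (.cons (.br (nat_lit 6) (nat_lit 1) (.cons (.ev (nat_lit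 1213666632841576841281793) (nat_lit 1)) (.cons (.ev (nat_lit 309489750706630709924069633) (nat_lit 1)) (.cons (.br (nat_lit 6) (nat_lit 1) (.cons (.ev (nat_lit 1213666632841576841281793) (nat_lit 1)) (.cons (.ev (nat_lit 309489750706630709924069633) (nat_lit 1)) .nil))) .nil)))) .nil))) (.cons (.br (nat_lit 9) (nat_lit 0) (.cons (.br (nat_lit 10) (nat_lit 0) (.cons (.br (nat_lit 11) (nat_lit 0) (.cons (.br (nat_lit 12) (nat_lit 0) (.cons (.ev (nat_lit 40565439400508568668328136409860) (nat_lit 3)) .nil)) .nil)) (.cons (.ev (nat_lit 1213666632841576841281793) (nat_lit 1)) .nil))) (.cons (.br (nat_lit 5) (nat_lit 1) (.cons (.rf (nat_lit 795) (nat_lit 493857213659895400480)) (.cons (.br (nat_lit 13) (nat_lit 1) (.cons (.ev (nat_lit 310703417484431891164561666) (nat_lit 2)) (.cons (.ev (nat_lit 79847137274865217594479149570) (nat_lit 2)) .nil))) (.cons (.ev (nat_lit 79228162532783421835796611328) (nat_lit 1)) .nil)))) (.cons (.br (nat_lit 5) (nat_lit 1) (.cons (.ev (nat_lit 1213666632841576841281793)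 (nat_lit 1)) (.cons (.br (nat_lit 12) (nat_lit 0) (.cons (.ev (nat_lit 309485028268370617411043584) (nat_lit 1)) (.cons (.kr (nat_lit 4722366482869645213696) (nat_lit 20282409603651670423947251286016) (nat_lit 9) (nat_lit 0)) .nil))) (.cons (.br (nat_lit 11) (nat_lit 0) (.cons (.br (nat_lit 10) (nat_lit 0) (.cons (.ev (nat_lit 80776810675097164833494597890) (nat_lit 3)) .nil)) (.cons (.ev (nat_lit 20361947251212793712156923134211) (nat_lit 2)) .nil))) .nil)))) .nil)))) (.cons (.br (nat_lit 9) (nat_lit 0) (.cons (.br (nat_lit 10) (nat_lit 0) (.cons (.ev (nat_lit 1213666632841576841281793) (nat_lit 1)) (.cons (.br (nat_lit 11) (nat_lit 0) (.cons (.br (nat_lit 6) (nat_lit 1) (.cons (.ev (nat_lit 620193205084270385944724230) (nat_lit 3)) .nil)) .nil)) .nil))) (.cons (.br (nat_lit 5) (nat_lit 1) (.cons (.ev (nat_lit 1213666632841576841281793) (nat_lit 1)) (.cons (.br (nat_lit 6) (nat_lit 1) (.cons (.br (nat_lit 12) (nat_lit 0) (.cons (.ev (nat_lit 80784064266764225559228646660) (nat_lit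 3)) .nil)) (.cons (.ev (nat_lit 4722438821938659917824) (nat_lit 1)) .nil))) (.cons (.br (nat_lit 11) (nat_lit 0) (.cons (.ev (nat_lit 79537647524158021735578403073) (nat_lit 1)) (.cons (.ev (nat_lit 20282719093402304995959347675136) (nat_lit 1)) .nil))) .nil)))) (.cons (.br (nat_lit 10) (nat_lit 0) (.cons (.rf (nat_lit 799) (nat_lit 493857213659895400480)) (.cons (.br (nat_lit 5) (nat_lit 1) (.cons (.ev (nat_lit 20282720297587311384744662466816) (nat_lit 1)) (.cons (.ev (nat_lit 20520096509101875247087354249990) (nat_lit 3)) .nil))) .nil))) .nil)))) .nil)))) .nil)))),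
 (.br (nat_lit 12) (nat_lit 0) (.cons (.ev (nat_lit 79228167366047949330466473730) (nat_lit 3)) (.cons (.ev (nat_lit 79228167255077564541210525953) (nat_lit 1)) .nil))),
 (.br (nat_lit 6) (nat_lit 1) (.cons (.ev (nat_lit 79228167366047949330466473730) (nat_lit 3)) (.cons (.ev (nat_lit 1208944266358707179225344) (nat_lit 1)) (.cons (.ev (nat_lit 309485028340147840295698688) (nat_lit 1)) .nil)))),
 (.br (nat_lit 6) (nat_lit 1) (.cons (.br (nat_lit 11) (nat_lit 0) (.cons (.kr (nat_lit 79228167255077564536898715904) (nat_lit 310693935713017291937480704) (nat_lit 1) (nat_lit 0)) .nil)) (.cons (.br (nat_lit 10) (nat_lit 0) (.cons (.kr (nat_lit 79228167255077564536898715904) (nat_lit 310693935713017291937480704) (nat_lit 1) (nat_lit 0)) .nil)) .nil))),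
 (.br (nat_lit 11) (nat_lit 0) (.cons (.kr (nat_lit 79228167255077564536898715904) (nat_lit 310693935713017291937480704) (nat_lit 1) (nat_lit 0)) .nil)),
 (.br (nat_lit 4) (nat_lit 1) (.cons (.br (nat_lit 11) (nat_lit 0) (.cons (.kr (nat_lit 79228167255077564536898715904) (nat_lit 310693935713017291937480704) (nat_lit 1) (nat_lit 0)) .nil)) (.cons (.br (nat_lit 10) (nat_lit 0) (.cons (.kr (nat_lit 79228167255077564536898715904) (nat_lit 310693935713017291937480704) (nat_lit 1) (nat_lit 0)) .nil)) .nil))),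
 (.br (nat_lit 12) (nat_lit 0) (.cons (.kr (nat_lit 79228167255077564536898715904) (nat_lit 310693935713017291937480704) (nat_lit 1) (nat_lit 0)) .nil))]

theorem c22 : chkAll C T R L22 (nat_lit 805) = true := by decide +kernel

theorem l22 : (nat_lit 805) + L22.length = (nat_lit 827) := by decide +kernel

/-- part of the certificates -/
def L23 : List Prf := [(.br (nat_lit 12) (nat_lit 0) (.cons (.kr (nat_lit 79228167255077564536898715904) (nat_lit 310693935713017291937480704) (nat_lit 1) (nat_lit 0)) .nil)),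
 (.br (nat_lit 8) (nat_lit 0) (.cons (.rf (nat_lit 820) (nat_lit 493858305440582043680)) (.cons (.br (nat_lit 2) (nat_lit 0) (.cons (.rf (nat_lit 818) (nat_lit 14208048756429069568)) (.cons (.rf (nat_lit 805) (nat_lit 14208048927186553088)) (.cons (.br (nat_lit 9) (nat_lit 0) (.cons (.rf (nat_lit 821) (nat_lit 493858305440582043680)) (.cons (.rf (nat_lit 821) (nat_lit 493823394672877411584)) (.cons (.br (nat_lit 12) (nat_lit 0) (.cons (.rf (nat_lit 822) (nat_lit 493858305440582043680)) (.cons (.rf (nat_lit 822) (nat_lit 493823394672877411584)) (.cons (.kr (nat_lit 4722366482869645213696) (nat_lit 20282409603651670423947251286016) (nat_lit 9) (nat_lit 0)) .nil)))) .nil)))) .nil)))) (.cons (.br (nat_lit 2) (nat_lit 0) (.cons (.br (nat_lit 9) (nat_lit 0) (.cons (.br (nat_lit 12) (nat_lit 0) (.cons (.ev (nat_lit 79228162532783421835796611328) (nat_lit 1)) (.cons (.rf (nat_lit 823) (nat_lit 493858305440582043680)) .nil))) (.cons (.br (nat_lit 10) (nat_lit 0) (.cons (.br (nat_lit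 12) (nat_lit 0) (.cons (.rf (nat_lit 824) (nat_lit 493858305440582043680)) (.cons (.ev (nat_lit 20282410812595936782654447354113) (nat_lit 1)) .nil))) (.cons (.br (nat_lit 11) (nat_lit 0) (.cons (.br (nat_lit 6) (nat_lit 1) (.cons (.zr (nat_lit 3626777675016669705011200) (nat_lit 20283028573671313396663484284929) (nat_lit 5) (nat_lit 13)) .nil)) .nil)) .nil))) .nil))) (.cons (.br (nat_lit 9) (nat_lit 0) (.cons (.ev (nat_lit 1103806660609) (nat_lit 1)) (.cons (.br (nat_lit 11) (nat_lit 0) (.cons (.kr (nat_lit 281474976710912) (nat_lit 4295032832) (nat_lit 1) (nat_lit 0)) (.cons (.br (nat_lit 4) (nat_lit 1) (.cons (.br (nat_lit 12) (nat_lit 0) (.cons (.zr (nat_lit 81129638414606681695806185209856) (nat_lit 621387871426317158379945985) (nat_lit 5) (nat_lit 3)) .nil)) (.cons (.ev (nat_lit 79537652246524223130246905856) (nat_lit 1)) .nil))) .nil))) (.cons (.br (nat_lit 6) (nat_lit 1) (.cons (.br (nat_lit 11) (nat_lit 0) (.cons (.br (nat_lit 12) (nat_lit 0) (.cons (.ev (nat_lit 20361637766184453564312349376513)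 (nat_lit 1)) .nil)) (.cons (.kr (nat_lit 309485009821346168236474368) (nat_lit 1208925891672223229411328) (nat_lit 2) (nat_lit 0)) .nil))) (.cons (.ev (nat_lit 282574488338689) (nat_lit 1)) (.cons (.rf (nat_lit 825) (nat_lit 493858305440582043680)) .nil)))) .nil)))) (.cons (.br (nat_lit 9) (nat_lit 0) (.cons (.br (nat_lit 12) (nat_lit 0) (.cons (.ev (nat_lit 79228167255077564541210525953) (nat_lit 1)) (.cons (.br (nat_lit 6) (nat_lit 1) (.cons (.ev (nat_lit 121773690643794882109265026482948) (nat_lit 3)) (.cons (.ev (nat_lit 121774923748131177257001264612100) (nat_lit 3)) .nil))) .nil))) (.cons (.br (nat_lit 6) (nat_lit 1) (.cons (.br (nat_lit 4) (nat_lit 1) (.cons (.rf (nat_lit 826) (nat_lit 493858305440582043680)) (.cons (.ev (nat_lit 79229376162450436196187242496) (nat_lit 1)) .nil))) (.cons (.br (nat_lit 4) (nat_lit 1) (.cons (.rf (nat_lit 827) (nat_lit 493858305440582043680)) (.cons (.ev (nat_lit 79537652246524223130246905856) (nat_lit 1)) .nil))) (.cons (.ev (nat_lit 4722438821938659917824)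 (nat_lit 1)) .nil)))) (.cons (.br (nat_lit 10) (nat_lit 0) (.cons (.br (nat_lit 11) (nat_lit 0) (.cons (.br (nat_lit 6) (nat_lit 1) (.cons (.zr (nat_lit 3626777675016669705011200) (nat_lit 20283028573671313396663484284929) (nat_lit 5) (nat_lit 4)) .nil)) .nil)) (.cons (.br (nat_lit 4) (nat_lit 1) (.cons (.br (nat_lit 6) (nat_lit 1) (.cons (.zr (nat_lit 928455029464039604221050880) (nat_lit 20282412021503454049872965009409) (nat_lit 5) (nat_lit 4)) .nil)) (.cons (.ev (nat_lit 121773693061609627843778819784962) (nat_lit 3)) .nil))) .nil))) .nil)))) .nil)))) .nil)))),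
 (.br (nat_lit 6) (nat_lit 1) (.cons (.br (nat_lit 11) (nat_lit 0) (.cons (.kr (nat_lit 79228167255077564536898715904) (nat_lit 310693935713017291937480704) (nat_lit 1) (nat_lit 0)) .nil)) (.cons (.br (nat_lit 10) (nat_lit 0) (.cons (.kr (nat_lit 79228167255077564536898715904) (nat_lit 310693935713017291937480704) (nat_lit 1) (nat_lit 0)) .nil)) .nil))),
 (.br (nat_lit 6) (nat_lit 1) (.cons (.br (nat_lit 11) (nat_lit 0) (.cons (.kr (nat_lit 79228167255077564536898715904) (nat_lit 310693935713017291937480704) (nat_lit 1) (nat_lit 0)) .nil)) (.cons (.br (nat_lit 10) (nat_lit 0) (.cons (.kr (nat_lit 79228167255077564536898715904) (nat_lit 310693935713017291937480704) (nat_lit 1) (nat_lit 0)) .nil)) .nil))),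
 (.br (nat_lit 5) (nat_lit 1) (.cons (.br (nat_lit 12) (nat_lit 0) (.cons (.kr (nat_lit 79228167255077564536898715904) (nat_lit 310693935713017291937480704) (nat_lit 1) (nat_lit 0)) .nil)) (.cons (.br (nat_lit 9) (nat_lit 0) (.cons (.kr (nat_lit 79228167255077564536898715904) (nat_lit 310693935713017291937480704) (nat_lit 1) (nat_lit 0)) .nil)) .nil))),
 (.br (nat_lit 12) (nat_lit 0) (.cons (.kr (nat_lit 79228167255077564536898715904) (nat_lit 310693935713017291937480704) (nat_lit 1) (nat_lit 0)) .nil)),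
 (.br (nat_lit 11) (nat_lit 0) (.cons (.zr (nat_lit 3626777530902581107228672) (nat_lit 20440865928680199380613610864641) (nat_lit 5) (nat_lit 4)) .nil)),
 (.br (nat_lit 9) (nat_lit 0) (.cons (.kr (nat_lit 79228167255077564536898715904) (nat_lit 310693935713017291937480704) (nat_lit 1) (nat_lit 0)) .nil)),
 (.br (nat_lit 5) (nat_lit 1) (.cons (.br (nat_lit 12) (nat_lit 0) (.cons (.kr (nat_lit 79228167255077564536898715904) (nat_lit 310693935713017291937480704) (nat_lit 1) (nat_lit 0)) .nil)) (.cons (.br (nat_lit 9) (nat_lit 0) (.cons (.kr (nat_lit 79228167255077564536898715904) (nat_lit 310693935713017291937480704) (nat_lit 1) (nat_lit 0)) .nil)) .nil))),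
 (.br (nat_lit 6) (nat_lit 1) (.cons (.rf (nat_lit 658) (nat_lit 493786318006984481856)) (.cons (.rf (nat_lit 658) (nat_lit 493858305232278232128)) .nil))),
 (.br (nat_lit 8) (nat_lit 0) (.cons (.rf (nat_lit 820) (nat_lit 493858305440582043680)) (.cons (.rf (nat_lit 828) (nat_lit 493858305440582043680)) (.cons (.br (nat_lit 2) (nat_lit 0) (.cons (.br (nat_lit 9) (nat_lit 0) (.cons (.br (nat_lit 12) (nat_lit 0) (.cons (.ev (nat_lit 79228162532783421840074801408) (nat_lit 1)) (.cons (.rf (nat_lit 829) (nat_lit 493858305440582043680)) .nil))) (.cons (.br (nat_lit 12) (nat_lit 0) (.cons (.ev (nat_lit 79228162532783421835796611328) (nat_lit 1)) (.cons (.br (nat_lit 5) (nat_lit 1) (.cons (.br (nat_lit 11) (nat_lit 0) (.cons (.zr (nat_lit 3626777675016673966424064) (nat_lit 20283028573671313396659189317633) (nat_lit 5) (nat_lit 5)) .nil)) (.cons (.br (nat_lit 10) (nat_lit 0) (.cons (.zr (nat_lit 3626777675016673966424064) (nat_lit 20283028573671313396659189317633) (nat_lit 5) (nat_lit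 13)) .nil)) .nil))) .nil))) (.cons (.br (nat_lit 5) (nat_lit 1) (.cons (.br (nat_lit 12) (nat_lit 0) (.cons (.br (nat_lit 11) (nat_lit 0) (.cons (.zr (nat_lit 3626777675016673966424064) (nat_lit 20283028573671313396659189317633) (nat_lit 5) (nat_lit 5)) .nil)) (.cons (.ev (nat_lit 20282410812595936782654447354113) (nat_lit 1)) .nil))) (.cons (.br (nat_lit 12) (nat_lit 0) (.cons (.br (nat_lit 10) (nat_lit 0) (.cons (.zr (nat_lit 3626777675016673966424064) (nat_lit 20283028573671313396659189317633) (nat_lit 5) (nat_lit 13)) .nil)) (.cons (.ev (nat_lit 20361947255898194647073203159041) (nat_lit 1)) .nil))) (.cons (.rf (nat_lit 830) (nat_lit 493858305440582043680)) .nil)))) .nil)))) (.cons (.br (nat_lit 11) (nat_lit 0) (.cons (.br (nat_lit 6) (nat_lit 1) (.cons (.ev (nat_lit 309489750706630705645879553) (nat_lit 1)) (.cons (.ev (nat_lit 310693935640960801706082561) (nat_lit 1)) (.cons (.br (nat_lit 13) (nat_lit 1) (.cons (.ev (nat_lit 82632544919897870542349468930) (nat_lit 4))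 (.cons (.ev (nat_lit 82644587065830228477230646530) (nat_lit 4)) .nil))) .nil)))) (.cons (.ev (nat_lit 282574488338689) (nat_lit 1)) (.cons (.br (nat_lit 4) (nat_lit 1) (.cons (.br (nat_lit 6) (nat_lit 1) (.cons (.ev (nat_lit 310693935713017296249159681) (nat_lit 1)) (.cons (.br (nat_lit 10) (nat_lit 0) (.cons (.ev (nat_lit 82650683547933259264845612290) (nat_lit 4)) .nil)) .nil))) (.cons (.br (nat_lit 9) (nat_lit 0) (.cons (.br (nat_lit 12) (nat_lit 0) (.cons (.ev (nat_lit 40645600853755359330135254827780) (nat_lit 3)) .nil)) (.cons (.ev (nat_lit 20283029787338162130638384332801) (nat_lit 2)) .nil))) (.cons (.br (nat_lit 9) (nat_lit 0) (.cons (.br (nat_lit 10) (nat_lit 0) (.cons (.ev (nat_lit 82024422342014416873951792386) (nat_lit 4)) .nil)) (.cons (.ev (nat_lit 20361637770906820047177699557376) (nat_lit 1)) .nil))) .nil)))) .nil)))) (.cons (.br (nat_lit 11) (nat_lit 0) (.cons (.br (nat_lit 5) (nat_lit 1) (.cons (.kr (nat_lit 4740813226947649732608) (nat_lit 309485009893684137739419648)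 (nat_lit 4) (nat_lit 0)) (.cons (.kr (nat_lit 1208925819614629191483392) (nat_lit 309485009821626543701491712) (nat_lit 3) (nat_lit 0)) (.cons (.kr (nat_lit 79228162514264337593560727808) (nat_lit 309485009821345073019813888) (nat_lit 1) (nat_lit 0)) .nil)))) (.cons (.ev (nat_lit 282574488338689) (nat_lit 1)) (.cons (.br (nat_lit 4) (nat_lit 1) (.cons (.br (nat_lit 12) (nat_lit 0) (.cons (.ev (nat_lit 4722366483973468585984) (nat_lit 1)) (.cons (.ev (nat_lit 20282409608374108964415246237953) (nat_lit 1)) .nil))) (.cons (.rf (nat_lit 831) (nat_lit 493858305440582043680)) (.cons (.br (nat_lit 5) (nat_lit 1) (.cons (.ev (nat_lit 79228162532783421840074801408) (nat_lit 1)) (.cons (.rf (nat_lit 343) (nat_lit 490436729740762121280)) .nil))) .nil)))) .nil)))) (.cons (.br (nat_lit 4) (nat_lit 1) (.cons (.br (nat_lit 5) (nat_lit 1) (.cons (.br (nat_lit 11) (nat_lit 0) (.cons (.br (nat_lit 12) (nat_lit 0) (.cons (.ev (nat_lit 121775236841102707555781088445188) (nat_lit 3)) .nil)) (.cons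 (.ev (nat_lit 20282719093402304995959347675136) (nat_lit 1)) .nil))) (.cons (.br (nat_lit 12) (nat_lit 0) (.cons (.br (nat_lit 10) (nat_lit 0) (.cons (.ev (nat_lit 80165103728892100115698221828) (nat_lit 3)) .nil)) (.cons (.ev (nat_lit 20361947255898122590578693636353) (nat_lit 1)) .nil))) (.cons (.ev (nat_lit 4722366483973468585984) (nat_lit 1)) .nil)))) (.cons (.br (nat_lit 5) (nat_lit 1) (.cons (.br (nat_lit 6) (nat_lit 1) (.cons (.rf (nat_lit 832) (nat_lit 493858305440582043680)) (.cons (.rf (nat_lit 833) (nat_lit 493858305440582043680)) .nil))) (.cons (.ev (nat_lit 310693935640960797427892481) (nat_lit 1)) (.cons (.br (nat_lit 6) (nat_lit 1) (.cons (.br (nat_lit 11) (nat_lit 0) (.cons (.ev (nat_lit 284036372998374645123509839003912) (nat_lit 4)) .nil)) (.cons (.rf (nat_lit 834) (nat_lit 493858305440582043680)) .nil))) .nil)))) (.cons (.br (nat_lit 6) (nat_lit 1) (.cons (.br (nat_lit 5) (nat_lit 1) (.cons (.br (nat_lit 12) (nat_lit 0) (.cons (.zr (nat_lit 14222439680838671007744)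 (nat_lit 20283028573671313396659189317633) (nat_lit 5) (nat_lit 6)) .nil)) (.cons (.br (nat_lit 10) (nat_lit 0) (.cons (.zr (nat_lit 14222439680838671007744) (nat_lit 20283028573671313396659189317633) (nat_lit 5) (nat_lit 6)) .nil)) .nil))) (.cons (.rf (nat_lit 835) (nat_lit 493858305440582043680)) (.cons (.ev (nat_lit 79228162532711363146542022656) (nat_lit 1)) .nil)))) (.cons (.br (nat_lit 5) (nat_lit 1) (.cons (.br (nat_lit 6) (nat_lit 1) (.cons (.br (nat_lit 11) (nat_lit 0) (.cons (.zr (nat_lit 14222583796018156929792) (nat_lit 20283028573671313398862507540481) (nat_lit 5) (nat_lit 0)) .nil)) (.cons (.ev (nat_lit 309485028340429315255566336) (nat_lit 1)) .nil))) (.cons (.rf (nat_lit 836) (nat_lit 493858305440582043680)) (.cons (.br (nat_lit 9) (nat_lit 0) (.cons (.br (nat_lit 10) (nat_lit 0) (.cons (.ev (nat_lit 81395771360689035935257659138) (nat_lit 3)) .nil)) (.cons (.ev (nat_lit 20361637770906820047177699557376) (nat_lit 1)) .nil))) .nil)))) .nil))))) .nil))))) .nil)))),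
 (.br (nat_lit 7) (nat_lit 0) (.cons (.rf (nat_lit 805) (nat_lit 14242959524133701664)) (.cons (.rf (nat_lit 818) (nat_lit 14242959524133701664)) (.cons (.br (nat_lit 8) (nat_lit 0) (.cons (.rf (nat_lit 820) (nat_lit 493858305440582043680)) (.cons (.rf (nat_lit 828) (nat_lit 493858305440582043680)) (.cons (.rf (nat_lit 837) (nat_lit 493858305440582043680)) (.cons (.br (nat_lit 8) (nat_lit 0) (.cons (.rf (nat_lit 820) (nat_lit 493858305440582043680)) (.cons (.rf (nat_lit 828) (nat_lit 493858305440582043680)) (.cons (.rf (nat_lit 837) (nat_lit 493858305440582043680)) .nil)))) .nil))))) .nil)))),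
 (.br (nat_lit 8) (nat_lit 0) (.cons (.br (nat_lit 10) (nat_lit 0) (.cons (.ev (nat_lit 18447025548703039489) (nat_lit 1)) (.cons (.br (nat_lit 11) (nat_lit 0) (.cons (.ev (nat_lit 282574488338689) (nat_lit 1)) (.cons (.br (nat_lit 12) (nat_lit 0) (.cons (.zr (nat_lit 932081807211110569378643968) (nat_lit 396140812589768713516406014211) (nat_lit 10) (nat_lit 13)) (.cons (.ev (nat_lit 20361637766165934762640323706881) (nat_lit 1)) .nil))) .nil))) .nil))) (.cons (.br (nat_lit 11) (nat_lit 0) (.cons (.ev (nat_lit 282574488338689) (nat_lit 1)) (.cons (.br (nat_lit 12) (nat_lit 0) (.cons (.ev (nat_lit 79537647524157740260618403841) (nat_lit 1)) (.cons (.br (nat_lit 5) (nat_lit 1) (.cons (.br (nat_lit 10) (nat_lit 0) (.cons (.ev (nat_lit 20361947255916641392246441115905) (nat_lit 1)) .nil)) (.cons (.br (nat_lit 9) (nat_lit 0) (.cons (.zr (nat_lit 620183704794333377726644480) (nat_lit 316912650057057632952975884289) (nat_lit 5) (nat_lit 0)) .nil)) .nil))) .nil))) .nil))) (.cons (.br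 (nat_lit 9) (nat_lit 0) (.cons (.br (nat_lit 6) (nat_lit 1) (.cons (.ev (nat_lit 1223092919909866392453890) (nat_lit 2)) (.cons (.ev (nat_lit 309489750706912180605878273) (nat_lit 1)) (.cons (.ev (nat_lit 79228162532783421840074801408) (nat_lit 1)) .nil)))) (.cons (.br (nat_lit 10) (nat_lit 0) (.cons (.rf (nat_lit 795) (nat_lit 493858304168230527008)) (.cons (.ev (nat_lit 1213666632841576841281793) (nat_lit 1)) .nil))) (.cons (.br (nat_lit 6) (nat_lit 1) (.cons (.ev (nat_lit 1213666632841576841281793) (nat_lit 1)) (.cons (.br (nat_lit 13) (nat_lit 1) (.cons (.ev (nat_lit 20282410817299928860515085910016) (nat_lit 1)) (.cons (.ev (nat_lit 20361947255898194647073203159041) (nat_lit 1)) .nil))) (.cons (.br (nat_lit 5) (nat_lit 1) (.cons (.br (nat_lit 11) (nat_lit 0) (.cons (.ev (nat_lit 81400616471517059397672174340) (nat_lit 3)) .nil)) (.cons (.br (nat_lit 10) (nat_lit 0) (.cons (.ev (nat_lit 81209801100447762221821808017670) (nat_lit 4)) .nil)) .nil))) .nil)))) .nil)))) .nil)))),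
 (.br (nat_lit 10) (nat_lit 0) (.cons (.br (nat_lit 12) (nat_lit 0) (.cons (.kr (nat_lit 79228167255077564536898715904) (nat_lit 310693935713017291937480704) (nat_lit 1) (nat_lit 0)) .nil)) .nil)),
 (.br (nat_lit 10) (nat_lit 0) (.cons (.kr (nat_lit 79228167255077564536898715904) (nat_lit 310693935713017291937480704) (nat_lit 1) (nat_lit 0)) .nil)),
 (.br (nat_lit 8) (nat_lit 0) (.cons (.rf (nat_lit 839) (nat_lit 493858305440582043680)) (.cons (.rf (nat_lit 805) (nat_lit 14208048928227756288)) (.cons (.br (nat_lit 11) (nat_lit 0) (.cons (.br (nat_lit 9) (nat_lit 0) (.cons (.rf (nat_lit 840) (nat_lit 493858305440582043680)) (.cons (.br (nat_lit 6) (nat_lit 1) (.cons (.br (nat_lit 12) (nat_lit 0) (.cons (.ev (nat_lit 121774620288897665932997440112388) (nat_lit 3)) .nil)) (.cons (.rf (nat_lit 841) (nat_lit 493858305440582043680)) .nil))) .nil))) (.cons (.ev (nat_lit 282574488338689) (nat_lit 1)) (.cons (.br (nat_lit 4) (nat_lit 1) (.cons (.br (nat_lit 12) (nat_lit 0) (.cons (.br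 (nat_lit 10) (nat_lit 0) (.cons (.ev (nat_lit 121775855839456261480099734685444) (nat_lit 3)) .nil)) (.cons (.ev (nat_lit 20282409608374108964415246237953) (nat_lit 1)) .nil))) (.cons (.rf (nat_lit 831) (nat_lit 493858305439541856288)) (.cons (.br (nat_lit 6) (nat_lit 1) (.cons (.ev (nat_lit 79537652246524223130246905856) (nat_lit 1)) (.cons (.br (nat_lit 9) (nat_lit 0) (.cons (.ev (nat_lit 80157850100332116382897603330) (nat_lit 3)) .nil)) .nil))) .nil)))) .nil)))) .nil)))),
 (.br (nat_lit 4) (nat_lit 1) (.cons (.br (nat_lit 11) (nat_lit 0) (.cons (.kr (nat_lit 79228167255077564536898715904) (nat_lit 310693935713017291937480704) (nat_lit 1) (nat_lit 0)) .nil)) (.cons (.br (nat_lit 10) (nat_lit 0) (.cons (.kr (nat_lit 79228167255077564536898715904) (nat_lit 310693935713017291937480704) (nat_lit 1) (nat_lit 0)) .nil)) .nil))),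
 (.br (nat_lit 8) (nat_lit 0) (.cons (.rf (nat_lit 839) (nat_lit 493858305440582043680)) (.cons (.rf (nat_lit 805) (nat_lit 14208048928227756288)) (.cons (.br (nat_lit 5) (nat_lit 1) (.cons (.br (nat_lit 12) (nat_lit 0) (.cons (.ev (nat_lit 79228162532783421840074801408) (nat_lit 1)) (.cons (.rf (nat_lit 843) (nat_lit 493858305440582043680)) .nil))) (.cons (.ev (nat_lit 18518802767275950081) (nat_lit 1)) (.cons (.ev (nat_lit 282574488338689) (nat_lit 1)) (.cons (.br (nat_lit 9) (nat_lit 0) (.cons (.br (nat_lit 10) (nat_lit 0) (.cons (.br (nat_lit 11) (nat_lit 0) (.cons (.ev (nat_lit 82640974510018440694415428866) (nat_lit 4)) .nil)) .nil)) (.cons (.rf (nat_lit 825) (nat_lit 493858305439541856288)) .nil))) .nil))))) .nil)))),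
 (.br (nat_lit 11) (nat_lit 0) (.cons (.br (nat_lit 5) (nat_lit 1) (.cons (.ev (nat_lit 20282410812577490039680232652801) (nat_lit 1)) .nil)) .nil)),
 (.br (nat_lit 8) (nat_lit 0) (.cons (.br (nat_lit 11) (nat_lit 0) (.cons (.ev (nat_lit 282574488338689) (nat_lit 1)) (.cons (.br (nat_lit 5) (nat_lit 1) (.cons (.br (nat_lit 10) (nat_lit 0) (.cons (.br (nat_lit 12) (nat_lit 0) (.cons (.ev (nat_lit 20282410812577490039680232652801) (nat_lit 1)) .nil)) .nil)) (.cons (.rf (nat_lit 819) (nat_lit 493858305439541856288)) (.cons (.ev (nat_lit 79537647524157740260618403841) (nat_lit 1)) .nil)))) .nil))) (.cons (.br (nat_lit 9) (nat_lit 0) (.cons (.br (nat_lit 5) (nat_lit 1) (.cons (.br (nat_lit 12) (nat_lit 0) (.cons (.zr (nat_lit 3626777675016669688233984) (nat_lit 158456329769342183609714344193) (nat_lit 5) (nat_lit 6)) .nil)) (.cons (.ev (nat_lit 309489750706912180605878273) (nat_lit 1)) (.cons (.ev (nat_lit 79228162532783421840074801408) (nat_lit 1)) .nil)))) (.cons (.br (nat_lit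 10) (nat_lit 0) (.cons (.ev (nat_lit 1213666632841576841281793) (nat_lit 1)) (.cons (.rf (nat_lit 845) (nat_lit 493858305440582043680)) .nil))) .nil))) .nil)))]

theorem c23 : chkAll C T R L23 (nat_lit 827) = true := by decide +kernel

theorem l23 : (nat_lit 827) + L23.length = (nat_lit 847) := by decide +kernel

/-- part of the certificates -/
def L24 : List Prf := [(.br (nat_lit 10) (nat_lit 0) (.cons (.ev (nat_lit 20282410812577490039680232652801) (nat_lit 1)) .nil)),
 (.br (nat_lit 10) (nat_lit 0) (.cons (.ev (nat_lit 20282410812577490039680232652801) (nat_lit 1)) .nil)),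
 (.br (nat_lit 8) (nat_lit 0) (.cons (.rf (nat_lit 846) (nat_lit 493858305440582043680)) (.cons (.br (nat_lit 11) (nat_lit 0) (.cons (.br (nat_lit 12) (nat_lit 0) (.cons (.kr (nat_lit 79228162514264337593560727808) (nat_lit 309485009821345073019813888) (nat_lit 1) (nat_lit 0)) (.cons (.br (nat_lit 5) (nat_lit 1) (.cons (.rf (nat_lit 847) (nat_lit 493858305440582043680)) (.cons (.br (nat_lit 9) (nat_lit 0) (.cons (.ev (nat_lit 20282409608392555709584172449793) (nat_lit 1)) .nil)) .nil))) .nil))) (.cons (.ev (nat_lit 282574488338689) (nat_lit 1)) (.cons (.br (nat_lit 4) (nat_lit 1) (.cons (.br (nat_lit 5) (nat_lit 1) (.cons (.ev (nat_lit 310693935713017296249159681) (nat_lit 1)) (.cons (.rf (nat_lit 848) (nat_lit 493858305440582043680)) .nil))) (.cons (.br (nat_lit 5) (nat_lit 1) (.cons (.br (nat_lit 12) (nat_lit 0) (.cons (.ev (nat_lit 121775234432659051919302686212868) (nat_lit 3)) .nil)) (.cons (.ev (nat_lit 79541274320135670593696629505) (nat_lit 2)) .nil))) (.cons (.br (nat_lit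 5) (nat_lit 1) (.cons (.ev (nat_lit 79537652246524223130246905856) (nat_lit 1)) (.cons (.br (nat_lit 9) (nat_lit 0) (.cons (.zr (nat_lit 14167099450807975674624) (nat_lit 20283028573671313395563972657153) (nat_lit 5) (nat_lit 4)) .nil)) .nil))) .nil)))) .nil)))) .nil))),
 (.br (nat_lit 9) (nat_lit 0) (.cons (.br (nat_lit 12) (nat_lit 0) (.cons (.zr (nat_lit 40564819207303340850093542605568) (nat_lit 618970019642971616721371137) (nat_lit 5) (nat_lit 4)) .nil)) (.cons (.rf (nat_lit 794) (nat_lit 493858304168230527008)) .nil))),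
 (.br (nat_lit 8) (nat_lit 0) (.cons (.br (nat_lit 10) (nat_lit 0) (.cons (.br (nat_lit 9) (nat_lit 0) (.cons (.br (nat_lit 11) (nat_lit 0) (.cons (.br (nat_lit 12) (nat_lit 0) (.cons (.zr (nat_lit 60847538295965192904893586800640) (nat_lit 18889466495528045904898) (nat_lit 10) (nat_lit 13)) .nil)) .nil)) (.cons (.br (nat_lit 11) (nat_lit 0) (.cons (.zr (nat_lit 9444732967938330460928) (nat_lit 618970019642971616721371137) (nat_lit 5) (nat_lit 4)) (.cons (.ev (nat_lit 20282409603651742481541305991424) (nat_lit 1)) .nil))) .nil))) (.cons (.ev (nat_lit 18447025548703039489) (nat_lit 1)) (.cons (.br (nat_lit 6) (nat_lit 1) (.cons (.ev (nat_lit 1213666632841576841281793) (nat_lit 1)) (.cons (.rf (nat_lit 850) (nat_lit 493858305440582043680)) (.cons (.br (nat_lit 9) (nat_lit 0) (.cons (.br (nat_lit 11) (nat_lit 0) (.cons (.ev (nat_lit 202906127759637734074726419467528) (nat_lit 4)) .nil)) (.cons (.ev (nat_lit 20282409608392483932365599539201) (nat_lit 1)) .nil))) .nil)))) .nil))))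 (.cons (.br (nat_lit 9) (nat_lit 0) (.cons (.br (nat_lit 10) (nat_lit 0) (.cons (.br (nat_lit 11) (nat_lit 0) (.cons (.br (nat_lit 12) (nat_lit 0) (.cons (.ev (nat_lit 20361947255916641392246441115905) (nat_lit 1)) .nil)) .nil)) (.cons (.ev (nat_lit 1213666632841576841281793) (nat_lit 1)) .nil))) (.cons (.br (nat_lit 10) (nat_lit 0) (.cons (.ev (nat_lit 1213666632841576841281793) (nat_lit 1)) (.cons (.br (nat_lit 11) (nat_lit 0) (.cons (.br (nat_lit 5) (nat_lit 1) (.cons (.ev (nat_lit 82633767995305816897100123406) (nat_lit 4)) .nil)) .nil)) .nil))) .nil))) (.cons (.br (nat_lit 9) (nat_lit 0) (.cons (.br (nat_lit 6) (nat_lit 1) (.cons (.ev (nat_lit 1213666632841576841281793) (nat_lit 1)) (.cons (.rf (nat_lit 802) (nat_lit 493858304168230527008)) (.cons (.br (nat_lit 10) (nat_lit 0) (.cons (.br (nat_lit 11) (nat_lit 0) (.cons (.ev (nat_lit 80776801340900543950305165572) (nat_lit 3)) .nil)) (.cons (.ev (nat_lit 20520094100639341362093064519936) (nat_lit 2)) .nil))) .nil)))) (.cons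 (.br (nat_lit 10) (nat_lit 0) (.cons (.ev (nat_lit 1213666632841576841281793) (nat_lit 1)) (.cons (.rf (nat_lit 799) (nat_lit 493858304168230527008)) .nil))) (.cons (.br (nat_lit 10) (nat_lit 0) (.cons (.br (nat_lit 5) (nat_lit 1) (.cons (.ev (nat_lit 1213648186098598348390401) (nat_lit 1)) (.cons (.br (nat_lit 6) (nat_lit 1) (.cons (.zr (nat_lit 79229376180969236760161681920) (nat_lit 928455029464316685446217729) (nat_lit 5) (nat_lit 4)) .nil)) .nil))) (.cons (.br (nat_lit 11) (nat_lit 0) (.cons (.br (nat_lit 5) (nat_lit 1) (.cons (.ev (nat_lit 620193112562037062444843776) (nat_lit 2)) .nil)) .nil)) .nil))) .nil)))) .nil)))),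
 (.br (nat_lit 10) (nat_lit 0) (.cons (.br (nat_lit 11) (nat_lit 0) (.cons (.ev (nat_lit 20361637766165934762640323706881) (nat_lit 1)) .nil)) .nil)),
 (.br (nat_lit 12) (nat_lit 0) (.cons (.rf (nat_lit 852) (nat_lit 493858305440582043680)) (.cons (.ev (nat_lit 79228167255077564541210525953) (nat_lit 1)) .nil))),
 (.br (nat_lit 8) (nat_lit 0) (.cons (.rf (nat_lit 851) (nat_lit 493858305440582043680)) (.cons (.br (nat_lit 9) (nat_lit 0) (.cons (.rf (nat_lit 853) (nat_lit 493858305440582043680)) (.cons (.rf (nat_lit 853) (nat_lit 493823394671836208384)) (.cons (.br (nat_lit 13) (nat_lit 1) (.cons (.ev (nat_lit 20282409603670117449495937613824) (nat_lit 1)) (.cons (.ev (nat_lit 20282409603651742481541305991424) (nat_lit 1)) (.cons (.kr (nat_lit 4722366482869645213696) (nat_lit 20282409603651670423947251286016) (nat_lit 9) (nat_lit 0)) .nil)))) .nil)))) (.cons (.br (nat_lit 4) (nat_lit 1) (.cons (.br (nat_lit 6) (nat_lit 1) (.cons (.br (nat_lit 5) (nat_lit 1) (.cons (.br (nat_lit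 12) (nat_lit 0) (.cons (.ev (nat_lit 79543696931252452125670049028) (nat_lit 3)) .nil)) (.cons (.br (nat_lit 11) (nat_lit 0) (.cons (.ev (nat_lit 79543715894216003623030554880) (nat_lit 3)) .nil)) .nil))) (.cons (.br (nat_lit 5) (nat_lit 1) (.cons (.ev (nat_lit 309489732187829042176590081) (nat_lit 1)) (.cons (.ev (nat_lit 309485028340429315255566336) (nat_lit 1)) .nil))) (.cons (.ev (nat_lit 79228167255077564541210525953) (nat_lit 1)) .nil)))) (.cons (.br (nat_lit 5) (nat_lit 1) (.cons (.br (nat_lit 12) (nat_lit 0) (.cons (.br (nat_lit 11) (nat_lit 0) (.cons (.ev (nat_lit 40644984311069270555743775687426) (nat_lit 3)) .nil)) (.cons (.ev (nat_lit 20282409608392555709588450639873) (nat_lit 1)) .nil))) (.cons (.br (nat_lit 6) (nat_lit 1) (.cons (.rf (nat_lit 832) (nat_lit 493858305439541856288)) (.cons (.zr (nat_lit 316912650130844608144074604800) (nat_lit 622596797101534037858844673) (nat_lit 10) (nat_lit 6)) .nil))) (.cons (.br (nat_lit 6) (nat_lit 1) (.cons (.br (nat_lit 11)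 (nat_lit 0) (.cons (.ev (nat_lit 79543715894216003623030554880) (nat_lit 3)) .nil)) (.cons (.ev (nat_lit 79537647542532708215250026753) (nat_lit 1)) .nil))) .nil)))) (.cons (.br (nat_lit 5) (nat_lit 1) (.cons (.br (nat_lit 6) (nat_lit 1) (.cons (.br (nat_lit 12) (nat_lit 0) (.cons (.zr (nat_lit 2422592596571389830365184) (nat_lit 20283028573671313396659189317633) (nat_lit 5) (nat_lit 6)) .nil)) (.cons (.br (nat_lit 10) (nat_lit 0) (.cons (.ev (nat_lit 40644979475365993223109870946054) (nat_lit 3)) .nil)) .nil))) (.cons (.rf (nat_lit 835) (nat_lit 493858305439541856288)) (.cons (.br (nat_lit 6) (nat_lit 1) (.cons (.br (nat_lit 10) (nat_lit 0) (.cons (.ev (nat_lit 20282410817299928860519397654528) (nat_lit 1)) .nil)) (.cons (.br (nat_lit 9) (nat_lit 0) (.cons (.ev (nat_lit 20282410817299928860519397654528) (nat_lit 1)) .nil)) .nil))) .nil)))) (.cons (.br (nat_lit 5) (nat_lit 1) (.cons (.rf (nat_lit 836) (nat_lit 493857213659895400480)) (.cons (.br (nat_lit 6) (nat_lit 1) (.cons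 (.br (nat_lit 11) (nat_lit 0) (.cons (.zr (nat_lit 14259333168977500177152) (nat_lit 20283028573671313398862507540481) (nat_lit 5) (nat_lit 0)) .nil)) (.cons (.br (nat_lit 9) (nat_lit 0) (.cons (.zr (nat_lit 14167099450807975674624) (nat_lit 20283028573671313395563972657153) (nat_lit 5) (nat_lit 4)) .nil)) .nil))) (.cons (.br (nat_lit 6) (nat_lit 1) (.cons (.ev (nat_lit 79537652246524223130246905856) (nat_lit 1)) (.cons (.br (nat_lit 9) (nat_lit 0) (.cons (.ev (nat_lit 20283029792041865978140050916096) (nat_lit 2)) .nil)) .nil))) .nil)))) .nil))))) .nil)))),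
 (.br (nat_lit 8) (nat_lit 0) (.cons (.rf (nat_lit 851) (nat_lit 493858305440582043680)) (.cons (.rf (nat_lit 854) (nat_lit 493858305440582043680)) (.cons (.br (nat_lit 9) (nat_lit 0) (.cons (.br (nat_lit 11) (nat_lit 0) (.cons (.br (nat_lit 5) (nat_lit 1) (.cons (.br (nat_lit 12) (nat_lit 0) (.cons (.ev (nat_lit 40644360486456451127822059374340) (nat_lit 3)) .nil)) (.cons (.ev (nat_lit 309485028340429315255566336) (nat_lit 1)) .nil))) (.cons (.ev (nat_lit 20282719093402304995959347675136) (nat_lit 1)) .nil))) (.cons (.br (nat_lit 4) (nat_lit 1) (.cons (.br (nat_lit 5) (nat_lit 1) (.cons (.rf (nat_lit 827) (nat_lit 493858305439541856288)) (.cons (.ev (nat_lit 79229376180969237863934722048) (nat_lit 1)) .nil))) (.cons (.br (nat_lit 10) (nat_lit 0) (.cons (.rf (nat_lit 826) (nat_lit 493858305439541856288)) (.cons (.ev (nat_lit 20282719093383930590954635919616) (nat_lit 1)) .nil))) (.cons (.br (nat_lit 5) (nat_lit 1) (.cons (.ev (nat_lit 79229376180969237863934722048) (nat_lit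 1)) (.cons (.ev (nat_lit 309485028340429315255566336) (nat_lit 1)) .nil))) .nil)))) (.cons (.br (nat_lit 10) (nat_lit 0) (.cons (.br (nat_lit 5) (nat_lit 1) (.cons (.zr (nat_lit 620178945750816617836576768) (nat_lit 20282409617818769872569071829761) (nat_lit 10) (nat_lit 6)) (.cons (.zr (nat_lit 158456325065566559997643456512) (nat_lit 20282410817299856521458956239105) (nat_lit 10) (nat_lit 6)) .nil))) (.cons (.br (nat_lit 5) (nat_lit 1) (.cons (.ev (nat_lit 1213648186098598348390401) (nat_lit 1)) (.cons (.br (nat_lit 4) (nat_lit 1) (.cons (.zr (nat_lit 928455029465161106081382400) (nat_lit 20282412021503453769497499926529) (nat_lit 5) (nat_lit 3)) .nil)) .nil))) .nil))) .nil)))) .nil)))),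
 (.br (nat_lit 7) (nat_lit 0) (.cons (.rf (nat_lit 805) (nat_lit 14242959524133701664)) (.cons (.rf (nat_lit 838) (nat_lit 14242959524133701664)) (.cons (.br (nat_lit 2) (nat_lit 0) (.cons (.rf (nat_lit 838) (nat_lit 14242959523092498464)) (.cons (.br (nat_lit 8) (nat_lit 0) (.cons (.rf (nat_lit 839) (nat_lit 493858305440582043680)) (.cons (.rf (nat_lit 842) (nat_lit 493858305440582043680)) (.cons (.rf (nat_lit 844) (nat_lit 493858305440582043680)) (.cons (.br (nat_lit 8) (nat_lit 0) (.cons (.rf (nat_lit 839) (nat_lit 493858305440582043680)) (.cons (.rf (nat_lit 842) (nat_lit 493858305440582043680)) (.cons (.rf (nat_lit 844) (nat_lit 493858305440582043680)) .nil)))) .nil))))) (.cons (.br (nat_lit 8) (nat_lit 0) (.cons (.rf (nat_lit 846) (nat_lit 493858305440582043680)) (.cons (.rf (nat_lit 849) (nat_lit 493858305440582043680)) (.cons (.br (nat_lit 8) (nat_lit 0) (.cons (.rf (nat_lit 846) (nat_lit 493858305440582043680)) (.cons (.rf (nat_lit 849) (nat_lit 493858305440582043680))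 .nil))) .nil)))) (.cons (.br (nat_lit 8) (nat_lit 0) (.cons (.rf (nat_lit 851) (nat_lit 493858305440582043680)) (.cons (.rf (nat_lit 854) (nat_lit 493858305440582043680)) (.cons (.rf (nat_lit 855) (nat_lit 493858305440582043680)) (.cons (.br (nat_lit 8) (nat_lit 0) (.cons (.rf (nat_lit 851) (nat_lit 493858305440582043680)) (.cons (.rf (nat_lit 854) (nat_lit 493858305440582043680)) (.cons (.rf (nat_lit 855) (nat_lit 493858305440582043680)) .nil)))) .nil))))) .nil))))) .nil)))),
 (.br (nat_lit 7) (nat_lit 0) (.cons (.rf (nat_lit 805) (nat_lit 14242959524133701664)) (.cons (.rf (nat_lit 838) (nat_lit 14242959524133701664)) (.cons (.rf (nat_lit 856) (nat_lit 14242959524133701664)) (.cons (.br (nat_lit 7) (nat_lit 0) (.cons (.rf (nat_lit 805) (nat_lit 14242959524133701664)) (.cons (.rf (nat_lit 838) (nat_lit 14242959524133701664)) (.cons (.rf (nat_lit 856) (nat_lit 14242959524133701664)) .nil)))) .nil))))),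
 (.br (nat_lit 9) (nat_lit 0) (.cons (.br (nat_lit 10) (nat_lit 0) (.cons (.br (nat_lit 11) (nat_lit 0) (.cons (.br (nat_lit 12) (nat_lit 0) (.cons (.kr (nat_lit 79228162514264337593543950336) (nat_lit 20282409603651670423947251286016) (nat_lit 12) (nat_lit 0)) .nil)) .nil)) .nil)) .nil)),
 (.br (nat_lit 10) (nat_lit 0) (.cons (.br (nat_lit 11) (nat_lit 0) (.cons (.br (nat_lit 12) (nat_lit 0) (.cons (.kr (nat_lit 1208925819614629174706176) (nat_lit 20282409603651670423947251286016) (nat_lit 10) (nat_lit 0)) .nil)) .nil)) .nil)),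
 (.br (nat_lit 8) (nat_lit 0) (.cons (.rf (nat_lit 858) (nat_lit 14242959524133701664)) (.cons (.br (nat_lit 9) (nat_lit 0) (.cons (.rf (nat_lit 859) (nat_lit 493858305440582043680)) (.cons (.br (nat_lit 10) (nat_lit 0) (.cons (.br (nat_lit 11) (nat_lit 0) (.cons (.br (nat_lit 12) (nat_lit 0) (.cons (.ev (nat_lit 20282409608374037189391384838401) (nat_lit 1)) .nil)) .nil)) (.cons (.br (nat_lit 12) (nat_lit 0) (.cons (.ev (nat_lit 79229376162450436196187242496) (nat_lit 1)) (.cons (.ev (nat_lit 20361637766166007101709321568513) (nat_lit 1)) .nil))) .nil))) .nil))) .nil))),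
 (.br (nat_lit 11) (nat_lit 0) (.cons (.zr (nat_lit 40565747662388145115321805766656) (nat_lit 396140812571321970546519834625) (nat_lit 5) (nat_lit 0)) .nil)),
 (.br (nat_lit 12) (nat_lit 0) (.cons (.kr (nat_lit 40644047369817605185488046588160) (nat_lit 310698676526244235292180480) (nat_lit 1) (nat_lit 0)) .nil)),
 (.br (nat_lit 8) (nat_lit 0) (.cons (.br (nat_lit 9) (nat_lit 0) (.cons (.br (nat_lit 10) (nat_lit 0) (.cons (.br (nat_lit 11) (nat_lit 0) (.cons (.br (nat_lit 12) (nat_lit 0) (.cons (.ev (nat_lit 20282409608392555708488955724033) (nat_lit 1)) .nil)) .nil)) .nil)) (.cons (.br (nat_lit 12) (nat_lit 0) (.cons (.ev (nat_lit 158456329788005101565082993155) (nat_lit 2)) (.cons (.br (nat_lit 6) (nat_lit 1) (.cons (.rf (nat_lit 861) (nat_lit 493858305440582043680)) (.cons (.rf (nat_lit 861) (nat_lit 493823394846888528128)) .nil))) .nil))) .nil))) (.cons (.rf (nat_lit 857) (nat_lit 14208048929331939584)) (.cons (.br (nat_lit 9) (nat_lit 0) (.cons (.br (nat_lit 10) (nat_lit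 0) (.cons (.br (nat_lit 11) (nat_lit 0) (.cons (.br (nat_lit 12) (nat_lit 0) (.cons (.ev (nat_lit 80776801340901104692678951172) (nat_lit 3)) .nil)) .nil)) (.cons (.br (nat_lit 6) (nat_lit 1) (.cons (.rf (nat_lit 862) (nat_lit 493858305440582043680)) (.cons (.br (nat_lit 11) (nat_lit 0) (.cons (.ev (nat_lit 121776477246290796309467942161160) (nat_lit 4)) .nil)) .nil))) .nil))) (.cons (.br (nat_lit 10) (nat_lit 0) (.cons (.br (nat_lit 11) (nat_lit 0) (.cons (.br (nat_lit 12) (nat_lit 0) (.cons (.ev (nat_lit 80776801340901104692678951172) (nat_lit 3)) .nil)) .nil)) (.cons (.br (nat_lit 4) (nat_lit 1) (.cons (.zr (nat_lit 18963252907794893897728) (nat_lit 621387871426598633356656897) (nat_lit 5) (nat_lit 3)) (.cons (.br (nat_lit 11) (nat_lit 0) (.cons (.ev (nat_lit 20282412035688856690326061056256) (nat_lit 2)) .nil)) .nil))) .nil))) (.cons (.br (nat_lit 4) (nat_lit 1) (.cons (.br (nat_lit 6) (nat_lit 1) (.cons (.br (nat_lit 12) (nat_lit 0) (.cons (.ev (nat_lit 20282409608374037189391384838401)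 (nat_lit 1)) .nil)) (.cons (.br (nat_lit 11) (nat_lit 0) (.cons (.ev (nat_lit 20282409608374037189391384838401) (nat_lit 1)) .nil)) .nil))) (.cons (.br (nat_lit 6) (nat_lit 1) (.cons (.ev (nat_lit 310693935640960801706082561) (nat_lit 1)) (.cons (.br (nat_lit 10) (nat_lit 0) (.cons (.ev (nat_lit 20361637766166007101709321568513) (nat_lit 1)) .nil)) .nil))) (.cons (.br (nat_lit 6) (nat_lit 1) (.cons (.br (nat_lit 11) (nat_lit 0) (.cons (.ev (nat_lit 20282719093383930592054164389888) (nat_lit 1)) .nil)) (.cons (.ev (nat_lit 309485028340147840295698688) (nat_lit 1)) .nil))) .nil)))) .nil)))) .nil)))),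
 (.br (nat_lit 9) (nat_lit 0) (.cons (.br (nat_lit 12) (nat_lit 0) (.cons (.ev (nat_lit 20282719088661491769020287877121) (nat_lit 1)) .nil)) (.cons (.rf (nat_lit 816) (nat_lit 493858304168230527008)) .nil))),
 (.br (nat_lit 10) (nat_lit 0) (.cons (.kr (nat_lit 40644047369817605185488046588160) (nat_lit 310698676526244235292180480) (nat_lit 1) (nat_lit 0)) .nil)),
 (.br (nat_lit 8) (nat_lit 0) (.cons (.rf (nat_lit 863) (nat_lit 493858305440582043680)) (.cons (.br (nat_lit 10) (nat_lit 0) (.cons (.rf (nat_lit 780) (nat_lit 493857207025212268608)) (.cons (.br (nat_lit 11) (nat_lit 0) (.cons (.rf (nat_lit 819) (nat_lit 493823394843667400960)) (.cons (.rf (nat_lit 864) (nat_lit 493858305440582043680)) .nil))) .nil))) (.cons (.br (nat_lit 9) (nat_lit 0) (.cons (.br (nat_lit 10) (nat_lit 0) (.cons (.br (nat_lit 12) (nat_lit 0) (.cons (.ev (nat_lit 79230585088486506177669234946) (nat_lit 2)) .nil)) (.cons (.br (nat_lit 6) (nat_lit 1) (.cons (.rf (nat_lit 862) (nat_lit 493858305440581027872))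 (.cons (.br (nat_lit 11) (nat_lit 0) (.cons (.ev (nat_lit 121776477246290796309467942161160) (nat_lit 4)) .nil)) .nil))) .nil))) (.cons (.br (nat_lit 12) (nat_lit 0) (.cons (.rf (nat_lit 852) (nat_lit 493858297776147962944)) (.cons (.br (nat_lit 3) (nat_lit 1) (.cons (.br (nat_lit 11) (nat_lit 0) (.cons (.ev (nat_lit 121775234432659050797783713121028) (nat_lit 3)) .nil)) (.cons (.rf (nat_lit 865) (nat_lit 493858305440582043680)) .nil))) .nil))) (.cons (.br (nat_lit 13) (nat_lit 1) (.cons (.ev (nat_lit 20282409603670117169120472530944) (nat_lit 1)) (.cons (.ev (nat_lit 20282409603651742481545584181504) (nat_lit 1)) (.cons (.br (nat_lit 6) (nat_lit 1) (.cons (.ev (nat_lit 20282409608392555989963915722753) (nat_lit 1)) (.cons (.ev (nat_lit 20282409608374037189391384838401) (nat_lit 1)) .nil))) .nil)))) .nil)))) .nil)))),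
 (.br (nat_lit 10) (nat_lit 0) (.cons (.br (nat_lit 12) (nat_lit 0) (.cons (.kr (nat_lit 40644047369817605185488046588160) (nat_lit 310698676526244235292180480) (nat_lit 1) (nat_lit 0)) .nil)) .nil)),
 (.br (nat_lit 8) (nat_lit 0) (.cons (.rf (nat_lit 857) (nat_lit 14208048929331939584)) (.cons (.rf (nat_lit 866) (nat_lit 493858305440582043680)) (.cons (.br (nat_lit 11) (nat_lit 0) (.cons (.br (nat_lit 9) (nat_lit 0) (.cons (.rf (nat_lit 867) (nat_lit 493858305440582043680)) (.cons (.br (nat_lit 4) (nat_lit 1) (.cons (.br (nat_lit 12) (nat_lit 0) (.cons (.ev (nat_lit 79538880191082223261507322628) (nat_lit 3)) .nil)) (.cons (.br (nat_lit 10) (nat_lit 0) (.cons (.ev (nat_lit 40565440599933955641438764007939) (nat_lit 2)) .nil)) .nil))) .nil))) (.cons (.br (nat_lit 9) (nat_lit 0) (.cons (.rf (nat_lit 867) (nat_lit 493858305440581027872)) (.cons (.br (nat_lit 3) (nat_lit 1) (.cons (.br (nat_lit 12) (nat_lit 0) (.cons (.zr (nat_lit 14222439962313630941184) (nat_lit 20282412021503309654305129234433)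 (nat_lit 5) (nat_lit 13)) .nil)) (.cons (.ev (nat_lit 79537652246524223125968715776) (nat_lit 1)) .nil))) .nil))) (.cons (.rf (nat_lit 583) (nat_lit 493823394672877412576)) .nil)))) .nil))))]

theorem c24 : chkAll C T R L24 (nat_lit 847) = true := by decide +kernel

theorem l24 : (nat_lit 847) + L24.length = (nat_lit 869) := by decide +kernel

/-- part of the certificates -/
def L25 : List Prf := [(.br (nat_lit 7) (nat_lit 0) (.cons (.rf (nat_lit 857) (nat_lit 14242959352335014944)) (.cons (.rf (nat_lit 857) (nat_lit 14242959351293811744)) (.cons (.br (nat_lit 8) (nat_lit 0) (.cons (.rf (nat_lit 860) (nat_lit 14242959524133701664)) (.cons (.rf (nat_lit 860) (nat_lit 14242959523092498464)) (.cons (.br (nat_lit 8) (nat_lit 0) (.cons (.rf (nat_lit 860) (nat_lit 14242959524133701664)) (.cons (.rf (nat_lit 860) (nat_lit 14242959523092498464)) .nil))) .nil)))) (.cons (.br (nat_lit 8) (nat_lit 0) (.cons (.rf (nat_lit 863) (nat_lit 493858305440582043680)) (.cons (.rf (nat_lit 866) (nat_lit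 493858305440582043680)) (.cons (.rf (nat_lit 868) (nat_lit 493858305440582043680)) (.cons (.br (nat_lit 8) (nat_lit 0) (.cons (.rf (nat_lit 863) (nat_lit 493858305440582043680)) (.cons (.rf (nat_lit 866) (nat_lit 493858305440582043680)) (.cons (.rf (nat_lit 868) (nat_lit 493858305440582043680)) .nil)))) .nil))))) .nil))))),
 (.br (nat_lit 7) (nat_lit 0) (.cons (.rf (nat_lit 857) (nat_lit 14242959352335014944)) (.cons (.rf (nat_lit 857) (nat_lit 14242959351293811744)) (.cons (.rf (nat_lit 869) (nat_lit 14242959524133701664)) (.cons (.rf (nat_lit 869) (nat_lit 14242959523092498464)) (.cons (.br (nat_lit 7) (nat_lit 0) (.cons (.rf (nat_lit 857) (nat_lit 14242959352335014944)) (.cons (.rf (nat_lit 857) (nat_lit 14242959351293811744)) (.cons (.rf (nat_lit 869) (nat_lit 14242959524133701664)) (.cons (.rf (nat_lit 869) (nat_lit 14242959523092498464)) .nil))))) .nil)))))),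
 (.br (nat_lit 11) (nat_lit 0) (.cons (.ev (nat_lit 20282413235170014552380774875137) (nat_lit 2)) .nil)),
 (.br (nat_lit 11) (nat_lit 0) (.cons (.ev (nat_lit 310693935640960801706082561) (nat_lit 1)) (.cons (.br (nat_lit 4) (nat_lit 1) (.cons (.br (nat_lit 12) (nat_lit 0) (.cons (.ev (nat_lit 20361637766184453564312349376513) (nat_lit 1)) .nil)) (.cons (.br (nat_lit 9) (nat_lit 0) (.cons (.ev (nat_lit 79550988301853625452306039554) (nat_lit 4)) .nil)) .nil))) .nil))),
 (.br (nat_lit 8) (nat_lit 0) (.cons (.br (nat_lit 9) (nat_lit 0) (.cons (.br (nat_lit 6) (nat_lit 1) (.cons (.ev (nat_lit 1213648258437667346252033) (nat_lit 1)) (.cons (.ev (nat_lit 309489750706912180605878273) (nat_lit 1)) (.cons (.ev (nat_lit 79228162532783421835796611328) (nat_lit 1)) .nil)))) (.cons (.br (nat_lit 12) (nat_lit 0) (.cons (.br (nat_lit 6) (nat_lit 1) (.cons (.rf (nat_lit 871) (nat_lit 493858305440582043680)) (.cons (.rf (nat_lit 871) (nat_lit 493823394846888528128)) .nil))) (.cons (.kr (nat_lit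 4722366482869645213696) (nat_lit 20282409603651670423947251286016) (nat_lit 9) (nat_lit 0)) .nil))) .nil))) (.cons (.br (nat_lit 10) (nat_lit 0) (.cons (.ev (nat_lit 18446745177516146689) (nat_lit 1)) (.cons (.rf (nat_lit 872) (nat_lit 493858305440582043680)) (.cons (.br (nat_lit 11) (nat_lit 0) (.cons (.rf (nat_lit 872) (nat_lit 493823394844743141632)) (.cons (.ev (nat_lit 282574488338689) (nat_lit 1)) (.cons (.br (nat_lit 9) (nat_lit 0) (.cons (.ev (nat_lit 20282410817299928580143932571648) (nat_lit 1)) (.cons (.ev (nat_lit 20282719093383930592054164389888) (nat_lit 1)) .nil))) .nil)))) .nil)))) (.cons (.br (nat_lit 9) (nat_lit 0) (.cons (.br (nat_lit 10) (nat_lit 0) (.cons (.br (nat_lit 6) (nat_lit 1) (.cons (.br (nat_lit 12) (nat_lit 0) (.cons (.ev (nat_lit 121775858247789523195869817668356) (nat_lit 3)) .nil)) (.cons (.br (nat_lit 11) (nat_lit 0) (.cons (.ev (nat_lit 20283341685458737983378019188995) (nat_lit 2)) .nil)) .nil))) (.cons (.br (nat_lit 11) (nat_lit 0) (.cons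 (.br (nat_lit 6) (nat_lit 1) (.cons (.ev (nat_lit 284033278214315632458678686781188) (nat_lit 4)) .nil)) .nil)) .nil))) (.cons (.br (nat_lit 6) (nat_lit 1) (.cons (.ev (nat_lit 1213648258437667346252033) (nat_lit 1)) (.cons (.br (nat_lit 4) (nat_lit 1) (.cons (.br (nat_lit 12) (nat_lit 0) (.cons (.ev (nat_lit 20283031005745392307851409490690) (nat_lit 2)) .nil)) (.cons (.br (nat_lit 10) (nat_lit 0) (.cons (.ev (nat_lit 79538889599066376792350983938) (nat_lit 3)) .nil)) .nil))) (.cons (.br (nat_lit 4) (nat_lit 1) (.cons (.br (nat_lit 11) (nat_lit 0) (.cons (.ev (nat_lit 20284268945747785328103656523520) (nat_lit 3)) .nil)) (.cons (.br (nat_lit 10) (nat_lit 0) (.cons (.ev (nat_lit 79538889599066376792350983938) (nat_lit 3)) .nil)) .nil))) .nil)))) (.cons (.br (nat_lit 10) (nat_lit 0) (.cons (.br (nat_lit 11) (nat_lit 0) (.cons (.br (nat_lit 6) (nat_lit 1) (.cons (.ev (nat_lit 20282409608374037189391384838401) (nat_lit 1)) .nil)) .nil)) (.cons (.br (nat_lit 11) (nat_lit 0) (.cons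 (.ev (nat_lit 310693935640960801706082561) (nat_lit 1)) (.cons (.ev (nat_lit 20282719093383930592054164389888) (nat_lit 1)) .nil))) .nil))) .nil)))) .nil)))),
 (.br (nat_lit 12) (nat_lit 0) (.cons (.ev (nat_lit 309485009893685237267890176) (nat_lit 1)) (.cons (.ev (nat_lit 20282413230484614181505353253634) (nat_lit 2)) .nil))),
 (.br (nat_lit 8) (nat_lit 0) (.cons (.rf (nat_lit 873) (nat_lit 493858305440582043680)) (.cons (.br (nat_lit 6) (nat_lit 1) (.cons (.br (nat_lit 12) (nat_lit 0) (.cons (.ev (nat_lit 79228162532783421835796611328) (nat_lit 1)) (.cons (.br (nat_lit 13) (nat_lit 1) (.cons (.ev (nat_lit 20361637766166007101709321568513) (nat_lit 1)) (.cons (.ev (nat_lit 20361637766184381787093776465921) (nat_lit 1)) .nil))) .nil))) (.cons (.ev (nat_lit 18519083147019223041) (nat_lit 1)) (.cons (.ev (nat_lit 282574488338689) (nat_lit 1)) (.cons (.br (nat_lit 9) (nat_lit 0) (.cons (.ev (nat_lit 4722438821942971662336) (nat_lit 1)) (.cons (.br (nat_lit 13) (nat_lit 1) (.cons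 (.ev (nat_lit 20282409608392555989963915722753) (nat_lit 1)) (.cons (.ev (nat_lit 20282409608374037189391384838401) (nat_lit 1)) .nil))) .nil))) .nil))))) (.cons (.br (nat_lit 9) (nat_lit 0) (.cons (.br (nat_lit 10) (nat_lit 0) (.cons (.br (nat_lit 11) (nat_lit 0) (.cons (.rf (nat_lit 874) (nat_lit 493858305440582043680)) (.cons (.ev (nat_lit 20282413235170014552380774875137) (nat_lit 2)) .nil))) (.cons (.br (nat_lit 11) (nat_lit 0) (.cons (.br (nat_lit 6) (nat_lit 1) (.cons (.ev (nat_lit 202903644635412228099904520130308) (nat_lit 4)) .nil)) .nil)) .nil))) (.cons (.br (nat_lit 6) (nat_lit 1) (.cons (.ev (nat_lit 1213648258437667346252033) (nat_lit 1)) (.cons (.br (nat_lit 3) (nat_lit 1) (.cons (.br (nat_lit 12) (nat_lit 0) (.cons (.ev (nat_lit 243470932431423687149385937650952) (nat_lit 4)) .nil)) (.cons (.ev (nat_lit 79537647524158021735578403073) (nat_lit 1)) .nil))) (.cons (.br (nat_lit 13) (nat_lit 1) (.cons (.ev (nat_lit 20282409608392555989963915722753) (nat_lit 1)) (.cons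 (.ev (nat_lit 20361637766184381787093776465921) (nat_lit 1)) .nil))) .nil)))) (.cons (.br (nat_lit 10) (nat_lit 0) (.cons (.br (nat_lit 11) (nat_lit 0) (.cons (.ev (nat_lit 20283338063403572999625715548417) (nat_lit 2)) .nil)) (.cons (.br (nat_lit 6) (nat_lit 1) (.cons (.rf (nat_lit 874) (nat_lit 493858305440582043680)) (.cons (.br (nat_lit 3) (nat_lit 1) (.cons (.ev (nat_lit 81211039021559679369514022142722) (nat_lit 3)) .nil)) .nil))) .nil))) .nil)))) .nil)))),
 (.br (nat_lit 8) (nat_lit 0) (.cons (.rf (nat_lit 873) (nat_lit 493858305440582043680)) (.cons (.rf (nat_lit 875) (nat_lit 493858305440582043680)) (.cons (.br (nat_lit 6) (nat_lit 1) (.cons (.br (nat_lit 3) (nat_lit 1) (.cons (.br (nat_lit 4) (nat_lit 1) (.cons (.br (nat_lit 12) (nat_lit 0) (.cons (.ev (nat_lit 20282410812596008841347980132353) (nat_lit 1)) .nil)) (.cons (.rf (nat_lit 486) (nat_lit 492741412732994160672)) .nil))) (.cons (.br (nat_lit 10) (nat_lit 0) (.cons (.ev (nat_lit 309489732188109417641672961)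 (nat_lit 1)) (.cons (.ev (nat_lit 20282409603670189225615015608576) (nat_lit 1)) .nil))) (.cons (.br (nat_lit 4) (nat_lit 1) (.cons (.br (nat_lit 11) (nat_lit 0) (.cons (.ev (nat_lit 202907974998290537008537835212554) (nat_lit 4)) .nil)) (.cons (.ev (nat_lit 79537652246524223125968715776) (nat_lit 1)) .nil))) .nil)))) (.cons (.br (nat_lit 4) (nat_lit 1) (.cons (.br (nat_lit 12) (nat_lit 0) (.cons (.ev (nat_lit 4722366483973468585984) (nat_lit 1)) (.cons (.ev (nat_lit 20282409608392555989963915722753) (nat_lit 1)) .nil))) (.cons (.ev (nat_lit 310693935640960801706082561) (nat_lit 1)) (.cons (.br (nat_lit 3) (nat_lit 1) (.cons (.br (nat_lit 11) (nat_lit 0) (.cons (.ev (nat_lit 40565129915424528281762925641731) (nat_lit 2)) .nil)) (.cons (.br (nat_lit 9) (nat_lit 0) (.cons (.ev (nat_lit 40644977047958795883324230664962) (nat_lit 3)) .nil)) .nil))) .nil)))) (.cons (.ev (nat_lit 282574488338689) (nat_lit 1)) (.cons (.br (nat_lit 10) (nat_lit 0) (.cons (.br (nat_lit 11) (nat_lit 0)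 (.cons (.ev (nat_lit 1208925819896108463161344) (nat_lit 1)) (.cons (.ev (nat_lit 20282409603670189225615015608576) (nat_lit 1)) .nil))) (.cons (.br (nat_lit 3) (nat_lit 1) (.cons (.br (nat_lit 11) (nat_lit 0) (.cons (.ev (nat_lit 202906746710546982815196831877898) (nat_lit 4)) .nil)) (.cons (.br (nat_lit 9) (nat_lit 0) (.cons (.ev (nat_lit 20282410817299928580143932571648) (nat_lit 1)) .nil)) .nil))) (.cons (.ev (nat_lit 20282410812577562378744952324353) (nat_lit 1)) .nil)))) .nil))))) .nil)))),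
 (.br (nat_lit 6) (nat_lit 1) (.cons (.ev (nat_lit 1213648258437667346252033) (nat_lit 1)) (.cons (.ev (nat_lit 309489750706912180605878273) (nat_lit 1)) (.cons (.ev (nat_lit 79228162532783421840074801408) (nat_lit 1)) .nil)))),
 (.br (nat_lit 11) (nat_lit 0) (.cons (.ev (nat_lit 20282413235170014552385053065217) (nat_lit 2)) .nil)),
 (.br (nat_lit 6) (nat_lit 1) (.cons (.rf (nat_lit 878) (nat_lit 493858305440582043680)) (.cons (.rf (nat_lit 878) (nat_lit 493823394846888528128)) .nil))),
 (.br (nat_lit 10) (nat_lit 0) (.cons (.ev (nat_lit 79229371458602753890482913281) (nat_lit 1)) (.cons (.ev (nat_lit 311917083972313859328311296) (nat_lit 2)) (.cons (.ev (nat_lit 40723587449379092466172008857600) (nat_lit 2)) .nil)))),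
 (.br (nat_lit 8) (nat_lit 0) (.cons (.br (nat_lit 9) (nat_lit 0) (.cons (.rf (nat_lit 877) (nat_lit 493858305440582043680)) (.cons (.rf (nat_lit 877) (nat_lit 493858305267742153760)) (.cons (.br (nat_lit 12) (nat_lit 0) (.cons (.rf (nat_lit 879) (nat_lit 493858305440582043680)) (.cons (.rf (nat_lit 879) (nat_lit 493858305267742153760)) (.cons (.kr (nat_lit 4722366482869645213696) (nat_lit 20282409603651670423947251286016) (nat_lit 9) (nat_lit 0)) .nil)))) .nil)))) (.cons (.br (nat_lit 11) (nat_lit 0) (.cons (.br (nat_lit 9) (nat_lit 0) (.cons (.br (nat_lit 10) (nat_lit 0) (.cons (.br (nat_lit 12) (nat_lit 0) (.cons (.zr (nat_lit 60847230019880832012370885805568) (nat_lit 1237940039645670456996921346) (nat_lit 10) (nat_lit 3)) .nil)) .nil)) (.cons (.br (nat_lit 12) (nat_lit 0) (.cons (.br (nat_lit 10) (nat_lit 0) (.cons (.ev (nat_lit 243469073113068385793614550075662) (nat_lit 4)) .nil)) (.cons (.kr (nat_lit 4722366482869645213696) (nat_lit 20282409603651670423947251286016)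 (nat_lit 9) (nat_lit 0)) .nil))) .nil))) (.cons (.ev (nat_lit 282574488338689) (nat_lit 1)) (.cons (.br (nat_lit 4) (nat_lit 1) (.cons (.br (nat_lit 6) (nat_lit 1) (.cons (.br (nat_lit 12) (nat_lit 0) (.cons (.ev (nat_lit 80162695248344662132224493316) (nat_lit 3)) .nil)) (.cons (.br (nat_lit 10) (nat_lit 0) (.cons (.ev (nat_lit 80162667024826233763246704386) (nat_lit 3)) .nil)) .nil))) (.cons (.br (nat_lit 6) (nat_lit 1) (.cons (.br (nat_lit 12) (nat_lit 0) (.cons (.ev (nat_lit 20361947255916569615032146526465) (nat_lit 1)) .nil)) (.cons (.ev (nat_lit 1208944338698871427367168) (nat_lit 1)) .nil))) (.cons (.br (nat_lit 6) (nat_lit 1) (.cons (.br (nat_lit 10) (nat_lit 0) (.cons (.ev (nat_lit 80162667024826233763246704386) (nat_lit 3)) .nil)) (.cons (.ev (nat_lit 79538856449977636364769820928) (nat_lit 1)) .nil))) .nil)))) .nil)))) (.cons (.rf (nat_lit 857) (nat_lit 14208048757533252864)) (.cons (.br (nat_lit 4) (nat_lit 1) (.cons (.br (nat_lit 5) (nat_lit 1) (.cons (.br (nat_lit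 6) (nat_lit 1) (.cons (.ev (nat_lit 313111805727499282775474690) (nat_lit 2)) (.cons (.br (nat_lit 11) (nat_lit 0) (.cons (.ev (nat_lit 309489824927642535558579970) (nat_lit 3)) .nil)) .nil))) (.cons (.br (nat_lit 6) (nat_lit 1) (.cons (.br (nat_lit 12) (nat_lit 0) (.cons (.ev (nat_lit 79538880117438794806711485700) (nat_lit 3)) .nil)) (.cons (.br (nat_lit 10) (nat_lit 0) (.cons (.ev (nat_lit 121774001328286296194158103692040) (nat_lit 4)) .nil)) .nil))) (.cons (.br (nat_lit 6) (nat_lit 1) (.cons (.kr (nat_lit 79228162514264337593560727552) (nat_lit 1208925819614633469673472) (nat_lit 3) (nat_lit 0)) (.cons (.br (nat_lit 10) (nat_lit 0) (.cons (.ev (nat_lit 121776486917550355743494553797376) (nat_lit 4)) .nil)) .nil))) .nil)))) (.cons (.br (nat_lit 5) (nat_lit 1) (.cons (.br (nat_lit 6) (nat_lit 1) (.cons (.br (nat_lit 12) (nat_lit 0) (.cons (.ev (nat_lit 121774632406638358891532995464968) (nat_lit 4)) .nil)) (.cons (.ev (nat_lit 4740813508422643286016) (nat_lit 1)) .nil)))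 (.cons (.br (nat_lit 6) (nat_lit 1) (.cons (.br (nat_lit 12) (nat_lit 0) (.cons (.ev (nat_lit 40565128697091085084134666665986) (nat_lit 2)) .nil)) (.cons (.br (nat_lit 9) (nat_lit 0) (.cons (.ev (nat_lit 20282409608374037189391384838401) (nat_lit 1)) .nil)) .nil))) (.cons (.br (nat_lit 6) (nat_lit 1) (.cons (.br (nat_lit 11) (nat_lit 0) (.cons (.ev (nat_lit 80776801340756989504603226372) (nat_lit 3)) .nil)) (.cons (.ev (nat_lit 309485009893685241546080256) (nat_lit 1)) .nil))) .nil)))) (.cons (.br (nat_lit 6) (nat_lit 1) (.cons (.br (nat_lit 5) (nat_lit 1) (.cons (.ev (nat_lit 1213648258437667346252033) (nat_lit 1)) (.cons (.br (nat_lit 10) (nat_lit 0) (.cons (.zr (nat_lit 310693935642088904931213315) (nat_lit 40564819230915173262242762195968) (nat_lit 10) (nat_lit 5)) .nil)) .nil))) (.cons (.br (nat_lit 5) (nat_lit 1) (.cons (.ev (nat_lit 1213648258437667346252033) (nat_lit 1)) (.cons (.br (nat_lit 9) (nat_lit 0) (.cons (.ev (nat_lit 81211034214191033279679362827008) (nat_lit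 3)) .nil)) .nil))) (.cons (.ev (nat_lit 79228162532783420740579885056) (nat_lit 1)) .nil)))) (.cons (.br (nat_lit 5) (nat_lit 1) (.cons (.rf (nat_lit 836) (nat_lit 493857213453736976416)) (.cons (.br (nat_lit 6) (nat_lit 1) (.cons (.ev (nat_lit 1213648258437667346252033) (nat_lit 1)) (.cons (.ev (nat_lit 309485009893685241546080256) (nat_lit 1)) .nil))) (.cons (.br (nat_lit 6) (nat_lit 1) (.cons (.rf (nat_lit 880) (nat_lit 493858305440582043680)) (.cons (.br (nat_lit 9) (nat_lit 0) (.cons (.ev (nat_lit 20282719093383930592054164389888) (nat_lit 1)) .nil)) .nil))) .nil)))) .nil))))) .nil))))),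
 (.br (nat_lit 12) (nat_lit 0) (.cons (.kr (nat_lit 79228167255077564536898715904) (nat_lit 310693935713017291937480704) (nat_lit 1) (nat_lit 0)) .nil)),
 (.br (nat_lit 9) (nat_lit 0) (.cons (.kr (nat_lit 79228167255077564536898715904) (nat_lit 310693935713017291937480704) (nat_lit 1) (nat_lit 0)) .nil)),
 (.br (nat_lit 8) (nat_lit 0) (.cons (.rf (nat_lit 881) (nat_lit 493858305440582043680)) (.cons (.rf (nat_lit 857) (nat_lit 14208048930373142784)) (.cons (.rf (nat_lit 857) (nat_lit 14208048928227756288)) (.cons (.br (nat_lit 6) (nat_lit 1) (.cons (.br (nat_lit 3) (nat_lit 1) (.cons (.br (nat_lit 11) (nat_lit 0) (.cons (.rf (nat_lit 882) (nat_lit 493858305440582043680)) (.cons (.ev (nat_lit 20282409603670189225615015608576) (nat_lit 1)) .nil))) (.cons (.kr (nat_lit 4740813226943371542528) (nat_lit 309485009893403762274336768) (nat_lit 3) (nat_lit 0)) (.cons (.br (nat_lit 4) (nat_lit 1) (.cons (.br (nat_lit 11) (nat_lit 0) (.cons (.ev (nat_lit 20282719093383930592058442579968)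 (nat_lit 1)) .nil)) (.cons (.br (nat_lit 10) (nat_lit 0) (.cons (.zr (nat_lit 23704066134721068794624) (nat_lit 20283030991522953188867508928513) (nat_lit 5) (nat_lit 0)) .nil)) .nil))) .nil)))) (.cons (.br (nat_lit 3) (nat_lit 1) (.cons (.br (nat_lit 4) (nat_lit 1) (.cons (.ev (nat_lit 313111805943952444632334850) (nat_lit 2)) (.cons (.zr (nat_lit 14203992936756371522048) (nat_lit 158456325028600732785420861442) (nat_lit 5) (nat_lit 3)) .nil))) (.cons (.br (nat_lit 4) (nat_lit 1) (.cons (.br (nat_lit 12) (nat_lit 0) (.cons (.zr (nat_lit 14222439681929609478144) (nat_lit 20282412021503309934684872507393) (nat_lit 5) (nat_lit 4)) .nil)) (.cons (.ev (nat_lit 79228162532711082771076939776) (nat_lit 1)) .nil))) (.cons (.br (nat_lit 4) (nat_lit 1) (.cons (.br (nat_lit 11) (nat_lit 0) (.cons (.ev (nat_lit 82026849491244433091372714766) (nat_lit 4)) .nil)) (.cons (.br (nat_lit 9) (nat_lit 0) (.cons (.ev (nat_lit 40644981893106952548685415777028) (nat_lit 3)) .nil)) .nil))) .nil))))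 (.cons (.ev (nat_lit 282574488338689) (nat_lit 1)) (.cons (.br (nat_lit 3) (nat_lit 1) (.cons (.br (nat_lit 4) (nat_lit 1) (.cons (.br (nat_lit 11) (nat_lit 0) (.cons (.ev (nat_lit 81395780694452750503289227008) (nat_lit 3)) .nil)) (.cons (.br (nat_lit 10) (nat_lit 0) (.cons (.ev (nat_lit 40644984310995483575050958079746) (nat_lit 3)) .nil)) .nil))) (.cons (.br (nat_lit 11) (nat_lit 0) (.cons (.rf (nat_lit 883) (nat_lit 493858305440582043680)) (.cons (.ev (nat_lit 20282409603670189225615015608576) (nat_lit 1)) .nil))) (.cons (.br (nat_lit 10) (nat_lit 0) (.cons (.rf (nat_lit 883) (nat_lit 493858305440581027872)) (.cons (.ev (nat_lit 20282409603670189225615015608576) (nat_lit 1)) .nil))) .nil)))) .nil))))) .nil))))),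
 (.br (nat_lit 7) (nat_lit 0) (.cons (.rf (nat_lit 857) (nat_lit 14242959352335014944)) (.cons (.rf (nat_lit 857) (nat_lit 14242959351293811744)) (.cons (.br (nat_lit 2) (nat_lit 0) (.cons (.rf (nat_lit 857) (nat_lit 14242959524133701664)) (.cons (.rf (nat_lit 857) (nat_lit 14242959523092498464)) (.cons (.rf (nat_lit 870) (nat_lit 14242959524133701664)) (.cons (.br (nat_lit 8) (nat_lit 0) (.cons (.rf (nat_lit 873) (nat_lit 493858305440582043680)) (.cons (.rf (nat_lit 875) (nat_lit 493858305440582043680)) (.cons (.rf (nat_lit 876) (nat_lit 493858305440582043680)) (.cons (.br (nat_lit 8) (nat_lit 0) (.cons (.rf (nat_lit 873) (nat_lit 493858305440582043680)) (.cons (.rf (nat_lit 875) (nat_lit 493858305440582043680)) (.cons (.rf (nat_lit 876) (nat_lit 493858305440582043680)) .nil)))) .nil))))) .nil))))) (.cons (.br (nat_lit 2) (nat_lit 0) (.cons (.rf (nat_lit 857) (nat_lit 14242959524133701664)) (.cons (.rf (nat_lit 857) (nat_lit 14242959523092498464)) (.cons (.rf (nat_lit 870)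 (nat_lit 14242959524133701664)) (.cons (.br (nat_lit 8) (nat_lit 0) (.cons (.rf (nat_lit 881) (nat_lit 493858305440582043680)) (.cons (.rf (nat_lit 881) (nat_lit 493858305267742153760)) (.cons (.rf (nat_lit 884) (nat_lit 493858305440582043680)) (.cons (.rf (nat_lit 884) (nat_lit 493858305267742153760)) (.cons (.br (nat_lit 8) (nat_lit 0) (.cons (.rf (nat_lit 881) (nat_lit 493858305440582043680)) (.cons (.rf (nat_lit 881) (nat_lit 493858305267742153760)) (.cons (.rf (nat_lit 884) (nat_lit 493858305440582043680)) (.cons (.rf (nat_lit 884) (nat_lit 493858305267742153760)) .nil))))) .nil)))))) .nil))))) .nil)))))]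

theorem c25 : chkAll C T R L25 (nat_lit 869) = true := by decide +kernel

theorem l25 : (nat_lit 869) + L25.length = (nat_lit 886) := by decide +kernel

/-- part of the certificates -/
def L26 : List Prf := [(.br (nat_lit 2) (nat_lit 0) (.cons (.rf (nat_lit 857) (nat_lit 14242959524133701664)) (.cons (.rf (nat_lit 857) (nat_lit 14242959523092498464)) (.cons (.rf (nat_lit 870) (nat_lit 14242959524133701664)) (.cons (.br (nat_lit 7) (nat_lit 0) (.cons (.rf (nat_lit 857) (nat_lit 14242959352335014944)) (.cons (.rf (nat_lit 857) (nat_lit 14242959351293811744)) (.cons (.rf (nat_lit 885) (nat_lit 493858305268783356960)) (.cons (.rf (nat_lit 885) (nat_lit 493858305267742153760)) (.cons (.rf (nat_lit 885) (nat_lit 493858305440582043680)) .nil)))))) .nil))))),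
 (.br (nat_lit 2) (nat_lit 0) (.cons (.rf (nat_lit 857) (nat_lit 14242959524133701664)) (.cons (.rf (nat_lit 857) (nat_lit 14242959523092498464)) (.cons (.rf (nat_lit 886) (nat_lit 14242959524133701664)) (.cons (.rf (nat_lit 886) (nat_lit 14242959523092498464)) (.cons (.br (nat_lit 2) (nat_lit 0) (.cons (.rf (nat_lit 857) (nat_lit 14242959524133701664)) (.cons (.rf (nat_lit 857) (nat_lit 14242959523092498464)) (.cons (.rf (nat_lit 886) (nat_lit 14242959524133701664)) (.cons (.rf (nat_lit 886) (nat_lit 14242959523092498464)) .nil))))) .nil)))))),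
 (.br (nat_lit 8) (nat_lit 0) (.cons (.br (nat_lit 9) (nat_lit 0) (.cons (.br (nat_lit 12) (nat_lit 0) (.cons (.zr (nat_lit 14222439680830064296704) (nat_lit 237684487542793295359431933953) (nat_lit 5) (nat_lit 0)) .nil)) .nil)) (.cons (.br (nat_lit 11) (nat_lit 0) (.cons (.rf (nat_lit 780) (nat_lit 493821214549623342304)) (.cons (.br (nat_lit 10) (nat_lit 0) (.cons (.ev (nat_lit 310693954087985250880716801) (nat_lit 1)) (.cons (.br (nat_lit 6) (nat_lit 1) (.cons (.zr (nat_lit 928455029464035223354408960) (nat_lit 3626777603241650105090049) (nat_lit 5) (nat_lit 3)) (.cons (.br (nat_lit 9) (nat_lit 0) (.cons (.zr (nat_lit 928455029464035223354408960) (nat_lit 20282412021503454050968181669889) (nat_lit 5) (nat_lit 3)) .nil)) .nil))) .nil))) .nil))) .nil))),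
 (.br (nat_lit 8) (nat_lit 0) (.cons (.br (nat_lit 9) (nat_lit 0) (.cons (.ev (nat_lit 72339069031415809) (nat_lit 1)) (.cons (.br (nat_lit 10) (nat_lit 0) (.cons (.rf (nat_lit 781) (nat_lit 493858305268748819488)) (.cons (.br (nat_lit 6) (nat_lit 1) (.cons (.rf (nat_lit 782) (nat_lit 493858305268748819488)) (.cons (.ev (nat_lit 79229376162450717666868985856) (nat_lit 1)) .nil))) .nil))) .nil))) (.cons (.br (nat_lit 9) (nat_lit 0) (.cons (.br (nat_lit 6) (nat_lit 1) (.cons (.rf (nat_lit 789) (nat_lit 493858305268748819488)) (.cons (.br (nat_lit 10) (nat_lit 0) (.cons (.rf (nat_lit 790) (nat_lit 493858305268748819488)) .nil)) (.cons (.ev (nat_lit 4722366765444150329344) (nat_lit 1)) .nil)))) (.cons (.br (nat_lit 10) (nat_lit 0) (.cons (.br (nat_lit 12) (nat_lit 0) (.cons (.rf (nat_lit 791) (nat_lit 493858305268748819488)) (.cons (.ev (nat_lit 20361638979814120860143421816833) (nat_lit 1)) .nil))) (.cons (.br (nat_lit 11) (nat_lit 0) (.cons (.br (nat_lit 6) (nat_lit 1) (.cons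 (.zr (nat_lit 928455029464035223354408960) (nat_lit 20282412021503454050968181669889) (nat_lit 5) (nat_lit 3)) .nil)) .nil)) .nil))) .nil))) .nil))),
 (.br (nat_lit 8) (nat_lit 0) (.cons (.rf (nat_lit 889) (nat_lit 493858305440582043680)) (.cons (.br (nat_lit 9) (nat_lit 0) (.cons (.br (nat_lit 6) (nat_lit 1) (.cons (.rf (nat_lit 792) (nat_lit 493858305266668444704)) (.cons (.rf (nat_lit 796) (nat_lit 493858305438469163040)) (.cons (.br (nat_lit 13) (nat_lit 1) (.cons (.ev (nat_lit 79229376162522774161378574336) (nat_lit 1)) (.cons (.ev (nat_lit 309485028268370617411043584) (nat_lit 1)) .nil))) .nil)))) (.cons (.ev (nat_lit 72339069031415809) (nat_lit 1)) (.cons (.br (nat_lit 4) (nat_lit 1) (.cons (.br (nat_lit 6) (nat_lit 1) (.cons (.br (nat_lit 12) (nat_lit 0) (.cons (.zr (nat_lit 3626777458846086564216832) (nat_lit 20283028573671313395563972526081) (nat_lit 5) (nat_lit 4)) .nil)) (.cons (.ev (nat_lit 79229376162522774161378574336) (nat_lit 1)) .nil))) (.cons (.br (nat_lit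 6) (nat_lit 1) (.cons (.br (nat_lit 12) (nat_lit 0) (.cons (.zr (nat_lit 3626777458846086564216832) (nat_lit 20283028573671313395563972526081) (nat_lit 5) (nat_lit 6)) .nil)) (.cons (.ev (nat_lit 309485028340429310977442048) (nat_lit 1)) .nil))) (.cons (.br (nat_lit 6) (nat_lit 1) (.cons (.rf (nat_lit 797) (nat_lit 493858305438469163040)) (.cons (.rf (nat_lit 798) (nat_lit 493858305438469163040)) .nil))) .nil)))) .nil)))) .nil))),
 (.br (nat_lit 2) (nat_lit 0) (.cons (.kr (nat_lit 1099511693312) (nat_lit 72057594054705152) (nat_lit 2) (nat_lit 0)) (.cons (.br (nat_lit 8) (nat_lit 0) (.cons (.rf (nat_lit 888) (nat_lit 14242959524133701664)) (.cons (.rf (nat_lit 888) (nat_lit 14242959350122585120)) (.cons (.br (nat_lit 8) (nat_lit 0) (.cons (.rf (nat_lit 888) (nat_lit 14242959524133701664)) (.cons (.rf (nat_lit 888) (nat_lit 14242959350122585120)) .nil))) .nil)))) (.cons (.br (nat_lit 8) (nat_lit 0) (.cons (.rf (nat_lit 889) (nat_lit 493858305440582043680)) (.cons (.rf (nat_lit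 890) (nat_lit 493858305440582043680)) (.cons (.br (nat_lit 8) (nat_lit 0) (.cons (.rf (nat_lit 889) (nat_lit 493858305440582043680)) (.cons (.rf (nat_lit 890) (nat_lit 493858305440582043680)) .nil))) .nil)))) .nil)))),
 (.br (nat_lit 12) (nat_lit 0) (.cons (.ev (nat_lit 20282410812577490039680232652801) (nat_lit 1)) .nil)),
 (.br (nat_lit 5) (nat_lit 1) (.cons (.rf (nat_lit 892) (nat_lit 493858305440582043680)) (.cons (.rf (nat_lit 892) (nat_lit 492741412732994160672)) .nil))),
 (.br (nat_lit 8) (nat_lit 0) (.cons (.rf (nat_lit 887) (nat_lit 14208048927253596416)) (.cons (.br (nat_lit 2) (nat_lit 0) (.cons (.rf (nat_lit 858) (nat_lit 14242952961391172640)) (.cons (.br (nat_lit 9) (nat_lit 0) (.cons (.br (nat_lit 10) (nat_lit 0) (.cons (.br (nat_lit 11) (nat_lit 0) (.cons (.br (nat_lit 12) (nat_lit 0) (.cons (.ev (nat_lit 20361948460101648060312004329473) (nat_lit 1)) .nil)) .nil)) .nil)) (.cons (.br (nat_lit 10) (nat_lit 0) (.cons (.rf (nat_lit 810) (nat_lit 493858305440549537824))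 (.cons (.br (nat_lit 11) (nat_lit 0) (.cons (.zr (nat_lit 23704066134716773828096) (nat_lit 930872881247662231399890945) (nat_lit 5) (nat_lit 0)) (.cons (.ev (nat_lit 20282719093383930309479676051456) (nat_lit 1)) .nil))) .nil))) .nil))) .nil))) (.cons (.br (nat_lit 2) (nat_lit 0) (.cons (.br (nat_lit 9) (nat_lit 0) (.cons (.rf (nat_lit 859) (nat_lit 493858305267644630240)) (.cons (.br (nat_lit 11) (nat_lit 0) (.cons (.ev (nat_lit 72339073309671681) (nat_lit 1)) (.cons (.br (nat_lit 13) (nat_lit 1) (.cons (.zr (nat_lit 2417907123576667553989377) (nat_lit 60847847780974653963091616727040) (nat_lit 10) (nat_lit 0)) (.cons (.ev (nat_lit 20282409608374036907916424904961) (nat_lit 1)) .nil))) .nil))) .nil))) (.cons (.br (nat_lit 9) (nat_lit 0) (.cons (.ev (nat_lit 1103806660609) (nat_lit 1)) (.cons (.br (nat_lit 10) (nat_lit 0) (.cons (.ev (nat_lit 1213666633123051801215233) (nat_lit 1)) (.cons (.rf (nat_lit 893) (nat_lit 493858305440582043680)) .nil))) .nil))) (.cons (.br (nat_lit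 9) (nat_lit 0) (.cons (.br (nat_lit 10) (nat_lit 0) (.cons (.br (nat_lit 11) (nat_lit 0) (.cons (.br (nat_lit 12) (nat_lit 0) (.cons (.ev (nat_lit 40644989193886109841483377479432) (nat_lit 4)) .nil)) .nil)) (.cons (.br (nat_lit 6) (nat_lit 1) (.cons (.br (nat_lit 12) (nat_lit 0) (.cons (.zr (nat_lit 310698676598301829330174464) (nat_lit 237684487542793295359431933953) (nat_lit 5) (nat_lit 0)) .nil)) (.cons (.br (nat_lit 11) (nat_lit 0) (.cons (.ev (nat_lit 83874078846169475467370892546) (nat_lit 4)) .nil)) .nil))) .nil))) (.cons (.br (nat_lit 5) (nat_lit 1) (.cons (.rf (nat_lit 811) (nat_lit 493858305440549537824)) (.cons (.br (nat_lit 13) (nat_lit 1) (.cons (.zr (nat_lit 18963252907773419062528) (nat_lit 621387871354259568637116417) (nat_lit 5) (nat_lit 0)) (.cons (.zr (nat_lit 9481698511480747459328) (nat_lit 158456325028528957765887983617) (nat_lit 5) (nat_lit 0)) .nil))) (.cons (.ev (nat_lit 4722366765444150329344) (nat_lit 1)) .nil)))) (.cons (.br (nat_lit 5) (nat_lit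 1) (.cons (.br (nat_lit 12) (nat_lit 0) (.cons (.rf (nat_lit 812) (nat_lit 493858305440549537824)) (.cons (.ev (nat_lit 20282409608392555709588450639873) (nat_lit 1)) .nil))) (.cons (.br (nat_lit 12) (nat_lit 0) (.cons (.rf (nat_lit 813) (nat_lit 493858305440549537824)) (.cons (.ev (nat_lit 20282409608374036907916424904961) (nat_lit 1)) .nil))) (.cons (.br (nat_lit 13) (nat_lit 1) (.cons (.ev (nat_lit 20282409608392555709588450639873) (nat_lit 1)) (.cons (.ev (nat_lit 20282409608374036907916424904961) (nat_lit 1)) .nil))) .nil)))) .nil)))) .nil)))) .nil)))),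
 (.br (nat_lit 11) (nat_lit 0) (.cons (.br (nat_lit 12) (nat_lit 0) (.cons (.ev (nat_lit 20282719088661564108089285672961) (nat_lit 1)) .nil)) .nil)),
 (.br (nat_lit 9) (nat_lit 0) (.cons (.ev (nat_lit 282574488403969) (nat_lit 1)) (.cons (.br (nat_lit 10) (nat_lit 0) (.cons (.rf (nat_lit 895) (nat_lit 493858305440582043680)) (.cons (.rf (nat_lit 893) (nat_lit 493858305231237023968)) .nil))) .nil))),
 (.br (nat_lit 10) (nat_lit 0) (.cons (.br (nat_lit 11) (nat_lit 0) (.cons (.br (nat_lit 12) (nat_lit 0) (.cons (.ev (nat_lit 20361638979832567884592596451585) (nat_lit 1)) .nil)) .nil)) (.cons (.br (nat_lit 6) (nat_lit 1) (.cons (.rf (nat_lit 808) (nat_lit 493858305438469163040)) (.cons (.br (nat_lit 11) (nat_lit 0) (.cons (.ev (nat_lit 20361638979832567884592596451585) (nat_lit 1)) .nil)) .nil))) .nil))),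
 (.br (nat_lit 11) (nat_lit 0) (.cons (.ev (nat_lit 309485009821626548013236224) (nat_lit 1)) (.cons (.ev (nat_lit 309485009821627647508086784) (nat_lit 1)) (.cons (.ev (nat_lit 20282719088661564108089285672961) (nat_lit 1)) .nil)))),
 (.br (nat_lit 6) (nat_lit 1) (.cons (.br (nat_lit 12) (nat_lit 0) (.cons (.zr (nat_lit 310698695045045903039660544) (nat_lit 237684487542793296458926784513) (nat_lit 5) (nat_lit 0)) .nil)) (.cons (.rf (nat_lit 898) (nat_lit 493858305440582043680)) .nil))),
 (.br (nat_lit 8) (nat_lit 0) (.cons (.rf (nat_lit 887) (nat_lit 14208048927253596416)) (.cons (.rf (nat_lit 887) (nat_lit 14208048928227756288)) (.cons (.br (nat_lit 2) (nat_lit 0) (.cons (.rf (nat_lit 896) (nat_lit 493858305440582043680)) (.cons (.rf (nat_lit 896) (nat_lit 493858305438436657184)) (.cons (.br (nat_lit 9) (nat_lit 0) (.cons (.rf (nat_lit 897) (nat_lit 493858305440582043680)) (.cons (.rf (nat_lit 897) (nat_lit 493858305438436657184)) (.cons (.br (nat_lit 4) (nat_lit 1) (.cons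 (.rf (nat_lit 899) (nat_lit 493858305440582043680)) (.cons (.br (nat_lit 6) (nat_lit 1) (.cons (.rf (nat_lit 899) (nat_lit 493858305438436657184)) (.cons (.ev (nat_lit 309485028340429310977442048) (nat_lit 1)) .nil))) (.cons (.br (nat_lit 6) (nat_lit 1) (.cons (.rf (nat_lit 898) (nat_lit 491554714231182034976)) (.cons (.ev (nat_lit 309485028340147840295698688) (nat_lit 1)) .nil))) .nil)))) .nil)))) .nil)))) .nil)))),
 (.br (nat_lit 8) (nat_lit 0) (.cons (.rf (nat_lit 894) (nat_lit 14242959524133701664)) (.cons (.rf (nat_lit 900) (nat_lit 14242959524133701664)) (.cons (.rf (nat_lit 894) (nat_lit 14242959521988315168)) (.cons (.br (nat_lit 8) (nat_lit 0) (.cons (.rf (nat_lit 894) (nat_lit 14242959524133701664)) (.cons (.rf (nat_lit 900) (nat_lit 14242959524133701664)) (.cons (.rf (nat_lit 894) (nat_lit 14242959521988315168)) .nil)))) .nil))))),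
 (.br (nat_lit 10) (nat_lit 0) (.cons (.br (nat_lit 11) (nat_lit 0) (.cons (.br (nat_lit 12) (nat_lit 0) (.cons (.ev (nat_lit 20361948460101648060312004329473) (nat_lit 1)) .nil)) .nil)) (.cons (.br (nat_lit 6) (nat_lit 1) (.cons (.br (nat_lit 12) (nat_lit 0) (.cons (.ev (nat_lit 20361948460101648060312004329473) (nat_lit 1)) .nil)) (.cons (.br (nat_lit 11) (nat_lit 0) (.cons (.ev (nat_lit 20361948460101648060312004329473) (nat_lit 1)) .nil)) .nil))) .nil))),
 (.br (nat_lit 6) (nat_lit 1) (.cons (.ev (nat_lit 4740885567111897808896) (nat_lit 1)) (.cons (.ev (nat_lit 4722366765448428585216) (nat_lit 1)) .nil))),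
 (.br (nat_lit 8) (nat_lit 0) (.cons (.rf (nat_lit 887) (nat_lit 14208048927253596416)) (.cons (.br (nat_lit 2) (nat_lit 0) (.cons (.rf (nat_lit 901) (nat_lit 14208048757600296192)) (.cons (.rf (nat_lit 891) (nat_lit 14208048757600296192)) (.cons (.br (nat_lit 9) (nat_lit 0) (.cons (.rf (nat_lit 902) (nat_lit 493858305440582043680)) (.cons (.rf (nat_lit 902) (nat_lit 493823394674048638208)) (.cons (.br (nat_lit 12) (nat_lit 0) (.cons (.rf (nat_lit 903) (nat_lit 493858305440582043680)) (.cons (.rf (nat_lit 903) (nat_lit 493823394674048638208)) (.cons (.kr (nat_lit 4722366482869645213696) (nat_lit 20282409603651670423947251286016) (nat_lit 9) (nat_lit 0)) .nil)))) .nil)))) .nil)))) (.cons (.br (nat_lit 2) (nat_lit 0) (.cons (.br (nat_lit 9) (nat_lit 0) (.cons (.br (nat_lit 12) (nat_lit 0) (.cons (.br (nat_lit 10) (nat_lit 0) (.cons (.br (nat_lit 11) (nat_lit 0) (.cons (.ev (nat_lit 20282720297605758127723155292416) (nat_lit 1)) .nil)) .nil)) (.cons (.rf (nat_lit 823) (nat_lit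 493858305440549537824)) .nil))) (.cons (.br (nat_lit 10) (nat_lit 0) (.cons (.br (nat_lit 6) (nat_lit 1) (.cons (.ev (nat_lit 309489732260167011679600641) (nat_lit 1)) (.cons (.rf (nat_lit 824) (nat_lit 493858305440549537824)) .nil))) (.cons (.br (nat_lit 11) (nat_lit 0) (.cons (.br (nat_lit 6) (nat_lit 1) (.cons (.zr (nat_lit 309485102127967456240664579) (nat_lit 40564824043006619308618848141312) (nat_lit 10) (nat_lit 0)) .nil)) .nil)) .nil))) .nil))) (.cons (.br (nat_lit 9) (nat_lit 0) (.cons (.ev (nat_lit 1103806660609) (nat_lit 1)) (.cons (.br (nat_lit 12) (nat_lit 0) (.cons (.br (nat_lit 10) (nat_lit 0) (.cons (.br (nat_lit 11) (nat_lit 0) (.cons (.ev (nat_lit 20282720297605758127723155292416) (nat_lit 1)) .nil)) .nil)) (.cons (.rf (nat_lit 843) (nat_lit 493858305438469163040)) .nil))) (.cons (.br (nat_lit 6) (nat_lit 1) (.cons (.br (nat_lit 5) (nat_lit 1) (.cons (.br (nat_lit 12) (nat_lit 0) (.cons (.ev (nat_lit 20361637766184453564312349376513) (nat_lit 1)) .nil)) (.cons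 (.ev (nat_lit 79228167236703159536498835713) (nat_lit 1)) .nil))) (.cons (.br (nat_lit 5) (nat_lit 1) (.cons (.br (nat_lit 12) (nat_lit 0) (.cons (.ev (nat_lit 20361637766165934762640323641601) (nat_lit 1)) .nil)) (.cons (.ev (nat_lit 79228167255077846011892203521) (nat_lit 1)) .nil))) (.cons (.rf (nat_lit 825) (nat_lit 493858305440549537824)) .nil)))) .nil)))) (.cons (.br (nat_lit 9) (nat_lit 0) (.cons (.br (nat_lit 10) (nat_lit 0) (.cons (.br (nat_lit 6) (nat_lit 1) (.cons (.br (nat_lit 12) (nat_lit 0) (.cons (.ev (nat_lit 40645603262199304318508781864708) (nat_lit 3)) .nil)) (.cons (.br (nat_lit 11) (nat_lit 0) (.cons (.ev (nat_lit 82026849491532670038824127246) (nat_lit 4)) .nil)) .nil))) (.cons (.br (nat_lit 11) (nat_lit 0) (.cons (.br (nat_lit 6) (nat_lit 1) (.cons (.ev (nat_lit 80784073711642993146021872898) (nat_lit 3)) .nil)) .nil)) .nil))) (.cons (.br (nat_lit 11) (nat_lit 0) (.cons (.br (nat_lit 6) (nat_lit 1) (.cons (.rf (nat_lit 826) (nat_lit 493858305440549537824))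 (.cons (.ev (nat_lit 309485028340429315255566336) (nat_lit 1)) .nil))) (.cons (.br (nat_lit 10) (nat_lit 0) (.cons (.rf (nat_lit 827) (nat_lit 493858305440549537824)) (.cons (.ev (nat_lit 20282719093383930309483954176256) (nat_lit 1)) .nil))) (.cons (.ev (nat_lit 20282719093402304995959347675136) (nat_lit 1)) .nil)))) (.cons (.br (nat_lit 10) (nat_lit 0) (.cons (.br (nat_lit 11) (nat_lit 0) (.cons (.br (nat_lit 6) (nat_lit 1) (.cons (.zr (nat_lit 928455029464035223354408960) (nat_lit 20282412021503454050968181669889) (nat_lit 5) (nat_lit 3)) .nil)) .nil)) (.cons (.br (nat_lit 6) (nat_lit 1) (.cons (.ev (nat_lit 309489732260167011679600641) (nat_lit 1)) (.cons (.br (nat_lit 5) (nat_lit 1) (.cons (.zr (nat_lit 309485009822198302633230339) (nat_lit 40564824043006907536787470550272) (nat_lit 10) (nat_lit 5)) .nil)) .nil))) .nil))) .nil)))) .nil)))) .nil)))),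
 (.br (nat_lit 8) (nat_lit 0) (.cons (.rf (nat_lit 887) (nat_lit 14208048927253596416)) (.cons (.rf (nat_lit 887) (nat_lit 14208048928227756288)) (.cons (.br (nat_lit 2) (nat_lit 0) (.cons (.br (nat_lit 9) (nat_lit 0) (.cons (.br (nat_lit 10) (nat_lit 0) (.cons (.br (nat_lit 11) (nat_lit 0) (.cons (.br (nat_lit 12) (nat_lit 0) (.cons (.ev (nat_lit 121775239287177721102626975713028) (nat_lit 3)) .nil)) .nil)) (.cons (.br (nat_lit 12) (nat_lit 0) (.cons (.br (nat_lit 11) (nat_lit 0) (.cons (.ev (nat_lit 20282410812577490321150914396161) (nat_lit 1)) .nil)) (.cons (.ev (nat_lit 20282410812577490039675954397441) (nat_lit 1)) .nil))) .nil))) (.cons (.br (nat_lit 10) (nat_lit 0) (.cons (.br (nat_lit 6) (nat_lit 1) (.cons (.br (nat_lit 12) (nat_lit 0) (.cons (.ev (nat_lit 20361638979832567884592596451585) (nat_lit 1)) .nil)) (.cons (.br (nat_lit 11) (nat_lit 0) (.cons (.ev (nat_lit 284037610947637447212180439108866) (nat_lit 4)) .nil)) .nil))) (.cons (.ev (nat_lit 20282409603670117168025255870464)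 (nat_lit 1)) .nil))) .nil))) (.cons (.br (nat_lit 9) (nat_lit 0) (.cons (.ev (nat_lit 1103806660609) (nat_lit 1)) (.cons (.br (nat_lit 10) (nat_lit 0) (.cons (.br (nat_lit 11) (nat_lit 0) (.cons (.br (nat_lit 12) (nat_lit 0) (.cons (.zr (nat_lit 2422592596571389830365440) (nat_lit 20283028573671313115188507639809) (nat_lit 5) (nat_lit 4)) .nil)) .nil)) (.cons (.br (nat_lit 12) (nat_lit 0) (.cons (.br (nat_lit 11) (nat_lit 0) (.cons (.ev (nat_lit 121774620298268467242121985982722) (nat_lit 3)) .nil)) (.cons (.ev (nat_lit 20282410812577490039675954397441) (nat_lit 1)) .nil))) .nil))) (.cons (.br (nat_lit 4) (nat_lit 1) (.cons (.br (nat_lit 6) (nat_lit 1) (.cons (.br (nat_lit 12) (nat_lit 0) (.cons (.ev (nat_lit 20361638979832567884592596451585) (nat_lit 1)) .nil)) (.cons (.br (nat_lit 11) (nat_lit 0) (.cons (.ev (nat_lit 80781665267699121893488788738) (nat_lit 3)) .nil)) .nil))) (.cons (.br (nat_lit 12) (nat_lit 0) (.cons (.br (nat_lit 10) (nat_lit 0) (.cons (.ev (nat_lit 40564820425692484572302593360385)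 (nat_lit 2)) .nil)) (.cons (.ev (nat_lit 20361947255898194647073203159041) (nat_lit 1)) .nil))) (.cons (.br (nat_lit 6) (nat_lit 1) (.cons (.br (nat_lit 11) (nat_lit 0) (.cons (.ev (nat_lit 202905506324431961066950001230086) (nat_lit 4)) .nil)) (.cons (.ev (nat_lit 309485028340147840295698688) (nat_lit 1)) .nil))) .nil)))) .nil)))) (.cons (.br (nat_lit 11) (nat_lit 0) (.cons (.br (nat_lit 9) (nat_lit 0) (.cons (.br (nat_lit 6) (nat_lit 1) (.cons (.br (nat_lit 12) (nat_lit 0) (.cons (.ev (nat_lit 79541288597988484581576475908) (nat_lit 3)) .nil)) (.cons (.ev (nat_lit 309485028340429315255566336) (nat_lit 1)) .nil))) (.cons (.br (nat_lit 10) (nat_lit 0) (.cons (.br (nat_lit 6) (nat_lit 1) (.cons (.ev (nat_lit 309485009893684142051229696) (nat_lit 1)) .nil)) .nil)) .nil))) (.cons (.rf (nat_lit 655) (nat_lit 493821219806730362944)) (.cons (.br (nat_lit 12) (nat_lit 0) (.cons (.ev (nat_lit 309485028340147840295698688) (nat_lit 1)) (.cons (.br (nat_lit 4) (nat_lit 1) (.cons (.br (nat_lit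 6) (nat_lit 1) (.cons (.ev (nat_lit 83874078662422610670654655746) (nat_lit 4)) .nil)) (.cons (.br (nat_lit 6) (nat_lit 1) (.cons (.ev (nat_lit 83874078883783543953148939522) (nat_lit 4)) .nil)) .nil))) .nil))) .nil)))) .nil)))) .nil))))]

theorem c26 : chkAll C T R L26 (nat_lit 886) = true := by decide +kernel

theorem l26 : (nat_lit 886) + L26.length = (nat_lit 906) := by decide +kernel

/-- part of the certificates -/
def L27 : List Prf := [(.br (nat_lit 10) (nat_lit 0) (.cons (.ev (nat_lit 20282410812577490321150914396161) (nat_lit 1)) .nil)),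
 (.br (nat_lit 8) (nat_lit 0) (.cons (.rf (nat_lit 904) (nat_lit 493858305440582043680)) (.cons (.rf (nat_lit 887) (nat_lit 14208048928227756288)) (.cons (.br (nat_lit 2) (nat_lit 0) (.cons (.br (nat_lit 9) (nat_lit 0) (.cons (.br (nat_lit 6) (nat_lit 1) (.cons (.br (nat_lit 11) (nat_lit 0) (.cons (.br (nat_lit 12) (nat_lit 0) (.cons (.ev (nat_lit 20361948460101648060312004329473) (nat_lit 1)) .nil)) .nil)) (.cons (.rf (nat_lit 795) (nat_lit 493821220905200786496)) (.cons (.ev (nat_lit 79228162532783421840074801408) (nat_lit 1)) .nil)))) (.cons (.br (nat_lit 10) (nat_lit 0) (.cons (.br (nat_lit 11) (nat_lit 0) (.cons (.br (nat_lit 12) (nat_lit 0) (.cons (.ev (nat_lit 79546143080196529694985094916) (nat_lit 3)) .nil)) .nil)) (.cons (.rf (nat_lit 527) (nat_lit 493858305268783356960)) .nil))) (.cons (.br (nat_lit 5) (nat_lit 1) (.cons (.br (nat_lit 6) (nat_lit 1) (.cons (.rf (nat_lit 795) (nat_lit 493786318008088665152)) (.cons (.ev (nat_lit 79229376162522774161378574336) (nat_lit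 1)) .nil))) (.cons (.br (nat_lit 6) (nat_lit 1) (.cons (.ev (nat_lit 310693935640960801706082561) (nat_lit 1)) (.cons (.rf (nat_lit 906) (nat_lit 493858305440582043680)) .nil))) (.cons (.br (nat_lit 6) (nat_lit 1) (.cons (.br (nat_lit 11) (nat_lit 0) (.cons (.ev (nat_lit 20282719093383930590958947729408) (nat_lit 1)) .nil)) (.cons (.rf (nat_lit 906) (nat_lit 492741412732994160672)) .nil))) .nil)))) .nil)))) (.cons (.br (nat_lit 9) (nat_lit 0) (.cons (.br (nat_lit 10) (nat_lit 0) (.cons (.kr (nat_lit 18446744078004518912) (nat_lit 72339069014638592) (nat_lit 4) (nat_lit 0)) (.cons (.br (nat_lit 12) (nat_lit 0) (.cons (.ev (nat_lit 79229376162522774161378574336) (nat_lit 1)) (.cons (.rf (nat_lit 829) (nat_lit 493858305440549537824)) .nil))) .nil))) (.cons (.br (nat_lit 10) (nat_lit 0) (.cons (.br (nat_lit 11) (nat_lit 0) (.cons (.br (nat_lit 12) (nat_lit 0) (.cons (.ev (nat_lit 40565438177341647301516057509890) (nat_lit 2)) .nil)) .nil)) (.cons (.br (nat_lit 4) (nat_lit 1) (.cons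 (.br (nat_lit 12) (nat_lit 0) (.cons (.ev (nat_lit 82014760233191284892544994056) (nat_lit 4)) .nil)) (.cons (.br (nat_lit 11) (nat_lit 0) (.cons (.ev (nat_lit 121775239287288256893337907562244) (nat_lit 3)) .nil)) .nil))) .nil))) (.cons (.br (nat_lit 4) (nat_lit 1) (.cons (.br (nat_lit 6) (nat_lit 1) (.cons (.ev (nat_lit 309489732260167011679600641) (nat_lit 1)) (.cons (.ev (nat_lit 79229376162522774161378574336) (nat_lit 1)) .nil))) (.cons (.br (nat_lit 13) (nat_lit 1) (.cons (.ev (nat_lit 20282410817299928579044404166656) (nat_lit 1)) (.cons (.ev (nat_lit 20361947255898194647073203159041) (nat_lit 1)) .nil))) (.cons (.rf (nat_lit 830) (nat_lit 493858305440549537824)) .nil)))) .nil)))) (.cons (.br (nat_lit 9) (nat_lit 0) (.cons (.br (nat_lit 5) (nat_lit 1) (.cons (.br (nat_lit 11) (nat_lit 0) (.cons (.rf (nat_lit 831) (nat_lit 493858305440549537824)) .nil)) (.cons (.rf (nat_lit 840) (nat_lit 493858305438469163040)) (.cons (.ev (nat_lit 4722366483973468585984) (nat_lit 1))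 .nil)))) (.cons (.br (nat_lit 4) (nat_lit 1) (.cons (.br (nat_lit 13) (nat_lit 1) (.cons (.ev (nat_lit 310693954087985250880716801) (nat_lit 1)) (.cons (.ev (nat_lit 79228167236703159536498835713) (nat_lit 1)) .nil))) (.cons (.rf (nat_lit 795) (nat_lit 493821219805622116416)) (.cons (.ev (nat_lit 79228162532783421840074801408) (nat_lit 1)) .nil)))) (.cons (.br (nat_lit 4) (nat_lit 1) (.cons (.br (nat_lit 12) (nat_lit 0) (.cons (.ev (nat_lit 79228167236703159536498835713) (nat_lit 1)) (.cons (.ev (nat_lit 79230585143826736208364634370) (nat_lit 2)) .nil))) (.cons (.br (nat_lit 5) (nat_lit 1) (.cons (.kr (nat_lit 1208925819614629191483392) (nat_lit 309485009821626543701491712) (nat_lit 3) (nat_lit 0)) (.cons (.br (nat_lit 10) (nat_lit 0) (.cons (.ev (nat_lit 20361948460101576003813183062273) (nat_lit 1)) .nil)) .nil))) (.cons (.br (nat_lit 5) (nat_lit 1) (.cons (.br (nat_lit 11) (nat_lit 0) (.cons (.zr (nat_lit 3626777675016669705011200) (nat_lit 20283028573671313396663484284929)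 (nat_lit 5) (nat_lit 4)) .nil)) (.cons (.rf (nat_lit 841) (nat_lit 493858305438469163040)) .nil))) .nil)))) .nil)))) (.cons (.br (nat_lit 4) (nat_lit 1) (.cons (.br (nat_lit 5) (nat_lit 1) (.cons (.br (nat_lit 6) (nat_lit 1) (.cons (.rf (nat_lit 832) (nat_lit 493858305440549537824)) (.cons (.ev (nat_lit 4740885567111897808896) (nat_lit 1)) .nil))) (.cons (.br (nat_lit 10) (nat_lit 0) (.cons (.kr (nat_lit 18446744078004518912) (nat_lit 72339069014638592) (nat_lit 4) (nat_lit 0)) (.cons (.ev (nat_lit 20282409603670189226714510459136) (nat_lit 1)) .nil))) (.cons (.ev (nat_lit 4722366483973468585984) (nat_lit 1)) .nil)))) (.cons (.br (nat_lit 5) (nat_lit 1) (.cons (.br (nat_lit 6) (nat_lit 1) (.cons (.br (nat_lit 12) (nat_lit 0) (.cons (.ev (nat_lit 40645603262199304318508781864708) (nat_lit 3)) .nil)) (.cons (.ev (nat_lit 79229376162522774161378574336) (nat_lit 1)) .nil))) (.cons (.br (nat_lit 6) (nat_lit 1) (.cons (.br (nat_lit 12) (nat_lit 0) (.cons (.ev (nat_lit 40565438177341647301516057509890)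 (nat_lit 2)) .nil)) (.cons (.br (nat_lit 9) (nat_lit 0) (.cons (.ev (nat_lit 121775855829900990471866979255558) (nat_lit 3)) .nil)) .nil))) (.cons (.br (nat_lit 6) (nat_lit 1) (.cons (.br (nat_lit 11) (nat_lit 0) (.cons (.ev (nat_lit 40565443013044782207794600345604) (nat_lit 3)) .nil)) (.cons (.ev (nat_lit 79229371458530977775699951873) (nat_lit 1)) .nil))) .nil)))) (.cons (.br (nat_lit 5) (nat_lit 1) (.cons (.br (nat_lit 6) (nat_lit 1) (.cons (.ev (nat_lit 309489732188110512858333441) (nat_lit 1)) (.cons (.br (nat_lit 10) (nat_lit 0) (.cons (.ev (nat_lit 80160267951827795602181653248) (nat_lit 3)) .nil)) .nil))) (.cons (.br (nat_lit 6) (nat_lit 1) (.cons (.br (nat_lit 12) (nat_lit 0) (.cons (.ev (nat_lit 20361948460101576003813183062273) (nat_lit 1)) .nil)) (.cons (.br (nat_lit 9) (nat_lit 0) (.cons (.ev (nat_lit 121775855811011813901045323597058) (nat_lit 3)) .nil)) .nil))) (.cons (.br (nat_lit 6) (nat_lit 1) (.cons (.br (nat_lit 10) (nat_lit 0) (.cons (.ev (nat_lit 20361948460101576003813183062273)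 (nat_lit 1)) .nil)) (.cons (.br (nat_lit 9) (nat_lit 0) (.cons (.ev (nat_lit 20282719093383930590958947729408) (nat_lit 1)) .nil)) .nil))) .nil)))) (.cons (.br (nat_lit 5) (nat_lit 1) (.cons (.br (nat_lit 6) (nat_lit 1) (.cons (.br (nat_lit 11) (nat_lit 0) (.cons (.ev (nat_lit 80788890562782484236925079302) (nat_lit 4)) .nil)) (.cons (.br (nat_lit 10) (nat_lit 0) (.cons (.ev (nat_lit 202904884955412962223614155099910) (nat_lit 4)) .nil)) .nil))) (.cons (.br (nat_lit 11) (nat_lit 0) (.cons (.rf (nat_lit 834) (nat_lit 493858305440549537824)) (.cons (.ev (nat_lit 20282409603670189226714510459136) (nat_lit 1)) .nil))) (.cons (.br (nat_lit 10) (nat_lit 0) (.cons (.rf (nat_lit 835) (nat_lit 493858305440549537824)) (.cons (.ev (nat_lit 20282409603670189226714510459136) (nat_lit 1)) .nil))) .nil)))) .nil))))) .nil))))) .nil)))),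
 (.br (nat_lit 7) (nat_lit 0) (.cons (.rf (nat_lit 891) (nat_lit 14242959524133701664)) (.cons (.rf (nat_lit 901) (nat_lit 14242959524133701664)) (.cons (.br (nat_lit 8) (nat_lit 0) (.cons (.rf (nat_lit 904) (nat_lit 493858305440582043680)) (.cons (.rf (nat_lit 905) (nat_lit 493858305440582043680)) (.cons (.rf (nat_lit 907) (nat_lit 493858305440582043680)) (.cons (.br (nat_lit 8) (nat_lit 0) (.cons (.rf (nat_lit 904) (nat_lit 493858305440582043680)) (.cons (.rf (nat_lit 905) (nat_lit 493858305440582043680)) (.cons (.rf (nat_lit 907) (nat_lit 493858305440582043680)) .nil)))) .nil))))) .nil)))),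
 (.br (nat_lit 2) (nat_lit 0) (.cons (.rf (nat_lit 908) (nat_lit 14242959352267971616)) (.cons (.rf (nat_lit 908) (nat_lit 14242959350122585120)) (.cons (.br (nat_lit 7) (nat_lit 0) (.cons (.rf (nat_lit 908) (nat_lit 14242959524133701664)) (.cons (.rf (nat_lit 908) (nat_lit 14242959521988315168)) (.cons (.kr (nat_lit 1099511693312) (nat_lit 72057594054705152) (nat_lit 2) (nat_lit 0)) .nil)))) .nil)))),
 (.br (nat_lit 7) (nat_lit 0) (.cons (.rf (nat_lit 908) (nat_lit 14242959524133701664)) (.cons (.rf (nat_lit 909) (nat_lit 14242959524133701664)) (.cons (.rf (nat_lit 908) (nat_lit 14242959521988315168)) (.cons (.br (nat_lit 7) (nat_lit 0) (.cons (.rf (nat_lit 908) (nat_lit 14242959524133701664)) (.cons (.rf (nat_lit 909) (nat_lit 14242959524133701664)) (.cons (.rf (nat_lit 908) (nat_lit 14242959521988315168)) .nil)))) .nil))))),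
 (.br (nat_lit 8) (nat_lit 0) (.cons (.rf (nat_lit 858) (nat_lit 14242959524101195808)) (.cons (.br (nat_lit 9) (nat_lit 0) (.cons (.rf (nat_lit 859) (nat_lit 493858305440549537824)) (.cons (.br (nat_lit 11) (nat_lit 0) (.cons (.ev (nat_lit 72058693566398721) (nat_lit 1)) (.cons (.br (nat_lit 5) (nat_lit 1) (.cons (.ev (nat_lit 310693954159762465175437313) (nat_lit 1)) (.cons (.ev (nat_lit 79537652246524505704735244288) (nat_lit 1)) .nil))) .nil))) .nil))) .nil))),
 (.br (nat_lit 11) (nat_lit 0) (.cons (.br (nat_lit 12) (nat_lit 0) (.cons (.kr (nat_lit 79229376162522492686401798400) (nat_lit 40565128692331608937036936970240) (nat_lit 1) (nat_lit 0)) .nil)) .nil)),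
 (.br (nat_lit 8) (nat_lit 0) (.cons (.br (nat_lit 9) (nat_lit 0) (.cons (.br (nat_lit 12) (nat_lit 0) (.cons (.ev (nat_lit 79228167255149903610208321793) (nat_lit 1)) .nil)) (.cons (.br (nat_lit 10) (nat_lit 0) (.cons (.rf (nat_lit 912) (nat_lit 493858305440582043680)) (.cons (.br (nat_lit 6) (nat_lit 1) (.cons (.rf (nat_lit 912) (nat_lit 493823394846888528128)) (.cons (.br (nat_lit 11) (nat_lit 0) (.cons (.ev (nat_lit 284035758873503159094378410086148) (nat_lit 4)) .nil)) .nil))) .nil))) .nil))) (.cons (.rf (nat_lit 887) (nat_lit 14208048928294799616)) (.cons (.br (nat_lit 9) (nat_lit 0) (.cons (.br (nat_lit 10) (nat_lit 0) (.cons (.br (nat_lit 12) (nat_lit 0) (.cons (.ev (nat_lit 79230585125236443186494308610) (nat_lit 2)) .nil)) (.cons (.br (nat_lit 11) (nat_lit 0) (.cons (.rf (nat_lit 862) (nat_lit 493858305440549537824)) (.cons (.ev (nat_lit 20283341694921773013953494974721) (nat_lit 2)) .nil))) .nil))) (.cons (.br (nat_lit 12) (nat_lit 0) (.cons (.ev (nat_lit 79228167255149903610208321793)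 (nat_lit 1)) (.cons (.br (nat_lit 5) (nat_lit 1) (.cons (.br (nat_lit 11) (nat_lit 0) (.cons (.ev (nat_lit 40645596036868049178697423718148) (nat_lit 3)) .nil)) (.cons (.rf (nat_lit 865) (nat_lit 493858305440547506208)) .nil))) .nil))) (.cons (.br (nat_lit 5) (nat_lit 1) (.cons (.br (nat_lit 6) (nat_lit 1) (.cons (.ev (nat_lit 310693954159762465175437313) (nat_lit 1)) (.cons (.br (nat_lit 11) (nat_lit 0) (.cons (.ev (nat_lit 80781665267699126291468190978) (nat_lit 3)) .nil)) .nil))) (.cons (.br (nat_lit 6) (nat_lit 1) (.cons (.ev (nat_lit 310693935640960801706082561) (nat_lit 1)) (.cons (.br (nat_lit 10) (nat_lit 0) (.cons (.ev (nat_lit 80781665341774332945345085698) (nat_lit 3)) .nil)) .nil))) (.cons (.br (nat_lit 13) (nat_lit 1) (.cons (.ev (nat_lit 20361637770888301244410457293056) (nat_lit 1)) (.cons (.ev (nat_lit 20361637770906820046082482896896) (nat_lit 1)) .nil))) .nil)))) .nil)))) .nil)))),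
 (.br (nat_lit 5) (nat_lit 1) (.cons (.ev (nat_lit 1213666705180645839077633) (nat_lit 1)) (.cons (.rf (nat_lit 867) (nat_lit 493858305440547506208)) (.cons (.br (nat_lit 10) (nat_lit 0) (.cons (.br (nat_lit 11) (nat_lit 0) (.cons (.ev (nat_lit 83883787883941315727400830210) (nat_lit 4)) .nil)) .nil)) .nil)))),
 (.br (nat_lit 5) (nat_lit 1) (.cons (.br (nat_lit 12) (nat_lit 0) (.cons (.zr (nat_lit 310698694900930714963935744) (nat_lit 237684487542793576830113677313) (nat_lit 5) (nat_lit 0)) .nil)) (.cons (.br (nat_lit 11) (nat_lit 0) (.cons (.ev (nat_lit 83883787883941315727400830210) (nat_lit 4)) .nil)) .nil))),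
 (.br (nat_lit 5) (nat_lit 1) (.cons (.rf (nat_lit 915) (nat_lit 493858305440515000352)) (.cons (.br (nat_lit 10) (nat_lit 0) (.cons (.ev (nat_lit 40644981893180737833939926845188) (nat_lit 3)) .nil)) .nil))),
 (.br (nat_lit 8) (nat_lit 0) (.cons (.rf (nat_lit 887) (nat_lit 14208048928294799616)) (.cons (.rf (nat_lit 887) (nat_lit 14208048928227756288)) (.cons (.br (nat_lit 9) (nat_lit 0) (.cons (.rf (nat_lit 914) (nat_lit 493858305440582043680)) (.cons (.rf (nat_lit 914) (nat_lit 493858305440515000352)) (.cons (.br (nat_lit 3) (nat_lit 1) (.cons (.rf (nat_lit 915) (nat_lit 493858305440582043680)) (.cons (.rf (nat_lit 916) (nat_lit 493858305440582043680)) (.cons (.br (nat_lit 5) (nat_lit 1) (.cons (.rf (nat_lit 915) (nat_lit 493858305440515000352)) (.cons (.rf (nat_lit 916) (nat_lit 493858305440515000352)) .nil))) .nil)))) .nil)))) .nil)))),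
 (.br (nat_lit 7) (nat_lit 0) (.cons (.rf (nat_lit 910) (nat_lit 14242959352335014944)) (.cons (.rf (nat_lit 910) (nat_lit 14242959352267971616)) (.cons (.br (nat_lit 8) (nat_lit 0) (.cons (.rf (nat_lit 911) (nat_lit 14242959524133701664)) (.cons (.rf (nat_lit 911) (nat_lit 14242959524066658336)) (.cons (.br (nat_lit 8) (nat_lit 0) (.cons (.rf (nat_lit 911) (nat_lit 14242959524133701664)) (.cons (.rf (nat_lit 911) (nat_lit 14242959524066658336)) .nil))) .nil)))) (.cons (.br (nat_lit 8) (nat_lit 0) (.cons (.rf (nat_lit 913) (nat_lit 493858305440582043680)) (.cons (.rf (nat_lit 913) (nat_lit 493858305440515000352)) (.cons (.rf (nat_lit 917) (nat_lit 493858305440582043680)) (.cons (.br (nat_lit 8) (nat_lit 0) (.cons (.rf (nat_lit 913) (nat_lit 493858305440582043680)) (.cons (.rf (nat_lit 913) (nat_lit 493858305440515000352)) (.cons (.rf (nat_lit 917) (nat_lit 493858305440582043680)) .nil)))) .nil))))) .nil))))),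
 (.br (nat_lit 7) (nat_lit 0) (.cons (.rf (nat_lit 910) (nat_lit 14242959352335014944)) (.cons (.rf (nat_lit 918) (nat_lit 14242959524133701664)) (.cons (.rf (nat_lit 910) (nat_lit 14242959352267971616)) (.cons (.rf (nat_lit 918) (nat_lit 14242959521988315168)) (.cons (.br (nat_lit 7) (nat_lit 0) (.cons (.rf (nat_lit 910) (nat_lit 14242959352335014944)) (.cons (.rf (nat_lit 918) (nat_lit 14242959524133701664)) (.cons (.rf (nat_lit 910) (nat_lit 14242959352267971616)) (.cons (.rf (nat_lit 918) (nat_lit 14242959521988315168)) .nil))))) .nil)))))),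
 (.br (nat_lit 13) (nat_lit 1) (.cons (.kr (nat_lit 4722366482869645213696) (nat_lit 20282409603651670423947251286016) (nat_lit 9) (nat_lit 0)) (.cons (.ev (nat_lit 20282410812577490039675954397441) (nat_lit 1)) (.cons (.ev (nat_lit 20282719088679938514189214023681) (nat_lit 1)) .nil)))),
 (.br (nat_lit 11) (nat_lit 0) (.cons (.ev (nat_lit 40644367787308823437545811542784) (nat_lit 4)) .nil)),
 (.br (nat_lit 8) (nat_lit 0) (.cons (.br (nat_lit 9) (nat_lit 0) (.cons (.br (nat_lit 12) (nat_lit 0) (.cons (.ev (nat_lit 4722438823038188322816) (nat_lit 1)) (.cons (.rf (nat_lit 920) (nat_lit 493858305440582043680)) .nil))) (.cons (.br (nat_lit 12) (nat_lit 0) (.cons (.br (nat_lit 6) (nat_lit 1) (.cons (.rf (nat_lit 921) (nat_lit 493858305440582043680)) (.cons (.rf (nat_lit 921) (nat_lit 493823394846888528128)) .nil))) (.cons (.kr (nat_lit 4722366482869645213696) (nat_lit 20282409603651670423947251286016) (nat_lit 9) (nat_lit 0)) .nil))) .nil))) (.cons (.rf (nat_lit 887) (nat_lit 14208048928294799616))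 (.cons (.br (nat_lit 11) (nat_lit 0) (.cons (.ev (nat_lit 72058693566398721) (nat_lit 1)) (.cons (.br (nat_lit 5) (nat_lit 1) (.cons (.br (nat_lit 6) (nat_lit 1) (.cons (.br (nat_lit 12) (nat_lit 0) (.cons (.ev (nat_lit 20282410822077707353928256062210) (nat_lit 2)) .nil)) (.cons (.br (nat_lit 10) (nat_lit 0) (.cons (.ev (nat_lit 1218426037211455981486595) (nat_lit 2)) .nil)) .nil))) (.cons (.br (nat_lit 6) (nat_lit 1) (.cons (.br (nat_lit 12) (nat_lit 0) (.cons (.ev (nat_lit 243469694510125425676972709709064) (nat_lit 4)) .nil)) (.cons (.br (nat_lit 9) (nat_lit 0) (.cons (.ev (nat_lit 40645598473608724252249963956994) (nat_lit 4)) .nil)) .nil))) (.cons (.br (nat_lit 10) (nat_lit 0) (.cons (.ev (nat_lit 1208925819897203679821824) (nat_lit 1)) (.cons (.ev (nat_lit 20282410812577490039675954397441) (nat_lit 1)) .nil))) .nil)))) (.cons (.br (nat_lit 10) (nat_lit 0) (.cons (.ev (nat_lit 310693954159762465175437313) (nat_lit 1)) (.cons (.br (nat_lit 5) (nat_lit 1) (.cons (.br (nat_lit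 6) (nat_lit 1) (.cons (.ev (nat_lit 202904882537599084001584344794888) (nat_lit 4)) .nil)) (.cons (.ev (nat_lit 20282410812596008841347980132353) (nat_lit 1)) .nil))) .nil))) .nil)))) .nil)))),
 (.br (nat_lit 5) (nat_lit 1) (.cons (.br (nat_lit 12) (nat_lit 0) (.cons (.ev (nat_lit 79229376162522774161378574336) (nat_lit 1)) (.cons (.ev (nat_lit 20361637766165934762640323641601) (nat_lit 1)) .nil))) (.cons (.br (nat_lit 6) (nat_lit 1) (.cons (.ev (nat_lit 310693935640960801706082561) (nat_lit 1)) (.cons (.br (nat_lit 10) (nat_lit 0) (.cons (.ev (nat_lit 40644362904308378587482330301698) (nat_lit 3)) .nil)) .nil))) (.cons (.br (nat_lit 6) (nat_lit 1) (.cons (.br (nat_lit 11) (nat_lit 0) (.cons (.ev (nat_lit 20282719093383930590958947729408) (nat_lit 1)) .nil)) (.cons (.br (nat_lit 10) (nat_lit 0) (.cons (.ev (nat_lit 121774001337730451008061679141122) (nat_lit 3)) .nil)) .nil))) .nil)))),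
 (.br (nat_lit 5) (nat_lit 1) (.cons (.rf (nat_lit 923) (nat_lit 493858305440515000352)) (.cons (.br (nat_lit 12) (nat_lit 0) (.cons (.br (nat_lit 9) (nat_lit 0) (.cons (.ev (nat_lit 202907356018604221713406272800526) (nat_lit 4)) .nil)) (.cons (.ev (nat_lit 20282410812596008841347980132353) (nat_lit 1)) .nil))) (.cons (.br (nat_lit 11) (nat_lit 0) (.cons (.br (nat_lit 9) (nat_lit 0) (.cons (.ev (nat_lit 121777722420811644148333144509186) (nat_lit 4)) .nil)) (.cons (.ev (nat_lit 20282410812596008841347980132353) (nat_lit 1)) .nil))) .nil))))]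

theorem c27 : chkAll C T R L27 (nat_lit 906) = true := by decide +kernel

theorem l27 : (nat_lit 906) + L27.length = (nat_lit 925) := by decide +kernel

/-- part of the certificates -/
def L28 : List Prf := [(.br (nat_lit 5) (nat_lit 1) (.cons (.rf (nat_lit 923) (nat_lit 493858305440515000352)) (.cons (.rf (nat_lit 924) (nat_lit 493858305440515000352)) (.cons (.br (nat_lit 6) (nat_lit 1) (.cons (.br (nat_lit 10) (nat_lit 0) (.cons (.ev (nat_lit 405728990682484091813047377792792) (nat_lit 5)) .nil)) (.cons (.ev (nat_lit 1208925819897203679821824) (nat_lit 1)) .nil))) .nil)))),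
 (.br (nat_lit 8) (nat_lit 0) (.cons (.rf (nat_lit 887) (nat_lit 14208048928294799616)) (.cons (.rf (nat_lit 887) (nat_lit 14208048928227756288)) (.cons (.br (nat_lit 3) (nat_lit 1) (.cons (.rf (nat_lit 923) (nat_lit 493858305440582043680)) (.cons (.rf (nat_lit 924) (nat_lit 493858305440582043680)) (.cons (.rf (nat_lit 925) (nat_lit 493858305440582043680)) (.cons (.br (nat_lit 5) (nat_lit 1) (.cons (.rf (nat_lit 923) (nat_lit 493858305440515000352)) (.cons (.rf (nat_lit 924) (nat_lit 493858305440515000352)) (.cons (.rf (nat_lit 925) (nat_lit 493858305440515000352)) .nil)))) .nil))))) .nil)))),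
 (.br (nat_lit 11) (nat_lit 0) (.cons (.ev (nat_lit 284033273359796964396804516417292) (nat_lit 4)) .nil)),
 (.br (nat_lit 9) (nat_lit 0) (.cons (.br (nat_lit 10) (nat_lit 0) (.cons (.br (nat_lit 11) (nat_lit 0) (.cons (.ev (nat_lit 81403024805069813679424471300) (nat_lit 3)) .nil)) .nil)) (.cons (.br (nat_lit 6) (nat_lit 1) (.cons (.rf (nat_lit 927) (nat_lit 493858305440582043680)) (.cons (.rf (nat_lit 927) (nat_lit 493823394846888528128)) .nil))) .nil))),
 (.br (nat_lit 5) (nat_lit 1) (.cons (.br (nat_lit 11) (nat_lit 0) (.cons (.br (nat_lit 12) (nat_lit 0) (.cons (.ev (nat_lit 40644984301735364986609378724616) (nat_lit 4)) .nil)) (.cons (.ev (nat_lit 20282409603670189226714510459136) (nat_lit 1)) .nil))) (.cons (.br (nat_lit 13) (nat_lit 1) (.cons (.ev (nat_lit 20282409603670189226714510459136) (nat_lit 1)) (.cons (.ev (nat_lit 20282719088679938514189214023681) (nat_lit 1)) .nil))) (.cons (.br (nat_lit 10) (nat_lit 0) (.cons (.br (nat_lit 11) (nat_lit 0) (.cons (.ev (nat_lit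 83874078661557921741190008066) (nat_lit 4)) .nil)) (.cons (.ev (nat_lit 20282410812577490039675954397441) (nat_lit 1)) .nil))) .nil)))),
 (.br (nat_lit 6) (nat_lit 1) (.cons (.rf (nat_lit 929) (nat_lit 493858305266637970464)) (.cons (.br (nat_lit 9) (nat_lit 0) (.cons (.ev (nat_lit 310703398820672813729513986) (nat_lit 2)) (.cons (.ev (nat_lit 20282720297587311665120127549696) (nat_lit 1)) .nil))) (.cons (.br (nat_lit 5) (nat_lit 1) (.cons (.br (nat_lit 11) (nat_lit 0) (.cons (.ev (nat_lit 81395780694452748304299525888) (nat_lit 3)) .nil)) (.cons (.ev (nat_lit 158768227926883582090856760065) (nat_lit 2)) .nil))) .nil)))),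
 (.br (nat_lit 6) (nat_lit 1) (.cons (.rf (nat_lit 929) (nat_lit 493858305266637970464)) (.cons (.rf (nat_lit 930) (nat_lit 493858305266637970464)) (.cons (.br (nat_lit 5) (nat_lit 1) (.cons (.ev (nat_lit 79537652283562107940769038595) (nat_lit 2)) (.cons (.br (nat_lit 9) (nat_lit 0) (.cons (.ev (nat_lit 79538889524991172294681756930) (nat_lit 3)) .nil)) .nil))) .nil)))),
 (.br (nat_lit 8) (nat_lit 0) (.cons (.rf (nat_lit 887) (nat_lit 14208048930440186112)) (.cons (.br (nat_lit 12) (nat_lit 0) (.cons (.rf (nat_lit 928) (nat_lit 493858305440582043680)) (.cons (.rf (nat_lit 928) (nat_lit 493858305266637970464)) (.cons (.rf (nat_lit 920) (nat_lit 493858305440582043680)) .nil)))) (.cons (.rf (nat_lit 887) (nat_lit 14208048928294799616)) (.cons (.br (nat_lit 4) (nat_lit 1) (.cons (.rf (nat_lit 929) (nat_lit 493858305440582043680)) (.cons (.rf (nat_lit 930) (nat_lit 493858305440582043680)) (.cons (.rf (nat_lit 931) (nat_lit 493858305440582043680)) (.cons (.br (nat_lit 6) (nat_lit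 1) (.cons (.rf (nat_lit 929) (nat_lit 493858305266637970464)) (.cons (.rf (nat_lit 930) (nat_lit 493858305266637970464)) (.cons (.rf (nat_lit 931) (nat_lit 493858305266637970464)) .nil)))) .nil))))) .nil))))),
 (.br (nat_lit 5) (nat_lit 1) (.cons (.br (nat_lit 12) (nat_lit 0) (.cons (.br (nat_lit 11) (nat_lit 0) (.cons (.ev (nat_lit 81395780694452750503289227008) (nat_lit 3)) .nil)) (.cons (.ev (nat_lit 20361637766165934762640323641601) (nat_lit 1)) .nil))) (.cons (.br (nat_lit 6) (nat_lit 1) (.cons (.ev (nat_lit 310703399037123768040292866) (nat_lit 2)) (.cons (.br (nat_lit 10) (nat_lit 0) (.cons (.ev (nat_lit 121775853412049351805541336549120) (nat_lit 3)) .nil)) .nil))) (.cons (.br (nat_lit 6) (nat_lit 1) (.cons (.ev (nat_lit 79228167236703159536498835713) (nat_lit 1)) (.cons (.br (nat_lit 10) (nat_lit 0) (.cons (.ev (nat_lit 121777727237846525996197218943746) (nat_lit 4)) .nil)) .nil))) .nil)))),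
 (.br (nat_lit 5) (nat_lit 1) (.cons (.rf (nat_lit 933) (nat_lit 493858305440515000352)) (.cons (.br (nat_lit 6) (nat_lit 1) (.cons (.rf (nat_lit 882) (nat_lit 493858305440549537824)) (.cons (.zr (nat_lit 79847132552425829411625894144) (nat_lit 3626777458844987052654593) (nat_lit 5) (nat_lit 5)) .nil))) (.cons (.br (nat_lit 6) (nat_lit 1) (.cons (.ev (nat_lit 4740885285641216065536) (nat_lit 1)) (.cons (.br (nat_lit 9) (nat_lit 0) (.cons (.ev (nat_lit 121774001337693701635102335893762) (nat_lit 3)) .nil)) .nil))) .nil)))),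
 (.br (nat_lit 5) (nat_lit 1) (.cons (.rf (nat_lit 933) (nat_lit 493858305440515000352)) (.cons (.rf (nat_lit 934) (nat_lit 493858305440515000352)) (.cons (.br (nat_lit 6) (nat_lit 1) (.cons (.br (nat_lit 10) (nat_lit 0) (.cons (.zr (nat_lit 14222583796022435119872) (nat_lit 20282412021503310498730059366401) (nat_lit 5) (nat_lit 0)) .nil)) (.cons (.ev (nat_lit 158768227927027137636053549825) (nat_lit 2)) .nil))) .nil)))),
 (.br (nat_lit 8) (nat_lit 0) (.cons (.rf (nat_lit 887) (nat_lit 14208048930440186112)) (.cons (.rf (nat_lit 887) (nat_lit 14208048927253596416)) (.cons (.kr (nat_lit 281474976776192) (nat_lit 72057598332895232) (nat_lit 2) (nat_lit 0)) (.cons (.br (nat_lit 3) (nat_lit 1) (.cons (.rf (nat_lit 933) (nat_lit 493858305440582043680)) (.cons (.rf (nat_lit 934) (nat_lit 493858305440582043680)) (.cons (.rf (nat_lit 935) (nat_lit 493858305440582043680)) (.cons (.br (nat_lit 5) (nat_lit 1) (.cons (.rf (nat_lit 933) (nat_lit 493858305440515000352)) (.cons (.rf (nat_lit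 934) (nat_lit 493858305440515000352)) (.cons (.rf (nat_lit 935) (nat_lit 493858305440515000352)) .nil)))) .nil))))) .nil))))),
 (.br (nat_lit 7) (nat_lit 0) (.cons (.rf (nat_lit 910) (nat_lit 14242959352335014944)) (.cons (.br (nat_lit 2) (nat_lit 0) (.cons (.rf (nat_lit 910) (nat_lit 14242959524133701664)) (.cons (.rf (nat_lit 910) (nat_lit 14242959524066658336)) (.cons (.rf (nat_lit 919) (nat_lit 14242959524133701664)) (.cons (.br (nat_lit 8) (nat_lit 0) (.cons (.rf (nat_lit 922) (nat_lit 493858305440582043680)) (.cons (.rf (nat_lit 922) (nat_lit 493858305440515000352)) (.cons (.rf (nat_lit 926) (nat_lit 493858305440582043680)) (.cons (.br (nat_lit 8) (nat_lit 0) (.cons (.rf (nat_lit 922) (nat_lit 493858305440582043680)) (.cons (.rf (nat_lit 922) (nat_lit 493858305440515000352)) (.cons (.rf (nat_lit 926) (nat_lit 493858305440582043680)) .nil)))) .nil))))) .nil))))) (.cons (.rf (nat_lit 910) (nat_lit 14242959352267971616)) (.cons (.br (nat_lit 2) (nat_lit 0) (.cons (.rf (nat_lit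 910) (nat_lit 14242959524133701664)) (.cons (.rf (nat_lit 910) (nat_lit 14242959524066658336)) (.cons (.rf (nat_lit 919) (nat_lit 14242959524133701664)) (.cons (.br (nat_lit 8) (nat_lit 0) (.cons (.rf (nat_lit 932) (nat_lit 493858305440582043680)) (.cons (.rf (nat_lit 936) (nat_lit 493858305440582043680)) (.cons (.rf (nat_lit 932) (nat_lit 493858305440515000352)) (.cons (.rf (nat_lit 936) (nat_lit 493858305266637970464)) (.cons (.br (nat_lit 8) (nat_lit 0) (.cons (.rf (nat_lit 932) (nat_lit 493858305440582043680)) (.cons (.rf (nat_lit 936) (nat_lit 493858305440582043680)) (.cons (.rf (nat_lit 932) (nat_lit 493858305440515000352)) (.cons (.rf (nat_lit 936) (nat_lit 493858305266637970464)) .nil))))) .nil)))))) .nil))))) .nil))))),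
 (.br (nat_lit 2) (nat_lit 0) (.cons (.rf (nat_lit 910) (nat_lit 14242959524133701664)) (.cons (.rf (nat_lit 910) (nat_lit 14242959524066658336)) (.cons (.rf (nat_lit 919) (nat_lit 14242959524133701664)) (.cons (.br (nat_lit 7) (nat_lit 0) (.cons (.rf (nat_lit 910) (nat_lit 14242959352335014944)) (.cons (.rf (nat_lit 937) (nat_lit 493858305268783356960)) (.cons (.rf (nat_lit 910) (nat_lit 14242959352267971616)) (.cons (.rf (nat_lit 937) (nat_lit 493858305266637970464)) (.cons (.rf (nat_lit 937) (nat_lit 493858305440582043680)) .nil)))))) .nil))))),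
 (.br (nat_lit 2) (nat_lit 0) (.cons (.rf (nat_lit 910) (nat_lit 14242959524133701664)) (.cons (.rf (nat_lit 938) (nat_lit 14242959524133701664)) (.cons (.rf (nat_lit 910) (nat_lit 14242959524066658336)) (.cons (.rf (nat_lit 938) (nat_lit 14242959521988315168)) (.cons (.br (nat_lit 2) (nat_lit 0) (.cons (.rf (nat_lit 910) (nat_lit 14242959524133701664)) (.cons (.rf (nat_lit 938) (nat_lit 14242959524133701664)) (.cons (.rf (nat_lit 910) (nat_lit 14242959524066658336)) (.cons (.rf (nat_lit 938) (nat_lit 14242959521988315168)) .nil))))) .nil)))))),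
 (.br (nat_lit 12) (nat_lit 0) (.cons (.ev (nat_lit 20282719088661564108085007482881) (nat_lit 1)) .nil)),
 (.br (nat_lit 6) (nat_lit 1) (.cons (.rf (nat_lit 940) (nat_lit 493858305440582043680)) (.cons (.rf (nat_lit 940) (nat_lit 491554714231182034976)) .nil))),
 (.br (nat_lit 11) (nat_lit 0) (.cons (.kr (nat_lit 79228167255077564536898715904) (nat_lit 310693935713017291937480704) (nat_lit 1) (nat_lit 0)) .nil)),
 (.br (nat_lit 10) (nat_lit 0) (.cons (.br (nat_lit 13) (nat_lit 1) (.cons (.ev (nat_lit 310693954087985250880716801) (nat_lit 1)) (.cons (.ev (nat_lit 79228167236703159536498835713) (nat_lit 1)) .nil))) (.cons (.br (nat_lit 6) (nat_lit 1) (.cons (.ev (nat_lit 310693935713298766930968833) (nat_lit 1)) (.cons (.rf (nat_lit 942) (nat_lit 493858305440582043680)) .nil))) .nil))),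
 (.br (nat_lit 11) (nat_lit 0) (.cons (.kr (nat_lit 79228167255077564536898715904) (nat_lit 310693935713017291937480704) (nat_lit 1) (nat_lit 0)) .nil)),
 (.br (nat_lit 11) (nat_lit 0) (.cons (.ev (nat_lit 20361637766184381787093776465921) (nat_lit 1)) .nil)),
 (.br (nat_lit 6) (nat_lit 1) (.cons (.br (nat_lit 11) (nat_lit 0) (.cons (.kr (nat_lit 79228167255077564536898715904) (nat_lit 310693935713017291937480704) (nat_lit 1) (nat_lit 0)) .nil)) (.cons (.br (nat_lit 10) (nat_lit 0) (.cons (.kr (nat_lit 79228167255077564536898715904) (nat_lit 310693935713017291937480704) (nat_lit 1) (nat_lit 0)) .nil)) .nil))),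
 (.br (nat_lit 8) (nat_lit 0) (.cons (.rf (nat_lit 887) (nat_lit 14208048927253596416)) (.cons (.rf (nat_lit 939) (nat_lit 14208048929398982912)) (.cons (.br (nat_lit 2) (nat_lit 0) (.cons (.br (nat_lit 9) (nat_lit 0) (.cons (.br (nat_lit 11) (nat_lit 0) (.cons (.ev (nat_lit 309489750706630705645879553) (nat_lit 1)) (.cons (.rf (nat_lit 941) (nat_lit 493858305440582043680)) .nil))) (.cons (.br (nat_lit 11) (nat_lit 0) (.cons (.br (nat_lit 6) (nat_lit 1) (.cons (.br (nat_lit 12) (nat_lit 0) (.cons (.ev (nat_lit 81403024915461484821413562116) (nat_lit 3)) .nil)) (.cons (.br (nat_lit 10) (nat_lit 0) (.cons (.ev (nat_lit 79546114856390427294115889410) (nat_lit 3)) .nil)) .nil))) (.cons (.ev (nat_lit 309489750706630705645879553) (nat_lit 1)) .nil))) .nil))) (.cons (.br (nat_lit 9) (nat_lit 0) (.cons (.rf (nat_lit 943) (nat_lit 493858305440582043680)) (.cons (.rf (nat_lit 943) (nat_lit 493823394674048638208)) (.cons (.br (nat_lit 13) (nat_lit 1) (.cons (.ev (nat_lit 20282409603670117168020977680384)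 (nat_lit 1)) (.cons (.ev (nat_lit 20282409603651742481545584181504) (nat_lit 1)) (.cons (.br (nat_lit 5) (nat_lit 1) (.cons (.br (nat_lit 6) (nat_lit 1) (.cons (.ev (nat_lit 81403024841675638807281730308) (nat_lit 3)) .nil)) (.cons (.br (nat_lit 6) (nat_lit 1) (.cons (.ev (nat_lit 81403024841675638807281730308) (nat_lit 3)) .nil)) .nil))) .nil)))) .nil)))) (.cons (.br (nat_lit 9) (nat_lit 0) (.cons (.br (nat_lit 10) (nat_lit 0) (.cons (.br (nat_lit 6) (nat_lit 1) (.cons (.ev (nat_lit 309489732260167011679600641) (nat_lit 1)) (.cons (.rf (nat_lit 944) (nat_lit 493858305440582043680)) .nil))) (.cons (.br (nat_lit 11) (nat_lit 0) (.cons (.br (nat_lit 6) (nat_lit 1) (.cons (.zr (nat_lit 928455029464035223354408960) (nat_lit 20282412021503454050968181669889) (nat_lit 5) (nat_lit 3)) .nil)) .nil)) .nil))) (.cons (.br (nat_lit 5) (nat_lit 1) (.cons (.br (nat_lit 6) (nat_lit 1) (.cons (.ev (nat_lit 310693954159762469453627393) (nat_lit 1)) (.cons (.rf (nat_lit 945) (nat_lit 493858305440582043680))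 .nil))) (.cons (.br (nat_lit 6) (nat_lit 1) (.cons (.br (nat_lit 12) (nat_lit 0) (.cons (.ev (nat_lit 20361637766166007100609826717953) (nat_lit 1)) .nil)) (.cons (.ev (nat_lit 79228167255149623230465114113) (nat_lit 1)) .nil))) (.cons (.rf (nat_lit 946) (nat_lit 493858305440582043680)) .nil)))) (.cons (.br (nat_lit 10) (nat_lit 0) (.cons (.ev (nat_lit 20282410817318303265524075725056) (nat_lit 1)) (.cons (.br (nat_lit 5) (nat_lit 1) (.cons (.br (nat_lit 6) (nat_lit 1) (.cons (.ev (nat_lit 80788947378175518710160099082) (nat_lit 4)) .nil)) (.cons (.br (nat_lit 6) (nat_lit 1) (.cons (.ev (nat_lit 79543706412590114893820265730) (nat_lit 3)) .nil)) .nil))) .nil))) .nil)))) .nil)))) .nil)))),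
 (.br (nat_lit 11) (nat_lit 0) (.cons (.ev (nat_lit 79228167255077564541210460161) (nat_lit 1)) (.cons (.ev (nat_lit 20361638979832567884588318261505) (nat_lit 1)) .nil))),
 (.br (nat_lit 10) (nat_lit 0) (.cons (.br (nat_lit 11) (nat_lit 0) (.cons (.br (nat_lit 12) (nat_lit 0) (.cons (.ev (nat_lit 20361948460120022465316716019713) (nat_lit 1)) .nil)) .nil)) (.cons (.br (nat_lit 6) (nat_lit 1) (.cons (.ev (nat_lit 310693935713298766930968833) (nat_lit 1)) (.cons (.rf (nat_lit 942) (nat_lit 493858305440549537824)) .nil))) .nil))),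
 (.br (nat_lit 10) (nat_lit 0) (.cons (.ev (nat_lit 20361637766166007100609826717953) (nat_lit 1)) .nil)),
 (.br (nat_lit 8) (nat_lit 0) (.cons (.rf (nat_lit 887) (nat_lit 14208048927253596416)) (.cons (.rf (nat_lit 887) (nat_lit 14208048928227756288)) (.cons (.br (nat_lit 2) (nat_lit 0) (.cons (.br (nat_lit 9) (nat_lit 0) (.cons (.br (nat_lit 12) (nat_lit 0) (.cons (.ev (nat_lit 4722438821938659917824) (nat_lit 1)) (.cons (.br (nat_lit 6) (nat_lit 1) (.cons (.rf (nat_lit 948) (nat_lit 493858305440582043680)) (.cons (.rf (nat_lit 948) (nat_lit 493823394675022798080)) .nil))) .nil))) (.cons (.br (nat_lit 10) (nat_lit 0) (.cons (.br (nat_lit 11) (nat_lit 0) (.cons (.kr (nat_lit 309485009821346168236474368) (nat_lit 1208925891672223229411328) (nat_lit 2) (nat_lit 0)) (.cons (.rf (nat_lit 845) (nat_lit 493823394880207068224)) .nil))) (.cons (.rf (nat_lit 845) (nat_lit 493858305231237023968)) .nil))) .nil))) (.cons (.br (nat_lit 9) (nat_lit 0) (.cons (.rf (nat_lit 949) (nat_lit 493858305440582043680))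 (.cons (.rf (nat_lit 949) (nat_lit 493823394672877411584)) (.cons (.br (nat_lit 4) (nat_lit 1) (.cons (.br (nat_lit 6) (nat_lit 1) (.cons (.br (nat_lit 12) (nat_lit 0) (.cons (.ev (nat_lit 79235420810428729273756943620) (nat_lit 3)) .nil)) (.cons (.ev (nat_lit 79228167236630821566995759361) (nat_lit 1)) .nil))) (.cons (.br (nat_lit 6) (nat_lit 1) (.cons (.kr (nat_lit 309485009821346168236474368) (nat_lit 1208925891672223229411328) (nat_lit 2) (nat_lit 0)) (.cons (.rf (nat_lit 950) (nat_lit 493858305440582043680)) .nil))) (.cons (.br (nat_lit 6) (nat_lit 1) (.cons (.rf (nat_lit 950) (nat_lit 493823394672877411584)) (.cons (.ev (nat_lit 79228167255077846011892203521) (nat_lit 1)) .nil))) .nil)))) .nil)))) (.cons (.br (nat_lit 9) (nat_lit 0) (.cons (.br (nat_lit 10) (nat_lit 0) (.cons (.br (nat_lit 12) (nat_lit 0) (.cons (.rf (nat_lit 944) (nat_lit 493858305440549537824)) (.cons (.ev (nat_lit 20282410812595936782654447354113) (nat_lit 1)) .nil))) (.cons (.br (nat_lit 11) (nat_lit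 0) (.cons (.br (nat_lit 6) (nat_lit 1) (.cons (.zr (nat_lit 3626777675016669705011200) (nat_lit 20283028573671313396663484284929) (nat_lit 5) (nat_lit 4)) .nil)) .nil)) .nil))) (.cons (.br (nat_lit 4) (nat_lit 1) (.cons (.br (nat_lit 6) (nat_lit 1) (.cons (.ev (nat_lit 310693954159762469453627393) (nat_lit 1)) (.cons (.ev (nat_lit 79230585143754398238861426946) (nat_lit 2)) .nil))) (.cons (.br (nat_lit 10) (nat_lit 0) (.cons (.br (nat_lit 12) (nat_lit 0) (.cons (.ev (nat_lit 20361637766166007100609826717953) (nat_lit 1)) .nil)) (.cons (.kr (nat_lit 309485009821346168236474368) (nat_lit 1208925891672223229411328) (nat_lit 2) (nat_lit 0)) .nil))) (.cons (.rf (nat_lit 946) (nat_lit 493858305440549537824)) .nil)))) (.cons (.br (nat_lit 10) (nat_lit 0) (.cons (.br (nat_lit 6) (nat_lit 1) (.cons (.ev (nat_lit 310693954159762469453627393) (nat_lit 1)) (.cons (.ev (nat_lit 79228167236630821566995759361) (nat_lit 1)) .nil))) (.cons (.br (nat_lit 12) (nat_lit 0) (.cons (.ev (nat_lit 20282410812595936782654447354113)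 (nat_lit 1)) (.cons (.ev (nat_lit 20282409608392555991059132383233) (nat_lit 1)) .nil))) .nil))) .nil)))) .nil)))) .nil))))]

theorem c28 : chkAll C T R L28 (nat_lit 925) = true := by decide +kernel

theorem l28 : (nat_lit 925) + L28.length = (nat_lit 952) := by decide +kernel

end Pool.Agent.H93.Neg.Q14_4_4_0_4_2
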