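import Pool.Agent.H93.Neg.TabQ14_4_4_0_4_2

/-!
Certificates.
-/

set_option autoImplicit false
set_option maxRecDepth 100000
set_option linter.all false

namespace Pool.Agent.H93.Neg.Q14_4_4_0_4_2

/-- part of the certificates -/
def L29 : List Prf := [(.br (nat_lit 11) (nat_lit 0) (.cons (.kr (nat_lit 79228167255077564536898715904) (nat_lit 310693935713017291937480704) (nat_lit 1) (nat_lit 0)) .nil)),
 (.br (nat_lit 6) (nat_lit 1) (.cons (.br (nat_lit 11) (nat_lit 0) (.cons (.kr (nat_lit 79228167255077564536898715904) (nat_lit 310693935713017291937480704) (nat_lit 1) (nat_lit 0)) .nil)) (.cons (.br (nat_lit 10) (nat_lit 0) (.cons (.kr (nat_lit 79228167255077564536898715904) (nat_lit 310693935713017291937480704) (nat_lit 1) (nat_lit 0)) .nil)) .nil))),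
 (.br (nat_lit 2) (nat_lit 0) (.cons (.br (nat_lit 11) (nat_lit 0) (.cons (.ev (nat_lit 309489750706630705645879553) (nat_lit 1)) (.cons (.br (nat_lit 6) (nat_lit 1) (.cons (.br (nat_lit 12) (nat_lit 0) (.cons (.zr (nat_lit 23611834103198086333696) (nat_lit 20283030991559845832602882801665) (nat_lit 5) (nat_lit 3)) .nil)) (.cons (.br (nat_lit 10) (nat_lit 0) (.cons (.ev (nat_lit 40644360495790935974683286503682) (nat_lit 3)) .nil)) .nil))) .nil))) (.cons (.br (nat_lit 10) (nat_lit 0) (.cons (.br (nat_lit 11) (nat_lit 0) (.cons (.br (nat_lit 12) (nat_lit 0) (.cons (.ev (nat_lit 20361948460120022465316716019713) (nat_lit 1)) .nil)) .nil)) (.cons (.br (nat_lit 5) (nat_lit 1) (.cons (.ev (nat_lit 310693935640960797427892481) (nat_lit 1)) (.cons (.rf (nat_lit 952) (nat_lit 493858305440582043680)) .nil))) .nil))) (.cons (.br (nat_lit 5) (nat_lit 1) (.cons (.br (nat_lit 13) (nat_lit 1) (.cons (.ev (nat_lit 20282409603670189226714510459136) (nat_lit 1)) (.cons (.ev (nat_lit 20282410812595936782654447354113)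 (nat_lit 1)) .nil))) (.cons (.br (nat_lit 6) (nat_lit 1) (.cons (.br (nat_lit 12) (nat_lit 0) (.cons (.zr (nat_lit 23611834103198086333696) (nat_lit 20283030991559845832602882801665) (nat_lit 5) (nat_lit 3)) .nil)) (.cons (.ev (nat_lit 309485028268370617411043584) (nat_lit 1)) .nil))) (.cons (.rf (nat_lit 953) (nat_lit 493858305440582043680)) .nil)))) .nil)))),
 (.br (nat_lit 12) (nat_lit 0) (.cons (.ev (nat_lit 20282410812577490321150914396161) (nat_lit 1)) .nil)),
 (.br (nat_lit 10) (nat_lit 0) (.cons (.ev (nat_lit 1208925819897207958011904) (nat_lit 1)) (.cons (.ev (nat_lit 20282410812577562377645457473793) (nat_lit 1)) .nil))),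
 (.br (nat_lit 8) (nat_lit 0) (.cons (.rf (nat_lit 939) (nat_lit 14208048929398982912)) (.cons (.rf (nat_lit 887) (nat_lit 14208048928227756288)) (.cons (.br (nat_lit 9) (nat_lit 0) (.cons (.rf (nat_lit 954) (nat_lit 493858305440582043680)) (.cons (.br (nat_lit 2) (nat_lit 0) (.cons (.br (nat_lit 10) (nat_lit 0) (.cons (.br (nat_lit 11) (nat_lit 0) (.cons (.br (nat_lit 12) (nat_lit 0) (.cons (.ev (nat_lit 121695077833930930449581724796676) (nat_lit 3)) .nil)) .nil)) (.cons (.br (nat_lit 6) (nat_lit 1) (.cons (.rf (nat_lit 955) (nat_lit 493858305440582043680)) (.cons (.rf (nat_lit 955) (nat_lit 492741412732994160672)) .nil))) .nil))) (.cons (.rf (nat_lit 954) (nat_lit 493823394843634895104)) (.cons (.br (nat_lit 4) (nat_lit 1) (.cons (.br (nat_lit 6) (nat_lit 1) (.cons (.ev (nat_lit 309489732260167011679600641) (nat_lit 1)) (.cons (.br (nat_lit 11) (nat_lit 0) (.cons (.ev (nat_lit 40565128701758039555378505580801) (nat_lit 2)) .nil)) .nil))) (.cons (.br (nat_lit 12) (nat_lit 0) (.cons (.rf (nat_lit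 956) (nat_lit 493858305440582043680)) (.cons (.kr (nat_lit 309485009821346168236474368) (nat_lit 79228162514336395187598655488) (nat_lit 2) (nat_lit 0)) .nil))) (.cons (.rf (nat_lit 953) (nat_lit 493858305440549537824)) .nil)))) .nil)))) (.cons (.ev (nat_lit 72339069031415809) (nat_lit 1)) (.cons (.br (nat_lit 2) (nat_lit 0) (.cons (.br (nat_lit 10) (nat_lit 0) (.cons (.br (nat_lit 6) (nat_lit 1) (.cons (.br (nat_lit 12) (nat_lit 0) (.cons (.zr (nat_lit 3640944558294695550124800) (nat_lit 20283957028700777430783031902209) (nat_lit 5) (nat_lit 13)) .nil)) (.cons (.br (nat_lit 11) (nat_lit 0) (.cons (.zr (nat_lit 3640944558294695550124800) (nat_lit 20283957028700777430783031902209) (nat_lit 5) (nat_lit 6)) .nil)) .nil))) (.cons (.br (nat_lit 5) (nat_lit 1) (.cons (.br (nat_lit 12) (nat_lit 0) (.cons (.ev (nat_lit 20283340486014400423773511680770) (nat_lit 2)) .nil)) (.cons (.br (nat_lit 11) (nat_lit 0) (.cons (.ev (nat_lit 40645603262199160205528386306308) (nat_lit 3)) .nil)) .nil))) (.cons (.ev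 (nat_lit 20282409603670117168020977680384) (nat_lit 1)) .nil)))) (.cons (.br (nat_lit 4) (nat_lit 1) (.cons (.br (nat_lit 6) (nat_lit 1) (.cons (.br (nat_lit 12) (nat_lit 0) (.cons (.ev (nat_lit 243474665613097702598710466905872) (nat_lit 5)) .nil)) (.cons (.br (nat_lit 11) (nat_lit 0) (.cons (.ev (nat_lit 162343155743615092125244267364614) (nat_lit 4)) .nil)) .nil))) (.cons (.br (nat_lit 6) (nat_lit 1) (.cons (.br (nat_lit 12) (nat_lit 0) (.cons (.ev (nat_lit 20283340485977507500783625634050) (nat_lit 2)) .nil)) (.cons (.br (nat_lit 10) (nat_lit 0) (.cons (.ev (nat_lit 20283340476569812138371240231680) (nat_lit 2)) .nil)) .nil))) (.cons (.br (nat_lit 6) (nat_lit 1) (.cons (.br (nat_lit 11) (nat_lit 0) (.cons (.ev (nat_lit 40646222251034482418188955223814) (nat_lit 3)) .nil)) (.cons (.br (nat_lit 10) (nat_lit 0) (.cons (.ev (nat_lit 202907360835639683397471573444366) (nat_lit 4)) .nil)) .nil))) .nil)))) (.cons (.br (nat_lit 4) (nat_lit 1) (.cons (.br (nat_lit 5) (nat_lit 1) (.cons (.br (nat_lit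 12) (nat_lit 0) (.cons (.ev (nat_lit 79235420810501067243260413188) (nat_lit 3)) .nil)) (.cons (.ev (nat_lit 79228167236703159536498835713) (nat_lit 1)) .nil))) (.cons (.br (nat_lit 5) (nat_lit 1) (.cons (.kr (nat_lit 1208925819614629191483392) (nat_lit 309485009821626543701491712) (nat_lit 3) (nat_lit 0)) (.cons (.rf (nat_lit 353) (nat_lit 491587434390446350400)) .nil))) (.cons (.br (nat_lit 5) (nat_lit 1) (.cons (.rf (nat_lit 353) (nat_lit 492740320950162129984)) (.cons (.ev (nat_lit 79228167255149623230465114113) (nat_lit 1)) .nil))) .nil)))) (.cons (.br (nat_lit 4) (nat_lit 1) (.cons (.br (nat_lit 6) (nat_lit 1) (.cons (.br (nat_lit 5) (nat_lit 1) (.cons (.ev (nat_lit 80781665267841554828774016258) (nat_lit 3)) .nil)) (.cons (.ev (nat_lit 79229376162522774161378574336) (nat_lit 1)) .nil))) (.cons (.br (nat_lit 6) (nat_lit 1) (.cons (.br (nat_lit 5) (nat_lit 1) (.cons (.ev (nat_lit 20282413244651641571420772958723) (nat_lit 2)) .nil)) (.cons (.rf (nat_lit 956) (nat_lit 493858305440582043680))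 .nil))) (.cons (.br (nat_lit 5) (nat_lit 1) (.cons (.ev (nat_lit 79228162514264338697367388416) (nat_lit 1)) (.cons (.br (nat_lit 6) (nat_lit 1) (.cons (.ev (nat_lit 243469694500828990615324202042122) (nat_lit 4)) .nil)) .nil))) .nil)))) .nil))))) .nil))))) .nil)))),
 (.br (nat_lit 8) (nat_lit 0) (.cons (.rf (nat_lit 947) (nat_lit 493858305440582043680)) (.cons (.rf (nat_lit 951) (nat_lit 493858305440582043680)) (.cons (.rf (nat_lit 957) (nat_lit 493858305440582043680)) (.cons (.br (nat_lit 8) (nat_lit 0) (.cons (.rf (nat_lit 947) (nat_lit 493858305440582043680)) (.cons (.rf (nat_lit 951) (nat_lit 493858305440582043680)) (.cons (.rf (nat_lit 957) (nat_lit 493858305440582043680)) .nil)))) .nil))))),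
 (.br (nat_lit 10) (nat_lit 0) (.cons (.br (nat_lit 11) (nat_lit 0) (.cons (.br (nat_lit 12) (nat_lit 0) (.cons (.ev (nat_lit 20361948460120094524005970673665) (nat_lit 1)) .nil)) .nil)) (.cons (.br (nat_lit 12) (nat_lit 0) (.cons (.br (nat_lit 11) (nat_lit 0) (.cons (.zr (nat_lit 1856910058928923646256807939) (nat_lit 40564824066618739951135696617472) (nat_lit 10) (nat_lit 5)) .nil)) (.cons (.ev (nat_lit 20282409608392555709588450639873) (nat_lit 1)) .nil))) .nil))),
 (.br (nat_lit 6) (nat_lit 1) (.cons (.br (nat_lit 12) (nat_lit 0) (.cons (.ev (nat_lit 81403024841675638807281730308) (nat_lit 3)) .nil)) (.cons (.br (nat_lit 11) (nat_lit 0) (.cons (.ev (nat_lit 83883806921123061019492287758) (nat_lit 4)) .nil)) .nil))),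
 (.br (nat_lit 6) (nat_lit 1) (.cons (.br (nat_lit 12) (nat_lit 0) (.cons (.ev (nat_lit 81403024841675638807281730308) (nat_lit 3)) .nil)) (.cons (.br (nat_lit 10) (nat_lit 0) (.cons (.ev (nat_lit 83874116625099086590224958730) (nat_lit 4)) .nil)) .nil))),
 (.br (nat_lit 12) (nat_lit 0) (.cons (.ev (nat_lit 309485028268089146729300224) (nat_lit 1)) (.cons (.ev (nat_lit 20282410812595937064125129097473) (nat_lit 1)) .nil))),
 (.br (nat_lit 8) (nat_lit 0) (.cons (.rf (nat_lit 887) (nat_lit 14208048927253596416)) (.cons (.rf (nat_lit 939) (nat_lit 14208048929398982912)) (.cons (.br (nat_lit 2) (nat_lit 0) (.cons (.br (nat_lit 9) (nat_lit 0) (.cons (.rf (nat_lit 959) (nat_lit 493858305440582043680)) (.cons (.rf (nat_lit 959) (nat_lit 493823394674048638208)) (.cons (.br (nat_lit 5) (nat_lit 1) (.cons (.rf (nat_lit 960) (nat_lit 493858305440582043680)) (.cons (.rf (nat_lit 961) (nat_lit 493858305440582043680)) (.cons (.br (nat_lit 6) (nat_lit 1) (.cons (.rf (nat_lit 961) (nat_lit 493823394674048638208))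 (.cons (.rf (nat_lit 960) (nat_lit 493823394674048638208)) .nil))) .nil)))) .nil)))) (.cons (.rf (nat_lit 958) (nat_lit 493823394674048638208)) (.cons (.br (nat_lit 11) (nat_lit 0) (.cons (.br (nat_lit 5) (nat_lit 1) (.cons (.br (nat_lit 12) (nat_lit 0) (.cons (.rf (nat_lit 946) (nat_lit 493858305439541856288)) (.cons (.ev (nat_lit 20282409608374036907916424904961) (nat_lit 1)) .nil))) (.cons (.br (nat_lit 6) (nat_lit 1) (.cons (.rf (nat_lit 962) (nat_lit 493858305440582043680)) (.cons (.ev (nat_lit 1208925819897207958011904) (nat_lit 1)) .nil))) (.cons (.br (nat_lit 6) (nat_lit 1) (.cons (.br (nat_lit 10) (nat_lit 0) (.cons (.zr (nat_lit 1209018055590096121364483) (nat_lit 40566057147342914458575618441216) (nat_lit 10) (nat_lit 6)) .nil)) (.cons (.br (nat_lit 9) (nat_lit 0) (.cons (.ev (nat_lit 82633730363948478301565814022) (nat_lit 4)) .nil)) .nil))) .nil)))) (.cons (.ev (nat_lit 72339073309671681) (nat_lit 1)) (.cons (.br (nat_lit 9) (nat_lit 0) (.cons (.br (nat_lit 5) (nat_lit 1) (.cons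 (.zr (nat_lit 2436833338881105494804225) (nat_lit 60849085721013939343375089205248) (nat_lit 10) (nat_lit 0)) (.cons (.ev (nat_lit 20282409608374036907916424904961) (nat_lit 1)) .nil))) (.cons (.br (nat_lit 10) (nat_lit 0) (.cons (.br (nat_lit 5) (nat_lit 1) (.cons (.zr (nat_lit 1208925891675521747584259) (nat_lit 40566057147342626791127978606592) (nat_lit 10) (nat_lit 0)) .nil)) .nil)) .nil))) .nil)))) .nil)))) .nil)))),
 (.br (nat_lit 9) (nat_lit 0) (.cons (.br (nat_lit 10) (nat_lit 0) (.cons (.rf (nat_lit 795) (nat_lit 493858305440582042688)) (.cons (.rf (nat_lit 527) (nat_lit 493858305267742147808)) .nil))) (.cons (.br (nat_lit 12) (nat_lit 0) (.cons (.ev (nat_lit 79228167255077846016170459393) (nat_lit 1)) (.cons (.br (nat_lit 5) (nat_lit 1) (.cons (.br (nat_lit 11) (nat_lit 0) (.cons (.zr (nat_lit 14167099450807975674624) (nat_lit 20283028573671313395563972657153) (nat_lit 5) (nat_lit 6)) .nil)) (.cons (.br (nat_lit 10) (nat_lit 0) (.cons (.ev (nat_lit 20282410812577490321150914396161)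 (nat_lit 1)) .nil)) .nil))) .nil))) (.cons (.br (nat_lit 5) (nat_lit 1) (.cons (.br (nat_lit 6) (nat_lit 1) (.cons (.br (nat_lit 12) (nat_lit 0) (.cons (.zr (nat_lit 14167099450807975674624) (nat_lit 20283028573671313395563972657153) (nat_lit 5) (nat_lit 13)) .nil)) (.cons (.ev (nat_lit 1208944266640182172713216) (nat_lit 1)) .nil))) (.cons (.br (nat_lit 6) (nat_lit 1) (.cons (.br (nat_lit 12) (nat_lit 0) (.cons (.ev (nat_lit 20283032209930398693346796176130) (nat_lit 2)) .nil)) (.cons (.rf (nat_lit 906) (nat_lit 492741412525794527456)) .nil))) (.cons (.br (nat_lit 6) (nat_lit 1) (.cons (.br (nat_lit 11) (nat_lit 0) (.cons (.ev (nat_lit 20282410817299928860519397654528) (nat_lit 1)) .nil)) (.cons (.rf (nat_lit 906) (nat_lit 493858305233382410464)) .nil))) .nil)))) .nil)))),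
 (.br (nat_lit 11) (nat_lit 0) (.cons (.br (nat_lit 12) (nat_lit 0) (.cons (.ev (nat_lit 20282409608374108964415246237953) (nat_lit 1)) .nil)) .nil)),
 (.br (nat_lit 10) (nat_lit 0) (.cons (.rf (nat_lit 965) (nat_lit 493858305440582043680)) (.cons (.br (nat_lit 6) (nat_lit 1) (.cons (.rf (nat_lit 965) (nat_lit 493823394846821484800)) (.cons (.rf (nat_lit 952) (nat_lit 493858305439541856288)) .nil))) .nil))),
 (.br (nat_lit 6) (nat_lit 1) (.cons (.br (nat_lit 12) (nat_lit 0) (.cons (.ev (nat_lit 81403024841963864802567062276) (nat_lit 3)) .nil)) (.cons (.br (nat_lit 11) (nat_lit 0) (.cons (.ev (nat_lit 121775860646825771700311918969606) (nat_lit 3)) .nil)) .nil))),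
 (.br (nat_lit 6) (nat_lit 1) (.cons (.br (nat_lit 13) (nat_lit 1) (.cons (.ev (nat_lit 20282410817299928860519397654528) (nat_lit 1)) (.cons (.ev (nat_lit 20282410812595936782654447354113) (nat_lit 1)) .nil))) (.cons (.br (nat_lit 5) (nat_lit 1) (.cons (.br (nat_lit 12) (nat_lit 0) (.cons (.zr (nat_lit 14167099450807975674624) (nat_lit 20283028573671313395563972657153) (nat_lit 5) (nat_lit 4)) .nil)) (.cons (.br (nat_lit 10) (nat_lit 0) (.cons (.ev (nat_lit 40644362904308379708975634253058) (nat_lit 3)) .nil)) .nil))) (.cons (.rf (nat_lit 953) (nat_lit 493858305439541856288)) .nil)))),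
 (.br (nat_lit 6) (nat_lit 1) (.cons (.rf (nat_lit 968) (nat_lit 493858305438436657184)) (.cons (.br (nat_lit 12) (nat_lit 0) (.cons (.br (nat_lit 9) (nat_lit 0) (.cons (.ev (nat_lit 82633730363950167125656274182) (nat_lit 4)) .nil)) (.cons (.ev (nat_lit 20361637766166007100614104842241) (nat_lit 1)) .nil))) (.cons (.br (nat_lit 9) (nat_lit 0) (.cons (.br (nat_lit 11) (nat_lit 0) (.cons (.ev (nat_lit 40644979475365993223109870946054) (nat_lit 3)) .nil)) (.cons (.ev (nat_lit 20282410812595937064125129097473) (nat_lit 1)) .nil))) .nil)))),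
 (.br (nat_lit 6) (nat_lit 1) (.cons (.rf (nat_lit 968) (nat_lit 493858305438436657184)) (.cons (.rf (nat_lit 969) (nat_lit 493858305438436657184)) (.cons (.br (nat_lit 5) (nat_lit 1) (.cons (.br (nat_lit 10) (nat_lit 0) (.cons (.ev (nat_lit 40646222251108268827144450540294) (nat_lit 3)) .nil)) (.cons (.ev (nat_lit 1208925819897207958011904) (nat_lit 1)) .nil))) .nil)))),
 (.br (nat_lit 8) (nat_lit 0) (.cons (.rf (nat_lit 887) (nat_lit 14208048927253596416)) (.cons (.rf (nat_lit 887) (nat_lit 14208048928227756288)) (.cons (.br (nat_lit 2) (nat_lit 0) (.cons (.rf (nat_lit 964) (nat_lit 493858305440582043680)) (.cons (.br (nat_lit 9) (nat_lit 0) (.cons (.rf (nat_lit 966) (nat_lit 493858305440582043680)) (.cons (.rf (nat_lit 966) (nat_lit 493858305438436657184)) (.cons (.br (nat_lit 4) (nat_lit 1) (.cons (.rf (nat_lit 967) (nat_lit 493858305440582043680)) (.cons (.rf (nat_lit 967) (nat_lit 493823394846821484800)) (.cons (.br (nat_lit 6) (nat_lit 1) (.cons (.rf (nat_lit 967) (nat_lit 493858305438436657184))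 (.cons (.rf (nat_lit 967) (nat_lit 493823394844676098304)) .nil))) .nil)))) .nil)))) (.cons (.rf (nat_lit 964) (nat_lit 493858305438436657184)) (.cons (.br (nat_lit 4) (nat_lit 1) (.cons (.rf (nat_lit 968) (nat_lit 493858305440582043680)) (.cons (.rf (nat_lit 969) (nat_lit 493858305440582043680)) (.cons (.rf (nat_lit 970) (nat_lit 493858305440582043680)) (.cons (.br (nat_lit 6) (nat_lit 1) (.cons (.rf (nat_lit 953) (nat_lit 493858305439476844576)) (.cons (.rf (nat_lit 969) (nat_lit 493858305438436657184)) (.cons (.rf (nat_lit 970) (nat_lit 493858305438436657184)) .nil)))) .nil))))) .nil))))) .nil)))),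
 (.br (nat_lit 8) (nat_lit 0) (.cons (.rf (nat_lit 963) (nat_lit 493858305440582043680)) (.cons (.rf (nat_lit 971) (nat_lit 493858305440582043680)) (.cons (.rf (nat_lit 963) (nat_lit 493858305438436657184)) (.cons (.br (nat_lit 8) (nat_lit 0) (.cons (.rf (nat_lit 963) (nat_lit 493858305440582043680)) (.cons (.rf (nat_lit 971) (nat_lit 493858305440582043680)) (.cons (.rf (nat_lit 963) (nat_lit 493858305438436657184)) .nil)))) .nil))))),
 (.br (nat_lit 10) (nat_lit 0) (.cons (.br (nat_lit 11) (nat_lit 0) (.cons (.br (nat_lit 6) (nat_lit 1) (.cons (.zr (nat_lit 928455029464035223354408960) (nat_lit 20282412021503454050968181669889) (nat_lit 5) (nat_lit 3)) .nil)) .nil)) (.cons (.br (nat_lit 5) (nat_lit 1) (.cons (.zr (nat_lit 930872881247379674091618304) (nat_lit 20282409627355736561962559996417) (nat_lit 10) (nat_lit 3)) (.cons (.ev (nat_lit 20361638979814120860143421816833) (nat_lit 1)) .nil))) .nil))),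
 (.br (nat_lit 8) (nat_lit 0) (.cons (.rf (nat_lit 887) (nat_lit 14208048927253596416)) (.cons (.rf (nat_lit 939) (nat_lit 14208048929398982912)) (.cons (.br (nat_lit 2) (nat_lit 0) (.cons (.rf (nat_lit 972) (nat_lit 493823394674048638208)) (.cons (.rf (nat_lit 958) (nat_lit 493823394674048638208)) (.cons (.br (nat_lit 9) (nat_lit 0) (.cons (.rf (nat_lit 973) (nat_lit 493858305440582043680)) (.cons (.rf (nat_lit 973) (nat_lit 493823394674048638208)) .nil))) .nil)))) .nil))))]

theorem c29 : chkAll C T R L29 (nat_lit 952) = true := by decide +kernel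

theorem l29 : (nat_lit 952) + L29.length = (nat_lit 975) := by decide +kernel

/-- part of the certificates -/
def L30 : List Prf := [(.br (nat_lit 11) (nat_lit 0) (.cons (.kr (nat_lit 79228167255077564536898715904) (nat_lit 310693935713017291937480704) (nat_lit 1) (nat_lit 0)) .nil)),
 (.br (nat_lit 11) (nat_lit 0) (.cons (.ev (nat_lit 79228162532711363142230212609) (nat_lit 1)) (.cons (.br (nat_lit 13) (nat_lit 1) (.cons (.rf (nat_lit 975) (nat_lit 455774704780903024672)) (.cons (.rf (nat_lit 975) (nat_lit 455739795286654093536)) .nil))) .nil))),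
 (.br (nat_lit 6) (nat_lit 1) (.cons (.br (nat_lit 12) (nat_lit 0) (.cons (.ev (nat_lit 284036380298931722030785508082952) (nat_lit 4)) .nil)) (.cons (.br (nat_lit 11) (nat_lit 0) (.cons (.ev (nat_lit 243471561053996447374755529821442) (nat_lit 4)) .nil)) .nil))),
 (.br (nat_lit 11) (nat_lit 0) (.cons (.zr (nat_lit 396140812608215178318490632704) (nat_lit 20283341685458593584515926720512) (nat_lit 10) (nat_lit 4)) .nil)),
 (.br (nat_lit 11) (nat_lit 0) (.cons (.br (nat_lit 6) (nat_lit 1) (.cons (.ev (nat_lit 20361948460120022746787397763073) (nat_lit 1)) .nil)) .nil)),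
 (.br (nat_lit 12) (nat_lit 0) (.cons (.br (nat_lit 10) (nat_lit 0) (.cons (.kr (nat_lit 79228167255077564536898715904) (nat_lit 310693935713017291937480704) (nat_lit 1) (nat_lit 0)) .nil)) (.cons (.ev (nat_lit 20282409608374108964410934427649) (nat_lit 1)) .nil))),
 (.br (nat_lit 5) (nat_lit 1) (.cons (.br (nat_lit 11) (nat_lit 0) (.cons (.kr (nat_lit 79228167255077564536898715904) (nat_lit 310693935713017291937480704) (nat_lit 1) (nat_lit 0)) .nil)) (.cons (.br (nat_lit 10) (nat_lit 0) (.cons (.kr (nat_lit 79228167255077564536898715904) (nat_lit 310693935713017291937480704) (nat_lit 1) (nat_lit 0)) .nil)) .nil))),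
 (.br (nat_lit 10) (nat_lit 0) (.cons (.ev (nat_lit 310693954159762465158594561) (nat_lit 1)) (.cons (.ev (nat_lit 1208925891673327036006656) (nat_lit 1)) (.cons (.ev (nat_lit 20282720297605830186412409880576) (nat_lit 1)) .nil)))),
 (.br (nat_lit 11) (nat_lit 0) (.cons (.br (nat_lit 6) (nat_lit 1) (.cons (.ev (nat_lit 20361637766166007100614104842241) (nat_lit 1)) .nil)) .nil)),
 (.br (nat_lit 6) (nat_lit 1) (.cons (.ev (nat_lit 1208925819897203679887616) (nat_lit 1)) .nil)),
 (.br (nat_lit 8) (nat_lit 0) (.cons (.rf (nat_lit 887) (nat_lit 14208048927253596416)) (.cons (.rf (nat_lit 887) (nat_lit 14208048928227756288)) (.cons (.br (nat_lit 2) (nat_lit 0) (.cons (.br (nat_lit 9) (nat_lit 0) (.cons (.br (nat_lit 10) (nat_lit 0) (.cons (.br (nat_lit 6) (nat_lit 1) (.cons (.br (nat_lit 12) (nat_lit 0) (.cons (.ev (nat_lit 81210415234763407001168568713988) (nat_lit 3)) .nil)) (.cons (.rf (nat_lit 357) (nat_lit 492741412732994159680)) .nil))) (.cons (.ev (nat_lit 20282410817299928579044404101376)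 (nat_lit 1)) .nil))) (.cons (.br (nat_lit 10) (nat_lit 0) (.cons (.br (nat_lit 12) (nat_lit 0) (.cons (.rf (nat_lit 800) (nat_lit 493858305440582042688)) (.cons (.ev (nat_lit 20282410812577490039675954397441) (nat_lit 1)) .nil))) (.cons (.br (nat_lit 11) (nat_lit 0) (.cons (.br (nat_lit 12) (nat_lit 0) (.cons (.ev (nat_lit 20283037064523144211449663259908) (nat_lit 3)) .nil)) (.cons (.ev (nat_lit 20282410817299928860519397654528) (nat_lit 1)) .nil))) (.cons (.rf (nat_lit 591) (nat_lit 493858305268783356960)) .nil)))) (.cons (.br (nat_lit 10) (nat_lit 0) (.cons (.br (nat_lit 11) (nat_lit 0) (.cons (.br (nat_lit 6) (nat_lit 1) (.cons (.zr (nat_lit 14167099450807975674624) (nat_lit 20283028573671313395563972657153) (nat_lit 5) (nat_lit 13)) .nil)) .nil)) (.cons (.br (nat_lit 6) (nat_lit 1) (.cons (.br (nat_lit 5) (nat_lit 1) (.cons (.ev (nat_lit 40565440599933955362154237395459) (nat_lit 2)) .nil)) (.cons (.ev (nat_lit 20440867137606163110439451558146) (nat_lit 2)) .nil))) .nil))) .nil)))) (.cons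 (.br (nat_lit 9) (nat_lit 0) (.cons (.rf (nat_lit 976) (nat_lit 15433072044983552032)) (.cons (.br (nat_lit 4) (nat_lit 1) (.cons (.rf (nat_lit 977) (nat_lit 493858305440582043680)) (.cons (.rf (nat_lit 977) (nat_lit 493823394846821484800)) (.cons (.br (nat_lit 6) (nat_lit 1) (.cons (.rf (nat_lit 978) (nat_lit 493858305440582043680)) (.cons (.rf (nat_lit 978) (nat_lit 493823394846821484800)) .nil))) .nil)))) (.cons (.br (nat_lit 10) (nat_lit 0) (.cons (.rf (nat_lit 979) (nat_lit 493858305440582043680)) (.cons (.br (nat_lit 4) (nat_lit 1) (.cons (.rf (nat_lit 979) (nat_lit 493823394846821484800)) (.cons (.br (nat_lit 6) (nat_lit 1) (.cons (.ev (nat_lit 4759476707861544829441) (nat_lit 2)) .nil)) .nil))) .nil))) .nil)))) (.cons (.br (nat_lit 4) (nat_lit 1) (.cons (.br (nat_lit 5) (nat_lit 1) (.cons (.kr (nat_lit 4722366483969156841728) (nat_lit 1208925891672223229411328) (nat_lit 1) (nat_lit 0)) (.cons (.rf (nat_lit 980) (nat_lit 493858305440582043680)) (.cons (.br (nat_lit 6) (nat_lit 1) (.cons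 (.br (nat_lit 11) (nat_lit 0) (.cons (.ev (nat_lit 20282410817299928860519397654528) (nat_lit 1)) .nil)) (.cons (.br (nat_lit 10) (nat_lit 0) (.cons (.ev (nat_lit 40644360514680401906170490979078) (nat_lit 3)) .nil)) .nil))) .nil)))) (.cons (.br (nat_lit 5) (nat_lit 1) (.cons (.br (nat_lit 6) (nat_lit 1) (.cons (.br (nat_lit 12) (nat_lit 0) (.cons (.ev (nat_lit 79543696931251326242942945028) (nat_lit 3)) .nil)) (.cons (.rf (nat_lit 836) (nat_lit 493857213657750012992)) .nil))) (.cons (.br (nat_lit 6) (nat_lit 1) (.cons (.br (nat_lit 12) (nat_lit 0) (.cons (.ev (nat_lit 20283029782634171178686209000194) (nat_lit 2)) .nil)) (.cons (.br (nat_lit 9) (nat_lit 0) (.cons (.ev (nat_lit 80781665267699121893488788738) (nat_lit 3)) .nil)) .nil))) (.cons (.br (nat_lit 6) (nat_lit 1) (.cons (.br (nat_lit 11) (nat_lit 0) (.cons (.ev (nat_lit 20282410817299928860519397654528) (nat_lit 1)) .nil)) (.cons (.br (nat_lit 9) (nat_lit 0) (.cons (.ev (nat_lit 20282410826763108570336675955201) (nat_lit 2)) .nil))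 .nil))) .nil)))) (.cons (.br (nat_lit 5) (nat_lit 1) (.cons (.br (nat_lit 6) (nat_lit 1) (.cons (.br (nat_lit 12) (nat_lit 0) (.cons (.ev (nat_lit 40565129901276091469625775096066) (nat_lit 2)) .nil)) (.cons (.rf (nat_lit 836) (nat_lit 493857213657750012992)) .nil))) (.cons (.br (nat_lit 12) (nat_lit 0) (.cons (.br (nat_lit 9) (nat_lit 0) (.cons (.zr (nat_lit 14167099450807975674624) (nat_lit 20283028573671313395563972657153) (nat_lit 5) (nat_lit 13)) .nil)) (.cons (.ev (nat_lit 20282410812577490039675954397441) (nat_lit 1)) .nil))) (.cons (.br (nat_lit 6) (nat_lit 1) (.cons (.kr (nat_lit 79228162514264337593560727552) (nat_lit 309485009821626543701491712) (nat_lit 3) (nat_lit 0)) (.cons (.br (nat_lit 9) (nat_lit 0) (.cons (.ev (nat_lit 81210420070540472431564946473728) (nat_lit 3)) .nil)) .nil))) .nil)))) (.cons (.br (nat_lit 6) (nat_lit 1) (.cons (.rf (nat_lit 981) (nat_lit 493858305440582043680)) (.cons (.ev (nat_lit 79228162514336676666870333696) (nat_lit 1)) (.cons (.br (nat_lit 5) (nat_lit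 1) (.cons (.rf (nat_lit 982) (nat_lit 493858305440582043680)) (.cons (.ev (nat_lit 310693935713298766930968833) (nat_lit 1)) .nil))) .nil)))) .nil))))) (.cons (.br (nat_lit 9) (nat_lit 0) (.cons (.br (nat_lit 5) (nat_lit 1) (.cons (.kr (nat_lit 4722366483969156841728) (nat_lit 1208925891672223229411328) (nat_lit 1) (nat_lit 0)) (.cons (.br (nat_lit 6) (nat_lit 1) (.cons (.zr (nat_lit 2432074078910109905323520) (nat_lit 20283957028701209498153637773313) (nat_lit 10) (nat_lit 3)) (.cons (.zr (nat_lit 158456348732594809925353342976) (nat_lit 20284575998720996303479163322369) (nat_lit 10) (nat_lit 3)) .nil))) (.cons (.ev (nat_lit 79228162532783140365114867968) (nat_lit 1)) .nil)))) (.cons (.br (nat_lit 10) (nat_lit 0) (.cons (.rf (nat_lit 983) (nat_lit 493858305440582043680)) (.cons (.br (nat_lit 4) (nat_lit 1) (.cons (.rf (nat_lit 983) (nat_lit 493823402543469922336)) (.cons (.br (nat_lit 6) (nat_lit 1) (.cons (.ev (nat_lit 81405471064264259770509493504) (nat_lit 4)) .nil)) .nil))) .nil))) (.cons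 (.br (nat_lit 4) (nat_lit 1) (.cons (.br (nat_lit 6) (nat_lit 1) (.cons (.ev (nat_lit 20282410826763108570336675955201) (nat_lit 2)) (.cons (.ev (nat_lit 20282410812595937064125129097473) (nat_lit 1)) .nil))) (.cons (.br (nat_lit 5) (nat_lit 1) (.cons (.br (nat_lit 6) (nat_lit 1) (.cons (.zr (nat_lit 14167099450807975674624) (nat_lit 20283028573671313395563972657153) (nat_lit 5) (nat_lit 6)) .nil)) (.cons (.rf (nat_lit 984) (nat_lit 493858305440582043680)) .nil))) (.cons (.br (nat_lit 5) (nat_lit 1) (.cons (.br (nat_lit 6) (nat_lit 1) (.cons (.zr (nat_lit 3626777675016669705011200) (nat_lit 20283028573671313396663484284929) (nat_lit 5) (nat_lit 4)) .nil)) (.cons (.br (nat_lit 6) (nat_lit 1) (.cons (.zr (nat_lit 71019964966356362725888) (nat_lit 81132117921462927473025622016004) (nat_lit 20) (nat_lit 6)) .nil)) .nil))) .nil)))) .nil)))) .nil))))) .nil)))),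
 (.br (nat_lit 11) (nat_lit 0) (.cons (.br (nat_lit 5) (nat_lit 1) (.cons (.ev (nat_lit 20282410812577490321150914396161) (nat_lit 1)) .nil)) .nil)),
 (.br (nat_lit 11) (nat_lit 0) (.cons (.ev (nat_lit 79538861172271781264895311873) (nat_lit 1)) (.cons (.ev (nat_lit 309485009821627643229896704) (nat_lit 1)) (.cons (.ev (nat_lit 20361948464823942205207851565056) (nat_lit 1)) .nil)))),
 (.br (nat_lit 11) (nat_lit 0) (.cons (.kr (nat_lit 79228167255077564536898715904) (nat_lit 310693935713017291937480704) (nat_lit 1) (nat_lit 0)) .nil)),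
 (.br (nat_lit 8) (nat_lit 0) (.cons (.rf (nat_lit 939) (nat_lit 14208048929398982912)) (.cons (.rf (nat_lit 887) (nat_lit 14208048928227756288)) (.cons (.br (nat_lit 2) (nat_lit 0) (.cons (.br (nat_lit 9) (nat_lit 0) (.cons (.br (nat_lit 5) (nat_lit 1) (.cons (.br (nat_lit 6) (nat_lit 1) (.cons (.br (nat_lit 12) (nat_lit 0) (.cons (.ev (nat_lit 81210415234763262325203893552388) (nat_lit 3)) .nil)) (.cons (.br (nat_lit 11) (nat_lit 0) (.cons (.ev (nat_lit 20283341685513934101510566772995) (nat_lit 2)) .nil)) .nil))) (.cons (.ev (nat_lit 309489750706630709924134913) (nat_lit 1)) (.cons (.br (nat_lit 6) (nat_lit 1) (.cons (.br (nat_lit 11) (nat_lit 0) (.cons (.ev (nat_lit 20361637770888373583483766898688) (nat_lit 1)) .nil)) (.cons (.rf (nat_lit 357) (nat_lit 491587435490025020480)) .nil))) .nil)))) (.cons (.br (nat_lit 10) (nat_lit 0) (.cons (.br (nat_lit 5) (nat_lit 1) (.cons (.br (nat_lit 12) (nat_lit 0) (.cons (.ev (nat_lit 83886168104510860587981933832) (nat_lit 4)) .nil)) (.cons (.br (nat_lit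 11) (nat_lit 0) (.cons (.ev (nat_lit 81400625916251151028346749698) (nat_lit 3)) .nil)) .nil))) (.cons (.rf (nat_lit 986) (nat_lit 493858305440582043680)) .nil))) (.cons (.br (nat_lit 11) (nat_lit 0) (.cons (.br (nat_lit 12) (nat_lit 0) (.cons (.ev (nat_lit 4722366483973468651776) (nat_lit 1)) (.cons (.ev (nat_lit 309485028268370617411043584) (nat_lit 1)) .nil))) (.cons (.rf (nat_lit 799) (nat_lit 493821220905200786496)) .nil))) .nil)))) (.cons (.br (nat_lit 4) (nat_lit 1) (.cons (.br (nat_lit 6) (nat_lit 1) (.cons (.kr (nat_lit 18446744078004518912) (nat_lit 72339069014638592) (nat_lit 4) (nat_lit 0)) (.cons (.rf (nat_lit 980) (nat_lit 493858305439541856288)) (.cons (.br (nat_lit 5) (nat_lit 1) (.cons (.rf (nat_lit 987) (nat_lit 493858305440582043680)) (.cons (.ev (nat_lit 309485028268370617411043584) (nat_lit 1)) .nil))) .nil)))) (.cons (.br (nat_lit 5) (nat_lit 1) (.cons (.br (nat_lit 6) (nat_lit 1) (.cons (.br (nat_lit 12) (nat_lit 0) (.cons (.ev (nat_lit 121778331719683269204365471059208)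 (nat_lit 4)) .nil)) (.cons (.br (nat_lit 11) (nat_lit 0) (.cons (.ev (nat_lit 121775855829900990471866979649286) (nat_lit 3)) .nil)) .nil))) (.cons (.br (nat_lit 6) (nat_lit 1) (.cons (.br (nat_lit 12) (nat_lit 0) (.cons (.ev (nat_lit 284033904381295290971073731300616) (nat_lit 4)) .nil)) (.cons (.ev (nat_lit 309485028268370617411043584) (nat_lit 1)) .nil))) (.cons (.br (nat_lit 6) (nat_lit 1) (.cons (.br (nat_lit 11) (nat_lit 0) (.cons (.ev (nat_lit 40565438177341647301516057509890) (nat_lit 2)) .nil)) (.cons (.ev (nat_lit 79229371458530977775699951873) (nat_lit 1)) .nil))) .nil)))) (.cons (.br (nat_lit 9) (nat_lit 0) (.cons (.ev (nat_lit 309489750706630709924134913) (nat_lit 1)) (.cons (.br (nat_lit 5) (nat_lit 1) (.cons (.br (nat_lit 12) (nat_lit 0) (.cons (.ev (nat_lit 81398208028151337738645603588) (nat_lit 3)) .nil)) (.cons (.br (nat_lit 10) (nat_lit 0) (.cons (.ev (nat_lit 80169986582051225766664933130) (nat_lit 4)) .nil)) .nil))) (.cons (.ev (nat_lit 20282719093402304995959347609856)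 (nat_lit 1)) .nil)))) (.cons (.br (nat_lit 5) (nat_lit 1) (.cons (.rf (nat_lit 981) (nat_lit 493858305439541856288)) (.cons (.br (nat_lit 6) (nat_lit 1) (.cons (.rf (nat_lit 987) (nat_lit 493858305438436657184)) (.cons (.br (nat_lit 9) (nat_lit 0) (.cons (.ev (nat_lit 80779247453097500351534399748) (nat_lit 3)) .nil)) .nil))) (.cons (.br (nat_lit 10) (nat_lit 0) (.cons (.br (nat_lit 9) (nat_lit 0) (.cons (.ev (nat_lit 83264770641350992952415162126) (nat_lit 4)) .nil)) (.cons (.ev (nat_lit 20282409603670189226714510459136) (nat_lit 1)) .nil))) .nil)))) .nil))))) (.cons (.br (nat_lit 9) (nat_lit 0) (.cons (.rf (nat_lit 976) (nat_lit 15433072045017106464)) (.cons (.br (nat_lit 4) (nat_lit 1) (.cons (.br (nat_lit 12) (nat_lit 0) (.cons (.ev (nat_lit 79228167236703159536498835713) (nat_lit 1)) (.cons (.ev (nat_lit 79230585143826736208364634370) (nat_lit 2)) .nil))) (.cons (.br (nat_lit 5) (nat_lit 1) (.cons (.kr (nat_lit 1208925819614629191483392) (nat_lit 309485009821626543701491712) (nat_lit 3)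 (nat_lit 0)) (.cons (.rf (nat_lit 357) (nat_lit 491587434390446350400)) .nil))) (.cons (.br (nat_lit 5) (nat_lit 1) (.cons (.rf (nat_lit 988) (nat_lit 493858305440582043680)) (.cons (.rf (nat_lit 988) (nat_lit 493823394843667400960)) .nil))) .nil)))) (.cons (.br (nat_lit 10) (nat_lit 0) (.cons (.br (nat_lit 5) (nat_lit 1) (.cons (.ev (nat_lit 40565129910720609105904092054016) (nat_lit 2)) (.cons (.ev (nat_lit 79230585143826736208364634370) (nat_lit 2)) .nil))) (.cons (.ev (nat_lit 20282410817318303546994757468416) (nat_lit 1)) .nil))) .nil)))) (.cons (.br (nat_lit 9) (nat_lit 0) (.cons (.br (nat_lit 10) (nat_lit 0) (.cons (.br (nat_lit 5) (nat_lit 1) (.cons (.rf (nat_lit 962) (nat_lit 493858305438436657184)) (.cons (.br (nat_lit 6) (nat_lit 1) (.cons (.zr (nat_lit 3626777675016669705011200) (nat_lit 20283028573671313396663484284929) (nat_lit 5) (nat_lit 4)) .nil)) .nil))) (.cons (.kr (nat_lit 18446744078004518912) (nat_lit 72339069014638592) (nat_lit 4) (nat_lit 0)) .nil))) (.cons (.br (nat_lit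 4) (nat_lit 1) (.cons (.br (nat_lit 6) (nat_lit 1) (.cons (.br (nat_lit 5) (nat_lit 1) (.cons (.ev (nat_lit 40646219823812039619227299545858) (nat_lit 3)) .nil)) (.cons (.ev (nat_lit 79229376162522774161378574336) (nat_lit 1)) .nil))) (.cons (.br (nat_lit 5) (nat_lit 1) (.cons (.br (nat_lit 6) (nat_lit 1) (.cons (.ev (nat_lit 80776820156580629414821298432) (nat_lit 3)) .nil)) (.cons (.br (nat_lit 6) (nat_lit 1) (.cons (.ev (nat_lit 1208925819897203679887616) (nat_lit 1)) .nil)) .nil))) (.cons (.br (nat_lit 5) (nat_lit 1) (.cons (.br (nat_lit 6) (nat_lit 1) (.cons (.zr (nat_lit 3626777675016669705011200) (nat_lit 20283028573671313396663484284929) (nat_lit 5) (nat_lit 4)) .nil)) (.cons (.br (nat_lit 6) (nat_lit 1) (.cons (.zr (nat_lit 92233721476649386245) (nat_lit 101412050436110136308607628607488) (nat_lit 10) (nat_lit 0)) .nil)) .nil))) .nil)))) (.cons (.br (nat_lit 10) (nat_lit 0) (.cons (.br (nat_lit 11) (nat_lit 0) (.cons (.br (nat_lit 5) (nat_lit 1) (.cons (.ev (nat_lit 40565438177341647301516057509890)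 (nat_lit 2)) .nil)) .nil)) (.cons (.br (nat_lit 5) (nat_lit 1) (.cons (.br (nat_lit 4) (nat_lit 1) (.cons (.ev (nat_lit 243472791778076143052444808839436) (nat_lit 4)) .nil)) (.cons (.ev (nat_lit 20282409608392555991059132383233) (nat_lit 1)) .nil))) .nil))) .nil)))) .nil))))) .nil)))),
 (.br (nat_lit 7) (nat_lit 0) (.cons (.rf (nat_lit 958) (nat_lit 493858305440582043680)) (.cons (.rf (nat_lit 972) (nat_lit 493858305440582043680)) (.cons (.br (nat_lit 8) (nat_lit 0) (.cons (.rf (nat_lit 974) (nat_lit 493858305440582043680)) (.cons (.rf (nat_lit 985) (nat_lit 493858305440582043680)) (.cons (.rf (nat_lit 989) (nat_lit 493858305440582043680)) (.cons (.br (nat_lit 8) (nat_lit 0) (.cons (.rf (nat_lit 974) (nat_lit 493858305440582043680)) (.cons (.rf (nat_lit 985) (nat_lit 493858305440582043680)) (.cons (.rf (nat_lit 989) (nat_lit 493858305440582043680)) .nil)))) .nil))))) .nil)))),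
 (.br (nat_lit 8) (nat_lit 0) (.cons (.rf (nat_lit 887) (nat_lit 14208048927253596416)) (.cons (.rf (nat_lit 939) (nat_lit 14208048929398982912)) (.cons (.br (nat_lit 2) (nat_lit 0) (.cons (.rf (nat_lit 990) (nat_lit 493823394843701938432)) (.cons (.br (nat_lit 9) (nat_lit 0) (.cons (.br (nat_lit 11) (nat_lit 0) (.cons (.br (nat_lit 6) (nat_lit 1) (.cons (.br (nat_lit 12) (nat_lit 0) (.cons (.ev (nat_lit 121775241695621519734990717518596) (nat_lit 3)) .nil)) (.cons (.br (nat_lit 10) (nat_lit 0) (.cons (.ev (nat_lit 80784073711354758371891021058) (nat_lit 3)) .nil)) .nil))) (.cons (.ev (nat_lit 309489750706630705645879553) (nat_lit 1)) .nil))) (.cons (.br (nat_lit 11) (nat_lit 0) (.cons (.br (nat_lit 6) (nat_lit 1) (.cons (.br (nat_lit 12) (nat_lit 0) (.cons (.ev (nat_lit 121775241695621807960968755611396) (nat_lit 3)) .nil)) (.cons (.br (nat_lit 10) (nat_lit 0) (.cons (.ev (nat_lit 80784073711787106135108290306) (nat_lit 3)) .nil)) .nil))) (.cons (.ev (nat_lit 309489750706912180605878273) (nat_lit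 1)) (.cons (.ev (nat_lit 20282719093402377054652880388096) (nat_lit 1)) .nil)))) (.cons (.br (nat_lit 11) (nat_lit 0) (.cons (.ev (nat_lit 309489750706630705645879553) (nat_lit 1)) (.cons (.ev (nat_lit 20282719093402304995959347609856) (nat_lit 1)) .nil))) .nil)))) (.cons (.br (nat_lit 4) (nat_lit 1) (.cons (.br (nat_lit 5) (nat_lit 1) (.cons (.br (nat_lit 6) (nat_lit 1) (.cons (.br (nat_lit 12) (nat_lit 0) (.cons (.ev (nat_lit 79538880154476398142206313220) (nat_lit 3)) .nil)) (.cons (.rf (nat_lit 836) (nat_lit 493858305438436656192)) .nil))) (.cons (.br (nat_lit 6) (nat_lit 1) (.cons (.br (nat_lit 12) (nat_lit 0) (.cons (.zr (nat_lit 618974778902661154514075904) (nat_lit 237684487542793294259937083393) (nat_lit 5) (nat_lit 0)) .nil)) (.cons (.ev (nat_lit 79228167255149623230465114113) (nat_lit 1)) .nil))) (.cons (.br (nat_lit 6) (nat_lit 1) (.cons (.br (nat_lit 11) (nat_lit 0) (.cons (.zr (nat_lit 158456329787788646204202549504) (nat_lit 928455029464316685446152193) (nat_lit 5) (nat_lit 4))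 .nil)) (.cons (.br (nat_lit 10) (nat_lit 0) (.cons (.ev (nat_lit 80781637007286079477118206720) (nat_lit 3)) .nil)) .nil))) .nil)))) (.cons (.br (nat_lit 5) (nat_lit 1) (.cons (.kr (nat_lit 4740813228042866393344) (nat_lit 1208925963729817267339264) (nat_lit 1) (nat_lit 0)) (.cons (.br (nat_lit 6) (nat_lit 1) (.cons (.ev (nat_lit 309489750706912180605878273) (nat_lit 1)) (.cons (.ev (nat_lit 79538856468424381533696032768) (nat_lit 1)) .nil))) (.cons (.br (nat_lit 6) (nat_lit 1) (.cons (.rf (nat_lit 981) (nat_lit 493858305440549537824)) (.cons (.ev (nat_lit 310693935713298766930968833) (nat_lit 1)) .nil))) .nil)))) (.cons (.br (nat_lit 5) (nat_lit 1) (.cons (.rf (nat_lit 980) (nat_lit 493858305440549537824)) (.cons (.br (nat_lit 6) (nat_lit 1) (.cons (.br (nat_lit 12) (nat_lit 0) (.cons (.zr (nat_lit 14222440243780034495232) (nat_lit 20283028573671313115188507770881) (nat_lit 5) (nat_lit 13)) .nil)) (.cons (.rf (nat_lit 836) (nat_lit 493858305438436656192)) .nil))) (.cons (.br (nat_lit 6) (nat_lit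 1) (.cons (.kr (nat_lit 79228162514264337593560727552) (nat_lit 309485009821626543701491712) (nat_lit 3) (nat_lit 0)) (.cons (.br (nat_lit 9) (nat_lit 0) (.cons (.ev (nat_lit 81210422497763055965833148171524) (nat_lit 3)) .nil)) .nil))) .nil)))) (.cons (.br (nat_lit 5) (nat_lit 1) (.cons (.br (nat_lit 6) (nat_lit 1) (.cons (.rf (nat_lit 833) (nat_lit 493858305438436656192)) (.cons (.ev (nat_lit 309489750706912180605878273) (nat_lit 1)) .nil))) (.cons (.br (nat_lit 9) (nat_lit 0) (.cons (.ev (nat_lit 79228162532711363146541957376) (nat_lit 1)) (.cons (.ev (nat_lit 20361638975091826433764024713216) (nat_lit 1)) .nil))) (.cons (.ev (nat_lit 309485028268089146729300224) (nat_lit 1)) .nil)))) .nil))))) (.cons (.br (nat_lit 9) (nat_lit 0) (.cons (.br (nat_lit 5) (nat_lit 1) (.cons (.rf (nat_lit 983) (nat_lit 493857213659895400480)) (.cons (.br (nat_lit 10) (nat_lit 0) (.cons (.br (nat_lit 6) (nat_lit 1) (.cons (.ev (nat_lit 121775853421604908787978253829894) (nat_lit 3)) .nil)) .nil)) (.cons (.ev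 (nat_lit 79228162532783140365114867968) (nat_lit 1)) .nil)))) (.cons (.br (nat_lit 10) (nat_lit 0) (.cons (.kr (nat_lit 4740813228042866393344) (nat_lit 1208925963729817267339264) (nat_lit 1) (nat_lit 0)) (.cons (.br (nat_lit 4) (nat_lit 1) (.cons (.br (nat_lit 6) (nat_lit 1) (.cons (.zr (nat_lit 3626777675016669705011200) (nat_lit 20283028573671313396663484284929) (nat_lit 5) (nat_lit 6)) .nil)) (.cons (.br (nat_lit 6) (nat_lit 1) (.cons (.zr (nat_lit 14222439683029104329472) (nat_lit 20283028573671529568346086440961) (nat_lit 5) (nat_lit 4)) .nil)) .nil))) .nil))) (.cons (.br (nat_lit 6) (nat_lit 1) (.cons (.br (nat_lit 4) (nat_lit 1) (.cons (.br (nat_lit 5) (nat_lit 1) (.cons (.zr (nat_lit 3626777675016669705011200) (nat_lit 20283028573671313396663484284929) (nat_lit 5) (nat_lit 6)) .nil)) (.cons (.ev (nat_lit 79229376162522492690696830976) (nat_lit 1)) .nil))) (.cons (.br (nat_lit 4) (nat_lit 1) (.cons (.br (nat_lit 5) (nat_lit 1) (.cons (.zr (nat_lit 3626777675016669705011200) (nat_lit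 20283028573671313396663484284929) (nat_lit 5) (nat_lit 4)) .nil)) (.cons (.br (nat_lit 5) (nat_lit 1) (.cons (.ev (nat_lit 80160267951684236758365569792) (nat_lit 3)) .nil)) .nil))) (.cons (.ev (nat_lit 4722438821938659917824) (nat_lit 1)) .nil)))) .nil)))) .nil))))) .nil))))]

theorem c30 : chkAll C T R L30 (nat_lit 975) = true := by decide +kernel

theorem l30 : (nat_lit 975) + L30.length = (nat_lit 992) := by decide +kernel

/-- part of the certificates -/
def L31 : List Prf := [(.br (nat_lit 6) (nat_lit 1) (.cons (.zr (nat_lit 3626777675016669705011200) (nat_lit 20283028573671313396663484284929) (nat_lit 5) (nat_lit 4)) .nil)),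
 (.br (nat_lit 12) (nat_lit 0) (.cons (.ev (nat_lit 4722438540467978174464) (nat_lit 1)) (.cons (.br (nat_lit 4) (nat_lit 1) (.cons (.rf (nat_lit 992) (nat_lit 493858305440582043680)) (.cons (.rf (nat_lit 992) (nat_lit 493823394675022798080)) .nil))) .nil))),
 (.br (nat_lit 8) (nat_lit 0) (.cons (.rf (nat_lit 887) (nat_lit 14208048927253596416)) (.cons (.rf (nat_lit 887) (nat_lit 14208048928227756288)) (.cons (.br (nat_lit 2) (nat_lit 0) (.cons (.rf (nat_lit 990) (nat_lit 493823394675022798080)) (.cons (.rf (nat_lit 990) (nat_lit 493823394672877411584)) (.cons (.br (nat_lit 9) (nat_lit 0) (.cons (.rf (nat_lit 993) (nat_lit 493858305440582043680)) (.cons (.rf (nat_lit 993) (nat_lit 493858305438436657184)) .nil))) .nil)))) .nil)))),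
 (.br (nat_lit 7) (nat_lit 0) (.cons (.rf (nat_lit 990) (nat_lit 493858305440582043680)) (.cons (.rf (nat_lit 990) (nat_lit 493858305438436657184)) (.cons (.br (nat_lit 8) (nat_lit 0) (.cons (.rf (nat_lit 991) (nat_lit 493858305440582043680)) (.cons (.rf (nat_lit 994) (nat_lit 493858305440582043680)) (.cons (.rf (nat_lit 991) (nat_lit 493858305438436657184)) (.cons (.br (nat_lit 8) (nat_lit 0) (.cons (.rf (nat_lit 991) (nat_lit 493858305440582043680)) (.cons (.rf (nat_lit 994) (nat_lit 493858305440582043680)) (.cons (.rf (nat_lit 991) (nat_lit 493858305438436657184)) .nil)))) .nil))))) .nil)))),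
 (.br (nat_lit 6) (nat_lit 1) (.cons (.br (nat_lit 12) (nat_lit 0) (.cons (.ev (nat_lit 80160249099400030409082733316) (nat_lit 3)) .nil)) (.cons (.br (nat_lit 11) (nat_lit 0) (.cons (.ev (nat_lit 309485009966306893689389825) (nat_lit 2)) .nil)) .nil))),
 (.br (nat_lit 12) (nat_lit 0) (.cons (.ev (nat_lit 79228162532783420740579950848) (nat_lit 1)) (.cons (.br (nat_lit 13) (nat_lit 1) (.cons (.ev (nat_lit 20361638979832567604217131302913) (nat_lit 1)) (.cons (.ev (nat_lit 20361947255898122589479165231361) (nat_lit 1)) .nil))) .nil))),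
 (.br (nat_lit 11) (nat_lit 0) (.cons (.ev (nat_lit 309485009966306893689389825) (nat_lit 2)) .nil)),
 (.br (nat_lit 8) (nat_lit 0) (.cons (.br (nat_lit 1) (nat_lit 0) (.cons (.rf (nat_lit 887) (nat_lit 14242959521988315168)) (.cons (.br (nat_lit 9) (nat_lit 0) (.cons (.br (nat_lit 12) (nat_lit 0) (.cons (.ev (nat_lit 79228162532783421835796611328) (nat_lit 1)) (.cons (.br (nat_lit 13) (nat_lit 1) (.cons (.ev (nat_lit 20361638979832567604217131302913) (nat_lit 1)) (.cons (.ev (nat_lit 20361947255898122590582971826433) (nat_lit 1)) .nil))) .nil))) (.cons (.br (nat_lit 10) (nat_lit 0) (.cons (.rf (nat_lit 996) (nat_lit 493858305440582043680)) (.cons (.br (nat_lit 11) (nat_lit 0) (.cons (.rf (nat_lit 996) (nat_lit 493823394846888528128)) .nil)) .nil))) .nil))) .nil))) (.cons (.br (nat_lit 1) (nat_lit 0) (.cons (.rf (nat_lit 887) (nat_lit 14242959521988315168)) (.cons (.br (nat_lit 9) (nat_lit 0) (.cons (.rf (nat_lit 997) (nat_lit 493858305440582043680)) (.cons (.rf (nat_lit 997) (nat_lit 493823394843634895104))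 (.cons (.br (nat_lit 3) (nat_lit 1) (.cons (.br (nat_lit 6) (nat_lit 1) (.cons (.br (nat_lit 12) (nat_lit 0) (.cons (.ev (nat_lit 80160249099400030409082733316) (nat_lit 3)) .nil)) (.cons (.rf (nat_lit 998) (nat_lit 493858305440582043680)) .nil))) (.cons (.br (nat_lit 6) (nat_lit 1) (.cons (.br (nat_lit 12) (nat_lit 0) (.cons (.ev (nat_lit 80160249099400030409082733316) (nat_lit 3)) .nil)) (.cons (.rf (nat_lit 998) (nat_lit 492671599238934890752)) .nil))) (.cons (.br (nat_lit 6) (nat_lit 1) (.cons (.rf (nat_lit 998) (nat_lit 491554714231182034976)) (.cons (.rf (nat_lit 998) (nat_lit 493823394843634895104)) .nil))) .nil)))) .nil)))) .nil))) .nil))),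
 (.br (nat_lit 11) (nat_lit 0) (.cons (.br (nat_lit 12) (nat_lit 0) (.cons (.ev (nat_lit 20361637766166007100614104842241) (nat_lit 1)) .nil)) .nil)),
 (.br (nat_lit 11) (nat_lit 0) (.cons (.br (nat_lit 12) (nat_lit 0) (.cons (.ev (nat_lit 81403024841675638807281730308) (nat_lit 3)) .nil)) (.cons (.ev (nat_lit 20283341694921845071547532837121) (nat_lit 2)) .nil))),
 (.br (nat_lit 11) (nat_lit 0) (.cons (.ev (nat_lit 202904882537525298146773984937736) (nat_lit 4)) .nil)),
 (.br (nat_lit 8) (nat_lit 0) (.cons (.rf (nat_lit 939) (nat_lit 14208048930440186112)) (.cons (.rf (nat_lit 887) (nat_lit 14208048927253596416)) (.cons (.rf (nat_lit 887) (nat_lit 14208048928227756288)) (.cons (.br (nat_lit 7) (nat_lit 0) (.cons (.rf (nat_lit 995) (nat_lit 493823394846821484800)) (.cons (.rf (nat_lit 990) (nat_lit 493823394846821484800)) (.cons (.rf (nat_lit 990) (nat_lit 493823394844676098304)) (.cons (.br (nat_lit 7) (nat_lit 0) (.cons (.rf (nat_lit 995) (nat_lit 493823394846821484800)) (.cons (.rf (nat_lit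 990) (nat_lit 493823394846821484800)) (.cons (.rf (nat_lit 990) (nat_lit 493823394844676098304)) .nil)))) .nil))))) .nil))))),
 (.br (nat_lit 8) (nat_lit 0) (.cons (.br (nat_lit 1) (nat_lit 0) (.cons (.rf (nat_lit 939) (nat_lit 14242959524133701664)) (.cons (.rf (nat_lit 887) (nat_lit 14242959521988315168)) (.cons (.br (nat_lit 9) (nat_lit 0) (.cons (.br (nat_lit 10) (nat_lit 0) (.cons (.rf (nat_lit 1000) (nat_lit 493858305440582043680)) (.cons (.br (nat_lit 6) (nat_lit 1) (.cons (.rf (nat_lit 1000) (nat_lit 493823402543469922336)) (.cons (.br (nat_lit 11) (nat_lit 0) (.cons (.ev (nat_lit 81210420060984769645098750378242) (nat_lit 3)) .nil)) .nil))) .nil))) (.cons (.ev (nat_lit 281474993553409) (nat_lit 1)) (.cons (.br (nat_lit 5) (nat_lit 1) (.cons (.rf (nat_lit 1001) (nat_lit 493858305440582043680)) (.cons (.rf (nat_lit 1001) (nat_lit 493823394846888528128)) (.cons (.br (nat_lit 6) (nat_lit 1) (.cons (.rf (nat_lit 1002) (nat_lit 493858305440582043680)) (.cons (.rf (nat_lit 1002) (nat_lit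 493823394846888528128)) .nil))) .nil)))) .nil)))) .nil)))) (.cons (.rf (nat_lit 1003) (nat_lit 14242959524133701664)) (.cons (.rf (nat_lit 1003) (nat_lit 14242959351293811744)) .nil)))),
 (.br (nat_lit 13) (nat_lit 1) (.cons (.ev (nat_lit 20282410817318303265519797600256) (nat_lit 1)) (.cons (.ev (nat_lit 20282410812577490039675954397441) (nat_lit 1)) .nil))),
 (.br (nat_lit 11) (nat_lit 0) (.cons (.ev (nat_lit 202904882565859064691804890531586) (nat_lit 4)) .nil)),
 (.br (nat_lit 11) (nat_lit 0) (.cons (.br (nat_lit 6) (nat_lit 1) (.cons (.ev (nat_lit 284035763709206436426943595348736) (nat_lit 4)) .nil)) .nil)),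
 (.br (nat_lit 8) (nat_lit 0) (.cons (.rf (nat_lit 939) (nat_lit 14208048930440186112)) (.cons (.rf (nat_lit 887) (nat_lit 14208048928294799616)) (.cons (.br (nat_lit 9) (nat_lit 0) (.cons (.br (nat_lit 10) (nat_lit 0) (.cons (.br (nat_lit 6) (nat_lit 1) (.cons (.br (nat_lit 12) (nat_lit 0) (.cons (.ev (nat_lit 20282409608392555989959637467393) (nat_lit 1)) .nil)) (.cons (.rf (nat_lit 945) (nat_lit 493857213453736976416)) .nil))) (.cons (.ev (nat_lit 20282410817299928579044404101376) (nat_lit 1)) .nil))) (.cons (.br (nat_lit 5) (nat_lit 1) (.cons (.rf (nat_lit 1005) (nat_lit 493858305440582043680)) (.cons (.rf (nat_lit 1005) (nat_lit 493823394846888528128)) (.cons (.br (nat_lit 6) (nat_lit 1) (.cons (.rf (nat_lit 1006) (nat_lit 493858305440582043680)) (.cons (.rf (nat_lit 1006) (nat_lit 493823394846888528128)) .nil))) .nil)))) (.cons (.br (nat_lit 10) (nat_lit 0) (.cons (.rf (nat_lit 1007) (nat_lit 493858305440582043680)) (.cons (.br (nat_lit 5) (nat_lit 1) (.cons (.rf (nat_lit 1007) (nat_lit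 493823394846888528128)) (.cons (.br (nat_lit 6) (nat_lit 1) (.cons (.ev (nat_lit 621392630758629456400613889) (nat_lit 2)) .nil)) .nil))) .nil))) .nil)))) .nil)))),
 (.br (nat_lit 8) (nat_lit 0) (.cons (.rf (nat_lit 887) (nat_lit 14208048928294799616)) (.cons (.rf (nat_lit 887) (nat_lit 14208048928227756288)) (.cons (.br (nat_lit 3) (nat_lit 1) (.cons (.br (nat_lit 5) (nat_lit 1) (.cons (.br (nat_lit 6) (nat_lit 1) (.cons (.br (nat_lit 12) (nat_lit 0) (.cons (.zr (nat_lit 1213740419817897482780928) (nat_lit 40564819207303629647817677471746) (nat_lit 10) (nat_lit 3)) .nil)) (.cons (.br (nat_lit 11) (nat_lit 0) (.cons (.zr (nat_lit 1213740419817897482780928) (nat_lit 40564819207303629647817677471746) (nat_lit 10) (nat_lit 3)) .nil)) .nil))) (.cons (.br (nat_lit 6) (nat_lit 1) (.cons (.ev (nat_lit 309489732188110512858398721) (nat_lit 1)) (.cons (.ev (nat_lit 309485028268370617411043584) (nat_lit 1)) .nil))) (.cons (.br (nat_lit 11) (nat_lit 0) (.cons (.rf (nat_lit 836) (nat_lit 493823394878061681728))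 (.cons (.ev (nat_lit 20361637770906747988484166844416) (nat_lit 1)) .nil))) .nil)))) (.cons (.br (nat_lit 5) (nat_lit 1) (.cons (.br (nat_lit 6) (nat_lit 1) (.cons (.br (nat_lit 12) (nat_lit 0) (.cons (.ev (nat_lit 79543696931396002173392585988) (nat_lit 3)) .nil)) (.cons (.br (nat_lit 11) (nat_lit 0) (.cons (.ev (nat_lit 40565128701757895440190429856001) (nat_lit 2)) .nil)) .nil))) (.cons (.br (nat_lit 12) (nat_lit 0) (.cons (.ev (nat_lit 309485028268370617411043584) (nat_lit 1)) (.cons (.ev (nat_lit 20283029782597204789606465339906) (nat_lit 2)) .nil))) (.cons (.br (nat_lit 6) (nat_lit 1) (.cons (.br (nat_lit 11) (nat_lit 0) (.cons (.ev (nat_lit 20283029792041938318295709188096) (nat_lit 2)) .nil)) (.cons (.rf (nat_lit 836) (nat_lit 493823394878061681728)) .nil))) .nil)))) (.cons (.br (nat_lit 5) (nat_lit 1) (.cons (.br (nat_lit 10) (nat_lit 0) (.cons (.br (nat_lit 12) (nat_lit 0) (.cons (.zr (nat_lit 60847539504890724289146610057216) (nat_lit 23611832978397691118594) (nat_lit 10) (nat_lit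 4)) .nil)) (.cons (.ev (nat_lit 20282410817299928579044404101376) (nat_lit 1)) .nil))) (.cons (.br (nat_lit 6) (nat_lit 1) (.cons (.br (nat_lit 12) (nat_lit 0) (.cons (.ev (nat_lit 20361638979814121140518886899713) (nat_lit 1)) .nil)) (.cons (.br (nat_lit 9) (nat_lit 0) (.cons (.ev (nat_lit 20361638979814121140518886899713) (nat_lit 1)) .nil)) .nil))) (.cons (.br (nat_lit 9) (nat_lit 0) (.cons (.br (nat_lit 10) (nat_lit 0) (.cons (.ev (nat_lit 40646222251108412381581596099334) (nat_lit 3)) .nil)) (.cons (.ev (nat_lit 20282409608374108965510462898433) (nat_lit 1)) .nil))) .nil)))) (.cons (.br (nat_lit 5) (nat_lit 1) (.cons (.br (nat_lit 10) (nat_lit 0) (.cons (.br (nat_lit 11) (nat_lit 0) (.cons (.ev (nat_lit 309485046859232082565006081) (nat_lit 2)) .nil)) (.cons (.ev (nat_lit 20282410817299928579044404101376) (nat_lit 1)) .nil))) (.cons (.ev (nat_lit 79228162514336396291405250816) (nat_lit 1)) (.cons (.br (nat_lit 9) (nat_lit 0) (.cons (.ev (nat_lit 79847137274936710039540465666) (nat_lit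 2)) (.cons (.ev (nat_lit 20282409608374108965510462898433) (nat_lit 1)) .nil))) .nil)))) .nil))))) .nil)))),
 (.br (nat_lit 6) (nat_lit 1) (.cons (.br (nat_lit 12) (nat_lit 0) (.cons (.ev (nat_lit 81403024915461489202280204036) (nat_lit 3)) .nil)) (.cons (.ev (nat_lit 79229376181113633427509412355) (nat_lit 2)) .nil))),
 (.br (nat_lit 8) (nat_lit 0) (.cons (.br (nat_lit 1) (nat_lit 0) (.cons (.rf (nat_lit 887) (nat_lit 14242959524133701664)) (.cons (.rf (nat_lit 887) (nat_lit 14242959521988315168)) (.cons (.br (nat_lit 9) (nat_lit 0) (.cons (.ev (nat_lit 72057598349672449) (nat_lit 1)) (.cons (.ev (nat_lit 281474993553409) (nat_lit 1)) (.cons (.br (nat_lit 4) (nat_lit 1) (.cons (.rf (nat_lit 1010) (nat_lit 493858305440582043680)) (.cons (.rf (nat_lit 1010) (nat_lit 493823394846888528128)) (.cons (.br (nat_lit 6) (nat_lit 1) (.cons (.ev (nat_lit 79229376181113633427509412355) (nat_lit 2)) (.cons (.ev (nat_lit 79537652283562107940769038595) (nat_lit 2)) .nil))) .nil)))) .nil)))) .nil)))) (.cons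 (.rf (nat_lit 1003) (nat_lit 14242959523025455136)) (.cons (.rf (nat_lit 1003) (nat_lit 14242959351293811744)) .nil)))),
 (.br (nat_lit 6) (nat_lit 1) (.cons (.br (nat_lit 12) (nat_lit 0) (.cons (.ev (nat_lit 20361948460101576002713688276993) (nat_lit 1)) .nil)) (.cons (.br (nat_lit 11) (nat_lit 0) (.cons (.ev (nat_lit 20361948460101576002713688276993) (nat_lit 1)) .nil)) .nil))),
 (.br (nat_lit 11) (nat_lit 0) (.cons (.ev (nat_lit 310693954087704875432411393) (nat_lit 1)) (.cons (.ev (nat_lit 20282720297605758128822683697408) (nat_lit 1)) .nil))),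
 (.br (nat_lit 11) (nat_lit 0) (.cons (.br (nat_lit 6) (nat_lit 1) (.cons (.ev (nat_lit 284033278214315632458678686781188) (nat_lit 4)) .nil)) .nil)),
 (.br (nat_lit 8) (nat_lit 0) (.cons (.rf (nat_lit 887) (nat_lit 14208048928294799616)) (.cons (.rf (nat_lit 939) (nat_lit 14208048929398982912)) (.cons (.br (nat_lit 7) (nat_lit 0) (.cons (.br (nat_lit 1) (nat_lit 0) (.cons (.rf (nat_lit 1003) (nat_lit 14208048758574456064)) (.cons (.rf (nat_lit 1003) (nat_lit 14208048929331939584)) (.cons (.rf (nat_lit 1004) (nat_lit 493858305437328410656)) (.cons (.rf (nat_lit 1004) (nat_lit 493823394843634895104)) .nil))))) (.cons (.br (nat_lit 1) (nat_lit 0) (.cons (.rf (nat_lit 999) (nat_lit 493858305440582043680)) (.cons (.rf (nat_lit 999) (nat_lit 493858305437328410656)) (.cons (.rf (nat_lit 999) (nat_lit 493823394843634895104)) .nil)))) (.cons (.rf (nat_lit 1003) (nat_lit 14242959351293811744)) (.cons (.br (nat_lit 1) (nat_lit 0) (.cons (.rf (nat_lit 1009) (nat_lit 493823394843634895104)) (.cons (.rf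 (nat_lit 1003) (nat_lit 14208048929331939584)) (.cons (.rf (nat_lit 1008) (nat_lit 493823394843634895104)) (.cons (.br (nat_lit 1) (nat_lit 0) (.cons (.rf (nat_lit 1009) (nat_lit 493823394843634895104)) (.cons (.rf (nat_lit 1003) (nat_lit 14208048929331939584)) (.cons (.rf (nat_lit 1008) (nat_lit 493858305437328410656)) .nil)))) .nil))))) .nil))))) .nil)))),
 (.br (nat_lit 8) (nat_lit 0) (.cons (.br (nat_lit 1) (nat_lit 0) (.cons (.rf (nat_lit 887) (nat_lit 14242959524133701664)) (.cons (.rf (nat_lit 887) (nat_lit 14242959521988315168)) (.cons (.br (nat_lit 9) (nat_lit 0) (.cons (.br (nat_lit 10) (nat_lit 0) (.cons (.rf (nat_lit 1012) (nat_lit 493858305440582043680)) (.cons (.br (nat_lit 11) (nat_lit 0) (.cons (.rf (nat_lit 1012) (nat_lit 493823394846888528128)) .nil)) .nil))) (.cons (.br (nat_lit 6) (nat_lit 1) (.cons (.ev (nat_lit 1213648258437667346252033) (nat_lit 1)) (.cons (.ev (nat_lit 309489750706912180605878273) (nat_lit 1)) (.cons (.br (nat_lit 4) (nat_lit 1) (.cons (.rf (nat_lit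 1013) (nat_lit 493858305440582043680)) (.cons (.rf (nat_lit 1013) (nat_lit 493823394846888528128)) .nil))) .nil)))) (.cons (.br (nat_lit 10) (nat_lit 0) (.cons (.rf (nat_lit 1014) (nat_lit 493858305440582043680)) (.cons (.br (nat_lit 4) (nat_lit 1) (.cons (.rf (nat_lit 1014) (nat_lit 493823394846888528128)) (.cons (.br (nat_lit 6) (nat_lit 1) (.cons (.ev (nat_lit 202907363291085211151173375296260) (nat_lit 4)) .nil)) .nil))) .nil))) .nil)))) .nil)))) (.cons (.rf (nat_lit 1003) (nat_lit 14242959523025455136)) (.cons (.rf (nat_lit 1015) (nat_lit 14242959524133701664)) .nil)))),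
 (.br (nat_lit 7) (nat_lit 0) (.cons (.rf (nat_lit 1003) (nat_lit 14208048758574456064)) (.cons (.rf (nat_lit 1015) (nat_lit 14208048927186553088)) (.cons (.br (nat_lit 8) (nat_lit 0) (.cons (.rf (nat_lit 1011) (nat_lit 493823394846888528128)) (.cons (.rf (nat_lit 1003) (nat_lit 14242959523025455136)) (.cons (.rf (nat_lit 1003) (nat_lit 14242959351293811744)) (.cons (.rf (nat_lit 1011) (nat_lit 493858305440582043680)) .nil))))) (.cons (.br (nat_lit 8) (nat_lit 0) (.cons (.rf (nat_lit 1016) (nat_lit 493823394846888528128)) (.cons (.rf (nat_lit 1003) (nat_lit 14242959523025455136)) (.cons (.rf (nat_lit 1015) (nat_lit 14242959524133701664)) (.cons (.rf (nat_lit 1016) (nat_lit 493858305440582043680)) .nil))))) .nil)))))]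

theorem c31 : chkAll C T R L31 (nat_lit 992) = true := by decide +kernel

theorem l31 : (nat_lit 992) + L31.length = (nat_lit 1018) := by decide +kernel

/-- part of the certificates -/
def L32 : List Prf := [(.br (nat_lit 5) (nat_lit 1) (.cons (.ev (nat_lit 1213648258437667346252033) (nat_lit 1)) (.cons (.br (nat_lit 12) (nat_lit 0) (.cons (.br (nat_lit 9) (nat_lit 0) (.cons (.ev (nat_lit 284037001686802426915501180781316) (nat_lit 4)) .nil)) (.cons (.ev (nat_lit 20282719088679938514189214023681) (nat_lit 1)) .nil))) (.cons (.br (nat_lit 4) (nat_lit 1) (.cons (.br (nat_lit 11) (nat_lit 0) (.cons (.ev (nat_lit 83264808493496755774672013062) (nat_lit 4)) .nil)) (.cons (.br (nat_lit 9) (nat_lit 0) (.cons (.ev (nat_lit 20282413244651785686608848683523) (nat_lit 2)) .nil)) .nil))) .nil)))),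
 (.br (nat_lit 11) (nat_lit 0) (.cons (.ev (nat_lit 79538861172271781260600279041) (nat_lit 1)) (.cons (.ev (nat_lit 310698676454469220037558528) (nat_lit 1)) (.cons (.ev (nat_lit 20361948464823942205207851565056) (nat_lit 1)) .nil)))),
 (.br (nat_lit 5) (nat_lit 1) (.cons (.rf (nat_lit 1019) (nat_lit 493858305440582043680)) (.cons (.rf (nat_lit 1019) (nat_lit 493823394846888528128)) .nil))),
 (.br (nat_lit 5) (nat_lit 1) (.cons (.br (nat_lit 11) (nat_lit 0) (.cons (.ev (nat_lit 40565128701794933045716358136065) (nat_lit 2)) .nil)) (.cons (.br (nat_lit 9) (nat_lit 0) (.cons (.ev (nat_lit 80162695248198862500924687108) (nat_lit 3)) .nil)) .nil))),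
 (.br (nat_lit 8) (nat_lit 0) (.cons (.br (nat_lit 1) (nat_lit 0) (.cons (.rf (nat_lit 887) (nat_lit 14242959524133701664)) (.cons (.rf (nat_lit 939) (nat_lit 14242959524133701664)) (.cons (.rf (nat_lit 887) (nat_lit 14242959521988315168)) (.cons (.br (nat_lit 6) (nat_lit 1) (.cons (.ev (nat_lit 281474993553409) (nat_lit 1)) (.cons (.rf (nat_lit 1018) (nat_lit 493858305440582043680)) (.cons (.rf (nat_lit 1018) (nat_lit 493823394846888528128)) (.cons (.br (nat_lit 4) (nat_lit 1) (.cons (.rf (nat_lit 1020) (nat_lit 493858305440582043680)) (.cons (.rf (nat_lit 1021) (nat_lit 493858305440582043680)) (.cons (.rf (nat_lit 1021) (nat_lit 493823394846888528128)) .nil)))) .nil))))) .nil))))) (.cons (.rf (nat_lit 1003) (nat_lit 14242959523025455136)) (.cons (.rf (nat_lit 1003) (nat_lit 14242959524133701664)) (.cons (.rf (nat_lit 1003) (nat_lit 14242959351293811744)) .nil))))),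
 (.br (nat_lit 7) (nat_lit 0) (.cons (.rf (nat_lit 1003) (nat_lit 14208048758574456064)) (.cons (.rf (nat_lit 1015) (nat_lit 14208048927186553088)) (.cons (.rf (nat_lit 1017) (nat_lit 493858305440582043680)) (.cons (.br (nat_lit 8) (nat_lit 0) (.cons (.rf (nat_lit 1022) (nat_lit 493823394846888528128)) (.cons (.rf (nat_lit 1003) (nat_lit 14242959523025455136)) (.cons (.rf (nat_lit 1003) (nat_lit 14242959524133701664)) (.cons (.rf (nat_lit 1003) (nat_lit 14242959351293811744)) (.cons (.rf (nat_lit 1022) (nat_lit 493858305440582043680)) .nil)))))) .nil))))),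
 (.br (nat_lit 7) (nat_lit 0) (.cons (.rf (nat_lit 1003) (nat_lit 14208048758574456064)) (.cons (.rf (nat_lit 1015) (nat_lit 14208048927186553088)) (.cons (.rf (nat_lit 1017) (nat_lit 493858305440582043680)) (.cons (.rf (nat_lit 1023) (nat_lit 493858305440582043680)) (.cons (.br (nat_lit 7) (nat_lit 0) (.cons (.rf (nat_lit 1003) (nat_lit 14208048758574456064)) (.cons (.rf (nat_lit 1015) (nat_lit 14208048927186553088)) (.cons (.rf (nat_lit 1017) (nat_lit 493858305440582043680)) (.cons (.rf (nat_lit 1023) (nat_lit 493858305440582043680)) .nil))))) .nil)))))),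
 (.br (nat_lit 5) (nat_lit 1) (.cons (.br (nat_lit 12) (nat_lit 0) (.cons (.ev (nat_lit 80160249099400030409082733316) (nat_lit 3)) .nil)) (.cons (.br (nat_lit 11) (nat_lit 0) (.cons (.ev (nat_lit 40646838793758473498073827708676) (nat_lit 4)) .nil)) .nil))),
 (.br (nat_lit 11) (nat_lit 0) (.cons (.ev (nat_lit 81400625916251151028346749698) (nat_lit 3)) .nil)),
 (.br (nat_lit 7) (nat_lit 0) (.cons (.rf (nat_lit 1015) (nat_lit 14242959349081381920)) (.cons (.br (nat_lit 9) (nat_lit 0) (.cons (.br (nat_lit 12) (nat_lit 0) (.cons (.ev (nat_lit 4722438823042466512896) (nat_lit 1)) (.cons (.br (nat_lit 5) (nat_lit 1) (.cons (.ev (nat_lit 79229371458602754989994606593) (nat_lit 1)) (.cons (.ev (nat_lit 79537647524157741355835130113) (nat_lit 1)) .nil))) .nil))) (.cons (.br (nat_lit 10) (nat_lit 0) (.cons (.rf (nat_lit 1025) (nat_lit 493858305440582043680)) (.cons (.br (nat_lit 11) (nat_lit 0) (.cons (.rf (nat_lit 1025) (nat_lit 493823394846888528128)) .nil)) .nil))) .nil))) (.cons (.br (nat_lit 9)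 (nat_lit 0) (.cons (.br (nat_lit 5) (nat_lit 1) (.cons (.ev (nat_lit 1213648258156196664508673) (nat_lit 1)) (.cons (.ev (nat_lit 309489750706630709924134913) (nat_lit 1)) (.cons (.br (nat_lit 13) (nat_lit 1) (.cons (.ev (nat_lit 20282410817299928579044404101376) (nat_lit 1)) (.cons (.ev (nat_lit 20282719093402377053557663727616) (nat_lit 1)) .nil))) .nil)))) (.cons (.br (nat_lit 12) (nat_lit 0) (.cons (.br (nat_lit 5) (nat_lit 1) (.cons (.rf (nat_lit 1026) (nat_lit 493858305440582043680)) (.cons (.rf (nat_lit 1026) (nat_lit 493823394846888528128)) .nil))) (.cons (.ev (nat_lit 79228167255149903610208321793) (nat_lit 1)) .nil))) (.cons (.br (nat_lit 10) (nat_lit 0) (.cons (.br (nat_lit 6) (nat_lit 1) (.cons (.ev (nat_lit 20282413235170014833847178428417) (nat_lit 2)) (.cons (.br (nat_lit 5) (nat_lit 1) (.cons (.ev (nat_lit 121777724819810131660931514827524) (nat_lit 4)) .nil)) .nil))) (.cons (.br (nat_lit 11) (nat_lit 0) (.cons (.ev (nat_lit 20283338063403573281092119101697) (nat_lit 2)) .nil))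 .nil))) .nil)))) .nil)))),
 (.br (nat_lit 11) (nat_lit 0) (.cons (.ev (nat_lit 81400616471518741641906291460) (nat_lit 3)) .nil)),
 (.br (nat_lit 5) (nat_lit 1) (.cons (.ev (nat_lit 1213648258156196664508673) (nat_lit 1)) (.cons (.ev (nat_lit 309489750706630709924134913) (nat_lit 1)) (.cons (.br (nat_lit 6) (nat_lit 1) (.cons (.rf (nat_lit 1028) (nat_lit 493858305440582043680)) (.cons (.rf (nat_lit 1028) (nat_lit 493823394846888528128)) .nil))) .nil)))),
 (.br (nat_lit 9) (nat_lit 0) (.cons (.ev (nat_lit 1213648258156196664508673) (nat_lit 1)) (.cons (.rf (nat_lit 1029) (nat_lit 493858305438436657184)) (.cons (.br (nat_lit 5) (nat_lit 1) (.cons (.br (nat_lit 6) (nat_lit 1) (.cons (.ev (nat_lit 40648086462019999307650658798348) (nat_lit 4)) .nil)) (.cons (.br (nat_lit 6) (nat_lit 1) (.cons (.zr (nat_lit 316912650130844332166572409859) (nat_lit 932095974383178631434207232) (nat_lit 10) (nat_lit 0)) .nil)) .nil))) .nil)))),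
 (.br (nat_lit 7) (nat_lit 0) (.cons (.rf (nat_lit 1015) (nat_lit 14242959349081381920)) (.cons (.rf (nat_lit 1015) (nat_lit 14242959349148425248)) (.cons (.br (nat_lit 4) (nat_lit 1) (.cons (.rf (nat_lit 1029) (nat_lit 493858305440582043680)) (.cons (.rf (nat_lit 1030) (nat_lit 493858305440582043680)) (.cons (.rf (nat_lit 1030) (nat_lit 493823394846888528128)) (.cons (.br (nat_lit 6) (nat_lit 1) (.cons (.rf (nat_lit 1029) (nat_lit 493858305438436657184)) (.cons (.rf (nat_lit 1030) (nat_lit 493858305438436657184)) (.cons (.rf (nat_lit 1030) (nat_lit 493823394844743141632)) .nil)))) .nil))))) .nil)))),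
 (.br (nat_lit 10) (nat_lit 0) (.cons (.br (nat_lit 11) (nat_lit 0) (.cons (.br (nat_lit 12) (nat_lit 0) (.cons (.ev (nat_lit 20282410812596008840244173537281) (nat_lit 1)) .nil)) .nil)) (.cons (.br (nat_lit 11) (nat_lit 0) (.cons (.ev (nat_lit 1213666632842672057876481) (nat_lit 1)) (.cons (.ev (nat_lit 20282410817299928860519397654528) (nat_lit 1)) .nil))) .nil))),
 (.br (nat_lit 11) (nat_lit 0) (.cons (.br (nat_lit 12) (nat_lit 0) (.cons (.ev (nat_lit 81209182130371915730901669185028) (nat_lit 3)) .nil)) (.cons (.ev (nat_lit 20282410817299928860519397654528) (nat_lit 1)) .nil))),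
 (.br (nat_lit 11) (nat_lit 0) (.cons (.br (nat_lit 6) (nat_lit 1) (.cons (.br (nat_lit 12) (nat_lit 0) (.cons (.ev (nat_lit 284036370589930988919726319011592) (nat_lit 4)) .nil)) (.cons (.ev (nat_lit 79537647524157741355835130113) (nat_lit 1)) .nil))) (.cons (.br (nat_lit 10) (nat_lit 0) (.cons (.ev (nat_lit 309489732188110512858398721) (nat_lit 1)) (.cons (.ev (nat_lit 20282409603670189507089975542016) (nat_lit 1)) .nil))) (.cons (.ev (nat_lit 20282719093402377053557663727616) (nat_lit 1)) .nil)))),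
 (.br (nat_lit 5) (nat_lit 1) (.cons (.rf (nat_lit 1034) (nat_lit 493823394846821484800)) (.cons (.br (nat_lit 6) (nat_lit 1) (.cons (.ev (nat_lit 1859327929015170761123694340) (nat_lit 3)) (.cons (.br (nat_lit 9) (nat_lit 0) (.cons (.ev (nat_lit 81209803527688218850785254245894) (nat_lit 3)) .nil)) .nil))) (.cons (.br (nat_lit 11) (nat_lit 0) (.cons (.br (nat_lit 9) (nat_lit 0) (.cons (.ev (nat_lit 79538889635815754141251471106) (nat_lit 3)) .nil)) (.cons (.zr (nat_lit 158456325046975420364604047616) (nat_lit 311902861532631921112186880) (nat_lit 5) (nat_lit 5)) .nil))) .nil)))),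
 (.br (nat_lit 5) (nat_lit 1) (.cons (.rf (nat_lit 1034) (nat_lit 493823394846821484800)) (.cons (.kr (nat_lit 1099511628032) (nat_lit 18446744073726328832) (nat_lit 1) (nat_lit 0)) (.cons (.br (nat_lit 6) (nat_lit 1) (.cons (.br (nat_lit 10) (nat_lit 0) (.cons (.ev (nat_lit 40645596018088830246785512572160) (nat_lit 3)) .nil)) (.cons (.br (nat_lit 9) (nat_lit 0) (.cons (.ev (nat_lit 80776810785634077020482765570) (nat_lit 3)) .nil)) .nil))) .nil)))),
 (.br (nat_lit 7) (nat_lit 0) (.cons (.rf (nat_lit 1003) (nat_lit 14208048758574456064)) (.cons (.rf (nat_lit 1003) (nat_lit 14242959352335014944)) (.cons (.br (nat_lit 9) (nat_lit 0) (.cons (.rf (nat_lit 1032) (nat_lit 493858305440582043680)) (.cons (.rf (nat_lit 1032) (nat_lit 493823394846821484800)) (.cons (.br (nat_lit 3) (nat_lit 1) (.cons (.rf (nat_lit 1033) (nat_lit 493858305440582043680)) (.cons (.br (nat_lit 5) (nat_lit 1) (.cons (.kr (nat_lit 1099511628032) (nat_lit 18446744073726328832) (nat_lit 1) (nat_lit 0)) (.cons (.ev (nat_lit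 309485028268371721217638656) (nat_lit 1)) .nil))) (.cons (.br (nat_lit 5) (nat_lit 1) (.cons (.ev (nat_lit 1208944266640182172713216) (nat_lit 1)) (.cons (.rf (nat_lit 1033) (nat_lit 493823394846821484800)) .nil))) .nil)))) .nil)))) (.cons (.br (nat_lit 3) (nat_lit 1) (.cons (.rf (nat_lit 1034) (nat_lit 493858305440582043680)) (.cons (.rf (nat_lit 1035) (nat_lit 493858305440582043680)) (.cons (.rf (nat_lit 1036) (nat_lit 493858305440582043680)) (.cons (.br (nat_lit 5) (nat_lit 1) (.cons (.rf (nat_lit 1034) (nat_lit 493823394846821484800)) (.cons (.rf (nat_lit 1036) (nat_lit 493823394846821484800)) (.cons (.rf (nat_lit 1035) (nat_lit 493823394846821484800)) .nil)))) .nil))))) .nil))))),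
 (.br (nat_lit 8) (nat_lit 0) (.cons (.br (nat_lit 1) (nat_lit 0) (.cons (.rf (nat_lit 887) (nat_lit 14242959524133701664)) (.cons (.rf (nat_lit 939) (nat_lit 14242959524133701664)) (.cons (.rf (nat_lit 887) (nat_lit 14242959521988315168)) (.cons (.br (nat_lit 7) (nat_lit 0) (.cons (.rf (nat_lit 1027) (nat_lit 493858305440582043680)) (.cons (.rf (nat_lit 1031) (nat_lit 493858305440582043680)) (.cons (.rf (nat_lit 1027) (nat_lit 493858305438436657184)) (.cons (.br (nat_lit 7) (nat_lit 0) (.cons (.rf (nat_lit 1027) (nat_lit 493858305440582043680)) (.cons (.rf (nat_lit 1031) (nat_lit 493858305440582043680)) (.cons (.rf (nat_lit 1027) (nat_lit 493858305438436657184)) .nil)))) .nil))))) .nil))))) (.cons (.rf (nat_lit 1003) (nat_lit 14242959523025455136)) (.cons (.br (nat_lit 1) (nat_lit 0) (.cons (.rf (nat_lit 887) (nat_lit 14242959524133701664)) (.cons (.rf (nat_lit 939) (nat_lit 14242959524133701664)) (.cons (.rf (nat_lit 887) (nat_lit 14242959521988315168)) (.cons (.br (nat_lit 7) (nat_lit 0)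 (.cons (.rf (nat_lit 1003) (nat_lit 14208048758574456064)) (.cons (.rf (nat_lit 1037) (nat_lit 493858305440582043680)) (.cons (.rf (nat_lit 1003) (nat_lit 14242959352335014944)) (.cons (.rf (nat_lit 1037) (nat_lit 493858305438436657184)) (.cons (.br (nat_lit 7) (nat_lit 0) (.cons (.rf (nat_lit 1003) (nat_lit 14208048758574456064)) (.cons (.rf (nat_lit 1037) (nat_lit 493858305440582043680)) (.cons (.rf (nat_lit 1003) (nat_lit 14242959352335014944)) (.cons (.rf (nat_lit 1037) (nat_lit 493858305438436657184)) .nil))))) .nil)))))) .nil))))) (.cons (.rf (nat_lit 1003) (nat_lit 14242959523092498464)) .nil))))),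
 (.br (nat_lit 8) (nat_lit 0) (.cons (.rf (nat_lit 1038) (nat_lit 493823394846888528128)) (.cons (.rf (nat_lit 1003) (nat_lit 14242959523025455136)) (.cons (.rf (nat_lit 1038) (nat_lit 493823394846821484800)) (.cons (.rf (nat_lit 1003) (nat_lit 14242959523092498464)) (.cons (.rf (nat_lit 1038) (nat_lit 493858305440582043680)) .nil)))))),
 (.br (nat_lit 6) (nat_lit 1) (.cons (.ev (nat_lit 202904880119710551847119704885002) (nat_lit 4)) .nil)),
 (.br (nat_lit 8) (nat_lit 0) (.cons (.rf (nat_lit 939) (nat_lit 14208048930440186112)) (.cons (.rf (nat_lit 887) (nat_lit 14208048928294799616)) (.cons (.br (nat_lit 9) (nat_lit 0) (.cons (.br (nat_lit 12) (nat_lit 0) (.cons (.zr (nat_lit 18446746272732807427) (nat_lit 40644047374539971668357725290496) (nat_lit 5) (nat_lit 0)) (.cons (.br (nat_lit 5) (nat_lit 1) (.cons (.rf (nat_lit 1040) (nat_lit 493858305440582043680)) (.cons (.rf (nat_lit 1040) (nat_lit 493823394846888528128)) .nil))) .nil))) (.cons (.br (nat_lit 10) (nat_lit 0) (.cons (.br (nat_lit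 5) (nat_lit 1) (.cons (.br (nat_lit 6) (nat_lit 1) (.cons (.ev (nat_lit 4740885567111897874688) (nat_lit 1)) .nil)) (.cons (.ev (nat_lit 20361638979832567604217131302913) (nat_lit 1)) .nil))) (.cons (.br (nat_lit 11) (nat_lit 0) (.cons (.ev (nat_lit 20283338063403573281092119101697) (nat_lit 2)) .nil)) .nil))) .nil))) .nil)))),
 (.br (nat_lit 10) (nat_lit 0) (.cons (.br (nat_lit 11) (nat_lit 0) (.cons (.br (nat_lit 6) (nat_lit 1) (.cons (.ev (nat_lit 1208925891954801996005376) (nat_lit 1)) .nil)) .nil)) (.cons (.br (nat_lit 5) (nat_lit 1) (.cons (.br (nat_lit 6) (nat_lit 1) (.cons (.ev (nat_lit 121776482072512591861963743759110) (nat_lit 4)) .nil)) (.cons (.br (nat_lit 6) (nat_lit 1) (.cons (.ev (nat_lit 80781637044036578336435144448) (nat_lit 3)) .nil)) .nil))) .nil))),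
 (.br (nat_lit 6) (nat_lit 1) (.cons (.ev (nat_lit 20283029787338162409922910945281) (nat_lit 2)) (.cons (.br (nat_lit 5) (nat_lit 1) (.cons (.ev (nat_lit 626242482762410840476092160) (nat_lit 3)) .nil)) .nil))),
 (.br (nat_lit 8) (nat_lit 0) (.cons (.rf (nat_lit 939) (nat_lit 14208048930440186112)) (.cons (.rf (nat_lit 887) (nat_lit 14208048928227756288)) (.cons (.br (nat_lit 9) (nat_lit 0) (.cons (.rf (nat_lit 1042) (nat_lit 493858305440582043680)) (.cons (.rf (nat_lit 1042) (nat_lit 493823394846821484800)) (.cons (.br (nat_lit 3) (nat_lit 1) (.cons (.rf (nat_lit 1043) (nat_lit 493858305440582043680)) (.cons (.br (nat_lit 5) (nat_lit 1) (.cons (.kr (nat_lit 1099511628032) (nat_lit 18446744073726328832) (nat_lit 1) (nat_lit 0)) (.cons (.ev (nat_lit 20282719088679938514189214023681) (nat_lit 1)) .nil))) (.cons (.br (nat_lit 5) (nat_lit 1) (.cons (.ev (nat_lit 20282410812577490039675954397441) (nat_lit 1)) (.cons (.rf (nat_lit 1043) (nat_lit 493823394846821484800)) .nil))) .nil)))) .nil))))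 .nil))))]

theorem c32 : chkAll C T R L32 (nat_lit 1018) = true := by decide +kernel

theorem l32 : (nat_lit 1018) + L32.length = (nat_lit 1045) := by decide +kernel

/-- part of the certificates -/
def L33 : List Prf := [(.br (nat_lit 8) (nat_lit 0) (.cons (.rf (nat_lit 887) (nat_lit 14208048928294799616)) (.cons (.rf (nat_lit 887) (nat_lit 14208048928227756288)) (.cons (.br (nat_lit 9) (nat_lit 0) (.cons (.br (nat_lit 6) (nat_lit 1) (.cons (.br (nat_lit 11) (nat_lit 0) (.cons (.br (nat_lit 5) (nat_lit 1) (.cons (.ev (nat_lit 4740885567111897874688) (nat_lit 1)) .nil)) .nil)) (.cons (.rf (nat_lit 983) (nat_lit 493821220905200786496)) (.cons (.ev (nat_lit 79228162532783420740579950848) (nat_lit 1)) .nil)))) (.cons (.br (nat_lit 3) (nat_lit 1) (.cons (.br (nat_lit 6) (nat_lit 1) (.cons (.rf (nat_lit 983) (nat_lit 493786318008088665152)) (.cons (.ev (nat_lit 79229376162522774161378574336) (nat_lit 1)) .nil))) (.cons (.br (nat_lit 5) (nat_lit 1) (.cons (.br (nat_lit 6) (nat_lit 1) (.cons (.ev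 (nat_lit 121775855829900990476264958788358) (nat_lit 3)) .nil)) (.cons (.ev (nat_lit 20282409608374108965510462898433) (nat_lit 1)) .nil))) (.cons (.br (nat_lit 11) (nat_lit 0) (.cons (.ev (nat_lit 20282409608374108965510462898433) (nat_lit 1)) (.cons (.ev (nat_lit 20362256740926607132887280189441) (nat_lit 2)) .nil))) .nil)))) (.cons (.br (nat_lit 10) (nat_lit 0) (.cons (.br (nat_lit 11) (nat_lit 0) (.cons (.br (nat_lit 5) (nat_lit 1) (.cons (.ev (nat_lit 20282410812596008841347980132353) (nat_lit 1)) .nil)) .nil)) (.cons (.br (nat_lit 3) (nat_lit 1) (.cons (.br (nat_lit 5) (nat_lit 1) (.cons (.ev (nat_lit 121774617870972527390489651380998) (nat_lit 3)) .nil)) (.cons (.br (nat_lit 5) (nat_lit 1) (.cons (.ev (nat_lit 313121250531959666150277376) (nat_lit 2)) .nil)) .nil))) .nil))) .nil)))) .nil)))),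
 (.br (nat_lit 7) (nat_lit 0) (.cons (.rf (nat_lit 1003) (nat_lit 14208048758574456064)) (.cons (.rf (nat_lit 1015) (nat_lit 14208048755387866368)) (.cons (.rf (nat_lit 1039) (nat_lit 493858305268783356960)) (.cons (.br (nat_lit 8) (nat_lit 0) (.cons (.rf (nat_lit 1041) (nat_lit 493858305440582043680)) (.cons (.rf (nat_lit 1044) (nat_lit 493858305440582043680)) (.cons (.rf (nat_lit 1045) (nat_lit 493858305440582043680)) (.cons (.br (nat_lit 8) (nat_lit 0) (.cons (.rf (nat_lit 1041) (nat_lit 493858305440582043680)) (.cons (.rf (nat_lit 1044) (nat_lit 493858305440582043680)) (.cons (.rf (nat_lit 1045) (nat_lit 493858305440582043680)) .nil)))) .nil))))) .nil))))),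
 (.br (nat_lit 6) (nat_lit 1) (.cons (.br (nat_lit 5) (nat_lit 1) (.cons (.ev (nat_lit 80157859618707380278996960000) (nat_lit 3)) .nil)) (.cons (.ev (nat_lit 1208925819896108463227136) (nat_lit 1)) .nil))),
 (.br (nat_lit 5) (nat_lit 1) (.cons (.ev (nat_lit 1208925891954801996005376) (nat_lit 1)) .nil)),
 (.br (nat_lit 4) (nat_lit 1) (.cons (.br (nat_lit 6) (nat_lit 1) (.cons (.rf (nat_lit 1048) (nat_lit 493858305440582043680)) (.cons (.ev (nat_lit 1208925819896108463227136) (nat_lit 1)) .nil))) (.cons (.br (nat_lit 5) (nat_lit 1) (.cons (.kr (nat_lit 1208925819615728686399744) (nat_lit 309485028340146740767227904) (nat_lit 1) (nat_lit 0)) (.cons (.ev (nat_lit 20361947255898122590578693701633) (nat_lit 1)) .nil))) (.cons (.br (nat_lit 5) (nat_lit 1) (.cons (.br (nat_lit 6) (nat_lit 1) (.cons (.ev (nat_lit 80781636970536141360308880640) (nat_lit 3)) .nil)) (.cons (.br (nat_lit 6) (nat_lit 1) (.cons (.ev (nat_lit 40564821625155052701003985060610) (nat_lit 2)) .nil)) .nil))) .nil)))),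
 (.br (nat_lit 6) (nat_lit 1) (.cons (.rf (nat_lit 1049) (nat_lit 493823394671836208384)) (.cons (.br (nat_lit 4) (nat_lit 1) (.cons (.br (nat_lit 5) (nat_lit 1) (.cons (.zr (nat_lit 23704066134733953697024) (nat_lit 20283030991523096741105631690753) (nat_lit 5) (nat_lit 3)) .nil)) (.cons (.br (nat_lit 5) (nat_lit 1) (.cons (.zr (nat_lit 23704066139114820338944) (nat_lit 20283030991523457027980604342273) (nat_lit 5) (nat_lit 6)) .nil)) .nil))) (.cons (.br (nat_lit 4) (nat_lit 1) (.cons (.ev (nat_lit 79229376162522774161378574336) (nat_lit 1)) (.cons (.br (nat_lit 5) (nat_lit 1) (.cons (.ev (nat_lit 20283341694958810618397108338689) (nat_lit 2)) .nil)) .nil))) .nil)))),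
 (.br (nat_lit 9) (nat_lit 0) (.cons (.br (nat_lit 6) (nat_lit 1) (.cons (.kr (nat_lit 281474976776192) (nat_lit 18446744078004518912) (nat_lit 2) (nat_lit 0)) (.cons (.ev (nat_lit 20282719088679938794568957362433) (nat_lit 1)) .nil))) (.cons (.kr (nat_lit 1099511628032) (nat_lit 72057594054705152) (nat_lit 1) (nat_lit 0)) (.cons (.rf (nat_lit 1049) (nat_lit 493823394671836208384)) .nil)))),
 (.br (nat_lit 8) (nat_lit 0) (.cons (.br (nat_lit 1) (nat_lit 0) (.cons (.rf (nat_lit 887) (nat_lit 14242959524133701664)) (.cons (.rf (nat_lit 939) (nat_lit 14242959524133701664)) (.cons (.rf (nat_lit 887) (nat_lit 14242959521988315168)) (.cons (.br (nat_lit 9) (nat_lit 0) (.cons (.br (nat_lit 12) (nat_lit 0) (.cons (.ev (nat_lit 79228162532783140365114867968) (nat_lit 1)) (.cons (.br (nat_lit 5) (nat_lit 1) (.cons (.rf (nat_lit 880) (nat_lit 493823394672944454912)) (.cons (.rf (nat_lit 880) (nat_lit 493858305266637970464)) .nil))) .nil))) (.cons (.br (nat_lit 4) (nat_lit 1) (.cons (.rf (nat_lit 983)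 (nat_lit 493858304169271730208)) (.cons (.rf (nat_lit 983) (nat_lit 493823401272159608864)) (.cons (.br (nat_lit 10) (nat_lit 0) (.cons (.br (nat_lit 6) (nat_lit 1) (.cons (.ev (nat_lit 310698676454469220037558528) (nat_lit 1)) .nil)) .nil)) .nil)))) (.cons (.br (nat_lit 4) (nat_lit 1) (.cons (.rf (nat_lit 1047) (nat_lit 493858305440582043680)) (.cons (.rf (nat_lit 1047) (nat_lit 493823394846888528128)) (.cons (.rf (nat_lit 1020) (nat_lit 493858305266637970464)) .nil)))) .nil)))) .nil))))) (.cons (.rf (nat_lit 1003) (nat_lit 14242959523025455136)) (.cons (.rf (nat_lit 1003) (nat_lit 14242959352335014944)) (.cons (.br (nat_lit 1) (nat_lit 0) (.cons (.rf (nat_lit 887) (nat_lit 14242959524133701664)) (.cons (.rf (nat_lit 939) (nat_lit 14242959524133701664)) (.cons (.rf (nat_lit 887) (nat_lit 14242959521988315168)) (.cons (.br (nat_lit 3) (nat_lit 1) (.cons (.rf (nat_lit 1049) (nat_lit 493858305440582043680)) (.cons (.rf (nat_lit 1050) (nat_lit 493858305440582043680)) (.cons (.rf (nat_lit 1051)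 (nat_lit 493858305440582043680)) (.cons (.br (nat_lit 6) (nat_lit 1) (.cons (.rf (nat_lit 1049) (nat_lit 493823394671836208384)) (.cons (.rf (nat_lit 1051) (nat_lit 493823394671836208384)) (.cons (.rf (nat_lit 1050) (nat_lit 493823394671836208384)) .nil)))) .nil))))) .nil))))) .nil))))),
 (.br (nat_lit 7) (nat_lit 0) (.cons (.rf (nat_lit 1003) (nat_lit 14208048758574456064)) (.cons (.rf (nat_lit 1015) (nat_lit 14208048755387866368)) (.cons (.rf (nat_lit 1024) (nat_lit 493858305266637970464)) (.cons (.br (nat_lit 8) (nat_lit 0) (.cons (.rf (nat_lit 1052) (nat_lit 493823394846888528128)) (.cons (.rf (nat_lit 1003) (nat_lit 14242959523025455136)) (.cons (.rf (nat_lit 1003) (nat_lit 14242959352335014944)) (.cons (.rf (nat_lit 1052) (nat_lit 493823394671836208384)) (.cons (.rf (nat_lit 1052) (nat_lit 493858305440582043680)) .nil)))))) .nil))))),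
 (.br (nat_lit 5) (nat_lit 1) (.cons (.br (nat_lit 6) (nat_lit 1) (.cons (.ev (nat_lit 121775860646788589979606471476486) (nat_lit 3)) .nil)) (.cons (.ev (nat_lit 20282410812577490039675954397441) (nat_lit 1)) .nil))),
 (.br (nat_lit 10) (nat_lit 0) (.cons (.rf (nat_lit 1054) (nat_lit 493858305440582043680)) (.cons (.br (nat_lit 11) (nat_lit 0) (.cons (.rf (nat_lit 1054) (nat_lit 493823394846888528128)) .nil)) .nil))),
 (.br (nat_lit 4) (nat_lit 1) (.cons (.br (nat_lit 6) (nat_lit 1) (.cons (.ev (nat_lit 202903647015521830638796182980362) (nat_lit 4)) .nil)) (.cons (.br (nat_lit 6) (nat_lit 1) (.cons (.ev (nat_lit 202903647015521830638796182980362) (nat_lit 4)) .nil)) .nil))),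
 (.br (nat_lit 6) (nat_lit 1) (.cons (.br (nat_lit 5) (nat_lit 1) (.cons (.ev (nat_lit 40565129901257428553869446808066) (nat_lit 2)) .nil)) (.cons (.rf (nat_lit 982) (nat_lit 493823394844676098304)) .nil))),
 (.br (nat_lit 4) (nat_lit 1) (.cons (.rf (nat_lit 1057) (nat_lit 493858305440582043680)) (.cons (.br (nat_lit 6) (nat_lit 1) (.cons (.rf (nat_lit 1057) (nat_lit 493858305266637970464)) (.cons (.ev (nat_lit 20361947255898122870958436909313) (nat_lit 1)) .nil))) (.cons (.br (nat_lit 6) (nat_lit 1) (.cons (.rf (nat_lit 982) (nat_lit 493823394675022798080)) (.cons (.ev (nat_lit 20361947255898122870958436909313) (nat_lit 1)) .nil))) .nil)))),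
 (.br (nat_lit 5) (nat_lit 1) (.cons (.rf (nat_lit 1058) (nat_lit 493823394846821484800)) (.cons (.br (nat_lit 4) (nat_lit 1) (.cons (.br (nat_lit 6) (nat_lit 1) (.cons (.zr (nat_lit 47315898552363585111296) (nat_lit 40566061983046193480020795850754) (nat_lit 10) (nat_lit 4)) .nil)) (.cons (.br (nat_lit 6) (nat_lit 1) (.cons (.zr (nat_lit 47315898552363585111296) (nat_lit 40566061983046193480020795850754) (nat_lit 10) (nat_lit 6)) .nil)) .nil))) (.cons (.br (nat_lit 9) (nat_lit 0) (.cons (.ev (nat_lit 1208925819615732998144256) (nat_lit 1)) (.cons (.ev (nat_lit 1208925891954797717750016) (nat_lit 1)) .nil))) .nil)))),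
 (.br (nat_lit 8) (nat_lit 0) (.cons (.br (nat_lit 1) (nat_lit 0) (.cons (.rf (nat_lit 887) (nat_lit 14242959524133701664)) (.cons (.rf (nat_lit 939) (nat_lit 14242959524133701664)) (.cons (.rf (nat_lit 887) (nat_lit 14242959521988315168)) (.cons (.br (nat_lit 9) (nat_lit 0) (.cons (.rf (nat_lit 1055) (nat_lit 493858305440582043680)) (.cons (.br (nat_lit 5) (nat_lit 1) (.cons (.rf (nat_lit 1056) (nat_lit 493858305440582043680)) (.cons (.rf (nat_lit 1056) (nat_lit 493823394846888528128)) (.cons (.ev (nat_lit 4722438541563194834944) (nat_lit 1)) .nil)))) (.cons (.rf (nat_lit 1055) (nat_lit 493858305266637970464)) .nil)))) .nil))))) (.cons (.rf (nat_lit 1003) (nat_lit 14242959523025455136)) (.cons (.br (nat_lit 1) (nat_lit 0) (.cons (.rf (nat_lit 887) (nat_lit 14242959524133701664)) (.cons (.rf (nat_lit 939) (nat_lit 14242959524133701664)) (.cons (.rf (nat_lit 887) (nat_lit 14242959521988315168)) (.cons (.br (nat_lit 3) (nat_lit 1) (.cons (.rf (nat_lit 1058) (nat_lit 493858305440582043680)) (.cons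 (.rf (nat_lit 1059) (nat_lit 493858305440582043680)) (.cons (.br (nat_lit 5) (nat_lit 1) (.cons (.rf (nat_lit 1058) (nat_lit 493823394846821484800)) (.cons (.kr (nat_lit 1099511628032) (nat_lit 18446744073726328832) (nat_lit 1) (nat_lit 0)) (.cons (.ev (nat_lit 20282719088679938514189214023681) (nat_lit 1)) .nil)))) (.cons (.br (nat_lit 5) (nat_lit 1) (.cons (.rf (nat_lit 1058) (nat_lit 493823394846821484800)) (.cons (.ev (nat_lit 20282410812577490039675954397441) (nat_lit 1)) (.cons (.rf (nat_lit 1059) (nat_lit 493823394846821484800)) .nil)))) .nil))))) .nil))))) (.cons (.rf (nat_lit 1003) (nat_lit 14242959351293811744)) .nil))))),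
 (.br (nat_lit 7) (nat_lit 0) (.cons (.rf (nat_lit 1003) (nat_lit 14208048758574456064)) (.cons (.rf (nat_lit 1039) (nat_lit 493858305268783356960)) (.cons (.rf (nat_lit 1024) (nat_lit 493858305266637970464)) (.cons (.br (nat_lit 8) (nat_lit 0) (.cons (.rf (nat_lit 1060) (nat_lit 493823394846888528128)) (.cons (.rf (nat_lit 1003) (nat_lit 14242959523025455136)) (.cons (.rf (nat_lit 1060) (nat_lit 493823394846821484800)) (.cons (.rf (nat_lit 1003) (nat_lit 14242959351293811744)) (.cons (.rf (nat_lit 1060) (nat_lit 493858305440582043680)) .nil)))))) .nil))))),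
 (.br (nat_lit 12) (nat_lit 0) (.cons (.ev (nat_lit 79228162532783140365114867968) (nat_lit 1)) (.cons (.br (nat_lit 6) (nat_lit 1) (.cons (.ev (nat_lit 20361638979832567885687813046273) (nat_lit 1)) (.cons (.ev (nat_lit 20361947255898122872053653569793) (nat_lit 1)) .nil))) .nil))),
 (.br (nat_lit 8) (nat_lit 0) (.cons (.rf (nat_lit 887) (nat_lit 14208048930440186112)) (.cons (.rf (nat_lit 887) (nat_lit 14208048927253596416)) (.cons (.rf (nat_lit 939) (nat_lit 14208048929398982912)) (.cons (.br (nat_lit 2) (nat_lit 0) (.cons (.rf (nat_lit 1039) (nat_lit 493823394845847324928)) (.cons (.rf (nat_lit 1003) (nat_lit 14242959523025455136)) (.cons (.rf (nat_lit 1024) (nat_lit 493823394843701938432)) (.cons (.br (nat_lit 7) (nat_lit 0) (.cons (.rf (nat_lit 1061) (nat_lit 493823394843701938432)) (.cons (.rf (nat_lit 1003) (nat_lit 14242959351226768416)) (.cons (.rf (nat_lit 1046) (nat_lit 493823394843701938432)) (.cons (.rf (nat_lit 1053) (nat_lit 493823394843701938432)) (.cons (.br (nat_lit 7) (nat_lit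 0) (.cons (.rf (nat_lit 1061) (nat_lit 493823394843701938432)) (.cons (.rf (nat_lit 1003) (nat_lit 14242959351226768416)) (.cons (.rf (nat_lit 1046) (nat_lit 493823394843701938432)) (.cons (.rf (nat_lit 1053) (nat_lit 493823394843701938432)) .nil))))) .nil)))))) .nil))))) .nil))))),
 (.br (nat_lit 8) (nat_lit 0) (.cons (.br (nat_lit 1) (nat_lit 0) (.cons (.rf (nat_lit 887) (nat_lit 14242959524133701664)) (.cons (.rf (nat_lit 887) (nat_lit 14242959521988315168)) (.cons (.br (nat_lit 9) (nat_lit 0) (.cons (.rf (nat_lit 1062) (nat_lit 493858305440582043680)) (.cons (.rf (nat_lit 1062) (nat_lit 493858305438436657184)) .nil))) .nil)))) (.cons (.rf (nat_lit 1063) (nat_lit 14242959524133701664)) (.cons (.rf (nat_lit 1063) (nat_lit 14242959521988315168)) .nil)))),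
 (.br (nat_lit 7) (nat_lit 0) (.cons (.rf (nat_lit 1003) (nat_lit 14208048758574456064)) (.cons (.rf (nat_lit 1063) (nat_lit 14208048757533252864)) (.cons (.br (nat_lit 2) (nat_lit 0) (.cons (.rf (nat_lit 1003) (nat_lit 14208048930373142784)) (.cons (.rf (nat_lit 1063) (nat_lit 14208048929331939584)) (.cons (.rf (nat_lit 1063) (nat_lit 14208048929398982912)) (.cons (.br (nat_lit 8) (nat_lit 0) (.cons (.rf (nat_lit 1064) (nat_lit 493823394846888528128)) (.cons (.rf (nat_lit 1063) (nat_lit 14242959524133701664)) (.cons (.rf (nat_lit 1063) (nat_lit 14242959521988315168)) (.cons (.rf (nat_lit 1064) (nat_lit 493858305440582043680)) .nil))))) .nil))))) (.cons (.rf (nat_lit 1063) (nat_lit 14208048757600296192)) .nil))))),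
 (.br (nat_lit 2) (nat_lit 0) (.cons (.rf (nat_lit 1003) (nat_lit 14208048930373142784)) (.cons (.rf (nat_lit 1063) (nat_lit 14208048929331939584)) (.cons (.rf (nat_lit 1063) (nat_lit 14208048929398982912)) (.cons (.br (nat_lit 7) (nat_lit 0) (.cons (.rf (nat_lit 1003) (nat_lit 14208048758574456064)) (.cons (.rf (nat_lit 1063) (nat_lit 14208048757533252864)) (.cons (.rf (nat_lit 1065) (nat_lit 493858305268783356960)) (.cons (.rf (nat_lit 1063) (nat_lit 14208048757600296192)) (.cons (.rf (nat_lit 1065) (nat_lit 493858305440582043680)) .nil)))))) .nil))))),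
 (.br (nat_lit 10) (nat_lit 1) (.cons (.br (nat_lit 11) (nat_lit 1) (.cons (.br (nat_lit 1) (nat_lit 0) (.cons (.rf (nat_lit 887) (nat_lit 14242959524133701664)) (.cons (.rf (nat_lit 939) (nat_lit 14242959524133701664)) (.cons (.rf (nat_lit 887) (nat_lit 14242959521988315168)) (.cons (.br (nat_lit 2) (nat_lit 0) (.cons (.rf (nat_lit 1003) (nat_lit 14208048930373142784)) (.cons (.rf (nat_lit 1063) (nat_lit 14208048929331939584)) (.cons (.rf (nat_lit 1066) (nat_lit 493858305440582043680)) (.cons (.rf (nat_lit 1063) (nat_lit 14208048929398982912)) (.cons (.br (nat_lit 2) (nat_lit 0) (.cons (.rf (nat_lit 1003) (nat_lit 14208048930373142784)) (.cons (.rf (nat_lit 1063) (nat_lit 14208048929331939584)) (.cons (.rf (nat_lit 1066) (nat_lit 493858305440582043680)) (.cons (.rf (nat_lit 1063) (nat_lit 14208048929398982912)) .nil))))) .nil)))))) .nil))))) .nil)) .nil))]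

theorem c33 : chkAll C T R L33 (nat_lit 1045) = true := by decide +kernel

theorem l33 : (nat_lit 1045) + L33.length = (nat_lit 1068) := by decide +kernel

/-- part of the certificates -/
def L34 : List Prf := [(.br (nat_lit 8) (nat_lit 1) (.cons (.rf (nat_lit 29) (nat_lit 9668865)) (.cons (.rf (nat_lit 58) (nat_lit 9706561)) (.cons (.br (nat_lit 1) (nat_lit 1) (.cons (.rf (nat_lit 58) (nat_lit 9668648)) (.cons (.br (nat_lit 9) (nat_lit 1) (.cons (.br (nat_lit 1) (nat_lit 0) (.cons (.rf (nat_lit 732) (nat_lit 11584701642934304)) (.cons (.rf (nat_lit 758) (nat_lit 11584701642934304)) (.cons (.rf (nat_lit 732) (nat_lit 11584699497547808)) (.cons (.br (nat_lit 11) (nat_lit 1) (.cons (.rf (nat_lit 777) (nat_lit 407901468851537952)) (.cons (.rf (nat_lit 777) (nat_lit 407901297052851232)) (.cons (.rf (nat_lit 778) (nat_lit 407901468851537952)) (.cons (.rf (nat_lit 779) (nat_lit 407901468851537952)) (.cons (.br (nat_lit 11) (nat_lit 1) (.cons (.rf (nat_lit 777) (nat_lit 407901468851537952)) (.cons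 (.rf (nat_lit 777) (nat_lit 407901297052851232)) (.cons (.rf (nat_lit 778) (nat_lit 407901468851537952)) (.cons (.rf (nat_lit 779) (nat_lit 407901468851537952)) (.cons (.rf (nat_lit 689) (nat_lit 13230152769)) .nil)))))) (.cons (.rf (nat_lit 689) (nat_lit 13230152769)) .nil))))))) .nil))))) (.cons (.rf (nat_lit 82) (nat_lit 12156410945)) .nil))) (.cons (.br (nat_lit 9) (nat_lit 1) (.cons (.rf (nat_lit 84) (nat_lit 12156410945)) (.cons (.rf (nat_lit 84) (nat_lit 11115994184)) (.cons (.br (nat_lit 10) (nat_lit 1) (.cons (.rf (nat_lit 1067) (nat_lit 14242959524133701664)) (.cons (.br (nat_lit 10) (nat_lit 1) (.cons (.rf (nat_lit 1067) (nat_lit 14242959524133701664)) .nil)) .nil))) .nil)))) .nil)))) .nil)))),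
 (.br (nat_lit 7) (nat_lit 0) (.cons (.rf (nat_lit 1068) (nat_lit 325530775815392)) (.cons (.rf (nat_lit 1068) (nat_lit 325529734612192)) (.cons (.rf (nat_lit 1068) (nat_lit 325530708772064)) (.cons (.rf (nat_lit 1068) (nat_lit 325529667568864)) (.cons (.br (nat_lit 7) (nat_lit 0) (.cons (.rf (nat_lit 1068) (nat_lit 325530775815392)) (.cons (.rf (nat_lit 1068) (nat_lit 325529734612192)) (.cons (.rf (nat_lit 1068) (nat_lit 325530708772064)) (.cons (.rf (nat_lit 1068) (nat_lit 325529667568864)) .nil))))) .nil)))))),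
 (.br (nat_lit 9) (nat_lit 0) (.cons (.br (nat_lit 10) (nat_lit 0) (.cons (.br (nat_lit 11) (nat_lit 0) (.cons (.br (nat_lit 12) (nat_lit 0) (.cons (.kr (nat_lit 1213666632841572529471744) (nat_lit 79537647524157740256306724864) (nat_lit 1) (nat_lit 0)) .nil)) .nil)) .nil)) .nil)),
 (.br (nat_lit 11) (nat_lit 0) (.cons (.kr (nat_lit 1213666632841572529471744) (nat_lit 79537647524157740256306724864) (nat_lit 1) (nat_lit 0)) .nil)),
 (.br (nat_lit 9) (nat_lit 0) (.cons (.kr (nat_lit 1213666632841572529471744) (nat_lit 79537647524157740256306724864) (nat_lit 1) (nat_lit 0)) .nil)),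
 (.br (nat_lit 12) (nat_lit 0) (.cons (.kr (nat_lit 1213666632841572529471744) (nat_lit 79537647524157740256306724864) (nat_lit 1) (nat_lit 0)) .nil)),
 (.br (nat_lit 10) (nat_lit 0) (.cons (.kr (nat_lit 1213666632841572529471744) (nat_lit 79537647524157740256306724864) (nat_lit 1) (nat_lit 0)) .nil)),
 (.br (nat_lit 2) (nat_lit 0) (.cons (.br (nat_lit 7) (nat_lit 0) (.cons (.rf (nat_lit 1070) (nat_lit 14242959524133701664)) (.cons (.br (nat_lit 9) (nat_lit 0) (.cons (.br (nat_lit 10) (nat_lit 0) (.cons (.br (nat_lit 11) (nat_lit 0) (.cons (.br (nat_lit 12) (nat_lit 0) (.cons (.ev (nat_lit 162341303697593783834722860991234) (nat_lit 4)) .nil)) .nil)) .nil)) (.cons (.br (nat_lit 10) (nat_lit 0) (.cons (.br (nat_lit 11) (nat_lit 0) (.cons (.br (nat_lit 12) (nat_lit 0) (.cons (.ev (nat_lit 81398217435557906825026667778) (nat_lit 3)) .nil)) .nil)) (.cons (.br (nat_lit 6) (nat_lit 1) (.cons (.zr (nat_lit 2417906979461479545176064) (nat_lit 9444733248318073733633) (nat_lit 5) (nat_lit 6)) (.cons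 (.rf (nat_lit 1071) (nat_lit 493858305440582043680)) .nil))) .nil))) .nil))) .nil))) (.cons (.br (nat_lit 7) (nat_lit 0) (.cons (.rf (nat_lit 1070) (nat_lit 14242959523093514272)) (.cons (.br (nat_lit 9) (nat_lit 0) (.cons (.ev (nat_lit 1103806660609) (nat_lit 1)) (.cons (.br (nat_lit 10) (nat_lit 0) (.cons (.br (nat_lit 13) (nat_lit 1) (.cons (.ev (nat_lit 309485028340429315255632128) (nat_lit 1)) (.cons (.ev (nat_lit 79229376162450717671147175936) (nat_lit 1)) .nil))) (.cons (.br (nat_lit 5) (nat_lit 1) (.cons (.zr (nat_lit 2417906979461479545176064) (nat_lit 9444733248318073733633) (nat_lit 5) (nat_lit 6)) (.cons (.rf (nat_lit 1071) (nat_lit 493858305439541856288)) .nil))) .nil))) .nil))) .nil))) (.cons (.br (nat_lit 7) (nat_lit 0) (.cons (.br (nat_lit 10) (nat_lit 0) (.cons (.ev (nat_lit 72339069031415809) (nat_lit 1)) (.cons (.br (nat_lit 12) (nat_lit 0) (.cons (.kr (nat_lit 79228162514264338693055643648) (nat_lit 1208944266358702901035008) (nat_lit 2) (nat_lit 0)) (.cons (.br (nat_lit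 6) (nat_lit 1) (.cons (.br (nat_lit 11) (nat_lit 0) (.cons (.zr (nat_lit 928455029680209087833309184) (nat_lit 20282412021540203422832291479553) (nat_lit 5) (nat_lit 4)) .nil)) (.cons (.rf (nat_lit 1072) (nat_lit 493858305440582043680)) .nil))) .nil))) .nil))) (.cons (.br (nat_lit 9) (nat_lit 0) (.cons (.ev (nat_lit 4740885285641216065536) (nat_lit 1)) (.cons (.br (nat_lit 10) (nat_lit 0) (.cons (.br (nat_lit 13) (nat_lit 1) (.cons (.ev (nat_lit 309489732188110512858333441) (nat_lit 1)) (.cons (.ev (nat_lit 79229371458603036464954540033) (nat_lit 1)) .nil))) (.cons (.br (nat_lit 5) (nat_lit 1) (.cons (.rf (nat_lit 1073) (nat_lit 493858305440582043680)) (.cons (.zr (nat_lit 9444734091639197270784) (nat_lit 2417888532718509591887873) (nat_lit 5) (nat_lit 3)) .nil))) .nil))) .nil))) (.cons (.br (nat_lit 9) (nat_lit 0) (.cons (.br (nat_lit 10) (nat_lit 0) (.cons (.ev (nat_lit 2422629418004150791373315) (nat_lit 2)) (.cons (.br (nat_lit 6) (nat_lit 1) (.cons (.br (nat_lit 12) (nat_lit 0) (.cons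 (.ev (nat_lit 121774620317232008380263067746566) (nat_lit 3)) .nil)) (.cons (.rf (nat_lit 785) (nat_lit 492741412732994160672)) .nil))) .nil))) (.cons (.br (nat_lit 10) (nat_lit 0) (.cons (.br (nat_lit 11) (nat_lit 0) (.cons (.br (nat_lit 12) (nat_lit 0) (.cons (.ev (nat_lit 162338818127145983100995230171910) (nat_lit 4)) .nil)) .nil)) (.cons (.br (nat_lit 13) (nat_lit 1) (.cons (.ev (nat_lit 20282719093402304995963625799936) (nat_lit 1)) (.cons (.ev (nat_lit 20361637770888373302004495220736) (nat_lit 1)) .nil))) .nil))) (.cons (.br (nat_lit 6) (nat_lit 1) (.cons (.ev (nat_lit 4740813508418331541504) (nat_lit 1)) (.cons (.br (nat_lit 5) (nat_lit 1) (.cons (.br (nat_lit 12) (nat_lit 0) (.cons (.ev (nat_lit 243472184850238463199608685659918) (nat_lit 4)) .nil)) (.cons (.rf (nat_lit 1074) (nat_lit 493858305440582043680)) .nil))) (.cons (.br (nat_lit 11) (nat_lit 0) (.cons (.zr (nat_lit 618970019786805325575749888) (nat_lit 158456325028528956666359709697) (nat_lit 5) (nat_lit 4)) (.cons (.rf (nat_lit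 787) (nat_lit 491589616955454266400)) .nil))) .nil)))) .nil)))) .nil)))) .nil)))),
 (.br (nat_lit 11) (nat_lit 0) (.cons (.br (nat_lit 12) (nat_lit 0) (.cons (.ev (nat_lit 20282409603670117168025255805184) (nat_lit 1)) .nil)) .nil)),
 (.br (nat_lit 6) (nat_lit 1) (.cons (.br (nat_lit 12) (nat_lit 0) (.cons (.kr (nat_lit 1213666632841572529471744) (nat_lit 79537647524157740256306724864) (nat_lit 1) (nat_lit 0)) .nil)) (.cons (.br (nat_lit 11) (nat_lit 0) (.cons (.kr (nat_lit 1213666632841572529471744) (nat_lit 79537647524157740256306724864) (nat_lit 1) (nat_lit 0)) .nil)) .nil))),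
 (.br (nat_lit 6) (nat_lit 1) (.cons (.br (nat_lit 12) (nat_lit 0) (.cons (.kr (nat_lit 1213666632841572529471744) (nat_lit 79537647524157740256306724864) (nat_lit 1) (nat_lit 0)) .nil)) (.cons (.br (nat_lit 11) (nat_lit 0) (.cons (.kr (nat_lit 1213666632841572529471744) (nat_lit 79537647524157740256306724864) (nat_lit 1) (nat_lit 0)) .nil)) .nil))),
 (.br (nat_lit 5) (nat_lit 1) (.cons (.br (nat_lit 12) (nat_lit 0) (.cons (.kr (nat_lit 1213666632841572529471744) (nat_lit 79537647524157740256306724864) (nat_lit 1) (nat_lit 0)) .nil)) (.cons (.br (nat_lit 11) (nat_lit 0) (.cons (.kr (nat_lit 1213666632841572529471744) (nat_lit 79537647524157740256306724864) (nat_lit 1) (nat_lit 0)) .nil)) .nil))),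
 (.br (nat_lit 12) (nat_lit 0) (.cons (.kr (nat_lit 1213666632841572529471744) (nat_lit 79537647524157740256306724864) (nat_lit 1) (nat_lit 0)) .nil)),
 (.br (nat_lit 11) (nat_lit 0) (.cons (.kr (nat_lit 1213666632841572529471744) (nat_lit 79537647524157740256306724864) (nat_lit 1) (nat_lit 0)) .nil)),
 (.br (nat_lit 10) (nat_lit 0) (.cons (.kr (nat_lit 1213666632841572529471744) (nat_lit 79537647524157740256306724864) (nat_lit 1) (nat_lit 0)) .nil)),
 (.br (nat_lit 11) (nat_lit 0) (.cons (.kr (nat_lit 4722366483969156841728) (nat_lit 309485009893402662779486208) (nat_lit 1) (nat_lit 0)) (.cons (.br (nat_lit 6) (nat_lit 1) (.cons (.br (nat_lit 12) (nat_lit 0) (.cons (.zr (nat_lit 928455029680209087833309184) (nat_lit 20282412021540203422832291479553) (nat_lit 5) (nat_lit 4)) .nil)) (.cons (.rf (nat_lit 1082) (nat_lit 493858305440582043680)) .nil))) .nil))),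
 (.br (nat_lit 11) (nat_lit 0) (.cons (.ev (nat_lit 310693935713298766930903041) (nat_lit 1)) (.cons (.br (nat_lit 12) (nat_lit 0) (.cons (.ev (nat_lit 79229371458530977775699951873) (nat_lit 1)) (.cons (.ev (nat_lit 20361948460120022465312404275201) (nat_lit 1)) .nil))) .nil))),
 (.br (nat_lit 5) (nat_lit 1) (.cons (.br (nat_lit 12) (nat_lit 0) (.cons (.kr (nat_lit 1213666632841572529471744) (nat_lit 79537647524157740256306724864) (nat_lit 1) (nat_lit 0)) .nil)) (.cons (.br (nat_lit 11) (nat_lit 0) (.cons (.kr (nat_lit 1213666632841572529471744) (nat_lit 79537647524157740256306724864) (nat_lit 1) (nat_lit 0)) .nil)) .nil))),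
 (.br (nat_lit 12) (nat_lit 0) (.cons (.kr (nat_lit 1213666632841572529471744) (nat_lit 79537647524157740256306724864) (nat_lit 1) (nat_lit 0)) .nil)),
 (.br (nat_lit 10) (nat_lit 0) (.cons (.kr (nat_lit 1213666632841572529471744) (nat_lit 79537647524157740256306724864) (nat_lit 1) (nat_lit 0)) .nil)),
 (.br (nat_lit 10) (nat_lit 0) (.cons (.kr (nat_lit 1213666632841572529471744) (nat_lit 79537647524157740256306724864) (nat_lit 1) (nat_lit 0)) .nil)),
 (.br (nat_lit 8) (nat_lit 0) (.cons (.rf (nat_lit 1075) (nat_lit 14242959524133701664)) (.cons (.br (nat_lit 2) (nat_lit 0) (.cons (.br (nat_lit 7) (nat_lit 0) (.cons (.br (nat_lit 12) (nat_lit 0) (.cons (.ev (nat_lit 282574488338689) (nat_lit 1)) (.cons (.br (nat_lit 9) (nat_lit 0) (.cons (.br (nat_lit 11) (nat_lit 0) (.cons (.rf (nat_lit 1071) (nat_lit 490364742517581251648)) .nil)) (.cons (.br (nat_lit 6) (nat_lit 1) (.cons (.zr (nat_lit 18889610049978076496896) (nat_lit 237685696487059934433503281154) (nat_lit 10) (nat_lit 4)) (.cons (.br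 (nat_lit 10) (nat_lit 0) (.cons (.ev (nat_lit 80165113099550985066826368258) (nat_lit 3)) .nil)) .nil))) .nil))) .nil))) (.cons (.br (nat_lit 9) (nat_lit 0) (.cons (.br (nat_lit 10) (nat_lit 0) (.cons (.rf (nat_lit 1076) (nat_lit 493858305440582043680)) (.cons (.rf (nat_lit 1077) (nat_lit 493858305440582043680)) .nil))) (.cons (.br (nat_lit 10) (nat_lit 0) (.cons (.rf (nat_lit 1078) (nat_lit 493858305440582043680)) (.cons (.br (nat_lit 11) (nat_lit 0) (.cons (.br (nat_lit 6) (nat_lit 1) (.cons (.ev (nat_lit 82026887196389880504760861446) (nat_lit 4)) .nil)) .nil)) .nil))) .nil))) .nil))) (.cons (.br (nat_lit 7) (nat_lit 0) (.cons (.rf (nat_lit 1075) (nat_lit 11867374286144708832)) (.cons (.br (nat_lit 9) (nat_lit 0) (.cons (.ev (nat_lit 1103806660609) (nat_lit 1)) (.cons (.br (nat_lit 12) (nat_lit 0) (.cons (.ev (nat_lit 282574488338689) (nat_lit 1)) (.cons (.br (nat_lit 11) (nat_lit 0) (.cons (.ev (nat_lit 79537652246452448110697250816) (nat_lit 1)) (.cons (.kr (nat_lit 309485009821345068724781056)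 (nat_lit 20282409603651670423947251286016) (nat_lit 11) (nat_lit 0)) .nil))) .nil))) .nil))) (.cons (.br (nat_lit 9) (nat_lit 0) (.cons (.ev (nat_lit 1103806660609) (nat_lit 1)) (.cons (.br (nat_lit 10) (nat_lit 0) (.cons (.br (nat_lit 11) (nat_lit 0) (.cons (.br (nat_lit 12) (nat_lit 0) (.cons (.ev (nat_lit 20282409603670117168025255805184) (nat_lit 1)) .nil)) .nil)) (.cons (.rf (nat_lit 1079) (nat_lit 493858305440582043680)) .nil))) (.cons (.br (nat_lit 5) (nat_lit 1) (.cons (.br (nat_lit 6) (nat_lit 1) (.cons (.ev (nat_lit 310698676454468120542773248) (nat_lit 1)) (.cons (.ev (nat_lit 79229376162522774161378509056) (nat_lit 1)) .nil))) (.cons (.br (nat_lit 6) (nat_lit 1) (.cons (.rf (nat_lit 1080) (nat_lit 493858305440582043680)) (.cons (.ev (nat_lit 309489732260167007401410561) (nat_lit 1)) .nil))) (.cons (.br (nat_lit 6) (nat_lit 1) (.cons (.rf (nat_lit 1081) (nat_lit 493858305440582043680)) (.cons (.ev (nat_lit 79228167255077846016170459393) (nat_lit 1)) .nil))) .nil)))) .nil)))) .nil))))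 (.cons (.br (nat_lit 7) (nat_lit 0) (.cons (.br (nat_lit 9) (nat_lit 0) (.cons (.rf (nat_lit 1083) (nat_lit 493858305440582043680)) (.cons (.br (nat_lit 11) (nat_lit 0) (.cons (.rf (nat_lit 1083) (nat_lit 491482720202593050848)) (.cons (.kr (nat_lit 4722366483969156841728) (nat_lit 309485009893402662779486208) (nat_lit 1) (nat_lit 0)) .nil))) .nil))) (.cons (.br (nat_lit 9) (nat_lit 0) (.cons (.br (nat_lit 10) (nat_lit 0) (.cons (.br (nat_lit 11) (nat_lit 0) (.cons (.br (nat_lit 12) (nat_lit 0) (.cons (.ev (nat_lit 121775236869400011841142167896326) (nat_lit 3)) .nil)) .nil)) (.cons (.ev (nat_lit 2422629418004150791373315) (nat_lit 2)) .nil))) (.cons (.br (nat_lit 10) (nat_lit 0) (.cons (.rf (nat_lit 1084) (nat_lit 493858305440582043680)) (.cons (.rf (nat_lit 1085) (nat_lit 493858305440582043680)) .nil))) (.cons (.br (nat_lit 5) (nat_lit 1) (.cons (.rf (nat_lit 1084) (nat_lit 493858305440582043680)) (.cons (.br (nat_lit 6) (nat_lit 1) (.cons (.rf (nat_lit 1086) (nat_lit 493858305440582043680))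 (.cons (.ev (nat_lit 309485028268370621722853376) (nat_lit 1)) .nil))) (.cons (.br (nat_lit 6) (nat_lit 1) (.cons (.br (nat_lit 11) (nat_lit 0) (.cons (.zr (nat_lit 81129638414606682821688911987456) (nat_lit 2427333265684248882315265) (nat_lit 5) (nat_lit 3)) .nil)) (.cons (.ev (nat_lit 79228162514336676662558589184) (nat_lit 1)) .nil))) .nil)))) .nil)))) (.cons (.br (nat_lit 9) (nat_lit 0) (.cons (.ev (nat_lit 4740885285641216065536) (nat_lit 1)) (.cons (.br (nat_lit 5) (nat_lit 1) (.cons (.br (nat_lit 6) (nat_lit 1) (.cons (.br (nat_lit 12) (nat_lit 0) (.cons (.ev (nat_lit 81209182111537644787257749996800) (nat_lit 3)) .nil)) (.cons (.br (nat_lit 11) (nat_lit 0) (.cons (.ev (nat_lit 81209184557723482913725414311168) (nat_lit 3)) .nil)) .nil))) (.cons (.br (nat_lit 12) (nat_lit 0) (.cons (.rf (nat_lit 1087) (nat_lit 493858305440582043680)) (.cons (.ev (nat_lit 20282719088661491770115504537601) (nat_lit 1)) .nil))) (.cons (.br (nat_lit 11) (nat_lit 0) (.cons (.rf (nat_lit 1088) (nat_lit 493858305440582043680))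 (.cons (.ev (nat_lit 20282719093402377054652880388096) (nat_lit 1)) .nil))) .nil)))) (.cons (.br (nat_lit 10) (nat_lit 0) (.cons (.br (nat_lit 11) (nat_lit 0) (.cons (.br (nat_lit 6) (nat_lit 1) (.cons (.ev (nat_lit 40644977038624743940596284065540) (nat_lit 3)) .nil)) .nil)) (.cons (.br (nat_lit 5) (nat_lit 1) (.cons (.br (nat_lit 6) (nat_lit 1) (.cons (.zr (nat_lit 3626832799076108719882240) (nat_lit 20282409613096403672265325019649) (nat_lit 5) (nat_lit 6)) .nil)) (.cons (.br (nat_lit 6) (nat_lit 1) (.cons (.zr (nat_lit 81129638414606682821688911987456) (nat_lit 2427333265684248882315265) (nat_lit 5) (nat_lit 3)) .nil)) .nil))) .nil))) .nil)))) .nil)))) .nil)))) .nil))),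
 (.br (nat_lit 10) (nat_lit 0) (.cons (.br (nat_lit 11) (nat_lit 0) (.cons (.br (nat_lit 12) (nat_lit 0) (.cons (.ev (nat_lit 20282409608374108964415246237953) (nat_lit 1)) .nil)) .nil)) (.cons (.rf (nat_lit 1077) (nat_lit 493858305439541856288)) .nil))),
 (.br (nat_lit 8) (nat_lit 0) (.cons (.rf (nat_lit 1089) (nat_lit 14242959524133701664)) (.cons (.br (nat_lit 2) (nat_lit 0) (.cons (.br (nat_lit 7) (nat_lit 0) (.cons (.br (nat_lit 10) (nat_lit 0) (.cons (.ev (nat_lit 72339069031415809) (nat_lit 1)) (.cons (.br (nat_lit 11) (nat_lit 0) (.cons (.br (nat_lit 9) (nat_lit 0) (.cons (.br (nat_lit 12) (nat_lit 0) (.cons (.ev (nat_lit 121774615481454655840975285847298) (nat_lit 3)) .nil)) .nil)) (.cons (.rf (nat_lit 324) (nat_lit 493787408930823047200)) .nil))) .nil))) (.cons (.br (nat_lit 12) (nat_lit 0) (.cons (.ev (nat_lit 282574488338689) (nat_lit 1)) (.cons (.br (nat_lit 9) (nat_lit 0) (.cons (.br (nat_lit 13) (nat_lit 1) (.cons (.rf (nat_lit 1072) (nat_lit 491482720201519341792)) (.cons (.rf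 (nat_lit 1073) (nat_lit 491482720199438967008)) .nil))) (.cons (.br (nat_lit 5) (nat_lit 1) (.cons (.zr (nat_lit 79228171959070486826779214336) (nat_lit 3626832799077212476145665) (nat_lit 5) (nat_lit 3)) (.cons (.ev (nat_lit 79537652246452448110697250816) (nat_lit 1)) .nil))) .nil))) .nil))) (.cons (.br (nat_lit 9) (nat_lit 0) (.cons (.br (nat_lit 10) (nat_lit 0) (.cons (.br (nat_lit 11) (nat_lit 0) (.cons (.br (nat_lit 12) (nat_lit 0) (.cons (.ev (nat_lit 40564821629895865361698851454977) (nat_lit 2)) .nil)) .nil)) (.cons (.rf (nat_lit 1079) (nat_lit 493858305439541856288)) .nil))) (.cons (.br (nat_lit 10) (nat_lit 0) (.cons (.br (nat_lit 11) (nat_lit 0) (.cons (.br (nat_lit 12) (nat_lit 0) (.cons (.ev (nat_lit 20282409608374108964415246237953) (nat_lit 1)) .nil)) .nil)) (.cons (.br (nat_lit 5) (nat_lit 1) (.cons (.br (nat_lit 12) (nat_lit 0) (.cons (.ev (nat_lit 81211039021559967606470164416258) (nat_lit 3)) .nil)) (.cons (.br (nat_lit 11) (nat_lit 0) (.cons (.ev (nat_lit 40565128706517372148039072940544)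 (nat_lit 2)) .nil)) .nil))) .nil))) (.cons (.br (nat_lit 6) (nat_lit 1) (.cons (.ev (nat_lit 4740813508418331541504) (nat_lit 1)) (.cons (.br (nat_lit 5) (nat_lit 1) (.cons (.rf (nat_lit 1080) (nat_lit 493858305439541856288)) (.cons (.br (nat_lit 10) (nat_lit 0) (.cons (.ev (nat_lit 79550969339463726511837612806) (nat_lit 4)) .nil)) .nil))) (.cons (.br (nat_lit 5) (nat_lit 1) (.cons (.rf (nat_lit 1081) (nat_lit 493858305439541856288)) (.cons (.br (nat_lit 10) (nat_lit 0) (.cons (.ev (nat_lit 79550969339463726511837612806) (nat_lit 4)) .nil)) .nil))) .nil)))) .nil)))) .nil)))) (.cons (.br (nat_lit 7) (nat_lit 0) (.cons (.rf (nat_lit 1089) (nat_lit 10749396599020028992)) (.cons (.br (nat_lit 9) (nat_lit 0) (.cons (.rf (nat_lit 1090) (nat_lit 493858305440582043680)) (.cons (.br (nat_lit 5) (nat_lit 1) (.cons (.rf (nat_lit 1078) (nat_lit 493858305439541856288)) (.cons (.br (nat_lit 5) (nat_lit 1) (.cons (.rf (nat_lit 1078) (nat_lit 493858305439541856288)) (.cons (.rf (nat_lit 1090) (nat_lit 490364742515468371008))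 .nil))) (.cons (.rf (nat_lit 1090) (nat_lit 490364742515468371008)) .nil)))) .nil))) .nil))) (.cons (.br (nat_lit 7) (nat_lit 0) (.cons (.br (nat_lit 10) (nat_lit 0) (.cons (.br (nat_lit 9) (nat_lit 0) (.cons (.br (nat_lit 11) (nat_lit 0) (.cons (.br (nat_lit 12) (nat_lit 0) (.cons (.ev (nat_lit 20282409603670117168020977615104) (nat_lit 1)) .nil)) .nil)) (.cons (.br (nat_lit 6) (nat_lit 1) (.cons (.rf (nat_lit 1086) (nat_lit 493858305439541856288)) (.cons (.zr (nat_lit 79230580402797054999362863104) (nat_lit 14167099730088207319553) (nat_lit 5) (nat_lit 6)) .nil))) .nil))) (.cons (.ev (nat_lit 72339069031415809) (nat_lit 1)) (.cons (.br (nat_lit 5) (nat_lit 1) (.cons (.rf (nat_lit 1085) (nat_lit 493858305439541856288)) (.cons (.br (nat_lit 6) (nat_lit 1) (.cons (.br (nat_lit 12) (nat_lit 0) (.cons (.ev (nat_lit 81211034214227637418156450317056) (nat_lit 3)) .nil)) (.cons (.rf (nat_lit 850) (nat_lit 492741411667842271264)) .nil))) (.cons (.br (nat_lit 6) (nat_lit 1) (.cons (.br (nat_lit 11)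 (nat_lit 0) (.cons (.ev (nat_lit 40565131110183249011819778539521) (nat_lit 2)) .nil)) (.cons (.br (nat_lit 9) (nat_lit 0) (.cons (.ev (nat_lit 243469699355348234570508119248642) (nat_lit 4)) .nil)) .nil))) .nil)))) .nil)))) (.cons (.br (nat_lit 9) (nat_lit 0) (.cons (.br (nat_lit 10) (nat_lit 0) (.cons (.rf (nat_lit 1076) (nat_lit 493858305267742153760)) (.cons (.br (nat_lit 5) (nat_lit 1) (.cons (.br (nat_lit 12) (nat_lit 0) (.cons (.zr (nat_lit 40564819226192808762892059938311) (nat_lit 4643484091946822738523455488) (nat_lit 15) (nat_lit 0)) .nil)) (.cons (.br (nat_lit 11) (nat_lit 0) (.cons (.zr (nat_lit 81129643250402193877989966610432) (nat_lit 1547443938861731623303381505) (nat_lit 10) (nat_lit 13)) .nil)) .nil))) .nil))) (.cons (.br (nat_lit 10) (nat_lit 0) (.cons (.br (nat_lit 5) (nat_lit 1) (.cons (.rf (nat_lit 1082) (nat_lit 491482720201519341792)) (.cons (.br (nat_lit 11) (nat_lit 0) (.cons (.zr (nat_lit 14167100574508842484480) (nat_lit 20282412021540203142456843173889) (nat_lit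 5) (nat_lit 3)) .nil)) .nil))) (.cons (.br (nat_lit 5) (nat_lit 1) (.cons (.ev (nat_lit 20282720297605758409193837101056) (nat_lit 1)) (.cons (.ev (nat_lit 20361637770888373583479455088896) (nat_lit 1)) .nil))) .nil))) .nil))) (.cons (.br (nat_lit 9) (nat_lit 0) (.cons (.br (nat_lit 6) (nat_lit 1) (.cons (.ev (nat_lit 4740813508418331541504) (nat_lit 1)) (.cons (.br (nat_lit 5) (nat_lit 1) (.cons (.br (nat_lit 12) (nat_lit 0) (.cons (.ev (nat_lit 82017215937404673057184744206) (nat_lit 4)) .nil)) (.cons (.rf (nat_lit 1087) (nat_lit 493858305439541856288)) .nil))) (.cons (.rf (nat_lit 802) (nat_lit 492741412560154270752)) .nil)))) (.cons (.br (nat_lit 10) (nat_lit 0) (.cons (.br (nat_lit 5) (nat_lit 1) (.cons (.br (nat_lit 12) (nat_lit 0) (.cons (.ev (nat_lit 81209182111538076572045243647232) (nat_lit 3)) .nil)) (.cons (.br (nat_lit 11) (nat_lit 0) (.cons (.ev (nat_lit 81209184557723914698547267699968) (nat_lit 3)) .nil)) .nil))) (.cons (.br (nat_lit 5) (nat_lit 1) (.cons (.ev (nat_lit 20282720297605758409193837101056)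 (nat_lit 1)) (.cons (.ev (nat_lit 20361637770888373583479455088896) (nat_lit 1)) .nil))) .nil))) (.cons (.br (nat_lit 10) (nat_lit 0) (.cons (.br (nat_lit 5) (nat_lit 1) (.cons (.kr (nat_lit 20282409603651670425046762914048) (nat_lit 309485009893402662779486208) (nat_lit 1) (nat_lit 0)) (.cons (.br (nat_lit 6) (nat_lit 1) (.cons (.zr (nat_lit 3626832799076108719882240) (nat_lit 20282409613096403672265325019649) (nat_lit 5) (nat_lit 6)) .nil)) .nil))) (.cons (.br (nat_lit 5) (nat_lit 1) (.cons (.ev (nat_lit 40565438182063869385519315223041) (nat_lit 2)) (.cons (.ev (nat_lit 40723277954924394599827336527875) (nat_lit 2)) .nil))) .nil))) .nil)))) .nil)))) .nil)))) .nil)))]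

theorem c34 : chkAll C T R L34 (nat_lit 1068) = true := by decide +kernel

theorem l34 : (nat_lit 1068) + L34.length = (nat_lit 1092) := by decide +kernel

/-- part of the certificates -/
def L35 : List Prf := [(.br (nat_lit 8) (nat_lit 0) (.cons (.rf (nat_lit 1089) (nat_lit 14242959524133701664)) (.cons (.rf (nat_lit 1091) (nat_lit 14242959524133701664)) (.cons (.br (nat_lit 8) (nat_lit 0) (.cons (.rf (nat_lit 1089) (nat_lit 14242959524133701664)) (.cons (.rf (nat_lit 1091) (nat_lit 14242959524133701664)) .nil))) .nil)))),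
 (.br (nat_lit 10) (nat_lit 0) (.cons (.kr (nat_lit 309485009893402662762708992) (nat_lit 1208944266358702884257792) (nat_lit 7) (nat_lit 0)) .nil)),
 (.br (nat_lit 12) (nat_lit 0) (.cons (.kr (nat_lit 1213666632841572529471744) (nat_lit 79537647524157740256306724864) (nat_lit 1) (nat_lit 0)) .nil)),
 (.br (nat_lit 8) (nat_lit 0) (.cons (.rf (nat_lit 1093) (nat_lit 493858305440582043680)) (.cons (.br (nat_lit 10) (nat_lit 0) (.cons (.kr (nat_lit 309485009893402662762708992) (nat_lit 1208944266358702884257792) (nat_lit 7) (nat_lit 0)) (.cons (.br (nat_lit 6) (nat_lit 1) (.cons (.rf (nat_lit 1094) (nat_lit 493858305440582043680)) (.cons (.rf (nat_lit 1094) (nat_lit 490399646479877768256)) .nil))) .nil))) .nil))),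
 (.br (nat_lit 11) (nat_lit 0) (.cons (.ev (nat_lit 309485009821627643229962496) (nat_lit 1)) (.cons (.rf (nat_lit 1095) (nat_lit 493858305440582043680)) .nil))),
 (.br (nat_lit 11) (nat_lit 0) (.cons (.kr (nat_lit 4722366483969156841728) (nat_lit 309485009893402662779486208) (nat_lit 1) (nat_lit 0)) (.cons (.br (nat_lit 4) (nat_lit 1) (.cons (.br (nat_lit 12) (nat_lit 0) (.cons (.zr (nat_lit 3626832799077208197955584) (nat_lit 20283028573671457510752048381953) (nat_lit 5) (nat_lit 4)) .nil)) (.cons (.br (nat_lit 10) (nat_lit 0) (.cons (.zr (nat_lit 81129638414606682821688911987456) (nat_lit 2427333265684248882315265) (nat_lit 5) (nat_lit 3)) .nil)) .nil))) .nil))),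
 (.br (nat_lit 2) (nat_lit 0) (.cons (.rf (nat_lit 1096) (nat_lit 14242959524133701664)) (.cons (.rf (nat_lit 1092) (nat_lit 10784300561284039744)) (.cons (.br (nat_lit 8) (nat_lit 0) (.cons (.rf (nat_lit 1092) (nat_lit 14208055561869690912)) (.cons (.rf (nat_lit 1096) (nat_lit 11867374283999322336)) (.cons (.br (nat_lit 9) (nat_lit 0) (.cons (.ev (nat_lit 4777922887881494429697) (nat_lit 2)) (.cons (.rf (nat_lit 1097) (nat_lit 493858305440582043680)) (.cons (.br (nat_lit 4) (nat_lit 1) (.cons (.kr (nat_lit 4722366483969156841728) (nat_lit 1208944266358702901035008) (nat_lit 1) (nat_lit 0)) (.cons (.rf (nat_lit 1097) (nat_lit 491482720200447664352)) (.cons (.kr (nat_lit 4722366482869645213952) (nat_lit 79228162514264337593544015872) (nat_lit 1) (nat_lit 0)) .nil)))) .nil)))) .nil)))) .nil)))),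
 (.br (nat_lit 11) (nat_lit 0) (.cons (.br (nat_lit 12) (nat_lit 0) (.cons (.ev (nat_lit 20282409603670117168020977615104) (nat_lit 1)) .nil)) .nil)),
 (.br (nat_lit 4) (nat_lit 1) (.cons (.br (nat_lit 12) (nat_lit 0) (.cons (.kr (nat_lit 1213666632841572529471744) (nat_lit 79537647524157740256306724864) (nat_lit 1) (nat_lit 0)) .nil)) (.cons (.br (nat_lit 11) (nat_lit 0) (.cons (.kr (nat_lit 1213666632841572529471744) (nat_lit 79537647524157740256306724864) (nat_lit 1) (nat_lit 0)) .nil)) .nil))),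
 (.br (nat_lit 10) (nat_lit 0) (.cons (.rf (nat_lit 1099) (nat_lit 493858305440582043680)) (.cons (.rf (nat_lit 1100) (nat_lit 493858305440582043680)) .nil))),
 (.br (nat_lit 11) (nat_lit 0) (.cons (.kr (nat_lit 309489732259885532407922944) (nat_lit 79229371458530696296428273664) (nat_lit 1) (nat_lit 0)) .nil)),
 (.br (nat_lit 2) (nat_lit 0) (.cons (.rf (nat_lit 1098) (nat_lit 14242959523092498464)) (.cons (.rf (nat_lit 1092) (nat_lit 11972081909142593760)) (.cons (.br (nat_lit 8) (nat_lit 0) (.cons (.rf (nat_lit 1092) (nat_lit 14208055561869690912)) (.cons (.rf (nat_lit 1098) (nat_lit 14242959524133701664)) (.cons (.br (nat_lit 9) (nat_lit 0) (.cons (.br (nat_lit 10) (nat_lit 0) (.cons (.ev (nat_lit 1213666632841576841281793) (nat_lit 1)) (.cons (.br (nat_lit 5) (nat_lit 1) (.cons (.ev (nat_lit 310703398892727113561014786) (nat_lit 2)) (.cons (.ev (nat_lit 79229371458530696300739952641) (nat_lit 1)) .nil))) .nil))) (.cons (.rf (nat_lit 1101) (nat_lit 493858305440582043680)) (.cons (.br (nat_lit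 4) (nat_lit 1) (.cons (.br (nat_lit 5) (nat_lit 1) (.cons (.ev (nat_lit 309489750706912180605812993) (nat_lit 1)) (.cons (.rf (nat_lit 1102) (nat_lit 493858305440582043680)) .nil))) (.cons (.rf (nat_lit 1101) (nat_lit 491482720199406461152)) (.cons (.kr (nat_lit 4722366482869645213952) (nat_lit 79228162514264337593544015872) (nat_lit 1) (nat_lit 0)) .nil)))) .nil)))) .nil)))) .nil)))),
 (.br (nat_lit 8) (nat_lit 0) (.cons (.rf (nat_lit 1092) (nat_lit 14208055561869690912)) (.cons (.rf (nat_lit 1098) (nat_lit 14242959524133701664)) (.cons (.rf (nat_lit 1103) (nat_lit 14242959524133701664)) (.cons (.br (nat_lit 8) (nat_lit 0) (.cons (.rf (nat_lit 1092) (nat_lit 14208055561869690912)) (.cons (.rf (nat_lit 1098) (nat_lit 14242959524133701664)) (.cons (.rf (nat_lit 1103) (nat_lit 14242959524133701664)) .nil)))) .nil))))),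
 (.br (nat_lit 11) (nat_lit 0) (.cons (.kr (nat_lit 309489732259885532407922944) (nat_lit 79229371458530696296428273664) (nat_lit 1) (nat_lit 0)) .nil)),
 (.br (nat_lit 12) (nat_lit 0) (.cons (.kr (nat_lit 4722366482869645213952) (nat_lit 79228162514264337593544015872) (nat_lit 1) (nat_lit 0)) (.cons (.br (nat_lit 6) (nat_lit 1) (.cons (.rf (nat_lit 1105) (nat_lit 493858305440582043680)) (.cons (.rf (nat_lit 1105) (nat_lit 493823401478318032928)) .nil))) .nil))),
 (.br (nat_lit 11) (nat_lit 0) (.cons (.kr (nat_lit 309489732259885532407922944) (nat_lit 79229371458530696296428273664) (nat_lit 1) (nat_lit 0)) .nil)),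
 (.br (nat_lit 12) (nat_lit 0) (.cons (.kr (nat_lit 4722366482869645213952) (nat_lit 79228162514264337593544015872) (nat_lit 1) (nat_lit 0)) (.cons (.br (nat_lit 4) (nat_lit 1) (.cons (.rf (nat_lit 1107) (nat_lit 493858305440582043680)) (.cons (.rf (nat_lit 1107) (nat_lit 493823401478318032928)) .nil))) .nil))),
 (.br (nat_lit 11) (nat_lit 0) (.cons (.kr (nat_lit 309489732259885532407922944) (nat_lit 79229371458530696296428273664) (nat_lit 1) (nat_lit 0)) .nil)),
 (.br (nat_lit 6) (nat_lit 1) (.cons (.br (nat_lit 12) (nat_lit 0) (.cons (.zr (nat_lit 3626832799077208197955584) (nat_lit 20283028573671457510752048381953) (nat_lit 5) (nat_lit 4)) .nil)) (.cons (.rf (nat_lit 1109) (nat_lit 493858305440582043680)) .nil))),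
 (.br (nat_lit 11) (nat_lit 0) (.cons (.kr (nat_lit 309489732259885532407922944) (nat_lit 79229371458530696296428273664) (nat_lit 1) (nat_lit 0)) .nil)),
 (.br (nat_lit 6) (nat_lit 1) (.cons (.rf (nat_lit 1111) (nat_lit 493858305440582043680)) (.cons (.rf (nat_lit 1111) (nat_lit 493823401478318032928)) .nil))),
 (.br (nat_lit 11) (nat_lit 0) (.cons (.kr (nat_lit 18446744073709551872) (nat_lit 309485009821345068724846592) (nat_lit 1) (nat_lit 0)) (.cons (.rf (nat_lit 1106) (nat_lit 452316045820198749248)) .nil))),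
 (.br (nat_lit 8) (nat_lit 0) (.cons (.rf (nat_lit 1092) (nat_lit 14208055561869690912)) (.cons (.rf (nat_lit 1104) (nat_lit 14208055561869690912)) (.cons (.br (nat_lit 9) (nat_lit 0) (.cons (.ev (nat_lit 4740885285641216065536) (nat_lit 1)) (.cons (.br (nat_lit 2) (nat_lit 0) (.cons (.rf (nat_lit 1106) (nat_lit 493858305440582043680)) (.cons (.rf (nat_lit 1108) (nat_lit 493858305440582043680)) (.cons (.br (nat_lit 4) (nat_lit 1) (.cons (.rf (nat_lit 1110) (nat_lit 493858305440582043680)) (.cons (.rf (nat_lit 1110) (nat_lit 493823401478318032928)) (.cons (.rf (nat_lit 1112) (nat_lit 493858305440582043680)) .nil)))) .nil)))) (.cons (.br (nat_lit 4) (nat_lit 1) (.cons (.rf (nat_lit 1113) (nat_lit 15433072044983552032)) (.cons (.kr (nat_lit 4722366483969156841728) (nat_lit 1208944266358702901035008) (nat_lit 1) (nat_lit 0)) (.cons (.kr (nat_lit 4722366483969156841728) (nat_lit 309485009893402662779486208) (nat_lit 1) (nat_lit 0)) (.cons (.br (nat_lit 2) (nat_lit 0) (.cons (.rf (nat_lit 1108) (nat_lit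 490399646477732381760)) (.cons (.kr (nat_lit 4722366482869645213952) (nat_lit 79228162514264337593544015872) (nat_lit 1) (nat_lit 0)) .nil))) .nil))))) .nil)))) .nil)))),
 (.br (nat_lit 12) (nat_lit 0) (.cons (.kr (nat_lit 4722366482869661991168) (nat_lit 79228162514264337597838983168) (nat_lit 1) (nat_lit 0)) (.cons (.br (nat_lit 6) (nat_lit 1) (.cons (.br (nat_lit 11) (nat_lit 0) (.cons (.kr (nat_lit 309489732259885532441477376) (nat_lit 79229371458530696305018208256) (nat_lit 1) (nat_lit 0)) .nil)) (.cons (.br (nat_lit 10) (nat_lit 0) (.cons (.kr (nat_lit 1213666632841572529471744) (nat_lit 79537647524157740256306724864) (nat_lit 1) (nat_lit 0)) .nil)) .nil))) .nil))),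
 (.br (nat_lit 6) (nat_lit 1) (.cons (.br (nat_lit 11) (nat_lit 0) (.cons (.kr (nat_lit 309489732259885532407922944) (nat_lit 79229371458530696296428273664) (nat_lit 1) (nat_lit 0)) .nil)) (.cons (.br (nat_lit 9) (nat_lit 0) (.cons (.kr (nat_lit 309489732259885532407922944) (nat_lit 79229371458530696296428273664) (nat_lit 1) (nat_lit 0)) .nil)) .nil))),
 (.br (nat_lit 12) (nat_lit 0) (.cons (.ev (nat_lit 20282410812577490039675954462721) (nat_lit 1)) .nil)),
 (.br (nat_lit 10) (nat_lit 0) (.cons (.kr (nat_lit 1213666632841572529471744) (nat_lit 79537647524157740256306724864) (nat_lit 1) (nat_lit 0)) .nil)),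
 (.br (nat_lit 8) (nat_lit 0) (.cons (.rf (nat_lit 1092) (nat_lit 14208055561869690912)) (.cons (.rf (nat_lit 1104) (nat_lit 14208055561869690912)) (.cons (.br (nat_lit 2) (nat_lit 0) (.cons (.br (nat_lit 9) (nat_lit 0) (.cons (.rf (nat_lit 1115) (nat_lit 493858305440582043680)) (.cons (.rf (nat_lit 1115) (nat_lit 493823401477276829728)) (.cons (.br (nat_lit 12) (nat_lit 0) (.cons (.rf (nat_lit 1115) (nat_lit 490399646479877768256)) (.cons (.rf (nat_lit 1115) (nat_lit 490364742516572554304)) (.cons (.kr (nat_lit 4722366482869645213952) (nat_lit 79228162514264337593544015872) (nat_lit 1) (nat_lit 0)) .nil)))) .nil)))) (.cons (.br (nat_lit 12) (nat_lit 0) (.cons (.br (nat_lit 10) (nat_lit 0) (.cons (.br (nat_lit 13) (nat_lit 1) (.cons (.ev (nat_lit 4740813508418331541504) (nat_lit 1)) (.cons (.ev (nat_lit 79538856449977636360458076416) (nat_lit 1)) .nil))) (.cons (.rf (nat_lit 1079) (nat_lit 490399646477764887616)) .nil))) (.cons (.ev (nat_lit 282574488338689) (nat_lit 1)) (.cons (.br (nat_lit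 4) (nat_lit 1) (.cons (.ev (nat_lit 158456329769413959733120926211) (nat_lit 2)) (.cons (.br (nat_lit 6) (nat_lit 1) (.cons (.rf (nat_lit 1081) (nat_lit 490399646477764887616)) (.cons (.rf (nat_lit 1080) (nat_lit 490399646477764887616)) .nil))) (.cons (.br (nat_lit 10) (nat_lit 0) (.cons (.ev (nat_lit 79538856449977636360458076416) (nat_lit 1)) (.cons (.ev (nat_lit 20282410812577490039675954462721) (nat_lit 1)) .nil))) .nil)))) .nil)))) (.cons (.rf (nat_lit 1092) (nat_lit 10749396599020028992)) (.cons (.br (nat_lit 4) (nat_lit 1) (.cons (.br (nat_lit 10) (nat_lit 0) (.cons (.ev (nat_lit 1213666632841576841281793) (nat_lit 1)) (.cons (.br (nat_lit 5) (nat_lit 1) (.cons (.ev (nat_lit 310703398892727113561014786) (nat_lit 2)) (.cons (.br (nat_lit 11) (nat_lit 0) (.cons (.ev (nat_lit 81398198620023631978336157958) (nat_lit 3)) .nil)) .nil))) (.cons (.ev (nat_lit 1208925891672227507601664) (nat_lit 1)) .nil)))) (.cons (.br (nat_lit 5) (nat_lit 1) (.cons (.br (nat_lit 6) (nat_lit 1) (.cons (.br (nat_lit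 12) (nat_lit 0) (.cons (.ev (nat_lit 80784111674896497217670939406) (nat_lit 4)) .nil)) (.cons (.ev (nat_lit 79231794051055494874288685825) (nat_lit 2)) .nil))) (.cons (.br (nat_lit 6) (nat_lit 1) (.cons (.br (nat_lit 12) (nat_lit 0) (.cons (.ev (nat_lit 162342531985115979355360165037826) (nat_lit 4)) .nil)) (.cons (.br (nat_lit 9) (nat_lit 0) (.cons (.ev (nat_lit 40644977057514209872074932291328) (nat_lit 3)) .nil)) .nil))) (.cons (.rf (nat_lit 1116) (nat_lit 493858305440582043680)) .nil)))) (.cons (.br (nat_lit 6) (nat_lit 1) (.cons (.br (nat_lit 5) (nat_lit 1) (.cons (.rf (nat_lit 1117) (nat_lit 493858305440582043680)) (.cons (.br (nat_lit 10) (nat_lit 0) (.cons (.ev (nat_lit 40565132323850025125254965428739) (nat_lit 2)) .nil)) .nil))) (.cons (.br (nat_lit 9) (nat_lit 0) (.cons (.ev (nat_lit 4740813508418331541504) (nat_lit 1)) (.cons (.ev (nat_lit 310708102885086444881379841) (nat_lit 2)) .nil))) (.cons (.rf (nat_lit 1116) (nat_lit 493823401477277845536)) .nil)))) (.cons (.br (nat_lit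 9) (nat_lit 0) (.cons (.br (nat_lit 6) (nat_lit 1) (.cons (.ev (nat_lit 4740813508418331541504) (nat_lit 1)) (.cons (.rf (nat_lit 1118) (nat_lit 493858305440582043680)) .nil))) (.cons (.br (nat_lit 10) (nat_lit 0) (.cons (.rf (nat_lit 1118) (nat_lit 493823401477277845536)) (.cons (.ev (nat_lit 20361637770888373583479455088896) (nat_lit 1)) .nil))) (.cons (.kr (nat_lit 4722366482869645213952) (nat_lit 79228162514264337593544015872) (nat_lit 1) (nat_lit 0)) .nil)))) .nil))))) .nil))))) .nil)))),
 (.br (nat_lit 7) (nat_lit 0) (.cons (.rf (nat_lit 1092) (nat_lit 14242959524133701664)) (.cons (.rf (nat_lit 1104) (nat_lit 14242959524133701664)) (.cons (.br (nat_lit 8) (nat_lit 0) (.cons (.rf (nat_lit 1092) (nat_lit 14208055561869690912)) (.cons (.rf (nat_lit 1114) (nat_lit 493858305440582043680)) (.cons (.rf (nat_lit 1119) (nat_lit 493858305440582043680)) (.cons (.br (nat_lit 8) (nat_lit 0) (.cons (.rf (nat_lit 1092) (nat_lit 14208055561869690912)) (.cons (.rf (nat_lit 1114) (nat_lit 493858305440582043680))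 (.cons (.rf (nat_lit 1119) (nat_lit 493858305440582043680)) .nil)))) .nil))))) .nil)))),
 (.br (nat_lit 4) (nat_lit 1) (.cons (.ev (nat_lit 79229371458530696300739952641) (nat_lit 1)) (.cons (.br (nat_lit 9) (nat_lit 0) (.cons (.kr (nat_lit 1213666632841572529471744) (nat_lit 79537647524157740256306724864) (nat_lit 1) (nat_lit 0)) .nil)) .nil))),
 (.br (nat_lit 5) (nat_lit 1) (.cons (.ev (nat_lit 310698676526245339115552768) (nat_lit 1)) (.cons (.rf (nat_lit 1109) (nat_lit 493858305439541856288)) .nil))),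
 (.br (nat_lit 5) (nat_lit 1) (.cons (.zr (nat_lit 14167100574508842484480) (nat_lit 20283028573671457230376600076289) (nat_lit 5) (nat_lit 3)) .nil)),
 (.br (nat_lit 8) (nat_lit 0) (.cons (.rf (nat_lit 1092) (nat_lit 14208055561869690912)) (.cons (.rf (nat_lit 1120) (nat_lit 14208055561869690912)) (.cons (.br (nat_lit 7) (nat_lit 0) (.cons (.rf (nat_lit 1092) (nat_lit 14242959524133701664)) (.cons (.rf (nat_lit 1120) (nat_lit 14242959524133701664)) (.cons (.br (nat_lit 2) (nat_lit 0) (.cons (.rf (nat_lit 1120) (nat_lit 14242959523092498464)) (.cons (.br (nat_lit 12) (nat_lit 0) (.cons (.rf (nat_lit 1108) (nat_lit 490399646477764887616)) (.cons (.ev (nat_lit 282574488338689) (nat_lit 1)) (.cons (.br (nat_lit 5) (nat_lit 1) (.cons (.rf (nat_lit 1108) (nat_lit 493858305439541856288)) (.cons (.rf (nat_lit 1121) (nat_lit 493858305440582043680)) (.cons (.rf (nat_lit 1121) (nat_lit 493823401478318032928)) .nil)))) .nil)))) (.cons (.br (nat_lit 9) (nat_lit 0) (.cons (.br (nat_lit 5) (nat_lit 1) (.cons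 (.ev (nat_lit 1213666632841576841281793) (nat_lit 1)) (.cons (.ev (nat_lit 309489732259885536719732993) (nat_lit 1)) (.cons (.br (nat_lit 5) (nat_lit 1) (.cons (.ev (nat_lit 1213666632841576841281793) (nat_lit 1)) (.cons (.ev (nat_lit 309489732259885536719732993) (nat_lit 1)) .nil))) .nil)))) (.cons (.br (nat_lit 4) (nat_lit 1) (.cons (.rf (nat_lit 1122) (nat_lit 493858305440582043680)) (.cons (.rf (nat_lit 1122) (nat_lit 493823401478318032928)) (.cons (.rf (nat_lit 1112) (nat_lit 493858305439541856288)) .nil)))) (.cons (.br (nat_lit 12) (nat_lit 0) (.cons (.kr (nat_lit 4722366482869645213952) (nat_lit 79228162514264337593544015872) (nat_lit 1) (nat_lit 0)) (.cons (.br (nat_lit 4) (nat_lit 1) (.cons (.rf (nat_lit 1123) (nat_lit 493858305440582043680)) (.cons (.rf (nat_lit 1123) (nat_lit 493823401478318032928)) .nil))) .nil))) .nil)))) .nil)))) .nil)))) .nil))))]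

theorem c35 : chkAll C T R L35 (nat_lit 1092) = true := by decide +kernel

theorem l35 : (nat_lit 1092) + L35.length = (nat_lit 1125) := by decide +kernel

/-- part of the certificates -/
def L36 : List Prf := [(.br (nat_lit 7) (nat_lit 0) (.cons (.rf (nat_lit 1092) (nat_lit 14242959524133701664)) (.cons (.rf (nat_lit 1120) (nat_lit 14242959524133701664)) (.cons (.br (nat_lit 8) (nat_lit 0) (.cons (.rf (nat_lit 1092) (nat_lit 14208055561869690912)) (.cons (.rf (nat_lit 1120) (nat_lit 14208055561869690912)) (.cons (.rf (nat_lit 1124) (nat_lit 493823401478318032928)) (.cons (.rf (nat_lit 1124) (nat_lit 493858305440582043680)) .nil))))) .nil)))),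
 (.br (nat_lit 7) (nat_lit 0) (.cons (.rf (nat_lit 1092) (nat_lit 14242959524133701664)) (.cons (.rf (nat_lit 1120) (nat_lit 14242959524133701664)) (.cons (.rf (nat_lit 1125) (nat_lit 14242959524133701664)) (.cons (.br (nat_lit 7) (nat_lit 0) (.cons (.rf (nat_lit 1092) (nat_lit 14242959524133701664)) (.cons (.rf (nat_lit 1120) (nat_lit 14242959524133701664)) (.cons (.rf (nat_lit 1125) (nat_lit 14242959524133701664)) .nil)))) .nil))))),
 (.br (nat_lit 8) (nat_lit 0) (.cons (.br (nat_lit 9) (nat_lit 0) (.cons (.br (nat_lit 10) (nat_lit 0) (.cons (.br (nat_lit 11) (nat_lit 0) (.cons (.br (nat_lit 12) (nat_lit 0) (.cons (.ev (nat_lit 20282409608374037189391384838401) (nat_lit 1)) .nil)) .nil)) .nil)) .nil)) (.cons (.br (nat_lit 9) (nat_lit 0) (.cons (.br (nat_lit 10) (nat_lit 0) (.cons (.br (nat_lit 11) (nat_lit 0) (.cons (.br (nat_lit 12) (nat_lit 0) (.cons (.ev (nat_lit 202906120487008591965211595178754) (nat_lit 4)) .nil)) .nil)) .nil)) (.cons (.br (nat_lit 13) (nat_lit 1) (.cons (.rf (nat_lit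 864) (nat_lit 492633430826648011840)) (.cons (.rf (nat_lit 864) (nat_lit 491481635221948007488)) (.cons (.rf (nat_lit 816) (nat_lit 492633431686682680384)) .nil)))) .nil))) .nil))),
 (.br (nat_lit 10) (nat_lit 0) (.cons (.ev (nat_lit 72058697844523009) (nat_lit 1)) (.cons (.br (nat_lit 8) (nat_lit 0) (.cons (.br (nat_lit 9) (nat_lit 0) (.cons (.br (nat_lit 11) (nat_lit 0) (.cons (.br (nat_lit 12) (nat_lit 0) (.cons (.ev (nat_lit 20282409608374037189391384838401) (nat_lit 1)) .nil)) .nil)) .nil)) (.cons (.br (nat_lit 11) (nat_lit 0) (.cons (.br (nat_lit 12) (nat_lit 0) (.cons (.zr (nat_lit 2417851639232561179263232) (nat_lit 158765810038350583205766168576) (nat_lit 5) (nat_lit 4)) .nil)) (.cons (.rf (nat_lit 807) (nat_lit 493787408759024360480)) .nil))) .nil))) .nil))),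
 (.br (nat_lit 10) (nat_lit 0) (.cons (.br (nat_lit 13) (nat_lit 1) (.cons (.ev (nat_lit 310693954087985250880716801) (nat_lit 1)) (.cons (.ev (nat_lit 79228167236703159536498835713) (nat_lit 1)) .nil))) (.cons (.br (nat_lit 6) (nat_lit 1) (.cons (.br (nat_lit 12) (nat_lit 0) (.cons (.ev (nat_lit 20282412035725894013273256362240) (nat_lit 2)) .nil)) (.cons (.ev (nat_lit 1208925891953698189410304) (nat_lit 1)) .nil))) .nil))),
 (.br (nat_lit 7) (nat_lit 0) (.cons (.rf (nat_lit 1127) (nat_lit 14242959524133701664)) (.cons (.rf (nat_lit 1128) (nat_lit 14242959524133701664)) (.cons (.br (nat_lit 8) (nat_lit 0) (.cons (.rf (nat_lit 1128) (nat_lit 14208055560828487712)) (.cons (.rf (nat_lit 1127) (nat_lit 14208055560828487712)) (.cons (.br (nat_lit 9) (nat_lit 0) (.cons (.rf (nat_lit 1129) (nat_lit 493858305440582043680)) (.cons (.rf (nat_lit 1129) (nat_lit 493823401477276829728)) (.cons (.rf (nat_lit 583) (nat_lit 492668327988937466080)) .nil)))) .nil)))) .nil)))),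
 (.br (nat_lit 9) (nat_lit 0) (.cons (.br (nat_lit 10) (nat_lit 0) (.cons (.br (nat_lit 11) (nat_lit 0) (.cons (.br (nat_lit 12) (nat_lit 0) (.cons (.kr (nat_lit 1213666632841572529471744) (nat_lit 79537647524157740256306724864) (nat_lit 1) (nat_lit 0)) .nil)) .nil)) .nil)) .nil)),
 (.br (nat_lit 11) (nat_lit 0) (.cons (.br (nat_lit 12) (nat_lit 0) (.cons (.kr (nat_lit 1213666632841572529471744) (nat_lit 79537647524157740256306724864) (nat_lit 1) (nat_lit 0)) .nil)) .nil)),
 (.br (nat_lit 8) (nat_lit 0) (.cons (.rf (nat_lit 1131) (nat_lit 14242959524133701664)) (.cons (.br (nat_lit 10) (nat_lit 0) (.cons (.rf (nat_lit 859) (nat_lit 493787408928610616384)) (.cons (.br (nat_lit 9) (nat_lit 0) (.cons (.rf (nat_lit 1132) (nat_lit 493858305440582043680)) (.cons (.br (nat_lit 6) (nat_lit 1) (.cons (.ev (nat_lit 1213648186380073308258561) (nat_lit 1)) (.cons (.ev (nat_lit 4740885567111897874688) (nat_lit 1)) .nil))) .nil))) .nil))) .nil))),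
 (.br (nat_lit 11) (nat_lit 0) (.cons (.br (nat_lit 13) (nat_lit 1) (.cons (.ev (nat_lit 1213666777523009110541056) (nat_lit 2)) (.cons (.ev (nat_lit 80156617543944548889007423490) (nat_lit 2)) .nil))) (.cons (.ev (nat_lit 309485028268089146729300224) (nat_lit 1)) .nil))),
 (.br (nat_lit 10) (nat_lit 0) (.cons (.br (nat_lit 12) (nat_lit 0) (.cons (.kr (nat_lit 1213666632841572529471744) (nat_lit 79537647524157740256306724864) (nat_lit 1) (nat_lit 0)) .nil)) .nil)),
 (.br (nat_lit 4) (nat_lit 1) (.cons (.ev (nat_lit 1213666704899170879144193) (nat_lit 1)) (.cons (.rf (nat_lit 1135) (nat_lit 493858305440582043680)) (.cons (.kr (nat_lit 4722366482873940180992) (nat_lit 79228162514264619068520660992) (nat_lit 4) (nat_lit 0)) .nil)))),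
 (.br (nat_lit 7) (nat_lit 0) (.cons (.rf (nat_lit 1133) (nat_lit 14242959524133701664)) (.cons (.rf (nat_lit 1130) (nat_lit 10784300560175793216)) (.cons (.br (nat_lit 8) (nat_lit 0) (.cons (.rf (nat_lit 1130) (nat_lit 14242959524133701664)) (.cons (.rf (nat_lit 1133) (nat_lit 10749396598952985664)) (.cons (.br (nat_lit 9) (nat_lit 0) (.cons (.rf (nat_lit 1134) (nat_lit 493858305440582043680)) (.cons (.rf (nat_lit 1136) (nat_lit 493858305440582043680)) (.cons (.br (nat_lit 12) (nat_lit 0) (.cons (.rf (nat_lit 1136) (nat_lit 490364742515401327680)) (.cons (.rf (nat_lit 1134) (nat_lit 490364742515401327680)) (.cons (.br (nat_lit 4) (nat_lit 1) (.cons (.br (nat_lit 6) (nat_lit 1) (.cons (.ev (nat_lit 1213666777523009110541056) (nat_lit 2)) .nil)) (.cons (.br (nat_lit 6) (nat_lit 1) (.cons (.zr (nat_lit 1213648546394277987483904) (nat_lit 40564819207377129794514211307522) (nat_lit 10) (nat_lit 4)) .nil)) .nil))) .nil)))) .nil)))) .nil)))) .nil)))),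
 (.br (nat_lit 10) (nat_lit 0) (.cons (.rf (nat_lit 1099) (nat_lit 493857214553248603168)) (.cons (.br (nat_lit 5) (nat_lit 1) (.cons (.ev (nat_lit 310693935713018391465820161) (nat_lit 1)) (.cons (.br (nat_lit 11) (nat_lit 0) (.cons (.ev (nat_lit 40565131114887384362651159298560) (nat_lit 2)) .nil)) .nil))) .nil))),
 (.br (nat_lit 10) (nat_lit 0) (.cons (.br (nat_lit 11) (nat_lit 0) (.cons (.kr (nat_lit 1213666632841572529471744) (nat_lit 79537647524157740256306724864) (nat_lit 1) (nat_lit 0)) .nil)) .nil)),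
 (.br (nat_lit 4) (nat_lit 1) (.cons (.ev (nat_lit 1213666704899170879144193) (nat_lit 1)) (.cons (.rf (nat_lit 1135) (nat_lit 493858305439541856288)) (.cons (.rf (nat_lit 1139) (nat_lit 493858305440582043680)) .nil)))),
 (.br (nat_lit 5) (nat_lit 1) (.cons (.kr (nat_lit 1213666632841572529471744) (nat_lit 79537647524157740256306724864) (nat_lit 1) (nat_lit 0)) .nil)),
 (.br (nat_lit 7) (nat_lit 0) (.cons (.rf (nat_lit 1137) (nat_lit 14242959523092498464)) (.cons (.rf (nat_lit 1130) (nat_lit 10784300561216996416)) (.cons (.br (nat_lit 8) (nat_lit 0) (.cons (.rf (nat_lit 1130) (nat_lit 14242959524133701664)) (.cons (.rf (nat_lit 1137) (nat_lit 14242959524133701664)) (.cons (.br (nat_lit 9) (nat_lit 0) (.cons (.rf (nat_lit 1138) (nat_lit 493858305440582043680)) (.cons (.rf (nat_lit 1140) (nat_lit 493858305440582043680)) (.cons (.br (nat_lit 12) (nat_lit 0) (.cons (.rf (nat_lit 1140) (nat_lit 490364742514360124480)) (.cons (.rf (nat_lit 1138) (nat_lit 490364742514360124480)) (.cons (.br (nat_lit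 4) (nat_lit 1) (.cons (.br (nat_lit 5) (nat_lit 1) (.cons (.ev (nat_lit 81213522211862429742678040445196) (nat_lit 4)) .nil)) (.cons (.rf (nat_lit 1141) (nat_lit 493858305440582043680)) .nil))) .nil)))) .nil)))) .nil)))) .nil)))),
 (.br (nat_lit 8) (nat_lit 0) (.cons (.rf (nat_lit 1130) (nat_lit 14242959524133701664)) (.cons (.rf (nat_lit 1137) (nat_lit 14242959524133701664)) (.cons (.rf (nat_lit 1142) (nat_lit 14242959524133701664)) (.cons (.br (nat_lit 8) (nat_lit 0) (.cons (.rf (nat_lit 1130) (nat_lit 14242959524133701664)) (.cons (.rf (nat_lit 1137) (nat_lit 14242959524133701664)) (.cons (.rf (nat_lit 1142) (nat_lit 14242959524133701664)) .nil)))) .nil))))),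
 (.br (nat_lit 7) (nat_lit 0) (.cons (.rf (nat_lit 1143) (nat_lit 14242959524133701664)) (.cons (.rf (nat_lit 1143) (nat_lit 14242959523092498464)) (.cons (.rf (nat_lit 1143) (nat_lit 10784300561216996416)) (.cons (.rf (nat_lit 1143) (nat_lit 10784300560175793216)) (.cons (.br (nat_lit 7) (nat_lit 0) (.cons (.rf (nat_lit 1143) (nat_lit 14242959524133701664)) (.cons (.rf (nat_lit 1143) (nat_lit 14242959523092498464)) (.cons (.rf (nat_lit 1143) (nat_lit 10784300561216996416)) (.cons (.rf (nat_lit 1143) (nat_lit 10784300560175793216)) .nil))))) .nil)))))),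
 (.br (nat_lit 10) (nat_lit 0) (.cons (.br (nat_lit 11) (nat_lit 0) (.cons (.br (nat_lit 12) (nat_lit 0) (.cons (.ev (nat_lit 81129639647273605051786280960770) (nat_lit 3)) .nil)) .nil)) (.cons (.br (nat_lit 11) (nat_lit 0) (.cons (.br (nat_lit 12) (nat_lit 0) (.cons (.ev (nat_lit 20282410812595937064125129031681) (nat_lit 1)) .nil)) (.cons (.rf (nat_lit 845) (nat_lit 493786316942936776736)) .nil))) .nil))),
 (.br (nat_lit 7) (nat_lit 0) (.cons (.br (nat_lit 8) (nat_lit 0) (.cons (.br (nat_lit 12) (nat_lit 0) (.cons (.ev (nat_lit 282574488338689) (nat_lit 1)) (.cons (.br (nat_lit 9) (nat_lit 0) (.cons (.br (nat_lit 11) (nat_lit 0) (.cons (.rf (nat_lit 895) (nat_lit 493821214549690385632)) .nil)) (.cons (.rf (nat_lit 893) (nat_lit 492668328191909299456)) .nil))) .nil))) (.cons (.br (nat_lit 9) (nat_lit 0) (.cons (.br (nat_lit 10) (nat_lit 0) (.cons (.br (nat_lit 11) (nat_lit 0) (.cons (.br (nat_lit 12) (nat_lit 0) (.cons (.ev (nat_lit 20361947255898194928552474902785) (nat_lit 1)) .nil)) .nil))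 (.cons (.br (nat_lit 6) (nat_lit 1) (.cons (.br (nat_lit 12) (nat_lit 0) (.cons (.ev (nat_lit 243474027272077028014018072616200) (nat_lit 5)) .nil)) (.cons (.br (nat_lit 11) (nat_lit 0) (.cons (.ev (nat_lit 81400625879646449627142620418) (nat_lit 3)) .nil)) .nil))) .nil))) (.cons (.br (nat_lit 12) (nat_lit 0) (.cons (.rf (nat_lit 941) (nat_lit 492633431688828066880)) (.cons (.ev (nat_lit 20282409603651670423951546319104) (nat_lit 1)) .nil))) .nil))) .nil))) (.cons (.br (nat_lit 8) (nat_lit 0) (.cons (.rf (nat_lit 1144) (nat_lit 11867374284066365664)) (.cons (.rf (nat_lit 1126) (nat_lit 11867374285103505632)) (.cons (.br (nat_lit 10) (nat_lit 0) (.cons (.ev (nat_lit 72058697844523009) (nat_lit 1)) (.cons (.br (nat_lit 11) (nat_lit 0) (.cons (.ev (nat_lit 310693935713018391465820161) (nat_lit 1)) (.cons (.br (nat_lit 5) (nat_lit 1) (.cons (.ev (nat_lit 310698658079781640871149568) (nat_lit 1)) (.cons (.rf (nat_lit 847) (nat_lit 492668328227310240992)) .nil))) .nil))) (.cons (.br (nat_lit 5) (nat_lit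 1) (.cons (.br (nat_lit 6) (nat_lit 1) (.cons (.br (nat_lit 12) (nat_lit 0) (.cons (.ev (nat_lit 80162676469558071403540055808) (nat_lit 3)) .nil)) (.cons (.ev (nat_lit 1213666633123047522959361) (nat_lit 1)) .nil))) (.cons (.br (nat_lit 6) (nat_lit 1) (.cons (.br (nat_lit 12) (nat_lit 0) (.cons (.ev (nat_lit 80162676469558071403540055808) (nat_lit 3)) .nil)) (.cons (.rf (nat_lit 848) (nat_lit 492668328227310240992)) .nil))) (.cons (.br (nat_lit 6) (nat_lit 1) (.cons (.br (nat_lit 11) (nat_lit 0) (.cons (.ev (nat_lit 20283340481310481247936069174019) (nat_lit 2)) .nil)) (.cons (.ev (nat_lit 309485028268090241946025984) (nat_lit 1)) .nil))) .nil)))) .nil)))) .nil)))) (.cons (.br (nat_lit 8) (nat_lit 0) (.cons (.br (nat_lit 9) (nat_lit 0) (.cons (.rf (nat_lit 1145) (nat_lit 493858305440582043680)) (.cons (.br (nat_lit 10) (nat_lit 0) (.cons (.rf (nat_lit 1145) (nat_lit 492740314149012282624)) (.cons (.br (nat_lit 6) (nat_lit 1) (.cons (.ev (nat_lit 20282719088680010570688035291393) (nat_lit 1))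 (.cons (.ev (nat_lit 20361638979814120859043926966273) (nat_lit 1)) .nil))) .nil))) .nil))) (.cons (.br (nat_lit 9) (nat_lit 0) (.cons (.br (nat_lit 11) (nat_lit 0) (.cons (.ev (nat_lit 4722438821942971662336) (nat_lit 1)) (.cons (.br (nat_lit 6) (nat_lit 1) (.cons (.br (nat_lit 12) (nat_lit 0) (.cons (.ev (nat_lit 20282722724883899754723473031939) (nat_lit 2)) .nil)) (.cons (.br (nat_lit 10) (nat_lit 0) (.cons (.ev (nat_lit 83874078846601818806671442690) (nat_lit 4)) .nil)) .nil))) .nil))) (.cons (.br (nat_lit 10) (nat_lit 0) (.cons (.br (nat_lit 11) (nat_lit 0) (.cons (.br (nat_lit 12) (nat_lit 0) (.cons (.ev (nat_lit 20283028587875522507310054375680) (nat_lit 2)) .nil)) .nil)) (.cons (.br (nat_lit 5) (nat_lit 1) (.cons (.ev (nat_lit 310693935713018391465820161) (nat_lit 1)) (.cons (.ev (nat_lit 79229376162522493785913426176) (nat_lit 1)) .nil))) .nil))) (.cons (.br (nat_lit 5) (nat_lit 1) (.cons (.br (nat_lit 6) (nat_lit 1) (.cons (.br (nat_lit 12) (nat_lit 0) (.cons (.ev (nat_lit 20282409608374037189391384838401)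 (nat_lit 1)) .nil)) (.cons (.br (nat_lit 11) (nat_lit 0) (.cons (.ev (nat_lit 20282409608374037189391384838401) (nat_lit 1)) .nil)) .nil))) (.cons (.br (nat_lit 6) (nat_lit 1) (.cons (.br (nat_lit 12) (nat_lit 0) (.cons (.ev (nat_lit 20282409608374037189391384838401) (nat_lit 1)) .nil)) (.cons (.ev (nat_lit 79537647524158021735578403073) (nat_lit 1)) .nil))) (.cons (.rf (nat_lit 527) (nat_lit 492668327987896261888)) .nil)))) .nil)))) (.cons (.br (nat_lit 9) (nat_lit 0) (.cons (.br (nat_lit 11) (nat_lit 0) (.cons (.br (nat_lit 6) (nat_lit 1) (.cons (.br (nat_lit 12) (nat_lit 0) (.cons (.ev (nat_lit 202907979786622288466344252214016) (nat_lit 4)) .nil)) (.cons (.br (nat_lit 10) (nat_lit 0) (.cons (.ev (nat_lit 313121232229608965548409600) (nat_lit 2)) .nil)) .nil))) (.cons (.ev (nat_lit 20282409608374108965510462832641) (nat_lit 1)) .nil))) (.cons (.br (nat_lit 5) (nat_lit 1) (.cons (.br (nat_lit 6) (nat_lit 1) (.cons (.br (nat_lit 12) (nat_lit 0) (.cons (.ev (nat_lit 20283028587875522507310054375680)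 (nat_lit 2)) .nil)) (.cons (.br (nat_lit 11) (nat_lit 0) (.cons (.ev (nat_lit 81400625879646449627142620418) (nat_lit 3)) .nil)) .nil))) (.cons (.br (nat_lit 6) (nat_lit 1) (.cons (.br (nat_lit 12) (nat_lit 0) (.cons (.ev (nat_lit 80781655896752006540539921668) (nat_lit 3)) .nil)) (.cons (.ev (nat_lit 79228167255077565636427186433) (nat_lit 1)) .nil))) (.cons (.br (nat_lit 6) (nat_lit 1) (.cons (.br (nat_lit 11) (nat_lit 0) (.cons (.ev (nat_lit 20282719102884076411666659606785) (nat_lit 2)) .nil)) (.cons (.ev (nat_lit 309485028268090241946025984) (nat_lit 1)) .nil))) .nil)))) (.cons (.br (nat_lit 12) (nat_lit 0) (.cons (.rf (nat_lit 986) (nat_lit 492668328194054685952)) (.cons (.rf (nat_lit 591) (nat_lit 492668327988937466080)) .nil))) .nil)))) .nil)))) .nil)))),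
 (.br (nat_lit 6) (nat_lit 1) (.cons (.br (nat_lit 13) (nat_lit 1) (.cons (.ev (nat_lit 1239153742813404368052945670) (nat_lit 3)) (.cons (.ev (nat_lit 316913863760873600445501670150) (nat_lit 3)) .nil))) (.cons (.ev (nat_lit 309485028268089146729300224) (nat_lit 1)) (.cons (.ev (nat_lit 79228162532783140365114867968) (nat_lit 1)) .nil)))),
 (.br (nat_lit 6) (nat_lit 1) (.cons (.br (nat_lit 12) (nat_lit 0) (.cons (.kr (nat_lit 1213666632841572529471744) (nat_lit 79537647524157740256306724864) (nat_lit 1) (nat_lit 0)) .nil)) (.cons (.br (nat_lit 11) (nat_lit 0) (.cons (.kr (nat_lit 1213666632841572529471744) (nat_lit 79537647524157740256306724864) (nat_lit 1) (nat_lit 0)) .nil)) .nil))),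
 (.br (nat_lit 10) (nat_lit 0) (.cons (.br (nat_lit 11) (nat_lit 0) (.cons (.br (nat_lit 12) (nat_lit 0) (.cons (.ev (nat_lit 20282409608374108964415246237953) (nat_lit 1)) .nil)) .nil)) (.cons (.rf (nat_lit 1148) (nat_lit 493858305440582043680)) .nil))),
 (.br (nat_lit 9) (nat_lit 0) (.cons (.br (nat_lit 13) (nat_lit 1) (.cons (.kr (nat_lit 4740885284537392693504) (nat_lit 310693935641241172876263424) (nat_lit 1) (nat_lit 0)) .nil)) .nil))]

theorem c36 : chkAll C T R L36 (nat_lit 1125) = true := by decide +kernel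

theorem l36 : (nat_lit 1125) + L36.length = (nat_lit 1151) := by decide +kernel

/-- part of the certificates -/
def L37 : List Prf := [(.br (nat_lit 9) (nat_lit 0) (.cons (.kr (nat_lit 1213666632841572529471744) (nat_lit 79537647524157740256306724864) (nat_lit 1) (nat_lit 0)) .nil)),
 (.br (nat_lit 12) (nat_lit 0) (.cons (.kr (nat_lit 281474976710912) (nat_lit 72057598332895232) (nat_lit 1) (nat_lit 0)) (.cons (.br (nat_lit 4) (nat_lit 1) (.cons (.ev (nat_lit 79229376162522492690696830976) (nat_lit 1)) (.cons (.rf (nat_lit 1151) (nat_lit 493858305440582043680)) .nil))) .nil))),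
 (.br (nat_lit 10) (nat_lit 0) (.cons (.kr (nat_lit 1213666632841572529471744) (nat_lit 79537647524157740256306724864) (nat_lit 1) (nat_lit 0)) .nil)),
 (.br (nat_lit 10) (nat_lit 0) (.cons (.kr (nat_lit 1213666632841572529471744) (nat_lit 79537647524157740256306724864) (nat_lit 1) (nat_lit 0)) .nil)),
 (.br (nat_lit 6) (nat_lit 1) (.cons (.kr (nat_lit 1213666632841572529471744) (nat_lit 79537647524157740256306724864) (nat_lit 1) (nat_lit 0)) .nil)),
 (.br (nat_lit 8) (nat_lit 0) (.cons (.rf (nat_lit 1146) (nat_lit 493858305440582043680)) (.cons (.br (nat_lit 7) (nat_lit 0) (.cons (.rf (nat_lit 1144) (nat_lit 11867374286211752160)) (.cons (.rf (nat_lit 1126) (nat_lit 11867374285103505632)) (.cons (.br (nat_lit 9) (nat_lit 0) (.cons (.rf (nat_lit 1147) (nat_lit 493858305440582043680)) (.cons (.br (nat_lit 10) (nat_lit 0) (.cons (.br (nat_lit 13) (nat_lit 1) (.cons (.ev (nat_lit 1239153742813404368052945670) (nat_lit 3)) (.cons (.ev (nat_lit 316913863760873600445501670150) (nat_lit 3)) .nil)))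 (.cons (.ev (nat_lit 1213666633124147017875713) (nat_lit 1)) .nil))) (.cons (.br (nat_lit 10) (nat_lit 0) (.cons (.ev (nat_lit 1213666704899170879144193) (nat_lit 1)) (.cons (.rf (nat_lit 1147) (nat_lit 492740314146866896128)) (.cons (.br (nat_lit 4) (nat_lit 1) (.cons (.br (nat_lit 6) (nat_lit 1) (.cons (.zr (nat_lit 81129638414662021928010133799680) (nat_lit 2427296372477576439922689) (nat_lit 5) (nat_lit 0)) .nil)) (.cons (.zr (nat_lit 81208866577157839521529968263936) (nat_lit 2432018738678975403393025) (nat_lit 5) (nat_lit 0)) .nil))) .nil)))) .nil)))) .nil)))) (.cons (.br (nat_lit 7) (nat_lit 0) (.cons (.br (nat_lit 9) (nat_lit 0) (.cons (.rf (nat_lit 1149) (nat_lit 493858305440582043680)) (.cons (.br (nat_lit 11) (nat_lit 0) (.cons (.rf (nat_lit 1149) (nat_lit 491482720202660094176)) (.cons (.rf (nat_lit 1150) (nat_lit 15433072044983552032)) .nil))) .nil))) (.cons (.br (nat_lit 10) (nat_lit 0) (.cons (.ev (nat_lit 72058697844523009) (nat_lit 1)) (.cons (.rf (nat_lit 1152) (nat_lit 493858305440582043680))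 (.cons (.br (nat_lit 12) (nat_lit 0) (.cons (.rf (nat_lit 1152) (nat_lit 491482720200514707680)) (.cons (.ev (nat_lit 282574488338689) (nat_lit 1)) (.cons (.br (nat_lit 4) (nat_lit 1) (.cons (.br (nat_lit 6) (nat_lit 1) (.cons (.ev (nat_lit 1223148259861707777639170) (nat_lit 2)) .nil)) (.cons (.br (nat_lit 6) (nat_lit 1) (.cons (.zr (nat_lit 1548633975286631254458695680) (nat_lit 40564819226266595725992758608898) (nat_lit 10) (nat_lit 4)) .nil)) .nil))) .nil)))) .nil)))) (.cons (.br (nat_lit 9) (nat_lit 0) (.cons (.br (nat_lit 11) (nat_lit 0) (.cons (.br (nat_lit 6) (nat_lit 1) (.cons (.ev (nat_lit 310698658007443671368073216) (nat_lit 1)) (.cons (.br (nat_lit 10) (nat_lit 0) (.cons (.ev (nat_lit 81210414002207162422971538539010) (nat_lit 3)) .nil)) .nil))) (.cons (.ev (nat_lit 309485028268089146729300224) (nat_lit 1)) .nil))) (.cons (.br (nat_lit 4) (nat_lit 1) (.cons (.ev (nat_lit 1213666704899170879144193) (nat_lit 1)) (.cons (.br (nat_lit 12) (nat_lit 0) (.cons (.rf (nat_lit 1153) (nat_lit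 493858305440582043680)) (.cons (.ev (nat_lit 20361947255898122590582971826433) (nat_lit 1)) .nil))) (.cons (.br (nat_lit 11) (nat_lit 0) (.cons (.rf (nat_lit 1154) (nat_lit 493858305440582043680)) (.cons (.ev (nat_lit 20361947255898122590582971826433) (nat_lit 1)) .nil))) .nil)))) (.cons (.br (nat_lit 10) (nat_lit 0) (.cons (.br (nat_lit 11) (nat_lit 0) (.cons (.br (nat_lit 6) (nat_lit 1) (.cons (.ev (nat_lit 81210414002207162422971538539010) (nat_lit 3)) .nil)) .nil)) (.cons (.br (nat_lit 4) (nat_lit 1) (.cons (.rf (nat_lit 1155) (nat_lit 493858305440582043680)) (.cons (.br (nat_lit 6) (nat_lit 1) (.cons (.zr (nat_lit 81129638414606682821688911987456) (nat_lit 2427333265684248882315265) (nat_lit 5) (nat_lit 3)) .nil)) .nil))) .nil))) .nil)))) .nil)))) .nil)))),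
 (.br (nat_lit 6) (nat_lit 1) (.cons (.br (nat_lit 12) (nat_lit 0) (.cons (.kr (nat_lit 1213666632841572529471744) (nat_lit 79537647524157740256306724864) (nat_lit 1) (nat_lit 0)) .nil)) (.cons (.br (nat_lit 11) (nat_lit 0) (.cons (.kr (nat_lit 1213666632841572529471744) (nat_lit 79537647524157740256306724864) (nat_lit 1) (nat_lit 0)) .nil)) .nil))),
 (.br (nat_lit 10) (nat_lit 0) (.cons (.br (nat_lit 11) (nat_lit 0) (.cons (.br (nat_lit 12) (nat_lit 0) (.cons (.ev (nat_lit 20282409608374108964410934493441) (nat_lit 1)) .nil)) .nil)) (.cons (.rf (nat_lit 1157) (nat_lit 493858305440582043680)) .nil))),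
 (.br (nat_lit 10) (nat_lit 0) (.cons (.br (nat_lit 11) (nat_lit 0) (.cons (.br (nat_lit 12) (nat_lit 0) (.cons (.ev (nat_lit 20282409608374108964415246237953) (nat_lit 1)) .nil)) .nil)) (.cons (.br (nat_lit 5) (nat_lit 1) (.cons (.br (nat_lit 12) (nat_lit 0) (.cons (.zr (nat_lit 141978414650684586669273734840320) (nat_lit 7258277286431240600159752) (nat_lit 15) (nat_lit 13)) .nil)) (.cons (.br (nat_lit 11) (nat_lit 0) (.cons (.zr (nat_lit 81129640832476767669121148256256) (nat_lit 309503899431674318459764739) (nat_lit 10) (nat_lit 13)) .nil)) .nil))) .nil))),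
 (.br (nat_lit 6) (nat_lit 1) (.cons (.kr (nat_lit 1213666632841572529471744) (nat_lit 79537647524157740256306724864) (nat_lit 1) (nat_lit 0)) .nil)),
 (.br (nat_lit 10) (nat_lit 0) (.cons (.kr (nat_lit 1213666632841572529471744) (nat_lit 79537647524157740256306724864) (nat_lit 1) (nat_lit 0)) .nil)),
 (.br (nat_lit 9) (nat_lit 0) (.cons (.kr (nat_lit 1213666632841572529471744) (nat_lit 79537647524157740256306724864) (nat_lit 1) (nat_lit 0)) .nil)),
 (.br (nat_lit 8) (nat_lit 0) (.cons (.rf (nat_lit 1146) (nat_lit 493858305440582043680)) (.cons (.rf (nat_lit 1156) (nat_lit 493858305440582043680)) (.cons (.br (nat_lit 7) (nat_lit 0) (.cons (.br (nat_lit 9) (nat_lit 0) (.cons (.rf (nat_lit 1158) (nat_lit 493858305440582043680)) (.cons (.rf (nat_lit 1159) (nat_lit 493858305440582043680)) (.cons (.br (nat_lit 11) (nat_lit 0) (.cons (.rf (nat_lit 1159) (nat_lit 491482720201618890976)) (.cons (.rf (nat_lit 1158) (nat_lit 491482720201618890976)) (.cons (.br (nat_lit 5) (nat_lit 1) (.cons (.rf (nat_lit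 1160) (nat_lit 493858305440582043680)) (.cons (.br (nat_lit 6) (nat_lit 1) (.cons (.zr (nat_lit 81129642041439480771906247852800) (nat_lit 1547434493839973657469779969) (nat_lit 5) (nat_lit 0)) .nil)) .nil))) .nil)))) .nil)))) (.cons (.br (nat_lit 12) (nat_lit 0) (.cons (.br (nat_lit 9) (nat_lit 0) (.cons (.br (nat_lit 10) (nat_lit 0) (.cons (.br (nat_lit 11) (nat_lit 0) (.cons (.ev (nat_lit 82636138585956635521495142150) (nat_lit 4)) .nil)) .nil)) (.cons (.br (nat_lit 11) (nat_lit 0) (.cons (.br (nat_lit 10) (nat_lit 0) (.cons (.zr (nat_lit 2475880227081461861968053504) (nat_lit 20282421702354603477740376031233) (nat_lit 30) (nat_lit 0)) .nil)) (.cons (.ev (nat_lit 20282409608374108965510462832641) (nat_lit 1)) .nil))) .nil))) (.cons (.ev (nat_lit 282574488338689) (nat_lit 1)) (.cons (.br (nat_lit 4) (nat_lit 1) (.cons (.br (nat_lit 11) (nat_lit 0) (.cons (.br (nat_lit 10) (nat_lit 0) (.cons (.ev (nat_lit 81400635324235302386004329216) (nat_lit 3)) .nil)) (.cons (.ev (nat_lit 20282409608374108964410934493441)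 (nat_lit 1)) .nil))) (.cons (.br (nat_lit 6) (nat_lit 1) (.cons (.br (nat_lit 11) (nat_lit 0) (.cons (.ev (nat_lit 20361947255898194928552474902785) (nat_lit 1)) .nil)) (.cons (.ev (nat_lit 1208944338698871427367168) (nat_lit 1)) .nil))) (.cons (.br (nat_lit 6) (nat_lit 1) (.cons (.br (nat_lit 10) (nat_lit 0) (.cons (.ev (nat_lit 81400635324235302386004329216) (nat_lit 3)) .nil)) (.cons (.br (nat_lit 9) (nat_lit 0) (.cons (.ev (nat_lit 621392593648687043284500481) (nat_lit 2)) .nil)) .nil))) .nil)))) .nil)))) (.cons (.rf (nat_lit 1126) (nat_lit 11867374285103505632)) (.cons (.br (nat_lit 4) (nat_lit 1) (.cons (.br (nat_lit 5) (nat_lit 1) (.cons (.br (nat_lit 12) (nat_lit 0) (.cons (.ev (nat_lit 79228162532711364246036873216) (nat_lit 1)) (.cons (.ev (nat_lit 20361638979814120860139143561473) (nat_lit 1)) .nil))) (.cons (.br (nat_lit 6) (nat_lit 1) (.cons (.br (nat_lit 12) (nat_lit 0) (.cons (.ev (nat_lit 80781655896752006540539921668) (nat_lit 3)) .nil)) (.cons (.ev (nat_lit 79228167255077565636427186433)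 (nat_lit 1)) .nil))) (.cons (.br (nat_lit 10) (nat_lit 0) (.cons (.br (nat_lit 11) (nat_lit 0) (.cons (.ev (nat_lit 40564820430451673046480811328000) (nat_lit 2)) .nil)) (.cons (.ev (nat_lit 20361638979814120860139143561473) (nat_lit 1)) .nil))) .nil)))) (.cons (.br (nat_lit 5) (nat_lit 1) (.cons (.ev (nat_lit 1213666704899170879144193) (nat_lit 1)) (.cons (.br (nat_lit 6) (nat_lit 1) (.cons (.br (nat_lit 12) (nat_lit 0) (.cons (.ev (nat_lit 80781655896752006540539921668) (nat_lit 3)) .nil)) (.cons (.br (nat_lit 9) (nat_lit 0) (.cons (.ev (nat_lit 40646214997553207026354478973700) (nat_lit 3)) .nil)) .nil))) (.cons (.br (nat_lit 9) (nat_lit 0) (.cons (.br (nat_lit 11) (nat_lit 0) (.cons (.ev (nat_lit 40565131110183393129206844097025) (nat_lit 2)) .nil)) (.cons (.ev (nat_lit 20282410817318303266619292450816) (nat_lit 1)) .nil))) .nil)))) (.cons (.br (nat_lit 5) (nat_lit 1) (.cons (.br (nat_lit 6) (nat_lit 1) (.cons (.br (nat_lit 12) (nat_lit 0) (.cons (.ev (nat_lit 202907979786622719112089440422656)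 (nat_lit 4)) .nil)) (.cons (.rf (nat_lit 1161) (nat_lit 493858305440582043680)) .nil))) (.cons (.br (nat_lit 9) (nat_lit 0) (.cons (.br (nat_lit 12) (nat_lit 0) (.cons (.ev (nat_lit 20282409608374398604391057852162) (nat_lit 3)) .nil)) (.cons (.zr (nat_lit 1547425049394955719809564676) (nat_lit 162259279251805815848892110996224) (nat_lit 10) (nat_lit 0)) .nil))) (.cons (.ev (nat_lit 309485028268090241946025984) (nat_lit 1)) .nil)))) (.cons (.br (nat_lit 5) (nat_lit 1) (.cons (.br (nat_lit 6) (nat_lit 1) (.cons (.rf (nat_lit 1117) (nat_lit 492740321845660720160)) (.cons (.kr (nat_lit 79228162514264619068520726528) (nat_lit 4740813226947649732608) (nat_lit 2) (nat_lit 0)) .nil))) (.cons (.br (nat_lit 6) (nat_lit 1) (.cons (.br (nat_lit 11) (nat_lit 0) (.cons (.ev (nat_lit 20282412026262786643641617220354) (nat_lit 2)) .nil)) (.cons (.rf (nat_lit 1162) (nat_lit 493858305440582043680)) .nil))) (.cons (.br (nat_lit 6) (nat_lit 1) (.cons (.ev (nat_lit 79228167255077565636427186433) (nat_lit 1)) (.cons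 (.br (nat_lit 9) (nat_lit 0) (.cons (.ev (nat_lit 243472175197758122147763941216002) (nat_lit 4)) .nil)) .nil))) .nil)))) .nil))))) .nil))))) .nil)))),
 (.br (nat_lit 8) (nat_lit 0) (.cons (.rf (nat_lit 1146) (nat_lit 493858305440582043680)) (.cons (.rf (nat_lit 1156) (nat_lit 493858305440582043680)) (.cons (.rf (nat_lit 1163) (nat_lit 493858305440582043680)) (.cons (.br (nat_lit 8) (nat_lit 0) (.cons (.rf (nat_lit 1146) (nat_lit 493858305440582043680)) (.cons (.rf (nat_lit 1156) (nat_lit 493858305440582043680)) (.cons (.rf (nat_lit 1163) (nat_lit 493858305440582043680)) .nil)))) .nil))))),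
 (.br (nat_lit 10) (nat_lit 0) (.cons (.rf (nat_lit 1151) (nat_lit 491482720199440998624)) .nil)),
 (.br (nat_lit 12) (nat_lit 0) (.cons (.rf (nat_lit 1099) (nat_lit 492671605630887430400)) (.cons (.br (nat_lit 6) (nat_lit 1) (.cons (.ev (nat_lit 79229380903480116301415842306) (nat_lit 2)) (.cons (.br (nat_lit 10) (nat_lit 0) (.cons (.ev (nat_lit 80165103765641473057928578308) (nat_lit 3)) .nil)) .nil))) .nil))),
 (.br (nat_lit 7) (nat_lit 0) (.cons (.rf (nat_lit 1164) (nat_lit 493858305440582043680)) (.cons (.br (nat_lit 8) (nat_lit 0) (.cons (.rf (nat_lit 1164) (nat_lit 493823401478318032928)) (.cons (.rf (nat_lit 1126) (nat_lit 13020260603192876288)) (.cons (.br (nat_lit 12) (nat_lit 0) (.cons (.br (nat_lit 9) (nat_lit 0) (.cons (.rf (nat_lit 1165) (nat_lit 493858305440582043680)) (.cons (.br (nat_lit 6) (nat_lit 1) (.cons (.br (nat_lit 11) (nat_lit 0) (.cons (.zr (nat_lit 81129638414606682821688911987456) (nat_lit 2427333265684248882315265) (nat_lit 5) (nat_lit 3)) .nil)) (.cons (.br (nat_lit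 10) (nat_lit 0) (.cons (.ev (nat_lit 81398208101937755507346441476) (nat_lit 3)) .nil)) .nil))) .nil))) (.cons (.ev (nat_lit 282574488338689) (nat_lit 1)) (.cons (.br (nat_lit 3) (nat_lit 1) (.cons (.br (nat_lit 6) (nat_lit 1) (.cons (.br (nat_lit 11) (nat_lit 0) (.cons (.ev (nat_lit 80165103765641473057928578308) (nat_lit 3)) .nil)) (.cons (.br (nat_lit 10) (nat_lit 0) (.cons (.ev (nat_lit 40564820430396404309994739138816) (nat_lit 2)) .nil)) .nil))) (.cons (.br (nat_lit 6) (nat_lit 1) (.cons (.ev (nat_lit 79228167236702879156755562753) (nat_lit 1)) (.cons (.ev (nat_lit 79537647524085682666580541441) (nat_lit 1)) .nil))) (.cons (.br (nat_lit 6) (nat_lit 1) (.cons (.br (nat_lit 10) (nat_lit 0) (.cons (.zr (nat_lit 1548633975286631254458695680) (nat_lit 40564819226266595725992758608898) (nat_lit 10) (nat_lit 4)) .nil)) (.cons (.rf (nat_lit 1165) (nat_lit 491482720199438967008)) .nil))) .nil)))) .nil)))) .nil)))) (.cons (.br (nat_lit 8) (nat_lit 0) (.cons (.rf (nat_lit 1164) (nat_lit 493823401478318032928))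 (.cons (.br (nat_lit 9) (nat_lit 0) (.cons (.rf (nat_lit 1166) (nat_lit 493858305440582043680)) (.cons (.br (nat_lit 10) (nat_lit 0) (.cons (.br (nat_lit 11) (nat_lit 0) (.cons (.br (nat_lit 12) (nat_lit 0) (.cons (.zr (nat_lit 309508622014613648513697024) (nat_lit 40564824043080406282706140528642) (nat_lit 10) (nat_lit 4)) .nil)) .nil)) (.cons (.ev (nat_lit 1213666633124147017875713) (nat_lit 1)) .nil))) (.cons (.br (nat_lit 10) (nat_lit 0) (.cons (.ev (nat_lit 1213666704899170879144193) (nat_lit 1)) (.cons (.rf (nat_lit 1166) (nat_lit 492740314145825692928)) (.cons (.br (nat_lit 3) (nat_lit 1) (.cons (.br (nat_lit 6) (nat_lit 1) (.cons (.zr (nat_lit 81129638414662021928010133799680) (nat_lit 2427296372477576439922689) (nat_lit 5) (nat_lit 0)) .nil)) (.cons (.br (nat_lit 6) (nat_lit 1) (.cons (.zr (nat_lit 81129638414662021928010133799680) (nat_lit 2427296372477576439922689) (nat_lit 5) (nat_lit 0)) .nil)) .nil))) .nil)))) .nil)))) (.cons (.br (nat_lit 9) (nat_lit 0) (.cons (.br (nat_lit 10)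 (nat_lit 0) (.cons (.br (nat_lit 6) (nat_lit 1) (.cons (.br (nat_lit 12) (nat_lit 0) (.cons (.ev (nat_lit 81403043805216209608885993728) (nat_lit 3)) .nil)) (.cons (.ev (nat_lit 79228162532711364241758683136) (nat_lit 1)) .nil))) (.cons (.ev (nat_lit 20282409608392483651990134456321) (nat_lit 1)) .nil))) (.cons (.br (nat_lit 3) (nat_lit 1) (.cons (.ev (nat_lit 1213666704899170879144193) (nat_lit 1)) (.cons (.br (nat_lit 12) (nat_lit 0) (.cons (.rf (nat_lit 1153) (nat_lit 493858305440581027872)) (.cons (.ev (nat_lit 20282719088661491770115504537601) (nat_lit 1)) .nil))) (.cons (.br (nat_lit 6) (nat_lit 1) (.cons (.br (nat_lit 11) (nat_lit 0) (.cons (.ev (nat_lit 121776477217957032011804512813326) (nat_lit 4)) .nil)) (.cons (.rf (nat_lit 1154) (nat_lit 493858305440581027872)) .nil))) .nil)))) (.cons (.br (nat_lit 10) (nat_lit 0) (.cons (.br (nat_lit 11) (nat_lit 0) (.cons (.br (nat_lit 6) (nat_lit 1) (.cons (.ev (nat_lit 40646214997553207026354478973700) (nat_lit 3)) .nil)) .nil)) (.cons (.br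 (nat_lit 3) (nat_lit 1) (.cons (.zr (nat_lit 1237940039645668245122711556) (nat_lit 101412049246110531155103827624704) (nat_lit 10) (nat_lit 0)) (.cons (.br (nat_lit 6) (nat_lit 1) (.cons (.zr (nat_lit 81129638414606682821688911987456) (nat_lit 2427333265684248882315265) (nat_lit 5) (nat_lit 3)) .nil)) .nil))) .nil))) .nil)))) .nil)))) .nil)))),
 (.br (nat_lit 9) (nat_lit 0) (.cons (.kr (nat_lit 1213666632841572529471744) (nat_lit 79537647524157740256306724864) (nat_lit 1) (nat_lit 0)) .nil)),
 (.br (nat_lit 8) (nat_lit 0) (.cons (.rf (nat_lit 1164) (nat_lit 493823401478318032928)) (.cons (.rf (nat_lit 1167) (nat_lit 493858305440582043680)) (.cons (.br (nat_lit 7) (nat_lit 0) (.cons (.rf (nat_lit 1164) (nat_lit 493858305440582043680)) (.cons (.rf (nat_lit 1164) (nat_lit 491482720199473504480)) (.cons (.br (nat_lit 12) (nat_lit 0) (.cons (.br (nat_lit 9) (nat_lit 0) (.cons (.kr (nat_lit 4722366482869661990912) (nat_lit 79228162514264338693055578112) (nat_lit 3) (nat_lit 0)) (.cons (.br (nat_lit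 5) (nat_lit 1) (.cons (.br (nat_lit 11) (nat_lit 0) (.cons (.zr (nat_lit 14167100574508842484480) (nat_lit 20282412021540203142456843173889) (nat_lit 5) (nat_lit 3)) .nil)) (.cons (.br (nat_lit 10) (nat_lit 0) (.cons (.ev (nat_lit 40646222241663534739903199117568) (nat_lit 3)) .nil)) .nil))) .nil))) (.cons (.ev (nat_lit 282574488338689) (nat_lit 1)) (.cons (.br (nat_lit 3) (nat_lit 1) (.cons (.br (nat_lit 5) (nat_lit 1) (.cons (.ev (nat_lit 79229376162522492686418640896) (nat_lit 1)) (.cons (.br (nat_lit 10) (nat_lit 0) (.cons (.ev (nat_lit 81209803508927446087936780861698) (nat_lit 3)) .nil)) .nil))) (.cons (.br (nat_lit 5) (nat_lit 1) (.cons (.br (nat_lit 11) (nat_lit 0) (.cons (.ev (nat_lit 243470939666052389532740140335366) (nat_lit 4)) .nil)) (.cons (.ev (nat_lit 1208944338698875705557248) (nat_lit 1)) .nil))) (.cons (.rf (nat_lit 1085) (nat_lit 491482720199438967008)) .nil)))) .nil)))) (.cons (.br (nat_lit 3) (nat_lit 1) (.cons (.br (nat_lit 6) (nat_lit 1) (.cons (.ev (nat_lit 4740813508418331541504)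 (nat_lit 1)) (.cons (.br (nat_lit 5) (nat_lit 1) (.cons (.br (nat_lit 12) (nat_lit 0) (.cons (.ev (nat_lit 82017215900655860840215282446) (nat_lit 4)) .nil)) (.cons (.ev (nat_lit 79847146701007040389444534272) (nat_lit 2)) .nil))) (.cons (.br (nat_lit 5) (nat_lit 1) (.cons (.ev (nat_lit 79229376162522492686418640896) (nat_lit 1)) (.cons (.br (nat_lit 10) (nat_lit 0) (.cons (.ev (nat_lit 20282719098106296793448866513666) (nat_lit 2)) .nil)) .nil))) .nil)))) (.cons (.br (nat_lit 5) (nat_lit 1) (.cons (.ev (nat_lit 1213666704899170879144193) (nat_lit 1)) (.cons (.br (nat_lit 6) (nat_lit 1) (.cons (.br (nat_lit 12) (nat_lit 0) (.cons (.zr (nat_lit 141976867249247312358303905087488) (nat_lit 316738564739604589819461640) (nat_lit 15) (nat_lit 13)) .nil)) (.cons (.br (nat_lit 9) (nat_lit 0) (.cons (.ev (nat_lit 79543715820573707656621262080) (nat_lit 3)) .nil)) .nil))) (.cons (.br (nat_lit 9) (nat_lit 0) (.cons (.ev (nat_lit 79228162532711364241758683136) (nat_lit 1)) (.cons (.ev (nat_lit 20361638975110201121343191122176)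 (nat_lit 1)) .nil))) .nil)))) (.cons (.br (nat_lit 5) (nat_lit 1) (.cons (.zr (nat_lit 19000146397050414564096) (nat_lit 928455029752265582443626499) (nat_lit 10) (nat_lit 5)) (.cons (.br (nat_lit 6) (nat_lit 1) (.cons (.br (nat_lit 12) (nat_lit 0) (.cons (.ev (nat_lit 80776820230655831687831814400) (nat_lit 3)) .nil)) (.cons (.rf (nat_lit 1168) (nat_lit 493858305440582043680)) .nil))) (.cons (.br (nat_lit 6) (nat_lit 1) (.cons (.br (nat_lit 10) (nat_lit 0) (.cons (.ev (nat_lit 20282720297605758409193837101056) (nat_lit 1)) .nil)) (.cons (.ev (nat_lit 1208925891673322724327424) (nat_lit 1)) .nil))) .nil)))) (.cons (.br (nat_lit 9) (nat_lit 0) (.cons (.kr (nat_lit 4722366482869661990912) (nat_lit 79228162514264338693055578112) (nat_lit 3) (nat_lit 0)) (.cons (.ev (nat_lit 79228167236631101942460842241) (nat_lit 1)) (.cons (.br (nat_lit 5) (nat_lit 1) (.cons (.br (nat_lit 6) (nat_lit 1) (.cons (.zr (nat_lit 4723090717984856276995) (nat_lit 40564824043264873731169781285888) (nat_lit 10) (nat_lit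 3)) .nil)) (.cons (.br (nat_lit 6) (nat_lit 1) (.cons (.ev (nat_lit 121774620317195116580965407983366) (nat_lit 3)) .nil)) .nil))) .nil)))) .nil))))) .nil))))) .nil))))]

theorem c37 : chkAll C T R L37 (nat_lit 1151) = true := by decide +kernel

theorem l37 : (nat_lit 1151) + L37.length = (nat_lit 1170) := by decide +kernel

/-- part of the certificates -/
def L38 : List Prf := [(.br (nat_lit 8) (nat_lit 0) (.cons (.rf (nat_lit 1164) (nat_lit 493823401478318032928)) (.cons (.rf (nat_lit 1167) (nat_lit 493858305440582043680)) (.cons (.rf (nat_lit 1169) (nat_lit 493858305440582043680)) (.cons (.br (nat_lit 8) (nat_lit 0) (.cons (.rf (nat_lit 1164) (nat_lit 493823401478318032928)) (.cons (.rf (nat_lit 1167) (nat_lit 493858305440582043680)) (.cons (.rf (nat_lit 1169) (nat_lit 493858305440582043680)) .nil)))) .nil))))),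
 (.br (nat_lit 11) (nat_lit 0) (.cons (.kr (nat_lit 309489732259885532407922944) (nat_lit 79229371458530696296428273664) (nat_lit 1) (nat_lit 0)) .nil)),
 (.br (nat_lit 9) (nat_lit 0) (.cons (.kr (nat_lit 309489732259885532407922944) (nat_lit 79229371458530696296428273664) (nat_lit 1) (nat_lit 0)) .nil)),
 (.br (nat_lit 7) (nat_lit 0) (.cons (.rf (nat_lit 1164) (nat_lit 493858305440582043680)) (.cons (.rf (nat_lit 1170) (nat_lit 493858305440582043680)) (.cons (.rf (nat_lit 1126) (nat_lit 11867374282958119136)) (.cons (.br (nat_lit 8) (nat_lit 0) (.cons (.rf (nat_lit 1164) (nat_lit 493823401478318032928)) (.cons (.rf (nat_lit 1170) (nat_lit 493823401478318032928)) (.cons (.br (nat_lit 6) (nat_lit 1) (.cons (.br (nat_lit 3) (nat_lit 1) (.cons (.br (nat_lit 12) (nat_lit 0) (.cons (.rf (nat_lit 1171) (nat_lit 493858305440582043680)) (.cons (.ev (nat_lit 20282410812577490039675954462721) (nat_lit 1)) .nil))) (.cons (.br (nat_lit 4) (nat_lit 1) (.cons (.br (nat_lit 12) (nat_lit 0) (.cons (.ev (nat_lit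 20282719088680010571787530207233) (nat_lit 1)) .nil)) (.cons (.ev (nat_lit 309485009821626548013236224) (nat_lit 1)) .nil))) (.cons (.br (nat_lit 4) (nat_lit 1) (.cons (.rf (nat_lit 1171) (nat_lit 493858305440581027872)) (.cons (.br (nat_lit 10) (nat_lit 0) (.cons (.ev (nat_lit 82014788530064348390112169730) (nat_lit 4)) .nil)) .nil))) .nil)))) (.cons (.br (nat_lit 3) (nat_lit 1) (.cons (.ev (nat_lit 4740813508418331541504) (nat_lit 1)) (.cons (.br (nat_lit 4) (nat_lit 1) (.cons (.br (nat_lit 12) (nat_lit 0) (.cons (.ev (nat_lit 81211041439448500317304599545088) (nat_lit 3)) .nil)) (.cons (.br (nat_lit 9) (nat_lit 0) (.cons (.ev (nat_lit 243470942131274543591878002151178) (nat_lit 4)) .nil)) .nil))) (.cons (.br (nat_lit 11) (nat_lit 0) (.cons (.br (nat_lit 9) (nat_lit 0) (.cons (.ev (nat_lit 40645598454793186597530166036226) (nat_lit 3)) .nil)) (.cons (.ev (nat_lit 20282719088661564109184502399233) (nat_lit 1)) .nil))) .nil)))) (.cons (.br (nat_lit 3) (nat_lit 1) (.cons (.br (nat_lit 4) (nat_lit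 1) (.cons (.br (nat_lit 12) (nat_lit 0) (.cons (.ev (nat_lit 80167559506893597080944575246) (nat_lit 4)) .nil)) (.cons (.br (nat_lit 10) (nat_lit 0) (.cons (.zr (nat_lit 2475880079507790798807957504) (nat_lit 20282421702483726745593784044033) (nat_lit 30) (nat_lit 5)) .nil)) .nil))) (.cons (.br (nat_lit 12) (nat_lit 0) (.cons (.rf (nat_lit 1172) (nat_lit 493858305440582043680)) (.cons (.ev (nat_lit 20282410812577490039675954462721) (nat_lit 1)) .nil))) (.cons (.br (nat_lit 4) (nat_lit 1) (.cons (.ev (nat_lit 79537652264898909609918529536) (nat_lit 1)) (.cons (.rf (nat_lit 1172) (nat_lit 493858305440581027872)) .nil))) .nil)))) (.cons (.ev (nat_lit 282574488338689) (nat_lit 1)) .nil))))) .nil)))) .nil))))),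
 (.br (nat_lit 8) (nat_lit 0) (.cons (.rf (nat_lit 1164) (nat_lit 493823401478318032928)) (.cons (.rf (nat_lit 1170) (nat_lit 493823401478318032928)) (.cons (.rf (nat_lit 1173) (nat_lit 493858305440582043680)) (.cons (.br (nat_lit 8) (nat_lit 0) (.cons (.rf (nat_lit 1164) (nat_lit 493823401478318032928)) (.cons (.rf (nat_lit 1170) (nat_lit 493823401478318032928)) (.cons (.rf (nat_lit 1173) (nat_lit 493858305440582043680)) .nil)))) .nil))))),
 (.br (nat_lit 11) (nat_lit 0) (.cons (.kr (nat_lit 309489732259885532407922944) (nat_lit 79229371458530696296428273664) (nat_lit 1) (nat_lit 0)) .nil)),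
 (.br (nat_lit 4) (nat_lit 1) (.cons (.br (nat_lit 12) (nat_lit 0) (.cons (.ev (nat_lit 40646219823811753082107711521026) (nat_lit 3)) .nil)) (.cons (.rf (nat_lit 1175) (nat_lit 493858305440582043680)) .nil))),
 (.br (nat_lit 9) (nat_lit 0) (.cons (.kr (nat_lit 1213666632841572529471744) (nat_lit 79537647524157740256306724864) (nat_lit 1) (nat_lit 0)) .nil)),
 (.br (nat_lit 3) (nat_lit 1) (.cons (.br (nat_lit 4) (nat_lit 1) (.cons (.ev (nat_lit 311902879908165033360818435) (nat_lit 2)) (.cons (.ev (nat_lit 79229376162522492686418640896) (nat_lit 1)) .nil))) (.cons (.br (nat_lit 4) (nat_lit 1) (.cons (.ev (nat_lit 4722366483973468585984) (nat_lit 1)) (.cons (.rf (nat_lit 1177) (nat_lit 493858305440582043680)) .nil))) (.cons (.br (nat_lit 4) (nat_lit 1) (.cons (.br (nat_lit 11) (nat_lit 0) (.cons (.ev (nat_lit 243470313480145357730000467856646) (nat_lit 4)) .nil)) (.cons (.rf (nat_lit 1177) (nat_lit 493858305440581027872)) .nil))) .nil)))),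
 (.br (nat_lit 8) (nat_lit 0) (.cons (.rf (nat_lit 1164) (nat_lit 493823401478318032928)) (.cons (.rf (nat_lit 1170) (nat_lit 493823401478318032928)) (.cons (.rf (nat_lit 1174) (nat_lit 493823401478318032928)) (.cons (.br (nat_lit 7) (nat_lit 0) (.cons (.rf (nat_lit 1126) (nat_lit 11867374285103505632)) (.cons (.rf (nat_lit 1170) (nat_lit 493858305440582043680)) (.cons (.rf (nat_lit 1126) (nat_lit 11867374282958119136)) (.cons (.br (nat_lit 5) (nat_lit 1) (.cons (.br (nat_lit 3) (nat_lit 1) (.cons (.rf (nat_lit 1176) (nat_lit 493858305440582043680)) (.cons (.rf (nat_lit 1176) (nat_lit 493823401478318032928)) (.cons (.kr (nat_lit 4722366482869661990912) (nat_lit 79228162514264338693055578112) (nat_lit 3) (nat_lit 0)) .nil)))) (.cons (.rf (nat_lit 1178) (nat_lit 493858305440582043680)) (.cons (.rf (nat_lit 1178) (nat_lit 493823401478318032928)) (.cons (.ev (nat_lit 282574488338689) (nat_lit 1)) .nil))))) .nil))))) .nil))))),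
 (.br (nat_lit 7) (nat_lit 0) (.cons (.rf (nat_lit 1164) (nat_lit 493858305440582043680)) (.cons (.rf (nat_lit 1170) (nat_lit 493858305440582043680)) (.cons (.rf (nat_lit 1174) (nat_lit 493858305440582043680)) (.cons (.br (nat_lit 8) (nat_lit 0) (.cons (.rf (nat_lit 1164) (nat_lit 493823401478318032928)) (.cons (.rf (nat_lit 1170) (nat_lit 493823401478318032928)) (.cons (.rf (nat_lit 1174) (nat_lit 493823401478318032928)) (.cons (.rf (nat_lit 1179) (nat_lit 493823401478318032928)) (.cons (.rf (nat_lit 1179) (nat_lit 493858305440582043680)) .nil)))))) .nil))))),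
 (.br (nat_lit 2) (nat_lit 0) (.cons (.rf (nat_lit 1126) (nat_lit 14242959524133701664)) (.cons (.rf (nat_lit 1126) (nat_lit 14242959523092498464)) (.cons (.rf (nat_lit 1144) (nat_lit 14242959524133701664)) (.cons (.br (nat_lit 7) (nat_lit 0) (.cons (.rf (nat_lit 1164) (nat_lit 493858305440582043680)) (.cons (.rf (nat_lit 1170) (nat_lit 493858305440582043680)) (.cons (.rf (nat_lit 1174) (nat_lit 493858305440582043680)) (.cons (.rf (nat_lit 1180) (nat_lit 493858305440582043680)) (.cons (.br (nat_lit 7) (nat_lit 0) (.cons (.rf (nat_lit 1164) (nat_lit 493858305440582043680)) (.cons (.rf (nat_lit 1170) (nat_lit 493858305440582043680)) (.cons (.rf (nat_lit 1174) (nat_lit 493858305440582043680)) (.cons (.rf (nat_lit 1180) (nat_lit 493858305440582043680)) .nil))))) .nil)))))) .nil))))),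
 (.br (nat_lit 2) (nat_lit 0) (.cons (.rf (nat_lit 1126) (nat_lit 14242959524133701664)) (.cons (.rf (nat_lit 1126) (nat_lit 14242959523092498464)) (.cons (.rf (nat_lit 1181) (nat_lit 14242959524133701664)) (.cons (.rf (nat_lit 1181) (nat_lit 14242959523092498464)) (.cons (.br (nat_lit 2) (nat_lit 0) (.cons (.rf (nat_lit 1126) (nat_lit 14242959524133701664)) (.cons (.rf (nat_lit 1126) (nat_lit 14242959523092498464)) (.cons (.rf (nat_lit 1181) (nat_lit 14242959524133701664)) (.cons (.rf (nat_lit 1181) (nat_lit 14242959523092498464)) .nil))))) .nil)))))),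
 (.br (nat_lit 10) (nat_lit 0) (.cons (.zr (nat_lit 562954332340480) (nat_lit 1208925891677720770772993) (nat_lit 10) (nat_lit 3)) (.cons (.br (nat_lit 8) (nat_lit 0) (.cons (.rf (nat_lit 1093) (nat_lit 493823401478285527072)) (.cons (.br (nat_lit 11) (nat_lit 0) (.cons (.br (nat_lit 13) (nat_lit 1) (.cons (.ev (nat_lit 315548658018093890258993666) (nat_lit 3)) (.cons (.ev (nat_lit 317228179825609512785853679106) (nat_lit 3)) .nil))) (.cons (.rf (nat_lit 1095) (nat_lit 493858305440549537824)) .nil))) .nil))) .nil))),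
 (.br (nat_lit 8) (nat_lit 0) (.cons (.rf (nat_lit 1183) (nat_lit 14242959524133701664)) (.cons (.rf (nat_lit 1183) (nat_lit 14242959521988315168)) (.cons (.br (nat_lit 8) (nat_lit 0) (.cons (.rf (nat_lit 1183) (nat_lit 14242959524133701664)) (.cons (.rf (nat_lit 1183) (nat_lit 14242959521988315168)) .nil))) .nil)))),
 (.br (nat_lit 8) (nat_lit 0) (.cons (.rf (nat_lit 1184) (nat_lit 14208055561869690912)) (.cons (.br (nat_lit 9) (nat_lit 0) (.cons (.rf (nat_lit 1106) (nat_lit 493858305440549537824)) (.cons (.rf (nat_lit 1113) (nat_lit 15433072044951046176)) .nil))) .nil))),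
 (.br (nat_lit 10) (nat_lit 0) (.cons (.br (nat_lit 13) (nat_lit 1) (.cons (.ev (nat_lit 310698658079781636559405056) (nat_lit 1)) (.cons (.ev (nat_lit 79228162532711363142230212864) (nat_lit 1)) .nil))) (.cons (.br (nat_lit 13) (nat_lit 1) (.cons (.zr (nat_lit 4759332028611102245121) (nat_lit 40565128692313162194062755758080) (nat_lit 5) (nat_lit 0)) (.cons (.zr (nat_lit 2427333481855927172728065) (nat_lit 61164141461012068623328343031808) (nat_lit 10) (nat_lit 0)) .nil))) .nil))),
 (.br (nat_lit 8) (nat_lit 0) (.cons (.rf (nat_lit 1184) (nat_lit 14208055561869690912)) (.cons (.br (nat_lit 9) (nat_lit 0) (.cons (.rf (nat_lit 1186) (nat_lit 493858305440582043680)) (.cons (.rf (nat_lit 1186) (nat_lit 493823401476172646432)) (.cons (.br (nat_lit 12) (nat_lit 0) (.cons (.rf (nat_lit 1186) (nat_lit 490399646479877768256)) (.cons (.rf (nat_lit 1186) (nat_lit 490364742515468371008)) (.cons (.kr (nat_lit 4722366482869645213952) (nat_lit 79228162514264337593544015872) (nat_lit 1) (nat_lit 0)) .nil))))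 .nil)))) .nil))),
 (.br (nat_lit 7) (nat_lit 0) (.cons (.rf (nat_lit 1184) (nat_lit 14242959524133701664)) (.cons (.br (nat_lit 8) (nat_lit 0) (.cons (.rf (nat_lit 1185) (nat_lit 493858305440582043680)) (.cons (.rf (nat_lit 1187) (nat_lit 493858305440582043680)) (.cons (.br (nat_lit 8) (nat_lit 0) (.cons (.rf (nat_lit 1185) (nat_lit 493858305440582043680)) (.cons (.rf (nat_lit 1187) (nat_lit 493858305440582043680)) .nil))) .nil)))) .nil))),
 (.br (nat_lit 7) (nat_lit 0) (.cons (.rf (nat_lit 1188) (nat_lit 14242959524133701664)) (.cons (.rf (nat_lit 1188) (nat_lit 14242959521988315168)) (.cons (.br (nat_lit 7) (nat_lit 0) (.cons (.rf (nat_lit 1188) (nat_lit 14242959524133701664)) (.cons (.rf (nat_lit 1188) (nat_lit 14242959521988315168)) .nil))) .nil)))),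
 (.br (nat_lit 10) (nat_lit 0) (.cons (.br (nat_lit 11) (nat_lit 0) (.cons (.br (nat_lit 12) (nat_lit 0) (.cons (.ev (nat_lit 20361637770906747988484166844416) (nat_lit 1)) .nil)) .nil)) (.cons (.rf (nat_lit 1100) (nat_lit 493858305438469163040)) .nil))),
 (.br (nat_lit 8) (nat_lit 0) (.cons (.rf (nat_lit 1182) (nat_lit 13020260603259919616)) (.cons (.rf (nat_lit 1189) (nat_lit 11867374285170548960)) (.cons (.br (nat_lit 9) (nat_lit 0) (.cons (.br (nat_lit 12) (nat_lit 0) (.cons (.ev (nat_lit 79228167236630821566995759361) (nat_lit 1)) (.cons (.br (nat_lit 11) (nat_lit 0) (.cons (.ev (nat_lit 79228176718257837299885736706) (nat_lit 2)) (.cons (.ev (nat_lit 121773685798702355026912043270402) (nat_lit 3)) .nil))) .nil))) (.cons (.rf (nat_lit 1190) (nat_lit 493858305440582043680)) (.cons (.br (nat_lit 5) (nat_lit 1) (.cons (.br (nat_lit 6) (nat_lit 1) (.cons (.ev (nat_lit 310693935713298766930903041) (nat_lit 1)) (.cons (.rf (nat_lit 1102) (nat_lit 493858305438469163040)) .nil))) (.cons (.rf (nat_lit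 1190) (nat_lit 491482720201618890976)) (.cons (.kr (nat_lit 4722366482869645213952) (nat_lit 79228162514264337593544015872) (nat_lit 1) (nat_lit 0)) .nil)))) .nil)))) .nil)))),
 (.br (nat_lit 12) (nat_lit 0) (.cons (.ev (nat_lit 79228162532783140365114867968) (nat_lit 1)) (.cons (.br (nat_lit 6) (nat_lit 1) (.cons (.br (nat_lit 11) (nat_lit 0) (.cons (.ev (nat_lit 121775853421531265929061924798726) (nat_lit 3)) .nil)) (.cons (.br (nat_lit 10) (nat_lit 0) (.cons (.ev (nat_lit 81395799621245074245389846276) (nat_lit 3)) .nil)) .nil))) .nil))),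
 (.br (nat_lit 6) (nat_lit 1) (.cons (.br (nat_lit 12) (nat_lit 0) (.cons (.ev (nat_lit 121775241695621520297923390276868) (nat_lit 3)) .nil)) (.cons (.rf (nat_lit 1074) (nat_lit 493823401476205152288)) .nil))),
 (.br (nat_lit 8) (nat_lit 0) (.cons (.rf (nat_lit 1182) (nat_lit 13020260603259919616)) (.cons (.rf (nat_lit 1182) (nat_lit 13020260604234079488)) (.cons (.br (nat_lit 9) (nat_lit 0) (.cons (.rf (nat_lit 1192) (nat_lit 493858305440582043680)) (.cons (.rf (nat_lit 1192) (nat_lit 493858305438436657184)) (.cons (.br (nat_lit 4) (nat_lit 1) (.cons (.rf (nat_lit 1193) (nat_lit 493858305440582043680)) (.cons (.br (nat_lit 6) (nat_lit 1) (.cons (.rf (nat_lit 1193) (nat_lit 493858305438436657184)) (.cons (.ev (nat_lit 79228162514336395191876845824) (nat_lit 1)) .nil))) (.cons (.br (nat_lit 6) (nat_lit 1) (.cons (.rf (nat_lit 1074) (nat_lit 493823401478285527072)) (.cons (.ev (nat_lit 79228162514336676662558589184) (nat_lit 1)) .nil))) .nil)))) .nil)))) .nil)))),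
 (.br (nat_lit 8) (nat_lit 0) (.cons (.rf (nat_lit 1191) (nat_lit 493858305440582043680)) (.cons (.rf (nat_lit 1194) (nat_lit 493858305440582043680)) (.cons (.rf (nat_lit 1191) (nat_lit 493858305438436657184)) (.cons (.br (nat_lit 8) (nat_lit 0) (.cons (.rf (nat_lit 1191) (nat_lit 493858305440582043680)) (.cons (.rf (nat_lit 1194) (nat_lit 493858305440582043680)) (.cons (.rf (nat_lit 1191) (nat_lit 493858305438436657184)) .nil)))) .nil))))),
 (.br (nat_lit 6) (nat_lit 1) (.cons (.ev (nat_lit 4722366765444150329344) (nat_lit 1)) (.cons (.rf (nat_lit 1109) (nat_lit 493858305440549537824)) .nil))),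
 (.br (nat_lit 6) (nat_lit 1) (.cons (.zr (nat_lit 237684487542793012797811916800) (nat_lit 20282412021540203423927524917249) (nat_lit 5) (nat_lit 3)) .nil)),
 (.br (nat_lit 8) (nat_lit 0) (.cons (.rf (nat_lit 1182) (nat_lit 13020260603259919616)) (.cons (.rf (nat_lit 1195) (nat_lit 493823401478318032928)) (.cons (.br (nat_lit 9) (nat_lit 0) (.cons (.br (nat_lit 12) (nat_lit 0) (.cons (.ev (nat_lit 79228167236630821566995759361) (nat_lit 1)) (.cons (.br (nat_lit 10) (nat_lit 0) (.cons (.br (nat_lit 6) (nat_lit 1) (.cons (.ev (nat_lit 243468148284760826438131882331918) (nat_lit 4)) .nil)) .nil)) .nil))) (.cons (.br (nat_lit 5) (nat_lit 1) (.cons (.rf (nat_lit 1196) (nat_lit 493858305440582043680)) (.cons (.rf (nat_lit 1196) (nat_lit 493823401478318032928)) (.cons (.rf (nat_lit 1112) (nat_lit 493858305440549537824)) .nil)))) (.cons (.br (nat_lit 12) (nat_lit 0) (.cons (.kr (nat_lit 4722366482869645213952) (nat_lit 79228162514264337593544015872) (nat_lit 1) (nat_lit 0)) (.cons (.br (nat_lit 5)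 (nat_lit 1) (.cons (.rf (nat_lit 1197) (nat_lit 493858305440582043680)) (.cons (.rf (nat_lit 1197) (nat_lit 493823401478318032928)) .nil))) .nil))) .nil)))) .nil))))]

theorem c38 : chkAll C T R L38 (nat_lit 1170) = true := by decide +kernel

theorem l38 : (nat_lit 1170) + L38.length = (nat_lit 1199) := by decide +kernel

/-- part of the certificates -/
def L39 : List Prf := [(.br (nat_lit 8) (nat_lit 0) (.cons (.rf (nat_lit 1182) (nat_lit 13020260603259919616)) (.cons (.rf (nat_lit 1182) (nat_lit 13020260604234079488)) (.cons (.br (nat_lit 9) (nat_lit 0) (.cons (.br (nat_lit 12) (nat_lit 0) (.cons (.br (nat_lit 11) (nat_lit 0) (.cons (.ev (nat_lit 79847141997159358096625238785) (nat_lit 2)) (.cons (.ev (nat_lit 40644666349300499643041174388995) (nat_lit 2)) .nil))) (.cons (.ev (nat_lit 79228162532783140365114867968) (nat_lit 1)) .nil))) (.cons (.br (nat_lit 4) (nat_lit 1) (.cons (.br (nat_lit 6) (nat_lit 1) (.cons (.br (nat_lit 12) (nat_lit 0) (.cons (.ev (nat_lit 83269663160026426566320784142)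 (nat_lit 4)) .nil)) (.cons (.rf (nat_lit 1087) (nat_lit 493823401478285527072)) .nil))) (.cons (.br (nat_lit 6) (nat_lit 1) (.cons (.ev (nat_lit 310698676454186645549285376) (nat_lit 1)) (.cons (.ev (nat_lit 79847141997159358096625238785) (nat_lit 2)) .nil))) (.cons (.br (nat_lit 6) (nat_lit 1) (.cons (.rf (nat_lit 1088) (nat_lit 493823401478285527072)) (.cons (.ev (nat_lit 79228162514336676666870398976) (nat_lit 1)) .nil))) .nil)))) (.cons (.br (nat_lit 10) (nat_lit 0) (.cons (.br (nat_lit 11) (nat_lit 0) (.cons (.br (nat_lit 6) (nat_lit 1) (.cons (.zr (nat_lit 6044721331793514488397824) (nat_lit 20283028583116190477590850437633) (nat_lit 5) (nat_lit 4)) .nil)) .nil)) (.cons (.br (nat_lit 4) (nat_lit 1) (.cons (.ev (nat_lit 310698658151557764260889091) (nat_lit 2)) (.cons (.br (nat_lit 6) (nat_lit 1) (.cons (.zr (nat_lit 81130566869636363029677200114432) (nat_lit 6054166064760357535088641) (nat_lit 5) (nat_lit 3)) .nil)) .nil))) .nil))) .nil)))) .nil)))),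
 (.br (nat_lit 5) (nat_lit 1) (.cons (.br (nat_lit 11) (nat_lit 0) (.cons (.br (nat_lit 12) (nat_lit 0) (.cons (.ev (nat_lit 83886215144280770883250750222) (nat_lit 4)) .nil)) (.cons (.ev (nat_lit 20282720297587383441243483734016) (nat_lit 1)) .nil))) (.cons (.br (nat_lit 6) (nat_lit 1) (.cons (.ev (nat_lit 310698658079781636559405056) (nat_lit 1)) (.cons (.rf (nat_lit 1116) (nat_lit 493823401476205152288)) .nil))) (.cons (.br (nat_lit 11) (nat_lit 0) (.cons (.rf (nat_lit 1118) (nat_lit 493858305440549537824)) (.cons (.ev (nat_lit 40644666349300499643041174388995) (nat_lit 2)) .nil))) .nil)))),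
 (.br (nat_lit 6) (nat_lit 1) (.cons (.rf (nat_lit 1200) (nat_lit 493823401476172646432)) (.cons (.kr (nat_lit 309485009821345073019748352) (nat_lit 1208925819896104151416832) (nat_lit 4) (nat_lit 0)) (.cons (.br (nat_lit 5) (nat_lit 1) (.cons (.br (nat_lit 11) (nat_lit 0) (.cons (.ev (nat_lit 79551007118393337703411155726) (nat_lit 4)) .nil)) (.cons (.rf (nat_lit 1116) (nat_lit 493823401476205152288)) .nil))) .nil)))),
 (.br (nat_lit 9) (nat_lit 0) (.cons (.ev (nat_lit 4722438540467978174464) (nat_lit 1)) (.cons (.rf (nat_lit 1200) (nat_lit 493823401476172646432)) (.cons (.ev (nat_lit 40565438182100906425913446695425) (nat_lit 2)) .nil)))),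
 (.br (nat_lit 8) (nat_lit 0) (.cons (.rf (nat_lit 1195) (nat_lit 493823401478318032928)) (.cons (.rf (nat_lit 1182) (nat_lit 13020260604234079488)) (.cons (.br (nat_lit 4) (nat_lit 1) (.cons (.rf (nat_lit 1200) (nat_lit 493858305440582043680)) (.cons (.rf (nat_lit 1201) (nat_lit 493858305440582043680)) (.cons (.rf (nat_lit 1202) (nat_lit 493858305440582043680)) (.cons (.br (nat_lit 6) (nat_lit 1) (.cons (.rf (nat_lit 1200) (nat_lit 493823401476172646432)) (.cons (.rf (nat_lit 1202) (nat_lit 493823401476172646432)) (.cons (.rf (nat_lit 1201) (nat_lit 493823401476172646432)) .nil)))) .nil))))) .nil)))),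
 (.br (nat_lit 7) (nat_lit 0) (.cons (.rf (nat_lit 1182) (nat_lit 11867374283025162464)) (.cons (.rf (nat_lit 1195) (nat_lit 493858305440582043680)) (.cons (.br (nat_lit 8) (nat_lit 0) (.cons (.rf (nat_lit 1198) (nat_lit 493858305440582043680)) (.cons (.rf (nat_lit 1199) (nat_lit 493858305440582043680)) (.cons (.rf (nat_lit 1203) (nat_lit 493858305440582043680)) (.cons (.br (nat_lit 8) (nat_lit 0) (.cons (.rf (nat_lit 1198) (nat_lit 493858305440582043680)) (.cons (.rf (nat_lit 1199) (nat_lit 493858305440582043680)) (.cons (.rf (nat_lit 1203) (nat_lit 493858305440582043680)) .nil)))) .nil))))) .nil)))),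
 (.br (nat_lit 8) (nat_lit 0) (.cons (.rf (nat_lit 1204) (nat_lit 493823401478318032928)) (.cons (.rf (nat_lit 1204) (nat_lit 493823401476172646432)) (.cons (.br (nat_lit 8) (nat_lit 0) (.cons (.rf (nat_lit 1204) (nat_lit 493823401478318032928)) (.cons (.rf (nat_lit 1204) (nat_lit 493823401476172646432)) .nil))) .nil)))),
 (.br (nat_lit 2) (nat_lit 0) (.cons (.rf (nat_lit 1182) (nat_lit 10784300563429426240)) (.cons (.rf (nat_lit 1189) (nat_lit 14242959524133701664)) (.cons (.rf (nat_lit 1182) (nat_lit 10784300561284039744)) (.cons (.br (nat_lit 7) (nat_lit 0) (.cons (.rf (nat_lit 1204) (nat_lit 493858305440582043680)) (.cons (.rf (nat_lit 1205) (nat_lit 493858305440582043680)) (.cons (.rf (nat_lit 1204) (nat_lit 493858305438436657184)) (.cons (.br (nat_lit 7) (nat_lit 0) (.cons (.rf (nat_lit 1204) (nat_lit 493858305440582043680)) (.cons (.rf (nat_lit 1205) (nat_lit 493858305440582043680)) (.cons (.rf (nat_lit 1204) (nat_lit 493858305438436657184)) .nil)))) .nil))))) .nil))))),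
 (.br (nat_lit 8) (nat_lit 0) (.cons (.rf (nat_lit 1131) (nat_lit 14242959524101195808)) (.cons (.br (nat_lit 10) (nat_lit 0) (.cons (.rf (nat_lit 859) (nat_lit 493787408929684325440)) (.cons (.br (nat_lit 9) (nat_lit 0) (.cons (.rf (nat_lit 1132) (nat_lit 493858305440549537824)) (.cons (.br (nat_lit 6) (nat_lit 1) (.cons (.ev (nat_lit 309489750706911085389152513) (nat_lit 1)) (.cons (.ev (nat_lit 79229376162522775260906914048) (nat_lit 1)) .nil))) .nil))) .nil))) .nil))),
 (.br (nat_lit 8) (nat_lit 0) (.cons (.rf (nat_lit 1207) (nat_lit 14242959524133701664)) (.cons (.rf (nat_lit 1207) (nat_lit 14242959521988315168)) (.cons (.br (nat_lit 8) (nat_lit 0) (.cons (.rf (nat_lit 1207) (nat_lit 14242959524133701664)) (.cons (.rf (nat_lit 1207) (nat_lit 14242959521988315168)) .nil))) .nil)))),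
 (.br (nat_lit 11) (nat_lit 0) (.cons (.ev (nat_lit 309489750706911085389152513) (nat_lit 1)) (.cons (.br (nat_lit 12) (nat_lit 0) (.cons (.br (nat_lit 10) (nat_lit 0) (.cons (.ev (nat_lit 40565128706517371587288142774784) (nat_lit 2)) .nil)) (.cons (.ev (nat_lit 20282719093402377053557663727616) (nat_lit 1)) .nil))) .nil))),
 (.br (nat_lit 5) (nat_lit 1) (.cons (.br (nat_lit 11) (nat_lit 0) (.cons (.br (nat_lit 12) (nat_lit 0) (.cons (.ev (nat_lit 284037623084156201673117001384718) (nat_lit 4)) .nil)) .nil)) (.cons (.rf (nat_lit 1135) (nat_lit 493858305440549537824)) (.cons (.rf (nat_lit 1139) (nat_lit 493858305438469163040)) .nil)))),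
 (.br (nat_lit 8) (nat_lit 0) (.cons (.rf (nat_lit 1182) (nat_lit 13020260603259919616)) (.cons (.rf (nat_lit 1208) (nat_lit 10749396600124212288)) (.cons (.br (nat_lit 9) (nat_lit 0) (.cons (.rf (nat_lit 1209) (nat_lit 493858305440582043680)) (.cons (.rf (nat_lit 1210) (nat_lit 493858305440582043680)) (.cons (.br (nat_lit 12) (nat_lit 0) (.cons (.rf (nat_lit 1210) (nat_lit 490364742516572554304)) (.cons (.rf (nat_lit 1209) (nat_lit 490364742516572554304)) (.cons (.br (nat_lit 5) (nat_lit 1) (.cons (.br (nat_lit 6) (nat_lit 1) (.cons (.ev (nat_lit 81213512502824515487014479792396) (nat_lit 4)) .nil)) (.cons (.rf (nat_lit 1141) (nat_lit 493858305438469163040)) .nil))) .nil)))) .nil)))) .nil)))),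
 (.br (nat_lit 11) (nat_lit 0) (.cons (.ev (nat_lit 20361637766165935043020066979841) (nat_lit 1)) .nil)),
 (.br (nat_lit 12) (nat_lit 0) (.cons (.ev (nat_lit 79228162532783140365114867968) (nat_lit 1)) (.cons (.br (nat_lit 6) (nat_lit 1) (.cons (.rf (nat_lit 1212) (nat_lit 493858305440582043680)) (.cons (.rf (nat_lit 1212) (nat_lit 493823402543469922336)) .nil))) .nil))),
 (.br (nat_lit 6) (nat_lit 1) (.cons (.rf (nat_lit 898) (nat_lit 492741412561195473952)) (.cons (.br (nat_lit 11) (nat_lit 0) (.cons (.ev (nat_lit 121777103441494264858419674415366) (nat_lit 4)) .nil)) .nil))),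
 (.br (nat_lit 8) (nat_lit 0) (.cons (.rf (nat_lit 1211) (nat_lit 490364742516572554304)) (.cons (.br (nat_lit 7) (nat_lit 0) (.cons (.rf (nat_lit 1182) (nat_lit 11867374286211752160)) (.cons (.rf (nat_lit 1182) (nat_lit 11867374284066365664)) (.cons (.br (nat_lit 9) (nat_lit 0) (.cons (.rf (nat_lit 1213) (nat_lit 493858305440582043680)) (.cons (.rf (nat_lit 1213) (nat_lit 493858305438436657184)) (.cons (.br (nat_lit 4) (nat_lit 1) (.cons (.rf (nat_lit 1214) (nat_lit 493858305440582043680)) (.cons (.rf (nat_lit 1214) (nat_lit 493823401478250989600)) (.cons (.br (nat_lit 6) (nat_lit 1) (.cons (.rf (nat_lit 1214) (nat_lit 493858305438436657184)) (.cons (.rf (nat_lit 1214) (nat_lit 493823401476105603104)) .nil))) .nil)))) .nil)))) .nil)))) (.cons (.rf (nat_lit 1211) (nat_lit 490364742516505510976)) .nil)))),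
 (.br (nat_lit 7) (nat_lit 0) (.cons (.rf (nat_lit 1182) (nat_lit 11867374286211752160)) (.cons (.rf (nat_lit 1208) (nat_lit 14242959524133701664)) (.cons (.rf (nat_lit 1182) (nat_lit 11867374284066365664)) (.cons (.br (nat_lit 8) (nat_lit 0) (.cons (.rf (nat_lit 1215) (nat_lit 490364742516572554304)) (.cons (.rf (nat_lit 1215) (nat_lit 493823401478250989600)) (.cons (.rf (nat_lit 1215) (nat_lit 490364742516505510976)) (.cons (.rf (nat_lit 1215) (nat_lit 493858305440582043680)) .nil))))) .nil))))),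
 (.br (nat_lit 7) (nat_lit 0) (.cons (.rf (nat_lit 1216) (nat_lit 14242959524133701664)) (.cons (.rf (nat_lit 1216) (nat_lit 10784300562388223040)) (.cons (.rf (nat_lit 1216) (nat_lit 14242959524066658336)) (.cons (.rf (nat_lit 1216) (nat_lit 10784300562321179712)) (.cons (.br (nat_lit 7) (nat_lit 0) (.cons (.rf (nat_lit 1216) (nat_lit 14242959524133701664)) (.cons (.rf (nat_lit 1216) (nat_lit 10784300562388223040)) (.cons (.rf (nat_lit 1216) (nat_lit 14242959524066658336)) (.cons (.rf (nat_lit 1216) (nat_lit 10784300562321179712)) .nil))))) .nil)))))),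
 (.br (nat_lit 10) (nat_lit 0) (.cons (.br (nat_lit 11) (nat_lit 0) (.cons (.br (nat_lit 12) (nat_lit 0) (.cons (.ev (nat_lit 20361637766166006820234361569281) (nat_lit 1)) .nil)) .nil)) (.cons (.rf (nat_lit 1148) (nat_lit 493858305440549537824)) .nil))),
 (.br (nat_lit 10) (nat_lit 0) (.cons (.ev (nat_lit 4740813509517859946496) (nat_lit 1)) (.cons (.rf (nat_lit 1157) (nat_lit 493858305440549537824)) .nil))),
 (.br (nat_lit 10) (nat_lit 0) (.cons (.br (nat_lit 11) (nat_lit 0) (.cons (.br (nat_lit 12) (nat_lit 0) (.cons (.ev (nat_lit 20361637766166006820234361569281) (nat_lit 1)) .nil)) .nil)) (.cons (.br (nat_lit 4) (nat_lit 1) (.cons (.br (nat_lit 12) (nat_lit 0) (.cons (.ev (nat_lit 40644981902532805017416213988610) (nat_lit 3)) .nil)) (.cons (.ev (nat_lit 1208925891672227507666944) (nat_lit 1)) .nil))) .nil))),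
 (.br (nat_lit 8) (nat_lit 0) (.cons (.br (nat_lit 2) (nat_lit 0) (.cons (.rf (nat_lit 1217) (nat_lit 14242959524133701664)) (.cons (.br (nat_lit 9) (nat_lit 0) (.cons (.rf (nat_lit 1218) (nat_lit 493858305440582043680)) (.cons (.br (nat_lit 11) (nat_lit 0) (.cons (.rf (nat_lit 1218) (nat_lit 491482720202660094176)) (.cons (.rf (nat_lit 1150) (nat_lit 15433072044951046176)) .nil))) .nil))) .nil))) (.cons (.br (nat_lit 2) (nat_lit 0) (.cons (.rf (nat_lit 1217) (nat_lit 14242959524133701664)) (.cons (.br (nat_lit 9) (nat_lit 0) (.cons (.rf (nat_lit 1219) (nat_lit 493858305440582043680)) (.cons (.rf (nat_lit 1220) (nat_lit 493858305440582043680)) (.cons (.br (nat_lit 11) (nat_lit 0) (.cons (.rf (nat_lit 1220) (nat_lit 491482720200514707680)) (.cons (.rf (nat_lit 1219) (nat_lit 491482720200514707680)) (.cons (.br (nat_lit 4) (nat_lit 1) (.cons (.rf (nat_lit 1160) (nat_lit 493858305440549537824)) (.cons (.br (nat_lit 6) (nat_lit 1) (.cons (.ev (nat_lit 81212895969472335087719728349960) (nat_lit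 4)) .nil)) .nil))) .nil)))) .nil)))) .nil))) .nil))),
 (.br (nat_lit 10) (nat_lit 0) (.cons (.br (nat_lit 13) (nat_lit 1) (.cons (.ev (nat_lit 311907620865508255713001730) (nat_lit 2)) (.cons (.ev (nat_lit 79229380903336567361811644930) (nat_lit 2)) .nil))) (.cons (.br (nat_lit 11) (nat_lit 0) (.cons (.br (nat_lit 12) (nat_lit 0) (.cons (.ev (nat_lit 81398208028149651096432084228) (nat_lit 3)) .nil)) (.cons (.ev (nat_lit 20282719093402304995959347609856) (nat_lit 1)) .nil))) .nil))),
 (.br (nat_lit 11) (nat_lit 0) (.cons (.ev (nat_lit 309489732260167011679666433) (nat_lit 1)) (.cons (.br (nat_lit 5) (nat_lit 1) (.cons (.br (nat_lit 12) (nat_lit 0) (.cons (.zr (nat_lit 311902898354062487428661248) (nat_lit 40564819212025780514258092556546) (nat_lit 10) (nat_lit 4)) .nil)) (.cons (.br (nat_lit 10) (nat_lit 0) (.cons (.ev (nat_lit 40648693276705209703160873157890) (nat_lit 4)) .nil)) .nil))) .nil))),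
 (.br (nat_lit 8) (nat_lit 0) (.cons (.rf (nat_lit 1182) (nat_lit 13020260603259919616)) (.cons (.br (nat_lit 9) (nat_lit 0) (.cons (.rf (nat_lit 1222) (nat_lit 493858305440582043680)) (.cons (.rf (nat_lit 1223) (nat_lit 493858305440582043680)) (.cons (.br (nat_lit 10) (nat_lit 0) (.cons (.rf (nat_lit 1223) (nat_lit 492740314148038122752)) (.cons (.rf (nat_lit 1222) (nat_lit 492740314148038122752)) (.cons (.br (nat_lit 5) (nat_lit 1) (.cons (.br (nat_lit 6) (nat_lit 1) (.cons (.zr (nat_lit 81129638414662021928010133799680) (nat_lit 2427296372477576439922689) (nat_lit 5) (nat_lit 0)) .nil)) (.cons (.br (nat_lit 6) (nat_lit 1) (.cons (.zr (nat_lit 81129638414662021928010133799680) (nat_lit 2427296372477576439922689) (nat_lit 5) (nat_lit 0)) .nil)) .nil))) .nil)))) .nil)))) (.cons (.br (nat_lit 9) (nat_lit 0) (.cons (.br (nat_lit 10) (nat_lit 0) (.cons (.br (nat_lit 6) (nat_lit 1) (.cons (.br (nat_lit 12) (nat_lit 0) (.cons (.ev (nat_lit 81403043805216211807875694848) (nat_lit 3)) .nil)) (.cons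 (.ev (nat_lit 1208925819897203679821824) (nat_lit 1)) .nil))) (.cons (.ev (nat_lit 20282410812577490039675954397441) (nat_lit 1)) .nil))) (.cons (.br (nat_lit 5) (nat_lit 1) (.cons (.br (nat_lit 6) (nat_lit 1) (.cons (.ev (nat_lit 309489732187829037898400001) (nat_lit 1)) (.cons (.br (nat_lit 11) (nat_lit 0) (.cons (.ev (nat_lit 81211039021596572857644328485122) (nat_lit 3)) .nil)) .nil))) (.cons (.br (nat_lit 12) (nat_lit 0) (.cons (.rf (nat_lit 1153) (nat_lit 493858305440549537824)) (.cons (.ev (nat_lit 20361947255898122590582971826433) (nat_lit 1)) .nil))) (.cons (.br (nat_lit 6) (nat_lit 1) (.cons (.ev (nat_lit 1208925819897203679821824) (nat_lit 1)) (.cons (.rf (nat_lit 1154) (nat_lit 493858305440549537824)) .nil))) .nil)))) (.cons (.br (nat_lit 10) (nat_lit 0) (.cons (.br (nat_lit 11) (nat_lit 0) (.cons (.br (nat_lit 6) (nat_lit 1) (.cons (.ev (nat_lit 40646219814293232572699779335940) (nat_lit 3)) .nil)) .nil)) (.cons (.br (nat_lit 5) (nat_lit 1) (.cons (.rf (nat_lit 1155) (nat_lit 493858305440549537824))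 (.cons (.br (nat_lit 6) (nat_lit 1) (.cons (.zr (nat_lit 1208944267203127814717699) (nat_lit 40564819226192806781580730171392) (nat_lit 10) (nat_lit 0)) .nil)) .nil))) .nil))) .nil)))) .nil))))]

theorem c39 : chkAll C T R L39 (nat_lit 1199) = true := by decide +kernel

theorem l39 : (nat_lit 1199) + L39.length = (nat_lit 1225) := by decide +kernel

/-- part of the certificates -/
def L40 : List Prf := [(.br (nat_lit 6) (nat_lit 1) (.cons (.ev (nat_lit 87616904036127802318689339672) (nat_lit 5)) .nil)),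
 (.br (nat_lit 8) (nat_lit 0) (.cons (.rf (nat_lit 1182) (nat_lit 13020260603259919616)) (.cons (.rf (nat_lit 1182) (nat_lit 13020260604234079488)) (.cons (.br (nat_lit 12) (nat_lit 0) (.cons (.br (nat_lit 9) (nat_lit 0) (.cons (.br (nat_lit 6) (nat_lit 1) (.cons (.ev (nat_lit 79228162532711364246036873216) (nat_lit 1)) (.cons (.ev (nat_lit 79228162514336676666870398976) (nat_lit 1)) .nil))) (.cons (.br (nat_lit 10) (nat_lit 0) (.cons (.br (nat_lit 6) (nat_lit 1) (.cons (.ev (nat_lit 79538889524991172294681756930) (nat_lit 3)) .nil)) .nil)) .nil))) (.cons (.rf (nat_lit 655) (nat_lit 492668327988937466080)) (.cons (.br (nat_lit 9) (nat_lit 0) (.cons (.ev (nat_lit 79228162532783140365114867968) (nat_lit 1)) (.cons (.br (nat_lit 4) (nat_lit 1) (.cons (.rf (nat_lit 1225) (nat_lit 493858305440582043680)) (.cons (.rf (nat_lit 1225) (nat_lit 493823401478250989600)) .nil))) .nil))) .nil)))) .nil)))),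
 (.br (nat_lit 8) (nat_lit 0) (.cons (.rf (nat_lit 1224) (nat_lit 493858305440582043680)) (.cons (.rf (nat_lit 1182) (nat_lit 13020260604234079488)) (.cons (.br (nat_lit 4) (nat_lit 1) (.cons (.br (nat_lit 6) (nat_lit 1) (.cons (.br (nat_lit 5) (nat_lit 1) (.cons (.ev (nat_lit 310698658079781636559405056) (nat_lit 1)) (.cons (.br (nat_lit 11) (nat_lit 0) (.cons (.ev (nat_lit 20361637766166006820234361569281) (nat_lit 1)) .nil)) .nil))) (.cons (.kr (nat_lit 281474976776192) (nat_lit 18446744078004518912) (nat_lit 2) (nat_lit 0)) (.cons (.br (nat_lit 5) (nat_lit 1) (.cons (.br (nat_lit 11) (nat_lit 0) (.cons (.ev (nat_lit 79553415562197030028152996622) (nat_lit 4)) .nil)) (.cons (.rf (nat_lit 1161) (nat_lit 493858305440549537824)) .nil))) .nil)))) (.cons (.br (nat_lit 5) (nat_lit 1) (.cons (.br (nat_lit 6) (nat_lit 1) (.cons (.br (nat_lit 12) (nat_lit 0) (.cons (.ev (nat_lit 83886215107531960865270989582) (nat_lit 4)) .nil)) (.cons (.br (nat_lit 11) (nat_lit 0) (.cons (.ev (nat_lit 20361638975091754657644946718976)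 (nat_lit 1)) .nil)) .nil))) (.cons (.br (nat_lit 6) (nat_lit 1) (.cons (.br (nat_lit 12) (nat_lit 0) (.cons (.ev (nat_lit 82640964991497935701575798020) (nat_lit 4)) .nil)) (.cons (.rf (nat_lit 1168) (nat_lit 493858305440547506208)) .nil))) (.cons (.br (nat_lit 11) (nat_lit 0) (.cons (.rf (nat_lit 1162) (nat_lit 493858305440549537824)) (.cons (.ev (nat_lit 20361637766166006820234361569281) (nat_lit 1)) .nil))) .nil)))) (.cons (.br (nat_lit 5) (nat_lit 1) (.cons (.br (nat_lit 10) (nat_lit 0) (.cons (.ev (nat_lit 310698658079781636559405056) (nat_lit 1)) (.cons (.ev (nat_lit 20282410812577490039675954397441) (nat_lit 1)) .nil))) (.cons (.br (nat_lit 6) (nat_lit 1) (.cons (.br (nat_lit 12) (nat_lit 0) (.cons (.ev (nat_lit 40564819207321931990843173044736) (nat_lit 2)) .nil)) (.cons (.br (nat_lit 9) (nat_lit 0) (.cons (.ev (nat_lit 40644981893143701354296725537540) (nat_lit 3)) .nil)) .nil))) (.cons (.br (nat_lit 6) (nat_lit 1) (.cons (.br (nat_lit 10) (nat_lit 0) (.cons (.ev (nat_lit 40564819207321931990843173044736)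 (nat_lit 2)) .nil)) (.cons (.br (nat_lit 9) (nat_lit 0) (.cons (.ev (nat_lit 121775858228899913147004104279808) (nat_lit 3)) .nil)) .nil))) .nil)))) (.cons (.br (nat_lit 5) (nat_lit 1) (.cons (.br (nat_lit 10) (nat_lit 0) (.cons (.br (nat_lit 11) (nat_lit 0) (.cons (.ev (nat_lit 81211041439448500321702579077888) (nat_lit 3)) .nil)) (.cons (.ev (nat_lit 20282410812577490039675954397441) (nat_lit 1)) .nil))) (.cons (.ev (nat_lit 1208925891672227507666944) (nat_lit 1)) (.cons (.br (nat_lit 9) (nat_lit 0) (.cons (.br (nat_lit 10) (nat_lit 0) (.cons (.ev (nat_lit 40645603290533647335295629198086) (nat_lit 3)) .nil)) (.cons (.ev (nat_lit 20282719093383930309483954241536) (nat_lit 1)) .nil))) .nil)))) .nil))))) .nil)))),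
 (.br (nat_lit 7) (nat_lit 0) (.cons (.rf (nat_lit 1182) (nat_lit 11867374286211752160)) (.cons (.br (nat_lit 8) (nat_lit 0) (.cons (.rf (nat_lit 1221) (nat_lit 491482720202660094176)) (.cons (.rf (nat_lit 1221) (nat_lit 491482720200514707680)) (.cons (.rf (nat_lit 1221) (nat_lit 493858305440582043680)) .nil)))) (.cons (.rf (nat_lit 1182) (nat_lit 11867374284066365664)) (.cons (.br (nat_lit 8) (nat_lit 0) (.cons (.rf (nat_lit 1224) (nat_lit 493858305440582043680)) (.cons (.rf (nat_lit 1226) (nat_lit 493858305440582043680)) (.cons (.rf (nat_lit 1227) (nat_lit 493858305440582043680)) (.cons (.br (nat_lit 8) (nat_lit 0) (.cons (.rf (nat_lit 1224) (nat_lit 493858305440582043680)) (.cons (.rf (nat_lit 1226) (nat_lit 493858305440582043680)) (.cons (.rf (nat_lit 1227) (nat_lit 493858305440582043680)) .nil)))) .nil))))) .nil))))),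
 (.br (nat_lit 5) (nat_lit 1) (.cons (.br (nat_lit 6) (nat_lit 1) (.cons (.br (nat_lit 12) (nat_lit 0) (.cons (.ev (nat_lit 83269662976277870746524386062) (nat_lit 4)) .nil)) (.cons (.br (nat_lit 11) (nat_lit 0) (.cons (.ev (nat_lit 40644358087494567186344051802370) (nat_lit 3)) .nil)) .nil))) (.cons (.br (nat_lit 6) (nat_lit 1) (.cons (.ev (nat_lit 310698658079781636559405056) (nat_lit 1)) (.cons (.br (nat_lit 10) (nat_lit 0) (.cons (.ev (nat_lit 243470934830348821722371166373642) (nat_lit 4)) .nil)) .nil))) (.cons (.br (nat_lit 6) (nat_lit 1) (.cons (.br (nat_lit 11) (nat_lit 0) (.cons (.ev (nat_lit 121775858257234401959058497274626) (nat_lit 3)) .nil)) (.cons (.ev (nat_lit 309485009821627643229896704) (nat_lit 1)) .nil))) .nil)))),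
 (.br (nat_lit 5) (nat_lit 1) (.cons (.rf (nat_lit 1229) (nat_lit 493858305440515000352)) (.cons (.br (nat_lit 12) (nat_lit 0) (.cons (.ev (nat_lit 310693954160042844918644993) (nat_lit 1)) (.cons (.ev (nat_lit 20282719088680010570688035356673) (nat_lit 1)) .nil))) (.cons (.br (nat_lit 6) (nat_lit 1) (.cons (.rf (nat_lit 1171) (nat_lit 493858305440549537824)) (.cons (.rf (nat_lit 1172) (nat_lit 493858305440549537824)) .nil))) .nil)))),
 (.br (nat_lit 5) (nat_lit 1) (.cons (.rf (nat_lit 1229) (nat_lit 493858305440515000352)) (.cons (.rf (nat_lit 1230) (nat_lit 493858305440515000352)) (.cons (.br (nat_lit 10) (nat_lit 0) (.cons (.br (nat_lit 9) (nat_lit 0) (.cons (.ev (nat_lit 121775853421604622246443305076486) (nat_lit 3)) .nil)) (.cons (.ev (nat_lit 20282719088680010571787530207233) (nat_lit 1)) .nil))) .nil)))),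
 (.br (nat_lit 7) (nat_lit 0) (.cons (.rf (nat_lit 1182) (nat_lit 11867374286211752160)) (.cons (.rf (nat_lit 1182) (nat_lit 11867374283025162464)) (.cons (.rf (nat_lit 1206) (nat_lit 11867374285103505632)) (.cons (.br (nat_lit 8) (nat_lit 0) (.cons (.rf (nat_lit 1182) (nat_lit 13020260604301122816)) (.cons (.rf (nat_lit 1182) (nat_lit 13020260604234079488)) (.cons (.br (nat_lit 3) (nat_lit 1) (.cons (.rf (nat_lit 1229) (nat_lit 493858305440582043680)) (.cons (.rf (nat_lit 1230) (nat_lit 493858305440582043680)) (.cons (.rf (nat_lit 1231) (nat_lit 493858305440582043680)) (.cons (.br (nat_lit 5) (nat_lit 1) (.cons (.rf (nat_lit 1229) (nat_lit 493858305440515000352)) (.cons (.rf (nat_lit 1230) (nat_lit 493858305440515000352)) (.cons (.rf (nat_lit 1231) (nat_lit 493858305440515000352)) .nil)))) .nil))))) .nil)))) .nil))))),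
 (.br (nat_lit 8) (nat_lit 0) (.cons (.rf (nat_lit 1228) (nat_lit 493823401478318032928)) (.cons (.rf (nat_lit 1228) (nat_lit 493823401478250989600)) (.cons (.rf (nat_lit 1232) (nat_lit 493858305440582043680)) (.cons (.br (nat_lit 8) (nat_lit 0) (.cons (.rf (nat_lit 1228) (nat_lit 493823401478318032928)) (.cons (.rf (nat_lit 1228) (nat_lit 493823401478250989600)) (.cons (.rf (nat_lit 1232) (nat_lit 493858305440582043680)) .nil)))) .nil))))),
 (.br (nat_lit 5) (nat_lit 1) (.cons (.ev (nat_lit 1208962785444053255258881) (nat_lit 2)) (.cons (.br (nat_lit 11) (nat_lit 0) (.cons (.ev (nat_lit 40646222241589748882894118519040) (nat_lit 3)) .nil)) .nil))),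
 (.br (nat_lit 4) (nat_lit 1) (.cons (.rf (nat_lit 1234) (nat_lit 493858305440582043680)) (.cons (.rf (nat_lit 1234) (nat_lit 493823401478318032928)) (.cons (.ev (nat_lit 79228167236631101938182652161) (nat_lit 1)) .nil)))),
 (.br (nat_lit 5) (nat_lit 1) (.cons (.rf (nat_lit 1235) (nat_lit 493858305440515000352)) (.cons (.br (nat_lit 4) (nat_lit 1) (.cons (.ev (nat_lit 4722366483973468585984) (nat_lit 1)) (.cons (.br (nat_lit 9) (nat_lit 0) (.cons (.ev (nat_lit 40644358087457674261120883819778) (nat_lit 3)) .nil)) .nil))) (.cons (.br (nat_lit 4) (nat_lit 1) (.cons (.rf (nat_lit 1175) (nat_lit 493858305440549537824)) (.cons (.rf (nat_lit 1177) (nat_lit 493823401478285527072)) .nil))) .nil)))),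
 (.br (nat_lit 8) (nat_lit 0) (.cons (.rf (nat_lit 1228) (nat_lit 493823401478318032928)) (.cons (.rf (nat_lit 1233) (nat_lit 493823401478318032928)) (.cons (.rf (nat_lit 1228) (nat_lit 493823401478250989600)) (.cons (.br (nat_lit 7) (nat_lit 0) (.cons (.rf (nat_lit 1182) (nat_lit 11867374284066365664)) (.cons (.rf (nat_lit 1206) (nat_lit 11867374285103505632)) (.cons (.rf (nat_lit 1182) (nat_lit 11867374283999322336)) (.cons (.br (nat_lit 3) (nat_lit 1) (.cons (.rf (nat_lit 1235) (nat_lit 493858305440582043680)) (.cons (.rf (nat_lit 1236) (nat_lit 493858305440582043680)) (.cons (.rf (nat_lit 1236) (nat_lit 493823401478318032928)) (.cons (.br (nat_lit 5) (nat_lit 1) (.cons (.rf (nat_lit 1235) (nat_lit 493858305440515000352)) (.cons (.rf (nat_lit 1236) (nat_lit 493858305440515000352)) (.cons (.rf (nat_lit 1236) (nat_lit 493823401478250989600)) .nil)))) .nil))))) .nil))))) .nil))))),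
 (.br (nat_lit 7) (nat_lit 0) (.cons (.rf (nat_lit 1182) (nat_lit 11867374284066365664)) (.cons (.rf (nat_lit 1233) (nat_lit 493858305440582043680)) (.cons (.rf (nat_lit 1182) (nat_lit 11867374283999322336)) (.cons (.br (nat_lit 8) (nat_lit 0) (.cons (.rf (nat_lit 1228) (nat_lit 493823401478318032928)) (.cons (.rf (nat_lit 1233) (nat_lit 493823401478318032928)) (.cons (.rf (nat_lit 1228) (nat_lit 493823401478250989600)) (.cons (.rf (nat_lit 1237) (nat_lit 493823401478318032928)) (.cons (.rf (nat_lit 1237) (nat_lit 493858305440582043680)) .nil)))))) .nil))))),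
 (.br (nat_lit 2) (nat_lit 0) (.cons (.rf (nat_lit 1182) (nat_lit 10784300563429426240)) (.cons (.rf (nat_lit 1182) (nat_lit 10784300560242836544)) (.cons (.rf (nat_lit 1217) (nat_lit 14242959524133701664)) (.cons (.br (nat_lit 7) (nat_lit 0) (.cons (.rf (nat_lit 1228) (nat_lit 493858305440582043680)) (.cons (.rf (nat_lit 1233) (nat_lit 493858305440582043680)) (.cons (.rf (nat_lit 1228) (nat_lit 493858305440515000352)) (.cons (.rf (nat_lit 1238) (nat_lit 493858305440582043680)) (.cons (.br (nat_lit 7) (nat_lit 0) (.cons (.rf (nat_lit 1228) (nat_lit 493858305440582043680)) (.cons (.rf (nat_lit 1233) (nat_lit 493858305440582043680)) (.cons (.rf (nat_lit 1228) (nat_lit 493858305440515000352)) (.cons (.rf (nat_lit 1238) (nat_lit 493858305440582043680)) .nil))))) .nil)))))) .nil))))),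
 (.br (nat_lit 2) (nat_lit 0) (.cons (.rf (nat_lit 1206) (nat_lit 14242959524133701664)) (.cons (.rf (nat_lit 1239) (nat_lit 14242959524133701664)) (.cons (.rf (nat_lit 1206) (nat_lit 14242959524066658336)) (.cons (.rf (nat_lit 1239) (nat_lit 14242959521988315168)) (.cons (.br (nat_lit 2) (nat_lit 0) (.cons (.rf (nat_lit 1206) (nat_lit 14242959524133701664)) (.cons (.rf (nat_lit 1239) (nat_lit 14242959524133701664)) (.cons (.rf (nat_lit 1206) (nat_lit 14242959524066658336)) (.cons (.rf (nat_lit 1239) (nat_lit 14242959521988315168)) .nil))))) .nil)))))),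
 (.br (nat_lit 6) (nat_lit 1) (.cons (.zr (nat_lit 72340168526266627) (nat_lit 40644048578743424800121532973056) (nat_lit 5) (nat_lit 0)) .nil)),
 (.br (nat_lit 12) (nat_lit 0) (.cons (.kr (nat_lit 4722366482869645213952) (nat_lit 79228162514264337593544015872) (nat_lit 1) (nat_lit 0)) (.cons (.br (nat_lit 5) (nat_lit 1) (.cons (.rf (nat_lit 1241) (nat_lit 493858305440582043680)) (.cons (.rf (nat_lit 1241) (nat_lit 493823401478318032928)) .nil))) .nil))),
 (.br (nat_lit 8) (nat_lit 0) (.cons (.rf (nat_lit 1182) (nat_lit 13020260603259919616)) (.cons (.rf (nat_lit 1240) (nat_lit 13020260605405306112)) (.cons (.br (nat_lit 9) (nat_lit 0) (.cons (.rf (nat_lit 1242) (nat_lit 493858305440582043680)) (.cons (.br (nat_lit 6) (nat_lit 1) (.cons (.rf (nat_lit 1242) (nat_lit 492635606521853648128)) (.cons (.rf (nat_lit 1242) (nat_lit 491482720201618890976)) (.cons (.kr (nat_lit 4722366482869645213952) (nat_lit 79228162514264337593544015872) (nat_lit 1) (nat_lit 0)) .nil)))) .nil))) .nil)))),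
 (.br (nat_lit 10) (nat_lit 0) (.cons (.br (nat_lit 11) (nat_lit 0) (.cons (.br (nat_lit 6) (nat_lit 1) (.cons (.ev (nat_lit 4722438821942971597056) (nat_lit 1)) .nil)) .nil)) (.cons (.br (nat_lit 5) (nat_lit 1) (.cons (.br (nat_lit 6) (nat_lit 1) (.cons (.zr (nat_lit 3626832799076108719882240) (nat_lit 20282409613096403672265325019649) (nat_lit 5) (nat_lit 6)) .nil)) (.cons (.br (nat_lit 6) (nat_lit 1) (.cons (.zr (nat_lit 3626832799076108719882240) (nat_lit 20282409613096403672265325019649) (nat_lit 5) (nat_lit 6)) .nil)) .nil))) .nil))),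
 (.br (nat_lit 4) (nat_lit 1) (.cons (.br (nat_lit 11) (nat_lit 0) (.cons (.br (nat_lit 6) (nat_lit 1) (.cons (.zr (nat_lit 216455356602188037) (nat_lit 101412358712193993079442762629120) (nat_lit 10) (nat_lit 0)) .nil)) .nil)) (.cons (.ev (nat_lit 4722438540467978174464) (nat_lit 1)) (.cons (.rf (nat_lit 1244) (nat_lit 490399646479877768256)) .nil)))),
 (.br (nat_lit 8) (nat_lit 0) (.cons (.rf (nat_lit 1182) (nat_lit 13020260603259919616)) (.cons (.rf (nat_lit 1182) (nat_lit 13020260604234079488)) (.cons (.br (nat_lit 9) (nat_lit 0) (.cons (.rf (nat_lit 1244) (nat_lit 493858305440582043680)) (.cons (.rf (nat_lit 1245) (nat_lit 493858305440582043680)) (.cons (.br (nat_lit 12) (nat_lit 0) (.cons (.rf (nat_lit 1244) (nat_lit 490399646479877768256)) (.cons (.rf (nat_lit 1245) (nat_lit 490399646479877768256)) (.cons (.kr (nat_lit 4722366482869645213952) (nat_lit 79228162514264337593544015872) (nat_lit 1) (nat_lit 0)) .nil)))) .nil)))) .nil)))),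
 (.br (nat_lit 10) (nat_lit 0) (.cons (.br (nat_lit 5) (nat_lit 1) (.cons (.br (nat_lit 6) (nat_lit 1) (.cons (.zr (nat_lit 3626832799076108719882240) (nat_lit 20282409613096403672265325019649) (nat_lit 5) (nat_lit 6)) .nil)) (.cons (.br (nat_lit 6) (nat_lit 1) (.cons (.zr (nat_lit 3626832799076108719882240) (nat_lit 20282409613096403672265325019649) (nat_lit 5) (nat_lit 6)) .nil)) .nil))) (.cons (.br (nat_lit 5) (nat_lit 1) (.cons (.ev (nat_lit 310698658079781636559405056) (nat_lit 1)) (.cons (.ev (nat_lit 79228162532711363142230212864) (nat_lit 1)) .nil))) .nil))),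
 (.br (nat_lit 8) (nat_lit 0) (.cons (.rf (nat_lit 1240) (nat_lit 13020260605405306112)) (.cons (.rf (nat_lit 1182) (nat_lit 13020260604234079488)) (.cons (.br (nat_lit 9) (nat_lit 0) (.cons (.rf (nat_lit 1247) (nat_lit 493858305440582043680)) (.cons (.br (nat_lit 12) (nat_lit 0) (.cons (.rf (nat_lit 1247) (nat_lit 490399646479877768256)) (.cons (.kr (nat_lit 4722366482869645213952) (nat_lit 79228162514264337593544015872) (nat_lit 1) (nat_lit 0)) (.cons (.rf (nat_lit 1247) (nat_lit 490364742515468371008)) .nil)))) (.cons (.rf (nat_lit 1247) (nat_lit 493823401476172646432)) .nil)))) .nil)))),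
 (.br (nat_lit 7) (nat_lit 0) (.cons (.rf (nat_lit 1182) (nat_lit 11867374283025162464)) (.cons (.rf (nat_lit 1240) (nat_lit 11867374285170548960)) (.cons (.br (nat_lit 8) (nat_lit 0) (.cons (.rf (nat_lit 1243) (nat_lit 493858305440582043680)) (.cons (.rf (nat_lit 1246) (nat_lit 493858305440582043680)) (.cons (.rf (nat_lit 1248) (nat_lit 493858305440582043680)) (.cons (.br (nat_lit 8) (nat_lit 0) (.cons (.rf (nat_lit 1243) (nat_lit 493858305440582043680)) (.cons (.rf (nat_lit 1246) (nat_lit 493858305440582043680)) (.cons (.rf (nat_lit 1248) (nat_lit 493858305440582043680)) .nil)))) .nil))))) .nil))))]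

theorem c40 : chkAll C T R L40 (nat_lit 1225) = true := by decide +kernel

theorem l40 : (nat_lit 1225) + L40.length = (nat_lit 1250) := by decide +kernel

/-- part of the certificates -/
def L41 : List Prf := [(.br (nat_lit 4) (nat_lit 1) (.cons (.kr (nat_lit 4722366483969156841728) (nat_lit 1208944266358702901035008) (nat_lit 1) (nat_lit 0)) (.cons (.kr (nat_lit 4722366483969156841728) (nat_lit 309485009893402662779486208) (nat_lit 1) (nat_lit 0)) (.cons (.kr (nat_lit 4722366482869645213952) (nat_lit 79228162514264337593544015872) (nat_lit 1) (nat_lit 0)) .nil)))),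
 (.br (nat_lit 8) (nat_lit 0) (.cons (.rf (nat_lit 1249) (nat_lit 493823401478318032928)) (.cons (.br (nat_lit 7) (nat_lit 0) (.cons (.rf (nat_lit 1182) (nat_lit 11867374283025162464)) (.cons (.rf (nat_lit 1182) (nat_lit 11867374283999322336)) (.cons (.br (nat_lit 9) (nat_lit 0) (.cons (.rf (nat_lit 1250) (nat_lit 493858305440582043680)) (.cons (.rf (nat_lit 1250) (nat_lit 493858305438436657184)) .nil))) .nil)))) (.cons (.rf (nat_lit 1249) (nat_lit 493823401476172646432)) .nil)))),
 (.br (nat_lit 7) (nat_lit 0) (.cons (.rf (nat_lit 1182) (nat_lit 11867374283025162464)) (.cons (.rf (nat_lit 1182) (nat_lit 11867374283999322336)) (.cons (.br (nat_lit 8) (nat_lit 0) (.cons (.rf (nat_lit 1249) (nat_lit 493823401478318032928)) (.cons (.rf (nat_lit 1251) (nat_lit 493823401478318032928)) (.cons (.rf (nat_lit 1249) (nat_lit 493823401476172646432)) (.cons (.rf (nat_lit 1251) (nat_lit 493858305440582043680)) .nil))))) .nil)))),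
 (.br (nat_lit 2) (nat_lit 0) (.cons (.rf (nat_lit 1182) (nat_lit 10784300563429426240)) (.cons (.rf (nat_lit 1240) (nat_lit 10784300563429426240)) (.cons (.rf (nat_lit 1182) (nat_lit 10784300561284039744)) (.cons (.br (nat_lit 7) (nat_lit 0) (.cons (.rf (nat_lit 1249) (nat_lit 493858305440582043680)) (.cons (.rf (nat_lit 1252) (nat_lit 493858305440582043680)) (.cons (.rf (nat_lit 1249) (nat_lit 493858305438436657184)) (.cons (.br (nat_lit 7) (nat_lit 0) (.cons (.rf (nat_lit 1249) (nat_lit 493858305440582043680)) (.cons (.rf (nat_lit 1252) (nat_lit 493858305440582043680)) (.cons (.rf (nat_lit 1249) (nat_lit 493858305438436657184)) .nil)))) .nil))))) .nil))))),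
 (.br (nat_lit 5) (nat_lit 1) (.cons (.ev (nat_lit 20282410812577490039675954397441) (nat_lit 1)) (.cons (.zr (nat_lit 72059793061183747) (nat_lit 40565128697035528675832906121216) (nat_lit 5) (nat_lit 0)) (.cons (.br (nat_lit 6) (nat_lit 1) (.cons (.zr (nat_lit 20282409608374253085096568422401) (nat_lit 4835721725202594720252160) (nat_lit 5) (nat_lit 5)) (.cons (.zr (nat_lit 20282409627318843076014164148993) (nat_lit 318150590096414788247424991232) (nat_lit 5) (nat_lit 5)) .nil))) .nil)))),
 (.br (nat_lit 8) (nat_lit 0) (.cons (.rf (nat_lit 1182) (nat_lit 13020260603259919616)) (.cons (.rf (nat_lit 1240) (nat_lit 13020260605405306112)) (.cons (.br (nat_lit 9) (nat_lit 0) (.cons (.rf (nat_lit 1254) (nat_lit 493858305440582043680)) (.cons (.br (nat_lit 6) (nat_lit 1) (.cons (.ev (nat_lit 20282409608392483932369877729281) (nat_lit 1)) (.cons (.br (nat_lit 10) (nat_lit 0) (.cons (.br (nat_lit 5) (nat_lit 1) (.cons (.zr (nat_lit 72340168526331907) (nat_lit 40564820420951526945397634236416) (nat_lit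 5) (nat_lit 0)) .nil)) .nil)) (.cons (.rf (nat_lit 1254) (nat_lit 490364742516572554304)) .nil)))) .nil))) .nil)))),
 (.br (nat_lit 6) (nat_lit 1) (.cons (.kr (nat_lit 1213666632841572529471744) (nat_lit 79537647524157740256306724864) (nat_lit 1) (nat_lit 0)) .nil)),
 (.br (nat_lit 8) (nat_lit 0) (.cons (.rf (nat_lit 1182) (nat_lit 13020260603259919616)) (.cons (.rf (nat_lit 1182) (nat_lit 13020260604234079488)) (.cons (.br (nat_lit 9) (nat_lit 0) (.cons (.br (nat_lit 10) (nat_lit 0) (.cons (.br (nat_lit 11) (nat_lit 0) (.cons (.br (nat_lit 6) (nat_lit 1) (.cons (.ev (nat_lit 313121269051603568411476224) (nat_lit 2)) .nil)) .nil)) (.cons (.br (nat_lit 5) (nat_lit 1) (.cons (.zr (nat_lit 1208999606590924013109511) (nat_lit 162259895803955372565688911659008) (nat_lit 15) (nat_lit 0)) (.cons (.rf (nat_lit 1256) (nat_lit 493858305440582043680)) .nil))) .nil))) (.cons (.br (nat_lit 10) (nat_lit 0) (.cons (.br (nat_lit 11) (nat_lit 0) (.cons (.br (nat_lit 6) (nat_lit 1) (.cons (.ev (nat_lit 20282409608374109245885927981313)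 (nat_lit 1)) .nil)) .nil)) (.cons (.br (nat_lit 4) (nat_lit 1) (.cons (.br (nat_lit 6) (nat_lit 1) (.cons (.zr (nat_lit 73787257769831956487) (nat_lit 162259586318945551221723993473024) (nat_lit 15) (nat_lit 0)) .nil)) (.cons (.rf (nat_lit 984) (nat_lit 490436730636260711456)) .nil))) .nil))) (.cons (.br (nat_lit 5) (nat_lit 1) (.cons (.ev (nat_lit 4740813228042866458624) (nat_lit 1)) (.cons (.br (nat_lit 4) (nat_lit 1) (.cons (.br (nat_lit 6) (nat_lit 1) (.cons (.zr (nat_lit 310693935640964100257939712) (nat_lit 20282409613151744466332600500225) (nat_lit 10) (nat_lit 4)) .nil)) (.cons (.br (nat_lit 6) (nat_lit 1) (.cons (.ev (nat_lit 40565129901275876141268608418050) (nat_lit 2)) .nil)) .nil))) (.cons (.br (nat_lit 6) (nat_lit 1) (.cons (.ev (nat_lit 20361638979814121140514608709633) (nat_lit 1)) (.cons (.br (nat_lit 4) (nat_lit 1) (.cons (.zr (nat_lit 1549843029873163143894859776) (nat_lit 81129638428774143970040967332612) (nat_lit 20) (nat_lit 4)) .nil)) .nil))) .nil)))) .nil)))) .nil)))),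
 (.br (nat_lit 6) (nat_lit 1) (.cons (.ev (nat_lit 20282409608392483932369877729281) (nat_lit 1)) (.cons (.kr (nat_lit 281474976776192) (nat_lit 18446744078004518912) (nat_lit 2) (nat_lit 0)) (.cons (.br (nat_lit 10) (nat_lit 0) (.cons (.rf (nat_lit 1256) (nat_lit 493858305439541856288)) .nil)) .nil)))),
 (.br (nat_lit 5) (nat_lit 1) (.cons (.ev (nat_lit 20282410812577490039675954397441) (nat_lit 1)) (.cons (.zr (nat_lit 72059793061183747) (nat_lit 40565128697035528675832906121216) (nat_lit 5) (nat_lit 0)) (.cons (.br (nat_lit 6) (nat_lit 1) (.cons (.ev (nat_lit 79228162532711363142230212864) (nat_lit 1)) (.cons (.rf (nat_lit 1258) (nat_lit 491482720200514707680)) .nil))) .nil)))),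
 (.br (nat_lit 8) (nat_lit 0) (.cons (.rf (nat_lit 1240) (nat_lit 13020260605405306112)) (.cons (.rf (nat_lit 1182) (nat_lit 13020260604234079488)) (.cons (.br (nat_lit 9) (nat_lit 0) (.cons (.rf (nat_lit 1258) (nat_lit 493858305440582043680)) (.cons (.rf (nat_lit 1259) (nat_lit 493858305440582043680)) (.cons (.br (nat_lit 11) (nat_lit 0) (.cons (.br (nat_lit 10) (nat_lit 0) (.cons (.br (nat_lit 5) (nat_lit 1) (.cons (.ev (nat_lit 121695700397671179214273736934918) (nat_lit 3)) .nil)) .nil)) (.cons (.rf (nat_lit 1259) (nat_lit 491482720200514707680)) .nil))) .nil)))) .nil)))),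
 (.br (nat_lit 7) (nat_lit 0) (.cons (.rf (nat_lit 1182) (nat_lit 11867374286211752160)) (.cons (.rf (nat_lit 1240) (nat_lit 11867374286211752160)) (.cons (.rf (nat_lit 1182) (nat_lit 11867374284066365664)) (.cons (.br (nat_lit 8) (nat_lit 0) (.cons (.rf (nat_lit 1255) (nat_lit 493858305440582043680)) (.cons (.rf (nat_lit 1257) (nat_lit 493858305440582043680)) (.cons (.rf (nat_lit 1260) (nat_lit 493858305440582043680)) (.cons (.br (nat_lit 8) (nat_lit 0) (.cons (.rf (nat_lit 1255) (nat_lit 493858305440582043680)) (.cons (.rf (nat_lit 1257) (nat_lit 493858305440582043680)) (.cons (.rf (nat_lit 1260) (nat_lit 493858305440582043680)) .nil)))) .nil))))) .nil))))),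
 (.br (nat_lit 4) (nat_lit 1) (.cons (.br (nat_lit 5) (nat_lit 1) (.cons (.br (nat_lit 6) (nat_lit 1) (.cons (.ev (nat_lit 81130257394089865794387475497220) (nat_lit 3)) .nil)) (.cons (.br (nat_lit 6) (nat_lit 1) (.cons (.ev (nat_lit 40565438177341502624486112953090) (nat_lit 2)) .nil)) .nil))) (.cons (.ev (nat_lit 309485028268089142451110144) (nat_lit 1)) (.cons (.br (nat_lit 6) (nat_lit 1) (.cons (.br (nat_lit 5) (nat_lit 1) (.cons (.kr (nat_lit 282574488404224) (nat_lit 18518801672059224064) (nat_lit 1) (nat_lit 0)) .nil)) (.cons (.ev (nat_lit 20282719088661492050495247810561) (nat_lit 1)) .nil))) .nil)))),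
 (.br (nat_lit 4) (nat_lit 1) (.cons (.br (nat_lit 5) (nat_lit 1) (.cons (.rf (nat_lit 1262) (nat_lit 491482720200447664352)) (.cons (.zr (nat_lit 1029966112722690164889514934272) (nat_lit 20282412092338806897349807311361) (nat_lit 30) (nat_lit 5)) .nil))) (.cons (.br (nat_lit 5) (nat_lit 1) (.cons (.br (nat_lit 6) (nat_lit 1) (.cons (.ev (nat_lit 1859346818552319811053356800) (nat_lit 3)) .nil)) (.cons (.br (nat_lit 6) (nat_lit 1) (.cons (.zr (nat_lit 92449893150661870350) (nat_lit 324519172637891102721611560648704) (nat_lit 30) (nat_lit 0)) .nil)) .nil))) (.cons (.ev (nat_lit 1208925891672227507666944) (nat_lit 1)) .nil)))),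
 (.br (nat_lit 6) (nat_lit 1) (.cons (.rf (nat_lit 1263) (nat_lit 492740314145825692928)) (.cons (.rf (nat_lit 1262) (nat_lit 492740314145825692928)) (.cons (.zr (nat_lit 55412289815166649095) (nat_lit 162338814476737449355715272507392) (nat_lit 15) (nat_lit 0)) .nil)))),
 (.br (nat_lit 8) (nat_lit 0) (.cons (.rf (nat_lit 1261) (nat_lit 493823401478318032928)) (.cons (.rf (nat_lit 1261) (nat_lit 490364742516572554304)) (.cons (.rf (nat_lit 1253) (nat_lit 492635606522827808000)) (.cons (.br (nat_lit 7) (nat_lit 0) (.cons (.rf (nat_lit 1240) (nat_lit 11867374286211752160)) (.cons (.rf (nat_lit 1182) (nat_lit 11867374283025162464)) (.cons (.rf (nat_lit 1182) (nat_lit 11867374283999322336)) (.cons (.br (nat_lit 3) (nat_lit 1) (.cons (.rf (nat_lit 1262) (nat_lit 493858305440582043680)) (.cons (.rf (nat_lit 1263) (nat_lit 493858305440582043680)) (.cons (.rf (nat_lit 1264) (nat_lit 493858305440582043680)) (.cons (.br (nat_lit 4) (nat_lit 1) (.cons (.kr (nat_lit 4722366482869645213952) (nat_lit 79228162514264337593544015872)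 (nat_lit 1) (nat_lit 0)) (.cons (.rf (nat_lit 1264) (nat_lit 490364742516572554304)) (.cons (.rf (nat_lit 1263) (nat_lit 490364742516572554304)) .nil)))) .nil))))) .nil))))) .nil))))),
 (.br (nat_lit 7) (nat_lit 0) (.cons (.rf (nat_lit 1240) (nat_lit 11867374286211752160)) (.cons (.rf (nat_lit 1182) (nat_lit 11867374283025162464)) (.cons (.rf (nat_lit 1182) (nat_lit 11867374283999322336)) (.cons (.br (nat_lit 8) (nat_lit 0) (.cons (.rf (nat_lit 1261) (nat_lit 493823401478318032928)) (.cons (.rf (nat_lit 1261) (nat_lit 490364742516572554304)) (.cons (.rf (nat_lit 1253) (nat_lit 491482720202593050848)) (.cons (.rf (nat_lit 1265) (nat_lit 490364742516572554304)) (.cons (.rf (nat_lit 1265) (nat_lit 493858305440582043680)) .nil)))))) .nil))))),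
 (.br (nat_lit 2) (nat_lit 0) (.cons (.rf (nat_lit 1182) (nat_lit 10784300563429426240)) (.cons (.rf (nat_lit 1182) (nat_lit 10784300560242836544)) (.cons (.rf (nat_lit 1240) (nat_lit 10784300562388223040)) (.cons (.br (nat_lit 7) (nat_lit 0) (.cons (.rf (nat_lit 1261) (nat_lit 493858305440582043680)) (.cons (.rf (nat_lit 1261) (nat_lit 490399646478836565056)) (.cons (.rf (nat_lit 1266) (nat_lit 493858305440582043680)) (.cons (.rf (nat_lit 1266) (nat_lit 490399646478836565056)) (.cons (.br (nat_lit 7) (nat_lit 0) (.cons (.rf (nat_lit 1261) (nat_lit 493858305440582043680)) (.cons (.rf (nat_lit 1261) (nat_lit 490399646478836565056)) (.cons (.rf (nat_lit 1266) (nat_lit 493858305440582043680)) (.cons (.rf (nat_lit 1266) (nat_lit 490399646478836565056)) .nil))))) .nil)))))) .nil))))),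
 (.br (nat_lit 10) (nat_lit 0) (.cons (.br (nat_lit 6) (nat_lit 1) (.cons (.ev (nat_lit 20282720302309749925212640509953) (nat_lit 1)) (.cons (.ev (nat_lit 20361637766184381506718311448833) (nat_lit 1)) .nil))) (.cons (.br (nat_lit 4) (nat_lit 1) (.cons (.zr (nat_lit 2166399902156650763334189069) (nat_lit 446213018533891667019072752582912) (nat_lit 35) (nat_lit 0)) (.cons (.br (nat_lit 6) (nat_lit 1) (.cons (.zr (nat_lit 2451037331824463298167296) (nat_lit 81131185839655790954407419772932) (nat_lit 20) (nat_lit 4)) .nil)) .nil))) .nil))),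
 (.br (nat_lit 8) (nat_lit 0) (.cons (.rf (nat_lit 1267) (nat_lit 492635606521853648128)) (.cons (.br (nat_lit 7) (nat_lit 0) (.cons (.rf (nat_lit 1182) (nat_lit 11867374286211752160)) (.cons (.rf (nat_lit 1182) (nat_lit 11867374284066365664)) (.cons (.br (nat_lit 9) (nat_lit 0) (.cons (.rf (nat_lit 1268) (nat_lit 493858305440582043680)) (.cons (.rf (nat_lit 1268) (nat_lit 493858305438436657184)) .nil))) .nil)))) (.cons (.rf (nat_lit 1267) (nat_lit 492635606521786604800)) .nil)))),
 (.br (nat_lit 7) (nat_lit 0) (.cons (.rf (nat_lit 1182) (nat_lit 11867374286211752160)) (.cons (.rf (nat_lit 1240) (nat_lit 11867374286211752160)) (.cons (.rf (nat_lit 1182) (nat_lit 11867374284066365664)) (.cons (.br (nat_lit 8) (nat_lit 0) (.cons (.rf (nat_lit 1267) (nat_lit 491482720202660094176)) (.cons (.rf (nat_lit 1269) (nat_lit 490364742517546714176)) (.cons (.rf (nat_lit 1267) (nat_lit 491482720200514707680)) (.cons (.rf (nat_lit 1269) (nat_lit 493858305440582043680)) .nil))))) .nil))))),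
 (.br (nat_lit 5) (nat_lit 1) (.cons (.br (nat_lit 6) (nat_lit 1) (.cons (.ev (nat_lit 40564821625173499726548376290050) (nat_lit 2)) .nil)) (.cons (.ev (nat_lit 40564821625155124193440489996546) (nat_lit 2)) .nil))),
 (.br (nat_lit 4) (nat_lit 1) (.cons (.rf (nat_lit 1271) (nat_lit 493858305440582043680)) (.cons (.ev (nat_lit 4722438540467978174464) (nat_lit 1)) (.cons (.br (nat_lit 6) (nat_lit 1) (.cons (.ev (nat_lit 4740813508418331541504) (nat_lit 1)) (.cons (.rf (nat_lit 1271) (nat_lit 493823401476172646432)) .nil))) .nil)))),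
 (.br (nat_lit 4) (nat_lit 1) (.cons (.br (nat_lit 5) (nat_lit 1) (.cons (.zr (nat_lit 37037603335495090695) (nat_lit 162259587523149004352375438180352) (nat_lit 15) (nat_lit 0)) (.cons (.rf (nat_lit 1272) (nat_lit 490399646479810724928)) .nil))) (.cons (.rf (nat_lit 1272) (nat_lit 491482720201618890976)) (.cons (.zr (nat_lit 18662916855823401735) (nat_lit 162338506200653447343805040689152) (nat_lit 15) (nat_lit 0)) .nil)))),
 (.br (nat_lit 8) (nat_lit 0) (.cons (.rf (nat_lit 1267) (nat_lit 492635606522894851328)) (.cons (.rf (nat_lit 1253) (nat_lit 492635606521853648128)) (.cons (.rf (nat_lit 1267) (nat_lit 492635606522827808000)) (.cons (.br (nat_lit 7) (nat_lit 0) (.cons (.rf (nat_lit 1182) (nat_lit 11867374286211752160)) (.cons (.rf (nat_lit 1182) (nat_lit 11867374283025162464)) (.cons (.rf (nat_lit 1240) (nat_lit 11867374285170548960)) (.cons (.br (nat_lit 3) (nat_lit 1) (.cons (.rf (nat_lit 1272) (nat_lit 493858305440582043680)) (.cons (.rf (nat_lit 1273) (nat_lit 493858305440582043680))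 (.cons (.rf (nat_lit 1273) (nat_lit 493823401476172646432)) (.cons (.br (nat_lit 4) (nat_lit 1) (.cons (.rf (nat_lit 1273) (nat_lit 491587427825657979104)) (.cons (.zr (nat_lit 18662916855823401735) (nat_lit 162338506200653447343805040689152) (nat_lit 15) (nat_lit 0)) (.cons (.rf (nat_lit 1271) (nat_lit 491482720201618890976)) .nil)))) .nil))))) .nil))))) .nil))))),
 (.br (nat_lit 7) (nat_lit 0) (.cons (.rf (nat_lit 1182) (nat_lit 11867374286211752160)) (.cons (.rf (nat_lit 1182) (nat_lit 11867374283025162464)) (.cons (.rf (nat_lit 1240) (nat_lit 11867374285170548960)) (.cons (.br (nat_lit 8) (nat_lit 0) (.cons (.rf (nat_lit 1267) (nat_lit 491482720201618890976)) (.cons (.rf (nat_lit 1253) (nat_lit 491482720201618890976)) (.cons (.rf (nat_lit 1267) (nat_lit 491482720199473504480)) (.cons (.rf (nat_lit 1274) (nat_lit 493823401476172646432)) (.cons (.rf (nat_lit 1274) (nat_lit 493858305440582043680)) .nil)))))) .nil)))))]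

theorem c41 : chkAll C T R L41 (nat_lit 1250) = true := by decide +kernel

theorem l41 : (nat_lit 1250) + L41.length = (nat_lit 1276) := by decide +kernel

/-- part of the certificates -/
def L42 : List Prf := [(.br (nat_lit 2) (nat_lit 0) (.cons (.rf (nat_lit 1253) (nat_lit 490399646479877768256)) (.cons (.rf (nat_lit 1267) (nat_lit 490399646478836565056)) (.cons (.br (nat_lit 1) (nat_lit 0) (.cons (.rf (nat_lit 1182) (nat_lit 14242959524133701664)) (.cons (.rf (nat_lit 1240) (nat_lit 14242959524133701664)) (.cons (.rf (nat_lit 1182) (nat_lit 14242959521988315168)) (.cons (.br (nat_lit 7) (nat_lit 0) (.cons (.rf (nat_lit 1270) (nat_lit 493858305440582043680)) (.cons (.rf (nat_lit 1275) (nat_lit 493858305440582043680)) (.cons (.rf (nat_lit 1270) (nat_lit 490399646479810724928)) (.cons (.rf (nat_lit 1275) (nat_lit 493858305438436657184)) (.cons (.br (nat_lit 7) (nat_lit 0) (.cons (.rf (nat_lit 1270) (nat_lit 493858305440582043680)) (.cons (.rf (nat_lit 1275) (nat_lit 493858305440582043680))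 (.cons (.rf (nat_lit 1270) (nat_lit 490399646479810724928)) (.cons (.rf (nat_lit 1275) (nat_lit 493858305438436657184)) .nil))))) .nil)))))) .nil))))) (.cons (.rf (nat_lit 1267) (nat_lit 490399646478769521728)) .nil))))),
 (.br (nat_lit 11) (nat_lit 1) (.cons (.br (nat_lit 1) (nat_lit 0) (.cons (.rf (nat_lit 1182) (nat_lit 14242959524133701664)) (.cons (.rf (nat_lit 1240) (nat_lit 14242959524133701664)) (.cons (.rf (nat_lit 1182) (nat_lit 14242959521988315168)) (.cons (.br (nat_lit 2) (nat_lit 0) (.cons (.rf (nat_lit 1276) (nat_lit 490399646479877768256)) (.cons (.rf (nat_lit 1276) (nat_lit 490399646478836565056)) (.cons (.rf (nat_lit 1276) (nat_lit 490399646479810724928)) (.cons (.rf (nat_lit 1276) (nat_lit 490399646478769521728)) (.cons (.rf (nat_lit 1276) (nat_lit 493858305440582043680)) .nil)))))) .nil))))) .nil)),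
 (.br (nat_lit 12) (nat_lit 1) (.cons (.rf (nat_lit 1277) (nat_lit 14242959524133701664)) (.cons (.rf (nat_lit 1277) (nat_lit 14208055561869690912)) .nil))),
 (.br (nat_lit 1) (nat_lit 1) (.cons (.rf (nat_lit 84) (nat_lit 12156373032)) (.cons (.rf (nat_lit 84) (nat_lit 12123708456)) (.cons (.rf (nat_lit 1069) (nat_lit 394800008372256)) (.cons (.br (nat_lit 9) (nat_lit 1) (.cons (.rf (nat_lit 1278) (nat_lit 14242959524133701664)) (.cons (.br (nat_lit 11) (nat_lit 1) (.cons (.rf (nat_lit 1278) (nat_lit 14241868636800261152)) (.cons (.br (nat_lit 10) (nat_lit 1) (.cons (.rf (nat_lit 1278) (nat_lit 14241868636800261152)) .nil)) .nil))) .nil))) .nil))))),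
 (.br (nat_lit 2) (nat_lit 1) (.cons (.rf (nat_lit 688) (nat_lit 8871427015904)) (.cons (.rf (nat_lit 688) (nat_lit 9043225708576)) (.cons (.rf (nat_lit 688) (nat_lit 7978073819168)) (.cons (.br (nat_lit 7) (nat_lit 1) (.cons (.rf (nat_lit 688) (nat_lit 9043225707584)) (.cons (.rf (nat_lit 688) (nat_lit 2480515685408)) (.cons (.rf (nat_lit 1069) (nat_lit 325496416083008)) (.cons (.br (nat_lit 8) (nat_lit 1) (.cons (.rf (nat_lit 688) (nat_lit 7978073818176)) (.cons (.rf (nat_lit 1069) (nat_lit 324396904456256)) (.cons (.rf (nat_lit 1069) (nat_lit 354083718406368)) (.cons (.br (nat_lit 9) (nat_lit 1) (.cons (.rf (nat_lit 1069) (nat_lit 325702574508064)) (.cons (.rf (nat_lit 1279) (nat_lit 407901468851537952)) (.cons (.rf (nat_lit 1279) (nat_lit 372997506587527200)) (.cons (.br (nat_lit 9) (nat_lit 1) (.cons (.rf (nat_lit 1069) (nat_lit 325702574508064)) (.cons (.rf (nat_lit 1279) (nat_lit 407901468851537952)) (.cons (.rf (nat_lit 1279) (nat_lit 372997506587527200)) .nil)))) .nil))))) .nil)))))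 .nil))))) .nil))))),
 (.br (nat_lit 9) (nat_lit 1) (.cons (.rf (nat_lit 82) (nat_lit 13262691362)) (.cons (.rf (nat_lit 84) (nat_lit 12222503970)) (.cons (.br (nat_lit 11) (nat_lit 1) (.cons (.br (nat_lit 13) (nat_lit 1) (.cons (.zr (nat_lit 928455029465161106081186560) (nat_lit 3626777602960179423346689) (nat_lit 5) (nat_lit 3)) (.cons (.zr (nat_lit 14222439680830064492544) (nat_lit 158457533954348572395062689793) (nat_lit 5) (nat_lit 0)) .nil))) (.cons (.br (nat_lit 12) (nat_lit 1) (.cons (.zr (nat_lit 928455029465161106081186560) (nat_lit 3626777602960179423346689) (nat_lit 5) (nat_lit 3)) (.cons (.kr (nat_lit 1208925819614629174706176) (nat_lit 20282409603651670423947251286016) (nat_lit 10) (nat_lit 0)) .nil))) .nil))) .nil)))),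
 (.br (nat_lit 8) (nat_lit 1) (.cons (.zr (nat_lit 1125899906843394) (nat_lit 55484348513027883008) (nat_lit 5) (nat_lit 3)) (.cons (.br (nat_lit 9) (nat_lit 1) (.cons (.ev (nat_lit 309499232333085691883880706) (nat_lit 2)) (.cons (.rf (nat_lit 84) (nat_lit 13262461993)) (.cons (.rf (nat_lit 84) (nat_lit 14336203817)) .nil)))) (.cons (.rf (nat_lit 1281) (nat_lit 493858305440582043680)) (.cons (.rf (nat_lit 1281) (nat_lit 458117738797769787424)) .nil))))),
 (.br (nat_lit 2) (nat_lit 1) (.cons (.ev (nat_lit 1099528470529) (nat_lit 1)) (.cons (.rf (nat_lit 29) (nat_lit 8619298)) (.cons (.rf (nat_lit 1282) (nat_lit 493858305440582043680)) (.cons (.rf (nat_lit 1282) (nat_lit 492741412732994160672)) (.cons (.rf (nat_lit 1282) (nat_lit 455883953382594021408)) .nil)))))),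
 (.br (nat_lit 12) (nat_lit 1) (.cons (.ev (nat_lit 79228167236703160631715495936) (nat_lit 1)) (.cons (.ev (nat_lit 79229371440084234797206995201) (nat_lit 1)) .nil))),
 (.br (nat_lit 8) (nat_lit 1) (.cons (.rf (nat_lit 84) (nat_lit 13262464039)) (.cons (.rf (nat_lit 84) (nat_lit 12222440482)) (.cons (.br (nat_lit 11) (nat_lit 1) (.cons (.rf (nat_lit 1284) (nat_lit 493858305440582043680)) (.cons (.br (nat_lit 11) (nat_lit 1) (.cons (.rf (nat_lit 1284) (nat_lit 493858305440582043680)) .nil)) .nil))) .nil)))),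
 (.br (nat_lit 7) (nat_lit 1) (.cons (.zr (nat_lit 1125899906843394) (nat_lit 55484348513027883008) (nat_lit 5) (nat_lit 3)) (.cons (.br (nat_lit 8) (nat_lit 1) (.cons (.ev (nat_lit 309499232333648641803879170) (nat_lit 2)) (.cons (.rf (nat_lit 82) (nat_lit 13262627874)) (.cons (.rf (nat_lit 82) (nat_lit 14336369698)) .nil)))) (.cons (.rf (nat_lit 1285) (nat_lit 493858305440582043680)) (.cons (.rf (nat_lit 1285) (nat_lit 458117738797769787424)) .nil))))),
 (.br (nat_lit 2) (nat_lit 1) (.cons (.rf (nat_lit 29) (nat_lit 8684770)) (.cons (.ev (nat_lit 1099528470529) (nat_lit 1)) (.cons (.rf (nat_lit 1286) (nat_lit 493858305440582043680)) (.cons (.rf (nat_lit 1286) (nat_lit 492741412732994160672)) (.cons (.rf (nat_lit 1286) (nat_lit 455883953382594021408)) .nil)))))),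
 (.br (nat_lit 9) (nat_lit 1) (.cons (.rf (nat_lit 84) (nat_lit 14238655714)) (.cons (.br (nat_lit 11) (nat_lit 1) (.cons (.ev (nat_lit 79538861172344120329614983168) (nat_lit 1)) (.cons (.zr (nat_lit 3631500185614727359038723) (nat_lit 1237940113072921727337496576) (nat_lit 10) (nat_lit 0)) .nil))) (.cons (.br (nat_lit 11) (nat_lit 1) (.cons (.zr (nat_lit 313111787281033381229430016) (nat_lit 18963252909981032251394) (nat_lit 10) (nat_lit 3)) (.cons (.ev (nat_lit 40565131124368866700245986181635) (nat_lit 2)) .nil))) .nil)))),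
 (.br (nat_lit 12) (nat_lit 1) (.cons (.rf (nat_lit 1288) (nat_lit 492741412732994160672)) (.cons (.ev (nat_lit 310693935640960797427957761) (nat_lit 1)) (.cons (.br (nat_lit 12) (nat_lit 1) (.cons (.zr (nat_lit 3631500185614727359038723) (nat_lit 316912650130844891826614173696) (nat_lit 10) (nat_lit 0)) (.cons (.ev (nat_lit 310693935640960797427957761) (nat_lit 1)) .nil))) .nil)))),
 (.br (nat_lit 11) (nat_lit 1) (.cons (.rf (nat_lit 1288) (nat_lit 493858305440582043680)) (.cons (.ev (nat_lit 310693935640960797427957761) (nat_lit 1)) (.cons (.br (nat_lit 12) (nat_lit 1) (.cons (.rf (nat_lit 1288) (nat_lit 492741412732994160672)) (.cons (.ev (nat_lit 79229371440083953322247127041) (nat_lit 1)) (.cons (.kr (nat_lit 309485009821345068724781056) (nat_lit 79228162514264337593543950336) (nat_lit 11) (nat_lit 0)) .nil)))) .nil)))),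
 (.br (nat_lit 11) (nat_lit 1) (.cons (.rf (nat_lit 1288) (nat_lit 493858305440582043680)) (.cons (.rf (nat_lit 1289) (nat_lit 493858305440582043680)) (.cons (.rf (nat_lit 1290) (nat_lit 493858305440582043680)) (.cons (.br (nat_lit 11) (nat_lit 1) (.cons (.rf (nat_lit 1288) (nat_lit 493858305440582043680)) (.cons (.rf (nat_lit 1289) (nat_lit 493858305440582043680)) (.cons (.rf (nat_lit 1290) (nat_lit 493858305440582043680)) .nil)))) .nil))))),
 (.br (nat_lit 11) (nat_lit 1) (.cons (.rf (nat_lit 84) (nat_lit 14238655559)) (.cons (.zr (nat_lit 2417851639233656395924224) (nat_lit 618970019787086804813873153) (nat_lit 5) (nat_lit 4)) (.cons (.br (nat_lit 13) (nat_lit 1) (.cons (.ev (nat_lit 40565129901294322323487547523331) (nat_lit 2)) (.cons (.ev (nat_lit 20282719088679938514189214089216) (nat_lit 1)) .nil))) .nil)))),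
 (.br (nat_lit 2) (nat_lit 1) (.cons (.ev (nat_lit 1213666705181741055803393) (nat_lit 1)) (.cons (.rf (nat_lit 1292) (nat_lit 493858305440582043680)) (.cons (.rf (nat_lit 1292) (nat_lit 492741412732994160672)) (.cons (.rf (nat_lit 1291) (nat_lit 493858305440582043680)) .nil))))),
 (.br (nat_lit 13) (nat_lit 1) (.cons (.rf (nat_lit 1291) (nat_lit 493858305440582043680)) (.cons (.rf (nat_lit 1293) (nat_lit 493858305440582043680)) (.cons (.kr (nat_lit 1208925819614629174706176) (nat_lit 20282409603651670423947251286016) (nat_lit 10) (nat_lit 0)) .nil)))),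
 (.br (nat_lit 13) (nat_lit 1) (.cons (.rf (nat_lit 1291) (nat_lit 493858305440582043680)) (.cons (.rf (nat_lit 1293) (nat_lit 493858305440582043680)) (.cons (.rf (nat_lit 1294) (nat_lit 493858305440582043680)) (.cons (.rf (nat_lit 1294) (nat_lit 492741412732994160672)) .nil))))),
 (.br (nat_lit 13) (nat_lit 1) (.cons (.rf (nat_lit 1291) (nat_lit 493858305440582043680)) (.cons (.rf (nat_lit 1293) (nat_lit 493858305440582043680)) (.cons (.rf (nat_lit 1295) (nat_lit 493858305440582043680)) (.cons (.br (nat_lit 13) (nat_lit 1) (.cons (.rf (nat_lit 1291) (nat_lit 493858305440582043680)) (.cons (.ev (nat_lit 20282410812577490321150914330881) (nat_lit 1)) (.cons (.kr (nat_lit 1208925819614629174706176) (nat_lit 20282409603651670423947251286016) (nat_lit 10) (nat_lit 0)) .nil)))) .nil))))),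
 (.br (nat_lit 13) (nat_lit 1) (.cons (.rf (nat_lit 1291) (nat_lit 493858305440582043680)) (.cons (.rf (nat_lit 1293) (nat_lit 493858305440582043680)) (.cons (.rf (nat_lit 1295) (nat_lit 493858305440582043680)) (.cons (.rf (nat_lit 1296) (nat_lit 493858305440582043680)) (.cons (.rf (nat_lit 1296) (nat_lit 492741412732994160672)) .nil)))))),
 (.br (nat_lit 8) (nat_lit 1) (.cons (.ev (nat_lit 1099528470529) (nat_lit 1)) (.cons (.rf (nat_lit 1283) (nat_lit 493858305440582043680)) (.cons (.rf (nat_lit 1287) (nat_lit 493858305440582043680)) (.cons (.rf (nat_lit 1297) (nat_lit 493858305440582043680)) (.cons (.rf (nat_lit 1297) (nat_lit 458117738797769787424)) .nil)))))),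
 (.br (nat_lit 8) (nat_lit 1) (.cons (.ev (nat_lit 1099528470529) (nat_lit 1)) (.cons (.rf (nat_lit 1283) (nat_lit 493858305440582043680)) (.cons (.rf (nat_lit 1287) (nat_lit 493858305440582043680)) (.cons (.rf (nat_lit 1298) (nat_lit 493858305440582043680)) (.cons (.rf (nat_lit 1298) (nat_lit 492741412732994160672)) (.cons (.rf (nat_lit 1298) (nat_lit 455883953382594021408)) .nil))))))),
 (.br (nat_lit 11) (nat_lit 1) (.cons (.rf (nat_lit 84) (nat_lit 14238915649)) (.cons (.ev (nat_lit 309489750634853491351224321) (nat_lit 1)) (.cons (.br (nat_lit 7) (nat_lit 1) (.cons (.br (nat_lit 12) (nat_lit 1) (.cons (.ev (nat_lit 20522260509967783953051162969348) (nat_lit 3)) .nil)) (.cons (.ev (nat_lit 310693954160042844918710528) (nat_lit 1)) .nil))) .nil)))),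
 (.br (nat_lit 12) (nat_lit 1) (.cons (.rf (nat_lit 1300) (nat_lit 492741412732994160672)) (.cons (.ev (nat_lit 310693935641242272387825921) (nat_lit 1)) (.cons (.br (nat_lit 12) (nat_lit 1) (.cons (.rf (nat_lit 1300) (nat_lit 492741412732994160672)) (.cons (.ev (nat_lit 310693935641242272387825921) (nat_lit 1)) .nil))) .nil)))),
 (.br (nat_lit 11) (nat_lit 1) (.cons (.ev (nat_lit 309489750634853491351224321) (nat_lit 1)) (.cons (.ev (nat_lit 310693935641242272387825921) (nat_lit 1)) (.cons (.br (nat_lit 12) (nat_lit 1) (.cons (.ev (nat_lit 79228167255077846016170393601) (nat_lit 1)) (.cons (.ev (nat_lit 79229371440084234797206995201) (nat_lit 1)) (.cons (.kr (nat_lit 309485009821345068724781056) (nat_lit 79228162514264337593543950336) (nat_lit 11) (nat_lit 0)) .nil)))) .nil)))),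
 (.br (nat_lit 11) (nat_lit 1) (.cons (.rf (nat_lit 1300) (nat_lit 493858305440582043680)) (.cons (.rf (nat_lit 1301) (nat_lit 493858305440582043680)) (.cons (.rf (nat_lit 1302) (nat_lit 493858305440582043680)) (.cons (.br (nat_lit 11) (nat_lit 1) (.cons (.rf (nat_lit 1300) (nat_lit 493858305440582043680)) (.cons (.rf (nat_lit 1301) (nat_lit 493858305440582043680)) (.cons (.rf (nat_lit 1302) (nat_lit 493858305440582043680)) .nil)))) .nil))))),
 (.br (nat_lit 13) (nat_lit 1) (.cons (.rf (nat_lit 1303) (nat_lit 493858305440582043680)) (.cons (.rf (nat_lit 1303) (nat_lit 493858305232211183840)) (.cons (.ev (nat_lit 20282409617874110952513716027394) (nat_lit 2)) .nil)))),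
 (.br (nat_lit 13) (nat_lit 1) (.cons (.rf (nat_lit 1303) (nat_lit 493858305440582043680)) (.cons (.rf (nat_lit 1303) (nat_lit 493858305232211183840)) (.cons (.rf (nat_lit 1304) (nat_lit 493858305440582043680)) (.cons (.rf (nat_lit 1304) (nat_lit 492741412732994160672)) .nil))))),
 (.br (nat_lit 13) (nat_lit 1) (.cons (.rf (nat_lit 1303) (nat_lit 493858305440582043680)) (.cons (.rf (nat_lit 1305) (nat_lit 493858305440582043680)) (.cons (.rf (nat_lit 1303) (nat_lit 493858305232211183840)) (.cons (.br (nat_lit 13) (nat_lit 1) (.cons (.rf (nat_lit 1303) (nat_lit 493858305440582043680)) (.cons (.ev (nat_lit 20282409617874110952513716027394) (nat_lit 2)) (.cons (.rf (nat_lit 1303) (nat_lit 493858305232211183840)) .nil)))) .nil))))),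
 (.br (nat_lit 13) (nat_lit 1) (.cons (.rf (nat_lit 1303) (nat_lit 493858305440582043680)) (.cons (.rf (nat_lit 1305) (nat_lit 493858305440582043680)) (.cons (.rf (nat_lit 1303) (nat_lit 493858305232211183840)) (.cons (.rf (nat_lit 1306) (nat_lit 493858305440582043680)) (.cons (.rf (nat_lit 1306) (nat_lit 492741412732994160672)) .nil)))))),
 (.br (nat_lit 8) (nat_lit 1) (.cons (.rf (nat_lit 1299) (nat_lit 493858305440582043680)) (.cons (.ev (nat_lit 1099528470529) (nat_lit 1)) (.cons (.rf (nat_lit 1299) (nat_lit 493858305232211183840)) (.cons (.rf (nat_lit 1307) (nat_lit 493858305440582043680)) (.cons (.rf (nat_lit 1307) (nat_lit 458117738797769787424)) .nil))))))]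

theorem c42 : chkAll C T R L42 (nat_lit 1276) = true := by decide +kernel

theorem l42 : (nat_lit 1276) + L42.length = (nat_lit 1309) := by decide +kernel

/-- part of the certificates -/
def L43 : List Prf := [(.br (nat_lit 8) (nat_lit 1) (.cons (.rf (nat_lit 1299) (nat_lit 493858305440582043680)) (.cons (.ev (nat_lit 1099528470529) (nat_lit 1)) (.cons (.rf (nat_lit 1299) (nat_lit 493858305232211183840)) (.cons (.rf (nat_lit 1308) (nat_lit 493858305440582043680)) (.cons (.rf (nat_lit 1308) (nat_lit 492741412732994160672)) (.cons (.rf (nat_lit 1308) (nat_lit 455883953382594021408)) .nil))))))),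
 (.br (nat_lit 11) (nat_lit 1) (.cons (.rf (nat_lit 31) (nat_lit 414489665)) (.cons (.zr (nat_lit 928469196563483815110180864) (nat_lit 1208962713385355393892353) (nat_lit 5) (nat_lit 10)) .nil))),
 (.br (nat_lit 9) (nat_lit 1) (.cons (.ev (nat_lit 311907620864945318627835905) (nat_lit 2)) (.cons (.rf (nat_lit 1310) (nat_lit 493858305440582043680)) (.cons (.rf (nat_lit 1310) (nat_lit 458117738797769787424)) .nil)))),
 (.br (nat_lit 7) (nat_lit 1) (.cons (.zr (nat_lit 4740957342131430687232) (nat_lit 1208925819897207974789121) (nat_lit 5) (nat_lit 0)) (.cons (.rf (nat_lit 1311) (nat_lit 493858305440582043680)) (.cons (.rf (nat_lit 1311) (nat_lit 492741412732994160672)) (.cons (.rf (nat_lit 1311) (nat_lit 455883953382594021408)) .nil))))),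
 (.br (nat_lit 7) (nat_lit 1) (.cons (.ev (nat_lit 310693954160042844918710528) (nat_lit 1)) (.cons (.ev (nat_lit 1213648258156192386253056) (nat_lit 1)) .nil))),
 (.br (nat_lit 12) (nat_lit 1) (.cons (.kr (nat_lit 79537647524157740256306659584) (nat_lit 20282409608392483650890606116864) (nat_lit 1) (nat_lit 0)) .nil)),
 (.br (nat_lit 7) (nat_lit 1) (.cons (.rf (nat_lit 1314) (nat_lit 493858305440582043680)) (.cons (.ev (nat_lit 79229371440084234797206995201) (nat_lit 1)) (.cons (.br (nat_lit 9) (nat_lit 1) (.cons (.zr (nat_lit 928455029465161106081186560) (nat_lit 158457533954492406108161835009) (nat_lit 5) (nat_lit 3)) .nil)) .nil)))),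
 (.br (nat_lit 13) (nat_lit 1) (.cons (.rf (nat_lit 1315) (nat_lit 493858305440582043680)) (.cons (.rf (nat_lit 1315) (nat_lit 493858305232211183840)) (.cons (.br (nat_lit 13) (nat_lit 1) (.cons (.rf (nat_lit 1315) (nat_lit 493858305440582043680)) (.cons (.rf (nat_lit 1315) (nat_lit 493858305232211183840)) (.cons (.ev (nat_lit 79538861190718805714069880833) (nat_lit 1)) .nil)))) (.cons (.br (nat_lit 13) (nat_lit 1) (.cons (.rf (nat_lit 1315) (nat_lit 493858305440582043680)) (.cons (.rf (nat_lit 1315) (nat_lit 493858305232211183840)) (.cons (.ev (nat_lit 79538861190718805714069880833) (nat_lit 1)) .nil)))) .nil))))),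
 (.br (nat_lit 11) (nat_lit 1) (.cons (.ev (nat_lit 310693954087986346097377536) (nat_lit 1)) (.cons (.ev (nat_lit 310693954159761369958711296) (nat_lit 1)) (.cons (.br (nat_lit 1) (nat_lit 1) (.cons (.ev (nat_lit 621387908248310666043196160) (nat_lit 2)) (.cons (.rf (nat_lit 1313) (nat_lit 493858305440582043680)) (.cons (.rf (nat_lit 1313) (nat_lit 458117738797769787424)) .nil)))) (.cons (.rf (nat_lit 1316) (nat_lit 493858305440582043680)) (.cons (.rf (nat_lit 1316) (nat_lit 458117738797769787424)) .nil)))))),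
 (.br (nat_lit 8) (nat_lit 1) (.cons (.rf (nat_lit 1299) (nat_lit 493858305440582043680)) (.cons (.ev (nat_lit 1099528470529) (nat_lit 1)) (.cons (.rf (nat_lit 1299) (nat_lit 493858305232211183840)) (.cons (.rf (nat_lit 1309) (nat_lit 493858305440582043680)) (.cons (.br (nat_lit 2) (nat_lit 1) (.cons (.rf (nat_lit 1312) (nat_lit 493858305440582043680)) (.cons (.rf (nat_lit 1312) (nat_lit 493858305232211183840)) (.cons (.ev (nat_lit 1213666633123051801149441) (nat_lit 1)) (.cons (.rf (nat_lit 1317) (nat_lit 493858305440582043680)) (.cons (.rf (nat_lit 1317) (nat_lit 492741412732994160672)) (.cons (.rf (nat_lit 1317) (nat_lit 455883953382594021408)) .nil))))))) .nil)))))),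
 (.br (nat_lit 8) (nat_lit 1) (.cons (.rf (nat_lit 1299) (nat_lit 493858305440582043680)) (.cons (.ev (nat_lit 1099528470529) (nat_lit 1)) (.cons (.rf (nat_lit 1299) (nat_lit 493858305232211183840)) (.cons (.rf (nat_lit 1309) (nat_lit 493858305440582043680)) (.cons (.rf (nat_lit 1318) (nat_lit 493858305440582043680)) (.cons (.rf (nat_lit 1318) (nat_lit 458117738797769787424)) .nil))))))),
 (.br (nat_lit 9) (nat_lit 0) (.cons (.br (nat_lit 10) (nat_lit 1) (.cons (.br (nat_lit 10) (nat_lit 1) (.cons (.br (nat_lit 10) (nat_lit 1) (.cons (.br (nat_lit 8) (nat_lit 1) (.cons (.rf (nat_lit 1299) (nat_lit 493858305440582043680)) (.cons (.ev (nat_lit 1099528470529) (nat_lit 1)) (.cons (.rf (nat_lit 1299) (nat_lit 493858305232211183840)) (.cons (.rf (nat_lit 1309) (nat_lit 493858305440582043680)) (.cons (.rf (nat_lit 1319) (nat_lit 493858305440582043680)) (.cons (.rf (nat_lit 1319) (nat_lit 492741412732994160672)) (.cons (.rf (nat_lit 1319) (nat_lit 455883953382594021408)) .nil)))))))) .nil)) .nil))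 .nil)) .nil)),
 (.br (nat_lit 9) (nat_lit 0) (.cons (.rf (nat_lit 1320) (nat_lit 325702574508064)) (.cons (.br (nat_lit 9) (nat_lit 0) (.cons (.rf (nat_lit 1320) (nat_lit 325702574508064)) .nil)) .nil))),
 (.br (nat_lit 11) (nat_lit 0) (.cons (.br (nat_lit 12) (nat_lit 1) (.cons (.rf (nat_lit 238) (nat_lit 11590199201073196)) .nil)) .nil)),
 (.br (nat_lit 9) (nat_lit 1) (.cons (.br (nat_lit 9) (nat_lit 1) (.cons (.rf (nat_lit 82) (nat_lit 11048164386)) (.cons (.rf (nat_lit 1322) (nat_lit 407901468851537952)) .nil))) (.cons (.rf (nat_lit 82) (nat_lit 11048164386)) (.cons (.rf (nat_lit 1322) (nat_lit 407901468851537952)) .nil)))),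
 (.br (nat_lit 8) (nat_lit 1) (.cons (.br (nat_lit 10) (nat_lit 1) (.cons (.ev (nat_lit 4740813509522138136833) (nat_lit 1)) (.cons (.rf (nat_lit 84) (nat_lit 11047869483)) (.cons (.rf (nat_lit 1322) (nat_lit 407901468851537952)) .nil)))) (.cons (.rf (nat_lit 1323) (nat_lit 11584701642934304)) (.cons (.rf (nat_lit 58) (nat_lit 8756258)) (.cons (.rf (nat_lit 1322) (nat_lit 407901468851537952)) .nil))))),
 (.br (nat_lit 2) (nat_lit 1) (.cons (.ev (nat_lit 1099528470529) (nat_lit 1)) (.cons (.rf (nat_lit 1324) (nat_lit 11584701642934304)) (.cons (.rf (nat_lit 1324) (nat_lit 10493777737320672)) (.cons (.rf (nat_lit 29) (nat_lit 8619362)) (.cons (.rf (nat_lit 1322) (nat_lit 407901468851537952)) .nil)))))),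
 (.br (nat_lit 9) (nat_lit 1) (.cons (.ev (nat_lit 1213666704899166567465216) (nat_lit 1)) (.cons (.rf (nat_lit 84) (nat_lit 11015334983)) (.cons (.rf (nat_lit 1322) (nat_lit 407901468851537952)) .nil)))),
 (.br (nat_lit 7) (nat_lit 1) (.cons (.ev (nat_lit 4740813509522138136833) (nat_lit 1)) (.cons (.rf (nat_lit 1326) (nat_lit 11584701642934304)) (.cons (.rf (nat_lit 31) (nat_lit 310445415)) (.cons (.rf (nat_lit 1322) (nat_lit 407901468851537952)) .nil))))),
 (.br (nat_lit 9) (nat_lit 1) (.cons (.ev (nat_lit 1213666704899166567465216) (nat_lit 1)) (.cons (.rf (nat_lit 84) (nat_lit 11015335138)) (.cons (.rf (nat_lit 1322) (nat_lit 407901468851537952)) .nil)))),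
 (.br (nat_lit 2) (nat_lit 1) (.cons (.ev (nat_lit 4740813509522138136833) (nat_lit 1)) (.cons (.rf (nat_lit 1328) (nat_lit 11584701642934304)) (.cons (.rf (nat_lit 31) (nat_lit 310609250)) (.cons (.rf (nat_lit 1322) (nat_lit 407901468851537952)) .nil))))),
 (.br (nat_lit 10) (nat_lit 0) (.cons (.rf (nat_lit 238) (nat_lit 10425780919141387)) .nil)),
 (.br (nat_lit 8) (nat_lit 1) (.cons (.ev (nat_lit 1099528470529) (nat_lit 1)) (.cons (.rf (nat_lit 1325) (nat_lit 11584701642934304)) (.cons (.br (nat_lit 9) (nat_lit 1) (.cons (.rf (nat_lit 1327) (nat_lit 11584701642934304)) (.cons (.rf (nat_lit 1329) (nat_lit 11584701642934304)) (.cons (.br (nat_lit 9) (nat_lit 1) (.cons (.rf (nat_lit 1327) (nat_lit 11584701642934304)) (.cons (.rf (nat_lit 1329) (nat_lit 11584701642934304)) (.cons (.rf (nat_lit 1330) (nat_lit 12746920901610561)) (.cons (.rf (nat_lit 1322) (nat_lit 407901468851537952)) .nil))))) (.cons (.rf (nat_lit 1330) (nat_lit 12746920901610561)) (.cons (.rf (nat_lit 1322) (nat_lit 407901468851537952))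 .nil)))))) (.cons (.rf (nat_lit 1330) (nat_lit 12746920901610561)) (.cons (.rf (nat_lit 1322) (nat_lit 407901468851537952)) .nil)))))),
 (.br (nat_lit 10) (nat_lit 0) (.cons (.rf (nat_lit 238) (nat_lit 10425780919141387)) .nil)),
 (.br (nat_lit 8) (nat_lit 1) (.cons (.ev (nat_lit 1099528470529) (nat_lit 1)) (.cons (.rf (nat_lit 1325) (nat_lit 11584701642934304)) (.cons (.rf (nat_lit 1331) (nat_lit 11584701642934304)) (.cons (.br (nat_lit 8) (nat_lit 1) (.cons (.ev (nat_lit 1099528470529) (nat_lit 1)) (.cons (.rf (nat_lit 1325) (nat_lit 11584701642934304)) (.cons (.rf (nat_lit 1331) (nat_lit 11584701642934304)) (.cons (.rf (nat_lit 1330) (nat_lit 12712829529560135)) (.cons (.rf (nat_lit 1322) (nat_lit 407901468851537952)) .nil)))))) (.cons (.rf (nat_lit 1332) (nat_lit 12746920901610561)) (.cons (.rf (nat_lit 1322) (nat_lit 407901468851537952)) .nil))))))),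
 (.br (nat_lit 8) (nat_lit 1) (.cons (.rf (nat_lit 1333) (nat_lit 11584701642934304)) (.cons (.ev (nat_lit 1099528470529) (nat_lit 1)) (.cons (.rf (nat_lit 1333) (nat_lit 10493777737320672)) (.cons (.br (nat_lit 8) (nat_lit 1) (.cons (.rf (nat_lit 1333) (nat_lit 11584701642934304)) (.cons (.ev (nat_lit 1099528470529) (nat_lit 1)) (.cons (.rf (nat_lit 1333) (nat_lit 10493777737320672)) (.cons (.rf (nat_lit 1330) (nat_lit 12746920901610561)) (.cons (.rf (nat_lit 1322) (nat_lit 407901468851537952)) .nil)))))) (.cons (.rf (nat_lit 1330) (nat_lit 12746920901610561)) (.cons (.rf (nat_lit 1322) (nat_lit 407901468851537952)) .nil))))))),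
 (.br (nat_lit 4) (nat_lit 1) (.cons (.rf (nat_lit 1321) (nat_lit 325702574508064)) (.cons (.br (nat_lit 6) (nat_lit 1) (.cons (.rf (nat_lit 1321) (nat_lit 360678575737056)) (.cons (.br (nat_lit 8) (nat_lit 1) (.cons (.rf (nat_lit 1333) (nat_lit 11584701642934304)) (.cons (.ev (nat_lit 1099528470529) (nat_lit 1)) (.cons (.rf (nat_lit 1333) (nat_lit 10493777737320672)) (.cons (.rf (nat_lit 1334) (nat_lit 11584701642934304)) (.cons (.rf (nat_lit 1334) (nat_lit 10493777737320672)) (.cons (.rf (nat_lit 1332) (nat_lit 12746920901610561)) (.cons (.rf (nat_lit 1322) (nat_lit 407901468851537952)) .nil)))))))) .nil))) .nil))),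
 (.br (nat_lit 12) (nat_lit 1) (.cons (.zr (nat_lit 14222439680830064492544) (nat_lit 158765810038350302834612764673) (nat_lit 5) (nat_lit 0)) .nil)),
 (.br (nat_lit 9) (nat_lit 1) (.cons (.rf (nat_lit 82) (nat_lit 13229136930)) (.cons (.rf (nat_lit 84) (nat_lit 11148762146)) (.cons (.br (nat_lit 10) (nat_lit 1) (.cons (.rf (nat_lit 1336) (nat_lit 493858305440582043680)) (.cons (.br (nat_lit 10) (nat_lit 1) (.cons (.rf (nat_lit 1336) (nat_lit 493858305440582043680)) .nil)) .nil))) .nil)))),
 (.br (nat_lit 9) (nat_lit 1) (.cons (.rf (nat_lit 84) (nat_lit 13229136930)) (.cons (.rf (nat_lit 82) (nat_lit 11148762146)) (.cons (.br (nat_lit 10) (nat_lit 1) (.cons (.br (nat_lit 10) (nat_lit 1) (.cons (.ev (nat_lit 1213648258437667346251776) (nat_lit 1)) .nil)) (.cons (.br (nat_lit 10) (nat_lit 1) (.cons (.ev (nat_lit 1213648258437667346251776) (nat_lit 1)) .nil)) .nil))) .nil)))),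
 (.br (nat_lit 5) (nat_lit 1) (.cons (.rf (nat_lit 84) (nat_lit 6681562117)) (.cons (.rf (nat_lit 689) (nat_lit 6681693185)) (.cons (.rf (nat_lit 84) (nat_lit 8829045765)) .nil)))),
 (.br (nat_lit 10) (nat_lit 1) (.cons (.br (nat_lit 12) (nat_lit 1) (.cons (.kr (nat_lit 79229371440156009816756584704) (nat_lit 20282409608392483650890606116864) (nat_lit 1) (nat_lit 0)) .nil)) .nil)),
 (.br (nat_lit 8) (nat_lit 1) (.cons (.rf (nat_lit 58) (nat_lit 8690722)) (.cons (.rf (nat_lit 1338) (nat_lit 14242959524133701664)) (.cons (.rf (nat_lit 1339) (nat_lit 423364892737)) (.cons (.br (nat_lit 9) (nat_lit 1) (.cons (.br (nat_lit 10) (nat_lit 1) (.cons (.rf (nat_lit 1340) (nat_lit 493858305440582043680)) (.cons (.br (nat_lit 12) (nat_lit 1) (.cons (.rf (nat_lit 1340) (nat_lit 493858305440582043680)) (.cons (.zr (nat_lit 14222439680830064492544) (nat_lit 40565128692313162475542027436033) (nat_lit 5) (nat_lit 0)) .nil))) .nil))) (.cons (.rf (nat_lit 82) (nat_lit 14369987618)) (.cons (.rf (nat_lit 84) (nat_lit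 13329800226)) .nil)))) .nil))))),
 (.br (nat_lit 2) (nat_lit 1) (.cons (.ev (nat_lit 1099528470529) (nat_lit 1)) (.cons (.rf (nat_lit 29) (nat_lit 8619298)) (.cons (.br (nat_lit 8) (nat_lit 1) (.cons (.rf (nat_lit 58) (nat_lit 8690722)) (.cons (.br (nat_lit 9) (nat_lit 1) (.cons (.ev (nat_lit 1223148331355252333805826) (nat_lit 2)) (.cons (.rf (nat_lit 84) (nat_lit 13228907561)) (.cons (.rf (nat_lit 84) (nat_lit 14302649385)) .nil)))) (.cons (.rf (nat_lit 1337) (nat_lit 493858305440582043680)) (.cons (.rf (nat_lit 1337) (nat_lit 458117738797769787424)) .nil))))) (.cons (.rf (nat_lit 1341) (nat_lit 493858305440582043680)) (.cons (.rf (nat_lit 1341) (nat_lit 458117738797769787424)) .nil)))))),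
 (.br (nat_lit 3) (nat_lit 1) (.cons (.rf (nat_lit 689) (nat_lit 7687180289)) (.cons (.rf (nat_lit 82) (nat_lit 7687180289)) (.cons (.rf (nat_lit 82) (nat_lit 8760922113)) .nil)))),
 (.br (nat_lit 12) (nat_lit 1) (.cons (.ev (nat_lit 79537647524085965236757070081) (nat_lit 1)) .nil)),
 (.br (nat_lit 8) (nat_lit 1) (.cons (.rf (nat_lit 84) (nat_lit 13228909607)) (.cons (.rf (nat_lit 84) (nat_lit 11148698658)) (.cons (.br (nat_lit 10) (nat_lit 1) (.cons (.rf (nat_lit 1344) (nat_lit 493858305440582043680)) (.cons (.br (nat_lit 10) (nat_lit 1) (.cons (.rf (nat_lit 1344) (nat_lit 493858305440582043680)) .nil)) .nil))) .nil)))),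
 (.br (nat_lit 7) (nat_lit 1) (.cons (.rf (nat_lit 58) (nat_lit 8690722)) (.cons (.rf (nat_lit 1343) (nat_lit 424473271361)) (.cons (.rf (nat_lit 1345) (nat_lit 493858305440582043680)) (.cons (.rf (nat_lit 1345) (nat_lit 458117738797769787424)) .nil))))),
 (.br (nat_lit 12) (nat_lit 1) (.cons (.rf (nat_lit 82) (nat_lit 11018738753)) (.cons (.rf (nat_lit 1339) (nat_lit 423297849409)) (.cons (.br (nat_lit 7) (nat_lit 1) (.cons (.rf (nat_lit 58) (nat_lit 8690722)) (.cons (.br (nat_lit 8) (nat_lit 1) (.cons (.ev (nat_lit 80159044858691992208120348675) (nat_lit 2)) (.cons (.br (nat_lit 10) (nat_lit 1) (.cons (.ev (nat_lit 20363495918336448223077793727748) (nat_lit 3)) .nil)) .nil))) (.cons (.br (nat_lit 13) (nat_lit 1) (.cons (.rf (nat_lit 84) (nat_lit 13329736738)) (.cons (.ev (nat_lit 20282719088661492051590464405761) (nat_lit 1)) .nil))) .nil)))) .nil)))),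
 (.br (nat_lit 12) (nat_lit 1) (.cons (.rf (nat_lit 1343) (nat_lit 458900118593)) (.cons (.rf (nat_lit 1339) (nat_lit 423297849409)) (.cons (.rf (nat_lit 1347) (nat_lit 493858305440582043680)) (.cons (.br (nat_lit 12) (nat_lit 1) (.cons (.rf (nat_lit 82) (nat_lit 14239964225)) (.cons (.ev (nat_lit 79537647542532427835506753536) (nat_lit 1)) (.cons (.rf (nat_lit 1347) (nat_lit 493858305440582043680)) .nil)))) .nil))))),
 (.br (nat_lit 2) (nat_lit 1) (.cons (.rf (nat_lit 29) (nat_lit 8684770)) (.cons (.ev (nat_lit 1099528470529) (nat_lit 1)) (.cons (.rf (nat_lit 1346) (nat_lit 493858305440582043680)) (.cons (.rf (nat_lit 1348) (nat_lit 493858305440582043680)) (.cons (.rf (nat_lit 1348) (nat_lit 458117738797769787424)) .nil)))))),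
 (.br (nat_lit 9) (nat_lit 1) (.cons (.rf (nat_lit 84) (nat_lit 14237607138)) (.cons (.br (nat_lit 10) (nat_lit 1) (.cons (.ev (nat_lit 79538861172344120329614983168) (nat_lit 1)) (.cons (.br (nat_lit 12) (nat_lit 1) (.cons (.ev (nat_lit 79229376162450716571652325633) (nat_lit 1)) .nil)) .nil))) (.cons (.br (nat_lit 10) (nat_lit 1) (.cons (.br (nat_lit 12) (nat_lit 1) (.cons (.zr (nat_lit 618970074983487507554894592) (nat_lit 158459951805987519091808665601) (nat_lit 5) (nat_lit 0)) .nil)) (.cons (.ev (nat_lit 20284578444924849392514364343297) (nat_lit 3)) .nil))) .nil))))]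

theorem c43 : chkAll C T R L43 (nat_lit 1309) = true := by decide +kernel

theorem l43 : (nat_lit 1309) + L43.length = (nat_lit 1351) := by decide +kernel

/-- part of the certificates -/
def L44 : List Prf := [(.br (nat_lit 12) (nat_lit 1) (.cons (.kr (nat_lit 20282410812577562096170463920384) (nat_lit 79228167255077564536898781184) (nat_lit 1) (nat_lit 0)) .nil)),
 (.br (nat_lit 10) (nat_lit 1) (.cons (.rf (nat_lit 84) (nat_lit 14237607138)) (.cons (.ev (nat_lit 310698658007442571839733761) (nat_lit 1)) (.cons (.br (nat_lit 7) (nat_lit 1) (.cons (.rf (nat_lit 1351) (nat_lit 493858305440582043680)) (.cons (.ev (nat_lit 1213648258156192386253056) (nat_lit 1)) .nil))) .nil)))),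
 (.br (nat_lit 10) (nat_lit 1) (.cons (.rf (nat_lit 1350) (nat_lit 493858305440582043680)) (.cons (.ev (nat_lit 310698658007442571839733761) (nat_lit 1)) (.cons (.br (nat_lit 7) (nat_lit 1) (.cons (.br (nat_lit 12) (nat_lit 1) (.cons (.zr (nat_lit 14222439680830064492544) (nat_lit 158765810038350302834612764673) (nat_lit 5) (nat_lit 0)) .nil)) (.cons (.br (nat_lit 9) (nat_lit 1) (.cons (.zr (nat_lit 80156617543729217224698823936) (nat_lit 18963252909981032251394) (nat_lit 10) (nat_lit 3)) .nil)) (.cons (.br (nat_lit 9) (nat_lit 1) (.cons (.ev (nat_lit 20361646252313917900631191258368) (nat_lit 3)) .nil)) .nil)))) .nil)))),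
 (.br (nat_lit 10) (nat_lit 1) (.cons (.rf (nat_lit 1350) (nat_lit 493858305440582043680)) (.cons (.rf (nat_lit 1352) (nat_lit 493858305440582043680)) (.cons (.rf (nat_lit 1353) (nat_lit 493858305440582043680)) (.cons (.br (nat_lit 10) (nat_lit 1) (.cons (.rf (nat_lit 1350) (nat_lit 493858305440582043680)) (.cons (.rf (nat_lit 1352) (nat_lit 493858305440582043680)) (.cons (.rf (nat_lit 1353) (nat_lit 493858305440582043680)) .nil)))) .nil))))),
 (.br (nat_lit 13) (nat_lit 1) (.cons (.rf (nat_lit 58) (nat_lit 13933633)) (.cons (.br (nat_lit 2) (nat_lit 1) (.cons (.rf (nat_lit 84) (nat_lit 8939185377)) (.cons (.br (nat_lit 10) (nat_lit 1) (.cons (.ev (nat_lit 21316105323455750741260736070922) (nat_lit 4)) .nil)) .nil))) (.cons (.kr (nat_lit 309485009821345068724781056) (nat_lit 20282409603651670423947251286016) (nat_lit 11) (nat_lit 0)) .nil)))),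
 (.br (nat_lit 13) (nat_lit 1) (.cons (.rf (nat_lit 1354) (nat_lit 493858305440582043680)) (.cons (.rf (nat_lit 1355) (nat_lit 493858305440582043680)) (.cons (.br (nat_lit 13) (nat_lit 1) (.cons (.rf (nat_lit 1354) (nat_lit 493858305440582043680)) (.cons (.rf (nat_lit 1355) (nat_lit 493858305440582043680)) (.cons (.ev (nat_lit 20282719088661492051590464405761) (nat_lit 1)) .nil)))) (.cons (.br (nat_lit 13) (nat_lit 1) (.cons (.rf (nat_lit 1354) (nat_lit 493858305440582043680)) (.cons (.kr (nat_lit 309485009821345068724781056) (nat_lit 20282409603651670423947251286016) (nat_lit 11) (nat_lit 0)) (.cons (.ev (nat_lit 20282719088661492051590464405761) (nat_lit 1)) .nil)))) .nil))))),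
 (.br (nat_lit 10) (nat_lit 1) (.cons (.kr (nat_lit 20282410812577562096170463920384) (nat_lit 79228167255077564536898781184) (nat_lit 1) (nat_lit 0)) .nil)),
 (.br (nat_lit 7) (nat_lit 1) (.cons (.kr (nat_lit 20282410812577562096170463920384) (nat_lit 79228167255077564536898781184) (nat_lit 1) (nat_lit 0)) .nil)),
 (.br (nat_lit 13) (nat_lit 1) (.cons (.rf (nat_lit 1354) (nat_lit 493858305440582043680)) (.cons (.rf (nat_lit 1356) (nat_lit 493858305440582043680)) (.cons (.br (nat_lit 2) (nat_lit 1) (.cons (.rf (nat_lit 1357) (nat_lit 493858305440582043680)) (.cons (.rf (nat_lit 1358) (nat_lit 493858305440582043680)) (.cons (.ev (nat_lit 80156617599068888694863757571) (nat_lit 2)) .nil)))) .nil)))),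
 (.br (nat_lit 13) (nat_lit 1) (.cons (.rf (nat_lit 1354) (nat_lit 493858305440582043680)) (.cons (.rf (nat_lit 1356) (nat_lit 493858305440582043680)) (.cons (.rf (nat_lit 1359) (nat_lit 493858305440582043680)) (.cons (.br (nat_lit 13) (nat_lit 1) (.cons (.rf (nat_lit 1354) (nat_lit 493858305440582043680)) (.cons (.kr (nat_lit 309485009821345068724781056) (nat_lit 20282409603651670423947251286016) (nat_lit 11) (nat_lit 0)) (.cons (.rf (nat_lit 1359) (nat_lit 493858305440582043680)) .nil)))) .nil))))),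
 (.br (nat_lit 13) (nat_lit 1) (.cons (.rf (nat_lit 1354) (nat_lit 493858305440582043680)) (.cons (.rf (nat_lit 1356) (nat_lit 493858305440582043680)) (.cons (.rf (nat_lit 1360) (nat_lit 493858305440582043680)) (.cons (.br (nat_lit 13) (nat_lit 1) (.cons (.rf (nat_lit 1354) (nat_lit 493858305440582043680)) (.cons (.ev (nat_lit 20282719088661492051590464405761) (nat_lit 1)) (.cons (.rf (nat_lit 1360) (nat_lit 493858305440582043680)) .nil)))) .nil))))),
 (.br (nat_lit 13) (nat_lit 1) (.cons (.rf (nat_lit 1354) (nat_lit 493858305440582043680)) (.cons (.rf (nat_lit 1356) (nat_lit 493858305440582043680)) (.cons (.rf (nat_lit 1360) (nat_lit 493858305440582043680)) (.cons (.rf (nat_lit 1361) (nat_lit 493858305440582043680)) (.cons (.br (nat_lit 13) (nat_lit 1) (.cons (.rf (nat_lit 1354) (nat_lit 493858305440582043680)) (.cons (.rf (nat_lit 1356) (nat_lit 493858305440582043680)) (.cons (.rf (nat_lit 1360) (nat_lit 493858305440582043680)) (.cons (.rf (nat_lit 1361) (nat_lit 493858305440582043680)) .nil)))))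 .nil)))))),
 (.br (nat_lit 8) (nat_lit 1) (.cons (.ev (nat_lit 1099528470529) (nat_lit 1)) (.cons (.rf (nat_lit 1342) (nat_lit 493858305440582043680)) (.cons (.rf (nat_lit 1349) (nat_lit 493858305440582043680)) (.cons (.rf (nat_lit 1362) (nat_lit 493858305440582043680)) (.cons (.rf (nat_lit 1362) (nat_lit 458117738797769787424)) .nil)))))),
 (.br (nat_lit 10) (nat_lit 1) (.cons (.ev (nat_lit 310698676454468120542707968) (nat_lit 1)) (.cons (.ev (nat_lit 1213666705181741055803393) (nat_lit 1)) .nil))),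
 (.br (nat_lit 9) (nat_lit 1) (.cons (.ev (nat_lit 310698713492356238139326465) (nat_lit 2)) (.cons (.rf (nat_lit 1364) (nat_lit 493858305440582043680)) (.cons (.rf (nat_lit 1364) (nat_lit 458117738797769787424)) .nil)))),
 (.br (nat_lit 12) (nat_lit 1) (.cons (.rf (nat_lit 84) (nat_lit 9003312193)) (.cons (.zr (nat_lit 80156617543729217224698823936) (nat_lit 18963252909981032251394) (nat_lit 10) (nat_lit 3)) .nil))),
 (.br (nat_lit 7) (nat_lit 1) (.cons (.ev (nat_lit 310698713492356238139326465) (nat_lit 2)) (.cons (.rf (nat_lit 1366) (nat_lit 493858305440582043680)) (.cons (.rf (nat_lit 1366) (nat_lit 458117738797769787424)) .nil)))),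
 (.br (nat_lit 9) (nat_lit 1) (.cons (.kr (nat_lit 20282410812577562096170463920384) (nat_lit 79228167255077564536898781184) (nat_lit 1) (nat_lit 0)) .nil)),
 (.br (nat_lit 10) (nat_lit 1) (.cons (.rf (nat_lit 1365) (nat_lit 493858305440582043680)) (.cons (.rf (nat_lit 1367) (nat_lit 493858305440582043680)) (.cons (.br (nat_lit 7) (nat_lit 1) (.cons (.kr (nat_lit 1208925891672223212634368) (nat_lit 4740813226943354830848) (nat_lit 1) (nat_lit 0)) (.cons (.rf (nat_lit 1368) (nat_lit 493858305440582043680)) (.cons (.rf (nat_lit 1368) (nat_lit 458117738797769787424)) .nil)))) .nil)))),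
 (.br (nat_lit 10) (nat_lit 1) (.cons (.rf (nat_lit 1365) (nat_lit 493858305440582043680)) (.cons (.rf (nat_lit 1367) (nat_lit 493858305440582043680)) (.cons (.rf (nat_lit 1369) (nat_lit 493858305440582043680)) (.cons (.rf (nat_lit 1369) (nat_lit 458117738797769787424)) .nil))))),
 (.br (nat_lit 10) (nat_lit 1) (.cons (.ev (nat_lit 79537647579570311555090416385) (nat_lit 2)) (.cons (.br (nat_lit 12) (nat_lit 1) (.cons (.ev (nat_lit 20680413385207318659059207702276) (nat_lit 3)) .nil)) .nil))),
 (.br (nat_lit 2) (nat_lit 1) (.cons (.ev (nat_lit 310698713492356238139326465) (nat_lit 2)) (.cons (.rf (nat_lit 1371) (nat_lit 493858305440582043680)) (.cons (.rf (nat_lit 1371) (nat_lit 458117738797769787424)) .nil)))),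
 (.br (nat_lit 10) (nat_lit 1) (.cons (.rf (nat_lit 1370) (nat_lit 493858305440582043680)) (.cons (.rf (nat_lit 1372) (nat_lit 493858305440582043680)) (.cons (.br (nat_lit 12) (nat_lit 1) (.cons (.ev (nat_lit 79537647579570311555090416385) (nat_lit 2)) (.cons (.ev (nat_lit 80157840636719777305883312641) (nat_lit 2)) (.cons (.kr (nat_lit 79228162514264337593543950336) (nat_lit 20282409603651670423947251286016) (nat_lit 12) (nat_lit 0)) .nil)))) .nil)))),
 (.br (nat_lit 10) (nat_lit 1) (.cons (.rf (nat_lit 1370) (nat_lit 493858305440582043680)) (.cons (.rf (nat_lit 1372) (nat_lit 493858305440582043680)) (.cons (.rf (nat_lit 1373) (nat_lit 493858305440582043680)) (.cons (.rf (nat_lit 1373) (nat_lit 458117738797769787424)) .nil))))),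
 (.br (nat_lit 7) (nat_lit 1) (.cons (.kr (nat_lit 79229371440156009816756584704) (nat_lit 20282409608392483650890606116864) (nat_lit 1) (nat_lit 0)) .nil)),
 (.br (nat_lit 10) (nat_lit 1) (.cons (.rf (nat_lit 1370) (nat_lit 493858305440582043680)) (.cons (.rf (nat_lit 1374) (nat_lit 493858305440582043680)) (.cons (.br (nat_lit 2) (nat_lit 1) (.cons (.kr (nat_lit 1208925891672223212634368) (nat_lit 4740813226943354830848) (nat_lit 1) (nat_lit 0)) (.cons (.rf (nat_lit 1375) (nat_lit 493858305440582043680)) (.cons (.rf (nat_lit 1375) (nat_lit 458117738797769787424)) .nil)))) .nil)))),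
 (.br (nat_lit 10) (nat_lit 1) (.cons (.rf (nat_lit 1370) (nat_lit 493858305440582043680)) (.cons (.rf (nat_lit 1374) (nat_lit 493858305440582043680)) (.cons (.rf (nat_lit 1376) (nat_lit 493858305440582043680)) (.cons (.rf (nat_lit 1376) (nat_lit 458117738797769787424)) .nil))))),
 (.br (nat_lit 10) (nat_lit 1) (.cons (.rf (nat_lit 1370) (nat_lit 493858305440582043680)) (.cons (.rf (nat_lit 1374) (nat_lit 493858305440582043680)) (.cons (.rf (nat_lit 1377) (nat_lit 493858305440582043680)) (.cons (.br (nat_lit 10) (nat_lit 1) (.cons (.rf (nat_lit 1370) (nat_lit 493858305440582043680)) (.cons (.rf (nat_lit 1374) (nat_lit 493858305440582043680)) (.cons (.rf (nat_lit 1377) (nat_lit 493858305440582043680)) .nil)))) .nil))))),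
 (.br (nat_lit 8) (nat_lit 1) (.cons (.ev (nat_lit 1099528470529) (nat_lit 1)) (.cons (.rf (nat_lit 1342) (nat_lit 493858305440582043680)) (.cons (.rf (nat_lit 1349) (nat_lit 493858305440582043680)) (.cons (.rf (nat_lit 1363) (nat_lit 493858305440582043680)) (.cons (.br (nat_lit 10) (nat_lit 1) (.cons (.rf (nat_lit 1370) (nat_lit 493858305440582043680)) (.cons (.rf (nat_lit 1374) (nat_lit 493858305440582043680)) (.cons (.rf (nat_lit 1377) (nat_lit 493858305440582043680)) (.cons (.rf (nat_lit 1378) (nat_lit 493858305440582043680)) (.cons (.rf (nat_lit 1378) (nat_lit 458117738797769787424)) .nil)))))) .nil)))))),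
 (.br (nat_lit 8) (nat_lit 1) (.cons (.ev (nat_lit 1099528470529) (nat_lit 1)) (.cons (.rf (nat_lit 1342) (nat_lit 493858305440582043680)) (.cons (.rf (nat_lit 1349) (nat_lit 493858305440582043680)) (.cons (.rf (nat_lit 1363) (nat_lit 493858305440582043680)) (.cons (.rf (nat_lit 1379) (nat_lit 493858305440582043680)) (.cons (.rf (nat_lit 1379) (nat_lit 458117738797769787424)) .nil))))))),
 (.br (nat_lit 12) (nat_lit 1) (.cons (.ev (nat_lit 79228176736704866160008691714) (nat_lit 2)) .nil)),
 (.br (nat_lit 8) (nat_lit 1) (.cons (.rf (nat_lit 84) (nat_lit 13228877026)) (.cons (.rf (nat_lit 84) (nat_lit 11148535009)) (.cons (.br (nat_lit 10) (nat_lit 1) (.cons (.rf (nat_lit 1381) (nat_lit 493858305440582043680)) (.cons (.br (nat_lit 10) (nat_lit 1) (.cons (.rf (nat_lit 1381) (nat_lit 493858305440582043680)) .nil)) .nil))) .nil)))),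
 (.br (nat_lit 12) (nat_lit 1) (.cons (.rf (nat_lit 82) (nat_lit 11018733607)) (.cons (.rf (nat_lit 1339) (nat_lit 423130077223)) (.cons (.br (nat_lit 2) (nat_lit 1) (.cons (.ev (nat_lit 1099528470529) (nat_lit 1)) (.cons (.br (nat_lit 8) (nat_lit 1) (.cons (.rf (nat_lit 84) (nat_lit 13228909793)) (.cons (.br (nat_lit 10) (nat_lit 1) (.cons (.ev (nat_lit 20838250740216204644108846040836) (nat_lit 3)) .nil)) .nil))) (.cons (.br (nat_lit 8) (nat_lit 1) (.cons (.br (nat_lit 10) (nat_lit 1) (.cons (.ev (nat_lit 20364738703598255394610847092492) (nat_lit 4)) .nil)) (.cons (.rf (nat_lit 84) (nat_lit 13329573089)) .nil))) .nil)))) .nil)))),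
 (.br (nat_lit 12) (nat_lit 1) (.cons (.rf (nat_lit 1343) (nat_lit 458900113447)) (.cons (.rf (nat_lit 1339) (nat_lit 423130077223)) (.cons (.rf (nat_lit 1383) (nat_lit 493858305440582043680)) (.cons (.br (nat_lit 12) (nat_lit 1) (.cons (.rf (nat_lit 82) (nat_lit 14239959079)) (.cons (.ev (nat_lit 79537652246524224225463500801) (nat_lit 1)) (.cons (.rf (nat_lit 1383) (nat_lit 493858305440582043680)) .nil)))) .nil))))),
 (.br (nat_lit 1) (nat_lit 1) (.cons (.rf (nat_lit 29) (nat_lit 8690753)) (.cons (.rf (nat_lit 58) (nat_lit 8690722)) (.cons (.br (nat_lit 2) (nat_lit 1) (.cons (.ev (nat_lit 1099528470529) (nat_lit 1)) (.cons (.rf (nat_lit 1343) (nat_lit 424473266215)) (.cons (.rf (nat_lit 1382) (nat_lit 14242959524133701664)) (.cons (.rf (nat_lit 1382) (nat_lit 15395881028740548640)) .nil))))) (.cons (.rf (nat_lit 1384) (nat_lit 493858305440582043680)) (.cons (.rf (nat_lit 1384) (nat_lit 458117738797769787424)) .nil)))))),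
 (.br (nat_lit 12) (nat_lit 1) (.cons (.ev (nat_lit 79229371458602753894777880576) (nat_lit 1)) .nil))]

theorem c44 : chkAll C T R L44 (nat_lit 1351) = true := by decide +kernel

theorem l44 : (nat_lit 1351) + L44.length = (nat_lit 1387) := by decide +kernel

/-- part of the certificates -/
def L45 : List Prf := [(.br (nat_lit 9) (nat_lit 1) (.cons (.rf (nat_lit 84) (nat_lit 14237803585)) (.cons (.br (nat_lit 10) (nat_lit 1) (.cons (.ev (nat_lit 79538856468352042464664682753) (nat_lit 1)) (.cons (.rf (nat_lit 1386) (nat_lit 493858305440582043680)) .nil))) (.cons (.br (nat_lit 13) (nat_lit 1) (.cons (.ev (nat_lit 20282409608374037188296168177664) (nat_lit 1)) (.cons (.ev (nat_lit 20282719093383930592054164390145) (nat_lit 1)) .nil))) .nil)))),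
 (.br (nat_lit 10) (nat_lit 1) (.cons (.rf (nat_lit 84) (nat_lit 14237803585)) (.cons (.br (nat_lit 13) (nat_lit 1) (.cons (.ev (nat_lit 310698658007442571839733761) (nat_lit 1)) (.cons (.br (nat_lit 2) (nat_lit 1) (.cons (.ev (nat_lit 310698658007442571839733761) (nat_lit 1)) .nil)) .nil))) (.cons (.ev (nat_lit 1213648258156192386253056) (nat_lit 1)) .nil)))),
 (.br (nat_lit 9) (nat_lit 1) (.cons (.ev (nat_lit 1213648258437667346251776) (nat_lit 1)) .nil)),
 (.br (nat_lit 10) (nat_lit 1) (.cons (.rf (nat_lit 1387) (nat_lit 493858305440582043680)) (.cons (.rf (nat_lit 1388) (nat_lit 493858305440582043680)) (.cons (.br (nat_lit 2) (nat_lit 1) (.cons (.br (nat_lit 12) (nat_lit 1) (.cons (.ev (nat_lit 20997326025894438835084543068936) (nat_lit 4)) .nil)) (.cons (.ev (nat_lit 79538856468352323939658104833) (nat_lit 1)) (.cons (.rf (nat_lit 1389) (nat_lit 493858305440582043680)) .nil)))) .nil)))),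
 (.br (nat_lit 10) (nat_lit 1) (.cons (.rf (nat_lit 1387) (nat_lit 493858305440582043680)) (.cons (.rf (nat_lit 1388) (nat_lit 493858305440582043680)) (.cons (.rf (nat_lit 1390) (nat_lit 493858305440582043680)) (.cons (.br (nat_lit 10) (nat_lit 1) (.cons (.rf (nat_lit 1387) (nat_lit 493858305440582043680)) (.cons (.ev (nat_lit 1213648258156192386253056) (nat_lit 1)) (.cons (.rf (nat_lit 1390) (nat_lit 493858305440582043680)) .nil)))) .nil))))),
 (.br (nat_lit 13) (nat_lit 1) (.cons (.rf (nat_lit 58) (nat_lit 13928487)) (.cons (.br (nat_lit 1) (nat_lit 1) (.cons (.ev (nat_lit 20282719093402377336127873941760) (nat_lit 1)) (.cons (.zr (nat_lit 81129947899617007444016045753088) (nat_lit 9518519943146525360131) (nat_lit 10) (nat_lit 11)) .nil))) (.cons (.ev (nat_lit 20282409608392483932369877729281) (nat_lit 1)) .nil)))),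
 (.br (nat_lit 13) (nat_lit 1) (.cons (.rf (nat_lit 1391) (nat_lit 493858305440582043680)) (.cons (.rf (nat_lit 1392) (nat_lit 493858305440582043680)) (.cons (.br (nat_lit 12) (nat_lit 1) (.cons (.zr (nat_lit 81129947899617007444016045752576) (nat_lit 158456325102315654784756154369) (nat_lit 10) (nat_lit 11)) (.cons (.ev (nat_lit 20282719093402377054652880388096) (nat_lit 1)) (.cons (.br (nat_lit 1) (nat_lit 1) (.cons (.zr (nat_lit 14222439680830064492544) (nat_lit 158765810038350302834612764673) (nat_lit 5) (nat_lit 0)) .nil)) .nil)))) .nil)))),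
 (.br (nat_lit 13) (nat_lit 1) (.cons (.rf (nat_lit 1391) (nat_lit 493858305440582043680)) (.cons (.rf (nat_lit 1392) (nat_lit 493858305440582043680)) (.cons (.rf (nat_lit 1393) (nat_lit 493858305440582043680)) (.cons (.br (nat_lit 13) (nat_lit 1) (.cons (.rf (nat_lit 1391) (nat_lit 493858305440582043680)) (.cons (.ev (nat_lit 20282409608392483932369877729281) (nat_lit 1)) (.cons (.rf (nat_lit 1393) (nat_lit 493858305440582043680)) .nil)))) .nil))))),
 (.br (nat_lit 10) (nat_lit 1) (.cons (.kr (nat_lit 20282410812577562096170463920384) (nat_lit 79228167255077564536898781184) (nat_lit 1) (nat_lit 0)) .nil)),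
 (.br (nat_lit 13) (nat_lit 1) (.cons (.ev (nat_lit 20282409608374037188296168177664) (nat_lit 1)) (.cons (.rf (nat_lit 1394) (nat_lit 493858305440582043680)) (.cons (.br (nat_lit 1) (nat_lit 1) (.cons (.rf (nat_lit 1395) (nat_lit 493858305440582043680)) (.cons (.br (nat_lit 2) (nat_lit 1) (.cons (.ev (nat_lit 20837012800140313447493559058690) (nat_lit 3)) .nil)) (.cons (.br (nat_lit 2) (nat_lit 1) (.cons (.zr (nat_lit 237684501765232693610763452416) (nat_lit 315529638919700793381618945) (nat_lit 5) (nat_lit 11)) .nil)) .nil)))) .nil)))),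
 (.br (nat_lit 13) (nat_lit 1) (.cons (.rf (nat_lit 1391) (nat_lit 493858305440582043680)) (.cons (.rf (nat_lit 1394) (nat_lit 493858305440582043680)) (.cons (.rf (nat_lit 1396) (nat_lit 493858305440582043680)) (.cons (.br (nat_lit 13) (nat_lit 1) (.cons (.rf (nat_lit 1391) (nat_lit 493858305440582043680)) (.cons (.ev (nat_lit 20282409608392483932369877729281) (nat_lit 1)) (.cons (.rf (nat_lit 1396) (nat_lit 493858305440582043680)) .nil)))) .nil))))),
 (.br (nat_lit 13) (nat_lit 1) (.cons (.rf (nat_lit 1391) (nat_lit 493858305440582043680)) (.cons (.rf (nat_lit 1394) (nat_lit 493858305440582043680)) (.cons (.rf (nat_lit 1397) (nat_lit 493858305440582043680)) (.cons (.br (nat_lit 13) (nat_lit 1) (.cons (.rf (nat_lit 1391) (nat_lit 493858305440582043680)) (.cons (.rf (nat_lit 1394) (nat_lit 493858305440582043680)) (.cons (.rf (nat_lit 1397) (nat_lit 493858305440582043680)) .nil)))) .nil))))),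
 (.br (nat_lit 13) (nat_lit 1) (.cons (.rf (nat_lit 1391) (nat_lit 493858305440582043680)) (.cons (.rf (nat_lit 1394) (nat_lit 493858305440582043680)) (.cons (.rf (nat_lit 1397) (nat_lit 493858305440582043680)) (.cons (.rf (nat_lit 1398) (nat_lit 493858305440582043680)) (.cons (.br (nat_lit 13) (nat_lit 1) (.cons (.rf (nat_lit 1391) (nat_lit 493858305440582043680)) (.cons (.rf (nat_lit 1394) (nat_lit 493858305440582043680)) (.cons (.rf (nat_lit 1397) (nat_lit 493858305440582043680)) (.cons (.rf (nat_lit 1398) (nat_lit 493858305440582043680)) .nil))))) .nil)))))),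
 (.br (nat_lit 8) (nat_lit 1) (.cons (.rf (nat_lit 1380) (nat_lit 493858305440582043680)) (.cons (.ev (nat_lit 1099528470529) (nat_lit 1)) (.cons (.rf (nat_lit 1385) (nat_lit 493858305440582043680)) (.cons (.rf (nat_lit 1399) (nat_lit 493858305440582043680)) (.cons (.rf (nat_lit 1399) (nat_lit 458117738797769787424)) .nil)))))),
 (.br (nat_lit 10) (nat_lit 1) (.cons (.ev (nat_lit 158769451038392942740260455169) (nat_lit 2)) (.cons (.br (nat_lit 12) (nat_lit 1) (.cons (.ev (nat_lit 20679175454539122824847816982788) (nat_lit 3)) .nil)) .nil))),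
 (.br (nat_lit 9) (nat_lit 1) (.cons (.ev (nat_lit 310708158080643839400477185) (nat_lit 2)) (.cons (.rf (nat_lit 1401) (nat_lit 493858305440582043680)) (.cons (.rf (nat_lit 1401) (nat_lit 458117738797769787424)) .nil)))),
 (.br (nat_lit 10) (nat_lit 1) (.cons (.ev (nat_lit 80156631729347188225395065345) (nat_lit 2)) (.cons (.br (nat_lit 12) (nat_lit 1) (.cons (.ev (nat_lit 20679175454539122824847816982788) (nat_lit 3)) .nil)) .nil))),
 (.br (nat_lit 2) (nat_lit 1) (.cons (.ev (nat_lit 310708158080643839400477185) (nat_lit 2)) (.cons (.rf (nat_lit 1403) (nat_lit 493858305440582043680)) (.cons (.rf (nat_lit 1403) (nat_lit 458117738797769787424)) .nil)))),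
 (.br (nat_lit 10) (nat_lit 1) (.cons (.rf (nat_lit 1402) (nat_lit 493858305440582043680)) (.cons (.rf (nat_lit 1404) (nat_lit 493858305440582043680)) (.cons (.br (nat_lit 12) (nat_lit 1) (.cons (.br (nat_lit 9) (nat_lit 1) (.cons (.ev (nat_lit 20679175454539121698947842770180) (nat_lit 3)) .nil)) (.cons (.br (nat_lit 2) (nat_lit 1) (.cons (.ev (nat_lit 20679170600020452515623553270020) (nat_lit 3)) .nil)) (.cons (.kr (nat_lit 79228162514264337593543950336) (nat_lit 20282409603651670423947251286016) (nat_lit 12) (nat_lit 0)) .nil)))) .nil)))),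
 (.br (nat_lit 10) (nat_lit 1) (.cons (.rf (nat_lit 1402) (nat_lit 493858305440582043680)) (.cons (.rf (nat_lit 1404) (nat_lit 493858305440582043680)) (.cons (.rf (nat_lit 1405) (nat_lit 493858305440582043680)) (.cons (.rf (nat_lit 1405) (nat_lit 458117738797769787424)) .nil))))),
 (.br (nat_lit 12) (nat_lit 1) (.cons (.rf (nat_lit 84) (nat_lit 9003115591)) (.cons (.zr (nat_lit 80156622266455143639603544064) (nat_lit 73787541452404817922) (nat_lit 10) (nat_lit 11)) .nil))),
 (.br (nat_lit 1) (nat_lit 1) (.cons (.ev (nat_lit 310708158080643839400477185) (nat_lit 2)) (.cons (.rf (nat_lit 1407) (nat_lit 493858305440582043680)) (.cons (.rf (nat_lit 1407) (nat_lit 458117738797769787424)) .nil)))),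
 (.br (nat_lit 9) (nat_lit 1) (.cons (.kr (nat_lit 20282410812577562096170463920384) (nat_lit 79228167255077564536898781184) (nat_lit 1) (nat_lit 0)) .nil)),
 (.br (nat_lit 1) (nat_lit 1) (.cons (.kr (nat_lit 1208925891672223212634368) (nat_lit 4740813226943354830848) (nat_lit 1) (nat_lit 0)) (.cons (.rf (nat_lit 1409) (nat_lit 493858305440582043680)) (.cons (.rf (nat_lit 1409) (nat_lit 458117738797769787424)) .nil)))),
 (.br (nat_lit 10) (nat_lit 1) (.cons (.rf (nat_lit 1406) (nat_lit 493858305440582043680)) (.cons (.rf (nat_lit 1408) (nat_lit 493858305440582043680)) (.cons (.rf (nat_lit 1410) (nat_lit 493858305440582043680)) .nil)))),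
 (.br (nat_lit 10) (nat_lit 1) (.cons (.rf (nat_lit 1406) (nat_lit 493858305440582043680)) (.cons (.rf (nat_lit 1408) (nat_lit 493858305440582043680)) (.cons (.rf (nat_lit 1411) (nat_lit 493858305440582043680)) (.cons (.rf (nat_lit 1411) (nat_lit 458117738797769787424)) .nil))))),
 (.br (nat_lit 2) (nat_lit 1) (.cons (.kr (nat_lit 20282410812577562096170463920384) (nat_lit 79228167255077564536898781184) (nat_lit 1) (nat_lit 0)) .nil)),
 (.br (nat_lit 10) (nat_lit 1) (.cons (.rf (nat_lit 1406) (nat_lit 493858305440582043680)) (.cons (.rf (nat_lit 1412) (nat_lit 493858305440582043680)) (.cons (.br (nat_lit 1) (nat_lit 1) (.cons (.kr (nat_lit 1208925891672223212634368) (nat_lit 4740813226943354830848) (nat_lit 1) (nat_lit 0)) (.cons (.rf (nat_lit 1413) (nat_lit 493858305440582043680)) (.cons (.rf (nat_lit 1413) (nat_lit 458117738797769787424)) .nil)))) .nil)))),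
 (.br (nat_lit 10) (nat_lit 1) (.cons (.rf (nat_lit 1406) (nat_lit 493858305440582043680)) (.cons (.rf (nat_lit 1412) (nat_lit 493858305440582043680)) (.cons (.rf (nat_lit 1414) (nat_lit 493858305440582043680)) (.cons (.rf (nat_lit 1414) (nat_lit 458117738797769787424)) .nil))))),
 (.br (nat_lit 10) (nat_lit 1) (.cons (.rf (nat_lit 1406) (nat_lit 493858305440582043680)) (.cons (.rf (nat_lit 1412) (nat_lit 493858305440582043680)) (.cons (.rf (nat_lit 1415) (nat_lit 493858305440582043680)) (.cons (.br (nat_lit 10) (nat_lit 1) (.cons (.rf (nat_lit 1406) (nat_lit 493858305440582043680)) (.cons (.rf (nat_lit 1410) (nat_lit 493858305440582043680)) (.cons (.rf (nat_lit 1415) (nat_lit 493858305440582043680)) .nil)))) .nil))))),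
 (.br (nat_lit 8) (nat_lit 1) (.cons (.rf (nat_lit 1380) (nat_lit 493858305440582043680)) (.cons (.ev (nat_lit 1099528470529) (nat_lit 1)) (.cons (.rf (nat_lit 1385) (nat_lit 493858305440582043680)) (.cons (.rf (nat_lit 1400) (nat_lit 493858305440582043680)) (.cons (.br (nat_lit 10) (nat_lit 1) (.cons (.rf (nat_lit 1406) (nat_lit 493858305440582043680)) (.cons (.rf (nat_lit 1412) (nat_lit 493858305440582043680)) (.cons (.rf (nat_lit 1415) (nat_lit 493858305440582043680)) (.cons (.rf (nat_lit 1416) (nat_lit 493858305440582043680)) (.cons (.rf (nat_lit 1416) (nat_lit 458117738797769787424)) .nil)))))) .nil)))))),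
 (.br (nat_lit 8) (nat_lit 1) (.cons (.rf (nat_lit 1380) (nat_lit 493858305440582043680)) (.cons (.ev (nat_lit 1099528470529) (nat_lit 1)) (.cons (.rf (nat_lit 1385) (nat_lit 493858305440582043680)) (.cons (.rf (nat_lit 1400) (nat_lit 493858305440582043680)) (.cons (.rf (nat_lit 1417) (nat_lit 493858305440582043680)) (.cons (.rf (nat_lit 1417) (nat_lit 458117738797769787424)) .nil))))))),
 (.br (nat_lit 12) (nat_lit 1) (.cons (.br (nat_lit 11) (nat_lit 1) (.cons (.ev (nat_lit 79229371458530977775699886081) (nat_lit 1)) .nil)) (.cons (.br (nat_lit 9) (nat_lit 1) (.cons (.ev (nat_lit 79229371458530977775699886081) (nat_lit 1)) .nil)) .nil))),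
 (.br (nat_lit 13) (nat_lit 1) (.cons (.rf (nat_lit 84) (nat_lit 13167270946)) (.cons (.rf (nat_lit 1338) (nat_lit 14242965021691840544)) (.cons (.rf (nat_lit 84) (nat_lit 9006292009)) .nil)))),
 (.br (nat_lit 7) (nat_lit 1) (.cons (.rf (nat_lit 1419) (nat_lit 15433072045018187808)) (.cons (.ev (nat_lit 80156622321651544346606043395) (nat_lit 2)) (.cons (.rf (nat_lit 1420) (nat_lit 493858305440582043680)) .nil)))),
 (.br (nat_lit 2) (nat_lit 1) (.cons (.ev (nat_lit 79229376162450435096658903041) (nat_lit 1)) .nil)),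
 (.br (nat_lit 12) (nat_lit 1) (.cons (.rf (nat_lit 1421) (nat_lit 493858305440582043680)) (.cons (.ev (nat_lit 309485009893402667057676544) (nat_lit 1)) (.cons (.br (nat_lit 7) (nat_lit 1) (.cons (.br (nat_lit 10) (nat_lit 1) (.cons (.ev (nat_lit 79229376162450435096658903041) (nat_lit 1)) .nil)) (.cons (.rf (nat_lit 1422) (nat_lit 493858305440582043680)) (.cons (.zr (nat_lit 55556405003275993088) (nat_lit 158765810038350302834595987457) (nat_lit 5) (nat_lit 0)) .nil)))) .nil))))]

theorem c45 : chkAll C T R L45 (nat_lit 1387) = true := by decide +kernel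

theorem l45 : (nat_lit 1387) + L45.length = (nat_lit 1424) := by decide +kernel

/-- part of the certificates -/
def L46 : List Prf := [(.br (nat_lit 12) (nat_lit 1) (.cons (.rf (nat_lit 1421) (nat_lit 493858305440582043680)) (.cons (.ev (nat_lit 309485009893402667057676544) (nat_lit 1)) (.cons (.rf (nat_lit 1423) (nat_lit 493858305440582043680)) (.cons (.br (nat_lit 12) (nat_lit 1) (.cons (.rf (nat_lit 1421) (nat_lit 493858305440582043680)) (.cons (.ev (nat_lit 309485009893402667057676544) (nat_lit 1)) (.cons (.rf (nat_lit 1423) (nat_lit 493858305440582043680)) .nil)))) .nil))))),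
 (.br (nat_lit 1) (nat_lit 1) (.cons (.br (nat_lit 10) (nat_lit 1) (.cons (.br (nat_lit 12) (nat_lit 1) (.cons (.zr (nat_lit 55556405003275993088) (nat_lit 158765810038350302834595987457) (nat_lit 5) (nat_lit 0)) .nil)) (.cons (.ev (nat_lit 20282719093402377336127873941760) (nat_lit 1)) .nil))) (.cons (.ev (nat_lit 309485009893402667057676544) (nat_lit 1)) (.cons (.rf (nat_lit 58) (nat_lit 13862953)) .nil)))),
 (.br (nat_lit 13) (nat_lit 1) (.cons (.rf (nat_lit 1424) (nat_lit 493858305440582043680)) (.cons (.rf (nat_lit 1425) (nat_lit 493858305440582043680)) (.cons (.br (nat_lit 1) (nat_lit 1) (.cons (.br (nat_lit 10) (nat_lit 1) (.cons (.ev (nat_lit 79537647524085965236757070081) (nat_lit 1)) .nil)) (.cons (.br (nat_lit 7) (nat_lit 1) (.cons (.ev (nat_lit 79537647524085965236757070081) (nat_lit 1)) .nil)) (.cons (.ev (nat_lit 79228167236630820467500974336) (nat_lit 1)) .nil)))) .nil)))),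
 (.br (nat_lit 13) (nat_lit 1) (.cons (.rf (nat_lit 1424) (nat_lit 493858305440582043680)) (.cons (.rf (nat_lit 1425) (nat_lit 493858305440582043680)) (.cons (.rf (nat_lit 1426) (nat_lit 493858305440582043680)) (.cons (.br (nat_lit 13) (nat_lit 1) (.cons (.rf (nat_lit 1424) (nat_lit 493858305440582043680)) (.cons (.rf (nat_lit 1425) (nat_lit 493858305440582043680)) (.cons (.rf (nat_lit 1426) (nat_lit 493858305440582043680)) .nil)))) .nil))))),
 (.br (nat_lit 13) (nat_lit 1) (.cons (.rf (nat_lit 1424) (nat_lit 493858305440582043680)) (.cons (.rf (nat_lit 1427) (nat_lit 493858305440582043680)) (.cons (.br (nat_lit 12) (nat_lit 1) (.cons (.ev (nat_lit 309485009893402667057676544) (nat_lit 1)) (.cons (.ev (nat_lit 20282409603651742763020577734656) (nat_lit 1)) (.cons (.zr (nat_lit 55556405003275993088) (nat_lit 158765810038350302834595987457) (nat_lit 5) (nat_lit 0)) .nil)))) .nil)))),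
 (.br (nat_lit 13) (nat_lit 1) (.cons (.rf (nat_lit 1424) (nat_lit 493858305440582043680)) (.cons (.rf (nat_lit 1427) (nat_lit 493858305440582043680)) (.cons (.rf (nat_lit 1428) (nat_lit 493858305440582043680)) (.cons (.br (nat_lit 13) (nat_lit 1) (.cons (.rf (nat_lit 1424) (nat_lit 493858305440582043680)) (.cons (.rf (nat_lit 1427) (nat_lit 493858305440582043680)) (.cons (.rf (nat_lit 1428) (nat_lit 493858305440582043680)) .nil)))) .nil))))),
 (.br (nat_lit 13) (nat_lit 1) (.cons (.rf (nat_lit 1424) (nat_lit 493858305440582043680)) (.cons (.rf (nat_lit 1427) (nat_lit 493858305440582043680)) (.cons (.rf (nat_lit 1429) (nat_lit 493858305440582043680)) (.cons (.br (nat_lit 13) (nat_lit 1) (.cons (.rf (nat_lit 1424) (nat_lit 493858305440582043680)) (.cons (.rf (nat_lit 1427) (nat_lit 493858305440582043680)) (.cons (.rf (nat_lit 1429) (nat_lit 493858305440582043680)) .nil)))) .nil))))),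
 (.br (nat_lit 13) (nat_lit 1) (.cons (.rf (nat_lit 1424) (nat_lit 493858305440582043680)) (.cons (.rf (nat_lit 1427) (nat_lit 493858305440582043680)) (.cons (.rf (nat_lit 1429) (nat_lit 493858305440582043680)) (.cons (.rf (nat_lit 1430) (nat_lit 493858305440582043680)) (.cons (.br (nat_lit 13) (nat_lit 1) (.cons (.rf (nat_lit 1424) (nat_lit 493858305440582043680)) (.cons (.rf (nat_lit 1427) (nat_lit 493858305440582043680)) (.cons (.rf (nat_lit 1429) (nat_lit 493858305440582043680)) (.cons (.rf (nat_lit 1430) (nat_lit 493858305440582043680)) .nil))))) .nil)))))),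
 (.br (nat_lit 8) (nat_lit 1) (.cons (.rf (nat_lit 1380) (nat_lit 493858305440582043680)) (.cons (.ev (nat_lit 1099528470529) (nat_lit 1)) (.cons (.rf (nat_lit 1418) (nat_lit 493858305440582043680)) (.cons (.rf (nat_lit 1431) (nat_lit 493858305440582043680)) (.cons (.rf (nat_lit 1431) (nat_lit 458117738797769787424)) .nil)))))),
 (.br (nat_lit 12) (nat_lit 1) (.cons (.rf (nat_lit 84) (nat_lit 9003305001)) (.cons (.ev (nat_lit 79537647524085965236757070081) (nat_lit 1)) .nil))),
 (.br (nat_lit 7) (nat_lit 1) (.cons (.ev (nat_lit 310698676454186645549285376) (nat_lit 1)) (.cons (.rf (nat_lit 1433) (nat_lit 493858305440582043680)) (.cons (.rf (nat_lit 1433) (nat_lit 458117738797769787424)) .nil)))),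
 (.br (nat_lit 10) (nat_lit 1) (.cons (.ev (nat_lit 1208925819615728686399744) (nat_lit 1)) (.cons (.br (nat_lit 12) (nat_lit 1) (.cons (.zr (nat_lit 3640944558292496476733440) (nat_lit 158765810038350302834595987969) (nat_lit 5) (nat_lit 6)) .nil)) .nil))),
 (.br (nat_lit 2) (nat_lit 1) (.cons (.ev (nat_lit 310698676454186645549285376) (nat_lit 1)) (.cons (.rf (nat_lit 1435) (nat_lit 493858305440582043680)) (.cons (.rf (nat_lit 1435) (nat_lit 458117738797769787424)) .nil)))),
 (.br (nat_lit 10) (nat_lit 1) (.cons (.rf (nat_lit 1434) (nat_lit 493858305440582043680)) (.cons (.rf (nat_lit 1436) (nat_lit 493858305440582043680)) (.cons (.br (nat_lit 12) (nat_lit 1) (.cons (.ev (nat_lit 79848346200540714832293462785) (nat_lit 2)) (.cons (.ev (nat_lit 79230580403014075517776167425) (nat_lit 2)) (.cons (.kr (nat_lit 79228162514264337593543950336) (nat_lit 20282409603651670423947251286016) (nat_lit 12) (nat_lit 0)) .nil)))) .nil)))),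
 (.br (nat_lit 10) (nat_lit 1) (.cons (.rf (nat_lit 1434) (nat_lit 493858305440582043680)) (.cons (.rf (nat_lit 1436) (nat_lit 493858305440582043680)) (.cons (.rf (nat_lit 1437) (nat_lit 493858305440582043680)) (.cons (.rf (nat_lit 1437) (nat_lit 458117738797769787424)) .nil))))),
 (.br (nat_lit 7) (nat_lit 1) (.cons (.br (nat_lit 10) (nat_lit 1) (.cons (.ev (nat_lit 79228167236630820467500974336) (nat_lit 1)) (.cons (.br (nat_lit 12) (nat_lit 1) (.cons (.kr (nat_lit 79229376162450435092363936000) (nat_lit 20282409603670189225615032320000) (nat_lit 1) (nat_lit 0)) .nil)) .nil))) (.cons (.rf (nat_lit 84) (nat_lit 11018738722)) (.cons (.ev (nat_lit 309485009893402667057676544) (nat_lit 1)) .nil)))),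
 (.br (nat_lit 1) (nat_lit 1) (.cons (.ev (nat_lit 4722438823038188323073) (nat_lit 1)) (.cons (.rf (nat_lit 1438) (nat_lit 493858305440582043680)) (.cons (.rf (nat_lit 1439) (nat_lit 493858305440582043680)) (.cons (.rf (nat_lit 1439) (nat_lit 458117738797769787424)) .nil))))),
 (.br (nat_lit 2) (nat_lit 1) (.cons (.ev (nat_lit 20679796851855425942583750231296) (nat_lit 3)) .nil)),
 (.br (nat_lit 10) (nat_lit 1) (.cons (.rf (nat_lit 1438) (nat_lit 493858305440582043680)) (.cons (.rf (nat_lit 1440) (nat_lit 493858305440582043680)) (.cons (.br (nat_lit 1) (nat_lit 1) (.cons (.kr (nat_lit 1213648186097498819985664) (nat_lit 18518801667781033984) (nat_lit 1) (nat_lit 0)) (.cons (.rf (nat_lit 1441) (nat_lit 493858305440582043680)) (.cons (.rf (nat_lit 1441) (nat_lit 458117738797769787424)) .nil)))) .nil)))),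
 (.br (nat_lit 10) (nat_lit 1) (.cons (.rf (nat_lit 1438) (nat_lit 493858305440582043680)) (.cons (.rf (nat_lit 1440) (nat_lit 493858305440582043680)) (.cons (.rf (nat_lit 1442) (nat_lit 493858305440582043680)) (.cons (.rf (nat_lit 1442) (nat_lit 458117738797769787424)) .nil))))),
 (.br (nat_lit 10) (nat_lit 1) (.cons (.rf (nat_lit 1438) (nat_lit 493858305440582043680)) (.cons (.rf (nat_lit 1440) (nat_lit 493858305440582043680)) (.cons (.rf (nat_lit 1443) (nat_lit 493858305440582043680)) (.cons (.br (nat_lit 10) (nat_lit 1) (.cons (.rf (nat_lit 1438) (nat_lit 493858305440582043680)) (.cons (.ev (nat_lit 1208944266641277389373441) (nat_lit 1)) (.cons (.rf (nat_lit 1443) (nat_lit 493858305440582043680)) .nil)))) .nil))))),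
 (.br (nat_lit 8) (nat_lit 1) (.cons (.rf (nat_lit 1380) (nat_lit 493858305440582043680)) (.cons (.ev (nat_lit 1099528470529) (nat_lit 1)) (.cons (.rf (nat_lit 1418) (nat_lit 493858305440582043680)) (.cons (.rf (nat_lit 1432) (nat_lit 493858305440582043680)) (.cons (.br (nat_lit 10) (nat_lit 1) (.cons (.rf (nat_lit 1438) (nat_lit 493858305440582043680)) (.cons (.rf (nat_lit 1440) (nat_lit 493858305440582043680)) (.cons (.rf (nat_lit 1443) (nat_lit 493858305440582043680)) (.cons (.rf (nat_lit 1444) (nat_lit 493858305440582043680)) (.cons (.rf (nat_lit 1444) (nat_lit 458117738797769787424)) .nil)))))) .nil)))))),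
 (.br (nat_lit 8) (nat_lit 1) (.cons (.rf (nat_lit 1380) (nat_lit 493858305440582043680)) (.cons (.ev (nat_lit 1099528470529) (nat_lit 1)) (.cons (.rf (nat_lit 1418) (nat_lit 493858305440582043680)) (.cons (.rf (nat_lit 1432) (nat_lit 493858305440582043680)) (.cons (.rf (nat_lit 1445) (nat_lit 493858305440582043680)) (.cons (.rf (nat_lit 1445) (nat_lit 458117738797769787424)) .nil))))))),
 (.br (nat_lit 12) (nat_lit 1) (.cons (.ev (nat_lit 79849555144807073535160942595) (nat_lit 2)) (.cons (.zr (nat_lit 237684487543009185562779189248) (nat_lit 309485046715115794927190017) (nat_lit 5) (nat_lit 11)) .nil))),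
 (.br (nat_lit 9) (nat_lit 1) (.cons (.br (nat_lit 12) (nat_lit 1) (.cons (.ev (nat_lit 79849550422512648259570368515) (nat_lit 2)) (.cons (.zr (nat_lit 237684501709892461389567688704) (nat_lit 309485046715115794943967233) (nat_lit 5) (nat_lit 11)) .nil))) (.cons (.rf (nat_lit 29) (nat_lit 12885057)) (.cons (.br (nat_lit 10) (nat_lit 1) (.cons (.zr (nat_lit 237684501709892461389567688704) (nat_lit 309485046715115794943967233) (nat_lit 5) (nat_lit 11)) (.cons (.zr (nat_lit 60847228810955227444623901196288) (nat_lit 309485046715115794927190017) (nat_lit 5) (nat_lit 11)) .nil))) .nil)))),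
 (.br (nat_lit 12) (nat_lit 1) (.cons (.ev (nat_lit 79537652264971249774166606080) (nat_lit 1)) (.cons (.ev (nat_lit 79537647524085683761797201921) (nat_lit 1)) .nil))),
 (.br (nat_lit 9) (nat_lit 1) (.cons (.br (nat_lit 12) (nat_lit 1) (.cons (.ev (nat_lit 79849564589683310037613674755) (nat_lit 2)) (.cons (.zr (nat_lit 237684501709892461389567688704) (nat_lit 309485046715115794943967233) (nat_lit 5) (nat_lit 11)) .nil))) (.cons (.rf (nat_lit 29) (nat_lit 12879074)) (.cons (.br (nat_lit 12) (nat_lit 1) (.cons (.zr (nat_lit 237684501709892461389567688704) (nat_lit 309485046715115794943967233) (nat_lit 5) (nat_lit 11)) (.cons (.ev (nat_lit 20361947255898122589483477041408) (nat_lit 1)) .nil))) .nil)))),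
 (.br (nat_lit 7) (nat_lit 1) (.cons (.br (nat_lit 12) (nat_lit 1) (.cons (.zr (nat_lit 237688128487351305277091808000) (nat_lit 309485102055348016122953729) (nat_lit 5) (nat_lit 11)) .nil)) (.cons (.zr (nat_lit 237684501709892461389567688704) (nat_lit 309485046715115794943967233) (nat_lit 5) (nat_lit 11)) (.cons (.ev (nat_lit 309485009893402667057676544) (nat_lit 1)) .nil)))),
 (.br (nat_lit 13) (nat_lit 1) (.cons (.ev (nat_lit 309485009893402667057676544) (nat_lit 1)) (.cons (.rf (nat_lit 1451) (nat_lit 493858305440582043680)) (.cons (.kr (nat_lit 1208925819614629174706432) (nat_lit 18446744073726328832) (nat_lit 1) (nat_lit 0)) (.cons (.br (nat_lit 13) (nat_lit 1) (.cons (.ev (nat_lit 309485009893402667057676544) (nat_lit 1)) (.cons (.rf (nat_lit 1451) (nat_lit 493858305440582043680)) (.cons (.kr (nat_lit 1208925819614629174706432) (nat_lit 18446744073726328832) (nat_lit 1) (nat_lit 0)) .nil)))) .nil))))),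
 (.br (nat_lit 1) (nat_lit 1) (.cons (.br (nat_lit 12) (nat_lit 1) (.cons (.ev (nat_lit 310693954159761369958711296) (nat_lit 1)) (.cons (.zr (nat_lit 237684501709892461389567688704) (nat_lit 309485046715115794943967233) (nat_lit 5) (nat_lit 11)) .nil))) (.cons (.br (nat_lit 12) (nat_lit 1) (.cons (.rf (nat_lit 82) (nat_lit 9003370535)) (.cons (.ev (nat_lit 79537647524085965236757070081) (nat_lit 1)) .nil))) (.cons (.rf (nat_lit 1452) (nat_lit 493858305440582043680)) (.cons (.ev (nat_lit 309485009893402667057676544) (nat_lit 1)) .nil))))),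
 (.br (nat_lit 1) (nat_lit 1) (.cons (.br (nat_lit 12) (nat_lit 1) (.cons (.ev (nat_lit 79538861190790864403324534785) (nat_lit 1)) .nil)) (.cons (.ev (nat_lit 79847137293167844276845085185) (nat_lit 2)) (.cons (.rf (nat_lit 1452) (nat_lit 458117738797769787424)) .nil)))),
 (.br (nat_lit 13) (nat_lit 1) (.cons (.rf (nat_lit 1452) (nat_lit 458117738797769787424)) (.cons (.rf (nat_lit 1453) (nat_lit 458117738797769787424)) (.cons (.rf (nat_lit 1454) (nat_lit 493858305440582043680)) (.cons (.br (nat_lit 13) (nat_lit 1) (.cons (.rf (nat_lit 1452) (nat_lit 458117738797769787424)) (.cons (.rf (nat_lit 1453) (nat_lit 458117738797769787424)) (.cons (.rf (nat_lit 1454) (nat_lit 493858305440582043680)) .nil)))) .nil))))),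
 (.br (nat_lit 13) (nat_lit 1) (.cons (.kr (nat_lit 1208925819614629174706432) (nat_lit 18446744073726328832) (nat_lit 1) (nat_lit 0)) (.cons (.rf (nat_lit 1453) (nat_lit 458117738797769787424)) (.cons (.rf (nat_lit 1455) (nat_lit 458117738797769787424)) (.cons (.br (nat_lit 7) (nat_lit 1) (.cons (.ev (nat_lit 79537647524085965236757070081) (nat_lit 1)) (.cons (.zr (nat_lit 55556405003275993088) (nat_lit 158765810038350302834595987457) (nat_lit 5) (nat_lit 0)) (.cons (.rf (nat_lit 1453) (nat_lit 458117738797769787424)) .nil)))) .nil))))),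
 (.br (nat_lit 11) (nat_lit 1) (.cons (.ev (nat_lit 79229371458530977775699886081) (nat_lit 1)) .nil)),
 (.br (nat_lit 7) (nat_lit 1) (.cons (.br (nat_lit 12) (nat_lit 1) (.cons (.zr (nat_lit 3640944558292496476733440) (nat_lit 158765810038350302834595987969) (nat_lit 5) (nat_lit 6)) .nil)) (.cons (.br (nat_lit 10) (nat_lit 1) (.cons (.zr (nat_lit 79228167328864544143190262016) (nat_lit 623805722921711604102070274) (nat_lit 10) (nat_lit 4)) .nil)) (.cons (.ev (nat_lit 20282719088661491770115504537601) (nat_lit 1)) .nil))))]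

theorem c46 : chkAll C T R L46 (nat_lit 1424) = true := by decide +kernel

theorem l46 : (nat_lit 1424) + L46.length = (nat_lit 1459) := by decide +kernel

/-- part of the certificates -/
def L47 : List Prf := [(.br (nat_lit 9) (nat_lit 1) (.cons (.br (nat_lit 12) (nat_lit 1) (.cons (.zr (nat_lit 3640944558292496476733440) (nat_lit 158765810038350302834595987969) (nat_lit 5) (nat_lit 6)) .nil)) (.cons (.ev (nat_lit 79848346200540714832293462785) (nat_lit 2)) (.cons (.rf (nat_lit 1458) (nat_lit 493858305440582043680)) .nil)))),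
 (.br (nat_lit 1) (nat_lit 1) (.cons (.br (nat_lit 9) (nat_lit 1) (.cons (.br (nat_lit 13) (nat_lit 1) (.cons (.ev (nat_lit 310698658007442571839733761) (nat_lit 1)) (.cons (.zr (nat_lit 79228162532927539235763781632) (nat_lit 618979464375655876773544450) (nat_lit 10) (nat_lit 5)) .nil))) (.cons (.rf (nat_lit 29) (nat_lit 12880097)) (.cons (.br (nat_lit 12) (nat_lit 1) (.cons (.br (nat_lit 10) (nat_lit 1) (.cons (.ev (nat_lit 20838245894957656870598641648390) (nat_lit 3)) .nil)) (.cons (.rf (nat_lit 31) (nat_lit 449087713)) .nil))) .nil)))) (.cons (.br (nat_lit 7) (nat_lit 1) (.cons (.br (nat_lit 10) (nat_lit 1) (.cons (.ev (nat_lit 79538856468352323939658104833) (nat_lit 1)) (.cons (.rf (nat_lit 1457) (nat_lit 15433072045018187808)) .nil))) (.cons (.rf (nat_lit 29) (nat_lit 12814625)) (.cons (.br (nat_lit 13) (nat_lit 1) (.cons (.zr (nat_lit 60847228825122110720450689695744) (nat_lit 309485046715115794943967233) (nat_lit 5) (nat_lit 11)) (.cons (.rf (nat_lit 31) (nat_lit 449022241)) .nil)))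 .nil)))) (.cons (.br (nat_lit 13) (nat_lit 1) (.cons (.br (nat_lit 13) (nat_lit 1) (.cons (.ev (nat_lit 20282719088661491770115504537601) (nat_lit 1)) (.cons (.ev (nat_lit 20283030991559918171663290597891) (nat_lit 2)) (.cons (.ev (nat_lit 20282719088661492051590464405761) (nat_lit 1)) .nil)))) (.cons (.rf (nat_lit 1458) (nat_lit 493858305440582043680)) (.cons (.rf (nat_lit 1459) (nat_lit 493858305440582043680)) (.cons (.br (nat_lit 13) (nat_lit 1) (.cons (.ev (nat_lit 20282719088661492051590464405761) (nat_lit 1)) (.cons (.rf (nat_lit 1458) (nat_lit 493858305440582043680)) (.cons (.rf (nat_lit 1459) (nat_lit 493858305440582043680)) .nil)))) .nil))))) (.cons (.ev (nat_lit 79537647542532709310466621696) (nat_lit 1)) (.cons (.br (nat_lit 7) (nat_lit 1) (.cons (.br (nat_lit 13) (nat_lit 1) (.cons (.zr (nat_lit 60847228825122110720450689695744) (nat_lit 309485046715115794943967233) (nat_lit 5) (nat_lit 11)) (.cons (.ev (nat_lit 79537652264971249774166606080) (nat_lit 1)) .nil))) (.cons (.br (nat_lit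 9) (nat_lit 1) (.cons (.br (nat_lit 12) (nat_lit 1) (.cons (.ev (nat_lit 79538856468352042464664682753) (nat_lit 1)) .nil)) (.cons (.br (nat_lit 10) (nat_lit 1) (.cons (.ev (nat_lit 79538856468352042464664682753) (nat_lit 1)) .nil)) (.cons (.ev (nat_lit 20282719093383930592054164390145) (nat_lit 1)) .nil)))) (.cons (.ev (nat_lit 309485009893402667057676544) (nat_lit 1)) (.cons (.br (nat_lit 9) (nat_lit 1) (.cons (.zr (nat_lit 60847228825122110720450689695744) (nat_lit 309485046715115794943967233) (nat_lit 5) (nat_lit 11)) (.cons (.ev (nat_lit 20361947251194275189756556017665) (nat_lit 1)) .nil))) .nil))))) .nil)))))),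
 (.br (nat_lit 8) (nat_lit 1) (.cons (.rf (nat_lit 1380) (nat_lit 493858305440582043680)) (.cons (.ev (nat_lit 1099528470529) (nat_lit 1)) (.cons (.rf (nat_lit 1418) (nat_lit 493858305440582043680)) (.cons (.rf (nat_lit 1446) (nat_lit 493858305440582043680)) (.cons (.br (nat_lit 2) (nat_lit 1) (.cons (.br (nat_lit 7) (nat_lit 1) (.cons (.kr (nat_lit 4722366482869645279232) (nat_lit 72057594054705152) (nat_lit 2) (nat_lit 0)) (.cons (.br (nat_lit 9) (nat_lit 1) (.cons (.kr (nat_lit 281474976710657) (nat_lit 1208925819614629174771712) (nat_lit 0) (nat_lit 1)) (.cons (.rf (nat_lit 1447) (nat_lit 493858305440582043680)) (.cons (.rf (nat_lit 1447) (nat_lit 458117738797769787424)) .nil)))) (.cons (.rf (nat_lit 1448) (nat_lit 493858305440582043680)) (.cons (.rf (nat_lit 1448) (nat_lit 458117738797769787424)) .nil))))) (.cons (.br (nat_lit 1) (nat_lit 1) (.cons (.rf (nat_lit 246) (nat_lit 458899032353)) (.cons (.br (nat_lit 9) (nat_lit 1) (.cons (.kr (nat_lit 281474976710657) (nat_lit 1208925819614629174771712)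 (nat_lit 0) (nat_lit 1)) (.cons (.rf (nat_lit 1449) (nat_lit 493858305440582043680)) (.cons (.rf (nat_lit 1449) (nat_lit 458117738797769787424)) .nil)))) (.cons (.rf (nat_lit 1450) (nat_lit 493858305440582043680)) (.cons (.rf (nat_lit 1450) (nat_lit 458117738797769787424)) .nil))))) (.cons (.ev (nat_lit 309489750634853491351224321) (nat_lit 1)) (.cons (.br (nat_lit 12) (nat_lit 1) (.cons (.rf (nat_lit 1452) (nat_lit 493858305440582043680)) (.cons (.rf (nat_lit 1453) (nat_lit 493858305440582043680)) (.cons (.rf (nat_lit 1455) (nat_lit 493858305440582043680)) (.cons (.rf (nat_lit 1456) (nat_lit 493858305440582043680)) (.cons (.br (nat_lit 12) (nat_lit 1) (.cons (.rf (nat_lit 1452) (nat_lit 493858305440582043680)) (.cons (.rf (nat_lit 1453) (nat_lit 493858305440582043680)) (.cons (.rf (nat_lit 1455) (nat_lit 493858305440582043680)) (.cons (.rf (nat_lit 1456) (nat_lit 493858305440582043680)) .nil))))) .nil)))))) (.cons (.rf (nat_lit 1460) (nat_lit 493858305440582043680)) (.cons (.rf (nat_lit 1460)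 (nat_lit 458117738797769787424)) .nil))))))) .nil)))))),
 (.br (nat_lit 8) (nat_lit 1) (.cons (.rf (nat_lit 1380) (nat_lit 493858305440582043680)) (.cons (.ev (nat_lit 1099528470529) (nat_lit 1)) (.cons (.rf (nat_lit 1418) (nat_lit 493858305440582043680)) (.cons (.rf (nat_lit 1446) (nat_lit 493858305440582043680)) (.cons (.rf (nat_lit 1461) (nat_lit 493858305440582043680)) (.cons (.rf (nat_lit 1461) (nat_lit 458117738797769787424)) .nil))))))),
 (.br (nat_lit 8) (nat_lit 1) (.cons (.rf (nat_lit 1380) (nat_lit 493858305440582043680)) (.cons (.ev (nat_lit 1099528470529) (nat_lit 1)) (.cons (.rf (nat_lit 1418) (nat_lit 493858305440582043680)) (.cons (.rf (nat_lit 1446) (nat_lit 493858305440582043680)) (.cons (.rf (nat_lit 1462) (nat_lit 493858305440582043680)) (.cons (.br (nat_lit 8) (nat_lit 1) (.cons (.rf (nat_lit 1380) (nat_lit 493858305440582043680)) (.cons (.ev (nat_lit 1099528470529) (nat_lit 1)) (.cons (.rf (nat_lit 1418) (nat_lit 493858305440582043680)) (.cons (.rf (nat_lit 1446) (nat_lit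 493858305440582043680)) (.cons (.rf (nat_lit 1462) (nat_lit 493858305440582043680)) .nil)))))) .nil))))))),
 (.br (nat_lit 7) (nat_lit 0) (.cons (.br (nat_lit 9) (nat_lit 0) (.cons (.br (nat_lit 11) (nat_lit 1) (.cons (.br (nat_lit 11) (nat_lit 1) (.cons (.br (nat_lit 8) (nat_lit 1) (.cons (.rf (nat_lit 1380) (nat_lit 493858305440582043680)) (.cons (.ev (nat_lit 1099528470529) (nat_lit 1)) (.cons (.rf (nat_lit 1418) (nat_lit 493858305440582043680)) (.cons (.rf (nat_lit 1446) (nat_lit 493858305440582043680)) (.cons (.rf (nat_lit 1462) (nat_lit 493858305440582043680)) (.cons (.rf (nat_lit 1463) (nat_lit 493858305440582043680)) (.cons (.rf (nat_lit 1463) (nat_lit 458117738797769787424)) .nil)))))))) .nil)) .nil)) .nil)) .nil)),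
 (.br (nat_lit 6) (nat_lit 1) (.cons (.rf (nat_lit 1335) (nat_lit 9043225708576)) (.cons (.br (nat_lit 9) (nat_lit 0) (.cons (.rf (nat_lit 1464) (nat_lit 11584701642934304)) (.cons (.br (nat_lit 9) (nat_lit 0) (.cons (.rf (nat_lit 1464) (nat_lit 11584701642934304)) .nil)) .nil))) .nil))),
 (.br (nat_lit 12) (nat_lit 0) .nil),
 (.br (nat_lit 11) (nat_lit 0) (.cons (.br (nat_lit 12) (nat_lit 1) (.cons (.rf (nat_lit 1466) (nat_lit 15431909825759512608)) .nil)) .nil)),
 (.br (nat_lit 7) (nat_lit 1) (.cons (.ev (nat_lit 72057594037993729) (nat_lit 1)) (.cons (.br (nat_lit 9) (nat_lit 1) (.cons (.ev (nat_lit 1213666633124147017810176) (nat_lit 1)) (.cons (.rf (nat_lit 84) (nat_lit 11015334983)) (.cons (.rf (nat_lit 1467) (nat_lit 407901468851537952)) .nil)))) (.cons (.rf (nat_lit 31) (nat_lit 310445415)) (.cons (.rf (nat_lit 1467) (nat_lit 407901468851537952)) .nil))))),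
 (.br (nat_lit 11) (nat_lit 0) (.cons (.rf (nat_lit 1466) (nat_lit 13126066816545818656)) .nil)),
 (.br (nat_lit 8) (nat_lit 1) (.cons (.ev (nat_lit 1099528470529) (nat_lit 1)) (.cons (.kr (nat_lit 1099511628032) (nat_lit 72057594054705152) (nat_lit 1) (nat_lit 0)) (.cons (.br (nat_lit 2) (nat_lit 1) (.cons (.kr (nat_lit 72339069014638593) (nat_lit 18446745173221244928) (nat_lit 0) (nat_lit 1)) (.cons (.rf (nat_lit 1468) (nat_lit 11584701642934304)) (.cons (.rf (nat_lit 1468) (nat_lit 10493986108180512)) (.cons (.rf (nat_lit 1469) (nat_lit 407901468851537952)) (.cons (.rf (nat_lit 1467) (nat_lit 407901468851537952)) .nil)))))) (.cons (.rf (nat_lit 1469) (nat_lit 407901468851537952)) (.cons (.rf (nat_lit 1467) (nat_lit 407901468851537952)) .nil)))))),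
 (.br (nat_lit 8) (nat_lit 1) (.cons (.ev (nat_lit 1099528470529) (nat_lit 1)) (.cons (.kr (nat_lit 1099511628032) (nat_lit 72057594054705152) (nat_lit 1) (nat_lit 0)) (.cons (.rf (nat_lit 1470) (nat_lit 11584701642934304)) (.cons (.rf (nat_lit 1470) (nat_lit 10493986108180512)) (.cons (.rf (nat_lit 1469) (nat_lit 407901468851537952)) (.cons (.rf (nat_lit 1467) (nat_lit 407901468851537952)) .nil))))))),
 (.br (nat_lit 8) (nat_lit 1) (.cons (.rf (nat_lit 1471) (nat_lit 11584701642934304)) (.cons (.ev (nat_lit 1099528470529) (nat_lit 1)) (.cons (.rf (nat_lit 1471) (nat_lit 11584495417460960)) (.cons (.br (nat_lit 8) (nat_lit 1) (.cons (.rf (nat_lit 1471) (nat_lit 11584701642934304)) (.cons (.ev (nat_lit 1099528470529) (nat_lit 1)) (.cons (.rf (nat_lit 1471) (nat_lit 11584495417460960)) (.cons (.rf (nat_lit 1469) (nat_lit 407901468851537952)) (.cons (.rf (nat_lit 1467) (nat_lit 407901468851537952)) .nil)))))) (.cons (.rf (nat_lit 1469) (nat_lit 407901468851537952)) (.cons (.rf (nat_lit 1467) (nat_lit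 407901468851537952)) .nil))))))),
 (.br (nat_lit 11) (nat_lit 0) (.cons (.br (nat_lit 11) (nat_lit 0) .nil) .nil)),
 (.br (nat_lit 6) (nat_lit 1) (.cons (.rf (nat_lit 1335) (nat_lit 9043225708576)) (.cons (.rf (nat_lit 1465) (nat_lit 325702574508064)) (.cons (.br (nat_lit 6) (nat_lit 1) (.cons (.rf (nat_lit 1335) (nat_lit 9043225708576)) (.cons (.rf (nat_lit 1465) (nat_lit 360886946596896)) (.cons (.br (nat_lit 7) (nat_lit 0) (.cons (.br (nat_lit 8) (nat_lit 1) (.cons (.rf (nat_lit 1471) (nat_lit 11584701642934304)) (.cons (.ev (nat_lit 1099528470529) (nat_lit 1)) (.cons (.rf (nat_lit 1471) (nat_lit 11584495417460960)) (.cons (.rf (nat_lit 1472) (nat_lit 11584701642934304)) (.cons (.rf (nat_lit 1472) (nat_lit 10493986108180512)) (.cons (.rf (nat_lit 1469) (nat_lit 407901468851537952)) (.cons (.rf (nat_lit 1467) (nat_lit 407901468851537952)) .nil)))))))) (.cons (.br (nat_lit 11) (nat_lit 1) (.cons (.rf (nat_lit 1473) (nat_lit 445092485129144352)) (.cons (.br (nat_lit 11) (nat_lit 1) (.cons (.rf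 (nat_lit 1473) (nat_lit 481121282148108320)) .nil)) .nil))) .nil))) .nil)))) .nil)))),
 (.br (nat_lit 11) (nat_lit 1) (.cons (.rf (nat_lit 31) (nat_lit 377718050)) (.cons (.ev (nat_lit 310693935641241172893040641) (nat_lit 1)) .nil))),
 (.br (nat_lit 11) (nat_lit 1) (.cons (.rf (nat_lit 31) (nat_lit 377718050)) (.cons (.rf (nat_lit 1475) (nat_lit 493858305440582043680)) (.cons (.rf (nat_lit 1475) (nat_lit 458117738797769787424)) .nil)))),
 (.br (nat_lit 13) (nat_lit 1) (.cons (.br (nat_lit 11) (nat_lit 1) (.cons (.zr (nat_lit 2417851639233656395924224) (nat_lit 618970019787086804813873153) (nat_lit 5) (nat_lit 4)) (.cons (.zr (nat_lit 928455029465161106081186560) (nat_lit 40564820416229304578815576506369) (nat_lit 5) (nat_lit 3)) .nil))) (.cons (.ev (nat_lit 20282410812577490320051419545601) (nat_lit 1)) .nil))),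
 (.br (nat_lit 13) (nat_lit 1) (.cons (.rf (nat_lit 1477) (nat_lit 493858305440582043680)) (.cons (.br (nat_lit 11) (nat_lit 1) (.cons (.zr (nat_lit 2417851639233656395924224) (nat_lit 618970019787086804813873153) (nat_lit 5) (nat_lit 4)) (.cons (.zr (nat_lit 928455029680207988288127744) (nat_lit 40564820416229160745102477361153) (nat_lit 5) (nat_lit 0)) (.cons (.ev (nat_lit 79229371440084234797206995201) (nat_lit 1)) .nil)))) .nil))),
 (.br (nat_lit 13) (nat_lit 1) (.cons (.rf (nat_lit 1477) (nat_lit 493858305440582043680)) (.cons (.rf (nat_lit 1478) (nat_lit 493858305440582043680)) (.cons (.br (nat_lit 13) (nat_lit 1) (.cons (.ev (nat_lit 20282410812577490320051419545601) (nat_lit 1)) (.cons (.rf (nat_lit 1478) (nat_lit 493858305440582043680)) .nil))) .nil)))),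
 (.br (nat_lit 8) (nat_lit 1) (.cons (.br (nat_lit 8) (nat_lit 1) (.cons (.zr (nat_lit 2417851639231457389445888) (nat_lit 9481626735365981208577) (nat_lit 5) (nat_lit 4)) (.cons (.rf (nat_lit 1479) (nat_lit 493858305440582043680)) .nil))) (.cons (.br (nat_lit 8) (nat_lit 1) (.cons (.zr (nat_lit 2417851639231457389445888) (nat_lit 9481626735365981208577) (nat_lit 5) (nat_lit 4)) (.cons (.rf (nat_lit 1479) (nat_lit 493858305440582043680)) .nil))) (.cons (.rf (nat_lit 1479) (nat_lit 493858305440582043680)) .nil)))),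
 (.br (nat_lit 13) (nat_lit 1) (.cons (.rf (nat_lit 1479) (nat_lit 493858305440582043680)) (.cons (.rf (nat_lit 1480) (nat_lit 493858305440582043680)) (.cons (.br (nat_lit 13) (nat_lit 1) (.cons (.rf (nat_lit 1479) (nat_lit 493858305440582043680)) (.cons (.kr (nat_lit 1208925819614629174706176) (nat_lit 20282409603651670423947251286016) (nat_lit 10) (nat_lit 0)) .nil))) .nil)))),
 (.br (nat_lit 13) (nat_lit 1) (.cons (.rf (nat_lit 1479) (nat_lit 493858305440582043680)) (.cons (.rf (nat_lit 1480) (nat_lit 493858305440582043680)) (.cons (.rf (nat_lit 1481) (nat_lit 493858305440582043680)) (.cons (.br (nat_lit 13) (nat_lit 1) (.cons (.rf (nat_lit 1479) (nat_lit 493858305440582043680)) (.cons (.rf (nat_lit 1480) (nat_lit 493858305440582043680)) (.cons (.rf (nat_lit 1481) (nat_lit 493858305440582043680)) .nil)))) .nil))))),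
 (.br (nat_lit 7) (nat_lit 1) (.cons (.rf (nat_lit 84) (nat_lit 12222503970)) (.cons (.br (nat_lit 12) (nat_lit 1) (.cons (.ev (nat_lit 79228167236703159532220580096) (nat_lit 1)) (.cons (.ev (nat_lit 79229371440084233697712209921) (nat_lit 1)) .nil))) (.cons (.rf (nat_lit 84) (nat_lit 12092220642)) (.cons (.rf (nat_lit 1482) (nat_lit 458117738797769787424)) .nil))))),
 (.br (nat_lit 12) (nat_lit 1) (.cons (.rf (nat_lit 1482) (nat_lit 493858305440582043680)) (.cons (.rf (nat_lit 1483) (nat_lit 493858305440582043680)) (.cons (.br (nat_lit 13) (nat_lit 1) (.cons (.rf (nat_lit 1482) (nat_lit 458117738797769787424)) (.cons (.br (nat_lit 9) (nat_lit 1) (.cons (.zr (nat_lit 14222439680830064492544) (nat_lit 158457533954348572395062689793) (nat_lit 5) (nat_lit 0)) (.cons (.zr (nat_lit 2417851639231457389445888) (nat_lit 9481626735365981208577) (nat_lit 5) (nat_lit 4)) (.cons (.ev (nat_lit 20282410812577490320051419545601) (nat_lit 1)) .nil)))) (.cons (.br (nat_lit 8) (nat_lit 1) (.cons (.zr (nat_lit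 14222439680830064492544) (nat_lit 158457533954348572395062689793) (nat_lit 5) (nat_lit 0)) (.cons (.zr (nat_lit 2417851639231457389445888) (nat_lit 9481626735365981208577) (nat_lit 5) (nat_lit 4)) (.cons (.ev (nat_lit 20282410812577490320051419545601) (nat_lit 1)) .nil)))) (.cons (.br (nat_lit 7) (nat_lit 1) (.cons (.zr (nat_lit 928455029465161106081186560) (nat_lit 3626777602960179423346689) (nat_lit 5) (nat_lit 3)) (.cons (.zr (nat_lit 928455029680207988288127744) (nat_lit 158457533954348572395062689793) (nat_lit 5) (nat_lit 0)) (.cons (.ev (nat_lit 20282410812577490321150914330881) (nat_lit 1)) .nil)))) .nil))))) .nil)))),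
 (.br (nat_lit 12) (nat_lit 1) (.cons (.rf (nat_lit 1482) (nat_lit 493858305440582043680)) (.cons (.rf (nat_lit 1483) (nat_lit 493858305440582043680)) (.cons (.rf (nat_lit 1484) (nat_lit 493858305440582043680)) (.cons (.br (nat_lit 12) (nat_lit 1) (.cons (.kr (nat_lit 1208925819615728686334208) (nat_lit 79228162514264337593560793088) (nat_lit 1) (nat_lit 0)) (.cons (.ev (nat_lit 79229371440084233697712209921) (nat_lit 1)) (.cons (.rf (nat_lit 1484) (nat_lit 493858305440582043680)) .nil)))) .nil))))),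
 (.br (nat_lit 12) (nat_lit 1) (.cons (.rf (nat_lit 1482) (nat_lit 493858305440582043680)) (.cons (.ev (nat_lit 79229371440084233697712209921) (nat_lit 1)) (.cons (.kr (nat_lit 1208925819614629174706176) (nat_lit 79228162514264337593543950336) (nat_lit 10) (nat_lit 0)) .nil)))),
 (.br (nat_lit 13) (nat_lit 1) (.cons (.rf (nat_lit 1482) (nat_lit 458117738797769787424)) (.cons (.rf (nat_lit 1485) (nat_lit 458117738797769787424)) (.cons (.br (nat_lit 13) (nat_lit 1) (.cons (.rf (nat_lit 1482) (nat_lit 458117738797769787424)) (.cons (.rf (nat_lit 1485) (nat_lit 458117738797769787424)) (.cons (.rf (nat_lit 1486) (nat_lit 493858305440582043680)) .nil)))) (.cons (.rf (nat_lit 1486) (nat_lit 493858305440582043680)) .nil)))))]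

theorem c47 : chkAll C T R L47 (nat_lit 1459) = true := by decide +kernel

theorem l47 : (nat_lit 1459) + L47.length = (nat_lit 1488) := by decide +kernel

/-- part of the certificates -/
def L48 : List Prf := [(.br (nat_lit 12) (nat_lit 1) (.cons (.rf (nat_lit 1482) (nat_lit 493858305440582043680)) (.cons (.rf (nat_lit 1485) (nat_lit 493858305440582043680)) (.cons (.rf (nat_lit 1487) (nat_lit 493858305440582043680)) (.cons (.br (nat_lit 12) (nat_lit 1) (.cons (.ev (nat_lit 79229371440084234797206995201) (nat_lit 1)) (.cons (.rf (nat_lit 1485) (nat_lit 493858305440582043680)) (.cons (.kr (nat_lit 1208925819614629174706176) (nat_lit 79228162514264337593543950336) (nat_lit 10) (nat_lit 0)) .nil)))) .nil))))),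
 (.br (nat_lit 12) (nat_lit 1) (.cons (.rf (nat_lit 1482) (nat_lit 493858305440582043680)) (.cons (.rf (nat_lit 1485) (nat_lit 493858305440582043680)) (.cons (.rf (nat_lit 1487) (nat_lit 493858305440582043680)) (.cons (.rf (nat_lit 1488) (nat_lit 493858305440582043680)) (.cons (.br (nat_lit 12) (nat_lit 1) (.cons (.rf (nat_lit 1482) (nat_lit 493858305440582043680)) (.cons (.rf (nat_lit 1485) (nat_lit 493858305440582043680)) (.cons (.rf (nat_lit 1487) (nat_lit 493858305440582043680)) (.cons (.rf (nat_lit 1488) (nat_lit 493858305440582043680)) .nil))))) .nil)))))),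
 (.br (nat_lit 2) (nat_lit 1) (.cons (.zr (nat_lit 2199040164096) (nat_lit 144396667347533825) (nat_lit 5) (nat_lit 4)) (.cons (.ev (nat_lit 281474993553409) (nat_lit 1)) (.cons (.br (nat_lit 8) (nat_lit 1) (.cons (.rf (nat_lit 29) (nat_lit 8619298)) (.cons (.rf (nat_lit 1476) (nat_lit 493858305440582043680)) (.cons (.rf (nat_lit 1476) (nat_lit 492741412732994160672)) (.cons (.rf (nat_lit 1476) (nat_lit 455883953382594021408)) .nil))))) (.cons (.rf (nat_lit 1489) (nat_lit 493858305440582043680)) (.cons (.rf (nat_lit 1489) (nat_lit 492741412732994160672)) (.cons (.rf (nat_lit 1489) (nat_lit 455883953382594021408)) .nil))))))),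
 (.br (nat_lit 11) (nat_lit 1) (.cons (.rf (nat_lit 84) (nat_lit 14238915649)) (.cons (.ev (nat_lit 309489750634573115886141441) (nat_lit 1)) (.cons (.br (nat_lit 7) (nat_lit 1) (.cons (.br (nat_lit 12) (nat_lit 1) (.cons (.zr (nat_lit 237684487542793013880177229824) (nat_lit 620178945606701433971802113) (nat_lit 5) (nat_lit 4)) .nil)) (.cons (.ev (nat_lit 310693954159762469453627648) (nat_lit 1)) .nil))) .nil)))),
 (.br (nat_lit 12) (nat_lit 1) (.cons (.rf (nat_lit 1491) (nat_lit 492741412732994160672)) (.cons (.ev (nat_lit 310693935641242272387825921) (nat_lit 1)) (.cons (.br (nat_lit 12) (nat_lit 1) (.cons (.rf (nat_lit 1491) (nat_lit 492741412732994160672)) (.cons (.ev (nat_lit 310693935641242272387825921) (nat_lit 1)) .nil))) .nil)))),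
 (.br (nat_lit 11) (nat_lit 1) (.cons (.ev (nat_lit 309489750634573115886141441) (nat_lit 1)) (.cons (.ev (nat_lit 310693935641242272387825921) (nat_lit 1)) (.cons (.br (nat_lit 12) (nat_lit 1) (.cons (.ev (nat_lit 79228167255077565640705310721) (nat_lit 1)) (.cons (.ev (nat_lit 79229371440084234797206995201) (nat_lit 1)) (.cons (.zr (nat_lit 60847228825177450954870841410304) (nat_lit 1548633974926621452137398273) (nat_lit 5) (nat_lit 0)) .nil)))) .nil)))),
 (.br (nat_lit 11) (nat_lit 1) (.cons (.rf (nat_lit 1491) (nat_lit 493858305440582043680)) (.cons (.rf (nat_lit 1492) (nat_lit 493858305440582043680)) (.cons (.rf (nat_lit 1493) (nat_lit 493858305440582043680)) (.cons (.br (nat_lit 11) (nat_lit 1) (.cons (.rf (nat_lit 1491) (nat_lit 493858305440582043680)) (.cons (.rf (nat_lit 1492) (nat_lit 493858305440582043680)) (.cons (.rf (nat_lit 1493) (nat_lit 493858305440582043680)) .nil)))) .nil))))),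
 (.br (nat_lit 13) (nat_lit 1) (.cons (.rf (nat_lit 1494) (nat_lit 493858305440582043680)) (.cons (.rf (nat_lit 1494) (nat_lit 493858305231169980640)) (.cons (.ev (nat_lit 20282409617874110952513716027394) (nat_lit 2)) .nil)))),
 (.br (nat_lit 13) (nat_lit 1) (.cons (.rf (nat_lit 1494) (nat_lit 493858305440582043680)) (.cons (.rf (nat_lit 1494) (nat_lit 493858305231169980640)) (.cons (.rf (nat_lit 1495) (nat_lit 493858305440582043680)) (.cons (.rf (nat_lit 1495) (nat_lit 492741412732994160672)) .nil))))),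
 (.br (nat_lit 13) (nat_lit 1) (.cons (.rf (nat_lit 1494) (nat_lit 493858305440582043680)) (.cons (.rf (nat_lit 1496) (nat_lit 493858305440582043680)) (.cons (.rf (nat_lit 1494) (nat_lit 493858305231169980640)) (.cons (.br (nat_lit 13) (nat_lit 1) (.cons (.rf (nat_lit 1494) (nat_lit 493858305440582043680)) (.cons (.ev (nat_lit 20282409617874110952513716027394) (nat_lit 2)) (.cons (.rf (nat_lit 1494) (nat_lit 493858305231169980640)) .nil)))) .nil))))),
 (.br (nat_lit 13) (nat_lit 1) (.cons (.rf (nat_lit 1494) (nat_lit 493858305440582043680)) (.cons (.rf (nat_lit 1496) (nat_lit 493858305440582043680)) (.cons (.rf (nat_lit 1494) (nat_lit 493858305231169980640)) (.cons (.rf (nat_lit 1497) (nat_lit 493858305440582043680)) (.cons (.rf (nat_lit 1497) (nat_lit 492741412732994160672)) .nil)))))),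
 (.br (nat_lit 8) (nat_lit 1) (.cons (.rf (nat_lit 1490) (nat_lit 493858305440582043680)) (.cons (.ev (nat_lit 281474993553409) (nat_lit 1)) (.cons (.rf (nat_lit 1490) (nat_lit 493858305231169980640)) (.cons (.rf (nat_lit 1498) (nat_lit 493858305440582043680)) (.cons (.rf (nat_lit 1498) (nat_lit 458117738797769787424)) .nil)))))),
 (.br (nat_lit 8) (nat_lit 1) (.cons (.rf (nat_lit 1490) (nat_lit 493858305440582043680)) (.cons (.ev (nat_lit 281474993553409) (nat_lit 1)) (.cons (.rf (nat_lit 1490) (nat_lit 493858305231169980640)) (.cons (.rf (nat_lit 1499) (nat_lit 493858305440582043680)) (.cons (.rf (nat_lit 1499) (nat_lit 492741412732994160672)) (.cons (.rf (nat_lit 1499) (nat_lit 455883953382594021408)) .nil))))))),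
 (.br (nat_lit 13) (nat_lit 1) (.cons (.zr (nat_lit 928469196563483815110180864) (nat_lit 1208962713385355393892353) (nat_lit 5) (nat_lit 10)) (.cons (.zr (nat_lit 79228162514336676671148654592) (nat_lit 1208925819615728703111681) (nat_lit 5) (nat_lit 5)) .nil))),
 (.br (nat_lit 9) (nat_lit 1) (.cons (.ev (nat_lit 311907620865506069558001665) (nat_lit 2)) (.cons (.rf (nat_lit 1501) (nat_lit 493858305440582043680)) (.cons (.rf (nat_lit 1501) (nat_lit 458117738797769787424)) .nil)))),
 (.br (nat_lit 7) (nat_lit 1) (.cons (.zr (nat_lit 4740813508426921411072) (nat_lit 1208925819615728703242241) (nat_lit 5) (nat_lit 3)) (.cons (.rf (nat_lit 1502) (nat_lit 493858305440582043680)) (.cons (.rf (nat_lit 1502) (nat_lit 492741412732994160672)) (.cons (.rf (nat_lit 1502) (nat_lit 455883953382594021408)) .nil))))),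
 (.br (nat_lit 7) (nat_lit 1) (.cons (.ev (nat_lit 310693954159762469453627648) (nat_lit 1)) (.cons (.ev (nat_lit 1213648258436567851335936) (nat_lit 1)) .nil))),
 (.br (nat_lit 7) (nat_lit 1) (.cons (.kr (nat_lit 309485009821626543701491968) (nat_lit 4740813226947649732608) (nat_lit 1) (nat_lit 0)) (.cons (.ev (nat_lit 79229371440084234797206995201) (nat_lit 1)) (.cons (.br (nat_lit 9) (nat_lit 1) (.cons (.zr (nat_lit 928455029465161106081186560) (nat_lit 158457533954492406108161835009) (nat_lit 5) (nat_lit 3)) .nil)) .nil)))),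
 (.br (nat_lit 13) (nat_lit 1) (.cons (.rf (nat_lit 1505) (nat_lit 493858305440582043680)) (.cons (.rf (nat_lit 1505) (nat_lit 493858305231169980640)) (.cons (.br (nat_lit 13) (nat_lit 1) (.cons (.rf (nat_lit 1505) (nat_lit 493858305440582043680)) (.cons (.rf (nat_lit 1505) (nat_lit 493858305231169980640)) (.cons (.ev (nat_lit 79538861190718525338604797953) (nat_lit 1)) .nil)))) (.cons (.br (nat_lit 1) (nat_lit 1) (.cons (.ev (nat_lit 79229371440084234797206995201) (nat_lit 1)) (.cons (.zr (nat_lit 237684487542793014979671884544) (nat_lit 1218407446349995155914753) (nat_lit 5) (nat_lit 4)) (.cons (.zr (nat_lit 928455029464598160422732544) (nat_lit 40564820416229160463623205814273) (nat_lit 5) (nat_lit 3)) .nil)))) .nil))))),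
 (.br (nat_lit 11) (nat_lit 1) (.cons (.ev (nat_lit 310693954087986346097377536) (nat_lit 1)) (.cons (.ev (nat_lit 310693954159761369958711296) (nat_lit 1)) (.cons (.br (nat_lit 1) (nat_lit 1) (.cons (.ev (nat_lit 621387908247749915113030400) (nat_lit 2)) (.cons (.rf (nat_lit 1504) (nat_lit 493858305440582043680)) (.cons (.rf (nat_lit 1504) (nat_lit 458117738797769787424)) .nil)))) (.cons (.rf (nat_lit 1506) (nat_lit 493858305440582043680)) (.cons (.rf (nat_lit 1506) (nat_lit 458117738797769787424)) .nil)))))),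
 (.br (nat_lit 8) (nat_lit 1) (.cons (.rf (nat_lit 1490) (nat_lit 493858305440582043680)) (.cons (.ev (nat_lit 281474993553409) (nat_lit 1)) (.cons (.rf (nat_lit 1490) (nat_lit 493858305231169980640)) (.cons (.rf (nat_lit 1500) (nat_lit 493858305440582043680)) (.cons (.br (nat_lit 2) (nat_lit 1) (.cons (.rf (nat_lit 1503) (nat_lit 493858305440582043680)) (.cons (.rf (nat_lit 1503) (nat_lit 493858305231169980640)) (.cons (.ev (nat_lit 1213666632842676336066561) (nat_lit 1)) (.cons (.rf (nat_lit 1507) (nat_lit 493858305440582043680)) (.cons (.rf (nat_lit 1507) (nat_lit 492741412732994160672)) (.cons (.rf (nat_lit 1507) (nat_lit 455883953382594021408)) .nil))))))) .nil)))))),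
 (.br (nat_lit 8) (nat_lit 1) (.cons (.rf (nat_lit 1490) (nat_lit 493858305440582043680)) (.cons (.ev (nat_lit 281474993553409) (nat_lit 1)) (.cons (.rf (nat_lit 1490) (nat_lit 493858305231169980640)) (.cons (.rf (nat_lit 1500) (nat_lit 493858305440582043680)) (.cons (.rf (nat_lit 1508) (nat_lit 493858305440582043680)) (.cons (.rf (nat_lit 1508) (nat_lit 458117738797769787424)) .nil))))))),
 (.br (nat_lit 9) (nat_lit 0) (.cons (.br (nat_lit 10) (nat_lit 1) (.cons (.br (nat_lit 10) (nat_lit 1) (.cons (.br (nat_lit 10) (nat_lit 1) (.cons (.br (nat_lit 8) (nat_lit 1) (.cons (.rf (nat_lit 1490) (nat_lit 493858305440582043680)) (.cons (.ev (nat_lit 281474993553409) (nat_lit 1)) (.cons (.rf (nat_lit 1490) (nat_lit 493858305231169980640)) (.cons (.rf (nat_lit 1500) (nat_lit 493858305440582043680)) (.cons (.rf (nat_lit 1509) (nat_lit 493858305440582043680)) (.cons (.rf (nat_lit 1509) (nat_lit 492741412732994160672)) (.cons (.rf (nat_lit 1509) (nat_lit 455883953382594021408)) .nil)))))))) .nil)) .nil))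 .nil)) .nil)),
 (.br (nat_lit 9) (nat_lit 0) (.cons (.rf (nat_lit 1510) (nat_lit 325702574508064)) (.cons (.br (nat_lit 9) (nat_lit 0) (.cons (.rf (nat_lit 1510) (nat_lit 325702574508064)) .nil)) .nil))),
 (.br (nat_lit 8) (nat_lit 1) (.cons (.br (nat_lit 10) (nat_lit 1) (.cons (.ev (nat_lit 4722366765448428585216) (nat_lit 1)) (.cons (.rf (nat_lit 84) (nat_lit 11047869483)) (.cons (.rf (nat_lit 1322) (nat_lit 407901468850522144)) .nil)))) (.cons (.rf (nat_lit 1323) (nat_lit 11584701641918496)) (.cons (.rf (nat_lit 58) (nat_lit 8756258)) (.cons (.rf (nat_lit 1322) (nat_lit 407901468850522144)) .nil))))),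
 (.br (nat_lit 2) (nat_lit 1) (.cons (.kr (nat_lit 1) (nat_lit 18446744073709551616) (nat_lit 0) (nat_lit 1)) (.cons (.rf (nat_lit 1512) (nat_lit 11584701642934304)) (.cons (.rf (nat_lit 1512) (nat_lit 10493776696117472)) (.cons (.rf (nat_lit 29) (nat_lit 8619362)) (.cons (.rf (nat_lit 1322) (nat_lit 407901468850522144)) .nil)))))),
 (.br (nat_lit 10) (nat_lit 1) (.cons (.rf (nat_lit 1326) (nat_lit 11584701641918496)) (.cons (.ev (nat_lit 4722366765448428585216) (nat_lit 1)) (.cons (.rf (nat_lit 1330) (nat_lit 12746920901578817)) (.cons (.rf (nat_lit 1322) (nat_lit 407901468850522144)) .nil))))),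
 (.br (nat_lit 2) (nat_lit 1) (.cons (.rf (nat_lit 1514) (nat_lit 11584701642934304)) (.cons (.rf (nat_lit 1328) (nat_lit 11584701641918496)) (.cons (.rf (nat_lit 31) (nat_lit 310609250)) (.cons (.rf (nat_lit 1322) (nat_lit 407901468850522144)) .nil))))),
 (.br (nat_lit 8) (nat_lit 1) (.cons (.kr (nat_lit 16842753) (nat_lit 18446745173221179648) (nat_lit 0) (nat_lit 4)) (.cons (.rf (nat_lit 1513) (nat_lit 11584701642934304)) (.cons (.br (nat_lit 9) (nat_lit 1) (.cons (.rf (nat_lit 1514) (nat_lit 11584701642934304)) (.cons (.rf (nat_lit 1515) (nat_lit 11584701642934304)) (.cons (.br (nat_lit 9) (nat_lit 1) (.cons (.ev (nat_lit 4722366765448428585216) (nat_lit 1)) (.cons (.rf (nat_lit 1515) (nat_lit 11584701642934304)) (.cons (.rf (nat_lit 1330) (nat_lit 12746920901578817)) (.cons (.rf (nat_lit 1322) (nat_lit 407901468850522144)) .nil))))) (.cons (.rf (nat_lit 1330) (nat_lit 12746920901578817)) (.cons (.rf (nat_lit 1322) (nat_lit 407901468850522144)) .nil)))))) (.cons (.rf (nat_lit 1330) (nat_lit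 12746920901578817)) (.cons (.rf (nat_lit 1322) (nat_lit 407901468850522144)) .nil)))))),
 (.br (nat_lit 8) (nat_lit 1) (.cons (.br (nat_lit 8) (nat_lit 1) (.cons (.kr (nat_lit 1) (nat_lit 18446744073709551616) (nat_lit 0) (nat_lit 1)) (.cons (.kr (nat_lit 16842753) (nat_lit 18446745173221179648) (nat_lit 0) (nat_lit 4)) (.cons (.ev (nat_lit 18447026648197890304) (nat_lit 1)) (.cons (.rf (nat_lit 58) (nat_lit 8751143)) (.cons (.rf (nat_lit 1322) (nat_lit 407901468850522144)) .nil)))))) (.cons (.rf (nat_lit 1513) (nat_lit 11584701642934304)) (.cons (.rf (nat_lit 1516) (nat_lit 11584701642934304)) (.cons (.br (nat_lit 8) (nat_lit 1) (.cons (.ev (nat_lit 18447026648197890304) (nat_lit 1)) (.cons (.rf (nat_lit 1513) (nat_lit 11584701642934304)) (.cons (.rf (nat_lit 1516) (nat_lit 11584701642934304)) (.cons (.rf (nat_lit 1330) (nat_lit 12712829497054279)) (.cons (.rf (nat_lit 1322) (nat_lit 407901468850522144)) .nil)))))) (.cons (.rf (nat_lit 1332) (nat_lit 12746920901578817)) (.cons (.rf (nat_lit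 1322) (nat_lit 407901468850522144)) .nil))))))),
 (.br (nat_lit 7) (nat_lit 1) (.cons (.ev (nat_lit 1213666704899166567465216) (nat_lit 1)) (.cons (.rf (nat_lit 31) (nat_lit 310413671)) (.cons (.rf (nat_lit 1322) (nat_lit 407901468850522144)) .nil)))),
 (.br (nat_lit 10) (nat_lit 1) (.cons (.ev (nat_lit 18518802771554140416) (nat_lit 1)) (.cons (.rf (nat_lit 1518) (nat_lit 11584701642934304)) (.cons (.rf (nat_lit 1330) (nat_lit 12746920901578817)) (.cons (.rf (nat_lit 1322) (nat_lit 407901468850522144)) .nil))))),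
 (.br (nat_lit 8) (nat_lit 1) (.cons (.kr (nat_lit 16842753) (nat_lit 18446745173221179648) (nat_lit 0) (nat_lit 4)) (.cons (.ev (nat_lit 18518801672059224064) (nat_lit 1)) (.cons (.br (nat_lit 1) (nat_lit 1) (.cons (.ev (nat_lit 72058697844588801) (nat_lit 1)) (.cons (.rf (nat_lit 1519) (nat_lit 11584701642934304)) (.cons (.br (nat_lit 7) (nat_lit 1) (.cons (.ev (nat_lit 18518802771554140416) (nat_lit 1)) (.cons (.rf (nat_lit 1519) (nat_lit 10493776696117472)) (.cons (.rf (nat_lit 31) (nat_lit 343968103)) (.cons (.rf (nat_lit 1322) (nat_lit 407901468850522144)) .nil))))) (.cons (.rf (nat_lit 1330) (nat_lit 12746920901578817)) (.cons (.rf (nat_lit 1322) (nat_lit 407901468850522144)) .nil)))))) (.cons (.rf (nat_lit 1330) (nat_lit 12746920901578817)) (.cons (.rf (nat_lit 1322) (nat_lit 407901468850522144)) .nil)))))),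
 (.br (nat_lit 8) (nat_lit 1) (.cons (.rf (nat_lit 1517) (nat_lit 11584701642934304)) (.cons (.rf (nat_lit 1517) (nat_lit 10493776696117472)) (.cons (.rf (nat_lit 1520) (nat_lit 11584701642934304)) (.cons (.rf (nat_lit 1520) (nat_lit 10493776696117472)) (.cons (.rf (nat_lit 1332) (nat_lit 12746920901578817)) (.cons (.rf (nat_lit 1322) (nat_lit 407901468850522144)) .nil)))))))]

theorem c48 : chkAll C T R L48 (nat_lit 1488) = true := by decide +kernel

theorem l48 : (nat_lit 1488) + L48.length = (nat_lit 1522) := by decide +kernel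

/-- part of the certificates -/
def L49 : List Prf := [(.br (nat_lit 8) (nat_lit 1) (.cons (.rf (nat_lit 1517) (nat_lit 11584701642934304)) (.cons (.rf (nat_lit 1521) (nat_lit 11584701642934304)) (.cons (.rf (nat_lit 1517) (nat_lit 10493776696117472)) (.cons (.br (nat_lit 8) (nat_lit 1) (.cons (.rf (nat_lit 1517) (nat_lit 11584701642934304)) (.cons (.rf (nat_lit 1521) (nat_lit 11584701642934304)) (.cons (.rf (nat_lit 1517) (nat_lit 10493776696117472)) (.cons (.rf (nat_lit 1330) (nat_lit 12746920901578817)) (.cons (.rf (nat_lit 1322) (nat_lit 407901468850522144)) .nil)))))) (.cons (.rf (nat_lit 1330) (nat_lit 12746920901578817)) (.cons (.rf (nat_lit 1322) (nat_lit 407901468850522144)) .nil))))))),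
 (.br (nat_lit 8) (nat_lit 1) (.cons (.br (nat_lit 11) (nat_lit 1) (.cons (.br (nat_lit 12) (nat_lit 1) (.cons (.ev (nat_lit 79228167236631103037677502721) (nat_lit 1)) .nil)) (.cons (.kr (nat_lit 309485009821626543718268928) (nat_lit 20282410812577490038580720959488) (nat_lit 3) (nat_lit 0)) .nil))) (.cons (.br (nat_lit 13) (nat_lit 1) (.cons (.rf (nat_lit 1351) (nat_lit 420002684435797510176)) (.cons (.ev (nat_lit 20361638979814193199208141488128) (nat_lit 1)) .nil))) .nil))),
 (.br (nat_lit 13) (nat_lit 1) (.cons (.rf (nat_lit 1523) (nat_lit 493858305440582043680)) (.cons (.br (nat_lit 8) (nat_lit 1) (.cons (.ev (nat_lit 20282410812577562378744952324096) (nat_lit 1)) (.cons (.br (nat_lit 10) (nat_lit 1) (.cons (.ev (nat_lit 79228162532783140365114867713) (nat_lit 1)) .nil)) (.cons (.zr (nat_lit 79228167273524311909143216640) (nat_lit 40564819207303485244561850105859) (nat_lit 5) (nat_lit 4)) .nil)))) .nil))),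
 (.br (nat_lit 13) (nat_lit 1) (.cons (.rf (nat_lit 1523) (nat_lit 493858305440582043680)) (.cons (.rf (nat_lit 1524) (nat_lit 493858305440582043680)) (.cons (.br (nat_lit 13) (nat_lit 1) (.cons (.rf (nat_lit 1523) (nat_lit 493858305440582043680)) (.cons (.rf (nat_lit 1524) (nat_lit 493858305440582043680)) .nil))) .nil)))),
 (.br (nat_lit 8) (nat_lit 1) (.cons (.br (nat_lit 12) (nat_lit 1) (.cons (.ev (nat_lit 79537652246524224229775310848) (nat_lit 1)) (.cons (.zr (nat_lit 237684487542793012780699156480) (nat_lit 2422610899482854197035009) (nat_lit 5) (nat_lit 4)) .nil))) (.cons (.rf (nat_lit 1525) (nat_lit 493858305440582043680)) .nil))),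
 (.br (nat_lit 8) (nat_lit 1) (.cons (.rf (nat_lit 1526) (nat_lit 493858305440582043680)) (.cons (.br (nat_lit 8) (nat_lit 1) (.cons (.rf (nat_lit 1526) (nat_lit 493858305440582043680)) (.cons (.rf (nat_lit 1525) (nat_lit 493858305440582043680)) .nil))) (.cons (.rf (nat_lit 1525) (nat_lit 493858305440582043680)) .nil)))),
 (.br (nat_lit 13) (nat_lit 1) (.cons (.rf (nat_lit 1525) (nat_lit 493858305440582043680)) (.cons (.rf (nat_lit 1527) (nat_lit 493858305440582043680)) (.cons (.br (nat_lit 13) (nat_lit 1) (.cons (.rf (nat_lit 1525) (nat_lit 493858305440582043680)) (.cons (.rf (nat_lit 1527) (nat_lit 493858305440582043680)) .nil))) .nil)))),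
 (.br (nat_lit 13) (nat_lit 1) (.cons (.rf (nat_lit 1525) (nat_lit 493858305440582043680)) (.cons (.rf (nat_lit 1527) (nat_lit 493858305440582043680)) (.cons (.rf (nat_lit 1528) (nat_lit 493858305440582043680)) (.cons (.br (nat_lit 13) (nat_lit 1) (.cons (.rf (nat_lit 1525) (nat_lit 493858305440582043680)) (.cons (.rf (nat_lit 1527) (nat_lit 493858305440582043680)) (.cons (.rf (nat_lit 1528) (nat_lit 493858305440582043680)) .nil)))) .nil))))),
 (.br (nat_lit 12) (nat_lit 1) (.cons (.rf (nat_lit 84) (nat_lit 12092221666)) (.cons (.br (nat_lit 7) (nat_lit 1) (.cons (.ev (nat_lit 79228162532783140365114867713) (nat_lit 1)) (.cons (.rf (nat_lit 84) (nat_lit 9004457025)) (.cons (.br (nat_lit 13) (nat_lit 1) (.cons (.ev (nat_lit 4740885285641216131073) (nat_lit 1)) (.cons (.br (nat_lit 8) (nat_lit 1) (.cons (.ev (nat_lit 4740885285641216131073) (nat_lit 1)) .nil)) .nil))) .nil)))) (.cons (.ev (nat_lit 79228167236631101938182717441) (nat_lit 1)) .nil)))),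
 (.br (nat_lit 8) (nat_lit 1) (.cons (.br (nat_lit 11) (nat_lit 1) (.cons (.ev (nat_lit 20361955742119892702639572845828) (nat_lit 3)) .nil)) (.cons (.ev (nat_lit 79228162532783139265586397441) (nat_lit 1)) (.cons (.ev (nat_lit 4740885285641216131073) (nat_lit 1)) .nil)))),
 (.br (nat_lit 7) (nat_lit 1) (.cons (.zr (nat_lit 3626832799076108652969984) (nat_lit 158456329750895440635533197313) (nat_lit 5) (nat_lit 0)) (.cons (.ev (nat_lit 79228162532783139265586397441) (nat_lit 1)) (.cons (.ev (nat_lit 4740885285641216131073) (nat_lit 1)) .nil)))),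
 (.br (nat_lit 12) (nat_lit 1) (.cons (.rf (nat_lit 1529) (nat_lit 493858305440582043680)) (.cons (.rf (nat_lit 1530) (nat_lit 493858305440582043680)) (.cons (.br (nat_lit 13) (nat_lit 1) (.cons (.rf (nat_lit 1531) (nat_lit 493858305440582043680)) (.cons (.rf (nat_lit 1532) (nat_lit 493858305440582043680)) (.cons (.br (nat_lit 13) (nat_lit 1) (.cons (.rf (nat_lit 1531) (nat_lit 493858305440582043680)) (.cons (.rf (nat_lit 1532) (nat_lit 493858305440582043680)) (.cons (.kr (nat_lit 309485009821626543718268928) (nat_lit 20282410812577490038580720959488) (nat_lit 3) (nat_lit 0)) .nil)))) (.cons (.br (nat_lit 13) (nat_lit 1) (.cons (.rf (nat_lit 1531) (nat_lit 493858305440582043680)) (.cons (.rf (nat_lit 1532) (nat_lit 493858305440582043680)) (.cons (.kr (nat_lit 309485009821626543718268928) (nat_lit 20282410812577490038580720959488) (nat_lit 3) (nat_lit 0)) .nil)))) .nil))))) .nil)))),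
 (.br (nat_lit 12) (nat_lit 1) (.cons (.rf (nat_lit 1529) (nat_lit 493858305440582043680)) (.cons (.rf (nat_lit 1530) (nat_lit 493858305440582043680)) (.cons (.rf (nat_lit 1533) (nat_lit 493858305440582043680)) (.cons (.br (nat_lit 12) (nat_lit 1) (.cons (.rf (nat_lit 1529) (nat_lit 493858305440582043680)) (.cons (.ev (nat_lit 79228167236631101938182717441) (nat_lit 1)) (.cons (.rf (nat_lit 1533) (nat_lit 493858305440582043680)) .nil)))) .nil))))),
 (.br (nat_lit 11) (nat_lit 1) (.cons (.ev (nat_lit 20282410812577562378744952324096) (nat_lit 1)) .nil)),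
 (.br (nat_lit 12) (nat_lit 1) (.cons (.kr (nat_lit 4722366482869645213696) (nat_lit 79228162514264337593543950336) (nat_lit 9) (nat_lit 0)) (.cons (.rf (nat_lit 1534) (nat_lit 493858305440582043680)) (.cons (.br (nat_lit 7) (nat_lit 1) (.cons (.br (nat_lit 8) (nat_lit 1) (.cons (.zr (nat_lit 79228167236630822662229197568) (nat_lit 2417888532998885040193537) (nat_lit 5) (nat_lit 4)) (.cons (.rf (nat_lit 1535) (nat_lit 493858305440582043680)) .nil))) (.cons (.rf (nat_lit 84) (nat_lit 9004457025)) (.cons (.br (nat_lit 11) (nat_lit 1) (.cons (.br (nat_lit 8) (nat_lit 1) (.cons (.zr (nat_lit 237684487542793014979671884544) (nat_lit 2422610899481754685407233) (nat_lit 5) (nat_lit 4)) .nil)) (.cons (.ev (nat_lit 20361638979814193199208141488128) (nat_lit 1)) .nil))) .nil)))) .nil)))),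
 (.br (nat_lit 12) (nat_lit 1) (.cons (.rf (nat_lit 1529) (nat_lit 493858305440582043680)) (.cons (.rf (nat_lit 1534) (nat_lit 493858305440582043680)) (.cons (.rf (nat_lit 1536) (nat_lit 493858305440582043680)) (.cons (.br (nat_lit 12) (nat_lit 1) (.cons (.rf (nat_lit 1529) (nat_lit 493858305440582043680)) (.cons (.ev (nat_lit 79228167236631101938182717441) (nat_lit 1)) (.cons (.rf (nat_lit 1536) (nat_lit 493858305440582043680)) .nil)))) .nil))))),
 (.br (nat_lit 12) (nat_lit 1) (.cons (.rf (nat_lit 1529) (nat_lit 493858305440582043680)) (.cons (.rf (nat_lit 1534) (nat_lit 493858305440582043680)) (.cons (.rf (nat_lit 1537) (nat_lit 493858305440582043680)) (.cons (.br (nat_lit 12) (nat_lit 1) (.cons (.ev (nat_lit 79228167236631103037677502721) (nat_lit 1)) (.cons (.rf (nat_lit 1534) (nat_lit 493858305440582043680)) (.cons (.rf (nat_lit 1537) (nat_lit 493858305440582043680)) .nil)))) .nil))))),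
 (.br (nat_lit 12) (nat_lit 1) (.cons (.rf (nat_lit 1529) (nat_lit 493858305440582043680)) (.cons (.rf (nat_lit 1534) (nat_lit 493858305440582043680)) (.cons (.rf (nat_lit 1537) (nat_lit 493858305440582043680)) (.cons (.rf (nat_lit 1538) (nat_lit 493858305440582043680)) (.cons (.br (nat_lit 12) (nat_lit 1) (.cons (.rf (nat_lit 1529) (nat_lit 493858305440582043680)) (.cons (.rf (nat_lit 1534) (nat_lit 493858305440582043680)) (.cons (.rf (nat_lit 1537) (nat_lit 493858305440582043680)) (.cons (.rf (nat_lit 1538) (nat_lit 493858305440582043680)) .nil))))) .nil)))))),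
 (.br (nat_lit 8) (nat_lit 1) (.cons (.rf (nat_lit 31) (nat_lit 377718082)) (.cons (.br (nat_lit 11) (nat_lit 1) (.cons (.br (nat_lit 13) (nat_lit 1) (.cons (.ev (nat_lit 309485028340147840295698433) (nat_lit 1)) (.cons (.ev (nat_lit 79228167236631101938182717441) (nat_lit 1)) .nil))) (.cons (.br (nat_lit 11) (nat_lit 1) (.cons (.ev (nat_lit 309485028340147840295698433) (nat_lit 1)) .nil)) .nil))) .nil))),
 (.br (nat_lit 8) (nat_lit 1) (.cons (.rf (nat_lit 84) (nat_lit 14336370722)) (.cons (.br (nat_lit 10) (nat_lit 1) (.cons (.rf (nat_lit 84) (nat_lit 14238656738)) (.cons (.br (nat_lit 12) (nat_lit 1) (.cons (.ev (nat_lit 79228167236631101938182717441) (nat_lit 1)) (.cons (.zr (nat_lit 79228171958997306631402947584) (nat_lit 2417870158875355321991172) (nat_lit 10) (nat_lit 4)) .nil))) (.cons (.br (nat_lit 12) (nat_lit 1) (.cons (.zr (nat_lit 928455029464035206241648640) (nat_lit 2422610899482854197035009) (nat_lit 5) (nat_lit 4)) (.cons (.zr (nat_lit 1218388999326641214914560) (nat_lit 60847228810955227726103139319809)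 (nat_lit 5) (nat_lit 4)) .nil))) .nil)))) (.cons (.br (nat_lit 10) (nat_lit 1) (.cons (.rf (nat_lit 84) (nat_lit 14238656738)) (.cons (.br (nat_lit 12) (nat_lit 1) (.cons (.zr (nat_lit 928455029464035206241648640) (nat_lit 2422610899482854197035009) (nat_lit 5) (nat_lit 4)) (.cons (.kr (nat_lit 20282409603651742481541305991168) (nat_lit 1208944266359802395885568) (nat_lit 3) (nat_lit 0)) .nil))) (.cons (.ev (nat_lit 20282410812596009121719166959873) (nat_lit 1)) .nil)))) .nil)))),
 (.br (nat_lit 2) (nat_lit 1) (.cons (.br (nat_lit 8) (nat_lit 1) (.cons (.kr (nat_lit 16842753) (nat_lit 18446745173221179648) (nat_lit 0) (nat_lit 4)) (.cons (.rf (nat_lit 1339) (nat_lit 392259770593)) (.cons (.br (nat_lit 10) (nat_lit 1) (.cons (.rf (nat_lit 82) (nat_lit 13262719015)) (.cons (.rf (nat_lit 84) (nat_lit 12222531623)) (.cons (.br (nat_lit 11) (nat_lit 1) (.cons (.br (nat_lit 11) (nat_lit 1) (.cons (.ev (nat_lit 309489732188110512858333441) (nat_lit 1)) .nil)) (.cons (.br (nat_lit 11) (nat_lit 1) (.cons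 (.ev (nat_lit 309489732188110512858333441) (nat_lit 1)) .nil)) .nil))) .nil)))) (.cons (.ev (nat_lit 18447025548703105024) (nat_lit 1)) .nil))))) (.cons (.br (nat_lit 8) (nat_lit 1) (.cons (.rf (nat_lit 31) (nat_lit 377718082)) (.cons (.rf (nat_lit 1540) (nat_lit 493858305440582043680)) (.cons (.br (nat_lit 8) (nat_lit 1) (.cons (.rf (nat_lit 31) (nat_lit 377718082)) (.cons (.rf (nat_lit 1540) (nat_lit 493858305440582043680)) .nil))) .nil)))) (.cons (.rf (nat_lit 1539) (nat_lit 493858305440582043680)) (.cons (.rf (nat_lit 1539) (nat_lit 492741412732994160672)) (.cons (.br (nat_lit 8) (nat_lit 1) (.cons (.rf (nat_lit 1346) (nat_lit 455743251078610782240)) (.cons (.rf (nat_lit 1541) (nat_lit 493858305440582043680)) (.cons (.br (nat_lit 8) (nat_lit 1) (.cons (.rf (nat_lit 1346) (nat_lit 455743251078610782240)) (.cons (.rf (nat_lit 1541) (nat_lit 493858305440582043680)) (.cons (.ev (nat_lit 4740885285641216131073) (nat_lit 1)) .nil)))) (.cons (.br (nat_lit 8) (nat_lit 1) (.cons (.rf (nat_lit 84)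 (nat_lit 12255832103)) (.cons (.rf (nat_lit 1541) (nat_lit 493858305440582043680)) (.cons (.ev (nat_lit 4740885285641216131073) (nat_lit 1)) .nil)))) .nil))))) .nil)))))),
 (.br (nat_lit 2) (nat_lit 1) (.cons (.rf (nat_lit 31) (nat_lit 377816290)) (.cons (.rf (nat_lit 1339) (nat_lit 392159107393)) (.cons (.rf (nat_lit 1339) (nat_lit 289083299874)) (.cons (.rf (nat_lit 1539) (nat_lit 492741412732994160672)) (.cons (.br (nat_lit 7) (nat_lit 1) (.cons (.rf (nat_lit 84) (nat_lit 14336465954)) (.cons (.rf (nat_lit 84) (nat_lit 14238656738)) (.cons (.rf (nat_lit 1542) (nat_lit 492741412732994160672)) (.cons (.br (nat_lit 8) (nat_lit 1) (.cons (.ev (nat_lit 4740885285641216131073) (nat_lit 1)) (.cons (.rf (nat_lit 84) (nat_lit 12093267018)) .nil))) .nil))))) .nil)))))),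
 (.br (nat_lit 12) (nat_lit 1) (.cons (.rf (nat_lit 1539) (nat_lit 492741412732994160672)) (.cons (.kr (nat_lit 4722366482869645213696) (nat_lit 79228162514264337593543950336) (nat_lit 9) (nat_lit 0)) (.cons (.ev (nat_lit 79537647524085965236757070081) (nat_lit 1)) (.cons (.br (nat_lit 2) (nat_lit 1) (.cons (.kr (nat_lit 79228162514264338693055578368) (nat_lit 309485009821345068741623808) (nat_lit 1) (nat_lit 0)) (.cons (.ev (nat_lit 79228167236631101938182717441) (nat_lit 1)) (.cons (.kr (nat_lit 158456325028528676286599528704) (nat_lit 309489732187827938386837504) (nat_lit 1) (nat_lit 0)) .nil)))) .nil))))),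
 (.br (nat_lit 11) (nat_lit 1) (.cons (.rf (nat_lit 1539) (nat_lit 493858305440582043680)) (.cons (.rf (nat_lit 1542) (nat_lit 493858305440582043680)) (.cons (.rf (nat_lit 1543) (nat_lit 493858305440582043680)) (.cons (.br (nat_lit 12) (nat_lit 1) (.cons (.rf (nat_lit 1539) (nat_lit 492741412732994160672)) (.cons (.rf (nat_lit 1542) (nat_lit 492741412732994160672)) (.cons (.br (nat_lit 12) (nat_lit 1) (.cons (.rf (nat_lit 1539) (nat_lit 492741412732994160672)) (.cons (.rf (nat_lit 1542) (nat_lit 492741412732994160672)) (.cons (.ev (nat_lit 79537647524085965236757070081) (nat_lit 1)) (.cons (.kr (nat_lit 309485009821345068724781056) (nat_lit 79228162514264337593543950336) (nat_lit 11) (nat_lit 0)) .nil))))) (.cons (.rf (nat_lit 1544) (nat_lit 493858305440582043680)) (.cons (.br (nat_lit 12) (nat_lit 1) (.cons (.rf (nat_lit 1539) (nat_lit 492741412732994160672)) (.cons (.ev (nat_lit 79228167236631103037677502721) (nat_lit 1)) (.cons (.kr (nat_lit 309485009821345068724781056) (nat_lit 79228162514264337593543950336)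 (nat_lit 11) (nat_lit 0)) (.cons (.rf (nat_lit 1544) (nat_lit 493858305440582043680)) .nil))))) .nil)))))) .nil))))),
 (.br (nat_lit 11) (nat_lit 1) (.cons (.rf (nat_lit 1539) (nat_lit 493858305440582043680)) (.cons (.rf (nat_lit 1542) (nat_lit 493858305440582043680)) (.cons (.rf (nat_lit 1543) (nat_lit 493858305440582043680)) (.cons (.rf (nat_lit 1545) (nat_lit 493858305440582043680)) (.cons (.br (nat_lit 11) (nat_lit 1) (.cons (.rf (nat_lit 1539) (nat_lit 493858305440582043680)) (.cons (.rf (nat_lit 1542) (nat_lit 493858305440582043680)) (.cons (.rf (nat_lit 1543) (nat_lit 493858305440582043680)) (.cons (.rf (nat_lit 1545) (nat_lit 493858305440582043680)) .nil))))) .nil)))))),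
 (.br (nat_lit 12) (nat_lit 1) (.cons (.rf (nat_lit 1539) (nat_lit 492741412732994160672)) (.cons (.rf (nat_lit 1542) (nat_lit 492741412732994160672)) (.cons (.rf (nat_lit 1546) (nat_lit 492741412732994160672)) (.cons (.br (nat_lit 12) (nat_lit 1) (.cons (.rf (nat_lit 1539) (nat_lit 492741412732994160672)) (.cons (.ev (nat_lit 79228167236631103037677502721) (nat_lit 1)) (.cons (.rf (nat_lit 1546) (nat_lit 492741412732994160672)) .nil)))) .nil))))),
 (.br (nat_lit 12) (nat_lit 1) (.cons (.rf (nat_lit 1539) (nat_lit 492741412732994160672)) (.cons (.rf (nat_lit 1542) (nat_lit 492741412732994160672)) (.cons (.rf (nat_lit 1546) (nat_lit 492741412732994160672)) (.cons (.rf (nat_lit 1547) (nat_lit 493858305440582043680)) (.cons (.br (nat_lit 12) (nat_lit 1) (.cons (.rf (nat_lit 1539) (nat_lit 492741412732994160672)) (.cons (.rf (nat_lit 1542) (nat_lit 492741412732994160672)) (.cons (.rf (nat_lit 1546) (nat_lit 492741412732994160672)) (.cons (.rf (nat_lit 1547) (nat_lit 493858305440582043680)) .nil)))))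 .nil))))))]

theorem c49 : chkAll C T R L49 (nat_lit 1522) = true := by decide +kernel

theorem l49 : (nat_lit 1522) + L49.length = (nat_lit 1549) := by decide +kernel

/-- part of the certificates -/
def L50 : List Prf := [(.br (nat_lit 11) (nat_lit 1) (.cons (.rf (nat_lit 1539) (nat_lit 493858305440582043680)) (.cons (.rf (nat_lit 1542) (nat_lit 493858305440582043680)) (.cons (.rf (nat_lit 1546) (nat_lit 493858305440582043680)) (.cons (.rf (nat_lit 1548) (nat_lit 493858305440582043680)) (.cons (.br (nat_lit 11) (nat_lit 1) (.cons (.rf (nat_lit 1539) (nat_lit 493858305440582043680)) (.cons (.ev (nat_lit 309489732188110512858333441) (nat_lit 1)) (.cons (.rf (nat_lit 1546) (nat_lit 493858305440582043680)) (.cons (.rf (nat_lit 1548) (nat_lit 493858305440582043680)) .nil))))) .nil)))))),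
 (.br (nat_lit 11) (nat_lit 1) (.cons (.rf (nat_lit 1539) (nat_lit 493858305440582043680)) (.cons (.rf (nat_lit 1542) (nat_lit 493858305440582043680)) (.cons (.rf (nat_lit 1546) (nat_lit 493858305440582043680)) (.cons (.rf (nat_lit 1548) (nat_lit 493858305440582043680)) (.cons (.rf (nat_lit 1549) (nat_lit 493858305440582043680)) (.cons (.br (nat_lit 11) (nat_lit 1) (.cons (.rf (nat_lit 1539) (nat_lit 493858305440582043680)) (.cons (.rf (nat_lit 1542) (nat_lit 493858305440582043680)) (.cons (.rf (nat_lit 1546) (nat_lit 493858305440582043680)) (.cons (.rf (nat_lit 1548) (nat_lit 493858305440582043680)) (.cons (.rf (nat_lit 1549) (nat_lit 493858305440582043680)) .nil)))))) .nil))))))),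
 (.br (nat_lit 11) (nat_lit 1) (.cons (.rf (nat_lit 1339) (nat_lit 392259934242)) (.cons (.rf (nat_lit 82) (nat_lit 13165111330)) (.cons (.br (nat_lit 8) (nat_lit 1) (.cons (.ev (nat_lit 309489750634853487073099776) (nat_lit 1)) (.cons (.br (nat_lit 10) (nat_lit 1) (.cons (.rf (nat_lit 84) (nat_lit 12222536769)) (.cons (.br (nat_lit 12) (nat_lit 1) (.cons (.ev (nat_lit 79229371458530696300740018433) (nat_lit 1)) .nil)) .nil))) (.cons (.br (nat_lit 10) (nat_lit 1) (.cons (.br (nat_lit 12) (nat_lit 1) (.cons (.ev (nat_lit 79228167236631101938182717441) (nat_lit 1)) .nil)) (.cons (.rf (nat_lit 84) (nat_lit 12256091201)) .nil))) .nil)))) .nil)))),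
 (.br (nat_lit 11) (nat_lit 1) (.cons (.rf (nat_lit 1339) (nat_lit 392259934242)) (.cons (.rf (nat_lit 1343) (nat_lit 422357248034)) (.cons (.rf (nat_lit 1551) (nat_lit 493858305440582043680)) (.cons (.br (nat_lit 11) (nat_lit 1) (.cons (.rf (nat_lit 1339) (nat_lit 392259934242)) (.cons (.rf (nat_lit 82) (nat_lit 14238853154)) (.cons (.rf (nat_lit 1551) (nat_lit 493858305440582043680)) .nil)))) .nil))))),
 (.br (nat_lit 8) (nat_lit 1) (.cons (.rf (nat_lit 84) (nat_lit 14336465985)) (.cons (.ev (nat_lit 1213666632842676336066561) (nat_lit 1)) (.cons (.rf (nat_lit 84) (nat_lit 12255796298)) .nil)))),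
 (.br (nat_lit 1) (nat_lit 1) (.cons (.kr (nat_lit 1) (nat_lit 18446744073709551616) (nat_lit 0) (nat_lit 1)) (.cons (.rf (nat_lit 29) (nat_lit 8620353)) (.cons (.rf (nat_lit 1552) (nat_lit 493858305440582043680)) (.cons (.rf (nat_lit 1552) (nat_lit 492741412732994160672)) (.cons (.br (nat_lit 10) (nat_lit 1) (.cons (.zr (nat_lit 144678142341087232) (nat_lit 2417870085974431570592256) (nat_lit 5) (nat_lit 5)) (.cons (.rf (nat_lit 1553) (nat_lit 493858305440582043680)) (.cons (.rf (nat_lit 1553) (nat_lit 492741412732994160672)) (.cons (.rf (nat_lit 1343) (nat_lit 388064618530)) .nil))))) .nil)))))),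
 (.br (nat_lit 7) (nat_lit 1) (.cons (.rf (nat_lit 82) (nat_lit 14336370753)) (.cons (.br (nat_lit 11) (nat_lit 1) (.cons (.br (nat_lit 11) (nat_lit 1) (.cons (.ev (nat_lit 309499195368100701357080577) (nat_lit 2)) .nil)) (.cons (.br (nat_lit 11) (nat_lit 1) (.cons (.ev (nat_lit 309499195368100701357080577) (nat_lit 2)) .nil)) .nil))) (.cons (.rf (nat_lit 84) (nat_lit 12255995969)) .nil)))),
 (.br (nat_lit 8) (nat_lit 1) (.cons (.rf (nat_lit 58) (nat_lit 8723521)) (.cons (.rf (nat_lit 1339) (nat_lit 392159369250)) (.cons (.ev (nat_lit 1213666632841576841281793) (nat_lit 1)) (.cons (.rf (nat_lit 1555) (nat_lit 493858305440582043680)) .nil))))),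
 (.br (nat_lit 8) (nat_lit 1) (.cons (.rf (nat_lit 84) (nat_lit 14336370753)) (.cons (.br (nat_lit 11) (nat_lit 1) (.cons (.br (nat_lit 13) (nat_lit 1) (.cons (.zr (nat_lit 55556406102754066944) (nat_lit 309494454554592287287017473) (nat_lit 5) (nat_lit 0)) (.cons (.zr (nat_lit 158456325084085083488915554304) (nat_lit 23611832695827498008833) (nat_lit 5) (nat_lit 6)) .nil))) (.cons (.br (nat_lit 12) (nat_lit 1) (.cons (.zr (nat_lit 55556406102754066944) (nat_lit 309494454554592287287017473) (nat_lit 5) (nat_lit 0)) (.cons (.zr (nat_lit 28334198899416945460224) (nat_lit 20282410812670084891352978423811) (nat_lit 15) (nat_lit 4)) .nil))) .nil))) (.cons (.rf (nat_lit 84) (nat_lit 12255799367)) .nil)))),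
 (.br (nat_lit 1) (nat_lit 1) (.cons (.rf (nat_lit 29) (nat_lit 8718561)) (.cons (.kr (nat_lit 16842753) (nat_lit 18446745173221179648) (nat_lit 0) (nat_lit 4)) (.cons (.rf (nat_lit 1556) (nat_lit 493858305440582043680)) (.cons (.rf (nat_lit 1556) (nat_lit 492741412732994160672)) (.cons (.br (nat_lit 7) (nat_lit 1) (.cons (.zr (nat_lit 144678142341087232) (nat_lit 2417870085974431570592256) (nat_lit 5) (nat_lit 5)) (.cons (.rf (nat_lit 1557) (nat_lit 493858305440582043680)) (.cons (.rf (nat_lit 1557) (nat_lit 492741412732994160672)) (.cons (.rf (nat_lit 1343) (nat_lit 388067761186)) .nil))))) .nil)))))),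
 (.br (nat_lit 10) (nat_lit 1) (.cons (.ev (nat_lit 310693954087703775920849153) (nat_lit 1)) (.cons (.rf (nat_lit 84) (nat_lit 8972904482)) .nil))),
 (.br (nat_lit 1) (nat_lit 1) (.cons (.rf (nat_lit 31) (nat_lit 377719105)) (.cons (.rf (nat_lit 1339) (nat_lit 289183864897)) (.cons (.br (nat_lit 13) (nat_lit 1) (.cons (.ev (nat_lit 1213666777802297982517760) (nat_lit 2)) (.cons (.ev (nat_lit 309489732188110512858333441) (nat_lit 1)) (.cons (.ev (nat_lit 79228167255077847111387054336) (nat_lit 1)) .nil)))) (.cons (.br (nat_lit 11) (nat_lit 1) (.cons (.rf (nat_lit 84) (nat_lit 14238689505)) (.cons (.ev (nat_lit 309489732188110512858333441) (nat_lit 1)) (.cons (.rf (nat_lit 1559) (nat_lit 493858305440582043680)) .nil)))) .nil))))),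
 (.br (nat_lit 11) (nat_lit 1) (.cons (.rf (nat_lit 84) (nat_lit 14238689319)) (.cons (.br (nat_lit 12) (nat_lit 1) (.cons (.ev (nat_lit 310693935640959702211297536) (nat_lit 1)) (.cons (.zr (nat_lit 55556405003275993088) (nat_lit 158456329750895440635516420097) (nat_lit 5) (nat_lit 0)) .nil))) (.cons (.ev (nat_lit 309489750634854586567885056) (nat_lit 1)) .nil)))),
 (.br (nat_lit 1) (nat_lit 1) (.cons (.rf (nat_lit 84) (nat_lit 14238689319)) (.cons (.rf (nat_lit 1561) (nat_lit 492741412732994160672)) (.cons (.br (nat_lit 12) (nat_lit 1) (.cons (.zr (nat_lit 309489732187830137393382144) (nat_lit 37037884814783414273) (nat_lit 5) (nat_lit 4)) (.cons (.zr (nat_lit 20282410812614527643011482910720) (nat_lit 14167099730088207385089) (nat_lit 5) (nat_lit 6)) .nil))) .nil)))),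
 (.br (nat_lit 11) (nat_lit 1) (.cons (.rf (nat_lit 84) (nat_lit 13164947681)) (.cons (.rf (nat_lit 1559) (nat_lit 458117738797769787424)) (.cons (.ev (nat_lit 309489732188110512858333441) (nat_lit 1)) .nil)))),
 (.br (nat_lit 12) (nat_lit 1) (.cons (.ev (nat_lit 79537647542532709310466621696) (nat_lit 1)) .nil)),
 (.br (nat_lit 7) (nat_lit 1) (.cons (.rf (nat_lit 84) (nat_lit 13164947681)) (.cons (.br (nat_lit 11) (nat_lit 1) (.cons (.ev (nat_lit 79538861172271780165400461568) (nat_lit 1)) (.cons (.rf (nat_lit 1564) (nat_lit 493858305440582043680)) .nil))) (.cons (.br (nat_lit 12) (nat_lit 1) (.cons (.br (nat_lit 12) (nat_lit 1) (.cons (.zr (nat_lit 396146857200420609936570188035) (nat_lit 928469270638690516198227968) (nat_lit 10) (nat_lit 6)) .nil)) (.cons (.br (nat_lit 11) (nat_lit 1) (.cons (.zr (nat_lit 396146857200420609936570188035) (nat_lit 928469270638690516198227968) (nat_lit 10) (nat_lit 6)) .nil)) .nil))) .nil)))),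
 (.br (nat_lit 11) (nat_lit 1) (.cons (.rf (nat_lit 1559) (nat_lit 458117738797769787424)) (.cons (.rf (nat_lit 1565) (nat_lit 493858305440582043680)) (.cons (.br (nat_lit 7) (nat_lit 1) (.cons (.ev (nat_lit 310693954087703775920849153) (nat_lit 1)) (.cons (.zr (nat_lit 55556405003275993088) (nat_lit 618974742009455585878081537) (nat_lit 5) (nat_lit 0)) (.cons (.br (nat_lit 10) (nat_lit 1) (.cons (.ev (nat_lit 158457548176932931371779949058) (nat_lit 2)) .nil)) .nil)))) .nil)))),
 (.br (nat_lit 11) (nat_lit 1) (.cons (.rf (nat_lit 1563) (nat_lit 493858305440582043680)) (.cons (.rf (nat_lit 1565) (nat_lit 493858305440582043680)) (.cons (.rf (nat_lit 1566) (nat_lit 493858305440582043680)) (.cons (.br (nat_lit 11) (nat_lit 1) (.cons (.ev (nat_lit 309489732188110512858333441) (nat_lit 1)) (.cons (.rf (nat_lit 1565) (nat_lit 493858305440582043680)) (.cons (.rf (nat_lit 1566) (nat_lit 493858305440582043680)) .nil)))) .nil))))),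
 (.br (nat_lit 11) (nat_lit 1) (.cons (.ev (nat_lit 1213666777802297982517760) (nat_lit 2)) (.cons (.kr (nat_lit 4722366482869645213696) (nat_lit 79228162514264337593543950336) (nat_lit 9) (nat_lit 0)) (.cons (.br (nat_lit 1) (nat_lit 1) (.cons (.ev (nat_lit 1213666777802297982517760) (nat_lit 2)) (.cons (.ev (nat_lit 79228167255077846011892269056) (nat_lit 1)) (.cons (.zr (nat_lit 20282409603652031556355289579520) (nat_lit 4840425644943585367294978) (nat_lit 10) (nat_lit 5)) .nil)))) .nil)))),
 (.br (nat_lit 11) (nat_lit 1) (.cons (.ev (nat_lit 309489750634854586567885056) (nat_lit 1)) (.cons (.br (nat_lit 13) (nat_lit 1) (.cons (.zr (nat_lit 309489732187830137393382144) (nat_lit 37037884814783414273) (nat_lit 5) (nat_lit 4)) (.cons (.zr (nat_lit 4777922887872921206784) (nat_lit 159075295048171647903320768513) (nat_lit 5) (nat_lit 0)) .nil))) (.cons (.zr (nat_lit 55556405003275993088) (nat_lit 618974742009455585878081537) (nat_lit 5) (nat_lit 0)) .nil)))),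
 (.br (nat_lit 12) (nat_lit 1) (.cons (.rf (nat_lit 1567) (nat_lit 493858305440582043680)) (.cons (.rf (nat_lit 1568) (nat_lit 493858305440582043680)) (.cons (.rf (nat_lit 1569) (nat_lit 493858305440582043680)) (.cons (.br (nat_lit 12) (nat_lit 1) (.cons (.rf (nat_lit 1567) (nat_lit 493858305440582043680)) (.cons (.rf (nat_lit 1568) (nat_lit 493858305440582043680)) (.cons (.rf (nat_lit 1569) (nat_lit 493858305440582043680)) .nil)))) .nil))))),
 (.br (nat_lit 12) (nat_lit 1) (.cons (.rf (nat_lit 1567) (nat_lit 493858305440582043680)) (.cons (.rf (nat_lit 1570) (nat_lit 493858305440582043680)) (.cons (.br (nat_lit 12) (nat_lit 1) (.cons (.rf (nat_lit 1567) (nat_lit 493858305440582043680)) (.cons (.kr (nat_lit 4722366482869645213696) (nat_lit 79228162514264337593543950336) (nat_lit 9) (nat_lit 0)) (.cons (.ev (nat_lit 79228167236631101938182717441) (nat_lit 1)) .nil)))) (.cons (.br (nat_lit 12) (nat_lit 1) (.cons (.ev (nat_lit 79228176699811093226176249857) (nat_lit 2)) (.cons (.rf (nat_lit 1570)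 (nat_lit 493858305440582043680)) (.cons (.ev (nat_lit 79228167236631101938182717441) (nat_lit 1)) .nil)))) .nil))))),
 (.br (nat_lit 12) (nat_lit 1) (.cons (.rf (nat_lit 1567) (nat_lit 493858305440582043680)) (.cons (.rf (nat_lit 1570) (nat_lit 493858305440582043680)) (.cons (.rf (nat_lit 1571) (nat_lit 493858305440582043680)) (.cons (.br (nat_lit 12) (nat_lit 1) (.cons (.rf (nat_lit 1567) (nat_lit 493858305440582043680)) (.cons (.rf (nat_lit 1570) (nat_lit 493858305440582043680)) (.cons (.ev (nat_lit 79228167236631101938182717441) (nat_lit 1)) .nil)))) .nil))))),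
 (.br (nat_lit 8) (nat_lit 1) (.cons (.rf (nat_lit 1550) (nat_lit 493858305440582043680)) (.cons (.rf (nat_lit 1554) (nat_lit 493858305440582043680)) (.cons (.rf (nat_lit 1558) (nat_lit 493858305440582043680)) (.cons (.br (nat_lit 7) (nat_lit 1) (.cons (.br (nat_lit 10) (nat_lit 1) (.cons (.rf (nat_lit 31) (nat_lit 377817313)) (.cons (.rf (nat_lit 31) (nat_lit 411371745)) (.cons (.ev (nat_lit 1213703671290445401620994) (nat_lit 2)) .nil)))) (.cons (.ev (nat_lit 1213666632842676336066561) (nat_lit 1)) (.cons (.rf (nat_lit 1560) (nat_lit 493858305440582043680)) (.cons (.rf (nat_lit 1560) (nat_lit 492741412732994160672)) (.cons (.br (nat_lit 11) (nat_lit 1) (.cons (.rf (nat_lit 1561) (nat_lit 493858305440582043680)) (.cons (.rf (nat_lit 1562) (nat_lit 493858305440582043680)) (.cons (.br (nat_lit 11) (nat_lit 1) (.cons (.rf (nat_lit 1561) (nat_lit 493858305440582043680)) (.cons (.rf (nat_lit 1562) (nat_lit 493858305440582043680)) (.cons (.zr (nat_lit 55556405003275993088) (nat_lit 618974742009455585878081537)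 (nat_lit 5) (nat_lit 0)) .nil)))) (.cons (.br (nat_lit 11) (nat_lit 1) (.cons (.ev (nat_lit 309489750634854586567885056) (nat_lit 1)) (.cons (.rf (nat_lit 1562) (nat_lit 493858305440582043680)) (.cons (.zr (nat_lit 55556405003275993088) (nat_lit 618974742009455585878081537) (nat_lit 5) (nat_lit 0)) .nil)))) .nil))))) .nil)))))) (.cons (.br (nat_lit 12) (nat_lit 1) (.cons (.rf (nat_lit 1567) (nat_lit 493858305440582043680)) (.cons (.rf (nat_lit 1570) (nat_lit 493858305440582043680)) (.cons (.rf (nat_lit 1571) (nat_lit 493858305440582043680)) (.cons (.rf (nat_lit 1572) (nat_lit 493858305440582043680)) (.cons (.br (nat_lit 12) (nat_lit 1) (.cons (.rf (nat_lit 1567) (nat_lit 493858305440582043680)) (.cons (.rf (nat_lit 1570) (nat_lit 493858305440582043680)) (.cons (.rf (nat_lit 1571) (nat_lit 493858305440582043680)) (.cons (.rf (nat_lit 1572) (nat_lit 493858305440582043680)) .nil))))) .nil)))))) .nil)))))),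
 (.br (nat_lit 8) (nat_lit 1) (.cons (.rf (nat_lit 1550) (nat_lit 493858305440582043680)) (.cons (.rf (nat_lit 1554) (nat_lit 493858305440582043680)) (.cons (.rf (nat_lit 1558) (nat_lit 493858305440582043680)) (.cons (.rf (nat_lit 1573) (nat_lit 493858305440582043680)) (.cons (.rf (nat_lit 1573) (nat_lit 492741412732994160672)) (.cons (.br (nat_lit 8) (nat_lit 1) (.cons (.ev (nat_lit 18447025548703105024) (nat_lit 1)) (.cons (.rf (nat_lit 1554) (nat_lit 493858305440582043680)) (.cons (.rf (nat_lit 1558) (nat_lit 493858305440582043680)) (.cons (.rf (nat_lit 1573) (nat_lit 493858305440582043680)) (.cons (.rf (nat_lit 1573) (nat_lit 492741412732994160672)) .nil)))))) .nil))))))),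
 (.br (nat_lit 11) (nat_lit 1) (.cons (.rf (nat_lit 82) (nat_lit 13165201447)) (.cons (.rf (nat_lit 1339) (nat_lit 391991597095)) (.cons (.br (nat_lit 2) (nat_lit 1) (.cons (.ev (nat_lit 309489750634853487073099776) (nat_lit 1)) (.cons (.br (nat_lit 8) (nat_lit 1) (.cons (.ev (nat_lit 79538856449977636360458076161) (nat_lit 1)) (.cons (.br (nat_lit 12) (nat_lit 1) (.cons (.zr (nat_lit 621387981962388249004540160) (nat_lit 79228171959071331251709280263) (nat_lit 10) (nat_lit 4)) .nil)) .nil))) (.cons (.br (nat_lit 13) (nat_lit 1) (.cons (.rf (nat_lit 84) (nat_lit 12255832289)) (.cons (.ev (nat_lit 20282410817299856521450366238721) (nat_lit 1)) .nil))) .nil)))) .nil)))),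
 (.br (nat_lit 11) (nat_lit 1) (.cons (.rf (nat_lit 1343) (nat_lit 422360385575)) (.cons (.rf (nat_lit 1339) (nat_lit 391991597095)) (.cons (.rf (nat_lit 1575) (nat_lit 493858305440582043680)) (.cons (.br (nat_lit 11) (nat_lit 1) (.cons (.rf (nat_lit 82) (nat_lit 14238943271)) (.cons (.rf (nat_lit 1339) (nat_lit 391991597095)) (.cons (.rf (nat_lit 1575) (nat_lit 493858305440582043680)) .nil)))) .nil))))),
 (.br (nat_lit 8) (nat_lit 1) (.cons (.rf (nat_lit 84) (nat_lit 13262465249)) (.cons (.rf (nat_lit 84) (nat_lit 12222245090)) (.cons (.br (nat_lit 11) (nat_lit 1) (.cons (.br (nat_lit 11) (nat_lit 1) (.cons (.ev (nat_lit 313111842621268913777999874) (nat_lit 2)) .nil)) (.cons (.br (nat_lit 11) (nat_lit 1) (.cons (.ev (nat_lit 313111842621268913777999874) (nat_lit 2)) .nil)) .nil))) .nil))))]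

theorem c50 : chkAll C T R L50 (nat_lit 1549) = true := by decide +kernel

theorem l50 : (nat_lit 1549) + L50.length = (nat_lit 1578) := by decide +kernel

/-- part of the certificates -/
def L51 : List Prf := [(.br (nat_lit 1) (nat_lit 1) (.cons (.rf (nat_lit 29) (nat_lit 8723521)) (.cons (.rf (nat_lit 58) (nat_lit 8723490)) (.cons (.rf (nat_lit 1576) (nat_lit 493858305440582043680)) (.cons (.rf (nat_lit 1576) (nat_lit 492741412732994160672)) (.cons (.br (nat_lit 2) (nat_lit 1) (.cons (.zr (nat_lit 144678142341087232) (nat_lit 2417870085974431570592256) (nat_lit 5) (nat_lit 5)) (.cons (.rf (nat_lit 1577) (nat_lit 15395881028740548640)) (.cons (.rf (nat_lit 1577) (nat_lit 15431909825759512608)) (.cons (.rf (nat_lit 1343) (nat_lit 388067756071)) .nil))))) .nil)))))),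
 (.br (nat_lit 1) (nat_lit 1) (.cons (.rf (nat_lit 31) (nat_lit 377560385)) (.cons (.rf (nat_lit 1339) (nat_lit 289183701217)) (.cons (.br (nat_lit 10) (nat_lit 1) (.cons (.ev (nat_lit 309485009893403766586146816) (nat_lit 1)) (.cons (.ev (nat_lit 79228162532783140365114867713) (nat_lit 1)) (.cons (.br (nat_lit 12) (nat_lit 1) (.cons (.ev (nat_lit 79538856449977636360458076161) (nat_lit 1)) (.cons (.zr (nat_lit 3626832799076125832642560) (nat_lit 158456329750895440631238361089) (nat_lit 5) (nat_lit 3)) .nil))) .nil)))) (.cons (.br (nat_lit 10) (nat_lit 1) (.cons (.ev (nat_lit 309485009893403766586146816) (nat_lit 1)) (.cons (.br (nat_lit 12) (nat_lit 1) (.cons (.ev (nat_lit 79848346237650095382082945539) (nat_lit 2)) (.cons (.ev (nat_lit 79228167236631101938182717441) (nat_lit 1)) .nil))) (.cons (.br (nat_lit 13) (nat_lit 1) (.cons (.ev (nat_lit 20283029796782823884320946585859) (nat_lit 2)) (.cons (.ev (nat_lit 20282409608374108965514741088513) (nat_lit 1)) .nil))) .nil)))) .nil))))),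
 (.br (nat_lit 12) (nat_lit 1) (.cons (.kr (nat_lit 20361637766166006819134833164544) (nat_lit 310693954087703771609104384) (nat_lit 1) (nat_lit 0)) .nil)),
 (.br (nat_lit 10) (nat_lit 1) (.cons (.ev (nat_lit 310703417267698362466107905) (nat_lit 2)) (.cons (.br (nat_lit 11) (nat_lit 1) (.cons (.ev (nat_lit 79228167236631101938182717441) (nat_lit 1)) (.cons (.rf (nat_lit 1580) (nat_lit 493858305440582043680)) .nil))) (.cons (.br (nat_lit 11) (nat_lit 1) (.cons (.zr (nat_lit 3626832799076125832642560) (nat_lit 618974742009455581600022529) (nat_lit 5) (nat_lit 3)) (.cons (.ev (nat_lit 20282409608392555709588450640128) (nat_lit 1)) .nil))) .nil)))),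
 (.br (nat_lit 12) (nat_lit 1) (.cons (.rf (nat_lit 1581) (nat_lit 492741412732994160672)) (.cons (.ev (nat_lit 309489732188109413363548161) (nat_lit 1)) (.cons (.br (nat_lit 11) (nat_lit 1) (.cons (.ev (nat_lit 310703417267698362466107905) (nat_lit 2)) (.cons (.ev (nat_lit 309489732188109413363548161) (nat_lit 1)) (.cons (.rf (nat_lit 1410) (nat_lit 455743251078609766432)) .nil)))) .nil)))),
 (.br (nat_lit 11) (nat_lit 1) (.cons (.rf (nat_lit 1581) (nat_lit 493858305440582043680)) (.cons (.ev (nat_lit 309489732188109413363548161) (nat_lit 1)) (.cons (.br (nat_lit 12) (nat_lit 1) (.cons (.rf (nat_lit 1581) (nat_lit 492741412732994160672)) (.cons (.ev (nat_lit 79228167236631101938182717441) (nat_lit 1)) (.cons (.kr (nat_lit 309485009821345068724781056) (nat_lit 79228162514264337593543950336) (nat_lit 11) (nat_lit 0)) .nil)))) .nil)))),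
 (.br (nat_lit 12) (nat_lit 1) (.cons (.kr (nat_lit 20361637766166006819134833164544) (nat_lit 310693954087703771609104384) (nat_lit 1) (nat_lit 0)) .nil)),
 (.br (nat_lit 2) (nat_lit 1) (.cons (.rf (nat_lit 31) (nat_lit 377527618)) (.cons (.rf (nat_lit 1339) (nat_lit 289183701217)) (.cons (.br (nat_lit 10) (nat_lit 1) (.cons (.ev (nat_lit 1208944338697771898896384) (nat_lit 1)) (.cons (.br (nat_lit 11) (nat_lit 1) (.cons (.ev (nat_lit 79537647542532709310466621696) (nat_lit 1)) (.cons (.zr (nat_lit 3626832799076125832642560) (nat_lit 618974742009455581600022529) (nat_lit 5) (nat_lit 3)) .nil))) (.cons (.br (nat_lit 11) (nat_lit 1) (.cons (.rf (nat_lit 1584) (nat_lit 493858305440582043680)) (.cons (.ev (nat_lit 20282719088661563826614325739521) (nat_lit 1)) .nil))) .nil)))) (.cons (.br (nat_lit 10) (nat_lit 1) (.cons (.ev (nat_lit 1208944338697771898896384) (nat_lit 1)) (.cons (.br (nat_lit 11) (nat_lit 1) (.cons (.zr (nat_lit 3626832799076125832642560) (nat_lit 618974742009455581600022529)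 (nat_lit 5) (nat_lit 3)) (.cons (.ev (nat_lit 20282410817299856521450366238721) (nat_lit 1)) .nil))) (.cons (.rf (nat_lit 84) (nat_lit 12093466689)) .nil)))) .nil))))),
 (.br (nat_lit 11) (nat_lit 1) (.cons (.rf (nat_lit 84) (nat_lit 8971692071)) (.cons (.br (nat_lit 12) (nat_lit 1) (.cons (.ev (nat_lit 79537647542532709310466621696) (nat_lit 1)) .nil)) .nil))),
 (.br (nat_lit 13) (nat_lit 1) (.cons (.kr (nat_lit 309485009821626543718268928) (nat_lit 20282410812577490038580720959488) (nat_lit 3) (nat_lit 0)) (.cons (.rf (nat_lit 1386) (nat_lit 455742969603634079776)) .nil))),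
 (.br (nat_lit 1) (nat_lit 1) (.cons (.rf (nat_lit 31) (nat_lit 377560385)) (.cons (.rf (nat_lit 1339) (nat_lit 289183701217)) (.cons (.br (nat_lit 10) (nat_lit 1) (.cons (.ev (nat_lit 1208944338697771898896384) (nat_lit 1)) (.cons (.rf (nat_lit 1586) (nat_lit 493858305440582043680)) (.cons (.rf (nat_lit 1587) (nat_lit 493858305440582043680)) .nil)))) (.cons (.br (nat_lit 10) (nat_lit 1) (.cons (.ev (nat_lit 1208944338697771898896384) (nat_lit 1)) (.cons (.br (nat_lit 13) (nat_lit 1) (.cons (.ev (nat_lit 20282410817318303265524075790336) (nat_lit 1)) (.cons (.ev (nat_lit 20282412045189001387328611484162) (nat_lit 3)) .nil))) (.cons (.rf (nat_lit 84) (nat_lit 12093466658)) .nil)))) .nil))))),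
 (.br (nat_lit 11) (nat_lit 1) (.cons (.rf (nat_lit 1585) (nat_lit 493858305440582043680)) (.cons (.rf (nat_lit 1588) (nat_lit 493858305440582043680)) (.cons (.ev (nat_lit 1208944338697771898896384) (nat_lit 1)) (.cons (.br (nat_lit 10) (nat_lit 1) (.cons (.br (nat_lit 12) (nat_lit 1) (.cons (.zr (nat_lit 3626832799076108652969984) (nat_lit 618974742009455585894858753) (nat_lit 5) (nat_lit 0)) (.cons (.zr (nat_lit 928455029464037405247930624) (nat_lit 40564821629877346841501768876033) (nat_lit 5) (nat_lit 4)) .nil))) (.cons (.ev (nat_lit 309489732188109413363548161) (nat_lit 1)) (.cons (.br (nat_lit 1) (nat_lit 1) (.cons (.zr (nat_lit 3626832799076108652969984) (nat_lit 618974742009455585894858753) (nat_lit 5) (nat_lit 0)) (.cons (.ev (nat_lit 79537652264970967203956392193) (nat_lit 1)) (.cons (.br (nat_lit 2) (nat_lit 1) (.cons (.ev (nat_lit 80160249098894778414854570754) (nat_lit 2)) .nil)) .nil)))) (.cons (.ev (nat_lit 20282719093402305278533835948033) (nat_lit 1)) .nil))))) .nil))))),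
 (.br (nat_lit 8) (nat_lit 1) (.cons (.rf (nat_lit 1550) (nat_lit 493858305440582043680)) (.cons (.rf (nat_lit 1574) (nat_lit 493858305440582043680)) (.cons (.rf (nat_lit 1578) (nat_lit 493858305440582043680)) (.cons (.br (nat_lit 2) (nat_lit 1) (.cons (.br (nat_lit 10) (nat_lit 1) (.cons (.rf (nat_lit 31) (nat_lit 377822273)) (.cons (.rf (nat_lit 31) (nat_lit 411376705)) (.cons (.br (nat_lit 11) (nat_lit 1) (.cons (.br (nat_lit 13) (nat_lit 1) (.cons (.zr (nat_lit 3626832799076108652969984) (nat_lit 618974742009455585894858753) (nat_lit 5) (nat_lit 0)) (.cons (.zr (nat_lit 3626832799076108652969984) (nat_lit 158456329750895440635533197313) (nat_lit 5) (nat_lit 0)) .nil))) (.cons (.br (nat_lit 12) (nat_lit 1) (.cons (.zr (nat_lit 3626832799076108652969984) (nat_lit 618974742009455585894858753) (nat_lit 5) (nat_lit 0)) (.cons (.kr (nat_lit 20282409603651742481541289214208) (nat_lit 1208944266358702884323328) (nat_lit 1) (nat_lit 0)) .nil))) .nil))) .nil)))) (.cons (.ev (nat_lit 1213666632842676336066561)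 (nat_lit 1)) (.cons (.rf (nat_lit 1579) (nat_lit 493858305440582043680)) (.cons (.rf (nat_lit 1579) (nat_lit 492741412732994160672)) (.cons (.br (nat_lit 11) (nat_lit 1) (.cons (.rf (nat_lit 1581) (nat_lit 493858305440582043680)) (.cons (.rf (nat_lit 1582) (nat_lit 493858305440582043680)) (.cons (.rf (nat_lit 1583) (nat_lit 493858305440582043680)) (.cons (.br (nat_lit 12) (nat_lit 1) (.cons (.rf (nat_lit 1581) (nat_lit 492741412732994160672)) (.cons (.rf (nat_lit 1582) (nat_lit 492741412732994160672)) (.cons (.rf (nat_lit 1583) (nat_lit 493858305440582043680)) (.cons (.rf (nat_lit 1410) (nat_lit 455743251078609766432)) .nil))))) .nil))))) .nil)))))) (.cons (.br (nat_lit 11) (nat_lit 1) (.cons (.rf (nat_lit 1585) (nat_lit 493858305440582043680)) (.cons (.rf (nat_lit 1588) (nat_lit 493858305440582043680)) (.cons (.ev (nat_lit 1208944338697771898896384) (nat_lit 1)) (.cons (.rf (nat_lit 1589) (nat_lit 493858305440582043680)) (.cons (.br (nat_lit 11) (nat_lit 1) (.cons (.rf (nat_lit 1585) (nat_lit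 493858305440582043680)) (.cons (.rf (nat_lit 1588) (nat_lit 493858305440582043680)) (.cons (.ev (nat_lit 1208944338697771898896384) (nat_lit 1)) (.cons (.rf (nat_lit 1589) (nat_lit 493858305440582043680)) .nil))))) .nil)))))) .nil)))))),
 (.br (nat_lit 8) (nat_lit 1) (.cons (.rf (nat_lit 1550) (nat_lit 493858305440582043680)) (.cons (.rf (nat_lit 1574) (nat_lit 493858305440582043680)) (.cons (.rf (nat_lit 1578) (nat_lit 493858305440582043680)) (.cons (.rf (nat_lit 1590) (nat_lit 493858305440582043680)) (.cons (.rf (nat_lit 1590) (nat_lit 492741412732994160672)) (.cons (.br (nat_lit 8) (nat_lit 1) (.cons (.rf (nat_lit 1550) (nat_lit 493858305440582043680)) (.cons (.rf (nat_lit 1574) (nat_lit 493858305440582043680)) (.cons (.rf (nat_lit 1578) (nat_lit 493858305440582043680)) (.cons (.rf (nat_lit 1590) (nat_lit 493858305440582043680)) (.cons (.rf (nat_lit 1590) (nat_lit 492741412732994160672)) .nil)))))) .nil))))))),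
 (.br (nat_lit 6) (nat_lit 1) (.cons (.br (nat_lit 7) (nat_lit 1) (.cons (.kr (nat_lit 281474976710656) (nat_lit 72057594037927936) (nat_lit 6) (nat_lit 0)) .nil)) .nil)),
 (.br (nat_lit 2) (nat_lit 1) (.cons (.rf (nat_lit 31) (nat_lit 204543008)) (.cons (.rf (nat_lit 31) (nat_lit 238097440)) (.cons (.br (nat_lit 6) (nat_lit 1) (.cons (.rf (nat_lit 1592) (nat_lit 9043225708576)) (.cons (.br (nat_lit 6) (nat_lit 1) (.cons (.rf (nat_lit 1592) (nat_lit 9043225708576)) .nil)) .nil))) .nil)))),
 (.br (nat_lit 2) (nat_lit 1) (.cons (.rf (nat_lit 31) (nat_lit 377530594)) (.cons (.rf (nat_lit 1339) (nat_lit 289083038017)) (.cons (.br (nat_lit 7) (nat_lit 1) (.cons (.rf (nat_lit 84) (nat_lit 13165206562)) (.cons (.rf (nat_lit 84) (nat_lit 12092513345)) (.cons (.ev (nat_lit 1208944338698871427367168) (nat_lit 1)) .nil)))) (.cons (.br (nat_lit 7) (nat_lit 1) (.cons (.rf (nat_lit 84) (nat_lit 14238948386)) (.cons (.ev (nat_lit 1208944338698871427367168) (nat_lit 1)) (.cons (.br (nat_lit 11) (nat_lit 1)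 (.cons (.br (nat_lit 12) (nat_lit 1) (.cons (.ev (nat_lit 20839181608374940862736624713988) (nat_lit 3)) .nil)) (.cons (.ev (nat_lit 310693935640959702211297536) (nat_lit 1)) .nil))) .nil)))) .nil))))),
 (.br (nat_lit 12) (nat_lit 1) (.cons (.ev (nat_lit 1208944338698871427367168) (nat_lit 1)) (.cons (.ev (nat_lit 310693954087704875415633921) (nat_lit 1)) (.cons (.br (nat_lit 12) (nat_lit 1) (.cons (.ev (nat_lit 1208944338698871427367168) (nat_lit 1)) (.cons (.ev (nat_lit 310693954087704875415633921) (nat_lit 1)) .nil))) .nil)))),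
 (.br (nat_lit 7) (nat_lit 1) (.cons (.rf (nat_lit 84) (nat_lit 13165206593)) (.cons (.ev (nat_lit 1208944338698871427367168) (nat_lit 1)) (.cons (.br (nat_lit 11) (nat_lit 1) (.cons (.br (nat_lit 12) (nat_lit 1) (.cons (.zr (nat_lit 1547425049467013313914208256) (nat_lit 158458747639428160240308191745) (nat_lit 5) (nat_lit 9)) .nil)) (.cons (.ev (nat_lit 310693954087704875415633921) (nat_lit 1)) .nil))) .nil)))),
 (.br (nat_lit 2) (nat_lit 1) (.cons (.rf (nat_lit 84) (nat_lit 13165206593)) (.cons (.ev (nat_lit 1208944338698871427367168) (nat_lit 1)) (.cons (.br (nat_lit 11) (nat_lit 1) (.cons (.br (nat_lit 12) (nat_lit 1) (.cons (.zr (nat_lit 1547425049106725343724896256) (nat_lit 158458747639428160240308191745) (nat_lit 5) (nat_lit 4)) .nil)) (.cons (.ev (nat_lit 309489732188110512858333441) (nat_lit 1)) .nil))) .nil)))),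
 (.br (nat_lit 11) (nat_lit 1) (.cons (.rf (nat_lit 1596) (nat_lit 493858305440582043680)) (.cons (.rf (nat_lit 1597) (nat_lit 493858305440582043680)) (.cons (.br (nat_lit 13) (nat_lit 1) (.cons (.ev (nat_lit 20282720297587311384748974145793) (nat_lit 1)) (.cons (.ev (nat_lit 20282719093402305278533835948033) (nat_lit 1)) (.cons (.zr (nat_lit 237688114375592091088307880704) (nat_lit 1547429771473489692607905793) (nat_lit 5) (nat_lit 0)) .nil)))) .nil)))),
 (.br (nat_lit 11) (nat_lit 1) (.cons (.rf (nat_lit 1596) (nat_lit 493858305440582043680)) (.cons (.rf (nat_lit 1597) (nat_lit 493858305440582043680)) (.cons (.rf (nat_lit 1598) (nat_lit 493858305440582043680)) (.cons (.br (nat_lit 11) (nat_lit 1) (.cons (.ev (nat_lit 310693954087704875415633921) (nat_lit 1)) (.cons (.ev (nat_lit 309489732188110512858333441) (nat_lit 1)) (.cons (.rf (nat_lit 1598) (nat_lit 493858305440582043680)) .nil)))) .nil))))),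
 (.br (nat_lit 1) (nat_lit 1) (.cons (.ev (nat_lit 1208944338698871427367168) (nat_lit 1)) (.cons (.rf (nat_lit 58) (nat_lit 12814378)) (.cons (.br (nat_lit 12) (nat_lit 1) (.cons (.br (nat_lit 11) (nat_lit 1) (.cons (.zr (nat_lit 237684487598349417783907844096) (nat_lit 618988909108904194813722625) (nat_lit 5) (nat_lit 0)) .nil)) (.cons (.ev (nat_lit 79228162514336395191876845824) (nat_lit 1)) .nil))) .nil)))),
 (.br (nat_lit 12) (nat_lit 1) (.cons (.rf (nat_lit 1599) (nat_lit 493858305440582043680)) (.cons (.rf (nat_lit 1600) (nat_lit 493858305440582043680)) (.cons (.br (nat_lit 1) (nat_lit 1) (.cons (.br (nat_lit 11) (nat_lit 1) (.cons (.ev (nat_lit 309489732188110512858333441) (nat_lit 1)) .nil)) (.cons (.ev (nat_lit 310693935640959702211297536) (nat_lit 1)) (.cons (.br (nat_lit 7) (nat_lit 1) (.cons (.ev (nat_lit 309489732188110512858333441) (nat_lit 1)) .nil)) .nil)))) .nil)))),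
 (.br (nat_lit 12) (nat_lit 1) (.cons (.rf (nat_lit 1599) (nat_lit 493858305440582043680)) (.cons (.rf (nat_lit 1600) (nat_lit 493858305440582043680)) (.cons (.rf (nat_lit 1601) (nat_lit 493858305440582043680)) (.cons (.br (nat_lit 12) (nat_lit 1) (.cons (.rf (nat_lit 1599) (nat_lit 493858305440582043680)) (.cons (.rf (nat_lit 1600) (nat_lit 493858305440582043680)) (.cons (.rf (nat_lit 1601) (nat_lit 493858305440582043680)) .nil)))) .nil))))),
 (.br (nat_lit 12) (nat_lit 1) (.cons (.rf (nat_lit 1599) (nat_lit 493858305440582043680)) (.cons (.rf (nat_lit 1602) (nat_lit 493858305440582043680)) (.cons (.br (nat_lit 1) (nat_lit 1) (.cons (.ev (nat_lit 79228162532783140365114867713) (nat_lit 1)) (.cons (.br (nat_lit 2) (nat_lit 1) (.cons (.ev (nat_lit 20838555403690135214052629219074) (nat_lit 3)) .nil)) (.cons (.br (nat_lit 2) (nat_lit 1) (.cons (.zr (nat_lit 237684487598349417801087713280) (nat_lit 618988909108904190518756609) (nat_lit 5) (nat_lit 5)) .nil)) .nil)))) .nil)))),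
 (.br (nat_lit 12) (nat_lit 1) (.cons (.rf (nat_lit 1599) (nat_lit 493858305440582043680)) (.cons (.rf (nat_lit 1602) (nat_lit 493858305440582043680)) (.cons (.rf (nat_lit 1603) (nat_lit 493858305440582043680)) (.cons (.br (nat_lit 12) (nat_lit 1) (.cons (.rf (nat_lit 1599) (nat_lit 493858305440582043680)) (.cons (.rf (nat_lit 1602) (nat_lit 493858305440582043680)) (.cons (.rf (nat_lit 1603) (nat_lit 493858305440582043680)) .nil)))) .nil))))),
 (.br (nat_lit 12) (nat_lit 1) (.cons (.rf (nat_lit 1599) (nat_lit 493858305440582043680)) (.cons (.rf (nat_lit 1602) (nat_lit 493858305440582043680)) (.cons (.rf (nat_lit 1604) (nat_lit 493858305440582043680)) (.cons (.br (nat_lit 12) (nat_lit 1) (.cons (.rf (nat_lit 1599) (nat_lit 493858305440582043680)) (.cons (.rf (nat_lit 1602) (nat_lit 493858305440582043680)) (.cons (.rf (nat_lit 1604) (nat_lit 493858305440582043680)) .nil)))) .nil))))),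
 (.br (nat_lit 8) (nat_lit 1) (.cons (.rf (nat_lit 1550) (nat_lit 493858305440582043680)) (.cons (.rf (nat_lit 1574) (nat_lit 493858305440582043680)) (.cons (.rf (nat_lit 1591) (nat_lit 493858305440582043680)) (.cons (.br (nat_lit 1) (nat_lit 1) (.cons (.rf (nat_lit 1593) (nat_lit 424473271361)) (.cons (.ev (nat_lit 4740885284541687660801) (nat_lit 1)) (.cons (.rf (nat_lit 1594) (nat_lit 493858305440582043680)) (.cons (.rf (nat_lit 1594) (nat_lit 492741412732994160672)) (.cons (.br (nat_lit 2) (nat_lit 1) (.cons (.rf (nat_lit 1593) (nat_lit 424473265378)) (.cons (.rf (nat_lit 1595) (nat_lit 493858305440582043680)) (.cons (.rf (nat_lit 1595) (nat_lit 492741412732994160672)) (.cons (.br (nat_lit 7) (nat_lit 1) (.cons (.rf (nat_lit 1433) (nat_lit 455743251078610782240)) (.cons (.rf (nat_lit 1433) (nat_lit 420002684435798525984)) (.cons (.ev (nat_lit 20282409603651670706521756401664) (nat_lit 1)) .nil)))) .nil))))) .nil)))))) (.cons (.br (nat_lit 12) (nat_lit 1) (.cons (.rf (nat_lit 1599) (nat_lit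 493858305440582043680)) (.cons (.rf (nat_lit 1602) (nat_lit 493858305440582043680)) (.cons (.rf (nat_lit 1604) (nat_lit 493858305440582043680)) (.cons (.rf (nat_lit 1605) (nat_lit 493858305440582043680)) (.cons (.br (nat_lit 12) (nat_lit 1) (.cons (.rf (nat_lit 1599) (nat_lit 493858305440582043680)) (.cons (.rf (nat_lit 1602) (nat_lit 493858305440582043680)) (.cons (.rf (nat_lit 1604) (nat_lit 493858305440582043680)) (.cons (.rf (nat_lit 1605) (nat_lit 493858305440582043680)) .nil))))) .nil)))))) .nil))))))]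

theorem c51 : chkAll C T R L51 (nat_lit 1578) = true := by decide +kernel

theorem l51 : (nat_lit 1578) + L51.length = (nat_lit 1607) := by decide +kernel

/-- part of the certificates -/
def L52 : List Prf := [(.br (nat_lit 8) (nat_lit 1) (.cons (.rf (nat_lit 1550) (nat_lit 493858305440582043680)) (.cons (.rf (nat_lit 1574) (nat_lit 493858305440582043680)) (.cons (.rf (nat_lit 1591) (nat_lit 493858305440582043680)) (.cons (.rf (nat_lit 1606) (nat_lit 493858305440582043680)) (.cons (.rf (nat_lit 1606) (nat_lit 492741412732994160672)) (.cons (.br (nat_lit 8) (nat_lit 1) (.cons (.rf (nat_lit 1550) (nat_lit 493858305440582043680)) (.cons (.rf (nat_lit 1574) (nat_lit 493858305440582043680)) (.cons (.rf (nat_lit 1591) (nat_lit 493858305440582043680)) (.cons (.rf (nat_lit 1606) (nat_lit 493858305440582043680)) (.cons (.rf (nat_lit 1606) (nat_lit 492741412732994160672)) .nil)))))) .nil))))))),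
 (.br (nat_lit 10) (nat_lit 1) (.cons (.ev (nat_lit 310693954160042844918644993) (nat_lit 1)) .nil)),
 (.br (nat_lit 11) (nat_lit 1) (.cons (.zr (nat_lit 932081806922879093698658304) (nat_lit 4759260253595864399873) (nat_lit 5) (nat_lit 9)) (.cons (.ev (nat_lit 79228167236631101938182717441) (nat_lit 1)) (.cons (.ev (nat_lit 20282410817299856521450366238721) (nat_lit 1)) .nil)))),
 (.br (nat_lit 10) (nat_lit 1) (.cons (.zr (nat_lit 932081806922879093698658304) (nat_lit 4759260253595864399873) (nat_lit 5) (nat_lit 9)) (.cons (.ev (nat_lit 79228167236631101938182717441) (nat_lit 1)) (.cons (.ev (nat_lit 20282719093383858534460126396416) (nat_lit 1)) .nil)))),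
 (.br (nat_lit 2) (nat_lit 1) (.cons (.br (nat_lit 10) (nat_lit 1) (.cons (.rf (nat_lit 29) (nat_lit 11863266)) (.cons (.br (nat_lit 13) (nat_lit 1) (.cons (.zr (nat_lit 932081806922879093698658304) (nat_lit 4759260253595864399873) (nat_lit 5) (nat_lit 9)) (.cons (.zr (nat_lit 237684487542793014979655238400) (nat_lit 4759404367684428627969) (nat_lit 5) (nat_lit 4)) .nil))) (.cons (.br (nat_lit 12) (nat_lit 1) (.cons (.zr (nat_lit 932081806922879093698658304) (nat_lit 4759260253595864399873) (nat_lit 5) (nat_lit 9)) (.cons (.kr (nat_lit 20282409603651670423947251286272) (nat_lit 18446744073726328832) (nat_lit 1) (nat_lit 0)) .nil))) .nil)))) (.cons (.br (nat_lit 7) (nat_lit 1) (.cons (.rf (nat_lit 29) (nat_lit 11765058)) (.cons (.br (nat_lit 12) (nat_lit 1) (.cons (.ev (nat_lit 79231798791940779407386411520) (nat_lit 2)) (.cons (.ev (nat_lit 79228167236631103037677502721) (nat_lit 1)) .nil))) (.cons (.br (nat_lit 11) (nat_lit 1) (.cons (.br (nat_lit 12) (nat_lit 1) (.cons (.ev (nat_lit 79228167236631101938182717441)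 (nat_lit 1)) .nil)) (.cons (.rf (nat_lit 31) (nat_lit 447972674)) .nil))) .nil)))) (.cons (.ev (nat_lit 309489750634854586567885056) (nat_lit 1)) (.cons (.br (nat_lit 7) (nat_lit 1) (.cons (.br (nat_lit 11) (nat_lit 1) (.cons (.rf (nat_lit 31) (nat_lit 414254407)) (.cons (.zr (nat_lit 932081806922879093698658304) (nat_lit 4759260253595864399873) (nat_lit 5) (nat_lit 9)) .nil))) (.cons (.kr (nat_lit 309485009821626543701557504) (nat_lit 18518801672059224064) (nat_lit 1) (nat_lit 0)) (.cons (.br (nat_lit 11) (nat_lit 1) (.cons (.rf (nat_lit 82) (nat_lit 9004361762)) (.cons (.zr (nat_lit 237684487542793575734880240384) (nat_lit 618974742009174106623311873) (nat_lit 5) (nat_lit 3)) .nil))) (.cons (.br (nat_lit 11) (nat_lit 1) (.cons (.zr (nat_lit 3626796121760751970942976) (nat_lit 4722367609869063684865) (nat_lit 5) (nat_lit 9)) (.cons (.zr (nat_lit 237684487543009185562779189248) (nat_lit 4759260253595847622657) (nat_lit 5) (nat_lit 9)) (.cons (.kr (nat_lit 20282409603651670423947251351552) (nat_lit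 18446745173221179392) (nat_lit 2) (nat_lit 0)) .nil)))) .nil))))) (.cons (.br (nat_lit 12) (nat_lit 1) (.cons (.br (nat_lit 12) (nat_lit 1) (.cons (.rf (nat_lit 1608) (nat_lit 15433072044983552032)) (.cons (.rf (nat_lit 1610) (nat_lit 493858305440582043680)) (.cons (.ev (nat_lit 79228167236631103037677502721) (nat_lit 1)) .nil)))) (.cons (.rf (nat_lit 1609) (nat_lit 493858305440582043680)) (.cons (.rf (nat_lit 1610) (nat_lit 493858305440582043680)) (.cons (.br (nat_lit 12) (nat_lit 1) (.cons (.ev (nat_lit 79228167236631103037677502721) (nat_lit 1)) (.cons (.rf (nat_lit 1609) (nat_lit 493858305440582043680)) (.cons (.rf (nat_lit 1610) (nat_lit 493858305440582043680)) .nil)))) .nil))))) .nil)))))),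
 (.br (nat_lit 1) (nat_lit 1) (.cons (.br (nat_lit 10) (nat_lit 1) (.cons (.rf (nat_lit 29) (nat_lit 11864289)) (.cons (.br (nat_lit 12) (nat_lit 1) (.cons (.rf (nat_lit 31) (nat_lit 414517473)) (.cons (.ev (nat_lit 79228167236631101938182717441) (nat_lit 1)) .nil))) (.cons (.br (nat_lit 11) (nat_lit 1) (.cons (.br (nat_lit 12) (nat_lit 1) (.cons (.ev (nat_lit 79228167236631103037677502721) (nat_lit 1)) .nil)) (.cons (.kr (nat_lit 309485009821626543718268928) (nat_lit 20282410812577490038580720959488) (nat_lit 3) (nat_lit 0)) .nil))) .nil)))) (.cons (.br (nat_lit 7) (nat_lit 1) (.cons (.rf (nat_lit 29) (nat_lit 11766081)) (.cons (.br (nat_lit 13) (nat_lit 1) (.cons (.zr (nat_lit 928455029680207988321681408) (nat_lit 4759260253595847622657) (nat_lit 5) (nat_lit 9)) (.cons (.zr (nat_lit 237688114320251856668156166144) (nat_lit 4759260253595864399873) (nat_lit 5) (nat_lit 9)) .nil))) (.cons (.br (nat_lit 12) (nat_lit 1) (.cons (.zr (nat_lit 928455029680207988321681408) (nat_lit 4759260253595847622657)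 (nat_lit 5) (nat_lit 9)) (.cons (.kr (nat_lit 20282409603651670423947251351552) (nat_lit 18446745173221179392) (nat_lit 2) (nat_lit 0)) .nil))) .nil)))) (.cons (.ev (nat_lit 309489750634854586567885056) (nat_lit 1)) (.cons (.rf (nat_lit 1611) (nat_lit 492741412732994160672)) (.cons (.br (nat_lit 10) (nat_lit 1) (.cons (.br (nat_lit 13) (nat_lit 1) (.cons (.ev (nat_lit 20282410817318303265524075790336) (nat_lit 1)) (.cons (.ev (nat_lit 20282409608374108965514741088513) (nat_lit 1)) .nil))) (.cons (.br (nat_lit 13) (nat_lit 1) (.cons (.ev (nat_lit 20282410817318303265524075790336) (nat_lit 1)) (.cons (.ev (nat_lit 20282719093383858534460126396416) (nat_lit 1)) .nil))) (.cons (.br (nat_lit 12) (nat_lit 1) (.cons (.br (nat_lit 11) (nat_lit 1) (.cons (.zr (nat_lit 928455029680207988321681408) (nat_lit 4759260253595847622657) (nat_lit 5) (nat_lit 9)) .nil)) (.cons (.br (nat_lit 7) (nat_lit 1) (.cons (.zr (nat_lit 928455029680207988321681408) (nat_lit 4759260253595847622657) (nat_lit 5) (nat_lit 9))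 .nil)) (.cons (.ev (nat_lit 79228167236631101938182717441) (nat_lit 1)) .nil)))) (.cons (.ev (nat_lit 20282410817318303266623604130048) (nat_lit 1)) .nil))))) .nil)))))),
 (.br (nat_lit 11) (nat_lit 1) (.cons (.rf (nat_lit 1611) (nat_lit 493858305440582043680)) (.cons (.rf (nat_lit 1612) (nat_lit 493858305440582043680)) (.cons (.ev (nat_lit 79229376180969518235088060416) (nat_lit 1)) (.cons (.br (nat_lit 2) (nat_lit 1) (.cons (.zr (nat_lit 932081806922879093698658304) (nat_lit 4759260253595864399873) (nat_lit 5) (nat_lit 9)) (.cons (.rf (nat_lit 1612) (nat_lit 492741412732994160672)) (.cons (.ev (nat_lit 20282409608392555708488955723776) (nat_lit 1)) .nil)))) .nil))))),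
 (.br (nat_lit 12) (nat_lit 1) (.cons (.rf (nat_lit 1611) (nat_lit 492741412732994160672)) (.cons (.ev (nat_lit 79537652246524224229775310848) (nat_lit 1)) (.cons (.ev (nat_lit 79229376180969518235088060416) (nat_lit 1)) (.cons (.br (nat_lit 1) (nat_lit 1) (.cons (.zr (nat_lit 928455029464598160422732544) (nat_lit 158456329750895159156261650433) (nat_lit 5) (nat_lit 3)) (.cons (.zr (nat_lit 237684487542793014979671884544) (nat_lit 2422610899481754685407233) (nat_lit 5) (nat_lit 4)) (.cons (.ev (nat_lit 309489732188110512858333441) (nat_lit 1)) .nil)))) .nil))))),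
 (.br (nat_lit 12) (nat_lit 1) (.cons (.rf (nat_lit 1611) (nat_lit 492741412732994160672)) (.cons (.rf (nat_lit 1612) (nat_lit 492741412732994160672)) (.cons (.rf (nat_lit 1613) (nat_lit 493858305440582043680)) (.cons (.rf (nat_lit 1614) (nat_lit 493858305440582043680)) (.cons (.br (nat_lit 12) (nat_lit 1) (.cons (.rf (nat_lit 1611) (nat_lit 492741412732994160672)) (.cons (.zr (nat_lit 237684487543009185562779189248) (nat_lit 4759260253595847622657) (nat_lit 5) (nat_lit 9)) (.cons (.rf (nat_lit 1613) (nat_lit 493858305440582043680)) (.cons (.rf (nat_lit 1614) (nat_lit 493858305440582043680)) .nil))))) .nil)))))),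
 (.br (nat_lit 12) (nat_lit 1) (.cons (.rf (nat_lit 1611) (nat_lit 492741412732994160672)) (.cons (.rf (nat_lit 1612) (nat_lit 492741412732994160672)) (.cons (.ev (nat_lit 310698676526525710268891136) (nat_lit 1)) (.cons (.br (nat_lit 1) (nat_lit 1) (.cons (.br (nat_lit 7) (nat_lit 1) (.cons (.ev (nat_lit 4740885285641216131073) (nat_lit 1)) .nil)) (.cons (.ev (nat_lit 79537652264970967203956392193) (nat_lit 1)) (.cons (.zr (nat_lit 158765810038350022454886269184) (nat_lit 40564821629877346841501768876033) (nat_lit 5) (nat_lit 4)) .nil)))) .nil))))),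
 (.br (nat_lit 12) (nat_lit 1) (.cons (.rf (nat_lit 1611) (nat_lit 492741412732994160672)) (.cons (.rf (nat_lit 1612) (nat_lit 492741412732994160672)) (.cons (.rf (nat_lit 1615) (nat_lit 492741412732994160672)) (.cons (.rf (nat_lit 1616) (nat_lit 493858305440582043680)) (.cons (.br (nat_lit 12) (nat_lit 1) (.cons (.rf (nat_lit 1611) (nat_lit 492741412732994160672)) (.cons (.rf (nat_lit 1612) (nat_lit 492741412732994160672)) (.cons (.rf (nat_lit 1615) (nat_lit 492741412732994160672)) (.cons (.rf (nat_lit 1616) (nat_lit 493858305440582043680)) .nil))))) .nil)))))),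
 (.br (nat_lit 11) (nat_lit 1) (.cons (.rf (nat_lit 1611) (nat_lit 493858305440582043680)) (.cons (.rf (nat_lit 1612) (nat_lit 493858305440582043680)) (.cons (.rf (nat_lit 1615) (nat_lit 493858305440582043680)) (.cons (.rf (nat_lit 1617) (nat_lit 493858305440582043680)) (.cons (.br (nat_lit 12) (nat_lit 1) (.cons (.rf (nat_lit 1611) (nat_lit 492741412732994160672)) (.cons (.rf (nat_lit 1612) (nat_lit 492741412732994160672)) (.cons (.rf (nat_lit 1615) (nat_lit 492741412732994160672)) (.cons (.rf (nat_lit 1617) (nat_lit 492741412732994160672)) (.cons (.kr (nat_lit 309485009821345068724781056) (nat_lit 79228162514264337593543950336) (nat_lit 11) (nat_lit 0)) .nil)))))) .nil)))))),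
 (.br (nat_lit 8) (nat_lit 1) (.cons (.rf (nat_lit 1550) (nat_lit 493858305440582043680)) (.cons (.rf (nat_lit 1574) (nat_lit 493858305440582043680)) (.cons (.rf (nat_lit 1591) (nat_lit 493858305440582043680)) (.cons (.rf (nat_lit 1607) (nat_lit 493858305440582043680)) (.cons (.br (nat_lit 11) (nat_lit 1) (.cons (.rf (nat_lit 1611) (nat_lit 493858305440582043680)) (.cons (.rf (nat_lit 1612) (nat_lit 493858305440582043680)) (.cons (.rf (nat_lit 1615) (nat_lit 493858305440582043680)) (.cons (.rf (nat_lit 1617) (nat_lit 493858305440582043680)) (.cons (.rf (nat_lit 1618) (nat_lit 493858305440582043680)) (.cons (.br (nat_lit 11) (nat_lit 1) (.cons (.rf (nat_lit 1611) (nat_lit 493858305440582043680)) (.cons (.rf (nat_lit 1612) (nat_lit 493858305440582043680)) (.cons (.rf (nat_lit 1615) (nat_lit 493858305440582043680)) (.cons (.rf (nat_lit 1617) (nat_lit 493858305440582043680)) (.cons (.rf (nat_lit 1618) (nat_lit 493858305440582043680)) .nil)))))) .nil))))))) .nil)))))),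
 (.br (nat_lit 8) (nat_lit 1) (.cons (.rf (nat_lit 1550) (nat_lit 493858305440582043680)) (.cons (.rf (nat_lit 1574) (nat_lit 493858305440582043680)) (.cons (.rf (nat_lit 1591) (nat_lit 493858305440582043680)) (.cons (.rf (nat_lit 1607) (nat_lit 493858305440582043680)) (.cons (.rf (nat_lit 1619) (nat_lit 493858305440582043680)) (.cons (.br (nat_lit 8) (nat_lit 1) (.cons (.rf (nat_lit 1550) (nat_lit 493858305440582043680)) (.cons (.rf (nat_lit 1574) (nat_lit 493858305440582043680)) (.cons (.rf (nat_lit 1591) (nat_lit 493858305440582043680)) (.cons (.rf (nat_lit 1607) (nat_lit 493858305440582043680)) (.cons (.rf (nat_lit 1619) (nat_lit 493858305440582043680)) .nil)))))) .nil))))))),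
 (.br (nat_lit 10) (nat_lit 0) (.cons (.br (nat_lit 6) (nat_lit 1) (.cons (.br (nat_lit 8) (nat_lit 1) (.cons (.rf (nat_lit 1550) (nat_lit 493858305440582043680)) (.cons (.rf (nat_lit 1574) (nat_lit 493858305440582043680)) (.cons (.rf (nat_lit 1591) (nat_lit 493858305440582043680)) (.cons (.rf (nat_lit 1607) (nat_lit 493858305440582043680)) (.cons (.rf (nat_lit 1620) (nat_lit 493858305440582043680)) (.cons (.rf (nat_lit 1620) (nat_lit 492741412732994160672)) (.cons (.br (nat_lit 8) (nat_lit 1) (.cons (.rf (nat_lit 1550) (nat_lit 493858305440582043680)) (.cons (.rf (nat_lit 1574) (nat_lit 493858305440582043680)) (.cons (.rf (nat_lit 1591) (nat_lit 493858305440582043680)) (.cons (.rf (nat_lit 1607) (nat_lit 493858305440582043680)) (.cons (.rf (nat_lit 1620) (nat_lit 493858305440582043680)) (.cons (.rf (nat_lit 1620) (nat_lit 492741412732994160672)) .nil))))))) .nil)))))))) .nil)) .nil)),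
 (.br (nat_lit 9) (nat_lit 1) (.cons (.br (nat_lit 9) (nat_lit 1) (.cons (.br (nat_lit 10) (nat_lit 0) (.cons (.rf (nat_lit 1621) (nat_lit 14242959524133701664)) (.cons (.br (nat_lit 10) (nat_lit 0) (.cons (.rf (nat_lit 1621) (nat_lit 14242959524133701664)) .nil)) .nil))) .nil)) .nil)),
 (.br (nat_lit 7) (nat_lit 0) (.cons (.rf (nat_lit 1474) (nat_lit 8871427021856)) (.cons (.br (nat_lit 3) (nat_lit 1) (.cons (.rf (nat_lit 1511) (nat_lit 325702574508064)) (.cons (.br (nat_lit 6) (nat_lit 1) (.cons (.rf (nat_lit 1511) (nat_lit 360677534533856)) (.cons (.br (nat_lit 8) (nat_lit 1) (.cons (.rf (nat_lit 1517) (nat_lit 11584701642934304)) (.cons (.rf (nat_lit 1521) (nat_lit 11584701642934304)) (.cons (.rf (nat_lit 1517) (nat_lit 10493776696117472)) (.cons (.rf (nat_lit 1522) (nat_lit 11584701642934304)) (.cons (.rf (nat_lit 1522) (nat_lit 10493776696117472)) (.cons (.rf (nat_lit 1332) (nat_lit 12746920901578817)) (.cons (.rf (nat_lit 1322) (nat_lit 407901468850522144)) .nil)))))))) .nil))) .nil)))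 (.cons (.br (nat_lit 9) (nat_lit 1) (.cons (.rf (nat_lit 1622) (nat_lit 11584701642934304)) (.cons (.br (nat_lit 9) (nat_lit 1) (.cons (.rf (nat_lit 1622) (nat_lit 12710601549776928)) (.cons (.br (nat_lit 9) (nat_lit 1) (.cons (.rf (nat_lit 1622) (nat_lit 13836501456619552)) (.cons (.br (nat_lit 6) (nat_lit 1) (.cons (.br (nat_lit 6) (nat_lit 1) .nil) .nil)) .nil))) .nil))) .nil))) .nil)))),
 (.br (nat_lit 3) (nat_lit 1) (.cons (.rf (nat_lit 29) (nat_lit 3278880)) (.cons (.rf (nat_lit 1593) (nat_lit 247033073696)) (.cons (.rf (nat_lit 1593) (nat_lit 281392812064)) .nil)))),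
 (.br (nat_lit 3) (nat_lit 1) (.cons (.rf (nat_lit 29) (nat_lit 3278880)) (.cons (.rf (nat_lit 1624) (nat_lit 9043225708576)) (.cons (.rf (nat_lit 1624) (nat_lit 9009939712032)) (.cons (.rf (nat_lit 1624) (nat_lit 7911501826080)) .nil))))),
 (.br (nat_lit 4) (nat_lit 1) (.cons (.rf (nat_lit 29) (nat_lit 4361281)) (.cons (.rf (nat_lit 1593) (nat_lit 282568297537)) (.cons (.rf (nat_lit 1593) (nat_lit 316928035905)) .nil)))),
 (.br (nat_lit 4) (nat_lit 1) (.cons (.rf (nat_lit 29) (nat_lit 4361281)) (.cons (.rf (nat_lit 1626) (nat_lit 325702574508064)) (.cons (.rf (nat_lit 1626) (nat_lit 324637422618656)) (.cons (.rf (nat_lit 1626) (nat_lit 289487410268192)) .nil))))),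
 (.br (nat_lit 11) (nat_lit 1) (.cons (.rf (nat_lit 31) (nat_lit 414489665)) (.cons (.zr (nat_lit 928469196563483815110180864) (nat_lit 1208962713385355393892353) (nat_lit 5) (nat_lit 10)) .nil))),
 (.br (nat_lit 9) (nat_lit 1) (.cons (.ev (nat_lit 1213666704899170879144193) (nat_lit 1)) (.cons (.rf (nat_lit 1628) (nat_lit 493858305440582043680)) (.cons (.rf (nat_lit 1628) (nat_lit 458117738797769787424)) .nil)))),
 (.br (nat_lit 8) (nat_lit 1) (.cons (.rf (nat_lit 1593) (nat_lit 424373658689)) (.cons (.rf (nat_lit 1593) (nat_lit 424440765505)) (.cons (.br (nat_lit 7) (nat_lit 1) (.cons (.zr (nat_lit 4740957342131430687232) (nat_lit 1208925819897207974789121) (nat_lit 5) (nat_lit 0)) (.cons (.rf (nat_lit 1629) (nat_lit 493858305440582043680)) (.cons (.rf (nat_lit 1629) (nat_lit 492741412732994160672)) (.cons (.rf (nat_lit 1629) (nat_lit 455883953382594021408)) .nil))))) .nil)))),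
 (.br (nat_lit 8) (nat_lit 1) (.cons (.rf (nat_lit 1625) (nat_lit 14718124432449)) (.cons (.rf (nat_lit 1627) (nat_lit 470979981838368)) (.cons (.rf (nat_lit 1630) (nat_lit 493858305440582043680)) (.cons (.rf (nat_lit 1630) (nat_lit 458117738797769787424)) .nil))))),
 (.br (nat_lit 8) (nat_lit 1) (.cons (.rf (nat_lit 1625) (nat_lit 14718124432449)) (.cons (.rf (nat_lit 1627) (nat_lit 470979981838368)) (.cons (.rf (nat_lit 1631) (nat_lit 493858305440582043680)) (.cons (.rf (nat_lit 1631) (nat_lit 492741412732994160672)) (.cons (.rf (nat_lit 1631) (nat_lit 455883953382594021408)) .nil)))))),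
 (.br (nat_lit 8) (nat_lit 1) (.cons (.rf (nat_lit 84) (nat_lit 13262620713)) (.cons (.rf (nat_lit 84) (nat_lit 12222498855)) (.cons (.br (nat_lit 11) (nat_lit 1) (.cons (.br (nat_lit 13) (nat_lit 1) (.cons (.zr (nat_lit 2417851640355158256255744) (nat_lit 618970019642691241273065473) (nat_lit 5) (nat_lit 3)) (.cons (.kr (nat_lit 1208925819614629174706176) (nat_lit 79228162514264337593543950336) (nat_lit 10) (nat_lit 0)) .nil))) (.cons (.br (nat_lit 12) (nat_lit 1) (.cons (.zr (nat_lit 2417851640355158256255744) (nat_lit 618970019642691241273065473) (nat_lit 5) (nat_lit 3)) (.cons (.zr (nat_lit 14222655853612178079744) (nat_lit 40564820416229160745102477361153) (nat_lit 5) (nat_lit 0)) .nil))) .nil))) .nil))))]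

theorem c52 : chkAll C T R L52 (nat_lit 1607) = true := by decide +kernel

theorem l52 : (nat_lit 1607) + L52.length = (nat_lit 1634) := by decide +kernel

/-- part of the certificates -/
def L53 : List Prf := [(.br (nat_lit 9) (nat_lit 1) (.cons (.zr (nat_lit 36894614047325946624) (nat_lit 1103823503363) (nat_lit 5) (nat_lit 3)) (.cons (.rf (nat_lit 1343) (nat_lit 423425746145)) (.cons (.rf (nat_lit 1633) (nat_lit 493858305440582043680)) (.cons (.rf (nat_lit 1633) (nat_lit 458117738797769787424)) .nil))))),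
 (.br (nat_lit 7) (nat_lit 1) (.cons (.kr (nat_lit 1099511627776) (nat_lit 72057594037927936) (nat_lit 5) (nat_lit 0)) .nil)),
 (.br (nat_lit 3) (nat_lit 1) (.cons (.rf (nat_lit 84) (nat_lit 7720667172)) (.cons (.rf (nat_lit 84) (nat_lit 6680610848)) (.cons (.br (nat_lit 6) (nat_lit 1) (.cons (.rf (nat_lit 1635) (nat_lit 9043225708576)) (.cons (.br (nat_lit 6) (nat_lit 1) (.cons (.rf (nat_lit 1635) (nat_lit 9043225708576)) .nil)) .nil))) .nil)))),
 (.br (nat_lit 4) (nat_lit 1) (.cons (.rf (nat_lit 58) (nat_lit 3278880)) (.cons (.rf (nat_lit 1343) (nat_lit 246090403841)) (.cons (.rf (nat_lit 1636) (nat_lit 9043225708576)) (.cons (.rf (nat_lit 1636) (nat_lit 7978073819168)) .nil))))),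
 (.br (nat_lit 11) (nat_lit 1) (.cons (.kr (nat_lit 20361637766165934761540795302144) (nat_lit 309489750706629606117474304) (nat_lit 1) (nat_lit 0)) .nil)),
 (.br (nat_lit 8) (nat_lit 1) (.cons (.br (nat_lit 12) (nat_lit 1) (.cons (.zr (nat_lit 3631499897384351207589123) (nat_lit 1237940113072921727337496576) (nat_lit 10) (nat_lit 0)) (.cons (.rf (nat_lit 1638) (nat_lit 493858305440582043680)) .nil))) (.cons (.br (nat_lit 12) (nat_lit 1) (.cons (.br (nat_lit 11) (nat_lit 1) (.cons (.ev (nat_lit 21156704808545989492521251703560) (nat_lit 4)) .nil)) (.cons (.zr (nat_lit 23612192702318415773955) (nat_lit 316913858982877530160950673408) (nat_lit 10) (nat_lit 0)) .nil))) .nil))),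
 (.br (nat_lit 13) (nat_lit 1) (.cons (.rf (nat_lit 1639) (nat_lit 493858305440582043680)) (.cons (.br (nat_lit 12) (nat_lit 1) (.cons (.zr (nat_lit 237686905394432242038981460736) (nat_lit 101412048018258352402315056513025) (nat_lit 5) (nat_lit 0)) (.cons (.zr (nat_lit 237684487542793012780632048384) (nat_lit 40564820416229160745102477361153) (nat_lit 5) (nat_lit 0)) (.cons (.ev (nat_lit 79537647524085682666580541441) (nat_lit 1)) .nil)))) .nil))),
 (.br (nat_lit 13) (nat_lit 1) (.cons (.rf (nat_lit 1639) (nat_lit 493858305440582043680)) (.cons (.rf (nat_lit 1640) (nat_lit 493858305440582043680)) (.cons (.br (nat_lit 13) (nat_lit 1) (.cons (.rf (nat_lit 1639) (nat_lit 493858305440582043680)) (.cons (.rf (nat_lit 1640) (nat_lit 493858305440582043680)) .nil))) .nil)))),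
 (.br (nat_lit 8) (nat_lit 1) (.cons (.br (nat_lit 13) (nat_lit 1) (.cons (.zr (nat_lit 3631499897384351207589123) (nat_lit 1237940113072921727337496576) (nat_lit 10) (nat_lit 0)) (.cons (.zr (nat_lit 23612192702318415773955) (nat_lit 316913858982877530160950673408) (nat_lit 10) (nat_lit 0)) .nil))) (.cons (.rf (nat_lit 1641) (nat_lit 493858305440582043680)) .nil))),
 (.br (nat_lit 8) (nat_lit 1) (.cons (.rf (nat_lit 1642) (nat_lit 493858305440582043680)) (.cons (.br (nat_lit 8) (nat_lit 1) (.cons (.rf (nat_lit 1642) (nat_lit 493858305440582043680)) (.cons (.rf (nat_lit 1641) (nat_lit 493858305440582043680)) .nil))) (.cons (.rf (nat_lit 1641) (nat_lit 493858305440582043680)) .nil)))),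
 (.br (nat_lit 13) (nat_lit 1) (.cons (.rf (nat_lit 1641) (nat_lit 493858305440582043680)) (.cons (.rf (nat_lit 1643) (nat_lit 493858305440582043680)) (.cons (.br (nat_lit 13) (nat_lit 1) (.cons (.rf (nat_lit 1641) (nat_lit 493858305440582043680)) (.cons (.kr (nat_lit 1208925819614629174706176) (nat_lit 20282409603651670423947251286016) (nat_lit 10) (nat_lit 0)) .nil))) .nil)))),
 (.br (nat_lit 13) (nat_lit 1) (.cons (.rf (nat_lit 1641) (nat_lit 493858305440582043680)) (.cons (.rf (nat_lit 1643) (nat_lit 493858305440582043680)) (.cons (.rf (nat_lit 1644) (nat_lit 493858305440582043680)) (.cons (.br (nat_lit 13) (nat_lit 1) (.cons (.rf (nat_lit 1641) (nat_lit 493858305440582043680)) (.cons (.rf (nat_lit 1643) (nat_lit 493858305440582043680)) (.cons (.rf (nat_lit 1644) (nat_lit 493858305440582043680)) .nil)))) .nil))))),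
 (.br (nat_lit 7) (nat_lit 1) (.cons (.rf (nat_lit 1637) (nat_lit 14718124432449)) (.cons (.rf (nat_lit 1627) (nat_lit 470979746768096)) (.cons (.ev (nat_lit 72340168526332161) (nat_lit 1)) (.cons (.rf (nat_lit 1645) (nat_lit 493858305440582043680)) (.cons (.rf (nat_lit 1645) (nat_lit 458117738797769787424)) .nil)))))),
 (.br (nat_lit 1) (nat_lit 1) (.cons (.rf (nat_lit 1625) (nat_lit 14718124427489)) (.cons (.br (nat_lit 7) (nat_lit 1) (.cons (.ev (nat_lit 72340168526332161) (nat_lit 1)) (.cons (.rf (nat_lit 29) (nat_lit 8455463)) (.cons (.rf (nat_lit 1637) (nat_lit 14718124427303)) (.cons (.rf (nat_lit 1637) (nat_lit 14684838430759)) (.cons (.rf (nat_lit 1637) (nat_lit 13586400544807)) .nil)))))) (.cons (.rf (nat_lit 1627) (nat_lit 470979746964512)) (.cons (.rf (nat_lit 1646) (nat_lit 493858305440582043680)) (.cons (.rf (nat_lit 1646) (nat_lit 492741412732994160672)) (.cons (.rf (nat_lit 1646) (nat_lit 455883953382594021408)) .nil))))))),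
 (.br (nat_lit 11) (nat_lit 1) (.cons (.ev (nat_lit 79538861190718806809286541313) (nat_lit 1)) (.cons (.zr (nat_lit 928469196779656597223768064) (nat_lit 1208962713385355393892353) (nat_lit 5) (nat_lit 10)) .nil))),
 (.br (nat_lit 7) (nat_lit 1) (.cons (.ev (nat_lit 1213666704899170879144193) (nat_lit 1)) (.cons (.rf (nat_lit 1648) (nat_lit 493858305440582043680)) (.cons (.rf (nat_lit 1648) (nat_lit 458117738797769787424)) .nil)))),
 (.br (nat_lit 8) (nat_lit 1) (.cons (.rf (nat_lit 1593) (nat_lit 424172330274)) (.cons (.rf (nat_lit 1593) (nat_lit 424373650722)) (.cons (.br (nat_lit 1) (nat_lit 1) (.cons (.zr (nat_lit 4740885284537392824832) (nat_lit 1208925819897207974789121) (nat_lit 5) (nat_lit 0)) (.cons (.rf (nat_lit 1649) (nat_lit 493858305440582043680)) (.cons (.rf (nat_lit 1649) (nat_lit 492741412732994160672)) (.cons (.rf (nat_lit 1649) (nat_lit 455883953382594021408)) .nil))))) .nil)))),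
 (.br (nat_lit 8) (nat_lit 1) (.cons (.rf (nat_lit 1627) (nat_lit 470979713410112)) (.cons (.rf (nat_lit 1627) (nat_lit 470979914540096)) (.cons (.rf (nat_lit 1650) (nat_lit 493858305440582043680)) (.cons (.rf (nat_lit 1650) (nat_lit 458117738797769787424)) .nil))))),
 (.br (nat_lit 8) (nat_lit 1) (.cons (.rf (nat_lit 1627) (nat_lit 470979713410112)) (.cons (.rf (nat_lit 1627) (nat_lit 470979914540096)) (.cons (.rf (nat_lit 1651) (nat_lit 493858305440582043680)) (.cons (.rf (nat_lit 1651) (nat_lit 492741412732994160672)) (.cons (.rf (nat_lit 1651) (nat_lit 455883953382594021408)) .nil)))))),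
 (.br (nat_lit 8) (nat_lit 1) (.cons (.br (nat_lit 12) (nat_lit 1) (.cons (.ev (nat_lit 79228167255149904705425047553) (nat_lit 1)) .nil)) .nil)),
 (.br (nat_lit 8) (nat_lit 1) (.cons (.br (nat_lit 12) (nat_lit 1) (.cons (.ev (nat_lit 20998877087165305022300153250560) (nat_lit 4)) .nil)) .nil)),
 (.br (nat_lit 9) (nat_lit 1) (.cons (.br (nat_lit 11) (nat_lit 1) (.cons (.rf (nat_lit 84) (nat_lit 13165173825)) (.cons (.rf (nat_lit 84) (nat_lit 9004162121)) (.cons (.br (nat_lit 8) (nat_lit 1) (.cons (.rf (nat_lit 1653) (nat_lit 493858305440582043680)) (.cons (.br (nat_lit 12) (nat_lit 1) (.cons (.rf (nat_lit 1653) (nat_lit 493858305440582043680)) (.cons (.ev (nat_lit 20282719088661492051590464405761) (nat_lit 1)) .nil))) .nil))) .nil)))) (.cons (.ev (nat_lit 309489732260168106896326656) (nat_lit 1)) (.cons (.rf (nat_lit 1343) (nat_lit 275288269858)) (.cons (.br (nat_lit 11) (nat_lit 1) (.cons (.br (nat_lit 8) (nat_lit 1) (.cons (.rf (nat_lit 1654) (nat_lit 493858305440582043680)) (.cons (.br (nat_lit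 8) (nat_lit 1) (.cons (.rf (nat_lit 1654) (nat_lit 493858305440582043680)) .nil)) .nil))) (.cons (.rf (nat_lit 84) (nat_lit 14372871241)) (.cons (.rf (nat_lit 84) (nat_lit 13332945985)) .nil)))) .nil))))),
 (.br (nat_lit 11) (nat_lit 1) (.cons (.zr (nat_lit 3631499897384351207589123) (nat_lit 1237940113072921727337496576) (nat_lit 10) (nat_lit 0)) (.cons (.zr (nat_lit 2417851640355158256255744) (nat_lit 618970019786806429348790273) (nat_lit 5) (nat_lit 3)) .nil))),
 (.br (nat_lit 8) (nat_lit 1) (.cons (.rf (nat_lit 1656) (nat_lit 493858305440582043680)) (.cons (.rf (nat_lit 1656) (nat_lit 492741412561195473952)) .nil))),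
 (.br (nat_lit 13) (nat_lit 1) (.cons (.rf (nat_lit 1657) (nat_lit 493858305440582043680)) (.cons (.br (nat_lit 8) (nat_lit 1) (.cons (.ev (nat_lit 20282409608392555991059132383233) (nat_lit 1)) (.cons (.zr (nat_lit 2417851640355158256255744) (nat_lit 618970019786806429348790273) (nat_lit 5) (nat_lit 3)) (.cons (.zr (nat_lit 2417851640355158256255744) (nat_lit 158456325028528676290911404033) (nat_lit 5) (nat_lit 3)) .nil)))) .nil))),
 (.br (nat_lit 13) (nat_lit 1) (.cons (.rf (nat_lit 1657) (nat_lit 493858305440582043680)) (.cons (.rf (nat_lit 1658) (nat_lit 493858305440582043680)) (.cons (.rf (nat_lit 1658) (nat_lit 492741412561195473952)) .nil)))),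
 (.br (nat_lit 8) (nat_lit 1) (.cons (.kr (nat_lit 1208925819614629174706432) (nat_lit 4740813226943354765312) (nat_lit 1) (nat_lit 0)) (.cons (.rf (nat_lit 1659) (nat_lit 493858305440582043680)) .nil))),
 (.br (nat_lit 8) (nat_lit 1) (.cons (.rf (nat_lit 1660) (nat_lit 493858305440582043680)) (.cons (.rf (nat_lit 1660) (nat_lit 492741412561195473952)) (.cons (.rf (nat_lit 1659) (nat_lit 493858305440582043680)) .nil)))),
 (.br (nat_lit 13) (nat_lit 1) (.cons (.rf (nat_lit 1659) (nat_lit 493858305440582043680)) (.cons (.rf (nat_lit 1661) (nat_lit 493858305440582043680)) (.cons (.br (nat_lit 13) (nat_lit 1) (.cons (.rf (nat_lit 1659) (nat_lit 493858305440582043680)) (.cons (.kr (nat_lit 1208925819614629174706176) (nat_lit 20282409603651670423947251286016) (nat_lit 10) (nat_lit 0)) .nil))) .nil)))),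
 (.br (nat_lit 13) (nat_lit 1) (.cons (.rf (nat_lit 1659) (nat_lit 493858305440582043680)) (.cons (.rf (nat_lit 1661) (nat_lit 493858305440582043680)) (.cons (.rf (nat_lit 1662) (nat_lit 493858305440582043680)) (.cons (.rf (nat_lit 1662) (nat_lit 492741412561195473952)) .nil))))),
 (.br (nat_lit 1) (nat_lit 1) (.cons (.rf (nat_lit 84) (nat_lit 13262464039)) (.cons (.rf (nat_lit 84) (nat_lit 13165168679)) (.cons (.br (nat_lit 8) (nat_lit 1) (.cons (.rf (nat_lit 84) (nat_lit 12092480546)) (.cons (.br (nat_lit 11) (nat_lit 1) (.cons (.ev (nat_lit 310693954087703775920848896) (nat_lit 1)) (.cons (.ev (nat_lit 309489750706629610429219073) (nat_lit 1)) .nil))) .nil))) (.cons (.br (nat_lit 8) (nat_lit 1) (.cons (.br (nat_lit 13) (nat_lit 1) (.cons (.ev (nat_lit 310693954087703775920848896) (nat_lit 1)) (.cons (.ev (nat_lit 79229371458602753894777880576) (nat_lit 1)) .nil))) (.cons (.br (nat_lit 12) (nat_lit 1) (.cons (.ev (nat_lit 310693954087703775920848896) (nat_lit 1)) (.cons (.ev (nat_lit 20282410812595937065224623882496)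 (nat_lit 1)) .nil))) .nil))) .nil))))),
 (.br (nat_lit 8) (nat_lit 1) (.cons (.rf (nat_lit 1663) (nat_lit 493858305440582043680)) (.cons (.rf (nat_lit 1664) (nat_lit 493858305440582043680)) (.cons (.rf (nat_lit 1664) (nat_lit 492741412561195473952)) (.cons (.br (nat_lit 8) (nat_lit 1) (.cons (.rf (nat_lit 1663) (nat_lit 493858305440582043680)) (.cons (.rf (nat_lit 1664) (nat_lit 493858305440582043680)) (.cons (.rf (nat_lit 1664) (nat_lit 492741412561195473952)) .nil)))) .nil))))),
 (.br (nat_lit 8) (nat_lit 1) (.cons (.rf (nat_lit 1663) (nat_lit 493858305440582043680)) (.cons (.rf (nat_lit 1665) (nat_lit 493858305440582043680)) (.cons (.br (nat_lit 9) (nat_lit 1) (.cons (.br (nat_lit 13) (nat_lit 1) (.cons (.zr (nat_lit 928469196779656597223768064) (nat_lit 1208962713385355393892353) (nat_lit 5) (nat_lit 10)) (.cons (.zr (nat_lit 237684501709892461389567688704) (nat_lit 1208962713385355393892353) (nat_lit 5) (nat_lit 10)) .nil))) (.cons (.ev (nat_lit 310693954087703775920848896) (nat_lit 1))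 (.cons (.ev (nat_lit 79229371458602753894777880576) (nat_lit 1)) (.cons (.br (nat_lit 1) (nat_lit 1) (.cons (.zr (nat_lit 928469196779656597223768064) (nat_lit 1208962713385355393892353) (nat_lit 5) (nat_lit 10)) (.cons (.zr (nat_lit 237684501709892461389567688704) (nat_lit 1208962713385355393892353) (nat_lit 5) (nat_lit 10)) (.cons (.ev (nat_lit 20282410812595937065224623882496) (nat_lit 1)) .nil)))) .nil))))) .nil)))),
 (.br (nat_lit 8) (nat_lit 1) (.cons (.rf (nat_lit 1663) (nat_lit 493858305440582043680)) (.cons (.rf (nat_lit 1665) (nat_lit 493858305440582043680)) (.cons (.rf (nat_lit 1666) (nat_lit 493858305440582043680)) (.cons (.br (nat_lit 8) (nat_lit 1) (.cons (.rf (nat_lit 1663) (nat_lit 493858305440582043680)) (.cons (.rf (nat_lit 1665) (nat_lit 493858305440582043680)) (.cons (.rf (nat_lit 1666) (nat_lit 493858305440582043680)) .nil)))) .nil))))),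
 (.br (nat_lit 8) (nat_lit 1) (.cons (.rf (nat_lit 1663) (nat_lit 493858305440582043680)) (.cons (.rf (nat_lit 1665) (nat_lit 493858305440582043680)) (.cons (.rf (nat_lit 1667) (nat_lit 493858305440582043680)) (.cons (.rf (nat_lit 1667) (nat_lit 492741412561195473952)) (.cons (.br (nat_lit 8) (nat_lit 1) (.cons (.rf (nat_lit 1663) (nat_lit 493858305440582043680)) (.cons (.rf (nat_lit 1665) (nat_lit 493858305440582043680)) (.cons (.rf (nat_lit 1667) (nat_lit 493858305440582043680)) (.cons (.rf (nat_lit 1667) (nat_lit 492741412561195473952)) .nil))))) .nil)))))),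
 (.br (nat_lit 7) (nat_lit 1) (.cons (.rf (nat_lit 1632) (nat_lit 493858305268783356960)) (.cons (.rf (nat_lit 1647) (nat_lit 493858305268783356960)) (.cons (.rf (nat_lit 1652) (nat_lit 493858305268783356960)) (.cons (.br (nat_lit 1) (nat_lit 1) (.cons (.ev (nat_lit 72340168526332161) (nat_lit 1)) (.cons (.rf (nat_lit 29) (nat_lit 11766049)) (.cons (.rf (nat_lit 58) (nat_lit 11765801)) (.cons (.rf (nat_lit 1655) (nat_lit 493858305440582043680)) (.cons (.rf (nat_lit 1655) (nat_lit 458117738797769787424)) .nil)))))) (.cons (.rf (nat_lit 1668) (nat_lit 493858305440582043680)) (.cons (.rf (nat_lit 1668) (nat_lit 458117738797769787424)) .nil)))))))]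

theorem c53 : chkAll C T R L53 (nat_lit 1634) = true := by decide +kernel

theorem l53 : (nat_lit 1634) + L53.length = (nat_lit 1670) := by decide +kernel

/-- part of the certificates -/
def L54 : List Prf := [(.br (nat_lit 9) (nat_lit 0) (.cons (.br (nat_lit 10) (nat_lit 1) (.cons (.br (nat_lit 10) (nat_lit 1) (.cons (.br (nat_lit 10) (nat_lit 1) (.cons (.br (nat_lit 2) (nat_lit 1) (.cons (.rf (nat_lit 1632) (nat_lit 493858305440582043680)) (.cons (.kr (nat_lit 65536) (nat_lit 72057594037927936) (nat_lit 2) (nat_lit 0)) (.cons (.rf (nat_lit 1647) (nat_lit 493858305440582043680)) (.cons (.rf (nat_lit 1652) (nat_lit 493858305440582043680)) (.cons (.rf (nat_lit 1669) (nat_lit 493858305440582043680)) (.cons (.rf (nat_lit 1669) (nat_lit 492741412732994160672)) (.cons (.rf (nat_lit 1669) (nat_lit 455883953382594021408)) .nil)))))))) .nil)) .nil)) .nil)) .nil)),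
 (.br (nat_lit 9) (nat_lit 0) (.cons (.rf (nat_lit 1670) (nat_lit 325702574508064)) (.cons (.br (nat_lit 9) (nat_lit 0) (.cons (.rf (nat_lit 1670) (nat_lit 325702574508064)) .nil)) .nil))),
 (.br (nat_lit 12) (nat_lit 0) .nil),
 (.br (nat_lit 11) (nat_lit 0) (.cons (.br (nat_lit 12) (nat_lit 1) (.cons (.rf (nat_lit 1672) (nat_lit 15431909825759512608)) .nil)) .nil)),
 (.br (nat_lit 8) (nat_lit 1) (.cons (.ev (nat_lit 18518801672059224064) (nat_lit 1)) (.cons (.rf (nat_lit 29) (nat_lit 8756289)) (.cons (.rf (nat_lit 1673) (nat_lit 407901468851537952)) .nil)))),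
 (.br (nat_lit 8) (nat_lit 1) (.cons (.rf (nat_lit 1674) (nat_lit 11584701642934304)) (.cons (.rf (nat_lit 1674) (nat_lit 10493985066977312)) (.cons (.rf (nat_lit 29) (nat_lit 8756289)) (.cons (.rf (nat_lit 1673) (nat_lit 407901468851537952)) .nil))))),
 (.br (nat_lit 11) (nat_lit 0) (.cons (.rf (nat_lit 1672) (nat_lit 13126066816545818656)) .nil)),
 (.br (nat_lit 8) (nat_lit 1) (.cons (.rf (nat_lit 1675) (nat_lit 11584701642934304)) (.cons (.br (nat_lit 8) (nat_lit 1) (.cons (.ev (nat_lit 18518801672059224064) (nat_lit 1)) (.cons (.rf (nat_lit 1676) (nat_lit 407901468851537952)) (.cons (.rf (nat_lit 1673) (nat_lit 407901468851537952)) .nil)))) (.cons (.rf (nat_lit 1676) (nat_lit 407901468851537952)) (.cons (.rf (nat_lit 1673) (nat_lit 407901468851537952)) .nil))))),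
 (.br (nat_lit 8) (nat_lit 1) (.cons (.rf (nat_lit 1675) (nat_lit 11584701642934304)) (.cons (.rf (nat_lit 1677) (nat_lit 11584701642934304)) (.cons (.rf (nat_lit 1677) (nat_lit 10493985066977312)) (.cons (.rf (nat_lit 1676) (nat_lit 407901468851537952)) (.cons (.rf (nat_lit 1673) (nat_lit 407901468851537952)) .nil)))))),
 (.br (nat_lit 9) (nat_lit 1) (.cons (.br (nat_lit 9) (nat_lit 1) (.cons (.rf (nat_lit 82) (nat_lit 11048159271)) (.cons (.rf (nat_lit 1673) (nat_lit 407901468851537952)) .nil))) (.cons (.rf (nat_lit 82) (nat_lit 11048159271)) (.cons (.rf (nat_lit 1673) (nat_lit 407901468851537952)) .nil)))),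
 (.br (nat_lit 10) (nat_lit 1) (.cons (.rf (nat_lit 1679) (nat_lit 11584701642934304)) (.cons (.br (nat_lit 10) (nat_lit 1) (.cons (.rf (nat_lit 1679) (nat_lit 11584701642934304)) (.cons (.rf (nat_lit 1676) (nat_lit 407901468851537952)) (.cons (.rf (nat_lit 1673) (nat_lit 407901468851537952)) .nil)))) (.cons (.rf (nat_lit 1676) (nat_lit 407901468851537952)) (.cons (.rf (nat_lit 1673) (nat_lit 407901468851537952)) .nil))))),
 (.br (nat_lit 7) (nat_lit 1) (.cons (.kr (nat_lit 1) (nat_lit 18446744073709551616) (nat_lit 0) (nat_lit 1)) (.cons (.rf (nat_lit 1680) (nat_lit 11584701642934304)) (.cons (.rf (nat_lit 1680) (nat_lit 10493986107164704)) (.cons (.rf (nat_lit 29) (nat_lit 8455527)) (.cons (.rf (nat_lit 1673) (nat_lit 407901468851537952)) .nil)))))),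
 (.br (nat_lit 8) (nat_lit 1) (.cons (.br (nat_lit 10) (nat_lit 1) (.cons (.kr (nat_lit 4722366483969156841728) (nat_lit 18446744078021296128) (nat_lit 1) (nat_lit 0)) (.cons (.rf (nat_lit 84) (nat_lit 11047836747)) (.cons (.rf (nat_lit 1673) (nat_lit 407901468851537952)) .nil)))) (.cons (.ev (nat_lit 18446744078021361664) (nat_lit 1)) (.cons (.rf (nat_lit 1339) (nat_lit 320218697762)) (.cons (.rf (nat_lit 1673) (nat_lit 407901468851537952)) .nil))))),
 (.br (nat_lit 9) (nat_lit 1) (.cons (.ev (nat_lit 72340168526332161) (nat_lit 1)) (.cons (.rf (nat_lit 1682) (nat_lit 11584701642934304)) (.cons (.br (nat_lit 9) (nat_lit 1) (.cons (.ev (nat_lit 72340168526332161) (nat_lit 1)) (.cons (.rf (nat_lit 1682) (nat_lit 11584701642934304)) (.cons (.rf (nat_lit 1676) (nat_lit 407901468851537952)) (.cons (.rf (nat_lit 1673) (nat_lit 407901468851537952)) .nil))))) (.cons (.rf (nat_lit 1676) (nat_lit 407901468851537952)) (.cons (.rf (nat_lit 1673) (nat_lit 407901468851537952)) .nil)))))),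
 (.br (nat_lit 1) (nat_lit 1) (.cons (.rf (nat_lit 1678) (nat_lit 11584529844247584)) (.cons (.rf (nat_lit 1681) (nat_lit 11584701642934304)) (.cons (.rf (nat_lit 1683) (nat_lit 11584701642934304)) (.cons (.rf (nat_lit 1683) (nat_lit 10493985066977312)) (.cons (.rf (nat_lit 1676) (nat_lit 407901468851537952)) (.cons (.rf (nat_lit 1673) (nat_lit 407901468851537952)) .nil))))))),
 (.br (nat_lit 8) (nat_lit 1) (.cons (.ev (nat_lit 72340168526332161) (nat_lit 1)) (.cons (.br (nat_lit 8) (nat_lit 1) (.cons (.ev (nat_lit 72340168526332161) (nat_lit 1)) (.cons (.rf (nat_lit 1339) (nat_lit 285658550626)) (.cons (.rf (nat_lit 1673) (nat_lit 407901468851537952)) .nil)))) (.cons (.rf (nat_lit 1339) (nat_lit 285658550626)) (.cons (.rf (nat_lit 1673) (nat_lit 407901468851537952)) .nil))))),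
 (.br (nat_lit 8) (nat_lit 1) (.cons (.br (nat_lit 9) (nat_lit 1) (.cons (.ev (nat_lit 1213648186097498819920129) (nat_lit 1)) (.cons (.rf (nat_lit 84) (nat_lit 11015334983)) (.cons (.rf (nat_lit 1673) (nat_lit 407901468851537952)) .nil)))) (.cons (.rf (nat_lit 84) (nat_lit 11047873575)) (.cons (.rf (nat_lit 1673) (nat_lit 407901468851537952)) .nil)))),
 (.br (nat_lit 8) (nat_lit 1) (.cons (.rf (nat_lit 1686) (nat_lit 11584701642934304)) (.cons (.rf (nat_lit 1686) (nat_lit 10493814308477984)) (.cons (.rf (nat_lit 1676) (nat_lit 407901468851537952)) (.cons (.rf (nat_lit 1673) (nat_lit 407901468851537952)) .nil))))),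
 (.br (nat_lit 8) (nat_lit 1) (.cons (.rf (nat_lit 1687) (nat_lit 11584701642934304)) (.cons (.br (nat_lit 8) (nat_lit 1) (.cons (.rf (nat_lit 1687) (nat_lit 11584701642934304)) (.cons (.rf (nat_lit 1676) (nat_lit 407901468851537952)) (.cons (.rf (nat_lit 1673) (nat_lit 407901468851537952)) .nil)))) (.cons (.rf (nat_lit 1676) (nat_lit 407901468851537952)) (.cons (.rf (nat_lit 1673) (nat_lit 407901468851537952)) .nil))))),
 (.br (nat_lit 8) (nat_lit 1) (.cons (.rf (nat_lit 1687) (nat_lit 11584701642934304)) (.cons (.rf (nat_lit 1688) (nat_lit 11584701642934304)) (.cons (.rf (nat_lit 1688) (nat_lit 10493814308477984)) (.cons (.rf (nat_lit 1676) (nat_lit 407901468851537952)) (.cons (.rf (nat_lit 1673) (nat_lit 407901468851537952)) .nil)))))),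
 (.br (nat_lit 7) (nat_lit 1) (.cons (.rf (nat_lit 1678) (nat_lit 11584529844247584)) (.cons (.rf (nat_lit 1684) (nat_lit 11584529844247584)) (.cons (.br (nat_lit 8) (nat_lit 1) (.cons (.ev (nat_lit 72340168526332161) (nat_lit 1)) (.cons (.rf (nat_lit 1685) (nat_lit 11584701642934304)) (.cons (.br (nat_lit 8) (nat_lit 1) (.cons (.ev (nat_lit 72340168526332161) (nat_lit 1)) (.cons (.rf (nat_lit 1685) (nat_lit 11584701642934304)) (.cons (.rf (nat_lit 1676) (nat_lit 407901468851537952)) (.cons (.rf (nat_lit 1673) (nat_lit 407901468851537952)) .nil))))) (.cons (.rf (nat_lit 1676) (nat_lit 407901468851537952)) (.cons (.rf (nat_lit 1673) (nat_lit 407901468851537952)) .nil)))))) (.cons (.rf (nat_lit 1689) (nat_lit 11584701642934304)) (.cons (.rf (nat_lit 1676) (nat_lit 407901468851537952)) (.cons (.rf (nat_lit 1673) (nat_lit 407901468851537952)) .nil))))))),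
 (.br (nat_lit 11) (nat_lit 1) (.cons (.kr (nat_lit 20282719088661563826610013995264) (nat_lit 79229371458530696296428273664) (nat_lit 1) (nat_lit 0)) .nil)),
 (.br (nat_lit 13) (nat_lit 1) (.cons (.br (nat_lit 12) (nat_lit 1) (.cons (.rf (nat_lit 1691) (nat_lit 493858305440582043680)) (.cons (.zr (nat_lit 18889467057378487698176) (nat_lit 40565438177323127654323851362305) (nat_lit 5) (nat_lit 3)) .nil))) (.cons (.ev (nat_lit 20282410817299856521450366238721) (nat_lit 1)) .nil))),
 (.br (nat_lit 13) (nat_lit 1) (.cons (.rf (nat_lit 1692) (nat_lit 493858305440582043680)) (.cons (.br (nat_lit 8) (nat_lit 1) (.cons (.br (nat_lit 11) (nat_lit 1) (.cons (.ev (nat_lit 158765814816057300495563227651) (nat_lit 2)) .nil)) (.cons (.ev (nat_lit 20282719088680010853258211950848) (nat_lit 1)) (.cons (.zr (nat_lit 40564819216748219054721775698689) (nat_lit 316912650093950839625418539008) (nat_lit 5) (nat_lit 3)) .nil)))) .nil))),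
 (.br (nat_lit 13) (nat_lit 1) (.cons (.rf (nat_lit 1692) (nat_lit 493858305440582043680)) (.cons (.rf (nat_lit 1693) (nat_lit 493858305440582043680)) (.cons (.br (nat_lit 13) (nat_lit 1) (.cons (.ev (nat_lit 20282410817299856521450366238721) (nat_lit 1)) (.cons (.rf (nat_lit 1693) (nat_lit 493858305440582043680)) .nil))) .nil)))),
 (.br (nat_lit 8) (nat_lit 1) (.cons (.br (nat_lit 12) (nat_lit 1) (.cons (.ev (nat_lit 79538861190718806809286541313) (nat_lit 1)) (.cons (.zr (nat_lit 3626832799080506699284480) (nat_lit 158456329750895439536021700609) (nat_lit 5) (nat_lit 4)) .nil))) (.cons (.rf (nat_lit 1694) (nat_lit 493858305440582043680)) .nil))),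
 (.br (nat_lit 8) (nat_lit 1) (.cons (.rf (nat_lit 1695) (nat_lit 493858305440582043680)) (.cons (.br (nat_lit 8) (nat_lit 1) (.cons (.rf (nat_lit 1695) (nat_lit 493858305440582043680)) (.cons (.rf (nat_lit 1694) (nat_lit 493858305440582043680)) .nil))) (.cons (.rf (nat_lit 1694) (nat_lit 493858305440582043680)) .nil)))),
 (.br (nat_lit 13) (nat_lit 1) (.cons (.rf (nat_lit 1694) (nat_lit 493858305440582043680)) (.cons (.rf (nat_lit 1696) (nat_lit 493858305440582043680)) (.cons (.br (nat_lit 13) (nat_lit 1) (.cons (.rf (nat_lit 1694) (nat_lit 493858305440582043680)) (.cons (.rf (nat_lit 1696) (nat_lit 493858305440582043680)) .nil))) .nil)))),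
 (.br (nat_lit 13) (nat_lit 1) (.cons (.rf (nat_lit 1694) (nat_lit 493858305440582043680)) (.cons (.rf (nat_lit 1696) (nat_lit 493858305440582043680)) (.cons (.rf (nat_lit 1697) (nat_lit 493858305440582043680)) (.cons (.br (nat_lit 13) (nat_lit 1) (.cons (.rf (nat_lit 1694) (nat_lit 493858305440582043680)) (.cons (.rf (nat_lit 1696) (nat_lit 493858305440582043680)) (.cons (.rf (nat_lit 1697) (nat_lit 493858305440582043680)) .nil)))) .nil))))),
 (.br (nat_lit 7) (nat_lit 1) (.cons (.rf (nat_lit 84) (nat_lit 12056565833)) (.cons (.br (nat_lit 11) (nat_lit 1) (.cons (.rf (nat_lit 84) (nat_lit 7896078401)) (.cons (.ev (nat_lit 309489750706911085389152256) (nat_lit 1)) .nil))) .nil))),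
 (.br (nat_lit 12) (nat_lit 1) (.cons (.br (nat_lit 11) (nat_lit 1) (.cons (.ev (nat_lit 309489750706911085389152256) (nat_lit 1)) .nil)) (.cons (.ev (nat_lit 309489750706911085389152256) (nat_lit 1)) .nil))),
 (.br (nat_lit 7) (nat_lit 1) (.cons (.ev (nat_lit 1208944338416301217153024) (nat_lit 1)) (.cons (.rf (nat_lit 1699) (nat_lit 445092485094541344)) (.cons (.ev (nat_lit 79228162514336395191876845824) (nat_lit 1)) (.cons (.br (nat_lit 8) (nat_lit 1) (.cons (.rf (nat_lit 1700) (nat_lit 15433072044983552032)) (.cons (.br (nat_lit 12) (nat_lit 1) (.cons (.ev (nat_lit 79229376180969236764406317056) (nat_lit 1)) (.cons (.zr (nat_lit 40564821625154980640107100373249) (nat_lit 158456325065422166633058664448) (nat_lit 5) (nat_lit 3)) .nil))) .nil))) .nil))))),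
 (.br (nat_lit 12) (nat_lit 1) (.cons (.rf (nat_lit 1698) (nat_lit 493858305440582043680)) (.cons (.rf (nat_lit 1701) (nat_lit 493858305440582043680)) (.cons (.br (nat_lit 8) (nat_lit 1) (.cons (.br (nat_lit 10) (nat_lit 1) (.cons (.kr (nat_lit 4722366482869645213952) (nat_lit 1208944266358702884257792) (nat_lit 1) (nat_lit 0)) (.cons (.zr (nat_lit 3626832799076108652969984) (nat_lit 158456329750895440635533197313) (nat_lit 5) (nat_lit 0)) .nil))) (.cons (.br (nat_lit 7) (nat_lit 1) (.cons (.rf (nat_lit 82) (nat_lit 13262628898)) (.cons (.br (nat_lit 11) (nat_lit 1) (.cons (.ev (nat_lit 159076513455690339170809676034) (nat_lit 2)) .nil)) .nil))) (.cons (.ev (nat_lit 79537647524085965236757070081) (nat_lit 1)) (.cons (.br (nat_lit 7) (nat_lit 1) (.cons (.zr (nat_lit 3626832799076108652969984) (nat_lit 158456329750895440635533197313) (nat_lit 5) (nat_lit 0)) (.cons (.ev (nat_lit 79537652264970967203956392193) (nat_lit 1)) (.cons (.ev (nat_lit 20361637766166007101709321568513) (nat_lit 1)) .nil))))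 .nil))))) .nil)))),
 (.br (nat_lit 12) (nat_lit 1) (.cons (.rf (nat_lit 1698) (nat_lit 493858305440582043680)) (.cons (.rf (nat_lit 1701) (nat_lit 493858305440582043680)) (.cons (.rf (nat_lit 1702) (nat_lit 493858305440582043680)) (.cons (.br (nat_lit 12) (nat_lit 1) (.cons (.rf (nat_lit 1698) (nat_lit 493858305440582043680)) (.cons (.rf (nat_lit 1701) (nat_lit 493858305440582043680)) (.cons (.rf (nat_lit 1702) (nat_lit 493858305440582043680)) .nil)))) .nil))))),
 (.br (nat_lit 6) (nat_lit 1) (.cons (.kr (nat_lit 72057594037928192) (nat_lit 18447025548686262272) (nat_lit 1) (nat_lit 0)) (.cons (.kr (nat_lit 1208925819614629174706432) (nat_lit 18447025548686262272) (nat_lit 1) (nat_lit 0)) .nil))),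
 (.br (nat_lit 12) (nat_lit 1) (.cons (.kr (nat_lit 4722366482869645213696) (nat_lit 79228162514264337593543950336) (nat_lit 9) (nat_lit 0)) (.cons (.rf (nat_lit 1703) (nat_lit 493858305440582043680)) (.cons (.br (nat_lit 7) (nat_lit 1) (.cons (.br (nat_lit 8) (nat_lit 1) (.cons (.kr (nat_lit 4722366482869645213952) (nat_lit 1208944266358702884257792) (nat_lit 1) (nat_lit 0)) (.cons (.ev (nat_lit 18447026648197890304) (nat_lit 1)) .nil))) (.cons (.rf (nat_lit 84) (nat_lit 9004457025)) (.cons (.br (nat_lit 11) (nat_lit 1) (.cons (.rf (nat_lit 1704) (nat_lit 482283501404653600)) (.cons (.ev (nat_lit 20282720302309750206683322318848) (nat_lit 1)) .nil))) .nil)))) .nil)))),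
 (.br (nat_lit 12) (nat_lit 1) (.cons (.rf (nat_lit 1698) (nat_lit 493858305440582043680)) (.cons (.rf (nat_lit 1703) (nat_lit 493858305440582043680)) (.cons (.rf (nat_lit 1705) (nat_lit 493858305440582043680)) (.cons (.br (nat_lit 12) (nat_lit 1) (.cons (.ev (nat_lit 79229371440084234797206994944) (nat_lit 1)) (.cons (.rf (nat_lit 1703) (nat_lit 493858305440582043680)) (.cons (.rf (nat_lit 1705) (nat_lit 493858305440582043680)) .nil)))) .nil))))),
 (.br (nat_lit 12) (nat_lit 1) (.cons (.rf (nat_lit 1698) (nat_lit 493858305440582043680)) (.cons (.rf (nat_lit 1703) (nat_lit 493858305440582043680)) (.cons (.rf (nat_lit 1706) (nat_lit 493858305440582043680)) (.cons (.br (nat_lit 12) (nat_lit 1) (.cons (.rf (nat_lit 1698) (nat_lit 493858305440582043680)) (.cons (.rf (nat_lit 1703) (nat_lit 493858305440582043680)) (.cons (.rf (nat_lit 1706) (nat_lit 493858305440582043680)) .nil)))) .nil))))),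
 (.br (nat_lit 12) (nat_lit 1) (.cons (.rf (nat_lit 1698) (nat_lit 493858305440582043680)) (.cons (.rf (nat_lit 1703) (nat_lit 493858305440582043680)) (.cons (.rf (nat_lit 1706) (nat_lit 493858305440582043680)) (.cons (.rf (nat_lit 1707) (nat_lit 493858305440582043680)) (.cons (.br (nat_lit 12) (nat_lit 1) (.cons (.rf (nat_lit 1698) (nat_lit 493858305440582043680)) (.cons (.rf (nat_lit 1703) (nat_lit 493858305440582043680)) (.cons (.rf (nat_lit 1706) (nat_lit 493858305440582043680)) (.cons (.rf (nat_lit 1707) (nat_lit 493858305440582043680)) .nil))))) .nil)))))),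
 (.br (nat_lit 11) (nat_lit 1) (.cons (.ev (nat_lit 309485009893684142034387201) (nat_lit 1)) (.cons (.ev (nat_lit 310693954160042844918644993) (nat_lit 1)) .nil))),
 (.br (nat_lit 11) (nat_lit 1) (.cons (.rf (nat_lit 1339) (nat_lit 392259770593)) (.cons (.kr (nat_lit 4722366482869645213696) (nat_lit 309485009821345068724781056) (nat_lit 9) (nat_lit 0)) (.cons (.br (nat_lit 8) (nat_lit 1) (.cons (.zr (nat_lit 18889467057378487698177) (nat_lit 1237940076178869526141730816) (nat_lit 5) (nat_lit 3)) (.cons (.rf (nat_lit 1709) (nat_lit 15433072044983552032)) (.cons (.zr (nat_lit 9444734091639197270785) (nat_lit 618970056536179388692168704) (nat_lit 5) (nat_lit 3)) .nil)))) .nil))))]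

theorem c54 : chkAll C T R L54 (nat_lit 1670) = true := by decide +kernel

theorem l54 : (nat_lit 1670) + L54.length = (nat_lit 1711) := by decide +kernel

/-- part of the certificates -/
def L55 : List Prf := [(.br (nat_lit 11) (nat_lit 1) (.cons (.br (nat_lit 12) (nat_lit 1) (.cons (.kr (nat_lit 79537647524085682662268797184) (nat_lit 20282410812596008840244173471744) (nat_lit 1) (nat_lit 0)) .nil)) .nil)),
 (.br (nat_lit 8) (nat_lit 1) (.cons (.rf (nat_lit 31) (nat_lit 377718082)) (.cons (.br (nat_lit 11) (nat_lit 1) (.cons (.rf (nat_lit 1711) (nat_lit 493858305440582043680)) (.cons (.br (nat_lit 12) (nat_lit 1) (.cons (.rf (nat_lit 1711) (nat_lit 493858305440582043680)) (.cons (.zr (nat_lit 18889467057378487698688) (nat_lit 40564821625192017681592170315777) (nat_lit 5) (nat_lit 3)) .nil))) .nil))) .nil))),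
 (.br (nat_lit 8) (nat_lit 1) (.cons (.br (nat_lit 11) (nat_lit 1) (.cons (.ev (nat_lit 79229376180969236764406317056) (nat_lit 1)) (.cons (.zr (nat_lit 18889465931478581052672) (nat_lit 621387908175690122018160641) (nat_lit 5) (nat_lit 0)) .nil))) (.cons (.br (nat_lit 13) (nat_lit 1) (.cons (.zr (nat_lit 18889465931478581183744) (nat_lit 40564821625192017963067147026433) (nat_lit 5) (nat_lit 0)) (.cons (.ev (nat_lit 79229376180969236764406317056) (nat_lit 1)) .nil))) .nil))),
 (.br (nat_lit 12) (nat_lit 1) (.cons (.rf (nat_lit 1713) (nat_lit 493858305440582043680)) (.cons (.br (nat_lit 12) (nat_lit 1) (.cons (.rf (nat_lit 1713) (nat_lit 493858305440582043680)) (.cons (.zr (nat_lit 9444732965739290624768) (nat_lit 158456325028528957765887983617) (nat_lit 5) (nat_lit 0)) .nil))) (.cons (.br (nat_lit 12) (nat_lit 1) (.cons (.rf (nat_lit 1713) (nat_lit 493858305440582043680)) (.cons (.zr (nat_lit 9444732965739290624768) (nat_lit 158456325028528957765887983617) (nat_lit 5) (nat_lit 0)) .nil)))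 .nil)))),
 (.br (nat_lit 8) (nat_lit 1) (.cons (.rf (nat_lit 1714) (nat_lit 493858305440582043680)) (.cons (.br (nat_lit 12) (nat_lit 1) (.cons (.zr (nat_lit 3626832799080506699284480) (nat_lit 618974742009454486383362049) (nat_lit 5) (nat_lit 4)) (.cons (.zr (nat_lit 3626832799080506699284480) (nat_lit 40564819212025851727431512096769) (nat_lit 5) (nat_lit 4)) .nil))) .nil))),
 (.br (nat_lit 8) (nat_lit 1) (.cons (.rf (nat_lit 1715) (nat_lit 493858305440582043680)) (.cons (.rf (nat_lit 1714) (nat_lit 493858305440582043680)) (.cons (.br (nat_lit 8) (nat_lit 1) (.cons (.rf (nat_lit 1715) (nat_lit 493858305440582043680)) (.cons (.rf (nat_lit 1714) (nat_lit 493858305440582043680)) .nil))) .nil)))),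
 (.br (nat_lit 12) (nat_lit 1) (.cons (.rf (nat_lit 1714) (nat_lit 493858305440582043680)) (.cons (.rf (nat_lit 1716) (nat_lit 493858305440582043680)) (.cons (.br (nat_lit 12) (nat_lit 1) (.cons (.zr (nat_lit 9444732965739290624768) (nat_lit 158456325028528957765887983617) (nat_lit 5) (nat_lit 0)) (.cons (.rf (nat_lit 1716) (nat_lit 493858305440582043680)) .nil))) .nil)))),
 (.br (nat_lit 2) (nat_lit 1) (.cons (.br (nat_lit 11) (nat_lit 1) (.cons (.rf (nat_lit 1339) (nat_lit 392259770593)) (.cons (.rf (nat_lit 1343) (nat_lit 422352005345)) (.cons (.rf (nat_lit 1710) (nat_lit 493858305440582043680)) (.cons (.br (nat_lit 11) (nat_lit 1) (.cons (.rf (nat_lit 1339) (nat_lit 392259770593)) (.cons (.ev (nat_lit 310693935641242272387825664) (nat_lit 1)) (.cons (.rf (nat_lit 1710) (nat_lit 493858305440582043680)) .nil)))) .nil))))) (.cons (.br (nat_lit 8) (nat_lit 1) (.cons (.rf (nat_lit 31) (nat_lit 377718082)) (.cons (.rf (nat_lit 1712) (nat_lit 493858305440582043680)) (.cons (.br (nat_lit 8) (nat_lit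 1) (.cons (.rf (nat_lit 31) (nat_lit 377718082)) (.cons (.rf (nat_lit 1712) (nat_lit 493858305440582043680)) .nil))) .nil)))) (.cons (.rf (nat_lit 1708) (nat_lit 493858305440582043680)) (.cons (.rf (nat_lit 1708) (nat_lit 492741412732994160672)) (.cons (.br (nat_lit 12) (nat_lit 1) (.cons (.rf (nat_lit 1714) (nat_lit 493858305440582043680)) (.cons (.rf (nat_lit 1716) (nat_lit 493858305440582043680)) (.cons (.rf (nat_lit 1717) (nat_lit 493858305440582043680)) (.cons (.br (nat_lit 12) (nat_lit 1) (.cons (.rf (nat_lit 1714) (nat_lit 493858305440582043680)) (.cons (.rf (nat_lit 1716) (nat_lit 493858305440582043680)) (.cons (.rf (nat_lit 1717) (nat_lit 493858305440582043680)) .nil)))) .nil))))) .nil)))))),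
 (.br (nat_lit 2) (nat_lit 1) (.cons (.rf (nat_lit 31) (nat_lit 377816290)) (.cons (.rf (nat_lit 1339) (nat_lit 392159107393)) (.cons (.rf (nat_lit 1339) (nat_lit 289083299874)) (.cons (.rf (nat_lit 1708) (nat_lit 492741412732994160672)) (.cons (.br (nat_lit 7) (nat_lit 1) (.cons (.ev (nat_lit 1208944338416301217153024) (nat_lit 1)) (.cons (.ev (nat_lit 309485009893402667057676544) (nat_lit 1)) (.cons (.rf (nat_lit 1718) (nat_lit 492741412732994160672)) (.cons (.br (nat_lit 8) (nat_lit 1) (.cons (.br (nat_lit 11) (nat_lit 1) (.cons (.br (nat_lit 12) (nat_lit 1) (.cons (.zr (nat_lit 9444732965739290624768) (nat_lit 158456325028528957765887983617) (nat_lit 5) (nat_lit 0)) .nil)) (.cons (.ev (nat_lit 310698676526244239587147776) (nat_lit 1)) .nil))) (.cons (.rf (nat_lit 84) (nat_lit 12093267018)) .nil))) .nil))))) .nil)))))),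
 (.br (nat_lit 12) (nat_lit 1) (.cons (.rf (nat_lit 1708) (nat_lit 492741412732994160672)) (.cons (.kr (nat_lit 4722366482869645213696) (nat_lit 79228162514264337593543950336) (nat_lit 9) (nat_lit 0)) (.cons (.rf (nat_lit 1719) (nat_lit 492741412732994160672)) (.cons (.br (nat_lit 2) (nat_lit 1) (.cons (.zr (nat_lit 237684487542793012780632048384) (nat_lit 618974742009455585894858753) (nat_lit 5) (nat_lit 0)) (.cons (.ev (nat_lit 79229371458530978870916546561) (nat_lit 1)) (.cons (.zr (nat_lit 9444732965739290624768) (nat_lit 618970019642972716249645057) (nat_lit 5) (nat_lit 0)) .nil)))) .nil))))),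
 (.br (nat_lit 11) (nat_lit 1) (.cons (.rf (nat_lit 1708) (nat_lit 493858305440582043680)) (.cons (.rf (nat_lit 1718) (nat_lit 493858305440582043680)) (.cons (.rf (nat_lit 1719) (nat_lit 493858305440582043680)) (.cons (.br (nat_lit 12) (nat_lit 1) (.cons (.rf (nat_lit 1708) (nat_lit 492741412732994160672)) (.cons (.rf (nat_lit 1718) (nat_lit 492741412732994160672)) (.cons (.br (nat_lit 2) (nat_lit 1) (.cons (.rf (nat_lit 1593) (nat_lit 424171284706)) (.cons (.rf (nat_lit 1593) (nat_lit 424171281730)) (.cons (.ev (nat_lit 79537647524085965236757070081) (nat_lit 1)) (.cons (.zr (nat_lit 9444732965739290624768) (nat_lit 618970019642972716249645057) (nat_lit 5) (nat_lit 0)) .nil))))) (.cons (.rf (nat_lit 1720) (nat_lit 493858305440582043680)) (.cons (.br (nat_lit 12) (nat_lit 1) (.cons (.rf (nat_lit 1708) (nat_lit 492741412732994160672)) (.cons (.rf (nat_lit 1718) (nat_lit 492741412732994160672)) (.cons (.kr (nat_lit 309485009821345068724781056) (nat_lit 79228162514264337593543950336) (nat_lit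 11) (nat_lit 0)) (.cons (.rf (nat_lit 1720) (nat_lit 493858305440582043680)) .nil))))) .nil)))))) .nil))))),
 (.br (nat_lit 11) (nat_lit 1) (.cons (.rf (nat_lit 1708) (nat_lit 493858305440582043680)) (.cons (.rf (nat_lit 1718) (nat_lit 493858305440582043680)) (.cons (.rf (nat_lit 1719) (nat_lit 493858305440582043680)) (.cons (.rf (nat_lit 1721) (nat_lit 493858305440582043680)) (.cons (.br (nat_lit 11) (nat_lit 1) (.cons (.rf (nat_lit 1708) (nat_lit 493858305440582043680)) (.cons (.rf (nat_lit 1718) (nat_lit 493858305440582043680)) (.cons (.rf (nat_lit 1719) (nat_lit 493858305440582043680)) (.cons (.rf (nat_lit 1721) (nat_lit 493858305440582043680)) .nil))))) .nil)))))),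
 (.br (nat_lit 12) (nat_lit 1) (.cons (.rf (nat_lit 1708) (nat_lit 492741412732994160672)) (.cons (.rf (nat_lit 1718) (nat_lit 492741412732994160672)) (.cons (.rf (nat_lit 1722) (nat_lit 492741412732994160672)) (.cons (.br (nat_lit 12) (nat_lit 1) (.cons (.rf (nat_lit 1708) (nat_lit 492741412732994160672)) (.cons (.rf (nat_lit 1718) (nat_lit 492741412732994160672)) (.cons (.rf (nat_lit 1722) (nat_lit 492741412732994160672)) .nil)))) .nil))))),
 (.br (nat_lit 12) (nat_lit 1) (.cons (.rf (nat_lit 1708) (nat_lit 492741412732994160672)) (.cons (.rf (nat_lit 1718) (nat_lit 492741412732994160672)) (.cons (.rf (nat_lit 1722) (nat_lit 492741412732994160672)) (.cons (.rf (nat_lit 1723) (nat_lit 493858305440582043680)) (.cons (.br (nat_lit 12) (nat_lit 1) (.cons (.rf (nat_lit 1708) (nat_lit 492741412732994160672)) (.cons (.rf (nat_lit 1718) (nat_lit 492741412732994160672)) (.cons (.rf (nat_lit 1722) (nat_lit 492741412732994160672)) (.cons (.rf (nat_lit 1723) (nat_lit 493858305440582043680)) .nil)))))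 .nil)))))),
 (.br (nat_lit 11) (nat_lit 1) (.cons (.rf (nat_lit 1708) (nat_lit 493858305440582043680)) (.cons (.rf (nat_lit 1718) (nat_lit 493858305440582043680)) (.cons (.rf (nat_lit 1722) (nat_lit 493858305440582043680)) (.cons (.rf (nat_lit 1724) (nat_lit 493858305440582043680)) (.cons (.br (nat_lit 11) (nat_lit 1) (.cons (.rf (nat_lit 1708) (nat_lit 493858305440582043680)) (.cons (.rf (nat_lit 1718) (nat_lit 493858305440582043680)) (.cons (.rf (nat_lit 1722) (nat_lit 493858305440582043680)) (.cons (.rf (nat_lit 1724) (nat_lit 493858305440582043680)) .nil))))) .nil)))))),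
 (.br (nat_lit 11) (nat_lit 1) (.cons (.rf (nat_lit 1708) (nat_lit 493858305440582043680)) (.cons (.rf (nat_lit 1718) (nat_lit 493858305440582043680)) (.cons (.rf (nat_lit 1722) (nat_lit 493858305440582043680)) (.cons (.rf (nat_lit 1724) (nat_lit 493858305440582043680)) (.cons (.rf (nat_lit 1725) (nat_lit 493858305440582043680)) (.cons (.br (nat_lit 11) (nat_lit 1) (.cons (.rf (nat_lit 1708) (nat_lit 493858305440582043680)) (.cons (.rf (nat_lit 1718) (nat_lit 493858305440582043680)) (.cons (.rf (nat_lit 1722) (nat_lit 493858305440582043680)) (.cons (.rf (nat_lit 1724) (nat_lit 493858305440582043680)) (.cons (.rf (nat_lit 1725) (nat_lit 493858305440582043680)) .nil)))))) .nil))))))),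
 (.br (nat_lit 8) (nat_lit 1) (.cons (.rf (nat_lit 58) (nat_lit 8723521)) (.cons (.br (nat_lit 12) (nat_lit 1) (.cons (.rf (nat_lit 84) (nat_lit 12222536769)) (.cons (.ev (nat_lit 79537652264970967203956392193) (nat_lit 1)) .nil))) (.cons (.br (nat_lit 10) (nat_lit 1) (.cons (.br (nat_lit 12) (nat_lit 1) (.cons (.ev (nat_lit 20282720302309749924113145659648) (nat_lit 1)) .nil)) (.cons (.rf (nat_lit 84) (nat_lit 12256091201)) .nil))) .nil)))),
 (.br (nat_lit 11) (nat_lit 1) (.cons (.rf (nat_lit 1339) (nat_lit 392259934242)) (.cons (.rf (nat_lit 1343) (nat_lit 422357248034)) (.cons (.br (nat_lit 11) (nat_lit 1) (.cons (.rf (nat_lit 1339) (nat_lit 392259934242)) (.cons (.ev (nat_lit 309489732187827942681804801) (nat_lit 1)) (.cons (.rf (nat_lit 1727) (nat_lit 493858305440582043680)) .nil)))) (.cons (.br (nat_lit 11) (nat_lit 1) (.cons (.rf (nat_lit 1339) (nat_lit 392259934242)) (.cons (.rf (nat_lit 82) (nat_lit 14238853154)) (.cons (.rf (nat_lit 1727) (nat_lit 493858305440582043680)) .nil))))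 .nil))))),
 (.br (nat_lit 12) (nat_lit 1) (.cons (.ev (nat_lit 79229376180969519334616531200) (nat_lit 1)) (.cons (.zr (nat_lit 9444732965739290624768) (nat_lit 158456325028528957765887983617) (nat_lit 5) (nat_lit 0)) .nil))),
 (.br (nat_lit 8) (nat_lit 1) (.cons (.rf (nat_lit 84) (nat_lit 14336465985)) (.cons (.br (nat_lit 11) (nat_lit 1) (.cons (.rf (nat_lit 1729) (nat_lit 493858305440582043680)) (.cons (.br (nat_lit 11) (nat_lit 1) (.cons (.rf (nat_lit 1729) (nat_lit 493858305440582043680)) .nil)) .nil))) (.cons (.rf (nat_lit 84) (nat_lit 12255796298)) .nil)))),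
 (.br (nat_lit 1) (nat_lit 1) (.cons (.kr (nat_lit 1) (nat_lit 18446744073709551616) (nat_lit 0) (nat_lit 1)) (.cons (.rf (nat_lit 29) (nat_lit 8620353)) (.cons (.rf (nat_lit 1728) (nat_lit 493858305440582043680)) (.cons (.rf (nat_lit 1728) (nat_lit 492741412732994160672)) (.cons (.br (nat_lit 10) (nat_lit 1) (.cons (.rf (nat_lit 58) (nat_lit 8723521)) (.cons (.rf (nat_lit 1730) (nat_lit 493858305440582043680)) (.cons (.rf (nat_lit 1730) (nat_lit 492741412732994160672)) (.cons (.rf (nat_lit 1343) (nat_lit 388064618530)) .nil))))) .nil)))))),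
 (.br (nat_lit 7) (nat_lit 1) (.cons (.rf (nat_lit 84) (nat_lit 12154086470)) (.cons (.rf (nat_lit 84) (nat_lit 11114062913)) (.cons (.br (nat_lit 10) (nat_lit 1) (.cons (.br (nat_lit 10) (nat_lit 1) (.cons (.ev (nat_lit 1208925891953702484312321) (nat_lit 1)) .nil)) (.cons (.br (nat_lit 10) (nat_lit 1) (.cons (.ev (nat_lit 1208925891953702484312321) (nat_lit 1)) .nil)) .nil))) .nil)))),
 (.br (nat_lit 6) (nat_lit 1) (.cons (.rf (nat_lit 58) (nat_lit 7641153)) (.cons (.rf (nat_lit 1343) (nat_lit 386892273698)) (.cons (.rf (nat_lit 1732) (nat_lit 407901468851537952)) (.cons (.rf (nat_lit 1732) (nat_lit 443930265870501920)) .nil))))),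
 (.br (nat_lit 8) (nat_lit 1) (.cons (.rf (nat_lit 84) (nat_lit 14336370753)) (.cons (.br (nat_lit 11) (nat_lit 1) (.cons (.br (nat_lit 13) (nat_lit 1) (.cons (.kr (nat_lit 9444732965739290493184) (nat_lit 309485028340146736489037824) (nat_lit 1) (nat_lit 0)) (.cons (.zr (nat_lit 9444732965739290624768) (nat_lit 158456325028528957765887983617) (nat_lit 5) (nat_lit 0)) .nil))) (.cons (.br (nat_lit 12) (nat_lit 1) (.cons (.kr (nat_lit 9444732965739290493184) (nat_lit 309485028340146736489037824) (nat_lit 1) (nat_lit 0)) (.cons (.zr (nat_lit 9444732965739307401984) (nat_lit 40564821625154980359731635290113) (nat_lit 5) (nat_lit 0)) .nil))) .nil))) (.cons (.rf (nat_lit 84) (nat_lit 12255799367)) .nil)))),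
 (.br (nat_lit 1) (nat_lit 1) (.cons (.rf (nat_lit 29) (nat_lit 8718561)) (.cons (.rf (nat_lit 58) (nat_lit 8718375)) (.cons (.rf (nat_lit 1733) (nat_lit 445092485094541344)) (.cons (.rf (nat_lit 1733) (nat_lit 410189587982420000)) (.cons (.br (nat_lit 7) (nat_lit 1) (.cons (.rf (nat_lit 58) (nat_lit 8723521)) (.cons (.rf (nat_lit 1734) (nat_lit 493858305440582043680)) (.cons (.rf (nat_lit 1734) (nat_lit 492741412732994160672)) (.cons (.rf (nat_lit 1343) (nat_lit 388067761186)) .nil))))) .nil)))))),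
 (.br (nat_lit 7) (nat_lit 1) (.cons (.rf (nat_lit 31) (nat_lit 377522503)) (.cons (.kr (nat_lit 4722366482869645279488) (nat_lit 18518801667764256768) (nat_lit 1) (nat_lit 0)) (.cons (.ev (nat_lit 4722438540467978109184) (nat_lit 1)) (.cons (.br (nat_lit 10) (nat_lit 1) (.cons (.rf (nat_lit 84) (nat_lit 14238689319)) (.cons (.ev (nat_lit 1208944338698871427367168) (nat_lit 1)) (.cons (.br (nat_lit 11) (nat_lit 1) (.cons (.br (nat_lit 12) (nat_lit 1) (.cons (.zr (nat_lit 55556405003275993088) (nat_lit 158456329750895440635516420097) (nat_lit 5) (nat_lit 0)) .nil)) (.cons (.rf (nat_lit 84) (nat_lit 8972708066)) .nil))) .nil)))) .nil))))),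
 (.br (nat_lit 11) (nat_lit 1) (.cons (.br (nat_lit 12) (nat_lit 1) (.cons (.kr (nat_lit 79228171958997303332834443520) (nat_lit 20282720297605830185312898252800) (nat_lit 1) (nat_lit 0)) .nil)) (.cons (.rf (nat_lit 84) (nat_lit 8972904482)) .nil))),
 (.br (nat_lit 10) (nat_lit 1) (.cons (.rf (nat_lit 84) (nat_lit 14238689505)) (.cons (.ev (nat_lit 1208944338698871427367168) (nat_lit 1)) (.cons (.rf (nat_lit 1737) (nat_lit 493858305440582043680)) .nil)))),
 (.br (nat_lit 7) (nat_lit 1) (.cons (.ev (nat_lit 4722438540467978109184) (nat_lit 1)) (.cons (.ev (nat_lit 1208944338698871427367168) (nat_lit 1)) (.cons (.ev (nat_lit 2422592525078944735757056) (nat_lit 2)) .nil)))),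
 (.br (nat_lit 11) (nat_lit 1) (.cons (.ev (nat_lit 309485009893684142034387201) (nat_lit 1)) .nil))]

theorem c55 : chkAll C T R L55 (nat_lit 1711) = true := by decide +kernel

theorem l55 : (nat_lit 1711) + L55.length = (nat_lit 1741) := by decide +kernel

/-- part of the certificates -/
def L56 : List Prf := [(.br (nat_lit 11) (nat_lit 1) (.cons (.ev (nat_lit 4722438540467978109184) (nat_lit 1)) (.cons (.rf (nat_lit 1739) (nat_lit 493858305440582043680)) (.cons (.br (nat_lit 7) (nat_lit 1) (.cons (.rf (nat_lit 1740) (nat_lit 15433072044983552032)) (.cons (.zr (nat_lit 55556405003275993088) (nat_lit 618974742009455585878081537) (nat_lit 5) (nat_lit 0)) (.cons (.ev (nat_lit 20282719093402305278533835948033) (nat_lit 1)) .nil)))) .nil)))),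
 (.br (nat_lit 11) (nat_lit 1) (.cons (.ev (nat_lit 4722438540467978109184) (nat_lit 1)) (.cons (.rf (nat_lit 1739) (nat_lit 493858305440582043680)) (.cons (.rf (nat_lit 1741) (nat_lit 493858305440582043680)) (.cons (.br (nat_lit 11) (nat_lit 1) (.cons (.ev (nat_lit 4722438540467978109184) (nat_lit 1)) (.cons (.rf (nat_lit 1739) (nat_lit 493858305440582043680)) (.cons (.rf (nat_lit 1741) (nat_lit 493858305440582043680)) .nil)))) .nil))))),
 (.br (nat_lit 1) (nat_lit 1) (.cons (.br (nat_lit 11) (nat_lit 1) (.cons (.br (nat_lit 13) (nat_lit 1) (.cons (.zr (nat_lit 55556405003275993088) (nat_lit 618974742009455585878081537) (nat_lit 5) (nat_lit 0)) (.cons (.kr (nat_lit 79228162514264337593544016128) (nat_lit 18518801667764256768) (nat_lit 1) (nat_lit 0)) .nil))) (.cons (.br (nat_lit 12) (nat_lit 1) (.cons (.zr (nat_lit 55556405003275993088) (nat_lit 618974742009455585878081537) (nat_lit 5) (nat_lit 0)) (.cons (.zr (nat_lit 55556405003309547520) (nat_lit 40564821629877346842601280503809) (nat_lit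 5) (nat_lit 0)) .nil))) .nil))) (.cons (.ev (nat_lit 4722438540467978109184) (nat_lit 1)) (.cons (.rf (nat_lit 1742) (nat_lit 493858305440582043680)) (.cons (.kr (nat_lit 4722366482869645279488) (nat_lit 18518801667764256768) (nat_lit 1) (nat_lit 0)) .nil))))),
 (.br (nat_lit 12) (nat_lit 1) (.cons (.ev (nat_lit 79229371458530978870916546561) (nat_lit 1)) (.cons (.kr (nat_lit 4722366482869645213696) (nat_lit 79228162514264337593543950336) (nat_lit 9) (nat_lit 0)) (.cons (.br (nat_lit 1) (nat_lit 1) (.cons (.br (nat_lit 11) (nat_lit 1) (.cons (.kr (nat_lit 79537647524085682662268797184) (nat_lit 20282410812596008840244173471744) (nat_lit 1) (nat_lit 0)) .nil)) (.cons (.br (nat_lit 7) (nat_lit 1) (.cons (.ev (nat_lit 20522266531021511321762788738818) (nat_lit 3)) .nil)) (.cons (.br (nat_lit 7) (nat_lit 1) (.cons (.kr (nat_lit 79537647524085682662268797184) (nat_lit 20282410812596008840244173471744) (nat_lit 1) (nat_lit 0)) .nil)) .nil)))) .nil)))),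
 (.br (nat_lit 12) (nat_lit 1) (.cons (.rf (nat_lit 1742) (nat_lit 493858305440582043680)) (.cons (.rf (nat_lit 1743) (nat_lit 493858305440582043680)) (.cons (.rf (nat_lit 1744) (nat_lit 493858305440582043680)) (.cons (.br (nat_lit 12) (nat_lit 1) (.cons (.rf (nat_lit 1742) (nat_lit 493858305440582043680)) (.cons (.ev (nat_lit 79228167255077564541210525696) (nat_lit 1)) (.cons (.rf (nat_lit 1744) (nat_lit 493858305440582043680)) .nil)))) .nil))))),
 (.br (nat_lit 12) (nat_lit 1) (.cons (.rf (nat_lit 1742) (nat_lit 493858305440582043680)) (.cons (.rf (nat_lit 1743) (nat_lit 493858305440582043680)) (.cons (.rf (nat_lit 1744) (nat_lit 493858305440582043680)) (.cons (.br (nat_lit 12) (nat_lit 1) (.cons (.rf (nat_lit 1742) (nat_lit 493858305440582043680)) (.cons (.rf (nat_lit 1743) (nat_lit 493858305440582043680)) (.cons (.rf (nat_lit 1744) (nat_lit 493858305440582043680)) .nil)))) .nil))))),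
 (.br (nat_lit 8) (nat_lit 1) (.cons (.rf (nat_lit 1726) (nat_lit 493858305440582043680)) (.cons (.rf (nat_lit 1731) (nat_lit 493858305440582043680)) (.cons (.rf (nat_lit 1735) (nat_lit 493858305440582043680)) (.cons (.br (nat_lit 1) (nat_lit 1) (.cons (.ev (nat_lit 4740885284541687660801) (nat_lit 1)) (.cons (.rf (nat_lit 1593) (nat_lit 424204836161)) (.cons (.rf (nat_lit 1736) (nat_lit 493858305440582043680)) (.cons (.rf (nat_lit 1736) (nat_lit 492741412732994160672)) (.cons (.br (nat_lit 7) (nat_lit 1) (.cons (.rf (nat_lit 1593) (nat_lit 424204830023)) (.cons (.rf (nat_lit 1738) (nat_lit 493858305440582043680)) (.cons (.rf (nat_lit 1738) (nat_lit 492741412732994160672)) (.cons (.kr (nat_lit 4722366482869645279488) (nat_lit 18518801667764256768) (nat_lit 1) (nat_lit 0)) .nil))))) .nil)))))) (.cons (.br (nat_lit 12) (nat_lit 1) (.cons (.rf (nat_lit 1742) (nat_lit 493858305440582043680)) (.cons (.rf (nat_lit 1743) (nat_lit 493858305440582043680)) (.cons (.rf (nat_lit 1745) (nat_lit 493858305440582043680))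 (.cons (.rf (nat_lit 1746) (nat_lit 493858305440582043680)) (.cons (.br (nat_lit 12) (nat_lit 1) (.cons (.rf (nat_lit 1742) (nat_lit 493858305440582043680)) (.cons (.rf (nat_lit 1743) (nat_lit 493858305440582043680)) (.cons (.rf (nat_lit 1745) (nat_lit 493858305440582043680)) (.cons (.rf (nat_lit 1746) (nat_lit 493858305440582043680)) .nil))))) .nil)))))) .nil)))))),
 (.br (nat_lit 8) (nat_lit 1) (.cons (.rf (nat_lit 1726) (nat_lit 493858305440582043680)) (.cons (.rf (nat_lit 1731) (nat_lit 493858305440582043680)) (.cons (.rf (nat_lit 1735) (nat_lit 493858305440582043680)) (.cons (.rf (nat_lit 1747) (nat_lit 493858305440582043680)) (.cons (.rf (nat_lit 1747) (nat_lit 492741412732994160672)) (.cons (.br (nat_lit 8) (nat_lit 1) (.cons (.rf (nat_lit 1726) (nat_lit 493858305440582043680)) (.cons (.rf (nat_lit 1731) (nat_lit 493858305440582043680)) (.cons (.rf (nat_lit 1735) (nat_lit 493858305440582043680)) (.cons (.rf (nat_lit 1747) (nat_lit 493858305440582043680)) (.cons (.rf (nat_lit 1747) (nat_lit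 492741412732994160672)) .nil)))))) .nil))))))),
 (.br (nat_lit 11) (nat_lit 1) (.cons (.rf (nat_lit 82) (nat_lit 13165201447)) (.cons (.rf (nat_lit 1339) (nat_lit 391991597095)) (.cons (.br (nat_lit 2) (nat_lit 1) (.cons (.rf (nat_lit 58) (nat_lit 8723521)) (.cons (.br (nat_lit 8) (nat_lit 1) (.cons (.ev (nat_lit 79228167255077564541210525696) (nat_lit 1)) (.cons (.br (nat_lit 12) (nat_lit 1) (.cons (.ev (nat_lit 79230580384422933668634493696) (nat_lit 2)) .nil)) .nil))) (.cons (.br (nat_lit 13) (nat_lit 1) (.cons (.rf (nat_lit 84) (nat_lit 12255832289)) (.cons (.ev (nat_lit 20282719088661563826614325739521) (nat_lit 1)) .nil))) .nil)))) .nil)))),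
 (.br (nat_lit 11) (nat_lit 1) (.cons (.rf (nat_lit 1343) (nat_lit 422360385575)) (.cons (.rf (nat_lit 1339) (nat_lit 391991597095)) (.cons (.rf (nat_lit 1749) (nat_lit 493858305440582043680)) (.cons (.br (nat_lit 11) (nat_lit 1) (.cons (.rf (nat_lit 82) (nat_lit 14238943271)) (.cons (.rf (nat_lit 1339) (nat_lit 391991597095)) (.cons (.rf (nat_lit 1749) (nat_lit 493858305440582043680)) .nil)))) .nil))))),
 (.br (nat_lit 8) (nat_lit 1) (.cons (.rf (nat_lit 84) (nat_lit 14336207073)) (.cons (.br (nat_lit 11) (nat_lit 1) (.cons (.br (nat_lit 13) (nat_lit 1) (.cons (.ev (nat_lit 313111842621268913777999874) (nat_lit 2)) (.cons (.ev (nat_lit 79229371458530696300740018433) (nat_lit 1)) .nil))) (.cons (.br (nat_lit 12) (nat_lit 1) (.cons (.ev (nat_lit 313111842621268913777999874) (nat_lit 2)) (.cons (.ev (nat_lit 20282409603670117168025255870721) (nat_lit 1)) .nil))) .nil))) (.cons (.rf (nat_lit 84) (nat_lit 12255799522)) .nil)))),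
 (.br (nat_lit 1) (nat_lit 1) (.cons (.rf (nat_lit 29) (nat_lit 8723521)) (.cons (.rf (nat_lit 58) (nat_lit 8723490)) (.cons (.rf (nat_lit 1750) (nat_lit 493858305440582043680)) (.cons (.rf (nat_lit 1750) (nat_lit 492741412732994160672)) (.cons (.br (nat_lit 2) (nat_lit 1) (.cons (.rf (nat_lit 58) (nat_lit 8723521)) (.cons (.rf (nat_lit 1751) (nat_lit 493858305440582043680)) (.cons (.rf (nat_lit 1751) (nat_lit 492741412732994160672)) (.cons (.rf (nat_lit 1343) (nat_lit 388067756071)) .nil))))) .nil)))))),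
 (.br (nat_lit 12) (nat_lit 1) (.cons (.kr (nat_lit 20361637766166006819134833164544) (nat_lit 310693954087703771609104384) (nat_lit 1) (nat_lit 0)) .nil)),
 (.br (nat_lit 12) (nat_lit 1) (.cons (.kr (nat_lit 20361637766166006819134833164544) (nat_lit 310693954087703771609104384) (nat_lit 1) (nat_lit 0)) .nil)),
 (.br (nat_lit 12) (nat_lit 1) (.cons (.kr (nat_lit 20361637766166006819134833164544) (nat_lit 310693954087703771609104384) (nat_lit 1) (nat_lit 0)) .nil)),
 (.br (nat_lit 2) (nat_lit 1) (.cons (.ev (nat_lit 1208925891672227507601409) (nat_lit 1)) (.cons (.rf (nat_lit 1339) (nat_lit 289183701217)) (.cons (.br (nat_lit 10) (nat_lit 1) (.cons (.ev (nat_lit 309489732187827942681804801) (nat_lit 1)) (.cons (.ev (nat_lit 79228167255077564541210525696) (nat_lit 1)) (.cons (.br (nat_lit 11) (nat_lit 1) (.cons (.ev (nat_lit 79538861190718806809286541313) (nat_lit 1)) (.cons (.rf (nat_lit 1753) (nat_lit 493858305440582043680)) .nil))) .nil)))) (.cons (.br (nat_lit 10) (nat_lit 1) (.cons (.rf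 (nat_lit 84) (nat_lit 14238853154)) (.cons (.br (nat_lit 11) (nat_lit 1) (.cons (.ev (nat_lit 79228162532783421835796611073) (nat_lit 1)) (.cons (.rf (nat_lit 1754) (nat_lit 493858305440582043680)) .nil))) (.cons (.br (nat_lit 11) (nat_lit 1) (.cons (.rf (nat_lit 1755) (nat_lit 493858305440582043680)) (.cons (.ev (nat_lit 20282409603651670423951546319104) (nat_lit 1)) .nil))) .nil)))) .nil))))),
 (.br (nat_lit 10) (nat_lit 1) (.cons (.ev (nat_lit 309489750634572016391356416) (nat_lit 1)) (.cons (.br (nat_lit 12) (nat_lit 1) (.cons (.ev (nat_lit 79231803477341996906744840705) (nat_lit 2)) (.cons (.ev (nat_lit 79228162532783421835796611073) (nat_lit 1)) .nil))) (.cons (.br (nat_lit 13) (nat_lit 1) (.cons (.ev (nat_lit 20283029796782823884320946585859) (nat_lit 2)) (.cons (.ev (nat_lit 20282409603670117168025255870721) (nat_lit 1)) .nil))) .nil)))),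
 (.br (nat_lit 11) (nat_lit 1) (.cons (.ev (nat_lit 309485028340429310977441793) (nat_lit 1)) (.cons (.ev (nat_lit 313125972899004381925671425) (nat_lit 2)) .nil))),
 (.br (nat_lit 12) (nat_lit 1) (.cons (.kr (nat_lit 20361637766166006819134833164544) (nat_lit 310693954087703771609104384) (nat_lit 1) (nat_lit 0)) .nil)),
 (.br (nat_lit 12) (nat_lit 1) (.cons (.kr (nat_lit 20361637766166006819134833164544) (nat_lit 310693954087703771609104384) (nat_lit 1) (nat_lit 0)) .nil)),
 (.br (nat_lit 10) (nat_lit 1) (.cons (.ev (nat_lit 309489732187827942681804801) (nat_lit 1)) (.cons (.br (nat_lit 11) (nat_lit 1) (.cons (.ev (nat_lit 79229376180969519334616531200) (nat_lit 1)) (.cons (.rf (nat_lit 1759) (nat_lit 493858305440582043680)) .nil))) (.cons (.br (nat_lit 11) (nat_lit 1) (.cons (.rf (nat_lit 1760) (nat_lit 493858305440582043680)) (.cons (.ev (nat_lit 20282410817299856521450366238721) (nat_lit 1)) .nil))) .nil)))),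
 (.br (nat_lit 11) (nat_lit 1) (.cons (.ev (nat_lit 309489732187827942681804801) (nat_lit 1)) (.cons (.ev (nat_lit 309485028340429310977441793) (nat_lit 1)) (.cons (.br (nat_lit 12) (nat_lit 1) (.cons (.ev (nat_lit 313125972899004381925671425) (nat_lit 2)) (.cons (.br (nat_lit 1) (nat_lit 1) (.cons (.ev (nat_lit 313125972899004381925671425) (nat_lit 2)) .nil)) .nil))) .nil)))),
 (.br (nat_lit 8) (nat_lit 1) (.cons (.kr (nat_lit 4722366482869645279232) (nat_lit 309485028268089142434332672) (nat_lit 2) (nat_lit 0)) .nil)),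
 (.br (nat_lit 11) (nat_lit 1) (.cons (.rf (nat_lit 1761) (nat_lit 493858305440582043680)) (.cons (.ev (nat_lit 309485028340429310977441793) (nat_lit 1)) (.cons (.br (nat_lit 1) (nat_lit 1) (.cons (.zr (nat_lit 3626832799076108652969984) (nat_lit 618974742009455585894858753) (nat_lit 5) (nat_lit 0)) (.cons (.ev (nat_lit 79537652264970967203956392193) (nat_lit 1)) (.cons (.rf (nat_lit 1763) (nat_lit 482283501406784577)) .nil)))) .nil)))),
 (.br (nat_lit 8) (nat_lit 1) (.cons (.rf (nat_lit 1726) (nat_lit 493858305440582043680)) (.cons (.rf (nat_lit 1748) (nat_lit 493858305440582043680)) (.cons (.rf (nat_lit 1752) (nat_lit 493858305440582043680)) (.cons (.br (nat_lit 1) (nat_lit 1) (.cons (.rf (nat_lit 1593) (nat_lit 424372611137)) (.cons (.rf (nat_lit 1593) (nat_lit 424372603201)) (.cons (.rf (nat_lit 1756) (nat_lit 493858305440582043680)) (.cons (.rf (nat_lit 1756) (nat_lit 492741412732994160672)) (.cons (.br (nat_lit 2) (nat_lit 1) (.cons (.ev (nat_lit 1208925891672227507601409) (nat_lit 1))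 (.cons (.rf (nat_lit 1757) (nat_lit 493858305440582043680)) (.cons (.rf (nat_lit 1757) (nat_lit 492741412732994160672)) (.cons (.br (nat_lit 10) (nat_lit 1) (.cons (.rf (nat_lit 1758) (nat_lit 493858305440582043680)) (.cons (.rf (nat_lit 1758) (nat_lit 492741412732994160672)) (.cons (.ev (nat_lit 20282409608392555991059132383488) (nat_lit 1)) .nil)))) .nil))))) .nil)))))) (.cons (.br (nat_lit 2) (nat_lit 1) (.cons (.br (nat_lit 10) (nat_lit 1) (.cons (.rf (nat_lit 31) (nat_lit 377822273)) (.cons (.br (nat_lit 11) (nat_lit 1) (.cons (.br (nat_lit 11) (nat_lit 1) (.cons (.zr (nat_lit 3626832799076108652969984) (nat_lit 618974742009455585894858753) (nat_lit 5) (nat_lit 0)) .nil)) (.cons (.br (nat_lit 11) (nat_lit 1) (.cons (.zr (nat_lit 3626832799076108652969984) (nat_lit 618974742009455585894858753) (nat_lit 5) (nat_lit 0)) .nil)) .nil))) (.cons (.rf (nat_lit 31) (nat_lit 444931137)) .nil)))) (.cons (.ev (nat_lit 1208925891672227507601409) (nat_lit 1)) (.cons (.br (nat_lit 1) (nat_lit 1) (.cons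 (.rf (nat_lit 31) (nat_lit 377560385)) (.cons (.rf (nat_lit 1339) (nat_lit 289183701217)) (.cons (.br (nat_lit 10) (nat_lit 1) (.cons (.rf (nat_lit 84) (nat_lit 13165111361)) (.cons (.br (nat_lit 12) (nat_lit 1) (.cons (.ev (nat_lit 79228171995963414223285059841) (nat_lit 2)) (.cons (.ev (nat_lit 79229376162522775260906979585) (nat_lit 1)) .nil))) (.cons (.br (nat_lit 12) (nat_lit 1) (.cons (.br (nat_lit 12) (nat_lit 1) (.cons (.ev (nat_lit 79537652264970967203956392193) (nat_lit 1)) .nil)) (.cons (.ev (nat_lit 20282410817299856521450366238721) (nat_lit 1)) .nil))) .nil)))) (.cons (.br (nat_lit 10) (nat_lit 1) (.cons (.rf (nat_lit 84) (nat_lit 14238853185)) (.cons (.br (nat_lit 11) (nat_lit 1) (.cons (.br (nat_lit 12) (nat_lit 1) (.cons (.ev (nat_lit 21474249722010550704508609300236) (nat_lit 4)) .nil)) (.cons (.ev (nat_lit 20282719088661563826614325739521) (nat_lit 1)) .nil))) (.cons (.ev (nat_lit 20282410812596009122818661875713) (nat_lit 1)) .nil)))) .nil))))) (.cons (.br (nat_lit 11) (nat_lit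 1) (.cons (.rf (nat_lit 1761) (nat_lit 493858305440582043680)) (.cons (.rf (nat_lit 1762) (nat_lit 493858305440582043680)) (.cons (.rf (nat_lit 1764) (nat_lit 493858305440582043680)) (.cons (.br (nat_lit 11) (nat_lit 1) (.cons (.rf (nat_lit 1761) (nat_lit 493858305440582043680)) (.cons (.rf (nat_lit 1762) (nat_lit 493858305440582043680)) (.cons (.rf (nat_lit 1764) (nat_lit 493858305440582043680)) .nil)))) .nil))))) (.cons (.br (nat_lit 10) (nat_lit 1) (.cons (.rf (nat_lit 31) (nat_lit 444669249)) (.cons (.br (nat_lit 1) (nat_lit 1) (.cons (.rf (nat_lit 84) (nat_lit 14238853154)) (.cons (.br (nat_lit 11) (nat_lit 1) (.cons (.br (nat_lit 12) (nat_lit 1) (.cons (.ev (nat_lit 20522264122503925158976319456006) (nat_lit 3)) .nil)) (.cons (.ev (nat_lit 309485028340429310977441793) (nat_lit 1)) .nil))) (.cons (.rf (nat_lit 84) (nat_lit 12093458474)) .nil)))) (.cons (.br (nat_lit 1) (nat_lit 1) (.cons (.br (nat_lit 11) (nat_lit 1) (.cons (.br (nat_lit 12) (nat_lit 1) (.cons (.zr (nat_lit 1188422437714686487567053882627)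 (nat_lit 1242808965149915572565770240) (nat_lit 10) (nat_lit 9)) .nil)) (.cons (.ev (nat_lit 20282719088661563826614325739521) (nat_lit 1)) .nil))) (.cons (.br (nat_lit 12) (nat_lit 1) (.cons (.ev (nat_lit 79229376162522775260906979585) (nat_lit 1)) (.cons (.ev (nat_lit 79228171995963414223285059841) (nat_lit 2)) .nil))) (.cons (.rf (nat_lit 84) (nat_lit 13167200298)) .nil)))) (.cons (.ev (nat_lit 20282410812577562378744952324096) (nat_lit 1)) .nil))))) .nil)))))) .nil)))))),
 (.br (nat_lit 8) (nat_lit 1) (.cons (.rf (nat_lit 1726) (nat_lit 493858305440582043680)) (.cons (.rf (nat_lit 1748) (nat_lit 493858305440582043680)) (.cons (.rf (nat_lit 1752) (nat_lit 493858305440582043680)) (.cons (.rf (nat_lit 1765) (nat_lit 493858305440582043680)) (.cons (.rf (nat_lit 1765) (nat_lit 492741412732994160672)) (.cons (.br (nat_lit 8) (nat_lit 1) (.cons (.ev (nat_lit 18447026648197890304) (nat_lit 1)) (.cons (.rf (nat_lit 1748) (nat_lit 493858305440582043680)) (.cons (.rf (nat_lit 1752) (nat_lit 493858305440582043680))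 (.cons (.rf (nat_lit 1765) (nat_lit 493858305440582043680)) (.cons (.rf (nat_lit 1765) (nat_lit 492741412732994160672)) .nil)))))) .nil)))))))]

theorem c56 : chkAll C T R L56 (nat_lit 1741) = true := by decide +kernel

theorem l56 : (nat_lit 1741) + L56.length = (nat_lit 1767) := by decide +kernel

/-- part of the certificates -/
def L57 : List Prf := [(.br (nat_lit 7) (nat_lit 1) (.cons (.ev (nat_lit 1208925891672227507601409) (nat_lit 1)) (.cons (.rf (nat_lit 1339) (nat_lit 288915429697)) (.cons (.ev (nat_lit 4722438540467978109184) (nat_lit 1)) (.cons (.br (nat_lit 11) (nat_lit 1) (.cons (.rf (nat_lit 84) (nat_lit 14238943271)) (.cons (.br (nat_lit 13) (nat_lit 1) (.cons (.br (nat_lit 12) (nat_lit 1) (.cons (.ev (nat_lit 20522268958244384770841808929028) (nat_lit 3)) .nil)) (.cons (.br (nat_lit 2) (nat_lit 1) (.cons (.ev (nat_lit 20522268958244384770841808929028) (nat_lit 3)) .nil)) .nil))) (.cons (.ev (nat_lit 309489750634854586567885056) (nat_lit 1)) .nil)))) .nil))))),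
 (.br (nat_lit 7) (nat_lit 1) (.cons (.ev (nat_lit 309489750634572016391356416) (nat_lit 1)) (.cons (.br (nat_lit 12) (nat_lit 1) (.cons (.ev (nat_lit 79229385625846317696084541441) (nat_lit 2)) (.cons (.ev (nat_lit 79229371458530696300740018433) (nat_lit 1)) .nil))) (.cons (.br (nat_lit 13) (nat_lit 1) (.cons (.ev (nat_lit 20282412035689072018678949806081) (nat_lit 2)) (.cons (.ev (nat_lit 20282409603670117168025255870721) (nat_lit 1)) .nil))) .nil)))),
 (.br (nat_lit 11) (nat_lit 1) (.cons (.ev (nat_lit 310693954087703775920849153) (nat_lit 1)) (.cons (.ev (nat_lit 310708121403325171265372161) (nat_lit 2)) .nil))),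
 (.br (nat_lit 11) (nat_lit 1) (.cons (.br (nat_lit 12) (nat_lit 1) (.cons (.ev (nat_lit 20282410812596008840248485216513) (nat_lit 1)) .nil)) .nil)),
 (.br (nat_lit 7) (nat_lit 1) (.cons (.rf (nat_lit 31) (nat_lit 377727041)) (.cons (.rf (nat_lit 31) (nat_lit 411281473)) (.cons (.br (nat_lit 11) (nat_lit 1) (.cons (.br (nat_lit 13) (nat_lit 1) (.cons (.rf (nat_lit 1770) (nat_lit 458117738797769787424)) (.cons (.ev (nat_lit 79229371458602753894777880833) (nat_lit 1)) .nil))) (.cons (.rf (nat_lit 1770) (nat_lit 458117738797769787424)) .nil))) .nil)))),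
 (.br (nat_lit 12) (nat_lit 1) (.cons (.ev (nat_lit 4722438540467978109184) (nat_lit 1)) (.cons (.ev (nat_lit 309489750634854586567885056) (nat_lit 1)) (.cons (.br (nat_lit 12) (nat_lit 1) (.cons (.ev (nat_lit 4722438540467978109184) (nat_lit 1)) (.cons (.ev (nat_lit 309489750634854586567885056) (nat_lit 1)) .nil))) .nil)))),
 (.br (nat_lit 1) (nat_lit 1) (.cons (.rf (nat_lit 84) (nat_lit 13165206562)) (.cons (.ev (nat_lit 4722438540467978109184) (nat_lit 1)) (.cons (.br (nat_lit 11) (nat_lit 1) (.cons (.ev (nat_lit 310693954087703775920849153) (nat_lit 1)) (.cons (.zr (nat_lit 60847232447177203085866614915840) (nat_lit 1547425049107006822962823169) (nat_lit 5) (nat_lit 4)) .nil))) .nil)))),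
 (.br (nat_lit 11) (nat_lit 1) (.cons (.ev (nat_lit 309489750634854586567885056) (nat_lit 1)) (.cons (.rf (nat_lit 1773) (nat_lit 493858305440582043680)) (.cons (.br (nat_lit 7) (nat_lit 1) (.cons (.ev (nat_lit 310693954087703775920849153) (nat_lit 1)) (.cons (.zr (nat_lit 237684487598349417783907844096) (nat_lit 618988909108904194813722625) (nat_lit 5) (nat_lit 0)) (.cons (.ev (nat_lit 20282720297587311383649445806081) (nat_lit 1)) .nil)))) .nil)))),
 (.br (nat_lit 7) (nat_lit 1) (.cons (.ev (nat_lit 4722438540467978109184) (nat_lit 1)) (.cons (.br (nat_lit 13) (nat_lit 1) (.cons (.ev (nat_lit 20282410812596008840248485216513) (nat_lit 1)) (.cons (.ev (nat_lit 20282410826763036231267678027777) (nat_lit 2)) .nil))) (.cons (.rf (nat_lit 84) (nat_lit 13167303745)) .nil)))),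
 (.br (nat_lit 1) (nat_lit 1) (.cons (.ev (nat_lit 4722438540467978109184) (nat_lit 1)) (.cons (.rf (nat_lit 1775) (nat_lit 493858305440582043680)) (.cons (.rf (nat_lit 84) (nat_lit 13167298599)) .nil)))),
 (.br (nat_lit 8) (nat_lit 1) (.cons (.rf (nat_lit 1726) (nat_lit 493858305440582043680)) (.cons (.rf (nat_lit 1748) (nat_lit 493858305440582043680)) (.cons (.rf (nat_lit 1766) (nat_lit 493858305440582043680)) (.cons (.br (nat_lit 1) (nat_lit 1) (.cons (.rf (nat_lit 1593) (nat_lit 424473271361)) (.cons (.rf (nat_lit 1593) (nat_lit 424473266401)) (.cons (.rf (nat_lit 1767) (nat_lit 493858305440582043680)) (.cons (.rf (nat_lit 1767) (nat_lit 492741412732994160672)) (.cons (.br (nat_lit 2) (nat_lit 1) (.cons (.ev (nat_lit 1208925891672227507601409) (nat_lit 1)) (.cons (.rf (nat_lit 1768) (nat_lit 493858305440582043680)) (.cons (.rf (nat_lit 1768) (nat_lit 492741412732994160672)) (.cons (.br (nat_lit 7) (nat_lit 1) (.cons (.rf (nat_lit 1769) (nat_lit 493858305440582043680)) (.cons (.rf (nat_lit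 1769) (nat_lit 492741412732994160672)) (.cons (.ev (nat_lit 20282410817318303265524075790336) (nat_lit 1)) .nil)))) .nil))))) .nil)))))) (.cons (.br (nat_lit 2) (nat_lit 1) (.cons (.rf (nat_lit 1771) (nat_lit 15395881028740548640)) (.cons (.ev (nat_lit 1208925891672227507601409) (nat_lit 1)) (.cons (.br (nat_lit 1) (nat_lit 1) (.cons (.rf (nat_lit 31) (nat_lit 377563361)) (.cons (.ev (nat_lit 310693954087986346097377281) (nat_lit 1)) (.cons (.br (nat_lit 7) (nat_lit 1) (.cons (.ev (nat_lit 4722438540467978109184) (nat_lit 1)) (.cons (.br (nat_lit 11) (nat_lit 1) (.cons (.ev (nat_lit 79538861172271780165400461568) (nat_lit 1)) (.cons (.br (nat_lit 12) (nat_lit 1) (.cons (.ev (nat_lit 20283652379412681571970142308102) (nat_lit 3)) .nil)) .nil))) (.cons (.br (nat_lit 11) (nat_lit 1) (.cons (.br (nat_lit 12) (nat_lit 1) (.cons (.ev (nat_lit 79850759366850784176732504320) (nat_lit 2)) .nil)) (.cons (.ev (nat_lit 20282719093383858251889916313856) (nat_lit 1)) .nil))) .nil)))) (.cons (.br (nat_lit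 7) (nat_lit 1) (.cons (.rf (nat_lit 84) (nat_lit 14238948417)) (.cons (.br (nat_lit 11) (nat_lit 1) (.cons (.br (nat_lit 12) (nat_lit 1) (.cons (.zr (nat_lit 52001948004539529760512) (nat_lit 1347497732762136711849480028161) (nat_lit 30) (nat_lit 0)) .nil)) (.cons (.ev (nat_lit 20282720297587311666219655889153) (nat_lit 1)) .nil))) (.cons (.ev (nat_lit 20282410812596009122818661875713) (nat_lit 1)) .nil)))) .nil))))) (.cons (.br (nat_lit 11) (nat_lit 1) (.cons (.rf (nat_lit 1772) (nat_lit 493858305440582043680)) (.cons (.rf (nat_lit 1773) (nat_lit 493858305440582043680)) (.cons (.rf (nat_lit 1774) (nat_lit 493858305440582043680)) (.cons (.br (nat_lit 11) (nat_lit 1) (.cons (.rf (nat_lit 1772) (nat_lit 493858305440582043680)) (.cons (.rf (nat_lit 1773) (nat_lit 493858305440582043680)) (.cons (.rf (nat_lit 1774) (nat_lit 493858305440582043680)) .nil)))) .nil))))) (.cons (.br (nat_lit 12) (nat_lit 1) (.cons (.rf (nat_lit 1775) (nat_lit 493858305440582043680)) (.cons (.rf (nat_lit 1776) (nat_lit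 493858305440582043680)) (.cons (.br (nat_lit 12) (nat_lit 1) (.cons (.rf (nat_lit 1775) (nat_lit 493858305440582043680)) (.cons (.rf (nat_lit 1776) (nat_lit 493858305440582043680)) (.cons (.ev (nat_lit 20282410826763036231267678027777) (nat_lit 2)) .nil)))) (.cons (.ev (nat_lit 20282410826763036231267678027777) (nat_lit 2)) .nil))))) .nil)))))) .nil)))))),
 (.br (nat_lit 8) (nat_lit 1) (.cons (.rf (nat_lit 1726) (nat_lit 493858305440582043680)) (.cons (.rf (nat_lit 1748) (nat_lit 493858305440582043680)) (.cons (.rf (nat_lit 1766) (nat_lit 493858305440582043680)) (.cons (.rf (nat_lit 1777) (nat_lit 493858305440582043680)) (.cons (.rf (nat_lit 1777) (nat_lit 492741412732994160672)) (.cons (.br (nat_lit 8) (nat_lit 1) (.cons (.rf (nat_lit 1726) (nat_lit 493858305440582043680)) (.cons (.rf (nat_lit 1748) (nat_lit 493858305440582043680)) (.cons (.rf (nat_lit 1766) (nat_lit 493858305440582043680)) (.cons (.rf (nat_lit 1777) (nat_lit 493858305440582043680)) (.cons (.rf (nat_lit 1777) (nat_lit 492741412732994160672))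 .nil)))))) .nil))))))),
 (.br (nat_lit 7) (nat_lit 1) (.cons (.br (nat_lit 11) (nat_lit 1) (.cons (.ev (nat_lit 79229376180969519334616531200) (nat_lit 1)) (.cons (.zr (nat_lit 932081806922879093698658304) (nat_lit 4759260253595864399873) (nat_lit 5) (nat_lit 9)) .nil))) (.cons (.br (nat_lit 13) (nat_lit 1) (.cons (.zr (nat_lit 932081806922879093698658304) (nat_lit 4759260253595864399873) (nat_lit 5) (nat_lit 9)) (.cons (.zr (nat_lit 237684487543009185562779189248) (nat_lit 4759260253595847622657) (nat_lit 5) (nat_lit 9)) .nil))) (.cons (.ev (nat_lit 4740885567111897874433) (nat_lit 1)) (.cons (.br (nat_lit 11) (nat_lit 1) (.cons (.ev (nat_lit 309489750634854586567885056) (nat_lit 1)) (.cons (.zr (nat_lit 237684487543009185562779189248) (nat_lit 4759260253595847622657) (nat_lit 5) (nat_lit 9)) (.cons (.br (nat_lit 10) (nat_lit 1) (.cons (.ev (nat_lit 20837943677780532002646751904006) (nat_lit 3)) .nil)) .nil)))) .nil))))),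
 (.br (nat_lit 7) (nat_lit 1) (.cons (.zr (nat_lit 932081806922879093698658304) (nat_lit 4759260253595864399873) (nat_lit 5) (nat_lit 9)) (.cons (.ev (nat_lit 4722438540467978109184) (nat_lit 1)) (.cons (.ev (nat_lit 4740885567111897874433) (nat_lit 1)) .nil)))),
 (.br (nat_lit 12) (nat_lit 1) (.cons (.rf (nat_lit 1779) (nat_lit 493858305440582043680)) (.cons (.ev (nat_lit 4722438540467978109184) (nat_lit 1)) (.cons (.br (nat_lit 2) (nat_lit 1) (.cons (.ev (nat_lit 79229376180969519334616531200) (nat_lit 1)) (.cons (.rf (nat_lit 1780) (nat_lit 493858305440582043680)) .nil))) (.cons (.br (nat_lit 2) (nat_lit 1) (.cons (.kr (nat_lit 79228162514264337593544016128) (nat_lit 18518801667764256768) (nat_lit 1) (nat_lit 0)) (.cons (.br (nat_lit 7) (nat_lit 1) (.cons (.zr (nat_lit 932081825585795949555351552) (nat_lit 237684492265159778229060371201) (nat_lit 5) (nat_lit 9)) .nil)) (.cons (.rf (nat_lit 1780) (nat_lit 493858305440582043680)) .nil)))) .nil))))),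
 (.br (nat_lit 12) (nat_lit 1) (.cons (.rf (nat_lit 1779) (nat_lit 493858305440582043680)) (.cons (.ev (nat_lit 4722438540467978109184) (nat_lit 1)) (.cons (.rf (nat_lit 1781) (nat_lit 493858305440582043680)) (.cons (.br (nat_lit 2) (nat_lit 1) (.cons (.zr (nat_lit 55556405003275993088) (nat_lit 158456329750895440635516420097) (nat_lit 5) (nat_lit 0)) (.cons (.ev (nat_lit 309489732187827942681804801) (nat_lit 1)) (.cons (.br (nat_lit 7) (nat_lit 1) (.cons (.zr (nat_lit 932081806922879093698658304) (nat_lit 4759260253595864399873) (nat_lit 5) (nat_lit 9)) .nil)) .nil)))) .nil))))),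
 (.br (nat_lit 12) (nat_lit 1) (.cons (.rf (nat_lit 1779) (nat_lit 493858305440582043680)) (.cons (.ev (nat_lit 4722438540467978109184) (nat_lit 1)) (.cons (.rf (nat_lit 1781) (nat_lit 493858305440582043680)) (.cons (.rf (nat_lit 1782) (nat_lit 493858305440582043680)) (.cons (.br (nat_lit 12) (nat_lit 1) (.cons (.rf (nat_lit 1779) (nat_lit 493858305440582043680)) (.cons (.ev (nat_lit 4722438540467978109184) (nat_lit 1)) (.cons (.rf (nat_lit 1781) (nat_lit 493858305440582043680)) (.cons (.rf (nat_lit 1782) (nat_lit 493858305440582043680)) .nil))))) .nil)))))),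
 (.br (nat_lit 11) (nat_lit 1) (.cons (.rf (nat_lit 31) (nat_lit 379881665)) (.cons (.ev (nat_lit 309489750706911085389152256) (nat_lit 1)) .nil))),
 (.br (nat_lit 13) (nat_lit 1) (.cons (.rf (nat_lit 31) (nat_lit 448071905)) (.cons (.ev (nat_lit 20282410817299856521450366238721) (nat_lit 1)) .nil))),
 (.br (nat_lit 1) (nat_lit 1) (.cons (.br (nat_lit 10) (nat_lit 1) (.cons (.kr (nat_lit 1208925819614629174706177) (nat_lit 309485009821345068724781312) (nat_lit 0) (nat_lit 2)) (.cons (.rf (nat_lit 1784) (nat_lit 15433072044983552032)) (.cons (.rf (nat_lit 1785) (nat_lit 493858305440582043680)) .nil)))) (.cons (.br (nat_lit 7) (nat_lit 1) (.cons (.ev (nat_lit 4740885567111897874433) (nat_lit 1)) (.cons (.br (nat_lit 13) (nat_lit 1) (.cons (.zr (nat_lit 928455029680207988321681408) (nat_lit 4759260253595847622657) (nat_lit 5) (nat_lit 9)) (.cons (.zr (nat_lit 237688114320251856668156166144) (nat_lit 4759260253595864399873) (nat_lit 5) (nat_lit 9)) .nil))) (.cons (.br (nat_lit 12) (nat_lit 1) (.cons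 (.zr (nat_lit 928455029680207988321681408) (nat_lit 4759260253595847622657) (nat_lit 5) (nat_lit 9)) (.cons (.zr (nat_lit 60847230019880830886470945538048) (nat_lit 4759260253595847622657) (nat_lit 5) (nat_lit 6)) .nil))) .nil)))) (.cons (.rf (nat_lit 1783) (nat_lit 493858305440582043680)) (.cons (.rf (nat_lit 1783) (nat_lit 492741412732994160672)) (.cons (.br (nat_lit 11) (nat_lit 1) (.cons (.ev (nat_lit 4740885567111897874433) (nat_lit 1)) (.cons (.ev (nat_lit 1213666632841576841281793) (nat_lit 1)) (.cons (.br (nat_lit 7) (nat_lit 1) (.cons (.ev (nat_lit 310698658079500165877596161) (nat_lit 1)) (.cons (.br (nat_lit 10) (nat_lit 1) (.cons (.ev (nat_lit 20998880737554596280536037655296) (nat_lit 4)) .nil)) (.cons (.zr (nat_lit 928455029680207988321681408) (nat_lit 4759260253595847622657) (nat_lit 5) (nat_lit 9)) .nil)))) (.cons (.br (nat_lit 7) (nat_lit 1) (.cons (.ev (nat_lit 310698676526526809797361920) (nat_lit 1)) (.cons (.zr (nat_lit 928455029680207988321681408) (nat_lit 4759260253595847622657)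 (nat_lit 5) (nat_lit 9)) .nil))) .nil))))) .nil)))))),
 (.br (nat_lit 1) (nat_lit 1) (.cons (.br (nat_lit 11) (nat_lit 1) (.cons (.ev (nat_lit 79228167236630820467500974081) (nat_lit 1)) (.cons (.zr (nat_lit 932081806922879093698658304) (nat_lit 4759260253595864399873) (nat_lit 5) (nat_lit 9)) .nil))) (.cons (.rf (nat_lit 1783) (nat_lit 493858305440582043680)) (.cons (.ev (nat_lit 4722438540467978109184) (nat_lit 1)) (.cons (.br (nat_lit 2) (nat_lit 1) (.cons (.ev (nat_lit 4740885567111897874433) (nat_lit 1)) (.cons (.ev (nat_lit 1213666632841576841281793) (nat_lit 1)) (.cons (.zr (nat_lit 60847232437732686288511391760384) (nat_lit 4759260253595864399873) (nat_lit 5) (nat_lit 9)) .nil)))) .nil))))),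
 (.br (nat_lit 12) (nat_lit 1) (.cons (.ev (nat_lit 4722438540467978109184) (nat_lit 1)) (.cons (.rf (nat_lit 1786) (nat_lit 492741412732994160672)) (.cons (.rf (nat_lit 1787) (nat_lit 493858305440582043680)) (.cons (.br (nat_lit 1) (nat_lit 1) (.cons (.br (nat_lit 10) (nat_lit 1) (.cons (.zr (nat_lit 932081806922879093698658304) (nat_lit 4759260253595864399873) (nat_lit 5) (nat_lit 9)) .nil)) (.cons (.kr (nat_lit 79228162514264337593543950592) (nat_lit 1208944266358702884257792) (nat_lit 1) (nat_lit 0)) (.cons (.br (nat_lit 2) (nat_lit 1) (.cons (.zr (nat_lit 928455029464035206174540544) (nat_lit 158456329750895440635533197313) (nat_lit 5) (nat_lit 0)) .nil)) .nil)))) .nil))))),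
 (.br (nat_lit 12) (nat_lit 1) (.cons (.ev (nat_lit 4722438540467978109184) (nat_lit 1)) (.cons (.rf (nat_lit 1786) (nat_lit 492741412732994160672)) (.cons (.rf (nat_lit 1787) (nat_lit 493858305440582043680)) (.cons (.rf (nat_lit 1788) (nat_lit 493858305440582043680)) (.cons (.br (nat_lit 12) (nat_lit 1) (.cons (.ev (nat_lit 4722438540467978109184) (nat_lit 1)) (.cons (.zr (nat_lit 237684487543009185562779189248) (nat_lit 4759260253595847622657) (nat_lit 5) (nat_lit 9)) (.cons (.rf (nat_lit 1787) (nat_lit 493858305440582043680)) (.cons (.rf (nat_lit 1788) (nat_lit 493858305440582043680)) .nil))))) .nil)))))),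
 (.br (nat_lit 12) (nat_lit 1) (.cons (.rf (nat_lit 1783) (nat_lit 492741412732994160672)) (.cons (.rf (nat_lit 1786) (nat_lit 492741412732994160672)) (.cons (.rf (nat_lit 1789) (nat_lit 492741412732994160672)) (.cons (.br (nat_lit 1) (nat_lit 1) (.cons (.ev (nat_lit 309489732187827942681804801) (nat_lit 1)) (.cons (.br (nat_lit 2) (nat_lit 1) (.cons (.zr (nat_lit 928455029464035206174540544) (nat_lit 158456329750895440635533197313) (nat_lit 5) (nat_lit 0)) .nil)) (.cons (.kr (nat_lit 79228162514264337593560727552) (nat_lit 20282410812577490038576425992192) (nat_lit 3) (nat_lit 0)) .nil)))) .nil))))),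
 (.br (nat_lit 12) (nat_lit 1) (.cons (.rf (nat_lit 1783) (nat_lit 492741412732994160672)) (.cons (.rf (nat_lit 1786) (nat_lit 492741412732994160672)) (.cons (.rf (nat_lit 1789) (nat_lit 492741412732994160672)) (.cons (.rf (nat_lit 1790) (nat_lit 493858305440582043680)) (.cons (.br (nat_lit 12) (nat_lit 1) (.cons (.rf (nat_lit 1783) (nat_lit 492741412732994160672)) (.cons (.rf (nat_lit 1786) (nat_lit 492741412732994160672)) (.cons (.rf (nat_lit 1789) (nat_lit 492741412732994160672)) (.cons (.rf (nat_lit 1790) (nat_lit 493858305440582043680)) .nil))))) .nil)))))),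
 (.br (nat_lit 11) (nat_lit 1) (.cons (.rf (nat_lit 1783) (nat_lit 493858305440582043680)) (.cons (.rf (nat_lit 1786) (nat_lit 493858305440582043680)) (.cons (.rf (nat_lit 1789) (nat_lit 493858305440582043680)) (.cons (.rf (nat_lit 1791) (nat_lit 493858305440582043680)) (.cons (.br (nat_lit 12) (nat_lit 1) (.cons (.rf (nat_lit 1783) (nat_lit 492741412732994160672)) (.cons (.rf (nat_lit 1786) (nat_lit 492741412732994160672)) (.cons (.rf (nat_lit 1789) (nat_lit 492741412732994160672)) (.cons (.rf (nat_lit 1791) (nat_lit 492741412732994160672)) (.cons (.kr (nat_lit 309485009821345068724781056) (nat_lit 79228162514264337593543950336) (nat_lit 11) (nat_lit 0)) .nil)))))) .nil))))))]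

theorem c57 : chkAll C T R L57 (nat_lit 1767) = true := by decide +kernel

theorem l57 : (nat_lit 1767) + L57.length = (nat_lit 1793) := by decide +kernel

/-- part of the certificates -/
def L58 : List Prf := [(.br (nat_lit 8) (nat_lit 1) (.cons (.rf (nat_lit 1726) (nat_lit 493858305440582043680)) (.cons (.rf (nat_lit 1748) (nat_lit 493858305440582043680)) (.cons (.rf (nat_lit 1766) (nat_lit 493858305440582043680)) (.cons (.rf (nat_lit 1778) (nat_lit 493858305440582043680)) (.cons (.br (nat_lit 11) (nat_lit 1) (.cons (.rf (nat_lit 1783) (nat_lit 493858305440582043680)) (.cons (.rf (nat_lit 1786) (nat_lit 493858305440582043680)) (.cons (.rf (nat_lit 1789) (nat_lit 493858305440582043680)) (.cons (.rf (nat_lit 1791) (nat_lit 493858305440582043680)) (.cons (.rf (nat_lit 1792) (nat_lit 493858305440582043680)) (.cons (.br (nat_lit 11) (nat_lit 1) (.cons (.rf (nat_lit 1783) (nat_lit 493858305440582043680)) (.cons (.rf (nat_lit 1786) (nat_lit 493858305440582043680)) (.cons (.rf (nat_lit 1789) (nat_lit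 493858305440582043680)) (.cons (.rf (nat_lit 1791) (nat_lit 493858305440582043680)) (.cons (.rf (nat_lit 1792) (nat_lit 493858305440582043680)) .nil)))))) .nil))))))) .nil)))))),
 (.br (nat_lit 8) (nat_lit 1) (.cons (.rf (nat_lit 1726) (nat_lit 493858305440582043680)) (.cons (.rf (nat_lit 1748) (nat_lit 493858305440582043680)) (.cons (.rf (nat_lit 1766) (nat_lit 493858305440582043680)) (.cons (.rf (nat_lit 1778) (nat_lit 493858305440582043680)) (.cons (.rf (nat_lit 1793) (nat_lit 493858305440582043680)) (.cons (.br (nat_lit 8) (nat_lit 1) (.cons (.rf (nat_lit 1726) (nat_lit 493858305440582043680)) (.cons (.rf (nat_lit 1748) (nat_lit 493858305440582043680)) (.cons (.rf (nat_lit 1766) (nat_lit 493858305440582043680)) (.cons (.rf (nat_lit 1778) (nat_lit 493858305440582043680)) (.cons (.rf (nat_lit 1793) (nat_lit 493858305440582043680)) .nil)))))) .nil))))))),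
 (.br (nat_lit 11) (nat_lit 1) (.cons (.ev (nat_lit 1208925891953702484312321) (nat_lit 1)) (.cons (.br (nat_lit 10) (nat_lit 1) (.cons (.ev (nat_lit 1208925891953702484312321) (nat_lit 1)) .nil)) .nil))),
 (.br (nat_lit 8) (nat_lit 1) (.cons (.rf (nat_lit 1795) (nat_lit 15433072044983552032)) (.cons (.br (nat_lit 12) (nat_lit 1) (.cons (.ev (nat_lit 79229371458674812592656155136) (nat_lit 2)) (.cons (.ev (nat_lit 79228162514336395191876845824) (nat_lit 1)) .nil))) .nil))),
 (.br (nat_lit 9) (nat_lit 1) (.cons (.ev (nat_lit 79538856449905297295755247616) (nat_lit 1)) .nil)),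
 (.br (nat_lit 13) (nat_lit 1) (.cons (.rf (nat_lit 1796) (nat_lit 493858305440582043680)) (.cons (.br (nat_lit 8) (nat_lit 1) (.cons (.br (nat_lit 11) (nat_lit 1) (.cons (.ev (nat_lit 309499232261591047765754371) (nat_lit 2)) .nil)) (.cons (.rf (nat_lit 1797) (nat_lit 15433072045018188865)) (.cons (.ev (nat_lit 79228162514336395191876845824) (nat_lit 1)) .nil)))) .nil))),
 (.br (nat_lit 13) (nat_lit 1) (.cons (.rf (nat_lit 1796) (nat_lit 493858305440582043680)) (.cons (.rf (nat_lit 1798) (nat_lit 493858305440582043680)) (.cons (.br (nat_lit 13) (nat_lit 1) (.cons (.rf (nat_lit 1796) (nat_lit 493858305440582043680)) (.cons (.rf (nat_lit 1798) (nat_lit 493858305440582043680)) .nil))) .nil)))),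
 (.br (nat_lit 8) (nat_lit 1) (.cons (.br (nat_lit 8) (nat_lit 1) (.cons (.ev (nat_lit 1208944338417400745623808) (nat_lit 1)) (.cons (.rf (nat_lit 1795) (nat_lit 15433072044983552032)) .nil))) (.cons (.br (nat_lit 8) (nat_lit 1) (.cons (.ev (nat_lit 1208944338417400745623808) (nat_lit 1)) (.cons (.rf (nat_lit 1799) (nat_lit 493858305440582043680)) .nil))) (.cons (.rf (nat_lit 1799) (nat_lit 493858305440582043680)) .nil)))),
 (.br (nat_lit 13) (nat_lit 1) (.cons (.rf (nat_lit 1799) (nat_lit 493858305440582043680)) (.cons (.rf (nat_lit 1800) (nat_lit 493858305440582043680)) (.cons (.br (nat_lit 13) (nat_lit 1) (.cons (.rf (nat_lit 1799) (nat_lit 493858305440582043680)) (.cons (.rf (nat_lit 1800) (nat_lit 493858305440582043680)) .nil))) .nil)))),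
 (.br (nat_lit 13) (nat_lit 1) (.cons (.rf (nat_lit 1799) (nat_lit 493858305440582043680)) (.cons (.rf (nat_lit 1800) (nat_lit 493858305440582043680)) (.cons (.rf (nat_lit 1801) (nat_lit 493858305440582043680)) (.cons (.br (nat_lit 13) (nat_lit 1) (.cons (.rf (nat_lit 1799) (nat_lit 493858305440582043680)) (.cons (.rf (nat_lit 1800) (nat_lit 493858305440582043680)) (.cons (.rf (nat_lit 1801) (nat_lit 493858305440582043680)) .nil)))) .nil))))),
 (.br (nat_lit 12) (nat_lit 1) (.cons (.rf (nat_lit 84) (nat_lit 12092221666)) (.cons (.ev (nat_lit 79229371440084233697712210176) (nat_lit 1)) (.cons (.br (nat_lit 7) (nat_lit 1) (.cons (.ev (nat_lit 79229376180969237863934787840) (nat_lit 1)) (.cons (.br (nat_lit 8) (nat_lit 1) (.cons (.rf (nat_lit 84) (nat_lit 13164911690)) (.cons (.ev (nat_lit 1208944338417400745623808) (nat_lit 1)) .nil))) (.cons (.br (nat_lit 8) (nat_lit 1) (.cons (.ev (nat_lit 1208944338417400745623808) (nat_lit 1)) (.cons (.zr (nat_lit 60847232437732470397212844687362) (nat_lit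 158456329806235394675925057536) (nat_lit 5) (nat_lit 3)) .nil))) .nil)))) .nil)))),
 (.br (nat_lit 12) (nat_lit 1) (.cons (.rf (nat_lit 1802) (nat_lit 493858305440582043680)) (.cons (.ev (nat_lit 79229371440084233697712210176) (nat_lit 1)) (.cons (.br (nat_lit 7) (nat_lit 1) (.cons (.br (nat_lit 10) (nat_lit 1) (.cons (.ev (nat_lit 79848355663792481148426322434) (nat_lit 2)) (.cons (.br (nat_lit 11) (nat_lit 1) (.cons (.ev (nat_lit 79850759329956734187444699650) (nat_lit 2)) .nil)) .nil))) (.cons (.br (nat_lit 8) (nat_lit 1) (.cons (.rf (nat_lit 31) (nat_lit 377554247)) (.cons (.br (nat_lit 11) (nat_lit 1) (.cons (.ev (nat_lit 79848350959943956616815247874) (nat_lit 2)) .nil)) .nil))) (.cons (.ev (nat_lit 309489732188110512858333441) (nat_lit 1)) (.cons (.br (nat_lit 8) (nat_lit 1) (.cons (.zr (nat_lit 79228162514481073325644710656) (nat_lit 3631499825327873860829185) (nat_lit 5) (nat_lit 0)) (.cons (.ev (nat_lit 309485028340146740767228161) (nat_lit 1)) (.cons (.ev (nat_lit 20361637770906747989587973373953)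 (nat_lit 1)) .nil)))) .nil))))) .nil)))),
 (.br (nat_lit 12) (nat_lit 1) (.cons (.rf (nat_lit 1802) (nat_lit 493858305440582043680)) (.cons (.rf (nat_lit 1803) (nat_lit 493858305440582043680)) (.cons (.rf (nat_lit 1804) (nat_lit 493858305440582043680)) (.cons (.br (nat_lit 12) (nat_lit 1) (.cons (.ev (nat_lit 79228162514336395191876845824) (nat_lit 1)) (.cons (.rf (nat_lit 1803) (nat_lit 493858305440582043680)) (.cons (.rf (nat_lit 1804) (nat_lit 493858305440582043680)) .nil)))) .nil))))),
 (.br (nat_lit 8) (nat_lit 1) (.cons (.ev (nat_lit 1213666633123047523025153) (nat_lit 1)) (.cons (.zr (nat_lit 79228167236630822662229197568) (nat_lit 2417888532998885040193537) (nat_lit 5) (nat_lit 4)) (.cons (.zr (nat_lit 237684487542793014979671884544) (nat_lit 2422610899481754685407233) (nat_lit 5) (nat_lit 4)) .nil)))),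
 (.br (nat_lit 12) (nat_lit 1) (.cons (.kr (nat_lit 4722366482869645213696) (nat_lit 79228162514264337593543950336) (nat_lit 9) (nat_lit 0)) (.cons (.ev (nat_lit 79229371440084233697712210176) (nat_lit 1)) (.cons (.br (nat_lit 11) (nat_lit 1) (.cons (.ev (nat_lit 309489732188110512858333441) (nat_lit 1)) (.cons (.rf (nat_lit 1806) (nat_lit 493858305440582043680)) (.cons (.ev (nat_lit 79537647524085965236757070081) (nat_lit 1)) .nil)))) .nil)))),
 (.br (nat_lit 12) (nat_lit 1) (.cons (.rf (nat_lit 1802) (nat_lit 493858305440582043680)) (.cons (.rf (nat_lit 1805) (nat_lit 493858305440582043680)) (.cons (.rf (nat_lit 1807) (nat_lit 493858305440582043680)) (.cons (.br (nat_lit 12) (nat_lit 1) (.cons (.rf (nat_lit 1802) (nat_lit 493858305440582043680)) (.cons (.rf (nat_lit 1805) (nat_lit 493858305440582043680)) (.cons (.rf (nat_lit 1807) (nat_lit 493858305440582043680)) .nil)))) .nil))))),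
 (.br (nat_lit 12) (nat_lit 1) (.cons (.rf (nat_lit 1802) (nat_lit 493858305440582043680)) (.cons (.rf (nat_lit 1805) (nat_lit 493858305440582043680)) (.cons (.rf (nat_lit 1808) (nat_lit 493858305440582043680)) (.cons (.br (nat_lit 12) (nat_lit 1) (.cons (.rf (nat_lit 1802) (nat_lit 493858305440582043680)) (.cons (.rf (nat_lit 1805) (nat_lit 493858305440582043680)) (.cons (.rf (nat_lit 1808) (nat_lit 493858305440582043680)) .nil)))) .nil))))),
 (.br (nat_lit 12) (nat_lit 1) (.cons (.rf (nat_lit 1802) (nat_lit 493858305440582043680)) (.cons (.rf (nat_lit 1805) (nat_lit 493858305440582043680)) (.cons (.rf (nat_lit 1808) (nat_lit 493858305440582043680)) (.cons (.rf (nat_lit 1809) (nat_lit 493858305440582043680)) (.cons (.br (nat_lit 12) (nat_lit 1) (.cons (.rf (nat_lit 1802) (nat_lit 493858305440582043680)) (.cons (.rf (nat_lit 1805) (nat_lit 493858305440582043680)) (.cons (.rf (nat_lit 1808) (nat_lit 493858305440582043680)) (.cons (.rf (nat_lit 1809) (nat_lit 493858305440582043680)) .nil)))))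 .nil)))))),
 (.br (nat_lit 11) (nat_lit 1) (.cons (.rf (nat_lit 1339) (nat_lit 392259768545)) (.cons (.kr (nat_lit 4722366482869645213696) (nat_lit 309485009821345068724781056) (nat_lit 9) (nat_lit 0)) (.cons (.br (nat_lit 8) (nat_lit 1) (.cons (.zr (nat_lit 309485009822470968631624449) (nat_lit 4759259972120887820288) (nat_lit 5) (nat_lit 3)) (.cons (.br (nat_lit 12) (nat_lit 1) (.cons (.ev (nat_lit 79537652264970967203956392193) (nat_lit 1)) (.cons (.ev (nat_lit 79228162532783139265586397441) (nat_lit 1)) .nil))) (.cons (.zr (nat_lit 928455029465161106081186561) (nat_lit 14203992937860178247680) (nat_lit 5) (nat_lit 3)) .nil)))) .nil)))),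
 (.br (nat_lit 11) (nat_lit 1) (.cons (.br (nat_lit 12) (nat_lit 1) (.cons (.kr (nat_lit 79537647524085682662268797184) (nat_lit 20282410812596008840244173471744) (nat_lit 1) (nat_lit 0)) .nil)) .nil)),
 (.br (nat_lit 8) (nat_lit 1) (.cons (.rf (nat_lit 31) (nat_lit 377718082)) (.cons (.br (nat_lit 11) (nat_lit 1) (.cons (.rf (nat_lit 1812) (nat_lit 493858305440582043680)) (.cons (.br (nat_lit 12) (nat_lit 1) (.cons (.rf (nat_lit 1812) (nat_lit 493858305440582043680)) (.cons (.zr (nat_lit 20282410826744589490496781747456) (nat_lit 74077176995860447234) (nat_lit 10) (nat_lit 4)) .nil))) .nil))) .nil))),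
 (.br (nat_lit 8) (nat_lit 1) (.cons (.ev (nat_lit 1208944338417400745623808) (nat_lit 1)) (.cons (.br (nat_lit 13) (nat_lit 1) (.cons (.zr (nat_lit 18889465931478581183744) (nat_lit 40564821625192017963067147026433) (nat_lit 5) (nat_lit 0)) (.cons (.ev (nat_lit 79229371440084233697712210176) (nat_lit 1)) .nil))) .nil))),
 (.br (nat_lit 12) (nat_lit 1) (.cons (.ev (nat_lit 79228162514336395191876845824) (nat_lit 1)) (.cons (.ev (nat_lit 79229371440084233697712210176) (nat_lit 1)) (.cons (.zr (nat_lit 9444732965739290624768) (nat_lit 158456325028528957765887983617) (nat_lit 5) (nat_lit 0)) .nil)))),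
 (.br (nat_lit 12) (nat_lit 1) (.cons (.rf (nat_lit 1814) (nat_lit 493858305440582043680)) (.cons (.br (nat_lit 12) (nat_lit 1) (.cons (.rf (nat_lit 1814) (nat_lit 493858305440582043680)) (.cons (.zr (nat_lit 9444732965739290624768) (nat_lit 158456325028528957765887983617) (nat_lit 5) (nat_lit 0)) .nil))) (.cons (.rf (nat_lit 1815) (nat_lit 493858305440582043680)) .nil)))),
 (.br (nat_lit 8) (nat_lit 1) (.cons (.ev (nat_lit 1208944338417400745623808) (nat_lit 1)) (.cons (.br (nat_lit 12) (nat_lit 1) (.cons (.kr (nat_lit 309485009821345068741623808) (nat_lit 1208944266359802395885568) (nat_lit 2) (nat_lit 0)) (.cons (.zr (nat_lit 60847228810955227444623934750720) (nat_lit 2422610899482854197035009) (nat_lit 5) (nat_lit 4)) .nil))) .nil))),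
 (.br (nat_lit 8) (nat_lit 1) (.cons (.rf (nat_lit 1817) (nat_lit 493858305440582043680)) (.cons (.rf (nat_lit 1816) (nat_lit 493858305440582043680)) (.cons (.br (nat_lit 8) (nat_lit 1) (.cons (.rf (nat_lit 1817) (nat_lit 493858305440582043680)) (.cons (.rf (nat_lit 1816) (nat_lit 493858305440582043680)) .nil))) .nil)))),
 (.br (nat_lit 12) (nat_lit 1) (.cons (.rf (nat_lit 1816) (nat_lit 493858305440582043680)) (.cons (.rf (nat_lit 1818) (nat_lit 493858305440582043680)) (.cons (.br (nat_lit 12) (nat_lit 1) (.cons (.zr (nat_lit 9444732965739290624768) (nat_lit 158456325028528957765887983617) (nat_lit 5) (nat_lit 0)) (.cons (.rf (nat_lit 1818) (nat_lit 493858305440582043680)) .nil))) .nil)))),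
 (.br (nat_lit 2) (nat_lit 1) (.cons (.br (nat_lit 11) (nat_lit 1) (.cons (.rf (nat_lit 1339) (nat_lit 392259768545)) (.cons (.rf (nat_lit 1343) (nat_lit 422352005345)) (.cons (.rf (nat_lit 1811) (nat_lit 493858305440582043680)) (.cons (.br (nat_lit 11) (nat_lit 1) (.cons (.ev (nat_lit 309485009893402667057676544) (nat_lit 1)) (.cons (.rf (nat_lit 82) (nat_lit 14238689505)) (.cons (.rf (nat_lit 1811) (nat_lit 493858305440582043680)) .nil)))) .nil))))) (.cons (.br (nat_lit 8) (nat_lit 1) (.cons (.rf (nat_lit 31) (nat_lit 377718082)) (.cons (.rf (nat_lit 1813) (nat_lit 493858305440582043680)) (.cons (.br (nat_lit 8) (nat_lit 1) (.cons (.rf (nat_lit 31) (nat_lit 377718082)) (.cons (.rf (nat_lit 1813) (nat_lit 493858305440582043680)) .nil))) .nil)))) (.cons (.rf (nat_lit 1810) (nat_lit 493858305440582043680)) (.cons (.rf (nat_lit 1810) (nat_lit 492741412732994160672)) (.cons (.br (nat_lit 12) (nat_lit 1) (.cons (.rf (nat_lit 1816) (nat_lit 493858305440582043680)) (.cons (.rf (nat_lit 1818) (nat_lit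 493858305440582043680)) (.cons (.rf (nat_lit 1819) (nat_lit 493858305440582043680)) (.cons (.br (nat_lit 12) (nat_lit 1) (.cons (.rf (nat_lit 1815) (nat_lit 493858305440582043680)) (.cons (.rf (nat_lit 1818) (nat_lit 493858305440582043680)) (.cons (.rf (nat_lit 1819) (nat_lit 493858305440582043680)) .nil)))) .nil))))) .nil)))))),
 (.br (nat_lit 2) (nat_lit 1) (.cons (.rf (nat_lit 31) (nat_lit 377816290)) (.cons (.rf (nat_lit 1339) (nat_lit 392159105345)) (.cons (.rf (nat_lit 1339) (nat_lit 289083297826)) (.cons (.rf (nat_lit 1810) (nat_lit 492741412732994160672)) (.cons (.br (nat_lit 7) (nat_lit 1) (.cons (.rf (nat_lit 84) (nat_lit 14336465954)) (.cons (.rf (nat_lit 84) (nat_lit 14238656738)) (.cons (.rf (nat_lit 1820) (nat_lit 492741412732994160672)) (.cons (.br (nat_lit 8) (nat_lit 1) (.cons (.br (nat_lit 13) (nat_lit 1) (.cons (.ev (nat_lit 310693935641241172893040896) (nat_lit 1)) (.cons (.rf (nat_lit 1815) (nat_lit 493858305440582043680)) .nil))) (.cons (.ev (nat_lit 1208944338417400745623808)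 (nat_lit 1)) .nil))) .nil))))) .nil)))))),
 (.br (nat_lit 12) (nat_lit 1) (.cons (.rf (nat_lit 1810) (nat_lit 492741412732994160672)) (.cons (.kr (nat_lit 4722366482869645213696) (nat_lit 79228162514264337593543950336) (nat_lit 9) (nat_lit 0)) (.cons (.rf (nat_lit 1821) (nat_lit 492741412732994160672)) (.cons (.rf (nat_lit 1806) (nat_lit 493858305440582043680)) .nil)))))]

theorem c58 : chkAll C T R L58 (nat_lit 1793) = true := by decide +kernel

theorem l58 : (nat_lit 1793) + L58.length = (nat_lit 1823) := by decide +kernel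

end Pool.Agent.H93.Neg.Q14_4_4_0_4_2
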