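import Pool.Agent.H93.Neg.TabQ14_4_4_0_4_2

/-!
Certificates.
-/

set_option autoImplicit false
set_option maxRecDepth 100000
set_option linter.all false

namespace Pool.Agent.H93.Neg.Q14_4_4_0_4_2

/-- part of the certificates -/
def L59 : List Prf := [(.br (nat_lit 11) (nat_lit 1) (.cons (.rf (nat_lit 1810) (nat_lit 493858305440582043680)) (.cons (.rf (nat_lit 1820) (nat_lit 493858305440582043680)) (.cons (.rf (nat_lit 1821) (nat_lit 493858305440582043680)) (.cons (.br (nat_lit 12) (nat_lit 1) (.cons (.rf (nat_lit 1810) (nat_lit 492741412732994160672)) (.cons (.rf (nat_lit 1820) (nat_lit 492741412732994160672)) (.cons (.br (nat_lit 2) (nat_lit 1) (.cons (.ev (nat_lit 309485028340146740767228161) (nat_lit 1)) (.cons (.rf (nat_lit 1593) (nat_lit 424171281730)) (.cons (.rf (nat_lit 1810) (nat_lit 492741412732994160672)) (.cons (.zr (nat_lit 9444732965739290624768) (nat_lit 618970019642972716249645057) (nat_lit 5) (nat_lit 0)) .nil))))) (.cons (.rf (nat_lit 1822) (nat_lit 493858305440582043680)) (.cons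 (.br (nat_lit 12) (nat_lit 1) (.cons (.rf (nat_lit 1810) (nat_lit 492741412732994160672)) (.cons (.rf (nat_lit 1820) (nat_lit 492741412732994160672)) (.cons (.kr (nat_lit 309485009821345068724781056) (nat_lit 79228162514264337593543950336) (nat_lit 11) (nat_lit 0)) (.cons (.rf (nat_lit 1822) (nat_lit 493858305440582043680)) .nil))))) .nil)))))) .nil))))),
 (.br (nat_lit 11) (nat_lit 1) (.cons (.rf (nat_lit 1810) (nat_lit 493858305440582043680)) (.cons (.rf (nat_lit 1820) (nat_lit 493858305440582043680)) (.cons (.rf (nat_lit 1821) (nat_lit 493858305440582043680)) (.cons (.rf (nat_lit 1823) (nat_lit 493858305440582043680)) (.cons (.br (nat_lit 11) (nat_lit 1) (.cons (.rf (nat_lit 1810) (nat_lit 493858305440582043680)) (.cons (.ev (nat_lit 309485009893402667057676544) (nat_lit 1)) (.cons (.rf (nat_lit 1821) (nat_lit 493858305440582043680)) (.cons (.rf (nat_lit 1823) (nat_lit 493858305440582043680)) .nil))))) .nil)))))),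
 (.br (nat_lit 12) (nat_lit 1) (.cons (.rf (nat_lit 1810) (nat_lit 492741412732994160672)) (.cons (.rf (nat_lit 1820) (nat_lit 492741412732994160672)) (.cons (.rf (nat_lit 1824) (nat_lit 492741412732994160672)) (.cons (.br (nat_lit 12) (nat_lit 1) (.cons (.rf (nat_lit 1810) (nat_lit 492741412732994160672)) (.cons (.rf (nat_lit 1820) (nat_lit 492741412732994160672)) (.cons (.rf (nat_lit 1824) (nat_lit 492741412732994160672)) .nil)))) .nil))))),
 (.br (nat_lit 12) (nat_lit 1) (.cons (.rf (nat_lit 1810) (nat_lit 492741412732994160672)) (.cons (.rf (nat_lit 1820) (nat_lit 492741412732994160672)) (.cons (.rf (nat_lit 1824) (nat_lit 492741412732994160672)) (.cons (.rf (nat_lit 1825) (nat_lit 493858305440582043680)) (.cons (.br (nat_lit 12) (nat_lit 1) (.cons (.rf (nat_lit 1810) (nat_lit 492741412732994160672)) (.cons (.rf (nat_lit 1820) (nat_lit 492741412732994160672)) (.cons (.rf (nat_lit 1824) (nat_lit 492741412732994160672)) (.cons (.rf (nat_lit 1825) (nat_lit 493858305440582043680)) .nil))))) .nil)))))),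
 (.br (nat_lit 11) (nat_lit 1) (.cons (.rf (nat_lit 1810) (nat_lit 493858305440582043680)) (.cons (.rf (nat_lit 1820) (nat_lit 493858305440582043680)) (.cons (.rf (nat_lit 1824) (nat_lit 493858305440582043680)) (.cons (.rf (nat_lit 1826) (nat_lit 493858305440582043680)) (.cons (.br (nat_lit 11) (nat_lit 1) (.cons (.rf (nat_lit 1810) (nat_lit 493858305440582043680)) (.cons (.rf (nat_lit 1820) (nat_lit 493858305440582043680)) (.cons (.rf (nat_lit 1824) (nat_lit 493858305440582043680)) (.cons (.rf (nat_lit 1826) (nat_lit 493858305440582043680)) .nil))))) .nil)))))),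
 (.br (nat_lit 11) (nat_lit 1) (.cons (.rf (nat_lit 1810) (nat_lit 493858305440582043680)) (.cons (.rf (nat_lit 1820) (nat_lit 493858305440582043680)) (.cons (.rf (nat_lit 1824) (nat_lit 493858305440582043680)) (.cons (.rf (nat_lit 1826) (nat_lit 493858305440582043680)) (.cons (.rf (nat_lit 1827) (nat_lit 493858305440582043680)) (.cons (.br (nat_lit 11) (nat_lit 1) (.cons (.rf (nat_lit 1810) (nat_lit 493858305440582043680)) (.cons (.rf (nat_lit 1820) (nat_lit 493858305440582043680)) (.cons (.rf (nat_lit 1824) (nat_lit 493858305440582043680)) (.cons (.rf (nat_lit 1826) (nat_lit 493858305440582043680)) (.cons (.rf (nat_lit 1827) (nat_lit 493858305440582043680)) .nil)))))) .nil))))))),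
 (.br (nat_lit 11) (nat_lit 1) (.cons (.rf (nat_lit 1339) (nat_lit 392259932194)) (.cons (.rf (nat_lit 1343) (nat_lit 422357248034)) (.cons (.br (nat_lit 11) (nat_lit 1) (.cons (.rf (nat_lit 1339) (nat_lit 392259932194)) (.cons (.rf (nat_lit 82) (nat_lit 13165111330)) (.cons (.ev (nat_lit 309489732187827942681804801) (nat_lit 1)) .nil)))) (.cons (.br (nat_lit 11) (nat_lit 1) (.cons (.rf (nat_lit 1339) (nat_lit 392259932194)) (.cons (.rf (nat_lit 82) (nat_lit 14238853154)) (.cons (.ev (nat_lit 309489732187827942681804801) (nat_lit 1)) .nil)))) .nil))))),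
 (.br (nat_lit 8) (nat_lit 1) (.cons (.ev (nat_lit 1208944338697771898896384) (nat_lit 1)) (.cons (.br (nat_lit 11) (nat_lit 1) (.cons (.br (nat_lit 13) (nat_lit 1) (.cons (.zr (nat_lit 3626832799357592219418624) (nat_lit 618974742009174106623311873) (nat_lit 5) (nat_lit 3)) (.cons (.zr (nat_lit 9444732965739290624768) (nat_lit 158456325028528957765887983617) (nat_lit 5) (nat_lit 0)) .nil))) (.cons (.br (nat_lit 12) (nat_lit 1) (.cons (.zr (nat_lit 3626832799357592219418624) (nat_lit 618974742009174106623311873) (nat_lit 5) (nat_lit 3)) (.cons (.kr (nat_lit 4722366482873940246528) (nat_lit 20282409603651742763016265924608) (nat_lit 2) (nat_lit 0)) .nil))) .nil))) (.cons (.rf (nat_lit 84) (nat_lit 12255796298)) .nil)))),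
 (.br (nat_lit 1) (nat_lit 1) (.cons (.kr (nat_lit 1) (nat_lit 18446744073709551616) (nat_lit 0) (nat_lit 1)) (.cons (.ev (nat_lit 1208925891953698189344769) (nat_lit 1)) (.cons (.rf (nat_lit 1829) (nat_lit 493858305440582043680)) (.cons (.rf (nat_lit 1829) (nat_lit 492741412732994160672)) (.cons (.br (nat_lit 10) (nat_lit 1) (.cons (.zr (nat_lit 144396671659343872) (nat_lit 2417851639230357861040641) (nat_lit 5) (nat_lit 5)) (.cons (.rf (nat_lit 1830) (nat_lit 493858305440582043680)) (.cons (.rf (nat_lit 1830) (nat_lit 492741412732994160672)) (.cons (.rf (nat_lit 1343) (nat_lit 388064618530)) .nil))))) .nil)))))),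
 (.br (nat_lit 11) (nat_lit 1) (.cons (.rf (nat_lit 1339) (nat_lit 392159367202)) (.cons (.rf (nat_lit 1339) (nat_lit 391958040802)) (.cons (.br (nat_lit 1) (nat_lit 1) (.cons (.ev (nat_lit 1208925891953698189344769) (nat_lit 1)) (.cons (.br (nat_lit 12) (nat_lit 1) (.cons (.ev (nat_lit 79229371458530977771421761793) (nat_lit 1)) (.cons (.ev (nat_lit 79228167236630820467500974081) (nat_lit 1)) .nil))) (.cons (.zr (nat_lit 9444732965739290624768) (nat_lit 618970019642972716249645057) (nat_lit 5) (nat_lit 0)) .nil)))) .nil)))),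
 (.br (nat_lit 11) (nat_lit 1) (.cons (.rf (nat_lit 1339) (nat_lit 392159367202)) (.cons (.rf (nat_lit 1339) (nat_lit 391958040802)) (.cons (.rf (nat_lit 1832) (nat_lit 493858305440582043680)) (.cons (.br (nat_lit 11) (nat_lit 1) (.cons (.rf (nat_lit 1339) (nat_lit 392159367202)) (.cons (.rf (nat_lit 1339) (nat_lit 391958040802)) (.cons (.rf (nat_lit 1832) (nat_lit 493858305440582043680)) .nil)))) .nil))))),
 (.br (nat_lit 8) (nat_lit 1) (.cons (.rf (nat_lit 58) (nat_lit 8718375)) (.cons (.rf (nat_lit 58) (nat_lit 8723521)) (.cons (.rf (nat_lit 1833) (nat_lit 493858305440582043680)) (.cons (.rf (nat_lit 1833) (nat_lit 492741412732994160672)) (.cons (.ev (nat_lit 18446744078021361664) (nat_lit 1)) .nil)))))),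
 (.br (nat_lit 7) (nat_lit 1) (.cons (.rf (nat_lit 84) (nat_lit 13164947681)) (.cons (.rf (nat_lit 84) (nat_lit 12092251178)) (.cons (.rf (nat_lit 1700) (nat_lit 15398169147873526848)) .nil)))),
 (.br (nat_lit 1) (nat_lit 1) (.cons (.rf (nat_lit 31) (nat_lit 377817313)) (.cons (.rf (nat_lit 1339) (nat_lit 289083297857)) (.cons (.rf (nat_lit 1835) (nat_lit 493858305440582043680)) (.cons (.br (nat_lit 13) (nat_lit 1) (.cons (.kr (nat_lit 4722366482869645279488) (nat_lit 18518801667764256768) (nat_lit 1) (nat_lit 0)) (.cons (.ev (nat_lit 310693935641241172893040896) (nat_lit 1)) (.cons (.br (nat_lit 7) (nat_lit 1) (.cons (.zr (nat_lit 144396671659343872) (nat_lit 2417851639230357861040641) (nat_lit 5) (nat_lit 5)) (.cons (.rf (nat_lit 1587) (nat_lit 492586852182309046601)) (.cons (.kr (nat_lit 4722366482869645279488) (nat_lit 18518801667764256768) (nat_lit 1) (nat_lit 0)) .nil)))) .nil)))) .nil))))),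
 (.br (nat_lit 10) (nat_lit 1) (.cons (.rf (nat_lit 1699) (nat_lit 410189587984516160)) (.cons (.zr (nat_lit 9444733247222857269248) (nat_lit 2417888532718505296920577) (nat_lit 5) (nat_lit 5)) (.cons (.zr (nat_lit 144396671659343872) (nat_lit 2417851639230357861040641) (nat_lit 5) (nat_lit 5)) .nil)))),
 (.br (nat_lit 12) (nat_lit 1) (.cons (.rf (nat_lit 1837) (nat_lit 493858305440582043680)) (.cons (.zr (nat_lit 9444733247222857269248) (nat_lit 2417888532718505296920577) (nat_lit 5) (nat_lit 5)) (.cons (.br (nat_lit 12) (nat_lit 1) (.cons (.rf (nat_lit 1837) (nat_lit 493858305440582043680)) (.cons (.zr (nat_lit 9444733247222857269248) (nat_lit 2417888532718505296920577) (nat_lit 5) (nat_lit 5)) (.cons (.ev (nat_lit 79228167236630820467500974081) (nat_lit 1)) .nil)))) (.cons (.br (nat_lit 12) (nat_lit 1) (.cons (.rf (nat_lit 1837) (nat_lit 493858305440582043680)) (.cons (.zr (nat_lit 9444733247222857269248) (nat_lit 2417888532718505296920577) (nat_lit 5) (nat_lit 5)) (.cons (.ev (nat_lit 79228167236630820467500974081)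 (nat_lit 1)) .nil)))) .nil))))),
 (.br (nat_lit 12) (nat_lit 1) (.cons (.rf (nat_lit 1838) (nat_lit 493858305440582043680)) (.cons (.zr (nat_lit 9444733247222857269248) (nat_lit 2417888532718505296920577) (nat_lit 5) (nat_lit 5)) (.cons (.br (nat_lit 1) (nat_lit 1) (.cons (.kr (nat_lit 79228162514264337593544016128) (nat_lit 18518801667764256768) (nat_lit 1) (nat_lit 0)) (.cons (.ev (nat_lit 79228162514336395191876845824) (nat_lit 1)) (.cons (.kr (nat_lit 4722366482869645279488) (nat_lit 18518801667764256768) (nat_lit 1) (nat_lit 0)) .nil)))) .nil)))),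
 (.br (nat_lit 12) (nat_lit 1) (.cons (.rf (nat_lit 1838) (nat_lit 493858305440582043680)) (.cons (.zr (nat_lit 9444733247222857269248) (nat_lit 2417888532718505296920577) (nat_lit 5) (nat_lit 5)) (.cons (.rf (nat_lit 1839) (nat_lit 493858305440582043680)) (.cons (.br (nat_lit 12) (nat_lit 1) (.cons (.rf (nat_lit 1838) (nat_lit 493858305440582043680)) (.cons (.zr (nat_lit 9444733247222857269248) (nat_lit 2417888532718505296920577) (nat_lit 5) (nat_lit 5)) (.cons (.rf (nat_lit 1839) (nat_lit 493858305440582043680)) .nil)))) .nil))))),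
 (.br (nat_lit 12) (nat_lit 1) (.cons (.rf (nat_lit 1838) (nat_lit 493858305440582043680)) (.cons (.rf (nat_lit 1840) (nat_lit 493858305440582043680)) (.cons (.zr (nat_lit 9444733247222857269248) (nat_lit 2417888532718505296920577) (nat_lit 5) (nat_lit 5)) (.cons (.br (nat_lit 12) (nat_lit 1) (.cons (.ev (nat_lit 79228167236630820467500974081) (nat_lit 1)) (.cons (.rf (nat_lit 1840) (nat_lit 493858305440582043680)) (.cons (.zr (nat_lit 9444733247222857269248) (nat_lit 2417888532718505296920577) (nat_lit 5) (nat_lit 5)) .nil)))) .nil))))),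
 (.br (nat_lit 8) (nat_lit 1) (.cons (.rf (nat_lit 1828) (nat_lit 493858305440582043680)) (.cons (.rf (nat_lit 1831) (nat_lit 493858305440582043680)) (.cons (.rf (nat_lit 1834) (nat_lit 493858305440582043680)) (.cons (.br (nat_lit 10) (nat_lit 1) (.cons (.rf (nat_lit 1593) (nat_lit 424204836161)) (.cons (.rf (nat_lit 1593) (nat_lit 424204830023)) (.cons (.rf (nat_lit 1836) (nat_lit 493858305440582043680)) (.cons (.rf (nat_lit 1836) (nat_lit 492741412732994160672)) (.cons (.zr (nat_lit 9444733247222857269248) (nat_lit 2417888532718505296920577) (nat_lit 5) (nat_lit 5)) .nil)))))) (.cons (.br (nat_lit 12) (nat_lit 1) (.cons (.rf (nat_lit 1838) (nat_lit 493858305440582043680)) (.cons (.rf (nat_lit 1840) (nat_lit 493858305440582043680)) (.cons (.zr (nat_lit 9444733247222857269248) (nat_lit 2417888532718505296920577) (nat_lit 5) (nat_lit 5)) (.cons (.rf (nat_lit 1841) (nat_lit 493858305440582043680)) (.cons (.br (nat_lit 12) (nat_lit 1) (.cons (.rf (nat_lit 1838) (nat_lit 493858305440582043680)) (.cons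 (.rf (nat_lit 1840) (nat_lit 493858305440582043680)) (.cons (.zr (nat_lit 9444733247222857269248) (nat_lit 2417888532718505296920577) (nat_lit 5) (nat_lit 5)) (.cons (.rf (nat_lit 1841) (nat_lit 493858305440582043680)) .nil))))) .nil)))))) .nil)))))),
 (.br (nat_lit 8) (nat_lit 1) (.cons (.rf (nat_lit 1828) (nat_lit 493858305440582043680)) (.cons (.rf (nat_lit 1831) (nat_lit 493858305440582043680)) (.cons (.rf (nat_lit 1834) (nat_lit 493858305440582043680)) (.cons (.rf (nat_lit 1842) (nat_lit 493858305440582043680)) (.cons (.rf (nat_lit 1842) (nat_lit 492741412732994160672)) (.cons (.br (nat_lit 8) (nat_lit 1) (.cons (.rf (nat_lit 1828) (nat_lit 493858305440582043680)) (.cons (.rf (nat_lit 1831) (nat_lit 493858305440582043680)) (.cons (.ev (nat_lit 18446744078021361664) (nat_lit 1)) (.cons (.rf (nat_lit 1842) (nat_lit 493858305440582043680)) (.cons (.rf (nat_lit 1842) (nat_lit 492741412732994160672)) .nil)))))) .nil))))))),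
 (.br (nat_lit 12) (nat_lit 1) (.cons (.ev (nat_lit 20283341685458737981179029356546) (nat_lit 2)) .nil)),
 (.br (nat_lit 7) (nat_lit 1) (.cons (.br (nat_lit 11) (nat_lit 1) (.cons (.ev (nat_lit 310698658007725142033039361) (nat_lit 1)) .nil)) (.cons (.rf (nat_lit 84) (nat_lit 11147486401)) .nil))),
 (.br (nat_lit 11) (nat_lit 1) (.cons (.rf (nat_lit 82) (nat_lit 13165201447)) (.cons (.rf (nat_lit 1339) (nat_lit 391991595047)) (.cons (.br (nat_lit 2) (nat_lit 1) (.cons (.ev (nat_lit 309489732187827942681804801) (nat_lit 1)) (.cons (.br (nat_lit 8) (nat_lit 1) (.cons (.ev (nat_lit 79537652264970967203956392193) (nat_lit 1)) (.cons (.rf (nat_lit 1844) (nat_lit 493858305440582043680)) .nil))) (.cons (.rf (nat_lit 1845) (nat_lit 15433072045018155040)) .nil)))) .nil)))),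
 (.br (nat_lit 11) (nat_lit 1) (.cons (.rf (nat_lit 1343) (nat_lit 422360385575)) (.cons (.rf (nat_lit 1339) (nat_lit 391991595047)) (.cons (.rf (nat_lit 1846) (nat_lit 493858305440582043680)) (.cons (.br (nat_lit 11) (nat_lit 1) (.cons (.rf (nat_lit 82) (nat_lit 14238943271)) (.cons (.rf (nat_lit 1339) (nat_lit 391991595047)) (.cons (.rf (nat_lit 1846) (nat_lit 493858305440582043680)) .nil)))) .nil))))),
 (.br (nat_lit 8) (nat_lit 1) (.cons (.rf (nat_lit 84) (nat_lit 14336207073)) (.cons (.br (nat_lit 11) (nat_lit 1) (.cons (.br (nat_lit 13) (nat_lit 1) (.cons (.zr (nat_lit 309485028628940079807660032) (nat_lit 4845148011426455012508930) (nat_lit 10) (nat_lit 5)) (.cons (.zr (nat_lit 79228162514481073329939677184) (nat_lit 3631499825327856680960513) (nat_lit 5) (nat_lit 5)) .nil))) (.cons (.br (nat_lit 12) (nat_lit 1) (.cons (.zr (nat_lit 309485028628940079807660032) (nat_lit 4845148011426455012508930) (nat_lit 10) (nat_lit 5)) (.cons (.zr (nat_lit 20282409603651887159683630235648) (nat_lit 2422574005713227506254337)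 (nat_lit 5) (nat_lit 5)) .nil))) .nil))) (.cons (.rf (nat_lit 84) (nat_lit 12255799522)) .nil)))),
 (.br (nat_lit 1) (nat_lit 1) (.cons (.rf (nat_lit 29) (nat_lit 8723521)) (.cons (.ev (nat_lit 18447026648197890304) (nat_lit 1)) (.cons (.rf (nat_lit 1847) (nat_lit 493858305440582043680)) (.cons (.rf (nat_lit 1847) (nat_lit 492741412732994160672)) (.cons (.br (nat_lit 2) (nat_lit 1) (.cons (.zr (nat_lit 144396671659343872) (nat_lit 2417851639230357861040641) (nat_lit 5) (nat_lit 5)) (.cons (.rf (nat_lit 1848) (nat_lit 493858305440582043680)) (.cons (.rf (nat_lit 1848) (nat_lit 492741412732994160672)) (.cons (.rf (nat_lit 1343) (nat_lit 388067756071)) .nil))))) .nil))))))]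

theorem c59 : chkAll C T R L59 (nat_lit 1823) = true := by decide +kernel

theorem l59 : (nat_lit 1823) + L59.length = (nat_lit 1850) := by decide +kernel

/-- part of the certificates -/
def L60 : List Prf := [(.br (nat_lit 11) (nat_lit 1) (.cons (.br (nat_lit 12) (nat_lit 1) (.cons (.ev (nat_lit 79228162532783421835796611073) (nat_lit 1)) .nil)) (.cons (.rf (nat_lit 84) (nat_lit 8972994599)) .nil))),
 (.br (nat_lit 1) (nat_lit 1) (.cons (.rf (nat_lit 31) (nat_lit 377822273)) (.cons (.rf (nat_lit 1339) (nat_lit 288915525857)) (.cons (.br (nat_lit 2) (nat_lit 1) (.cons (.rf (nat_lit 84) (nat_lit 13165111361)) (.cons (.ev (nat_lit 79228162514336677762087059456) (nat_lit 1)) (.cons (.br (nat_lit 11) (nat_lit 1) (.cons (.ev (nat_lit 79228167236630820467500974081) (nat_lit 1)) (.cons (.br (nat_lit 12) (nat_lit 1) (.cons (.ev (nat_lit 80474593646198153205317831182) (nat_lit 4)) .nil)) .nil))) .nil)))) (.cons (.br (nat_lit 2) (nat_lit 1) (.cons (.rf (nat_lit 84) (nat_lit 14238853185)) (.cons (.br (nat_lit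 13) (nat_lit 1) (.cons (.br (nat_lit 12) (nat_lit 1) (.cons (.ev (nat_lit 79228167255077564541210525696) (nat_lit 1)) .nil)) (.cons (.ev (nat_lit 79228167255077564541210525696) (nat_lit 1)) .nil))) (.cons (.rf (nat_lit 1850) (nat_lit 493858305440582043680)) .nil)))) .nil))))),
 (.br (nat_lit 12) (nat_lit 1) (.cons (.ev (nat_lit 79229371458530977771421761793) (nat_lit 1)) .nil)),
 (.br (nat_lit 8) (nat_lit 1) (.cons (.rf (nat_lit 1828) (nat_lit 493858305440582043680)) (.cons (.rf (nat_lit 1843) (nat_lit 493858305440582043680)) (.cons (.rf (nat_lit 1849) (nat_lit 493858305440582043680)) (.cons (.br (nat_lit 10) (nat_lit 1) (.cons (.ev (nat_lit 1208925891953698189344769) (nat_lit 1)) (.cons (.rf (nat_lit 1593) (nat_lit 424372602178)) (.cons (.rf (nat_lit 1851) (nat_lit 493858305440582043680)) (.cons (.rf (nat_lit 1851) (nat_lit 492741412732994160672)) (.cons (.ev (nat_lit 1213666632842676336066561) (nat_lit 1)) .nil)))))) (.cons (.br (nat_lit 10) (nat_lit 1) (.cons (.ev (nat_lit 1208925891953698189344769)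 (nat_lit 1)) (.cons (.br (nat_lit 1) (nat_lit 1) (.cons (.rf (nat_lit 31) (nat_lit 377527618)) (.cons (.br (nat_lit 12) (nat_lit 1) (.cons (.rf (nat_lit 1852) (nat_lit 493858305440582043680)) (.cons (.rf (nat_lit 1852) (nat_lit 420143386739781765152)) .nil))) (.cons (.rf (nat_lit 31) (nat_lit 444636482)) .nil)))) (.cons (.br (nat_lit 1) (nat_lit 1) (.cons (.rf (nat_lit 31) (nat_lit 377822273)) (.cons (.rf (nat_lit 1339) (nat_lit 288915525857)) (.cons (.br (nat_lit 2) (nat_lit 1) (.cons (.rf (nat_lit 84) (nat_lit 13165111361)) (.cons (.br (nat_lit 11) (nat_lit 1) (.cons (.ev (nat_lit 79537652264970967203956392193) (nat_lit 1)) (.cons (.br (nat_lit 12) (nat_lit 1) (.cons (.ev (nat_lit 80157826469764726459528643330) (nat_lit 2)) .nil)) .nil))) (.cons (.br (nat_lit 11) (nat_lit 1) (.cons (.br (nat_lit 12) (nat_lit 1) (.cons (.ev (nat_lit 20837322289909538318025151152896) (nat_lit 3)) .nil)) (.cons (.ev (nat_lit 20282410812577562378744952324096) (nat_lit 1)) .nil))) .nil)))) (.cons (.br (nat_lit 2)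 (nat_lit 1) (.cons (.rf (nat_lit 84) (nat_lit 14238853185)) (.cons (.br (nat_lit 13) (nat_lit 1) (.cons (.ev (nat_lit 20283031005690124693983872483840) (nat_lit 2)) (.cons (.ev (nat_lit 20282410812596009122818661875713) (nat_lit 1)) .nil))) (.cons (.rf (nat_lit 84) (nat_lit 12093458474)) .nil)))) .nil))))) (.cons (.ev (nat_lit 1213666632842676336066561) (nat_lit 1)) (.cons (.br (nat_lit 1) (nat_lit 1) (.cons (.rf (nat_lit 31) (nat_lit 444931137)) (.cons (.br (nat_lit 2) (nat_lit 1) (.cons (.ev (nat_lit 309485009893685237267890176) (nat_lit 1)) (.cons (.br (nat_lit 11) (nat_lit 1) (.cons (.ev (nat_lit 310693954231820067836985856) (nat_lit 2)) (.cons (.ev (nat_lit 309489732187827942681804801) (nat_lit 1)) .nil))) (.cons (.rf (nat_lit 84) (nat_lit 12093466689)) .nil)))) (.cons (.br (nat_lit 2) (nat_lit 1) (.cons (.br (nat_lit 12) (nat_lit 1) (.cons (.ev (nat_lit 309489750634572016391356416) (nat_lit 1)) (.cons (.br (nat_lit 11) (nat_lit 1) (.cons (.ev (nat_lit 309489750634572016391356416) (nat_lit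 1)) .nil)) .nil))) (.cons (.rf (nat_lit 1850) (nat_lit 455883953382594021408)) (.cons (.rf (nat_lit 84) (nat_lit 13167208513)) .nil)))) (.cons (.br (nat_lit 2) (nat_lit 1) (.cons (.rf (nat_lit 84) (nat_lit 12093466658)) (.cons (.rf (nat_lit 84) (nat_lit 13167208482)) .nil))) .nil))))) .nil)))))) .nil)))))),
 (.br (nat_lit 8) (nat_lit 1) (.cons (.rf (nat_lit 1828) (nat_lit 493858305440582043680)) (.cons (.rf (nat_lit 1843) (nat_lit 493858305440582043680)) (.cons (.rf (nat_lit 1849) (nat_lit 493858305440582043680)) (.cons (.rf (nat_lit 1853) (nat_lit 493858305440582043680)) (.cons (.rf (nat_lit 1853) (nat_lit 492741412732994160672)) (.cons (.br (nat_lit 8) (nat_lit 1) (.cons (.rf (nat_lit 1828) (nat_lit 493858305440582043680)) (.cons (.rf (nat_lit 1843) (nat_lit 493858305440582043680)) (.cons (.rf (nat_lit 1849) (nat_lit 493858305440582043680)) (.cons (.rf (nat_lit 1853) (nat_lit 493858305440582043680)) (.cons (.rf (nat_lit 1853) (nat_lit 492741412732994160672)) .nil)))))) .nil))))))),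
 (.br (nat_lit 2) (nat_lit 1) (.cons (.rf (nat_lit 31) (nat_lit 377530594)) (.cons (.rf (nat_lit 1339) (nat_lit 289083035969)) (.cons (.br (nat_lit 7) (nat_lit 1) (.cons (.rf (nat_lit 84) (nat_lit 13165206562)) (.cons (.ev (nat_lit 4740885567111897874433) (nat_lit 1)) (.cons (.br (nat_lit 13) (nat_lit 1) (.cons (.ev (nat_lit 309489732187827942681804801) (nat_lit 1)) (.cons (.br (nat_lit 11) (nat_lit 1) (.cons (.ev (nat_lit 309489732187827942681804801) (nat_lit 1)) .nil)) .nil))) .nil)))) (.cons (.br (nat_lit 7) (nat_lit 1) (.cons (.rf (nat_lit 84) (nat_lit 14238948386)) (.cons (.br (nat_lit 11) (nat_lit 1) (.cons (.ev (nat_lit 309489732187827942681804801) (nat_lit 1)) (.cons (.br (nat_lit 12) (nat_lit 1) (.cons (.ev (nat_lit 20522264141393679314233881723138) (nat_lit 3)) .nil)) .nil))) (.cons (.ev (nat_lit 4740885567111897874433) (nat_lit 1)) .nil)))) .nil))))),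
 (.br (nat_lit 11) (nat_lit 1) (.cons (.ev (nat_lit 79228162532711082771076874241) (nat_lit 1)) .nil)),
 (.br (nat_lit 12) (nat_lit 1) (.cons (.rf (nat_lit 1856) (nat_lit 14242959524133701664)) (.cons (.rf (nat_lit 1856) (nat_lit 14208056455222893600)) .nil))),
 (.br (nat_lit 11) (nat_lit 1) (.cons (.br (nat_lit 12) (nat_lit 1) (.cons (.ev (nat_lit 79229371458530697400234803201) (nat_lit 1)) .nil)) (.cons (.rf (nat_lit 84) (nat_lit 8972737578)) .nil))),
 (.br (nat_lit 7) (nat_lit 1) (.cons (.ev (nat_lit 4740885567111897874433) (nat_lit 1)) (.cons (.rf (nat_lit 1857) (nat_lit 15433070910038444064)) (.cons (.rf (nat_lit 1858) (nat_lit 493858305440582043680)) .nil)))),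
 (.br (nat_lit 7) (nat_lit 1) (.cons (.rf (nat_lit 31) (nat_lit 377727041)) (.cons (.br (nat_lit 11) (nat_lit 1) (.cons (.br (nat_lit 11) (nat_lit 1) (.cons (.ev (nat_lit 309489732187827942681804801) (nat_lit 1)) .nil)) (.cons (.br (nat_lit 11) (nat_lit 1) (.cons (.ev (nat_lit 309489732187827942681804801) (nat_lit 1)) .nil)) .nil))) (.cons (.rf (nat_lit 31) (nat_lit 444835905)) .nil)))),
 (.br (nat_lit 12) (nat_lit 1) (.cons (.ev (nat_lit 4740885567111897874433) (nat_lit 1)) (.cons (.zr (nat_lit 148294530729095728384) (nat_lit 101570506789472719202921786376193) (nat_lit 30) (nat_lit 0)) .nil))),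
 (.br (nat_lit 7) (nat_lit 1) (.cons (.ev (nat_lit 309489732188110512858333441) (nat_lit 1)) (.cons (.br (nat_lit 11) (nat_lit 1) (.cons (.ev (nat_lit 79229376180969237863934787840) (nat_lit 1)) (.cons (.br (nat_lit 12) (nat_lit 1) (.cons (.ev (nat_lit 20680718020236224624038676727558) (nat_lit 3)) .nil)) .nil))) (.cons (.br (nat_lit 11) (nat_lit 1) (.cons (.rf (nat_lit 1861) (nat_lit 493858305440582043680)) (.cons (.ev (nat_lit 20282409608392555709588450640128) (nat_lit 1)) .nil))) .nil)))),
 (.br (nat_lit 2) (nat_lit 1) (.cons (.ev (nat_lit 309489732188110512858333441) (nat_lit 1)) (.cons (.br (nat_lit 11) (nat_lit 1) (.cons (.ev (nat_lit 79228162514336677762087059456) (nat_lit 1)) (.cons (.br (nat_lit 12) (nat_lit 1) (.cons (.ev (nat_lit 79849564607985940027020410881) (nat_lit 2)) .nil)) .nil))) (.cons (.br (nat_lit 11) (nat_lit 1) (.cons (.br (nat_lit 12) (nat_lit 1) (.cons (.zr (nat_lit 1547425049106725343724896256) (nat_lit 158458747639428160240308191745) (nat_lit 5) (nat_lit 6)) .nil)) (.cons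 (.ev (nat_lit 20282410812577562378744952324096) (nat_lit 1)) .nil))) .nil)))),
 (.br (nat_lit 11) (nat_lit 1) (.cons (.rf (nat_lit 1862) (nat_lit 493858305440582043680)) (.cons (.rf (nat_lit 1863) (nat_lit 493858305440582043680)) (.cons (.br (nat_lit 7) (nat_lit 1) (.cons (.zr (nat_lit 55556405003259413248) (nat_lit 309494454554875965581819906) (nat_lit 10) (nat_lit 0)) (.cons (.br (nat_lit 2) (nat_lit 1) (.cons (.ev (nat_lit 4740885567111897874433) (nat_lit 1)) .nil)) (.cons (.rf (nat_lit 1861) (nat_lit 493858305440582043680)) .nil)))) .nil)))),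
 (.br (nat_lit 11) (nat_lit 1) (.cons (.ev (nat_lit 309489750706912180605812736) (nat_lit 1)) .nil)),
 (.br (nat_lit 8) (nat_lit 1) (.cons (.rf (nat_lit 1828) (nat_lit 493858305440582043680)) (.cons (.rf (nat_lit 1843) (nat_lit 493858305440582043680)) (.cons (.rf (nat_lit 1854) (nat_lit 493858305440582043680)) (.cons (.br (nat_lit 1) (nat_lit 1) (.cons (.rf (nat_lit 1593) (nat_lit 424473271361)) (.cons (.ev (nat_lit 1208925891953698189344769) (nat_lit 1)) (.cons (.rf (nat_lit 1855) (nat_lit 493858305440582043680)) (.cons (.rf (nat_lit 1855) (nat_lit 492741412732994160672)) (.cons (.br (nat_lit 2) (nat_lit 1) (.cons (.ev (nat_lit 1208925891673327036072193) (nat_lit 1)) (.cons (.rf (nat_lit 1859) (nat_lit 493858305440582043680)) (.cons (.rf (nat_lit 1859) (nat_lit 492741412732994160672)) (.cons (.br (nat_lit 7) (nat_lit 1) (.cons (.rf (nat_lit 1858) (nat_lit 493858305268783356960)) (.cons (.rf (nat_lit 1858) (nat_lit 492741412561195473952)) (.cons (.ev (nat_lit 4740885567111897874433) (nat_lit 1))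 .nil)))) .nil))))) .nil)))))) (.cons (.br (nat_lit 1) (nat_lit 1) (.cons (.rf (nat_lit 1860) (nat_lit 493858305440582043680)) (.cons (.ev (nat_lit 1208925891953698189344769) (nat_lit 1)) (.cons (.br (nat_lit 2) (nat_lit 1) (.cons (.rf (nat_lit 31) (nat_lit 377530594)) (.cons (.rf (nat_lit 1339) (nat_lit 289083035969)) (.cons (.br (nat_lit 13) (nat_lit 1) (.cons (.ev (nat_lit 4740885567111897874433) (nat_lit 1)) (.cons (.ev (nat_lit 309489732187827942681804801) (nat_lit 1)) (.cons (.br (nat_lit 13) (nat_lit 1) (.cons (.ev (nat_lit 4740885567111897874433) (nat_lit 1)) (.cons (.ev (nat_lit 309489732187827942681804801) (nat_lit 1)) .nil))) .nil)))) (.cons (.br (nat_lit 12) (nat_lit 1) (.cons (.ev (nat_lit 4740885567111897874433) (nat_lit 1)) (.cons (.ev (nat_lit 309489732187827942681804801) (nat_lit 1)) (.cons (.ev (nat_lit 20282410826799930284555517297155) (nat_lit 2)) .nil)))) .nil))))) (.cons (.br (nat_lit 11) (nat_lit 1) (.cons (.rf (nat_lit 1862) (nat_lit 493858305440582043680)) (.cons (.rf (nat_lit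 1863) (nat_lit 493858305440582043680)) (.cons (.rf (nat_lit 1864) (nat_lit 493858305440582043680)) (.cons (.br (nat_lit 11) (nat_lit 1) (.cons (.rf (nat_lit 1862) (nat_lit 493858305440582043680)) (.cons (.rf (nat_lit 1863) (nat_lit 493858305440582043680)) (.cons (.rf (nat_lit 1864) (nat_lit 493858305440582043680)) .nil)))) .nil))))) (.cons (.br (nat_lit 7) (nat_lit 1) (.cons (.ev (nat_lit 1208925891673327036072193) (nat_lit 1)) (.cons (.br (nat_lit 2) (nat_lit 1) (.cons (.rf (nat_lit 84) (nat_lit 14238948417)) (.cons (.br (nat_lit 11) (nat_lit 1) (.cons (.rf (nat_lit 1865) (nat_lit 15433072045018155040)) (.cons (.zr (nat_lit 60847232447177203085866614915840) (nat_lit 1547425049107006822962823169) (nat_lit 5) (nat_lit 4)) .nil))) (.cons (.rf (nat_lit 84) (nat_lit 12093556775)) .nil)))) (.cons (.br (nat_lit 2) (nat_lit 1) (.cons (.br (nat_lit 11) (nat_lit 1) (.cons (.br (nat_lit 12) (nat_lit 1) (.cons (.zr (nat_lit 4778283175843077623552) (nat_lit 555216107619493335914040524801) (nat_lit 30) (nat_lit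 0)) .nil)) (.cons (.ev (nat_lit 20282720297605758127723155357696) (nat_lit 1)) .nil))) (.cons (.br (nat_lit 11) (nat_lit 1) (.cons (.zr (nat_lit 237684487598493814446993965056) (nat_lit 2446185838127588617355265) (nat_lit 5) (nat_lit 0)) (.cons (.zr (nat_lit 60847228810955372685711867117568) (nat_lit 2432018738678971091780097) (nat_lit 5) (nat_lit 5)) .nil))) (.cons (.ev (nat_lit 4740885567111897874433) (nat_lit 1)) .nil)))) (.cons (.ev (nat_lit 20282410812577562096174775664896) (nat_lit 1)) .nil))))) .nil)))))) .nil)))))),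
 (.br (nat_lit 8) (nat_lit 1) (.cons (.rf (nat_lit 1828) (nat_lit 493858305440582043680)) (.cons (.rf (nat_lit 1843) (nat_lit 493858305440582043680)) (.cons (.rf (nat_lit 1854) (nat_lit 493858305440582043680)) (.cons (.rf (nat_lit 1866) (nat_lit 493858305440582043680)) (.cons (.rf (nat_lit 1866) (nat_lit 492741412732994160672)) (.cons (.br (nat_lit 8) (nat_lit 1) (.cons (.rf (nat_lit 1828) (nat_lit 493858305440582043680)) (.cons (.ev (nat_lit 18446744078021361664) (nat_lit 1)) (.cons (.rf (nat_lit 1854) (nat_lit 493858305440582043680)) (.cons (.rf (nat_lit 1866) (nat_lit 493858305440582043680)) (.cons (.rf (nat_lit 1866) (nat_lit 492741412732994160672)) .nil)))))) .nil))))))),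
 (.br (nat_lit 12) (nat_lit 1) (.cons (.ev (nat_lit 1213648186378973813473536) (nat_lit 1)) (.cons (.ev (nat_lit 309489732188110512858333441) (nat_lit 1)) (.cons (.br (nat_lit 12) (nat_lit 1) (.cons (.ev (nat_lit 1213648186378973813473536) (nat_lit 1)) (.cons (.ev (nat_lit 309489732188110512858333441) (nat_lit 1)) .nil))) .nil)))),
 (.br (nat_lit 13) (nat_lit 1) (.cons (.ev (nat_lit 310698676526245339115618560) (nat_lit 1)) (.cons (.zr (nat_lit 60847232437732686288511391760384) (nat_lit 4759260253595864399873) (nat_lit 5) (nat_lit 9)) .nil))),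
 (.br (nat_lit 10) (nat_lit 1) (.cons (.rf (nat_lit 29) (nat_lit 11863266)) (.cons (.ev (nat_lit 1213648186378973813473536) (nat_lit 1)) (.cons (.br (nat_lit 12) (nat_lit 1) (.cons (.zr (nat_lit 37109660929583284224) (nat_lit 310698658007726245839634433) (nat_lit 5) (nat_lit 0)) (.cons (.zr (nat_lit 40564819207303412907687563756032) (nat_lit 4740813508422626508801) (nat_lit 5) (nat_lit 4)) .nil))) .nil)))),
 (.br (nat_lit 12) (nat_lit 1) (.cons (.kr (nat_lit 309485009821345068724846848) (nat_lit 18518801667764256768) (nat_lit 1) (nat_lit 0)) (.cons (.zr (nat_lit 60847232437732686288511391760384) (nat_lit 4759260253595864399873) (nat_lit 5) (nat_lit 9)) .nil))),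
 (.br (nat_lit 10) (nat_lit 1) (.cons (.zr (nat_lit 309485009965741740384124928) (nat_lit 2422574005713227506254337) (nat_lit 5) (nat_lit 5)) (.cons (.ev (nat_lit 79229376162522493790225236225) (nat_lit 1)) (.cons (.br (nat_lit 11) (nat_lit 1) (.cons (.ev (nat_lit 79850768811439916215775003394) (nat_lit 2)) .nil)) .nil)))),
 (.br (nat_lit 13) (nat_lit 1) (.cons (.rf (nat_lit 1872) (nat_lit 493858305440582043680)) (.cons (.br (nat_lit 1) (nat_lit 1) (.cons (.zr (nat_lit 237688114338914775723002560512) (nat_lit 928459751830799555108208641) (nat_lit 5) (nat_lit 9)) .nil)) (.cons (.zr (nat_lit 237684487543009185562779189248) (nat_lit 4759260253595847622657) (nat_lit 5) (nat_lit 9)) .nil)))),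
 (.br (nat_lit 12) (nat_lit 1) (.cons (.br (nat_lit 11) (nat_lit 1) (.cons (.zr (nat_lit 311902861461137281322582273) (nat_lit 158456329750895159156261650432) (nat_lit 5) (nat_lit 3)) .nil)) (.cons (.ev (nat_lit 79228167236630820467500974081) (nat_lit 1)) (.cons (.ev (nat_lit 79228167255077847111387054336) (nat_lit 1)) .nil)))),
 (.br (nat_lit 1) (nat_lit 1) (.cons (.br (nat_lit 12) (nat_lit 1) (.cons (.ev (nat_lit 158769455834835483298651112966) (nat_lit 3)) .nil)) (.cons (.rf (nat_lit 1874) (nat_lit 493858305440582043680)) (.cons (.zr (nat_lit 60847232437732686288511391760384) (nat_lit 4759260253595864399873) (nat_lit 5) (nat_lit 9)) .nil)))),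
 (.br (nat_lit 2) (nat_lit 1) (.cons (.br (nat_lit 10) (nat_lit 1) (.cons (.rf (nat_lit 29) (nat_lit 11869249)) (.cons (.br (nat_lit 11) (nat_lit 1) (.cons (.ev (nat_lit 309489732188110512858333441) (nat_lit 1)) (.cons (.br (nat_lit 12) (nat_lit 1) (.cons (.ev (nat_lit 158767028464386949141634417154) (nat_lit 2)) .nil)) .nil))) (.cons (.ev (nat_lit 1213666633123047523025153) (nat_lit 1)) .nil)))) (.cons (.br (nat_lit 11) (nat_lit 1) (.cons (.rf (nat_lit 29) (nat_lit 11765058)) (.cons (.zr (nat_lit 928455029464316689741185024) (nat_lit 2422610899201374942134273) (nat_lit 5) (nat_lit 5)) (.cons (.br (nat_lit 13) (nat_lit 1) (.cons (.ev (nat_lit 20282719093402304997063154204673) (nat_lit 1)) (.cons (.ev (nat_lit 20282720302309750206683322318848) (nat_lit 1)) .nil))) .nil)))) (.cons (.ev (nat_lit 309489750634572016391356416) (nat_lit 1)) (.cons (.br (nat_lit 13) (nat_lit 1) (.cons (.rf (nat_lit 1872) (nat_lit 493858305440582043680)) (.cons (.rf (nat_lit 1873) (nat_lit 493858305440582043680)) (.cons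 (.br (nat_lit 13) (nat_lit 1) (.cons (.ev (nat_lit 20282719093402304997063154204673) (nat_lit 1)) (.cons (.rf (nat_lit 1873) (nat_lit 493858305440582043680)) (.cons (.zr (nat_lit 237684487543009185562779189248) (nat_lit 4759260253595847622657) (nat_lit 5) (nat_lit 9)) .nil)))) (.cons (.zr (nat_lit 237684487543009185562779189248) (nat_lit 4759260253595847622657) (nat_lit 5) (nat_lit 9)) .nil))))) (.cons (.br (nat_lit 12) (nat_lit 1) (.cons (.rf (nat_lit 1874) (nat_lit 493858305440582043680)) (.cons (.rf (nat_lit 1875) (nat_lit 493858305440582043680)) (.cons (.br (nat_lit 12) (nat_lit 1) (.cons (.ev (nat_lit 79228167236630820467500974081) (nat_lit 1)) (.cons (.rf (nat_lit 1875) (nat_lit 493858305440582043680)) (.cons (.zr (nat_lit 60847228810955227445723412824064) (nat_lit 618974742009454486366584833) (nat_lit 5) (nat_lit 4)) .nil)))) (.cons (.br (nat_lit 10) (nat_lit 1) (.cons (.zr (nat_lit 60847232437732686288511391760384) (nat_lit 4759260253595864399873) (nat_lit 5) (nat_lit 9)) (.cons (.ev (nat_lit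 20282720302309750206683322318848) (nat_lit 1)) (.cons (.rf (nat_lit 1875) (nat_lit 493858305440582043680)) .nil)))) .nil))))) .nil))))))]

theorem c60 : chkAll C T R L60 (nat_lit 1850) = true := by decide +kernel

theorem l60 : (nat_lit 1850) + L60.length = (nat_lit 1877) := by decide +kernel

/-- part of the certificates -/
def L61 : List Prf := [(.br (nat_lit 11) (nat_lit 1) (.cons (.br (nat_lit 12) (nat_lit 1) (.cons (.ev (nat_lit 79228167236630820467500974081) (nat_lit 1)) .nil)) (.cons (.zr (nat_lit 3626795905869444800315394) (nat_lit 20283028578393679596954363035648) (nat_lit 5) (nat_lit 3)) .nil))),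
 (.br (nat_lit 11) (nat_lit 1) (.cons (.ev (nat_lit 310698676526525710268891136) (nat_lit 1)) (.cons (.zr (nat_lit 928455029680207988321681408) (nat_lit 4759260253595847622657) (nat_lit 5) (nat_lit 9)) (.cons (.br (nat_lit 10) (nat_lit 1) (.cons (.ev (nat_lit 20680106322771646580538477052166) (nat_lit 3)) .nil)) .nil)))),
 (.br (nat_lit 12) (nat_lit 1) (.cons (.rf (nat_lit 1878) (nat_lit 493858305440582043680)) (.cons (.br (nat_lit 12) (nat_lit 1) (.cons (.rf (nat_lit 1878) (nat_lit 493858305440582043680)) (.cons (.zr (nat_lit 928455029680207988321681408) (nat_lit 4759260253595847622657) (nat_lit 5) (nat_lit 9)) (.cons (.kr (nat_lit 20282409603651670423947251351552) (nat_lit 18446745173221179392) (nat_lit 2) (nat_lit 0)) .nil)))) (.cons (.zr (nat_lit 928455029680207988321681408) (nat_lit 4759260253595847622657) (nat_lit 5) (nat_lit 9)) (.cons (.kr (nat_lit 20282409603651670423947251351552) (nat_lit 18446745173221179392) (nat_lit 2) (nat_lit 0)) .nil))))),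
 (.br (nat_lit 11) (nat_lit 1) (.cons (.ev (nat_lit 311912343303203203561095425) (nat_lit 2)) (.cons (.ev (nat_lit 309489732187827942681804801) (nat_lit 1)) .nil))),
 (.br (nat_lit 8) (nat_lit 1) (.cons (.rf (nat_lit 1828) (nat_lit 493858305440582043680)) (.cons (.rf (nat_lit 1843) (nat_lit 493858305440582043680)) (.cons (.rf (nat_lit 1854) (nat_lit 493858305440582043680)) (.cons (.rf (nat_lit 1867) (nat_lit 493858305440582043680)) (.cons (.br (nat_lit 7) (nat_lit 1) (.cons (.br (nat_lit 2) (nat_lit 1) (.cons (.rf (nat_lit 246) (nat_lit 422358354145)) (.cons (.rf (nat_lit 1868) (nat_lit 14242959524133701664)) (.cons (.rf (nat_lit 1868) (nat_lit 13126066816545818656)) (.cons (.br (nat_lit 10) (nat_lit 1) (.cons (.rf (nat_lit 1869) (nat_lit 493858305440582043680)) (.cons (.rf (nat_lit 1869) (nat_lit 492741412732994160672)) (.cons (.ev (nat_lit 20282409608392555989959637467136) (nat_lit 1)) .nil)))) .nil))))) (.cons (.br (nat_lit 1) (nat_lit 1) (.cons (.zr (nat_lit 18518801667747611136) (nat_lit 4722366765448428519425)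 (nat_lit 5) (nat_lit 0)) (.cons (.rf (nat_lit 1870) (nat_lit 493858305440582043680)) (.cons (.rf (nat_lit 1870) (nat_lit 492741412732994160672)) (.cons (.br (nat_lit 10) (nat_lit 1) (.cons (.rf (nat_lit 1871) (nat_lit 493858305440582043680)) (.cons (.rf (nat_lit 1871) (nat_lit 492741412732994160672)) (.cons (.ev (nat_lit 20282409608392555989959637467136) (nat_lit 1)) .nil)))) .nil))))) (.cons (.ev (nat_lit 1213666632842676336066561) (nat_lit 1)) (.cons (.rf (nat_lit 1876) (nat_lit 493858305440582043680)) (.cons (.rf (nat_lit 1876) (nat_lit 492741412732994160672)) (.cons (.br (nat_lit 2) (nat_lit 1) (.cons (.br (nat_lit 10) (nat_lit 1) (.cons (.rf (nat_lit 1877) (nat_lit 493858305440582043680)) (.cons (.rf (nat_lit 1877) (nat_lit 492741412732994160672)) (.cons (.ev (nat_lit 1213666633123047523025153) (nat_lit 1)) .nil)))) (.cons (.ev (nat_lit 4740885567111897874433) (nat_lit 1)) (.cons (.rf (nat_lit 1879) (nat_lit 493858305440582043680)) (.cons (.rf (nat_lit 1879) (nat_lit 492741412732994160672))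 (.cons (.br (nat_lit 1) (nat_lit 1) (.cons (.ev (nat_lit 20282410817318303265524075790336) (nat_lit 1)) (.cons (.rf (nat_lit 1880) (nat_lit 493858305440582043680)) (.cons (.rf (nat_lit 1880) (nat_lit 492741412732994160672)) .nil)))) .nil)))))) .nil))))))) .nil)))))),
 (.br (nat_lit 8) (nat_lit 1) (.cons (.rf (nat_lit 1828) (nat_lit 493858305440582043680)) (.cons (.rf (nat_lit 1843) (nat_lit 493858305440582043680)) (.cons (.rf (nat_lit 1854) (nat_lit 493858305440582043680)) (.cons (.rf (nat_lit 1867) (nat_lit 493858305440582043680)) (.cons (.rf (nat_lit 1881) (nat_lit 493858305440582043680)) (.cons (.br (nat_lit 8) (nat_lit 1) (.cons (.rf (nat_lit 1828) (nat_lit 493858305440582043680)) (.cons (.rf (nat_lit 1843) (nat_lit 493858305440582043680)) (.cons (.rf (nat_lit 1854) (nat_lit 493858305440582043680)) (.cons (.rf (nat_lit 1867) (nat_lit 493858305440582043680)) (.cons (.rf (nat_lit 1881) (nat_lit 493858305440582043680)) .nil)))))) .nil))))))),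
 (.br (nat_lit 13) (nat_lit 1) (.cons (.ev (nat_lit 20282409608374108965510462832641) (nat_lit 1)) (.cons (.br (nat_lit 8) (nat_lit 1) (.cons (.br (nat_lit 11) (nat_lit 1) (.cons (.ev (nat_lit 309499232261591047765754371) (nat_lit 2)) .nil)) (.cons (.ev (nat_lit 20282719102847037962802444763392) (nat_lit 2)) (.cons (.br (nat_lit 10) (nat_lit 1) (.cons (.ev (nat_lit 475685746836307566251745608711) (nat_lit 3)) .nil)) .nil)))) .nil))),
 (.br (nat_lit 13) (nat_lit 1) (.cons (.br (nat_lit 13) (nat_lit 1) (.cons (.ev (nat_lit 20282409608374108965510462832641) (nat_lit 1)) (.cons (.ev (nat_lit 20282410817299856521450366238721) (nat_lit 1)) .nil))) (.cons (.rf (nat_lit 1883) (nat_lit 493858305440582043680)) (.cons (.br (nat_lit 13) (nat_lit 1) (.cons (.ev (nat_lit 20282410817299856521450366238721) (nat_lit 1)) (.cons (.rf (nat_lit 1883) (nat_lit 493858305440582043680)) .nil))) .nil)))),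
 (.br (nat_lit 8) (nat_lit 1) (.cons (.br (nat_lit 11) (nat_lit 1) (.cons (.ev (nat_lit 79538856468424102270661100035) (nat_lit 2)) (.cons (.br (nat_lit 12) (nat_lit 1) (.cons (.ev (nat_lit 20678868392177238841959020299008) (nat_lit 3)) .nil)) .nil))) (.cons (.rf (nat_lit 1884) (nat_lit 493858305440582043680)) .nil))),
 (.br (nat_lit 8) (nat_lit 1) (.cons (.rf (nat_lit 1885) (nat_lit 493858305440582043680)) (.cons (.br (nat_lit 8) (nat_lit 1) (.cons (.rf (nat_lit 1885) (nat_lit 493858305440582043680)) (.cons (.rf (nat_lit 1884) (nat_lit 493858305440582043680)) .nil))) (.cons (.rf (nat_lit 1884) (nat_lit 493858305440582043680)) .nil)))),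
 (.br (nat_lit 13) (nat_lit 1) (.cons (.rf (nat_lit 1884) (nat_lit 493858305440582043680)) (.cons (.rf (nat_lit 1886) (nat_lit 493858305440582043680)) (.cons (.br (nat_lit 13) (nat_lit 1) (.cons (.rf (nat_lit 1884) (nat_lit 493858305440582043680)) (.cons (.rf (nat_lit 1886) (nat_lit 493858305440582043680)) .nil))) .nil)))),
 (.br (nat_lit 13) (nat_lit 1) (.cons (.rf (nat_lit 1884) (nat_lit 493858305440582043680)) (.cons (.rf (nat_lit 1886) (nat_lit 493858305440582043680)) (.cons (.rf (nat_lit 1887) (nat_lit 493858305440582043680)) (.cons (.br (nat_lit 13) (nat_lit 1) (.cons (.rf (nat_lit 1884) (nat_lit 493858305440582043680)) (.cons (.rf (nat_lit 1886) (nat_lit 493858305440582043680)) (.cons (.rf (nat_lit 1887) (nat_lit 493858305440582043680)) .nil)))) .nil))))),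
 (.br (nat_lit 11) (nat_lit 1) (.cons (.ev (nat_lit 79228162532711363146541957121) (nat_lit 1)) .nil)),
 (.br (nat_lit 7) (nat_lit 1) (.cons (.rf (nat_lit 84) (nat_lit 12222536738)) (.cons (.br (nat_lit 11) (nat_lit 1) (.cons (.rf (nat_lit 84) (nat_lit 13164911690)) (.cons (.ev (nat_lit 309489732188110512858333441) (nat_lit 1)) (.cons (.ev (nat_lit 310698658079781640871149825) (nat_lit 1)) .nil)))) (.cons (.ev (nat_lit 79228162514336395191876845824) (nat_lit 1)) (.cons (.br (nat_lit 8) (nat_lit 1) (.cons (.br (nat_lit 11) (nat_lit 1) (.cons (.ev (nat_lit 79537647524085965236757070081) (nat_lit 1)) (.cons (.rf (nat_lit 1889) (nat_lit 15433070910038444064)) .nil))) (.cons (.br (nat_lit 13) (nat_lit 1) (.cons (.ev (nat_lit 20282409617837288957897951150337) (nat_lit 2)) (.cons (.kr (nat_lit 20282410812577490038580721025025) (nat_lit 4740813509517843104000) (nat_lit 0) (nat_lit 3)) .nil))) .nil))) .nil))))),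
 (.br (nat_lit 12) (nat_lit 1) (.cons (.rf (nat_lit 1888) (nat_lit 493858305440582043680)) (.cons (.rf (nat_lit 1890) (nat_lit 493858305440582043680)) (.cons (.br (nat_lit 7) (nat_lit 1) (.cons (.br (nat_lit 10) (nat_lit 1) (.cons (.ev (nat_lit 79538856449977636364769886465) (nat_lit 1)) (.cons (.br (nat_lit 11) (nat_lit 1) (.cons (.ev (nat_lit 79538861190718525334326673665) (nat_lit 1)) .nil)) .nil))) (.cons (.br (nat_lit 8) (nat_lit 1) (.cons (.ev (nat_lit 309485028340146740767228161) (nat_lit 1)) (.cons (.br (nat_lit 11) (nat_lit 1) (.cons (.ev (nat_lit 79538861190718525334326673665) (nat_lit 1)) .nil)) .nil))) (.cons (.ev (nat_lit 309489732188110512858333441) (nat_lit 1)) (.cons (.br (nat_lit 11) (nat_lit 1) (.cons (.br (nat_lit 10) (nat_lit 1) (.cons (.ev (nat_lit 20680106332216234870338727510788) (nat_lit 3)) .nil)) (.cons (.br (nat_lit 8) (nat_lit 1) (.cons (.ev (nat_lit 159076513455689494745929810434) (nat_lit 2)) .nil)) (.cons (.ev (nat_lit 20361637766166006820234361569281) (nat_lit 1))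 .nil)))) .nil))))) .nil)))),
 (.br (nat_lit 12) (nat_lit 1) (.cons (.rf (nat_lit 1888) (nat_lit 493858305440582043680)) (.cons (.rf (nat_lit 1890) (nat_lit 493858305440582043680)) (.cons (.rf (nat_lit 1891) (nat_lit 493858305440582043680)) (.cons (.br (nat_lit 12) (nat_lit 1) (.cons (.rf (nat_lit 1888) (nat_lit 493858305440582043680)) (.cons (.rf (nat_lit 1890) (nat_lit 493858305440582043680)) (.cons (.rf (nat_lit 1891) (nat_lit 493858305440582043680)) .nil)))) .nil))))),
 (.br (nat_lit 12) (nat_lit 1) (.cons (.kr (nat_lit 4722366482869645213696) (nat_lit 79228162514264337593543950336) (nat_lit 9) (nat_lit 0)) (.cons (.rf (nat_lit 1892) (nat_lit 493858305440582043680)) (.cons (.br (nat_lit 11) (nat_lit 1) (.cons (.ev (nat_lit 309489732188110512858333441) (nat_lit 1)) (.cons (.br (nat_lit 8) (nat_lit 1) (.cons (.ev (nat_lit 80157840673541770809251660289) (nat_lit 2)) (.cons (.ev (nat_lit 79541288505537746980164403715) (nat_lit 2)) .nil))) (.cons (.ev (nat_lit 79537647524085965236757070081) (nat_lit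 1)) .nil)))) .nil)))),
 (.br (nat_lit 12) (nat_lit 1) (.cons (.rf (nat_lit 1888) (nat_lit 493858305440582043680)) (.cons (.rf (nat_lit 1892) (nat_lit 493858305440582043680)) (.cons (.rf (nat_lit 1893) (nat_lit 493858305440582043680)) (.cons (.br (nat_lit 12) (nat_lit 1) (.cons (.rf (nat_lit 1888) (nat_lit 493858305440582043680)) (.cons (.rf (nat_lit 1892) (nat_lit 493858305440582043680)) (.cons (.rf (nat_lit 1893) (nat_lit 493858305440582043680)) .nil)))) .nil))))),
 (.br (nat_lit 12) (nat_lit 1) (.cons (.rf (nat_lit 1888) (nat_lit 493858305440582043680)) (.cons (.rf (nat_lit 1892) (nat_lit 493858305440582043680)) (.cons (.rf (nat_lit 1894) (nat_lit 493858305440582043680)) (.cons (.br (nat_lit 12) (nat_lit 1) (.cons (.rf (nat_lit 1888) (nat_lit 493858305440582043680)) (.cons (.rf (nat_lit 1892) (nat_lit 493858305440582043680)) (.cons (.rf (nat_lit 1894) (nat_lit 493858305440582043680)) .nil)))) .nil))))),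
 (.br (nat_lit 12) (nat_lit 1) (.cons (.rf (nat_lit 1888) (nat_lit 493858305440582043680)) (.cons (.rf (nat_lit 1892) (nat_lit 493858305440582043680)) (.cons (.rf (nat_lit 1894) (nat_lit 493858305440582043680)) (.cons (.rf (nat_lit 1895) (nat_lit 493858305440582043680)) (.cons (.br (nat_lit 12) (nat_lit 1) (.cons (.rf (nat_lit 1888) (nat_lit 493858305440582043680)) (.cons (.rf (nat_lit 1892) (nat_lit 493858305440582043680)) (.cons (.rf (nat_lit 1894) (nat_lit 493858305440582043680)) (.cons (.rf (nat_lit 1895) (nat_lit 493858305440582043680)) .nil))))) .nil)))))),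
 (.br (nat_lit 11) (nat_lit 1) (.cons (.rf (nat_lit 1339) (nat_lit 392259767521)) (.cons (.kr (nat_lit 4722366482869645213696) (nat_lit 309485009821345068724781056) (nat_lit 9) (nat_lit 0)) (.cons (.br (nat_lit 8) (nat_lit 1) (.cons (.zr (nat_lit 309485009822470968631624449) (nat_lit 4759259972120887820288) (nat_lit 5) (nat_lit 3)) (.cons (.rf (nat_lit 1709) (nat_lit 15433072044983552032)) (.cons (.zr (nat_lit 928455029465161106081186561) (nat_lit 14203992937860178247680) (nat_lit 5) (nat_lit 3)) .nil)))) .nil)))),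
 (.br (nat_lit 8) (nat_lit 1) (.cons (.rf (nat_lit 31) (nat_lit 377718082)) (.cons (.br (nat_lit 11) (nat_lit 1) (.cons (.rf (nat_lit 1812) (nat_lit 493858305440581027872)) (.cons (.br (nat_lit 12) (nat_lit 1) (.cons (.rf (nat_lit 1812) (nat_lit 493858305440581027872)) (.cons (.zr (nat_lit 3626833016374790673399808) (nat_lit 40564819212025707331867971485697) (nat_lit 5) (nat_lit 9)) .nil))) .nil))) .nil))),
 (.br (nat_lit 12) (nat_lit 1) (.cons (.ev (nat_lit 79228162532783139265586397441) (nat_lit 1)) (.cons (.ev (nat_lit 79537647542532709310466621696) (nat_lit 1)) .nil))),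
 (.br (nat_lit 8) (nat_lit 1) (.cons (.br (nat_lit 11) (nat_lit 1) (.cons (.ev (nat_lit 79538856468424380438479438080) (nat_lit 1)) (.cons (.rf (nat_lit 1899) (nat_lit 493858305440582043680)) .nil))) (.cons (.br (nat_lit 11) (nat_lit 1) (.cons (.br (nat_lit 11) (nat_lit 1) (.cons (.zr (nat_lit 18889465931478581052160) (nat_lit 159075295048171647903337545729) (nat_lit 5) (nat_lit 0)) .nil)) (.cons (.zr (nat_lit 18889465931478581183744) (nat_lit 40564821625192017963067147026433) (nat_lit 5) (nat_lit 0)) .nil))) .nil))),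
 (.br (nat_lit 12) (nat_lit 1) (.cons (.rf (nat_lit 1900) (nat_lit 493858305440582043680)) (.cons (.br (nat_lit 12) (nat_lit 1) (.cons (.rf (nat_lit 1900) (nat_lit 493858305440582043680)) (.cons (.zr (nat_lit 9444732965739290624768) (nat_lit 158456325028528957765887983617) (nat_lit 5) (nat_lit 0)) .nil))) (.cons (.br (nat_lit 12) (nat_lit 1) (.cons (.rf (nat_lit 1900) (nat_lit 493858305440582043680)) (.cons (.zr (nat_lit 9444732965739290624768) (nat_lit 158456325028528957765887983617) (nat_lit 5) (nat_lit 0)) .nil))) .nil)))),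
 (.br (nat_lit 8) (nat_lit 1) (.cons (.rf (nat_lit 1901) (nat_lit 493858305440582043680)) (.cons (.br (nat_lit 12) (nat_lit 1) (.cons (.br (nat_lit 12) (nat_lit 1) (.cons (.zr (nat_lit 18889465931478581052160) (nat_lit 159075295048171647903337545729) (nat_lit 5) (nat_lit 0)) .nil)) (.cons (.zr (nat_lit 18889465931478581183744) (nat_lit 40564821625192017963067147026433) (nat_lit 5) (nat_lit 0)) .nil))) .nil))),
 (.br (nat_lit 8) (nat_lit 1) (.cons (.rf (nat_lit 1902) (nat_lit 493858305440582043680)) (.cons (.rf (nat_lit 1901) (nat_lit 493858305440582043680)) (.cons (.br (nat_lit 8) (nat_lit 1) (.cons (.rf (nat_lit 1902) (nat_lit 493858305440582043680)) (.cons (.rf (nat_lit 1901) (nat_lit 493858305440582043680)) .nil))) .nil)))),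
 (.br (nat_lit 12) (nat_lit 1) (.cons (.rf (nat_lit 1901) (nat_lit 493858305440582043680)) (.cons (.rf (nat_lit 1903) (nat_lit 493858305440582043680)) (.cons (.br (nat_lit 12) (nat_lit 1) (.cons (.zr (nat_lit 9444732965739290624768) (nat_lit 158456325028528957765887983617) (nat_lit 5) (nat_lit 0)) (.cons (.rf (nat_lit 1903) (nat_lit 493858305440582043680)) .nil))) .nil)))),
 (.br (nat_lit 2) (nat_lit 1) (.cons (.br (nat_lit 11) (nat_lit 1) (.cons (.rf (nat_lit 1339) (nat_lit 392259767521)) (.cons (.rf (nat_lit 1343) (nat_lit 422352005345)) (.cons (.rf (nat_lit 1897) (nat_lit 493858305440582043680)) (.cons (.br (nat_lit 11) (nat_lit 1) (.cons (.rf (nat_lit 1339) (nat_lit 392259767521)) (.cons (.ev (nat_lit 310693935640960797427958016) (nat_lit 1)) (.cons (.rf (nat_lit 1897) (nat_lit 493858305440582043680)) .nil)))) .nil))))) (.cons (.br (nat_lit 8) (nat_lit 1) (.cons (.rf (nat_lit 31) (nat_lit 377718082)) (.cons (.rf (nat_lit 1898) (nat_lit 493858305440582043680)) (.cons (.br (nat_lit 8) (nat_lit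 1) (.cons (.rf (nat_lit 31) (nat_lit 377718082)) (.cons (.rf (nat_lit 1898) (nat_lit 493858305440582043680)) .nil))) .nil)))) (.cons (.rf (nat_lit 1896) (nat_lit 493858305440582043680)) (.cons (.rf (nat_lit 1896) (nat_lit 492741412732994160672)) (.cons (.br (nat_lit 12) (nat_lit 1) (.cons (.rf (nat_lit 1901) (nat_lit 493858305440582043680)) (.cons (.rf (nat_lit 1903) (nat_lit 493858305440582043680)) (.cons (.rf (nat_lit 1904) (nat_lit 493858305440582043680)) (.cons (.br (nat_lit 12) (nat_lit 1) (.cons (.rf (nat_lit 1901) (nat_lit 493858305440582043680)) (.cons (.rf (nat_lit 1903) (nat_lit 493858305440582043680)) (.cons (.rf (nat_lit 1904) (nat_lit 493858305440582043680)) .nil)))) .nil))))) .nil))))))]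

theorem c61 : chkAll C T R L61 (nat_lit 1877) = true := by decide +kernel

theorem l61 : (nat_lit 1877) + L61.length = (nat_lit 1906) := by decide +kernel

/-- part of the certificates -/
def L62 : List Prf := [(.br (nat_lit 2) (nat_lit 1) (.cons (.rf (nat_lit 31) (nat_lit 377816290)) (.cons (.rf (nat_lit 1339) (nat_lit 392159104321)) (.cons (.rf (nat_lit 1339) (nat_lit 289083296802)) (.cons (.rf (nat_lit 1896) (nat_lit 492741412732994160672)) (.cons (.br (nat_lit 7) (nat_lit 1) (.cons (.rf (nat_lit 84) (nat_lit 14336465954)) (.cons (.ev (nat_lit 309485009893402667057676544) (nat_lit 1)) (.cons (.rf (nat_lit 1905) (nat_lit 492741412732994160672)) (.cons (.br (nat_lit 8) (nat_lit 1) (.cons (.br (nat_lit 11) (nat_lit 1) (.cons (.br (nat_lit 12) (nat_lit 1) (.cons (.zr (nat_lit 9444732965739290624768) (nat_lit 158456325028528957765887983617) (nat_lit 5) (nat_lit 0)) .nil)) (.cons (.rf (nat_lit 84) (nat_lit 8972999745)) .nil))) (.cons (.rf (nat_lit 84) (nat_lit 12093267018)) .nil))) .nil))))) .nil)))))),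
 (.br (nat_lit 12) (nat_lit 1) (.cons (.rf (nat_lit 1896) (nat_lit 492741412732994160672)) (.cons (.kr (nat_lit 4722366482869645213696) (nat_lit 79228162514264337593543950336) (nat_lit 9) (nat_lit 0)) (.cons (.rf (nat_lit 1906) (nat_lit 492741412732994160672)) (.cons (.br (nat_lit 2) (nat_lit 1) (.cons (.zr (nat_lit 237684487542793012780632048384) (nat_lit 618974742009455585894858753) (nat_lit 5) (nat_lit 0)) (.cons (.ev (nat_lit 79229371458530697395956678913) (nat_lit 1)) (.cons (.zr (nat_lit 9444732965739290624768) (nat_lit 618970019642972716249645057) (nat_lit 5) (nat_lit 0)) .nil)))) .nil))))),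
 (.br (nat_lit 11) (nat_lit 1) (.cons (.rf (nat_lit 1896) (nat_lit 493858305440582043680)) (.cons (.rf (nat_lit 1905) (nat_lit 493858305440582043680)) (.cons (.rf (nat_lit 1906) (nat_lit 493858305440582043680)) (.cons (.br (nat_lit 12) (nat_lit 1) (.cons (.rf (nat_lit 1896) (nat_lit 492741412732994160672)) (.cons (.rf (nat_lit 1905) (nat_lit 492741412732994160672)) (.cons (.br (nat_lit 2) (nat_lit 1) (.cons (.rf (nat_lit 1593) (nat_lit 424171284706)) (.cons (.ev (nat_lit 310693954087704871137509633) (nat_lit 1)) (.cons (.rf (nat_lit 1896) (nat_lit 492741412732994160672)) (.cons (.zr (nat_lit 9444732965739290624768) (nat_lit 618970019642972716249645057) (nat_lit 5) (nat_lit 0)) .nil))))) (.cons (.rf (nat_lit 1907) (nat_lit 493858305440582043680)) (.cons (.br (nat_lit 12) (nat_lit 1) (.cons (.rf (nat_lit 1896) (nat_lit 492741412732994160672)) (.cons (.rf (nat_lit 1905) (nat_lit 492741412732994160672)) (.cons (.kr (nat_lit 309485009821345068724781056) (nat_lit 79228162514264337593543950336) (nat_lit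 11) (nat_lit 0)) (.cons (.rf (nat_lit 1907) (nat_lit 493858305440582043680)) .nil))))) .nil)))))) .nil))))),
 (.br (nat_lit 11) (nat_lit 1) (.cons (.rf (nat_lit 1896) (nat_lit 493858305440582043680)) (.cons (.rf (nat_lit 1905) (nat_lit 493858305440582043680)) (.cons (.rf (nat_lit 1906) (nat_lit 493858305440582043680)) (.cons (.rf (nat_lit 1908) (nat_lit 493858305440582043680)) (.cons (.br (nat_lit 11) (nat_lit 1) (.cons (.rf (nat_lit 1896) (nat_lit 493858305440582043680)) (.cons (.rf (nat_lit 1905) (nat_lit 493858305440582043680)) (.cons (.rf (nat_lit 1906) (nat_lit 493858305440582043680)) (.cons (.rf (nat_lit 1908) (nat_lit 493858305440582043680)) .nil))))) .nil)))))),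
 (.br (nat_lit 12) (nat_lit 1) (.cons (.rf (nat_lit 1896) (nat_lit 492741412732994160672)) (.cons (.rf (nat_lit 1905) (nat_lit 492741412732994160672)) (.cons (.rf (nat_lit 1909) (nat_lit 492741412732994160672)) (.cons (.br (nat_lit 12) (nat_lit 1) (.cons (.rf (nat_lit 1896) (nat_lit 492741412732994160672)) (.cons (.rf (nat_lit 1905) (nat_lit 492741412732994160672)) (.cons (.rf (nat_lit 1909) (nat_lit 492741412732994160672)) .nil)))) .nil))))),
 (.br (nat_lit 12) (nat_lit 1) (.cons (.rf (nat_lit 1896) (nat_lit 492741412732994160672)) (.cons (.rf (nat_lit 1905) (nat_lit 492741412732994160672)) (.cons (.rf (nat_lit 1909) (nat_lit 492741412732994160672)) (.cons (.rf (nat_lit 1910) (nat_lit 493858305440582043680)) (.cons (.br (nat_lit 12) (nat_lit 1) (.cons (.rf (nat_lit 1896) (nat_lit 492741412732994160672)) (.cons (.rf (nat_lit 1905) (nat_lit 492741412732994160672)) (.cons (.rf (nat_lit 1909) (nat_lit 492741412732994160672)) (.cons (.rf (nat_lit 1910) (nat_lit 493858305440582043680)) .nil))))) .nil)))))),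
 (.br (nat_lit 11) (nat_lit 1) (.cons (.rf (nat_lit 1896) (nat_lit 493858305440582043680)) (.cons (.rf (nat_lit 1905) (nat_lit 493858305440582043680)) (.cons (.rf (nat_lit 1909) (nat_lit 493858305440582043680)) (.cons (.rf (nat_lit 1911) (nat_lit 493858305440582043680)) (.cons (.br (nat_lit 11) (nat_lit 1) (.cons (.rf (nat_lit 1896) (nat_lit 493858305440582043680)) (.cons (.rf (nat_lit 1905) (nat_lit 493858305440582043680)) (.cons (.rf (nat_lit 1909) (nat_lit 493858305440582043680)) (.cons (.rf (nat_lit 1911) (nat_lit 493858305440582043680)) .nil))))) .nil)))))),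
 (.br (nat_lit 11) (nat_lit 1) (.cons (.rf (nat_lit 1896) (nat_lit 493858305440582043680)) (.cons (.rf (nat_lit 1905) (nat_lit 493858305440582043680)) (.cons (.rf (nat_lit 1909) (nat_lit 493858305440582043680)) (.cons (.rf (nat_lit 1911) (nat_lit 493858305440582043680)) (.cons (.rf (nat_lit 1912) (nat_lit 493858305440582043680)) (.cons (.br (nat_lit 11) (nat_lit 1) (.cons (.rf (nat_lit 1896) (nat_lit 493858305440582043680)) (.cons (.rf (nat_lit 1905) (nat_lit 493858305440582043680)) (.cons (.rf (nat_lit 1909) (nat_lit 493858305440582043680)) (.cons (.rf (nat_lit 1911) (nat_lit 493858305440582043680)) (.cons (.rf (nat_lit 1912) (nat_lit 493858305440582043680)) .nil)))))) .nil))))))),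
 (.br (nat_lit 12) (nat_lit 1) (.cons (.zr (nat_lit 9444732965739290624768) (nat_lit 158456325028528957765887983617) (nat_lit 5) (nat_lit 0)) .nil)),
 (.br (nat_lit 8) (nat_lit 1) (.cons (.rf (nat_lit 84) (nat_lit 14336465985)) (.cons (.br (nat_lit 11) (nat_lit 1) (.cons (.rf (nat_lit 1914) (nat_lit 493858305440582043680)) (.cons (.br (nat_lit 11) (nat_lit 1) (.cons (.rf (nat_lit 1914) (nat_lit 493858305440582043680)) .nil)) .nil))) (.cons (.rf (nat_lit 84) (nat_lit 12255796298)) .nil)))),
 (.br (nat_lit 1) (nat_lit 1) (.cons (.kr (nat_lit 1) (nat_lit 18446744073709551616) (nat_lit 0) (nat_lit 1)) (.cons (.rf (nat_lit 29) (nat_lit 8620353)) (.cons (.rf (nat_lit 1829) (nat_lit 493858305439540840480)) (.cons (.rf (nat_lit 1829) (nat_lit 492741412731952957472)) (.cons (.br (nat_lit 10) (nat_lit 1) (.cons (.rf (nat_lit 58) (nat_lit 8723521)) (.cons (.rf (nat_lit 1915) (nat_lit 493858305440582043680)) (.cons (.rf (nat_lit 1915) (nat_lit 492741412732994160672)) (.cons (.rf (nat_lit 1343) (nat_lit 388064618530))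 .nil))))) .nil)))))),
 (.br (nat_lit 12) (nat_lit 1) (.cons (.kr (nat_lit 4722366482869645279488) (nat_lit 18518801667764256768) (nat_lit 1) (nat_lit 0)) (.cons (.zr (nat_lit 18889465931478597829376) (nat_lit 40565440595174623049869084852225) (nat_lit 5) (nat_lit 0)) .nil))),
 (.br (nat_lit 13) (nat_lit 1) (.cons (.rf (nat_lit 82) (nat_lit 12093561890)) (.cons (.ev (nat_lit 18446744078021361664) (nat_lit 1)) (.cons (.br (nat_lit 7) (nat_lit 1) (.cons (.ev (nat_lit 20282409608392555709584172384256) (nat_lit 1)) (.cons (.rf (nat_lit 1917) (nat_lit 493858305440582043680)) (.cons (.rf (nat_lit 1917) (nat_lit 492741412732994160672)) .nil)))) .nil)))),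
 (.br (nat_lit 1) (nat_lit 1) (.cons (.rf (nat_lit 29) (nat_lit 8718561)) (.cons (.rf (nat_lit 58) (nat_lit 8718375)) (.cons (.rf (nat_lit 1733) (nat_lit 445092485094541344)) (.cons (.rf (nat_lit 1733) (nat_lit 410189587982420000)) (.cons (.br (nat_lit 13) (nat_lit 1) (.cons (.rf (nat_lit 1343) (nat_lit 388067761186)) (.cons (.ev (nat_lit 18446744078021361664) (nat_lit 1)) (.cons (.rf (nat_lit 1918) (nat_lit 493858305440582043680)) (.cons (.rf (nat_lit 1918) (nat_lit 492741412732994160672)) .nil))))) .nil)))))),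
 (.br (nat_lit 7) (nat_lit 1) (.cons (.rf (nat_lit 31) (nat_lit 377522503)) (.cons (.rf (nat_lit 1339) (nat_lit 289183861825)) (.cons (.ev (nat_lit 4722438540467978109184) (nat_lit 1)) (.cons (.br (nat_lit 10) (nat_lit 1) (.cons (.rf (nat_lit 84) (nat_lit 14238689319)) (.cons (.br (nat_lit 11) (nat_lit 1) (.cons (.zr (nat_lit 18889465931478614736896) (nat_lit 158456325065566561101366165505) (nat_lit 5) (nat_lit 6)) (.cons (.ev (nat_lit 310698658079501261094256641) (nat_lit 1)) .nil))) (.cons (.br (nat_lit 11) (nat_lit 1) (.cons (.ev (nat_lit 310698658079501261094256641) (nat_lit 1)) (.cons (.rf (nat_lit 84) (nat_lit 8972708066)) .nil))) .nil)))) .nil))))),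
 (.br (nat_lit 12) (nat_lit 1) (.cons (.kr (nat_lit 79228171958997303332834443520) (nat_lit 20282720297605830185312898252800) (nat_lit 1) (nat_lit 0)) .nil)),
 (.br (nat_lit 10) (nat_lit 1) (.cons (.ev (nat_lit 310693935640960797427958016) (nat_lit 1)) (.cons (.br (nat_lit 12) (nat_lit 1) (.cons (.ev (nat_lit 310698676526245334803808256) (nat_lit 1)) (.cons (.zr (nat_lit 18889465931478581183744) (nat_lit 158456325065566561101416497153) (nat_lit 5) (nat_lit 0)) .nil))) (.cons (.br (nat_lit 11) (nat_lit 1) (.cons (.rf (nat_lit 1921) (nat_lit 493858305440582043680)) (.cons (.ev (nat_lit 310698676526245334803808256) (nat_lit 1)) .nil))) .nil)))),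
 (.br (nat_lit 12) (nat_lit 1) (.cons (.zr (nat_lit 18889465931478581183744) (nat_lit 618970056680576051778158593) (nat_lit 5) (nat_lit 0)) (.cons (.kr (nat_lit 4722366482869661990912) (nat_lit 20282410812577490038576425992192) (nat_lit 3) (nat_lit 0)) .nil))),
 (.br (nat_lit 7) (nat_lit 1) (.cons (.ev (nat_lit 4722438540467978109184) (nat_lit 1)) (.cons (.br (nat_lit 11) (nat_lit 1) (.cons (.zr (nat_lit 18889465931478614736896) (nat_lit 618970056680576051727826945) (nat_lit 5) (nat_lit 6)) (.cons (.br (nat_lit 12) (nat_lit 1) (.cons (.ev (nat_lit 79538856449977355984992993281) (nat_lit 1)) .nil)) .nil))) (.cons (.br (nat_lit 12) (nat_lit 1) (.cons (.br (nat_lit 12) (nat_lit 1) (.cons (.ev (nat_lit 79228167236630820467500974081) (nat_lit 1)) .nil)) (.cons (.br (nat_lit 11) (nat_lit 1) (.cons (.ev (nat_lit 79228167236630820467500974081) (nat_lit 1)) .nil)) .nil))) .nil)))),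
 (.br (nat_lit 9) (nat_lit 1) (.cons (.ev (nat_lit 309485009893684142034387201) (nat_lit 1)) .nil)),
 (.br (nat_lit 11) (nat_lit 1) (.cons (.ev (nat_lit 4722438540467978109184) (nat_lit 1)) (.cons (.rf (nat_lit 1924) (nat_lit 493858305440582043680)) (.cons (.br (nat_lit 7) (nat_lit 1) (.cons (.zr (nat_lit 4777922887872904626944) (nat_lit 1237940039285945432465735682) (nat_lit 10) (nat_lit 0)) (.cons (.br (nat_lit 10) (nat_lit 1) (.cons (.ev (nat_lit 79538861190718525334326673665) (nat_lit 1)) .nil)) (.cons (.rf (nat_lit 1925) (nat_lit 15433072044983552032)) .nil)))) .nil)))),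
 (.br (nat_lit 11) (nat_lit 1) (.cons (.ev (nat_lit 4722438540467978109184) (nat_lit 1)) (.cons (.rf (nat_lit 1924) (nat_lit 493858305440582043680)) (.cons (.rf (nat_lit 1926) (nat_lit 493858305440582043680)) (.cons (.br (nat_lit 11) (nat_lit 1) (.cons (.ev (nat_lit 4722438540467978109184) (nat_lit 1)) (.cons (.rf (nat_lit 1924) (nat_lit 493858305440582043680)) (.cons (.rf (nat_lit 1926) (nat_lit 493858305440582043680)) .nil)))) .nil))))),
 (.br (nat_lit 1) (nat_lit 1) (.cons (.br (nat_lit 11) (nat_lit 1) (.cons (.br (nat_lit 13) (nat_lit 1) (.cons (.zr (nat_lit 4777922887872904626944) (nat_lit 1237940039285945432465735682) (nat_lit 10) (nat_lit 0)) (.cons (.kr (nat_lit 158456325028528675187087966464) (nat_lit 4740885284537409470464) (nat_lit 1) (nat_lit 0)) .nil))) (.cons (.br (nat_lit 12) (nat_lit 1) (.cons (.zr (nat_lit 4777922887872904626944) (nat_lit 1237940039285945432465735682) (nat_lit 10) (nat_lit 0)) (.cons (.zr (nat_lit 14185618250276733781248) (nat_lit 81129643250309960719463270580226)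 (nat_lit 10) (nat_lit 0)) .nil))) .nil))) (.cons (.ev (nat_lit 4722438540467978109184) (nat_lit 1)) (.cons (.rf (nat_lit 1927) (nat_lit 493858305440582043680)) (.cons (.br (nat_lit 10) (nat_lit 1) (.cons (.br (nat_lit 12) (nat_lit 1) (.cons (.zr (nat_lit 18889465931478581183744) (nat_lit 618970056680576051778158593) (nat_lit 5) (nat_lit 0)) (.cons (.zr (nat_lit 18889465931478581183744) (nat_lit 40564821625192017963067147026433) (nat_lit 5) (nat_lit 0)) .nil))) (.cons (.br (nat_lit 11) (nat_lit 1) (.cons (.kr (nat_lit 4722366482869645213696) (nat_lit 79228162514264337593543950336) (nat_lit 9) (nat_lit 0)) (.cons (.zr (nat_lit 18889465931478581183744) (nat_lit 40564821625192017963067147026433) (nat_lit 5) (nat_lit 0)) .nil))) (.cons (.rf (nat_lit 84) (nat_lit 13167044647)) .nil)))) .nil))))),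
 (.br (nat_lit 12) (nat_lit 1) (.cons (.rf (nat_lit 1927) (nat_lit 493858305440582043680)) (.cons (.kr (nat_lit 4722366482869645213696) (nat_lit 79228162514264337593543950336) (nat_lit 9) (nat_lit 0)) (.cons (.br (nat_lit 1) (nat_lit 1) (.cons (.br (nat_lit 11) (nat_lit 1) (.cons (.zr (nat_lit 237684487542793012780632048384) (nat_lit 618974742009455585894858753) (nat_lit 5) (nat_lit 0)) .nil)) (.cons (.ev (nat_lit 313111824173678207508283651) (nat_lit 2)) (.cons (.br (nat_lit 7) (nat_lit 1) (.cons (.zr (nat_lit 18889465931478581052160) (nat_lit 159075295048171647903337545729) (nat_lit 5) (nat_lit 0)) .nil)) .nil)))) .nil)))),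
 (.br (nat_lit 12) (nat_lit 1) (.cons (.rf (nat_lit 1927) (nat_lit 493858305440582043680)) (.cons (.rf (nat_lit 1928) (nat_lit 493858305440582043680)) (.cons (.rf (nat_lit 1929) (nat_lit 493858305440582043680)) (.cons (.br (nat_lit 12) (nat_lit 1) (.cons (.rf (nat_lit 1927) (nat_lit 493858305440582043680)) (.cons (.rf (nat_lit 1928) (nat_lit 493858305440582043680)) (.cons (.rf (nat_lit 1929) (nat_lit 493858305440582043680)) .nil)))) .nil))))),
 (.br (nat_lit 12) (nat_lit 1) (.cons (.rf (nat_lit 1927) (nat_lit 493858305440582043680)) (.cons (.rf (nat_lit 1928) (nat_lit 493858305440582043680)) (.cons (.rf (nat_lit 1930) (nat_lit 493858305440582043680)) (.cons (.br (nat_lit 12) (nat_lit 1) (.cons (.ev (nat_lit 79228167236630820467500974081) (nat_lit 1)) (.cons (.rf (nat_lit 1928) (nat_lit 493858305440582043680)) (.cons (.rf (nat_lit 1930) (nat_lit 493858305440582043680)) .nil)))) .nil))))),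
 (.br (nat_lit 8) (nat_lit 1) (.cons (.rf (nat_lit 1913) (nat_lit 493858305440582043680)) (.cons (.rf (nat_lit 1916) (nat_lit 493858305440582043680)) (.cons (.rf (nat_lit 1919) (nat_lit 493858305440582043680)) (.cons (.br (nat_lit 1) (nat_lit 1) (.cons (.ev (nat_lit 4740885284541687660801) (nat_lit 1)) (.cons (.rf (nat_lit 1593) (nat_lit 424204836161)) (.cons (.rf (nat_lit 1920) (nat_lit 493858305440582043680)) (.cons (.rf (nat_lit 1920) (nat_lit 492741412732994160672)) (.cons (.br (nat_lit 7) (nat_lit 1) (.cons (.kr (nat_lit 4722366482869645279488) (nat_lit 18518801667764256768) (nat_lit 1) (nat_lit 0)) (.cons (.rf (nat_lit 1922) (nat_lit 493858305440582043680)) (.cons (.rf (nat_lit 1922) (nat_lit 492741412732994160672)) (.cons (.br (nat_lit 10) (nat_lit 1) (.cons (.rf (nat_lit 1923) (nat_lit 493858305440582043680)) (.cons (.rf (nat_lit 1923) (nat_lit 492741412732994160672)) (.cons (.ev (nat_lit 20282410817318303265524075790336) (nat_lit 1)) .nil)))) .nil))))) .nil)))))) (.cons (.br (nat_lit 12)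 (nat_lit 1) (.cons (.rf (nat_lit 1927) (nat_lit 493858305440582043680)) (.cons (.rf (nat_lit 1928) (nat_lit 493858305440582043680)) (.cons (.rf (nat_lit 1930) (nat_lit 493858305440582043680)) (.cons (.rf (nat_lit 1931) (nat_lit 493858305440582043680)) (.cons (.br (nat_lit 12) (nat_lit 1) (.cons (.rf (nat_lit 1927) (nat_lit 493858305440582043680)) (.cons (.rf (nat_lit 1928) (nat_lit 493858305440582043680)) (.cons (.rf (nat_lit 1930) (nat_lit 493858305440582043680)) (.cons (.rf (nat_lit 1931) (nat_lit 493858305440582043680)) .nil))))) .nil)))))) .nil))))))]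

theorem c62 : chkAll C T R L62 (nat_lit 1906) = true := by decide +kernel

theorem l62 : (nat_lit 1906) + L62.length = (nat_lit 1933) := by decide +kernel

/-- part of the certificates -/
def L63 : List Prf := [(.br (nat_lit 8) (nat_lit 1) (.cons (.rf (nat_lit 1913) (nat_lit 493858305440582043680)) (.cons (.rf (nat_lit 1916) (nat_lit 493858305440582043680)) (.cons (.rf (nat_lit 1919) (nat_lit 493858305440582043680)) (.cons (.rf (nat_lit 1932) (nat_lit 493858305440582043680)) (.cons (.rf (nat_lit 1932) (nat_lit 492741412732994160672)) (.cons (.br (nat_lit 8) (nat_lit 1) (.cons (.rf (nat_lit 1913) (nat_lit 493858305440582043680)) (.cons (.rf (nat_lit 1916) (nat_lit 493858305440582043680)) (.cons (.ev (nat_lit 18446744078021361664) (nat_lit 1)) (.cons (.rf (nat_lit 1932) (nat_lit 493858305440582043680)) (.cons (.rf (nat_lit 1932) (nat_lit 492741412732994160672)) .nil)))))) .nil))))))),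
 (.br (nat_lit 11) (nat_lit 1) (.cons (.rf (nat_lit 82) (nat_lit 13165201447)) (.cons (.ev (nat_lit 310698658079501261094256641) (nat_lit 1)) (.cons (.br (nat_lit 2) (nat_lit 1) (.cons (.ev (nat_lit 309489732187827942681804801) (nat_lit 1)) (.cons (.br (nat_lit 12) (nat_lit 1) (.cons (.rf (nat_lit 84) (nat_lit 12222277857)) (.cons (.ev (nat_lit 158768237334794835806050779905) (nat_lit 2)) .nil))) (.cons (.br (nat_lit 8) (nat_lit 1) (.cons (.br (nat_lit 12) (nat_lit 1) (.cons (.ev (nat_lit 159076503974207156047262711810) (nat_lit 2)) .nil)) (.cons (.rf (nat_lit 84) (nat_lit 12255832289)) .nil))) .nil)))) .nil)))),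
 (.br (nat_lit 11) (nat_lit 1) (.cons (.rf (nat_lit 1343) (nat_lit 422360385575)) (.cons (.rf (nat_lit 1339) (nat_lit 391991594023)) (.cons (.rf (nat_lit 1934) (nat_lit 493858305440582043680)) (.cons (.br (nat_lit 11) (nat_lit 1) (.cons (.rf (nat_lit 82) (nat_lit 14238943271)) (.cons (.rf (nat_lit 1339) (nat_lit 391991594023)) (.cons (.rf (nat_lit 1934) (nat_lit 493858305440582043680)) .nil)))) .nil))))),
 (.br (nat_lit 12) (nat_lit 1) (.cons (.ev (nat_lit 79229376162522493785913425921) (nat_lit 1)) (.cons (.ev (nat_lit 79228162532783421835796611073) (nat_lit 1)) .nil))),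
 (.br (nat_lit 8) (nat_lit 1) (.cons (.rf (nat_lit 84) (nat_lit 14336207073)) (.cons (.br (nat_lit 11) (nat_lit 1) (.cons (.rf (nat_lit 1936) (nat_lit 493858305440582043680)) (.cons (.br (nat_lit 11) (nat_lit 1) (.cons (.rf (nat_lit 1936) (nat_lit 493858305440582043680)) .nil)) .nil))) (.cons (.rf (nat_lit 84) (nat_lit 12255799522)) .nil)))),
 (.br (nat_lit 1) (nat_lit 1) (.cons (.rf (nat_lit 29) (nat_lit 8723521)) (.cons (.ev (nat_lit 18447026648197890304) (nat_lit 1)) (.cons (.rf (nat_lit 1935) (nat_lit 493858305440582043680)) (.cons (.rf (nat_lit 1935) (nat_lit 492741412732994160672)) (.cons (.br (nat_lit 2) (nat_lit 1) (.cons (.rf (nat_lit 58) (nat_lit 8723521)) (.cons (.rf (nat_lit 1937) (nat_lit 493858305440582043680)) (.cons (.rf (nat_lit 1937) (nat_lit 492741412732994160672)) (.cons (.rf (nat_lit 1343) (nat_lit 388067756071)) .nil))))) .nil)))))),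
 (.br (nat_lit 12) (nat_lit 1) (.cons (.ev (nat_lit 4722438540467978109184) (nat_lit 1)) (.cons (.ev (nat_lit 1213648186098598348390656) (nat_lit 1)) (.cons (.ev (nat_lit 309489732187827942681804801) (nat_lit 1)) (.cons (.br (nat_lit 12) (nat_lit 1) (.cons (.ev (nat_lit 4722438540467978109184) (nat_lit 1)) (.cons (.ev (nat_lit 1213648186098598348390656) (nat_lit 1)) (.cons (.ev (nat_lit 309489732187827942681804801) (nat_lit 1)) .nil)))) .nil))))),
 (.br (nat_lit 2) (nat_lit 1) (.cons (.rf (nat_lit 31) (nat_lit 377527618)) (.cons (.rf (nat_lit 1339) (nat_lit 289183698145)) (.cons (.br (nat_lit 13) (nat_lit 1) (.cons (.ev (nat_lit 1213648186098598348390656) (nat_lit 1)) (.cons (.ev (nat_lit 309489732187827942681804801) (nat_lit 1)) (.cons (.ev (nat_lit 79228167255077564541210525696) (nat_lit 1)) .nil)))) (.cons (.rf (nat_lit 1939) (nat_lit 493858305440582043680)) .nil))))),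
 (.br (nat_lit 10) (nat_lit 1) (.cons (.rf (nat_lit 84) (nat_lit 14238853185)) (.cons (.ev (nat_lit 1213648186098598348390656) (nat_lit 1)) (.cons (.br (nat_lit 11) (nat_lit 1) (.cons (.br (nat_lit 12) (nat_lit 1) (.cons (.ev (nat_lit 20522266540392889652390702153988) (nat_lit 3)) .nil)) (.cons (.ev (nat_lit 309489750634572016391356416) (nat_lit 1)) .nil))) .nil)))),
 (.br (nat_lit 11) (nat_lit 1) (.cons (.ev (nat_lit 309485028340429310977441793) (nat_lit 1)) (.cons (.ev (nat_lit 313125972898722906965541121) (nat_lit 2)) .nil))),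
 (.br (nat_lit 10) (nat_lit 1) (.cons (.rf (nat_lit 84) (nat_lit 13165111361)) (.cons (.br (nat_lit 11) (nat_lit 1) (.cons (.ev (nat_lit 309489750634572016391356416) (nat_lit 1)) (.cons (.br (nat_lit 12) (nat_lit 1) (.cons (.ev (nat_lit 22113031703024723055405980130584) (nat_lit 5)) .nil)) .nil))) (.cons (.ev (nat_lit 1213648186098598348390656) (nat_lit 1)) .nil)))),
 (.br (nat_lit 13) (nat_lit 1) (.cons (.ev (nat_lit 1213648186098598348390656) (nat_lit 1)) (.cons (.ev (nat_lit 313125972898722906965541121) (nat_lit 2)) (.cons (.br (nat_lit 13) (nat_lit 1) (.cons (.ev (nat_lit 1213648186098598348390656) (nat_lit 1)) (.cons (.ev (nat_lit 313125972898722906965541121) (nat_lit 2)) .nil))) .nil)))),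
 (.br (nat_lit 11) (nat_lit 1) (.cons (.ev (nat_lit 309489750634572016391356416) (nat_lit 1)) (.cons (.rf (nat_lit 1944) (nat_lit 493858305440582043680)) (.cons (.br (nat_lit 12) (nat_lit 1) (.cons (.ev (nat_lit 79537652264970967203956392193) (nat_lit 1)) (.cons (.br (nat_lit 2) (nat_lit 1) (.cons (.ev (nat_lit 20837322289835751341747425445636) (nat_lit 3)) .nil)) (.cons (.zr (nat_lit 309485065162140239806857984) (nat_lit 60847228815677377755815222444033) (nat_lit 5) (nat_lit 0)) .nil)))) .nil)))),
 (.br (nat_lit 11) (nat_lit 1) (.cons (.rf (nat_lit 1943) (nat_lit 493858305440582043680)) (.cons (.rf (nat_lit 1944) (nat_lit 493858305440582043680)) (.cons (.rf (nat_lit 1945) (nat_lit 493858305440582043680)) (.cons (.br (nat_lit 11) (nat_lit 1) (.cons (.rf (nat_lit 1943) (nat_lit 493858305440582043680)) (.cons (.ev (nat_lit 313125972898722906965541121) (nat_lit 2)) (.cons (.rf (nat_lit 1945) (nat_lit 493858305440582043680)) .nil)))) .nil))))),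
 (.br (nat_lit 1) (nat_lit 1) (.cons (.br (nat_lit 11) (nat_lit 1) (.cons (.rf (nat_lit 84) (nat_lit 8971659335)) (.cons (.ev (nat_lit 309489732187827942681804801) (nat_lit 1)) .nil))) (.cons (.ev (nat_lit 79229371440084233701990334464) (nat_lit 1)) (.cons (.br (nat_lit 13) (nat_lit 1) (.cons (.ev (nat_lit 20282410812596009122818661875713) (nat_lit 1)) (.cons (.ev (nat_lit 20282409617837288957897951150337) (nat_lit 2)) .nil))) .nil)))),
 (.br (nat_lit 12) (nat_lit 1) (.cons (.rf (nat_lit 1946) (nat_lit 493858305440582043680)) (.cons (.rf (nat_lit 1947) (nat_lit 493858305440582043680)) (.cons (.br (nat_lit 1) (nat_lit 1) (.cons (.br (nat_lit 11) (nat_lit 1) (.cons (.ev (nat_lit 79537647524085965236757070081) (nat_lit 1)) .nil)) (.cons (.br (nat_lit 10) (nat_lit 1) (.cons (.ev (nat_lit 1213648186098598348390656) (nat_lit 1)) .nil)) (.cons (.ev (nat_lit 20282409617837288957897951150337) (nat_lit 2)) .nil)))) .nil)))),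
 (.br (nat_lit 12) (nat_lit 1) (.cons (.rf (nat_lit 1946) (nat_lit 493858305440582043680)) (.cons (.rf (nat_lit 1947) (nat_lit 493858305440582043680)) (.cons (.rf (nat_lit 1948) (nat_lit 493858305440582043680)) (.cons (.br (nat_lit 12) (nat_lit 1) (.cons (.rf (nat_lit 1946) (nat_lit 493858305440582043680)) (.cons (.rf (nat_lit 1947) (nat_lit 493858305440582043680)) (.cons (.rf (nat_lit 1948) (nat_lit 493858305440582043680)) .nil)))) .nil))))),
 (.br (nat_lit 12) (nat_lit 1) (.cons (.rf (nat_lit 1946) (nat_lit 493858305440582043680)) (.cons (.rf (nat_lit 1949) (nat_lit 493858305440582043680)) (.cons (.br (nat_lit 12) (nat_lit 1) (.cons (.rf (nat_lit 1946) (nat_lit 493858305440582043680)) (.cons (.rf (nat_lit 1949) (nat_lit 493858305440582043680)) (.cons (.ev (nat_lit 79229371458530977775699886081) (nat_lit 1)) .nil)))) (.cons (.br (nat_lit 12) (nat_lit 1) (.cons (.rf (nat_lit 1946) (nat_lit 493858305440582043680)) (.cons (.rf (nat_lit 1949) (nat_lit 493858305440582043680)) (.cons (.ev (nat_lit 79229371458530977775699886081)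 (nat_lit 1)) .nil)))) .nil))))),
 (.br (nat_lit 12) (nat_lit 1) (.cons (.rf (nat_lit 1946) (nat_lit 493858305440582043680)) (.cons (.rf (nat_lit 1949) (nat_lit 493858305440582043680)) (.cons (.rf (nat_lit 1950) (nat_lit 493858305440582043680)) (.cons (.br (nat_lit 12) (nat_lit 1) (.cons (.rf (nat_lit 1946) (nat_lit 493858305440582043680)) (.cons (.rf (nat_lit 1949) (nat_lit 493858305440582043680)) (.cons (.ev (nat_lit 79229371458530977775699886081) (nat_lit 1)) .nil)))) .nil))))),
 (.br (nat_lit 8) (nat_lit 1) (.cons (.rf (nat_lit 1913) (nat_lit 493858305440582043680)) (.cons (.rf (nat_lit 1933) (nat_lit 493858305440582043680)) (.cons (.rf (nat_lit 1938) (nat_lit 493858305440582043680)) (.cons (.br (nat_lit 1) (nat_lit 1) (.cons (.rf (nat_lit 1593) (nat_lit 424372611137)) (.cons (.rf (nat_lit 1593) (nat_lit 424372603201)) (.cons (.rf (nat_lit 1940) (nat_lit 493858305440582043680)) (.cons (.rf (nat_lit 1940) (nat_lit 492741412732994160672)) (.cons (.br (nat_lit 2) (nat_lit 1) (.cons (.ev (nat_lit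 1208925891953702501155073) (nat_lit 1)) (.cons (.rf (nat_lit 1941) (nat_lit 493858305440582043680)) (.cons (.rf (nat_lit 1941) (nat_lit 492741412732994160672)) (.cons (.br (nat_lit 10) (nat_lit 1) (.cons (.rf (nat_lit 1942) (nat_lit 493858305440582043680)) (.cons (.rf (nat_lit 1942) (nat_lit 492741412732994160672)) (.cons (.ev (nat_lit 20282409608392555709584172384256) (nat_lit 1)) .nil)))) .nil))))) .nil)))))) (.cons (.br (nat_lit 12) (nat_lit 1) (.cons (.rf (nat_lit 1946) (nat_lit 493858305440582043680)) (.cons (.rf (nat_lit 1949) (nat_lit 493858305440582043680)) (.cons (.rf (nat_lit 1950) (nat_lit 493858305440582043680)) (.cons (.rf (nat_lit 1951) (nat_lit 493858305440582043680)) (.cons (.br (nat_lit 12) (nat_lit 1) (.cons (.rf (nat_lit 1946) (nat_lit 493858305440582043680)) (.cons (.rf (nat_lit 1949) (nat_lit 493858305440582043680)) (.cons (.rf (nat_lit 1950) (nat_lit 493858305440582043680)) (.cons (.rf (nat_lit 1951) (nat_lit 493858305440582043680)) .nil))))) .nil)))))) .nil)))))),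
 (.br (nat_lit 8) (nat_lit 1) (.cons (.rf (nat_lit 1913) (nat_lit 493858305440582043680)) (.cons (.rf (nat_lit 1933) (nat_lit 493858305440582043680)) (.cons (.rf (nat_lit 1938) (nat_lit 493858305440582043680)) (.cons (.rf (nat_lit 1952) (nat_lit 493858305440582043680)) (.cons (.rf (nat_lit 1952) (nat_lit 492741412732994160672)) (.cons (.br (nat_lit 8) (nat_lit 1) (.cons (.rf (nat_lit 1913) (nat_lit 493858305440582043680)) (.cons (.rf (nat_lit 1933) (nat_lit 493858305440582043680)) (.cons (.rf (nat_lit 1938) (nat_lit 493858305440582043680)) (.cons (.rf (nat_lit 1952) (nat_lit 493858305440582043680)) (.cons (.rf (nat_lit 1952) (nat_lit 492741412732994160672)) .nil)))))) .nil))))))),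
 (.br (nat_lit 2) (nat_lit 1) (.cons (.rf (nat_lit 31) (nat_lit 377530594)) (.cons (.rf (nat_lit 1339) (nat_lit 289083034945)) (.cons (.br (nat_lit 7) (nat_lit 1) (.cons (.rf (nat_lit 84) (nat_lit 13165206562)) (.cons (.ev (nat_lit 4722438540467978109184) (nat_lit 1)) (.cons (.br (nat_lit 11) (nat_lit 1) (.cons (.zr (nat_lit 79230585088342107315576570112) (nat_lit 55340234420168687616) (nat_lit 5) (nat_lit 9)) (.cons (.ev (nat_lit 309489732187827942681804801) (nat_lit 1)) .nil))) .nil)))) (.cons (.rf (nat_lit 1939) (nat_lit 493858305440582043680)) .nil))))),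
 (.br (nat_lit 7) (nat_lit 1) (.cons (.rf (nat_lit 84) (nat_lit 14238948417)) (.cons (.br (nat_lit 11) (nat_lit 1) (.cons (.ev (nat_lit 79229371458530977775699886081) (nat_lit 1)) (.cons (.br (nat_lit 12) (nat_lit 1) (.cons (.zr (nat_lit 928455085020444607496847360) (nat_lit 396140817293688452316636971009) (nat_lit 5) (nat_lit 4)) .nil)) .nil))) (.cons (.br (nat_lit 11) (nat_lit 1) (.cons (.br (nat_lit 12) (nat_lit 1) (.cons (.zr (nat_lit 928455085020440209450336256) (nat_lit 396140817293688453416148271105) (nat_lit 5) (nat_lit 0)) .nil)) (.cons (.ev (nat_lit 20282409603651670425046762979584) (nat_lit 1)) .nil))) .nil)))),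
 (.br (nat_lit 11) (nat_lit 1) (.cons (.ev (nat_lit 310693954087985250880716801) (nat_lit 1)) (.cons (.ev (nat_lit 310708121403606646225240321) (nat_lit 2)) .nil))),
 (.br (nat_lit 12) (nat_lit 1) (.cons (.zr (nat_lit 158458742880312301108489879808) (nat_lit 4740813228047178203137) (nat_lit 5) (nat_lit 9)) .nil)),
 (.br (nat_lit 7) (nat_lit 1) (.cons (.ev (nat_lit 4722438540467978109184) (nat_lit 1)) (.cons (.br (nat_lit 11) (nat_lit 1) (.cons (.zr (nat_lit 928497530978553832392687620) (nat_lit 792281625271772279898336396544) (nat_lit 5) (nat_lit 9)) (.cons (.br (nat_lit 12) (nat_lit 1) (.cons (.ev (nat_lit 79538861172272061640360329216) (nat_lit 1)) .nil)) .nil))) (.cons (.rf (nat_lit 1419) (nat_lit 14241976596206585888)) .nil)))),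
 (.br (nat_lit 11) (nat_lit 1) (.cons (.ev (nat_lit 309485009893684142034387201) (nat_lit 1)) .nil)),
 (.br (nat_lit 6) (nat_lit 1) (.cons (.ev (nat_lit 18447025552981229824) (nat_lit 1)) (.cons (.ev (nat_lit 309485009893684142034387201) (nat_lit 1)) .nil))),
 (.br (nat_lit 11) (nat_lit 1) (.cons (.rf (nat_lit 1958) (nat_lit 493858305440582043680)) (.cons (.ev (nat_lit 4722438540467978109184) (nat_lit 1)) (.cons (.br (nat_lit 2) (nat_lit 1) (.cons (.rf (nat_lit 1959) (nat_lit 15433072044983552032)) (.cons (.rf (nat_lit 1960) (nat_lit 15433072044983552032)) (.cons (.br (nat_lit 7) (nat_lit 1) (.cons (.ev (nat_lit 20837324707687246453593006737156) (nat_lit 3)) .nil)) .nil)))) .nil)))),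
 (.br (nat_lit 8) (nat_lit 1) (.cons (.rf (nat_lit 1913) (nat_lit 493858305440582043680)) (.cons (.rf (nat_lit 1933) (nat_lit 493858305440582043680)) (.cons (.rf (nat_lit 1953) (nat_lit 493858305440582043680)) (.cons (.br (nat_lit 1) (nat_lit 1) (.cons (.rf (nat_lit 1593) (nat_lit 424473271361)) (.cons (.rf (nat_lit 1593) (nat_lit 424473266401)) (.cons (.rf (nat_lit 1954) (nat_lit 493858305440582043680)) (.cons (.rf (nat_lit 1954) (nat_lit 492741412732994160672)) (.cons (.br (nat_lit 2) (nat_lit 1) (.cons (.rf (nat_lit 1593) (nat_lit 424473265378)) (.cons (.rf (nat_lit 1955) (nat_lit 493858305440582043680)) (.cons (.rf (nat_lit 1955) (nat_lit 492741412732994160672)) (.cons (.br (nat_lit 7) (nat_lit 1) (.cons (.rf (nat_lit 1956) (nat_lit 493858305440582043680)) (.cons (.rf (nat_lit 1956) (nat_lit 492741412732994160672)) (.cons (.ev (nat_lit 20282410817318303265524075790336) (nat_lit 1)) .nil)))) .nil))))) .nil)))))) (.cons (.br (nat_lit 1) (nat_lit 1) (.cons (.rf (nat_lit 1860) (nat_lit 493858305439540840480))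 (.cons (.br (nat_lit 2) (nat_lit 1) (.cons (.ev (nat_lit 1208944338697776210706688) (nat_lit 1)) (.cons (.br (nat_lit 11) (nat_lit 1) (.cons (.rf (nat_lit 1957) (nat_lit 493858305440582043680)) (.cons (.br (nat_lit 11) (nat_lit 1) (.cons (.rf (nat_lit 1957) (nat_lit 493858305440582043680)) .nil)) .nil))) (.cons (.rf (nat_lit 31) (nat_lit 444672225)) .nil)))) (.cons (.br (nat_lit 7) (nat_lit 1) (.cons (.rf (nat_lit 31) (nat_lit 377530594)) (.cons (.rf (nat_lit 1339) (nat_lit 288915426625)) (.cons (.ev (nat_lit 4722438540467978109184) (nat_lit 1)) (.cons (.br (nat_lit 2) (nat_lit 1) (.cons (.ev (nat_lit 310693954087704871137509633) (nat_lit 1)) (.cons (.br (nat_lit 11) (nat_lit 1) (.cons (.br (nat_lit 12) (nat_lit 1) (.cons (.ev (nat_lit 158768237334794835806050779905) (nat_lit 2)) .nil)) (.cons (.ev (nat_lit 309489732187827942681804801) (nat_lit 1)) .nil))) (.cons (.rf (nat_lit 84) (nat_lit 12093561921)) .nil)))) .nil))))) (.cons (.br (nat_lit 11) (nat_lit 1) (.cons (.rf (nat_lit 1958) (nat_lit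 493858305440582043680)) (.cons (.ev (nat_lit 4722438540467978109184) (nat_lit 1)) (.cons (.rf (nat_lit 1961) (nat_lit 493858305440582043680)) (.cons (.br (nat_lit 11) (nat_lit 1) (.cons (.rf (nat_lit 1958) (nat_lit 493858305440582043680)) (.cons (.ev (nat_lit 4722438540467978109184) (nat_lit 1)) (.cons (.rf (nat_lit 1961) (nat_lit 493858305440582043680)) .nil)))) .nil))))) (.cons (.br (nat_lit 7) (nat_lit 1) (.cons (.rf (nat_lit 31) (nat_lit 444639458)) (.cons (.br (nat_lit 2) (nat_lit 1) (.cons (.rf (nat_lit 84) (nat_lit 14238948417)) (.cons (.br (nat_lit 11) (nat_lit 1) (.cons (.br (nat_lit 12) (nat_lit 1) (.cons (.ev (nat_lit 20522261704652430044905945105158) (nat_lit 3)) .nil)) (.cons (.ev (nat_lit 310693954087985250880716801) (nat_lit 1)) .nil))) (.cons (.rf (nat_lit 84) (nat_lit 12093556775)) .nil)))) (.cons (.br (nat_lit 2) (nat_lit 1) (.cons (.br (nat_lit 11) (nat_lit 1) (.cons (.br (nat_lit 12) (nat_lit 1) (.cons (.zr (nat_lit 42557215038800239333120) (nat_lit 1189041407733608036662392127489)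 (nat_lit 30) (nat_lit 0)) .nil)) (.cons (.ev (nat_lit 20282720297587311666219655889153) (nat_lit 1)) .nil))) (.cons (.br (nat_lit 12) (nat_lit 1) (.cons (.ev (nat_lit 79229376162522774165690319105) (nat_lit 1)) (.cons (.ev (nat_lit 79229380921710687593011675137) (nat_lit 2)) .nil))) (.cons (.rf (nat_lit 84) (nat_lit 13167298599)) .nil)))) (.cons (.ev (nat_lit 20282410812577562096174775664896) (nat_lit 1)) .nil))))) .nil)))))) .nil))))))]

theorem c63 : chkAll C T R L63 (nat_lit 1933) = true := by decide +kernel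

theorem l63 : (nat_lit 1933) + L63.length = (nat_lit 1963) := by decide +kernel

/-- part of the certificates -/
def L64 : List Prf := [(.br (nat_lit 8) (nat_lit 1) (.cons (.rf (nat_lit 1913) (nat_lit 493858305440582043680)) (.cons (.rf (nat_lit 1933) (nat_lit 493858305440582043680)) (.cons (.rf (nat_lit 1953) (nat_lit 493858305440582043680)) (.cons (.rf (nat_lit 1962) (nat_lit 493858305440582043680)) (.cons (.rf (nat_lit 1962) (nat_lit 492741412732994160672)) (.cons (.br (nat_lit 8) (nat_lit 1) (.cons (.rf (nat_lit 1913) (nat_lit 493858305440582043680)) (.cons (.ev (nat_lit 18446744078021361664) (nat_lit 1)) (.cons (.rf (nat_lit 1953) (nat_lit 493858305440582043680)) (.cons (.rf (nat_lit 1962) (nat_lit 493858305440582043680)) (.cons (.rf (nat_lit 1962) (nat_lit 492741412732994160672)) .nil)))))) .nil))))))),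
 (.br (nat_lit 13) (nat_lit 1) (.cons (.ev (nat_lit 310698676526245334803808256) (nat_lit 1)) (.cons (.zr (nat_lit 60847232437732686288511391760384) (nat_lit 4759260253595864399873) (nat_lit 5) (nat_lit 9)) .nil))),
 (.br (nat_lit 11) (nat_lit 1) (.cons (.zr (nat_lit 928455029680207988321681408) (nat_lit 4759260253595847622657) (nat_lit 5) (nat_lit 9)) (.cons (.rf (nat_lit 31) (nat_lit 447777095)) .nil))),
 (.br (nat_lit 2) (nat_lit 1) (.cons (.zr (nat_lit 928455029680207988321681408) (nat_lit 4759260253595847622657) (nat_lit 5) (nat_lit 9)) (.cons (.ev (nat_lit 4740885567111897874433) (nat_lit 1)) (.cons (.zr (nat_lit 60847232437732686288511391760384) (nat_lit 4759260253595864399873) (nat_lit 5) (nat_lit 9)) .nil)))),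
 (.br (nat_lit 12) (nat_lit 1) (.cons (.ev (nat_lit 1213648186098598348390656) (nat_lit 1)) (.cons (.rf (nat_lit 1966) (nat_lit 493858305440582043680)) (.cons (.br (nat_lit 12) (nat_lit 1) (.cons (.ev (nat_lit 1213648186098598348390656) (nat_lit 1)) (.cons (.rf (nat_lit 1966) (nat_lit 493858305440582043680)) (.cons (.kr (nat_lit 309485009821345068741558272) (nat_lit 20282410812577490038576425992192) (nat_lit 3) (nat_lit 0)) .nil)))) (.cons (.br (nat_lit 12) (nat_lit 1) (.cons (.ev (nat_lit 1213648186098598348390656) (nat_lit 1)) (.cons (.rf (nat_lit 1966) (nat_lit 493858305440582043680)) (.cons (.kr (nat_lit 309485009821345068741558272) (nat_lit 20282410812577490038576425992192) (nat_lit 3) (nat_lit 0)) .nil)))) .nil))))),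
 (.br (nat_lit 10) (nat_lit 1) (.cons (.br (nat_lit 7) (nat_lit 1) (.cons (.rf (nat_lit 1964) (nat_lit 493858305440582043680)) (.cons (.rf (nat_lit 1964) (nat_lit 492741412732994160672)) (.cons (.ev (nat_lit 20282410817318303265524075790336) (nat_lit 1)) .nil)))) (.cons (.br (nat_lit 2) (nat_lit 1) (.cons (.rf (nat_lit 1965) (nat_lit 493858305440582043680)) (.cons (.rf (nat_lit 1965) (nat_lit 492741412732994160672)) (.cons (.ev (nat_lit 20282413239910972179290045677569) (nat_lit 2)) .nil)))) (.cons (.rf (nat_lit 1967) (nat_lit 493858305440582043680)) (.cons (.rf (nat_lit 1967) (nat_lit 492741412732994160672)) (.cons (.ev (nat_lit 1213666633123051801149441) (nat_lit 1)) .nil)))))),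
 (.br (nat_lit 13) (nat_lit 1) (.cons (.ev (nat_lit 20282719093402304997058842525953) (nat_lit 1)) (.cons (.zr (nat_lit 60847232437732686288511391760384) (nat_lit 4759260253595864399873) (nat_lit 5) (nat_lit 9)) .nil))),
 (.br (nat_lit 13) (nat_lit 1) (.cons (.ev (nat_lit 20282719093402304997058842525953) (nat_lit 1)) (.cons (.zr (nat_lit 60847232437732686288511391760384) (nat_lit 4759260253595864399873) (nat_lit 5) (nat_lit 9)) .nil))),
 (.br (nat_lit 1) (nat_lit 1) (.cons (.br (nat_lit 10) (nat_lit 1) (.cons (.rf (nat_lit 1969) (nat_lit 493858305440582043680)) (.cons (.rf (nat_lit 1969) (nat_lit 492741412732994160672)) (.cons (.ev (nat_lit 1213666633123051801149441) (nat_lit 1)) .nil)))) (.cons (.br (nat_lit 7) (nat_lit 1) (.cons (.rf (nat_lit 1970) (nat_lit 493858305440582043680)) (.cons (.rf (nat_lit 1970) (nat_lit 492741412732994160672)) (.cons (.ev (nat_lit 4740885567111897874433) (nat_lit 1)) .nil)))) (.cons (.rf (nat_lit 1939) (nat_lit 493858305440582043680)) (.cons (.rf (nat_lit 1939)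 (nat_lit 492741412732994160672)) (.cons (.rf (nat_lit 1968) (nat_lit 493858305440582043680)) .nil)))))),
 (.br (nat_lit 1) (nat_lit 1) (.cons (.br (nat_lit 11) (nat_lit 1) (.cons (.ev (nat_lit 20282721515994974471567118959360) (nat_lit 2)) (.cons (.ev (nat_lit 309489732187827942681804801) (nat_lit 1)) .nil))) (.cons (.br (nat_lit 12) (nat_lit 1) (.cons (.rf (nat_lit 1457) (nat_lit 13125083888618702880)) (.cons (.ev (nat_lit 310698658079501261094256641) (nat_lit 1)) .nil))) (.cons (.ev (nat_lit 309489750634854586567885056) (nat_lit 1)) (.cons (.br (nat_lit 2) (nat_lit 1) (.cons (.br (nat_lit 11) (nat_lit 1) (.cons (.zr (nat_lit 237688114338915336473932726272) (nat_lit 928459751830519179643125761) (nat_lit 5) (nat_lit 9)) .nil)) (.cons (.br (nat_lit 10) (nat_lit 1) (.cons (.ev (nat_lit 20522264132059769245872167388934) (nat_lit 3)) .nil)) (.cons (.br (nat_lit 10) (nat_lit 1) (.cons (.zr (nat_lit 237688114338915336473932726272) (nat_lit 928459751830519179643125761) (nat_lit 5) (nat_lit 9)) .nil))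 .nil)))) .nil))))),
 (.br (nat_lit 13) (nat_lit 1) (.cons (.rf (nat_lit 1968) (nat_lit 493858305440582043680)) (.cons (.ev (nat_lit 4740885567111897874433) (nat_lit 1)) (.cons (.ev (nat_lit 1213666633123051801149441) (nat_lit 1)) (.cons (.rf (nat_lit 1972) (nat_lit 493858305440582043680)) (.cons (.rf (nat_lit 1972) (nat_lit 492741412732994160672)) .nil)))))),
 (.br (nat_lit 10) (nat_lit 1) (.cons (.ev (nat_lit 20521649997632580995346310956806) (nat_lit 3)) .nil)),
 (.br (nat_lit 10) (nat_lit 1) (.cons (.kr (nat_lit 20520094091194463436727883333888) (nat_lit 310693991053812463019491328) (nat_lit 1) (nat_lit 0)) .nil)),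
 (.br (nat_lit 6) (nat_lit 1) (.cons (.ev (nat_lit 310698676454187740782657536) (nat_lit 1)) .nil)),
 (.br (nat_lit 13) (nat_lit 1) (.cons (.rf (nat_lit 1968) (nat_lit 493858305440582043680)) (.cons (.rf (nat_lit 1971) (nat_lit 493858305440582043680)) (.cons (.rf (nat_lit 1973) (nat_lit 493858305440582043680)) (.cons (.ev (nat_lit 1213666633123051801149441) (nat_lit 1)) (.cons (.br (nat_lit 1) (nat_lit 1) (.cons (.br (nat_lit 7) (nat_lit 1) (.cons (.ev (nat_lit 1213666632842672057942273) (nat_lit 1)) (.cons (.rf (nat_lit 1974) (nat_lit 493858305440582043680)) (.cons (.rf (nat_lit 1974) (nat_lit 492741412732994160672)) .nil)))) (.cons (.br (nat_lit 2) (nat_lit 1) (.cons (.zr (nat_lit 3626796122323693300875264) (nat_lit 4722366483973468782593) (nat_lit 5) (nat_lit 9)) (.cons (.rf (nat_lit 1975) (nat_lit 493858305440582043680)) (.cons (.rf (nat_lit 1975) (nat_lit 492741412732994160672)) .nil)))) (.cons (.br (nat_lit 2) (nat_lit 1) (.cons (.zr (nat_lit 60847232437732686288511391760384) (nat_lit 4759260253595864399873)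 (nat_lit 5) (nat_lit 9)) (.cons (.rf (nat_lit 1976) (nat_lit 15433072045018188865)) (.cons (.rf (nat_lit 1976) (nat_lit 15398169147906067521)) .nil)))) (.cons (.ev (nat_lit 309489750634854586567885056) (nat_lit 1)) (.cons (.ev (nat_lit 79228167255077847111387054336) (nat_lit 1)) .nil)))))) .nil)))))),
 (.br (nat_lit 8) (nat_lit 1) (.cons (.rf (nat_lit 1913) (nat_lit 493858305440582043680)) (.cons (.rf (nat_lit 1933) (nat_lit 493858305440582043680)) (.cons (.rf (nat_lit 1953) (nat_lit 493858305440582043680)) (.cons (.rf (nat_lit 1963) (nat_lit 493858305440582043680)) (.cons (.br (nat_lit 13) (nat_lit 1) (.cons (.rf (nat_lit 1968) (nat_lit 493858305440582043680)) (.cons (.rf (nat_lit 1971) (nat_lit 493858305440582043680)) (.cons (.rf (nat_lit 1973) (nat_lit 493858305440582043680)) (.cons (.ev (nat_lit 1213666633123051801149441) (nat_lit 1)) (.cons (.rf (nat_lit 1977) (nat_lit 493858305440582043680)) (.cons (.rf (nat_lit 1977) (nat_lit 492741412732994160672)) .nil))))))) .nil)))))),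
 (.br (nat_lit 8) (nat_lit 1) (.cons (.rf (nat_lit 1913) (nat_lit 493858305440582043680)) (.cons (.rf (nat_lit 1933) (nat_lit 493858305440582043680)) (.cons (.rf (nat_lit 1953) (nat_lit 493858305440582043680)) (.cons (.rf (nat_lit 1963) (nat_lit 493858305440582043680)) (.cons (.rf (nat_lit 1978) (nat_lit 493858305440582043680)) (.cons (.br (nat_lit 8) (nat_lit 1) (.cons (.rf (nat_lit 1913) (nat_lit 493858305440582043680)) (.cons (.rf (nat_lit 1933) (nat_lit 493858305440582043680)) (.cons (.rf (nat_lit 1953) (nat_lit 493858305440582043680)) (.cons (.rf (nat_lit 1963) (nat_lit 493858305440582043680)) (.cons (.rf (nat_lit 1978) (nat_lit 493858305440582043680)) .nil)))))) .nil))))))),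
 (.br (nat_lit 9) (nat_lit 1) (.cons (.br (nat_lit 9) (nat_lit 1) (.cons (.br (nat_lit 3) (nat_lit 1) (.cons (.br (nat_lit 10) (nat_lit 0) (.cons (.br (nat_lit 6) (nat_lit 1) (.cons (.br (nat_lit 8) (nat_lit 1) (.cons (.rf (nat_lit 1726) (nat_lit 493858305440582043680)) (.cons (.rf (nat_lit 1748) (nat_lit 493858305440582043680)) (.cons (.rf (nat_lit 1766) (nat_lit 493858305440582043680)) (.cons (.rf (nat_lit 1778) (nat_lit 493858305440582043680)) (.cons (.rf (nat_lit 1794) (nat_lit 493858305440582043680)) (.cons (.rf (nat_lit 1794) (nat_lit 492741412732994160672)) (.cons (.br (nat_lit 8) (nat_lit 1) (.cons (.rf (nat_lit 1726) (nat_lit 493858305440582043680)) (.cons (.rf (nat_lit 1748) (nat_lit 493858305440582043680)) (.cons (.rf (nat_lit 1766) (nat_lit 493858305440582043680)) (.cons (.rf (nat_lit 1778) (nat_lit 493858305440582043680)) (.cons (.rf (nat_lit 1794) (nat_lit 493858305440582043680)) (.cons (.rf (nat_lit 1794) (nat_lit 492741412732994160672)) .nil))))))) .nil)))))))) .nil)) (.cons (.br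 (nat_lit 4) (nat_lit 1) (.cons (.br (nat_lit 8) (nat_lit 1) (.cons (.rf (nat_lit 1828) (nat_lit 493858305440582043680)) (.cons (.rf (nat_lit 1843) (nat_lit 493858305440582043680)) (.cons (.rf (nat_lit 1854) (nat_lit 493858305440582043680)) (.cons (.rf (nat_lit 1867) (nat_lit 493858305440582043680)) (.cons (.rf (nat_lit 1882) (nat_lit 493858305440582043680)) (.cons (.rf (nat_lit 1882) (nat_lit 492741412732994160672)) (.cons (.br (nat_lit 8) (nat_lit 1) (.cons (.rf (nat_lit 1828) (nat_lit 493858305440582043680)) (.cons (.rf (nat_lit 1843) (nat_lit 493858305440582043680)) (.cons (.rf (nat_lit 1854) (nat_lit 493858305440582043680)) (.cons (.rf (nat_lit 1867) (nat_lit 493858305440582043680)) (.cons (.rf (nat_lit 1882) (nat_lit 493858305440582043680)) (.cons (.rf (nat_lit 1882) (nat_lit 492741412732994160672)) .nil))))))) .nil)))))))) .nil)) .nil))) (.cons (.br (nat_lit 4) (nat_lit 1) (.cons (.br (nat_lit 10) (nat_lit 0) (.cons (.br (nat_lit 8) (nat_lit 1) (.cons (.rf (nat_lit 1913) (nat_lit 493858305440582043680))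 (.cons (.rf (nat_lit 1933) (nat_lit 493858305440582043680)) (.cons (.rf (nat_lit 1953) (nat_lit 493858305440582043680)) (.cons (.rf (nat_lit 1963) (nat_lit 493858305440582043680)) (.cons (.rf (nat_lit 1979) (nat_lit 493858305440582043680)) (.cons (.rf (nat_lit 1979) (nat_lit 492741412732994160672)) (.cons (.br (nat_lit 8) (nat_lit 1) (.cons (.rf (nat_lit 1913) (nat_lit 493858305440582043680)) (.cons (.rf (nat_lit 1933) (nat_lit 493858305440582043680)) (.cons (.rf (nat_lit 1953) (nat_lit 493858305440582043680)) (.cons (.rf (nat_lit 1963) (nat_lit 493858305440582043680)) (.cons (.rf (nat_lit 1979) (nat_lit 493858305440582043680)) (.cons (.rf (nat_lit 1979) (nat_lit 492741412732994160672)) .nil))))))) .nil)))))))) .nil)) .nil)) .nil))) .nil)) .nil)),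
 (.br (nat_lit 5) (nat_lit 1) (.cons (.rf (nat_lit 1593) (nat_lit 282534783041)) (.cons (.rf (nat_lit 1593) (nat_lit 316894521409)) (.cons (.rf (nat_lit 29) (nat_lit 5574721)) .nil)))),
 (.br (nat_lit 5) (nat_lit 1) (.cons (.rf (nat_lit 1981) (nat_lit 11584701642934304)) (.cons (.rf (nat_lit 1981) (nat_lit 11583636491044896)) (.cons (.rf (nat_lit 1981) (nat_lit 11548486478694432)) (.cons (.rf (nat_lit 29) (nat_lit 5574721)) .nil))))),
 (.br (nat_lit 11) (nat_lit 1) (.cons (.ev (nat_lit 309489732187827942681804801) (nat_lit 1)) (.cons (.rf (nat_lit 31) (nat_lit 380017729)) .nil))),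
 (.br (nat_lit 10) (nat_lit 1) (.cons (.rf (nat_lit 1983) (nat_lit 493858305440582043680)) (.cons (.rf (nat_lit 1983) (nat_lit 492741412732994160672)) (.cons (.ev (nat_lit 20282409608392555991059132383233) (nat_lit 1)) .nil)))),
 (.br (nat_lit 8) (nat_lit 1) (.cons (.rf (nat_lit 1593) (nat_lit 388939134017)) (.cons (.br (nat_lit 7) (nat_lit 1) (.cons (.rf (nat_lit 1984) (nat_lit 493858305440582043680)) (.cons (.rf (nat_lit 1984) (nat_lit 493823402543469922336)) (.cons (.rf (nat_lit 1984) (nat_lit 492671606938769917984)) (.cons (.ev (nat_lit 20282409608392555708488955724033) (nat_lit 1)) .nil))))) (.cons (.rf (nat_lit 1593) (nat_lit 389140454465)) .nil)))),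
 (.br (nat_lit 8) (nat_lit 1) (.cons (.rf (nat_lit 1982) (nat_lit 15071359418861600)) (.cons (.rf (nat_lit 1985) (nat_lit 493858305440582043680)) (.cons (.rf (nat_lit 1985) (nat_lit 492741412732994160672)) (.cons (.rf (nat_lit 1625) (nat_lit 13583143679041)) .nil))))),
 (.br (nat_lit 13) (nat_lit 1) (.cons (.ev (nat_lit 310698676526244239587148033) (nat_lit 1)) (.cons (.zr (nat_lit 60847232437732686288511391760384) (nat_lit 4759260253595864399873) (nat_lit 5) (nat_lit 9)) .nil))),
 (.br (nat_lit 10) (nat_lit 1) (.cons (.rf (nat_lit 1987) (nat_lit 493858305440582043680)) (.cons (.rf (nat_lit 1987) (nat_lit 492741412732994160672)) (.cons (.ev (nat_lit 20282409608392555991059132383233) (nat_lit 1)) .nil)))),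
 (.br (nat_lit 8) (nat_lit 1) (.cons (.rf (nat_lit 1593) (nat_lit 388771362017)) (.cons (.br (nat_lit 2) (nat_lit 1) (.cons (.rf (nat_lit 1988) (nat_lit 493858305440582043680)) (.cons (.rf (nat_lit 1988) (nat_lit 493823402543469922336)) (.cons (.rf (nat_lit 1988) (nat_lit 492671606938769917984)) (.cons (.zr (nat_lit 20282409603670189225614998897152) (nat_lit 4722366765448445296641) (nat_lit 5) (nat_lit 0)) .nil))))) (.cons (.rf (nat_lit 1593) (nat_lit 389140449505)) .nil)))),
 (.br (nat_lit 8) (nat_lit 1) (.cons (.rf (nat_lit 1982) (nat_lit 15071359413623840)) (.cons (.rf (nat_lit 1989) (nat_lit 493858305440582043680)) (.cons (.rf (nat_lit 1989) (nat_lit 492741412732994160672)) (.cons (.rf (nat_lit 1627) (nat_lit 434660798700576)) .nil))))),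
 (.br (nat_lit 7) (nat_lit 1) (.cons (.br (nat_lit 10) (nat_lit 1) (.cons (.ev (nat_lit 1213666705180645839077633) (nat_lit 1)) .nil)) .nil)),
 (.br (nat_lit 10) (nat_lit 1) (.cons (.rf (nat_lit 84) (nat_lit 12090127431)) (.cons (.rf (nat_lit 84) (nat_lit 8969761857)) (.cons (.br (nat_lit 8) (nat_lit 1) (.cons (.rf (nat_lit 1991) (nat_lit 15433072044983552032)) (.cons (.br (nat_lit 11) (nat_lit 1) (.cons (.rf (nat_lit 1991) (nat_lit 15433072044983552032)) (.cons (.ev (nat_lit 20361637770888301244414735482881) (nat_lit 1)) .nil))) .nil))) .nil))))]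

theorem c64 : chkAll C T R L64 (nat_lit 1963) = true := by decide +kernel

theorem l64 : (nat_lit 1963) + L64.length = (nat_lit 1993) := by decide +kernel

/-- part of the certificates -/
def L65 : List Prf := [(.br (nat_lit 8) (nat_lit 1) (.cons (.br (nat_lit 12) (nat_lit 1) (.cons (.zr (nat_lit 18889467057378487698688) (nat_lit 40564821625192017681592170315777) (nat_lit 5) (nat_lit 3)) (.cons (.zr (nat_lit 9444734091639197270784) (nat_lit 618970019642691241273065473) (nat_lit 5) (nat_lit 3)) .nil))) (.cons (.br (nat_lit 10) (nat_lit 1) (.cons (.zr (nat_lit 3626777675016669705011200) (nat_lit 40564819212062601101490350194689) (nat_lit 5) (nat_lit 9)) (.cons (.ev (nat_lit 20361638979814193199208141488128) (nat_lit 1)) .nil))) .nil))),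
 (.br (nat_lit 8) (nat_lit 1) (.cons (.rf (nat_lit 1993) (nat_lit 493858305440582043680)) (.cons (.br (nat_lit 12) (nat_lit 1) (.cons (.rf (nat_lit 1899) (nat_lit 382064325990457378848)) (.cons (.zr (nat_lit 9444734091639197270784) (nat_lit 618970019642691241273065473) (nat_lit 5) (nat_lit 3)) .nil))) .nil))),
 (.br (nat_lit 8) (nat_lit 1) (.cons (.rf (nat_lit 1993) (nat_lit 493858305440582043680)) (.cons (.rf (nat_lit 1994) (nat_lit 493858305440582043680)) (.cons (.br (nat_lit 8) (nat_lit 1) (.cons (.rf (nat_lit 1993) (nat_lit 493858305440582043680)) (.cons (.rf (nat_lit 1994) (nat_lit 493858305440582043680)) .nil))) .nil)))),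
 (.br (nat_lit 12) (nat_lit 1) (.cons (.rf (nat_lit 1995) (nat_lit 493858305440582043680)) (.cons (.br (nat_lit 11) (nat_lit 1) (.cons (.zr (nat_lit 928455029464035206174540544) (nat_lit 158456329750895440635533197313) (nat_lit 5) (nat_lit 0)) (.cons (.zr (nat_lit 9444734091639197270784) (nat_lit 618970019642691241273065473) (nat_lit 5) (nat_lit 3)) (.cons (.ev (nat_lit 310693935641242272387825921) (nat_lit 1)) .nil)))) .nil))),
 (.br (nat_lit 12) (nat_lit 1) (.cons (.rf (nat_lit 1995) (nat_lit 493858305440582043680)) (.cons (.rf (nat_lit 1996) (nat_lit 493858305440582043680)) (.cons (.br (nat_lit 12) (nat_lit 1) (.cons (.rf (nat_lit 1995) (nat_lit 493858305440582043680)) (.cons (.rf (nat_lit 1996) (nat_lit 493858305440582043680)) .nil))) .nil)))),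
 (.br (nat_lit 12) (nat_lit 1) (.cons (.rf (nat_lit 1995) (nat_lit 493858305440582043680)) (.cons (.rf (nat_lit 1997) (nat_lit 493858305440582043680)) (.cons (.br (nat_lit 12) (nat_lit 1) (.cons (.kr (nat_lit 4722366482869645213696) (nat_lit 79228162514264337593543950336) (nat_lit 9) (nat_lit 0)) (.cons (.rf (nat_lit 1997) (nat_lit 493858305440582043680)) .nil))) .nil)))),
 (.br (nat_lit 12) (nat_lit 1) (.cons (.rf (nat_lit 1995) (nat_lit 493858305440582043680)) (.cons (.rf (nat_lit 1997) (nat_lit 493858305440582043680)) (.cons (.rf (nat_lit 1998) (nat_lit 493858305440582043680)) (.cons (.br (nat_lit 12) (nat_lit 1) (.cons (.rf (nat_lit 1995) (nat_lit 493858305440582043680)) (.cons (.rf (nat_lit 1997) (nat_lit 493858305440582043680)) (.cons (.rf (nat_lit 1998) (nat_lit 493858305440582043680)) .nil)))) .nil))))),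
 (.br (nat_lit 13) (nat_lit 1) (.cons (.rf (nat_lit 1627) (nat_lit 434660396053728)) (.cons (.rf (nat_lit 1637) (nat_lit 13583143679010)) (.cons (.br (nat_lit 7) (nat_lit 1) (.cons (.rf (nat_lit 1343) (nat_lit 387963958337)) (.cons (.rf (nat_lit 58) (nat_lit 10918977)) (.cons (.rf (nat_lit 1992) (nat_lit 493858305440582043680)) (.cons (.rf (nat_lit 1992) (nat_lit 492741412732994160672)) .nil))))) (.cons (.rf (nat_lit 1999) (nat_lit 493858305440582043680)) (.cons (.rf (nat_lit 1999) (nat_lit 492741412732994160672)) .nil)))))),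
 (.br (nat_lit 9) (nat_lit 1) (.cons (.rf (nat_lit 84) (nat_lit 10981813286)) (.cons (.rf (nat_lit 84) (nat_lit 7861382178)) (.cons (.br (nat_lit 7) (nat_lit 1) (.cons (.br (nat_lit 7) (nat_lit 1) (.cons (.ev (nat_lit 4722438821942954819841) (nat_lit 1)) .nil)) (.cons (.br (nat_lit 7) (nat_lit 1) (.cons (.ev (nat_lit 4722438821942954819841) (nat_lit 1)) .nil)) .nil))) .nil)))),
 (.br (nat_lit 7) (nat_lit 1) (.cons (.rf (nat_lit 1343) (nat_lit 387963957282)) (.cons (.ev (nat_lit 79229371440156009821068329216) (nat_lit 1)) (.cons (.rf (nat_lit 2001) (nat_lit 445092485094541344)) (.cons (.rf (nat_lit 2001) (nat_lit 447344284908226592)) .nil))))),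
 (.br (nat_lit 8) (nat_lit 1) (.cons (.br (nat_lit 12) (nat_lit 1) (.cons (.zr (nat_lit 55556405003309547520) (nat_lit 40564821629877346842601280503809) (nat_lit 5) (nat_lit 0)) (.cons (.zr (nat_lit 928455029464039604220855040) (nat_lit 14167099730088224227329) (nat_lit 5) (nat_lit 4)) .nil))) (.cons (.br (nat_lit 10) (nat_lit 1) (.cons (.zr (nat_lit 18889465931495761051648) (nat_lit 40564821625192017963062852059137) (nat_lit 5) (nat_lit 5)) (.cons (.ev (nat_lit 79229371440083952227030466561) (nat_lit 1)) .nil))) .nil))),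
 (.br (nat_lit 8) (nat_lit 1) (.cons (.rf (nat_lit 2003) (nat_lit 493858305440582043680)) (.cons (.br (nat_lit 11) (nat_lit 1) (.cons (.br (nat_lit 10) (nat_lit 1) (.cons (.ev (nat_lit 1213648186097503131729921) (nat_lit 1)) .nil)) (.cons (.zr (nat_lit 928455029464039604220855040) (nat_lit 14167099730088224227329) (nat_lit 5) (nat_lit 4)) .nil))) .nil))),
 (.br (nat_lit 8) (nat_lit 1) (.cons (.rf (nat_lit 2003) (nat_lit 493858305440582043680)) (.cons (.rf (nat_lit 2004) (nat_lit 493858305440582043680)) (.cons (.br (nat_lit 8) (nat_lit 1) (.cons (.rf (nat_lit 2003) (nat_lit 493858305440582043680)) (.cons (.rf (nat_lit 2004) (nat_lit 493858305440582043680)) .nil))) .nil)))),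
 (.br (nat_lit 10) (nat_lit 1) (.cons (.kr (nat_lit 4722366482869661990912) (nat_lit 20282410812577490038576425992192) (nat_lit 3) (nat_lit 0)) (.cons (.br (nat_lit 11) (nat_lit 1) (.cons (.zr (nat_lit 55556405003309547520) (nat_lit 40564821629877346842601280503809) (nat_lit 5) (nat_lit 0)) (.cons (.kr (nat_lit 79228162514264337593560727552) (nat_lit 20282410812577490038576425992192) (nat_lit 3) (nat_lit 0)) .nil))) (.cons (.ev (nat_lit 1213648186097503131729921) (nat_lit 1)) .nil)))),
 (.br (nat_lit 12) (nat_lit 1) (.cons (.rf (nat_lit 2005) (nat_lit 493858305440582043680)) (.cons (.rf (nat_lit 2006) (nat_lit 493858305440582043680)) (.cons (.br (nat_lit 12) (nat_lit 1) (.cons (.rf (nat_lit 2005) (nat_lit 493858305440582043680)) (.cons (.rf (nat_lit 2006) (nat_lit 493858305440582043680)) .nil))) .nil)))),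
 (.br (nat_lit 12) (nat_lit 1) (.cons (.rf (nat_lit 2005) (nat_lit 493858305440582043680)) (.cons (.rf (nat_lit 2007) (nat_lit 493858305440582043680)) (.cons (.br (nat_lit 12) (nat_lit 1) (.cons (.kr (nat_lit 4722366482869645213696) (nat_lit 79228162514264337593543950336) (nat_lit 9) (nat_lit 0)) (.cons (.rf (nat_lit 2007) (nat_lit 493858305440582043680)) .nil))) .nil)))),
 (.br (nat_lit 12) (nat_lit 1) (.cons (.rf (nat_lit 2005) (nat_lit 493858305440582043680)) (.cons (.rf (nat_lit 2007) (nat_lit 493858305440582043680)) (.cons (.rf (nat_lit 2008) (nat_lit 493858305440582043680)) (.cons (.br (nat_lit 12) (nat_lit 1) (.cons (.rf (nat_lit 2005) (nat_lit 493858305440582043680)) (.cons (.rf (nat_lit 2007) (nat_lit 493858305440582043680)) (.cons (.rf (nat_lit 2008) (nat_lit 493858305440582043680)) .nil)))) .nil))))),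
 (.br (nat_lit 13) (nat_lit 1) (.cons (.ev (nat_lit 20282409603651670423951546318849) (nat_lit 1)) (.cons (.rf (nat_lit 1637) (nat_lit 13583143679041)) (.cons (.rf (nat_lit 2002) (nat_lit 15395881028740548640)) (.cons (.rf (nat_lit 2009) (nat_lit 493858305440582043680)) (.cons (.rf (nat_lit 2009) (nat_lit 492741412732994160672)) .nil)))))),
 (.br (nat_lit 8) (nat_lit 1) (.cons (.ev (nat_lit 1208925891954797717815296) (nat_lit 1)) (.cons (.br (nat_lit 13) (nat_lit 1) (.cons (.ev (nat_lit 20282409617837288956802734489602) (nat_lit 2)) (.cons (.rf (nat_lit 1850) (nat_lit 383181218698045261856)) (.cons (.rf (nat_lit 1850) (nat_lit 382064325990457378848)) .nil)))) (.cons (.rf (nat_lit 82) (nat_lit 12155172065)) .nil)))),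
 (.br (nat_lit 8) (nat_lit 1) (.cons (.br (nat_lit 9) (nat_lit 1) (.cons (.kr (nat_lit 1208925819614629174771712) (nat_lit 309485028268089142434332672) (nat_lit 2) (nat_lit 0)) .nil)) .nil)),
 (.br (nat_lit 8) (nat_lit 1) (.cons (.ev (nat_lit 1213648186097503131729921) (nat_lit 1)) (.cons (.br (nat_lit 10) (nat_lit 1) (.cons (.ev (nat_lit 309489750634572016391356416) (nat_lit 1)) (.cons (.ev (nat_lit 20282409617837288956802734489602) (nat_lit 2)) .nil))) (.cons (.rf (nat_lit 2012) (nat_lit 482283501406784577)) .nil)))),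
 (.br (nat_lit 12) (nat_lit 1) (.cons (.rf (nat_lit 2013) (nat_lit 493858305440582043680)) (.cons (.br (nat_lit 11) (nat_lit 1) (.cons (.ev (nat_lit 20282719088661564109184502398976) (nat_lit 1)) (.cons (.ev (nat_lit 79537647524085965236757070081) (nat_lit 1)) .nil))) .nil))),
 (.br (nat_lit 12) (nat_lit 1) (.cons (.rf (nat_lit 2013) (nat_lit 493858305440582043680)) (.cons (.rf (nat_lit 2014) (nat_lit 493858305440582043680)) (.cons (.br (nat_lit 12) (nat_lit 1) (.cons (.rf (nat_lit 2013) (nat_lit 493858305440582043680)) (.cons (.rf (nat_lit 2014) (nat_lit 493858305440582043680)) .nil))) .nil)))),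
 (.br (nat_lit 8) (nat_lit 1) (.cons (.ev (nat_lit 1213648186097503131729921) (nat_lit 1)) (.cons (.br (nat_lit 8) (nat_lit 1) (.cons (.ev (nat_lit 1213648186097503131729921) (nat_lit 1)) (.cons (.rf (nat_lit 2015) (nat_lit 493858305440582043680)) (.cons (.rf (nat_lit 84) (nat_lit 11114984673)) .nil)))) (.cons (.rf (nat_lit 2015) (nat_lit 493858305440582043680)) (.cons (.br (nat_lit 8) (nat_lit 1) (.cons (.ev (nat_lit 1213648186097503131729921) (nat_lit 1)) (.cons (.rf (nat_lit 84) (nat_lit 11114984673)) (.cons (.rf (nat_lit 2012) (nat_lit 482283501406784577)) .nil)))) .nil))))),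
 (.br (nat_lit 12) (nat_lit 1) (.cons (.rf (nat_lit 2015) (nat_lit 493858305440582043680)) (.cons (.rf (nat_lit 2016) (nat_lit 493858305440582043680)) (.cons (.br (nat_lit 12) (nat_lit 1) (.cons (.rf (nat_lit 2015) (nat_lit 493858305440582043680)) (.cons (.rf (nat_lit 2016) (nat_lit 493858305440582043680)) .nil))) .nil)))),
 (.br (nat_lit 12) (nat_lit 1) (.cons (.rf (nat_lit 2015) (nat_lit 493858305440582043680)) (.cons (.rf (nat_lit 2016) (nat_lit 493858305440582043680)) (.cons (.rf (nat_lit 2017) (nat_lit 493858305440582043680)) (.cons (.br (nat_lit 12) (nat_lit 1) (.cons (.rf (nat_lit 2015) (nat_lit 493858305440582043680)) (.cons (.rf (nat_lit 2016) (nat_lit 493858305440582043680)) (.cons (.rf (nat_lit 2017) (nat_lit 493858305440582043680)) .nil)))) .nil))))),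
 (.br (nat_lit 2) (nat_lit 1) (.cons (.rf (nat_lit 2010) (nat_lit 493858305440582043680)) (.cons (.br (nat_lit 8) (nat_lit 1) (.cons (.ev (nat_lit 1208925891954797717815296) (nat_lit 1)) (.cons (.rf (nat_lit 2011) (nat_lit 493858305440582043680)) (.cons (.rf (nat_lit 2011) (nat_lit 492741412732994160672)) (.cons (.rf (nat_lit 1343) (nat_lit 387970238503)) .nil))))) (.cons (.rf (nat_lit 2018) (nat_lit 493858305440582043680)) (.cons (.rf (nat_lit 2018) (nat_lit 492741412732994160672)) (.cons (.rf (nat_lit 1627) (nat_lit 434660597347392)) .nil)))))),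
 (.br (nat_lit 13) (nat_lit 1) (.cons (.ev (nat_lit 310698676526244239587148033) (nat_lit 1)) (.cons (.zr (nat_lit 60847232437732686288511391760384) (nat_lit 4759260253595864399873) (nat_lit 5) (nat_lit 9)) .nil))),
 (.br (nat_lit 11) (nat_lit 1) (.cons (.zr (nat_lit 928455029680207988321681408) (nat_lit 4759260253595847622657) (nat_lit 5) (nat_lit 9)) (.cons (.rf (nat_lit 82) (nat_lit 8969952290)) .nil))),
 (.br (nat_lit 2) (nat_lit 1) (.cons (.zr (nat_lit 928455029680207988321681408) (nat_lit 4759260253595847622657) (nat_lit 5) (nat_lit 9)) (.cons (.ev (nat_lit 4740885567111897874433) (nat_lit 1)) (.cons (.zr (nat_lit 60847232437732686288511391760384) (nat_lit 4759260253595864399873) (nat_lit 5) (nat_lit 9)) .nil)))),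
 (.br (nat_lit 12) (nat_lit 1) (.cons (.ev (nat_lit 1213648186097503131729921) (nat_lit 1)) (.cons (.rf (nat_lit 2022) (nat_lit 493858305440582043680)) (.cons (.br (nat_lit 12) (nat_lit 1) (.cons (.ev (nat_lit 1213648186097503131729921) (nat_lit 1)) (.cons (.rf (nat_lit 2022) (nat_lit 493858305440582043680)) (.cons (.kr (nat_lit 309485009821345068741558272) (nat_lit 20282410812577490038576425992192) (nat_lit 3) (nat_lit 0)) .nil)))) (.cons (.br (nat_lit 12) (nat_lit 1) (.cons (.ev (nat_lit 1213648186097503131729921) (nat_lit 1)) (.cons (.rf (nat_lit 2022) (nat_lit 493858305440582043680)) (.cons (.kr (nat_lit 309485009821345068741558272) (nat_lit 20282410812577490038576425992192) (nat_lit 3) (nat_lit 0)) .nil)))) .nil))))),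
 (.br (nat_lit 10) (nat_lit 1) (.cons (.rf (nat_lit 84) (nat_lit 13164256290)) (.cons (.ev (nat_lit 1213648186097503131729921) (nat_lit 1)) (.cons (.ev (nat_lit 1213666633124147017810176) (nat_lit 1)) .nil)))),
 (.br (nat_lit 12) (nat_lit 1) (.cons (.rf (nat_lit 2024) (nat_lit 493858305440582043680)) (.cons (.ev (nat_lit 1213666633124147017810176) (nat_lit 1)) (.cons (.br (nat_lit 2) (nat_lit 1) (.cons (.rf (nat_lit 84) (nat_lit 13164251175)) (.cons (.ev (nat_lit 20282719088661564109184502398976) (nat_lit 1)) (.cons (.rf (nat_lit 2024) (nat_lit 493858305440582043680)) .nil)))) .nil)))),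
 (.br (nat_lit 8) (nat_lit 1) (.cons (.rf (nat_lit 2010) (nat_lit 493858305440582043680)) (.cons (.rf (nat_lit 2019) (nat_lit 493858305440582043680)) (.cons (.br (nat_lit 10) (nat_lit 1) (.cons (.br (nat_lit 7) (nat_lit 1) (.cons (.rf (nat_lit 2020) (nat_lit 493858305440582043680)) (.cons (.rf (nat_lit 2020) (nat_lit 492741412732994160672)) (.cons (.ev (nat_lit 20282410817318303265524075790336) (nat_lit 1)) .nil)))) (.cons (.br (nat_lit 2) (nat_lit 1) (.cons (.rf (nat_lit 2021) (nat_lit 493858305440582043680)) (.cons (.rf (nat_lit 2021) (nat_lit 492741412732994160672)) (.cons (.ev (nat_lit 20282413239910972177082432487939) (nat_lit 2)) .nil)))) (.cons (.rf (nat_lit 2023) (nat_lit 493858305440582043680)) (.cons (.rf (nat_lit 2023) (nat_lit 492741412732994160672)) (.cons (.ev (nat_lit 1213666633124147017810176) (nat_lit 1)) .nil)))))) (.cons (.br (nat_lit 12) (nat_lit 1) (.cons (.rf (nat_lit 2024) (nat_lit 493858305440582043680)) (.cons (.rf (nat_lit 2025) (nat_lit 493858305440582043680)) (.cons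 (.ev (nat_lit 1213666633124147017810176) (nat_lit 1)) (.cons (.br (nat_lit 12) (nat_lit 1) (.cons (.rf (nat_lit 2024) (nat_lit 493858305440582043680)) (.cons (.rf (nat_lit 2025) (nat_lit 493858305440582043680)) (.cons (.ev (nat_lit 1213666633124147017810176) (nat_lit 1)) .nil)))) .nil))))) .nil)))))]

theorem c65 : chkAll C T R L65 (nat_lit 1993) = true := by decide +kernel

theorem l65 : (nat_lit 1993) + L65.length = (nat_lit 2027) := by decide +kernel

/-- part of the certificates -/
def L66 : List Prf := [(.br (nat_lit 8) (nat_lit 1) (.cons (.rf (nat_lit 2010) (nat_lit 493858305440582043680)) (.cons (.rf (nat_lit 2019) (nat_lit 493858305440582043680)) (.cons (.rf (nat_lit 2026) (nat_lit 493858305440582043680)) (.cons (.rf (nat_lit 2026) (nat_lit 492741412732994160672)) (.cons (.br (nat_lit 8) (nat_lit 1) (.cons (.rf (nat_lit 1637) (nat_lit 13583143679041)) (.cons (.ev (nat_lit 20282409603670117450595465953536) (nat_lit 1)) (.cons (.rf (nat_lit 2026) (nat_lit 493858305440582043680)) (.cons (.rf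 (nat_lit 2026) (nat_lit 492741412732994160672)) .nil))))) .nil)))))),
 (.br (nat_lit 10) (nat_lit 1) (.cons (.ev (nat_lit 1208925891954797717815296) (nat_lit 1)) (.cons (.ev (nat_lit 1208944338416301217153281) (nat_lit 1)) .nil))),
 (.br (nat_lit 7) (nat_lit 1) (.cons (.br (nat_lit 11) (nat_lit 1) (.cons (.ev (nat_lit 20282719088661564109184502398976) (nat_lit 1)) (.cons (.ev (nat_lit 20282719088680010570688035291393) (nat_lit 1)) .nil))) (.cons (.ev (nat_lit 40565128692313379213481691054081) (nat_lit 2)) (.cons (.br (nat_lit 11) (nat_lit 1) (.cons (.ev (nat_lit 20282719088680010570688035291393) (nat_lit 1)) (.cons (.ev (nat_lit 20282719088661564109184502398976) (nat_lit 1)) .nil))) .nil)))),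
 (.br (nat_lit 8) (nat_lit 1) (.cons (.rf (nat_lit 2010) (nat_lit 493858305440582043680)) (.cons (.rf (nat_lit 2019) (nat_lit 493858305440582043680)) (.cons (.rf (nat_lit 2027) (nat_lit 493858305440582043680)) (.cons (.br (nat_lit 2) (nat_lit 1) (.cons (.ev (nat_lit 20282409603651670423951546318849) (nat_lit 1)) (.cons (.br (nat_lit 7) (nat_lit 1) (.cons (.ev (nat_lit 20282413230429201608007613415427) (nat_lit 2)) (.cons (.rf (nat_lit 2028) (nat_lit 493858305440582043680)) (.cons (.rf (nat_lit 2028) (nat_lit 492741412732994160672)) .nil)))) (.cons (.rf (nat_lit 2029) (nat_lit 493858305440582043680)) (.cons (.rf (nat_lit 2029) (nat_lit 492741412732994160672)) .nil))))) .nil))))),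
 (.br (nat_lit 8) (nat_lit 1) (.cons (.rf (nat_lit 2010) (nat_lit 493858305440582043680)) (.cons (.rf (nat_lit 2019) (nat_lit 493858305440582043680)) (.cons (.rf (nat_lit 2027) (nat_lit 493858305440582043680)) (.cons (.rf (nat_lit 2030) (nat_lit 493858305440582043680)) (.cons (.br (nat_lit 8) (nat_lit 1) (.cons (.rf (nat_lit 1637) (nat_lit 13583143679041)) (.cons (.rf (nat_lit 2019) (nat_lit 493858305440582043680)) (.cons (.rf (nat_lit 2027) (nat_lit 493858305440582043680)) (.cons (.rf (nat_lit 2030) (nat_lit 493858305440582043680)) .nil))))) .nil)))))),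
 (.br (nat_lit 8) (nat_lit 1) (.cons (.rf (nat_lit 2010) (nat_lit 493858305440582043680)) (.cons (.rf (nat_lit 2019) (nat_lit 493858305440582043680)) (.cons (.rf (nat_lit 2027) (nat_lit 493858305440582043680)) (.cons (.rf (nat_lit 2031) (nat_lit 493858305440582043680)) (.cons (.rf (nat_lit 2031) (nat_lit 492741412732994160672)) (.cons (.br (nat_lit 8) (nat_lit 1) (.cons (.rf (nat_lit 1637) (nat_lit 13583143679041)) (.cons (.rf (nat_lit 2019) (nat_lit 493858305440582043680)) (.cons (.rf (nat_lit 2027) (nat_lit 493858305440582043680)) (.cons (.rf (nat_lit 2031) (nat_lit 493858305440582043680)) (.cons (.rf (nat_lit 2031) (nat_lit 492741412732994160672)) .nil)))))) .nil))))))),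
 (.br (nat_lit 7) (nat_lit 0) (.cons (.rf (nat_lit 1474) (nat_lit 8871427021856)) (.cons (.rf (nat_lit 1623) (nat_lit 8871427021856)) (.cons (.br (nat_lit 3) (nat_lit 1) (.cons (.rf (nat_lit 1671) (nat_lit 325702574508064)) (.cons (.br (nat_lit 4) (nat_lit 1) (.cons (.rf (nat_lit 1671) (nat_lit 360885905393696)) (.cons (.br (nat_lit 2) (nat_lit 1) (.cons (.rf (nat_lit 1678) (nat_lit 11584701642934304)) (.cons (.kr (nat_lit 65536) (nat_lit 72057594037927936) (nat_lit 2) (nat_lit 0)) (.cons (.rf (nat_lit 1684) (nat_lit 11584701642934304)) (.cons (.rf (nat_lit 1690) (nat_lit 11584701642934304)) (.cons (.rf (nat_lit 1690) (nat_lit 10493985066977312)) (.cons (.rf (nat_lit 1676) (nat_lit 407901468851537952)) (.cons (.rf (nat_lit 1673) (nat_lit 407901468851537952)) .nil)))))))) .nil))) .nil))) (.cons (.br (nat_lit 9) (nat_lit 1) (.cons (.rf (nat_lit 1980) (nat_lit 11584701642934304)) (.cons (.br (nat_lit 9) (nat_lit 1) (.cons (.rf (nat_lit 1980) (nat_lit 12710601549776928)) (.cons (.br (nat_lit 9) (nat_lit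 1) (.cons (.rf (nat_lit 1980) (nat_lit 13836501456619552)) (.cons (.br (nat_lit 3) (nat_lit 1) (.cons (.br (nat_lit 4) (nat_lit 1) (.cons (.br (nat_lit 13) (nat_lit 0) (.cons (.br (nat_lit 1) (nat_lit 1) (.cons (.br (nat_lit 8) (nat_lit 1) (.cons (.rf (nat_lit 1982) (nat_lit 15071359418861600)) (.cons (.rf (nat_lit 1986) (nat_lit 493858305440582043680)) (.cons (.rf (nat_lit 1986) (nat_lit 493823402543469922336)) (.cons (.rf (nat_lit 1986) (nat_lit 492671606938769917984)) (.cons (.rf (nat_lit 1625) (nat_lit 13583143679041)) .nil)))))) (.cons (.br (nat_lit 8) (nat_lit 1) (.cons (.rf (nat_lit 1982) (nat_lit 15071359413623840)) (.cons (.rf (nat_lit 1990) (nat_lit 493858305440582043680)) (.cons (.rf (nat_lit 1990) (nat_lit 493823402543469922336)) (.cons (.rf (nat_lit 1990) (nat_lit 492671606938769917984)) (.cons (.rf (nat_lit 1627) (nat_lit 434660798700576)) .nil)))))) (.cons (.br (nat_lit 2) (nat_lit 1) (.cons (.rf (nat_lit 1982) (nat_lit 15071359412575296)) (.cons (.br (nat_lit 13) (nat_lit 1) (.cons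 (.ev (nat_lit 20282409603651670423951546318849) (nat_lit 1)) (.cons (.zr (nat_lit 1125899906843393) (nat_lit 36893489251242606592) (nat_lit 5) (nat_lit 3)) (.cons (.rf (nat_lit 1637) (nat_lit 13583143667757)) (.cons (.rf (nat_lit 1637) (nat_lit 13549857671213)) (.cons (.rf (nat_lit 1637) (nat_lit 12451419785261)) .nil)))))) (.cons (.rf (nat_lit 2000) (nat_lit 493858305440582043680)) (.cons (.rf (nat_lit 2000) (nat_lit 493823402543469922336)) (.cons (.rf (nat_lit 2000) (nat_lit 492671606938769917984)) (.cons (.rf (nat_lit 1625) (nat_lit 13583143667106)) .nil))))))) (.cons (.rf (nat_lit 2032) (nat_lit 493858305440582043680)) (.cons (.rf (nat_lit 2032) (nat_lit 493823402543469922336)) (.cons (.rf (nat_lit 2032) (nat_lit 492671606938769917984)) (.cons (.kr (nat_lit 16777216) (nat_lit 20282409603651670423947251286016) (nat_lit 3) (nat_lit 0)) .nil)))))))) .nil)) .nil)) .nil)) .nil))) .nil))) .nil))) .nil))))),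
 (.br (nat_lit 11) (nat_lit 1) (.cons (.rf (nat_lit 31) (nat_lit 377822273)) (.cons (.br (nat_lit 8) (nat_lit 1) (.cons (.ev (nat_lit 310698676526245339115618560) (nat_lit 1)) (.cons (.br (nat_lit 10) (nat_lit 1) (.cons (.ev (nat_lit 1208944338697771898896384) (nat_lit 1)) (.cons (.br (nat_lit 12) (nat_lit 1) (.cons (.ev (nat_lit 158769436834399726712263868930) (nat_lit 2)) .nil)) .nil))) (.cons (.br (nat_lit 12) (nat_lit 1) (.cons (.zr (nat_lit 618979464591828658904105728) (nat_lit 4835721725484069680119812) (nat_lit 5) (nat_lit 4)) (.cons (.zr (nat_lit 162259276829231882197643888230656) (nat_lit 1856919503661880589454147588) (nat_lit 15) (nat_lit 4)) .nil))) .nil)))) .nil))),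
 (.br (nat_lit 11) (nat_lit 1) (.cons (.rf (nat_lit 31) (nat_lit 377822273)) (.cons (.rf (nat_lit 2034) (nat_lit 493858305440582043680)) (.cons (.br (nat_lit 11) (nat_lit 1) (.cons (.rf (nat_lit 31) (nat_lit 377822273)) (.cons (.rf (nat_lit 2034) (nat_lit 493858305440582043680)) .nil))) .nil)))),
 (.br (nat_lit 11) (nat_lit 1) (.cons (.br (nat_lit 12) (nat_lit 1) (.cons (.kr (nat_lit 79537647524157740256306659584) (nat_lit 20282410812595936782650135609344) (nat_lit 1) (nat_lit 0)) .nil)) .nil)),
 (.br (nat_lit 10) (nat_lit 1) (.cons (.br (nat_lit 11) (nat_lit 1) (.cons (.rf (nat_lit 2036) (nat_lit 493858305440582043680)) (.cons (.br (nat_lit 11) (nat_lit 1) (.cons (.rf (nat_lit 2036) (nat_lit 493858305440582043680)) .nil)) .nil))) (.cons (.rf (nat_lit 31) (nat_lit 411376705)) (.cons (.rf (nat_lit 31) (nat_lit 444931137)) .nil)))),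
 (.br (nat_lit 8) (nat_lit 1) (.cons (.rf (nat_lit 29) (nat_lit 8723521)) (.cons (.rf (nat_lit 2035) (nat_lit 493858305440582043680)) (.cons (.br (nat_lit 8) (nat_lit 1) (.cons (.rf (nat_lit 29) (nat_lit 8723521)) (.cons (.rf (nat_lit 2035) (nat_lit 493858305440582043680)) (.cons (.rf (nat_lit 2037) (nat_lit 493858305440582043680)) .nil)))) (.cons (.br (nat_lit 8) (nat_lit 1) (.cons (.rf (nat_lit 29) (nat_lit 8723521)) (.cons (.rf (nat_lit 2035) (nat_lit 493858305440582043680)) (.cons (.rf (nat_lit 2037) (nat_lit 493858305440582043680)) .nil)))) .nil))))),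
 (.br (nat_lit 11) (nat_lit 1) (.cons (.rf (nat_lit 31) (nat_lit 377727041)) (.cons (.br (nat_lit 7) (nat_lit 1) (.cons (.ev (nat_lit 310698676526245339115618560) (nat_lit 1)) (.cons (.br (nat_lit 8) (nat_lit 1) (.cons (.ev (nat_lit 79228167236631103037677502721) (nat_lit 1)) (.cons (.br (nat_lit 12) (nat_lit 1) (.cons (.ev (nat_lit 20681968115683589102930529158406) (nat_lit 4)) .nil)) .nil))) (.cons (.br (nat_lit 13) (nat_lit 1) (.cons (.rf (nat_lit 31) (nat_lit 444835905)) (.cons (.ev (nat_lit 20282719088661563827713820655873) (nat_lit 1)) .nil))) .nil)))) .nil))),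
 (.br (nat_lit 11) (nat_lit 1) (.cons (.rf (nat_lit 31) (nat_lit 377727041)) (.cons (.rf (nat_lit 2039) (nat_lit 493858305440582043680)) (.cons (.br (nat_lit 11) (nat_lit 1) (.cons (.rf (nat_lit 31) (nat_lit 377727041)) (.cons (.rf (nat_lit 2039) (nat_lit 493858305440582043680)) .nil))) .nil)))),
 (.br (nat_lit 8) (nat_lit 1) (.cons (.rf (nat_lit 29) (nat_lit 8723521)) (.cons (.rf (nat_lit 2040) (nat_lit 493858305440582043680)) (.cons (.br (nat_lit 8) (nat_lit 1) (.cons (.rf (nat_lit 29) (nat_lit 8723521)) (.cons (.rf (nat_lit 2040) (nat_lit 493858305440582043680)) (.cons (.ev (nat_lit 4740813226947649798401) (nat_lit 1)) .nil)))) (.cons (.br (nat_lit 8) (nat_lit 1) (.cons (.rf (nat_lit 29) (nat_lit 8723521)) (.cons (.rf (nat_lit 2040) (nat_lit 493858305440582043680)) (.cons (.ev (nat_lit 4740813226947649798401) (nat_lit 1)) .nil)))) .nil))))),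
 (.br (nat_lit 10) (nat_lit 1) (.cons (.ev (nat_lit 310698676526245339115618560) (nat_lit 1)) (.cons (.br (nat_lit 11) (nat_lit 1) (.cons (.rf (nat_lit 31) (nat_lit 414522433)) (.cons (.ev (nat_lit 310703398964785807093858306) (nat_lit 2)) .nil))) (.cons (.br (nat_lit 11) (nat_lit 1) (.cons (.ev (nat_lit 310703398964785807093858306) (nat_lit 2)) (.cons (.rf (nat_lit 31) (nat_lit 448076865)) .nil))) .nil)))),
 (.br (nat_lit 7) (nat_lit 1) (.cons (.ev (nat_lit 310698676526245339115618560) (nat_lit 1)) (.cons (.br (nat_lit 12) (nat_lit 1) (.cons (.ev (nat_lit 79228167236631103037677502721) (nat_lit 1)) (.cons (.ev (nat_lit 79228167255149904705425047808) (nat_lit 1)) .nil))) (.cons (.br (nat_lit 12) (nat_lit 1) (.cons (.zr (nat_lit 309485010037799325832053504) (nat_lit 2422574005713240391155713) (nat_lit 5) (nat_lit 0)) (.cons (.zr (nat_lit 60847232437732470115729278173184) (nat_lit 4759260253595864399873) (nat_lit 5) (nat_lit 9)) .nil))) .nil)))),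
 (.br (nat_lit 11) (nat_lit 1) (.cons (.rf (nat_lit 2042) (nat_lit 493858305440582043680)) (.cons (.rf (nat_lit 2043) (nat_lit 493858305440582043680)) (.cons (.br (nat_lit 7) (nat_lit 1) (.cons (.kr (nat_lit 928455029608150394250199552) (nat_lit 1208981159847949831831552) (nat_lit 1) (nat_lit 0)) (.cons (.ev (nat_lit 79228167236631103037677502721) (nat_lit 1)) (.cons (.br (nat_lit 10) (nat_lit 1) (.cons (.zr (nat_lit 238612942572473220768919978752) (nat_lit 4814600485816993054721) (nat_lit 5) (nat_lit 9)) .nil)) .nil)))) .nil)))),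
 (.br (nat_lit 8) (nat_lit 1) (.cons (.rf (nat_lit 2038) (nat_lit 493858305440582043680)) (.cons (.rf (nat_lit 2041) (nat_lit 493858305440582043680)) (.cons (.br (nat_lit 11) (nat_lit 1) (.cons (.rf (nat_lit 2042) (nat_lit 493858305440582043680)) (.cons (.rf (nat_lit 2043) (nat_lit 493858305440582043680)) (.cons (.rf (nat_lit 2044) (nat_lit 493858305440582043680)) (.cons (.br (nat_lit 11) (nat_lit 1) (.cons (.rf (nat_lit 2042) (nat_lit 493858305440582043680)) (.cons (.rf (nat_lit 2043) (nat_lit 493858305440582043680)) (.cons (.rf (nat_lit 2044) (nat_lit 493858305440582043680)) .nil)))) .nil))))) .nil)))),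
 (.br (nat_lit 8) (nat_lit 1) (.cons (.rf (nat_lit 2038) (nat_lit 493858305440582043680)) (.cons (.rf (nat_lit 2041) (nat_lit 493858305440582043680)) (.cons (.rf (nat_lit 2045) (nat_lit 493858305440582043680)) (.cons (.br (nat_lit 8) (nat_lit 1) (.cons (.rf (nat_lit 2038) (nat_lit 493858305440582043680)) (.cons (.rf (nat_lit 2041) (nat_lit 493858305440582043680)) (.cons (.rf (nat_lit 2045) (nat_lit 493858305440582043680)) .nil)))) .nil))))),
 (.br (nat_lit 8) (nat_lit 1) (.cons (.rf (nat_lit 2038) (nat_lit 493858305440582043680)) (.cons (.rf (nat_lit 2041) (nat_lit 493858305440582043680)) (.cons (.rf (nat_lit 2046) (nat_lit 493858305440582043680)) (.cons (.br (nat_lit 8) (nat_lit 1) (.cons (.rf (nat_lit 2037) (nat_lit 493858305440582043680)) (.cons (.ev (nat_lit 4740813226947649798401) (nat_lit 1)) (.cons (.rf (nat_lit 2046) (nat_lit 493858305440582043680)) .nil)))) .nil))))),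
 (.br (nat_lit 8) (nat_lit 1) (.cons (.rf (nat_lit 2038) (nat_lit 493858305440582043680)) (.cons (.rf (nat_lit 2041) (nat_lit 493858305440582043680)) (.cons (.rf (nat_lit 2046) (nat_lit 493858305440582043680)) (.cons (.rf (nat_lit 2047) (nat_lit 493858305440582043680)) (.cons (.br (nat_lit 8) (nat_lit 1) (.cons (.rf (nat_lit 2038) (nat_lit 493858305440582043680)) (.cons (.rf (nat_lit 2041) (nat_lit 493858305440582043680)) (.cons (.rf (nat_lit 2046) (nat_lit 493858305440582043680)) (.cons (.rf (nat_lit 2047) (nat_lit 493858305440582043680)) .nil))))) .nil)))))),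
 (.br (nat_lit 11) (nat_lit 1) (.cons (.rf (nat_lit 1339) (nat_lit 392259932194)) (.cons (.rf (nat_lit 82) (nat_lit 13165111330)) (.cons (.br (nat_lit 8) (nat_lit 1) (.cons (.ev (nat_lit 310698676526245339115618560) (nat_lit 1)) (.cons (.br (nat_lit 10) (nat_lit 1) (.cons (.ev (nat_lit 158767033149788729599535940099) (nat_lit 2)) (.cons (.ev (nat_lit 1213666632842676336066561) (nat_lit 1)) .nil))) (.cons (.br (nat_lit 10) (nat_lit 1) (.cons (.ev (nat_lit 1213666632842676336066561) (nat_lit 1)) (.cons (.ev (nat_lit 40565132333313133619712685572609) (nat_lit 2)) .nil))) .nil)))) .nil)))),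
 (.br (nat_lit 11) (nat_lit 1) (.cons (.br (nat_lit 12) (nat_lit 1) (.cons (.ev (nat_lit 20282413244614892196249538330625) (nat_lit 2)) .nil)) .nil)),
 (.br (nat_lit 11) (nat_lit 1) (.cons (.br (nat_lit 12) (nat_lit 1) (.cons (.kr (nat_lit 310693935640959702194454529) (nat_lit 79228162532711363142246989824) (nat_lit 0) (nat_lit 1)) .nil)) .nil)),
 (.br (nat_lit 13) (nat_lit 1) (.cons (.rf (nat_lit 1339) (nat_lit 458831927330)) (.cons (.rf (nat_lit 82) (nat_lit 12093466658)) (.cons (.br (nat_lit 8) (nat_lit 1) (.cons (.ev (nat_lit 20282410817299928861614614315265) (nat_lit 1)) (.cons (.br (nat_lit 11) (nat_lit 1) (.cons (.rf (nat_lit 84) (nat_lit 14336465985)) (.cons (.ev (nat_lit 20282719088661491770119782662401) (nat_lit 1)) .nil))) (.cons (.br (nat_lit 12) (nat_lit 1) (.cons (.rf (nat_lit 84) (nat_lit 14370020417)) (.cons (.ev (nat_lit 79228167236703160631715496193) (nat_lit 1)) .nil))) .nil)))) .nil)))),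
 (.br (nat_lit 11) (nat_lit 1) (.cons (.ev (nat_lit 1208944266640177861033984) (nat_lit 1)) (.cons (.br (nat_lit 11) (nat_lit 1) (.cons (.ev (nat_lit 1208944266640177861033984) (nat_lit 1)) (.cons (.ev (nat_lit 20282409603651742482645112651776) (nat_lit 1)) .nil))) (.cons (.ev (nat_lit 20282409603651742482645112651776) (nat_lit 1)) .nil)))),
 (.br (nat_lit 13) (nat_lit 1) (.cons (.ev (nat_lit 20282409603651742482645112651776) (nat_lit 1)) (.cons (.br (nat_lit 8) (nat_lit 1) (.cons (.br (nat_lit 11) (nat_lit 1) (.cons (.ev (nat_lit 158768227945401541536992395520) (nat_lit 2)) .nil)) (.cons (.ev (nat_lit 309485028340429310977441793) (nat_lit 1)) (.cons (.br (nat_lit 10) (nat_lit 1) (.cons (.ev (nat_lit 20520100145306056597780753418240) (nat_lit 4)) .nil)) .nil)))) .nil)))]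

theorem c66 : chkAll C T R L66 (nat_lit 2027) = true := by decide +kernel

theorem l66 : (nat_lit 2027) + L66.length = (nat_lit 2055) := by decide +kernel

/-- part of the certificates -/
def L67 : List Prf := [(.br (nat_lit 13) (nat_lit 1) (.cons (.rf (nat_lit 2053) (nat_lit 493858305440582043680)) (.cons (.rf (nat_lit 2054) (nat_lit 493858305440582043680)) (.cons (.br (nat_lit 13) (nat_lit 1) (.cons (.rf (nat_lit 2053) (nat_lit 493858305440582043680)) (.cons (.rf (nat_lit 2054) (nat_lit 493858305440582043680)) .nil))) .nil)))),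
 (.br (nat_lit 8) (nat_lit 1) (.cons (.br (nat_lit 11) (nat_lit 1) (.cons (.ev (nat_lit 309485028340429310977441793) (nat_lit 1)) (.cons (.br (nat_lit 12) (nat_lit 1) (.cons (.ev (nat_lit 20839181627227512743126355870978) (nat_lit 3)) .nil)) .nil))) (.cons (.ev (nat_lit 1208944266640177861033984) (nat_lit 1)) .nil))),
 (.br (nat_lit 8) (nat_lit 1) (.cons (.rf (nat_lit 2056) (nat_lit 493858305440582043680)) (.cons (.br (nat_lit 8) (nat_lit 1) (.cons (.rf (nat_lit 2056) (nat_lit 493858305440582043680)) (.cons (.rf (nat_lit 2053) (nat_lit 493858305440582043680)) .nil))) (.cons (.rf (nat_lit 2053) (nat_lit 493858305440582043680)) .nil)))),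
 (.br (nat_lit 13) (nat_lit 1) (.cons (.rf (nat_lit 2055) (nat_lit 493858305440582043680)) (.cons (.rf (nat_lit 2057) (nat_lit 493858305440582043680)) (.cons (.br (nat_lit 13) (nat_lit 1) (.cons (.rf (nat_lit 2055) (nat_lit 493858305440582043680)) (.cons (.rf (nat_lit 2057) (nat_lit 493858305440582043680)) .nil))) .nil)))),
 (.br (nat_lit 13) (nat_lit 1) (.cons (.rf (nat_lit 2055) (nat_lit 493858305440582043680)) (.cons (.rf (nat_lit 2057) (nat_lit 493858305440582043680)) (.cons (.rf (nat_lit 2058) (nat_lit 493858305440582043680)) (.cons (.br (nat_lit 13) (nat_lit 1) (.cons (.rf (nat_lit 2055) (nat_lit 493858305440582043680)) (.cons (.rf (nat_lit 2057) (nat_lit 493858305440582043680)) (.cons (.rf (nat_lit 2058) (nat_lit 493858305440582043680)) .nil)))) .nil))))),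
 (.br (nat_lit 8) (nat_lit 1) (.cons (.rf (nat_lit 84) (nat_lit 12222531623)) (.cons (.ev (nat_lit 1208944266640177861033984) (nat_lit 1)) (.cons (.br (nat_lit 12) (nat_lit 1) (.cons (.rf (nat_lit 84) (nat_lit 12092254247)) (.cons (.br (nat_lit 1) (nat_lit 1) (.cons (.rf (nat_lit 84) (nat_lit 9004456994)) (.cons (.br (nat_lit 11) (nat_lit 1) (.cons (.zr (nat_lit 237684487542793017178678362880) (nat_lit 618974742009454486383362049) (nat_lit 5) (nat_lit 4)) .nil)) .nil))) (.cons (.ev (nat_lit 79229376180969518235088060416) (nat_lit 1)) .nil)))) .nil)))),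
 (.br (nat_lit 0) (nat_lit 1) (.cons (.rf (nat_lit 82) (nat_lit 11045871648)) (.cons (.br (nat_lit 9) (nat_lit 1) (.cons (.kr (nat_lit 1208925819614629174771712) (nat_lit 309485028268089142434332672) (nat_lit 2) (nat_lit 0)) .nil)) .nil))),
 (.br (nat_lit 12) (nat_lit 1) (.cons (.rf (nat_lit 2059) (nat_lit 493858305440582043680)) (.cons (.rf (nat_lit 2060) (nat_lit 493858305440582043680)) (.cons (.br (nat_lit 8) (nat_lit 1) (.cons (.ev (nat_lit 79228162532783139265586397441) (nat_lit 1)) (.cons (.rf (nat_lit 2061) (nat_lit 482283501406784577)) (.cons (.ev (nat_lit 309485028340429310977441793) (nat_lit 1)) (.cons (.zr (nat_lit 55556405003275993088) (nat_lit 158456329750895440635516420097) (nat_lit 5) (nat_lit 0)) .nil))))) .nil)))),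
 (.br (nat_lit 12) (nat_lit 1) (.cons (.rf (nat_lit 2059) (nat_lit 493858305440582043680)) (.cons (.rf (nat_lit 2060) (nat_lit 493858305440582043680)) (.cons (.rf (nat_lit 2062) (nat_lit 493858305440582043680)) (.cons (.br (nat_lit 12) (nat_lit 1) (.cons (.rf (nat_lit 2059) (nat_lit 493858305440582043680)) (.cons (.rf (nat_lit 2060) (nat_lit 493858305440582043680)) (.cons (.rf (nat_lit 2062) (nat_lit 493858305440582043680)) .nil)))) .nil))))),
 (.br (nat_lit 12) (nat_lit 1) (.cons (.rf (nat_lit 84) (nat_lit 8971855906)) (.cons (.rf (nat_lit 2063) (nat_lit 493858305440582043680)) (.cons (.br (nat_lit 1) (nat_lit 1) (.cons (.zr (nat_lit 79228167236630822662229197568) (nat_lit 2417851639510737621090307) (nat_lit 5) (nat_lit 4)) (.cons (.ev (nat_lit 79537647524085682666580541441) (nat_lit 1)) (.cons (.br (nat_lit 11) (nat_lit 1) (.cons (.zr (nat_lit 928473918929966684822504192) (nat_lit 158462369657627030911744737286) (nat_lit 5) (nat_lit 4)) (.cons (.kr (nat_lit 79229371440083953322230284289) (nat_lit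 309489732187827938386837504) (nat_lit 0) (nat_lit 1)) .nil))) .nil)))) .nil)))),
 (.br (nat_lit 12) (nat_lit 1) (.cons (.rf (nat_lit 2059) (nat_lit 493858305440582043680)) (.cons (.rf (nat_lit 2063) (nat_lit 493858305440582043680)) (.cons (.rf (nat_lit 2064) (nat_lit 493858305440582043680)) (.cons (.br (nat_lit 12) (nat_lit 1) (.cons (.rf (nat_lit 2059) (nat_lit 493858305440582043680)) (.cons (.rf (nat_lit 2063) (nat_lit 493858305440582043680)) (.cons (.rf (nat_lit 2064) (nat_lit 493858305440582043680)) .nil)))) .nil))))),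
 (.br (nat_lit 12) (nat_lit 1) (.cons (.rf (nat_lit 2059) (nat_lit 493858305440582043680)) (.cons (.rf (nat_lit 2063) (nat_lit 493858305440582043680)) (.cons (.rf (nat_lit 2065) (nat_lit 493858305440582043680)) (.cons (.br (nat_lit 12) (nat_lit 1) (.cons (.rf (nat_lit 2059) (nat_lit 493858305440582043680)) (.cons (.rf (nat_lit 2063) (nat_lit 493858305440582043680)) (.cons (.rf (nat_lit 2065) (nat_lit 493858305440582043680)) .nil)))) .nil))))),
 (.br (nat_lit 8) (nat_lit 1) (.cons (.ev (nat_lit 1208944266640177861033984) (nat_lit 1)) (.cons (.br (nat_lit 13) (nat_lit 1) (.cons (.ev (nat_lit 20282413239929418923355131609600) (nat_lit 2)) (.cons (.ev (nat_lit 20282409603651742482645112651776) (nat_lit 1)) .nil))) .nil))),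
 (.br (nat_lit 13) (nat_lit 1) (.cons (.rf (nat_lit 2067) (nat_lit 493858305440582043680)) (.cons (.br (nat_lit 12) (nat_lit 1) (.cons (.ev (nat_lit 20361637766165935043015788789761) (nat_lit 1)) (.cons (.br (nat_lit 8) (nat_lit 1) (.cons (.ev (nat_lit 158767019019581925808272310272) (nat_lit 2)) .nil)) (.cons (.ev (nat_lit 79228162514336395191876845824) (nat_lit 1)) .nil)))) .nil))),
 (.br (nat_lit 13) (nat_lit 1) (.cons (.rf (nat_lit 2067) (nat_lit 493858305440582043680)) (.cons (.rf (nat_lit 2068) (nat_lit 493858305440582043680)) (.cons (.br (nat_lit 13) (nat_lit 1) (.cons (.ev (nat_lit 20282409603651742482645112651776) (nat_lit 1)) (.cons (.rf (nat_lit 2068) (nat_lit 493858305440582043680)) .nil))) .nil)))),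
 (.br (nat_lit 8) (nat_lit 1) (.cons (.br (nat_lit 11) (nat_lit 1) (.cons (.ev (nat_lit 309485009893685237267890176) (nat_lit 1)) (.cons (.br (nat_lit 12) (nat_lit 1) (.cons (.ev (nat_lit 40565132319109139839626650845186) (nat_lit 2)) .nil)) .nil))) (.cons (.ev (nat_lit 1208944266640177861033984) (nat_lit 1)) .nil))),
 (.br (nat_lit 8) (nat_lit 1) (.cons (.rf (nat_lit 2070) (nat_lit 493858305440582043680)) (.cons (.br (nat_lit 8) (nat_lit 1) (.cons (.rf (nat_lit 2070) (nat_lit 493858305440582043680)) (.cons (.rf (nat_lit 2069) (nat_lit 493858305440582043680)) .nil))) (.cons (.rf (nat_lit 2069) (nat_lit 493858305440582043680)) .nil)))),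
 (.br (nat_lit 13) (nat_lit 1) (.cons (.rf (nat_lit 2069) (nat_lit 493858305440582043680)) (.cons (.rf (nat_lit 2071) (nat_lit 493858305440582043680)) (.cons (.br (nat_lit 13) (nat_lit 1) (.cons (.rf (nat_lit 2069) (nat_lit 493858305440582043680)) (.cons (.rf (nat_lit 2070) (nat_lit 415521255186946432329)) .nil))) .nil)))),
 (.br (nat_lit 13) (nat_lit 1) (.cons (.rf (nat_lit 2069) (nat_lit 493858305440582043680)) (.cons (.rf (nat_lit 2071) (nat_lit 493858305440582043680)) (.cons (.rf (nat_lit 2072) (nat_lit 493858305440582043680)) (.cons (.br (nat_lit 13) (nat_lit 1) (.cons (.rf (nat_lit 2069) (nat_lit 493858305440582043680)) (.cons (.rf (nat_lit 2070) (nat_lit 415521255186946432329)) (.cons (.rf (nat_lit 2072) (nat_lit 493858305440582043680)) .nil)))) .nil))))),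
 (.br (nat_lit 1) (nat_lit 1) (.cons (.rf (nat_lit 84) (nat_lit 13262719015)) (.cons (.rf (nat_lit 84) (nat_lit 13164947495)) (.cons (.br (nat_lit 8) (nat_lit 1) (.cons (.rf (nat_lit 84) (nat_lit 12092251178)) (.cons (.br (nat_lit 12) (nat_lit 1) (.cons (.zr (nat_lit 55556686478286258176) (nat_lit 621392593648403377840717825) (nat_lit 5) (nat_lit 0)) (.cons (.ev (nat_lit 79228167255149904705425047808) (nat_lit 1)) .nil))) .nil))) (.cons (.br (nat_lit 8) (nat_lit 1) (.cons (.br (nat_lit 11) (nat_lit 1) (.cons (.ev (nat_lit 79537652264899192180128612353) (nat_lit 1)) (.cons (.br (nat_lit 12) (nat_lit 1) (.cons (.zr (nat_lit 928455030042184859877965824) (nat_lit 396149279811318962488535419393) (nat_lit 30) (nat_lit 5)) .nil)) .nil))) (.cons (.br (nat_lit 12) (nat_lit 1) (.cons (.zr (nat_lit 55556686478286258176) (nat_lit 621392593648403377840717825) (nat_lit 5) (nat_lit 0)) (.cons (.zr (nat_lit 55556405003309547520) (nat_lit 40564821629877346842601280503809) (nat_lit 5) (nat_lit 0)) .nil))) .nil)))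 .nil))))),
 (.br (nat_lit 11) (nat_lit 1) (.cons (.ev (nat_lit 309485009893685237267890176) (nat_lit 1)) (.cons (.rf (nat_lit 2074) (nat_lit 493858305440582043680)) (.cons (.br (nat_lit 13) (nat_lit 1) (.cons (.br (nat_lit 12) (nat_lit 1) (.cons (.ev (nat_lit 309489750706629610429218816) (nat_lit 1)) (.cons (.zr (nat_lit 309499177281926085715492864) (nat_lit 316918694686155425719072588802) (nat_lit 10) (nat_lit 5)) (.cons (.ev (nat_lit 20282719088661491770119782662401) (nat_lit 1)) .nil)))) (.cons (.br (nat_lit 10) (nat_lit 1) (.cons (.kr (nat_lit 310693935640960797411115520) (nat_lit 18518801667797811200) (nat_lit 1) (nat_lit 0)) (.cons (.zr (nat_lit 55628462597330698240) (nat_lit 158767018964169635993089015809) (nat_lit 5) (nat_lit 0)) (.cons (.ev (nat_lit 1208944266640177861033984) (nat_lit 1)) .nil)))) (.cons (.rf (nat_lit 2073) (nat_lit 415521255186946432329)) (.cons (.br (nat_lit 10) (nat_lit 1) (.cons (.zr (nat_lit 237684487542793012780699156480) (nat_lit 618974742009455585878082049) (nat_lit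 5) (nat_lit 9)) (.cons (.ev (nat_lit 79229371458602754994272796673) (nat_lit 1)) (.cons (.rf (nat_lit 2073) (nat_lit 415521255186946432329)) .nil)))) .nil))))) .nil)))),
 (.br (nat_lit 11) (nat_lit 1) (.cons (.rf (nat_lit 2073) (nat_lit 493858305440582043680)) (.cons (.rf (nat_lit 2074) (nat_lit 493858305440582043680)) (.cons (.rf (nat_lit 2075) (nat_lit 493858305440582043680)) (.cons (.br (nat_lit 11) (nat_lit 1) (.cons (.rf (nat_lit 2073) (nat_lit 493858305440582043680)) (.cons (.rf (nat_lit 2074) (nat_lit 493858305440582043680)) (.cons (.rf (nat_lit 2075) (nat_lit 493858305440582043680)) .nil)))) .nil))))),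
 (.br (nat_lit 8) (nat_lit 1) (.cons (.kr (nat_lit 79537647524085682662268797184) (nat_lit 20282410812596008840244173471744) (nat_lit 1) (nat_lit 0)) .nil)),
 (.br (nat_lit 11) (nat_lit 1) (.cons (.rf (nat_lit 84) (nat_lit 9004361762)) (.cons (.rf (nat_lit 2076) (nat_lit 493858305440582043680)) (.cons (.br (nat_lit 12) (nat_lit 1) (.cons (.ev (nat_lit 310698658079501265406066945) (nat_lit 1)) (.cons (.br (nat_lit 1) (nat_lit 1) (.cons (.ev (nat_lit 79228167255149904705425047808) (nat_lit 1)) (.cons (.rf (nat_lit 2077) (nat_lit 493858305440582043680)) .nil))) (.cons (.rf (nat_lit 2076) (nat_lit 415521255186946432329)) .nil)))) .nil)))),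
 (.br (nat_lit 11) (nat_lit 1) (.cons (.rf (nat_lit 2073) (nat_lit 493858305440582043680)) (.cons (.rf (nat_lit 2076) (nat_lit 493858305440582043680)) (.cons (.rf (nat_lit 2078) (nat_lit 493858305440582043680)) (.cons (.br (nat_lit 11) (nat_lit 1) (.cons (.rf (nat_lit 2073) (nat_lit 493858305440582043680)) (.cons (.rf (nat_lit 2076) (nat_lit 493858305440582043680)) (.cons (.rf (nat_lit 2078) (nat_lit 493858305440582043680)) .nil)))) .nil))))),
 (.br (nat_lit 11) (nat_lit 1) (.cons (.rf (nat_lit 2073) (nat_lit 493858305440582043680)) (.cons (.rf (nat_lit 2076) (nat_lit 493858305440582043680)) (.cons (.rf (nat_lit 2079) (nat_lit 493858305440582043680)) (.cons (.br (nat_lit 11) (nat_lit 1) (.cons (.rf (nat_lit 2073) (nat_lit 493858305440582043680)) (.cons (.rf (nat_lit 2076) (nat_lit 493858305440582043680)) (.cons (.rf (nat_lit 2079) (nat_lit 493858305440582043680)) .nil)))) .nil))))),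
 (.br (nat_lit 10) (nat_lit 1) (.cons (.ev (nat_lit 4722438541563194834944) (nat_lit 1)) (.cons (.rf (nat_lit 1795) (nat_lit 11969477478555158824)) (.cons (.br (nat_lit 10) (nat_lit 1) (.cons (.ev (nat_lit 4722438541563194834944) (nat_lit 1)) (.cons (.rf (nat_lit 1795) (nat_lit 11969477478555158824)) .nil))) .nil)))),
 (.br (nat_lit 12) (nat_lit 1) (.cons (.rf (nat_lit 1795) (nat_lit 13159553715555895625)) (.cons (.br (nat_lit 8) (nat_lit 1) (.cons (.br (nat_lit 11) (nat_lit 1) (.cons (.zr (nat_lit 310693972678563033394446848) (nat_lit 158456329750895439536021569537) (nat_lit 5) (nat_lit 0)) .nil)) (.cons (.zr (nat_lit 55556405003275993088) (nat_lit 158456329750895440635516420097) (nat_lit 5) (nat_lit 0)) (.cons (.ev (nat_lit 20361637766165935043015788789761) (nat_lit 1)) .nil)))) .nil))),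
 (.br (nat_lit 12) (nat_lit 1) (.cons (.rf (nat_lit 2081) (nat_lit 15433072045018155040)) (.cons (.rf (nat_lit 2082) (nat_lit 493858305440582043680)) (.cons (.br (nat_lit 12) (nat_lit 1) (.cons (.rf (nat_lit 2081) (nat_lit 15433072045018155040)) (.cons (.rf (nat_lit 2082) (nat_lit 493858305440582043680)) .nil))) .nil)))),
 (.br (nat_lit 8) (nat_lit 1) (.cons (.ev (nat_lit 1208944266640177861033984) (nat_lit 1)) (.cons (.br (nat_lit 11) (nat_lit 1) (.cons (.br (nat_lit 12) (nat_lit 1) (.cons (.kr (nat_lit 158457533954348290915774234626) (nat_lit 309494473073112475779465216) (nat_lit 0) (nat_lit 1)) .nil)) (.cons (.ev (nat_lit 309485009893685237267890176) (nat_lit 1)) .nil))) .nil))),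
 (.br (nat_lit 8) (nat_lit 1) (.cons (.rf (nat_lit 2084) (nat_lit 493858305440582043680)) (.cons (.rf (nat_lit 2081) (nat_lit 15433072045018155040)) (.cons (.br (nat_lit 8) (nat_lit 1) (.cons (.rf (nat_lit 2084) (nat_lit 493858305440582043680)) (.cons (.rf (nat_lit 2081) (nat_lit 15433072045018155040)) .nil))) .nil)))),
 (.br (nat_lit 12) (nat_lit 1) (.cons (.rf (nat_lit 2083) (nat_lit 493858305440582043680)) (.cons (.rf (nat_lit 2085) (nat_lit 493858305440582043680)) (.cons (.br (nat_lit 12) (nat_lit 1) (.cons (.rf (nat_lit 2083) (nat_lit 493858305440582043680)) (.cons (.rf (nat_lit 2085) (nat_lit 493858305440582043680)) .nil))) .nil))))]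

theorem c67 : chkAll C T R L67 (nat_lit 2055) = true := by decide +kernel

theorem l67 : (nat_lit 2055) + L67.length = (nat_lit 2087) := by decide +kernel

/-- part of the certificates -/
def L68 : List Prf := [(.br (nat_lit 12) (nat_lit 1) (.cons (.rf (nat_lit 2083) (nat_lit 493858305440582043680)) (.cons (.rf (nat_lit 2085) (nat_lit 493858305440582043680)) (.cons (.rf (nat_lit 2086) (nat_lit 493858305440582043680)) (.cons (.br (nat_lit 12) (nat_lit 1) (.cons (.rf (nat_lit 2083) (nat_lit 493858305440582043680)) (.cons (.rf (nat_lit 2085) (nat_lit 493858305440582043680)) (.cons (.rf (nat_lit 2086) (nat_lit 493858305440582043680)) .nil)))) .nil))))),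
 (.br (nat_lit 12) (nat_lit 1) (.cons (.ev (nat_lit 20282720297587311383649445806081) (nat_lit 1)) .nil)),
 (.br (nat_lit 1) (nat_lit 1) (.cons (.rf (nat_lit 84) (nat_lit 14336460839)) (.cons (.rf (nat_lit 84) (nat_lit 14238689319)) (.cons (.br (nat_lit 8) (nat_lit 1) (.cons (.br (nat_lit 12) (nat_lit 1) (.cons (.zr (nat_lit 55556686478286258176) (nat_lit 621392593648403377840717825) (nat_lit 5) (nat_lit 0)) (.cons (.rf (nat_lit 1857) (nat_lit 13159566734675511625)) .nil))) (.cons (.br (nat_lit 12) (nat_lit 1) (.cons (.rf (nat_lit 2088) (nat_lit 493858305440582043680)) (.cons (.br (nat_lit 11) (nat_lit 1) (.cons (.ev (nat_lit 79228162532783139265586397441) (nat_lit 1)) .nil)) .nil))) .nil))) (.cons (.br (nat_lit 8) (nat_lit 1) (.cons (.br (nat_lit 12) (nat_lit 1) (.cons (.zr (nat_lit 55556686478286258176) (nat_lit 621392593648403377840717825) (nat_lit 5) (nat_lit 0)) (.cons (.kr (nat_lit 20282409603651670705422228062464) (nat_lit 18518801672059224064) (nat_lit 1) (nat_lit 0)) .nil))) (.cons (.rf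 (nat_lit 84) (nat_lit 12093299754)) .nil))) .nil))))),
 (.br (nat_lit 11) (nat_lit 1) (.cons (.rf (nat_lit 2087) (nat_lit 493858305440582043680)) (.cons (.rf (nat_lit 2089) (nat_lit 493858305440582043680)) (.cons (.br (nat_lit 8) (nat_lit 1) (.cons (.br (nat_lit 12) (nat_lit 1) (.cons (.zr (nat_lit 315529657438223180931006466) (nat_lit 28334199460176414639104) (nat_lit 10) (nat_lit 6)) (.cons (.zr (nat_lit 101412048018258352119736323866625) (nat_lit 618984223780024660663468544) (nat_lit 5) (nat_lit 4)) .nil))) (.cons (.br (nat_lit 13) (nat_lit 1) (.cons (.ev (nat_lit 20282720302328124893162993876993) (nat_lit 1)) (.cons (.ev (nat_lit 20282413244614892196249538330625) (nat_lit 2)) .nil))) (.cons (.br (nat_lit 10) (nat_lit 1) (.cons (.kr (nat_lit 310693935640960797411115520) (nat_lit 18518801667797811200) (nat_lit 1) (nat_lit 0)) (.cons (.ev (nat_lit 1208944266640177861033984) (nat_lit 1)) (.cons (.br (nat_lit 1) (nat_lit 1) (.cons (.ev (nat_lit 310698658224459787524047360) (nat_lit 2)) .nil)) .nil))))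 (.cons (.ev (nat_lit 309489750706629610429218816) (nat_lit 1)) .nil))))) .nil)))),
 (.br (nat_lit 11) (nat_lit 1) (.cons (.rf (nat_lit 2087) (nat_lit 493858305440582043680)) (.cons (.rf (nat_lit 2089) (nat_lit 493858305440582043680)) (.cons (.rf (nat_lit 2090) (nat_lit 493858305440582043680)) (.cons (.br (nat_lit 11) (nat_lit 1) (.cons (.ev (nat_lit 309485009893685237267890176) (nat_lit 1)) (.cons (.rf (nat_lit 2089) (nat_lit 493858305440582043680)) (.cons (.rf (nat_lit 2090) (nat_lit 493858305440582043680)) .nil)))) .nil))))),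
 (.br (nat_lit 11) (nat_lit 1) (.cons (.rf (nat_lit 2087) (nat_lit 493858305440582043680)) (.cons (.rf (nat_lit 2091) (nat_lit 493858305440582043680)) (.cons (.br (nat_lit 1) (nat_lit 1) (.cons (.br (nat_lit 8) (nat_lit 1) (.cons (.br (nat_lit 12) (nat_lit 1) (.cons (.ev (nat_lit 79228167236703160631715496193) (nat_lit 1)) .nil)) (.cons (.zr (nat_lit 309485009821626552308400130) (nat_lit 2422629345945448634909184) (nat_lit 5) (nat_lit 5)) .nil))) (.cons (.br (nat_lit 12) (nat_lit 1) (.cons (.br (nat_lit 8) (nat_lit 1) (.cons (.ev (nat_lit 21155482598599785775822401113348) (nat_lit 4)) .nil)) (.cons (.ev (nat_lit 20361947251175828445678534656256) (nat_lit 1)) .nil))) (.cons (.ev (nat_lit 310698658079501265406066945) (nat_lit 1)) .nil)))) .nil)))),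
 (.br (nat_lit 11) (nat_lit 1) (.cons (.rf (nat_lit 2087) (nat_lit 493858305440582043680)) (.cons (.rf (nat_lit 2091) (nat_lit 493858305440582043680)) (.cons (.rf (nat_lit 2092) (nat_lit 493858305440582043680)) (.cons (.br (nat_lit 11) (nat_lit 1) (.cons (.rf (nat_lit 84) (nat_lit 9037916194)) (.cons (.rf (nat_lit 2091) (nat_lit 493858305440582043680)) (.cons (.rf (nat_lit 2092) (nat_lit 493858305440582043680)) .nil)))) .nil))))),
 (.br (nat_lit 11) (nat_lit 1) (.cons (.rf (nat_lit 2087) (nat_lit 493858305440582043680)) (.cons (.rf (nat_lit 2091) (nat_lit 493858305440582043680)) (.cons (.rf (nat_lit 2093) (nat_lit 493858305440582043680)) (.cons (.br (nat_lit 11) (nat_lit 1) (.cons (.rf (nat_lit 2087) (nat_lit 493858305440582043680)) (.cons (.rf (nat_lit 2091) (nat_lit 493858305440582043680)) (.cons (.rf (nat_lit 2093) (nat_lit 493858305440582043680)) .nil)))) .nil))))),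
 (.br (nat_lit 7) (nat_lit 1) (.cons (.rf (nat_lit 2048) (nat_lit 493858305268783356960)) (.cons (.br (nat_lit 1) (nat_lit 1) (.cons (.kr (nat_lit 1) (nat_lit 18446744073709551616) (nat_lit 0) (nat_lit 1)) (.cons (.rf (nat_lit 29) (nat_lit 8620353)) (.cons (.br (nat_lit 11) (nat_lit 1) (.cons (.rf (nat_lit 1339) (nat_lit 392259932194)) (.cons (.rf (nat_lit 1343) (nat_lit 422357248034)) (.cons (.rf (nat_lit 2049) (nat_lit 493858305440582043680)) (.cons (.br (nat_lit 11) (nat_lit 1) (.cons (.rf (nat_lit 1339) (nat_lit 392259932194)) (.cons (.rf (nat_lit 82) (nat_lit 14238853154)) (.cons (.rf (nat_lit 2049) (nat_lit 493858305440582043680)) .nil)))) .nil))))) (.cons (.br (nat_lit 8) (nat_lit 1) (.cons (.rf (nat_lit 58) (nat_lit 8723521)) (.cons (.br (nat_lit 10) (nat_lit 1) (.cons (.rf (nat_lit 84) (nat_lit 13262724161)) (.cons (.rf (nat_lit 82) (nat_lit 12222536769)) (.cons (.br (nat_lit 11) (nat_lit 1) (.cons (.rf (nat_lit 2050) (nat_lit 493858305440582043680)) (.cons (.br (nat_lit 12) (nat_lit 1)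 (.cons (.rf (nat_lit 2050) (nat_lit 493858305440582043680)) (.cons (.ev (nat_lit 20282413244614892196249538330625) (nat_lit 2)) .nil))) .nil))) .nil)))) (.cons (.rf (nat_lit 1339) (nat_lit 426619670562)) (.cons (.br (nat_lit 10) (nat_lit 1) (.cons (.br (nat_lit 11) (nat_lit 1) (.cons (.rf (nat_lit 2051) (nat_lit 493858305440582043680)) (.cons (.br (nat_lit 11) (nat_lit 1) (.cons (.rf (nat_lit 2051) (nat_lit 493858305440582043680)) .nil)) .nil))) (.cons (.ev (nat_lit 1213666632842676336066561) (nat_lit 1)) (.cons (.rf (nat_lit 84) (nat_lit 13329833025)) .nil)))) .nil))))) (.cons (.br (nat_lit 13) (nat_lit 1) (.cons (.rf (nat_lit 1339) (nat_lit 458831927330)) (.cons (.rf (nat_lit 1343) (nat_lit 422424356898)) (.cons (.rf (nat_lit 2052) (nat_lit 493858305440582043680)) (.cons (.br (nat_lit 13) (nat_lit 1) (.cons (.rf (nat_lit 1339) (nat_lit 458831927330)) (.cons (.rf (nat_lit 82) (nat_lit 13167208482)) (.cons (.rf (nat_lit 2052) (nat_lit 493858305440582043680)) .nil)))) .nil))))) .nil)))))) (.cons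 (.rf (nat_lit 2048) (nat_lit 415521255186946432329)) (.cons (.br (nat_lit 12) (nat_lit 1) (.cons (.rf (nat_lit 2059) (nat_lit 493858305440582043680)) (.cons (.rf (nat_lit 2063) (nat_lit 493858305440582043680)) (.cons (.rf (nat_lit 2065) (nat_lit 493858305440582043680)) (.cons (.rf (nat_lit 2066) (nat_lit 493858305440582043680)) (.cons (.br (nat_lit 12) (nat_lit 1) (.cons (.rf (nat_lit 2059) (nat_lit 493858305440582043680)) (.cons (.rf (nat_lit 2063) (nat_lit 493858305440582043680)) (.cons (.rf (nat_lit 2065) (nat_lit 493858305440582043680)) (.cons (.rf (nat_lit 2066) (nat_lit 493858305440582043680)) .nil))))) .nil)))))) (.cons (.br (nat_lit 11) (nat_lit 1) (.cons (.rf (nat_lit 2073) (nat_lit 493858305440582043680)) (.cons (.rf (nat_lit 2076) (nat_lit 493858305440582043680)) (.cons (.rf (nat_lit 2079) (nat_lit 493858305440582043680)) (.cons (.rf (nat_lit 2080) (nat_lit 493858305440582043680)) (.cons (.br (nat_lit 11) (nat_lit 1) (.cons (.rf (nat_lit 2073) (nat_lit 493858305440582043680)) (.cons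 (.rf (nat_lit 2076) (nat_lit 493858305440582043680)) (.cons (.rf (nat_lit 2079) (nat_lit 493858305440582043680)) (.cons (.rf (nat_lit 2080) (nat_lit 493858305440582043680)) .nil))))) .nil)))))) (.cons (.br (nat_lit 11) (nat_lit 1) (.cons (.rf (nat_lit 2087) (nat_lit 493858305440582043680)) (.cons (.rf (nat_lit 2091) (nat_lit 493858305440582043680)) (.cons (.rf (nat_lit 2093) (nat_lit 493858305440582043680)) (.cons (.rf (nat_lit 2094) (nat_lit 493858305440582043680)) (.cons (.br (nat_lit 11) (nat_lit 1) (.cons (.rf (nat_lit 2087) (nat_lit 493858305440582043680)) (.cons (.rf (nat_lit 2091) (nat_lit 493858305440582043680)) (.cons (.rf (nat_lit 2093) (nat_lit 493858305440582043680)) (.cons (.rf (nat_lit 2094) (nat_lit 493858305440582043680)) .nil))))) .nil)))))) .nil))))))),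
 (.br (nat_lit 8) (nat_lit 1) (.cons (.rf (nat_lit 82) (nat_lit 13262628898)) (.cons (.rf (nat_lit 1339) (nat_lit 289183862818)) (.cons (.br (nat_lit 10) (nat_lit 1) (.cons (.ev (nat_lit 310698676526245339115618560) (nat_lit 1)) (.cons (.br (nat_lit 11) (nat_lit 1) (.cons (.ev (nat_lit 158767033149788729599535940099) (nat_lit 2)) (.cons (.br (nat_lit 12) (nat_lit 1) (.cons (.ev (nat_lit 20363810205882590973286362186498) (nat_lit 3)) .nil)) .nil))) (.cons (.br (nat_lit 11) (nat_lit 1) (.cons (.br (nat_lit 12) (nat_lit 1) (.cons (.ev (nat_lit 21315781279316851076463762278152) (nat_lit 4)) .nil)) (.cons (.ev (nat_lit 121694768320697374218575512012293) (nat_lit 3)) .nil))) .nil)))) .nil)))),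
 (.br (nat_lit 8) (nat_lit 1) (.cons (.ev (nat_lit 79228167255077847111387054336) (nat_lit 1)) .nil)),
 (.br (nat_lit 12) (nat_lit 1) (.cons (.rf (nat_lit 82) (nat_lit 8971855906)) (.cons (.rf (nat_lit 1339) (nat_lit 426622816290)) (.cons (.br (nat_lit 10) (nat_lit 1) (.cons (.br (nat_lit 8) (nat_lit 1) (.cons (.zr (nat_lit 933300177476022429296887040) (nat_lit 316912650112469644587472846848) (nat_lit 10) (nat_lit 3)) (.cons (.br (nat_lit 11) (nat_lit 1) (.cons (.ev (nat_lit 79541274356885605407810125825) (nat_lit 2)) .nil)) .nil))) (.cons (.ev (nat_lit 79848341459943659580130788099) (nat_lit 2)) (.cons (.br (nat_lit 11) (nat_lit 1) (.cons (.rf (nat_lit 2097) (nat_lit 493858305440582043680)) (.cons (.ev (nat_lit 20361947255898122590582971826433) (nat_lit 1)) .nil))) .nil)))) .nil)))),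
 (.br (nat_lit 12) (nat_lit 1) (.cons (.ev (nat_lit 79228167236703160631715496193) (nat_lit 1)) .nil)),
 (.br (nat_lit 11) (nat_lit 1) (.cons (.rf (nat_lit 84) (nat_lit 14238948417)) (.cons (.br (nat_lit 8) (nat_lit 1) (.cons (.rf (nat_lit 2099) (nat_lit 493858305440582043680)) (.cons (.br (nat_lit 8) (nat_lit 1) (.cons (.rf (nat_lit 2099) (nat_lit 493858305440582043680)) .nil)) .nil))) (.cons (.rf (nat_lit 84) (nat_lit 9037716554)) .nil)))),
 (.br (nat_lit 8) (nat_lit 1) (.cons (.br (nat_lit 11) (nat_lit 1) (.cons (.kr (nat_lit 79228162514264619068520661248) (nat_lit 18446744078021296128) (nat_lit 1) (nat_lit 0)) .nil)) .nil)),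
 (.br (nat_lit 8) (nat_lit 1) (.cons (.br (nat_lit 11) (nat_lit 1) (.cons (.zr (nat_lit 311902861532633020657303553) (nat_lit 14167099730088207319552) (nat_lit 5) (nat_lit 6)) (.cons (.zr (nat_lit 315529657438223180931006466) (nat_lit 28334199460176414639104) (nat_lit 10) (nat_lit 6)) .nil))) (.cons (.br (nat_lit 13) (nat_lit 1) (.cons (.zr (nat_lit 20282409617837216619928481760512) (nat_lit 4835703279021475242180615) (nat_lit 10) (nat_lit 4)) (.cons (.zr (nat_lit 20282409608374036907916441747968) (nat_lit 2417851639510737621090307) (nat_lit 5) (nat_lit 4)) .nil))) .nil))),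
 (.br (nat_lit 12) (nat_lit 1) (.cons (.rf (nat_lit 2102) (nat_lit 493858305440582043680)) (.cons (.br (nat_lit 11) (nat_lit 1) (.cons (.br (nat_lit 10) (nat_lit 1) (.cons (.ev (nat_lit 20678550444631410338705686594308) (nat_lit 3)) .nil)) (.cons (.zr (nat_lit 928455029680207988288127744) (nat_lit 158456329750895440635533197313) (nat_lit 5) (nat_lit 0)) (.cons (.ev (nat_lit 20361637766165935043015788789761) (nat_lit 1)) .nil)))) .nil))),
 (.br (nat_lit 12) (nat_lit 1) (.cons (.rf (nat_lit 2102) (nat_lit 493858305440582043680)) (.cons (.rf (nat_lit 2103) (nat_lit 493858305440582043680)) (.cons (.br (nat_lit 12) (nat_lit 1) (.cons (.rf (nat_lit 2102) (nat_lit 493858305440582043680)) (.cons (.rf (nat_lit 2103) (nat_lit 493858305440582043680)) .nil))) .nil)))),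
 (.br (nat_lit 8) (nat_lit 1) (.cons (.br (nat_lit 8) (nat_lit 1) (.cons (.rf (nat_lit 2104) (nat_lit 493858305440582043680)) (.cons (.zr (nat_lit 3626795905590160273702913) (nat_lit 14167099730088207319552) (nat_lit 5) (nat_lit 6)) .nil))) (.cons (.rf (nat_lit 2104) (nat_lit 493858305440582043680)) (.cons (.br (nat_lit 8) (nat_lit 1) (.cons (.zr (nat_lit 3626795905590160273702913) (nat_lit 14167099730088207319552) (nat_lit 5) (nat_lit 6)) (.cons (.rf (nat_lit 2104) (nat_lit 493858305440582043680)) .nil))) .nil)))),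
 (.br (nat_lit 12) (nat_lit 1) (.cons (.rf (nat_lit 2104) (nat_lit 493858305440582043680)) (.cons (.rf (nat_lit 2105) (nat_lit 493858305440582043680)) (.cons (.br (nat_lit 12) (nat_lit 1) (.cons (.rf (nat_lit 2104) (nat_lit 493858305440582043680)) (.cons (.zr (nat_lit 79228167236630822662229197568) (nat_lit 2417851639510737621090307) (nat_lit 5) (nat_lit 4)) .nil))) .nil)))),
 (.br (nat_lit 12) (nat_lit 1) (.cons (.rf (nat_lit 2104) (nat_lit 493858305440582043680)) (.cons (.rf (nat_lit 2105) (nat_lit 493858305440582043680)) (.cons (.rf (nat_lit 2106) (nat_lit 493858305440582043680)) (.cons (.br (nat_lit 12) (nat_lit 1) (.cons (.rf (nat_lit 2104) (nat_lit 493858305440582043680)) (.cons (.rf (nat_lit 2105) (nat_lit 493858305440582043680)) (.cons (.rf (nat_lit 2106) (nat_lit 493858305440582043680)) .nil)))) .nil))))),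
 (.br (nat_lit 1) (nat_lit 1) (.cons (.rf (nat_lit 84) (nat_lit 14336206887)) (.cons (.rf (nat_lit 84) (nat_lit 14238943271)) (.cons (.br (nat_lit 8) (nat_lit 1) (.cons (.br (nat_lit 13) (nat_lit 1) (.cons (.br (nat_lit 12) (nat_lit 1) (.cons (.ev (nat_lit 21632111274462480585962274232094) (nat_lit 5)) .nil)) (.cons (.br (nat_lit 11) (nat_lit 1) (.cons (.ev (nat_lit 21632111274462480585962274232094) (nat_lit 5)) .nil)) .nil))) (.cons (.br (nat_lit 12) (nat_lit 1) (.cons (.br (nat_lit 12) (nat_lit 1) (.cons (.zr (nat_lit 1547425049467013313914208256) (nat_lit 158458747639428160240308191745) (nat_lit 5) (nat_lit 6)) .nil)) (.cons (.br (nat_lit 11) (nat_lit 1) (.cons (.zr (nat_lit 1547425049467013313914208256) (nat_lit 158458747639428160240308191745) (nat_lit 5) (nat_lit 6)) .nil)) .nil))) .nil))) (.cons (.br (nat_lit 8) (nat_lit 1) (.cons (.rf (nat_lit 1858) (nat_lit 493858305440582043680)) (.cons (.ev (nat_lit 20282410812577562096174775664896) (nat_lit 1)) .nil))) .nil))))),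
 (.br (nat_lit 12) (nat_lit 1) (.cons (.ev (nat_lit 79228167236703160631715496193) (nat_lit 1)) .nil)),
 (.br (nat_lit 8) (nat_lit 1) (.cons (.rf (nat_lit 2107) (nat_lit 493858305440582043680)) (.cons (.rf (nat_lit 2108) (nat_lit 493858305440582043680)) (.cons (.br (nat_lit 1) (nat_lit 1) (.cons (.br (nat_lit 11) (nat_lit 1) (.cons (.rf (nat_lit 2109) (nat_lit 493858305440582043680)) (.cons (.ev (nat_lit 20282719088661563827713820655873) (nat_lit 1)) .nil))) (.cons (.br (nat_lit 12) (nat_lit 1) (.cons (.br (nat_lit 11) (nat_lit 1) (.cons (.ev (nat_lit 22265917269394834859480407934742) (nat_lit 5)) .nil)) (.cons (.rf (nat_lit 2108) (nat_lit 415521255186946432329)) .nil))) (.cons (.ev (nat_lit 20282409608392483932365599604736) (nat_lit 1)) .nil)))) .nil)))),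
 (.br (nat_lit 8) (nat_lit 1) (.cons (.rf (nat_lit 2107) (nat_lit 493858305440582043680)) (.cons (.rf (nat_lit 2108) (nat_lit 493858305440582043680)) (.cons (.rf (nat_lit 2110) (nat_lit 493858305440582043680)) (.cons (.br (nat_lit 8) (nat_lit 1) (.cons (.ev (nat_lit 18519084242235883776) (nat_lit 1)) (.cons (.rf (nat_lit 2108) (nat_lit 493858305440582043680)) (.cons (.rf (nat_lit 2110) (nat_lit 493858305440582043680)) .nil)))) .nil)))))]

theorem c68 : chkAll C T R L68 (nat_lit 2087) = true := by decide +kernel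

theorem l68 : (nat_lit 2087) + L68.length = (nat_lit 2112) := by decide +kernel

/-- part of the certificates -/
def L69 : List Prf := [(.br (nat_lit 8) (nat_lit 1) (.cons (.rf (nat_lit 2107) (nat_lit 493858305440582043680)) (.cons (.rf (nat_lit 2111) (nat_lit 493858305440582043680)) (.cons (.br (nat_lit 12) (nat_lit 1) (.cons (.rf (nat_lit 2111) (nat_lit 415521255186946432329)) (.cons (.rf (nat_lit 2107) (nat_lit 415521255186946432329)) (.cons (.br (nat_lit 10) (nat_lit 1) (.cons (.kr (nat_lit 309485009893402662779486208) (nat_lit 1208944266359802395885568) (nat_lit 3) (nat_lit 0)) (.cons (.rf (nat_lit 2107) (nat_lit 415521255186946432329)) (.cons (.ev (nat_lit 1213666704900270374060033) (nat_lit 1)) .nil)))) (.cons (.br (nat_lit 10) (nat_lit 1) (.cons (.zr (nat_lit 60847232437732470115729278173184) (nat_lit 4759260253595864399873) (nat_lit 5) (nat_lit 9)) (.cons (.ev (nat_lit 20282720302309750206683322318848) (nat_lit 1)) (.cons (.rf (nat_lit 2107) (nat_lit 415521255186946432329)) .nil)))) .nil)))))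 .nil)))),
 (.br (nat_lit 8) (nat_lit 1) (.cons (.rf (nat_lit 2107) (nat_lit 493858305440582043680)) (.cons (.rf (nat_lit 2111) (nat_lit 493858305440582043680)) (.cons (.rf (nat_lit 2112) (nat_lit 493858305440582043680)) (.cons (.br (nat_lit 8) (nat_lit 1) (.cons (.rf (nat_lit 2107) (nat_lit 493858305440582043680)) (.cons (.rf (nat_lit 2111) (nat_lit 493858305440582043680)) (.cons (.rf (nat_lit 2112) (nat_lit 493858305440582043680)) .nil)))) .nil))))),
 (.br (nat_lit 8) (nat_lit 1) (.cons (.rf (nat_lit 2107) (nat_lit 493858305440582043680)) (.cons (.rf (nat_lit 2111) (nat_lit 493858305440582043680)) (.cons (.rf (nat_lit 2113) (nat_lit 493858305440582043680)) (.cons (.br (nat_lit 8) (nat_lit 1) (.cons (.rf (nat_lit 2107) (nat_lit 493858305440582043680)) (.cons (.rf (nat_lit 2111) (nat_lit 493858305440582043680)) (.cons (.rf (nat_lit 2113) (nat_lit 493858305440582043680)) .nil)))) .nil))))),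
 (.br (nat_lit 7) (nat_lit 1) (.cons (.rf (nat_lit 2048) (nat_lit 493858305268783356960)) (.cons (.rf (nat_lit 2095) (nat_lit 493858305268783356960)) (.cons (.rf (nat_lit 2048) (nat_lit 415521255186946432329)) (.cons (.br (nat_lit 1) (nat_lit 1) (.cons (.br (nat_lit 8) (nat_lit 1) (.cons (.rf (nat_lit 1343) (nat_lit 422360390721)) (.cons (.rf (nat_lit 1339) (nat_lit 289183862818)) (.cons (.rf (nat_lit 2096) (nat_lit 493858305440582043680)) (.cons (.br (nat_lit 8) (nat_lit 1) (.cons (.rf (nat_lit 82) (nat_lit 14336370722)) (.cons (.rf (nat_lit 1339) (nat_lit 289183862818)) (.cons (.rf (nat_lit 2096) (nat_lit 493858305440582043680)) .nil)))) .nil))))) (.cons (.rf (nat_lit 29) (nat_lit 11766081)) (.cons (.ev (nat_lit 309485009821627643229896704) (nat_lit 1)) (.cons (.br (nat_lit 12) (nat_lit 1) (.cons (.rf (nat_lit 2098) (nat_lit 493858305440582043680)) (.cons (.rf (nat_lit 1343) (nat_lit 275288270882)) (.cons (.rf (nat_lit 1339) (nat_lit 426622816290)) (.cons (.br (nat_lit 12) (nat_lit 1) (.cons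 (.rf (nat_lit 2098) (nat_lit 493858305440582043680)) (.cons (.ev (nat_lit 79229371440156010920563245056) (nat_lit 1)) (.cons (.rf (nat_lit 1339) (nat_lit 426622816290)) .nil)))) .nil))))) (.cons (.br (nat_lit 10) (nat_lit 1) (.cons (.rf (nat_lit 2100) (nat_lit 493858305440582043680)) (.cons (.rf (nat_lit 58) (nat_lit 11869249)) (.cons (.br (nat_lit 11) (nat_lit 1) (.cons (.br (nat_lit 8) (nat_lit 1) (.cons (.rf (nat_lit 2101) (nat_lit 15433070910038444064)) (.cons (.br (nat_lit 8) (nat_lit 1) (.cons (.rf (nat_lit 2101) (nat_lit 15433070910038444064)) .nil)) .nil))) (.cons (.rf (nat_lit 84) (nat_lit 14373166145)) (.cons (.rf (nat_lit 84) (nat_lit 13332683850)) .nil)))) (.cons (.rf (nat_lit 1343) (nat_lit 275321825314)) .nil))))) .nil)))))) (.cons (.rf (nat_lit 2095) (nat_lit 415521255186946432329)) (.cons (.br (nat_lit 8) (nat_lit 1) (.cons (.rf (nat_lit 2107) (nat_lit 493858305440582043680)) (.cons (.rf (nat_lit 2111) (nat_lit 493858305440582043680)) (.cons (.rf (nat_lit 2113) (nat_lit 493858305440582043680))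 (.cons (.rf (nat_lit 2114) (nat_lit 493858305440582043680)) (.cons (.br (nat_lit 8) (nat_lit 1) (.cons (.rf (nat_lit 2107) (nat_lit 493858305440582043680)) (.cons (.rf (nat_lit 2111) (nat_lit 493858305440582043680)) (.cons (.rf (nat_lit 2113) (nat_lit 493858305440582043680)) (.cons (.rf (nat_lit 2114) (nat_lit 493858305440582043680)) .nil))))) .nil)))))) .nil))))))),
 (.br (nat_lit 8) (nat_lit 1) (.cons (.br (nat_lit 11) (nat_lit 1) (.cons (.kr (nat_lit 79537647524157740256306659584) (nat_lit 20282410812595936782650135609344) (nat_lit 1) (nat_lit 0)) .nil)) .nil)),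
 (.br (nat_lit 12) (nat_lit 1) (.cons (.br (nat_lit 8) (nat_lit 1) (.cons (.rf (nat_lit 2116) (nat_lit 493858305440582043680)) (.cons (.br (nat_lit 8) (nat_lit 1) (.cons (.rf (nat_lit 2116) (nat_lit 493858305440582043680)) .nil)) .nil))) (.cons (.rf (nat_lit 31) (nat_lit 449030209)) .nil))),
 (.br (nat_lit 7) (nat_lit 1) (.cons (.rf (nat_lit 31) (nat_lit 411376705)) (.cons (.ev (nat_lit 1213648258436572129591296) (nat_lit 1)) (.cons (.ev (nat_lit 4722438540467978109184) (nat_lit 1)) (.cons (.rf (nat_lit 2117) (nat_lit 493858305440582043680)) .nil))))),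
 (.br (nat_lit 8) (nat_lit 1) (.cons (.rf (nat_lit 29) (nat_lit 8723521)) (.cons (.br (nat_lit 10) (nat_lit 1) (.cons (.ev (nat_lit 158457543473300858906876380420) (nat_lit 3)) (.cons (.br (nat_lit 11) (nat_lit 1) (.cons (.ev (nat_lit 20678868392103307750476106367748) (nat_lit 3)) .nil)) .nil))) (.cons (.rf (nat_lit 2037) (nat_lit 493858305440581027872)) .nil)))),
 (.br (nat_lit 7) (nat_lit 1) (.cons (.rf (nat_lit 29) (nat_lit 8723521)) (.cons (.br (nat_lit 8) (nat_lit 1) (.cons (.ev (nat_lit 80160249099038891399662600194) (nat_lit 2)) (.cons (.br (nat_lit 11) (nat_lit 1) (.cons (.ev (nat_lit 20679482516975225564489551512836) (nat_lit 3)) .nil)) .nil))) (.cons (.br (nat_lit 13) (nat_lit 1) (.cons (.ev (nat_lit 20361638975091826716338513051905) (nat_lit 1)) (.cons (.ev (nat_lit 20361637766166006820234361569281) (nat_lit 1)) .nil))) .nil)))),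
 (.br (nat_lit 8) (nat_lit 1) (.cons (.rf (nat_lit 2119) (nat_lit 493858305440582043680)) (.cons (.rf (nat_lit 2120) (nat_lit 493858305440582043680)) (.cons (.br (nat_lit 10) (nat_lit 1) (.cons (.br (nat_lit 11) (nat_lit 1) (.cons (.zr (nat_lit 928455029680207988288127744) (nat_lit 158456329750895440635533197313) (nat_lit 5) (nat_lit 0)) .nil)) (.cons (.br (nat_lit 7) (nat_lit 1) (.cons (.zr (nat_lit 928455029680207988288127744) (nat_lit 158456329750895440635533197313) (nat_lit 5) (nat_lit 0)) .nil)) (.cons (.ev (nat_lit 1213666633123051801149441) (nat_lit 1)) .nil)))) .nil)))),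
 (.br (nat_lit 12) (nat_lit 1) (.cons (.ev (nat_lit 4722438540467978109184) (nat_lit 1)) (.cons (.rf (nat_lit 2118) (nat_lit 493858305440582043680)) (.cons (.br (nat_lit 8) (nat_lit 1) (.cons (.rf (nat_lit 2119) (nat_lit 493858305440582043680)) (.cons (.rf (nat_lit 2120) (nat_lit 493858305440582043680)) (.cons (.rf (nat_lit 2121) (nat_lit 493858305440582043680)) (.cons (.br (nat_lit 8) (nat_lit 1) (.cons (.rf (nat_lit 2037) (nat_lit 493858305440581027872)) (.cons (.rf (nat_lit 2120) (nat_lit 493858305440582043680)) (.cons (.rf (nat_lit 2121) (nat_lit 493858305440582043680)) .nil)))) .nil))))) .nil)))),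
 (.br (nat_lit 12) (nat_lit 1) (.cons (.ev (nat_lit 4722438540467978109184) (nat_lit 1)) (.cons (.rf (nat_lit 2118) (nat_lit 493858305440582043680)) (.cons (.rf (nat_lit 2122) (nat_lit 493858305440582043680)) (.cons (.br (nat_lit 12) (nat_lit 1) (.cons (.ev (nat_lit 4722438540467978109184) (nat_lit 1)) (.cons (.rf (nat_lit 2118) (nat_lit 493858305440582043680)) (.cons (.rf (nat_lit 2122) (nat_lit 493858305440582043680)) .nil)))) .nil))))),
 (.br (nat_lit 8) (nat_lit 1) (.cons (.br (nat_lit 11) (nat_lit 1) (.cons (.kr (nat_lit 79537647524157740256306659584) (nat_lit 20282410812595936782650135609344) (nat_lit 1) (nat_lit 0)) .nil)) .nil)),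
 (.br (nat_lit 7) (nat_lit 1) (.cons (.br (nat_lit 8) (nat_lit 1) (.cons (.rf (nat_lit 2124) (nat_lit 493858305440582043680)) (.cons (.br (nat_lit 8) (nat_lit 1) (.cons (.rf (nat_lit 2124) (nat_lit 493858305440582043680)) .nil)) .nil))) (.cons (.rf (nat_lit 31) (nat_lit 414522433)) (.cons (.rf (nat_lit 31) (nat_lit 449030209)) .nil)))),
 (.br (nat_lit 12) (nat_lit 1) (.cons (.ev (nat_lit 4722438540467978109184) (nat_lit 1)) (.cons (.rf (nat_lit 2123) (nat_lit 493858305440582043680)) (.cons (.br (nat_lit 12) (nat_lit 1) (.cons (.ev (nat_lit 4722438540467978109184) (nat_lit 1)) (.cons (.rf (nat_lit 2123) (nat_lit 493858305440582043680)) (.cons (.rf (nat_lit 2125) (nat_lit 493858305440582043680)) .nil)))) (.cons (.br (nat_lit 12) (nat_lit 1) (.cons (.ev (nat_lit 4722438540467978109184) (nat_lit 1)) (.cons (.rf (nat_lit 2123) (nat_lit 493858305440582043680)) (.cons (.rf (nat_lit 2125) (nat_lit 493858305440582043680)) .nil)))) .nil))))),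
 (.br (nat_lit 12) (nat_lit 1) (.cons (.ev (nat_lit 4722438540467978109184) (nat_lit 1)) (.cons (.rf (nat_lit 2123) (nat_lit 493858305440582043680)) (.cons (.rf (nat_lit 2126) (nat_lit 493858305440582043680)) (.cons (.br (nat_lit 12) (nat_lit 1) (.cons (.ev (nat_lit 4722438540467978109184) (nat_lit 1)) (.cons (.rf (nat_lit 2123) (nat_lit 493858305440582043680)) (.cons (.rf (nat_lit 2125) (nat_lit 493858305440582043680)) .nil)))) .nil))))),
 (.br (nat_lit 12) (nat_lit 1) (.cons (.ev (nat_lit 4722438540467978109184) (nat_lit 1)) (.cons (.rf (nat_lit 2123) (nat_lit 493858305440582043680)) (.cons (.rf (nat_lit 2126) (nat_lit 493858305440582043680)) (.cons (.rf (nat_lit 2127) (nat_lit 493858305440582043680)) (.cons (.br (nat_lit 12) (nat_lit 1) (.cons (.ev (nat_lit 4722438540467978109184) (nat_lit 1)) (.cons (.rf (nat_lit 2123) (nat_lit 493858305440582043680)) (.cons (.rf (nat_lit 2126) (nat_lit 493858305440582043680)) (.cons (.rf (nat_lit 2127) (nat_lit 493858305440582043680)) .nil))))) .nil)))))),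
 (.br (nat_lit 11) (nat_lit 1) (.cons (.rf (nat_lit 1339) (nat_lit 392259767521)) (.cons (.rf (nat_lit 1339) (nat_lit 392159104321)) (.cons (.br (nat_lit 7) (nat_lit 1) (.cons (.rf (nat_lit 29) (nat_lit 8455495)) (.cons (.br (nat_lit 10) (nat_lit 1) (.cons (.ev (nat_lit 79538856468424380438479438080) (nat_lit 1)) (.cons (.br (nat_lit 12) (nat_lit 1) (.cons (.ev (nat_lit 79538861172343838854654984448) (nat_lit 1)) .nil)) .nil))) (.cons (.br (nat_lit 13) (nat_lit 1) (.cons (.zr (nat_lit 1208925820459054121615362) (nat_lit 40564819207321787591976802123776) (nat_lit 5) (nat_lit 6)) (.cons (.zr (nat_lit 101412048018258352964161237221634) (nat_lit 1237944835727072023147446272) (nat_lit 10) (nat_lit 3)) .nil))) .nil)))) .nil)))),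
 (.br (nat_lit 11) (nat_lit 1) (.cons (.kr (nat_lit 79537647524085682662268797184) (nat_lit 20282410812596008840244173471744) (nat_lit 1) (nat_lit 0)) .nil)),
 (.br (nat_lit 13) (nat_lit 1) (.cons (.rf (nat_lit 1339) (nat_lit 458831763681)) (.cons (.rf (nat_lit 1339) (nat_lit 458731100481)) (.cons (.br (nat_lit 7) (nat_lit 1) (.cons (.rf (nat_lit 29) (nat_lit 8455495)) (.cons (.br (nat_lit 10) (nat_lit 1) (.cons (.ev (nat_lit 310693935640960797427958016) (nat_lit 1)) (.cons (.rf (nat_lit 2130) (nat_lit 493858305440582043680)) .nil))) (.cons (.br (nat_lit 10) (nat_lit 1) (.cons (.br (nat_lit 11) (nat_lit 1) (.cons (.zr (nat_lit 928455029464035206241648644) (nat_lit 158456329843129161004064178688) (nat_lit 5) (nat_lit 6)) .nil)) (.cons (.ev (nat_lit 20361637770906820327557476450305) (nat_lit 1)) .nil))) .nil)))) .nil)))),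
 (.br (nat_lit 11) (nat_lit 1) (.cons (.rf (nat_lit 31) (nat_lit 377719105)) (.cons (.br (nat_lit 8) (nat_lit 1) (.cons (.rf (nat_lit 29) (nat_lit 8620353)) (.cons (.ev (nat_lit 310693954087704871137509633) (nat_lit 1)) (.cons (.br (nat_lit 7) (nat_lit 1) (.cons (.br (nat_lit 12) (nat_lit 1) (.cons (.zr (nat_lit 625019371469224072630501377) (nat_lit 633825300114114700787006505728) (nat_lit 20) (nat_lit 6)) .nil)) (.cons (.ev (nat_lit 309489750706629610429218816) (nat_lit 1)) .nil))) .nil)))) .nil))),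
 (.br (nat_lit 11) (nat_lit 1) (.cons (.rf (nat_lit 31) (nat_lit 377719105)) (.cons (.rf (nat_lit 2132) (nat_lit 493858305440582043680)) (.cons (.br (nat_lit 11) (nat_lit 1) (.cons (.rf (nat_lit 31) (nat_lit 377719105)) (.cons (.rf (nat_lit 2132) (nat_lit 493858305440582043680)) .nil))) .nil)))),
 (.br (nat_lit 11) (nat_lit 1) (.cons (.br (nat_lit 12) (nat_lit 1) (.cons (.kr (nat_lit 79537647524085682662268797184) (nat_lit 20282410812596008840244173471744) (nat_lit 1) (nat_lit 0)) .nil)) .nil)),
 (.br (nat_lit 8) (nat_lit 1) (.cons (.rf (nat_lit 29) (nat_lit 8620353)) (.cons (.rf (nat_lit 2133) (nat_lit 493858305440582043680)) (.cons (.br (nat_lit 7) (nat_lit 1) (.cons (.br (nat_lit 11) (nat_lit 1) (.cons (.rf (nat_lit 2134) (nat_lit 493858305440582043680)) (.cons (.br (nat_lit 12) (nat_lit 1) (.cons (.rf (nat_lit 2134) (nat_lit 493858305440582043680)) (.cons (.zr (nat_lit 20282410826744661544779450220544) (nat_lit 73787541452404817922) (nat_lit 10) (nat_lit 9)) .nil))) .nil))) (.cons (.rf (nat_lit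 31) (nat_lit 411273537)) (.cons (.rf (nat_lit 31) (nat_lit 444827969)) .nil)))) .nil)))),
 (.br (nat_lit 8) (nat_lit 1) (.cons (.br (nat_lit 12) (nat_lit 1) (.cons (.br (nat_lit 12) (nat_lit 1) (.cons (.ev (nat_lit 21315164717888005627571044025090) (nat_lit 4)) .nil)) (.cons (.br (nat_lit 11) (nat_lit 1) (.cons (.ev (nat_lit 21315164717888005627571044025090) (nat_lit 4)) .nil)) .nil))) (.cons (.br (nat_lit 11) (nat_lit 1) (.cons (.br (nat_lit 11) (nat_lit 1) (.cons (.ev (nat_lit 20680099059772140044411203682560) (nat_lit 3)) .nil)) (.cons (.br (nat_lit 11) (nat_lit 1) (.cons (.ev (nat_lit 20680099059772140044411203682560) (nat_lit 3)) .nil)) .nil))) .nil))),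
 (.br (nat_lit 13) (nat_lit 1) (.cons (.rf (nat_lit 2136) (nat_lit 493858305440582043680)) (.cons (.br (nat_lit 8) (nat_lit 1) (.cons (.br (nat_lit 11) (nat_lit 1) (.cons (.ev (nat_lit 22114284140582405526870636694814) (nat_lit 5)) .nil)) (.cons (.ev (nat_lit 20282719088661564108089285738753) (nat_lit 1)) (.cons (.br (nat_lit 10) (nat_lit 1) (.cons (.ev (nat_lit 20678865955362345020458325704960) (nat_lit 3)) .nil)) .nil)))) .nil))),
 (.br (nat_lit 13) (nat_lit 1) (.cons (.rf (nat_lit 2136) (nat_lit 493858305440582043680)) (.cons (.rf (nat_lit 2137) (nat_lit 493858305440582043680)) (.cons (.br (nat_lit 13) (nat_lit 1) (.cons (.rf (nat_lit 2136) (nat_lit 493858305440582043680)) (.cons (.rf (nat_lit 2137) (nat_lit 493858305440582043680)) .nil))) .nil)))),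
 (.br (nat_lit 8) (nat_lit 1) (.cons (.br (nat_lit 11) (nat_lit 1) (.cons (.ev (nat_lit 79847142015605821790524277251) (nat_lit 2)) (.cons (.br (nat_lit 12) (nat_lit 1) (.cons (.ev (nat_lit 20682582231221600778176587565826) (nat_lit 4)) .nil)) .nil))) (.cons (.rf (nat_lit 2138) (nat_lit 493858305440582043680)) .nil))),
 (.br (nat_lit 8) (nat_lit 1) (.cons (.rf (nat_lit 2139) (nat_lit 493858305440582043680)) (.cons (.br (nat_lit 8) (nat_lit 1) (.cons (.rf (nat_lit 2139) (nat_lit 493858305440582043680)) (.cons (.rf (nat_lit 2138) (nat_lit 493858305440582043680)) .nil))) (.cons (.rf (nat_lit 2138) (nat_lit 493858305440582043680)) .nil))))]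

theorem c69 : chkAll C T R L69 (nat_lit 2112) = true := by decide +kernel

theorem l69 : (nat_lit 2112) + L69.length = (nat_lit 2141) := by decide +kernel

/-- part of the certificates -/
def L70 : List Prf := [(.br (nat_lit 13) (nat_lit 1) (.cons (.rf (nat_lit 2138) (nat_lit 493858305440582043680)) (.cons (.rf (nat_lit 2140) (nat_lit 493858305440582043680)) (.cons (.br (nat_lit 13) (nat_lit 1) (.cons (.rf (nat_lit 2138) (nat_lit 493858305440582043680)) (.cons (.rf (nat_lit 2140) (nat_lit 493858305440582043680)) .nil))) .nil)))),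
 (.br (nat_lit 13) (nat_lit 1) (.cons (.rf (nat_lit 2138) (nat_lit 493858305440582043680)) (.cons (.rf (nat_lit 2140) (nat_lit 493858305440582043680)) (.cons (.rf (nat_lit 2141) (nat_lit 493858305440582043680)) (.cons (.br (nat_lit 13) (nat_lit 1) (.cons (.rf (nat_lit 2138) (nat_lit 493858305440582043680)) (.cons (.rf (nat_lit 2140) (nat_lit 493858305440582043680)) (.cons (.rf (nat_lit 2141) (nat_lit 493858305440582043680)) .nil)))) .nil))))),
 (.br (nat_lit 7) (nat_lit 1) (.cons (.rf (nat_lit 84) (nat_lit 12222536769)) (.cons (.br (nat_lit 8) (nat_lit 1) (.cons (.rf (nat_lit 84) (nat_lit 13164944426)) (.cons (.br (nat_lit 11) (nat_lit 1) (.cons (.zr (nat_lit 79228176681435843796584955904) (nat_lit 73787541452404817922) (nat_lit 10) (nat_lit 9)) (.cons (.br (nat_lit 12) (nat_lit 1) (.cons (.ev (nat_lit 79850773497056463163238843139) (nat_lit 2)) .nil)) .nil))) .nil))) (.cons (.rf (nat_lit 84) (nat_lit 12092254433)) (.cons (.br (nat_lit 8) (nat_lit 1) (.cons (.br (nat_lit 11) (nat_lit 1) (.cons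 (.zr (nat_lit 1029972157369874709493449753856) (nat_lit 3094902044391973666165161985) (nat_lit 30) (nat_lit 4)) (.cons (.br (nat_lit 12) (nat_lit 1) (.cons (.ev (nat_lit 20838562628800172414241905903366) (nat_lit 3)) .nil)) .nil))) (.cons (.br (nat_lit 11) (nat_lit 1) (.cons (.br (nat_lit 11) (nat_lit 1) (.cons (.ev (nat_lit 20363191245344574171878021858560) (nat_lit 3)) .nil)) (.cons (.br (nat_lit 11) (nat_lit 1) (.cons (.ev (nat_lit 20363191245344574171878021858560) (nat_lit 3)) .nil)) .nil))) .nil))) .nil))))),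
 (.br (nat_lit 13) (nat_lit 1) (.cons (.br (nat_lit 10) (nat_lit 1) (.cons (.ev (nat_lit 22429953929894585530477645596944) (nat_lit 5)) .nil)) (.cons (.ev (nat_lit 20282409608374036907916424970241) (nat_lit 1)) (.cons (.ev (nat_lit 20361637766166006820234361569281) (nat_lit 1)) .nil)))),
 (.br (nat_lit 7) (nat_lit 1) (.cons (.br (nat_lit 11) (nat_lit 1) (.cons (.ev (nat_lit 20680103895401342170357005747460) (nat_lit 3)) .nil)) (.cons (.br (nat_lit 10) (nat_lit 1) (.cons (.ev (nat_lit 20839179190523589307527313294084) (nat_lit 3)) .nil)) (.cons (.rf (nat_lit 2144) (nat_lit 493858305440582043680)) .nil)))),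
 (.br (nat_lit 13) (nat_lit 1) (.cons (.ev (nat_lit 20282409608374036907916424970241) (nat_lit 1)) (.cons (.rf (nat_lit 2145) (nat_lit 493858305440582043680)) (.cons (.br (nat_lit 7) (nat_lit 1) (.cons (.ev (nat_lit 20680725321163105053328567764232) (nat_lit 4)) .nil)) .nil)))),
 (.br (nat_lit 12) (nat_lit 1) (.cons (.rf (nat_lit 2142) (nat_lit 493858305440582043680)) (.cons (.rf (nat_lit 2143) (nat_lit 493858305440582043680)) (.cons (.br (nat_lit 13) (nat_lit 1) (.cons (.rf (nat_lit 2144) (nat_lit 493858305440582043680)) (.cons (.rf (nat_lit 2145) (nat_lit 493858305440582043680)) (.cons (.rf (nat_lit 2146) (nat_lit 493858305440582043680)) (.cons (.br (nat_lit 13) (nat_lit 1) (.cons (.ev (nat_lit 20361637766166006820234361569281) (nat_lit 1)) (.cons (.rf (nat_lit 2145) (nat_lit 493858305440582043680)) (.cons (.rf (nat_lit 2146) (nat_lit 493858305440582043680)) .nil)))) .nil))))) .nil)))),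
 (.br (nat_lit 12) (nat_lit 1) (.cons (.rf (nat_lit 2142) (nat_lit 493858305440582043680)) (.cons (.rf (nat_lit 2143) (nat_lit 493858305440582043680)) (.cons (.rf (nat_lit 2147) (nat_lit 493858305440582043680)) (.cons (.br (nat_lit 12) (nat_lit 1) (.cons (.rf (nat_lit 2142) (nat_lit 493858305440582043680)) (.cons (.rf (nat_lit 2143) (nat_lit 493858305440582043680)) (.cons (.rf (nat_lit 2147) (nat_lit 493858305440582043680)) .nil)))) .nil))))),
 (.br (nat_lit 12) (nat_lit 1) (.cons (.ev (nat_lit 79228162514336395191876845824) (nat_lit 1)) (.cons (.rf (nat_lit 2148) (nat_lit 493858305440582043680)) (.cons (.br (nat_lit 7) (nat_lit 1) (.cons (.br (nat_lit 8) (nat_lit 1) (.cons (.ev (nat_lit 1213666705180645839142913) (nat_lit 1)) (.cons (.ev (nat_lit 79229371458530977775699886081) (nat_lit 1)) .nil))) (.cons (.ev (nat_lit 79537647524085682666580541441) (nat_lit 1)) (.cons (.br (nat_lit 11) (nat_lit 1) (.cons (.br (nat_lit 8) (nat_lit 1) (.cons (.ev (nat_lit 20837936424225757864919392782086) (nat_lit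 3)) .nil)) (.cons (.zr (nat_lit 61877204595047004593001565521154) (nat_lit 3094916211707595057231167488) (nat_lit 30) (nat_lit 4)) .nil))) .nil)))) .nil)))),
 (.br (nat_lit 12) (nat_lit 1) (.cons (.rf (nat_lit 2142) (nat_lit 493858305440582043680)) (.cons (.rf (nat_lit 2148) (nat_lit 493858305440582043680)) (.cons (.rf (nat_lit 2149) (nat_lit 493858305440582043680)) (.cons (.br (nat_lit 12) (nat_lit 1) (.cons (.rf (nat_lit 2142) (nat_lit 493858305440582043680)) (.cons (.rf (nat_lit 2148) (nat_lit 493858305440582043680)) (.cons (.rf (nat_lit 2149) (nat_lit 493858305440582043680)) .nil)))) .nil))))),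
 (.br (nat_lit 12) (nat_lit 1) (.cons (.rf (nat_lit 2142) (nat_lit 493858305440582043680)) (.cons (.rf (nat_lit 2148) (nat_lit 493858305440582043680)) (.cons (.rf (nat_lit 2150) (nat_lit 493858305440582043680)) (.cons (.br (nat_lit 12) (nat_lit 1) (.cons (.rf (nat_lit 2142) (nat_lit 493858305440582043680)) (.cons (.rf (nat_lit 2148) (nat_lit 493858305440582043680)) (.cons (.rf (nat_lit 2150) (nat_lit 493858305440582043680)) .nil)))) .nil))))),
 (.br (nat_lit 8) (nat_lit 1) (.cons (.br (nat_lit 12) (nat_lit 1) (.cons (.ev (nat_lit 20361948469675796183481422644480) (nat_lit 3)) .nil)) .nil)),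
 (.br (nat_lit 8) (nat_lit 1) (.cons (.br (nat_lit 13) (nat_lit 1) (.cons (.br (nat_lit 12) (nat_lit 1) (.cons (.ev (nat_lit 79850759348404041215419482369) (nat_lit 2)) .nil)) (.cons (.br (nat_lit 11) (nat_lit 1) (.cons (.ev (nat_lit 79850759348404041215419482369) (nat_lit 2)) .nil)) .nil))) (.cons (.br (nat_lit 11) (nat_lit 1) (.cons (.br (nat_lit 12) (nat_lit 1) (.cons (.ev (nat_lit 20839174354746236768239531394816) (nat_lit 3)) .nil)) (.cons (.zr (nat_lit 1243984668386549645533381124) (nat_lit 141976867235062126454690944122880) (nat_lit 20) (nat_lit 6)) .nil))) .nil))),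
 (.br (nat_lit 8) (nat_lit 1) (.cons (.rf (nat_lit 2153) (nat_lit 493858305440582043680)) (.cons (.br (nat_lit 11) (nat_lit 1) (.cons (.br (nat_lit 11) (nat_lit 1) (.cons (.ev (nat_lit 20361953305305000561227038392580) (nat_lit 3)) .nil)) (.cons (.br (nat_lit 11) (nat_lit 1) (.cons (.ev (nat_lit 20361953305305000561227038392580) (nat_lit 3)) .nil)) .nil))) .nil))),
 (.br (nat_lit 10) (nat_lit 1) (.cons (.rf (nat_lit 1732) (nat_lit 410189587982420000)) (.cons (.br (nat_lit 11) (nat_lit 1) (.cons (.rf (nat_lit 84) (nat_lit 13164947681)) (.cons (.rf (nat_lit 84) (nat_lit 9004165346)) (.cons (.br (nat_lit 8) (nat_lit 1) (.cons (.rf (nat_lit 2152) (nat_lit 493858305440582043680)) (.cons (.br (nat_lit 8) (nat_lit 1) (.cons (.rf (nat_lit 2152) (nat_lit 493858305440582043680)) .nil)) .nil))) .nil)))) (.cons (.rf (nat_lit 2001) (nat_lit 373105259800791072)) (.cons (.br (nat_lit 8) (nat_lit 1) (.cons (.rf (nat_lit 2153) (nat_lit 493858305440582043680)) (.cons (.rf (nat_lit 2154) (nat_lit 493858305440582043680))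 (.cons (.br (nat_lit 8) (nat_lit 1) (.cons (.rf (nat_lit 2153) (nat_lit 493858305440582043680)) (.cons (.rf (nat_lit 2154) (nat_lit 493858305440582043680)) .nil))) .nil)))) .nil))))),
 (.br (nat_lit 7) (nat_lit 1) (.cons (.rf (nat_lit 84) (nat_lit 13262724161)) (.cons (.rf (nat_lit 84) (nat_lit 13164947681)) (.cons (.br (nat_lit 8) (nat_lit 1) (.cons (.rf (nat_lit 84) (nat_lit 12092251178)) (.cons (.br (nat_lit 12) (nat_lit 1) (.cons (.ev (nat_lit 79229376162450436191875563521) (nat_lit 1)) (.cons (.ev (nat_lit 79228167255149904705425047808) (nat_lit 1)) .nil))) .nil))) (.cons (.br (nat_lit 8) (nat_lit 1) (.cons (.br (nat_lit 11) (nat_lit 1) (.cons (.ev (nat_lit 79850768793136441797143167235) (nat_lit 2)) (.cons (.br (nat_lit 12) (nat_lit 1) (.cons (.ev (nat_lit 20997028653643100895085113314062) (nat_lit 4)) .nil)) .nil))) (.cons (.br (nat_lit 12) (nat_lit 1) (.cons (.br (nat_lit 12) (nat_lit 1) (.cons (.ev (nat_lit 22740686570051819801102767557916) (nat_lit 5)) .nil)) (.cons (.br (nat_lit 11)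 (nat_lit 1) (.cons (.ev (nat_lit 22740686570051819801102767557916) (nat_lit 5)) .nil)) .nil))) .nil))) .nil))))),
 (.br (nat_lit 11) (nat_lit 1) (.cons (.rf (nat_lit 2155) (nat_lit 493858305440582043680)) (.cons (.rf (nat_lit 2156) (nat_lit 493858305440582043680)) (.cons (.br (nat_lit 10) (nat_lit 1) (.cons (.br (nat_lit 8) (nat_lit 1) (.cons (.ev (nat_lit 79538856468424380438479438080) (nat_lit 1)) (.cons (.rf (nat_lit 1740) (nat_lit 15433072044983552032)) .nil))) (.cons (.br (nat_lit 7) (nat_lit 1) (.cons (.ev (nat_lit 79538856468424380438479438080) (nat_lit 1)) (.cons (.rf (nat_lit 1732) (nat_lit 482247182020347936)) .nil))) (.cons (.ev (nat_lit 310698658007724046833156353) (nat_lit 1)) (.cons (.br (nat_lit 7) (nat_lit 1) (.cons (.br (nat_lit 12) (nat_lit 1) (.cons (.ev (nat_lit 20838569948615941192807619167492) (nat_lit 4)) .nil)) (.cons (.br (nat_lit 8) (nat_lit 1) (.cons (.ev (nat_lit 20839179190523589307527313294084) (nat_lit 3)) .nil)) (.cons (.br (nat_lit 8) (nat_lit 1) (.cons (.ev (nat_lit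 21472390375173769239511348216072) (nat_lit 4)) .nil)) .nil)))) .nil))))) .nil)))),
 (.br (nat_lit 11) (nat_lit 1) (.cons (.rf (nat_lit 2155) (nat_lit 493858305440582043680)) (.cons (.rf (nat_lit 2156) (nat_lit 493858305440582043680)) (.cons (.rf (nat_lit 2157) (nat_lit 493858305440582043680)) (.cons (.br (nat_lit 11) (nat_lit 1) (.cons (.rf (nat_lit 2155) (nat_lit 493858305440582043680)) (.cons (.rf (nat_lit 2156) (nat_lit 493858305440582043680)) (.cons (.rf (nat_lit 2157) (nat_lit 493858305440582043680)) .nil)))) .nil))))),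
 (.br (nat_lit 11) (nat_lit 1) (.cons (.rf (nat_lit 84) (nat_lit 9004165346)) (.cons (.rf (nat_lit 2158) (nat_lit 493858305440582043680)) (.cons (.br (nat_lit 7) (nat_lit 1) (.cons (.br (nat_lit 8) (nat_lit 1) (.cons (.ev (nat_lit 1213666705180645839142913) (nat_lit 1)) (.cons (.br (nat_lit 12) (nat_lit 1) (.cons (.ev (nat_lit 20841040974175264053100277858572) (nat_lit 4)) .nil)) .nil))) (.cons (.ev (nat_lit 79229376162450436191875563521) (nat_lit 1)) (.cons (.br (nat_lit 12) (nat_lit 1) (.cons (.br (nat_lit 8) (nat_lit 1) (.cons (.zr (nat_lit 80466102553621778773901049856) (nat_lit 4845203351937952128172034) (nat_lit 10) (nat_lit 5)) .nil)) (.cons (.ev (nat_lit 40723588648841660313406997004800) (nat_lit 2)) .nil))) .nil)))) .nil)))),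
 (.br (nat_lit 11) (nat_lit 1) (.cons (.rf (nat_lit 2155) (nat_lit 493858305440582043680)) (.cons (.rf (nat_lit 2158) (nat_lit 493858305440582043680)) (.cons (.rf (nat_lit 2159) (nat_lit 493858305440582043680)) (.cons (.br (nat_lit 11) (nat_lit 1) (.cons (.rf (nat_lit 2155) (nat_lit 493858305440582043680)) (.cons (.rf (nat_lit 2158) (nat_lit 493858305440582043680)) (.cons (.rf (nat_lit 2159) (nat_lit 493858305440582043680)) .nil)))) .nil))))),
 (.br (nat_lit 11) (nat_lit 1) (.cons (.rf (nat_lit 2155) (nat_lit 493858305440582043680)) (.cons (.rf (nat_lit 2158) (nat_lit 493858305440582043680)) (.cons (.rf (nat_lit 2160) (nat_lit 493858305440582043680)) (.cons (.br (nat_lit 11) (nat_lit 1) (.cons (.rf (nat_lit 2155) (nat_lit 493858305440582043680)) (.cons (.rf (nat_lit 2158) (nat_lit 493858305440582043680)) (.cons (.rf (nat_lit 2160) (nat_lit 493858305440582043680)) .nil)))) .nil))))),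
 (.br (nat_lit 8) (nat_lit 1) (.cons (.br (nat_lit 13) (nat_lit 1) (.cons (.br (nat_lit 12) (nat_lit 1) (.cons (.zr (nat_lit 3100908912857716550126601472) (nat_lit 713053462628669241242008158215) (nat_lit 10) (nat_lit 4)) .nil)) (.cons (.br (nat_lit 11) (nat_lit 1) (.cons (.zr (nat_lit 3100908912857716550126601472) (nat_lit 713053462628669241242008158215) (nat_lit 10) (nat_lit 4)) .nil)) .nil))) (.cons (.br (nat_lit 11) (nat_lit 1) (.cons (.zr (nat_lit 237684487542793017178678363392) (nat_lit 4759404367684462182401) (nat_lit 5) (nat_lit 4)) (.cons (.zr (nat_lit 1208944339260721852318979) (nat_lit 81129638424051414663735942316032) (nat_lit 10) (nat_lit 0)) .nil))) .nil))),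
 (.br (nat_lit 12) (nat_lit 1) (.cons (.rf (nat_lit 2162) (nat_lit 493858305440582043680)) (.cons (.br (nat_lit 10) (nat_lit 1) (.cons (.zr (nat_lit 55556405003275993088) (nat_lit 158456329750895440635516420097) (nat_lit 5) (nat_lit 0)) (.cons (.zr (nat_lit 928455029464035206174540544) (nat_lit 158456329750895440635533197313) (nat_lit 5) (nat_lit 0)) (.cons (.ev (nat_lit 20282410817299928861614614315265) (nat_lit 1)) .nil)))) .nil))),
 (.br (nat_lit 12) (nat_lit 1) (.cons (.rf (nat_lit 2162) (nat_lit 493858305440582043680)) (.cons (.rf (nat_lit 2163) (nat_lit 493858305440582043680)) (.cons (.br (nat_lit 12) (nat_lit 1) (.cons (.rf (nat_lit 2162) (nat_lit 493858305440582043680)) (.cons (.rf (nat_lit 2163) (nat_lit 493858305440582043680)) .nil))) .nil)))),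
 (.br (nat_lit 8) (nat_lit 1) (.cons (.rf (nat_lit 2164) (nat_lit 493858305440582043680)) (.cons (.br (nat_lit 12) (nat_lit 1) (.cons (.br (nat_lit 12) (nat_lit 1) (.cons (.zr (nat_lit 315543990846595565229178880) (nat_lit 713053462628381010865756046343) (nat_lit 10) (nat_lit 4)) .nil)) (.cons (.br (nat_lit 11) (nat_lit 1) (.cons (.zr (nat_lit 315543990846595565229178880) (nat_lit 713053462628381010865756046343) (nat_lit 10) (nat_lit 4)) .nil)) .nil))) .nil))),
 (.br (nat_lit 8) (nat_lit 1) (.cons (.rf (nat_lit 2165) (nat_lit 493858305440582043680)) (.cons (.rf (nat_lit 2164) (nat_lit 493858305440582043680)) (.cons (.br (nat_lit 8) (nat_lit 1) (.cons (.rf (nat_lit 2165) (nat_lit 493858305440582043680)) (.cons (.rf (nat_lit 2164) (nat_lit 493858305440582043680)) .nil))) .nil)))),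
 (.br (nat_lit 12) (nat_lit 1) (.cons (.rf (nat_lit 2164) (nat_lit 493858305440582043680)) (.cons (.rf (nat_lit 2166) (nat_lit 493858305440582043680)) (.cons (.br (nat_lit 12) (nat_lit 1) (.cons (.rf (nat_lit 2164) (nat_lit 493858305440582043680)) (.cons (.rf (nat_lit 2166) (nat_lit 493858305440582043680)) .nil))) .nil)))),
 (.br (nat_lit 12) (nat_lit 1) (.cons (.rf (nat_lit 2164) (nat_lit 493858305440582043680)) (.cons (.rf (nat_lit 2166) (nat_lit 493858305440582043680)) (.cons (.rf (nat_lit 2167) (nat_lit 493858305440582043680)) (.cons (.br (nat_lit 12) (nat_lit 1) (.cons (.rf (nat_lit 2164) (nat_lit 493858305440582043680)) (.cons (.rf (nat_lit 2166) (nat_lit 493858305440582043680)) (.cons (.rf (nat_lit 2167) (nat_lit 493858305440582043680)) .nil)))) .nil)))))]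

theorem c70 : chkAll C T R L70 (nat_lit 2141) = true := by decide +kernel

theorem l70 : (nat_lit 2141) + L70.length = (nat_lit 2169) := by decide +kernel

/-- part of the certificates -/
def L71 : List Prf := [(.br (nat_lit 7) (nat_lit 1) (.cons (.rf (nat_lit 84) (nat_lit 14336465985)) (.cons (.ev (nat_lit 310693935640960797427958016) (nat_lit 1)) (.cons (.br (nat_lit 8) (nat_lit 1) (.cons (.br (nat_lit 11) (nat_lit 1) (.cons (.ev (nat_lit 79849550422656202705272438785) (nat_lit 2)) (.cons (.br (nat_lit 12) (nat_lit 1) (.cons (.ev (nat_lit 20997018982237122690603832771342) (nat_lit 4)) .nil)) .nil))) (.cons (.br (nat_lit 12) (nat_lit 1) (.cons (.br (nat_lit 12) (nat_lit 1) (.cons (.zr (nat_lit 92594008355984375808) (nat_lit 159075299770538130768671147777) (nat_lit 5) (nat_lit 5)) .nil)) (.cons (.zr (nat_lit 55556405020489416704) (nat_lit 40564821629877346842596985537793) (nat_lit 5) (nat_lit 5)) .nil))) .nil))) (.cons (.br (nat_lit 8) (nat_lit 1) (.cons (.br (nat_lit 13) (nat_lit 1) (.cons (.ev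 (nat_lit 20282410812577562096174775664896) (nat_lit 1)) (.cons (.ev (nat_lit 20282409603670117449500249292801) (nat_lit 1)) .nil))) (.cons (.rf (nat_lit 84) (nat_lit 12093299754)) .nil))) .nil))))),
 (.br (nat_lit 11) (nat_lit 1) (.cons (.rf (nat_lit 2168) (nat_lit 493858305440582043680)) (.cons (.rf (nat_lit 2169) (nat_lit 493858305440582043680)) (.cons (.br (nat_lit 10) (nat_lit 1) (.cons (.br (nat_lit 13) (nat_lit 1) (.cons (.ev (nat_lit 20283032209930615430169835339779) (nat_lit 2)) (.cons (.zr (nat_lit 60847232437732470115729294950400) (nat_lit 618974742009455585878082049) (nat_lit 5) (nat_lit 9)) .nil))) (.cons (.br (nat_lit 13) (nat_lit 1) (.cons (.ev (nat_lit 20282720302328124893162993876993) (nat_lit 1)) (.cons (.ev (nat_lit 20282409608392483651990134521856) (nat_lit 1)) .nil))) (.cons (.br (nat_lit 7) (nat_lit 1) (.cons (.ev (nat_lit 1213666705180645839142913) (nat_lit 1)) (.cons (.zr (nat_lit 237684487542793012780699156480) (nat_lit 618974742009455585878082049) (nat_lit 5) (nat_lit 9))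 (.cons (.zr (nat_lit 60847232437732470115729294950400) (nat_lit 618974742009455585878082049) (nat_lit 5) (nat_lit 9)) .nil)))) (.cons (.ev (nat_lit 310698658007724046833156353) (nat_lit 1)) .nil))))) .nil)))),
 (.br (nat_lit 11) (nat_lit 1) (.cons (.rf (nat_lit 2168) (nat_lit 493858305440582043680)) (.cons (.rf (nat_lit 2169) (nat_lit 493858305440582043680)) (.cons (.rf (nat_lit 2170) (nat_lit 493858305440582043680)) (.cons (.br (nat_lit 11) (nat_lit 1) (.cons (.rf (nat_lit 2168) (nat_lit 493858305440582043680)) (.cons (.rf (nat_lit 2169) (nat_lit 493858305440582043680)) (.cons (.rf (nat_lit 2170) (nat_lit 493858305440582043680)) .nil)))) .nil))))),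
 (.br (nat_lit 11) (nat_lit 1) (.cons (.rf (nat_lit 2168) (nat_lit 493858305440582043680)) (.cons (.rf (nat_lit 2171) (nat_lit 493858305440582043680)) (.cons (.br (nat_lit 7) (nat_lit 1) (.cons (.br (nat_lit 8) (nat_lit 1) (.cons (.ev (nat_lit 1213666705180645839142913) (nat_lit 1)) (.cons (.rf (nat_lit 84) (nat_lit 12255796298)) .nil))) (.cons (.br (nat_lit 12) (nat_lit 1) (.cons (.rf (nat_lit 2077) (nat_lit 493858305440581027872)) (.cons (.ev (nat_lit 40723588648841660313406997004800) (nat_lit 2)) .nil))) (.cons (.ev (nat_lit 20282410812577562096174775664896) (nat_lit 1)) .nil)))) .nil)))),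
 (.br (nat_lit 11) (nat_lit 1) (.cons (.rf (nat_lit 2168) (nat_lit 493858305440582043680)) (.cons (.rf (nat_lit 2171) (nat_lit 493858305440582043680)) (.cons (.rf (nat_lit 2172) (nat_lit 493858305440582043680)) (.cons (.br (nat_lit 11) (nat_lit 1) (.cons (.rf (nat_lit 84) (nat_lit 9037719778)) (.cons (.rf (nat_lit 2171) (nat_lit 493858305440582043680)) (.cons (.rf (nat_lit 2172) (nat_lit 493858305440582043680)) .nil)))) .nil))))),
 (.br (nat_lit 11) (nat_lit 1) (.cons (.rf (nat_lit 2168) (nat_lit 493858305440582043680)) (.cons (.rf (nat_lit 2171) (nat_lit 493858305440582043680)) (.cons (.rf (nat_lit 2173) (nat_lit 493858305440582043680)) (.cons (.br (nat_lit 11) (nat_lit 1) (.cons (.rf (nat_lit 2168) (nat_lit 493858305440582043680)) (.cons (.rf (nat_lit 2171) (nat_lit 493858305440582043680)) (.cons (.rf (nat_lit 2173) (nat_lit 493858305440582043680)) .nil)))) .nil))))),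
 (.br (nat_lit 1) (nat_lit 1) (.cons (.rf (nat_lit 2128) (nat_lit 493858305268783356960)) (.cons (.br (nat_lit 8) (nat_lit 1) (.cons (.kr (nat_lit 1) (nat_lit 18446744073709551616) (nat_lit 0) (nat_lit 1)) (.cons (.rf (nat_lit 58) (nat_lit 8718375)) (.cons (.br (nat_lit 11) (nat_lit 1) (.cons (.rf (nat_lit 1339) (nat_lit 392259767521)) (.cons (.rf (nat_lit 1339) (nat_lit 392159104321)) (.cons (.rf (nat_lit 2129) (nat_lit 493858305440582043680)) (.cons (.br (nat_lit 11) (nat_lit 1) (.cons (.rf (nat_lit 1339) (nat_lit 392259767521)) (.cons (.rf (nat_lit 1339) (nat_lit 392159104321)) (.cons (.rf (nat_lit 2129) (nat_lit 493858305440582043680)) .nil)))) .nil))))) (.cons (.ev (nat_lit 4740813226947649798401) (nat_lit 1)) (.cons (.br (nat_lit 13) (nat_lit 1) (.cons (.rf (nat_lit 1339) (nat_lit 458831763681)) (.cons (.rf (nat_lit 1339) (nat_lit 458731100481)) (.cons (.rf (nat_lit 2131) (nat_lit 493858305440582043680)) (.cons (.br (nat_lit 13) (nat_lit 1) (.cons (.rf (nat_lit 1339) (nat_lit 458831763681))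 (.cons (.rf (nat_lit 1339) (nat_lit 458731100481)) (.cons (.rf (nat_lit 2131) (nat_lit 493858305440582043680)) .nil)))) .nil))))) .nil)))))) (.cons (.br (nat_lit 8) (nat_lit 1) (.cons (.rf (nat_lit 29) (nat_lit 8620353)) (.cons (.rf (nat_lit 2133) (nat_lit 493858305440582043680)) (.cons (.rf (nat_lit 2135) (nat_lit 493858305440582043680)) (.cons (.br (nat_lit 8) (nat_lit 1) (.cons (.rf (nat_lit 29) (nat_lit 8620353)) (.cons (.rf (nat_lit 2133) (nat_lit 493858305440582043680)) (.cons (.rf (nat_lit 2135) (nat_lit 493858305440582043680)) .nil)))) .nil))))) (.cons (.br (nat_lit 12) (nat_lit 1) (.cons (.rf (nat_lit 2142) (nat_lit 493858305440582043680)) (.cons (.rf (nat_lit 2148) (nat_lit 493858305440582043680)) (.cons (.rf (nat_lit 2150) (nat_lit 493858305440582043680)) (.cons (.rf (nat_lit 2151) (nat_lit 493858305440582043680)) (.cons (.br (nat_lit 12) (nat_lit 1) (.cons (.rf (nat_lit 2142) (nat_lit 493858305440582043680)) (.cons (.rf (nat_lit 2148) (nat_lit 493858305440582043680)) (.cons (.rf (nat_lit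 2150) (nat_lit 493858305440582043680)) (.cons (.rf (nat_lit 2151) (nat_lit 493858305440582043680)) .nil))))) .nil)))))) (.cons (.br (nat_lit 11) (nat_lit 1) (.cons (.rf (nat_lit 2155) (nat_lit 493858305440582043680)) (.cons (.rf (nat_lit 2158) (nat_lit 493858305440582043680)) (.cons (.rf (nat_lit 2160) (nat_lit 493858305440582043680)) (.cons (.rf (nat_lit 2161) (nat_lit 493858305440582043680)) (.cons (.br (nat_lit 11) (nat_lit 1) (.cons (.rf (nat_lit 2155) (nat_lit 493858305440582043680)) (.cons (.rf (nat_lit 2158) (nat_lit 493858305440582043680)) (.cons (.rf (nat_lit 2160) (nat_lit 493858305440582043680)) (.cons (.rf (nat_lit 2161) (nat_lit 493858305440582043680)) .nil))))) .nil)))))) (.cons (.br (nat_lit 11) (nat_lit 1) (.cons (.rf (nat_lit 2168) (nat_lit 493858305440582043680)) (.cons (.rf (nat_lit 2171) (nat_lit 493858305440582043680)) (.cons (.rf (nat_lit 2173) (nat_lit 493858305440582043680)) (.cons (.rf (nat_lit 2174) (nat_lit 493858305440582043680)) (.cons (.br (nat_lit 11) (nat_lit 1)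 (.cons (.rf (nat_lit 2168) (nat_lit 493858305440582043680)) (.cons (.rf (nat_lit 2171) (nat_lit 493858305440582043680)) (.cons (.rf (nat_lit 2173) (nat_lit 493858305440582043680)) (.cons (.rf (nat_lit 2174) (nat_lit 493858305440582043680)) .nil))))) .nil)))))) .nil))))))),
 (.br (nat_lit 8) (nat_lit 1) (.cons (.rf (nat_lit 31) (nat_lit 377718082)) (.cons (.br (nat_lit 1) (nat_lit 1) (.cons (.ev (nat_lit 310698676454468120542707968) (nat_lit 1)) (.cons (.br (nat_lit 12) (nat_lit 1) (.cons (.ev (nat_lit 79229376162522493785913425921) (nat_lit 1)) (.cons (.ev (nat_lit 79228167255077847111387054336) (nat_lit 1)) .nil))) (.cons (.br (nat_lit 13) (nat_lit 1) (.cons (.ev (nat_lit 20283032209930399257387721752579) (nat_lit 2)) (.cons (.zr (nat_lit 60847232437732686288511391760384) (nat_lit 4759260253595864399873) (nat_lit 5) (nat_lit 9)) .nil))) .nil)))) .nil))),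
 (.br (nat_lit 8) (nat_lit 1) (.cons (.rf (nat_lit 31) (nat_lit 377718082)) (.cons (.rf (nat_lit 2176) (nat_lit 493858305440582043680)) (.cons (.br (nat_lit 8) (nat_lit 1) (.cons (.rf (nat_lit 31) (nat_lit 377718082)) (.cons (.rf (nat_lit 2176) (nat_lit 493858305440582043680)) .nil))) .nil)))),
 (.br (nat_lit 11) (nat_lit 1) (.cons (.rf (nat_lit 29) (nat_lit 11765058)) (.cons (.rf (nat_lit 2177) (nat_lit 493858305440582043680)) (.cons (.br (nat_lit 1) (nat_lit 1) (.cons (.br (nat_lit 8) (nat_lit 1) (.cons (.rf (nat_lit 2117) (nat_lit 415521255357669378377)) (.cons (.br (nat_lit 8) (nat_lit 1) (.cons (.rf (nat_lit 2117) (nat_lit 415521255357669378377)) .nil)) .nil))) (.cons (.ev (nat_lit 310698658223618661128798720) (nat_lit 2)) (.cons (.rf (nat_lit 31) (nat_lit 447782210)) .nil)))) .nil)))),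
 (.br (nat_lit 8) (nat_lit 1) (.cons (.br (nat_lit 11) (nat_lit 1) (.cons (.ev (nat_lit 20838557812060290974305835221766) (nat_lit 3)) .nil)) .nil)),
 (.br (nat_lit 12) (nat_lit 1) (.cons (.rf (nat_lit 29) (nat_lit 12813634)) (.cons (.rf (nat_lit 2037) (nat_lit 415521255357671409993)) (.cons (.br (nat_lit 1) (nat_lit 1) (.cons (.rf (nat_lit 31) (nat_lit 411272514)) (.cons (.br (nat_lit 8) (nat_lit 1) (.cons (.rf (nat_lit 2179) (nat_lit 493858305440582043680)) (.cons (.br (nat_lit 8) (nat_lit 1) (.cons (.rf (nat_lit 2179) (nat_lit 493858305440582043680)) .nil)) .nil))) (.cons (.rf (nat_lit 31) (nat_lit 448830786)) .nil)))) .nil)))),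
 (.br (nat_lit 12) (nat_lit 1) (.cons (.ev (nat_lit 79229371440156291296028327936) (nat_lit 1)) (.cons (.rf (nat_lit 2037) (nat_lit 415521255357671409993)) (.cons (.br (nat_lit 1) (nat_lit 1) (.cons (.br (nat_lit 8) (nat_lit 1) (.cons (.br (nat_lit 13) (nat_lit 1) (.cons (.rf (nat_lit 2125) (nat_lit 415521255357669378377)) (.cons (.zr (nat_lit 315529639280550609768415235) (nat_lit 316912659501790318321079682048) (nat_lit 10) (nat_lit 6)) .nil))) (.cons (.br (nat_lit 8) (nat_lit 1) (.cons (.rf (nat_lit 2125) (nat_lit 415521255357669378377)) .nil)) .nil))) (.cons (.rf (nat_lit 31) (nat_lit 414418242)) (.cons (.rf (nat_lit 31) (nat_lit 448830786)) .nil)))) .nil)))),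
 (.br (nat_lit 8) (nat_lit 1) (.cons (.br (nat_lit 11) (nat_lit 1) (.cons (.ev (nat_lit 20363812642734086679222290679040) (nat_lit 3)) .nil)) .nil)),
 (.br (nat_lit 13) (nat_lit 1) (.cons (.rf (nat_lit 29) (nat_lit 13862210)) (.cons (.br (nat_lit 1) (nat_lit 1) (.cons (.rf (nat_lit 31) (nat_lit 444826946)) (.cons (.rf (nat_lit 31) (nat_lit 447972674)) (.cons (.br (nat_lit 8) (nat_lit 1) (.cons (.rf (nat_lit 2182) (nat_lit 493858305440582043680)) (.cons (.br (nat_lit 8) (nat_lit 1) (.cons (.rf (nat_lit 2182) (nat_lit 493858305440582043680)) .nil)) .nil))) .nil)))) (.cons (.ev (nat_lit 20282409608374036907916424970241) (nat_lit 1)) .nil)))),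
 (.br (nat_lit 8) (nat_lit 1) (.cons (.br (nat_lit 11) (nat_lit 1) (.cons (.ev (nat_lit 20361637766166006820234361569281) (nat_lit 1)) .nil)) .nil)),
 (.br (nat_lit 1) (nat_lit 1) (.cons (.br (nat_lit 8) (nat_lit 1) (.cons (.rf (nat_lit 2184) (nat_lit 493858305440582043680)) (.cons (.br (nat_lit 11) (nat_lit 1) (.cons (.rf (nat_lit 2184) (nat_lit 493858305440582043680)) (.cons (.ev (nat_lit 20361637766166006820234361569281) (nat_lit 1)) .nil))) .nil))) (.cons (.rf (nat_lit 31) (nat_lit 447972674)) (.cons (.rf (nat_lit 31) (nat_lit 449021250)) .nil)))),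
 (.br (nat_lit 7) (nat_lit 1) (.cons (.rf (nat_lit 2128) (nat_lit 493858305268783356960)) (.cons (.rf (nat_lit 2175) (nat_lit 493858305268783356960)) (.cons (.br (nat_lit 11) (nat_lit 1) (.cons (.rf (nat_lit 29) (nat_lit 11765058)) (.cons (.rf (nat_lit 2177) (nat_lit 493858305440582043680)) (.cons (.rf (nat_lit 2178) (nat_lit 493858305440582043680)) (.cons (.br (nat_lit 11) (nat_lit 1) (.cons (.rf (nat_lit 29) (nat_lit 11765058)) (.cons (.rf (nat_lit 2177) (nat_lit 493858305440582043680)) (.cons (.rf (nat_lit 2178) (nat_lit 493858305440582043680)) .nil)))) .nil))))) (.cons (.br (nat_lit 12) (nat_lit 1) (.cons (.rf (nat_lit 29) (nat_lit 12813634)) (.cons (.rf (nat_lit 2180) (nat_lit 493858305440582043680)) (.cons (.rf (nat_lit 2181) (nat_lit 493858305440582043680)) (.cons (.br (nat_lit 12) (nat_lit 1) (.cons (.rf (nat_lit 29) (nat_lit 12813634)) (.cons (.rf (nat_lit 2180) (nat_lit 493858305440582043680)) (.cons (.rf (nat_lit 2181) (nat_lit 493858305440582043680)) .nil)))) .nil))))) (.cons (.br (nat_lit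 13) (nat_lit 1) (.cons (.rf (nat_lit 29) (nat_lit 13862210)) (.cons (.rf (nat_lit 2183) (nat_lit 493858305440582043680)) (.cons (.br (nat_lit 13) (nat_lit 1) (.cons (.rf (nat_lit 29) (nat_lit 13862210)) (.cons (.rf (nat_lit 2183) (nat_lit 493858305440582043680)) (.cons (.rf (nat_lit 2185) (nat_lit 493858305440582043680)) .nil)))) (.cons (.br (nat_lit 13) (nat_lit 1) (.cons (.kr (nat_lit 4722366482869661990912) (nat_lit 20282410812577490038576425992192) (nat_lit 3) (nat_lit 0)) (.cons (.ev (nat_lit 20282409608374036907916424970241) (nat_lit 1)) (.cons (.rf (nat_lit 2185) (nat_lit 493858305440582043680)) .nil)))) .nil))))) .nil)))))),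
 (.br (nat_lit 8) (nat_lit 1) (.cons (.rf (nat_lit 82) (nat_lit 13262628898)) (.cons (.rf (nat_lit 1339) (nat_lit 289183861794)) (.cons (.br (nat_lit 10) (nat_lit 1) (.cons (.ev (nat_lit 310708121331831622431015425) (nat_lit 2)) (.cons (.br (nat_lit 11) (nat_lit 1) (.cons (.ev (nat_lit 310698676454468120542707968) (nat_lit 1)) (.cons (.ev (nat_lit 310698658079781640871149825) (nat_lit 1)) .nil))) (.cons (.br (nat_lit 11) (nat_lit 1) (.cons (.ev (nat_lit 310698658079781640871149825) (nat_lit 1)) (.cons (.ev (nat_lit 310698676454468120542707968) (nat_lit 1)) .nil))) .nil)))) .nil)))),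
 (.br (nat_lit 12) (nat_lit 1) (.cons (.rf (nat_lit 82) (nat_lit 8971855906)) (.cons (.rf (nat_lit 1339) (nat_lit 426622815266)) (.cons (.br (nat_lit 11) (nat_lit 1) (.cons (.ev (nat_lit 79537652246524505700457054208) (nat_lit 1)) (.cons (.rf (nat_lit 58) (nat_lit 11869249)) (.cons (.br (nat_lit 10) (nat_lit 1) (.cons (.ev (nat_lit 310698658079781640871149825) (nat_lit 1)) (.cons (.ev (nat_lit 40644050996595064593429364211971) (nat_lit 2)) .nil))) .nil)))) .nil)))),
 (.br (nat_lit 8) (nat_lit 1) (.cons (.br (nat_lit 11) (nat_lit 1) (.cons (.br (nat_lit 12) (nat_lit 1) (.cons (.ev (nat_lit 20680718029680814039730210931460) (nat_lit 3)) .nil)) (.cons (.zr (nat_lit 9500073202358465594112) (nat_lit 618970019787086804813873156) (nat_lit 5) (nat_lit 4)) .nil))) (.cons (.br (nat_lit 11) (nat_lit 1) (.cons (.br (nat_lit 11) (nat_lit 1) (.cons (.ev (nat_lit 79847142015605821790524277251) (nat_lit 2)) .nil)) (.cons (.br (nat_lit 11) (nat_lit 1) (.cons (.ev (nat_lit 79847142015605821790524277251) (nat_lit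 2)) .nil)) .nil))) .nil))),
 (.br (nat_lit 13) (nat_lit 1) (.cons (.rf (nat_lit 2189) (nat_lit 493858305440582043680)) (.cons (.br (nat_lit 8) (nat_lit 1) (.cons (.br (nat_lit 11) (nat_lit 1) (.cons (.ev (nat_lit 21157960858750056780842828498692) (nat_lit 4)) .nil)) (.cons (.zr (nat_lit 9500073202358465594112) (nat_lit 618970019787086804813873156) (nat_lit 5) (nat_lit 4)) (.cons (.br (nat_lit 10) (nat_lit 1) (.cons (.ev (nat_lit 20678868392177238841959020299008) (nat_lit 3)) .nil)) .nil)))) .nil))),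
 (.br (nat_lit 13) (nat_lit 1) (.cons (.rf (nat_lit 2189) (nat_lit 493858305440582043680)) (.cons (.rf (nat_lit 2190) (nat_lit 493858305440582043680)) (.cons (.br (nat_lit 13) (nat_lit 1) (.cons (.rf (nat_lit 2189) (nat_lit 493858305440582043680)) (.cons (.rf (nat_lit 2190) (nat_lit 493858305440582043680)) .nil))) .nil)))),
 (.br (nat_lit 8) (nat_lit 1) (.cons (.br (nat_lit 11) (nat_lit 1) (.cons (.ev (nat_lit 80160244376600072763799175683) (nat_lit 2)) (.cons (.br (nat_lit 12) (nat_lit 1) (.cons (.ev (nat_lit 20678868392177238841959020299008) (nat_lit 3)) .nil)) .nil))) (.cons (.rf (nat_lit 2191) (nat_lit 493858305440582043680)) .nil)))]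

theorem c71 : chkAll C T R L71 (nat_lit 2169) = true := by decide +kernel

theorem l71 : (nat_lit 2169) + L71.length = (nat_lit 2193) := by decide +kernel

/-- part of the certificates -/
def L72 : List Prf := [(.br (nat_lit 8) (nat_lit 1) (.cons (.rf (nat_lit 2192) (nat_lit 493858305440582043680)) (.cons (.br (nat_lit 8) (nat_lit 1) (.cons (.rf (nat_lit 2192) (nat_lit 493858305440582043680)) (.cons (.rf (nat_lit 2191) (nat_lit 493858305440582043680)) .nil))) (.cons (.rf (nat_lit 2191) (nat_lit 493858305440582043680)) .nil)))),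
 (.br (nat_lit 13) (nat_lit 1) (.cons (.rf (nat_lit 2191) (nat_lit 493858305440582043680)) (.cons (.rf (nat_lit 2193) (nat_lit 493858305440582043680)) (.cons (.br (nat_lit 13) (nat_lit 1) (.cons (.rf (nat_lit 2191) (nat_lit 493858305440582043680)) (.cons (.rf (nat_lit 2193) (nat_lit 493858305440582043680)) .nil))) .nil)))),
 (.br (nat_lit 12) (nat_lit 1) (.cons (.rf (nat_lit 82) (nat_lit 8971692257)) (.cons (.rf (nat_lit 1339) (nat_lit 426622651617)) (.cons (.br (nat_lit 10) (nat_lit 1) (.cons (.br (nat_lit 8) (nat_lit 1) (.cons (.zr (nat_lit 310693935785356360985608192) (nat_lit 158456325028528675195677901056) (nat_lit 5) (nat_lit 6)) (.cons (.br (nat_lit 11) (nat_lit 1) (.cons (.ev (nat_lit 79850773497128520757276705539) (nat_lit 2)) .nil)) .nil))) (.cons (.zr (nat_lit 79537647524157741364408287232) (nat_lit 1218370552580368481911041) (nat_lit 5) (nat_lit 5)) (.cons (.br (nat_lit 11) (nat_lit 1) (.cons (.br (nat_lit 8) (nat_lit 1) (.cons (.ev (nat_lit 1213666633123051801149441) (nat_lit 1)) .nil))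 (.cons (.ev (nat_lit 20282719093383858252985132974336) (nat_lit 1)) .nil))) .nil)))) .nil)))),
 (.br (nat_lit 12) (nat_lit 1) (.cons (.ev (nat_lit 79229376162450436191875563521) (nat_lit 1)) (.cons (.ev (nat_lit 79228162532711081671548535041) (nat_lit 1)) .nil))),
 (.br (nat_lit 11) (nat_lit 1) (.cons (.rf (nat_lit 82) (nat_lit 9004361793)) (.cons (.rf (nat_lit 1339) (nat_lit 392264125505)) (.cons (.br (nat_lit 10) (nat_lit 1) (.cons (.br (nat_lit 8) (nat_lit 1) (.cons (.ev (nat_lit 79538856468424380438479438080) (nat_lit 1)) (.cons (.rf (nat_lit 2196) (nat_lit 493858305440582043680)) .nil))) (.cons (.ev (nat_lit 80159040117806705480311177985) (nat_lit 2)) (.cons (.br (nat_lit 12) (nat_lit 1) (.cons (.br (nat_lit 8) (nat_lit 1) (.cons (.ev (nat_lit 1213666633123051801149441) (nat_lit 1)) .nil)) (.cons (.ev (nat_lit 20361638979814120859043926966528) (nat_lit 1)) .nil))) .nil)))) .nil)))),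
 (.br (nat_lit 8) (nat_lit 1) (.cons (.br (nat_lit 11) (nat_lit 1) (.cons (.ev (nat_lit 79849550422656202705272438785) (nat_lit 2)) (.cons (.br (nat_lit 12) (nat_lit 1) (.cons (.zr (nat_lit 237684487598133249399840768000) (nat_lit 1547429771833777662730436609) (nat_lit 5) (nat_lit 4)) .nil)) .nil))) (.cons (.br (nat_lit 12) (nat_lit 1) (.cons (.br (nat_lit 12) (nat_lit 1) (.cons (.ev (nat_lit 20997018982237122690603832771342) (nat_lit 4)) .nil)) (.cons (.br (nat_lit 11) (nat_lit 1) (.cons (.ev (nat_lit 20997018982237122690603832771342) (nat_lit 4)) .nil)) .nil))) .nil))),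
 (.br (nat_lit 8) (nat_lit 1) (.cons (.rf (nat_lit 2198) (nat_lit 493858305440582043680)) (.cons (.br (nat_lit 12) (nat_lit 1) (.cons (.br (nat_lit 11) (nat_lit 1) (.cons (.zr (nat_lit 1553469678565930884617207811) (nat_lit 316912659575577294615934664704) (nat_lit 10) (nat_lit 6)) .nil)) (.cons (.ev (nat_lit 40723276755480272934832745480960) (nat_lit 2)) .nil))) .nil))),
 (.br (nat_lit 8) (nat_lit 1) (.cons (.rf (nat_lit 2198) (nat_lit 493858305440582043680)) (.cons (.rf (nat_lit 2199) (nat_lit 493858305440582043680)) (.cons (.br (nat_lit 8) (nat_lit 1) (.cons (.rf (nat_lit 2198) (nat_lit 493858305440582043680)) (.cons (.rf (nat_lit 2199) (nat_lit 493858305440582043680)) .nil))) .nil)))),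
 (.br (nat_lit 8) (nat_lit 1) (.cons (.rf (nat_lit 2200) (nat_lit 493858305440582043680)) (.cons (.br (nat_lit 10) (nat_lit 1) (.cons (.br (nat_lit 12) (nat_lit 1) (.cons (.ev (nat_lit 79229376180969237859622977536) (nat_lit 1)) .nil)) (.cons (.zr (nat_lit 237684487542793012780665602048) (nat_lit 4759260253595847622657) (nat_lit 5) (nat_lit 9)) (.cons (.ev (nat_lit 1213666633123051801149441) (nat_lit 1)) .nil)))) .nil))),
 (.br (nat_lit 8) (nat_lit 1) (.cons (.rf (nat_lit 2200) (nat_lit 493858305440582043680)) (.cons (.rf (nat_lit 2201) (nat_lit 493858305440582043680)) (.cons (.br (nat_lit 8) (nat_lit 1) (.cons (.rf (nat_lit 2200) (nat_lit 493858305440582043680)) (.cons (.rf (nat_lit 2201) (nat_lit 493858305440582043680)) .nil))) .nil)))),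
 (.br (nat_lit 8) (nat_lit 1) (.cons (.rf (nat_lit 2200) (nat_lit 493858305440582043680)) (.cons (.rf (nat_lit 2202) (nat_lit 493858305440582043680)) (.cons (.br (nat_lit 8) (nat_lit 1) (.cons (.rf (nat_lit 2200) (nat_lit 493858305440582043680)) (.cons (.rf (nat_lit 2202) (nat_lit 493858305440582043680)) .nil))) .nil)))),
 (.br (nat_lit 13) (nat_lit 1) (.cons (.br (nat_lit 12) (nat_lit 1) (.cons (.kr (nat_lit 20361638975091754376169970008066) (nat_lit 309494473073112475762688256) (nat_lit 0) (nat_lit 3)) .nil)) (.cons (.br (nat_lit 11) (nat_lit 1) (.cons (.kr (nat_lit 20361638975091754376169970008066) (nat_lit 309494473073112475762688256) (nat_lit 0) (nat_lit 3)) .nil)) .nil))),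
 (.br (nat_lit 8) (nat_lit 1) (.cons (.rf (nat_lit 2204) (nat_lit 493858305440582043680)) (.cons (.br (nat_lit 12) (nat_lit 1) (.cons (.br (nat_lit 11) (nat_lit 1) (.cons (.kr (nat_lit 79537647524157740256306659584) (nat_lit 20282410812595936782650135609344) (nat_lit 1) (nat_lit 0)) .nil)) (.cons (.rf (nat_lit 2204) (nat_lit 415521255185870691657)) .nil))) .nil))),
 (.br (nat_lit 12) (nat_lit 1) (.cons (.rf (nat_lit 2205) (nat_lit 493858305440582043680)) (.cons (.br (nat_lit 11) (nat_lit 1) (.cons (.br (nat_lit 10) (nat_lit 1) (.cons (.ev (nat_lit 158769436834400567838659117570) (nat_lit 2)) .nil)) (.cons (.zr (nat_lit 928455029680207988288127744) (nat_lit 158456329750895440635533197313) (nat_lit 5) (nat_lit 0)) (.cons (.ev (nat_lit 20361637766166006820234361569281) (nat_lit 1)) .nil)))) .nil))),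
 (.br (nat_lit 12) (nat_lit 1) (.cons (.rf (nat_lit 2205) (nat_lit 493858305440582043680)) (.cons (.rf (nat_lit 2206) (nat_lit 493858305440582043680)) (.cons (.br (nat_lit 12) (nat_lit 1) (.cons (.rf (nat_lit 2205) (nat_lit 493858305440582043680)) (.cons (.rf (nat_lit 2206) (nat_lit 493858305440582043680)) .nil))) .nil)))),
 (.br (nat_lit 8) (nat_lit 1) (.cons (.rf (nat_lit 2205) (nat_lit 493858305440582043680)) (.cons (.br (nat_lit 12) (nat_lit 1) (.cons (.zr (nat_lit 9500073202358465594112) (nat_lit 618970019787086804813873156) (nat_lit 5) (nat_lit 4)) (.cons (.zr (nat_lit 20282409617818770716981167457536) (nat_lit 4835777065437019150221314) (nat_lit 10) (nat_lit 3)) .nil))) .nil))),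
 (.br (nat_lit 8) (nat_lit 1) (.cons (.rf (nat_lit 2208) (nat_lit 493858305440582043680)) (.cons (.rf (nat_lit 2205) (nat_lit 493858305440582043680)) (.cons (.br (nat_lit 8) (nat_lit 1) (.cons (.rf (nat_lit 2208) (nat_lit 493858305440582043680)) (.cons (.rf (nat_lit 2205) (nat_lit 493858305440582043680)) .nil))) .nil)))),
 (.br (nat_lit 12) (nat_lit 1) (.cons (.rf (nat_lit 2207) (nat_lit 493858305440582043680)) (.cons (.rf (nat_lit 2209) (nat_lit 493858305440582043680)) (.cons (.br (nat_lit 12) (nat_lit 1) (.cons (.rf (nat_lit 2207) (nat_lit 493858305440582043680)) (.cons (.rf (nat_lit 2209) (nat_lit 493858305440582043680)) .nil))) .nil)))),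
 (.br (nat_lit 12) (nat_lit 1) (.cons (.rf (nat_lit 2207) (nat_lit 493858305440582043680)) (.cons (.rf (nat_lit 2209) (nat_lit 493858305440582043680)) (.cons (.rf (nat_lit 2210) (nat_lit 493858305440582043680)) (.cons (.br (nat_lit 12) (nat_lit 1) (.cons (.rf (nat_lit 2207) (nat_lit 493858305440582043680)) (.cons (.rf (nat_lit 2209) (nat_lit 493858305440582043680)) (.cons (.rf (nat_lit 2210) (nat_lit 493858305440582043680)) .nil)))) .nil))))),
 (.br (nat_lit 1) (nat_lit 1) (.cons (.rf (nat_lit 84) (nat_lit 14336206887)) (.cons (.rf (nat_lit 84) (nat_lit 14238943271)) (.cons (.br (nat_lit 8) (nat_lit 1) (.cons (.br (nat_lit 11) (nat_lit 1) (.cons (.ev (nat_lit 80160249098966833805624737794) (nat_lit 2)) (.cons (.br (nat_lit 12) (nat_lit 1) (.cons (.ev (nat_lit 20997028653643100895085113314062) (nat_lit 4)) .nil)) .nil))) (.cons (.br (nat_lit 12) (nat_lit 1) (.cons (.br (nat_lit 12) (nat_lit 1) (.cons (.ev (nat_lit 79228176700242875857596974087) (nat_lit 3)) .nil)) (.cons (.br (nat_lit 11) (nat_lit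 1) (.cons (.ev (nat_lit 79228176700242875857596974087) (nat_lit 3)) .nil)) .nil))) .nil))) (.cons (.br (nat_lit 8) (nat_lit 1) (.cons (.br (nat_lit 11) (nat_lit 1) (.cons (.br (nat_lit 12) (nat_lit 1) (.cons (.ev (nat_lit 79229371458603035369737879553) (nat_lit 1)) .nil)) (.cons (.ev (nat_lit 20282720302328124893162993876993) (nat_lit 1)) .nil))) (.cons (.ev (nat_lit 20282410812577562096174775664896) (nat_lit 1)) .nil))) .nil))))),
 (.br (nat_lit 8) (nat_lit 1) (.cons (.rf (nat_lit 2211) (nat_lit 493858305440582043680)) (.cons (.rf (nat_lit 2212) (nat_lit 493858305440582043680)) (.cons (.br (nat_lit 1) (nat_lit 1) (.cons (.br (nat_lit 11) (nat_lit 1) (.cons (.rf (nat_lit 2109) (nat_lit 493858305440582043680)) (.cons (.ev (nat_lit 20282719088661492050495247745281) (nat_lit 1)) .nil))) (.cons (.br (nat_lit 12) (nat_lit 1) (.cons (.br (nat_lit 11) (nat_lit 1) (.cons (.ev (nat_lit 21313931651109856735600203727626) (nat_lit 4)) .nil)) (.cons (.ev (nat_lit 20361640184073058619691932779265) (nat_lit 2))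 .nil))) (.cons (.ev (nat_lit 20282409608392555709584172384256) (nat_lit 1)) .nil)))) .nil)))),
 (.br (nat_lit 8) (nat_lit 1) (.cons (.rf (nat_lit 2211) (nat_lit 493858305440582043680)) (.cons (.rf (nat_lit 2212) (nat_lit 493858305440582043680)) (.cons (.rf (nat_lit 2213) (nat_lit 493858305440582043680)) (.cons (.br (nat_lit 8) (nat_lit 1) (.cons (.ev (nat_lit 18519084242235883776) (nat_lit 1)) (.cons (.rf (nat_lit 2212) (nat_lit 493858305440582043680)) (.cons (.rf (nat_lit 2213) (nat_lit 493858305440582043680)) .nil)))) .nil))))),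
 (.br (nat_lit 8) (nat_lit 1) (.cons (.rf (nat_lit 2211) (nat_lit 493858305440582043680)) (.cons (.rf (nat_lit 2214) (nat_lit 493858305440582043680)) (.cons (.br (nat_lit 13) (nat_lit 1) (.cons (.br (nat_lit 10) (nat_lit 1) (.cons (.ev (nat_lit 20282720302328124893162993876993) (nat_lit 1)) (.cons (.zr (nat_lit 60847232437732470115729278173184) (nat_lit 4759260253595864399873) (nat_lit 5) (nat_lit 9)) .nil))) (.cons (.ev (nat_lit 1213666633123051801149441) (nat_lit 1)) (.cons (.ev (nat_lit 309489750706629610429218816) (nat_lit 1)) (.cons (.br (nat_lit 1) (nat_lit 1) (.cons (.zr (nat_lit 60847232437732470115729278173184) (nat_lit 4759260253595864399873) (nat_lit 5) (nat_lit 9)) (.cons (.br (nat_lit 10) (nat_lit 1) (.cons (.ev (nat_lit 158767028464387794657452556290) (nat_lit 2)) .nil)) (.cons (.ev (nat_lit 79228167255077847111387054336) (nat_lit 1)) .nil)))) .nil))))) .nil)))),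
 (.br (nat_lit 8) (nat_lit 1) (.cons (.rf (nat_lit 2211) (nat_lit 493858305440582043680)) (.cons (.rf (nat_lit 2214) (nat_lit 493858305440582043680)) (.cons (.rf (nat_lit 2215) (nat_lit 493858305440582043680)) (.cons (.br (nat_lit 8) (nat_lit 1) (.cons (.rf (nat_lit 2211) (nat_lit 493858305440582043680)) (.cons (.rf (nat_lit 2214) (nat_lit 493858305440582043680)) (.cons (.rf (nat_lit 2215) (nat_lit 493858305440582043680)) .nil)))) .nil))))),
 (.br (nat_lit 8) (nat_lit 1) (.cons (.rf (nat_lit 2211) (nat_lit 493858305440582043680)) (.cons (.rf (nat_lit 2214) (nat_lit 493858305440582043680)) (.cons (.rf (nat_lit 2216) (nat_lit 493858305440582043680)) (.cons (.br (nat_lit 8) (nat_lit 1) (.cons (.rf (nat_lit 2211) (nat_lit 493858305440582043680)) (.cons (.rf (nat_lit 2214) (nat_lit 493858305440582043680)) (.cons (.rf (nat_lit 2216) (nat_lit 493858305440582043680)) .nil)))) .nil))))),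
 (.br (nat_lit 7) (nat_lit 1) (.cons (.rf (nat_lit 2128) (nat_lit 493858305268783356960)) (.cons (.rf (nat_lit 2175) (nat_lit 493858305268783356960)) (.cons (.rf (nat_lit 2186) (nat_lit 493858305268783356960)) (.cons (.br (nat_lit 1) (nat_lit 1) (.cons (.br (nat_lit 8) (nat_lit 1) (.cons (.rf (nat_lit 1343) (nat_lit 422360390721)) (.cons (.rf (nat_lit 1339) (nat_lit 289183861794)) (.cons (.rf (nat_lit 2187) (nat_lit 493858305440582043680)) (.cons (.br (nat_lit 8) (nat_lit 1) (.cons (.rf (nat_lit 82) (nat_lit 14336370722)) (.cons (.rf (nat_lit 1339) (nat_lit 289183861794)) (.cons (.rf (nat_lit 2187) (nat_lit 493858305440582043680)) .nil)))) .nil))))) (.cons (.rf (nat_lit 29) (nat_lit 11766081)) (.cons (.rf (nat_lit 58) (nat_lit 11765802)) (.cons (.br (nat_lit 12) (nat_lit 1) (.cons (.rf (nat_lit 2188) (nat_lit 493858305440582043680)) (.cons (.rf (nat_lit 1343) (nat_lit 275288270882)) (.cons (.rf (nat_lit 1339) (nat_lit 426622815266)) (.cons (.br (nat_lit 12) (nat_lit 1) (.cons (.rf (nat_lit 2188)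 (nat_lit 493858305440582043680)) (.cons (.rf (nat_lit 82) (nat_lit 14340565026)) (.cons (.rf (nat_lit 1339) (nat_lit 426622815266)) .nil)))) .nil))))) (.cons (.br (nat_lit 10) (nat_lit 1) (.cons (.rf (nat_lit 2100) (nat_lit 493858305440582043680)) (.cons (.rf (nat_lit 58) (nat_lit 11869249)) (.cons (.br (nat_lit 11) (nat_lit 1) (.cons (.ev (nat_lit 310698658079781640871149825) (nat_lit 1)) (.cons (.rf (nat_lit 84) (nat_lit 14373166145)) (.cons (.rf (nat_lit 84) (nat_lit 13332683850)) .nil)))) (.cons (.rf (nat_lit 1343) (nat_lit 275321825314)) .nil))))) .nil)))))) (.cons (.br (nat_lit 1) (nat_lit 1) (.cons (.br (nat_lit 13) (nat_lit 1) (.cons (.rf (nat_lit 2191) (nat_lit 493858305440582043680)) (.cons (.rf (nat_lit 2193) (nat_lit 493858305440582043680)) (.cons (.rf (nat_lit 2194) (nat_lit 493858305440582043680)) (.cons (.br (nat_lit 13) (nat_lit 1) (.cons (.rf (nat_lit 2191) (nat_lit 493858305440582043680)) (.cons (.rf (nat_lit 2193) (nat_lit 493858305440582043680)) (.cons (.rf (nat_lit 2194) (nat_lit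 493858305440582043680)) .nil)))) .nil))))) (.cons (.ev (nat_lit 1213648258436572129591296) (nat_lit 1)) (.cons (.br (nat_lit 12) (nat_lit 1) (.cons (.rf (nat_lit 2195) (nat_lit 493858305440582043680)) (.cons (.rf (nat_lit 1343) (nat_lit 275283028193)) (.cons (.rf (nat_lit 1339) (nat_lit 426622651617)) (.cons (.br (nat_lit 12) (nat_lit 1) (.cons (.rf (nat_lit 2195) (nat_lit 493858305440582043680)) (.cons (.rf (nat_lit 82) (nat_lit 14340401377)) (.cons (.ev (nat_lit 79537652246524505700457054208) (nat_lit 1)) .nil)))) .nil))))) (.cons (.br (nat_lit 11) (nat_lit 1) (.cons (.rf (nat_lit 2197) (nat_lit 493858305440582043680)) (.cons (.rf (nat_lit 1343) (nat_lit 275291413538)) (.cons (.rf (nat_lit 1339) (nat_lit 392264125505)) (.cons (.br (nat_lit 11) (nat_lit 1) (.cons (.rf (nat_lit 2197) (nat_lit 493858305440582043680)) (.cons (.ev (nat_lit 310693935713018391465820416) (nat_lit 1)) (.cons (.ev (nat_lit 79537652246524505700457054208) (nat_lit 1)) .nil)))) .nil))))) (.cons (.br (nat_lit 8) (nat_lit 1)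 (.cons (.rf (nat_lit 2200) (nat_lit 493858305440582043680)) (.cons (.rf (nat_lit 2202) (nat_lit 493858305440582043680)) (.cons (.rf (nat_lit 2203) (nat_lit 493858305440582043680)) (.cons (.br (nat_lit 8) (nat_lit 1) (.cons (.rf (nat_lit 2200) (nat_lit 493858305440582043680)) (.cons (.rf (nat_lit 2202) (nat_lit 493858305440582043680)) (.cons (.rf (nat_lit 2203) (nat_lit 493858305440582043680)) .nil)))) .nil))))) .nil)))))) (.cons (.br (nat_lit 8) (nat_lit 1) (.cons (.rf (nat_lit 2211) (nat_lit 493858305440582043680)) (.cons (.rf (nat_lit 2214) (nat_lit 493858305440582043680)) (.cons (.rf (nat_lit 2216) (nat_lit 493858305440582043680)) (.cons (.rf (nat_lit 2217) (nat_lit 493858305440582043680)) (.cons (.br (nat_lit 8) (nat_lit 1) (.cons (.rf (nat_lit 2211) (nat_lit 493858305440582043680)) (.cons (.rf (nat_lit 2214) (nat_lit 493858305440582043680)) (.cons (.rf (nat_lit 2216) (nat_lit 493858305440582043680)) (.cons (.rf (nat_lit 2217) (nat_lit 493858305440582043680)) .nil))))) .nil)))))) .nil)))))))]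

theorem c72 : chkAll C T R L72 (nat_lit 2193) = true := by decide +kernel

theorem l72 : (nat_lit 2193) + L72.length = (nat_lit 2219) := by decide +kernel

/-- part of the certificates -/
def L73 : List Prf := [(.br (nat_lit 11) (nat_lit 1) (.cons (.ev (nat_lit 79537652246668338322668192515) (nat_lit 2)) (.cons (.ev (nat_lit 309494454770483598769455875) (nat_lit 2)) .nil))),
 (.br (nat_lit 13) (nat_lit 1) (.cons (.rf (nat_lit 82) (nat_lit 9006458914)) (.cons (.br (nat_lit 10) (nat_lit 1) (.cons (.br (nat_lit 8) (nat_lit 1) (.cons (.br (nat_lit 11) (nat_lit 1) (.cons (.ev (nat_lit 20521026191946698575927463837958) (nat_lit 3)) .nil)) (.cons (.rf (nat_lit 84) (nat_lit 14239996993)) .nil))) (.cons (.br (nat_lit 11) (nat_lit 1) (.cons (.br (nat_lit 8) (nat_lit 1) (.cons (.ev (nat_lit 20521026191946698575927463837958) (nat_lit 3)) .nil)) (.cons (.rf (nat_lit 84) (nat_lit 14340660289)) .nil))) (.cons (.kr (nat_lit 4722366482869645213696) (nat_lit 79228162514264337593543950336) (nat_lit 9) (nat_lit 0))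 .nil)))) (.cons (.rf (nat_lit 1339) (nat_lit 458836121634)) .nil)))),
 (.br (nat_lit 8) (nat_lit 1) (.cons (.br (nat_lit 11) (nat_lit 1) (.cons (.ev (nat_lit 79847132570801363614762729985) (nat_lit 2)) (.cons (.br (nat_lit 12) (nat_lit 1) (.cons (.ev (nat_lit 20997023855719331877415918176006) (nat_lit 4)) .nil)) .nil))) (.cons (.br (nat_lit 12) (nat_lit 1) (.cons (.br (nat_lit 12) (nat_lit 1) (.cons (.zr (nat_lit 18981699656245175124736) (nat_lit 159075295048315761991901773830) (nat_lit 5) (nat_lit 4)) .nil)) (.cons (.zr (nat_lit 18944806168097756022016) (nat_lit 40564821625154980358632140570630) (nat_lit 5) (nat_lit 4)) .nil))) .nil))),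
 (.br (nat_lit 11) (nat_lit 1) (.cons (.rf (nat_lit 2221) (nat_lit 493858305440582043680)) (.cons (.br (nat_lit 10) (nat_lit 1) (.cons (.ev (nat_lit 310698658007724046833156353) (nat_lit 1)) (.cons (.rf (nat_lit 2130) (nat_lit 415521255357669378377)) (.cons (.br (nat_lit 8) (nat_lit 1) (.cons (.ev (nat_lit 20838562657170976004090590593798) (nat_lit 3)) .nil)) .nil)))) .nil))),
 (.br (nat_lit 11) (nat_lit 1) (.cons (.rf (nat_lit 2221) (nat_lit 493858305440582043680)) (.cons (.rf (nat_lit 2222) (nat_lit 493858305440582043680)) (.cons (.br (nat_lit 11) (nat_lit 1) (.cons (.rf (nat_lit 2221) (nat_lit 493858305440582043680)) (.cons (.rf (nat_lit 2222) (nat_lit 493858305440582043680)) .nil))) .nil)))),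
 (.br (nat_lit 8) (nat_lit 1) (.cons (.rf (nat_lit 2223) (nat_lit 493858305440582043680)) (.cons (.br (nat_lit 11) (nat_lit 1) (.cons (.br (nat_lit 11) (nat_lit 1) (.cons (.zr (nat_lit 79228162606570963292479553536) (nat_lit 1237949484018346014223107074) (nat_lit 10) (nat_lit 5)) .nil)) (.cons (.zr (nat_lit 20282409617818770716981167457536) (nat_lit 4835777065437019150221314) (nat_lit 10) (nat_lit 3)) .nil))) .nil))),
 (.br (nat_lit 8) (nat_lit 1) (.cons (.rf (nat_lit 2223) (nat_lit 493858305440582043680)) (.cons (.rf (nat_lit 2224) (nat_lit 493858305440582043680)) (.cons (.br (nat_lit 8) (nat_lit 1) (.cons (.rf (nat_lit 2223) (nat_lit 493858305440582043680)) (.cons (.rf (nat_lit 2224) (nat_lit 493858305440582043680)) .nil))) .nil)))),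
 (.br (nat_lit 11) (nat_lit 1) (.cons (.rf (nat_lit 2223) (nat_lit 493858305440582043680)) (.cons (.rf (nat_lit 2225) (nat_lit 493858305440582043680)) (.cons (.br (nat_lit 11) (nat_lit 1) (.cons (.rf (nat_lit 2223) (nat_lit 493858305440582043680)) (.cons (.rf (nat_lit 2225) (nat_lit 493858305440582043680)) .nil))) .nil)))),
 (.br (nat_lit 11) (nat_lit 1) (.cons (.rf (nat_lit 2223) (nat_lit 493858305440582043680)) (.cons (.rf (nat_lit 2225) (nat_lit 493858305440582043680)) (.cons (.rf (nat_lit 2226) (nat_lit 493858305440582043680)) (.cons (.br (nat_lit 11) (nat_lit 1) (.cons (.rf (nat_lit 2223) (nat_lit 493858305440582043680)) (.cons (.rf (nat_lit 2225) (nat_lit 493858305440582043680)) (.cons (.rf (nat_lit 2226) (nat_lit 493858305440582043680)) .nil)))) .nil))))),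
 (.br (nat_lit 8) (nat_lit 1) (.cons (.rf (nat_lit 2227) (nat_lit 493858305440582043680)) (.cons (.br (nat_lit 1) (nat_lit 1) (.cons (.br (nat_lit 11) (nat_lit 1) (.cons (.zr (nat_lit 1553474400572971308565200897) (nat_lit 633825300169671105790248747008) (nat_lit 20) (nat_lit 6)) (.cons (.ev (nat_lit 620193131009061503063032576) (nat_lit 2)) .nil))) (.cons (.rf (nat_lit 84) (nat_lit 14239991847)) (.cons (.br (nat_lit 12) (nat_lit 1) (.cons (.br (nat_lit 11) (nat_lit 1) (.cons (.zr (nat_lit 237684487598349417783991730176) (nat_lit 1547429771473490792052425985) (nat_lit 5) (nat_lit 9)) .nil)) (.cons (.ev (nat_lit 40644051010817648106877277635329) (nat_lit 2)) .nil))) .nil)))) (.cons (.br (nat_lit 1) (nat_lit 1) (.cons (.br (nat_lit 12) (nat_lit 1) (.cons (.ev (nat_lit 311902898570237455680864515) (nat_lit 2)) (.cons (.br (nat_lit 11) (nat_lit 1) (.cons (.ev (nat_lit 311902898570237455680864515) (nat_lit 2)) .nil)) .nil))) (.cons (.rf (nat_lit 2196) (nat_lit 420143386567983078432)) (.cons (.ev (nat_lit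 20282410812577562096174775664896) (nat_lit 1)) .nil)))) .nil)))),
 (.br (nat_lit 8) (nat_lit 1) (.cons (.rf (nat_lit 84) (nat_lit 14369761319)) (.cons (.rf (nat_lit 2228) (nat_lit 493858305440582043680)) (.cons (.br (nat_lit 1) (nat_lit 1) (.cons (.br (nat_lit 11) (nat_lit 1) (.cons (.br (nat_lit 11) (nat_lit 1) (.cons (.ev (nat_lit 79847132570801363614762729985) (nat_lit 2)) .nil)) (.cons (.br (nat_lit 11) (nat_lit 1) (.cons (.ev (nat_lit 79847132570801363614762729985) (nat_lit 2)) .nil)) .nil))) (.cons (.rf (nat_lit 84) (nat_lit 14239991847)) (.cons (.ev (nat_lit 20282410812577562096174775664896) (nat_lit 1)) .nil)))) .nil)))),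
 (.br (nat_lit 8) (nat_lit 1) (.cons (.rf (nat_lit 2227) (nat_lit 493858305440582043680)) (.cons (.rf (nat_lit 2228) (nat_lit 493858305440582043680)) (.cons (.rf (nat_lit 2229) (nat_lit 493858305440582043680)) (.cons (.br (nat_lit 8) (nat_lit 1) (.cons (.rf (nat_lit 84) (nat_lit 13329737762)) (.cons (.rf (nat_lit 2228) (nat_lit 493858305440582043680)) (.cons (.rf (nat_lit 2229) (nat_lit 493858305440582043680)) .nil)))) .nil))))),
 (.br (nat_lit 8) (nat_lit 1) (.cons (.rf (nat_lit 2227) (nat_lit 493858305440582043680)) (.cons (.rf (nat_lit 2230) (nat_lit 493858305440582043680)) (.cons (.br (nat_lit 10) (nat_lit 1) (.cons (.br (nat_lit 11) (nat_lit 1) (.cons (.rf (nat_lit 2134) (nat_lit 415521255357669378377)) (.cons (.zr (nat_lit 60847232437732470115729278173184) (nat_lit 4759260253595864399873) (nat_lit 5) (nat_lit 9)) .nil))) (.cons (.br (nat_lit 13) (nat_lit 1) (.cons (.zr (nat_lit 60847232437732470115729278173184) (nat_lit 4759260253595864399873) (nat_lit 5) (nat_lit 9)) (.cons (.br (nat_lit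 1) (nat_lit 1) (.cons (.ev (nat_lit 20839174364264755014818072822530) (nat_lit 3)) .nil)) (.cons (.ev (nat_lit 79229376180897180265585115136) (nat_lit 1)) .nil)))) (.cons (.br (nat_lit 13) (nat_lit 1) (.cons (.ev (nat_lit 20361637770906820327557476450305) (nat_lit 1)) (.cons (.ev (nat_lit 20361637770888301525889728905216) (nat_lit 1)) .nil))) (.cons (.ev (nat_lit 1213666633123051801149441) (nat_lit 1)) .nil))))) .nil)))),
 (.br (nat_lit 8) (nat_lit 1) (.cons (.rf (nat_lit 2227) (nat_lit 493858305440582043680)) (.cons (.rf (nat_lit 2230) (nat_lit 493858305440582043680)) (.cons (.rf (nat_lit 2231) (nat_lit 493858305440582043680)) (.cons (.br (nat_lit 8) (nat_lit 1) (.cons (.rf (nat_lit 2227) (nat_lit 493858305440582043680)) (.cons (.rf (nat_lit 2230) (nat_lit 493858305440582043680)) (.cons (.rf (nat_lit 2231) (nat_lit 493858305440582043680)) .nil)))) .nil))))),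
 (.br (nat_lit 8) (nat_lit 1) (.cons (.rf (nat_lit 2227) (nat_lit 493858305440582043680)) (.cons (.rf (nat_lit 2230) (nat_lit 493858305440582043680)) (.cons (.rf (nat_lit 2232) (nat_lit 493858305440582043680)) (.cons (.br (nat_lit 8) (nat_lit 1) (.cons (.rf (nat_lit 2227) (nat_lit 493858305440582043680)) (.cons (.rf (nat_lit 2230) (nat_lit 493858305440582043680)) (.cons (.rf (nat_lit 2232) (nat_lit 493858305440582043680)) .nil)))) .nil))))),
 (.br (nat_lit 7) (nat_lit 1) (.cons (.ev (nat_lit 4722366482873940246784) (nat_lit 1)) (.cons (.rf (nat_lit 2175) (nat_lit 493858305268783356960)) (.cons (.rf (nat_lit 2186) (nat_lit 493858305268783356960)) (.cons (.rf (nat_lit 2218) (nat_lit 493858305268783356960)) (.cons (.br (nat_lit 1) (nat_lit 1) (.cons (.br (nat_lit 12) (nat_lit 1) (.cons (.rf (nat_lit 1339) (nat_lit 289184910370)) (.cons (.kr (nat_lit 4722366482869645213696) (nat_lit 79228162514264337593543950336) (nat_lit 9) (nat_lit 0)) (.cons (.ev (nat_lit 79228167236631103037677502721) (nat_lit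 1)) (.cons (.br (nat_lit 10) (nat_lit 1) (.cons (.rf (nat_lit 82) (nat_lit 14239996993)) (.cons (.br (nat_lit 8) (nat_lit 1) (.cons (.br (nat_lit 8) (nat_lit 1) (.cons (.ev (nat_lit 79228167255149904705425047808) (nat_lit 1)) .nil)) (.cons (.br (nat_lit 8) (nat_lit 1) (.cons (.ev (nat_lit 79228167255149904705425047808) (nat_lit 1)) .nil)) .nil))) (.cons (.rf (nat_lit 84) (nat_lit 9039060033)) .nil)))) .nil))))) (.cons (.rf (nat_lit 29) (nat_lit 12814657)) (.cons (.br (nat_lit 12) (nat_lit 1) (.cons (.ev (nat_lit 79228167236631103037677502721) (nat_lit 1)) (.cons (.kr (nat_lit 4722366482869645213696) (nat_lit 79228162514264337593543950336) (nat_lit 9) (nat_lit 0)) (.cons (.rf (nat_lit 1339) (nat_lit 392264125474)) (.cons (.br (nat_lit 10) (nat_lit 1) (.cons (.br (nat_lit 8) (nat_lit 1) (.cons (.rf (nat_lit 2219) (nat_lit 493858305440582043680)) (.cons (.br (nat_lit 8) (nat_lit 1) (.cons (.rf (nat_lit 2219) (nat_lit 493858305440582043680)) .nil)) .nil))) (.cons (.rf (nat_lit 82) (nat_lit 14340660289))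 (.cons (.rf (nat_lit 84) (nat_lit 12260285505)) .nil)))) .nil))))) (.cons (.rf (nat_lit 58) (nat_lit 12814378)) (.cons (.br (nat_lit 13) (nat_lit 1) (.cons (.rf (nat_lit 2220) (nat_lit 493858305440582043680)) (.cons (.rf (nat_lit 1343) (nat_lit 275321858082)) (.cons (.br (nat_lit 13) (nat_lit 1) (.cons (.rf (nat_lit 2220) (nat_lit 493858305440582043680)) (.cons (.rf (nat_lit 82) (nat_lit 12227684386)) (.cons (.rf (nat_lit 1339) (nat_lit 458836121634)) .nil)))) (.cons (.rf (nat_lit 1339) (nat_lit 458836121634)) .nil))))) .nil)))))) (.cons (.br (nat_lit 8) (nat_lit 1) (.cons (.rf (nat_lit 2227) (nat_lit 493858305440582043680)) (.cons (.rf (nat_lit 2230) (nat_lit 493858305440582043680)) (.cons (.rf (nat_lit 2232) (nat_lit 493858305440582043680)) (.cons (.rf (nat_lit 2233) (nat_lit 493858305440582043680)) (.cons (.br (nat_lit 8) (nat_lit 1) (.cons (.rf (nat_lit 2227) (nat_lit 493858305440582043680)) (.cons (.rf (nat_lit 2230) (nat_lit 493858305440582043680)) (.cons (.rf (nat_lit 2232) (nat_lit 493858305440582043680))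 (.cons (.rf (nat_lit 2233) (nat_lit 493858305440582043680)) .nil))))) .nil)))))) .nil))))))),
 (.br (nat_lit 8) (nat_lit 1) (.cons (.rf (nat_lit 1339) (nat_lit 287038478370)) (.cons (.rf (nat_lit 1339) (nat_lit 286736488770)) (.cons (.br (nat_lit 1) (nat_lit 1) (.cons (.rf (nat_lit 29) (nat_lit 13863233)) (.cons (.br (nat_lit 10) (nat_lit 1) (.cons (.ev (nat_lit 20282720302328124893162993876993) (nat_lit 1)) (.cons (.br (nat_lit 11) (nat_lit 1) (.cons (.ev (nat_lit 310698676526525714580701440) (nat_lit 1)) .nil)) .nil))) (.cons (.br (nat_lit 10) (nat_lit 1) (.cons (.br (nat_lit 11) (nat_lit 1) (.cons (.ev (nat_lit 21314548193906336635784226082566) (nat_lit 4)) .nil)) (.cons (.rf (nat_lit 82) (nat_lit 9038964770)) .nil))) .nil)))) .nil)))),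
 (.br (nat_lit 12) (nat_lit 1) (.cons (.rf (nat_lit 1339) (nat_lit 424477431842)) (.cons (.rf (nat_lit 1339) (nat_lit 424175442242)) (.cons (.br (nat_lit 1) (nat_lit 1) (.cons (.br (nat_lit 8) (nat_lit 1) (.cons (.rf (nat_lit 82) (nat_lit 13329737762)) (.cons (.ev (nat_lit 20282409603670117449500249292801) (nat_lit 1)) .nil))) (.cons (.kr (nat_lit 4722366482869661990912) (nat_lit 20282410812577490038576425992192) (nat_lit 3) (nat_lit 0)) (.cons (.br (nat_lit 10) (nat_lit 1) (.cons (.br (nat_lit 8) (nat_lit 1) (.cons (.ev (nat_lit 1223111510486553655902466) (nat_lit 2)) .nil)) (.cons (.ev (nat_lit 20361947255898194928552474902785) (nat_lit 1)) .nil))) .nil)))) .nil)))),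
 (.br (nat_lit 9) (nat_lit 1) (.cons (.br (nat_lit 10) (nat_lit 0) (.cons (.br (nat_lit 4) (nat_lit 1) (.cons (.br (nat_lit 2) (nat_lit 1) (.cons (.rf (nat_lit 2048) (nat_lit 493858305440582043680)) (.cons (.kr (nat_lit 65536) (nat_lit 72057594037927936) (nat_lit 2) (nat_lit 0)) (.cons (.rf (nat_lit 2095) (nat_lit 493858305440582043680)) (.cons (.rf (nat_lit 2048) (nat_lit 415521255358745119049)) (.cons (.rf (nat_lit 2115) (nat_lit 493858305440582043680)) (.cons (.rf (nat_lit 2095) (nat_lit 415521255358745119049)) (.cons (.rf (nat_lit 2115) (nat_lit 415521255358745119049)) .nil)))))))) .nil)) (.cons (.br (nat_lit 3) (nat_lit 1) (.cons (.br (nat_lit 2) (nat_lit 1) (.cons (.rf (nat_lit 2128) (nat_lit 493858305440582043680)) (.cons (.kr (nat_lit 65536) (nat_lit 72057594037927936) (nat_lit 2) (nat_lit 0)) (.cons (.rf (nat_lit 2175) (nat_lit 493858305440582043680)) (.cons (.rf (nat_lit 2186) (nat_lit 493858305440582043680)) (.cons (.rf (nat_lit 2218) (nat_lit 493858305440582043680)) (.cons (.rf (nat_lit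 2234) (nat_lit 493858305440582043680)) (.cons (.br (nat_lit 7) (nat_lit 1) (.cons (.rf (nat_lit 2128) (nat_lit 493858305268783356960)) (.cons (.rf (nat_lit 2175) (nat_lit 493858305268783356960)) (.cons (.rf (nat_lit 2186) (nat_lit 493858305268783356960)) (.cons (.rf (nat_lit 2218) (nat_lit 493858305268783356960)) (.cons (.rf (nat_lit 2234) (nat_lit 493858305268783356960)) (.cons (.br (nat_lit 13) (nat_lit 1) (.cons (.rf (nat_lit 58) (nat_lit 13862954)) (.cons (.br (nat_lit 8) (nat_lit 1) (.cons (.rf (nat_lit 1339) (nat_lit 287038478370)) (.cons (.rf (nat_lit 1339) (nat_lit 286736488770)) (.cons (.rf (nat_lit 2235) (nat_lit 493858305440582043680)) (.cons (.br (nat_lit 8) (nat_lit 1) (.cons (.rf (nat_lit 1339) (nat_lit 287038478370)) (.cons (.rf (nat_lit 1339) (nat_lit 286736488770)) (.cons (.rf (nat_lit 2235) (nat_lit 493858305440582043680)) .nil)))) .nil))))) (.cons (.rf (nat_lit 58) (nat_lit 13966401)) (.cons (.ev (nat_lit 20282409603651742763020577734656) (nat_lit 1)) (.cons (.br (nat_lit 12)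 (nat_lit 1) (.cons (.rf (nat_lit 1339) (nat_lit 424477431842)) (.cons (.rf (nat_lit 2236) (nat_lit 493858305440582043680)) (.cons (.rf (nat_lit 1339) (nat_lit 424175442242)) (.cons (.br (nat_lit 12) (nat_lit 1) (.cons (.rf (nat_lit 1339) (nat_lit 424477431842)) (.cons (.rf (nat_lit 2236) (nat_lit 493858305440582043680)) (.cons (.rf (nat_lit 1339) (nat_lit 424175442242)) .nil)))) .nil))))) .nil)))))) .nil))))))) .nil)))))))) .nil)) .nil))) .nil)),
 (.br (nat_lit 12) (nat_lit 1) (.cons (.kr (nat_lit 20282719088661563826610013995264) (nat_lit 79229371458530696296428273664) (nat_lit 1) (nat_lit 0)) .nil)),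
 (.br (nat_lit 10) (nat_lit 1) (.cons (.ev (nat_lit 310698676454186645549285376) (nat_lit 1)) (.cons (.rf (nat_lit 2238) (nat_lit 493858305440582043680)) .nil))),
 (.br (nat_lit 11) (nat_lit 1) (.cons (.rf (nat_lit 31) (nat_lit 377822273)) (.cons (.br (nat_lit 8) (nat_lit 1) (.cons (.ev (nat_lit 1208944266641277389373696) (nat_lit 1)) (.cons (.rf (nat_lit 2239) (nat_lit 493858305440582043680)) (.cons (.rf (nat_lit 2239) (nat_lit 458117738797769787424)) .nil)))) .nil))),
 (.br (nat_lit 11) (nat_lit 1) (.cons (.rf (nat_lit 31) (nat_lit 377822273)) (.cons (.rf (nat_lit 2240) (nat_lit 493858305440582043680)) (.cons (.rf (nat_lit 2240) (nat_lit 458117738797769787424)) .nil)))),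
 (.br (nat_lit 8) (nat_lit 1) (.cons (.rf (nat_lit 29) (nat_lit 8723521)) (.cons (.rf (nat_lit 2241) (nat_lit 493858305440582043680)) (.cons (.rf (nat_lit 1593) (nat_lit 459806091329)) .nil)))),
 (.br (nat_lit 8) (nat_lit 1) (.cons (.rf (nat_lit 29) (nat_lit 8723521)) (.cons (.rf (nat_lit 2241) (nat_lit 493858305440582043680)) (.cons (.rf (nat_lit 2242) (nat_lit 493858305440582043680)) (.cons (.rf (nat_lit 2242) (nat_lit 458117738797769787424)) .nil)))))]

theorem c73 : chkAll C T R L73 (nat_lit 2219) = true := by decide +kernel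

theorem l73 : (nat_lit 2219) + L73.length = (nat_lit 2244) := by decide +kernel

/-- part of the certificates -/
def L74 : List Prf := [(.br (nat_lit 12) (nat_lit 1) (.cons (.ev (nat_lit 79230580366120587370357063681) (nat_lit 2)) (.cons (.ev (nat_lit 79537647524085682666580541441) (nat_lit 1)) .nil))),
 (.br (nat_lit 11) (nat_lit 1) (.cons (.rf (nat_lit 31) (nat_lit 377727041)) (.cons (.br (nat_lit 7) (nat_lit 1) (.cons (.ev (nat_lit 1208944266641277389373696) (nat_lit 1)) (.cons (.rf (nat_lit 2244) (nat_lit 493858305440582043680)) (.cons (.rf (nat_lit 2244) (nat_lit 458117738797769787424)) .nil)))) .nil))),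
 (.br (nat_lit 11) (nat_lit 1) (.cons (.rf (nat_lit 31) (nat_lit 377727041)) (.cons (.rf (nat_lit 2245) (nat_lit 493858305440582043680)) (.cons (.rf (nat_lit 2245) (nat_lit 458117738797769787424)) .nil)))),
 (.br (nat_lit 8) (nat_lit 1) (.cons (.rf (nat_lit 29) (nat_lit 8723521)) (.cons (.rf (nat_lit 2246) (nat_lit 493858305440582043680)) (.cons (.ev (nat_lit 4740813226947649798401) (nat_lit 1)) .nil)))),
 (.br (nat_lit 8) (nat_lit 1) (.cons (.rf (nat_lit 29) (nat_lit 8723521)) (.cons (.rf (nat_lit 2246) (nat_lit 493858305440582043680)) (.cons (.rf (nat_lit 2247) (nat_lit 493858305440582043680)) (.cons (.rf (nat_lit 2247) (nat_lit 458117738797769787424)) .nil))))),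
 (.br (nat_lit 11) (nat_lit 1) (.cons (.ev (nat_lit 310698676454186645549285376) (nat_lit 1)) (.cons (.ev (nat_lit 310698658079500165877596161) (nat_lit 1)) .nil))),
 (.br (nat_lit 10) (nat_lit 1) (.cons (.br (nat_lit 12) (nat_lit 1) (.cons (.ev (nat_lit 79849559867245051048907244035) (nat_lit 2)) (.cons (.zr (nat_lit 237688114320251856668156166144) (nat_lit 4759260253595864399873) (nat_lit 5) (nat_lit 9)) .nil))) (.cons (.ev (nat_lit 79228167255149904705425047808) (nat_lit 1)) (.cons (.br (nat_lit 12) (nat_lit 1) (.cons (.zr (nat_lit 237688114320251856668156166144) (nat_lit 4759260253595864399873) (nat_lit 5) (nat_lit 9)) (.cons (.rf (nat_lit 31) (nat_lit 449125441)) .nil))) .nil)))),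
 (.br (nat_lit 8) (nat_lit 1) (.cons (.rf (nat_lit 2243) (nat_lit 493858305440582043680)) (.cons (.rf (nat_lit 2248) (nat_lit 493858305440582043680)) (.cons (.br (nat_lit 7) (nat_lit 1) (.cons (.rf (nat_lit 246) (nat_lit 456751651905)) (.cons (.br (nat_lit 10) (nat_lit 1) (.cons (.kr (nat_lit 1208925819614629174706177) (nat_lit 309485009821345068724781312) (nat_lit 0) (nat_lit 2)) (.cons (.rf (nat_lit 2249) (nat_lit 493858305440582043680)) (.cons (.rf (nat_lit 2249) (nat_lit 458117738797769787424)) .nil)))) (.cons (.rf (nat_lit 2250) (nat_lit 493858305440582043680)) (.cons (.rf (nat_lit 2250) (nat_lit 458117738797769787424)) .nil))))) .nil)))),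
 (.br (nat_lit 8) (nat_lit 1) (.cons (.rf (nat_lit 2243) (nat_lit 493858305440582043680)) (.cons (.rf (nat_lit 2248) (nat_lit 493858305440582043680)) (.cons (.rf (nat_lit 2251) (nat_lit 493858305440582043680)) (.cons (.rf (nat_lit 2251) (nat_lit 458117738797769787424)) .nil))))),
 (.br (nat_lit 8) (nat_lit 1) (.cons (.rf (nat_lit 2243) (nat_lit 493858305440582043680)) (.cons (.rf (nat_lit 2248) (nat_lit 493858305440582043680)) (.cons (.rf (nat_lit 2252) (nat_lit 493858305440582043680)) (.cons (.br (nat_lit 8) (nat_lit 1) (.cons (.rf (nat_lit 1593) (nat_lit 459806091329)) (.cons (.ev (nat_lit 4740813226947649798401) (nat_lit 1)) (.cons (.rf (nat_lit 2252) (nat_lit 493858305440582043680)) .nil)))) .nil))))),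
 (.br (nat_lit 8) (nat_lit 1) (.cons (.rf (nat_lit 2243) (nat_lit 493858305440582043680)) (.cons (.rf (nat_lit 2248) (nat_lit 493858305440582043680)) (.cons (.rf (nat_lit 2252) (nat_lit 493858305440582043680)) (.cons (.rf (nat_lit 2253) (nat_lit 493858305440582043680)) (.cons (.rf (nat_lit 2253) (nat_lit 458117738797769787424)) .nil)))))),
 (.br (nat_lit 11) (nat_lit 1) (.cons (.ev (nat_lit 310693954160043940135370753) (nat_lit 1)) (.cons (.br (nat_lit 12) (nat_lit 1) (.cons (.ev (nat_lit 79228162532783139265586397441) (nat_lit 1)) (.cons (.zr (nat_lit 18889467057378487698176) (nat_lit 159075295048171366428360966145) (nat_lit 5) (nat_lit 3)) .nil))) .nil))),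
 (.br (nat_lit 8) (nat_lit 1) (.cons (.rf (nat_lit 84) (nat_lit 13262620714)) (.cons (.rf (nat_lit 84) (nat_lit 12222531623)) (.cons (.br (nat_lit 11) (nat_lit 1) (.cons (.rf (nat_lit 2255) (nat_lit 493858305440582043680)) (.cons (.br (nat_lit 12) (nat_lit 1) (.cons (.rf (nat_lit 2255) (nat_lit 493858305440582043680)) (.cons (.zr (nat_lit 3626833015248890766557184) (nat_lit 40564819212025707613342947868673) (nat_lit 5) (nat_lit 0)) .nil))) .nil))) .nil)))),
 (.br (nat_lit 10) (nat_lit 1) (.cons (.rf (nat_lit 84) (nat_lit 13262719015)) (.cons (.br (nat_lit 11) (nat_lit 1) (.cons (.ev (nat_lit 20361637766184381788188993126656) (nat_lit 1)) .nil)) .nil))),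
 (.br (nat_lit 12) (nat_lit 1) (.cons (.rf (nat_lit 1339) (nat_lit 424472025313)) (.cons (.rf (nat_lit 82) (nat_lit 12092254433)) (.cons (.br (nat_lit 8) (nat_lit 1) (.cons (.rf (nat_lit 58) (nat_lit 8718375)) (.cons (.rf (nat_lit 2257) (nat_lit 493858305440582043680)) (.cons (.br (nat_lit 10) (nat_lit 1) (.cons (.br (nat_lit 11) (nat_lit 1) (.cons (.zr (nat_lit 18889467057378487698176) (nat_lit 159075295048171366428360966145) (nat_lit 5) (nat_lit 3)) .nil)) (.cons (.ev (nat_lit 20282409603670189225619293733121) (nat_lit 1)) .nil))) .nil)))) .nil)))),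
 (.br (nat_lit 12) (nat_lit 1) (.cons (.rf (nat_lit 1339) (nat_lit 424472025313)) (.cons (.rf (nat_lit 1343) (nat_lit 456745298145)) (.cons (.rf (nat_lit 2258) (nat_lit 493858305440582043680)) (.cons (.br (nat_lit 12) (nat_lit 1) (.cons (.rf (nat_lit 1339) (nat_lit 424472025313)) (.cons (.rf (nat_lit 82) (nat_lit 14239738081)) (.cons (.rf (nat_lit 2258) (nat_lit 493858305440582043680)) .nil)))) .nil))))),
 (.br (nat_lit 7) (nat_lit 1) (.cons (.kr (nat_lit 1) (nat_lit 18446744073709551616) (nat_lit 0) (nat_lit 1)) (.cons (.rf (nat_lit 29) (nat_lit 8455495)) (.cons (.br (nat_lit 10) (nat_lit 1) (.cons (.rf (nat_lit 58) (nat_lit 8718375)) (.cons (.rf (nat_lit 1343) (nat_lit 422352005345)) (.cons (.rf (nat_lit 2256) (nat_lit 493858305440582043680)) (.cons (.rf (nat_lit 2256) (nat_lit 458117738797769787424)) .nil))))) (.cons (.rf (nat_lit 2259) (nat_lit 493858305440582043680)) (.cons (.rf (nat_lit 2259) (nat_lit 458117738797769787424)) .nil)))))),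
 (.br (nat_lit 12) (nat_lit 1) (.cons (.ev (nat_lit 18519084242235883776) (nat_lit 1)) (.cons (.zr (nat_lit 18889467057378487698176) (nat_lit 159075295048171366428360966145) (nat_lit 5) (nat_lit 3)) .nil))),
 (.br (nat_lit 11) (nat_lit 1) (.cons (.rf (nat_lit 31) (nat_lit 377718082)) (.cons (.br (nat_lit 7) (nat_lit 1) (.cons (.zr (nat_lit 9444734091639197270785) (nat_lit 618970056536179388692168704) (nat_lit 5) (nat_lit 3)) (.cons (.rf (nat_lit 2261) (nat_lit 493858305440582043680)) (.cons (.rf (nat_lit 2261) (nat_lit 458117738797769787424)) .nil)))) .nil))),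
 (.br (nat_lit 11) (nat_lit 1) (.cons (.rf (nat_lit 31) (nat_lit 377718082)) (.cons (.rf (nat_lit 2262) (nat_lit 493858305440582043680)) (.cons (.rf (nat_lit 2262) (nat_lit 458117738797769787424)) .nil)))),
 (.br (nat_lit 8) (nat_lit 1) (.cons (.rf (nat_lit 29) (nat_lit 8619330)) (.cons (.rf (nat_lit 2263) (nat_lit 493858305440582043680)) (.cons (.rf (nat_lit 1593) (nat_lit 459604761922)) .nil)))),
 (.br (nat_lit 8) (nat_lit 1) (.cons (.rf (nat_lit 29) (nat_lit 8619330)) (.cons (.rf (nat_lit 2263) (nat_lit 493858305440582043680)) (.cons (.rf (nat_lit 2264) (nat_lit 493858305440582043680)) (.cons (.rf (nat_lit 2264) (nat_lit 458117738797769787424)) .nil))))),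
 (.br (nat_lit 11) (nat_lit 1) (.cons (.rf (nat_lit 84) (nat_lit 13164911690)) (.cons (.ev (nat_lit 310693935641242272387825664) (nat_lit 1)) (.cons (.br (nat_lit 8) (nat_lit 1) (.cons (.br (nat_lit 8) (nat_lit 1) (.cons (.ev (nat_lit 310693954160043940135370753) (nat_lit 1)) .nil)) (.cons (.br (nat_lit 8) (nat_lit 1) (.cons (.ev (nat_lit 310693954160043940135370753) (nat_lit 1)) .nil)) .nil))) .nil)))),
 (.br (nat_lit 8) (nat_lit 1) (.cons (.br (nat_lit 11) (nat_lit 1) (.cons (.ev (nat_lit 310698658007442571839733761) (nat_lit 1)) (.cons (.ev (nat_lit 310698676526244239587147776) (nat_lit 1)) .nil))) (.cons (.br (nat_lit 11) (nat_lit 1) (.cons (.zr (nat_lit 18889467057378487698688) (nat_lit 158458742917061393696679919617) (nat_lit 5) (nat_lit 3)) (.cons (.br (nat_lit 11) (nat_lit 1) (.cons (.zr (nat_lit 18889467057378487698688) (nat_lit 158458742917061393696679919617) (nat_lit 5) (nat_lit 3)) .nil)) .nil))) .nil))),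
 (.br (nat_lit 7) (nat_lit 1) (.cons (.ev (nat_lit 79537647542604765809287889153) (nat_lit 1)) .nil)),
 (.br (nat_lit 13) (nat_lit 1) (.cons (.rf (nat_lit 2267) (nat_lit 493858305440582043680)) (.cons (.br (nat_lit 10) (nat_lit 1) (.cons (.br (nat_lit 11) (nat_lit 1) (.cons (.ev (nat_lit 310698658007442571839733761) (nat_lit 1)) .nil)) (.cons (.zr (nat_lit 928455029680207988288127744) (nat_lit 40564819212025707613342947868673) (nat_lit 5) (nat_lit 0)) (.cons (.rf (nat_lit 2268) (nat_lit 15433072044983552032)) .nil)))) .nil))),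
 (.br (nat_lit 13) (nat_lit 1) (.cons (.rf (nat_lit 2267) (nat_lit 493858305440582043680)) (.cons (.rf (nat_lit 2269) (nat_lit 493858305440582043680)) (.cons (.br (nat_lit 13) (nat_lit 1) (.cons (.rf (nat_lit 2267) (nat_lit 493858305440582043680)) (.cons (.rf (nat_lit 2269) (nat_lit 493858305440582043680)) .nil))) .nil)))),
 (.br (nat_lit 8) (nat_lit 1) (.cons (.br (nat_lit 12) (nat_lit 1) (.cons (.ev (nat_lit 310698676526244239587147776) (nat_lit 1)) (.cons (.zr (nat_lit 237684487542793012780699156480) (nat_lit 2422610899482854197035009) (nat_lit 5) (nat_lit 9)) .nil))) (.cons (.rf (nat_lit 2270) (nat_lit 493858305440582043680)) .nil))),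
 (.br (nat_lit 8) (nat_lit 1) (.cons (.rf (nat_lit 2271) (nat_lit 493858305440582043680)) (.cons (.br (nat_lit 8) (nat_lit 1) (.cons (.rf (nat_lit 2271) (nat_lit 493858305440582043680)) (.cons (.rf (nat_lit 2270) (nat_lit 493858305440582043680)) .nil))) (.cons (.rf (nat_lit 2270) (nat_lit 493858305440582043680)) .nil)))),
 (.br (nat_lit 13) (nat_lit 1) (.cons (.rf (nat_lit 2270) (nat_lit 493858305440582043680)) (.cons (.rf (nat_lit 2272) (nat_lit 493858305440582043680)) (.cons (.br (nat_lit 13) (nat_lit 1) (.cons (.rf (nat_lit 2270) (nat_lit 493858305440582043680)) (.cons (.rf (nat_lit 2272) (nat_lit 493858305440582043680)) .nil))) .nil)))),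
 (.br (nat_lit 13) (nat_lit 1) (.cons (.rf (nat_lit 2270) (nat_lit 493858305440582043680)) (.cons (.rf (nat_lit 2272) (nat_lit 493858305440582043680)) (.cons (.rf (nat_lit 2273) (nat_lit 493858305440582043680)) (.cons (.br (nat_lit 13) (nat_lit 1) (.cons (.rf (nat_lit 2270) (nat_lit 493858305440582043680)) (.cons (.rf (nat_lit 2272) (nat_lit 493858305440582043680)) (.cons (.rf (nat_lit 2273) (nat_lit 493858305440582043680)) .nil)))) .nil))))),
 (.br (nat_lit 7) (nat_lit 1) (.cons (.rf (nat_lit 2260) (nat_lit 493858305268783356960)) (.cons (.rf (nat_lit 2265) (nat_lit 493858305268783356960)) (.cons (.br (nat_lit 10) (nat_lit 1) (.cons (.rf (nat_lit 1343) (nat_lit 422360390721)) (.cons (.kr (nat_lit 1208925819614629174706177) (nat_lit 309485009821345068724781312) (nat_lit 0) (nat_lit 2)) (.cons (.rf (nat_lit 2266) (nat_lit 14242959524133701664)) (.cons (.rf (nat_lit 2266) (nat_lit 15395881028740548640)) .nil))))) (.cons (.rf (nat_lit 2274) (nat_lit 493858305440582043680)) (.cons (.rf (nat_lit 2274)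 (nat_lit 458117738797769787424)) .nil)))))),
 (.br (nat_lit 8) (nat_lit 1) (.cons (.br (nat_lit 11) (nat_lit 1) (.cons (.ev (nat_lit 20837319881465306216396331483392) (nat_lit 3)) .nil)) .nil)),
 (.br (nat_lit 12) (nat_lit 1) (.cons (.ev (nat_lit 79847132570801363614762729985) (nat_lit 2)) (.cons (.zr (nat_lit 79228162532783986997641347072) (nat_lit 4845148011424256022806530) (nat_lit 10) (nat_lit 5)) .nil))),
 (.br (nat_lit 8) (nat_lit 1) (.cons (.rf (nat_lit 2277) (nat_lit 493858305440582043680)) (.cons (.rf (nat_lit 2277) (nat_lit 458117738625971100704)) .nil))),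
 (.br (nat_lit 11) (nat_lit 1) (.cons (.rf (nat_lit 2278) (nat_lit 493858305440582043680)) (.cons (.br (nat_lit 10) (nat_lit 1) (.cons (.ev (nat_lit 310693935713299866425819136) (nat_lit 1)) (.cons (.zr (nat_lit 18889467057378487698176) (nat_lit 159075295048315481616436690945) (nat_lit 5) (nat_lit 3)) (.cons (.zr (nat_lit 18889467057378487698176) (nat_lit 40565438177322983539135775637505) (nat_lit 5) (nat_lit 3)) .nil)))) .nil))),
 (.br (nat_lit 11) (nat_lit 1) (.cons (.rf (nat_lit 2278) (nat_lit 493858305440582043680)) (.cons (.rf (nat_lit 2279) (nat_lit 493858305440582043680)) (.cons (.rf (nat_lit 2279) (nat_lit 458117738625971100704)) .nil)))),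
 (.br (nat_lit 8) (nat_lit 1) (.cons (.rf (nat_lit 2280) (nat_lit 493858305440582043680)) (.cons (.br (nat_lit 11) (nat_lit 1) (.cons (.zr (nat_lit 79228162532783986997641347072) (nat_lit 4845148011424256022806530) (nat_lit 10) (nat_lit 5)) (.cons (.zr (nat_lit 20282409603670118015757310820352) (nat_lit 4845148011424256022806530) (nat_lit 10) (nat_lit 5)) .nil))) .nil)))]

theorem c74 : chkAll C T R L74 (nat_lit 2244) = true := by decide +kernel

theorem l74 : (nat_lit 2244) + L74.length = (nat_lit 2282) := by decide +kernel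

/-- part of the certificates -/
def L75 : List Prf := [(.br (nat_lit 8) (nat_lit 1) (.cons (.rf (nat_lit 2280) (nat_lit 493858305440582043680)) (.cons (.rf (nat_lit 2281) (nat_lit 493858305440582043680)) (.cons (.rf (nat_lit 2281) (nat_lit 458117738625971100704)) .nil)))),
 (.br (nat_lit 11) (nat_lit 1) (.cons (.rf (nat_lit 2280) (nat_lit 493858305440582043680)) (.cons (.rf (nat_lit 2282) (nat_lit 493858305440582043680)) (.cons (.br (nat_lit 11) (nat_lit 1) (.cons (.rf (nat_lit 2280) (nat_lit 493858305440582043680)) (.cons (.rf (nat_lit 2282) (nat_lit 493858305440582043680)) .nil))) .nil)))),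
 (.br (nat_lit 7) (nat_lit 1) (.cons (.rf (nat_lit 2260) (nat_lit 493858305268783356960)) (.cons (.rf (nat_lit 2265) (nat_lit 493858305268783356960)) (.cons (.rf (nat_lit 2275) (nat_lit 493858305268783356960)) (.cons (.br (nat_lit 12) (nat_lit 1) (.cons (.rf (nat_lit 1339) (nat_lit 287037429794)) (.cons (.rf (nat_lit 58) (nat_lit 12917825)) (.cons (.br (nat_lit 10) (nat_lit 1) (.cons (.rf (nat_lit 82) (nat_lit 12092513345)) (.cons (.rf (nat_lit 84) (nat_lit 8971951169)) (.cons (.br (nat_lit 8) (nat_lit 1) (.cons (.rf (nat_lit 2276) (nat_lit 493858305440582043680)) (.cons (.br (nat_lit 8) (nat_lit 1) (.cons (.rf (nat_lit 2276) (nat_lit 493858305440582043680)) .nil)) .nil))) .nil)))) (.cons (.kr (nat_lit 4722366482869645213696) (nat_lit 79228162514264337593543950336) (nat_lit 9) (nat_lit 0)) .nil))))) (.cons (.br (nat_lit 11) (nat_lit 1) (.cons (.rf (nat_lit 2280) (nat_lit 493858305440582043680)) (.cons (.rf (nat_lit 2282) (nat_lit 493858305440582043680)) (.cons (.rf (nat_lit 2283) (nat_lit 493858305440582043680))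 (.cons (.rf (nat_lit 2283) (nat_lit 458117738625971100704)) .nil))))) .nil)))))),
 (.br (nat_lit 8) (nat_lit 1) (.cons (.br (nat_lit 11) (nat_lit 1) (.cons (.ev (nat_lit 309485009893685237267890176) (nat_lit 1)) (.cons (.ev (nat_lit 310698676526244239587147776) (nat_lit 1)) .nil))) (.cons (.br (nat_lit 12) (nat_lit 1) (.cons (.br (nat_lit 11) (nat_lit 1) (.cons (.ev (nat_lit 20837322280464806478202980991234) (nat_lit 3)) .nil)) (.cons (.ev (nat_lit 40644048583521204137951060230659) (nat_lit 2)) .nil))) .nil))),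
 (.br (nat_lit 13) (nat_lit 1) (.cons (.rf (nat_lit 2285) (nat_lit 493858305440582043680)) (.cons (.br (nat_lit 8) (nat_lit 1) (.cons (.ev (nat_lit 20282410812596008840248485216513) (nat_lit 1)) (.cons (.zr (nat_lit 55556405003275993088) (nat_lit 40564819212025707613342931091457) (nat_lit 5) (nat_lit 0)) (.cons (.br (nat_lit 10) (nat_lit 1) (.cons (.ev (nat_lit 620183686420494634455204354) (nat_lit 2)) .nil)) .nil)))) .nil))),
 (.br (nat_lit 13) (nat_lit 1) (.cons (.rf (nat_lit 2285) (nat_lit 493858305440582043680)) (.cons (.rf (nat_lit 2286) (nat_lit 493858305440582043680)) (.cons (.br (nat_lit 13) (nat_lit 1) (.cons (.rf (nat_lit 2285) (nat_lit 493858305440582043680)) (.cons (.rf (nat_lit 2286) (nat_lit 493858305440582043680)) .nil))) .nil)))),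
 (.br (nat_lit 8) (nat_lit 1) (.cons (.br (nat_lit 11) (nat_lit 1) (.cons (.ev (nat_lit 309485009893685237267890176) (nat_lit 1)) (.cons (.br (nat_lit 12) (nat_lit 1) (.cons (.ev (nat_lit 20838562647689493663201557020930) (nat_lit 3)) .nil)) .nil))) (.cons (.rf (nat_lit 2287) (nat_lit 493858305440582043680)) .nil))),
 (.br (nat_lit 8) (nat_lit 1) (.cons (.rf (nat_lit 2288) (nat_lit 493858305440582043680)) (.cons (.br (nat_lit 8) (nat_lit 1) (.cons (.rf (nat_lit 2288) (nat_lit 493858305440582043680)) (.cons (.rf (nat_lit 2287) (nat_lit 493858305440582043680)) .nil))) (.cons (.rf (nat_lit 2287) (nat_lit 493858305440582043680)) .nil)))),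
 (.br (nat_lit 13) (nat_lit 1) (.cons (.rf (nat_lit 2287) (nat_lit 493858305440582043680)) (.cons (.rf (nat_lit 2289) (nat_lit 493858305440582043680)) (.cons (.br (nat_lit 13) (nat_lit 1) (.cons (.rf (nat_lit 2287) (nat_lit 493858305440582043680)) (.cons (.rf (nat_lit 2289) (nat_lit 493858305440582043680)) .nil))) .nil)))),
 (.br (nat_lit 13) (nat_lit 1) (.cons (.rf (nat_lit 2287) (nat_lit 493858305440582043680)) (.cons (.rf (nat_lit 2289) (nat_lit 493858305440582043680)) (.cons (.rf (nat_lit 2290) (nat_lit 493858305440582043680)) (.cons (.br (nat_lit 13) (nat_lit 1) (.cons (.rf (nat_lit 2287) (nat_lit 493858305440582043680)) (.cons (.rf (nat_lit 2289) (nat_lit 493858305440582043680)) (.cons (.rf (nat_lit 2290) (nat_lit 493858305440582043680)) .nil)))) .nil))))),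
 (.br (nat_lit 7) (nat_lit 1) (.cons (.kr (nat_lit 1208925819614629174706177) (nat_lit 18446744073726328832) (nat_lit 0) (nat_lit 1)) (.cons (.br (nat_lit 8) (nat_lit 1) (.cons (.ev (nat_lit 310693954160043940135370753) (nat_lit 1)) (.cons (.br (nat_lit 11) (nat_lit 1) (.cons (.rf (nat_lit 84) (nat_lit 9004456994)) (.cons (.br (nat_lit 12) (nat_lit 1) (.cons (.zr (nat_lit 932081806922879093715435520) (nat_lit 158456329750895440635516420609) (nat_lit 5) (nat_lit 6)) .nil)) .nil))) .nil))) (.cons (.rf (nat_lit 84) (nat_lit 12092254433)) (.cons (.rf (nat_lit 2291) (nat_lit 458117738797769787424)) .nil))))),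
 (.br (nat_lit 12) (nat_lit 1) (.cons (.rf (nat_lit 2291) (nat_lit 493858305440582043680)) (.cons (.rf (nat_lit 2292) (nat_lit 493858305440582043680)) (.cons (.br (nat_lit 13) (nat_lit 1) (.cons (.rf (nat_lit 2291) (nat_lit 458117738797769787424)) (.cons (.br (nat_lit 7) (nat_lit 1) (.cons (.rf (nat_lit 1593) (nat_lit 459638310215)) (.cons (.zr (nat_lit 55556405003275993088) (nat_lit 158456329750895440635516420097) (nat_lit 5) (nat_lit 0)) (.cons (.rf (nat_lit 2291) (nat_lit 458117738797769787424)) .nil)))) (.cons (.br (nat_lit 13) (nat_lit 1) (.cons (.rf (nat_lit 2291) (nat_lit 458117738797769787424)) (.cons (.rf (nat_lit 2292) (nat_lit 458117738797769787424)) (.cons (.ev (nat_lit 20361637766165935044115283575041) (nat_lit 1)) .nil)))) (.cons (.br (nat_lit 13) (nat_lit 1) (.cons (.ev (nat_lit 20282719088661491769020287877121) (nat_lit 1)) (.cons (.kr (nat_lit 79228162514264337593543950336) (nat_lit 20282409603651670423947251286016) (nat_lit 12) (nat_lit 0)) (.cons (.ev (nat_lit 20361637766165935044115283575041)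 (nat_lit 1)) .nil)))) .nil))))) .nil)))),
 (.br (nat_lit 12) (nat_lit 1) (.cons (.rf (nat_lit 2291) (nat_lit 493858305440582043680)) (.cons (.rf (nat_lit 2292) (nat_lit 493858305440582043680)) (.cons (.rf (nat_lit 2293) (nat_lit 493858305440582043680)) (.cons (.br (nat_lit 12) (nat_lit 1) (.cons (.rf (nat_lit 2291) (nat_lit 493858305440582043680)) (.cons (.rf (nat_lit 2292) (nat_lit 493858305440582043680)) (.cons (.rf (nat_lit 2293) (nat_lit 493858305440582043680)) .nil)))) .nil))))),
 (.br (nat_lit 13) (nat_lit 1) (.cons (.rf (nat_lit 2291) (nat_lit 458117738797769787424)) (.cons (.rf (nat_lit 2294) (nat_lit 458117738797769787424)) (.cons (.br (nat_lit 13) (nat_lit 1) (.cons (.rf (nat_lit 2291) (nat_lit 458117738797769787424)) (.cons (.rf (nat_lit 2294) (nat_lit 458117738797769787424)) .nil))) .nil)))),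
 (.br (nat_lit 13) (nat_lit 1) (.cons (.rf (nat_lit 2291) (nat_lit 458117738797769787424)) (.cons (.rf (nat_lit 2294) (nat_lit 458117738797769787424)) (.cons (.rf (nat_lit 2295) (nat_lit 493858305440582043680)) (.cons (.br (nat_lit 13) (nat_lit 1) (.cons (.rf (nat_lit 2291) (nat_lit 458117738797769787424)) (.cons (.rf (nat_lit 2294) (nat_lit 458117738797769787424)) (.cons (.rf (nat_lit 2295) (nat_lit 493858305440582043680)) .nil)))) .nil))))),
 (.br (nat_lit 12) (nat_lit 1) (.cons (.rf (nat_lit 2291) (nat_lit 493858305440582043680)) (.cons (.rf (nat_lit 2294) (nat_lit 493858305440582043680)) (.cons (.rf (nat_lit 2296) (nat_lit 493858305440582043680)) (.cons (.br (nat_lit 12) (nat_lit 1) (.cons (.rf (nat_lit 2291) (nat_lit 493858305440582043680)) (.cons (.rf (nat_lit 2294) (nat_lit 493858305440582043680)) (.cons (.rf (nat_lit 2296) (nat_lit 493858305440582043680)) .nil)))) .nil))))),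
 (.br (nat_lit 12) (nat_lit 1) (.cons (.rf (nat_lit 2291) (nat_lit 493858305440582043680)) (.cons (.rf (nat_lit 2294) (nat_lit 493858305440582043680)) (.cons (.rf (nat_lit 2296) (nat_lit 493858305440582043680)) (.cons (.rf (nat_lit 2297) (nat_lit 493858305440582043680)) (.cons (.br (nat_lit 12) (nat_lit 1) (.cons (.rf (nat_lit 2291) (nat_lit 493858305440582043680)) (.cons (.rf (nat_lit 2294) (nat_lit 493858305440582043680)) (.cons (.rf (nat_lit 2296) (nat_lit 493858305440582043680)) (.cons (.rf (nat_lit 2297) (nat_lit 493858305440582043680)) .nil))))) .nil)))))),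
 (.br (nat_lit 8) (nat_lit 1) (.cons (.br (nat_lit 8) (nat_lit 1) (.cons (.ev (nat_lit 1213666632841576841281793) (nat_lit 1)) .nil)) (.cons (.br (nat_lit 8) (nat_lit 1) (.cons (.ev (nat_lit 1213666632841576841281793) (nat_lit 1)) .nil)) .nil))),
 (.br (nat_lit 11) (nat_lit 1) (.cons (.rf (nat_lit 2299) (nat_lit 493858305440582043680)) (.cons (.rf (nat_lit 31) (nat_lit 414418242)) (.cons (.br (nat_lit 11) (nat_lit 1) (.cons (.rf (nat_lit 2299) (nat_lit 493858305440582043680)) (.cons (.rf (nat_lit 31) (nat_lit 414418242)) .nil))) .nil)))),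
 (.br (nat_lit 8) (nat_lit 1) (.cons (.br (nat_lit 12) (nat_lit 1) (.cons (.ev (nat_lit 79229371458530696300740018433) (nat_lit 1)) .nil)) .nil)),
 (.br (nat_lit 8) (nat_lit 1) (.cons (.ev (nat_lit 1208944338698871427367168) (nat_lit 1)) (.cons (.br (nat_lit 12) (nat_lit 1) (.cons (.ev (nat_lit 310698676526244239587147776) (nat_lit 1)) (.cons (.zr (nat_lit 237684487542793012780665602048) (nat_lit 4759260253595847622657) (nat_lit 5) (nat_lit 9)) .nil))) .nil))),
 (.br (nat_lit 10) (nat_lit 1) (.cons (.br (nat_lit 11) (nat_lit 1) (.cons (.rf (nat_lit 84) (nat_lit 13165201447)) (.cons (.rf (nat_lit 84) (nat_lit 9004353578)) (.cons (.br (nat_lit 8) (nat_lit 1) (.cons (.rf (nat_lit 2301) (nat_lit 493858305440582043680)) (.cons (.br (nat_lit 12) (nat_lit 1) (.cons (.rf (nat_lit 2301) (nat_lit 493858305440582043680)) (.cons (.ev (nat_lit 20282719088661563826614325739521) (nat_lit 1)) .nil))) .nil))) .nil)))) (.cons (.rf (nat_lit 58) (nat_lit 11864103)) (.cons (.rf (nat_lit 1343) (nat_lit 275283028193))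 (.cons (.br (nat_lit 11) (nat_lit 1) (.cons (.br (nat_lit 8) (nat_lit 1) (.cons (.rf (nat_lit 2302) (nat_lit 493858305440582043680)) (.cons (.br (nat_lit 12) (nat_lit 1) (.cons (.rf (nat_lit 2302) (nat_lit 493858305440582043680)) (.cons (.zr (nat_lit 932081807139051875829022720) (nat_lit 40564819212025707613342931091969) (nat_lit 5) (nat_lit 6)) .nil))) .nil))) (.cons (.rf (nat_lit 84) (nat_lit 14373062698)) (.cons (.rf (nat_lit 84) (nat_lit 13332973607)) .nil)))) .nil))))),
 (.br (nat_lit 7) (nat_lit 1) (.cons (.rf (nat_lit 2298) (nat_lit 493858305268783356960)) (.cons (.rf (nat_lit 29) (nat_lit 11601223)) (.cons (.ev (nat_lit 309485009821627643229896704) (nat_lit 1)) (.cons (.rf (nat_lit 2303) (nat_lit 493858305440582043680)) (.cons (.rf (nat_lit 2303) (nat_lit 458117738797769787424)) .nil)))))),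
 (.br (nat_lit 7) (nat_lit 1) (.cons (.rf (nat_lit 84) (nat_lit 6550620192)) (.cons (.rf (nat_lit 84) (nat_lit 3429894181)) (.cons (.kr (nat_lit 4294967296) (nat_lit 72057594037927936) (nat_lit 4) (nat_lit 0)) .nil)))),
 (.br (nat_lit 11) (nat_lit 1) (.cons (.ev (nat_lit 79537652246524505700457054208) (nat_lit 1)) .nil)),
 (.br (nat_lit 12) (nat_lit 1) (.cons (.ev (nat_lit 79230580365904414588243476481) (nat_lit 2)) (.cons (.ev (nat_lit 79229371458602753894777880833) (nat_lit 1)) .nil))),
 (.br (nat_lit 8) (nat_lit 1) (.cons (.rf (nat_lit 2307) (nat_lit 493858305440582043680)) (.cons (.ev (nat_lit 1208944338698871427367168) (nat_lit 1)) .nil))),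
 (.br (nat_lit 8) (nat_lit 1) (.cons (.br (nat_lit 8) (nat_lit 1) (.cons (.rf (nat_lit 2308) (nat_lit 493858305440582043680)) (.cons (.rf (nat_lit 2308) (nat_lit 458117738625971100704)) .nil))) (.cons (.rf (nat_lit 2308) (nat_lit 493858305440582043680)) (.cons (.rf (nat_lit 2308) (nat_lit 458117738625971100704)) .nil)))),
 (.br (nat_lit 8) (nat_lit 1) (.cons (.rf (nat_lit 2308) (nat_lit 493858305440582043680)) (.cons (.br (nat_lit 11) (nat_lit 1) (.cons (.br (nat_lit 12) (nat_lit 1) (.cons (.ev (nat_lit 20363193672677839294263527277828) (nat_lit 3)) .nil)) (.cons (.zr (nat_lit 237684487543009185562779189248) (nat_lit 4759260253595847622657) (nat_lit 5) (nat_lit 9)) (.cons (.zr (nat_lit 60847228810955011271841787609088) (nat_lit 4759260253595847622657) (nat_lit 5) (nat_lit 9)) .nil)))) .nil))),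
 (.br (nat_lit 8) (nat_lit 1) (.cons (.rf (nat_lit 2309) (nat_lit 493858305440582043680)) (.cons (.rf (nat_lit 2310) (nat_lit 493858305440582043680)) (.cons (.rf (nat_lit 2310) (nat_lit 458117738625971100704)) .nil)))),
 (.br (nat_lit 8) (nat_lit 1) (.cons (.rf (nat_lit 2308) (nat_lit 493858305440582043680)) (.cons (.rf (nat_lit 2311) (nat_lit 493858305440582043680)) (.cons (.br (nat_lit 8) (nat_lit 1) (.cons (.ev (nat_lit 1208944338698871427367168) (nat_lit 1)) (.cons (.rf (nat_lit 2311) (nat_lit 493858305440582043680)) .nil))) .nil)))),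
 (.br (nat_lit 7) (nat_lit 1) (.cons (.rf (nat_lit 2298) (nat_lit 493858305268783356960)) (.cons (.rf (nat_lit 2300) (nat_lit 493858305268783356960)) (.cons (.rf (nat_lit 2304) (nat_lit 493858305268783356960)) (.cons (.br (nat_lit 10) (nat_lit 1) (.cons (.rf (nat_lit 2305) (nat_lit 14718124432449)) (.cons (.rf (nat_lit 1343) (nat_lit 275291413569)) (.cons (.rf (nat_lit 58) (nat_lit 12917825)) (.cons (.br (nat_lit 12) (nat_lit 1) (.cons (.br (nat_lit 8) (nat_lit 1) (.cons (.rf (nat_lit 2306) (nat_lit 493858305440582043680)) (.cons (.br (nat_lit 8) (nat_lit 1) (.cons (.rf (nat_lit 2306) (nat_lit 493858305440582043680)) .nil)) .nil))) (.cons (.rf (nat_lit 84) (nat_lit 14340365386)) (.cons (.kr (nat_lit 4722366482869645213696) (nat_lit 79228162514264337593543950336) (nat_lit 9) (nat_lit 0)) .nil)))) .nil))))) (.cons (.br (nat_lit 8) (nat_lit 1) (.cons (.rf (nat_lit 2309) (nat_lit 493858305440582043680)) (.cons (.rf (nat_lit 2311) (nat_lit 493858305440582043680)) (.cons (.rf (nat_lit 2312) (nat_lit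 493858305440582043680)) (.cons (.rf (nat_lit 2312) (nat_lit 458117738625971100704)) .nil))))) .nil))))))]

theorem c75 : chkAll C T R L75 (nat_lit 2282) = true := by decide +kernel

theorem l75 : (nat_lit 2282) + L75.length = (nat_lit 2314) := by decide +kernel

/-- part of the certificates -/
def L76 : List Prf := [(.br (nat_lit 7) (nat_lit 1) (.cons (.rf (nat_lit 31) (nat_lit 342919462)) (.cons (.br (nat_lit 7) (nat_lit 1) (.cons (.rf (nat_lit 31) (nat_lit 342919462)) (.cons (.br (nat_lit 10) (nat_lit 1) (.cons (.rf (nat_lit 1740) (nat_lit 14208056627021580320)) (.cons (.rf (nat_lit 1740) (nat_lit 13056261022321575968)) .nil))) .nil))) .nil))),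
 (.br (nat_lit 8) (nat_lit 1) (.cons (.br (nat_lit 13) (nat_lit 1) (.cons (.br (nat_lit 12) (nat_lit 1) (.cons (.zr (nat_lit 55556405003309547520) (nat_lit 158458747602534669893865832449) (nat_lit 5) (nat_lit 0)) .nil)) (.cons (.zr (nat_lit 55556405003309547520) (nat_lit 158458747602534669893865832449) (nat_lit 5) (nat_lit 0)) .nil))) (.cons (.br (nat_lit 11) (nat_lit 1) (.cons (.br (nat_lit 12) (nat_lit 1) (.cons (.ev (nat_lit 20839181608338047944162032289542) (nat_lit 3)) .nil)) (.cons (.ev (nat_lit 20283031001004651137402614579715) (nat_lit 2)) .nil))) .nil))),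
 (.br (nat_lit 8) (nat_lit 1) (.cons (.rf (nat_lit 2315) (nat_lit 493858305440582043680)) (.cons (.br (nat_lit 12) (nat_lit 1) (.cons (.zr (nat_lit 79228162532783986997641347072) (nat_lit 4845148011424256022806530) (nat_lit 10) (nat_lit 5)) (.cons (.ev (nat_lit 40723276746035396700537905938434) (nat_lit 2)) .nil))) .nil))),
 (.br (nat_lit 8) (nat_lit 1) (.cons (.rf (nat_lit 2315) (nat_lit 493858305440582043680)) (.cons (.rf (nat_lit 2316) (nat_lit 493858305440582043680)) (.cons (.br (nat_lit 8) (nat_lit 1) (.cons (.rf (nat_lit 2315) (nat_lit 493858305440582043680)) (.cons (.rf (nat_lit 2316) (nat_lit 493858305440582043680)) .nil))) .nil)))),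
 (.br (nat_lit 13) (nat_lit 1) (.cons (.rf (nat_lit 2317) (nat_lit 493858305440582043680)) (.cons (.br (nat_lit 7) (nat_lit 1) (.cons (.br (nat_lit 11) (nat_lit 1) (.cons (.ev (nat_lit 20678868363732070126213300027652) (nat_lit 3)) .nil)) (.cons (.zr (nat_lit 928455029464035206174540544) (nat_lit 40564819212025707613342947868673) (nat_lit 5) (nat_lit 0)) (.cons (.br (nat_lit 8) (nat_lit 1) (.cons (.zr (nat_lit 237688114320251856668172943360) (nat_lit 618974742009455585878082049) (nat_lit 5) (nat_lit 9)) .nil)) .nil)))) .nil))),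
 (.br (nat_lit 13) (nat_lit 1) (.cons (.rf (nat_lit 2317) (nat_lit 493858305440582043680)) (.cons (.rf (nat_lit 2318) (nat_lit 493858305440582043680)) (.cons (.br (nat_lit 13) (nat_lit 1) (.cons (.rf (nat_lit 2317) (nat_lit 493858305440582043680)) (.cons (.rf (nat_lit 2318) (nat_lit 493858305440582043680)) .nil))) .nil)))),
 (.br (nat_lit 13) (nat_lit 1) (.cons (.rf (nat_lit 2317) (nat_lit 493858305440582043680)) (.cons (.rf (nat_lit 2319) (nat_lit 493858305440582043680)) (.cons (.br (nat_lit 13) (nat_lit 1) (.cons (.rf (nat_lit 2317) (nat_lit 493858305440582043680)) (.cons (.rf (nat_lit 2319) (nat_lit 493858305440582043680)) .nil))) .nil)))),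
 (.br (nat_lit 12) (nat_lit 1) (.cons (.kr (nat_lit 20282719088661491769015976132864) (nat_lit 79229371458602753890466136064) (nat_lit 1) (nat_lit 0)) .nil)),
 (.br (nat_lit 11) (nat_lit 1) (.cons (.ev (nat_lit 310698658079500165877596161) (nat_lit 1)) (.cons (.br (nat_lit 8) (nat_lit 1) (.cons (.rf (nat_lit 2321) (nat_lit 493858305440582043680)) (.cons (.ev (nat_lit 309485028340429310977441793) (nat_lit 1)) .nil))) .nil))),
 (.br (nat_lit 8) (nat_lit 1) (.cons (.rf (nat_lit 2322) (nat_lit 493858305440582043680)) (.cons (.br (nat_lit 11) (nat_lit 1) (.cons (.zr (nat_lit 55556405003309547520) (nat_lit 158458747602534669893865832449) (nat_lit 5) (nat_lit 0)) (.cons (.br (nat_lit 11) (nat_lit 1) (.cons (.zr (nat_lit 55556405003309547520) (nat_lit 158458747602534669893865832449) (nat_lit 5) (nat_lit 0)) .nil)) .nil))) .nil))),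
 (.br (nat_lit 8) (nat_lit 1) (.cons (.rf (nat_lit 2322) (nat_lit 493858305440582043680)) (.cons (.rf (nat_lit 2323) (nat_lit 493858305440582043680)) (.cons (.br (nat_lit 8) (nat_lit 1) (.cons (.rf (nat_lit 2322) (nat_lit 493858305440582043680)) (.cons (.rf (nat_lit 2323) (nat_lit 493858305440582043680)) .nil))) .nil)))),
 (.br (nat_lit 8) (nat_lit 1) (.cons (.kr (nat_lit 20282719088661491769015976132864) (nat_lit 79229371458602753890466136064) (nat_lit 1) (nat_lit 0)) .nil)),
 (.br (nat_lit 11) (nat_lit 1) (.cons (.ev (nat_lit 310698658079500165877596161) (nat_lit 1)) (.cons (.br (nat_lit 7) (nat_lit 1) (.cons (.br (nat_lit 12) (nat_lit 1) (.cons (.ev (nat_lit 20678861110287832902880475545862) (nat_lit 3)) .nil)) (.cons (.ev (nat_lit 310693935713299866425819136) (nat_lit 1)) (.cons (.rf (nat_lit 2325) (nat_lit 493858305440582043680)) .nil)))) .nil))),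
 (.br (nat_lit 11) (nat_lit 1) (.cons (.rf (nat_lit 2324) (nat_lit 493858305440582043680)) (.cons (.rf (nat_lit 2326) (nat_lit 493858305440582043680)) (.cons (.br (nat_lit 11) (nat_lit 1) (.cons (.rf (nat_lit 2324) (nat_lit 493858305440582043680)) (.cons (.rf (nat_lit 2326) (nat_lit 493858305440582043680)) .nil))) .nil)))),
 (.br (nat_lit 11) (nat_lit 1) (.cons (.rf (nat_lit 2324) (nat_lit 493858305440582043680)) (.cons (.rf (nat_lit 2327) (nat_lit 493858305440582043680)) (.cons (.br (nat_lit 11) (nat_lit 1) (.cons (.rf (nat_lit 2324) (nat_lit 493858305440582043680)) (.cons (.rf (nat_lit 2327) (nat_lit 493858305440582043680)) .nil))) .nil)))),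
 (.br (nat_lit 10) (nat_lit 1) (.cons (.rf (nat_lit 2314) (nat_lit 13872820773816352)) (.cons (.rf (nat_lit 1733) (nat_lit 482247182020347936)) (.cons (.br (nat_lit 13) (nat_lit 1) (.cons (.rf (nat_lit 2317) (nat_lit 493858305440582043680)) (.cons (.rf (nat_lit 2319) (nat_lit 493858305440582043680)) (.cons (.rf (nat_lit 2320) (nat_lit 493858305440582043680)) (.cons (.br (nat_lit 13) (nat_lit 1) (.cons (.rf (nat_lit 2317) (nat_lit 493858305440582043680)) (.cons (.rf (nat_lit 2319) (nat_lit 493858305440582043680)) (.cons (.rf (nat_lit 2320) (nat_lit 493858305440582043680)) .nil)))) .nil))))) (.cons (.rf (nat_lit 2002) (nat_lit 12011425908771620896)) (.cons (.br (nat_lit 11) (nat_lit 1) (.cons (.rf (nat_lit 2324) (nat_lit 493858305440582043680)) (.cons (.rf (nat_lit 2327) (nat_lit 493858305440582043680)) (.cons (.rf (nat_lit 2328) (nat_lit 493858305440582043680)) (.cons (.br (nat_lit 11) (nat_lit 1) (.cons (.rf (nat_lit 2324) (nat_lit 493858305440582043680)) (.cons (.rf (nat_lit 2327) (nat_lit 493858305440582043680))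 (.cons (.rf (nat_lit 2328) (nat_lit 493858305440582043680)) .nil)))) .nil))))) .nil)))))),
 (.br (nat_lit 8) (nat_lit 1) (.cons (.br (nat_lit 12) (nat_lit 1) (.cons (.kr (nat_lit 20282719088661491769015976132864) (nat_lit 79229371458602753890466136064) (nat_lit 1) (nat_lit 0)) .nil)) .nil)),
 (.br (nat_lit 11) (nat_lit 1) (.cons (.rf (nat_lit 31) (nat_lit 414227778)) (.cons (.br (nat_lit 8) (nat_lit 1) (.cons (.rf (nat_lit 2330) (nat_lit 493858305440582043680)) (.cons (.br (nat_lit 12) (nat_lit 1) (.cons (.rf (nat_lit 2330) (nat_lit 493858305440582043680)) (.cons (.zr (nat_lit 928455029464035206174540544) (nat_lit 40564819212025707613342947868673) (nat_lit 5) (nat_lit 0)) .nil))) .nil))) .nil))),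
 (.br (nat_lit 12) (nat_lit 1) (.cons (.br (nat_lit 8) (nat_lit 1) (.cons (.br (nat_lit 8) (nat_lit 1) (.cons (.zr (nat_lit 237688114320468029450269753344) (nat_lit 4759260253595864399873) (nat_lit 5) (nat_lit 9)) .nil)) (.cons (.br (nat_lit 8) (nat_lit 1) (.cons (.zr (nat_lit 237688114320468029450269753344) (nat_lit 4759260253595864399873) (nat_lit 5) (nat_lit 9)) .nil)) .nil))) (.cons (.rf (nat_lit 31) (nat_lit 449021250)) .nil))),
 (.br (nat_lit 7) (nat_lit 1) (.cons (.rf (nat_lit 2314) (nat_lit 13872815405112352)) (.cons (.br (nat_lit 11) (nat_lit 1) (.cons (.rf (nat_lit 2331) (nat_lit 493858305440582043680)) (.cons (.rf (nat_lit 31) (nat_lit 414227778)) (.cons (.br (nat_lit 11) (nat_lit 1) (.cons (.rf (nat_lit 2331) (nat_lit 493858305440582043680)) (.cons (.rf (nat_lit 31) (nat_lit 414227778)) .nil))) .nil)))) (.cons (.rf (nat_lit 29) (nat_lit 12813634)) (.cons (.br (nat_lit 12) (nat_lit 1) (.cons (.rf (nat_lit 2332) (nat_lit 493858305440582043680)) (.cons (.br (nat_lit 12) (nat_lit 1) (.cons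 (.rf (nat_lit 2332) (nat_lit 493858305440582043680)) (.cons (.rf (nat_lit 31) (nat_lit 449021250)) .nil))) (.cons (.rf (nat_lit 31) (nat_lit 449021250)) .nil)))) .nil))))),
 (.br (nat_lit 8) (nat_lit 1) (.cons (.br (nat_lit 12) (nat_lit 1) (.cons (.ev (nat_lit 20679482516975227253339445461764) (nat_lit 3)) .nil)) .nil)),
 (.br (nat_lit 12) (nat_lit 1) (.cons (.ev (nat_lit 79537652246524505700457054208) (nat_lit 1)) .nil)),
 (.br (nat_lit 11) (nat_lit 1) (.cons (.rf (nat_lit 84) (nat_lit 10984134690)) (.cons (.rf (nat_lit 84) (nat_lit 7863343145)) (.cons (.br (nat_lit 7) (nat_lit 1) (.cons (.br (nat_lit 7) (nat_lit 1) (.cons (.ev (nat_lit 309485009893402667057742081) (nat_lit 1)) .nil)) (.cons (.br (nat_lit 7) (nat_lit 1) (.cons (.ev (nat_lit 309485009893402667057742081) (nat_lit 1)) .nil)) .nil))) .nil)))),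
 (.br (nat_lit 13) (nat_lit 1) (.cons (.ev (nat_lit 20282412021503526673724064399361) (nat_lit 2)) (.cons (.ev (nat_lit 20282410812595936782654447354113) (nat_lit 1)) .nil))),
 (.br (nat_lit 8) (nat_lit 1) (.cons (.br (nat_lit 13) (nat_lit 1) (.cons (.br (nat_lit 12) (nat_lit 1) (.cons (.ev (nat_lit 79228167255077847111387054336) (nat_lit 1)) .nil)) (.cons (.ev (nat_lit 79228167255077847111387054336) (nat_lit 1)) .nil))) (.cons (.rf (nat_lit 2337) (nat_lit 493858305440582043680)) .nil))),
 (.br (nat_lit 8) (nat_lit 1) (.cons (.rf (nat_lit 2338) (nat_lit 493858305440582043680)) (.cons (.br (nat_lit 8) (nat_lit 1) (.cons (.rf (nat_lit 2338) (nat_lit 493858305440582043680)) (.cons (.ev (nat_lit 1208944338698871427367168) (nat_lit 1)) .nil))) (.cons (.br (nat_lit 8) (nat_lit 1) (.cons (.rf (nat_lit 2337) (nat_lit 493858305440582043680)) (.cons (.ev (nat_lit 1208944338698871427367168) (nat_lit 1)) .nil))) .nil)))),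
 (.br (nat_lit 8) (nat_lit 1) (.cons (.rf (nat_lit 2339) (nat_lit 493858305440582043680)) (.cons (.br (nat_lit 12) (nat_lit 1) (.cons (.ev (nat_lit 79228167255077847111387054336) (nat_lit 1)) (.cons (.br (nat_lit 10) (nat_lit 1) (.cons (.ev (nat_lit 310698658007442571839733761) (nat_lit 1)) .nil)) (.cons (.zr (nat_lit 60847228810955011271841787609088) (nat_lit 4759260253595847622657) (nat_lit 5) (nat_lit 9)) .nil)))) .nil))),
 (.br (nat_lit 8) (nat_lit 1) (.cons (.rf (nat_lit 2339) (nat_lit 493858305440582043680)) (.cons (.rf (nat_lit 2340) (nat_lit 493858305440582043680)) (.cons (.br (nat_lit 8) (nat_lit 1) (.cons (.rf (nat_lit 2339) (nat_lit 493858305440582043680)) (.cons (.rf (nat_lit 2340) (nat_lit 493858305440582043680)) .nil))) .nil)))),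
 (.br (nat_lit 8) (nat_lit 1) (.cons (.rf (nat_lit 2339) (nat_lit 493858305440582043680)) (.cons (.rf (nat_lit 2341) (nat_lit 493858305440582043680)) (.cons (.br (nat_lit 8) (nat_lit 1) (.cons (.ev (nat_lit 1208944338698871427367168) (nat_lit 1)) (.cons (.rf (nat_lit 2341) (nat_lit 493858305440582043680)) .nil))) .nil)))),
 (.br (nat_lit 7) (nat_lit 1) (.cons (.rf (nat_lit 2329) (nat_lit 493858305268783356960)) (.cons (.rf (nat_lit 2333) (nat_lit 493858305268783356960)) (.cons (.br (nat_lit 10) (nat_lit 1) (.cons (.br (nat_lit 11) (nat_lit 1) (.cons (.ev (nat_lit 310693935641242272387825664) (nat_lit 1)) (.cons (.rf (nat_lit 84) (nat_lit 9004162122)) (.cons (.br (nat_lit 8) (nat_lit 1) (.cons (.rf (nat_lit 2334) (nat_lit 493858305440582043680)) (.cons (.br (nat_lit 8) (nat_lit 1) (.cons (.rf (nat_lit 2334) (nat_lit 493858305440582043680)) .nil)) .nil))) .nil)))) (.cons (.rf (nat_lit 58) (nat_lit 11869249)) (.cons (.rf (nat_lit 1343) (nat_lit 275288270882)) (.cons (.br (nat_lit 11) (nat_lit 1) (.cons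 (.br (nat_lit 8) (nat_lit 1) (.cons (.rf (nat_lit 2335) (nat_lit 493858305440582043680)) (.cons (.br (nat_lit 8) (nat_lit 1) (.cons (.rf (nat_lit 2335) (nat_lit 493858305440582043680)) .nil)) .nil))) (.cons (.rf (nat_lit 84) (nat_lit 14372871242)) (.cons (.ev (nat_lit 310693935641242272387825664) (nat_lit 1)) .nil)))) .nil))))) (.cons (.br (nat_lit 10) (nat_lit 1) (.cons (.rf (nat_lit 2336) (nat_lit 445092485094541344)) (.cons (.rf (nat_lit 1343) (nat_lit 275291413538)) (.cons (.ev (nat_lit 79229371440156009821068329216) (nat_lit 1)) (.cons (.br (nat_lit 12) (nat_lit 1) (.cons (.br (nat_lit 8) (nat_lit 1) (.cons (.br (nat_lit 8) (nat_lit 1) (.cons (.zr (nat_lit 237688114320251856668156166144) (nat_lit 4759260253595864399873) (nat_lit 5) (nat_lit 9)) .nil)) (.cons (.br (nat_lit 8) (nat_lit 1) (.cons (.zr (nat_lit 237688114320251856668156166144) (nat_lit 4759260253595864399873) (nat_lit 5) (nat_lit 9)) .nil)) .nil))) (.cons (.rf (nat_lit 84) (nat_lit 14340398122)) (.cons (.rf (nat_lit 84) (nat_lit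 12260285474)) .nil)))) .nil))))) (.cons (.br (nat_lit 8) (nat_lit 1) (.cons (.rf (nat_lit 2339) (nat_lit 493858305440582043680)) (.cons (.rf (nat_lit 2341) (nat_lit 493858305440582043680)) (.cons (.rf (nat_lit 2342) (nat_lit 493858305440582043680)) (.cons (.br (nat_lit 8) (nat_lit 1) (.cons (.rf (nat_lit 2339) (nat_lit 493858305440582043680)) (.cons (.rf (nat_lit 2341) (nat_lit 493858305440582043680)) (.cons (.rf (nat_lit 2342) (nat_lit 493858305440582043680)) .nil)))) .nil))))) .nil)))))),
 (.br (nat_lit 7) (nat_lit 1) (.cons (.rf (nat_lit 2329) (nat_lit 493858305268783356960)) (.cons (.rf (nat_lit 29) (nat_lit 12649799)) (.cons (.rf (nat_lit 2343) (nat_lit 493858305268783356960)) (.cons (.rf (nat_lit 58) (nat_lit 12814378)) (.cons (.br (nat_lit 10) (nat_lit 1) (.cons (.rf (nat_lit 2336) (nat_lit 447344279539522592)) (.cons (.br (nat_lit 12) (nat_lit 1) (.cons (.br (nat_lit 8) (nat_lit 1) (.cons (.br (nat_lit 13) (nat_lit 1) (.cons (.zr (nat_lit 237688114320468029450269753344) (nat_lit 4759260253595864399873)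 (nat_lit 5) (nat_lit 9)) (.cons (.zr (nat_lit 237688114320468029450286530560) (nat_lit 618974742009455585878082049) (nat_lit 5) (nat_lit 9)) .nil))) (.cons (.br (nat_lit 11) (nat_lit 1) (.cons (.zr (nat_lit 237688114320468029450269753344) (nat_lit 4759260253595864399873) (nat_lit 5) (nat_lit 9)) (.cons (.kr (nat_lit 20282409603651670423947268128768) (nat_lit 79229371440156009816756584448) (nat_lit 2) (nat_lit 0)) .nil))) .nil))) (.cons (.rf (nat_lit 84) (nat_lit 14340655143)) (.cons (.rf (nat_lit 84) (nat_lit 12260182058)) .nil)))) (.cons (.ev (nat_lit 79229371440083952227030466816) (nat_lit 1)) (.cons (.rf (nat_lit 1343) (nat_lit 275316615393)) .nil))))) .nil))))))]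

theorem c76 : chkAll C T R L76 (nat_lit 2314) = true := by decide +kernel

theorem l76 : (nat_lit 2314) + L76.length = (nat_lit 2345) := by decide +kernel

/-- part of the certificates -/
def L77 : List Prf := [(.br (nat_lit 12) (nat_lit 1) (.cons (.rf (nat_lit 82) (nat_lit 9038964770)) (.cons (.br (nat_lit 10) (nat_lit 1) (.cons (.br (nat_lit 8) (nat_lit 1) (.cons (.ev (nat_lit 1208944338698871427367168) (nat_lit 1)) (.cons (.ev (nat_lit 79228167255077847111387054336) (nat_lit 1)) .nil))) (.cons (.br (nat_lit 11) (nat_lit 1) (.cons (.br (nat_lit 8) (nat_lit 1) (.cons (.ev (nat_lit 20363193672603764087592537097472) (nat_lit 3)) .nil)) (.cons (.rf (nat_lit 84) (nat_lit 13267967041)) .nil))) (.cons (.ev (nat_lit 20361638975091826716338513051905) (nat_lit 1)) .nil)))) (.cons (.kr (nat_lit 4722366482869645213696) (nat_lit 20282409603651670423947251286016) (nat_lit 9) (nat_lit 0)) .nil)))),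
 (.br (nat_lit 2) (nat_lit 1) (.cons (.kr (nat_lit 65536) (nat_lit 72057594037927936) (nat_lit 2) (nat_lit 0)) (.cons (.rf (nat_lit 2329) (nat_lit 493858305440582043680)) (.cons (.rf (nat_lit 2333) (nat_lit 493858305440582043680)) (.cons (.rf (nat_lit 2343) (nat_lit 493858305440582043680)) (.cons (.rf (nat_lit 2344) (nat_lit 493858305440582043680)) (.cons (.br (nat_lit 7) (nat_lit 1) (.cons (.rf (nat_lit 2329) (nat_lit 493858305268783356960)) (.cons (.rf (nat_lit 2333) (nat_lit 493858305268783356960)) (.cons (.rf (nat_lit 2343) (nat_lit 493858305268783356960)) (.cons (.rf (nat_lit 2344) (nat_lit 493858305268783356960)) (.cons (.br (nat_lit 12) (nat_lit 1) (.cons (.rf (nat_lit 2345) (nat_lit 493858305440582043680)) (.cons (.rf (nat_lit 1343) (nat_lit 275325000769)) (.cons (.br (nat_lit 12) (nat_lit 1) (.cons (.rf (nat_lit 2345) (nat_lit 493858305440582043680)) (.cons (.rf (nat_lit 82) (nat_lit 12260190242)) (.cons (.kr (nat_lit 4722366482869645213696) (nat_lit 20282409603651670423947251286016) (nat_lit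 9) (nat_lit 0)) .nil)))) (.cons (.kr (nat_lit 4722366482869645213696) (nat_lit 20282409603651670423947251286016) (nat_lit 9) (nat_lit 0)) .nil))))) .nil)))))) .nil))))))),
 (.br (nat_lit 6) (nat_lit 1) (.cons (.br (nat_lit 9) (nat_lit 1) (.cons (.rf (nat_lit 2237) (nat_lit 407901468851537952)) (.cons (.br (nat_lit 9) (nat_lit 1) (.cons (.rf (nat_lit 2237) (nat_lit 407901468851537952)) (.cons (.br (nat_lit 3) (nat_lit 1) (.cons (.br (nat_lit 10) (nat_lit 0) (.cons (.br (nat_lit 1) (nat_lit 1) (.cons (.rf (nat_lit 2254) (nat_lit 493858305440582043680)) (.cons (.rf (nat_lit 2254) (nat_lit 493858305268783356960)) (.cons (.br (nat_lit 2) (nat_lit 1) (.cons (.kr (nat_lit 65536) (nat_lit 72057594037927936) (nat_lit 2) (nat_lit 0)) (.cons (.rf (nat_lit 2260) (nat_lit 493858305440582043680)) (.cons (.rf (nat_lit 2265) (nat_lit 493858305440582043680)) (.cons (.rf (nat_lit 2275) (nat_lit 493858305440582043680)) (.cons (.rf (nat_lit 2284) (nat_lit 493858305440582043680)) (.cons (.rf (nat_lit 2284) (nat_lit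 458117738797769787424)) .nil))))))) (.cons (.kr (nat_lit 16777216) (nat_lit 1208925819614629174706176) (nat_lit 3) (nat_lit 0)) (.cons (.br (nat_lit 2) (nat_lit 1) (.cons (.kr (nat_lit 65536) (nat_lit 72057594037927936) (nat_lit 2) (nat_lit 0)) (.cons (.rf (nat_lit 2298) (nat_lit 493858305440582043680)) (.cons (.br (nat_lit 7) (nat_lit 1) (.cons (.rf (nat_lit 2298) (nat_lit 493858305268783356960)) (.cons (.rf (nat_lit 29) (nat_lit 11765058)) (.cons (.rf (nat_lit 2300) (nat_lit 493858305440582043680)) (.cons (.rf (nat_lit 2300) (nat_lit 458117738797769787424)) .nil))))) (.cons (.rf (nat_lit 2304) (nat_lit 493858305440582043680)) (.cons (.rf (nat_lit 2313) (nat_lit 493858305440582043680)) (.cons (.rf (nat_lit 2313) (nat_lit 458117738797769787424)) .nil))))))) (.cons (.rf (nat_lit 2346) (nat_lit 493858305440582043680)) (.cons (.rf (nat_lit 2346) (nat_lit 458117738797769787424)) .nil)))))))) .nil)) .nil)) .nil))) .nil))) .nil)),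
 (.br (nat_lit 11) (nat_lit 1) (.cons (.kr (nat_lit 20282719088661563826610013995264) (nat_lit 79229371458530696296428273664) (nat_lit 1) (nat_lit 0)) .nil)),
 (.br (nat_lit 10) (nat_lit 1) (.cons (.rf (nat_lit 2348) (nat_lit 493858305440582043680)) (.cons (.ev (nat_lit 79229376199560096030537220610) (nat_lit 2)) .nil))),
 (.br (nat_lit 8) (nat_lit 1) (.cons (.rf (nat_lit 2349) (nat_lit 493858305440582043680)) (.cons (.rf (nat_lit 2349) (nat_lit 493823402543469922336)) (.cons (.rf (nat_lit 29) (nat_lit 8789057)) .nil)))),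
 (.br (nat_lit 11) (nat_lit 1) (.cons (.kr (nat_lit 20282719088661563826610013995264) (nat_lit 79229371458530696296428273664) (nat_lit 1) (nat_lit 0)) .nil)),
 (.br (nat_lit 7) (nat_lit 1) (.cons (.rf (nat_lit 2351) (nat_lit 493858305440582043680)) (.cons (.rf (nat_lit 2351) (nat_lit 493823402543469922336)) (.cons (.kr (nat_lit 20282409603651742481541289214208) (nat_lit 79228162532711081667253567488) (nat_lit 1) (nat_lit 0)) .nil)))),
 (.br (nat_lit 8) (nat_lit 1) (.cons (.rf (nat_lit 2350) (nat_lit 493858305440582043680)) (.cons (.rf (nat_lit 2352) (nat_lit 493858305440582043680)) (.cons (.rf (nat_lit 1771) (nat_lit 12011425908771620896)) .nil)))),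
 (.br (nat_lit 10) (nat_lit 1) (.cons (.zr (nat_lit 396140812571322813867626594308) (nat_lit 40564821629877490676314396426752) (nat_lit 5) (nat_lit 3)) .nil)),
 (.br (nat_lit 13) (nat_lit 1) (.cons (.ev (nat_lit 4722438540467978109184) (nat_lit 1)) (.cons (.br (nat_lit 8) (nat_lit 1) (.cons (.rf (nat_lit 2350) (nat_lit 493858305440582043680)) (.cons (.rf (nat_lit 2353) (nat_lit 493858305440582043680)) (.cons (.rf (nat_lit 2353) (nat_lit 493823402543469922336)) (.cons (.br (nat_lit 8) (nat_lit 1) (.cons (.rf (nat_lit 29) (nat_lit 8789057)) (.cons (.rf (nat_lit 1771) (nat_lit 12011425908771620896)) (.cons (.rf (nat_lit 1771) (nat_lit 13164347413378467872)) .nil)))) .nil))))) (.cons (.br (nat_lit 7) (nat_lit 1) (.cons (.rf (nat_lit 31) (nat_lit 444996673)) (.cons (.rf (nat_lit 31) (nat_lit 447093825)) (.cons (.br (nat_lit 8) (nat_lit 1) (.cons (.rf (nat_lit 2354) (nat_lit 493858305440582043680)) (.cons (.br (nat_lit 8) (nat_lit 1) (.cons (.rf (nat_lit 2354) (nat_lit 493858305440582043680)) .nil))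 .nil))) .nil)))) .nil)))),
 (.br (nat_lit 13) (nat_lit 1) (.cons (.ev (nat_lit 4722438540467978109184) (nat_lit 1)) (.cons (.rf (nat_lit 2355) (nat_lit 493858305440582043680)) (.cons (.rf (nat_lit 2355) (nat_lit 493823402543469922336)) (.cons (.br (nat_lit 13) (nat_lit 1) (.cons (.ev (nat_lit 4722438540467978109184) (nat_lit 1)) (.cons (.rf (nat_lit 2355) (nat_lit 493858305440582043680)) (.cons (.rf (nat_lit 2355) (nat_lit 493823402543469922336)) .nil)))) .nil))))),
 (.br (nat_lit 11) (nat_lit 1) (.cons (.kr (nat_lit 20282409603651742481541289214208) (nat_lit 79228162532711081667253567488) (nat_lit 1) (nat_lit 0)) (.cons (.zr (nat_lit 396140812571322813867626594308) (nat_lit 40564821629877490676314396426752) (nat_lit 5) (nat_lit 3)) .nil))),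
 (.br (nat_lit 13) (nat_lit 1) (.cons (.ev (nat_lit 4722438540467978109184) (nat_lit 1)) (.cons (.rf (nat_lit 2356) (nat_lit 493858305440582043680)) (.cons (.br (nat_lit 7) (nat_lit 1) (.cons (.br (nat_lit 8) (nat_lit 1) (.cons (.rf (nat_lit 2357) (nat_lit 493858305440582043680)) (.cons (.rf (nat_lit 2357) (nat_lit 493823402543469922336)) .nil))) (.cons (.rf (nat_lit 31) (nat_lit 447093825)) (.cons (.rf (nat_lit 31) (nat_lit 448142401)) .nil)))) .nil)))),
 (.br (nat_lit 13) (nat_lit 1) (.cons (.ev (nat_lit 4722438540467978109184) (nat_lit 1)) (.cons (.rf (nat_lit 2356) (nat_lit 493858305440582043680)) (.cons (.rf (nat_lit 2358) (nat_lit 493858305440582043680)) (.cons (.br (nat_lit 13) (nat_lit 1) (.cons (.ev (nat_lit 4722438540467978109184) (nat_lit 1)) (.cons (.rf (nat_lit 2356) (nat_lit 493858305440582043680)) (.cons (.rf (nat_lit 2358) (nat_lit 493858305440582043680)) .nil)))) .nil))))),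
 (.br (nat_lit 13) (nat_lit 1) (.cons (.ev (nat_lit 4722438540467978109184) (nat_lit 1)) (.cons (.rf (nat_lit 2356) (nat_lit 493858305440582043680)) (.cons (.rf (nat_lit 2359) (nat_lit 493858305440582043680)) (.cons (.rf (nat_lit 2359) (nat_lit 493823402543469922336)) (.cons (.br (nat_lit 13) (nat_lit 1) (.cons (.ev (nat_lit 4722438540467978109184) (nat_lit 1)) (.cons (.rf (nat_lit 2356) (nat_lit 493858305440582043680)) (.cons (.rf (nat_lit 2359) (nat_lit 493858305440582043680)) (.cons (.rf (nat_lit 2359) (nat_lit 493823402543469922336)) .nil))))) .nil)))))),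
 (.br (nat_lit 10) (nat_lit 1) (.cons (.ev (nat_lit 1213666633124147017810176) (nat_lit 1)) (.cons (.rf (nat_lit 84) (nat_lit 10008009793)) .nil))),
 (.br (nat_lit 10) (nat_lit 1) (.cons (.rf (nat_lit 1339) (nat_lit 355819821090)) (.cons (.ev (nat_lit 1208925891954797717815296) (nat_lit 1)) (.cons (.br (nat_lit 8) (nat_lit 1) (.cons (.rf (nat_lit 2361) (nat_lit 481120147168397344)) (.cons (.rf (nat_lit 58) (nat_lit 8789057)) (.cons (.br (nat_lit 12) (nat_lit 1) (.cons (.br (nat_lit 11) (nat_lit 1) (.cons (.ev (nat_lit 309485028340429310977441793) (nat_lit 1)) .nil)) (.cons (.rf (nat_lit 84) (nat_lit 11182414913)) .nil))) .nil)))) .nil)))),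
 (.br (nat_lit 10) (nat_lit 1) (.cons (.rf (nat_lit 1339) (nat_lit 355819821090)) (.cons (.rf (nat_lit 2362) (nat_lit 493858305440582043680)) (.cons (.rf (nat_lit 1343) (nat_lit 456683434018)) (.cons (.br (nat_lit 10) (nat_lit 1) (.cons (.rf (nat_lit 1339) (nat_lit 355819821090)) (.cons (.rf (nat_lit 2362) (nat_lit 493858305440582043680)) (.cons (.ev (nat_lit 79231794014161721953357987842) (nat_lit 2)) .nil)))) .nil))))),
 (.br (nat_lit 11) (nat_lit 1) (.cons (.ev (nat_lit 309485009893685237267890176) (nat_lit 1)) (.cons (.ev (nat_lit 80156622284613657345717764097) (nat_lit 2)) .nil))),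
 (.br (nat_lit 12) (nat_lit 1) (.cons (.rf (nat_lit 84) (nat_lit 14302977089)) (.cons (.br (nat_lit 10) (nat_lit 1) (.cons (.rf (nat_lit 2364) (nat_lit 493858305440582043680)) (.cons (.br (nat_lit 10) (nat_lit 1) (.cons (.rf (nat_lit 2364) (nat_lit 493858305440582043680)) .nil)) .nil))) (.cons (.rf (nat_lit 82) (nat_lit 11182414913)) .nil)))),
 (.br (nat_lit 13) (nat_lit 1) (.cons (.br (nat_lit 8) (nat_lit 1) (.cons (.ev (nat_lit 20282410817318303548094285873153) (nat_lit 1)) (.cons (.zr (nat_lit 55556405003275993088) (nat_lit 40564819212025707613342931091457) (nat_lit 5) (nat_lit 0)) (.cons (.rf (nat_lit 2061) (nat_lit 411318821924834369)) .nil)))) (.cons (.br (nat_lit 10) (nat_lit 1) (.cons (.zr (nat_lit 61005685135983539951426888270081) (nat_lit 2432018738959346573639680) (nat_lit 5) (nat_lit 4)) (.cons (.zr (nat_lit 60847228810955011276239800369920) (nat_lit 2422574005993607283212289) (nat_lit 5) (nat_lit 4)) .nil))) .nil))),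
 (.br (nat_lit 13) (nat_lit 1) (.cons (.rf (nat_lit 2366) (nat_lit 493858305440582043680)) (.cons (.br (nat_lit 13) (nat_lit 1) (.cons (.rf (nat_lit 2366) (nat_lit 493858305440582043680)) (.cons (.ev (nat_lit 20361637766166007101709321568256) (nat_lit 1)) .nil))) (.cons (.br (nat_lit 13) (nat_lit 1) (.cons (.rf (nat_lit 2366) (nat_lit 493858305440582043680)) (.cons (.ev (nat_lit 20361637766166007101709321568256) (nat_lit 1)) .nil))) .nil)))),
 (.br (nat_lit 13) (nat_lit 1) (.cons (.rf (nat_lit 2367) (nat_lit 493858305440582043680)) (.cons (.br (nat_lit 10) (nat_lit 1) (.cons (.zr (nat_lit 396140812571322813867626594308) (nat_lit 40564821629877346561126320701952) (nat_lit 5) (nat_lit 3)) (.cons (.zr (nat_lit 237684492265160621550183907330) (nat_lit 40564821625154980078256675487744) (nat_lit 5) (nat_lit 3)) .nil))) .nil))),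
 (.br (nat_lit 13) (nat_lit 1) (.cons (.rf (nat_lit 2367) (nat_lit 493858305440582043680)) (.cons (.rf (nat_lit 2368) (nat_lit 493858305440582043680)) (.cons (.br (nat_lit 13) (nat_lit 1) (.cons (.rf (nat_lit 2367) (nat_lit 493858305440582043680)) (.cons (.rf (nat_lit 2368) (nat_lit 493858305440582043680)) .nil))) .nil)))),
 (.br (nat_lit 13) (nat_lit 1) (.cons (.rf (nat_lit 2367) (nat_lit 493858305440582043680)) (.cons (.rf (nat_lit 2369) (nat_lit 493858305440582043680)) (.cons (.br (nat_lit 13) (nat_lit 1) (.cons (.ev (nat_lit 20361637766166007101709321568256) (nat_lit 1)) (.cons (.rf (nat_lit 2369) (nat_lit 493858305440582043680)) .nil))) .nil)))),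
 (.br (nat_lit 13) (nat_lit 1) (.cons (.rf (nat_lit 2367) (nat_lit 493858305440582043680)) (.cons (.rf (nat_lit 2369) (nat_lit 493858305440582043680)) (.cons (.rf (nat_lit 2370) (nat_lit 493858305440582043680)) (.cons (.br (nat_lit 13) (nat_lit 1) (.cons (.rf (nat_lit 2367) (nat_lit 493858305440582043680)) (.cons (.rf (nat_lit 2369) (nat_lit 493858305440582043680)) (.cons (.rf (nat_lit 2370) (nat_lit 493858305440582043680)) .nil)))) .nil))))),
 (.br (nat_lit 11) (nat_lit 1) (.cons (.rf (nat_lit 2371) (nat_lit 493858305440582043680)) (.cons (.br (nat_lit 1) (nat_lit 1) (.cons (.ev (nat_lit 79228162532711081671548534784) (nat_lit 1)) (.cons (.rf (nat_lit 84) (nat_lit 8969919522)) (.cons (.br (nat_lit 8) (nat_lit 1) (.cons (.ev (nat_lit 79540074875870450053908791810) (nat_lit 2)) (.cons (.ev (nat_lit 309489750706629610429218816) (nat_lit 1)) .nil))) .nil)))) (.cons (.br (nat_lit 8) (nat_lit 1) (.cons (.zr (nat_lit 9444734091639197270785) (nat_lit 618970056680294576767893504) (nat_lit 5) (nat_lit 3))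 (.cons (.br (nat_lit 13) (nat_lit 1) (.cons (.rf (nat_lit 1925) (nat_lit 12010406696926152736)) (.cons (.ev (nat_lit 79538856449905297295738470401) (nat_lit 1)) .nil))) (.cons (.ev (nat_lit 309489750706629610429218816) (nat_lit 1)) (.cons (.br (nat_lit 1) (nat_lit 1) (.cons (.ev (nat_lit 310693954087986346097377536) (nat_lit 1)) (.cons (.zr (nat_lit 55556405003309547520) (nat_lit 159075299770538130772965982209) (nat_lit 5) (nat_lit 0)) (.cons (.br (nat_lit 10) (nat_lit 1) (.cons (.ev (nat_lit 21474236423734517396001169475584) (nat_lit 4)) .nil)) .nil)))) .nil))))) .nil)))),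
 (.br (nat_lit 11) (nat_lit 1) (.cons (.ev (nat_lit 309485009893685237267890176) (nat_lit 1)) (.cons (.rf (nat_lit 2372) (nat_lit 493858305440582043680)) (.cons (.br (nat_lit 8) (nat_lit 1) (.cons (.ev (nat_lit 79228162532711081671548534784) (nat_lit 1)) (.cons (.ev (nat_lit 309489750706629610429218816) (nat_lit 1)) (.cons (.br (nat_lit 13) (nat_lit 1) (.cons (.ev (nat_lit 40644975824865732420128877969920) (nat_lit 2)) (.cons (.zr (nat_lit 55556405003275993088) (nat_lit 40564819212025707613342931091457) (nat_lit 5) (nat_lit 0)) .nil))) .nil)))) .nil)))),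
 (.br (nat_lit 11) (nat_lit 1) (.cons (.rf (nat_lit 2371) (nat_lit 493858305440582043680)) (.cons (.rf (nat_lit 2372) (nat_lit 493858305440582043680)) (.cons (.rf (nat_lit 2373) (nat_lit 493858305440582043680)) (.cons (.br (nat_lit 11) (nat_lit 1) (.cons (.rf (nat_lit 2371) (nat_lit 493858305440582043680)) (.cons (.rf (nat_lit 2372) (nat_lit 493858305440582043680)) (.cons (.rf (nat_lit 2373) (nat_lit 493858305440582043680)) .nil)))) .nil))))),
 (.br (nat_lit 7) (nat_lit 1) (.cons (.rf (nat_lit 84) (nat_lit 11046946859)) (.cons (.rf (nat_lit 84) (nat_lit 10006923302)) (.cons (.ev (nat_lit 18518801672042512641) (nat_lit 1)) .nil))))]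

theorem c77 : chkAll C T R L77 (nat_lit 2345) = true := by decide +kernel

theorem l77 : (nat_lit 2345) + L77.length = (nat_lit 2376) := by decide +kernel

/-- part of the certificates -/
def L78 : List Prf := [(.br (nat_lit 11) (nat_lit 1) (.cons (.ev (nat_lit 158765810038566193046566928641) (nat_lit 2)) (.cons (.rf (nat_lit 2374) (nat_lit 493858305440582043680)) (.cons (.br (nat_lit 1) (nat_lit 1) (.cons (.rf (nat_lit 2375) (nat_lit 15433072044983552032)) (.cons (.rf (nat_lit 84) (nat_lit 8969919522)) (.cons (.br (nat_lit 10) (nat_lit 1) (.cons (.br (nat_lit 8) (nat_lit 1) (.cons (.ev (nat_lit 21475477971680894342016120194828) (nat_lit 4)) .nil)) (.cons (.ev (nat_lit 20282410812577490038580737802241) (nat_lit 1)) .nil))) .nil)))) .nil)))),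
 (.br (nat_lit 11) (nat_lit 1) (.cons (.rf (nat_lit 2371) (nat_lit 493858305440582043680)) (.cons (.rf (nat_lit 2374) (nat_lit 493858305440582043680)) (.cons (.rf (nat_lit 2376) (nat_lit 493858305440582043680)) (.cons (.br (nat_lit 11) (nat_lit 1) (.cons (.rf (nat_lit 2371) (nat_lit 493858305440582043680)) (.cons (.rf (nat_lit 2374) (nat_lit 493858305440582043680)) (.cons (.rf (nat_lit 2376) (nat_lit 493858305440582043680)) .nil)))) .nil))))),
 (.br (nat_lit 11) (nat_lit 1) (.cons (.rf (nat_lit 2371) (nat_lit 493858305440582043680)) (.cons (.rf (nat_lit 2374) (nat_lit 493858305440582043680)) (.cons (.rf (nat_lit 2377) (nat_lit 493858305440582043680)) (.cons (.br (nat_lit 11) (nat_lit 1) (.cons (.ev (nat_lit 79537652246524505700457054465) (nat_lit 1)) (.cons (.rf (nat_lit 2374) (nat_lit 493858305440582043680)) (.cons (.rf (nat_lit 2377) (nat_lit 493858305440582043680)) .nil)))) .nil))))),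
 (.br (nat_lit 11) (nat_lit 1) (.cons (.rf (nat_lit 2371) (nat_lit 493858305440582043680)) (.cons (.rf (nat_lit 2374) (nat_lit 493858305440582043680)) (.cons (.rf (nat_lit 2377) (nat_lit 493858305440582043680)) (.cons (.rf (nat_lit 2378) (nat_lit 493858305440582043680)) (.cons (.br (nat_lit 11) (nat_lit 1) (.cons (.rf (nat_lit 2371) (nat_lit 493858305440582043680)) (.cons (.rf (nat_lit 2374) (nat_lit 493858305440582043680)) (.cons (.rf (nat_lit 2377) (nat_lit 493858305440582043680)) (.cons (.rf (nat_lit 2378) (nat_lit 493858305440582043680)) .nil))))) .nil)))))),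
 (.br (nat_lit 10) (nat_lit 1) (.cons (.br (nat_lit 12) (nat_lit 1) (.cons (.ev (nat_lit 309489750706629610429218816) (nat_lit 1)) (.cons (.zr (nat_lit 55556405003309547520) (nat_lit 158458747602534669893865832449) (nat_lit 5) (nat_lit 0)) .nil))) (.cons (.ev (nat_lit 79229376162522775260906979585) (nat_lit 1)) (.cons (.br (nat_lit 11) (nat_lit 1) (.cons (.br (nat_lit 8) (nat_lit 1) (.cons (.ev (nat_lit 80159035450924854797676838914) (nat_lit 2)) .nil)) (.cons (.ev (nat_lit 20282410812577490038580737802241) (nat_lit 1)) .nil))) .nil)))),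
 (.br (nat_lit 11) (nat_lit 1) (.cons (.rf (nat_lit 2380) (nat_lit 493858305440582043680)) (.cons (.br (nat_lit 13) (nat_lit 1) (.cons (.ev (nat_lit 309489750706629610429218816) (nat_lit 1)) (.cons (.zr (nat_lit 60847228810955011271841821163520) (nat_lit 618974742009455585878082049) (nat_lit 5) (nat_lit 9)) .nil))) .nil))),
 (.br (nat_lit 11) (nat_lit 1) (.cons (.rf (nat_lit 2380) (nat_lit 493858305440582043680)) (.cons (.rf (nat_lit 2381) (nat_lit 493858305440582043680)) (.cons (.br (nat_lit 11) (nat_lit 1) (.cons (.rf (nat_lit 2380) (nat_lit 493858305440582043680)) (.cons (.rf (nat_lit 2381) (nat_lit 493858305440582043680)) .nil))) .nil)))),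
 (.br (nat_lit 11) (nat_lit 1) (.cons (.kr (nat_lit 20282719088661491769015976132864) (nat_lit 79229371458602753890466136064) (nat_lit 1) (nat_lit 0)) .nil)),
 (.br (nat_lit 10) (nat_lit 1) (.cons (.br (nat_lit 8) (nat_lit 1) (.cons (.ev (nat_lit 309489750706629610429218816) (nat_lit 1)) (.cons (.rf (nat_lit 2383) (nat_lit 493858305440582043680)) .nil))) (.cons (.rf (nat_lit 2382) (nat_lit 296673513922109742473)) .nil))),
 (.br (nat_lit 11) (nat_lit 1) (.cons (.rf (nat_lit 2382) (nat_lit 493858305440582043680)) (.cons (.rf (nat_lit 2384) (nat_lit 493858305440582043680)) (.cons (.br (nat_lit 11) (nat_lit 1) (.cons (.rf (nat_lit 2382) (nat_lit 493858305440582043680)) (.cons (.rf (nat_lit 2384) (nat_lit 493858305440582043680)) .nil))) .nil)))),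
 (.br (nat_lit 10) (nat_lit 1) (.cons (.br (nat_lit 10) (nat_lit 1) (.cons (.rf (nat_lit 2385) (nat_lit 493858305440582043680)) (.cons (.rf (nat_lit 2382) (nat_lit 296673513922109742473)) .nil))) (.cons (.rf (nat_lit 2385) (nat_lit 493858305440582043680)) (.cons (.rf (nat_lit 2382) (nat_lit 296673513922109742473)) .nil)))),
 (.br (nat_lit 11) (nat_lit 1) (.cons (.rf (nat_lit 2382) (nat_lit 493858305440582043680)) (.cons (.rf (nat_lit 2385) (nat_lit 493858305440582043680)) (.cons (.rf (nat_lit 2386) (nat_lit 493858305440582043680)) (.cons (.br (nat_lit 11) (nat_lit 1) (.cons (.rf (nat_lit 2382) (nat_lit 493858305440582043680)) (.cons (.rf (nat_lit 2385) (nat_lit 493858305440582043680)) (.cons (.rf (nat_lit 2386) (nat_lit 493858305440582043680)) .nil)))) .nil))))),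
 (.br (nat_lit 11) (nat_lit 1) (.cons (.rf (nat_lit 2387) (nat_lit 493823402543469922336)) (.cons (.ev (nat_lit 309489750706629610429218816) (nat_lit 1)) (.cons (.kr (nat_lit 1208925819614629174706176) (nat_lit 309485009821345068724781056) (nat_lit 10) (nat_lit 0)) .nil)))),
 (.br (nat_lit 10) (nat_lit 1) (.cons (.rf (nat_lit 2387) (nat_lit 493858305440582043680)) (.cons (.rf (nat_lit 2387) (nat_lit 296708416819221863817)) (.cons (.br (nat_lit 11) (nat_lit 1) (.cons (.rf (nat_lit 2387) (nat_lit 493823402543469922336)) (.cons (.rf (nat_lit 2388) (nat_lit 493858305440582043680)) (.cons (.rf (nat_lit 2387) (nat_lit 296673513922109742473)) (.cons (.rf (nat_lit 2388) (nat_lit 296708416819221863817)) .nil))))) .nil)))),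
 (.br (nat_lit 10) (nat_lit 1) (.cons (.rf (nat_lit 2387) (nat_lit 493858305440582043680)) (.cons (.rf (nat_lit 2389) (nat_lit 493858305440582043680)) (.cons (.rf (nat_lit 2387) (nat_lit 296708416819221863817)) (.cons (.br (nat_lit 10) (nat_lit 1) (.cons (.rf (nat_lit 2387) (nat_lit 493858305440582043680)) (.cons (.rf (nat_lit 2389) (nat_lit 493858305440582043680)) (.cons (.rf (nat_lit 2387) (nat_lit 296708416819221863817)) .nil)))) .nil))))),
 (.br (nat_lit 7) (nat_lit 1) (.cons (.rf (nat_lit 2360) (nat_lit 493858305268783356960)) (.cons (.br (nat_lit 1) (nat_lit 1) (.cons (.kr (nat_lit 1) (nat_lit 18446744073709551616) (nat_lit 0) (nat_lit 1)) (.cons (.rf (nat_lit 2363) (nat_lit 493858305440582043680)) (.cons (.rf (nat_lit 2363) (nat_lit 493823402543469922336)) (.cons (.rf (nat_lit 29) (nat_lit 8620417)) (.cons (.br (nat_lit 8) (nat_lit 1) (.cons (.rf (nat_lit 2365) (nat_lit 493858305440582043680)) (.cons (.rf (nat_lit 2365) (nat_lit 493823402543469922336)) (.cons (.rf (nat_lit 58) (nat_lit 8789057))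 (.cons (.rf (nat_lit 1339) (nat_lit 457825294370)) .nil))))) .nil)))))) (.cons (.rf (nat_lit 2379) (nat_lit 493858305440582043680)) (.cons (.rf (nat_lit 2379) (nat_lit 493823402543469922336)) (.cons (.ev (nat_lit 79228162514264337597838983169) (nat_lit 1)) (.cons (.br (nat_lit 10) (nat_lit 1) (.cons (.rf (nat_lit 2387) (nat_lit 493858305440582043680)) (.cons (.rf (nat_lit 2390) (nat_lit 493858305440582043680)) (.cons (.br (nat_lit 10) (nat_lit 1) (.cons (.rf (nat_lit 2387) (nat_lit 493858305440582043680)) (.cons (.rf (nat_lit 2390) (nat_lit 493858305440582043680)) (.cons (.rf (nat_lit 2387) (nat_lit 296708416819221863817)) (.cons (.rf (nat_lit 2390) (nat_lit 296708416819221863817)) .nil))))) (.cons (.rf (nat_lit 2387) (nat_lit 296708416819221863817)) (.cons (.rf (nat_lit 2390) (nat_lit 296708416819221863817)) .nil)))))) .nil))))))),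
 (.br (nat_lit 8) (nat_lit 1) (.cons (.br (nat_lit 11) (nat_lit 1) (.cons (.ev (nat_lit 20837319881465306216396331484420) (nat_lit 3)) .nil)) .nil)),
 (.br (nat_lit 12) (nat_lit 1) (.cons (.rf (nat_lit 1343) (nat_lit 456688671809)) (.cons (.rf (nat_lit 58) (nat_lit 10886209)) (.cons (.br (nat_lit 10) (nat_lit 1) (.cons (.rf (nat_lit 84) (nat_lit 12090121292)) (.cons (.rf (nat_lit 84) (nat_lit 8969919553)) (.cons (.br (nat_lit 8) (nat_lit 1) (.cons (.rf (nat_lit 2392) (nat_lit 493858305440582043680)) (.cons (.br (nat_lit 8) (nat_lit 1) (.cons (.rf (nat_lit 2392) (nat_lit 493858305440582043680)) .nil)) .nil))) .nil)))) (.cons (.kr (nat_lit 79228162514264337593543950337) (nat_lit 4722366482869645213952) (nat_lit 0) (nat_lit 2)) .nil))))),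
 (.br (nat_lit 12) (nat_lit 1) (.cons (.br (nat_lit 10) (nat_lit 1) (.cons (.rf (nat_lit 84) (nat_lit 12090481729)) (.cons (.rf (nat_lit 84) (nat_lit 8969559116)) (.cons (.br (nat_lit 8) (nat_lit 1) (.cons (.br (nat_lit 8) (nat_lit 1) (.cons (.ev (nat_lit 1208944338698871427366913) (nat_lit 1)) .nil)) (.cons (.br (nat_lit 8) (nat_lit 1) (.cons (.ev (nat_lit 1208944338698871427366913) (nat_lit 1)) .nil)) .nil))) .nil)))) (.cons (.rf (nat_lit 58) (nat_lit 10886209)) (.cons (.rf (nat_lit 1343) (nat_lit 275254685730)) (.cons (.rf (nat_lit 2393) (nat_lit 296708416991020550537)) .nil))))),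
 (.br (nat_lit 8) (nat_lit 1) (.cons (.br (nat_lit 11) (nat_lit 1) (.cons (.ev (nat_lit 20600878145979457651764233306117) (nat_lit 3)) .nil)) .nil)),
 (.br (nat_lit 13) (nat_lit 1) (.cons (.br (nat_lit 12) (nat_lit 1) (.cons (.ev (nat_lit 20361637766184381788188993126401) (nat_lit 1)) (.cons (.zr (nat_lit 3626777675016669637903104) (nat_lit 40564819212025707613342947868673) (nat_lit 5) (nat_lit 0)) (.cons (.zr (nat_lit 928455029464035206174540544) (nat_lit 40564819212025707613342947868673) (nat_lit 5) (nat_lit 0)) .nil)))) (.cons (.kr (nat_lit 79228162514264337593543950337) (nat_lit 4722366482869645213952) (nat_lit 0) (nat_lit 2)) .nil))),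
 (.br (nat_lit 13) (nat_lit 1) (.cons (.rf (nat_lit 2396) (nat_lit 493858305440582043680)) (.cons (.rf (nat_lit 2396) (nat_lit 493823402371671235616)) (.cons (.kr (nat_lit 79228162514264337593543950337) (nat_lit 4722366482869645213952) (nat_lit 0) (nat_lit 2)) .nil)))),
 (.br (nat_lit 13) (nat_lit 1) (.cons (.rf (nat_lit 2397) (nat_lit 493858305440582043680)) (.cons (.br (nat_lit 13) (nat_lit 1) (.cons (.rf (nat_lit 2397) (nat_lit 493858305440582043680)) (.cons (.kr (nat_lit 79228162514264337593543950337) (nat_lit 4722366482869645213952) (nat_lit 0) (nat_lit 2)) .nil))) (.cons (.kr (nat_lit 79228162514264337593543950337) (nat_lit 4722366482869645213952) (nat_lit 0) (nat_lit 2)) .nil)))),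
 (.br (nat_lit 13) (nat_lit 1) (.cons (.rf (nat_lit 2397) (nat_lit 493858305440582043680)) (.cons (.rf (nat_lit 2398) (nat_lit 493858305440582043680)) (.cons (.rf (nat_lit 2398) (nat_lit 493823402371671235616)) (.cons (.kr (nat_lit 79228162514264337593543950337) (nat_lit 4722366482869645213952) (nat_lit 0) (nat_lit 2)) .nil))))),
 (.br (nat_lit 8) (nat_lit 1) (.cons (.rf (nat_lit 2399) (nat_lit 493858305440582043680)) (.cons (.br (nat_lit 13) (nat_lit 1) (.cons (.br (nat_lit 13) (nat_lit 1) (.cons (.ev (nat_lit 1213666704899170879143936) (nat_lit 1)) (.cons (.ev (nat_lit 309489750634572016391356416) (nat_lit 1)) .nil))) (.cons (.ev (nat_lit 1213666704899170879143936) (nat_lit 1)) (.cons (.ev (nat_lit 309489750634572016391356416) (nat_lit 1)) .nil)))) (.cons (.br (nat_lit 12) (nat_lit 1) (.cons (.br (nat_lit 13) (nat_lit 1) (.cons (.zr (nat_lit 237688114320468029450269753344) (nat_lit 4759260253595864399873) (nat_lit 5) (nat_lit 9)) (.cons (.zr (nat_lit 238612942572257047986806390784) (nat_lit 4759260253595864399873)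 (nat_lit 5) (nat_lit 9)) .nil))) (.cons (.ev (nat_lit 1213666704899170879143936) (nat_lit 1)) (.cons (.ev (nat_lit 309489750634572016391356416) (nat_lit 1)) (.cons (.rf (nat_lit 2399) (nat_lit 296708416991020550537)) .nil))))) .nil)))),
 (.br (nat_lit 8) (nat_lit 1) (.cons (.rf (nat_lit 84) (nat_lit 12155170855)) (.cons (.rf (nat_lit 2400) (nat_lit 493858305440582043680)) (.cons (.br (nat_lit 10) (nat_lit 1) (.cons (.rf (nat_lit 84) (nat_lit 12090476583)) (.cons (.ev (nat_lit 1213666704899170879143936) (nat_lit 1)) (.cons (.br (nat_lit 11) (nat_lit 1) (.cons (.ev (nat_lit 79229371458602753894777880833) (nat_lit 1)) (.cons (.rf (nat_lit 2400) (nat_lit 296708416991020550537)) .nil))) .nil)))) .nil)))),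
 (.br (nat_lit 8) (nat_lit 1) (.cons (.rf (nat_lit 2399) (nat_lit 493858305440582043680)) (.cons (.rf (nat_lit 2400) (nat_lit 493858305440582043680)) (.cons (.rf (nat_lit 2401) (nat_lit 493858305440582043680)) (.cons (.br (nat_lit 8) (nat_lit 1) (.cons (.rf (nat_lit 2399) (nat_lit 493858305440582043680)) (.cons (.rf (nat_lit 2400) (nat_lit 493858305440582043680)) (.cons (.rf (nat_lit 2401) (nat_lit 493858305440582043680)) .nil)))) .nil))))),
 (.br (nat_lit 8) (nat_lit 1) (.cons (.rf (nat_lit 2399) (nat_lit 493858305440582043680)) (.cons (.rf (nat_lit 2402) (nat_lit 493858305440582043680)) (.cons (.rf (nat_lit 2402) (nat_lit 493823402371671235616)) (.cons (.br (nat_lit 8) (nat_lit 1) (.cons (.rf (nat_lit 2399) (nat_lit 493858305440582043680)) (.cons (.rf (nat_lit 2402) (nat_lit 493858305440582043680)) (.cons (.rf (nat_lit 2402) (nat_lit 493823402371671235616)) .nil)))) .nil))))),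
 (.br (nat_lit 7) (nat_lit 1) (.cons (.rf (nat_lit 2360) (nat_lit 493858305268783356960)) (.cons (.rf (nat_lit 2391) (nat_lit 493858305268783356960)) (.cons (.br (nat_lit 1) (nat_lit 1) (.cons (.rf (nat_lit 2393) (nat_lit 493858305440582043680)) (.cons (.rf (nat_lit 58) (nat_lit 10717228)) (.cons (.rf (nat_lit 2394) (nat_lit 493858305440582043680)) (.cons (.rf (nat_lit 29) (nat_lit 10717569)) (.cons (.br (nat_lit 12) (nat_lit 1) (.cons (.br (nat_lit 10) (nat_lit 1) (.cons (.rf (nat_lit 84) (nat_lit 14237965377)) (.cons (.br (nat_lit 11) (nat_lit 1) (.cons (.rf (nat_lit 2395) (nat_lit 493858305440582043680)) (.cons (.rf (nat_lit 2395) (nat_lit 296708416991020550537)) .nil))) (.cons (.rf (nat_lit 84) (nat_lit 9036667980)) .nil)))) (.cons (.rf (nat_lit 58) (nat_lit 10886209)) (.cons (.rf (nat_lit 2394) (nat_lit 296708416991020550537)) (.cons (.rf (nat_lit 1343) (nat_lit 275321794594)) .nil))))) .nil)))))) (.cons (.br (nat_lit 8) (nat_lit 1) (.cons (.rf (nat_lit 2399) (nat_lit 493858305440582043680))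 (.cons (.rf (nat_lit 2402) (nat_lit 493858305440582043680)) (.cons (.rf (nat_lit 2402) (nat_lit 493823402371671235616)) (.cons (.rf (nat_lit 2403) (nat_lit 493858305440582043680)) (.cons (.br (nat_lit 8) (nat_lit 1) (.cons (.rf (nat_lit 2399) (nat_lit 493858305440582043680)) (.cons (.rf (nat_lit 2402) (nat_lit 493858305440582043680)) (.cons (.rf (nat_lit 2402) (nat_lit 493823402371671235616)) (.cons (.rf (nat_lit 2403) (nat_lit 493858305440582043680)) .nil))))) .nil)))))) (.cons (.rf (nat_lit 2360) (nat_lit 296708416819221863817)) (.cons (.rf (nat_lit 2391) (nat_lit 296708416819221863817)) .nil)))))))]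

theorem c78 : chkAll C T R L78 (nat_lit 2376) = true := by decide +kernel

theorem l78 : (nat_lit 2376) + L78.length = (nat_lit 2405) := by decide +kernel

/-- part of the certificates -/
def L79 : List Prf := [(.br (nat_lit 9) (nat_lit 1) (.cons (.br (nat_lit 3) (nat_lit 1) (.cons (.br (nat_lit 12) (nat_lit 0) (.cons (.br (nat_lit 2) (nat_lit 1) (.cons (.rf (nat_lit 2360) (nat_lit 493858305440582043680)) (.cons (.kr (nat_lit 65536) (nat_lit 72057594037927936) (nat_lit 2) (nat_lit 0)) (.cons (.rf (nat_lit 2391) (nat_lit 493858305440582043680)) (.cons (.rf (nat_lit 2404) (nat_lit 493858305440582043680)) (.cons (.rf (nat_lit 2404) (nat_lit 493823402543469922336)) (.cons (.rf (nat_lit 2360) (nat_lit 296708416991020550537)) (.cons (.rf (nat_lit 2391) (nat_lit 296708416991020550537)) .nil)))))))) .nil)) .nil)) .nil)),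
 (.br (nat_lit 2) (nat_lit 0) (.cons (.rf (nat_lit 1474) (nat_lit 9043225708576)) (.cons (.rf (nat_lit 1623) (nat_lit 9043225708576)) (.cons (.rf (nat_lit 2033) (nat_lit 9043225708576)) (.cons (.br (nat_lit 7) (nat_lit 0) (.cons (.rf (nat_lit 1474) (nat_lit 8871427021856)) (.cons (.rf (nat_lit 1623) (nat_lit 8871427021856)) (.cons (.rf (nat_lit 2033) (nat_lit 8871427021856)) (.cons (.br (nat_lit 6) (nat_lit 1) (.cons (.rf (nat_lit 2347) (nat_lit 11584701642934304)) (.cons (.br (nat_lit 6) (nat_lit 1) (.cons (.rf (nat_lit 2347) (nat_lit 12710601549776928)) (.cons (.br (nat_lit 9) (nat_lit 1) (.cons (.rf (nat_lit 2405) (nat_lit 14242959524133701664)) (.cons (.br (nat_lit 9) (nat_lit 1) (.cons (.rf (nat_lit 2405) (nat_lit 15395881028740548640)) .nil)) .nil))) .nil))) .nil))) .nil))))) .nil))))),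
 (.br (nat_lit 9) (nat_lit 1) (.cons (.rf (nat_lit 84) (nat_lit 12222498855)) (.cons (.rf (nat_lit 1535) (nat_lit 455880258851726009386)) .nil))),
 (.br (nat_lit 12) (nat_lit 1) (.cons (.kr (nat_lit 79537647524085682662268797184) (nat_lit 20282409608392555708484643979264) (nat_lit 1) (nat_lit 0)) .nil)),
 (.br (nat_lit 11) (nat_lit 1) (.cons (.rf (nat_lit 1339) (nat_lit 391152474337)) (.cons (.rf (nat_lit 82) (nat_lit 13164946657)) (.cons (.br (nat_lit 8) (nat_lit 1) (.cons (.rf (nat_lit 58) (nat_lit 8685607)) (.cons (.rf (nat_lit 2407) (nat_lit 493858305440582043680)) (.cons (.br (nat_lit 9) (nat_lit 1) (.cons (.rf (nat_lit 2408) (nat_lit 493858305440582043680)) (.cons (.ev (nat_lit 20282720297605830466787875028993) (nat_lit 1)) .nil))) .nil)))) .nil)))),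
 (.br (nat_lit 11) (nat_lit 1) (.cons (.rf (nat_lit 1339) (nat_lit 391152474337)) (.cons (.rf (nat_lit 1343) (nat_lit 457785484513)) (.cons (.rf (nat_lit 2409) (nat_lit 493858305440582043680)) (.cons (.br (nat_lit 11) (nat_lit 1) (.cons (.rf (nat_lit 1339) (nat_lit 391152474337)) (.cons (.rf (nat_lit 82) (nat_lit 14238688481)) (.cons (.rf (nat_lit 2409) (nat_lit 493858305440582043680)) .nil)))) .nil))))),
 (.br (nat_lit 8) (nat_lit 1) (.cons (.rf (nat_lit 84) (nat_lit 13262686247)) (.cons (.rf (nat_lit 84) (nat_lit 12222433321)) (.cons (.br (nat_lit 11) (nat_lit 1) (.cons (.br (nat_lit 13) (nat_lit 1) (.cons (.zr (nat_lit 14222440243784312684544) (nat_lit 620178945462305866152673793) (nat_lit 5) (nat_lit 5)) (.cons (.kr (nat_lit 79228162514264337597838983168) (nat_lit 4740813508418331475968) (nat_lit 2) (nat_lit 0)) .nil))) (.cons (.br (nat_lit 12) (nat_lit 1) (.cons (.zr (nat_lit 14222440243784312684544) (nat_lit 620178945462305866152673793) (nat_lit 5) (nat_lit 5)) (.cons (.zr (nat_lit 14222655853612178079744)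 (nat_lit 40564820416229160745102477361153) (nat_lit 5) (nat_lit 0)) .nil))) .nil))) .nil)))),
 (.br (nat_lit 7) (nat_lit 1) (.cons (.ev (nat_lit 72058697844523009) (nat_lit 1)) (.cons (.rf (nat_lit 29) (nat_lit 8455463)) (.cons (.rf (nat_lit 2410) (nat_lit 493858305440582043680)) (.cons (.br (nat_lit 9) (nat_lit 1) (.cons (.rf (nat_lit 58) (nat_lit 8685607)) (.cons (.rf (nat_lit 2411) (nat_lit 493858305440582043680)) (.cons (.rf (nat_lit 1343) (nat_lit 389099562209)) (.cons (.rf (nat_lit 2411) (nat_lit 420143386739781765152)) .nil))))) (.cons (.rf (nat_lit 2410) (nat_lit 420143386739781765152)) .nil)))))),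
 (.br (nat_lit 11) (nat_lit 1) (.cons (.rf (nat_lit 1343) (nat_lit 457792822337)) (.cons (.rf (nat_lit 1339) (nat_lit 391085594689)) (.cons (.br (nat_lit 11) (nat_lit 1) (.cons (.rf (nat_lit 82) (nat_lit 13165173825)) (.cons (.rf (nat_lit 1339) (nat_lit 391085594689)) (.cons (.ev (nat_lit 310693935641242272387825921) (nat_lit 1)) .nil)))) (.cons (.br (nat_lit 11) (nat_lit 1) (.cons (.rf (nat_lit 82) (nat_lit 14238915649)) (.cons (.rf (nat_lit 1339) (nat_lit 391085594689)) (.cons (.ev (nat_lit 310693935641242272387825921) (nat_lit 1)) .nil)))) .nil))))),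
 (.br (nat_lit 11) (nat_lit 1) (.cons (.br (nat_lit 12) (nat_lit 1) (.cons (.ev (nat_lit 158773063722900448903535068420) (nat_lit 3)) .nil)) .nil)),
 (.br (nat_lit 8) (nat_lit 1) (.cons (.rf (nat_lit 84) (nat_lit 13262627874)) (.cons (.rf (nat_lit 84) (nat_lit 12222276647)) (.cons (.br (nat_lit 11) (nat_lit 1) (.cons (.rf (nat_lit 2414) (nat_lit 493858305440582043680)) (.cons (.br (nat_lit 12) (nat_lit 1) (.cons (.rf (nat_lit 2414) (nat_lit 493858305440582043680)) (.cons (.rf (nat_lit 2061) (nat_lit 447379539140744226)) .nil))) .nil))) .nil)))),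
 (.br (nat_lit 2) (nat_lit 1) (.cons (.rf (nat_lit 29) (nat_lit 8684770)) (.cons (.rf (nat_lit 58) (nat_lit 8685607)) (.cons (.rf (nat_lit 2413) (nat_lit 493858305440582043680)) (.cons (.br (nat_lit 7) (nat_lit 1) (.cons (.ev (nat_lit 72058697844523009) (nat_lit 1)) (.cons (.rf (nat_lit 2415) (nat_lit 493858305440582043680)) (.cons (.rf (nat_lit 1343) (nat_lit 389106900033)) (.cons (.rf (nat_lit 2415) (nat_lit 420143386739781765152)) .nil))))) (.cons (.rf (nat_lit 2413) (nat_lit 420143386739781765152)) .nil)))))),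
 (.br (nat_lit 9) (nat_lit 1) (.cons (.br (nat_lit 11) (nat_lit 1) (.cons (.br (nat_lit 12) (nat_lit 1) (.cons (.ev (nat_lit 79847146737900808925163487745) (nat_lit 2)) .nil)) (.cons (.rf (nat_lit 84) (nat_lit 8972966977)) .nil))) (.cons (.br (nat_lit 12) (nat_lit 1) (.cons (.ev (nat_lit 79229376162522492690696765441) (nat_lit 1)) (.cons (.ev (nat_lit 79228167236630821566995824896) (nat_lit 1)) .nil))) (.cons (.zr (nat_lit 2417851639792212597801728) (nat_lit 9481626454986237935617) (nat_lit 5) (nat_lit 3)) .nil)))),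
 (.br (nat_lit 13) (nat_lit 1) (.cons (.rf (nat_lit 2417) (nat_lit 493858305440582043680)) (.cons (.zr (nat_lit 2417851639792212597801728) (nat_lit 9481626454986237935617) (nat_lit 5) (nat_lit 3)) (.cons (.br (nat_lit 13) (nat_lit 1) (.cons (.rf (nat_lit 2417) (nat_lit 493858305440582043680)) (.cons (.zr (nat_lit 2417851639792212597801728) (nat_lit 9481626454986237935617) (nat_lit 5) (nat_lit 3)) (.cons (.ev (nat_lit 20282410812577490321150914330881) (nat_lit 1)) .nil)))) (.cons (.br (nat_lit 13) (nat_lit 1) (.cons (.rf (nat_lit 2417) (nat_lit 493858305440582043680)) (.cons (.zr (nat_lit 2417851639792212597801728) (nat_lit 9481626454986237935617) (nat_lit 5) (nat_lit 3)) (.cons (.ev (nat_lit 20282410812577490321150914330881) (nat_lit 1)) .nil)))) .nil))))),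
 (.br (nat_lit 13) (nat_lit 1) (.cons (.rf (nat_lit 2418) (nat_lit 493858305440582043680)) (.cons (.zr (nat_lit 2417851639792212597801728) (nat_lit 9481626454986237935617) (nat_lit 5) (nat_lit 3)) (.cons (.br (nat_lit 2) (nat_lit 1) (.cons (.kr (nat_lit 20282409603651670425046762979584) (nat_lit 9463251767407037906944) (nat_lit 1) (nat_lit 0)) (.cons (.br (nat_lit 9) (nat_lit 1) (.cons (.zr (nat_lit 4835703279584416605668608) (nat_lit 618979501413260316058320897) (nat_lit 5) (nat_lit 3)) .nil)) (.cons (.ev (nat_lit 20282409603670189507089975541761) (nat_lit 1)) .nil)))) .nil)))),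
 (.br (nat_lit 13) (nat_lit 1) (.cons (.rf (nat_lit 2418) (nat_lit 493858305440582043680)) (.cons (.zr (nat_lit 2417851639792212597801728) (nat_lit 9481626454986237935617) (nat_lit 5) (nat_lit 3)) (.cons (.rf (nat_lit 2419) (nat_lit 493858305440582043680)) (.cons (.br (nat_lit 13) (nat_lit 1) (.cons (.rf (nat_lit 2418) (nat_lit 493858305440582043680)) (.cons (.zr (nat_lit 2417851639792212597801728) (nat_lit 9481626454986237935617) (nat_lit 5) (nat_lit 3)) (.cons (.rf (nat_lit 2419) (nat_lit 493858305440582043680)) .nil)))) .nil))))),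
 (.br (nat_lit 13) (nat_lit 1) (.cons (.rf (nat_lit 2418) (nat_lit 493858305440582043680)) (.cons (.rf (nat_lit 2420) (nat_lit 493858305440582043680)) (.cons (.zr (nat_lit 2417851639792212597801728) (nat_lit 9481626454986237935617) (nat_lit 5) (nat_lit 3)) (.cons (.br (nat_lit 13) (nat_lit 1) (.cons (.ev (nat_lit 20282410812577490321150914330881) (nat_lit 1)) (.cons (.rf (nat_lit 2420) (nat_lit 493858305440582043680)) (.cons (.zr (nat_lit 2417851639792212597801728) (nat_lit 9481626454986237935617) (nat_lit 5) (nat_lit 3)) .nil)))) .nil))))),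
 (.br (nat_lit 2) (nat_lit 1) (.cons (.rf (nat_lit 31) (nat_lit 377783522)) (.cons (.ev (nat_lit 309485009821345073019814144) (nat_lit 1)) (.cons (.br (nat_lit 7) (nat_lit 1) (.cons (.ev (nat_lit 310693954159762469453561856) (nat_lit 1)) (.cons (.br (nat_lit 12) (nat_lit 1) (.cons (.ev (nat_lit 79229376180897460641050132736) (nat_lit 1)) (.cons (.ev (nat_lit 79228167255149904705425047553) (nat_lit 1)) .nil))) (.cons (.br (nat_lit 12) (nat_lit 1) (.cons (.br (nat_lit 12) (nat_lit 1) (.cons (.ev (nat_lit 20837937637874088079805244572928) (nat_lit 3)) .nil)) (.cons (.br (nat_lit 11) (nat_lit 1) (.cons (.ev (nat_lit 20837937637874088079805244572928) (nat_lit 3)) .nil)) .nil))) .nil)))) (.cons (.br (nat_lit 7) (nat_lit 1) (.cons (.ev (nat_lit 309485028268089146729365761) (nat_lit 1)) (.cons (.br (nat_lit 13) (nat_lit 1) (.cons (.kr (nat_lit 1208925819896104151417088) (nat_lit 20282409603651742481545584181248) (nat_lit 1) (nat_lit 0)) (.cons (.zr (nat_lit 4835703279584416605668608) (nat_lit 40564819216785111418073111330817)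 (nat_lit 5) (nat_lit 3)) .nil))) (.cons (.rf (nat_lit 84) (nat_lit 12093267017)) .nil)))) .nil))))),
 (.br (nat_lit 8) (nat_lit 1) (.cons (.rf (nat_lit 2412) (nat_lit 493858305440582043680)) (.cons (.ev (nat_lit 72058697844523009) (nat_lit 1)) (.cons (.rf (nat_lit 2416) (nat_lit 493858305440582043680)) (.cons (.br (nat_lit 13) (nat_lit 1) (.cons (.rf (nat_lit 2418) (nat_lit 493858305440582043680)) (.cons (.rf (nat_lit 2420) (nat_lit 493858305440582043680)) (.cons (.zr (nat_lit 2417851639792212597801728) (nat_lit 9481626454986237935617) (nat_lit 5) (nat_lit 3)) (.cons (.rf (nat_lit 2421) (nat_lit 493858305440582043680)) (.cons (.br (nat_lit 13) (nat_lit 1) (.cons (.rf (nat_lit 2418) (nat_lit 493858305440582043680)) (.cons (.rf (nat_lit 2420) (nat_lit 493858305440582043680)) (.cons (.zr (nat_lit 2417851639792212597801728) (nat_lit 9481626454986237935617) (nat_lit 5) (nat_lit 3)) (.cons (.rf (nat_lit 2421) (nat_lit 493858305440582043680)) .nil))))) .nil)))))) (.cons (.br (nat_lit 9) (nat_lit 1) (.cons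 (.rf (nat_lit 1593) (nat_lit 458532068642)) (.cons (.rf (nat_lit 1593) (nat_lit 458532063527)) (.cons (.rf (nat_lit 2422) (nat_lit 493858305440582043680)) (.cons (.zr (nat_lit 2417851639792212597801728) (nat_lit 9481626454986237935617) (nat_lit 5) (nat_lit 3)) (.cons (.rf (nat_lit 2422) (nat_lit 420143386739781765152)) .nil)))))) .nil)))))),
 (.br (nat_lit 8) (nat_lit 1) (.cons (.rf (nat_lit 2412) (nat_lit 493858305440582043680)) (.cons (.ev (nat_lit 72058697844523009) (nat_lit 1)) (.cons (.rf (nat_lit 2416) (nat_lit 493858305440582043680)) (.cons (.rf (nat_lit 2423) (nat_lit 493858305440582043680)) (.cons (.br (nat_lit 8) (nat_lit 1) (.cons (.rf (nat_lit 2412) (nat_lit 493858305440582043680)) (.cons (.ev (nat_lit 72058697844523009) (nat_lit 1)) (.cons (.rf (nat_lit 2416) (nat_lit 493858305440582043680)) (.cons (.rf (nat_lit 2423) (nat_lit 493858305440582043680)) (.cons (.rf (nat_lit 2423) (nat_lit 420143386739781765152)) .nil)))))) (.cons (.rf (nat_lit 2423) (nat_lit 420143386739781765152)) .nil))))))),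
 (.br (nat_lit 11) (nat_lit 1) (.cons (.rf (nat_lit 82) (nat_lit 13165173794)) (.cons (.rf (nat_lit 1339) (nat_lit 391085594658)) (.cons (.br (nat_lit 7) (nat_lit 1) (.cons (.ev (nat_lit 72058697844523009) (nat_lit 1)) (.cons (.br (nat_lit 8) (nat_lit 1) (.cons (.rf (nat_lit 84) (nat_lit 12222440513)) (.cons (.zr (nat_lit 313116510006959804724346880) (nat_lit 73788667343721726978) (nat_lit 10) (nat_lit 10)) .nil))) (.cons (.br (nat_lit 13) (nat_lit 1) (.cons (.zr (nat_lit 3626888140434238412751104) (nat_lit 1237958929111607420251013127) (nat_lit 10) (nat_lit 3)) (.cons (.ev (nat_lit 40564820425673966049906470879491) (nat_lit 2)) .nil))) .nil)))) .nil)))),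
 (.br (nat_lit 11) (nat_lit 1) (.cons (.rf (nat_lit 1343) (nat_lit 457792822306)) (.cons (.rf (nat_lit 1339) (nat_lit 391085594658)) (.cons (.rf (nat_lit 2425) (nat_lit 493858305440582043680)) (.cons (.br (nat_lit 11) (nat_lit 1) (.cons (.rf (nat_lit 82) (nat_lit 14238915618)) (.cons (.ev (nat_lit 310698658007443671368138753) (nat_lit 1)) (.cons (.rf (nat_lit 2425) (nat_lit 493858305440582043680)) .nil)))) .nil))))),
 (.br (nat_lit 8) (nat_lit 1) (.cons (.rf (nat_lit 84) (nat_lit 13262627905)) (.cons (.rf (nat_lit 84) (nat_lit 12222243911)) (.cons (.br (nat_lit 11) (nat_lit 1) (.cons (.br (nat_lit 11) (nat_lit 1) (.cons (.ev (nat_lit 309499232478046417303109634) (nat_lit 2)) .nil)) (.cons (.br (nat_lit 11) (nat_lit 1) (.cons (.ev (nat_lit 309499232478046417303109634) (nat_lit 2)) .nil)) .nil))) .nil)))),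
 (.br (nat_lit 1) (nat_lit 1) (.cons (.rf (nat_lit 29) (nat_lit 8685793)) (.cons (.rf (nat_lit 58) (nat_lit 8685607)) (.cons (.rf (nat_lit 2426) (nat_lit 493858305440582043680)) (.cons (.br (nat_lit 7) (nat_lit 1) (.cons (.ev (nat_lit 72058697844523009) (nat_lit 1)) (.cons (.rf (nat_lit 2427) (nat_lit 14242959524133701664)) (.cons (.rf (nat_lit 1343) (nat_lit 389106900002)) (.cons (.rf (nat_lit 2427) (nat_lit 14315017118171629600)) .nil))))) (.cons (.rf (nat_lit 2426) (nat_lit 420143386739781765152)) .nil)))))),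
 (.br (nat_lit 7) (nat_lit 1) (.cons (.ev (nat_lit 1208962785726619153793795) (nat_lit 2)) (.cons (.br (nat_lit 12) (nat_lit 1) (.cons (.ev (nat_lit 79538856468424100063014289665) (nat_lit 1)) (.cons (.rf (nat_lit 1386) (nat_lit 492671606766971231264)) .nil))) (.cons (.rf (nat_lit 1586) (nat_lit 458114396110622663712)) .nil)))),
 (.br (nat_lit 11) (nat_lit 1) (.cons (.ev (nat_lit 1208962785726619153793795) (nat_lit 2)) (.cons (.rf (nat_lit 2429) (nat_lit 493858305440582043680)) (.cons (.br (nat_lit 7) (nat_lit 1) (.cons (.br (nat_lit 12) (nat_lit 1) (.cons (.ev (nat_lit 158768232667696528654451344130) (nat_lit 2)) .nil)) (.cons (.ev (nat_lit 79538856468352323939658104833) (nat_lit 1)) (.cons (.ev (nat_lit 20282720297605758127723155357953) (nat_lit 1)) .nil)))) .nil)))),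
 (.br (nat_lit 11) (nat_lit 1) (.cons (.ev (nat_lit 1208962785726619153793795) (nat_lit 2)) (.cons (.rf (nat_lit 2429) (nat_lit 493858305440582043680)) (.cons (.rf (nat_lit 2430) (nat_lit 493858305440582043680)) (.cons (.br (nat_lit 11) (nat_lit 1) (.cons (.ev (nat_lit 1208962785726619153793795) (nat_lit 2)) (.cons (.rf (nat_lit 2429) (nat_lit 493858305440582043680)) (.cons (.rf (nat_lit 2430) (nat_lit 493858305440582043680)) .nil)))) .nil))))),
 (.br (nat_lit 11) (nat_lit 1) (.cons (.kr (nat_lit 20361637766165934761540795302144) (nat_lit 309489750706629606117474304) (nat_lit 1) (nat_lit 0)) .nil)),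
 (.br (nat_lit 13) (nat_lit 1) (.cons (.rf (nat_lit 58) (nat_lit 13933602)) (.cons (.ev (nat_lit 20282409608392483932365599539201) (nat_lit 1)) (.cons (.br (nat_lit 1) (nat_lit 1) (.cons (.rf (nat_lit 2432) (nat_lit 493858305440582043680)) (.cons (.ev (nat_lit 20282410817318375605688323866880) (nat_lit 1)) .nil))) .nil)))),
 (.br (nat_lit 13) (nat_lit 1) (.cons (.rf (nat_lit 2431) (nat_lit 493858305440582043680)) (.cons (.ev (nat_lit 20282409608392483932365599539201) (nat_lit 1)) (.cons (.br (nat_lit 9) (nat_lit 1) (.cons (.br (nat_lit 11) (nat_lit 1) (.cons (.zr (nat_lit 14222655853612178079744) (nat_lit 620178945462587345424351233) (nat_lit 5) (nat_lit 0)) .nil)) (.cons (.ev (nat_lit 20282410817318303266623604195328) (nat_lit 1)) (.cons (.br (nat_lit 1) (nat_lit 1) (.cons (.zr (nat_lit 3626888211365958313639936) (nat_lit 1237958928751882400014796039) (nat_lit 10) (nat_lit 3)) .nil)) .nil)))) .nil))))]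

theorem c79 : chkAll C T R L79 (nat_lit 2405) = true := by decide +kernel

theorem l79 : (nat_lit 2405) + L79.length = (nat_lit 2435) := by decide +kernel

/-- part of the certificates -/
def L80 : List Prf := [(.br (nat_lit 13) (nat_lit 1) (.cons (.rf (nat_lit 2431) (nat_lit 493858305440582043680)) (.cons (.rf (nat_lit 2433) (nat_lit 493858305440582043680)) (.cons (.rf (nat_lit 2434) (nat_lit 493858305440582043680)) (.cons (.br (nat_lit 13) (nat_lit 1) (.cons (.rf (nat_lit 2431) (nat_lit 493858305440582043680)) (.cons (.rf (nat_lit 2433) (nat_lit 493858305440582043680)) (.cons (.rf (nat_lit 2434) (nat_lit 493858305440582043680)) .nil)))) .nil))))),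
 (.br (nat_lit 13) (nat_lit 1) (.cons (.rf (nat_lit 2431) (nat_lit 493858305440582043680)) (.cons (.ev (nat_lit 20282409608392483932365599539201) (nat_lit 1)) (.cons (.br (nat_lit 1) (nat_lit 1) (.cons (.zr (nat_lit 4740813228042899948032) (nat_lit 1208925964011296522240001) (nat_lit 5) (nat_lit 4)) (.cons (.br (nat_lit 7) (nat_lit 1) (.cons (.zr (nat_lit 14222439680830131404800) (nat_lit 620178945606702533483429889) (nat_lit 5) (nat_lit 4)) .nil)) (.cons (.br (nat_lit 7) (nat_lit 1) (.cons (.ev (nat_lit 20678550425741729358128796205570) (nat_lit 3)) .nil)) .nil)))) .nil)))),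
 (.br (nat_lit 13) (nat_lit 1) (.cons (.rf (nat_lit 2431) (nat_lit 493858305440582043680)) (.cons (.rf (nat_lit 2435) (nat_lit 493858305440582043680)) (.cons (.rf (nat_lit 2436) (nat_lit 493858305440582043680)) (.cons (.br (nat_lit 13) (nat_lit 1) (.cons (.ev (nat_lit 20282409608374037188291889987584) (nat_lit 1)) (.cons (.rf (nat_lit 2435) (nat_lit 493858305440582043680)) (.cons (.rf (nat_lit 2436) (nat_lit 493858305440582043680)) .nil)))) .nil))))),
 (.br (nat_lit 13) (nat_lit 1) (.cons (.rf (nat_lit 2431) (nat_lit 493858305440582043680)) (.cons (.rf (nat_lit 2435) (nat_lit 493858305440582043680)) (.cons (.rf (nat_lit 2437) (nat_lit 493858305440582043680)) (.cons (.br (nat_lit 13) (nat_lit 1) (.cons (.rf (nat_lit 2431) (nat_lit 493858305440582043680)) (.cons (.rf (nat_lit 2435) (nat_lit 493858305440582043680)) (.cons (.rf (nat_lit 2437) (nat_lit 493858305440582043680)) .nil)))) .nil))))),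
 (.br (nat_lit 11) (nat_lit 1) (.cons (.kr (nat_lit 20361637766165934761540795302144) (nat_lit 309489750706629606117474304) (nat_lit 1) (nat_lit 0)) .nil)),
 (.br (nat_lit 7) (nat_lit 1) (.cons (.rf (nat_lit 31) (nat_lit 377522471)) (.cons (.rf (nat_lit 1339) (nat_lit 288076568641)) (.cons (.br (nat_lit 9) (nat_lit 1) (.cons (.rf (nat_lit 84) (nat_lit 13164946471)) (.cons (.br (nat_lit 11) (nat_lit 1) (.cons (.rf (nat_lit 84) (nat_lit 8971658466)) (.cons (.zr (nat_lit 14222439680830131404800) (nat_lit 620178945606702533483429889) (nat_lit 5) (nat_lit 4)) .nil))) (.cons (.br (nat_lit 12) (nat_lit 1) (.cons (.zr (nat_lit 313116509718729419982700544) (nat_lit 73787541452404817922) (nat_lit 10) (nat_lit 10)) (.cons (.rf (nat_lit 2439) (nat_lit 493858305440582043680)) .nil))) .nil)))) (.cons (.br (nat_lit 9) (nat_lit 1) (.cons (.rf (nat_lit 84) (nat_lit 14238688295)) (.cons (.br (nat_lit 12) (nat_lit 1) (.cons (.zr (nat_lit 14222439680830131404800) (nat_lit 620178945606702533483429889) (nat_lit 5) (nat_lit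 4)) (.cons (.kr (nat_lit 20282409603651670425046762914048) (nat_lit 4740813226943371542528) (nat_lit 1) (nat_lit 0)) .nil))) (.cons (.ev (nat_lit 40564820425674109602153183249155) (nat_lit 2)) .nil)))) .nil))))),
 (.br (nat_lit 9) (nat_lit 1) (.cons (.rf (nat_lit 84) (nat_lit 13164946657)) (.cons (.br (nat_lit 11) (nat_lit 1) (.cons (.ev (nat_lit 313125973043119570001396225) (nat_lit 2)) (.cons (.kr (nat_lit 309485009821346168236409088) (nat_lit 4740813226943371542528) (nat_lit 1) (nat_lit 0)) .nil))) (.cons (.br (nat_lit 11) (nat_lit 1) (.cons (.ev (nat_lit 316771677078119915137925890) (nat_lit 3)) (.cons (.ev (nat_lit 313125973043119570001396225) (nat_lit 2)) .nil))) .nil)))),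
 (.br (nat_lit 11) (nat_lit 1) (.cons (.ev (nat_lit 79850764052252003892260372739) (nat_lit 2)) (.cons (.br (nat_lit 12) (nat_lit 1) (.cons (.ev (nat_lit 81087495276613844912015081988) (nat_lit 3)) .nil)) .nil))),
 (.br (nat_lit 8) (nat_lit 1) (.cons (.rf (nat_lit 2424) (nat_lit 493858305440582043680)) (.cons (.ev (nat_lit 72058697844523009) (nat_lit 1)) (.cons (.rf (nat_lit 2428) (nat_lit 493858305440582043680)) (.cons (.br (nat_lit 13) (nat_lit 1) (.cons (.rf (nat_lit 2431) (nat_lit 493858305440582043680)) (.cons (.rf (nat_lit 2435) (nat_lit 493858305440582043680)) (.cons (.rf (nat_lit 2437) (nat_lit 493858305440582043680)) (.cons (.rf (nat_lit 2438) (nat_lit 493858305440582043680)) (.cons (.br (nat_lit 13) (nat_lit 1) (.cons (.rf (nat_lit 2431) (nat_lit 493858305440582043680)) (.cons (.rf (nat_lit 2435) (nat_lit 493858305440582043680)) (.cons (.rf (nat_lit 2437) (nat_lit 493858305440582043680)) (.cons (.rf (nat_lit 2438) (nat_lit 493858305440582043680)) .nil))))) .nil)))))) (.cons (.br (nat_lit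 1) (nat_lit 1) (.cons (.rf (nat_lit 1593) (nat_lit 458565625057)) (.cons (.rf (nat_lit 1593) (nat_lit 458565623073)) (.cons (.rf (nat_lit 2440) (nat_lit 493858305440582043680)) (.cons (.br (nat_lit 7) (nat_lit 1) (.cons (.rf (nat_lit 1593) (nat_lit 458565616935)) (.cons (.rf (nat_lit 2441) (nat_lit 493858305440582043680)) (.cons (.br (nat_lit 9) (nat_lit 1) (.cons (.rf (nat_lit 2442) (nat_lit 493858305440582043680)) (.cons (.zr (nat_lit 14185546193782190374913) (nat_lit 158457533954348571295534415872) (nat_lit 5) (nat_lit 4)) (.cons (.rf (nat_lit 2442) (nat_lit 420143386739781765152)) .nil)))) (.cons (.rf (nat_lit 2441) (nat_lit 420143386739781765152)) .nil))))) (.cons (.rf (nat_lit 2440) (nat_lit 420143386739781765152)) .nil)))))) .nil)))))),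
 (.br (nat_lit 8) (nat_lit 1) (.cons (.rf (nat_lit 2424) (nat_lit 493858305440582043680)) (.cons (.ev (nat_lit 72058697844523009) (nat_lit 1)) (.cons (.rf (nat_lit 2428) (nat_lit 493858305440582043680)) (.cons (.rf (nat_lit 2443) (nat_lit 493858305440582043680)) (.cons (.br (nat_lit 8) (nat_lit 1) (.cons (.rf (nat_lit 2424) (nat_lit 493858305440582043680)) (.cons (.ev (nat_lit 72058697844523009) (nat_lit 1)) (.cons (.rf (nat_lit 2428) (nat_lit 493858305440582043680)) (.cons (.rf (nat_lit 2443) (nat_lit 493858305440582043680)) (.cons (.rf (nat_lit 2443) (nat_lit 420143386739781765152)) .nil)))))) (.cons (.rf (nat_lit 2443) (nat_lit 420143386739781765152)) .nil))))))),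
 (.br (nat_lit 2) (nat_lit 1) (.cons (.ev (nat_lit 1208925819614633469739264) (nat_lit 1)) (.cons (.br (nat_lit 13) (nat_lit 1) (.cons (.br (nat_lit 12) (nat_lit 1) (.cons (.ev (nat_lit 79538856468424100063014289665) (nat_lit 1)) .nil)) (.cons (.br (nat_lit 11) (nat_lit 1) (.cons (.ev (nat_lit 79538856468424100063014289665) (nat_lit 1)) .nil)) .nil))) (.cons (.br (nat_lit 11) (nat_lit 1) (.cons (.rf (nat_lit 1564) (nat_lit 458114396110622663712)) (.cons (.zr (nat_lit 55340232225491058688) (nat_lit 40564820425673894273787409465857) (nat_lit 5) (nat_lit 0)) .nil))) .nil)))),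
 (.br (nat_lit 11) (nat_lit 1) (.cons (.ev (nat_lit 1208925819614633469739264) (nat_lit 1)) (.cons (.rf (nat_lit 2445) (nat_lit 493858305440582043680)) (.cons (.br (nat_lit 7) (nat_lit 1) (.cons (.rf (nat_lit 1959) (nat_lit 14316145247166503968)) (.cons (.kr (nat_lit 18447025548703039488) (nat_lit 79228162514336395191876845568) (nat_lit 3) (nat_lit 0)) (.cons (.rf (nat_lit 1960) (nat_lit 14316145247166503968)) .nil)))) .nil)))),
 (.br (nat_lit 11) (nat_lit 1) (.cons (.ev (nat_lit 1208925819614633469739264) (nat_lit 1)) (.cons (.rf (nat_lit 2445) (nat_lit 493858305440582043680)) (.cons (.rf (nat_lit 2446) (nat_lit 493858305440582043680)) (.cons (.br (nat_lit 11) (nat_lit 1) (.cons (.ev (nat_lit 1208925819614633469739264) (nat_lit 1)) (.cons (.rf (nat_lit 2445) (nat_lit 493858305440582043680)) (.cons (.rf (nat_lit 2446) (nat_lit 493858305440582043680)) .nil)))) .nil))))),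
 (.br (nat_lit 12) (nat_lit 1) (.cons (.ev (nat_lit 79537652264899191080600207616) (nat_lit 1)) .nil)),
 (.br (nat_lit 10) (nat_lit 1) (.cons (.ev (nat_lit 79228162514264620168032354304) (nat_lit 1)) .nil)),
 (.br (nat_lit 1) (nat_lit 1) (.cons (.zr (nat_lit 18590860361297101312) (nat_lit 1208925819896108479938561) (nat_lit 5) (nat_lit 0)) (.cons (.ev (nat_lit 1208925819614633469739264) (nat_lit 1)) (.cons (.br (nat_lit 7) (nat_lit 1) (.cons (.br (nat_lit 13) (nat_lit 1) (.cons (.rf (nat_lit 2448) (nat_lit 493858305440582043680)) (.cons (.rf (nat_lit 2449) (nat_lit 15433072045018155040)) .nil))) (.cons (.rf (nat_lit 84) (nat_lit 14239964194)) (.cons (.br (nat_lit 12) (nat_lit 1) (.cons (.br (nat_lit 11) (nat_lit 1) (.cons (.zr (nat_lit 55340232221162405888) (nat_lit 620178945462587345407574017) (nat_lit 5) (nat_lit 0)) .nil)) (.cons (.ev (nat_lit 20282410817318375605688323866880) (nat_lit 1)) .nil))) .nil)))) (.cons (.rf (nat_lit 2447) (nat_lit 493858305440582043680)) .nil))))),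
 (.br (nat_lit 13) (nat_lit 1) (.cons (.rf (nat_lit 1960) (nat_lit 14316145247166503968)) (.cons (.rf (nat_lit 2450) (nat_lit 493858305440582043680)) (.cons (.br (nat_lit 1) (nat_lit 1) (.cons (.br (nat_lit 11) (nat_lit 1) (.cons (.ev (nat_lit 310693935641242272387825921) (nat_lit 1)) .nil)) (.cons (.ev (nat_lit 309489732259885536719667456) (nat_lit 1)) (.cons (.br (nat_lit 2) (nat_lit 1) (.cons (.ev (nat_lit 310693935641242272387825921) (nat_lit 1)) .nil)) .nil)))) .nil)))),
 (.br (nat_lit 13) (nat_lit 1) (.cons (.rf (nat_lit 2447) (nat_lit 493858305440582043680)) (.cons (.rf (nat_lit 2450) (nat_lit 493858305440582043680)) (.cons (.rf (nat_lit 2451) (nat_lit 493858305440582043680)) (.cons (.br (nat_lit 13) (nat_lit 1) (.cons (.rf (nat_lit 2447) (nat_lit 493858305440582043680)) (.cons (.rf (nat_lit 2450) (nat_lit 493858305440582043680)) (.cons (.rf (nat_lit 2451) (nat_lit 493858305440582043680)) .nil)))) .nil))))),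
 (.br (nat_lit 13) (nat_lit 1) (.cons (.rf (nat_lit 2447) (nat_lit 493858305440582043680)) (.cons (.rf (nat_lit 2450) (nat_lit 493858305440582043680)) (.cons (.rf (nat_lit 2452) (nat_lit 493858305440582043680)) (.cons (.br (nat_lit 13) (nat_lit 1) (.cons (.rf (nat_lit 2447) (nat_lit 493858305440582043680)) (.cons (.rf (nat_lit 2450) (nat_lit 493858305440582043680)) (.cons (.rf (nat_lit 2452) (nat_lit 493858305440582043680)) .nil)))) .nil))))),
 (.br (nat_lit 2) (nat_lit 1) (.cons (.rf (nat_lit 31) (nat_lit 377529570)) (.cons (.rf (nat_lit 1339) (nat_lit 288009296161)) (.cons (.br (nat_lit 7) (nat_lit 1) (.cons (.ev (nat_lit 310693954159762469453561856) (nat_lit 1)) (.cons (.br (nat_lit 11) (nat_lit 1) (.cons (.ev (nat_lit 309489732259885536719667456) (nat_lit 1)) (.cons (.br (nat_lit 12) (nat_lit 1) (.cons (.zr (nat_lit 237684501709892461389584270080) (nat_lit 620178945606702533483429889) (nat_lit 5) (nat_lit 4)) .nil)) .nil))) (.cons (.br (nat_lit 11) (nat_lit 1) (.cons (.br (nat_lit 12) (nat_lit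 1) (.cons (.zr (nat_lit 55340233320674033664) (nat_lit 158457543399081537034824712193) (nat_lit 5) (nat_lit 0)) .nil)) (.cons (.ev (nat_lit 309489732259885536719667456) (nat_lit 1)) .nil))) .nil)))) (.cons (.ev (nat_lit 1208925819614633469739264) (nat_lit 1)) .nil))))),
 (.br (nat_lit 11) (nat_lit 1) (.cons (.rf (nat_lit 84) (nat_lit 13165173825)) (.cons (.br (nat_lit 12) (nat_lit 1) (.cons (.rf (nat_lit 84) (nat_lit 8971689001)) (.cons (.ev (nat_lit 158765810075244356139581899265) (nat_lit 2)) .nil))) (.cons (.ev (nat_lit 310693935641242272387825921) (nat_lit 1)) .nil)))),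
 (.br (nat_lit 11) (nat_lit 1) (.cons (.ev (nat_lit 79228162514336396291405250816) (nat_lit 1)) (.cons (.br (nat_lit 12) (nat_lit 1) (.cons (.zr (nat_lit 237684501710108634171698053120) (nat_lit 620178945462587345407574529) (nat_lit 5) (nat_lit 6)) .nil)) .nil))),
 (.br (nat_lit 8) (nat_lit 1) (.cons (.rf (nat_lit 2424) (nat_lit 493858305440582043680)) (.cons (.rf (nat_lit 2444) (nat_lit 493858305440582043680)) (.cons (.ev (nat_lit 72058697844523009) (nat_lit 1)) (.cons (.br (nat_lit 13) (nat_lit 1) (.cons (.rf (nat_lit 2447) (nat_lit 493858305440582043680)) (.cons (.rf (nat_lit 2450) (nat_lit 493858305440582043680)) (.cons (.rf (nat_lit 2452) (nat_lit 493858305440582043680)) (.cons (.rf (nat_lit 2453) (nat_lit 493858305440582043680)) (.cons (.br (nat_lit 13) (nat_lit 1) (.cons (.rf (nat_lit 2447) (nat_lit 493858305440582043680)) (.cons (.rf (nat_lit 2450) (nat_lit 493858305440582043680)) (.cons (.rf (nat_lit 2452) (nat_lit 493858305440582043680)) (.cons (.rf (nat_lit 2453) (nat_lit 493858305440582043680))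 .nil))))) .nil)))))) (.cons (.br (nat_lit 1) (nat_lit 1) (.cons (.rf (nat_lit 1593) (nat_lit 458800503873)) (.cons (.rf (nat_lit 1593) (nat_lit 458800498913)) (.cons (.rf (nat_lit 2454) (nat_lit 493858305440582043680)) (.cons (.br (nat_lit 2) (nat_lit 1) (.cons (.rf (nat_lit 1593) (nat_lit 458800497890)) (.cons (.rf (nat_lit 2455) (nat_lit 493858305440582043680)) (.cons (.br (nat_lit 7) (nat_lit 1) (.cons (.rf (nat_lit 2456) (nat_lit 493858305440582043680)) (.cons (.ev (nat_lit 79229376180969236764406317056) (nat_lit 1)) (.cons (.rf (nat_lit 2456) (nat_lit 420143386739781765152)) .nil)))) (.cons (.rf (nat_lit 2455) (nat_lit 420143386739781765152)) .nil))))) (.cons (.rf (nat_lit 2454) (nat_lit 420143386739781765152)) .nil)))))) .nil)))))),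
 (.br (nat_lit 8) (nat_lit 1) (.cons (.rf (nat_lit 2424) (nat_lit 493858305440582043680)) (.cons (.rf (nat_lit 2444) (nat_lit 493858305440582043680)) (.cons (.ev (nat_lit 72058697844523009) (nat_lit 1)) (.cons (.rf (nat_lit 2457) (nat_lit 493858305440582043680)) (.cons (.br (nat_lit 8) (nat_lit 1) (.cons (.rf (nat_lit 2424) (nat_lit 493858305440582043680)) (.cons (.rf (nat_lit 2444) (nat_lit 493858305440582043680)) (.cons (.ev (nat_lit 72058697844523009) (nat_lit 1)) (.cons (.rf (nat_lit 2457) (nat_lit 493858305440582043680)) (.cons (.rf (nat_lit 2457) (nat_lit 420143386739781765152)) .nil)))))) (.cons (.rf (nat_lit 2457) (nat_lit 420143386739781765152)) .nil))))))),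
 (.br (nat_lit 9) (nat_lit 1) (.cons (.rf (nat_lit 29) (nat_lit 11831521)) (.cons (.br (nat_lit 13) (nat_lit 1) (.cons (.zr (nat_lit 928469196779656597223768064) (nat_lit 1208962713385355393892353) (nat_lit 5) (nat_lit 10)) (.cons (.zr (nat_lit 79228162514408453881165053952) (nat_lit 1208925819896108446384641) (nat_lit 5) (nat_lit 6)) .nil))) (.cons (.br (nat_lit 12) (nat_lit 1) (.cons (.zr (nat_lit 928469196779656597223768064) (nat_lit 1208962713385355393892353) (nat_lit 5) (nat_lit 10)) (.cons (.zr (nat_lit 60847228810955011271841787609088) (nat_lit 1208962713385355377115137) (nat_lit 5) (nat_lit 10)) .nil))) .nil)))),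
 (.br (nat_lit 13) (nat_lit 1) (.cons (.zr (nat_lit 928455029464035206208094208) (nat_lit 1208962713385355377115137) (nat_lit 5) (nat_lit 10)) (.cons (.zr (nat_lit 79228167236630821562717569792) (nat_lit 1208925964011296522240001) (nat_lit 5) (nat_lit 4)) .nil))),
 (.br (nat_lit 9) (nat_lit 1) (.cons (.rf (nat_lit 29) (nat_lit 11830498)) (.cons (.br (nat_lit 11) (nat_lit 1) (.cons (.zr (nat_lit 928455048126952070621364224) (nat_lit 1208925820741628593177348) (nat_lit 5) (nat_lit 10)) (.cons (.zr (nat_lit 928469196779656597223768064) (nat_lit 1208962713385355393892353) (nat_lit 5) (nat_lit 10)) .nil))) (.cons (.kr (nat_lit 4722366764344621924609) (nat_lit 18446744078021361664) (nat_lit 0) (nat_lit 5)) .nil))))]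

theorem c80 : chkAll C T R L80 (nat_lit 2435) = true := by decide +kernel

theorem l80 : (nat_lit 2435) + L80.length = (nat_lit 2462) := by decide +kernel

/-- part of the certificates -/
def L81 : List Prf := [(.br (nat_lit 11) (nat_lit 1) (.cons (.ev (nat_lit 310698676526526809797361920) (nat_lit 1)) (.cons (.ev (nat_lit 310693935713018395744010241) (nat_lit 1)) .nil))),
 (.br (nat_lit 2) (nat_lit 1) (.cons (.br (nat_lit 12) (nat_lit 1) (.cons (.zr (nat_lit 238612956739572669377855619840) (nat_lit 1209018053617576572878849) (nat_lit 5) (nat_lit 10)) .nil)) (.cons (.br (nat_lit 11) (nat_lit 1) (.cons (.zr (nat_lit 237684501710108634171698053120) (nat_lit 620178945462587345407574529) (nat_lit 5) (nat_lit 6)) .nil)) (.cons (.ev (nat_lit 20282410812577562097274270515201) (nat_lit 1)) .nil)))),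
 (.br (nat_lit 1) (nat_lit 1) (.cons (.br (nat_lit 9) (nat_lit 1) (.cons (.rf (nat_lit 29) (nat_lit 11836481)) (.cons (.rf (nat_lit 1785) (nat_lit 458116647910369303584)) (.cons (.br (nat_lit 11) (nat_lit 1) (.cons (.br (nat_lit 12) (nat_lit 1) (.cons (.ev (nat_lit 158768232667696528654451344130) (nat_lit 2)) .nil)) (.cons (.rf (nat_lit 31) (nat_lit 448044097)) .nil))) .nil)))) (.cons (.br (nat_lit 2) (nat_lit 1) (.cons (.rf (nat_lit 29) (nat_lit 11766049)) (.cons (.br (nat_lit 11) (nat_lit 1) (.cons (.ev (nat_lit 79538856468352323939658104833) (nat_lit 1)) (.cons (.br (nat_lit 12) (nat_lit 1) (.cons (.ev (nat_lit 79538856468424100063014289665) (nat_lit 1)) .nil)) .nil))) (.cons (.br (nat_lit 13) (nat_lit 1) (.cons (.zr (nat_lit 60847228810955011834796002247424) (nat_lit 1218407446069615412641793) (nat_lit 5) (nat_lit 3)) (.cons (.zr (nat_lit 60847228825122326893232803282944) (nat_lit 1208962713385355393892353) (nat_lit 5) (nat_lit 10)) .nil))) .nil)))) (.cons (.ev (nat_lit 310693954087986346097377536)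 (nat_lit 1)) (.cons (.br (nat_lit 13) (nat_lit 1) (.cons (.br (nat_lit 13) (nat_lit 1) (.cons (.ev (nat_lit 20282410812577562097274270515201) (nat_lit 1)) (.cons (.ev (nat_lit 20282410812577490321150914330881) (nat_lit 1)) (.cons (.ev (nat_lit 20440868346568732099118891074051) (nat_lit 2)) .nil)))) (.cons (.rf (nat_lit 2463) (nat_lit 493858305440582043680)) (.cons (.br (nat_lit 13) (nat_lit 1) (.cons (.ev (nat_lit 20282410812577490321150914330881) (nat_lit 1)) (.cons (.rf (nat_lit 2463) (nat_lit 493858305440582043680)) (.cons (.zr (nat_lit 309485046714835415217471744) (nat_lit 158457533954492686483610140673) (nat_lit 5) (nat_lit 4)) .nil)))) (.cons (.br (nat_lit 9) (nat_lit 1) (.cons (.zr (nat_lit 237684492265375669531902476288) (nat_lit 1208962713384255882264577) (nat_lit 5) (nat_lit 6)) (.cons (.ev (nat_lit 79540070116755157183413355265) (nat_lit 2)) (.cons (.rf (nat_lit 2463) (nat_lit 493858305440582043680)) .nil)))) .nil))))) (.cons (.br (nat_lit 2) (nat_lit 1) (.cons (.br (nat_lit 12) (nat_lit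 1) (.cons (.kr (nat_lit 309485009821346168236409088) (nat_lit 4740813226943371542528) (nat_lit 1) (nat_lit 0)) (.cons (.zr (nat_lit 60847228825122326893232803282944) (nat_lit 1208962713385355393892353) (nat_lit 5) (nat_lit 10)) .nil))) (.cons (.ev (nat_lit 1208925819614633469739264) (nat_lit 1)) (.cons (.br (nat_lit 9) (nat_lit 1) (.cons (.br (nat_lit 12) (nat_lit 1) (.cons (.ev (nat_lit 79538856468424100063014289665) (nat_lit 1)) .nil)) (.cons (.br (nat_lit 11) (nat_lit 1) (.cons (.ev (nat_lit 79538856468424100063014289665) (nat_lit 1)) .nil)) (.cons (.ev (nat_lit 20282410817299928861614614315265) (nat_lit 1)) .nil)))) (.cons (.br (nat_lit 9) (nat_lit 1) (.cons (.ev (nat_lit 20282720297605830466787875028993) (nat_lit 1)) (.cons (.zr (nat_lit 60847228825122326893232803282944) (nat_lit 1208962713385355393892353) (nat_lit 5) (nat_lit 10)) .nil))) .nil))))) .nil)))))),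
 (.br (nat_lit 11) (nat_lit 1) (.cons (.ev (nat_lit 79538856468424100063014289665) (nat_lit 1)) (.cons (.br (nat_lit 12) (nat_lit 1) (.cons (.ev (nat_lit 79538861190790864403324534785) (nat_lit 1)) .nil)) .nil))),
 (.br (nat_lit 2) (nat_lit 1) (.cons (.zr (nat_lit 928469196779656597223768064) (nat_lit 1208962713385355393892353) (nat_lit 5) (nat_lit 10)) (.cons (.br (nat_lit 11) (nat_lit 1) (.cons (.zr (nat_lit 237684501709892461389584270080) (nat_lit 620178945606702533483429889) (nat_lit 5) (nat_lit 4)) .nil)) (.cons (.ev (nat_lit 1208925819614633469739264) (nat_lit 1)) .nil)))),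
 (.br (nat_lit 13) (nat_lit 1) (.cons (.ev (nat_lit 1208925819614633469739264) (nat_lit 1)) (.cons (.rf (nat_lit 2466) (nat_lit 493858305440582043680)) (.cons (.br (nat_lit 13) (nat_lit 1) (.cons (.ev (nat_lit 1208925819614633469739264) (nat_lit 1)) (.cons (.rf (nat_lit 2466) (nat_lit 493858305440582043680)) (.cons (.kr (nat_lit 79228162514264337593543950592) (nat_lit 18446744073726328832) (nat_lit 1) (nat_lit 0)) .nil)))) (.cons (.kr (nat_lit 79228162514264337593543950592) (nat_lit 18446744073726328832) (nat_lit 1) (nat_lit 0)) .nil))))),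
 (.br (nat_lit 11) (nat_lit 1) (.cons (.rf (nat_lit 82) (nat_lit 9004360769)) (.cons (.ev (nat_lit 310693935641242272387825921) (nat_lit 1)) .nil))),
 (.br (nat_lit 8) (nat_lit 1) (.cons (.rf (nat_lit 2424) (nat_lit 493858305440582043680)) (.cons (.rf (nat_lit 2444) (nat_lit 493858305440582043680)) (.cons (.ev (nat_lit 72058697844523009) (nat_lit 1)) (.cons (.rf (nat_lit 2458) (nat_lit 493858305440582043680)) (.cons (.br (nat_lit 7) (nat_lit 1) (.cons (.br (nat_lit 2) (nat_lit 1) (.cons (.zr (nat_lit 18590860361297101312) (nat_lit 1208925819896108479938561) (nat_lit 5) (nat_lit 0)) (.cons (.rf (nat_lit 2459) (nat_lit 493858305440582043680)) (.cons (.br (nat_lit 9) (nat_lit 1) (.cons (.rf (nat_lit 2460) (nat_lit 493858305440582043680)) (.cons (.rf (nat_lit 29) (nat_lit 12880097)) (.cons (.rf (nat_lit 2460) (nat_lit 420143386739781765152)) .nil)))) (.cons (.rf (nat_lit 2459) (nat_lit 420143386739781765152)) .nil))))) (.cons (.br (nat_lit 1) (nat_lit 1) (.cons (.rf (nat_lit 246) (nat_lit 457791736097))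 (.cons (.rf (nat_lit 2461) (nat_lit 493858305440582043680)) (.cons (.br (nat_lit 9) (nat_lit 1) (.cons (.rf (nat_lit 2462) (nat_lit 493858305440582043680)) (.cons (.rf (nat_lit 29) (nat_lit 12879074)) (.cons (.rf (nat_lit 2462) (nat_lit 420143386739781765152)) .nil)))) (.cons (.rf (nat_lit 2461) (nat_lit 420143386739781765152)) .nil))))) (.cons (.ev (nat_lit 1213666633123047522959361) (nat_lit 1)) (.cons (.rf (nat_lit 2464) (nat_lit 493858305440582043680)) (.cons (.br (nat_lit 1) (nat_lit 1) (.cons (.br (nat_lit 9) (nat_lit 1) (.cons (.rf (nat_lit 2465) (nat_lit 493858305440582043680)) (.cons (.rf (nat_lit 29) (nat_lit 12885057)) (.cons (.rf (nat_lit 2465) (nat_lit 420143386739781765152)) .nil)))) (.cons (.kr (nat_lit 281474976710912) (nat_lit 72057598332895232) (nat_lit 1) (nat_lit 0)) (.cons (.rf (nat_lit 2467) (nat_lit 493858305440582043680)) (.cons (.br (nat_lit 2) (nat_lit 1) (.cons (.ev (nat_lit 79229376180897460641050132736) (nat_lit 1)) (.cons (.rf (nat_lit 2468) (nat_lit 493858305440582043680))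 (.cons (.rf (nat_lit 2468) (nat_lit 420143386739781765152)) .nil)))) (.cons (.rf (nat_lit 2467) (nat_lit 420143386739781765152)) .nil)))))) (.cons (.rf (nat_lit 2464) (nat_lit 420143386739781765152)) .nil))))))) .nil)))))),
 (.br (nat_lit 8) (nat_lit 1) (.cons (.rf (nat_lit 2424) (nat_lit 493858305440582043680)) (.cons (.rf (nat_lit 2444) (nat_lit 493858305440582043680)) (.cons (.ev (nat_lit 72058697844523009) (nat_lit 1)) (.cons (.rf (nat_lit 2458) (nat_lit 493858305440582043680)) (.cons (.rf (nat_lit 2469) (nat_lit 493858305440582043680)) (.cons (.br (nat_lit 8) (nat_lit 1) (.cons (.rf (nat_lit 2424) (nat_lit 493858305440582043680)) (.cons (.rf (nat_lit 2444) (nat_lit 493858305440582043680)) (.cons (.ev (nat_lit 72058697844523009) (nat_lit 1)) (.cons (.rf (nat_lit 2458) (nat_lit 493858305440582043680)) (.cons (.rf (nat_lit 2469) (nat_lit 493858305440582043680)) .nil)))))) .nil))))))),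
 (.br (nat_lit 10) (nat_lit 1) (.cons (.br (nat_lit 6) (nat_lit 1) (.cons (.br (nat_lit 10) (nat_lit 1) (.cons (.br (nat_lit 8) (nat_lit 1) (.cons (.rf (nat_lit 2424) (nat_lit 493858305440582043680)) (.cons (.rf (nat_lit 2444) (nat_lit 493858305440582043680)) (.cons (.ev (nat_lit 72058697844523009) (nat_lit 1)) (.cons (.rf (nat_lit 2458) (nat_lit 493858305440582043680)) (.cons (.rf (nat_lit 2470) (nat_lit 493858305440582043680)) (.cons (.br (nat_lit 8) (nat_lit 1) (.cons (.rf (nat_lit 2424) (nat_lit 493858305440582043680)) (.cons (.rf (nat_lit 2444) (nat_lit 493858305440582043680)) (.cons (.ev (nat_lit 72058697844523009) (nat_lit 1)) (.cons (.rf (nat_lit 2458) (nat_lit 493858305440582043680)) (.cons (.rf (nat_lit 2470) (nat_lit 493858305440582043680)) (.cons (.rf (nat_lit 2470) (nat_lit 420143386739781765152)) .nil))))))) (.cons (.rf (nat_lit 2470) (nat_lit 420143386739781765152)) .nil)))))))) .nil)) .nil)) .nil)),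
 (.br (nat_lit 13) (nat_lit 1) (.cons (.ev (nat_lit 20282409608374036907920703160576) (nat_lit 1)) (.cons (.br (nat_lit 9) (nat_lit 1) (.cons (.kr (nat_lit 20282409603651670425046762913792) (nat_lit 1213648186097498819919872) (nat_lit 5) (nat_lit 0)) (.cons (.ev (nat_lit 20282410817299856802921047916801) (nat_lit 1)) (.cons (.ev (nat_lit 20282410817299928579044404101121) (nat_lit 1)) .nil)))) .nil))),
 (.br (nat_lit 13) (nat_lit 1) (.cons (.br (nat_lit 13) (nat_lit 1) (.cons (.ev (nat_lit 20282409608374036907920703160576) (nat_lit 1)) (.cons (.ev (nat_lit 20282409608374109246985422831616) (nat_lit 1)) .nil))) (.cons (.rf (nat_lit 2472) (nat_lit 493858305440582043680)) (.cons (.rf (nat_lit 2472) (nat_lit 492741412524690344160)) .nil)))),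
 (.br (nat_lit 8) (nat_lit 1) (.cons (.br (nat_lit 11) (nat_lit 1) (.cons (.ev (nat_lit 79540074839121638953546941185) (nat_lit 2)) (.cons (.br (nat_lit 12) (nat_lit 1) (.cons (.zr (nat_lit 237684487542793014979671884544) (nat_lit 620178945606701433971802113) (nat_lit 5) (nat_lit 4)) .nil)) .nil))) (.cons (.rf (nat_lit 2473) (nat_lit 493858305440582043680)) .nil))),
 (.br (nat_lit 8) (nat_lit 1) (.cons (.rf (nat_lit 2474) (nat_lit 493858305440582043680)) (.cons (.rf (nat_lit 2474) (nat_lit 492741412524690344160)) (.cons (.rf (nat_lit 2473) (nat_lit 493858305440582043680)) .nil)))),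
 (.br (nat_lit 13) (nat_lit 1) (.cons (.rf (nat_lit 2473) (nat_lit 493858305440582043680)) (.cons (.rf (nat_lit 2475) (nat_lit 493858305440582043680)) (.cons (.br (nat_lit 13) (nat_lit 1) (.cons (.rf (nat_lit 2473) (nat_lit 493858305440582043680)) (.cons (.rf (nat_lit 2475) (nat_lit 493858305440582043680)) .nil))) .nil)))),
 (.br (nat_lit 13) (nat_lit 1) (.cons (.rf (nat_lit 2473) (nat_lit 493858305440582043680)) (.cons (.rf (nat_lit 2475) (nat_lit 493858305440582043680)) (.cons (.rf (nat_lit 2476) (nat_lit 493858305440582043680)) (.cons (.rf (nat_lit 2476) (nat_lit 492741412524690344160)) .nil))))),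
 (.br (nat_lit 7) (nat_lit 1) (.cons (.ev (nat_lit 72058697844523009) (nat_lit 1)) (.cons (.rf (nat_lit 1627) (nat_lit 470979746768096)) (.cons (.kr (nat_lit 281474976710912) (nat_lit 72057598332895232) (nat_lit 1) (nat_lit 0)) (.cons (.rf (nat_lit 2477) (nat_lit 493858305440582043680)) (.cons (.rf (nat_lit 2477) (nat_lit 458117738797769787424)) .nil)))))),
 (.br (nat_lit 1) (nat_lit 1) (.cons (.rf (nat_lit 1982) (nat_lit 10604079103482912)) (.cons (.ev (nat_lit 282574488338689) (nat_lit 1)) (.cons (.rf (nat_lit 1627) (nat_lit 470979746964512)) (.cons (.rf (nat_lit 2478) (nat_lit 493858305440582043680)) (.cons (.rf (nat_lit 2478) (nat_lit 492741412732994160672)) (.cons (.rf (nat_lit 2478) (nat_lit 455883953382594021408)) .nil))))))),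
 (.br (nat_lit 7) (nat_lit 1) (.cons (.ev (nat_lit 72058697844523009) (nat_lit 1)) (.cons (.rf (nat_lit 84) (nat_lit 13165173825)) (.cons (.kr (nat_lit 281474976710912) (nat_lit 72057598332895232) (nat_lit 1) (nat_lit 0)) (.cons (.br (nat_lit 11) (nat_lit 1) (.cons (.ev (nat_lit 310693935713018395744010241) (nat_lit 1)) (.cons (.ev (nat_lit 310693935641242272387825921) (nat_lit 1)) .nil))) .nil))))),
 (.br (nat_lit 1) (nat_lit 1) (.cons (.zr (nat_lit 4722366483969173619456) (nat_lit 144396667347533825) (nat_lit 5) (nat_lit 4)) (.cons (.ev (nat_lit 282574488338689) (nat_lit 1)) (.cons (.br (nat_lit 7) (nat_lit 1) (.cons (.ev (nat_lit 72058697844523009) (nat_lit 1)) (.cons (.rf (nat_lit 84) (nat_lit 13165168679)) (.cons (.rf (nat_lit 84) (nat_lit 14238910503)) .nil)))) (.cons (.rf (nat_lit 2480) (nat_lit 493858305440582043680)) (.cons (.rf (nat_lit 2480) (nat_lit 458117738797769787424)) .nil)))))),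
 (.br (nat_lit 2) (nat_lit 1) (.cons (.ev (nat_lit 4722366764344621924609) (nat_lit 1)) (.cons (.ev (nat_lit 4722438540467978108929) (nat_lit 1)) (.cons (.rf (nat_lit 2481) (nat_lit 493858305440582043680)) (.cons (.rf (nat_lit 2481) (nat_lit 492741412732994160672)) (.cons (.zr (nat_lit 55340233320674033664) (nat_lit 3636222192091106086223873) (nat_lit 5) (nat_lit 0)) .nil)))))),
 (.br (nat_lit 8) (nat_lit 1) (.cons (.ev (nat_lit 282574488338689) (nat_lit 1)) (.cons (.rf (nat_lit 2479) (nat_lit 493858305440582043680)) (.cons (.ev (nat_lit 72058697844523009) (nat_lit 1)) (.cons (.rf (nat_lit 2482) (nat_lit 493858305440582043680)) (.cons (.rf (nat_lit 2482) (nat_lit 458117738797769787424)) .nil)))))),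
 (.br (nat_lit 8) (nat_lit 1) (.cons (.ev (nat_lit 282574488338689) (nat_lit 1)) (.cons (.rf (nat_lit 2479) (nat_lit 493858305440582043680)) (.cons (.ev (nat_lit 72058697844523009) (nat_lit 1)) (.cons (.rf (nat_lit 2483) (nat_lit 493858305440582043680)) (.cons (.rf (nat_lit 2483) (nat_lit 492741412732994160672)) (.cons (.rf (nat_lit 2483) (nat_lit 455883953382594021408)) .nil))))))),
 (.br (nat_lit 11) (nat_lit 1) (.cons (.ev (nat_lit 79538856468352041369448022273) (nat_lit 1)) (.cons (.br (nat_lit 12) (nat_lit 1) (.cons (.ev (nat_lit 20282410812577490321150914330881) (nat_lit 1)) .nil)) .nil))),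
 (.br (nat_lit 9) (nat_lit 1) (.cons (.zr (nat_lit 928455047911342229871067904) (nat_lit 1208926035788527979986948) (nat_lit 5) (nat_lit 10)) (.cons (.rf (nat_lit 2485) (nat_lit 493858305440582043680)) (.cons (.rf (nat_lit 2485) (nat_lit 458117738797769787424)) .nil)))),
 (.br (nat_lit 7) (nat_lit 1) (.cons (.ev (nat_lit 1213666705181741055803393) (nat_lit 1)) (.cons (.rf (nat_lit 2486) (nat_lit 493858305440582043680)) (.cons (.rf (nat_lit 2486) (nat_lit 492741412732994160672)) (.cons (.rf (nat_lit 2486) (nat_lit 455883953382594021408)) .nil))))),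
 (.br (nat_lit 11) (nat_lit 1) (.cons (.rf (nat_lit 31) (nat_lit 414419233)) (.cons (.ev (nat_lit 310693935713018395744010241) (nat_lit 1)) .nil))),
 (.br (nat_lit 7) (nat_lit 1) (.cons (.ev (nat_lit 310698676526244239587147776) (nat_lit 1)) (.cons (.rf (nat_lit 2488) (nat_lit 493858305440582043680)) (.cons (.rf (nat_lit 2488) (nat_lit 458117738797769787424)) .nil)))),
 (.br (nat_lit 12) (nat_lit 1) (.cons (.br (nat_lit 11) (nat_lit 1) (.cons (.ev (nat_lit 310693935713018395744010241) (nat_lit 1)) .nil)) (.cons (.ev (nat_lit 310693935641242272387825921) (nat_lit 1)) (.cons (.zr (nat_lit 237684487542793012780665602048) (nat_lit 1208962713385355377115137) (nat_lit 5) (nat_lit 10)) .nil)))),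
 (.br (nat_lit 13) (nat_lit 1) (.cons (.rf (nat_lit 2490) (nat_lit 493858305440582043680)) (.cons (.rf (nat_lit 2490) (nat_lit 493858305232278227168)) (.cons (.br (nat_lit 1) (nat_lit 1) (.cons (.zr (nat_lit 309489732187829037898400512) (nat_lit 1208925964011296522240001) (nat_lit 5) (nat_lit 4)) (.cons (.ev (nat_lit 310693935641242272387825921) (nat_lit 1)) (.cons (.rf (nat_lit 2490) (nat_lit 493858305440582043680)) .nil)))) (.cons (.zr (nat_lit 237684487542793012780665602048) (nat_lit 1208962713385355377115137) (nat_lit 5) (nat_lit 10)) .nil)))))]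

theorem c81 : chkAll C T R L81 (nat_lit 2462) = true := by decide +kernel

theorem l81 : (nat_lit 2462) + L81.length = (nat_lit 2492) := by decide +kernel

/-- part of the certificates -/
def L82 : List Prf := [(.br (nat_lit 9) (nat_lit 1) (.cons (.rf (nat_lit 2489) (nat_lit 493858305440582043680)) (.cons (.rf (nat_lit 2489) (nat_lit 493858305232278227168)) (.cons (.ev (nat_lit 311912343087312991623905281) (nat_lit 2)) (.cons (.rf (nat_lit 2491) (nat_lit 493858305440582043680)) (.cons (.rf (nat_lit 2491) (nat_lit 458117738797769787424)) .nil)))))),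
 (.br (nat_lit 8) (nat_lit 1) (.cons (.ev (nat_lit 282574488338689) (nat_lit 1)) (.cons (.rf (nat_lit 2479) (nat_lit 493858305440582043680)) (.cons (.ev (nat_lit 72058697844523009) (nat_lit 1)) (.cons (.rf (nat_lit 2484) (nat_lit 493858305440582043680)) (.cons (.br (nat_lit 2) (nat_lit 1) (.cons (.rf (nat_lit 2487) (nat_lit 493858305440582043680)) (.cons (.rf (nat_lit 2487) (nat_lit 493858305232278227168)) (.cons (.kr (nat_lit 1099511627776) (nat_lit 4722366482869645213696) (nat_lit 5) (nat_lit 0)) (.cons (.rf (nat_lit 2492) (nat_lit 493858305440582043680)) (.cons (.rf (nat_lit 2492) (nat_lit 492741412732994160672)) (.cons (.rf (nat_lit 2492) (nat_lit 455883953382594021408)) .nil))))))) .nil)))))),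
 (.br (nat_lit 8) (nat_lit 1) (.cons (.ev (nat_lit 282574488338689) (nat_lit 1)) (.cons (.rf (nat_lit 2479) (nat_lit 493858305440582043680)) (.cons (.ev (nat_lit 72058697844523009) (nat_lit 1)) (.cons (.rf (nat_lit 2484) (nat_lit 493858305440582043680)) (.cons (.rf (nat_lit 2493) (nat_lit 493858305440582043680)) (.cons (.rf (nat_lit 2493) (nat_lit 458117738797769787424)) .nil))))))),
 (.br (nat_lit 8) (nat_lit 1) (.cons (.rf (nat_lit 29) (nat_lit 8690753)) (.cons (.br (nat_lit 9) (nat_lit 1) (.cons (.rf (nat_lit 31) (nat_lit 377789505)) (.cons (.rf (nat_lit 31) (nat_lit 411343937)) (.cons (.br (nat_lit 11) (nat_lit 1) (.cons (.br (nat_lit 11) (nat_lit 1) (.cons (.ev (nat_lit 310693935641242272387825921) (nat_lit 1)) .nil)) (.cons (.br (nat_lit 12) (nat_lit 1) (.cons (.ev (nat_lit 310693935641242272387825921) (nat_lit 1)) (.cons (.ev (nat_lit 20282410812577562377645457473793) (nat_lit 1)) .nil))) .nil))) .nil)))) (.cons (.rf (nat_lit 1593) (nat_lit 458733397057)) .nil)))),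
 (.br (nat_lit 8) (nat_lit 1) (.cons (.rf (nat_lit 29) (nat_lit 8690753)) (.cons (.rf (nat_lit 2495) (nat_lit 493858305440582043680)) (.cons (.br (nat_lit 8) (nat_lit 1) (.cons (.zr (nat_lit 144678142324244737) (nat_lit 4759259971017081225216) (nat_lit 5) (nat_lit 3)) (.cons (.rf (nat_lit 2495) (nat_lit 493858305440582043680)) (.cons (.rf (nat_lit 2495) (nat_lit 420143386739781765152)) .nil)))) (.cons (.rf (nat_lit 2495) (nat_lit 420143386739781765152)) .nil))))),
 (.br (nat_lit 11) (nat_lit 1) (.cons (.br (nat_lit 11) (nat_lit 1) (.cons (.ev (nat_lit 310693935641242272387825921) (nat_lit 1)) .nil)) (.cons (.br (nat_lit 11) (nat_lit 1) (.cons (.ev (nat_lit 310693935641242272387825921) (nat_lit 1)) .nil)) .nil))),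
 (.br (nat_lit 8) (nat_lit 1) (.cons (.rf (nat_lit 29) (nat_lit 8690753)) (.cons (.br (nat_lit 7) (nat_lit 1) (.cons (.rf (nat_lit 31) (nat_lit 377726017)) (.cons (.rf (nat_lit 31) (nat_lit 411280449)) (.cons (.rf (nat_lit 2497) (nat_lit 493858305440582043680)) .nil)))) (.cons (.ev (nat_lit 1208944266358707179290881) (nat_lit 1)) .nil)))),
 (.br (nat_lit 8) (nat_lit 1) (.cons (.rf (nat_lit 29) (nat_lit 8690753)) (.cons (.rf (nat_lit 2498) (nat_lit 493858305440582043680)) (.cons (.br (nat_lit 8) (nat_lit 1) (.cons (.zr (nat_lit 144678142324244737) (nat_lit 4759259971017081225216) (nat_lit 5) (nat_lit 3)) (.cons (.rf (nat_lit 2498) (nat_lit 493858305440582043680)) (.cons (.rf (nat_lit 2498) (nat_lit 420143386739781765152)) .nil)))) (.cons (.rf (nat_lit 2498) (nat_lit 420143386739781765152)) .nil))))),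
 (.br (nat_lit 9) (nat_lit 1) (.cons (.zr (nat_lit 928455047910781478940901376) (nat_lit 1223092919344717382025220) (nat_lit 5) (nat_lit 10)) (.cons (.br (nat_lit 11) (nat_lit 1) (.cons (.rf (nat_lit 31) (nat_lit 414489665)) (.cons (.br (nat_lit 12) (nat_lit 1) (.cons (.ev (nat_lit 79538861190790864403324534785) (nat_lit 1)) .nil)) .nil))) (.cons (.br (nat_lit 13) (nat_lit 1) (.cons (.rf (nat_lit 31) (nat_lit 448044097)) (.cons (.ev (nat_lit 20282410812577562377645457473793) (nat_lit 1)) .nil))) .nil)))),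
 (.br (nat_lit 8) (nat_lit 1) (.cons (.rf (nat_lit 2495) (nat_lit 493858305440582043680)) (.cons (.rf (nat_lit 2498) (nat_lit 493858305440582043680)) (.cons (.br (nat_lit 7) (nat_lit 1) (.cons (.rf (nat_lit 246) (nat_lit 457791806529)) (.cons (.rf (nat_lit 2500) (nat_lit 493858305440582043680)) (.cons (.ev (nat_lit 1208944338417400745558273) (nat_lit 1)) (.cons (.rf (nat_lit 2500) (nat_lit 420143386739781765152)) .nil))))) .nil)))),
 (.br (nat_lit 8) (nat_lit 1) (.cons (.rf (nat_lit 2495) (nat_lit 493858305440582043680)) (.cons (.rf (nat_lit 2498) (nat_lit 493858305440582043680)) (.cons (.rf (nat_lit 2501) (nat_lit 493858305440582043680)) (.cons (.br (nat_lit 8) (nat_lit 1) (.cons (.rf (nat_lit 1593) (nat_lit 458733397057)) (.cons (.ev (nat_lit 1208944266358707179290881) (nat_lit 1)) (.cons (.rf (nat_lit 2501) (nat_lit 493858305440582043680)) .nil)))) .nil))))),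
 (.br (nat_lit 8) (nat_lit 1) (.cons (.rf (nat_lit 29) (nat_lit 8684770)) (.cons (.br (nat_lit 9) (nat_lit 1) (.cons (.ev (nat_lit 4740813508418331476224) (nat_lit 1)) (.cons (.rf (nat_lit 31) (nat_lit 411337954)) (.cons (.br (nat_lit 11) (nat_lit 1) (.cons (.br (nat_lit 13) (nat_lit 1) (.cons (.zr (nat_lit 14222655853612178079744) (nat_lit 620178945462587345424351233) (nat_lit 5) (nat_lit 0)) (.cons (.kr (nat_lit 1208925819896104151417088) (nat_lit 79228162514336395191876845568) (nat_lit 1) (nat_lit 0)) .nil))) (.cons (.br (nat_lit 12) (nat_lit 1) (.cons (.zr (nat_lit 14222655853612178079744) (nat_lit 620178945462587345424351233) (nat_lit 5) (nat_lit 0)) (.cons (.zr (nat_lit 2417851783907400673657088) (nat_lit 40564819207303340848994031108097) (nat_lit 5) (nat_lit 3)) .nil))) .nil))) .nil)))) (.cons (.rf (nat_lit 1593) (nat_lit 458532070626)) .nil)))),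
 (.br (nat_lit 8) (nat_lit 1) (.cons (.rf (nat_lit 29) (nat_lit 8684770)) (.cons (.rf (nat_lit 2503) (nat_lit 493858305440582043680)) (.cons (.br (nat_lit 8) (nat_lit 1) (.cons (.zr (nat_lit 144678142324244737) (nat_lit 36893489246947639296) (nat_lit 5) (nat_lit 3)) (.cons (.rf (nat_lit 2503) (nat_lit 493858305440582043680)) (.cons (.rf (nat_lit 2503) (nat_lit 420143386739781765152)) .nil)))) (.cons (.rf (nat_lit 2503) (nat_lit 420143386739781765152)) .nil))))),
 (.br (nat_lit 1) (nat_lit 1) (.cons (.rf (nat_lit 31) (nat_lit 342925506)) (.cons (.rf (nat_lit 31) (nat_lit 376479938)) (.cons (.br (nat_lit 12) (nat_lit 1) (.cons (.rf (nat_lit 1959) (nat_lit 13126032727390394400)) (.cons (.rf (nat_lit 1959) (nat_lit 11974237122690390048)) .nil))) .nil)))),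
 (.br (nat_lit 7) (nat_lit 1) (.cons (.rf (nat_lit 29) (nat_lit 7603394)) (.cons (.rf (nat_lit 1593) (nat_lit 388972643522)) (.cons (.rf (nat_lit 2505) (nat_lit 13126066816545818656)) .nil)))),
 (.br (nat_lit 8) (nat_lit 1) (.cons (.rf (nat_lit 29) (nat_lit 8684770)) (.cons (.rf (nat_lit 2506) (nat_lit 481121282113505312)) (.cons (.br (nat_lit 8) (nat_lit 1) (.cons (.zr (nat_lit 144678142324244737) (nat_lit 36893489246947639296) (nat_lit 5) (nat_lit 3)) (.cons (.rf (nat_lit 2506) (nat_lit 481121282113505312)) (.cons (.rf (nat_lit 2506) (nat_lit 411315487889262624)) .nil)))) (.cons (.rf (nat_lit 2506) (nat_lit 411315487889262624)) .nil))))),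
 (.br (nat_lit 9) (nat_lit 1) (.cons (.zr (nat_lit 928455047910781478940901376) (nat_lit 1223092919344717382025220) (nat_lit 5) (nat_lit 10)) (.cons (.br (nat_lit 11) (nat_lit 1) (.cons (.ev (nat_lit 79538856468424380434167693313) (nat_lit 1)) (.cons (.zr (nat_lit 928469196779656597223768064) (nat_lit 1208962713385355393892353) (nat_lit 5) (nat_lit 10)) .nil))) (.cons (.br (nat_lit 11) (nat_lit 1) (.cons (.zr (nat_lit 928469196779656597223768064) (nat_lit 1208962713385355393892353) (nat_lit 5) (nat_lit 10)) (.cons (.ev (nat_lit 20282410817318375605688323866880) (nat_lit 1)) .nil))) .nil)))),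
 (.br (nat_lit 8) (nat_lit 1) (.cons (.rf (nat_lit 2504) (nat_lit 493858305440582043680)) (.cons (.rf (nat_lit 2506) (nat_lit 481121282113505312)) (.cons (.br (nat_lit 1) (nat_lit 1) (.cons (.rf (nat_lit 246) (nat_lit 457791736097)) (.cons (.rf (nat_lit 2508) (nat_lit 493858305440582043680)) (.cons (.ev (nat_lit 1208944338417400745558273) (nat_lit 1)) (.cons (.rf (nat_lit 2508) (nat_lit 420143386739781765152)) .nil))))) .nil)))),
 (.br (nat_lit 8) (nat_lit 1) (.cons (.rf (nat_lit 2504) (nat_lit 493858305440582043680)) (.cons (.rf (nat_lit 2506) (nat_lit 481121282113505312)) (.cons (.rf (nat_lit 2509) (nat_lit 493858305440582043680)) (.cons (.br (nat_lit 8) (nat_lit 1) (.cons (.rf (nat_lit 1593) (nat_lit 458532070626)) (.cons (.rf (nat_lit 1593) (nat_lit 458800497890)) (.cons (.rf (nat_lit 2509) (nat_lit 493858305440582043680)) .nil)))) .nil))))),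
 (.br (nat_lit 12) (nat_lit 1) (.cons (.ev (nat_lit 79229376162522492690696765441) (nat_lit 1)) .nil)),
 (.br (nat_lit 8) (nat_lit 1) (.cons (.br (nat_lit 11) (nat_lit 1) (.cons (.rf (nat_lit 2511) (nat_lit 493858305440582043680)) (.cons (.br (nat_lit 11) (nat_lit 1) (.cons (.rf (nat_lit 2511) (nat_lit 493858305440582043680)) .nil)) .nil))) (.cons (.br (nat_lit 9) (nat_lit 1) (.cons (.rf (nat_lit 84) (nat_lit 13164946471)) (.cons (.br (nat_lit 11) (nat_lit 1) (.cons (.ev (nat_lit 79538856468424380434167693313) (nat_lit 1)) (.cons (.zr (nat_lit 928455029680212386334638080) (nat_lit 1218407446349995172691969) (nat_lit 5) (nat_lit 10)) .nil))) (.cons (.br (nat_lit 11) (nat_lit 1) (.cons (.br (nat_lit 12) (nat_lit 1) (.cons (.zr (nat_lit 396140812571321687984899948544) (nat_lit 620188427233156415914770433) (nat_lit 5) (nat_lit 5)) .nil)) (.cons (.ev (nat_lit 20282409608374036907920703160576) (nat_lit 1)) .nil))) .nil)))) (.cons (.ev (nat_lit 1208944338417400745558273) (nat_lit 1)) .nil)))),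
 (.br (nat_lit 8) (nat_lit 1) (.cons (.br (nat_lit 13) (nat_lit 1) (.cons (.zr (nat_lit 928455029680212386334638080) (nat_lit 1218407446349995172691969) (nat_lit 5) (nat_lit 10)) (.cons (.kr (nat_lit 79228162514264338693055578368) (nat_lit 4740813226943371542528) (nat_lit 1) (nat_lit 0)) .nil))) (.cons (.rf (nat_lit 2512) (nat_lit 493858305440582043680)) .nil))),
 (.br (nat_lit 8) (nat_lit 1) (.cons (.rf (nat_lit 2513) (nat_lit 493858305440582043680)) (.cons (.br (nat_lit 8) (nat_lit 1) (.cons (.rf (nat_lit 2513) (nat_lit 493858305440582043680)) (.cons (.ev (nat_lit 1208944338417400745558273) (nat_lit 1)) .nil))) (.cons (.rf (nat_lit 2512) (nat_lit 493858305440582043680)) .nil)))),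
 (.br (nat_lit 13) (nat_lit 1) (.cons (.rf (nat_lit 2512) (nat_lit 493858305440582043680)) (.cons (.rf (nat_lit 2514) (nat_lit 493858305440582043680)) (.cons (.br (nat_lit 13) (nat_lit 1) (.cons (.rf (nat_lit 2512) (nat_lit 493858305440582043680)) (.cons (.rf (nat_lit 2514) (nat_lit 493858305440582043680)) .nil))) .nil)))),
 (.br (nat_lit 13) (nat_lit 1) (.cons (.rf (nat_lit 2512) (nat_lit 493858305440582043680)) (.cons (.rf (nat_lit 2514) (nat_lit 493858305440582043680)) (.cons (.rf (nat_lit 2515) (nat_lit 493858305440582043680)) (.cons (.br (nat_lit 13) (nat_lit 1) (.cons (.rf (nat_lit 2512) (nat_lit 493858305440582043680)) (.cons (.rf (nat_lit 2514) (nat_lit 493858305440582043680)) (.cons (.rf (nat_lit 2515) (nat_lit 493858305440582043680)) .nil)))) .nil))))),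
 (.br (nat_lit 11) (nat_lit 1) (.cons (.ev (nat_lit 20361637766184381505618816598016) (nat_lit 1)) .nil)),
 (.br (nat_lit 7) (nat_lit 1) (.cons (.rf (nat_lit 84) (nat_lit 12222504001)) (.cons (.br (nat_lit 8) (nat_lit 1) (.cons (.rf (nat_lit 84) (nat_lit 13164944425)) (.cons (.br (nat_lit 11) (nat_lit 1) (.cons (.ev (nat_lit 79538856468424380434167693313) (nat_lit 1)) (.cons (.br (nat_lit 12) (nat_lit 1) (.cons (.zr (nat_lit 79232998217543640548108206336) (nat_lit 1547443938572660120739643394) (nat_lit 10) (nat_lit 3)) .nil)) .nil))) .nil))) (.cons (.ev (nat_lit 79228167236703160631715495936) (nat_lit 1)) (.cons (.br (nat_lit 8) (nat_lit 1) (.cons (.br (nat_lit 13) (nat_lit 1) (.cons (.zr (nat_lit 18889754727003709245959) (nat_lit 313111897960653433000165376) (nat_lit 15) (nat_lit 0)) (.cons (.zr (nat_lit 18889826785697258801415) (nat_lit 79232998309776516513284554752) (nat_lit 15) (nat_lit 0)) .nil))) (.cons (.br (nat_lit 12) (nat_lit 1) (.cons (.rf (nat_lit 2517) (nat_lit 493858305440582043680))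 (.cons (.zr (nat_lit 237686919561531690647984209920) (nat_lit 101412048018258352405613574619649) (nat_lit 5) (nat_lit 6)) .nil))) .nil))) .nil))))),
 (.br (nat_lit 12) (nat_lit 1) (.cons (.rf (nat_lit 2516) (nat_lit 493858305440582043680)) (.cons (.rf (nat_lit 2518) (nat_lit 493858305440582043680)) (.cons (.br (nat_lit 7) (nat_lit 1) (.cons (.br (nat_lit 9) (nat_lit 1) (.cons (.ev (nat_lit 79850764070698747965969924354) (nat_lit 2)) (.cons (.br (nat_lit 11) (nat_lit 1) (.cons (.ev (nat_lit 81085077424830780836675584262) (nat_lit 3)) .nil)) .nil))) (.cons (.br (nat_lit 8) (nat_lit 1) (.cons (.ev (nat_lit 18519083142741033216) (nat_lit 1)) (.cons (.br (nat_lit 11) (nat_lit 1) (.cons (.ev (nat_lit 79849555163397653516697862914) (nat_lit 2)) .nil)) .nil))) (.cons (.ev (nat_lit 80160244321331334082948236035) (nat_lit 2)) (.cons (.br (nat_lit 9) (nat_lit 1) (.cons (.ev (nat_lit 79229376180897180269896859648) (nat_lit 1)) (.cons (.ev (nat_lit 310698658079782736087810305) (nat_lit 1)) (.cons (.zr (nat_lit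 237684487543153305166047870976) (nat_lit 40564820439840993158346896966145) (nat_lit 5) (nat_lit 3)) .nil)))) .nil))))) .nil)))),
 (.br (nat_lit 12) (nat_lit 1) (.cons (.rf (nat_lit 2516) (nat_lit 493858305440582043680)) (.cons (.rf (nat_lit 2518) (nat_lit 493858305440582043680)) (.cons (.rf (nat_lit 2519) (nat_lit 493858305440582043680)) (.cons (.br (nat_lit 12) (nat_lit 1) (.cons (.rf (nat_lit 2516) (nat_lit 493858305440582043680)) (.cons (.rf (nat_lit 2518) (nat_lit 493858305440582043680)) (.cons (.rf (nat_lit 2519) (nat_lit 493858305440582043680)) .nil)))) .nil))))),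
 (.br (nat_lit 8) (nat_lit 1) (.cons (.kr (nat_lit 20361637766165934761540795302144) (nat_lit 309489750706629606117474304) (nat_lit 1) (nat_lit 0)) .nil)),
 (.br (nat_lit 12) (nat_lit 1) (.cons (.rf (nat_lit 84) (nat_lit 8971658466)) (.cons (.rf (nat_lit 2520) (nat_lit 493858305440582043680)) (.cons (.br (nat_lit 11) (nat_lit 1) (.cons (.rf (nat_lit 84) (nat_lit 9004424226)) (.cons (.br (nat_lit 7) (nat_lit 1) (.cons (.ev (nat_lit 309489732259885536719667456) (nat_lit 1)) (.cons (.rf (nat_lit 2521) (nat_lit 493858305440582043680)) .nil))) (.cons (.ev (nat_lit 79537647524085682666580541441) (nat_lit 1)) .nil)))) .nil)))),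
 (.br (nat_lit 12) (nat_lit 1) (.cons (.rf (nat_lit 2516) (nat_lit 493858305440582043680)) (.cons (.rf (nat_lit 2520) (nat_lit 493858305440582043680)) (.cons (.rf (nat_lit 2522) (nat_lit 493858305440582043680)) (.cons (.br (nat_lit 12) (nat_lit 1) (.cons (.rf (nat_lit 2516) (nat_lit 493858305440582043680)) (.cons (.rf (nat_lit 2520) (nat_lit 493858305440582043680)) (.cons (.rf (nat_lit 2522) (nat_lit 493858305440582043680)) .nil)))) .nil)))))]

theorem c82 : chkAll C T R L82 (nat_lit 2492) = true := by decide +kernel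

theorem l82 : (nat_lit 2492) + L82.length = (nat_lit 2524) := by decide +kernel

/-- part of the certificates -/
def L83 : List Prf := [(.br (nat_lit 12) (nat_lit 1) (.cons (.rf (nat_lit 2516) (nat_lit 493858305440582043680)) (.cons (.rf (nat_lit 2520) (nat_lit 493858305440582043680)) (.cons (.rf (nat_lit 2523) (nat_lit 493858305440582043680)) (.cons (.br (nat_lit 12) (nat_lit 1) (.cons (.rf (nat_lit 2516) (nat_lit 493858305440582043680)) (.cons (.rf (nat_lit 2520) (nat_lit 493858305440582043680)) (.cons (.rf (nat_lit 2523) (nat_lit 493858305440582043680)) .nil)))) .nil))))),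
 (.br (nat_lit 12) (nat_lit 1) (.cons (.rf (nat_lit 2516) (nat_lit 493858305440582043680)) (.cons (.rf (nat_lit 2520) (nat_lit 493858305440582043680)) (.cons (.rf (nat_lit 2523) (nat_lit 493858305440582043680)) (.cons (.rf (nat_lit 2524) (nat_lit 493858305440582043680)) (.cons (.br (nat_lit 12) (nat_lit 1) (.cons (.rf (nat_lit 2516) (nat_lit 493858305440582043680)) (.cons (.rf (nat_lit 2520) (nat_lit 493858305440582043680)) (.cons (.rf (nat_lit 2523) (nat_lit 493858305440582043680)) (.cons (.rf (nat_lit 2524) (nat_lit 493858305440582043680)) .nil))))) .nil)))))),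
 (.br (nat_lit 11) (nat_lit 1) (.cons (.br (nat_lit 12) (nat_lit 1) (.cons (.kr (nat_lit 79537647524085682662268797184) (nat_lit 20282409608392555708484643979264) (nat_lit 1) (nat_lit 0)) .nil)) .nil)),
 (.br (nat_lit 8) (nat_lit 1) (.cons (.ev (nat_lit 18519083142741033216) (nat_lit 1)) (.cons (.br (nat_lit 11) (nat_lit 1) (.cons (.rf (nat_lit 2526) (nat_lit 493858305440582043680)) (.cons (.br (nat_lit 12) (nat_lit 1) (.cons (.rf (nat_lit 2526) (nat_lit 493858305440582043680)) (.cons (.zr (nat_lit 14222655853612178079744) (nat_lit 40564820416229160745102477361153) (nat_lit 5) (nat_lit 0)) .nil))) .nil))) .nil))),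
 (.br (nat_lit 12) (nat_lit 1) (.cons (.ev (nat_lit 79228167255149904705425047553) (nat_lit 1)) .nil)),
 (.br (nat_lit 11) (nat_lit 1) (.cons (.rf (nat_lit 2528) (nat_lit 493858305440582043680)) (.cons (.br (nat_lit 11) (nat_lit 1) (.cons (.rf (nat_lit 2528) (nat_lit 493858305440582043680)) .nil)) .nil))),
 (.br (nat_lit 8) (nat_lit 1) (.cons (.rf (nat_lit 2529) (nat_lit 493858305440582043680)) (.cons (.br (nat_lit 9) (nat_lit 1) (.cons (.rf (nat_lit 84) (nat_lit 13164946657)) (.cons (.br (nat_lit 11) (nat_lit 1) (.cons (.rf (nat_lit 84) (nat_lit 8971854882)) (.cons (.br (nat_lit 12) (nat_lit 1) (.cons (.ev (nat_lit 79538856468424380434167693313) (nat_lit 1)) .nil)) .nil))) (.cons (.br (nat_lit 13) (nat_lit 1) (.cons (.ev (nat_lit 20282413244614892198448527901185) (nat_lit 2)) (.cons (.ev (nat_lit 20282409608374036907920703160576) (nat_lit 1)) .nil))) .nil)))) (.cons (.ev (nat_lit 1208944338417400745558273) (nat_lit 1)) .nil)))),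
 (.br (nat_lit 8) (nat_lit 1) (.cons (.br (nat_lit 11) (nat_lit 1) (.cons (.ev (nat_lit 79229376180969236764406317056) (nat_lit 1)) (.cons (.br (nat_lit 12) (nat_lit 1) (.cons (.zr (nat_lit 928455029464037405214376704) (nat_lit 158457533954492686483610140673) (nat_lit 5) (nat_lit 4)) .nil)) .nil))) (.cons (.rf (nat_lit 2530) (nat_lit 493858305440582043680)) .nil))),
 (.br (nat_lit 8) (nat_lit 1) (.cons (.rf (nat_lit 2531) (nat_lit 493858305440582043680)) (.cons (.br (nat_lit 8) (nat_lit 1) (.cons (.rf (nat_lit 2531) (nat_lit 493858305440582043680)) (.cons (.ev (nat_lit 1208944338417400745558273) (nat_lit 1)) .nil))) (.cons (.rf (nat_lit 2530) (nat_lit 493858305440582043680)) .nil)))),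
 (.br (nat_lit 13) (nat_lit 1) (.cons (.rf (nat_lit 2530) (nat_lit 493858305440582043680)) (.cons (.rf (nat_lit 2532) (nat_lit 493858305440582043680)) (.cons (.br (nat_lit 13) (nat_lit 1) (.cons (.rf (nat_lit 2530) (nat_lit 493858305440582043680)) (.cons (.rf (nat_lit 2532) (nat_lit 493858305440582043680)) .nil))) .nil)))),
 (.br (nat_lit 1) (nat_lit 1) (.cons (.br (nat_lit 8) (nat_lit 1) (.cons (.rf (nat_lit 58) (nat_lit 8685607)) (.cons (.rf (nat_lit 1339) (nat_lit 391152474337)) (.cons (.ev (nat_lit 18447026648197890304) (nat_lit 1)) (.cons (.br (nat_lit 9) (nat_lit 1) (.cons (.rf (nat_lit 82) (nat_lit 14336428071)) (.cons (.br (nat_lit 11) (nat_lit 1) (.cons (.br (nat_lit 13) (nat_lit 1) (.cons (.kr (nat_lit 309485009821346168236408832) (nat_lit 1213648186097498819919872) (nat_lit 5) (nat_lit 0)) (.cons (.zr (nat_lit 2432018738678966796681984) (nat_lit 158456325028528956666376486913) (nat_lit 5) (nat_lit 4)) .nil))) (.cons (.br (nat_lit 12) (nat_lit 1) (.cons (.kr (nat_lit 309485009821346168236408832)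 (nat_lit 1213648186097498819919872) (nat_lit 5) (nat_lit 0)) (.cons (.zr (nat_lit 14222655853612178079744) (nat_lit 40564820416229160745102477361153) (nat_lit 5) (nat_lit 0)) .nil))) .nil))) (.cons (.rf (nat_lit 84) (nat_lit 12256053287)) .nil)))) .nil))))) (.cons (.br (nat_lit 8) (nat_lit 1) (.cons (.rf (nat_lit 31) (nat_lit 377719073)) (.cons (.rf (nat_lit 2527) (nat_lit 493858305440582043680)) (.cons (.br (nat_lit 8) (nat_lit 1) (.cons (.rf (nat_lit 31) (nat_lit 377719073)) (.cons (.rf (nat_lit 2527) (nat_lit 493858305440582043680)) .nil))) .nil)))) (.cons (.rf (nat_lit 2525) (nat_lit 493858305440582043680)) (.cons (.br (nat_lit 13) (nat_lit 1) (.cons (.rf (nat_lit 2530) (nat_lit 493858305440582043680)) (.cons (.rf (nat_lit 2532) (nat_lit 493858305440582043680)) (.cons (.rf (nat_lit 2533) (nat_lit 493858305440582043680)) (.cons (.br (nat_lit 13) (nat_lit 1) (.cons (.rf (nat_lit 2530) (nat_lit 493858305440582043680)) (.cons (.rf (nat_lit 2532) (nat_lit 493858305440582043680)) (.cons (.rf (nat_lit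 2533) (nat_lit 493858305440582043680)) .nil)))) .nil))))) (.cons (.rf (nat_lit 2525) (nat_lit 420143386739781765152)) .nil)))))),
 (.br (nat_lit 1) (nat_lit 1) (.cons (.rf (nat_lit 31) (nat_lit 377784545)) (.cons (.rf (nat_lit 1339) (nat_lit 391085365537)) (.cons (.rf (nat_lit 1339) (nat_lit 288009525313)) (.cons (.br (nat_lit 7) (nat_lit 1) (.cons (.rf (nat_lit 84) (nat_lit 13262691393)) (.cons (.rf (nat_lit 84) (nat_lit 13164946657)) (.cons (.br (nat_lit 8) (nat_lit 1) (.cons (.rf (nat_lit 84) (nat_lit 12092251177)) (.cons (.ev (nat_lit 1208944338417400745558273) (nat_lit 1)) .nil))) (.cons (.rf (nat_lit 2534) (nat_lit 420143386739781765152)) .nil))))) (.cons (.rf (nat_lit 2525) (nat_lit 420143386739781765152)) .nil)))))),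
 (.br (nat_lit 13) (nat_lit 1) (.cons (.ev (nat_lit 310698658007724042521411841) (nat_lit 1)) (.cons (.rf (nat_lit 2534) (nat_lit 420143386739781765152)) (.cons (.rf (nat_lit 2535) (nat_lit 420143386739781765152)) (.cons (.br (nat_lit 1) (nat_lit 1) (.cons (.kr (nat_lit 20282409603651670423947268128768) (nat_lit 309485009893403762274336768) (nat_lit 2) (nat_lit 0)) (.cons (.br (nat_lit 7) (nat_lit 1) (.cons (.zr (nat_lit 14222655853612178079744) (nat_lit 620178945462587345424351233) (nat_lit 5) (nat_lit 0)) .nil)) (.cons (.ev (nat_lit 20361637766165934761545107046401) (nat_lit 1)) .nil)))) .nil))))),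
 (.br (nat_lit 11) (nat_lit 1) (.cons (.rf (nat_lit 2525) (nat_lit 493858305440582043680)) (.cons (.rf (nat_lit 2534) (nat_lit 493858305440582043680)) (.cons (.rf (nat_lit 2535) (nat_lit 493858305440582043680)) (.cons (.br (nat_lit 13) (nat_lit 1) (.cons (.rf (nat_lit 2525) (nat_lit 420143386739781765152)) (.cons (.rf (nat_lit 2534) (nat_lit 420143386739781765152)) (.cons (.br (nat_lit 13) (nat_lit 1) (.cons (.rf (nat_lit 2525) (nat_lit 420143386739781765152)) (.cons (.rf (nat_lit 2534) (nat_lit 420143386739781765152)) (.cons (.rf (nat_lit 2535) (nat_lit 420143386739781765152)) (.cons (.kr (nat_lit 309485009821345068724781056) (nat_lit 20282409603651670423947251286016) (nat_lit 11) (nat_lit 0)) .nil))))) (.cons (.rf (nat_lit 2536) (nat_lit 493858305440582043680)) (.cons (.br (nat_lit 13) (nat_lit 1) (.cons (.rf (nat_lit 2525) (nat_lit 420143386739781765152)) (.cons (.rf (nat_lit 2534) (nat_lit 420143386739781765152)) (.cons (.kr (nat_lit 309485009821345068724781056) (nat_lit 20282409603651670423947251286016)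 (nat_lit 11) (nat_lit 0)) (.cons (.rf (nat_lit 2536) (nat_lit 493858305440582043680)) .nil))))) .nil)))))) .nil))))),
 (.br (nat_lit 11) (nat_lit 1) (.cons (.rf (nat_lit 2525) (nat_lit 493858305440582043680)) (.cons (.rf (nat_lit 2534) (nat_lit 493858305440582043680)) (.cons (.rf (nat_lit 2535) (nat_lit 493858305440582043680)) (.cons (.rf (nat_lit 2537) (nat_lit 493858305440582043680)) (.cons (.br (nat_lit 11) (nat_lit 1) (.cons (.rf (nat_lit 2525) (nat_lit 493858305440582043680)) (.cons (.rf (nat_lit 2534) (nat_lit 493858305440582043680)) (.cons (.rf (nat_lit 2535) (nat_lit 493858305440582043680)) (.cons (.rf (nat_lit 2537) (nat_lit 493858305440582043680)) .nil))))) .nil)))))),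
 (.br (nat_lit 13) (nat_lit 1) (.cons (.rf (nat_lit 2525) (nat_lit 420143386739781765152)) (.cons (.rf (nat_lit 2534) (nat_lit 420143386739781765152)) (.cons (.rf (nat_lit 2538) (nat_lit 420143386739781765152)) (.cons (.br (nat_lit 13) (nat_lit 1) (.cons (.rf (nat_lit 2525) (nat_lit 420143386739781765152)) (.cons (.rf (nat_lit 2534) (nat_lit 420143386739781765152)) (.cons (.rf (nat_lit 2538) (nat_lit 420143386739781765152)) .nil)))) .nil))))),
 (.br (nat_lit 13) (nat_lit 1) (.cons (.rf (nat_lit 2525) (nat_lit 420143386739781765152)) (.cons (.rf (nat_lit 2534) (nat_lit 420143386739781765152)) (.cons (.rf (nat_lit 2538) (nat_lit 420143386739781765152)) (.cons (.rf (nat_lit 2539) (nat_lit 493858305440582043680)) (.cons (.br (nat_lit 13) (nat_lit 1) (.cons (.rf (nat_lit 2525) (nat_lit 420143386739781765152)) (.cons (.rf (nat_lit 2534) (nat_lit 420143386739781765152)) (.cons (.rf (nat_lit 2538) (nat_lit 420143386739781765152)) (.cons (.rf (nat_lit 2539) (nat_lit 493858305440582043680)) .nil))))) .nil)))))),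
 (.br (nat_lit 11) (nat_lit 1) (.cons (.rf (nat_lit 2525) (nat_lit 493858305440582043680)) (.cons (.rf (nat_lit 2534) (nat_lit 493858305440582043680)) (.cons (.rf (nat_lit 2538) (nat_lit 493858305440582043680)) (.cons (.rf (nat_lit 2540) (nat_lit 493858305440582043680)) (.cons (.br (nat_lit 11) (nat_lit 1) (.cons (.rf (nat_lit 2525) (nat_lit 493858305440582043680)) (.cons (.rf (nat_lit 2534) (nat_lit 493858305440582043680)) (.cons (.rf (nat_lit 2538) (nat_lit 493858305440582043680)) (.cons (.rf (nat_lit 2540) (nat_lit 493858305440582043680)) .nil))))) .nil)))))),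
 (.br (nat_lit 8) (nat_lit 1) (.cons (.ev (nat_lit 1213666632842676336132353) (nat_lit 1)) (.cons (.br (nat_lit 9) (nat_lit 1) (.cons (.ev (nat_lit 309485009821345073019814144) (nat_lit 1)) (.cons (.br (nat_lit 13) (nat_lit 1) (.cons (.zr (nat_lit 55556409401288949760) (nat_lit 620188390195551985203150849) (nat_lit 5) (nat_lit 0)) (.cons (.kr (nat_lit 79228162514264337593544016128) (nat_lit 18518802767259107328) (nat_lit 1) (nat_lit 0)) .nil))) (.cons (.br (nat_lit 11) (nat_lit 1) (.cons (.zr (nat_lit 55556409401288949760) (nat_lit 620188390195551985203150849) (nat_lit 5) (nat_lit 0)) (.cons (.ev (nat_lit 20282409608374036907920703160576) (nat_lit 1)) .nil))) .nil)))) (.cons (.br (nat_lit 9) (nat_lit 1) (.cons (.br (nat_lit 12) (nat_lit 1) (.cons (.rf (nat_lit 84) (nat_lit 9004360769)) (.cons (.ev (nat_lit 79229376162522492690696765441) (nat_lit 1)) .nil))) (.cons (.zr (nat_lit 2417851640355158256255745) (nat_lit 158456325065422164438330507264) (nat_lit 5) (nat_lit 3)) (.cons (.ev (nat_lit 4740813508418331476224)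 (nat_lit 1)) .nil)))) .nil)))),
 (.br (nat_lit 8) (nat_lit 1) (.cons (.br (nat_lit 11) (nat_lit 1) (.cons (.ev (nat_lit 79229376162522492690696765441) (nat_lit 1)) (.cons (.zr (nat_lit 4835703279584416605668608) (nat_lit 618979501413260316058320897) (nat_lit 5) (nat_lit 3)) .nil))) (.cons (.rf (nat_lit 2542) (nat_lit 493858305440582043680)) .nil))),
 (.br (nat_lit 8) (nat_lit 1) (.cons (.rf (nat_lit 2543) (nat_lit 493858305440582043680)) (.cons (.br (nat_lit 8) (nat_lit 1) (.cons (.rf (nat_lit 2543) (nat_lit 493858305440582043680)) (.cons (.ev (nat_lit 4740813508418331476224) (nat_lit 1)) .nil))) (.cons (.rf (nat_lit 2542) (nat_lit 493858305440582043680)) .nil)))),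
 (.br (nat_lit 13) (nat_lit 1) (.cons (.rf (nat_lit 2542) (nat_lit 493858305440582043680)) (.cons (.rf (nat_lit 2544) (nat_lit 493858305440582043680)) (.cons (.br (nat_lit 13) (nat_lit 1) (.cons (.rf (nat_lit 2542) (nat_lit 493858305440582043680)) (.cons (.rf (nat_lit 2544) (nat_lit 493858305440582043680)) .nil))) .nil)))),
 (.br (nat_lit 13) (nat_lit 1) (.cons (.rf (nat_lit 2542) (nat_lit 493858305440582043680)) (.cons (.rf (nat_lit 2544) (nat_lit 493858305440582043680)) (.cons (.rf (nat_lit 2545) (nat_lit 493858305440582043680)) (.cons (.br (nat_lit 13) (nat_lit 1) (.cons (.rf (nat_lit 2542) (nat_lit 493858305440582043680)) (.cons (.rf (nat_lit 2544) (nat_lit 493858305440582043680)) (.cons (.rf (nat_lit 2545) (nat_lit 493858305440582043680)) .nil)))) .nil))))),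
 (.br (nat_lit 7) (nat_lit 1) (.cons (.kr (nat_lit 4722366482869645213697) (nat_lit 18446745173221179392) (nat_lit 0) (nat_lit 1)) (.cons (.rf (nat_lit 2305) (nat_lit 14680511093825)) (.cons (.rf (nat_lit 84) (nat_lit 12092220642)) (.cons (.br (nat_lit 12) (nat_lit 1) (.cons (.br (nat_lit 11) (nat_lit 1) (.cons (.ev (nat_lit 79538861172344120329614983168) (nat_lit 1)) (.cons (.ev (nat_lit 310693935641242272387825921) (nat_lit 1)) .nil))) (.cons (.zr (nat_lit 2432018738678966796681984) (nat_lit 158456325028528956666376486913) (nat_lit 5) (nat_lit 4)) .nil))) .nil))))),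
 (.br (nat_lit 12) (nat_lit 1) (.cons (.rf (nat_lit 2546) (nat_lit 493858305440582043680)) (.cons (.rf (nat_lit 2547) (nat_lit 493858305440582043680)) (.cons (.br (nat_lit 13) (nat_lit 1) (.cons (.br (nat_lit 13) (nat_lit 1) (.cons (.ev (nat_lit 79229371458602754994272731136) (nat_lit 1)) (.cons (.zr (nat_lit 2417851783908500185284864) (nat_lit 40564819216748073813633809907713) (nat_lit 5) (nat_lit 3)) (.cons (.ev (nat_lit 310693935641242272387825921) (nat_lit 1)) .nil)))) (.cons (.br (nat_lit 13) (nat_lit 1) (.cons (.ev (nat_lit 79229371458602754994272731136) (nat_lit 1)) (.cons (.ev (nat_lit 4740813508418331476224) (nat_lit 1)) (.cons (.ev (nat_lit 310693935641242272387825921) (nat_lit 1)) .nil)))) (.cons (.br (nat_lit 13) (nat_lit 1) (.cons (.zr (nat_lit 2417851783908500185284864) (nat_lit 40564819216748073813633809907713) (nat_lit 5) (nat_lit 3)) (.cons (.ev (nat_lit 4740813508418331476224) (nat_lit 1)) (.cons (.ev (nat_lit 310693935641242272387825921) (nat_lit 1)) .nil)))) (.cons (.ev (nat_lit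 310693935641242272387825921) (nat_lit 1)) .nil))))) .nil)))),
 (.br (nat_lit 12) (nat_lit 1) (.cons (.rf (nat_lit 2546) (nat_lit 493858305440582043680)) (.cons (.rf (nat_lit 2547) (nat_lit 493858305440582043680)) (.cons (.rf (nat_lit 2548) (nat_lit 493858305440582043680)) (.cons (.br (nat_lit 12) (nat_lit 1) (.cons (.rf (nat_lit 2546) (nat_lit 493858305440582043680)) (.cons (.zr (nat_lit 2432018738678966796681984) (nat_lit 158456325028528956666376486913) (nat_lit 5) (nat_lit 4)) (.cons (.rf (nat_lit 2548) (nat_lit 493858305440582043680)) .nil)))) .nil))))),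
 (.br (nat_lit 11) (nat_lit 1) (.cons (.rf (nat_lit 84) (nat_lit 9004424257)) (.cons (.br (nat_lit 7) (nat_lit 1) (.cons (.rf (nat_lit 84) (nat_lit 13262461993)) (.cons (.ev (nat_lit 79228167236703160631715495936) (nat_lit 1)) (.cons (.br (nat_lit 8) (nat_lit 1) (.cons (.ev (nat_lit 79538861172344120329614983168) (nat_lit 1)) (.cons (.zr (nat_lit 4835703279584416605668608) (nat_lit 618979501413260316058320897) (nat_lit 5) (nat_lit 3)) .nil))) .nil)))) (.cons (.ev (nat_lit 310693935641242272387825921) (nat_lit 1)) .nil))))]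

theorem c83 : chkAll C T R L83 (nat_lit 2524) = true := by decide +kernel

theorem l83 : (nat_lit 2524) + L83.length = (nat_lit 2551) := by decide +kernel

/-- part of the certificates -/
def L84 : List Prf := [(.br (nat_lit 12) (nat_lit 1) (.cons (.rf (nat_lit 2546) (nat_lit 493858305440582043680)) (.cons (.rf (nat_lit 2549) (nat_lit 493858305440582043680)) (.cons (.rf (nat_lit 2550) (nat_lit 493858305440582043680)) (.cons (.br (nat_lit 12) (nat_lit 1) (.cons (.rf (nat_lit 2546) (nat_lit 493858305440582043680)) (.cons (.zr (nat_lit 2432018738678966796681984) (nat_lit 158456325028528956666376486913) (nat_lit 5) (nat_lit 4)) (.cons (.rf (nat_lit 2550) (nat_lit 493858305440582043680)) .nil)))) .nil))))),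
 (.br (nat_lit 12) (nat_lit 1) (.cons (.rf (nat_lit 2546) (nat_lit 493858305440582043680)) (.cons (.rf (nat_lit 2549) (nat_lit 493858305440582043680)) (.cons (.rf (nat_lit 2551) (nat_lit 493858305440582043680)) (.cons (.br (nat_lit 12) (nat_lit 1) (.cons (.rf (nat_lit 2546) (nat_lit 493858305440582043680)) (.cons (.rf (nat_lit 2549) (nat_lit 493858305440582043680)) (.cons (.rf (nat_lit 2551) (nat_lit 493858305440582043680)) .nil)))) .nil))))),
 (.br (nat_lit 12) (nat_lit 1) (.cons (.rf (nat_lit 2546) (nat_lit 493858305440582043680)) (.cons (.rf (nat_lit 2549) (nat_lit 493858305440582043680)) (.cons (.rf (nat_lit 2551) (nat_lit 493858305440582043680)) (.cons (.rf (nat_lit 2552) (nat_lit 493858305440582043680)) (.cons (.br (nat_lit 12) (nat_lit 1) (.cons (.rf (nat_lit 2546) (nat_lit 493858305440582043680)) (.cons (.rf (nat_lit 2549) (nat_lit 493858305440582043680)) (.cons (.rf (nat_lit 2551) (nat_lit 493858305440582043680)) (.cons (.rf (nat_lit 2552) (nat_lit 493858305440582043680)) .nil))))) .nil)))))),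
 (.br (nat_lit 1) (nat_lit 1) (.cons (.rf (nat_lit 58) (nat_lit 8690722)) (.cons (.rf (nat_lit 1343) (nat_lit 457792817191)) (.cons (.br (nat_lit 8) (nat_lit 1) (.cons (.rf (nat_lit 84) (nat_lit 13262464225)) (.cons (.rf (nat_lit 84) (nat_lit 12222244066)) (.cons (.br (nat_lit 11) (nat_lit 1) (.cons (.br (nat_lit 13) (nat_lit 1) (.cons (.zr (nat_lit 309485065161578389398814720) (nat_lit 4845148011705735260930049) (nat_lit 5) (nat_lit 0)) (.cons (.zr (nat_lit 2432018738677867301831424) (nat_lit 158456325028673072953947062273) (nat_lit 5) (nat_lit 4)) .nil))) (.cons (.rf (nat_lit 2012) (nat_lit 339330531481228322)) .nil))) .nil)))) (.cons (.rf (nat_lit 1732) (nat_lit 411281397660097568)) .nil))))),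
 (.br (nat_lit 1) (nat_lit 1) (.cons (.rf (nat_lit 1339) (nat_lit 391152638017)) (.cons (.rf (nat_lit 31) (nat_lit 377560353)) (.cons (.ev (nat_lit 309485009893403766586081536) (nat_lit 1)) (.cons (.br (nat_lit 11) (nat_lit 1) (.cons (.rf (nat_lit 84) (nat_lit 13165110337)) (.cons (.br (nat_lit 9) (nat_lit 1) (.cons (.rf (nat_lit 84) (nat_lit 13262464225)) (.cons (.rf (nat_lit 84) (nat_lit 8971691047)) (.cons (.br (nat_lit 8) (nat_lit 1) (.cons (.zr (nat_lit 237686905394648419219141559040) (nat_lit 1547434493839972562253119489) (nat_lit 5) (nat_lit 0)) (.cons (.ev (nat_lit 309489750706629610429219073) (nat_lit 1)) .nil))) .nil)))) (.cons (.ev (nat_lit 310693935641242272387825921) (nat_lit 1)) .nil)))) (.cons (.br (nat_lit 9) (nat_lit 1) (.cons (.rf (nat_lit 84) (nat_lit 14336206049)) (.cons (.rf (nat_lit 84) (nat_lit 14238852161)) (.cons (.br (nat_lit 8) (nat_lit 1) (.cons (.br (nat_lit 11) (nat_lit 1) (.cons (.ev (nat_lit 310693935641242272387825921) (nat_lit 1)) (.cons (.ev (nat_lit 309489750706629610429219073)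 (nat_lit 1)) .nil))) (.cons (.ev (nat_lit 1213703743348039439351810) (nat_lit 2)) .nil))) (.cons (.rf (nat_lit 2001) (nat_lit 337112741296839712)) .nil))))) .nil)))))),
 (.br (nat_lit 9) (nat_lit 1) (.cons (.rf (nat_lit 58) (nat_lit 11831335)) (.cons (.rf (nat_lit 1850) (nat_lit 421259188729622463552)) (.cons (.br (nat_lit 11) (nat_lit 1) (.cons (.br (nat_lit 12) (nat_lit 1) (.cons (.ev (nat_lit 81085072702464299066541998342) (nat_lit 3)) .nil)) (.cons (.zr (nat_lit 20282719107550958544919554228226) (nat_lit 3626832799077238229172224) (nat_lit 10) (nat_lit 6)) .nil))) .nil)))),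
 (.br (nat_lit 1) (nat_lit 1) (.cons (.rf (nat_lit 58) (nat_lit 11831335)) (.cons (.br (nat_lit 11) (nat_lit 1) (.cons (.ev (nat_lit 309485009821345073019814144) (nat_lit 1)) (.cons (.br (nat_lit 12) (nat_lit 1) (.cons (.zr (nat_lit 1547425141340445712272654336) (nat_lit 158466005879962955726635139585) (nat_lit 5) (nat_lit 0)) .nil)) .nil))) (.cons (.br (nat_lit 11) (nat_lit 1) (.cons (.br (nat_lit 12) (nat_lit 1) (.cons (.ev (nat_lit 20837316259336716237575876052738) (nat_lit 3)) .nil)) (.cons (.ev (nat_lit 309485009821345073019814144) (nat_lit 1)) .nil))) .nil)))),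
 (.br (nat_lit 11) (nat_lit 1) (.cons (.rf (nat_lit 2556) (nat_lit 493858305440582043680)) (.cons (.rf (nat_lit 2557) (nat_lit 493858305440582043680)) (.cons (.br (nat_lit 9) (nat_lit 1) (.cons (.ev (nat_lit 309489750634573115886207233) (nat_lit 1)) (.cons (.ev (nat_lit 79538861172344120329614983168) (nat_lit 1)) (.cons (.zr (nat_lit 20282719112273325027789199441923) (nat_lit 3626851245822411450351616) (nat_lit 10) (nat_lit 6)) .nil)))) .nil)))),
 (.br (nat_lit 8) (nat_lit 1) (.cons (.rf (nat_lit 2553) (nat_lit 493858305440582043680)) (.cons (.rf (nat_lit 2554) (nat_lit 493858305440582043680)) (.cons (.rf (nat_lit 2555) (nat_lit 493858305440582043680)) (.cons (.br (nat_lit 11) (nat_lit 1) (.cons (.rf (nat_lit 2556) (nat_lit 493858305440582043680)) (.cons (.rf (nat_lit 2557) (nat_lit 493858305440582043680)) (.cons (.rf (nat_lit 2558) (nat_lit 493858305440582043680)) (.cons (.br (nat_lit 11) (nat_lit 1) (.cons (.rf (nat_lit 2556) (nat_lit 493858305440582043680)) (.cons (.rf (nat_lit 2557) (nat_lit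 493858305440582043680)) (.cons (.rf (nat_lit 2558) (nat_lit 493858305440582043680)) .nil)))) .nil))))) .nil))))),
 (.br (nat_lit 8) (nat_lit 1) (.cons (.rf (nat_lit 2553) (nat_lit 493858305440582043680)) (.cons (.rf (nat_lit 2554) (nat_lit 493858305440582043680)) (.cons (.rf (nat_lit 2555) (nat_lit 493858305440582043680)) (.cons (.rf (nat_lit 2559) (nat_lit 493858305440582043680)) (.cons (.br (nat_lit 8) (nat_lit 1) (.cons (.rf (nat_lit 2553) (nat_lit 493858305440582043680)) (.cons (.rf (nat_lit 2554) (nat_lit 493858305440582043680)) (.cons (.rf (nat_lit 2555) (nat_lit 493858305440582043680)) (.cons (.rf (nat_lit 2559) (nat_lit 493858305440582043680)) .nil))))) .nil)))))),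
 (.br (nat_lit 1) (nat_lit 1) (.cons (.rf (nat_lit 31) (nat_lit 377562337)) (.cons (.rf (nat_lit 1339) (nat_lit 391085594689)) (.cons (.rf (nat_lit 1339) (nat_lit 288009296161)) (.cons (.br (nat_lit 11) (nat_lit 1) (.cons (.rf (nat_lit 84) (nat_lit 13165173825)) (.cons (.br (nat_lit 7) (nat_lit 1) (.cons (.rf (nat_lit 84) (nat_lit 13262464225)) (.cons (.rf (nat_lit 84) (nat_lit 8971689001)) (.cons (.br (nat_lit 8) (nat_lit 1) (.cons (.zr (nat_lit 2432018738677867301831424) (nat_lit 158456325028673072953947062273) (nat_lit 5) (nat_lit 4)) (.cons (.ev (nat_lit 4740885567111897874688) (nat_lit 1)) .nil))) .nil)))) (.cons (.ev (nat_lit 310693935641242272387825921) (nat_lit 1)) .nil)))) (.cons (.br (nat_lit 7) (nat_lit 1) (.cons (.rf (nat_lit 84) (nat_lit 14336206049)) (.cons (.rf (nat_lit 84) (nat_lit 14238915649)) (.cons (.br (nat_lit 8) (nat_lit 1) (.cons (.br (nat_lit 11) (nat_lit 1) (.cons (.ev (nat_lit 310693935641242272387825921) (nat_lit 1)) (.cons (.br (nat_lit 12) (nat_lit 1) (.cons (.ev (nat_lit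 158767033186825488505805930499) (nat_lit 2)) .nil)) .nil))) (.cons (.ev (nat_lit 4740885567111897874688) (nat_lit 1)) .nil))) (.cons (.rf (nat_lit 2336) (nat_lit 481087197253044256)) .nil))))) .nil)))))),
 (.br (nat_lit 7) (nat_lit 1) (.cons (.rf (nat_lit 58) (nat_lit 11765801)) (.cons (.br (nat_lit 11) (nat_lit 1) (.cons (.ev (nat_lit 309485009893403766586081536) (nat_lit 1)) (.cons (.br (nat_lit 12) (nat_lit 1) (.cons (.zr (nat_lit 928469196779656597240545280) (nat_lit 158457533954348572395045913089) (nat_lit 5) (nat_lit 10)) .nil)) .nil))) (.cons (.ev (nat_lit 4740885567111897874688) (nat_lit 1)) .nil)))),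
 (.br (nat_lit 1) (nat_lit 1) (.cons (.rf (nat_lit 58) (nat_lit 11765801)) (.cons (.rf (nat_lit 2305) (nat_lit 14684805930049)) (.cons (.ev (nat_lit 4740885567111897874688) (nat_lit 1)) .nil)))),
 (.br (nat_lit 8) (nat_lit 1) (.cons (.rf (nat_lit 2553) (nat_lit 493858305440582043680)) (.cons (.rf (nat_lit 2560) (nat_lit 493858305440582043680)) (.cons (.rf (nat_lit 2561) (nat_lit 493858305440582043680)) (.cons (.br (nat_lit 11) (nat_lit 1) (.cons (.rf (nat_lit 2562) (nat_lit 493858305440582043680)) (.cons (.rf (nat_lit 2563) (nat_lit 493858305440582043680)) (.cons (.br (nat_lit 11) (nat_lit 1) (.cons (.rf (nat_lit 2562) (nat_lit 493858305440582043680)) (.cons (.rf (nat_lit 2563) (nat_lit 493858305440582043680)) (.cons (.zr (nat_lit 55340233320674033664) (nat_lit 620188390195551985186373633) (nat_lit 5) (nat_lit 0)) .nil)))) (.cons (.br (nat_lit 11) (nat_lit 1) (.cons (.rf (nat_lit 2562) (nat_lit 493858305440582043680)) (.cons (.kr (nat_lit 1208925819614629174706176) (nat_lit 309485009821345068724781056)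 (nat_lit 10) (nat_lit 0)) (.cons (.zr (nat_lit 55340233320674033664) (nat_lit 620188390195551985186373633) (nat_lit 5) (nat_lit 0)) .nil)))) .nil))))) .nil))))),
 (.br (nat_lit 8) (nat_lit 1) (.cons (.rf (nat_lit 2553) (nat_lit 493858305440582043680)) (.cons (.rf (nat_lit 2560) (nat_lit 493858305440582043680)) (.cons (.rf (nat_lit 2561) (nat_lit 493858305440582043680)) (.cons (.rf (nat_lit 2564) (nat_lit 493858305440582043680)) (.cons (.br (nat_lit 8) (nat_lit 1) (.cons (.ev (nat_lit 1213666632842676336132353) (nat_lit 1)) (.cons (.rf (nat_lit 2560) (nat_lit 493858305440582043680)) (.cons (.rf (nat_lit 2561) (nat_lit 493858305440582043680)) (.cons (.rf (nat_lit 2564) (nat_lit 493858305440582043680)) .nil))))) .nil)))))),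
 (.br (nat_lit 13) (nat_lit 1) (.cons (.br (nat_lit 13) (nat_lit 1) (.cons (.ev (nat_lit 1213666704899170879144193) (nat_lit 1)) (.cons (.ev (nat_lit 310693935641242272387825921) (nat_lit 1)) (.cons (.ev (nat_lit 79229371458602754994272731136) (nat_lit 1)) .nil)))) (.cons (.br (nat_lit 13) (nat_lit 1) (.cons (.ev (nat_lit 1213666704899170879144193) (nat_lit 1)) (.cons (.ev (nat_lit 310693935641242272387825921) (nat_lit 1)) (.cons (.zr (nat_lit 60847228810955011271841787609088) (nat_lit 1208962713385355377115137) (nat_lit 5) (nat_lit 10)) .nil)))) (.cons (.ev (nat_lit 310693935641242272387825921) (nat_lit 1)) (.cons (.br (nat_lit 13) (nat_lit 1) (.cons (.ev (nat_lit 79229371458602754994272731136) (nat_lit 1)) (.cons (.zr (nat_lit 60847228810955011271841787609088) (nat_lit 1208962713385355377115137) (nat_lit 5) (nat_lit 10)) (.cons (.ev (nat_lit 310693935641242272387825921) (nat_lit 1)) .nil)))) .nil))))),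
 (.br (nat_lit 11) (nat_lit 1) (.cons (.kr (nat_lit 20361637766165934761540795302144) (nat_lit 309489750706629606117474304) (nat_lit 1) (nat_lit 0)) .nil)),
 (.br (nat_lit 12) (nat_lit 1) (.cons (.rf (nat_lit 2566) (nat_lit 493858305440582043680)) (.cons (.br (nat_lit 1) (nat_lit 1) (.cons (.ev (nat_lit 79538856468424380434167693313) (nat_lit 1)) (.cons (.br (nat_lit 11) (nat_lit 1) (.cons (.zr (nat_lit 237684487542793013880143676160) (nat_lit 620188390195551985203150849) (nat_lit 5) (nat_lit 0)) .nil)) .nil))) (.cons (.ev (nat_lit 79538856468352323939658104833) (nat_lit 1)) (.cons (.br (nat_lit 9) (nat_lit 1) (.cons (.rf (nat_lit 2567) (nat_lit 493858305440582043680)) (.cons (.ev (nat_lit 79229376162522492690696765441) (nat_lit 1)) (.cons (.zr (nat_lit 60847228810955011271841787609088) (nat_lit 1208962713385355377115137) (nat_lit 5) (nat_lit 10)) .nil)))) .nil))))),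
 (.br (nat_lit 12) (nat_lit 1) (.cons (.rf (nat_lit 2566) (nat_lit 493858305440582043680)) (.cons (.rf (nat_lit 2568) (nat_lit 493858305440582043680)) (.cons (.ev (nat_lit 79229371458530696300740018176) (nat_lit 1)) (.cons (.br (nat_lit 1) (nat_lit 1) (.cons (.kr (nat_lit 79228162514264337593544016128) (nat_lit 18518802767259107328) (nat_lit 1) (nat_lit 0)) (.cons (.br (nat_lit 7) (nat_lit 1) (.cons (.zr (nat_lit 928469196779656597223768064) (nat_lit 1208962713385355393892353) (nat_lit 5) (nat_lit 10)) .nil)) (.cons (.br (nat_lit 7) (nat_lit 1) (.cons (.zr (nat_lit 928469196563484914621612800) (nat_lit 158457533954348571295551193089) (nat_lit 5) (nat_lit 4)) .nil)) .nil)))) .nil))))),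
 (.br (nat_lit 12) (nat_lit 1) (.cons (.rf (nat_lit 2566) (nat_lit 493858305440582043680)) (.cons (.ev (nat_lit 79538856468352323939658104833) (nat_lit 1)) (.cons (.ev (nat_lit 79229371458530696300740018176) (nat_lit 1)) (.cons (.br (nat_lit 1) (nat_lit 1) (.cons (.kr (nat_lit 79228162514264337593543950592) (nat_lit 18446744073726328832) (nat_lit 1) (nat_lit 0)) (.cons (.br (nat_lit 7) (nat_lit 1) (.cons (.zr (nat_lit 928469196779656597223768064) (nat_lit 1208962713385355393892353) (nat_lit 5) (nat_lit 10)) .nil)) (.cons (.ev (nat_lit 310693935641242272387825921) (nat_lit 1)) .nil)))) .nil))))),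
 (.br (nat_lit 8) (nat_lit 1) (.cons (.rf (nat_lit 2553) (nat_lit 493858305440582043680)) (.cons (.rf (nat_lit 2560) (nat_lit 493858305440582043680)) (.cons (.rf (nat_lit 2565) (nat_lit 493858305440582043680)) (.cons (.br (nat_lit 12) (nat_lit 1) (.cons (.rf (nat_lit 2566) (nat_lit 493858305440582043680)) (.cons (.rf (nat_lit 2568) (nat_lit 493858305440582043680)) (.cons (.rf (nat_lit 2569) (nat_lit 493858305440582043680)) (.cons (.rf (nat_lit 2570) (nat_lit 493858305440582043680)) (.cons (.br (nat_lit 12) (nat_lit 1) (.cons (.rf (nat_lit 2566) (nat_lit 493858305440582043680)) (.cons (.rf (nat_lit 2568) (nat_lit 493858305440582043680)) (.cons (.rf (nat_lit 2569) (nat_lit 493858305440582043680)) (.cons (.rf (nat_lit 2570) (nat_lit 493858305440582043680)) .nil))))) .nil)))))) .nil))))),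
 (.br (nat_lit 8) (nat_lit 1) (.cons (.rf (nat_lit 2553) (nat_lit 493858305440582043680)) (.cons (.rf (nat_lit 2560) (nat_lit 493858305440582043680)) (.cons (.rf (nat_lit 2565) (nat_lit 493858305440582043680)) (.cons (.rf (nat_lit 2571) (nat_lit 493858305440582043680)) (.cons (.br (nat_lit 8) (nat_lit 1) (.cons (.rf (nat_lit 2553) (nat_lit 493858305440582043680)) (.cons (.rf (nat_lit 2560) (nat_lit 493858305440582043680)) (.cons (.rf (nat_lit 2565) (nat_lit 493858305440582043680)) (.cons (.rf (nat_lit 2571) (nat_lit 493858305440582043680)) .nil))))) .nil)))))),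
 (.br (nat_lit 8) (nat_lit 1) (.cons (.rf (nat_lit 2553) (nat_lit 493858305440582043680)) (.cons (.rf (nat_lit 2560) (nat_lit 493858305440582043680)) (.cons (.rf (nat_lit 2565) (nat_lit 493858305440582043680)) (.cons (.rf (nat_lit 2572) (nat_lit 493858305440582043680)) (.cons (.br (nat_lit 8) (nat_lit 1) (.cons (.rf (nat_lit 2553) (nat_lit 493858305440582043680)) (.cons (.rf (nat_lit 2560) (nat_lit 493858305440582043680)) (.cons (.rf (nat_lit 2565) (nat_lit 493858305440582043680)) (.cons (.rf (nat_lit 2572) (nat_lit 493858305440582043680)) .nil))))) .nil)))))),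
 (.br (nat_lit 8) (nat_lit 1) (.cons (.rf (nat_lit 2553) (nat_lit 493858305440582043680)) (.cons (.rf (nat_lit 2560) (nat_lit 493858305440582043680)) (.cons (.rf (nat_lit 2565) (nat_lit 493858305440582043680)) (.cons (.rf (nat_lit 2572) (nat_lit 493858305440582043680)) (.cons (.rf (nat_lit 2573) (nat_lit 493858305440582043680)) (.cons (.br (nat_lit 8) (nat_lit 1) (.cons (.rf (nat_lit 2553) (nat_lit 493858305440582043680)) (.cons (.rf (nat_lit 2560) (nat_lit 493858305440582043680)) (.cons (.rf (nat_lit 2565) (nat_lit 493858305440582043680)) (.cons (.rf (nat_lit 2572) (nat_lit 493858305440582043680)) (.cons (.rf (nat_lit 2573) (nat_lit 493858305440582043680)) .nil)))))) .nil))))))),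
 (.br (nat_lit 12) (nat_lit 1) (.cons (.ev (nat_lit 4740813508418331476224) (nat_lit 1)) (.cons (.br (nat_lit 12) (nat_lit 1) (.cons (.ev (nat_lit 4740813508418331476224) (nat_lit 1)) (.cons (.ev (nat_lit 20282409608374036907920703160576) (nat_lit 1)) .nil))) (.cons (.ev (nat_lit 20282409608374036907920703160576) (nat_lit 1)) .nil))))]

theorem c84 : chkAll C T R L84 (nat_lit 2551) = true := by decide +kernel

theorem l84 : (nat_lit 2551) + L84.length = (nat_lit 2576) := by decide +kernel

/-- part of the certificates -/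
def L85 : List Prf := [(.br (nat_lit 13) (nat_lit 1) (.cons (.rf (nat_lit 2575) (nat_lit 493858305440582043680)) (.cons (.br (nat_lit 8) (nat_lit 1) (.cons (.ev (nat_lit 20282410817299856802921047916801) (nat_lit 1)) (.cons (.ev (nat_lit 20282719088661492051590464405761) (nat_lit 1)) (.cons (.zr (nat_lit 55484349608227766528) (nat_lit 40644047369817605185496653234177) (nat_lit 5) (nat_lit 0)) .nil)))) .nil))),
 (.br (nat_lit 13) (nat_lit 1) (.cons (.rf (nat_lit 2575) (nat_lit 493858305440582043680)) (.cons (.rf (nat_lit 2576) (nat_lit 493858305440582043680)) (.cons (.br (nat_lit 13) (nat_lit 1) (.cons (.ev (nat_lit 20282409608374036907920703160576) (nat_lit 1)) (.cons (.rf (nat_lit 2576) (nat_lit 493858305440582043680)) .nil))) .nil)))),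
 (.br (nat_lit 12) (nat_lit 1) (.cons (.ev (nat_lit 79229376180969236764406317056) (nat_lit 1)) (.cons (.kr (nat_lit 1208925819896104151417088) (nat_lit 79228162514336395191876845568) (nat_lit 1) (nat_lit 0)) .nil))),
 (.br (nat_lit 8) (nat_lit 1) (.cons (.br (nat_lit 8) (nat_lit 1) (.cons (.rf (nat_lit 2578) (nat_lit 493858305440582043680)) (.cons (.rf (nat_lit 2575) (nat_lit 493858305440582043680)) .nil))) (.cons (.br (nat_lit 8) (nat_lit 1) (.cons (.rf (nat_lit 2578) (nat_lit 493858305440582043680)) (.cons (.ev (nat_lit 4740813508418331476224) (nat_lit 1)) .nil))) (.cons (.rf (nat_lit 2575) (nat_lit 493858305440582043680)) .nil)))),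
 (.br (nat_lit 13) (nat_lit 1) (.cons (.rf (nat_lit 2577) (nat_lit 493858305440582043680)) (.cons (.rf (nat_lit 2579) (nat_lit 493858305440582043680)) (.cons (.br (nat_lit 13) (nat_lit 1) (.cons (.rf (nat_lit 2577) (nat_lit 493858305440582043680)) (.cons (.rf (nat_lit 2579) (nat_lit 493858305440582043680)) .nil))) .nil)))),
 (.br (nat_lit 13) (nat_lit 1) (.cons (.rf (nat_lit 2577) (nat_lit 493858305440582043680)) (.cons (.rf (nat_lit 2579) (nat_lit 493858305440582043680)) (.cons (.rf (nat_lit 2580) (nat_lit 493858305440582043680)) (.cons (.br (nat_lit 13) (nat_lit 1) (.cons (.rf (nat_lit 2577) (nat_lit 493858305440582043680)) (.cons (.rf (nat_lit 2579) (nat_lit 493858305440582043680)) (.cons (.rf (nat_lit 2580) (nat_lit 493858305440582043680)) .nil)))) .nil))))),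
 (.br (nat_lit 7) (nat_lit 1) (.cons (.kr (nat_lit 4722366482869645213697) (nat_lit 18446745173221179392) (nat_lit 0) (nat_lit 1)) (.cons (.rf (nat_lit 84) (nat_lit 13164913890)) (.cons (.br (nat_lit 11) (nat_lit 1) (.cons (.ev (nat_lit 309489732187829042176655616) (nat_lit 1)) (.cons (.br (nat_lit 12) (nat_lit 1) (.cons (.ev (nat_lit 4740813508418331476224) (nat_lit 1)) (.cons (.zr (nat_lit 4835703279585516117295872) (nat_lit 159075304492904331068139765761) (nat_lit 5) (nat_lit 3)) .nil))) .nil))) (.cons (.rf (nat_lit 2575) (nat_lit 420143386739781765152)) .nil))))),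
 (.br (nat_lit 11) (nat_lit 1) (.cons (.rf (nat_lit 2581) (nat_lit 493858305440582043680)) (.cons (.ev (nat_lit 309489732187829042176655616) (nat_lit 1)) (.cons (.br (nat_lit 8) (nat_lit 1) (.cons (.br (nat_lit 12) (nat_lit 1) (.cons (.ev (nat_lit 79538856468424380434167693313) (nat_lit 1)) (.cons (.kr (nat_lit 1208925819896104151417088) (nat_lit 79228162514336395191876845568) (nat_lit 1) (nat_lit 0)) .nil))) (.cons (.ev (nat_lit 310698658007724042521411841) (nat_lit 1)) (.cons (.zr (nat_lit 158458742880168467399685702400) (nat_lit 618970056536181583420325889) (nat_lit 5) (nat_lit 3)) (.cons (.br (nat_lit 7) (nat_lit 1) (.cons (.rf (nat_lit 1593) (nat_lit 458532063527)) (.cons (.zr (nat_lit 55556407202265694208) (nat_lit 620178945462586245912723457) (nat_lit 5) (nat_lit 0)) (.cons (.ev (nat_lit 20282719088661492051590464405761) (nat_lit 1)) .nil)))) .nil))))) .nil)))),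
 (.br (nat_lit 11) (nat_lit 1) (.cons (.rf (nat_lit 2581) (nat_lit 493858305440582043680)) (.cons (.rf (nat_lit 2582) (nat_lit 493858305440582043680)) (.cons (.rf (nat_lit 2583) (nat_lit 493858305440582043680)) (.cons (.br (nat_lit 11) (nat_lit 1) (.cons (.rf (nat_lit 2581) (nat_lit 493858305440582043680)) (.cons (.rf (nat_lit 2582) (nat_lit 493858305440582043680)) (.cons (.rf (nat_lit 2583) (nat_lit 493858305440582043680)) .nil)))) .nil))))),
 (.br (nat_lit 13) (nat_lit 1) (.cons (.rf (nat_lit 2581) (nat_lit 420143386739781765152)) (.cons (.rf (nat_lit 2584) (nat_lit 420143386739781765152)) (.cons (.br (nat_lit 13) (nat_lit 1) (.cons (.rf (nat_lit 2581) (nat_lit 420143386739781765152)) (.cons (.rf (nat_lit 2584) (nat_lit 420143386739781765152)) .nil))) .nil)))),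
 (.br (nat_lit 13) (nat_lit 1) (.cons (.rf (nat_lit 2581) (nat_lit 420143386739781765152)) (.cons (.rf (nat_lit 2584) (nat_lit 420143386739781765152)) (.cons (.rf (nat_lit 2585) (nat_lit 493858305440582043680)) (.cons (.br (nat_lit 13) (nat_lit 1) (.cons (.rf (nat_lit 2581) (nat_lit 420143386739781765152)) (.cons (.rf (nat_lit 2584) (nat_lit 420143386739781765152)) (.cons (.rf (nat_lit 2585) (nat_lit 493858305440582043680)) .nil)))) .nil))))),
 (.br (nat_lit 11) (nat_lit 1) (.cons (.rf (nat_lit 2581) (nat_lit 493858305440582043680)) (.cons (.rf (nat_lit 2584) (nat_lit 493858305440582043680)) (.cons (.rf (nat_lit 2586) (nat_lit 493858305440582043680)) (.cons (.br (nat_lit 11) (nat_lit 1) (.cons (.rf (nat_lit 2581) (nat_lit 493858305440582043680)) (.cons (.rf (nat_lit 2584) (nat_lit 493858305440582043680)) (.cons (.rf (nat_lit 2586) (nat_lit 493858305440582043680)) .nil)))) .nil))))),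
 (.br (nat_lit 11) (nat_lit 1) (.cons (.rf (nat_lit 2581) (nat_lit 493858305440582043680)) (.cons (.rf (nat_lit 2584) (nat_lit 493858305440582043680)) (.cons (.rf (nat_lit 2586) (nat_lit 493858305440582043680)) (.cons (.rf (nat_lit 2587) (nat_lit 493858305440582043680)) (.cons (.br (nat_lit 11) (nat_lit 1) (.cons (.rf (nat_lit 2581) (nat_lit 493858305440582043680)) (.cons (.rf (nat_lit 2584) (nat_lit 493858305440582043680)) (.cons (.rf (nat_lit 2586) (nat_lit 493858305440582043680)) (.cons (.rf (nat_lit 2587) (nat_lit 493858305440582043680)) .nil))))) .nil)))))),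
 (.br (nat_lit 1) (nat_lit 1) (.cons (.zr (nat_lit 144679241835872513) (nat_lit 9481626453886726438912) (nat_lit 5) (nat_lit 3)) (.cons (.rf (nat_lit 1732) (nat_lit 445058394865376288)) (.cons (.rf (nat_lit 1343) (nat_lit 389106894887)) (.cons (.rf (nat_lit 1732) (nat_lit 447310194679061536)) .nil))))),
 (.br (nat_lit 1) (nat_lit 1) (.cons (.rf (nat_lit 84) (nat_lit 13165110306)) (.cons (.rf (nat_lit 1850) (nat_lit 458116648080022602816)) (.cons (.br (nat_lit 13) (nat_lit 1) (.cons (.ev (nat_lit 20282409608374108964415246172416) (nat_lit 1)) (.cons (.ev (nat_lit 20282410812595937065224623882496) (nat_lit 1)) .nil))) .nil)))),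
 (.br (nat_lit 8) (nat_lit 1) (.cons (.rf (nat_lit 2588) (nat_lit 493858305440582043680)) (.cons (.rf (nat_lit 2589) (nat_lit 493858305440582043680)) (.cons (.br (nat_lit 1) (nat_lit 1) (.cons (.rf (nat_lit 31) (nat_lit 411114785)) (.cons (.br (nat_lit 9) (nat_lit 1) (.cons (.rf (nat_lit 84) (nat_lit 13165110306)) (.cons (.rf (nat_lit 84) (nat_lit 12092417089)) (.cons (.br (nat_lit 13) (nat_lit 1) (.cons (.ev (nat_lit 310693954087986346097377536) (nat_lit 1)) (.cons (.rf (nat_lit 1386) (nat_lit 492671325463726164256)) .nil))) .nil)))) (.cons (.br (nat_lit 9) (nat_lit 1) (.cons (.rf (nat_lit 84) (nat_lit 12092409897)) (.cons (.rf (nat_lit 84) (nat_lit 14239893545)) .nil))) (.cons (.br (nat_lit 9) (nat_lit 1) (.cons (.br (nat_lit 11) (nat_lit 1) (.cons (.ev (nat_lit 79850768756171741588684407040) (nat_lit 2)) (.cons (.br (nat_lit 12) (nat_lit 1) (.cons (.ev (nat_lit 81085086869707861764142924038) (nat_lit 3)) .nil)) .nil))) (.cons (.rf (nat_lit 84) (nat_lit 14239900737)) (.cons (.rf (nat_lit 2001)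 (nat_lit 338238641203682336)) .nil)))) .nil))))) (.cons (.br (nat_lit 9) (nat_lit 1) (.cons (.rf (nat_lit 1593) (nat_lit 458733390113)) (.cons (.rf (nat_lit 2590) (nat_lit 493858305440582043680)) (.cons (.ev (nat_lit 1213703743348039439351810) (nat_lit 2)) (.cons (.rf (nat_lit 2590) (nat_lit 420143386739781765152)) .nil))))) .nil))))),
 (.br (nat_lit 8) (nat_lit 1) (.cons (.rf (nat_lit 2588) (nat_lit 493858305440582043680)) (.cons (.rf (nat_lit 2589) (nat_lit 493858305440582043680)) (.cons (.rf (nat_lit 2591) (nat_lit 493858305440582043680)) (.cons (.br (nat_lit 8) (nat_lit 1) (.cons (.rf (nat_lit 2588) (nat_lit 493858305440582043680)) (.cons (.rf (nat_lit 2589) (nat_lit 493858305440582043680)) (.cons (.rf (nat_lit 2591) (nat_lit 493858305440582043680)) (.cons (.rf (nat_lit 2591) (nat_lit 420143386739781765152)) .nil))))) (.cons (.rf (nat_lit 2591) (nat_lit 420143386739781765152)) .nil)))))),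
 (.br (nat_lit 7) (nat_lit 1) (.cons (.rf (nat_lit 84) (nat_lit 13165173794)) (.cons (.rf (nat_lit 84) (nat_lit 12092480577)) (.cons (.br (nat_lit 13) (nat_lit 1) (.cons (.ev (nat_lit 309489732259885536719667456) (nat_lit 1)) (.cons (.br (nat_lit 11) (nat_lit 1) (.cons (.ev (nat_lit 309489732259885536719667456) (nat_lit 1)) .nil)) .nil))) .nil)))),
 (.br (nat_lit 2) (nat_lit 1) (.cons (.rf (nat_lit 84) (nat_lit 5475795970)) (.cons (.rf (nat_lit 84) (nat_lit 7623279618)) .nil))),
 (.br (nat_lit 7) (nat_lit 1) (.cons (.rf (nat_lit 84) (nat_lit 13165173794)) (.cons (.br (nat_lit 11) (nat_lit 1) (.cons (.ev (nat_lit 309489732259885536719667456) (nat_lit 1)) (.cons (.br (nat_lit 12) (nat_lit 1) (.cons (.zr (nat_lit 928455029680212386351415296) (nat_lit 158457543399081537034824712705) (nat_lit 5) (nat_lit 10)) .nil)) .nil))) (.cons (.ev (nat_lit 4740885567111897874688) (nat_lit 1)) .nil)))),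
 (.br (nat_lit 13) (nat_lit 1) (.cons (.kr (nat_lit 309485009821346168236408832) (nat_lit 1213648186097498819919872) (nat_lit 5) (nat_lit 0)) (.cons (.zr (nat_lit 2422574005713227523031808) (nat_lit 158456325028673071854435434497) (nat_lit 5) (nat_lit 4)) .nil))),
 (.br (nat_lit 8) (nat_lit 1) (.cons (.rf (nat_lit 2588) (nat_lit 493858305440582043680)) (.cons (.rf (nat_lit 2592) (nat_lit 493858305440582043680)) (.cons (.br (nat_lit 1) (nat_lit 1) (.cons (.rf (nat_lit 31) (nat_lit 411116769)) (.cons (.rf (nat_lit 2593) (nat_lit 14242959524133701664)) (.cons (.rf (nat_lit 2594) (nat_lit 13263707201)) (.cons (.br (nat_lit 7) (nat_lit 1) (.cons (.br (nat_lit 11) (nat_lit 1) (.cons (.ev (nat_lit 310693954160042840640520448) (nat_lit 1)) (.cons (.kr (nat_lit 309485009821346168236408832) (nat_lit 1213648186097498819919872) (nat_lit 5) (nat_lit 0)) .nil))) (.cons (.rf (nat_lit 84) (nat_lit 14239964225)) (.cons (.rf (nat_lit 2336) (nat_lit 482213097159886880)) .nil)))) .nil))))) (.cons (.br (nat_lit 1)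 (nat_lit 1) (.cons (.rf (nat_lit 1593) (nat_lit 458800498913)) (.cons (.rf (nat_lit 2595) (nat_lit 493858305440582043680)) (.cons (.br (nat_lit 7) (nat_lit 1) (.cons (.rf (nat_lit 2596) (nat_lit 493858305440582043680)) (.cons (.ev (nat_lit 79228162514264620168049065984) (nat_lit 1)) (.cons (.rf (nat_lit 2596) (nat_lit 420143386739781765152)) .nil)))) (.cons (.rf (nat_lit 2595) (nat_lit 420143386739781765152)) .nil))))) .nil))))),
 (.br (nat_lit 8) (nat_lit 1) (.cons (.rf (nat_lit 2588) (nat_lit 493858305440582043680)) (.cons (.rf (nat_lit 2592) (nat_lit 493858305440582043680)) (.cons (.rf (nat_lit 2597) (nat_lit 493858305440582043680)) (.cons (.br (nat_lit 8) (nat_lit 1) (.cons (.rf (nat_lit 2588) (nat_lit 493858305440582043680)) (.cons (.rf (nat_lit 2592) (nat_lit 493858305440582043680)) (.cons (.rf (nat_lit 2597) (nat_lit 493858305440582043680)) (.cons (.rf (nat_lit 2597) (nat_lit 420143386739781765152)) .nil))))) (.cons (.rf (nat_lit 2597) (nat_lit 420143386739781765152)) .nil)))))),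
 (.br (nat_lit 12) (nat_lit 1) (.cons (.ev (nat_lit 79230589847602081639799259905) (nat_lit 2)) (.cons (.kr (nat_lit 79228167236630820463189164288) (nat_lit 18446745173237956608) (nat_lit 1) (nat_lit 0)) .nil))),
 (.br (nat_lit 7) (nat_lit 1) (.cons (.br (nat_lit 12) (nat_lit 1) (.cons (.zr (nat_lit 237684487543153301867512987648) (nat_lit 620188390195551980908315137) (nat_lit 5) (nat_lit 3)) .nil)) (.cons (.kr (nat_lit 79228167236630820463189164288) (nat_lit 18446745173237956608) (nat_lit 1) (nat_lit 0)) (.cons (.ev (nat_lit 20282410812595937065224623882496) (nat_lit 1)) .nil)))),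
 (.br (nat_lit 13) (nat_lit 1) (.cons (.rf (nat_lit 2600) (nat_lit 493858305440582043680)) (.cons (.br (nat_lit 11) (nat_lit 1) (.cons (.ev (nat_lit 310698658079782736087810305) (nat_lit 1)) (.cons (.ev (nat_lit 79538861172344120329614983168) (nat_lit 1)) (.cons (.zr (nat_lit 928455029464035206208094208) (nat_lit 1208962713385355377115137) (nat_lit 5) (nat_lit 10)) .nil)))) (.cons (.zr (nat_lit 928455029464035206208094208) (nat_lit 1208962713385355377115137) (nat_lit 5) (nat_lit 10)) (.cons (.br (nat_lit 13) (nat_lit 1) (.cons (.rf (nat_lit 2600) (nat_lit 493858305440582043680)) (.cons (.ev (nat_lit 20361638975110201402818184609793) (nat_lit 1)) (.cons (.zr (nat_lit 928455029464035206208094208) (nat_lit 1208962713385355377115137) (nat_lit 5) (nat_lit 10)) .nil)))) .nil))))),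
 (.br (nat_lit 8) (nat_lit 1) (.cons (.rf (nat_lit 2588) (nat_lit 493858305440582043680)) (.cons (.rf (nat_lit 2592) (nat_lit 493858305440582043680)) (.cons (.rf (nat_lit 2598) (nat_lit 493858305440582043680)) (.cons (.br (nat_lit 9) (nat_lit 1) (.cons (.ev (nat_lit 1213666632842676336132353) (nat_lit 1)) (.cons (.br (nat_lit 1) (nat_lit 1) (.cons (.rf (nat_lit 2599) (nat_lit 493858305440582043680)) (.cons (.zr (nat_lit 18447025557309947905) (nat_lit 158457533954492406103850091264) (nat_lit 5) (nat_lit 5)) (.cons (.rf (nat_lit 2599) (nat_lit 420143386739781765152)) .nil)))) (.cons (.rf (nat_lit 2601) (nat_lit 493858305440582043680)) (.cons (.ev (nat_lit 79229376180897180269896859648) (nat_lit 1)) (.cons (.rf (nat_lit 2601) (nat_lit 420143386739781765152)) .nil)))))) .nil))))),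
 (.br (nat_lit 8) (nat_lit 1) (.cons (.rf (nat_lit 2588) (nat_lit 493858305440582043680)) (.cons (.rf (nat_lit 2592) (nat_lit 493858305440582043680)) (.cons (.rf (nat_lit 2598) (nat_lit 493858305440582043680)) (.cons (.rf (nat_lit 2602) (nat_lit 493858305440582043680)) (.cons (.br (nat_lit 8) (nat_lit 1) (.cons (.rf (nat_lit 2588) (nat_lit 493858305440582043680)) (.cons (.rf (nat_lit 2592) (nat_lit 493858305440582043680)) (.cons (.rf (nat_lit 2598) (nat_lit 493858305440582043680)) (.cons (.rf (nat_lit 2602) (nat_lit 493858305440582043680)) .nil))))) .nil)))))),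
 (.br (nat_lit 10) (nat_lit 1) (.cons (.br (nat_lit 6) (nat_lit 1) (.cons (.br (nat_lit 10) (nat_lit 1) (.cons (.br (nat_lit 2) (nat_lit 1) (.cons (.br (nat_lit 8) (nat_lit 1) (.cons (.rf (nat_lit 2496) (nat_lit 493858305440582043680)) (.cons (.rf (nat_lit 2499) (nat_lit 493858305440582043680)) (.cons (.rf (nat_lit 2502) (nat_lit 493858305440582043680)) (.cons (.br (nat_lit 8) (nat_lit 1) (.cons (.rf (nat_lit 2496) (nat_lit 493858305440582043680)) (.cons (.rf (nat_lit 2499) (nat_lit 493858305440582043680)) (.cons (.rf (nat_lit 2502) (nat_lit 493858305440582043680)) (.cons (.rf (nat_lit 2502) (nat_lit 420143386739781765152)) .nil))))) (.cons (.rf (nat_lit 2502) (nat_lit 420143386739781765152)) .nil)))))) (.cons (.br (nat_lit 8) (nat_lit 1) (.cons (.rf (nat_lit 2504) (nat_lit 493858305440582043680)) (.cons (.rf (nat_lit 2507) (nat_lit 493858305440582043680)) (.cons (.rf (nat_lit 2510) (nat_lit 493858305440582043680)) (.cons (.br (nat_lit 8) (nat_lit 1) (.cons (.rf (nat_lit 2504) (nat_lit 493858305440582043680))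 (.cons (.rf (nat_lit 2507) (nat_lit 493858305440582043680)) (.cons (.rf (nat_lit 2510) (nat_lit 493858305440582043680)) (.cons (.rf (nat_lit 2510) (nat_lit 420143386739781765152)) .nil))))) (.cons (.rf (nat_lit 2510) (nat_lit 420143386739781765152)) .nil)))))) (.cons (.br (nat_lit 11) (nat_lit 1) (.cons (.rf (nat_lit 2525) (nat_lit 493858305440582043680)) (.cons (.rf (nat_lit 2534) (nat_lit 493858305440582043680)) (.cons (.rf (nat_lit 2538) (nat_lit 493858305440582043680)) (.cons (.rf (nat_lit 2540) (nat_lit 493858305440582043680)) (.cons (.rf (nat_lit 2541) (nat_lit 493858305440582043680)) (.cons (.br (nat_lit 11) (nat_lit 1) (.cons (.rf (nat_lit 2525) (nat_lit 493858305440582043680)) (.cons (.rf (nat_lit 2534) (nat_lit 493858305440582043680)) (.cons (.rf (nat_lit 2538) (nat_lit 493858305440582043680)) (.cons (.rf (nat_lit 2540) (nat_lit 493858305440582043680)) (.cons (.rf (nat_lit 2541) (nat_lit 493858305440582043680)) .nil)))))) .nil))))))) (.cons (.kr (nat_lit 1099511627776) (nat_lit 4722366482869645213696)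 (nat_lit 5) (nat_lit 0)) (.cons (.rf (nat_lit 2574) (nat_lit 493858305440582043680)) (.cons (.br (nat_lit 8) (nat_lit 1) (.cons (.rf (nat_lit 2588) (nat_lit 493858305440582043680)) (.cons (.rf (nat_lit 2592) (nat_lit 493858305440582043680)) (.cons (.rf (nat_lit 2598) (nat_lit 493858305440582043680)) (.cons (.rf (nat_lit 2603) (nat_lit 493858305440582043680)) (.cons (.br (nat_lit 8) (nat_lit 1) (.cons (.rf (nat_lit 2588) (nat_lit 493858305440582043680)) (.cons (.rf (nat_lit 2592) (nat_lit 493858305440582043680)) (.cons (.rf (nat_lit 2598) (nat_lit 493858305440582043680)) (.cons (.rf (nat_lit 2603) (nat_lit 493858305440582043680)) (.cons (.rf (nat_lit 2603) (nat_lit 420143386739781765152)) .nil)))))) (.cons (.rf (nat_lit 2603) (nat_lit 420143386739781765152)) .nil))))))) (.cons (.rf (nat_lit 2574) (nat_lit 420143386739781765152)) .nil)))))))) .nil)) .nil)) .nil))]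

theorem c85 : chkAll C T R L85 (nat_lit 2576) = true := by decide +kernel

theorem l85 : (nat_lit 2576) + L85.length = (nat_lit 2605) := by decide +kernel

/-- part of the certificates -/
def L86 : List Prf := [(.br (nat_lit 8) (nat_lit 1) (.cons (.br (nat_lit 11) (nat_lit 1) (.cons (.zr (nat_lit 55556409401288949760) (nat_lit 620188390195551985203150849) (nat_lit 5) (nat_lit 0)) (.cons (.kr (nat_lit 1208925819896104151417088) (nat_lit 309485009893402667057676288) (nat_lit 1) (nat_lit 0)) .nil))) (.cons (.br (nat_lit 12) (nat_lit 1) (.cons (.zr (nat_lit 2417851640355158256255745) (nat_lit 158456325065422164438330507264) (nat_lit 5) (nat_lit 3)) (.cons (.kr (nat_lit 4722366764344621924353) (nat_lit 79228162514264337597838983168) (nat_lit 0) (nat_lit 1)) .nil))) .nil))),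
 (.br (nat_lit 13) (nat_lit 1) (.cons (.rf (nat_lit 2605) (nat_lit 493858305440582043680)) (.cons (.br (nat_lit 8) (nat_lit 1) (.cons (.rf (nat_lit 2061) (nat_lit 411385926493869090)) (.cons (.zr (nat_lit 55556407202265694208) (nat_lit 40564820416229160744002965733377) (nat_lit 5) (nat_lit 0)) (.cons (.br (nat_lit 9) (nat_lit 1) (.cons (.zr (nat_lit 2417851639792212597801728) (nat_lit 9481626454986237935617) (nat_lit 5) (nat_lit 3)) .nil)) .nil)))) .nil))),
 (.br (nat_lit 13) (nat_lit 1) (.cons (.rf (nat_lit 2605) (nat_lit 493858305440582043680)) (.cons (.rf (nat_lit 2606) (nat_lit 493858305440582043680)) (.cons (.br (nat_lit 13) (nat_lit 1) (.cons (.rf (nat_lit 2605) (nat_lit 493858305440582043680)) (.cons (.rf (nat_lit 2606) (nat_lit 493858305440582043680)) .nil))) .nil)))),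
 (.br (nat_lit 8) (nat_lit 1) (.cons (.br (nat_lit 8) (nat_lit 1) (.cons (.zr (nat_lit 2417851639792212597801728) (nat_lit 9481626454986237935617) (nat_lit 5) (nat_lit 3)) (.cons (.rf (nat_lit 2607) (nat_lit 493858305440582043680)) .nil))) (.cons (.br (nat_lit 8) (nat_lit 1) (.cons (.zr (nat_lit 2417851639792212597801728) (nat_lit 9481626454986237935617) (nat_lit 5) (nat_lit 3)) (.cons (.rf (nat_lit 2607) (nat_lit 493858305440582043680)) .nil))) (.cons (.rf (nat_lit 2607) (nat_lit 493858305440582043680)) .nil)))),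
 (.br (nat_lit 13) (nat_lit 1) (.cons (.rf (nat_lit 2607) (nat_lit 493858305440582043680)) (.cons (.rf (nat_lit 2608) (nat_lit 493858305440582043680)) (.cons (.br (nat_lit 13) (nat_lit 1) (.cons (.rf (nat_lit 2607) (nat_lit 493858305440582043680)) (.cons (.zr (nat_lit 14167100011563184029698) (nat_lit 40564820416229160463623205683712) (nat_lit 5) (nat_lit 5)) .nil))) .nil)))),
 (.br (nat_lit 13) (nat_lit 1) (.cons (.rf (nat_lit 2607) (nat_lit 493858305440582043680)) (.cons (.rf (nat_lit 2608) (nat_lit 493858305440582043680)) (.cons (.rf (nat_lit 2609) (nat_lit 493858305440582043680)) (.cons (.br (nat_lit 13) (nat_lit 1) (.cons (.rf (nat_lit 2607) (nat_lit 493858305440582043680)) (.cons (.rf (nat_lit 2608) (nat_lit 493858305440582043680)) (.cons (.rf (nat_lit 2609) (nat_lit 493858305440582043680)) .nil)))) .nil))))),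
 (.br (nat_lit 12) (nat_lit 1) (.cons (.rf (nat_lit 84) (nat_lit 12092220642)) (.cons (.ev (nat_lit 79228167236630821566995824896) (nat_lit 1)) (.cons (.br (nat_lit 7) (nat_lit 1) (.cons (.ev (nat_lit 4740885284541687660544) (nat_lit 1)) (.cons (.br (nat_lit 11) (nat_lit 1) (.cons (.ev (nat_lit 79229371458602754994272731136) (nat_lit 1)) (.cons (.zr (nat_lit 928469196563484914621612800) (nat_lit 158457533954348571295551193089) (nat_lit 5) (nat_lit 4)) .nil))) (.cons (.br (nat_lit 13) (nat_lit 1) (.cons (.ev (nat_lit 79229371458602754994272731136) (nat_lit 1)) (.cons (.zr (nat_lit 4835703279584416605668096) (nat_lit 40723275532331869524185413976065) (nat_lit 5) (nat_lit 3)) .nil))) .nil)))) .nil)))),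
 (.br (nat_lit 12) (nat_lit 1) (.cons (.rf (nat_lit 2610) (nat_lit 493858305440582043680)) (.cons (.ev (nat_lit 79228167236630821566995824896) (nat_lit 1)) (.cons (.br (nat_lit 7) (nat_lit 1) (.cons (.zr (nat_lit 2417851640355158256255745) (nat_lit 158456325065422164438330507264) (nat_lit 5) (nat_lit 3)) (.cons (.br (nat_lit 8) (nat_lit 1) (.cons (.ev (nat_lit 79229371458602754994272731136) (nat_lit 1)) (.cons (.ev (nat_lit 1213666705181741055803393) (nat_lit 1)) .nil))) (.cons (.ev (nat_lit 309485009893684137739485184) (nat_lit 1)) (.cons (.br (nat_lit 8) (nat_lit 1) (.cons (.ev (nat_lit 79229376162450716567340581121) (nat_lit 1)) (.cons (.kr (nat_lit 1208925819896104151417088) (nat_lit 309485009893402667057676288) (nat_lit 1) (nat_lit 0)) (.cons (.br (nat_lit 9) (nat_lit 1) (.cons (.zr (nat_lit 2417851639792212597801728) (nat_lit 9481626454986237935617) (nat_lit 5) (nat_lit 3)) .nil)) .nil)))) .nil))))) .nil)))),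
 (.br (nat_lit 12) (nat_lit 1) (.cons (.rf (nat_lit 2610) (nat_lit 493858305440582043680)) (.cons (.rf (nat_lit 2611) (nat_lit 493858305440582043680)) (.cons (.rf (nat_lit 2612) (nat_lit 493858305440582043680)) (.cons (.br (nat_lit 12) (nat_lit 1) (.cons (.rf (nat_lit 2610) (nat_lit 493858305440582043680)) (.cons (.rf (nat_lit 2611) (nat_lit 493858305440582043680)) (.cons (.rf (nat_lit 2612) (nat_lit 493858305440582043680)) .nil)))) .nil))))),
 (.br (nat_lit 12) (nat_lit 1) (.cons (.rf (nat_lit 84) (nat_lit 8971691233)) (.cons (.ev (nat_lit 79228167236630821566995824896) (nat_lit 1)) (.cons (.br (nat_lit 7) (nat_lit 1) (.cons (.br (nat_lit 11) (nat_lit 1) (.cons (.ev (nat_lit 79538861172344120329614983168) (nat_lit 1)) (.cons (.kr (nat_lit 1208925819896104151417088) (nat_lit 309485009893402667057676288) (nat_lit 1) (nat_lit 0)) .nil))) (.cons (.ev (nat_lit 309485009893684137739485184) (nat_lit 1)) (.cons (.br (nat_lit 8) (nat_lit 1) (.cons (.kr (nat_lit 1208925819896104151417088) (nat_lit 309485009893402667057676288)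 (nat_lit 1) (nat_lit 0)) (.cons (.zr (nat_lit 4835703279584416605668096) (nat_lit 40723275532331869524185413976065) (nat_lit 5) (nat_lit 3)) .nil))) .nil)))) .nil)))),
 (.br (nat_lit 12) (nat_lit 1) (.cons (.rf (nat_lit 2610) (nat_lit 493858305440582043680)) (.cons (.rf (nat_lit 2613) (nat_lit 493858305440582043680)) (.cons (.rf (nat_lit 2614) (nat_lit 493858305440582043680)) (.cons (.br (nat_lit 12) (nat_lit 1) (.cons (.zr (nat_lit 2417851783908500185284864) (nat_lit 158456334473261640926395236353) (nat_lit 5) (nat_lit 3)) (.cons (.rf (nat_lit 2613) (nat_lit 493858305440582043680)) (.cons (.rf (nat_lit 2614) (nat_lit 493858305440582043680)) .nil)))) .nil))))),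
 (.br (nat_lit 12) (nat_lit 1) (.cons (.rf (nat_lit 2610) (nat_lit 493858305440582043680)) (.cons (.rf (nat_lit 2613) (nat_lit 493858305440582043680)) (.cons (.rf (nat_lit 2615) (nat_lit 493858305440582043680)) (.cons (.br (nat_lit 12) (nat_lit 1) (.cons (.rf (nat_lit 2610) (nat_lit 493858305440582043680)) (.cons (.rf (nat_lit 2613) (nat_lit 493858305440582043680)) (.cons (.rf (nat_lit 2615) (nat_lit 493858305440582043680)) .nil)))) .nil))))),
 (.br (nat_lit 12) (nat_lit 1) (.cons (.rf (nat_lit 2610) (nat_lit 493858305440582043680)) (.cons (.rf (nat_lit 2613) (nat_lit 493858305440582043680)) (.cons (.rf (nat_lit 2615) (nat_lit 493858305440582043680)) (.cons (.rf (nat_lit 2616) (nat_lit 493858305440582043680)) (.cons (.br (nat_lit 12) (nat_lit 1) (.cons (.rf (nat_lit 2610) (nat_lit 493858305440582043680)) (.cons (.rf (nat_lit 2613) (nat_lit 493858305440582043680)) (.cons (.rf (nat_lit 2615) (nat_lit 493858305440582043680)) (.cons (.rf (nat_lit 2616) (nat_lit 493858305440582043680)) .nil))))) .nil)))))),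
 (.br (nat_lit 8) (nat_lit 1) (.cons (.rf (nat_lit 31) (nat_lit 377718050)) (.cons (.br (nat_lit 11) (nat_lit 1) (.cons (.br (nat_lit 13) (nat_lit 1) (.cons (.kr (nat_lit 309485009821345068724846848) (nat_lit 18518802767259107328) (nat_lit 1) (nat_lit 0)) (.cons (.zr (nat_lit 55556409401288949760) (nat_lit 158457543399081537034841489409) (nat_lit 5) (nat_lit 0)) .nil))) (.cons (.br (nat_lit 12) (nat_lit 1) (.cons (.kr (nat_lit 309485009821345068724846848) (nat_lit 18518802767259107328) (nat_lit 1) (nat_lit 0)) (.cons (.zr (nat_lit 55556407202265694208) (nat_lit 40564820416229160744002965733377) (nat_lit 5) (nat_lit 0)) .nil))) .nil))) .nil))),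
 (.br (nat_lit 8) (nat_lit 1) (.cons (.br (nat_lit 13) (nat_lit 1) (.cons (.zr (nat_lit 2417851640073683279545088) (nat_lit 309489769081317185317568512) (nat_lit 5) (nat_lit 3)) (.cons (.ev (nat_lit 79228167236630821566995824896) (nat_lit 1)) .nil))) (.cons (.zr (nat_lit 2417851639792212597801728) (nat_lit 9481626454986237935617) (nat_lit 5) (nat_lit 3)) .nil))),
 (.br (nat_lit 8) (nat_lit 1) (.cons (.rf (nat_lit 2619) (nat_lit 493858305440582043680)) (.cons (.br (nat_lit 12) (nat_lit 1) (.cons (.ev (nat_lit 79229371458602754994272731136) (nat_lit 1)) (.cons (.ev (nat_lit 79228167236630821566995824896) (nat_lit 1)) .nil))) .nil))),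
 (.br (nat_lit 2) (nat_lit 1) (.cons (.br (nat_lit 9) (nat_lit 1) (.cons (.rf (nat_lit 58) (nat_lit 8685607)) (.cons (.rf (nat_lit 1343) (nat_lit 457785484513)) (.cons (.rf (nat_lit 2375) (nat_lit 15326147837717219360)) (.cons (.rf (nat_lit 2617) (nat_lit 309379329555133799722)) .nil))))) (.cons (.br (nat_lit 8) (nat_lit 1) (.cons (.rf (nat_lit 31) (nat_lit 377718050)) (.cons (.rf (nat_lit 2618) (nat_lit 493858305440582043680)) (.cons (.br (nat_lit 8) (nat_lit 1) (.cons (.rf (nat_lit 31) (nat_lit 377718050)) (.cons (.rf (nat_lit 2618) (nat_lit 493858305440582043680)) .nil))) .nil)))) (.cons (.rf (nat_lit 2617) (nat_lit 493858305440582043680)) (.cons (.rf (nat_lit 2617) (nat_lit 492741412732994160672)) (.cons (.br (nat_lit 9) (nat_lit 1) (.cons (.rf (nat_lit 2001) (nat_lit 48695625268758826)) (.cons (.br (nat_lit 11) (nat_lit 1) (.cons (.rf (nat_lit 84) (nat_lit 14238655714)) (.cons (.zr (nat_lit 2417851783908500185284864) (nat_lit 618979464375655876756897793) (nat_lit 5) (nat_lit 3)) (.cons (.rf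 (nat_lit 84) (nat_lit 9037751521)) .nil)))) (.cons (.br (nat_lit 8) (nat_lit 1) (.cons (.rf (nat_lit 2619) (nat_lit 493858305440582043680)) (.cons (.rf (nat_lit 2620) (nat_lit 493858305440582043680)) (.cons (.br (nat_lit 8) (nat_lit 1) (.cons (.zr (nat_lit 2417851639792212597801728) (nat_lit 9481626454986237935617) (nat_lit 5) (nat_lit 3)) (.cons (.rf (nat_lit 2620) (nat_lit 493858305440582043680)) .nil))) .nil)))) (.cons (.rf (nat_lit 2617) (nat_lit 309379329555133799722)) .nil))))) .nil)))))),
 (.br (nat_lit 2) (nat_lit 1) (.cons (.rf (nat_lit 31) (nat_lit 377783522)) (.cons (.rf (nat_lit 1339) (nat_lit 391085365537)) (.cons (.rf (nat_lit 1339) (nat_lit 288009525282)) (.cons (.rf (nat_lit 2617) (nat_lit 492741412732994160672)) (.cons (.br (nat_lit 7) (nat_lit 1) (.cons (.ev (nat_lit 4740885284541687660544) (nat_lit 1)) (.cons (.rf (nat_lit 84) (nat_lit 14238655714)) (.cons (.rf (nat_lit 2621) (nat_lit 492741412732994160672)) (.cons (.br (nat_lit 8) (nat_lit 1) (.cons (.br (nat_lit 11) (nat_lit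 1) (.cons (.ev (nat_lit 310693954159762469453561856) (nat_lit 1)) (.cons (.ev (nat_lit 309489732187829042176655616) (nat_lit 1)) .nil))) (.cons (.rf (nat_lit 84) (nat_lit 12093267017)) .nil))) .nil))))) .nil)))))),
 (.br (nat_lit 12) (nat_lit 1) (.cons (.rf (nat_lit 2617) (nat_lit 492741412732994160672)) (.cons (.rf (nat_lit 2621) (nat_lit 492741412732994160672)) (.cons (.rf (nat_lit 2622) (nat_lit 492741412732994160672)) (.cons (.br (nat_lit 2) (nat_lit 1) (.cons (.kr (nat_lit 1208925819896104151417088) (nat_lit 309485009893402667057676288) (nat_lit 1) (nat_lit 0)) (.cons (.br (nat_lit 7) (nat_lit 1) (.cons (.zr (nat_lit 4835703279584416605668608) (nat_lit 618979501413260316058320897) (nat_lit 5) (nat_lit 3)) .nil)) (.cons (.ev (nat_lit 20282410812577490321150914330881) (nat_lit 1)) .nil)))) .nil))))),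
 (.br (nat_lit 11) (nat_lit 1) (.cons (.rf (nat_lit 2617) (nat_lit 493858305440582043680)) (.cons (.rf (nat_lit 2621) (nat_lit 493858305440582043680)) (.cons (.rf (nat_lit 2622) (nat_lit 493858305440582043680)) (.cons (.br (nat_lit 12) (nat_lit 1) (.cons (.rf (nat_lit 2617) (nat_lit 492741412732994160672)) (.cons (.rf (nat_lit 2621) (nat_lit 492741412732994160672)) (.cons (.br (nat_lit 12) (nat_lit 1) (.cons (.rf (nat_lit 2617) (nat_lit 492741412732994160672)) (.cons (.rf (nat_lit 2621) (nat_lit 492741412732994160672)) (.cons (.rf (nat_lit 2622) (nat_lit 492741412732994160672)) (.cons (.kr (nat_lit 309485009821345068724781056) (nat_lit 79228162514264337593543950336) (nat_lit 11) (nat_lit 0)) .nil))))) (.cons (.rf (nat_lit 2623) (nat_lit 493858305440582043680)) (.cons (.br (nat_lit 12) (nat_lit 1) (.cons (.rf (nat_lit 2617) (nat_lit 492741412732994160672)) (.cons (.rf (nat_lit 2621) (nat_lit 492741412732994160672)) (.cons (.kr (nat_lit 309485009821345068724781056) (nat_lit 79228162514264337593543950336)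 (nat_lit 11) (nat_lit 0)) (.cons (.rf (nat_lit 2623) (nat_lit 493858305440582043680)) .nil))))) .nil)))))) .nil))))),
 (.br (nat_lit 11) (nat_lit 1) (.cons (.rf (nat_lit 2617) (nat_lit 493858305440582043680)) (.cons (.rf (nat_lit 2621) (nat_lit 493858305440582043680)) (.cons (.rf (nat_lit 2622) (nat_lit 493858305440582043680)) (.cons (.rf (nat_lit 2624) (nat_lit 493858305440582043680)) (.cons (.br (nat_lit 11) (nat_lit 1) (.cons (.rf (nat_lit 2617) (nat_lit 493858305440582043680)) (.cons (.rf (nat_lit 2621) (nat_lit 493858305440582043680)) (.cons (.rf (nat_lit 2622) (nat_lit 493858305440582043680)) (.cons (.rf (nat_lit 2624) (nat_lit 493858305440582043680)) .nil))))) .nil)))))),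
 (.br (nat_lit 12) (nat_lit 1) (.cons (.rf (nat_lit 2617) (nat_lit 492741412732994160672)) (.cons (.rf (nat_lit 2621) (nat_lit 492741412732994160672)) (.cons (.rf (nat_lit 2625) (nat_lit 492741412732994160672)) (.cons (.br (nat_lit 12) (nat_lit 1) (.cons (.rf (nat_lit 2617) (nat_lit 492741412732994160672)) (.cons (.rf (nat_lit 2621) (nat_lit 492741412732994160672)) (.cons (.rf (nat_lit 2625) (nat_lit 492741412732994160672)) .nil)))) .nil))))),
 (.br (nat_lit 12) (nat_lit 1) (.cons (.rf (nat_lit 2617) (nat_lit 492741412732994160672)) (.cons (.rf (nat_lit 2621) (nat_lit 492741412732994160672)) (.cons (.rf (nat_lit 2625) (nat_lit 492741412732994160672)) (.cons (.rf (nat_lit 2626) (nat_lit 493858305440582043680)) (.cons (.br (nat_lit 12) (nat_lit 1) (.cons (.rf (nat_lit 2617) (nat_lit 492741412732994160672)) (.cons (.rf (nat_lit 2621) (nat_lit 492741412732994160672)) (.cons (.rf (nat_lit 2625) (nat_lit 492741412732994160672)) (.cons (.rf (nat_lit 2626) (nat_lit 493858305440582043680)) .nil))))) .nil)))))),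
 (.br (nat_lit 11) (nat_lit 1) (.cons (.rf (nat_lit 2617) (nat_lit 493858305440582043680)) (.cons (.rf (nat_lit 2621) (nat_lit 493858305440582043680)) (.cons (.rf (nat_lit 2625) (nat_lit 493858305440582043680)) (.cons (.rf (nat_lit 2627) (nat_lit 493858305440582043680)) (.cons (.br (nat_lit 11) (nat_lit 1) (.cons (.rf (nat_lit 2617) (nat_lit 493858305440582043680)) (.cons (.rf (nat_lit 2621) (nat_lit 493858305440582043680)) (.cons (.rf (nat_lit 2625) (nat_lit 493858305440582043680)) (.cons (.rf (nat_lit 2627) (nat_lit 493858305440582043680)) .nil))))) .nil)))))),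
 (.br (nat_lit 11) (nat_lit 1) (.cons (.rf (nat_lit 2617) (nat_lit 493858305440582043680)) (.cons (.rf (nat_lit 2621) (nat_lit 493858305440582043680)) (.cons (.rf (nat_lit 2625) (nat_lit 493858305440582043680)) (.cons (.rf (nat_lit 2627) (nat_lit 493858305440582043680)) (.cons (.rf (nat_lit 2628) (nat_lit 493858305440582043680)) (.cons (.br (nat_lit 11) (nat_lit 1) (.cons (.rf (nat_lit 2617) (nat_lit 493858305440582043680)) (.cons (.rf (nat_lit 2621) (nat_lit 493858305440582043680)) (.cons (.rf (nat_lit 2625) (nat_lit 493858305440582043680)) (.cons (.rf (nat_lit 2627) (nat_lit 493858305440582043680)) (.cons (.rf (nat_lit 2628) (nat_lit 493858305440582043680)) .nil)))))) .nil)))))))]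

theorem c86 : chkAll C T R L86 (nat_lit 2605) = true := by decide +kernel

theorem l86 : (nat_lit 2605) + L86.length = (nat_lit 2630) := by decide +kernel

/-- part of the certificates -/
def L87 : List Prf := [(.br (nat_lit 9) (nat_lit 1) (.cons (.rf (nat_lit 82) (nat_lit 12093529122)) (.cons (.ev (nat_lit 20282410817299856522549894643713) (nat_lit 1)) (.cons (.br (nat_lit 8) (nat_lit 1) (.cons (.br (nat_lit 8) (nat_lit 1) (.cons (.ev (nat_lit 18519083142741033216) (nat_lit 1)) .nil)) (.cons (.br (nat_lit 11) (nat_lit 1) (.cons (.ev (nat_lit 18519083142741033216) (nat_lit 1)) (.cons (.rf (nat_lit 2361) (nat_lit 301052028308849962)) .nil))) .nil))) .nil)))),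
 (.br (nat_lit 13) (nat_lit 1) (.cons (.rf (nat_lit 1339) (nat_lit 287004923969)) (.cons (.rf (nat_lit 58) (nat_lit 13933602)) (.cons (.rf (nat_lit 2630) (nat_lit 493858305440582043680)) (.cons (.rf (nat_lit 2630) (nat_lit 492741412732994160672)) .nil))))),
 (.br (nat_lit 8) (nat_lit 1) (.cons (.rf (nat_lit 84) (nat_lit 12255798343)) (.cons (.br (nat_lit 9) (nat_lit 1) (.cons (.rf (nat_lit 84) (nat_lit 14238688481)) (.cons (.br (nat_lit 11) (nat_lit 1) (.cons (.br (nat_lit 12) (nat_lit 1) (.cons (.zr (nat_lit 14222439681929609478144) (nat_lit 158457533954348571295534415873) (nat_lit 5) (nat_lit 4)) .nil)) (.cons (.ev (nat_lit 20282409608392555991059132383233) (nat_lit 1)) .nil))) (.cons (.ev (nat_lit 20282410817318375323118113652736) (nat_lit 1)) .nil)))) (.cons (.ev (nat_lit 18519083142741033216) (nat_lit 1)) .nil)))),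
 (.br (nat_lit 7) (nat_lit 1) (.cons (.rf (nat_lit 1339) (nat_lit 458798372898)) (.cons (.rf (nat_lit 31) (nat_lit 444631335)) (.cons (.rf (nat_lit 2632) (nat_lit 493858305440582043680)) (.cons (.rf (nat_lit 2632) (nat_lit 492741412732994160672)) (.cons (.rf (nat_lit 1339) (nat_lit 287004923969)) .nil)))))),
 (.br (nat_lit 9) (nat_lit 1) (.cons (.ev (nat_lit 309489732187829042176655616) (nat_lit 1)) (.cons (.br (nat_lit 11) (nat_lit 1) (.cons (.ev (nat_lit 20361637766165934761545107046401) (nat_lit 1)) .nil)) .nil))),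
 (.br (nat_lit 8) (nat_lit 1) (.cons (.zr (nat_lit 60847228810955227446827202772992) (nat_lit 1218370553424793395266051) (nat_lit 5) (nat_lit 10)) (.cons (.rf (nat_lit 2634) (nat_lit 493858305440582043680)) (.cons (.rf (nat_lit 2634) (nat_lit 492741412732994160672)) .nil)))),
 (.br (nat_lit 7) (nat_lit 1) (.cons (.kr (nat_lit 72058693549555713) (nat_lit 18446744073726394368) (nat_lit 0) (nat_lit 1)) (.cons (.rf (nat_lit 2336) (nat_lit 300650908428180778)) (.cons (.rf (nat_lit 2336) (nat_lit 301776808335023402)) .nil)))),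
 (.br (nat_lit 8) (nat_lit 1) (.cons (.rf (nat_lit 2634) (nat_lit 493858305440582043680)) (.cons (.rf (nat_lit 2636) (nat_lit 493858305440582043680)) (.cons (.br (nat_lit 7) (nat_lit 1) (.cons (.ev (nat_lit 20282416890355892180494263189760) (nat_lit 3)) (.cons (.ev (nat_lit 20282719088680010571787530141696) (nat_lit 1)) (.cons (.ev (nat_lit 20361637766184453564312349310976) (nat_lit 1)) .nil)))) .nil)))),
 (.br (nat_lit 13) (nat_lit 1) (.cons (.rf (nat_lit 2631) (nat_lit 493858305440582043680)) (.cons (.rf (nat_lit 2633) (nat_lit 493858305440582043680)) (.cons (.rf (nat_lit 2629) (nat_lit 309379329555133799722)) (.cons (.br (nat_lit 8) (nat_lit 1) (.cons (.rf (nat_lit 2635) (nat_lit 493858305440582043680)) (.cons (.rf (nat_lit 2636) (nat_lit 493858305440582043680)) (.cons (.rf (nat_lit 2637) (nat_lit 493858305440582043680)) (.cons (.rf (nat_lit 2637) (nat_lit 492741412732994160672)) .nil))))) .nil))))),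
 (.br (nat_lit 13) (nat_lit 1) (.cons (.rf (nat_lit 2631) (nat_lit 493858305440582043680)) (.cons (.rf (nat_lit 2633) (nat_lit 493858305440582043680)) (.cons (.rf (nat_lit 2629) (nat_lit 309379329555133799722)) (.cons (.rf (nat_lit 2638) (nat_lit 493858305440582043680)) (.cons (.rf (nat_lit 2638) (nat_lit 492741412732994160672)) .nil)))))),
 (.br (nat_lit 9) (nat_lit 1) (.cons (.kr (nat_lit 20361637766165934761540795302144) (nat_lit 309489750706629606117474304) (nat_lit 1) (nat_lit 0)) .nil)),
 (.br (nat_lit 13) (nat_lit 1) (.cons (.ev (nat_lit 18519083142741033216) (nat_lit 1)) (.cons (.rf (nat_lit 2629) (nat_lit 309379329555133799722)) (.cons (.br (nat_lit 1) (nat_lit 1) (.cons (.kr (nat_lit 20282409603651670423947251351808) (nat_lit 4740885284537392693248) (nat_lit 1) (nat_lit 0)) (.cons (.rf (nat_lit 2640) (nat_lit 493858305440582043680)) (.cons (.rf (nat_lit 2640) (nat_lit 492741412732994160672)) .nil)))) .nil)))),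
 (.br (nat_lit 8) (nat_lit 1) (.cons (.rf (nat_lit 2629) (nat_lit 493858305440582043680)) (.cons (.rf (nat_lit 2639) (nat_lit 309379329555133799722)) (.cons (.br (nat_lit 13) (nat_lit 1) (.cons (.ev (nat_lit 18519083142741033216) (nat_lit 1)) (.cons (.rf (nat_lit 2629) (nat_lit 309379329555133799722)) (.cons (.rf (nat_lit 2641) (nat_lit 493858305440582043680)) (.cons (.rf (nat_lit 2641) (nat_lit 492741412732994160672)) .nil))))) (.cons (.br (nat_lit 1) (nat_lit 1) (.cons (.rf (nat_lit 31) (nat_lit 444827937)) (.cons (.br (nat_lit 9) (nat_lit 1) (.cons (.rf (nat_lit 84) (nat_lit 14238688295)) (.cons (.br (nat_lit 12) (nat_lit 1) (.cons (.zr (nat_lit 14222439680830131404800) (nat_lit 620178945606702533483429889) (nat_lit 5) (nat_lit 4)) (.cons (.kr (nat_lit 20282409603651670425046762914048) (nat_lit 4740813226943371542528) (nat_lit 1) (nat_lit 0)) .nil))) (.cons (.ev (nat_lit 20282410817299928579044404101121) (nat_lit 1)) .nil)))) (.cons (.ev (nat_lit 18519083142741033216) (nat_lit 1)) (.cons (.rf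 (nat_lit 2594) (nat_lit 14330111201)) .nil))))) .nil))))),
 (.br (nat_lit 8) (nat_lit 1) (.cons (.rf (nat_lit 2629) (nat_lit 493858305440582043680)) (.cons (.rf (nat_lit 2639) (nat_lit 309379329555133799722)) (.cons (.rf (nat_lit 2642) (nat_lit 493858305440582043680)) (.cons (.rf (nat_lit 2642) (nat_lit 492741412732994160672)) (.cons (.br (nat_lit 8) (nat_lit 1) (.cons (.ev (nat_lit 1208944266358707179290881) (nat_lit 1)) (.cons (.rf (nat_lit 1339) (nat_lit 458530003170)) (.cons (.rf (nat_lit 2642) (nat_lit 493858305440582043680)) (.cons (.rf (nat_lit 2642) (nat_lit 492741412732994160672)) .nil))))) .nil)))))),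
 (.br (nat_lit 9) (nat_lit 1) (.cons (.ev (nat_lit 20283032205208104834319677260034) (nat_lit 2)) (.cons (.br (nat_lit 11) (nat_lit 1) (.cons (.ev (nat_lit 20284268936413875531308345721092) (nat_lit 3)) .nil)) .nil))),
 (.br (nat_lit 7) (nat_lit 1) (.cons (.br (nat_lit 12) (nat_lit 1) (.cons (.kr (nat_lit 20282409603651670425046762914048) (nat_lit 4740813226943371542528) (nat_lit 1) (nat_lit 0)) (.cons (.zr (nat_lit 60847228810955011274040793891584) (nat_lit 620178945606701433971802113) (nat_lit 5) (nat_lit 4)) .nil))) (.cons (.br (nat_lit 1) (nat_lit 1) (.cons (.ev (nat_lit 1208944338417400745558273) (nat_lit 1)) (.cons (.br (nat_lit 11) (nat_lit 1) (.cons (.ev (nat_lit 79537657005928310439210582530) (nat_lit 2)) .nil)) .nil))) (.cons (.ev (nat_lit 20282720297605758410293365440513) (nat_lit 1)) (.cons (.br (nat_lit 1) (nat_lit 1) (.cons (.br (nat_lit 11) (nat_lit 1) (.cons (.zr (nat_lit 396140812571321687967720080640) (nat_lit 620188427233156420209737729) (nat_lit 5) (nat_lit 0)) .nil)) (.cons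 (.br (nat_lit 9) (nat_lit 1) (.cons (.zr (nat_lit 14222439680830131404800) (nat_lit 620178945606702533483429889) (nat_lit 5) (nat_lit 4)) .nil)) (.cons (.ev (nat_lit 20520094091194608397453302498050) (nat_lit 2)) .nil)))) .nil))))),
 (.br (nat_lit 13) (nat_lit 1) (.cons (.rf (nat_lit 2639) (nat_lit 493858305440582043680)) (.cons (.rf (nat_lit 2643) (nat_lit 493858305440582043680)) (.cons (.rf (nat_lit 2629) (nat_lit 309379329555133799722)) (.cons (.br (nat_lit 8) (nat_lit 1) (.cons (.ev (nat_lit 1208944266358707179290881) (nat_lit 1)) (.cons (.br (nat_lit 1) (nat_lit 1) (.cons (.zr (nat_lit 14222440243784312684544) (nat_lit 40564820416229160463623205683713) (nat_lit 5) (nat_lit 5)) (.cons (.rf (nat_lit 2644) (nat_lit 493858305440582043680)) (.cons (.rf (nat_lit 2644) (nat_lit 492741412732994160672)) .nil)))) (.cons (.ev (nat_lit 20282409608392483932365599539201) (nat_lit 1)) (.cons (.rf (nat_lit 2645) (nat_lit 493858305440582043680)) (.cons (.rf (nat_lit 2645) (nat_lit 492741412732994160672)) .nil))))))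 .nil))))),
 (.br (nat_lit 13) (nat_lit 1) (.cons (.rf (nat_lit 2639) (nat_lit 493858305440582043680)) (.cons (.rf (nat_lit 2643) (nat_lit 493858305440582043680)) (.cons (.rf (nat_lit 2629) (nat_lit 309379329555133799722)) (.cons (.rf (nat_lit 2646) (nat_lit 493858305440582043680)) (.cons (.rf (nat_lit 2646) (nat_lit 492741412732994160672)) .nil)))))),
 (.br (nat_lit 13) (nat_lit 1) (.cons (.rf (nat_lit 2639) (nat_lit 493858305440582043680)) (.cons (.rf (nat_lit 2643) (nat_lit 493858305440582043680)) (.cons (.rf (nat_lit 2647) (nat_lit 493858305440582043680)) (.cons (.rf (nat_lit 2629) (nat_lit 309379329555133799722)) (.cons (.br (nat_lit 13) (nat_lit 1) (.cons (.rf (nat_lit 2639) (nat_lit 493858305440582043680)) (.cons (.rf (nat_lit 2643) (nat_lit 493858305440582043680)) (.cons (.rf (nat_lit 2647) (nat_lit 493858305440582043680)) (.cons (.rf (nat_lit 2629) (nat_lit 309379329555133799722)) .nil))))) .nil)))))),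
 (.br (nat_lit 13) (nat_lit 1) (.cons (.rf (nat_lit 2639) (nat_lit 493858305440582043680)) (.cons (.rf (nat_lit 2643) (nat_lit 493858305440582043680)) (.cons (.rf (nat_lit 2647) (nat_lit 493858305440582043680)) (.cons (.rf (nat_lit 2629) (nat_lit 309379329555133799722)) (.cons (.rf (nat_lit 2648) (nat_lit 493858305440582043680)) (.cons (.rf (nat_lit 2648) (nat_lit 492741412732994160672)) .nil))))))),
 (.br (nat_lit 11) (nat_lit 1) (.cons (.rf (nat_lit 82) (nat_lit 13165168679)) (.cons (.rf (nat_lit 2594) (nat_lit 8993999143)) (.cons (.br (nat_lit 2) (nat_lit 1) (.cons (.kr (nat_lit 72058693549555713) (nat_lit 18446744073726394368) (nat_lit 0) (nat_lit 1)) (.cons (.br (nat_lit 8) (nat_lit 1) (.cons (.ev (nat_lit 4740813228047178203136) (nat_lit 1)) (.cons (.ev (nat_lit 316766917744969819305215748) (nat_lit 3)) .nil))) (.cons (.br (nat_lit 8) (nat_lit 1) (.cons (.ev (nat_lit 311902916872865250375959296) (nat_lit 2)) (.cons (.ev (nat_lit 4740813228047178203136) (nat_lit 1)) .nil))) .nil)))) .nil)))),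
 (.br (nat_lit 11) (nat_lit 1) (.cons (.rf (nat_lit 1343) (nat_lit 457792817191)) (.cons (.rf (nat_lit 1339) (nat_lit 390917822503)) (.cons (.rf (nat_lit 2650) (nat_lit 493858305440582043680)) (.cons (.br (nat_lit 11) (nat_lit 1) (.cons (.rf (nat_lit 82) (nat_lit 14238910503)) (.cons (.rf (nat_lit 2594) (nat_lit 9027553575)) (.cons (.rf (nat_lit 2650) (nat_lit 493858305440582043680)) .nil)))) .nil))))),
 (.br (nat_lit 1) (nat_lit 1) (.cons (.rf (nat_lit 29) (nat_lit 8690753)) (.cons (.rf (nat_lit 58) (nat_lit 8690722)) (.cons (.rf (nat_lit 2651) (nat_lit 493858305440582043680)) (.cons (.rf (nat_lit 2651) (nat_lit 492741412732994160672)) (.cons (.br (nat_lit 2) (nat_lit 1) (.cons (.kr (nat_lit 72058693549555713) (nat_lit 18446744073726394368) (nat_lit 0) (nat_lit 1)) (.cons (.rf (nat_lit 1732) (nat_lit 411281397660097568)) (.cons (.rf (nat_lit 1732) (nat_lit 447310194679061536)) (.cons (.br (nat_lit 8) (nat_lit 1) (.cons (.rf (nat_lit 82) (nat_lit 12255831265)) (.cons (.rf (nat_lit 82) (nat_lit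 13329573089)) (.cons (.ev (nat_lit 4740813228047178203136) (nat_lit 1)) .nil)))) .nil))))) .nil)))))),
 (.br (nat_lit 6) (nat_lit 1) (.cons (.br (nat_lit 7) (nat_lit 1) (.cons (.kr (nat_lit 281474976710656) (nat_lit 72057594037927936) (nat_lit 6) (nat_lit 0)) .nil)) .nil)),
 (.br (nat_lit 1) (nat_lit 1) (.cons (.rf (nat_lit 31) (nat_lit 205556896)) (.cons (.rf (nat_lit 31) (nat_lit 239111328)) (.cons (.br (nat_lit 6) (nat_lit 1) (.cons (.rf (nat_lit 2653) (nat_lit 9043225708576)) (.cons (.br (nat_lit 6) (nat_lit 1) (.cons (.rf (nat_lit 2653) (nat_lit 9043225708576)) .nil)) .nil))) .nil)))),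
 (.br (nat_lit 1) (nat_lit 1) (.cons (.rf (nat_lit 31) (nat_lit 377789505)) (.cons (.rf (nat_lit 2594) (nat_lit 12221417761)) (.cons (.br (nat_lit 2) (nat_lit 1) (.cons (.rf (nat_lit 84) (nat_lit 13165110337)) (.cons (.rf (nat_lit 84) (nat_lit 12092409897)) (.cons (.br (nat_lit 11) (nat_lit 1) (.cons (.ev (nat_lit 79228167236702878061538836736) (nat_lit 1)) (.cons (.br (nat_lit 12) (nat_lit 1) (.cons (.ev (nat_lit 21158561671271149852100728784136) (nat_lit 4)) .nil)) .nil))) .nil)))) (.cons (.br (nat_lit 2) (nat_lit 1) (.cons (.rf (nat_lit 84) (nat_lit 14238852161)) (.cons (.br (nat_lit 12) (nat_lit 1) (.cons (.ev (nat_lit 79850768756171741588684407040) (nat_lit 2)) (.cons (.ev (nat_lit 79228167255149622135248388353) (nat_lit 1)) .nil))) (.cons (.rf (nat_lit 2652) (nat_lit 309379329555133799722)) .nil)))) .nil))))),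
 (.br (nat_lit 12) (nat_lit 1) (.cons (.ev (nat_lit 79228167255077565640705376513) (nat_lit 1)) .nil)),
 (.br (nat_lit 8) (nat_lit 1) (.cons (.rf (nat_lit 2629) (nat_lit 493858305440582043680)) (.cons (.rf (nat_lit 2649) (nat_lit 493858305440582043680)) (.cons (.rf (nat_lit 2652) (nat_lit 493858305440582043680)) (.cons (.br (nat_lit 9) (nat_lit 1) (.cons (.rf (nat_lit 2654) (nat_lit 424438634561)) (.cons (.ev (nat_lit 4722438540467978108929) (nat_lit 1)) (.cons (.rf (nat_lit 2655) (nat_lit 493858305440582043680)) (.cons (.rf (nat_lit 2655) (nat_lit 492741412732994160672)) (.cons (.ev (nat_lit 1213666633123047522959361) (nat_lit 1)) .nil)))))) (.cons (.br (nat_lit 9) (nat_lit 1) (.cons (.br (nat_lit 2) (nat_lit 1) (.cons (.rf (nat_lit 31) (nat_lit 377560353)) (.cons (.br (nat_lit 12) (nat_lit 1) (.cons (.rf (nat_lit 2656) (nat_lit 493858305440582043680)) (.cons (.rf (nat_lit 2656) (nat_lit 420143386739781765152)) .nil))) (.cons (.rf (nat_lit 31) (nat_lit 444669217)) .nil)))) (.cons (.ev (nat_lit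 4722438540467978108929) (nat_lit 1)) (.cons (.br (nat_lit 1) (nat_lit 1) (.cons (.rf (nat_lit 31) (nat_lit 377789505)) (.cons (.rf (nat_lit 2594) (nat_lit 12254972193)) (.cons (.br (nat_lit 2) (nat_lit 1) (.cons (.rf (nat_lit 84) (nat_lit 13165110337)) (.cons (.rf (nat_lit 1850) (nat_lit 458116648080022602816)) (.cons (.br (nat_lit 11) (nat_lit 1) (.cons (.br (nat_lit 12) (nat_lit 1) (.cons (.ev (nat_lit 20283654820986977235564323013378) (nat_lit 3)) .nil)) (.cons (.ev (nat_lit 20282410812577490321150914330881) (nat_lit 1)) .nil))) .nil)))) (.cons (.br (nat_lit 2) (nat_lit 1) (.cons (.rf (nat_lit 84) (nat_lit 14238852161)) (.cons (.br (nat_lit 12) (nat_lit 1) (.cons (.br (nat_lit 12) (nat_lit 1) (.cons (.ev (nat_lit 79538861172344120329614983168) (nat_lit 1)) .nil)) (.cons (.ev (nat_lit 20282410812595937065224623882496) (nat_lit 1)) .nil))) (.cons (.ev (nat_lit 20282409603651742482645112586496) (nat_lit 1)) .nil)))) .nil))))) (.cons (.ev (nat_lit 1213666633123047522959361) (nat_lit 1)) (.cons (.rf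 (nat_lit 2629) (nat_lit 309379329555133799722)) .nil)))))) .nil)))))),
 (.br (nat_lit 8) (nat_lit 1) (.cons (.rf (nat_lit 2629) (nat_lit 493858305440582043680)) (.cons (.rf (nat_lit 2649) (nat_lit 493858305440582043680)) (.cons (.rf (nat_lit 2652) (nat_lit 493858305440582043680)) (.cons (.rf (nat_lit 2657) (nat_lit 493858305440582043680)) (.cons (.rf (nat_lit 2657) (nat_lit 492741412732994160672)) (.cons (.br (nat_lit 8) (nat_lit 1) (.cons (.rf (nat_lit 2629) (nat_lit 493858305440582043680)) (.cons (.rf (nat_lit 2649) (nat_lit 493858305440582043680)) (.cons (.rf (nat_lit 2652) (nat_lit 493858305440582043680)) (.cons (.rf (nat_lit 2657) (nat_lit 493858305440582043680)) (.cons (.rf (nat_lit 2657) (nat_lit 492741412732994160672)) .nil)))))) .nil))))))),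
 (.br (nat_lit 7) (nat_lit 1) (.cons (.rf (nat_lit 31) (nat_lit 377562337)) (.cons (.rf (nat_lit 2594) (nat_lit 12223513826)) (.cons (.br (nat_lit 1) (nat_lit 1) (.cons (.rf (nat_lit 84) (nat_lit 13165168679)) (.cons (.rf (nat_lit 84) (nat_lit 12092480546)) (.cons (.br (nat_lit 11) (nat_lit 1) (.cons (.ev (nat_lit 80159035450779892981386248705) (nat_lit 2)) (.cons (.br (nat_lit 12) (nat_lit 1) (.cons (.ev (nat_lit 20283648780969566301230889042437) (nat_lit 3)) .nil)) .nil))) .nil)))) (.cons (.rf (nat_lit 2649) (nat_lit 309379329555133799722)) .nil)))))]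

theorem c87 : chkAll C T R L87 (nat_lit 2630) = true := by decide +kernel

theorem l87 : (nat_lit 2630) + L87.length = (nat_lit 2660) := by decide +kernel

/-- part of the certificates -/
def L88 : List Prf := [(.br (nat_lit 7) (nat_lit 1) (.cons (.rf (nat_lit 84) (nat_lit 14238915649)) (.cons (.br (nat_lit 12) (nat_lit 1) (.cons (.br (nat_lit 12) (nat_lit 1) (.cons (.ev (nat_lit 21472386781416848667550625367818) (nat_lit 4)) .nil)) (.cons (.br (nat_lit 11) (nat_lit 1) (.cons (.ev (nat_lit 21472386781416848667550625367818) (nat_lit 4)) .nil)) .nil))) (.cons (.rf (nat_lit 84) (nat_lit 12093529122)) .nil)))),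
 (.br (nat_lit 2) (nat_lit 1) (.cons (.ev (nat_lit 4722438540467978108929) (nat_lit 1)) (.cons (.rf (nat_lit 2660) (nat_lit 493858305440582043680)) (.cons (.br (nat_lit 7) (nat_lit 1) (.cons (.br (nat_lit 11) (nat_lit 1) (.cons (.br (nat_lit 12) (nat_lit 1) (.cons (.zr (nat_lit 55340233320674033664) (nat_lit 158457543399081537034824712193) (nat_lit 5) (nat_lit 0)) .nil)) (.cons (.rf (nat_lit 2660) (nat_lit 309379329555133799722)) .nil))) (.cons (.br (nat_lit 12) (nat_lit 1) (.cons (.ev (nat_lit 79228162514336676662558654464) (nat_lit 1)) (.cons (.ev (nat_lit 79229376180969519334616531200) (nat_lit 1)) .nil))) (.cons (.zr (nat_lit 55484348513044856832) (nat_lit 3636222192654051744678401) (nat_lit 5) (nat_lit 0)) .nil)))) (.cons (.rf (nat_lit 2594) (nat_lit 14337449025)) .nil))))),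
 (.br (nat_lit 13) (nat_lit 1) (.cons (.rf (nat_lit 2661) (nat_lit 493858305440582043680)) (.cons (.rf (nat_lit 2658) (nat_lit 309379329555133799722)) (.cons (.rf (nat_lit 2649) (nat_lit 309379329555133799722)) (.cons (.br (nat_lit 2) (nat_lit 1) (.cons (.ev (nat_lit 20282410812577490321150914330881) (nat_lit 1)) (.cons (.ev (nat_lit 4722438540467978108929) (nat_lit 1)) (.cons (.br (nat_lit 1) (nat_lit 1) (.cons (.ev (nat_lit 20282719093383930592054164390145) (nat_lit 1)) (.cons (.br (nat_lit 7) (nat_lit 1) (.cons (.ev (nat_lit 80776824841981286171806204420) (nat_lit 3)) .nil)) .nil))) (.cons (.zr (nat_lit 55340232221162405888) (nat_lit 40564820416229160745102460583937) (nat_lit 5) (nat_lit 0)) .nil))))) .nil))))),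
 (.br (nat_lit 8) (nat_lit 1) (.cons (.rf (nat_lit 2629) (nat_lit 493858305440582043680)) (.cons (.rf (nat_lit 2649) (nat_lit 493858305440582043680)) (.cons (.rf (nat_lit 2658) (nat_lit 493858305440582043680)) (.cons (.br (nat_lit 2) (nat_lit 1) (.cons (.rf (nat_lit 2654) (nat_lit 424203819233)) (.cons (.ev (nat_lit 4722438540467978108929) (nat_lit 1)) (.cons (.rf (nat_lit 2659) (nat_lit 493858305440582043680)) (.cons (.rf (nat_lit 2659) (nat_lit 492741412732994160672)) (.cons (.rf (nat_lit 2658) (nat_lit 309379329555133799722)) .nil)))))) (.cons (.br (nat_lit 13) (nat_lit 1) (.cons (.rf (nat_lit 2661) (nat_lit 493858305440582043680)) (.cons (.rf (nat_lit 2658) (nat_lit 309379329555133799722)) (.cons (.rf (nat_lit 2649) (nat_lit 309379329555133799722)) (.cons (.rf (nat_lit 2662) (nat_lit 493858305440582043680)) (.cons (.br (nat_lit 13) (nat_lit 1) (.cons (.rf (nat_lit 2661) (nat_lit 493858305440582043680)) (.cons (.ev (nat_lit 20282409608392483932365599539201) (nat_lit 1)) (.cons (.rf (nat_lit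 2649) (nat_lit 309379329555133799722)) (.cons (.rf (nat_lit 2662) (nat_lit 493858305440582043680)) .nil))))) .nil)))))) .nil)))))),
 (.br (nat_lit 8) (nat_lit 1) (.cons (.rf (nat_lit 2629) (nat_lit 493858305440582043680)) (.cons (.rf (nat_lit 2649) (nat_lit 493858305440582043680)) (.cons (.rf (nat_lit 2658) (nat_lit 493858305440582043680)) (.cons (.rf (nat_lit 2663) (nat_lit 493858305440582043680)) (.cons (.rf (nat_lit 2663) (nat_lit 492741412732994160672)) (.cons (.br (nat_lit 8) (nat_lit 1) (.cons (.rf (nat_lit 2629) (nat_lit 493858305440582043680)) (.cons (.rf (nat_lit 2649) (nat_lit 493858305440582043680)) (.cons (.rf (nat_lit 2658) (nat_lit 493858305440582043680)) (.cons (.rf (nat_lit 2663) (nat_lit 493858305440582043680)) (.cons (.rf (nat_lit 2663) (nat_lit 492741412732994160672)) .nil)))))) .nil))))))),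
 (.br (nat_lit 7) (nat_lit 1) (.cons (.zr (nat_lit 928469196779656597223768064) (nat_lit 1208962713385355393892353) (nat_lit 5) (nat_lit 10)) (.cons (.ev (nat_lit 20282720302309749924113145659648) (nat_lit 1)) .nil))),
 (.br (nat_lit 7) (nat_lit 1) (.cons (.br (nat_lit 9) (nat_lit 1) (.cons (.zr (nat_lit 928469196779656597223768064) (nat_lit 1208962713385355393892353) (nat_lit 5) (nat_lit 10)) .nil)) (.cons (.ev (nat_lit 1213666633123047522959361) (nat_lit 1)) (.cons (.kr (nat_lit 79228162514264337593543950592) (nat_lit 18446744073726328832) (nat_lit 1) (nat_lit 0)) .nil)))),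
 (.br (nat_lit 13) (nat_lit 1) (.cons (.rf (nat_lit 2664) (nat_lit 309379329555133799722)) (.cons (.rf (nat_lit 2658) (nat_lit 309379329555133799722)) (.cons (.rf (nat_lit 2649) (nat_lit 309379329555133799722)) (.cons (.rf (nat_lit 2629) (nat_lit 309379329555133799722)) (.cons (.br (nat_lit 1) (nat_lit 1) (.cons (.ev (nat_lit 20282410812577490321150914330881) (nat_lit 1)) (.cons (.zr (nat_lit 55556407202265694208) (nat_lit 40564820416229160744002965733377) (nat_lit 5) (nat_lit 0)) (.cons (.br (nat_lit 2) (nat_lit 1) (.cons (.kr (nat_lit 20282409603651670423947251351808) (nat_lit 4740885284537392693248) (nat_lit 1) (nat_lit 0)) (.cons (.rf (nat_lit 2665) (nat_lit 493858305440582043680)) (.cons (.rf (nat_lit 2665) (nat_lit 492741412732994160672)) .nil)))) (.cons (.rf (nat_lit 2666) (nat_lit 493858305440582043680)) (.cons (.rf (nat_lit 2666) (nat_lit 492741412732994160672)) .nil)))))) .nil)))))),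
 (.br (nat_lit 8) (nat_lit 1) (.cons (.rf (nat_lit 2629) (nat_lit 493858305440582043680)) (.cons (.rf (nat_lit 2649) (nat_lit 493858305440582043680)) (.cons (.rf (nat_lit 2658) (nat_lit 493858305440582043680)) (.cons (.rf (nat_lit 2664) (nat_lit 493858305440582043680)) (.cons (.br (nat_lit 13) (nat_lit 1) (.cons (.rf (nat_lit 2664) (nat_lit 309379329555133799722)) (.cons (.rf (nat_lit 2658) (nat_lit 309379329555133799722)) (.cons (.rf (nat_lit 2649) (nat_lit 309379329555133799722)) (.cons (.rf (nat_lit 2629) (nat_lit 309379329555133799722)) (.cons (.rf (nat_lit 2667) (nat_lit 493858305440582043680)) (.cons (.rf (nat_lit 2667) (nat_lit 492741412732994160672)) .nil))))))) .nil)))))),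
 (.br (nat_lit 8) (nat_lit 1) (.cons (.rf (nat_lit 2629) (nat_lit 493858305440582043680)) (.cons (.rf (nat_lit 2649) (nat_lit 493858305440582043680)) (.cons (.rf (nat_lit 2658) (nat_lit 493858305440582043680)) (.cons (.rf (nat_lit 2664) (nat_lit 493858305440582043680)) (.cons (.rf (nat_lit 2668) (nat_lit 493858305440582043680)) (.cons (.br (nat_lit 8) (nat_lit 1) (.cons (.rf (nat_lit 2629) (nat_lit 493858305440582043680)) (.cons (.rf (nat_lit 2649) (nat_lit 493858305440582043680)) (.cons (.rf (nat_lit 2658) (nat_lit 493858305440582043680)) (.cons (.rf (nat_lit 2664) (nat_lit 493858305440582043680)) (.cons (.rf (nat_lit 2668) (nat_lit 493858305440582043680)) .nil)))))) .nil))))))),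
 (.br (nat_lit 7) (nat_lit 0) (.cons (.br (nat_lit 10) (nat_lit 1) (.cons (.rf (nat_lit 2471) (nat_lit 11584701642934304)) (.cons (.br (nat_lit 9) (nat_lit 0) (.cons (.br (nat_lit 10) (nat_lit 1) (.cons (.br (nat_lit 10) (nat_lit 1) (.cons (.br (nat_lit 8) (nat_lit 1) (.cons (.ev (nat_lit 282574488338689) (nat_lit 1)) (.cons (.rf (nat_lit 2479) (nat_lit 493858305440582043680)) (.cons (.ev (nat_lit 72058697844523009) (nat_lit 1)) (.cons (.rf (nat_lit 2484) (nat_lit 493858305440582043680)) (.cons (.rf (nat_lit 2494) (nat_lit 493858305440582043680)) (.cons (.rf (nat_lit 2494) (nat_lit 492741412732994160672)) (.cons (.rf (nat_lit 2494) (nat_lit 455883953382594021408)) .nil)))))))) .nil)) .nil)) (.cons (.rf (nat_lit 2471) (nat_lit 11584701642934304)) .nil))) .nil))) (.cons (.br (nat_lit 6) (nat_lit 1) (.cons (.rf (nat_lit 2604) (nat_lit 11584701642934304)) (.cons (.br (nat_lit 9) (nat_lit 0) (.cons (.rf (nat_lit 2604) (nat_lit 11584701642934304)) (.cons (.br (nat_lit 6) (nat_lit 1) (.cons (.br (nat_lit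 10) (nat_lit 1) (.cons (.br (nat_lit 8) (nat_lit 1) (.cons (.rf (nat_lit 2629) (nat_lit 493858305440582043680)) (.cons (.rf (nat_lit 2649) (nat_lit 493858305440582043680)) (.cons (.rf (nat_lit 2658) (nat_lit 493858305440582043680)) (.cons (.rf (nat_lit 2664) (nat_lit 493858305440582043680)) (.cons (.rf (nat_lit 2669) (nat_lit 493858305440582043680)) (.cons (.rf (nat_lit 2669) (nat_lit 492741412732994160672)) (.cons (.br (nat_lit 8) (nat_lit 1) (.cons (.rf (nat_lit 2629) (nat_lit 493858305440582043680)) (.cons (.rf (nat_lit 2649) (nat_lit 493858305440582043680)) (.cons (.rf (nat_lit 2658) (nat_lit 493858305440582043680)) (.cons (.rf (nat_lit 2664) (nat_lit 493858305440582043680)) (.cons (.rf (nat_lit 2669) (nat_lit 493858305440582043680)) (.cons (.rf (nat_lit 2669) (nat_lit 492741412732994160672)) .nil))))))) .nil)))))))) .nil)) .nil)) .nil))) .nil))) .nil))),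
 (.br (nat_lit 12) (nat_lit 1) (.cons (.kr (nat_lit 79228167255077564536898715904) (nat_lit 20282719088661563826610014060544) (nat_lit 1) (nat_lit 0)) .nil)),
 (.br (nat_lit 9) (nat_lit 1) (.cons (.ev (nat_lit 310698676454186645549220096) (nat_lit 1)) (.cons (.rf (nat_lit 2671) (nat_lit 493858305440582043680)) .nil))),
 (.br (nat_lit 11) (nat_lit 1) (.cons (.rf (nat_lit 31) (nat_lit 377789505)) (.cons (.br (nat_lit 8) (nat_lit 1) (.cons (.ev (nat_lit 4740813509517859946496) (nat_lit 1)) (.cons (.rf (nat_lit 2672) (nat_lit 493858305440582043680)) (.cons (.rf (nat_lit 2672) (nat_lit 458117738797769787424)) .nil)))) .nil))),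
 (.br (nat_lit 11) (nat_lit 1) (.cons (.rf (nat_lit 31) (nat_lit 377789505)) (.cons (.rf (nat_lit 2673) (nat_lit 493858305440582043680)) (.cons (.rf (nat_lit 2673) (nat_lit 458117738797769787424)) .nil)))),
 (.br (nat_lit 8) (nat_lit 1) (.cons (.rf (nat_lit 29) (nat_lit 8690753)) (.cons (.rf (nat_lit 2674) (nat_lit 493858305440582043680)) (.cons (.rf (nat_lit 1593) (nat_lit 459807138881)) .nil)))),
 (.br (nat_lit 8) (nat_lit 1) (.cons (.rf (nat_lit 29) (nat_lit 8690753)) (.cons (.rf (nat_lit 2674) (nat_lit 493858305440582043680)) (.cons (.rf (nat_lit 2675) (nat_lit 493858305440582043680)) (.cons (.rf (nat_lit 2675) (nat_lit 458117738797769787424)) .nil))))),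
 (.br (nat_lit 12) (nat_lit 1) (.cons (.ev (nat_lit 79228171959214323851298145025) (nat_lit 2)) (.cons (.ev (nat_lit 79537647524085682666580541441) (nat_lit 1)) .nil))),
 (.br (nat_lit 11) (nat_lit 1) (.cons (.rf (nat_lit 31) (nat_lit 377726017)) (.cons (.br (nat_lit 7) (nat_lit 1) (.cons (.ev (nat_lit 4740813509517859946496) (nat_lit 1)) (.cons (.rf (nat_lit 2677) (nat_lit 493858305440582043680)) (.cons (.rf (nat_lit 2677) (nat_lit 458117738797769787424)) .nil)))) .nil))),
 (.br (nat_lit 11) (nat_lit 1) (.cons (.rf (nat_lit 31) (nat_lit 377726017)) (.cons (.rf (nat_lit 2678) (nat_lit 493858305440582043680)) (.cons (.rf (nat_lit 2678) (nat_lit 458117738797769787424)) .nil)))),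
 (.br (nat_lit 8) (nat_lit 1) (.cons (.rf (nat_lit 29) (nat_lit 8690753)) (.cons (.rf (nat_lit 2679) (nat_lit 493858305440582043680)) (.cons (.ev (nat_lit 1208944266358707179290881) (nat_lit 1)) .nil)))),
 (.br (nat_lit 8) (nat_lit 1) (.cons (.rf (nat_lit 29) (nat_lit 8690753)) (.cons (.rf (nat_lit 2679) (nat_lit 493858305440582043680)) (.cons (.rf (nat_lit 2680) (nat_lit 493858305440582043680)) (.cons (.rf (nat_lit 2680) (nat_lit 458117738797769787424)) .nil))))),
 (.br (nat_lit 11) (nat_lit 1) (.cons (.ev (nat_lit 310698676454186645549220096) (nat_lit 1)) (.cons (.ev (nat_lit 310698658079500165877596161) (nat_lit 1)) .nil))),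
 (.br (nat_lit 9) (nat_lit 1) (.cons (.br (nat_lit 12) (nat_lit 1) (.cons (.ev (nat_lit 79849559867245051048907440899) (nat_lit 2)) (.cons (.zr (nat_lit 237684501709892461389567492864) (nat_lit 1208962713385355393892353) (nat_lit 5) (nat_lit 10)) .nil))) (.cons (.ev (nat_lit 79229371458603036464954474496) (nat_lit 1)) (.cons (.br (nat_lit 12) (nat_lit 1) (.cons (.zr (nat_lit 237684501709892461389567492864) (nat_lit 1208962713385355393892353) (nat_lit 5) (nat_lit 10)) (.cons (.rf (nat_lit 31) (nat_lit 449092673)) .nil))) .nil)))),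
 (.br (nat_lit 8) (nat_lit 1) (.cons (.rf (nat_lit 2676) (nat_lit 493858305440582043680)) (.cons (.rf (nat_lit 2681) (nat_lit 493858305440582043680)) (.cons (.br (nat_lit 7) (nat_lit 1) (.cons (.rf (nat_lit 246) (nat_lit 457825360961)) (.cons (.br (nat_lit 9) (nat_lit 1) (.cons (.kr (nat_lit 4722366482869645213697) (nat_lit 309485009821345068724846592) (nat_lit 0) (nat_lit 1)) (.cons (.rf (nat_lit 2682) (nat_lit 493858305440582043680)) (.cons (.rf (nat_lit 2682) (nat_lit 458117738797769787424)) .nil)))) (.cons (.rf (nat_lit 2683) (nat_lit 493858305440582043680)) (.cons (.rf (nat_lit 2683) (nat_lit 458117738797769787424)) .nil))))) .nil)))),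
 (.br (nat_lit 8) (nat_lit 1) (.cons (.rf (nat_lit 2676) (nat_lit 493858305440582043680)) (.cons (.rf (nat_lit 2681) (nat_lit 493858305440582043680)) (.cons (.rf (nat_lit 2684) (nat_lit 493858305440582043680)) (.cons (.rf (nat_lit 2684) (nat_lit 458117738797769787424)) .nil))))),
 (.br (nat_lit 8) (nat_lit 1) (.cons (.rf (nat_lit 2676) (nat_lit 493858305440582043680)) (.cons (.rf (nat_lit 2681) (nat_lit 493858305440582043680)) (.cons (.rf (nat_lit 2685) (nat_lit 493858305440582043680)) (.cons (.br (nat_lit 8) (nat_lit 1) (.cons (.rf (nat_lit 1593) (nat_lit 459807138881)) (.cons (.ev (nat_lit 1208944266358707179290881) (nat_lit 1)) (.cons (.rf (nat_lit 2685) (nat_lit 493858305440582043680)) .nil)))) .nil))))),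
 (.br (nat_lit 8) (nat_lit 1) (.cons (.rf (nat_lit 2676) (nat_lit 493858305440582043680)) (.cons (.rf (nat_lit 2681) (nat_lit 493858305440582043680)) (.cons (.rf (nat_lit 2685) (nat_lit 493858305440582043680)) (.cons (.rf (nat_lit 2686) (nat_lit 493858305440582043680)) (.cons (.rf (nat_lit 2686) (nat_lit 458117738797769787424)) .nil)))))),
 (.br (nat_lit 12) (nat_lit 1) (.cons (.rf (nat_lit 2594) (nat_lit 8966775873)) (.cons (.rf (nat_lit 2594) (nat_lit 8968870977)) (.cons (.br (nat_lit 7) (nat_lit 1) (.cons (.rf (nat_lit 29) (nat_lit 8455463)) (.cons (.br (nat_lit 9) (nat_lit 1) (.cons (.ev (nat_lit 79538856468424381533696033025) (nat_lit 1)) (.cons (.zr (nat_lit 14222655853612178079744) (nat_lit 158457533954348572395062689793) (nat_lit 5) (nat_lit 0)) .nil))) (.cons (.br (nat_lit 9) (nat_lit 1) (.cons (.zr (nat_lit 14222655853612178079744) (nat_lit 158457533954348572395062689793) (nat_lit 5) (nat_lit 0)) (.cons (.ev (nat_lit 20282409608392483650894917795841) (nat_lit 1)) .nil))) .nil)))) .nil)))),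
 (.br (nat_lit 12) (nat_lit 1) (.cons (.rf (nat_lit 1339) (nat_lit 424438470881)) (.cons (.rf (nat_lit 1339) (nat_lit 424371362081)) (.cons (.rf (nat_lit 2688) (nat_lit 493858305440582043680)) (.cons (.br (nat_lit 12) (nat_lit 1) (.cons (.rf (nat_lit 2594) (nat_lit 9033884737)) (.cons (.rf (nat_lit 2594) (nat_lit 9035979841)) (.cons (.rf (nat_lit 2688) (nat_lit 493858305440582043680)) .nil)))) .nil)))))]

theorem c88 : chkAll C T R L88 (nat_lit 2660) = true := by decide +kernel

theorem l88 : (nat_lit 2660) + L88.length = (nat_lit 2690) := by decide +kernel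

end Pool.Agent.H93.Neg.Q14_4_4_0_4_2
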