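import Pool.Agent.H93.Neg.TabQ14_4_4_0_4_2

/-!
Certificates.
-/

set_option autoImplicit false
set_option maxRecDepth 100000
set_option linter.all false

namespace Pool.Agent.H93.Neg.Q14_4_4_0_4_2

/-- part of the certificates -/
def L89 : List Prf := [(.br (nat_lit 13) (nat_lit 1) (.cons (.kr (nat_lit 309485009821345068741689344) (nat_lit 9463251767407037906944) (nat_lit 2) (nat_lit 0)) (.cons (.zr (nat_lit 237684487542793017178678362880) (nat_lit 620178945462586245912854529) (nat_lit 5) (nat_lit 4)) .nil))),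
 (.br (nat_lit 11) (nat_lit 1) (.cons (.rf (nat_lit 31) (nat_lit 377718050)) (.cons (.br (nat_lit 7) (nat_lit 1) (.cons (.ev (nat_lit 310693954159761369958777088) (nat_lit 1)) (.cons (.rf (nat_lit 2690) (nat_lit 493858305440582043680)) (.cons (.rf (nat_lit 2690) (nat_lit 458117738797769787424)) .nil)))) .nil))),
 (.br (nat_lit 11) (nat_lit 1) (.cons (.rf (nat_lit 31) (nat_lit 377718050)) (.cons (.rf (nat_lit 2691) (nat_lit 493858305440582043680)) (.cons (.rf (nat_lit 2691) (nat_lit 458117738797769787424)) .nil)))),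
 (.br (nat_lit 8) (nat_lit 1) (.cons (.rf (nat_lit 29) (nat_lit 8619298)) (.cons (.rf (nat_lit 2692) (nat_lit 493858305440582043680)) (.cons (.rf (nat_lit 1593) (nat_lit 459605810466)) .nil)))),
 (.br (nat_lit 8) (nat_lit 1) (.cons (.br (nat_lit 11) (nat_lit 1) (.cons (.ev (nat_lit 309485009893685237267824896) (nat_lit 1)) (.cons (.ev (nat_lit 310698676526244239587147776) (nat_lit 1)) .nil))) (.cons (.br (nat_lit 11) (nat_lit 1) (.cons (.br (nat_lit 11) (nat_lit 1) (.cons (.ev (nat_lit 21313932864869013795118831830278) (nat_lit 4)) .nil)) (.cons (.br (nat_lit 11) (nat_lit 1) (.cons (.ev (nat_lit 21313932864869013795118831830278) (nat_lit 4)) .nil)) .nil))) .nil))),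
 (.br (nat_lit 13) (nat_lit 1) (.cons (.rf (nat_lit 2694) (nat_lit 493858305440582043680)) (.cons (.br (nat_lit 8) (nat_lit 1) (.cons (.br (nat_lit 11) (nat_lit 1) (.cons (.zr (nat_lit 618979482894457544537866240) (nat_lit 158457533954348572395045913089) (nat_lit 5) (nat_lit 6)) .nil)) (.cons (.br (nat_lit 9) (nat_lit 1) (.cons (.ev (nat_lit 1213703671292644391256834) (nat_lit 2)) .nil)) (.cons (.ev (nat_lit 20282409603670117168025255870721) (nat_lit 1)) .nil)))) .nil))),
 (.br (nat_lit 13) (nat_lit 1) (.cons (.rf (nat_lit 2694) (nat_lit 493858305440582043680)) (.cons (.rf (nat_lit 2695) (nat_lit 493858305440582043680)) (.cons (.br (nat_lit 13) (nat_lit 1) (.cons (.rf (nat_lit 2694) (nat_lit 493858305440582043680)) (.cons (.rf (nat_lit 2695) (nat_lit 493858305440582043680)) .nil))) .nil)))),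
 (.br (nat_lit 8) (nat_lit 1) (.cons (.br (nat_lit 11) (nat_lit 1) (.cons (.ev (nat_lit 309485009893685237267824896) (nat_lit 1)) (.cons (.br (nat_lit 12) (nat_lit 1) (.cons (.ev (nat_lit 20837316259336859789788228683010) (nat_lit 3)) .nil)) .nil))) (.cons (.rf (nat_lit 2696) (nat_lit 493858305440582043680)) .nil))),
 (.br (nat_lit 8) (nat_lit 1) (.cons (.rf (nat_lit 2697) (nat_lit 493858305440582043680)) (.cons (.br (nat_lit 8) (nat_lit 1) (.cons (.rf (nat_lit 2697) (nat_lit 493858305440582043680)) (.cons (.rf (nat_lit 2696) (nat_lit 493858305440582043680)) .nil))) (.cons (.rf (nat_lit 2696) (nat_lit 493858305440582043680)) .nil)))),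
 (.br (nat_lit 13) (nat_lit 1) (.cons (.rf (nat_lit 2696) (nat_lit 493858305440582043680)) (.cons (.rf (nat_lit 2698) (nat_lit 493858305440582043680)) (.cons (.br (nat_lit 13) (nat_lit 1) (.cons (.rf (nat_lit 2696) (nat_lit 493858305440582043680)) (.cons (.rf (nat_lit 2698) (nat_lit 493858305440582043680)) .nil))) .nil)))),
 (.br (nat_lit 13) (nat_lit 1) (.cons (.rf (nat_lit 2696) (nat_lit 493858305440582043680)) (.cons (.rf (nat_lit 2698) (nat_lit 493858305440582043680)) (.cons (.rf (nat_lit 2699) (nat_lit 493858305440582043680)) (.cons (.br (nat_lit 13) (nat_lit 1) (.cons (.rf (nat_lit 2696) (nat_lit 493858305440582043680)) (.cons (.rf (nat_lit 2698) (nat_lit 493858305440582043680)) (.cons (.rf (nat_lit 2699) (nat_lit 493858305440582043680)) .nil)))) .nil))))),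
 (.br (nat_lit 11) (nat_lit 1) (.cons (.ev (nat_lit 79228162514336395191876911361) (nat_lit 1)) .nil)),
 (.br (nat_lit 7) (nat_lit 1) (.cons (.rf (nat_lit 84) (nat_lit 12222503970)) (.cons (.br (nat_lit 8) (nat_lit 1) (.cons (.rf (nat_lit 84) (nat_lit 13164911689)) (.cons (.br (nat_lit 11) (nat_lit 1) (.cons (.ev (nat_lit 79538856468424381533696033025) (nat_lit 1)) (.cons (.rf (nat_lit 2701) (nat_lit 15433072044983552032)) .nil))) .nil))) (.cons (.rf (nat_lit 84) (nat_lit 12092220642)) (.cons (.rf (nat_lit 2700) (nat_lit 458117738797769787424)) .nil))))),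
 (.br (nat_lit 7) (nat_lit 1) (.cons (.ev (nat_lit 309485009893402667057742081) (nat_lit 1)) .nil)),
 (.br (nat_lit 7) (nat_lit 1) (.cons (.ev (nat_lit 1213666632841576841216001) (nat_lit 1)) (.cons (.rf (nat_lit 2703) (nat_lit 15433072044983552032)) (.cons (.rf (nat_lit 2700) (nat_lit 458117738797769787424)) .nil)))),
 (.br (nat_lit 12) (nat_lit 1) (.cons (.rf (nat_lit 2700) (nat_lit 493858305440582043680)) (.cons (.rf (nat_lit 2702) (nat_lit 493858305440582043680)) (.cons (.br (nat_lit 13) (nat_lit 1) (.cons (.rf (nat_lit 2700) (nat_lit 458117738797769787424)) (.cons (.ev (nat_lit 79228162532711081671548535041) (nat_lit 1)) (.cons (.rf (nat_lit 2704) (nat_lit 493858305440582043680)) (.cons (.br (nat_lit 13) (nat_lit 1) (.cons (.rf (nat_lit 2700) (nat_lit 458117738797769787424)) (.cons (.ev (nat_lit 79228162532711081671548535041) (nat_lit 1)) (.cons (.rf (nat_lit 2704) (nat_lit 493858305440582043680)) .nil)))) .nil))))) .nil)))),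
 (.br (nat_lit 12) (nat_lit 1) (.cons (.rf (nat_lit 2700) (nat_lit 493858305440582043680)) (.cons (.rf (nat_lit 2702) (nat_lit 493858305440582043680)) (.cons (.rf (nat_lit 2705) (nat_lit 493858305440582043680)) (.cons (.br (nat_lit 12) (nat_lit 1) (.cons (.rf (nat_lit 2700) (nat_lit 493858305440582043680)) (.cons (.rf (nat_lit 2702) (nat_lit 493858305440582043680)) (.cons (.rf (nat_lit 2705) (nat_lit 493858305440582043680)) .nil)))) .nil))))),
 (.br (nat_lit 13) (nat_lit 1) (.cons (.rf (nat_lit 2700) (nat_lit 458117738797769787424)) (.cons (.rf (nat_lit 2706) (nat_lit 458117738797769787424)) (.cons (.br (nat_lit 13) (nat_lit 1) (.cons (.rf (nat_lit 2700) (nat_lit 458117738797769787424)) (.cons (.rf (nat_lit 2706) (nat_lit 458117738797769787424)) .nil))) .nil)))),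
 (.br (nat_lit 13) (nat_lit 1) (.cons (.rf (nat_lit 2700) (nat_lit 458117738797769787424)) (.cons (.rf (nat_lit 2706) (nat_lit 458117738797769787424)) (.cons (.rf (nat_lit 2707) (nat_lit 493858305440582043680)) (.cons (.br (nat_lit 13) (nat_lit 1) (.cons (.rf (nat_lit 2700) (nat_lit 458117738797769787424)) (.cons (.rf (nat_lit 2706) (nat_lit 458117738797769787424)) (.cons (.rf (nat_lit 2707) (nat_lit 493858305440582043680)) .nil)))) .nil))))),
 (.br (nat_lit 12) (nat_lit 1) (.cons (.rf (nat_lit 2700) (nat_lit 493858305440582043680)) (.cons (.rf (nat_lit 2706) (nat_lit 493858305440582043680)) (.cons (.rf (nat_lit 2708) (nat_lit 493858305440582043680)) (.cons (.br (nat_lit 12) (nat_lit 1) (.cons (.rf (nat_lit 2700) (nat_lit 493858305440582043680)) (.cons (.rf (nat_lit 2706) (nat_lit 493858305440582043680)) (.cons (.rf (nat_lit 2708) (nat_lit 493858305440582043680)) .nil)))) .nil))))),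
 (.br (nat_lit 8) (nat_lit 1) (.cons (.rf (nat_lit 84) (nat_lit 12222276647)) (.cons (.br (nat_lit 9) (nat_lit 1) (.cons (.rf (nat_lit 84) (nat_lit 13164913890)) (.cons (.rf (nat_lit 84) (nat_lit 12092220487)) (.cons (.br (nat_lit 11) (nat_lit 1) (.cons (.ev (nat_lit 310698658079500165877596161) (nat_lit 1)) (.cons (.br (nat_lit 12) (nat_lit 1) (.cons (.zr (nat_lit 1552260752385183860323058944) (nat_lit 554597147081621214808393121793) (nat_lit 5) (nat_lit 0)) .nil)) .nil))) .nil)))) (.cons (.br (nat_lit 9) (nat_lit 1) (.cons (.br (nat_lit 11) (nat_lit 1) (.cons (.ev (nat_lit 309489732260168106896326656) (nat_lit 1)) (.cons (.br (nat_lit 12) (nat_lit 1) (.cons (.zr (nat_lit 1547425049106725343624234240) (nat_lit 158457543436119141469848076289) (nat_lit 5) (nat_lit 0)) .nil)) .nil))) (.cons (.rf (nat_lit 84) (nat_lit 12092220487)) (.cons (.br (nat_lit 12) (nat_lit 1) (.cons (.br (nat_lit 11) (nat_lit 1) (.cons (.zr (nat_lit 237684501765448866392877039616) (nat_lit 1548633974926622551581918465) (nat_lit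 5) (nat_lit 10)) .nil)) (.cons (.ev (nat_lit 40644051010817503710214241845505) (nat_lit 2)) .nil))) .nil)))) .nil)))),
 (.br (nat_lit 12) (nat_lit 1) (.cons (.rf (nat_lit 2710) (nat_lit 493858305440582043680)) (.cons (.rf (nat_lit 84) (nat_lit 8971854913)) (.cons (.br (nat_lit 9) (nat_lit 1) (.cons (.br (nat_lit 11) (nat_lit 1) (.cons (.ev (nat_lit 79538861172344120329614983168) (nat_lit 1)) (.cons (.ev (nat_lit 310698658079500165877596161) (nat_lit 1)) .nil))) (.cons (.ev (nat_lit 309489732260168106896326656) (nat_lit 1)) (.cons (.br (nat_lit 11) (nat_lit 1) (.cons (.ev (nat_lit 310698658079500165877596161) (nat_lit 1)) (.cons (.ev (nat_lit 79538861172344120329614983168) (nat_lit 1)) .nil))) .nil)))) .nil)))),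
 (.br (nat_lit 12) (nat_lit 1) (.cons (.rf (nat_lit 2710) (nat_lit 493858305440582043680)) (.cons (.rf (nat_lit 2305) (nat_lit 14714803692609)) (.cons (.rf (nat_lit 2711) (nat_lit 493858305440582043680)) (.cons (.br (nat_lit 12) (nat_lit 1) (.cons (.rf (nat_lit 2710) (nat_lit 493858305440582043680)) (.cons (.kr (nat_lit 1208925819614629174706176) (nat_lit 79228162514264337593543950336) (nat_lit 10) (nat_lit 0)) (.cons (.rf (nat_lit 2711) (nat_lit 493858305440582043680)) .nil)))) .nil))))),
 (.br (nat_lit 7) (nat_lit 1) (.cons (.rf (nat_lit 84) (nat_lit 13262691362)) (.cons (.rf (nat_lit 84) (nat_lit 13164913890)) (.cons (.br (nat_lit 8) (nat_lit 1) (.cons (.ev (nat_lit 79228162514264337597838983424) (nat_lit 1)) (.cons (.br (nat_lit 12) (nat_lit 1) (.cons (.ev (nat_lit 79538856468424381533696033025) (nat_lit 1)) (.cons (.rf (nat_lit 2701) (nat_lit 15398169147871430688)) .nil))) .nil))) (.cons (.br (nat_lit 8) (nat_lit 1) (.cons (.br (nat_lit 11) (nat_lit 1) (.cons (.ev (nat_lit 79847132570801363614762729985)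 (nat_lit 2)) (.cons (.br (nat_lit 12) (nat_lit 1) (.cons (.zr (nat_lit 237684501765448870790856441856) (nat_lit 1548633974926621452087394305) (nat_lit 5) (nat_lit 4)) .nil)) .nil))) (.cons (.br (nat_lit 12) (nat_lit 1) (.cons (.br (nat_lit 12) (nat_lit 1) (.cons (.ev (nat_lit 20997017768588934904255018108686) (nat_lit 4)) .nil)) (.cons (.br (nat_lit 11) (nat_lit 1) (.cons (.ev (nat_lit 20997017768588934904255018108686) (nat_lit 4)) .nil)) .nil))) .nil))) .nil))))),
 (.br (nat_lit 9) (nat_lit 1) (.cons (.br (nat_lit 12) (nat_lit 1) (.cons (.ev (nat_lit 80160258525252776186645381889) (nat_lit 2)) .nil)) (.cons (.br (nat_lit 8) (nat_lit 1) (.cons (.ev (nat_lit 158457548140038880265817424130) (nat_lit 2)) .nil)) (.cons (.zr (nat_lit 141977486195581335669867148347136) (nat_lit 4859315113406139715289097) (nat_lit 20) (nat_lit 4)) .nil)))),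
 (.br (nat_lit 13) (nat_lit 1) (.cons (.rf (nat_lit 2714) (nat_lit 493858305440582043680)) (.cons (.br (nat_lit 7) (nat_lit 1) (.cons (.ev (nat_lit 1109503779302120055905612334606) (nat_lit 4)) .nil)) (.cons (.ev (nat_lit 20282409603670117168025255870721) (nat_lit 1)) .nil)))),
 (.br (nat_lit 13) (nat_lit 1) (.cons (.zr (nat_lit 141977486195581335669867148347136) (nat_lit 4859315113406139715289097) (nat_lit 20) (nat_lit 4)) (.cons (.rf (nat_lit 2715) (nat_lit 493858305440582043680)) (.cons (.br (nat_lit 7) (nat_lit 1) (.cons (.ev (nat_lit 80167512228320877329510500609) (nat_lit 4)) .nil)) .nil)))),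
 (.br (nat_lit 11) (nat_lit 1) (.cons (.rf (nat_lit 2712) (nat_lit 493858305440582043680)) (.cons (.rf (nat_lit 2713) (nat_lit 493858305440582043680)) (.cons (.br (nat_lit 13) (nat_lit 1) (.cons (.rf (nat_lit 2714) (nat_lit 493858305440582043680)) (.cons (.rf (nat_lit 2715) (nat_lit 493858305440582043680)) (.cons (.rf (nat_lit 2716) (nat_lit 493858305440582043680)) (.cons (.br (nat_lit 13) (nat_lit 1) (.cons (.rf (nat_lit 2714) (nat_lit 493858305440582043680)) (.cons (.ev (nat_lit 20282409603670117168025255870721) (nat_lit 1)) (.cons (.rf (nat_lit 2716) (nat_lit 493858305440582043680)) .nil)))) .nil))))) .nil)))),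
 (.br (nat_lit 11) (nat_lit 1) (.cons (.rf (nat_lit 2712) (nat_lit 493858305440582043680)) (.cons (.rf (nat_lit 2713) (nat_lit 493858305440582043680)) (.cons (.rf (nat_lit 2717) (nat_lit 493858305440582043680)) (.cons (.br (nat_lit 11) (nat_lit 1) (.cons (.rf (nat_lit 2712) (nat_lit 493858305440582043680)) (.cons (.rf (nat_lit 2713) (nat_lit 493858305440582043680)) (.cons (.rf (nat_lit 2717) (nat_lit 493858305440582043680)) .nil)))) .nil))))),
 (.br (nat_lit 11) (nat_lit 1) (.cons (.ev (nat_lit 309489732260168106896326656) (nat_lit 1)) (.cons (.rf (nat_lit 2718) (nat_lit 493858305440582043680)) (.cons (.br (nat_lit 7) (nat_lit 1) (.cons (.br (nat_lit 8) (nat_lit 1) (.cons (.rf (nat_lit 84) (nat_lit 12222274601)) (.cons (.br (nat_lit 12) (nat_lit 1) (.cons (.ev (nat_lit 20680719262218466068707644866820) (nat_lit 3)) .nil)) .nil))) (.cons (.rf (nat_lit 84) (nat_lit 8971918401)) (.cons (.br (nat_lit 8) (nat_lit 1) (.cons (.br (nat_lit 8) (nat_lit 1) (.cons (.zr (nat_lit 1547429771545265807307375875)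 (nat_lit 316915067982484121084963586048) (nat_lit 10) (nat_lit 0)) .nil)) (.cons (.zr (nat_lit 309508622014047387140555011) (nat_lit 81129640832458321490204954722304) (nat_lit 10) (nat_lit 0)) .nil))) .nil)))) .nil)))),
 (.br (nat_lit 11) (nat_lit 1) (.cons (.rf (nat_lit 2712) (nat_lit 493858305440582043680)) (.cons (.rf (nat_lit 2718) (nat_lit 493858305440582043680)) (.cons (.rf (nat_lit 2719) (nat_lit 493858305440582043680)) (.cons (.br (nat_lit 11) (nat_lit 1) (.cons (.rf (nat_lit 2712) (nat_lit 493858305440582043680)) (.cons (.rf (nat_lit 2718) (nat_lit 493858305440582043680)) (.cons (.rf (nat_lit 2719) (nat_lit 493858305440582043680)) .nil)))) .nil))))),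
 (.br (nat_lit 11) (nat_lit 1) (.cons (.rf (nat_lit 2712) (nat_lit 493858305440582043680)) (.cons (.rf (nat_lit 2718) (nat_lit 493858305440582043680)) (.cons (.rf (nat_lit 2720) (nat_lit 493858305440582043680)) (.cons (.br (nat_lit 11) (nat_lit 1) (.cons (.rf (nat_lit 2712) (nat_lit 493858305440582043680)) (.cons (.rf (nat_lit 2718) (nat_lit 493858305440582043680)) (.cons (.rf (nat_lit 2720) (nat_lit 493858305440582043680)) .nil)))) .nil)))))]

theorem c89 : chkAll C T R L89 (nat_lit 2690) = true := by decide +kernel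

theorem l89 : (nat_lit 2690) + L89.length = (nat_lit 2722) := by decide +kernel

/-- part of the certificates -/
def L90 : List Prf := [(.br (nat_lit 11) (nat_lit 1) (.cons (.rf (nat_lit 2712) (nat_lit 493858305440582043680)) (.cons (.rf (nat_lit 2718) (nat_lit 493858305440582043680)) (.cons (.rf (nat_lit 2720) (nat_lit 493858305440582043680)) (.cons (.rf (nat_lit 2721) (nat_lit 493858305440582043680)) (.cons (.br (nat_lit 11) (nat_lit 1) (.cons (.rf (nat_lit 2712) (nat_lit 493858305440582043680)) (.cons (.rf (nat_lit 2718) (nat_lit 493858305440582043680)) (.cons (.rf (nat_lit 2720) (nat_lit 493858305440582043680)) (.cons (.rf (nat_lit 2721) (nat_lit 493858305440582043680)) .nil))))) .nil)))))),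
 (.br (nat_lit 2) (nat_lit 1) (.cons (.rf (nat_lit 2687) (nat_lit 493858305234423613664)) (.cons (.br (nat_lit 8) (nat_lit 1) (.cons (.kr (nat_lit 1) (nat_lit 18446744073709551616) (nat_lit 0) (nat_lit 1)) (.cons (.rf (nat_lit 58) (nat_lit 8685607)) (.cons (.ev (nat_lit 18447026648197890304) (nat_lit 1)) (.cons (.rf (nat_lit 2689) (nat_lit 493858305440582043680)) (.cons (.rf (nat_lit 2689) (nat_lit 458117738797769787424)) .nil)))))) (.cons (.br (nat_lit 8) (nat_lit 1) (.cons (.rf (nat_lit 29) (nat_lit 8619298)) (.cons (.rf (nat_lit 2692) (nat_lit 493858305440582043680)) (.cons (.rf (nat_lit 2693) (nat_lit 493858305440582043680)) (.cons (.rf (nat_lit 2693) (nat_lit 458117738797769787424)) .nil))))) (.cons (.br (nat_lit 12) (nat_lit 1) (.cons (.rf (nat_lit 2700) (nat_lit 493858305440582043680)) (.cons (.rf (nat_lit 2706) (nat_lit 493858305440582043680)) (.cons (.rf (nat_lit 2708) (nat_lit 493858305440582043680)) (.cons (.rf (nat_lit 2709) (nat_lit 493858305440582043680)) (.cons (.br (nat_lit 12)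 (nat_lit 1) (.cons (.rf (nat_lit 2700) (nat_lit 493858305440582043680)) (.cons (.rf (nat_lit 2706) (nat_lit 493858305440582043680)) (.cons (.rf (nat_lit 2708) (nat_lit 493858305440582043680)) (.cons (.rf (nat_lit 2709) (nat_lit 493858305440582043680)) .nil))))) .nil)))))) (.cons (.rf (nat_lit 2722) (nat_lit 493858305440582043680)) (.cons (.rf (nat_lit 2722) (nat_lit 458117738797769787424)) .nil))))))),
 (.br (nat_lit 12) (nat_lit 1) (.cons (.ev (nat_lit 79849550422584142903621255171) (nat_lit 2)) (.cons (.zr (nat_lit 237684501710108634171681275904) (nat_lit 1208962713385355393892353) (nat_lit 5) (nat_lit 10)) .nil))),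
 (.br (nat_lit 8) (nat_lit 1) (.cons (.rf (nat_lit 31) (nat_lit 377719073)) (.cons (.br (nat_lit 2) (nat_lit 1) (.cons (.rf (nat_lit 29) (nat_lit 11766049)) (.cons (.rf (nat_lit 2724) (nat_lit 493858305440582043680)) (.cons (.rf (nat_lit 2724) (nat_lit 458117738797769787424)) .nil)))) .nil))),
 (.br (nat_lit 8) (nat_lit 1) (.cons (.rf (nat_lit 31) (nat_lit 377719073)) (.cons (.rf (nat_lit 2725) (nat_lit 493858305440582043680)) (.cons (.rf (nat_lit 2725) (nat_lit 458117738797769787424)) .nil)))),
 (.br (nat_lit 11) (nat_lit 1) (.cons (.rf (nat_lit 29) (nat_lit 11766049)) (.cons (.rf (nat_lit 2726) (nat_lit 493858305440582043680)) (.cons (.rf (nat_lit 1593) (nat_lit 459807230241)) .nil)))),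
 (.br (nat_lit 8) (nat_lit 1) (.cons (.rf (nat_lit 31) (nat_lit 411273505)) (.cons (.br (nat_lit 2) (nat_lit 1) (.cons (.br (nat_lit 11) (nat_lit 1) (.cons (.ev (nat_lit 310698676526244239587147776) (nat_lit 1)) (.cons (.ev (nat_lit 310693935713017296249225473) (nat_lit 1)) .nil))) (.cons (.ev (nat_lit 79229376180897461740578603008) (nat_lit 1)) (.cons (.br (nat_lit 13) (nat_lit 1) (.cons (.zr (nat_lit 60847228825122326893232803282944) (nat_lit 1208962713385355393892353) (nat_lit 5) (nat_lit 10)) (.cons (.ev (nat_lit 20440868351272796518260486046464) (nat_lit 2)) .nil))) .nil)))) .nil))),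
 (.br (nat_lit 8) (nat_lit 1) (.cons (.rf (nat_lit 31) (nat_lit 411273505)) (.cons (.rf (nat_lit 2728) (nat_lit 493858305440582043680)) (.cons (.br (nat_lit 8) (nat_lit 1) (.cons (.rf (nat_lit 31) (nat_lit 411273505)) (.cons (.rf (nat_lit 2728) (nat_lit 493858305440582043680)) .nil))) .nil)))),
 (.br (nat_lit 11) (nat_lit 1) (.cons (.zr (nat_lit 8462480739272737767555072) (nat_lit 475678483707239793774307574019) (nat_lit 15) (nat_lit 3)) .nil)),
 (.br (nat_lit 12) (nat_lit 1) (.cons (.rf (nat_lit 29) (nat_lit 12814625)) (.cons (.rf (nat_lit 2729) (nat_lit 493858305440582043680)) (.cons (.br (nat_lit 2) (nat_lit 1) (.cons (.br (nat_lit 8) (nat_lit 1) (.cons (.rf (nat_lit 2730) (nat_lit 493858305440582043680)) (.cons (.br (nat_lit 8) (nat_lit 1) (.cons (.rf (nat_lit 2730) (nat_lit 493858305440582043680)) .nil)) .nil))) (.cons (.rf (nat_lit 31) (nat_lit 414419233)) (.cons (.rf (nat_lit 31) (nat_lit 448863521)) .nil)))) .nil)))),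
 (.br (nat_lit 12) (nat_lit 1) (.cons (.rf (nat_lit 29) (nat_lit 12814625)) (.cons (.rf (nat_lit 2729) (nat_lit 493858305440582043680)) (.cons (.rf (nat_lit 2731) (nat_lit 493858305440582043680)) (.cons (.br (nat_lit 12) (nat_lit 1) (.cons (.rf (nat_lit 29) (nat_lit 12814625)) (.cons (.rf (nat_lit 2729) (nat_lit 493858305440582043680)) (.cons (.rf (nat_lit 2731) (nat_lit 493858305440582043680)) .nil)))) .nil))))),
 (.br (nat_lit 7) (nat_lit 1) (.cons (.rf (nat_lit 2687) (nat_lit 493858305234423613664)) (.cons (.rf (nat_lit 2723) (nat_lit 493858305234423613664)) (.cons (.br (nat_lit 11) (nat_lit 1) (.cons (.rf (nat_lit 29) (nat_lit 11766049)) (.cons (.rf (nat_lit 2726) (nat_lit 493858305440582043680)) (.cons (.rf (nat_lit 2727) (nat_lit 493858305440582043680)) (.cons (.rf (nat_lit 2727) (nat_lit 458117738797769787424)) .nil))))) (.cons (.rf (nat_lit 2732) (nat_lit 493858305440582043680)) (.cons (.rf (nat_lit 2732) (nat_lit 458117738797769787424)) .nil)))))),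
 (.br (nat_lit 8) (nat_lit 1) (.cons (.br (nat_lit 12) (nat_lit 1) (.cons (.ev (nat_lit 20366284948055597298376078199048) (nat_lit 4)) .nil)) .nil)),
 (.br (nat_lit 11) (nat_lit 1) (.cons (.rf (nat_lit 84) (nat_lit 13164944425)) (.cons (.rf (nat_lit 84) (nat_lit 9004424226)) (.cons (.br (nat_lit 8) (nat_lit 1) (.cons (.rf (nat_lit 2734) (nat_lit 493858305440582043680)) (.cons (.br (nat_lit 8) (nat_lit 1) (.cons (.rf (nat_lit 2734) (nat_lit 493858305440582043680)) .nil)) .nil))) .nil)))),
 (.br (nat_lit 8) (nat_lit 1) (.cons (.br (nat_lit 12) (nat_lit 1) (.cons (.ev (nat_lit 79228167255149622135248388353) (nat_lit 1)) .nil)) .nil)),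
 (.br (nat_lit 7) (nat_lit 1) (.cons (.br (nat_lit 11) (nat_lit 1) (.cons (.ev (nat_lit 79229376162450436196170530816) (nat_lit 1)) .nil)) .nil)),
 (.br (nat_lit 9) (nat_lit 1) (.cons (.br (nat_lit 11) (nat_lit 1) (.cons (.rf (nat_lit 84) (nat_lit 13165173794)) (.cons (.rf (nat_lit 84) (nat_lit 9004194857)) (.cons (.br (nat_lit 8) (nat_lit 1) (.cons (.rf (nat_lit 2736) (nat_lit 493858305440582043680)) (.cons (.br (nat_lit 12) (nat_lit 1) (.cons (.rf (nat_lit 2736) (nat_lit 493858305440582043680)) (.cons (.ev (nat_lit 20282719088661491769020287877121) (nat_lit 1)) .nil))) .nil))) .nil)))) (.cons (.rf (nat_lit 58) (nat_lit 11836450)) (.cons (.rf (nat_lit 1343) (nat_lit 275288269889)) (.cons (.br (nat_lit 11) (nat_lit 1) (.cons (.br (nat_lit 8) (nat_lit 1) (.cons (.rf (nat_lit 2737) (nat_lit 15433072045018188865)) (.cons (.br (nat_lit 12) (nat_lit 1) (.cons (.rf (nat_lit 2737) (nat_lit 15433072045018188865)) (.cons (.ev (nat_lit 20282720297587311666219655888896) (nat_lit 1)) .nil))) .nil))) (.cons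 (.rf (nat_lit 84) (nat_lit 14372903977)) (.cons (.rf (nat_lit 84) (nat_lit 13332945954)) .nil)))) .nil))))),
 (.br (nat_lit 8) (nat_lit 1) (.cons (.br (nat_lit 11) (nat_lit 1) (.cons (.ev (nat_lit 310698658007442571839668481) (nat_lit 1)) (.cons (.ev (nat_lit 310698676526244239587147776) (nat_lit 1)) .nil))) (.cons (.br (nat_lit 12) (nat_lit 1) (.cons (.zr (nat_lit 79231794014089664350763942144) (nat_lit 73787541452404817922) (nat_lit 10) (nat_lit 10)) (.cons (.ev (nat_lit 40644048583521204137951060230659) (nat_lit 2)) .nil))) .nil))),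
 (.br (nat_lit 13) (nat_lit 1) (.cons (.rf (nat_lit 2739) (nat_lit 493858305440582043680)) (.cons (.br (nat_lit 9) (nat_lit 1) (.cons (.ev (nat_lit 20282409608392555708488955724033) (nat_lit 1)) (.cons (.zr (nat_lit 928455029680207988288323584) (nat_lit 40564820416229160745102477361153) (nat_lit 5) (nat_lit 0)) (.cons (.br (nat_lit 8) (nat_lit 1) (.cons (.ev (nat_lit 310698658007442571839668481) (nat_lit 1)) .nil)) .nil)))) .nil))),
 (.br (nat_lit 13) (nat_lit 1) (.cons (.rf (nat_lit 2739) (nat_lit 493858305440582043680)) (.cons (.rf (nat_lit 2740) (nat_lit 493858305440582043680)) (.cons (.br (nat_lit 13) (nat_lit 1) (.cons (.rf (nat_lit 2739) (nat_lit 493858305440582043680)) (.cons (.rf (nat_lit 2740) (nat_lit 493858305440582043680)) .nil))) .nil)))),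
 (.br (nat_lit 8) (nat_lit 1) (.cons (.br (nat_lit 12) (nat_lit 1) (.cons (.ev (nat_lit 310698676526244239587147776) (nat_lit 1)) (.cons (.zr (nat_lit 237684487542793017178678362880) (nat_lit 1218407446349995172691969) (nat_lit 5) (nat_lit 4)) .nil))) (.cons (.rf (nat_lit 2741) (nat_lit 493858305440582043680)) .nil))),
 (.br (nat_lit 8) (nat_lit 1) (.cons (.rf (nat_lit 2742) (nat_lit 493858305440582043680)) (.cons (.br (nat_lit 8) (nat_lit 1) (.cons (.rf (nat_lit 2742) (nat_lit 493858305440582043680)) (.cons (.rf (nat_lit 2741) (nat_lit 493858305440582043680)) .nil))) (.cons (.rf (nat_lit 2741) (nat_lit 493858305440582043680)) .nil)))),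
 (.br (nat_lit 13) (nat_lit 1) (.cons (.rf (nat_lit 2741) (nat_lit 493858305440582043680)) (.cons (.rf (nat_lit 2743) (nat_lit 493858305440582043680)) (.cons (.br (nat_lit 13) (nat_lit 1) (.cons (.rf (nat_lit 2741) (nat_lit 493858305440582043680)) (.cons (.rf (nat_lit 2743) (nat_lit 493858305440582043680)) .nil))) .nil)))),
 (.br (nat_lit 13) (nat_lit 1) (.cons (.rf (nat_lit 2741) (nat_lit 493858305440582043680)) (.cons (.rf (nat_lit 2743) (nat_lit 493858305440582043680)) (.cons (.rf (nat_lit 2744) (nat_lit 493858305440582043680)) (.cons (.br (nat_lit 13) (nat_lit 1) (.cons (.rf (nat_lit 2741) (nat_lit 493858305440582043680)) (.cons (.rf (nat_lit 2743) (nat_lit 493858305440582043680)) (.cons (.rf (nat_lit 2744) (nat_lit 493858305440582043680)) .nil)))) .nil))))),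
 (.br (nat_lit 2) (nat_lit 1) (.cons (.rf (nat_lit 84) (nat_lit 13262431303)) (.cons (.rf (nat_lit 84) (nat_lit 13165168679)) (.cons (.br (nat_lit 11) (nat_lit 1) (.cons (.ev (nat_lit 79228162514264337597838983424) (nat_lit 1)) (.cons (.br (nat_lit 12) (nat_lit 1) (.cons (.ev (nat_lit 79538856468424381533696033025) (nat_lit 1)) (.cons (.zr (nat_lit 237684501709892461389584270080) (nat_lit 620178945606702533483429889) (nat_lit 5) (nat_lit 10)) .nil))) .nil))) (.cons (.br (nat_lit 8) (nat_lit 1) (.cons (.br (nat_lit 13) (nat_lit 1) (.cons (.br (nat_lit 12) (nat_lit 1) (.cons (.ev (nat_lit 79229371458603036464954474496) (nat_lit 1)) .nil)) (.cons (.ev (nat_lit 79229371458603036464954474496) (nat_lit 1)) .nil))) (.cons (.br (nat_lit 13) (nat_lit 1) (.cons (.ev (nat_lit 20282412021503454050972493480451) (nat_lit 2)) (.cons (.ev (nat_lit 20282409608392555708488955724033) (nat_lit 1)) .nil))) .nil))) .nil))))),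
 (.br (nat_lit 8) (nat_lit 1) (.cons (.rf (nat_lit 84) (nat_lit 12222440513)) (.cons (.rf (nat_lit 2746) (nat_lit 493858305440582043680)) (.cons (.br (nat_lit 2) (nat_lit 1) (.cons (.br (nat_lit 11) (nat_lit 1) (.cons (.ev (nat_lit 79229371458603036464954474496) (nat_lit 1)) (.cons (.br (nat_lit 12) (nat_lit 1) (.cons (.zr (nat_lit 928469196779656597240545280) (nat_lit 158457533954348572395045913089) (nat_lit 5) (nat_lit 6)) .nil)) .nil))) (.cons (.rf (nat_lit 84) (nat_lit 12092480577)) (.cons (.ev (nat_lit 4740885567111897874688) (nat_lit 1)) .nil)))) .nil)))),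
 (.br (nat_lit 8) (nat_lit 1) (.cons (.rf (nat_lit 2745) (nat_lit 493858305440582043680)) (.cons (.rf (nat_lit 2746) (nat_lit 493858305440582043680)) (.cons (.rf (nat_lit 2747) (nat_lit 493858305440582043680)) (.cons (.br (nat_lit 8) (nat_lit 1) (.cons (.rf (nat_lit 2745) (nat_lit 493858305440582043680)) (.cons (.rf (nat_lit 2746) (nat_lit 493858305440582043680)) (.cons (.rf (nat_lit 2747) (nat_lit 493858305440582043680)) .nil)))) .nil))))),
 (.br (nat_lit 2) (nat_lit 1) (.cons (.br (nat_lit 12) (nat_lit 1) (.cons (.zr (nat_lit 928469196779656597240545280) (nat_lit 158457533954348572395045913089) (nat_lit 5) (nat_lit 6)) .nil)) (.cons (.zr (nat_lit 237684501709892461389567492864) (nat_lit 1208962713385355393892353) (nat_lit 5) (nat_lit 10)) (.cons (.rf (nat_lit 1608) (nat_lit 13164349642466493664)) .nil)))),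
 (.br (nat_lit 8) (nat_lit 1) (.cons (.rf (nat_lit 2745) (nat_lit 493858305440582043680)) (.cons (.rf (nat_lit 2748) (nat_lit 493858305440582043680)) (.cons (.br (nat_lit 13) (nat_lit 1) (.cons (.br (nat_lit 9) (nat_lit 1) (.cons (.br (nat_lit 12) (nat_lit 1) (.cons (.ev (nat_lit 79538856449905579865948553216) (nat_lit 1)) .nil)) (.cons (.ev (nat_lit 1213666704899170879144193) (nat_lit 1)) (.cons (.rf (nat_lit 1608) (nat_lit 13164349642466493664)) .nil)))) (.cons (.rf (nat_lit 2749) (nat_lit 493858305440582043680)) (.cons (.kr (nat_lit 18446744073726328832) (nat_lit 309485009893402662762708992) (nat_lit 3) (nat_lit 0)) (.cons (.br (nat_lit 9) (nat_lit 1) (.cons (.zr (nat_lit 237684501709892461389567492864) (nat_lit 1208962713385355393892353) (nat_lit 5) (nat_lit 10)) (.cons (.ev (nat_lit 79538856449905579865948553216) (nat_lit 1)) (.cons (.rf (nat_lit 2749) (nat_lit 493858305440582043680)) .nil)))) .nil))))) .nil)))),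
 (.br (nat_lit 8) (nat_lit 1) (.cons (.rf (nat_lit 2745) (nat_lit 493858305440582043680)) (.cons (.rf (nat_lit 2748) (nat_lit 493858305440582043680)) (.cons (.rf (nat_lit 2750) (nat_lit 493858305440582043680)) (.cons (.br (nat_lit 8) (nat_lit 1) (.cons (.rf (nat_lit 2745) (nat_lit 493858305440582043680)) (.cons (.rf (nat_lit 2748) (nat_lit 493858305440582043680)) (.cons (.rf (nat_lit 2750) (nat_lit 493858305440582043680)) .nil)))) .nil))))),
 (.br (nat_lit 8) (nat_lit 1) (.cons (.rf (nat_lit 2745) (nat_lit 493858305440582043680)) (.cons (.rf (nat_lit 2748) (nat_lit 493858305440582043680)) (.cons (.rf (nat_lit 2751) (nat_lit 493858305440582043680)) (.cons (.br (nat_lit 8) (nat_lit 1) (.cons (.rf (nat_lit 2745) (nat_lit 493858305440582043680)) (.cons (.rf (nat_lit 2748) (nat_lit 493858305440582043680)) (.cons (.rf (nat_lit 2751) (nat_lit 493858305440582043680)) .nil)))) .nil)))))]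

theorem c90 : chkAll C T R L90 (nat_lit 2722) = true := by decide +kernel

theorem l90 : (nat_lit 2722) + L90.length = (nat_lit 2753) := by decide +kernel

/-- part of the certificates -/
def L91 : List Prf := [(.br (nat_lit 8) (nat_lit 1) (.cons (.rf (nat_lit 2745) (nat_lit 493858305440582043680)) (.cons (.rf (nat_lit 2748) (nat_lit 493858305440582043680)) (.cons (.rf (nat_lit 2751) (nat_lit 493858305440582043680)) (.cons (.rf (nat_lit 2752) (nat_lit 493858305440582043680)) (.cons (.br (nat_lit 8) (nat_lit 1) (.cons (.rf (nat_lit 2745) (nat_lit 493858305440582043680)) (.cons (.rf (nat_lit 2748) (nat_lit 493858305440582043680)) (.cons (.rf (nat_lit 2751) (nat_lit 493858305440582043680)) (.cons (.rf (nat_lit 2752) (nat_lit 493858305440582043680)) .nil))))) .nil)))))),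
 (.br (nat_lit 7) (nat_lit 1) (.cons (.rf (nat_lit 2687) (nat_lit 493858305234423613664)) (.cons (.rf (nat_lit 2723) (nat_lit 493858305234423613664)) (.cons (.rf (nat_lit 2733) (nat_lit 493858305234423613664)) (.cons (.br (nat_lit 2) (nat_lit 1) (.cons (.br (nat_lit 9) (nat_lit 1) (.cons (.rf (nat_lit 1343) (nat_lit 423433083938)) (.cons (.kr (nat_lit 4722366482869645213697) (nat_lit 309485009821345068724846592) (nat_lit 0) (nat_lit 1)) (.cons (.rf (nat_lit 2735) (nat_lit 493858305440582043680)) (.cons (.rf (nat_lit 2735) (nat_lit 458117738797769787424)) .nil))))) (.cons (.rf (nat_lit 29) (nat_lit 11765026)) (.cons (.ev (nat_lit 309485009821627643229896704) (nat_lit 1)) (.cons (.rf (nat_lit 2738) (nat_lit 493858305440582043680)) (.cons (.rf (nat_lit 2738) (nat_lit 458117738797769787424)) .nil)))))) (.cons (.rf (nat_lit 2753) (nat_lit 493858305440582043680)) (.cons (.rf (nat_lit 2753) (nat_lit 458117738797769787424)) .nil))))))),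
 (.br (nat_lit 8) (nat_lit 1) (.cons (.rf (nat_lit 82) (nat_lit 12222440513)) (.cons (.rf (nat_lit 2594) (nat_lit 13256369377)) (.cons (.br (nat_lit 9) (nat_lit 1) (.cons (.br (nat_lit 12) (nat_lit 1) (.cons (.ev (nat_lit 79229376180897461740578603008) (nat_lit 1)) (.cons (.ev (nat_lit 79229376162522775260906979585) (nat_lit 1)) .nil))) (.cons (.ev (nat_lit 79228167236702878061538836736) (nat_lit 1)) (.cons (.br (nat_lit 12) (nat_lit 1) (.cons (.ev (nat_lit 79229376162522775260906979585) (nat_lit 1)) (.cons (.ev (nat_lit 79229376180897461740578603008) (nat_lit 1)) .nil))) .nil)))) .nil)))),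
 (.br (nat_lit 12) (nat_lit 1) (.cons (.ev (nat_lit 20361638979814192916637964828928) (nat_lit 1)) (.cons (.rf (nat_lit 84) (nat_lit 14340627490)) .nil))),
 (.br (nat_lit 13) (nat_lit 1) (.cons (.rf (nat_lit 82) (nat_lit 9006457921)) (.cons (.br (nat_lit 9) (nat_lit 1) (.cons (.rf (nat_lit 2756) (nat_lit 493750222348060035104)) (.cons (.rf (nat_lit 2756) (nat_lit 493858305440582043680)) (.cons (.ev (nat_lit 79228167236702878061538836736) (nat_lit 1)) .nil)))) (.cons (.rf (nat_lit 2594) (nat_lit 13155869921)) .nil)))),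
 (.br (nat_lit 13) (nat_lit 1) (.cons (.br (nat_lit 12) (nat_lit 1) (.cons (.kr (nat_lit 20282719088661491769015976132864) (nat_lit 79228167255149622130936643584) (nat_lit 1) (nat_lit 0)) .nil)) (.cons (.br (nat_lit 11) (nat_lit 1) (.cons (.kr (nat_lit 20282719088661491769015976132864) (nat_lit 79228167255149622130936643584) (nat_lit 1) (nat_lit 0)) .nil)) .nil))),
 (.br (nat_lit 8) (nat_lit 1) (.cons (.rf (nat_lit 2758) (nat_lit 493858305440582043680)) (.cons (.rf (nat_lit 2758) (nat_lit 458117738591611357408)) .nil))),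
 (.br (nat_lit 11) (nat_lit 1) (.cons (.rf (nat_lit 2759) (nat_lit 493858305440582043680)) (.cons (.br (nat_lit 9) (nat_lit 1) (.cons (.br (nat_lit 12) (nat_lit 1) (.cons (.ev (nat_lit 20363197323067851693597391523586) (nat_lit 4)) .nil)) (.cons (.zr (nat_lit 554598346525814092972243550208) (nat_lit 928455029465165521307567369) (nat_lit 20) (nat_lit 10)) (.cons (.zr (nat_lit 141976868434487512582260119044608) (nat_lit 928455029825453491497205769) (nat_lit 20) (nat_lit 10)) .nil)))) .nil))),
 (.br (nat_lit 11) (nat_lit 1) (.cons (.rf (nat_lit 2759) (nat_lit 493858305440582043680)) (.cons (.rf (nat_lit 2760) (nat_lit 493858305440582043680)) (.cons (.rf (nat_lit 2760) (nat_lit 458117738591611357408)) .nil)))),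
 (.br (nat_lit 8) (nat_lit 1) (.cons (.rf (nat_lit 2759) (nat_lit 493858305440582043680)) (.cons (.br (nat_lit 11) (nat_lit 1) (.cons (.zr (nat_lit 237684487543009189960792145920) (nat_lit 1218407446349995172691969) (nat_lit 5) (nat_lit 4)) (.cons (.zr (nat_lit 60847228810955011276239800369920) (nat_lit 1218407446349995172691969) (nat_lit 5) (nat_lit 4)) .nil))) .nil))),
 (.br (nat_lit 8) (nat_lit 1) (.cons (.rf (nat_lit 2759) (nat_lit 493858305440582043680)) (.cons (.rf (nat_lit 2762) (nat_lit 493858305440582043680)) (.cons (.rf (nat_lit 2762) (nat_lit 458117738591611357408)) .nil)))),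
 (.br (nat_lit 11) (nat_lit 1) (.cons (.rf (nat_lit 2761) (nat_lit 493858305440582043680)) (.cons (.rf (nat_lit 2763) (nat_lit 493858305440582043680)) (.cons (.br (nat_lit 11) (nat_lit 1) (.cons (.rf (nat_lit 2761) (nat_lit 493858305440582043680)) (.cons (.rf (nat_lit 2763) (nat_lit 493858305440582043680)) .nil))) .nil)))),
 (.br (nat_lit 11) (nat_lit 1) (.cons (.rf (nat_lit 2761) (nat_lit 493858305440582043680)) (.cons (.rf (nat_lit 2763) (nat_lit 493858305440582043680)) (.cons (.rf (nat_lit 2764) (nat_lit 493858305440582043680)) (.cons (.rf (nat_lit 2764) (nat_lit 458117738591611357408)) .nil))))),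
 (.br (nat_lit 13) (nat_lit 1) (.cons (.ev (nat_lit 4740885567111897874688) (nat_lit 1)) (.cons (.br (nat_lit 12) (nat_lit 1) (.cons (.rf (nat_lit 84) (nat_lit 14239959079)) (.cons (.rf (nat_lit 1797) (nat_lit 13164103357196080169)) (.cons (.ev (nat_lit 79229371458530978870916546816) (nat_lit 1)) .nil)))) (.cons (.ev (nat_lit 79229371458530978870916546816) (nat_lit 1)) .nil)))),
 (.br (nat_lit 8) (nat_lit 1) (.cons (.rf (nat_lit 2765) (nat_lit 493858305440582043680)) (.cons (.rf (nat_lit 2766) (nat_lit 493858305440582043680)) (.cons (.rf (nat_lit 2766) (nat_lit 458117738591611357408)) .nil)))),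
 (.br (nat_lit 8) (nat_lit 1) (.cons (.rf (nat_lit 84) (nat_lit 14369727559)) (.cons (.rf (nat_lit 2767) (nat_lit 493858305440582043680)) (.cons (.br (nat_lit 11) (nat_lit 1) (.cons (.ev (nat_lit 4740885567111897874688) (nat_lit 1)) (.cons (.ev (nat_lit 79229371458530978870916546816) (nat_lit 1)) (.cons (.ev (nat_lit 20282410812596009122818661810176) (nat_lit 1)) .nil)))) .nil)))),
 (.br (nat_lit 8) (nat_lit 1) (.cons (.rf (nat_lit 2765) (nat_lit 493858305440582043680)) (.cons (.rf (nat_lit 2767) (nat_lit 493858305440582043680)) (.cons (.rf (nat_lit 2768) (nat_lit 493858305440582043680)) (.cons (.rf (nat_lit 2768) (nat_lit 458117738591611357408)) .nil))))),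
 (.br (nat_lit 8) (nat_lit 1) (.cons (.rf (nat_lit 2765) (nat_lit 493858305440582043680)) (.cons (.rf (nat_lit 2769) (nat_lit 493858305440582043680)) (.cons (.br (nat_lit 9) (nat_lit 1) (.cons (.br (nat_lit 11) (nat_lit 1) (.cons (.zr (nat_lit 237684501710108634171681275904) (nat_lit 1208962713385355393892353) (nat_lit 5) (nat_lit 10)) (.cons (.zr (nat_lit 60847228825122110720450689499904) (nat_lit 1208962713385355393892353) (nat_lit 5) (nat_lit 10)) .nil))) (.cons (.br (nat_lit 2) (nat_lit 1) (.cons (.ev (nat_lit 310693935713017296249225473) (nat_lit 1)) (.cons (.zr (nat_lit 237684501710108634171681275904) (nat_lit 1208962713385355393892353) (nat_lit 5) (nat_lit 10)) (.cons (.zr (nat_lit 60847228825122110720450689499904) (nat_lit 1208962713385355393892353) (nat_lit 5) (nat_lit 10)) .nil)))) (.cons (.ev (nat_lit 79229371458530978870916546816) (nat_lit 1)) (.cons (.ev (nat_lit 20282410812596009122818661810176) (nat_lit 1)) .nil))))) .nil)))),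
 (.br (nat_lit 8) (nat_lit 1) (.cons (.rf (nat_lit 2765) (nat_lit 493858305440582043680)) (.cons (.rf (nat_lit 2769) (nat_lit 493858305440582043680)) (.cons (.rf (nat_lit 2770) (nat_lit 493858305440582043680)) (.cons (.rf (nat_lit 2770) (nat_lit 458117738591611357408)) .nil))))),
 (.br (nat_lit 8) (nat_lit 1) (.cons (.rf (nat_lit 2765) (nat_lit 493858305440582043680)) (.cons (.rf (nat_lit 2769) (nat_lit 493858305440582043680)) (.cons (.rf (nat_lit 2771) (nat_lit 493858305440582043680)) (.cons (.br (nat_lit 8) (nat_lit 1) (.cons (.rf (nat_lit 2765) (nat_lit 493858305440582043680)) (.cons (.rf (nat_lit 2769) (nat_lit 493858305440582043680)) (.cons (.rf (nat_lit 2771) (nat_lit 493858305440582043680)) .nil)))) .nil))))),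
 (.br (nat_lit 7) (nat_lit 1) (.cons (.rf (nat_lit 2687) (nat_lit 493858305234423613664)) (.cons (.rf (nat_lit 2723) (nat_lit 493858305234423613664)) (.cons (.rf (nat_lit 2733) (nat_lit 493858305234423613664)) (.cons (.rf (nat_lit 2754) (nat_lit 493858305234423613664)) (.cons (.br (nat_lit 2) (nat_lit 1) (.cons (.br (nat_lit 8) (nat_lit 1) (.cons (.rf (nat_lit 1343) (nat_lit 457826376738)) (.cons (.rf (nat_lit 2755) (nat_lit 493858305440582043680)) (.cons (.rf (nat_lit 1339) (nat_lit 287003875393)) (.cons (.br (nat_lit 8) (nat_lit 1) (.cons (.rf (nat_lit 82) (nat_lit 14369924161)) (.cons (.rf (nat_lit 2755) (nat_lit 493858305440582043680)) (.cons (.rf (nat_lit 2594) (nat_lit 13323478241)) .nil)))) .nil))))) (.cons (.rf (nat_lit 29) (nat_lit 12813602)) (.cons (.br (nat_lit 9) (nat_lit 1) (.cons (.br (nat_lit 12) (nat_lit 1) (.cons (.rf (nat_lit 84) (nat_lit 12092480546)) (.cons (.rf (nat_lit 84) (nat_lit 8971689001)) (.cons (.ev (nat_lit 79229376162522775260906979585) (nat_lit 1)) .nil)))) (.cons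 (.rf (nat_lit 1343) (nat_lit 275290364962)) (.cons (.ev (nat_lit 79228167236702878061538836736) (nat_lit 1)) (.cons (.br (nat_lit 12) (nat_lit 1) (.cons (.ev (nat_lit 79229376162522775260906979585) (nat_lit 1)) (.cons (.rf (nat_lit 84) (nat_lit 14340398121)) (.cons (.rf (nat_lit 84) (nat_lit 12260252706)) .nil)))) .nil))))) (.cons (.rf (nat_lit 58) (nat_lit 12814377)) (.cons (.br (nat_lit 13) (nat_lit 1) (.cons (.rf (nat_lit 2757) (nat_lit 493858305440582043680)) (.cons (.rf (nat_lit 1343) (nat_lit 275321857089)) (.cons (.br (nat_lit 13) (nat_lit 1) (.cons (.rf (nat_lit 2757) (nat_lit 493858305440582043680)) (.cons (.rf (nat_lit 82) (nat_lit 12227683393)) (.cons (.rf (nat_lit 2594) (nat_lit 13256533217)) .nil)))) (.cons (.rf (nat_lit 1339) (nat_lit 458802567233)) .nil))))) .nil)))))) (.cons (.br (nat_lit 8) (nat_lit 1) (.cons (.rf (nat_lit 2765) (nat_lit 493858305440582043680)) (.cons (.rf (nat_lit 2769) (nat_lit 493858305440582043680)) (.cons (.rf (nat_lit 2771) (nat_lit 493858305440582043680))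 (.cons (.rf (nat_lit 2772) (nat_lit 493858305440582043680)) (.cons (.rf (nat_lit 2772) (nat_lit 458117738591611357408)) .nil)))))) .nil))))))),
 (.br (nat_lit 8) (nat_lit 1) (.cons (.br (nat_lit 11) (nat_lit 1) (.cons (.br (nat_lit 12) (nat_lit 1) (.cons (.ev (nat_lit 158765824261005874976142786560) (nat_lit 2)) .nil)) (.cons (.ev (nat_lit 121694775588401088163132481864448) (nat_lit 3)) .nil))) (.cons (.br (nat_lit 12) (nat_lit 1) (.cons (.br (nat_lit 11) (nat_lit 1) (.cons (.ev (nat_lit 79850759366850785276227420929) (nat_lit 2)) .nil)) (.cons (.ev (nat_lit 121773685798702211758343693075463) (nat_lit 3)) .nil))) .nil))),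
 (.br (nat_lit 13) (nat_lit 1) (.cons (.rf (nat_lit 2774) (nat_lit 493858305440582043680)) (.cons (.br (nat_lit 8) (nat_lit 1) (.cons (.br (nat_lit 11) (nat_lit 1) (.cons (.ev (nat_lit 20678864760640375916272959029508) (nat_lit 3)) .nil)) (.cons (.zr (nat_lit 55556407202265694208) (nat_lit 40564820416229160744002965733377) (nat_lit 5) (nat_lit 0)) (.cons (.br (nat_lit 9) (nat_lit 1) (.cons (.ev (nat_lit 620193131009345185636155650) (nat_lit 2)) .nil)) .nil)))) .nil))),
 (.br (nat_lit 13) (nat_lit 1) (.cons (.rf (nat_lit 2774) (nat_lit 493858305440582043680)) (.cons (.rf (nat_lit 2775) (nat_lit 493858305440582043680)) (.cons (.br (nat_lit 13) (nat_lit 1) (.cons (.rf (nat_lit 2774) (nat_lit 493858305440582043680)) (.cons (.rf (nat_lit 2775) (nat_lit 493858305440582043680)) .nil))) .nil)))),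
 (.br (nat_lit 8) (nat_lit 1) (.cons (.kr (nat_lit 4722366482869645213697) (nat_lit 281479271677952) (nat_lit 0) (nat_lit 1)) .nil)),
 (.br (nat_lit 8) (nat_lit 1) (.cons (.br (nat_lit 11) (nat_lit 1) (.cons (.ev (nat_lit 159076518196430945561633358594) (nat_lit 2)) (.cons (.rf (nat_lit 2777) (nat_lit 470979981838368)) .nil))) (.cons (.rf (nat_lit 2776) (nat_lit 493858305440582043680)) .nil))),
 (.br (nat_lit 8) (nat_lit 1) (.cons (.rf (nat_lit 2778) (nat_lit 493858305440582043680)) (.cons (.br (nat_lit 8) (nat_lit 1) (.cons (.rf (nat_lit 2778) (nat_lit 493858305440582043680)) (.cons (.rf (nat_lit 2776) (nat_lit 493858305440582043680)) .nil))) (.cons (.rf (nat_lit 2776) (nat_lit 493858305440582043680)) .nil)))),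
 (.br (nat_lit 13) (nat_lit 1) (.cons (.rf (nat_lit 2776) (nat_lit 493858305440582043680)) (.cons (.rf (nat_lit 2779) (nat_lit 493858305440582043680)) (.cons (.br (nat_lit 13) (nat_lit 1) (.cons (.rf (nat_lit 2776) (nat_lit 493858305440582043680)) (.cons (.rf (nat_lit 2779) (nat_lit 493858305440582043680)) .nil))) .nil)))),
 (.br (nat_lit 13) (nat_lit 1) (.cons (.rf (nat_lit 2776) (nat_lit 493858305440582043680)) (.cons (.rf (nat_lit 2779) (nat_lit 493858305440582043680)) (.cons (.rf (nat_lit 2780) (nat_lit 493858305440582043680)) (.cons (.br (nat_lit 13) (nat_lit 1) (.cons (.rf (nat_lit 2776) (nat_lit 493858305440582043680)) (.cons (.rf (nat_lit 2779) (nat_lit 493858305440582043680)) (.cons (.rf (nat_lit 2780) (nat_lit 493858305440582043680)) .nil)))) .nil))))),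
 (.br (nat_lit 7) (nat_lit 1) (.cons (.rf (nat_lit 84) (nat_lit 12222503970)) (.cons (.br (nat_lit 8) (nat_lit 1) (.cons (.ev (nat_lit 309489750706911081110962433) (nat_lit 1)) (.cons (.br (nat_lit 11) (nat_lit 1) (.cons (.rf (nat_lit 84) (nat_lit 9004424257)) (.cons (.br (nat_lit 12) (nat_lit 1) (.cons (.zr (nat_lit 928469196563484914621612800) (nat_lit 158457533954348571295551193089) (nat_lit 5) (nat_lit 6)) .nil)) .nil))) .nil))) (.cons (.rf (nat_lit 84) (nat_lit 12092220642)) (.cons (.br (nat_lit 8) (nat_lit 1) (.cons (.br (nat_lit 11) (nat_lit 1) (.cons (.ev (nat_lit 158769446260614734113503576320) (nat_lit 2)) (.cons (.br (nat_lit 12) (nat_lit 1) (.cons (.ev (nat_lit 475680911059457746752830965248) (nat_lit 3)) .nil)) .nil))) (.cons (.rf (nat_lit 1795) (nat_lit 14246339452942261280)) .nil))) .nil))))),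
 (.br (nat_lit 8) (nat_lit 1) (.cons (.br (nat_lit 11) (nat_lit 1) (.cons (.ev (nat_lit 79538861172344120329614983168) (nat_lit 1)) .nil)) (.cons (.ev (nat_lit 79229371458530977771421761536) (nat_lit 1)) (.cons (.br (nat_lit 9) (nat_lit 1) (.cons (.ev (nat_lit 1223111510768037239325440) (nat_lit 2)) .nil)) .nil))))]

theorem c91 : chkAll C T R L91 (nat_lit 2753) = true := by decide +kernel

theorem l91 : (nat_lit 2753) + L91.length = (nat_lit 2784) := by decide +kernel

/-- part of the certificates -/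
def L92 : List Prf := [(.br (nat_lit 7) (nat_lit 1) (.cons (.ev (nat_lit 1213666632841576841216001) (nat_lit 1)) (.cons (.rf (nat_lit 2407) (nat_lit 493750222139756218592)) (.cons (.rf (nat_lit 2783) (nat_lit 493858305440582043680)) .nil)))),
 (.br (nat_lit 12) (nat_lit 1) (.cons (.rf (nat_lit 2781) (nat_lit 493858305440582043680)) (.cons (.rf (nat_lit 2782) (nat_lit 493858305440582043680)) (.cons (.br (nat_lit 13) (nat_lit 1) (.cons (.rf (nat_lit 2783) (nat_lit 493858305440582043680)) (.cons (.rf (nat_lit 2784) (nat_lit 493858305440582043680)) (.cons (.ev (nat_lit 79228167236630821566995824896) (nat_lit 1)) (.cons (.br (nat_lit 13) (nat_lit 1) (.cons (.rf (nat_lit 2783) (nat_lit 493858305440582043680)) (.cons (.rf (nat_lit 2784) (nat_lit 493858305440582043680)) (.cons (.ev (nat_lit 79228167236630821566995824896) (nat_lit 1)) .nil)))) .nil))))) .nil)))),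
 (.br (nat_lit 12) (nat_lit 1) (.cons (.rf (nat_lit 2781) (nat_lit 493858305440582043680)) (.cons (.rf (nat_lit 2782) (nat_lit 493858305440582043680)) (.cons (.rf (nat_lit 2785) (nat_lit 493858305440582043680)) (.cons (.br (nat_lit 12) (nat_lit 1) (.cons (.rf (nat_lit 2781) (nat_lit 493858305440582043680)) (.cons (.rf (nat_lit 2782) (nat_lit 493858305440582043680)) (.cons (.rf (nat_lit 2785) (nat_lit 493858305440582043680)) .nil)))) .nil))))),
 (.br (nat_lit 12) (nat_lit 1) (.cons (.rf (nat_lit 2781) (nat_lit 493858305440582043680)) (.cons (.rf (nat_lit 2786) (nat_lit 493858305440582043680)) (.cons (.br (nat_lit 12) (nat_lit 1) (.cons (.rf (nat_lit 84) (nat_lit 8971691233)) (.cons (.rf (nat_lit 2786) (nat_lit 493858305440582043680)) (.cons (.ev (nat_lit 79229376162450716567340581121) (nat_lit 1)) .nil)))) (.cons (.br (nat_lit 12) (nat_lit 1) (.cons (.rf (nat_lit 2781) (nat_lit 493858305440582043680)) (.cons (.rf (nat_lit 2786) (nat_lit 493858305440582043680)) (.cons (.ev (nat_lit 79229376162450716567340581121)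 (nat_lit 1)) .nil)))) .nil))))),
 (.br (nat_lit 12) (nat_lit 1) (.cons (.rf (nat_lit 2781) (nat_lit 493858305440582043680)) (.cons (.rf (nat_lit 2786) (nat_lit 493858305440582043680)) (.cons (.rf (nat_lit 2787) (nat_lit 493858305440582043680)) (.cons (.br (nat_lit 12) (nat_lit 1) (.cons (.rf (nat_lit 2781) (nat_lit 493858305440582043680)) (.cons (.rf (nat_lit 2786) (nat_lit 493858305440582043680)) (.cons (.ev (nat_lit 79229376162450716567340581121) (nat_lit 1)) .nil)))) .nil))))),
 (.br (nat_lit 12) (nat_lit 1) (.cons (.rf (nat_lit 2781) (nat_lit 493858305440582043680)) (.cons (.rf (nat_lit 2786) (nat_lit 493858305440582043680)) (.cons (.rf (nat_lit 2787) (nat_lit 493858305440582043680)) (.cons (.rf (nat_lit 2788) (nat_lit 493858305440582043680)) (.cons (.br (nat_lit 12) (nat_lit 1) (.cons (.rf (nat_lit 2781) (nat_lit 493858305440582043680)) (.cons (.rf (nat_lit 2786) (nat_lit 493858305440582043680)) (.cons (.rf (nat_lit 2787) (nat_lit 493858305440582043680)) (.cons (.rf (nat_lit 2788) (nat_lit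 493858305440582043680)) .nil))))) .nil)))))),
 (.br (nat_lit 12) (nat_lit 1) (.cons (.kr (nat_lit 20361637770888373302004478377986) (nat_lit 311902879907318400783810816) (nat_lit 0) (nat_lit 3)) .nil)),
 (.br (nat_lit 2) (nat_lit 1) (.cons (.ev (nat_lit 18447026648197890304) (nat_lit 1)) (.cons (.rf (nat_lit 31) (nat_lit 377718050)) (.cons (.rf (nat_lit 1339) (nat_lit 288076566562)) (.cons (.br (nat_lit 8) (nat_lit 1) (.cons (.rf (nat_lit 84) (nat_lit 13262627874)) (.cons (.br (nat_lit 9) (nat_lit 1) (.cons (.rf (nat_lit 84) (nat_lit 13164913890)) (.cons (.rf (nat_lit 84) (nat_lit 12092220487)) (.cons (.br (nat_lit 13) (nat_lit 1) (.cons (.zr (nat_lit 314320713102055385288017408) (nat_lit 23685979686318425243651) (nat_lit 10) (nat_lit 3)) (.cons (.zr (nat_lit 79231789291725433280932414720) (nat_lit 18963541145854742102018) (nat_lit 10) (nat_lit 3)) .nil))) .nil)))) (.cons (.br (nat_lit 11) (nat_lit 1) (.cons (.rf (nat_lit 84) (nat_lit 13164913890)) (.cons (.zr (nat_lit 309485028628385921601896704)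 (nat_lit 1208925821584954045497347) (nat_lit 10) (nat_lit 4)) (.cons (.br (nat_lit 12) (nat_lit 1) (.cons (.br (nat_lit 12) (nat_lit 1) (.cons (.ev (nat_lit 158457548140038880265817424130) (nat_lit 2)) .nil)) (.cons (.br (nat_lit 9) (nat_lit 1) (.cons (.ev (nat_lit 158457548140038880265817424130) (nat_lit 2)) .nil)) .nil))) .nil)))) .nil)))) (.cons (.br (nat_lit 8) (nat_lit 1) (.cons (.rf (nat_lit 84) (nat_lit 14336369698)) (.cons (.br (nat_lit 9) (nat_lit 1) (.cons (.rf (nat_lit 84) (nat_lit 14238655714)) (.cons (.br (nat_lit 11) (nat_lit 1) (.cons (.zr (nat_lit 396140812571321687967787057153) (nat_lit 622596833995304751176090112) (nat_lit 5) (nat_lit 4)) (.cons (.br (nat_lit 12) (nat_lit 1) (.cons (.ev (nat_lit 20680105128012925293033591079684) (nat_lit 3)) .nil)) .nil))) (.cons (.br (nat_lit 11) (nat_lit 1) (.cons (.rf (nat_lit 2790) (nat_lit 493858305440582043680)) (.cons (.ev (nat_lit 20282720302309750205583827403008) (nat_lit 1)) .nil))) .nil)))) (.cons (.br (nat_lit 9) (nat_lit 1) (.cons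 (.rf (nat_lit 84) (nat_lit 14238655714)) (.cons (.br (nat_lit 12) (nat_lit 1) (.cons (.br (nat_lit 12) (nat_lit 1) (.cons (.ev (nat_lit 79538856449977637459986481408) (nat_lit 1)) .nil)) (.cons (.ev (nat_lit 20282410817318303548094285938688) (nat_lit 1)) .nil))) (.cons (.rf (nat_lit 84) (nat_lit 12093269063)) .nil)))) .nil)))) .nil)))))),
 (.br (nat_lit 8) (nat_lit 1) (.cons (.rf (nat_lit 82) (nat_lit 13262686247)) (.cons (.rf (nat_lit 2594) (nat_lit 12215126311)) (.cons (.br (nat_lit 2) (nat_lit 1) (.cons (.ev (nat_lit 310698676526245339115618560) (nat_lit 1)) (.cons (.br (nat_lit 13) (nat_lit 1) (.cons (.kr (nat_lit 309485009821345068724846848) (nat_lit 18518802767259107328) (nat_lit 1) (nat_lit 0)) (.cons (.zr (nat_lit 55556409401288949760) (nat_lit 158457543399081537034841489409) (nat_lit 5) (nat_lit 0)) .nil))) (.cons (.ev (nat_lit 1223111510768037239325440) (nat_lit 2)) .nil)))) .nil)))),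
 (.br (nat_lit 8) (nat_lit 1) (.cons (.rf (nat_lit 1343) (nat_lit 457785484513)) (.cons (.rf (nat_lit 1339) (nat_lit 287841751079)) (.cons (.rf (nat_lit 2792) (nat_lit 493858305440582043680)) (.cons (.br (nat_lit 8) (nat_lit 1) (.cons (.rf (nat_lit 82) (nat_lit 14336428071)) (.cons (.rf (nat_lit 2594) (nat_lit 12248680743)) (.cons (.rf (nat_lit 2792) (nat_lit 493858305440582043680)) .nil)))) .nil))))),
 (.br (nat_lit 12) (nat_lit 1) (.cons (.kr (nat_lit 20282719088661491769015976132864) (nat_lit 79228167255149622130936643584) (nat_lit 1) (nat_lit 0)) .nil)),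
 (.br (nat_lit 8) (nat_lit 1) (.cons (.ev (nat_lit 310698676526245339115618560) (nat_lit 1)) (.cons (.br (nat_lit 9) (nat_lit 1) (.cons (.ev (nat_lit 79538856449977637459986481408) (nat_lit 1)) (.cons (.rf (nat_lit 2794) (nat_lit 493858305440582043680)) .nil))) (.cons (.br (nat_lit 13) (nat_lit 1) (.cons (.rf (nat_lit 84) (nat_lit 12256053287)) (.cons (.ev (nat_lit 20282720297605830466787875028993) (nat_lit 1)) .nil))) .nil)))),
 (.br (nat_lit 10) (nat_lit 1) (.cons (.kr (nat_lit 309485009821345068741558272) (nat_lit 1208925891672223212634112) (nat_lit 3) (nat_lit 0)) .nil)),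
 (.br (nat_lit 2) (nat_lit 1) (.cons (.ev (nat_lit 310698676526245339115618560) (nat_lit 1)) (.cons (.br (nat_lit 8) (nat_lit 1) (.cons (.rf (nat_lit 84) (nat_lit 12222276647)) (.cons (.rf (nat_lit 2796) (nat_lit 482283501406818369)) .nil))) (.cons (.br (nat_lit 8) (nat_lit 1) (.cons (.br (nat_lit 12) (nat_lit 1) (.cons (.ev (nat_lit 158768227908652732618507485440) (nat_lit 2)) .nil)) (.cons (.rf (nat_lit 84) (nat_lit 12255831079)) .nil))) .nil)))),
 (.br (nat_lit 2) (nat_lit 1) (.cons (.kr (nat_lit 20282719088661491769015976132864) (nat_lit 79228167255149622130936643584) (nat_lit 1) (nat_lit 0)) .nil)),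
 (.br (nat_lit 8) (nat_lit 1) (.cons (.rf (nat_lit 2795) (nat_lit 493858305440582043680)) (.cons (.rf (nat_lit 2797) (nat_lit 493858305440582043680)) (.cons (.br (nat_lit 9) (nat_lit 1) (.cons (.kr (nat_lit 309485009821345068724846848) (nat_lit 18518802767259107328) (nat_lit 1) (nat_lit 0)) (.cons (.ev (nat_lit 79538856449977637459986481408) (nat_lit 1)) (.cons (.rf (nat_lit 2798) (nat_lit 493858305440582043680)) .nil)))) .nil)))),
 (.br (nat_lit 11) (nat_lit 1) (.cons (.rf (nat_lit 2789) (nat_lit 493858305440582043680)) (.cons (.rf (nat_lit 2791) (nat_lit 493858305440582043680)) (.cons (.rf (nat_lit 2793) (nat_lit 493858305440582043680)) (.cons (.br (nat_lit 8) (nat_lit 1) (.cons (.rf (nat_lit 2795) (nat_lit 493858305440582043680)) (.cons (.rf (nat_lit 2797) (nat_lit 493858305440582043680)) (.cons (.rf (nat_lit 2799) (nat_lit 493858305440582043680)) (.cons (.br (nat_lit 8) (nat_lit 1) (.cons (.rf (nat_lit 2795) (nat_lit 493858305440582043680)) (.cons (.rf (nat_lit 2797) (nat_lit 493858305440582043680))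 (.cons (.rf (nat_lit 2799) (nat_lit 493858305440582043680)) .nil)))) .nil))))) .nil))))),
 (.br (nat_lit 11) (nat_lit 1) (.cons (.rf (nat_lit 2789) (nat_lit 493858305440582043680)) (.cons (.rf (nat_lit 2791) (nat_lit 493858305440582043680)) (.cons (.rf (nat_lit 2793) (nat_lit 493858305440582043680)) (.cons (.rf (nat_lit 2800) (nat_lit 493858305440582043680)) (.cons (.br (nat_lit 11) (nat_lit 1) (.cons (.rf (nat_lit 2789) (nat_lit 493858305440582043680)) (.cons (.rf (nat_lit 2791) (nat_lit 493858305440582043680)) (.cons (.rf (nat_lit 2793) (nat_lit 493858305440582043680)) (.cons (.rf (nat_lit 2800) (nat_lit 493858305440582043680)) .nil))))) .nil)))))),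
 (.br (nat_lit 12) (nat_lit 1) (.cons (.kr (nat_lit 20282719088661491769015976132864) (nat_lit 79228167255149622130936643584) (nat_lit 1) (nat_lit 0)) .nil)),
 (.br (nat_lit 2) (nat_lit 1) (.cons (.rf (nat_lit 31) (nat_lit 377783522)) (.cons (.ev (nat_lit 18447026648197890304) (nat_lit 1)) (.cons (.rf (nat_lit 1339) (nat_lit 288009523234)) (.cons (.br (nat_lit 7) (nat_lit 1) (.cons (.rf (nat_lit 84) (nat_lit 13262691362)) (.cons (.rf (nat_lit 84) (nat_lit 13164913890)) (.cons (.br (nat_lit 11) (nat_lit 1) (.cons (.rf (nat_lit 84) (nat_lit 8971918401)) (.cons (.br (nat_lit 12) (nat_lit 1) (.cons (.ev (nat_lit 79228167255077565640705376513) (nat_lit 1)) (.cons (.zr (nat_lit 237684501709892462489079120640) (nat_lit 620178945462586245912854529) (nat_lit 5) (nat_lit 4)) .nil))) .nil))) (.cons (.br (nat_lit 8) (nat_lit 1) (.cons (.br (nat_lit 13) (nat_lit 1) (.cons (.rf (nat_lit 2802) (nat_lit 493858305440582043680)) (.cons (.zr (nat_lit 55556409401288949760) (nat_lit 158457543399081537034841489409)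 (nat_lit 5) (nat_lit 0)) .nil))) (.cons (.br (nat_lit 13) (nat_lit 1) (.cons (.ev (nat_lit 20282409603670117168025255870721) (nat_lit 1)) (.cons (.ev (nat_lit 20282410817299856804020576387073) (nat_lit 1)) .nil))) .nil))) .nil))))) (.cons (.br (nat_lit 7) (nat_lit 1) (.cons (.rf (nat_lit 84) (nat_lit 14336433186)) (.cons (.rf (nat_lit 84) (nat_lit 14238655714)) (.cons (.br (nat_lit 8) (nat_lit 1) (.cons (.br (nat_lit 11) (nat_lit 1) (.cons (.ev (nat_lit 81088727740334497637234706183) (nat_lit 3)) (.cons (.br (nat_lit 12) (nat_lit 1) (.cons (.ev (nat_lit 79849564589539475225003098115) (nat_lit 2)) .nil)) .nil))) (.cons (.br (nat_lit 13) (nat_lit 1) (.cons (.ev (nat_lit 20282410817318303548094285938688) (nat_lit 1)) (.cons (.ev (nat_lit 20282409603651670423951546319104) (nat_lit 1)) .nil))) .nil))) (.cons (.br (nat_lit 8) (nat_lit 1) (.cons (.br (nat_lit 13) (nat_lit 1) (.cons (.ev (nat_lit 20282720302309750205583827403008) (nat_lit 1)) (.cons (.rf (nat_lit 2407) (nat_lit 419963248043941267680))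 .nil))) (.cons (.rf (nat_lit 84) (nat_lit 12093267017)) .nil))) .nil))))) .nil)))))),
 (.br (nat_lit 9) (nat_lit 1) (.cons (.br (nat_lit 12) (nat_lit 1) (.cons (.ev (nat_lit 79538856468424381533696033025) (nat_lit 1)) .nil)) (.cons (.ev (nat_lit 309489732260167007401410816) (nat_lit 1)) (.cons (.rf (nat_lit 2801) (nat_lit 308262436845400530218)) .nil)))),
 (.br (nat_lit 13) (nat_lit 1) (.cons (.ev (nat_lit 310693954159762469453561856) (nat_lit 1)) (.cons (.rf (nat_lit 2801) (nat_lit 308262436845400530218)) (.cons (.br (nat_lit 7) (nat_lit 1) (.cons (.ev (nat_lit 79538856468424381533696033025) (nat_lit 1)) .nil)) .nil)))),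
 (.br (nat_lit 11) (nat_lit 1) (.cons (.rf (nat_lit 2789) (nat_lit 493858305440582043680)) (.cons (.rf (nat_lit 2801) (nat_lit 493858305440582043680)) (.cons (.rf (nat_lit 2803) (nat_lit 493858305440582043680)) (.cons (.br (nat_lit 2) (nat_lit 1) (.cons (.br (nat_lit 8) (nat_lit 1) (.cons (.ev (nat_lit 4740813509517859946496) (nat_lit 1)) (.cons (.zr (nat_lit 309485010182477476729454850) (nat_lit 1208999606593123069984768) (nat_lit 10) (nat_lit 3)) (.cons (.br (nat_lit 13) (nat_lit 1) (.cons (.ev (nat_lit 40565132319127587427030023667970) (nat_lit 2)) (.cons (.ev (nat_lit 20282409603670117168025255870721) (nat_lit 1)) .nil))) .nil)))) (.cons (.ev (nat_lit 18447026648197890304) (nat_lit 1)) (.cons (.br (nat_lit 7) (nat_lit 1) (.cons (.ev (nat_lit 310698676526245339115618560) (nat_lit 1)) (.cons (.br (nat_lit 13) (nat_lit 1) (.cons (.kr (nat_lit 309485009821345068741689344) (nat_lit 4740885285636904321024) (nat_lit 2) (nat_lit 0)) (.cons (.zr (nat_lit 237684501709892462489079120640) (nat_lit 620178945462586245912854529)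 (nat_lit 5) (nat_lit 4)) .nil))) (.cons (.br (nat_lit 12) (nat_lit 1) (.cons (.kr (nat_lit 309485009821345068741689344) (nat_lit 4740885285636904321024) (nat_lit 2) (nat_lit 0)) (.cons (.zr (nat_lit 60847228810955011276239800369920) (nat_lit 620178945462586245912854529) (nat_lit 5) (nat_lit 4)) .nil))) .nil)))) (.cons (.br (nat_lit 13) (nat_lit 1) (.cons (.rf (nat_lit 2804) (nat_lit 493858305440582043680)) (.cons (.rf (nat_lit 2805) (nat_lit 493858305440582043680)) (.cons (.rf (nat_lit 2801) (nat_lit 308262436845400530218)) (.cons (.br (nat_lit 13) (nat_lit 1) (.cons (.rf (nat_lit 2804) (nat_lit 493858305440582043680)) (.cons (.rf (nat_lit 2805) (nat_lit 493858305440582043680)) (.cons (.rf (nat_lit 2801) (nat_lit 308262436845400530218)) .nil)))) .nil))))) (.cons (.br (nat_lit 9) (nat_lit 1) (.cons (.br (nat_lit 8) (nat_lit 1) (.cons (.br (nat_lit 12) (nat_lit 1) (.cons (.ev (nat_lit 79228176681508745828404232705) (nat_lit 2)) .nil)) (.cons (.zr (nat_lit 618970149778713766057541633) (nat_lit 60847242132750861135969351894784)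 (nat_lit 20) (nat_lit 0)) .nil))) (.cons (.br (nat_lit 7) (nat_lit 1) (.cons (.br (nat_lit 12) (nat_lit 1) (.cons (.ev (nat_lit 79230613422615032473831407617) (nat_lit 3)) .nil)) (.cons (.ev (nat_lit 20282719093383930310583482646785) (nat_lit 1)) .nil))) (.cons (.br (nat_lit 13) (nat_lit 1) (.cons (.ev (nat_lit 309489732260167007401410816) (nat_lit 1)) (.cons (.br (nat_lit 7) (nat_lit 1) (.cons (.ev (nat_lit 1223111510768037239325440) (nat_lit 2)) .nil)) (.cons (.ev (nat_lit 79229376162450716567340581121) (nat_lit 1)) .nil)))) (.cons (.ev (nat_lit 20282410812577490321150914330881) (nat_lit 1)) .nil))))) .nil)))))) .nil))))),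
 (.br (nat_lit 11) (nat_lit 1) (.cons (.rf (nat_lit 2789) (nat_lit 493858305440582043680)) (.cons (.rf (nat_lit 2801) (nat_lit 493858305440582043680)) (.cons (.rf (nat_lit 2803) (nat_lit 493858305440582043680)) (.cons (.rf (nat_lit 2806) (nat_lit 493858305440582043680)) (.cons (.br (nat_lit 11) (nat_lit 1) (.cons (.rf (nat_lit 2789) (nat_lit 493858305440582043680)) (.cons (.rf (nat_lit 2801) (nat_lit 493858305440582043680)) (.cons (.rf (nat_lit 2803) (nat_lit 493858305440582043680)) (.cons (.rf (nat_lit 2806) (nat_lit 493858305440582043680)) .nil))))) .nil)))))),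
 (.br (nat_lit 7) (nat_lit 1) (.cons (.ev (nat_lit 310698658079501265406066945) (nat_lit 1)) (.cons (.br (nat_lit 8) (nat_lit 1) (.cons (.ev (nat_lit 80157826488066789105247322112) (nat_lit 2)) (.cons (.br (nat_lit 12) (nat_lit 1) (.cons (.ev (nat_lit 79228167255077565640705376513) (nat_lit 1)) .nil)) .nil))) (.cons (.br (nat_lit 13) (nat_lit 1) (.cons (.ev (nat_lit 20282719088680010571787530141696) (nat_lit 1)) (.cons (.zr (nat_lit 60847228810955011276239800369920) (nat_lit 620178945462586245912854529) (nat_lit 5) (nat_lit 4)) .nil))) .nil))))]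

theorem c92 : chkAll C T R L92 (nat_lit 2784) = true := by decide +kernel

theorem l92 : (nat_lit 2784) + L92.length = (nat_lit 2809) := by decide +kernel

/-- part of the certificates -/
def L93 : List Prf := [(.br (nat_lit 8) (nat_lit 1) (.cons (.br (nat_lit 12) (nat_lit 1) (.cons (.ev (nat_lit 20282719088680010571787530141696) (nat_lit 1)) .nil)) (.cons (.rf (nat_lit 84) (nat_lit 12255829033)) .nil))),
 (.br (nat_lit 2) (nat_lit 1) (.cons (.ev (nat_lit 310698658079501265406066945) (nat_lit 1)) (.cons (.br (nat_lit 8) (nat_lit 1) (.cons (.ev (nat_lit 79228167255077565640705376513) (nat_lit 1)) (.cons (.br (nat_lit 12) (nat_lit 1) (.cons (.ev (nat_lit 20679483711733515069397376501508) (nat_lit 3)) .nil)) .nil))) (.cons (.rf (nat_lit 2809) (nat_lit 493858305440582043680)) .nil)))),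
 (.br (nat_lit 7) (nat_lit 1) (.cons (.kr (nat_lit 20282719088661491769015976132864) (nat_lit 79228167255149622130936643584) (nat_lit 1) (nat_lit 0)) .nil)),
 (.br (nat_lit 8) (nat_lit 1) (.cons (.rf (nat_lit 2808) (nat_lit 493858305440582043680)) (.cons (.rf (nat_lit 2810) (nat_lit 493858305440582043680)) (.cons (.br (nat_lit 2) (nat_lit 1) (.cons (.br (nat_lit 12) (nat_lit 1) (.cons (.zr (nat_lit 1547425049106725343624234240) (nat_lit 158457543436119141469848076289) (nat_lit 5) (nat_lit 0)) .nil)) (.cons (.rf (nat_lit 2811) (nat_lit 493858305440582043680)) (.cons (.br (nat_lit 7) (nat_lit 1) (.cons (.ev (nat_lit 20520403590390335382052745315590) (nat_lit 3)) .nil)) .nil)))) .nil)))),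
 (.br (nat_lit 11) (nat_lit 1) (.cons (.rf (nat_lit 2789) (nat_lit 493858305440582043680)) (.cons (.rf (nat_lit 2801) (nat_lit 493858305440582043680)) (.cons (.rf (nat_lit 2807) (nat_lit 493858305440582043680)) (.cons (.br (nat_lit 8) (nat_lit 1) (.cons (.rf (nat_lit 2808) (nat_lit 493858305440582043680)) (.cons (.rf (nat_lit 2810) (nat_lit 493858305440582043680)) (.cons (.rf (nat_lit 2812) (nat_lit 493858305440582043680)) (.cons (.br (nat_lit 8) (nat_lit 1) (.cons (.rf (nat_lit 2808) (nat_lit 493858305440582043680)) (.cons (.rf (nat_lit 2810) (nat_lit 493858305440582043680)) (.cons (.rf (nat_lit 2812) (nat_lit 493858305440582043680)) .nil)))) .nil))))) .nil))))),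
 (.br (nat_lit 11) (nat_lit 1) (.cons (.rf (nat_lit 2789) (nat_lit 493858305440582043680)) (.cons (.rf (nat_lit 2801) (nat_lit 493858305440582043680)) (.cons (.rf (nat_lit 2807) (nat_lit 493858305440582043680)) (.cons (.rf (nat_lit 2813) (nat_lit 493858305440582043680)) (.cons (.br (nat_lit 11) (nat_lit 1) (.cons (.rf (nat_lit 2789) (nat_lit 493858305440582043680)) (.cons (.rf (nat_lit 2801) (nat_lit 493858305440582043680)) (.cons (.rf (nat_lit 2807) (nat_lit 493858305440582043680)) (.cons (.rf (nat_lit 2813) (nat_lit 493858305440582043680)) .nil))))) .nil)))))),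
 (.br (nat_lit 11) (nat_lit 1) (.cons (.rf (nat_lit 2789) (nat_lit 493858305440582043680)) (.cons (.rf (nat_lit 2801) (nat_lit 493858305440582043680)) (.cons (.rf (nat_lit 2807) (nat_lit 493858305440582043680)) (.cons (.rf (nat_lit 2814) (nat_lit 493858305440582043680)) (.cons (.br (nat_lit 11) (nat_lit 1) (.cons (.rf (nat_lit 2789) (nat_lit 493858305440582043680)) (.cons (.rf (nat_lit 2801) (nat_lit 493858305440582043680)) (.cons (.rf (nat_lit 2807) (nat_lit 493858305440582043680)) (.cons (.rf (nat_lit 2814) (nat_lit 493858305440582043680)) .nil))))) .nil)))))),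
 (.br (nat_lit 11) (nat_lit 1) (.cons (.rf (nat_lit 2789) (nat_lit 493858305440582043680)) (.cons (.rf (nat_lit 2801) (nat_lit 493858305440582043680)) (.cons (.rf (nat_lit 2807) (nat_lit 493858305440582043680)) (.cons (.rf (nat_lit 2814) (nat_lit 493858305440582043680)) (.cons (.rf (nat_lit 2815) (nat_lit 493858305440582043680)) (.cons (.br (nat_lit 11) (nat_lit 1) (.cons (.rf (nat_lit 2789) (nat_lit 493858305440582043680)) (.cons (.rf (nat_lit 2801) (nat_lit 493858305440582043680)) (.cons (.rf (nat_lit 2807) (nat_lit 493858305440582043680)) (.cons (.rf (nat_lit 2814) (nat_lit 493858305440582043680)) (.cons (.rf (nat_lit 2815) (nat_lit 493858305440582043680)) .nil)))))) .nil))))))),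
 (.br (nat_lit 7) (nat_lit 1) (.cons (.br (nat_lit 10) (nat_lit 1) (.cons (.ev (nat_lit 79229376162522775260890202113) (nat_lit 1)) .nil)) .nil)),
 (.br (nat_lit 11) (nat_lit 1) (.cons (.rf (nat_lit 2809) (nat_lit 309379611201976240170)) .nil)),
 (.br (nat_lit 13) (nat_lit 1) (.cons (.rf (nat_lit 1339) (nat_lit 288078663745)) (.cons (.rf (nat_lit 58) (nat_lit 13933602)) (.cons (.br (nat_lit 9) (nat_lit 1) (.cons (.rf (nat_lit 82) (nat_lit 12093529122)) (.cons (.rf (nat_lit 84) (nat_lit 8972966946)) (.cons (.br (nat_lit 8) (nat_lit 1) (.cons (.rf (nat_lit 2817) (nat_lit 15433072045018155040)) (.cons (.br (nat_lit 11) (nat_lit 1) (.cons (.rf (nat_lit 2817) (nat_lit 15433072045018155040)) (.cons (.ev (nat_lit 79229376162450716567340581121) (nat_lit 1)) .nil))) .nil))) .nil)))) (.cons (.br (nat_lit 9) (nat_lit 1) (.cons (.ev (nat_lit 20282409608374108965514741088256) (nat_lit 1)) (.cons (.br (nat_lit 8) (nat_lit 1) (.cons (.rf (nat_lit 2818) (nat_lit 493858305440582043680)) (.cons (.br (nat_lit 11)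 (nat_lit 1) (.cons (.rf (nat_lit 2818) (nat_lit 493858305440582043680)) (.cons (.ev (nat_lit 79228167236630821566995824896) (nat_lit 1)) .nil))) .nil))) (.cons (.rf (nat_lit 84) (nat_lit 9006521378)) .nil)))) .nil))))),
 (.br (nat_lit 12) (nat_lit 1) (.cons (.ev (nat_lit 79228167236630821566995824896) (nat_lit 1)) .nil)),
 (.br (nat_lit 10) (nat_lit 1) (.cons (.ev (nat_lit 79229376162522775260890202113) (nat_lit 1)) .nil)),
 (.br (nat_lit 7) (nat_lit 1) (.cons (.rf (nat_lit 1339) (nat_lit 459872112674)) (.cons (.rf (nat_lit 31) (nat_lit 444631335)) (.cons (.br (nat_lit 8) (nat_lit 1) (.cons (.ev (nat_lit 18519083142741033216) (nat_lit 1)) (.cons (.br (nat_lit 9) (nat_lit 1) (.cons (.ev (nat_lit 309489750634854586567950593) (nat_lit 1)) (.cons (.br (nat_lit 11) (nat_lit 1) (.cons (.br (nat_lit 12) (nat_lit 1) (.cons (.zr (nat_lit 237684487542793013880177229824) (nat_lit 1218407446349995155914753) (nat_lit 5) (nat_lit 4)) .nil)) (.cons (.ev (nat_lit 310698676454186645549220096) (nat_lit 1)) .nil)))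 (.cons (.rf (nat_lit 84) (nat_lit 12093301799)) .nil)))) (.cons (.br (nat_lit 9) (nat_lit 1) (.cons (.br (nat_lit 11) (nat_lit 1) (.cons (.rf (nat_lit 2820) (nat_lit 493858305440582043680)) (.cons (.ev (nat_lit 20283339267643847561938626281731) (nat_lit 2)) .nil))) (.cons (.br (nat_lit 11) (nat_lit 1) (.cons (.ev (nat_lit 79229376162450716567340581121) (nat_lit 1)) (.cons (.rf (nat_lit 2821) (nat_lit 15433072045018155040)) .nil))) (.cons (.rf (nat_lit 84) (nat_lit 12093301799)) .nil)))) .nil)))) (.cons (.br (nat_lit 8) (nat_lit 1) (.cons (.rf (nat_lit 84) (nat_lit 13329540167)) (.cons (.br (nat_lit 9) (nat_lit 1) (.cons (.br (nat_lit 11) (nat_lit 1) (.cons (.br (nat_lit 12) (nat_lit 1) (.cons (.ev (nat_lit 79229376180969519334616531200) (nat_lit 1)) .nil)) (.cons (.zr (nat_lit 101412048018258568578391393435648) (nat_lit 620188427088758666235478017) (nat_lit 5) (nat_lit 10)) .nil))) (.cons (.br (nat_lit 12) (nat_lit 1) (.cons (.ev (nat_lit 79228167255149622135248388353) (nat_lit 1)) (.cons (.rf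 (nat_lit 84) (nat_lit 9038767330)) .nil))) (.cons (.rf (nat_lit 84) (nat_lit 13167043623)) .nil)))) (.cons (.br (nat_lit 9) (nat_lit 1) (.cons (.br (nat_lit 12) (nat_lit 1) (.cons (.br (nat_lit 11) (nat_lit 1) (.cons (.ev (nat_lit 20520094110121327263927375234310) (nat_lit 3)) .nil)) (.cons (.ev (nat_lit 20361638975110201121347502866433) (nat_lit 1)) .nil))) (.cons (.rf (nat_lit 84) (nat_lit 14239737057)) (.cons (.rf (nat_lit 84) (nat_lit 13167043623)) .nil)))) .nil)))) (.cons (.rf (nat_lit 1339) (nat_lit 288078663745)) .nil)))))),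
 (.br (nat_lit 11) (nat_lit 1) (.cons (.ev (nat_lit 309489732260167007401410816) (nat_lit 1)) .nil)),
 (.br (nat_lit 8) (nat_lit 1) (.cons (.kr (nat_lit 72058693549555713) (nat_lit 18446744073726394368) (nat_lit 0) (nat_lit 1)) (.cons (.br (nat_lit 9) (nat_lit 1) (.cons (.ev (nat_lit 309489750634854586567950593) (nat_lit 1)) (.cons (.rf (nat_lit 2823) (nat_lit 493858305440582043680)) .nil))) (.cons (.rf (nat_lit 2407) (nat_lit 420143386531477948640)) .nil)))),
 (.br (nat_lit 11) (nat_lit 1) (.cons (.rf (nat_lit 2818) (nat_lit 308262647951633057066)) (.cons (.rf (nat_lit 2809) (nat_lit 492741342190238860576)) .nil))),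
 (.br (nat_lit 7) (nat_lit 1) (.cons (.ev (nat_lit 20282409617818986891975139066625) (nat_lit 2)) (.cons (.br (nat_lit 8) (nat_lit 1) (.cons (.ev (nat_lit 20282719088680010571787530141696) (nat_lit 1)) (.cons (.br (nat_lit 11) (nat_lit 1) (.cons (.ev (nat_lit 309489750634854586567950593) (nat_lit 1)) .nil)) .nil))) (.cons (.rf (nat_lit 2825) (nat_lit 493858305440582043680)) .nil)))),
 (.br (nat_lit 8) (nat_lit 1) (.cons (.rf (nat_lit 2824) (nat_lit 493858305440582043680)) (.cons (.rf (nat_lit 2826) (nat_lit 493858305440582043680)) (.cons (.br (nat_lit 11) (nat_lit 1) (.cons (.ev (nat_lit 1208944338417400745558273) (nat_lit 1)) (.cons (.ev (nat_lit 20282410817318303548094285938688) (nat_lit 1)) (.cons (.br (nat_lit 7) (nat_lit 1) (.cons (.ev (nat_lit 20838556598411817774538283221248) (nat_lit 3)) .nil)) .nil)))) .nil)))),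
 (.br (nat_lit 13) (nat_lit 1) (.cons (.rf (nat_lit 2819) (nat_lit 493858305440582043680)) (.cons (.rf (nat_lit 2822) (nat_lit 493858305440582043680)) (.cons (.rf (nat_lit 2816) (nat_lit 308262436845400530218)) (.cons (.br (nat_lit 8) (nat_lit 1) (.cons (.rf (nat_lit 2824) (nat_lit 493858305440582043680)) (.cons (.rf (nat_lit 2826) (nat_lit 493858305440582043680)) (.cons (.rf (nat_lit 2827) (nat_lit 493858305440582043680)) (.cons (.br (nat_lit 8) (nat_lit 1) (.cons (.rf (nat_lit 2407) (nat_lit 420143386531477948640)) (.cons (.rf (nat_lit 2826) (nat_lit 493858305440582043680)) (.cons (.rf (nat_lit 2827) (nat_lit 493858305440582043680)) .nil)))) .nil))))) .nil))))),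
 (.br (nat_lit 13) (nat_lit 1) (.cons (.rf (nat_lit 2819) (nat_lit 493858305440582043680)) (.cons (.rf (nat_lit 2822) (nat_lit 493858305440582043680)) (.cons (.rf (nat_lit 2816) (nat_lit 308262436845400530218)) (.cons (.rf (nat_lit 2828) (nat_lit 493858305440582043680)) (.cons (.br (nat_lit 13) (nat_lit 1) (.cons (.rf (nat_lit 2819) (nat_lit 493858305440582043680)) (.cons (.rf (nat_lit 2822) (nat_lit 493858305440582043680)) (.cons (.rf (nat_lit 2816) (nat_lit 308262436845400530218)) (.cons (.rf (nat_lit 2828) (nat_lit 493858305440582043680)) .nil))))) .nil)))))),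
 (.br (nat_lit 13) (nat_lit 1) (.cons (.rf (nat_lit 2829) (nat_lit 493858305440582043680)) (.cons (.rf (nat_lit 2816) (nat_lit 308262436845400530218)) (.cons (.br (nat_lit 1) (nat_lit 1) (.cons (.br (nat_lit 11) (nat_lit 1) (.cons (.zr (nat_lit 1547429789992013179601813504) (nat_lit 316915067908697142591068569602) (nat_lit 10) (nat_lit 6)) .nil)) (.cons (.ev (nat_lit 1208944338417400745558273) (nat_lit 1)) (.cons (.zr (nat_lit 81129638414607042272965112627207) (nat_lit 79237834013054974995623642624) (nat_lit 15) (nat_lit 5)) .nil)))) .nil)))),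
 (.br (nat_lit 8) (nat_lit 1) (.cons (.ev (nat_lit 18447026648197890304) (nat_lit 1)) (.cons (.rf (nat_lit 2829) (nat_lit 308262436845400530218)) (.cons (.br (nat_lit 13) (nat_lit 1) (.cons (.rf (nat_lit 2829) (nat_lit 493858305440582043680)) (.cons (.rf (nat_lit 2816) (nat_lit 308262436845400530218)) (.cons (.rf (nat_lit 2830) (nat_lit 493858305440582043680)) (.cons (.br (nat_lit 13) (nat_lit 1) (.cons (.rf (nat_lit 2829) (nat_lit 493858305440582043680)) (.cons (.ev (nat_lit 20282409608374036906821208244224) (nat_lit 1)) (.cons (.rf (nat_lit 2830) (nat_lit 493858305440582043680)) .nil)))) .nil))))) (.cons (.br (nat_lit 1) (nat_lit 1) (.cons (.ev (nat_lit 18519083142741033216) (nat_lit 1)) (.cons (.br (nat_lit 9) (nat_lit 1) (.cons (.ev (nat_lit 309489732188110512858398976) (nat_lit 1)) (.cons (.br (nat_lit 12) (nat_lit 1) (.cons (.kr (nat_lit 4740813226943371542528) (nat_lit 309485009893403762274336768) (nat_lit 3) (nat_lit 0)) (.cons (.zr (nat_lit 60847228810955011276239800369920) (nat_lit 1218407446349995172691969)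 (nat_lit 5) (nat_lit 4)) .nil))) (.cons (.rf (nat_lit 84) (nat_lit 12093301985)) .nil)))) (.cons (.br (nat_lit 9) (nat_lit 1) (.cons (.br (nat_lit 12) (nat_lit 1) (.cons (.zr (nat_lit 18890114457521503601927) (nat_lit 319156434825569143099817984) (nat_lit 15) (nat_lit 0)) (.cons (.zr (nat_lit 18890186515115541529607) (nat_lit 20282419275076674929492308066304) (nat_lit 15) (nat_lit 0)) .nil))) (.cons (.br (nat_lit 13) (nat_lit 1) (.cons (.zr (nat_lit 60847228810955011276239800369920) (nat_lit 1218407446349995172691969) (nat_lit 5) (nat_lit 4)) (.cons (.ev (nat_lit 79228167236702878061538836736) (nat_lit 1)) .nil))) (.cons (.rf (nat_lit 84) (nat_lit 13167043809)) .nil)))) (.cons (.rf (nat_lit 2594) (nat_lit 14330111201)) .nil))))) .nil))))),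
 (.br (nat_lit 8) (nat_lit 1) (.cons (.rf (nat_lit 2816) (nat_lit 493858305440582043680)) (.cons (.rf (nat_lit 2829) (nat_lit 308262436845400530218)) (.cons (.rf (nat_lit 2831) (nat_lit 493858305440582043680)) (.cons (.br (nat_lit 13) (nat_lit 1) (.cons (.ev (nat_lit 1208944338417400745558273) (nat_lit 1)) (.cons (.rf (nat_lit 2594) (nat_lit 14363657511)) (.cons (.br (nat_lit 1) (nat_lit 1) (.cons (.rf (nat_lit 31) (nat_lit 444827937)) (.cons (.br (nat_lit 9) (nat_lit 1) (.cons (.ev (nat_lit 20282719088680010571787530141696) (nat_lit 1)) (.cons (.zr (nat_lit 18890186515115541529607) (nat_lit 20282419275076674929492308066304) (nat_lit 15) (nat_lit 0)) .nil))) (.cons (.br (nat_lit 11) (nat_lit 1) (.cons (.zr (nat_lit 60847228810955011276239800369920) (nat_lit 1218407446349995172691969) (nat_lit 5) (nat_lit 4)) (.cons (.kr (nat_lit 20282409603651670423947251286272) (nat_lit 79228162514336395187581878272) (nat_lit 1) (nat_lit 0)) .nil))) .nil)))) (.cons (.rf (nat_lit 2831) (nat_lit 308262436845400530218))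 .nil))))) .nil))))),
 (.br (nat_lit 8) (nat_lit 1) (.cons (.rf (nat_lit 2816) (nat_lit 493858305440582043680)) (.cons (.rf (nat_lit 2829) (nat_lit 308262436845400530218)) (.cons (.rf (nat_lit 2831) (nat_lit 493858305440582043680)) (.cons (.rf (nat_lit 2832) (nat_lit 493858305440582043680)) (.cons (.br (nat_lit 8) (nat_lit 1) (.cons (.rf (nat_lit 1339) (nat_lit 459871949025)) (.cons (.rf (nat_lit 1339) (nat_lit 459603742946)) (.cons (.rf (nat_lit 2831) (nat_lit 493858305440582043680)) (.cons (.rf (nat_lit 2832) (nat_lit 493858305440582043680)) .nil))))) .nil)))))),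
 (.br (nat_lit 9) (nat_lit 1) (.cons (.kr (nat_lit 20282409608392483650890606051584) (nat_lit 79537647524157740256306724864) (nat_lit 1) (nat_lit 0)) .nil)),
 (.br (nat_lit 13) (nat_lit 1) (.cons (.rf (nat_lit 2829) (nat_lit 493858305440582043680)) (.cons (.rf (nat_lit 2833) (nat_lit 493858305440582043680)) (.cons (.rf (nat_lit 2816) (nat_lit 308262436845400530218)) (.cons (.br (nat_lit 1) (nat_lit 1) (.cons (.br (nat_lit 8) (nat_lit 1) (.cons (.rf (nat_lit 29) (nat_lit 8685793)) (.cons (.br (nat_lit 12) (nat_lit 1) (.cons (.zr (nat_lit 14222439680830064296704) (nat_lit 40564820416229160745102477361153) (nat_lit 5) (nat_lit 0)) (.cons (.zr (nat_lit 60847228810955011274040793891584) (nat_lit 620178945606701433971802113) (nat_lit 5) (nat_lit 4)) .nil))) (.cons (.br (nat_lit 11) (nat_lit 1) (.cons (.zr (nat_lit 14222439680830064296704) (nat_lit 40564820416229160745102477361153) (nat_lit 5) (nat_lit 0)) (.cons (.kr (nat_lit 20282409603651670423947251286272) (nat_lit 79228162514336395187581878272) (nat_lit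 1) (nat_lit 0)) .nil))) .nil)))) (.cons (.rf (nat_lit 2816) (nat_lit 493858305440582043680)) (.cons (.br (nat_lit 7) (nat_lit 1) (.cons (.rf (nat_lit 29) (nat_lit 8620321)) (.cons (.br (nat_lit 11) (nat_lit 1) (.cons (.rf (nat_lit 31) (nat_lit 377719073)) (.cons (.zr (nat_lit 928455029464035206174540544) (nat_lit 40564820416229160745102477361153) (nat_lit 5) (nat_lit 0)) .nil))) (.cons (.br (nat_lit 12) (nat_lit 1) (.cons (.ev (nat_lit 40644048583465863905729931575810) (nat_lit 2)) (.cons (.ev (nat_lit 20361640193462451637975016080130) (nat_lit 2)) .nil))) .nil)))) (.cons (.br (nat_lit 11) (nat_lit 1) (.cons (.ev (nat_lit 20283338058681279419878844990210) (nat_lit 2)) (.cons (.ev (nat_lit 20282719088661491769020287877121) (nat_lit 1)) (.cons (.br (nat_lit 7) (nat_lit 1) (.cons (.rf (nat_lit 82) (nat_lit 14336433217)) (.cons (.br (nat_lit 8) (nat_lit 1) (.cons (.ev (nat_lit 79537647524085683766075326721) (nat_lit 1)) .nil)) .nil))) (.cons (.br (nat_lit 8) (nat_lit 1) (.cons (.rf (nat_lit 2834) (nat_lit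 493858305440582043680)) (.cons (.ev (nat_lit 310698658007442571839668481) (nat_lit 1)) (.cons (.br (nat_lit 7) (nat_lit 1) (.cons (.zr (nat_lit 23704066134716773827840) (nat_lit 159076503974135377720588238849) (nat_lit 5) (nat_lit 0)) .nil)) .nil)))) .nil))))) (.cons (.br (nat_lit 7) (nat_lit 1) (.cons (.br (nat_lit 9) (nat_lit 1) (.cons (.zr (nat_lit 14222439680830064296704) (nat_lit 40564820416229160745102477361153) (nat_lit 5) (nat_lit 0)) (.cons (.rf (nat_lit 82) (nat_lit 14369987649)) .nil))) (.cons (.br (nat_lit 8) (nat_lit 1) (.cons (.zr (nat_lit 14222439680830064296704) (nat_lit 40564820416229160745102477361153) (nat_lit 5) (nat_lit 0)) (.cons (.ev (nat_lit 79228167255077565640705376513) (nat_lit 1)) .nil))) (.cons (.br (nat_lit 11) (nat_lit 1) (.cons (.ev (nat_lit 1208944338417400745558273) (nat_lit 1)) (.cons (.zr (nat_lit 928455029464035206174540544) (nat_lit 40564820416229160745102477361153) (nat_lit 5) (nat_lit 0)) (.cons (.ev (nat_lit 20361637766166007101709321502721) (nat_lit 1))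 .nil)))) (.cons (.zr (nat_lit 237684487542793575734880436224) (nat_lit 40564820416229160463623205683713) (nat_lit 5) (nat_lit 5)) .nil))))) .nil)))))) .nil)))))]

theorem c93 : chkAll C T R L93 (nat_lit 2809) = true := by decide +kernel

theorem l93 : (nat_lit 2809) + L93.length = (nat_lit 2836) := by decide +kernel

/-- part of the certificates -/
def L94 : List Prf := [(.br (nat_lit 13) (nat_lit 1) (.cons (.rf (nat_lit 2829) (nat_lit 493858305440582043680)) (.cons (.rf (nat_lit 2833) (nat_lit 493858305440582043680)) (.cons (.rf (nat_lit 2816) (nat_lit 308262436845400530218)) (.cons (.rf (nat_lit 2835) (nat_lit 493858305440582043680)) (.cons (.br (nat_lit 13) (nat_lit 1) (.cons (.rf (nat_lit 2829) (nat_lit 493858305440582043680)) (.cons (.rf (nat_lit 2833) (nat_lit 493858305440582043680)) (.cons (.rf (nat_lit 2816) (nat_lit 308262436845400530218)) (.cons (.rf (nat_lit 2835) (nat_lit 493858305440582043680)) .nil))))) .nil)))))),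
 (.br (nat_lit 13) (nat_lit 1) (.cons (.rf (nat_lit 2829) (nat_lit 493858305440582043680)) (.cons (.rf (nat_lit 2833) (nat_lit 493858305440582043680)) (.cons (.rf (nat_lit 2836) (nat_lit 493858305440582043680)) (.cons (.rf (nat_lit 2816) (nat_lit 308262436845400530218)) (.cons (.br (nat_lit 13) (nat_lit 1) (.cons (.rf (nat_lit 2829) (nat_lit 493858305440582043680)) (.cons (.rf (nat_lit 2833) (nat_lit 493858305440582043680)) (.cons (.rf (nat_lit 2836) (nat_lit 493858305440582043680)) (.cons (.rf (nat_lit 2816) (nat_lit 308262436845400530218)) .nil))))) .nil)))))),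
 (.br (nat_lit 13) (nat_lit 1) (.cons (.rf (nat_lit 2829) (nat_lit 493858305440582043680)) (.cons (.rf (nat_lit 2833) (nat_lit 493858305440582043680)) (.cons (.rf (nat_lit 2836) (nat_lit 493858305440582043680)) (.cons (.rf (nat_lit 2816) (nat_lit 308262436845400530218)) (.cons (.rf (nat_lit 2837) (nat_lit 493858305440582043680)) (.cons (.br (nat_lit 13) (nat_lit 1) (.cons (.rf (nat_lit 2829) (nat_lit 493858305440582043680)) (.cons (.rf (nat_lit 2833) (nat_lit 493858305440582043680)) (.cons (.rf (nat_lit 2836) (nat_lit 493858305440582043680)) (.cons (.rf (nat_lit 2816) (nat_lit 308262436845400530218)) (.cons (.rf (nat_lit 2837) (nat_lit 493858305440582043680)) .nil)))))) .nil))))))),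
 (.br (nat_lit 12) (nat_lit 1) (.cons (.ev (nat_lit 79228162514481355912984462081) (nat_lit 2)) (.cons (.rf (nat_lit 2594) (nat_lit 8960477479)) (.cons (.br (nat_lit 2) (nat_lit 1) (.cons (.ev (nat_lit 79229376162522775260906979585) (nat_lit 1)) (.cons (.br (nat_lit 8) (nat_lit 1) (.cons (.ev (nat_lit 309489750634854586567950593) (nat_lit 1)) (.cons (.br (nat_lit 11) (nat_lit 1) (.cons (.zr (nat_lit 618979482822399950499938560) (nat_lit 158457533954492687583121768449) (nat_lit 5) (nat_lit 6)) .nil)) .nil))) (.cons (.br (nat_lit 8) (nat_lit 1) (.cons (.br (nat_lit 11) (nat_lit 1) (.cons (.ev (nat_lit 20680719252884845915173862572806) (nat_lit 3)) .nil)) (.cons (.ev (nat_lit 20361637766184381787089498341376) (nat_lit 1)) .nil))) .nil)))) .nil)))),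
 (.br (nat_lit 12) (nat_lit 1) (.cons (.ev (nat_lit 79228167255149622135248388353) (nat_lit 1)) .nil)),
 (.br (nat_lit 2) (nat_lit 1) (.cons (.rf (nat_lit 84) (nat_lit 14336206049)) (.cons (.br (nat_lit 11) (nat_lit 1) (.cons (.rf (nat_lit 2840) (nat_lit 493858305440582043680)) (.cons (.br (nat_lit 11) (nat_lit 1) (.cons (.rf (nat_lit 2840) (nat_lit 493858305440582043680)) .nil)) .nil))) (.cons (.rf (nat_lit 82) (nat_lit 12255831265)) .nil)))),
 (.br (nat_lit 11) (nat_lit 1) (.cons (.rf (nat_lit 2820) (nat_lit 493750222348060035104)) (.cons (.br (nat_lit 11) (nat_lit 1) (.cons (.rf (nat_lit 2820) (nat_lit 493750222348060035104)) .nil)) .nil))),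
 (.br (nat_lit 1) (nat_lit 1) (.cons (.rf (nat_lit 29) (nat_lit 8690753)) (.cons (.rf (nat_lit 58) (nat_lit 8690722)) (.cons (.br (nat_lit 11) (nat_lit 1) (.cons (.rf (nat_lit 1343) (nat_lit 457792817191)) (.cons (.rf (nat_lit 1339) (nat_lit 390917820455)) (.cons (.br (nat_lit 11) (nat_lit 1) (.cons (.rf (nat_lit 82) (nat_lit 13165168679)) (.cons (.rf (nat_lit 2594) (nat_lit 8993999143)) (.cons (.ev (nat_lit 310698658007442571839668481) (nat_lit 1)) .nil)))) (.cons (.br (nat_lit 11) (nat_lit 1) (.cons (.rf (nat_lit 82) (nat_lit 14238910503)) (.cons (.rf (nat_lit 2594) (nat_lit 9027553575)) (.cons (.ev (nat_lit 310698658007442571839668481) (nat_lit 1)) .nil)))) .nil))))) (.cons (.br (nat_lit 12) (nat_lit 1) (.cons (.rf (nat_lit 1343) (nat_lit 457826371623)) (.cons (.rf (nat_lit 1339) (nat_lit 424203819047)) (.cons (.rf (nat_lit 2839) (nat_lit 493858305440582043680)) (.cons (.br (nat_lit 12) (nat_lit 1) (.cons (.rf (nat_lit 82) (nat_lit 14239959079)) (.cons (.rf (nat_lit 2594) (nat_lit 9027586343))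 (.cons (.rf (nat_lit 2839) (nat_lit 493858305440582043680)) .nil)))) .nil))))) (.cons (.br (nat_lit 8) (nat_lit 1) (.cons (.kr (nat_lit 72058693549555713) (nat_lit 18446744073726394368) (nat_lit 0) (nat_lit 1)) (.cons (.rf (nat_lit 2841) (nat_lit 493858305440582043680)) (.cons (.br (nat_lit 2) (nat_lit 1) (.cons (.rf (nat_lit 2842) (nat_lit 493858305440582043680)) (.cons (.rf (nat_lit 84) (nat_lit 14369760481)) (.cons (.ev (nat_lit 1213666704900270374060033) (nat_lit 1)) .nil)))) (.cons (.rf (nat_lit 1339) (nat_lit 459637297191)) .nil))))) .nil)))))),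
 (.br (nat_lit 11) (nat_lit 1) (.cons (.br (nat_lit 12) (nat_lit 1) (.cons (.ev (nat_lit 21791153905197988512471327768852) (nat_lit 5)) .nil)) .nil)),
 (.br (nat_lit 10) (nat_lit 1) (.cons (.kr (nat_lit 4722366482869661990912) (nat_lit 1208925819615728686333952) (nat_lit 3) (nat_lit 0)) .nil)),
 (.br (nat_lit 12) (nat_lit 1) (.cons (.rf (nat_lit 84) (nat_lit 14239900737)) (.cons (.br (nat_lit 11) (nat_lit 1) (.cons (.ev (nat_lit 309489732260167007401410816) (nat_lit 1)) .nil)) (.cons (.rf (nat_lit 84) (nat_lit 9038767175)) .nil)))),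
 (.br (nat_lit 2) (nat_lit 1) (.cons (.rf (nat_lit 31) (nat_lit 444636450)) (.cons (.br (nat_lit 9) (nat_lit 1) (.cons (.rf (nat_lit 84) (nat_lit 14238852161)) (.cons (.br (nat_lit 11) (nat_lit 1) (.cons (.ev (nat_lit 310693936002657272060839682) (nat_lit 3)) (.cons (.ev (nat_lit 310698676454186645549220096) (nat_lit 1)) .nil))) (.cons (.ev (nat_lit 4740885566012369403904) (nat_lit 1)) .nil)))) (.cons (.br (nat_lit 9) (nat_lit 1) (.cons (.br (nat_lit 12) (nat_lit 1) (.cons (.br (nat_lit 12) (nat_lit 1) (.cons (.ev (nat_lit 79229376180969519334616531200) (nat_lit 1)) .nil)) (.cons (.br (nat_lit 11) (nat_lit 1) (.cons (.ev (nat_lit 79229376180969519334616531200) (nat_lit 1)) .nil)) .nil))) (.cons (.rf (nat_lit 2846) (nat_lit 493858305440582043680)) (.cons (.ev (nat_lit 4740885566012369403904) (nat_lit 1)) .nil)))) (.cons (.rf (nat_lit 2594) (nat_lit 14335353921)) .nil))))),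
 (.br (nat_lit 12) (nat_lit 1) (.cons (.kr (nat_lit 20282409608392483650890606051584) (nat_lit 79537647524157740256306724864) (nat_lit 1) (nat_lit 0)) .nil)),
 (.br (nat_lit 11) (nat_lit 1) (.cons (.kr (nat_lit 20282409608392483650890606051584) (nat_lit 79537647524157740256306724864) (nat_lit 1) (nat_lit 0)) .nil)),
 (.br (nat_lit 1) (nat_lit 1) (.cons (.rf (nat_lit 31) (nat_lit 444669217)) (.cons (.br (nat_lit 9) (nat_lit 1) (.cons (.rf (nat_lit 84) (nat_lit 14238852130)) (.cons (.br (nat_lit 11) (nat_lit 1) (.cons (.rf (nat_lit 2848) (nat_lit 493858305440582043680)) (.cons (.ev (nat_lit 310698658007442571839668481) (nat_lit 1)) .nil))) (.cons (.ev (nat_lit 4740885566012369403904) (nat_lit 1)) .nil)))) (.cons (.br (nat_lit 9) (nat_lit 1) (.cons (.br (nat_lit 11) (nat_lit 1) (.cons (.br (nat_lit 12) (nat_lit 1) (.cons (.zr (nat_lit 237684487543009189960792145920) (nat_lit 620178945462586245912854529) (nat_lit 5) (nat_lit 4)) .nil)) (.cons (.ev (nat_lit 20282720297605758410293365440513) (nat_lit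 1)) .nil))) (.cons (.br (nat_lit 12) (nat_lit 1) (.cons (.rf (nat_lit 2849) (nat_lit 493858305440582043680)) (.cons (.ev (nat_lit 20361637766184381787089498341376) (nat_lit 1)) .nil))) (.cons (.ev (nat_lit 4740885566012369403904) (nat_lit 1)) .nil)))) (.cons (.rf (nat_lit 2594) (nat_lit 14335353921)) .nil))))),
 (.br (nat_lit 13) (nat_lit 1) (.cons (.rf (nat_lit 2847) (nat_lit 493858305440582043680)) (.cons (.rf (nat_lit 2850) (nat_lit 493858305440582043680)) (.cons (.ev (nat_lit 4740885566012369403904) (nat_lit 1)) (.cons (.br (nat_lit 9) (nat_lit 1) (.cons (.ev (nat_lit 20282409603670189226718822138113) (nat_lit 1)) (.cons (.br (nat_lit 12) (nat_lit 1) (.cons (.zr (nat_lit 14222439680830064296704) (nat_lit 40564820416229160745102477361153) (nat_lit 5) (nat_lit 0)) (.cons (.zr (nat_lit 928464474197000945498390528) (nat_lit 40564820416229160745102460583937) (nat_lit 5) (nat_lit 6)) .nil))) (.cons (.ev (nat_lit 20282719088661563827713820590081) (nat_lit 1)) (.cons (.br (nat_lit 1) (nat_lit 1) (.cons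 (.zr (nat_lit 14222439680830064296704) (nat_lit 40564820416229160745102477361153) (nat_lit 5) (nat_lit 0)) (.cons (.ev (nat_lit 310698658007442571839668481) (nat_lit 1)) (.cons (.br (nat_lit 2) (nat_lit 1) (.cons (.ev (nat_lit 310703417484433003561222914) (nat_lit 2)) .nil)) .nil)))) .nil))))) .nil))))),
 (.br (nat_lit 8) (nat_lit 1) (.cons (.rf (nat_lit 2816) (nat_lit 493858305440582043680)) (.cons (.rf (nat_lit 2838) (nat_lit 493858305440582043680)) (.cons (.rf (nat_lit 2843) (nat_lit 493858305440582043680)) (.cons (.br (nat_lit 9) (nat_lit 1) (.cons (.br (nat_lit 2) (nat_lit 1) (.cons (.rf (nat_lit 31) (nat_lit 377560353)) (.cons (.rf (nat_lit 31) (nat_lit 411114785)) (.cons (.br (nat_lit 11) (nat_lit 1) (.cons (.rf (nat_lit 2844) (nat_lit 493858305440582043680)) (.cons (.br (nat_lit 11) (nat_lit 1) (.cons (.rf (nat_lit 2844) (nat_lit 493858305440582043680)) .nil)) .nil))) .nil)))) (.cons (.br (nat_lit 1) (nat_lit 1) (.cons (.rf (nat_lit 31) (nat_lit 377527586)) (.cons (.rf (nat_lit 31) (nat_lit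 411082018)) (.cons (.br (nat_lit 11) (nat_lit 1) (.cons (.br (nat_lit 13) (nat_lit 1) (.cons (.kr (nat_lit 9463179709812999979264) (nat_lit 309485009821345068741689344) (nat_lit 1) (nat_lit 0)) (.cons (.zr (nat_lit 4777706716190285497088) (nat_lit 158457533954348571295551062017) (nat_lit 5) (nat_lit 0)) .nil))) (.cons (.br (nat_lit 12) (nat_lit 1) (.cons (.kr (nat_lit 9463179709812999979264) (nat_lit 309485009821345068741689344) (nat_lit 1) (nat_lit 0)) (.cons (.zr (nat_lit 14222439680830081204992) (nat_lit 40564820416229304862489559695361) (nat_lit 5) (nat_lit 0)) .nil))) .nil))) .nil)))) (.cons (.br (nat_lit 1) (nat_lit 1) (.cons (.rf (nat_lit 31) (nat_lit 377789505)) (.cons (.rf (nat_lit 2594) (nat_lit 12221417761)) (.cons (.br (nat_lit 2) (nat_lit 1) (.cons (.rf (nat_lit 84) (nat_lit 13165110337)) (.cons (.rf (nat_lit 84) (nat_lit 12092409897)) (.cons (.br (nat_lit 11) (nat_lit 1) (.cons (.ev (nat_lit 79537652264970967203956391936) (nat_lit 1)) (.cons (.rf (nat_lit 2845) (nat_lit 482282366427073601))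 .nil))) .nil)))) (.cons (.br (nat_lit 2) (nat_lit 1) (.cons (.rf (nat_lit 84) (nat_lit 14238852161)) (.cons (.br (nat_lit 13) (nat_lit 1) (.cons (.rf (nat_lit 2088) (nat_lit 458116647910369303584)) (.cons (.br (nat_lit 11) (nat_lit 1) (.cons (.ev (nat_lit 79537652246524223130246840321) (nat_lit 1)) .nil)) .nil))) (.cons (.rf (nat_lit 2843) (nat_lit 308262436845400530218)) .nil)))) .nil))))) (.cons (.ev (nat_lit 4740885566012369403904) (nat_lit 1)) (.cons (.rf (nat_lit 2816) (nat_lit 308262436845400530218)) .nil)))))) (.cons (.br (nat_lit 13) (nat_lit 1) (.cons (.rf (nat_lit 2847) (nat_lit 493858305440582043680)) (.cons (.rf (nat_lit 2850) (nat_lit 493858305440582043680)) (.cons (.ev (nat_lit 4740885566012369403904) (nat_lit 1)) (.cons (.rf (nat_lit 2851) (nat_lit 493858305440582043680)) (.cons (.br (nat_lit 13) (nat_lit 1) (.cons (.rf (nat_lit 2847) (nat_lit 493858305440582043680)) (.cons (.rf (nat_lit 2850) (nat_lit 493858305440582043680)) (.cons (.ev (nat_lit 4740885566012369403904) (nat_lit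 1)) (.cons (.rf (nat_lit 2851) (nat_lit 493858305440582043680)) .nil))))) .nil)))))) .nil)))))),
 (.br (nat_lit 2) (nat_lit 1) (.cons (.ev (nat_lit 310698676526245339115618560) (nat_lit 1)) (.cons (.br (nat_lit 11) (nat_lit 1) (.cons (.ev (nat_lit 309489732188110512858398976) (nat_lit 1)) (.cons (.rf (nat_lit 2796) (nat_lit 482177951511777345)) .nil))) (.cons (.br (nat_lit 13) (nat_lit 1) (.cons (.ev (nat_lit 309489732188110512858398976) (nat_lit 1)) (.cons (.rf (nat_lit 2852) (nat_lit 308262436845400530218)) .nil))) .nil)))),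
 (.br (nat_lit 11) (nat_lit 1) (.cons (.ev (nat_lit 309485010038081900303680257) (nat_lit 2)) (.cons (.ev (nat_lit 309489750634854586567950593) (nat_lit 1)) .nil))),
 (.br (nat_lit 1) (nat_lit 1) (.cons (.ev (nat_lit 310698676526245339115618560) (nat_lit 1)) (.cons (.rf (nat_lit 2854) (nat_lit 493858305440582043680)) (.cons (.rf (nat_lit 2854) (nat_lit 458117738797769787424)) .nil)))),
 (.br (nat_lit 2) (nat_lit 1) (.cons (.kr (nat_lit 20282409608392483650890606051584) (nat_lit 79537647524157740256306724864) (nat_lit 1) (nat_lit 0)) .nil)),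
 (.br (nat_lit 11) (nat_lit 1) (.cons (.rf (nat_lit 2853) (nat_lit 493858305440582043680)) (.cons (.rf (nat_lit 2855) (nat_lit 493858305440582043680)) (.cons (.br (nat_lit 1) (nat_lit 1) (.cons (.br (nat_lit 12) (nat_lit 1) (.cons (.zr (nat_lit 23704066134716773827840) (nat_lit 159076503974135377720588238849) (nat_lit 5) (nat_lit 0)) .nil)) (.cons (.rf (nat_lit 2856) (nat_lit 493858305440582043680)) (.cons (.br (nat_lit 2) (nat_lit 1) (.cons (.ev (nat_lit 20521653610390659590908285880076) (nat_lit 4)) .nil)) .nil)))) .nil)))),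
 (.br (nat_lit 8) (nat_lit 1) (.cons (.rf (nat_lit 2816) (nat_lit 493858305440582043680)) (.cons (.rf (nat_lit 2838) (nat_lit 493858305440582043680)) (.cons (.rf (nat_lit 2843) (nat_lit 493858305440582043680)) (.cons (.rf (nat_lit 2852) (nat_lit 493858305440582043680)) (.cons (.br (nat_lit 9) (nat_lit 1) (.cons (.ev (nat_lit 1213666632841576841216001) (nat_lit 1)) (.cons (.br (nat_lit 1) (nat_lit 1) (.cons (.br (nat_lit 11) (nat_lit 1) (.cons (.br (nat_lit 13) (nat_lit 1) (.cons (.kr (nat_lit 9463179709812999979264) (nat_lit 309485009893403762274402304) (nat_lit 1) (nat_lit 0)) (.cons (.zr (nat_lit 4777706716190285497088) (nat_lit 158457533954348571295551062017) (nat_lit 5) (nat_lit 0)) .nil))) (.cons (.br (nat_lit 12) (nat_lit 1) (.cons (.kr (nat_lit 9463179709812999979264) (nat_lit 309485009893403762274402304) (nat_lit 1) (nat_lit 0)) (.cons (.zr (nat_lit 14222439680830064296704) (nat_lit 40564820416229160745102477361153) (nat_lit 5) (nat_lit 0)) .nil))) .nil))) (.cons (.rf (nat_lit 31) (nat_lit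 411082018)) (.cons (.rf (nat_lit 31) (nat_lit 444636450)) .nil)))) (.cons (.br (nat_lit 11) (nat_lit 1) (.cons (.rf (nat_lit 2853) (nat_lit 493858305440582043680)) (.cons (.rf (nat_lit 2855) (nat_lit 493858305440582043680)) (.cons (.rf (nat_lit 2857) (nat_lit 493858305440582043680)) (.cons (.br (nat_lit 11) (nat_lit 1) (.cons (.rf (nat_lit 2853) (nat_lit 493858305440582043680)) (.cons (.rf (nat_lit 2855) (nat_lit 493858305440582043680)) (.cons (.rf (nat_lit 2857) (nat_lit 493858305440582043680)) .nil)))) .nil))))) (.cons (.br (nat_lit 1) (nat_lit 1) (.cons (.rf (nat_lit 31) (nat_lit 411343937)) (.cons (.br (nat_lit 12) (nat_lit 1) (.cons (.rf (nat_lit 84) (nat_lit 12092417089)) (.cons (.br (nat_lit 2) (nat_lit 1) (.cons (.rf (nat_lit 84) (nat_lit 9004419111)) (.cons (.br (nat_lit 11) (nat_lit 1) (.cons (.zr (nat_lit 237684487542793012780699156480) (nat_lit 620178945606702533483429889) (nat_lit 5) (nat_lit 4)) .nil)) .nil))) (.cons (.ev (nat_lit 79229376162450716567340581121) (nat_lit 1)) .nil))))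 (.cons (.ev (nat_lit 79228167236702878061538836736) (nat_lit 1)) (.cons (.br (nat_lit 2) (nat_lit 1) (.cons (.br (nat_lit 11) (nat_lit 1) (.cons (.ev (nat_lit 79229376162450716567340581121) (nat_lit 1)) (.cons (.rf (nat_lit 2821) (nat_lit 15433072039647419424)) .nil))) (.cons (.ev (nat_lit 79228167255149622135248388353) (nat_lit 1)) (.cons (.rf (nat_lit 84) (nat_lit 13167200297)) .nil)))) .nil))))) (.cons (.rf (nat_lit 2816) (nat_lit 308262436845400530218)) .nil)))))) .nil)))))),
 (.br (nat_lit 8) (nat_lit 1) (.cons (.rf (nat_lit 2816) (nat_lit 493858305440582043680)) (.cons (.rf (nat_lit 2838) (nat_lit 493858305440582043680)) (.cons (.rf (nat_lit 2843) (nat_lit 493858305440582043680)) (.cons (.rf (nat_lit 2852) (nat_lit 493858305440582043680)) (.cons (.rf (nat_lit 2858) (nat_lit 493858305440582043680)) (.cons (.br (nat_lit 8) (nat_lit 1) (.cons (.rf (nat_lit 2816) (nat_lit 493858305440582043680)) (.cons (.rf (nat_lit 2838) (nat_lit 493858305440582043680)) (.cons (.rf (nat_lit 2843) (nat_lit 493858305440582043680))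 (.cons (.rf (nat_lit 2852) (nat_lit 493858305440582043680)) (.cons (.rf (nat_lit 2858) (nat_lit 493858305440582043680)) .nil)))))) .nil))))))),
 (.br (nat_lit 13) (nat_lit 1) (.cons (.rf (nat_lit 2859) (nat_lit 308262436845400530218)) (.cons (.rf (nat_lit 2838) (nat_lit 308262436845400530218)) (.cons (.br (nat_lit 13) (nat_lit 1) (.cons (.rf (nat_lit 2859) (nat_lit 308262436845400530218)) (.cons (.rf (nat_lit 2838) (nat_lit 308262436845400530218)) (.cons (.ev (nat_lit 20282415657817735748358563168769) (nat_lit 3)) .nil)))) (.cons (.br (nat_lit 13) (nat_lit 1) (.cons (.rf (nat_lit 2841) (nat_lit 308262436845400530218)) (.cons (.rf (nat_lit 2838) (nat_lit 308262436845400530218)) (.cons (.ev (nat_lit 20282415657817735748358563168769) (nat_lit 3)) .nil)))) .nil)))))]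

theorem c94 : chkAll C T R L94 (nat_lit 2836) = true := by decide +kernel

theorem l94 : (nat_lit 2836) + L94.length = (nat_lit 2861) := by decide +kernel

/-- part of the certificates -/
def L95 : List Prf := [(.br (nat_lit 13) (nat_lit 1) (.cons (.rf (nat_lit 2860) (nat_lit 493858305440582043680)) (.cons (.rf (nat_lit 2859) (nat_lit 308262436845400530218)) (.cons (.rf (nat_lit 2838) (nat_lit 308262436845400530218)) (.cons (.br (nat_lit 13) (nat_lit 1) (.cons (.ev (nat_lit 20282415657817735748358563168769) (nat_lit 3)) (.cons (.rf (nat_lit 2859) (nat_lit 308262436845400530218)) (.cons (.rf (nat_lit 2838) (nat_lit 308262436845400530218)) .nil)))) .nil))))),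
 (.br (nat_lit 2) (nat_lit 1) (.cons (.rf (nat_lit 31) (nat_lit 444638434)) (.cons (.br (nat_lit 7) (nat_lit 1) (.cons (.ev (nat_lit 309489750634854586567950593) (nat_lit 1)) (.cons (.br (nat_lit 12) (nat_lit 1) (.cons (.br (nat_lit 12) (nat_lit 1) (.cons (.ev (nat_lit 79231798755119627026135253761) (nat_lit 2)) .nil)) (.cons (.br (nat_lit 11) (nat_lit 1) (.cons (.ev (nat_lit 79231798755119627026135253761) (nat_lit 2)) .nil)) .nil))) (.cons (.ev (nat_lit 20282410812595937065224623882496) (nat_lit 1)) .nil)))) (.cons (.br (nat_lit 7) (nat_lit 1) (.cons (.br (nat_lit 12) (nat_lit 1) (.cons (.br (nat_lit 12) (nat_lit 1) (.cons (.zr (nat_lit 55340233320674033664) (nat_lit 158457543399081537034824712193) (nat_lit 5) (nat_lit 0)) .nil)) (.cons (.br (nat_lit 11) (nat_lit 1) (.cons (.zr (nat_lit 55340233320674033664) (nat_lit 158457543399081537034824712193) (nat_lit 5) (nat_lit 0)) .nil)) .nil))) (.cons (.br (nat_lit 12) (nat_lit 1) (.cons (.rf (nat_lit 2407) (nat_lit 492585761537572117578)) (.cons (.ev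 (nat_lit 20361638979814192916637964828928) (nat_lit 1)) .nil))) (.cons (.ev (nat_lit 20282410812595937065224623882496) (nat_lit 1)) .nil)))) (.cons (.rf (nat_lit 2594) (nat_lit 14337449025)) .nil))))),
 (.br (nat_lit 12) (nat_lit 1) (.cons (.zr (nat_lit 55340232221162405888) (nat_lit 40564820416229160745102460583937) (nat_lit 5) (nat_lit 0)) (.cons (.br (nat_lit 2) (nat_lit 1) (.cons (.ev (nat_lit 20678864760640375916272959029508) (nat_lit 3)) .nil)) (.cons (.ev (nat_lit 79228162532711082771076874241) (nat_lit 1)) .nil)))),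
 (.br (nat_lit 13) (nat_lit 1) (.cons (.rf (nat_lit 2862) (nat_lit 493858305440582043680)) (.cons (.rf (nat_lit 2859) (nat_lit 308262436845400530218)) (.cons (.rf (nat_lit 2838) (nat_lit 308262436845400530218)) (.cons (.br (nat_lit 12) (nat_lit 1) (.cons (.rf (nat_lit 2863) (nat_lit 493858305440582043680)) (.cons (.zr (nat_lit 55340232221162405888) (nat_lit 40564820416229160745102460583937) (nat_lit 5) (nat_lit 0)) (.cons (.br (nat_lit 12) (nat_lit 1) (.cons (.rf (nat_lit 2863) (nat_lit 493858305440582043680)) (.cons (.zr (nat_lit 55340232221162405888) (nat_lit 40564820416229160745102460583937) (nat_lit 5) (nat_lit 0)) (.cons (.ev (nat_lit 79538861190718805709791690753) (nat_lit 1)) .nil)))) (.cons (.br (nat_lit 12) (nat_lit 1) (.cons (.ev (nat_lit 79228162532711082771076874241) (nat_lit 1)) (.cons (.zr (nat_lit 55340233320674033664) (nat_lit 158457543399081537034824712193) (nat_lit 5) (nat_lit 0)) (.cons (.ev (nat_lit 79538861190718805709791690753) (nat_lit 1)) .nil)))) .nil))))) .nil))))),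
 (.br (nat_lit 8) (nat_lit 1) (.cons (.rf (nat_lit 2816) (nat_lit 493858305440582043680)) (.cons (.rf (nat_lit 2838) (nat_lit 493858305440582043680)) (.cons (.rf (nat_lit 2859) (nat_lit 493858305440582043680)) (.cons (.br (nat_lit 13) (nat_lit 1) (.cons (.rf (nat_lit 2860) (nat_lit 493858305440582043680)) (.cons (.rf (nat_lit 2859) (nat_lit 308262436845400530218)) (.cons (.rf (nat_lit 2838) (nat_lit 308262436845400530218)) (.cons (.rf (nat_lit 2861) (nat_lit 493858305440582043680)) (.cons (.br (nat_lit 13) (nat_lit 1) (.cons (.rf (nat_lit 2860) (nat_lit 493858305440582043680)) (.cons (.rf (nat_lit 2859) (nat_lit 308262436845400530218)) (.cons (.rf (nat_lit 2838) (nat_lit 308262436845400530218)) (.cons (.rf (nat_lit 2861) (nat_lit 493858305440582043680)) .nil))))) .nil)))))) (.cons (.br (nat_lit 13) (nat_lit 1) (.cons (.rf (nat_lit 2862) (nat_lit 493858305440582043680)) (.cons (.rf (nat_lit 2859) (nat_lit 308262436845400530218)) (.cons (.rf (nat_lit 2838) (nat_lit 308262436845400530218)) (.cons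 (.rf (nat_lit 2864) (nat_lit 493858305440582043680)) (.cons (.br (nat_lit 13) (nat_lit 1) (.cons (.rf (nat_lit 2862) (nat_lit 493858305440582043680)) (.cons (.rf (nat_lit 2859) (nat_lit 308262436845400530218)) (.cons (.rf (nat_lit 2838) (nat_lit 308262436845400530218)) (.cons (.rf (nat_lit 2864) (nat_lit 493858305440582043680)) .nil))))) .nil)))))) .nil)))))),
 (.br (nat_lit 13) (nat_lit 1) (.cons (.ev (nat_lit 20282409608392483650894917795841) (nat_lit 1)) (.cons (.rf (nat_lit 2594) (nat_lit 14370998497)) (.cons (.br (nat_lit 2) (nat_lit 1) (.cons (.rf (nat_lit 31) (nat_lit 444638434)) (.cons (.br (nat_lit 7) (nat_lit 1) (.cons (.ev (nat_lit 20282720302309678149089284391168) (nat_lit 1)) (.cons (.br (nat_lit 11) (nat_lit 1) (.cons (.ev (nat_lit 158765824260789703293523787776) (nat_lit 2)) .nil)) .nil))) (.cons (.br (nat_lit 7) (nat_lit 1) (.cons (.br (nat_lit 11) (nat_lit 1) (.cons (.ev (nat_lit 20683200006371840020919997499146) (nat_lit 4)) .nil)) (.cons (.ev (nat_lit 79228167255149622135248388353)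 (nat_lit 1)) .nil))) .nil)))) (.cons (.rf (nat_lit 2865) (nat_lit 308262436845400530218)) .nil))))),
 (.br (nat_lit 13) (nat_lit 1) (.cons (.rf (nat_lit 2866) (nat_lit 493858305440582043680)) (.cons (.rf (nat_lit 2859) (nat_lit 308262436845400530218)) (.cons (.rf (nat_lit 2838) (nat_lit 308262436845400530218)) (.cons (.br (nat_lit 2) (nat_lit 1) (.cons (.ev (nat_lit 1208944266358707179290881) (nat_lit 1)) (.cons (.br (nat_lit 12) (nat_lit 1) (.cons (.zr (nat_lit 237684487542793575734880436224) (nat_lit 40564820416229160463623205683713) (nat_lit 5) (nat_lit 5)) (.cons (.ev (nat_lit 20361638975110273177842012454913) (nat_lit 1)) .nil))) (.cons (.zr (nat_lit 55340232221162405888) (nat_lit 40564820416229160745102460583937) (nat_lit 5) (nat_lit 0)) (.cons (.br (nat_lit 1) (nat_lit 1) (.cons (.ev (nat_lit 20361637770888301525885417160961) (nat_lit 1)) (.cons (.br (nat_lit 7) (nat_lit 1) (.cons (.ev (nat_lit 20678859924863309351146289037572) (nat_lit 3)) .nil)) .nil))) .nil))))) .nil))))),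
 (.br (nat_lit 8) (nat_lit 1) (.cons (.rf (nat_lit 2816) (nat_lit 493858305440582043680)) (.cons (.rf (nat_lit 2838) (nat_lit 493858305440582043680)) (.cons (.rf (nat_lit 2859) (nat_lit 493858305440582043680)) (.cons (.rf (nat_lit 2865) (nat_lit 493858305440582043680)) (.cons (.br (nat_lit 13) (nat_lit 1) (.cons (.rf (nat_lit 2866) (nat_lit 493858305440582043680)) (.cons (.rf (nat_lit 2859) (nat_lit 308262436845400530218)) (.cons (.rf (nat_lit 2838) (nat_lit 308262436845400530218)) (.cons (.rf (nat_lit 2867) (nat_lit 493858305440582043680)) (.cons (.br (nat_lit 13) (nat_lit 1) (.cons (.rf (nat_lit 2865) (nat_lit 308262436845400530218)) (.cons (.rf (nat_lit 2859) (nat_lit 308262436845400530218)) (.cons (.rf (nat_lit 2838) (nat_lit 308262436845400530218)) (.cons (.rf (nat_lit 2867) (nat_lit 493858305440582043680)) .nil))))) .nil)))))) .nil)))))),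
 (.br (nat_lit 8) (nat_lit 1) (.cons (.rf (nat_lit 2816) (nat_lit 493858305440582043680)) (.cons (.rf (nat_lit 2838) (nat_lit 493858305440582043680)) (.cons (.rf (nat_lit 2859) (nat_lit 493858305440582043680)) (.cons (.rf (nat_lit 2865) (nat_lit 493858305440582043680)) (.cons (.rf (nat_lit 2868) (nat_lit 493858305440582043680)) (.cons (.br (nat_lit 8) (nat_lit 1) (.cons (.rf (nat_lit 2816) (nat_lit 493858305440582043680)) (.cons (.rf (nat_lit 2838) (nat_lit 493858305440582043680)) (.cons (.rf (nat_lit 2859) (nat_lit 493858305440582043680)) (.cons (.rf (nat_lit 2865) (nat_lit 493858305440582043680)) (.cons (.rf (nat_lit 2868) (nat_lit 493858305440582043680)) .nil)))))) .nil))))))),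
 (.br (nat_lit 7) (nat_lit 1) (.cons (.zr (nat_lit 110896638323899695104) (nat_lit 81129640832458321488005897912322) (nat_lit 10) (nat_lit 0)) (.cons (.ev (nat_lit 1208944338417400745558273) (nat_lit 1)) (.cons (.ev (nat_lit 20282410812577562377645457473793) (nat_lit 1)) .nil)))),
 (.br (nat_lit 13) (nat_lit 1) (.cons (.rf (nat_lit 2869) (nat_lit 308262436845400530218)) (.cons (.rf (nat_lit 2859) (nat_lit 308262436845400530218)) (.cons (.rf (nat_lit 2838) (nat_lit 308262436845400530218)) (.cons (.rf (nat_lit 2816) (nat_lit 308262436845400530218)) (.cons (.br (nat_lit 8) (nat_lit 1) (.cons (.rf (nat_lit 2816) (nat_lit 493858305440582043680)) (.cons (.rf (nat_lit 2838) (nat_lit 493858305440582043680)) (.cons (.rf (nat_lit 2859) (nat_lit 493858305440582043680)) (.cons (.rf (nat_lit 2869) (nat_lit 493858305440582043680)) (.cons (.br (nat_lit 1) (nat_lit 1) (.cons (.rf (nat_lit 2870) (nat_lit 493858305440582043680)) (.cons (.zr (nat_lit 55556407202265694208) (nat_lit 40564820416229160744002965733377)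 (nat_lit 5) (nat_lit 0)) (.cons (.br (nat_lit 2) (nat_lit 1) (.cons (.zr (nat_lit 4777778772684811862272) (nat_lit 40564820416229160744002948956161) (nat_lit 5) (nat_lit 0)) (.cons (.br (nat_lit 7) (nat_lit 1) (.cons (.ev (nat_lit 311917047078825711909339650) (nat_lit 2)) .nil)) (.cons (.br (nat_lit 7) (nat_lit 1) (.cons (.zr (nat_lit 237684501710108634171681275904) (nat_lit 1208962713385355393892353) (nat_lit 5) (nat_lit 10)) .nil)) .nil)))) (.cons (.br (nat_lit 7) (nat_lit 1) (.cons (.ev (nat_lit 1208944338417400745558273) (nat_lit 1)) (.cons (.rf (nat_lit 2870) (nat_lit 308262436845400530218)) (.cons (.zr (nat_lit 237993972552686417642417816320) (nat_lit 1208981160128329608593409) (nat_lit 5) (nat_lit 4)) .nil)))) (.cons (.br (nat_lit 2) (nat_lit 1) (.cons (.zr (nat_lit 237684487542793575734880436224) (nat_lit 40564820416229160463623205683713) (nat_lit 5) (nat_lit 5)) (.cons (.zr (nat_lit 55340232221162405888) (nat_lit 40564820416229160745102460583937) (nat_lit 5) (nat_lit 0)) (.cons (.ev (nat_lit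 20361948460101575722342501318913) (nat_lit 1)) .nil)))) .nil)))))) .nil)))))) .nil)))))),
 (.br (nat_lit 8) (nat_lit 1) (.cons (.rf (nat_lit 2816) (nat_lit 493858305440582043680)) (.cons (.rf (nat_lit 2838) (nat_lit 493858305440582043680)) (.cons (.rf (nat_lit 2859) (nat_lit 493858305440582043680)) (.cons (.rf (nat_lit 2869) (nat_lit 493858305440582043680)) (.cons (.br (nat_lit 13) (nat_lit 1) (.cons (.rf (nat_lit 2869) (nat_lit 308262436845400530218)) (.cons (.rf (nat_lit 2859) (nat_lit 308262436845400530218)) (.cons (.rf (nat_lit 2838) (nat_lit 308262436845400530218)) (.cons (.rf (nat_lit 2816) (nat_lit 308262436845400530218)) (.cons (.rf (nat_lit 2871) (nat_lit 308262436845400530218)) (.cons (.rf (nat_lit 2871) (nat_lit 493858305440582043680)) .nil))))))) .nil)))))),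
 (.br (nat_lit 8) (nat_lit 1) (.cons (.rf (nat_lit 2816) (nat_lit 493858305440582043680)) (.cons (.rf (nat_lit 2838) (nat_lit 493858305440582043680)) (.cons (.rf (nat_lit 2859) (nat_lit 493858305440582043680)) (.cons (.rf (nat_lit 2869) (nat_lit 493858305440582043680)) (.cons (.rf (nat_lit 2872) (nat_lit 493858305440582043680)) (.cons (.br (nat_lit 8) (nat_lit 1) (.cons (.rf (nat_lit 2816) (nat_lit 493858305440582043680)) (.cons (.rf (nat_lit 2838) (nat_lit 493858305440582043680)) (.cons (.rf (nat_lit 2859) (nat_lit 493858305440582043680)) (.cons (.rf (nat_lit 2869) (nat_lit 493858305440582043680)) (.cons (.rf (nat_lit 2872) (nat_lit 493858305440582043680)) .nil)))))) .nil))))))),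
 (.br (nat_lit 8) (nat_lit 1) (.cons (.rf (nat_lit 2816) (nat_lit 493858305440582043680)) (.cons (.rf (nat_lit 2838) (nat_lit 493858305440582043680)) (.cons (.rf (nat_lit 2859) (nat_lit 493858305440582043680)) (.cons (.rf (nat_lit 2869) (nat_lit 493858305440582043680)) (.cons (.rf (nat_lit 2873) (nat_lit 493858305440582043680)) (.cons (.br (nat_lit 8) (nat_lit 1) (.cons (.rf (nat_lit 2816) (nat_lit 493858305440582043680)) (.cons (.rf (nat_lit 2838) (nat_lit 493858305440582043680)) (.cons (.rf (nat_lit 2859) (nat_lit 493858305440582043680)) (.cons (.rf (nat_lit 2869) (nat_lit 493858305440582043680)) (.cons (.rf (nat_lit 2873) (nat_lit 493858305440582043680)) .nil)))))) .nil))))))),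
 (.br (nat_lit 9) (nat_lit 0) (.cons (.rf (nat_lit 2670) (nat_lit 11584701642934304)) (.cons (.br (nat_lit 6) (nat_lit 1) (.cons (.rf (nat_lit 2670) (nat_lit 11584493339117792)) (.cons (.br (nat_lit 7) (nat_lit 0) (.cons (.br (nat_lit 10) (nat_lit 1) (.cons (.br (nat_lit 10) (nat_lit 1) (.cons (.br (nat_lit 1) (nat_lit 1) (.cons (.rf (nat_lit 2687) (nat_lit 493858305440582043680)) (.cons (.kr (nat_lit 256) (nat_lit 72057594037927936) (nat_lit 1) (nat_lit 0)) (.cons (.rf (nat_lit 2723) (nat_lit 493858305440582043680)) (.cons (.rf (nat_lit 2733) (nat_lit 493858305440582043680)) (.cons (.rf (nat_lit 2754) (nat_lit 493858305440582043680)) (.cons (.rf (nat_lit 2773) (nat_lit 493858305440582043680)) (.cons (.rf (nat_lit 2773) (nat_lit 458117738797769787424)) .nil)))))))) .nil)) .nil)) (.cons (.br (nat_lit 4) (nat_lit 1) (.cons (.br (nat_lit 10) (nat_lit 1) (.cons (.br (nat_lit 8) (nat_lit 1) (.cons (.rf (nat_lit 2816) (nat_lit 493858305440582043680)) (.cons (.rf (nat_lit 2838) (nat_lit 493858305440582043680))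 (.cons (.rf (nat_lit 2859) (nat_lit 493858305440582043680)) (.cons (.rf (nat_lit 2869) (nat_lit 493858305440582043680)) (.cons (.rf (nat_lit 2873) (nat_lit 493858305440582043680)) (.cons (.rf (nat_lit 2874) (nat_lit 493858305440582043680)) (.cons (.br (nat_lit 8) (nat_lit 1) (.cons (.rf (nat_lit 2816) (nat_lit 493858305440582043680)) (.cons (.rf (nat_lit 2838) (nat_lit 493858305440582043680)) (.cons (.rf (nat_lit 2859) (nat_lit 493858305440582043680)) (.cons (.rf (nat_lit 2869) (nat_lit 493858305440582043680)) (.cons (.rf (nat_lit 2873) (nat_lit 493858305440582043680)) (.cons (.rf (nat_lit 2874) (nat_lit 493858305440582043680)) .nil))))))) .nil)))))))) .nil)) .nil)) .nil))) .nil))) .nil))),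
 (.br (nat_lit 2) (nat_lit 0) (.cons (.rf (nat_lit 2406) (nat_lit 9043158664256)) (.cons (.rf (nat_lit 2406) (nat_lit 9041013277760)) (.cons (.br (nat_lit 9) (nat_lit 0) (.cons (.rf (nat_lit 2670) (nat_lit 11584701642934304)) (.cons (.rf (nat_lit 2875) (nat_lit 11584701642934304)) (.cons (.br (nat_lit 9) (nat_lit 0) (.cons (.rf (nat_lit 2670) (nat_lit 11584701642934304)) (.cons (.rf (nat_lit 2875) (nat_lit 11584701642934304)) .nil))) .nil)))) .nil)))),
 (.br (nat_lit 8) (nat_lit 1) (.cons (.br (nat_lit 11) (nat_lit 1) (.cons (.br (nat_lit 12) (nat_lit 1) (.cons (.ev (nat_lit 158767018982761338580343390465) (nat_lit 2)) .nil)) (.cons (.zr (nat_lit 933290732743056672826590464) (nat_lit 101412048018295389724175574761473) (nat_lit 5) (nat_lit 3)) .nil))) (.cons (.br (nat_lit 12) (nat_lit 1) (.cons (.ev (nat_lit 79229371458603035369737814016) (nat_lit 1)) (.cons (.ev (nat_lit 79228167236702879156755497216) (nat_lit 1)) .nil))) .nil))),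
 (.br (nat_lit 13) (nat_lit 1) (.cons (.rf (nat_lit 2877) (nat_lit 493858305440582043680)) (.cons (.br (nat_lit 8) (nat_lit 1) (.cons (.br (nat_lit 11) (nat_lit 1) (.cons (.zr (nat_lit 158456334491780442594176204800) (nat_lit 620178945462587345407574529) (nat_lit 5) (nat_lit 6)) .nil)) (.cons (.zr (nat_lit 928455085021003159370203136) (nat_lit 101412049227184171735469254508545) (nat_lit 5) (nat_lit 0)) (.cons (.br (nat_lit 9) (nat_lit 1) (.cons (.ev (nat_lit 1213703671292644391256834) (nat_lit 2)) .nil)) .nil)))) .nil))),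
 (.br (nat_lit 13) (nat_lit 1) (.cons (.rf (nat_lit 2877) (nat_lit 493858305440582043680)) (.cons (.rf (nat_lit 2878) (nat_lit 493858305440582043680)) (.cons (.br (nat_lit 13) (nat_lit 1) (.cons (.rf (nat_lit 2877) (nat_lit 493858305440582043680)) (.cons (.rf (nat_lit 2878) (nat_lit 493858305440582043680)) .nil))) .nil)))),
 (.br (nat_lit 13) (nat_lit 1) (.cons (.br (nat_lit 12) (nat_lit 1) (.cons (.ev (nat_lit 79228167236702879156755497216) (nat_lit 1)) .nil)) (.cons (.ev (nat_lit 79228167236702879156755497216) (nat_lit 1)) .nil))),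
 (.br (nat_lit 8) (nat_lit 1) (.cons (.br (nat_lit 8) (nat_lit 1) (.cons (.rf (nat_lit 2880) (nat_lit 493858305440582043680)) (.cons (.rf (nat_lit 2879) (nat_lit 493858305440582043680)) .nil))) (.cons (.br (nat_lit 8) (nat_lit 1) (.cons (.rf (nat_lit 2880) (nat_lit 493858305440582043680)) (.cons (.rf (nat_lit 2879) (nat_lit 493858305440582043680)) .nil))) (.cons (.rf (nat_lit 2879) (nat_lit 493858305440582043680)) .nil))))]

theorem c95 : chkAll C T R L95 (nat_lit 2861) = true := by decide +kernel

theorem l95 : (nat_lit 2861) + L95.length = (nat_lit 2882) := by decide +kernel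

/-- part of the certificates -/
def L96 : List Prf := [(.br (nat_lit 13) (nat_lit 1) (.cons (.rf (nat_lit 2879) (nat_lit 493858305440582043680)) (.cons (.rf (nat_lit 2881) (nat_lit 493858305440582043680)) (.cons (.br (nat_lit 13) (nat_lit 1) (.cons (.rf (nat_lit 2879) (nat_lit 493858305440582043680)) (.cons (.ev (nat_lit 20282410812577490321150914330881) (nat_lit 1)) .nil))) .nil)))),
 (.br (nat_lit 13) (nat_lit 1) (.cons (.rf (nat_lit 2879) (nat_lit 493858305440582043680)) (.cons (.rf (nat_lit 2881) (nat_lit 493858305440582043680)) (.cons (.rf (nat_lit 2882) (nat_lit 493858305440582043680)) (.cons (.br (nat_lit 13) (nat_lit 1) (.cons (.rf (nat_lit 2879) (nat_lit 493858305440582043680)) (.cons (.rf (nat_lit 2881) (nat_lit 493858305440582043680)) (.cons (.rf (nat_lit 2882) (nat_lit 493858305440582043680)) .nil)))) .nil))))),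
 (.br (nat_lit 7) (nat_lit 1) (.cons (.rf (nat_lit 84) (nat_lit 12222503970)) (.cons (.br (nat_lit 8) (nat_lit 1) (.cons (.ev (nat_lit 309489732188109417641738496) (nat_lit 1)) (.cons (.br (nat_lit 11) (nat_lit 1) (.cons (.ev (nat_lit 79538861190790582928364536065) (nat_lit 1)) (.cons (.br (nat_lit 12) (nat_lit 1) (.cons (.ev (nat_lit 79537647524158021735578337281) (nat_lit 1)) .nil)) .nil))) .nil))) (.cons (.rf (nat_lit 84) (nat_lit 12092220642)) (.cons (.br (nat_lit 8) (nat_lit 1) (.cons (.br (nat_lit 11) (nat_lit 1) (.cons (.ev (nat_lit 158765824242342960323587408385) (nat_lit 2)) (.cons (.br (nat_lit 12) (nat_lit 1) (.cons (.zr (nat_lit 928455085022414932300267520) (nat_lit 396142045108973716949432598529) (nat_lit 5) (nat_lit 4)) .nil)) .nil))) (.cons (.br (nat_lit 11) (nat_lit 1) (.cons (.br (nat_lit 11) (nat_lit 1) (.cons (.ev (nat_lit 21312692478606130404840258080526) (nat_lit 4)) .nil)) (.cons (.br (nat_lit 11) (nat_lit 1) (.cons (.ev (nat_lit 21312692478606130404840258080526) (nat_lit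 4)) .nil)) .nil))) .nil))) .nil))))),
 (.br (nat_lit 12) (nat_lit 1) (.cons (.rf (nat_lit 2883) (nat_lit 493858305440582043680)) (.cons (.rf (nat_lit 2884) (nat_lit 493858305440582043680)) (.cons (.br (nat_lit 8) (nat_lit 1) (.cons (.br (nat_lit 9) (nat_lit 1) (.cons (.ev (nat_lit 158768232649250066059980046595) (nat_lit 2)) (.cons (.br (nat_lit 11) (nat_lit 1) (.cons (.ev (nat_lit 79538861190790864403324534785) (nat_lit 1)) .nil)) .nil))) (.cons (.rf (nat_lit 1555) (nat_lit 458116648082167989312)) (.cons (.br (nat_lit 9) (nat_lit 1) (.cons (.ev (nat_lit 309489732188109417641738496) (nat_lit 1)) (.cons (.ev (nat_lit 159076508751697977623319675650) (nat_lit 2)) .nil))) (.cons (.br (nat_lit 9) (nat_lit 1) (.cons (.br (nat_lit 11) (nat_lit 1) (.cons (.zr (nat_lit 158456334491780442594176204800) (nat_lit 620178945462587345407574529) (nat_lit 5) (nat_lit 6)) .nil)) (.cons (.ev (nat_lit 313111805727498178935128577) (nat_lit 2)) (.cons (.br (nat_lit 7) (nat_lit 1) (.cons (.ev (nat_lit 20837316231113196118149458756868)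 (nat_lit 3)) .nil)) .nil)))) .nil))))) .nil)))),
 (.br (nat_lit 12) (nat_lit 1) (.cons (.rf (nat_lit 2883) (nat_lit 493858305440582043680)) (.cons (.rf (nat_lit 2884) (nat_lit 493858305440582043680)) (.cons (.rf (nat_lit 2885) (nat_lit 493858305440582043680)) (.cons (.br (nat_lit 12) (nat_lit 1) (.cons (.rf (nat_lit 2883) (nat_lit 493858305440582043680)) (.cons (.rf (nat_lit 2884) (nat_lit 493858305440582043680)) (.cons (.rf (nat_lit 2885) (nat_lit 493858305440582043680)) .nil)))) .nil))))),
 (.br (nat_lit 12) (nat_lit 1) (.cons (.ev (nat_lit 79228167236703160631715495936) (nat_lit 1)) (.cons (.rf (nat_lit 2886) (nat_lit 493858305440582043680)) (.cons (.br (nat_lit 7) (nat_lit 1) (.cons (.br (nat_lit 8) (nat_lit 1) (.cons (.rf (nat_lit 84) (nat_lit 13262461993)) (.cons (.br (nat_lit 11) (nat_lit 1) (.cons (.ev (nat_lit 20838556617227352053757283205380) (nat_lit 3)) .nil)) .nil))) (.cons (.rf (nat_lit 84) (nat_lit 9004424257)) (.cons (.br (nat_lit 8) (nat_lit 1) (.cons (.br (nat_lit 8) (nat_lit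 1) (.cons (.zr (nat_lit 313135417631404972272779264) (nat_lit 396140812571321971650309652482) (nat_lit 10) (nat_lit 10)) .nil)) (.cons (.zr (nat_lit 79228167236991671383332290819) (nat_lit 81129640832458320927255001300992) (nat_lit 10) (nat_lit 0)) .nil))) .nil)))) .nil)))),
 (.br (nat_lit 12) (nat_lit 1) (.cons (.rf (nat_lit 2883) (nat_lit 493858305440582043680)) (.cons (.rf (nat_lit 2886) (nat_lit 493858305440582043680)) (.cons (.rf (nat_lit 2887) (nat_lit 493858305440582043680)) (.cons (.br (nat_lit 12) (nat_lit 1) (.cons (.rf (nat_lit 2883) (nat_lit 493858305440582043680)) (.cons (.rf (nat_lit 2886) (nat_lit 493858305440582043680)) (.cons (.rf (nat_lit 2887) (nat_lit 493858305440582043680)) .nil)))) .nil))))),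
 (.br (nat_lit 12) (nat_lit 1) (.cons (.rf (nat_lit 2883) (nat_lit 493858305440582043680)) (.cons (.rf (nat_lit 2886) (nat_lit 493858305440582043680)) (.cons (.rf (nat_lit 2888) (nat_lit 493858305440582043680)) (.cons (.br (nat_lit 12) (nat_lit 1) (.cons (.rf (nat_lit 2883) (nat_lit 493858305440582043680)) (.cons (.rf (nat_lit 2886) (nat_lit 493858305440582043680)) (.cons (.rf (nat_lit 2888) (nat_lit 493858305440582043680)) .nil)))) .nil))))),
 (.br (nat_lit 12) (nat_lit 1) (.cons (.rf (nat_lit 2883) (nat_lit 493858305440582043680)) (.cons (.rf (nat_lit 2886) (nat_lit 493858305440582043680)) (.cons (.rf (nat_lit 2888) (nat_lit 493858305440582043680)) (.cons (.rf (nat_lit 2889) (nat_lit 493858305440582043680)) (.cons (.br (nat_lit 12) (nat_lit 1) (.cons (.rf (nat_lit 2883) (nat_lit 493858305440582043680)) (.cons (.rf (nat_lit 2886) (nat_lit 493858305440582043680)) (.cons (.rf (nat_lit 2888) (nat_lit 493858305440582043680)) (.cons (.rf (nat_lit 2889) (nat_lit 493858305440582043680)) .nil))))) .nil)))))),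
 (.br (nat_lit 11) (nat_lit 1) (.cons (.br (nat_lit 12) (nat_lit 1) (.cons (.zr (nat_lit 928455029464321079197565696) (nat_lit 158457543399081255559864909825) (nat_lit 5) (nat_lit 4)) .nil)) .nil)),
 (.br (nat_lit 12) (nat_lit 1) (.cons (.ev (nat_lit 79228167255149623230465048833) (nat_lit 1)) .nil)),
 (.br (nat_lit 8) (nat_lit 1) (.cons (.rf (nat_lit 31) (nat_lit 377718050)) (.cons (.br (nat_lit 11) (nat_lit 1) (.cons (.rf (nat_lit 2892) (nat_lit 493858305440582043680)) (.cons (.br (nat_lit 11) (nat_lit 1) (.cons (.rf (nat_lit 2892) (nat_lit 493858305440582043680)) .nil)) .nil))) .nil))),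
 (.br (nat_lit 8) (nat_lit 1) (.cons (.rf (nat_lit 84) (nat_lit 13262627874)) (.cons (.br (nat_lit 9) (nat_lit 1) (.cons (.rf (nat_lit 84) (nat_lit 13164913890)) (.cons (.rf (nat_lit 84) (nat_lit 12092220487)) (.cons (.br (nat_lit 13) (nat_lit 1) (.cons (.br (nat_lit 12) (nat_lit 1) (.cons (.ev (nat_lit 79229371440156291296028262401) (nat_lit 1)) .nil)) (.cons (.ev (nat_lit 79229371440156291296028262401) (nat_lit 1)) .nil))) .nil)))) (.cons (.br (nat_lit 9) (nat_lit 1) (.cons (.rf (nat_lit 84) (nat_lit 13164913890)) (.cons (.br (nat_lit 12) (nat_lit 1) (.cons (.rf (nat_lit 84) (nat_lit 8971854913)) (.cons (.ev (nat_lit 79229371440156009821068394753) (nat_lit 1)) .nil))) (.cons (.br (nat_lit 12) (nat_lit 1) (.cons (.br (nat_lit 12) (nat_lit 1) (.cons (.ev (nat_lit 20363809020642534862280714158338) (nat_lit 3)) .nil)) (.cons (.br (nat_lit 11) (nat_lit 1) (.cons (.ev (nat_lit 20363809020642534862280714158338) (nat_lit 3)) .nil)) .nil))) .nil)))) .nil)))),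
 (.br (nat_lit 11) (nat_lit 1) (.cons (.rf (nat_lit 2894) (nat_lit 493858305440582043680)) (.cons (.rf (nat_lit 84) (nat_lit 9004197089)) (.cons (.br (nat_lit 9) (nat_lit 1) (.cons (.br (nat_lit 8) (nat_lit 1) (.cons (.ev (nat_lit 79228167255149904705425047553) (nat_lit 1)) (.cons (.br (nat_lit 12) (nat_lit 1) (.cons (.ev (nat_lit 79538861190790582928364536065) (nat_lit 1)) .nil)) .nil))) (.cons (.rf (nat_lit 84) (nat_lit 8971854913)) (.cons (.br (nat_lit 13) (nat_lit 1) (.cons (.ev (nat_lit 20282719088661491770115504537601) (nat_lit 1)) (.cons (.ev (nat_lit 20282410812577490321150914330881) (nat_lit 1)) .nil))) .nil)))) .nil)))),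
 (.br (nat_lit 2) (nat_lit 1) (.cons (.br (nat_lit 8) (nat_lit 1) (.cons (.ev (nat_lit 18446745173238022144) (nat_lit 1)) (.cons (.rf (nat_lit 1339) (nat_lit 391152474337)) (.cons (.ev (nat_lit 18447026648197890304) (nat_lit 1)) (.cons (.br (nat_lit 9) (nat_lit 1) (.cons (.rf (nat_lit 82) (nat_lit 14336428071)) (.cons (.br (nat_lit 11) (nat_lit 1) (.cons (.rf (nat_lit 2891) (nat_lit 493858305440582043680)) (.cons (.br (nat_lit 12) (nat_lit 1) (.cons (.rf (nat_lit 2891) (nat_lit 493858305440582043680)) (.cons (.zr (nat_lit 55556967953195859968) (nat_lit 40564820416229160463627500650497) (nat_lit 5) (nat_lit 0)) .nil))) .nil))) (.cons (.rf (nat_lit 84) (nat_lit 12256053287)) .nil)))) .nil))))) (.cons (.br (nat_lit 8) (nat_lit 1) (.cons (.rf (nat_lit 31) (nat_lit 377718050)) (.cons (.rf (nat_lit 2893) (nat_lit 14242959524133701664)) (.cons (.br (nat_lit 8) (nat_lit 1) (.cons (.rf (nat_lit 31) (nat_lit 377718050)) (.cons (.rf (nat_lit 2893) (nat_lit 14242959524133701664)) .nil))) .nil)))) (.cons (.rf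 (nat_lit 2890) (nat_lit 493858305440582043680)) (.cons (.br (nat_lit 11) (nat_lit 1) (.cons (.rf (nat_lit 2894) (nat_lit 493858305440582043680)) (.cons (.rf (nat_lit 2305) (nat_lit 14680276215009)) (.cons (.rf (nat_lit 2895) (nat_lit 493858305440582043680)) (.cons (.br (nat_lit 11) (nat_lit 1) (.cons (.rf (nat_lit 2894) (nat_lit 493858305440582043680)) (.cons (.kr (nat_lit 1208925819614629174706176) (nat_lit 309485009821345068724781056) (nat_lit 10) (nat_lit 0)) (.cons (.rf (nat_lit 2895) (nat_lit 493858305440582043680)) .nil)))) .nil))))) (.cons (.rf (nat_lit 2890) (nat_lit 420143386739781765152)) .nil)))))),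
 (.br (nat_lit 2) (nat_lit 1) (.cons (.rf (nat_lit 31) (nat_lit 377783522)) (.cons (.rf (nat_lit 1339) (nat_lit 391085365537)) (.cons (.rf (nat_lit 1339) (nat_lit 288009525282)) (.cons (.br (nat_lit 7) (nat_lit 1) (.cons (.rf (nat_lit 84) (nat_lit 13262691362)) (.cons (.rf (nat_lit 84) (nat_lit 13164913890)) (.cons (.br (nat_lit 8) (nat_lit 1) (.cons (.rf (nat_lit 84) (nat_lit 12092218441)) (.cons (.br (nat_lit 11) (nat_lit 1) (.cons (.ev (nat_lit 79537647524158021735578337281) (nat_lit 1)) (.cons (.br (nat_lit 12) (nat_lit 1) (.cons (.ev (nat_lit 79538861190790582928364536065) (nat_lit 1)) .nil)) .nil))) .nil))) (.cons (.rf (nat_lit 2896) (nat_lit 420143386739781765152)) .nil))))) (.cons (.rf (nat_lit 2890) (nat_lit 420143386739781765152)) .nil)))))),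
 (.br (nat_lit 13) (nat_lit 1) (.cons (.rf (nat_lit 2890) (nat_lit 420143386739781765152)) (.cons (.kr (nat_lit 1208925819614629174706176) (nat_lit 20282409603651670423947251286016) (nat_lit 10) (nat_lit 0)) (.cons (.rf (nat_lit 2897) (nat_lit 420143386739781765152)) (.cons (.ev (nat_lit 20282410812577490321150914330881) (nat_lit 1)) .nil))))),
 (.br (nat_lit 11) (nat_lit 1) (.cons (.rf (nat_lit 2890) (nat_lit 493858305440582043680)) (.cons (.rf (nat_lit 2896) (nat_lit 493858305440582043680)) (.cons (.rf (nat_lit 2897) (nat_lit 493858305440582043680)) (.cons (.br (nat_lit 13) (nat_lit 1) (.cons (.rf (nat_lit 2890) (nat_lit 420143386739781765152)) (.cons (.rf (nat_lit 2896) (nat_lit 420143386739781765152)) (.cons (.br (nat_lit 2) (nat_lit 1) (.cons (.zr (nat_lit 55556967953195859968) (nat_lit 620178945462305870447640577) (nat_lit 5) (nat_lit 0)) (.cons (.rf (nat_lit 1593) (nat_lit 458532068642)) (.cons (.ev (nat_lit 310693935640960797427957761) (nat_lit 1)) (.cons (.rf (nat_lit 2890) (nat_lit 420143386739781765152))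 .nil))))) (.cons (.rf (nat_lit 2898) (nat_lit 493858305440582043680)) (.cons (.br (nat_lit 13) (nat_lit 1) (.cons (.rf (nat_lit 2890) (nat_lit 420143386739781765152)) (.cons (.rf (nat_lit 2896) (nat_lit 420143386739781765152)) (.cons (.kr (nat_lit 309485009821345068724781056) (nat_lit 20282409603651670423947251286016) (nat_lit 11) (nat_lit 0)) (.cons (.ev (nat_lit 20282410812577490321150914330881) (nat_lit 1)) .nil))))) .nil)))))) .nil))))),
 (.br (nat_lit 11) (nat_lit 1) (.cons (.rf (nat_lit 2890) (nat_lit 493858305440582043680)) (.cons (.rf (nat_lit 2896) (nat_lit 493858305440582043680)) (.cons (.rf (nat_lit 2897) (nat_lit 493858305440582043680)) (.cons (.rf (nat_lit 2899) (nat_lit 493858305440582043680)) (.cons (.br (nat_lit 11) (nat_lit 1) (.cons (.rf (nat_lit 2890) (nat_lit 493858305440582043680)) (.cons (.rf (nat_lit 2896) (nat_lit 493858305440582043680)) (.cons (.rf (nat_lit 2897) (nat_lit 493858305440582043680)) (.cons (.rf (nat_lit 2899) (nat_lit 493858305440582043680)) .nil))))) .nil)))))),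
 (.br (nat_lit 13) (nat_lit 1) (.cons (.rf (nat_lit 2890) (nat_lit 420143386739781765152)) (.cons (.rf (nat_lit 2896) (nat_lit 420143386739781765152)) (.cons (.rf (nat_lit 2900) (nat_lit 420143386739781765152)) (.cons (.rf (nat_lit 2898) (nat_lit 420143386739781765152)) (.cons (.br (nat_lit 13) (nat_lit 1) (.cons (.rf (nat_lit 2890) (nat_lit 420143386739781765152)) (.cons (.rf (nat_lit 2896) (nat_lit 420143386739781765152)) (.cons (.rf (nat_lit 2900) (nat_lit 420143386739781765152)) (.cons (.rf (nat_lit 2898) (nat_lit 420143386739781765152)) .nil))))) .nil)))))),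
 (.br (nat_lit 11) (nat_lit 1) (.cons (.rf (nat_lit 2890) (nat_lit 493858305440582043680)) (.cons (.rf (nat_lit 2896) (nat_lit 493858305440582043680)) (.cons (.rf (nat_lit 2900) (nat_lit 493858305440582043680)) (.cons (.rf (nat_lit 2901) (nat_lit 493858305440582043680)) (.cons (.br (nat_lit 11) (nat_lit 1) (.cons (.rf (nat_lit 2890) (nat_lit 493858305440582043680)) (.cons (.rf (nat_lit 2896) (nat_lit 493858305440582043680)) (.cons (.rf (nat_lit 2900) (nat_lit 493858305440582043680)) (.cons (.ev (nat_lit 310693935641242272387825921) (nat_lit 1)) .nil))))) .nil)))))),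
 (.br (nat_lit 11) (nat_lit 1) (.cons (.rf (nat_lit 2890) (nat_lit 493858305440582043680)) (.cons (.rf (nat_lit 2896) (nat_lit 493858305440582043680)) (.cons (.rf (nat_lit 2900) (nat_lit 493858305440582043680)) (.cons (.rf (nat_lit 2901) (nat_lit 493858305440582043680)) (.cons (.rf (nat_lit 2902) (nat_lit 493858305440582043680)) (.cons (.br (nat_lit 11) (nat_lit 1) (.cons (.rf (nat_lit 2890) (nat_lit 493858305440582043680)) (.cons (.rf (nat_lit 2896) (nat_lit 493858305440582043680)) (.cons (.rf (nat_lit 2900) (nat_lit 493858305440582043680)) (.cons (.rf (nat_lit 2901) (nat_lit 493858305440582043680)) (.cons (.rf (nat_lit 2902) (nat_lit 493858305440582043680)) .nil)))))) .nil))))))),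
 (.br (nat_lit 11) (nat_lit 1) (.cons (.rf (nat_lit 2594) (nat_lit 8994006242)) (.cons (.rf (nat_lit 82) (nat_lit 13165110306)) (.cons (.br (nat_lit 8) (nat_lit 1) (.cons (.rf (nat_lit 58) (nat_lit 8690753)) (.cons (.ev (nat_lit 310693954087704871137509376) (nat_lit 1)) (.cons (.br (nat_lit 9) (nat_lit 1) (.cons (.rf (nat_lit 1340) (nat_lit 492671606938737411136)) (.cons (.ev (nat_lit 4740885285636904321024) (nat_lit 1)) .nil))) .nil)))) .nil)))),
 (.br (nat_lit 11) (nat_lit 1) (.cons (.rf (nat_lit 1339) (nat_lit 391152637986)) (.cons (.rf (nat_lit 1343) (nat_lit 457790727202)) (.cons (.rf (nat_lit 2904) (nat_lit 493858305440582043680)) (.cons (.br (nat_lit 11) (nat_lit 1) (.cons (.rf (nat_lit 2594) (nat_lit 9027560674)) (.cons (.rf (nat_lit 82) (nat_lit 14238852130)) (.cons (.rf (nat_lit 2904) (nat_lit 493858305440582043680)) .nil)))) .nil))))),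
 (.br (nat_lit 11) (nat_lit 1) (.cons (.br (nat_lit 12) (nat_lit 1) (.cons (.kr (nat_lit 20282409608392483650890606051584) (nat_lit 79537647524157740256306724864) (nat_lit 1) (nat_lit 0)) .nil)) .nil))]

theorem c96 : chkAll C T R L96 (nat_lit 2882) = true := by decide +kernel

theorem l96 : (nat_lit 2882) + L96.length = (nat_lit 2907) := by decide +kernel

/-- part of the certificates -/
def L97 : List Prf := [(.br (nat_lit 8) (nat_lit 1) (.cons (.ev (nat_lit 4740885285636904321024) (nat_lit 1)) (.cons (.rf (nat_lit 84) (nat_lit 12222241865)) (.cons (.br (nat_lit 11) (nat_lit 1) (.cons (.rf (nat_lit 2906) (nat_lit 493858305440582043680)) (.cons (.br (nat_lit 12) (nat_lit 1) (.cons (.rf (nat_lit 2906) (nat_lit 493858305440582043680)) (.cons (.zr (nat_lit 14222439680830064296704) (nat_lit 40564820416229160745102477361153) (nat_lit 5) (nat_lit 0)) .nil))) .nil))) .nil)))),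
 (.br (nat_lit 1) (nat_lit 1) (.cons (.kr (nat_lit 1) (nat_lit 18446744073709551616) (nat_lit 0) (nat_lit 1)) (.cons (.ev (nat_lit 4722438541563194769409) (nat_lit 1)) (.cons (.rf (nat_lit 2905) (nat_lit 493858305440582043680)) (.cons (.br (nat_lit 9) (nat_lit 1) (.cons (.ev (nat_lit 4740885567111897874688) (nat_lit 1)) (.cons (.rf (nat_lit 2907) (nat_lit 493858305440582043680)) (.cons (.rf (nat_lit 1343) (nat_lit 389104804898)) (.cons (.rf (nat_lit 2907) (nat_lit 420143386739781765152)) .nil))))) (.cons (.rf (nat_lit 2905) (nat_lit 420143386739781765152)) .nil)))))),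
 (.br (nat_lit 8) (nat_lit 1) (.cons (.br (nat_lit 12) (nat_lit 1) (.cons (.ev (nat_lit 40565129901257428553865168551937) (nat_lit 2)) .nil)) (.cons (.rf (nat_lit 84) (nat_lit 12255994945)) .nil))),
 (.br (nat_lit 11) (nat_lit 1) (.cons (.rf (nat_lit 82) (nat_lit 13165173794)) (.cons (.rf (nat_lit 2594) (nat_lit 8994004258)) (.cons (.br (nat_lit 7) (nat_lit 1) (.cons (.rf (nat_lit 58) (nat_lit 8690753)) (.cons (.br (nat_lit 8) (nat_lit 1) (.cons (.ev (nat_lit 79228167236702879156755497216) (nat_lit 1)) (.cons (.br (nat_lit 12) (nat_lit 1) (.cons (.ev (nat_lit 22588401778680821543308339910416) (nat_lit 5)) .nil)) .nil))) (.cons (.rf (nat_lit 2909) (nat_lit 493858305440582043680)) .nil)))) .nil)))),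
 (.br (nat_lit 11) (nat_lit 1) (.cons (.rf (nat_lit 1343) (nat_lit 457792822306)) (.cons (.rf (nat_lit 1339) (nat_lit 391085594658)) (.cons (.rf (nat_lit 2910) (nat_lit 493858305440582043680)) (.cons (.br (nat_lit 11) (nat_lit 1) (.cons (.rf (nat_lit 82) (nat_lit 14238915618)) (.cons (.rf (nat_lit 2594) (nat_lit 9027558690)) (.cons (.rf (nat_lit 2910) (nat_lit 493858305440582043680)) .nil)))) .nil))))),
 (.br (nat_lit 12) (nat_lit 1) (.cons (.ev (nat_lit 79228167255149904705425047553) (nat_lit 1)) .nil)),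
 (.br (nat_lit 8) (nat_lit 1) (.cons (.rf (nat_lit 84) (nat_lit 13262627905)) (.cons (.rf (nat_lit 84) (nat_lit 12222243911)) (.cons (.br (nat_lit 11) (nat_lit 1) (.cons (.rf (nat_lit 2912) (nat_lit 493858305440582043680)) (.cons (.br (nat_lit 11) (nat_lit 1) (.cons (.rf (nat_lit 2912) (nat_lit 493858305440582043680)) .nil)) .nil))) .nil)))),
 (.br (nat_lit 1) (nat_lit 1) (.cons (.ev (nat_lit 4722438541563194769409) (nat_lit 1)) (.cons (.ev (nat_lit 18446745173238022144) (nat_lit 1)) (.cons (.rf (nat_lit 2911) (nat_lit 493858305440582043680)) (.cons (.br (nat_lit 7) (nat_lit 1) (.cons (.ev (nat_lit 4740885567111897874688) (nat_lit 1)) (.cons (.rf (nat_lit 2913) (nat_lit 14242959524133701664)) (.cons (.rf (nat_lit 1343) (nat_lit 389106900002)) (.cons (.rf (nat_lit 2913) (nat_lit 14315017118171629600)) .nil))))) (.cons (.rf (nat_lit 2911) (nat_lit 420143386739781765152)) .nil)))))),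
 (.br (nat_lit 9) (nat_lit 1) (.cons (.rf (nat_lit 84) (nat_lit 14238688481)) (.cons (.br (nat_lit 13) (nat_lit 1) (.cons (.br (nat_lit 12) (nat_lit 1) (.cons (.zr (nat_lit 2475880078573298222635156228) (nat_lit 396148075607865829655264428032) (nat_lit 5) (nat_lit 6)) .nil)) (.cons (.rf (nat_lit 1351) (nat_lit 492671606938737411136)) .nil))) (.cons (.br (nat_lit 11) (nat_lit 1) (.cons (.zr (nat_lit 928455029464039604220855040) (nat_lit 1218407446349995172691969) (nat_lit 5) (nat_lit 4)) (.cons (.rf (nat_lit 84) (nat_lit 8972903458)) .nil))) .nil)))),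
 (.br (nat_lit 7) (nat_lit 1) (.cons (.rf (nat_lit 84) (nat_lit 14238688481)) (.cons (.br (nat_lit 11) (nat_lit 1) (.cons (.ev (nat_lit 310693935641242272387825921) (nat_lit 1)) (.cons (.ev (nat_lit 310698676526245334803808256) (nat_lit 1)) .nil))) (.cons (.rf (nat_lit 1699) (nat_lit 411281402996393024)) .nil)))),
 (.br (nat_lit 11) (nat_lit 1) (.cons (.rf (nat_lit 2915) (nat_lit 493858305440582043680)) (.cons (.ev (nat_lit 310693935641242272387825921) (nat_lit 1)) (.cons (.br (nat_lit 9) (nat_lit 1) (.cons (.zr (nat_lit 14222439680830064296704) (nat_lit 620178945462587345424351233) (nat_lit 5) (nat_lit 0)) (.cons (.ev (nat_lit 79538856468352323939658104833) (nat_lit 1)) (.cons (.br (nat_lit 7) (nat_lit 1) (.cons (.ev (nat_lit 20680105128013069964574483219716) (nat_lit 3)) .nil)) .nil)))) .nil)))),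
 (.br (nat_lit 11) (nat_lit 1) (.cons (.rf (nat_lit 2915) (nat_lit 493858305440582043680)) (.cons (.rf (nat_lit 2916) (nat_lit 493858305440582043680)) (.cons (.rf (nat_lit 2917) (nat_lit 493858305440582043680)) (.cons (.br (nat_lit 11) (nat_lit 1) (.cons (.rf (nat_lit 2915) (nat_lit 493858305440582043680)) (.cons (.rf (nat_lit 2916) (nat_lit 493858305440582043680)) (.cons (.rf (nat_lit 2917) (nat_lit 493858305440582043680)) .nil)))) .nil))))),
 (.br (nat_lit 1) (nat_lit 1) (.cons (.br (nat_lit 11) (nat_lit 1) (.cons (.br (nat_lit 12) (nat_lit 1) (.cons (.ev (nat_lit 20680105127939282988279645013248) (nat_lit 3)) .nil)) (.cons (.zr (nat_lit 23630351216015973549315) (nat_lit 1240357890924893215871991808) (nat_lit 10) (nat_lit 0)) .nil))) (.cons (.rf (nat_lit 2305) (nat_lit 12554267272417)) (.cons (.rf (nat_lit 58) (nat_lit 13933602)) .nil)))),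
 (.br (nat_lit 13) (nat_lit 1) (.cons (.rf (nat_lit 2918) (nat_lit 493858305440582043680)) (.cons (.kr (nat_lit 1208925819614629174706176) (nat_lit 20282409603651670423947251286016) (nat_lit 10) (nat_lit 0)) (.cons (.br (nat_lit 1) (nat_lit 1) (.cons (.br (nat_lit 11) (nat_lit 1) (.cons (.ev (nat_lit 310693935641242272387825921) (nat_lit 1)) .nil)) (.cons (.zr (nat_lit 202824405521526525593337330992387) (nat_lit 8462647046510927444705280) (nat_lit 10) (nat_lit 5)) (.cons (.br (nat_lit 9) (nat_lit 1) (.cons (.ev (nat_lit 310693935641242272387825921) (nat_lit 1)) .nil)) .nil)))) .nil)))),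
 (.br (nat_lit 13) (nat_lit 1) (.cons (.rf (nat_lit 2918) (nat_lit 493858305440582043680)) (.cons (.rf (nat_lit 2919) (nat_lit 493858305440582043680)) (.cons (.rf (nat_lit 2920) (nat_lit 493858305440582043680)) (.cons (.br (nat_lit 13) (nat_lit 1) (.cons (.ev (nat_lit 20282410812595936783749664014336) (nat_lit 1)) (.cons (.rf (nat_lit 2919) (nat_lit 493858305440582043680)) (.cons (.rf (nat_lit 2920) (nat_lit 493858305440582043680)) .nil)))) .nil))))),
 (.br (nat_lit 13) (nat_lit 1) (.cons (.rf (nat_lit 2918) (nat_lit 493858305440582043680)) (.cons (.kr (nat_lit 1208925819614629174706176) (nat_lit 20282409603651670423947251286016) (nat_lit 10) (nat_lit 0)) (.cons (.br (nat_lit 1) (nat_lit 1) (.cons (.rf (nat_lit 1357) (nat_lit 492671606938737411136)) (.cons (.ev (nat_lit 40565132328553801028147335069955) (nat_lit 2)) (.cons (.rf (nat_lit 1358) (nat_lit 492671606938737411136)) .nil)))) .nil)))),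
 (.br (nat_lit 13) (nat_lit 1) (.cons (.rf (nat_lit 2918) (nat_lit 493858305440582043680)) (.cons (.rf (nat_lit 2921) (nat_lit 493858305440582043680)) (.cons (.rf (nat_lit 2922) (nat_lit 493858305440582043680)) (.cons (.br (nat_lit 13) (nat_lit 1) (.cons (.rf (nat_lit 2918) (nat_lit 493858305440582043680)) (.cons (.rf (nat_lit 2921) (nat_lit 493858305440582043680)) (.cons (.rf (nat_lit 2922) (nat_lit 493858305440582043680)) .nil)))) .nil))))),
 (.br (nat_lit 13) (nat_lit 1) (.cons (.rf (nat_lit 2918) (nat_lit 493858305440582043680)) (.cons (.rf (nat_lit 2921) (nat_lit 493858305440582043680)) (.cons (.rf (nat_lit 2923) (nat_lit 493858305440582043680)) (.cons (.br (nat_lit 13) (nat_lit 1) (.cons (.rf (nat_lit 2918) (nat_lit 493858305440582043680)) (.cons (.rf (nat_lit 2921) (nat_lit 493858305440582043680)) (.cons (.rf (nat_lit 2923) (nat_lit 493858305440582043680)) .nil)))) .nil))))),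
 (.br (nat_lit 7) (nat_lit 1) (.cons (.rf (nat_lit 31) (nat_lit 377522471)) (.cons (.rf (nat_lit 2594) (nat_lit 12249736417)) (.cons (.br (nat_lit 9) (nat_lit 1) (.cons (.rf (nat_lit 84) (nat_lit 13164946471)) (.cons (.br (nat_lit 11) (nat_lit 1) (.cons (.ev (nat_lit 158767028464243677278943379715) (nat_lit 2)) (.cons (.zr (nat_lit 313111787353372450244329472) (nat_lit 23685619392850677465090) (nat_lit 10) (nat_lit 3)) .nil))) (.cons (.rf (nat_lit 1700) (nat_lit 14316145252502799424)) .nil)))) (.cons (.br (nat_lit 9) (nat_lit 1) (.cons (.rf (nat_lit 84) (nat_lit 14238688295)) (.cons (.br (nat_lit 12) (nat_lit 1) (.cons (.zr (nat_lit 23630351216015973549315) (nat_lit 1240357890924893215871991808) (nat_lit 10) (nat_lit 0)) (.cons (.zr (nat_lit 60847228810955011276239800369920) (nat_lit 1218407446349995172691969) (nat_lit 5) (nat_lit 4)) .nil))) (.cons (.rf (nat_lit 84) (nat_lit 12093301985)) .nil)))) .nil))))),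
 (.br (nat_lit 9) (nat_lit 1) (.cons (.rf (nat_lit 84) (nat_lit 13164946657)) (.cons (.br (nat_lit 11) (nat_lit 1) (.cons (.ev (nat_lit 158767023741948407578405961731) (nat_lit 2)) (.cons (.zr (nat_lit 928455029464039604220855040) (nat_lit 1218407446349995172691969) (nat_lit 5) (nat_lit 4)) .nil))) (.cons (.br (nat_lit 11) (nat_lit 1) (.cons (.zr (nat_lit 4741174359338474537219) (nat_lit 1240357890924611740895281152) (nat_lit 10) (nat_lit 0)) (.cons (.ev (nat_lit 20282410817318375324213330313216) (nat_lit 1)) .nil))) .nil)))),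
 (.br (nat_lit 11) (nat_lit 1) (.cons (.ev (nat_lit 310698676526245334803808256) (nat_lit 1)) (.cons (.ev (nat_lit 310693935641242272387825921) (nat_lit 1)) .nil))),
 (.br (nat_lit 8) (nat_lit 1) (.cons (.rf (nat_lit 2903) (nat_lit 493858305440582043680)) (.cons (.rf (nat_lit 2908) (nat_lit 493858305440582043680)) (.cons (.rf (nat_lit 2914) (nat_lit 493858305440582043680)) (.cons (.br (nat_lit 13) (nat_lit 1) (.cons (.rf (nat_lit 2918) (nat_lit 493858305440582043680)) (.cons (.rf (nat_lit 2921) (nat_lit 493858305440582043680)) (.cons (.rf (nat_lit 2923) (nat_lit 493858305440582043680)) (.cons (.rf (nat_lit 2924) (nat_lit 493858305440582043680)) (.cons (.br (nat_lit 13) (nat_lit 1) (.cons (.rf (nat_lit 2918) (nat_lit 493858305440582043680)) (.cons (.rf (nat_lit 2921) (nat_lit 493858305440582043680)) (.cons (.rf (nat_lit 2923) (nat_lit 493858305440582043680)) (.cons (.rf (nat_lit 2924) (nat_lit 493858305440582043680)) .nil))))) .nil)))))) (.cons (.br (nat_lit 1) (nat_lit 1) (.cons (.rf (nat_lit 1593)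 (nat_lit 458565625057)) (.cons (.rf (nat_lit 1593) (nat_lit 458565623073)) (.cons (.rf (nat_lit 2925) (nat_lit 493858305440582043680)) (.cons (.br (nat_lit 7) (nat_lit 1) (.cons (.rf (nat_lit 1593) (nat_lit 458565616935)) (.cons (.rf (nat_lit 2926) (nat_lit 493858305440582043680)) (.cons (.br (nat_lit 9) (nat_lit 1) (.cons (.rf (nat_lit 2927) (nat_lit 493858305440582043680)) (.cons (.kr (nat_lit 281474976710657) (nat_lit 79228162514264337593544015872) (nat_lit 0) (nat_lit 1)) (.cons (.rf (nat_lit 2927) (nat_lit 420143386739781765152)) .nil)))) (.cons (.rf (nat_lit 2926) (nat_lit 420143386739781765152)) .nil))))) (.cons (.rf (nat_lit 2925) (nat_lit 420143386739781765152)) .nil)))))) .nil)))))),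
 (.br (nat_lit 8) (nat_lit 1) (.cons (.rf (nat_lit 2903) (nat_lit 493858305440582043680)) (.cons (.rf (nat_lit 2908) (nat_lit 493858305440582043680)) (.cons (.rf (nat_lit 2914) (nat_lit 493858305440582043680)) (.cons (.rf (nat_lit 2928) (nat_lit 493858305440582043680)) (.cons (.br (nat_lit 8) (nat_lit 1) (.cons (.ev (nat_lit 18447026648197890304) (nat_lit 1)) (.cons (.rf (nat_lit 2908) (nat_lit 493858305440582043680)) (.cons (.rf (nat_lit 2914) (nat_lit 493858305440582043680)) (.cons (.rf (nat_lit 2928) (nat_lit 493858305440582043680)) (.cons (.rf (nat_lit 2928) (nat_lit 420143386739781765152)) .nil)))))) (.cons (.rf (nat_lit 2928) (nat_lit 420143386739781765152)) .nil))))))),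
 (.br (nat_lit 11) (nat_lit 1) (.cons (.rf (nat_lit 82) (nat_lit 13165168679)) (.cons (.rf (nat_lit 2594) (nat_lit 8993999143)) (.cons (.br (nat_lit 2) (nat_lit 1) (.cons (.rf (nat_lit 58) (nat_lit 8690753)) (.cons (.rf (nat_lit 1845) (nat_lit 14316145252535306272)) (.cons (.br (nat_lit 8) (nat_lit 1) (.cons (.br (nat_lit 12) (nat_lit 1) (.cons (.ev (nat_lit 20678872033159121283715515223822) (nat_lit 4)) .nil)) (.cons (.ev (nat_lit 309499232261873635189326594) (nat_lit 2)) .nil))) .nil)))) .nil)))),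
 (.br (nat_lit 11) (nat_lit 1) (.cons (.rf (nat_lit 1343) (nat_lit 457792817191)) (.cons (.rf (nat_lit 1339) (nat_lit 390917822503)) (.cons (.rf (nat_lit 2930) (nat_lit 493858305440582043680)) (.cons (.br (nat_lit 11) (nat_lit 1) (.cons (.rf (nat_lit 82) (nat_lit 14238910503)) (.cons (.rf (nat_lit 2594) (nat_lit 9027553575)) (.cons (.rf (nat_lit 2930) (nat_lit 493858305440582043680)) .nil)))) .nil))))),
 (.br (nat_lit 11) (nat_lit 1) (.cons (.br (nat_lit 12) (nat_lit 1) (.cons (.ev (nat_lit 20679495848326200069896375173896) (nat_lit 4)) .nil)) .nil)),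
 (.br (nat_lit 8) (nat_lit 1) (.cons (.rf (nat_lit 84) (nat_lit 13262464225)) (.cons (.rf (nat_lit 84) (nat_lit 12222244066)) (.cons (.br (nat_lit 11) (nat_lit 1) (.cons (.rf (nat_lit 2932) (nat_lit 493858305440582043680)) (.cons (.br (nat_lit 11) (nat_lit 1) (.cons (.rf (nat_lit 2932) (nat_lit 493858305440582043680)) .nil)) .nil))) .nil)))),
 (.br (nat_lit 1) (nat_lit 1) (.cons (.rf (nat_lit 29) (nat_lit 8690753)) (.cons (.rf (nat_lit 58) (nat_lit 8690722)) (.cons (.rf (nat_lit 2931) (nat_lit 493858305440582043680)) (.cons (.br (nat_lit 2) (nat_lit 1) (.cons (.ev (nat_lit 4740885567111897874688) (nat_lit 1)) (.cons (.rf (nat_lit 2933) (nat_lit 493858305440582043680)) (.cons (.rf (nat_lit 1343) (nat_lit 389106894887)) (.cons (.rf (nat_lit 2933) (nat_lit 420143386739781765152)) .nil))))) (.cons (.rf (nat_lit 2931) (nat_lit 420143386739781765152)) .nil)))))),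
 (.br (nat_lit 9) (nat_lit 1) (.cons (.rf (nat_lit 84) (nat_lit 14238852161)) (.cons (.br (nat_lit 11) (nat_lit 1) (.cons (.ev (nat_lit 158765814797754672722326257665) (nat_lit 2)) (.cons (.rf (nat_lit 1584) (nat_lit 458116648082200495168)) .nil))) (.cons (.br (nat_lit 11) (nat_lit 1) (.cons (.zr (nat_lit 14222439680830131404800) (nat_lit 620178945462587345407574529) (nat_lit 5) (nat_lit 6)) (.cons (.ev (nat_lit 40565128697035528676936712781827) (nat_lit 2)) .nil))) .nil)))),
 (.br (nat_lit 11) (nat_lit 1) (.cons (.rf (nat_lit 2935) (nat_lit 493858305440582043680)) (.cons (.ev (nat_lit 310693935641242272387825921) (nat_lit 1)) (.cons (.br (nat_lit 2) (nat_lit 1) (.cons (.zr (nat_lit 14222439680830064296704) (nat_lit 620178945462587345424351233) (nat_lit 5) (nat_lit 0)) (.cons (.ev (nat_lit 310693935640960797427957761) (nat_lit 1)) (.cons (.ev (nat_lit 309485028340146740767293441) (nat_lit 1)) .nil)))) .nil))))]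

theorem c97 : chkAll C T R L97 (nat_lit 2907) = true := by decide +kernel

theorem l97 : (nat_lit 2907) + L97.length = (nat_lit 2937) := by decide +kernel

/-- part of the certificates -/
def L98 : List Prf := [(.br (nat_lit 2) (nat_lit 1) (.cons (.rf (nat_lit 31) (nat_lit 377527586)) (.cons (.ev (nat_lit 309485009893402667057741824) (nat_lit 1)) (.cons (.br (nat_lit 9) (nat_lit 1) (.cons (.rf (nat_lit 84) (nat_lit 13165110306)) (.cons (.br (nat_lit 12) (nat_lit 1) (.cons (.rf (nat_lit 84) (nat_lit 8971658311)) (.cons (.ev (nat_lit 79229371440156009821068394753) (nat_lit 1)) .nil))) (.cons (.br (nat_lit 12) (nat_lit 1) (.cons (.br (nat_lit 12) (nat_lit 1) (.cons (.ev (nat_lit 79537652246452447011202465793) (nat_lit 1)) .nil)) (.cons (.ev (nat_lit 20282409603670189507094287220993) (nat_lit 1)) .nil))) .nil)))) (.cons (.br (nat_lit 9) (nat_lit 1) (.cons (.rf (nat_lit 84) (nat_lit 14238852130)) (.cons (.br (nat_lit 13) (nat_lit 1) (.cons (.ev (nat_lit 40565439386267466072828386869760) (nat_lit 2))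 (.cons (.zr (nat_lit 14222439680830131404800) (nat_lit 40564820416229160745102460584449) (nat_lit 5) (nat_lit 6)) .nil))) (.cons (.rf (nat_lit 84) (nat_lit 12093465665)) .nil)))) .nil))))),
 (.br (nat_lit 9) (nat_lit 1) (.cons (.rf (nat_lit 84) (nat_lit 13165110337)) (.cons (.br (nat_lit 11) (nat_lit 1) (.cons (.ev (nat_lit 79537652246452165536208912641) (nat_lit 1)) (.cons (.zr (nat_lit 14222439680830131404800) (nat_lit 620178945462587345407574529) (nat_lit 5) (nat_lit 6)) .nil))) (.cons (.br (nat_lit 12) (nat_lit 1) (.cons (.rf (nat_lit 1580) (nat_lit 458116648082200495168)) (.cons (.zr (nat_lit 40564819207358897262806251340800) (nat_lit 1227815287234957615955976) (nat_lit 20) (nat_lit 4)) .nil))) .nil)))),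
 (.br (nat_lit 8) (nat_lit 1) (.cons (.rf (nat_lit 2903) (nat_lit 493858305440582043680)) (.cons (.rf (nat_lit 2929) (nat_lit 493858305440582043680)) (.cons (.rf (nat_lit 2934) (nat_lit 493858305440582043680)) (.cons (.br (nat_lit 1) (nat_lit 1) (.cons (.br (nat_lit 9) (nat_lit 1) (.cons (.rf (nat_lit 31) (nat_lit 377789505)) (.cons (.rf (nat_lit 31) (nat_lit 411343937)) (.cons (.br (nat_lit 11) (nat_lit 1) (.cons (.br (nat_lit 11) (nat_lit 1) (.cons (.zr (nat_lit 14222439680830064296704) (nat_lit 620178945462587345424351233) (nat_lit 5) (nat_lit 0)) .nil)) (.cons (.br (nat_lit 12) (nat_lit 1) (.cons (.zr (nat_lit 14222439680830064296704) (nat_lit 620178945462587345424351233) (nat_lit 5) (nat_lit 0)) (.cons (.rf (nat_lit 1395) (nat_lit 492671606938737411136)) .nil))) .nil))) .nil)))) (.cons (.ev (nat_lit 4722438541563194769409) (nat_lit 1)) (.cons (.br (nat_lit 2) (nat_lit 1) (.cons (.ev (nat_lit 4740885567111897874688) (nat_lit 1)) (.cons (.ev (nat_lit 309485009893402667057741824) (nat_lit 1))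 (.cons (.br (nat_lit 9) (nat_lit 1) (.cons (.rf (nat_lit 84) (nat_lit 13165110306)) (.cons (.rf (nat_lit 84) (nat_lit 12092417089)) (.cons (.br (nat_lit 13) (nat_lit 1) (.cons (.br (nat_lit 12) (nat_lit 1) (.cons (.ev (nat_lit 20363809011197367862127335900930) (nat_lit 3)) .nil)) (.cons (.br (nat_lit 11) (nat_lit 1) (.cons (.ev (nat_lit 20363809011197367862127335900930) (nat_lit 3)) .nil)) .nil))) .nil)))) (.cons (.br (nat_lit 9) (nat_lit 1) (.cons (.rf (nat_lit 84) (nat_lit 14238852130)) (.cons (.br (nat_lit 13) (nat_lit 1) (.cons (.br (nat_lit 12) (nat_lit 1) (.cons (.ev (nat_lit 21315168339943672760491432936206) (nat_lit 4)) .nil)) (.cons (.br (nat_lit 11) (nat_lit 1) (.cons (.ev (nat_lit 21315168339943672760491432936206) (nat_lit 4)) .nil)) .nil))) (.cons (.br (nat_lit 11) (nat_lit 1) (.cons (.br (nat_lit 12) (nat_lit 1) (.cons (.ev (nat_lit 20682576163054741556703938154246) (nat_lit 4)) .nil)) (.cons (.rf (nat_lit 84) (nat_lit 8972706887)) .nil))) .nil)))) .nil))))) (.cons (.br (nat_lit 2)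 (nat_lit 1) (.cons (.rf (nat_lit 31) (nat_lit 411082018)) (.cons (.br (nat_lit 9) (nat_lit 1) (.cons (.rf (nat_lit 84) (nat_lit 13165110337)) (.cons (.rf (nat_lit 84) (nat_lit 12092417058)) (.cons (.br (nat_lit 11) (nat_lit 1) (.cons (.ev (nat_lit 158767033149932000358386827265) (nat_lit 2)) (.cons (.zr (nat_lit 14222439680830131404800) (nat_lit 620178945462587345407574529) (nat_lit 5) (nat_lit 6)) .nil))) .nil)))) (.cons (.rf (nat_lit 2594) (nat_lit 13261612097)) (.cons (.br (nat_lit 9) (nat_lit 1) (.cons (.br (nat_lit 11) (nat_lit 1) (.cons (.ev (nat_lit 309485028340428215760716033) (nat_lit 1)) (.cons (.ev (nat_lit 310693935641242272387825921) (nat_lit 1)) .nil))) (.cons (.rf (nat_lit 84) (nat_lit 14239900706)) (.cons (.br (nat_lit 12) (nat_lit 1) (.cons (.br (nat_lit 11) (nat_lit 1) (.cons (.ev (nat_lit 309485028340146740767293441) (nat_lit 1)) .nil)) (.cons (.ev (nat_lit 20361638979832639661806891041025) (nat_lit 1)) .nil))) .nil)))) .nil))))) (.cons (.br (nat_lit 11) (nat_lit 1) (.cons (.rf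 (nat_lit 2935) (nat_lit 493858305440582043680)) (.cons (.br (nat_lit 11) (nat_lit 1) (.cons (.rf (nat_lit 84) (nat_lit 14238852161)) (.cons (.ev (nat_lit 310693935641242272387825921) (nat_lit 1)) (.cons (.ev (nat_lit 309485028340428215760716033) (nat_lit 1)) .nil)))) (.cons (.rf (nat_lit 2936) (nat_lit 493858305440582043680)) (.cons (.br (nat_lit 11) (nat_lit 1) (.cons (.rf (nat_lit 2935) (nat_lit 493858305440582043680)) (.cons (.ev (nat_lit 309485028340428215760716033) (nat_lit 1)) (.cons (.rf (nat_lit 2936) (nat_lit 493858305440582043680)) .nil)))) .nil))))) .nil)))))) (.cons (.br (nat_lit 1) (nat_lit 1) (.cons (.rf (nat_lit 1593) (nat_lit 458733397057)) (.cons (.ev (nat_lit 4722438541563194769409) (nat_lit 1)) (.cons (.rf (nat_lit 2937) (nat_lit 493858305440582043680)) (.cons (.br (nat_lit 2) (nat_lit 1) (.cons (.rf (nat_lit 1593) (nat_lit 458733389090)) (.cons (.rf (nat_lit 2938) (nat_lit 493858305440582043680)) (.cons (.ev (nat_lit 1208981376022943853838850) (nat_lit 2)) (.cons (.rf (nat_lit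 2938) (nat_lit 420143386739781765152)) .nil))))) (.cons (.rf (nat_lit 2937) (nat_lit 420143386739781765152)) .nil)))))) .nil)))))),
 (.br (nat_lit 8) (nat_lit 1) (.cons (.rf (nat_lit 2903) (nat_lit 493858305440582043680)) (.cons (.rf (nat_lit 2929) (nat_lit 493858305440582043680)) (.cons (.rf (nat_lit 2934) (nat_lit 493858305440582043680)) (.cons (.rf (nat_lit 2939) (nat_lit 493858305440582043680)) (.cons (.br (nat_lit 8) (nat_lit 1) (.cons (.rf (nat_lit 2903) (nat_lit 493858305440582043680)) (.cons (.rf (nat_lit 2929) (nat_lit 493858305440582043680)) (.cons (.rf (nat_lit 2934) (nat_lit 493858305440582043680)) (.cons (.rf (nat_lit 2939) (nat_lit 493858305440582043680)) (.cons (.rf (nat_lit 2939) (nat_lit 420143386739781765152)) .nil)))))) (.cons (.rf (nat_lit 2939) (nat_lit 420143386739781765152)) .nil))))))),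
 (.br (nat_lit 6) (nat_lit 1) (.cons (.rf (nat_lit 84) (nat_lit 12056795170)) (.cons (.rf (nat_lit 84) (nat_lit 10984101953)) (.cons (.ev (nat_lit 4722438821942954885121) (nat_lit 1)) .nil)))),
 (.br (nat_lit 12) (nat_lit 1) (.cons (.rf (nat_lit 1865) (nat_lit 13126032731650820128)) (.cons (.br (nat_lit 10) (nat_lit 1) (.cons (.ev (nat_lit 79228167255149903610208321536) (nat_lit 1)) .nil)) .nil))),
 (.br (nat_lit 7) (nat_lit 1) (.cons (.rf (nat_lit 84) (nat_lit 14238915649)) (.cons (.br (nat_lit 12) (nat_lit 1) (.cons (.ev (nat_lit 81088732499451483777128269061) (nat_lit 3)) (.cons (.ev (nat_lit 79228167236702879156755497216) (nat_lit 1)) .nil))) (.cons (.br (nat_lit 13) (nat_lit 1) (.cons (.zr (nat_lit 60847228834622760379163412661508) (nat_lit 3718655821135444913099374592) (nat_lit 30) (nat_lit 0)) (.cons (.ev (nat_lit 20282410817299928861614614315265) (nat_lit 1)) .nil))) .nil)))),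
 (.br (nat_lit 12) (nat_lit 1) (.cons (.ev (nat_lit 20283029782615579474986642046977) (nat_lit 2)) .nil)),
 (.br (nat_lit 2) (nat_lit 1) (.cons (.rf (nat_lit 84) (nat_lit 14238915649)) (.cons (.br (nat_lit 13) (nat_lit 1) (.cons (.br (nat_lit 12) (nat_lit 1) (.cons (.ev (nat_lit 79229371440156291296028262401) (nat_lit 1)) .nil)) (.cons (.ev (nat_lit 79229371440156291296028262401) (nat_lit 1)) .nil))) (.cons (.br (nat_lit 11) (nat_lit 1) (.cons (.rf (nat_lit 2944) (nat_lit 493858305440582043680)) (.cons (.ev (nat_lit 20282409603651742481545584246784) (nat_lit 1)) .nil))) .nil)))),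
 (.br (nat_lit 6) (nat_lit 1) (.cons (.ev (nat_lit 79228162514264619072815693824) (nat_lit 1)) (.cons (.ev (nat_lit 4722438821942954885121) (nat_lit 1)) .nil))),
 (.br (nat_lit 11) (nat_lit 1) (.cons (.rf (nat_lit 2943) (nat_lit 493858305440582043680)) (.cons (.rf (nat_lit 2945) (nat_lit 493858305440582043680)) (.cons (.br (nat_lit 2) (nat_lit 1) (.cons (.br (nat_lit 12) (nat_lit 1) (.cons (.ev (nat_lit 79229371440156291296028262401) (nat_lit 1)) .nil)) (.cons (.ev (nat_lit 310693935640960797427957761) (nat_lit 1)) (.cons (.rf (nat_lit 2946) (nat_lit 15433072044983552032)) .nil)))) .nil)))),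
 (.br (nat_lit 11) (nat_lit 1) (.cons (.rf (nat_lit 2594) (nat_lit 12257074241)) (.cons (.rf (nat_lit 2594) (nat_lit 12257069281)) (.cons (.br (nat_lit 2) (nat_lit 1) (.cons (.rf (nat_lit 31) (nat_lit 377529570)) (.cons (.br (nat_lit 7) (nat_lit 1) (.cons (.ev (nat_lit 1208944338416301217218561) (nat_lit 1)) (.cons (.br (nat_lit 12) (nat_lit 1) (.cons (.ev (nat_lit 20522260519375191089459639812870) (nat_lit 3)) .nil)) .nil))) (.cons (.br (nat_lit 7) (nat_lit 1) (.cons (.br (nat_lit 12) (nat_lit 1) (.cons (.ev (nat_lit 20838559035116317118952038794496) (nat_lit 3)) .nil)) (.cons (.ev (nat_lit 1208944338416301217218561) (nat_lit 1)) .nil))) .nil)))) (.cons (.ev (nat_lit 309489750634572016391290881) (nat_lit 1)) .nil))))),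
 (.br (nat_lit 7) (nat_lit 1) (.cons (.ev (nat_lit 1208944338416301217218561) (nat_lit 1)) (.cons (.br (nat_lit 11) (nat_lit 1) (.cons (.ev (nat_lit 79538861190790582928364536065) (nat_lit 1)) (.cons (.br (nat_lit 12) (nat_lit 1) (.cons (.ev (nat_lit 20837323484557578580345406031108) (nat_lit 3)) .nil)) .nil))) (.cons (.br (nat_lit 11) (nat_lit 1) (.cons (.br (nat_lit 12) (nat_lit 1) (.cons (.ev (nat_lit 20998869833500137526797416073996) (nat_lit 4)) .nil)) (.cons (.ev (nat_lit 20282719093402377336127873941760) (nat_lit 1)) .nil))) .nil)))),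
 (.br (nat_lit 11) (nat_lit 1) (.cons (.rf (nat_lit 84) (nat_lit 8971847721)) (.cons (.br (nat_lit 12) (nat_lit 1) (.cons (.ev (nat_lit 20282410812577490039675954462721) (nat_lit 1)) .nil)) .nil))),
 (.br (nat_lit 8) (nat_lit 1) (.cons (.rf (nat_lit 2903) (nat_lit 493858305440582043680)) (.cons (.rf (nat_lit 2929) (nat_lit 493858305440582043680)) (.cons (.rf (nat_lit 2940) (nat_lit 493858305440582043680)) (.cons (.br (nat_lit 1) (nat_lit 1) (.cons (.br (nat_lit 7) (nat_lit 1) (.cons (.rf (nat_lit 31) (nat_lit 377726017)) (.cons (.rf (nat_lit 31) (nat_lit 411280449)) (.cons (.br (nat_lit 11) (nat_lit 1) (.cons (.br (nat_lit 11) (nat_lit 1) (.cons (.zr (nat_lit 55556405003276189696) (nat_lit 620178945462587345407574785) (nat_lit 5) (nat_lit 0)) .nil)) (.cons (.br (nat_lit 11) (nat_lit 1) (.cons (.zr (nat_lit 55556405003276189696) (nat_lit 620178945462587345407574785) (nat_lit 5) (nat_lit 0)) .nil)) .nil))) .nil)))) (.cons (.ev (nat_lit 4722438541563194769409) (nat_lit 1)) (.cons (.br (nat_lit 11)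 (nat_lit 1) (.cons (.rf (nat_lit 2594) (nat_lit 12223519809)) (.cons (.rf (nat_lit 2594) (nat_lit 12223514849)) (.cons (.ev (nat_lit 309489750634572016391290881) (nat_lit 1)) (.cons (.br (nat_lit 2) (nat_lit 1) (.cons (.ev (nat_lit 4740885567111897874688) (nat_lit 1)) (.cons (.rf (nat_lit 2941) (nat_lit 15433072044983552032)) (.cons (.br (nat_lit 7) (nat_lit 1) (.cons (.ev (nat_lit 1208944338416301217218561) (nat_lit 1)) (.cons (.zr (nat_lit 166308929268743143424) (nat_lit 20282721506513133531549115876616) (nat_lit 15) (nat_lit 4)) .nil))) .nil)))) .nil))))) (.cons (.br (nat_lit 2) (nat_lit 1) (.cons (.rf (nat_lit 31) (nat_lit 411084002)) (.cons (.br (nat_lit 7) (nat_lit 1) (.cons (.ev (nat_lit 309489732188109417641738496) (nat_lit 1)) (.cons (.rf (nat_lit 84) (nat_lit 12092480546)) (.cons (.br (nat_lit 11) (nat_lit 1) (.cons (.ev (nat_lit 79538870635668507189739258370) (nat_lit 2)) (.cons (.br (nat_lit 12) (nat_lit 1) (.cons (.ev (nat_lit 79537652246452447011202465793) (nat_lit 1)) .nil)) .nil)))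 .nil)))) (.cons (.rf (nat_lit 2594) (nat_lit 13263707201)) (.cons (.br (nat_lit 7) (nat_lit 1) (.cons (.rf (nat_lit 2942) (nat_lit 15433072045018187808)) (.cons (.ev (nat_lit 1208944338416301217218561) (nat_lit 1)) (.cons (.br (nat_lit 12) (nat_lit 1) (.cons (.br (nat_lit 11) (nat_lit 1) (.cons (.ev (nat_lit 20522260509967495727055878031108) (nat_lit 3)) .nil)) (.cons (.ev (nat_lit 20361638979832639661806891041025) (nat_lit 1)) .nil))) .nil)))) .nil))))) (.cons (.br (nat_lit 11) (nat_lit 1) (.cons (.rf (nat_lit 2943) (nat_lit 493858305440582043680)) (.cons (.rf (nat_lit 2945) (nat_lit 493858305440582043680)) (.cons (.rf (nat_lit 2947) (nat_lit 493858305440582043680)) (.cons (.br (nat_lit 11) (nat_lit 1) (.cons (.rf (nat_lit 2943) (nat_lit 493858305440582043680)) (.cons (.rf (nat_lit 2945) (nat_lit 493858305440582043680)) (.cons (.rf (nat_lit 2947) (nat_lit 493858305440582043680)) .nil)))) .nil))))) .nil)))))) (.cons (.br (nat_lit 1) (nat_lit 1) (.cons (.rf (nat_lit 1593) (nat_lit 458800503873))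 (.cons (.ev (nat_lit 4722438541563194769409) (nat_lit 1)) (.cons (.rf (nat_lit 2948) (nat_lit 493858305440582043680)) (.cons (.br (nat_lit 2) (nat_lit 1) (.cons (.rf (nat_lit 1593) (nat_lit 458800497890)) (.cons (.rf (nat_lit 2949) (nat_lit 493858305440582043680)) (.cons (.br (nat_lit 7) (nat_lit 1) (.cons (.rf (nat_lit 2950) (nat_lit 493858305440582043680)) (.cons (.ev (nat_lit 1208944338416301217218561) (nat_lit 1)) (.cons (.rf (nat_lit 2950) (nat_lit 420143386739781765152)) .nil)))) (.cons (.rf (nat_lit 2949) (nat_lit 420143386739781765152)) .nil))))) (.cons (.rf (nat_lit 2948) (nat_lit 420143386739781765152)) .nil)))))) .nil)))))),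
 (.br (nat_lit 8) (nat_lit 1) (.cons (.rf (nat_lit 2903) (nat_lit 493858305440582043680)) (.cons (.rf (nat_lit 2929) (nat_lit 493858305440582043680)) (.cons (.rf (nat_lit 2940) (nat_lit 493858305440582043680)) (.cons (.rf (nat_lit 2951) (nat_lit 493858305440582043680)) (.cons (.br (nat_lit 8) (nat_lit 1) (.cons (.rf (nat_lit 2903) (nat_lit 493858305440582043680)) (.cons (.rf (nat_lit 2929) (nat_lit 493858305440582043680)) (.cons (.rf (nat_lit 2940) (nat_lit 493858305440582043680)) (.cons (.rf (nat_lit 2951) (nat_lit 493858305440582043680)) (.cons (.rf (nat_lit 2951) (nat_lit 420143386739781765152)) .nil)))))) (.cons (.rf (nat_lit 2951) (nat_lit 420143386739781765152)) .nil))))))),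
 (.br (nat_lit 7) (nat_lit 1) (.cons (.br (nat_lit 13) (nat_lit 1) (.cons (.rf (nat_lit 1784) (nat_lit 14316145252502799424)) (.cons (.zr (nat_lit 928455029680770938241548288) (nat_lit 1208962713103880417181697) (nat_lit 5) (nat_lit 10)) (.cons (.br (nat_lit 11) (nat_lit 1) (.cons (.rf (nat_lit 29) (nat_lit 11830498)) (.cons (.ev (nat_lit 79538856449905298390955131136) (nat_lit 1)) (.cons (.zr (nat_lit 928455029680770938241548288) (nat_lit 1208962713103880417181697) (nat_lit 5) (nat_lit 10)) .nil)))) .nil)))) (.cons (.br (nat_lit 2) (nat_lit 1) (.cons (.rf (nat_lit 29) (nat_lit 11601191)) (.cons (.ev (nat_lit 1208944338416301217218561) (nat_lit 1)) (.cons (.br (nat_lit 13) (nat_lit 1) (.cons (.ev (nat_lit 310698658079501261094256641) (nat_lit 1)) (.cons (.zr (nat_lit 60847228825122110720450689499904) (nat_lit 1208962713385355393892353) (nat_lit 5) (nat_lit 10)) .nil))) .nil)))) (.cons (.ev (nat_lit 1208944338697776210641153) (nat_lit 1)) (.cons (.br (nat_lit 2) (nat_lit 1) (.cons (.ev (nat_lit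 1208944338416301217218561) (nat_lit 1)) (.cons (.br (nat_lit 9) (nat_lit 1) (.cons (.ev (nat_lit 79538861190790582928364536065) (nat_lit 1)) (.cons (.br (nat_lit 12) (nat_lit 1) (.cons (.ev (nat_lit 79538861190790864403324534785) (nat_lit 1)) .nil)) .nil))) (.cons (.br (nat_lit 9) (nat_lit 1) (.cons (.rf (nat_lit 82) (nat_lit 9004360738)) (.cons (.br (nat_lit 11) (nat_lit 1) (.cons (.ev (nat_lit 20680721661180638236206606385922) (nat_lit 3)) .nil)) .nil))) (.cons (.br (nat_lit 9) (nat_lit 1) (.cons (.br (nat_lit 12) (nat_lit 1) (.cons (.ev (nat_lit 79538856449905579865948553216) (nat_lit 1)) .nil)) (.cons (.br (nat_lit 11) (nat_lit 1) (.cons (.ev (nat_lit 79538856449905579865948553216) (nat_lit 1)) .nil)) (.cons (.ev (nat_lit 20282410817318375324213330313216) (nat_lit 1)) .nil)))) .nil))))) (.cons (.br (nat_lit 11) (nat_lit 1) (.cons (.zr (nat_lit 928455029680770938241548288) (nat_lit 1208962713103880417181697) (nat_lit 5) (nat_lit 10)) (.cons (.rf (nat_lit 2061) (nat_lit 441811271881526562)) (.cons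 (.br (nat_lit 2) (nat_lit 1) (.cons (.br (nat_lit 12) (nat_lit 1) (.cons (.zr (nat_lit 23704139036735741887747) (nat_lit 318153007947981962115071344640) (nat_lit 10) (nat_lit 0)) .nil)) (.cons (.ev (nat_lit 79229371440156291296028262401) (nat_lit 1)) (.cons (.br (nat_lit 9) (nat_lit 1) (.cons (.zr (nat_lit 79228186126168809535808013571) (nat_lit 1240357890925174690848702464) (nat_lit 10) (nat_lit 0)) .nil)) .nil)))) (.cons (.br (nat_lit 9) (nat_lit 1) (.cons (.rf (nat_lit 31) (nat_lit 447972642)) (.cons (.ev (nat_lit 20282720302328124610592817283073) (nat_lit 1)) .nil))) .nil))))) .nil)))))),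
 (.br (nat_lit 1) (nat_lit 1) (.cons (.br (nat_lit 9) (nat_lit 1) (.cons (.rf (nat_lit 29) (nat_lit 11831521)) (.cons (.kr (nat_lit 4722366482869645213952) (nat_lit 72339069014638592) (nat_lit 1) (nat_lit 0)) (.cons (.br (nat_lit 11) (nat_lit 1) (.cons (.zr (nat_lit 928469196563483815109985024) (nat_lit 1208962713385355393892353) (nat_lit 5) (nat_lit 10)) (.cons (.zr (nat_lit 928455029680770938241548288) (nat_lit 1208962713103880417181697) (nat_lit 5) (nat_lit 10)) .nil))) .nil)))) (.cons (.br (nat_lit 7) (nat_lit 1) (.cons (.rf (nat_lit 29) (nat_lit 11766049)) (.cons (.br (nat_lit 11) (nat_lit 1) (.cons (.ev (nat_lit 79538861190790582928364536065) (nat_lit 1)) (.cons (.br (nat_lit 12) (nat_lit 1) (.cons (.ev (nat_lit 79538861190790864403324534785) (nat_lit 1)) .nil)) .nil))) (.cons (.br (nat_lit 11) (nat_lit 1) (.cons (.br (nat_lit 12) (nat_lit 1) (.cons (.ev (nat_lit 20839177986246062088390973784838) (nat_lit 3)) .nil)) (.cons (.ev (nat_lit 20283030996263910533210847707904) (nat_lit 2)) .nil)))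 .nil)))) (.cons (.rf (nat_lit 2953) (nat_lit 493858305440582043680)) (.cons (.br (nat_lit 7) (nat_lit 1) (.cons (.br (nat_lit 11) (nat_lit 1) (.cons (.ev (nat_lit 79538861190790582928364536065) (nat_lit 1)) (.cons (.zr (nat_lit 928469196563483815109985024) (nat_lit 1208962713385355393892353) (nat_lit 5) (nat_lit 10)) .nil))) (.cons (.br (nat_lit 9) (nat_lit 1) (.cons (.ev (nat_lit 79538861190790582928364536065) (nat_lit 1)) (.cons (.zr (nat_lit 928469196563483815109985024) (nat_lit 1208962713385355393892353) (nat_lit 5) (nat_lit 10)) .nil))) (.cons (.ev (nat_lit 1208944338697776210641153) (nat_lit 1)) (.cons (.br (nat_lit 9) (nat_lit 1) (.cons (.ev (nat_lit 311907620721390872925700865) (nat_lit 2)) (.cons (.br (nat_lit 11) (nat_lit 1) (.cons (.ev (nat_lit 310698676526526809797361920) (nat_lit 1)) .nil)) (.cons (.br (nat_lit 11) (nat_lit 1) (.cons (.ev (nat_lit 310698676526526809797361920) (nat_lit 1)) .nil)) .nil)))) .nil))))) (.cons (.rf (nat_lit 2953) (nat_lit 420143386739781765152)) .nil))))))]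

theorem c98 : chkAll C T R L98 (nat_lit 2937) = true := by decide +kernel

theorem l98 : (nat_lit 2937) + L98.length = (nat_lit 2955) := by decide +kernel

/-- part of the certificates -/
def L99 : List Prf := [(.br (nat_lit 1) (nat_lit 1) (.cons (.br (nat_lit 12) (nat_lit 1) (.cons (.zr (nat_lit 928469196563483815109985024) (nat_lit 1208962713385355393892353) (nat_lit 5) (nat_lit 10)) (.cons (.zr (nat_lit 60847228810955227444623901392896) (nat_lit 1208962713385355377115905) (nat_lit 5) (nat_lit 10)) .nil))) (.cons (.ev (nat_lit 1208944338697776210641153) (nat_lit 1)) (.cons (.br (nat_lit 2) (nat_lit 1) (.cons (.zr (nat_lit 928469196563483815109985024) (nat_lit 1208962713385355393892353) (nat_lit 5) (nat_lit 10)) (.cons (.br (nat_lit 11) (nat_lit 1) (.cons (.ev (nat_lit 79538861190790864403324534785) (nat_lit 1)) .nil)) (.cons (.ev (nat_lit 20282412026262570469751452205825) (nat_lit 2)) .nil)))) (.cons (.rf (nat_lit 2061) (nat_lit 441740905284832546)) .nil))))),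
 (.br (nat_lit 13) (nat_lit 1) (.cons (.rf (nat_lit 2953) (nat_lit 420143386739781765152)) (.cons (.rf (nat_lit 2954) (nat_lit 420143386739781765152)) (.cons (.rf (nat_lit 2955) (nat_lit 493858305440582043680)) (.cons (.br (nat_lit 1) (nat_lit 1) (.cons (.br (nat_lit 9) (nat_lit 1) (.cons (.zr (nat_lit 928469196563483815109985024) (nat_lit 1208962713385355393892353) (nat_lit 5) (nat_lit 10)) .nil)) (.cons (.ev (nat_lit 20282410812577490321150914330881) (nat_lit 1)) (.cons (.br (nat_lit 2) (nat_lit 1) (.cons (.zr (nat_lit 928469196563483815109985024) (nat_lit 1208962713385355393892353) (nat_lit 5) (nat_lit 10)) .nil)) .nil)))) .nil))))),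
 (.br (nat_lit 13) (nat_lit 1) (.cons (.rf (nat_lit 2953) (nat_lit 420143386739781765152)) (.cons (.rf (nat_lit 2954) (nat_lit 420143386739781765152)) (.cons (.rf (nat_lit 2955) (nat_lit 493858305440582043680)) (.cons (.rf (nat_lit 2956) (nat_lit 493858305440582043680)) (.cons (.br (nat_lit 13) (nat_lit 1) (.cons (.rf (nat_lit 2953) (nat_lit 420143386739781765152)) (.cons (.rf (nat_lit 2954) (nat_lit 420143386739781765152)) (.cons (.rf (nat_lit 2955) (nat_lit 493858305440582043680)) (.cons (.rf (nat_lit 2956) (nat_lit 493858305440582043680)) .nil))))) .nil)))))),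
 (.br (nat_lit 13) (nat_lit 1) (.cons (.rf (nat_lit 2953) (nat_lit 420143386739781765152)) (.cons (.rf (nat_lit 2954) (nat_lit 420143386739781765152)) (.cons (.rf (nat_lit 2957) (nat_lit 420143386739781765152)) (.cons (.br (nat_lit 12) (nat_lit 1) (.cons (.ev (nat_lit 310693935641242272387825921) (nat_lit 1)) (.cons (.ev (nat_lit 20282410812577490039675954462721) (nat_lit 1)) (.cons (.br (nat_lit 1) (nat_lit 1) (.cons (.zr (nat_lit 928455029680207988321878016) (nat_lit 1208962713385355377115905) (nat_lit 5) (nat_lit 10)) .nil)) .nil)))) .nil))))),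
 (.br (nat_lit 13) (nat_lit 1) (.cons (.rf (nat_lit 2953) (nat_lit 420143386739781765152)) (.cons (.rf (nat_lit 2954) (nat_lit 420143386739781765152)) (.cons (.rf (nat_lit 2957) (nat_lit 420143386739781765152)) (.cons (.rf (nat_lit 2958) (nat_lit 493858305440582043680)) (.cons (.br (nat_lit 13) (nat_lit 1) (.cons (.rf (nat_lit 2953) (nat_lit 420143386739781765152)) (.cons (.rf (nat_lit 2954) (nat_lit 420143386739781765152)) (.cons (.rf (nat_lit 2957) (nat_lit 420143386739781765152)) (.cons (.rf (nat_lit 2958) (nat_lit 493858305440582043680)) .nil))))) .nil)))))),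
 (.br (nat_lit 11) (nat_lit 1) (.cons (.rf (nat_lit 2953) (nat_lit 493858305440582043680)) (.cons (.rf (nat_lit 2954) (nat_lit 493858305440582043680)) (.cons (.rf (nat_lit 2957) (nat_lit 493858305440582043680)) (.cons (.rf (nat_lit 2959) (nat_lit 493858305440582043680)) (.cons (.br (nat_lit 13) (nat_lit 1) (.cons (.rf (nat_lit 2953) (nat_lit 420143386739781765152)) (.cons (.rf (nat_lit 2954) (nat_lit 420143386739781765152)) (.cons (.rf (nat_lit 2957) (nat_lit 420143386739781765152)) (.cons (.rf (nat_lit 2959) (nat_lit 420143386739781765152)) (.cons (.kr (nat_lit 309485009821345068724781056) (nat_lit 20282409603651670423947251286016) (nat_lit 11) (nat_lit 0)) .nil)))))) .nil)))))),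
 (.br (nat_lit 8) (nat_lit 1) (.cons (.rf (nat_lit 2903) (nat_lit 493858305440582043680)) (.cons (.rf (nat_lit 2929) (nat_lit 493858305440582043680)) (.cons (.rf (nat_lit 2940) (nat_lit 493858305440582043680)) (.cons (.rf (nat_lit 2952) (nat_lit 493858305440582043680)) (.cons (.br (nat_lit 11) (nat_lit 1) (.cons (.rf (nat_lit 2953) (nat_lit 493858305440582043680)) (.cons (.rf (nat_lit 2954) (nat_lit 493858305440582043680)) (.cons (.rf (nat_lit 2957) (nat_lit 493858305440582043680)) (.cons (.rf (nat_lit 2959) (nat_lit 493858305440582043680)) (.cons (.rf (nat_lit 2960) (nat_lit 493858305440582043680)) (.cons (.br (nat_lit 11) (nat_lit 1) (.cons (.rf (nat_lit 2953) (nat_lit 493858305440582043680)) (.cons (.rf (nat_lit 2954) (nat_lit 493858305440582043680)) (.cons (.rf (nat_lit 2957) (nat_lit 493858305440582043680)) (.cons (.rf (nat_lit 2959) (nat_lit 493858305440582043680)) (.cons (.rf (nat_lit 2960) (nat_lit 493858305440582043680)) .nil)))))) .nil))))))) .nil)))))),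
 (.br (nat_lit 8) (nat_lit 1) (.cons (.rf (nat_lit 2903) (nat_lit 493858305440582043680)) (.cons (.rf (nat_lit 2929) (nat_lit 493858305440582043680)) (.cons (.rf (nat_lit 2940) (nat_lit 493858305440582043680)) (.cons (.rf (nat_lit 2952) (nat_lit 493858305440582043680)) (.cons (.rf (nat_lit 2961) (nat_lit 493858305440582043680)) (.cons (.br (nat_lit 8) (nat_lit 1) (.cons (.rf (nat_lit 2903) (nat_lit 493858305440582043680)) (.cons (.rf (nat_lit 2929) (nat_lit 493858305440582043680)) (.cons (.rf (nat_lit 2940) (nat_lit 493858305440582043680)) (.cons (.rf (nat_lit 2952) (nat_lit 493858305440582043680)) (.cons (.rf (nat_lit 2961) (nat_lit 493858305440582043680)) .nil)))))) .nil))))))),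
 (.br (nat_lit 10) (nat_lit 1) (.cons (.br (nat_lit 6) (nat_lit 1) (.cons (.br (nat_lit 10) (nat_lit 1) (.cons (.br (nat_lit 8) (nat_lit 1) (.cons (.rf (nat_lit 2903) (nat_lit 493858305440582043680)) (.cons (.rf (nat_lit 2929) (nat_lit 493858305440582043680)) (.cons (.rf (nat_lit 2940) (nat_lit 493858305440582043680)) (.cons (.rf (nat_lit 2952) (nat_lit 493858305440582043680)) (.cons (.rf (nat_lit 2962) (nat_lit 493858305440582043680)) (.cons (.br (nat_lit 8) (nat_lit 1) (.cons (.rf (nat_lit 2903) (nat_lit 493858305440582043680)) (.cons (.rf (nat_lit 2929) (nat_lit 493858305440582043680)) (.cons (.rf (nat_lit 2940) (nat_lit 493858305440582043680)) (.cons (.rf (nat_lit 2952) (nat_lit 493858305440582043680)) (.cons (.rf (nat_lit 2962) (nat_lit 493858305440582043680)) (.cons (.rf (nat_lit 2962) (nat_lit 420143386739781765152)) .nil))))))) (.cons (.rf (nat_lit 2962) (nat_lit 420143386739781765152)) .nil)))))))) .nil)) .nil)) .nil)),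
 (.br (nat_lit 12) (nat_lit 1) (.cons (.ev (nat_lit 79229371440084234797206995201) (nat_lit 1)) .nil)),
 (.br (nat_lit 11) (nat_lit 1) (.cons (.rf (nat_lit 84) (nat_lit 13164944425)) (.cons (.rf (nat_lit 84) (nat_lit 9004424226)) (.cons (.br (nat_lit 8) (nat_lit 1) (.cons (.rf (nat_lit 2964) (nat_lit 493858305440582043680)) (.cons (.br (nat_lit 8) (nat_lit 1) (.cons (.rf (nat_lit 2964) (nat_lit 493858305440582043680)) .nil)) .nil))) .nil)))),
 (.br (nat_lit 13) (nat_lit 1) (.cons (.br (nat_lit 11) (nat_lit 1) (.cons (.zr (nat_lit 23611904471942264063235) (nat_lit 1239148965105560061673996288) (nat_lit 10) (nat_lit 0)) (.cons (.zr (nat_lit 3650389363315829788181763) (nat_lit 81130876354645967641221504434176) (nat_lit 10) (nat_lit 0)) .nil))) (.cons (.ev (nat_lit 20282410812577490321150914330881) (nat_lit 1)) .nil))),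
 (.br (nat_lit 13) (nat_lit 1) (.cons (.rf (nat_lit 2966) (nat_lit 493858305440582043680)) (.cons (.br (nat_lit 11) (nat_lit 1) (.cons (.zr (nat_lit 930872881319437246637735936) (nat_lit 101412048018258352402315056513025) (nat_lit 5) (nat_lit 0)) (.cons (.zr (nat_lit 928455029680207988288323584) (nat_lit 40564820416229160745102477361153) (nat_lit 5) (nat_lit 0)) (.cons (.ev (nat_lit 79229371440083953322247127041) (nat_lit 1)) .nil)))) .nil))),
 (.br (nat_lit 13) (nat_lit 1) (.cons (.rf (nat_lit 2966) (nat_lit 493858305440582043680)) (.cons (.rf (nat_lit 2967) (nat_lit 493858305440582043680)) (.cons (.br (nat_lit 13) (nat_lit 1) (.cons (.ev (nat_lit 20282410812577490321150914330881) (nat_lit 1)) (.cons (.rf (nat_lit 2967) (nat_lit 493858305440582043680)) .nil))) .nil)))),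
 (.br (nat_lit 13) (nat_lit 1) (.cons (.rf (nat_lit 2968) (nat_lit 493858305440582043680)) (.cons (.zr (nat_lit 23611904471942264063235) (nat_lit 1239148965105560061673996288) (nat_lit 10) (nat_lit 0)) (.cons (.br (nat_lit 8) (nat_lit 1) (.cons (.zr (nat_lit 237684487542793017178678362880) (nat_lit 1218407446349995172691969) (nat_lit 5) (nat_lit 4)) (.cons (.ev (nat_lit 20282409608374109246985422831616) (nat_lit 1)) .nil))) .nil)))),
 (.br (nat_lit 8) (nat_lit 1) (.cons (.rf (nat_lit 2969) (nat_lit 493858305440582043680)) (.cons (.br (nat_lit 8) (nat_lit 1) (.cons (.rf (nat_lit 2969) (nat_lit 493858305440582043680)) (.cons (.rf (nat_lit 2968) (nat_lit 493858305440582043680)) .nil))) (.cons (.rf (nat_lit 2968) (nat_lit 493858305440582043680)) .nil)))),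
 (.br (nat_lit 13) (nat_lit 1) (.cons (.rf (nat_lit 2968) (nat_lit 493858305440582043680)) (.cons (.rf (nat_lit 2970) (nat_lit 493858305440582043680)) (.cons (.br (nat_lit 13) (nat_lit 1) (.cons (.rf (nat_lit 2968) (nat_lit 493858305440582043680)) (.cons (.kr (nat_lit 1208925819614629174706176) (nat_lit 20282409603651670423947251286016) (nat_lit 10) (nat_lit 0)) .nil))) .nil)))),
 (.br (nat_lit 13) (nat_lit 1) (.cons (.rf (nat_lit 2968) (nat_lit 493858305440582043680)) (.cons (.rf (nat_lit 2970) (nat_lit 493858305440582043680)) (.cons (.rf (nat_lit 2971) (nat_lit 493858305440582043680)) (.cons (.br (nat_lit 13) (nat_lit 1) (.cons (.rf (nat_lit 2968) (nat_lit 493858305440582043680)) (.cons (.rf (nat_lit 2970) (nat_lit 493858305440582043680)) (.cons (.rf (nat_lit 2971) (nat_lit 493858305440582043680)) .nil)))) .nil))))),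
 (.br (nat_lit 7) (nat_lit 1) (.cons (.rf (nat_lit 1637) (nat_lit 14718124432449)) (.cons (.rf (nat_lit 1627) (nat_lit 470979746768096)) (.cons (.br (nat_lit 9) (nat_lit 1) (.cons (.rf (nat_lit 1343) (nat_lit 423433083938)) (.cons (.rf (nat_lit 58) (nat_lit 11836450)) (.cons (.rf (nat_lit 2965) (nat_lit 493858305440582043680)) (.cons (.rf (nat_lit 2965) (nat_lit 458117738797769787424)) .nil))))) (.cons (.rf (nat_lit 2972) (nat_lit 493858305440582043680)) (.cons (.rf (nat_lit 2972) (nat_lit 458117738797769787424)) .nil)))))),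
 (.br (nat_lit 1) (nat_lit 1) (.cons (.rf (nat_lit 1625) (nat_lit 14718124427489)) (.cons (.ev (nat_lit 282574488338689) (nat_lit 1)) (.cons (.rf (nat_lit 1627) (nat_lit 470979746964512)) (.cons (.rf (nat_lit 2973) (nat_lit 493858305440582043680)) (.cons (.rf (nat_lit 2973) (nat_lit 492741412732994160672)) (.cons (.rf (nat_lit 2973) (nat_lit 455883953382594021408)) .nil))))))),
 (.br (nat_lit 7) (nat_lit 1) (.cons (.ev (nat_lit 310693954159761369958777088) (nat_lit 1)) (.cons (.br (nat_lit 12) (nat_lit 1) (.cons (.ev (nat_lit 20837935219985412373102716978948) (nat_lit 3)) .nil)) .nil))),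
 (.br (nat_lit 11) (nat_lit 1) (.cons (.rf (nat_lit 2594) (nat_lit 12223519809)) (.cons (.rf (nat_lit 2594) (nat_lit 12223514849)) (.cons (.ev (nat_lit 309489750634572016391290881) (nat_lit 1)) (.cons (.br (nat_lit 2) (nat_lit 1) (.cons (.ev (nat_lit 621387908248310666043261440) (nat_lit 2)) (.cons (.rf (nat_lit 2975) (nat_lit 493858305440582043680)) (.cons (.br (nat_lit 7) (nat_lit 1) (.cons (.rf (nat_lit 2975) (nat_lit 493858305267742153760)) (.cons (.ev (nat_lit 310693954159761369958777088) (nat_lit 1)) .nil))) .nil)))) .nil))))),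
 (.br (nat_lit 11) (nat_lit 1) (.cons (.rf (nat_lit 84) (nat_lit 14238915649)) (.cons (.br (nat_lit 13) (nat_lit 1) (.cons (.ev (nat_lit 310693935713298771209093121) (nat_lit 1)) (.cons (.br (nat_lit 7) (nat_lit 1) (.cons (.ev (nat_lit 310693935713298771209093121) (nat_lit 1)) .nil)) .nil))) (.cons (.ev (nat_lit 309489732188109417641738496) (nat_lit 1)) .nil)))),
 (.br (nat_lit 1) (nat_lit 1) (.cons (.rf (nat_lit 1593) (nat_lit 424440765505)) (.cons (.rf (nat_lit 1593) (nat_lit 424440760545)) (.cons (.rf (nat_lit 2976) (nat_lit 493858305440582043680)) (.cons (.rf (nat_lit 2976) (nat_lit 492741412732994160672)) (.cons (.br (nat_lit 2) (nat_lit 1) (.cons (.rf (nat_lit 1593) (nat_lit 424440759522)) (.cons (.rf (nat_lit 2977) (nat_lit 493858305440582043680)) (.cons (.rf (nat_lit 2977) (nat_lit 492741412732994160672)) (.cons (.br (nat_lit 7) (nat_lit 1) (.cons (.rf (nat_lit 2977) (nat_lit 493858305267742153760)) (.cons (.rf (nat_lit 2977) (nat_lit 492741412560154270752)) (.cons (.kr (nat_lit 1208925819614629174706177)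 (nat_lit 20282409603670117168020960837632) (nat_lit 0) (nat_lit 1)) .nil)))) .nil))))) .nil)))))),
 (.br (nat_lit 8) (nat_lit 1) (.cons (.ev (nat_lit 282574488338689) (nat_lit 1)) (.cons (.rf (nat_lit 2974) (nat_lit 493858305440582043680)) (.cons (.rf (nat_lit 2974) (nat_lit 493858305267742153760)) (.cons (.rf (nat_lit 2978) (nat_lit 493858305440582043680)) (.cons (.rf (nat_lit 2978) (nat_lit 458117738797769787424)) .nil)))))),
 (.br (nat_lit 8) (nat_lit 1) (.cons (.ev (nat_lit 282574488338689) (nat_lit 1)) (.cons (.rf (nat_lit 2974) (nat_lit 493858305440582043680)) (.cons (.rf (nat_lit 2974) (nat_lit 493858305267742153760)) (.cons (.rf (nat_lit 2979) (nat_lit 493858305440582043680)) (.cons (.rf (nat_lit 2979) (nat_lit 492741412732994160672)) (.cons (.rf (nat_lit 2979) (nat_lit 455883953382594021408)) .nil))))))),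
 (.br (nat_lit 11) (nat_lit 1) (.cons (.rf (nat_lit 31) (nat_lit 414489665)) (.cons (.zr (nat_lit 928469196563483815109985024) (nat_lit 1208962713385355393892353) (nat_lit 5) (nat_lit 10)) .nil))),
 (.br (nat_lit 9) (nat_lit 1) (.cons (.ev (nat_lit 311907620864945318627640065) (nat_lit 2)) (.cons (.rf (nat_lit 2981) (nat_lit 493858305440582043680)) (.cons (.rf (nat_lit 2981) (nat_lit 458117738797769787424)) .nil)))),
 (.br (nat_lit 7) (nat_lit 1) (.cons (.zr (nat_lit 4740957342131430752512) (nat_lit 1208925819897207974789121) (nat_lit 5) (nat_lit 0)) (.cons (.rf (nat_lit 2982) (nat_lit 493858305440582043680)) (.cons (.rf (nat_lit 2982) (nat_lit 492741412732994160672)) (.cons (.rf (nat_lit 2982) (nat_lit 455883953382594021408)) .nil)))))]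

theorem c99 : chkAll C T R L99 (nat_lit 2955) = true := by decide +kernel

theorem l99 : (nat_lit 2955) + L99.length = (nat_lit 2984) := by decide +kernel

/-- part of the certificates -/
def L100 : List Prf := [(.br (nat_lit 7) (nat_lit 1) (.cons (.ev (nat_lit 310693954159761369958777088) (nat_lit 1)) (.cons (.ev (nat_lit 1213648258437667346251776) (nat_lit 1)) .nil))),
 (.br (nat_lit 7) (nat_lit 1) (.cons (.rf (nat_lit 1314) (nat_lit 493858305440549536832)) (.cons (.ev (nat_lit 79229371440083953322247127041) (nat_lit 1)) (.cons (.br (nat_lit 9) (nat_lit 1) (.cons (.zr (nat_lit 79228186126168809535808013571) (nat_lit 1240357890925174690848702464) (nat_lit 10) (nat_lit 0)) .nil)) .nil)))),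
 (.br (nat_lit 13) (nat_lit 1) (.cons (.rf (nat_lit 2985) (nat_lit 493858305440582043680)) (.cons (.rf (nat_lit 2985) (nat_lit 493858305267742153760)) (.cons (.br (nat_lit 13) (nat_lit 1) (.cons (.rf (nat_lit 2985) (nat_lit 493858305440582043680)) (.cons (.rf (nat_lit 2985) (nat_lit 493858305267742153760)) (.cons (.ev (nat_lit 79538861190718524239109947393) (nat_lit 1)) .nil)))) (.cons (.br (nat_lit 13) (nat_lit 1) (.cons (.rf (nat_lit 2985) (nat_lit 493858305440582043680)) (.cons (.rf (nat_lit 2985) (nat_lit 493858305267742153760)) (.cons (.ev (nat_lit 79538861190718524239109947393) (nat_lit 1)) .nil)))) .nil))))),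
 (.br (nat_lit 11) (nat_lit 1) (.cons (.ev (nat_lit 310693954087704871137509376) (nat_lit 1)) (.cons (.ev (nat_lit 310693954160042844918644736) (nat_lit 1)) (.cons (.br (nat_lit 2) (nat_lit 1) (.cons (.ev (nat_lit 621387908248310666043261440) (nat_lit 2)) (.cons (.rf (nat_lit 2984) (nat_lit 493858305440582043680)) (.cons (.rf (nat_lit 2984) (nat_lit 458117738797769787424)) .nil)))) (.cons (.rf (nat_lit 2986) (nat_lit 493858305440582043680)) (.cons (.rf (nat_lit 2986) (nat_lit 458117738797769787424)) .nil)))))),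
 (.br (nat_lit 8) (nat_lit 1) (.cons (.ev (nat_lit 282574488338689) (nat_lit 1)) (.cons (.rf (nat_lit 2974) (nat_lit 493858305440582043680)) (.cons (.rf (nat_lit 2974) (nat_lit 493858305267742153760)) (.cons (.rf (nat_lit 2980) (nat_lit 493858305440582043680)) (.cons (.br (nat_lit 1) (nat_lit 1) (.cons (.rf (nat_lit 2983) (nat_lit 493858305440582043680)) (.cons (.rf (nat_lit 2983) (nat_lit 493858305267742153760)) (.cons (.ev (nat_lit 1213666632841576841216001) (nat_lit 1)) (.cons (.rf (nat_lit 2987) (nat_lit 493858305440582043680)) (.cons (.rf (nat_lit 2987) (nat_lit 492741412732994160672)) (.cons (.rf (nat_lit 2987) (nat_lit 455883953382594021408)) .nil))))))) .nil)))))),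
 (.br (nat_lit 8) (nat_lit 1) (.cons (.ev (nat_lit 282574488338689) (nat_lit 1)) (.cons (.rf (nat_lit 2974) (nat_lit 493858305440582043680)) (.cons (.rf (nat_lit 2974) (nat_lit 493858305267742153760)) (.cons (.rf (nat_lit 2980) (nat_lit 493858305440582043680)) (.cons (.rf (nat_lit 2988) (nat_lit 493858305440582043680)) (.cons (.rf (nat_lit 2988) (nat_lit 458117738797769787424)) .nil))))))),
 (.br (nat_lit 9) (nat_lit 0) (.cons (.br (nat_lit 10) (nat_lit 1) (.cons (.rf (nat_lit 2963) (nat_lit 11584701642934304)) (.cons (.br (nat_lit 7) (nat_lit 0) (.cons (.br (nat_lit 10) (nat_lit 1) (.cons (.br (nat_lit 10) (nat_lit 1) (.cons (.br (nat_lit 8) (nat_lit 1) (.cons (.ev (nat_lit 282574488338689) (nat_lit 1)) (.cons (.rf (nat_lit 2974) (nat_lit 493858305440582043680)) (.cons (.rf (nat_lit 2974) (nat_lit 493858305267742153760)) (.cons (.rf (nat_lit 2980) (nat_lit 493858305440582043680)) (.cons (.rf (nat_lit 2989) (nat_lit 493858305440582043680)) (.cons (.rf (nat_lit 2989) (nat_lit 492741412732994160672))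 (.cons (.rf (nat_lit 2989) (nat_lit 455883953382594021408)) .nil)))))))) .nil)) .nil)) (.cons (.rf (nat_lit 2963) (nat_lit 11584701642934304)) .nil))) .nil))) .nil)),
 (.br (nat_lit 8) (nat_lit 1) (.cons (.rf (nat_lit 58) (nat_lit 8690722)) (.cons (.rf (nat_lit 1339) (nat_lit 392226379841)) (.cons (.br (nat_lit 9) (nat_lit 1) (.cons (.rf (nat_lit 82) (nat_lit 13262691362)) (.cons (.rf (nat_lit 84) (nat_lit 12222503970)) (.cons (.br (nat_lit 11) (nat_lit 1) (.cons (.br (nat_lit 11) (nat_lit 1) (.cons (.ev (nat_lit 310693935641242272387825921) (nat_lit 1)) .nil)) (.cons (.br (nat_lit 11) (nat_lit 1) (.cons (.ev (nat_lit 310693935641242272387825921) (nat_lit 1)) .nil)) .nil))) .nil)))) (.cons (.ev (nat_lit 18519083147019157504) (nat_lit 1)) .nil))))),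
 (.br (nat_lit 7) (nat_lit 1) (.cons (.rf (nat_lit 1339) (nat_lit 392226379841)) (.cons (.rf (nat_lit 31) (nat_lit 377554215)) (.cons (.ev (nat_lit 309485009821345073019814144) (nat_lit 1)) (.cons (.br (nat_lit 8) (nat_lit 1) (.cons (.rf (nat_lit 84) (nat_lit 13262464039)) (.cons (.br (nat_lit 9) (nat_lit 1) (.cons (.rf (nat_lit 84) (nat_lit 13164913735)) (.cons (.rf (nat_lit 84) (nat_lit 12092220642)) (.cons (.br (nat_lit 11) (nat_lit 1) (.cons (.ev (nat_lit 79538856449977355984993058816) (nat_lit 1)) (.cons (.zr (nat_lit 4835703279584416605668608) (nat_lit 618979501413260316058320897) (nat_lit 5) (nat_lit 3)) .nil))) .nil)))) (.cons (.br (nat_lit 9) (nat_lit 1) (.cons (.rf (nat_lit 84) (nat_lit 13164913735)) (.cons (.br (nat_lit 11) (nat_lit 1) (.cons (.ev (nat_lit 79228162514336396287093571584) (nat_lit 1)) (.cons (.zr (nat_lit 4835703279584416605668608) (nat_lit 618979501413260316058320897) (nat_lit 5) (nat_lit 3)) .nil))) (.cons (.br (nat_lit 11) (nat_lit 1) (.cons (.zr (nat_lit 4835703279584416605668608)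 (nat_lit 618979501413260316058320897) (nat_lit 5) (nat_lit 3)) (.cons (.ev (nat_lit 20282720302309750206683322318848) (nat_lit 1)) .nil))) .nil)))) .nil)))) (.cons (.br (nat_lit 8) (nat_lit 1) (.cons (.rf (nat_lit 84) (nat_lit 14336205863)) (.cons (.br (nat_lit 9) (nat_lit 1) (.cons (.rf (nat_lit 84) (nat_lit 14238655559)) (.cons (.br (nat_lit 11) (nat_lit 1) (.cons (.ev (nat_lit 79229371440156291296028262401) (nat_lit 1)) (.cons (.zr (nat_lit 4835703279584416605668608) (nat_lit 618979501413260316058320897) (nat_lit 5) (nat_lit 3)) .nil))) (.cons (.br (nat_lit 11) (nat_lit 1) (.cons (.zr (nat_lit 4835703279584416605668608) (nat_lit 618979501413260316058320897) (nat_lit 5) (nat_lit 3)) (.cons (.ev (nat_lit 20282719093383930309483954176001) (nat_lit 1)) .nil))) .nil)))) (.cons (.br (nat_lit 9) (nat_lit 1) (.cons (.rf (nat_lit 84) (nat_lit 14238655559)) (.cons (.br (nat_lit 11) (nat_lit 1) (.cons (.zr (nat_lit 4835703279584416605668608) (nat_lit 618979501413260316058320897) (nat_lit 5) (nat_lit 3))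 (.cons (.ev (nat_lit 20282410817299928579044404101121) (nat_lit 1)) .nil))) (.cons (.ev (nat_lit 20282409608392483932369877795073) (nat_lit 1)) .nil)))) .nil)))) .nil)))))),
 (.br (nat_lit 7) (nat_lit 1) (.cons (.br (nat_lit 11) (nat_lit 1) (.cons (.rf (nat_lit 2701) (nat_lit 14316179337395669024)) (.cons (.ev (nat_lit 20283341699644283612015477587970) (nat_lit 2)) .nil))) (.cons (.br (nat_lit 11) (nat_lit 1) (.cons (.br (nat_lit 11) (nat_lit 1) (.cons (.ev (nat_lit 310693935641242272387825921) (nat_lit 1)) .nil)) (.cons (.br (nat_lit 11) (nat_lit 1) (.cons (.ev (nat_lit 310693935641242272387825921) (nat_lit 1)) .nil)) .nil))) (.cons (.ev (nat_lit 1208944338417396433879041) (nat_lit 1)) .nil)))),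
 (.br (nat_lit 6) (nat_lit 1) (.cons (.ev (nat_lit 1208925891953702484377601) (nat_lit 1)) .nil)),
 (.br (nat_lit 13) (nat_lit 1) (.cons (.ev (nat_lit 1208944338417396433879041) (nat_lit 1)) (.cons (.rf (nat_lit 2993) (nat_lit 493858305440582043680)) (.cons (.br (nat_lit 11) (nat_lit 1) (.cons (.br (nat_lit 9) (nat_lit 1) (.cons (.ev (nat_lit 79229371440156291296028262401) (nat_lit 1)) .nil)) (.cons (.rf (nat_lit 2994) (nat_lit 15433072045018187808)) (.cons (.ev (nat_lit 310693935641242272387825921) (nat_lit 1)) .nil)))) .nil)))),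
 (.br (nat_lit 8) (nat_lit 1) (.cons (.rf (nat_lit 2991) (nat_lit 493858305440582043680)) (.cons (.rf (nat_lit 2413) (nat_lit 458117738797769787424)) (.cons (.rf (nat_lit 2992) (nat_lit 493858305440582043680)) (.cons (.br (nat_lit 13) (nat_lit 1) (.cons (.ev (nat_lit 1208944338417396433879041) (nat_lit 1)) (.cons (.rf (nat_lit 2993) (nat_lit 493858305440582043680)) (.cons (.rf (nat_lit 2995) (nat_lit 493858305440582043680)) (.cons (.br (nat_lit 13) (nat_lit 1) (.cons (.ev (nat_lit 1208944338417396433879041) (nat_lit 1)) (.cons (.rf (nat_lit 2993) (nat_lit 493858305440582043680)) (.cons (.rf (nat_lit 2995) (nat_lit 493858305440582043680)) .nil)))) .nil))))) .nil))))),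
 (.br (nat_lit 8) (nat_lit 1) (.cons (.rf (nat_lit 2991) (nat_lit 493858305440582043680)) (.cons (.rf (nat_lit 2413) (nat_lit 458117738797769787424)) (.cons (.rf (nat_lit 2992) (nat_lit 493858305440582043680)) (.cons (.rf (nat_lit 2996) (nat_lit 493858305440582043680)) (.cons (.br (nat_lit 8) (nat_lit 1) (.cons (.ev (nat_lit 18519083147019157504) (nat_lit 1)) (.cons (.rf (nat_lit 2413) (nat_lit 458117738797769787424)) (.cons (.rf (nat_lit 2992) (nat_lit 493858305440582043680)) (.cons (.rf (nat_lit 2996) (nat_lit 493858305440582043680)) .nil))))) .nil)))))),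
 (.br (nat_lit 11) (nat_lit 1) (.cons (.rf (nat_lit 2408) (nat_lit 458117738797768771616)) .nil)),
 (.br (nat_lit 12) (nat_lit 1) (.cons (.ev (nat_lit 475370193474658256420453417732) (nat_lit 3)) .nil)),
 (.br (nat_lit 10) (nat_lit 1) (.cons (.br (nat_lit 11) (nat_lit 1) (.cons (.ev (nat_lit 309485009893402667057742081) (nat_lit 1)) .nil)) (.cons (.rf (nat_lit 84) (nat_lit 7864524865)) .nil))),
 (.br (nat_lit 8) (nat_lit 1) (.cons (.br (nat_lit 11) (nat_lit 1) (.cons (.rf (nat_lit 2999) (nat_lit 493858305440582043680)) (.cons (.br (nat_lit 11) (nat_lit 1) (.cons (.rf (nat_lit 2999) (nat_lit 493858305440582043680)) .nil)) .nil))) (.cons (.br (nat_lit 9) (nat_lit 1) (.cons (.zr (nat_lit 2427296372757947593261825) (nat_lit 618970056536179388692168704) (nat_lit 5) (nat_lit 3)) (.cons (.br (nat_lit 13) (nat_lit 1) (.cons (.br (nat_lit 12) (nat_lit 1) (.cons (.ev (nat_lit 79229371440156291296028262401) (nat_lit 1)) .nil)) (.cons (.ev (nat_lit 79229371440156291296028262401) (nat_lit 1)) .nil))) (.cons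 (.rf (nat_lit 3000) (nat_lit 15433072044983552032)) .nil)))) (.cons (.ev (nat_lit 1208944338417396433879041) (nat_lit 1)) .nil)))),
 (.br (nat_lit 8) (nat_lit 1) (.cons (.rf (nat_lit 3001) (nat_lit 493858305440582043680)) (.cons (.br (nat_lit 13) (nat_lit 1) (.cons (.ev (nat_lit 20282410817318375323118113652736) (nat_lit 1)) (.cons (.ev (nat_lit 20282409617818770436609947009537) (nat_lit 2)) .nil))) .nil))),
 (.br (nat_lit 8) (nat_lit 1) (.cons (.rf (nat_lit 3002) (nat_lit 493858305440582043680)) (.cons (.rf (nat_lit 3001) (nat_lit 493858305440582043680)) (.cons (.br (nat_lit 8) (nat_lit 1) (.cons (.rf (nat_lit 3002) (nat_lit 493858305440582043680)) (.cons (.ev (nat_lit 1208944338417396433879041) (nat_lit 1)) .nil))) .nil)))),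
 (.br (nat_lit 12) (nat_lit 1) (.cons (.rf (nat_lit 3001) (nat_lit 493858305440582043680)) (.cons (.rf (nat_lit 3003) (nat_lit 493858305440582043680)) (.cons (.br (nat_lit 12) (nat_lit 1) (.cons (.rf (nat_lit 3001) (nat_lit 493858305440582043680)) (.cons (.rf (nat_lit 3003) (nat_lit 493858305440582043680)) .nil))) .nil)))),
 (.br (nat_lit 2) (nat_lit 1) (.cons (.br (nat_lit 9) (nat_lit 1) (.cons (.rf (nat_lit 58) (nat_lit 8685607)) (.cons (.rf (nat_lit 1343) (nat_lit 423425746145)) (.cons (.rf (nat_lit 1420) (nat_lit 308997858393990472746)) (.cons (.br (nat_lit 8) (nat_lit 1) (.cons (.rf (nat_lit 84) (nat_lit 14336362537)) (.cons (.br (nat_lit 11) (nat_lit 1) (.cons (.br (nat_lit 13) (nat_lit 1) (.cons (.rf (nat_lit 2998) (nat_lit 493858305440582043680)) (.cons (.zr (nat_lit 14222655853612178079744) (nat_lit 158457533954348572395062689793) (nat_lit 5) (nat_lit 0)) .nil))) (.cons (.rf (nat_lit 2998) (nat_lit 493858305440582043680)) .nil))) (.cons (.rf (nat_lit 84) (nat_lit 12256053287)) .nil))))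 .nil))))) (.cons (.br (nat_lit 8) (nat_lit 1) (.cons (.rf (nat_lit 31) (nat_lit 377718050)) (.cons (.br (nat_lit 8) (nat_lit 1) (.cons (.rf (nat_lit 31) (nat_lit 377718050)) (.cons (.kr (nat_lit 1208925819896104151482624) (nat_lit 9463251767407037906944) (nat_lit 1) (nat_lit 0)) .nil))) (.cons (.br (nat_lit 8) (nat_lit 1) (.cons (.rf (nat_lit 31) (nat_lit 377718050)) (.cons (.kr (nat_lit 1208925819896104151482624) (nat_lit 9463251767407037906944) (nat_lit 1) (nat_lit 0)) .nil))) .nil)))) (.cons (.rf (nat_lit 2997) (nat_lit 493858305440582043680)) (.cons (.rf (nat_lit 2997) (nat_lit 492741412732994160672)) (.cons (.br (nat_lit 12) (nat_lit 1) (.cons (.rf (nat_lit 3001) (nat_lit 493858305440582043680)) (.cons (.rf (nat_lit 3003) (nat_lit 493858305440582043680)) (.cons (.rf (nat_lit 3004) (nat_lit 493858305440582043680)) (.cons (.br (nat_lit 12) (nat_lit 1) (.cons (.rf (nat_lit 3001) (nat_lit 493858305440582043680)) (.cons (.rf (nat_lit 3003) (nat_lit 493858305440582043680)) (.cons (.rf (nat_lit 3004)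 (nat_lit 493858305440582043680)) .nil)))) .nil))))) .nil)))))),
 (.br (nat_lit 2) (nat_lit 1) (.cons (.rf (nat_lit 31) (nat_lit 377783522)) (.cons (.rf (nat_lit 1339) (nat_lit 392159107361)) (.cons (.rf (nat_lit 1339) (nat_lit 289083267106)) (.cons (.rf (nat_lit 2997) (nat_lit 492741412732994160672)) (.cons (.br (nat_lit 7) (nat_lit 1) (.cons (.rf (nat_lit 84) (nat_lit 14336433186)) (.cons (.rf (nat_lit 84) (nat_lit 14238655714)) (.cons (.rf (nat_lit 3005) (nat_lit 492741412732994160672)) (.cons (.br (nat_lit 12) (nat_lit 1) (.cons (.ev (nat_lit 1208944338417396433879041) (nat_lit 1)) (.cons (.ev (nat_lit 310693935713298771209093121) (nat_lit 1)) (.cons (.kr (nat_lit 1208925819896104151416832) (nat_lit 20282409608374036906816896499712) (nat_lit 6) (nat_lit 0)) .nil)))) .nil))))) .nil)))))),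
 (.br (nat_lit 12) (nat_lit 1) (.cons (.kr (nat_lit 1208925819614629174706176) (nat_lit 79228162514264337593543950336) (nat_lit 10) (nat_lit 0)) (.cons (.rf (nat_lit 3005) (nat_lit 492741412732994160672)) (.cons (.ev (nat_lit 79537647524085965236757070081) (nat_lit 1)) (.cons (.br (nat_lit 7) (nat_lit 1) (.cons (.br (nat_lit 8) (nat_lit 1) (.cons (.zr (nat_lit 14222655853612178079744) (nat_lit 620178945462587345424351233) (nat_lit 5) (nat_lit 0)) .nil)) (.cons (.ev (nat_lit 79229371440156291296028262401) (nat_lit 1)) (.cons (.br (nat_lit 2) (nat_lit 1) (.cons (.zr (nat_lit 14222655853612178079744) (nat_lit 620178945462587345424351233) (nat_lit 5) (nat_lit 0)) .nil)) .nil)))) .nil))))),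
 (.br (nat_lit 11) (nat_lit 1) (.cons (.rf (nat_lit 2997) (nat_lit 493858305440582043680)) (.cons (.rf (nat_lit 3005) (nat_lit 493858305440582043680)) (.cons (.rf (nat_lit 3006) (nat_lit 493858305440582043680)) (.cons (.br (nat_lit 12) (nat_lit 1) (.cons (.rf (nat_lit 2997) (nat_lit 492741412732994160672)) (.cons (.rf (nat_lit 3005) (nat_lit 492741412732994160672)) (.cons (.br (nat_lit 2) (nat_lit 1) (.cons (.rf (nat_lit 1593) (nat_lit 424172332258)) (.cons (.zr (nat_lit 2417851639792208303031040) (nat_lit 618984186742139850208575489) (nat_lit 5) (nat_lit 0)) (.cons (.rf (nat_lit 2997) (nat_lit 492741412732994160672)) (.cons (.ev (nat_lit 309485028268089146729365761) (nat_lit 1)) .nil))))) (.cons (.rf (nat_lit 3007) (nat_lit 493858305440582043680)) (.cons (.br (nat_lit 12) (nat_lit 1) (.cons (.ev (nat_lit 79229371440084234797206995201) (nat_lit 1)) (.cons (.rf (nat_lit 3005) (nat_lit 492741412732994160672)) (.cons (.kr (nat_lit 309485009821345068724781056) (nat_lit 79228162514264337593543950336)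 (nat_lit 11) (nat_lit 0)) (.cons (.rf (nat_lit 3007) (nat_lit 493858305440582043680)) .nil))))) .nil)))))) .nil))))),
 (.br (nat_lit 11) (nat_lit 1) (.cons (.rf (nat_lit 2997) (nat_lit 493858305440582043680)) (.cons (.rf (nat_lit 3005) (nat_lit 493858305440582043680)) (.cons (.rf (nat_lit 3006) (nat_lit 493858305440582043680)) (.cons (.rf (nat_lit 3008) (nat_lit 493858305440582043680)) (.cons (.br (nat_lit 11) (nat_lit 1) (.cons (.rf (nat_lit 2997) (nat_lit 493858305440582043680)) (.cons (.rf (nat_lit 3005) (nat_lit 493858305440582043680)) (.cons (.rf (nat_lit 3006) (nat_lit 493858305440582043680)) (.cons (.rf (nat_lit 3008) (nat_lit 493858305440582043680)) .nil))))) .nil))))))]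

theorem c100 : chkAll C T R L100 (nat_lit 2984) = true := by decide +kernel

theorem l100 : (nat_lit 2984) + L100.length = (nat_lit 3010) := by decide +kernel

/-- part of the certificates -/
def L101 : List Prf := [(.br (nat_lit 12) (nat_lit 1) (.cons (.rf (nat_lit 2997) (nat_lit 492741412732994160672)) (.cons (.rf (nat_lit 3005) (nat_lit 492741412732994160672)) (.cons (.rf (nat_lit 3009) (nat_lit 492741412732994160672)) (.cons (.br (nat_lit 12) (nat_lit 1) (.cons (.ev (nat_lit 79229371440084234797206995201) (nat_lit 1)) (.cons (.rf (nat_lit 3005) (nat_lit 492741412732994160672)) (.cons (.rf (nat_lit 3009) (nat_lit 492741412732994160672)) .nil)))) .nil))))),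
 (.br (nat_lit 12) (nat_lit 1) (.cons (.rf (nat_lit 2997) (nat_lit 492741412732994160672)) (.cons (.rf (nat_lit 3005) (nat_lit 492741412732994160672)) (.cons (.rf (nat_lit 3009) (nat_lit 492741412732994160672)) (.cons (.rf (nat_lit 3010) (nat_lit 493858305440582043680)) (.cons (.br (nat_lit 12) (nat_lit 1) (.cons (.rf (nat_lit 2997) (nat_lit 492741412732994160672)) (.cons (.rf (nat_lit 3005) (nat_lit 492741412732994160672)) (.cons (.rf (nat_lit 3009) (nat_lit 492741412732994160672)) (.cons (.rf (nat_lit 3010) (nat_lit 493858305440582043680)) .nil))))) .nil)))))),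
 (.br (nat_lit 11) (nat_lit 1) (.cons (.rf (nat_lit 2997) (nat_lit 493858305440582043680)) (.cons (.rf (nat_lit 3005) (nat_lit 493858305440582043680)) (.cons (.rf (nat_lit 3009) (nat_lit 493858305440582043680)) (.cons (.rf (nat_lit 3011) (nat_lit 493858305440582043680)) (.cons (.br (nat_lit 11) (nat_lit 1) (.cons (.ev (nat_lit 310693935641242272387825921) (nat_lit 1)) (.cons (.rf (nat_lit 3005) (nat_lit 493858305440582043680)) (.cons (.rf (nat_lit 3009) (nat_lit 493858305440582043680)) (.cons (.rf (nat_lit 3011) (nat_lit 493858305440582043680)) .nil))))) .nil)))))),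
 (.br (nat_lit 11) (nat_lit 1) (.cons (.rf (nat_lit 2997) (nat_lit 493858305440582043680)) (.cons (.rf (nat_lit 3005) (nat_lit 493858305440582043680)) (.cons (.rf (nat_lit 3009) (nat_lit 493858305440582043680)) (.cons (.rf (nat_lit 3011) (nat_lit 493858305440582043680)) (.cons (.rf (nat_lit 3012) (nat_lit 493858305440582043680)) (.cons (.br (nat_lit 11) (nat_lit 1) (.cons (.rf (nat_lit 2997) (nat_lit 493858305440582043680)) (.cons (.rf (nat_lit 3005) (nat_lit 493858305440582043680)) (.cons (.rf (nat_lit 3009) (nat_lit 493858305440582043680)) (.cons (.rf (nat_lit 3011) (nat_lit 493858305440582043680)) (.cons (.rf (nat_lit 3012) (nat_lit 493858305440582043680)) .nil)))))) .nil))))))),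
 (.br (nat_lit 11) (nat_lit 1) (.cons (.rf (nat_lit 2594) (nat_lit 8994006242)) (.cons (.rf (nat_lit 82) (nat_lit 13165110306)) (.cons (.br (nat_lit 8) (nat_lit 1) (.cons (.ev (nat_lit 310693954160042844918644736) (nat_lit 1)) (.cons (.br (nat_lit 9) (nat_lit 1) (.cons (.ev (nat_lit 80160249043553983230904369411) (nat_lit 2)) (.cons (.br (nat_lit 12) (nat_lit 1) (.cons (.ev (nat_lit 79228167255149622135248388353) (nat_lit 1)) .nil)) .nil))) (.cons (.br (nat_lit 9) (nat_lit 1) (.cons (.br (nat_lit 12) (nat_lit 1) (.cons (.ev (nat_lit 79229371440156291296028262401) (nat_lit 1)) .nil)) (.cons (.rf (nat_lit 84) (nat_lit 12256058433)) .nil))) .nil)))) .nil)))),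
 (.br (nat_lit 11) (nat_lit 1) (.cons (.rf (nat_lit 1339) (nat_lit 392226379810)) (.cons (.rf (nat_lit 1343) (nat_lit 423430988834)) (.cons (.rf (nat_lit 3014) (nat_lit 493858305440582043680)) (.cons (.br (nat_lit 11) (nat_lit 1) (.cons (.rf (nat_lit 2594) (nat_lit 9027560674)) (.cons (.rf (nat_lit 82) (nat_lit 14238852130)) (.cons (.rf (nat_lit 3014) (nat_lit 493858305440582043680)) .nil)))) .nil))))),
 (.br (nat_lit 8) (nat_lit 1) (.cons (.rf (nat_lit 84) (nat_lit 14336433217)) (.cons (.ev (nat_lit 1213666632842672057876481) (nat_lit 1)) (.cons (.rf (nat_lit 84) (nat_lit 12255796297)) .nil)))),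
 (.br (nat_lit 1) (nat_lit 1) (.cons (.kr (nat_lit 1) (nat_lit 18446744073709551616) (nat_lit 0) (nat_lit 1)) (.cons (.rf (nat_lit 29) (nat_lit 8620321)) (.cons (.rf (nat_lit 3015) (nat_lit 493858305440582043680)) (.cons (.rf (nat_lit 3015) (nat_lit 492741412732994160672)) (.cons (.br (nat_lit 9) (nat_lit 1) (.cons (.rf (nat_lit 58) (nat_lit 8690753)) (.cons (.rf (nat_lit 3016) (nat_lit 493858305440582043680)) (.cons (.rf (nat_lit 3016) (nat_lit 492741412732994160672)) (.cons (.rf (nat_lit 1343) (nat_lit 389138359330)) .nil))))) .nil)))))),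
 (.br (nat_lit 11) (nat_lit 1) (.cons (.rf (nat_lit 82) (nat_lit 13165173794)) (.cons (.kr (nat_lit 4722366483969156841729) (nat_lit 18446744078021361664) (nat_lit 0) (nat_lit 6)) (.cons (.br (nat_lit 7) (nat_lit 1) (.cons (.ev (nat_lit 310693954160042844918644736) (nat_lit 1)) (.cons (.br (nat_lit 12) (nat_lit 1) (.cons (.ev (nat_lit 79537652246452447011202465793) (nat_lit 1)) (.cons (.ev (nat_lit 79228171959214322738901615361) (nat_lit 2)) .nil))) (.cons (.br (nat_lit 13) (nat_lit 1) (.cons (.rf (nat_lit 84) (nat_lit 12255994945)) (.cons (.ev (nat_lit 20282410817299928579044404101121) (nat_lit 1)) .nil))) .nil)))) .nil)))),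
 (.br (nat_lit 11) (nat_lit 1) (.cons (.rf (nat_lit 1343) (nat_lit 423433083938)) (.cons (.kr (nat_lit 4722366483969156841729) (nat_lit 18446744078021361664) (nat_lit 0) (nat_lit 6)) (.cons (.rf (nat_lit 3018) (nat_lit 493858305440582043680)) (.cons (.br (nat_lit 11) (nat_lit 1) (.cons (.rf (nat_lit 82) (nat_lit 14238915618)) (.cons (.kr (nat_lit 4722366483969156841729) (nat_lit 18446744078021361664) (nat_lit 0) (nat_lit 6)) (.cons (.rf (nat_lit 3018) (nat_lit 493858305440582043680)) .nil)))) .nil))))),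
 (.br (nat_lit 8) (nat_lit 1) (.cons (.rf (nat_lit 84) (nat_lit 13262627905)) (.cons (.rf (nat_lit 84) (nat_lit 12222243911)) (.cons (.br (nat_lit 11) (nat_lit 1) (.cons (.ev (nat_lit 309499232478046417303109634) (nat_lit 2)) .nil)) .nil)))),
 (.br (nat_lit 13) (nat_lit 1) (.cons (.rf (nat_lit 82) (nat_lit 12093529122)) (.cons (.kr (nat_lit 4722366483969156841729) (nat_lit 18446744078021361664) (nat_lit 0) (nat_lit 6)) (.cons (.br (nat_lit 7) (nat_lit 1) (.cons (.zr (nat_lit 2432018954855047445349124) (nat_lit 40564819207395574849742389444608) (nat_lit 5) (nat_lit 4)) (.cons (.rf (nat_lit 3020) (nat_lit 15395881028740548640)) (.cons (.rf (nat_lit 3020) (nat_lit 15431909825759512608)) .nil)))) .nil)))),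
 (.br (nat_lit 1) (nat_lit 1) (.cons (.rf (nat_lit 29) (nat_lit 8685793)) (.cons (.rf (nat_lit 58) (nat_lit 8685607)) (.cons (.rf (nat_lit 3019) (nat_lit 493858305440582043680)) (.cons (.rf (nat_lit 3019) (nat_lit 492741412732994160672)) (.cons (.br (nat_lit 13) (nat_lit 1) (.cons (.rf (nat_lit 1343) (nat_lit 389140454434)) (.cons (.kr (nat_lit 4722366483969156841729) (nat_lit 18446744078021361664) (nat_lit 0) (nat_lit 6)) (.cons (.rf (nat_lit 3021) (nat_lit 493858305440582043680)) (.cons (.rf (nat_lit 3021) (nat_lit 492741412732994160672)) .nil))))) .nil)))))),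
 (.br (nat_lit 7) (nat_lit 1) (.cons (.ev (nat_lit 1213666632842672057876481) (nat_lit 1)) (.cons (.rf (nat_lit 2594) (nat_lit 12216181985)) (.cons (.br (nat_lit 9) (nat_lit 1) (.cons (.ev (nat_lit 309485028340147835983953921) (nat_lit 1)) (.cons (.ev (nat_lit 79228162514336396287093571584) (nat_lit 1)) (.cons (.br (nat_lit 11) (nat_lit 1) (.cons (.ev (nat_lit 79537652246452447011202465793) (nat_lit 1)) (.cons (.br (nat_lit 12) (nat_lit 1) (.cons (.zr (nat_lit 396140812571321692365766264064) (nat_lit 620188427233155320698109953) (nat_lit 5) (nat_lit 4)) .nil)) .nil))) .nil)))) (.cons (.br (nat_lit 9) (nat_lit 1) (.cons (.ev (nat_lit 311907620937002912665567745) (nat_lit 2)) (.cons (.br (nat_lit 12) (nat_lit 1) (.cons (.ev (nat_lit 79229371440156291296028262401) (nat_lit 1)) (.cons (.rf (nat_lit 2439) (nat_lit 458117738797768771616)) .nil))) (.cons (.br (nat_lit 11) (nat_lit 1) (.cons (.br (nat_lit 12) (nat_lit 1) (.cons (.zr (nat_lit 928469252119888818352422912) (nat_lit 396142021497141585175694540801)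 (nat_lit 5) (nat_lit 0)) .nil)) (.cons (.ev (nat_lit 20282410812596008841343701942528) (nat_lit 1)) .nil))) .nil)))) .nil))))),
 (.br (nat_lit 9) (nat_lit 1) (.cons (.ev (nat_lit 309485009893403762274402304) (nat_lit 1)) (.cons (.br (nat_lit 12) (nat_lit 1) (.cons (.ev (nat_lit 79848346237505980194007220739) (nat_lit 2)) (.cons (.ev (nat_lit 79229371440156291296028262401) (nat_lit 1)) .nil))) (.cons (.br (nat_lit 13) (nat_lit 1) (.cons (.ev (nat_lit 20283032205189658090245967708419) (nat_lit 2)) (.cons (.ev (nat_lit 20282410812577562097269992390913) (nat_lit 1)) .nil))) .nil)))),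
 (.br (nat_lit 11) (nat_lit 1) (.cons (.ev (nat_lit 310693935713298771209093121) (nat_lit 1)) (.cons (.ev (nat_lit 40565129906016760580285820633091) (nat_lit 2)) .nil))),
 (.br (nat_lit 12) (nat_lit 1) (.cons (.kr (nat_lit 20361637766165934761540795302144) (nat_lit 309489750706629606117474304) (nat_lit 1) (nat_lit 0)) .nil)),
 (.br (nat_lit 7) (nat_lit 1) (.cons (.rf (nat_lit 31) (nat_lit 377522471)) (.cons (.rf (nat_lit 2594) (nat_lit 12249736417)) (.cons (.br (nat_lit 9) (nat_lit 1) (.cons (.ev (nat_lit 4740813508422643286016) (nat_lit 1)) (.cons (.br (nat_lit 12) (nat_lit 1) (.cons (.ev (nat_lit 79537647542532709310466621696) (nat_lit 1)) (.cons (.rf (nat_lit 2432) (nat_lit 458117738797768771616)) .nil))) (.cons (.br (nat_lit 11) (nat_lit 1) (.cons (.rf (nat_lit 3026) (nat_lit 493858305440582043680)) (.cons (.ev (nat_lit 20282719088661491769020287877121) (nat_lit 1)) .nil))) .nil)))) (.cons (.br (nat_lit 9) (nat_lit 1) (.cons (.ev (nat_lit 4740813508422643286016) (nat_lit 1)) (.cons (.br (nat_lit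 11) (nat_lit 1) (.cons (.br (nat_lit 12) (nat_lit 1) (.cons (.zr (nat_lit 313116620759481866789060608) (nat_lit 396140812571323660491579983111) (nat_lit 10) (nat_lit 4)) .nil)) (.cons (.ev (nat_lit 20282410817299928579044404101121) (nat_lit 1)) .nil))) (.cons (.rf (nat_lit 84) (nat_lit 12093301985)) .nil)))) .nil))))),
 (.br (nat_lit 1) (nat_lit 1) (.cons (.rf (nat_lit 31) (nat_lit 377719073)) (.cons (.rf (nat_lit 2594) (nat_lit 12249736417)) (.cons (.br (nat_lit 9) (nat_lit 1) (.cons (.ev (nat_lit 4740813508422643286016) (nat_lit 1)) (.cons (.br (nat_lit 11) (nat_lit 1) (.cons (.rf (nat_lit 84) (nat_lit 8971854882)) (.cons (.rf (nat_lit 1564) (nat_lit 493854962993953081376)) .nil))) (.cons (.br (nat_lit 12) (nat_lit 1) (.cons (.br (nat_lit 12) (nat_lit 1) (.cons (.ev (nat_lit 79228167236702878061538836736) (nat_lit 1)) .nil)) (.cons (.rf (nat_lit 1386) (nat_lit 455779174150714795040)) .nil))) .nil)))) (.cons (.br (nat_lit 9) (nat_lit 1) (.cons (.ev (nat_lit 4740813508422643286016) (nat_lit 1))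 (.cons (.br (nat_lit 11) (nat_lit 1) (.cons (.br (nat_lit 12) (nat_lit 1) (.cons (.ev (nat_lit 20679478904327973804738590344450) (nat_lit 3)) .nil)) (.cons (.ev (nat_lit 20282410817318375323118113652736) (nat_lit 1)) .nil))) (.cons (.rf (nat_lit 84) (nat_lit 12093301799)) .nil)))) .nil))))),
 (.br (nat_lit 11) (nat_lit 1) (.cons (.rf (nat_lit 3027) (nat_lit 493858305440582043680)) (.cons (.rf (nat_lit 3028) (nat_lit 493858305440582043680)) (.cons (.ev (nat_lit 4740813508422643286016) (nat_lit 1)) (.cons (.br (nat_lit 9) (nat_lit 1) (.cons (.br (nat_lit 7) (nat_lit 1) (.cons (.zr (nat_lit 14222655853612178079744) (nat_lit 620178945462587345424351233) (nat_lit 5) (nat_lit 0)) (.cons (.ev (nat_lit 20282409608392555991059132383233) (nat_lit 1)) .nil))) (.cons (.ev (nat_lit 310693935713298771209093121) (nat_lit 1)) (.cons (.br (nat_lit 1) (nat_lit 1) (.cons (.zr (nat_lit 14222655853612178079744) (nat_lit 620178945462587345424351233) (nat_lit 5) (nat_lit 0)) (.cons (.ev (nat_lit 79538856468352041369448022273)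 (nat_lit 1)) (.cons (.br (nat_lit 7) (nat_lit 1) (.cons (.ev (nat_lit 20837321085632297647037976347396) (nat_lit 3)) .nil)) .nil)))) (.cons (.ev (nat_lit 20282720297605758410293365440513) (nat_lit 1)) .nil))))) .nil))))),
 (.br (nat_lit 8) (nat_lit 1) (.cons (.rf (nat_lit 3013) (nat_lit 493858305440582043680)) (.cons (.rf (nat_lit 3017) (nat_lit 493858305440582043680)) (.cons (.rf (nat_lit 3022) (nat_lit 493858305440582043680)) (.cons (.br (nat_lit 1) (nat_lit 1) (.cons (.rf (nat_lit 1593) (nat_lit 424205886689)) (.cons (.rf (nat_lit 1593) (nat_lit 424205884705)) (.cons (.rf (nat_lit 3023) (nat_lit 493858305440582043680)) (.cons (.rf (nat_lit 3023) (nat_lit 492741412732994160672)) (.cons (.br (nat_lit 7) (nat_lit 1) (.cons (.ev (nat_lit 1213666632842672057876481) (nat_lit 1)) (.cons (.rf (nat_lit 3024) (nat_lit 493858305440582043680)) (.cons (.rf (nat_lit 3024) (nat_lit 492741412732994160672)) (.cons (.br (nat_lit 9) (nat_lit 1) (.cons (.rf (nat_lit 3025) (nat_lit 493858305440582043680)) (.cons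 (.rf (nat_lit 3025) (nat_lit 492741412732994160672)) (.cons (.ev (nat_lit 20282409603651742763020577669376) (nat_lit 1)) .nil)))) .nil))))) .nil)))))) (.cons (.br (nat_lit 11) (nat_lit 1) (.cons (.rf (nat_lit 3027) (nat_lit 493858305440582043680)) (.cons (.rf (nat_lit 3028) (nat_lit 493858305440582043680)) (.cons (.ev (nat_lit 4740813508422643286016) (nat_lit 1)) (.cons (.rf (nat_lit 3029) (nat_lit 493858305440582043680)) (.cons (.br (nat_lit 11) (nat_lit 1) (.cons (.rf (nat_lit 3027) (nat_lit 493858305440582043680)) (.cons (.rf (nat_lit 3028) (nat_lit 493858305440582043680)) (.cons (.ev (nat_lit 4740813508422643286016) (nat_lit 1)) (.cons (.rf (nat_lit 3029) (nat_lit 493858305440582043680)) .nil))))) .nil)))))) .nil)))))),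
 (.br (nat_lit 8) (nat_lit 1) (.cons (.rf (nat_lit 3013) (nat_lit 493858305440582043680)) (.cons (.rf (nat_lit 3017) (nat_lit 493858305440582043680)) (.cons (.rf (nat_lit 3022) (nat_lit 493858305440582043680)) (.cons (.rf (nat_lit 3030) (nat_lit 493858305440582043680)) (.cons (.rf (nat_lit 3030) (nat_lit 492741412732994160672)) (.cons (.br (nat_lit 8) (nat_lit 1) (.cons (.rf (nat_lit 3013) (nat_lit 493858305440582043680)) (.cons (.rf (nat_lit 3017) (nat_lit 493858305440582043680)) (.cons (.rf (nat_lit 3022) (nat_lit 493858305440582043680)) (.cons (.rf (nat_lit 3030) (nat_lit 493858305440582043680)) (.cons (.rf (nat_lit 3030) (nat_lit 492741412732994160672)) .nil)))))) .nil))))))),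
 (.br (nat_lit 8) (nat_lit 1) (.cons (.rf (nat_lit 58) (nat_lit 8690753)) (.cons (.rf (nat_lit 1339) (nat_lit 391991564327)) (.cons (.ev (nat_lit 1213666704899170879144193) (nat_lit 1)) (.cons (.br (nat_lit 2) (nat_lit 1) (.cons (.rf (nat_lit 82) (nat_lit 14336206049)) (.cons (.br (nat_lit 11) (nat_lit 1) (.cons (.br (nat_lit 11) (nat_lit 1) (.cons (.ev (nat_lit 313111805871611176577662977) (nat_lit 2)) .nil)) (.cons (.br (nat_lit 11) (nat_lit 1) (.cons (.ev (nat_lit 313111805871611176577662977) (nat_lit 2)) .nil)) .nil))) (.cons (.rf (nat_lit 84) (nat_lit 12255831265)) .nil)))) .nil))))),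
 (.br (nat_lit 11) (nat_lit 1) (.cons (.br (nat_lit 12) (nat_lit 1) (.cons (.kr (nat_lit 20282412026225748193669283840256) (nat_lit 79537647542532426736011902976) (nat_lit 1) (nat_lit 0)) .nil)) .nil)),
 (.br (nat_lit 8) (nat_lit 1) (.cons (.rf (nat_lit 84) (nat_lit 14336206049)) (.cons (.br (nat_lit 11) (nat_lit 1) (.cons (.rf (nat_lit 3033) (nat_lit 493858305440582043680)) (.cons (.br (nat_lit 11) (nat_lit 1) (.cons (.rf (nat_lit 3033) (nat_lit 493858305440582043680)) .nil)) .nil))) (.cons (.rf (nat_lit 84) (nat_lit 12255798498)) .nil)))),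
 (.br (nat_lit 1) (nat_lit 1) (.cons (.rf (nat_lit 29) (nat_lit 8690753)) (.cons (.rf (nat_lit 58) (nat_lit 8690722)) (.cons (.rf (nat_lit 3032) (nat_lit 493858305440582043680)) (.cons (.rf (nat_lit 3032) (nat_lit 492741412732994160672)) (.cons (.br (nat_lit 2) (nat_lit 1) (.cons (.rf (nat_lit 58) (nat_lit 8690753)) (.cons (.rf (nat_lit 3034) (nat_lit 493858305440582043680)) (.cons (.rf (nat_lit 3034) (nat_lit 492741412732994160672)) (.cons (.rf (nat_lit 1343) (nat_lit 389140449319)) .nil))))) .nil)))))),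
 (.br (nat_lit 11) (nat_lit 1) (.cons (.rf (nat_lit 2594) (nat_lit 12221424705)) (.cons (.rf (nat_lit 2594) (nat_lit 12221417761)) (.cons (.br (nat_lit 9) (nat_lit 1) (.cons (.ev (nat_lit 1213666632842672057876481) (nat_lit 1)) (.cons (.ev (nat_lit 309489732259885536719667456) (nat_lit 1)) (.cons (.br (nat_lit 2) (nat_lit 1) (.cons (.ev (nat_lit 1213666849859883396891136) (nat_lit 2)) (.cons (.br (nat_lit 12) (nat_lit 1) (.cons (.zr (nat_lit 55340232221162405888) (nat_lit 158457533954348572395045912577) (nat_lit 5) (nat_lit 0)) .nil)) .nil))) .nil)))) (.cons (.ev (nat_lit 310693954087986346097377536) (nat_lit 1)) .nil)))))]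

theorem c101 : chkAll C T R L101 (nat_lit 3010) = true := by decide +kernel

theorem l101 : (nat_lit 3010) + L101.length = (nat_lit 3037) := by decide +kernel

/-- part of the certificates -/
def L102 : List Prf := [(.br (nat_lit 9) (nat_lit 1) (.cons (.ev (nat_lit 309489750706629610429219073) (nat_lit 1)) (.cons (.rf (nat_lit 84) (nat_lit 8972739623)) .nil))),
 (.br (nat_lit 11) (nat_lit 1) (.cons (.rf (nat_lit 84) (nat_lit 14238852161)) (.cons (.ev (nat_lit 310693935641242272387825921) (nat_lit 1)) (.cons (.rf (nat_lit 3037) (nat_lit 493858305440582043680)) .nil)))),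
 (.br (nat_lit 11) (nat_lit 1) (.cons (.br (nat_lit 12) (nat_lit 1) (.cons (.kr (nat_lit 20282719093383930309479659208960) (nat_lit 79228162532711081667287121920) (nat_lit 1) (nat_lit 0)) .nil)) (.cons (.rf (nat_lit 84) (nat_lit 8972961831)) .nil))),
 (.br (nat_lit 11) (nat_lit 1) (.cons (.rf (nat_lit 84) (nat_lit 13165110337)) (.cons (.rf (nat_lit 3037) (nat_lit 458117738797769787424)) (.cons (.ev (nat_lit 310693935641242272387825921) (nat_lit 1)) .nil)))),
 (.br (nat_lit 2) (nat_lit 1) (.cons (.rf (nat_lit 84) (nat_lit 13165110337)) (.cons (.rf (nat_lit 1420) (nat_lit 455418886180525155370)) (.cons (.br (nat_lit 12) (nat_lit 1) (.cons (.br (nat_lit 12) (nat_lit 1) (.cons (.ev (nat_lit 80157840636648282661832360705) (nat_lit 2)) .nil)) (.cons (.br (nat_lit 11) (nat_lit 1) (.cons (.ev (nat_lit 80157840636648282661832360705) (nat_lit 2)) .nil)) .nil))) .nil)))),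
 (.br (nat_lit 11) (nat_lit 1) (.cons (.rf (nat_lit 3037) (nat_lit 458117738797769787424)) (.cons (.rf (nat_lit 3041) (nat_lit 493858305440582043680)) (.cons (.br (nat_lit 2) (nat_lit 1) (.cons (.ev (nat_lit 309489750706629610429219073) (nat_lit 1)) (.cons (.zr (nat_lit 55340232221162405888) (nat_lit 620178945462587345407574017) (nat_lit 5) (nat_lit 0)) (.cons (.br (nat_lit 9) (nat_lit 1) (.cons (.ev (nat_lit 158457548139966824879392686594) (nat_lit 2)) .nil)) .nil)))) .nil)))),
 (.br (nat_lit 11) (nat_lit 1) (.cons (.rf (nat_lit 3040) (nat_lit 493858305440582043680)) (.cons (.rf (nat_lit 3041) (nat_lit 493858305440582043680)) (.cons (.rf (nat_lit 3042) (nat_lit 493858305440582043680)) (.cons (.br (nat_lit 11) (nat_lit 1) (.cons (.ev (nat_lit 310693935641242272387825921) (nat_lit 1)) (.cons (.rf (nat_lit 3041) (nat_lit 493858305440582043680)) (.cons (.rf (nat_lit 3042) (nat_lit 493858305440582043680)) .nil)))) .nil))))),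
 (.br (nat_lit 1) (nat_lit 1) (.cons (.ev (nat_lit 1213666849859883396891136) (nat_lit 2)) (.cons (.ev (nat_lit 79229371458603035369737814016) (nat_lit 1)) (.cons (.rf (nat_lit 2305) (nat_lit 12521149047873)) .nil)))),
 (.br (nat_lit 11) (nat_lit 1) (.cons (.ev (nat_lit 310693954087986346097377536) (nat_lit 1)) (.cons (.br (nat_lit 12) (nat_lit 1) (.cons (.ev (nat_lit 79538861172343837759438323968) (nat_lit 1)) (.cons (.zr (nat_lit 1208981159846850337112064) (nat_lit 159075295048171647903320768513) (nat_lit 5) (nat_lit 0)) .nil))) (.cons (.zr (nat_lit 55340232221162405888) (nat_lit 620178945462587345407574017) (nat_lit 5) (nat_lit 0)) .nil)))),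
 (.br (nat_lit 12) (nat_lit 1) (.cons (.rf (nat_lit 3043) (nat_lit 493858305440582043680)) (.cons (.rf (nat_lit 3044) (nat_lit 493858305440582043680)) (.cons (.rf (nat_lit 3045) (nat_lit 493858305440582043680)) (.cons (.br (nat_lit 12) (nat_lit 1) (.cons (.rf (nat_lit 3043) (nat_lit 493858305440582043680)) (.cons (.rf (nat_lit 3044) (nat_lit 493858305440582043680)) (.cons (.rf (nat_lit 3045) (nat_lit 493858305440582043680)) .nil)))) .nil))))),
 (.br (nat_lit 12) (nat_lit 1) (.cons (.rf (nat_lit 3043) (nat_lit 493858305440582043680)) (.cons (.rf (nat_lit 3046) (nat_lit 493858305440582043680)) (.cons (.br (nat_lit 12) (nat_lit 1) (.cons (.rf (nat_lit 3043) (nat_lit 493858305440582043680)) (.cons (.kr (nat_lit 1208925819614629174706176) (nat_lit 79228162514264337593543950336) (nat_lit 10) (nat_lit 0)) (.cons (.ev (nat_lit 79228167255077565636427120641) (nat_lit 1)) .nil)))) (.cons (.br (nat_lit 12) (nat_lit 1) (.cons (.ev (nat_lit 79231789310314603701396832257) (nat_lit 2)) (.cons (.rf (nat_lit 3046)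 (nat_lit 493858305440582043680)) (.cons (.ev (nat_lit 79228167255077565636427120641) (nat_lit 1)) .nil)))) .nil))))),
 (.br (nat_lit 12) (nat_lit 1) (.cons (.rf (nat_lit 3043) (nat_lit 493858305440582043680)) (.cons (.rf (nat_lit 3046) (nat_lit 493858305440582043680)) (.cons (.rf (nat_lit 3047) (nat_lit 493858305440582043680)) (.cons (.br (nat_lit 12) (nat_lit 1) (.cons (.rf (nat_lit 3043) (nat_lit 493858305440582043680)) (.cons (.rf (nat_lit 3046) (nat_lit 493858305440582043680)) (.cons (.ev (nat_lit 79228167255077565636427120641) (nat_lit 1)) .nil)))) .nil))))),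
 (.br (nat_lit 8) (nat_lit 1) (.cons (.rf (nat_lit 3013) (nat_lit 493858305440582043680)) (.cons (.rf (nat_lit 3031) (nat_lit 493858305440582043680)) (.cons (.rf (nat_lit 3035) (nat_lit 493858305440582043680)) (.cons (.br (nat_lit 1) (nat_lit 1) (.cons (.rf (nat_lit 1593) (nat_lit 424373658689)) (.cons (.rf (nat_lit 1593) (nat_lit 424373651745)) (.cons (.rf (nat_lit 3036) (nat_lit 493858305440582043680)) (.cons (.rf (nat_lit 3036) (nat_lit 492741412732994160672)) (.cons (.br (nat_lit 2) (nat_lit 1) (.cons (.ev (nat_lit 1213666632842672057876481) (nat_lit 1)) (.cons (.rf (nat_lit 3038) (nat_lit 493858305440582043680)) (.cons (.rf (nat_lit 3038) (nat_lit 492741412732994160672)) (.cons (.br (nat_lit 9) (nat_lit 1) (.cons (.rf (nat_lit 3039) (nat_lit 493858305440582043680)) (.cons (.rf (nat_lit 3039) (nat_lit 492741412732994160672)) (.cons (.ev (nat_lit 40564820430451673046476533006336) (nat_lit 2)) .nil)))) .nil))))) .nil)))))) (.cons (.br (nat_lit 12) (nat_lit 1) (.cons (.rf (nat_lit 3043) (nat_lit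 493858305440582043680)) (.cons (.rf (nat_lit 3046) (nat_lit 493858305440582043680)) (.cons (.rf (nat_lit 3047) (nat_lit 493858305440582043680)) (.cons (.rf (nat_lit 3048) (nat_lit 493858305440582043680)) (.cons (.br (nat_lit 12) (nat_lit 1) (.cons (.rf (nat_lit 3043) (nat_lit 493858305440582043680)) (.cons (.rf (nat_lit 3046) (nat_lit 493858305440582043680)) (.cons (.rf (nat_lit 3047) (nat_lit 493858305440582043680)) (.cons (.rf (nat_lit 3048) (nat_lit 493858305440582043680)) .nil))))) .nil)))))) .nil)))))),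
 (.br (nat_lit 8) (nat_lit 1) (.cons (.rf (nat_lit 3013) (nat_lit 493858305440582043680)) (.cons (.rf (nat_lit 3031) (nat_lit 493858305440582043680)) (.cons (.rf (nat_lit 3035) (nat_lit 493858305440582043680)) (.cons (.rf (nat_lit 3049) (nat_lit 493858305440582043680)) (.cons (.rf (nat_lit 3049) (nat_lit 492741412732994160672)) (.cons (.br (nat_lit 8) (nat_lit 1) (.cons (.ev (nat_lit 18519083147019157504) (nat_lit 1)) (.cons (.rf (nat_lit 3031) (nat_lit 493858305440582043680)) (.cons (.rf (nat_lit 3035) (nat_lit 493858305440582043680)) (.cons (.rf (nat_lit 3049) (nat_lit 493858305440582043680)) (.cons (.rf (nat_lit 3049) (nat_lit 492741412732994160672)) .nil)))))) .nil))))))),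
 (.br (nat_lit 2) (nat_lit 1) (.cons (.rf (nat_lit 31) (nat_lit 377529570)) (.cons (.rf (nat_lit 2594) (nat_lit 12223519809)) (.cons (.br (nat_lit 7) (nat_lit 1) (.cons (.rf (nat_lit 84) (nat_lit 13165173794)) (.cons (.rf (nat_lit 84) (nat_lit 12092480577)) (.cons (.ev (nat_lit 4740885567111897874688) (nat_lit 1)) .nil)))) (.cons (.br (nat_lit 7) (nat_lit 1) (.cons (.rf (nat_lit 84) (nat_lit 14238915618)) (.cons (.ev (nat_lit 4740885567111897874688) (nat_lit 1)) (.cons (.br (nat_lit 11) (nat_lit 1) (.cons (.br (nat_lit 12) (nat_lit 1) (.cons (.ev (nat_lit 20839175587357819319144165736708) (nat_lit 3)) .nil)) (.cons (.ev (nat_lit 309489732259885536719667456) (nat_lit 1)) .nil))) .nil)))) .nil))))),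
 (.br (nat_lit 12) (nat_lit 1) (.cons (.ev (nat_lit 4740885567111897874688) (nat_lit 1)) (.cons (.ev (nat_lit 310693935641242272387825921) (nat_lit 1)) (.cons (.br (nat_lit 12) (nat_lit 1) (.cons (.ev (nat_lit 4740885567111897874688) (nat_lit 1)) (.cons (.ev (nat_lit 310693935641242272387825921) (nat_lit 1)) .nil))) .nil)))),
 (.br (nat_lit 11) (nat_lit 1) (.cons (.ev (nat_lit 309489750634573111607951361) (nat_lit 1)) (.cons (.ev (nat_lit 309494454771330214082446081) (nat_lit 2)) .nil))),
 (.br (nat_lit 7) (nat_lit 1) (.cons (.rf (nat_lit 84) (nat_lit 13165173825)) (.cons (.ev (nat_lit 4740885567111897874688) (nat_lit 1)) (.cons (.br (nat_lit 11) (nat_lit 1) (.cons (.br (nat_lit 12) (nat_lit 1) (.cons (.ev (nat_lit 20522262908855881487815714996998) (nat_lit 3)) .nil)) (.cons (.ev (nat_lit 310693935641242272387825921) (nat_lit 1)) .nil))) .nil)))),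
 (.br (nat_lit 2) (nat_lit 1) (.cons (.rf (nat_lit 84) (nat_lit 13165173825)) (.cons (.ev (nat_lit 4740885567111897874688) (nat_lit 1)) (.cons (.br (nat_lit 11) (nat_lit 1) (.cons (.ev (nat_lit 309494454771330214082446081) (nat_lit 2)) (.cons (.ev (nat_lit 309489750634573111607951361) (nat_lit 1)) .nil))) .nil)))),
 (.br (nat_lit 11) (nat_lit 1) (.cons (.rf (nat_lit 3054) (nat_lit 493858305440582043680)) (.cons (.rf (nat_lit 3055) (nat_lit 493858305440582043680)) (.cons (.br (nat_lit 13) (nat_lit 1) (.cons (.ev (nat_lit 20282720297605758410293365440513) (nat_lit 1)) (.cons (.ev (nat_lit 20282719093383858252985132908801) (nat_lit 1)) (.cons (.br (nat_lit 2) (nat_lit 1) (.cons (.ev (nat_lit 20283647562636194320108977390340) (nat_lit 3)) .nil)) .nil)))) .nil)))),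
 (.br (nat_lit 11) (nat_lit 1) (.cons (.rf (nat_lit 3054) (nat_lit 493858305440582043680)) (.cons (.rf (nat_lit 3055) (nat_lit 493858305440582043680)) (.cons (.rf (nat_lit 3056) (nat_lit 493858305440582043680)) (.cons (.br (nat_lit 11) (nat_lit 1) (.cons (.ev (nat_lit 310693935641242272387825921) (nat_lit 1)) (.cons (.ev (nat_lit 309489750634573111607951361) (nat_lit 1)) (.cons (.rf (nat_lit 3056) (nat_lit 493858305440582043680)) .nil)))) .nil))))),
 (.br (nat_lit 1) (nat_lit 1) (.cons (.ev (nat_lit 4740885567111897874688) (nat_lit 1)) (.cons (.rf (nat_lit 58) (nat_lit 12814377)) (.cons (.br (nat_lit 12) (nat_lit 1) (.cons (.br (nat_lit 11) (nat_lit 1) (.cons (.zr (nat_lit 237684487598133245001794256896) (nat_lit 623805722921431232931692545) (nat_lit 5) (nat_lit 0)) .nil)) (.cons (.ev (nat_lit 79228162514264337597838983424) (nat_lit 1)) .nil))) .nil)))),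
 (.br (nat_lit 12) (nat_lit 1) (.cons (.rf (nat_lit 3057) (nat_lit 493858305440582043680)) (.cons (.rf (nat_lit 3058) (nat_lit 493858305440582043680)) (.cons (.br (nat_lit 1) (nat_lit 1) (.cons (.ev (nat_lit 79228162532783140360803123201) (nat_lit 1)) (.cons (.br (nat_lit 7) (nat_lit 1) (.cons (.ev (nat_lit 21473629500490149451179597040386) (nat_lit 4)) .nil)) (.cons (.br (nat_lit 7) (nat_lit 1) (.cons (.zr (nat_lit 929663955283654233395561728) (nat_lit 158456325065422444813829144577) (nat_lit 5) (nat_lit 4)) .nil)) .nil)))) .nil)))),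
 (.br (nat_lit 12) (nat_lit 1) (.cons (.rf (nat_lit 3057) (nat_lit 493858305440582043680)) (.cons (.rf (nat_lit 3058) (nat_lit 493858305440582043680)) (.cons (.rf (nat_lit 3059) (nat_lit 493858305440582043680)) (.cons (.br (nat_lit 12) (nat_lit 1) (.cons (.ev (nat_lit 79228176681364632826483311361) (nat_lit 2)) (.cons (.rf (nat_lit 3058) (nat_lit 493858305440582043680)) (.cons (.rf (nat_lit 3059) (nat_lit 493858305440582043680)) .nil)))) .nil))))),
 (.br (nat_lit 12) (nat_lit 1) (.cons (.rf (nat_lit 3057) (nat_lit 493858305440582043680)) (.cons (.rf (nat_lit 3060) (nat_lit 493858305440582043680)) (.cons (.br (nat_lit 1) (nat_lit 1) (.cons (.br (nat_lit 11) (nat_lit 1) (.cons (.ev (nat_lit 310693935641242272387825921) (nat_lit 1)) .nil)) (.cons (.ev (nat_lit 309489732259885536719667456) (nat_lit 1)) (.cons (.br (nat_lit 2) (nat_lit 1) (.cons (.ev (nat_lit 310693935641242272387825921) (nat_lit 1)) .nil)) .nil)))) .nil)))),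
 (.br (nat_lit 12) (nat_lit 1) (.cons (.rf (nat_lit 3057) (nat_lit 493858305440582043680)) (.cons (.rf (nat_lit 3060) (nat_lit 493858305440582043680)) (.cons (.rf (nat_lit 3061) (nat_lit 493858305440582043680)) (.cons (.br (nat_lit 12) (nat_lit 1) (.cons (.rf (nat_lit 3057) (nat_lit 493858305440582043680)) (.cons (.rf (nat_lit 3060) (nat_lit 493858305440582043680)) (.cons (.rf (nat_lit 3061) (nat_lit 493858305440582043680)) .nil)))) .nil))))),
 (.br (nat_lit 12) (nat_lit 1) (.cons (.rf (nat_lit 3057) (nat_lit 493858305440582043680)) (.cons (.rf (nat_lit 3060) (nat_lit 493858305440582043680)) (.cons (.rf (nat_lit 3062) (nat_lit 493858305440582043680)) (.cons (.br (nat_lit 12) (nat_lit 1) (.cons (.rf (nat_lit 3057) (nat_lit 493858305440582043680)) (.cons (.rf (nat_lit 3060) (nat_lit 493858305440582043680)) (.cons (.rf (nat_lit 3062) (nat_lit 493858305440582043680)) .nil)))) .nil))))),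
 (.br (nat_lit 8) (nat_lit 1) (.cons (.rf (nat_lit 3013) (nat_lit 493858305440582043680)) (.cons (.rf (nat_lit 3031) (nat_lit 493858305440582043680)) (.cons (.rf (nat_lit 3050) (nat_lit 493858305440582043680)) (.cons (.br (nat_lit 1) (nat_lit 1) (.cons (.ev (nat_lit 1208944266358707179290881) (nat_lit 1)) (.cons (.rf (nat_lit 1593) (nat_lit 424440760545)) (.cons (.rf (nat_lit 3051) (nat_lit 493858305440582043680)) (.cons (.rf (nat_lit 3051) (nat_lit 492741412732994160672)) (.cons (.br (nat_lit 2) (nat_lit 1) (.cons (.rf (nat_lit 1593) (nat_lit 424440759522)) (.cons (.rf (nat_lit 3052) (nat_lit 493858305440582043680)) (.cons (.rf (nat_lit 3052) (nat_lit 492741412732994160672)) (.cons (.br (nat_lit 7) (nat_lit 1) (.cons (.rf (nat_lit 3053) (nat_lit 493858305440582043680)) (.cons (.rf (nat_lit 3053) (nat_lit 492741412732994160672)) (.cons (.ev (nat_lit 20282409603651670706521756401664) (nat_lit 1)) .nil)))) .nil))))) .nil)))))) (.cons (.br (nat_lit 12) (nat_lit 1) (.cons (.rf (nat_lit 3057) (nat_lit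 493858305440582043680)) (.cons (.rf (nat_lit 3060) (nat_lit 493858305440582043680)) (.cons (.rf (nat_lit 3062) (nat_lit 493858305440582043680)) (.cons (.rf (nat_lit 3063) (nat_lit 493858305440582043680)) (.cons (.br (nat_lit 12) (nat_lit 1) (.cons (.rf (nat_lit 3057) (nat_lit 493858305440582043680)) (.cons (.rf (nat_lit 3060) (nat_lit 493858305440582043680)) (.cons (.rf (nat_lit 3062) (nat_lit 493858305440582043680)) (.cons (.rf (nat_lit 3063) (nat_lit 493858305440582043680)) .nil))))) .nil)))))) .nil)))))),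
 (.br (nat_lit 8) (nat_lit 1) (.cons (.rf (nat_lit 3013) (nat_lit 493858305440582043680)) (.cons (.rf (nat_lit 3031) (nat_lit 493858305440582043680)) (.cons (.rf (nat_lit 3050) (nat_lit 493858305440582043680)) (.cons (.rf (nat_lit 3064) (nat_lit 493858305440582043680)) (.cons (.rf (nat_lit 3064) (nat_lit 492741412732994160672)) (.cons (.br (nat_lit 8) (nat_lit 1) (.cons (.rf (nat_lit 3013) (nat_lit 493858305440582043680)) (.cons (.rf (nat_lit 3031) (nat_lit 493858305440582043680)) (.cons (.rf (nat_lit 3050) (nat_lit 493858305440582043680)) (.cons (.rf (nat_lit 3064) (nat_lit 493858305440582043680)) (.cons (.rf (nat_lit 3064) (nat_lit 492741412732994160672)) .nil)))))) .nil)))))))]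

theorem c102 : chkAll C T R L102 (nat_lit 3037) = true := by decide +kernel

theorem l102 : (nat_lit 3037) + L102.length = (nat_lit 3066) := by decide +kernel

/-- part of the certificates -/
def L103 : List Prf := [(.br (nat_lit 11) (nat_lit 1) (.cons (.zr (nat_lit 928469196779656597223768064) (nat_lit 1208962713385355393892353) (nat_lit 5) (nat_lit 10)) (.cons (.ev (nat_lit 79229371440156291296028262401) (nat_lit 1)) (.cons (.ev (nat_lit 20282410817299928579044404101121) (nat_lit 1)) .nil)))),
 (.br (nat_lit 9) (nat_lit 1) (.cons (.zr (nat_lit 928469196779656597223768064) (nat_lit 1208962713385355393892353) (nat_lit 5) (nat_lit 10)) (.cons (.ev (nat_lit 79229371440156291296028262401) (nat_lit 1)) (.cons (.ev (nat_lit 20282720297587311666219655888896) (nat_lit 1)) .nil)))),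
 (.br (nat_lit 7) (nat_lit 1) (.cons (.br (nat_lit 9) (nat_lit 1) (.cons (.rf (nat_lit 29) (nat_lit 11830498)) (.cons (.br (nat_lit 11) (nat_lit 1) (.cons (.ev (nat_lit 79538861172343837759438323968) (nat_lit 1)) (.cons (.zr (nat_lit 928469196779656597223768064) (nat_lit 1208962713385355393892353) (nat_lit 5) (nat_lit 10)) .nil))) (.cons (.br (nat_lit 12) (nat_lit 1) (.cons (.zr (nat_lit 928469196779656597223768064) (nat_lit 1208962713385355393892353) (nat_lit 5) (nat_lit 10)) (.cons (.kr (nat_lit 20282409603651670423947251286272) (nat_lit 18446744073726328832) (nat_lit 1) (nat_lit 0)) .nil))) .nil)))) (.cons (.br (nat_lit 2) (nat_lit 1) (.cons (.rf (nat_lit 29) (nat_lit 11601191)) (.cons (.br (nat_lit 12) (nat_lit 1) (.cons (.ev (nat_lit 79230594588415590062442545664) (nat_lit 2)) (.cons (.ev (nat_lit 79229371440084234797206995201) (nat_lit 1)) .nil))) (.cons (.br (nat_lit 11) (nat_lit 1) (.cons (.br (nat_lit 12) (nat_lit 1) (.cons (.ev (nat_lit 79229371440156291296028262401) (nat_lit 1)) .nil))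 (.cons (.rf (nat_lit 31) (nat_lit 447808807)) .nil))) .nil)))) (.cons (.ev (nat_lit 310693954087986346097377536) (nat_lit 1)) (.cons (.br (nat_lit 2) (nat_lit 1) (.cons (.br (nat_lit 11) (nat_lit 1) (.cons (.rf (nat_lit 31) (nat_lit 414418210)) (.cons (.zr (nat_lit 928469196779656597223768064) (nat_lit 1208962713385355393892353) (nat_lit 5) (nat_lit 10)) .nil))) (.cons (.rf (nat_lit 2061) (nat_lit 477804884528401481)) (.cons (.br (nat_lit 9) (nat_lit 1) (.cons (.rf (nat_lit 82) (nat_lit 9004360738)) (.cons (.br (nat_lit 11) (nat_lit 1) (.cons (.ev (nat_lit 20839177976764867980068525507328) (nat_lit 3)) .nil)) .nil))) (.cons (.br (nat_lit 11) (nat_lit 1) (.cons (.br (nat_lit 12) (nat_lit 1) (.cons (.ev (nat_lit 20363190059993405820404356286208) (nat_lit 3)) .nil)) (.cons (.zr (nat_lit 237684487542793012780665602048) (nat_lit 1208962713385355377115137) (nat_lit 5) (nat_lit 10)) (.cons (.br (nat_lit 9) (nat_lit 1) (.cons (.ev (nat_lit 20837940065170460837744314876166) (nat_lit 3)) .nil)) .nil))))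 .nil))))) (.cons (.br (nat_lit 12) (nat_lit 1) (.cons (.br (nat_lit 12) (nat_lit 1) (.cons (.rf (nat_lit 1608) (nat_lit 15433037954754386976)) (.cons (.rf (nat_lit 3067) (nat_lit 493858305440582043680)) (.cons (.ev (nat_lit 79229371440084234797206995201) (nat_lit 1)) .nil)))) (.cons (.rf (nat_lit 3066) (nat_lit 493858305440582043680)) (.cons (.rf (nat_lit 3067) (nat_lit 493858305440582043680)) (.cons (.br (nat_lit 12) (nat_lit 1) (.cons (.ev (nat_lit 79229371440084234797206995201) (nat_lit 1)) (.cons (.rf (nat_lit 3066) (nat_lit 493858305440582043680)) (.cons (.rf (nat_lit 3067) (nat_lit 493858305440582043680)) .nil)))) .nil))))) .nil)))))),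
 (.br (nat_lit 1) (nat_lit 1) (.cons (.br (nat_lit 9) (nat_lit 1) (.cons (.rf (nat_lit 29) (nat_lit 11831521)) (.cons (.br (nat_lit 11) (nat_lit 1) (.cons (.ev (nat_lit 79229376180897460645361942528) (nat_lit 1)) (.cons (.zr (nat_lit 928469196779656597223768064) (nat_lit 1208962713385355393892353) (nat_lit 5) (nat_lit 10)) .nil))) (.cons (.br (nat_lit 11) (nat_lit 1) (.cons (.zr (nat_lit 928469196779656597223768064) (nat_lit 1208962713385355393892353) (nat_lit 5) (nat_lit 10)) (.cons (.ev (nat_lit 20282720297605758410293365440513) (nat_lit 1)) .nil))) .nil)))) (.cons (.br (nat_lit 7) (nat_lit 1) (.cons (.rf (nat_lit 29) (nat_lit 11766049)) (.cons (.br (nat_lit 13) (nat_lit 1) (.cons (.zr (nat_lit 928469196779656597223768064) (nat_lit 1208962713385355393892353) (nat_lit 5) (nat_lit 10)) (.cons (.zr (nat_lit 237684487542793012780665602048) (nat_lit 1208962713385355377115137) (nat_lit 5) (nat_lit 10)) .nil))) (.cons (.br (nat_lit 11) (nat_lit 1) (.cons (.zr (nat_lit 928469196779656597223768064) (nat_lit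 1208962713385355393892353) (nat_lit 5) (nat_lit 10)) (.cons (.ev (nat_lit 20282410812595936782654447353856) (nat_lit 1)) .nil))) .nil)))) (.cons (.rf (nat_lit 3068) (nat_lit 493858305440582043680)) (.cons (.rf (nat_lit 3068) (nat_lit 492741412732994160672)) (.cons (.br (nat_lit 7) (nat_lit 1) (.cons (.ev (nat_lit 1213666704899170879144193) (nat_lit 1)) (.cons (.br (nat_lit 9) (nat_lit 1) (.cons (.br (nat_lit 12) (nat_lit 1) (.cons (.ev (nat_lit 79229371440156291296028262401) (nat_lit 1)) .nil)) (.cons (.ev (nat_lit 20282410817318303266619292385536) (nat_lit 1)) .nil))) (.cons (.br (nat_lit 12) (nat_lit 1) (.cons (.br (nat_lit 11) (nat_lit 1) (.cons (.ev (nat_lit 310698676526526809797361920) (nat_lit 1)) .nil)) (.cons (.ev (nat_lit 310693935641242272387825921) (nat_lit 1)) (.cons (.zr (nat_lit 237684487542793012780665602048) (nat_lit 1208962713385355377115137) (nat_lit 5) (nat_lit 10)) .nil)))) (.cons (.rf (nat_lit 2468) (nat_lit 458117738797769787424)) .nil))))) .nil)))))),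
 (.br (nat_lit 12) (nat_lit 1) (.cons (.rf (nat_lit 3068) (nat_lit 492741412732994160672)) (.cons (.rf (nat_lit 3069) (nat_lit 492741412732994160672)) (.cons (.br (nat_lit 2) (nat_lit 1) (.cons (.rf (nat_lit 31) (nat_lit 414489665)) (.cons (.zr (nat_lit 928455029464035206208094208) (nat_lit 1208962713385355377115137) (nat_lit 5) (nat_lit 10)) .nil))) (.cons (.ev (nat_lit 79229371440156291296028262401) (nat_lit 1)) .nil))))),
 (.br (nat_lit 12) (nat_lit 1) (.cons (.rf (nat_lit 3068) (nat_lit 492741412732994160672)) (.cons (.ev (nat_lit 79538856449977355984993058816) (nat_lit 1)) (.cons (.rf (nat_lit 3070) (nat_lit 493858305440582043680)) (.cons (.br (nat_lit 2) (nat_lit 1) (.cons (.ev (nat_lit 79229371440084234797206995201) (nat_lit 1)) (.cons (.ev (nat_lit 79538861190718525334326607873) (nat_lit 1)) (.cons (.zr (nat_lit 928455029464035206208094208) (nat_lit 1208962713385355377115137) (nat_lit 5) (nat_lit 10)) .nil)))) .nil))))),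
 (.br (nat_lit 12) (nat_lit 1) (.cons (.rf (nat_lit 3068) (nat_lit 492741412732994160672)) (.cons (.rf (nat_lit 3069) (nat_lit 492741412732994160672)) (.cons (.rf (nat_lit 3070) (nat_lit 493858305440582043680)) (.cons (.rf (nat_lit 3071) (nat_lit 493858305440582043680)) (.cons (.br (nat_lit 12) (nat_lit 1) (.cons (.rf (nat_lit 3068) (nat_lit 492741412732994160672)) (.cons (.rf (nat_lit 3069) (nat_lit 492741412732994160672)) (.cons (.ev (nat_lit 79229371440156291296028262401) (nat_lit 1)) (.cons (.rf (nat_lit 3071) (nat_lit 493858305440582043680)) .nil))))) .nil)))))),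
 (.br (nat_lit 12) (nat_lit 1) (.cons (.rf (nat_lit 3068) (nat_lit 492741412732994160672)) (.cons (.ev (nat_lit 310698676454468120542773248) (nat_lit 1)) (.cons (.rf (nat_lit 3072) (nat_lit 492741412732994160672)) (.cons (.br (nat_lit 2) (nat_lit 1) (.cons (.ev (nat_lit 79538856468352041369448022273) (nat_lit 1)) (.cons (.zr (nat_lit 55340232221162405888) (nat_lit 158457533954348572395045912577) (nat_lit 5) (nat_lit 0)) (.cons (.br (nat_lit 1) (nat_lit 1) (.cons (.ev (nat_lit 1208944338417396433879041) (nat_lit 1)) .nil)) .nil)))) .nil))))),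
 (.br (nat_lit 12) (nat_lit 1) (.cons (.rf (nat_lit 3068) (nat_lit 492741412732994160672)) (.cons (.rf (nat_lit 3069) (nat_lit 492741412732994160672)) (.cons (.rf (nat_lit 3072) (nat_lit 492741412732994160672)) (.cons (.rf (nat_lit 3073) (nat_lit 493858305440582043680)) (.cons (.br (nat_lit 12) (nat_lit 1) (.cons (.rf (nat_lit 3068) (nat_lit 492741412732994160672)) (.cons (.rf (nat_lit 3069) (nat_lit 492741412732994160672)) (.cons (.rf (nat_lit 3072) (nat_lit 492741412732994160672)) (.cons (.rf (nat_lit 3073) (nat_lit 493858305440582043680)) .nil))))) .nil)))))),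
 (.br (nat_lit 11) (nat_lit 1) (.cons (.rf (nat_lit 3068) (nat_lit 493858305440582043680)) (.cons (.rf (nat_lit 3069) (nat_lit 493858305440582043680)) (.cons (.rf (nat_lit 3072) (nat_lit 493858305440582043680)) (.cons (.rf (nat_lit 3074) (nat_lit 493858305440582043680)) (.cons (.br (nat_lit 12) (nat_lit 1) (.cons (.rf (nat_lit 3068) (nat_lit 492741412732994160672)) (.cons (.rf (nat_lit 3069) (nat_lit 492741412732994160672)) (.cons (.rf (nat_lit 3072) (nat_lit 492741412732994160672)) (.cons (.rf (nat_lit 3074) (nat_lit 492741412732994160672)) (.cons (.kr (nat_lit 309485009821345068724781056) (nat_lit 79228162514264337593543950336) (nat_lit 11) (nat_lit 0)) .nil)))))) .nil)))))),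
 (.br (nat_lit 8) (nat_lit 1) (.cons (.rf (nat_lit 3013) (nat_lit 493858305440582043680)) (.cons (.rf (nat_lit 3031) (nat_lit 493858305440582043680)) (.cons (.rf (nat_lit 3050) (nat_lit 493858305440582043680)) (.cons (.rf (nat_lit 3065) (nat_lit 493858305440582043680)) (.cons (.br (nat_lit 11) (nat_lit 1) (.cons (.rf (nat_lit 3068) (nat_lit 493858305440582043680)) (.cons (.rf (nat_lit 3069) (nat_lit 493858305440582043680)) (.cons (.rf (nat_lit 3072) (nat_lit 493858305440582043680)) (.cons (.rf (nat_lit 3074) (nat_lit 493858305440582043680)) (.cons (.rf (nat_lit 3075) (nat_lit 493858305440582043680)) (.cons (.br (nat_lit 11) (nat_lit 1) (.cons (.rf (nat_lit 3068) (nat_lit 493858305440582043680)) (.cons (.rf (nat_lit 3069) (nat_lit 493858305440582043680)) (.cons (.rf (nat_lit 3072) (nat_lit 493858305440582043680)) (.cons (.rf (nat_lit 3074) (nat_lit 493858305440582043680)) (.cons (.rf (nat_lit 3075) (nat_lit 493858305440582043680)) .nil)))))) .nil))))))) .nil)))))),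
 (.br (nat_lit 8) (nat_lit 1) (.cons (.rf (nat_lit 3013) (nat_lit 493858305440582043680)) (.cons (.rf (nat_lit 3031) (nat_lit 493858305440582043680)) (.cons (.rf (nat_lit 3050) (nat_lit 493858305440582043680)) (.cons (.rf (nat_lit 3065) (nat_lit 493858305440582043680)) (.cons (.rf (nat_lit 3076) (nat_lit 493858305440582043680)) (.cons (.br (nat_lit 8) (nat_lit 1) (.cons (.rf (nat_lit 3013) (nat_lit 493858305440582043680)) (.cons (.rf (nat_lit 3031) (nat_lit 493858305440582043680)) (.cons (.rf (nat_lit 3050) (nat_lit 493858305440582043680)) (.cons (.rf (nat_lit 3065) (nat_lit 493858305440582043680)) (.cons (.rf (nat_lit 3076) (nat_lit 493858305440582043680)) .nil)))))) .nil))))))),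
 (.br (nat_lit 11) (nat_lit 1) (.cons (.rf (nat_lit 2594) (nat_lit 8994006242)) (.cons (.rf (nat_lit 82) (nat_lit 13165110306)) (.cons (.br (nat_lit 8) (nat_lit 1) (.cons (.rf (nat_lit 58) (nat_lit 8690753)) (.cons (.br (nat_lit 9) (nat_lit 1) (.cons (.ev (nat_lit 310698676454469215759433728) (nat_lit 1)) (.cons (.rf (nat_lit 2998) (nat_lit 493858305231202486496)) .nil))) (.cons (.ev (nat_lit 310693954160042844918644736) (nat_lit 1)) .nil)))) .nil)))),
 (.br (nat_lit 11) (nat_lit 1) (.cons (.rf (nat_lit 1339) (nat_lit 392226376738)) (.cons (.rf (nat_lit 1343) (nat_lit 423430988834)) (.cons (.rf (nat_lit 3078) (nat_lit 493858305440582043680)) (.cons (.br (nat_lit 11) (nat_lit 1) (.cons (.rf (nat_lit 2594) (nat_lit 9027560674)) (.cons (.rf (nat_lit 82) (nat_lit 14238852130)) (.cons (.rf (nat_lit 3078) (nat_lit 493858305440582043680)) .nil)))) .nil))))),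
 (.br (nat_lit 12) (nat_lit 1) (.cons (.zr (nat_lit 14222439680830064296704) (nat_lit 158457533954348572395062689793) (nat_lit 5) (nat_lit 0)) .nil)),
 (.br (nat_lit 8) (nat_lit 1) (.cons (.rf (nat_lit 84) (nat_lit 14336433217)) (.cons (.br (nat_lit 11) (nat_lit 1) (.cons (.rf (nat_lit 3080) (nat_lit 493858305440582043680)) (.cons (.br (nat_lit 11) (nat_lit 1) (.cons (.rf (nat_lit 3080) (nat_lit 493858305440582043680)) .nil)) .nil))) (.cons (.rf (nat_lit 84) (nat_lit 12255796297)) .nil)))),
 (.br (nat_lit 1) (nat_lit 1) (.cons (.ev (nat_lit 282574488338689) (nat_lit 1)) (.cons (.rf (nat_lit 29) (nat_lit 8620321)) (.cons (.rf (nat_lit 3079) (nat_lit 493858305440582043680)) (.cons (.rf (nat_lit 3079) (nat_lit 492741412732994160672)) (.cons (.br (nat_lit 9) (nat_lit 1) (.cons (.ev (nat_lit 4722438821942971662593) (nat_lit 1)) (.cons (.rf (nat_lit 3081) (nat_lit 493858305440582043680)) (.cons (.rf (nat_lit 3081) (nat_lit 492741412732994160672)) (.cons (.rf (nat_lit 1343) (nat_lit 389138359330)) .nil)))))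 .nil)))))),
 (.br (nat_lit 11) (nat_lit 1) (.cons (.rf (nat_lit 82) (nat_lit 13165173794)) (.cons (.rf (nat_lit 2594) (nat_lit 8994004258)) (.cons (.br (nat_lit 8) (nat_lit 1) (.cons (.rf (nat_lit 58) (nat_lit 8690753)) (.cons (.ev (nat_lit 309499232261873635189326594) (nat_lit 2)) (.cons (.br (nat_lit 7) (nat_lit 1) (.cons (.ev (nat_lit 311912361606111365098045696) (nat_lit 2)) (.cons (.rf (nat_lit 84) (nat_lit 12255994945)) .nil))) .nil)))) .nil)))),
 (.br (nat_lit 11) (nat_lit 1) (.cons (.rf (nat_lit 1343) (nat_lit 423433083938)) (.cons (.rf (nat_lit 1339) (nat_lit 392159333410)) (.cons (.rf (nat_lit 3083) (nat_lit 493858305440582043680)) (.cons (.br (nat_lit 11) (nat_lit 1) (.cons (.rf (nat_lit 82) (nat_lit 14238915618)) (.cons (.ev (nat_lit 309489750634572016391290881) (nat_lit 1)) (.cons (.rf (nat_lit 3083) (nat_lit 493858305440582043680)) .nil)))) .nil))))),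
 (.br (nat_lit 12) (nat_lit 1) (.cons (.ev (nat_lit 79228162532783140360803123201) (nat_lit 1)) (.cons (.ev (nat_lit 79229376162450717666869051393) (nat_lit 1)) .nil))),
 (.br (nat_lit 8) (nat_lit 1) (.cons (.rf (nat_lit 84) (nat_lit 14336369729)) (.cons (.br (nat_lit 11) (nat_lit 1) (.cons (.rf (nat_lit 3085) (nat_lit 493858305440582043680)) (.cons (.br (nat_lit 11) (nat_lit 1) (.cons (.rf (nat_lit 3085) (nat_lit 493858305440582043680)) .nil)) .nil))) (.cons (.rf (nat_lit 84) (nat_lit 12255798343)) .nil)))),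
 (.br (nat_lit 1) (nat_lit 1) (.cons (.rf (nat_lit 29) (nat_lit 8685793)) (.cons (.ev (nat_lit 282574488338689) (nat_lit 1)) (.cons (.rf (nat_lit 3084) (nat_lit 493858305440582043680)) (.cons (.rf (nat_lit 3084) (nat_lit 492741412732994160672)) (.cons (.br (nat_lit 7) (nat_lit 1) (.cons (.ev (nat_lit 4722438821942971662593) (nat_lit 1)) (.cons (.rf (nat_lit 3086) (nat_lit 493858305440582043680)) (.cons (.rf (nat_lit 3086) (nat_lit 492741412732994160672)) (.cons (.rf (nat_lit 1343) (nat_lit 389140454434)) .nil))))) .nil)))))),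
 (.br (nat_lit 7) (nat_lit 1) (.cons (.rf (nat_lit 31) (nat_lit 377522471)) (.cons (.ev (nat_lit 310693954160042844918644736) (nat_lit 1)) (.cons (.br (nat_lit 9) (nat_lit 1) (.cons (.ev (nat_lit 309485028340147835983953921) (nat_lit 1)) (.cons (.ev (nat_lit 79228162514336396287093571584) (nat_lit 1)) (.cons (.br (nat_lit 12) (nat_lit 1) (.cons (.ev (nat_lit 79537652264971248678949945600) (nat_lit 1)) (.cons (.zr (nat_lit 237684487542793017178678362880) (nat_lit 1218407446349995172691969) (nat_lit 5) (nat_lit 4)) .nil))) .nil)))) (.cons (.br (nat_lit 9) (nat_lit 1) (.cons (.ev (nat_lit 4722438821942971662593) (nat_lit 1)) (.cons (.br (nat_lit 13) (nat_lit 1) (.cons (.br (nat_lit 12) (nat_lit 1) (.cons (.ev (nat_lit 79538861190790582928364536065) (nat_lit 1)) .nil)) (.cons (.br (nat_lit 11) (nat_lit 1) (.cons (.ev (nat_lit 79538861190790582928364536065) (nat_lit 1)) .nil)) .nil))) (.cons (.br (nat_lit 11) (nat_lit 1) (.cons (.br (nat_lit 12) (nat_lit 1) (.cons (.ev (nat_lit 79229371440156291296028262401)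 (nat_lit 1)) .nil)) (.cons (.rf (nat_lit 84) (nat_lit 8972707042)) .nil))) .nil)))) .nil))))),
 (.br (nat_lit 9) (nat_lit 1) (.cons (.ev (nat_lit 4722438821942971662593) (nat_lit 1)) (.cons (.br (nat_lit 12) (nat_lit 1) (.cons (.ev (nat_lit 79538861172343838854654984448) (nat_lit 1)) (.cons (.rf (nat_lit 2439) (nat_lit 458117738588392261856)) .nil))) (.cons (.br (nat_lit 11) (nat_lit 1) (.cons (.zr (nat_lit 928455029464039604220855040) (nat_lit 1218407446349995172691969) (nat_lit 5) (nat_lit 4)) (.cons (.ev (nat_lit 20282720302328124892067777282305) (nat_lit 1)) .nil))) .nil)))),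
 (.br (nat_lit 12) (nat_lit 1) (.cons (.ev (nat_lit 79229371440156291296028262401) (nat_lit 1)) .nil))]

theorem c103 : chkAll C T R L103 (nat_lit 3066) = true := by decide +kernel

theorem l103 : (nat_lit 3066) + L103.length = (nat_lit 3091) := by decide +kernel

/-- part of the certificates -/
def L104 : List Prf := [(.br (nat_lit 11) (nat_lit 1) (.cons (.rf (nat_lit 3090) (nat_lit 493858305440582043680)) (.cons (.ev (nat_lit 20282720307087456639208214495232) (nat_lit 2)) .nil))),
 (.br (nat_lit 9) (nat_lit 1) (.cons (.ev (nat_lit 309485009893403762274402304) (nat_lit 1)) (.cons (.br (nat_lit 13) (nat_lit 1) (.cons (.zr (nat_lit 928455029464039604220855040) (nat_lit 1218407446349995172691969) (nat_lit 5) (nat_lit 4)) (.cons (.rf (nat_lit 2432) (nat_lit 458117738588392261856)) .nil))) (.cons (.br (nat_lit 11) (nat_lit 1) (.cons (.rf (nat_lit 3026) (nat_lit 493858305231202486496)) (.cons (.ev (nat_lit 20282409608374109246985422831616) (nat_lit 1)) .nil))) .nil)))),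
 (.br (nat_lit 7) (nat_lit 1) (.cons (.ev (nat_lit 309485009893403762274402304) (nat_lit 1)) (.cons (.br (nat_lit 11) (nat_lit 1) (.cons (.ev (nat_lit 79229376180897461740578603008) (nat_lit 1)) (.cons (.br (nat_lit 12) (nat_lit 1) (.cons (.ev (nat_lit 20680719262329434202800927212294) (nat_lit 3)) .nil)) .nil))) (.cons (.br (nat_lit 12) (nat_lit 1) (.cons (.br (nat_lit 12) (nat_lit 1) (.cons (.ev (nat_lit 79538856468352041369448022273) (nat_lit 1)) .nil)) (.cons (.ev (nat_lit 20282410817299928579044404101121) (nat_lit 1)) .nil))) .nil)))),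
 (.br (nat_lit 11) (nat_lit 1) (.cons (.rf (nat_lit 3092) (nat_lit 493858305440582043680)) (.cons (.rf (nat_lit 3093) (nat_lit 493858305440582043680)) (.cons (.br (nat_lit 7) (nat_lit 1) (.cons (.zr (nat_lit 14222439680830064296704) (nat_lit 620178945462587345424351233) (nat_lit 5) (nat_lit 0)) (.cons (.br (nat_lit 9) (nat_lit 1) (.cons (.ev (nat_lit 4722438821942971662593) (nat_lit 1)) .nil)) (.cons (.ev (nat_lit 310693935713298771209093121) (nat_lit 1)) .nil)))) .nil)))),
 (.br (nat_lit 11) (nat_lit 1) (.cons (.rf (nat_lit 3092) (nat_lit 493858305440582043680)) (.cons (.rf (nat_lit 3093) (nat_lit 493858305440582043680)) (.cons (.rf (nat_lit 3094) (nat_lit 493858305440582043680)) (.cons (.br (nat_lit 11) (nat_lit 1) (.cons (.rf (nat_lit 3092) (nat_lit 493858305440582043680)) (.cons (.rf (nat_lit 3093) (nat_lit 493858305440582043680)) (.cons (.rf (nat_lit 3094) (nat_lit 493858305440582043680)) .nil)))) .nil))))),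
 (.br (nat_lit 12) (nat_lit 1) (.cons (.ev (nat_lit 79537647542532709310466621696) (nat_lit 1)) .nil)),
 (.br (nat_lit 1) (nat_lit 1) (.cons (.ev (nat_lit 1213666704900266095804673) (nat_lit 1)) (.cons (.br (nat_lit 9) (nat_lit 1) (.cons (.rf (nat_lit 84) (nat_lit 13164946471)) (.cons (.br (nat_lit 12) (nat_lit 1) (.cons (.ev (nat_lit 79228162551374842956630655235) (nat_lit 2)) (.cons (.ev (nat_lit 79228167236630820467500908544) (nat_lit 1)) .nil))) (.cons (.br (nat_lit 12) (nat_lit 1) (.cons (.rf (nat_lit 3096) (nat_lit 493858305440582043680)) (.cons (.ev (nat_lit 20282409608374109246985422831616) (nat_lit 1)) .nil))) .nil)))) (.cons (.rf (nat_lit 3095) (nat_lit 493858305440582043680)) (.cons (.br (nat_lit 9) (nat_lit 1) (.cons (.br (nat_lit 11) (nat_lit 1) (.cons (.br (nat_lit 12) (nat_lit 1) (.cons (.ev (nat_lit 20837321085705796392956662843136) (nat_lit 3)) .nil)) (.cons (.ev (nat_lit 20282410817318375323118113652736) (nat_lit 1)) .nil))) (.cons (.ev (nat_lit 4722438821942971662593) (nat_lit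 1)) (.cons (.rf (nat_lit 84) (nat_lit 13167043623)) .nil)))) .nil))))),
 (.br (nat_lit 12) (nat_lit 1) (.cons (.ev (nat_lit 79228167255077564541210460161) (nat_lit 1)) (.cons (.rf (nat_lit 3097) (nat_lit 493858305440582043680)) (.cons (.br (nat_lit 1) (nat_lit 1) (.cons (.br (nat_lit 11) (nat_lit 1) (.cons (.zr (nat_lit 14222439680830064296704) (nat_lit 620178945462587345424351233) (nat_lit 5) (nat_lit 0)) .nil)) (.cons (.br (nat_lit 7) (nat_lit 1) (.cons (.ev (nat_lit 20680716825551146753984812877570) (nat_lit 3)) .nil)) (.cons (.br (nat_lit 7) (nat_lit 1) (.cons (.zr (nat_lit 928455029464039604220855040) (nat_lit 1218407446349995172691969) (nat_lit 5) (nat_lit 4)) .nil)) .nil)))) .nil)))),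
 (.br (nat_lit 12) (nat_lit 1) (.cons (.rf (nat_lit 3095) (nat_lit 493858305440582043680)) (.cons (.rf (nat_lit 3097) (nat_lit 493858305440582043680)) (.cons (.rf (nat_lit 3098) (nat_lit 493858305440582043680)) (.cons (.br (nat_lit 12) (nat_lit 1) (.cons (.rf (nat_lit 3095) (nat_lit 493858305440582043680)) (.cons (.ev (nat_lit 79228167236630820467500908544) (nat_lit 1)) (.cons (.rf (nat_lit 3098) (nat_lit 493858305440582043680)) .nil)))) .nil))))),
 (.br (nat_lit 12) (nat_lit 1) (.cons (.rf (nat_lit 3095) (nat_lit 493858305440582043680)) (.cons (.rf (nat_lit 3097) (nat_lit 493858305440582043680)) (.cons (.rf (nat_lit 3099) (nat_lit 493858305440582043680)) (.cons (.br (nat_lit 12) (nat_lit 1) (.cons (.rf (nat_lit 3095) (nat_lit 493858305440582043680)) (.cons (.rf (nat_lit 3097) (nat_lit 493858305440582043680)) (.cons (.rf (nat_lit 3099) (nat_lit 493858305440582043680)) .nil)))) .nil))))),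
 (.br (nat_lit 8) (nat_lit 1) (.cons (.ev (nat_lit 282574488338689) (nat_lit 1)) (.cons (.rf (nat_lit 3082) (nat_lit 493858305440582043680)) (.cons (.rf (nat_lit 3087) (nat_lit 493858305440582043680)) (.cons (.br (nat_lit 1) (nat_lit 1) (.cons (.rf (nat_lit 1593) (nat_lit 424205886689)) (.cons (.rf (nat_lit 1593) (nat_lit 424205884705)) (.cons (.rf (nat_lit 3088) (nat_lit 493858305440582043680)) (.cons (.rf (nat_lit 3088) (nat_lit 492741412732994160672)) (.cons (.br (nat_lit 7) (nat_lit 1) (.cons (.rf (nat_lit 1593) (nat_lit 424205878567)) (.cons (.rf (nat_lit 3089) (nat_lit 493858305440582043680)) (.cons (.rf (nat_lit 3089) (nat_lit 492741412732994160672)) (.cons (.br (nat_lit 9) (nat_lit 1) (.cons (.rf (nat_lit 3091) (nat_lit 493858305440582043680)) (.cons (.rf (nat_lit 3091) (nat_lit 492741412732994160672)) (.cons (.ev (nat_lit 4722438821942971662593) (nat_lit 1)) .nil)))) .nil))))) .nil)))))) (.cons (.br (nat_lit 12) (nat_lit 1) (.cons (.rf (nat_lit 3095) (nat_lit 493858305440582043680)) (.cons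 (.rf (nat_lit 3097) (nat_lit 493858305440582043680)) (.cons (.rf (nat_lit 3099) (nat_lit 493858305440582043680)) (.cons (.rf (nat_lit 3100) (nat_lit 493858305440582043680)) (.cons (.br (nat_lit 12) (nat_lit 1) (.cons (.rf (nat_lit 3095) (nat_lit 493858305440582043680)) (.cons (.rf (nat_lit 3097) (nat_lit 493858305440582043680)) (.cons (.rf (nat_lit 3099) (nat_lit 493858305440582043680)) (.cons (.rf (nat_lit 3100) (nat_lit 493858305440582043680)) .nil))))) .nil)))))) .nil)))))),
 (.br (nat_lit 8) (nat_lit 1) (.cons (.ev (nat_lit 282574488338689) (nat_lit 1)) (.cons (.rf (nat_lit 3082) (nat_lit 493858305440582043680)) (.cons (.rf (nat_lit 3087) (nat_lit 493858305440582043680)) (.cons (.rf (nat_lit 3101) (nat_lit 493858305440582043680)) (.cons (.rf (nat_lit 3101) (nat_lit 492741412732994160672)) (.cons (.br (nat_lit 8) (nat_lit 1) (.cons (.ev (nat_lit 282574488338689) (nat_lit 1)) (.cons (.rf (nat_lit 3082) (nat_lit 493858305440582043680)) (.cons (.rf (nat_lit 3087) (nat_lit 493858305440582043680))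 (.cons (.rf (nat_lit 3101) (nat_lit 493858305440582043680)) (.cons (.rf (nat_lit 3101) (nat_lit 492741412732994160672)) .nil)))))) .nil))))))),
 (.br (nat_lit 11) (nat_lit 1) (.cons (.rf (nat_lit 82) (nat_lit 13165168679)) (.cons (.ev (nat_lit 310693954087986346097377536) (nat_lit 1)) (.cons (.br (nat_lit 2) (nat_lit 1) (.cons (.rf (nat_lit 58) (nat_lit 8690753)) (.cons (.rf (nat_lit 2909) (nat_lit 458117738622784511008)) (.cons (.br (nat_lit 13) (nat_lit 1) (.cons (.ev (nat_lit 20282409608374037188296168243456) (nat_lit 1)) (.cons (.ev (nat_lit 40564821629877418618720358563842) (nat_lit 2)) .nil))) .nil)))) .nil)))),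
 (.br (nat_lit 11) (nat_lit 1) (.cons (.rf (nat_lit 1343) (nat_lit 423433078823)) (.cons (.rf (nat_lit 1339) (nat_lit 391991561255)) (.cons (.rf (nat_lit 3103) (nat_lit 493858305440582043680)) (.cons (.br (nat_lit 11) (nat_lit 1) (.cons (.rf (nat_lit 82) (nat_lit 14238910503)) (.cons (.rf (nat_lit 2594) (nat_lit 9027553575)) (.cons (.rf (nat_lit 3103) (nat_lit 493858305440582043680)) .nil)))) .nil))))),
 (.br (nat_lit 12) (nat_lit 1) (.cons (.ev (nat_lit 79229371458530978870916546816) (nat_lit 1)) (.cons (.zr (nat_lit 55340232221162405888) (nat_lit 158457533954348572395045912577) (nat_lit 5) (nat_lit 0)) .nil))),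
 (.br (nat_lit 8) (nat_lit 1) (.cons (.rf (nat_lit 84) (nat_lit 14336206049)) (.cons (.br (nat_lit 11) (nat_lit 1) (.cons (.rf (nat_lit 3105) (nat_lit 493858305440582043680)) (.cons (.br (nat_lit 11) (nat_lit 1) (.cons (.rf (nat_lit 3105) (nat_lit 493858305440582043680)) .nil)) .nil))) (.cons (.rf (nat_lit 84) (nat_lit 12255798498)) .nil)))),
 (.br (nat_lit 1) (nat_lit 1) (.cons (.rf (nat_lit 29) (nat_lit 8690753)) (.cons (.ev (nat_lit 282574488338689) (nat_lit 1)) (.cons (.rf (nat_lit 3104) (nat_lit 493858305440582043680)) (.cons (.rf (nat_lit 3104) (nat_lit 492741412732994160672)) (.cons (.br (nat_lit 2) (nat_lit 1) (.cons (.ev (nat_lit 4722438821942971662593) (nat_lit 1)) (.cons (.rf (nat_lit 3106) (nat_lit 493858305440582043680)) (.cons (.rf (nat_lit 3106) (nat_lit 492741412732994160672)) (.cons (.rf (nat_lit 1343) (nat_lit 389140449319)) .nil))))) .nil)))))),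
 (.br (nat_lit 2) (nat_lit 1) (.cons (.rf (nat_lit 31) (nat_lit 377527586)) (.cons (.rf (nat_lit 2594) (nat_lit 12221424705)) (.cons (.br (nat_lit 9) (nat_lit 1) (.cons (.ev (nat_lit 310693954087986346097377536) (nat_lit 1)) (.cons (.ev (nat_lit 79229371440084234797206995201) (nat_lit 1)) (.cons (.br (nat_lit 12) (nat_lit 1) (.cons (.ev (nat_lit 79537652264971248678949945600) (nat_lit 1)) (.cons (.zr (nat_lit 237684487542794138680538694400) (nat_lit 1218407446069619707609089) (nat_lit 5) (nat_lit 3)) .nil))) .nil)))) (.cons (.br (nat_lit 9) (nat_lit 1) (.cons (.ev (nat_lit 4722438821942971662593) (nat_lit 1)) (.cons (.br (nat_lit 12) (nat_lit 1) (.cons (.zr (nat_lit 79228186144543496015479637251) (nat_lit 1549842900746519759556706304) (nat_lit 10) (nat_lit 0)) (.cons (.rf (nat_lit 2880) (nat_lit 421104628008242847018)) .nil))) (.cons (.br (nat_lit 11) (nat_lit 1) (.cons (.br (nat_lit 12) (nat_lit 1) (.cons (.ev (nat_lit 79229376162450717666869051393) (nat_lit 1)) .nil)) (.cons (.rf (nat_lit 84)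 (nat_lit 8972706887)) .nil))) .nil)))) .nil))))),
 (.br (nat_lit 9) (nat_lit 1) (.cons (.ev (nat_lit 4722438821942971662593) (nat_lit 1)) (.cons (.br (nat_lit 13) (nat_lit 1) (.cons (.zr (nat_lit 319156417459134864618948096) (nat_lit 18963256285473257357324) (nat_lit 35) (nat_lit 4)) (.cons (.zr (nat_lit 79237833921902127389438117120) (nat_lit 23685622768342885728268) (nat_lit 35) (nat_lit 4)) .nil))) (.cons (.br (nat_lit 11) (nat_lit 1) (.cons (.zr (nat_lit 928455029465161106081186560) (nat_lit 1218407446069619707609089) (nat_lit 5) (nat_lit 3)) (.cons (.ev (nat_lit 20282720297605830467887403368705) (nat_lit 1)) .nil))) .nil)))),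
 (.br (nat_lit 11) (nat_lit 1) (.cons (.br (nat_lit 12) (nat_lit 1) (.cons (.zr (nat_lit 928455084804267427336749056) (nat_lit 396142021497141585175677763585) (nat_lit 5) (nat_lit 0)) .nil)) (.cons (.ev (nat_lit 20282720297605830467887403368705) (nat_lit 1)) .nil))),
 (.br (nat_lit 9) (nat_lit 1) (.cons (.ev (nat_lit 310693935641242272387825921) (nat_lit 1)) (.cons (.br (nat_lit 11) (nat_lit 1) (.cons (.ev (nat_lit 79229376180969518239399870720) (nat_lit 1)) (.cons (.zr (nat_lit 928455029465161106081186560) (nat_lit 1218407446069619707609089) (nat_lit 5) (nat_lit 3)) .nil))) (.cons (.br (nat_lit 11) (nat_lit 1) (.cons (.br (nat_lit 12) (nat_lit 1) (.cons (.zr (nat_lit 237684487542937973493166309376) (nat_lit 2427333265683157943845120) (nat_lit 5) (nat_lit 6)) .nil)) (.cons (.ev (nat_lit 20282409608374109246985422831616) (nat_lit 1)) .nil))) .nil)))),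
 (.br (nat_lit 2) (nat_lit 1) (.cons (.ev (nat_lit 310693935641242272387825921) (nat_lit 1)) (.cons (.br (nat_lit 12) (nat_lit 1) (.cons (.zr (nat_lit 3650407738002309459805443) (nat_lit 397378752610607633400202264576) (nat_lit 10) (nat_lit 0)) (.cons (.ev (nat_lit 79229371458603035369737814016) (nat_lit 1)) .nil))) (.cons (.br (nat_lit 13) (nat_lit 1) (.cons (.ev (nat_lit 20283028587875450169340551430145) (nat_lit 2)) (.cons (.ev (nat_lit 20282409603651742764115794329856) (nat_lit 1)) .nil))) .nil)))),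
 (.br (nat_lit 11) (nat_lit 1) (.cons (.rf (nat_lit 3111) (nat_lit 493858305440582043680)) (.cons (.rf (nat_lit 3112) (nat_lit 493858305440582043680)) (.cons (.br (nat_lit 2) (nat_lit 1) (.cons (.zr (nat_lit 14222439680830064296704) (nat_lit 620178945462587345424351233) (nat_lit 5) (nat_lit 0)) (.cons (.br (nat_lit 9) (nat_lit 1) (.cons (.ev (nat_lit 4722438821942971662593) (nat_lit 1)) .nil)) (.cons (.br (nat_lit 9) (nat_lit 1) (.cons (.ev (nat_lit 4722438821942971662593) (nat_lit 1)) .nil)) .nil)))) .nil)))),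
 (.br (nat_lit 11) (nat_lit 1) (.cons (.rf (nat_lit 3111) (nat_lit 493858305440582043680)) (.cons (.rf (nat_lit 3112) (nat_lit 493858305440582043680)) (.cons (.rf (nat_lit 3113) (nat_lit 493858305440582043680)) (.cons (.br (nat_lit 11) (nat_lit 1) (.cons (.rf (nat_lit 3111) (nat_lit 493858305440582043680)) (.cons (.rf (nat_lit 3112) (nat_lit 493858305440582043680)) (.cons (.rf (nat_lit 3113) (nat_lit 493858305440582043680)) .nil)))) .nil))))),
 (.br (nat_lit 1) (nat_lit 1) (.cons (.ev (nat_lit 282574488338689) (nat_lit 1)) (.cons (.br (nat_lit 12) (nat_lit 1) (.cons (.ev (nat_lit 79229371440084234797206995201) (nat_lit 1)) (.cons (.kr (nat_lit 1208925819614629174706176) (nat_lit 79228162514264337593543950336) (nat_lit 10) (nat_lit 0)) (.cons (.ev (nat_lit 79229376162522774165690319105) (nat_lit 1)) .nil)))) (.cons (.rf (nat_lit 58) (nat_lit 12879911)) (.cons (.ev (nat_lit 4722438821942971662593) (nat_lit 1)) .nil))))),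
 (.br (nat_lit 12) (nat_lit 1) (.cons (.rf (nat_lit 3114) (nat_lit 493858305440582043680)) (.cons (.kr (nat_lit 1208925819614629174706176) (nat_lit 79228162514264337593543950336) (nat_lit 10) (nat_lit 0)) (.cons (.br (nat_lit 11) (nat_lit 1) (.cons (.ev (nat_lit 79537647542532709310466621696) (nat_lit 1)) (.cons (.zr (nat_lit 4835758618690737861230592) (nat_lit 396759782590964660683952619521) (nat_lit 5) (nat_lit 0)) (.cons (.zr (nat_lit 2417906979461479511818240) (nat_lit 238303457562435985496864718849) (nat_lit 5) (nat_lit 0)) .nil)))) .nil)))),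
 (.br (nat_lit 12) (nat_lit 1) (.cons (.rf (nat_lit 3114) (nat_lit 493858305440582043680)) (.cons (.rf (nat_lit 3115) (nat_lit 493858305440582043680)) (.cons (.rf (nat_lit 3116) (nat_lit 493858305440582043680)) (.cons (.br (nat_lit 12) (nat_lit 1) (.cons (.ev (nat_lit 79229371458603035369737814016) (nat_lit 1)) (.cons (.rf (nat_lit 3115) (nat_lit 493858305440582043680)) (.cons (.rf (nat_lit 3116) (nat_lit 493858305440582043680)) .nil)))) .nil))))),
 (.br (nat_lit 12) (nat_lit 1) (.cons (.rf (nat_lit 3114) (nat_lit 493858305440582043680)) (.cons (.kr (nat_lit 1208925819614629174706176) (nat_lit 79228162514264337593543950336) (nat_lit 10) (nat_lit 0)) (.cons (.br (nat_lit 1) (nat_lit 1) (.cons (.br (nat_lit 11) (nat_lit 1) (.cons (.zr (nat_lit 14222439680830064296704) (nat_lit 620178945462587345424351233) (nat_lit 5) (nat_lit 0)) .nil)) (.cons (.ev (nat_lit 79537656987481566361222643971) (nat_lit 2)) (.cons (.br (nat_lit 2) (nat_lit 1) (.cons (.zr (nat_lit 928455029465161106081186560) (nat_lit 1218407446069619707609089)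 (nat_lit 5) (nat_lit 3)) .nil)) .nil)))) .nil))))]

theorem c104 : chkAll C T R L104 (nat_lit 3091) = true := by decide +kernel

theorem l104 : (nat_lit 3091) + L104.length = (nat_lit 3119) := by decide +kernel

/-- part of the certificates -/
def L105 : List Prf := [(.br (nat_lit 12) (nat_lit 1) (.cons (.rf (nat_lit 3114) (nat_lit 493858305440582043680)) (.cons (.rf (nat_lit 3115) (nat_lit 493858305440582043680)) (.cons (.rf (nat_lit 3118) (nat_lit 493858305440582043680)) (.cons (.br (nat_lit 12) (nat_lit 1) (.cons (.rf (nat_lit 3114) (nat_lit 493858305440582043680)) (.cons (.rf (nat_lit 3115) (nat_lit 493858305440582043680)) (.cons (.rf (nat_lit 3118) (nat_lit 493858305440582043680)) .nil)))) .nil))))),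
 (.br (nat_lit 12) (nat_lit 1) (.cons (.rf (nat_lit 3114) (nat_lit 493858305440582043680)) (.cons (.rf (nat_lit 3117) (nat_lit 493858305440582043680)) (.cons (.rf (nat_lit 3119) (nat_lit 493858305440582043680)) (.cons (.br (nat_lit 12) (nat_lit 1) (.cons (.rf (nat_lit 3114) (nat_lit 493858305440582043680)) (.cons (.rf (nat_lit 3117) (nat_lit 493858305440582043680)) (.cons (.rf (nat_lit 3119) (nat_lit 493858305440582043680)) .nil)))) .nil))))),
 (.br (nat_lit 8) (nat_lit 1) (.cons (.ev (nat_lit 282574488338689) (nat_lit 1)) (.cons (.rf (nat_lit 3102) (nat_lit 493858305440582043680)) (.cons (.rf (nat_lit 3107) (nat_lit 493858305440582043680)) (.cons (.br (nat_lit 1) (nat_lit 1) (.cons (.rf (nat_lit 1593) (nat_lit 424373658689)) (.cons (.rf (nat_lit 1593) (nat_lit 424373651745)) (.cons (.rf (nat_lit 3108) (nat_lit 493858305440582043680)) (.cons (.rf (nat_lit 3108) (nat_lit 492741412732994160672)) (.cons (.br (nat_lit 2) (nat_lit 1) (.cons (.kr (nat_lit 4722366482869645213952) (nat_lit 16842752) (nat_lit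 1) (nat_lit 0)) (.cons (.rf (nat_lit 3109) (nat_lit 493858305440582043680)) (.cons (.rf (nat_lit 3109) (nat_lit 492741412732994160672)) (.cons (.br (nat_lit 9) (nat_lit 1) (.cons (.rf (nat_lit 3110) (nat_lit 493858305440582043680)) (.cons (.rf (nat_lit 3110) (nat_lit 492741412732994160672)) (.cons (.ev (nat_lit 4722438821942971662593) (nat_lit 1)) .nil)))) .nil))))) .nil)))))) (.cons (.br (nat_lit 12) (nat_lit 1) (.cons (.rf (nat_lit 3114) (nat_lit 493858305440582043680)) (.cons (.rf (nat_lit 3117) (nat_lit 493858305440582043680)) (.cons (.rf (nat_lit 3119) (nat_lit 493858305440582043680)) (.cons (.rf (nat_lit 3120) (nat_lit 493858305440582043680)) (.cons (.br (nat_lit 12) (nat_lit 1) (.cons (.rf (nat_lit 3114) (nat_lit 493858305440582043680)) (.cons (.rf (nat_lit 3117) (nat_lit 493858305440582043680)) (.cons (.rf (nat_lit 3119) (nat_lit 493858305440582043680)) (.cons (.rf (nat_lit 3120) (nat_lit 493858305440582043680)) .nil))))) .nil)))))) .nil)))))),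
 (.br (nat_lit 8) (nat_lit 1) (.cons (.ev (nat_lit 282574488338689) (nat_lit 1)) (.cons (.rf (nat_lit 3102) (nat_lit 493858305440582043680)) (.cons (.rf (nat_lit 3107) (nat_lit 493858305440582043680)) (.cons (.rf (nat_lit 3121) (nat_lit 493858305440582043680)) (.cons (.rf (nat_lit 3121) (nat_lit 492741412732994160672)) (.cons (.br (nat_lit 8) (nat_lit 1) (.cons (.ev (nat_lit 282574488338689) (nat_lit 1)) (.cons (.rf (nat_lit 3102) (nat_lit 493858305440582043680)) (.cons (.rf (nat_lit 3107) (nat_lit 493858305440582043680)) (.cons (.rf (nat_lit 3121) (nat_lit 493858305440582043680)) (.cons (.rf (nat_lit 3121) (nat_lit 492741412732994160672)) .nil)))))) .nil))))))),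
 (.br (nat_lit 2) (nat_lit 1) (.cons (.rf (nat_lit 31) (nat_lit 377529570)) (.cons (.rf (nat_lit 2594) (nat_lit 12223519809)) (.cons (.br (nat_lit 7) (nat_lit 1) (.cons (.ev (nat_lit 310693954087986346097377536) (nat_lit 1)) (.cons (.rf (nat_lit 84) (nat_lit 12092480577)) (.cons (.br (nat_lit 11) (nat_lit 1) (.cons (.ev (nat_lit 79538870672417317199162769920) (nat_lit 2)) (.cons (.br (nat_lit 12) (nat_lit 1) (.cons (.ev (nat_lit 79538856468352041369448022273) (nat_lit 1)) .nil)) .nil))) .nil)))) (.cons (.br (nat_lit 7) (nat_lit 1) (.cons (.ev (nat_lit 4722438821942971662593) (nat_lit 1)) (.cons (.br (nat_lit 11) (nat_lit 1) (.cons (.zr (nat_lit 9463395882595113894657) (nat_lit 237993972552614361152220037120) (nat_lit 10) (nat_lit 0)) (.cons (.br (nat_lit 12) (nat_lit 1) (.cons (.ev (nat_lit 79537652264899192180128677888) (nat_lit 1)) .nil)) .nil))) (.cons (.br (nat_lit 11) (nat_lit 1) (.cons (.br (nat_lit 12) (nat_lit 1) (.cons (.ev (nat_lit 79229371440156291296028262401) (nat_lit 1)) .nil)) (.cons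 (.ev (nat_lit 20282720297642723673468957753856) (nat_lit 2)) .nil))) .nil)))) .nil))))),
 (.br (nat_lit 7) (nat_lit 1) (.cons (.ev (nat_lit 4722438821942971662593) (nat_lit 1)) (.cons (.br (nat_lit 11) (nat_lit 1) (.cons (.ev (nat_lit 79538856449977355984993058816) (nat_lit 1)) (.cons (.br (nat_lit 12) (nat_lit 1) (.cons (.zr (nat_lit 4722510879532697912577) (nat_lit 79538856449905298403890298880) (nat_lit 10) (nat_lit 0)) .nil)) .nil))) (.cons (.br (nat_lit 11) (nat_lit 1) (.cons (.br (nat_lit 12) (nat_lit 1) (.cons (.ev (nat_lit 79229371440156291296028262401) (nat_lit 1)) .nil)) (.cons (.ev (nat_lit 20282720297642723673468957753856) (nat_lit 2)) .nil))) .nil)))),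
 (.br (nat_lit 11) (nat_lit 1) (.cons (.zr (nat_lit 928455029464039604220855552) (nat_lit 1208962713384255915950081) (nat_lit 5) (nat_lit 4)) (.cons (.ev (nat_lit 20282720302328124892067777282305) (nat_lit 1)) .nil))),
 (.br (nat_lit 7) (nat_lit 1) (.cons (.ev (nat_lit 311902898498462448999268865) (nat_lit 2)) (.cons (.br (nat_lit 11) (nat_lit 1) (.cons (.ev (nat_lit 79229376180969518239399870720) (nat_lit 1)) (.cons (.rf (nat_lit 2944) (nat_lit 458117738624929897504)) .nil))) (.cons (.br (nat_lit 12) (nat_lit 1) (.cons (.br (nat_lit 12) (nat_lit 1) (.cons (.ev (nat_lit 79538861190790582928364536065) (nat_lit 1)) .nil)) (.cons (.ev (nat_lit 20282410812577490039675954462721) (nat_lit 1)) .nil))) .nil)))),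
 (.br (nat_lit 2) (nat_lit 1) (.cons (.ev (nat_lit 311902898498462448999268865) (nat_lit 2)) (.cons (.br (nat_lit 12) (nat_lit 1) (.cons (.zr (nat_lit 4859371171681026433352964) (nat_lit 399854632689178122366367039488) (nat_lit 30) (nat_lit 0)) (.cons (.ev (nat_lit 79228162532783140360803123201) (nat_lit 1)) .nil))) (.cons (.rf (nat_lit 2880) (nat_lit 458106198148672331050)) .nil)))),
 (.br (nat_lit 11) (nat_lit 1) (.cons (.rf (nat_lit 3126) (nat_lit 493858305440582043680)) (.cons (.rf (nat_lit 3127) (nat_lit 493858305440582043680)) (.cons (.br (nat_lit 7) (nat_lit 1) (.cons (.br (nat_lit 12) (nat_lit 1) (.cons (.ev (nat_lit 79538861190790582928364536065) (nat_lit 1)) .nil)) (.cons (.br (nat_lit 2) (nat_lit 1) (.cons (.ev (nat_lit 4722438821942971662593) (nat_lit 1)) .nil)) (.cons (.ev (nat_lit 310693935713298771209093121) (nat_lit 1)) .nil)))) .nil)))),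
 (.br (nat_lit 11) (nat_lit 1) (.cons (.rf (nat_lit 3126) (nat_lit 493858305440582043680)) (.cons (.rf (nat_lit 3127) (nat_lit 493858305440582043680)) (.cons (.rf (nat_lit 3128) (nat_lit 493858305440582043680)) (.cons (.br (nat_lit 11) (nat_lit 1) (.cons (.rf (nat_lit 3126) (nat_lit 493858305440582043680)) (.cons (.rf (nat_lit 3127) (nat_lit 493858305440582043680)) (.cons (.rf (nat_lit 3128) (nat_lit 493858305440582043680)) .nil)))) .nil))))),
 (.br (nat_lit 1) (nat_lit 1) (.cons (.br (nat_lit 11) (nat_lit 1) (.cons (.ev (nat_lit 79228162514264337597838983424) (nat_lit 1)) (.cons (.br (nat_lit 12) (nat_lit 1) (.cons (.ev (nat_lit 20837935210540679970313379972868) (nat_lit 3)) .nil)) .nil))) (.cons (.rf (nat_lit 58) (nat_lit 12814377)) (.cons (.ev (nat_lit 4722438821942971662593) (nat_lit 1)) .nil)))),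
 (.br (nat_lit 12) (nat_lit 1) (.cons (.rf (nat_lit 3129) (nat_lit 493858305440582043680)) (.cons (.rf (nat_lit 3130) (nat_lit 493858305440582043680)) (.cons (.br (nat_lit 1) (nat_lit 1) (.cons (.ev (nat_lit 79228162532783140360803123201) (nat_lit 1)) (.cons (.br (nat_lit 7) (nat_lit 1) (.cons (.ev (nat_lit 21473629500490149451179597040386) (nat_lit 4)) .nil)) (.cons (.br (nat_lit 7) (nat_lit 1) (.cons (.zr (nat_lit 928455029464039604220855552) (nat_lit 1208962713384255915950081) (nat_lit 5) (nat_lit 4)) .nil)) .nil)))) .nil)))),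
 (.br (nat_lit 12) (nat_lit 1) (.cons (.rf (nat_lit 3129) (nat_lit 493858305440582043680)) (.cons (.rf (nat_lit 3130) (nat_lit 493858305440582043680)) (.cons (.rf (nat_lit 3131) (nat_lit 493858305440582043680)) (.cons (.br (nat_lit 12) (nat_lit 1) (.cons (.rf (nat_lit 3129) (nat_lit 493858305440582043680)) (.cons (.rf (nat_lit 3130) (nat_lit 493858305440582043680)) (.cons (.rf (nat_lit 3131) (nat_lit 493858305440582043680)) .nil)))) .nil))))),
 (.br (nat_lit 12) (nat_lit 1) (.cons (.rf (nat_lit 3129) (nat_lit 493858305440582043680)) (.cons (.rf (nat_lit 3132) (nat_lit 493858305440582043680)) (.cons (.br (nat_lit 11) (nat_lit 1) (.cons (.br (nat_lit 2) (nat_lit 1) (.cons (.ev (nat_lit 79540070116538704013000114945) (nat_lit 2)) .nil)) (.cons (.br (nat_lit 1) (nat_lit 1) (.cons (.ev (nat_lit 20837321095150529358695919583488) (nat_lit 3)) .nil)) (.cons (.kr (nat_lit 618970019642971612426272768) (nat_lit 20361637770888301244410440450048) (nat_lit 6) (nat_lit 0)) .nil)))) .nil)))),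
 (.br (nat_lit 12) (nat_lit 1) (.cons (.rf (nat_lit 3129) (nat_lit 493858305440582043680)) (.cons (.rf (nat_lit 3132) (nat_lit 493858305440582043680)) (.cons (.rf (nat_lit 3133) (nat_lit 493858305440582043680)) (.cons (.br (nat_lit 12) (nat_lit 1) (.cons (.rf (nat_lit 3129) (nat_lit 493858305440582043680)) (.cons (.rf (nat_lit 3132) (nat_lit 493858305440582043680)) (.cons (.rf (nat_lit 3133) (nat_lit 493858305440582043680)) .nil)))) .nil))))),
 (.br (nat_lit 12) (nat_lit 1) (.cons (.rf (nat_lit 3129) (nat_lit 493858305440582043680)) (.cons (.rf (nat_lit 3132) (nat_lit 493858305440582043680)) (.cons (.rf (nat_lit 3134) (nat_lit 493858305440582043680)) (.cons (.br (nat_lit 12) (nat_lit 1) (.cons (.rf (nat_lit 3129) (nat_lit 493858305440582043680)) (.cons (.rf (nat_lit 3132) (nat_lit 493858305440582043680)) (.cons (.rf (nat_lit 3134) (nat_lit 493858305440582043680)) .nil)))) .nil))))),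
 (.br (nat_lit 8) (nat_lit 1) (.cons (.ev (nat_lit 282574488338689) (nat_lit 1)) (.cons (.rf (nat_lit 3102) (nat_lit 493858305440582043680)) (.cons (.rf (nat_lit 3122) (nat_lit 493858305440582043680)) (.cons (.br (nat_lit 1) (nat_lit 1) (.cons (.ev (nat_lit 1208944266358707179290881) (nat_lit 1)) (.cons (.rf (nat_lit 1593) (nat_lit 424440760545)) (.cons (.rf (nat_lit 3123) (nat_lit 493858305440582043680)) (.cons (.rf (nat_lit 3123) (nat_lit 492741412732994160672)) (.cons (.br (nat_lit 2) (nat_lit 1) (.cons (.rf (nat_lit 1593) (nat_lit 424440759522)) (.cons (.rf (nat_lit 3124) (nat_lit 493858305440582043680)) (.cons (.rf (nat_lit 3124) (nat_lit 492741412732994160672)) (.cons (.br (nat_lit 7) (nat_lit 1) (.cons (.rf (nat_lit 3125) (nat_lit 493858305440582043680)) (.cons (.rf (nat_lit 3125) (nat_lit 492741412732994160672)) (.cons (.ev (nat_lit 4722438821942971662593) (nat_lit 1)) .nil)))) .nil))))) .nil)))))) (.cons (.br (nat_lit 12) (nat_lit 1) (.cons (.rf (nat_lit 3129) (nat_lit 493858305440582043680))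 (.cons (.rf (nat_lit 3132) (nat_lit 493858305440582043680)) (.cons (.rf (nat_lit 3134) (nat_lit 493858305440582043680)) (.cons (.rf (nat_lit 3135) (nat_lit 493858305440582043680)) (.cons (.br (nat_lit 12) (nat_lit 1) (.cons (.rf (nat_lit 3129) (nat_lit 493858305440582043680)) (.cons (.rf (nat_lit 3132) (nat_lit 493858305440582043680)) (.cons (.rf (nat_lit 3134) (nat_lit 493858305440582043680)) (.cons (.rf (nat_lit 3135) (nat_lit 493858305440582043680)) .nil))))) .nil)))))) .nil)))))),
 (.br (nat_lit 8) (nat_lit 1) (.cons (.ev (nat_lit 282574488338689) (nat_lit 1)) (.cons (.rf (nat_lit 3102) (nat_lit 493858305440582043680)) (.cons (.rf (nat_lit 3122) (nat_lit 493858305440582043680)) (.cons (.rf (nat_lit 3136) (nat_lit 493858305440582043680)) (.cons (.rf (nat_lit 3136) (nat_lit 492741412732994160672)) (.cons (.br (nat_lit 8) (nat_lit 1) (.cons (.ev (nat_lit 282574488338689) (nat_lit 1)) (.cons (.rf (nat_lit 3102) (nat_lit 493858305440582043680)) (.cons (.rf (nat_lit 3122) (nat_lit 493858305440582043680))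 (.cons (.rf (nat_lit 3136) (nat_lit 493858305440582043680)) (.cons (.rf (nat_lit 3136) (nat_lit 492741412732994160672)) .nil)))))) .nil))))))),
 (.br (nat_lit 9) (nat_lit 1) (.cons (.rf (nat_lit 29) (nat_lit 11836481)) (.cons (.br (nat_lit 11) (nat_lit 1) (.cons (.ev (nat_lit 79229371440084234797206995201) (nat_lit 1)) (.cons (.zr (nat_lit 928469196563483815109985024) (nat_lit 1208962713385355393892353) (nat_lit 5) (nat_lit 10)) .nil))) (.cons (.br (nat_lit 11) (nat_lit 1) (.cons (.zr (nat_lit 928469196563483815109985024) (nat_lit 1208962713385355393892353) (nat_lit 5) (nat_lit 10)) (.cons (.ev (nat_lit 20282720302328124892067777282305) (nat_lit 1)) .nil))) .nil)))),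
 (.br (nat_lit 9) (nat_lit 1) (.cons (.rf (nat_lit 29) (nat_lit 11831521)) (.cons (.br (nat_lit 11) (nat_lit 1) (.cons (.ev (nat_lit 79229376180969518239399870720) (nat_lit 1)) (.cons (.zr (nat_lit 928469196563483815109985024) (nat_lit 1208962713385355393892353) (nat_lit 5) (nat_lit 10)) .nil))) (.cons (.br (nat_lit 11) (nat_lit 1) (.cons (.zr (nat_lit 928469196563483815109985024) (nat_lit 1208962713385355393892353) (nat_lit 5) (nat_lit 10)) (.cons (.ev (nat_lit 20282720297605830467887403368705) (nat_lit 1)) .nil))) .nil)))),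
 (.br (nat_lit 9) (nat_lit 1) (.cons (.br (nat_lit 12) (nat_lit 1) (.cons (.ev (nat_lit 310698676526525714580701440) (nat_lit 1)) (.cons (.zr (nat_lit 237684501709892461389567492864) (nat_lit 1208962713385355393892353) (nat_lit 5) (nat_lit 10)) .nil))) (.cons (.br (nat_lit 12) (nat_lit 1) (.cons (.ev (nat_lit 79849559830280070464983335425) (nat_lit 2)) (.cons (.ev (nat_lit 79538856468352041369448022273) (nat_lit 1)) .nil))) (.cons (.ev (nat_lit 79229371440084234797206995201) (nat_lit 1)) (.cons (.br (nat_lit 7) (nat_lit 1) (.cons (.br (nat_lit 12) (nat_lit 1) (.cons (.ev (nat_lit 20837940046243957307345398597376) (nat_lit 3)) .nil)) (.cons (.zr (nat_lit 237684501709892461389567492864) (nat_lit 1208962713385355393892353) (nat_lit 5) (nat_lit 10)) (.cons (.br (nat_lit 11) (nat_lit 1) (.cons (.ev (nat_lit 20681345504866962644623753678598) (nat_lit 4)) .nil)) .nil)))) .nil))))),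
 (.br (nat_lit 2) (nat_lit 1) (.cons (.br (nat_lit 12) (nat_lit 1) (.cons (.zr (nat_lit 237684487542793012780665602048) (nat_lit 1208962713385355377115137) (nat_lit 5) (nat_lit 10)) (.cons (.zr (nat_lit 237684501709892461389567492864) (nat_lit 1208962713385355393892353) (nat_lit 5) (nat_lit 10)) .nil))) (.cons (.br (nat_lit 9) (nat_lit 1) (.cons (.zr (nat_lit 237684487542793012780665602048) (nat_lit 1208962713385355377115137) (nat_lit 5) (nat_lit 10)) (.cons (.br (nat_lit 12) (nat_lit 1) (.cons (.ev (nat_lit 20837940055688834386048072353536) (nat_lit 3)) .nil)) .nil))) (.cons (.rf (nat_lit 3140) (nat_lit 493858305440582043680)) (.cons (.br (nat_lit 12) (nat_lit 1) (.cons (.br (nat_lit 11) (nat_lit 1) (.cons (.ev (nat_lit 159077717659142626505459302914) (nat_lit 2)) .nil)) (.cons (.br (nat_lit 9) (nat_lit 1) (.cons (.ev (nat_lit 20681345495423238469799274155782) (nat_lit 4)) .nil)) (.cons (.ev (nat_lit 20282412021540419316334207303681) (nat_lit 2)) .nil)))) .nil))))),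
 (.br (nat_lit 12) (nat_lit 1) (.cons (.ev (nat_lit 79229371440084234797206995201) (nat_lit 1)) (.cons (.rf (nat_lit 3141) (nat_lit 493858305440582043680)) (.cons (.br (nat_lit 2) (nat_lit 1) (.cons (.zr (nat_lit 237684487542793012780665602048) (nat_lit 1208962713385355377115137) (nat_lit 5) (nat_lit 10)) (.cons (.br (nat_lit 7) (nat_lit 1) (.cons (.ev (nat_lit 20363809030087122028362868262658) (nat_lit 3)) .nil)) .nil))) (.cons (.br (nat_lit 2) (nat_lit 1) (.cons (.br (nat_lit 11) (nat_lit 1) (.cons (.ev (nat_lit 79538861190790582928364536065) (nat_lit 1)) .nil)) (.cons (.br (nat_lit 7) (nat_lit 1) (.cons (.ev (nat_lit 79538861190790582928364536065) (nat_lit 1)) .nil)) (.cons (.br (nat_lit 7) (nat_lit 1) (.cons (.ev (nat_lit 21315170823870541016220351791886) (nat_lit 4)) .nil)) .nil)))) .nil)))))]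

theorem c105 : chkAll C T R L105 (nat_lit 3119) = true := by decide +kernel

theorem l105 : (nat_lit 3119) + L105.length = (nat_lit 3143) := by decide +kernel

/-- part of the certificates -/
def L106 : List Prf := [(.br (nat_lit 12) (nat_lit 1) (.cons (.rf (nat_lit 3140) (nat_lit 493858305440582043680)) (.cons (.rf (nat_lit 3141) (nat_lit 493858305440582043680)) (.cons (.rf (nat_lit 3142) (nat_lit 493858305440582043680)) (.cons (.br (nat_lit 13) (nat_lit 1) (.cons (.br (nat_lit 7) (nat_lit 1) (.cons (.zr (nat_lit 928455029680770938241744896) (nat_lit 158457548121447739529021620225) (nat_lit 5) (nat_lit 0)) .nil)) (.cons (.ev (nat_lit 79229371440156291296028262401) (nat_lit 1)) (.cons (.ev (nat_lit 79538861190718524239109947393) (nat_lit 1)) .nil)))) .nil))))),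
 (.br (nat_lit 12) (nat_lit 1) (.cons (.rf (nat_lit 3140) (nat_lit 493858305440582043680)) (.cons (.rf (nat_lit 3141) (nat_lit 493858305440582043680)) (.cons (.rf (nat_lit 3142) (nat_lit 493858305440582043680)) (.cons (.rf (nat_lit 3143) (nat_lit 493858305440582043680)) (.cons (.br (nat_lit 12) (nat_lit 1) (.cons (.rf (nat_lit 3140) (nat_lit 493858305440582043680)) (.cons (.rf (nat_lit 3141) (nat_lit 493858305440582043680)) (.cons (.rf (nat_lit 3142) (nat_lit 493858305440582043680)) (.cons (.rf (nat_lit 3143) (nat_lit 493858305440582043680)) .nil))))) .nil)))))),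
 (.br (nat_lit 11) (nat_lit 1) (.cons (.zr (nat_lit 928455029464035206208094208) (nat_lit 1208962713385355377115137) (nat_lit 5) (nat_lit 10)) (.cons (.ev (nat_lit 20282410817318375323118113652736) (nat_lit 1)) .nil))),
 (.br (nat_lit 9) (nat_lit 1) (.cons (.br (nat_lit 11) (nat_lit 1) (.cons (.zr (nat_lit 928469196563483815109985024) (nat_lit 1208962713385355393892353) (nat_lit 5) (nat_lit 10)) (.cons (.ev (nat_lit 20282410812596008840248485282048) (nat_lit 1)) .nil))) (.cons (.br (nat_lit 7) (nat_lit 1) (.cons (.ev (nat_lit 310698658079781640871149825) (nat_lit 1)) (.cons (.rf (nat_lit 82) (nat_lit 9037915201)) .nil))) (.cons (.br (nat_lit 7) (nat_lit 1) (.cons (.zr (nat_lit 928469196563483815109985024) (nat_lit 1208962713385355393892353) (nat_lit 5) (nat_lit 10)) (.cons (.zr (nat_lit 237684487542793012780665602048) (nat_lit 1208962713385355377115137) (nat_lit 5) (nat_lit 10)) (.cons (.br (nat_lit 11) (nat_lit 1) (.cons (.ev (nat_lit 20839177986246206207959916282118) (nat_lit 3)) .nil)) .nil))))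 (.cons (.ev (nat_lit 20282410817318303266619292385536) (nat_lit 1)) .nil))))),
 (.br (nat_lit 8) (nat_lit 1) (.cons (.ev (nat_lit 282574488338689) (nat_lit 1)) (.cons (.rf (nat_lit 3102) (nat_lit 493858305440582043680)) (.cons (.rf (nat_lit 3122) (nat_lit 493858305440582043680)) (.cons (.rf (nat_lit 3137) (nat_lit 493858305440582043680)) (.cons (.br (nat_lit 1) (nat_lit 1) (.cons (.br (nat_lit 7) (nat_lit 1) (.cons (.zr (nat_lit 18591140736762249472) (nat_lit 1213648186098602643292161) (nat_lit 5) (nat_lit 0)) (.cons (.rf (nat_lit 3138) (nat_lit 493858305440582043680)) (.cons (.rf (nat_lit 3138) (nat_lit 492741412732994160672)) (.cons (.ev (nat_lit 1208944338417396433879041) (nat_lit 1)) .nil))))) (.cons (.br (nat_lit 2) (nat_lit 1) (.cons (.rf (nat_lit 246) (nat_lit 423432063201)) (.cons (.rf (nat_lit 3139) (nat_lit 493858305440582043680)) (.cons (.rf (nat_lit 3139) (nat_lit 492741412732994160672)) (.cons (.ev (nat_lit 1208944338417396433879041) (nat_lit 1)) .nil))))) (.cons (.ev (nat_lit 1213666632841576841216001)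 (nat_lit 1)) (.cons (.rf (nat_lit 3144) (nat_lit 493858305440582043680)) (.cons (.rf (nat_lit 3144) (nat_lit 492741412732994160672)) (.cons (.br (nat_lit 2) (nat_lit 1) (.cons (.br (nat_lit 9) (nat_lit 1) (.cons (.rf (nat_lit 3145) (nat_lit 493858305440582043680)) (.cons (.rf (nat_lit 3145) (nat_lit 492741412732994160672)) (.cons (.ev (nat_lit 20282410817318303266619292385536) (nat_lit 1)) .nil)))) (.cons (.kr (nat_lit 4722366482869645213952) (nat_lit 16842752) (nat_lit 1) (nat_lit 0)) (.cons (.rf (nat_lit 3146) (nat_lit 493858305440582043680)) (.cons (.rf (nat_lit 3146) (nat_lit 492741412732994160672)) (.cons (.ev (nat_lit 20282410812595936783749664014336) (nat_lit 1)) .nil)))))) .nil))))))) .nil)))))),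
 (.br (nat_lit 8) (nat_lit 1) (.cons (.ev (nat_lit 282574488338689) (nat_lit 1)) (.cons (.rf (nat_lit 3102) (nat_lit 493858305440582043680)) (.cons (.rf (nat_lit 3122) (nat_lit 493858305440582043680)) (.cons (.rf (nat_lit 3137) (nat_lit 493858305440582043680)) (.cons (.rf (nat_lit 3147) (nat_lit 493858305440582043680)) (.cons (.br (nat_lit 8) (nat_lit 1) (.cons (.ev (nat_lit 282574488338689) (nat_lit 1)) (.cons (.rf (nat_lit 3102) (nat_lit 493858305440582043680)) (.cons (.rf (nat_lit 3122) (nat_lit 493858305440582043680)) (.cons (.rf (nat_lit 3137) (nat_lit 493858305440582043680)) (.cons (.rf (nat_lit 3147) (nat_lit 493858305440582043680)) .nil)))))) .nil))))))),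
 (.br (nat_lit 10) (nat_lit 1) (.cons (.br (nat_lit 10) (nat_lit 1) (.cons (.br (nat_lit 9) (nat_lit 0) (.cons (.br (nat_lit 6) (nat_lit 1) (.cons (.br (nat_lit 8) (nat_lit 1) (.cons (.rf (nat_lit 3013) (nat_lit 493858305440582043680)) (.cons (.rf (nat_lit 3031) (nat_lit 493858305440582043680)) (.cons (.rf (nat_lit 3050) (nat_lit 493858305440582043680)) (.cons (.rf (nat_lit 3065) (nat_lit 493858305440582043680)) (.cons (.rf (nat_lit 3077) (nat_lit 493858305440582043680)) (.cons (.rf (nat_lit 3077) (nat_lit 492741412732994160672)) (.cons (.br (nat_lit 8) (nat_lit 1) (.cons (.rf (nat_lit 3013) (nat_lit 493858305440582043680)) (.cons (.rf (nat_lit 3031) (nat_lit 493858305440582043680)) (.cons (.rf (nat_lit 3050) (nat_lit 493858305440582043680)) (.cons (.rf (nat_lit 3065) (nat_lit 493858305440582043680)) (.cons (.rf (nat_lit 3077) (nat_lit 493858305440582043680)) (.cons (.rf (nat_lit 3077) (nat_lit 492741412732994160672)) .nil))))))) .nil)))))))) .nil)) (.cons (.br (nat_lit 3) (nat_lit 1) (.cons (.br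 (nat_lit 8) (nat_lit 1) (.cons (.ev (nat_lit 282574488338689) (nat_lit 1)) (.cons (.rf (nat_lit 3102) (nat_lit 493858305440582043680)) (.cons (.rf (nat_lit 3122) (nat_lit 493858305440582043680)) (.cons (.rf (nat_lit 3137) (nat_lit 493858305440582043680)) (.cons (.rf (nat_lit 3148) (nat_lit 493858305440582043680)) (.cons (.rf (nat_lit 3148) (nat_lit 492741412732994160672)) (.cons (.br (nat_lit 8) (nat_lit 1) (.cons (.ev (nat_lit 282574488338689) (nat_lit 1)) (.cons (.rf (nat_lit 3102) (nat_lit 493858305440582043680)) (.cons (.rf (nat_lit 3122) (nat_lit 493858305440582043680)) (.cons (.rf (nat_lit 3137) (nat_lit 493858305440582043680)) (.cons (.rf (nat_lit 3148) (nat_lit 493858305440582043680)) (.cons (.rf (nat_lit 3148) (nat_lit 492741412732994160672)) .nil))))))) .nil)))))))) .nil)) .nil))) .nil)) .nil)),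
 (.br (nat_lit 12) (nat_lit 1) (.cons (.ev (nat_lit 79229371458603035369737814016) (nat_lit 1)) (.cons (.ev (nat_lit 79229371440156291296028262401) (nat_lit 1)) .nil))),
 (.br (nat_lit 8) (nat_lit 1) (.cons (.rf (nat_lit 84) (nat_lit 13262429257)) (.cons (.rf (nat_lit 84) (nat_lit 12222504001)) (.cons (.br (nat_lit 11) (nat_lit 1) (.cons (.rf (nat_lit 3150) (nat_lit 493858305440582043680)) (.cons (.br (nat_lit 11) (nat_lit 1) (.cons (.rf (nat_lit 3150) (nat_lit 493858305440582043680)) .nil)) .nil))) .nil)))),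
 (.br (nat_lit 12) (nat_lit 1) (.cons (.ev (nat_lit 79228167236703160631715495936) (nat_lit 1)) (.cons (.ev (nat_lit 79229371440156291296028262401) (nat_lit 1)) .nil))),
 (.br (nat_lit 11) (nat_lit 1) (.cons (.rf (nat_lit 84) (nat_lit 13164944425)) (.cons (.rf (nat_lit 84) (nat_lit 9004424226)) (.cons (.br (nat_lit 8) (nat_lit 1) (.cons (.rf (nat_lit 3152) (nat_lit 493858305440582043680)) (.cons (.br (nat_lit 8) (nat_lit 1) (.cons (.rf (nat_lit 3152) (nat_lit 493858305440582043680)) .nil)) .nil))) .nil)))),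
 (.br (nat_lit 13) (nat_lit 1) (.cons (.ev (nat_lit 20282410812577562377649735598081) (nat_lit 1)) (.cons (.br (nat_lit 9) (nat_lit 1) (.cons (.rf (nat_lit 2012) (nat_lit 339296446451914791)) (.cons (.rf (nat_lit 2012) (nat_lit 339190896523319367)) (.cons (.ev (nat_lit 40644048592910597151848931524866) (nat_lit 2)) .nil)))) .nil))),
 (.br (nat_lit 13) (nat_lit 1) (.cons (.br (nat_lit 13) (nat_lit 1) (.cons (.ev (nat_lit 20282410812577562377649735598081) (nat_lit 1)) (.cons (.ev (nat_lit 20282409608374109246985422831616) (nat_lit 1)) .nil))) (.cons (.rf (nat_lit 3154) (nat_lit 493858305440582043680)) (.cons (.br (nat_lit 13) (nat_lit 1) (.cons (.ev (nat_lit 20282409608374109246985422831616) (nat_lit 1)) (.cons (.rf (nat_lit 3154) (nat_lit 493858305440582043680)) .nil))) .nil)))),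
 (.br (nat_lit 8) (nat_lit 1) (.cons (.br (nat_lit 11) (nat_lit 1) (.cons (.ev (nat_lit 80160249062000444734437392386) (nat_lit 2)) (.cons (.br (nat_lit 12) (nat_lit 1) (.cons (.ev (nat_lit 20678862352270219025687574414596) (nat_lit 3)) .nil)) .nil))) (.cons (.rf (nat_lit 3155) (nat_lit 493858305440582043680)) .nil))),
 (.br (nat_lit 8) (nat_lit 1) (.cons (.rf (nat_lit 3156) (nat_lit 493858305440582043680)) (.cons (.br (nat_lit 8) (nat_lit 1) (.cons (.rf (nat_lit 3156) (nat_lit 493858305440582043680)) (.cons (.rf (nat_lit 3155) (nat_lit 493858305440582043680)) .nil))) (.cons (.rf (nat_lit 3155) (nat_lit 493858305440582043680)) .nil)))),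
 (.br (nat_lit 13) (nat_lit 1) (.cons (.rf (nat_lit 3155) (nat_lit 493858305440582043680)) (.cons (.rf (nat_lit 3157) (nat_lit 493858305440582043680)) (.cons (.br (nat_lit 13) (nat_lit 1) (.cons (.rf (nat_lit 3155) (nat_lit 493858305440582043680)) (.cons (.rf (nat_lit 3157) (nat_lit 493858305440582043680)) .nil))) .nil)))),
 (.br (nat_lit 13) (nat_lit 1) (.cons (.rf (nat_lit 3155) (nat_lit 493858305440582043680)) (.cons (.rf (nat_lit 3157) (nat_lit 493858305440582043680)) (.cons (.rf (nat_lit 3158) (nat_lit 493858305440582043680)) (.cons (.br (nat_lit 13) (nat_lit 1) (.cons (.rf (nat_lit 3155) (nat_lit 493858305440582043680)) (.cons (.rf (nat_lit 3157) (nat_lit 493858305440582043680)) (.cons (.rf (nat_lit 3158) (nat_lit 493858305440582043680)) .nil)))) .nil))))),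
 (.br (nat_lit 7) (nat_lit 1) (.cons (.br (nat_lit 9) (nat_lit 1) (.cons (.rf (nat_lit 58) (nat_lit 8690753)) (.cons (.rf (nat_lit 1343) (nat_lit 423430988834)) (.cons (.rf (nat_lit 3151) (nat_lit 493858305440582043680)) (.cons (.rf (nat_lit 3151) (nat_lit 458117738797769787424)) .nil))))) (.cons (.kr (nat_lit 281474976710656) (nat_lit 4722366482869645213696) (nat_lit 6) (nat_lit 0)) (.cons (.br (nat_lit 9) (nat_lit 1) (.cons (.rf (nat_lit 1343) (nat_lit 423433083938)) (.cons (.rf (nat_lit 58) (nat_lit 11836450)) (.cons (.rf (nat_lit 3153) (nat_lit 493858305440582043680)) (.cons (.rf (nat_lit 3153) (nat_lit 458117738797769787424)) .nil))))) (.cons (.rf (nat_lit 3159) (nat_lit 493858305440582043680)) (.cons (.rf (nat_lit 3159) (nat_lit 458117738797769787424)) .nil)))))),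
 (.br (nat_lit 1) (nat_lit 1) (.cons (.rf (nat_lit 1982) (nat_lit 10604079103450144)) (.cons (.ev (nat_lit 282574488338689) (nat_lit 1)) (.cons (.rf (nat_lit 1627) (nat_lit 470979746964512)) (.cons (.rf (nat_lit 3160) (nat_lit 493858305440582043680)) (.cons (.rf (nat_lit 3160) (nat_lit 492741412732994160672)) (.cons (.rf (nat_lit 3160) (nat_lit 455883953382594021408)) .nil))))))),
 (.br (nat_lit 11) (nat_lit 1) (.cons (.rf (nat_lit 2594) (nat_lit 12221424705)) (.cons (.rf (nat_lit 2594) (nat_lit 12221417761)) (.cons (.br (nat_lit 2) (nat_lit 1) (.cons (.ev (nat_lit 309489750706912180605878273) (nat_lit 1)) (.cons (.br (nat_lit 13) (nat_lit 1) (.cons (.ev (nat_lit 1213648186378978091663616) (nat_lit 1)) .nil)) (.cons (.br (nat_lit 12) (nat_lit 1) (.cons (.ev (nat_lit 1213648186378978091663616) (nat_lit 1)) (.cons (.zr (nat_lit 55340232221162405888) (nat_lit 158457533954348572395045912577) (nat_lit 5) (nat_lit 0)) .nil))) .nil)))) (.cons (.ev (nat_lit 310693954087986346097377536) (nat_lit 1)) .nil))))),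
 (.br (nat_lit 8) (nat_lit 1) (.cons (.rf (nat_lit 3161) (nat_lit 493858305440582043680)) (.cons (.rf (nat_lit 1637) (nat_lit 14718117094625)) (.cons (.rf (nat_lit 3162) (nat_lit 493858305440582043680)) (.cons (.rf (nat_lit 3162) (nat_lit 458117738797769787424)) .nil))))),
 (.br (nat_lit 11) (nat_lit 1) (.cons (.ev (nat_lit 79228167236703160631715495936) (nat_lit 1)) (.cons (.br (nat_lit 12) (nat_lit 1) (.cons (.zr (nat_lit 928469196779656597240545280) (nat_lit 158457533954348572395045913089) (nat_lit 5) (nat_lit 6)) .nil)) .nil))),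
 (.br (nat_lit 13) (nat_lit 1) (.cons (.ev (nat_lit 1213648186378978091663616) (nat_lit 1)) (.cons (.br (nat_lit 13) (nat_lit 1) (.cons (.ev (nat_lit 1213648186378978091663616) (nat_lit 1)) (.cons (.ev (nat_lit 79229371440084234797206995201) (nat_lit 1)) .nil))) (.cons (.ev (nat_lit 79229371440084234797206995201) (nat_lit 1)) .nil)))),
 (.br (nat_lit 8) (nat_lit 1) (.cons (.rf (nat_lit 3161) (nat_lit 493858305440582043680)) (.cons (.rf (nat_lit 1637) (nat_lit 14718117094625)) (.cons (.rf (nat_lit 3163) (nat_lit 493858305440582043680)) (.cons (.br (nat_lit 2) (nat_lit 1) (.cons (.rf (nat_lit 1593) (nat_lit 459807130914)) (.cons (.br (nat_lit 9) (nat_lit 1) (.cons (.ev (nat_lit 310693954160042844918644736) (nat_lit 1)) (.cons (.rf (nat_lit 3164) (nat_lit 493858305440582043680)) (.cons (.rf (nat_lit 3164) (nat_lit 458117738797769787424)) .nil)))) (.cons (.rf (nat_lit 3165) (nat_lit 493858305440582043680)) (.cons (.rf (nat_lit 3165) (nat_lit 458117738797769787424)) .nil))))) .nil))))),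
 (.br (nat_lit 8) (nat_lit 1) (.cons (.rf (nat_lit 3161) (nat_lit 493858305440582043680)) (.cons (.rf (nat_lit 1637) (nat_lit 14718117094625)) (.cons (.rf (nat_lit 3163) (nat_lit 493858305440582043680)) (.cons (.rf (nat_lit 3166) (nat_lit 493858305440582043680)) (.cons (.rf (nat_lit 3166) (nat_lit 458117738797769787424)) .nil)))))),
 (.br (nat_lit 1) (nat_lit 1) (.cons (.rf (nat_lit 1982) (nat_lit 10604079108687904)) (.cons (.ev (nat_lit 282574488338689) (nat_lit 1)) (.cons (.rf (nat_lit 1625) (nat_lit 14718117092641)) (.cons (.rf (nat_lit 3167) (nat_lit 493858305440582043680)) (.cons (.rf (nat_lit 3167) (nat_lit 492741412732994160672)) (.cons (.rf (nat_lit 3167) (nat_lit 455883953382594021408)) .nil))))))),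
 (.br (nat_lit 7) (nat_lit 1) (.cons (.kr (nat_lit 1099511627776) (nat_lit 18446744073709551616) (nat_lit 5) (nat_lit 0)) .nil)),
 (.br (nat_lit 8) (nat_lit 1) (.cons (.rf (nat_lit 3169) (nat_lit 9043225708576)) (.cons (.rf (nat_lit 3169) (nat_lit 9009939709986)) .nil))),
 (.br (nat_lit 2) (nat_lit 1) (.cons (.rf (nat_lit 31) (nat_lit 377529570)) (.cons (.rf (nat_lit 2594) (nat_lit 12223519809)) (.cons (.br (nat_lit 12) (nat_lit 1) (.cons (.ev (nat_lit 79228171996035189247146394115) (nat_lit 2)) (.cons (.ev (nat_lit 79228167236631101942460907776) (nat_lit 1)) (.cons (.ev (nat_lit 79229371440084234797206995201) (nat_lit 1)) .nil)))) (.cons (.br (nat_lit 7) (nat_lit 1) (.cons (.rf (nat_lit 84) (nat_lit 14238915618)) (.cons (.rf (nat_lit 3170) (nat_lit 14718124432449)) (.cons (.br (nat_lit 13) (nat_lit 1) (.cons (.ev (nat_lit 20282409603651670423951546319104) (nat_lit 1)) (.cons (.ev (nat_lit 20282410817299856522545582833921) (nat_lit 1)) .nil))) .nil)))) .nil))))),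
 (.br (nat_lit 11) (nat_lit 1) (.cons (.ev (nat_lit 311902898498462448999268865) (nat_lit 2)) (.cons (.ev (nat_lit 310693935641242272387825921) (nat_lit 1)) (.cons (.ev (nat_lit 309489732188109417641738496) (nat_lit 1)) .nil))))]

theorem c106 : chkAll C T R L106 (nat_lit 3143) = true := by decide +kernel

theorem l106 : (nat_lit 3143) + L106.length = (nat_lit 3173) := by decide +kernel

/-- part of the certificates -/
def L107 : List Prf := [(.br (nat_lit 13) (nat_lit 1) (.cons (.ev (nat_lit 20282410817318375323118113652736) (nat_lit 1)) (.cons (.ev (nat_lit 20282409603670189226714510458881) (nat_lit 1)) .nil))),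
 (.br (nat_lit 1) (nat_lit 1) (.cons (.rf (nat_lit 1593) (nat_lit 424440765505)) (.cons (.ev (nat_lit 4722366483969156841729) (nat_lit 1)) (.cons (.rf (nat_lit 3171) (nat_lit 493858305440582043680)) (.cons (.rf (nat_lit 3171) (nat_lit 492741412732994160672)) (.cons (.br (nat_lit 2) (nat_lit 1) (.cons (.rf (nat_lit 1593) (nat_lit 424440759522)) (.cons (.rf (nat_lit 3172) (nat_lit 493858305440582043680)) (.cons (.rf (nat_lit 3172) (nat_lit 492741412732994160672)) (.cons (.br (nat_lit 7) (nat_lit 1) (.cons (.rf (nat_lit 3173) (nat_lit 493858305440582043680)) (.cons (.rf (nat_lit 3173) (nat_lit 492741412732994160672)) (.cons (.zr (nat_lit 18519364617768402947) (nat_lit 101412049246073637669146841841920) (nat_lit 10) (nat_lit 0)) .nil)))) .nil))))) .nil)))))),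
 (.br (nat_lit 8) (nat_lit 1) (.cons (.ev (nat_lit 282574488338689) (nat_lit 1)) (.cons (.rf (nat_lit 3161) (nat_lit 493858305440582043680)) (.cons (.rf (nat_lit 3168) (nat_lit 493858305440582043680)) (.cons (.rf (nat_lit 3174) (nat_lit 493858305440582043680)) (.cons (.rf (nat_lit 3174) (nat_lit 458117738797769787424)) .nil)))))),
 (.br (nat_lit 8) (nat_lit 1) (.cons (.ev (nat_lit 282574488338689) (nat_lit 1)) (.cons (.rf (nat_lit 3161) (nat_lit 493858305440582043680)) (.cons (.rf (nat_lit 3168) (nat_lit 493858305440582043680)) (.cons (.rf (nat_lit 3175) (nat_lit 493858305440582043680)) (.cons (.rf (nat_lit 3175) (nat_lit 492741412732994160672)) (.cons (.rf (nat_lit 3175) (nat_lit 455883953382594021408)) .nil))))))),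
 (.br (nat_lit 11) (nat_lit 1) (.cons (.rf (nat_lit 31) (nat_lit 414484705)) (.cons (.ev (nat_lit 310698658007443667056328961) (nat_lit 1)) .nil))),
 (.br (nat_lit 9) (nat_lit 1) (.cons (.ev (nat_lit 310698676526244239587147776) (nat_lit 1)) (.cons (.rf (nat_lit 3177) (nat_lit 493858305440582043680)) (.cons (.rf (nat_lit 3177) (nat_lit 458117738797769787424)) .nil)))),
 (.br (nat_lit 12) (nat_lit 1) (.cons (.rf (nat_lit 31) (nat_lit 414419233)) (.cons (.zr (nat_lit 237684487542793012780665602048) (nat_lit 1208962713385355377115137) (nat_lit 5) (nat_lit 10)) .nil))),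
 (.br (nat_lit 7) (nat_lit 1) (.cons (.ev (nat_lit 311902898498462448999268865) (nat_lit 2)) (.cons (.rf (nat_lit 3179) (nat_lit 493858305440582043680)) (.cons (.rf (nat_lit 3179) (nat_lit 458117738797769787424)) .nil)))),
 (.br (nat_lit 11) (nat_lit 1) (.cons (.ev (nat_lit 310698676454187740765880576) (nat_lit 1)) (.cons (.br (nat_lit 12) (nat_lit 1) (.cons (.zr (nat_lit 928469196779656597240545280) (nat_lit 158457533954348572395045913089) (nat_lit 5) (nat_lit 6)) .nil)) .nil))),
 (.br (nat_lit 12) (nat_lit 1) (.cons (.ev (nat_lit 1213648186378978091663616) (nat_lit 1)) (.cons (.zr (nat_lit 237684487542793012780665602048) (nat_lit 1208962713385355377115137) (nat_lit 5) (nat_lit 10)) (.cons (.ev (nat_lit 20282410812577490321150914330881) (nat_lit 1)) .nil)))),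
 (.br (nat_lit 13) (nat_lit 1) (.cons (.rf (nat_lit 3182) (nat_lit 493858305440582043680)) (.cons (.br (nat_lit 2) (nat_lit 1) (.cons (.br (nat_lit 12) (nat_lit 1) (.cons (.zr (nat_lit 237684487542793012780665602048) (nat_lit 1208962713385355377115137) (nat_lit 5) (nat_lit 10)) .nil)) (.cons (.ev (nat_lit 1213648186378978091663616) (nat_lit 1)) (.cons (.rf (nat_lit 3182) (nat_lit 493858305440582043680)) .nil)))) (.cons (.br (nat_lit 13) (nat_lit 1) (.cons (.rf (nat_lit 3182) (nat_lit 493858305440582043680)) (.cons (.ev (nat_lit 310698676454187740765880576) (nat_lit 1)) (.cons (.br (nat_lit 2) (nat_lit 1) (.cons (.ev (nat_lit 79229376162450436191875498241) (nat_lit 1)) .nil)) .nil)))) (.cons (.br (nat_lit 2) (nat_lit 1) (.cons (.ev (nat_lit 79229376162450436191875498241) (nat_lit 1)) (.cons (.zr (nat_lit 237684487542793012780665602048) (nat_lit 1208962713385355377115137) (nat_lit 5) (nat_lit 10)) (.cons (.ev (nat_lit 20282410812577490321150914330881) (nat_lit 1)) .nil)))) .nil))))),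
 (.br (nat_lit 7) (nat_lit 1) (.cons (.br (nat_lit 9) (nat_lit 1) (.cons (.ev (nat_lit 310698676526244239587147776) (nat_lit 1)) (.cons (.rf (nat_lit 3181) (nat_lit 493858305440582043680)) (.cons (.rf (nat_lit 3181) (nat_lit 458117738797769787424)) .nil)))) (.cons (.kr (nat_lit 281474976710656) (nat_lit 4722366482869645213696) (nat_lit 6) (nat_lit 0)) (.cons (.ev (nat_lit 310693954087986346097377536) (nat_lit 1)) (.cons (.rf (nat_lit 3183) (nat_lit 493858305440582043680)) (.cons (.rf (nat_lit 3183) (nat_lit 458117738797769787424)) .nil)))))),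
 (.br (nat_lit 8) (nat_lit 1) (.cons (.ev (nat_lit 282574488338689) (nat_lit 1)) (.cons (.rf (nat_lit 3161) (nat_lit 493858305440582043680)) (.cons (.rf (nat_lit 3168) (nat_lit 493858305440582043680)) (.cons (.rf (nat_lit 3176) (nat_lit 493858305440582043680)) (.cons (.br (nat_lit 1) (nat_lit 1) (.cons (.ev (nat_lit 1208944266358707179290881) (nat_lit 1)) (.cons (.br (nat_lit 2) (nat_lit 1) (.cons (.ev (nat_lit 1208944338417396433879041) (nat_lit 1)) (.cons (.rf (nat_lit 3178) (nat_lit 493858305440582043680)) (.cons (.rf (nat_lit 3178) (nat_lit 492741412732994160672)) (.cons (.rf (nat_lit 3178) (nat_lit 455883953382594021408)) .nil))))) (.cons (.br (nat_lit 2) (nat_lit 1) (.cons (.zr (nat_lit 9463323825001075900928) (nat_lit 1208925819897207991566337) (nat_lit 5) (nat_lit 0)) (.cons (.rf (nat_lit 3180) (nat_lit 493858305440582043680)) (.cons (.rf (nat_lit 3180) (nat_lit 492741412732994160672)) (.cons (.rf (nat_lit 3180) (nat_lit 455883953382594021408)) .nil))))) (.cons (.rf (nat_lit 3184) (nat_lit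 493858305440582043680)) (.cons (.rf (nat_lit 3184) (nat_lit 492741412732994160672)) (.cons (.rf (nat_lit 3184) (nat_lit 455883953382594021408)) .nil))))))) .nil)))))),
 (.br (nat_lit 8) (nat_lit 1) (.cons (.ev (nat_lit 282574488338689) (nat_lit 1)) (.cons (.rf (nat_lit 3161) (nat_lit 493858305440582043680)) (.cons (.rf (nat_lit 3168) (nat_lit 493858305440582043680)) (.cons (.rf (nat_lit 3176) (nat_lit 493858305440582043680)) (.cons (.rf (nat_lit 3185) (nat_lit 493858305440582043680)) (.cons (.rf (nat_lit 3185) (nat_lit 458117738797769787424)) .nil))))))),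
 (.br (nat_lit 12) (nat_lit 1) (.cons (.zr (nat_lit 928469196779656597240545280) (nat_lit 158457533954348572395045913089) (nat_lit 5) (nat_lit 6)) .nil)),
 (.br (nat_lit 11) (nat_lit 1) (.cons (.rf (nat_lit 84) (nat_lit 13165103145)) (.cons (.rf (nat_lit 84) (nat_lit 9004419111)) (.cons (.br (nat_lit 8) (nat_lit 1) (.cons (.rf (nat_lit 3187) (nat_lit 493858305440582043680)) (.cons (.br (nat_lit 8) (nat_lit 1) (.cons (.rf (nat_lit 3187) (nat_lit 493858305440582043680)) .nil)) .nil))) .nil)))),
 (.br (nat_lit 10) (nat_lit 1) (.cons (.rf (nat_lit 84) (nat_lit 12056791078)) (.cons (.rf (nat_lit 84) (nat_lit 7895975976)) (.cons (.br (nat_lit 7) (nat_lit 1) (.cons (.br (nat_lit 7) (nat_lit 1) (.cons (.ev (nat_lit 1208925891953702484377601) (nat_lit 1)) .nil)) (.cons (.br (nat_lit 7) (nat_lit 1) (.cons (.ev (nat_lit 1208925891953702484377601) (nat_lit 1)) .nil)) .nil))) .nil)))),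
 (.br (nat_lit 8) (nat_lit 1) (.cons (.br (nat_lit 12) (nat_lit 1) (.cons (.kr (nat_lit 20282719093383930309479659208960) (nat_lit 79228162532711081667287121920) (nat_lit 1) (nat_lit 0)) .nil)) .nil)),
 (.br (nat_lit 9) (nat_lit 1) (.cons (.rf (nat_lit 3189) (nat_lit 445092485129177120)) (.cons (.ev (nat_lit 309485009821627643229896704) (nat_lit 1)) (.cons (.rf (nat_lit 1343) (nat_lit 275283027169)) (.cons (.br (nat_lit 11) (nat_lit 1) (.cons (.br (nat_lit 8) (nat_lit 1) (.cons (.rf (nat_lit 3190) (nat_lit 493858305440582043680)) (.cons (.br (nat_lit 12) (nat_lit 1) (.cons (.rf (nat_lit 3190) (nat_lit 493858305440582043680)) (.cons (.zr (nat_lit 928469196779656597240545280) (nat_lit 40564820416229160745102460584449) (nat_lit 5) (nat_lit 6)) .nil))) .nil))) (.cons (.rf (nat_lit 84) (nat_lit 14373062697)) (.cons (.rf (nat_lit 84) (nat_lit 13332940839)) .nil)))) .nil))))),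
 (.br (nat_lit 7) (nat_lit 1) (.cons (.br (nat_lit 9) (nat_lit 1) (.cons (.rf (nat_lit 1343) (nat_lit 423433078823)) (.cons (.ev (nat_lit 309485009821627643229896704) (nat_lit 1)) (.cons (.rf (nat_lit 3188) (nat_lit 493858305440582043680)) (.cons (.rf (nat_lit 3188) (nat_lit 458117738797769787424)) .nil))))) (.cons (.rf (nat_lit 29) (nat_lit 11601191)) (.cons (.rf (nat_lit 58) (nat_lit 11765801)) (.cons (.rf (nat_lit 3191) (nat_lit 493858305440582043680)) (.cons (.rf (nat_lit 3191) (nat_lit 458117738797769787424)) .nil)))))),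
 (.br (nat_lit 8) (nat_lit 1) (.cons (.br (nat_lit 12) (nat_lit 1) (.cons (.ev (nat_lit 20680100282791272131354542932228) (nat_lit 3)) .nil)) .nil)),
 (.br (nat_lit 11) (nat_lit 1) (.cons (.rf (nat_lit 84) (nat_lit 13164944425)) (.cons (.rf (nat_lit 84) (nat_lit 9004424226)) (.cons (.br (nat_lit 8) (nat_lit 1) (.cons (.rf (nat_lit 3193) (nat_lit 493858305440582043680)) (.cons (.br (nat_lit 8) (nat_lit 1) (.cons (.rf (nat_lit 3193) (nat_lit 493858305440582043680)) .nil)) .nil))) .nil)))),
 (.br (nat_lit 12) (nat_lit 1) (.cons (.ev (nat_lit 79229371440084234797206995201) (nat_lit 1)) .nil)),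
 (.br (nat_lit 9) (nat_lit 1) (.cons (.br (nat_lit 11) (nat_lit 1) (.cons (.rf (nat_lit 84) (nat_lit 13165173794)) (.cons (.rf (nat_lit 84) (nat_lit 9004194857)) (.cons (.br (nat_lit 8) (nat_lit 1) (.cons (.rf (nat_lit 3195) (nat_lit 493858305440582043680)) (.cons (.br (nat_lit 8) (nat_lit 1) (.cons (.rf (nat_lit 3195) (nat_lit 493858305440582043680)) .nil)) .nil))) .nil)))) (.cons (.kr (nat_lit 281474976710656) (nat_lit 4722366482869645213696) (nat_lit 6) (nat_lit 0)) (.cons (.rf (nat_lit 1343) (nat_lit 275288269889)) (.cons (.ev (nat_lit 1213648186378978091663616) (nat_lit 1)) .nil))))),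
 (.br (nat_lit 2) (nat_lit 1) (.cons (.br (nat_lit 9) (nat_lit 1) (.cons (.rf (nat_lit 1343) (nat_lit 423433083938)) (.cons (.kr (nat_lit 281474976710656) (nat_lit 4722366482869645213696) (nat_lit 6) (nat_lit 0)) (.cons (.rf (nat_lit 3194) (nat_lit 493858305440582043680)) (.cons (.rf (nat_lit 3194) (nat_lit 458117738797769787424)) .nil))))) (.cons (.rf (nat_lit 29) (nat_lit 11765026)) (.cons (.rf (nat_lit 58) (nat_lit 11765801)) (.cons (.rf (nat_lit 3196) (nat_lit 493858305440582043680)) (.cons (.rf (nat_lit 3196) (nat_lit 458117738797769787424)) .nil)))))),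
 (.br (nat_lit 9) (nat_lit 1) (.cons (.br (nat_lit 13) (nat_lit 1) (.cons (.br (nat_lit 12) (nat_lit 1) (.cons (.ev (nat_lit 79538861190790864403324534785) (nat_lit 1)) .nil)) (.cons (.br (nat_lit 8) (nat_lit 1) (.cons (.ev (nat_lit 79538861190790864403324534785) (nat_lit 1)) .nil)) .nil))) (.cons (.ev (nat_lit 1213648186378978091663616) (nat_lit 1)) (.cons (.br (nat_lit 12) (nat_lit 1) (.cons (.br (nat_lit 8) (nat_lit 1) (.cons (.zr (nat_lit 237684487542793012780665602048) (nat_lit 1208962713385355377115137) (nat_lit 5) (nat_lit 10)) .nil)) (.cons (.ev (nat_lit 20361948460101575721243006533633) (nat_lit 1)) .nil))) .nil)))),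
 (.br (nat_lit 12) (nat_lit 1) (.cons (.rf (nat_lit 3198) (nat_lit 493858305440582043680)) (.cons (.ev (nat_lit 1213648186378978091663616) (nat_lit 1)) (.cons (.br (nat_lit 7) (nat_lit 1) (.cons (.zr (nat_lit 55340232221162405888) (nat_lit 158457533954348572395045912577) (nat_lit 5) (nat_lit 0)) (.cons (.br (nat_lit 8) (nat_lit 1) (.cons (.ev (nat_lit 79538861190790864403324534785) (nat_lit 1)) .nil)) (.cons (.kr (nat_lit 1208925819614629174706176) (nat_lit 20282409603651670423947251286016) (nat_lit 10) (nat_lit 0)) .nil)))) .nil)))),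
 (.br (nat_lit 12) (nat_lit 1) (.cons (.rf (nat_lit 3198) (nat_lit 493858305440582043680)) (.cons (.rf (nat_lit 3199) (nat_lit 493858305440582043680)) (.cons (.ev (nat_lit 1213648186378978091663616) (nat_lit 1)) (.cons (.br (nat_lit 12) (nat_lit 1) (.cons (.rf (nat_lit 3198) (nat_lit 493858305440582043680)) (.cons (.rf (nat_lit 3199) (nat_lit 493858305440582043680)) (.cons (.ev (nat_lit 1213648186378978091663616) (nat_lit 1)) .nil)))) .nil))))),
 (.br (nat_lit 13) (nat_lit 1) (.cons (.rf (nat_lit 3200) (nat_lit 493858305440582043680)) (.cons (.ev (nat_lit 20282720297587311666219655888896) (nat_lit 1)) (.cons (.br (nat_lit 2) (nat_lit 1) (.cons (.ev (nat_lit 20282413230447792468364615549441) (nat_lit 2)) (.cons (.br (nat_lit 8) (nat_lit 1) (.cons (.ev (nat_lit 79229376162450436191875498241) (nat_lit 1)) .nil)) (.cons (.br (nat_lit 8) (nat_lit 1) (.cons (.ev (nat_lit 79229376162450436191875498241) (nat_lit 1)) .nil)) .nil)))) .nil)))),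
 (.br (nat_lit 2) (nat_lit 1) (.cons (.br (nat_lit 8) (nat_lit 1) (.cons (.br (nat_lit 12) (nat_lit 1) (.cons (.ev (nat_lit 20678862352270219025687574414596) (nat_lit 3)) .nil)) (.cons (.ev (nat_lit 20282720297587311666219655888896) (nat_lit 1)) .nil))) (.cons (.ev (nat_lit 1213648186378978091663616) (nat_lit 1)) (.cons (.rf (nat_lit 58) (nat_lit 13933633)) .nil)))),
 (.br (nat_lit 13) (nat_lit 1) (.cons (.rf (nat_lit 3200) (nat_lit 493858305440582043680)) (.cons (.rf (nat_lit 3201) (nat_lit 493858305440582043680)) (.cons (.rf (nat_lit 3202) (nat_lit 493858305440582043680)) (.cons (.br (nat_lit 13) (nat_lit 1) (.cons (.kr (nat_lit 1208925819614629174706176) (nat_lit 20282409603651670423947251286016) (nat_lit 10) (nat_lit 0)) (.cons (.rf (nat_lit 3201) (nat_lit 493858305440582043680)) (.cons (.rf (nat_lit 3202) (nat_lit 493858305440582043680)) .nil)))) .nil))))),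
 (.br (nat_lit 13) (nat_lit 1) (.cons (.rf (nat_lit 3200) (nat_lit 493858305440582043680)) (.cons (.ev (nat_lit 20282720297587311666219655888896) (nat_lit 1)) (.cons (.br (nat_lit 2) (nat_lit 1) (.cons (.zr (nat_lit 928469196779656597240545280) (nat_lit 40564820416229160745102460584449) (nat_lit 5) (nat_lit 6)) (.cons (.ev (nat_lit 20282719093383858533364909801473) (nat_lit 1)) (.cons (.ev (nat_lit 1213648186378978091663616) (nat_lit 1)) .nil)))) .nil)))),
 (.br (nat_lit 13) (nat_lit 1) (.cons (.rf (nat_lit 3200) (nat_lit 493858305440582043680)) (.cons (.rf (nat_lit 3203) (nat_lit 493858305440582043680)) (.cons (.rf (nat_lit 3204) (nat_lit 493858305440582043680)) (.cons (.br (nat_lit 13) (nat_lit 1) (.cons (.ev (nat_lit 20282410812577490321150914330881) (nat_lit 1)) (.cons (.rf (nat_lit 3203) (nat_lit 493858305440582043680)) (.cons (.rf (nat_lit 3204) (nat_lit 493858305440582043680)) .nil)))) .nil)))))]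

theorem c107 : chkAll C T R L107 (nat_lit 3173) = true := by decide +kernel

theorem l107 : (nat_lit 3173) + L107.length = (nat_lit 3206) := by decide +kernel

/-- part of the certificates -/
def L108 : List Prf := [(.br (nat_lit 13) (nat_lit 1) (.cons (.rf (nat_lit 3200) (nat_lit 493858305440582043680)) (.cons (.rf (nat_lit 3203) (nat_lit 493858305440582043680)) (.cons (.rf (nat_lit 3205) (nat_lit 493858305440582043680)) (.cons (.br (nat_lit 13) (nat_lit 1) (.cons (.rf (nat_lit 3200) (nat_lit 493858305440582043680)) (.cons (.rf (nat_lit 3203) (nat_lit 493858305440582043680)) (.cons (.rf (nat_lit 3205) (nat_lit 493858305440582043680)) .nil)))) .nil))))),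
 (.br (nat_lit 13) (nat_lit 1) (.cons (.rf (nat_lit 3200) (nat_lit 493858305440582043680)) (.cons (.rf (nat_lit 3203) (nat_lit 493858305440582043680)) (.cons (.rf (nat_lit 3205) (nat_lit 493858305440582043680)) (.cons (.rf (nat_lit 3206) (nat_lit 493858305440582043680)) (.cons (.br (nat_lit 13) (nat_lit 1) (.cons (.rf (nat_lit 3200) (nat_lit 493858305440582043680)) (.cons (.rf (nat_lit 3203) (nat_lit 493858305440582043680)) (.cons (.rf (nat_lit 3205) (nat_lit 493858305440582043680)) (.cons (.rf (nat_lit 3206) (nat_lit 493858305440582043680)) .nil))))) .nil)))))),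
 (.br (nat_lit 11) (nat_lit 1) (.cons (.rf (nat_lit 3192) (nat_lit 493858305440582043680)) (.cons (.rf (nat_lit 3197) (nat_lit 493858305440582043680)) (.cons (.kr (nat_lit 281474976710656) (nat_lit 4722366482869645213696) (nat_lit 6) (nat_lit 0)) (.cons (.rf (nat_lit 3207) (nat_lit 493858305440582043680)) (.cons (.rf (nat_lit 3207) (nat_lit 458117738797769787424)) .nil)))))),
 (.br (nat_lit 9) (nat_lit 1) (.cons (.rf (nat_lit 84) (nat_lit 12222504001)) (.cons (.br (nat_lit 12) (nat_lit 1) (.cons (.ev (nat_lit 20282719088661491769020287877121) (nat_lit 1)) .nil)) .nil))),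
 (.br (nat_lit 9) (nat_lit 1) (.cons (.br (nat_lit 8) (nat_lit 1) (.cons (.ev (nat_lit 158769436834327669122504196355) (nat_lit 2)) (.cons (.ev (nat_lit 309489750706912180605878273) (nat_lit 1)) .nil))) (.cons (.ev (nat_lit 79538861172271781260617056256) (nat_lit 1)) (.cons (.br (nat_lit 12) (nat_lit 1) (.cons (.br (nat_lit 8) (nat_lit 1) (.cons (.ev (nat_lit 79231789310386382010908213761) (nat_lit 2)) .nil)) (.cons (.ev (nat_lit 20282719088661491769020287877121) (nat_lit 1)) .nil))) .nil)))),
 (.br (nat_lit 9) (nat_lit 1) (.cons (.rf (nat_lit 31) (nat_lit 414254375)) (.cons (.br (nat_lit 12) (nat_lit 1) (.cons (.ev (nat_lit 79228162514264337597838983424) (nat_lit 1)) (.cons (.br (nat_lit 8) (nat_lit 1) (.cons (.ev (nat_lit 79849559867173556404789248515) (nat_lit 2)) (.cons (.ev (nat_lit 79847132570801363614762729985) (nat_lit 2)) .nil))) (.cons (.ev (nat_lit 79229376162450436191875498241) (nat_lit 1)) .nil)))) (.cons (.rf (nat_lit 2594) (nat_lit 13322525986)) (.cons (.ev (nat_lit 1213648186378978091663616)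 (nat_lit 1)) .nil))))),
 (.br (nat_lit 11) (nat_lit 1) (.cons (.rf (nat_lit 3192) (nat_lit 493858305440582043680)) (.cons (.rf (nat_lit 3197) (nat_lit 493858305440582043680)) (.cons (.rf (nat_lit 3208) (nat_lit 493858305440582043680)) (.cons (.kr (nat_lit 281474976710656) (nat_lit 4722366482869645213696) (nat_lit 6) (nat_lit 0)) (.cons (.br (nat_lit 2) (nat_lit 1) (.cons (.rf (nat_lit 1593) (nat_lit 459605910754)) (.cons (.br (nat_lit 7) (nat_lit 1) (.cons (.br (nat_lit 8) (nat_lit 1) (.cons (.ev (nat_lit 310693954160042844918644736) (nat_lit 1)) (.cons (.rf (nat_lit 3209) (nat_lit 493858305440582043680)) (.cons (.rf (nat_lit 3209) (nat_lit 458117738797769787424)) .nil)))) (.cons (.rf (nat_lit 1593) (nat_lit 459605903655)) (.cons (.rf (nat_lit 3210) (nat_lit 493858305440582043680)) (.cons (.rf (nat_lit 3210) (nat_lit 458117738797769787424)) .nil))))) (.cons (.rf (nat_lit 1593) (nat_lit 459605908770)) (.cons (.rf (nat_lit 3211) (nat_lit 493858305440582043680)) (.cons (.rf (nat_lit 3211) (nat_lit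 458117738797769787424)) .nil)))))) .nil)))))),
 (.br (nat_lit 11) (nat_lit 1) (.cons (.rf (nat_lit 3192) (nat_lit 493858305440582043680)) (.cons (.rf (nat_lit 3197) (nat_lit 493858305440582043680)) (.cons (.rf (nat_lit 3208) (nat_lit 493858305440582043680)) (.cons (.kr (nat_lit 281474976710656) (nat_lit 4722366482869645213696) (nat_lit 6) (nat_lit 0)) (.cons (.rf (nat_lit 3212) (nat_lit 493858305440582043680)) (.cons (.rf (nat_lit 3212) (nat_lit 458117738797769787424)) .nil))))))),
 (.br (nat_lit 11) (nat_lit 1) (.cons (.rf (nat_lit 2701) (nat_lit 14242959524133701664)) (.cons (.rf (nat_lit 2703) (nat_lit 13126066816545818656)) .nil))),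
 (.br (nat_lit 11) (nat_lit 1) (.cons (.rf (nat_lit 84) (nat_lit 13164911689)) (.cons (.rf (nat_lit 84) (nat_lit 9004424257)) (.cons (.br (nat_lit 8) (nat_lit 1) (.cons (.br (nat_lit 13) (nat_lit 1) (.cons (.rf (nat_lit 3214) (nat_lit 15433072044983552032)) (.cons (.ev (nat_lit 79537652246524223130246840321) (nat_lit 1)) .nil))) (.cons (.rf (nat_lit 3214) (nat_lit 15433072044983552032)) .nil))) .nil)))),
 (.br (nat_lit 8) (nat_lit 1) (.cons (.br (nat_lit 12) (nat_lit 1) (.cons (.ev (nat_lit 20680721680180929316871167215364) (nat_lit 3)) .nil)) .nil)),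
 (.br (nat_lit 9) (nat_lit 1) (.cons (.br (nat_lit 11) (nat_lit 1) (.cons (.rf (nat_lit 84) (nat_lit 13165173825)) (.cons (.rf (nat_lit 84) (nat_lit 9004162121)) (.cons (.br (nat_lit 8) (nat_lit 1) (.cons (.rf (nat_lit 3216) (nat_lit 493858305440582043680)) (.cons (.br (nat_lit 8) (nat_lit 1) (.cons (.rf (nat_lit 3216) (nat_lit 493858305440582043680)) .nil)) .nil))) .nil)))) (.cons (.kr (nat_lit 281474976710656) (nat_lit 4722366482869645213696) (nat_lit 6) (nat_lit 0)) (.cons (.rf (nat_lit 1343) (nat_lit 275288269858)) (.cons (.ev (nat_lit 1213648186378978091663616) (nat_lit 1)) .nil))))),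
 (.br (nat_lit 1) (nat_lit 1) (.cons (.br (nat_lit 9) (nat_lit 1) (.cons (.rf (nat_lit 1343) (nat_lit 423433083969)) (.cons (.kr (nat_lit 281474976710656) (nat_lit 4722366482869645213696) (nat_lit 6) (nat_lit 0)) (.cons (.rf (nat_lit 3215) (nat_lit 493858305440582043680)) (.cons (.rf (nat_lit 3215) (nat_lit 458117738797769787424)) .nil))))) (.cons (.rf (nat_lit 29) (nat_lit 11766049)) (.cons (.rf (nat_lit 58) (nat_lit 11765801)) (.cons (.rf (nat_lit 3217) (nat_lit 493858305440582043680)) (.cons (.rf (nat_lit 3217) (nat_lit 458117738797769787424)) .nil)))))),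
 (.br (nat_lit 8) (nat_lit 1) (.cons (.ev (nat_lit 79537647542532426740290093056) (nat_lit 1)) .nil)),
 (.br (nat_lit 9) (nat_lit 1) (.cons (.br (nat_lit 13) (nat_lit 1) (.cons (.rf (nat_lit 2593) (nat_lit 13162095612523579424)) (.cons (.rf (nat_lit 3219) (nat_lit 493858305440582043680)) .nil))) (.cons (.ev (nat_lit 1213648186378978091663616) (nat_lit 1)) (.cons (.br (nat_lit 12) (nat_lit 1) (.cons (.br (nat_lit 8) (nat_lit 1) (.cons (.zr (nat_lit 237684501709892461389601243136) (nat_lit 1208962714229780307247105) (nat_lit 5) (nat_lit 10)) .nil)) (.cons (.ev (nat_lit 20361948464823942485587628457985) (nat_lit 1)) .nil))) .nil)))),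
 (.br (nat_lit 12) (nat_lit 1) (.cons (.rf (nat_lit 3220) (nat_lit 493858305440582043680)) (.cons (.ev (nat_lit 1213648186378978091663616) (nat_lit 1)) (.cons (.br (nat_lit 8) (nat_lit 1) (.cons (.br (nat_lit 9) (nat_lit 1) (.cons (.zr (nat_lit 14222439680830098046976) (nat_lit 158457533954349416819976044545) (nat_lit 5) (nat_lit 0)) .nil)) (.cons (.ev (nat_lit 79538856468352323939658104833) (nat_lit 1)) (.cons (.br (nat_lit 7) (nat_lit 1) (.cons (.zr (nat_lit 14222439680830098046976) (nat_lit 158457533954349416819976044545) (nat_lit 5) (nat_lit 0)) .nil)) .nil)))) .nil)))),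
 (.br (nat_lit 12) (nat_lit 1) (.cons (.rf (nat_lit 3220) (nat_lit 493858305440582043680)) (.cons (.rf (nat_lit 3221) (nat_lit 493858305440582043680)) (.cons (.ev (nat_lit 1213648186378978091663616) (nat_lit 1)) (.cons (.br (nat_lit 12) (nat_lit 1) (.cons (.rf (nat_lit 3220) (nat_lit 493858305440582043680)) (.cons (.rf (nat_lit 3221) (nat_lit 493858305440582043680)) (.cons (.ev (nat_lit 1213648186378978091663616) (nat_lit 1)) .nil)))) .nil))))),
 (.br (nat_lit 13) (nat_lit 1) (.cons (.rf (nat_lit 3222) (nat_lit 493858305440582043680)) (.cons (.br (nat_lit 1) (nat_lit 1) (.cons (.rf (nat_lit 84) (nat_lit 12093269218)) (.cons (.ev (nat_lit 1213648186378978091663616) (nat_lit 1)) .nil))) (.cons (.br (nat_lit 8) (nat_lit 1) (.cons (.br (nat_lit 9) (nat_lit 1) (.cons (.ev (nat_lit 20839173141171837081860736221958) (nat_lit 3)) .nil)) (.cons (.ev (nat_lit 20282719093402305277438619353088) (nat_lit 1)) (.cons (.zr (nat_lit 60847228810955011271841787609088) (nat_lit 1208962713385355377115137) (nat_lit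 5) (nat_lit 10)) .nil)))) .nil)))),
 (.br (nat_lit 13) (nat_lit 1) (.cons (.rf (nat_lit 3222) (nat_lit 493858305440582043680)) (.cons (.rf (nat_lit 3223) (nat_lit 493858305440582043680)) (.cons (.br (nat_lit 13) (nat_lit 1) (.cons (.rf (nat_lit 58) (nat_lit 13933602)) (.cons (.rf (nat_lit 3223) (nat_lit 493858305440582043680)) (.cons (.ev (nat_lit 20282719088661564108089285672961) (nat_lit 1)) .nil)))) (.cons (.br (nat_lit 13) (nat_lit 1) (.cons (.rf (nat_lit 3222) (nat_lit 493858305440582043680)) (.cons (.rf (nat_lit 3223) (nat_lit 493858305440582043680)) (.cons (.ev (nat_lit 20282719088661564108089285672961) (nat_lit 1)) .nil)))) .nil))))),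
 (.br (nat_lit 13) (nat_lit 1) (.cons (.rf (nat_lit 3222) (nat_lit 493858305440582043680)) (.cons (.rf (nat_lit 3224) (nat_lit 493858305440582043680)) (.cons (.br (nat_lit 12) (nat_lit 1) (.cons (.ev (nat_lit 1213648186378978091663616) (nat_lit 1)) (.cons (.ev (nat_lit 20282720297587383442338700394496) (nat_lit 1)) (.cons (.ev (nat_lit 20282720302328124611688033943553) (nat_lit 1)) .nil)))) .nil)))),
 (.br (nat_lit 13) (nat_lit 1) (.cons (.rf (nat_lit 3222) (nat_lit 493858305440582043680)) (.cons (.rf (nat_lit 3224) (nat_lit 493858305440582043680)) (.cons (.rf (nat_lit 3225) (nat_lit 493858305440582043680)) (.cons (.br (nat_lit 13) (nat_lit 1) (.cons (.rf (nat_lit 3222) (nat_lit 493858305440582043680)) (.cons (.rf (nat_lit 3224) (nat_lit 493858305440582043680)) (.cons (.rf (nat_lit 3225) (nat_lit 493858305440582043680)) .nil)))) .nil))))),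
 (.br (nat_lit 13) (nat_lit 1) (.cons (.rf (nat_lit 3222) (nat_lit 493858305440582043680)) (.cons (.rf (nat_lit 3224) (nat_lit 493858305440582043680)) (.cons (.rf (nat_lit 3226) (nat_lit 493858305440582043680)) (.cons (.br (nat_lit 13) (nat_lit 1) (.cons (.rf (nat_lit 3222) (nat_lit 493858305440582043680)) (.cons (.ev (nat_lit 20282719088661564108089285672961) (nat_lit 1)) (.cons (.rf (nat_lit 3226) (nat_lit 493858305440582043680)) .nil)))) .nil))))),
 (.br (nat_lit 13) (nat_lit 1) (.cons (.rf (nat_lit 3222) (nat_lit 493858305440582043680)) (.cons (.rf (nat_lit 3224) (nat_lit 493858305440582043680)) (.cons (.rf (nat_lit 3226) (nat_lit 493858305440582043680)) (.cons (.rf (nat_lit 3227) (nat_lit 493858305440582043680)) (.cons (.br (nat_lit 13) (nat_lit 1) (.cons (.rf (nat_lit 3222) (nat_lit 493858305440582043680)) (.cons (.rf (nat_lit 3224) (nat_lit 493858305440582043680)) (.cons (.rf (nat_lit 3226) (nat_lit 493858305440582043680)) (.cons (.rf (nat_lit 3227) (nat_lit 493858305440582043680)) .nil)))))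 .nil)))))),
 (.br (nat_lit 11) (nat_lit 1) (.cons (.rf (nat_lit 3213) (nat_lit 493858305440582043680)) (.cons (.rf (nat_lit 3218) (nat_lit 493858305440582043680)) (.cons (.kr (nat_lit 281474976710656) (nat_lit 4722366482869645213696) (nat_lit 6) (nat_lit 0)) (.cons (.rf (nat_lit 3228) (nat_lit 493858305440582043680)) (.cons (.rf (nat_lit 3228) (nat_lit 458117738797769787424)) .nil)))))),
 (.br (nat_lit 9) (nat_lit 1) (.cons (.ev (nat_lit 79538861172344120329614983168) (nat_lit 1)) (.cons (.br (nat_lit 12) (nat_lit 1) (.cons (.ev (nat_lit 20361954537916871916444270527748) (nat_lit 3)) .nil)) .nil))),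
 (.br (nat_lit 9) (nat_lit 1) (.cons (.br (nat_lit 8) (nat_lit 1) (.cons (.ev (nat_lit 158769441556694996417079542019) (nat_lit 2)) (.cons (.ev (nat_lit 309485028340147835983953921) (nat_lit 1)) .nil))) (.cons (.ev (nat_lit 79541274301760983005906666241) (nat_lit 2)) (.cons (.br (nat_lit 12) (nat_lit 1) (.cons (.br (nat_lit 8) (nat_lit 1) (.cons (.ev (nat_lit 20837316249892127386998891676930) (nat_lit 3)) .nil)) (.cons (.ev (nat_lit 20282720302309750206683322318848) (nat_lit 1)) .nil))) .nil)))),
 (.br (nat_lit 9) (nat_lit 1) (.cons (.rf (nat_lit 31) (nat_lit 414222631)) (.cons (.br (nat_lit 7) (nat_lit 1) (.cons (.br (nat_lit 8) (nat_lit 1) (.cons (.ev (nat_lit 79228162514336676666870333696) (nat_lit 1)) (.cons (.br (nat_lit 12) (nat_lit 1) (.cons (.ev (nat_lit 20680721651846729856703342511876) (nat_lit 3)) .nil)) .nil))) (.cons (.ev (nat_lit 79228176681580806720993624065) (nat_lit 2)) (.cons (.br (nat_lit 12) (nat_lit 1) (.cons (.br (nat_lit 8) (nat_lit 1) (.cons (.ev (nat_lit 20839173150616569484650073228038)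 (nat_lit 3)) .nil)) (.cons (.ev (nat_lit 79228162514336676666870333696) (nat_lit 1)) .nil))) .nil)))) (.cons (.rf (nat_lit 2594) (nat_lit 13323574561)) (.cons (.ev (nat_lit 1213648186378978091663616) (nat_lit 1)) .nil))))),
 (.br (nat_lit 11) (nat_lit 1) (.cons (.rf (nat_lit 3213) (nat_lit 493858305440582043680)) (.cons (.rf (nat_lit 3218) (nat_lit 493858305440582043680)) (.cons (.rf (nat_lit 3229) (nat_lit 493858305440582043680)) (.cons (.kr (nat_lit 281474976710656) (nat_lit 4722366482869645213696) (nat_lit 6) (nat_lit 0)) (.cons (.br (nat_lit 1) (nat_lit 1) (.cons (.rf (nat_lit 1593) (nat_lit 459639465185)) (.cons (.br (nat_lit 7) (nat_lit 1) (.cons (.br (nat_lit 8) (nat_lit 1) (.cons (.ev (nat_lit 310693954160042844918644736) (nat_lit 1)) (.cons (.rf (nat_lit 3230) (nat_lit 493858305440582043680)) (.cons (.rf (nat_lit 3230) (nat_lit 458117738797769787424)) .nil)))) (.cons (.ev (nat_lit 4722366483969156841729) (nat_lit 1)) (.cons (.rf (nat_lit 3231) (nat_lit 493858305440582043680)) (.cons (.rf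 (nat_lit 3231) (nat_lit 458117738797769787424)) .nil))))) (.cons (.rf (nat_lit 1593) (nat_lit 459639463201)) (.cons (.rf (nat_lit 3232) (nat_lit 493858305440582043680)) (.cons (.rf (nat_lit 3232) (nat_lit 458117738797769787424)) .nil)))))) .nil)))))),
 (.br (nat_lit 11) (nat_lit 1) (.cons (.rf (nat_lit 3213) (nat_lit 493858305440582043680)) (.cons (.rf (nat_lit 3218) (nat_lit 493858305440582043680)) (.cons (.rf (nat_lit 3229) (nat_lit 493858305440582043680)) (.cons (.kr (nat_lit 281474976710656) (nat_lit 4722366482869645213696) (nat_lit 6) (nat_lit 0)) (.cons (.rf (nat_lit 3233) (nat_lit 493858305440582043680)) (.cons (.rf (nat_lit 3233) (nat_lit 458117738797769787424)) .nil))))))),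
 (.br (nat_lit 8) (nat_lit 1) (.cons (.br (nat_lit 9) (nat_lit 1) (.cons (.ev (nat_lit 79537652264899191084912017408) (nat_lit 1)) (.cons (.br (nat_lit 12) (nat_lit 1) (.cons (.ev (nat_lit 20678862333380751968309086717188) (nat_lit 3)) .nil)) .nil))) (.cons (.ev (nat_lit 309489750634573111607951361) (nat_lit 1)) (.cons (.br (nat_lit 2) (nat_lit 1) (.cons (.br (nat_lit 12) (nat_lit 1) (.cons (.zr (nat_lit 928455029464035206174540544) (nat_lit 158457533954348572395062689793) (nat_lit 5) (nat_lit 0)) .nil)) (.cons (.ev (nat_lit 1208925819614633469739264) (nat_lit 1)) (.cons (.br (nat_lit 9) (nat_lit 1) (.cons (.zr (nat_lit 928455029464035206241648640) (nat_lit 158457533954348572395045913089) (nat_lit 5) (nat_lit 6)) .nil)) .nil)))) .nil))))]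

theorem c108 : chkAll C T R L108 (nat_lit 3206) = true := by decide +kernel

theorem l108 : (nat_lit 3206) + L108.length = (nat_lit 3236) := by decide +kernel

/-- part of the certificates -/
def L109 : List Prf := [(.br (nat_lit 8) (nat_lit 1) (.cons (.kr (nat_lit 79537647524085682662268797184) (nat_lit 20282409608392555708484643979264) (nat_lit 1) (nat_lit 0)) .nil)),
 (.br (nat_lit 12) (nat_lit 1) (.cons (.ev (nat_lit 1208925819614633469739264) (nat_lit 1)) (.cons (.rf (nat_lit 3235) (nat_lit 493858305440582043680)) (.cons (.br (nat_lit 2) (nat_lit 1) (.cons (.rf (nat_lit 3236) (nat_lit 493858305440582043680)) (.cons (.ev (nat_lit 20361948460101575721243006533633) (nat_lit 1)) .nil))) .nil)))),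
 (.br (nat_lit 12) (nat_lit 1) (.cons (.ev (nat_lit 1208925819614633469739264) (nat_lit 1)) (.cons (.rf (nat_lit 3235) (nat_lit 493858305440582043680)) (.cons (.rf (nat_lit 3237) (nat_lit 493858305440582043680)) (.cons (.br (nat_lit 12) (nat_lit 1) (.cons (.ev (nat_lit 1208925819614633469739264) (nat_lit 1)) (.cons (.rf (nat_lit 3235) (nat_lit 493858305440582043680)) (.cons (.rf (nat_lit 3237) (nat_lit 493858305440582043680)) .nil)))) .nil))))),
 (.br (nat_lit 1) (nat_lit 1) (.cons (.br (nat_lit 8) (nat_lit 1) (.cons (.zr (nat_lit 2417851640355158256255745) (nat_lit 618970056536179388692168704) (nat_lit 5) (nat_lit 3)) (.cons (.br (nat_lit 13) (nat_lit 1) (.cons (.rf (nat_lit 3000) (nat_lit 15433072044983552032)) (.cons (.ev (nat_lit 79228162532711081671548535041) (nat_lit 1)) .nil))) (.cons (.br (nat_lit 9) (nat_lit 1) (.cons (.br (nat_lit 12) (nat_lit 1) (.cons (.zr (nat_lit 4835703279584416605668096) (nat_lit 159075295048171366428360966145) (nat_lit 5) (nat_lit 3)) .nil)) (.cons (.rf (nat_lit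 84) (nat_lit 12093269063)) .nil))) .nil)))) (.cons (.br (nat_lit 8) (nat_lit 1) (.cons (.br (nat_lit 13) (nat_lit 1) (.cons (.rf (nat_lit 2567) (nat_lit 455883953382593005600)) (.cons (.zr (nat_lit 928455029464035206174540544) (nat_lit 158457533954348572395062689793) (nat_lit 5) (nat_lit 0)) .nil))) (.cons (.br (nat_lit 8) (nat_lit 1) (.cons (.rf (nat_lit 2567) (nat_lit 455883953382593005600)) .nil)) .nil))) (.cons (.ev (nat_lit 1208925819614633469739264) (nat_lit 1)) (.cons (.rf (nat_lit 3238) (nat_lit 493858305440582043680)) .nil))))),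
 (.br (nat_lit 13) (nat_lit 1) (.cons (.ev (nat_lit 20282720297587311666219655888896) (nat_lit 1)) (.cons (.rf (nat_lit 3239) (nat_lit 493858305440582043680)) (.cons (.br (nat_lit 1) (nat_lit 1) (.cons (.br (nat_lit 8) (nat_lit 1) (.cons (.ev (nat_lit 79229371440084234797206995201) (nat_lit 1)) .nil)) (.cons (.br (nat_lit 2) (nat_lit 1) (.cons (.ev (nat_lit 79229371440084234797206995201) (nat_lit 1)) .nil)) (.cons (.ev (nat_lit 79228167236702878061538836736) (nat_lit 1)) .nil)))) .nil)))),
 (.br (nat_lit 13) (nat_lit 1) (.cons (.rf (nat_lit 3238) (nat_lit 493858305440582043680)) (.cons (.rf (nat_lit 3239) (nat_lit 493858305440582043680)) (.cons (.rf (nat_lit 3240) (nat_lit 493858305440582043680)) (.cons (.br (nat_lit 13) (nat_lit 1) (.cons (.rf (nat_lit 3238) (nat_lit 493858305440582043680)) (.cons (.rf (nat_lit 3239) (nat_lit 493858305440582043680)) (.cons (.rf (nat_lit 3240) (nat_lit 493858305440582043680)) .nil)))) .nil))))),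
 (.br (nat_lit 13) (nat_lit 1) (.cons (.rf (nat_lit 3238) (nat_lit 493858305440582043680)) (.cons (.rf (nat_lit 3239) (nat_lit 493858305440582043680)) (.cons (.rf (nat_lit 3241) (nat_lit 493858305440582043680)) (.cons (.br (nat_lit 13) (nat_lit 1) (.cons (.rf (nat_lit 3238) (nat_lit 493858305440582043680)) (.cons (.ev (nat_lit 20282719093383930309483954176001) (nat_lit 1)) (.cons (.rf (nat_lit 3241) (nat_lit 493858305440582043680)) .nil)))) .nil))))),
 (.br (nat_lit 13) (nat_lit 1) (.cons (.rf (nat_lit 3238) (nat_lit 493858305440582043680)) (.cons (.rf (nat_lit 3239) (nat_lit 493858305440582043680)) (.cons (.rf (nat_lit 3241) (nat_lit 493858305440582043680)) (.cons (.rf (nat_lit 3242) (nat_lit 493858305440582043680)) (.cons (.br (nat_lit 13) (nat_lit 1) (.cons (.rf (nat_lit 3238) (nat_lit 493858305440582043680)) (.cons (.rf (nat_lit 3239) (nat_lit 493858305440582043680)) (.cons (.rf (nat_lit 3241) (nat_lit 493858305440582043680)) (.cons (.rf (nat_lit 3242) (nat_lit 493858305440582043680)) .nil)))))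 .nil)))))),
 (.br (nat_lit 11) (nat_lit 1) (.cons (.rf (nat_lit 3213) (nat_lit 493858305440582043680)) (.cons (.rf (nat_lit 3234) (nat_lit 493858305440582043680)) (.cons (.kr (nat_lit 281474976710656) (nat_lit 4722366482869645213696) (nat_lit 6) (nat_lit 0)) (.cons (.rf (nat_lit 3243) (nat_lit 493858305440582043680)) (.cons (.rf (nat_lit 3243) (nat_lit 458117738797769787424)) .nil)))))),
 (.br (nat_lit 9) (nat_lit 1) (.cons (.ev (nat_lit 4740813228042866393344) (nat_lit 1)) (.cons (.br (nat_lit 12) (nat_lit 1) (.cons (.kr (nat_lit 20282719088661491769015976132864) (nat_lit 79228167255149622130936643584) (nat_lit 1) (nat_lit 0)) .nil)) .nil))),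
 (.br (nat_lit 12) (nat_lit 1) (.cons (.br (nat_lit 8) (nat_lit 1) (.cons (.ev (nat_lit 79849550422440027715545399811) (nat_lit 2)) (.cons (.br (nat_lit 9) (nat_lit 1) (.cons (.zr (nat_lit 4835703279584416605668608) (nat_lit 158456334510299245365696659457) (nat_lit 5) (nat_lit 3)) .nil)) .nil))) (.cons (.ev (nat_lit 79541283746494511695150514945) (nat_lit 2)) (.cons (.ev (nat_lit 79229371440084234797206995201) (nat_lit 1)) .nil)))),
 (.br (nat_lit 2) (nat_lit 1) (.cons (.br (nat_lit 9) (nat_lit 1) (.cons (.br (nat_lit 8) (nat_lit 1) (.cons (.ev (nat_lit 79228167236702878061538836736) (nat_lit 1)) (.cons (.br (nat_lit 12) (nat_lit 1) (.cons (.ev (nat_lit 20680721651846729856703342511876) (nat_lit 3)) .nil)) .nil))) (.cons (.ev (nat_lit 79538861172271781260617056256) (nat_lit 1)) (.cons (.br (nat_lit 13) (nat_lit 1) (.cons (.zr (nat_lit 928455029464035206241648640) (nat_lit 40564820416229160745102460584449) (nat_lit 5) (nat_lit 6)) (.cons (.ev (nat_lit 79228167236702878061538836736) (nat_lit 1))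 .nil))) .nil)))) (.cons (.rf (nat_lit 31) (nat_lit 414227746)) (.cons (.rf (nat_lit 2594) (nat_lit 13328819265)) (.cons (.ev (nat_lit 1208925819614633469739264) (nat_lit 1)) .nil))))),
 (.br (nat_lit 11) (nat_lit 1) (.cons (.rf (nat_lit 3213) (nat_lit 493858305440582043680)) (.cons (.rf (nat_lit 3234) (nat_lit 493858305440582043680)) (.cons (.rf (nat_lit 3244) (nat_lit 493858305440582043680)) (.cons (.kr (nat_lit 281474976710656) (nat_lit 4722366482869645213696) (nat_lit 6) (nat_lit 0)) (.cons (.br (nat_lit 1) (nat_lit 1) (.cons (.rf (nat_lit 1593) (nat_lit 459807237185)) (.cons (.br (nat_lit 2) (nat_lit 1) (.cons (.br (nat_lit 8) (nat_lit 1) (.cons (.ev (nat_lit 310698676526244239587147776) (nat_lit 1)) (.cons (.rf (nat_lit 3245) (nat_lit 493858305440582043680)) (.cons (.rf (nat_lit 3245) (nat_lit 458117738797769787424)) .nil)))) (.cons (.rf (nat_lit 1593) (nat_lit 459807229218)) (.cons (.rf (nat_lit 3246) (nat_lit 493858305440582043680)) (.cons (.rf (nat_lit 3246) (nat_lit 458117738797769787424))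 .nil))))) (.cons (.rf (nat_lit 1593) (nat_lit 459807230241)) (.cons (.rf (nat_lit 3247) (nat_lit 493858305440582043680)) (.cons (.rf (nat_lit 3247) (nat_lit 458117738797769787424)) .nil)))))) .nil)))))),
 (.br (nat_lit 11) (nat_lit 1) (.cons (.rf (nat_lit 3213) (nat_lit 493858305440582043680)) (.cons (.rf (nat_lit 3234) (nat_lit 493858305440582043680)) (.cons (.rf (nat_lit 3244) (nat_lit 493858305440582043680)) (.cons (.kr (nat_lit 281474976710656) (nat_lit 4722366482869645213696) (nat_lit 6) (nat_lit 0)) (.cons (.rf (nat_lit 3248) (nat_lit 493858305440582043680)) (.cons (.rf (nat_lit 3248) (nat_lit 458117738797769787424)) .nil))))))),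
 (.br (nat_lit 12) (nat_lit 1) (.cons (.kr (nat_lit 79537647524085682662268797184) (nat_lit 20282409608392555708484643979264) (nat_lit 1) (nat_lit 0)) .nil)),
 (.br (nat_lit 2) (nat_lit 1) (.cons (.br (nat_lit 8) (nat_lit 1) (.cons (.ev (nat_lit 79538856468352323939658104833) (nat_lit 1)) (.cons (.rf (nat_lit 3250) (nat_lit 493858305440582043680)) .nil))) (.cons (.rf (nat_lit 29) (nat_lit 12880097)) (.cons (.br (nat_lit 12) (nat_lit 1) (.cons (.br (nat_lit 8) (nat_lit 1) (.cons (.zr (nat_lit 238612942572257047986806391552) (nat_lit 1209018053617576522547201) (nat_lit 5) (nat_lit 10)) .nil)) (.cons (.ev (nat_lit 20282409608374037188296168243456) (nat_lit 1)) .nil))) .nil)))),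
 (.br (nat_lit 9) (nat_lit 1) (.cons (.rf (nat_lit 31) (nat_lit 411337954)) (.cons (.br (nat_lit 12) (nat_lit 1) (.cons (.kr (nat_lit 20282719088661491769015976132864) (nat_lit 79228167255149622130936643584) (nat_lit 1) (nat_lit 0)) .nil)) .nil))),
 (.br (nat_lit 9) (nat_lit 1) (.cons (.br (nat_lit 8) (nat_lit 1) (.cons (.ev (nat_lit 158769441556766209586237604099) (nat_lit 2)) (.cons (.br (nat_lit 12) (nat_lit 1) (.cons (.ev (nat_lit 475678469558587082650652115204) (nat_lit 3)) .nil)) .nil))) (.cons (.rf (nat_lit 29) (nat_lit 12879074)) (.cons (.br (nat_lit 13) (nat_lit 1) (.cons (.zr (nat_lit 928455029464035206241648640) (nat_lit 40564820416229160745102460584449) (nat_lit 5) (nat_lit 6)) (.cons (.rf (nat_lit 31) (nat_lit 449086690)) .nil))) .nil)))),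
 (.br (nat_lit 12) (nat_lit 1) (.cons (.ev (nat_lit 79538856449977355984993058816) (nat_lit 1)) (.cons (.ev (nat_lit 79229371440084234797206995201) (nat_lit 1)) .nil))),
 (.br (nat_lit 12) (nat_lit 1) (.cons (.ev (nat_lit 79849559867173556404789248515) (nat_lit 2)) (.cons (.zr (nat_lit 237684501710108634171698053120) (nat_lit 620178945462587345407574529) (nat_lit 5) (nat_lit 10)) .nil))),
 (.br (nat_lit 2) (nat_lit 1) (.cons (.br (nat_lit 12) (nat_lit 1) (.cons (.ev (nat_lit 79537647524085682666580541441) (nat_lit 1)) .nil)) (.cons (.br (nat_lit 9) (nat_lit 1) (.cons (.ev (nat_lit 4740885567111897874688) (nat_lit 1)) .nil)) (.cons (.ev (nat_lit 1208925819614633469739264) (nat_lit 1)) .nil)))),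
 (.br (nat_lit 8) (nat_lit 1) (.cons (.br (nat_lit 12) (nat_lit 1) (.cons (.ev (nat_lit 20678859906084379771120946053382) (nat_lit 3)) .nil)) (.cons (.ev (nat_lit 79229376180897180265585049856) (nat_lit 1)) (.cons (.rf (nat_lit 3256) (nat_lit 493858305440582043680)) .nil)))),
 (.br (nat_lit 13) (nat_lit 1) (.cons (.ev (nat_lit 1208925819614633469739264) (nat_lit 1)) (.cons (.rf (nat_lit 3256) (nat_lit 493858305440582043680)) (.cons (.rf (nat_lit 3257) (nat_lit 493858305440582043680)) (.cons (.br (nat_lit 13) (nat_lit 1) (.cons (.ev (nat_lit 1208925819614633469739264) (nat_lit 1)) (.cons (.rf (nat_lit 3256) (nat_lit 493858305440582043680)) (.cons (.rf (nat_lit 3257) (nat_lit 493858305440582043680)) .nil)))) .nil))))),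
 (.br (nat_lit 2) (nat_lit 1) (.cons (.ev (nat_lit 18447026648197890304) (nat_lit 1)) (.cons (.zr (nat_lit 2427296372757947593261824) (nat_lit 618970019642691241273065473) (nat_lit 5) (nat_lit 3)) (.cons (.br (nat_lit 9) (nat_lit 1) (.cons (.ev (nat_lit 79228167236631101942460907776) (nat_lit 1)) (.cons (.kr (nat_lit 1208925819896104151416832) (nat_lit 79228167236630820463189164032) (nat_lit 6) (nat_lit 0)) .nil))) (.cons (.br (nat_lit 12) (nat_lit 1) (.cons (.br (nat_lit 9) (nat_lit 1) (.cons (.ev (nat_lit 20837316249892127386998891676930) (nat_lit 3)) .nil)) (.cons (.zr (nat_lit 4835703279584416605668096) (nat_lit 159075295048171366428360966145) (nat_lit 5) (nat_lit 3)) (.cons (.ev (nat_lit 20282410812577490321150914330881) (nat_lit 1)) .nil)))) .nil))))),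
 (.br (nat_lit 1) (nat_lit 1) (.cons (.ev (nat_lit 18447026648197890304) (nat_lit 1)) (.cons (.br (nat_lit 13) (nat_lit 1) (.cons (.rf (nat_lit 2526) (nat_lit 492741412732993144864)) (.cons (.zr (nat_lit 237684487542793012780699156480) (nat_lit 620178945462587345407574529) (nat_lit 5) (nat_lit 10)) .nil))) (.cons (.br (nat_lit 9) (nat_lit 1) (.cons (.ev (nat_lit 79228176681580806720993624065) (nat_lit 2)) (.cons (.ev (nat_lit 79229376162522775260906979585) (nat_lit 1)) .nil))) (.cons (.br (nat_lit 12) (nat_lit 1) (.cons (.br (nat_lit 9) (nat_lit 1) (.cons (.ev (nat_lit 79231803477486112094820565505) (nat_lit 2)) .nil)) (.cons (.br (nat_lit 8) (nat_lit 1) (.cons (.zr (nat_lit 79541274301545370974773707008) (nat_lit 23704066136924387016706) (nat_lit 10) (nat_lit 10)) .nil)) (.cons (.ev (nat_lit 20282409603651742763020577669376) (nat_lit 1)) .nil)))) .nil))))),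
 (.br (nat_lit 1) (nat_lit 1) (.cons (.br (nat_lit 8) (nat_lit 1) (.cons (.rf (nat_lit 31) (nat_lit 411280449)) (.cons (.rf (nat_lit 2497) (nat_lit 455883953382594021408)) .nil))) (.cons (.rf (nat_lit 3259) (nat_lit 493858305440582043680)) (.cons (.ev (nat_lit 79228176681580806720993624065) (nat_lit 2)) (.cons (.br (nat_lit 2) (nat_lit 1) (.cons (.rf (nat_lit 3260) (nat_lit 493858305440582043680)) (.cons (.ev (nat_lit 1208925819614633469739264) (nat_lit 1)) (.cons (.br (nat_lit 8) (nat_lit 1) (.cons (.ev (nat_lit 309503918168059433166439682) (nat_lit 3)) .nil)) .nil)))) .nil))))),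
 (.br (nat_lit 2) (nat_lit 1) (.cons (.kr (nat_lit 79537647524085682662268797184) (nat_lit 20282409608392555708484643979264) (nat_lit 1) (nat_lit 0)) .nil)),
 (.br (nat_lit 8) (nat_lit 1) (.cons (.rf (nat_lit 3259) (nat_lit 493858305440582043680)) (.cons (.rf (nat_lit 3260) (nat_lit 493858305440582043680)) (.cons (.rf (nat_lit 3261) (nat_lit 493858305440582043680)) (.cons (.br (nat_lit 1) (nat_lit 1) (.cons (.br (nat_lit 9) (nat_lit 1) (.cons (.ev (nat_lit 20837321085669191691529655485698) (nat_lit 3)) .nil)) (.cons (.kr (nat_lit 309485009821345068724781312) (nat_lit 18446744073726328832) (nat_lit 1) (nat_lit 0)) (.cons (.rf (nat_lit 3262) (nat_lit 493858305440582043680)) .nil)))) .nil))))),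
 (.br (nat_lit 8) (nat_lit 1) (.cons (.rf (nat_lit 3259) (nat_lit 493858305440582043680)) (.cons (.rf (nat_lit 3260) (nat_lit 493858305440582043680)) (.cons (.rf (nat_lit 3261) (nat_lit 493858305440582043680)) (.cons (.rf (nat_lit 3263) (nat_lit 493858305440582043680)) (.cons (.br (nat_lit 8) (nat_lit 1) (.cons (.rf (nat_lit 3259) (nat_lit 493858305440582043680)) (.cons (.rf (nat_lit 3260) (nat_lit 493858305440582043680)) (.cons (.rf (nat_lit 3261) (nat_lit 493858305440582043680)) (.cons (.rf (nat_lit 3263) (nat_lit 493858305440582043680)) .nil))))) .nil)))))),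
 (.br (nat_lit 11) (nat_lit 1) (.cons (.rf (nat_lit 3213) (nat_lit 493858305440582043680)) (.cons (.rf (nat_lit 3234) (nat_lit 493858305440582043680)) (.cons (.rf (nat_lit 3249) (nat_lit 493858305440582043680)) (.cons (.kr (nat_lit 281474976710656) (nat_lit 4722366482869645213696) (nat_lit 6) (nat_lit 0)) (.cons (.br (nat_lit 7) (nat_lit 1) (.cons (.br (nat_lit 9) (nat_lit 1) (.cons (.rf (nat_lit 246) (nat_lit 457828501729)) (.cons (.ev (nat_lit 4722366483969156841729) (nat_lit 1)) (.cons (.rf (nat_lit 3251) (nat_lit 493858305440582043680)) (.cons (.rf (nat_lit 3251) (nat_lit 458117738797769787424)) .nil))))) (.cons (.br (nat_lit 1) (nat_lit 1) (.cons (.br (nat_lit 8) (nat_lit 1) (.cons (.zr (nat_lit 2417851640355158256255745) (nat_lit 618970056536179388692168704) (nat_lit 5) (nat_lit 3)) (.cons (.rf (nat_lit 3252) (nat_lit 493858305440582043680)) (.cons (.rf (nat_lit 3252) (nat_lit 458117738797769787424)) .nil)))) (.cons (.kr (nat_lit 16842752) (nat_lit 4722438540463683141632) (nat_lit 2) (nat_lit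 0)) (.cons (.rf (nat_lit 3253) (nat_lit 493858305440582043680)) (.cons (.rf (nat_lit 3253) (nat_lit 458117738797769787424)) .nil))))) (.cons (.br (nat_lit 1) (nat_lit 1) (.cons (.ev (nat_lit 72058693566398721) (nat_lit 1)) (.cons (.br (nat_lit 2) (nat_lit 1) (.cons (.zr (nat_lit 2417851640355158256255745) (nat_lit 618970056536179388692168704) (nat_lit 5) (nat_lit 3)) (.cons (.rf (nat_lit 3254) (nat_lit 493858305440582043680)) (.cons (.rf (nat_lit 3254) (nat_lit 458117738797769787424)) .nil)))) (.cons (.br (nat_lit 2) (nat_lit 1) (.cons (.kr (nat_lit 281474976710657) (nat_lit 4740813226943354765312) (nat_lit 0) (nat_lit 1)) (.cons (.rf (nat_lit 3255) (nat_lit 493858305440582043680)) (.cons (.rf (nat_lit 3255) (nat_lit 458117738797769787424)) .nil)))) (.cons (.rf (nat_lit 3258) (nat_lit 493858305440582043680)) (.cons (.rf (nat_lit 3258) (nat_lit 458117738797769787424)) .nil)))))) (.cons (.ev (nat_lit 310693935713298771209093121) (nat_lit 1)) (.cons (.rf (nat_lit 3264) (nat_lit 493858305440582043680))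 (.cons (.rf (nat_lit 3264) (nat_lit 458117738797769787424)) .nil))))))) .nil))))))]

theorem c109 : chkAll C T R L109 (nat_lit 3236) = true := by decide +kernel

theorem l109 : (nat_lit 3236) + L109.length = (nat_lit 3266) := by decide +kernel

/-- part of the certificates -/
def L110 : List Prf := [(.br (nat_lit 11) (nat_lit 1) (.cons (.rf (nat_lit 3213) (nat_lit 493858305440582043680)) (.cons (.rf (nat_lit 3234) (nat_lit 493858305440582043680)) (.cons (.rf (nat_lit 3249) (nat_lit 493858305440582043680)) (.cons (.kr (nat_lit 281474976710656) (nat_lit 4722366482869645213696) (nat_lit 6) (nat_lit 0)) (.cons (.rf (nat_lit 3265) (nat_lit 493858305440582043680)) (.cons (.rf (nat_lit 3265) (nat_lit 458117738797769787424)) .nil))))))),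
 (.br (nat_lit 11) (nat_lit 1) (.cons (.rf (nat_lit 3213) (nat_lit 493858305440582043680)) (.cons (.rf (nat_lit 3234) (nat_lit 493858305440582043680)) (.cons (.rf (nat_lit 3249) (nat_lit 493858305440582043680)) (.cons (.rf (nat_lit 3266) (nat_lit 493858305440582043680)) (.cons (.kr (nat_lit 281474976710656) (nat_lit 4722366482869645213696) (nat_lit 6) (nat_lit 0)) (.cons (.br (nat_lit 11) (nat_lit 1) (.cons (.rf (nat_lit 3213) (nat_lit 493858305440582043680)) (.cons (.rf (nat_lit 3234) (nat_lit 493858305440582043680)) (.cons (.rf (nat_lit 3249) (nat_lit 493858305440582043680)) (.cons (.rf (nat_lit 3266) (nat_lit 493858305440582043680)) (.cons (.kr (nat_lit 281474976710656) (nat_lit 4722366482869645213696) (nat_lit 6) (nat_lit 0)) .nil)))))) .nil))))))),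
 (.br (nat_lit 8) (nat_lit 1) (.cons (.br (nat_lit 11) (nat_lit 1) (.cons (.br (nat_lit 12) (nat_lit 1) (.cons (.ev (nat_lit 21315173222870041267040340348682) (nat_lit 4)) .nil)) (.cons (.zr (nat_lit 2422648009705629876749312) (nat_lit 121694767106919843888769462697985) (nat_lit 10) (nat_lit 0)) .nil))) (.cons (.br (nat_lit 12) (nat_lit 1) (.cons (.br (nat_lit 11) (nat_lit 1) (.cons (.ev (nat_lit 20999493696038166296488848067342) (nat_lit 4)) .nil)) (.cons (.zr (nat_lit 81129638433496147627267636527362) (nat_lit 79229371550765265487952609280) (nat_lit 10) (nat_lit 10)) .nil))) .nil))),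
 (.br (nat_lit 13) (nat_lit 1) (.cons (.rf (nat_lit 3268) (nat_lit 493858305440582043680)) (.cons (.br (nat_lit 8) (nat_lit 1) (.cons (.br (nat_lit 11) (nat_lit 1) (.cons (.ev (nat_lit 309485028340147835983953921) (nat_lit 1)) .nil)) (.cons (.br (nat_lit 9) (nat_lit 1) (.cons (.ev (nat_lit 20680716844404007992832546767108) (nat_lit 3)) .nil)) (.cons (.ev (nat_lit 20282409603670117168025255870721) (nat_lit 1)) .nil)))) .nil))),
 (.br (nat_lit 13) (nat_lit 1) (.cons (.rf (nat_lit 3268) (nat_lit 493858305440582043680)) (.cons (.rf (nat_lit 3269) (nat_lit 493858305440582043680)) (.cons (.br (nat_lit 13) (nat_lit 1) (.cons (.rf (nat_lit 3268) (nat_lit 493858305440582043680)) (.cons (.rf (nat_lit 3269) (nat_lit 493858305440582043680)) .nil))) .nil)))),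
 (.br (nat_lit 9) (nat_lit 1) (.cons (.rf (nat_lit 2777) (nat_lit 325702574508064)) (.cons (.rf (nat_lit 2777) (nat_lit 324637422586912)) .nil))),
 (.br (nat_lit 8) (nat_lit 1) (.cons (.br (nat_lit 8) (nat_lit 1) (.cons (.rf (nat_lit 3271) (nat_lit 470979981838368)) (.cons (.rf (nat_lit 3270) (nat_lit 493858305440582043680)) .nil))) (.cons (.br (nat_lit 8) (nat_lit 1) (.cons (.rf (nat_lit 3271) (nat_lit 470979981838368)) (.cons (.rf (nat_lit 3270) (nat_lit 493858305440582043680)) .nil))) (.cons (.rf (nat_lit 3270) (nat_lit 493858305440582043680)) .nil)))),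
 (.br (nat_lit 13) (nat_lit 1) (.cons (.rf (nat_lit 3270) (nat_lit 493858305440582043680)) (.cons (.rf (nat_lit 3272) (nat_lit 493858305440582043680)) (.cons (.br (nat_lit 13) (nat_lit 1) (.cons (.rf (nat_lit 3270) (nat_lit 493858305440582043680)) (.cons (.rf (nat_lit 3271) (nat_lit 295047120783658)) .nil))) .nil)))),
 (.br (nat_lit 13) (nat_lit 1) (.cons (.rf (nat_lit 3270) (nat_lit 493858305440582043680)) (.cons (.rf (nat_lit 3272) (nat_lit 493858305440582043680)) (.cons (.rf (nat_lit 3273) (nat_lit 493858305440582043680)) (.cons (.br (nat_lit 13) (nat_lit 1) (.cons (.rf (nat_lit 3270) (nat_lit 493858305440582043680)) (.cons (.rf (nat_lit 3272) (nat_lit 493858305440582043680)) (.cons (.rf (nat_lit 3273) (nat_lit 493858305440582043680)) .nil)))) .nil))))),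
 (.br (nat_lit 7) (nat_lit 1) (.cons (.rf (nat_lit 84) (nat_lit 12222503970)) (.cons (.br (nat_lit 8) (nat_lit 1) (.cons (.ev (nat_lit 309489732259886631936327936) (nat_lit 1)) (.cons (.br (nat_lit 11) (nat_lit 1) (.cons (.ev (nat_lit 79538856468424381533696033025) (nat_lit 1)) (.cons (.rf (nat_lit 3214) (nat_lit 15433072044983552032)) .nil))) .nil))) (.cons (.rf (nat_lit 84) (nat_lit 12092220642)) (.cons (.br (nat_lit 8) (nat_lit 1) (.cons (.br (nat_lit 13) (nat_lit 1) (.cons (.br (nat_lit 12) (nat_lit 1) (.cons (.ev (nat_lit 20363811419604275255927101653760) (nat_lit 3)) .nil)) (.cons (.br (nat_lit 11) (nat_lit 1) (.cons (.ev (nat_lit 20363811419604275255927101653760) (nat_lit 3)) .nil)) .nil))) (.cons (.br (nat_lit 11) (nat_lit 1) (.cons (.br (nat_lit 11) (nat_lit 1) (.cons (.ev (nat_lit 20839177986246060962491134314246) (nat_lit 3)) .nil)) (.cons (.br (nat_lit 11) (nat_lit 1) (.cons (.ev (nat_lit 20839177986246060962491134314246) (nat_lit 3)) .nil)) .nil))) .nil))) .nil))))),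
 (.br (nat_lit 12) (nat_lit 1) (.cons (.rf (nat_lit 3274) (nat_lit 493858305440582043680)) (.cons (.rf (nat_lit 3275) (nat_lit 493858305440582043680)) (.cons (.br (nat_lit 12) (nat_lit 1) (.cons (.rf (nat_lit 3274) (nat_lit 493858305440582043680)) (.cons (.rf (nat_lit 3275) (nat_lit 493858305440582043680)) (.cons (.ev (nat_lit 79229371440083953322247127041) (nat_lit 1)) .nil)))) (.cons (.br (nat_lit 12) (nat_lit 1) (.cons (.rf (nat_lit 3274) (nat_lit 493858305440582043680)) (.cons (.rf (nat_lit 3275) (nat_lit 493858305440582043680)) (.cons (.ev (nat_lit 79229371440083953322247127041) (nat_lit 1)) .nil)))) .nil))))),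
 (.br (nat_lit 12) (nat_lit 1) (.cons (.ev (nat_lit 79228162514264619072832405504) (nat_lit 1)) (.cons (.rf (nat_lit 3276) (nat_lit 493858305440582043680)) (.cons (.br (nat_lit 7) (nat_lit 1) (.cons (.br (nat_lit 8) (nat_lit 1) (.cons (.ev (nat_lit 79229376180897180265585049856) (nat_lit 1)) (.cons (.ev (nat_lit 1213666632841576841216001) (nat_lit 1)) .nil))) (.cons (.rf (nat_lit 84) (nat_lit 9004424257)) (.cons (.br (nat_lit 11) (nat_lit 1) (.cons (.br (nat_lit 8) (nat_lit 1) (.cons (.ev (nat_lit 158457548176932368413236527360) (nat_lit 2)) .nil)) (.cons (.zr (nat_lit 60847228810955011276239817146624) (nat_lit 620188390195551985186373633) (nat_lit 5) (nat_lit 4)) .nil))) .nil)))) .nil)))),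
 (.br (nat_lit 12) (nat_lit 1) (.cons (.rf (nat_lit 3274) (nat_lit 493858305440582043680)) (.cons (.rf (nat_lit 3276) (nat_lit 493858305440582043680)) (.cons (.rf (nat_lit 3277) (nat_lit 493858305440582043680)) (.cons (.br (nat_lit 12) (nat_lit 1) (.cons (.rf (nat_lit 3274) (nat_lit 493858305440582043680)) (.cons (.rf (nat_lit 3276) (nat_lit 493858305440582043680)) (.cons (.rf (nat_lit 3277) (nat_lit 493858305440582043680)) .nil)))) .nil))))),
 (.br (nat_lit 12) (nat_lit 1) (.cons (.rf (nat_lit 3274) (nat_lit 493858305440582043680)) (.cons (.rf (nat_lit 3276) (nat_lit 493858305440582043680)) (.cons (.rf (nat_lit 3278) (nat_lit 493858305440582043680)) (.cons (.br (nat_lit 12) (nat_lit 1) (.cons (.rf (nat_lit 3274) (nat_lit 493858305440582043680)) (.cons (.ev (nat_lit 79229371440083953322247127041) (nat_lit 1)) (.cons (.rf (nat_lit 3278) (nat_lit 493858305440582043680)) .nil)))) .nil))))),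
 (.br (nat_lit 12) (nat_lit 1) (.cons (.rf (nat_lit 3274) (nat_lit 493858305440582043680)) (.cons (.rf (nat_lit 3276) (nat_lit 493858305440582043680)) (.cons (.rf (nat_lit 3278) (nat_lit 493858305440582043680)) (.cons (.rf (nat_lit 3279) (nat_lit 493858305440582043680)) (.cons (.br (nat_lit 12) (nat_lit 1) (.cons (.rf (nat_lit 3274) (nat_lit 493858305440582043680)) (.cons (.rf (nat_lit 3276) (nat_lit 493858305440582043680)) (.cons (.rf (nat_lit 3278) (nat_lit 493858305440582043680)) (.cons (.rf (nat_lit 3279) (nat_lit 493858305440582043680)) .nil))))) .nil)))))),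
 (.br (nat_lit 7) (nat_lit 1) (.cons (.rf (nat_lit 84) (nat_lit 10948222114)) (.cons (.rf (nat_lit 84) (nat_lit 9875528773)) (.cons (.rf (nat_lit 3271) (nat_lit 397276126283808)) .nil)))),
 (.br (nat_lit 2) (nat_lit 1) (.cons (.ev (nat_lit 18447026648197890304) (nat_lit 1)) (.cons (.rf (nat_lit 31) (nat_lit 377718050)) (.cons (.rf (nat_lit 1339) (nat_lit 288076565538)) (.cons (.br (nat_lit 8) (nat_lit 1) (.cons (.ev (nat_lit 4740813509517859946496) (nat_lit 1)) (.cons (.rf (nat_lit 3281) (nat_lit 482283501406750752)) (.cons (.br (nat_lit 9) (nat_lit 1) (.cons (.rf (nat_lit 84) (nat_lit 13164913890)) (.cons (.rf (nat_lit 3000) (nat_lit 14316179337395669024)) (.cons (.br (nat_lit 11) (nat_lit 1) (.cons (.zr (nat_lit 930872936803800066184710144) (nat_lit 23611835510572986793998) (nat_lit 30) (nat_lit 4)) (.cons (.ev (nat_lit 40565129910720680883126943220480) (nat_lit 2)) .nil))) .nil)))) .nil)))) (.cons (.br (nat_lit 8) (nat_lit 1) (.cons (.rf (nat_lit 84) (nat_lit 14336369698)) (.cons (.br (nat_lit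 9) (nat_lit 1) (.cons (.rf (nat_lit 84) (nat_lit 14238655714)) (.cons (.br (nat_lit 11) (nat_lit 1) (.cons (.zr (nat_lit 930872936803800066184710144) (nat_lit 23611835510572986793998) (nat_lit 30) (nat_lit 4)) (.cons (.br (nat_lit 12) (nat_lit 1) (.cons (.ev (nat_lit 158769446260614453738038493440) (nat_lit 2)) .nil)) .nil))) (.cons (.br (nat_lit 11) (nat_lit 1) (.cons (.rf (nat_lit 2790) (nat_lit 493858305440581027872)) (.cons (.ev (nat_lit 20282719088661564108089285672961) (nat_lit 1)) .nil))) .nil)))) (.cons (.br (nat_lit 9) (nat_lit 1) (.cons (.rf (nat_lit 84) (nat_lit 14238655714)) (.cons (.br (nat_lit 11) (nat_lit 1) (.cons (.br (nat_lit 12) (nat_lit 1) (.cons (.ev (nat_lit 158457548176932368413236527360) (nat_lit 2)) .nil)) (.cons (.ev (nat_lit 20283338072903790879026993758723) (nat_lit 2)) .nil))) (.cons (.rf (nat_lit 84) (nat_lit 12093269063)) .nil)))) .nil)))) .nil)))))),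
 (.br (nat_lit 8) (nat_lit 1) (.cons (.rf (nat_lit 82) (nat_lit 13262686247)) (.cons (.rf (nat_lit 2594) (nat_lit 12215126311)) (.cons (.br (nat_lit 2) (nat_lit 1) (.cons (.ev (nat_lit 1223148403695433728262914) (nat_lit 2)) (.cons (.br (nat_lit 11) (nat_lit 1) (.cons (.ev (nat_lit 309485009893403762274402304) (nat_lit 1)) (.cons (.br (nat_lit 12) (nat_lit 1) (.cons (.zr (nat_lit 1547425049106725343624234240) (nat_lit 158457543436119141469848076289) (nat_lit 5) (nat_lit 0)) .nil)) .nil))) (.cons (.br (nat_lit 11) (nat_lit 1) (.cons (.br (nat_lit 12) (nat_lit 1) (.cons (.zr (nat_lit 928455029464316681151251200) (nat_lit 158457543399081256659376406529) (nat_lit 5) (nat_lit 0)) .nil)) (.cons (.ev (nat_lit 309485009893403762274402304) (nat_lit 1)) .nil))) .nil)))) .nil)))),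
 (.br (nat_lit 8) (nat_lit 1) (.cons (.rf (nat_lit 1343) (nat_lit 457785484513)) (.cons (.rf (nat_lit 1339) (nat_lit 287841750055)) (.cons (.rf (nat_lit 3283) (nat_lit 493858305440582043680)) (.cons (.br (nat_lit 8) (nat_lit 1) (.cons (.rf (nat_lit 82) (nat_lit 14336428071)) (.cons (.rf (nat_lit 2594) (nat_lit 12248680743)) (.cons (.rf (nat_lit 3283) (nat_lit 493858305440582043680)) .nil)))) .nil))))),
 (.br (nat_lit 8) (nat_lit 1) (.cons (.rf (nat_lit 58) (nat_lit 8685607)) (.cons (.br (nat_lit 9) (nat_lit 1) (.cons (.ev (nat_lit 79538856468424381533696033025) (nat_lit 1)) (.cons (.rf (nat_lit 2794) (nat_lit 493858305440581027872)) .nil))) (.cons (.br (nat_lit 9) (nat_lit 1) (.cons (.br (nat_lit 12) (nat_lit 1) (.cons (.ev (nat_lit 79228162532711363146541957121) (nat_lit 1)) .nil)) (.cons (.ev (nat_lit 20283341699662659144015312584705) (nat_lit 2)) .nil))) .nil)))),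
 (.br (nat_lit 2) (nat_lit 1) (.cons (.rf (nat_lit 58) (nat_lit 8685607)) (.cons (.br (nat_lit 8) (nat_lit 1) (.cons (.ev (nat_lit 79538856468424381533696033025) (nat_lit 1)) (.cons (.br (nat_lit 12) (nat_lit 1) (.cons (.ev (nat_lit 79228162532711363146541957121) (nat_lit 1)) .nil)) .nil))) (.cons (.br (nat_lit 8) (nat_lit 1) (.cons (.br (nat_lit 12) (nat_lit 1) (.cons (.ev (nat_lit 79229376217791511747012723201) (nat_lit 2)) .nil)) (.cons (.rf (nat_lit 84) (nat_lit 12255831079)) .nil))) .nil)))),
 (.br (nat_lit 8) (nat_lit 1) (.cons (.rf (nat_lit 3285) (nat_lit 493858305440582043680)) (.cons (.rf (nat_lit 3286) (nat_lit 493858305440582043680)) (.cons (.br (nat_lit 13) (nat_lit 1) (.cons (.ev (nat_lit 20283030991559846114069252735491) (nat_lit 2)) (.cons (.rf (nat_lit 2798) (nat_lit 493858305440581027872)) (.cons (.br (nat_lit 2) (nat_lit 1) (.cons (.zr (nat_lit 1547425049106725343624234240) (nat_lit 158457543436119141469848076289) (nat_lit 5) (nat_lit 0)) .nil)) .nil)))) .nil)))),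
 (.br (nat_lit 11) (nat_lit 1) (.cons (.rf (nat_lit 3280) (nat_lit 493858305440582043680)) (.cons (.rf (nat_lit 3282) (nat_lit 493858305440582043680)) (.cons (.rf (nat_lit 3284) (nat_lit 493858305440582043680)) (.cons (.br (nat_lit 8) (nat_lit 1) (.cons (.rf (nat_lit 3285) (nat_lit 493858305440582043680)) (.cons (.rf (nat_lit 3286) (nat_lit 493858305440582043680)) (.cons (.rf (nat_lit 3287) (nat_lit 493858305440582043680)) (.cons (.br (nat_lit 8) (nat_lit 1) (.cons (.rf (nat_lit 3285) (nat_lit 493858305440582043680)) (.cons (.rf (nat_lit 3286) (nat_lit 493858305440582043680)) (.cons (.rf (nat_lit 3287) (nat_lit 493858305440582043680)) .nil)))) .nil))))) .nil))))),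
 (.br (nat_lit 11) (nat_lit 1) (.cons (.rf (nat_lit 3280) (nat_lit 493858305440582043680)) (.cons (.rf (nat_lit 3282) (nat_lit 493858305440582043680)) (.cons (.rf (nat_lit 3284) (nat_lit 493858305440582043680)) (.cons (.rf (nat_lit 3288) (nat_lit 493858305440582043680)) (.cons (.br (nat_lit 11) (nat_lit 1) (.cons (.rf (nat_lit 3280) (nat_lit 493858305440582043680)) (.cons (.rf (nat_lit 3282) (nat_lit 493858305440582043680)) (.cons (.rf (nat_lit 3284) (nat_lit 493858305440582043680)) (.cons (.rf (nat_lit 3288) (nat_lit 493858305440582043680)) .nil))))) .nil)))))),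
 (.br (nat_lit 2) (nat_lit 1) (.cons (.rf (nat_lit 31) (nat_lit 377783522)) (.cons (.ev (nat_lit 18447026648197890304) (nat_lit 1)) (.cons (.rf (nat_lit 1339) (nat_lit 288009522210)) (.cons (.br (nat_lit 7) (nat_lit 1) (.cons (.rf (nat_lit 84) (nat_lit 13262691362)) (.cons (.rf (nat_lit 84) (nat_lit 13164913890)) (.cons (.br (nat_lit 8) (nat_lit 1) (.cons (.ev (nat_lit 79228167236631101942460907776) (nat_lit 1)) (.cons (.br (nat_lit 12) (nat_lit 1) (.cons (.ev (nat_lit 79538856468424381533696033025) (nat_lit 1)) (.cons (.rf (nat_lit 3214) (nat_lit 15398169147871430688)) .nil))) .nil))) (.cons (.br (nat_lit 8) (nat_lit 1) (.cons (.br (nat_lit 11) (nat_lit 1) (.cons (.ev (nat_lit 79847137293167565009431233025) (nat_lit 2)) (.cons (.rf (nat_lit 2802) (nat_lit 493858305440581027872)) .nil))) (.cons (.br (nat_lit 12) (nat_lit 1) (.cons (.br (nat_lit 12) (nat_lit 1) (.cons (.ev (nat_lit 20997017759144202501465681102606) (nat_lit 4)) .nil)) (.cons (.br (nat_lit 11) (nat_lit 1) (.cons (.ev (nat_lit 20997017759144202501465681102606)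 (nat_lit 4)) .nil)) .nil))) .nil))) .nil))))) (.cons (.br (nat_lit 7) (nat_lit 1) (.cons (.rf (nat_lit 84) (nat_lit 14336433186)) (.cons (.rf (nat_lit 84) (nat_lit 14238655714)) (.cons (.br (nat_lit 8) (nat_lit 1) (.cons (.br (nat_lit 13) (nat_lit 1) (.cons (.br (nat_lit 12) (nat_lit 1) (.cons (.ev (nat_lit 20999493639369768502053038133006) (nat_lit 4)) .nil)) (.cons (.br (nat_lit 11) (nat_lit 1) (.cons (.ev (nat_lit 20999493639369768502053038133006) (nat_lit 4)) .nil)) .nil))) (.cons (.br (nat_lit 11) (nat_lit 1) (.cons (.br (nat_lit 12) (nat_lit 1) (.cons (.zr (nat_lit 237684501709892465787614003968) (nat_lit 620178945463430670842986497) (nat_lit 5) (nat_lit 4)) .nil)) (.cons (.ev (nat_lit 20283028573708207449968470065665) (nat_lit 2)) .nil))) .nil))) (.cons (.br (nat_lit 8) (nat_lit 1) (.cons (.br (nat_lit 11) (nat_lit 1) (.cons (.br (nat_lit 12) (nat_lit 1) (.cons (.ev (nat_lit 79228167255077846016170459393) (nat_lit 1)) .nil)) (.cons (.ev (nat_lit 20282720302328196669282071871745) (nat_lit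 1)) .nil))) (.cons (.ev (nat_lit 20282409603651670423951546319104) (nat_lit 1)) .nil))) .nil))))) .nil))))))]

theorem c110 : chkAll C T R L110 (nat_lit 3266) = true := by decide +kernel

theorem l110 : (nat_lit 3266) + L110.length = (nat_lit 3291) := by decide +kernel

/-- part of the certificates -/
def L111 : List Prf := [(.br (nat_lit 9) (nat_lit 1) (.cons (.br (nat_lit 12) (nat_lit 1) (.cons (.ev (nat_lit 79228167236631101942460907776) (nat_lit 1)) (.cons (.ev (nat_lit 79537652246524223130246840321) (nat_lit 1)) .nil))) (.cons (.ev (nat_lit 4740813509517859946496) (nat_lit 1)) (.cons (.br (nat_lit 7) (nat_lit 1) (.cons (.zr (nat_lit 72902019018391554) (nat_lit 158456329769341902139032601088) (nat_lit 5) (nat_lit 6)) (.cons (.br (nat_lit 8) (nat_lit 1) (.cons (.ev (nat_lit 20521022560520514979996283373318) (nat_lit 3)) .nil)) .nil))) (.cons (.rf (nat_lit 3289) (nat_lit 308262436844359327018)) .nil))))),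
 (.br (nat_lit 9) (nat_lit 1) (.cons (.ev (nat_lit 20361637766165934762640323706881) (nat_lit 1)) .nil)),
 (.br (nat_lit 2) (nat_lit 1) (.cons (.zr (nat_lit 309485028628380424043757824) (nat_lit 1208925820177579161944067) (nat_lit 10) (nat_lit 4)) (.cons (.br (nat_lit 7) (nat_lit 1) (.cons (.ev (nat_lit 310693935713298771209093121) (nat_lit 1)) (.cons (.br (nat_lit 12) (nat_lit 1) (.cons (.zr (nat_lit 237684501765448870790856441856) (nat_lit 1548633974926621452087394305) (nat_lit 5) (nat_lit 4)) .nil)) .nil))) (.cons (.rf (nat_lit 3291) (nat_lit 493858305440582043680)) (.cons (.br (nat_lit 7) (nat_lit 1) (.cons (.br (nat_lit 12) (nat_lit 1) (.cons (.ev (nat_lit 20837935219948518324195811460358) (nat_lit 3)) .nil)) (.cons (.ev (nat_lit 310693935713298771209093121) (nat_lit 1)) (.cons (.rf (nat_lit 3292) (nat_lit 493858305440582043680)) .nil)))) .nil))))),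
 (.br (nat_lit 12) (nat_lit 1) (.cons (.rf (nat_lit 3291) (nat_lit 493858305440582043680)) (.cons (.ev (nat_lit 310693935713298771209093121) (nat_lit 1)) (.cons (.rf (nat_lit 3293) (nat_lit 493858305440582043680)) (.cons (.br (nat_lit 8) (nat_lit 1) (.cons (.ev (nat_lit 18447026648197890304) (nat_lit 1)) (.cons (.ev (nat_lit 79229376180897180265585049856) (nat_lit 1)) (.cons (.ev (nat_lit 40565439391026510150330734347010) (nat_lit 2)) .nil)))) .nil))))),
 (.br (nat_lit 11) (nat_lit 1) (.cons (.rf (nat_lit 3280) (nat_lit 493858305440582043680)) (.cons (.rf (nat_lit 3289) (nat_lit 493858305440582043680)) (.cons (.rf (nat_lit 3290) (nat_lit 493858305440582043680)) (.cons (.br (nat_lit 12) (nat_lit 1) (.cons (.rf (nat_lit 3291) (nat_lit 493858305440582043680)) (.cons (.ev (nat_lit 310693935713298771209093121) (nat_lit 1)) (.cons (.rf (nat_lit 3293) (nat_lit 493858305440582043680)) (.cons (.rf (nat_lit 3294) (nat_lit 493858305440582043680)) (.cons (.br (nat_lit 12) (nat_lit 1) (.cons (.rf (nat_lit 3291)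 (nat_lit 493858305440582043680)) (.cons (.ev (nat_lit 310693935713298771209093121) (nat_lit 1)) (.cons (.rf (nat_lit 3293) (nat_lit 493858305440582043680)) (.cons (.rf (nat_lit 3294) (nat_lit 493858305440582043680)) .nil))))) .nil)))))) .nil))))),
 (.br (nat_lit 11) (nat_lit 1) (.cons (.rf (nat_lit 3280) (nat_lit 493858305440582043680)) (.cons (.rf (nat_lit 3289) (nat_lit 493858305440582043680)) (.cons (.rf (nat_lit 3290) (nat_lit 493858305440582043680)) (.cons (.rf (nat_lit 3295) (nat_lit 493858305440582043680)) (.cons (.br (nat_lit 11) (nat_lit 1) (.cons (.rf (nat_lit 3280) (nat_lit 493858305440582043680)) (.cons (.rf (nat_lit 3289) (nat_lit 493858305440582043680)) (.cons (.rf (nat_lit 3290) (nat_lit 493858305440582043680)) (.cons (.rf (nat_lit 3295) (nat_lit 493858305440582043680)) .nil))))) .nil)))))),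
 (.br (nat_lit 7) (nat_lit 1) (.cons (.kr (nat_lit 1) (nat_lit 18446744073709551616) (nat_lit 0) (nat_lit 1)) (.cons (.br (nat_lit 12) (nat_lit 1) (.cons (.ev (nat_lit 80157826506513533178956873731) (nat_lit 2)) (.cons (.zr (nat_lit 237684501709892465787614003968) (nat_lit 620178945463430670842986497) (nat_lit 5) (nat_lit 4)) .nil))) (.cons (.br (nat_lit 13) (nat_lit 1) (.cons (.ev (nat_lit 20283339281811019349616576561155) (nat_lit 2)) (.cons (.zr (nat_lit 60847228810955011276239800369920) (nat_lit 620178945462586245912854529) (nat_lit 5) (nat_lit 4)) .nil))) .nil)))),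
 (.br (nat_lit 2) (nat_lit 1) (.cons (.kr (nat_lit 1) (nat_lit 18446744073709551616) (nat_lit 0) (nat_lit 1)) (.cons (.br (nat_lit 8) (nat_lit 1) (.cons (.rf (nat_lit 84) (nat_lit 12222274601)) (.cons (.br (nat_lit 12) (nat_lit 1) (.cons (.ev (nat_lit 20680719243328999011329157169412) (nat_lit 3)) .nil)) .nil))) (.cons (.br (nat_lit 8) (nat_lit 1) (.cons (.br (nat_lit 12) (nat_lit 1) (.cons (.ev (nat_lit 20679481303363789963625155069188) (nat_lit 3)) .nil)) (.cons (.rf (nat_lit 84) (nat_lit 12255829033)) .nil))) .nil)))),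
 (.br (nat_lit 8) (nat_lit 1) (.cons (.rf (nat_lit 3297) (nat_lit 493858305440582043680)) (.cons (.rf (nat_lit 3298) (nat_lit 493858305440582043680)) (.cons (.br (nat_lit 2) (nat_lit 1) (.cons (.kr (nat_lit 309485009821345068724846848) (nat_lit 18519083142724190208) (nat_lit 1) (nat_lit 0)) (.cons (.rf (nat_lit 2811) (nat_lit 493858305440581027872)) (.cons (.br (nat_lit 7) (nat_lit 1) (.cons (.zr (nat_lit 79228167328865107093110194176) (nat_lit 1240357890924609533282092034) (nat_lit 10) (nat_lit 5)) .nil)) .nil)))) .nil)))),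
 (.br (nat_lit 11) (nat_lit 1) (.cons (.rf (nat_lit 3280) (nat_lit 493858305440582043680)) (.cons (.rf (nat_lit 3289) (nat_lit 493858305440582043680)) (.cons (.rf (nat_lit 3296) (nat_lit 493858305440582043680)) (.cons (.br (nat_lit 8) (nat_lit 1) (.cons (.rf (nat_lit 3297) (nat_lit 493858305440582043680)) (.cons (.rf (nat_lit 3298) (nat_lit 493858305440582043680)) (.cons (.rf (nat_lit 3299) (nat_lit 493858305440582043680)) (.cons (.br (nat_lit 8) (nat_lit 1) (.cons (.rf (nat_lit 3297) (nat_lit 493858305440582043680)) (.cons (.rf (nat_lit 3298) (nat_lit 493858305440582043680)) (.cons (.rf (nat_lit 3299) (nat_lit 493858305440582043680)) .nil)))) .nil))))) .nil))))),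
 (.br (nat_lit 11) (nat_lit 1) (.cons (.rf (nat_lit 3280) (nat_lit 493858305440582043680)) (.cons (.rf (nat_lit 3289) (nat_lit 493858305440582043680)) (.cons (.rf (nat_lit 3296) (nat_lit 493858305440582043680)) (.cons (.rf (nat_lit 3300) (nat_lit 493858305440582043680)) (.cons (.br (nat_lit 11) (nat_lit 1) (.cons (.rf (nat_lit 3280) (nat_lit 493858305440582043680)) (.cons (.rf (nat_lit 3289) (nat_lit 493858305440582043680)) (.cons (.rf (nat_lit 3296) (nat_lit 493858305440582043680)) (.cons (.rf (nat_lit 3300) (nat_lit 493858305440582043680)) .nil))))) .nil)))))),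
 (.br (nat_lit 11) (nat_lit 1) (.cons (.rf (nat_lit 3280) (nat_lit 493858305440582043680)) (.cons (.rf (nat_lit 3289) (nat_lit 493858305440582043680)) (.cons (.rf (nat_lit 3296) (nat_lit 493858305440582043680)) (.cons (.rf (nat_lit 3301) (nat_lit 493858305440582043680)) (.cons (.br (nat_lit 11) (nat_lit 1) (.cons (.rf (nat_lit 3280) (nat_lit 493858305440582043680)) (.cons (.rf (nat_lit 3289) (nat_lit 493858305440582043680)) (.cons (.rf (nat_lit 3296) (nat_lit 493858305440582043680)) (.cons (.rf (nat_lit 3301) (nat_lit 493858305440582043680)) .nil))))) .nil)))))),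
 (.br (nat_lit 11) (nat_lit 1) (.cons (.rf (nat_lit 3280) (nat_lit 493858305440582043680)) (.cons (.rf (nat_lit 3289) (nat_lit 493858305440582043680)) (.cons (.rf (nat_lit 3296) (nat_lit 493858305440582043680)) (.cons (.rf (nat_lit 3301) (nat_lit 493858305440582043680)) (.cons (.rf (nat_lit 3302) (nat_lit 493858305440582043680)) (.cons (.br (nat_lit 11) (nat_lit 1) (.cons (.rf (nat_lit 3280) (nat_lit 493858305440582043680)) (.cons (.rf (nat_lit 3289) (nat_lit 493858305440582043680)) (.cons (.rf (nat_lit 3296) (nat_lit 493858305440582043680)) (.cons (.rf (nat_lit 3301) (nat_lit 493858305440582043680)) (.cons (.rf (nat_lit 3302) (nat_lit 493858305440582043680)) .nil)))))) .nil))))))),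
 (.br (nat_lit 8) (nat_lit 1) (.cons (.br (nat_lit 11) (nat_lit 1) (.cons (.ev (nat_lit 20837323512965563888717795623168) (nat_lit 3)) .nil)) .nil)),
 (.br (nat_lit 13) (nat_lit 1) (.cons (.rf (nat_lit 1339) (nat_lit 288078662721)) (.cons (.rf (nat_lit 58) (nat_lit 13933602)) (.cons (.br (nat_lit 9) (nat_lit 1) (.cons (.rf (nat_lit 82) (nat_lit 12093529122)) (.cons (.rf (nat_lit 84) (nat_lit 8972966946)) (.cons (.br (nat_lit 8) (nat_lit 1) (.cons (.rf (nat_lit 3304) (nat_lit 493858305440582043680)) (.cons (.br (nat_lit 8) (nat_lit 1) (.cons (.rf (nat_lit 3304) (nat_lit 493858305440582043680)) .nil)) .nil))) .nil)))) (.cons (.ev (nat_lit 20282410812577562097269992390913) (nat_lit 1)) .nil))))),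
 (.br (nat_lit 7) (nat_lit 1) (.cons (.rf (nat_lit 1339) (nat_lit 459872111650)) (.cons (.rf (nat_lit 31) (nat_lit 444631335)) (.cons (.br (nat_lit 8) (nat_lit 1) (.cons (.ev (nat_lit 1213666705180645839142913) (nat_lit 1)) (.cons (.br (nat_lit 9) (nat_lit 1) (.cons (.ev (nat_lit 309489750634854586567950593) (nat_lit 1)) (.cons (.br (nat_lit 12) (nat_lit 1) (.cons (.br (nat_lit 12) (nat_lit 1) (.cons (.ev (nat_lit 20837940055725727306864570860806) (nat_lit 3)) .nil)) (.cons (.br (nat_lit 11) (nat_lit 1) (.cons (.ev (nat_lit 20837940055725727306864570860806) (nat_lit 3)) .nil)) .nil))) (.cons (.rf (nat_lit 84) (nat_lit 12093301799)) .nil)))) (.cons (.br (nat_lit 13) (nat_lit 1) (.cons (.rf (nat_lit 84) (nat_lit 12093301799)) (.cons (.br (nat_lit 9) (nat_lit 1) (.cons (.ev (nat_lit 20283029787374839443813256200451) (nat_lit 2)) (.cons (.br (nat_lit 11) (nat_lit 1) (.cons (.ev (nat_lit 20678862342825484371098423723268) (nat_lit 3)) .nil)) .nil))) (.cons (.zr (nat_lit 20282413230429201325428863991808)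 (nat_lit 73787259977428107266) (nat_lit 10) (nat_lit 10)) .nil)))) .nil)))) (.cons (.br (nat_lit 9) (nat_lit 1) (.cons (.rf (nat_lit 84) (nat_lit 13329540167)) (.cons (.br (nat_lit 8) (nat_lit 1) (.cons (.br (nat_lit 12) (nat_lit 1) (.cons (.br (nat_lit 12) (nat_lit 1) (.cons (.zr (nat_lit 313111972108480647897546752) (nat_lit 713053481517844972019499926535) (nat_lit 10) (nat_lit 4)) .nil)) (.cons (.br (nat_lit 11) (nat_lit 1) (.cons (.zr (nat_lit 313111972108480647897546752) (nat_lit 713053481517844972019499926535) (nat_lit 10) (nat_lit 4)) .nil)) .nil))) (.cons (.br (nat_lit 11) (nat_lit 1) (.cons (.zr (nat_lit 237684492265159500048323576576) (nat_lit 1208962714228680812396545) (nat_lit 5) (nat_lit 4)) (.cons (.zr (nat_lit 23630351216015973549315) (nat_lit 81129640832458321208729978011648) (nat_lit 10) (nat_lit 0)) .nil))) .nil))) (.cons (.rf (nat_lit 3189) (nat_lit 301742723474562346)) (.cons (.rf (nat_lit 84) (nat_lit 13167043623)) .nil))))) (.cons (.rf (nat_lit 1339) (nat_lit 288078662721))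 .nil)))))),
 (.br (nat_lit 13) (nat_lit 1) (.cons (.rf (nat_lit 3305) (nat_lit 493858305440582043680)) (.cons (.rf (nat_lit 3306) (nat_lit 493858305440582043680)) (.cons (.rf (nat_lit 3303) (nat_lit 308262436844359327018)) (.cons (.br (nat_lit 7) (nat_lit 1) (.cons (.br (nat_lit 8) (nat_lit 1) (.cons (.ev (nat_lit 20282409617874110952513715831554) (nat_lit 2)) (.cons (.br (nat_lit 9) (nat_lit 1) (.cons (.ev (nat_lit 4740885285636904321024) (nat_lit 1)) (.cons (.br (nat_lit 11) (nat_lit 1) (.cons (.ev (nat_lit 20996391582904275077546790552320) (nat_lit 4)) .nil)) .nil))) (.cons (.br (nat_lit 9) (nat_lit 1) (.cons (.br (nat_lit 11) (nat_lit 1) (.cons (.zr (nat_lit 4777706996565750579968) (nat_lit 158457533954348290920085979137) (nat_lit 5) (nat_lit 0)) .nil)) (.cons (.ev (nat_lit 4740885285636904321024) (nat_lit 1)) .nil))) .nil)))) (.cons (.ev (nat_lit 20282409603651742763020577669376) (nat_lit 1)) (.cons (.br (nat_lit 9) (nat_lit 1) (.cons (.br (nat_lit 8) (nat_lit 1) (.cons (.ev (nat_lit 20282720302328196669282071871745)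 (nat_lit 1)) (.cons (.br (nat_lit 11) (nat_lit 1) (.cons (.ev (nat_lit 309489750634854586567950593) (nat_lit 1)) .nil)) .nil))) (.cons (.rf (nat_lit 84) (nat_lit 9037718754)) (.cons (.br (nat_lit 8) (nat_lit 1) (.cons (.br (nat_lit 8) (nat_lit 1) (.cons (.ev (nat_lit 20837323512965563888717795623168) (nat_lit 3)) .nil)) (.cons (.br (nat_lit 8) (nat_lit 1) (.cons (.ev (nat_lit 20837323512965563888717795623168) (nat_lit 3)) .nil)) .nil))) .nil)))) (.cons (.br (nat_lit 9) (nat_lit 1) (.cons (.br (nat_lit 8) (nat_lit 1) (.cons (.zr (nat_lit 2417870086254811381104640) (nat_lit 40564819212025779391656720596994) (nat_lit 5) (nat_lit 3)) (.cons (.ev (nat_lit 79228167255149622135248388353) (nat_lit 1)) .nil))) (.cons (.br (nat_lit 8) (nat_lit 1) (.cons (.br (nat_lit 8) (nat_lit 1) (.cons (.zr (nat_lit 3098476894479889603034939392) (nat_lit 713053524019143317846306587655) (nat_lit 10) (nat_lit 4)) .nil)) (.cons (.br (nat_lit 8) (nat_lit 1) (.cons (.zr (nat_lit 3098476894479889603034939392) (nat_lit 713053524019143317846306587655)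 (nat_lit 10) (nat_lit 4)) .nil)) .nil))) (.cons (.rf (nat_lit 84) (nat_lit 9038767330)) .nil)))) .nil))))) .nil))))),
 (.br (nat_lit 13) (nat_lit 1) (.cons (.rf (nat_lit 3305) (nat_lit 493858305440582043680)) (.cons (.rf (nat_lit 3306) (nat_lit 493858305440582043680)) (.cons (.rf (nat_lit 3303) (nat_lit 308262436844359327018)) (.cons (.rf (nat_lit 3307) (nat_lit 493858305440582043680)) (.cons (.br (nat_lit 13) (nat_lit 1) (.cons (.ev (nat_lit 20282410812577562097269992390913) (nat_lit 1)) (.cons (.rf (nat_lit 3306) (nat_lit 493858305440582043680)) (.cons (.rf (nat_lit 3303) (nat_lit 308262436844359327018)) (.cons (.rf (nat_lit 3307) (nat_lit 493858305440582043680)) .nil))))) .nil)))))),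
 (.br (nat_lit 13) (nat_lit 1) (.cons (.rf (nat_lit 3308) (nat_lit 493858305440582043680)) (.cons (.rf (nat_lit 3303) (nat_lit 308262436844359327018)) (.cons (.br (nat_lit 1) (nat_lit 1) (.cons (.kr (nat_lit 40564819207303340848994014265601) (nat_lit 1213685151643244571918336) (nat_lit 0) (nat_lit 3)) (.cons (.br (nat_lit 9) (nat_lit 1) (.cons (.zr (nat_lit 554609226858055798121341255680) (nat_lit 4951906716595265228217780228) (nat_lit 60) (nat_lit 3)) .nil)) (.cons (.br (nat_lit 9) (nat_lit 1) (.cons (.zr (nat_lit 3098476894119038682891879680) (nat_lit 713053481518135172720488349703) (nat_lit 10) (nat_lit 4)) .nil)) .nil)))) .nil)))),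
 (.br (nat_lit 12) (nat_lit 1) (.cons (.kr (nat_lit 20282409608392483650890606051584) (nat_lit 79537647524157740256306724864) (nat_lit 1) (nat_lit 0)) .nil)),
 (.br (nat_lit 12) (nat_lit 1) (.cons (.br (nat_lit 12) (nat_lit 1) (.cons (.kr (nat_lit 20282409608392483650890606051584) (nat_lit 79537647524157740256306724864) (nat_lit 1) (nat_lit 0)) .nil)) (.cons (.br (nat_lit 11) (nat_lit 1) (.cons (.kr (nat_lit 20282409608392483650890606051584) (nat_lit 79537647524157740256306724864) (nat_lit 1) (nat_lit 0)) .nil)) .nil))),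
 (.br (nat_lit 8) (nat_lit 1) (.cons (.ev (nat_lit 18447026648197890304) (nat_lit 1)) (.cons (.ev (nat_lit 1213666705180645839142913) (nat_lit 1)) (.cons (.br (nat_lit 13) (nat_lit 1) (.cons (.rf (nat_lit 3308) (nat_lit 493858305440582043680)) (.cons (.rf (nat_lit 3303) (nat_lit 308262436844359327018)) (.cons (.rf (nat_lit 3309) (nat_lit 493858305440582043680)) (.cons (.br (nat_lit 13) (nat_lit 1) (.cons (.ev (nat_lit 20282410812577562097269992390913) (nat_lit 1)) (.cons (.ev (nat_lit 20282409608374036906821208244224) (nat_lit 1)) (.cons (.rf (nat_lit 3309) (nat_lit 493858305440582043680)) .nil)))) .nil))))) (.cons (.br (nat_lit 1) (nat_lit 1) (.cons (.rf (nat_lit 31) (nat_lit 444827937)) (.cons (.br (nat_lit 9) (nat_lit 1) (.cons (.ev (nat_lit 309485028340147835983953921) (nat_lit 1)) (.cons (.br (nat_lit 12) (nat_lit 1) (.cons (.rf (nat_lit 3310) (nat_lit 493858305440582043680)) (.cons (.zr (nat_lit 60847228810955011276239800369920) (nat_lit 1218407446349995172691969) (nat_lit 5) (nat_lit 4))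 .nil))) (.cons (.rf (nat_lit 84) (nat_lit 12093301985)) .nil)))) (.cons (.br (nat_lit 9) (nat_lit 1) (.cons (.rf (nat_lit 3311) (nat_lit 493858305440582043680)) (.cons (.br (nat_lit 13) (nat_lit 1) (.cons (.zr (nat_lit 60847228810955011276239800369920) (nat_lit 1218407446349995172691969) (nat_lit 5) (nat_lit 4)) (.cons (.ev (nat_lit 79228167236702878061538836736) (nat_lit 1)) .nil))) (.cons (.rf (nat_lit 84) (nat_lit 13167043809)) .nil)))) (.cons (.rf (nat_lit 2594) (nat_lit 14330111201)) .nil))))) .nil))))),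
 (.br (nat_lit 8) (nat_lit 1) (.cons (.rf (nat_lit 3303) (nat_lit 493858305440582043680)) (.cons (.rf (nat_lit 3308) (nat_lit 308262436844359327018)) (.cons (.rf (nat_lit 3312) (nat_lit 493858305440582043680)) (.cons (.br (nat_lit 13) (nat_lit 1) (.cons (.rf (nat_lit 2594) (nat_lit 14363665633)) (.cons (.rf (nat_lit 2594) (nat_lit 14363657511)) (.cons (.br (nat_lit 1) (nat_lit 1) (.cons (.rf (nat_lit 31) (nat_lit 444827937)) (.cons (.br (nat_lit 9) (nat_lit 1) (.cons (.ev (nat_lit 20283029782652545300012625625091) (nat_lit 2)) (.cons (.zr (nat_lit 4741174359338474537219) (nat_lit 81129640832458320927255001300992) (nat_lit 10) (nat_lit 0)) .nil))) (.cons (.br (nat_lit 11) (nat_lit 1) (.cons (.zr (nat_lit 60847228810955011276239800369920) (nat_lit 1218407446349995172691969) (nat_lit 5) (nat_lit 4)) (.cons (.kr (nat_lit 20282409603651670423947251286272) (nat_lit 79228162514336395187581878272) (nat_lit 1) (nat_lit 0)) .nil))) .nil)))) (.cons (.rf (nat_lit 3312) (nat_lit 308262436844359327018)) .nil)))))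 .nil)))))]

theorem c111 : chkAll C T R L111 (nat_lit 3291) = true := by decide +kernel

theorem l111 : (nat_lit 3291) + L111.length = (nat_lit 3314) := by decide +kernel

/-- part of the certificates -/
def L112 : List Prf := [(.br (nat_lit 8) (nat_lit 1) (.cons (.rf (nat_lit 3303) (nat_lit 493858305440582043680)) (.cons (.rf (nat_lit 3308) (nat_lit 308262436844359327018)) (.cons (.rf (nat_lit 3312) (nat_lit 493858305440582043680)) (.cons (.rf (nat_lit 3313) (nat_lit 493858305440582043680)) (.cons (.br (nat_lit 8) (nat_lit 1) (.cons (.rf (nat_lit 1339) (nat_lit 459871948001)) (.cons (.rf (nat_lit 1339) (nat_lit 459603741922)) (.cons (.rf (nat_lit 3312) (nat_lit 493858305440582043680)) (.cons (.rf (nat_lit 3313) (nat_lit 493858305440582043680)) .nil))))) .nil)))))),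
 (.br (nat_lit 9) (nat_lit 1) (.cons (.zr (nat_lit 14222439680830064296704) (nat_lit 40564820416229160745102477361153) (nat_lit 5) (nat_lit 0)) (.cons (.ev (nat_lit 20282720297605758410293365440513) (nat_lit 1)) (.cons (.ev (nat_lit 79228162532711363146541957121) (nat_lit 1)) .nil)))),
 (.br (nat_lit 13) (nat_lit 1) (.cons (.rf (nat_lit 3308) (nat_lit 493858305440582043680)) (.cons (.rf (nat_lit 3314) (nat_lit 493858305440582043680)) (.cons (.rf (nat_lit 3303) (nat_lit 308262436844359327018)) (.cons (.br (nat_lit 8) (nat_lit 1) (.cons (.rf (nat_lit 3303) (nat_lit 493858305440582043680)) (.cons (.br (nat_lit 1) (nat_lit 1) (.cons (.ev (nat_lit 4722438541563194769409) (nat_lit 1)) (.cons (.br (nat_lit 12) (nat_lit 1) (.cons (.zr (nat_lit 14222439680830064296704) (nat_lit 40564820416229160745102477361153) (nat_lit 5) (nat_lit 0)) (.cons (.rf (nat_lit 2834) (nat_lit 493858305440581027872)) .nil))) (.cons (.br (nat_lit 9) (nat_lit 1) (.cons (.zr (nat_lit 14222439680830064296704) (nat_lit 40564820416229160745102477361153)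 (nat_lit 5) (nat_lit 0)) (.cons (.ev (nat_lit 20361638979832567884592596451585) (nat_lit 1)) .nil))) .nil)))) (.cons (.ev (nat_lit 20282410817299856804020576387073) (nat_lit 1)) (.cons (.br (nat_lit 11) (nat_lit 1) (.cons (.ev (nat_lit 20282719088661491769020287877121) (nat_lit 1)) (.cons (.br (nat_lit 1) (nat_lit 1) (.cons (.ev (nat_lit 20282720302328196669282071871745) (nat_lit 1)) (.cons (.rf (nat_lit 3315) (nat_lit 493858305440582043680)) .nil))) (.cons (.ev (nat_lit 20282720297605758410293365440513) (nat_lit 1)) (.cons (.br (nat_lit 12) (nat_lit 1) (.cons (.rf (nat_lit 3315) (nat_lit 493858305440582043680)) (.cons (.ev (nat_lit 310693935713298771209093121) (nat_lit 1)) (.cons (.br (nat_lit 1) (nat_lit 1) (.cons (.zr (nat_lit 23704066134716773827840) (nat_lit 159076503974135377720588238849) (nat_lit 5) (nat_lit 0)) .nil)) .nil)))) .nil))))) (.cons (.br (nat_lit 1) (nat_lit 1) (.cons (.zr (nat_lit 55556967953195859968) (nat_lit 40564820416229160463627500650497) (nat_lit 5) (nat_lit 0)) (.cons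 (.br (nat_lit 7) (nat_lit 1) (.cons (.br (nat_lit 11) (nat_lit 1) (.cons (.zr (nat_lit 1547425049106725343624234240) (nat_lit 158457543436119141469848076289) (nat_lit 5) (nat_lit 0)) .nil)) (.cons (.ev (nat_lit 20520095300175840304096683950338) (nat_lit 2)) .nil))) (.cons (.br (nat_lit 7) (nat_lit 1) (.cons (.zr (nat_lit 14222439680830064296704) (nat_lit 40564820416229160745102477361153) (nat_lit 5) (nat_lit 0)) (.cons (.br (nat_lit 9) (nat_lit 1) (.cons (.ev (nat_lit 20837323494002023876468131693828) (nat_lit 3)) .nil)) (.cons (.br (nat_lit 9) (nat_lit 1) (.cons (.zr (nat_lit 237684492265159500048323576576) (nat_lit 1208962714228680812396545) (nat_lit 5) (nat_lit 4)) .nil)) .nil)))) (.cons (.br (nat_lit 7) (nat_lit 1) (.cons (.ev (nat_lit 40723276746035468476656983933698) (nat_lit 2)) (.cons (.br (nat_lit 9) (nat_lit 1) (.cons (.zr (nat_lit 237684487543009189960792145920) (nat_lit 1218407446349995172691969) (nat_lit 5) (nat_lit 4)) .nil)) .nil))) .nil))))) .nil)))))) .nil))))),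
 (.br (nat_lit 13) (nat_lit 1) (.cons (.rf (nat_lit 3308) (nat_lit 493858305440582043680)) (.cons (.rf (nat_lit 3314) (nat_lit 493858305440582043680)) (.cons (.rf (nat_lit 3303) (nat_lit 308262436844359327018)) (.cons (.rf (nat_lit 3316) (nat_lit 493858305440582043680)) (.cons (.br (nat_lit 13) (nat_lit 1) (.cons (.rf (nat_lit 3308) (nat_lit 493858305440582043680)) (.cons (.rf (nat_lit 3314) (nat_lit 493858305440582043680)) (.cons (.rf (nat_lit 3303) (nat_lit 308262436844359327018)) (.cons (.rf (nat_lit 3316) (nat_lit 493858305440582043680)) .nil))))) .nil)))))),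
 (.br (nat_lit 13) (nat_lit 1) (.cons (.rf (nat_lit 3308) (nat_lit 493858305440582043680)) (.cons (.rf (nat_lit 3314) (nat_lit 493858305440582043680)) (.cons (.rf (nat_lit 3317) (nat_lit 493858305440582043680)) (.cons (.rf (nat_lit 3303) (nat_lit 308262436844359327018)) (.cons (.br (nat_lit 13) (nat_lit 1) (.cons (.rf (nat_lit 3308) (nat_lit 493858305440582043680)) (.cons (.rf (nat_lit 3314) (nat_lit 493858305440582043680)) (.cons (.rf (nat_lit 3317) (nat_lit 493858305440582043680)) (.cons (.rf (nat_lit 3303) (nat_lit 308262436844359327018)) .nil))))) .nil)))))),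
 (.br (nat_lit 13) (nat_lit 1) (.cons (.rf (nat_lit 3308) (nat_lit 493858305440582043680)) (.cons (.rf (nat_lit 3314) (nat_lit 493858305440582043680)) (.cons (.rf (nat_lit 3317) (nat_lit 493858305440582043680)) (.cons (.rf (nat_lit 3303) (nat_lit 308262436844359327018)) (.cons (.rf (nat_lit 3318) (nat_lit 493858305440582043680)) (.cons (.br (nat_lit 13) (nat_lit 1) (.cons (.rf (nat_lit 3308) (nat_lit 493858305440582043680)) (.cons (.rf (nat_lit 3314) (nat_lit 493858305440582043680)) (.cons (.rf (nat_lit 3317) (nat_lit 493858305440582043680)) (.cons (.rf (nat_lit 3303) (nat_lit 308262436844359327018)) (.cons (.rf (nat_lit 3318) (nat_lit 493858305440582043680)) .nil)))))) .nil))))))),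
 (.br (nat_lit 11) (nat_lit 1) (.cons (.br (nat_lit 12) (nat_lit 1) (.cons (.ev (nat_lit 20680716834996313193378704721666) (nat_lit 3)) .nil)) .nil)),
 (.br (nat_lit 12) (nat_lit 1) (.cons (.rf (nat_lit 82) (nat_lit 12092475431)) (.cons (.rf (nat_lit 2594) (nat_lit 8960477479)) (.cons (.br (nat_lit 8) (nat_lit 1) (.cons (.rf (nat_lit 58) (nat_lit 8690753)) (.cons (.ev (nat_lit 79229376180897180265585049856) (nat_lit 1)) (.cons (.br (nat_lit 2) (nat_lit 1) (.cons (.br (nat_lit 11) (nat_lit 1) (.cons (.zr (nat_lit 237684487543009189960808923136) (nat_lit 620188390195551985186374145) (nat_lit 5) (nat_lit 4)) .nil)) (.cons (.ev (nat_lit 18518802767275950336) (nat_lit 1)) .nil))) .nil)))) .nil)))),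
 (.br (nat_lit 12) (nat_lit 1) (.cons (.ev (nat_lit 79229371440083953322247127041) (nat_lit 1)) .nil)),
 (.br (nat_lit 11) (nat_lit 1) (.cons (.rf (nat_lit 3322) (nat_lit 493858305440582043680)) (.cons (.br (nat_lit 11) (nat_lit 1) (.cons (.rf (nat_lit 3322) (nat_lit 493858305440582043680)) .nil)) .nil))),
 (.br (nat_lit 1) (nat_lit 1) (.cons (.rf (nat_lit 29) (nat_lit 8690753)) (.cons (.rf (nat_lit 58) (nat_lit 8690722)) (.cons (.br (nat_lit 8) (nat_lit 1) (.cons (.rf (nat_lit 58) (nat_lit 8690753)) (.cons (.rf (nat_lit 1339) (nat_lit 390917819431)) (.cons (.br (nat_lit 2) (nat_lit 1) (.cons (.ev (nat_lit 18518802767275950336) (nat_lit 1)) (.cons (.rf (nat_lit 84) (nat_lit 12222276833)) (.cons (.br (nat_lit 11) (nat_lit 1) (.cons (.rf (nat_lit 3320) (nat_lit 493858305440582043680)) (.cons (.br (nat_lit 11) (nat_lit 1) (.cons (.rf (nat_lit 3320) (nat_lit 493858305440582043680)) .nil)) .nil))) .nil)))) (.cons (.rf (nat_lit 2841) (nat_lit 420143386738740561952)) .nil))))) (.cons (.br (nat_lit 12)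 (nat_lit 1) (.cons (.rf (nat_lit 1343) (nat_lit 457826371623)) (.cons (.rf (nat_lit 1339) (nat_lit 424203819047)) (.cons (.rf (nat_lit 3321) (nat_lit 493858305440582043680)) (.cons (.br (nat_lit 12) (nat_lit 1) (.cons (.rf (nat_lit 82) (nat_lit 14239959079)) (.cons (.rf (nat_lit 2594) (nat_lit 9027586343)) (.cons (.rf (nat_lit 3321) (nat_lit 493858305440582043680)) .nil)))) .nil))))) (.cons (.br (nat_lit 8) (nat_lit 1) (.cons (.rf (nat_lit 58) (nat_lit 8690753)) (.cons (.rf (nat_lit 2841) (nat_lit 493858305439540840480)) (.cons (.br (nat_lit 2) (nat_lit 1) (.cons (.rf (nat_lit 3323) (nat_lit 493858305440582043680)) (.cons (.rf (nat_lit 84) (nat_lit 14369760481)) (.cons (.ev (nat_lit 18518802767275950336) (nat_lit 1)) .nil)))) (.cons (.rf (nat_lit 1339) (nat_lit 459637296167)) .nil))))) .nil)))))),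
 (.br (nat_lit 1) (nat_lit 1) (.cons (.rf (nat_lit 31) (nat_lit 377527586)) (.cons (.kr (nat_lit 4722366482869645213952) (nat_lit 16842752) (nat_lit 1) (nat_lit 0)) (.cons (.rf (nat_lit 31) (nat_lit 444636450)) .nil)))),
 (.br (nat_lit 12) (nat_lit 1) (.cons (.kr (nat_lit 20282409608392483650890606051584) (nat_lit 79537647524157740256306724864) (nat_lit 1) (nat_lit 0)) .nil)),
 (.br (nat_lit 2) (nat_lit 1) (.cons (.rf (nat_lit 84) (nat_lit 13165103145)) (.cons (.br (nat_lit 11) (nat_lit 1) (.cons (.ev (nat_lit 79537647524085964141540409601) (nat_lit 1)) (.cons (.br (nat_lit 12) (nat_lit 1) (.cons (.ev (nat_lit 79538856468424381533696033025) (nat_lit 1)) .nil)) .nil))) (.cons (.br (nat_lit 12) (nat_lit 1) (.cons (.rf (nat_lit 2848) (nat_lit 493858305440581027872)) (.cons (.zr (nat_lit 60847228811010711807443414812672) (nat_lit 1218370555676593226055691) (nat_lit 30) (nat_lit 4)) .nil))) .nil)))),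
 (.br (nat_lit 1) (nat_lit 1) (.cons (.rf (nat_lit 84) (nat_lit 13165103145)) (.cons (.br (nat_lit 11) (nat_lit 1) (.cons (.ev (nat_lit 79538856468424381533696033025) (nat_lit 1)) (.cons (.br (nat_lit 12) (nat_lit 1) (.cons (.ev (nat_lit 79537647524085964141540409601) (nat_lit 1)) .nil)) .nil))) (.cons (.br (nat_lit 12) (nat_lit 1) (.cons (.br (nat_lit 12) (nat_lit 1) (.cons (.ev (nat_lit 20839177995691225710844698886406) (nat_lit 3)) .nil)) (.cons (.br (nat_lit 11) (nat_lit 1) (.cons (.ev (nat_lit 20839177995691225710844698886406) (nat_lit 3)) .nil)) .nil))) .nil)))),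
 (.br (nat_lit 11) (nat_lit 1) (.cons (.rf (nat_lit 3327) (nat_lit 493858305440582043680)) (.cons (.rf (nat_lit 3328) (nat_lit 493858305440582043680)) (.cons (.br (nat_lit 1) (nat_lit 1) (.cons (.br (nat_lit 12) (nat_lit 1) (.cons (.zr (nat_lit 23704066134716773827840) (nat_lit 159076503974135377720588238849) (nat_lit 5) (nat_lit 0)) .nil)) (.cons (.br (nat_lit 2) (nat_lit 1) (.cons (.zr (nat_lit 237684487543009185562812940288) (nat_lit 620178945462587345407575297) (nat_lit 5) (nat_lit 10)) .nil)) (.cons (.br (nat_lit 2) (nat_lit 1) (.cons (.ev (nat_lit 20997010543404389582283500356354) (nat_lit 4)) .nil)) .nil)))) .nil)))),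
 (.br (nat_lit 8) (nat_lit 1) (.cons (.rf (nat_lit 3303) (nat_lit 493858305440582043680)) (.cons (.rf (nat_lit 3319) (nat_lit 493858305440582043680)) (.cons (.rf (nat_lit 3324) (nat_lit 493858305440582043680)) (.cons (.br (nat_lit 9) (nat_lit 1) (.cons (.ev (nat_lit 4722438541563194769409) (nat_lit 1)) (.cons (.br (nat_lit 1) (nat_lit 1) (.cons (.ev (nat_lit 18518802767275950336) (nat_lit 1)) (.cons (.kr (nat_lit 4722366482869645213952) (nat_lit 16842752) (nat_lit 1) (nat_lit 0)) (.cons (.ev (nat_lit 1208925819614633469739264) (nat_lit 1)) .nil)))) (.cons (.br (nat_lit 1) (nat_lit 1) (.cons (.rf (nat_lit 31) (nat_lit 377789505)) (.cons (.rf (nat_lit 2594) (nat_lit 12221417761)) (.cons (.br (nat_lit 2) (nat_lit 1) (.cons (.rf (nat_lit 84) (nat_lit 13165110337)) (.cons (.ev (nat_lit 79228162514336395191876911104) (nat_lit 1)) (.cons (.br (nat_lit 13) (nat_lit 1) (.cons (.br (nat_lit 12) (nat_lit 1) (.cons (.ev (nat_lit 20999493658260102502359794647822) (nat_lit 4)) .nil)) (.cons (.br (nat_lit 11)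 (nat_lit 1) (.cons (.ev (nat_lit 20999493658260102502359794647822) (nat_lit 4)) .nil)) .nil))) .nil)))) (.cons (.br (nat_lit 2) (nat_lit 1) (.cons (.rf (nat_lit 84) (nat_lit 14238852161)) (.cons (.br (nat_lit 11) (nat_lit 1) (.cons (.ev (nat_lit 79847146738044082986844094465) (nat_lit 2)) (.cons (.br (nat_lit 12) (nat_lit 1) (.cons (.zr (nat_lit 1547425049107006835780812800) (nat_lit 158457552880707710541790970369) (nat_lit 5) (nat_lit 5)) .nil)) .nil))) (.cons (.rf (nat_lit 3324) (nat_lit 308262436844359327018)) .nil)))) .nil))))) (.cons (.br (nat_lit 1) (nat_lit 1) (.cons (.rf (nat_lit 31) (nat_lit 411343937)) (.cons (.br (nat_lit 2) (nat_lit 1) (.cons (.rf (nat_lit 84) (nat_lit 13165103145)) (.cons (.ev (nat_lit 79228167255149622135248388353) (nat_lit 1)) (.cons (.br (nat_lit 13) (nat_lit 1) (.cons (.br (nat_lit 12) (nat_lit 1) (.cons (.ev (nat_lit 20999488841445999488764979121922) (nat_lit 4)) .nil)) (.cons (.br (nat_lit 11) (nat_lit 1) (.cons (.ev (nat_lit 20999488841445999488764979121922)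 (nat_lit 4)) .nil)) .nil))) .nil)))) (.cons (.ev (nat_lit 79228167236702878061538836736) (nat_lit 1)) (.cons (.br (nat_lit 2) (nat_lit 1) (.cons (.br (nat_lit 13) (nat_lit 1) (.cons (.br (nat_lit 12) (nat_lit 1) (.cons (.ev (nat_lit 20837318658372820629037582058756) (nat_lit 3)) .nil)) (.cons (.br (nat_lit 11) (nat_lit 1) (.cons (.ev (nat_lit 20837318658372820629037582058756) (nat_lit 3)) .nil)) .nil))) (.cons (.ev (nat_lit 79229376162450436191875498241) (nat_lit 1)) (.cons (.rf (nat_lit 3324) (nat_lit 308262436844359327018)) .nil)))) .nil))))) (.cons (.rf (nat_lit 3303) (nat_lit 308262436844359327018)) .nil)))))) (.cons (.br (nat_lit 9) (nat_lit 1) (.cons (.ev (nat_lit 4722438541563194769409) (nat_lit 1)) (.cons (.rf (nat_lit 3325) (nat_lit 493858305440582043680)) (.cons (.br (nat_lit 1) (nat_lit 1) (.cons (.rf (nat_lit 31) (nat_lit 377789505)) (.cons (.rf (nat_lit 2594) (nat_lit 12254972193)) (.cons (.br (nat_lit 2) (nat_lit 1) (.cons (.rf (nat_lit 84) (nat_lit 13165110337)) (.cons (.br (nat_lit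 11) (nat_lit 1) (.cons (.ev (nat_lit 79538856468424381533696033025) (nat_lit 1)) (.cons (.br (nat_lit 12) (nat_lit 1) (.cons (.ev (nat_lit 79537647524085964141540409601) (nat_lit 1)) .nil)) .nil))) (.cons (.br (nat_lit 11) (nat_lit 1) (.cons (.rf (nat_lit 3326) (nat_lit 493858305440582043680)) (.cons (.ev (nat_lit 20283028583153083967945882927105) (nat_lit 2)) .nil))) .nil)))) (.cons (.br (nat_lit 2) (nat_lit 1) (.cons (.rf (nat_lit 84) (nat_lit 14238852161)) (.cons (.br (nat_lit 12) (nat_lit 1) (.cons (.br (nat_lit 12) (nat_lit 1) (.cons (.ev (nat_lit 20997017778033379076668203404046) (nat_lit 4)) .nil)) (.cons (.br (nat_lit 11) (nat_lit 1) (.cons (.ev (nat_lit 20997017778033379076668203404046) (nat_lit 4)) .nil)) .nil))) (.cons (.ev (nat_lit 20282409608374109245890206171136) (nat_lit 1)) .nil)))) .nil))))) (.cons (.br (nat_lit 11) (nat_lit 1) (.cons (.rf (nat_lit 3327) (nat_lit 493858305440582043680)) (.cons (.rf (nat_lit 3328) (nat_lit 493858305440582043680)) (.cons (.rf (nat_lit 3329) (nat_lit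 493858305440582043680)) (.cons (.br (nat_lit 11) (nat_lit 1) (.cons (.rf (nat_lit 3327) (nat_lit 493858305440582043680)) (.cons (.rf (nat_lit 3328) (nat_lit 493858305440582043680)) (.cons (.rf (nat_lit 3329) (nat_lit 493858305440582043680)) .nil)))) .nil))))) (.cons (.rf (nat_lit 3303) (nat_lit 308262436844359327018)) .nil)))))) .nil)))))),
 (.br (nat_lit 11) (nat_lit 1) (.cons (.br (nat_lit 12) (nat_lit 1) (.cons (.kr (nat_lit 20282409608392483650890606051584) (nat_lit 79537647524157740256306724864) (nat_lit 1) (nat_lit 0)) .nil)) .nil)),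
 (.br (nat_lit 2) (nat_lit 1) (.cons (.ev (nat_lit 1218426109551633097687554) (nat_lit 2)) (.cons (.br (nat_lit 11) (nat_lit 1) (.cons (.ev (nat_lit 309489732188110512858398976) (nat_lit 1)) (.cons (.br (nat_lit 12) (nat_lit 1) (.cons (.zr (nat_lit 1547425049468702163674136576) (nat_lit 158457576492540124894312006145) (nat_lit 5) (nat_lit 0)) .nil)) .nil))) (.cons (.br (nat_lit 13) (nat_lit 1) (.cons (.ev (nat_lit 309489732188110512858398976) (nat_lit 1)) (.cons (.rf (nat_lit 3330) (nat_lit 308262436844359327018)) .nil))) .nil)))),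
 (.br (nat_lit 1) (nat_lit 1) (.cons (.ev (nat_lit 1218426109551633097687554) (nat_lit 2)) (.cons (.br (nat_lit 11) (nat_lit 1) (.cons (.rf (nat_lit 84) (nat_lit 9004164167)) (.cons (.ev (nat_lit 309489750634854586567950593) (nat_lit 1)) .nil))) (.cons (.br (nat_lit 11) (nat_lit 1) (.cons (.ev (nat_lit 309489750634854586567950593) (nat_lit 1)) (.cons (.rf (nat_lit 84) (nat_lit 9037718599)) .nil))) .nil)))),
 (.br (nat_lit 11) (nat_lit 1) (.cons (.rf (nat_lit 3332) (nat_lit 493858305440582043680)) (.cons (.rf (nat_lit 3333) (nat_lit 493858305440582043680)) (.cons (.br (nat_lit 1) (nat_lit 1) (.cons (.kr (nat_lit 9463179709812999979264) (nat_lit 309485009893684137739485184) (nat_lit 1) (nat_lit 0)) (.cons (.rf (nat_lit 2856) (nat_lit 493858305440581027872)) (.cons (.br (nat_lit 2) (nat_lit 1) (.cons (.zr (nat_lit 80775587563731354218777280768) (nat_lit 2432092526498587086946306) (nat_lit 10) (nat_lit 4)) .nil)) .nil)))) .nil)))),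
 (.br (nat_lit 8) (nat_lit 1) (.cons (.rf (nat_lit 3303) (nat_lit 493858305440582043680)) (.cons (.rf (nat_lit 3319) (nat_lit 493858305440582043680)) (.cons (.rf (nat_lit 3324) (nat_lit 493858305440582043680)) (.cons (.rf (nat_lit 3330) (nat_lit 493858305440582043680)) (.cons (.br (nat_lit 9) (nat_lit 1) (.cons (.ev (nat_lit 4722438541563194769409) (nat_lit 1)) (.cons (.br (nat_lit 1) (nat_lit 1) (.cons (.br (nat_lit 11) (nat_lit 1) (.cons (.rf (nat_lit 3331) (nat_lit 493858305440582043680)) (.cons (.br (nat_lit 12) (nat_lit 1) (.cons (.rf (nat_lit 3331) (nat_lit 493858305440582043680)) (.cons (.zr (nat_lit 14222439680830064296704) (nat_lit 40564820416229160745102477361153) (nat_lit 5) (nat_lit 0)) .nil))) .nil))) (.cons (.kr (nat_lit 4722366482869645213952) (nat_lit 16842752) (nat_lit 1) (nat_lit 0)) (.cons (.ev (nat_lit 18518802767275950336) (nat_lit 1)) .nil)))) (.cons (.br (nat_lit 11) (nat_lit 1) (.cons (.rf (nat_lit 3332) (nat_lit 493858305440582043680)) (.cons (.rf (nat_lit 3333) (nat_lit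 493858305440582043680)) (.cons (.rf (nat_lit 3334) (nat_lit 493858305440582043680)) (.cons (.br (nat_lit 11) (nat_lit 1) (.cons (.rf (nat_lit 3332) (nat_lit 493858305440582043680)) (.cons (.rf (nat_lit 3333) (nat_lit 493858305440582043680)) (.cons (.rf (nat_lit 3334) (nat_lit 493858305440582043680)) .nil)))) .nil))))) (.cons (.br (nat_lit 1) (nat_lit 1) (.cons (.rf (nat_lit 31) (nat_lit 411343937)) (.cons (.br (nat_lit 2) (nat_lit 1) (.cons (.br (nat_lit 11) (nat_lit 1) (.cons (.ev (nat_lit 310693954160042844918644736) (nat_lit 1)) (.cons (.br (nat_lit 12) (nat_lit 1) (.cons (.ev (nat_lit 20521641549429336497136169583876) (nat_lit 3)) .nil)) .nil))) (.cons (.ev (nat_lit 1218426109551633097687554) (nat_lit 2)) (.cons (.br (nat_lit 13) (nat_lit 1) (.cons (.zr (nat_lit 55701646091225794564) (nat_lit 243388916462190597668882253611008) (nat_lit 30) (nat_lit 0)) (.cons (.ev (nat_lit 40723276750757978511764768161794) (nat_lit 2)) .nil))) .nil)))) (.cons (.ev (nat_lit 79228167236702878061538836736) (nat_lit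 1)) (.cons (.br (nat_lit 2) (nat_lit 1) (.cons (.br (nat_lit 12) (nat_lit 1) (.cons (.br (nat_lit 11) (nat_lit 1) (.cons (.ev (nat_lit 620179000874597893261099520) (nat_lit 2)) .nil)) (.cons (.ev (nat_lit 20520094100694681033550428569859) (nat_lit 2)) .nil))) (.cons (.ev (nat_lit 79228167255149622135248388353) (nat_lit 1)) (.cons (.zr (nat_lit 9444805023333328487428) (nat_lit 81129639623550948055604302708736) (nat_lit 10) (nat_lit 0)) .nil)))) .nil))))) (.cons (.rf (nat_lit 3303) (nat_lit 308262436844359327018)) .nil)))))) .nil))))))]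

theorem c112 : chkAll C T R L112 (nat_lit 3314) = true := by decide +kernel

theorem l112 : (nat_lit 3314) + L112.length = (nat_lit 3336) := by decide +kernel

/-- part of the certificates -/
def L113 : List Prf := [(.br (nat_lit 8) (nat_lit 1) (.cons (.rf (nat_lit 3303) (nat_lit 493858305440582043680)) (.cons (.rf (nat_lit 3319) (nat_lit 493858305440582043680)) (.cons (.rf (nat_lit 3324) (nat_lit 493858305440582043680)) (.cons (.rf (nat_lit 3330) (nat_lit 493858305440582043680)) (.cons (.rf (nat_lit 3335) (nat_lit 493858305440582043680)) (.cons (.br (nat_lit 8) (nat_lit 1) (.cons (.rf (nat_lit 3303) (nat_lit 493858305440582043680)) (.cons (.rf (nat_lit 3319) (nat_lit 493858305440582043680)) (.cons (.rf (nat_lit 3324) (nat_lit 493858305440582043680)) (.cons (.rf (nat_lit 3330) (nat_lit 493858305440582043680)) (.cons (.rf (nat_lit 3335) (nat_lit 493858305440582043680)) .nil)))))) .nil))))))),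
 (.br (nat_lit 13) (nat_lit 1) (.cons (.rf (nat_lit 3336) (nat_lit 308262436844359327018)) (.cons (.rf (nat_lit 3319) (nat_lit 308262436844359327018)) (.cons (.br (nat_lit 13) (nat_lit 1) (.cons (.rf (nat_lit 3336) (nat_lit 308262436844359327018)) (.cons (.rf (nat_lit 3319) (nat_lit 308262436844359327018)) (.cons (.ev (nat_lit 20282415657817735748358563168769) (nat_lit 3)) .nil)))) (.cons (.br (nat_lit 13) (nat_lit 1) (.cons (.rf (nat_lit 2841) (nat_lit 308262436845400530218)) (.cons (.rf (nat_lit 3319) (nat_lit 308262436844359327018)) (.cons (.ev (nat_lit 20282415657817735748358563168769) (nat_lit 3)) .nil)))) .nil))))),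
 (.br (nat_lit 13) (nat_lit 1) (.cons (.rf (nat_lit 3337) (nat_lit 493858305440582043680)) (.cons (.rf (nat_lit 3336) (nat_lit 308262436844359327018)) (.cons (.rf (nat_lit 3319) (nat_lit 308262436844359327018)) (.cons (.br (nat_lit 13) (nat_lit 1) (.cons (.ev (nat_lit 20282415657817735748358563168769) (nat_lit 3)) (.cons (.rf (nat_lit 3336) (nat_lit 308262436844359327018)) (.cons (.rf (nat_lit 3319) (nat_lit 308262436844359327018)) .nil)))) .nil))))),
 (.br (nat_lit 2) (nat_lit 1) (.cons (.rf (nat_lit 31) (nat_lit 444638434)) (.cons (.br (nat_lit 7) (nat_lit 1) (.cons (.ev (nat_lit 309489750634854586567950593) (nat_lit 1)) (.cons (.br (nat_lit 11) (nat_lit 1) (.cons (.br (nat_lit 12) (nat_lit 1) (.cons (.zr (nat_lit 3098476894479889602984281344) (nat_lit 713053481517844972019600588807) (nat_lit 10) (nat_lit 4)) .nil)) (.cons (.ev (nat_lit 20282720311809823403552870105600) (nat_lit 2)) .nil))) (.cons (.ev (nat_lit 20282410812595937065224623882496) (nat_lit 1)) .nil)))) (.cons (.br (nat_lit 7) (nat_lit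 1) (.cons (.br (nat_lit 12) (nat_lit 1) (.cons (.br (nat_lit 12) (nat_lit 1) (.cons (.ev (nat_lit 20997017778033379076668203404046) (nat_lit 4)) .nil)) (.cons (.br (nat_lit 11) (nat_lit 1) (.cons (.ev (nat_lit 20997017778033379076668203404046) (nat_lit 4)) .nil)) .nil))) (.cons (.br (nat_lit 12) (nat_lit 1) (.cons (.br (nat_lit 11) (nat_lit 1) (.cons (.ev (nat_lit 310693935713298771209093121) (nat_lit 1)) .nil)) (.cons (.ev (nat_lit 20361638979814192916637964828928) (nat_lit 1)) .nil))) (.cons (.ev (nat_lit 20282410812595937065224623882496) (nat_lit 1)) .nil)))) (.cons (.rf (nat_lit 2594) (nat_lit 14337449025)) .nil))))),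
 (.br (nat_lit 13) (nat_lit 1) (.cons (.rf (nat_lit 3339) (nat_lit 493858305440582043680)) (.cons (.rf (nat_lit 3336) (nat_lit 308262436844359327018)) (.cons (.rf (nat_lit 3319) (nat_lit 308262436844359327018)) (.cons (.br (nat_lit 2) (nat_lit 1) (.cons (.br (nat_lit 7) (nat_lit 1) (.cons (.rf (nat_lit 31) (nat_lit 377726017)) (.cons (.br (nat_lit 11) (nat_lit 1) (.cons (.ev (nat_lit 310693935713298771209093121) (nat_lit 1)) .nil)) .nil))) (.cons (.zr (nat_lit 55340232221162405888) (nat_lit 40564820416229160745102460583937) (nat_lit 5) (nat_lit 0)) (.cons (.ev (nat_lit 20282720297605758410293365440513) (nat_lit 1)) (.cons (.br (nat_lit 1) (nat_lit 1) (.cons (.ev (nat_lit 4722438541563194769409) (nat_lit 1)) (.cons (.br (nat_lit 7) (nat_lit 1) (.cons (.ev (nat_lit 20366284938610862080836873031432) (nat_lit 4)) .nil)) (.cons (.ev (nat_lit 79228162532711363146541957121) (nat_lit 1)) .nil)))) .nil))))) .nil))))),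
 (.br (nat_lit 8) (nat_lit 1) (.cons (.rf (nat_lit 3303) (nat_lit 493858305440582043680)) (.cons (.rf (nat_lit 3319) (nat_lit 493858305440582043680)) (.cons (.rf (nat_lit 3336) (nat_lit 493858305440582043680)) (.cons (.br (nat_lit 13) (nat_lit 1) (.cons (.rf (nat_lit 3337) (nat_lit 493858305440582043680)) (.cons (.rf (nat_lit 3336) (nat_lit 308262436844359327018)) (.cons (.rf (nat_lit 3319) (nat_lit 308262436844359327018)) (.cons (.rf (nat_lit 3338) (nat_lit 493858305440582043680)) (.cons (.br (nat_lit 13) (nat_lit 1) (.cons (.rf (nat_lit 3337) (nat_lit 493858305440582043680)) (.cons (.rf (nat_lit 3336) (nat_lit 308262436844359327018)) (.cons (.rf (nat_lit 3319) (nat_lit 308262436844359327018)) (.cons (.rf (nat_lit 3338) (nat_lit 493858305440582043680)) .nil))))) .nil)))))) (.cons (.br (nat_lit 13) (nat_lit 1) (.cons (.rf (nat_lit 3339) (nat_lit 493858305440582043680)) (.cons (.rf (nat_lit 3336) (nat_lit 308262436844359327018)) (.cons (.rf (nat_lit 3319) (nat_lit 308262436844359327018)) (.cons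 (.rf (nat_lit 3340) (nat_lit 493858305440582043680)) (.cons (.br (nat_lit 13) (nat_lit 1) (.cons (.rf (nat_lit 3339) (nat_lit 493858305440582043680)) (.cons (.rf (nat_lit 3336) (nat_lit 308262436844359327018)) (.cons (.rf (nat_lit 3319) (nat_lit 308262436844359327018)) (.cons (.rf (nat_lit 3340) (nat_lit 493858305440582043680)) .nil))))) .nil)))))) .nil)))))),
 (.br (nat_lit 13) (nat_lit 1) (.cons (.ev (nat_lit 20282409608392483650894917795841) (nat_lit 1)) (.cons (.rf (nat_lit 2594) (nat_lit 14370998497)) (.cons (.br (nat_lit 2) (nat_lit 1) (.cons (.rf (nat_lit 31) (nat_lit 444638434)) (.cons (.br (nat_lit 7) (nat_lit 1) (.cons (.ev (nat_lit 20282720302309678149089284391168) (nat_lit 1)) (.cons (.br (nat_lit 11) (nat_lit 1) (.cons (.ev (nat_lit 317226975511404419715155952130) (nat_lit 3)) .nil)) .nil))) (.cons (.br (nat_lit 7) (nat_lit 1) (.cons (.br (nat_lit 11) (nat_lit 1) (.cons (.ev (nat_lit 21315173222870330623316601016074) (nat_lit 4)) .nil)) (.cons (.ev (nat_lit 79228167255149622135248388353)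 (nat_lit 1)) .nil))) .nil)))) (.cons (.rf (nat_lit 3341) (nat_lit 308262436844359327018)) .nil))))),
 (.br (nat_lit 13) (nat_lit 1) (.cons (.rf (nat_lit 3342) (nat_lit 493858305440582043680)) (.cons (.rf (nat_lit 3336) (nat_lit 308262436844359327018)) (.cons (.rf (nat_lit 3319) (nat_lit 308262436844359327018)) (.cons (.br (nat_lit 1) (nat_lit 1) (.cons (.br (nat_lit 7) (nat_lit 1) (.cons (.br (nat_lit 11) (nat_lit 1) (.cons (.ev (nat_lit 20679483721178678696249080742148) (nat_lit 3)) .nil)) (.cons (.ev (nat_lit 79228167255149622135248388353) (nat_lit 1)) .nil))) (.cons (.ev (nat_lit 4722438541563194769409) (nat_lit 1)) (.cons (.br (nat_lit 7) (nat_lit 1) (.cons (.br (nat_lit 11) (nat_lit 1) (.cons (.ev (nat_lit 20678859924863308790395358871812) (nat_lit 3)) .nil)) (.cons (.ev (nat_lit 310698658007442571839668481) (nat_lit 1)) (.cons (.ev (nat_lit 20361637770888301245509952078081) (nat_lit 1)) .nil)))) (.cons (.br (nat_lit 2) (nat_lit 1) (.cons (.ev (nat_lit 40723276755480201442396240675074) (nat_lit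 2)) (.cons (.br (nat_lit 7) (nat_lit 1) (.cons (.zr (nat_lit 237684487543009189960792146432) (nat_lit 1208962713384255915950081) (nat_lit 5) (nat_lit 4)) .nil)) .nil))) .nil))))) .nil))))),
 (.br (nat_lit 8) (nat_lit 1) (.cons (.rf (nat_lit 3303) (nat_lit 493858305440582043680)) (.cons (.rf (nat_lit 3319) (nat_lit 493858305440582043680)) (.cons (.rf (nat_lit 3336) (nat_lit 493858305440582043680)) (.cons (.rf (nat_lit 3341) (nat_lit 493858305440582043680)) (.cons (.br (nat_lit 13) (nat_lit 1) (.cons (.rf (nat_lit 3342) (nat_lit 493858305440582043680)) (.cons (.rf (nat_lit 3336) (nat_lit 308262436844359327018)) (.cons (.rf (nat_lit 3319) (nat_lit 308262436844359327018)) (.cons (.rf (nat_lit 3343) (nat_lit 493858305440582043680)) (.cons (.br (nat_lit 13) (nat_lit 1) (.cons (.rf (nat_lit 3341) (nat_lit 308262436844359327018)) (.cons (.rf (nat_lit 3336) (nat_lit 308262436844359327018)) (.cons (.rf (nat_lit 3319) (nat_lit 308262436844359327018)) (.cons (.rf (nat_lit 3343) (nat_lit 493858305440582043680))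 .nil))))) .nil)))))) .nil)))))),
 (.br (nat_lit 8) (nat_lit 1) (.cons (.rf (nat_lit 3303) (nat_lit 493858305440582043680)) (.cons (.rf (nat_lit 3319) (nat_lit 493858305440582043680)) (.cons (.rf (nat_lit 3336) (nat_lit 493858305440582043680)) (.cons (.rf (nat_lit 3341) (nat_lit 493858305440582043680)) (.cons (.rf (nat_lit 3344) (nat_lit 493858305440582043680)) (.cons (.br (nat_lit 8) (nat_lit 1) (.cons (.rf (nat_lit 3303) (nat_lit 493858305440582043680)) (.cons (.rf (nat_lit 3319) (nat_lit 493858305440582043680)) (.cons (.rf (nat_lit 3336) (nat_lit 493858305440582043680)) (.cons (.rf (nat_lit 3341) (nat_lit 493858305440582043680)) (.cons (.rf (nat_lit 3344) (nat_lit 493858305440582043680)) .nil)))))) .nil))))))),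
 (.br (nat_lit 7) (nat_lit 1) (.cons (.zr (nat_lit 14222439680830064296704) (nat_lit 40564820416229160745102477361153) (nat_lit 5) (nat_lit 0)) (.cons (.ev (nat_lit 20282720297605830186412409946113) (nat_lit 1)) (.cons (.br (nat_lit 9) (nat_lit 1) (.cons (.zr (nat_lit 237684492265159777125253776128) (nat_lit 1208962713103880417181697) (nat_lit 5) (nat_lit 3)) .nil)) .nil)))),
 (.br (nat_lit 11) (nat_lit 1) (.cons (.kr (nat_lit 20282719088661491769015976132864) (nat_lit 79228167255149622130936643584) (nat_lit 1) (nat_lit 0)) .nil)),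
 (.br (nat_lit 13) (nat_lit 1) (.cons (.rf (nat_lit 3345) (nat_lit 308262436844359327018)) (.cons (.rf (nat_lit 3336) (nat_lit 308262436844359327018)) (.cons (.rf (nat_lit 3319) (nat_lit 308262436844359327018)) (.cons (.rf (nat_lit 3303) (nat_lit 308262436844359327018)) (.cons (.br (nat_lit 8) (nat_lit 1) (.cons (.rf (nat_lit 3303) (nat_lit 493858305440582043680)) (.cons (.rf (nat_lit 3319) (nat_lit 493858305440582043680)) (.cons (.rf (nat_lit 3336) (nat_lit 493858305440582043680)) (.cons (.rf (nat_lit 3345) (nat_lit 493858305440582043680)) (.cons (.br (nat_lit 1) (nat_lit 1) (.cons (.rf (nat_lit 3346) (nat_lit 493858305440582043680)) (.cons (.br (nat_lit 2) (nat_lit 1) (.cons (.zr (nat_lit 14222439680830064296704) (nat_lit 40564820416229160745102477361153) (nat_lit 5) (nat_lit 0)) (.cons (.ev (nat_lit 20282410812577562097269992390913) (nat_lit 1)) (.cons (.zr (nat_lit 237684487542865633324623200768) (nat_lit 1208962713103880417181697) (nat_lit 5) (nat_lit 3)) .nil)))) (.cons (.br (nat_lit 2) (nat_lit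 1) (.cons (.rf (nat_lit 3347) (nat_lit 493858305440582043680)) (.cons (.br (nat_lit 7) (nat_lit 1) (.cons (.ev (nat_lit 21471770172616907976458678111496) (nat_lit 4)) .nil)) (.cons (.br (nat_lit 7) (nat_lit 1) (.cons (.zr (nat_lit 237684501710108634171681275904) (nat_lit 1208962713385355393892353) (nat_lit 5) (nat_lit 10)) .nil)) .nil)))) (.cons (.br (nat_lit 7) (nat_lit 1) (.cons (.br (nat_lit 9) (nat_lit 1) (.cons (.ev (nat_lit 79230594551522099707410252290) (nat_lit 2)) .nil)) (.cons (.ev (nat_lit 310698658007442571839668481) (nat_lit 1)) (.cons (.ev (nat_lit 20361948460101576002717966401793) (nat_lit 1)) .nil)))) (.cons (.br (nat_lit 7) (nat_lit 1) (.cons (.br (nat_lit 9) (nat_lit 1) (.cons (.zr (nat_lit 237684501710108634171681275904) (nat_lit 1208962713385355393892353) (nat_lit 5) (nat_lit 10)) .nil)) (.cons (.rf (nat_lit 3346) (nat_lit 308262436844359327018)) (.cons (.kr (nat_lit 20282719088661491769015976067584) (nat_lit 79228162532783139261308207104) (nat_lit 1) (nat_lit 0)) .nil)))) .nil))))))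 .nil)))))) .nil)))))),
 (.br (nat_lit 8) (nat_lit 1) (.cons (.rf (nat_lit 3303) (nat_lit 493858305440582043680)) (.cons (.rf (nat_lit 3319) (nat_lit 493858305440582043680)) (.cons (.rf (nat_lit 3336) (nat_lit 493858305440582043680)) (.cons (.rf (nat_lit 3345) (nat_lit 493858305440582043680)) (.cons (.br (nat_lit 13) (nat_lit 1) (.cons (.rf (nat_lit 3345) (nat_lit 308262436844359327018)) (.cons (.rf (nat_lit 3336) (nat_lit 308262436844359327018)) (.cons (.rf (nat_lit 3319) (nat_lit 308262436844359327018)) (.cons (.rf (nat_lit 3303) (nat_lit 308262436844359327018)) (.cons (.rf (nat_lit 3348) (nat_lit 308262436844359327018)) (.cons (.rf (nat_lit 3348) (nat_lit 493858305440582043680)) .nil))))))) .nil)))))),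
 (.br (nat_lit 8) (nat_lit 1) (.cons (.rf (nat_lit 3303) (nat_lit 493858305440582043680)) (.cons (.rf (nat_lit 3319) (nat_lit 493858305440582043680)) (.cons (.rf (nat_lit 3336) (nat_lit 493858305440582043680)) (.cons (.rf (nat_lit 3345) (nat_lit 493858305440582043680)) (.cons (.rf (nat_lit 3349) (nat_lit 493858305440582043680)) (.cons (.br (nat_lit 8) (nat_lit 1) (.cons (.rf (nat_lit 3303) (nat_lit 493858305440582043680)) (.cons (.rf (nat_lit 3319) (nat_lit 493858305440582043680)) (.cons (.rf (nat_lit 3336) (nat_lit 493858305440582043680)) (.cons (.rf (nat_lit 3345) (nat_lit 493858305440582043680)) (.cons (.rf (nat_lit 3349) (nat_lit 493858305440582043680)) .nil)))))) .nil))))))),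
 (.br (nat_lit 8) (nat_lit 1) (.cons (.rf (nat_lit 3303) (nat_lit 493858305440582043680)) (.cons (.rf (nat_lit 3319) (nat_lit 493858305440582043680)) (.cons (.rf (nat_lit 3336) (nat_lit 493858305440582043680)) (.cons (.rf (nat_lit 3345) (nat_lit 493858305440582043680)) (.cons (.rf (nat_lit 3350) (nat_lit 493858305440582043680)) (.cons (.br (nat_lit 8) (nat_lit 1) (.cons (.rf (nat_lit 3303) (nat_lit 493858305440582043680)) (.cons (.rf (nat_lit 3319) (nat_lit 493858305440582043680)) (.cons (.rf (nat_lit 3336) (nat_lit 493858305440582043680)) (.cons (.rf (nat_lit 3345) (nat_lit 493858305440582043680)) (.cons (.rf (nat_lit 3350) (nat_lit 493858305440582043680)) .nil)))))) .nil))))))),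
 (.br (nat_lit 6) (nat_lit 1) (.cons (.br (nat_lit 9) (nat_lit 0) (.cons (.br (nat_lit 10) (nat_lit 1) (.cons (.br (nat_lit 10) (nat_lit 1) (.cons (.br (nat_lit 11) (nat_lit 1) (.cons (.rf (nat_lit 3213) (nat_lit 493858305440582043680)) (.cons (.rf (nat_lit 3234) (nat_lit 493858305440582043680)) (.cons (.rf (nat_lit 3249) (nat_lit 493858305440582043680)) (.cons (.rf (nat_lit 3266) (nat_lit 493858305440582043680)) (.cons (.kr (nat_lit 281474976710656) (nat_lit 4722366482869645213696) (nat_lit 6) (nat_lit 0)) (.cons (.rf (nat_lit 3267) (nat_lit 493858305440582043680)) (.cons (.rf (nat_lit 3267) (nat_lit 458117738797769787424)) .nil)))))))) .nil)) .nil)) (.cons (.br (nat_lit 3) (nat_lit 1) (.cons (.br (nat_lit 10) (nat_lit 1) (.cons (.br (nat_lit 8) (nat_lit 1) (.cons (.rf (nat_lit 3303) (nat_lit 493858305440582043680)) (.cons (.rf (nat_lit 3319) (nat_lit 493858305440582043680)) (.cons (.rf (nat_lit 3336) (nat_lit 493858305440582043680)) (.cons (.rf (nat_lit 3345) (nat_lit 493858305440582043680))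 (.cons (.rf (nat_lit 3350) (nat_lit 493858305440582043680)) (.cons (.rf (nat_lit 3351) (nat_lit 493858305440582043680)) (.cons (.br (nat_lit 8) (nat_lit 1) (.cons (.rf (nat_lit 3303) (nat_lit 493858305440582043680)) (.cons (.rf (nat_lit 3319) (nat_lit 493858305440582043680)) (.cons (.rf (nat_lit 3336) (nat_lit 493858305440582043680)) (.cons (.rf (nat_lit 3345) (nat_lit 493858305440582043680)) (.cons (.rf (nat_lit 3350) (nat_lit 493858305440582043680)) (.cons (.rf (nat_lit 3351) (nat_lit 493858305440582043680)) .nil))))))) .nil)))))))) .nil)) .nil)) .nil))) .nil)),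
 (.br (nat_lit 8) (nat_lit 1) (.cons (.br (nat_lit 11) (nat_lit 1) (.cons (.zr (nat_lit 4835703279584416605668608) (nat_lit 618979501413260316058320897) (nat_lit 5) (nat_lit 3)) (.cons (.ev (nat_lit 40565128706517155133031002079745) (nat_lit 2)) .nil))) (.cons (.br (nat_lit 12) (nat_lit 1) (.cons (.zr (nat_lit 2417851640355158256255745) (nat_lit 158456325065422164438330507264) (nat_lit 5) (nat_lit 3)) (.cons (.ev (nat_lit 40644048588225267430097464328960) (nat_lit 2)) .nil))) .nil))),
 (.br (nat_lit 13) (nat_lit 1) (.cons (.rf (nat_lit 3353) (nat_lit 493858305440582043680)) (.cons (.br (nat_lit 9) (nat_lit 1) (.cons (.br (nat_lit 11) (nat_lit 1) (.cons (.ev (nat_lit 309485028340147835983953921) (nat_lit 1)) .nil)) (.cons (.ev (nat_lit 310698658007443667056328961) (nat_lit 1)) (.cons (.zr (nat_lit 237684487542793012780632048384) (nat_lit 40564820416229160745102477361153) (nat_lit 5) (nat_lit 0)) .nil)))) .nil))),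
 (.br (nat_lit 13) (nat_lit 1) (.cons (.rf (nat_lit 3353) (nat_lit 493858305440582043680)) (.cons (.rf (nat_lit 3354) (nat_lit 493858305440582043680)) (.cons (.br (nat_lit 13) (nat_lit 1) (.cons (.rf (nat_lit 3353) (nat_lit 493858305440582043680)) (.cons (.rf (nat_lit 3354) (nat_lit 493858305440582043680)) .nil))) .nil))))]

theorem c113 : chkAll C T R L113 (nat_lit 3336) = true := by decide +kernel

theorem l113 : (nat_lit 3336) + L113.length = (nat_lit 3356) := by decide +kernel

/-- part of the certificates -/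
def L114 : List Prf := [(.br (nat_lit 8) (nat_lit 1) (.cons (.br (nat_lit 8) (nat_lit 1) (.cons (.rf (nat_lit 3271) (nat_lit 470979981838368)) (.cons (.rf (nat_lit 3355) (nat_lit 493858305440582043680)) .nil))) (.cons (.br (nat_lit 8) (nat_lit 1) (.cons (.rf (nat_lit 3271) (nat_lit 470979981838368)) (.cons (.rf (nat_lit 3355) (nat_lit 493858305440582043680)) .nil))) (.cons (.rf (nat_lit 3355) (nat_lit 493858305440582043680)) .nil)))),
 (.br (nat_lit 13) (nat_lit 1) (.cons (.rf (nat_lit 3355) (nat_lit 493858305440582043680)) (.cons (.rf (nat_lit 3356) (nat_lit 493858305440582043680)) (.cons (.br (nat_lit 13) (nat_lit 1) (.cons (.rf (nat_lit 3355) (nat_lit 493858305440582043680)) (.cons (.rf (nat_lit 3271) (nat_lit 295047120783658)) .nil))) .nil)))),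
 (.br (nat_lit 13) (nat_lit 1) (.cons (.rf (nat_lit 3355) (nat_lit 493858305440582043680)) (.cons (.rf (nat_lit 3356) (nat_lit 493858305440582043680)) (.cons (.rf (nat_lit 3357) (nat_lit 493858305440582043680)) (.cons (.br (nat_lit 13) (nat_lit 1) (.cons (.rf (nat_lit 3355) (nat_lit 493858305440582043680)) (.cons (.rf (nat_lit 3356) (nat_lit 493858305440582043680)) (.cons (.rf (nat_lit 3357) (nat_lit 493858305440582043680)) .nil)))) .nil))))),
 (.br (nat_lit 7) (nat_lit 1) (.cons (.rf (nat_lit 84) (nat_lit 12222503970)) (.cons (.br (nat_lit 11) (nat_lit 1) (.cons (.rf (nat_lit 84) (nat_lit 13164911689)) (.cons (.rf (nat_lit 84) (nat_lit 9004424257)) (.cons (.kr (nat_lit 1208925819896104151416832) (nat_lit 309489732187827938369994752) (nat_lit 6) (nat_lit 0)) .nil)))) (.cons (.rf (nat_lit 84) (nat_lit 12092220642)) (.cons (.br (nat_lit 12) (nat_lit 1) (.cons (.ev (nat_lit 79229371440156291296028262401) (nat_lit 1)) (.cons (.br (nat_lit 13) (nat_lit 1) (.cons (.ev (nat_lit 79228167255077846016170459393)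 (nat_lit 1)) (.cons (.zr (nat_lit 4835703279584416605668096) (nat_lit 40723275532331869524185413976065) (nat_lit 5) (nat_lit 3)) .nil))) .nil))) .nil))))),
 (.br (nat_lit 11) (nat_lit 1) (.cons (.ev (nat_lit 20361637770888301245509952078081) (nat_lit 1)) .nil)),
 (.br (nat_lit 12) (nat_lit 1) (.cons (.rf (nat_lit 3358) (nat_lit 493858305440582043680)) (.cons (.rf (nat_lit 3359) (nat_lit 493858305440582043680)) (.cons (.br (nat_lit 7) (nat_lit 1) (.cons (.zr (nat_lit 2417851640355158256255745) (nat_lit 158456325065422164438330507264) (nat_lit 5) (nat_lit 3)) (.cons (.ev (nat_lit 79229371440156291296028262401) (nat_lit 1)) (.cons (.br (nat_lit 9) (nat_lit 1) (.cons (.rf (nat_lit 82) (nat_lit 13262627874)) (.cons (.kr (nat_lit 1208925819896104151416832) (nat_lit 309489732187827938369994752) (nat_lit 6) (nat_lit 0)) .nil))) (.cons (.br (nat_lit 9) (nat_lit 1) (.cons (.rf (nat_lit 3360) (nat_lit 493858305440582043680)) (.cons (.br (nat_lit 8) (nat_lit 1) (.cons (.ev (nat_lit 309485028340147835983953921)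 (nat_lit 1)) .nil)) (.cons (.zr (nat_lit 4835703279584416605668096) (nat_lit 40723275532331869524185413976065) (nat_lit 5) (nat_lit 3)) .nil)))) .nil))))) .nil)))),
 (.br (nat_lit 12) (nat_lit 1) (.cons (.rf (nat_lit 3358) (nat_lit 493858305440582043680)) (.cons (.rf (nat_lit 3359) (nat_lit 493858305440582043680)) (.cons (.rf (nat_lit 3361) (nat_lit 493858305440582043680)) (.cons (.br (nat_lit 12) (nat_lit 1) (.cons (.rf (nat_lit 3358) (nat_lit 493858305440582043680)) (.cons (.rf (nat_lit 3359) (nat_lit 493858305440582043680)) (.cons (.rf (nat_lit 3361) (nat_lit 493858305440582043680)) .nil)))) .nil))))),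
 (.br (nat_lit 12) (nat_lit 1) (.cons (.ev (nat_lit 79228162514336396287093571584) (nat_lit 1)) (.cons (.rf (nat_lit 3362) (nat_lit 493858305440582043680)) (.cons (.br (nat_lit 7) (nat_lit 1) (.cons (.ev (nat_lit 79229371440156291296028262401) (nat_lit 1)) (.cons (.rf (nat_lit 84) (nat_lit 9004424257)) (.cons (.br (nat_lit 13) (nat_lit 1) (.cons (.zr (nat_lit 4835703279584416605668096) (nat_lit 40723275532331869524185413976065) (nat_lit 5) (nat_lit 3)) (.cons (.ev (nat_lit 79538861172344120329614983168) (nat_lit 1)) .nil))) .nil)))) .nil)))),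
 (.br (nat_lit 12) (nat_lit 1) (.cons (.rf (nat_lit 3358) (nat_lit 493858305440582043680)) (.cons (.rf (nat_lit 3362) (nat_lit 493858305440582043680)) (.cons (.rf (nat_lit 3363) (nat_lit 493858305440582043680)) (.cons (.br (nat_lit 12) (nat_lit 1) (.cons (.rf (nat_lit 3358) (nat_lit 493858305440582043680)) (.cons (.rf (nat_lit 3362) (nat_lit 493858305440582043680)) (.cons (.rf (nat_lit 3363) (nat_lit 493858305440582043680)) .nil)))) .nil))))),
 (.br (nat_lit 12) (nat_lit 1) (.cons (.rf (nat_lit 3358) (nat_lit 493858305440582043680)) (.cons (.rf (nat_lit 3362) (nat_lit 493858305440582043680)) (.cons (.rf (nat_lit 3364) (nat_lit 493858305440582043680)) (.cons (.br (nat_lit 12) (nat_lit 1) (.cons (.rf (nat_lit 3358) (nat_lit 493858305440582043680)) (.cons (.rf (nat_lit 3362) (nat_lit 493858305440582043680)) (.cons (.rf (nat_lit 3364) (nat_lit 493858305440582043680)) .nil)))) .nil))))),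
 (.br (nat_lit 12) (nat_lit 1) (.cons (.rf (nat_lit 3358) (nat_lit 493858305440582043680)) (.cons (.rf (nat_lit 3362) (nat_lit 493858305440582043680)) (.cons (.rf (nat_lit 3364) (nat_lit 493858305440582043680)) (.cons (.rf (nat_lit 3365) (nat_lit 493858305440582043680)) (.cons (.br (nat_lit 12) (nat_lit 1) (.cons (.rf (nat_lit 3358) (nat_lit 493858305440582043680)) (.cons (.rf (nat_lit 3362) (nat_lit 493858305440582043680)) (.cons (.rf (nat_lit 3364) (nat_lit 493858305440582043680)) (.cons (.rf (nat_lit 3365) (nat_lit 493858305440582043680)) .nil))))) .nil)))))),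
 (.br (nat_lit 11) (nat_lit 1) (.cons (.rf (nat_lit 2594) (nat_lit 9000297537)) (.cons (.rf (nat_lit 82) (nat_lit 13164946657)) (.cons (.br (nat_lit 8) (nat_lit 1) (.cons (.rf (nat_lit 58) (nat_lit 8685607)) (.cons (.br (nat_lit 9) (nat_lit 1) (.cons (.ev (nat_lit 79228162532783140360803123201) (nat_lit 1)) (.cons (.br (nat_lit 12) (nat_lit 1) (.cons (.kr (nat_lit 20282719088661491769015976132864) (nat_lit 79228167255149622130936643584) (nat_lit 1) (nat_lit 0)) .nil)) .nil))) (.cons (.br (nat_lit 9) (nat_lit 1) (.cons (.br (nat_lit 12) (nat_lit 1) (.cons (.ev (nat_lit 79538856468352041369448022273) (nat_lit 1)) .nil)) (.cons (.rf (nat_lit 84) (nat_lit 12256053287)) .nil))) .nil)))) .nil)))),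
 (.br (nat_lit 8) (nat_lit 1) (.cons (.rf (nat_lit 31) (nat_lit 377718050)) (.cons (.br (nat_lit 11) (nat_lit 1) (.cons (.br (nat_lit 13) (nat_lit 1) (.cons (.kr (nat_lit 1208925819896104151416832) (nat_lit 309489732187827938369994752) (nat_lit 6) (nat_lit 0)) (.cons (.zr (nat_lit 4835703279584416605668608) (nat_lit 158456334510299245365696659457) (nat_lit 5) (nat_lit 3)) .nil))) (.cons (.br (nat_lit 12) (nat_lit 1) (.cons (.kr (nat_lit 1208925819896104151416832) (nat_lit 309489732187827938369994752) (nat_lit 6) (nat_lit 0)) (.cons (.zr (nat_lit 2417851639792208303031040) (nat_lit 40564819221470440297607261585409) (nat_lit 5) (nat_lit 0)) .nil))) .nil))) .nil))),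
 (.br (nat_lit 12) (nat_lit 1) (.cons (.br (nat_lit 8) (nat_lit 1) (.cons (.zr (nat_lit 2417851640355158256255745) (nat_lit 618970056536179388692168704) (nat_lit 5) (nat_lit 3)) (.cons (.ev (nat_lit 79228167255077846016170459393) (nat_lit 1)) .nil))) (.cons (.ev (nat_lit 79229371440156291296028262401) (nat_lit 1)) .nil))),
 (.br (nat_lit 12) (nat_lit 1) (.cons (.rf (nat_lit 3369) (nat_lit 493858305440582043680)) (.cons (.br (nat_lit 13) (nat_lit 1) (.cons (.ev (nat_lit 20361638975091826434863519563776) (nat_lit 1)) (.cons (.zr (nat_lit 7253554918813674955080960) (nat_lit 40723275541776746605112780128259) (nat_lit 5) (nat_lit 3)) (.cons (.ev (nat_lit 20282410812577490321150914330881) (nat_lit 1)) .nil)))) .nil))),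
 (.br (nat_lit 12) (nat_lit 1) (.cons (.rf (nat_lit 3369) (nat_lit 493858305440582043680)) (.cons (.rf (nat_lit 3370) (nat_lit 493858305440582043680)) (.cons (.br (nat_lit 12) (nat_lit 1) (.cons (.ev (nat_lit 79229371440156291296028262401) (nat_lit 1)) (.cons (.rf (nat_lit 3370) (nat_lit 493858305440582043680)) .nil))) .nil)))),
 (.br (nat_lit 8) (nat_lit 1) (.cons (.rf (nat_lit 3371) (nat_lit 493858305440582043680)) (.cons (.br (nat_lit 12) (nat_lit 1) (.cons (.br (nat_lit 12) (nat_lit 1) (.cons (.ev (nat_lit 20680721661254857562446538802438) (nat_lit 3)) .nil)) (.cons (.br (nat_lit 11) (nat_lit 1) (.cons (.ev (nat_lit 20680721661254857562446538802438) (nat_lit 3)) .nil)) .nil))) .nil))),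
 (.br (nat_lit 8) (nat_lit 1) (.cons (.rf (nat_lit 3372) (nat_lit 493858305440582043680)) (.cons (.rf (nat_lit 3371) (nat_lit 493858305440582043680)) (.cons (.br (nat_lit 8) (nat_lit 1) (.cons (.rf (nat_lit 3372) (nat_lit 493858305440582043680)) (.cons (.rf (nat_lit 3371) (nat_lit 493858305440582043680)) .nil))) .nil)))),
 (.br (nat_lit 12) (nat_lit 1) (.cons (.rf (nat_lit 3371) (nat_lit 493858305440582043680)) (.cons (.rf (nat_lit 3373) (nat_lit 493858305440582043680)) (.cons (.br (nat_lit 12) (nat_lit 1) (.cons (.rf (nat_lit 3371) (nat_lit 493858305440582043680)) (.cons (.rf (nat_lit 3373) (nat_lit 493858305440582043680)) .nil))) .nil)))),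
 (.br (nat_lit 2) (nat_lit 1) (.cons (.br (nat_lit 11) (nat_lit 1) (.cons (.rf (nat_lit 1339) (nat_lit 391152474337)) (.cons (.rf (nat_lit 1343) (nat_lit 457785484513)) (.cons (.rf (nat_lit 3367) (nat_lit 493858305440582043680)) (.cons (.br (nat_lit 11) (nat_lit 1) (.cons (.rf (nat_lit 2594) (nat_lit 9033851969)) (.cons (.rf (nat_lit 82) (nat_lit 14238688481)) (.cons (.rf (nat_lit 3367) (nat_lit 493858305440582043680)) .nil)))) .nil))))) (.cons (.br (nat_lit 8) (nat_lit 1) (.cons (.rf (nat_lit 31) (nat_lit 377718050)) (.cons (.rf (nat_lit 3368) (nat_lit 493858305440582043680)) (.cons (.br (nat_lit 8) (nat_lit 1) (.cons (.rf (nat_lit 31) (nat_lit 377718050)) (.cons (.rf (nat_lit 3368) (nat_lit 493858305440582043680)) .nil))) .nil)))) (.cons (.rf (nat_lit 3366) (nat_lit 493858305440582043680)) (.cons (.rf (nat_lit 3366) (nat_lit 492741412732994160672)) (.cons (.br (nat_lit 12) (nat_lit 1) (.cons (.rf (nat_lit 3371) (nat_lit 493858305440582043680)) (.cons (.rf (nat_lit 3373) (nat_lit 493858305440582043680))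 (.cons (.rf (nat_lit 3374) (nat_lit 493858305440582043680)) (.cons (.br (nat_lit 12) (nat_lit 1) (.cons (.rf (nat_lit 3371) (nat_lit 493858305440582043680)) (.cons (.rf (nat_lit 3373) (nat_lit 493858305440582043680)) (.cons (.rf (nat_lit 3374) (nat_lit 493858305440582043680)) .nil)))) .nil))))) .nil)))))),
 (.br (nat_lit 2) (nat_lit 1) (.cons (.rf (nat_lit 31) (nat_lit 377783522)) (.cons (.rf (nat_lit 1339) (nat_lit 391085365537)) (.cons (.rf (nat_lit 1339) (nat_lit 288009525282)) (.cons (.rf (nat_lit 3366) (nat_lit 492741412732994160672)) (.cons (.br (nat_lit 7) (nat_lit 1) (.cons (.rf (nat_lit 84) (nat_lit 14336433186)) (.cons (.rf (nat_lit 84) (nat_lit 14238655714)) (.cons (.rf (nat_lit 3375) (nat_lit 492741412732994160672)) (.cons (.br (nat_lit 11) (nat_lit 1) (.cons (.ev (nat_lit 310693935713298771209093121) (nat_lit 1)) (.cons (.rf (nat_lit 84) (nat_lit 8972966977)) .nil))) .nil))))) .nil)))))),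
 (.br (nat_lit 12) (nat_lit 1) (.cons (.rf (nat_lit 3366) (nat_lit 492741412732994160672)) (.cons (.rf (nat_lit 3375) (nat_lit 492741412732994160672)) (.cons (.rf (nat_lit 3376) (nat_lit 492741412732994160672)) (.cons (.br (nat_lit 2) (nat_lit 1) (.cons (.br (nat_lit 8) (nat_lit 1) (.cons (.zr (nat_lit 396140812571321687967720080640) (nat_lit 620188427233156420209737729) (nat_lit 5) (nat_lit 0)) .nil)) (.cons (.br (nat_lit 7) (nat_lit 1) (.cons (.zr (nat_lit 4835703279584416605668608) (nat_lit 618979501413260316058320897) (nat_lit 5) (nat_lit 3)) .nil)) (.cons (.ev (nat_lit 79538856449905297295738470656) (nat_lit 1)) .nil)))) .nil))))),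
 (.br (nat_lit 11) (nat_lit 1) (.cons (.rf (nat_lit 3366) (nat_lit 493858305440582043680)) (.cons (.rf (nat_lit 3375) (nat_lit 493858305440582043680)) (.cons (.rf (nat_lit 3376) (nat_lit 493858305440582043680)) (.cons (.br (nat_lit 12) (nat_lit 1) (.cons (.rf (nat_lit 3366) (nat_lit 492741412732994160672)) (.cons (.rf (nat_lit 3375) (nat_lit 492741412732994160672)) (.cons (.br (nat_lit 12) (nat_lit 1) (.cons (.rf (nat_lit 3366) (nat_lit 492741412732994160672)) (.cons (.rf (nat_lit 3375) (nat_lit 492741412732994160672)) (.cons (.rf (nat_lit 3376) (nat_lit 492741412732994160672)) (.cons (.kr (nat_lit 309485009821345068724781056) (nat_lit 79228162514264337593543950336) (nat_lit 11) (nat_lit 0)) .nil))))) (.cons (.rf (nat_lit 3377) (nat_lit 493858305440582043680)) (.cons (.br (nat_lit 12) (nat_lit 1) (.cons (.rf (nat_lit 3366) (nat_lit 492741412732994160672)) (.cons (.rf (nat_lit 3375) (nat_lit 492741412732994160672)) (.cons (.kr (nat_lit 309485009821345068724781056) (nat_lit 79228162514264337593543950336)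 (nat_lit 11) (nat_lit 0)) (.cons (.rf (nat_lit 3377) (nat_lit 493858305440582043680)) .nil))))) .nil)))))) .nil))))),
 (.br (nat_lit 11) (nat_lit 1) (.cons (.rf (nat_lit 3366) (nat_lit 493858305440582043680)) (.cons (.rf (nat_lit 3375) (nat_lit 493858305440582043680)) (.cons (.rf (nat_lit 3376) (nat_lit 493858305440582043680)) (.cons (.rf (nat_lit 3378) (nat_lit 493858305440582043680)) (.cons (.br (nat_lit 11) (nat_lit 1) (.cons (.rf (nat_lit 3366) (nat_lit 493858305440582043680)) (.cons (.rf (nat_lit 3375) (nat_lit 493858305440582043680)) (.cons (.rf (nat_lit 3376) (nat_lit 493858305440582043680)) (.cons (.rf (nat_lit 3378) (nat_lit 493858305440582043680)) .nil))))) .nil)))))),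
 (.br (nat_lit 12) (nat_lit 1) (.cons (.rf (nat_lit 3366) (nat_lit 492741412732994160672)) (.cons (.rf (nat_lit 3375) (nat_lit 492741412732994160672)) (.cons (.rf (nat_lit 3379) (nat_lit 492741412732994160672)) (.cons (.br (nat_lit 12) (nat_lit 1) (.cons (.rf (nat_lit 3366) (nat_lit 492741412732994160672)) (.cons (.rf (nat_lit 3375) (nat_lit 492741412732994160672)) (.cons (.rf (nat_lit 3379) (nat_lit 492741412732994160672)) .nil)))) .nil))))),
 (.br (nat_lit 12) (nat_lit 1) (.cons (.rf (nat_lit 3366) (nat_lit 492741412732994160672)) (.cons (.rf (nat_lit 3375) (nat_lit 492741412732994160672)) (.cons (.rf (nat_lit 3379) (nat_lit 492741412732994160672)) (.cons (.rf (nat_lit 3380) (nat_lit 493858305440582043680)) (.cons (.br (nat_lit 12) (nat_lit 1) (.cons (.rf (nat_lit 3366) (nat_lit 492741412732994160672)) (.cons (.rf (nat_lit 3375) (nat_lit 492741412732994160672)) (.cons (.rf (nat_lit 3379) (nat_lit 492741412732994160672)) (.cons (.rf (nat_lit 3380) (nat_lit 493858305440582043680)) .nil))))) .nil)))))),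
 (.br (nat_lit 11) (nat_lit 1) (.cons (.rf (nat_lit 3366) (nat_lit 493858305440582043680)) (.cons (.rf (nat_lit 3375) (nat_lit 493858305440582043680)) (.cons (.rf (nat_lit 3379) (nat_lit 493858305440582043680)) (.cons (.rf (nat_lit 3381) (nat_lit 493858305440582043680)) (.cons (.br (nat_lit 11) (nat_lit 1) (.cons (.rf (nat_lit 3366) (nat_lit 493858305440582043680)) (.cons (.rf (nat_lit 3375) (nat_lit 493858305440582043680)) (.cons (.rf (nat_lit 3379) (nat_lit 493858305440582043680)) (.cons (.rf (nat_lit 3381) (nat_lit 493858305440582043680)) .nil))))) .nil))))))]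

theorem c114 : chkAll C T R L114 (nat_lit 3356) = true := by decide +kernel

theorem l114 : (nat_lit 3356) + L114.length = (nat_lit 3383) := by decide +kernel

/-- part of the certificates -/
def L115 : List Prf := [(.br (nat_lit 11) (nat_lit 1) (.cons (.rf (nat_lit 3366) (nat_lit 493858305440582043680)) (.cons (.rf (nat_lit 3375) (nat_lit 493858305440582043680)) (.cons (.rf (nat_lit 3379) (nat_lit 493858305440582043680)) (.cons (.rf (nat_lit 3381) (nat_lit 493858305440582043680)) (.cons (.rf (nat_lit 3382) (nat_lit 493858305440582043680)) (.cons (.br (nat_lit 11) (nat_lit 1) (.cons (.rf (nat_lit 3366) (nat_lit 493858305440582043680)) (.cons (.rf (nat_lit 3375) (nat_lit 493858305440582043680)) (.cons (.rf (nat_lit 3379) (nat_lit 493858305440582043680)) (.cons (.rf (nat_lit 3381) (nat_lit 493858305440582043680)) (.cons (.rf (nat_lit 3382) (nat_lit 493858305440582043680)) .nil)))))) .nil))))))),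
 (.br (nat_lit 11) (nat_lit 1) (.cons (.rf (nat_lit 2594) (nat_lit 8994006242)) (.cons (.rf (nat_lit 82) (nat_lit 13165110306)) (.cons (.br (nat_lit 8) (nat_lit 1) (.cons (.ev (nat_lit 310693954160042844918644736) (nat_lit 1)) (.cons (.rf (nat_lit 3209) (nat_lit 493858305440582043680)) (.cons (.br (nat_lit 9) (nat_lit 1) (.cons (.br (nat_lit 12) (nat_lit 1) (.cons (.ev (nat_lit 79229371440156291296028262401) (nat_lit 1)) .nil)) (.cons (.rf (nat_lit 84) (nat_lit 12256058433)) .nil))) .nil)))) .nil)))),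
 (.br (nat_lit 11) (nat_lit 1) (.cons (.rf (nat_lit 1339) (nat_lit 391152637986)) (.cons (.rf (nat_lit 1343) (nat_lit 457790727202)) (.cons (.rf (nat_lit 3384) (nat_lit 493858305440582043680)) (.cons (.br (nat_lit 11) (nat_lit 1) (.cons (.rf (nat_lit 2594) (nat_lit 9027560674)) (.cons (.rf (nat_lit 82) (nat_lit 14238852130)) (.cons (.rf (nat_lit 3384) (nat_lit 493858305440582043680)) .nil)))) .nil))))),
 (.br (nat_lit 9) (nat_lit 1) (.cons (.rf (nat_lit 84) (nat_lit 14336433217)) (.cons (.ev (nat_lit 4740813508422643286016) (nat_lit 1)) (.cons (.rf (nat_lit 82) (nat_lit 12256058433)) .nil)))),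
 (.br (nat_lit 1) (nat_lit 1) (.cons (.kr (nat_lit 1) (nat_lit 18446744073709551616) (nat_lit 0) (nat_lit 1)) (.cons (.rf (nat_lit 29) (nat_lit 8620321)) (.cons (.rf (nat_lit 3385) (nat_lit 493858305440582043680)) (.cons (.rf (nat_lit 3385) (nat_lit 492741412732994160672)) (.cons (.br (nat_lit 8) (nat_lit 1) (.cons (.rf (nat_lit 58) (nat_lit 8690753)) (.cons (.rf (nat_lit 3386) (nat_lit 493858305440582043680)) (.cons (.rf (nat_lit 3386) (nat_lit 492741412732994160672)) (.cons (.rf (nat_lit 1339) (nat_lit 458798372898)) .nil))))) .nil)))))),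
 (.br (nat_lit 11) (nat_lit 1) (.cons (.rf (nat_lit 82) (nat_lit 13165173794)) (.cons (.kr (nat_lit 4722366483969156841729) (nat_lit 18446744078021361664) (nat_lit 0) (nat_lit 6)) (.cons (.br (nat_lit 8) (nat_lit 1) (.cons (.ev (nat_lit 310693954160042844918644736) (nat_lit 1)) (.cons (.rf (nat_lit 2361) (nat_lit 482281300166805536)) (.cons (.br (nat_lit 7) (nat_lit 1) (.cons (.br (nat_lit 12) (nat_lit 1) (.cons (.ev (nat_lit 79231798736672323313892066050) (nat_lit 2)) .nil)) (.cons (.rf (nat_lit 84) (nat_lit 12255994945)) .nil))) .nil)))) .nil)))),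
 (.br (nat_lit 11) (nat_lit 1) (.cons (.rf (nat_lit 1343) (nat_lit 457792822306)) (.cons (.kr (nat_lit 4722366483969156841729) (nat_lit 18446744078021361664) (nat_lit 0) (nat_lit 6)) (.cons (.rf (nat_lit 3388) (nat_lit 493858305440582043680)) (.cons (.br (nat_lit 11) (nat_lit 1) (.cons (.rf (nat_lit 82) (nat_lit 14238915618)) (.cons (.kr (nat_lit 4722366483969156841729) (nat_lit 18446744078021361664) (nat_lit 0) (nat_lit 6)) (.cons (.rf (nat_lit 3388) (nat_lit 493858305440582043680)) .nil)))) .nil))))),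
 (.br (nat_lit 12) (nat_lit 1) (.cons (.ev (nat_lit 79231803514379035101886611459) (nat_lit 2)) .nil)),
 (.br (nat_lit 7) (nat_lit 1) (.cons (.rf (nat_lit 84) (nat_lit 14336369729)) (.cons (.br (nat_lit 11) (nat_lit 1) (.cons (.rf (nat_lit 3390) (nat_lit 493858305440582043680)) (.cons (.br (nat_lit 11) (nat_lit 1) (.cons (.rf (nat_lit 3390) (nat_lit 493858305440582043680)) .nil)) .nil))) (.cons (.rf (nat_lit 82) (nat_lit 12255994945)) .nil)))),
 (.br (nat_lit 1) (nat_lit 1) (.cons (.rf (nat_lit 29) (nat_lit 8685793)) (.cons (.rf (nat_lit 58) (nat_lit 8685607)) (.cons (.rf (nat_lit 3389) (nat_lit 493858305440582043680)) (.cons (.rf (nat_lit 3389) (nat_lit 492741412732994160672)) (.cons (.br (nat_lit 8) (nat_lit 1) (.cons (.rf (nat_lit 58) (nat_lit 8690753)) (.cons (.rf (nat_lit 3391) (nat_lit 493858305440582043680)) (.cons (.rf (nat_lit 3391) (nat_lit 492741412732994160672)) (.cons (.kr (nat_lit 4722366483969156841729) (nat_lit 18446744078021361664) (nat_lit 0) (nat_lit 6)) .nil))))) .nil)))))),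
 (.br (nat_lit 7) (nat_lit 1) (.cons (.ev (nat_lit 4740813508422643286016) (nat_lit 1)) (.cons (.rf (nat_lit 2594) (nat_lit 12216181985)) (.cons (.br (nat_lit 9) (nat_lit 1) (.cons (.ev (nat_lit 309485028340147835983953921) (nat_lit 1)) (.cons (.ev (nat_lit 79228162514336396287093571584) (nat_lit 1)) (.cons (.br (nat_lit 11) (nat_lit 1) (.cons (.ev (nat_lit 79538861172271781260617056256) (nat_lit 1)) (.cons (.br (nat_lit 12) (nat_lit 1) (.cons (.zr (nat_lit 1237982540872527132982509575) (nat_lit 396150483996325349074961499392) (nat_lit 15) (nat_lit 5)) .nil)) .nil))) .nil)))) (.cons (.br (nat_lit 9) (nat_lit 1) (.cons (.ev (nat_lit 310698695117666455637918210) (nat_lit 2)) (.cons (.br (nat_lit 11) (nat_lit 1) (.cons (.ev (nat_lit 79229371440156291296028262401) (nat_lit 1)) (.cons (.br (nat_lit 12) (nat_lit 1) (.cons (.zr (nat_lit 928469252119888818419531776) (nat_lit 396142021497141585175677764865) (nat_lit 5) (nat_lit 10)) .nil)) .nil))) (.cons (.br (nat_lit 11) (nat_lit 1) (.cons (.br (nat_lit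 12) (nat_lit 1) (.cons (.zr (nat_lit 309513362900179647998197768) (nat_lit 396149275052058990402041348096) (nat_lit 10) (nat_lit 0)) .nil)) (.cons (.ev (nat_lit 20282409603670189507094287220993) (nat_lit 1)) .nil))) .nil)))) .nil))))),
 (.br (nat_lit 9) (nat_lit 1) (.cons (.ev (nat_lit 309485009893403762274402304) (nat_lit 1)) (.cons (.br (nat_lit 12) (nat_lit 1) (.cons (.ev (nat_lit 79849555163325312252988359170) (nat_lit 2)) (.cons (.ev (nat_lit 79229371440156291296028262401) (nat_lit 1)) .nil))) (.cons (.br (nat_lit 13) (nat_lit 1) (.cons (.ev (nat_lit 20283032205189658090245967708419) (nat_lit 2)) (.cons (.ev (nat_lit 20282409603651742763020577669376) (nat_lit 1)) .nil))) .nil)))),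
 (.br (nat_lit 11) (nat_lit 1) (.cons (.ev (nat_lit 310693935713298771209093121) (nat_lit 1)) (.cons (.ev (nat_lit 40565128697090941248226839232512) (nat_lit 2)) .nil))),
 (.br (nat_lit 7) (nat_lit 1) (.cons (.rf (nat_lit 31) (nat_lit 377522471)) (.cons (.rf (nat_lit 2594) (nat_lit 12249736417)) (.cons (.br (nat_lit 9) (nat_lit 1) (.cons (.ev (nat_lit 1213666632842672057876481) (nat_lit 1)) (.cons (.br (nat_lit 11) (nat_lit 1) (.cons (.ev (nat_lit 79538856468352041369448022273) (nat_lit 1)) (.cons (.br (nat_lit 12) (nat_lit 1) (.cons (.zr (nat_lit 396140812571321687967720080640) (nat_lit 620188427233156420209737729) (nat_lit 5) (nat_lit 0)) .nil)) .nil))) (.cons (.br (nat_lit 11) (nat_lit 1) (.cons (.br (nat_lit 12) (nat_lit 1) (.cons (.zr (nat_lit 396140812571321687967787188224) (nat_lit 620188427233156420192960513) (nat_lit 5) (nat_lit 6)) .nil)) (.cons (.ev (nat_lit 20282719088661491769020287877121) (nat_lit 1)) .nil))) .nil)))) (.cons (.br (nat_lit 9) (nat_lit 1) (.cons (.ev (nat_lit 1213666632842672057876481)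 (nat_lit 1)) (.cons (.br (nat_lit 11) (nat_lit 1) (.cons (.br (nat_lit 12) (nat_lit 1) (.cons (.zr (nat_lit 928469252119893216398934016) (nat_lit 396142021497141584076183240705) (nat_lit 5) (nat_lit 4)) .nil)) (.cons (.ev (nat_lit 20282409608374109246985422831616) (nat_lit 1)) .nil))) (.cons (.rf (nat_lit 84) (nat_lit 12093301985)) .nil)))) .nil))))),
 (.br (nat_lit 10) (nat_lit 1) (.cons (.rf (nat_lit 84) (nat_lit 7863476258)) (.cons (.br (nat_lit 11) (nat_lit 1) (.cons (.ev (nat_lit 79228167255077846016170393601) (nat_lit 1)) .nil)) .nil))),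
 (.br (nat_lit 12) (nat_lit 1) (.cons (.rf (nat_lit 2517) (nat_lit 492741342432969459744)) (.cons (.br (nat_lit 11) (nat_lit 1) (.cons (.ev (nat_lit 20282719088679938513093997428736) (nat_lit 1)) .nil)) .nil))),
 (.br (nat_lit 1) (nat_lit 1) (.cons (.rf (nat_lit 31) (nat_lit 377719073)) (.cons (.rf (nat_lit 2594) (nat_lit 12249736417)) (.cons (.br (nat_lit 9) (nat_lit 1) (.cons (.ev (nat_lit 1213666632842672057876481) (nat_lit 1)) (.cons (.rf (nat_lit 3397) (nat_lit 15433072044983552032)) (.cons (.rf (nat_lit 3398) (nat_lit 493858305440582043680)) .nil)))) (.cons (.br (nat_lit 9) (nat_lit 1) (.cons (.ev (nat_lit 1213666632842672057876481) (nat_lit 1)) (.cons (.br (nat_lit 11) (nat_lit 1) (.cons (.br (nat_lit 12) (nat_lit 1) (.cons (.ev (nat_lit 20679483740031251132974515946758) (nat_lit 3)) .nil)) (.cons (.ev (nat_lit 20282409608392555991059132383233) (nat_lit 1)) .nil))) (.cons (.zr (nat_lit 18889610048865679966725) (nat_lit 20282413230466022755999408062464) (nat_lit 5) (nat_lit 0)) .nil)))) .nil))))),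
 (.br (nat_lit 11) (nat_lit 1) (.cons (.rf (nat_lit 3396) (nat_lit 493858305440582043680)) (.cons (.rf (nat_lit 3399) (nat_lit 493858305440582043680)) (.cons (.ev (nat_lit 1213666632842672057876481) (nat_lit 1)) (.cons (.br (nat_lit 9) (nat_lit 1) (.cons (.br (nat_lit 7) (nat_lit 1) (.cons (.zr (nat_lit 14222655853612245188608) (nat_lit 620178945462587345407575297) (nat_lit 5) (nat_lit 10)) (.cons (.ev (nat_lit 20282410817318375323118113652736) (nat_lit 1)) .nil))) (.cons (.ev (nat_lit 310693935713298771209093121) (nat_lit 1)) (.cons (.br (nat_lit 1) (nat_lit 1) (.cons (.br (nat_lit 12) (nat_lit 1) (.cons (.zr (nat_lit 396140812571321687967720080640) (nat_lit 620188427233156420209737729) (nat_lit 5) (nat_lit 0)) .nil)) (.cons (.ev (nat_lit 79537647542532709310466621696) (nat_lit 1)) (.cons (.br (nat_lit 7) (nat_lit 1) (.cons (.ev (nat_lit 20837316249929020310005957722880) (nat_lit 3)) .nil)) .nil)))) (.cons (.ev (nat_lit 20282720297605758410293365440513) (nat_lit 1)) .nil))))) .nil))))),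
 (.br (nat_lit 8) (nat_lit 1) (.cons (.rf (nat_lit 3383) (nat_lit 493858305440582043680)) (.cons (.rf (nat_lit 3387) (nat_lit 493858305440582043680)) (.cons (.rf (nat_lit 3392) (nat_lit 493858305440582043680)) (.cons (.br (nat_lit 1) (nat_lit 1) (.cons (.rf (nat_lit 2654) (nat_lit 424371362081)) (.cons (.rf (nat_lit 2654) (nat_lit 424438470881)) (.cons (.rf (nat_lit 3393) (nat_lit 493858305440582043680)) (.cons (.rf (nat_lit 3393) (nat_lit 492741412732994160672)) (.cons (.br (nat_lit 7) (nat_lit 1) (.cons (.ev (nat_lit 4740813508422643286016) (nat_lit 1)) (.cons (.rf (nat_lit 3394) (nat_lit 493858305440582043680)) (.cons (.rf (nat_lit 3394) (nat_lit 492741412732994160672)) (.cons (.br (nat_lit 9) (nat_lit 1) (.cons (.rf (nat_lit 3395) (nat_lit 493858305440582043680)) (.cons (.rf (nat_lit 3395) (nat_lit 492741412732994160672)) (.cons (.ev (nat_lit 20282410812577562097269992390913) (nat_lit 1)) .nil)))) .nil))))) .nil)))))) (.cons (.br (nat_lit 11) (nat_lit 1) (.cons (.rf (nat_lit 3396) (nat_lit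 493858305440582043680)) (.cons (.rf (nat_lit 3399) (nat_lit 493858305440582043680)) (.cons (.ev (nat_lit 1213666632842672057876481) (nat_lit 1)) (.cons (.rf (nat_lit 3400) (nat_lit 493858305440582043680)) (.cons (.br (nat_lit 11) (nat_lit 1) (.cons (.rf (nat_lit 3396) (nat_lit 493858305440582043680)) (.cons (.rf (nat_lit 3399) (nat_lit 493858305440582043680)) (.cons (.ev (nat_lit 1213666632842672057876481) (nat_lit 1)) (.cons (.rf (nat_lit 3400) (nat_lit 493858305440582043680)) .nil))))) .nil)))))) .nil)))))),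
 (.br (nat_lit 8) (nat_lit 1) (.cons (.rf (nat_lit 3383) (nat_lit 493858305440582043680)) (.cons (.rf (nat_lit 3387) (nat_lit 493858305440582043680)) (.cons (.rf (nat_lit 3392) (nat_lit 493858305440582043680)) (.cons (.rf (nat_lit 3401) (nat_lit 493858305440582043680)) (.cons (.rf (nat_lit 3401) (nat_lit 492741412732994160672)) (.cons (.br (nat_lit 8) (nat_lit 1) (.cons (.rf (nat_lit 3383) (nat_lit 493858305440582043680)) (.cons (.rf (nat_lit 3387) (nat_lit 493858305440582043680)) (.cons (.rf (nat_lit 3392) (nat_lit 493858305440582043680)) (.cons (.rf (nat_lit 3401) (nat_lit 493858305440582043680)) (.cons (.rf (nat_lit 3401) (nat_lit 492741412732994160672)) .nil)))))) .nil))))))),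
 (.br (nat_lit 11) (nat_lit 1) (.cons (.ev (nat_lit 309485009821627643229896704) (nat_lit 1)) (.cons (.rf (nat_lit 2594) (nat_lit 8993999143)) (.cons (.br (nat_lit 8) (nat_lit 1) (.cons (.ev (nat_lit 310693954160042844918644736) (nat_lit 1)) (.cons (.ev (nat_lit 310698676454187740765880576) (nat_lit 1)) (.cons (.br (nat_lit 2) (nat_lit 1) (.cons (.ev (nat_lit 620178963981109745841996290) (nat_lit 2)) (.cons (.rf (nat_lit 84) (nat_lit 12255831265)) .nil))) .nil)))) .nil)))),
 (.br (nat_lit 11) (nat_lit 1) (.cons (.rf (nat_lit 1343) (nat_lit 457792817191)) (.cons (.rf (nat_lit 1339) (nat_lit 390917822503)) (.cons (.rf (nat_lit 3403) (nat_lit 493858305440582043680)) (.cons (.br (nat_lit 11) (nat_lit 1) (.cons (.rf (nat_lit 82) (nat_lit 14238910503)) (.cons (.rf (nat_lit 2594) (nat_lit 9027553575)) (.cons (.rf (nat_lit 3403) (nat_lit 493858305440582043680)) .nil)))) .nil))))),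
 (.br (nat_lit 11) (nat_lit 1) (.cons (.br (nat_lit 12) (nat_lit 1) (.cons (.ev (nat_lit 20441798010487122543377064657665) (nat_lit 2)) .nil)) .nil)),
 (.br (nat_lit 2) (nat_lit 1) (.cons (.rf (nat_lit 84) (nat_lit 14336206049)) (.cons (.br (nat_lit 11) (nat_lit 1) (.cons (.rf (nat_lit 3405) (nat_lit 493858305440582043680)) (.cons (.br (nat_lit 11) (nat_lit 1) (.cons (.rf (nat_lit 3405) (nat_lit 493858305440582043680)) .nil)) .nil))) (.cons (.rf (nat_lit 82) (nat_lit 12255831265)) .nil)))),
 (.br (nat_lit 1) (nat_lit 1) (.cons (.ev (nat_lit 72058693566398721) (nat_lit 1)) (.cons (.rf (nat_lit 58) (nat_lit 8690722)) (.cons (.rf (nat_lit 3404) (nat_lit 493858305440582043680)) (.cons (.rf (nat_lit 3404) (nat_lit 492741412732994160672)) (.cons (.br (nat_lit 8) (nat_lit 1) (.cons (.rf (nat_lit 58) (nat_lit 8690753)) (.cons (.rf (nat_lit 3406) (nat_lit 493858305440582043680)) (.cons (.rf (nat_lit 3406) (nat_lit 492741412732994160672)) (.cons (.rf (nat_lit 1339) (nat_lit 458563557415)) .nil))))) .nil)))))),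
 (.br (nat_lit 2) (nat_lit 1) (.cons (.rf (nat_lit 31) (nat_lit 377527586)) (.cons (.rf (nat_lit 2594) (nat_lit 12221424705)) (.cons (.ev (nat_lit 18518802767275950336) (nat_lit 1)) (.cons (.br (nat_lit 9) (nat_lit 1) (.cons (.ev (nat_lit 313125991345746265201770496) (nat_lit 2)) (.cons (.br (nat_lit 11) (nat_lit 1) (.cons (.ev (nat_lit 309489732259885536719667456) (nat_lit 1)) (.cons (.br (nat_lit 12) (nat_lit 1) (.cons (.ev (nat_lit 20838559016226418276734584947968) (nat_lit 3)) .nil)) .nil))) (.cons (.br (nat_lit 11) (nat_lit 1) (.cons (.br (nat_lit 12) (nat_lit 1) (.cons (.ev (nat_lit 20839175558950122238957628752128) (nat_lit 3)) .nil)) (.cons (.ev (nat_lit 309489732259885536719667456) (nat_lit 1)) .nil))) .nil)))) .nil))))),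
 (.br (nat_lit 9) (nat_lit 1) (.cons (.ev (nat_lit 310698658007443667056328961) (nat_lit 1)) (.cons (.br (nat_lit 11) (nat_lit 1) (.cons (.ev (nat_lit 311917028560026247429816835) (nat_lit 2)) (.cons (.ev (nat_lit 309489750706629610429219073) (nat_lit 1)) .nil))) (.cons (.br (nat_lit 11) (nat_lit 1) (.cons (.ev (nat_lit 309489750706629610429219073) (nat_lit 1)) (.cons (.ev (nat_lit 311917028560026247429816835) (nat_lit 2)) .nil))) .nil)))),
 (.br (nat_lit 13) (nat_lit 1) (.cons (.ev (nat_lit 20283032205171282559341416218880) (nat_lit 2)) (.cons (.ev (nat_lit 20282410817318375323118113652736) (nat_lit 1)) .nil))),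
 (.br (nat_lit 11) (nat_lit 1) (.cons (.br (nat_lit 12) (nat_lit 1) (.cons (.kr (nat_lit 79537652246524223125951873280) (nat_lit 20282409603670117168020994457600) (nat_lit 1) (nat_lit 0)) .nil)) .nil)),
 (.br (nat_lit 11) (nat_lit 1) (.cons (.rf (nat_lit 84) (nat_lit 8971691047)) (.cons (.ev (nat_lit 309489750706629610429219073) (nat_lit 1)) .nil)))]

theorem c115 : chkAll C T R L115 (nat_lit 3383) = true := by decide +kernel

theorem l115 : (nat_lit 3383) + L115.length = (nat_lit 3413) := by decide +kernel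

/-- part of the certificates -/
def L116 : List Prf := [(.br (nat_lit 9) (nat_lit 1) (.cons (.zr (nat_lit 928455029536092813097239040) (nat_lit 9444733528689260625924) (nat_lit 5) (nat_lit 4)) (.cons (.rf (nat_lit 3412) (nat_lit 493858305440582043680)) (.cons (.br (nat_lit 12) (nat_lit 1) (.cons (.ev (nat_lit 309489750706629610429219073) (nat_lit 1)) (.cons (.br (nat_lit 11) (nat_lit 1) (.cons (.ev (nat_lit 309489750706629610429219073) (nat_lit 1)) .nil)) .nil))) .nil)))),
 (.br (nat_lit 2) (nat_lit 1) (.cons (.zr (nat_lit 928455029536092813097239040) (nat_lit 9444733528689260625924) (nat_lit 5) (nat_lit 4)) (.cons (.br (nat_lit 11) (nat_lit 1) (.cons (.ev (nat_lit 79228162514264620168049065984) (nat_lit 1)) (.cons (.br (nat_lit 12) (nat_lit 1) (.cons (.zr (nat_lit 237684501710108634171698053120) (nat_lit 620178945462587345407574529) (nat_lit 5) (nat_lit 10)) .nil)) .nil))) (.cons (.br (nat_lit 11) (nat_lit 1) (.cons (.br (nat_lit 12) (nat_lit 1) (.cons (.ev (nat_lit 20838556589004121846976921143046)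 (nat_lit 3)) .nil)) (.cons (.ev (nat_lit 20282410812577490321150914330881) (nat_lit 1)) .nil))) .nil)))),
 (.br (nat_lit 11) (nat_lit 1) (.cons (.rf (nat_lit 3413) (nat_lit 493858305440582043680)) (.cons (.rf (nat_lit 3414) (nat_lit 493858305440582043680)) (.cons (.br (nat_lit 2) (nat_lit 1) (.cons (.ev (nat_lit 309489750706629610429219073) (nat_lit 1)) (.cons (.ev (nat_lit 79228162514264620168049065984) (nat_lit 1)) (.cons (.ev (nat_lit 20282410812577490321150914330881) (nat_lit 1)) .nil)))) .nil)))),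
 (.br (nat_lit 8) (nat_lit 1) (.cons (.rf (nat_lit 3383) (nat_lit 493858305440582043680)) (.cons (.rf (nat_lit 3402) (nat_lit 493858305440582043680)) (.cons (.rf (nat_lit 3407) (nat_lit 493858305440582043680)) (.cons (.br (nat_lit 1) (nat_lit 1) (.cons (.ev (nat_lit 72058693566398721) (nat_lit 1)) (.cons (.rf (nat_lit 2654) (nat_lit 424438634561)) (.cons (.rf (nat_lit 3408) (nat_lit 493858305440582043680)) (.cons (.rf (nat_lit 3408) (nat_lit 492741412732994160672)) (.cons (.br (nat_lit 2) (nat_lit 1) (.cons (.ev (nat_lit 1208925819614633469739264) (nat_lit 1)) (.cons (.rf (nat_lit 3409) (nat_lit 493858305440582043680)) (.cons (.rf (nat_lit 3409) (nat_lit 492741412732994160672)) (.cons (.br (nat_lit 9) (nat_lit 1) (.cons (.rf (nat_lit 3410) (nat_lit 493858305440582043680)) (.cons (.rf (nat_lit 3410) (nat_lit 492741412732994160672)) (.cons (.ev (nat_lit 20282409608374036907916424904704) (nat_lit 1)) .nil)))) .nil))))) .nil)))))) (.cons (.br (nat_lit 1) (nat_lit 1) (.cons (.ev (nat_lit 72058693566398721)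 (nat_lit 1)) (.cons (.br (nat_lit 2) (nat_lit 1) (.cons (.rf (nat_lit 31) (nat_lit 377560353)) (.cons (.br (nat_lit 11) (nat_lit 1) (.cons (.rf (nat_lit 3411) (nat_lit 493858305440582043680)) (.cons (.br (nat_lit 12) (nat_lit 1) (.cons (.rf (nat_lit 3411) (nat_lit 493858305440582043680)) (.cons (.zr (nat_lit 55340232221162405888) (nat_lit 40564820416229160745102460583937) (nat_lit 5) (nat_lit 0)) .nil))) .nil))) (.cons (.ev (nat_lit 1208925819614633469739264) (nat_lit 1)) .nil)))) (.cons (.br (nat_lit 2) (nat_lit 1) (.cons (.rf (nat_lit 31) (nat_lit 377527586)) (.cons (.rf (nat_lit 2594) (nat_lit 12254979137)) (.cons (.br (nat_lit 9) (nat_lit 1) (.cons (.ev (nat_lit 310698676454187740765880576) (nat_lit 1)) (.cons (.br (nat_lit 11) (nat_lit 1) (.cons (.ev (nat_lit 309489732259885536719667456) (nat_lit 1)) (.cons (.br (nat_lit 12) (nat_lit 1) (.cons (.zr (nat_lit 309489824421551618371420160) (nat_lit 316915067908985372958630347778) (nat_lit 10) (nat_lit 5)) .nil)) .nil))) (.cons (.br (nat_lit 11)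 (nat_lit 1) (.cons (.br (nat_lit 12) (nat_lit 1) (.cons (.ev (nat_lit 20838561424596431615056144697088) (nat_lit 3)) .nil)) (.cons (.ev (nat_lit 309489732259885536719667456) (nat_lit 1)) .nil))) .nil)))) (.cons (.ev (nat_lit 18518802767275950336) (nat_lit 1)) .nil))))) (.cons (.br (nat_lit 11) (nat_lit 1) (.cons (.rf (nat_lit 3413) (nat_lit 493858305440582043680)) (.cons (.rf (nat_lit 3414) (nat_lit 493858305440582043680)) (.cons (.rf (nat_lit 3415) (nat_lit 493858305440582043680)) (.cons (.br (nat_lit 11) (nat_lit 1) (.cons (.rf (nat_lit 3413) (nat_lit 493858305440582043680)) (.cons (.rf (nat_lit 3414) (nat_lit 493858305440582043680)) (.cons (.rf (nat_lit 3415) (nat_lit 493858305440582043680)) .nil)))) .nil))))) (.cons (.br (nat_lit 2) (nat_lit 1) (.cons (.ev (nat_lit 1208925819614633469739264) (nat_lit 1)) (.cons (.ev (nat_lit 18518802767275950336) (nat_lit 1)) (.cons (.br (nat_lit 13) (nat_lit 1) (.cons (.rf (nat_lit 84) (nat_lit 13167207458)) (.cons (.br (nat_lit 12) (nat_lit 1) (.cons (.br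 (nat_lit 11) (nat_lit 1) (.cons (.ev (nat_lit 20838559006782117091419067974400) (nat_lit 3)) .nil)) (.cons (.br (nat_lit 9) (nat_lit 1) (.cons (.ev (nat_lit 20838559006782117091419067974400) (nat_lit 3)) .nil)) .nil))) (.cons (.ev (nat_lit 20282410812595937065224623882496) (nat_lit 1)) .nil)))) (.cons (.rf (nat_lit 2594) (nat_lit 14335353921)) .nil))))) .nil)))))) .nil)))))),
 (.br (nat_lit 8) (nat_lit 1) (.cons (.rf (nat_lit 3383) (nat_lit 493858305440582043680)) (.cons (.rf (nat_lit 3402) (nat_lit 493858305440582043680)) (.cons (.rf (nat_lit 3407) (nat_lit 493858305440582043680)) (.cons (.rf (nat_lit 3416) (nat_lit 493858305440582043680)) (.cons (.rf (nat_lit 3416) (nat_lit 492741412732994160672)) (.cons (.br (nat_lit 8) (nat_lit 1) (.cons (.rf (nat_lit 3383) (nat_lit 493858305440582043680)) (.cons (.rf (nat_lit 3402) (nat_lit 493858305440582043680)) (.cons (.rf (nat_lit 3407) (nat_lit 493858305440582043680)) (.cons (.rf (nat_lit 3416) (nat_lit 493858305440582043680)) (.cons (.rf (nat_lit 3416)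 (nat_lit 492741412732994160672)) .nil)))))) .nil))))))),
 (.br (nat_lit 2) (nat_lit 1) (.cons (.rf (nat_lit 31) (nat_lit 377529570)) (.cons (.rf (nat_lit 2594) (nat_lit 12223519809)) (.cons (.br (nat_lit 7) (nat_lit 1) (.cons (.rf (nat_lit 84) (nat_lit 13165173794)) (.cons (.rf (nat_lit 84) (nat_lit 12092480577)) (.cons (.br (nat_lit 11) (nat_lit 1) (.cons (.ev (nat_lit 309489750634853491351290113) (nat_lit 1)) (.cons (.ev (nat_lit 309489732259885536719667456) (nat_lit 1)) .nil))) .nil)))) (.cons (.br (nat_lit 11) (nat_lit 1) (.cons (.rf (nat_lit 84) (nat_lit 14238915618)) (.cons (.br (nat_lit 7) (nat_lit 1) (.cons (.ev (nat_lit 309489732259885536719667456) (nat_lit 1)) (.cons (.br (nat_lit 12) (nat_lit 1) (.cons (.ev (nat_lit 21474862670977046444928597164288) (nat_lit 4)) .nil)) .nil))) (.cons (.ev (nat_lit 309489750634853491351290113) (nat_lit 1)) .nil)))) .nil))))),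
 (.br (nat_lit 7) (nat_lit 1) (.cons (.rf (nat_lit 84) (nat_lit 14238915649)) (.cons (.br (nat_lit 11) (nat_lit 1) (.cons (.ev (nat_lit 80157840655238578973630923520) (nat_lit 2)) (.cons (.br (nat_lit 12) (nat_lit 1) (.cons (.ev (nat_lit 80781636915340024318565483777) (nat_lit 3)) .nil)) .nil))) (.cons (.br (nat_lit 11) (nat_lit 1) (.cons (.br (nat_lit 12) (nat_lit 1) (.cons (.ev (nat_lit 79230580384494989072238904066) (nat_lit 2)) .nil)) (.cons (.rf (nat_lit 84) (nat_lit 8972737577)) .nil))) .nil)))),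
 (.br (nat_lit 13) (nat_lit 1) (.cons (.rf (nat_lit 84) (nat_lit 8972896297)) (.cons (.rf (nat_lit 1844) (nat_lit 455693364962602884394)) .nil))),
 (.br (nat_lit 7) (nat_lit 1) (.cons (.rf (nat_lit 84) (nat_lit 13165173825)) (.cons (.br (nat_lit 12) (nat_lit 1) (.cons (.ev (nat_lit 79229376180897180265585049856) (nat_lit 1)) (.cons (.ev (nat_lit 79229376162522775260906979585) (nat_lit 1)) .nil))) (.cons (.br (nat_lit 13) (nat_lit 1) (.cons (.ev (nat_lit 20282409608392483651990134456321) (nat_lit 1)) (.cons (.ev (nat_lit 20282409608374109246985422831616) (nat_lit 1)) .nil))) .nil)))),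
 (.br (nat_lit 2) (nat_lit 1) (.cons (.rf (nat_lit 84) (nat_lit 13165173825)) (.cons (.rf (nat_lit 3189) (nat_lit 410189588017055776)) (.cons (.br (nat_lit 13) (nat_lit 1) (.cons (.ev (nat_lit 20282410812577490321150914330881) (nat_lit 1)) (.cons (.ev (nat_lit 20282410812596008841343701942528) (nat_lit 1)) .nil))) .nil)))),
 (.br (nat_lit 11) (nat_lit 1) (.cons (.rf (nat_lit 3421) (nat_lit 493858305440582043680)) (.cons (.rf (nat_lit 3422) (nat_lit 493858305440582043680)) (.cons (.br (nat_lit 2) (nat_lit 1) (.cons (.br (nat_lit 12) (nat_lit 1) (.cons (.ev (nat_lit 158765838465070870426047350020) (nat_lit 3)) .nil)) (.cons (.ev (nat_lit 79537647542532709310466621696) (nat_lit 1)) (.cons (.ev (nat_lit 20282410812577490321150914330881) (nat_lit 1)) .nil)))) .nil)))),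
 (.br (nat_lit 11) (nat_lit 1) (.cons (.rf (nat_lit 3421) (nat_lit 493858305440582043680)) (.cons (.rf (nat_lit 3422) (nat_lit 493858305440582043680)) (.cons (.rf (nat_lit 3423) (nat_lit 493858305440582043680)) (.cons (.br (nat_lit 11) (nat_lit 1) (.cons (.rf (nat_lit 3421) (nat_lit 493858305440582043680)) (.cons (.rf (nat_lit 3422) (nat_lit 493858305440582043680)) (.cons (.rf (nat_lit 3423) (nat_lit 493858305440582043680)) .nil)))) .nil))))),
 (.br (nat_lit 1) (nat_lit 1) (.cons (.br (nat_lit 11) (nat_lit 1) (.cons (.ev (nat_lit 309489732259885536719667456) (nat_lit 1)) (.cons (.ev (nat_lit 309489750634853491351290113) (nat_lit 1)) .nil))) (.cons (.rf (nat_lit 58) (nat_lit 12814377)) (.cons (.br (nat_lit 12) (nat_lit 1) (.cons (.br (nat_lit 11) (nat_lit 1) (.cons (.ev (nat_lit 20680105127902101834896427254530) (nat_lit 3)) .nil)) (.cons (.rf (nat_lit 84) (nat_lit 9038765129)) .nil))) .nil)))),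
 (.br (nat_lit 12) (nat_lit 1) (.cons (.ev (nat_lit 79228162514264620168049065984) (nat_lit 1)) (.cons (.rf (nat_lit 3425) (nat_lit 493858305440582043680)) (.cons (.br (nat_lit 1) (nat_lit 1) (.cons (.ev (nat_lit 79228162532783140360803123201) (nat_lit 1)) (.cons (.br (nat_lit 7) (nat_lit 1) (.cons (.ev (nat_lit 20838561424670505695827160401668) (nat_lit 3)) .nil)) (.cons (.br (nat_lit 7) (nat_lit 1) (.cons (.ev (nat_lit 20680105127902101834896427254530) (nat_lit 3)) .nil)) .nil)))) .nil)))),
 (.br (nat_lit 12) (nat_lit 1) (.cons (.rf (nat_lit 3424) (nat_lit 493858305440582043680)) (.cons (.rf (nat_lit 3425) (nat_lit 493858305440582043680)) (.cons (.rf (nat_lit 3426) (nat_lit 493858305440582043680)) (.cons (.br (nat_lit 12) (nat_lit 1) (.cons (.rf (nat_lit 3424) (nat_lit 493858305440582043680)) (.cons (.rf (nat_lit 3425) (nat_lit 493858305440582043680)) (.cons (.rf (nat_lit 3426) (nat_lit 493858305440582043680)) .nil)))) .nil))))),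
 (.br (nat_lit 12) (nat_lit 1) (.cons (.ev (nat_lit 79229376180897180265585049856) (nat_lit 1)) (.cons (.rf (nat_lit 3427) (nat_lit 493858305440582043680)) (.cons (.br (nat_lit 1) (nat_lit 1) (.cons (.br (nat_lit 11) (nat_lit 1) (.cons (.ev (nat_lit 79538861190790864403324534785) (nat_lit 1)) .nil)) (.cons (.ev (nat_lit 309489732259885536719667456) (nat_lit 1)) (.cons (.br (nat_lit 2) (nat_lit 1) (.cons (.ev (nat_lit 20680105127902101834896427254530) (nat_lit 3)) .nil)) .nil)))) .nil)))),
 (.br (nat_lit 12) (nat_lit 1) (.cons (.rf (nat_lit 3424) (nat_lit 493858305440582043680)) (.cons (.rf (nat_lit 3427) (nat_lit 493858305440582043680)) (.cons (.rf (nat_lit 3428) (nat_lit 493858305440582043680)) (.cons (.br (nat_lit 12) (nat_lit 1) (.cons (.rf (nat_lit 3424) (nat_lit 493858305440582043680)) (.cons (.rf (nat_lit 3427) (nat_lit 493858305440582043680)) (.cons (.rf (nat_lit 3428) (nat_lit 493858305440582043680)) .nil)))) .nil))))),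
 (.br (nat_lit 12) (nat_lit 1) (.cons (.rf (nat_lit 3424) (nat_lit 493858305440582043680)) (.cons (.rf (nat_lit 3427) (nat_lit 493858305440582043680)) (.cons (.rf (nat_lit 3429) (nat_lit 493858305440582043680)) (.cons (.br (nat_lit 12) (nat_lit 1) (.cons (.rf (nat_lit 3424) (nat_lit 493858305440582043680)) (.cons (.rf (nat_lit 3427) (nat_lit 493858305440582043680)) (.cons (.rf (nat_lit 3429) (nat_lit 493858305440582043680)) .nil)))) .nil))))),
 (.br (nat_lit 8) (nat_lit 1) (.cons (.rf (nat_lit 3383) (nat_lit 493858305440582043680)) (.cons (.rf (nat_lit 3402) (nat_lit 493858305440582043680)) (.cons (.rf (nat_lit 3417) (nat_lit 493858305440582043680)) (.cons (.br (nat_lit 1) (nat_lit 1) (.cons (.rf (nat_lit 2654) (nat_lit 424203819233)) (.cons (.rf (nat_lit 2654) (nat_lit 424371591233)) (.cons (.rf (nat_lit 3418) (nat_lit 493858305440582043680)) (.cons (.rf (nat_lit 3418) (nat_lit 492741412732994160672)) (.cons (.br (nat_lit 2) (nat_lit 1) (.cons (.rf (nat_lit 2654) (nat_lit 424371591202)) (.cons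 (.rf (nat_lit 3419) (nat_lit 493858305440582043680)) (.cons (.rf (nat_lit 3419) (nat_lit 492741412732994160672)) (.cons (.br (nat_lit 7) (nat_lit 1) (.cons (.rf (nat_lit 3420) (nat_lit 493858305440582043680)) (.cons (.rf (nat_lit 3420) (nat_lit 492741412732994160672)) (.cons (.zr (nat_lit 2417870158030934804856835) (nat_lit 162259276848102829611128637621248) (nat_lit 10) (nat_lit 0)) .nil)))) .nil))))) .nil)))))) (.cons (.br (nat_lit 12) (nat_lit 1) (.cons (.rf (nat_lit 3424) (nat_lit 493858305440582043680)) (.cons (.rf (nat_lit 3427) (nat_lit 493858305440582043680)) (.cons (.rf (nat_lit 3429) (nat_lit 493858305440582043680)) (.cons (.rf (nat_lit 3430) (nat_lit 493858305440582043680)) (.cons (.br (nat_lit 12) (nat_lit 1) (.cons (.rf (nat_lit 3424) (nat_lit 493858305440582043680)) (.cons (.rf (nat_lit 3427) (nat_lit 493858305440582043680)) (.cons (.rf (nat_lit 3429) (nat_lit 493858305440582043680)) (.cons (.rf (nat_lit 3430) (nat_lit 493858305440582043680)) .nil))))) .nil)))))) .nil)))))),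
 (.br (nat_lit 8) (nat_lit 1) (.cons (.rf (nat_lit 3383) (nat_lit 493858305440582043680)) (.cons (.rf (nat_lit 3402) (nat_lit 493858305440582043680)) (.cons (.rf (nat_lit 3417) (nat_lit 493858305440582043680)) (.cons (.rf (nat_lit 3431) (nat_lit 493858305440582043680)) (.cons (.rf (nat_lit 3431) (nat_lit 492741412732994160672)) (.cons (.br (nat_lit 8) (nat_lit 1) (.cons (.rf (nat_lit 3383) (nat_lit 493858305440582043680)) (.cons (.rf (nat_lit 3402) (nat_lit 493858305440582043680)) (.cons (.rf (nat_lit 3417) (nat_lit 493858305440582043680)) (.cons (.rf (nat_lit 3431) (nat_lit 493858305440582043680)) (.cons (.rf (nat_lit 3431) (nat_lit 492741412732994160672)) .nil)))))) .nil))))))),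
 (.br (nat_lit 13) (nat_lit 1) (.cons (.ev (nat_lit 20282410812596008841343701942528) (nat_lit 1)) (.cons (.br (nat_lit 9) (nat_lit 1) (.cons (.ev (nat_lit 20837321095150385799852237980928) (nat_lit 3)) .nil)) (.cons (.ev (nat_lit 20282410812577490321150914330881) (nat_lit 1)) .nil)))),
 (.br (nat_lit 2) (nat_lit 1) (.cons (.zr (nat_lit 928469196779656597223768064) (nat_lit 1208962713385355393892353) (nat_lit 5) (nat_lit 10)) (.cons (.br (nat_lit 11) (nat_lit 1) (.cons (.ev (nat_lit 20837321066705795796658500732678) (nat_lit 3)) .nil)) (.cons (.ev (nat_lit 20282410812596008841343701942528) (nat_lit 1)) .nil)))),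
 (.br (nat_lit 2) (nat_lit 1) (.cons (.zr (nat_lit 928469196779656597223768064) (nat_lit 1208962713385355393892353) (nat_lit 5) (nat_lit 10)) (.cons (.br (nat_lit 9) (nat_lit 1) (.cons (.ev (nat_lit 20837321066705795796658500732678) (nat_lit 3)) .nil)) (.cons (.rf (nat_lit 3433) (nat_lit 493858305440582043680)) .nil)))),
 (.br (nat_lit 7) (nat_lit 1) (.cons (.br (nat_lit 9) (nat_lit 1) (.cons (.rf (nat_lit 29) (nat_lit 11830498)) (.cons (.br (nat_lit 13) (nat_lit 1) (.cons (.zr (nat_lit 928469196779656597223768064) (nat_lit 1208962713385355393892353) (nat_lit 5) (nat_lit 10)) (.cons (.kr (nat_lit 79228162514264337593543950592) (nat_lit 18446744073726328832) (nat_lit 1) (nat_lit 0)) .nil))) (.cons (.br (nat_lit 11) (nat_lit 1) (.cons (.zr (nat_lit 928469196779656597223768064) (nat_lit 1208962713385355393892353) (nat_lit 5) (nat_lit 10)) (.cons (.rf (nat_lit 31) (nat_lit 448038114)) .nil))) .nil)))) (.cons (.br (nat_lit 2) (nat_lit 1) (.cons (.rf (nat_lit 29) (nat_lit 11601191)) (.cons (.br (nat_lit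 11) (nat_lit 1) (.cons (.rf (nat_lit 31) (nat_lit 414254375)) (.cons (.br (nat_lit 12) (nat_lit 1) (.cons (.ev (nat_lit 20363190041178015095596697978628) (nat_lit 3)) .nil)) .nil))) (.cons (.br (nat_lit 13) (nat_lit 1) (.cons (.rf (nat_lit 31) (nat_lit 447808807)) (.cons (.ev (nat_lit 20282410812596008841343701942528) (nat_lit 1)) .nil))) .nil)))) (.cons (.ev (nat_lit 1208944338697776210641153) (nat_lit 1)) (.cons (.br (nat_lit 13) (nat_lit 1) (.cons (.rf (nat_lit 3433) (nat_lit 493858305440582043680)) (.cons (.rf (nat_lit 3434) (nat_lit 493858305440582043680)) (.cons (.rf (nat_lit 3435) (nat_lit 493858305440582043680)) (.cons (.br (nat_lit 13) (nat_lit 1) (.cons (.ev (nat_lit 20282410812577490321150914330881) (nat_lit 1)) (.cons (.rf (nat_lit 3434) (nat_lit 493858305440582043680)) (.cons (.rf (nat_lit 3435) (nat_lit 493858305440582043680)) .nil)))) .nil))))) (.cons (.br (nat_lit 2) (nat_lit 1) (.cons (.br (nat_lit 11) (nat_lit 1) (.cons (.zr (nat_lit 928469196779656597223768064) (nat_lit 1208962713385355393892353)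 (nat_lit 5) (nat_lit 10)) (.cons (.rf (nat_lit 31) (nat_lit 447972642)) .nil))) (.cons (.rf (nat_lit 2061) (nat_lit 441811271881526345)) (.cons (.br (nat_lit 11) (nat_lit 1) (.cons (.br (nat_lit 12) (nat_lit 1) (.cons (.ev (nat_lit 79229376180969519334616531200) (nat_lit 1)) .nil)) (.cons (.br (nat_lit 9) (nat_lit 1) (.cons (.ev (nat_lit 79229376180969519334616531200) (nat_lit 1)) .nil)) (.cons (.zr (nat_lit 60847228810955011271841787609088) (nat_lit 1208962713385355377115137) (nat_lit 5) (nat_lit 10)) .nil)))) (.cons (.br (nat_lit 9) (nat_lit 1) (.cons (.ev (nat_lit 20282721520735570960587990106115) (nat_lit 2)) (.cons (.br (nat_lit 11) (nat_lit 1) (.cons (.ev (nat_lit 79229371440156291296028262401) (nat_lit 1)) .nil)) .nil))) .nil))))) .nil))))))]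

theorem c116 : chkAll C T R L116 (nat_lit 3413) = true := by decide +kernel

theorem l116 : (nat_lit 3413) + L116.length = (nat_lit 3437) := by decide +kernel

/-- part of the certificates -/
def L117 : List Prf := [(.br (nat_lit 12) (nat_lit 1) (.cons (.ev (nat_lit 79229376162450436191875498241) (nat_lit 1)) (.cons (.kr (nat_lit 79228162514264337593543950592) (nat_lit 18446744073726328832) (nat_lit 1) (nat_lit 0)) (.cons (.ev (nat_lit 79229371440156291296028262401) (nat_lit 1)) .nil)))),
 (.br (nat_lit 1) (nat_lit 1) (.cons (.br (nat_lit 9) (nat_lit 1) (.cons (.rf (nat_lit 29) (nat_lit 11831521)) (.cons (.br (nat_lit 11) (nat_lit 1) (.cons (.ev (nat_lit 158768242093982189581970374659) (nat_lit 2)) (.cons (.zr (nat_lit 928469196779656597223768064) (nat_lit 1208962713385355393892353) (nat_lit 5) (nat_lit 10)) .nil))) (.cons (.br (nat_lit 11) (nat_lit 1) (.cons (.zr (nat_lit 928469196779656597223768064) (nat_lit 1208962713385355393892353) (nat_lit 5) (nat_lit 10)) (.cons (.ev (nat_lit 20282720302309749924113145659648)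 (nat_lit 1)) .nil))) .nil)))) (.cons (.br (nat_lit 7) (nat_lit 1) (.cons (.rf (nat_lit 29) (nat_lit 11766049)) (.cons (.br (nat_lit 11) (nat_lit 1) (.cons (.ev (nat_lit 79229376180897180265585049856) (nat_lit 1)) (.cons (.zr (nat_lit 928469196779656597223768064) (nat_lit 1208962713385355393892353) (nat_lit 5) (nat_lit 10)) .nil))) (.cons (.br (nat_lit 12) (nat_lit 1) (.cons (.zr (nat_lit 928469196779656597223768064) (nat_lit 1208962713385355393892353) (nat_lit 5) (nat_lit 10)) (.cons (.zr (nat_lit 60847228810955011271841787609088) (nat_lit 1208962713385355377115137) (nat_lit 5) (nat_lit 10)) .nil))) .nil)))) (.cons (.rf (nat_lit 3436) (nat_lit 493858305440582043680)) (.cons (.rf (nat_lit 3436) (nat_lit 492741412732994160672)) (.cons (.br (nat_lit 7) (nat_lit 1) (.cons (.br (nat_lit 11) (nat_lit 1) (.cons (.br (nat_lit 12) (nat_lit 1) (.cons (.ev (nat_lit 79229371440156291296028262401) (nat_lit 1)) .nil)) (.cons (.ev (nat_lit 20282720302309749924113145659648) (nat_lit 1)) .nil))) (.cons (.br (nat_lit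 9) (nat_lit 1) (.cons (.rf (nat_lit 3437) (nat_lit 493858305440582043680)) (.cons (.ev (nat_lit 20282720302309749924113145659648) (nat_lit 1)) .nil))) (.cons (.br (nat_lit 9) (nat_lit 1) (.cons (.ev (nat_lit 310698658007443667056328961) (nat_lit 1)) (.cons (.br (nat_lit 11) (nat_lit 1) (.cons (.ev (nat_lit 310698676526526809797361920) (nat_lit 1)) .nil)) (.cons (.br (nat_lit 11) (nat_lit 1) (.cons (.ev (nat_lit 310698676526526809797361920) (nat_lit 1)) .nil)) .nil)))) (.cons (.ev (nat_lit 1208944338697776210641153) (nat_lit 1)) .nil))))) .nil)))))),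
 (.br (nat_lit 1) (nat_lit 1) (.cons (.br (nat_lit 12) (nat_lit 1) (.cons (.ev (nat_lit 159077717659142905772805980930) (nat_lit 2)) (.cons (.ev (nat_lit 79229376162450436191875498241) (nat_lit 1)) .nil))) (.cons (.ev (nat_lit 1208944338697776210641153) (nat_lit 1)) (.cons (.rf (nat_lit 3436) (nat_lit 492741412732994160672)) (.cons (.rf (nat_lit 3437) (nat_lit 493858305440582043680)) .nil))))),
 (.br (nat_lit 12) (nat_lit 1) (.cons (.rf (nat_lit 3436) (nat_lit 492741412732994160672)) (.cons (.rf (nat_lit 3438) (nat_lit 492741412732994160672)) (.cons (.rf (nat_lit 3439) (nat_lit 493858305440582043680)) (.cons (.br (nat_lit 9) (nat_lit 1) (.cons (.ev (nat_lit 310698676454187740765880576) (nat_lit 1)) (.cons (.br (nat_lit 1) (nat_lit 1) (.cons (.ev (nat_lit 1208925819614633469739264) (nat_lit 1)) .nil)) (.cons (.zr (nat_lit 61084913298498021020354452914178) (nat_lit 929664047517371307720179712) (nat_lit 5) (nat_lit 10)) .nil)))) .nil))))),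
 (.br (nat_lit 12) (nat_lit 1) (.cons (.rf (nat_lit 3436) (nat_lit 492741412732994160672)) (.cons (.rf (nat_lit 3438) (nat_lit 492741412732994160672)) (.cons (.rf (nat_lit 3439) (nat_lit 493858305440582043680)) (.cons (.rf (nat_lit 3440) (nat_lit 493858305440582043680)) (.cons (.br (nat_lit 12) (nat_lit 1) (.cons (.rf (nat_lit 3436) (nat_lit 492741412732994160672)) (.cons (.rf (nat_lit 3438) (nat_lit 492741412732994160672)) (.cons (.ev (nat_lit 79229371440156291296028262401) (nat_lit 1)) (.cons (.rf (nat_lit 3440) (nat_lit 493858305440582043680)) .nil))))) .nil)))))),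
 (.br (nat_lit 12) (nat_lit 1) (.cons (.rf (nat_lit 3436) (nat_lit 492741412732994160672)) (.cons (.ev (nat_lit 79849564589539197057151205379) (nat_lit 2)) (.cons (.rf (nat_lit 3441) (nat_lit 492741412732994160672)) (.cons (.br (nat_lit 13) (nat_lit 1) (.cons (.kr (nat_lit 309485009821345068724781312) (nat_lit 18446744073726328832) (nat_lit 1) (nat_lit 0)) (.cons (.ev (nat_lit 79229371458530696300740018176) (nat_lit 1)) (.cons (.ev (nat_lit 310693935713298771209093121) (nat_lit 1)) .nil)))) .nil))))),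
 (.br (nat_lit 12) (nat_lit 1) (.cons (.rf (nat_lit 3436) (nat_lit 492741412732994160672)) (.cons (.rf (nat_lit 3438) (nat_lit 492741412732994160672)) (.cons (.rf (nat_lit 3441) (nat_lit 492741412732994160672)) (.cons (.rf (nat_lit 3442) (nat_lit 493858305440582043680)) (.cons (.br (nat_lit 12) (nat_lit 1) (.cons (.rf (nat_lit 3436) (nat_lit 492741412732994160672)) (.cons (.rf (nat_lit 3438) (nat_lit 492741412732994160672)) (.cons (.rf (nat_lit 3441) (nat_lit 492741412732994160672)) (.cons (.rf (nat_lit 3442) (nat_lit 493858305440582043680)) .nil))))) .nil)))))),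
 (.br (nat_lit 11) (nat_lit 1) (.cons (.rf (nat_lit 3436) (nat_lit 493858305440582043680)) (.cons (.rf (nat_lit 3438) (nat_lit 493858305440582043680)) (.cons (.rf (nat_lit 3441) (nat_lit 493858305440582043680)) (.cons (.rf (nat_lit 3443) (nat_lit 493858305440582043680)) (.cons (.br (nat_lit 12) (nat_lit 1) (.cons (.rf (nat_lit 3436) (nat_lit 492741412732994160672)) (.cons (.rf (nat_lit 3438) (nat_lit 492741412732994160672)) (.cons (.rf (nat_lit 3441) (nat_lit 492741412732994160672)) (.cons (.rf (nat_lit 3443) (nat_lit 492741412732994160672)) (.cons (.kr (nat_lit 309485009821345068724781056) (nat_lit 79228162514264337593543950336) (nat_lit 11) (nat_lit 0)) .nil)))))) .nil)))))),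
 (.br (nat_lit 8) (nat_lit 1) (.cons (.rf (nat_lit 3383) (nat_lit 493858305440582043680)) (.cons (.rf (nat_lit 3402) (nat_lit 493858305440582043680)) (.cons (.rf (nat_lit 3417) (nat_lit 493858305440582043680)) (.cons (.rf (nat_lit 3432) (nat_lit 493858305440582043680)) (.cons (.br (nat_lit 11) (nat_lit 1) (.cons (.rf (nat_lit 3436) (nat_lit 493858305440582043680)) (.cons (.rf (nat_lit 3438) (nat_lit 493858305440582043680)) (.cons (.rf (nat_lit 3441) (nat_lit 493858305440582043680)) (.cons (.rf (nat_lit 3443) (nat_lit 493858305440582043680)) (.cons (.rf (nat_lit 3444) (nat_lit 493858305440582043680)) (.cons (.br (nat_lit 11) (nat_lit 1) (.cons (.rf (nat_lit 3436) (nat_lit 493858305440582043680)) (.cons (.rf (nat_lit 3438) (nat_lit 493858305440582043680)) (.cons (.rf (nat_lit 3441) (nat_lit 493858305440582043680)) (.cons (.rf (nat_lit 3443) (nat_lit 493858305440582043680)) (.cons (.rf (nat_lit 3444) (nat_lit 493858305440582043680)) .nil)))))) .nil))))))) .nil)))))),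
 (.br (nat_lit 8) (nat_lit 1) (.cons (.rf (nat_lit 3383) (nat_lit 493858305440582043680)) (.cons (.rf (nat_lit 3402) (nat_lit 493858305440582043680)) (.cons (.rf (nat_lit 3417) (nat_lit 493858305440582043680)) (.cons (.rf (nat_lit 3432) (nat_lit 493858305440582043680)) (.cons (.rf (nat_lit 3445) (nat_lit 493858305440582043680)) (.cons (.br (nat_lit 8) (nat_lit 1) (.cons (.rf (nat_lit 3383) (nat_lit 493858305440582043680)) (.cons (.rf (nat_lit 3402) (nat_lit 493858305440582043680)) (.cons (.rf (nat_lit 3417) (nat_lit 493858305440582043680)) (.cons (.rf (nat_lit 3432) (nat_lit 493858305440582043680)) (.cons (.rf (nat_lit 3445) (nat_lit 493858305440582043680)) .nil)))))) .nil))))))),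
 (.br (nat_lit 9) (nat_lit 0) (.cons (.br (nat_lit 10) (nat_lit 1) (.cons (.br (nat_lit 8) (nat_lit 1) (.cons (.rf (nat_lit 3383) (nat_lit 493858305440582043680)) (.cons (.rf (nat_lit 3402) (nat_lit 493858305440582043680)) (.cons (.rf (nat_lit 3417) (nat_lit 493858305440582043680)) (.cons (.rf (nat_lit 3432) (nat_lit 493858305440582043680)) (.cons (.rf (nat_lit 3446) (nat_lit 493858305440582043680)) (.cons (.rf (nat_lit 3446) (nat_lit 492741412732994160672)) (.cons (.br (nat_lit 8) (nat_lit 1) (.cons (.rf (nat_lit 3383) (nat_lit 493858305440582043680)) (.cons (.rf (nat_lit 3402) (nat_lit 493858305440582043680)) (.cons (.rf (nat_lit 3417) (nat_lit 493858305440582043680)) (.cons (.rf (nat_lit 3432) (nat_lit 493858305440582043680)) (.cons (.rf (nat_lit 3446) (nat_lit 493858305440582043680)) (.cons (.rf (nat_lit 3446) (nat_lit 492741412732994160672)) .nil))))))) .nil)))))))) .nil)) .nil)),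
 (.br (nat_lit 2) (nat_lit 0) (.cons (.br (nat_lit 9) (nat_lit 0) (.cons (.rf (nat_lit 2990) (nat_lit 325702574508064)) (.cons (.br (nat_lit 9) (nat_lit 0) (.cons (.rf (nat_lit 2990) (nat_lit 325702574508064)) .nil)) .nil))) (.cons (.rf (nat_lit 2406) (nat_lit 9039972074560)) (.cons (.br (nat_lit 7) (nat_lit 0) (.cons (.rf (nat_lit 2876) (nat_lit 325702574508064)) (.cons (.br (nat_lit 10) (nat_lit 1) (.cons (.rf (nat_lit 3149) (nat_lit 11584701642934304)) (.cons (.br (nat_lit 10) (nat_lit 1) (.cons (.rf (nat_lit 3149) (nat_lit 11584701642934304)) (.cons (.br (nat_lit 10) (nat_lit 1) (.cons (.rf (nat_lit 3149) (nat_lit 11584701642934304)) (.cons (.br (nat_lit 3) (nat_lit 1) (.cons (.br (nat_lit 9) (nat_lit 0) (.cons (.br (nat_lit 8) (nat_lit 1) (.cons (.ev (nat_lit 282574488338689) (nat_lit 1)) (.cons (.rf (nat_lit 3161) (nat_lit 493858305440582043680)) (.cons (.rf (nat_lit 3168) (nat_lit 493858305440582043680)) (.cons (.rf (nat_lit 3176) (nat_lit 493858305440582043680)) (.cons (.rf (nat_lit 3186)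 (nat_lit 493858305440582043680)) (.cons (.rf (nat_lit 3186) (nat_lit 492741412732994160672)) (.cons (.rf (nat_lit 3186) (nat_lit 455883953382594021408)) .nil)))))))) .nil)) .nil)) .nil))) .nil))) .nil))) (.cons (.br (nat_lit 6) (nat_lit 1) (.cons (.rf (nat_lit 3352) (nat_lit 11584701642934304)) (.cons (.br (nat_lit 6) (nat_lit 1) (.cons (.rf (nat_lit 3352) (nat_lit 11584701642934304)) (.cons (.br (nat_lit 9) (nat_lit 0) (.cons (.rf (nat_lit 3447) (nat_lit 14242959524133701664)) (.cons (.br (nat_lit 9) (nat_lit 0) (.cons (.rf (nat_lit 3447) (nat_lit 14242959524133701664)) .nil)) .nil))) .nil))) .nil))) .nil)))) .nil)))),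
 (.br (nat_lit 11) (nat_lit 1) (.cons (.rf (nat_lit 82) (nat_lit 13165110306)) (.cons (.rf (nat_lit 2594) (nat_lit 9002386658)) (.cons (.br (nat_lit 8) (nat_lit 1) (.cons (.ev (nat_lit 282574488338689) (nat_lit 1)) (.cons (.br (nat_lit 1) (nat_lit 1) (.cons (.ev (nat_lit 79228167255077565640705376513) (nat_lit 1)) (.cons (.rf (nat_lit 2823) (nat_lit 421248738799313394986)) .nil))) (.cons (.zr (nat_lit 14222439962313630941184) (nat_lit 620178945606421054228529153) (nat_lit 5) (nat_lit 5)) .nil)))) .nil)))),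
 (.br (nat_lit 11) (nat_lit 1) (.cons (.rf (nat_lit 1343) (nat_lit 457790727202)) (.cons (.rf (nat_lit 1339) (nat_lit 390884200738)) (.cons (.rf (nat_lit 3449) (nat_lit 493858305440582043680)) (.cons (.br (nat_lit 11) (nat_lit 1) (.cons (.rf (nat_lit 82) (nat_lit 14238852130)) (.cons (.rf (nat_lit 2594) (nat_lit 9035941090)) (.cons (.rf (nat_lit 3449) (nat_lit 493858305440582043680)) .nil)))) .nil))))),
 (.br (nat_lit 9) (nat_lit 1) (.cons (.rf (nat_lit 29) (nat_lit 8620321)) (.cons (.rf (nat_lit 58) (nat_lit 8690753)) (.cons (.rf (nat_lit 3450) (nat_lit 493858305440582043680)) (.cons (.rf (nat_lit 3450) (nat_lit 492741412560154270752)) (.cons (.ev (nat_lit 1213648258155092857913344) (nat_lit 1)) .nil)))))),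
 (.br (nat_lit 11) (nat_lit 1) (.cons (.rf (nat_lit 82) (nat_lit 13165173794)) (.cons (.rf (nat_lit 2594) (nat_lit 9000289570)) (.cons (.br (nat_lit 8) (nat_lit 1) (.cons (.ev (nat_lit 282574488338689) (nat_lit 1)) (.cons (.br (nat_lit 13) (nat_lit 1) (.cons (.rf (nat_lit 3323) (nat_lit 493858305267742153760)) (.cons (.ev (nat_lit 79229371440156291296028262401) (nat_lit 1)) .nil))) (.cons (.zr (nat_lit 55556686486809083904) (nat_lit 620188390195271605443100673) (nat_lit 5) (nat_lit 0)) .nil)))) .nil)))),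
 (.br (nat_lit 8) (nat_lit 1) (.cons (.rf (nat_lit 2842) (nat_lit 492741412560154270752)) (.cons (.rf (nat_lit 84) (nat_lit 14369924161)) (.cons (.rf (nat_lit 84) (nat_lit 13329540167)) .nil)))),
 (.br (nat_lit 12) (nat_lit 1) (.cons (.rf (nat_lit 82) (nat_lit 12092480546)) (.cons (.rf (nat_lit 2594) (nat_lit 8966767906)) (.cons (.br (nat_lit 1) (nat_lit 1) (.cons (.ev (nat_lit 282574488338689) (nat_lit 1)) (.cons (.br (nat_lit 8) (nat_lit 1) (.cons (.kr (nat_lit 309485009821346168236409088) (nat_lit 18446744078021296128) (nat_lit 1) (nat_lit 0)) (.cons (.br (nat_lit 11) (nat_lit 1) (.cons (.ev (nat_lit 309485028268370621722787841) (nat_lit 1)) .nil)) .nil))) (.cons (.rf (nat_lit 3453) (nat_lit 493858305440582043680)) .nil)))) .nil)))),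
 (.br (nat_lit 7) (nat_lit 1) (.cons (.rf (nat_lit 29) (nat_lit 8685793)) (.cons (.rf (nat_lit 58) (nat_lit 8690753)) (.cons (.br (nat_lit 11) (nat_lit 1) (.cons (.rf (nat_lit 1343) (nat_lit 457792822306)) (.cons (.rf (nat_lit 1339) (nat_lit 390884266210)) (.cons (.rf (nat_lit 3452) (nat_lit 493858305440582043680)) (.cons (.br (nat_lit 11) (nat_lit 1) (.cons (.rf (nat_lit 82) (nat_lit 14238915618)) (.cons (.rf (nat_lit 2594) (nat_lit 9033844002)) (.cons (.rf (nat_lit 3452) (nat_lit 493858305440582043680)) .nil)))) .nil))))) (.cons (.br (nat_lit 12) (nat_lit 1) (.cons (.rf (nat_lit 1343) (nat_lit 457826376738)) (.cons (.rf (nat_lit 1339) (nat_lit 424170261730)) (.cons (.rf (nat_lit 3454) (nat_lit 493858305440582043680)) (.cons (.br (nat_lit 12) (nat_lit 1) (.cons (.rf (nat_lit 82) (nat_lit 14239964194)) (.cons (.rf (nat_lit 2594) (nat_lit 9033876770)) (.cons (.rf (nat_lit 3454) (nat_lit 493858305440582043680)) .nil)))) .nil))))) (.cons (.ev (nat_lit 1213648258155092857913344) (nat_lit 1)) .nil)))))),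
 (.br (nat_lit 12) (nat_lit 1) (.cons (.kr (nat_lit 309485009821346168236408832) (nat_lit 79228162514264619068520660992) (nat_lit 5) (nat_lit 0)) (.cons (.ev (nat_lit 79538856449977637459986481408) (nat_lit 1)) (.cons (.ev (nat_lit 79229371440156291296028262401) (nat_lit 1)) .nil)))),
 (.br (nat_lit 9) (nat_lit 1) (.cons (.rf (nat_lit 84) (nat_lit 14238688481)) (.cons (.br (nat_lit 11) (nat_lit 1) (.cons (.ev (nat_lit 79538856449977637459986481408) (nat_lit 1)) (.cons (.br (nat_lit 12) (nat_lit 1) (.cons (.ev (nat_lit 79537652246452165531930787841) (nat_lit 1)) .nil)) .nil))) (.cons (.br (nat_lit 11) (nat_lit 1) (.cons (.rf (nat_lit 3456) (nat_lit 493858305440582043680)) (.cons (.ev (nat_lit 20282719088680010571787530141696) (nat_lit 1)) .nil))) .nil)))),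
 (.br (nat_lit 7) (nat_lit 1) (.cons (.rf (nat_lit 84) (nat_lit 14238688481)) (.cons (.br (nat_lit 11) (nat_lit 1) (.cons (.ev (nat_lit 79537652246452165531930787841) (nat_lit 1)) (.cons (.br (nat_lit 12) (nat_lit 1) (.cons (.ev (nat_lit 79538856449977637459986481408) (nat_lit 1)) .nil)) .nil))) (.cons (.rf (nat_lit 2846) (nat_lit 421248738799313394986)) .nil)))),
 (.br (nat_lit 11) (nat_lit 1) (.cons (.rf (nat_lit 3456) (nat_lit 493858305440582043680)) (.cons (.rf (nat_lit 3458) (nat_lit 493858305440582043680)) (.cons (.br (nat_lit 7) (nat_lit 1) (.cons (.zr (nat_lit 4777706996565750579968) (nat_lit 620178945462305870447640577) (nat_lit 5) (nat_lit 0)) (.cons (.br (nat_lit 9) (nat_lit 1) (.cons (.ev (nat_lit 158765814797682052174090207745) (nat_lit 2)) .nil)) (.cons (.br (nat_lit 9) (nat_lit 1) (.cons (.ev (nat_lit 158765824242559133092866555905) (nat_lit 2)) .nil)) .nil)))) .nil)))),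
 (.br (nat_lit 11) (nat_lit 1) (.cons (.rf (nat_lit 3457) (nat_lit 493858305440582043680)) (.cons (.rf (nat_lit 3458) (nat_lit 493858305440582043680)) (.cons (.rf (nat_lit 3459) (nat_lit 493858305440582043680)) (.cons (.br (nat_lit 11) (nat_lit 1) (.cons (.rf (nat_lit 3457) (nat_lit 493858305440582043680)) (.cons (.rf (nat_lit 3458) (nat_lit 493858305440582043680)) (.cons (.rf (nat_lit 3459) (nat_lit 493858305440582043680)) .nil)))) .nil))))),
 (.br (nat_lit 1) (nat_lit 1) (.cons (.rf (nat_lit 3453) (nat_lit 415495677249053662240)) (.cons (.br (nat_lit 12) (nat_lit 1) (.cons (.br (nat_lit 11) (nat_lit 1) (.cons (.ev (nat_lit 20363806612198733428361445966086) (nat_lit 3)) .nil)) (.cons (.rf (nat_lit 84) (nat_lit 9006261474)) .nil))) (.cons (.ev (nat_lit 20282410812596009122822973620480) (nat_lit 1)) .nil))))]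

theorem c117 : chkAll C T R L117 (nat_lit 3437) = true := by decide +kernel

theorem l117 : (nat_lit 3437) + L117.length = (nat_lit 3462) := by decide +kernel

/-- part of the certificates -/
def L118 : List Prf := [(.br (nat_lit 13) (nat_lit 1) (.cons (.rf (nat_lit 3460) (nat_lit 493858305440582043680)) (.cons (.rf (nat_lit 3461) (nat_lit 493858305440582043680)) (.cons (.br (nat_lit 12) (nat_lit 1) (.cons (.ev (nat_lit 20282409603651742481541305991424) (nat_lit 1)) (.cons (.ev (nat_lit 20282410817299856804020576387073) (nat_lit 1)) (.cons (.ev (nat_lit 20282720297587383722714165477376) (nat_lit 1)) .nil)))) .nil)))),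
 (.br (nat_lit 13) (nat_lit 1) (.cons (.rf (nat_lit 3460) (nat_lit 493858305440582043680)) (.cons (.rf (nat_lit 3461) (nat_lit 493858305440582043680)) (.cons (.rf (nat_lit 3462) (nat_lit 493858305440582043680)) (.cons (.br (nat_lit 13) (nat_lit 1) (.cons (.rf (nat_lit 3460) (nat_lit 493858305440582043680)) (.cons (.rf (nat_lit 3461) (nat_lit 493858305440582043680)) (.cons (.rf (nat_lit 3462) (nat_lit 493858305440582043680)) .nil)))) .nil))))),
 (.br (nat_lit 13) (nat_lit 1) (.cons (.rf (nat_lit 3460) (nat_lit 493858305440582043680)) (.cons (.rf (nat_lit 3463) (nat_lit 493858305440582043680)) (.cons (.br (nat_lit 13) (nat_lit 1) (.cons (.rf (nat_lit 3460) (nat_lit 493858305440582043680)) (.cons (.rf (nat_lit 3463) (nat_lit 493858305440582043680)) (.cons (.ev (nat_lit 20282409608374036906821208244224) (nat_lit 1)) .nil)))) (.cons (.br (nat_lit 13) (nat_lit 1) (.cons (.rf (nat_lit 3460) (nat_lit 493858305440582043680)) (.cons (.rf (nat_lit 3463) (nat_lit 493858305440582043680)) (.cons (.ev (nat_lit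 20282409608374036906821208244224) (nat_lit 1)) .nil)))) .nil))))),
 (.br (nat_lit 13) (nat_lit 1) (.cons (.rf (nat_lit 3460) (nat_lit 493858305440582043680)) (.cons (.rf (nat_lit 3463) (nat_lit 493858305440582043680)) (.cons (.rf (nat_lit 3464) (nat_lit 493858305440582043680)) (.cons (.br (nat_lit 13) (nat_lit 1) (.cons (.rf (nat_lit 3460) (nat_lit 493858305440582043680)) (.cons (.rf (nat_lit 3463) (nat_lit 493858305440582043680)) (.cons (.ev (nat_lit 20282409608374036906821208244224) (nat_lit 1)) .nil)))) .nil))))),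
 (.br (nat_lit 11) (nat_lit 1) (.cons (.br (nat_lit 12) (nat_lit 1) (.cons (.ev (nat_lit 79228162532783140360803123201) (nat_lit 1)) (.cons (.zr (nat_lit 928455029680212386334638080) (nat_lit 158457533954348571295551193089) (nat_lit 5) (nat_lit 6)) .nil))) .nil)),
 (.br (nat_lit 10) (nat_lit 1) (.cons (.rf (nat_lit 84) (nat_lit 6755097601)) (.cons (.rf (nat_lit 2796) (nat_lit 406670019988162720)) .nil))),
 (.br (nat_lit 9) (nat_lit 1) (.cons (.rf (nat_lit 84) (nat_lit 13164946471)) (.cons (.br (nat_lit 12) (nat_lit 1) (.cons (.rf (nat_lit 84) (nat_lit 8971658466)) (.cons (.zr (nat_lit 237684487542793013880177229824) (nat_lit 1218407446349995155914753) (nat_lit 5) (nat_lit 4)) .nil))) (.cons (.br (nat_lit 11) (nat_lit 1) (.cons (.br (nat_lit 12) (nat_lit 1) (.cons (.ev (nat_lit 20837942454577220709757694838018) (nat_lit 3)) .nil)) (.cons (.zr (nat_lit 1547425049322902523784200192) (nat_lit 40564820416266054232158974771201) (nat_lit 5) (nat_lit 6)) .nil))) .nil)))),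
 (.br (nat_lit 1) (nat_lit 1) (.cons (.rf (nat_lit 84) (nat_lit 13164946471)) (.cons (.br (nat_lit 11) (nat_lit 1) (.cons (.rf (nat_lit 84) (nat_lit 8971918370)) (.cons (.br (nat_lit 12) (nat_lit 1) (.cons (.ev (nat_lit 81087514165937350043790410756) (nat_lit 3)) .nil)) .nil))) (.cons (.br (nat_lit 11) (nat_lit 1) (.cons (.br (nat_lit 12) (nat_lit 1) (.cons (.ev (nat_lit 20678862323936019561121635827972) (nat_lit 3)) .nil)) (.cons (.ev (nat_lit 20282413235170087175123789480705) (nat_lit 2)) .nil))) .nil)))),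
 (.br (nat_lit 11) (nat_lit 1) (.cons (.rf (nat_lit 3468) (nat_lit 493858305440582043680)) (.cons (.rf (nat_lit 3469) (nat_lit 493858305440582043680)) (.cons (.br (nat_lit 9) (nat_lit 1) (.cons (.br (nat_lit 12) (nat_lit 1) (.cons (.ev (nat_lit 20283964301219164762076551971588) (nat_lit 3)) .nil)) (.cons (.br (nat_lit 1) (nat_lit 1) (.cons (.ev (nat_lit 21315175621795607070642391813898) (nat_lit 4)) .nil)) (.cons (.zr (nat_lit 20282413230429201325428863991808) (nat_lit 73787541448109850626) (nat_lit 10) (nat_lit 10)) .nil)))) .nil)))),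
 (.br (nat_lit 8) (nat_lit 1) (.cons (.ev (nat_lit 282574488338689) (nat_lit 1)) (.cons (.rf (nat_lit 3451) (nat_lit 493858305440582043680)) (.cons (.rf (nat_lit 3455) (nat_lit 493858305440582043680)) (.cons (.br (nat_lit 13) (nat_lit 1) (.cons (.rf (nat_lit 3460) (nat_lit 493858305440582043680)) (.cons (.rf (nat_lit 3463) (nat_lit 493858305440582043680)) (.cons (.rf (nat_lit 3464) (nat_lit 493858305440582043680)) (.cons (.rf (nat_lit 3465) (nat_lit 493858305440582043680)) (.cons (.br (nat_lit 13) (nat_lit 1) (.cons (.rf (nat_lit 3460) (nat_lit 493858305440582043680)) (.cons (.rf (nat_lit 3463) (nat_lit 493858305440582043680)) (.cons (.rf (nat_lit 3464) (nat_lit 493858305440582043680)) (.cons (.rf (nat_lit 3465) (nat_lit 493858305440582043680)) .nil))))) .nil)))))) (.cons (.br (nat_lit 7) (nat_lit 1) (.cons (.br (nat_lit 9) (nat_lit 1) (.cons (.rf (nat_lit 31) (nat_lit 377784545)) (.cons (.br (nat_lit 11) (nat_lit 1) (.cons (.rf (nat_lit 3466) (nat_lit 493858305440582043680)) (.cons (.br (nat_lit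 12) (nat_lit 1) (.cons (.rf (nat_lit 3466) (nat_lit 493858305440582043680)) (.cons (.zr (nat_lit 14222439680830064296704) (nat_lit 40564820416229160745102477361153) (nat_lit 5) (nat_lit 0)) .nil))) .nil))) (.cons (.rf (nat_lit 31) (nat_lit 444893409)) .nil)))) (.cons (.rf (nat_lit 3325) (nat_lit 493858305267742153760)) (.cons (.br (nat_lit 1) (nat_lit 1) (.cons (.rf (nat_lit 31) (nat_lit 377719073)) (.cons (.rf (nat_lit 2594) (nat_lit 12249736417)) (.cons (.br (nat_lit 9) (nat_lit 1) (.cons (.rf (nat_lit 84) (nat_lit 13164946657)) (.cons (.rf (nat_lit 3467) (nat_lit 482283501406817345)) (.cons (.br (nat_lit 12) (nat_lit 1) (.cons (.br (nat_lit 12) (nat_lit 1) (.cons (.zr (nat_lit 237684487542794138680538891008) (nat_lit 620188390195271622622969857) (nat_lit 5) (nat_lit 0)) .nil)) (.cons (.zr (nat_lit 20282413230429201325428863991808) (nat_lit 73787541448109850626) (nat_lit 10) (nat_lit 10)) .nil))) .nil)))) (.cons (.br (nat_lit 9) (nat_lit 1) (.cons (.rf (nat_lit 84) (nat_lit 14238688481)) (.cons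 (.br (nat_lit 12) (nat_lit 1) (.cons (.br (nat_lit 12) (nat_lit 1) (.cons (.ev (nat_lit 79541274338654752636909257219) (nat_lit 2)) .nil)) (.cons (.ev (nat_lit 20282413235170087175123789480705) (nat_lit 2)) .nil))) (.cons (.rf (nat_lit 84) (nat_lit 12093301799)) .nil)))) .nil))))) (.cons (.br (nat_lit 11) (nat_lit 1) (.cons (.rf (nat_lit 3468) (nat_lit 493858305440582043680)) (.cons (.rf (nat_lit 3469) (nat_lit 493858305440582043680)) (.cons (.rf (nat_lit 3470) (nat_lit 493858305440582043680)) (.cons (.br (nat_lit 11) (nat_lit 1) (.cons (.rf (nat_lit 3468) (nat_lit 493858305440582043680)) (.cons (.rf (nat_lit 3469) (nat_lit 493858305440582043680)) (.cons (.rf (nat_lit 3470) (nat_lit 493858305440582043680)) .nil)))) .nil))))) (.cons (.br (nat_lit 1) (nat_lit 1) (.cons (.rf (nat_lit 31) (nat_lit 444827937)) (.cons (.br (nat_lit 9) (nat_lit 1) (.cons (.rf (nat_lit 84) (nat_lit 14238688295)) (.cons (.br (nat_lit 12) (nat_lit 1) (.cons (.br (nat_lit 12) (nat_lit 1) (.cons (.zr (nat_lit 928455029680212386334638080)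 (nat_lit 158457533954348571295551193089) (nat_lit 5) (nat_lit 6)) .nil)) (.cons (.zr (nat_lit 60847228810955011276239800369920) (nat_lit 1218407446349995172691969) (nat_lit 5) (nat_lit 4)) .nil))) (.cons (.rf (nat_lit 84) (nat_lit 12093301985)) .nil)))) (.cons (.br (nat_lit 9) (nat_lit 1) (.cons (.br (nat_lit 12) (nat_lit 1) (.cons (.br (nat_lit 12) (nat_lit 1) (.cons (.zr (nat_lit 237684487542794138680538890240) (nat_lit 620178945606421058523496449) (nat_lit 5) (nat_lit 5)) .nil)) (.cons (.zr (nat_lit 20282413235151495750704471277824) (nat_lit 73787541452404817922) (nat_lit 10) (nat_lit 10)) .nil))) (.cons (.br (nat_lit 13) (nat_lit 1) (.cons (.zr (nat_lit 60847228810955011276239800369920) (nat_lit 1218407446349995172691969) (nat_lit 5) (nat_lit 4)) (.cons (.rf (nat_lit 84) (nat_lit 9038963746)) .nil))) (.cons (.rf (nat_lit 84) (nat_lit 13167043809)) .nil)))) (.cons (.rf (nat_lit 2594) (nat_lit 14330111201)) .nil))))) .nil)))))) .nil)))))),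
 (.br (nat_lit 9) (nat_lit 1) (.cons (.rf (nat_lit 58) (nat_lit 11836450)) (.cons (.br (nat_lit 11) (nat_lit 1) (.cons (.ev (nat_lit 310693954087704871137509376) (nat_lit 1)) (.cons (.ev (nat_lit 309489750706911081110962433) (nat_lit 1)) .nil))) (.cons (.rf (nat_lit 2846) (nat_lit 492729872084937907498)) .nil)))),
 (.br (nat_lit 11) (nat_lit 1) (.cons (.rf (nat_lit 58) (nat_lit 11836450)) (.cons (.br (nat_lit 7) (nat_lit 1) (.cons (.ev (nat_lit 310698676526245339115618560) (nat_lit 1)) (.cons (.br (nat_lit 12) (nat_lit 1) (.cons (.zr (nat_lit 238612942572473225166966685696) (nat_lit 1232629886030825236987905) (nat_lit 5) (nat_lit 4)) .nil)) .nil))) (.cons (.ev (nat_lit 309485028268370621722787841) (nat_lit 1)) .nil)))),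
 (.br (nat_lit 11) (nat_lit 1) (.cons (.ev (nat_lit 310693954087704871137509376) (nat_lit 1)) (.cons (.rf (nat_lit 3473) (nat_lit 493858305440582043680)) (.cons (.br (nat_lit 7) (nat_lit 1) (.cons (.br (nat_lit 12) (nat_lit 1) (.cons (.zr (nat_lit 23704066134716773827840) (nat_lit 159076503974135377720588238849) (nat_lit 5) (nat_lit 0)) .nil)) (.cons (.br (nat_lit 9) (nat_lit 1) (.cons (.ev (nat_lit 20995772565660101187539391022850) (nat_lit 4)) .nil)) (.cons (.br (nat_lit 9) (nat_lit 1) (.cons (.zr (nat_lit 316915067908984812237798506496) (nat_lit 1856933670761329185504952323) (nat_lit 15) (nat_lit 4)) .nil)) .nil)))) .nil)))),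
 (.br (nat_lit 11) (nat_lit 1) (.cons (.rf (nat_lit 3472) (nat_lit 493858305440582043680)) (.cons (.rf (nat_lit 3473) (nat_lit 493858305440582043680)) (.cons (.rf (nat_lit 3474) (nat_lit 493858305440582043680)) (.cons (.br (nat_lit 11) (nat_lit 1) (.cons (.rf (nat_lit 3472) (nat_lit 493858305440582043680)) (.cons (.ev (nat_lit 309485028268370621722787841) (nat_lit 1)) (.cons (.rf (nat_lit 3474) (nat_lit 493858305440582043680)) .nil)))) .nil))))),
 (.br (nat_lit 1) (nat_lit 1) (.cons (.rf (nat_lit 58) (nat_lit 11836450)) (.cons (.br (nat_lit 11) (nat_lit 1) (.cons (.ev (nat_lit 309485009821626548013236224) (nat_lit 1)) (.cons (.ev (nat_lit 310698658079501265406066945) (nat_lit 1)) .nil))) (.cons (.rf (nat_lit 3453) (nat_lit 489282651344868613152)) .nil)))),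
 (.br (nat_lit 11) (nat_lit 1) (.cons (.ev (nat_lit 310693954087704871137509376) (nat_lit 1)) (.cons (.ev (nat_lit 309485009821626548013236224) (nat_lit 1)) (.cons (.br (nat_lit 12) (nat_lit 1) (.cons (.br (nat_lit 9) (nat_lit 1) (.cons (.zr (nat_lit 79237834013416107420724297728) (nat_lit 2785383977858044793685279751) (nat_lit 10) (nat_lit 10)) .nil)) (.cons (.ev (nat_lit 79538865931603808780797607937) (nat_lit 2)) (.cons (.ev (nat_lit 79229371440156291296028262401) (nat_lit 1)) .nil)))) .nil)))),
 (.br (nat_lit 11) (nat_lit 1) (.cons (.rf (nat_lit 3475) (nat_lit 493858305440582043680)) (.cons (.rf (nat_lit 3476) (nat_lit 493858305440582043680)) (.cons (.rf (nat_lit 3477) (nat_lit 493858305440582043680)) (.cons (.br (nat_lit 11) (nat_lit 1) (.cons (.rf (nat_lit 3475) (nat_lit 493858305440582043680)) (.cons (.rf (nat_lit 3476) (nat_lit 493858305440582043680)) (.cons (.rf (nat_lit 3477) (nat_lit 493858305440582043680)) .nil)))) .nil))))),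
 (.br (nat_lit 11) (nat_lit 1) (.cons (.rf (nat_lit 3475) (nat_lit 493858305440582043680)) (.cons (.ev (nat_lit 309485009821626548013236224) (nat_lit 1)) (.cons (.br (nat_lit 1) (nat_lit 1) (.cons (.br (nat_lit 12) (nat_lit 1) (.cons (.zr (nat_lit 23704066134716773827840) (nat_lit 159076503974135377720588238849) (nat_lit 5) (nat_lit 0)) .nil)) (.cons (.br (nat_lit 7) (nat_lit 1) (.cons (.zr (nat_lit 238612942572473225166966685696) (nat_lit 1232629886030825236987905) (nat_lit 5) (nat_lit 4)) .nil)) (.cons (.br (nat_lit 7) (nat_lit 1) (.cons (.ev (nat_lit 20837935201059197066474426925318) (nat_lit 3)) .nil)) .nil)))) .nil)))),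
 (.br (nat_lit 11) (nat_lit 1) (.cons (.rf (nat_lit 3475) (nat_lit 493858305440582043680)) (.cons (.rf (nat_lit 3478) (nat_lit 493858305440582043680)) (.cons (.rf (nat_lit 3479) (nat_lit 493858305440582043680)) (.cons (.br (nat_lit 11) (nat_lit 1) (.cons (.ev (nat_lit 309485028268370621722787841) (nat_lit 1)) (.cons (.rf (nat_lit 3478) (nat_lit 493858305440582043680)) (.cons (.rf (nat_lit 3479) (nat_lit 493858305440582043680)) .nil)))) .nil))))),
 (.br (nat_lit 11) (nat_lit 1) (.cons (.rf (nat_lit 3475) (nat_lit 493858305440582043680)) (.cons (.rf (nat_lit 3478) (nat_lit 493858305440582043680)) (.cons (.rf (nat_lit 3480) (nat_lit 493858305440582043680)) (.cons (.br (nat_lit 11) (nat_lit 1) (.cons (.rf (nat_lit 3475) (nat_lit 493858305440582043680)) (.cons (.rf (nat_lit 3478) (nat_lit 493858305440582043680)) (.cons (.rf (nat_lit 3480) (nat_lit 493858305440582043680)) .nil)))) .nil))))),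
 (.br (nat_lit 8) (nat_lit 1) (.cons (.ev (nat_lit 282574488338689) (nat_lit 1)) (.cons (.rf (nat_lit 3451) (nat_lit 493858305440582043680)) (.cons (.rf (nat_lit 3455) (nat_lit 493858305440582043680)) (.cons (.rf (nat_lit 3471) (nat_lit 493858305440582043680)) (.cons (.br (nat_lit 11) (nat_lit 1) (.cons (.rf (nat_lit 3475) (nat_lit 493858305440582043680)) (.cons (.rf (nat_lit 3478) (nat_lit 493858305440582043680)) (.cons (.rf (nat_lit 3480) (nat_lit 493858305440582043680)) (.cons (.rf (nat_lit 3481) (nat_lit 493858305440582043680)) (.cons (.br (nat_lit 11) (nat_lit 1) (.cons (.rf (nat_lit 3475) (nat_lit 493858305440582043680)) (.cons (.rf (nat_lit 3478) (nat_lit 493858305440582043680)) (.cons (.rf (nat_lit 3480) (nat_lit 493858305440582043680)) (.cons (.rf (nat_lit 3481) (nat_lit 493858305440582043680)) .nil))))) .nil)))))) .nil)))))),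
 (.br (nat_lit 8) (nat_lit 1) (.cons (.ev (nat_lit 282574488338689) (nat_lit 1)) (.cons (.rf (nat_lit 3451) (nat_lit 493858305440582043680)) (.cons (.rf (nat_lit 3455) (nat_lit 493858305440582043680)) (.cons (.rf (nat_lit 3471) (nat_lit 493858305440582043680)) (.cons (.rf (nat_lit 3482) (nat_lit 493858305440582043680)) (.cons (.br (nat_lit 8) (nat_lit 1) (.cons (.ev (nat_lit 282574488338689) (nat_lit 1)) (.cons (.rf (nat_lit 3451) (nat_lit 493858305440582043680)) (.cons (.rf (nat_lit 3455) (nat_lit 493858305440582043680)) (.cons (.rf (nat_lit 3471) (nat_lit 493858305440582043680)) (.cons (.rf (nat_lit 3482) (nat_lit 493858305440582043680)) .nil)))))) .nil))))))),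
 (.br (nat_lit 12) (nat_lit 1) (.cons (.ev (nat_lit 79541307469006543887551103745) (nat_lit 3)) .nil)),
 (.br (nat_lit 7) (nat_lit 1) (.cons (.rf (nat_lit 84) (nat_lit 14238915649)) (.cons (.br (nat_lit 13) (nat_lit 1) (.cons (.rf (nat_lit 3484) (nat_lit 493858305440582043680)) (.cons (.rf (nat_lit 3484) (nat_lit 492741412560154270752)) .nil))) (.cons (.br (nat_lit 11) (nat_lit 1) (.cons (.rf (nat_lit 2846) (nat_lit 310568277655590968618)) (.cons (.ev (nat_lit 20282720302328124892067777282305) (nat_lit 1)) .nil))) .nil)))),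
 (.br (nat_lit 11) (nat_lit 1) (.cons (.rf (nat_lit 84) (nat_lit 14238915649)) (.cons (.rf (nat_lit 3456) (nat_lit 493858305440582043680)) (.cons (.br (nat_lit 13) (nat_lit 1) (.cons (.ev (nat_lit 20282719088680010571787530141696) (nat_lit 1)) (.cons (.ev (nat_lit 20282415657817735748358563168769) (nat_lit 3)) .nil))) .nil))))]

theorem c118 : chkAll C T R L118 (nat_lit 3462) = true := by decide +kernel

theorem l118 : (nat_lit 3462) + L118.length = (nat_lit 3487) := by decide +kernel

end Pool.Agent.H93.Neg.Q14_4_4_0_4_2
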