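import Pool.Agent.H93.Neg.TabQ14_4_4_0_4_2

/-!
Certificates.
-/

set_option autoImplicit false
set_option maxRecDepth 100000
set_option linter.all false

namespace Pool.Agent.H93.Neg.Q14_4_4_0_4_2

/-- part of the certificates -/
def L119 : List Prf := [(.br (nat_lit 11) (nat_lit 1) (.cons (.rf (nat_lit 3485) (nat_lit 493858305440582043680)) (.cons (.rf (nat_lit 3456) (nat_lit 493858305440582043680)) (.cons (.br (nat_lit 12) (nat_lit 1) (.cons (.ev (nat_lit 310693935640960797427957761) (nat_lit 1)) (.cons (.ev (nat_lit 309489732260167007401410816) (nat_lit 1)) (.cons (.ev (nat_lit 20282415657817735748358563168769) (nat_lit 3)) .nil)))) .nil)))),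
 (.br (nat_lit 11) (nat_lit 1) (.cons (.rf (nat_lit 3485) (nat_lit 493858305440582043680)) (.cons (.rf (nat_lit 3486) (nat_lit 493858305440582043680)) (.cons (.rf (nat_lit 3487) (nat_lit 493858305440582043680)) (.cons (.br (nat_lit 12) (nat_lit 1) (.cons (.rf (nat_lit 3486) (nat_lit 492741412560154270752)) (.cons (.rf (nat_lit 3485) (nat_lit 492741412560154270752)) (.cons (.rf (nat_lit 3487) (nat_lit 493858305440582043680)) (.cons (.ev (nat_lit 20282415657817735748358563168769) (nat_lit 3)) .nil))))) .nil))))),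
 (.br (nat_lit 13) (nat_lit 1) (.cons (.ev (nat_lit 20282720302328124892067777282305) (nat_lit 1)) (.cons (.rf (nat_lit 2823) (nat_lit 308262436845400530218)) .nil))),
 (.br (nat_lit 1) (nat_lit 1) (.cons (.rf (nat_lit 3489) (nat_lit 493858305440582043680)) (.cons (.rf (nat_lit 3489) (nat_lit 492741412560154270752)) (.cons (.ev (nat_lit 20282409617874255067693168329474) (nat_lit 2)) .nil)))),
 (.br (nat_lit 13) (nat_lit 1) (.cons (.rf (nat_lit 3488) (nat_lit 493858305440582043680)) (.cons (.rf (nat_lit 3490) (nat_lit 493858305440582043680)) (.cons (.br (nat_lit 11) (nat_lit 1) (.cons (.ev (nat_lit 20282409603651670423951546319104) (nat_lit 1)) (.cons (.ev (nat_lit 20282410817299928861618892439553) (nat_lit 1)) (.cons (.br (nat_lit 1) (nat_lit 1) (.cons (.ev (nat_lit 158765819538495279117428130560) (nat_lit 2)) .nil)) .nil)))) .nil)))),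
 (.br (nat_lit 13) (nat_lit 1) (.cons (.rf (nat_lit 3488) (nat_lit 493858305440582043680)) (.cons (.rf (nat_lit 3490) (nat_lit 493858305440582043680)) (.cons (.rf (nat_lit 3491) (nat_lit 493858305440582043680)) (.cons (.br (nat_lit 13) (nat_lit 1) (.cons (.rf (nat_lit 3488) (nat_lit 493858305440582043680)) (.cons (.rf (nat_lit 3490) (nat_lit 493858305440582043680)) (.cons (.rf (nat_lit 3491) (nat_lit 493858305440582043680)) .nil)))) .nil))))),
 (.br (nat_lit 13) (nat_lit 1) (.cons (.rf (nat_lit 3488) (nat_lit 493858305440582043680)) (.cons (.rf (nat_lit 3492) (nat_lit 493858305440582043680)) (.cons (.rf (nat_lit 3492) (nat_lit 492741412560154270752)) (.cons (.br (nat_lit 13) (nat_lit 1) (.cons (.ev (nat_lit 20282415657817735748358563168769) (nat_lit 3)) (.cons (.rf (nat_lit 3492) (nat_lit 493858305440582043680)) (.cons (.rf (nat_lit 3492) (nat_lit 492741412560154270752)) .nil)))) .nil))))),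
 (.br (nat_lit 8) (nat_lit 1) (.cons (.br (nat_lit 9) (nat_lit 1) (.cons (.ev (nat_lit 4740813226943354765569) (nat_lit 1)) .nil)) .nil)),
 (.br (nat_lit 7) (nat_lit 1) (.cons (.ev (nat_lit 309489732188109417641738496) (nat_lit 1)) (.cons (.br (nat_lit 12) (nat_lit 1) (.cons (.ev (nat_lit 79229376180969518239399870720) (nat_lit 1)) (.cons (.ev (nat_lit 79228162532711082771076874241) (nat_lit 1)) .nil))) (.cons (.br (nat_lit 12) (nat_lit 1) (.cons (.br (nat_lit 12) (nat_lit 1) (.cons (.ev (nat_lit 20995782265253861752956772355330) (nat_lit 4)) .nil)) (.cons (.br (nat_lit 11) (nat_lit 1) (.cons (.ev (nat_lit 20995782265253861752956772355330) (nat_lit 4)) .nil)) .nil))) .nil)))),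
 (.br (nat_lit 2) (nat_lit 1) (.cons (.ev (nat_lit 309489732188109417641738496) (nat_lit 1)) (.cons (.rf (nat_lit 3189) (nat_lit 410189587950012448)) (.cons (.br (nat_lit 12) (nat_lit 1) (.cons (.br (nat_lit 12) (nat_lit 1) (.cons (.zr (nat_lit 92594290913225869057) (nat_lit 238617792442634955116802736128) (nat_lit 20) (nat_lit 0)) .nil)) (.cons (.zr (nat_lit 37037885909983627777) (nat_lit 60847233646658289730388584562688) (nat_lit 20) (nat_lit 0)) .nil))) .nil)))),
 (.br (nat_lit 11) (nat_lit 1) (.cons (.rf (nat_lit 3495) (nat_lit 493858305440582043680)) (.cons (.rf (nat_lit 3496) (nat_lit 493858305440582043680)) (.cons (.br (nat_lit 2) (nat_lit 1) (.cons (.br (nat_lit 12) (nat_lit 1) (.cons (.zr (nat_lit 92594008364507201536) (nat_lit 159076513418724228267507843585) (nat_lit 5) (nat_lit 0)) .nil)) (.cons (.ev (nat_lit 310693935640960797427957761) (nat_lit 1)) (.cons (.br (nat_lit 7) (nat_lit 1) (.cons (.zr (nat_lit 238612956739357622495648876544) (nat_lit 1209018413624106095214593) (nat_lit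 5) (nat_lit 3)) .nil)) .nil)))) .nil)))),
 (.br (nat_lit 6) (nat_lit 1) (.cons (.rf (nat_lit 84) (nat_lit 13130537025)) (.cons (.ev (nat_lit 79228162532783420736268206081) (nat_lit 1)) .nil))),
 (.br (nat_lit 8) (nat_lit 1) (.cons (.ev (nat_lit 282574488338689) (nat_lit 1)) (.cons (.rf (nat_lit 3483) (nat_lit 493858305440582043680)) (.cons (.rf (nat_lit 3483) (nat_lit 492741412560154270752)) (.cons (.br (nat_lit 13) (nat_lit 1) (.cons (.rf (nat_lit 3488) (nat_lit 493858305440582043680)) (.cons (.rf (nat_lit 3492) (nat_lit 493858305440582043680)) (.cons (.rf (nat_lit 3492) (nat_lit 492741412560154270752)) (.cons (.rf (nat_lit 3493) (nat_lit 493858305440582043680)) (.cons (.rf (nat_lit 3493) (nat_lit 492741412560154270752)) .nil)))))) (.cons (.br (nat_lit 1) (nat_lit 1) (.cons (.br (nat_lit 7) (nat_lit 1) (.cons (.rf (nat_lit 31) (nat_lit 377726017)) (.cons (.br (nat_lit 11) (nat_lit 1) (.cons (.rf (nat_lit 3494) (nat_lit 15071323948681248)) (.cons (.br (nat_lit 12) (nat_lit 1) (.cons (.rf (nat_lit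 3494) (nat_lit 15071323948681248)) (.cons (.ev (nat_lit 20282409608392555708484644044801) (nat_lit 1)) .nil))) .nil))) (.cons (.rf (nat_lit 31) (nat_lit 444834881)) .nil)))) (.cons (.ev (nat_lit 1208944338416296938963201) (nat_lit 1)) (.cons (.br (nat_lit 2) (nat_lit 1) (.cons (.rf (nat_lit 31) (nat_lit 377529570)) (.cons (.rf (nat_lit 2594) (nat_lit 12257074241)) (.cons (.br (nat_lit 7) (nat_lit 1) (.cons (.ev (nat_lit 313116528237814770303107585) (nat_lit 2)) (.cons (.br (nat_lit 12) (nat_lit 1) (.cons (.rf (nat_lit 84) (nat_lit 8971656265)) (.cons (.zr (nat_lit 237684501709892462489079121152) (nat_lit 1208962713384255915950081) (nat_lit 5) (nat_lit 4)) .nil))) (.cons (.br (nat_lit 12) (nat_lit 1) (.cons (.br (nat_lit 12) (nat_lit 1) (.cons (.zr (nat_lit 928455029680212386334638848) (nat_lit 158457543399081537034891821057) (nat_lit 5) (nat_lit 0)) .nil)) (.cons (.zr (nat_lit 60847228810955011276239800370432) (nat_lit 1208962713384255915950081) (nat_lit 5) (nat_lit 4)) .nil))) .nil)))) (.cons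 (.br (nat_lit 7) (nat_lit 1) (.cons (.rf (nat_lit 84) (nat_lit 14238915618)) (.cons (.br (nat_lit 11) (nat_lit 1) (.cons (.br (nat_lit 12) (nat_lit 1) (.cons (.ev (nat_lit 20837942454577220709757694838018) (nat_lit 3)) .nil)) (.cons (.zr (nat_lit 1547425049322902523784200192) (nat_lit 40564820416266054232158974771201) (nat_lit 5) (nat_lit 6)) .nil))) (.cons (.rf (nat_lit 84) (nat_lit 12093529153)) .nil)))) .nil))))) (.cons (.br (nat_lit 11) (nat_lit 1) (.cons (.rf (nat_lit 3495) (nat_lit 493858305440582043680)) (.cons (.rf (nat_lit 3496) (nat_lit 493858305440582043680)) (.cons (.rf (nat_lit 3497) (nat_lit 493858305440582043680)) (.cons (.br (nat_lit 11) (nat_lit 1) (.cons (.rf (nat_lit 3495) (nat_lit 493858305440582043680)) (.cons (.rf (nat_lit 3496) (nat_lit 493858305440582043680)) (.cons (.rf (nat_lit 3497) (nat_lit 493858305440582043680)) .nil)))) .nil))))) (.cons (.br (nat_lit 13) (nat_lit 1) (.cons (.rf (nat_lit 2594) (nat_lit 14337449025)) (.cons (.rf (nat_lit 2594) (nat_lit 14337444065))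 (.cons (.ev (nat_lit 20282410812595937065224623882496) (nat_lit 1)) (.cons (.br (nat_lit 2) (nat_lit 1) (.cons (.ev (nat_lit 20282410812596009122822973620480) (nat_lit 1)) (.cons (.rf (nat_lit 3498) (nat_lit 15433072045018187808)) (.cons (.br (nat_lit 7) (nat_lit 1) (.cons (.ev (nat_lit 20282409608392555708484644044801) (nat_lit 1)) (.cons (.zr (nat_lit 37109662029044581121) (nat_lit 40723276745980055902055420657664) (nat_lit 10) (nat_lit 0)) .nil))) .nil)))) .nil))))) .nil)))))) .nil)))))),
 (.br (nat_lit 8) (nat_lit 1) (.cons (.ev (nat_lit 282574488338689) (nat_lit 1)) (.cons (.rf (nat_lit 3483) (nat_lit 493858305440582043680)) (.cons (.rf (nat_lit 3483) (nat_lit 492741412560154270752)) (.cons (.rf (nat_lit 3499) (nat_lit 493858305440582043680)) (.cons (.rf (nat_lit 3499) (nat_lit 492741412560154270752)) (.cons (.br (nat_lit 8) (nat_lit 1) (.cons (.ev (nat_lit 282574488338689) (nat_lit 1)) (.cons (.rf (nat_lit 3483) (nat_lit 493858305440582043680)) (.cons (.rf (nat_lit 3483) (nat_lit 492741412560154270752))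 (.cons (.rf (nat_lit 3499) (nat_lit 493858305440582043680)) (.cons (.rf (nat_lit 3499) (nat_lit 492741412560154270752)) .nil)))))) .nil))))))),
 (.br (nat_lit 9) (nat_lit 1) (.cons (.rf (nat_lit 31) (nat_lit 345216032)) (.cons (.br (nat_lit 10) (nat_lit 1) (.cons (.kr (nat_lit 309485009821345073019748352) (nat_lit 4722438540463683141632) (nat_lit 4) (nat_lit 0)) .nil)) .nil))),
 (.br (nat_lit 12) (nat_lit 1) (.cons (.ev (nat_lit 79229371440156291296028262401) (nat_lit 1)) .nil)),
 (.br (nat_lit 9) (nat_lit 1) (.cons (.rf (nat_lit 29) (nat_lit 11836481)) (.cons (.rf (nat_lit 3501) (nat_lit 482283501406817345)) (.cons (.br (nat_lit 11) (nat_lit 1) (.cons (.rf (nat_lit 3502) (nat_lit 493858305440582043680)) (.cons (.ev (nat_lit 20282720302309750205583827403008) (nat_lit 1)) .nil))) .nil)))),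
 (.br (nat_lit 11) (nat_lit 1) (.cons (.rf (nat_lit 29) (nat_lit 11836481)) (.cons (.br (nat_lit 7) (nat_lit 1) (.cons (.ev (nat_lit 310698676526245339115618560) (nat_lit 1)) (.cons (.br (nat_lit 12) (nat_lit 1) (.cons (.zr (nat_lit 237684487542794138680538890240) (nat_lit 620178945606421058523496449) (nat_lit 5) (nat_lit 5)) .nil)) .nil))) (.cons (.ev (nat_lit 310698658007443667056328961) (nat_lit 1)) .nil)))),
 (.br (nat_lit 11) (nat_lit 1) (.cons (.rf (nat_lit 3503) (nat_lit 493858305440582043680)) (.cons (.rf (nat_lit 3504) (nat_lit 493858305440582043680)) (.cons (.br (nat_lit 7) (nat_lit 1) (.cons (.zr (nat_lit 4777706996565750579968) (nat_lit 620178945462305870447640577) (nat_lit 5) (nat_lit 0)) (.cons (.br (nat_lit 9) (nat_lit 1) (.cons (.ev (nat_lit 311907584043231078395281411) (nat_lit 2)) .nil)) (.cons (.br (nat_lit 9) (nat_lit 1) (.cons (.zr (nat_lit 79228162606570959981059835136) (nat_lit 1240357890924611740895281154) (nat_lit 10) (nat_lit 0)) .nil)) .nil)))) .nil)))),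
 (.br (nat_lit 11) (nat_lit 1) (.cons (.rf (nat_lit 3503) (nat_lit 493858305440582043680)) (.cons (.rf (nat_lit 3504) (nat_lit 493858305440582043680)) (.cons (.rf (nat_lit 3505) (nat_lit 493858305440582043680)) (.cons (.br (nat_lit 11) (nat_lit 1) (.cons (.rf (nat_lit 3503) (nat_lit 493858305440582043680)) (.cons (.ev (nat_lit 310698658007443667056328961) (nat_lit 1)) (.cons (.rf (nat_lit 3505) (nat_lit 493858305440582043680)) .nil)))) .nil))))),
 (.br (nat_lit 9) (nat_lit 1) (.cons (.br (nat_lit 12) (nat_lit 1) (.cons (.ev (nat_lit 79538856468424381533696033025) (nat_lit 1)) .nil)) (.cons (.ev (nat_lit 1213648258155092857913344) (nat_lit 1)) (.cons (.zr (nat_lit 60847228810955011271841787609088) (nat_lit 1208962713385355377115137) (nat_lit 5) (nat_lit 10)) .nil)))),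
 (.br (nat_lit 7) (nat_lit 1) (.cons (.br (nat_lit 12) (nat_lit 1) (.cons (.ev (nat_lit 79540065394388111363865247745) (nat_lit 2)) .nil)) (.cons (.ev (nat_lit 1213648258155092857913344) (nat_lit 1)) (.cons (.zr (nat_lit 60847228810955011271841787609088) (nat_lit 1208962713385355377115137) (nat_lit 5) (nat_lit 10)) .nil)))),
 (.br (nat_lit 9) (nat_lit 1) (.cons (.br (nat_lit 12) (nat_lit 1) (.cons (.ev (nat_lit 79538856468424381533696033025) (nat_lit 1)) .nil)) (.cons (.ev (nat_lit 80159040173074601930993500929) (nat_lit 2)) (.cons (.rf (nat_lit 3508) (nat_lit 493858305440582043680)) .nil)))),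
 (.br (nat_lit 7) (nat_lit 1) (.cons (.br (nat_lit 12) (nat_lit 1) (.cons (.ev (nat_lit 79540079561487559972750361345) (nat_lit 2)) .nil)) (.cons (.ev (nat_lit 1213648258155092857913344) (nat_lit 1)) (.cons (.zr (nat_lit 60847228825122110720450689499904) (nat_lit 1208962713385355393892353) (nat_lit 5) (nat_lit 10)) .nil)))),
 (.br (nat_lit 2) (nat_lit 1) (.cons (.br (nat_lit 9) (nat_lit 1) (.cons (.rf (nat_lit 29) (nat_lit 11830498)) (.cons (.br (nat_lit 11) (nat_lit 1) (.cons (.ev (nat_lit 79538856468352323943936360705) (nat_lit 1)) (.cons (.br (nat_lit 12) (nat_lit 1) (.cons (.ev (nat_lit 79538856468424381533696033025) (nat_lit 1)) .nil)) .nil))) (.cons (.br (nat_lit 13) (nat_lit 1) (.cons (.zr (nat_lit 60847228810955227444632457576448) (nat_lit 1208962713385351098925057) (nat_lit 5) (nat_lit 10)) (.cons (.zr (nat_lit 60847228810955011271841787609088) (nat_lit 1208962713385355377115137) (nat_lit 5) (nat_lit 10)) .nil))) .nil)))) (.cons (.kr (nat_lit 4722366482869645213952) (nat_lit 16842752)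 (nat_lit 1) (nat_lit 0)) (.cons (.br (nat_lit 7) (nat_lit 1) (.cons (.rf (nat_lit 29) (nat_lit 11601191)) (.cons (.br (nat_lit 12) (nat_lit 1) (.cons (.rf (nat_lit 82) (nat_lit 9004419111)) (.cons (.ev (nat_lit 79540065394388111363865247745) (nat_lit 2)) .nil))) (.cons (.br (nat_lit 9) (nat_lit 1) (.cons (.br (nat_lit 12) (nat_lit 1) (.cons (.ev (nat_lit 79538856468424381533696033025) (nat_lit 1)) .nil)) (.cons (.ev (nat_lit 20282720302328124892067777282305) (nat_lit 1)) .nil))) .nil)))) (.cons (.br (nat_lit 13) (nat_lit 1) (.cons (.rf (nat_lit 3507) (nat_lit 493858305440582043680)) (.cons (.rf (nat_lit 3508) (nat_lit 493858305440582043680)) (.cons (.rf (nat_lit 3509) (nat_lit 493858305440582043680)) (.cons (.br (nat_lit 13) (nat_lit 1) (.cons (.rf (nat_lit 3507) (nat_lit 493858305440582043680)) (.cons (.ev (nat_lit 20440868351291099144947129910019) (nat_lit 2)) (.cons (.rf (nat_lit 3509) (nat_lit 493858305440582043680)) .nil)))) .nil))))) (.cons (.br (nat_lit 12) (nat_lit 1) (.cons (.br (nat_lit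 12) (nat_lit 1) (.cons (.ev (nat_lit 1213648258155092857913344) (nat_lit 1)) (.cons (.ev (nat_lit 310693954159762469453561856) (nat_lit 1)) (.cons (.br (nat_lit 9) (nat_lit 1) (.cons (.ev (nat_lit 79540079561487559972750361345) (nat_lit 2)) .nil)) .nil)))) (.cons (.rf (nat_lit 3510) (nat_lit 493858305440582043680)) (.cons (.br (nat_lit 12) (nat_lit 1) (.cons (.ev (nat_lit 310693954159762469453561856) (nat_lit 1)) (.cons (.rf (nat_lit 3510) (nat_lit 493858305440582043680)) (.cons (.br (nat_lit 7) (nat_lit 1) (.cons (.zr (nat_lit 238612942572474346668827017216) (nat_lit 1232629885750449771905025) (nat_lit 5) (nat_lit 3)) .nil)) .nil)))) (.cons (.br (nat_lit 9) (nat_lit 1) (.cons (.zr (nat_lit 60847228825122110720450689499904) (nat_lit 1208962713385355393892353) (nat_lit 5) (nat_lit 10)) (.cons (.ev (nat_lit 20283030991522952628129446822401) (nat_lit 2)) (.cons (.ev (nat_lit 20440868346568732662077434429955) (nat_lit 2)) .nil)))) .nil))))) .nil)))))),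
 (.br (nat_lit 9) (nat_lit 1) (.cons (.br (nat_lit 11) (nat_lit 1) (.cons (.zr (nat_lit 928459751830799550796268288) (nat_lit 1208962713103880417181697) (nat_lit 5) (nat_lit 3)) (.cons (.zr (nat_lit 928455029680489471854772224) (nat_lit 1218407446069615412641793) (nat_lit 5) (nat_lit 3)) .nil))) (.cons (.ev (nat_lit 310698658007443667056328961) (nat_lit 1)) (.cons (.br (nat_lit 7) (nat_lit 1) (.cons (.br (nat_lit 12) (nat_lit 1) (.cons (.ev (nat_lit 158768232649249784593576428035) (nat_lit 2)) .nil)) (.cons (.ev (nat_lit 79229376162450716567340581121) (nat_lit 1)) (.cons (.br (nat_lit 11) (nat_lit 1) (.cons (.ev (nat_lit 22584687958267098596968057078540) (nat_lit 5)) .nil)) .nil)))) (.cons (.br (nat_lit 7) (nat_lit 1) (.cons (.ev (nat_lit 1213648258155092857913344) (nat_lit 1)) (.cons (.br (nat_lit 11) (nat_lit 1) (.cons (.ev (nat_lit 81399412175902547455334809600) (nat_lit 3)) .nil)) .nil))) .nil))))),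
 (.br (nat_lit 11) (nat_lit 1) (.cons (.rf (nat_lit 3512) (nat_lit 493858305440582043680)) (.cons (.br (nat_lit 2) (nat_lit 1) (.cons (.ev (nat_lit 310698658079501265406066945) (nat_lit 1)) (.cons (.ev (nat_lit 1213648258155092857913344) (nat_lit 1)) .nil))) (.cons (.rf (nat_lit 3456) (nat_lit 493858305440582043680)) (.cons (.ev (nat_lit 20282720297605758409198148780033) (nat_lit 1)) .nil)))))]

theorem c119 : chkAll C T R L119 (nat_lit 3487) = true := by decide +kernel

theorem l119 : (nat_lit 3487) + L119.length = (nat_lit 3514) := by decide +kernel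

/-- part of the certificates -/
def L120 : List Prf := [(.br (nat_lit 7) (nat_lit 1) (.cons (.br (nat_lit 11) (nat_lit 1) (.cons (.br (nat_lit 12) (nat_lit 1) (.cons (.ev (nat_lit 20839177995690793365289027567878) (nat_lit 3)) .nil)) (.cons (.rf (nat_lit 31) (nat_lit 447784162)) .nil))) (.cons (.rf (nat_lit 3513) (nat_lit 493858305440582043680)) (.cons (.rf (nat_lit 3512) (nat_lit 492741412560154270752)) (.cons (.ev (nat_lit 20282410817318375605692601991168) (nat_lit 1)) .nil))))),
 (.br (nat_lit 11) (nat_lit 1) (.cons (.rf (nat_lit 3512) (nat_lit 493858305440582043680)) (.cons (.rf (nat_lit 3456) (nat_lit 493858305440582043680)) (.cons (.rf (nat_lit 3514) (nat_lit 493858305440582043680)) (.cons (.br (nat_lit 12) (nat_lit 1) (.cons (.ev (nat_lit 310693935640960797427957761) (nat_lit 1)) (.cons (.rf (nat_lit 3512) (nat_lit 492741412560154270752)) (.cons (.rf (nat_lit 3514) (nat_lit 492741412560154270752)) .nil)))) .nil))))),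
 (.br (nat_lit 8) (nat_lit 1) (.cons (.ev (nat_lit 282574488338689) (nat_lit 1)) (.cons (.rf (nat_lit 3483) (nat_lit 493858305440582043680)) (.cons (.rf (nat_lit 3483) (nat_lit 492741412560154270752)) (.cons (.rf (nat_lit 3500) (nat_lit 493858305440582043680)) (.cons (.br (nat_lit 1) (nat_lit 1) (.cons (.rf (nat_lit 3506) (nat_lit 493858305440582043680)) (.cons (.rf (nat_lit 3506) (nat_lit 492741412560154270752)) (.cons (.ev (nat_lit 1213666632841576841216001) (nat_lit 1)) (.cons (.rf (nat_lit 3511) (nat_lit 493858305440582043680)) (.cons (.rf (nat_lit 3511) (nat_lit 492741412560154270752)) (.cons (.br (nat_lit 11) (nat_lit 1) (.cons (.rf (nat_lit 3512) (nat_lit 493858305440582043680)) (.cons (.rf (nat_lit 3513) (nat_lit 493858305440582043680)) (.cons (.rf (nat_lit 3514) (nat_lit 493858305440582043680)) (.cons (.rf (nat_lit 3515) (nat_lit 493858305440582043680)) (.cons (.br (nat_lit 12) (nat_lit 1) (.cons (.rf (nat_lit 3513) (nat_lit 492741412560154270752)) (.cons (.rf (nat_lit 3512) (nat_lit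 492741412560154270752)) (.cons (.rf (nat_lit 3514) (nat_lit 492741412560154270752)) (.cons (.rf (nat_lit 3515) (nat_lit 493858305440582043680)) .nil))))) .nil)))))) .nil))))))) .nil)))))),
 (.br (nat_lit 8) (nat_lit 1) (.cons (.ev (nat_lit 282574488338689) (nat_lit 1)) (.cons (.rf (nat_lit 3483) (nat_lit 493858305440582043680)) (.cons (.rf (nat_lit 3483) (nat_lit 492741412560154270752)) (.cons (.rf (nat_lit 3500) (nat_lit 493858305440582043680)) (.cons (.rf (nat_lit 3516) (nat_lit 493858305440582043680)) (.cons (.br (nat_lit 8) (nat_lit 1) (.cons (.ev (nat_lit 282574488338689) (nat_lit 1)) (.cons (.rf (nat_lit 3483) (nat_lit 493858305440582043680)) (.cons (.rf (nat_lit 3483) (nat_lit 492741412560154270752)) (.cons (.rf (nat_lit 3500) (nat_lit 493858305440582043680)) (.cons (.rf (nat_lit 3516) (nat_lit 493858305440582043680)) .nil)))))) .nil))))))),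
 (.br (nat_lit 3) (nat_lit 1) (.cons (.br (nat_lit 4) (nat_lit 1) (.cons (.br (nat_lit 10) (nat_lit 1) (.cons (.br (nat_lit 8) (nat_lit 1) (.cons (.ev (nat_lit 282574488338689) (nat_lit 1)) (.cons (.rf (nat_lit 3483) (nat_lit 493858305440582043680)) (.cons (.rf (nat_lit 3483) (nat_lit 492741412560154270752)) (.cons (.rf (nat_lit 3500) (nat_lit 493858305440582043680)) (.cons (.rf (nat_lit 3517) (nat_lit 493858305440582043680)) (.cons (.rf (nat_lit 3517) (nat_lit 492741412560154270752)) (.cons (.br (nat_lit 8) (nat_lit 1) (.cons (.ev (nat_lit 282574488338689) (nat_lit 1)) (.cons (.rf (nat_lit 3483) (nat_lit 493858305440582043680)) (.cons (.rf (nat_lit 3483) (nat_lit 492741412560154270752)) (.cons (.rf (nat_lit 3500) (nat_lit 493858305440582043680)) (.cons (.rf (nat_lit 3517) (nat_lit 493858305440582043680)) (.cons (.rf (nat_lit 3517) (nat_lit 492741412560154270752)) .nil))))))) .nil)))))))) .nil)) .nil)) .nil)),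
 (.br (nat_lit 11) (nat_lit 1) (.cons (.rf (nat_lit 2594) (nat_lit 8994006242)) (.cons (.rf (nat_lit 82) (nat_lit 13165110306)) (.cons (.br (nat_lit 8) (nat_lit 1) (.cons (.rf (nat_lit 58) (nat_lit 8690753)) (.cons (.br (nat_lit 9) (nat_lit 1) (.cons (.ev (nat_lit 79228167236703159532220580096) (nat_lit 1)) (.cons (.br (nat_lit 12) (nat_lit 1) (.cons (.ev (nat_lit 79538861190718805714069946625) (nat_lit 1)) .nil)) .nil))) (.cons (.br (nat_lit 9) (nat_lit 1) (.cons (.br (nat_lit 12) (nat_lit 1) (.cons (.ev (nat_lit 20680102681827231840305942954246) (nat_lit 3)) .nil)) (.cons (.rf (nat_lit 84) (nat_lit 12256058433)) .nil))) .nil)))) .nil)))),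
 (.br (nat_lit 11) (nat_lit 1) (.cons (.rf (nat_lit 1339) (nat_lit 392226377762)) (.cons (.rf (nat_lit 1343) (nat_lit 423430988834)) (.cons (.rf (nat_lit 3519) (nat_lit 493858305440582043680)) (.cons (.br (nat_lit 11) (nat_lit 1) (.cons (.rf (nat_lit 2594) (nat_lit 9027560674)) (.cons (.rf (nat_lit 82) (nat_lit 14238852130)) (.cons (.rf (nat_lit 3519) (nat_lit 493858305440582043680)) .nil)))) .nil))))),
 (.br (nat_lit 8) (nat_lit 1) (.cons (.rf (nat_lit 84) (nat_lit 14336433217)) (.cons (.br (nat_lit 11) (nat_lit 1) (.cons (.br (nat_lit 11) (nat_lit 1) (.cons (.zr (nat_lit 313111787352809500290908160) (nat_lit 18963252909976737284098) (nat_lit 10) (nat_lit 10)) .nil)) (.cons (.br (nat_lit 11) (nat_lit 1) (.cons (.zr (nat_lit 313111787352809500290908160) (nat_lit 18963252909976737284098) (nat_lit 10) (nat_lit 10)) .nil)) .nil))) (.cons (.rf (nat_lit 84) (nat_lit 12255796297)) .nil)))),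
 (.br (nat_lit 1) (nat_lit 1) (.cons (.ev (nat_lit 282574488338689) (nat_lit 1)) (.cons (.rf (nat_lit 29) (nat_lit 8620321)) (.cons (.rf (nat_lit 3520) (nat_lit 493858305440582043680)) (.cons (.rf (nat_lit 3520) (nat_lit 492741412732994160672)) (.cons (.br (nat_lit 9) (nat_lit 1) (.cons (.rf (nat_lit 58) (nat_lit 8690753)) (.cons (.rf (nat_lit 3521) (nat_lit 493858305440582043680)) (.cons (.rf (nat_lit 3521) (nat_lit 492741412732994160672)) (.cons (.rf (nat_lit 1343) (nat_lit 389138359330)) .nil))))) .nil)))))),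
 (.br (nat_lit 8) (nat_lit 1) (.cons (.rf (nat_lit 84) (nat_lit 14336369729)) (.cons (.br (nat_lit 11) (nat_lit 1) (.cons (.rf (nat_lit 2012) (nat_lit 338239815777622055)) (.cons (.br (nat_lit 12) (nat_lit 1) (.cons (.zr (nat_lit 55556686486809083904) (nat_lit 620188390195271605443100673) (nat_lit 5) (nat_lit 0)) (.cons (.kr (nat_lit 20282409603651670705422228062464) (nat_lit 18518801676337414144) (nat_lit 1) (nat_lit 0)) .nil))) .nil))) (.cons (.rf (nat_lit 84) (nat_lit 12255798343)) .nil)))),
 (.br (nat_lit 1) (nat_lit 1) (.cons (.ev (nat_lit 4722366483969156841729) (nat_lit 1)) (.cons (.ev (nat_lit 282574488338689) (nat_lit 1)) (.cons (.rf (nat_lit 1733) (nat_lit 445058400266618912)) (.cons (.rf (nat_lit 1733) (nat_lit 410155503154497568)) (.cons (.br (nat_lit 7) (nat_lit 1) (.cons (.rf (nat_lit 58) (nat_lit 8690753)) (.cons (.rf (nat_lit 3523) (nat_lit 493858305440582043680)) (.cons (.rf (nat_lit 3523) (nat_lit 492741412732994160672)) (.cons (.rf (nat_lit 1343) (nat_lit 389140454434)) .nil)))))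 .nil)))))),
 (.br (nat_lit 7) (nat_lit 1) (.cons (.kr (nat_lit 281474976710656) (nat_lit 4722366482869645213696) (nat_lit 6) (nat_lit 0)) (.cons (.rf (nat_lit 2594) (nat_lit 12216181985)) (.cons (.br (nat_lit 9) (nat_lit 1) (.cons (.rf (nat_lit 84) (nat_lit 13164946471)) (.cons (.rf (nat_lit 84) (nat_lit 12092253409)) (.cons (.br (nat_lit 11) (nat_lit 1) (.cons (.ev (nat_lit 80160258506733973423681241090) (nat_lit 2)) (.cons (.br (nat_lit 12) (nat_lit 1) (.cons (.ev (nat_lit 20678862323936019565519749711108) (nat_lit 3)) .nil)) .nil))) .nil)))) (.cons (.br (nat_lit 9) (nat_lit 1) (.cons (.zr (nat_lit 313111787352246550337486848) (nat_lit 4777706998769068802051) (nat_lit 10) (nat_lit 10)) (.cons (.br (nat_lit 11) (nat_lit 1) (.cons (.zr (nat_lit 79231789291795239075156656128) (nat_lit 73787541448109850626) (nat_lit 10) (nat_lit 10)) (.cons (.br (nat_lit 12) (nat_lit 1) (.cons (.ev (nat_lit 20680100282791272126956429575428) (nat_lit 3)) .nil)) .nil))) (.cons (.br (nat_lit 11) (nat_lit 1) (.cons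 (.br (nat_lit 12) (nat_lit 1) (.cons (.ev (nat_lit 80160253784367772029012738050) (nat_lit 2)) .nil)) (.cons (.rf (nat_lit 84) (nat_lit 8972707042)) .nil))) .nil)))) .nil))))),
 (.br (nat_lit 9) (nat_lit 1) (.cons (.rf (nat_lit 84) (nat_lit 14238688481)) (.cons (.br (nat_lit 13) (nat_lit 1) (.cons (.br (nat_lit 12) (nat_lit 1) (.cons (.zr (nat_lit 237684487598350543692371066880) (nat_lit 1548657586758755420553084929) (nat_lit 5) (nat_lit 0)) .nil)) (.cons (.zr (nat_lit 79231789291795239075156656128) (nat_lit 73787541448109850626) (nat_lit 10) (nat_lit 10)) .nil))) (.cons (.br (nat_lit 11) (nat_lit 1) (.cons (.br (nat_lit 12) (nat_lit 1) (.cons (.ev (nat_lit 20284268941136170804290322367748) (nat_lit 3)) .nil)) (.cons (.ev (nat_lit 20283032205189658090245967708419) (nat_lit 2)) .nil))) .nil)))),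
 (.br (nat_lit 11) (nat_lit 1) (.cons (.zr (nat_lit 55556405011899482112) (nat_lit 620178945462587341112608001) (nat_lit 5) (nat_lit 6)) (.cons (.rf (nat_lit 84) (nat_lit 8972966946)) .nil))),
 (.br (nat_lit 12) (nat_lit 1) (.cons (.ev (nat_lit 79228167255149903605930131713) (nat_lit 1)) .nil)),
 (.br (nat_lit 9) (nat_lit 1) (.cons (.rf (nat_lit 84) (nat_lit 13164946471)) (.cons (.br (nat_lit 12) (nat_lit 1) (.cons (.ev (nat_lit 79228162514336395187598655744) (nat_lit 1)) (.cons (.ev (nat_lit 79229376162522493790225236225) (nat_lit 1)) .nil))) (.cons (.br (nat_lit 12) (nat_lit 1) (.cons (.rf (nat_lit 3096) (nat_lit 493858305440582043680)) (.cons (.ev (nat_lit 20282409608374109246985422831616) (nat_lit 1)) .nil))) .nil)))),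
 (.br (nat_lit 11) (nat_lit 1) (.cons (.rf (nat_lit 84) (nat_lit 13164946471)) (.cons (.zr (nat_lit 309508621725820326703529987) (nat_lit 2417925426768503258480640) (nat_lit 10) (nat_lit 5)) (.cons (.br (nat_lit 12) (nat_lit 1) (.cons (.br (nat_lit 12) (nat_lit 1) (.cons (.ev (nat_lit 20680102710161431300473767657734) (nat_lit 3)) .nil)) (.cons (.br (nat_lit 1) (nat_lit 1) (.cons (.ev (nat_lit 20680102710161431300473767657734) (nat_lit 3)) .nil)) .nil))) .nil)))),
 (.br (nat_lit 11) (nat_lit 1) (.cons (.rf (nat_lit 3529) (nat_lit 493858305440582043680)) (.cons (.zr (nat_lit 309508621725820326703529987) (nat_lit 2417925426768503258480640) (nat_lit 10) (nat_lit 5)) (.cons (.br (nat_lit 13) (nat_lit 1) (.cons (.ev (nat_lit 20282720297605758128822683697153) (nat_lit 1)) (.cons (.ev (nat_lit 20282410812577562377649735598081) (nat_lit 1)) (.cons (.ev (nat_lit 20282719088661492050490969620481) (nat_lit 1)) .nil)))) .nil)))),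
 (.br (nat_lit 8) (nat_lit 1) (.cons (.ev (nat_lit 282574488338689) (nat_lit 1)) (.cons (.rf (nat_lit 3522) (nat_lit 493858305440582043680)) (.cons (.rf (nat_lit 3524) (nat_lit 493858305440582043680)) (.cons (.br (nat_lit 1) (nat_lit 1) (.cons (.rf (nat_lit 1593) (nat_lit 424205886689)) (.cons (.rf (nat_lit 1593) (nat_lit 424205884705)) (.cons (.rf (nat_lit 3525) (nat_lit 493858305440582043680)) (.cons (.rf (nat_lit 3525) (nat_lit 492741412732994160672)) (.cons (.br (nat_lit 7) (nat_lit 1) (.cons (.kr (nat_lit 281474976710656) (nat_lit 4722366482869645213696) (nat_lit 6) (nat_lit 0)) (.cons (.rf (nat_lit 3526) (nat_lit 493858305440582043680)) (.cons (.rf (nat_lit 3526) (nat_lit 492741412732994160672)) (.cons (.br (nat_lit 9) (nat_lit 1) (.cons (.rf (nat_lit 3527) (nat_lit 493858305440582043680)) (.cons (.rf (nat_lit 3527) (nat_lit 492741412732994160672)) (.cons (.zr (nat_lit 18662917963958452225) (nat_lit 40564820416229160743998654120704) (nat_lit 5) (nat_lit 6)) .nil)))) .nil))))) .nil))))))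 (.cons (.br (nat_lit 7) (nat_lit 1) (.cons (.br (nat_lit 9) (nat_lit 1) (.cons (.rf (nat_lit 31) (nat_lit 377784545)) (.cons (.br (nat_lit 12) (nat_lit 1) (.cons (.rf (nat_lit 3528) (nat_lit 493858305440582043680)) (.cons (.rf (nat_lit 3528) (nat_lit 420143386739781765152)) .nil))) (.cons (.rf (nat_lit 31) (nat_lit 444893409)) .nil)))) (.cons (.kr (nat_lit 281474976710656) (nat_lit 4722366482869645213696) (nat_lit 6) (nat_lit 0)) (.cons (.br (nat_lit 1) (nat_lit 1) (.cons (.rf (nat_lit 31) (nat_lit 377719073)) (.cons (.rf (nat_lit 2594) (nat_lit 12249736417)) (.cons (.br (nat_lit 9) (nat_lit 1) (.cons (.rf (nat_lit 84) (nat_lit 13164946657)) (.cons (.rf (nat_lit 2001) (nat_lit 337077562325993504)) (.cons (.br (nat_lit 13) (nat_lit 1) (.cons (.ev (nat_lit 20282409608374109246985422831616) (nat_lit 1)) (.cons (.ev (nat_lit 20282410812577562377649735598081) (nat_lit 1)) .nil))) .nil)))) (.cons (.br (nat_lit 9) (nat_lit 1) (.cons (.rf (nat_lit 84) (nat_lit 14238688481)) (.cons (.br (nat_lit 13)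 (nat_lit 1) (.cons (.ev (nat_lit 20282720302328124893167305621505) (nat_lit 1)) (.cons (.rf (nat_lit 1386) (nat_lit 455779174148569400608)) .nil))) (.cons (.ev (nat_lit 20282409603670189226714510458881) (nat_lit 1)) .nil)))) .nil))))) (.cons (.br (nat_lit 11) (nat_lit 1) (.cons (.rf (nat_lit 3529) (nat_lit 493858305440582043680)) (.cons (.rf (nat_lit 3530) (nat_lit 493858305440582043680)) (.cons (.rf (nat_lit 3531) (nat_lit 493858305440582043680)) (.cons (.br (nat_lit 11) (nat_lit 1) (.cons (.rf (nat_lit 3529) (nat_lit 493858305440582043680)) (.cons (.rf (nat_lit 3530) (nat_lit 493858305440582043680)) (.cons (.rf (nat_lit 3531) (nat_lit 493858305440582043680)) .nil)))) .nil))))) (.cons (.br (nat_lit 1) (nat_lit 1) (.cons (.rf (nat_lit 31) (nat_lit 444827937)) (.cons (.br (nat_lit 9) (nat_lit 1) (.cons (.rf (nat_lit 84) (nat_lit 14238688295)) (.cons (.rf (nat_lit 3398) (nat_lit 420143105262659668256)) (.cons (.ev (nat_lit 20282409603651742482640800907264) (nat_lit 1)) .nil)))) (.cons (.br (nat_lit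 9) (nat_lit 1) (.cons (.br (nat_lit 12) (nat_lit 1) (.cons (.br (nat_lit 12) (nat_lit 1) (.cons (.ev (nat_lit 20680102691271964243095279960326) (nat_lit 3)) .nil)) (.cons (.br (nat_lit 11) (nat_lit 1) (.cons (.ev (nat_lit 20680102691271964243095279960326) (nat_lit 3)) .nil)) .nil))) (.cons (.rf (nat_lit 2001) (nat_lit 339329362139678752)) (.cons (.ev (nat_lit 20282409603651742482640800907264) (nat_lit 1)) .nil)))) (.cons (.rf (nat_lit 2594) (nat_lit 14330111201)) .nil))))) .nil)))))) .nil)))))),
 (.br (nat_lit 8) (nat_lit 1) (.cons (.ev (nat_lit 282574488338689) (nat_lit 1)) (.cons (.rf (nat_lit 3522) (nat_lit 493858305440582043680)) (.cons (.rf (nat_lit 3524) (nat_lit 493858305440582043680)) (.cons (.rf (nat_lit 3532) (nat_lit 493858305440582043680)) (.cons (.rf (nat_lit 3532) (nat_lit 492741412732994160672)) (.cons (.br (nat_lit 8) (nat_lit 1) (.cons (.ev (nat_lit 282574488338689) (nat_lit 1)) (.cons (.rf (nat_lit 3522) (nat_lit 493858305440582043680)) (.cons (.rf (nat_lit 3524) (nat_lit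 493858305440582043680)) (.cons (.rf (nat_lit 3532) (nat_lit 493858305440582043680)) (.cons (.rf (nat_lit 3532) (nat_lit 492741412732994160672)) .nil)))))) .nil))))))),
 (.br (nat_lit 12) (nat_lit 1) (.cons (.kr (nat_lit 1208925819614629174706176) (nat_lit 79228162514264337593543950336) (nat_lit 10) (nat_lit 0)) (.cons (.kr (nat_lit 79228162514264619068520660992) (nat_lit 1213648186097498819919872) (nat_lit 6) (nat_lit 0)) (.cons (.ev (nat_lit 79228162514264337597838983424) (nat_lit 1)) .nil)))),
 (.br (nat_lit 11) (nat_lit 1) (.cons (.rf (nat_lit 82) (nat_lit 13165168679)) (.cons (.rf (nat_lit 2594) (nat_lit 8993999143)) (.cons (.br (nat_lit 2) (nat_lit 1) (.cons (.rf (nat_lit 58) (nat_lit 8690753)) (.cons (.rf (nat_lit 3534) (nat_lit 493858305440582043680)) (.cons (.br (nat_lit 13) (nat_lit 1) (.cons (.rf (nat_lit 84) (nat_lit 12255831265)) (.cons (.ev (nat_lit 20282410817299856521446088048641) (nat_lit 1)) .nil))) .nil)))) .nil)))),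
 (.br (nat_lit 11) (nat_lit 1) (.cons (.rf (nat_lit 1343) (nat_lit 423433078823)) (.cons (.rf (nat_lit 1339) (nat_lit 391991562279)) (.cons (.rf (nat_lit 3535) (nat_lit 493858305440582043680)) (.cons (.br (nat_lit 11) (nat_lit 1) (.cons (.rf (nat_lit 82) (nat_lit 14238910503)) (.cons (.rf (nat_lit 2594) (nat_lit 9027553575)) (.cons (.rf (nat_lit 3535) (nat_lit 493858305440582043680)) .nil)))) .nil))))),
 (.br (nat_lit 8) (nat_lit 1) (.cons (.rf (nat_lit 84) (nat_lit 14336206049)) (.cons (.br (nat_lit 11) (nat_lit 1) (.cons (.br (nat_lit 11) (nat_lit 1) (.cons (.ev (nat_lit 310698658007443667056328961) (nat_lit 1)) .nil)) (.cons (.br (nat_lit 11) (nat_lit 1) (.cons (.ev (nat_lit 310698658007443667056328961) (nat_lit 1)) .nil)) .nil))) (.cons (.rf (nat_lit 84) (nat_lit 12255798498)) .nil)))),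
 (.br (nat_lit 1) (nat_lit 1) (.cons (.rf (nat_lit 29) (nat_lit 8690753)) (.cons (.ev (nat_lit 282574488338689) (nat_lit 1)) (.cons (.rf (nat_lit 3536) (nat_lit 493858305440582043680)) (.cons (.rf (nat_lit 3536) (nat_lit 492741412732994160672)) (.cons (.br (nat_lit 2) (nat_lit 1) (.cons (.rf (nat_lit 58) (nat_lit 8690753)) (.cons (.rf (nat_lit 3537) (nat_lit 493858305440582043680)) (.cons (.rf (nat_lit 3537) (nat_lit 492741412732994160672)) (.cons (.rf (nat_lit 1343) (nat_lit 389140449319)) .nil))))) .nil))))))]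

theorem c120 : chkAll C T R L120 (nat_lit 3514) = true := by decide +kernel

theorem l120 : (nat_lit 3514) + L120.length = (nat_lit 3539) := by decide +kernel

/-- part of the certificates -/
def L121 : List Prf := [(.br (nat_lit 2) (nat_lit 1) (.cons (.rf (nat_lit 31) (nat_lit 377527586)) (.cons (.rf (nat_lit 2594) (nat_lit 12221424705)) (.cons (.br (nat_lit 9) (nat_lit 1) (.cons (.rf (nat_lit 84) (nat_lit 13165110306)) (.cons (.rf (nat_lit 84) (nat_lit 12092417089)) (.cons (.ev (nat_lit 1213648186378978091663616) (nat_lit 1)) .nil)))) (.cons (.br (nat_lit 9) (nat_lit 1) (.cons (.rf (nat_lit 84) (nat_lit 14238852130)) (.cons (.ev (nat_lit 1213648186378978091663616) (nat_lit 1)) (.cons (.br (nat_lit 11) (nat_lit 1) (.cons (.br (nat_lit 12) (nat_lit 1) (.cons (.zr (nat_lit 55340232221162405888) (nat_lit 158457533954348572395045912577) (nat_lit 5) (nat_lit 0)) .nil)) (.cons (.ev (nat_lit 310698676454187740765880576) (nat_lit 1)) .nil))) .nil)))) .nil))))),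
 (.br (nat_lit 9) (nat_lit 1) (.cons (.rf (nat_lit 84) (nat_lit 14336206049)) (.cons (.rf (nat_lit 84) (nat_lit 14238852161)) (.cons (.ev (nat_lit 1213648186378978091663616) (nat_lit 1)) (.cons (.br (nat_lit 11) (nat_lit 1) (.cons (.ev (nat_lit 310698658007443667056328961) (nat_lit 1)) (.cons (.rf (nat_lit 84) (nat_lit 8972739623)) .nil))) .nil))))),
 (.br (nat_lit 11) (nat_lit 1) (.cons (.br (nat_lit 12) (nat_lit 1) (.cons (.kr (nat_lit 20282719093383930309479659208960) (nat_lit 79228162532711081667287121920) (nat_lit 1) (nat_lit 0)) .nil)) (.cons (.ev (nat_lit 309489732260167007401410816) (nat_lit 1)) .nil))),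
 (.br (nat_lit 9) (nat_lit 1) (.cons (.rf (nat_lit 84) (nat_lit 13262464225)) (.cons (.rf (nat_lit 84) (nat_lit 13165110337)) (.cons (.br (nat_lit 11) (nat_lit 1) (.cons (.ev (nat_lit 310698658007443667056328961) (nat_lit 1)) (.cons (.br (nat_lit 12) (nat_lit 1) (.cons (.ev (nat_lit 158765819483227946720505823235) (nat_lit 2)) (.cons (.ev (nat_lit 158768227890134212429997998081) (nat_lit 2)) .nil))) .nil))) (.cons (.ev (nat_lit 1213648186378978091663616) (nat_lit 1)) .nil))))),
 (.br (nat_lit 2) (nat_lit 1) (.cons (.rf (nat_lit 84) (nat_lit 13165110337)) (.cons (.br (nat_lit 11) (nat_lit 1) (.cons (.ev (nat_lit 309489732260167007401410816) (nat_lit 1)) (.cons (.br (nat_lit 12) (nat_lit 1) (.cons (.zr (nat_lit 237684501710108636370704531712) (nat_lit 620178945462586245929697281) (nat_lit 5) (nat_lit 6)) .nil)) .nil))) (.cons (.ev (nat_lit 1213648186378978091663616) (nat_lit 1)) .nil)))),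
 (.br (nat_lit 11) (nat_lit 1) (.cons (.rf (nat_lit 3542) (nat_lit 493858305440582043680)) (.cons (.ev (nat_lit 309489732260167007401410816) (nat_lit 1)) (.cons (.br (nat_lit 12) (nat_lit 1) (.cons (.zr (nat_lit 55340232221162405888) (nat_lit 620178945462587345407574017) (nat_lit 5) (nat_lit 0)) (.cons (.ev (nat_lit 79538856468424098959207694593) (nat_lit 1)) (.cons (.zr (nat_lit 309485065161579488876692224) (nat_lit 60847230019880831167950217019393) (nat_lit 5) (nat_lit 0)) .nil)))) .nil)))),
 (.br (nat_lit 11) (nat_lit 1) (.cons (.rf (nat_lit 3542) (nat_lit 493858305440582043680)) (.cons (.rf (nat_lit 3543) (nat_lit 493858305440582043680)) (.cons (.rf (nat_lit 3544) (nat_lit 493858305440582043680)) (.cons (.br (nat_lit 11) (nat_lit 1) (.cons (.rf (nat_lit 3542) (nat_lit 493858305440582043680)) (.cons (.rf (nat_lit 3543) (nat_lit 493858305440582043680)) (.cons (.rf (nat_lit 3544) (nat_lit 493858305440582043680)) .nil)))) .nil))))),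
 (.br (nat_lit 12) (nat_lit 1) (.cons (.ev (nat_lit 79229371458603036469266284800) (nat_lit 1)) (.cons (.zr (nat_lit 237684487543009467046312280064) (nat_lit 1218407446069615412641793) (nat_lit 5) (nat_lit 10)) (.cons (.br (nat_lit 13) (nat_lit 1) (.cons (.ev (nat_lit 20282410817318303265519797600256) (nat_lit 1)) (.cons (.ev (nat_lit 20361638975091826434863519563776) (nat_lit 1)) .nil))) .nil)))),
 (.br (nat_lit 12) (nat_lit 1) (.cons (.rf (nat_lit 3545) (nat_lit 493858305440582043680)) (.cons (.zr (nat_lit 237684487543009467046312280064) (nat_lit 1218407446069615412641793) (nat_lit 5) (nat_lit 10)) (.cons (.br (nat_lit 11) (nat_lit 1) (.cons (.ev (nat_lit 79228162514264337597838983424) (nat_lit 1)) (.cons (.br (nat_lit 1) (nat_lit 1) (.cons (.ev (nat_lit 1213648186378978091663616) (nat_lit 1)) .nil)) (.cons (.zr (nat_lit 55340232221162405888) (nat_lit 620178945462587345407574017) (nat_lit 5) (nat_lit 0)) .nil)))) .nil)))),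
 (.br (nat_lit 12) (nat_lit 1) (.cons (.rf (nat_lit 3545) (nat_lit 493858305440582043680)) (.cons (.rf (nat_lit 3546) (nat_lit 493858305440582043680)) (.cons (.rf (nat_lit 3547) (nat_lit 493858305440582043680)) (.cons (.br (nat_lit 12) (nat_lit 1) (.cons (.rf (nat_lit 3545) (nat_lit 493858305440582043680)) (.cons (.rf (nat_lit 3546) (nat_lit 493858305440582043680)) (.cons (.rf (nat_lit 3547) (nat_lit 493858305440582043680)) .nil)))) .nil))))),
 (.br (nat_lit 12) (nat_lit 1) (.cons (.rf (nat_lit 3545) (nat_lit 493858305440582043680)) (.cons (.zr (nat_lit 237684487543009467046312280064) (nat_lit 1218407446069615412641793) (nat_lit 5) (nat_lit 10)) (.cons (.br (nat_lit 1) (nat_lit 1) (.cons (.ev (nat_lit 1213666633123051801215233) (nat_lit 1)) (.cons (.br (nat_lit 2) (nat_lit 1) (.cons (.ev (nat_lit 1213648186378978091663616) (nat_lit 1)) .nil)) (.cons (.br (nat_lit 2) (nat_lit 1) (.cons (.ev (nat_lit 1213648186378978091663616) (nat_lit 1)) .nil)) .nil)))) .nil)))),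
 (.br (nat_lit 12) (nat_lit 1) (.cons (.rf (nat_lit 3545) (nat_lit 493858305440582043680)) (.cons (.rf (nat_lit 3548) (nat_lit 493858305440582043680)) (.cons (.rf (nat_lit 3549) (nat_lit 493858305440582043680)) (.cons (.br (nat_lit 12) (nat_lit 1) (.cons (.rf (nat_lit 3545) (nat_lit 493858305440582043680)) (.cons (.rf (nat_lit 3548) (nat_lit 493858305440582043680)) (.cons (.rf (nat_lit 3549) (nat_lit 493858305440582043680)) .nil)))) .nil))))),
 (.br (nat_lit 12) (nat_lit 1) (.cons (.rf (nat_lit 3545) (nat_lit 493858305440582043680)) (.cons (.rf (nat_lit 3548) (nat_lit 493858305440582043680)) (.cons (.rf (nat_lit 3550) (nat_lit 493858305440582043680)) (.cons (.br (nat_lit 12) (nat_lit 1) (.cons (.rf (nat_lit 3545) (nat_lit 493858305440582043680)) (.cons (.rf (nat_lit 3548) (nat_lit 493858305440582043680)) (.cons (.rf (nat_lit 3550) (nat_lit 493858305440582043680)) .nil)))) .nil))))),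
 (.br (nat_lit 8) (nat_lit 1) (.cons (.ev (nat_lit 282574488338689) (nat_lit 1)) (.cons (.rf (nat_lit 3533) (nat_lit 493858305440582043680)) (.cons (.rf (nat_lit 3538) (nat_lit 493858305440582043680)) (.cons (.br (nat_lit 1) (nat_lit 1) (.cons (.rf (nat_lit 1593) (nat_lit 424373658689)) (.cons (.rf (nat_lit 1593) (nat_lit 424373651745)) (.cons (.rf (nat_lit 3539) (nat_lit 493858305440582043680)) (.cons (.rf (nat_lit 3539) (nat_lit 492741412732994160672)) (.cons (.br (nat_lit 2) (nat_lit 1) (.cons (.ev (nat_lit 4722438541567506579713) (nat_lit 1)) (.cons (.rf (nat_lit 3540) (nat_lit 493858305440582043680)) (.cons (.rf (nat_lit 3540) (nat_lit 492741412732994160672)) (.cons (.br (nat_lit 9) (nat_lit 1) (.cons (.rf (nat_lit 3541) (nat_lit 493858305440582043680)) (.cons (.rf (nat_lit 3541) (nat_lit 492741412732994160672)) (.cons (.ev (nat_lit 20282410812596009121723445149696) (nat_lit 1)) .nil)))) .nil))))) .nil)))))) (.cons (.br (nat_lit 12) (nat_lit 1) (.cons (.rf (nat_lit 3545) (nat_lit 493858305440582043680))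 (.cons (.rf (nat_lit 3548) (nat_lit 493858305440582043680)) (.cons (.rf (nat_lit 3550) (nat_lit 493858305440582043680)) (.cons (.rf (nat_lit 3551) (nat_lit 493858305440582043680)) (.cons (.br (nat_lit 12) (nat_lit 1) (.cons (.rf (nat_lit 3545) (nat_lit 493858305440582043680)) (.cons (.rf (nat_lit 3548) (nat_lit 493858305440582043680)) (.cons (.rf (nat_lit 3550) (nat_lit 493858305440582043680)) (.cons (.rf (nat_lit 3551) (nat_lit 493858305440582043680)) .nil))))) .nil)))))) .nil)))))),
 (.br (nat_lit 8) (nat_lit 1) (.cons (.ev (nat_lit 282574488338689) (nat_lit 1)) (.cons (.rf (nat_lit 3533) (nat_lit 493858305440582043680)) (.cons (.rf (nat_lit 3538) (nat_lit 493858305440582043680)) (.cons (.rf (nat_lit 3552) (nat_lit 493858305440582043680)) (.cons (.rf (nat_lit 3552) (nat_lit 492741412732994160672)) (.cons (.br (nat_lit 8) (nat_lit 1) (.cons (.ev (nat_lit 282574488338689) (nat_lit 1)) (.cons (.rf (nat_lit 3533) (nat_lit 493858305440582043680)) (.cons (.rf (nat_lit 3538) (nat_lit 493858305440582043680))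 (.cons (.rf (nat_lit 3552) (nat_lit 493858305440582043680)) (.cons (.rf (nat_lit 3552) (nat_lit 492741412732994160672)) .nil)))))) .nil))))))),
 (.br (nat_lit 2) (nat_lit 1) (.cons (.rf (nat_lit 31) (nat_lit 377529570)) (.cons (.rf (nat_lit 2594) (nat_lit 12223519809)) (.cons (.br (nat_lit 7) (nat_lit 1) (.cons (.rf (nat_lit 84) (nat_lit 13165173794)) (.cons (.ev (nat_lit 79229371440084234797206995201) (nat_lit 1)) (.cons (.br (nat_lit 12) (nat_lit 1) (.cons (.zr (nat_lit 111113372956438956547) (nat_lit 1560742122588419967953141760) (nat_lit 35) (nat_lit 0)) (.cons (.zr (nat_lit 396140812571323376817580016896) (nat_lit 3636259229414074722811905) (nat_lit 5) (nat_lit 3)) .nil))) .nil)))) (.cons (.br (nat_lit 7) (nat_lit 1) (.cons (.rf (nat_lit 84) (nat_lit 14238915618)) (.cons (.br (nat_lit 11) (nat_lit 1) (.cons (.ev (nat_lit 79537652264970968303484862720) (nat_lit 1)) (.cons (.br (nat_lit 12) (nat_lit 1) (.cons (.ev (nat_lit 79538856468424098959207694593) (nat_lit 1)) .nil)) .nil))) (.cons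 (.br (nat_lit 13) (nat_lit 1) (.cons (.zr (nat_lit 37037603335495090945) (nat_lit 20283030996245318826217007218688) (nat_lit 10) (nat_lit 0)) (.cons (.zr (nat_lit 101412048046592551579904131794176) (nat_lit 1208999894829022515822594) (nat_lit 10) (nat_lit 3)) .nil))) .nil)))) .nil))))),
 (.br (nat_lit 2) (nat_lit 1) (.cons (.ev (nat_lit 309489732188109417641738496) (nat_lit 1)) (.cons (.br (nat_lit 12) (nat_lit 1) (.cons (.kr (nat_lit 79228162514264619068520660992) (nat_lit 1213648186097498819919872) (nat_lit 6) (nat_lit 0)) (.cons (.zr (nat_lit 4859315110872864924894464) (nat_lit 158456325065566561109972877313) (nat_lit 5) (nat_lit 3)) .nil))) (.cons (.rf (nat_lit 3189) (nat_lit 411315487856855072)) .nil)))),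
 (.br (nat_lit 1) (nat_lit 1) (.cons (.br (nat_lit 13) (nat_lit 1) (.cons (.zr (nat_lit 37037603335495090945) (nat_lit 20283030991522952624822338715648) (nat_lit 10) (nat_lit 0)) (.cons (.zr (nat_lit 101412048022980720572930789278976) (nat_lit 1208999894829022515822594) (nat_lit 10) (nat_lit 3)) .nil))) (.cons (.br (nat_lit 13) (nat_lit 1) (.cons (.zr (nat_lit 101412048022980720572930789278976) (nat_lit 1208999894829022515822594) (nat_lit 10) (nat_lit 3)) (.cons (.zr (nat_lit 37037884810471801601) (nat_lit 20440868355976571294136290770944) (nat_lit 10) (nat_lit 0)) .nil))) (.cons (.zr (nat_lit 4740885287835927577859) (nat_lit 101412049227184172578794689789952) (nat_lit 10) (nat_lit 0)) .nil)))),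
 (.br (nat_lit 13) (nat_lit 1) (.cons (.zr (nat_lit 2432018738959342261765376) (nat_lit 37037604447908265985) (nat_lit 5) (nat_lit 3)) (.cons (.rf (nat_lit 3556) (nat_lit 493858305440582043680)) (.cons (.br (nat_lit 1) (nat_lit 1) (.cons (.zr (nat_lit 4864055996157419497456896) (nat_lit 101412048018258352966360243699714) (nat_lit 10) (nat_lit 3)) (.cons (.zr (nat_lit 9574364578525919315201) (nat_lit 101413597861159099763188157120512) (nat_lit 20) (nat_lit 0)) (.cons (.zr (nat_lit 129631612786628887809) (nat_lit 101808191262848412767046305054720) (nat_lit 20) (nat_lit 0)) .nil)))) .nil)))),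
 (.br (nat_lit 8) (nat_lit 1) (.cons (.ev (nat_lit 282574488338689) (nat_lit 1)) (.cons (.rf (nat_lit 3533) (nat_lit 493858305440582043680)) (.cons (.rf (nat_lit 3553) (nat_lit 493858305440582043680)) (.cons (.br (nat_lit 1) (nat_lit 1) (.cons (.rf (nat_lit 1593) (nat_lit 424440765505)) (.cons (.ev (nat_lit 4722366483969156841729) (nat_lit 1)) (.cons (.rf (nat_lit 3554) (nat_lit 493858305440582043680)) (.cons (.rf (nat_lit 3554) (nat_lit 492741412732994160672)) (.cons (.br (nat_lit 7) (nat_lit 1) (.cons (.rf (nat_lit 1593) (nat_lit 424440759522)) (.cons (.rf (nat_lit 3555) (nat_lit 493858305440582043680)) (.cons (.rf (nat_lit 3555) (nat_lit 492741412732994160672)) (.cons (.zr (nat_lit 2432018738959342261765376) (nat_lit 37037604447908265985) (nat_lit 5) (nat_lit 3)) .nil))))) .nil)))))) (.cons (.br (nat_lit 7) (nat_lit 1) (.cons (.ev (nat_lit 4722366483969156841729) (nat_lit 1)) (.cons (.rf (nat_lit 2506) (nat_lit 445092479758375968)) (.cons (.br (nat_lit 1) (nat_lit 1) (.cons (.rf (nat_lit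 31) (nat_lit 377726017)) (.cons (.rf (nat_lit 2594) (nat_lit 12257069281)) (.cons (.br (nat_lit 2) (nat_lit 1) (.cons (.ev (nat_lit 310693935641242272387825921) (nat_lit 1)) (.cons (.rf (nat_lit 2336) (nat_lit 445058394897914912)) (.cons (.br (nat_lit 12) (nat_lit 1) (.cons (.br (nat_lit 12) (nat_lit 1) (.cons (.ev (nat_lit 20682573783019219851826525310214) (nat_lit 4)) .nil)) (.cons (.br (nat_lit 11) (nat_lit 1) (.cons (.ev (nat_lit 20682573783019219851826525310214) (nat_lit 4)) .nil)) .nil))) .nil)))) (.cons (.br (nat_lit 2) (nat_lit 1) (.cons (.ev (nat_lit 309489732188109417641738496) (nat_lit 1)) (.cons (.br (nat_lit 11) (nat_lit 1) (.cons (.br (nat_lit 12) (nat_lit 1) (.cons (.ev (nat_lit 79229376162450436191875498241) (nat_lit 1)) .nil)) (.cons (.ev (nat_lit 20282719093402377053557663727616) (nat_lit 1)) .nil))) (.cons (.rf (nat_lit 84) (nat_lit 12093524007)) .nil)))) .nil))))) (.cons (.br (nat_lit 13) (nat_lit 1) (.cons (.zr (nat_lit 2432018738959342261765376) (nat_lit 37037604447908265985)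 (nat_lit 5) (nat_lit 3)) (.cons (.rf (nat_lit 3556) (nat_lit 493858305440582043680)) (.cons (.rf (nat_lit 3557) (nat_lit 493858305440582043680)) (.cons (.br (nat_lit 13) (nat_lit 1) (.cons (.zr (nat_lit 2432018738959342261765376) (nat_lit 37037604447908265985) (nat_lit 5) (nat_lit 3)) (.cons (.rf (nat_lit 3556) (nat_lit 493858305440582043680)) (.cons (.rf (nat_lit 3557) (nat_lit 493858305440582043680)) .nil)))) .nil))))) (.cons (.br (nat_lit 1) (nat_lit 1) (.cons (.rf (nat_lit 31) (nat_lit 444834881)) (.cons (.br (nat_lit 2) (nat_lit 1) (.cons (.rf (nat_lit 84) (nat_lit 14238910503)) (.cons (.br (nat_lit 12) (nat_lit 1) (.cons (.rf (nat_lit 3534) (nat_lit 493858305440582043680)) (.cons (.rf (nat_lit 2449) (nat_lit 14316179330920712416)) .nil))) (.cons (.ev (nat_lit 20282409608374037189395696582656) (nat_lit 1)) .nil)))) (.cons (.br (nat_lit 2) (nat_lit 1) (.cons (.br (nat_lit 11) (nat_lit 1) (.cons (.kr (nat_lit 309485009821626543701491712) (nat_lit 1213648186097498819919872) (nat_lit 6) (nat_lit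 0)) (.cons (.zr (nat_lit 2166395068751667280887153920) (nat_lit 6063555601609072362651649) (nat_lit 5) (nat_lit 3)) .nil))) (.cons (.rf (nat_lit 2336) (nat_lit 447310194711600160)) (.cons (.ev (nat_lit 20282409608374037189395696582656) (nat_lit 1)) .nil)))) (.cons (.rf (nat_lit 2594) (nat_lit 14337444065)) .nil))))) .nil)))))) .nil)))))),
 (.br (nat_lit 8) (nat_lit 1) (.cons (.ev (nat_lit 282574488338689) (nat_lit 1)) (.cons (.rf (nat_lit 3533) (nat_lit 493858305440582043680)) (.cons (.rf (nat_lit 3553) (nat_lit 493858305440582043680)) (.cons (.rf (nat_lit 3558) (nat_lit 493858305440582043680)) (.cons (.rf (nat_lit 3558) (nat_lit 492741412732994160672)) (.cons (.br (nat_lit 8) (nat_lit 1) (.cons (.ev (nat_lit 282574488338689) (nat_lit 1)) (.cons (.rf (nat_lit 3533) (nat_lit 493858305440582043680)) (.cons (.rf (nat_lit 3553) (nat_lit 493858305440582043680)) (.cons (.rf (nat_lit 3558) (nat_lit 493858305440582043680)) (.cons (.rf (nat_lit 3558) (nat_lit 492741412732994160672)) .nil)))))) .nil))))))),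
 (.br (nat_lit 11) (nat_lit 1) (.cons (.ev (nat_lit 310693954160043944447115520) (nat_lit 1)) (.cons (.ev (nat_lit 310693935641242272387825921) (nat_lit 1)) (.cons (.br (nat_lit 9) (nat_lit 1) (.cons (.br (nat_lit 12) (nat_lit 1) (.cons (.ev (nat_lit 158768227890134212429997998081) (nat_lit 2)) .nil)) (.cons (.rf (nat_lit 31) (nat_lit 448039137)) .nil))) .nil)))),
 (.br (nat_lit 13) (nat_lit 1) (.cons (.rf (nat_lit 31) (nat_lit 447816929)) (.cons (.ev (nat_lit 20282410817299856521446088048641) (nat_lit 1)) .nil))),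
 (.br (nat_lit 2) (nat_lit 1) (.cons (.rf (nat_lit 29) (nat_lit 11766049)) (.cons (.br (nat_lit 11) (nat_lit 1) (.cons (.ev (nat_lit 79229376180969237863934787840) (nat_lit 1)) (.cons (.zr (nat_lit 928455029464035206208094208) (nat_lit 1208962713385355377115137) (nat_lit 5) (nat_lit 10)) .nil))) (.cons (.br (nat_lit 11) (nat_lit 1) (.cons (.zr (nat_lit 928455029464035206208094208) (nat_lit 1208962713385355377115137) (nat_lit 5) (nat_lit 10)) (.cons (.ev (nat_lit 20282720302328124893167305621505) (nat_lit 1)) .nil))) .nil))))]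

theorem c121 : chkAll C T R L121 (nat_lit 3539) = true := by decide +kernel

theorem l121 : (nat_lit 3539) + L121.length = (nat_lit 3563) := by decide +kernel

/-- part of the certificates -/
def L122 : List Prf := [(.br (nat_lit 9) (nat_lit 1) (.cons (.kr (nat_lit 281474976710656) (nat_lit 4722366482869645213696) (nat_lit 6) (nat_lit 0)) (.cons (.br (nat_lit 13) (nat_lit 1) (.cons (.rf (nat_lit 82) (nat_lit 9037915170)) (.cons (.ev (nat_lit 20282410817299856521446088048641) (nat_lit 1)) .nil))) (.cons (.ev (nat_lit 1213648186378978091663616) (nat_lit 1)) (.cons (.br (nat_lit 7) (nat_lit 1) (.cons (.ev (nat_lit 310698676454187740765880576) (nat_lit 1)) (.cons (.br (nat_lit 11) (nat_lit 1) (.cons (.zr (nat_lit 237684487542793012780665602048) (nat_lit 1208962713385355377115137) (nat_lit 5) (nat_lit 10)) .nil)) .nil))) .nil))))),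
 (.br (nat_lit 13) (nat_lit 1) (.cons (.rf (nat_lit 3563) (nat_lit 493858305440582043680)) (.cons (.br (nat_lit 2) (nat_lit 1) (.cons (.ev (nat_lit 20282412030985009009119901844225) (nat_lit 2)) (.cons (.ev (nat_lit 1213648186378978091663616) (nat_lit 1)) .nil))) (.cons (.ev (nat_lit 310693954087986346097377536) (nat_lit 1)) (.cons (.br (nat_lit 11) (nat_lit 1) (.cons (.zr (nat_lit 60847228810955011272941265551872) (nat_lit 1208962713384255865487361) (nat_lit 5) (nat_lit 4)) (.cons (.ev (nat_lit 20282721520698750094079745327361) (nat_lit 2)) (.cons (.br (nat_lit 2) (nat_lit 1) (.cons (.ev (nat_lit 20522265345596844217799136051460) (nat_lit 3)) .nil)) .nil)))) .nil))))),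
 (.br (nat_lit 13) (nat_lit 1) (.cons (.rf (nat_lit 3563) (nat_lit 493858305440582043680)) (.cons (.rf (nat_lit 3564) (nat_lit 493858305440582043680)) (.cons (.ev (nat_lit 310693954087986346097377536) (nat_lit 1)) (.cons (.br (nat_lit 2) (nat_lit 1) (.cons (.br (nat_lit 11) (nat_lit 1) (.cons (.zr (nat_lit 55340232221162405888) (nat_lit 158457533954348572395045912577) (nat_lit 5) (nat_lit 0)) .nil)) (.cons (.br (nat_lit 7) (nat_lit 1) (.cons (.zr (nat_lit 237684487542793012780665602048) (nat_lit 1208962713385355377115137) (nat_lit 5) (nat_lit 10)) .nil)) (.cons (.ev (nat_lit 1213648186378978091663616) (nat_lit 1)) .nil)))) .nil))))),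
 (.br (nat_lit 13) (nat_lit 1) (.cons (.rf (nat_lit 3563) (nat_lit 493858305440582043680)) (.cons (.rf (nat_lit 3564) (nat_lit 493858305440582043680)) (.cons (.rf (nat_lit 3565) (nat_lit 493858305440582043680)) (.cons (.ev (nat_lit 310693954087986346097377536) (nat_lit 1)) (.cons (.br (nat_lit 13) (nat_lit 1) (.cons (.rf (nat_lit 3563) (nat_lit 493858305440582043680)) (.cons (.rf (nat_lit 3564) (nat_lit 493858305440582043680)) (.cons (.rf (nat_lit 3565) (nat_lit 493858305440582043680)) (.cons (.ev (nat_lit 310693954087986346097377536) (nat_lit 1)) .nil))))) .nil)))))),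
 (.br (nat_lit 12) (nat_lit 1) (.cons (.zr (nat_lit 928455029680207996878061568) (nat_lit 1208962713385351098925057) (nat_lit 5) (nat_lit 10)) (.cons (.kr (nat_lit 20282409608374036906816896499968) (nat_lit 18446744078021296128) (nat_lit 1) (nat_lit 0)) .nil))),
 (.br (nat_lit 9) (nat_lit 1) (.cons (.br (nat_lit 11) (nat_lit 1) (.cons (.br (nat_lit 12) (nat_lit 1) (.cons (.ev (nat_lit 79229376162450436191875498241) (nat_lit 1)) .nil)) (.cons (.ev (nat_lit 20282720302328124893167305621505) (nat_lit 1)) .nil))) (.cons (.ev (nat_lit 311912343159931340870123521) (nat_lit 2)) (.cons (.br (nat_lit 2) (nat_lit 1) (.cons (.ev (nat_lit 1213648186378978091663616) (nat_lit 1)) (.cons (.zr (nat_lit 237684487543009185571335569408) (nat_lit 1208962713385351098925057) (nat_lit 5) (nat_lit 10)) (.cons (.br (nat_lit 11) (nat_lit 1) (.cons (.zr (nat_lit 928455029464035206208094208) (nat_lit 1208962713385355377115137) (nat_lit 5) (nat_lit 10)) .nil)) .nil)))) (.cons (.br (nat_lit 2) (nat_lit 1) (.cons (.rf (nat_lit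 82) (nat_lit 9037978689)) (.cons (.br (nat_lit 11) (nat_lit 1) (.cons (.ev (nat_lit 79229376162450436191875498241) (nat_lit 1)) .nil)) .nil))) .nil))))),
 (.br (nat_lit 9) (nat_lit 1) (.cons (.ev (nat_lit 20282410817318303265519797600256) (nat_lit 1)) (.cons (.ev (nat_lit 1213648186378978091663616) (nat_lit 1)) .nil))),
 (.br (nat_lit 8) (nat_lit 1) (.cons (.ev (nat_lit 282574488338689) (nat_lit 1)) (.cons (.rf (nat_lit 3533) (nat_lit 493858305440582043680)) (.cons (.rf (nat_lit 3553) (nat_lit 493858305440582043680)) (.cons (.rf (nat_lit 3559) (nat_lit 493858305440582043680)) (.cons (.br (nat_lit 1) (nat_lit 1) (.cons (.ev (nat_lit 1208944266358707179290881) (nat_lit 1)) (.cons (.br (nat_lit 2) (nat_lit 1) (.cons (.rf (nat_lit 246) (nat_lit 423432063201)) (.cons (.rf (nat_lit 3560) (nat_lit 493858305440582043680)) (.cons (.rf (nat_lit 3560) (nat_lit 492741412732994160672)) (.cons (.br (nat_lit 9) (nat_lit 1) (.cons (.rf (nat_lit 3561) (nat_lit 493858305440582043680)) (.cons (.rf (nat_lit 3561)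 (nat_lit 492741412732994160672)) (.cons (.ev (nat_lit 20282410817318375323118113652736) (nat_lit 1)) .nil)))) .nil))))) (.cons (.br (nat_lit 7) (nat_lit 1) (.cons (.rf (nat_lit 246) (nat_lit 423431997729)) (.cons (.rf (nat_lit 3562) (nat_lit 493858305440582043680)) (.cons (.rf (nat_lit 3562) (nat_lit 492741412732994160672)) (.cons (.ev (nat_lit 1213666705180641560887553) (nat_lit 1)) .nil))))) (.cons (.rf (nat_lit 3566) (nat_lit 493858305440582043680)) (.cons (.rf (nat_lit 3566) (nat_lit 492741412732994160672)) (.cons (.br (nat_lit 7) (nat_lit 1) (.cons (.br (nat_lit 9) (nat_lit 1) (.cons (.rf (nat_lit 3567) (nat_lit 493858305440582043680)) (.cons (.rf (nat_lit 3567) (nat_lit 492741412732994160672)) (.cons (.ev (nat_lit 20282410817318375323118113652736) (nat_lit 1)) .nil)))) (.cons (.kr (nat_lit 281474976710656) (nat_lit 4722366482869645213696) (nat_lit 6) (nat_lit 0)) (.cons (.rf (nat_lit 3568) (nat_lit 493858305440582043680)) (.cons (.rf (nat_lit 3568) (nat_lit 492741412732994160672)) (.cons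 (.br (nat_lit 2) (nat_lit 1) (.cons (.rf (nat_lit 29) (nat_lit 13862178)) (.cons (.rf (nat_lit 3569) (nat_lit 493858305440582043680)) (.cons (.rf (nat_lit 3569) (nat_lit 492741412732994160672)) .nil)))) .nil)))))) .nil))))))) .nil)))))),
 (.br (nat_lit 8) (nat_lit 1) (.cons (.ev (nat_lit 282574488338689) (nat_lit 1)) (.cons (.rf (nat_lit 3533) (nat_lit 493858305440582043680)) (.cons (.rf (nat_lit 3553) (nat_lit 493858305440582043680)) (.cons (.rf (nat_lit 3559) (nat_lit 493858305440582043680)) (.cons (.rf (nat_lit 3570) (nat_lit 493858305440582043680)) (.cons (.br (nat_lit 8) (nat_lit 1) (.cons (.ev (nat_lit 282574488338689) (nat_lit 1)) (.cons (.rf (nat_lit 3533) (nat_lit 493858305440582043680)) (.cons (.rf (nat_lit 3553) (nat_lit 493858305440582043680)) (.cons (.rf (nat_lit 3559) (nat_lit 493858305440582043680)) (.cons (.rf (nat_lit 3570) (nat_lit 493858305440582043680)) .nil)))))) .nil))))))),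
 (.br (nat_lit 4) (nat_lit 1) (.cons (.br (nat_lit 8) (nat_lit 1) (.cons (.ev (nat_lit 282574488338689) (nat_lit 1)) (.cons (.rf (nat_lit 3533) (nat_lit 493858305440582043680)) (.cons (.rf (nat_lit 3553) (nat_lit 493858305440582043680)) (.cons (.rf (nat_lit 3559) (nat_lit 493858305440582043680)) (.cons (.rf (nat_lit 3571) (nat_lit 493858305440582043680)) (.cons (.rf (nat_lit 3571) (nat_lit 492741412732994160672)) (.cons (.br (nat_lit 8) (nat_lit 1) (.cons (.ev (nat_lit 282574488338689) (nat_lit 1)) (.cons (.rf (nat_lit 3533) (nat_lit 493858305440582043680)) (.cons (.rf (nat_lit 3553) (nat_lit 493858305440582043680)) (.cons (.rf (nat_lit 3559) (nat_lit 493858305440582043680)) (.cons (.rf (nat_lit 3571) (nat_lit 493858305440582043680)) (.cons (.rf (nat_lit 3571) (nat_lit 492741412732994160672)) .nil))))))) .nil)))))))) .nil)),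
 (.br (nat_lit 8) (nat_lit 1) (.cons (.rf (nat_lit 84) (nat_lit 13262461993)) (.cons (.rf (nat_lit 84) (nat_lit 12222503970)) (.cons (.br (nat_lit 11) (nat_lit 1) (.cons (.br (nat_lit 11) (nat_lit 1) (.cons (.ev (nat_lit 309489750706911081110962433) (nat_lit 1)) .nil)) (.cons (.br (nat_lit 11) (nat_lit 1) (.cons (.ev (nat_lit 309489750706911081110962433) (nat_lit 1)) .nil)) .nil))) .nil)))),
 (.br (nat_lit 9) (nat_lit 1) (.cons (.rf (nat_lit 58) (nat_lit 8690722)) (.cons (.rf (nat_lit 1343) (nat_lit 423430988865)) (.cons (.rf (nat_lit 3573) (nat_lit 14242959524133701664)) (.cons (.rf (nat_lit 3573) (nat_lit 15395881028740548640)) .nil))))),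
 (.br (nat_lit 9) (nat_lit 1) (.cons (.rf (nat_lit 84) (nat_lit 13262691362)) (.cons (.br (nat_lit 11) (nat_lit 1) (.cons (.ev (nat_lit 20361637766184381788188993126656) (nat_lit 1)) .nil)) .nil))),
 (.br (nat_lit 12) (nat_lit 1) (.cons (.rf (nat_lit 2594) (nat_lit 8961533153)) (.cons (.rf (nat_lit 82) (nat_lit 12092417089)) (.cons (.br (nat_lit 8) (nat_lit 1) (.cons (.rf (nat_lit 58) (nat_lit 8690722)) (.cons (.rf (nat_lit 3575) (nat_lit 493858305440582043680)) (.cons (.br (nat_lit 13) (nat_lit 1) (.cons (.rf (nat_lit 84) (nat_lit 13329800226)) (.cons (.ev (nat_lit 20361638975110273178937229115393) (nat_lit 1)) .nil))) .nil)))) .nil)))),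
 (.br (nat_lit 12) (nat_lit 1) (.cons (.rf (nat_lit 1339) (nat_lit 424438634561)) (.cons (.rf (nat_lit 1343) (nat_lit 457824281665)) (.cons (.rf (nat_lit 3576) (nat_lit 493858305440582043680)) (.cons (.br (nat_lit 12) (nat_lit 1) (.cons (.rf (nat_lit 2594) (nat_lit 9028642017)) (.cons (.rf (nat_lit 82) (nat_lit 14239900737)) (.cons (.rf (nat_lit 3576) (nat_lit 493858305440582043680)) .nil)))) .nil))))),
 (.br (nat_lit 2) (nat_lit 1) (.cons (.kr (nat_lit 1) (nat_lit 18446744073709551616) (nat_lit 0) (nat_lit 1)) (.cons (.rf (nat_lit 29) (nat_lit 8619298)) (.cons (.rf (nat_lit 3574) (nat_lit 14242959524133701664)) (.cons (.rf (nat_lit 3577) (nat_lit 493858305440582043680)) (.cons (.rf (nat_lit 3577) (nat_lit 458117738797769787424)) .nil)))))),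
 (.br (nat_lit 12) (nat_lit 1) (.cons (.ev (nat_lit 79229371440084234797206995201) (nat_lit 1)) .nil)),
 (.br (nat_lit 8) (nat_lit 1) (.cons (.rf (nat_lit 84) (nat_lit 13262464039)) (.cons (.rf (nat_lit 84) (nat_lit 12222440482)) (.cons (.br (nat_lit 11) (nat_lit 1) (.cons (.rf (nat_lit 3579) (nat_lit 493858305440582043680)) (.cons (.br (nat_lit 11) (nat_lit 1) (.cons (.rf (nat_lit 3579) (nat_lit 493858305440582043680)) .nil)) .nil))) .nil)))),
 (.br (nat_lit 7) (nat_lit 1) (.cons (.rf (nat_lit 58) (nat_lit 8690722)) (.cons (.rf (nat_lit 1343) (nat_lit 423433083969)) (.cons (.rf (nat_lit 3580) (nat_lit 493858305440582043680)) (.cons (.rf (nat_lit 3580) (nat_lit 458117738797769787424)) .nil))))),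
 (.br (nat_lit 2) (nat_lit 1) (.cons (.rf (nat_lit 29) (nat_lit 8684770)) (.cons (.kr (nat_lit 1099511628032) (nat_lit 16842752) (nat_lit 1) (nat_lit 0)) (.cons (.rf (nat_lit 3581) (nat_lit 493858305440582043680)) (.cons (.rf (nat_lit 1733) (nat_lit 482213097194521664)) (.cons (.rf (nat_lit 1733) (nat_lit 447310200082400320)) .nil)))))),
 (.br (nat_lit 7) (nat_lit 1) (.cons (.rf (nat_lit 2314) (nat_lit 14964635854832704)) (.cons (.br (nat_lit 9) (nat_lit 1) (.cons (.rf (nat_lit 84) (nat_lit 14238655714)) (.cons (.br (nat_lit 11) (nat_lit 1) (.cons (.ev (nat_lit 79538861172344120329614983168) (nat_lit 1)) (.cons (.br (nat_lit 12) (nat_lit 1) (.cons (.kr (nat_lit 79228162514264619068520660992) (nat_lit 309489732187827938369994752) (nat_lit 6) (nat_lit 0)) .nil)) .nil))) (.cons (.rf (nat_lit 2001) (nat_lit 337112746700178496)) .nil)))) (.cons (.ev (nat_lit 1208925891673322724327424) (nat_lit 1)) (.cons (.br (nat_lit 9) (nat_lit 1) (.cons (.br (nat_lit 11) (nat_lit 1) (.cons (.ev (nat_lit 310698658007442567561543681)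 (nat_lit 1)) (.cons (.rf (nat_lit 84) (nat_lit 8972966977)) .nil))) (.cons (.rf (nat_lit 1586) (nat_lit 421256936725795742784)) (.cons (.rf (nat_lit 58) (nat_lit 13933633)) .nil)))) .nil))))),
 (.br (nat_lit 12) (nat_lit 1) (.cons (.ev (nat_lit 20282410812577490321150914330881) (nat_lit 1)) .nil)),
 (.br (nat_lit 9) (nat_lit 1) (.cons (.rf (nat_lit 84) (nat_lit 14238655559)) (.cons (.br (nat_lit 13) (nat_lit 1) (.cons (.br (nat_lit 12) (nat_lit 1) (.cons (.ev (nat_lit 20282410812577490321150914330881) (nat_lit 1)) .nil)) (.cons (.br (nat_lit 11) (nat_lit 1) (.cons (.ev (nat_lit 20282410812577490321150914330881) (nat_lit 1)) .nil)) .nil))) (.cons (.rf (nat_lit 2305) (nat_lit 13649484031201)) .nil)))),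
 (.br (nat_lit 2) (nat_lit 1) (.cons (.br (nat_lit 11) (nat_lit 1) (.cons (.br (nat_lit 11) (nat_lit 1) (.cons (.rf (nat_lit 3584) (nat_lit 493858305440582043680)) .nil)) (.cons (.br (nat_lit 12) (nat_lit 1) (.cons (.rf (nat_lit 3584) (nat_lit 493858305440582043680)) (.cons (.ev (nat_lit 20282410812577490321150914330881) (nat_lit 1)) .nil))) .nil))) (.cons (.rf (nat_lit 3585) (nat_lit 493858305440582043680)) (.cons (.ev (nat_lit 1208925891673322724327424) (nat_lit 1)) (.cons (.rf (nat_lit 3583) (nat_lit 493858305440582043680)) .nil))))),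
 (.br (nat_lit 13) (nat_lit 1) (.cons (.rf (nat_lit 3583) (nat_lit 493858305440582043680)) (.cons (.rf (nat_lit 3586) (nat_lit 493858305440582043680)) (.cons (.br (nat_lit 2) (nat_lit 1) (.cons (.br (nat_lit 11) (nat_lit 1) (.cons (.ev (nat_lit 79229371440084233697712209921) (nat_lit 1)) .nil)) (.cons (.br (nat_lit 7) (nat_lit 1) (.cons (.ev (nat_lit 79229371440084233697712209921) (nat_lit 1)) .nil)) (.cons (.ev (nat_lit 79229371458530977771421761536) (nat_lit 1)) .nil)))) .nil)))),
 (.br (nat_lit 13) (nat_lit 1) (.cons (.rf (nat_lit 3583) (nat_lit 493858305440582043680)) (.cons (.rf (nat_lit 3586) (nat_lit 493858305440582043680)) (.cons (.rf (nat_lit 3587) (nat_lit 493858305440582043680)) (.cons (.br (nat_lit 13) (nat_lit 1) (.cons (.rf (nat_lit 3583) (nat_lit 493858305440582043680)) (.cons (.kr (nat_lit 1208925819614629174706176) (nat_lit 20282409603651670423947251286016) (nat_lit 10) (nat_lit 0)) (.cons (.rf (nat_lit 3587) (nat_lit 493858305440582043680)) .nil)))) .nil))))),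
 (.br (nat_lit 13) (nat_lit 1) (.cons (.rf (nat_lit 3583) (nat_lit 493858305440582043680)) (.cons (.rf (nat_lit 3586) (nat_lit 493858305440582043680)) (.cons (.rf (nat_lit 3588) (nat_lit 493858305440582043680)) (.cons (.br (nat_lit 13) (nat_lit 1) (.cons (.rf (nat_lit 3583) (nat_lit 493858305440582043680)) (.cons (.ev (nat_lit 20282410812577490321150914330881) (nat_lit 1)) (.cons (.rf (nat_lit 3588) (nat_lit 493858305440582043680)) .nil)))) .nil))))),
 (.br (nat_lit 13) (nat_lit 1) (.cons (.rf (nat_lit 3583) (nat_lit 493858305440582043680)) (.cons (.rf (nat_lit 3586) (nat_lit 493858305440582043680)) (.cons (.rf (nat_lit 3588) (nat_lit 493858305440582043680)) (.cons (.rf (nat_lit 3589) (nat_lit 493858305440582043680)) (.cons (.br (nat_lit 13) (nat_lit 1) (.cons (.rf (nat_lit 3583) (nat_lit 493858305440582043680)) (.cons (.rf (nat_lit 3586) (nat_lit 493858305440582043680)) (.cons (.rf (nat_lit 3588) (nat_lit 493858305440582043680)) (.cons (.rf (nat_lit 3589) (nat_lit 493858305440582043680)) .nil)))))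 .nil)))))),
 (.br (nat_lit 8) (nat_lit 1) (.cons (.kr (nat_lit 1099511628032) (nat_lit 16842752) (nat_lit 1) (nat_lit 0)) (.cons (.rf (nat_lit 3578) (nat_lit 493858305440582043680)) (.cons (.rf (nat_lit 3582) (nat_lit 493858305440582043680)) (.cons (.rf (nat_lit 3590) (nat_lit 493858305440582043680)) (.cons (.rf (nat_lit 3590) (nat_lit 458117738797769787424)) .nil)))))),
 (.br (nat_lit 11) (nat_lit 1) (.cons (.ev (nat_lit 158769441556767050699731108355) (nat_lit 2)) (.cons (.ev (nat_lit 309489750706912180605878273) (nat_lit 1)) .nil))),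
 (.br (nat_lit 12) (nat_lit 1) (.cons (.ev (nat_lit 79228162514336395187598655744) (nat_lit 1)) (.cons (.br (nat_lit 11) (nat_lit 1) (.cons (.ev (nat_lit 79849550422512085313928561155) (nat_lit 2)) (.cons (.ev (nat_lit 79847132571017534193608556545) (nat_lit 2)) .nil))) (.cons (.ev (nat_lit 79229371440084233697712209921) (nat_lit 1)) .nil))))]

theorem c122 : chkAll C T R L122 (nat_lit 3563) = true := by decide +kernel

theorem l122 : (nat_lit 3563) + L122.length = (nat_lit 3594) := by decide +kernel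

/-- part of the certificates -/
def L123 : List Prf := [(.br (nat_lit 7) (nat_lit 1) (.cons (.rf (nat_lit 31) (nat_lit 411108647)) (.cons (.br (nat_lit 12) (nat_lit 1) (.cons (.rf (nat_lit 84) (nat_lit 12092220487)) (.cons (.ev (nat_lit 79229371458530977771421761536) (nat_lit 1)) (.cons (.br (nat_lit 11) (nat_lit 1) (.cons (.br (nat_lit 11) (nat_lit 1) (.cons (.ev (nat_lit 20679481312808378816401129013508) (nat_lit 3)) .nil)) (.cons (.br (nat_lit 9) (nat_lit 1) (.cons (.ev (nat_lit 20679481312808378816401129013508) (nat_lit 3)) .nil)) .nil))) .nil)))) (.cons (.rf (nat_lit 2594) (nat_lit 13322429666)) (.cons (.ev (nat_lit 1208925891673322724327424) (nat_lit 1)) .nil))))),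
 (.br (nat_lit 8) (nat_lit 1) (.cons (.kr (nat_lit 1099511628032) (nat_lit 16842752) (nat_lit 1) (nat_lit 0)) (.cons (.rf (nat_lit 3578) (nat_lit 493858305440582043680)) (.cons (.rf (nat_lit 3582) (nat_lit 493858305440582043680)) (.cons (.rf (nat_lit 3591) (nat_lit 493858305440582043680)) (.cons (.br (nat_lit 2) (nat_lit 1) (.cons (.ev (nat_lit 1208944338417396433879041) (nat_lit 1)) (.cons (.rf (nat_lit 1593) (nat_lit 459605810466)) (.cons (.br (nat_lit 7) (nat_lit 1) (.cons (.rf (nat_lit 1593) (nat_lit 459605805351)) (.cons (.br (nat_lit 9) (nat_lit 1) (.cons (.ev (nat_lit 310698676454187740765880576) (nat_lit 1)) (.cons (.rf (nat_lit 3592) (nat_lit 493858305440582043680)) (.cons (.rf (nat_lit 3592) (nat_lit 458117738797769787424)) .nil)))) (.cons (.rf (nat_lit 3593) (nat_lit 493858305440582043680)) (.cons (.rf (nat_lit 3593) (nat_lit 458117738797769787424)) .nil))))) (.cons (.rf (nat_lit 3594) (nat_lit 493858305440582043680)) (.cons (.rf (nat_lit 3594) (nat_lit 458117738797769787424)) .nil))))))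 .nil)))))),
 (.br (nat_lit 8) (nat_lit 1) (.cons (.kr (nat_lit 1099511628032) (nat_lit 16842752) (nat_lit 1) (nat_lit 0)) (.cons (.rf (nat_lit 3578) (nat_lit 493858305440582043680)) (.cons (.rf (nat_lit 3582) (nat_lit 493858305440582043680)) (.cons (.rf (nat_lit 3591) (nat_lit 493858305440582043680)) (.cons (.rf (nat_lit 3595) (nat_lit 493858305440582043680)) (.cons (.rf (nat_lit 3595) (nat_lit 458117738797769787424)) .nil))))))),
 (.br (nat_lit 8) (nat_lit 1) (.cons (.br (nat_lit 9) (nat_lit 1) (.cons (.ev (nat_lit 4740813226947649732609) (nat_lit 1)) .nil)) .nil)),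
 (.br (nat_lit 8) (nat_lit 1) (.cons (.rf (nat_lit 84) (nat_lit 13262431458)) (.cons (.rf (nat_lit 84) (nat_lit 12222276833)) (.cons (.br (nat_lit 11) (nat_lit 1) (.cons (.rf (nat_lit 3597) (nat_lit 15071359418959904)) (.cons (.br (nat_lit 12) (nat_lit 1) (.cons (.rf (nat_lit 3597) (nat_lit 15071359418959904)) (.cons (.ev (nat_lit 20282409608392483650890606117121) (nat_lit 1)) .nil))) .nil))) .nil)))),
 (.br (nat_lit 10) (nat_lit 1) (.cons (.ev (nat_lit 1223148403974696779907072) (nat_lit 2)) .nil)),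
 (.br (nat_lit 2) (nat_lit 1) (.cons (.rf (nat_lit 58) (nat_lit 8690753)) (.cons (.rf (nat_lit 3598) (nat_lit 493858305440514999360)) (.cons (.kr (nat_lit 1099511628032) (nat_lit 16842752) (nat_lit 1) (nat_lit 0)) (.cons (.br (nat_lit 8) (nat_lit 1) (.cons (.br (nat_lit 11) (nat_lit 1) (.cons (.rf (nat_lit 3599) (nat_lit 15433072045018155040)) (.cons (.rf (nat_lit 3599) (nat_lit 14316179337430271040)) .nil))) (.cons (.rf (nat_lit 84) (nat_lit 14369727714)) (.cons (.rf (nat_lit 84) (nat_lit 13329573089)) .nil)))) .nil))))),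
 (.br (nat_lit 1) (nat_lit 1) (.cons (.rf (nat_lit 29) (nat_lit 8690753)) (.cons (.rf (nat_lit 58) (nat_lit 8690722)) (.cons (.br (nat_lit 2) (nat_lit 1) (.cons (.rf (nat_lit 58) (nat_lit 8690753)) (.cons (.kr (nat_lit 1099511628032) (nat_lit 16842752) (nat_lit 1) (nat_lit 0)) (.cons (.rf (nat_lit 3598) (nat_lit 493858305440582043680)) (.cons (.rf (nat_lit 3598) (nat_lit 458117738797769787424)) .nil))))) (.cons (.rf (nat_lit 3600) (nat_lit 493858305440582043680)) (.cons (.rf (nat_lit 3600) (nat_lit 458117738797769787424)) .nil)))))),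
 (.br (nat_lit 2) (nat_lit 1) (.cons (.br (nat_lit 11) (nat_lit 1) (.cons (.br (nat_lit 12) (nat_lit 1) (.cons (.ev (nat_lit 20678862323936451913308770338564) (nat_lit 3)) .nil)) (.cons (.rf (nat_lit 84) (nat_lit 8972739623)) .nil))) (.cons (.br (nat_lit 12) (nat_lit 1) (.cons (.br (nat_lit 11) (nat_lit 1) (.cons (.ev (nat_lit 309489732260168106896326656) (nat_lit 1)) .nil)) (.cons (.ev (nat_lit 20361637766184381787089498341376) (nat_lit 1)) .nil))) (.cons (.ev (nat_lit 20282409608374036906816896565504) (nat_lit 1)) .nil)))),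
 (.br (nat_lit 13) (nat_lit 1) (.cons (.kr (nat_lit 1099511628032) (nat_lit 16842752) (nat_lit 1) (nat_lit 0)) (.cons (.rf (nat_lit 3602) (nat_lit 493858305440582043680)) (.cons (.br (nat_lit 2) (nat_lit 1) (.cons (.ev (nat_lit 20282410817299928860515085844481) (nat_lit 1)) (.cons (.br (nat_lit 9) (nat_lit 1) (.cons (.ev (nat_lit 79231803477341994716311388161) (nat_lit 2)) .nil)) (.cons (.ev (nat_lit 20361638975110273177837734199553) (nat_lit 1)) .nil)))) .nil)))),
 (.br (nat_lit 13) (nat_lit 1) (.cons (.kr (nat_lit 1099511628032) (nat_lit 16842752) (nat_lit 1) (nat_lit 0)) (.cons (.rf (nat_lit 3602) (nat_lit 493858305440582043680)) (.cons (.rf (nat_lit 3603) (nat_lit 493858305440582043680)) (.cons (.br (nat_lit 13) (nat_lit 1) (.cons (.kr (nat_lit 1099511628032) (nat_lit 16842752) (nat_lit 1) (nat_lit 0)) (.cons (.rf (nat_lit 3602) (nat_lit 493858305440582043680)) (.cons (.rf (nat_lit 3603) (nat_lit 493858305440582043680)) .nil)))) .nil))))),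
 (.br (nat_lit 13) (nat_lit 1) (.cons (.rf (nat_lit 3604) (nat_lit 493858305440582043680)) (.cons (.rf (nat_lit 3604) (nat_lit 493858305440514999360)) (.cons (.br (nat_lit 13) (nat_lit 1) (.cons (.rf (nat_lit 3604) (nat_lit 493858305440582043680)) (.cons (.rf (nat_lit 3604) (nat_lit 493858305440514999360)) (.cons (.ev (nat_lit 20282409608392483651990134456321) (nat_lit 1)) .nil)))) (.cons (.br (nat_lit 13) (nat_lit 1) (.cons (.rf (nat_lit 3604) (nat_lit 493858305440582043680)) (.cons (.rf (nat_lit 3604) (nat_lit 493858305440514999360)) (.cons (.ev (nat_lit 20282409608392483651990134456321) (nat_lit 1)) .nil)))) .nil))))),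
 (.br (nat_lit 13) (nat_lit 1) (.cons (.rf (nat_lit 3604) (nat_lit 493858305440582043680)) (.cons (.rf (nat_lit 3604) (nat_lit 493858305440514999360)) (.cons (.rf (nat_lit 3605) (nat_lit 493858305440582043680)) (.cons (.br (nat_lit 13) (nat_lit 1) (.cons (.rf (nat_lit 3604) (nat_lit 493858305440582043680)) (.cons (.rf (nat_lit 3604) (nat_lit 493858305440514999360)) (.cons (.ev (nat_lit 20282409608392483651990134456321) (nat_lit 1)) .nil)))) .nil))))),
 (.br (nat_lit 13) (nat_lit 1) (.cons (.rf (nat_lit 3604) (nat_lit 493858305440582043680)) (.cons (.rf (nat_lit 3604) (nat_lit 493858305440514999360)) (.cons (.rf (nat_lit 3605) (nat_lit 493858305440582043680)) (.cons (.rf (nat_lit 3606) (nat_lit 493858305440582043680)) (.cons (.br (nat_lit 13) (nat_lit 1) (.cons (.rf (nat_lit 3604) (nat_lit 493858305440582043680)) (.cons (.rf (nat_lit 3604) (nat_lit 493858305440514999360)) (.cons (.rf (nat_lit 3605) (nat_lit 493858305440582043680)) (.cons (.rf (nat_lit 3606) (nat_lit 493858305440582043680)) .nil)))))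 .nil)))))),
 (.br (nat_lit 8) (nat_lit 1) (.cons (.rf (nat_lit 3596) (nat_lit 493858305440582043680)) (.cons (.rf (nat_lit 3596) (nat_lit 493858305440514999360)) (.cons (.rf (nat_lit 3601) (nat_lit 493858305440582043680)) (.cons (.rf (nat_lit 3607) (nat_lit 493858305440582043680)) (.cons (.rf (nat_lit 3607) (nat_lit 458117738797769787424)) .nil)))))),
 (.br (nat_lit 9) (nat_lit 1) (.cons (.br (nat_lit 11) (nat_lit 1) (.cons (.rf (nat_lit 84) (nat_lit 9004196903)) (.cons (.br (nat_lit 12) (nat_lit 1) (.cons (.ev (nat_lit 20680100282791128016192136347908) (nat_lit 3)) .nil)) .nil))) (.cons (.rf (nat_lit 84) (nat_lit 12092417089)) (.cons (.br (nat_lit 13) (nat_lit 1) (.cons (.ev (nat_lit 20282413244614748082169513509121) (nat_lit 2)) (.cons (.ev (nat_lit 20282413244614748083269075665409) (nat_lit 2)) .nil))) .nil)))),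
 (.br (nat_lit 2) (nat_lit 1) (.cons (.rf (nat_lit 1593) (nat_lit 459807130914)) (.cons (.kr (nat_lit 1099511628032) (nat_lit 16842752) (nat_lit 1) (nat_lit 0)) (.cons (.rf (nat_lit 3609) (nat_lit 493858305440582043680)) (.cons (.rf (nat_lit 3609) (nat_lit 458117738797769787424)) .nil))))),
 (.br (nat_lit 11) (nat_lit 1) (.cons (.ev (nat_lit 20363187613844603608439539959040) (nat_lit 3)) .nil)),
 (.br (nat_lit 2) (nat_lit 1) (.cons (.rf (nat_lit 31) (nat_lit 411082018)) (.cons (.rf (nat_lit 3610) (nat_lit 493858305440514999360)) (.cons (.kr (nat_lit 1099511628032) (nat_lit 16842752) (nat_lit 1) (nat_lit 0)) (.cons (.br (nat_lit 9) (nat_lit 1) (.cons (.br (nat_lit 11) (nat_lit 1) (.cons (.rf (nat_lit 3611) (nat_lit 493858305440582043680)) (.cons (.rf (nat_lit 3611) (nat_lit 458117738797702743104)) .nil))) (.cons (.rf (nat_lit 84) (nat_lit 14239900706)) (.cons (.rf (nat_lit 84) (nat_lit 13167207489)) .nil)))) .nil))))),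
 (.br (nat_lit 8) (nat_lit 1) (.cons (.rf (nat_lit 3596) (nat_lit 493858305440582043680)) (.cons (.rf (nat_lit 3596) (nat_lit 493858305440514999360)) (.cons (.rf (nat_lit 3601) (nat_lit 493858305440582043680)) (.cons (.rf (nat_lit 3608) (nat_lit 493858305440582043680)) (.cons (.br (nat_lit 1) (nat_lit 1) (.cons (.rf (nat_lit 1593) (nat_lit 459807138881)) (.cons (.rf (nat_lit 1593) (nat_lit 459807131937)) (.cons (.rf (nat_lit 3610) (nat_lit 493858305440582043680)) (.cons (.rf (nat_lit 3612) (nat_lit 493858305440582043680)) (.cons (.rf (nat_lit 3612) (nat_lit 458117738797769787424)) .nil)))))) .nil)))))),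
 (.br (nat_lit 8) (nat_lit 1) (.cons (.rf (nat_lit 3596) (nat_lit 493858305440582043680)) (.cons (.rf (nat_lit 3596) (nat_lit 493858305440514999360)) (.cons (.rf (nat_lit 3601) (nat_lit 493858305440582043680)) (.cons (.rf (nat_lit 3608) (nat_lit 493858305440582043680)) (.cons (.rf (nat_lit 3613) (nat_lit 493858305440582043680)) (.cons (.rf (nat_lit 3613) (nat_lit 458117738797769787424)) .nil))))))),
 (.br (nat_lit 2) (nat_lit 1) (.cons (.ev (nat_lit 4740885567111897874688) (nat_lit 1)) (.cons (.kr (nat_lit 1099511628032) (nat_lit 16842752) (nat_lit 1) (nat_lit 0)) (.cons (.br (nat_lit 13) (nat_lit 1) (.cons (.br (nat_lit 12) (nat_lit 1) (.cons (.ev (nat_lit 20363804184865037086294440084738) (nat_lit 3)) .nil)) (.cons (.br (nat_lit 11) (nat_lit 1) (.cons (.ev (nat_lit 20363804184865037086294440084738) (nat_lit 3)) .nil)) .nil))) .nil)))),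
 (.br (nat_lit 7) (nat_lit 1) (.cons (.rf (nat_lit 2506) (nat_lit 482247175612537920)) (.cons (.rf (nat_lit 2506) (nat_lit 482247176684182560)) (.cons (.br (nat_lit 1) (nat_lit 1) (.cons (.rf (nat_lit 31) (nat_lit 377726017)) (.cons (.rf (nat_lit 2594) (nat_lit 12223514849)) (.cons (.rf (nat_lit 3615) (nat_lit 493858305440582043680)) (.cons (.br (nat_lit 2) (nat_lit 1) (.cons (.rf (nat_lit 84) (nat_lit 14238915649)) (.cons (.rf (nat_lit 3615) (nat_lit 493858305440514999360)) (.cons (.kr (nat_lit 1099511628032) (nat_lit 16842752) (nat_lit 1) (nat_lit 0)) .nil)))) .nil))))) (.cons (.ev (nat_lit 4740885566012369403904) (nat_lit 1)) (.cons (.br (nat_lit 12) (nat_lit 1) (.cons (.ev (nat_lit 1208925891672223229411584) (nat_lit 1)) (.cons (.ev (nat_lit 1208925891673322724327424) (nat_lit 1)) (.cons (.br (nat_lit 12) (nat_lit 1) (.cons (.ev (nat_lit 1208925891672223229411584) (nat_lit 1)) (.cons (.ev (nat_lit 1208925891673322724327424) (nat_lit 1)) (.cons (.zr (nat_lit 55556405011832373248) (nat_lit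 158457533954348572390767722497) (nat_lit 5) (nat_lit 0)) .nil)))) (.cons (.br (nat_lit 12) (nat_lit 1) (.cons (.ev (nat_lit 1208925891672223229411584) (nat_lit 1)) (.cons (.ev (nat_lit 1208925891673322724327424) (nat_lit 1)) (.cons (.zr (nat_lit 55556405011832373248) (nat_lit 158457533954348572390767722497) (nat_lit 5) (nat_lit 0)) .nil)))) .nil))))) .nil)))))),
 (.br (nat_lit 8) (nat_lit 1) (.cons (.rf (nat_lit 3596) (nat_lit 493858305440582043680)) (.cons (.rf (nat_lit 3596) (nat_lit 493858305440514999360)) (.cons (.rf (nat_lit 3614) (nat_lit 493858305440582043680)) (.cons (.rf (nat_lit 3616) (nat_lit 493858305440582043680)) (.cons (.rf (nat_lit 3616) (nat_lit 458117738797769787424)) .nil)))))),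
 (.br (nat_lit 7) (nat_lit 1) (.cons (.br (nat_lit 11) (nat_lit 1) (.cons (.rf (nat_lit 84) (nat_lit 9004194857)) (.cons (.br (nat_lit 12) (nat_lit 1) (.cons (.kr (nat_lit 79537652246452165531914010880) (nat_lit 20282409603670189225623588700160) (nat_lit 1) (nat_lit 0)) .nil)) .nil))) (.cons (.rf (nat_lit 84) (nat_lit 12092480577)) (.cons (.ev (nat_lit 1208925891673322724327424) (nat_lit 1)) .nil)))),
 (.br (nat_lit 2) (nat_lit 1) (.cons (.ev (nat_lit 1223148260139884186042626) (nat_lit 2)) (.cons (.kr (nat_lit 1099511628032) (nat_lit 16842752) (nat_lit 1) (nat_lit 0)) (.cons (.rf (nat_lit 3618) (nat_lit 493858305440582043680)) (.cons (.rf (nat_lit 3618) (nat_lit 458117738797769787424)) .nil))))),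
 (.br (nat_lit 2) (nat_lit 1) (.cons (.rf (nat_lit 31) (nat_lit 411084002)) (.cons (.rf (nat_lit 3618) (nat_lit 493858305440514999360)) (.cons (.kr (nat_lit 1099511628032) (nat_lit 16842752) (nat_lit 1) (nat_lit 0)) (.cons (.br (nat_lit 7) (nat_lit 1) (.cons (.ev (nat_lit 4740885567111897874688) (nat_lit 1)) (.cons (.ev (nat_lit 1208925891673322724327424) (nat_lit 1)) (.cons (.ev (nat_lit 1208925891672223229411584) (nat_lit 1)) .nil)))) .nil))))),
 (.br (nat_lit 8) (nat_lit 1) (.cons (.rf (nat_lit 3596) (nat_lit 493858305440582043680)) (.cons (.rf (nat_lit 3596) (nat_lit 493858305440514999360)) (.cons (.rf (nat_lit 3614) (nat_lit 493858305440582043680)) (.cons (.rf (nat_lit 3617) (nat_lit 493858305440582043680)) (.cons (.br (nat_lit 1) (nat_lit 1) (.cons (.rf (nat_lit 1593) (nat_lit 459874245697)) (.cons (.rf (nat_lit 1593) (nat_lit 459874240737)) (.cons (.rf (nat_lit 3619) (nat_lit 493858305440582043680)) (.cons (.rf (nat_lit 3620) (nat_lit 493858305440582043680)) (.cons (.rf (nat_lit 3620)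 (nat_lit 458117738797769787424)) .nil)))))) .nil)))))),
 (.br (nat_lit 8) (nat_lit 1) (.cons (.rf (nat_lit 3596) (nat_lit 493858305440582043680)) (.cons (.rf (nat_lit 3596) (nat_lit 493858305440514999360)) (.cons (.rf (nat_lit 3614) (nat_lit 493858305440582043680)) (.cons (.rf (nat_lit 3617) (nat_lit 493858305440582043680)) (.cons (.rf (nat_lit 3621) (nat_lit 493858305440582043680)) (.cons (.rf (nat_lit 3621) (nat_lit 458117738797769787424)) .nil))))))),
 (.br (nat_lit 9) (nat_lit 1) (.cons (.ev (nat_lit 1213666632841572529537281) (nat_lit 1)) (.cons (.br (nat_lit 12) (nat_lit 1) (.cons (.kr (nat_lit 79537652246452165531914010880) (nat_lit 20282409603670189225623588700160) (nat_lit 1) (nat_lit 0)) .nil)) .nil))),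
 (.br (nat_lit 12) (nat_lit 1) (.cons (.ev (nat_lit 1208925891673322724327424) (nat_lit 1)) (.cons (.zr (nat_lit 237684487543009185571335569408) (nat_lit 1208962713385351098925057) (nat_lit 5) (nat_lit 10)) (.cons (.ev (nat_lit 20282410812577490321150914330881) (nat_lit 1)) .nil))))]

theorem c123 : chkAll C T R L123 (nat_lit 3594) = true := by decide +kernel

theorem l123 : (nat_lit 3594) + L123.length = (nat_lit 3625) := by decide +kernel

/-- part of the certificates -/
def L124 : List Prf := [(.br (nat_lit 13) (nat_lit 1) (.cons (.br (nat_lit 7) (nat_lit 1) (.cons (.br (nat_lit 12) (nat_lit 1) (.cons (.zr (nat_lit 55556405011832373248) (nat_lit 158457533954348572390767722497) (nat_lit 5) (nat_lit 0)) .nil)) (.cons (.ev (nat_lit 1208925891673322724327424) (nat_lit 1)) (.cons (.rf (nat_lit 3624) (nat_lit 493858305440582043680)) .nil)))) (.cons (.rf (nat_lit 3624) (nat_lit 493858305440582043680)) (.cons (.br (nat_lit 13) (nat_lit 1) (.cons (.ev (nat_lit 1213666632841572529537281) (nat_lit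 1)) (.cons (.rf (nat_lit 3624) (nat_lit 493858305440582043680)) (.cons (.br (nat_lit 2) (nat_lit 1) (.cons (.ev (nat_lit 79229371440084233697712209921) (nat_lit 1)) .nil)) .nil)))) (.cons (.br (nat_lit 7) (nat_lit 1) (.cons (.ev (nat_lit 79229371440084233697712209921) (nat_lit 1)) (.cons (.zr (nat_lit 55556405011832373248) (nat_lit 158457533954348572390767722497) (nat_lit 5) (nat_lit 0)) (.cons (.ev (nat_lit 20282410812577490321150914330881) (nat_lit 1)) .nil)))) .nil))))),
 (.br (nat_lit 11) (nat_lit 1) (.cons (.kr (nat_lit 1099511628032) (nat_lit 16842752) (nat_lit 1) (nat_lit 0)) (.cons (.br (nat_lit 2) (nat_lit 1) (.cons (.ev (nat_lit 310698676454186641271095296) (nat_lit 1)) (.cons (.rf (nat_lit 3623) (nat_lit 493858305440582043680)) (.cons (.rf (nat_lit 3623) (nat_lit 458117738797769787424)) .nil)))) (.cons (.ev (nat_lit 1213666632842672057876481) (nat_lit 1)) (.cons (.rf (nat_lit 3625) (nat_lit 493858305440582043680)) (.cons (.rf (nat_lit 3625) (nat_lit 458117738797769787424)) .nil)))))),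
 (.br (nat_lit 2) (nat_lit 1) (.cons (.ev (nat_lit 79230585125163822642469470721) (nat_lit 2)) (.cons (.br (nat_lit 12) (nat_lit 1) (.cons (.ev (nat_lit 79538856468352322840129765633) (nat_lit 1)) .nil)) .nil))),
 (.br (nat_lit 9) (nat_lit 1) (.cons (.rf (nat_lit 3627) (nat_lit 493858305440582043680)) (.cons (.rf (nat_lit 3627) (nat_lit 493858305440514999360)) (.cons (.ev (nat_lit 79538856468352323939658104833) (nat_lit 1)) (.cons (.zr (nat_lit 928469196779656605813702656) (nat_lit 1208962714229776029057025) (nat_lit 5) (nat_lit 10)) .nil))))),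
 (.br (nat_lit 11) (nat_lit 1) (.cons (.rf (nat_lit 3626) (nat_lit 493858305440582043680)) (.cons (.rf (nat_lit 3626) (nat_lit 493858305440514999360)) (.cons (.ev (nat_lit 1213666632842672057876481) (nat_lit 1)) (.cons (.rf (nat_lit 3628) (nat_lit 493858305440582043680)) (.cons (.rf (nat_lit 3628) (nat_lit 458117738797769787424)) .nil)))))),
 (.br (nat_lit 1) (nat_lit 1) (.cons (.ev (nat_lit 79537652264898909609918529536) (nat_lit 1)) .nil)),
 (.br (nat_lit 2) (nat_lit 1) (.cons (.ev (nat_lit 79538856468352322840129765633) (nat_lit 1)) .nil)),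
 (.br (nat_lit 7) (nat_lit 1) (.cons (.rf (nat_lit 3631) (nat_lit 493858305440582043680)) (.cons (.rf (nat_lit 3631) (nat_lit 493858305440514999360)) (.cons (.zr (nat_lit 237684487543009185571335569408) (nat_lit 1208962713385351098925057) (nat_lit 5) (nat_lit 10)) .nil)))),
 (.br (nat_lit 11) (nat_lit 1) (.cons (.rf (nat_lit 3626) (nat_lit 493858305440582043680)) (.cons (.rf (nat_lit 3626) (nat_lit 493858305440514999360)) (.cons (.rf (nat_lit 3629) (nat_lit 493858305440582043680)) (.cons (.ev (nat_lit 1213666632842672057876481) (nat_lit 1)) (.cons (.br (nat_lit 9) (nat_lit 1) (.cons (.kr (nat_lit 309485009821345068724781312) (nat_lit 18446744073726328832) (nat_lit 1) (nat_lit 0)) (.cons (.kr (nat_lit 309485009821345068724846592) (nat_lit 18446745173221179392) (nat_lit 2) (nat_lit 0)) (.cons (.br (nat_lit 1) (nat_lit 1) (.cons (.kr (nat_lit 309489732187827938370060544) (nat_lit 18518801676337414144) (nat_lit 1) (nat_lit 0)) (.cons (.rf (nat_lit 3630) (nat_lit 15433072045018188865)) (.cons (.rf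 (nat_lit 3630) (nat_lit 14316179337430305857)) .nil)))) (.cons (.rf (nat_lit 3632) (nat_lit 493858305440582043680)) (.cons (.rf (nat_lit 3632) (nat_lit 458117738797769787424)) .nil)))))) .nil)))))),
 (.br (nat_lit 8) (nat_lit 1) (.cons (.rf (nat_lit 3596) (nat_lit 493858305440582043680)) (.cons (.rf (nat_lit 3596) (nat_lit 493858305440514999360)) (.cons (.rf (nat_lit 3614) (nat_lit 493858305440582043680)) (.cons (.rf (nat_lit 3622) (nat_lit 493858305440582043680)) (.cons (.br (nat_lit 11) (nat_lit 1) (.cons (.rf (nat_lit 3626) (nat_lit 493858305440582043680)) (.cons (.rf (nat_lit 3626) (nat_lit 493858305440514999360)) (.cons (.rf (nat_lit 3629) (nat_lit 493858305440582043680)) (.cons (.ev (nat_lit 1213666632842672057876481) (nat_lit 1)) (.cons (.rf (nat_lit 3633) (nat_lit 493858305440582043680)) (.cons (.rf (nat_lit 3633) (nat_lit 458117738797769787424)) .nil))))))) .nil)))))),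
 (.br (nat_lit 8) (nat_lit 1) (.cons (.rf (nat_lit 3596) (nat_lit 493858305440582043680)) (.cons (.rf (nat_lit 3596) (nat_lit 493858305440514999360)) (.cons (.rf (nat_lit 3614) (nat_lit 493858305440582043680)) (.cons (.rf (nat_lit 3622) (nat_lit 493858305440582043680)) (.cons (.rf (nat_lit 3634) (nat_lit 493858305440582043680)) (.cons (.rf (nat_lit 3634) (nat_lit 458117738797769787424)) .nil))))))),
 (.br (nat_lit 8) (nat_lit 1) (.cons (.rf (nat_lit 3596) (nat_lit 493858305440582043680)) (.cons (.rf (nat_lit 3596) (nat_lit 493858305440514999360)) (.cons (.rf (nat_lit 3614) (nat_lit 493858305440582043680)) (.cons (.rf (nat_lit 3622) (nat_lit 493858305440582043680)) (.cons (.rf (nat_lit 3635) (nat_lit 493858305440582043680)) (.cons (.br (nat_lit 8) (nat_lit 1) (.cons (.rf (nat_lit 3596) (nat_lit 493858305440582043680)) (.cons (.rf (nat_lit 3596) (nat_lit 493858305440514999360)) (.cons (.rf (nat_lit 3614) (nat_lit 493858305440582043680)) (.cons (.rf (nat_lit 3622) (nat_lit 493858305440582043680))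 (.cons (.rf (nat_lit 3635) (nat_lit 493858305440582043680)) .nil)))))) .nil))))))),
 (.br (nat_lit 9) (nat_lit 1) (.cons (.ev (nat_lit 310698676454186641271095296) (nat_lit 1)) (.cons (.br (nat_lit 12) (nat_lit 1) (.cons (.kr (nat_lit 20282719088661563826618603929856) (nat_lit 79228167255077564536932335616) (nat_lit 1) (nat_lit 0)) .nil)) .nil))),
 (.br (nat_lit 11) (nat_lit 1) (.cons (.rf (nat_lit 31) (nat_lit 377789505)) (.cons (.br (nat_lit 8) (nat_lit 1) (.cons (.ev (nat_lit 4740813509522138071296) (nat_lit 1)) (.cons (.rf (nat_lit 3637) (nat_lit 493858305440582043680)) (.cons (.rf (nat_lit 3637) (nat_lit 458117738797769787424)) .nil)))) .nil))),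
 (.br (nat_lit 11) (nat_lit 1) (.cons (.rf (nat_lit 31) (nat_lit 377789505)) (.cons (.rf (nat_lit 3638) (nat_lit 493858305440582043680)) (.cons (.rf (nat_lit 3638) (nat_lit 458117738797769787424)) .nil)))),
 (.br (nat_lit 8) (nat_lit 1) (.cons (.rf (nat_lit 29) (nat_lit 8690753)) (.cons (.rf (nat_lit 3639) (nat_lit 493858305440582043680)) (.cons (.rf (nat_lit 1593) (nat_lit 459807138881)) .nil)))),
 (.br (nat_lit 8) (nat_lit 1) (.cons (.rf (nat_lit 29) (nat_lit 8690753)) (.cons (.rf (nat_lit 3639) (nat_lit 493858305440582043680)) (.cons (.rf (nat_lit 3640) (nat_lit 493858305440582043680)) (.cons (.rf (nat_lit 3640) (nat_lit 458117738797769787424)) .nil))))),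
 (.br (nat_lit 12) (nat_lit 1) (.cons (.ev (nat_lit 79228171959214323838463508481) (nat_lit 2)) (.cons (.ev (nat_lit 79537647524085682666580541441) (nat_lit 1)) .nil))),
 (.br (nat_lit 11) (nat_lit 1) (.cons (.rf (nat_lit 31) (nat_lit 377726017)) (.cons (.br (nat_lit 7) (nat_lit 1) (.cons (.ev (nat_lit 4740813509522138071296) (nat_lit 1)) (.cons (.rf (nat_lit 3642) (nat_lit 493858305440582043680)) (.cons (.rf (nat_lit 3642) (nat_lit 458117738797769787424)) .nil)))) .nil))),
 (.br (nat_lit 11) (nat_lit 1) (.cons (.rf (nat_lit 31) (nat_lit 377726017)) (.cons (.rf (nat_lit 3643) (nat_lit 493858305440582043680)) (.cons (.rf (nat_lit 3643) (nat_lit 458117738797769787424)) .nil)))),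
 (.br (nat_lit 8) (nat_lit 1) (.cons (.rf (nat_lit 29) (nat_lit 8690753)) (.cons (.rf (nat_lit 3644) (nat_lit 493858305440582043680)) (.cons (.ev (nat_lit 1208944266358707179290881) (nat_lit 1)) .nil)))),
 (.br (nat_lit 8) (nat_lit 1) (.cons (.rf (nat_lit 29) (nat_lit 8690753)) (.cons (.rf (nat_lit 3644) (nat_lit 493858305440582043680)) (.cons (.rf (nat_lit 3645) (nat_lit 493858305440582043680)) (.cons (.rf (nat_lit 3645) (nat_lit 458117738797769787424)) .nil))))),
 (.br (nat_lit 11) (nat_lit 1) (.cons (.ev (nat_lit 310698676454186641271095296) (nat_lit 1)) (.cons (.ev (nat_lit 310698658079500165877596161) (nat_lit 1)) .nil))),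
 (.br (nat_lit 9) (nat_lit 1) (.cons (.br (nat_lit 12) (nat_lit 1) (.cons (.ev (nat_lit 79849559867245051044629053955) (nat_lit 2)) (.cons (.zr (nat_lit 79228162532711929390785691648) (nat_lit 2436741105160749815169026) (nat_lit 10) (nat_lit 6)) .nil))) (.cons (.ev (nat_lit 79229371458603036469266284800) (nat_lit 1)) (.cons (.br (nat_lit 12) (nat_lit 1) (.cons (.zr (nat_lit 237684501709892461389601243136) (nat_lit 1208962713385368262017025) (nat_lit 5) (nat_lit 10)) (.cons (.rf (nat_lit 31) (nat_lit 449092673)) .nil))) .nil)))),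
 (.br (nat_lit 8) (nat_lit 1) (.cons (.rf (nat_lit 3641) (nat_lit 493858305440582043680)) (.cons (.rf (nat_lit 3646) (nat_lit 493858305440582043680)) (.cons (.br (nat_lit 7) (nat_lit 1) (.cons (.rf (nat_lit 246) (nat_lit 457825360961)) (.cons (.br (nat_lit 9) (nat_lit 1) (.cons (.kr (nat_lit 4722366482869661990913) (nat_lit 309485009821345073019748608) (nat_lit 0) (nat_lit 2)) (.cons (.rf (nat_lit 3647) (nat_lit 493858305440582043680)) (.cons (.rf (nat_lit 3647) (nat_lit 458117738797769787424)) .nil)))) (.cons (.rf (nat_lit 3648) (nat_lit 493858305440582043680)) (.cons (.rf (nat_lit 3648) (nat_lit 458117738797769787424)) .nil))))) .nil)))),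
 (.br (nat_lit 8) (nat_lit 1) (.cons (.rf (nat_lit 3641) (nat_lit 493858305440582043680)) (.cons (.rf (nat_lit 3646) (nat_lit 493858305440582043680)) (.cons (.rf (nat_lit 3649) (nat_lit 493858305440582043680)) (.cons (.rf (nat_lit 3649) (nat_lit 458117738797769787424)) .nil))))),
 (.br (nat_lit 8) (nat_lit 1) (.cons (.rf (nat_lit 3641) (nat_lit 493858305440582043680)) (.cons (.rf (nat_lit 3646) (nat_lit 493858305440582043680)) (.cons (.rf (nat_lit 3650) (nat_lit 493858305440582043680)) (.cons (.br (nat_lit 8) (nat_lit 1) (.cons (.rf (nat_lit 1593) (nat_lit 459807138881)) (.cons (.ev (nat_lit 1208944266358707179290881) (nat_lit 1)) (.cons (.rf (nat_lit 3650) (nat_lit 493858305440582043680)) .nil)))) .nil))))),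
 (.br (nat_lit 9) (nat_lit 1) (.cons (.ev (nat_lit 310698676526244239587147776) (nat_lit 1)) (.cons (.br (nat_lit 12) (nat_lit 1) (.cons (.kr (nat_lit 20282719088661491769015976132864) (nat_lit 79228167255149622130936643584) (nat_lit 1) (nat_lit 0)) .nil)) .nil))),
 (.br (nat_lit 11) (nat_lit 1) (.cons (.rf (nat_lit 31) (nat_lit 377784545)) (.cons (.br (nat_lit 8) (nat_lit 1) (.cons (.ev (nat_lit 4740813509522138071296) (nat_lit 1)) (.cons (.rf (nat_lit 3652) (nat_lit 493858305440582043680)) (.cons (.rf (nat_lit 3652) (nat_lit 458117738797769787424)) .nil)))) .nil))),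
 (.br (nat_lit 11) (nat_lit 1) (.cons (.rf (nat_lit 31) (nat_lit 377784545)) (.cons (.rf (nat_lit 3653) (nat_lit 493858305440582043680)) (.cons (.rf (nat_lit 3653) (nat_lit 458117738797769787424)) .nil)))),
 (.br (nat_lit 8) (nat_lit 1) (.cons (.rf (nat_lit 29) (nat_lit 8685793)) (.cons (.rf (nat_lit 3654) (nat_lit 493858305440582043680)) (.cons (.rf (nat_lit 1593) (nat_lit 459639366881)) .nil)))),
 (.br (nat_lit 8) (nat_lit 1) (.cons (.rf (nat_lit 29) (nat_lit 8685793)) (.cons (.rf (nat_lit 3654) (nat_lit 493858305440582043680)) (.cons (.rf (nat_lit 3655) (nat_lit 493858305440582043680)) (.cons (.rf (nat_lit 3655) (nat_lit 458117738797769787424)) .nil))))),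
 (.br (nat_lit 12) (nat_lit 1) (.cons (.ev (nat_lit 79228171958998151060628111361) (nat_lit 2)) (.cons (.ev (nat_lit 79537647524157740256306659329) (nat_lit 1)) .nil))),
 (.br (nat_lit 11) (nat_lit 1) (.cons (.rf (nat_lit 31) (nat_lit 377562337)) (.cons (.br (nat_lit 2) (nat_lit 1) (.cons (.ev (nat_lit 4740813509522138071296) (nat_lit 1)) (.cons (.rf (nat_lit 3657) (nat_lit 493858305440582043680)) (.cons (.rf (nat_lit 3657) (nat_lit 458117738797769787424)) .nil)))) .nil))),
 (.br (nat_lit 11) (nat_lit 1) (.cons (.rf (nat_lit 31) (nat_lit 377562337)) (.cons (.rf (nat_lit 3658) (nat_lit 493858305440582043680)) (.cons (.rf (nat_lit 3658) (nat_lit 458117738797769787424)) .nil)))),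
 (.br (nat_lit 8) (nat_lit 1) (.cons (.rf (nat_lit 29) (nat_lit 8685793)) (.cons (.rf (nat_lit 3659) (nat_lit 493858305440582043680)) (.cons (.ev (nat_lit 1208944338416296938963201) (nat_lit 1)) .nil)))),
 (.br (nat_lit 8) (nat_lit 1) (.cons (.rf (nat_lit 29) (nat_lit 8685793)) (.cons (.rf (nat_lit 3659) (nat_lit 493858305440582043680)) (.cons (.rf (nat_lit 3660) (nat_lit 493858305440582043680)) (.cons (.rf (nat_lit 3660) (nat_lit 458117738797769787424)) .nil))))),
 (.br (nat_lit 9) (nat_lit 1) (.cons (.br (nat_lit 12) (nat_lit 1) (.cons (.ev (nat_lit 79849559867172993463425761795) (nat_lit 2)) (.cons (.zr (nat_lit 237684501710108634171681275904) (nat_lit 1208962713385355393892353) (nat_lit 5) (nat_lit 10)) .nil))) (.cons (.ev (nat_lit 79229371458603036469266284800) (nat_lit 1)) (.cons (.br (nat_lit 12) (nat_lit 1) (.cons (.zr (nat_lit 237684501710108634171681275904) (nat_lit 1208962713385355393892353) (nat_lit 5) (nat_lit 10)) (.cons (.rf (nat_lit 31) (nat_lit 449087713)) .nil))) .nil))))]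

theorem c124 : chkAll C T R L124 (nat_lit 3625) = true := by decide +kernel

theorem l124 : (nat_lit 3625) + L124.length = (nat_lit 3663) := by decide +kernel

/-- part of the certificates -/
def L125 : List Prf := [(.br (nat_lit 8) (nat_lit 1) (.cons (.rf (nat_lit 3656) (nat_lit 493858305440582043680)) (.cons (.rf (nat_lit 3661) (nat_lit 493858305440582043680)) (.cons (.br (nat_lit 2) (nat_lit 1) (.cons (.rf (nat_lit 246) (nat_lit 457825356001)) (.cons (.br (nat_lit 9) (nat_lit 1) (.cons (.kr (nat_lit 4722366482869661990913) (nat_lit 309485009821345073019748608) (nat_lit 0) (nat_lit 2)) (.cons (.rf (nat_lit 3561) (nat_lit 421260279445224261664)) (.cons (.rf (nat_lit 3561) (nat_lit 420143386737636378656)) .nil)))) (.cons (.rf (nat_lit 3662) (nat_lit 493858305440582043680)) (.cons (.rf (nat_lit 3662) (nat_lit 458117738797769787424)) .nil))))) .nil)))),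
 (.br (nat_lit 8) (nat_lit 1) (.cons (.rf (nat_lit 3656) (nat_lit 493858305440582043680)) (.cons (.rf (nat_lit 3661) (nat_lit 493858305440582043680)) (.cons (.rf (nat_lit 3663) (nat_lit 493858305440582043680)) (.cons (.rf (nat_lit 3663) (nat_lit 458117738797769787424)) .nil))))),
 (.br (nat_lit 8) (nat_lit 1) (.cons (.rf (nat_lit 3656) (nat_lit 493858305440582043680)) (.cons (.rf (nat_lit 3661) (nat_lit 493858305440582043680)) (.cons (.rf (nat_lit 3664) (nat_lit 493858305440582043680)) (.cons (.br (nat_lit 8) (nat_lit 1) (.cons (.rf (nat_lit 1593) (nat_lit 459639366881)) (.cons (.ev (nat_lit 1208944338416296938963201) (nat_lit 1)) (.cons (.rf (nat_lit 3664) (nat_lit 493858305440582043680)) .nil)))) .nil))))),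
 (.br (nat_lit 11) (nat_lit 1) (.cons (.ev (nat_lit 309489750706912180605878273) (nat_lit 1)) (.cons (.br (nat_lit 12) (nat_lit 1) (.cons (.ev (nat_lit 79228162532783139261308207361) (nat_lit 1)) (.cons (.zr (nat_lit 928455029464035223354408960) (nat_lit 158457533954348572390767723009) (nat_lit 5) (nat_lit 5)) .nil))) .nil))),
 (.br (nat_lit 8) (nat_lit 1) (.cons (.rf (nat_lit 84) (nat_lit 13262620713)) (.cons (.rf (nat_lit 84) (nat_lit 12222498855)) (.cons (.br (nat_lit 11) (nat_lit 1) (.cons (.rf (nat_lit 3666) (nat_lit 493858305440582043680)) (.cons (.br (nat_lit 12) (nat_lit 1) (.cons (.rf (nat_lit 3666) (nat_lit 493858305440582043680)) (.cons (.zr (nat_lit 14222655853612178079744) (nat_lit 40564820416229160745102477361153) (nat_lit 5) (nat_lit 0)) .nil))) .nil))) .nil)))),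
 (.br (nat_lit 12) (nat_lit 1) (.cons (.rf (nat_lit 2594) (nat_lit 8966775873)) (.cons (.rf (nat_lit 82) (nat_lit 12092253409)) (.cons (.br (nat_lit 8) (nat_lit 1) (.cons (.rf (nat_lit 58) (nat_lit 8685607)) (.cons (.br (nat_lit 9) (nat_lit 1) (.cons (.rf (nat_lit 84) (nat_lit 13262686247)) (.cons (.br (nat_lit 11) (nat_lit 1) (.cons (.ev (nat_lit 309489732260168106896326656) (nat_lit 1)) .nil)) .nil))) (.cons (.br (nat_lit 9) (nat_lit 1) (.cons (.br (nat_lit 11) (nat_lit 1) (.cons (.zr (nat_lit 237684487542793017178678362880) (nat_lit 620178945462586245912854529) (nat_lit 5) (nat_lit 4)) .nil)) (.cons (.ev (nat_lit 20282409603670189225615015543041) (nat_lit 1)) .nil))) .nil)))) .nil)))),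
 (.br (nat_lit 12) (nat_lit 1) (.cons (.rf (nat_lit 1339) (nat_lit 424438470881)) (.cons (.rf (nat_lit 1343) (nat_lit 457819038945)) (.cons (.rf (nat_lit 3668) (nat_lit 493858305440582043680)) (.cons (.br (nat_lit 12) (nat_lit 1) (.cons (.rf (nat_lit 2594) (nat_lit 9033884737)) (.cons (.rf (nat_lit 82) (nat_lit 14239737057)) (.cons (.rf (nat_lit 3668) (nat_lit 493858305440582043680)) .nil)))) .nil))))),
 (.br (nat_lit 12) (nat_lit 1) (.cons (.ev (nat_lit 18519084246547628288) (nat_lit 1)) (.cons (.zr (nat_lit 237684487542793017178678362880) (nat_lit 620178945462586245912854529) (nat_lit 5) (nat_lit 4)) .nil))),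
 (.br (nat_lit 11) (nat_lit 1) (.cons (.rf (nat_lit 31) (nat_lit 377718050)) (.cons (.br (nat_lit 7) (nat_lit 1) (.cons (.zr (nat_lit 2417906979465877524579072) (nat_lit 618970019642971616738148356) (nat_lit 5) (nat_lit 4)) (.cons (.rf (nat_lit 3670) (nat_lit 493858305440582043680)) (.cons (.rf (nat_lit 3670) (nat_lit 458117738797769787424)) .nil)))) .nil))),
 (.br (nat_lit 11) (nat_lit 1) (.cons (.rf (nat_lit 31) (nat_lit 377718050)) (.cons (.rf (nat_lit 3671) (nat_lit 493858305440582043680)) (.cons (.rf (nat_lit 3671) (nat_lit 458117738797769787424)) .nil)))),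
 (.br (nat_lit 8) (nat_lit 1) (.cons (.rf (nat_lit 29) (nat_lit 8619298)) (.cons (.rf (nat_lit 3672) (nat_lit 493858305440582043680)) (.cons (.rf (nat_lit 1593) (nat_lit 459605810466)) .nil)))),
 (.br (nat_lit 8) (nat_lit 1) (.cons (.br (nat_lit 11) (nat_lit 1) (.cons (.ev (nat_lit 310698658007442567561543681) (nat_lit 1)) (.cons (.ev (nat_lit 310698676526244239587147776) (nat_lit 1)) .nil))) (.cons (.br (nat_lit 11) (nat_lit 1) (.cons (.br (nat_lit 11) (nat_lit 1) (.cons (.kr (nat_lit 20282719088661563826618603929856) (nat_lit 79228167255077564536932335616) (nat_lit 1) (nat_lit 0)) .nil)) (.cons (.br (nat_lit 11) (nat_lit 1) (.cons (.kr (nat_lit 20282719088661563826618603929856) (nat_lit 79228167255077564536932335616) (nat_lit 1) (nat_lit 0)) .nil)) .nil))) .nil))),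
 (.br (nat_lit 10) (nat_lit 1) (.cons (.ev (nat_lit 79537652246524504600945361153) (nat_lit 1)) .nil)),
 (.br (nat_lit 13) (nat_lit 1) (.cons (.rf (nat_lit 3674) (nat_lit 493858305440582043680)) (.cons (.br (nat_lit 9) (nat_lit 1) (.cons (.rf (nat_lit 3675) (nat_lit 15433072045017106464)) (.cons (.zr (nat_lit 928455029680207996878062336) (nat_lit 40564820416229160745098232725505) (nat_lit 5) (nat_lit 0)) (.cons (.rf (nat_lit 2268) (nat_lit 15433037960155629600)) .nil)))) .nil))),
 (.br (nat_lit 13) (nat_lit 1) (.cons (.rf (nat_lit 3674) (nat_lit 493858305440582043680)) (.cons (.rf (nat_lit 3676) (nat_lit 493858305440582043680)) (.cons (.br (nat_lit 13) (nat_lit 1) (.cons (.rf (nat_lit 3674) (nat_lit 493858305440582043680)) (.cons (.rf (nat_lit 3676) (nat_lit 493858305440582043680)) .nil))) .nil)))),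
 (.br (nat_lit 8) (nat_lit 1) (.cons (.br (nat_lit 12) (nat_lit 1) (.cons (.ev (nat_lit 310698676526244239587147776) (nat_lit 1)) (.cons (.zr (nat_lit 237684487542793012784960569344) (nat_lit 1218407446351090372575233) (nat_lit 5) (nat_lit 10)) .nil))) (.cons (.rf (nat_lit 3674) (nat_lit 493858305440582043680)) .nil))),
 (.br (nat_lit 8) (nat_lit 1) (.cons (.rf (nat_lit 3678) (nat_lit 493858305440582043680)) (.cons (.br (nat_lit 8) (nat_lit 1) (.cons (.rf (nat_lit 3678) (nat_lit 493858305440582043680)) (.cons (.rf (nat_lit 3674) (nat_lit 493858305440582043680)) .nil))) (.cons (.rf (nat_lit 3674) (nat_lit 493858305440582043680)) .nil)))),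
 (.br (nat_lit 13) (nat_lit 1) (.cons (.rf (nat_lit 3677) (nat_lit 493858305440582043680)) (.cons (.rf (nat_lit 3679) (nat_lit 493858305440582043680)) (.cons (.br (nat_lit 13) (nat_lit 1) (.cons (.rf (nat_lit 3677) (nat_lit 493858305440582043680)) (.cons (.rf (nat_lit 3679) (nat_lit 493858305440582043680)) .nil))) .nil)))),
 (.br (nat_lit 13) (nat_lit 1) (.cons (.rf (nat_lit 3677) (nat_lit 493858305440582043680)) (.cons (.rf (nat_lit 3679) (nat_lit 493858305440582043680)) (.cons (.rf (nat_lit 3680) (nat_lit 493858305440582043680)) (.cons (.br (nat_lit 13) (nat_lit 1) (.cons (.rf (nat_lit 3677) (nat_lit 493858305440582043680)) (.cons (.rf (nat_lit 3679) (nat_lit 493858305440582043680)) (.cons (.rf (nat_lit 3680) (nat_lit 493858305440582043680)) .nil)))) .nil))))),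
 (.br (nat_lit 7) (nat_lit 1) (.cons (.rf (nat_lit 84) (nat_lit 12222503970)) (.cons (.br (nat_lit 8) (nat_lit 1) (.cons (.rf (nat_lit 84) (nat_lit 13164911689)) (.cons (.br (nat_lit 11) (nat_lit 1) (.cons (.ev (nat_lit 309489732188110517170077696) (nat_lit 1)) (.cons (.ev (nat_lit 309489750706912180605878273) (nat_lit 1)) .nil))) .nil))) (.cons (.ev (nat_lit 79228162514336395187598655744) (nat_lit 1)) (.cons (.rf (nat_lit 3681) (nat_lit 458117738797769787424)) .nil))))),
 (.br (nat_lit 8) (nat_lit 1) (.cons (.zr (nat_lit 14222439680830098046976) (nat_lit 158457533954348572407930814465) (nat_lit 5) (nat_lit 0)) (.cons (.ev (nat_lit 310698658007442567561543681) (nat_lit 1)) (.cons (.ev (nat_lit 20361637766165935044115283575041) (nat_lit 1)) .nil)))),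
 (.br (nat_lit 12) (nat_lit 1) (.cons (.rf (nat_lit 3681) (nat_lit 493858305440582043680)) (.cons (.rf (nat_lit 3682) (nat_lit 493858305440582043680)) (.cons (.br (nat_lit 13) (nat_lit 1) (.cons (.rf (nat_lit 3681) (nat_lit 458117738797769787424)) (.cons (.br (nat_lit 13) (nat_lit 1) (.cons (.rf (nat_lit 3681) (nat_lit 458117738797769787424)) (.cons (.ev (nat_lit 20361637766165935044115283575041) (nat_lit 1)) (.cons (.kr (nat_lit 79228162514264337593543950336) (nat_lit 20282409603651670423947251286016) (nat_lit 12) (nat_lit 0)) .nil)))) (.cons (.rf (nat_lit 3683) (nat_lit 493858305440582043680)) (.cons (.br (nat_lit 9) (nat_lit 1) (.cons (.zr (nat_lit 928455029680207996878062336) (nat_lit 158457533954348572390818054145) (nat_lit 5) (nat_lit 0)) (.cons (.ev (nat_lit 310698658007442567561543681) (nat_lit 1)) (.cons (.rf (nat_lit 3683) (nat_lit 493858305440582043680)) .nil)))) .nil))))) .nil)))),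
 (.br (nat_lit 12) (nat_lit 1) (.cons (.rf (nat_lit 3681) (nat_lit 493858305440582043680)) (.cons (.rf (nat_lit 3682) (nat_lit 493858305440582043680)) (.cons (.rf (nat_lit 3684) (nat_lit 493858305440582043680)) (.cons (.br (nat_lit 12) (nat_lit 1) (.cons (.rf (nat_lit 3681) (nat_lit 493858305440582043680)) (.cons (.rf (nat_lit 3682) (nat_lit 493858305440582043680)) (.cons (.rf (nat_lit 3684) (nat_lit 493858305440582043680)) .nil)))) .nil))))),
 (.br (nat_lit 8) (nat_lit 1) (.cons (.br (nat_lit 8) (nat_lit 1) (.cons (.ev (nat_lit 310698658007442567561543681) (nat_lit 1)) (.cons (.rf (nat_lit 84) (nat_lit 12222503970)) (.cons (.rf (nat_lit 3685) (nat_lit 458117738797769787424)) .nil)))) (.cons (.ev (nat_lit 310698658007442567561543681) (nat_lit 1)) (.cons (.rf (nat_lit 3685) (nat_lit 493858305440582043680)) (.cons (.rf (nat_lit 3685) (nat_lit 458117738797769787424)) .nil))))),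
 (.br (nat_lit 13) (nat_lit 1) (.cons (.rf (nat_lit 3681) (nat_lit 458117738797769787424)) (.cons (.rf (nat_lit 3685) (nat_lit 458117738797769787424)) (.cons (.rf (nat_lit 3686) (nat_lit 493858305440582043680)) (.cons (.br (nat_lit 13) (nat_lit 1) (.cons (.rf (nat_lit 3681) (nat_lit 458117738797769787424)) (.cons (.rf (nat_lit 3685) (nat_lit 458117738797769787424)) (.cons (.rf (nat_lit 3686) (nat_lit 493858305440582043680)) .nil)))) .nil))))),
 (.br (nat_lit 12) (nat_lit 1) (.cons (.rf (nat_lit 3681) (nat_lit 493858305440582043680)) (.cons (.rf (nat_lit 3685) (nat_lit 493858305440582043680)) (.cons (.rf (nat_lit 3687) (nat_lit 493858305440582043680)) (.cons (.br (nat_lit 12) (nat_lit 1) (.cons (.rf (nat_lit 3681) (nat_lit 493858305440582043680)) (.cons (.rf (nat_lit 3685) (nat_lit 493858305440582043680)) (.cons (.rf (nat_lit 3687) (nat_lit 493858305440582043680)) .nil)))) .nil))))),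
 (.br (nat_lit 8) (nat_lit 1) (.cons (.br (nat_lit 11) (nat_lit 1) (.cons (.ev (nat_lit 310698658079500165877596161) (nat_lit 1)) (.cons (.ev (nat_lit 310698676454186641271095296) (nat_lit 1)) .nil))) (.cons (.br (nat_lit 11) (nat_lit 1) (.cons (.zr (nat_lit 79228190848464079236479909891) (nat_lit 2417925714443655985496064) (nat_lit 10) (nat_lit 3)) (.cons (.br (nat_lit 11) (nat_lit 1) (.cons (.zr (nat_lit 79228190848464079236479909891) (nat_lit 2417925714443655985496064) (nat_lit 10) (nat_lit 3)) .nil)) .nil))) .nil))),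
 (.br (nat_lit 13) (nat_lit 1) (.cons (.rf (nat_lit 3689) (nat_lit 493858305440582043680)) (.cons (.br (nat_lit 9) (nat_lit 1) (.cons (.rf (nat_lit 3675) (nat_lit 15433072039613832224)) (.cons (.zr (nat_lit 928455029464035206174540544) (nat_lit 40564820416229160745102477361153) (nat_lit 5) (nat_lit 0)) (.cons (.rf (nat_lit 2268) (nat_lit 15433037954754386976)) .nil)))) .nil))),
 (.br (nat_lit 13) (nat_lit 1) (.cons (.rf (nat_lit 3689) (nat_lit 493858305440582043680)) (.cons (.rf (nat_lit 3690) (nat_lit 493858305440582043680)) (.cons (.br (nat_lit 13) (nat_lit 1) (.cons (.rf (nat_lit 3689) (nat_lit 493858305440582043680)) (.cons (.rf (nat_lit 3690) (nat_lit 493858305440582043680)) .nil))) .nil)))),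
 (.br (nat_lit 8) (nat_lit 1) (.cons (.br (nat_lit 12) (nat_lit 1) (.cons (.ev (nat_lit 310698676454186641271095296) (nat_lit 1)) (.cons (.zr (nat_lit 237684487543009185579925504000) (nat_lit 1218407446351090389352449) (nat_lit 5) (nat_lit 10)) .nil))) (.cons (.rf (nat_lit 3691) (nat_lit 493858305440582043680)) .nil))),
 (.br (nat_lit 8) (nat_lit 1) (.cons (.rf (nat_lit 3692) (nat_lit 493858305440582043680)) (.cons (.br (nat_lit 8) (nat_lit 1) (.cons (.rf (nat_lit 3692) (nat_lit 493858305440582043680)) (.cons (.rf (nat_lit 3691) (nat_lit 493858305440582043680)) .nil))) (.cons (.rf (nat_lit 3691) (nat_lit 493858305440582043680)) .nil)))),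
 (.br (nat_lit 13) (nat_lit 1) (.cons (.rf (nat_lit 3691) (nat_lit 493858305440582043680)) (.cons (.rf (nat_lit 3693) (nat_lit 493858305440582043680)) (.cons (.br (nat_lit 13) (nat_lit 1) (.cons (.rf (nat_lit 3691) (nat_lit 493858305440582043680)) (.cons (.rf (nat_lit 3693) (nat_lit 493858305440582043680)) .nil))) .nil)))),
 (.br (nat_lit 13) (nat_lit 1) (.cons (.rf (nat_lit 3691) (nat_lit 493858305440582043680)) (.cons (.rf (nat_lit 3693) (nat_lit 493858305440582043680)) (.cons (.rf (nat_lit 3694) (nat_lit 493858305440582043680)) (.cons (.br (nat_lit 13) (nat_lit 1) (.cons (.rf (nat_lit 3691) (nat_lit 493858305440582043680)) (.cons (.rf (nat_lit 3693) (nat_lit 493858305440582043680)) (.cons (.rf (nat_lit 3694) (nat_lit 493858305440582043680)) .nil)))) .nil)))))]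

theorem c125 : chkAll C T R L125 (nat_lit 3663) = true := by decide +kernel

theorem l125 : (nat_lit 3663) + L125.length = (nat_lit 3696) := by decide +kernel

/-- part of the certificates -/
def L126 : List Prf := [(.br (nat_lit 7) (nat_lit 1) (.cons (.rf (nat_lit 84) (nat_lit 13262691362)) (.cons (.rf (nat_lit 84) (nat_lit 13164913890)) (.cons (.rf (nat_lit 2305) (nat_lit 14714870799425)) (.cons (.br (nat_lit 8) (nat_lit 1) (.cons (.br (nat_lit 12) (nat_lit 1) (.cons (.ev (nat_lit 79847132570801363614762729985) (nat_lit 2)) (.cons (.zr (nat_lit 79228162532783986984806776832) (nat_lit 2436741105160745520201730) (nat_lit 10) (nat_lit 6)) .nil))) (.cons (.br (nat_lit 13) (nat_lit 1) (.cons (.ev (nat_lit 20283028573708423622746305462785) (nat_lit 2)) (.cons (.zr (nat_lit 20282409603670118015744493027328) (nat_lit 2436741105160749815169026) (nat_lit 10) (nat_lit 6)) .nil))) .nil))) .nil))))),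
 (.br (nat_lit 8) (nat_lit 1) (.cons (.ev (nat_lit 309489732260168106896326656) (nat_lit 1)) (.cons (.br (nat_lit 9) (nat_lit 1) (.cons (.zr (nat_lit 237684487543009185579925504000) (nat_lit 1218407446351090389352449) (nat_lit 5) (nat_lit 10)) .nil)) (.cons (.br (nat_lit 9) (nat_lit 1) (.cons (.zr (nat_lit 238612942572473220798984749824) (nat_lit 1232629886031920503980033) (nat_lit 5) (nat_lit 10)) .nil)) .nil)))),
 (.br (nat_lit 11) (nat_lit 1) (.cons (.rf (nat_lit 3695) (nat_lit 493858305440582043680)) (.cons (.rf (nat_lit 3696) (nat_lit 493858305440582043680)) (.cons (.br (nat_lit 13) (nat_lit 1) (.cons (.rf (nat_lit 3697) (nat_lit 493858305440582043680)) (.cons (.br (nat_lit 7) (nat_lit 1) (.cons (.br (nat_lit 12) (nat_lit 1) (.cons (.zr (nat_lit 313111787353094273785397504) (nat_lit 316912673668889764726696837122) (nat_lit 10) (nat_lit 6)) .nil)) (.cons (.br (nat_lit 9) (nat_lit 1) (.cons (.ev (nat_lit 20837323494075665611666363580672) (nat_lit 3)) .nil)) (.cons (.rf (nat_lit 3697) (nat_lit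 493858305440582043680)) .nil)))) (.cons (.br (nat_lit 7) (nat_lit 1) (.cons (.ev (nat_lit 309489732260168106896326656) (nat_lit 1)) (.cons (.br (nat_lit 8) (nat_lit 1) (.cons (.ev (nat_lit 20837323494075665611666363580672) (nat_lit 3)) .nil)) (.cons (.rf (nat_lit 3697) (nat_lit 493858305440582043680)) .nil)))) (.cons (.br (nat_lit 7) (nat_lit 1) (.cons (.rf (nat_lit 3575) (nat_lit 493858305440582043680)) (.cons (.zr (nat_lit 313111787353094273785397504) (nat_lit 316912673668889764726696837122) (nat_lit 10) (nat_lit 6)) (.cons (.rf (nat_lit 3697) (nat_lit 493858305440582043680)) .nil)))) .nil))))) .nil)))),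
 (.br (nat_lit 11) (nat_lit 1) (.cons (.rf (nat_lit 3695) (nat_lit 493858305440582043680)) (.cons (.rf (nat_lit 3696) (nat_lit 493858305440582043680)) (.cons (.rf (nat_lit 3698) (nat_lit 493858305440582043680)) (.cons (.br (nat_lit 11) (nat_lit 1) (.cons (.rf (nat_lit 3695) (nat_lit 493858305440582043680)) (.cons (.rf (nat_lit 3696) (nat_lit 493858305440582043680)) (.cons (.rf (nat_lit 3698) (nat_lit 493858305440582043680)) .nil)))) .nil))))),
 (.br (nat_lit 11) (nat_lit 1) (.cons (.rf (nat_lit 84) (nat_lit 9004197089)) (.cons (.rf (nat_lit 3699) (nat_lit 493858305440582043680)) (.cons (.br (nat_lit 7) (nat_lit 1) (.cons (.br (nat_lit 12) (nat_lit 1) (.cons (.ev (nat_lit 79849550422440027715545399811) (nat_lit 2)) (.cons (.zr (nat_lit 237684487543009185571352346624) (nat_lit 620178945462587341112607233) (nat_lit 5) (nat_lit 10)) .nil))) (.cons (.rf (nat_lit 84) (nat_lit 8971918401)) (.cons (.br (nat_lit 8) (nat_lit 1) (.cons (.zr (nat_lit 237684487543009185571352346624) (nat_lit 620178945462587341112607233)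 (nat_lit 5) (nat_lit 10)) (.cons (.zr (nat_lit 60847228810955011271841821163520) (nat_lit 620178945462587345407574529) (nat_lit 5) (nat_lit 10)) .nil))) .nil)))) .nil)))),
 (.br (nat_lit 11) (nat_lit 1) (.cons (.rf (nat_lit 3695) (nat_lit 493858305440582043680)) (.cons (.rf (nat_lit 3699) (nat_lit 493858305440582043680)) (.cons (.rf (nat_lit 3700) (nat_lit 493858305440582043680)) (.cons (.br (nat_lit 11) (nat_lit 1) (.cons (.rf (nat_lit 3695) (nat_lit 493858305440582043680)) (.cons (.rf (nat_lit 3699) (nat_lit 493858305440582043680)) (.cons (.rf (nat_lit 3700) (nat_lit 493858305440582043680)) .nil)))) .nil))))),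
 (.br (nat_lit 11) (nat_lit 1) (.cons (.rf (nat_lit 3695) (nat_lit 493858305440582043680)) (.cons (.rf (nat_lit 3699) (nat_lit 493858305440582043680)) (.cons (.rf (nat_lit 3701) (nat_lit 493858305440582043680)) (.cons (.br (nat_lit 11) (nat_lit 1) (.cons (.rf (nat_lit 3695) (nat_lit 493858305440582043680)) (.cons (.rf (nat_lit 3699) (nat_lit 493858305440582043680)) (.cons (.rf (nat_lit 3701) (nat_lit 493858305440582043680)) .nil)))) .nil))))),
 (.br (nat_lit 11) (nat_lit 1) (.cons (.rf (nat_lit 3695) (nat_lit 493858305440582043680)) (.cons (.rf (nat_lit 3699) (nat_lit 493858305440582043680)) (.cons (.rf (nat_lit 3701) (nat_lit 493858305440582043680)) (.cons (.rf (nat_lit 3702) (nat_lit 493858305440582043680)) (.cons (.br (nat_lit 11) (nat_lit 1) (.cons (.rf (nat_lit 3695) (nat_lit 493858305440582043680)) (.cons (.rf (nat_lit 3699) (nat_lit 493858305440582043680)) (.cons (.rf (nat_lit 3701) (nat_lit 493858305440582043680)) (.cons (.rf (nat_lit 3702) (nat_lit 493858305440582043680)) .nil)))))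 .nil)))))),
 (.br (nat_lit 8) (nat_lit 1) (.cons (.br (nat_lit 11) (nat_lit 1) (.cons (.ev (nat_lit 309485009893685241546080256) (nat_lit 1)) (.cons (.ev (nat_lit 310698676526244239587147776) (nat_lit 1)) .nil))) (.cons (.br (nat_lit 12) (nat_lit 1) (.cons (.br (nat_lit 11) (nat_lit 1) (.cons (.ev (nat_lit 20837318667854447082898589155586) (nat_lit 3)) .nil)) (.cons (.ev (nat_lit 40644048583521204137951060230659) (nat_lit 2)) .nil))) .nil))),
 (.br (nat_lit 13) (nat_lit 1) (.cons (.rf (nat_lit 3704) (nat_lit 493858305440582043680)) (.cons (.br (nat_lit 8) (nat_lit 1) (.cons (.ev (nat_lit 20282409608392555708488955724033) (nat_lit 1)) (.cons (.zr (nat_lit 55556405011832373248) (nat_lit 40564820416229160745098182393857) (nat_lit 5) (nat_lit 0)) (.cons (.br (nat_lit 9) (nat_lit 1) (.cons (.ev (nat_lit 620183686420494621553525250) (nat_lit 2)) .nil)) .nil)))) .nil))),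
 (.br (nat_lit 13) (nat_lit 1) (.cons (.rf (nat_lit 3704) (nat_lit 493858305440582043680)) (.cons (.rf (nat_lit 3705) (nat_lit 493858305440582043680)) (.cons (.br (nat_lit 13) (nat_lit 1) (.cons (.rf (nat_lit 3704) (nat_lit 493858305440582043680)) (.cons (.rf (nat_lit 3705) (nat_lit 493858305440582043680)) .nil))) .nil)))),
 (.br (nat_lit 8) (nat_lit 1) (.cons (.br (nat_lit 11) (nat_lit 1) (.cons (.ev (nat_lit 309485009893685241546080256) (nat_lit 1)) (.cons (.br (nat_lit 12) (nat_lit 1) (.cons (.ev (nat_lit 20838554180560177984503233708290) (nat_lit 3)) .nil)) .nil))) (.cons (.rf (nat_lit 3706) (nat_lit 493858305440582043680)) .nil))),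
 (.br (nat_lit 8) (nat_lit 1) (.cons (.rf (nat_lit 3707) (nat_lit 493858305440582043680)) (.cons (.br (nat_lit 8) (nat_lit 1) (.cons (.rf (nat_lit 3707) (nat_lit 493858305440582043680)) (.cons (.rf (nat_lit 3706) (nat_lit 493858305440582043680)) .nil))) (.cons (.rf (nat_lit 3706) (nat_lit 493858305440582043680)) .nil)))),
 (.br (nat_lit 13) (nat_lit 1) (.cons (.rf (nat_lit 3706) (nat_lit 493858305440582043680)) (.cons (.rf (nat_lit 3708) (nat_lit 493858305440582043680)) (.cons (.br (nat_lit 13) (nat_lit 1) (.cons (.rf (nat_lit 3706) (nat_lit 493858305440582043680)) (.cons (.rf (nat_lit 3708) (nat_lit 493858305440582043680)) .nil))) .nil)))),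
 (.br (nat_lit 13) (nat_lit 1) (.cons (.rf (nat_lit 3706) (nat_lit 493858305440582043680)) (.cons (.rf (nat_lit 3708) (nat_lit 493858305440582043680)) (.cons (.rf (nat_lit 3709) (nat_lit 493858305440582043680)) (.cons (.br (nat_lit 13) (nat_lit 1) (.cons (.rf (nat_lit 3706) (nat_lit 493858305440582043680)) (.cons (.rf (nat_lit 3708) (nat_lit 493858305440582043680)) (.cons (.rf (nat_lit 3709) (nat_lit 493858305440582043680)) .nil)))) .nil))))),
 (.br (nat_lit 7) (nat_lit 1) (.cons (.kr (nat_lit 4722366482869645213697) (nat_lit 18446744078004518912) (nat_lit 0) (nat_lit 1)) (.cons (.br (nat_lit 8) (nat_lit 1) (.cons (.ev (nat_lit 309489750706912180605878273) (nat_lit 1)) (.cons (.br (nat_lit 11) (nat_lit 1) (.cons (.rf (nat_lit 84) (nat_lit 9004424226)) (.cons (.br (nat_lit 12) (nat_lit 1) (.cons (.zr (nat_lit 928469196563483819405148160) (nat_lit 158457533954348572390767723009) (nat_lit 5) (nat_lit 5)) .nil)) .nil))) .nil))) (.cons (.rf (nat_lit 84) (nat_lit 12092253409)) (.cons (.rf (nat_lit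 3710) (nat_lit 458117738797769787424)) .nil))))),
 (.br (nat_lit 12) (nat_lit 1) (.cons (.rf (nat_lit 3710) (nat_lit 493858305440582043680)) (.cons (.rf (nat_lit 3711) (nat_lit 493858305440582043680)) (.cons (.br (nat_lit 13) (nat_lit 1) (.cons (.rf (nat_lit 3710) (nat_lit 458117738797769787424)) (.cons (.br (nat_lit 7) (nat_lit 1) (.cons (.rf (nat_lit 1593) (nat_lit 459639358759)) (.cons (.zr (nat_lit 55556405011832373248) (nat_lit 158457533954348572390767722497) (nat_lit 5) (nat_lit 0)) (.cons (.rf (nat_lit 3710) (nat_lit 458117738797769787424)) .nil)))) (.cons (.br (nat_lit 13) (nat_lit 1) (.cons (.rf (nat_lit 3710) (nat_lit 458117738797769787424)) (.cons (.rf (nat_lit 3711) (nat_lit 458117738797769787424)) (.cons (.ev (nat_lit 20361637766165935044115283575041) (nat_lit 1)) .nil)))) (.cons (.br (nat_lit 13) (nat_lit 1) (.cons (.ev (nat_lit 20282719088661491769020287877121) (nat_lit 1)) (.cons (.kr (nat_lit 79228162514264337593543950336) (nat_lit 20282409603651670423947251286016) (nat_lit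 12) (nat_lit 0)) (.cons (.ev (nat_lit 20361637766165935044115283575041) (nat_lit 1)) .nil)))) .nil))))) .nil)))),
 (.br (nat_lit 12) (nat_lit 1) (.cons (.rf (nat_lit 3710) (nat_lit 493858305440582043680)) (.cons (.rf (nat_lit 3711) (nat_lit 493858305440582043680)) (.cons (.rf (nat_lit 3712) (nat_lit 493858305440582043680)) (.cons (.br (nat_lit 12) (nat_lit 1) (.cons (.rf (nat_lit 3710) (nat_lit 493858305440582043680)) (.cons (.rf (nat_lit 3711) (nat_lit 493858305440582043680)) (.cons (.rf (nat_lit 3712) (nat_lit 493858305440582043680)) .nil)))) .nil))))),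
 (.br (nat_lit 13) (nat_lit 1) (.cons (.rf (nat_lit 3710) (nat_lit 458117738797769787424)) (.cons (.rf (nat_lit 3713) (nat_lit 458117738797769787424)) (.cons (.br (nat_lit 13) (nat_lit 1) (.cons (.rf (nat_lit 3710) (nat_lit 458117738797769787424)) (.cons (.rf (nat_lit 3713) (nat_lit 458117738797769787424)) .nil))) .nil)))),
 (.br (nat_lit 13) (nat_lit 1) (.cons (.rf (nat_lit 3710) (nat_lit 458117738797769787424)) (.cons (.rf (nat_lit 3713) (nat_lit 458117738797769787424)) (.cons (.rf (nat_lit 3714) (nat_lit 493858305440582043680)) (.cons (.br (nat_lit 13) (nat_lit 1) (.cons (.rf (nat_lit 3710) (nat_lit 458117738797769787424)) (.cons (.rf (nat_lit 3713) (nat_lit 458117738797769787424)) (.cons (.rf (nat_lit 3714) (nat_lit 493858305440582043680)) .nil)))) .nil))))),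
 (.br (nat_lit 12) (nat_lit 1) (.cons (.rf (nat_lit 3710) (nat_lit 493858305440582043680)) (.cons (.rf (nat_lit 3713) (nat_lit 493858305440582043680)) (.cons (.rf (nat_lit 3715) (nat_lit 493858305440582043680)) (.cons (.br (nat_lit 12) (nat_lit 1) (.cons (.rf (nat_lit 3710) (nat_lit 493858305440582043680)) (.cons (.rf (nat_lit 3713) (nat_lit 493858305440582043680)) (.cons (.rf (nat_lit 3715) (nat_lit 493858305440582043680)) .nil)))) .nil))))),
 (.br (nat_lit 7) (nat_lit 1) (.cons (.rf (nat_lit 31) (nat_lit 342923522)) (.cons (.ev (nat_lit 4740885284537392759041) (nat_lit 1)) .nil))),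
 (.br (nat_lit 7) (nat_lit 1) (.cons (.rf (nat_lit 31) (nat_lit 342923522)) (.cons (.rf (nat_lit 3717) (nat_lit 14242959524133701664)) (.cons (.rf (nat_lit 3717) (nat_lit 13126066816545818656)) .nil)))),
 (.br (nat_lit 10) (nat_lit 1) (.cons (.rf (nat_lit 29) (nat_lit 10683650)) (.cons (.rf (nat_lit 3718) (nat_lit 14242959524133701664)) (.cons (.rf (nat_lit 1593) (nat_lit 424171346178)) .nil)))),
 (.br (nat_lit 12) (nat_lit 1) (.cons (.zr (nat_lit 928469196779656597240545280) (nat_lit 158457533954348572395045913089) (nat_lit 5) (nat_lit 6)) .nil)),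
 (.br (nat_lit 11) (nat_lit 1) (.cons (.rf (nat_lit 84) (nat_lit 13165103145)) (.cons (.rf (nat_lit 84) (nat_lit 9004419111)) (.cons (.br (nat_lit 8) (nat_lit 1) (.cons (.rf (nat_lit 3720) (nat_lit 493858305440582043680)) (.cons (.br (nat_lit 8) (nat_lit 1) (.cons (.rf (nat_lit 3720) (nat_lit 493858305440582043680)) .nil)) .nil))) .nil)))),
 (.br (nat_lit 5) (nat_lit 1) (.cons (.br (nat_lit 9) (nat_lit 1) (.cons (.ev (nat_lit 1208944266358707179225089) (nat_lit 1)) .nil)) .nil)),
 (.br (nat_lit 8) (nat_lit 1) (.cons (.rf (nat_lit 84) (nat_lit 9840035876)) (.cons (.rf (nat_lit 84) (nat_lit 5679220774)) (.cons (.br (nat_lit 5) (nat_lit 1) (.cons (.rf (nat_lit 3722) (nat_lit 11584701642934304)) (.cons (.br (nat_lit 9) (nat_lit 1) (.cons (.rf (nat_lit 3722) (nat_lit 11584701642934304)) (.cons (.ev (nat_lit 1208944266358707179225089) (nat_lit 1)) .nil))) .nil))) .nil)))),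
 (.br (nat_lit 8) (nat_lit 1) (.cons (.br (nat_lit 12) (nat_lit 1) (.cons (.kr (nat_lit 20282719093383930309479659208960) (nat_lit 79228162532711081667287121920) (nat_lit 1) (nat_lit 0)) .nil)) .nil)),
 (.br (nat_lit 9) (nat_lit 1) (.cons (.rf (nat_lit 3723) (nat_lit 15071359418959904)) (.cons (.rf (nat_lit 58) (nat_lit 11831335)) (.cons (.rf (nat_lit 1343) (nat_lit 275283027169)) (.cons (.br (nat_lit 11) (nat_lit 1) (.cons (.br (nat_lit 8) (nat_lit 1) (.cons (.rf (nat_lit 3724) (nat_lit 493858305440582043680)) (.cons (.br (nat_lit 12) (nat_lit 1) (.cons (.rf (nat_lit 3724) (nat_lit 493858305440582043680)) (.cons (.zr (nat_lit 928469196779656597240545280) (nat_lit 40564820416229160745102460584449) (nat_lit 5) (nat_lit 6)) .nil))) .nil))) (.cons (.rf (nat_lit 84) (nat_lit 14373062697)) (.cons (.rf (nat_lit 84) (nat_lit 13332940839)) .nil)))) .nil))))),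
 (.br (nat_lit 8) (nat_lit 1) (.cons (.br (nat_lit 11) (nat_lit 1) (.cons (.ev (nat_lit 309485009893685241546080256) (nat_lit 1)) (.cons (.ev (nat_lit 310698676454186641271095296) (nat_lit 1)) .nil))) (.cons (.br (nat_lit 12) (nat_lit 1) (.cons (.br (nat_lit 11) (nat_lit 1) (.cons (.ev (nat_lit 20837318667854447082898589155586) (nat_lit 3)) .nil)) (.cons (.ev (nat_lit 40644048583521348253147692335619) (nat_lit 2)) .nil))) .nil))),
 (.br (nat_lit 13) (nat_lit 1) (.cons (.rf (nat_lit 3726) (nat_lit 493858305440582043680)) (.cons (.br (nat_lit 8) (nat_lit 1) (.cons (.ev (nat_lit 20282409608392483650890606117121) (nat_lit 1)) (.cons (.zr (nat_lit 55340232221162405888) (nat_lit 40564820416229160745102460583937) (nat_lit 5) (nat_lit 0)) (.cons (.br (nat_lit 9) (nat_lit 1) (.cons (.ev (nat_lit 620183686348437040417341954) (nat_lit 2)) .nil)) .nil)))) .nil)))]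

theorem c126 : chkAll C T R L126 (nat_lit 3696) = true := by decide +kernel

theorem l126 : (nat_lit 3696) + L126.length = (nat_lit 3728) := by decide +kernel

/-- part of the certificates -/
def L127 : List Prf := [(.br (nat_lit 13) (nat_lit 1) (.cons (.rf (nat_lit 3726) (nat_lit 493858305440582043680)) (.cons (.rf (nat_lit 3727) (nat_lit 493858305440582043680)) (.cons (.br (nat_lit 13) (nat_lit 1) (.cons (.rf (nat_lit 3726) (nat_lit 493858305440582043680)) (.cons (.rf (nat_lit 3727) (nat_lit 493858305440582043680)) .nil))) .nil)))),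
 (.br (nat_lit 8) (nat_lit 1) (.cons (.br (nat_lit 11) (nat_lit 1) (.cons (.ev (nat_lit 309485009893685241546080256) (nat_lit 1)) (.cons (.br (nat_lit 12) (nat_lit 1) (.cons (.ev (nat_lit 20838554180560322099700000030978) (nat_lit 3)) .nil)) .nil))) (.cons (.rf (nat_lit 3728) (nat_lit 493858305440582043680)) .nil))),
 (.br (nat_lit 8) (nat_lit 1) (.cons (.rf (nat_lit 3729) (nat_lit 493858305440582043680)) (.cons (.br (nat_lit 8) (nat_lit 1) (.cons (.rf (nat_lit 3729) (nat_lit 493858305440582043680)) (.cons (.rf (nat_lit 3728) (nat_lit 493858305440582043680)) .nil))) (.cons (.rf (nat_lit 3728) (nat_lit 493858305440582043680)) .nil)))),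
 (.br (nat_lit 13) (nat_lit 1) (.cons (.rf (nat_lit 3728) (nat_lit 493858305440582043680)) (.cons (.rf (nat_lit 3730) (nat_lit 493858305440582043680)) (.cons (.br (nat_lit 13) (nat_lit 1) (.cons (.rf (nat_lit 3728) (nat_lit 493858305440582043680)) (.cons (.rf (nat_lit 3730) (nat_lit 493858305440582043680)) .nil))) .nil)))),
 (.br (nat_lit 8) (nat_lit 1) (.cons (.br (nat_lit 12) (nat_lit 1) (.cons (.kr (nat_lit 20282719093383858251885621346560) (nat_lit 79228162532783139269881364480) (nat_lit 1) (nat_lit 0)) .nil)) .nil)),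
 (.br (nat_lit 11) (nat_lit 1) (.cons (.ev (nat_lit 79538856449977637464264736768) (nat_lit 1)) .nil)),
 (.br (nat_lit 12) (nat_lit 1) (.cons (.ev (nat_lit 79228171958998151060628111361) (nat_lit 2)) (.cons (.ev (nat_lit 79228167255149622135248388353) (nat_lit 1)) .nil))),
 (.br (nat_lit 13) (nat_lit 1) (.cons (.ev (nat_lit 20282409613096620410192170844161) (nat_lit 2)) (.cons (.ev (nat_lit 20282409608392483650890606117121) (nat_lit 1)) .nil))),
 (.br (nat_lit 8) (nat_lit 1) (.cons (.br (nat_lit 8) (nat_lit 1) (.cons (.rf (nat_lit 3734) (nat_lit 493858305440582043680)) (.cons (.rf (nat_lit 3735) (nat_lit 493858305440582043680)) .nil))) (.cons (.br (nat_lit 8) (nat_lit 1) (.cons (.rf (nat_lit 3734) (nat_lit 493858305440582043680)) (.cons (.ev (nat_lit 4740885567111897874688) (nat_lit 1)) .nil))) (.cons (.br (nat_lit 8) (nat_lit 1) (.cons (.rf (nat_lit 3735) (nat_lit 493858305440582043680)) (.cons (.ev (nat_lit 4740885567111897874688) (nat_lit 1)) .nil))) .nil)))),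
 (.br (nat_lit 8) (nat_lit 1) (.cons (.rf (nat_lit 3736) (nat_lit 493858305440582043680)) (.cons (.br (nat_lit 11) (nat_lit 1) (.cons (.br (nat_lit 12) (nat_lit 1) (.cons (.ev (nat_lit 20363190060067479898976382420228) (nat_lit 3)) .nil)) (.cons (.zr (nat_lit 237684487543009185571335569408) (nat_lit 1208962713385351098925057) (nat_lit 5) (nat_lit 10)) (.cons (.zr (nat_lit 60847228810955011271841787609088) (nat_lit 1208962713385355377115137) (nat_lit 5) (nat_lit 10)) .nil)))) .nil))),
 (.br (nat_lit 8) (nat_lit 1) (.cons (.rf (nat_lit 3736) (nat_lit 493858305440582043680)) (.cons (.rf (nat_lit 3737) (nat_lit 493858305440582043680)) (.cons (.br (nat_lit 8) (nat_lit 1) (.cons (.rf (nat_lit 3736) (nat_lit 493858305440582043680)) (.cons (.rf (nat_lit 3737) (nat_lit 493858305440582043680)) .nil))) .nil)))),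
 (.br (nat_lit 8) (nat_lit 1) (.cons (.rf (nat_lit 3736) (nat_lit 493858305440582043680)) (.cons (.rf (nat_lit 3738) (nat_lit 493858305440582043680)) (.cons (.br (nat_lit 8) (nat_lit 1) (.cons (.ev (nat_lit 4740885567111897874688) (nat_lit 1)) (.cons (.rf (nat_lit 3738) (nat_lit 493858305440582043680)) .nil))) .nil)))),
 (.br (nat_lit 7) (nat_lit 1) (.cons (.br (nat_lit 13) (nat_lit 1) (.cons (.rf (nat_lit 3728) (nat_lit 493858305440582043680)) (.cons (.rf (nat_lit 3730) (nat_lit 493858305440582043680)) (.cons (.rf (nat_lit 3731) (nat_lit 493858305440582043680)) (.cons (.br (nat_lit 13) (nat_lit 1) (.cons (.rf (nat_lit 3728) (nat_lit 493858305440582043680)) (.cons (.rf (nat_lit 3730) (nat_lit 493858305440582043680)) (.cons (.rf (nat_lit 3731) (nat_lit 493858305440582043680)) .nil)))) .nil))))) (.cons (.rf (nat_lit 2300) (nat_lit 493857214552207399968)) (.cons (.br (nat_lit 9) (nat_lit 1) (.cons (.br (nat_lit 11) (nat_lit 1) (.cons (.rf (nat_lit 84) (nat_lit 13165173794)) (.cons (.rf (nat_lit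 84) (nat_lit 9004194857)) (.cons (.br (nat_lit 8) (nat_lit 1) (.cons (.rf (nat_lit 2301) (nat_lit 493857214552207399968)) (.cons (.br (nat_lit 12) (nat_lit 1) (.cons (.rf (nat_lit 2301) (nat_lit 493857214552207399968)) (.cons (.ev (nat_lit 20282719088661491769020287877121) (nat_lit 1)) .nil))) .nil))) .nil)))) (.cons (.rf (nat_lit 58) (nat_lit 11836450)) (.cons (.rf (nat_lit 1343) (nat_lit 275288269889)) (.cons (.br (nat_lit 11) (nat_lit 1) (.cons (.br (nat_lit 8) (nat_lit 1) (.cons (.rf (nat_lit 3732) (nat_lit 493858305440582043680)) (.cons (.br (nat_lit 12) (nat_lit 1) (.cons (.rf (nat_lit 3732) (nat_lit 493858305440582043680)) (.cons (.zr (nat_lit 928469196563483819405148160) (nat_lit 40564820416229160745098182394369) (nat_lit 5) (nat_lit 5)) .nil))) .nil))) (.cons (.rf (nat_lit 84) (nat_lit 14372903977)) (.cons (.rf (nat_lit 84) (nat_lit 13332945954)) .nil)))) .nil))))) (.cons (.br (nat_lit 9) (nat_lit 1) (.cons (.rf (nat_lit 2305) (nat_lit 14718091926593)) (.cons (.rf (nat_lit 1343) (nat_lit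 275290364993)) (.cons (.rf (nat_lit 58) (nat_lit 12885057)) (.cons (.br (nat_lit 12) (nat_lit 1) (.cons (.br (nat_lit 8) (nat_lit 1) (.cons (.rf (nat_lit 3733) (nat_lit 493858305440582043680)) (.cons (.br (nat_lit 8) (nat_lit 1) (.cons (.rf (nat_lit 3733) (nat_lit 493858305440582043680)) .nil)) .nil))) (.cons (.rf (nat_lit 84) (nat_lit 14340365385)) (.cons (.kr (nat_lit 1208925819614629174706176) (nat_lit 79228162514264337593543950336) (nat_lit 10) (nat_lit 0)) .nil)))) .nil))))) (.cons (.br (nat_lit 8) (nat_lit 1) (.cons (.rf (nat_lit 3736) (nat_lit 493858305440582043680)) (.cons (.rf (nat_lit 3738) (nat_lit 493858305440582043680)) (.cons (.rf (nat_lit 3739) (nat_lit 493858305440582043680)) (.cons (.br (nat_lit 8) (nat_lit 1) (.cons (.rf (nat_lit 3736) (nat_lit 493858305440582043680)) (.cons (.rf (nat_lit 3738) (nat_lit 493858305440582043680)) (.cons (.rf (nat_lit 3739) (nat_lit 493858305440582043680)) .nil)))) .nil))))) .nil)))))),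
 (.br (nat_lit 8) (nat_lit 1) (.cons (.br (nat_lit 13) (nat_lit 1) (.cons (.br (nat_lit 12) (nat_lit 1) (.cons (.zr (nat_lit 55556405020422307840) (nat_lit 158457543399081538130058149889) (nat_lit 5) (nat_lit 0)) .nil)) (.cons (.zr (nat_lit 55556405020422307840) (nat_lit 158457543399081538130058149889) (nat_lit 5) (nat_lit 0)) .nil))) (.cons (.br (nat_lit 11) (nat_lit 1) (.cons (.br (nat_lit 12) (nat_lit 1) (.cons (.ev (nat_lit 20839175587320782285338581468934) (nat_lit 3)) .nil)) (.cons (.ev (nat_lit 20283031001004651137398336389635) (nat_lit 2)) .nil))) .nil))),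
 (.br (nat_lit 8) (nat_lit 1) (.cons (.rf (nat_lit 3741) (nat_lit 493858305440582043680)) (.cons (.br (nat_lit 12) (nat_lit 1) (.cons (.zr (nat_lit 79228162532783986984806776832) (nat_lit 2436741105160745520201730) (nat_lit 10) (nat_lit 6)) (.cons (.ev (nat_lit 40723276746035396700533627748354) (nat_lit 2)) .nil))) .nil))),
 (.br (nat_lit 8) (nat_lit 1) (.cons (.rf (nat_lit 3741) (nat_lit 493858305440582043680)) (.cons (.rf (nat_lit 3742) (nat_lit 493858305440582043680)) (.cons (.br (nat_lit 8) (nat_lit 1) (.cons (.rf (nat_lit 3741) (nat_lit 493858305440582043680)) (.cons (.rf (nat_lit 3742) (nat_lit 493858305440582043680)) .nil))) .nil)))),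
 (.br (nat_lit 13) (nat_lit 1) (.cons (.rf (nat_lit 3743) (nat_lit 493858305440582043680)) (.cons (.br (nat_lit 7) (nat_lit 1) (.cons (.br (nat_lit 11) (nat_lit 1) (.cons (.ev (nat_lit 20678859934307898203905149960452) (nat_lit 3)) .nil)) (.cons (.zr (nat_lit 928455029464035206174540544) (nat_lit 40564820416229160745102477361153) (nat_lit 5) (nat_lit 0)) (.cons (.br (nat_lit 8) (nat_lit 1) (.cons (.zr (nat_lit 79537647524086530385784144128) (nat_lit 2436741105160749815169026) (nat_lit 10) (nat_lit 6)) .nil)) .nil)))) .nil))),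
 (.br (nat_lit 13) (nat_lit 1) (.cons (.rf (nat_lit 3743) (nat_lit 493858305440582043680)) (.cons (.rf (nat_lit 3744) (nat_lit 493858305440582043680)) (.cons (.br (nat_lit 13) (nat_lit 1) (.cons (.rf (nat_lit 3743) (nat_lit 493858305440582043680)) (.cons (.rf (nat_lit 3744) (nat_lit 493858305440582043680)) .nil))) .nil)))),
 (.br (nat_lit 13) (nat_lit 1) (.cons (.rf (nat_lit 3743) (nat_lit 493858305440582043680)) (.cons (.rf (nat_lit 3745) (nat_lit 493858305440582043680)) (.cons (.br (nat_lit 13) (nat_lit 1) (.cons (.rf (nat_lit 3743) (nat_lit 493858305440582043680)) (.cons (.rf (nat_lit 3745) (nat_lit 493858305440582043680)) .nil))) .nil)))),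
 (.br (nat_lit 11) (nat_lit 1) (.cons (.ev (nat_lit 310698658079500165877596161) (nat_lit 1)) (.cons (.br (nat_lit 8) (nat_lit 1) (.cons (.br (nat_lit 12) (nat_lit 1) (.cons (.zr (nat_lit 3631518272915255943561216) (nat_lit 316912650057345588455498842114) (nat_lit 10) (nat_lit 3)) .nil)) (.cons (.ev (nat_lit 309485028340429315255631873) (nat_lit 1)) .nil))) .nil))),
 (.br (nat_lit 8) (nat_lit 1) (.cons (.rf (nat_lit 3747) (nat_lit 493858305440582043680)) (.cons (.br (nat_lit 11) (nat_lit 1) (.cons (.zr (nat_lit 55556405020422307840) (nat_lit 158457543399081538130058149889) (nat_lit 5) (nat_lit 0)) (.cons (.br (nat_lit 11) (nat_lit 1) (.cons (.zr (nat_lit 55556405020422307840) (nat_lit 158457543399081538130058149889) (nat_lit 5) (nat_lit 0)) .nil)) .nil))) .nil))),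
 (.br (nat_lit 8) (nat_lit 1) (.cons (.rf (nat_lit 3747) (nat_lit 493858305440582043680)) (.cons (.rf (nat_lit 3748) (nat_lit 493858305440582043680)) (.cons (.br (nat_lit 8) (nat_lit 1) (.cons (.rf (nat_lit 3747) (nat_lit 493858305440582043680)) (.cons (.rf (nat_lit 3748) (nat_lit 493858305440582043680)) .nil))) .nil)))),
 (.br (nat_lit 11) (nat_lit 1) (.cons (.ev (nat_lit 310698658079500165877596161) (nat_lit 1)) (.cons (.br (nat_lit 7) (nat_lit 1) (.cons (.br (nat_lit 12) (nat_lit 1) (.cons (.ev (nat_lit 20678859906084379771120946053382) (nat_lit 3)) .nil)) (.cons (.ev (nat_lit 309489732260168106896326656) (nat_lit 1)) (.cons (.br (nat_lit 8) (nat_lit 1) (.cons (.zr (nat_lit 55556405020422307840) (nat_lit 158457543399081538130058149889) (nat_lit 5) (nat_lit 0)) .nil)) .nil)))) .nil))),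
 (.br (nat_lit 11) (nat_lit 1) (.cons (.rf (nat_lit 3749) (nat_lit 493858305440582043680)) (.cons (.rf (nat_lit 3750) (nat_lit 493858305440582043680)) (.cons (.br (nat_lit 11) (nat_lit 1) (.cons (.rf (nat_lit 3749) (nat_lit 493858305440582043680)) (.cons (.rf (nat_lit 3750) (nat_lit 493858305440582043680)) .nil))) .nil)))),
 (.br (nat_lit 11) (nat_lit 1) (.cons (.rf (nat_lit 3749) (nat_lit 493858305440582043680)) (.cons (.rf (nat_lit 3751) (nat_lit 493858305440582043680)) (.cons (.br (nat_lit 11) (nat_lit 1) (.cons (.rf (nat_lit 3749) (nat_lit 493858305440582043680)) (.cons (.rf (nat_lit 3751) (nat_lit 493858305440582043680)) .nil))) .nil)))),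
 (.br (nat_lit 8) (nat_lit 1) (.cons (.br (nat_lit 12) (nat_lit 1) (.cons (.kr (nat_lit 20282719088661491769015976132864) (nat_lit 79228167255149622130936643584) (nat_lit 1) (nat_lit 0)) .nil)) .nil)),
 (.br (nat_lit 11) (nat_lit 1) (.cons (.rf (nat_lit 31) (nat_lit 414227746)) (.cons (.br (nat_lit 8) (nat_lit 1) (.cons (.rf (nat_lit 3753) (nat_lit 493858305440582043680)) (.cons (.br (nat_lit 12) (nat_lit 1) (.cons (.rf (nat_lit 3753) (nat_lit 493858305440582043680)) (.cons (.zr (nat_lit 928455029464035206174540544) (nat_lit 40564820416229160745102477361153) (nat_lit 5) (nat_lit 0)) .nil))) .nil))) .nil))),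
 (.br (nat_lit 12) (nat_lit 1) (.cons (.br (nat_lit 8) (nat_lit 1) (.cons (.br (nat_lit 8) (nat_lit 1) (.cons (.zr (nat_lit 237684501710108634171681275904) (nat_lit 1208962713385355393892353) (nat_lit 5) (nat_lit 10)) .nil)) (.cons (.br (nat_lit 8) (nat_lit 1) (.cons (.zr (nat_lit 237684501710108634171681275904) (nat_lit 1208962713385355393892353) (nat_lit 5) (nat_lit 10)) .nil)) .nil))) (.cons (.rf (nat_lit 31) (nat_lit 449021218)) .nil))),
 (.br (nat_lit 11) (nat_lit 1) (.cons (.ev (nat_lit 310698658007442567561543681) (nat_lit 1)) (.cons (.br (nat_lit 8) (nat_lit 1) (.cons (.br (nat_lit 12) (nat_lit 1) (.cons (.zr (nat_lit 950737983227740539529415753734) (nat_lit 3105730486290502588500541440) (nat_lit 20) (nat_lit 5)) .nil)) (.cons (.ev (nat_lit 309485028340429315255631873) (nat_lit 1)) .nil))) .nil))),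
 (.br (nat_lit 8) (nat_lit 1) (.cons (.rf (nat_lit 3756) (nat_lit 493858305440582043680)) (.cons (.br (nat_lit 11) (nat_lit 1) (.cons (.zr (nat_lit 55340232225457373184) (nat_lit 158457543399081538130041372673) (nat_lit 5) (nat_lit 0)) (.cons (.br (nat_lit 11) (nat_lit 1) (.cons (.zr (nat_lit 55340232225457373184) (nat_lit 158457543399081538130041372673) (nat_lit 5) (nat_lit 0)) .nil)) .nil))) .nil))),
 (.br (nat_lit 9) (nat_lit 1) (.cons (.rf (nat_lit 1732) (nat_lit 410155497753254944)) (.cons (.br (nat_lit 11) (nat_lit 1) (.cons (.rf (nat_lit 84) (nat_lit 13165110337)) (.cons (.rf (nat_lit 84) (nat_lit 9004164167)) (.cons (.br (nat_lit 12) (nat_lit 1) (.cons (.br (nat_lit 13) (nat_lit 1) (.cons (.kr (nat_lit 309485009893402667057676544) (nat_lit 18446744073743171584) (nat_lit 1) (nat_lit 0)) (.cons (.zr (nat_lit 928455029680208005467996928) (nat_lit 158457543399081538130108481537) (nat_lit 5) (nat_lit 0)) .nil))) (.cons (.rf (nat_lit 2012) (nat_lit 339190896556871905)) .nil))) .nil)))) (.cons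 (.rf (nat_lit 2001) (nat_lit 337077556924750880)) (.cons (.br (nat_lit 8) (nat_lit 1) (.cons (.rf (nat_lit 3756) (nat_lit 493858305440582043680)) (.cons (.rf (nat_lit 3757) (nat_lit 493858305440582043680)) (.cons (.br (nat_lit 8) (nat_lit 1) (.cons (.rf (nat_lit 3756) (nat_lit 493858305440582043680)) (.cons (.rf (nat_lit 3757) (nat_lit 493858305440582043680)) .nil))) .nil)))) .nil)))))]

theorem c127 : chkAll C T R L127 (nat_lit 3728) = true := by decide +kernel

theorem l127 : (nat_lit 3728) + L127.length = (nat_lit 3759) := by decide +kernel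

/-- part of the certificates -/
def L128 : List Prf := [(.br (nat_lit 8) (nat_lit 1) (.cons (.br (nat_lit 12) (nat_lit 1) (.cons (.ev (nat_lit 20679483721178680385081727976196) (nat_lit 3)) .nil)) .nil)),
 (.br (nat_lit 13) (nat_lit 1) (.cons (.ev (nat_lit 20282409613096620410192170844161) (nat_lit 2)) (.cons (.ev (nat_lit 20282409608392483650890606117121) (nat_lit 1)) .nil))),
 (.br (nat_lit 8) (nat_lit 1) (.cons (.br (nat_lit 13) (nat_lit 1) (.cons (.br (nat_lit 12) (nat_lit 1) (.cons (.ev (nat_lit 79229371458530978870916546816) (nat_lit 1)) .nil)) (.cons (.ev (nat_lit 79229371458530978870916546816) (nat_lit 1)) .nil))) (.cons (.rf (nat_lit 3760) (nat_lit 493858305440582043680)) .nil))),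
 (.br (nat_lit 7) (nat_lit 1) (.cons (.rf (nat_lit 1732) (nat_lit 410155497753254944)) (.cons (.br (nat_lit 11) (nat_lit 1) (.cons (.ev (nat_lit 309489732188110517170077696) (nat_lit 1)) (.cons (.rf (nat_lit 84) (nat_lit 9004162121)) (.cons (.br (nat_lit 8) (nat_lit 1) (.cons (.rf (nat_lit 3759) (nat_lit 493858305440582043680)) (.cons (.br (nat_lit 8) (nat_lit 1) (.cons (.rf (nat_lit 3759) (nat_lit 493858305440582043680)) .nil)) .nil))) .nil)))) (.cons (.rf (nat_lit 2336) (nat_lit 445058400234080288)) (.cons (.br (nat_lit 8) (nat_lit 1) (.cons (.rf (nat_lit 3761) (nat_lit 493858305440582043680)) (.cons (.br (nat_lit 8) (nat_lit 1) (.cons (.rf (nat_lit 3761) (nat_lit 493858305440582043680)) (.cons (.ev (nat_lit 4740885567111897874688) (nat_lit 1)) .nil))) (.cons (.br (nat_lit 8) (nat_lit 1) (.cons (.rf (nat_lit 3760) (nat_lit 493858305440582043680)) (.cons (.ev (nat_lit 4740885567111897874688) (nat_lit 1)) .nil))) .nil)))) .nil))))),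
 (.br (nat_lit 8) (nat_lit 1) (.cons (.rf (nat_lit 3758) (nat_lit 493858305440582043680)) (.cons (.rf (nat_lit 3762) (nat_lit 493858305440582043680)) (.cons (.br (nat_lit 9) (nat_lit 1) (.cons (.br (nat_lit 12) (nat_lit 1) (.cons (.ev (nat_lit 79538861190718806813598285825) (nat_lit 1)) (.cons (.zr (nat_lit 237684501709892461389601243136) (nat_lit 1208962713385368262017025) (nat_lit 5) (nat_lit 10)) .nil))) (.cons (.br (nat_lit 7) (nat_lit 1) (.cons (.ev (nat_lit 79849564589611533927159169539) (nat_lit 2)) (.cons (.br (nat_lit 12) (nat_lit 1) (.cons (.zr (nat_lit 928455029680208005467996928) (nat_lit 158457543399081538130108481537) (nat_lit 5) (nat_lit 0)) .nil)) .nil))) (.cons (.ev (nat_lit 79229371458530978870916546816) (nat_lit 1)) (.cons (.br (nat_lit 12) (nat_lit 1) (.cons (.zr (nat_lit 237684501709892461389601243136) (nat_lit 1208962713385368262017025) (nat_lit 5) (nat_lit 10)) (.cons (.ev (nat_lit 310698658007442567561543681) (nat_lit 1)) (.cons (.ev (nat_lit 20282410817318303548098564063488)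 (nat_lit 1)) .nil)))) .nil))))) .nil)))),
 (.br (nat_lit 8) (nat_lit 1) (.cons (.rf (nat_lit 3758) (nat_lit 493858305440582043680)) (.cons (.rf (nat_lit 3762) (nat_lit 493858305440582043680)) (.cons (.rf (nat_lit 3763) (nat_lit 493858305440582043680)) (.cons (.br (nat_lit 8) (nat_lit 1) (.cons (.rf (nat_lit 3758) (nat_lit 493858305440582043680)) (.cons (.rf (nat_lit 3762) (nat_lit 493858305440582043680)) (.cons (.rf (nat_lit 3763) (nat_lit 493858305440582043680)) .nil)))) .nil))))),
 (.br (nat_lit 8) (nat_lit 1) (.cons (.rf (nat_lit 3758) (nat_lit 493858305440582043680)) (.cons (.rf (nat_lit 3762) (nat_lit 493858305440582043680)) (.cons (.rf (nat_lit 3764) (nat_lit 493858305440582043680)) (.cons (.br (nat_lit 8) (nat_lit 1) (.cons (.rf (nat_lit 3758) (nat_lit 493858305440582043680)) (.cons (.rf (nat_lit 3762) (nat_lit 493858305440582043680)) (.cons (.rf (nat_lit 3764) (nat_lit 493858305440582043680)) .nil)))) .nil))))),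
 (.br (nat_lit 11) (nat_lit 1) (.cons (.ev (nat_lit 20361637766184381788188993126656) (nat_lit 1)) .nil)),
 (.br (nat_lit 8) (nat_lit 1) (.cons (.rf (nat_lit 82) (nat_lit 12222276833)) (.cons (.rf (nat_lit 2594) (nat_lit 13261612097)) (.cons (.br (nat_lit 9) (nat_lit 1) (.cons (.br (nat_lit 11) (nat_lit 1) (.cons (.rf (nat_lit 84) (nat_lit 8971913255)) (.cons (.br (nat_lit 12) (nat_lit 1) (.cons (.zr (nat_lit 237684501710108634171698053120) (nat_lit 620178945462587345407574529) (nat_lit 5) (nat_lit 10)) .nil)) .nil))) (.cons (.ev (nat_lit 79229371458603036469266284800) (nat_lit 1)) (.cons (.br (nat_lit 12) (nat_lit 1) (.cons (.rf (nat_lit 3766) (nat_lit 493858305440582043680)) (.cons (.ev (nat_lit 20361638979814192916637964828928) (nat_lit 1)) .nil))) .nil)))) .nil)))),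
 (.br (nat_lit 8) (nat_lit 1) (.cons (.br (nat_lit 13) (nat_lit 1) (.cons (.br (nat_lit 12) (nat_lit 1) (.cons (.zr (nat_lit 55340232225457373184) (nat_lit 158457543399081538130041372673) (nat_lit 5) (nat_lit 0)) .nil)) (.cons (.zr (nat_lit 55340232225457373184) (nat_lit 158457543399081538130041372673) (nat_lit 5) (nat_lit 0)) .nil))) (.cons (.br (nat_lit 11) (nat_lit 1) (.cons (.br (nat_lit 12) (nat_lit 1) (.cons (.ev (nat_lit 20839175587321070515731845678854) (nat_lit 3)) .nil)) (.cons (.ev (nat_lit 20283031001004579079817133097475) (nat_lit 2)) .nil))) .nil))),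
 (.br (nat_lit 8) (nat_lit 1) (.cons (.rf (nat_lit 3768) (nat_lit 493858305440582043680)) (.cons (.br (nat_lit 12) (nat_lit 1) (.cons (.zr (nat_lit 79228162532711929390785691648) (nat_lit 2436741105160749815169026) (nat_lit 10) (nat_lit 6)) (.cons (.ev (nat_lit 40723276746035612873311463145474) (nat_lit 2)) .nil))) .nil))),
 (.br (nat_lit 8) (nat_lit 1) (.cons (.br (nat_lit 11) (nat_lit 1) (.cons (.kr (nat_lit 20282719088661563826618603929856) (nat_lit 79228167255077564536932335616) (nat_lit 1) (nat_lit 0)) .nil)) .nil)),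
 (.br (nat_lit 9) (nat_lit 1) (.cons (.rf (nat_lit 1732) (nat_lit 482213091791182880)) (.cons (.br (nat_lit 8) (nat_lit 1) (.cons (.rf (nat_lit 3768) (nat_lit 493858305440582043680)) (.cons (.rf (nat_lit 3769) (nat_lit 493858305440582043680)) (.cons (.br (nat_lit 8) (nat_lit 1) (.cons (.rf (nat_lit 3768) (nat_lit 493858305440582043680)) (.cons (.rf (nat_lit 3769) (nat_lit 493858305440582043680)) .nil))) .nil)))) (.cons (.rf (nat_lit 2001) (nat_lit 339329356738436128)) (.cons (.br (nat_lit 13) (nat_lit 1) (.cons (.rf (nat_lit 84) (nat_lit 13167207489)) (.cons (.br (nat_lit 8) (nat_lit 1) (.cons (.rf (nat_lit 3770) (nat_lit 493858305440582043680)) (.cons (.br (nat_lit 8) (nat_lit 1) (.cons (.rf (nat_lit 3770) (nat_lit 493858305440582043680)) .nil)) .nil))) (.cons (.ev (nat_lit 20282409603651670423951546319104) (nat_lit 1)) .nil)))) .nil))))),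
 (.br (nat_lit 13) (nat_lit 1) (.cons (.ev (nat_lit 20282409613096404237414335447041) (nat_lit 2)) (.cons (.ev (nat_lit 20282409608392555708488955724033) (nat_lit 1)) .nil))),
 (.br (nat_lit 8) (nat_lit 1) (.cons (.br (nat_lit 13) (nat_lit 1) (.cons (.br (nat_lit 12) (nat_lit 1) (.cons (.ev (nat_lit 79229371458530978870916546816) (nat_lit 1)) .nil)) (.cons (.ev (nat_lit 79229371458530978870916546816) (nat_lit 1)) .nil))) (.cons (.rf (nat_lit 3772) (nat_lit 493858305440582043680)) .nil))),
 (.br (nat_lit 7) (nat_lit 1) (.cons (.rf (nat_lit 1732) (nat_lit 482213091791182880)) (.cons (.br (nat_lit 8) (nat_lit 1) (.cons (.rf (nat_lit 3773) (nat_lit 493858305440582043680)) (.cons (.br (nat_lit 8) (nat_lit 1) (.cons (.rf (nat_lit 3773) (nat_lit 493858305440582043680)) (.cons (.ev (nat_lit 4740885567111897874688) (nat_lit 1)) .nil))) (.cons (.br (nat_lit 8) (nat_lit 1) (.cons (.rf (nat_lit 3772) (nat_lit 493858305440582043680)) (.cons (.ev (nat_lit 4740885567111897874688) (nat_lit 1)) .nil))) .nil))))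 (.cons (.rf (nat_lit 2336) (nat_lit 447310200047765536)) (.cons (.br (nat_lit 13) (nat_lit 1) (.cons (.rf (nat_lit 84) (nat_lit 13167270977)) (.cons (.br (nat_lit 8) (nat_lit 1) (.cons (.br (nat_lit 8) (nat_lit 1) (.cons (.ev (nat_lit 4740885567111897874688) (nat_lit 1)) .nil)) (.cons (.br (nat_lit 8) (nat_lit 1) (.cons (.ev (nat_lit 4740885567111897874688) (nat_lit 1)) .nil)) .nil))) (.cons (.kr (nat_lit 1208925819614629174706176) (nat_lit 20282409603651670423947251286016) (nat_lit 10) (nat_lit 0)) .nil)))) .nil))))),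
 (.br (nat_lit 8) (nat_lit 1) (.cons (.rf (nat_lit 3771) (nat_lit 493858305440582043680)) (.cons (.rf (nat_lit 3774) (nat_lit 493858305440582043680)) (.cons (.br (nat_lit 12) (nat_lit 1) (.cons (.rf (nat_lit 2061) (nat_lit 405782475768532201)) (.cons (.ev (nat_lit 79229371458530978870916546816) (nat_lit 1)) (.cons (.br (nat_lit 9) (nat_lit 1) (.cons (.zr (nat_lit 237684501709892461389601243136) (nat_lit 1208962713385368262017025) (nat_lit 5) (nat_lit 10)) (.cons (.br (nat_lit 7) (nat_lit 1) (.cons (.ev (nat_lit 20363190059993404692322639217920) (nat_lit 3)) .nil)) (.cons (.ev (nat_lit 20361638975110201120247974527233) (nat_lit 1)) .nil)))) (.cons (.br (nat_lit 7) (nat_lit 1) (.cons (.ev (nat_lit 20282410817318375605688323866880) (nat_lit 1)) (.cons (.zr (nat_lit 60847228810955227444632457576448) (nat_lit 1208962713385351098925057) (nat_lit 5) (nat_lit 10)) .nil))) .nil))))) .nil)))),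
 (.br (nat_lit 8) (nat_lit 1) (.cons (.rf (nat_lit 3771) (nat_lit 493858305440582043680)) (.cons (.rf (nat_lit 3774) (nat_lit 493858305440582043680)) (.cons (.rf (nat_lit 3775) (nat_lit 493858305440582043680)) (.cons (.br (nat_lit 8) (nat_lit 1) (.cons (.rf (nat_lit 3771) (nat_lit 493858305440582043680)) (.cons (.rf (nat_lit 3774) (nat_lit 493858305440582043680)) (.cons (.rf (nat_lit 3775) (nat_lit 493858305440582043680)) .nil)))) .nil))))),
 (.br (nat_lit 8) (nat_lit 1) (.cons (.rf (nat_lit 3771) (nat_lit 493858305440582043680)) (.cons (.rf (nat_lit 3774) (nat_lit 493858305440582043680)) (.cons (.rf (nat_lit 3776) (nat_lit 493858305440582043680)) (.cons (.br (nat_lit 8) (nat_lit 1) (.cons (.rf (nat_lit 3771) (nat_lit 493858305440582043680)) (.cons (.rf (nat_lit 3774) (nat_lit 493858305440582043680)) (.cons (.rf (nat_lit 3776) (nat_lit 493858305440582043680)) .nil)))) .nil))))),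
 (.br (nat_lit 2) (nat_lit 1) (.cons (.kr (nat_lit 16842752) (nat_lit 72057598332895232) (nat_lit 2) (nat_lit 0)) (.cons (.br (nat_lit 9) (nat_lit 1) (.cons (.rf (nat_lit 2314) (nat_lit 13838735945893920)) (.cons (.rf (nat_lit 1733) (nat_lit 482213097192425504)) (.cons (.br (nat_lit 13) (nat_lit 1) (.cons (.rf (nat_lit 3743) (nat_lit 493858305440582043680)) (.cons (.rf (nat_lit 3745) (nat_lit 493858305440582043680)) (.cons (.rf (nat_lit 3746) (nat_lit 493858305440582043680)) (.cons (.br (nat_lit 13) (nat_lit 1) (.cons (.rf (nat_lit 3743) (nat_lit 493858305440582043680)) (.cons (.rf (nat_lit 3745) (nat_lit 493858305440582043680)) (.cons (.rf (nat_lit 3746) (nat_lit 493858305440582043680)) .nil)))) .nil))))) (.cons (.rf (nat_lit 2002) (nat_lit 10858539587495659552)) (.cons (.br (nat_lit 11) (nat_lit 1) (.cons (.rf (nat_lit 3749) (nat_lit 493858305440582043680)) (.cons (.rf (nat_lit 3751) (nat_lit 493858305440582043680)) (.cons (.rf (nat_lit 3752) (nat_lit 493858305440582043680)) (.cons (.br (nat_lit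 11) (nat_lit 1) (.cons (.rf (nat_lit 3749) (nat_lit 493858305440582043680)) (.cons (.rf (nat_lit 3751) (nat_lit 493858305440582043680)) (.cons (.rf (nat_lit 3752) (nat_lit 493858305440582043680)) .nil)))) .nil))))) .nil)))))) (.cons (.br (nat_lit 7) (nat_lit 1) (.cons (.rf (nat_lit 2314) (nat_lit 13838730544651296)) (.cons (.br (nat_lit 11) (nat_lit 1) (.cons (.rf (nat_lit 3754) (nat_lit 493858305440582043680)) (.cons (.rf (nat_lit 31) (nat_lit 414227746)) (.cons (.br (nat_lit 11) (nat_lit 1) (.cons (.rf (nat_lit 3754) (nat_lit 493858305440582043680)) (.cons (.rf (nat_lit 31) (nat_lit 414227746)) .nil))) .nil)))) (.cons (.rf (nat_lit 29) (nat_lit 12813602)) (.cons (.br (nat_lit 12) (nat_lit 1) (.cons (.rf (nat_lit 3755) (nat_lit 493858305440582043680)) (.cons (.br (nat_lit 12) (nat_lit 1) (.cons (.rf (nat_lit 3755) (nat_lit 493858305440582043680)) (.cons (.rf (nat_lit 31) (nat_lit 449021218)) .nil))) (.cons (.rf (nat_lit 31) (nat_lit 449021218)) .nil)))) .nil))))) (.cons (.br (nat_lit 8) (nat_lit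 1) (.cons (.rf (nat_lit 3758) (nat_lit 493858305440582043680)) (.cons (.rf (nat_lit 3762) (nat_lit 493858305440582043680)) (.cons (.rf (nat_lit 3764) (nat_lit 493858305440582043680)) (.cons (.rf (nat_lit 3765) (nat_lit 493858305440582043680)) (.cons (.br (nat_lit 8) (nat_lit 1) (.cons (.rf (nat_lit 3758) (nat_lit 493858305440582043680)) (.cons (.rf (nat_lit 3762) (nat_lit 493858305440582043680)) (.cons (.rf (nat_lit 3764) (nat_lit 493858305440582043680)) (.cons (.rf (nat_lit 3765) (nat_lit 493858305440582043680)) .nil))))) .nil)))))) (.cons (.br (nat_lit 7) (nat_lit 1) (.cons (.br (nat_lit 8) (nat_lit 1) (.cons (.rf (nat_lit 1343) (nat_lit 457826371623)) (.cons (.rf (nat_lit 3767) (nat_lit 493858305440582043680)) (.cons (.rf (nat_lit 1339) (nat_lit 287003711713)) (.cons (.br (nat_lit 8) (nat_lit 1) (.cons (.ev (nat_lit 1213666704899170879144193) (nat_lit 1)) (.cons (.rf (nat_lit 3767) (nat_lit 493858305440582043680)) (.cons (.rf (nat_lit 2594) (nat_lit 13328720961)) .nil)))) .nil))))) (.cons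 (.rf (nat_lit 29) (nat_lit 12649767)) (.cons (.br (nat_lit 9) (nat_lit 1) (.cons (.rf (nat_lit 2336) (nat_lit 445058394897914912)) (.cons (.rf (nat_lit 1343) (nat_lit 275290359847)) (.cons (.ev (nat_lit 79228167236630820463189229824) (nat_lit 1)) (.cons (.br (nat_lit 12) (nat_lit 1) (.cons (.br (nat_lit 8) (nat_lit 1) (.cons (.br (nat_lit 8) (nat_lit 1) (.cons (.zr (nat_lit 237684501710108634171681275904) (nat_lit 1208962713385355393892353) (nat_lit 5) (nat_lit 10)) .nil)) (.cons (.br (nat_lit 8) (nat_lit 1) (.cons (.zr (nat_lit 237684501710108634171681275904) (nat_lit 1208962713385355393892353) (nat_lit 5) (nat_lit 10)) .nil)) .nil))) (.cons (.rf (nat_lit 84) (nat_lit 14340556841)) (.cons (.rf (nat_lit 84) (nat_lit 12260247591)) .nil)))) .nil))))) (.cons (.rf (nat_lit 58) (nat_lit 12814377)) (.cons (.br (nat_lit 9) (nat_lit 1) (.cons (.rf (nat_lit 2336) (nat_lit 447310194711600160)) (.cons (.br (nat_lit 12) (nat_lit 1) (.cons (.br (nat_lit 8) (nat_lit 1) (.cons (.br (nat_lit 13) (nat_lit 1)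 (.cons (.zr (nat_lit 237684501710108634171681275904) (nat_lit 1208962713385355393892353) (nat_lit 5) (nat_lit 10)) (.cons (.zr (nat_lit 237684501710108634171698053120) (nat_lit 620178945462587345407574529) (nat_lit 5) (nat_lit 10)) .nil))) (.cons (.br (nat_lit 11) (nat_lit 1) (.cons (.zr (nat_lit 237684501710108634171681275904) (nat_lit 1208962713385355393892353) (nat_lit 5) (nat_lit 10)) (.cons (.kr (nat_lit 20282409603651670423947268128768) (nat_lit 79228167236702878057227091968) (nat_lit 2) (nat_lit 0)) .nil))) .nil))) (.cons (.rf (nat_lit 84) (nat_lit 14340622375)) (.cons (.rf (nat_lit 84) (nat_lit 12260182057)) .nil)))) (.cons (.ev (nat_lit 79228167236630820463189229824) (nat_lit 1)) (.cons (.rf (nat_lit 1343) (nat_lit 275316614369)) .nil))))) .nil)))))) (.cons (.br (nat_lit 8) (nat_lit 1) (.cons (.rf (nat_lit 3771) (nat_lit 493858305440582043680)) (.cons (.rf (nat_lit 3774) (nat_lit 493858305440582043680)) (.cons (.rf (nat_lit 3776) (nat_lit 493858305440582043680)) (.cons (.rf (nat_lit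 3777) (nat_lit 493858305440582043680)) (.cons (.br (nat_lit 8) (nat_lit 1) (.cons (.rf (nat_lit 3771) (nat_lit 493858305440582043680)) (.cons (.rf (nat_lit 3774) (nat_lit 493858305440582043680)) (.cons (.rf (nat_lit 3776) (nat_lit 493858305440582043680)) (.cons (.rf (nat_lit 3777) (nat_lit 493858305440582043680)) .nil))))) .nil)))))) .nil))))))),
 (.br (nat_lit 11) (nat_lit 1) (.cons (.rf (nat_lit 82) (nat_lit 13165173825)) (.cons (.rf (nat_lit 2594) (nat_lit 8995052833)) (.cons (.br (nat_lit 7) (nat_lit 1) (.cons (.rf (nat_lit 58) (nat_lit 8690722)) (.cons (.br (nat_lit 8) (nat_lit 1) (.cons (.rf (nat_lit 84) (nat_lit 12222440482)) (.cons (.br (nat_lit 12) (nat_lit 1) (.cons (.ev (nat_lit 20680097874421258793032848967428) (nat_lit 3)) .nil)) .nil))) (.cons (.br (nat_lit 8) (nat_lit 1) (.cons (.br (nat_lit 12) (nat_lit 1) (.cons (.ev (nat_lit 79231789347063977751678615811) (nat_lit 2)) .nil)) (.cons (.ev (nat_lit 20283030991559918171667635896835) (nat_lit 2)) .nil))) .nil)))) .nil)))),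
 (.br (nat_lit 11) (nat_lit 1) (.cons (.rf (nat_lit 1343) (nat_lit 457792822337)) (.cons (.rf (nat_lit 1339) (nat_lit 391085592641)) (.cons (.rf (nat_lit 3779) (nat_lit 493858305440582043680)) (.cons (.br (nat_lit 11) (nat_lit 1) (.cons (.rf (nat_lit 82) (nat_lit 14238915649)) (.cons (.rf (nat_lit 2594) (nat_lit 9028607265)) (.cons (.rf (nat_lit 3779) (nat_lit 493858305440582043680)) .nil)))) .nil)))))]

theorem c128 : chkAll C T R L128 (nat_lit 3759) = true := by decide +kernel

theorem l128 : (nat_lit 3759) + L128.length = (nat_lit 3781) := by decide +kernel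

/-- part of the certificates -/
def L129 : List Prf := [(.br (nat_lit 7) (nat_lit 1) (.cons (.rf (nat_lit 1339) (nat_lit 391152635969)) (.cons (.rf (nat_lit 31) (nat_lit 377554215)) (.cons (.rf (nat_lit 1339) (nat_lit 288076566562)) (.cons (.br (nat_lit 8) (nat_lit 1) (.cons (.rf (nat_lit 84) (nat_lit 13262464039)) (.cons (.rf (nat_lit 3281) (nat_lit 481192785869998112)) (.cons (.br (nat_lit 9) (nat_lit 1) (.cons (.rf (nat_lit 84) (nat_lit 13164913735)) (.cons (.br (nat_lit 11) (nat_lit 1) (.cons (.ev (nat_lit 79228162514336396287093571584) (nat_lit 1)) (.cons (.br (nat_lit 12) (nat_lit 1) (.cons (.ev (nat_lit 20523510558191481923192930895112) (nat_lit 4)) .nil)) .nil))) (.cons (.br (nat_lit 12) (nat_lit 1) (.cons (.rf (nat_lit 1889) (nat_lit 14316143017037269024)) (.cons (.br (nat_lit 11) (nat_lit 1) (.cons (.ev (nat_lit 79228162532711082771076874241) (nat_lit 1)) .nil)) .nil))) .nil)))) .nil)))) (.cons (.br (nat_lit 8) (nat_lit 1) (.cons (.rf (nat_lit 84) (nat_lit 14336205863)) (.cons (.br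 (nat_lit 9) (nat_lit 1) (.cons (.zr (nat_lit 928455029680207996894838785) (nat_lit 3626814352614609431560704) (nat_lit 5) (nat_lit 6)) (.cons (.br (nat_lit 12) (nat_lit 1) (.cons (.ev (nat_lit 79229371440156291296028262401) (nat_lit 1)) (.cons (.kr (nat_lit 79228162514264337593560793089) (nat_lit 1208944266359802395885824) (nat_lit 0) (nat_lit 4)) .nil))) (.cons (.br (nat_lit 11) (nat_lit 1) (.cons (.br (nat_lit 12) (nat_lit 1) (.cons (.ev (nat_lit 79229371458530977771421761536) (nat_lit 1)) .nil)) (.cons (.ev (nat_lit 20282722729661390857787324563970) (nat_lit 2)) .nil))) .nil)))) (.cons (.br (nat_lit 9) (nat_lit 1) (.cons (.rf (nat_lit 84) (nat_lit 14238655559)) (.cons (.br (nat_lit 12) (nat_lit 1) (.cons (.br (nat_lit 12) (nat_lit 1) (.cons (.ev (nat_lit 79537652246524223130246840321) (nat_lit 1)) .nil)) (.cons (.ev (nat_lit 20282409603670117168025255870721) (nat_lit 1)) .nil))) (.cons (.ev (nat_lit 20282409603651742481541305991424) (nat_lit 1)) .nil)))) .nil)))) .nil)))))),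
 (.br (nat_lit 7) (nat_lit 1) (.cons (.br (nat_lit 11) (nat_lit 1) (.cons (.br (nat_lit 12) (nat_lit 1) (.cons (.zr (nat_lit 929668677650414179970974976) (nat_lit 158456325028672791478987128835) (nat_lit 5) (nat_lit 3)) .nil)) (.cons (.ev (nat_lit 20282720302309750205583827403008) (nat_lit 1)) .nil))) (.cons (.br (nat_lit 12) (nat_lit 1) (.cons (.br (nat_lit 11) (nat_lit 1) (.cons (.ev (nat_lit 310698676526245339115618560) (nat_lit 1)) .nil)) (.cons (.zr (nat_lit 396140822016054653707077484545) (nat_lit 40564822834117694025458182521344) (nat_lit 5) (nat_lit 4)) .nil))) (.cons (.ev (nat_lit 18519084246547628288) (nat_lit 1)) .nil)))),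
 (.br (nat_lit 13) (nat_lit 1) (.cons (.ev (nat_lit 18519084246547628288) (nat_lit 1)) (.cons (.rf (nat_lit 3782) (nat_lit 493858305440582043680)) (.cons (.br (nat_lit 7) (nat_lit 1) (.cons (.br (nat_lit 11) (nat_lit 1) (.cons (.ev (nat_lit 79229371440156291296028262401) (nat_lit 1)) .nil)) (.cons (.br (nat_lit 9) (nat_lit 1) (.cons (.ev (nat_lit 79229371440156291296028262401) (nat_lit 1)) .nil)) (.cons (.ev (nat_lit 20361638975110273178937229115393) (nat_lit 1)) .nil)))) .nil)))),
 (.br (nat_lit 8) (nat_lit 1) (.cons (.rf (nat_lit 3574) (nat_lit 15395881028740548640)) (.cons (.rf (nat_lit 3780) (nat_lit 493858305440582043680)) (.cons (.rf (nat_lit 3781) (nat_lit 493858305440582043680)) (.cons (.br (nat_lit 13) (nat_lit 1) (.cons (.ev (nat_lit 18519084246547628288) (nat_lit 1)) (.cons (.rf (nat_lit 3782) (nat_lit 493858305440582043680)) (.cons (.rf (nat_lit 3783) (nat_lit 493858305440582043680)) (.cons (.br (nat_lit 13) (nat_lit 1) (.cons (.ev (nat_lit 18519084246547628288) (nat_lit 1)) (.cons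 (.rf (nat_lit 3782) (nat_lit 493858305440582043680)) (.cons (.rf (nat_lit 3783) (nat_lit 493858305440582043680)) .nil)))) .nil))))) .nil))))),
 (.br (nat_lit 8) (nat_lit 1) (.cons (.rf (nat_lit 3574) (nat_lit 15395881028740548640)) (.cons (.rf (nat_lit 3780) (nat_lit 493858305440582043680)) (.cons (.rf (nat_lit 3781) (nat_lit 493858305440582043680)) (.cons (.rf (nat_lit 3784) (nat_lit 493858305440582043680)) (.cons (.br (nat_lit 8) (nat_lit 1) (.cons (.ev (nat_lit 1208944338416296938963201) (nat_lit 1)) (.cons (.rf (nat_lit 3780) (nat_lit 493858305440582043680)) (.cons (.rf (nat_lit 3781) (nat_lit 493858305440582043680)) (.cons (.rf (nat_lit 3784) (nat_lit 493858305440582043680)) .nil))))) .nil)))))),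
 (.br (nat_lit 2) (nat_lit 1) (.cons (.rf (nat_lit 1339) (nat_lit 391152472289)) (.cons (.rf (nat_lit 31) (nat_lit 377718050)) (.cons (.rf (nat_lit 1339) (nat_lit 288076566562)) (.cons (.br (nat_lit 8) (nat_lit 1) (.cons (.rf (nat_lit 84) (nat_lit 13262627874)) (.cons (.rf (nat_lit 3281) (nat_lit 482283501406783520)) (.cons (.br (nat_lit 9) (nat_lit 1) (.cons (.rf (nat_lit 84) (nat_lit 13164913890)) (.cons (.br (nat_lit 12) (nat_lit 1) (.cons (.zr (nat_lit 9463251770714162724865) (nat_lit 79538856449905297291493900544) (nat_lit 5) (nat_lit 5)) (.cons (.ev (nat_lit 79228162532783140360803123201) (nat_lit 1)) .nil))) (.cons (.br (nat_lit 12) (nat_lit 1) (.cons (.zr (nat_lit 7253555277983471884044544) (nat_lit 309508640101347915725144071) (nat_lit 15) (nat_lit 4)) (.cons (.zr (nat_lit 7253555277983471884044544) (nat_lit 20282409622559584225399583145991) (nat_lit 15) (nat_lit 4)) .nil))) .nil)))) .nil)))) (.cons (.br (nat_lit 8) (nat_lit 1) (.cons (.rf (nat_lit 84) (nat_lit 14336369698)) (.cons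 (.br (nat_lit 11) (nat_lit 1) (.cons (.rf (nat_lit 84) (nat_lit 14238655714)) (.cons (.zr (nat_lit 928455029464035206241648641) (nat_lit 3626814352614613726528000) (nat_lit 5) (nat_lit 6)) (.cons (.br (nat_lit 9) (nat_lit 1) (.cons (.br (nat_lit 12) (nat_lit 1) (.cons (.ev (nat_lit 79229371440156291296028262401) (nat_lit 1)) .nil)) (.cons (.ev (nat_lit 20282720302309750205583827403008) (nat_lit 1)) .nil))) .nil)))) (.cons (.br (nat_lit 9) (nat_lit 1) (.cons (.rf (nat_lit 84) (nat_lit 14238655714)) (.cons (.br (nat_lit 12) (nat_lit 1) (.cons (.br (nat_lit 12) (nat_lit 1) (.cons (.ev (nat_lit 79537652264970967203956391936) (nat_lit 1)) .nil)) (.cons (.ev (nat_lit 20282409603651670423951546319104) (nat_lit 1)) .nil))) (.cons (.ev (nat_lit 20282409603670189225615015543041) (nat_lit 1)) .nil)))) .nil)))) .nil)))))),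
 (.br (nat_lit 12) (nat_lit 1) (.cons (.kr (nat_lit 20282719088661491769015976132864) (nat_lit 79228167255149622130936643584) (nat_lit 1) (nat_lit 0)) .nil)),
 (.br (nat_lit 8) (nat_lit 1) (.cons (.rf (nat_lit 82) (nat_lit 13262686247)) (.cons (.rf (nat_lit 2594) (nat_lit 12215126311)) (.cons (.br (nat_lit 2) (nat_lit 1) (.cons (.rf (nat_lit 58) (nat_lit 11836481)) (.cons (.br (nat_lit 11) (nat_lit 1) (.cons (.ev (nat_lit 310698676454187740765880576) (nat_lit 1)) (.cons (.rf (nat_lit 3787) (nat_lit 493858305440582043680)) .nil))) (.cons (.ev (nat_lit 18519084246547628288) (nat_lit 1)) .nil)))) .nil)))),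
 (.br (nat_lit 8) (nat_lit 1) (.cons (.rf (nat_lit 1343) (nat_lit 457785484513)) (.cons (.rf (nat_lit 1339) (nat_lit 287841751079)) (.cons (.rf (nat_lit 3788) (nat_lit 493858305440582043680)) (.cons (.br (nat_lit 8) (nat_lit 1) (.cons (.rf (nat_lit 82) (nat_lit 14336428071)) (.cons (.rf (nat_lit 2594) (nat_lit 12248680743)) (.cons (.rf (nat_lit 3788) (nat_lit 493858305440582043680)) .nil)))) .nil))))),
 (.br (nat_lit 8) (nat_lit 1) (.cons (.ev (nat_lit 310698658079501265406066945) (nat_lit 1)) (.cons (.br (nat_lit 9) (nat_lit 1) (.cons (.ev (nat_lit 79228162532783140360803123201) (nat_lit 1)) (.cons (.br (nat_lit 12) (nat_lit 1) (.cons (.zr (nat_lit 79231789291795242386525783296) (nat_lit 18963253470723406036994) (nat_lit 10) (nat_lit 4)) .nil)) .nil))) (.cons (.br (nat_lit 9) (nat_lit 1) (.cons (.br (nat_lit 12) (nat_lit 1) (.cons (.zr (nat_lit 928455029464036305719590912) (nat_lit 158457533954348571295534284801) (nat_lit 5) (nat_lit 6)) .nil)) (.cons (.ev (nat_lit 20282409603670189225615015543041)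 (nat_lit 1)) .nil))) .nil)))),
 (.br (nat_lit 11) (nat_lit 1) (.cons (.ev (nat_lit 309485009893684142034452481) (nat_lit 1)) .nil)),
 (.br (nat_lit 2) (nat_lit 1) (.cons (.ev (nat_lit 310698658079501265406066945) (nat_lit 1)) (.cons (.br (nat_lit 8) (nat_lit 1) (.cons (.ev (nat_lit 80157831210361214376559640832) (nat_lit 2)) (.cons (.rf (nat_lit 3791) (nat_lit 15433072045018187808)) .nil))) (.cons (.br (nat_lit 8) (nat_lit 1) (.cons (.br (nat_lit 12) (nat_lit 1) (.cons (.ev (nat_lit 20838556617338321313741848773894) (nat_lit 3)) .nil)) (.cons (.ev (nat_lit 20282409603670189225615015543041) (nat_lit 1)) .nil))) .nil)))),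
 (.br (nat_lit 8) (nat_lit 1) (.cons (.rf (nat_lit 3790) (nat_lit 493858305440582043680)) (.cons (.rf (nat_lit 3792) (nat_lit 493858305440582043680)) (.cons (.br (nat_lit 2) (nat_lit 1) (.cons (.br (nat_lit 12) (nat_lit 1) (.cons (.zr (nat_lit 1547425049106725343624234240) (nat_lit 158457543436119141469848076289) (nat_lit 5) (nat_lit 0)) .nil)) (.cons (.zr (nat_lit 1209073683494171509260288) (nat_lit 82013527602656443212201526530) (nat_lit 15) (nat_lit 5)) (.cons (.ev (nat_lit 18519084246547628288) (nat_lit 1)) .nil)))) .nil)))),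
 (.br (nat_lit 11) (nat_lit 1) (.cons (.rf (nat_lit 3785) (nat_lit 493858305440582043680)) (.cons (.rf (nat_lit 3786) (nat_lit 493858305440582043680)) (.cons (.rf (nat_lit 3789) (nat_lit 493858305440582043680)) (.cons (.br (nat_lit 8) (nat_lit 1) (.cons (.rf (nat_lit 3790) (nat_lit 493858305440582043680)) (.cons (.rf (nat_lit 3792) (nat_lit 493858305440582043680)) (.cons (.rf (nat_lit 3793) (nat_lit 493858305440582043680)) (.cons (.br (nat_lit 8) (nat_lit 1) (.cons (.rf (nat_lit 3790) (nat_lit 493858305440582043680)) (.cons (.rf (nat_lit 3792) (nat_lit 493858305440582043680)) (.cons (.rf (nat_lit 3793) (nat_lit 493858305440582043680)) .nil)))) .nil))))) .nil))))),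
 (.br (nat_lit 11) (nat_lit 1) (.cons (.rf (nat_lit 3785) (nat_lit 493858305440582043680)) (.cons (.rf (nat_lit 3786) (nat_lit 493858305440582043680)) (.cons (.rf (nat_lit 3789) (nat_lit 493858305440582043680)) (.cons (.rf (nat_lit 3794) (nat_lit 493858305440582043680)) (.cons (.br (nat_lit 11) (nat_lit 1) (.cons (.rf (nat_lit 3785) (nat_lit 493858305440582043680)) (.cons (.rf (nat_lit 3786) (nat_lit 493858305440582043680)) (.cons (.rf (nat_lit 3789) (nat_lit 493858305440582043680)) (.cons (.rf (nat_lit 3794) (nat_lit 493858305440582043680)) .nil))))) .nil)))))),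
 (.br (nat_lit 2) (nat_lit 1) (.cons (.rf (nat_lit 31) (nat_lit 377783522)) (.cons (.rf (nat_lit 1339) (nat_lit 391085363489)) (.cons (.rf (nat_lit 1339) (nat_lit 288009523234)) (.cons (.br (nat_lit 7) (nat_lit 1) (.cons (.rf (nat_lit 84) (nat_lit 13262691362)) (.cons (.rf (nat_lit 84) (nat_lit 13164913890)) (.cons (.br (nat_lit 8) (nat_lit 1) (.cons (.ev (nat_lit 18519084246547628288) (nat_lit 1)) (.cons (.br (nat_lit 11) (nat_lit 1) (.cons (.rf (nat_lit 84) (nat_lit 8971918401)) (.cons (.ev (nat_lit 309489750634853491351290113) (nat_lit 1)) .nil))) .nil))) (.cons (.br (nat_lit 8) (nat_lit 1) (.cons (.br (nat_lit 12) (nat_lit 1) (.cons (.ev (nat_lit 309489750634853491351290113) (nat_lit 1)) (.cons (.zr (nat_lit 237684501710108634171748384772) (nat_lit 7253591811458501250647296) (nat_lit 5) (nat_lit 6)) .nil))) (.cons (.ev (nat_lit 18519084246547628288) (nat_lit 1)) .nil))) .nil))))) (.cons (.br (nat_lit 7) (nat_lit 1) (.cons (.rf (nat_lit 84) (nat_lit 14336433186)) (.cons (.rf (nat_lit 84)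 (nat_lit 14238655714)) (.cons (.br (nat_lit 8) (nat_lit 1) (.cons (.br (nat_lit 11) (nat_lit 1) (.cons (.zr (nat_lit 237684487542793013880177098752) (nat_lit 620178945462586245895946241) (nat_lit 5) (nat_lit 4)) (.cons (.ev (nat_lit 309489750634853491351290113) (nat_lit 1)) .nil))) (.cons (.ev (nat_lit 18519084246547628288) (nat_lit 1)) .nil))) (.cons (.br (nat_lit 8) (nat_lit 1) (.cons (.ev (nat_lit 18519084246547628288) (nat_lit 1)) (.cons (.rf (nat_lit 84) (nat_lit 12093267017)) .nil))) .nil))))) .nil)))))),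
 (.br (nat_lit 8) (nat_lit 1) (.cons (.rf (nat_lit 3360) (nat_lit 492741412732994160672)) (.cons (.br (nat_lit 9) (nat_lit 1) (.cons (.zr (nat_lit 475368979826831601380265820160) (nat_lit 1549842900746517551960621058) (nat_lit 10) (nat_lit 4)) .nil)) (.cons (.ev (nat_lit 18519084246547628288) (nat_lit 1)) .nil)))),
 (.br (nat_lit 11) (nat_lit 1) (.cons (.ev (nat_lit 309485009893684142034452481) (nat_lit 1)) .nil)),
 (.br (nat_lit 9) (nat_lit 1) (.cons (.ev (nat_lit 309489732260167007401410816) (nat_lit 1)) .nil)),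
 (.br (nat_lit 7) (nat_lit 1) (.cons (.rf (nat_lit 3798) (nat_lit 15433072045018187808)) (.cons (.rf (nat_lit 3799) (nat_lit 493858305440582043680)) (.cons (.ev (nat_lit 18519084246547628288) (nat_lit 1)) .nil)))),
 (.br (nat_lit 7) (nat_lit 1) (.cons (.br (nat_lit 12) (nat_lit 1) (.cons (.zr (nat_lit 396140812590128723323038728448) (nat_lit 1239148965105557854061068291) (nat_lit 10) (nat_lit 4)) .nil)) (.cons (.ev (nat_lit 309489732260167007401410816) (nat_lit 1)) (.cons (.rf (nat_lit 3797) (nat_lit 493858305440582043680)) .nil)))),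
 (.br (nat_lit 13) (nat_lit 1) (.cons (.rf (nat_lit 3797) (nat_lit 493858305440582043680)) (.cons (.rf (nat_lit 3800) (nat_lit 493858305440582043680)) (.cons (.rf (nat_lit 3801) (nat_lit 493858305440582043680)) (.cons (.br (nat_lit 13) (nat_lit 1) (.cons (.rf (nat_lit 3797) (nat_lit 493858305440582043680)) (.cons (.rf (nat_lit 3800) (nat_lit 493858305440582043680)) (.cons (.rf (nat_lit 3801) (nat_lit 493858305440582043680)) .nil)))) .nil))))),
 (.br (nat_lit 13) (nat_lit 1) (.cons (.ev (nat_lit 18519084246547628288) (nat_lit 1)) (.cons (.ev (nat_lit 309489732260167007401410816) (nat_lit 1)) (.cons (.br (nat_lit 8) (nat_lit 1) (.cons (.ev (nat_lit 79228171959214320539912044801) (nat_lit 2)) .nil)) .nil)))),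
 (.br (nat_lit 13) (nat_lit 1) (.cons (.rf (nat_lit 3803) (nat_lit 493858305440582043680)) (.cons (.br (nat_lit 13) (nat_lit 1) (.cons (.ev (nat_lit 18519084246547628288) (nat_lit 1)) (.cons (.ev (nat_lit 309489732260167007401410816) (nat_lit 1)) (.cons (.ev (nat_lit 79228162532711082771076874241) (nat_lit 1)) .nil)))) (.cons (.ev (nat_lit 309489732260167007401410816) (nat_lit 1)) (.cons (.br (nat_lit 13) (nat_lit 1) (.cons (.rf (nat_lit 3803) (nat_lit 493858305440582043680)) (.cons (.ev (nat_lit 79228162532711082771076874241) (nat_lit 1)) (.cons (.ev (nat_lit 309489732260167007401410816) (nat_lit 1)) .nil)))) .nil))))),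
 (.br (nat_lit 2) (nat_lit 1) (.cons (.zr (nat_lit 928455029464035206241648641) (nat_lit 3626814352614613726528000) (nat_lit 5) (nat_lit 6)) (.cons (.br (nat_lit 13) (nat_lit 1) (.cons (.zr (nat_lit 14185762367663799009281) (nat_lit 3626777459125366795993600) (nat_lit 5) (nat_lit 6)) (.cons (.kr (nat_lit 79228162514264337593560793089) (nat_lit 1208944266359802395885824) (nat_lit 0) (nat_lit 4)) .nil))) (.cons (.rf (nat_lit 3802) (nat_lit 493858305440582043680)) (.cons (.br (nat_lit 7) (nat_lit 1) (.cons (.br (nat_lit 12) (nat_lit 1) (.cons (.ev (nat_lit 79229371440156291296028262401) (nat_lit 1)) .nil)) (.cons (.rf (nat_lit 3804) (nat_lit 493858305440582043680)) (.cons (.ev (nat_lit 18519084246547628288) (nat_lit 1)) .nil)))) .nil))))),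
 (.br (nat_lit 12) (nat_lit 1) (.cons (.rf (nat_lit 3802) (nat_lit 493858305440582043680)) (.cons (.rf (nat_lit 3804) (nat_lit 493858305440582043680)) (.cons (.rf (nat_lit 3805) (nat_lit 493858305440582043680)) (.cons (.br (nat_lit 7) (nat_lit 1) (.cons (.ev (nat_lit 79537652246524223130246840321) (nat_lit 1)) (.cons (.ev (nat_lit 79229371440156291296028262401) (nat_lit 1)) (.cons (.ev (nat_lit 309489732260167007401410816) (nat_lit 1)) .nil)))) .nil))))),
 (.br (nat_lit 11) (nat_lit 1) (.cons (.rf (nat_lit 3785) (nat_lit 493858305440582043680)) (.cons (.rf (nat_lit 3795) (nat_lit 493858305440582043680)) (.cons (.rf (nat_lit 3796) (nat_lit 493858305440582043680)) (.cons (.br (nat_lit 12) (nat_lit 1) (.cons (.rf (nat_lit 3802) (nat_lit 493858305440582043680)) (.cons (.rf (nat_lit 3804) (nat_lit 493858305440582043680)) (.cons (.rf (nat_lit 3805) (nat_lit 493858305440582043680)) (.cons (.rf (nat_lit 3806) (nat_lit 493858305440582043680)) (.cons (.br (nat_lit 12) (nat_lit 1) (.cons (.rf (nat_lit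 3802) (nat_lit 493858305440582043680)) (.cons (.rf (nat_lit 3804) (nat_lit 493858305440582043680)) (.cons (.rf (nat_lit 3805) (nat_lit 493858305440582043680)) (.cons (.rf (nat_lit 3806) (nat_lit 493858305440582043680)) .nil))))) .nil)))))) .nil)))))]

theorem c129 : chkAll C T R L129 (nat_lit 3781) = true := by decide +kernel

theorem l129 : (nat_lit 3781) + L129.length = (nat_lit 3808) := by decide +kernel

/-- part of the certificates -/
def L130 : List Prf := [(.br (nat_lit 11) (nat_lit 1) (.cons (.rf (nat_lit 3785) (nat_lit 493858305440582043680)) (.cons (.rf (nat_lit 3795) (nat_lit 493858305440582043680)) (.cons (.rf (nat_lit 3796) (nat_lit 493858305440582043680)) (.cons (.rf (nat_lit 3807) (nat_lit 493858305440582043680)) (.cons (.br (nat_lit 11) (nat_lit 1) (.cons (.rf (nat_lit 3785) (nat_lit 493858305440582043680)) (.cons (.rf (nat_lit 3795) (nat_lit 493858305440582043680)) (.cons (.rf (nat_lit 3796) (nat_lit 493858305440582043680)) (.cons (.rf (nat_lit 3807) (nat_lit 493858305440582043680))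 .nil))))) .nil)))))),
 (.br (nat_lit 7) (nat_lit 1) (.cons (.kr (nat_lit 1) (nat_lit 18446744073709551616) (nat_lit 0) (nat_lit 1)) (.cons (.br (nat_lit 12) (nat_lit 1) (.cons (.ev (nat_lit 79849550422512084214366667011) (nat_lit 2)) (.cons (.zr (nat_lit 237684487542793013880177098752) (nat_lit 620178945462586245895946241) (nat_lit 5) (nat_lit 4)) .nil))) (.cons (.br (nat_lit 13) (nat_lit 1) (.cons (.ev (nat_lit 20283030991559918171667635896835) (nat_lit 2)) (.cons (.zr (nat_lit 60847228810955011276239800369920) (nat_lit 620178945462586245912854529) (nat_lit 5) (nat_lit 4)) .nil))) .nil)))),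
 (.br (nat_lit 12) (nat_lit 1) (.cons (.kr (nat_lit 20282719088661491769015976132864) (nat_lit 79228167255149622130936643584) (nat_lit 1) (nat_lit 0)) .nil)),
 (.br (nat_lit 8) (nat_lit 1) (.cons (.rf (nat_lit 3809) (nat_lit 493858305440582043680)) (.cons (.ev (nat_lit 310698676454187740765880576) (nat_lit 1)) (.cons (.br (nat_lit 2) (nat_lit 1) (.cons (.rf (nat_lit 3810) (nat_lit 493858305440582043680)) (.cons (.br (nat_lit 7) (nat_lit 1) (.cons (.zr (nat_lit 237684501765448866392877039616) (nat_lit 1548633974926622551581918465) (nat_lit 5) (nat_lit 10)) .nil)) (.cons (.br (nat_lit 7) (nat_lit 1) (.cons (.ev (nat_lit 20838559016263743547496177140998) (nat_lit 3)) .nil)) .nil)))) .nil)))),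
 (.br (nat_lit 11) (nat_lit 1) (.cons (.rf (nat_lit 3785) (nat_lit 493858305440582043680)) (.cons (.rf (nat_lit 3795) (nat_lit 493858305440582043680)) (.cons (.rf (nat_lit 3808) (nat_lit 493858305440582043680)) (.cons (.br (nat_lit 8) (nat_lit 1) (.cons (.rf (nat_lit 3809) (nat_lit 493858305440582043680)) (.cons (.br (nat_lit 8) (nat_lit 1) (.cons (.kr (nat_lit 1) (nat_lit 18446744073709551616) (nat_lit 0) (nat_lit 1)) (.cons (.ev (nat_lit 310698676454187740765880576) (nat_lit 1)) (.cons (.ev (nat_lit 1208944338416296938963201) (nat_lit 1)) .nil)))) (.cons (.rf (nat_lit 3811) (nat_lit 493858305440582043680)) (.cons (.br (nat_lit 8) (nat_lit 1) (.cons (.rf (nat_lit 3809) (nat_lit 493858305440582043680)) (.cons (.ev (nat_lit 1208944338416296938963201) (nat_lit 1)) (.cons (.rf (nat_lit 3811) (nat_lit 493858305440582043680)) .nil)))) .nil))))) .nil))))),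
 (.br (nat_lit 11) (nat_lit 1) (.cons (.rf (nat_lit 3785) (nat_lit 493858305440582043680)) (.cons (.rf (nat_lit 3795) (nat_lit 493858305440582043680)) (.cons (.rf (nat_lit 3808) (nat_lit 493858305440582043680)) (.cons (.rf (nat_lit 3812) (nat_lit 493858305440582043680)) (.cons (.br (nat_lit 11) (nat_lit 1) (.cons (.ev (nat_lit 310698658007443667056328961) (nat_lit 1)) (.cons (.rf (nat_lit 3795) (nat_lit 493858305440582043680)) (.cons (.rf (nat_lit 3808) (nat_lit 493858305440582043680)) (.cons (.rf (nat_lit 3812) (nat_lit 493858305440582043680)) .nil))))) .nil)))))),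
 (.br (nat_lit 11) (nat_lit 1) (.cons (.rf (nat_lit 3785) (nat_lit 493858305440582043680)) (.cons (.rf (nat_lit 3795) (nat_lit 493858305440582043680)) (.cons (.rf (nat_lit 3808) (nat_lit 493858305440582043680)) (.cons (.rf (nat_lit 3813) (nat_lit 493858305440582043680)) (.cons (.br (nat_lit 11) (nat_lit 1) (.cons (.rf (nat_lit 3785) (nat_lit 493858305440582043680)) (.cons (.rf (nat_lit 3795) (nat_lit 493858305440582043680)) (.cons (.rf (nat_lit 3808) (nat_lit 493858305440582043680)) (.cons (.rf (nat_lit 3813) (nat_lit 493858305440582043680)) .nil))))) .nil)))))),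
 (.br (nat_lit 11) (nat_lit 1) (.cons (.rf (nat_lit 3785) (nat_lit 493858305440582043680)) (.cons (.rf (nat_lit 3795) (nat_lit 493858305440582043680)) (.cons (.rf (nat_lit 3808) (nat_lit 493858305440582043680)) (.cons (.rf (nat_lit 3813) (nat_lit 493858305440582043680)) (.cons (.rf (nat_lit 3814) (nat_lit 493858305440582043680)) (.cons (.br (nat_lit 11) (nat_lit 1) (.cons (.rf (nat_lit 3785) (nat_lit 493858305440582043680)) (.cons (.rf (nat_lit 3795) (nat_lit 493858305440582043680)) (.cons (.rf (nat_lit 3808) (nat_lit 493858305440582043680)) (.cons (.rf (nat_lit 3813) (nat_lit 493858305440582043680)) (.cons (.rf (nat_lit 3814) (nat_lit 493858305440582043680)) .nil)))))) .nil))))))),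
 (.br (nat_lit 11) (nat_lit 1) (.cons (.rf (nat_lit 2594) (nat_lit 8994006242)) (.cons (.ev (nat_lit 309485009893685241546080256) (nat_lit 1)) (.cons (.br (nat_lit 8) (nat_lit 1) (.cons (.rf (nat_lit 58) (nat_lit 8690753)) (.cons (.br (nat_lit 9) (nat_lit 1) (.cons (.ev (nat_lit 79538856449905578766420214016) (nat_lit 1)) (.cons (.br (nat_lit 12) (nat_lit 1) (.cons (.ev (nat_lit 21471767783247330959846812225282) (nat_lit 4)) .nil)) .nil))) (.cons (.br (nat_lit 9) (nat_lit 1) (.cons (.br (nat_lit 12) (nat_lit 1) (.cons (.ev (nat_lit 79229371440156291296028262401) (nat_lit 1)) .nil)) (.cons (.ev (nat_lit 20283029787374911502506788913411) (nat_lit 2)) .nil))) .nil)))) .nil)))),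
 (.br (nat_lit 12) (nat_lit 1) (.cons (.rf (nat_lit 2594) (nat_lit 8960484578)) (.cons (.rf (nat_lit 82) (nat_lit 12092417058)) (.cons (.br (nat_lit 9) (nat_lit 1) (.cons (.ev (nat_lit 79229371458603035369737814016) (nat_lit 1)) (.cons (.br (nat_lit 8) (nat_lit 1) (.cons (.ev (nat_lit 80160258543627460471605560064) (nat_lit 2)) (.cons (.br (nat_lit 11) (nat_lit 1) (.cons (.ev (nat_lit 309485028340429315255631873) (nat_lit 1)) .nil)) .nil))) (.cons (.rf (nat_lit 2809) (nat_lit 492741131084006335712)) .nil)))) .nil)))),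
 (.br (nat_lit 1) (nat_lit 1) (.cons (.kr (nat_lit 1) (nat_lit 18446744073709551616) (nat_lit 0) (nat_lit 1)) (.cons (.rf (nat_lit 29) (nat_lit 8620321)) (.cons (.br (nat_lit 11) (nat_lit 1) (.cons (.rf (nat_lit 1339) (nat_lit 391152635938)) (.cons (.rf (nat_lit 1343) (nat_lit 457790727202)) (.cons (.rf (nat_lit 3816) (nat_lit 493858305440582043680)) (.cons (.br (nat_lit 11) (nat_lit 1) (.cons (.rf (nat_lit 2594) (nat_lit 9027560674)) (.cons (.rf (nat_lit 82) (nat_lit 14238852130)) (.cons (.rf (nat_lit 3816) (nat_lit 493858305440582043680)) .nil)))) .nil))))) (.cons (.br (nat_lit 12) (nat_lit 1) (.cons (.rf (nat_lit 1339) (nat_lit 424438634530)) (.cons (.rf (nat_lit 1343) (nat_lit 457824281634)) (.cons (.rf (nat_lit 3817) (nat_lit 493858305440582043680)) (.cons (.br (nat_lit 12) (nat_lit 1) (.cons (.rf (nat_lit 2594) (nat_lit 9027593442)) (.cons (.rf (nat_lit 82) (nat_lit 14239900706)) (.cons (.rf (nat_lit 3817) (nat_lit 493858305440582043680)) .nil)))) .nil))))) (.cons (.br (nat_lit 8) (nat_lit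 1) (.cons (.rf (nat_lit 58) (nat_lit 8690753)) (.cons (.br (nat_lit 9) (nat_lit 1) (.cons (.rf (nat_lit 84) (nat_lit 14336433217)) (.cons (.ev (nat_lit 4740813508422643286016) (nat_lit 1)) (.cons (.rf (nat_lit 82) (nat_lit 12256058433)) .nil)))) (.cons (.br (nat_lit 9) (nat_lit 1) (.cons (.ev (nat_lit 4740813508422643286016) (nat_lit 1)) (.cons (.rf (nat_lit 84) (nat_lit 14369987649)) (.cons (.rf (nat_lit 82) (nat_lit 13329800257)) .nil)))) (.cons (.rf (nat_lit 1339) (nat_lit 459872112674)) .nil))))) .nil)))))),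
 (.br (nat_lit 11) (nat_lit 1) (.cons (.rf (nat_lit 82) (nat_lit 13165173794)) (.cons (.rf (nat_lit 2594) (nat_lit 8994004258)) (.cons (.br (nat_lit 7) (nat_lit 1) (.cons (.rf (nat_lit 58) (nat_lit 8690753)) (.cons (.br (nat_lit 8) (nat_lit 1) (.cons (.ev (nat_lit 313116528309872368619160065) (nat_lit 2)) (.cons (.ev (nat_lit 620183686420491323001799426) (nat_lit 2)) .nil))) (.cons (.br (nat_lit 8) (nat_lit 1) (.cons (.br (nat_lit 12) (nat_lit 1) (.cons (.ev (nat_lit 20680716844440757368007992606978) (nat_lit 3)) .nil)) (.cons (.ev (nat_lit 313116528309872368619160065) (nat_lit 2)) .nil))) .nil)))) .nil)))),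
 (.br (nat_lit 11) (nat_lit 1) (.cons (.ev (nat_lit 309489732260167007401410816) (nat_lit 1)) .nil)),
 (.br (nat_lit 12) (nat_lit 1) (.cons (.rf (nat_lit 82) (nat_lit 12092480546)) (.cons (.rf (nat_lit 2594) (nat_lit 8960482594)) (.cons (.br (nat_lit 7) (nat_lit 1) (.cons (.ev (nat_lit 79229371458603035369737814016) (nat_lit 1)) (.cons (.br (nat_lit 11) (nat_lit 1) (.cons (.ev (nat_lit 309485028340429315255631873) (nat_lit 1)) (.cons (.zr (nat_lit 928455029464035210536615936) (nat_lit 158457543399081538130041373185) (nat_lit 5) (nat_lit 6)) .nil))) (.cons (.br (nat_lit 8) (nat_lit 1) (.cons (.rf (nat_lit 3820) (nat_lit 493858305440582043680)) (.cons (.ev (nat_lit 20440867151828531018444728042243) (nat_lit 2)) .nil))) .nil)))) .nil)))),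
 (.br (nat_lit 4) (nat_lit 1) (.cons (.rf (nat_lit 82) (nat_lit 6681629728)) (.cons (.rf (nat_lit 689) (nat_lit 6681629728)) (.cons (.rf (nat_lit 82) (nat_lit 8829113376)) .nil)))),
 (.br (nat_lit 6) (nat_lit 1) (.cons (.rf (nat_lit 58) (nat_lit 7608385)) (.cons (.rf (nat_lit 1732) (nat_lit 372964486877939744)) (.cons (.rf (nat_lit 3822) (nat_lit 388970517569)) (.cons (.rf (nat_lit 1732) (nat_lit 445022080915867680)) .nil))))),
 (.br (nat_lit 1) (nat_lit 1) (.cons (.rf (nat_lit 29) (nat_lit 8685793)) (.cons (.rf (nat_lit 58) (nat_lit 8685607)) (.cons (.br (nat_lit 11) (nat_lit 1) (.cons (.rf (nat_lit 1343) (nat_lit 457792822306)) (.cons (.rf (nat_lit 1339) (nat_lit 391085592610)) (.cons (.rf (nat_lit 3819) (nat_lit 493858305440582043680)) (.cons (.br (nat_lit 11) (nat_lit 1) (.cons (.rf (nat_lit 82) (nat_lit 14238915618)) (.cons (.rf (nat_lit 2594) (nat_lit 9027558690)) (.cons (.rf (nat_lit 3819) (nat_lit 493858305440582043680)) .nil)))) .nil))))) (.cons (.br (nat_lit 12) (nat_lit 1) (.cons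 (.rf (nat_lit 1343) (nat_lit 457826376738)) (.cons (.rf (nat_lit 1339) (nat_lit 424371591202)) (.cons (.rf (nat_lit 3821) (nat_lit 493858305440582043680)) (.cons (.br (nat_lit 12) (nat_lit 1) (.cons (.rf (nat_lit 82) (nat_lit 14239964194)) (.cons (.rf (nat_lit 2594) (nat_lit 9027591458)) (.cons (.rf (nat_lit 3821) (nat_lit 493858305440582043680)) .nil)))) .nil))))) (.cons (.rf (nat_lit 3823) (nat_lit 481121282147059744)) .nil)))))),
 (.br (nat_lit 11) (nat_lit 1) (.cons (.br (nat_lit 12) (nat_lit 1) (.cons (.kr (nat_lit 20282719088661491769015976132864) (nat_lit 79228167255149622130936643584) (nat_lit 1) (nat_lit 0)) .nil)) .nil)),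
 (.br (nat_lit 9) (nat_lit 1) (.cons (.rf (nat_lit 31) (nat_lit 377784545)) (.cons (.rf (nat_lit 31) (nat_lit 411338977)) (.cons (.br (nat_lit 11) (nat_lit 1) (.cons (.rf (nat_lit 3825) (nat_lit 493858305440582043680)) (.cons (.br (nat_lit 11) (nat_lit 1) (.cons (.rf (nat_lit 3825) (nat_lit 493858305440582043680)) .nil)) .nil))) .nil)))),
 (.br (nat_lit 9) (nat_lit 1) (.cons (.rf (nat_lit 84) (nat_lit 14238688295)) (.cons (.br (nat_lit 11) (nat_lit 1) (.cons (.ev (nat_lit 79229371440156291296028262401) (nat_lit 1)) (.cons (.br (nat_lit 12) (nat_lit 1) (.cons (.ev (nat_lit 20837935219948518884946741626118) (nat_lit 3)) .nil)) .nil))) (.cons (.br (nat_lit 11) (nat_lit 1) (.cons (.br (nat_lit 12) (nat_lit 1) (.cons (.ev (nat_lit 21474862633344823834619451214088) (nat_lit 4)) .nil)) (.cons (.ev (nat_lit 20282409603651742481541305991424) (nat_lit 1)) .nil))) .nil)))),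
 (.br (nat_lit 11) (nat_lit 1) (.cons (.rf (nat_lit 84) (nat_lit 14238688295)) (.cons (.ev (nat_lit 310693954159761365646966784) (nat_lit 1)) (.cons (.br (nat_lit 1) (nat_lit 1) (.cons (.br (nat_lit 12) (nat_lit 1) (.cons (.zr (nat_lit 55556405020489416704) (nat_lit 158457543399081538130041373953) (nat_lit 5) (nat_lit 6)) .nil)) (.cons (.rf (nat_lit 84) (nat_lit 8972966946)) .nil))) .nil)))),
 (.br (nat_lit 12) (nat_lit 1) (.cons (.kr (nat_lit 20282719088661491769015976132864) (nat_lit 79228167255149622130936643584) (nat_lit 1) (nat_lit 0)) .nil)),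
 (.br (nat_lit 11) (nat_lit 1) (.cons (.rf (nat_lit 3827) (nat_lit 493858305440582043680)) (.cons (.ev (nat_lit 310693954159761365646966784) (nat_lit 1)) (.cons (.br (nat_lit 9) (nat_lit 1) (.cons (.rf (nat_lit 3829) (nat_lit 493858305440582043680)) (.cons (.ev (nat_lit 79229371440156291296028262401) (nat_lit 1)) (.cons (.br (nat_lit 1) (nat_lit 1) (.cons (.zr (nat_lit 55556405020489416704) (nat_lit 158457543399081538130041373953) (nat_lit 5) (nat_lit 6)) .nil)) .nil)))) .nil)))),
 (.br (nat_lit 7) (nat_lit 1) (.cons (.rf (nat_lit 31) (nat_lit 377522471)) (.cons (.rf (nat_lit 2594) (nat_lit 12249736417)) (.cons (.br (nat_lit 9) (nat_lit 1) (.cons (.ev (nat_lit 1213666632842672057876481) (nat_lit 1)) (.cons (.br (nat_lit 11) (nat_lit 1) (.cons (.ev (nat_lit 79538861227756127583194841856) (nat_lit 2)) (.cons (.br (nat_lit 12) (nat_lit 1) (.cons (.ev (nat_lit 79537647524085683766075326721) (nat_lit 1)) .nil)) .nil))) (.cons (.br (nat_lit 11) (nat_lit 1) (.cons (.br (nat_lit 12) (nat_lit 1) (.cons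 (.ev (nat_lit 79229376180969519334616531200) (nat_lit 1)) .nil)) (.cons (.zr (nat_lit 309499176920796976195305730) (nat_lit 2417888532717405835689984) (nat_lit 5) (nat_lit 5)) .nil))) .nil)))) (.cons (.br (nat_lit 9) (nat_lit 1) (.cons (.ev (nat_lit 1213666632842672057876481) (nat_lit 1)) (.cons (.br (nat_lit 12) (nat_lit 1) (.cons (.br (nat_lit 12) (nat_lit 1) (.cons (.ev (nat_lit 79538856449905578766420214016) (nat_lit 1)) .nil)) (.cons (.ev (nat_lit 20282410817318375604588795396096) (nat_lit 1)) .nil))) (.cons (.rf (nat_lit 84) (nat_lit 12093301985)) .nil)))) .nil))))),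
 (.br (nat_lit 1) (nat_lit 1) (.cons (.rf (nat_lit 31) (nat_lit 377719073)) (.cons (.rf (nat_lit 2594) (nat_lit 12249736417)) (.cons (.br (nat_lit 9) (nat_lit 1) (.cons (.ev (nat_lit 1213666632842672057876481) (nat_lit 1)) (.cons (.br (nat_lit 11) (nat_lit 1) (.cons (.ev (nat_lit 79537647524085683766075326721) (nat_lit 1)) (.cons (.br (nat_lit 12) (nat_lit 1) (.cons (.zr (nat_lit 313116528093978849607419136) (nat_lit 396140812571609920547189686274) (nat_lit 10) (nat_lit 3)) .nil)) .nil))) (.cons (.br (nat_lit 12) (nat_lit 1) (.cons (.zr (nat_lit 42501586583925309833223) (nat_lit 319156434825569125919950080) (nat_lit 15) (nat_lit 5)) (.cons (.zr (nat_lit 47223953066769185245703) (nat_lit 20282419275076674929518077870080) (nat_lit 15) (nat_lit 0)) .nil))) .nil)))) (.cons (.br (nat_lit 9) (nat_lit 1) (.cons (.ev (nat_lit 1213666632842672057876481) (nat_lit 1)) (.cons (.br (nat_lit 13) (nat_lit 1) (.cons (.zr (nat_lit 42501586583899540032007) (nat_lit 319156434825569164574654464) (nat_lit 15) (nat_lit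 0)) (.cons (.ev (nat_lit 20282410817299928860515085844481) (nat_lit 1)) .nil))) (.cons (.rf (nat_lit 84) (nat_lit 12093301799)) .nil)))) .nil))))),
 (.br (nat_lit 9) (nat_lit 1) (.cons (.br (nat_lit 12) (nat_lit 1) (.cons (.zr (nat_lit 92594008364507201536) (nat_lit 159076513418724228267507843585) (nat_lit 5) (nat_lit 0)) .nil)) (.cons (.ev (nat_lit 80159040173074599723380310785) (nat_lit 2)) (.cons (.br (nat_lit 7) (nat_lit 1) (.cons (.zr (nat_lit 79228190941057246448687513859) (nat_lit 1246402520023245641994207232) (nat_lit 10) (nat_lit 0)) .nil)) .nil)))),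
 (.br (nat_lit 1) (nat_lit 1) (.cons (.br (nat_lit 12) (nat_lit 1) (.cons (.ev (nat_lit 79538856468352322840129765633) (nat_lit 1)) .nil)) (.cons (.rf (nat_lit 3833) (nat_lit 493858305440582043680)) (.cons (.br (nat_lit 9) (nat_lit 1) (.cons (.ev (nat_lit 79538856468352322840129765633) (nat_lit 1)) .nil)) .nil)))),
 (.br (nat_lit 12) (nat_lit 1) (.cons (.ev (nat_lit 80159040173074599723380310785) (nat_lit 2)) (.cons (.rf (nat_lit 3834) (nat_lit 493858305440582043680)) (.cons (.br (nat_lit 1) (nat_lit 1) (.cons (.ev (nat_lit 79538856468352322840129765633) (nat_lit 1)) .nil)) .nil)))),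
 (.br (nat_lit 11) (nat_lit 1) (.cons (.rf (nat_lit 3831) (nat_lit 493858305440582043680)) (.cons (.rf (nat_lit 3832) (nat_lit 493858305440582043680)) (.cons (.ev (nat_lit 1213666632842672057876481) (nat_lit 1)) (.cons (.br (nat_lit 12) (nat_lit 1) (.cons (.rf (nat_lit 3833) (nat_lit 493858305440582043680)) (.cons (.rf (nat_lit 3834) (nat_lit 493858305440582043680)) (.cons (.rf (nat_lit 3835) (nat_lit 493858305440582043680)) (.cons (.br (nat_lit 12) (nat_lit 1) (.cons (.rf (nat_lit 3833) (nat_lit 493858305440582043680)) (.cons (.rf (nat_lit 3834) (nat_lit 493858305440582043680)) (.cons (.rf (nat_lit 3835) (nat_lit 493858305440582043680)) .nil)))) .nil))))) .nil)))))]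

theorem c130 : chkAll C T R L130 (nat_lit 3808) = true := by decide +kernel

theorem l130 : (nat_lit 3808) + L130.length = (nat_lit 3837) := by decide +kernel

/-- part of the certificates -/
def L131 : List Prf := [(.br (nat_lit 8) (nat_lit 1) (.cons (.rf (nat_lit 3815) (nat_lit 493858305440582043680)) (.cons (.rf (nat_lit 3818) (nat_lit 493858305440582043680)) (.cons (.rf (nat_lit 3824) (nat_lit 493858305440582043680)) (.cons (.br (nat_lit 7) (nat_lit 1) (.cons (.rf (nat_lit 3826) (nat_lit 493858305440582043680)) (.cons (.ev (nat_lit 4740813508422643286016) (nat_lit 1)) (.cons (.br (nat_lit 1) (nat_lit 1) (.cons (.rf (nat_lit 31) (nat_lit 377719073)) (.cons (.rf (nat_lit 2594) (nat_lit 12216181985)) (.cons (.br (nat_lit 9) (nat_lit 1) (.cons (.ev (nat_lit 309485028340429315255631873) (nat_lit 1)) (.cons (.ev (nat_lit 79228162532783140360803123201) (nat_lit 1)) (.cons (.br (nat_lit 13) (nat_lit 1) (.cons (.zr (nat_lit 42501586583925309833223) (nat_lit 319156434825569125919950080) (nat_lit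 15) (nat_lit 5)) (.cons (.zr (nat_lit 42501586583929604800519) (nat_lit 79237833939268843125715830016) (nat_lit 15) (nat_lit 5)) .nil))) .nil)))) (.cons (.br (nat_lit 9) (nat_lit 1) (.cons (.ev (nat_lit 309485028340429315255631873) (nat_lit 1)) (.cons (.br (nat_lit 12) (nat_lit 1) (.cons (.ev (nat_lit 79849555163325312252988359170) (nat_lit 2)) (.cons (.ev (nat_lit 79229371440156291296028262401) (nat_lit 1)) .nil))) (.cons (.rf (nat_lit 2001) (nat_lit 337112746698082336)) .nil)))) .nil))))) (.cons (.br (nat_lit 1) (nat_lit 1) (.cons (.rf (nat_lit 31) (nat_lit 411273505)) (.cons (.br (nat_lit 9) (nat_lit 1) (.cons (.ev (nat_lit 309485009893685241546080256) (nat_lit 1)) (.cons (.ev (nat_lit 79228162514336396287093571584) (nat_lit 1)) (.cons (.br (nat_lit 11) (nat_lit 1) (.cons (.ev (nat_lit 79538861190718806813598285825) (nat_lit 1)) (.cons (.br (nat_lit 12) (nat_lit 1) (.cons (.ev (nat_lit 80159044840100851484276555776) (nat_lit 2)) .nil)) .nil))) .nil)))) (.cons (.rf (nat_lit 2594) (nat_lit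 13256369377)) (.cons (.br (nat_lit 9) (nat_lit 1) (.cons (.br (nat_lit 13) (nat_lit 1) (.cons (.ev (nat_lit 310693954159761365646966784) (nat_lit 1)) (.cons (.br (nat_lit 11) (nat_lit 1) (.cons (.ev (nat_lit 310693954159761365646966784) (nat_lit 1)) .nil)) .nil))) (.cons (.ev (nat_lit 79228162514336396287093571584) (nat_lit 1)) (.cons (.rf (nat_lit 2001) (nat_lit 338238646604924960)) .nil)))) .nil))))) (.cons (.br (nat_lit 11) (nat_lit 1) (.cons (.rf (nat_lit 3827) (nat_lit 493858305440582043680)) (.cons (.rf (nat_lit 3828) (nat_lit 493858305440582043680)) (.cons (.rf (nat_lit 3830) (nat_lit 493858305440582043680)) (.cons (.br (nat_lit 11) (nat_lit 1) (.cons (.rf (nat_lit 3827) (nat_lit 493858305440582043680)) (.cons (.rf (nat_lit 3828) (nat_lit 493858305440582043680)) (.cons (.rf (nat_lit 3830) (nat_lit 493858305440582043680)) .nil)))) .nil))))) .nil)))))) (.cons (.br (nat_lit 11) (nat_lit 1) (.cons (.rf (nat_lit 3831) (nat_lit 493858305440582043680)) (.cons (.rf (nat_lit 3832) (nat_lit 493858305440582043680))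 (.cons (.ev (nat_lit 1213666632842672057876481) (nat_lit 1)) (.cons (.rf (nat_lit 3836) (nat_lit 493858305440582043680)) (.cons (.br (nat_lit 11) (nat_lit 1) (.cons (.rf (nat_lit 3831) (nat_lit 493858305440582043680)) (.cons (.rf (nat_lit 3832) (nat_lit 493858305440582043680)) (.cons (.ev (nat_lit 1213666632842672057876481) (nat_lit 1)) (.cons (.rf (nat_lit 3836) (nat_lit 493858305440582043680)) .nil))))) .nil)))))) .nil)))))),
 (.br (nat_lit 7) (nat_lit 1) (.cons (.rf (nat_lit 31) (nat_lit 411076903)) (.cons (.br (nat_lit 9) (nat_lit 1) (.cons (.br (nat_lit 12) (nat_lit 1) (.cons (.ev (nat_lit 79537647524085683766075326721) (nat_lit 1)) (.cons (.zr (nat_lit 55556405020489416704) (nat_lit 158457543399081538130041373953) (nat_lit 5) (nat_lit 6)) .nil))) (.cons (.ev (nat_lit 1213666632842672057876481) (nat_lit 1)) (.cons (.br (nat_lit 11) (nat_lit 1) (.cons (.zr (nat_lit 55556405020489416704) (nat_lit 158457543399081538130041373953) (nat_lit 5) (nat_lit 6)) (.cons (.zr (nat_lit 55556405011899482112)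 (nat_lit 40564820416229160745098165617921) (nat_lit 5) (nat_lit 6)) .nil))) .nil)))) (.cons (.rf (nat_lit 2594) (nat_lit 13323478241)) (.cons (.br (nat_lit 9) (nat_lit 1) (.cons (.br (nat_lit 12) (nat_lit 1) (.cons (.br (nat_lit 11) (nat_lit 1) (.cons (.zr (nat_lit 237684501765448870790856441856) (nat_lit 1548633974926621452087394305) (nat_lit 5) (nat_lit 4)) .nil)) (.cons (.ev (nat_lit 20282410817318375604588795396096) (nat_lit 1)) .nil))) (.cons (.ev (nat_lit 1213666632842672057876481) (nat_lit 1)) (.cons (.rf (nat_lit 84) (nat_lit 13167043809)) .nil)))) .nil))))),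
 (.br (nat_lit 1) (nat_lit 1) (.cons (.rf (nat_lit 31) (nat_lit 411273505)) (.cons (.br (nat_lit 9) (nat_lit 1) (.cons (.br (nat_lit 11) (nat_lit 1) (.cons (.rf (nat_lit 84) (nat_lit 9004360738)) (.cons (.br (nat_lit 12) (nat_lit 1) (.cons (.ev (nat_lit 79537647524085683766075326721) (nat_lit 1)) .nil)) .nil))) (.cons (.ev (nat_lit 1213666632842672057876481) (nat_lit 1)) (.cons (.br (nat_lit 11) (nat_lit 1) (.cons (.br (nat_lit 11) (nat_lit 1) (.cons (.ev (nat_lit 310698676526245339115618560) (nat_lit 1)) .nil)) (.cons (.br (nat_lit 11) (nat_lit 1) (.cons (.ev (nat_lit 310698676526245339115618560) (nat_lit 1)) .nil)) .nil))) .nil)))) (.cons (.rf (nat_lit 2594) (nat_lit 13323478241)) (.cons (.br (nat_lit 9) (nat_lit 1) (.cons (.br (nat_lit 12) (nat_lit 1) (.cons (.br (nat_lit 11) (nat_lit 1) (.cons (.ev (nat_lit 20837316240521180830223686762758) (nat_lit 3)) .nil)) (.cons (.ev (nat_lit 20282410817299928860515085844481) (nat_lit 1)) .nil))) (.cons (.ev (nat_lit 1213666632842672057876481) (nat_lit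 1)) (.cons (.rf (nat_lit 84) (nat_lit 13167043623)) .nil)))) .nil))))),
 (.br (nat_lit 12) (nat_lit 1) (.cons (.rf (nat_lit 3838) (nat_lit 493858305440582043680)) (.cons (.rf (nat_lit 3839) (nat_lit 493858305440582043680)) (.cons (.ev (nat_lit 1213666632842672057876481) (nat_lit 1)) (.cons (.br (nat_lit 9) (nat_lit 1) (.cons (.br (nat_lit 7) (nat_lit 1) (.cons (.br (nat_lit 11) (nat_lit 1) (.cons (.zr (nat_lit 1547425049106725343624234240) (nat_lit 158457543436119141469848076289) (nat_lit 5) (nat_lit 0)) .nil)) (.cons (.ev (nat_lit 20282409608374108965514741088256) (nat_lit 1)) .nil))) (.cons (.ev (nat_lit 79229371440156291296028262401) (nat_lit 1)) (.cons (.br (nat_lit 1) (nat_lit 1) (.cons (.br (nat_lit 11) (nat_lit 1) (.cons (.zr (nat_lit 1547425049106725343624234240) (nat_lit 158457543436119141469848076289) (nat_lit 5) (nat_lit 0)) .nil)) (.cons (.ev (nat_lit 79538856449905578766420214016) (nat_lit 1)) (.cons (.br (nat_lit 7) (nat_lit 1) (.cons (.ev (nat_lit 20680719252847664194477105677056)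 (nat_lit 3)) .nil)) .nil)))) (.cons (.ev (nat_lit 20361637766165935043015788789761) (nat_lit 1)) .nil))))) .nil))))),
 (.br (nat_lit 8) (nat_lit 1) (.cons (.rf (nat_lit 3815) (nat_lit 493858305440582043680)) (.cons (.rf (nat_lit 3818) (nat_lit 493858305440582043680)) (.cons (.rf (nat_lit 3824) (nat_lit 493858305440582043680)) (.cons (.rf (nat_lit 3837) (nat_lit 493858305440582043680)) (.cons (.br (nat_lit 12) (nat_lit 1) (.cons (.rf (nat_lit 3838) (nat_lit 493858305440582043680)) (.cons (.rf (nat_lit 3839) (nat_lit 493858305440582043680)) (.cons (.ev (nat_lit 1213666632842672057876481) (nat_lit 1)) (.cons (.rf (nat_lit 3840) (nat_lit 493858305440582043680)) (.cons (.br (nat_lit 12) (nat_lit 1) (.cons (.rf (nat_lit 3838) (nat_lit 493858305440582043680)) (.cons (.rf (nat_lit 3839) (nat_lit 493858305440582043680)) (.cons (.ev (nat_lit 1213666632842672057876481) (nat_lit 1)) (.cons (.rf (nat_lit 3840) (nat_lit 493858305440582043680)) .nil))))) .nil)))))) .nil)))))),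
 (.br (nat_lit 8) (nat_lit 1) (.cons (.rf (nat_lit 3815) (nat_lit 493858305440582043680)) (.cons (.rf (nat_lit 3818) (nat_lit 493858305440582043680)) (.cons (.rf (nat_lit 3824) (nat_lit 493858305440582043680)) (.cons (.rf (nat_lit 3837) (nat_lit 493858305440582043680)) (.cons (.rf (nat_lit 3841) (nat_lit 493858305440582043680)) (.cons (.br (nat_lit 8) (nat_lit 1) (.cons (.rf (nat_lit 3815) (nat_lit 493858305440582043680)) (.cons (.rf (nat_lit 3818) (nat_lit 493858305440582043680)) (.cons (.rf (nat_lit 3824) (nat_lit 493858305440582043680)) (.cons (.rf (nat_lit 3837) (nat_lit 493858305440582043680)) (.cons (.rf (nat_lit 3841) (nat_lit 493858305440582043680)) .nil)))))) .nil))))))),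
 (.br (nat_lit 11) (nat_lit 1) (.cons (.rf (nat_lit 82) (nat_lit 13165168679)) (.cons (.rf (nat_lit 2594) (nat_lit 8993999143)) (.cons (.br (nat_lit 8) (nat_lit 1) (.cons (.rf (nat_lit 58) (nat_lit 8690753)) (.cons (.ev (nat_lit 310698676454187740765880576) (nat_lit 1)) (.cons (.br (nat_lit 2) (nat_lit 1) (.cons (.ev (nat_lit 1213666704900270374060033) (nat_lit 1)) (.cons (.ev (nat_lit 309494491520419512310628611) (nat_lit 2)) .nil))) .nil)))) .nil)))),
 (.br (nat_lit 12) (nat_lit 1) (.cons (.ev (nat_lit 79228176681364631726921417217) (nat_lit 2)) (.cons (.rf (nat_lit 2594) (nat_lit 8960477479)) (.cons (.br (nat_lit 2) (nat_lit 1) (.cons (.ev (nat_lit 79229371458603035369737814016) (nat_lit 1)) (.cons (.br (nat_lit 8) (nat_lit 1) (.cons (.ev (nat_lit 309485028340429315255631873) (nat_lit 1)) (.cons (.br (nat_lit 11) (nat_lit 1) (.cons (.zr (nat_lit 618970038233549412170268672) (nat_lit 158457543399081538130041373441) (nat_lit 5) (nat_lit 6)) .nil)) .nil))) (.cons (.br (nat_lit 8) (nat_lit 1)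 (.cons (.br (nat_lit 11) (nat_lit 1) (.cons (.ev (nat_lit 20680719262329434765750846948614) (nat_lit 3)) .nil)) (.cons (.ev (nat_lit 20361637766184381787089498341376) (nat_lit 1)) .nil))) .nil)))) .nil)))),
 (.br (nat_lit 9) (nat_lit 1) (.cons (.rf (nat_lit 3597) (nat_lit 10493986108179520)) (.cons (.ev (nat_lit 1208944266358707179225089) (nat_lit 1)) .nil))),
 (.br (nat_lit 13) (nat_lit 1) (.cons (.ev (nat_lit 20282409617818770719180190647041) (nat_lit 2)) (.cons (.ev (nat_lit 20282410817299928860515085844481) (nat_lit 1)) (.cons (.br (nat_lit 2) (nat_lit 1) (.cons (.rf (nat_lit 58) (nat_lit 8690753)) (.cons (.rf (nat_lit 3845) (nat_lit 15071359418959904)) (.cons (.br (nat_lit 8) (nat_lit 1) (.cons (.br (nat_lit 11) (nat_lit 1) (.cons (.ev (nat_lit 20837940036799367889429071069440) (nat_lit 3)) .nil)) (.cons (.ev (nat_lit 20361637766184381787089498341376) (nat_lit 1)) .nil))) .nil)))) .nil)))),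
 (.br (nat_lit 1) (nat_lit 1) (.cons (.rf (nat_lit 29) (nat_lit 8690753)) (.cons (.rf (nat_lit 58) (nat_lit 8690722)) (.cons (.br (nat_lit 11) (nat_lit 1) (.cons (.rf (nat_lit 1343) (nat_lit 457792817191)) (.cons (.rf (nat_lit 1339) (nat_lit 390917820455)) (.cons (.rf (nat_lit 3843) (nat_lit 493858305440582043680)) (.cons (.br (nat_lit 11) (nat_lit 1) (.cons (.rf (nat_lit 82) (nat_lit 14238910503)) (.cons (.rf (nat_lit 2594) (nat_lit 9027553575)) (.cons (.rf (nat_lit 3843) (nat_lit 493858305440582043680)) .nil)))) .nil))))) (.cons (.br (nat_lit 12) (nat_lit 1) (.cons (.rf (nat_lit 1343) (nat_lit 457826371623)) (.cons (.rf (nat_lit 1339) (nat_lit 424203819047)) (.cons (.rf (nat_lit 3844) (nat_lit 493858305440582043680)) (.cons (.br (nat_lit 12) (nat_lit 1) (.cons (.rf (nat_lit 82) (nat_lit 14239959079)) (.cons (.rf (nat_lit 2594) (nat_lit 9027586343)) (.cons (.rf (nat_lit 3844) (nat_lit 493858305440582043680)) .nil)))) .nil))))) (.cons (.br (nat_lit 13) (nat_lit 1) (.cons (.rf (nat_lit 3822)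 (nat_lit 459871949025)) (.cons (.rf (nat_lit 1339) (nat_lit 459637297191)) (.cons (.rf (nat_lit 3846) (nat_lit 493858305440582043680)) (.cons (.br (nat_lit 13) (nat_lit 1) (.cons (.rf (nat_lit 82) (nat_lit 13167265831)) (.cons (.rf (nat_lit 2594) (nat_lit 8994064679)) (.cons (.rf (nat_lit 3846) (nat_lit 493858305440582043680)) .nil)))) .nil))))) .nil)))))),
 (.br (nat_lit 9) (nat_lit 1) (.cons (.ev (nat_lit 309485028340429315255631873) (nat_lit 1)) (.cons (.br (nat_lit 11) (nat_lit 1) (.cons (.ev (nat_lit 79537652246524223130246840321) (nat_lit 1)) (.cons (.br (nat_lit 12) (nat_lit 1) (.cons (.ev (nat_lit 79538856468352322840129765633) (nat_lit 1)) .nil)) .nil))) (.cons (.br (nat_lit 11) (nat_lit 1) (.cons (.br (nat_lit 12) (nat_lit 1) (.cons (.ev (nat_lit 22429312070823000585642712041224) (nat_lit 5)) .nil)) (.cons (.rf (nat_lit 84) (nat_lit 8972739623)) .nil))) .nil)))),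
 (.br (nat_lit 2) (nat_lit 1) (.cons (.ev (nat_lit 309485028340429315255631873) (nat_lit 1)) (.cons (.br (nat_lit 11) (nat_lit 1) (.cons (.ev (nat_lit 79538856468352322840129765633) (nat_lit 1)) (.cons (.br (nat_lit 12) (nat_lit 1) (.cons (.ev (nat_lit 79537652246524223130246840321) (nat_lit 1)) .nil)) .nil))) (.cons (.br (nat_lit 11) (nat_lit 1) (.cons (.br (nat_lit 12) (nat_lit 1) (.cons (.zr (nat_lit 55340233320640348672) (nat_lit 158457533954348571295534284801) (nat_lit 5) (nat_lit 0)) .nil)) (.cons (.rf (nat_lit 84) (nat_lit 8972961831)) .nil))) .nil)))),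
 (.br (nat_lit 11) (nat_lit 1) (.cons (.rf (nat_lit 3848) (nat_lit 493858305440582043680)) (.cons (.rf (nat_lit 3849) (nat_lit 493858305440582043680)) (.cons (.br (nat_lit 12) (nat_lit 1) (.cons (.ev (nat_lit 310693954087703775920848896) (nat_lit 1)) (.cons (.ev (nat_lit 309489732260167007401410816) (nat_lit 1)) (.cons (.br (nat_lit 2) (nat_lit 1) (.cons (.ev (nat_lit 79231803477341994716311388161) (nat_lit 2)) .nil)) .nil)))) .nil)))),
 (.br (nat_lit 11) (nat_lit 1) (.cons (.rf (nat_lit 3848) (nat_lit 493858305440582043680)) (.cons (.rf (nat_lit 3849) (nat_lit 493858305440582043680)) (.cons (.rf (nat_lit 3850) (nat_lit 493858305440582043680)) (.cons (.br (nat_lit 11) (nat_lit 1) (.cons (.rf (nat_lit 3848) (nat_lit 493858305440582043680)) (.cons (.rf (nat_lit 3849) (nat_lit 493858305440582043680)) (.cons (.rf (nat_lit 3850) (nat_lit 493858305440582043680)) .nil)))) .nil))))),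
 (.br (nat_lit 11) (nat_lit 1) (.cons (.ev (nat_lit 309489732260167007401410816) (nat_lit 1)) .nil)),
 (.br (nat_lit 1) (nat_lit 1) (.cons (.br (nat_lit 11) (nat_lit 1) (.cons (.br (nat_lit 12) (nat_lit 1) (.cons (.ev (nat_lit 20680097855458005880878630634240) (nat_lit 3)) .nil)) (.cons (.ev (nat_lit 20283338058718244967815013466880) (nat_lit 2)) .nil))) (.cons (.br (nat_lit 12) (nat_lit 1) (.cons (.rf (nat_lit 3852) (nat_lit 493858305440582043680)) (.cons (.ev (nat_lit 20361638979814192916637964828928) (nat_lit 1)) .nil))) (.cons (.ev (nat_lit 20282410812596009122822973620480) (nat_lit 1)) .nil)))),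
 (.br (nat_lit 13) (nat_lit 1) (.cons (.rf (nat_lit 3851) (nat_lit 493858305440582043680)) (.cons (.rf (nat_lit 3853) (nat_lit 493858305440582043680)) (.cons (.br (nat_lit 11) (nat_lit 1) (.cons (.ev (nat_lit 20282409603651670423951546319104) (nat_lit 1)) (.cons (.ev (nat_lit 20282410817318375604588795396096) (nat_lit 1)) (.cons (.ev (nat_lit 20361638975091826434863519563776) (nat_lit 1)) .nil)))) .nil)))),
 (.br (nat_lit 13) (nat_lit 1) (.cons (.rf (nat_lit 3851) (nat_lit 493858305440582043680)) (.cons (.rf (nat_lit 3853) (nat_lit 493858305440582043680)) (.cons (.rf (nat_lit 3854) (nat_lit 493858305440582043680)) (.cons (.br (nat_lit 13) (nat_lit 1) (.cons (.rf (nat_lit 3851) (nat_lit 493858305440582043680)) (.cons (.rf (nat_lit 3853) (nat_lit 493858305440582043680)) (.cons (.rf (nat_lit 3854) (nat_lit 493858305440582043680)) .nil)))) .nil))))),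
 (.br (nat_lit 13) (nat_lit 1) (.cons (.rf (nat_lit 3851) (nat_lit 493858305440582043680)) (.cons (.rf (nat_lit 3855) (nat_lit 493858305440582043680)) (.cons (.br (nat_lit 13) (nat_lit 1) (.cons (.rf (nat_lit 3851) (nat_lit 493858305440582043680)) (.cons (.rf (nat_lit 3855) (nat_lit 493858305440582043680)) (.cons (.ev (nat_lit 20282409608392483651990134456321) (nat_lit 1)) .nil)))) (.cons (.br (nat_lit 13) (nat_lit 1) (.cons (.rf (nat_lit 3851) (nat_lit 493858305440582043680)) (.cons (.rf (nat_lit 3855) (nat_lit 493858305440582043680)) (.cons (.ev (nat_lit 20282409608392483651990134456321) (nat_lit 1)) .nil)))) .nil))))),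
 (.br (nat_lit 13) (nat_lit 1) (.cons (.rf (nat_lit 3851) (nat_lit 493858305440582043680)) (.cons (.rf (nat_lit 3855) (nat_lit 493858305440582043680)) (.cons (.rf (nat_lit 3856) (nat_lit 493858305440582043680)) (.cons (.br (nat_lit 13) (nat_lit 1) (.cons (.rf (nat_lit 3851) (nat_lit 493858305440582043680)) (.cons (.rf (nat_lit 3855) (nat_lit 493858305440582043680)) (.cons (.ev (nat_lit 20282409608392483651990134456321) (nat_lit 1)) .nil)))) .nil))))),
 (.br (nat_lit 9) (nat_lit 1) (.cons (.rf (nat_lit 84) (nat_lit 13165110337)) (.cons (.br (nat_lit 11) (nat_lit 1) (.cons (.ev (nat_lit 80156617543945392214392242690) (nat_lit 2)) (.cons (.br (nat_lit 12) (nat_lit 1) (.cons (.ev (nat_lit 20678864751195787065695974655748) (nat_lit 3)) .nil)) .nil))) (.cons (.br (nat_lit 11) (nat_lit 1) (.cons (.br (nat_lit 12) (nat_lit 1) (.cons (.ev (nat_lit 79228162532711082771076874241) (nat_lit 1)) .nil)) (.cons (.ev (nat_lit 20282720297605758410293365440513) (nat_lit 1)) .nil))) .nil)))),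
 (.br (nat_lit 2) (nat_lit 1) (.cons (.rf (nat_lit 84) (nat_lit 13165110337)) (.cons (.br (nat_lit 11) (nat_lit 1) (.cons (.rf (nat_lit 84) (nat_lit 8971913255)) (.cons (.br (nat_lit 12) (nat_lit 1) (.cons (.zr (nat_lit 237684501710108634171698053120) (nat_lit 620178945462587345407574529) (nat_lit 5) (nat_lit 10)) .nil)) .nil))) (.cons (.br (nat_lit 11) (nat_lit 1) (.cons (.br (nat_lit 12) (nat_lit 1) (.cons (.ev (nat_lit 79228162532711082771076874241) (nat_lit 1)) .nil)) (.cons (.ev (nat_lit 20282720297605758410293365440513) (nat_lit 1)) .nil))) .nil))))]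

theorem c131 : chkAll C T R L131 (nat_lit 3837) = true := by decide +kernel

theorem l131 : (nat_lit 3837) + L131.length = (nat_lit 3860) := by decide +kernel

/-- part of the certificates -/
def L132 : List Prf := [(.br (nat_lit 11) (nat_lit 1) (.cons (.rf (nat_lit 3858) (nat_lit 493858305440582043680)) (.cons (.rf (nat_lit 3859) (nat_lit 493858305440582043680)) (.cons (.br (nat_lit 13) (nat_lit 1) (.cons (.ev (nat_lit 310693954087703775920848896) (nat_lit 1)) (.cons (.ev (nat_lit 309489732260167007401410816) (nat_lit 1)) (.cons (.ev (nat_lit 79228162532711082771076874241) (nat_lit 1)) .nil)))) .nil)))),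
 (.br (nat_lit 11) (nat_lit 1) (.cons (.rf (nat_lit 3858) (nat_lit 493858305440582043680)) (.cons (.rf (nat_lit 3859) (nat_lit 493858305440582043680)) (.cons (.rf (nat_lit 3860) (nat_lit 493858305440582043680)) (.cons (.br (nat_lit 11) (nat_lit 1) (.cons (.rf (nat_lit 3858) (nat_lit 493858305440582043680)) (.cons (.rf (nat_lit 3859) (nat_lit 493858305440582043680)) (.cons (.rf (nat_lit 3860) (nat_lit 493858305440582043680)) .nil)))) .nil))))),
 (.br (nat_lit 1) (nat_lit 1) (.cons (.br (nat_lit 11) (nat_lit 1) (.cons (.rf (nat_lit 84) (nat_lit 8971658311)) (.cons (.br (nat_lit 12) (nat_lit 1) (.cons (.zr (nat_lit 92233720368648749056) (nat_lit 159076513418868343459861758465) (nat_lit 5) (nat_lit 0)) .nil)) .nil))) (.cons (.ev (nat_lit 79229371458603035369737814016) (nat_lit 1)) (.cons (.br (nat_lit 13) (nat_lit 1) (.cons (.rf (nat_lit 3852) (nat_lit 458117738797769787424)) (.cons (.ev (nat_lit 20361638979814192916637964828928) (nat_lit 1)) .nil))) .nil)))),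
 (.br (nat_lit 12) (nat_lit 1) (.cons (.rf (nat_lit 3861) (nat_lit 493858305440582043680)) (.cons (.rf (nat_lit 3862) (nat_lit 493858305440582043680)) (.cons (.br (nat_lit 11) (nat_lit 1) (.cons (.br (nat_lit 9) (nat_lit 1) (.cons (.ev (nat_lit 79229376180969519334616531200) (nat_lit 1)) .nil)) (.cons (.br (nat_lit 1) (nat_lit 1) (.cons (.ev (nat_lit 79229376180969519334616531200) (nat_lit 1)) .nil)) (.cons (.zr (nat_lit 55340232221162405888) (nat_lit 40564820416229160745102460583937) (nat_lit 5) (nat_lit 0)) .nil)))) .nil)))),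
 (.br (nat_lit 12) (nat_lit 1) (.cons (.rf (nat_lit 3861) (nat_lit 493858305440582043680)) (.cons (.rf (nat_lit 3862) (nat_lit 493858305440582043680)) (.cons (.rf (nat_lit 3863) (nat_lit 493858305440582043680)) (.cons (.br (nat_lit 12) (nat_lit 1) (.cons (.rf (nat_lit 3861) (nat_lit 493858305440582043680)) (.cons (.rf (nat_lit 3862) (nat_lit 493858305440582043680)) (.cons (.rf (nat_lit 3863) (nat_lit 493858305440582043680)) .nil)))) .nil))))),
 (.br (nat_lit 12) (nat_lit 1) (.cons (.rf (nat_lit 3861) (nat_lit 493858305440582043680)) (.cons (.rf (nat_lit 3864) (nat_lit 493858305440582043680)) (.cons (.br (nat_lit 12) (nat_lit 1) (.cons (.rf (nat_lit 3861) (nat_lit 493858305440582043680)) (.cons (.rf (nat_lit 3864) (nat_lit 493858305440582043680)) (.cons (.ev (nat_lit 79229371440156291296028262401) (nat_lit 1)) .nil)))) (.cons (.br (nat_lit 12) (nat_lit 1) (.cons (.rf (nat_lit 3861) (nat_lit 493858305440582043680)) (.cons (.rf (nat_lit 3864) (nat_lit 493858305440582043680)) (.cons (.ev (nat_lit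 79229371440156291296028262401) (nat_lit 1)) .nil)))) .nil))))),
 (.br (nat_lit 12) (nat_lit 1) (.cons (.rf (nat_lit 3861) (nat_lit 493858305440582043680)) (.cons (.rf (nat_lit 3864) (nat_lit 493858305440582043680)) (.cons (.rf (nat_lit 3865) (nat_lit 493858305440582043680)) (.cons (.br (nat_lit 12) (nat_lit 1) (.cons (.ev (nat_lit 79228162532711082771076874241) (nat_lit 1)) (.cons (.rf (nat_lit 3864) (nat_lit 493858305440582043680)) (.cons (.ev (nat_lit 79229371440156291296028262401) (nat_lit 1)) .nil)))) .nil))))),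
 (.br (nat_lit 8) (nat_lit 1) (.cons (.rf (nat_lit 3815) (nat_lit 493858305440582043680)) (.cons (.rf (nat_lit 3842) (nat_lit 493858305440582043680)) (.cons (.rf (nat_lit 3847) (nat_lit 493858305440582043680)) (.cons (.br (nat_lit 13) (nat_lit 1) (.cons (.rf (nat_lit 3851) (nat_lit 493858305440582043680)) (.cons (.rf (nat_lit 3855) (nat_lit 493858305440582043680)) (.cons (.rf (nat_lit 3856) (nat_lit 493858305440582043680)) (.cons (.rf (nat_lit 3857) (nat_lit 493858305440582043680)) (.cons (.br (nat_lit 13) (nat_lit 1) (.cons (.rf (nat_lit 3851) (nat_lit 493858305440582043680)) (.cons (.rf (nat_lit 3855) (nat_lit 493858305440582043680)) (.cons (.rf (nat_lit 3856) (nat_lit 493858305440582043680)) (.cons (.rf (nat_lit 3857) (nat_lit 493858305440582043680)) .nil))))) .nil)))))) (.cons (.br (nat_lit 12) (nat_lit 1) (.cons (.rf (nat_lit 3861) (nat_lit 493858305440582043680)) (.cons (.rf (nat_lit 3864) (nat_lit 493858305440582043680)) (.cons (.rf (nat_lit 3865) (nat_lit 493858305440582043680)) (.cons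 (.rf (nat_lit 3866) (nat_lit 493858305440582043680)) (.cons (.br (nat_lit 12) (nat_lit 1) (.cons (.rf (nat_lit 3861) (nat_lit 493858305440582043680)) (.cons (.rf (nat_lit 3864) (nat_lit 493858305440582043680)) (.cons (.rf (nat_lit 3865) (nat_lit 493858305440582043680)) (.cons (.rf (nat_lit 3866) (nat_lit 493858305440582043680)) .nil))))) .nil)))))) .nil)))))),
 (.br (nat_lit 9) (nat_lit 1) (.cons (.ev (nat_lit 620193167974889818975043840) (nat_lit 2)) (.cons (.br (nat_lit 11) (nat_lit 1) (.cons (.rf (nat_lit 84) (nat_lit 9004419111)) (.cons (.br (nat_lit 12) (nat_lit 1) (.cons (.zr (nat_lit 928469196779660995270279936) (nat_lit 158457533954348571295601721345) (nat_lit 5) (nat_lit 6)) .nil)) .nil))) (.cons (.br (nat_lit 11) (nat_lit 1) (.cons (.br (nat_lit 12) (nat_lit 1) (.cons (.zr (nat_lit 55340233320640348672) (nat_lit 158457533954348571295534284801) (nat_lit 5) (nat_lit 0)) .nil)) (.cons (.rf (nat_lit 84) (nat_lit 9037973543)) .nil))) .nil)))),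
 (.br (nat_lit 2) (nat_lit 1) (.cons (.ev (nat_lit 620193167974889818975043840) (nat_lit 2)) (.cons (.br (nat_lit 11) (nat_lit 1) (.cons (.ev (nat_lit 80160258506733972324186456834) (nat_lit 2)) (.cons (.br (nat_lit 12) (nat_lit 1) (.cons (.ev (nat_lit 20678862323936451906711666884868) (nat_lit 3)) .nil)) .nil))) (.cons (.br (nat_lit 11) (nat_lit 1) (.cons (.br (nat_lit 12) (nat_lit 1) (.cons (.ev (nat_lit 21790559170252172866058595668744) (nat_lit 5)) .nil)) (.cons (.rf (nat_lit 84) (nat_lit 9037751335)) .nil))) .nil)))),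
 (.br (nat_lit 11) (nat_lit 1) (.cons (.rf (nat_lit 3868) (nat_lit 493858305440582043680)) (.cons (.rf (nat_lit 3869) (nat_lit 493858305440582043680)) (.cons (.br (nat_lit 13) (nat_lit 1) (.cons (.br (nat_lit 9) (nat_lit 1) (.cons (.ev (nat_lit 20680719233995235861927282804486) (nat_lit 3)) .nil)) (.cons (.ev (nat_lit 310708158081487151950725121) (nat_lit 2)) (.cons (.zr (nat_lit 20282409603707010658367403197184) (nat_lit 237685696468612908889095012353) (nat_lit 5) (nat_lit 0)) .nil)))) .nil)))),
 (.br (nat_lit 11) (nat_lit 1) (.cons (.rf (nat_lit 3868) (nat_lit 493858305440582043680)) (.cons (.rf (nat_lit 3869) (nat_lit 493858305440582043680)) (.cons (.rf (nat_lit 3870) (nat_lit 493858305440582043680)) (.cons (.br (nat_lit 11) (nat_lit 1) (.cons (.rf (nat_lit 3868) (nat_lit 493858305440582043680)) (.cons (.rf (nat_lit 3869) (nat_lit 493858305440582043680)) (.cons (.rf (nat_lit 3870) (nat_lit 493858305440582043680)) .nil)))) .nil))))),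
 (.br (nat_lit 1) (nat_lit 1) (.cons (.ev (nat_lit 620193167974889818975043840) (nat_lit 2)) (.cons (.br (nat_lit 11) (nat_lit 1) (.cons (.rf (nat_lit 84) (nat_lit 9004164167)) (.cons (.br (nat_lit 12) (nat_lit 1) (.cons (.zr (nat_lit 928455029680208005484773376) (nat_lit 158457543399081538130041373185) (nat_lit 5) (nat_lit 6)) .nil)) .nil))) (.cons (.br (nat_lit 11) (nat_lit 1) (.cons (.br (nat_lit 12) (nat_lit 1) (.cons (.ev (nat_lit 20680100282864914992486974554368) (nat_lit 3)) .nil)) (.cons (.ev (nat_lit 20283339272347911417026461237760) (nat_lit 2)) .nil))) .nil)))),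
 (.br (nat_lit 7) (nat_lit 1) (.cons (.kr (nat_lit 309485009821345068741558272) (nat_lit 1208925891672223212634112) (nat_lit 3) (nat_lit 0)) .nil)),
 (.br (nat_lit 11) (nat_lit 1) (.cons (.rf (nat_lit 3871) (nat_lit 493858305440582043680)) (.cons (.rf (nat_lit 3872) (nat_lit 493858305440582043680)) (.cons (.br (nat_lit 12) (nat_lit 1) (.cons (.rf (nat_lit 3873) (nat_lit 482283501405736001)) (.cons (.ev (nat_lit 158769441538320308825011388416) (nat_lit 2)) (.cons (.zr (nat_lit 55340232221162405888) (nat_lit 40564820416229160745102460583937) (nat_lit 5) (nat_lit 0)) .nil)))) .nil)))),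
 (.br (nat_lit 11) (nat_lit 1) (.cons (.rf (nat_lit 3871) (nat_lit 493858305440582043680)) (.cons (.rf (nat_lit 3872) (nat_lit 493858305440582043680)) (.cons (.rf (nat_lit 3874) (nat_lit 493858305440582043680)) (.cons (.br (nat_lit 11) (nat_lit 1) (.cons (.rf (nat_lit 3871) (nat_lit 493858305440582043680)) (.cons (.rf (nat_lit 3872) (nat_lit 493858305440582043680)) (.cons (.rf (nat_lit 3874) (nat_lit 493858305440582043680)) .nil)))) .nil))))),
 (.br (nat_lit 11) (nat_lit 1) (.cons (.rf (nat_lit 3871) (nat_lit 493858305440582043680)) (.cons (.rf (nat_lit 3875) (nat_lit 493858305440582043680)) (.cons (.br (nat_lit 12) (nat_lit 1) (.cons (.br (nat_lit 2) (nat_lit 1) (.cons (.ev (nat_lit 21313309030701212145701884462850) (nat_lit 4)) .nil)) (.cons (.br (nat_lit 1) (nat_lit 1) (.cons (.ev (nat_lit 20683207203442540813452995135242) (nat_lit 4)) .nil)) (.cons (.ev (nat_lit 20520716692769488143412191297538) (nat_lit 2)) .nil)))) .nil)))),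
 (.br (nat_lit 11) (nat_lit 1) (.cons (.rf (nat_lit 3871) (nat_lit 493858305440582043680)) (.cons (.rf (nat_lit 3875) (nat_lit 493858305440582043680)) (.cons (.rf (nat_lit 3876) (nat_lit 493858305440582043680)) (.cons (.br (nat_lit 11) (nat_lit 1) (.cons (.rf (nat_lit 3871) (nat_lit 493858305440582043680)) (.cons (.rf (nat_lit 3875) (nat_lit 493858305440582043680)) (.cons (.rf (nat_lit 3876) (nat_lit 493858305440582043680)) .nil)))) .nil))))),
 (.br (nat_lit 11) (nat_lit 1) (.cons (.rf (nat_lit 3871) (nat_lit 493858305440582043680)) (.cons (.rf (nat_lit 3875) (nat_lit 493858305440582043680)) (.cons (.rf (nat_lit 3877) (nat_lit 493858305440582043680)) (.cons (.br (nat_lit 11) (nat_lit 1) (.cons (.rf (nat_lit 3871) (nat_lit 493858305440582043680)) (.cons (.rf (nat_lit 3875) (nat_lit 493858305440582043680)) (.cons (.rf (nat_lit 3877) (nat_lit 493858305440582043680)) .nil)))) .nil))))),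
 (.br (nat_lit 8) (nat_lit 1) (.cons (.rf (nat_lit 3815) (nat_lit 493858305440582043680)) (.cons (.rf (nat_lit 3842) (nat_lit 493858305440582043680)) (.cons (.rf (nat_lit 3847) (nat_lit 493858305440582043680)) (.cons (.rf (nat_lit 3867) (nat_lit 493858305440582043680)) (.cons (.br (nat_lit 11) (nat_lit 1) (.cons (.rf (nat_lit 3871) (nat_lit 493858305440582043680)) (.cons (.rf (nat_lit 3875) (nat_lit 493858305440582043680)) (.cons (.rf (nat_lit 3877) (nat_lit 493858305440582043680)) (.cons (.rf (nat_lit 3878) (nat_lit 493858305440582043680)) (.cons (.br (nat_lit 11) (nat_lit 1) (.cons (.rf (nat_lit 3871) (nat_lit 493858305440582043680)) (.cons (.rf (nat_lit 3875) (nat_lit 493858305440582043680)) (.cons (.rf (nat_lit 3877) (nat_lit 493858305440582043680)) (.cons (.rf (nat_lit 3878) (nat_lit 493858305440582043680)) .nil))))) .nil)))))) .nil)))))),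
 (.br (nat_lit 8) (nat_lit 1) (.cons (.rf (nat_lit 3815) (nat_lit 493858305440582043680)) (.cons (.rf (nat_lit 3842) (nat_lit 493858305440582043680)) (.cons (.rf (nat_lit 3847) (nat_lit 493858305440582043680)) (.cons (.rf (nat_lit 3867) (nat_lit 493858305440582043680)) (.cons (.rf (nat_lit 3879) (nat_lit 493858305440582043680)) (.cons (.br (nat_lit 8) (nat_lit 1) (.cons (.ev (nat_lit 1208944338416296938963201) (nat_lit 1)) (.cons (.rf (nat_lit 3842) (nat_lit 493858305440582043680)) (.cons (.rf (nat_lit 3847) (nat_lit 493858305440582043680)) (.cons (.rf (nat_lit 3867) (nat_lit 493858305440582043680)) (.cons (.rf (nat_lit 3879) (nat_lit 493858305440582043680)) .nil)))))) .nil))))))),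
 (.br (nat_lit 11) (nat_lit 1) (.cons (.ev (nat_lit 309485028340146736472326401) (nat_lit 1)) .nil)),
 (.br (nat_lit 2) (nat_lit 1) (.cons (.rf (nat_lit 31) (nat_lit 342958273)) (.cons (.rf (nat_lit 31) (nat_lit 376512705)) (.cons (.br (nat_lit 10) (nat_lit 1) (.cons (.rf (nat_lit 3881) (nat_lit 14242959524133701664)) (.cons (.br (nat_lit 10) (nat_lit 1) (.cons (.rf (nat_lit 3881) (nat_lit 14242959524133701664)) .nil)) .nil))) .nil)))),
 (.br (nat_lit 11) (nat_lit 1) (.cons (.ev (nat_lit 79847146738116137269462172161) (nat_lit 2)) .nil)),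
 (.br (nat_lit 12) (nat_lit 1) (.cons (.rf (nat_lit 84) (nat_lit 14239964225)) (.cons (.br (nat_lit 11) (nat_lit 1) (.cons (.ev (nat_lit 309489732260167007401410816) (nat_lit 1)) .nil)) (.cons (.rf (nat_lit 84) (nat_lit 9038765129)) .nil)))),
 (.br (nat_lit 2) (nat_lit 1) (.cons (.ev (nat_lit 1208925891672223229411584) (nat_lit 1)) (.cons (.br (nat_lit 7) (nat_lit 1) (.cons (.rf (nat_lit 84) (nat_lit 14238915649)) (.cons (.br (nat_lit 11) (nat_lit 1) (.cons (.ev (nat_lit 310693954159761365646966784) (nat_lit 1)) (.cons (.ev (nat_lit 310708139778858274873540610) (nat_lit 2)) .nil))) (.cons (.ev (nat_lit 4740885566012369403904) (nat_lit 1)) .nil)))) (.cons (.br (nat_lit 7) (nat_lit 1) (.cons (.br (nat_lit 11) (nat_lit 1) (.cons (.br (nat_lit 12) (nat_lit 1) (.cons (.ev (nat_lit 20679481303326608242928397649158) (nat_lit 3)) .nil)) (.cons (.ev (nat_lit 20282719093402377054657192198400) (nat_lit 1)) .nil))) (.cons (.rf (nat_lit 3884) (nat_lit 493858305440582043680)) (.cons (.ev (nat_lit 4740885566012369403904)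 (nat_lit 1)) .nil)))) (.cons (.rf (nat_lit 2594) (nat_lit 14337449025)) .nil))))),
 (.br (nat_lit 1) (nat_lit 1) (.cons (.rf (nat_lit 31) (nat_lit 444671201)) (.cons (.br (nat_lit 7) (nat_lit 1) (.cons (.rf (nat_lit 84) (nat_lit 14238915618)) (.cons (.br (nat_lit 11) (nat_lit 1) (.cons (.ev (nat_lit 309489750634853491351290113) (nat_lit 1)) (.cons (.zr (nat_lit 20282409603651742763016316321792) (nat_lit 2422574005712132289593856) (nat_lit 5) (nat_lit 6)) .nil))) (.cons (.ev (nat_lit 4740885566012369403904) (nat_lit 1)) .nil)))) (.cons (.br (nat_lit 7) (nat_lit 1) (.cons (.br (nat_lit 11) (nat_lit 1) (.cons (.br (nat_lit 12) (nat_lit 1) (.cons (.zr (nat_lit 928455029464035210536615936) (nat_lit 158457543399081538130041373185) (nat_lit 5) (nat_lit 6)) .nil)) (.cons (.ev (nat_lit 20282720297605758410293365440513) (nat_lit 1)) .nil))) (.cons (.br (nat_lit 12) (nat_lit 1) (.cons (.br (nat_lit 11) (nat_lit 1) (.cons (.zr (nat_lit 475678488429606267847910490368) (nat_lit 2417943873514810233585666)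 (nat_lit 10) (nat_lit 10)) .nil)) (.cons (.ev (nat_lit 20361637766184381787089498341376) (nat_lit 1)) .nil))) (.cons (.ev (nat_lit 4740885566012369403904) (nat_lit 1)) .nil)))) (.cons (.rf (nat_lit 2594) (nat_lit 14337449025)) .nil))))),
 (.br (nat_lit 10) (nat_lit 1) (.cons (.ev (nat_lit 309485009893684142034452481) (nat_lit 1)) .nil))]

theorem c132 : chkAll C T R L132 (nat_lit 3860) = true := by decide +kernel

theorem l132 : (nat_lit 3860) + L132.length = (nat_lit 3888) := by decide +kernel

/-- part of the certificates -/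
def L133 : List Prf := [(.br (nat_lit 13) (nat_lit 1) (.cons (.rf (nat_lit 3885) (nat_lit 493858305440582043680)) (.cons (.rf (nat_lit 3886) (nat_lit 493858305440582043680)) (.cons (.ev (nat_lit 4740885566012369403904) (nat_lit 1)) (.cons (.br (nat_lit 2) (nat_lit 1) (.cons (.ev (nat_lit 40564820430414706936689939579650) (nat_lit 2)) (.cons (.zr (nat_lit 55556405011832373248) (nat_lit 40564820416229160745098182393857) (nat_lit 5) (nat_lit 0)) (.cons (.br (nat_lit 7) (nat_lit 1) (.cons (.ev (nat_lit 315534398612018469991088132) (nat_lit 3)) (.cons (.ev (nat_lit 310708139778858274873540610) (nat_lit 2)) .nil))) (.cons (.br (nat_lit 1) (nat_lit 1) (.cons (.rf (nat_lit 3887) (nat_lit 15433072045018187808)) (.cons (.ev (nat_lit 309489750634853491351290113) (nat_lit 1)) (.cons (.br (nat_lit 7) (nat_lit 1) (.cons (.ev (nat_lit 79228162532783140360803123201) (nat_lit 1)) .nil)) .nil)))) .nil))))) .nil))))),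
 (.br (nat_lit 8) (nat_lit 1) (.cons (.rf (nat_lit 3815) (nat_lit 493858305440582043680)) (.cons (.rf (nat_lit 3842) (nat_lit 493858305440582043680)) (.cons (.rf (nat_lit 3880) (nat_lit 493858305440582043680)) (.cons (.br (nat_lit 7) (nat_lit 1) (.cons (.rf (nat_lit 3882) (nat_lit 445092485094541344)) (.cons (.rf (nat_lit 2505) (nat_lit 15433072039647386656)) (.cons (.br (nat_lit 1) (nat_lit 1) (.cons (.rf (nat_lit 31) (nat_lit 377726017)) (.cons (.rf (nat_lit 2594) (nat_lit 12223514849)) (.cons (.br (nat_lit 2) (nat_lit 1) (.cons (.rf (nat_lit 84) (nat_lit 13165173825)) (.cons (.rf (nat_lit 84) (nat_lit 12092475431)) (.cons (.br (nat_lit 13) (nat_lit 1) (.cons (.rf (nat_lit 2845) (nat_lit 482280169551301697)) (.cons (.rf (nat_lit 2845) (nat_lit 481182856879737927)) .nil))) .nil)))) (.cons (.br (nat_lit 2) (nat_lit 1) (.cons (.rf (nat_lit 84) (nat_lit 14238915649)) (.cons (.br (nat_lit 11) (nat_lit 1) (.cons (.ev (nat_lit 79538856468352322840129765633) (nat_lit 1)) (.cons (.rf (nat_lit 3883)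 (nat_lit 15433072044983552032)) .nil))) (.cons (.rf (nat_lit 2336) (nat_lit 481087191916878880)) .nil)))) .nil))))) (.cons (.ev (nat_lit 4740885566012369403904) (nat_lit 1)) (.cons (.br (nat_lit 1) (nat_lit 1) (.cons (.ev (nat_lit 1208925891672223229411584) (nat_lit 1)) (.cons (.br (nat_lit 2) (nat_lit 1) (.cons (.rf (nat_lit 84) (nat_lit 14238910503)) (.cons (.br (nat_lit 11) (nat_lit 1) (.cons (.ev (nat_lit 309489750634853491351290113) (nat_lit 1)) (.cons (.br (nat_lit 12) (nat_lit 1) (.cons (.ev (nat_lit 158768227890205985259147952385) (nat_lit 2)) .nil)) .nil))) (.cons (.br (nat_lit 11) (nat_lit 1) (.cons (.br (nat_lit 12) (nat_lit 1) (.cons (.ev (nat_lit 158765819520192646937521095425) (nat_lit 2)) .nil)) (.cons (.ev (nat_lit 309489750634853491351290113) (nat_lit 1)) .nil))) .nil)))) (.cons (.br (nat_lit 2) (nat_lit 1) (.cons (.br (nat_lit 11) (nat_lit 1) (.cons (.ev (nat_lit 310693954159761365646966784) (nat_lit 1)) (.cons (.ev (nat_lit 310708139778858274873540610) (nat_lit 2)) .nil)))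 (.cons (.rf (nat_lit 84) (nat_lit 14239959079)) (.cons (.rf (nat_lit 3884) (nat_lit 458117738797769787424)) .nil)))) (.cons (.br (nat_lit 2) (nat_lit 1) (.cons (.rf (nat_lit 3845) (nat_lit 9441507865200938)) (.cons (.br (nat_lit 12) (nat_lit 1) (.cons (.br (nat_lit 11) (nat_lit 1) (.cons (.ev (nat_lit 475678479114001073600343574278) (nat_lit 3)) .nil)) (.cons (.ev (nat_lit 20361637766184381787089498341376) (nat_lit 1)) .nil))) (.cons (.rf (nat_lit 58) (nat_lit 13862953)) .nil)))) .nil))))) .nil)))))) (.cons (.br (nat_lit 13) (nat_lit 1) (.cons (.rf (nat_lit 3885) (nat_lit 493858305440582043680)) (.cons (.rf (nat_lit 3886) (nat_lit 493858305440582043680)) (.cons (.ev (nat_lit 4740885566012369403904) (nat_lit 1)) (.cons (.rf (nat_lit 3888) (nat_lit 493858305440582043680)) (.cons (.br (nat_lit 13) (nat_lit 1) (.cons (.rf (nat_lit 3885) (nat_lit 493858305440582043680)) (.cons (.rf (nat_lit 3886) (nat_lit 493858305440582043680)) (.cons (.ev (nat_lit 4740885566012369403904) (nat_lit 1)) (.cons (.rf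 (nat_lit 3888) (nat_lit 493858305440582043680)) .nil))))) .nil)))))) .nil)))))),
 (.br (nat_lit 7) (nat_lit 1) (.cons (.ev (nat_lit 309485009821627643229896704) (nat_lit 1)) (.cons (.rf (nat_lit 3723) (nat_lit 15071359418959904)) (.cons (.br (nat_lit 13) (nat_lit 1) (.cons (.ev (nat_lit 20282409613096620407993114165761) (nat_lit 2)) (.cons (.ev (nat_lit 20282409608392483651990134456321) (nat_lit 1)) .nil))) .nil)))),
 (.br (nat_lit 11) (nat_lit 1) (.cons (.ev (nat_lit 309485009821627643229896704) (nat_lit 1)) (.cons (.ev (nat_lit 310698676454187740765880576) (nat_lit 1)) (.cons (.br (nat_lit 2) (nat_lit 1) (.cons (.br (nat_lit 12) (nat_lit 1) (.cons (.ev (nat_lit 21158578615158981635713297220872) (nat_lit 4)) .nil)) (.cons (.zr (nat_lit 258903498328263364359) (nat_lit 324521658203543329568583556530176) (nat_lit 65) (nat_lit 0)) .nil))) .nil)))),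
 (.br (nat_lit 11) (nat_lit 1) (.cons (.rf (nat_lit 3890) (nat_lit 493858305440582043680)) (.cons (.ev (nat_lit 310698676454187740765880576) (nat_lit 1)) (.cons (.br (nat_lit 2) (nat_lit 1) (.cons (.br (nat_lit 12) (nat_lit 1) (.cons (.ev (nat_lit 79228167255077564536898781441) (nat_lit 1)) .nil)) (.cons (.br (nat_lit 7) (nat_lit 1) (.cons (.ev (nat_lit 20837316249928732079647053251328) (nat_lit 3)) .nil)) (.cons (.br (nat_lit 7) (nat_lit 1) (.cons (.ev (nat_lit 79228167255077564536898781441) (nat_lit 1)) .nil)) .nil)))) .nil)))),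
 (.br (nat_lit 8) (nat_lit 1) (.cons (.ev (nat_lit 1208944266358707179225089) (nat_lit 1)) .nil)),
 (.br (nat_lit 11) (nat_lit 1) (.cons (.ev (nat_lit 79228167255077564536898781441) (nat_lit 1)) (.cons (.rf (nat_lit 3893) (nat_lit 15071359418959904)) .nil))),
 (.br (nat_lit 8) (nat_lit 1) (.cons (.rf (nat_lit 3815) (nat_lit 493858305440582043680)) (.cons (.rf (nat_lit 3842) (nat_lit 493858305440582043680)) (.cons (.rf (nat_lit 3880) (nat_lit 493858305440582043680)) (.cons (.rf (nat_lit 3889) (nat_lit 493858305440582043680)) (.cons (.br (nat_lit 1) (nat_lit 1) (.cons (.ev (nat_lit 1208944266358707179290881) (nat_lit 1)) (.cons (.rf (nat_lit 3882) (nat_lit 447344284908226592)) (.cons (.br (nat_lit 11) (nat_lit 1) (.cons (.rf (nat_lit 3890) (nat_lit 493858305440582043680)) (.cons (.rf (nat_lit 3891) (nat_lit 493858305440582043680)) (.cons (.rf (nat_lit 3892) (nat_lit 493858305440582043680)) (.cons (.br (nat_lit 11) (nat_lit 1) (.cons (.rf (nat_lit 3890) (nat_lit 493858305440582043680)) (.cons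 (.rf (nat_lit 3891) (nat_lit 493858305440582043680)) (.cons (.rf (nat_lit 3892) (nat_lit 493858305440582043680)) .nil)))) .nil))))) (.cons (.br (nat_lit 2) (nat_lit 1) (.cons (.rf (nat_lit 31) (nat_lit 411084002)) (.cons (.br (nat_lit 7) (nat_lit 1) (.cons (.br (nat_lit 11) (nat_lit 1) (.cons (.ev (nat_lit 309499176921357731420504577) (nat_lit 2)) (.cons (.ev (nat_lit 309485028340429315255631873) (nat_lit 1)) .nil))) (.cons (.ev (nat_lit 79228167236702878061538836736) (nat_lit 1)) (.cons (.br (nat_lit 12) (nat_lit 1) (.cons (.br (nat_lit 11) (nat_lit 1) (.cons (.ev (nat_lit 20838556598375068401553270702338) (nat_lit 3)) .nil)) (.cons (.ev (nat_lit 20282409608392483651990134456321) (nat_lit 1)) .nil))) .nil)))) (.cons (.rf (nat_lit 2594) (nat_lit 13330816065)) (.cons (.br (nat_lit 7) (nat_lit 1) (.cons (.br (nat_lit 12) (nat_lit 1) (.cons (.br (nat_lit 11) (nat_lit 1) (.cons (.zr (nat_lit 3404363442233696272429154563) (nat_lit 316921112630030343484668379136) (nat_lit 10) (nat_lit 6)) .nil))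 (.cons (.ev (nat_lit 20361638975110201121347502866433) (nat_lit 1)) .nil))) (.cons (.ev (nat_lit 79228167236702878061538836736) (nat_lit 1)) (.cons (.rf (nat_lit 84) (nat_lit 13167270977)) .nil)))) .nil))))) (.cons (.br (nat_lit 2) (nat_lit 1) (.cons (.ev (nat_lit 1208925891672223229411584) (nat_lit 1)) (.cons (.br (nat_lit 7) (nat_lit 1) (.cons (.br (nat_lit 11) (nat_lit 1) (.cons (.br (nat_lit 12) (nat_lit 1) (.cons (.ev (nat_lit 21157950002030522032743393462532) (nat_lit 4)) .nil)) (.cons (.ev (nat_lit 309485028340429315255631873) (nat_lit 1)) .nil))) (.cons (.rf (nat_lit 3894) (nat_lit 493858305440582043680)) (.cons (.rf (nat_lit 84) (nat_lit 12093529122)) .nil)))) (.cons (.br (nat_lit 7) (nat_lit 1) (.cons (.br (nat_lit 12) (nat_lit 1) (.cons (.br (nat_lit 11) (nat_lit 1) (.cons (.ev (nat_lit 20838559025745081773214381836036) (nat_lit 3)) .nil)) (.cons (.ev (nat_lit 20361638975110201121347502866433) (nat_lit 1)) .nil))) (.cons (.zr (nat_lit 4722438543775102926849) (nat_lit 158456325028528675187155140608)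 (nat_lit 5) (nat_lit 5)) (.cons (.ev (nat_lit 20282409608374108965514741088256) (nat_lit 1)) .nil)))) (.cons (.rf (nat_lit 2594) (nat_lit 14371003457)) .nil))))) .nil)))))) .nil)))))),
 (.br (nat_lit 8) (nat_lit 1) (.cons (.rf (nat_lit 3815) (nat_lit 493858305440582043680)) (.cons (.rf (nat_lit 3842) (nat_lit 493858305440582043680)) (.cons (.rf (nat_lit 3880) (nat_lit 493858305440582043680)) (.cons (.rf (nat_lit 3889) (nat_lit 493858305440582043680)) (.cons (.rf (nat_lit 3895) (nat_lit 493858305440582043680)) (.cons (.br (nat_lit 8) (nat_lit 1) (.cons (.rf (nat_lit 3815) (nat_lit 493858305440582043680)) (.cons (.rf (nat_lit 3842) (nat_lit 493858305440582043680)) (.cons (.rf (nat_lit 3880) (nat_lit 493858305440582043680)) (.cons (.rf (nat_lit 3889) (nat_lit 493858305440582043680)) (.cons (.rf (nat_lit 3895) (nat_lit 493858305440582043680)) .nil)))))) .nil))))))),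
 (.br (nat_lit 11) (nat_lit 1) (.cons (.br (nat_lit 12) (nat_lit 1) (.cons (.ev (nat_lit 20837940055651507991585495516418) (nat_lit 3)) .nil)) (.cons (.br (nat_lit 9) (nat_lit 1) (.cons (.ev (nat_lit 21313932874312882069686851143942) (nat_lit 4)) .nil)) (.cons (.zr (nat_lit 60847228810955011271841787609088) (nat_lit 1208962713385355377115137) (nat_lit 5) (nat_lit 10)) .nil)))),
 (.br (nat_lit 13) (nat_lit 1) (.cons (.rf (nat_lit 3897) (nat_lit 493858305440582043680)) (.cons (.br (nat_lit 7) (nat_lit 1) (.cons (.ev (nat_lit 21313313904293383494746067240712) (nat_lit 4)) .nil)) (.cons (.ev (nat_lit 20282410817318303546999069278208) (nat_lit 1)) .nil)))),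
 (.br (nat_lit 13) (nat_lit 1) (.cons (.zr (nat_lit 60847228810955011271841787609088) (nat_lit 1208962713385355377115137) (nat_lit 5) (nat_lit 10)) (.cons (.rf (nat_lit 3898) (nat_lit 493858305440582043680)) (.cons (.br (nat_lit 7) (nat_lit 1) (.cons (.ev (nat_lit 20837321085632009416644711613188) (nat_lit 3)) .nil)) .nil)))),
 (.br (nat_lit 13) (nat_lit 1) (.cons (.rf (nat_lit 3897) (nat_lit 493858305440582043680)) (.cons (.rf (nat_lit 3898) (nat_lit 493858305440582043680)) (.cons (.rf (nat_lit 3899) (nat_lit 493858305440582043680)) (.cons (.br (nat_lit 13) (nat_lit 1) (.cons (.rf (nat_lit 3897) (nat_lit 493858305440582043680)) (.cons (.ev (nat_lit 20282410817318303546999069278208) (nat_lit 1)) (.cons (.rf (nat_lit 3899) (nat_lit 493858305440582043680)) .nil)))) .nil))))),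
 (.br (nat_lit 2) (nat_lit 1) (.cons (.br (nat_lit 11) (nat_lit 1) (.cons (.ev (nat_lit 79538861190718806813598285825) (nat_lit 1)) (.cons (.br (nat_lit 12) (nat_lit 1) (.cons (.ev (nat_lit 80159035432405486881457832450) (nat_lit 2)) .nil)) .nil))) (.cons (.br (nat_lit 12) (nat_lit 1) (.cons (.ev (nat_lit 310698676526245339115618560) (nat_lit 1)) (.cons (.zr (nat_lit 237684487542793013880143544832) (nat_lit 1208962713384255865487361) (nat_lit 5) (nat_lit 4)) .nil))) (.cons (.rf (nat_lit 3900) (nat_lit 493858305440582043680)) (.cons (.br (nat_lit 9) (nat_lit 1) (.cons (.br (nat_lit 12) (nat_lit 1) (.cons (.ev (nat_lit 21313932874313170300080115353862) (nat_lit 4)) .nil)) (.cons (.br (nat_lit 11) (nat_lit 1) (.cons (.ev (nat_lit 158768227890061870062448476417) (nat_lit 2)) .nil)) (.cons (.br (nat_lit 11) (nat_lit 1) (.cons (.ev (nat_lit 20363190060067479896777392849668) (nat_lit 3)) .nil)) .nil)))) .nil))))),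
 (.br (nat_lit 12) (nat_lit 1) (.cons (.rf (nat_lit 3900) (nat_lit 493858305440582043680)) (.cons (.rf (nat_lit 3901) (nat_lit 493858305440582043680)) (.cons (.ev (nat_lit 79229376180897461744856727808) (nat_lit 1)) (.cons (.br (nat_lit 7) (nat_lit 1) (.cons (.br (nat_lit 11) (nat_lit 1) (.cons (.zr (nat_lit 238612956739572669377855619840) (nat_lit 1209018053617576572878849) (nat_lit 5) (nat_lit 10)) .nil)) (.cons (.ev (nat_lit 79229371440156291296028262401) (nat_lit 1)) (.cons (.br (nat_lit 2) (nat_lit 1) (.cons (.zr (nat_lit 4814672264130799337731) (nat_lit 318153007947982522865967693824) (nat_lit 10) (nat_lit 0)) .nil)) .nil)))) .nil))))),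
 (.br (nat_lit 12) (nat_lit 1) (.cons (.rf (nat_lit 3900) (nat_lit 493858305440582043680)) (.cons (.rf (nat_lit 3901) (nat_lit 493858305440582043680)) (.cons (.ev (nat_lit 79229376180897461744856727808) (nat_lit 1)) (.cons (.br (nat_lit 9) (nat_lit 1) (.cons (.ev (nat_lit 79538856449905578766420214016) (nat_lit 1)) (.cons (.ev (nat_lit 79229371440156291296028262401) (nat_lit 1)) (.cons (.ev (nat_lit 20282720297587311666219655888896) (nat_lit 1)) .nil)))) .nil))))),
 (.br (nat_lit 12) (nat_lit 1) (.cons (.rf (nat_lit 3900) (nat_lit 493858305440582043680)) (.cons (.rf (nat_lit 3901) (nat_lit 493858305440582043680)) (.cons (.rf (nat_lit 3902) (nat_lit 493858305440582043680)) (.cons (.rf (nat_lit 3903) (nat_lit 493858305440582043680)) (.cons (.br (nat_lit 12) (nat_lit 1) (.cons (.rf (nat_lit 3900) (nat_lit 493858305440582043680)) (.cons (.rf (nat_lit 3901) (nat_lit 493858305440582043680)) (.cons (.rf (nat_lit 3902) (nat_lit 493858305440582043680)) (.cons (.rf (nat_lit 3903) (nat_lit 493858305440582043680))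 .nil))))) .nil)))))),
 (.br (nat_lit 1) (nat_lit 1) (.cons (.br (nat_lit 9) (nat_lit 1) (.cons (.rf (nat_lit 29) (nat_lit 11831521)) (.cons (.br (nat_lit 11) (nat_lit 1) (.cons (.rf (nat_lit 31) (nat_lit 414484705)) (.cons (.br (nat_lit 12) (nat_lit 1) (.cons (.ev (nat_lit 79538856468352322840129765633) (nat_lit 1)) .nil)) .nil))) (.cons (.br (nat_lit 11) (nat_lit 1) (.cons (.br (nat_lit 12) (nat_lit 1) (.cons (.ev (nat_lit 20679483711770696787903700600578) (nat_lit 3)) .nil)) (.cons (.ev (nat_lit 20282410817318303546999069278208) (nat_lit 1)) .nil))) .nil)))) (.cons (.br (nat_lit 7) (nat_lit 1) (.cons (.rf (nat_lit 29) (nat_lit 11766049)) (.cons (.br (nat_lit 11) (nat_lit 1) (.cons (.ev (nat_lit 79538861190718806813598285825) (nat_lit 1)) (.cons (.br (nat_lit 12) (nat_lit 1) (.cons (.ev (nat_lit 79538856468352322840129765633) (nat_lit 1)) .nil)) .nil))) (.cons (.br (nat_lit 13) (nat_lit 1) (.cons (.rf (nat_lit 31) (nat_lit 447973665)) (.cons (.zr (nat_lit 60847228810955011271841787609088)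 (nat_lit 1208962713385355377115137) (nat_lit 5) (nat_lit 10)) .nil))) .nil)))) (.cons (.rf (nat_lit 3904) (nat_lit 493858305440582043680)) (.cons (.br (nat_lit 7) (nat_lit 1) (.cons (.ev (nat_lit 1213666704900270374060033) (nat_lit 1)) (.cons (.br (nat_lit 9) (nat_lit 1) (.cons (.ev (nat_lit 158768242093982752523333861379) (nat_lit 2)) (.cons (.zr (nat_lit 928469196779656605813702656) (nat_lit 1208962714229776029057025) (nat_lit 5) (nat_lit 10)) .nil))) (.cons (.br (nat_lit 11) (nat_lit 1) (.cons (.ev (nat_lit 310693954159761365646966784) (nat_lit 1)) (.cons (.ev (nat_lit 79538856449977636364769820928) (nat_lit 1)) .nil))) (.cons (.br (nat_lit 12) (nat_lit 1) (.cons (.br (nat_lit 11) (nat_lit 1) (.cons (.ev (nat_lit 80159040173074599723380310785) (nat_lit 2)) .nil)) (.cons (.ev (nat_lit 79229371458530977771421761536) (nat_lit 1)) (.cons (.zr (nat_lit 60847228810955011271841787609088) (nat_lit 1208962713385355377115137) (nat_lit 5) (nat_lit 10)) .nil)))) .nil))))) (.cons (.br (nat_lit 9) (nat_lit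 1) (.cons (.ev (nat_lit 1213666704900270374060033) (nat_lit 1)) (.cons (.ev (nat_lit 310698658007443667056328961) (nat_lit 1)) (.cons (.br (nat_lit 12) (nat_lit 1) (.cons (.br (nat_lit 11) (nat_lit 1) (.cons (.ev (nat_lit 79538856468352322840129765633) (nat_lit 1)) .nil)) (.cons (.br (nat_lit 7) (nat_lit 1) (.cons (.ev (nat_lit 79229371440156291296028262401) (nat_lit 1)) .nil)) (.cons (.ev (nat_lit 79229376180897461744856727808) (nat_lit 1)) .nil)))) (.cons (.br (nat_lit 7) (nat_lit 1) (.cons (.zr (nat_lit 928469196779656605813702656) (nat_lit 1208962714229776029057025) (nat_lit 5) (nat_lit 10)) (.cons (.br (nat_lit 11) (nat_lit 1) (.cons (.ev (nat_lit 22746239246805567780657387341596) (nat_lit 5)) .nil)) .nil))) .nil))))) .nil)))))),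
 (.br (nat_lit 12) (nat_lit 1) (.cons (.ev (nat_lit 79229371458530977771421761536) (nat_lit 1)) .nil)),
 (.br (nat_lit 11) (nat_lit 1) (.cons (.rf (nat_lit 3904) (nat_lit 493858305440582043680)) (.cons (.rf (nat_lit 3905) (nat_lit 493858305440582043680)) (.cons (.br (nat_lit 1) (nat_lit 1) (.cons (.rf (nat_lit 29) (nat_lit 11836481)) (.cons (.br (nat_lit 2) (nat_lit 1) (.cons (.ev (nat_lit 79849564589539478527832948739) (nat_lit 2)) (.cons (.rf (nat_lit 3906) (nat_lit 493858305440582043680)) .nil))) (.cons (.br (nat_lit 13) (nat_lit 1) (.cons (.ev (nat_lit 20283031005726945561582988558595) (nat_lit 2)) (.cons (.ev (nat_lit 20282410812595937065224623882496) (nat_lit 1)) .nil))) .nil)))) (.cons (.br (nat_lit 1) (nat_lit 1) (.cons (.br (nat_lit 9) (nat_lit 1) (.cons (.rf (nat_lit 31) (nat_lit 414489665)) (.cons (.br (nat_lit 12) (nat_lit 1) (.cons (.ev (nat_lit 79233007681083077593202493190) (nat_lit 3)) .nil)) .nil))) (.cons (.ev (nat_lit 310698676454187740765880576) (nat_lit 1)) (.cons (.br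 (nat_lit 2) (nat_lit 1) (.cons (.ev (nat_lit 79538861190718806813598285825) (nat_lit 1)) (.cons (.br (nat_lit 9) (nat_lit 1) (.cons (.zr (nat_lit 928455029464035210536615936) (nat_lit 158457543399081538130041373185) (nat_lit 5) (nat_lit 6)) .nil)) .nil))) (.cons (.br (nat_lit 12) (nat_lit 1) (.cons (.ev (nat_lit 310693954087703775920848896) (nat_lit 1)) (.cons (.br (nat_lit 2) (nat_lit 1) (.cons (.zr (nat_lit 928455029464036305719590912) (nat_lit 158457533954348571295534284801) (nat_lit 5) (nat_lit 6)) .nil)) (.cons (.ev (nat_lit 20282410812595937065224623882496) (nat_lit 1)) .nil)))) .nil))))) (.cons (.br (nat_lit 2) (nat_lit 1) (.cons (.br (nat_lit 9) (nat_lit 1) (.cons (.br (nat_lit 12) (nat_lit 1) (.cons (.ev (nat_lit 79229371440156291296028262401) (nat_lit 1)) .nil)) (.cons (.ev (nat_lit 20282720302309750205583827403008) (nat_lit 1)) .nil))) (.cons (.zr (nat_lit 928469196779656605813702656) (nat_lit 1208962714229776029057025) (nat_lit 5) (nat_lit 10)) (.cons (.br (nat_lit 1) (nat_lit 1)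 (.cons (.br (nat_lit 12) (nat_lit 1) (.cons (.zr (nat_lit 237684501710108634171681275904) (nat_lit 1208962713385355393892353) (nat_lit 5) (nat_lit 10)) .nil)) (.cons (.br (nat_lit 9) (nat_lit 1) (.cons (.zr (nat_lit 237684501710108634171681275904) (nat_lit 1208962713385355393892353) (nat_lit 5) (nat_lit 10)) .nil)) (.cons (.br (nat_lit 9) (nat_lit 1) (.cons (.ev (nat_lit 20838559025745081773214381836036) (nat_lit 3)) .nil)) .nil)))) (.cons (.ev (nat_lit 310693954087703775920848896) (nat_lit 1)) .nil))))) .nil))))))]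

theorem c133 : chkAll C T R L133 (nat_lit 3888) = true := by decide +kernel

theorem l133 : (nat_lit 3888) + L133.length = (nat_lit 3908) := by decide +kernel

/-- part of the certificates -/
def L134 : List Prf := [(.br (nat_lit 1) (nat_lit 1) (.cons (.br (nat_lit 12) (nat_lit 1) (.cons (.zr (nat_lit 309485046714834315655578368) (nat_lit 158457533954348571295551062017) (nat_lit 5) (nat_lit 0)) .nil)) (.cons (.br (nat_lit 7) (nat_lit 1) (.cons (.ev (nat_lit 20363809030123727844703322965248) (nat_lit 3)) .nil)) (.cons (.kr (nat_lit 309485009821345068724781312) (nat_lit 18446744073726328832) (nat_lit 1) (nat_lit 0)) .nil)))),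
 (.br (nat_lit 2) (nat_lit 1) (.cons (.ev (nat_lit 1208925891672223229411584) (nat_lit 1)) (.cons (.rf (nat_lit 1763) (nat_lit 411236053444332777)) (.cons (.rf (nat_lit 3908) (nat_lit 493858305440582043680)) .nil)))),
 (.br (nat_lit 11) (nat_lit 1) (.cons (.rf (nat_lit 3904) (nat_lit 493858305440582043680)) (.cons (.rf (nat_lit 3905) (nat_lit 493858305440582043680)) (.cons (.rf (nat_lit 3907) (nat_lit 493858305440582043680)) (.cons (.br (nat_lit 13) (nat_lit 1) (.cons (.kr (nat_lit 309485009821345068724781312) (nat_lit 18446744073726328832) (nat_lit 1) (nat_lit 0)) (.cons (.rf (nat_lit 3908) (nat_lit 493858305440582043680)) (.cons (.rf (nat_lit 3909) (nat_lit 493858305440582043680)) (.cons (.br (nat_lit 13) (nat_lit 1) (.cons (.ev (nat_lit 20282410812595937065224623882496) (nat_lit 1)) (.cons (.rf (nat_lit 3908) (nat_lit 493858305440582043680)) (.cons (.rf (nat_lit 3909) (nat_lit 493858305440582043680)) .nil)))) .nil))))) (.cons (.br (nat_lit 1) (nat_lit 1) (.cons (.ev (nat_lit 310698658007443667056328961)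 (nat_lit 1)) (.cons (.br (nat_lit 2) (nat_lit 1) (.cons (.br (nat_lit 12) (nat_lit 1) (.cons (.zr (nat_lit 237684501710108634171681275904) (nat_lit 1208962713385355393892353) (nat_lit 5) (nat_lit 10)) .nil)) (.cons (.ev (nat_lit 20282410812577490321150914330881) (nat_lit 1)) .nil))) (.cons (.kr (nat_lit 309485009821345068724781312) (nat_lit 18446744073726328832) (nat_lit 1) (nat_lit 0)) (.cons (.br (nat_lit 2) (nat_lit 1) (.cons (.ev (nat_lit 1208925891672223229411584) (nat_lit 1)) (.cons (.br (nat_lit 7) (nat_lit 1) (.cons (.ev (nat_lit 20363809030123727844703322965248) (nat_lit 3)) .nil)) .nil))) .nil))))) .nil)))))),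
 (.br (nat_lit 11) (nat_lit 1) (.cons (.rf (nat_lit 3904) (nat_lit 493858305440582043680)) (.cons (.rf (nat_lit 3905) (nat_lit 493858305440582043680)) (.cons (.rf (nat_lit 3907) (nat_lit 493858305440582043680)) (.cons (.rf (nat_lit 3910) (nat_lit 493858305440582043680)) (.cons (.br (nat_lit 1) (nat_lit 1) (.cons (.br (nat_lit 7) (nat_lit 1) (.cons (.br (nat_lit 12) (nat_lit 1) (.cons (.ev (nat_lit 79229371440156291296028262401) (nat_lit 1)) .nil)) (.cons (.br (nat_lit 9) (nat_lit 1) (.cons (.ev (nat_lit 310698676526245339115618560) (nat_lit 1)) .nil)) (.cons (.ev (nat_lit 1208925891672223229411584) (nat_lit 1)) .nil)))) (.cons (.br (nat_lit 2) (nat_lit 1) (.cons (.kr (nat_lit 618970019642690137449693440) (nat_lit 4759332029710613872640) (nat_lit 1) (nat_lit 0)) (.cons (.br (nat_lit 9) (nat_lit 1) (.cons (.zr (nat_lit 237684501710108634171681275904) (nat_lit 1208962713385355393892353) (nat_lit 5) (nat_lit 10)) .nil)) (.cons (.ev (nat_lit 20282410812577490321150914330881) (nat_lit 1)) .nil))))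 (.cons (.kr (nat_lit 309485009821345068724781312) (nat_lit 18446744073726328832) (nat_lit 1) (nat_lit 0)) (.cons (.br (nat_lit 2) (nat_lit 1) (.cons (.kr (nat_lit 309485009821345068724846848) (nat_lit 18518801672042446848) (nat_lit 1) (nat_lit 0)) (.cons (.br (nat_lit 7) (nat_lit 1) (.cons (.zr (nat_lit 237684501710108634171681275904) (nat_lit 1208962713385355393892353) (nat_lit 5) (nat_lit 10)) .nil)) (.cons (.br (nat_lit 7) (nat_lit 1) (.cons (.zr (nat_lit 238612956739356496595742032640) (nat_lit 1209018053617589407449089) (nat_lit 5) (nat_lit 10)) .nil)) .nil)))) (.cons (.br (nat_lit 2) (nat_lit 1) (.cons (.ev (nat_lit 1208925891672223229411584) (nat_lit 1)) (.cons (.br (nat_lit 7) (nat_lit 1) (.cons (.zr (nat_lit 237993972552614358948868326144) (nat_lit 1208981160128329591816193) (nat_lit 5) (nat_lit 4)) .nil)) (.cons (.br (nat_lit 7) (nat_lit 1) (.cons (.ev (nat_lit 20679488547400620615732906623750) (nat_lit 4)) .nil)) .nil)))) .nil)))))) .nil)))))),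
 (.br (nat_lit 8) (nat_lit 1) (.cons (.rf (nat_lit 3815) (nat_lit 493858305440582043680)) (.cons (.rf (nat_lit 3842) (nat_lit 493858305440582043680)) (.cons (.rf (nat_lit 3880) (nat_lit 493858305440582043680)) (.cons (.rf (nat_lit 3896) (nat_lit 493858305440582043680)) (.cons (.br (nat_lit 11) (nat_lit 1) (.cons (.rf (nat_lit 3904) (nat_lit 493858305440582043680)) (.cons (.rf (nat_lit 3905) (nat_lit 493858305440582043680)) (.cons (.rf (nat_lit 3907) (nat_lit 493858305440582043680)) (.cons (.rf (nat_lit 3910) (nat_lit 493858305440582043680)) (.cons (.rf (nat_lit 3911) (nat_lit 493858305440582043680)) (.cons (.br (nat_lit 11) (nat_lit 1) (.cons (.rf (nat_lit 3904) (nat_lit 493858305440582043680)) (.cons (.rf (nat_lit 3905) (nat_lit 493858305440582043680)) (.cons (.rf (nat_lit 3907) (nat_lit 493858305440582043680)) (.cons (.rf (nat_lit 3910) (nat_lit 493858305440582043680)) (.cons (.rf (nat_lit 3911) (nat_lit 493858305440582043680)) .nil)))))) .nil))))))) .nil)))))),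
 (.br (nat_lit 8) (nat_lit 1) (.cons (.rf (nat_lit 3815) (nat_lit 493858305440582043680)) (.cons (.rf (nat_lit 3842) (nat_lit 493858305440582043680)) (.cons (.rf (nat_lit 3880) (nat_lit 493858305440582043680)) (.cons (.rf (nat_lit 3896) (nat_lit 493858305440582043680)) (.cons (.rf (nat_lit 3912) (nat_lit 493858305440582043680)) (.cons (.br (nat_lit 8) (nat_lit 1) (.cons (.rf (nat_lit 3815) (nat_lit 493858305440582043680)) (.cons (.rf (nat_lit 3842) (nat_lit 493858305440582043680)) (.cons (.rf (nat_lit 3880) (nat_lit 493858305440582043680)) (.cons (.rf (nat_lit 3896) (nat_lit 493858305440582043680)) (.cons (.rf (nat_lit 3912) (nat_lit 493858305440582043680)) .nil)))))) .nil))))))),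
 (.br (nat_lit 8) (nat_lit 1) (.cons (.rf (nat_lit 3815) (nat_lit 493858305440582043680)) (.cons (.rf (nat_lit 3842) (nat_lit 493858305440582043680)) (.cons (.rf (nat_lit 3880) (nat_lit 493858305440582043680)) (.cons (.rf (nat_lit 3896) (nat_lit 493858305440582043680)) (.cons (.rf (nat_lit 3913) (nat_lit 493858305440582043680)) (.cons (.br (nat_lit 8) (nat_lit 1) (.cons (.rf (nat_lit 3815) (nat_lit 493858305440582043680)) (.cons (.rf (nat_lit 3842) (nat_lit 493858305440582043680)) (.cons (.rf (nat_lit 3880) (nat_lit 493858305440582043680)) (.cons (.rf (nat_lit 3896) (nat_lit 493858305440582043680)) (.cons (.rf (nat_lit 3913) (nat_lit 493858305440582043680)) .nil)))))) .nil))))))),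
 (.br (nat_lit 2) (nat_lit 0) (.cons (.br (nat_lit 9) (nat_lit 0) (.cons (.br (nat_lit 10) (nat_lit 1) (.cons (.br (nat_lit 10) (nat_lit 1) (.cons (.br (nat_lit 8) (nat_lit 1) (.cons (.rf (nat_lit 3596) (nat_lit 493858305440582043680)) (.cons (.rf (nat_lit 3596) (nat_lit 493858305440514999360)) (.cons (.rf (nat_lit 3614) (nat_lit 493858305440582043680)) (.cons (.rf (nat_lit 3622) (nat_lit 493858305440582043680)) (.cons (.rf (nat_lit 3635) (nat_lit 493858305440582043680)) (.cons (.rf (nat_lit 3636) (nat_lit 493858305440582043680)) (.cons (.rf (nat_lit 3636) (nat_lit 458117738797769787424)) .nil)))))))) .nil)) .nil)) .nil)) (.cons (.br (nat_lit 9) (nat_lit 0) (.cons (.br (nat_lit 10) (nat_lit 1) (.cons (.br (nat_lit 10) (nat_lit 1) (.cons (.br (nat_lit 1) (nat_lit 1) (.cons (.br (nat_lit 8) (nat_lit 1) (.cons (.rf (nat_lit 3641) (nat_lit 493858305440582043680)) (.cons (.rf (nat_lit 3646) (nat_lit 493858305440582043680)) (.cons (.rf (nat_lit 3650) (nat_lit 493858305440582043680)) (.cons (.rf (nat_lit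 3651) (nat_lit 493858305440582043680)) (.cons (.rf (nat_lit 3651) (nat_lit 458117738797769787424)) .nil)))))) (.cons (.br (nat_lit 8) (nat_lit 1) (.cons (.rf (nat_lit 3656) (nat_lit 493858305440582043680)) (.cons (.rf (nat_lit 3661) (nat_lit 493858305440582043680)) (.cons (.rf (nat_lit 3664) (nat_lit 493858305440582043680)) (.cons (.rf (nat_lit 3665) (nat_lit 493858305440582043680)) (.cons (.rf (nat_lit 3665) (nat_lit 458117738797769787424)) .nil)))))) (.cons (.br (nat_lit 2) (nat_lit 1) (.cons (.kr (nat_lit 16842752) (nat_lit 72057598332895232) (nat_lit 2) (nat_lit 0)) (.cons (.br (nat_lit 7) (nat_lit 1) (.cons (.kr (nat_lit 1) (nat_lit 18446744073709551616) (nat_lit 0) (nat_lit 1)) (.cons (.rf (nat_lit 29) (nat_lit 8455463)) (.cons (.br (nat_lit 9) (nat_lit 1) (.cons (.rf (nat_lit 58) (nat_lit 8685607)) (.cons (.rf (nat_lit 1343) (nat_lit 423425746145)) (.cons (.rf (nat_lit 3667) (nat_lit 493858305440582043680)) (.cons (.rf (nat_lit 3667) (nat_lit 458117738797769787424)) .nil))))) (.cons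 (.rf (nat_lit 3669) (nat_lit 493858305440582043680)) (.cons (.rf (nat_lit 3669) (nat_lit 458117738797769787424)) .nil)))))) (.cons (.br (nat_lit 8) (nat_lit 1) (.cons (.rf (nat_lit 29) (nat_lit 8619298)) (.cons (.rf (nat_lit 3672) (nat_lit 493858305440582043680)) (.cons (.rf (nat_lit 3673) (nat_lit 493858305440582043680)) (.cons (.rf (nat_lit 3673) (nat_lit 458117738797769787424)) .nil))))) (.cons (.br (nat_lit 12) (nat_lit 1) (.cons (.rf (nat_lit 3681) (nat_lit 493858305440582043680)) (.cons (.rf (nat_lit 3685) (nat_lit 493858305440582043680)) (.cons (.rf (nat_lit 3687) (nat_lit 493858305440582043680)) (.cons (.rf (nat_lit 3688) (nat_lit 493858305440582043680)) (.cons (.br (nat_lit 12) (nat_lit 1) (.cons (.rf (nat_lit 3681) (nat_lit 493858305440582043680)) (.cons (.rf (nat_lit 3685) (nat_lit 493858305440582043680)) (.cons (.rf (nat_lit 3687) (nat_lit 493858305440582043680)) (.cons (.rf (nat_lit 3688) (nat_lit 493858305440582043680)) .nil))))) .nil)))))) (.cons (.rf (nat_lit 3703) (nat_lit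 493858305440582043680)) (.cons (.rf (nat_lit 3703) (nat_lit 458117738797769787424)) .nil))))))) (.cons (.kr (nat_lit 4294967296) (nat_lit 4722366482869645213696) (nat_lit 4) (nat_lit 0)) (.cons (.br (nat_lit 2) (nat_lit 1) (.cons (.kr (nat_lit 16842752) (nat_lit 72057598332895232) (nat_lit 2) (nat_lit 0)) (.cons (.br (nat_lit 12) (nat_lit 1) (.cons (.rf (nat_lit 3710) (nat_lit 493858305440582043680)) (.cons (.rf (nat_lit 3713) (nat_lit 493858305440582043680)) (.cons (.rf (nat_lit 3715) (nat_lit 493858305440582043680)) (.cons (.rf (nat_lit 3716) (nat_lit 493858305440582043680)) (.cons (.br (nat_lit 12) (nat_lit 1) (.cons (.rf (nat_lit 3710) (nat_lit 493858305440582043680)) (.cons (.rf (nat_lit 3713) (nat_lit 493858305440582043680)) (.cons (.rf (nat_lit 3715) (nat_lit 493858305440582043680)) (.cons (.rf (nat_lit 3716) (nat_lit 493858305440582043680)) .nil))))) .nil)))))) (.cons (.br (nat_lit 11) (nat_lit 1) (.cons (.rf (nat_lit 29) (nat_lit 11765026)) (.cons (.rf (nat_lit 3718) (nat_lit 15433072044983552032))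 (.cons (.rf (nat_lit 3719) (nat_lit 15433072044983552032)) (.cons (.rf (nat_lit 3719) (nat_lit 14316179337395669024)) .nil))))) (.cons (.br (nat_lit 7) (nat_lit 1) (.cons (.br (nat_lit 9) (nat_lit 1) (.cons (.rf (nat_lit 1343) (nat_lit 423433078823)) (.cons (.rf (nat_lit 58) (nat_lit 11831335)) (.cons (.rf (nat_lit 3721) (nat_lit 493858305440582043680)) (.cons (.rf (nat_lit 3721) (nat_lit 458117738797769787424)) .nil))))) (.cons (.rf (nat_lit 29) (nat_lit 11601191)) (.cons (.ev (nat_lit 309485009821627643229896704) (nat_lit 1)) (.cons (.rf (nat_lit 3725) (nat_lit 493858305440582043680)) (.cons (.rf (nat_lit 3725) (nat_lit 458117738797769787424)) .nil)))))) (.cons (.rf (nat_lit 3740) (nat_lit 493858305440582043680)) (.cons (.rf (nat_lit 3740) (nat_lit 458117738797769787424)) .nil))))))) (.cons (.rf (nat_lit 3778) (nat_lit 493858305440582043680)) (.cons (.rf (nat_lit 3778) (nat_lit 458117738797769787424)) .nil)))))))) .nil)) .nil)) (.cons (.br (nat_lit 4) (nat_lit 1) (.cons (.br (nat_lit 10)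 (nat_lit 1) (.cons (.br (nat_lit 8) (nat_lit 1) (.cons (.rf (nat_lit 3815) (nat_lit 493858305440582043680)) (.cons (.rf (nat_lit 3842) (nat_lit 493858305440582043680)) (.cons (.rf (nat_lit 3880) (nat_lit 493858305440582043680)) (.cons (.rf (nat_lit 3896) (nat_lit 493858305440582043680)) (.cons (.rf (nat_lit 3913) (nat_lit 493858305440582043680)) (.cons (.rf (nat_lit 3914) (nat_lit 493858305440582043680)) (.cons (.br (nat_lit 8) (nat_lit 1) (.cons (.rf (nat_lit 3815) (nat_lit 493858305440582043680)) (.cons (.rf (nat_lit 3842) (nat_lit 493858305440582043680)) (.cons (.rf (nat_lit 3880) (nat_lit 493858305440582043680)) (.cons (.rf (nat_lit 3896) (nat_lit 493858305440582043680)) (.cons (.rf (nat_lit 3913) (nat_lit 493858305440582043680)) (.cons (.rf (nat_lit 3914) (nat_lit 493858305440582043680)) .nil))))))) .nil)))))))) .nil)) .nil)) .nil))) .nil))),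
 (.br (nat_lit 11) (nat_lit 1) (.cons (.br (nat_lit 12) (nat_lit 1) (.cons (.ev (nat_lit 20282410812577490039675954462721) (nat_lit 1)) .nil)) .nil)),
 (.br (nat_lit 8) (nat_lit 1) (.cons (.rf (nat_lit 84) (nat_lit 13262461993)) (.cons (.rf (nat_lit 84) (nat_lit 12222503970)) (.cons (.br (nat_lit 11) (nat_lit 1) (.cons (.rf (nat_lit 3916) (nat_lit 493858305440582043680)) (.cons (.br (nat_lit 12) (nat_lit 1) (.cons (.rf (nat_lit 3916) (nat_lit 493858305440582043680)) (.cons (.ev (nat_lit 20282410812577490039675954462721) (nat_lit 1)) .nil))) .nil))) .nil)))),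
 (.br (nat_lit 9) (nat_lit 1) (.cons (.rf (nat_lit 58) (nat_lit 8690722)) (.cons (.rf (nat_lit 1343) (nat_lit 423430988865)) (.cons (.rf (nat_lit 3917) (nat_lit 493858305440582043680)) (.cons (.rf (nat_lit 3917) (nat_lit 458117738797769787424)) .nil))))),
 (.br (nat_lit 7) (nat_lit 1) (.cons (.rf (nat_lit 31) (nat_lit 377554215)) (.cons (.rf (nat_lit 2594) (nat_lit 12215133410)) (.cons (.br (nat_lit 9) (nat_lit 1) (.cons (.ev (nat_lit 309499232333367175467237890) (nat_lit 2)) (.cons (.rf (nat_lit 84) (nat_lit 12092220642)) (.cons (.br (nat_lit 11) (nat_lit 1) (.cons (.ev (nat_lit 310698658007442567561543681) (nat_lit 1)) (.cons (.ev (nat_lit 309489750706630705645879553) (nat_lit 1)) .nil))) .nil)))) (.cons (.rf (nat_lit 3585) (nat_lit 493858305440582043680)) .nil))))),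
 (.br (nat_lit 8) (nat_lit 1) (.cons (.rf (nat_lit 3918) (nat_lit 493858305440582043680)) (.cons (.rf (nat_lit 3581) (nat_lit 493858305440582043680)) (.cons (.rf (nat_lit 3919) (nat_lit 493858305440582043680)) (.cons (.rf (nat_lit 3919) (nat_lit 458117738797769787424)) .nil))))),
 (.br (nat_lit 11) (nat_lit 1) (.cons (.ev (nat_lit 158457543454637661666897232640) (nat_lit 2)) (.cons (.ev (nat_lit 309489750706912180605878273) (nat_lit 1)) .nil))),
 (.br (nat_lit 9) (nat_lit 1) (.cons (.br (nat_lit 11) (nat_lit 1) (.cons (.ev (nat_lit 79537652246452165531930787841) (nat_lit 1)) (.cons (.br (nat_lit 12) (nat_lit 1) (.cons (.ev (nat_lit 79538861190790582928364536065) (nat_lit 1)) .nil)) .nil))) (.cons (.rf (nat_lit 84) (nat_lit 12092220642)) (.cons (.br (nat_lit 11) (nat_lit 1) (.cons (.br (nat_lit 11) (nat_lit 1) (.cons (.ev (nat_lit 20837940055651941456478262592258) (nat_lit 3)) .nil)) (.cons (.br (nat_lit 11) (nat_lit 1) (.cons (.ev (nat_lit 20837940055651941456478262592258) (nat_lit 3)) .nil))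 .nil))) .nil)))),
 (.br (nat_lit 8) (nat_lit 1) (.cons (.rf (nat_lit 3918) (nat_lit 493858305440582043680)) (.cons (.rf (nat_lit 3581) (nat_lit 493858305440582043680)) (.cons (.rf (nat_lit 3920) (nat_lit 493858305440582043680)) (.cons (.br (nat_lit 7) (nat_lit 1) (.cons (.ev (nat_lit 1208944338697771898961921) (nat_lit 1)) (.cons (.br (nat_lit 9) (nat_lit 1) (.cons (.ev (nat_lit 620179001019276026978566400) (nat_lit 2)) (.cons (.rf (nat_lit 3921) (nat_lit 493858305440582043680)) (.cons (.rf (nat_lit 3921) (nat_lit 458117738797769787424)) .nil)))) (.cons (.rf (nat_lit 3922) (nat_lit 493858305440582043680)) (.cons (.rf (nat_lit 3922) (nat_lit 458117738797769787424)) .nil))))) .nil))))),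
 (.br (nat_lit 8) (nat_lit 1) (.cons (.rf (nat_lit 3918) (nat_lit 493858305440582043680)) (.cons (.rf (nat_lit 3581) (nat_lit 493858305440582043680)) (.cons (.rf (nat_lit 3920) (nat_lit 493858305440582043680)) (.cons (.rf (nat_lit 3923) (nat_lit 493858305440582043680)) (.cons (.rf (nat_lit 3923) (nat_lit 458117738797769787424)) .nil)))))),
 (.br (nat_lit 8) (nat_lit 1) (.cons (.rf (nat_lit 84) (nat_lit 13262627874)) (.cons (.br (nat_lit 9) (nat_lit 1) (.cons (.rf (nat_lit 84) (nat_lit 13164913890)) (.cons (.rf (nat_lit 84) (nat_lit 12092220487)) (.cons (.br (nat_lit 11) (nat_lit 1) (.cons (.ev (nat_lit 310698676454186641271095296) (nat_lit 1)) (.cons (.ev (nat_lit 309489732259886631936327936) (nat_lit 1)) .nil))) .nil)))) (.cons (.br (nat_lit 13) (nat_lit 1) (.cons (.ev (nat_lit 1218389071948293324604160) (nat_lit 2)) (.cons (.kr (nat_lit 1208944266922752349307136) (nat_lit 618970019714747740077490176) (nat_lit 1) (nat_lit 0)) (.cons (.br (nat_lit 9) (nat_lit 1) (.cons (.rf (nat_lit 84) (nat_lit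 13164913890)) (.cons (.zr (nat_lit 237684487542793575734880240384) (nat_lit 1218407446069615412641793) (nat_lit 5) (nat_lit 3)) (.cons (.ev (nat_lit 1218389071948293324604160) (nat_lit 2)) .nil)))) .nil)))) .nil))))]

theorem c134 : chkAll C T R L134 (nat_lit 3908) = true := by decide +kernel

theorem l134 : (nat_lit 3908) + L134.length = (nat_lit 3926) := by decide +kernel

/-- part of the certificates -/
def L135 : List Prf := [(.br (nat_lit 2) (nat_lit 1) (.cons (.br (nat_lit 9) (nat_lit 1) (.cons (.ev (nat_lit 309499232333085700440260866) (nat_lit 2)) (.cons (.rf (nat_lit 84) (nat_lit 13262620713)) (.cons (.rf (nat_lit 84) (nat_lit 14336362537)) .nil)))) (.cons (.rf (nat_lit 31) (nat_lit 377718050)) (.cons (.rf (nat_lit 3924) (nat_lit 493858305440582043680)) (.cons (.rf (nat_lit 3925) (nat_lit 493858305440582043680)) (.cons (.rf (nat_lit 3925) (nat_lit 458117738797769787424)) .nil)))))),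
 (.br (nat_lit 8) (nat_lit 1) (.cons (.rf (nat_lit 82) (nat_lit 13262686247)) (.cons (.rf (nat_lit 2594) (nat_lit 12215126311)) (.cons (.br (nat_lit 2) (nat_lit 1) (.cons (.ev (nat_lit 620179001019276026978566400) (nat_lit 2)) (.cons (.rf (nat_lit 3000) (nat_lit 13164383727359499296)) (.cons (.rf (nat_lit 3000) (nat_lit 13129480830247377952)) .nil)))) .nil)))),
 (.br (nat_lit 8) (nat_lit 1) (.cons (.rf (nat_lit 1343) (nat_lit 423425746145)) (.cons (.rf (nat_lit 3926) (nat_lit 493858305440582043680)) (.cons (.rf (nat_lit 3927) (nat_lit 493858305440582043680)) (.cons (.rf (nat_lit 3927) (nat_lit 458117738797769787424)) .nil))))),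
 (.br (nat_lit 12) (nat_lit 1) (.cons (.ev (nat_lit 79538856449905298390955131136) (nat_lit 1)) (.cons (.ev (nat_lit 79538861172344120329614983168) (nat_lit 1)) (.cons (.zr (nat_lit 928455029680207996878258176) (nat_lit 158457533954349416815697854465) (nat_lit 5) (nat_lit 0)) .nil)))),
 (.br (nat_lit 9) (nat_lit 1) (.cons (.br (nat_lit 8) (nat_lit 1) (.cons (.ev (nat_lit 158769441556767053998282834179) (nat_lit 2)) (.cons (.ev (nat_lit 1208944338697771898961921) (nat_lit 1)) .nil))) (.cons (.rf (nat_lit 84) (nat_lit 8971854913)) (.cons (.br (nat_lit 12) (nat_lit 1) (.cons (.br (nat_lit 8) (nat_lit 1) (.cons (.ev (nat_lit 21315170804834511073216098666758) (nat_lit 4)) .nil)) (.cons (.ev (nat_lit 20282720302309750206683322318848) (nat_lit 1)) .nil))) .nil)))),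
 (.br (nat_lit 11) (nat_lit 1) (.cons (.rf (nat_lit 3924) (nat_lit 493858305440582043680)) (.cons (.rf (nat_lit 3926) (nat_lit 493858305440582043680)) (.cons (.rf (nat_lit 3928) (nat_lit 493858305440582043680)) (.cons (.br (nat_lit 2) (nat_lit 1) (.cons (.br (nat_lit 8) (nat_lit 1) (.cons (.ev (nat_lit 18446745173238022144) (nat_lit 1)) (.cons (.rf (nat_lit 3929) (nat_lit 493858305440582043680)) (.cons (.rf (nat_lit 3929) (nat_lit 458117738797769787424)) .nil)))) (.cons (.ev (nat_lit 310698658007724042521411841) (nat_lit 1)) (.cons (.rf (nat_lit 3930) (nat_lit 493858305440582043680)) (.cons (.rf (nat_lit 3930) (nat_lit 458117738797769787424)) .nil))))) .nil))))),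
 (.br (nat_lit 11) (nat_lit 1) (.cons (.rf (nat_lit 3924) (nat_lit 493858305440582043680)) (.cons (.rf (nat_lit 3926) (nat_lit 493858305440582043680)) (.cons (.rf (nat_lit 3928) (nat_lit 493858305440582043680)) (.cons (.rf (nat_lit 3931) (nat_lit 493858305440582043680)) (.cons (.rf (nat_lit 3931) (nat_lit 458117738797769787424)) .nil)))))),
 (.br (nat_lit 2) (nat_lit 1) (.cons (.rf (nat_lit 31) (nat_lit 377783522)) (.cons (.rf (nat_lit 2594) (nat_lit 9002392641)) (.cons (.br (nat_lit 7) (nat_lit 1) (.cons (.rf (nat_lit 84) (nat_lit 13262691362)) (.cons (.rf (nat_lit 84) (nat_lit 8971918401)) (.cons (.br (nat_lit 12) (nat_lit 1) (.cons (.ev (nat_lit 79537652246452447006890656001) (nat_lit 1)) (.cons (.ev (nat_lit 79228162514336676662558654464) (nat_lit 1)) .nil))) .nil)))) (.cons (.br (nat_lit 7) (nat_lit 1) (.cons (.rf (nat_lit 84) (nat_lit 14336433186)) (.cons (.br (nat_lit 12) (nat_lit 1) (.cons (.ev (nat_lit 79538861172344120329614983168) (nat_lit 1)) (.cons (.ev (nat_lit 79229371440084234797206995201)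 (nat_lit 1)) .nil))) (.cons (.br (nat_lit 13) (nat_lit 1) (.cons (.ev (nat_lit 20282409603651742481541305991424) (nat_lit 1)) (.cons (.ev (nat_lit 20282719093383858251885638123521) (nat_lit 1)) .nil))) .nil)))) .nil))))),
 (.br (nat_lit 11) (nat_lit 1) (.cons (.rf (nat_lit 3924) (nat_lit 493858305440582043680)) (.cons (.rf (nat_lit 3932) (nat_lit 493858305440582043680)) (.cons (.rf (nat_lit 3933) (nat_lit 493858305440582043680)) (.cons (.rf (nat_lit 3933) (nat_lit 458117738797769787424)) .nil))))),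
 (.br (nat_lit 8) (nat_lit 1) (.cons (.ev (nat_lit 1208944338697771898961921) (nat_lit 1)) (.cons (.br (nat_lit 9) (nat_lit 1) (.cons (.ev (nat_lit 40644356859549793014525961830402) (nat_lit 2)) .nil)) (.cons (.br (nat_lit 9) (nat_lit 1) (.cons (.ev (nat_lit 40644048578761871546389987721217) (nat_lit 2)) .nil)) .nil)))),
 (.br (nat_lit 7) (nat_lit 1) (.cons (.ev (nat_lit 1208944338697771898961921) (nat_lit 1)) (.cons (.br (nat_lit 9) (nat_lit 1) (.cons (.ev (nat_lit 20997025069551983179236492643598) (nat_lit 4)) .nil)) (.cons (.rf (nat_lit 3935) (nat_lit 493858305440582043680)) .nil)))),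
 (.br (nat_lit 13) (nat_lit 1) (.cons (.rf (nat_lit 3935) (nat_lit 493858305440582043680)) (.cons (.rf (nat_lit 3936) (nat_lit 493858305440582043680)) (.cons (.br (nat_lit 7) (nat_lit 1) (.cons (.ev (nat_lit 309489732260168106896326656) (nat_lit 1)) (.cons (.br (nat_lit 8) (nat_lit 1) (.cons (.ev (nat_lit 20997025069551983179236492643598) (nat_lit 4)) .nil)) (.cons (.rf (nat_lit 3935) (nat_lit 493858305440582043680)) .nil)))) (.cons (.br (nat_lit 8) (nat_lit 1) (.cons (.rf (nat_lit 3575) (nat_lit 493858305440582043680)) (.cons (.rf (nat_lit 2257) (nat_lit 493854962753434919968)) (.cons (.rf (nat_lit 3936) (nat_lit 493858305440582043680)) .nil)))) .nil))))),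
 (.br (nat_lit 13) (nat_lit 1) (.cons (.rf (nat_lit 3935) (nat_lit 458117738797769787424)) (.cons (.br (nat_lit 2) (nat_lit 1) (.cons (.ev (nat_lit 1208944338697771898961921) (nat_lit 1)) (.cons (.rf (nat_lit 3937) (nat_lit 493858305440582043680)) (.cons (.rf (nat_lit 3935) (nat_lit 458117738797769787424)) .nil)))) (.cons (.br (nat_lit 2) (nat_lit 1) (.cons (.ev (nat_lit 309489732260168106896326656) (nat_lit 1)) (.cons (.rf (nat_lit 3937) (nat_lit 493858305440582043680)) (.cons (.rf (nat_lit 3935) (nat_lit 458117738797769787424)) .nil)))) (.cons (.ev (nat_lit 79229371440084234797206995201) (nat_lit 1)) .nil))))),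
 (.br (nat_lit 2) (nat_lit 1) (.cons (.ev (nat_lit 309489750706630705645879553) (nat_lit 1)) (.cons (.rf (nat_lit 3937) (nat_lit 493858305440582043680)) (.cons (.rf (nat_lit 3937) (nat_lit 458117738797769787424)) .nil)))),
 (.br (nat_lit 13) (nat_lit 1) (.cons (.rf (nat_lit 3937) (nat_lit 458117738797769787424)) (.cons (.rf (nat_lit 3938) (nat_lit 458117738797769787424)) (.cons (.rf (nat_lit 3939) (nat_lit 493858305440582043680)) (.cons (.br (nat_lit 13) (nat_lit 1) (.cons (.rf (nat_lit 3937) (nat_lit 458117738797769787424)) (.cons (.ev (nat_lit 79228162532783139261308207361) (nat_lit 1)) (.cons (.rf (nat_lit 3939) (nat_lit 493858305440582043680)) .nil)))) .nil))))),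
 (.br (nat_lit 13) (nat_lit 1) (.cons (.rf (nat_lit 3937) (nat_lit 458117738797769787424)) (.cons (.rf (nat_lit 3938) (nat_lit 458117738797769787424)) (.cons (.rf (nat_lit 3940) (nat_lit 458117738797769787424)) (.cons (.br (nat_lit 8) (nat_lit 1) (.cons (.kr (nat_lit 79228162514264337593543950337) (nat_lit 1208944266358702884257792) (nat_lit 0) (nat_lit 1)) (.cons (.rf (nat_lit 3575) (nat_lit 493858059149977429024)) (.cons (.rf (nat_lit 3940) (nat_lit 458117738797769787424)) .nil)))) .nil))))),
 (.br (nat_lit 11) (nat_lit 1) (.cons (.rf (nat_lit 3924) (nat_lit 493858305440582043680)) (.cons (.rf (nat_lit 3932) (nat_lit 493858305440582043680)) (.cons (.rf (nat_lit 3934) (nat_lit 493858305440582043680)) (.cons (.br (nat_lit 12) (nat_lit 1) (.cons (.rf (nat_lit 3937) (nat_lit 493858305440582043680)) (.cons (.rf (nat_lit 3938) (nat_lit 493858305440582043680)) (.cons (.rf (nat_lit 3940) (nat_lit 493858305440582043680)) (.cons (.rf (nat_lit 3941) (nat_lit 493858305440582043680)) (.cons (.br (nat_lit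 12) (nat_lit 1) (.cons (.rf (nat_lit 3937) (nat_lit 493858305440582043680)) (.cons (.ev (nat_lit 79229371440084234797206995201) (nat_lit 1)) (.cons (.rf (nat_lit 3940) (nat_lit 493858305440582043680)) (.cons (.rf (nat_lit 3941) (nat_lit 493858305440582043680)) .nil))))) .nil)))))) .nil))))),
 (.br (nat_lit 11) (nat_lit 1) (.cons (.rf (nat_lit 3924) (nat_lit 493858305440582043680)) (.cons (.rf (nat_lit 3932) (nat_lit 493858305440582043680)) (.cons (.rf (nat_lit 3934) (nat_lit 493858305440582043680)) (.cons (.rf (nat_lit 3942) (nat_lit 493858305440582043680)) (.cons (.rf (nat_lit 3942) (nat_lit 458117738797769787424)) .nil)))))),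
 (.br (nat_lit 12) (nat_lit 1) (.cons (.ev (nat_lit 79538861172344120329614983168) (nat_lit 1)) (.cons (.ev (nat_lit 79229371440084234797206995201) (nat_lit 1)) .nil))),
 (.br (nat_lit 12) (nat_lit 1) (.cons (.rf (nat_lit 84) (nat_lit 8971918401)) (.cons (.br (nat_lit 7) (nat_lit 1) (.cons (.ev (nat_lit 79228162514336676662558654464) (nat_lit 1)) (.cons (.br (nat_lit 8) (nat_lit 1) (.cons (.ev (nat_lit 20680716834959276152993129497348) (nat_lit 3)) .nil)) .nil))) (.cons (.ev (nat_lit 79537652246452447006890656001) (nat_lit 1)) .nil)))),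
 (.br (nat_lit 11) (nat_lit 1) (.cons (.rf (nat_lit 3924) (nat_lit 493858305440582043680)) (.cons (.rf (nat_lit 3932) (nat_lit 493858305440582043680)) (.cons (.rf (nat_lit 3943) (nat_lit 493858305440582043680)) (.cons (.br (nat_lit 2) (nat_lit 1) (.cons (.rf (nat_lit 1593) (nat_lit 459874338018)) (.cons (.br (nat_lit 7) (nat_lit 1) (.cons (.kr (nat_lit 1) (nat_lit 18446744073709551616) (nat_lit 0) (nat_lit 1)) (.cons (.rf (nat_lit 3944) (nat_lit 493858305440582043680)) (.cons (.rf (nat_lit 3944) (nat_lit 458117738797769787424)) .nil)))) (.cons (.rf (nat_lit 3945) (nat_lit 493858305440582043680)) (.cons (.rf (nat_lit 3945) (nat_lit 458117738797769787424)) .nil))))) .nil))))),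
 (.br (nat_lit 11) (nat_lit 1) (.cons (.rf (nat_lit 3924) (nat_lit 493858305440582043680)) (.cons (.rf (nat_lit 3932) (nat_lit 493858305440582043680)) (.cons (.rf (nat_lit 3943) (nat_lit 493858305440582043680)) (.cons (.rf (nat_lit 3946) (nat_lit 493858305440582043680)) (.cons (.rf (nat_lit 3946) (nat_lit 458117738797769787424)) .nil)))))),
 (.br (nat_lit 11) (nat_lit 1) (.cons (.rf (nat_lit 3924) (nat_lit 493858305440582043680)) (.cons (.rf (nat_lit 3932) (nat_lit 493858305440582043680)) (.cons (.rf (nat_lit 3943) (nat_lit 493858305440582043680)) (.cons (.rf (nat_lit 3947) (nat_lit 493858305440582043680)) (.cons (.br (nat_lit 11) (nat_lit 1) (.cons (.rf (nat_lit 3924) (nat_lit 493858305440582043680)) (.cons (.rf (nat_lit 3932) (nat_lit 493858305440582043680)) (.cons (.rf (nat_lit 3943) (nat_lit 493858305440582043680)) (.cons (.rf (nat_lit 3947) (nat_lit 493858305440582043680)) .nil))))) .nil)))))),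
 (.br (nat_lit 11) (nat_lit 1) (.cons (.rf (nat_lit 3924) (nat_lit 493858305440582043680)) (.cons (.rf (nat_lit 3932) (nat_lit 493858305440582043680)) (.cons (.rf (nat_lit 3943) (nat_lit 493858305440582043680)) (.cons (.rf (nat_lit 3947) (nat_lit 493858305440582043680)) (.cons (.rf (nat_lit 3948) (nat_lit 493858305440582043680)) (.cons (.rf (nat_lit 3948) (nat_lit 458117738797769787424)) .nil))))))),
 (.br (nat_lit 8) (nat_lit 1) (.cons (.rf (nat_lit 84) (nat_lit 13262429257)) (.cons (.ev (nat_lit 4740885285636904321024) (nat_lit 1)) (.cons (.br (nat_lit 11) (nat_lit 1) (.cons (.br (nat_lit 11) (nat_lit 1) (.cons (.ev (nat_lit 309489750706912180605878273) (nat_lit 1)) .nil)) (.cons (.br (nat_lit 11) (nat_lit 1) (.cons (.ev (nat_lit 309489750706912180605878273) (nat_lit 1)) .nil)) .nil))) .nil)))),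
 (.br (nat_lit 12) (nat_lit 1) (.cons (.rf (nat_lit 2594) (nat_lit 8960484578)) (.cons (.rf (nat_lit 82) (nat_lit 12092417058)) (.cons (.br (nat_lit 8) (nat_lit 1) (.cons (.rf (nat_lit 58) (nat_lit 8690753)) (.cons (.ev (nat_lit 79229371458530697395956678656) (nat_lit 1)) (.cons (.br (nat_lit 9) (nat_lit 1) (.cons (.br (nat_lit 11) (nat_lit 1) (.cons (.ev (nat_lit 21154847917192347015161969705224) (nat_lit 4)) .nil)) (.cons (.ev (nat_lit 4740885285636904321024) (nat_lit 1)) .nil))) .nil)))) .nil)))),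
 (.br (nat_lit 12) (nat_lit 1) (.cons (.rf (nat_lit 1339) (nat_lit 424438634530)) (.cons (.rf (nat_lit 1343) (nat_lit 457824281634)) (.cons (.rf (nat_lit 3951) (nat_lit 493858305440582043680)) (.cons (.br (nat_lit 12) (nat_lit 1) (.cons (.rf (nat_lit 2594) (nat_lit 9027593442)) (.cons (.rf (nat_lit 82) (nat_lit 14239900706)) (.cons (.rf (nat_lit 3951) (nat_lit 493858305440582043680)) .nil)))) .nil))))),
 (.br (nat_lit 1) (nat_lit 1) (.cons (.kr (nat_lit 1) (nat_lit 18446744073709551616) (nat_lit 0) (nat_lit 1)) (.cons (.ev (nat_lit 4722438541563194769409) (nat_lit 1)) (.cons (.br (nat_lit 9) (nat_lit 1) (.cons (.rf (nat_lit 58) (nat_lit 8690753)) (.cons (.rf (nat_lit 1343) (nat_lit 423430988834)) (.cons (.rf (nat_lit 3950) (nat_lit 14242959524133701664)) (.cons (.rf (nat_lit 3950) (nat_lit 15395881028740548640)) .nil))))) (.cons (.rf (nat_lit 3952) (nat_lit 493858305440582043680)) (.cons (.rf (nat_lit 3952) (nat_lit 458117738797769787424)) .nil)))))),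
 (.br (nat_lit 8) (nat_lit 1) (.cons (.rf (nat_lit 84) (nat_lit 13262431303)) (.cons (.rf (nat_lit 84) (nat_lit 12222440513)) (.cons (.br (nat_lit 11) (nat_lit 1) (.cons (.br (nat_lit 11) (nat_lit 1) (.cons (.zr (nat_lit 309489824782680710677790720) (nat_lit 7253554917689974071755778) (nat_lit 10) (nat_lit 6)) .nil)) (.cons (.br (nat_lit 11) (nat_lit 1) (.cons (.zr (nat_lit 309489824782680710677790720) (nat_lit 7253554917689974071755778) (nat_lit 10) (nat_lit 6)) .nil)) .nil))) .nil)))),
 (.br (nat_lit 12) (nat_lit 1) (.cons (.rf (nat_lit 82) (nat_lit 12092480546)) (.cons (.rf (nat_lit 2594) (nat_lit 8960482594)) (.cons (.br (nat_lit 7) (nat_lit 1) (.cons (.rf (nat_lit 58) (nat_lit 8690753)) (.cons (.br (nat_lit 8) (nat_lit 1) (.cons (.ev (nat_lit 309489732259886631936327936) (nat_lit 1)) (.cons (.zr (nat_lit 79231794014449952329543516160) (nat_lit 73788667343721726978) (nat_lit 10) (nat_lit 10)) .nil))) (.cons (.rf (nat_lit 2909) (nat_lit 492741412732994160672)) .nil)))) .nil)))),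
 (.br (nat_lit 12) (nat_lit 1) (.cons (.rf (nat_lit 1343) (nat_lit 457826376738)) (.cons (.rf (nat_lit 1339) (nat_lit 424371591202)) (.cons (.rf (nat_lit 3955) (nat_lit 493858305440582043680)) (.cons (.br (nat_lit 12) (nat_lit 1) (.cons (.rf (nat_lit 82) (nat_lit 14239964194)) (.cons (.rf (nat_lit 2594) (nat_lit 9027591458)) (.cons (.rf (nat_lit 3955) (nat_lit 493858305440582043680)) .nil)))) .nil)))))]

theorem c135 : chkAll C T R L135 (nat_lit 3926) = true := by decide +kernel

theorem l135 : (nat_lit 3926) + L135.length = (nat_lit 3957) := by decide +kernel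

/-- part of the certificates -/
def L136 : List Prf := [(.br (nat_lit 1) (nat_lit 1) (.cons (.ev (nat_lit 4722438541563194769409) (nat_lit 1)) (.cons (.ev (nat_lit 18446745173238022144) (nat_lit 1)) (.cons (.br (nat_lit 7) (nat_lit 1) (.cons (.rf (nat_lit 58) (nat_lit 8690753)) (.cons (.rf (nat_lit 1343) (nat_lit 423433083938)) (.cons (.rf (nat_lit 3954) (nat_lit 493858305440582043680)) (.cons (.rf (nat_lit 3954) (nat_lit 458117738797769787424)) .nil))))) (.cons (.rf (nat_lit 3956) (nat_lit 493858305440582043680)) (.cons (.rf (nat_lit 3956) (nat_lit 458117738797769787424)) .nil)))))),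
 (.br (nat_lit 12) (nat_lit 1) (.cons (.br (nat_lit 11) (nat_lit 1) (.cons (.ev (nat_lit 309489750706911085389152256) (nat_lit 1)) .nil)) (.cons (.ev (nat_lit 309489750706911085389152256) (nat_lit 1)) .nil))),
 (.br (nat_lit 9) (nat_lit 1) (.cons (.rf (nat_lit 84) (nat_lit 14238688481)) (.cons (.rf (nat_lit 3958) (nat_lit 15433072045018187808)) (.cons (.br (nat_lit 13) (nat_lit 1) (.cons (.ev (nat_lit 20283032209912096348122277609475) (nat_lit 2)) (.cons (.ev (nat_lit 20282410817299928861614614315265) (nat_lit 1)) .nil))) .nil)))),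
 (.br (nat_lit 7) (nat_lit 1) (.cons (.rf (nat_lit 84) (nat_lit 14238688481)) (.cons (.br (nat_lit 11) (nat_lit 1) (.cons (.ev (nat_lit 79229371440084234797206995201) (nat_lit 1)) (.cons (.br (nat_lit 12) (nat_lit 1) (.cons (.ev (nat_lit 79848355682382495980986761219) (nat_lit 2)) .nil)) .nil))) (.cons (.br (nat_lit 11) (nat_lit 1) (.cons (.br (nat_lit 12) (nat_lit 1) (.cons (.zr (nat_lit 55556405011832373248) (nat_lit 158457533954348572390767722497) (nat_lit 5) (nat_lit 0)) .nil)) (.cons (.ev (nat_lit 20282410812595936783749664014336) (nat_lit 1)) .nil))) .nil)))),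
 (.br (nat_lit 11) (nat_lit 1) (.cons (.rf (nat_lit 3959) (nat_lit 493858305440582043680)) (.cons (.rf (nat_lit 3960) (nat_lit 493858305440582043680)) (.cons (.br (nat_lit 7) (nat_lit 1) (.cons (.ev (nat_lit 311912324640847090044371202) (nat_lit 2)) (.cons (.ev (nat_lit 79538856468352323939658104833) (nat_lit 1)) (.cons (.ev (nat_lit 20282720297587311384744662466816) (nat_lit 1)) .nil)))) .nil)))),
 (.br (nat_lit 11) (nat_lit 1) (.cons (.rf (nat_lit 3959) (nat_lit 493858305440582043680)) (.cons (.rf (nat_lit 3960) (nat_lit 493858305440582043680)) (.cons (.rf (nat_lit 3961) (nat_lit 493858305440582043680)) (.cons (.br (nat_lit 11) (nat_lit 1) (.cons (.rf (nat_lit 3959) (nat_lit 493858305440582043680)) (.cons (.rf (nat_lit 3960) (nat_lit 493858305440582043680)) (.cons (.rf (nat_lit 3961) (nat_lit 493858305440582043680)) .nil)))) .nil))))),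
 (.br (nat_lit 1) (nat_lit 1) (.cons (.rf (nat_lit 2305) (nat_lit 13652705158369)) (.cons (.ev (nat_lit 4740885567111897874688) (nat_lit 1)) (.cons (.rf (nat_lit 58) (nat_lit 13933602)) .nil)))),
 (.br (nat_lit 13) (nat_lit 1) (.cons (.ev (nat_lit 20282410812595936783749664014336) (nat_lit 1)) (.cons (.rf (nat_lit 3963) (nat_lit 493858305440582043680)) (.cons (.br (nat_lit 12) (nat_lit 1) (.cons (.ev (nat_lit 79229371458530978870916546816) (nat_lit 1)) (.cons (.zr (nat_lit 1208981376019641007079424) (nat_lit 40723275532331869805656095588353) (nat_lit 5) (nat_lit 0)) (.cons (.zr (nat_lit 55556405011832373248) (nat_lit 158457533954348572390767722497) (nat_lit 5) (nat_lit 0)) .nil)))) .nil)))),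
 (.br (nat_lit 13) (nat_lit 1) (.cons (.rf (nat_lit 3962) (nat_lit 493858305440582043680)) (.cons (.rf (nat_lit 3963) (nat_lit 493858305440582043680)) (.cons (.rf (nat_lit 3964) (nat_lit 493858305440582043680)) (.cons (.br (nat_lit 13) (nat_lit 1) (.cons (.rf (nat_lit 3962) (nat_lit 493858305440582043680)) (.cons (.kr (nat_lit 1208925819614629174706176) (nat_lit 20282409603651670423947251286016) (nat_lit 10) (nat_lit 0)) (.cons (.rf (nat_lit 3964) (nat_lit 493858305440582043680)) .nil)))) .nil))))),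
 (.br (nat_lit 13) (nat_lit 1) (.cons (.rf (nat_lit 3962) (nat_lit 493858305440582043680)) (.cons (.rf (nat_lit 3965) (nat_lit 493858305440582043680)) (.cons (.br (nat_lit 1) (nat_lit 1) (.cons (.br (nat_lit 11) (nat_lit 1) (.cons (.ev (nat_lit 79229371440084234797206995201) (nat_lit 1)) .nil)) (.cons (.br (nat_lit 7) (nat_lit 1) (.cons (.ev (nat_lit 79229371440084234797206995201) (nat_lit 1)) .nil)) (.cons (.ev (nat_lit 79229371458530978870916546816) (nat_lit 1)) .nil)))) .nil)))),
 (.br (nat_lit 13) (nat_lit 1) (.cons (.rf (nat_lit 3962) (nat_lit 493858305440582043680)) (.cons (.rf (nat_lit 3965) (nat_lit 493858305440582043680)) (.cons (.rf (nat_lit 3966) (nat_lit 493858305440582043680)) (.cons (.br (nat_lit 13) (nat_lit 1) (.cons (.rf (nat_lit 3962) (nat_lit 493858305440582043680)) (.cons (.kr (nat_lit 1208925819614629174706176) (nat_lit 20282409603651670423947251286016) (nat_lit 10) (nat_lit 0)) (.cons (.rf (nat_lit 3966) (nat_lit 493858305440582043680)) .nil)))) .nil))))),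
 (.br (nat_lit 13) (nat_lit 1) (.cons (.rf (nat_lit 3962) (nat_lit 493858305440582043680)) (.cons (.rf (nat_lit 3965) (nat_lit 493858305440582043680)) (.cons (.rf (nat_lit 3967) (nat_lit 493858305440582043680)) (.cons (.br (nat_lit 13) (nat_lit 1) (.cons (.rf (nat_lit 3962) (nat_lit 493858305440582043680)) (.cons (.rf (nat_lit 3965) (nat_lit 493858305440582043680)) (.cons (.rf (nat_lit 3967) (nat_lit 493858305440582043680)) .nil)))) .nil))))),
 (.br (nat_lit 13) (nat_lit 1) (.cons (.rf (nat_lit 3962) (nat_lit 493858305440582043680)) (.cons (.rf (nat_lit 3965) (nat_lit 493858305440582043680)) (.cons (.rf (nat_lit 3967) (nat_lit 493858305440582043680)) (.cons (.rf (nat_lit 3968) (nat_lit 493858305440582043680)) (.cons (.br (nat_lit 13) (nat_lit 1) (.cons (.rf (nat_lit 3962) (nat_lit 493858305440582043680)) (.cons (.rf (nat_lit 3965) (nat_lit 493858305440582043680)) (.cons (.rf (nat_lit 3967) (nat_lit 493858305440582043680)) (.cons (.rf (nat_lit 3968) (nat_lit 493858305440582043680)) .nil)))))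 .nil)))))),
 (.br (nat_lit 8) (nat_lit 1) (.cons (.rf (nat_lit 3949) (nat_lit 493858305440582043680)) (.cons (.rf (nat_lit 3953) (nat_lit 493858305440582043680)) (.cons (.rf (nat_lit 3957) (nat_lit 493858305440582043680)) (.cons (.rf (nat_lit 3969) (nat_lit 493858305440582043680)) (.cons (.rf (nat_lit 3969) (nat_lit 458117738797769787424)) .nil)))))),
 (.br (nat_lit 11) (nat_lit 1) (.cons (.ev (nat_lit 79229376180969237859622977536) (nat_lit 1)) (.cons (.br (nat_lit 12) (nat_lit 1) (.cons (.kr (nat_lit 79537652246452165531914010880) (nat_lit 20282409603670189225623588700160) (nat_lit 1) (nat_lit 0)) .nil)) .nil))),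
 (.br (nat_lit 13) (nat_lit 1) (.cons (.ev (nat_lit 4740885567111897874688) (nat_lit 1)) (.cons (.br (nat_lit 13) (nat_lit 1) (.cons (.ev (nat_lit 4740885567111897874688) (nat_lit 1)) (.cons (.ev (nat_lit 79229371440084234797206995201) (nat_lit 1)) .nil))) (.cons (.ev (nat_lit 79229371440084234797206995201) (nat_lit 1)) .nil)))),
 (.br (nat_lit 12) (nat_lit 1) (.cons (.rf (nat_lit 2594) (nat_lit 13323478241)) (.cons (.rf (nat_lit 2594) (nat_lit 13323476257)) (.cons (.ev (nat_lit 79229371458530978870916546816) (nat_lit 1)) (.cons (.br (nat_lit 7) (nat_lit 1) (.cons (.ev (nat_lit 79229376162522493785913425921) (nat_lit 1)) (.cons (.br (nat_lit 13) (nat_lit 1) (.cons (.ev (nat_lit 4740885567111897874688) (nat_lit 1)) (.cons (.zr (nat_lit 55556405011832373248) (nat_lit 40564820416229160745098182393857) (nat_lit 5) (nat_lit 0)) .nil))) (.cons (.br (nat_lit 11) (nat_lit 1) (.cons (.ev (nat_lit 4740885567111897874688) (nat_lit 1)) .nil)) .nil)))) .nil))))),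
 (.br (nat_lit 8) (nat_lit 1) (.cons (.rf (nat_lit 3949) (nat_lit 493858305440582043680)) (.cons (.rf (nat_lit 3953) (nat_lit 493858305440582043680)) (.cons (.rf (nat_lit 3957) (nat_lit 493858305440582043680)) (.cons (.rf (nat_lit 3970) (nat_lit 493858305440582043680)) (.cons (.br (nat_lit 1) (nat_lit 1) (.cons (.rf (nat_lit 1593) (nat_lit 459639366881)) (.cons (.rf (nat_lit 1593) (nat_lit 459639364897)) (.cons (.br (nat_lit 7) (nat_lit 1) (.cons (.rf (nat_lit 1593) (nat_lit 459639358759)) (.cons (.br (nat_lit 9) (nat_lit 1) (.cons (.ev (nat_lit 309485009821627643229896704) (nat_lit 1)) (.cons (.rf (nat_lit 3971) (nat_lit 493858305440582043680)) (.cons (.rf (nat_lit 3971) (nat_lit 458117738797769787424)) .nil)))) (.cons (.rf (nat_lit 3972) (nat_lit 493858305440582043680)) (.cons (.rf (nat_lit 3972) (nat_lit 458117738797769787424)) .nil))))) (.cons (.rf (nat_lit 3973) (nat_lit 493858305440582043680)) (.cons (.rf (nat_lit 3973) (nat_lit 458117738797769787424)) .nil)))))) .nil)))))),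
 (.br (nat_lit 8) (nat_lit 1) (.cons (.rf (nat_lit 3949) (nat_lit 493858305440582043680)) (.cons (.rf (nat_lit 3953) (nat_lit 493858305440582043680)) (.cons (.rf (nat_lit 3957) (nat_lit 493858305440582043680)) (.cons (.rf (nat_lit 3970) (nat_lit 493858305440582043680)) (.cons (.rf (nat_lit 3974) (nat_lit 493858305440582043680)) (.cons (.rf (nat_lit 3974) (nat_lit 458117738797769787424)) .nil))))))),
 (.br (nat_lit 2) (nat_lit 1) (.cons (.rf (nat_lit 58) (nat_lit 8690753)) (.cons (.rf (nat_lit 1343) (nat_lit 423433078823)) (.cons (.rf (nat_lit 3598) (nat_lit 493858305440581027872)) (.cons (.rf (nat_lit 3598) (nat_lit 458117738797768771616)) .nil))))),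
 (.br (nat_lit 12) (nat_lit 1) (.cons (.ev (nat_lit 79228171977516671257693848320) (nat_lit 2)) .nil)),
 (.br (nat_lit 2) (nat_lit 1) (.cons (.rf (nat_lit 58) (nat_lit 8690753)) (.cons (.rf (nat_lit 3976) (nat_lit 493858305440549536832)) (.cons (.rf (nat_lit 1343) (nat_lit 457826371623)) (.cons (.br (nat_lit 8) (nat_lit 1) (.cons (.br (nat_lit 11) (nat_lit 1) (.cons (.rf (nat_lit 3977) (nat_lit 493858305440582043680)) (.cons (.br (nat_lit 11) (nat_lit 1) (.cons (.rf (nat_lit 3977) (nat_lit 493858305440582043680)) .nil)) .nil))) (.cons (.rf (nat_lit 84) (nat_lit 14369727714)) (.cons (.rf (nat_lit 84) (nat_lit 13329573089)) .nil)))) .nil))))),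
 (.br (nat_lit 1) (nat_lit 1) (.cons (.rf (nat_lit 29) (nat_lit 8690753)) (.cons (.rf (nat_lit 58) (nat_lit 8690722)) (.cons (.rf (nat_lit 3976) (nat_lit 493858305440582043680)) (.cons (.rf (nat_lit 3978) (nat_lit 493858305440582043680)) (.cons (.rf (nat_lit 3978) (nat_lit 458117738797769787424)) .nil)))))),
 (.br (nat_lit 9) (nat_lit 1) (.cons (.br (nat_lit 10) (nat_lit 1) (.cons (.kr (nat_lit 1208925819614629191483392) (nat_lit 4722438540463683141632) (nat_lit 3) (nat_lit 0)) .nil)) .nil)),
 (.br (nat_lit 0) (nat_lit 1) (.cons (.rf (nat_lit 31) (nat_lit 308286689)) (.cons (.rf (nat_lit 31) (nat_lit 341841121)) (.cons (.br (nat_lit 9) (nat_lit 1) (.cons (.rf (nat_lit 3980) (nat_lit 407901468851537952)) (.cons (.br (nat_lit 9) (nat_lit 1) (.cons (.rf (nat_lit 3980) (nat_lit 407901468851537952)) .nil)) .nil))) .nil)))),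
 (.br (nat_lit 12) (nat_lit 1) (.cons (.ev (nat_lit 20282719093383858533360597991681) (nat_lit 1)) .nil)),
 (.br (nat_lit 9) (nat_lit 1) (.cons (.ev (nat_lit 4722438541563194769409) (nat_lit 1)) (.cons (.rf (nat_lit 3981) (nat_lit 13909140160286785)) (.cons (.br (nat_lit 1) (nat_lit 1) (.cons (.rf (nat_lit 31) (nat_lit 377789505)) (.cons (.rf (nat_lit 2594) (nat_lit 12221417761)) (.cons (.br (nat_lit 2) (nat_lit 1) (.cons (.rf (nat_lit 84) (nat_lit 13165110337)) (.cons (.ev (nat_lit 79228167273668708572229468675) (nat_lit 2)) (.cons (.br (nat_lit 13) (nat_lit 1) (.cons (.rf (nat_lit 3982) (nat_lit 493858305440582043680)) (.cons (.ev (nat_lit 79228162532783420736268206081) (nat_lit 1)) .nil))) .nil)))) (.cons (.br (nat_lit 2) (nat_lit 1) (.cons (.rf (nat_lit 84) (nat_lit 14238852161)) (.cons (.br (nat_lit 11) (nat_lit 1) (.cons (.ev (nat_lit 79228162514336676662558654464) (nat_lit 1)) (.cons (.br (nat_lit 12) (nat_lit 1) (.cons (.ev (nat_lit 79850773533877612250283442689) (nat_lit 2)) .nil))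 .nil))) (.cons (.br (nat_lit 11) (nat_lit 1) (.cons (.br (nat_lit 12) (nat_lit 1) (.cons (.ev (nat_lit 21154855170932454415078770412808) (nat_lit 4)) .nil)) (.cons (.ev (nat_lit 20282720302328196669282071871745) (nat_lit 1)) .nil))) .nil)))) .nil))))) (.cons (.br (nat_lit 1) (nat_lit 1) (.cons (.rf (nat_lit 31) (nat_lit 411343937)) (.cons (.br (nat_lit 2) (nat_lit 1) (.cons (.ev (nat_lit 309489750706912180605878273) (nat_lit 1)) (.cons (.rf (nat_lit 84) (nat_lit 12092417089)) (.cons (.br (nat_lit 11) (nat_lit 1) (.cons (.ev (nat_lit 310698676454186641271095296) (nat_lit 1)) (.cons (.ev (nat_lit 309503973362769091419898375) (nat_lit 3)) .nil))) .nil)))) (.cons (.rf (nat_lit 2594) (nat_lit 13261605153)) (.cons (.br (nat_lit 2) (nat_lit 1) (.cons (.br (nat_lit 11) (nat_lit 1) (.cons (.zr (nat_lit 928469196564046769358373122) (nat_lit 158457534009688523136969998336) (nat_lit 5) (nat_lit 5)) (.cons (.ev (nat_lit 310698658007442567561543681) (nat_lit 1)) .nil))) (.cons (.rf (nat_lit 84) (nat_lit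 14239900737)) (.cons (.br (nat_lit 11) (nat_lit 1) (.cons (.rf (nat_lit 3852) (nat_lit 493846800150841951530)) (.cons (.rf (nat_lit 3766) (nat_lit 458117738797769787424)) .nil))) .nil)))) .nil))))) (.cons (.ev (nat_lit 1213666633123047522959361) (nat_lit 1)) .nil)))))),
 (.br (nat_lit 8) (nat_lit 1) (.cons (.rf (nat_lit 3949) (nat_lit 493858305440582043680)) (.cons (.rf (nat_lit 3975) (nat_lit 493858305440582043680)) (.cons (.rf (nat_lit 3979) (nat_lit 493858305440582043680)) (.cons (.rf (nat_lit 3983) (nat_lit 493858305440582043680)) (.cons (.rf (nat_lit 3983) (nat_lit 458117738797769787424)) .nil)))))),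
 (.br (nat_lit 1) (nat_lit 1) (.cons (.rf (nat_lit 31) (nat_lit 411343937)) (.cons (.br (nat_lit 2) (nat_lit 1) (.cons (.br (nat_lit 12) (nat_lit 1) (.cons (.rf (nat_lit 84) (nat_lit 9004419111)) (.cons (.rf (nat_lit 3090) (nat_lit 421260279274529758240)) .nil))) (.cons (.rf (nat_lit 84) (nat_lit 12092417089)) (.cons (.br (nat_lit 13) (nat_lit 1) (.cons (.ev (nat_lit 20282409603651742763016265990144) (nat_lit 1)) (.cons (.ev (nat_lit 20440867142383942166793984999939) (nat_lit 2)) .nil))) .nil)))) (.cons (.rf (nat_lit 2594) (nat_lit 13328714017)) (.cons (.br (nat_lit 2) (nat_lit 1) (.cons (.br (nat_lit 12) (nat_lit 1) (.cons (.br (nat_lit 11) (nat_lit 1) (.cons (.ev (nat_lit 20837316240521035593525194326278) (nat_lit 3)) .nil)) (.cons (.ev (nat_lit 20282409603670189507089975541761) (nat_lit 1)) .nil))) (.cons (.rf (nat_lit 84) (nat_lit 14239900737)) (.cons (.ev (nat_lit 20282410812595936783749664014336) (nat_lit 1)) .nil)))) .nil))))),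
 (.br (nat_lit 8) (nat_lit 1) (.cons (.rf (nat_lit 3949) (nat_lit 493858305440582043680)) (.cons (.rf (nat_lit 3975) (nat_lit 493858305440582043680)) (.cons (.rf (nat_lit 3979) (nat_lit 493858305440582043680)) (.cons (.rf (nat_lit 3984) (nat_lit 493858305440582043680)) (.cons (.br (nat_lit 9) (nat_lit 1) (.cons (.ev (nat_lit 4722438541563194769409) (nat_lit 1)) (.cons (.rf (nat_lit 1593) (nat_lit 459807130914)) (.cons (.ev (nat_lit 1213666633123047522959361) (nat_lit 1)) (.cons (.rf (nat_lit 3985) (nat_lit 493858305440582043680)) (.cons (.rf (nat_lit 3985) (nat_lit 458117738797769787424)) .nil)))))) .nil)))))),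
 (.br (nat_lit 8) (nat_lit 1) (.cons (.rf (nat_lit 3949) (nat_lit 493858305440582043680)) (.cons (.rf (nat_lit 3975) (nat_lit 493858305440582043680)) (.cons (.rf (nat_lit 3979) (nat_lit 493858305440582043680)) (.cons (.rf (nat_lit 3984) (nat_lit 493858305440582043680)) (.cons (.rf (nat_lit 3986) (nat_lit 493858305440582043680)) (.cons (.rf (nat_lit 3986) (nat_lit 458117738797769787424)) .nil)))))))]

theorem c136 : chkAll C T R L136 (nat_lit 3957) = true := by decide +kernel

theorem l136 : (nat_lit 3957) + L136.length = (nat_lit 3988) := by decide +kernel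

/-- part of the certificates -/
def L137 : List Prf := [(.br (nat_lit 7) (nat_lit 1) (.cons (.rf (nat_lit 84) (nat_lit 14238915649)) (.cons (.br (nat_lit 12) (nat_lit 1) (.cons (.ev (nat_lit 79229371440084234797206995201) (nat_lit 1)) (.cons (.ev (nat_lit 79228167255077564536898781441) (nat_lit 1)) .nil))) (.cons (.br (nat_lit 11) (nat_lit 1) (.cons (.br (nat_lit 12) (nat_lit 1) (.cons (.ev (nat_lit 79229371440083953322247127041) (nat_lit 1)) .nil)) (.cons (.ev (nat_lit 20282719088661564108085007548673) (nat_lit 1)) .nil))) .nil)))),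
 (.br (nat_lit 11) (nat_lit 1) (.cons (.rf (nat_lit 84) (nat_lit 14238915649)) (.cons (.br (nat_lit 2) (nat_lit 1) (.cons (.ev (nat_lit 310693954160042840640520448) (nat_lit 1)) (.cons (.br (nat_lit 12) (nat_lit 1) (.cons (.zr (nat_lit 928455029680207996878258176) (nat_lit 158457533954349416815697854465) (nat_lit 5) (nat_lit 0)) .nil)) .nil))) (.cons (.ev (nat_lit 309489732259886631936327936) (nat_lit 1)) .nil)))),
 (.br (nat_lit 9) (nat_lit 1) (.cons (.ev (nat_lit 1208944266358707179225089) (nat_lit 1)) .nil)),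
 (.br (nat_lit 11) (nat_lit 1) (.cons (.rf (nat_lit 3988) (nat_lit 493858305440582043680)) (.cons (.rf (nat_lit 3989) (nat_lit 493858305440582043680)) (.cons (.br (nat_lit 7) (nat_lit 1) (.cons (.rf (nat_lit 3990) (nat_lit 15071359418959904)) (.cons (.ev (nat_lit 310693954159761365646966784) (nat_lit 1)) (.cons (.rf (nat_lit 3799) (nat_lit 458106233508029695274)) .nil)))) .nil)))),
 (.br (nat_lit 1) (nat_lit 1) (.cons (.br (nat_lit 7) (nat_lit 1) (.cons (.rf (nat_lit 31) (nat_lit 377726017)) (.cons (.rf (nat_lit 31) (nat_lit 411280449)) (.cons (.ev (nat_lit 1208944338697771898961921) (nat_lit 1)) .nil)))) (.cons (.ev (nat_lit 4722438541563194769409) (nat_lit 1)) (.cons (.br (nat_lit 2) (nat_lit 1) (.cons (.rf (nat_lit 31) (nat_lit 377529570)) (.cons (.rf (nat_lit 2594) (nat_lit 12223519809)) (.cons (.br (nat_lit 7) (nat_lit 1) (.cons (.rf (nat_lit 84) (nat_lit 13165173794)) (.cons (.rf (nat_lit 84) (nat_lit 12092480577)) (.cons (.br (nat_lit 11) (nat_lit 1) (.cons (.ev (nat_lit 317222154030133010591237210627)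 (nat_lit 3)) (.cons (.zr (nat_lit 92954297425618665985) (nat_lit 936931677301912119306878976) (nat_lit 20) (nat_lit 0)) .nil))) .nil)))) (.cons (.br (nat_lit 12) (nat_lit 1) (.cons (.rf (nat_lit 2942) (nat_lit 15398169147839023136)) (.cons (.zr (nat_lit 4814601047671847321600) (nat_lit 1239148965105002600655225858) (nat_lit 10) (nat_lit 3)) (.cons (.br (nat_lit 11) (nat_lit 1) (.cons (.rf (nat_lit 84) (nat_lit 14238915618)) (.cons (.zr (nat_lit 930887048202713073459593984) (nat_lit 396140812571321970559404736513) (nat_lit 5) (nat_lit 0)) (.cons (.ev (nat_lit 40564820420969973972041554001922) (nat_lit 2)) .nil)))) .nil)))) .nil))))) (.cons (.br (nat_lit 2) (nat_lit 1) (.cons (.rf (nat_lit 31) (nat_lit 411084002)) (.cons (.br (nat_lit 7) (nat_lit 1) (.cons (.rf (nat_lit 84) (nat_lit 13165173825)) (.cons (.rf (nat_lit 84) (nat_lit 12092480546)) (.cons (.br (nat_lit 13) (nat_lit 1) (.cons (.br (nat_lit 12) (nat_lit 1) (.cons (.ev (nat_lit 20995782227475073451042416036610) (nat_lit 4)) .nil)) (.cons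 (.br (nat_lit 11) (nat_lit 1) (.cons (.ev (nat_lit 20995782227475073451042416036610) (nat_lit 4)) .nil)) .nil))) .nil)))) (.cons (.rf (nat_lit 2594) (nat_lit 13263707201)) (.cons (.br (nat_lit 7) (nat_lit 1) (.cons (.br (nat_lit 11) (nat_lit 1) (.cons (.ev (nat_lit 309489732259886631936327936) (nat_lit 1)) (.cons (.br (nat_lit 12) (nat_lit 1) (.cons (.ev (nat_lit 159076518196575058546374410754) (nat_lit 2)) .nil)) .nil))) (.cons (.rf (nat_lit 84) (nat_lit 14239964194)) (.cons (.br (nat_lit 12) (nat_lit 1) (.cons (.br (nat_lit 11) (nat_lit 1) (.cons (.ev (nat_lit 620193131008782222814674946) (nat_lit 2)) .nil)) (.cons (.ev (nat_lit 20361638979814120859039615222016) (nat_lit 1)) .nil))) .nil)))) .nil))))) (.cons (.br (nat_lit 11) (nat_lit 1) (.cons (.rf (nat_lit 3988) (nat_lit 493858305440582043680)) (.cons (.rf (nat_lit 3989) (nat_lit 493858305440582043680)) (.cons (.rf (nat_lit 3991) (nat_lit 493858305440582043680)) (.cons (.br (nat_lit 11) (nat_lit 1) (.cons (.rf (nat_lit 3988) (nat_lit 493858305440582043680))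 (.cons (.ev (nat_lit 309489732259886631936327936) (nat_lit 1)) (.cons (.rf (nat_lit 3991) (nat_lit 493858305440582043680)) .nil)))) .nil))))) .nil)))))),
 (.br (nat_lit 8) (nat_lit 1) (.cons (.rf (nat_lit 3949) (nat_lit 493858305440582043680)) (.cons (.rf (nat_lit 3975) (nat_lit 493858305440582043680)) (.cons (.rf (nat_lit 3987) (nat_lit 493858305440582043680)) (.cons (.rf (nat_lit 3992) (nat_lit 493858305440582043680)) (.cons (.rf (nat_lit 3992) (nat_lit 458117738797769787424)) .nil)))))),
 (.br (nat_lit 11) (nat_lit 1) (.cons (.rf (nat_lit 3893) (nat_lit 13980643884205120)) (.cons (.ev (nat_lit 20282409608392483650890606117121) (nat_lit 1)) .nil))),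
 (.br (nat_lit 7) (nat_lit 1) (.cons (.rf (nat_lit 1858) (nat_lit 421259188523464034528)) (.cons (.rf (nat_lit 84) (nat_lit 12092480577)) (.cons (.rf (nat_lit 3994) (nat_lit 493858305440582043680)) .nil)))),
 (.br (nat_lit 2) (nat_lit 1) (.cons (.rf (nat_lit 31) (nat_lit 411084002)) (.cons (.br (nat_lit 7) (nat_lit 1) (.cons (.rf (nat_lit 1858) (nat_lit 421259188557823771872)) (.cons (.rf (nat_lit 84) (nat_lit 12092480546)) (.cons (.rf (nat_lit 3994) (nat_lit 493858305440549536832)) .nil)))) (.cons (.rf (nat_lit 2594) (nat_lit 13330816065)) (.cons (.br (nat_lit 7) (nat_lit 1) (.cons (.br (nat_lit 11) (nat_lit 1) (.cons (.br (nat_lit 11) (nat_lit 1) (.cons (.ev (nat_lit 20995782227475073451042416036610) (nat_lit 4)) .nil)) (.cons (.br (nat_lit 11) (nat_lit 1) (.cons (.ev (nat_lit 20995782227475073451042416036610) (nat_lit 4)) .nil)) .nil))) (.cons (.rf (nat_lit 84) (nat_lit 14239964194)) (.cons (.rf (nat_lit 84) (nat_lit 13167270977)) .nil)))) .nil))))),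
 (.br (nat_lit 8) (nat_lit 1) (.cons (.rf (nat_lit 3949) (nat_lit 493858305440582043680)) (.cons (.rf (nat_lit 3975) (nat_lit 493858305440582043680)) (.cons (.rf (nat_lit 3987) (nat_lit 493858305440582043680)) (.cons (.rf (nat_lit 3993) (nat_lit 493858305440582043680)) (.cons (.br (nat_lit 1) (nat_lit 1) (.cons (.rf (nat_lit 1593) (nat_lit 459874245697)) (.cons (.ev (nat_lit 4722438541563194769409) (nat_lit 1)) (.cons (.br (nat_lit 2) (nat_lit 1) (.cons (.rf (nat_lit 1593) (nat_lit 459874239714)) (.cons (.br (nat_lit 7) (nat_lit 1) (.cons (.rf (nat_lit 58) (nat_lit 11765801)) (.cons (.rf (nat_lit 3723) (nat_lit 15071359418959904)) (.cons (.rf (nat_lit 3723) (nat_lit 13980643884206112)) .nil)))) (.cons (.rf (nat_lit 3995) (nat_lit 493858305440582043680)) (.cons (.rf (nat_lit 3995) (nat_lit 458117738797769787424)) .nil))))) (.cons (.rf (nat_lit 3996) (nat_lit 493858305440582043680)) (.cons (.rf (nat_lit 3996) (nat_lit 458117738797769787424)) .nil)))))) .nil)))))),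
 (.br (nat_lit 8) (nat_lit 1) (.cons (.rf (nat_lit 3949) (nat_lit 493858305440582043680)) (.cons (.rf (nat_lit 3975) (nat_lit 493858305440582043680)) (.cons (.rf (nat_lit 3987) (nat_lit 493858305440582043680)) (.cons (.rf (nat_lit 3993) (nat_lit 493858305440582043680)) (.cons (.rf (nat_lit 3997) (nat_lit 493858305440582043680)) (.cons (.rf (nat_lit 3997) (nat_lit 458117738797769787424)) .nil))))))),
 (.br (nat_lit 7) (nat_lit 1) (.cons (.rf (nat_lit 29) (nat_lit 9667744)) (.cons (.rf (nat_lit 3501) (nat_lit 407901468716241056)) (.cons (.rf (nat_lit 3501) (nat_lit 372998571604119712)) .nil)))),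
 (.br (nat_lit 9) (nat_lit 1) (.cons (.br (nat_lit 11) (nat_lit 1) (.cons (.ev (nat_lit 79538861190790582928364536065) (nat_lit 1)) (.cons (.br (nat_lit 12) (nat_lit 1) (.cons (.ev (nat_lit 79538861190790864403324534785) (nat_lit 1)) .nil)) .nil))) (.cons (.rf (nat_lit 29) (nat_lit 12880097)) (.cons (.br (nat_lit 13) (nat_lit 1) (.cons (.ev (nat_lit 20282412031003599025056235324160) (nat_lit 2)) (.cons (.rf (nat_lit 31) (nat_lit 449087713)) .nil))) .nil)))),
 (.br (nat_lit 11) (nat_lit 1) (.cons (.ev (nat_lit 310698676454186641271095296) (nat_lit 1)) (.cons (.br (nat_lit 12) (nat_lit 1) (.cons (.kr (nat_lit 79537652246452165531914010880) (nat_lit 20282409603670189225623588700160) (nat_lit 1) (nat_lit 0)) .nil)) .nil))),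
 (.br (nat_lit 9) (nat_lit 1) (.cons (.br (nat_lit 11) (nat_lit 1) (.cons (.rf (nat_lit 31) (nat_lit 414229730)) (.cons (.br (nat_lit 12) (nat_lit 1) (.cons (.zr (nat_lit 79537647524446818364513321216) (nat_lit 2436741105160736964083714) (nat_lit 10) (nat_lit 6)) .nil)) .nil))) (.cons (.zr (nat_lit 18662917963924898304) (nat_lit 1218370552861843492175873) (nat_lit 5) (nat_lit 0)) (.cons (.rf (nat_lit 1784) (nat_lit 13164349647869838400)) .nil)))),
 (.br (nat_lit 11) (nat_lit 1) (.cons (.ev (nat_lit 310698676454186641271095296) (nat_lit 1)) (.cons (.ev (nat_lit 310698658007724042521411841) (nat_lit 1)) .nil))),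
 (.br (nat_lit 12) (nat_lit 1) (.cons (.ev (nat_lit 79229371458530978870916546816) (nat_lit 1)) (.cons (.ev (nat_lit 79229376180969237859622977536) (nat_lit 1)) (.cons (.ev (nat_lit 79538856468352323939658104833) (nat_lit 1)) (.cons (.zr (nat_lit 237684487543009185571335569408) (nat_lit 1208962713385351098925057) (nat_lit 5) (nat_lit 10)) .nil))))),
 (.br (nat_lit 2) (nat_lit 1) (.cons (.br (nat_lit 11) (nat_lit 1) (.cons (.ev (nat_lit 310693954160042840640520448) (nat_lit 1)) (.cons (.ev (nat_lit 310698658007724042521411841) (nat_lit 1)) .nil))) (.cons (.br (nat_lit 9) (nat_lit 1) (.cons (.ev (nat_lit 1213666632841572529537281) (nat_lit 1)) (.cons (.ev (nat_lit 310698658007724042521411841) (nat_lit 1)) .nil))) (.cons (.ev (nat_lit 79229371458530978870916546816) (nat_lit 1)) (.cons (.rf (nat_lit 4004) (nat_lit 458117738797769787424)) .nil))))),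
 (.br (nat_lit 13) (nat_lit 1) (.cons (.br (nat_lit 13) (nat_lit 1) (.cons (.ev (nat_lit 1213666632841572529537281) (nat_lit 1)) (.cons (.zr (nat_lit 60847228810955227444632457576448) (nat_lit 1208962713385351098925057) (nat_lit 5) (nat_lit 10)) (.cons (.ev (nat_lit 79229371440084234797206995201) (nat_lit 1)) .nil)))) (.cons (.br (nat_lit 13) (nat_lit 1) (.cons (.ev (nat_lit 1213666632841572529537281) (nat_lit 1)) (.cons (.ev (nat_lit 310698676454468116230963456) (nat_lit 1)) (.cons (.ev (nat_lit 79229371440084234797206995201) (nat_lit 1)) .nil)))) (.cons (.br (nat_lit 13) (nat_lit 1) (.cons (.zr (nat_lit 60847228810955227444632457576448) (nat_lit 1208962713385351098925057) (nat_lit 5) (nat_lit 10)) (.cons (.ev (nat_lit 310698676454468116230963456) (nat_lit 1)) (.cons (.ev (nat_lit 79229371440084234797206995201) (nat_lit 1)) .nil)))) (.cons (.ev (nat_lit 79229371440084234797206995201) (nat_lit 1)) .nil))))),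
 (.br (nat_lit 11) (nat_lit 1) (.cons (.rf (nat_lit 4006) (nat_lit 493858305440582043680)) (.cons (.br (nat_lit 1) (nat_lit 1) (.cons (.rf (nat_lit 82) (nat_lit 9004360769)) (.cons (.br (nat_lit 12) (nat_lit 1) (.cons (.ev (nat_lit 20998877115462322768377014846722) (nat_lit 4)) .nil)) .nil))) (.cons (.ev (nat_lit 79538856468352323939658104833) (nat_lit 1)) (.cons (.br (nat_lit 12) (nat_lit 1) (.cons (.kr (nat_lit 309485009821345068724781312) (nat_lit 18446744073726328832) (nat_lit 1) (nat_lit 0)) (.cons (.ev (nat_lit 310698658007442567561543681) (nat_lit 1)) (.cons (.ev (nat_lit 20282410812577490039675954462721) (nat_lit 1)) .nil)))) .nil))))),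
 (.br (nat_lit 11) (nat_lit 1) (.cons (.rf (nat_lit 4006) (nat_lit 493858305440582043680)) (.cons (.rf (nat_lit 4007) (nat_lit 493858305440582043680)) (.cons (.ev (nat_lit 310693954159761365646966784) (nat_lit 1)) (.cons (.br (nat_lit 2) (nat_lit 1) (.cons (.ev (nat_lit 310693935713298766930968833) (nat_lit 1)) (.cons (.br (nat_lit 1) (nat_lit 1) (.cons (.ev (nat_lit 21156714451618779864549816992512) (nat_lit 4)) .nil)) (.cons (.zr (nat_lit 60847228810955227444632457576448) (nat_lit 1208962713385351098925057) (nat_lit 5) (nat_lit 10)) .nil)))) .nil))))),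
 (.br (nat_lit 1) (nat_lit 1) (.cons (.rf (nat_lit 3981) (nat_lit 9394274833633353)) (.cons (.br (nat_lit 2) (nat_lit 1) (.cons (.ev (nat_lit 79538856468352323939658104833) (nat_lit 1)) (.cons (.br (nat_lit 11) (nat_lit 1) (.cons (.zr (nat_lit 238612942572257047991101358848) (nat_lit 1218462786583311518007297) (nat_lit 5) (nat_lit 3)) .nil)) .nil))) (.cons (.rf (nat_lit 4006) (nat_lit 493858305440582043680)) (.cons (.ev (nat_lit 79229371440084234797206995201) (nat_lit 1)) .nil))))),
 (.br (nat_lit 11) (nat_lit 1) (.cons (.rf (nat_lit 4006) (nat_lit 493858305440582043680)) (.cons (.rf (nat_lit 4007) (nat_lit 493858305440582043680)) (.cons (.rf (nat_lit 4008) (nat_lit 493858305440582043680)) (.cons (.rf (nat_lit 4009) (nat_lit 493858305440582043680)) (.cons (.br (nat_lit 11) (nat_lit 1) (.cons (.rf (nat_lit 4006) (nat_lit 493858305440582043680)) (.cons (.rf (nat_lit 4007) (nat_lit 493858305440582043680)) (.cons (.rf (nat_lit 4008) (nat_lit 493858305440582043680)) (.cons (.rf (nat_lit 4009) (nat_lit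 493858305440582043680)) .nil))))) .nil)))))),
 (.br (nat_lit 8) (nat_lit 1) (.cons (.rf (nat_lit 3949) (nat_lit 493858305440582043680)) (.cons (.rf (nat_lit 3975) (nat_lit 493858305440582043680)) (.cons (.rf (nat_lit 3987) (nat_lit 493858305440582043680)) (.cons (.rf (nat_lit 3998) (nat_lit 493858305440582043680)) (.cons (.br (nat_lit 7) (nat_lit 1) (.cons (.br (nat_lit 2) (nat_lit 1) (.cons (.ev (nat_lit 1208944338697771898961921) (nat_lit 1)) (.cons (.rf (nat_lit 3999) (nat_lit 482283501406818369)) (.cons (.rf (nat_lit 4000) (nat_lit 493858305440582043680)) (.cons (.rf (nat_lit 4000) (nat_lit 458117738797769787424)) .nil))))) (.cons (.br (nat_lit 1) (nat_lit 1) (.cons (.rf (nat_lit 246) (nat_lit 457825290529)) (.cons (.br (nat_lit 9) (nat_lit 1) (.cons (.zr (nat_lit 18662917963924898304) (nat_lit 1218370552861843492175873) (nat_lit 5) (nat_lit 0)) (.cons (.rf (nat_lit 4001) (nat_lit 493858305440582043680)) (.cons (.rf (nat_lit 4001) (nat_lit 458117738797769787424)) .nil)))) (.cons (.rf (nat_lit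 4002) (nat_lit 493858305440582043680)) (.cons (.rf (nat_lit 4002) (nat_lit 458117738797769787424)) .nil))))) (.cons (.ev (nat_lit 1213666633123047522959361) (nat_lit 1)) (.cons (.br (nat_lit 1) (nat_lit 1) (.cons (.br (nat_lit 9) (nat_lit 1) (.cons (.rf (nat_lit 29) (nat_lit 11836481)) (.cons (.rf (nat_lit 4003) (nat_lit 493858305440582043680)) (.cons (.rf (nat_lit 4003) (nat_lit 458117738797769787424)) .nil)))) (.cons (.kr (nat_lit 4722366764344621924608) (nat_lit 72057602627862528) (nat_lit 1) (nat_lit 0)) (.cons (.br (nat_lit 2) (nat_lit 1) (.cons (.zr (nat_lit 18662917963958452224) (nat_lit 1218370552861843441844993) (nat_lit 5) (nat_lit 6)) (.cons (.rf (nat_lit 4004) (nat_lit 493858305440582043680)) (.cons (.rf (nat_lit 4004) (nat_lit 458117738797769787424)) .nil)))) (.cons (.rf (nat_lit 4005) (nat_lit 493858305440582043680)) (.cons (.rf (nat_lit 4005) (nat_lit 458117738797769787424)) .nil)))))) (.cons (.rf (nat_lit 4010) (nat_lit 493858305440582043680)) (.cons (.rf (nat_lit 4010) (nat_lit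 458117738797769787424)) .nil))))))) .nil)))))),
 (.br (nat_lit 8) (nat_lit 1) (.cons (.rf (nat_lit 3949) (nat_lit 493858305440582043680)) (.cons (.rf (nat_lit 3975) (nat_lit 493858305440582043680)) (.cons (.rf (nat_lit 3987) (nat_lit 493858305440582043680)) (.cons (.rf (nat_lit 3998) (nat_lit 493858305440582043680)) (.cons (.rf (nat_lit 4011) (nat_lit 493858305440582043680)) (.cons (.rf (nat_lit 4011) (nat_lit 458117738797769787424)) .nil))))))),
 (.br (nat_lit 8) (nat_lit 1) (.cons (.rf (nat_lit 3949) (nat_lit 493858305440582043680)) (.cons (.rf (nat_lit 3975) (nat_lit 493858305440582043680)) (.cons (.rf (nat_lit 3987) (nat_lit 493858305440582043680)) (.cons (.rf (nat_lit 3998) (nat_lit 493858305440582043680)) (.cons (.rf (nat_lit 4012) (nat_lit 493858305440582043680)) (.cons (.br (nat_lit 8) (nat_lit 1) (.cons (.rf (nat_lit 3949) (nat_lit 493858305440582043680)) (.cons (.rf (nat_lit 3975) (nat_lit 493858305440582043680)) (.cons (.rf (nat_lit 3987) (nat_lit 493858305440582043680)) (.cons (.rf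 (nat_lit 3998) (nat_lit 493858305440582043680)) (.cons (.rf (nat_lit 4012) (nat_lit 493858305440582043680)) .nil)))))) .nil)))))))]

theorem c137 : chkAll C T R L137 (nat_lit 3988) = true := by decide +kernel

theorem l137 : (nat_lit 3988) + L137.length = (nat_lit 4014) := by decide +kernel

/-- part of the certificates -/
def L138 : List Prf := [(.br (nat_lit 8) (nat_lit 1) (.cons (.br (nat_lit 11) (nat_lit 1) (.cons (.br (nat_lit 12) (nat_lit 1) (.cons (.ev (nat_lit 79228162532783420736268206081) (nat_lit 1)) .nil)) (.cons (.ev (nat_lit 20282719093402377056864838943235) (nat_lit 2)) .nil))) (.cons (.br (nat_lit 11) (nat_lit 1) (.cons (.br (nat_lit 11) (nat_lit 1) (.cons (.ev (nat_lit 310698676454468116230963456) (nat_lit 1)) .nil)) (.cons (.br (nat_lit 11) (nat_lit 1) (.cons (.ev (nat_lit 310698676454468116230963456) (nat_lit 1)) .nil)) .nil))) .nil))),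
 (.br (nat_lit 13) (nat_lit 1) (.cons (.rf (nat_lit 4014) (nat_lit 493858305440582043680)) (.cons (.br (nat_lit 8) (nat_lit 1) (.cons (.zr (nat_lit 20282409603651886598936978260736) (nat_lit 1223092919344713154166785) (nat_lit 5) (nat_lit 0)) (.cons (.rf (nat_lit 1763) (nat_lit 410295210759820514)) (.cons (.ev (nat_lit 20361638975110201401722967949313) (nat_lit 1)) .nil)))) .nil))),
 (.br (nat_lit 13) (nat_lit 1) (.cons (.rf (nat_lit 4014) (nat_lit 493858305440582043680)) (.cons (.rf (nat_lit 4015) (nat_lit 493858305440582043680)) (.cons (.br (nat_lit 13) (nat_lit 1) (.cons (.rf (nat_lit 4014) (nat_lit 493858305440582043680)) (.cons (.rf (nat_lit 4015) (nat_lit 493858305440582043680)) .nil))) .nil)))),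
 (.br (nat_lit 8) (nat_lit 1) (.cons (.br (nat_lit 8) (nat_lit 1) (.cons (.rf (nat_lit 3271) (nat_lit 470979981838368)) (.cons (.rf (nat_lit 4016) (nat_lit 493858305440582043680)) .nil))) (.cons (.br (nat_lit 8) (nat_lit 1) (.cons (.rf (nat_lit 3271) (nat_lit 470979981838368)) (.cons (.rf (nat_lit 4016) (nat_lit 493858305440582043680)) .nil))) (.cons (.rf (nat_lit 4016) (nat_lit 493858305440582043680)) .nil)))),
 (.br (nat_lit 13) (nat_lit 1) (.cons (.rf (nat_lit 4016) (nat_lit 493858305440582043680)) (.cons (.rf (nat_lit 4017) (nat_lit 493858305440582043680)) (.cons (.br (nat_lit 13) (nat_lit 1) (.cons (.rf (nat_lit 4016) (nat_lit 493858305440582043680)) (.cons (.rf (nat_lit 3271) (nat_lit 295047120783658)) .nil))) .nil)))),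
 (.br (nat_lit 13) (nat_lit 1) (.cons (.rf (nat_lit 4016) (nat_lit 493858305440582043680)) (.cons (.rf (nat_lit 4017) (nat_lit 493858305440582043680)) (.cons (.rf (nat_lit 4018) (nat_lit 493858305440582043680)) (.cons (.br (nat_lit 13) (nat_lit 1) (.cons (.rf (nat_lit 4016) (nat_lit 493858305440582043680)) (.cons (.rf (nat_lit 4017) (nat_lit 493858305440582043680)) (.cons (.rf (nat_lit 4018) (nat_lit 493858305440582043680)) .nil)))) .nil))))),
 (.br (nat_lit 7) (nat_lit 1) (.cons (.rf (nat_lit 84) (nat_lit 12222503970)) (.cons (.br (nat_lit 8) (nat_lit 1) (.cons (.ev (nat_lit 18519084246547628288) (nat_lit 1)) (.cons (.br (nat_lit 11) (nat_lit 1) (.cons (.ev (nat_lit 79229371458602754994272731136) (nat_lit 1)) (.cons (.br (nat_lit 12) (nat_lit 1) (.cons (.ev (nat_lit 20837942454687901732726089254148) (nat_lit 3)) .nil)) .nil))) .nil))) (.cons (.rf (nat_lit 84) (nat_lit 12092220642)) (.cons (.br (nat_lit 8) (nat_lit 1) (.cons (.br (nat_lit 11) (nat_lit 1) (.cons (.ev (nat_lit 79229371458602754994272731136)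 (nat_lit 1)) (.cons (.br (nat_lit 12) (nat_lit 1) (.cons (.ev (nat_lit 20679481312808522929364411811588) (nat_lit 3)) .nil)) .nil))) (.cons (.ev (nat_lit 18519084246547628288) (nat_lit 1)) .nil))) .nil))))),
 (.br (nat_lit 12) (nat_lit 1) (.cons (.rf (nat_lit 4019) (nat_lit 493858305440582043680)) (.cons (.rf (nat_lit 4020) (nat_lit 493858305440582043680)) (.cons (.br (nat_lit 12) (nat_lit 1) (.cons (.rf (nat_lit 4019) (nat_lit 493858305440582043680)) (.cons (.rf (nat_lit 4020) (nat_lit 493858305440582043680)) (.cons (.ev (nat_lit 79229371440083953322247127041) (nat_lit 1)) .nil)))) (.cons (.br (nat_lit 12) (nat_lit 1) (.cons (.rf (nat_lit 4019) (nat_lit 493858305440582043680)) (.cons (.rf (nat_lit 4020) (nat_lit 493858305440582043680)) (.cons (.ev (nat_lit 79229371440083953322247127041) (nat_lit 1)) .nil)))) .nil))))),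
 (.br (nat_lit 7) (nat_lit 1) (.cons (.rf (nat_lit 2449) (nat_lit 14239575324987889920)) (.cons (.ev (nat_lit 79228162514264619068537438464) (nat_lit 1)) .nil))),
 (.br (nat_lit 12) (nat_lit 1) (.cons (.ev (nat_lit 79228162514264619072832405504) (nat_lit 1)) (.cons (.rf (nat_lit 4021) (nat_lit 493858305440582043680)) (.cons (.br (nat_lit 7) (nat_lit 1) (.cons (.br (nat_lit 11) (nat_lit 1) (.cons (.rf (nat_lit 84) (nat_lit 13262461993)) (.cons (.zr (nat_lit 309485010037518958956904448) (nat_lit 1218370552861843441844737) (nat_lit 5) (nat_lit 6)) .nil))) (.cons (.rf (nat_lit 84) (nat_lit 9004424257)) (.cons (.rf (nat_lit 4022) (nat_lit 15433072045017106464)) .nil)))) .nil)))),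
 (.br (nat_lit 12) (nat_lit 1) (.cons (.rf (nat_lit 4019) (nat_lit 493858305440582043680)) (.cons (.rf (nat_lit 4021) (nat_lit 493858305440582043680)) (.cons (.rf (nat_lit 4023) (nat_lit 493858305440582043680)) (.cons (.br (nat_lit 12) (nat_lit 1) (.cons (.rf (nat_lit 4019) (nat_lit 493858305440582043680)) (.cons (.rf (nat_lit 4021) (nat_lit 493858305440582043680)) (.cons (.rf (nat_lit 4023) (nat_lit 493858305440582043680)) .nil)))) .nil))))),
 (.br (nat_lit 12) (nat_lit 1) (.cons (.rf (nat_lit 4019) (nat_lit 493858305440582043680)) (.cons (.rf (nat_lit 4021) (nat_lit 493858305440582043680)) (.cons (.rf (nat_lit 4024) (nat_lit 493858305440582043680)) (.cons (.br (nat_lit 12) (nat_lit 1) (.cons (.rf (nat_lit 4019) (nat_lit 493858305440582043680)) (.cons (.ev (nat_lit 79229371440083953322247127041) (nat_lit 1)) (.cons (.rf (nat_lit 4024) (nat_lit 493858305440582043680)) .nil)))) .nil))))),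
 (.br (nat_lit 12) (nat_lit 1) (.cons (.rf (nat_lit 4019) (nat_lit 493858305440582043680)) (.cons (.rf (nat_lit 4021) (nat_lit 493858305440582043680)) (.cons (.rf (nat_lit 4024) (nat_lit 493858305440582043680)) (.cons (.rf (nat_lit 4025) (nat_lit 493858305440582043680)) (.cons (.br (nat_lit 12) (nat_lit 1) (.cons (.rf (nat_lit 4019) (nat_lit 493858305440582043680)) (.cons (.rf (nat_lit 4021) (nat_lit 493858305440582043680)) (.cons (.rf (nat_lit 4024) (nat_lit 493858305440582043680)) (.cons (.rf (nat_lit 4025) (nat_lit 493858305440582043680)) .nil))))) .nil)))))),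
 (.br (nat_lit 2) (nat_lit 1) (.cons (.rf (nat_lit 1339) (nat_lit 391152471265)) (.cons (.rf (nat_lit 31) (nat_lit 377718050)) (.cons (.rf (nat_lit 1339) (nat_lit 288076565538)) (.cons (.br (nat_lit 8) (nat_lit 1) (.cons (.rf (nat_lit 84) (nat_lit 13262627874)) (.cons (.rf (nat_lit 3281) (nat_lit 482283501406750752)) (.cons (.br (nat_lit 9) (nat_lit 1) (.cons (.rf (nat_lit 84) (nat_lit 13164913890)) (.cons (.br (nat_lit 12) (nat_lit 1) (.cons (.zr (nat_lit 930872881103264481703822080) (nat_lit 23648726185070150287364) (nat_lit 5) (nat_lit 3)) (.cons (.ev (nat_lit 79228162532711363146541957121) (nat_lit 1)) .nil))) (.cons (.br (nat_lit 11) (nat_lit 1) (.cons (.br (nat_lit 12) (nat_lit 1) (.cons (.zr (nat_lit 13298350038435605843805184) (nat_lit 792591157376489837705165799436) (nat_lit 15) (nat_lit 6)) .nil)) (.cons (.ev (nat_lit 20282719093402305277434307543296) (nat_lit 1)) .nil))) .nil)))) .nil)))) (.cons (.br (nat_lit 8) (nat_lit 1) (.cons (.rf (nat_lit 84) (nat_lit 14336369698)) (.cons (.br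 (nat_lit 11) (nat_lit 1) (.cons (.rf (nat_lit 84) (nat_lit 14238655714)) (.cons (.zr (nat_lit 928455029464035223354408961) (nat_lit 3626814352614609448337920) (nat_lit 5) (nat_lit 5)) (.cons (.br (nat_lit 9) (nat_lit 1) (.cons (.br (nat_lit 12) (nat_lit 1) (.cons (.ev (nat_lit 79229371458602754994272731136) (nat_lit 1)) .nil)) (.cons (.ev (nat_lit 20282720302328196669282071871745) (nat_lit 1)) .nil))) .nil)))) (.cons (.br (nat_lit 9) (nat_lit 1) (.cons (.rf (nat_lit 84) (nat_lit 14238655714)) (.cons (.br (nat_lit 13) (nat_lit 1) (.cons (.ev (nat_lit 20282409613096547789661047816705) (nat_lit 2)) (.cons (.ev (nat_lit 20282409603670189225615015543041) (nat_lit 1)) .nil))) (.cons (.ev (nat_lit 20282409603651670423951546319104) (nat_lit 1)) .nil)))) .nil)))) .nil)))))),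
 (.br (nat_lit 8) (nat_lit 1) (.cons (.rf (nat_lit 82) (nat_lit 13262686247)) (.cons (.rf (nat_lit 2594) (nat_lit 12215126311)) (.cons (.br (nat_lit 2) (nat_lit 1) (.cons (.rf (nat_lit 58) (nat_lit 11836481)) (.cons (.br (nat_lit 13) (nat_lit 1) (.cons (.rf (nat_lit 3787) (nat_lit 493858305440581027872)) (.cons (.zr (nat_lit 237684487543009185579925504000) (nat_lit 1218407446351090389352449) (nat_lit 5) (nat_lit 3)) .nil))) (.cons (.ev (nat_lit 18519084246547628288) (nat_lit 1)) .nil)))) .nil)))),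
 (.br (nat_lit 8) (nat_lit 1) (.cons (.rf (nat_lit 1343) (nat_lit 457785484513)) (.cons (.rf (nat_lit 1339) (nat_lit 287841750055)) (.cons (.rf (nat_lit 4028) (nat_lit 493858305440582043680)) (.cons (.br (nat_lit 8) (nat_lit 1) (.cons (.ev (nat_lit 1208944266358707179290881) (nat_lit 1)) (.cons (.rf (nat_lit 2594) (nat_lit 12248680743)) (.cons (.rf (nat_lit 4028) (nat_lit 493858305440582043680)) .nil)))) .nil))))),
 (.br (nat_lit 9) (nat_lit 1) (.cons (.br (nat_lit 8) (nat_lit 1) (.cons (.ev (nat_lit 80157831210361214376559640832) (nat_lit 2)) (.cons (.br (nat_lit 12) (nat_lit 1) (.cons (.ev (nat_lit 79228162532711363146541957121) (nat_lit 1)) .nil)) .nil))) (.cons (.ev (nat_lit 310698658007724042521411841) (nat_lit 1)) (.cons (.br (nat_lit 12) (nat_lit 1) (.cons (.br (nat_lit 8) (nat_lit 1) (.cons (.zr (nat_lit 1551051845084374210315618816) (nat_lit 316912692558356259151053586439) (nat_lit 10) (nat_lit 0)) .nil)) (.cons (.ev (nat_lit 20361947255898122872057965314048) (nat_lit 1)) .nil))) .nil)))),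
 (.br (nat_lit 12) (nat_lit 1) (.cons (.rf (nat_lit 4030) (nat_lit 493858305440582043680)) (.cons (.ev (nat_lit 310698658007724042521411841) (nat_lit 1)) (.cons (.br (nat_lit 8) (nat_lit 1) (.cons (.zr (nat_lit 928455029464316689741185024) (nat_lit 158457533954492406103866867713) (nat_lit 5) (nat_lit 5)) (.cons (.ev (nat_lit 79229371458602754994272731136) (nat_lit 1)) (.cons (.br (nat_lit 2) (nat_lit 1) (.cons (.zr (nat_lit 14222440806729971138560) (nat_lit 158457533954492406108161835009) (nat_lit 5) (nat_lit 5)) .nil)) .nil)))) .nil)))),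
 (.br (nat_lit 11) (nat_lit 1) (.cons (.rf (nat_lit 4026) (nat_lit 493858305440582043680)) (.cons (.rf (nat_lit 4027) (nat_lit 493858305440582043680)) (.cons (.rf (nat_lit 4029) (nat_lit 493858305440582043680)) (.cons (.br (nat_lit 12) (nat_lit 1) (.cons (.rf (nat_lit 4030) (nat_lit 493858305440582043680)) (.cons (.rf (nat_lit 4031) (nat_lit 493858305440582043680)) (.cons (.ev (nat_lit 310698658007724042521411841) (nat_lit 1)) (.cons (.br (nat_lit 12) (nat_lit 1) (.cons (.rf (nat_lit 4030) (nat_lit 493858305440582043680)) (.cons (.rf (nat_lit 4031) (nat_lit 493858305440582043680)) (.cons (.ev (nat_lit 310698658007724042521411841) (nat_lit 1)) .nil)))) .nil))))) .nil))))),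
 (.br (nat_lit 11) (nat_lit 1) (.cons (.rf (nat_lit 4026) (nat_lit 493858305440582043680)) (.cons (.rf (nat_lit 4027) (nat_lit 493858305440582043680)) (.cons (.rf (nat_lit 4029) (nat_lit 493858305440582043680)) (.cons (.rf (nat_lit 4032) (nat_lit 493858305440582043680)) (.cons (.br (nat_lit 11) (nat_lit 1) (.cons (.rf (nat_lit 4026) (nat_lit 493858305440582043680)) (.cons (.rf (nat_lit 4027) (nat_lit 493858305440582043680)) (.cons (.rf (nat_lit 4029) (nat_lit 493858305440582043680)) (.cons (.rf (nat_lit 4032) (nat_lit 493858305440582043680)) .nil))))) .nil)))))),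
 (.br (nat_lit 2) (nat_lit 1) (.cons (.rf (nat_lit 31) (nat_lit 377783522)) (.cons (.rf (nat_lit 1339) (nat_lit 391085362465)) (.cons (.rf (nat_lit 1339) (nat_lit 288009522210)) (.cons (.br (nat_lit 11) (nat_lit 1) (.cons (.rf (nat_lit 84) (nat_lit 13164913890)) (.cons (.ev (nat_lit 309489732187829042176655616) (nat_lit 1)) (.cons (.br (nat_lit 7) (nat_lit 1) (.cons (.ev (nat_lit 310698676526525714580701440) (nat_lit 1)) (.cons (.br (nat_lit 8) (nat_lit 1) (.cons (.ev (nat_lit 18519084246547628288) (nat_lit 1)) (.cons (.ev (nat_lit 309499232333367175467237890) (nat_lit 2)) .nil))) (.cons (.br (nat_lit 13) (nat_lit 1) (.cons (.ev (nat_lit 18519084246547628288) (nat_lit 1)) (.cons (.zr (nat_lit 60847228810955011276239800369920) (nat_lit 620178945462586245912854529) (nat_lit 5) (nat_lit 4)) .nil))) .nil)))) .nil)))) (.cons (.br (nat_lit 11) (nat_lit 1) (.cons (.rf (nat_lit 84) (nat_lit 14238655714)) (.cons (.br (nat_lit 7) (nat_lit 1) (.cons (.ev (nat_lit 310698676526525714580701440) (nat_lit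 1)) (.cons (.br (nat_lit 8) (nat_lit 1) (.cons (.ev (nat_lit 309499232333367175467237890) (nat_lit 2)) (.cons (.ev (nat_lit 18519084246547628288) (nat_lit 1)) .nil))) (.cons (.br (nat_lit 8) (nat_lit 1) (.cons (.ev (nat_lit 18519084246547628288) (nat_lit 1)) (.cons (.ev (nat_lit 309499232333367175467237890) (nat_lit 2)) .nil))) .nil)))) (.cons (.ev (nat_lit 309489732187829042176655616) (nat_lit 1)) .nil)))) .nil)))))),
 (.br (nat_lit 13) (nat_lit 1) (.cons (.ev (nat_lit 18519084246547628288) (nat_lit 1)) (.cons (.ev (nat_lit 40565128706517155974157397328385) (nat_lit 2)) (.cons (.br (nat_lit 7) (nat_lit 1) (.cons (.ev (nat_lit 20837318658372675387923863241988) (nat_lit 3)) .nil)) .nil)))),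
 (.br (nat_lit 13) (nat_lit 1) (.cons (.br (nat_lit 13) (nat_lit 1) (.cons (.ev (nat_lit 18519084246547628288) (nat_lit 1)) (.cons (.zr (nat_lit 309508621654603854765948931) (nat_lit 81129640832458320927246411367424) (nat_lit 10) (nat_lit 5)) (.cons (.ev (nat_lit 79228162514336676662558654464) (nat_lit 1)) .nil)))) (.cons (.rf (nat_lit 4035) (nat_lit 493858305440582043680)) (.cons (.br (nat_lit 7) (nat_lit 1) (.cons (.zr (nat_lit 314320713100648023238706688) (nat_lit 23685619392842121084931) (nat_lit 10) (nat_lit 3)) (.cons (.ev (nat_lit 158765824205593865532096053251) (nat_lit 2)) (.cons (.zr (nat_lit 309508621654603854765948931) (nat_lit 81129640832458320927246411367424) (nat_lit 10) (nat_lit 5)) .nil)))) (.cons (.br (nat_lit 13) (nat_lit 1) (.cons (.ev (nat_lit 79228162514336676662558654464) (nat_lit 1)) (.cons (.rf (nat_lit 4035) (nat_lit 493858305440582043680)) (.cons (.zr (nat_lit 928469196563765311561728001) (nat_lit 81129640832458320927246411367424) (nat_lit 10) (nat_lit 5)) .nil))))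 .nil))))),
 (.br (nat_lit 12) (nat_lit 1) (.cons (.rf (nat_lit 4036) (nat_lit 493858305440582043680)) (.cons (.br (nat_lit 9) (nat_lit 1) (.cons (.ev (nat_lit 79538861190718806813598285825) (nat_lit 1)) (.cons (.ev (nat_lit 309489750706630705645879553) (nat_lit 1)) .nil))) (.cons (.ev (nat_lit 79228162514264619072832405504) (nat_lit 1)) (.cons (.br (nat_lit 2) (nat_lit 1) (.cons (.ev (nat_lit 79229371458530697395956678656) (nat_lit 1)) (.cons (.rf (nat_lit 3981) (nat_lit 15035044362096705)) (.cons (.br (nat_lit 8) (nat_lit 1) (.cons (.zr (nat_lit 79228162533071372944568026368) (nat_lit 2436741105723686984351746) (nat_lit 10) (nat_lit 0)) .nil)) .nil)))) .nil))))),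
 (.br (nat_lit 2) (nat_lit 1) (.cons (.zr (nat_lit 928455029464035223354408961) (nat_lit 3626814352614609448337920) (nat_lit 5) (nat_lit 5)) (.cons (.br (nat_lit 7) (nat_lit 1) (.cons (.ev (nat_lit 79538861190718806813598285825) (nat_lit 1)) (.cons (.br (nat_lit 12) (nat_lit 1) (.cons (.zr (nat_lit 237684487598349422181920800768) (nat_lit 1548643419659587191377494017) (nat_lit 5) (nat_lit 0)) .nil)) .nil))) (.cons (.rf (nat_lit 4036) (nat_lit 493858305440582043680)) (.cons (.br (nat_lit 7) (nat_lit 1) (.cons (.br (nat_lit 12) (nat_lit 1) (.cons (.ev (nat_lit 79229371458602754994272731136) (nat_lit 1)) .nil)) (.cons (.rf (nat_lit 4037) (nat_lit 493858305440582043680)) (.cons (.ev (nat_lit 18519084246547628288) (nat_lit 1)) .nil)))) .nil))))),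
 (.br (nat_lit 12) (nat_lit 1) (.cons (.rf (nat_lit 4036) (nat_lit 493858305440582043680)) (.cons (.ev (nat_lit 79228162514264619072832405504) (nat_lit 1)) (.cons (.rf (nat_lit 4038) (nat_lit 493858305440582043680)) (.cons (.br (nat_lit 2) (nat_lit 1) (.cons (.ev (nat_lit 79537652246452165531930787841) (nat_lit 1)) (.cons (.br (nat_lit 7) (nat_lit 1) (.cons (.ev (nat_lit 20837937618947440434184026391810) (nat_lit 3)) .nil)) (.cons (.ev (nat_lit 158765824205449750352643555331) (nat_lit 2)) .nil)))) .nil)))))]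

theorem c138 : chkAll C T R L138 (nat_lit 4014) = true := by decide +kernel

theorem l138 : (nat_lit 4014) + L138.length = (nat_lit 4040) := by decide +kernel

/-- part of the certificates -/
def L139 : List Prf := [(.br (nat_lit 11) (nat_lit 1) (.cons (.rf (nat_lit 4026) (nat_lit 493858305440582043680)) (.cons (.rf (nat_lit 4033) (nat_lit 493858305440582043680)) (.cons (.rf (nat_lit 4034) (nat_lit 493858305440582043680)) (.cons (.br (nat_lit 12) (nat_lit 1) (.cons (.rf (nat_lit 4036) (nat_lit 493858305440582043680)) (.cons (.rf (nat_lit 4037) (nat_lit 493858305440582043680)) (.cons (.rf (nat_lit 4038) (nat_lit 493858305440582043680)) (.cons (.rf (nat_lit 4039) (nat_lit 493858305440582043680)) (.cons (.br (nat_lit 12) (nat_lit 1) (.cons (.rf (nat_lit 4036) (nat_lit 493858305440582043680)) (.cons (.rf (nat_lit 4037) (nat_lit 493858305440582043680)) (.cons (.rf (nat_lit 4038) (nat_lit 493858305440582043680)) (.cons (.rf (nat_lit 4039) (nat_lit 493858305440582043680)) .nil))))) .nil)))))) .nil))))),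
 (.br (nat_lit 11) (nat_lit 1) (.cons (.rf (nat_lit 4026) (nat_lit 493858305440582043680)) (.cons (.rf (nat_lit 4033) (nat_lit 493858305440582043680)) (.cons (.rf (nat_lit 4034) (nat_lit 493858305440582043680)) (.cons (.rf (nat_lit 4040) (nat_lit 493858305440582043680)) (.cons (.br (nat_lit 11) (nat_lit 1) (.cons (.rf (nat_lit 4026) (nat_lit 493858305440582043680)) (.cons (.rf (nat_lit 4033) (nat_lit 493858305440582043680)) (.cons (.rf (nat_lit 4034) (nat_lit 493858305440582043680)) (.cons (.rf (nat_lit 4040) (nat_lit 493858305440582043680)) .nil))))) .nil)))))),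
 (.br (nat_lit 7) (nat_lit 1) (.cons (.kr (nat_lit 1) (nat_lit 18446744073709551616) (nat_lit 0) (nat_lit 1)) (.cons (.rf (nat_lit 2375) (nat_lit 15325057122182465568)) (.cons (.br (nat_lit 13) (nat_lit 1) (.cons (.ev (nat_lit 1208944266358707179290881) (nat_lit 1)) (.cons (.zr (nat_lit 60847228810955011276239800369920) (nat_lit 620178945462586245912854529) (nat_lit 5) (nat_lit 4)) .nil))) .nil)))),
 (.br (nat_lit 2) (nat_lit 1) (.cons (.kr (nat_lit 1) (nat_lit 18446744073709551616) (nat_lit 0) (nat_lit 1)) (.cons (.br (nat_lit 8) (nat_lit 1) (.cons (.ev (nat_lit 79228162514336676662558654464) (nat_lit 1)) (.cons (.br (nat_lit 12) (nat_lit 1) (.cons (.zr (nat_lit 79229371440156291300323230208) (nat_lit 9481626454986237935617) (nat_lit 5) (nat_lit 3)) .nil)) .nil))) (.cons (.br (nat_lit 13) (nat_lit 1) (.cons (.rf (nat_lit 84) (nat_lit 12255829033)) (.cons (.ev (nat_lit 20282719093383858533360597991681) (nat_lit 1)) .nil))) .nil)))),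
 (.br (nat_lit 8) (nat_lit 1) (.cons (.rf (nat_lit 4042) (nat_lit 493858305440582043680)) (.cons (.rf (nat_lit 4043) (nat_lit 493858305440582043680)) (.cons (.br (nat_lit 2) (nat_lit 1) (.cons (.rf (nat_lit 3810) (nat_lit 493858305440581027872)) (.cons (.br (nat_lit 7) (nat_lit 1) (.cons (.zr (nat_lit 237684487543009185579925504000) (nat_lit 1218407446351090389352449) (nat_lit 5) (nat_lit 3)) .nil)) (.cons (.br (nat_lit 7) (nat_lit 1) (.cons (.ev (nat_lit 80156631766384511198326554883) (nat_lit 2)) .nil)) .nil)))) .nil)))),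
 (.br (nat_lit 11) (nat_lit 1) (.cons (.rf (nat_lit 4026) (nat_lit 493858305440582043680)) (.cons (.rf (nat_lit 4033) (nat_lit 493858305440582043680)) (.cons (.rf (nat_lit 4041) (nat_lit 493858305440582043680)) (.cons (.br (nat_lit 8) (nat_lit 1) (.cons (.rf (nat_lit 4042) (nat_lit 493858305440582043680)) (.cons (.rf (nat_lit 4043) (nat_lit 493858305440582043680)) (.cons (.rf (nat_lit 4044) (nat_lit 493858305440582043680)) (.cons (.br (nat_lit 8) (nat_lit 1) (.cons (.ev (nat_lit 1208944266358707179290881) (nat_lit 1)) (.cons (.rf (nat_lit 4043) (nat_lit 493858305440582043680)) (.cons (.rf (nat_lit 4044) (nat_lit 493858305440582043680)) .nil)))) .nil))))) .nil))))),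
 (.br (nat_lit 11) (nat_lit 1) (.cons (.rf (nat_lit 4026) (nat_lit 493858305440582043680)) (.cons (.rf (nat_lit 4033) (nat_lit 493858305440582043680)) (.cons (.rf (nat_lit 4041) (nat_lit 493858305440582043680)) (.cons (.rf (nat_lit 4045) (nat_lit 493858305440582043680)) (.cons (.br (nat_lit 11) (nat_lit 1) (.cons (.rf (nat_lit 4026) (nat_lit 493858305440582043680)) (.cons (.rf (nat_lit 4033) (nat_lit 493858305440582043680)) (.cons (.rf (nat_lit 4041) (nat_lit 493858305440582043680)) (.cons (.rf (nat_lit 4045) (nat_lit 493858305440582043680)) .nil))))) .nil)))))),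
 (.br (nat_lit 11) (nat_lit 1) (.cons (.rf (nat_lit 4026) (nat_lit 493858305440582043680)) (.cons (.rf (nat_lit 4033) (nat_lit 493858305440582043680)) (.cons (.rf (nat_lit 4041) (nat_lit 493858305440582043680)) (.cons (.rf (nat_lit 4046) (nat_lit 493858305440582043680)) (.cons (.br (nat_lit 11) (nat_lit 1) (.cons (.rf (nat_lit 4026) (nat_lit 493858305440582043680)) (.cons (.rf (nat_lit 4033) (nat_lit 493858305440582043680)) (.cons (.rf (nat_lit 4041) (nat_lit 493858305440582043680)) (.cons (.rf (nat_lit 4046) (nat_lit 493858305440582043680)) .nil))))) .nil)))))),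
 (.br (nat_lit 11) (nat_lit 1) (.cons (.rf (nat_lit 4026) (nat_lit 493858305440582043680)) (.cons (.rf (nat_lit 4033) (nat_lit 493858305440582043680)) (.cons (.rf (nat_lit 4041) (nat_lit 493858305440582043680)) (.cons (.rf (nat_lit 4046) (nat_lit 493858305440582043680)) (.cons (.rf (nat_lit 4047) (nat_lit 493858305440582043680)) (.cons (.br (nat_lit 11) (nat_lit 1) (.cons (.rf (nat_lit 4026) (nat_lit 493858305440582043680)) (.cons (.rf (nat_lit 4033) (nat_lit 493858305440582043680)) (.cons (.rf (nat_lit 4041) (nat_lit 493858305440582043680)) (.cons (.rf (nat_lit 4046) (nat_lit 493858305440582043680)) (.cons (.rf (nat_lit 4047) (nat_lit 493858305440582043680)) .nil)))))) .nil))))))),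
 (.br (nat_lit 11) (nat_lit 1) (.cons (.rf (nat_lit 2594) (nat_lit 8994006242)) (.cons (.rf (nat_lit 82) (nat_lit 13165110306)) (.cons (.br (nat_lit 8) (nat_lit 1) (.cons (.rf (nat_lit 58) (nat_lit 8690753)) (.cons (.br (nat_lit 9) (nat_lit 1) (.cons (.ev (nat_lit 4740885285636904321024) (nat_lit 1)) (.cons (.br (nat_lit 12) (nat_lit 1) (.cons (.ev (nat_lit 158765814816201694972511060480) (nat_lit 2)) .nil)) .nil))) (.cons (.br (nat_lit 9) (nat_lit 1) (.cons (.br (nat_lit 12) (nat_lit 1) (.cons (.ev (nat_lit 158765824223896494426353106946) (nat_lit 2)) .nil)) (.cons (.ev (nat_lit 4740885285636904321024) (nat_lit 1)) .nil))) .nil)))) .nil)))),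
 (.br (nat_lit 12) (nat_lit 1) (.cons (.rf (nat_lit 2594) (nat_lit 8960484578)) (.cons (.rf (nat_lit 82) (nat_lit 12092417058)) (.cons (.br (nat_lit 8) (nat_lit 1) (.cons (.zr (nat_lit 79228162514480512578992734208) (nat_lit 1218370552861843441844737) (nat_lit 5) (nat_lit 6)) (.cons (.ev (nat_lit 79229371458530697395956678656) (nat_lit 1)) (.cons (.br (nat_lit 13) (nat_lit 1) (.cons (.ev (nat_lit 4740885285636904321024) (nat_lit 1)) (.cons (.zr (nat_lit 237684487543009187761785667584) (nat_lit 40564820416229160744002948956673) (nat_lit 5) (nat_lit 6)) .nil))) .nil)))) .nil)))),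
 (.br (nat_lit 13) (nat_lit 1) (.cons (.rf (nat_lit 2594) (nat_lit 8960517346)) (.cons (.rf (nat_lit 82) (nat_lit 12093465634)) (.cons (.br (nat_lit 9) (nat_lit 1) (.cons (.rf (nat_lit 58) (nat_lit 8690753)) (.cons (.ev (nat_lit 20282410817299856522549894643713) (nat_lit 1)) (.cons (.br (nat_lit 8) (nat_lit 1) (.cons (.br (nat_lit 11) (nat_lit 1) (.cons (.ev (nat_lit 20996391582941168002752846168846) (nat_lit 4)) .nil)) (.cons (.ev (nat_lit 4740885285636904321024) (nat_lit 1)) .nil))) .nil)))) .nil)))),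
 (.br (nat_lit 1) (nat_lit 1) (.cons (.kr (nat_lit 1) (nat_lit 18446744073709551616) (nat_lit 0) (nat_lit 1)) (.cons (.ev (nat_lit 4722438541563194769409) (nat_lit 1)) (.cons (.br (nat_lit 11) (nat_lit 1) (.cons (.rf (nat_lit 1339) (nat_lit 391152634914)) (.cons (.rf (nat_lit 1343) (nat_lit 457790727202)) (.cons (.rf (nat_lit 4049) (nat_lit 493858305440582043680)) (.cons (.br (nat_lit 11) (nat_lit 1) (.cons (.rf (nat_lit 2594) (nat_lit 9027560674)) (.cons (.rf (nat_lit 82) (nat_lit 14238852130)) (.cons (.rf (nat_lit 4049) (nat_lit 493858305440582043680)) .nil)))) .nil))))) (.cons (.br (nat_lit 12) (nat_lit 1) (.cons (.rf (nat_lit 1339) (nat_lit 424438634530)) (.cons (.rf (nat_lit 1343) (nat_lit 457824281634)) (.cons (.rf (nat_lit 4050) (nat_lit 493858305440582043680)) (.cons (.br (nat_lit 12) (nat_lit 1) (.cons (.rf (nat_lit 2594) (nat_lit 9027593442)) (.cons (.rf (nat_lit 82) (nat_lit 14239900706)) (.cons (.rf (nat_lit 4050) (nat_lit 493858305440582043680)) .nil)))) .nil))))) (.cons (.br (nat_lit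 13) (nat_lit 1) (.cons (.rf (nat_lit 1339) (nat_lit 459872111650)) (.cons (.rf (nat_lit 3822) (nat_lit 459805068353)) (.cons (.rf (nat_lit 4051) (nat_lit 493858305440582043680)) (.cons (.br (nat_lit 13) (nat_lit 1) (.cons (.rf (nat_lit 2594) (nat_lit 8994071778)) (.cons (.rf (nat_lit 82) (nat_lit 13167207458)) (.cons (.rf (nat_lit 4051) (nat_lit 493858305440582043680)) .nil)))) .nil))))) .nil)))))),
 (.br (nat_lit 11) (nat_lit 1) (.cons (.rf (nat_lit 82) (nat_lit 13165173794)) (.cons (.rf (nat_lit 2594) (nat_lit 8994004258)) (.cons (.br (nat_lit 7) (nat_lit 1) (.cons (.rf (nat_lit 58) (nat_lit 8690753)) (.cons (.br (nat_lit 12) (nat_lit 1) (.cons (.rf (nat_lit 84) (nat_lit 12222440513)) (.cons (.ev (nat_lit 79537647524158021731300212993) (nat_lit 1)) .nil))) (.cons (.br (nat_lit 13) (nat_lit 1) (.cons (.ev (nat_lit 20282721515957864809550993097474) (nat_lit 2)) (.cons (.ev (nat_lit 20282409603651742481541305991424) (nat_lit 1)) .nil))) .nil)))) .nil)))),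
 (.br (nat_lit 12) (nat_lit 1) (.cons (.rf (nat_lit 82) (nat_lit 12092480546)) (.cons (.rf (nat_lit 2594) (nat_lit 8960482594)) (.cons (.br (nat_lit 8) (nat_lit 1) (.cons (.zr (nat_lit 79228162514480512578992734208) (nat_lit 1218370552861843441844737) (nat_lit 5) (nat_lit 6)) (.cons (.br (nat_lit 7) (nat_lit 1) (.cons (.rf (nat_lit 84) (nat_lit 13262627905)) (.cons (.ev (nat_lit 1213666705180645839142913) (nat_lit 1)) .nil))) (.cons (.ev (nat_lit 79228162532711363146541957121) (nat_lit 1)) .nil)))) .nil)))),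
 (.br (nat_lit 13) (nat_lit 1) (.cons (.rf (nat_lit 82) (nat_lit 12093529122)) (.cons (.rf (nat_lit 2594) (nat_lit 8960515362)) (.cons (.br (nat_lit 7) (nat_lit 1) (.cons (.rf (nat_lit 58) (nat_lit 8690753)) (.cons (.br (nat_lit 8) (nat_lit 1) (.cons (.ev (nat_lit 20282720302328196669282071871745) (nat_lit 1)) (.cons (.br (nat_lit 11) (nat_lit 1) (.cons (.zr (nat_lit 928455029464316689741185024) (nat_lit 158457533954492406103866867713) (nat_lit 5) (nat_lit 5)) .nil)) .nil))) (.cons (.br (nat_lit 11) (nat_lit 1) (.cons (.zr (nat_lit 2417870086254811381104640) (nat_lit 40564819212025779391656720596994) (nat_lit 5) (nat_lit 3)) (.cons (.ev (nat_lit 20361638979814120859039615222016) (nat_lit 1)) .nil))) .nil)))) .nil)))),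
 (.br (nat_lit 1) (nat_lit 1) (.cons (.ev (nat_lit 4722438541563194769409) (nat_lit 1)) (.cons (.rf (nat_lit 58) (nat_lit 8685607)) (.cons (.br (nat_lit 11) (nat_lit 1) (.cons (.rf (nat_lit 1343) (nat_lit 457792822306)) (.cons (.rf (nat_lit 1339) (nat_lit 391085591586)) (.cons (.rf (nat_lit 4053) (nat_lit 493858305440582043680)) (.cons (.br (nat_lit 11) (nat_lit 1) (.cons (.rf (nat_lit 82) (nat_lit 14238915618)) (.cons (.rf (nat_lit 2594) (nat_lit 9027558690)) (.cons (.rf (nat_lit 4053) (nat_lit 493858305440582043680)) .nil)))) .nil))))) (.cons (.br (nat_lit 12) (nat_lit 1) (.cons (.rf (nat_lit 1343) (nat_lit 457826376738)) (.cons (.rf (nat_lit 1339) (nat_lit 424371591202)) (.cons (.rf (nat_lit 4054) (nat_lit 493858305440582043680)) (.cons (.br (nat_lit 12) (nat_lit 1) (.cons (.rf (nat_lit 82) (nat_lit 14239964194)) (.cons (.rf (nat_lit 2594) (nat_lit 9027591458)) (.cons (.rf (nat_lit 4054) (nat_lit 493858305440582043680)) .nil)))) .nil))))) (.cons (.br (nat_lit 13) (nat_lit 1) (.cons (.rf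 (nat_lit 3822) (nat_lit 459872111681)) (.cons (.rf (nat_lit 1339) (nat_lit 459805068322)) (.cons (.rf (nat_lit 4055) (nat_lit 493858305440582043680)) (.cons (.br (nat_lit 13) (nat_lit 1) (.cons (.rf (nat_lit 82) (nat_lit 13167270946)) (.cons (.ev (nat_lit 20282410817299856522549894643713) (nat_lit 1)) (.cons (.rf (nat_lit 4055) (nat_lit 493858305440582043680)) .nil)))) .nil))))) .nil)))))),
 (.br (nat_lit 11) (nat_lit 1) (.cons (.rf (nat_lit 3829) (nat_lit 493858305440581027872)) .nil)),
 (.br (nat_lit 11) (nat_lit 1) (.cons (.rf (nat_lit 84) (nat_lit 14238688481)) (.cons (.ev (nat_lit 309485028340429315255631873) (nat_lit 1)) (.cons (.br (nat_lit 9) (nat_lit 1) (.cons (.br (nat_lit 12) (nat_lit 1) (.cons (.ev (nat_lit 20837318658298744296466752668928) (nat_lit 3)) .nil)) (.cons (.ev (nat_lit 310698658007724042521411841) (nat_lit 1)) .nil))) .nil)))),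
 (.br (nat_lit 13) (nat_lit 1) (.cons (.rf (nat_lit 3845) (nat_lit 9441507865207882)) (.cons (.ev (nat_lit 309489732187829042176655616) (nat_lit 1)) (.cons (.br (nat_lit 7) (nat_lit 1) (.cons (.rf (nat_lit 84) (nat_lit 14238688481)) (.cons (.rf (nat_lit 3219) (nat_lit 415484136772863139114)) (.cons (.rf (nat_lit 3597) (nat_lit 13804370004216106)) .nil)))) .nil)))),
 (.br (nat_lit 11) (nat_lit 1) (.cons (.ev (nat_lit 309485028340429315255631873) (nat_lit 1)) (.cons (.rf (nat_lit 4059) (nat_lit 493858305440582043680)) (.cons (.br (nat_lit 7) (nat_lit 1) (.cons (.ev (nat_lit 310693954159761365646966784) (nat_lit 1)) (.cons (.br (nat_lit 9) (nat_lit 1) (.cons (.ev (nat_lit 79229385625702765449372172291) (nat_lit 2)) .nil)) (.cons (.br (nat_lit 9) (nat_lit 1) (.cons (.ev (nat_lit 20837323512965563888717795623168) (nat_lit 3)) .nil)) .nil)))) .nil)))),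
 (.br (nat_lit 11) (nat_lit 1) (.cons (.rf (nat_lit 84) (nat_lit 13164946657)) (.cons (.br (nat_lit 9) (nat_lit 1) (.cons (.rf (nat_lit 84) (nat_lit 8971854882)) (.cons (.ev (nat_lit 310698658007724042521411841) (nat_lit 1)) .nil))) (.cons (.ev (nat_lit 309485028340429315255631873) (nat_lit 1)) .nil)))),
 (.br (nat_lit 11) (nat_lit 1) (.cons (.rf (nat_lit 84) (nat_lit 13164946657)) (.cons (.ev (nat_lit 309489732187829042176655616) (nat_lit 1)) (.cons (.br (nat_lit 7) (nat_lit 1) (.cons (.br (nat_lit 12) (nat_lit 1) (.cons (.zr (nat_lit 92594008364507201536) (nat_lit 159076513418724228267507843585) (nat_lit 5) (nat_lit 0)) .nil)) (.cons (.ev (nat_lit 310693954159761365646966784) (nat_lit 1)) .nil))) .nil)))),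
 (.br (nat_lit 11) (nat_lit 1) (.cons (.rf (nat_lit 4061) (nat_lit 493858305440582043680)) (.cons (.ev (nat_lit 309489732187829042176655616) (nat_lit 1)) (.cons (.br (nat_lit 7) (nat_lit 1) (.cons (.ev (nat_lit 310698658007724042521411841) (nat_lit 1)) (.cons (.ev (nat_lit 79229371458530697395956678656) (nat_lit 1)) (.cons (.ev (nat_lit 20282720297605758410293365440513) (nat_lit 1)) .nil)))) .nil)))),
 (.br (nat_lit 11) (nat_lit 1) (.cons (.rf (nat_lit 4061) (nat_lit 493858305440582043680)) (.cons (.rf (nat_lit 4062) (nat_lit 493858305440582043680)) (.cons (.rf (nat_lit 4063) (nat_lit 493858305440582043680)) (.cons (.br (nat_lit 11) (nat_lit 1) (.cons (.ev (nat_lit 309485028340429315255631873) (nat_lit 1)) (.cons (.rf (nat_lit 4062) (nat_lit 493858305440582043680)) (.cons (.rf (nat_lit 4063) (nat_lit 493858305440582043680)) .nil)))) .nil))))),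
 (.br (nat_lit 12) (nat_lit 1) (.cons (.zr (nat_lit 18662917963924898304) (nat_lit 1218370552861843492175873) (nat_lit 5) (nat_lit 0)) (.cons (.ev (nat_lit 79228162514264619072832405504) (nat_lit 1)) (.cons (.br (nat_lit 13) (nat_lit 1) (.cons (.ev (nat_lit 79229376180969519334616531200) (nat_lit 1)) (.cons (.zr (nat_lit 55556405011832373248) (nat_lit 40564820416229160745098182393857) (nat_lit 5) (nat_lit 0)) .nil))) .nil)))),
 (.br (nat_lit 11) (nat_lit 1) (.cons (.ev (nat_lit 309485009893685241546080256) (nat_lit 1)) (.cons (.ev (nat_lit 310693954159761365646966784) (nat_lit 1)) (.cons (.br (nat_lit 12) (nat_lit 1) (.cons (.ev (nat_lit 79229371458530697395956678656) (nat_lit 1)) (.cons (.ev (nat_lit 79228162514264619072832405504) (nat_lit 1)) (.cons (.zr (nat_lit 55556405011832373248) (nat_lit 40564820416229160745098182393857) (nat_lit 5) (nat_lit 0)) .nil)))) .nil))))]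

theorem c139 : chkAll C T R L139 (nat_lit 4040) = true := by decide +kernel

theorem l139 : (nat_lit 4040) + L139.length = (nat_lit 4067) := by decide +kernel

/-- part of the certificates -/
def L140 : List Prf := [(.br (nat_lit 12) (nat_lit 1) (.cons (.rf (nat_lit 4064) (nat_lit 493858305440582043680)) (.cons (.rf (nat_lit 4065) (nat_lit 493858305440582043680)) (.cons (.rf (nat_lit 4066) (nat_lit 493858305440582043680)) (.cons (.br (nat_lit 12) (nat_lit 1) (.cons (.rf (nat_lit 4064) (nat_lit 493858305440582043680)) (.cons (.rf (nat_lit 4065) (nat_lit 493858305440582043680)) (.cons (.rf (nat_lit 4066) (nat_lit 493858305440582043680)) .nil)))) .nil))))),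
 (.br (nat_lit 12) (nat_lit 1) (.cons (.rf (nat_lit 4064) (nat_lit 493858305440582043680)) (.cons (.ev (nat_lit 79228162514264619072832405504) (nat_lit 1)) (.cons (.br (nat_lit 1) (nat_lit 1) (.cons (.br (nat_lit 11) (nat_lit 1) (.cons (.ev (nat_lit 310698658007724042521411841) (nat_lit 1)) .nil)) (.cons (.ev (nat_lit 310698676454468116230963456) (nat_lit 1)) (.cons (.br (nat_lit 7) (nat_lit 1) (.cons (.ev (nat_lit 310698658007724042521411841) (nat_lit 1)) .nil)) .nil)))) .nil)))),
 (.br (nat_lit 12) (nat_lit 1) (.cons (.rf (nat_lit 4064) (nat_lit 493858305440582043680)) (.cons (.rf (nat_lit 4067) (nat_lit 493858305440582043680)) (.cons (.rf (nat_lit 4068) (nat_lit 493858305440582043680)) (.cons (.br (nat_lit 12) (nat_lit 1) (.cons (.ev (nat_lit 79228162532711363146541957121) (nat_lit 1)) (.cons (.rf (nat_lit 4067) (nat_lit 493858305440582043680)) (.cons (.rf (nat_lit 4068) (nat_lit 493858305440582043680)) .nil)))) .nil))))),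
 (.br (nat_lit 12) (nat_lit 1) (.cons (.rf (nat_lit 4064) (nat_lit 493858305440582043680)) (.cons (.rf (nat_lit 4067) (nat_lit 493858305440582043680)) (.cons (.rf (nat_lit 4069) (nat_lit 493858305440582043680)) (.cons (.br (nat_lit 12) (nat_lit 1) (.cons (.rf (nat_lit 4064) (nat_lit 493858305440582043680)) (.cons (.rf (nat_lit 4067) (nat_lit 493858305440582043680)) (.cons (.rf (nat_lit 4069) (nat_lit 493858305440582043680)) .nil)))) .nil))))),
 (.br (nat_lit 8) (nat_lit 1) (.cons (.rf (nat_lit 4048) (nat_lit 493858305440582043680)) (.cons (.rf (nat_lit 4052) (nat_lit 493858305440582043680)) (.cons (.rf (nat_lit 4056) (nat_lit 493858305440582043680)) (.cons (.br (nat_lit 1) (nat_lit 1) (.cons (.rf (nat_lit 3826) (nat_lit 493858305440581027872)) (.cons (.br (nat_lit 7) (nat_lit 1) (.cons (.kr (nat_lit 4722366764344621924608) (nat_lit 72057602627862528) (nat_lit 1) (nat_lit 0)) (.cons (.rf (nat_lit 31) (nat_lit 411273505)) (.cons (.br (nat_lit 11) (nat_lit 1) (.cons (.br (nat_lit 13) (nat_lit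 1) (.cons (.rf (nat_lit 4057) (nat_lit 493858305440582043680)) (.cons (.zr (nat_lit 55556405020422307840) (nat_lit 158457543399081538130058149889) (nat_lit 5) (nat_lit 0)) .nil))) (.cons (.rf (nat_lit 4057) (nat_lit 493858305440582043680)) .nil))) .nil)))) (.cons (.br (nat_lit 7) (nat_lit 1) (.cons (.rf (nat_lit 31) (nat_lit 377522471)) (.cons (.rf (nat_lit 2594) (nat_lit 12216181985)) (.cons (.br (nat_lit 9) (nat_lit 1) (.cons (.rf (nat_lit 84) (nat_lit 13164946471)) (.cons (.rf (nat_lit 84) (nat_lit 12092253409)) (.cons (.br (nat_lit 11) (nat_lit 1) (.cons (.ev (nat_lit 310698676454468116230963456) (nat_lit 1)) (.cons (.br (nat_lit 12) (nat_lit 1) (.cons (.zr (nat_lit 79847132534051146217604317440) (nat_lit 14203993218231348232194) (nat_lit 5) (nat_lit 6)) .nil)) .nil))) .nil)))) (.cons (.br (nat_lit 11) (nat_lit 1) (.cons (.rf (nat_lit 84) (nat_lit 14238688295)) (.cons (.br (nat_lit 13) (nat_lit 1) (.cons (.ev (nat_lit 310698676454468116230963456) (nat_lit 1)) (.cons (.br (nat_lit 9) (nat_lit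 1) (.cons (.ev (nat_lit 310698676454468116230963456) (nat_lit 1)) .nil)) .nil))) (.cons (.ev (nat_lit 309485009893685241546080256) (nat_lit 1)) .nil)))) .nil))))) (.cons (.br (nat_lit 12) (nat_lit 1) (.cons (.rf (nat_lit 2594) (nat_lit 13256369377)) (.cons (.rf (nat_lit 2594) (nat_lit 13256367393)) (.cons (.kr (nat_lit 79228162514264338693055578368) (nat_lit 18446744078021296128) (nat_lit 1) (nat_lit 0)) (.cons (.br (nat_lit 7) (nat_lit 1) (.cons (.rf (nat_lit 31) (nat_lit 411076903)) (.cons (.br (nat_lit 9) (nat_lit 1) (.cons (.zr (nat_lit 79228162514480512578992734208) (nat_lit 1218370552861843441844737) (nat_lit 5) (nat_lit 6)) (.cons (.zr (nat_lit 237684487543009189960792145920) (nat_lit 1218407446349995172691969) (nat_lit 5) (nat_lit 6)) .nil))) (.cons (.br (nat_lit 9) (nat_lit 1) (.cons (.zr (nat_lit 55556405020422307840) (nat_lit 158457543399081538130058149889) (nat_lit 5) (nat_lit 0)) (.cons (.zr (nat_lit 18662917963924898304) (nat_lit 1218370552861843492175873) (nat_lit 5) (nat_lit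 0)) .nil))) .nil)))) .nil))))) (.cons (.br (nat_lit 11) (nat_lit 1) (.cons (.rf (nat_lit 4058) (nat_lit 493858305440582043680)) (.cons (.rf (nat_lit 4059) (nat_lit 493858305440582043680)) (.cons (.rf (nat_lit 4060) (nat_lit 493858305440582043680)) (.cons (.br (nat_lit 11) (nat_lit 1) (.cons (.rf (nat_lit 4058) (nat_lit 493858305440582043680)) (.cons (.ev (nat_lit 309489732187829042176655616) (nat_lit 1)) (.cons (.rf (nat_lit 4060) (nat_lit 493858305440582043680)) .nil)))) .nil))))) .nil)))))) (.cons (.br (nat_lit 12) (nat_lit 1) (.cons (.rf (nat_lit 4064) (nat_lit 493858305440582043680)) (.cons (.rf (nat_lit 4067) (nat_lit 493858305440582043680)) (.cons (.rf (nat_lit 4069) (nat_lit 493858305440582043680)) (.cons (.rf (nat_lit 4070) (nat_lit 493858305440582043680)) (.cons (.br (nat_lit 12) (nat_lit 1) (.cons (.rf (nat_lit 4064) (nat_lit 493858305440582043680)) (.cons (.rf (nat_lit 4067) (nat_lit 493858305440582043680)) (.cons (.rf (nat_lit 4069) (nat_lit 493858305440582043680)) (.cons (.rf (nat_lit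 4070) (nat_lit 493858305440582043680)) .nil))))) .nil)))))) .nil)))))),
 (.br (nat_lit 12) (nat_lit 1) (.cons (.zr (nat_lit 237684487543009189960792145920) (nat_lit 1218407446349995172691969) (nat_lit 5) (nat_lit 6)) .nil)),
 (.br (nat_lit 9) (nat_lit 1) (.cons (.rf (nat_lit 58) (nat_lit 11836450)) (.cons (.br (nat_lit 11) (nat_lit 1) (.cons (.rf (nat_lit 84) (nat_lit 9004424226)) (.cons (.br (nat_lit 12) (nat_lit 1) (.cons (.zr (nat_lit 79231789291724025914638532864) (nat_lit 1237958928751313952503234562) (nat_lit 10) (nat_lit 3)) .nil)) .nil))) (.cons (.br (nat_lit 11) (nat_lit 1) (.cons (.br (nat_lit 12) (nat_lit 1) (.cons (.ev (nat_lit 475680901614364210490321077248) (nat_lit 3)) .nil)) (.cons (.rf (nat_lit 84) (nat_lit 9037978658)) .nil))) .nil)))),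
 (.br (nat_lit 7) (nat_lit 1) (.cons (.rf (nat_lit 58) (nat_lit 11836450)) (.cons (.br (nat_lit 11) (nat_lit 1) (.cons (.rf (nat_lit 84) (nat_lit 9004360738)) (.cons (.br (nat_lit 12) (nat_lit 1) (.cons (.zr (nat_lit 159075295048243426217110405376) (nat_lit 1218425893094073160433665) (nat_lit 5) (nat_lit 6)) .nil)) .nil))) (.cons (.br (nat_lit 11) (nat_lit 1) (.cons (.br (nat_lit 12) (nat_lit 1) (.cons (.zr (nat_lit 158765810038494138742423486464) (nat_lit 1218425893094068865466368) (nat_lit 5) (nat_lit 6)) .nil)) (.cons (.rf (nat_lit 84) (nat_lit 9037915170)) .nil))) .nil)))),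
 (.br (nat_lit 11) (nat_lit 1) (.cons (.rf (nat_lit 4073) (nat_lit 493858305440582043680)) (.cons (.rf (nat_lit 4074) (nat_lit 493858305440582043680)) (.cons (.br (nat_lit 7) (nat_lit 1) (.cons (.br (nat_lit 12) (nat_lit 1) (.cons (.ev (nat_lit 20678557688741380850583374791428) (nat_lit 3)) .nil)) (.cons (.br (nat_lit 9) (nat_lit 1) (.cons (.ev (nat_lit 20680100263975303819894741730560) (nat_lit 3)) .nil)) (.cons (.br (nat_lit 9) (nat_lit 1) (.cons (.ev (nat_lit 20837318658298744296466752668928) (nat_lit 3)) .nil)) .nil)))) .nil)))),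
 (.br (nat_lit 8) (nat_lit 1) (.cons (.rf (nat_lit 4048) (nat_lit 493858305440582043680)) (.cons (.rf (nat_lit 4052) (nat_lit 493858305440582043680)) (.cons (.rf (nat_lit 4056) (nat_lit 493858305440582043680)) (.cons (.rf (nat_lit 4071) (nat_lit 493858305440582043680)) (.cons (.br (nat_lit 1) (nat_lit 1) (.cons (.br (nat_lit 9) (nat_lit 1) (.cons (.br (nat_lit 11) (nat_lit 1) (.cons (.rf (nat_lit 4072) (nat_lit 493858305440582043680)) (.cons (.br (nat_lit 11) (nat_lit 1) (.cons (.rf (nat_lit 4072) (nat_lit 493858305440582043680)) .nil)) .nil))) (.cons (.rf (nat_lit 31) (nat_lit 411338977)) (.cons (.rf (nat_lit 31) (nat_lit 444893409)) .nil)))) (.cons (.rf (nat_lit 3981) (nat_lit 15070224268268583)) (.cons (.br (nat_lit 11) (nat_lit 1) (.cons (.rf (nat_lit 4073) (nat_lit 493858305440582043680)) (.cons (.rf (nat_lit 4074) (nat_lit 493858305440582043680)) (.cons (.rf (nat_lit 4075) (nat_lit 493858305440582043680)) (.cons (.br (nat_lit 11) (nat_lit 1) (.cons (.rf (nat_lit 4073) (nat_lit 493858305440582043680))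 (.cons (.rf (nat_lit 4074) (nat_lit 493858305440582043680)) (.cons (.rf (nat_lit 4075) (nat_lit 493858305440582043680)) .nil)))) .nil))))) (.cons (.br (nat_lit 12) (nat_lit 1) (.cons (.rf (nat_lit 2594) (nat_lit 13323478241)) (.cons (.rf (nat_lit 2594) (nat_lit 13323476257)) (.cons (.br (nat_lit 7) (nat_lit 1) (.cons (.rf (nat_lit 31) (nat_lit 411076903)) (.cons (.br (nat_lit 9) (nat_lit 1) (.cons (.zr (nat_lit 18662917963924898304) (nat_lit 1218370552861843492175873) (nat_lit 5) (nat_lit 0)) (.cons (.zr (nat_lit 55556405020422307840) (nat_lit 158457543399081538130058149889) (nat_lit 5) (nat_lit 0)) .nil))) (.cons (.br (nat_lit 9) (nat_lit 1) (.cons (.zr (nat_lit 237684487543009189960792145920) (nat_lit 1218407446349995172691969) (nat_lit 5) (nat_lit 6)) (.cons (.zr (nat_lit 79228162514480512578992734208) (nat_lit 1218370552861843441844737) (nat_lit 5) (nat_lit 6)) .nil))) .nil)))) (.cons (.kr (nat_lit 79228162514264338693055578368) (nat_lit 18446744078021296128) (nat_lit 1) (nat_lit 0)) .nil)))))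 (.cons (.br (nat_lit 7) (nat_lit 1) (.cons (.rf (nat_lit 31) (nat_lit 444631335)) (.cons (.br (nat_lit 9) (nat_lit 1) (.cons (.br (nat_lit 11) (nat_lit 1) (.cons (.kr (nat_lit 309485009821345068724846848) (nat_lit 18518801672042446848) (nat_lit 1) (nat_lit 0)) (.cons (.zr (nat_lit 928455029464036305719721984) (nat_lit 1218407446349995155914753) (nat_lit 5) (nat_lit 6)) .nil))) (.cons (.br (nat_lit 11) (nat_lit 1) (.cons (.br (nat_lit 11) (nat_lit 1) (.cons (.zr (nat_lit 309485046715114708300529664) (nat_lit 158457533954348290915791012353) (nat_lit 5) (nat_lit 5)) .nil)) (.cons (.br (nat_lit 11) (nat_lit 1) (.cons (.zr (nat_lit 309485046715114708300529664) (nat_lit 158457533954348290915791012353) (nat_lit 5) (nat_lit 5)) .nil)) .nil))) (.cons (.rf (nat_lit 84) (nat_lit 12093301799)) .nil)))) (.cons (.br (nat_lit 9) (nat_lit 1) (.cons (.br (nat_lit 11) (nat_lit 1) (.cons (.ev (nat_lit 79231794069646634511539175939) (nat_lit 2)) (.cons (.br (nat_lit 11) (nat_lit 1) (.cons (.ev (nat_lit 79231794069646634511539175939)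 (nat_lit 2)) .nil)) .nil))) (.cons (.rf (nat_lit 84) (nat_lit 14239737057)) (.cons (.rf (nat_lit 84) (nat_lit 13167043623)) .nil)))) (.cons (.rf (nat_lit 2594) (nat_lit 14363665633)) .nil))))) .nil)))))) .nil)))))),
 (.br (nat_lit 8) (nat_lit 1) (.cons (.rf (nat_lit 4048) (nat_lit 493858305440582043680)) (.cons (.rf (nat_lit 4052) (nat_lit 493858305440582043680)) (.cons (.rf (nat_lit 4056) (nat_lit 493858305440582043680)) (.cons (.rf (nat_lit 4071) (nat_lit 493858305440582043680)) (.cons (.rf (nat_lit 4076) (nat_lit 493858305440582043680)) (.cons (.br (nat_lit 8) (nat_lit 1) (.cons (.ev (nat_lit 1208944266358707179290881) (nat_lit 1)) (.cons (.rf (nat_lit 4052) (nat_lit 493858305440582043680)) (.cons (.rf (nat_lit 4056) (nat_lit 493858305440582043680)) (.cons (.rf (nat_lit 4071) (nat_lit 493858305440582043680)) (.cons (.rf (nat_lit 4076) (nat_lit 493858305440582043680)) .nil)))))) .nil))))))),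
 (.br (nat_lit 11) (nat_lit 1) (.cons (.rf (nat_lit 82) (nat_lit 13165168679)) (.cons (.rf (nat_lit 2594) (nat_lit 8993999143)) (.cons (.br (nat_lit 2) (nat_lit 1) (.cons (.rf (nat_lit 58) (nat_lit 8690753)) (.cons (.br (nat_lit 8) (nat_lit 1) (.cons (.ev (nat_lit 79228162514336676662558654464) (nat_lit 1)) (.cons (.br (nat_lit 12) (nat_lit 1) (.cons (.kr (nat_lit 40564819207303340848998309167104) (nat_lit 79537656968818648401559158784) (nat_lit 4) (nat_lit 0)) .nil)) .nil))) (.cons (.br (nat_lit 12) (nat_lit 1) (.cons (.rf (nat_lit 3597) (nat_lit 13980643884206112)) (.cons (.ev (nat_lit 20282719088661563826610013995009) (nat_lit 1)) .nil))) .nil)))) .nil)))),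
 (.br (nat_lit 1) (nat_lit 1) (.cons (.rf (nat_lit 29) (nat_lit 8690753)) (.cons (.rf (nat_lit 58) (nat_lit 8690722)) (.cons (.br (nat_lit 11) (nat_lit 1) (.cons (.rf (nat_lit 1343) (nat_lit 457792817191)) (.cons (.rf (nat_lit 1339) (nat_lit 390917819431)) (.cons (.rf (nat_lit 4078) (nat_lit 493858305440582043680)) (.cons (.br (nat_lit 11) (nat_lit 1) (.cons (.rf (nat_lit 82) (nat_lit 14238910503)) (.cons (.rf (nat_lit 2594) (nat_lit 9027553575)) (.cons (.rf (nat_lit 4078) (nat_lit 493858305440582043680)) .nil)))) .nil))))) (.cons (.br (nat_lit 12) (nat_lit 1) (.cons (.rf (nat_lit 1343) (nat_lit 457826371623)) (.cons (.rf (nat_lit 1339) (nat_lit 424203819047)) (.cons (.br (nat_lit 12) (nat_lit 1) (.cons (.rf (nat_lit 82) (nat_lit 12092475431)) (.cons (.rf (nat_lit 2594) (nat_lit 8960477479)) (.cons (.zr (nat_lit 79228162514480512578992734208) (nat_lit 1218370552861843441844737) (nat_lit 5) (nat_lit 6)) .nil)))) (.cons (.br (nat_lit 12) (nat_lit 1) (.cons (.rf (nat_lit 82) (nat_lit 14239959079))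 (.cons (.rf (nat_lit 2594) (nat_lit 9027586343)) (.cons (.zr (nat_lit 79228162514480512578992734208) (nat_lit 1218370552861843441844737) (nat_lit 5) (nat_lit 6)) .nil)))) .nil))))) (.cons (.br (nat_lit 2) (nat_lit 1) (.cons (.rf (nat_lit 58) (nat_lit 8690753)) (.cons (.rf (nat_lit 1732) (nat_lit 411281397660097568)) (.cons (.rf (nat_lit 1732) (nat_lit 447310194679061536)) (.cons (.rf (nat_lit 3822) (nat_lit 459871948001)) .nil))))) .nil)))))),
 (.br (nat_lit 1) (nat_lit 1) (.cons (.rf (nat_lit 31) (nat_lit 342923522)) (.cons (.rf (nat_lit 31) (nat_lit 376477954)) (.cons (.rf (nat_lit 2314) (nat_lit 13802412301195296)) .nil)))),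
 (.br (nat_lit 8) (nat_lit 1) (.cons (.rf (nat_lit 4048) (nat_lit 493858305440582043680)) (.cons (.rf (nat_lit 4077) (nat_lit 493858305440582043680)) (.cons (.rf (nat_lit 4079) (nat_lit 493858305440582043680)) (.cons (.br (nat_lit 9) (nat_lit 1) (.cons (.ev (nat_lit 4722438541563194769409) (nat_lit 1)) (.cons (.rf (nat_lit 4080) (nat_lit 15433072044983552032)) (.cons (.br (nat_lit 1) (nat_lit 1) (.cons (.rf (nat_lit 31) (nat_lit 377789505)) (.cons (.rf (nat_lit 2594) (nat_lit 12221417761)) (.cons (.br (nat_lit 2) (nat_lit 1) (.cons (.rf (nat_lit 84) (nat_lit 13165110337)) (.cons (.ev (nat_lit 79228176681508186172690727425) (nat_lit 2)) (.cons (.br (nat_lit 13) (nat_lit 1) (.cons (.rf (nat_lit 3982) (nat_lit 493858305440582043680)) (.cons (.ev (nat_lit 79228162532783420736268206081) (nat_lit 1)) .nil))) .nil)))) (.cons (.br (nat_lit 2) (nat_lit 1) (.cons (.rf (nat_lit 84) (nat_lit 14238852161)) (.cons (.br (nat_lit 11) (nat_lit 1) (.cons (.ev (nat_lit 79228162514336676662558654464) (nat_lit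 1)) (.cons (.br (nat_lit 12) (nat_lit 1) (.cons (.ev (nat_lit 79850773533877612250283442689) (nat_lit 2)) .nil)) .nil))) (.cons (.br (nat_lit 11) (nat_lit 1) (.cons (.br (nat_lit 12) (nat_lit 1) (.cons (.ev (nat_lit 20837942454576933037924927472898) (nat_lit 3)) .nil)) (.cons (.ev (nat_lit 20282720302328196669282071871745) (nat_lit 1)) .nil))) .nil)))) .nil))))) (.cons (.br (nat_lit 1) (nat_lit 1) (.cons (.rf (nat_lit 31) (nat_lit 411343937)) (.cons (.br (nat_lit 2) (nat_lit 1) (.cons (.rf (nat_lit 84) (nat_lit 13165103145)) (.cons (.rf (nat_lit 84) (nat_lit 12092417089)) (.cons (.br (nat_lit 11) (nat_lit 1) (.cons (.ev (nat_lit 158769451038320605870319272449) (nat_lit 2)) (.cons (.ev (nat_lit 309485009893685241546080256) (nat_lit 1)) .nil))) .nil)))) (.cons (.rf (nat_lit 2594) (nat_lit 13261605153)) (.cons (.br (nat_lit 2) (nat_lit 1) (.cons (.br (nat_lit 11) (nat_lit 1) (.cons (.ev (nat_lit 309485028340429315255631873) (nat_lit 1)) (.cons (.br (nat_lit 12) (nat_lit 1) (.cons (.ev (nat_lit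 21474236381288921828771305424136) (nat_lit 4)) .nil)) .nil))) (.cons (.rf (nat_lit 84) (nat_lit 14239900737)) (.cons (.br (nat_lit 12) (nat_lit 1) (.cons (.br (nat_lit 11) (nat_lit 1) (.cons (.ev (nat_lit 311917028560867373825065475) (nat_lit 2)) .nil)) (.cons (.ev (nat_lit 20361638979814192916637964828928) (nat_lit 1)) .nil))) .nil)))) .nil))))) (.cons (.ev (nat_lit 1213666633123047522959361) (nat_lit 1)) .nil)))))) (.cons (.br (nat_lit 9) (nat_lit 1) (.cons (.ev (nat_lit 4722438541563194769409) (nat_lit 1)) (.cons (.rf (nat_lit 3981) (nat_lit 15035040067129409)) (.cons (.br (nat_lit 1) (nat_lit 1) (.cons (.rf (nat_lit 31) (nat_lit 377789505)) (.cons (.rf (nat_lit 2594) (nat_lit 12254972193)) (.cons (.br (nat_lit 2) (nat_lit 1) (.cons (.rf (nat_lit 84) (nat_lit 13165110337)) (.cons (.br (nat_lit 11) (nat_lit 1) (.cons (.zr (nat_lit 18447025557309947905) (nat_lit 158457533954492406103850091264) (nat_lit 5) (nat_lit 5)) (.cons (.br (nat_lit 12) (nat_lit 1) (.cons (.ev (nat_lit 79537647524085964141540409601)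 (nat_lit 1)) .nil)) .nil))) (.cons (.br (nat_lit 13) (nat_lit 1) (.cons (.ev (nat_lit 20282409613096547789661047816705) (nat_lit 2)) (.cons (.ev (nat_lit 20282410817318303266623604195328) (nat_lit 1)) .nil))) .nil)))) (.cons (.br (nat_lit 2) (nat_lit 1) (.cons (.rf (nat_lit 84) (nat_lit 14238852161)) (.cons (.br (nat_lit 11) (nat_lit 1) (.cons (.br (nat_lit 12) (nat_lit 1) (.cons (.ev (nat_lit 20998874688276774587817546940686) (nat_lit 4)) .nil)) (.cons (.ev (nat_lit 20282410817299856522549894643713) (nat_lit 1)) .nil))) (.cons (.ev (nat_lit 20282409608374109245890206171136) (nat_lit 1)) .nil)))) .nil))))) (.cons (.ev (nat_lit 1213666633123047522959361) (nat_lit 1)) (.cons (.br (nat_lit 1) (nat_lit 1) (.cons (.rf (nat_lit 31) (nat_lit 444898369)) (.cons (.br (nat_lit 2) (nat_lit 1) (.cons (.rf (nat_lit 84) (nat_lit 14238844969)) (.cons (.br (nat_lit 11) (nat_lit 1) (.cons (.ev (nat_lit 309485009893685241546080256) (nat_lit 1)) (.cons (.zr (nat_lit 1551051845372604586467065856) (nat_lit 81129638438218514673087201411079)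 (nat_lit 10) (nat_lit 6)) .nil))) (.cons (.rf (nat_lit 84) (nat_lit 12093465665)) .nil)))) (.cons (.br (nat_lit 2) (nat_lit 1) (.cons (.br (nat_lit 11) (nat_lit 1) (.cons (.br (nat_lit 12) (nat_lit 1) (.cons (.zr (nat_lit 237684487543009189960792146688) (nat_lit 620188390195551985253482497) (nat_lit 5) (nat_lit 0)) .nil)) (.cons (.ev (nat_lit 309485028340429315255631873) (nat_lit 1)) .nil))) (.cons (.br (nat_lit 11) (nat_lit 1) (.cons (.zr (nat_lit 18447025557309947905) (nat_lit 158457533954492406103850091264) (nat_lit 5) (nat_lit 5)) (.cons (.zr (nat_lit 55340232238342275072) (nat_lit 40564820416229160745098165617921) (nat_lit 5) (nat_lit 5)) .nil))) (.cons (.rf (nat_lit 84) (nat_lit 13167207489)) .nil)))) (.cons (.rf (nat_lit 2594) (nat_lit 14335346977)) .nil))))) .nil)))))) .nil))))))]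

theorem c140 : chkAll C T R L140 (nat_lit 4067) = true := by decide +kernel

theorem l140 : (nat_lit 4067) + L140.length = (nat_lit 4082) := by decide +kernel

/-- part of the certificates -/
def L141 : List Prf := [(.br (nat_lit 11) (nat_lit 1) (.cons (.ev (nat_lit 309489750634573115886207233) (nat_lit 1)) .nil)),
 (.br (nat_lit 8) (nat_lit 1) (.cons (.rf (nat_lit 4048) (nat_lit 493858305440582043680)) (.cons (.rf (nat_lit 4077) (nat_lit 493858305440582043680)) (.cons (.rf (nat_lit 4079) (nat_lit 493858305440582043680)) (.cons (.rf (nat_lit 4081) (nat_lit 493858305440582043680)) (.cons (.br (nat_lit 9) (nat_lit 1) (.cons (.ev (nat_lit 4722438541563194769409) (nat_lit 1)) (.cons (.br (nat_lit 1) (nat_lit 1) (.cons (.br (nat_lit 11) (nat_lit 1) (.cons (.rf (nat_lit 4082) (nat_lit 493858305440582043680)) (.cons (.rf (nat_lit 4082) (nat_lit 458117738797769787424)) .nil))) (.cons (.rf (nat_lit 31) (nat_lit 411082018)) (.cons (.rf (nat_lit 31) (nat_lit 444636450)) .nil)))) (.cons (.ev (nat_lit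 1213666633123047522959361) (nat_lit 1)) (.cons (.br (nat_lit 1) (nat_lit 1) (.cons (.rf (nat_lit 31) (nat_lit 411343937)) (.cons (.br (nat_lit 2) (nat_lit 1) (.cons (.br (nat_lit 11) (nat_lit 1) (.cons (.ev (nat_lit 79537647524085964141540409601) (nat_lit 1)) (.cons (.br (nat_lit 12) (nat_lit 1) (.cons (.ev (nat_lit 21313304195255901004139122855688) (nat_lit 4)) .nil)) .nil))) (.cons (.rf (nat_lit 84) (nat_lit 12092417089)) (.cons (.br (nat_lit 13) (nat_lit 1) (.cons (.ev (nat_lit 20282409613096547789661047816705) (nat_lit 2)) (.cons (.ev (nat_lit 20282410817318303266623604195328) (nat_lit 1)) .nil))) .nil)))) (.cons (.rf (nat_lit 2594) (nat_lit 13328714017)) (.cons (.br (nat_lit 2) (nat_lit 1) (.cons (.br (nat_lit 11) (nat_lit 1) (.cons (.br (nat_lit 11) (nat_lit 1) (.cons (.ev (nat_lit 79538856468424100063014289665) (nat_lit 1)) .nil)) (.cons (.ev (nat_lit 20282410817299856522549894643713) (nat_lit 1)) .nil))) (.cons (.rf (nat_lit 84) (nat_lit 14239900737)) (.cons (.rf (nat_lit 84) (nat_lit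 13167200297)) .nil)))) .nil))))) (.cons (.br (nat_lit 1) (nat_lit 1) (.cons (.rf (nat_lit 31) (nat_lit 444898369)) (.cons (.br (nat_lit 2) (nat_lit 1) (.cons (.br (nat_lit 11) (nat_lit 1) (.cons (.br (nat_lit 12) (nat_lit 1) (.cons (.ev (nat_lit 79229371440083953322247127041) (nat_lit 1)) .nil)) (.cons (.zr (nat_lit 20282409650875336100367235548424) (nat_lit 1549842974893218918541033472) (nat_lit 10) (nat_lit 4)) .nil))) (.cons (.br (nat_lit 12) (nat_lit 1) (.cons (.ev (nat_lit 79228162514336676662558654464) (nat_lit 1)) (.cons (.ev (nat_lit 40644048583521348253147692335619) (nat_lit 2)) .nil))) (.cons (.rf (nat_lit 84) (nat_lit 12093465665)) .nil)))) (.cons (.br (nat_lit 2) (nat_lit 1) (.cons (.br (nat_lit 13) (nat_lit 1) (.cons (.zr (nat_lit 55340232238342275072) (nat_lit 40564820416229160745098165617921) (nat_lit 5) (nat_lit 5)) (.cons (.ev (nat_lit 79228162532783420736268206081) (nat_lit 1)) .nil))) (.cons (.ev (nat_lit 79229371458530697395956678656) (nat_lit 1)) (.cons (.rf (nat_lit 84)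 (nat_lit 13167207489)) .nil)))) (.cons (.rf (nat_lit 2594) (nat_lit 14368901409)) .nil))))) .nil)))))) .nil)))))),
 (.br (nat_lit 8) (nat_lit 1) (.cons (.rf (nat_lit 4048) (nat_lit 493858305440582043680)) (.cons (.rf (nat_lit 4077) (nat_lit 493858305440582043680)) (.cons (.rf (nat_lit 4079) (nat_lit 493858305440582043680)) (.cons (.rf (nat_lit 4081) (nat_lit 493858305440582043680)) (.cons (.rf (nat_lit 4083) (nat_lit 493858305440582043680)) (.cons (.br (nat_lit 8) (nat_lit 1) (.cons (.rf (nat_lit 4048) (nat_lit 493858305440582043680)) (.cons (.rf (nat_lit 4077) (nat_lit 493858305440582043680)) (.cons (.rf (nat_lit 4079) (nat_lit 493858305440582043680)) (.cons (.rf (nat_lit 4081) (nat_lit 493858305440582043680)) (.cons (.rf (nat_lit 4083) (nat_lit 493858305440582043680)) .nil)))))) .nil))))))),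
 (.br (nat_lit 11) (nat_lit 1) (.cons (.br (nat_lit 12) (nat_lit 1) (.cons (.ev (nat_lit 20680105109123749274166772565764) (nat_lit 3)) .nil)) .nil)),
 (.br (nat_lit 9) (nat_lit 1) (.cons (.ev (nat_lit 1208944266358707179225089) (nat_lit 1)) .nil)),
 (.br (nat_lit 11) (nat_lit 1) (.cons (.br (nat_lit 12) (nat_lit 1) (.cons (.zr (nat_lit 1547425049467013339583350016) (nat_lit 158457543435975026277594824705) (nat_lit 5) (nat_lit 0)) .nil)) .nil)),
 (.br (nat_lit 7) (nat_lit 1) (.cons (.ev (nat_lit 309489732259886631936327936) (nat_lit 1)) (.cons (.br (nat_lit 11) (nat_lit 1) (.cons (.ev (nat_lit 310693954159761365646966784) (nat_lit 1)) (.cons (.br (nat_lit 12) (nat_lit 1) (.cons (.zr (nat_lit 1547425049467013339583348736) (nat_lit 158457543435975026277510938625) (nat_lit 5) (nat_lit 6)) .nil)) .nil))) (.cons (.br (nat_lit 11) (nat_lit 1) (.cons (.br (nat_lit 12) (nat_lit 1) (.cons (.zr (nat_lit 928455029680208005467996928) (nat_lit 158457543399081538130108481537) (nat_lit 5) (nat_lit 0)) .nil))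 (.cons (.ev (nat_lit 310693954159761365646966784) (nat_lit 1)) .nil))) .nil)))),
 (.br (nat_lit 2) (nat_lit 1) (.cons (.ev (nat_lit 309489732259886631936327936) (nat_lit 1)) (.cons (.br (nat_lit 12) (nat_lit 1) (.cons (.ev (nat_lit 79228176681508186172690727425) (nat_lit 2)) (.cons (.ev (nat_lit 79228162532711363146541957121) (nat_lit 1)) .nil))) (.cons (.br (nat_lit 13) (nat_lit 1) (.cons (.ev (nat_lit 20282409613096547789661047816705) (nat_lit 2)) (.cons (.ev (nat_lit 20282409608392483932365599539201) (nat_lit 1)) .nil))) .nil)))),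
 (.br (nat_lit 11) (nat_lit 1) (.cons (.rf (nat_lit 4088) (nat_lit 493858305440582043680)) (.cons (.rf (nat_lit 4089) (nat_lit 493858305440582043680)) (.cons (.br (nat_lit 2) (nat_lit 1) (.cons (.kr (nat_lit 309485009893402667057676544) (nat_lit 18446744073743171584) (nat_lit 1) (nat_lit 0)) (.cons (.br (nat_lit 7) (nat_lit 1) (.cons (.zr (nat_lit 237684501710108634171698053120) (nat_lit 620178945462587345407574529) (nat_lit 5) (nat_lit 10)) .nil)) (.cons (.br (nat_lit 7) (nat_lit 1) (.cons (.zr (nat_lit 129487779060644971777) (nat_lit 239236762462277645254218743808) (nat_lit 20) (nat_lit 0)) .nil)) .nil)))) .nil)))),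
 (.br (nat_lit 4) (nat_lit 1) (.cons (.rf (nat_lit 84) (nat_lit 9840037953)) (.cons (.rf (nat_lit 84) (nat_lit 8767344674)) (.cons (.br (nat_lit 10) (nat_lit 1) (.cons (.ev (nat_lit 18518802771554074624) (nat_lit 1)) (.cons (.rf (nat_lit 3893) (nat_lit 5990140728150215)) .nil))) .nil)))),
 (.br (nat_lit 8) (nat_lit 1) (.cons (.rf (nat_lit 4048) (nat_lit 493858305440582043680)) (.cons (.rf (nat_lit 4077) (nat_lit 493858305440582043680)) (.cons (.rf (nat_lit 4084) (nat_lit 493858305440582043680)) (.cons (.br (nat_lit 2) (nat_lit 1) (.cons (.br (nat_lit 7) (nat_lit 1) (.cons (.rf (nat_lit 31) (nat_lit 377726017)) (.cons (.rf (nat_lit 31) (nat_lit 411280449)) (.cons (.br (nat_lit 11) (nat_lit 1) (.cons (.rf (nat_lit 4085) (nat_lit 493858305440582043680)) (.cons (.br (nat_lit 11) (nat_lit 1) (.cons (.rf (nat_lit 4085) (nat_lit 493858305440582043680)) .nil)) .nil))) .nil)))) (.cons (.rf (nat_lit 2505) (nat_lit 15433072044983552032)) (.cons (.ev (nat_lit 4740813228047178203136) (nat_lit 1)) (.cons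 (.br (nat_lit 1) (nat_lit 1) (.cons (.ev (nat_lit 4722438541563194769409) (nat_lit 1)) (.cons (.br (nat_lit 7) (nat_lit 1) (.cons (.rf (nat_lit 84) (nat_lit 13165173794)) (.cons (.rf (nat_lit 84) (nat_lit 12092480577)) (.cons (.br (nat_lit 12) (nat_lit 1) (.cons (.ev (nat_lit 79540065412762516368509632512) (nat_lit 2)) (.cons (.rf (nat_lit 4022) (nat_lit 15429686751794406432)) .nil))) .nil)))) (.cons (.rf (nat_lit 2594) (nat_lit 13263707201)) (.cons (.br (nat_lit 7) (nat_lit 1) (.cons (.br (nat_lit 11) (nat_lit 1) (.cons (.ev (nat_lit 79538856468424100063014289665) (nat_lit 1)) (.cons (.rf (nat_lit 3883) (nat_lit 15433072044982536224)) .nil))) (.cons (.rf (nat_lit 84) (nat_lit 14239964225)) (.cons (.rf (nat_lit 2336) (nat_lit 482213097159886880)) .nil)))) .nil))))) (.cons (.br (nat_lit 1) (nat_lit 1) (.cons (.ev (nat_lit 4722438541563194769409) (nat_lit 1)) (.cons (.br (nat_lit 7) (nat_lit 1) (.cons (.rf (nat_lit 84) (nat_lit 14238915618)) (.cons (.br (nat_lit 13) (nat_lit 1) (.cons (.rf (nat_lit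 4086) (nat_lit 15071359418959904)) (.cons (.ev (nat_lit 79228167255077564536898781441) (nat_lit 1)) .nil))) (.cons (.br (nat_lit 11) (nat_lit 1) (.cons (.br (nat_lit 12) (nat_lit 1) (.cons (.ev (nat_lit 79231794069430461733703516675) (nat_lit 2)) .nil)) (.cons (.ev (nat_lit 20282720302328196669282071871745) (nat_lit 1)) .nil))) .nil)))) (.cons (.br (nat_lit 7) (nat_lit 1) (.cons (.br (nat_lit 13) (nat_lit 1) (.cons (.br (nat_lit 12) (nat_lit 1) (.cons (.ev (nat_lit 79229371458602754994272731136) (nat_lit 1)) .nil)) (.cons (.ev (nat_lit 79229371458602754994272731136) (nat_lit 1)) .nil))) (.cons (.ev (nat_lit 79228167236702878061538836736) (nat_lit 1)) (.cons (.br (nat_lit 12) (nat_lit 1) (.cons (.ev (nat_lit 79229371458602754994272731136) (nat_lit 1)) (.cons (.rf (nat_lit 84) (nat_lit 9006259273)) .nil))) .nil)))) (.cons (.br (nat_lit 7) (nat_lit 1) (.cons (.br (nat_lit 11) (nat_lit 1) (.cons (.br (nat_lit 12) (nat_lit 1) (.cons (.zr (nat_lit 928455029464316689741185024) (nat_lit 158457533954492406103866867713)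 (nat_lit 5) (nat_lit 5)) .nil)) (.cons (.ev (nat_lit 20282720302328196669282071871745) (nat_lit 1)) .nil))) (.cons (.br (nat_lit 12) (nat_lit 1) (.cons (.ev (nat_lit 79228167255077564536898781441) (nat_lit 1)) (.cons (.zr (nat_lit 37037603339806966017) (nat_lit 81208866586565679563171304570880) (nat_lit 10) (nat_lit 0)) .nil))) (.cons (.rf (nat_lit 58) (nat_lit 13862953)) .nil)))) .nil))))) .nil)))))) (.cons (.br (nat_lit 1) (nat_lit 1) (.cons (.br (nat_lit 7) (nat_lit 1) (.cons (.rf (nat_lit 31) (nat_lit 377726017)) (.cons (.br (nat_lit 11) (nat_lit 1) (.cons (.rf (nat_lit 4087) (nat_lit 493858305440582043680)) (.cons (.br (nat_lit 11) (nat_lit 1) (.cons (.rf (nat_lit 4087) (nat_lit 493858305440582043680)) .nil)) .nil))) (.cons (.rf (nat_lit 31) (nat_lit 444834881)) .nil)))) (.cons (.ev (nat_lit 4722438541563194769409) (nat_lit 1)) (.cons (.br (nat_lit 2) (nat_lit 1) (.cons (.rf (nat_lit 31) (nat_lit 377529570)) (.cons (.rf (nat_lit 2594) (nat_lit 12257074241)) (.cons (.br (nat_lit 7) (nat_lit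 1) (.cons (.rf (nat_lit 84) (nat_lit 13165173794)) (.cons (.br (nat_lit 11) (nat_lit 1) (.cons (.ev (nat_lit 79229376180969519334616531200) (nat_lit 1)) (.cons (.br (nat_lit 12) (nat_lit 1) (.cons (.ev (nat_lit 20839180394653111906347178590468) (nat_lit 3)) .nil)) .nil))) (.cons (.br (nat_lit 13) (nat_lit 1) (.cons (.zr (nat_lit 148294528530055890180) (nat_lit 141978421904165717663328264781824) (nat_lit 30) (nat_lit 0)) (.cons (.rf (nat_lit 2448) (nat_lit 455883953382594021408)) .nil))) .nil)))) (.cons (.br (nat_lit 7) (nat_lit 1) (.cons (.rf (nat_lit 84) (nat_lit 14238915618)) (.cons (.br (nat_lit 13) (nat_lit 1) (.cons (.ev (nat_lit 20282409613096547789661047816705) (nat_lit 2)) (.cons (.ev (nat_lit 20282409608392483932365599539201) (nat_lit 1)) .nil))) (.cons (.ev (nat_lit 20282410812577490321150914330881) (nat_lit 1)) .nil)))) .nil))))) (.cons (.br (nat_lit 11) (nat_lit 1) (.cons (.rf (nat_lit 4088) (nat_lit 493858305440582043680)) (.cons (.rf (nat_lit 4089) (nat_lit 493858305440582043680))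 (.cons (.rf (nat_lit 4090) (nat_lit 493858305440582043680)) (.cons (.br (nat_lit 11) (nat_lit 1) (.cons (.rf (nat_lit 4088) (nat_lit 493858305440582043680)) (.cons (.rf (nat_lit 4089) (nat_lit 493858305440582043680)) (.cons (.rf (nat_lit 4090) (nat_lit 493858305440582043680)) .nil)))) .nil))))) (.cons (.br (nat_lit 2) (nat_lit 1) (.cons (.ev (nat_lit 1208925819614633469739264) (nat_lit 1)) (.cons (.rf (nat_lit 4091) (nat_lit 469845002094624)) (.cons (.br (nat_lit 7) (nat_lit 1) (.cons (.br (nat_lit 11) (nat_lit 1) (.cons (.br (nat_lit 12) (nat_lit 1) (.cons (.ev (nat_lit 21000112628242272991797809186062) (nat_lit 4)) .nil)) (.cons (.ev (nat_lit 20282719093402305277434307543296) (nat_lit 1)) .nil))) (.cons (.br (nat_lit 12) (nat_lit 1) (.cons (.br (nat_lit 11) (nat_lit 1) (.cons (.ev (nat_lit 21000105346390339244631263478530) (nat_lit 4)) .nil)) (.cons (.ev (nat_lit 79229376180969519334616531200) (nat_lit 1)) .nil))) (.cons (.rf (nat_lit 84) (nat_lit 13167270946)) .nil)))) (.cons (.rf (nat_lit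 2594) (nat_lit 14337449025)) .nil))))) .nil)))))) .nil)))))),
 (.br (nat_lit 2) (nat_lit 1) (.cons (.ev (nat_lit 1208925819614633469739264) (nat_lit 1)) (.cons (.br (nat_lit 7) (nat_lit 1) (.cons (.br (nat_lit 11) (nat_lit 1) (.cons (.br (nat_lit 12) (nat_lit 1) (.cons (.ev (nat_lit 79229371440083953322247127041) (nat_lit 1)) .nil)) (.cons (.zr (nat_lit 37109663128556208897) (nat_lit 20283339277051687039526219284480) (nat_lit 10) (nat_lit 0)) .nil))) (.cons (.rf (nat_lit 3894) (nat_lit 493858305440581027872)) (.cons (.rf (nat_lit 84) (nat_lit 12093529122)) .nil)))) (.cons (.br (nat_lit 7) (nat_lit 1) (.cons (.br (nat_lit 12) (nat_lit 1) (.cons (.br (nat_lit 11) (nat_lit 1) (.cons (.zr (nat_lit 141976881765728598689376792674304) (nat_lit 241707792725810739725635420936) (nat_lit 40) (nat_lit 10)) .nil)) (.cons (.ev (nat_lit 20361638975110273459312694198273) (nat_lit 1)) .nil))) (.cons (.rf (nat_lit 84) (nat_lit 14239964225)) (.cons (.rf (nat_lit 84) (nat_lit 13167270946)) .nil)))) (.cons (.ev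 (nat_lit 4740813228047178203136) (nat_lit 1)) .nil))))),
 (.br (nat_lit 11) (nat_lit 1) (.cons (.ev (nat_lit 309485009893685241546080256) (nat_lit 1)) .nil)),
 (.br (nat_lit 1) (nat_lit 1) (.cons (.rf (nat_lit 31) (nat_lit 444834881)) (.cons (.br (nat_lit 2) (nat_lit 1) (.cons (.br (nat_lit 11) (nat_lit 1) (.cons (.br (nat_lit 12) (nat_lit 1) (.cons (.ev (nat_lit 79229371440083953322247127041) (nat_lit 1)) .nil)) (.cons (.zr (nat_lit 37109660929532953345) (nat_lit 60847539504890652231543981867008) (nat_lit 10) (nat_lit 0)) .nil))) (.cons (.br (nat_lit 12) (nat_lit 1) (.cons (.rf (nat_lit 4094) (nat_lit 493858305440582043680)) (.cons (.ev (nat_lit 20361637775647561496902531875586) (nat_lit 2)) .nil))) (.cons (.ev (nat_lit 4740813228047178203136) (nat_lit 1)) .nil)))) (.cons (.br (nat_lit 2) (nat_lit 1) (.cons (.br (nat_lit 13) (nat_lit 1) (.cons (.zr (nat_lit 60847228810955011276239800370432) (nat_lit 1208962713384255915950081) (nat_lit 5) (nat_lit 4)) (.cons (.ev (nat_lit 79229371458602754994272731136)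 (nat_lit 1)) .nil))) (.cons (.rf (nat_lit 84) (nat_lit 14239959079)) (.cons (.ev (nat_lit 4740813228047178203136) (nat_lit 1)) .nil)))) (.cons (.rf (nat_lit 2594) (nat_lit 14370998497)) .nil))))),
 (.br (nat_lit 8) (nat_lit 1) (.cons (.ev (nat_lit 1208944266358707179225089) (nat_lit 1)) .nil)),
 (.br (nat_lit 13) (nat_lit 1) (.cons (.rf (nat_lit 4093) (nat_lit 493858305440582043680)) (.cons (.ev (nat_lit 4740813228047178203136) (nat_lit 1)) (.cons (.rf (nat_lit 4095) (nat_lit 493858305440582043680)) (.cons (.br (nat_lit 1) (nat_lit 1) (.cons (.br (nat_lit 12) (nat_lit 1) (.cons (.ev (nat_lit 20361637770888373584578983559425) (nat_lit 1)) (.cons (.zr (nat_lit 20282409603707011219118333362944) (nat_lit 237685696468612628513629929473) (nat_lit 5) (nat_lit 0)) .nil))) (.cons (.ev (nat_lit 4722438541563194769409) (nat_lit 1)) (.cons (.br (nat_lit 2) (nat_lit 1) (.cons (.rf (nat_lit 4096) (nat_lit 15071359418959904)) (.cons (.br (nat_lit 7) (nat_lit 1) (.cons (.ev (nat_lit 79228167255077564536898781441)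 (nat_lit 1)) .nil)) (.cons (.br (nat_lit 7) (nat_lit 1) (.cons (.ev (nat_lit 20839180394653111906347178590468) (nat_lit 3)) .nil)) .nil)))) (.cons (.br (nat_lit 7) (nat_lit 1) (.cons (.ev (nat_lit 20361637770888373584578983559425) (nat_lit 1)) (.cons (.zr (nat_lit 237684487543009187761785667584) (nat_lit 40564820416229160744002948956673) (nat_lit 5) (nat_lit 6)) .nil))) .nil))))) .nil))))),
 (.br (nat_lit 8) (nat_lit 1) (.cons (.rf (nat_lit 4048) (nat_lit 493858305440582043680)) (.cons (.rf (nat_lit 4077) (nat_lit 493858305440582043680)) (.cons (.rf (nat_lit 4084) (nat_lit 493858305440582043680)) (.cons (.rf (nat_lit 4092) (nat_lit 493858305440582043680)) (.cons (.br (nat_lit 13) (nat_lit 1) (.cons (.rf (nat_lit 4093) (nat_lit 493858305440582043680)) (.cons (.ev (nat_lit 4740813228047178203136) (nat_lit 1)) (.cons (.rf (nat_lit 4095) (nat_lit 493858305440582043680)) (.cons (.rf (nat_lit 4097) (nat_lit 493858305440582043680)) (.cons (.br (nat_lit 13) (nat_lit 1) (.cons (.rf (nat_lit 4093) (nat_lit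 493858305440582043680)) (.cons (.ev (nat_lit 4740813228047178203136) (nat_lit 1)) (.cons (.rf (nat_lit 4095) (nat_lit 493858305440582043680)) (.cons (.rf (nat_lit 4097) (nat_lit 493858305440582043680)) .nil))))) .nil)))))) .nil)))))),
 (.br (nat_lit 8) (nat_lit 1) (.cons (.rf (nat_lit 4048) (nat_lit 493858305440582043680)) (.cons (.rf (nat_lit 4077) (nat_lit 493858305440582043680)) (.cons (.rf (nat_lit 4084) (nat_lit 493858305440582043680)) (.cons (.rf (nat_lit 4092) (nat_lit 493858305440582043680)) (.cons (.rf (nat_lit 4098) (nat_lit 493858305440582043680)) (.cons (.br (nat_lit 8) (nat_lit 1) (.cons (.rf (nat_lit 4048) (nat_lit 493858305440582043680)) (.cons (.rf (nat_lit 4077) (nat_lit 493858305440582043680)) (.cons (.rf (nat_lit 4084) (nat_lit 493858305440582043680)) (.cons (.rf (nat_lit 4092) (nat_lit 493858305440582043680)) (.cons (.rf (nat_lit 4098) (nat_lit 493858305440582043680)) .nil)))))) .nil))))))),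
 (.br (nat_lit 2) (nat_lit 1) (.cons (.br (nat_lit 11) (nat_lit 1) (.cons (.rf (nat_lit 3502) (nat_lit 493858305267742153760)) (.cons (.ev (nat_lit 20282721511291054450209579926019) (nat_lit 2)) .nil))) (.cons (.br (nat_lit 11) (nat_lit 1) (.cons (.zr (nat_lit 237684501710108634171681275904) (nat_lit 1208962713385355393892353) (nat_lit 5) (nat_lit 10)) (.cons (.zr (nat_lit 60847228815677377754711415980288) (nat_lit 1208981159847958404923392) (nat_lit 5) (nat_lit 10)) .nil))) (.cons (.ev (nat_lit 1208925819614633469739264) (nat_lit 1)) .nil)))),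
 (.br (nat_lit 13) (nat_lit 1) (.cons (.ev (nat_lit 1208925819614633469739264) (nat_lit 1)) (.cons (.rf (nat_lit 4100) (nat_lit 493858305440582043680)) (.cons (.br (nat_lit 2) (nat_lit 1) (.cons (.zr (nat_lit 20282409603651670426146274738944) (nat_lit 1223092919344717398802433) (nat_lit 5) (nat_lit 0)) (.cons (.br (nat_lit 9) (nat_lit 1) (.cons (.ev (nat_lit 82951682576873031340491213576) (nat_lit 4)) .nil)) (.cons (.br (nat_lit 9) (nat_lit 1) (.cons (.zr (nat_lit 237684501710108634171681275904) (nat_lit 1208962713385355393892353) (nat_lit 5) (nat_lit 10)) .nil)) .nil)))) .nil))))]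

theorem c141 : chkAll C T R L141 (nat_lit 4082) = true := by decide +kernel

theorem l141 : (nat_lit 4082) + L141.length = (nat_lit 4102) := by decide +kernel

/-- part of the certificates -/
def L142 : List Prf := [(.br (nat_lit 13) (nat_lit 1) (.cons (.ev (nat_lit 1208925819614633469739264) (nat_lit 1)) (.cons (.zr (nat_lit 60847228810955011271841787609088) (nat_lit 1208962713385355377115137) (nat_lit 5) (nat_lit 10)) (.cons (.br (nat_lit 1) (nat_lit 1) (.cons (.br (nat_lit 11) (nat_lit 1) (.cons (.ev (nat_lit 79229376180897461744856727808) (nat_lit 1)) .nil)) (.cons (.ev (nat_lit 20361638979814192916637964828928) (nat_lit 1)) .nil))) .nil)))),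
 (.br (nat_lit 11) (nat_lit 1) (.cons (.ev (nat_lit 621392649133031162560839939) (nat_lit 2)) (.cons (.br (nat_lit 9) (nat_lit 1) (.cons (.ev (nat_lit 20997020224404263358632626423042) (nat_lit 4)) .nil)) (.cons (.zr (nat_lit 60847228810955227444632457576448) (nat_lit 1208962713385351098925057) (nat_lit 5) (nat_lit 10)) .nil)))),
 (.br (nat_lit 11) (nat_lit 1) (.cons (.ev (nat_lit 621392649133031162560839939) (nat_lit 2)) (.cons (.br (nat_lit 1) (nat_lit 1) (.cons (.ev (nat_lit 20837321095040137118024154285318) (nat_lit 3)) .nil)) (.cons (.zr (nat_lit 60847228810955227444632457576448) (nat_lit 1208962713385351098925057) (nat_lit 5) (nat_lit 10)) .nil)))),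
 (.br (nat_lit 2) (nat_lit 1) (.cons (.br (nat_lit 11) (nat_lit 1) (.cons (.ev (nat_lit 310698676454468116230963456) (nat_lit 1)) (.cons (.zr (nat_lit 60847228810955011271841787609088) (nat_lit 1208962713385355377115137) (nat_lit 5) (nat_lit 10)) .nil))) (.cons (.br (nat_lit 9) (nat_lit 1) (.cons (.ev (nat_lit 310698676454468116230963456) (nat_lit 1)) (.cons (.zr (nat_lit 60847228810955011271841787609088) (nat_lit 1208962713385355377115137) (nat_lit 5) (nat_lit 10)) .nil))) (.cons (.br (nat_lit 12) (nat_lit 1) (.cons (.ev (nat_lit 79230594588560265992824947200) (nat_lit 2)) (.cons (.ev (nat_lit 80159035432261091309293535746) (nat_lit 2)) (.cons (.br (nat_lit 9) (nat_lit 1) (.cons (.zr (nat_lit 158765824205593584052824244224) (nat_lit 1208981160130528598294528) (nat_lit 5) (nat_lit 10)) .nil)) .nil)))) (.cons (.ev (nat_lit 20282410812577490321150914330881) (nat_lit 1)) .nil))))),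
 (.br (nat_lit 11) (nat_lit 1) (.cons (.rf (nat_lit 4105) (nat_lit 493858305440582043680)) (.cons (.br (nat_lit 1) (nat_lit 1) (.cons (.ev (nat_lit 310698658079781640871149825) (nat_lit 1)) (.cons (.ev (nat_lit 40564821629895794150733095568129) (nat_lit 2)) .nil))) (.cons (.br (nat_lit 12) (nat_lit 1) (.cons (.kr (nat_lit 309485009821345073019748352) (nat_lit 79228162514264338693055578112) (nat_lit 4) (nat_lit 0)) (.cons (.br (nat_lit 1) (nat_lit 1) (.cons (.zr (nat_lit 309485010037518958956904448) (nat_lit 1218370552861843441844737) (nat_lit 5) (nat_lit 6)) .nil)) (.cons (.ev (nat_lit 79229371440083953322247127041) (nat_lit 1)) .nil)))) (.cons (.ev (nat_lit 20282720297605758410293365440513) (nat_lit 1)) .nil))))),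
 (.br (nat_lit 2) (nat_lit 1) (.cons (.br (nat_lit 11) (nat_lit 1) (.cons (.br (nat_lit 12) (nat_lit 1) (.cons (.ev (nat_lit 20838559025634402991024915023618) (nat_lit 3)) .nil)) (.cons (.ev (nat_lit 20282410812577490321150914330881) (nat_lit 1)) .nil))) (.cons (.rf (nat_lit 4106) (nat_lit 493858305440582043680)) (.cons (.br (nat_lit 1) (nat_lit 1) (.cons (.rf (nat_lit 4105) (nat_lit 493858305440582043680)) (.cons (.zr (nat_lit 237684501710108634171681275904) (nat_lit 1208962713385355393892353) (nat_lit 5) (nat_lit 10)) (.cons (.br (nat_lit 11) (nat_lit 1) (.cons (.ev (nat_lit 20837940065170316157407195498246) (nat_lit 3)) .nil)) .nil)))) (.cons (.ev (nat_lit 20282410817318303266623604195328) (nat_lit 1)) .nil))))),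
 (.br (nat_lit 11) (nat_lit 1) (.cons (.rf (nat_lit 4105) (nat_lit 493858305440582043680)) (.cons (.rf (nat_lit 4106) (nat_lit 493858305440582043680)) (.cons (.rf (nat_lit 4107) (nat_lit 493858305440582043680)) (.cons (.br (nat_lit 1) (nat_lit 1) (.cons (.ev (nat_lit 20282410812577490321150914330881) (nat_lit 1)) (.cons (.br (nat_lit 2) (nat_lit 1) (.cons (.zr (nat_lit 237684501710108634171681275904) (nat_lit 1208962713385355393892353) (nat_lit 5) (nat_lit 10)) .nil)) (.cons (.kr (nat_lit 309485009821345068724781312) (nat_lit 18446744073726328832) (nat_lit 1) (nat_lit 0)) .nil)))) .nil))))),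
 (.br (nat_lit 8) (nat_lit 1) (.cons (.rf (nat_lit 4048) (nat_lit 493858305440582043680)) (.cons (.rf (nat_lit 4077) (nat_lit 493858305440582043680)) (.cons (.rf (nat_lit 4084) (nat_lit 493858305440582043680)) (.cons (.rf (nat_lit 4099) (nat_lit 493858305440582043680)) (.cons (.br (nat_lit 7) (nat_lit 1) (.cons (.br (nat_lit 13) (nat_lit 1) (.cons (.ev (nat_lit 1208925819614633469739264) (nat_lit 1)) (.cons (.rf (nat_lit 4100) (nat_lit 493858305440582043680)) (.cons (.rf (nat_lit 4101) (nat_lit 493858305440582043680)) (.cons (.br (nat_lit 13) (nat_lit 1) (.cons (.ev (nat_lit 1208925819614633469739264) (nat_lit 1)) (.cons (.rf (nat_lit 4100) (nat_lit 493858305440582043680)) (.cons (.rf (nat_lit 4101) (nat_lit 493858305440582043680)) .nil)))) .nil))))) (.cons (.br (nat_lit 13) (nat_lit 1) (.cons (.ev (nat_lit 1208925819614633469739264) (nat_lit 1)) (.cons (.rf (nat_lit 4102) (nat_lit 493858305440582043680)) (.cons (.br (nat_lit 13) (nat_lit 1) (.cons (.ev (nat_lit 1208925819614633469739264) (nat_lit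 1)) (.cons (.zr (nat_lit 60847228810955011271841787609088) (nat_lit 1208962713385355377115137) (nat_lit 5) (nat_lit 10)) (.cons (.zr (nat_lit 55556405011832373248) (nat_lit 40564820416229160745098182393857) (nat_lit 5) (nat_lit 0)) .nil)))) (.cons (.br (nat_lit 13) (nat_lit 1) (.cons (.ev (nat_lit 1208925819614633469739264) (nat_lit 1)) (.cons (.rf (nat_lit 4102) (nat_lit 493858305440582043680)) (.cons (.zr (nat_lit 55556405011832373248) (nat_lit 40564820416229160745098182393857) (nat_lit 5) (nat_lit 0)) .nil)))) .nil))))) (.cons (.ev (nat_lit 1213666633123047522959361) (nat_lit 1)) (.cons (.br (nat_lit 1) (nat_lit 1) (.cons (.br (nat_lit 9) (nat_lit 1) (.cons (.rf (nat_lit 29) (nat_lit 11836481)) (.cons (.br (nat_lit 11) (nat_lit 1) (.cons (.ev (nat_lit 79538856468424100063014289665) (nat_lit 1)) (.cons (.br (nat_lit 12) (nat_lit 1) (.cons (.ev (nat_lit 79540065375941085802294083586) (nat_lit 2)) .nil)) .nil))) (.cons (.br (nat_lit 13) (nat_lit 1) (.cons (.zr (nat_lit 60847228825122111283400676474882)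 (nat_lit 929663992177139099459649536) (nat_lit 5) (nat_lit 10)) (.cons (.ev (nat_lit 20282410817318375324213330313216) (nat_lit 1)) .nil))) .nil)))) (.cons (.kr (nat_lit 4722366764344621924608) (nat_lit 72057602627862528) (nat_lit 1) (nat_lit 0)) (.cons (.br (nat_lit 2) (nat_lit 1) (.cons (.rf (nat_lit 29) (nat_lit 11765026)) (.cons (.br (nat_lit 12) (nat_lit 1) (.cons (.rf (nat_lit 82) (nat_lit 9004424226)) (.cons (.ev (nat_lit 79538856449905298390955131136) (nat_lit 1)) .nil))) (.cons (.br (nat_lit 13) (nat_lit 1) (.cons (.ev (nat_lit 20282720302328196669282071871745) (nat_lit 1)) (.cons (.zr (nat_lit 60847228810955227444632457576448) (nat_lit 1208962713385351098925057) (nat_lit 5) (nat_lit 10)) .nil))) .nil)))) (.cons (.br (nat_lit 9) (nat_lit 1) (.cons (.br (nat_lit 13) (nat_lit 1) (.cons (.zr (nat_lit 928455029464036305719721984) (nat_lit 1218407446349995155914753) (nat_lit 5) (nat_lit 6)) (.cons (.zr (nat_lit 237684501710108634171681275904) (nat_lit 1208962713385355393892353) (nat_lit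 5) (nat_lit 10)) .nil))) (.cons (.br (nat_lit 13) (nat_lit 1) (.cons (.zr (nat_lit 309485009965461360640851968) (nat_lit 1218370552861843441844737) (nat_lit 5) (nat_lit 6)) (.cons (.zr (nat_lit 79228162514480512578992734208) (nat_lit 1218370552861843441844737) (nat_lit 5) (nat_lit 6)) .nil))) (.cons (.ev (nat_lit 79229371458602754994272731136) (nat_lit 1)) (.cons (.br (nat_lit 11) (nat_lit 1) (.cons (.rf (nat_lit 3214) (nat_lit 9668104048600030506)) (.cons (.ev (nat_lit 310698658007724042521411841) (nat_lit 1)) (.cons (.zr (nat_lit 60847228825122111283400676474882) (nat_lit 929663992177139099459649536) (nat_lit 5) (nat_lit 10)) .nil)))) .nil))))) (.cons (.br (nat_lit 12) (nat_lit 1) (.cons (.br (nat_lit 12) (nat_lit 1) (.cons (.ev (nat_lit 2422629346225828445356801) (nat_lit 2)) (.cons (.ev (nat_lit 310693954087703775920848896) (nat_lit 1)) (.cons (.ev (nat_lit 20282410812595937065224623882496) (nat_lit 1)) .nil)))) (.cons (.br (nat_lit 12) (nat_lit 1) (.cons (.ev (nat_lit 2422629346225828445356801)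 (nat_lit 2)) (.cons (.ev (nat_lit 310698658007724042521411841) (nat_lit 1)) (.cons (.ev (nat_lit 20282410812595937065224623882496) (nat_lit 1)) .nil)))) (.cons (.br (nat_lit 12) (nat_lit 1) (.cons (.ev (nat_lit 310693954087703775920848896) (nat_lit 1)) (.cons (.ev (nat_lit 310698658007724042521411841) (nat_lit 1)) (.cons (.ev (nat_lit 20282410812595937065224623882496) (nat_lit 1)) .nil)))) (.cons (.ev (nat_lit 20282410812595937065224623882496) (nat_lit 1)) .nil))))) .nil)))))) (.cons (.br (nat_lit 2) (nat_lit 1) (.cons (.br (nat_lit 9) (nat_lit 1) (.cons (.br (nat_lit 11) (nat_lit 1) (.cons (.rf (nat_lit 31) (nat_lit 414426177)) (.cons (.br (nat_lit 12) (nat_lit 1) (.cons (.ev (nat_lit 79538856468424100063014289665) (nat_lit 1)) .nil)) .nil))) (.cons (.rf (nat_lit 29) (nat_lit 12885057)) (.cons (.br (nat_lit 13) (nat_lit 1) (.cons (.ev (nat_lit 20282410817318375324213330313216) (nat_lit 1)) (.cons (.ev (nat_lit 20440868351291315038444650038019) (nat_lit 2)) .nil))) .nil)))) (.cons (.ev (nat_lit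 1213666705180645839142913) (nat_lit 1)) (.cons (.br (nat_lit 9) (nat_lit 1) (.cons (.br (nat_lit 11) (nat_lit 1) (.cons (.ev (nat_lit 79538861190718806813598285825) (nat_lit 1)) (.cons (.br (nat_lit 12) (nat_lit 1) (.cons (.ev (nat_lit 79538856468424100063014289665) (nat_lit 1)) .nil)) .nil))) (.cons (.ev (nat_lit 310693954159761365646966784) (nat_lit 1)) (.cons (.br (nat_lit 1) (nat_lit 1) (.cons (.ev (nat_lit 310698676454468116230963456) (nat_lit 1)) (.cons (.br (nat_lit 11) (nat_lit 1) (.cons (.ev (nat_lit 79538856468424100063014289665) (nat_lit 1)) .nil)) .nil))) (.cons (.br (nat_lit 11) (nat_lit 1) (.cons (.br (nat_lit 12) (nat_lit 1) (.cons (.ev (nat_lit 318774400670757856592007464711) (nat_lit 3)) .nil)) (.cons (.br (nat_lit 1) (nat_lit 1) (.cons (.zr (nat_lit 309485010037518958940128000) (nat_lit 1218370552861843508953089) (nat_lit 5) (nat_lit 0)) .nil)) (.cons (.ev (nat_lit 20282410817318375324213330313216) (nat_lit 1)) .nil)))) .nil))))) (.cons (.br (nat_lit 1) (nat_lit 1) (.cons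 (.rf (nat_lit 29) (nat_lit 12814625)) (.cons (.br (nat_lit 13) (nat_lit 1) (.cons (.rf (nat_lit 3214) (nat_lit 9633201151487909162)) (.cons (.ev (nat_lit 79538856449905298390955131136) (nat_lit 1)) .nil))) (.cons (.br (nat_lit 9) (nat_lit 1) (.cons (.br (nat_lit 11) (nat_lit 1) (.cons (.ev (nat_lit 79538856468424100063014289665) (nat_lit 1)) .nil)) (.cons (.rf (nat_lit 82) (nat_lit 9039027265)) .nil))) .nil)))) (.cons (.br (nat_lit 11) (nat_lit 1) (.cons (.rf (nat_lit 4103) (nat_lit 493858305440582043680)) (.cons (.rf (nat_lit 4104) (nat_lit 493858305440582043680)) (.cons (.br (nat_lit 11) (nat_lit 1) (.cons (.rf (nat_lit 4103) (nat_lit 493858305440582043680)) (.cons (.rf (nat_lit 4104) (nat_lit 493858305440582043680)) (.cons (.zr (nat_lit 60847228810955227444632457576448) (nat_lit 1208962713385351098925057) (nat_lit 5) (nat_lit 10)) .nil)))) (.cons (.zr (nat_lit 60847228810955227444632457576448) (nat_lit 1208962713385351098925057) (nat_lit 5) (nat_lit 10)) .nil))))) .nil)))))) (.cons (.br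 (nat_lit 11) (nat_lit 1) (.cons (.rf (nat_lit 4105) (nat_lit 493858305440582043680)) (.cons (.rf (nat_lit 4106) (nat_lit 493858305440582043680)) (.cons (.rf (nat_lit 4107) (nat_lit 493858305440582043680)) (.cons (.rf (nat_lit 4108) (nat_lit 493858305440582043680)) (.cons (.br (nat_lit 11) (nat_lit 1) (.cons (.rf (nat_lit 4105) (nat_lit 493858305440582043680)) (.cons (.ev (nat_lit 20282720297605758410293365440513) (nat_lit 1)) (.cons (.rf (nat_lit 4107) (nat_lit 493858305440582043680)) (.cons (.rf (nat_lit 4108) (nat_lit 493858305440582043680)) .nil))))) .nil)))))) .nil))))))) .nil)))))),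
 (.br (nat_lit 8) (nat_lit 1) (.cons (.rf (nat_lit 4048) (nat_lit 493858305440582043680)) (.cons (.rf (nat_lit 4077) (nat_lit 493858305440582043680)) (.cons (.rf (nat_lit 4084) (nat_lit 493858305440582043680)) (.cons (.rf (nat_lit 4099) (nat_lit 493858305440582043680)) (.cons (.rf (nat_lit 4109) (nat_lit 493858305440582043680)) (.cons (.br (nat_lit 8) (nat_lit 1) (.cons (.rf (nat_lit 4048) (nat_lit 493858305440582043680)) (.cons (.rf (nat_lit 4077) (nat_lit 493858305440582043680)) (.cons (.rf (nat_lit 4084) (nat_lit 493858305440582043680)) (.cons (.rf (nat_lit 4099) (nat_lit 493858305440582043680)) (.cons (.rf (nat_lit 4109) (nat_lit 493858305440582043680)) .nil)))))) .nil))))))),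
 (.br (nat_lit 8) (nat_lit 1) (.cons (.rf (nat_lit 4048) (nat_lit 493858305440582043680)) (.cons (.rf (nat_lit 4077) (nat_lit 493858305440582043680)) (.cons (.rf (nat_lit 4084) (nat_lit 493858305440582043680)) (.cons (.rf (nat_lit 4099) (nat_lit 493858305440582043680)) (.cons (.rf (nat_lit 4110) (nat_lit 493858305440582043680)) (.cons (.br (nat_lit 8) (nat_lit 1) (.cons (.rf (nat_lit 4048) (nat_lit 493858305440582043680)) (.cons (.rf (nat_lit 4077) (nat_lit 493858305440582043680)) (.cons (.rf (nat_lit 4084) (nat_lit 493858305440582043680)) (.cons (.rf (nat_lit 4099) (nat_lit 493858305440582043680)) (.cons (.rf (nat_lit 4110) (nat_lit 493858305440582043680)) .nil)))))) .nil))))))),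
 (.br (nat_lit 9) (nat_lit 0) (.cons (.rf (nat_lit 3915) (nat_lit 407901468851537952)) (.cons (.br (nat_lit 2) (nat_lit 0) (.cons (.br (nat_lit 10) (nat_lit 1) (.cons (.br (nat_lit 10) (nat_lit 1) (.cons (.br (nat_lit 8) (nat_lit 1) (.cons (.rf (nat_lit 3949) (nat_lit 493858305440582043680)) (.cons (.rf (nat_lit 3975) (nat_lit 493858305440582043680)) (.cons (.rf (nat_lit 3987) (nat_lit 493858305440582043680)) (.cons (.rf (nat_lit 3998) (nat_lit 493858305440582043680)) (.cons (.rf (nat_lit 4012) (nat_lit 493858305440582043680)) (.cons (.rf (nat_lit 4013) (nat_lit 493858305440582043680)) (.cons (.rf (nat_lit 4013) (nat_lit 458117738797769787424)) .nil)))))))) .nil)) .nil)) (.cons (.br (nat_lit 3) (nat_lit 1) (.cons (.br (nat_lit 10) (nat_lit 1) (.cons (.br (nat_lit 8) (nat_lit 1) (.cons (.rf (nat_lit 4048) (nat_lit 493858305440582043680)) (.cons (.rf (nat_lit 4077) (nat_lit 493858305440582043680)) (.cons (.rf (nat_lit 4084) (nat_lit 493858305440582043680)) (.cons (.rf (nat_lit 4099) (nat_lit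 493858305440582043680)) (.cons (.rf (nat_lit 4110) (nat_lit 493858305440582043680)) (.cons (.rf (nat_lit 4111) (nat_lit 493858305440582043680)) (.cons (.br (nat_lit 8) (nat_lit 1) (.cons (.rf (nat_lit 4048) (nat_lit 493858305440582043680)) (.cons (.rf (nat_lit 4077) (nat_lit 493858305440582043680)) (.cons (.rf (nat_lit 4084) (nat_lit 493858305440582043680)) (.cons (.rf (nat_lit 4099) (nat_lit 493858305440582043680)) (.cons (.rf (nat_lit 4110) (nat_lit 493858305440582043680)) (.cons (.rf (nat_lit 4111) (nat_lit 493858305440582043680)) .nil))))))) .nil)))))))) .nil)) .nil)) .nil))) .nil))),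
 (.br (nat_lit 7) (nat_lit 0) (.cons (.rf (nat_lit 2876) (nat_lit 325702574508064)) (.cons (.rf (nat_lit 3448) (nat_lit 325702574508064)) (.cons (.br (nat_lit 6) (nat_lit 1) (.cons (.rf (nat_lit 2406) (nat_lit 9042184505376)) (.cons (.br (nat_lit 2) (nat_lit 0) (.cons (.rf (nat_lit 3448) (nat_lit 325529734618144)) (.cons (.rf (nat_lit 2876) (nat_lit 325529734618144)) (.cons (.br (nat_lit 10) (nat_lit 1) (.cons (.rf (nat_lit 3518) (nat_lit 11584701642934304)) (.cons (.br (nat_lit 10) (nat_lit 1) (.cons (.rf (nat_lit 3518) (nat_lit 11584701642934304)) (.cons (.br (nat_lit 9) (nat_lit 0) (.cons (.rf (nat_lit 3572) (nat_lit 14242959524133701664)) (.cons (.rf (nat_lit 3572) (nat_lit 14242959351293811744)) .nil))) .nil))) .nil))) .nil)))) (.cons (.br (nat_lit 9) (nat_lit 0) (.cons (.rf (nat_lit 3915) (nat_lit 407901468851537952)) (.cons (.rf (nat_lit 4112) (nat_lit 407901468851537952)) (.cons (.br (nat_lit 9) (nat_lit 0) (.cons (.rf (nat_lit 3915) (nat_lit 407901468851537952)) (.cons (.rf (nat_lit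 4112) (nat_lit 407901468851537952)) .nil))) .nil)))) .nil)))) .nil)))),
 (.br (nat_lit 7) (nat_lit 0) (.cons (.rf (nat_lit 2876) (nat_lit 325702574508064)) (.cons (.rf (nat_lit 3448) (nat_lit 325702574508064)) (.cons (.rf (nat_lit 4113) (nat_lit 325702574508064)) (.cons (.br (nat_lit 7) (nat_lit 0) (.cons (.rf (nat_lit 2876) (nat_lit 325702574508064)) (.cons (.rf (nat_lit 3448) (nat_lit 325702574508064)) (.cons (.rf (nat_lit 4113) (nat_lit 325702574508064)) .nil)))) .nil))))),
 (.br (nat_lit 13) (nat_lit 1) (.cons (.br (nat_lit 12) (nat_lit 1) (.cons (.zr (nat_lit 1547425049108695668578648066) (nat_lit 20282413230448008361905118773248) (nat_lit 15) (nat_lit 6)) (.cons (.zr (nat_lit 1237940039287350599853867009) (nat_lit 20282412026226108484972368101376) (nat_lit 15) (nat_lit 6)) .nil))) (.cons (.br (nat_lit 11) (nat_lit 1) (.cons (.zr (nat_lit 55556407202265694208) (nat_lit 40564820416229160744002965733377) (nat_lit 5) (nat_lit 0)) (.cons (.ev (nat_lit 20282720297587383441239205478401) (nat_lit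 1)) (.cons (.zr (nat_lit 237684487542793012780632048384) (nat_lit 40564820416229160745102477361153) (nat_lit 5) (nat_lit 0)) .nil)))) .nil))),
 (.br (nat_lit 13) (nat_lit 1) (.cons (.rf (nat_lit 4115) (nat_lit 493858305440582043680)) (.cons (.br (nat_lit 9) (nat_lit 1) (.cons (.zr (nat_lit 60847228810955011271841821294592) (nat_lit 1208962857502742476226561) (nat_lit 5) (nat_lit 10)) (.cons (.zr (nat_lit 60847228810955011271841821163520) (nat_lit 158457533954348572395045913089) (nat_lit 5) (nat_lit 10)) .nil))) .nil))),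
 (.br (nat_lit 13) (nat_lit 1) (.cons (.rf (nat_lit 4115) (nat_lit 493858305440582043680)) (.cons (.rf (nat_lit 4116) (nat_lit 493858305440582043680)) (.cons (.br (nat_lit 13) (nat_lit 1) (.cons (.rf (nat_lit 4115) (nat_lit 493858305440582043680)) (.cons (.rf (nat_lit 4116) (nat_lit 493858305440582043680)) .nil))) .nil)))),
 (.br (nat_lit 13) (nat_lit 1) (.cons (.rf (nat_lit 4117) (nat_lit 493858305440582043680)) (.cons (.br (nat_lit 13) (nat_lit 1) (.cons (.rf (nat_lit 4117) (nat_lit 493858305440582043680)) (.cons (.rf (nat_lit 3271) (nat_lit 294978401306986)) .nil))) (.cons (.br (nat_lit 13) (nat_lit 1) (.cons (.rf (nat_lit 4117) (nat_lit 493858305440582043680)) (.cons (.rf (nat_lit 3271) (nat_lit 294978401306986)) .nil))) .nil)))),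
 (.br (nat_lit 13) (nat_lit 1) (.cons (.rf (nat_lit 4117) (nat_lit 493858305440582043680)) (.cons (.rf (nat_lit 4118) (nat_lit 493858305440582043680)) (.cons (.br (nat_lit 13) (nat_lit 1) (.cons (.rf (nat_lit 4117) (nat_lit 493858305440582043680)) (.cons (.rf (nat_lit 3271) (nat_lit 294978401306986)) .nil))) .nil))))]

theorem c142 : chkAll C T R L142 (nat_lit 4102) = true := by decide +kernel

theorem l142 : (nat_lit 4102) + L142.length = (nat_lit 4120) := by decide +kernel

/-- part of the certificates -/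
def L143 : List Prf := [(.br (nat_lit 13) (nat_lit 1) (.cons (.rf (nat_lit 4117) (nat_lit 493858305440582043680)) (.cons (.rf (nat_lit 4118) (nat_lit 493858305440582043680)) (.cons (.rf (nat_lit 4119) (nat_lit 493858305440582043680)) (.cons (.br (nat_lit 13) (nat_lit 1) (.cons (.rf (nat_lit 4117) (nat_lit 493858305440582043680)) (.cons (.rf (nat_lit 4118) (nat_lit 493858305440582043680)) (.cons (.rf (nat_lit 4119) (nat_lit 493858305440582043680)) .nil)))) .nil))))),
 (.br (nat_lit 12) (nat_lit 1) (.cons (.rf (nat_lit 4120) (nat_lit 493858305440582043680)) (.cons (.br (nat_lit 7) (nat_lit 1) (.cons (.rf (nat_lit 84) (nat_lit 10075085858)) (.cons (.rf (nat_lit 84) (nat_lit 9002392641)) (.cons (.br (nat_lit 9) (nat_lit 1) (.cons (.ev (nat_lit 79538861172344120329614983168) (nat_lit 1)) (.cons (.ev (nat_lit 4722438821942971662336) (nat_lit 1)) .nil))) .nil)))) (.cons (.br (nat_lit 7) (nat_lit 1) (.cons (.zr (nat_lit 2417906979465877524579072) (nat_lit 158456325028528956666376486916) (nat_lit 5)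 (nat_lit 4)) (.cons (.br (nat_lit 11) (nat_lit 1) (.cons (.rf (nat_lit 82) (nat_lit 13195521058)) (.cons (.zr (nat_lit 928469196563484914621612800) (nat_lit 158457533954348571295551193089) (nat_lit 5) (nat_lit 4)) .nil))) (.cons (.br (nat_lit 9) (nat_lit 1) (.cons (.ev (nat_lit 309489750634573115886207233) (nat_lit 1)) (.cons (.zr (nat_lit 928469196563484914621612800) (nat_lit 158457533954348571295551193089) (nat_lit 5) (nat_lit 4)) .nil))) (.cons (.br (nat_lit 13) (nat_lit 1) (.cons (.ev (nat_lit 79229371458602754994272731136) (nat_lit 1)) (.cons (.ev (nat_lit 4722438821942971662336) (nat_lit 1)) (.cons (.zr (nat_lit 60847228810955011276239800369920) (nat_lit 158457533954348571295551193089) (nat_lit 5) (nat_lit 4)) .nil)))) .nil))))) .nil)))),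
 (.br (nat_lit 8) (nat_lit 1) (.cons (.ev (nat_lit 79229376162450716567357358081) (nat_lit 1)) .nil)),
 (.br (nat_lit 12) (nat_lit 1) (.cons (.ev (nat_lit 79537647524085683761797202176) (nat_lit 1)) (.cons (.rf (nat_lit 4121) (nat_lit 493858305440582043680)) (.cons (.br (nat_lit 7) (nat_lit 1) (.cons (.rf (nat_lit 84) (nat_lit 10075085858)) (.cons (.br (nat_lit 8) (nat_lit 1) (.cons (.ev (nat_lit 309489750634573115886207233) (nat_lit 1)) (.cons (.rf (nat_lit 4122) (nat_lit 15433072045017106464)) .nil))) (.cons (.br (nat_lit 9) (nat_lit 1) (.cons (.br (nat_lit 9) (nat_lit 1) (.cons (.zr (nat_lit 396140812571321687967787188224) (nat_lit 620188427233156420192960513) (nat_lit 5) (nat_lit 6)) .nil)) (.cons (.zr (nat_lit 237684487542793012780699156480) (nat_lit 40564820416229160745102460584449) (nat_lit 5) (nat_lit 6)) .nil))) .nil)))) .nil)))),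
 (.br (nat_lit 12) (nat_lit 1) (.cons (.rf (nat_lit 4120) (nat_lit 493858305440582043680)) (.cons (.rf (nat_lit 4121) (nat_lit 493858305440582043680)) (.cons (.rf (nat_lit 4123) (nat_lit 493858305440582043680)) (.cons (.br (nat_lit 12) (nat_lit 1) (.cons (.rf (nat_lit 4120) (nat_lit 493858305440582043680)) (.cons (.rf (nat_lit 4121) (nat_lit 493858305440582043680)) (.cons (.rf (nat_lit 4123) (nat_lit 493858305440582043680)) .nil)))) .nil))))),
 (.br (nat_lit 12) (nat_lit 1) (.cons (.rf (nat_lit 84) (nat_lit 8904584417)) (.cons (.rf (nat_lit 4124) (nat_lit 493858305440582043680)) (.cons (.br (nat_lit 7) (nat_lit 1) (.cons (.ev (nat_lit 80160244321331335178164895746) (nat_lit 2)) (.cons (.rf (nat_lit 84) (nat_lit 9002392641)) (.cons (.br (nat_lit 13) (nat_lit 1) (.cons (.zr (nat_lit 80775587564091642188966920200) (nat_lit 81129646877087419561143299212288) (nat_lit 10) (nat_lit 0)) (.cons (.ev (nat_lit 4722438821942971662336) (nat_lit 1)) .nil))) .nil)))) .nil)))),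
 (.br (nat_lit 12) (nat_lit 1) (.cons (.rf (nat_lit 4120) (nat_lit 493858305440582043680)) (.cons (.rf (nat_lit 4124) (nat_lit 493858305440582043680)) (.cons (.rf (nat_lit 4125) (nat_lit 493858305440582043680)) (.cons (.br (nat_lit 12) (nat_lit 1) (.cons (.rf (nat_lit 4120) (nat_lit 493858305440582043680)) (.cons (.rf (nat_lit 4124) (nat_lit 493858305440582043680)) (.cons (.rf (nat_lit 4125) (nat_lit 493858305440582043680)) .nil)))) .nil))))),
 (.br (nat_lit 12) (nat_lit 1) (.cons (.rf (nat_lit 4120) (nat_lit 493858305440582043680)) (.cons (.rf (nat_lit 4124) (nat_lit 493858305440582043680)) (.cons (.rf (nat_lit 4126) (nat_lit 493858305440582043680)) (.cons (.br (nat_lit 12) (nat_lit 1) (.cons (.rf (nat_lit 4120) (nat_lit 493858305440582043680)) (.cons (.rf (nat_lit 4124) (nat_lit 493858305440582043680)) (.cons (.rf (nat_lit 4126) (nat_lit 493858305440582043680)) .nil)))) .nil))))),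
 (.br (nat_lit 12) (nat_lit 1) (.cons (.rf (nat_lit 4120) (nat_lit 493858305440582043680)) (.cons (.rf (nat_lit 4124) (nat_lit 493858305440582043680)) (.cons (.rf (nat_lit 4126) (nat_lit 493858305440582043680)) (.cons (.rf (nat_lit 4127) (nat_lit 493858305440582043680)) (.cons (.br (nat_lit 12) (nat_lit 1) (.cons (.rf (nat_lit 4120) (nat_lit 493858305440582043680)) (.cons (.rf (nat_lit 4124) (nat_lit 493858305440582043680)) (.cons (.rf (nat_lit 4126) (nat_lit 493858305440582043680)) (.cons (.rf (nat_lit 4127) (nat_lit 493858305440582043680)) .nil))))) .nil)))))),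
 (.br (nat_lit 12) (nat_lit 1) (.cons (.ev (nat_lit 79537647542532427835506753793) (nat_lit 1)) .nil)),
 (.br (nat_lit 8) (nat_lit 1) (.cons (.rf (nat_lit 31) (nat_lit 310609250)) (.cons (.br (nat_lit 9) (nat_lit 1) (.cons (.rf (nat_lit 4129) (nat_lit 493858305440582043680)) (.cons (.br (nat_lit 9) (nat_lit 1) (.cons (.rf (nat_lit 4129) (nat_lit 493858305440582043680)) .nil)) .nil))) .nil))),
 (.br (nat_lit 13) (nat_lit 1) (.cons (.br (nat_lit 12) (nat_lit 1) (.cons (.br (nat_lit 9) (nat_lit 1) (.cons (.ev (nat_lit 4740885566016681213953) (nat_lit 1)) .nil)) (.cons (.br (nat_lit 8) (nat_lit 1) (.cons (.ev (nat_lit 4740885566016681213953) (nat_lit 1)) .nil)) .nil))) (.cons (.br (nat_lit 12) (nat_lit 1) (.cons (.zr (nat_lit 2417906980026628454744832) (nat_lit 40802503694846133860692331069441) (nat_lit 5) (nat_lit 0)) (.cons (.ev (nat_lit 20282409608374108965510462832641) (nat_lit 1)) (.cons (.ev (nat_lit 20282720297587383441239205478401) (nat_lit 1)) .nil)))) .nil))),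
 (.br (nat_lit 13) (nat_lit 1) (.cons (.rf (nat_lit 4131) (nat_lit 493858305440582043680)) (.cons (.br (nat_lit 8) (nat_lit 1) (.cons (.br (nat_lit 9) (nat_lit 1) (.cons (.ev (nat_lit 79538856468352322844441444608) (nat_lit 1)) .nil)) (.cons (.zr (nat_lit 396140812571537860767013404672) (nat_lit 40564820416266054235444624752641) (nat_lit 5) (nat_lit 3)) .nil))) .nil))),
 (.br (nat_lit 13) (nat_lit 1) (.cons (.rf (nat_lit 4131) (nat_lit 493858305440582043680)) (.cons (.rf (nat_lit 4132) (nat_lit 493858305440582043680)) (.cons (.br (nat_lit 13) (nat_lit 1) (.cons (.rf (nat_lit 4131) (nat_lit 493858305440582043680)) (.cons (.rf (nat_lit 4132) (nat_lit 493858305440582043680)) .nil))) .nil)))),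
 (.br (nat_lit 13) (nat_lit 1) (.cons (.rf (nat_lit 4133) (nat_lit 493858305440582043680)) (.cons (.rf (nat_lit 3271) (nat_lit 291782945638762)) .nil))),
 (.br (nat_lit 13) (nat_lit 1) (.cons (.rf (nat_lit 4133) (nat_lit 493858305440582043680)) (.cons (.rf (nat_lit 4134) (nat_lit 493858305440582043680)) (.cons (.br (nat_lit 13) (nat_lit 1) (.cons (.rf (nat_lit 4133) (nat_lit 493858305440582043680)) (.cons (.rf (nat_lit 3271) (nat_lit 291782945638762)) .nil))) .nil)))),
 (.br (nat_lit 13) (nat_lit 1) (.cons (.rf (nat_lit 4133) (nat_lit 493858305440582043680)) (.cons (.rf (nat_lit 4135) (nat_lit 493858305440582043680)) (.cons (.br (nat_lit 13) (nat_lit 1) (.cons (.rf (nat_lit 4133) (nat_lit 493858305440582043680)) (.cons (.rf (nat_lit 3271) (nat_lit 291782945638762)) .nil))) .nil)))),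
 (.br (nat_lit 8) (nat_lit 1) (.cons (.br (nat_lit 11) (nat_lit 1) (.cons (.ev (nat_lit 1213666704900266095804416) (nat_lit 1)) (.cons (.br (nat_lit 9) (nat_lit 1) (.cons (.br (nat_lit 12) (nat_lit 1) (.cons (.ev (nat_lit 20838556617301571377841142039814) (nat_lit 3)) .nil)) (.cons (.ev (nat_lit 20282719093383858533360597991681) (nat_lit 1)) .nil))) (.cons (.ev (nat_lit 20282409603651670423951546319104) (nat_lit 1)) .nil)))) (.cons (.rf (nat_lit 84) (nat_lit 10108349479)) (.cons (.br (nat_lit 11) (nat_lit 1) (.cons (.br (nat_lit 9) (nat_lit 1) (.cons (.br (nat_lit 12) (nat_lit 1) (.cons (.ev (nat_lit 20838556617301571377841142039814) (nat_lit 3)) .nil)) (.cons (.ev (nat_lit 20282720302309677867618602647808) (nat_lit 1)) .nil))) (.cons (.br (nat_lit 12) (nat_lit 1) (.cons (.br (nat_lit 9) (nat_lit 1) (.cons (.ev (nat_lit 158767033168162574939910701570) (nat_lit 2)) .nil)) (.cons (.ev (nat_lit 20361947251175756388088808472833) (nat_lit 1)) .nil))) (.cons (.ev (nat_lit 310693954160043944447115265)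 (nat_lit 1)) .nil)))) .nil)))),
 (.br (nat_lit 2) (nat_lit 1) (.cons (.rf (nat_lit 3574) (nat_lit 15323893630606908448)) (.cons (.rf (nat_lit 4128) (nat_lit 493858305440582043680)) (.cons (.br (nat_lit 8) (nat_lit 1) (.cons (.rf (nat_lit 31) (nat_lit 310609250)) (.cons (.rf (nat_lit 4130) (nat_lit 14242959524133701664)) (.cons (.br (nat_lit 8) (nat_lit 1) (.cons (.rf (nat_lit 31) (nat_lit 310609250)) (.cons (.rf (nat_lit 4130) (nat_lit 14242959524133701664)) .nil))) .nil)))) (.cons (.br (nat_lit 13) (nat_lit 1) (.cons (.rf (nat_lit 4133) (nat_lit 493858305440582043680)) (.cons (.rf (nat_lit 4135) (nat_lit 493858305440582043680)) (.cons (.rf (nat_lit 4136) (nat_lit 493858305440582043680)) (.cons (.br (nat_lit 13) (nat_lit 1) (.cons (.rf (nat_lit 4133) (nat_lit 493858305440582043680)) (.cons (.rf (nat_lit 4135) (nat_lit 493858305440582043680)) (.cons (.rf (nat_lit 4136) (nat_lit 493858305440582043680)) .nil)))) .nil))))) (.cons (.br (nat_lit 13) (nat_lit 1) (.cons (.rf (nat_lit 4137) (nat_lit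 493858305440582043680)) (.cons (.br (nat_lit 13) (nat_lit 1) (.cons (.rf (nat_lit 4137) (nat_lit 493858305440582043680)) (.cons (.rf (nat_lit 84) (nat_lit 8905796673)) (.cons (.ev (nat_lit 20282410812577490321150914330881) (nat_lit 1)) .nil)))) (.cons (.rf (nat_lit 3950) (nat_lit 9547680762274458858)) (.cons (.br (nat_lit 13) (nat_lit 1) (.cons (.rf (nat_lit 4137) (nat_lit 493858305440582043680)) (.cons (.ev (nat_lit 20282410812577490321150914330881) (nat_lit 1)) (.cons (.rf (nat_lit 3950) (nat_lit 9547680762274458858)) .nil)))) .nil))))) .nil)))))),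
 (.br (nat_lit 2) (nat_lit 1) (.cons (.rf (nat_lit 31) (nat_lit 310740194)) (.cons (.rf (nat_lit 1339) (nat_lit 322365888865)) (.cons (.rf (nat_lit 1339) (nat_lit 288007493666)) (.cons (.br (nat_lit 7) (nat_lit 1) (.cons (.rf (nat_lit 84) (nat_lit 13195648034)) (.cons (.rf (nat_lit 84) (nat_lit 13162818786)) (.cons (.br (nat_lit 8) (nat_lit 1) (.cons (.rf (nat_lit 84) (nat_lit 9944734795)) (.cons (.br (nat_lit 9) (nat_lit 1) (.cons (.zr (nat_lit 1547425086003310815432802308) (nat_lit 396143244590420653852439085824) (nat_lit 20) (nat_lit 6)) (.cons (.rf (nat_lit 4122) (nat_lit 15324988952495097888)) .nil))) .nil))) (.cons (.br (nat_lit 8) (nat_lit 1) (.cons (.br (nat_lit 9) (nat_lit 1) (.cons (.ev (nat_lit 79538861172344120329614983168) (nat_lit 1)) (.cons (.zr (nat_lit 14167099448613264359425) (nat_lit 3626814352614609431560704) (nat_lit 5) (nat_lit 5)) .nil))) (.cons (.br (nat_lit 9) (nat_lit 1) (.cons (.br (nat_lit 12) (nat_lit 1) (.cons (.zr (nat_lit 4835813961178057371877632) (nat_lit 396140831461147907450849984515)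 (nat_lit 10) (nat_lit 6)) .nil)) (.cons (.ev (nat_lit 20282410817299928860519397654528) (nat_lit 1)) .nil))) .nil))) .nil))))) (.cons (.br (nat_lit 7) (nat_lit 1) (.cons (.rf (nat_lit 84) (nat_lit 14269389858)) (.cons (.rf (nat_lit 84) (nat_lit 14236560610)) (.cons (.br (nat_lit 8) (nat_lit 1) (.cons (.br (nat_lit 9) (nat_lit 1) (.cons (.zr (nat_lit 14167099448613264359425) (nat_lit 3626814352614609431560704) (nat_lit 5) (nat_lit 5)) (.cons (.br (nat_lit 12) (nat_lit 1) (.cons (.ev (nat_lit 79538861190790864403324534785) (nat_lit 1)) .nil)) .nil))) (.cons (.br (nat_lit 12) (nat_lit 1) (.cons (.br (nat_lit 12) (nat_lit 1) (.cons (.ev (nat_lit 79538856449905578770731892993) (nat_lit 1)) .nil)) (.cons (.br (nat_lit 9) (nat_lit 1) (.cons (.ev (nat_lit 79538856449905578770731892993) (nat_lit 1)) .nil)) .nil))) .nil))) (.cons (.br (nat_lit 8) (nat_lit 1) (.cons (.br (nat_lit 9) (nat_lit 1) (.cons (.zr (nat_lit 14167099448613264359425) (nat_lit 3626814352614609431560704) (nat_lit 5) (nat_lit 5)) (.cons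 (.ev (nat_lit 20282720302309677867618602647808) (nat_lit 1)) .nil))) (.cons (.ev (nat_lit 20282720297605830185312915030016) (nat_lit 1)) .nil))) .nil))))) .nil)))))),
 (.br (nat_lit 11) (nat_lit 1) (.cons (.br (nat_lit 12) (nat_lit 1) (.cons (.zr (nat_lit 397688237620788701307303100422) (nat_lit 9680888183653494645982976) (nat_lit 5) (nat_lit 6)) .nil)) (.cons (.br (nat_lit 8) (nat_lit 1) (.cons (.ev (nat_lit 20521641520984744242159865366278) (nat_lit 3)) .nil)) (.cons (.ev (nat_lit 309489732187829042176655616) (nat_lit 1)) .nil)))),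
 (.br (nat_lit 7) (nat_lit 1) (.cons (.br (nat_lit 12) (nat_lit 1) (.cons (.ev (nat_lit 20680097846013128799959854285060) (nat_lit 3)) .nil)) (.cons (.rf (nat_lit 3799) (nat_lit 493786318042448403488)) (.cons (.rf (nat_lit 4140) (nat_lit 493858305440582043680)) .nil)))),
 (.br (nat_lit 13) (nat_lit 1) (.cons (.rf (nat_lit 4140) (nat_lit 493858305440582043680)) (.cons (.rf (nat_lit 4141) (nat_lit 493858305440582043680)) (.cons (.ev (nat_lit 309489732187829042176655616) (nat_lit 1)) (.cons (.br (nat_lit 13) (nat_lit 1) (.cons (.rf (nat_lit 4140) (nat_lit 493858305440582043680)) (.cons (.rf (nat_lit 4141) (nat_lit 493858305440582043680)) (.cons (.ev (nat_lit 309489732187829042176655616) (nat_lit 1)) .nil)))) .nil))))),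
 (.br (nat_lit 2) (nat_lit 1) (.cons (.br (nat_lit 11) (nat_lit 1) (.cons (.ev (nat_lit 79537647524085683761797202176) (nat_lit 1)) (.cons (.br (nat_lit 12) (nat_lit 1) (.cons (.zr (nat_lit 928469196779660995270279172) (nat_lit 396142021534035072223602343936) (nat_lit 5) (nat_lit 4)) .nil)) .nil))) (.cons (.br (nat_lit 8) (nat_lit 1) (.cons (.zr (nat_lit 14167099448613264359425) (nat_lit 3626814352614609431560704) (nat_lit 5) (nat_lit 5)) (.cons (.zr (nat_lit 14167099448609003077632) (nat_lit 620178982500190680902533121) (nat_lit 5) (nat_lit 5)) .nil))) (.cons (.rf (nat_lit 4142) (nat_lit 493858305440582043680)) (.cons (.br (nat_lit 12) (nat_lit 1) (.cons (.zr (nat_lit 237684487542793012797811916801) (nat_lit 3626814352614609448337920) (nat_lit 5) (nat_lit 5)) (.cons (.ev (nat_lit 309489732187829042176655616) (nat_lit 1)) (.cons (.ev (nat_lit 20282410812577490321150914330881) (nat_lit 1)) .nil)))) .nil))))),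
 (.br (nat_lit 2) (nat_lit 1) (.cons (.br (nat_lit 13) (nat_lit 1) (.cons (.zr (nat_lit 928469196779656614403637252) (nat_lit 7253591811458496972457216) (nat_lit 5) (nat_lit 5)) (.cons (.zr (nat_lit 237684487542793012797811916801) (nat_lit 3626814352614609448337920) (nat_lit 5) (nat_lit 5)) .nil))) (.cons (.zr (nat_lit 14167099448613264359425) (nat_lit 3626814352614609431560704) (nat_lit 5) (nat_lit 5)) (.cons (.rf (nat_lit 4142) (nat_lit 493858305440582043680)) (.cons (.br (nat_lit 12) (nat_lit 1) (.cons (.zr (nat_lit 237684487542793012797811916801) (nat_lit 3626814352614609448337920) (nat_lit 5) (nat_lit 5)) (.cons (.ev (nat_lit 309489732187829042176655616) (nat_lit 1)) (.cons (.ev (nat_lit 20282410812577490321150914330881) (nat_lit 1)) .nil)))) .nil))))),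
 (.br (nat_lit 12) (nat_lit 1) (.cons (.rf (nat_lit 4142) (nat_lit 493858305440582043680)) (.cons (.rf (nat_lit 4143) (nat_lit 493858305440582043680)) (.cons (.rf (nat_lit 4144) (nat_lit 493858305440582043680)) (.cons (.br (nat_lit 2) (nat_lit 1) (.cons (.br (nat_lit 8) (nat_lit 1) (.cons (.zr (nat_lit 396140812571321687967720080640) (nat_lit 620188427233156420209737729) (nat_lit 5) (nat_lit 0)) .nil)) (.cons (.br (nat_lit 7) (nat_lit 1) (.cons (.zr (nat_lit 396140812571321687967787188224) (nat_lit 620188427233156420192960513) (nat_lit 5) (nat_lit 6)) .nil)) (.cons (.ev (nat_lit 309489732187829042176655616) (nat_lit 1)) .nil)))) .nil)))))]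

theorem c143 : chkAll C T R L143 (nat_lit 4120) = true := by decide +kernel

theorem l143 : (nat_lit 4120) + L143.length = (nat_lit 4146) := by decide +kernel

/-- part of the certificates -/
def L144 : List Prf := [(.br (nat_lit 9) (nat_lit 1) (.cons (.rf (nat_lit 4128) (nat_lit 493858305440582043680)) (.cons (.rf (nat_lit 4138) (nat_lit 493858305440582043680)) (.cons (.rf (nat_lit 4139) (nat_lit 493858305440582043680)) (.cons (.br (nat_lit 12) (nat_lit 1) (.cons (.rf (nat_lit 4142) (nat_lit 493858305440582043680)) (.cons (.rf (nat_lit 4143) (nat_lit 493858305440582043680)) (.cons (.rf (nat_lit 4144) (nat_lit 493858305440582043680)) (.cons (.rf (nat_lit 4145) (nat_lit 493858305440582043680)) (.cons (.br (nat_lit 12) (nat_lit 1) (.cons (.rf (nat_lit 4142) (nat_lit 493858305440582043680)) (.cons (.rf (nat_lit 4143) (nat_lit 493858305440582043680)) (.cons (.rf (nat_lit 4144) (nat_lit 493858305440582043680)) (.cons (.rf (nat_lit 4145) (nat_lit 493858305440582043680)) .nil))))) .nil)))))) .nil))))),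
 (.br (nat_lit 9) (nat_lit 1) (.cons (.rf (nat_lit 4128) (nat_lit 493858305440582043680)) (.cons (.rf (nat_lit 4138) (nat_lit 493858305440582043680)) (.cons (.rf (nat_lit 4139) (nat_lit 493858305440582043680)) (.cons (.rf (nat_lit 4146) (nat_lit 493858305440582043680)) (.cons (.br (nat_lit 9) (nat_lit 1) (.cons (.rf (nat_lit 4128) (nat_lit 493858305440582043680)) (.cons (.rf (nat_lit 4138) (nat_lit 493858305440582043680)) (.cons (.rf (nat_lit 4139) (nat_lit 493858305440582043680)) (.cons (.rf (nat_lit 4146) (nat_lit 493858305440582043680)) .nil))))) .nil)))))),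
 (.br (nat_lit 9) (nat_lit 1) (.cons (.rf (nat_lit 4128) (nat_lit 493858305440582043680)) (.cons (.rf (nat_lit 4138) (nat_lit 493858305440582043680)) (.cons (.rf (nat_lit 4147) (nat_lit 493858305440582043680)) (.cons (.br (nat_lit 9) (nat_lit 1) (.cons (.rf (nat_lit 4128) (nat_lit 493858305440582043680)) (.cons (.rf (nat_lit 4138) (nat_lit 493858305440582043680)) (.cons (.rf (nat_lit 4147) (nat_lit 493858305440582043680)) (.cons (.ev (nat_lit 310698658007724042521411841) (nat_lit 1)) .nil))))) (.cons (.br (nat_lit 9) (nat_lit 1) (.cons (.rf (nat_lit 4128) (nat_lit 493858305440582043680)) (.cons (.rf (nat_lit 4138) (nat_lit 493858305440582043680)) (.cons (.rf (nat_lit 4147) (nat_lit 493858305440582043680)) (.cons (.ev (nat_lit 310698658007724042521411841) (nat_lit 1)) .nil))))) .nil)))))),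
 (.br (nat_lit 9) (nat_lit 1) (.cons (.rf (nat_lit 4128) (nat_lit 493858305440582043680)) (.cons (.rf (nat_lit 4138) (nat_lit 493858305440582043680)) (.cons (.rf (nat_lit 4147) (nat_lit 493858305440582043680)) (.cons (.rf (nat_lit 4148) (nat_lit 493858305440582043680)) (.cons (.br (nat_lit 9) (nat_lit 1) (.cons (.rf (nat_lit 4128) (nat_lit 493858305440582043680)) (.cons (.rf (nat_lit 4138) (nat_lit 493858305440582043680)) (.cons (.rf (nat_lit 4147) (nat_lit 493858305440582043680)) (.cons (.ev (nat_lit 310698658007724042521411841) (nat_lit 1)) .nil))))) .nil)))))),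
 (.br (nat_lit 9) (nat_lit 1) (.cons (.rf (nat_lit 4128) (nat_lit 493858305440582043680)) (.cons (.rf (nat_lit 4138) (nat_lit 493858305440582043680)) (.cons (.rf (nat_lit 4147) (nat_lit 493858305440582043680)) (.cons (.rf (nat_lit 4148) (nat_lit 493858305440582043680)) (.cons (.rf (nat_lit 4149) (nat_lit 493858305440582043680)) (.cons (.br (nat_lit 9) (nat_lit 1) (.cons (.rf (nat_lit 4128) (nat_lit 493858305440582043680)) (.cons (.rf (nat_lit 4138) (nat_lit 493858305440582043680)) (.cons (.rf (nat_lit 4147) (nat_lit 493858305440582043680)) (.cons (.rf (nat_lit 4148) (nat_lit 493858305440582043680)) (.cons (.rf (nat_lit 4149) (nat_lit 493858305440582043680)) .nil)))))) .nil))))))),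
 (.br (nat_lit 12) (nat_lit 1) (.cons (.rf (nat_lit 2594) (nat_lit 8893377762)) (.cons (.rf (nat_lit 2594) (nat_lit 8903853282)) (.cons (.br (nat_lit 1) (nat_lit 1) (.cons (.br (nat_lit 9) (nat_lit 1) (.cons (.ev (nat_lit 79229376162522493785913426176) (nat_lit 1)) (.cons (.ev (nat_lit 79228167255077847115698798848) (nat_lit 1)) .nil))) (.cons (.rf (nat_lit 29) (nat_lit 8620385)) (.cons (.br (nat_lit 11) (nat_lit 1) (.cons (.br (nat_lit 9) (nat_lit 1) (.cons (.ev (nat_lit 79229376162450435092380713216) (nat_lit 1)) .nil)) (.cons (.ev (nat_lit 20282719088661492050495247745024) (nat_lit 1)) .nil))) .nil)))) .nil)))),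
 (.br (nat_lit 13) (nat_lit 1) (.cons (.rf (nat_lit 2594) (nat_lit 8893410530)) (.cons (.rf (nat_lit 2594) (nat_lit 8903886050)) (.cons (.br (nat_lit 1) (nat_lit 1) (.cons (.br (nat_lit 9) (nat_lit 1) (.cons (.rf (nat_lit 82) (nat_lit 14269389889)) (.cons (.br (nat_lit 11) (nat_lit 1) (.cons (.ev (nat_lit 80160244321331335178164895746) (nat_lit 2)) .nil)) .nil))) (.cons (.rf (nat_lit 29) (nat_lit 8620385)) (.cons (.br (nat_lit 11) (nat_lit 1) (.cons (.br (nat_lit 9) (nat_lit 1) (.cons (.ev (nat_lit 20678862323936018435238908854532) (nat_lit 3)) .nil)) (.cons (.ev (nat_lit 80160244321403389473651359746) (nat_lit 2)) .nil))) .nil)))) .nil)))),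
 (.br (nat_lit 8) (nat_lit 1) (.cons (.kr (nat_lit 1) (nat_lit 18446744073709551616) (nat_lit 0) (nat_lit 1)) (.cons (.kr (nat_lit 72058693549555713) (nat_lit 18446744073726394368) (nat_lit 0) (nat_lit 1)) (.cons (.rf (nat_lit 58) (nat_lit 8756289)) (.cons (.br (nat_lit 12) (nat_lit 1) (.cons (.rf (nat_lit 1339) (nat_lit 422358258722)) (.cons (.rf (nat_lit 4151) (nat_lit 493858305440582043680)) (.cons (.rf (nat_lit 1339) (nat_lit 422022714722)) (.cons (.br (nat_lit 12) (nat_lit 1) (.cons (.rf (nat_lit 2594) (nat_lit 9027595490)) (.cons (.rf (nat_lit 4151) (nat_lit 493858305440582043680)) (.cons (.rf (nat_lit 2594) (nat_lit 9038071010)) .nil)))) .nil))))) (.cons (.br (nat_lit 13) (nat_lit 1) (.cons (.rf (nat_lit 1339) (nat_lit 456717997090)) (.cons (.rf (nat_lit 4152) (nat_lit 493858305440582043680)) (.cons (.rf (nat_lit 1339) (nat_lit 456382453090)) (.cons (.br (nat_lit 13) (nat_lit 1) (.cons (.rf (nat_lit 2594) (nat_lit 8994073826)) (.cons (.rf (nat_lit 4152) (nat_lit 493858305440582043680))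 (.cons (.rf (nat_lit 2594) (nat_lit 9004549346)) .nil)))) .nil))))) .nil)))))),
 (.br (nat_lit 9) (nat_lit 1) (.cons (.rf (nat_lit 2594) (nat_lit 8993938786)) (.cons (.rf (nat_lit 2594) (nat_lit 9000224098)) (.cons (.br (nat_lit 1) (nat_lit 1) (.cons (.rf (nat_lit 29) (nat_lit 8751329)) (.cons (.br (nat_lit 7) (nat_lit 1) (.cons (.rf (nat_lit 82) (nat_lit 10074958913)) (.cons (.br (nat_lit 12) (nat_lit 1) (.cons (.ev (nat_lit 21474867450047951956548490956036) (nat_lit 4)) .nil)) .nil))) (.cons (.br (nat_lit 7) (nat_lit 1) (.cons (.br (nat_lit 12) (nat_lit 1) (.cons (.ev (nat_lit 20838554180560177417172447331588) (nat_lit 3)) .nil)) (.cons (.ev (nat_lit 20282721515957864528075965858561) (nat_lit 2)) .nil))) .nil)))) .nil)))),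
 (.br (nat_lit 9) (nat_lit 1) (.cons (.br (nat_lit 12) (nat_lit 1) (.cons (.ev (nat_lit 79851991959843045405309797380) (nat_lit 3)) (.cons (.ev (nat_lit 79228167255149903610208387328) (nat_lit 1)) .nil))) (.cons (.ev (nat_lit 310698658007724042521411841) (nat_lit 1)) (.cons (.br (nat_lit 12) (nat_lit 1) (.cons (.ev (nat_lit 1208944338417400745558273) (nat_lit 1)) (.cons (.ev (nat_lit 309489732187829042176655616) (nat_lit 1)) (.cons (.br (nat_lit 7) (nat_lit 1) (.cons (.ev (nat_lit 20838554180523428046412093654278) (nat_lit 3)) .nil)) .nil)))) .nil)))),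
 (.br (nat_lit 12) (nat_lit 1) (.cons (.ev (nat_lit 1208944338417400745558273) (nat_lit 1)) (.cons (.rf (nat_lit 4155) (nat_lit 493858305440582043680)) (.cons (.br (nat_lit 13) (nat_lit 1) (.cons (.rf (nat_lit 84) (nat_lit 9006586914)) (.cons (.ev (nat_lit 20282720297587311384744662466561) (nat_lit 1)) .nil))) .nil)))),
 (.br (nat_lit 12) (nat_lit 1) (.cons (.ev (nat_lit 1208944338417400745558273) (nat_lit 1)) (.cons (.rf (nat_lit 4155) (nat_lit 493858305440582043680)) (.cons (.rf (nat_lit 4156) (nat_lit 493858305440582043680)) (.cons (.br (nat_lit 12) (nat_lit 1) (.cons (.ev (nat_lit 1208944338417400745558273) (nat_lit 1)) (.cons (.rf (nat_lit 4155) (nat_lit 493858305440582043680)) (.cons (.rf (nat_lit 4156) (nat_lit 493858305440582043680)) .nil)))) .nil))))),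
 (.br (nat_lit 1) (nat_lit 1) (.cons (.br (nat_lit 9) (nat_lit 1) (.cons (.rf (nat_lit 84) (nat_lit 14236593191)) (.cons (.br (nat_lit 11) (nat_lit 1) (.cons (.ev (nat_lit 79229376162522493785913426176) (nat_lit 1)) (.cons (.br (nat_lit 12) (nat_lit 1) (.cons (.zr (nat_lit 1856914800174490643396034568) (nat_lit 396149275052058990380650397696) (nat_lit 10) (nat_lit 0)) .nil)) .nil))) (.cons (.br (nat_lit 11) (nat_lit 1) (.cons (.br (nat_lit 12) (nat_lit 1) (.cons (.zr (nat_lit 1237958929400400776420917255) (nat_lit 396150483996325349074961500672) (nat_lit 15) (nat_lit 5)) .nil)) (.cons (.ev (nat_lit 20282719088679938794568957296641) (nat_lit 1)) .nil))) .nil)))) (.cons (.br (nat_lit 9) (nat_lit 1) (.cons (.br (nat_lit 9) (nat_lit 1) (.cons (.zr (nat_lit 928455085020440226596651008) (nat_lit 1218370552862942970250497) (nat_lit 5) (nat_lit 10)) .nil)) (.cons (.br (nat_lit 12) (nat_lit 1) (.cons (.zr (nat_lit 928455085020440226596651008) (nat_lit 1218370552862942970250497) (nat_lit 5) (nat_lit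 10)) (.cons (.rf (nat_lit 4057) (nat_lit 309307271960022162794)) .nil))) .nil))) (.cons (.ev (nat_lit 1208944338417400745558273) (nat_lit 1)) (.cons (.rf (nat_lit 4157) (nat_lit 493858305440582043680)) .nil))))),
 (.br (nat_lit 13) (nat_lit 1) (.cons (.rf (nat_lit 4157) (nat_lit 493858305440582043680)) (.cons (.ev (nat_lit 20282719088679938794568957296641) (nat_lit 1)) (.cons (.br (nat_lit 1) (nat_lit 1) (.cons (.br (nat_lit 9) (nat_lit 1) (.cons (.zr (nat_lit 928469251903716036305747968) (nat_lit 396142021497285700363753619457) (nat_lit 5) (nat_lit 4)) .nil)) (.cons (.br (nat_lit 7) (nat_lit 1) (.cons (.zr (nat_lit 928469252119888818419531776) (nat_lit 396142021497141585175677764865) (nat_lit 5) (nat_lit 10)) .nil)) (.cons (.br (nat_lit 7) (nat_lit 1) (.cons (.ev (nat_lit 20680716825477505018777890522370) (nat_lit 3)) .nil)) .nil)))) .nil)))),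
 (.br (nat_lit 13) (nat_lit 1) (.cons (.rf (nat_lit 4157) (nat_lit 493858305440582043680)) (.cons (.rf (nat_lit 4158) (nat_lit 493858305440582043680)) (.cons (.rf (nat_lit 4159) (nat_lit 493858305440582043680)) (.cons (.br (nat_lit 13) (nat_lit 1) (.cons (.rf (nat_lit 4157) (nat_lit 493858305440582043680)) (.cons (.rf (nat_lit 4158) (nat_lit 493858305440582043680)) (.cons (.rf (nat_lit 4159) (nat_lit 493858305440582043680)) .nil)))) .nil))))),
 (.br (nat_lit 13) (nat_lit 1) (.cons (.rf (nat_lit 4157) (nat_lit 493858305440582043680)) (.cons (.rf (nat_lit 4158) (nat_lit 493858305440582043680)) (.cons (.rf (nat_lit 4160) (nat_lit 493858305440582043680)) (.cons (.br (nat_lit 13) (nat_lit 1) (.cons (.ev (nat_lit 20282719088661492050495247745024) (nat_lit 1)) (.cons (.rf (nat_lit 4158) (nat_lit 493858305440582043680)) (.cons (.rf (nat_lit 4160) (nat_lit 493858305440582043680)) .nil)))) .nil))))),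
 (.br (nat_lit 12) (nat_lit 1) (.cons (.ev (nat_lit 1208944338417400745558273) (nat_lit 1)) (.cons (.br (nat_lit 7) (nat_lit 1) (.cons (.ev (nat_lit 79228176681436410049334542850) (nat_lit 2)) (.cons (.br (nat_lit 9) (nat_lit 1) (.cons (.ev (nat_lit 20522260509893565200730564265218) (nat_lit 3)) .nil)) .nil))) (.cons (.br (nat_lit 7) (nat_lit 1) (.cons (.ev (nat_lit 79228167255077847115698798848) (nat_lit 1)) (.cons (.br (nat_lit 9) (nat_lit 1) (.cons (.ev (nat_lit 21474867449974453215027783601416) (nat_lit 4)) .nil)) (.cons (.br (nat_lit 9) (nat_lit 1) (.cons (.ev (nat_lit 158765814816273753666043773440) (nat_lit 2)) .nil)) .nil)))) .nil)))),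
 (.br (nat_lit 9) (nat_lit 1) (.cons (.rf (nat_lit 3397) (nat_lit 15430822444225660960)) (.cons (.rf (nat_lit 4162) (nat_lit 493858305440582043680)) (.cons (.br (nat_lit 9) (nat_lit 1) (.cons (.rf (nat_lit 3397) (nat_lit 15430822444225660960)) (.cons (.rf (nat_lit 4162) (nat_lit 493858305440582043680)) .nil))) .nil)))),
 (.br (nat_lit 12) (nat_lit 1) (.cons (.ev (nat_lit 1208944338417400745558273) (nat_lit 1)) (.cons (.rf (nat_lit 4162) (nat_lit 493858305440582043680)) (.cons (.rf (nat_lit 4163) (nat_lit 493858305440582043680)) (.cons (.br (nat_lit 12) (nat_lit 1) (.cons (.ev (nat_lit 1208944338417400745558273) (nat_lit 1)) (.cons (.rf (nat_lit 4162) (nat_lit 493858305440582043680)) (.cons (.rf (nat_lit 4163) (nat_lit 493858305440582043680)) .nil)))) .nil))))),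
 (.br (nat_lit 9) (nat_lit 1) (.cons (.ev (nat_lit 20361637766184453564312349310976) (nat_lit 1)) .nil)),
 (.br (nat_lit 12) (nat_lit 1) (.cons (.ev (nat_lit 1208944338417400745558273) (nat_lit 1)) (.cons (.br (nat_lit 1) (nat_lit 1) (.cons (.ev (nat_lit 79229376180897179166090264833) (nat_lit 1)) (.cons (.rf (nat_lit 4165) (nat_lit 493858305440582043680)) .nil))) (.cons (.br (nat_lit 1) (nat_lit 1) (.cons (.br (nat_lit 11) (nat_lit 1) (.cons (.zr (nat_lit 396140812571321687984899948544) (nat_lit 620188427233156415914770433) (nat_lit 5) (nat_lit 5)) .nil)) (.cons (.br (nat_lit 9) (nat_lit 1) (.cons (.zr (nat_lit 396140812571321687967720080640) (nat_lit 620188427233156420209737729) (nat_lit 5) (nat_lit 0)) .nil)) (.cons (.ev (nat_lit 20361638975110273459312694198273) (nat_lit 1)) .nil)))) .nil)))),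
 (.br (nat_lit 12) (nat_lit 1) (.cons (.ev (nat_lit 1208944338417400745558273) (nat_lit 1)) (.cons (.rf (nat_lit 4166) (nat_lit 493858305440582043680)) (.cons (.br (nat_lit 1) (nat_lit 1) (.cons (.br (nat_lit 9) (nat_lit 1) (.cons (.zr (nat_lit 396140812571321687967720080640) (nat_lit 620188427233156420209737729) (nat_lit 5) (nat_lit 0)) .nil)) (.cons (.rf (nat_lit 84) (nat_lit 9038769378)) .nil))) .nil)))),
 (.br (nat_lit 12) (nat_lit 1) (.cons (.ev (nat_lit 1208944338417400745558273) (nat_lit 1)) (.cons (.rf (nat_lit 4166) (nat_lit 493858305440582043680)) (.cons (.rf (nat_lit 4167) (nat_lit 493858305440582043680)) (.cons (.br (nat_lit 12) (nat_lit 1) (.cons (.ev (nat_lit 1208944338417400745558273) (nat_lit 1)) (.cons (.rf (nat_lit 4166) (nat_lit 493858305440582043680)) (.cons (.rf (nat_lit 4167) (nat_lit 493858305440582043680)) .nil)))) .nil))))),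
 (.br (nat_lit 12) (nat_lit 1) (.cons (.rf (nat_lit 4164) (nat_lit 493858305440582043680)) (.cons (.rf (nat_lit 4168) (nat_lit 493858305440582043680)) (.cons (.br (nat_lit 1) (nat_lit 1) (.cons (.br (nat_lit 9) (nat_lit 1) (.cons (.zr (nat_lit 396140812571321687967720080640) (nat_lit 620188427233156420209737729) (nat_lit 5) (nat_lit 0)) .nil)) (.cons (.br (nat_lit 7) (nat_lit 1) (.cons (.zr (nat_lit 396140812571321687967787188224) (nat_lit 620188427233156420192960513) (nat_lit 5) (nat_lit 6)) .nil)) (.cons (.br (nat_lit 7) (nat_lit 1) (.cons (.ev (nat_lit 20837318677262284871666336334086) (nat_lit 3)) .nil)) .nil)))) .nil)))),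
 (.br (nat_lit 12) (nat_lit 1) (.cons (.rf (nat_lit 4164) (nat_lit 493858305440582043680)) (.cons (.rf (nat_lit 4168) (nat_lit 493858305440582043680)) (.cons (.rf (nat_lit 4169) (nat_lit 493858305440582043680)) (.cons (.br (nat_lit 12) (nat_lit 1) (.cons (.rf (nat_lit 4164) (nat_lit 493858305440582043680)) (.cons (.rf (nat_lit 4168) (nat_lit 493858305440582043680)) (.cons (.rf (nat_lit 4169) (nat_lit 493858305440582043680)) .nil)))) .nil))))),
 (.br (nat_lit 12) (nat_lit 1) (.cons (.rf (nat_lit 4164) (nat_lit 493858305440582043680)) (.cons (.rf (nat_lit 4168) (nat_lit 493858305440582043680)) (.cons (.rf (nat_lit 4170) (nat_lit 493858305440582043680)) (.cons (.br (nat_lit 12) (nat_lit 1) (.cons (.rf (nat_lit 4164) (nat_lit 493858305440582043680)) (.cons (.rf (nat_lit 4168) (nat_lit 493858305440582043680)) (.cons (.rf (nat_lit 4170) (nat_lit 493858305440582043680)) .nil)))) .nil)))))]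

theorem c144 : chkAll C T R L144 (nat_lit 4146) = true := by decide +kernel

theorem l144 : (nat_lit 4146) + L144.length = (nat_lit 4172) := by decide +kernel

/-- part of the certificates -/
def L145 : List Prf := [(.br (nat_lit 8) (nat_lit 1) (.cons (.rf (nat_lit 4150) (nat_lit 493858305440582043680)) (.cons (.kr (nat_lit 72058693549555713) (nat_lit 18446744073726394368) (nat_lit 0) (nat_lit 1)) (.cons (.br (nat_lit 9) (nat_lit 1) (.cons (.rf (nat_lit 1339) (nat_lit 322366183458)) (.cons (.rf (nat_lit 1339) (nat_lit 322164857058)) (.cons (.rf (nat_lit 4154) (nat_lit 493858305440582043680)) (.cons (.br (nat_lit 9) (nat_lit 1) (.cons (.rf (nat_lit 2594) (nat_lit 9027493218)) (.cons (.ev (nat_lit 310708139633899752789245952) (nat_lit 2)) (.cons (.rf (nat_lit 4154) (nat_lit 493858305440582043680)) .nil)))) .nil))))) (.cons (.br (nat_lit 13) (nat_lit 1) (.cons (.rf (nat_lit 4157) (nat_lit 493858305440582043680)) (.cons (.rf (nat_lit 4158) (nat_lit 493858305440582043680)) (.cons (.rf (nat_lit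 4160) (nat_lit 493858305440582043680)) (.cons (.rf (nat_lit 4161) (nat_lit 493858305440582043680)) (.cons (.br (nat_lit 13) (nat_lit 1) (.cons (.rf (nat_lit 4157) (nat_lit 493858305440582043680)) (.cons (.rf (nat_lit 4158) (nat_lit 493858305440582043680)) (.cons (.rf (nat_lit 4160) (nat_lit 493858305440582043680)) (.cons (.rf (nat_lit 4161) (nat_lit 493858305440582043680)) .nil))))) .nil)))))) (.cons (.br (nat_lit 12) (nat_lit 1) (.cons (.rf (nat_lit 4164) (nat_lit 493858305440582043680)) (.cons (.rf (nat_lit 4168) (nat_lit 493858305440582043680)) (.cons (.rf (nat_lit 4170) (nat_lit 493858305440582043680)) (.cons (.rf (nat_lit 4171) (nat_lit 493858305440582043680)) (.cons (.br (nat_lit 12) (nat_lit 1) (.cons (.rf (nat_lit 4164) (nat_lit 493858305440582043680)) (.cons (.rf (nat_lit 4168) (nat_lit 493858305440582043680)) (.cons (.rf (nat_lit 4170) (nat_lit 493858305440582043680)) (.cons (.rf (nat_lit 4171) (nat_lit 493858305440582043680)) .nil))))) .nil)))))) .nil)))))),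
 (.br (nat_lit 7) (nat_lit 1) (.cons (.ev (nat_lit 18519083142741033216) (nat_lit 1)) (.cons (.ev (nat_lit 79537647542604484330016211201) (nat_lit 1)) .nil))),
 (.br (nat_lit 12) (nat_lit 1) (.cons (.rf (nat_lit 2594) (nat_lit 8893373794)) (.cons (.rf (nat_lit 2594) (nat_lit 8899659106)) (.cons (.br (nat_lit 1) (nat_lit 1) (.cons (.ev (nat_lit 79538856449977637464264737025) (nat_lit 1)) (.cons (.rf (nat_lit 4173) (nat_lit 493858305440582043680)) (.cons (.rf (nat_lit 4173) (nat_lit 346284493588393986080)) .nil)))) .nil)))),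
 (.br (nat_lit 13) (nat_lit 1) (.cons (.ev (nat_lit 20282720297587311384744662466561) (nat_lit 1)) (.cons (.rf (nat_lit 2594) (nat_lit 8899691874)) (.cons (.br (nat_lit 1) (nat_lit 1) (.cons (.rf (nat_lit 29) (nat_lit 8751329)) (.cons (.br (nat_lit 7) (nat_lit 1) (.cons (.ev (nat_lit 40565129905961420913205112406530) (nat_lit 2)) (.cons (.br (nat_lit 9) (nat_lit 1) (.cons (.ev (nat_lit 79538856449905578770731892993) (nat_lit 1)) .nil)) .nil))) (.cons (.br (nat_lit 12) (nat_lit 1) (.cons (.rf (nat_lit 82) (nat_lit 14369926209)) (.cons (.ev (nat_lit 79537647542532427835506753793) (nat_lit 1)) .nil))) .nil)))) .nil)))),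
 (.br (nat_lit 8) (nat_lit 1) (.cons (.rf (nat_lit 58) (nat_lit 8751143)) (.cons (.rf (nat_lit 58) (nat_lit 8756289)) (.cons (.rf (nat_lit 4172) (nat_lit 493858305440582043680)) (.cons (.br (nat_lit 12) (nat_lit 1) (.cons (.rf (nat_lit 1339) (nat_lit 422224172066)) (.cons (.rf (nat_lit 1339) (nat_lit 422022845666)) (.cons (.rf (nat_lit 4174) (nat_lit 493858305440582043680)) (.cons (.br (nat_lit 12) (nat_lit 1) (.cons (.rf (nat_lit 2594) (nat_lit 9027591522)) (.cons (.rf (nat_lit 2594) (nat_lit 9033876834)) (.cons (.rf (nat_lit 4174) (nat_lit 493858305440582043680)) .nil)))) .nil))))) (.cons (.br (nat_lit 13) (nat_lit 1) (.cons (.rf (nat_lit 1339) (nat_lit 456583910434)) (.cons (.rf (nat_lit 1339) (nat_lit 456382584034)) (.cons (.rf (nat_lit 4175) (nat_lit 493858305440582043680)) (.cons (.br (nat_lit 13) (nat_lit 1) (.cons (.rf (nat_lit 2594) (nat_lit 8994069858)) (.cons (.ev (nat_lit 20282719088679938794568957296641) (nat_lit 1)) (.cons (.rf (nat_lit 4175) (nat_lit 493858305440582043680)) .nil))))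 .nil))))) .nil)))))),
 (.br (nat_lit 12) (nat_lit 1) (.cons (.ev (nat_lit 1208944338417400745558273) (nat_lit 1)) (.cons (.br (nat_lit 7) (nat_lit 1) (.cons (.rf (nat_lit 84) (nat_lit 9002392610)) (.cons (.rf (nat_lit 3398) (nat_lit 490435499492475242528)) .nil))) (.cons (.br (nat_lit 7) (nat_lit 1) (.cons (.ev (nat_lit 79228167255077847115698798848) (nat_lit 1)) (.cons (.ev (nat_lit 79538856449905578770731892993) (nat_lit 1)) (.cons (.ev (nat_lit 20361638975110201402818184609793) (nat_lit 1)) .nil)))) .nil)))),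
 (.br (nat_lit 12) (nat_lit 1) (.cons (.ev (nat_lit 1208944338417400745558273) (nat_lit 1)) (.cons (.ev (nat_lit 313125991273689770658627586) (nat_lit 2)) (.cons (.ev (nat_lit 20282720297587383441239205478401) (nat_lit 1)) .nil)))),
 (.br (nat_lit 7) (nat_lit 1) (.cons (.br (nat_lit 9) (nat_lit 1) (.cons (.rf (nat_lit 84) (nat_lit 9002392610)) (.cons (.rf (nat_lit 4178) (nat_lit 493858305440582043680)) .nil))) (.cons (.ev (nat_lit 1208944338417400745558273) (nat_lit 1)) (.cons (.rf (nat_lit 3398) (nat_lit 490435499492475242528)) .nil)))),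
 (.br (nat_lit 12) (nat_lit 1) (.cons (.ev (nat_lit 1208944338417400745558273) (nat_lit 1)) (.cons (.rf (nat_lit 4177) (nat_lit 493858305440582043680)) (.cons (.rf (nat_lit 4179) (nat_lit 493858305440582043680)) (.cons (.br (nat_lit 12) (nat_lit 1) (.cons (.ev (nat_lit 1208944338417400745558273) (nat_lit 1)) (.cons (.rf (nat_lit 4177) (nat_lit 493858305440582043680)) (.cons (.rf (nat_lit 4179) (nat_lit 493858305440582043680)) .nil)))) .nil))))),
 (.br (nat_lit 1) (nat_lit 1) (.cons (.rf (nat_lit 4180) (nat_lit 493858305440582043680)) (.cons (.br (nat_lit 9) (nat_lit 1) (.cons (.br (nat_lit 13) (nat_lit 1) (.cons (.rf (nat_lit 2185) (nat_lit 347474464236743328832)) (.cons (.ev (nat_lit 79537647542532427835506753793) (nat_lit 1)) .nil))) (.cons (.br (nat_lit 9) (nat_lit 1) (.cons (.rf (nat_lit 2185) (nat_lit 347474464236743328832)) .nil)) .nil))) (.cons (.ev (nat_lit 1208944338417400745558273) (nat_lit 1)) (.cons (.br (nat_lit 11) (nat_lit 1) (.cons (.br (nat_lit 9) (nat_lit 1) (.cons (.br (nat_lit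 12) (nat_lit 1) (.cons (.ev (nat_lit 21158573779566815976164883369216) (nat_lit 4)) .nil)) (.cons (.ev (nat_lit 310698676526526809797361920) (nat_lit 1)) .nil))) (.cons (.br (nat_lit 13) (nat_lit 1) (.cons (.rf (nat_lit 4178) (nat_lit 493858305440582043680)) (.cons (.ev (nat_lit 20361637766165934761545107046401) (nat_lit 1)) .nil))) (.cons (.rf (nat_lit 84) (nat_lit 9945820199)) .nil)))) .nil))))),
 (.br (nat_lit 9) (nat_lit 1) (.cons (.rf (nat_lit 4180) (nat_lit 493858305440582043680)) (.cons (.rf (nat_lit 4181) (nat_lit 493858305440582043680)) (.cons (.br (nat_lit 1) (nat_lit 1) (.cons (.br (nat_lit 12) (nat_lit 1) (.cons (.ev (nat_lit 79538856449905578770731892993) (nat_lit 1)) .nil)) (.cons (.ev (nat_lit 79538856468352322844441444608) (nat_lit 1)) (.cons (.br (nat_lit 7) (nat_lit 1) (.cons (.ev (nat_lit 79538856449905578770731892993) (nat_lit 1)) .nil)) .nil)))) .nil)))),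
 (.br (nat_lit 9) (nat_lit 1) (.cons (.rf (nat_lit 4180) (nat_lit 493858305440582043680)) (.cons (.rf (nat_lit 4181) (nat_lit 493858305440582043680)) (.cons (.rf (nat_lit 4182) (nat_lit 493858305440582043680)) (.cons (.br (nat_lit 9) (nat_lit 1) (.cons (.rf (nat_lit 4180) (nat_lit 493858305440582043680)) (.cons (.rf (nat_lit 4181) (nat_lit 493858305440582043680)) (.cons (.rf (nat_lit 4182) (nat_lit 493858305440582043680)) .nil)))) .nil))))),
 (.br (nat_lit 9) (nat_lit 1) (.cons (.rf (nat_lit 4180) (nat_lit 493858305440582043680)) (.cons (.rf (nat_lit 4181) (nat_lit 493858305440582043680)) (.cons (.rf (nat_lit 4183) (nat_lit 493858305440582043680)) (.cons (.br (nat_lit 9) (nat_lit 1) (.cons (.rf (nat_lit 4180) (nat_lit 493858305440582043680)) (.cons (.rf (nat_lit 4181) (nat_lit 493858305440582043680)) (.cons (.rf (nat_lit 4183) (nat_lit 493858305440582043680)) .nil)))) .nil))))),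
 (.br (nat_lit 8) (nat_lit 1) (.cons (.rf (nat_lit 4150) (nat_lit 493858305440582043680)) (.cons (.rf (nat_lit 4153) (nat_lit 493858305440582043680)) (.cons (.rf (nat_lit 4172) (nat_lit 493858305440582043680)) (.cons (.rf (nat_lit 4176) (nat_lit 493858305440582043680)) (.cons (.br (nat_lit 9) (nat_lit 1) (.cons (.rf (nat_lit 4180) (nat_lit 493858305440582043680)) (.cons (.rf (nat_lit 4181) (nat_lit 493858305440582043680)) (.cons (.rf (nat_lit 4183) (nat_lit 493858305440582043680)) (.cons (.rf (nat_lit 4184) (nat_lit 493858305440582043680)) (.cons (.br (nat_lit 9) (nat_lit 1) (.cons (.rf (nat_lit 4180) (nat_lit 493858305440582043680)) (.cons (.rf (nat_lit 4181) (nat_lit 493858305440582043680)) (.cons (.rf (nat_lit 4183) (nat_lit 493858305440582043680)) (.cons (.rf (nat_lit 4184) (nat_lit 493858305440582043680)) .nil))))) .nil)))))) .nil)))))),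
 (.br (nat_lit 8) (nat_lit 1) (.cons (.rf (nat_lit 4150) (nat_lit 493858305440582043680)) (.cons (.rf (nat_lit 4153) (nat_lit 493858305440582043680)) (.cons (.rf (nat_lit 4172) (nat_lit 493858305440582043680)) (.cons (.rf (nat_lit 4176) (nat_lit 493858305440582043680)) (.cons (.rf (nat_lit 4185) (nat_lit 493858305440582043680)) (.cons (.br (nat_lit 8) (nat_lit 1) (.cons (.ev (nat_lit 1208944266358707179290881) (nat_lit 1)) (.cons (.rf (nat_lit 4153) (nat_lit 493858305440582043680)) (.cons (.rf (nat_lit 4172) (nat_lit 493858305440582043680)) (.cons (.rf (nat_lit 4176) (nat_lit 493858305440582043680)) (.cons (.rf (nat_lit 4185) (nat_lit 493858305440582043680)) .nil)))))) .nil))))))),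
 (.br (nat_lit 11) (nat_lit 1) (.cons (.rf (nat_lit 31) (nat_lit 310746177)) (.cons (.rf (nat_lit 31) (nat_lit 411409473)) (.cons (.br (nat_lit 9) (nat_lit 1) (.cons (.br (nat_lit 9) (nat_lit 1) (.cons (.ev (nat_lit 309489750706629610429219073) (nat_lit 1)) .nil)) (.cons (.br (nat_lit 9) (nat_lit 1) (.cons (.ev (nat_lit 309489750706629610429219073) (nat_lit 1)) .nil)) .nil))) .nil)))),
 (.br (nat_lit 9) (nat_lit 1) (.cons (.rf (nat_lit 84) (nat_lit 14236757026)) (.cons (.br (nat_lit 11) (nat_lit 1) (.cons (.ev (nat_lit 309489732259885536719667456) (nat_lit 1)) (.cons (.br (nat_lit 12) (nat_lit 1) (.cons (.ev (nat_lit 21475481631551956169335312679168) (nat_lit 4)) .nil)) .nil))) (.cons (.ev (nat_lit 4740885566016681213953) (nat_lit 1)) .nil)))),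
 (.br (nat_lit 1) (nat_lit 1) (.cons (.rf (nat_lit 84) (nat_lit 14236757026)) (.cons (.br (nat_lit 9) (nat_lit 1) (.cons (.ev (nat_lit 1213666632841572529537024) (nat_lit 1)) (.cons (.ev (nat_lit 310698658007724042521411841) (nat_lit 1)) .nil))) (.cons (.rf (nat_lit 3845) (nat_lit 9439308836678890)) .nil)))),
 (.br (nat_lit 11) (nat_lit 1) (.cons (.ev (nat_lit 79229376162522774161395286016) (nat_lit 1)) .nil)),
 (.br (nat_lit 9) (nat_lit 1) (.cons (.rf (nat_lit 4188) (nat_lit 493858305440582043680)) (.cons (.ev (nat_lit 1213666632841572529537024) (nat_lit 1)) (.cons (.br (nat_lit 1) (nat_lit 1) (.cons (.rf (nat_lit 4190) (nat_lit 15433072045017106464)) (.cons (.ev (nat_lit 79228167236703159536498835713) (nat_lit 1)) (.cons (.br (nat_lit 11) (nat_lit 1) (.cons (.ev (nat_lit 79229376162450435092380713216) (nat_lit 1)) .nil)) .nil)))) .nil)))),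
 (.br (nat_lit 8) (nat_lit 1) (.cons (.br (nat_lit 11) (nat_lit 1) (.cons (.ev (nat_lit 79229376162450435096658903041) (nat_lit 1)) .nil)) .nil)),
 (.br (nat_lit 12) (nat_lit 1) (.cons (.ev (nat_lit 4722438821942971662336) (nat_lit 1)) (.cons (.rf (nat_lit 3412) (nat_lit 493786318214247090208)) (.cons (.br (nat_lit 11) (nat_lit 1) (.cons (.rf (nat_lit 84) (nat_lit 13163015233)) (.cons (.rf (nat_lit 3412) (nat_lit 493786318214247090208)) (.cons (.ev (nat_lit 20282719088661564109188814143488) (nat_lit 1)) .nil)))) .nil)))),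
 (.br (nat_lit 9) (nat_lit 1) (.cons (.rf (nat_lit 84) (nat_lit 13163015233)) (.cons (.br (nat_lit 2) (nat_lit 1) (.cons (.ev (nat_lit 1213666632841572529537024) (nat_lit 1)) (.cons (.br (nat_lit 12) (nat_lit 1) (.cons (.ev (nat_lit 21157326167972680274061808175360) (nat_lit 4)) .nil)) .nil))) (.cons (.ev (nat_lit 310698658007724042521411841) (nat_lit 1)) .nil)))),
 (.br (nat_lit 9) (nat_lit 1) (.cons (.ev (nat_lit 4722438821942971662336) (nat_lit 1)) (.cons (.rf (nat_lit 4194) (nat_lit 493858305440582043680)) (.cons (.br (nat_lit 2) (nat_lit 1) (.cons (.ev (nat_lit 309489750706629610429219073) (nat_lit 1)) (.cons (.ev (nat_lit 79228167255077847115698798848) (nat_lit 1)) (.cons (.ev (nat_lit 20282410812577490321150914330881) (nat_lit 1)) .nil)))) .nil)))),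
 (.br (nat_lit 8) (nat_lit 1) (.cons (.rf (nat_lit 4150) (nat_lit 493858305440582043680)) (.cons (.kr (nat_lit 72058693549555713) (nat_lit 18446744073726394368) (nat_lit 0) (nat_lit 1)) (.cons (.br (nat_lit 1) (nat_lit 1) (.cons (.rf (nat_lit 29) (nat_lit 8756289)) (.cons (.rf (nat_lit 1339) (nat_lit 322198411303)) (.cons (.br (nat_lit 2) (nat_lit 1) (.cons (.rf (nat_lit 84) (nat_lit 13195357409)) (.cons (.rf (nat_lit 82) (nat_lit 10074795233)) (.cons (.br (nat_lit 9) (nat_lit 1) (.cons (.rf (nat_lit 3820) (nat_lit 493786318042448403488)) (.cons (.br (nat_lit 9) (nat_lit 1) (.cons (.ev (nat_lit 309489732187829042176655616) (nat_lit 1)) .nil)) .nil))) .nil)))) (.cons (.rf (nat_lit 3823) (nat_lit 478871675953355808)) .nil))))) (.cons (.br (nat_lit 2) (nat_lit 1) (.cons (.rf (nat_lit 4187) (nat_lit 14242959524133701664)) (.cons (.br (nat_lit 9) (nat_lit 1) (.cons (.rf (nat_lit 2594) (nat_lit 10073943105)) (.cons (.rf (nat_lit 2594) (nat_lit 10073933154)) (.cons (.ev (nat_lit 4722438821942971662336)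 (nat_lit 1)) (.cons (.br (nat_lit 1) (nat_lit 1) (.cons (.ev (nat_lit 310698676454468116230963456) (nat_lit 1)) (.cons (.br (nat_lit 11) (nat_lit 1) (.cons (.rf (nat_lit 84) (nat_lit 9944935458)) (.cons (.ev (nat_lit 309489750706629610429219073) (nat_lit 1)) .nil))) (.cons (.br (nat_lit 11) (nat_lit 1) (.cons (.ev (nat_lit 309489750706629610429219073) (nat_lit 1)) (.cons (.rf (nat_lit 84) (nat_lit 8905632807)) .nil))) .nil)))) .nil))))) (.cons (.rf (nat_lit 4080) (nat_lit 15430822444193122336)) (.cons (.br (nat_lit 1) (nat_lit 1) (.cons (.br (nat_lit 9) (nat_lit 1) (.cons (.rf (nat_lit 84) (nat_lit 13163015202)) (.cons (.ev (nat_lit 4740885566016681213953) (nat_lit 1)) (.cons (.br (nat_lit 11) (nat_lit 1) (.cons (.rf (nat_lit 84) (nat_lit 9944935489)) (.cons (.ev (nat_lit 309489732259885536719667456) (nat_lit 1)) .nil))) .nil)))) (.cons (.rf (nat_lit 31) (nat_lit 411114849)) (.cons (.rf (nat_lit 2594) (nat_lit 13194505281)) (.cons (.br (nat_lit 11) (nat_lit 1) (.cons (.br (nat_lit 9) (nat_lit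 1) (.cons (.ev (nat_lit 310698658007724042521411841) (nat_lit 1)) (.cons (.ev (nat_lit 1213666632841572529537024) (nat_lit 1)) .nil))) (.cons (.rf (nat_lit 84) (nat_lit 14239902785)) (.cons (.rf (nat_lit 2001) (nat_lit 410296235241610272)) .nil)))) .nil))))) (.cons (.br (nat_lit 9) (nat_lit 1) (.cons (.rf (nat_lit 4188) (nat_lit 493858305440582043680)) (.cons (.rf (nat_lit 4189) (nat_lit 493858305440582043680)) (.cons (.rf (nat_lit 4191) (nat_lit 493858305440582043680)) (.cons (.br (nat_lit 9) (nat_lit 1) (.cons (.ev (nat_lit 4740885566016681213953) (nat_lit 1)) (.cons (.rf (nat_lit 4189) (nat_lit 493858305440582043680)) (.cons (.rf (nat_lit 4191) (nat_lit 493858305440582043680)) .nil)))) .nil))))) .nil)))))) (.cons (.br (nat_lit 1) (nat_lit 1) (.cons (.rf (nat_lit 4187) (nat_lit 15395881028740548640)) (.cons (.br (nat_lit 2) (nat_lit 1) (.cons (.rf (nat_lit 2594) (nat_lit 10107497537)) (.cons (.rf (nat_lit 31) (nat_lit 310418786)) (.cons (.br (nat_lit 9) (nat_lit 1) (.cons (.rf (nat_lit 84)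 (nat_lit 13163015202)) (.cons (.br (nat_lit 11) (nat_lit 1) (.cons (.ev (nat_lit 309489732259885536719667456) (nat_lit 1)) (.cons (.br (nat_lit 12) (nat_lit 1) (.cons (.ev (nat_lit 20838561443559683396946769412868) (nat_lit 3)) .nil)) .nil))) (.cons (.ev (nat_lit 4740885566016681213953) (nat_lit 1)) .nil)))) (.cons (.br (nat_lit 12) (nat_lit 1) (.cons (.ev (nat_lit 4740885566016681213953) (nat_lit 1)) (.cons (.br (nat_lit 12) (nat_lit 1) (.cons (.ev (nat_lit 4740885566016681213953) (nat_lit 1)) (.cons (.ev (nat_lit 20282720297605758128818372018176) (nat_lit 1)) .nil))) (.cons (.ev (nat_lit 20282410812577490321150914330881) (nat_lit 1)) .nil)))) .nil))))) (.cons (.br (nat_lit 2) (nat_lit 1) (.cons (.rf (nat_lit 31) (nat_lit 310451553)) (.cons (.br (nat_lit 9) (nat_lit 1) (.cons (.rf (nat_lit 4192) (nat_lit 15433072045018187808)) (.cons (.br (nat_lit 12) (nat_lit 1) (.cons (.rf (nat_lit 4192) (nat_lit 15433072045018187808)) (.cons (.ev (nat_lit 20282720297587311384744662466561) (nat_lit 1)) .nil)))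 .nil))) (.cons (.rf (nat_lit 31) (nat_lit 444669281)) .nil)))) (.cons (.br (nat_lit 9) (nat_lit 1) (.cons (.rf (nat_lit 4193) (nat_lit 493858305440582043680)) (.cons (.rf (nat_lit 4194) (nat_lit 493858305440582043680)) (.cons (.rf (nat_lit 4195) (nat_lit 493858305440582043680)) (.cons (.br (nat_lit 9) (nat_lit 1) (.cons (.rf (nat_lit 4193) (nat_lit 493858305440582043680)) (.cons (.ev (nat_lit 310698658007724042521411841) (nat_lit 1)) (.cons (.rf (nat_lit 4195) (nat_lit 493858305440582043680)) .nil)))) .nil))))) (.cons (.br (nat_lit 11) (nat_lit 1) (.cons (.rf (nat_lit 31) (nat_lit 444636514)) (.cons (.rf (nat_lit 4091) (nat_lit 467643826088992)) (.cons (.br (nat_lit 13) (nat_lit 1) (.cons (.rf (nat_lit 84) (nat_lit 13167200299)) (.cons (.br (nat_lit 12) (nat_lit 1) (.cons (.ev (nat_lit 20282720297587311384744662466561) (nat_lit 1)) (.cons (.br (nat_lit 2) (nat_lit 1) (.cons (.ev (nat_lit 79229376180969237859622977793) (nat_lit 1)) .nil)) .nil))) (.cons (.ev (nat_lit 20282410812595937065224623882496)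 (nat_lit 1)) .nil)))) (.cons (.rf (nat_lit 2594) (nat_lit 14268238177)) .nil))))) .nil)))))) .nil))))))]

theorem c145 : chkAll C T R L145 (nat_lit 4172) = true := by decide +kernel

theorem l145 : (nat_lit 4172) + L145.length = (nat_lit 4197) := by decide +kernel

/-- part of the certificates -/
def L146 : List Prf := [(.br (nat_lit 9) (nat_lit 1) (.cons (.ev (nat_lit 4722366765448428519424) (nat_lit 1)) (.cons (.rf (nat_lit 2594) (nat_lit 8993933671)) (.cons (.br (nat_lit 8) (nat_lit 1) (.cons (.ev (nat_lit 310698676454468116230963456) (nat_lit 1)) (.cons (.ev (nat_lit 1213666704900266095804416) (nat_lit 1)) (.cons (.br (nat_lit 2) (nat_lit 1) (.cons (.ev (nat_lit 310703398820672813729448706) (nat_lit 2)) (.cons (.rf (nat_lit 84) (nat_lit 10108349665)) .nil))) .nil)))) .nil)))),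
 (.br (nat_lit 9) (nat_lit 1) (.cons (.br (nat_lit 12) (nat_lit 1) (.cons (.ev (nat_lit 79537652246452166635737382913) (nat_lit 1)) .nil)) .nil)),
 (.br (nat_lit 1) (nat_lit 1) (.cons (.rf (nat_lit 29) (nat_lit 8756289)) (.cons (.rf (nat_lit 58) (nat_lit 8756258)) (.cons (.br (nat_lit 9) (nat_lit 1) (.cons (.rf (nat_lit 1343) (nat_lit 457727805479)) (.cons (.rf (nat_lit 1339) (nat_lit 322198411303)) (.cons (.rf (nat_lit 4197) (nat_lit 493858305440582043680)) (.cons (.br (nat_lit 9) (nat_lit 1) (.cons (.rf (nat_lit 82) (nat_lit 14236878887)) (.cons (.rf (nat_lit 2594) (nat_lit 9027488103)) (.cons (.rf (nat_lit 4197) (nat_lit 493858305440582043680)) .nil)))) .nil))))) (.cons (.br (nat_lit 8) (nat_lit 1) (.cons (.rf (nat_lit 58) (nat_lit 8756289)) (.cons (.rf (nat_lit 4196) (nat_lit 493858305440582043680)) (.cons (.rf (nat_lit 1339) (nat_lit 422056399911)) (.cons (.br (nat_lit 2) (nat_lit 1) (.cons (.br (nat_lit 9) (nat_lit 1) (.cons (.rf (nat_lit 4198) (nat_lit 493858305440582043680)) (.cons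 (.br (nat_lit 12) (nat_lit 1) (.cons (.rf (nat_lit 4198) (nat_lit 493858305440582043680)) (.cons (.ev (nat_lit 20282409603670189226718822138113) (nat_lit 1)) .nil))) .nil))) (.cons (.rf (nat_lit 82) (nat_lit 14369762529)) (.cons (.rf (nat_lit 84) (nat_lit 13329575137)) .nil)))) .nil))))) (.cons (.rf (nat_lit 3823) (nat_lit 478871675953355808)) .nil)))))),
 (.br (nat_lit 9) (nat_lit 1) (.cons (.rf (nat_lit 58) (nat_lit 9799719)) (.cons (.ev (nat_lit 4722366765448428519424) (nat_lit 1)) (.cons (.br (nat_lit 11) (nat_lit 1) (.cons (.ev (nat_lit 309489750634573115886207233) (nat_lit 1)) (.cons (.rf (nat_lit 84) (nat_lit 9035941927)) .nil))) .nil)))),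
 (.br (nat_lit 9) (nat_lit 1) (.cons (.ev (nat_lit 4722366765448428519424) (nat_lit 1)) (.cons (.ev (nat_lit 1213666704900266095804416) (nat_lit 1)) (.cons (.br (nat_lit 12) (nat_lit 1) (.cons (.ev (nat_lit 79228167255077847115698798848) (nat_lit 1)) (.cons (.ev (nat_lit 79229376162522493785913426176) (nat_lit 1)) (.cons (.br (nat_lit 2) (nat_lit 1) (.cons (.ev (nat_lit 80466112090948751765319058180) (nat_lit 3)) .nil)) .nil)))) .nil)))),
 (.br (nat_lit 9) (nat_lit 1) (.cons (.rf (nat_lit 4200) (nat_lit 493858305440582043680)) (.cons (.br (nat_lit 9) (nat_lit 1) (.cons (.rf (nat_lit 58) (nat_lit 9799719)) (.cons (.ev (nat_lit 1213666704900266095804416) (nat_lit 1)) (.cons (.zr (nat_lit 309485046714834328540413952) (nat_lit 9444805586283281776641) (nat_lit 5) (nat_lit 4)) .nil)))) (.cons (.rf (nat_lit 4201) (nat_lit 493858305440582043680)) (.cons (.br (nat_lit 9) (nat_lit 1) (.cons (.rf (nat_lit 4200) (nat_lit 493858305440582043680)) (.cons (.zr (nat_lit 309485046714834328540413952) (nat_lit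 9444805586283281776641) (nat_lit 5) (nat_lit 4)) (.cons (.rf (nat_lit 4201) (nat_lit 493858305440582043680)) .nil)))) .nil))))),
 (.br (nat_lit 9) (nat_lit 1) (.cons (.rf (nat_lit 58) (nat_lit 9799719)) (.cons (.br (nat_lit 1) (nat_lit 1) (.cons (.ev (nat_lit 310698676526526809797361920) (nat_lit 1)) (.cons (.br (nat_lit 12) (nat_lit 1) (.cons (.ev (nat_lit 21158573817198173886566728402176) (nat_lit 4)) .nil)) .nil))) (.cons (.ev (nat_lit 1213648258156192386252801) (nat_lit 1)) .nil)))),
 (.br (nat_lit 9) (nat_lit 1) (.cons (.ev (nat_lit 4722366765448428519424) (nat_lit 1)) (.cons (.rf (nat_lit 4203) (nat_lit 493858305440582043680)) (.cons (.br (nat_lit 1) (nat_lit 1) (.cons (.br (nat_lit 12) (nat_lit 1) (.cons (.ev (nat_lit 79537652246452166635737382913) (nat_lit 1)) .nil)) (.cons (.br (nat_lit 11) (nat_lit 1) (.cons (.ev (nat_lit 79537652246452166635737382913) (nat_lit 1)) .nil)) (.cons (.ev (nat_lit 20282410812595937065224623882496) (nat_lit 1)) .nil)))) .nil)))),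
 (.br (nat_lit 9) (nat_lit 1) (.cons (.rf (nat_lit 4200) (nat_lit 493858305440582043680)) (.cons (.rf (nat_lit 4203) (nat_lit 493858305440582043680)) (.cons (.rf (nat_lit 4204) (nat_lit 493858305440582043680)) (.cons (.br (nat_lit 9) (nat_lit 1) (.cons (.rf (nat_lit 4200) (nat_lit 493858305440582043680)) (.cons (.ev (nat_lit 1213648258156192386252801) (nat_lit 1)) (.cons (.rf (nat_lit 4204) (nat_lit 493858305440582043680)) .nil)))) .nil))))),
 (.br (nat_lit 9) (nat_lit 1) (.cons (.ev (nat_lit 1213666704900266095804416) (nat_lit 1)) (.cons (.rf (nat_lit 4205) (nat_lit 493858305440582043680)) (.cons (.br (nat_lit 1) (nat_lit 1) (.cons (.br (nat_lit 12) (nat_lit 1) (.cons (.ev (nat_lit 79538861190790864403324534785) (nat_lit 1)) .nil)) (.cons (.br (nat_lit 2) (nat_lit 1) (.cons (.ev (nat_lit 79538861190790864403324534785) (nat_lit 1)) .nil)) (.cons (.ev (nat_lit 20282410812595937065224623882496) (nat_lit 1)) .nil)))) .nil)))),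
 (.br (nat_lit 9) (nat_lit 1) (.cons (.rf (nat_lit 4202) (nat_lit 493858305440582043680)) (.cons (.rf (nat_lit 4205) (nat_lit 493858305440582043680)) (.cons (.rf (nat_lit 4206) (nat_lit 493858305440582043680)) (.cons (.br (nat_lit 9) (nat_lit 1) (.cons (.zr (nat_lit 309485046714834328540413952) (nat_lit 9444805586283281776641) (nat_lit 5) (nat_lit 4)) (.cons (.ev (nat_lit 1213648258156192386252801) (nat_lit 1)) (.cons (.rf (nat_lit 4206) (nat_lit 493858305440582043680)) .nil)))) .nil))))),
 (.br (nat_lit 9) (nat_lit 1) (.cons (.rf (nat_lit 4202) (nat_lit 493858305440582043680)) (.cons (.rf (nat_lit 4205) (nat_lit 493858305440582043680)) (.cons (.rf (nat_lit 4207) (nat_lit 493858305440582043680)) (.cons (.br (nat_lit 9) (nat_lit 1) (.cons (.rf (nat_lit 4202) (nat_lit 493858305440582043680)) (.cons (.rf (nat_lit 4205) (nat_lit 493858305440582043680)) (.cons (.rf (nat_lit 4207) (nat_lit 493858305440582043680)) .nil)))) .nil))))),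
 (.br (nat_lit 8) (nat_lit 1) (.cons (.rf (nat_lit 4150) (nat_lit 493858305440582043680)) (.cons (.rf (nat_lit 4186) (nat_lit 493858305440582043680)) (.cons (.rf (nat_lit 4196) (nat_lit 493858305440582043680)) (.cons (.rf (nat_lit 4199) (nat_lit 493858305440582043680)) (.cons (.br (nat_lit 9) (nat_lit 1) (.cons (.rf (nat_lit 4202) (nat_lit 493858305440582043680)) (.cons (.rf (nat_lit 4205) (nat_lit 493858305440582043680)) (.cons (.rf (nat_lit 4207) (nat_lit 493858305440582043680)) (.cons (.rf (nat_lit 4208) (nat_lit 493858305440582043680)) (.cons (.br (nat_lit 9) (nat_lit 1) (.cons (.rf (nat_lit 4202) (nat_lit 493858305440582043680)) (.cons (.rf (nat_lit 4205) (nat_lit 493858305440582043680)) (.cons (.rf (nat_lit 4207) (nat_lit 493858305440582043680)) (.cons (.rf (nat_lit 4208) (nat_lit 493858305440582043680)) .nil))))) .nil)))))) .nil)))))),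
 (.br (nat_lit 8) (nat_lit 1) (.cons (.rf (nat_lit 4150) (nat_lit 493858305440582043680)) (.cons (.rf (nat_lit 4186) (nat_lit 493858305440582043680)) (.cons (.rf (nat_lit 4196) (nat_lit 493858305440582043680)) (.cons (.rf (nat_lit 4199) (nat_lit 493858305440582043680)) (.cons (.rf (nat_lit 4209) (nat_lit 493858305440582043680)) (.cons (.br (nat_lit 8) (nat_lit 1) (.cons (.rf (nat_lit 4150) (nat_lit 493858305440582043680)) (.cons (.rf (nat_lit 4186) (nat_lit 493858305440582043680)) (.cons (.rf (nat_lit 4196) (nat_lit 493858305440582043680)) (.cons (.rf (nat_lit 4199) (nat_lit 493858305440582043680)) (.cons (.rf (nat_lit 4209) (nat_lit 493858305440582043680)) .nil)))))) .nil))))))),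
 (.br (nat_lit 6) (nat_lit 1) (.cons (.rf (nat_lit 3990) (nat_lit 11582504765064320)) .nil)),
 (.br (nat_lit 7) (nat_lit 1) (.cons (.ev (nat_lit 1208925819614633469739264) (nat_lit 1)) (.cons (.rf (nat_lit 4091) (nat_lit 467648121052192)) (.cons (.br (nat_lit 2) (nat_lit 1) (.cons (.br (nat_lit 9) (nat_lit 1) (.cons (.br (nat_lit 12) (nat_lit 1) (.cons (.zr (nat_lit 79847132533908435105927594241) (nat_lit 1218389287555939312861184) (nat_lit 10) (nat_lit 6)) .nil)) (.cons (.ev (nat_lit 20282410817318375604593107206145) (nat_lit 1)) .nil))) (.cons (.rf (nat_lit 3884) (nat_lit 493786318042448403488)) (.cons (.ev (nat_lit 309485028268090241946025984) (nat_lit 1)) .nil)))) (.cons (.rf (nat_lit 2594) (nat_lit 14272432353)) .nil))))),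
 (.br (nat_lit 1) (nat_lit 1) (.cons (.rf (nat_lit 31) (nat_lit 444836929)) (.cons (.br (nat_lit 2) (nat_lit 1) (.cons (.rf (nat_lit 84) (nat_lit 14236878887)) (.cons (.br (nat_lit 9) (nat_lit 1) (.cons (.br (nat_lit 12) (nat_lit 1) (.cons (.ev (nat_lit 20837323503446612166276939187968) (nat_lit 3)) .nil)) (.cons (.ev (nat_lit 309489732259885536719667456) (nat_lit 1)) .nil))) (.cons (.ev (nat_lit 309485028268090241946025984) (nat_lit 1)) .nil)))) (.cons (.br (nat_lit 2) (nat_lit 1) (.cons (.br (nat_lit 9) (nat_lit 1) (.cons (.br (nat_lit 12) (nat_lit 1) (.cons (.ev (nat_lit 21155469248653340890011047100680) (nat_lit 4)) .nil)) (.cons (.ev (nat_lit 20282719093383858533360597991681) (nat_lit 1)) .nil))) (.cons (.br (nat_lit 12) (nat_lit 1) (.cons (.br (nat_lit 9) (nat_lit 1) (.cons (.ev (nat_lit 159077717640624384480523584256) (nat_lit 2)) .nil)) (.cons (.ev (nat_lit 20361637766184453564312349310976) (nat_lit 1)) .nil))) (.cons (.ev (nat_lit 309485028268090241946025984) (nat_lit 1)) .nil))))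 (.cons (.rf (nat_lit 2594) (nat_lit 14272432353)) .nil))))),
 (.br (nat_lit 13) (nat_lit 1) (.cons (.rf (nat_lit 4212) (nat_lit 493858305440582043680)) (.cons (.ev (nat_lit 309485028268090241946025984) (nat_lit 1)) (.cons (.rf (nat_lit 4213) (nat_lit 493858305440582043680)) (.cons (.br (nat_lit 2) (nat_lit 1) (.cons (.ev (nat_lit 20282410812577490321150914330881) (nat_lit 1)) (.cons (.br (nat_lit 1) (nat_lit 1) (.cons (.ev (nat_lit 20282719093383930592054164390145) (nat_lit 1)) (.cons (.br (nat_lit 9) (nat_lit 1) (.cons (.ev (nat_lit 2422592596573593131811586) (nat_lit 2)) .nil)) .nil))) (.cons (.ev (nat_lit 20282410817318303548098564063233) (nat_lit 1)) (.cons (.zr (nat_lit 55340232221162405888) (nat_lit 40564820416229160745102460583937) (nat_lit 5) (nat_lit 0)) .nil))))) .nil))))),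
 (.br (nat_lit 8) (nat_lit 1) (.cons (.rf (nat_lit 4150) (nat_lit 493858305440582043680)) (.cons (.rf (nat_lit 4186) (nat_lit 493858305440582043680)) (.cons (.rf (nat_lit 4210) (nat_lit 493858305440582043680)) (.cons (.br (nat_lit 2) (nat_lit 1) (.cons (.br (nat_lit 7) (nat_lit 1) (.cons (.rf (nat_lit 31) (nat_lit 310619201)) (.cons (.rf (nat_lit 31) (nat_lit 411282497)) (.cons (.br (nat_lit 9) (nat_lit 1) (.cons (.br (nat_lit 13) (nat_lit 1) (.cons (.rf (nat_lit 4211) (nat_lit 15071359418927136)) (.cons (.ev (nat_lit 79537647542604484330016211201) (nat_lit 1)) .nil))) (.cons (.rf (nat_lit 4211) (nat_lit 15071359418927136)) .nil))) .nil)))) (.cons (.rf (nat_lit 2505) (nat_lit 15430822444193122336)) (.cons (.br (nat_lit 1) (nat_lit 1) (.cons (.kr (nat_lit 16842752) (nat_lit 72058693549555712) (nat_lit 2) (nat_lit 0)) (.cons (.rf (nat_lit 2594) (nat_lit 10078133313)) (.cons (.br (nat_lit 7) (nat_lit 1) (.cons (.rf (nat_lit 84) (nat_lit 13163142209)) (.cons (.rf (nat_lit 84) (nat_lit 9945062434))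 (.cons (.br (nat_lit 9) (nat_lit 1) (.cons (.ev (nat_lit 79537652246452166635737382913) (nat_lit 1)) (.cons (.br (nat_lit 12) (nat_lit 1) (.cons (.ev (nat_lit 21158568924826356907121216127232) (nat_lit 4)) .nil)) .nil))) .nil)))) (.cons (.br (nat_lit 7) (nat_lit 1) (.cons (.rf (nat_lit 84) (nat_lit 14236884033)) (.cons (.br (nat_lit 9) (nat_lit 1) (.cons (.ev (nat_lit 79229376180969237859622977793) (nat_lit 1)) (.cons (.br (nat_lit 12) (nat_lit 1) (.cons (.ev (nat_lit 80157831191987090851153248515) (nat_lit 2)) .nil)) .nil))) (.cons (.rf (nat_lit 2336) (nat_lit 478905766183536672)) .nil)))) .nil))))) (.cons (.ev (nat_lit 309485028268090241946025984) (nat_lit 1)) (.cons (.br (nat_lit 1) (nat_lit 1) (.cons (.ev (nat_lit 1208925819614633469739264) (nat_lit 1)) (.cons (.br (nat_lit 7) (nat_lit 1) (.cons (.ev (nat_lit 313116546756895705397264896) (nat_lit 2)) (.cons (.br (nat_lit 9) (nat_lit 1) (.cons (.ev (nat_lit 309489732259885536719667456) (nat_lit 1)) (.cons (.br (nat_lit 12) (nat_lit 1) (.cons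 (.ev (nat_lit 20837321085632009977412754801408) (nat_lit 3)) .nil)) .nil))) (.cons (.br (nat_lit 9) (nat_lit 1) (.cons (.br (nat_lit 12) (nat_lit 1) (.cons (.ev (nat_lit 20839175587283888790619862402816) (nat_lit 3)) .nil)) (.cons (.ev (nat_lit 309489732259885536719667456) (nat_lit 1)) .nil))) .nil)))) (.cons (.br (nat_lit 7) (nat_lit 1) (.cons (.br (nat_lit 9) (nat_lit 1) (.cons (.ev (nat_lit 1213666632841572529537024) (nat_lit 1)) (.cons (.br (nat_lit 12) (nat_lit 1) (.cons (.ev (nat_lit 317233086456258080505690590720) (nat_lit 4)) .nil)) .nil))) (.cons (.rf (nat_lit 84) (nat_lit 14240029730)) (.cons (.rf (nat_lit 3884) (nat_lit 458045751399636147232)) .nil)))) (.cons (.br (nat_lit 7) (nat_lit 1) (.cons (.rf (nat_lit 3845) (nat_lit 9439308836674922)) (.cons (.br (nat_lit 12) (nat_lit 1) (.cons (.br (nat_lit 9) (nat_lit 1) (.cons (.ev (nat_lit 20361952086990219995689647276032) (nat_lit 3)) .nil)) (.cons (.ev (nat_lit 20361637766184453564312349310976) (nat_lit 1)) .nil))) (.cons (.rf (nat_lit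 58) (nat_lit 13862955)) .nil)))) .nil))))) .nil)))))) (.cons (.br (nat_lit 13) (nat_lit 1) (.cons (.rf (nat_lit 4212) (nat_lit 493858305440582043680)) (.cons (.ev (nat_lit 309485028268090241946025984) (nat_lit 1)) (.cons (.rf (nat_lit 4213) (nat_lit 493858305440582043680)) (.cons (.rf (nat_lit 4214) (nat_lit 493858305440582043680)) (.cons (.br (nat_lit 13) (nat_lit 1) (.cons (.rf (nat_lit 4212) (nat_lit 493858305440582043680)) (.cons (.ev (nat_lit 309485028268090241946025984) (nat_lit 1)) (.cons (.rf (nat_lit 4213) (nat_lit 493858305440582043680)) (.cons (.rf (nat_lit 4214) (nat_lit 493858305440582043680)) .nil))))) .nil)))))) .nil)))))),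
 (.br (nat_lit 11) (nat_lit 1) (.cons (.zr (nat_lit 928469196779656597223768064) (nat_lit 1208962713385355393892353) (nat_lit 5) (nat_lit 10)) (.cons (.ev (nat_lit 79229376162522493785913426176) (nat_lit 1)) (.cons (.ev (nat_lit 20282410817299856804024854511616) (nat_lit 1)) .nil)))),
 (.br (nat_lit 7) (nat_lit 1) (.cons (.zr (nat_lit 928469196779656597223768064) (nat_lit 1208962713385355393892353) (nat_lit 5) (nat_lit 10)) (.cons (.ev (nat_lit 79538856449905578770731892993) (nat_lit 1)) (.cons (.ev (nat_lit 20282410817299856804024854511616) (nat_lit 1)) .nil)))),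
 (.br (nat_lit 11) (nat_lit 1) (.cons (.br (nat_lit 12) (nat_lit 1) (.cons (.ev (nat_lit 20363190050622603946173682352388) (nat_lit 3)) .nil)) (.cons (.br (nat_lit 7) (nat_lit 1) (.cons (.ev (nat_lit 20838559006744792946557315252998) (nat_lit 3)) .nil)) (.cons (.zr (nat_lit 60847228810955011271841787609088) (nat_lit 1208962713385355377115137) (nat_lit 5) (nat_lit 10)) .nil)))),
 (.br (nat_lit 2) (nat_lit 1) (.cons (.zr (nat_lit 928469196779656597223768064) (nat_lit 1208962713385355393892353) (nat_lit 5) (nat_lit 10)) (.cons (.rf (nat_lit 4218) (nat_lit 493858305440582043680)) (.cons (.br (nat_lit 7) (nat_lit 1) (.cons (.ev (nat_lit 20837321066816619248190004332288) (nat_lit 3)) .nil)) .nil)))),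
 (.br (nat_lit 9) (nat_lit 1) (.cons (.br (nat_lit 11) (nat_lit 1) (.cons (.rf (nat_lit 29) (nat_lit 9504103)) (.cons (.br (nat_lit 7) (nat_lit 1) (.cons (.ev (nat_lit 79229376180897179166090264833) (nat_lit 1)) (.cons (.zr (nat_lit 928469196779656597223768064) (nat_lit 1208962713385355393892353) (nat_lit 5) (nat_lit 10)) .nil))) (.cons (.rf (nat_lit 2061) (nat_lit 441811269868260423)) .nil)))) (.cons (.br (nat_lit 2) (nat_lit 1) (.cons (.rf (nat_lit 29) (nat_lit 9667938)) (.cons (.br (nat_lit 11) (nat_lit 1) (.cons (.rf (nat_lit 82) (nat_lit 9002392610)) (.cons (.br (nat_lit 12) (nat_lit 1) (.cons (.ev (nat_lit 79538856468424381537974288640) (nat_lit 1)) .nil)) .nil))) (.cons (.br (nat_lit 13) (nat_lit 1) (.cons (.ev (nat_lit 20282412026281232822553515524355) (nat_lit 2)) (.cons (.ev (nat_lit 20282410812577490321150914330881) (nat_lit 1)) .nil))) .nil)))) (.cons (.ev (nat_lit 310693954087985250880716801) (nat_lit 1)) (.cons (.br (nat_lit 13) (nat_lit 1) (.cons (.br (nat_lit 12) (nat_lit 1)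 (.cons (.br (nat_lit 11) (nat_lit 1) (.cons (.ev (nat_lit 79538856449905578770731892993) (nat_lit 1)) .nil)) (.cons (.br (nat_lit 7) (nat_lit 1) (.cons (.ev (nat_lit 79229376162522493785913426176) (nat_lit 1)) .nil)) (.cons (.ev (nat_lit 79229371458530696300740018176) (nat_lit 1)) .nil)))) (.cons (.rf (nat_lit 4216) (nat_lit 493858305440582043680)) (.cons (.rf (nat_lit 4217) (nat_lit 493858305440582043680)) (.cons (.br (nat_lit 13) (nat_lit 1) (.cons (.ev (nat_lit 79229371458530696300740018176) (nat_lit 1)) (.cons (.rf (nat_lit 4216) (nat_lit 493858305440582043680)) (.cons (.rf (nat_lit 4217) (nat_lit 493858305440582043680)) .nil)))) .nil))))) (.cons (.br (nat_lit 12) (nat_lit 1) (.cons (.rf (nat_lit 4218) (nat_lit 493858305440582043680)) (.cons (.br (nat_lit 2) (nat_lit 1) (.cons (.zr (nat_lit 928469196779656597223768064) (nat_lit 1208962713385355393892353) (nat_lit 5) (nat_lit 10)) (.cons (.rf (nat_lit 4218) (nat_lit 493858305440582043680)) (.cons (.br (nat_lit 11) (nat_lit 1) (.cons (.ev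 (nat_lit 20837321066816619248190004332288) (nat_lit 3)) .nil)) .nil)))) (.cons (.rf (nat_lit 4219) (nat_lit 493858305440582043680)) (.cons (.br (nat_lit 12) (nat_lit 1) (.cons (.rf (nat_lit 4218) (nat_lit 493858305440582043680)) (.cons (.kr (nat_lit 79228162514264337593543950592) (nat_lit 18446744073726328832) (nat_lit 1) (nat_lit 0)) (.cons (.rf (nat_lit 4219) (nat_lit 493858305440582043680)) .nil)))) .nil))))) .nil))))))]

theorem c146 : chkAll C T R L146 (nat_lit 4197) = true := by decide +kernel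

theorem l146 : (nat_lit 4197) + L146.length = (nat_lit 4221) := by decide +kernel

/-- part of the certificates -/
def L147 : List Prf := [(.br (nat_lit 1) (nat_lit 1) (.cons (.kr (nat_lit 16842752) (nat_lit 72058693549555712) (nat_lit 2) (nat_lit 0)) (.cons (.rf (nat_lit 4220) (nat_lit 493858305440582043680)) (.cons (.br (nat_lit 7) (nat_lit 1) (.cons (.ev (nat_lit 310693954160043944447115265) (nat_lit 1)) (.cons (.br (nat_lit 9) (nat_lit 1) (.cons (.ev (nat_lit 79229376180969237859622977793) (nat_lit 1)) (.cons (.zr (nat_lit 928469196779656597223768064) (nat_lit 1208962713385355393892353) (nat_lit 5) (nat_lit 10)) .nil))) (.cons (.br (nat_lit 9) (nat_lit 1) (.cons (.zr (nat_lit 928469196779656597223768064) (nat_lit 1208962713385355393892353) (nat_lit 5) (nat_lit 10)) (.cons (.ev (nat_lit 20282720302309749924113145659648) (nat_lit 1)) .nil))) .nil)))) (.cons (.br (nat_lit 9) (nat_lit 1) (.cons (.br (nat_lit 11) (nat_lit 1) (.cons (.ev (nat_lit 79540079579862247551984141058) (nat_lit 2)) (.cons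 (.br (nat_lit 12) (nat_lit 1) (.cons (.zr (nat_lit 928469196563483815126762240) (nat_lit 158457533954492687583121768449) (nat_lit 5) (nat_lit 4)) .nil)) .nil))) (.cons (.ev (nat_lit 310693954087985250880716801) (nat_lit 1)) (.cons (.br (nat_lit 11) (nat_lit 1) (.cons (.ev (nat_lit 310698676526526809797361920) (nat_lit 1)) (.cons (.zr (nat_lit 928469196563483815143735296) (nat_lit 1208962713388653911998465) (nat_lit 5) (nat_lit 10)) .nil))) (.cons (.br (nat_lit 11) (nat_lit 1) (.cons (.ev (nat_lit 1213648258156192386252801) (nat_lit 1)) (.cons (.zr (nat_lit 928469196563483815143735296) (nat_lit 1208962713388653911998465) (nat_lit 5) (nat_lit 10)) (.cons (.ev (nat_lit 20282410817318303548098564063233) (nat_lit 1)) .nil)))) .nil))))) (.cons (.br (nat_lit 11) (nat_lit 1) (.cons (.br (nat_lit 13) (nat_lit 1) (.cons (.ev (nat_lit 1213648258156192386252801) (nat_lit 1)) (.cons (.zr (nat_lit 60847228810955227446822890897408) (nat_lit 1208962713384255882264577) (nat_lit 5) (nat_lit 10)) .nil))) (.cons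 (.ev (nat_lit 310693954087985250880716801) (nat_lit 1)) (.cons (.br (nat_lit 13) (nat_lit 1) (.cons (.ev (nat_lit 20282410812595937065224623882496) (nat_lit 1)) (.cons (.zr (nat_lit 928469196563483815143735296) (nat_lit 1208962713388653911998465) (nat_lit 5) (nat_lit 10)) (.cons (.ev (nat_lit 20282720297587311384744662466561) (nat_lit 1)) .nil)))) (.cons (.rf (nat_lit 2061) (nat_lit 441670536372882791)) .nil))))) .nil)))))),
 (.br (nat_lit 2) (nat_lit 1) (.cons (.br (nat_lit 12) (nat_lit 1) (.cons (.zr (nat_lit 928469196563483815126762240) (nat_lit 158457533954492687583121768449) (nat_lit 5) (nat_lit 4)) .nil)) (.cons (.br (nat_lit 11) (nat_lit 1) (.cons (.zr (nat_lit 238612956739572669377855619840) (nat_lit 1209018053617576572878849) (nat_lit 5) (nat_lit 10)) .nil)) (.cons (.ev (nat_lit 20282410812577490321150914330881) (nat_lit 1)) .nil)))),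
 (.br (nat_lit 1) (nat_lit 1) (.cons (.br (nat_lit 12) (nat_lit 1) (.cons (.ev (nat_lit 79229376180969237859622977793) (nat_lit 1)) .nil)) (.cons (.rf (nat_lit 4222) (nat_lit 493858305440582043680)) (.cons (.br (nat_lit 11) (nat_lit 1) (.cons (.ev (nat_lit 79229376180969237859622977793) (nat_lit 1)) .nil)) .nil)))),
 (.br (nat_lit 9) (nat_lit 1) (.cons (.rf (nat_lit 4220) (nat_lit 493858305440582043680)) (.cons (.rf (nat_lit 4221) (nat_lit 493858305440582043680)) (.cons (.ev (nat_lit 310693954087985250880716801) (nat_lit 1)) (.cons (.br (nat_lit 1) (nat_lit 1) (.cons (.br (nat_lit 11) (nat_lit 1) (.cons (.ev (nat_lit 80159049599577559332919705858) (nat_lit 2)) (.cons (.br (nat_lit 12) (nat_lit 1) (.cons (.ev (nat_lit 475992799771832703632418078722) (nat_lit 3)) .nil)) .nil))) (.cons (.br (nat_lit 2) (nat_lit 1) (.cons (.rf (nat_lit 31) (nat_lit 412163425)) (.cons (.br (nat_lit 12) (nat_lit 1) (.cons (.ev (nat_lit 79229371458530696300740018176) (nat_lit 1)) .nil)) .nil))) (.cons (.ev (nat_lit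 79229371458602754994272731136) (nat_lit 1)) (.cons (.br (nat_lit 11) (nat_lit 1) (.cons (.ev (nat_lit 1213666632841572529537024) (nat_lit 1)) (.cons (.kr (nat_lit 79228167236630820463189164544) (nat_lit 36893488151730847744) (nat_lit 1) (nat_lit 0)) (.cons (.ev (nat_lit 20282410817299856804024854511616) (nat_lit 1)) .nil)))) .nil))))) (.cons (.br (nat_lit 12) (nat_lit 1) (.cons (.rf (nat_lit 4222) (nat_lit 493858305440582043680)) (.cons (.rf (nat_lit 4223) (nat_lit 493858305440582043680)) (.cons (.br (nat_lit 12) (nat_lit 1) (.cons (.rf (nat_lit 4222) (nat_lit 493858305440582043680)) (.cons (.rf (nat_lit 4223) (nat_lit 493858305440582043680)) (.cons (.ev (nat_lit 79538861190718805709791690753) (nat_lit 1)) .nil)))) (.cons (.br (nat_lit 2) (nat_lit 1) (.cons (.ev (nat_lit 20282410812577562377645457473793) (nat_lit 1)) (.cons (.zr (nat_lit 55340232221162405888) (nat_lit 40564820416229160745102460583937) (nat_lit 5) (nat_lit 0)) (.cons (.rf (nat_lit 4223) (nat_lit 493858305440582043680)) .nil))))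 .nil))))) .nil)))))),
 (.br (nat_lit 9) (nat_lit 1) (.cons (.rf (nat_lit 4220) (nat_lit 493858305440582043680)) (.cons (.rf (nat_lit 4221) (nat_lit 493858305440582043680)) (.cons (.rf (nat_lit 4224) (nat_lit 493858305440582043680)) (.cons (.ev (nat_lit 310693954087985250880716801) (nat_lit 1)) (.cons (.br (nat_lit 1) (nat_lit 1) (.cons (.br (nat_lit 12) (nat_lit 1) (.cons (.ev (nat_lit 1208944338417400745558273) (nat_lit 1)) (.cons (.br (nat_lit 7) (nat_lit 1) (.cons (.ev (nat_lit 317226999178287426360154588930) (nat_lit 3)) .nil)) (.cons (.ev (nat_lit 20282410812577490321150914330881) (nat_lit 1)) .nil)))) (.cons (.br (nat_lit 2) (nat_lit 1) (.cons (.zr (nat_lit 928469196779656597223768064) (nat_lit 1208962713385355393892353) (nat_lit 5) (nat_lit 10)) (.cons (.br (nat_lit 11) (nat_lit 1) (.cons (.zr (nat_lit 309485102127970754775482627) (nat_lit 316915086798162511119746334720) (nat_lit 10) (nat_lit 0)) .nil)) (.cons (.ev (nat_lit 1208925819614633469739264) (nat_lit 1)) .nil)))) (.cons (.kr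 (nat_lit 4722366482869645213952) (nat_lit 18446744078004518912) (nat_lit 1) (nat_lit 0)) (.cons (.br (nat_lit 2) (nat_lit 1) (.cons (.ev (nat_lit 1208944338417400745558273) (nat_lit 1)) (.cons (.ev (nat_lit 79538856468352322844441444608) (nat_lit 1)) (.cons (.ev (nat_lit 20282410812577490321150914330881) (nat_lit 1)) .nil)))) (.cons (.br (nat_lit 7) (nat_lit 1) (.cons (.ev (nat_lit 1208925819614633469739264) (nat_lit 1)) (.cons (.ev (nat_lit 20282721515957864528075965858561) (nat_lit 2)) (.cons (.kr (nat_lit 79228162514264337593543950592) (nat_lit 18446744073726328832) (nat_lit 1) (nat_lit 0)) .nil)))) .nil)))))) .nil)))))),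
 (.br (nat_lit 8) (nat_lit 1) (.cons (.rf (nat_lit 4150) (nat_lit 493858305440582043680)) (.cons (.rf (nat_lit 4186) (nat_lit 493858305440582043680)) (.cons (.rf (nat_lit 4210) (nat_lit 493858305440582043680)) (.cons (.rf (nat_lit 4215) (nat_lit 493858305440582043680)) (.cons (.br (nat_lit 9) (nat_lit 1) (.cons (.rf (nat_lit 4220) (nat_lit 493858305440582043680)) (.cons (.rf (nat_lit 4221) (nat_lit 493858305440582043680)) (.cons (.rf (nat_lit 4224) (nat_lit 493858305440582043680)) (.cons (.ev (nat_lit 310693954087985250880716801) (nat_lit 1)) (.cons (.rf (nat_lit 4225) (nat_lit 493858305440582043680)) (.cons (.br (nat_lit 9) (nat_lit 1) (.cons (.rf (nat_lit 4220) (nat_lit 493858305440582043680)) (.cons (.rf (nat_lit 4221) (nat_lit 493858305440582043680)) (.cons (.rf (nat_lit 4224) (nat_lit 493858305440582043680)) (.cons (.ev (nat_lit 310693954087985250880716801) (nat_lit 1)) (.cons (.rf (nat_lit 4225) (nat_lit 493858305440582043680)) .nil)))))) .nil))))))) .nil)))))),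
 (.br (nat_lit 8) (nat_lit 1) (.cons (.rf (nat_lit 4150) (nat_lit 493858305440582043680)) (.cons (.rf (nat_lit 4186) (nat_lit 493858305440582043680)) (.cons (.rf (nat_lit 4210) (nat_lit 493858305440582043680)) (.cons (.rf (nat_lit 4215) (nat_lit 493858305440582043680)) (.cons (.rf (nat_lit 4226) (nat_lit 493858305440582043680)) (.cons (.br (nat_lit 8) (nat_lit 1) (.cons (.rf (nat_lit 4150) (nat_lit 493858305440582043680)) (.cons (.rf (nat_lit 4186) (nat_lit 493858305440582043680)) (.cons (.rf (nat_lit 4210) (nat_lit 493858305440582043680)) (.cons (.rf (nat_lit 4215) (nat_lit 493858305440582043680)) (.cons (.rf (nat_lit 4226) (nat_lit 493858305440582043680)) .nil)))))) .nil))))))),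
 (.br (nat_lit 9) (nat_lit 1) (.cons (.ev (nat_lit 310698676454468116230963456) (nat_lit 1)) (.cons (.ev (nat_lit 4722366765448428519424) (nat_lit 1)) (.cons (.br (nat_lit 13) (nat_lit 1) (.cons (.rf (nat_lit 84) (nat_lit 9035810859)) (.cons (.zr (nat_lit 55340232221162405888) (nat_lit 40564820416229160745102460583937) (nat_lit 5) (nat_lit 0)) .nil))) .nil)))),
 (.br (nat_lit 2) (nat_lit 1) (.cons (.ev (nat_lit 310698676454468116230963456) (nat_lit 1)) (.cons (.rf (nat_lit 3723) (nat_lit 15069162537917472)) (.cons (.br (nat_lit 13) (nat_lit 1) (.cons (.ev (nat_lit 20283341694958810897673011528449) (nat_lit 2)) (.cons (.ev (nat_lit 20282410812577490321150914330881) (nat_lit 1)) .nil))) .nil)))),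
 (.br (nat_lit 9) (nat_lit 1) (.cons (.ev (nat_lit 4722366765448428519424) (nat_lit 1)) (.cons (.rf (nat_lit 4229) (nat_lit 493858305440582043680)) (.cons (.br (nat_lit 7) (nat_lit 1) (.cons (.br (nat_lit 12) (nat_lit 1) (.cons (.ev (nat_lit 79537647542604484330016211201) (nat_lit 1)) .nil)) (.cons (.br (nat_lit 2) (nat_lit 1) (.cons (.ev (nat_lit 20837321066816619248190004332288) (nat_lit 3)) .nil)) (.cons (.rf (nat_lit 4091) (nat_lit 291378536023402)) .nil)))) .nil)))),
 (.br (nat_lit 9) (nat_lit 1) (.cons (.rf (nat_lit 4228) (nat_lit 493858305440582043680)) (.cons (.rf (nat_lit 4229) (nat_lit 493858305440582043680)) (.cons (.rf (nat_lit 4230) (nat_lit 493858305440582043680)) (.cons (.br (nat_lit 9) (nat_lit 1) (.cons (.rf (nat_lit 4228) (nat_lit 493858305440582043680)) (.cons (.rf (nat_lit 4229) (nat_lit 493858305440582043680)) (.cons (.rf (nat_lit 4230) (nat_lit 493858305440582043680)) .nil)))) .nil))))),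
 (.br (nat_lit 1) (nat_lit 1) (.cons (.kr (nat_lit 16842752) (nat_lit 72058693549555712) (nat_lit 2) (nat_lit 0)) (.cons (.rf (nat_lit 4231) (nat_lit 493858305440582043680)) (.cons (.br (nat_lit 7) (nat_lit 1) (.cons (.br (nat_lit 9) (nat_lit 1) (.cons (.ev (nat_lit 310698676526526809797361920) (nat_lit 1)) (.cons (.br (nat_lit 12) (nat_lit 1) (.cons (.zr (nat_lit 928469196563483815126762240) (nat_lit 158457533954492687583121768449) (nat_lit 5) (nat_lit 4)) .nil)) .nil))) (.cons (.rf (nat_lit 84) (nat_lit 9945062434)) (.cons (.br (nat_lit 12) (nat_lit 1) (.cons (.br (nat_lit 9) (nat_lit 1) (.cons (.ev (nat_lit 4722438821942971662336) (nat_lit 1)) .nil)) (.cons (.ev (nat_lit 20520713061251144012788217872640) (nat_lit 2)) .nil))) .nil)))) (.cons (.br (nat_lit 7) (nat_lit 1) (.cons (.br (nat_lit 13) (nat_lit 1) (.cons (.ev (nat_lit 310698676526526809797361920) (nat_lit 1)) (.cons (.zr (nat_lit 55340232221196091392) (nat_lit 40564820416229304862489559695361) (nat_lit 5) (nat_lit 0)) .nil))) (.cons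 (.br (nat_lit 13) (nat_lit 1) (.cons (.zr (nat_lit 55340232221196091392) (nat_lit 40564820416229304862489559695361) (nat_lit 5) (nat_lit 0)) (.cons (.ev (nat_lit 20361947251194203132162518024448) (nat_lit 1)) .nil))) (.cons (.rf (nat_lit 84) (nat_lit 9946111010)) .nil)))) .nil))))),
 (.br (nat_lit 9) (nat_lit 1) (.cons (.rf (nat_lit 4231) (nat_lit 493858305440582043680)) (.cons (.rf (nat_lit 4232) (nat_lit 493858305440582043680)) (.cons (.br (nat_lit 1) (nat_lit 1) (.cons (.ev (nat_lit 620193112778209831724122370) (nat_lit 2)) (.cons (.br (nat_lit 2) (nat_lit 1) (.cons (.ev (nat_lit 79538861190790864403324534785) (nat_lit 1)) .nil)) (.cons (.rf (nat_lit 4091) (nat_lit 291372093578602)) .nil)))) .nil)))),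
 (.br (nat_lit 9) (nat_lit 1) (.cons (.rf (nat_lit 4231) (nat_lit 493858305440582043680)) (.cons (.rf (nat_lit 4232) (nat_lit 493858305440582043680)) (.cons (.rf (nat_lit 4233) (nat_lit 493858305440582043680)) (.cons (.br (nat_lit 9) (nat_lit 1) (.cons (.rf (nat_lit 4231) (nat_lit 493858305440582043680)) (.cons (.rf (nat_lit 4232) (nat_lit 493858305440582043680)) (.cons (.rf (nat_lit 4233) (nat_lit 493858305440582043680)) .nil)))) .nil))))),
 (.br (nat_lit 9) (nat_lit 1) (.cons (.rf (nat_lit 4231) (nat_lit 493858305440582043680)) (.cons (.rf (nat_lit 4232) (nat_lit 493858305440582043680)) (.cons (.rf (nat_lit 4234) (nat_lit 493858305440582043680)) (.cons (.br (nat_lit 9) (nat_lit 1) (.cons (.rf (nat_lit 4231) (nat_lit 493858305440582043680)) (.cons (.rf (nat_lit 4232) (nat_lit 493858305440582043680)) (.cons (.rf (nat_lit 4234) (nat_lit 493858305440582043680)) .nil)))) .nil))))),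
 (.br (nat_lit 8) (nat_lit 1) (.cons (.rf (nat_lit 4150) (nat_lit 493858305440582043680)) (.cons (.rf (nat_lit 4186) (nat_lit 493858305440582043680)) (.cons (.rf (nat_lit 4210) (nat_lit 493858305440582043680)) (.cons (.rf (nat_lit 4227) (nat_lit 493858305440582043680)) (.cons (.br (nat_lit 9) (nat_lit 1) (.cons (.rf (nat_lit 4231) (nat_lit 493858305440582043680)) (.cons (.rf (nat_lit 4232) (nat_lit 493858305440582043680)) (.cons (.rf (nat_lit 4234) (nat_lit 493858305440582043680)) (.cons (.rf (nat_lit 4235) (nat_lit 493858305440582043680)) (.cons (.br (nat_lit 9) (nat_lit 1) (.cons (.rf (nat_lit 4231) (nat_lit 493858305440582043680)) (.cons (.rf (nat_lit 4232) (nat_lit 493858305440582043680)) (.cons (.rf (nat_lit 4234) (nat_lit 493858305440582043680)) (.cons (.rf (nat_lit 4235) (nat_lit 493858305440582043680)) .nil))))) .nil)))))) .nil)))))),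
 (.br (nat_lit 8) (nat_lit 1) (.cons (.rf (nat_lit 4150) (nat_lit 493858305440582043680)) (.cons (.rf (nat_lit 4186) (nat_lit 493858305440582043680)) (.cons (.rf (nat_lit 4210) (nat_lit 493858305440582043680)) (.cons (.rf (nat_lit 4227) (nat_lit 493858305440582043680)) (.cons (.rf (nat_lit 4236) (nat_lit 493858305440582043680)) (.cons (.br (nat_lit 8) (nat_lit 1) (.cons (.rf (nat_lit 4150) (nat_lit 493858305440582043680)) (.cons (.rf (nat_lit 4186) (nat_lit 493858305440582043680)) (.cons (.rf (nat_lit 4210) (nat_lit 493858305440582043680)) (.cons (.rf (nat_lit 4227) (nat_lit 493858305440582043680)) (.cons (.rf (nat_lit 4236) (nat_lit 493858305440582043680)) .nil)))))) .nil))))))),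
 (.br (nat_lit 8) (nat_lit 1) (.cons (.rf (nat_lit 4150) (nat_lit 493858305440582043680)) (.cons (.rf (nat_lit 4186) (nat_lit 493858305440582043680)) (.cons (.rf (nat_lit 4210) (nat_lit 493858305440582043680)) (.cons (.rf (nat_lit 4227) (nat_lit 493858305440582043680)) (.cons (.rf (nat_lit 4237) (nat_lit 493858305440582043680)) (.cons (.br (nat_lit 8) (nat_lit 1) (.cons (.rf (nat_lit 4150) (nat_lit 493858305440582043680)) (.cons (.rf (nat_lit 4186) (nat_lit 493858305440582043680)) (.cons (.rf (nat_lit 4210) (nat_lit 493858305440582043680)) (.cons (.rf (nat_lit 4227) (nat_lit 493858305440582043680)) (.cons (.rf (nat_lit 4237) (nat_lit 493858305440582043680)) .nil)))))) .nil))))))),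
 (.br (nat_lit 11) (nat_lit 0) (.cons (.br (nat_lit 10) (nat_lit 1) (.cons (.br (nat_lit 8) (nat_lit 1) (.cons (.rf (nat_lit 4150) (nat_lit 493858305440582043680)) (.cons (.rf (nat_lit 4186) (nat_lit 493858305440582043680)) (.cons (.rf (nat_lit 4210) (nat_lit 493858305440582043680)) (.cons (.rf (nat_lit 4227) (nat_lit 493858305440582043680)) (.cons (.rf (nat_lit 4237) (nat_lit 493858305440582043680)) (.cons (.rf (nat_lit 4238) (nat_lit 493858305440582043680)) (.cons (.br (nat_lit 8) (nat_lit 1) (.cons (.rf (nat_lit 4150) (nat_lit 493858305440582043680)) (.cons (.rf (nat_lit 4186) (nat_lit 493858305440582043680)) (.cons (.rf (nat_lit 4210) (nat_lit 493858305440582043680)) (.cons (.rf (nat_lit 4227) (nat_lit 493858305440582043680)) (.cons (.rf (nat_lit 4237) (nat_lit 493858305440582043680)) (.cons (.rf (nat_lit 4238) (nat_lit 493858305440582043680)) .nil))))))) .nil)))))))) .nil)) .nil)),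
 (.br (nat_lit 6) (nat_lit 1) (.cons (.br (nat_lit 11) (nat_lit 0) (.cons (.rf (nat_lit 4239) (nat_lit 14242959524133701664)) (.cons (.br (nat_lit 11) (nat_lit 0) (.cons (.rf (nat_lit 4239) (nat_lit 14242959524133701664)) .nil)) .nil))) .nil)),
 (.br (nat_lit 10) (nat_lit 1) (.cons (.br (nat_lit 10) (nat_lit 1) .nil) .nil)),
 (.br (nat_lit 6) (nat_lit 1) (.cons (.rf (nat_lit 4240) (nat_lit 407901468851537952)) (.cons (.br (nat_lit 6) (nat_lit 1) (.cons (.rf (nat_lit 4240) (nat_lit 443930265870501920)) (.cons (.rf (nat_lit 4241) (nat_lit 14242959524133701664)) .nil))) .nil))),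
 (.br (nat_lit 7) (nat_lit 0) (.cons (.rf (nat_lit 4114) (nat_lit 395898411746528)) .nil))]

theorem c147 : chkAll C T R L147 (nat_lit 4221) = true := by decide +kernel

theorem l147 : (nat_lit 4221) + L147.length = (nat_lit 4244) := by decide +kernel

/-- part of the certificates -/
def L148 : List Prf := [(.br (nat_lit 10) (nat_lit 1) (.cons (.rf (nat_lit 4242) (nat_lit 11584701642934304)) (.cons (.br (nat_lit 10) (nat_lit 1) (.cons (.rf (nat_lit 4242) (nat_lit 11584701642934304)) (.cons (.br (nat_lit 11) (nat_lit 0) (.cons (.rf (nat_lit 4243) (nat_lit 493858305440582043680)) (.cons (.br (nat_lit 11) (nat_lit 0) (.cons (.rf (nat_lit 4243) (nat_lit 493858305440582043680)) .nil)) .nil))) .nil))) .nil))),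
 (.br (nat_lit 2) (nat_lit 0) (.cons (.rf (nat_lit 2406) (nat_lit 9043158664256)) (.cons (.rf (nat_lit 2406) (nat_lit 9041013277760)) (.cons (.br (nat_lit 10) (nat_lit 1) (.cons (.rf (nat_lit 4242) (nat_lit 11584701642934304)) (.cons (.rf (nat_lit 4244) (nat_lit 407901468851537952)) (.cons (.br (nat_lit 10) (nat_lit 1) (.cons (.rf (nat_lit 4242) (nat_lit 11584701642934304)) (.cons (.rf (nat_lit 4244) (nat_lit 443930265870501920)) (.cons (.br (nat_lit 10) (nat_lit 1) (.cons (.rf (nat_lit 4242) (nat_lit 11584701642934304)) (.cons (.rf (nat_lit 4244) (nat_lit 479959062889465888)) .nil))) .nil)))) .nil)))) .nil)))),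
 (.br (nat_lit 9) (nat_lit 1) (.cons (.br (nat_lit 9) (nat_lit 1) (.cons (.rf (nat_lit 82) (nat_lit 11048159271)) (.cons (.rf (nat_lit 1322) (nat_lit 407901468819031104)) .nil))) (.cons (.rf (nat_lit 82) (nat_lit 11048159271)) (.cons (.rf (nat_lit 1322) (nat_lit 407901468819031104)) .nil)))),
 (.br (nat_lit 8) (nat_lit 1) (.cons (.kr (nat_lit 1) (nat_lit 18446744073709551616) (nat_lit 0) (nat_lit 1)) (.cons (.ev (nat_lit 18446745173238022144) (nat_lit 1)) (.cons (.br (nat_lit 9) (nat_lit 1) (.cons (.rf (nat_lit 4246) (nat_lit 11584701642934304)) (.cons (.br (nat_lit 9) (nat_lit 1) (.cons (.rf (nat_lit 4246) (nat_lit 11584701642934304)) (.cons (.rf (nat_lit 1330) (nat_lit 12712830636855335)) (.cons (.rf (nat_lit 1322) (nat_lit 407901468819031104)) .nil)))) (.cons (.rf (nat_lit 1330) (nat_lit 12712830636855335)) (.cons (.rf (nat_lit 1322) (nat_lit 407901468819031104)) .nil))))) (.cons (.rf (nat_lit 58) (nat_lit 8751143)) (.cons (.rf (nat_lit 1322) (nat_lit 407901468819031104)) .nil)))))),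
 (.br (nat_lit 8) (nat_lit 1) (.cons (.ev (nat_lit 18446745173238022144) (nat_lit 1)) (.cons (.rf (nat_lit 4247) (nat_lit 10493813268290592)) (.cons (.br (nat_lit 2) (nat_lit 1) (.cons (.ev (nat_lit 72057598349738241) (nat_lit 1)) (.cons (.br (nat_lit 10) (nat_lit 1) (.cons (.ev (nat_lit 18518801672059289856) (nat_lit 1)) (.cons (.rf (nat_lit 1518) (nat_lit 11584701608395840)) (.cons (.rf (nat_lit 1330) (nat_lit 12746920900594722)) (.cons (.rf (nat_lit 1322) (nat_lit 407901468819031104)) .nil))))) (.cons (.br (nat_lit 7) (nat_lit 1) (.cons (.ev (nat_lit 18518801672059289856) (nat_lit 1)) (.cons (.zr (nat_lit 217018306555609605) (nat_lit 7253573364431870249402368) (nat_lit 10) (nat_lit 0)) (.cons (.rf (nat_lit 31) (nat_lit 343999847)) (.cons (.rf (nat_lit 1322) (nat_lit 407901468819031104)) .nil))))) (.cons (.rf (nat_lit 1330) (nat_lit 12746920900594722)) (.cons (.rf (nat_lit 1322) (nat_lit 407901468819031104)) .nil)))))) (.cons (.rf (nat_lit 1330) (nat_lit 12746920900594722)) (.cons (.rf (nat_lit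 1322) (nat_lit 407901468819031104)) .nil)))))),
 (.br (nat_lit 8) (nat_lit 1) (.cons (.rf (nat_lit 4247) (nat_lit 11584701642934304)) (.cons (.rf (nat_lit 4247) (nat_lit 10493813268290592)) (.cons (.rf (nat_lit 4248) (nat_lit 11584701642934304)) (.cons (.rf (nat_lit 4248) (nat_lit 10493813268290592)) (.cons (.rf (nat_lit 1332) (nat_lit 12746920900594722)) (.cons (.rf (nat_lit 1322) (nat_lit 407901468819031104)) .nil))))))),
 (.br (nat_lit 8) (nat_lit 1) (.cons (.br (nat_lit 10) (nat_lit 1) (.cons (.ev (nat_lit 4722438821938659852544) (nat_lit 1)) (.cons (.rf (nat_lit 84) (nat_lit 11047836747)) (.cons (.rf (nat_lit 1322) (nat_lit 407901468819031104)) .nil)))) (.cons (.rf (nat_lit 1323) (nat_lit 11584701610427456)) (.cons (.rf (nat_lit 58) (nat_lit 8756289)) (.cons (.rf (nat_lit 1322) (nat_lit 407901468819031104)) .nil))))),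
 (.br (nat_lit 1) (nat_lit 1) (.cons (.kr (nat_lit 1) (nat_lit 18446744073709551616) (nat_lit 0) (nat_lit 1)) (.cons (.rf (nat_lit 4250) (nat_lit 11584701642934304)) (.cons (.rf (nat_lit 4250) (nat_lit 10493813268290592)) (.cons (.rf (nat_lit 29) (nat_lit 8620385)) (.cons (.rf (nat_lit 1322) (nat_lit 407901468819031104)) .nil)))))),
 (.br (nat_lit 7) (nat_lit 1) (.cons (.ev (nat_lit 4722438540463699984384) (nat_lit 1)) (.cons (.rf (nat_lit 1326) (nat_lit 11584701610427456)) (.cons (.rf (nat_lit 31) (nat_lit 310413671)) (.cons (.rf (nat_lit 1322) (nat_lit 407901468819031104)) .nil))))),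
 (.br (nat_lit 1) (nat_lit 1) (.cons (.ev (nat_lit 4722438540463699984384) (nat_lit 1)) (.cons (.rf (nat_lit 1328) (nat_lit 11584701610427456)) (.cons (.rf (nat_lit 31) (nat_lit 310610273)) (.cons (.rf (nat_lit 1322) (nat_lit 407901468819031104)) .nil))))),
 (.br (nat_lit 8) (nat_lit 1) (.cons (.ev (nat_lit 18446745173238022144) (nat_lit 1)) (.cons (.rf (nat_lit 4251) (nat_lit 11584701642934304)) (.cons (.br (nat_lit 9) (nat_lit 1) (.cons (.rf (nat_lit 4252) (nat_lit 11584701642934304)) (.cons (.rf (nat_lit 4253) (nat_lit 11584701642934304)) (.cons (.br (nat_lit 9) (nat_lit 1) (.cons (.rf (nat_lit 4252) (nat_lit 11584701642934304)) (.cons (.rf (nat_lit 4253) (nat_lit 11584701642934304)) (.cons (.rf (nat_lit 1330) (nat_lit 12746920900594722)) (.cons (.rf (nat_lit 1322) (nat_lit 407901468819031104)) .nil))))) (.cons (.rf (nat_lit 1330) (nat_lit 12746920900594722)) (.cons (.rf (nat_lit 1322) (nat_lit 407901468819031104)) .nil)))))) (.cons (.rf (nat_lit 1330) (nat_lit 12746920900594722)) (.cons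 (.rf (nat_lit 1322) (nat_lit 407901468819031104)) .nil)))))),
 (.br (nat_lit 8) (nat_lit 1) (.cons (.rf (nat_lit 4249) (nat_lit 11584701642934304)) (.cons (.rf (nat_lit 4251) (nat_lit 11584701642934304)) (.cons (.rf (nat_lit 4254) (nat_lit 11584701642934304)) (.cons (.br (nat_lit 8) (nat_lit 1) (.cons (.rf (nat_lit 4249) (nat_lit 11584701642934304)) (.cons (.rf (nat_lit 4251) (nat_lit 11584701642934304)) (.cons (.rf (nat_lit 4254) (nat_lit 11584701642934304)) (.cons (.rf (nat_lit 1330) (nat_lit 12712830636855335)) (.cons (.rf (nat_lit 1322) (nat_lit 407901468819031104)) .nil)))))) (.cons (.rf (nat_lit 1332) (nat_lit 12746920900594722)) (.cons (.rf (nat_lit 1322) (nat_lit 407901468819031104)) .nil))))))),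
 (.br (nat_lit 8) (nat_lit 1) (.cons (.rf (nat_lit 4249) (nat_lit 11584701642934304)) (.cons (.rf (nat_lit 4255) (nat_lit 11584701642934304)) (.cons (.rf (nat_lit 4255) (nat_lit 10493813268290592)) (.cons (.br (nat_lit 8) (nat_lit 1) (.cons (.rf (nat_lit 4249) (nat_lit 11584701642934304)) (.cons (.rf (nat_lit 4255) (nat_lit 11584701642934304)) (.cons (.rf (nat_lit 4255) (nat_lit 10493813268290592)) (.cons (.rf (nat_lit 1330) (nat_lit 12746920900594722)) (.cons (.rf (nat_lit 1322) (nat_lit 407901468819031104)) .nil)))))) (.cons (.rf (nat_lit 1330) (nat_lit 12746920900594722)) (.cons (.rf (nat_lit 1322) (nat_lit 407901468819031104)) .nil))))))),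
 (.br (nat_lit 10) (nat_lit 0) (.cons (.br (nat_lit 10) (nat_lit 0) .nil) .nil)),
 (.br (nat_lit 11) (nat_lit 0) (.cons (.br (nat_lit 11) (nat_lit 0) .nil) .nil)),
 (.br (nat_lit 11) (nat_lit 0) (.cons (.br (nat_lit 10) (nat_lit 1) (.cons (.rf (nat_lit 4114) (nat_lit 48452737375594)) .nil)) .nil)),
 (.br (nat_lit 11) (nat_lit 0) (.cons (.rf (nat_lit 4259) (nat_lit 407901468851537952)) (.cons (.br (nat_lit 11) (nat_lit 0) (.cons (.rf (nat_lit 4259) (nat_lit 407901468851537952)) .nil)) .nil))),
 (.br (nat_lit 2) (nat_lit 0) (.cons (.br (nat_lit 7) (nat_lit 0) (.cons (.br (nat_lit 6) (nat_lit 1) (.cons (.rf (nat_lit 4114) (nat_lit 360714106706976)) (.cons (.br (nat_lit 8) (nat_lit 1) (.cons (.rf (nat_lit 4249) (nat_lit 11584701642934304)) (.cons (.rf (nat_lit 4255) (nat_lit 11584701642934304)) (.cons (.rf (nat_lit 4255) (nat_lit 10493813268290592)) (.cons (.rf (nat_lit 4256) (nat_lit 11584701642934304)) (.cons (.rf (nat_lit 4256) (nat_lit 10493813268290592)) (.cons (.rf (nat_lit 1332) (nat_lit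 12746920900594722)) (.cons (.rf (nat_lit 1322) (nat_lit 407901468819031104)) .nil)))))))) .nil))) (.cons (.br (nat_lit 10) (nat_lit 1) (.cons (.rf (nat_lit 4257) (nat_lit 12746920866973728)) (.cons (.br (nat_lit 10) (nat_lit 1) (.cons (.rf (nat_lit 4257) (nat_lit 13872820773816352)) (.cons (.br (nat_lit 10) (nat_lit 1) (.cons (.rf (nat_lit 4257) (nat_lit 14998720680658976)) .nil)) .nil))) .nil))) .nil))) (.cons (.rf (nat_lit 2406) (nat_lit 9039972074560)) (.cons (.br (nat_lit 7) (nat_lit 0) (.cons (.rf (nat_lit 4245) (nat_lit 325702574508064)) (.cons (.br (nat_lit 6) (nat_lit 1) (.cons (.rf (nat_lit 4114) (nat_lit 395898478795808)) (.cons (.br (nat_lit 10) (nat_lit 1) (.cons (.rf (nat_lit 4258) (nat_lit 445092485129177120)) (.cons (.br (nat_lit 10) (nat_lit 1) (.cons (.rf (nat_lit 4258) (nat_lit 481121282148141088)) .nil)) .nil))) .nil))) (.cons (.br (nat_lit 6) (nat_lit 1) (.cons (.rf (nat_lit 4260) (nat_lit 407901468851537952)) (.cons (.br (nat_lit 6) (nat_lit 1) (.cons (.rf (nat_lit 4260)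 (nat_lit 443930265870501920)) (.cons (.rf (nat_lit 4241) (nat_lit 14242959524133701664)) .nil))) .nil))) .nil)))) .nil)))),
 (.br (nat_lit 9) (nat_lit 1) (.cons (.kr (nat_lit 20282409608374108964410934427904) (nat_lit 79537647542532426735978348544) (nat_lit 1) (nat_lit 0)) .nil)),
 (.br (nat_lit 8) (nat_lit 1) (.cons (.br (nat_lit 9) (nat_lit 1) (.cons (.br (nat_lit 11) (nat_lit 1) (.cons (.kr (nat_lit 20282719088661563826618603929856) (nat_lit 79228167255077564536932335616) (nat_lit 1) (nat_lit 0)) .nil)) (.cons (.ev (nat_lit 79229376199560096021913731586) (nat_lit 2)) .nil))) (.cons (.br (nat_lit 11) (nat_lit 1) (.cons (.rf (nat_lit 4262) (nat_lit 493858305440582043680)) (.cons (.ev (nat_lit 79538856487014958225271489026) (nat_lit 2)) .nil))) (.cons (.rf (nat_lit 29) (nat_lit 8789057)) .nil)))),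
 (.br (nat_lit 9) (nat_lit 1) (.cons (.kr (nat_lit 20282409608374108964410934427904) (nat_lit 79537647542532426735978348544) (nat_lit 1) (nat_lit 0)) .nil)),
 (.br (nat_lit 8) (nat_lit 1) (.cons (.rf (nat_lit 4263) (nat_lit 493858305440582043680)) (.cons (.br (nat_lit 7) (nat_lit 1) (.cons (.br (nat_lit 11) (nat_lit 1) (.cons (.zr (nat_lit 237684501709892461389601243136) (nat_lit 1208962713385368262017025) (nat_lit 5) (nat_lit 10)) .nil)) (.cons (.rf (nat_lit 4264) (nat_lit 493858305440582043680)) (.cons (.kr (nat_lit 20282409603651742481545584181504) (nat_lit 79228162532711081667270344704) (nat_lit 1) (nat_lit 0)) .nil)))) (.cons (.rf (nat_lit 1771) (nat_lit 10858539587495659552)) .nil)))),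
 (.br (nat_lit 8) (nat_lit 1) (.cons (.rf (nat_lit 4263) (nat_lit 493858305440582043680)) (.cons (.rf (nat_lit 4265) (nat_lit 493858305440582043680)) (.cons (.br (nat_lit 7) (nat_lit 1) (.cons (.rf (nat_lit 4096) (nat_lit 15033979239564512)) (.cons (.ev (nat_lit 20361947251175828446782341316865) (nat_lit 1)) .nil))) .nil)))),
 (.br (nat_lit 9) (nat_lit 1) (.cons (.zr (nat_lit 60847228810955012397741660701440) (nat_lit 1218370696696660364361729) (nat_lit 5) (nat_lit 3)) .nil)),
 (.br (nat_lit 13) (nat_lit 1) (.cons (.ev (nat_lit 1208925891672223229411584) (nat_lit 1)) (.cons (.br (nat_lit 8) (nat_lit 1) (.cons (.rf (nat_lit 4263) (nat_lit 493858305440582043680)) (.cons (.rf (nat_lit 4265) (nat_lit 493858305440582043680)) (.cons (.rf (nat_lit 4266) (nat_lit 493858305440582043680)) (.cons (.br (nat_lit 8) (nat_lit 1) (.cons (.rf (nat_lit 29) (nat_lit 8789057)) (.cons (.rf (nat_lit 1771) (nat_lit 10858539587495659552)) (.cons (.rf (nat_lit 4266) (nat_lit 493858305440582043680)) .nil)))) .nil)))))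 (.cons (.br (nat_lit 7) (nat_lit 1) (.cons (.rf (nat_lit 31) (nat_lit 444996673)) (.cons (.rf (nat_lit 31) (nat_lit 446045249)) (.cons (.br (nat_lit 8) (nat_lit 1) (.cons (.rf (nat_lit 4267) (nat_lit 493858305440582043680)) (.cons (.br (nat_lit 8) (nat_lit 1) (.cons (.rf (nat_lit 4267) (nat_lit 493858305440582043680)) .nil)) .nil))) .nil)))) .nil)))),
 (.br (nat_lit 8) (nat_lit 1) (.cons (.br (nat_lit 9) (nat_lit 1) (.cons (.kr (nat_lit 20282719088661563826618603929856) (nat_lit 79228167255077564536932335616) (nat_lit 1) (nat_lit 0)) .nil)) .nil)),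
 (.br (nat_lit 13) (nat_lit 1) (.cons (.ev (nat_lit 1208925891672223229411584) (nat_lit 1)) (.cons (.rf (nat_lit 4268) (nat_lit 493858305440582043680)) (.cons (.br (nat_lit 7) (nat_lit 1) (.cons (.rf (nat_lit 31) (nat_lit 444996673)) (.cons (.br (nat_lit 8) (nat_lit 1) (.cons (.rf (nat_lit 4269) (nat_lit 493858305440582043680)) (.cons (.br (nat_lit 8) (nat_lit 1) (.cons (.rf (nat_lit 4269) (nat_lit 493858305440582043680)) .nil)) .nil))) (.cons (.rf (nat_lit 31) (nat_lit 448142401)) .nil)))) .nil)))),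
 (.br (nat_lit 13) (nat_lit 1) (.cons (.ev (nat_lit 1208925891672223229411584) (nat_lit 1)) (.cons (.rf (nat_lit 4268) (nat_lit 493858305440582043680)) (.cons (.rf (nat_lit 4270) (nat_lit 493858305440582043680)) (.cons (.br (nat_lit 13) (nat_lit 1) (.cons (.ev (nat_lit 1208925891672223229411584) (nat_lit 1)) (.cons (.rf (nat_lit 4268) (nat_lit 493858305440582043680)) (.cons (.rf (nat_lit 4270) (nat_lit 493858305440582043680)) .nil)))) .nil))))),
 (.br (nat_lit 13) (nat_lit 1) (.cons (.ev (nat_lit 1208925891672223229411584) (nat_lit 1)) (.cons (.rf (nat_lit 4271) (nat_lit 493858305440582043680)) (.cons (.br (nat_lit 7) (nat_lit 1) (.cons (.br (nat_lit 8) (nat_lit 1) (.cons (.br (nat_lit 11) (nat_lit 1) (.cons (.kr (nat_lit 20282409603651742481545584181504) (nat_lit 79228162532711081667270344704) (nat_lit 1) (nat_lit 0)) (.cons (.zr (nat_lit 4849870594079924928119552) (nat_lit 40960960019874662818436727439366) (nat_lit 5) (nat_lit 5)) .nil))) (.cons (.br (nat_lit 9) (nat_lit 1) (.cons (.kr (nat_lit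 20282409603651742481545584181504) (nat_lit 79228162532711081667270344704) (nat_lit 1) (nat_lit 0)) (.cons (.zr (nat_lit 933290732958666513593664256) (nat_lit 40960960019874662818436710662150) (nat_lit 5) (nat_lit 6)) .nil))) .nil))) (.cons (.rf (nat_lit 31) (nat_lit 446045249)) (.cons (.rf (nat_lit 31) (nat_lit 448142401)) .nil)))) .nil)))),
 (.br (nat_lit 13) (nat_lit 1) (.cons (.ev (nat_lit 1208925891672223229411584) (nat_lit 1)) (.cons (.rf (nat_lit 4271) (nat_lit 493858305440582043680)) (.cons (.rf (nat_lit 4272) (nat_lit 493858305440582043680)) (.cons (.br (nat_lit 13) (nat_lit 1) (.cons (.ev (nat_lit 1208925891672223229411584) (nat_lit 1)) (.cons (.rf (nat_lit 4271) (nat_lit 493858305440582043680)) (.cons (.rf (nat_lit 4272) (nat_lit 493858305440582043680)) .nil)))) .nil))))),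
 (.br (nat_lit 13) (nat_lit 1) (.cons (.ev (nat_lit 1208925891672223229411584) (nat_lit 1)) (.cons (.rf (nat_lit 4271) (nat_lit 493858305440582043680)) (.cons (.rf (nat_lit 4273) (nat_lit 493858305440582043680)) (.cons (.br (nat_lit 13) (nat_lit 1) (.cons (.ev (nat_lit 1208925891672223229411584) (nat_lit 1)) (.cons (.rf (nat_lit 4271) (nat_lit 493858305440582043680)) (.cons (.rf (nat_lit 4273) (nat_lit 493858305440582043680)) .nil)))) .nil))))),
 (.br (nat_lit 13) (nat_lit 1) (.cons (.ev (nat_lit 1208925891672223229411584) (nat_lit 1)) (.cons (.rf (nat_lit 4271) (nat_lit 493858305440582043680)) (.cons (.rf (nat_lit 4273) (nat_lit 493858305440582043680)) (.cons (.rf (nat_lit 4274) (nat_lit 493858305440582043680)) (.cons (.br (nat_lit 13) (nat_lit 1) (.cons (.ev (nat_lit 1208925891672223229411584) (nat_lit 1)) (.cons (.rf (nat_lit 4271) (nat_lit 493858305440582043680)) (.cons (.rf (nat_lit 4273) (nat_lit 493858305440582043680)) (.cons (.rf (nat_lit 4274) (nat_lit 493858305440582043680)) .nil)))))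 .nil)))))),
 (.br (nat_lit 9) (nat_lit 1) (.cons (.rf (nat_lit 2594) (nat_lit 8960389346)) (.cons (.ev (nat_lit 4722438823038188322816) (nat_lit 1)) (.cons (.br (nat_lit 8) (nat_lit 1) (.cons (.br (nat_lit 11) (nat_lit 1) (.cons (.rf (nat_lit 84) (nat_lit 10041564225)) (.cons (.ev (nat_lit 309489750634854590879629568) (nat_lit 1)) .nil))) (.cons (.rf (nat_lit 58) (nat_lit 8789057)) (.cons (.br (nat_lit 12) (nat_lit 1) (.cons (.br (nat_lit 11) (nat_lit 1) (.cons (.ev (nat_lit 309485028340429315255631873) (nat_lit 1)) .nil)) (.cons (.rf (nat_lit 84) (nat_lit 10108673089)) .nil))) .nil)))) .nil)))),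
 (.br (nat_lit 9) (nat_lit 1) (.cons (.rf (nat_lit 1339) (nat_lit 321460082722)) (.cons (.rf (nat_lit 4276) (nat_lit 493858305440582043680)) (.cons (.rf (nat_lit 1343) (nat_lit 457723621410)) (.cons (.br (nat_lit 9) (nat_lit 1) (.cons (.rf (nat_lit 2594) (nat_lit 9027498210)) (.cons (.rf (nat_lit 4276) (nat_lit 493858305440582043680)) (.cons (.ev (nat_lit 79229385607255458425742622722) (nat_lit 2)) .nil)))) .nil))))),
 (.br (nat_lit 9) (nat_lit 1) (.cons (.br (nat_lit 11) (nat_lit 1) (.cons (.ev (nat_lit 20283032214616016086931098174209) (nat_lit 2)) .nil)) (.cons (.rf (nat_lit 84) (nat_lit 14269422657)) .nil)))]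

theorem c148 : chkAll C T R L148 (nat_lit 4244) = true := by decide +kernel

theorem l148 : (nat_lit 4244) + L148.length = (nat_lit 4279) := by decide +kernel

end Pool.Agent.H93.Neg.Q14_4_4_0_4_2
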