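import Pool.Agent.H93.Neg.TabQ14_4_4_0_4_2

/-!
Certificates.
-/

set_option autoImplicit false
set_option maxRecDepth 100000
set_option linter.all false

namespace Pool.Agent.H93.Neg.Q14_4_4_0_4_2

/-- part of the certificates -/
def L149 : List Prf := [(.br (nat_lit 13) (nat_lit 1) (.cons (.rf (nat_lit 2594) (nat_lit 8893411554)) (.cons (.br (nat_lit 8) (nat_lit 1) (.cons (.rf (nat_lit 4278) (nat_lit 493858305440582043680)) (.cons (.rf (nat_lit 4278) (nat_lit 493786318042448403488)) (.cons (.ev (nat_lit 40644048578780462968610316484865) (nat_lit 2)) .nil)))) (.cons (.rf (nat_lit 82) (nat_lit 9945985058)) .nil)))),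
 (.br (nat_lit 13) (nat_lit 1) (.cons (.br (nat_lit 8) (nat_lit 1) (.cons (.ev (nat_lit 20282410817318303548098564063233) (nat_lit 1)) (.cons (.zr (nat_lit 55556405011832373248) (nat_lit 40564820416229160745098182393857) (nat_lit 5) (nat_lit 0)) (.cons (.rf (nat_lit 2061) (nat_lit 411283671912483905)) .nil)))) (.cons (.br (nat_lit 9) (nat_lit 1) (.cons (.zr (nat_lit 2432018738677871613772032) (nat_lit 40802503694846134143249622761476) (nat_lit 5) (nat_lit 5)) (.cons (.zr (nat_lit 14167099448613264359424) (nat_lit 40564820416229160745098165617153) (nat_lit 5) (nat_lit 5)) .nil))) .nil))),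
 (.br (nat_lit 13) (nat_lit 1) (.cons (.rf (nat_lit 4280) (nat_lit 493858305440582043680)) (.cons (.br (nat_lit 13) (nat_lit 1) (.cons (.rf (nat_lit 4280) (nat_lit 493858305440582043680)) (.cons (.ev (nat_lit 20361637766166007101713633312768) (nat_lit 1)) .nil))) (.cons (.br (nat_lit 13) (nat_lit 1) (.cons (.rf (nat_lit 4280) (nat_lit 493858305440582043680)) (.cons (.ev (nat_lit 20361637766166007101713633312768) (nat_lit 1)) .nil))) .nil)))),
 (.br (nat_lit 13) (nat_lit 1) (.cons (.rf (nat_lit 4281) (nat_lit 493858305440582043680)) (.cons (.br (nat_lit 9) (nat_lit 1) (.cons (.zr (nat_lit 4849870377907129963184896) (nat_lit 40960960019874662818436710662150) (nat_lit 5) (nat_lit 5)) (.cons (.zr (nat_lit 1223092919063242439065600) (nat_lit 40723275532331869805656078811139) (nat_lit 5) (nat_lit 5)) .nil))) .nil))),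
 (.br (nat_lit 13) (nat_lit 1) (.cons (.rf (nat_lit 4281) (nat_lit 493858305440582043680)) (.cons (.rf (nat_lit 4282) (nat_lit 493858305440582043680)) (.cons (.br (nat_lit 13) (nat_lit 1) (.cons (.rf (nat_lit 4281) (nat_lit 493858305440582043680)) (.cons (.rf (nat_lit 4282) (nat_lit 493858305440582043680)) .nil))) .nil)))),
 (.br (nat_lit 13) (nat_lit 1) (.cons (.rf (nat_lit 4281) (nat_lit 493858305440582043680)) (.cons (.rf (nat_lit 4283) (nat_lit 493858305440582043680)) (.cons (.br (nat_lit 13) (nat_lit 1) (.cons (.ev (nat_lit 20361637766166007101713633312768) (nat_lit 1)) (.cons (.rf (nat_lit 4283) (nat_lit 493858305440582043680)) .nil))) .nil)))),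
 (.br (nat_lit 13) (nat_lit 1) (.cons (.rf (nat_lit 4281) (nat_lit 493858305440582043680)) (.cons (.rf (nat_lit 4283) (nat_lit 493858305440582043680)) (.cons (.rf (nat_lit 4284) (nat_lit 493858305440582043680)) (.cons (.br (nat_lit 13) (nat_lit 1) (.cons (.rf (nat_lit 4281) (nat_lit 493858305440582043680)) (.cons (.rf (nat_lit 4283) (nat_lit 493858305440582043680)) (.cons (.rf (nat_lit 4284) (nat_lit 493858305440582043680)) .nil)))) .nil))))),
 (.br (nat_lit 11) (nat_lit 1) (.cons (.rf (nat_lit 4285) (nat_lit 493858305440582043680)) (.cons (.br (nat_lit 1) (nat_lit 1) (.cons (.ev (nat_lit 79228162532711081671548534784) (nat_lit 1)) (.cons (.rf (nat_lit 84) (nat_lit 8968870946)) (.cons (.br (nat_lit 8) (nat_lit 1) (.cons (.ev (nat_lit 79540074875870450049563492866) (nat_lit 2)) (.cons (.ev (nat_lit 310693954159761365646966784) (nat_lit 1)) .nil))) .nil)))) (.cons (.br (nat_lit 8) (nat_lit 1) (.cons (.br (nat_lit 13) (nat_lit 1) (.cons (.zr (nat_lit 23611832414348327059457) (nat_lit 622596834139419947841880576)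 (nat_lit 5) (nat_lit 5)) (.cons (.kr (nat_lit 79228162514264337593543950337) (nat_lit 1208925819614629174706432) (nat_lit 0) (nat_lit 2)) .nil))) (.cons (.br (nat_lit 13) (nat_lit 1) (.cons (.rf (nat_lit 1925) (nat_lit 10857486291863472160)) (.cons (.ev (nat_lit 79537652246452165531930787841) (nat_lit 1)) .nil))) (.cons (.ev (nat_lit 310693954159761365646966784) (nat_lit 1)) (.cons (.br (nat_lit 1) (nat_lit 1) (.cons (.ev (nat_lit 309489750634854590879629568) (nat_lit 1)) (.cons (.zr (nat_lit 55556405011849150464) (nat_lit 159076503973991262528200507393) (nat_lit 5) (nat_lit 0)) (.cons (.br (nat_lit 9) (nat_lit 1) (.cons (.ev (nat_lit 21474248465769048713613845596160) (nat_lit 4)) .nil)) .nil)))) .nil))))) .nil)))),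
 (.br (nat_lit 11) (nat_lit 1) (.cons (.ev (nat_lit 309485009893685241546080256) (nat_lit 1)) (.cons (.rf (nat_lit 4286) (nat_lit 493858305440582043680)) (.cons (.br (nat_lit 8) (nat_lit 1) (.cons (.ev (nat_lit 79228162532711081671548534784) (nat_lit 1)) (.cons (.ev (nat_lit 310693954159761365646966784) (nat_lit 1)) (.cons (.br (nat_lit 13) (nat_lit 1) (.cons (.ev (nat_lit 40644975824865732420124532670976) (nat_lit 2)) (.cons (.zr (nat_lit 55556405011832373248) (nat_lit 40564820416229160745098182393857) (nat_lit 5) (nat_lit 0)) .nil))) .nil)))) .nil)))),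
 (.br (nat_lit 11) (nat_lit 1) (.cons (.rf (nat_lit 4285) (nat_lit 493858305440582043680)) (.cons (.rf (nat_lit 4286) (nat_lit 493858305440582043680)) (.cons (.rf (nat_lit 4287) (nat_lit 493858305440582043680)) (.cons (.br (nat_lit 11) (nat_lit 1) (.cons (.rf (nat_lit 4285) (nat_lit 493858305440582043680)) (.cons (.rf (nat_lit 4286) (nat_lit 493858305440582043680)) (.cons (.rf (nat_lit 4287) (nat_lit 493858305440582043680)) .nil)))) .nil))))),
 (.br (nat_lit 1) (nat_lit 1) (.cons (.rf (nat_lit 2375) (nat_lit 15433037960123090976)) (.cons (.rf (nat_lit 84) (nat_lit 8968870946)) (.cons (.ev (nat_lit 158765810038566193042221629697) (nat_lit 2)) (.cons (.br (nat_lit 11) (nat_lit 1) (.cons (.rf (nat_lit 4288) (nat_lit 493858305440582043680)) (.cons (.br (nat_lit 9) (nat_lit 1) (.cons (.br (nat_lit 8) (nat_lit 1) (.cons (.ev (nat_lit 21475481584291253737269039531788) (nat_lit 4)) .nil)) (.cons (.ev (nat_lit 20282409608374036906816896565249) (nat_lit 1)) .nil))) .nil))) .nil))))),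
 (.br (nat_lit 11) (nat_lit 1) (.cons (.rf (nat_lit 4285) (nat_lit 493858305440582043680)) (.cons (.rf (nat_lit 4288) (nat_lit 493858305440582043680)) (.cons (.rf (nat_lit 4289) (nat_lit 493858305440582043680)) (.cons (.br (nat_lit 11) (nat_lit 1) (.cons (.rf (nat_lit 4285) (nat_lit 493858305440582043680)) (.cons (.rf (nat_lit 4288) (nat_lit 493858305440582043680)) (.cons (.rf (nat_lit 4289) (nat_lit 493858305440582043680)) .nil)))) .nil))))),
 (.br (nat_lit 11) (nat_lit 1) (.cons (.rf (nat_lit 4285) (nat_lit 493858305440582043680)) (.cons (.rf (nat_lit 4288) (nat_lit 493858305440582043680)) (.cons (.rf (nat_lit 4290) (nat_lit 493858305440582043680)) (.cons (.br (nat_lit 11) (nat_lit 1) (.cons (.ev (nat_lit 79538856449977637464264737025) (nat_lit 1)) (.cons (.rf (nat_lit 4288) (nat_lit 493858305440582043680)) (.cons (.rf (nat_lit 4290) (nat_lit 493858305440582043680)) .nil)))) .nil))))),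
 (.br (nat_lit 13) (nat_lit 1) (.cons (.br (nat_lit 8) (nat_lit 1) (.cons (.zr (nat_lit 55556405011832373248) (nat_lit 40564820416229160745098182393857) (nat_lit 5) (nat_lit 0)) (.cons (.ev (nat_lit 20282720297605758410293365440513) (nat_lit 1)) (.cons (.rf (nat_lit 2061) (nat_lit 339296446617653313)) .nil)))) (.cons (.ev (nat_lit 20361637766166007101713633312768) (nat_lit 1)) .nil))),
 (.br (nat_lit 13) (nat_lit 1) (.cons (.rf (nat_lit 4292) (nat_lit 493858305440582043680)) (.cons (.br (nat_lit 11) (nat_lit 1) (.cons (.zr (nat_lit 930872881103264481703821568) (nat_lit 40802503694846134143249639538692) (nat_lit 5) (nat_lit 5)) (.cons (.zr (nat_lit 928455029464035223354408960) (nat_lit 40564820416229160745098182394369) (nat_lit 5) (nat_lit 5)) .nil))) .nil))),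
 (.br (nat_lit 13) (nat_lit 1) (.cons (.rf (nat_lit 4292) (nat_lit 493858305440582043680)) (.cons (.rf (nat_lit 4293) (nat_lit 493858305440582043680)) (.cons (.br (nat_lit 13) (nat_lit 1) (.cons (.ev (nat_lit 20361637766166007101713633312768) (nat_lit 1)) (.cons (.rf (nat_lit 4293) (nat_lit 493858305440582043680)) .nil))) .nil)))),
 (.br (nat_lit 13) (nat_lit 1) (.cons (.rf (nat_lit 4294) (nat_lit 493858305440582043680)) (.cons (.br (nat_lit 11) (nat_lit 1) (.cons (.zr (nat_lit 933290732742493740053234432) (nat_lit 40960960019874662818436727439366) (nat_lit 5) (nat_lit 5)) (.cons (.zr (nat_lit 929663955283649852529115136) (nat_lit 40723275532331869805656095588355) (nat_lit 5) (nat_lit 5)) .nil))) .nil))),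
 (.br (nat_lit 13) (nat_lit 1) (.cons (.rf (nat_lit 4294) (nat_lit 493858305440582043680)) (.cons (.rf (nat_lit 4295) (nat_lit 493858305440582043680)) (.cons (.br (nat_lit 13) (nat_lit 1) (.cons (.ev (nat_lit 20361637766166007101713633312768) (nat_lit 1)) (.cons (.rf (nat_lit 4295) (nat_lit 493858305440582043680)) .nil))) .nil)))),
 (.br (nat_lit 13) (nat_lit 1) (.cons (.rf (nat_lit 4294) (nat_lit 493858305440582043680)) (.cons (.rf (nat_lit 4296) (nat_lit 493858305440582043680)) (.cons (.br (nat_lit 13) (nat_lit 1) (.cons (.rf (nat_lit 4294) (nat_lit 493858305440582043680)) (.cons (.rf (nat_lit 4296) (nat_lit 493858305440582043680)) .nil))) .nil)))),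
 (.br (nat_lit 13) (nat_lit 1) (.cons (.rf (nat_lit 4294) (nat_lit 493858305440582043680)) (.cons (.rf (nat_lit 4296) (nat_lit 493858305440582043680)) (.cons (.rf (nat_lit 4297) (nat_lit 493858305440582043680)) (.cons (.br (nat_lit 13) (nat_lit 1) (.cons (.rf (nat_lit 4294) (nat_lit 493858305440582043680)) (.cons (.rf (nat_lit 4296) (nat_lit 493858305440582043680)) (.cons (.rf (nat_lit 4297) (nat_lit 493858305440582043680)) .nil)))) .nil))))),
 (.br (nat_lit 9) (nat_lit 1) (.cons (.rf (nat_lit 4298) (nat_lit 493858305440582043680)) (.cons (.br (nat_lit 1) (nat_lit 1) (.cons (.ev (nat_lit 79228162532711081671548534784) (nat_lit 1)) (.cons (.rf (nat_lit 84) (nat_lit 8903859234)) (.cons (.br (nat_lit 8) (nat_lit 1) (.cons (.ev (nat_lit 79849555163325312252988359170) (nat_lit 2)) (.cons (.ev (nat_lit 1213666704899170879143936) (nat_lit 1)) .nil))) .nil)))) (.cons (.br (nat_lit 8) (nat_lit 1) (.cons (.zr (nat_lit 2417906980587379384910592) (nat_lit 9444877082031189655556) (nat_lit 5) (nat_lit 3)) (.cons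 (.br (nat_lit 13) (nat_lit 1) (.cons (.rf (nat_lit 1925) (nat_lit 13161077501263480864)) (.cons (.ev (nat_lit 79537652246452165531930787841) (nat_lit 1)) .nil))) (.cons (.ev (nat_lit 1213666704899170879143936) (nat_lit 1)) (.cons (.br (nat_lit 1) (nat_lit 1) (.cons (.ev (nat_lit 309489750634854590879629568) (nat_lit 1)) (.cons (.zr (nat_lit 55556405020422307840) (nat_lit 158457543399081538130058149889) (nat_lit 5) (nat_lit 0)) (.cons (.br (nat_lit 11) (nat_lit 1) (.cons (.ev (nat_lit 21470844182607045229445361305600) (nat_lit 4)) .nil)) .nil)))) .nil))))) .nil)))),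
 (.br (nat_lit 9) (nat_lit 1) (.cons (.ev (nat_lit 4722438823038188322816) (nat_lit 1)) (.cons (.rf (nat_lit 4299) (nat_lit 493858305440582043680)) (.cons (.br (nat_lit 8) (nat_lit 1) (.cons (.ev (nat_lit 79228162532711081671548534784) (nat_lit 1)) (.cons (.ev (nat_lit 1213666704899170879143936) (nat_lit 1)) (.cons (.br (nat_lit 13) (nat_lit 1) (.cons (.ev (nat_lit 40644047384003367833531639267840) (nat_lit 2)) (.cons (.zr (nat_lit 55556405011832373248) (nat_lit 40564820416229160745098182393857) (nat_lit 5) (nat_lit 0)) .nil))) .nil)))) .nil)))),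
 (.br (nat_lit 9) (nat_lit 1) (.cons (.rf (nat_lit 4298) (nat_lit 493858305440582043680)) (.cons (.rf (nat_lit 4299) (nat_lit 493858305440582043680)) (.cons (.rf (nat_lit 4300) (nat_lit 493858305440582043680)) (.cons (.br (nat_lit 9) (nat_lit 1) (.cons (.rf (nat_lit 4298) (nat_lit 493858305440582043680)) (.cons (.rf (nat_lit 4299) (nat_lit 493858305440582043680)) (.cons (.rf (nat_lit 4300) (nat_lit 493858305440582043680)) .nil)))) .nil))))),
 (.br (nat_lit 1) (nat_lit 1) (.cons (.rf (nat_lit 2375) (nat_lit 15430856529053583392)) (.cons (.ev (nat_lit 158456329751111330838863872257) (nat_lit 2)) (.cons (.rf (nat_lit 84) (nat_lit 8903859234)) (.cons (.br (nat_lit 9) (nat_lit 1) (.cons (.rf (nat_lit 4301) (nat_lit 493858305440582043680)) (.cons (.br (nat_lit 11) (nat_lit 1) (.cons (.br (nat_lit 8) (nat_lit 1) (.cons (.ev (nat_lit 21471767820841795390897197483788) (nat_lit 4)) .nil)) (.cons (.ev (nat_lit 20282719088661491769020287877121) (nat_lit 1)) .nil))) .nil))) .nil))))),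
 (.br (nat_lit 9) (nat_lit 1) (.cons (.rf (nat_lit 4298) (nat_lit 493858305440582043680)) (.cons (.rf (nat_lit 4301) (nat_lit 493858305440582043680)) (.cons (.rf (nat_lit 4302) (nat_lit 493858305440582043680)) (.cons (.br (nat_lit 9) (nat_lit 1) (.cons (.rf (nat_lit 4298) (nat_lit 493858305440582043680)) (.cons (.rf (nat_lit 4301) (nat_lit 493858305440582043680)) (.cons (.rf (nat_lit 4302) (nat_lit 493858305440582043680)) .nil)))) .nil))))),
 (.br (nat_lit 9) (nat_lit 1) (.cons (.rf (nat_lit 4298) (nat_lit 493858305440582043680)) (.cons (.rf (nat_lit 4301) (nat_lit 493858305440582043680)) (.cons (.rf (nat_lit 4303) (nat_lit 493858305440582043680)) (.cons (.br (nat_lit 9) (nat_lit 1) (.cons (.ev (nat_lit 79229376162522775260906979585) (nat_lit 1)) (.cons (.rf (nat_lit 4301) (nat_lit 493858305440582043680)) (.cons (.rf (nat_lit 4303) (nat_lit 493858305440582043680)) .nil)))) .nil))))),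
 (.br (nat_lit 9) (nat_lit 1) (.cons (.br (nat_lit 12) (nat_lit 1) (.cons (.ev (nat_lit 310693954159761365646966784) (nat_lit 1)) (.cons (.zr (nat_lit 55556405020422307840) (nat_lit 158457543399081538130058149889) (nat_lit 5) (nat_lit 0)) .nil))) (.cons (.ev (nat_lit 79229376162522775260906979585) (nat_lit 1)) (.cons (.br (nat_lit 8) (nat_lit 1) (.cons (.rf (nat_lit 3597) (nat_lit 12852548170062880)) (.cons (.br (nat_lit 11) (nat_lit 1) (.cons (.ev (nat_lit 80156627044018591265716174850) (nat_lit 2)) .nil)) .nil))) .nil)))),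
 (.br (nat_lit 11) (nat_lit 1) (.cons (.rf (nat_lit 4305) (nat_lit 493858305440582043680)) (.cons (.br (nat_lit 13) (nat_lit 1) (.cons (.ev (nat_lit 310693954159761365646966784) (nat_lit 1)) (.cons (.zr (nat_lit 60847228810955011271841821163520) (nat_lit 620178945462587345407574529) (nat_lit 5) (nat_lit 10)) .nil))) .nil))),
 (.br (nat_lit 11) (nat_lit 1) (.cons (.rf (nat_lit 4305) (nat_lit 493858305440582043680)) (.cons (.rf (nat_lit 4306) (nat_lit 493858305440582043680)) (.cons (.br (nat_lit 11) (nat_lit 1) (.cons (.rf (nat_lit 4305) (nat_lit 493858305440582043680)) (.cons (.rf (nat_lit 4306) (nat_lit 493858305440582043680)) .nil))) .nil)))),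
 (.br (nat_lit 9) (nat_lit 1) (.cons (.br (nat_lit 8) (nat_lit 1) (.cons (.ev (nat_lit 310693954159761365646966784) (nat_lit 1)) (.cons (.br (nat_lit 11) (nat_lit 1) (.cons (.zr (nat_lit 2417888533561830749045248) (nat_lit 79847132534051145126682558467) (nat_lit 5) (nat_lit 3)) .nil)) .nil))) (.cons (.rf (nat_lit 4307) (nat_lit 296625487253167283594)) .nil)))]

theorem c149 : chkAll C T R L149 (nat_lit 4279) = true := by decide +kernel

theorem l149 : (nat_lit 4279) + L149.length = (nat_lit 4309) := by decide +kernel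

/-- part of the certificates -/
def L150 : List Prf := [(.br (nat_lit 11) (nat_lit 1) (.cons (.rf (nat_lit 4307) (nat_lit 493858305440582043680)) (.cons (.rf (nat_lit 4308) (nat_lit 493858305440582043680)) (.cons (.br (nat_lit 11) (nat_lit 1) (.cons (.rf (nat_lit 4307) (nat_lit 493858305440582043680)) (.cons (.rf (nat_lit 4308) (nat_lit 493858305440582043680)) .nil))) .nil)))),
 (.br (nat_lit 9) (nat_lit 1) (.cons (.br (nat_lit 9) (nat_lit 1) (.cons (.rf (nat_lit 4309) (nat_lit 493858305440582043680)) (.cons (.rf (nat_lit 4307) (nat_lit 296625487253167283594)) .nil))) (.cons (.rf (nat_lit 4309) (nat_lit 493858305440582043680)) (.cons (.rf (nat_lit 4307) (nat_lit 296625487253167283594)) .nil)))),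
 (.br (nat_lit 11) (nat_lit 1) (.cons (.rf (nat_lit 4307) (nat_lit 493858305440582043680)) (.cons (.rf (nat_lit 4309) (nat_lit 493858305440582043680)) (.cons (.rf (nat_lit 4310) (nat_lit 493858305440582043680)) (.cons (.br (nat_lit 11) (nat_lit 1) (.cons (.rf (nat_lit 4307) (nat_lit 493858305440582043680)) (.cons (.rf (nat_lit 4309) (nat_lit 493858305440582043680)) (.cons (.rf (nat_lit 4310) (nat_lit 493858305440582043680)) .nil)))) .nil))))),
 (.br (nat_lit 12) (nat_lit 1) (.cons (.ev (nat_lit 79228167255149622135248388353) (nat_lit 1)) (.cons (.ev (nat_lit 79538856449977637464264737025) (nat_lit 1)) (.cons (.zr (nat_lit 1218370913150913361346560) (nat_lit 61243369623526332959835243414276) (nat_lit 20) (nat_lit 6)) .nil)))),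
 (.br (nat_lit 9) (nat_lit 1) (.cons (.rf (nat_lit 4311) (nat_lit 493858305440582043680)) (.cons (.br (nat_lit 8) (nat_lit 1) (.cons (.ev (nat_lit 79228162532711081671548534784) (nat_lit 1)) (.cons (.ev (nat_lit 1213666704899170879143936) (nat_lit 1)) (.cons (.br (nat_lit 1) (nat_lit 1) (.cons (.br (nat_lit 11) (nat_lit 1) (.cons (.ev (nat_lit 79847146756563729079538286594) (nat_lit 2)) .nil)) (.cons (.rf (nat_lit 84) (nat_lit 9945816108)) .nil))) .nil)))) (.cons (.br (nat_lit 11) (nat_lit 1) (.cons (.rf (nat_lit 4312) (nat_lit 493858305440582043680)) (.cons (.br (nat_lit 11) (nat_lit 1) (.cons (.rf (nat_lit 4312) (nat_lit 493858305440582043680)) (.cons (.ev (nat_lit 310693954159761365646966784) (nat_lit 1)) (.cons (.kr (nat_lit 4722366482869661990912) (nat_lit 309485009821345073019748352) (nat_lit 3) (nat_lit 0)) .nil)))) (.cons (.rf (nat_lit 4311) (nat_lit 296625487253167283594)) (.cons (.br (nat_lit 11) (nat_lit 1) (.cons (.ev (nat_lit 20282719088661491769020287877121) (nat_lit 1)) (.cons (.kr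 (nat_lit 4722366482869661990912) (nat_lit 309485009821345073019748352) (nat_lit 3) (nat_lit 0)) (.cons (.rf (nat_lit 4311) (nat_lit 296625487253167283594)) .nil)))) .nil))))) .nil)))),
 (.br (nat_lit 9) (nat_lit 1) (.cons (.ev (nat_lit 79229376162666607874494628352) (nat_lit 2)) (.cons (.rf (nat_lit 4313) (nat_lit 493858305440582043680)) (.cons (.br (nat_lit 1) (nat_lit 1) (.cons (.ev (nat_lit 79228162532711081671548534784) (nat_lit 1)) (.cons (.br (nat_lit 13) (nat_lit 1) (.cons (.ev (nat_lit 1213666704899170879143936) (nat_lit 1)) (.cons (.zr (nat_lit 60847228810955011271846082576384) (nat_lit 1218370552862942953472513) (nat_lit 5) (nat_lit 10)) .nil))) (.cons (.rf (nat_lit 84) (nat_lit 8905956386)) .nil)))) .nil)))),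
 (.br (nat_lit 9) (nat_lit 1) (.cons (.rf (nat_lit 4311) (nat_lit 493858305440582043680)) (.cons (.rf (nat_lit 4313) (nat_lit 493858305440582043680)) (.cons (.rf (nat_lit 4314) (nat_lit 493858305440582043680)) (.cons (.br (nat_lit 9) (nat_lit 1) (.cons (.rf (nat_lit 4311) (nat_lit 493858305440582043680)) (.cons (.rf (nat_lit 4313) (nat_lit 493858305440582043680)) (.cons (.rf (nat_lit 4314) (nat_lit 493858305440582043680)) .nil)))) .nil))))),
 (.br (nat_lit 9) (nat_lit 1) (.cons (.ev (nat_lit 79229376162522775260906979585) (nat_lit 1)) (.cons (.rf (nat_lit 4315) (nat_lit 493858305440582043680)) (.cons (.br (nat_lit 13) (nat_lit 1) (.cons (.rf (nat_lit 84) (nat_lit 8905956386)) (.cons (.br (nat_lit 1) (nat_lit 1) (.cons (.ev (nat_lit 1208944266358707179290881) (nat_lit 1)) (.cons (.br (nat_lit 8) (nat_lit 1) (.cons (.zr (nat_lit 4722438823059646447616) (nat_lit 158457533972795033890022490369) (nat_lit 10) (nat_lit 5)) .nil)) .nil))) (.cons (.rf (nat_lit 4315) (nat_lit 296625487253167283594)) .nil))))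 .nil)))),
 (.br (nat_lit 9) (nat_lit 1) (.cons (.rf (nat_lit 4311) (nat_lit 493858305440582043680)) (.cons (.rf (nat_lit 4315) (nat_lit 493858305440582043680)) (.cons (.rf (nat_lit 4316) (nat_lit 493858305440582043680)) (.cons (.br (nat_lit 9) (nat_lit 1) (.cons (.rf (nat_lit 4311) (nat_lit 493858305440582043680)) (.cons (.rf (nat_lit 4315) (nat_lit 493858305440582043680)) (.cons (.rf (nat_lit 4316) (nat_lit 493858305440582043680)) .nil)))) .nil))))),
 (.br (nat_lit 9) (nat_lit 1) (.cons (.rf (nat_lit 4311) (nat_lit 493858305440582043680)) (.cons (.rf (nat_lit 4315) (nat_lit 493858305440582043680)) (.cons (.rf (nat_lit 4317) (nat_lit 493858305440582043680)) (.cons (.br (nat_lit 9) (nat_lit 1) (.cons (.ev (nat_lit 158456329751111330838863872257) (nat_lit 2)) (.cons (.rf (nat_lit 4315) (nat_lit 493858305440582043680)) (.cons (.rf (nat_lit 4317) (nat_lit 493858305440582043680)) .nil)))) .nil))))),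
 (.br (nat_lit 7) (nat_lit 1) (.cons (.rf (nat_lit 4275) (nat_lit 493786318042448403488)) (.cons (.br (nat_lit 1) (nat_lit 1) (.cons (.kr (nat_lit 1) (nat_lit 18446744073709551616) (nat_lit 0) (nat_lit 1)) (.cons (.rf (nat_lit 4277) (nat_lit 493858305440582043680)) (.cons (.rf (nat_lit 4277) (nat_lit 493786318042448403488)) (.cons (.rf (nat_lit 29) (nat_lit 8620417)) (.cons (.br (nat_lit 13) (nat_lit 1) (.cons (.rf (nat_lit 1339) (nat_lit 456751551522)) (.cons (.rf (nat_lit 4279) (nat_lit 493858305440582043680)) (.cons (.rf (nat_lit 4279) (nat_lit 493786318042448403488)) (.cons (.rf (nat_lit 3822) (nat_lit 456583943233)) .nil))))) .nil)))))) (.cons (.br (nat_lit 11) (nat_lit 1) (.cons (.rf (nat_lit 4285) (nat_lit 493858305440582043680)) (.cons (.rf (nat_lit 4288) (nat_lit 493858305440582043680)) (.cons (.rf (nat_lit 4290) (nat_lit 493858305440582043680)) (.cons (.rf (nat_lit 4291) (nat_lit 493858305440582043680)) (.cons (.br (nat_lit 11) (nat_lit 1) (.cons (.rf (nat_lit 4285) (nat_lit 493858305440582043680))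 (.cons (.rf (nat_lit 4288) (nat_lit 493858305440582043680)) (.cons (.rf (nat_lit 4290) (nat_lit 493858305440582043680)) (.cons (.rf (nat_lit 4291) (nat_lit 493858305440582043680)) .nil))))) .nil)))))) (.cons (.br (nat_lit 9) (nat_lit 1) (.cons (.rf (nat_lit 4298) (nat_lit 493858305440582043680)) (.cons (.rf (nat_lit 4301) (nat_lit 493858305440582043680)) (.cons (.rf (nat_lit 4303) (nat_lit 493858305440582043680)) (.cons (.rf (nat_lit 4304) (nat_lit 493858305440582043680)) (.cons (.br (nat_lit 9) (nat_lit 1) (.cons (.rf (nat_lit 4298) (nat_lit 493858305440582043680)) (.cons (.rf (nat_lit 4301) (nat_lit 493858305440582043680)) (.cons (.rf (nat_lit 4303) (nat_lit 493858305440582043680)) (.cons (.rf (nat_lit 4304) (nat_lit 493858305440582043680)) .nil))))) .nil)))))) (.cons (.ev (nat_lit 79228162514264337597838983169) (nat_lit 1)) (.cons (.br (nat_lit 9) (nat_lit 1) (.cons (.rf (nat_lit 4311) (nat_lit 493858305440582043680)) (.cons (.rf (nat_lit 4315) (nat_lit 493858305440582043680)) (.cons (.rf (nat_lit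 4317) (nat_lit 493858305440582043680)) (.cons (.rf (nat_lit 4318) (nat_lit 493858305440582043680)) (.cons (.br (nat_lit 9) (nat_lit 1) (.cons (.rf (nat_lit 4311) (nat_lit 493858305440582043680)) (.cons (.rf (nat_lit 4315) (nat_lit 493858305440582043680)) (.cons (.rf (nat_lit 4317) (nat_lit 493858305440582043680)) (.cons (.rf (nat_lit 4318) (nat_lit 493858305440582043680)) .nil))))) .nil)))))) .nil))))))),
 (.br (nat_lit 8) (nat_lit 1) (.cons (.br (nat_lit 11) (nat_lit 1) (.cons (.ev (nat_lit 20837323494075665611666363581700) (nat_lit 3)) .nil)) .nil)),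
 (.br (nat_lit 12) (nat_lit 1) (.cons (.rf (nat_lit 1343) (nat_lit 457728859201)) (.cons (.rf (nat_lit 58) (nat_lit 9837633)) (.cons (.br (nat_lit 9) (nat_lit 1) (.cons (.rf (nat_lit 84) (nat_lit 12089072716)) (.cons (.rf (nat_lit 84) (nat_lit 8968870977)) (.cons (.br (nat_lit 8) (nat_lit 1) (.cons (.rf (nat_lit 4320) (nat_lit 493858305440582043680)) (.cons (.br (nat_lit 8) (nat_lit 1) (.cons (.rf (nat_lit 4320) (nat_lit 493858305440582043680)) .nil)) .nil))) .nil)))) (.cons (.kr (nat_lit 79228162514264337593543950337) (nat_lit 1208925819614629174706432) (nat_lit 0) (nat_lit 2)) .nil))))),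
 (.br (nat_lit 12) (nat_lit 1) (.cons (.br (nat_lit 9) (nat_lit 1) (.cons (.rf (nat_lit 84) (nat_lit 12089433153)) (.cons (.rf (nat_lit 84) (nat_lit 8968510540)) (.cons (.br (nat_lit 8) (nat_lit 1) (.cons (.br (nat_lit 8) (nat_lit 1) (.cons (.ev (nat_lit 4740885567111897874433) (nat_lit 1)) .nil)) (.cons (.br (nat_lit 8) (nat_lit 1) (.cons (.ev (nat_lit 4740885567111897874433) (nat_lit 1)) .nil)) .nil))) .nil)))) (.cons (.rf (nat_lit 58) (nat_lit 9837633)) (.cons (.rf (nat_lit 1343) (nat_lit 275254652962)) (.cons (.rf (nat_lit 4321) (nat_lit 296697474651300923786)) .nil))))),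
 (.br (nat_lit 8) (nat_lit 1) (.cons (.br (nat_lit 11) (nat_lit 1) (.cons (.ev (nat_lit 79850768830029928857969231617) (nat_lit 3)) .nil)) .nil)),
 (.br (nat_lit 13) (nat_lit 1) (.cons (.br (nat_lit 12) (nat_lit 1) (.cons (.ev (nat_lit 20361637766184381788188993126401) (nat_lit 1)) (.cons (.zr (nat_lit 14167315621391049425664) (nat_lit 40564820416229160745102477361153) (nat_lit 5) (nat_lit 0)) (.cons (.zr (nat_lit 928455029464035206174540544) (nat_lit 40564820416229160745102477361153) (nat_lit 5) (nat_lit 0)) .nil)))) (.cons (.kr (nat_lit 79228162514264337593543950337) (nat_lit 1208925819614629174706432) (nat_lit 0) (nat_lit 2)) .nil))),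
 (.br (nat_lit 13) (nat_lit 1) (.cons (.rf (nat_lit 4324) (nat_lit 493858305440582043680)) (.cons (.rf (nat_lit 4324) (nat_lit 493786318042448403488)) (.cons (.kr (nat_lit 79228162514264337593543950337) (nat_lit 1208925819614629174706432) (nat_lit 0) (nat_lit 2)) .nil)))),
 (.br (nat_lit 13) (nat_lit 1) (.cons (.rf (nat_lit 4325) (nat_lit 493858305440582043680)) (.cons (.br (nat_lit 13) (nat_lit 1) (.cons (.rf (nat_lit 4325) (nat_lit 493858305440582043680)) (.cons (.kr (nat_lit 79228162514264337593543950337) (nat_lit 1208925819614629174706432) (nat_lit 0) (nat_lit 2)) .nil))) (.cons (.kr (nat_lit 79228162514264337593543950337) (nat_lit 1208925819614629174706432) (nat_lit 0) (nat_lit 2)) .nil)))),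
 (.br (nat_lit 13) (nat_lit 1) (.cons (.rf (nat_lit 4325) (nat_lit 493858305440582043680)) (.cons (.rf (nat_lit 4326) (nat_lit 493858305440582043680)) (.cons (.rf (nat_lit 4326) (nat_lit 493786318042448403488)) (.cons (.kr (nat_lit 79228162514264337593543950337) (nat_lit 1208925819614629174706432) (nat_lit 0) (nat_lit 2)) .nil))))),
 (.br (nat_lit 8) (nat_lit 1) (.cons (.rf (nat_lit 3281) (nat_lit 478905904765503520)) (.cons (.br (nat_lit 13) (nat_lit 1) (.cons (.br (nat_lit 13) (nat_lit 1) (.cons (.ev (nat_lit 1213666704899170879143936) (nat_lit 1)) (.cons (.ev (nat_lit 310693954087703775920848896) (nat_lit 1)) .nil))) (.cons (.ev (nat_lit 1213666704899170879143936) (nat_lit 1)) (.cons (.ev (nat_lit 310693954087703775920848896) (nat_lit 1)) .nil)))) (.cons (.br (nat_lit 12) (nat_lit 1) (.cons (.br (nat_lit 13) (nat_lit 1) (.cons (.zr (nat_lit 237684501710108634171681275904) (nat_lit 1208962713385355393892353) (nat_lit 5) (nat_lit 10)) (.cons (.zr (nat_lit 238612942572257047986806390784) (nat_lit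 1208962713385355393892353) (nat_lit 5) (nat_lit 10)) .nil))) (.cons (.ev (nat_lit 1213666704899170879143936) (nat_lit 1)) (.cons (.ev (nat_lit 310693954087703775920848896) (nat_lit 1)) (.cons (.rf (nat_lit 4327) (nat_lit 296697474651300923786)) .nil))))) .nil)))),
 (.br (nat_lit 8) (nat_lit 1) (.cons (.rf (nat_lit 84) (nat_lit 12121616423)) (.cons (.rf (nat_lit 4328) (nat_lit 493858305440582043680)) (.cons (.br (nat_lit 9) (nat_lit 1) (.cons (.rf (nat_lit 84) (nat_lit 12089428007)) (.cons (.ev (nat_lit 1213666704899170879143936) (nat_lit 1)) (.cons (.br (nat_lit 11) (nat_lit 1) (.cons (.ev (nat_lit 79228167255149622135248388353) (nat_lit 1)) (.cons (.rf (nat_lit 4328) (nat_lit 296697474651300923786)) .nil))) .nil)))) .nil)))),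
 (.br (nat_lit 8) (nat_lit 1) (.cons (.rf (nat_lit 4327) (nat_lit 493858305440582043680)) (.cons (.rf (nat_lit 4328) (nat_lit 493858305440582043680)) (.cons (.rf (nat_lit 4329) (nat_lit 493858305440582043680)) (.cons (.br (nat_lit 8) (nat_lit 1) (.cons (.rf (nat_lit 4327) (nat_lit 493858305440582043680)) (.cons (.rf (nat_lit 4328) (nat_lit 493858305440582043680)) (.cons (.rf (nat_lit 4329) (nat_lit 493858305440582043680)) .nil)))) .nil))))),
 (.br (nat_lit 8) (nat_lit 1) (.cons (.rf (nat_lit 4327) (nat_lit 493858305440582043680)) (.cons (.rf (nat_lit 4330) (nat_lit 493858305440582043680)) (.cons (.rf (nat_lit 4330) (nat_lit 493786318042448403488)) (.cons (.br (nat_lit 8) (nat_lit 1) (.cons (.rf (nat_lit 4327) (nat_lit 493858305440582043680)) (.cons (.rf (nat_lit 4330) (nat_lit 493858305440582043680)) (.cons (.rf (nat_lit 4330) (nat_lit 493786318042448403488)) .nil)))) .nil))))),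
 (.br (nat_lit 7) (nat_lit 1) (.cons (.rf (nat_lit 4275) (nat_lit 493786318042448403488)) (.cons (.rf (nat_lit 4319) (nat_lit 493786318042448403488)) (.cons (.br (nat_lit 1) (nat_lit 1) (.cons (.rf (nat_lit 4321) (nat_lit 493858305440582043680)) (.cons (.rf (nat_lit 58) (nat_lit 9668652)) (.cons (.rf (nat_lit 4322) (nat_lit 493858305440582043680)) (.cons (.rf (nat_lit 29) (nat_lit 9668993)) (.cons (.br (nat_lit 12) (nat_lit 1) (.cons (.br (nat_lit 9) (nat_lit 1) (.cons (.rf (nat_lit 84) (nat_lit 14236916801)) (.cons (.br (nat_lit 11) (nat_lit 1) (.cons (.rf (nat_lit 4323) (nat_lit 493858305440582043680)) (.cons (.rf (nat_lit 4323) (nat_lit 296697474651300923786)) .nil))) (.cons (.rf (nat_lit 84) (nat_lit 9035619404)) .nil)))) (.cons (.rf (nat_lit 58) (nat_lit 9837633)) (.cons (.rf (nat_lit 4322) (nat_lit 296697474651300923786)) (.cons (.rf (nat_lit 1343) (nat_lit 275321761826)) .nil))))) .nil)))))) (.cons (.br (nat_lit 8) (nat_lit 1) (.cons (.rf (nat_lit 4327) (nat_lit 493858305440582043680)) (.cons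 (.rf (nat_lit 4330) (nat_lit 493858305440582043680)) (.cons (.rf (nat_lit 4330) (nat_lit 493786318042448403488)) (.cons (.rf (nat_lit 4331) (nat_lit 493858305440582043680)) (.cons (.br (nat_lit 8) (nat_lit 1) (.cons (.rf (nat_lit 4327) (nat_lit 493858305440582043680)) (.cons (.rf (nat_lit 4330) (nat_lit 493858305440582043680)) (.cons (.rf (nat_lit 4330) (nat_lit 493786318042448403488)) (.cons (.rf (nat_lit 4331) (nat_lit 493858305440582043680)) .nil))))) .nil)))))) (.cons (.rf (nat_lit 4275) (nat_lit 296625487253167283594)) (.cons (.rf (nat_lit 4319) (nat_lit 296625487253167283594)) .nil))))))),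
 (.br (nat_lit 13) (nat_lit 1) (.cons (.br (nat_lit 12) (nat_lit 1) (.cons (.ev (nat_lit 20361637766184381788188993126401) (nat_lit 1)) (.cons (.zr (nat_lit 14167099448608969392896) (nat_lit 40564820416229160745115345485825) (nat_lit 5) (nat_lit 0)) (.cons (.zr (nat_lit 928455029680207996878062336) (nat_lit 40564820416229160745098232725505) (nat_lit 5) (nat_lit 0)) .nil)))) (.cons (.kr (nat_lit 79228162514264337593543950337) (nat_lit 1208925819614629174706432) (nat_lit 0) (nat_lit 2)) .nil)))]

theorem c150 : chkAll C T R L150 (nat_lit 4309) = true := by decide +kernel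

theorem l150 : (nat_lit 4309) + L150.length = (nat_lit 4334) := by decide +kernel

/-- part of the certificates -/
def L151 : List Prf := [(.br (nat_lit 13) (nat_lit 1) (.cons (.rf (nat_lit 4333) (nat_lit 493858305440582043680)) (.cons (.rf (nat_lit 4333) (nat_lit 493786318042448403488)) (.cons (.kr (nat_lit 79228162514264337593543950337) (nat_lit 1208925819614629174706432) (nat_lit 0) (nat_lit 2)) .nil)))),
 (.br (nat_lit 13) (nat_lit 1) (.cons (.rf (nat_lit 4334) (nat_lit 493858305440582043680)) (.cons (.br (nat_lit 13) (nat_lit 1) (.cons (.rf (nat_lit 4334) (nat_lit 493858305440582043680)) (.cons (.kr (nat_lit 79228162514264337593543950337) (nat_lit 1208925819614629174706432) (nat_lit 0) (nat_lit 2)) .nil))) (.cons (.kr (nat_lit 79228162514264337593543950337) (nat_lit 1208925819614629174706432) (nat_lit 0) (nat_lit 2)) .nil)))),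
 (.br (nat_lit 13) (nat_lit 1) (.cons (.rf (nat_lit 4334) (nat_lit 493858305440582043680)) (.cons (.rf (nat_lit 4335) (nat_lit 493858305440582043680)) (.cons (.rf (nat_lit 4335) (nat_lit 493786318042448403488)) (.cons (.kr (nat_lit 79228162514264337593543950337) (nat_lit 1208925819614629174706432) (nat_lit 0) (nat_lit 2)) .nil))))),
 (.br (nat_lit 10) (nat_lit 1) (.cons (.ev (nat_lit 72340168526266624) (nat_lit 1)) (.cons (.ev (nat_lit 18518802771554074624) (nat_lit 1)) (.cons (.br (nat_lit 10) (nat_lit 1) (.cons (.ev (nat_lit 72340168526266624) (nat_lit 1)) (.cons (.ev (nat_lit 18518802771554074624) (nat_lit 1)) .nil))) .nil)))),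
 (.br (nat_lit 8) (nat_lit 1) (.cons (.rf (nat_lit 3281) (nat_lit 481087335833995296)) (.cons (.rf (nat_lit 4337) (nat_lit 15071359418963008)) (.cons (.br (nat_lit 12) (nat_lit 1) (.cons (.br (nat_lit 13) (nat_lit 1) (.cons (.zr (nat_lit 14167099448613264359424) (nat_lit 158457533991242060538170048513) (nat_lit 5) (nat_lit 5)) (.cons (.zr (nat_lit 928455029680207996894838784) (nat_lit 158457533991242060538170048513) (nat_lit 5) (nat_lit 6)) .nil))) (.cons (.ev (nat_lit 1213666632841572529537024) (nat_lit 1)) (.cons (.ev (nat_lit 310693954159761365646966784) (nat_lit 1)) (.cons (.rf (nat_lit 4336) (nat_lit 296697474651300923786)) .nil))))) .nil)))),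
 (.br (nat_lit 1) (nat_lit 1) (.cons (.rf (nat_lit 84) (nat_lit 9905023010)) (.cons (.rf (nat_lit 84) (nat_lit 9872675874)) (.cons (.rf (nat_lit 3723) (nat_lit 12641371006568480)) (.cons (.br (nat_lit 6) (nat_lit 1) (.cons (.rf (nat_lit 4337) (nat_lit 12746920901610560)) (.cons (.rf (nat_lit 4091) (nat_lit 395010493223968)) .nil))) .nil))))),
 (.br (nat_lit 8) (nat_lit 1) (.cons (.rf (nat_lit 4336) (nat_lit 493858305440582043680)) (.cons (.rf (nat_lit 4338) (nat_lit 493858305440582043680)) (.cons (.rf (nat_lit 4339) (nat_lit 482283501406816288)) (.cons (.br (nat_lit 8) (nat_lit 1) (.cons (.rf (nat_lit 4336) (nat_lit 493858305440582043680)) (.cons (.rf (nat_lit 4338) (nat_lit 493858305440582043680)) (.cons (.rf (nat_lit 4339) (nat_lit 482283501406816288)) .nil)))) .nil))))),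
 (.br (nat_lit 8) (nat_lit 1) (.cons (.rf (nat_lit 4336) (nat_lit 493858305440582043680)) (.cons (.rf (nat_lit 4339) (nat_lit 482283501406816288)) (.cons (.rf (nat_lit 4339) (nat_lit 482213201213332512)) (.cons (.br (nat_lit 8) (nat_lit 1) (.cons (.rf (nat_lit 4336) (nat_lit 493858305440582043680)) (.cons (.rf (nat_lit 4339) (nat_lit 482283501406816288)) (.cons (.rf (nat_lit 4339) (nat_lit 482213201213332512)) .nil)))) .nil))))),
 (.br (nat_lit 10) (nat_lit 1) (.cons (.br (nat_lit 3) (nat_lit 1) (.cons (.br (nat_lit 12) (nat_lit 0) (.cons (.br (nat_lit 2) (nat_lit 1) (.cons (.rf (nat_lit 4275) (nat_lit 493858305440582043680)) (.cons (.kr (nat_lit 16842752) (nat_lit 72057598332895232) (nat_lit 2) (nat_lit 0)) (.cons (.rf (nat_lit 4319) (nat_lit 493858305440582043680)) (.cons (.rf (nat_lit 4332) (nat_lit 493858305440582043680)) (.cons (.br (nat_lit 7) (nat_lit 1) (.cons (.rf (nat_lit 4275) (nat_lit 493786318042448403488)) (.cons (.rf (nat_lit 4319) (nat_lit 493786318042448403488)) (.cons (.br (nat_lit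 8) (nat_lit 1) (.cons (.rf (nat_lit 4336) (nat_lit 493858305440582043680)) (.cons (.rf (nat_lit 4340) (nat_lit 493858305440582043680)) (.cons (.rf (nat_lit 4340) (nat_lit 493786318042448403488)) (.cons (.rf (nat_lit 4341) (nat_lit 493858305440582043680)) (.cons (.br (nat_lit 8) (nat_lit 1) (.cons (.rf (nat_lit 4336) (nat_lit 493858305440582043680)) (.cons (.rf (nat_lit 4340) (nat_lit 493858305440582043680)) (.cons (.rf (nat_lit 4340) (nat_lit 493786318042448403488)) (.cons (.rf (nat_lit 4341) (nat_lit 493858305440582043680)) .nil))))) .nil)))))) (.cons (.rf (nat_lit 4332) (nat_lit 493786318042448403488)) (.cons (.rf (nat_lit 4275) (nat_lit 296625487253167283594)) (.cons (.rf (nat_lit 4319) (nat_lit 296625487253167283594)) .nil))))))) (.cons (.rf (nat_lit 4275) (nat_lit 296697474651300923786)) (.cons (.rf (nat_lit 4319) (nat_lit 296697474651300923786)) .nil)))))))) .nil)) .nil)) .nil)),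
 (.br (nat_lit 7) (nat_lit 0) (.cons (.rf (nat_lit 4245) (nat_lit 325702574508064)) (.cons (.rf (nat_lit 4261) (nat_lit 325702574508064)) (.cons (.br (nat_lit 6) (nat_lit 1) (.cons (.rf (nat_lit 2406) (nat_lit 9042184505376)) (.cons (.rf (nat_lit 4114) (nat_lit 395898478795808)) (.cons (.br (nat_lit 2) (nat_lit 0) (.cons (.rf (nat_lit 4261) (nat_lit 395898478795808)) (.cons (.rf (nat_lit 4245) (nat_lit 395898478795808)) (.cons (.br (nat_lit 10) (nat_lit 1) (.cons (.rf (nat_lit 4342) (nat_lit 14242959524133701664)) (.cons (.br (nat_lit 10) (nat_lit 1) (.cons (.rf (nat_lit 4342) (nat_lit 15395881028740548640)) .nil)) .nil))) .nil)))) .nil)))) .nil)))),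
 (.br (nat_lit 5) (nat_lit 1) (.cons (.rf (nat_lit 2406) (nat_lit 9043225708576)) (.cons (.rf (nat_lit 4114) (nat_lit 325702574508064)) (.cons (.br (nat_lit 7) (nat_lit 0) (.cons (.rf (nat_lit 4245) (nat_lit 325702574508064)) (.cons (.rf (nat_lit 4261) (nat_lit 325702574508064)) (.cons (.rf (nat_lit 4343) (nat_lit 325702574508064)) (.cons (.br (nat_lit 7) (nat_lit 0) (.cons (.rf (nat_lit 4245) (nat_lit 325702574508064)) (.cons (.rf (nat_lit 4261) (nat_lit 325702574508064)) (.cons (.rf (nat_lit 4343) (nat_lit 325702574508064)) .nil)))) .nil))))) .nil)))),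
 (.br (nat_lit 2) (nat_lit 0) (.cons (.br (nat_lit 7) (nat_lit 0) (.cons (.br (nat_lit 9) (nat_lit 0) (.cons (.br (nat_lit 12) (nat_lit 1) (.cons (.rf (nat_lit 4344) (nat_lit 14538571417900)) .nil)) .nil)) .nil)) .nil)),
 (.br (nat_lit 7) (nat_lit 0) (.cons (.rf (nat_lit 4345) (nat_lit 407901468851537952)) (.cons (.br (nat_lit 7) (nat_lit 0) (.cons (.rf (nat_lit 4345) (nat_lit 407901468851537952)) .nil)) .nil))),
 (.br (nat_lit 6) (nat_lit 1) (.cons (.rf (nat_lit 4344) (nat_lit 9042184505376)) (.cons (.rf (nat_lit 4344) (nat_lit 8870385818656)) (.cons (.br (nat_lit 2) (nat_lit 0) (.cons (.rf (nat_lit 4346) (nat_lit 407901468851537952)) (.cons (.rf (nat_lit 4346) (nat_lit 372998570698213408)) (.cons (.br (nat_lit 2) (nat_lit 0) (.cons (.rf (nat_lit 4346) (nat_lit 407901468851537952)) (.cons (.rf (nat_lit 4346) (nat_lit 372998570698213408)) .nil))) .nil)))) .nil)))),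
 (.br (nat_lit 11) (nat_lit 1) (.cons (.rf (nat_lit 4241) (nat_lit 11866148707595524128)) .nil)),
 (.br (nat_lit 7) (nat_lit 0) (.cons (.br (nat_lit 9) (nat_lit 0) (.cons (.rf (nat_lit 4348) (nat_lit 482283468086184992)) .nil)) (.cons (.rf (nat_lit 4348) (nat_lit 482283465938701344)) .nil))),
 (.br (nat_lit 2) (nat_lit 0) (.cons (.rf (nat_lit 4349) (nat_lit 14242959524133701664)) (.cons (.rf (nat_lit 4349) (nat_lit 14242959524132685856)) (.cons (.rf (nat_lit 4348) (nat_lit 482283460569992224)) .nil)))),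
 (.br (nat_lit 5) (nat_lit 1) (.cons (.rf (nat_lit 4344) (nat_lit 9043225708576)) (.cons (.rf (nat_lit 4344) (nat_lit 8871427021856)) (.cons (.br (nat_lit 6) (nat_lit 1) (.cons (.rf (nat_lit 4344) (nat_lit 9042184505376)) (.cons (.rf (nat_lit 4344) (nat_lit 8870385818656)) (.cons (.rf (nat_lit 4347) (nat_lit 11584701642934304)) (.cons (.br (nat_lit 6) (nat_lit 1) (.cons (.rf (nat_lit 4344) (nat_lit 9042184505376)) (.cons (.rf (nat_lit 4344) (nat_lit 8870385818656)) (.cons (.rf (nat_lit 4347) (nat_lit 11584701642934304)) (.cons (.rf (nat_lit 4350) (nat_lit 14242959524133701664)) .nil))))) .nil))))) .nil)))),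
 (.br (nat_lit 5) (nat_lit 1) (.cons (.rf (nat_lit 4344) (nat_lit 9043225708576)) (.cons (.rf (nat_lit 4344) (nat_lit 8871427021856)) (.cons (.rf (nat_lit 4351) (nat_lit 325702574508064)) (.cons (.br (nat_lit 6) (nat_lit 1) (.cons (.rf (nat_lit 4344) (nat_lit 9042184505376)) (.cons (.rf (nat_lit 4344) (nat_lit 8870385818656)) (.cons (.rf (nat_lit 4351) (nat_lit 360885905393696)) (.cons (.br (nat_lit 5) (nat_lit 1) (.cons (.rf (nat_lit 4344) (nat_lit 9043225708576)) (.cons (.rf (nat_lit 4344) (nat_lit 8871427021856)) (.cons (.rf (nat_lit 4351) (nat_lit 396071318685728)) (.cons (.br (nat_lit 6) (nat_lit 1) (.cons (.rf (nat_lit 4344) (nat_lit 9042184505376)) (.cons (.rf (nat_lit 4344) (nat_lit 8870385818656)) (.cons (.rf (nat_lit 4351) (nat_lit 431254649571360)) .nil)))) .nil))))) .nil))))) .nil))))),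
 (.br (nat_lit 11) (nat_lit 1) (.cons (.rf (nat_lit 31) (nat_lit 414489665)) (.cons (.zr (nat_lit 928469196563483815109985024) (nat_lit 1208962713385355393892353) (nat_lit 5) (nat_lit 10)) .nil))),
 (.br (nat_lit 9) (nat_lit 1) (.cons (.ev (nat_lit 1213666705180645839077633) (nat_lit 1)) (.cons (.rf (nat_lit 4353) (nat_lit 493858305440582043680)) (.cons (.rf (nat_lit 4353) (nat_lit 458117738797769787424)) .nil)))),
 (.br (nat_lit 8) (nat_lit 1) (.cons (.rf (nat_lit 1593) (nat_lit 424373658689)) (.cons (.rf (nat_lit 1593) (nat_lit 424440765505)) (.cons (.br (nat_lit 7) (nat_lit 1) (.cons (.zr (nat_lit 4740957342131430752512) (nat_lit 1208925819897207974789121) (nat_lit 5) (nat_lit 0)) (.cons (.rf (nat_lit 4354) (nat_lit 493858305440582043680)) (.cons (.rf (nat_lit 4354) (nat_lit 492741412732994160672)) (.cons (.rf (nat_lit 4354) (nat_lit 455883953382594021408)) .nil))))) .nil)))),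
 (.br (nat_lit 8) (nat_lit 1) (.cons (.rf (nat_lit 1625) (nat_lit 14718124432449)) (.cons (.rf (nat_lit 1627) (nat_lit 470979981838368)) (.cons (.rf (nat_lit 4355) (nat_lit 493858305440582043680)) (.cons (.rf (nat_lit 4355) (nat_lit 458117738797769787424)) .nil))))),
 (.br (nat_lit 8) (nat_lit 1) (.cons (.rf (nat_lit 1625) (nat_lit 14718124432449)) (.cons (.rf (nat_lit 1627) (nat_lit 470979981838368)) (.cons (.rf (nat_lit 4356) (nat_lit 493858305440582043680)) (.cons (.rf (nat_lit 4356) (nat_lit 492741412732994160672)) (.cons (.rf (nat_lit 4356) (nat_lit 455883953382594021408)) .nil)))))),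
 (.br (nat_lit 8) (nat_lit 1) (.cons (.br (nat_lit 12) (nat_lit 1) (.cons (.zr (nat_lit 3631499897384351207589123) (nat_lit 1237940113072921727337496576) (nat_lit 10) (nat_lit 0)) (.cons (.rf (nat_lit 1638) (nat_lit 493858305439443321920)) .nil))) (.cons (.br (nat_lit 12) (nat_lit 1) (.cons (.br (nat_lit 11) (nat_lit 1) (.cons (.ev (nat_lit 20522879470505368971845195464968) (nat_lit 4)) .nil)) (.cons (.zr (nat_lit 23612192702318415773955) (nat_lit 316913858982877530160950673408) (nat_lit 10) (nat_lit 0)) .nil))) .nil))),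
 (.br (nat_lit 13) (nat_lit 1) (.cons (.rf (nat_lit 4358) (nat_lit 493858305440582043680)) (.cons (.br (nat_lit 12) (nat_lit 1) (.cons (.zr (nat_lit 237686905394432242038981460736) (nat_lit 101412048018258352402315056513025) (nat_lit 5) (nat_lit 0)) (.cons (.zr (nat_lit 237684487542793012780632048384) (nat_lit 40564820416229160745102477361153) (nat_lit 5) (nat_lit 0)) (.cons (.ev (nat_lit 79537647524085683761797136641) (nat_lit 1)) .nil)))) .nil))),
 (.br (nat_lit 13) (nat_lit 1) (.cons (.rf (nat_lit 4358) (nat_lit 493858305440582043680)) (.cons (.rf (nat_lit 4359) (nat_lit 493858305440582043680)) (.cons (.br (nat_lit 13) (nat_lit 1) (.cons (.rf (nat_lit 4358) (nat_lit 493858305440582043680)) (.cons (.rf (nat_lit 4359) (nat_lit 493858305440582043680)) .nil))) .nil)))),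
 (.br (nat_lit 8) (nat_lit 1) (.cons (.br (nat_lit 8) (nat_lit 1) (.cons (.rf (nat_lit 3170) (nat_lit 14718116044066)) (.cons (.rf (nat_lit 4360) (nat_lit 493858305440582043680)) .nil))) (.cons (.br (nat_lit 8) (nat_lit 1) (.cons (.rf (nat_lit 3170) (nat_lit 14718116044066)) (.cons (.rf (nat_lit 4360) (nat_lit 493858305440582043680)) .nil))) (.cons (.rf (nat_lit 4360) (nat_lit 493858305440582043680)) .nil)))),
 (.br (nat_lit 13) (nat_lit 1) (.cons (.rf (nat_lit 4360) (nat_lit 493858305440582043680)) (.cons (.rf (nat_lit 4361) (nat_lit 493858305440582043680)) (.cons (.br (nat_lit 13) (nat_lit 1) (.cons (.rf (nat_lit 4360) (nat_lit 493858305440582043680)) (.cons (.kr (nat_lit 1208925819614629174706176) (nat_lit 20282409603651670423947251286016) (nat_lit 10) (nat_lit 0)) .nil))) .nil)))),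
 (.br (nat_lit 13) (nat_lit 1) (.cons (.rf (nat_lit 4360) (nat_lit 493858305440582043680)) (.cons (.rf (nat_lit 4361) (nat_lit 493858305440582043680)) (.cons (.rf (nat_lit 4362) (nat_lit 493858305440582043680)) (.cons (.br (nat_lit 13) (nat_lit 1) (.cons (.rf (nat_lit 4360) (nat_lit 493858305440582043680)) (.cons (.rf (nat_lit 4361) (nat_lit 493858305440582043680)) (.cons (.rf (nat_lit 4362) (nat_lit 493858305440582043680)) .nil)))) .nil))))),
 (.br (nat_lit 7) (nat_lit 1) (.cons (.rf (nat_lit 1637) (nat_lit 14718124432418)) (.cons (.rf (nat_lit 1627) (nat_lit 470979713246432)) (.cons (.ev (nat_lit 72339073309671681) (nat_lit 1)) (.cons (.rf (nat_lit 4363) (nat_lit 493858305440582043680)) (.cons (.rf (nat_lit 4363) (nat_lit 458117738797769787424)) .nil)))))),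
 (.br (nat_lit 2) (nat_lit 1) (.cons (.rf (nat_lit 1625) (nat_lit 14718124426466)) (.cons (.br (nat_lit 7) (nat_lit 1) (.cons (.ev (nat_lit 72339073309671681) (nat_lit 1)) (.cons (.rf (nat_lit 29) (nat_lit 8455463)) (.cons (.rf (nat_lit 1637) (nat_lit 14718124427303)) (.cons (.rf (nat_lit 1637) (nat_lit 14684838430759)) (.cons (.rf (nat_lit 1637) (nat_lit 13586400544807)) .nil)))))) (.cons (.rf (nat_lit 1627) (nat_lit 470979713410112)) (.cons (.rf (nat_lit 4364) (nat_lit 493858305440582043680)) (.cons (.rf (nat_lit 4364) (nat_lit 492741412732994160672)) (.cons (.rf (nat_lit 4364) (nat_lit 455883953382594021408)) .nil))))))),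
 (.br (nat_lit 11) (nat_lit 1) (.cons (.ev (nat_lit 79538861190718805714069880833) (nat_lit 1)) (.cons (.zr (nat_lit 928469196779656597223768064) (nat_lit 1208962713385355393892353) (nat_lit 5) (nat_lit 10)) .nil))),
 (.br (nat_lit 7) (nat_lit 1) (.cons (.ev (nat_lit 1213666704900266095869953) (nat_lit 1)) (.cons (.rf (nat_lit 4366) (nat_lit 493858305440582043680)) (.cons (.rf (nat_lit 4366) (nat_lit 458117738797769787424)) .nil)))),
 (.br (nat_lit 8) (nat_lit 1) (.cons (.rf (nat_lit 1593) (nat_lit 424205884705)) (.cons (.rf (nat_lit 1593) (nat_lit 424373651745)) (.cons (.br (nat_lit 2) (nat_lit 1) (.cons (.zr (nat_lit 4740885284537392824832) (nat_lit 1208925819897207974789121) (nat_lit 5) (nat_lit 0)) (.cons (.rf (nat_lit 4367) (nat_lit 493858305440582043680)) (.cons (.rf (nat_lit 4367) (nat_lit 492741412732994160672)) (.cons (.rf (nat_lit 4367) (nat_lit 455883953382594021408)) .nil))))) .nil)))),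
 (.br (nat_lit 8) (nat_lit 1) (.cons (.rf (nat_lit 1627) (nat_lit 470979746964512)) (.cons (.rf (nat_lit 1627) (nat_lit 470979914572832)) (.cons (.rf (nat_lit 4368) (nat_lit 493858305440582043680)) (.cons (.rf (nat_lit 4368) (nat_lit 458117738797769787424)) .nil)))))]

theorem c151 : chkAll C T R L151 (nat_lit 4334) = true := by decide +kernel

theorem l151 : (nat_lit 4334) + L151.length = (nat_lit 4370) := by decide +kernel

/-- part of the certificates -/
def L152 : List Prf := [(.br (nat_lit 8) (nat_lit 1) (.cons (.rf (nat_lit 1627) (nat_lit 470979746964512)) (.cons (.rf (nat_lit 1627) (nat_lit 470979914572832)) (.cons (.rf (nat_lit 4369) (nat_lit 493858305440582043680)) (.cons (.rf (nat_lit 4369) (nat_lit 492741412732994160672)) (.cons (.rf (nat_lit 4369) (nat_lit 455883953382594021408)) .nil)))))),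
 (.br (nat_lit 8) (nat_lit 1) (.cons (.br (nat_lit 12) (nat_lit 1) (.cons (.ev (nat_lit 20282719088661492050495247810561) (nat_lit 1)) .nil)) .nil)),
 (.br (nat_lit 11) (nat_lit 1) (.cons (.rf (nat_lit 84) (nat_lit 13165173794)) (.cons (.rf (nat_lit 84) (nat_lit 9004194857)) (.cons (.br (nat_lit 8) (nat_lit 1) (.cons (.rf (nat_lit 4371) (nat_lit 493858305440582043680)) (.cons (.br (nat_lit 12) (nat_lit 1) (.cons (.rf (nat_lit 4371) (nat_lit 493858305440582043680)) (.cons (.ev (nat_lit 20282719088661492050495247810561) (nat_lit 1)) .nil))) .nil))) .nil)))),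
 (.br (nat_lit 8) (nat_lit 1) (.cons (.br (nat_lit 12) (nat_lit 1) (.cons (.ev (nat_lit 20996401244718092167736973789440) (nat_lit 4)) .nil)) .nil)),
 (.br (nat_lit 9) (nat_lit 1) (.cons (.rf (nat_lit 4372) (nat_lit 493858305440582043680)) (.cons (.ev (nat_lit 309489732260167011679600896) (nat_lit 1)) (.cons (.rf (nat_lit 1343) (nat_lit 275288269889)) (.cons (.br (nat_lit 11) (nat_lit 1) (.cons (.br (nat_lit 8) (nat_lit 1) (.cons (.rf (nat_lit 4373) (nat_lit 493858305440582043680)) (.cons (.br (nat_lit 8) (nat_lit 1) (.cons (.rf (nat_lit 4373) (nat_lit 493858305440582043680)) .nil)) .nil))) (.cons (.rf (nat_lit 84) (nat_lit 14372903977)) (.cons (.rf (nat_lit 84) (nat_lit 13332945954)) .nil)))) .nil))))),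
 (.br (nat_lit 11) (nat_lit 1) (.cons (.zr (nat_lit 3631499897384351207589123) (nat_lit 1237940113072921727337496576) (nat_lit 10) (nat_lit 0)) (.cons (.zr (nat_lit 23611904471942264063235) (nat_lit 1239148965105560061673996288) (nat_lit 10) (nat_lit 0)) .nil))),
 (.br (nat_lit 8) (nat_lit 1) (.cons (.rf (nat_lit 4375) (nat_lit 493858305440582043680)) (.cons (.rf (nat_lit 4375) (nat_lit 492741412526835730656)) .nil))),
 (.br (nat_lit 13) (nat_lit 1) (.cons (.rf (nat_lit 4376) (nat_lit 493858305440582043680)) (.cons (.br (nat_lit 8) (nat_lit 1) (.cons (.ev (nat_lit 20282409608392555989963915657473) (nat_lit 1)) (.cons (.zr (nat_lit 930872881319437246637735936) (nat_lit 101412048018258352402315056513025) (nat_lit 5) (nat_lit 0)) (.cons (.zr (nat_lit 237686905394432242038981460736) (nat_lit 101412048018258352402315056513025) (nat_lit 5) (nat_lit 0)) .nil)))) .nil))),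
 (.br (nat_lit 13) (nat_lit 1) (.cons (.rf (nat_lit 4376) (nat_lit 493858305440582043680)) (.cons (.rf (nat_lit 4377) (nat_lit 493858305440582043680)) (.cons (.rf (nat_lit 4377) (nat_lit 492741412526835730656)) .nil)))),
 (.br (nat_lit 8) (nat_lit 1) (.cons (.kr (nat_lit 1208925819614629174771712) (nat_lit 4740813226943354765312) (nat_lit 2) (nat_lit 0)) (.cons (.rf (nat_lit 4378) (nat_lit 493858305440582043680)) .nil))),
 (.br (nat_lit 8) (nat_lit 1) (.cons (.rf (nat_lit 4379) (nat_lit 493858305440582043680)) (.cons (.rf (nat_lit 4379) (nat_lit 492741412526835730656)) (.cons (.rf (nat_lit 4378) (nat_lit 493858305440582043680)) .nil)))),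
 (.br (nat_lit 13) (nat_lit 1) (.cons (.rf (nat_lit 4378) (nat_lit 493858305440582043680)) (.cons (.rf (nat_lit 4380) (nat_lit 493858305440582043680)) (.cons (.br (nat_lit 13) (nat_lit 1) (.cons (.rf (nat_lit 4378) (nat_lit 493858305440582043680)) (.cons (.kr (nat_lit 1208925819614629174706176) (nat_lit 20282409603651670423947251286016) (nat_lit 10) (nat_lit 0)) .nil))) .nil)))),
 (.br (nat_lit 13) (nat_lit 1) (.cons (.rf (nat_lit 4378) (nat_lit 493858305440582043680)) (.cons (.rf (nat_lit 4380) (nat_lit 493858305440582043680)) (.cons (.rf (nat_lit 4381) (nat_lit 493858305440582043680)) (.cons (.rf (nat_lit 4381) (nat_lit 492741412526835730656)) .nil))))),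
 (.br (nat_lit 2) (nat_lit 1) (.cons (.rf (nat_lit 84) (nat_lit 13262431303)) (.cons (.rf (nat_lit 84) (nat_lit 13165168679)) (.cons (.br (nat_lit 8) (nat_lit 1) (.cons (.rf (nat_lit 84) (nat_lit 12092480577)) (.cons (.br (nat_lit 11) (nat_lit 1) (.cons (.ev (nat_lit 310693954087704871137444096) (nat_lit 1)) (.cons (.ev (nat_lit 309489750706630705645944833) (nat_lit 1)) .nil))) .nil))) (.cons (.br (nat_lit 8) (nat_lit 1) (.cons (.br (nat_lit 13) (nat_lit 1) (.cons (.ev (nat_lit 310693954087704871137444096) (nat_lit 1)) (.cons (.ev (nat_lit 79229371458602754989994541056) (nat_lit 1)) .nil))) (.cons (.br (nat_lit 12) (nat_lit 1) (.cons (.ev (nat_lit 310693954087704871137444096) (nat_lit 1)) (.cons (.ev (nat_lit 20282410812595937064129407287296) (nat_lit 1)) .nil))) .nil))) .nil))))),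
 (.br (nat_lit 8) (nat_lit 1) (.cons (.rf (nat_lit 4382) (nat_lit 493858305440582043680)) (.cons (.rf (nat_lit 4383) (nat_lit 493858305440582043680)) (.cons (.rf (nat_lit 4383) (nat_lit 492741412526835730656)) (.cons (.br (nat_lit 8) (nat_lit 1) (.cons (.rf (nat_lit 4382) (nat_lit 493858305440582043680)) (.cons (.rf (nat_lit 4383) (nat_lit 493858305440582043680)) (.cons (.rf (nat_lit 4383) (nat_lit 492741412526835730656)) .nil)))) .nil))))),
 (.br (nat_lit 8) (nat_lit 1) (.cons (.rf (nat_lit 4382) (nat_lit 493858305440582043680)) (.cons (.rf (nat_lit 4384) (nat_lit 493858305440582043680)) (.cons (.br (nat_lit 9) (nat_lit 1) (.cons (.br (nat_lit 13) (nat_lit 1) (.cons (.zr (nat_lit 928469196779656597223768064) (nat_lit 1208962713385355393892353) (nat_lit 5) (nat_lit 10)) (.cons (.zr (nat_lit 237684501709892461389567492864) (nat_lit 1208962713385355393892353) (nat_lit 5) (nat_lit 10)) .nil))) (.cons (.ev (nat_lit 310693954087704871137444096) (nat_lit 1)) (.cons (.ev (nat_lit 79229371458602754989994541056)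 (nat_lit 1)) (.cons (.br (nat_lit 2) (nat_lit 1) (.cons (.zr (nat_lit 928469196779656597223768064) (nat_lit 1208962713385355393892353) (nat_lit 5) (nat_lit 10)) (.cons (.zr (nat_lit 237684501709892461389567492864) (nat_lit 1208962713385355393892353) (nat_lit 5) (nat_lit 10)) (.cons (.ev (nat_lit 20282410812595937064129407287296) (nat_lit 1)) .nil)))) .nil))))) .nil)))),
 (.br (nat_lit 8) (nat_lit 1) (.cons (.rf (nat_lit 4382) (nat_lit 493858305440582043680)) (.cons (.rf (nat_lit 4384) (nat_lit 493858305440582043680)) (.cons (.rf (nat_lit 4385) (nat_lit 493858305440582043680)) (.cons (.br (nat_lit 8) (nat_lit 1) (.cons (.rf (nat_lit 4382) (nat_lit 493858305440582043680)) (.cons (.rf (nat_lit 4384) (nat_lit 493858305440582043680)) (.cons (.rf (nat_lit 4385) (nat_lit 493858305440582043680)) .nil)))) .nil))))),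
 (.br (nat_lit 8) (nat_lit 1) (.cons (.rf (nat_lit 4382) (nat_lit 493858305440582043680)) (.cons (.rf (nat_lit 4384) (nat_lit 493858305440582043680)) (.cons (.rf (nat_lit 4386) (nat_lit 493858305440582043680)) (.cons (.rf (nat_lit 4386) (nat_lit 492741412526835730656)) (.cons (.br (nat_lit 8) (nat_lit 1) (.cons (.rf (nat_lit 4382) (nat_lit 493858305440582043680)) (.cons (.rf (nat_lit 4384) (nat_lit 493858305440582043680)) (.cons (.rf (nat_lit 4386) (nat_lit 493858305440582043680)) (.cons (.rf (nat_lit 4386) (nat_lit 492741412526835730656)) .nil))))) .nil)))))),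
 (.br (nat_lit 7) (nat_lit 1) (.cons (.rf (nat_lit 4357) (nat_lit 493858305234423613664)) (.cons (.rf (nat_lit 4365) (nat_lit 493858305234423613664)) (.cons (.rf (nat_lit 4370) (nat_lit 493858305234423613664)) (.cons (.br (nat_lit 2) (nat_lit 1) (.cons (.ev (nat_lit 72339073309671681) (nat_lit 1)) (.cons (.rf (nat_lit 29) (nat_lit 11765026)) (.cons (.rf (nat_lit 58) (nat_lit 11765801)) (.cons (.rf (nat_lit 4374) (nat_lit 493858305440582043680)) (.cons (.rf (nat_lit 4374) (nat_lit 458117738797769787424)) .nil)))))) (.cons (.rf (nat_lit 4387) (nat_lit 493858305440582043680)) (.cons (.rf (nat_lit 4387) (nat_lit 458117738797769787424)) .nil))))))),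
 (.br (nat_lit 9) (nat_lit 0) (.cons (.br (nat_lit 10) (nat_lit 1) (.cons (.br (nat_lit 10) (nat_lit 1) (.cons (.br (nat_lit 10) (nat_lit 1) (.cons (.br (nat_lit 1) (nat_lit 1) (.cons (.rf (nat_lit 4357) (nat_lit 493858305440582043680)) (.cons (.kr (nat_lit 256) (nat_lit 72057594037927936) (nat_lit 1) (nat_lit 0)) (.cons (.rf (nat_lit 4365) (nat_lit 493858305440582043680)) (.cons (.rf (nat_lit 4370) (nat_lit 493858305440582043680)) (.cons (.rf (nat_lit 4388) (nat_lit 493858305440582043680)) (.cons (.rf (nat_lit 4388) (nat_lit 492741412732994160672)) (.cons (.rf (nat_lit 4388) (nat_lit 455883953382594021408)) .nil)))))))) .nil)) .nil)) .nil)) .nil)),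
 (.br (nat_lit 9) (nat_lit 0) (.cons (.rf (nat_lit 4389) (nat_lit 325702574508064)) (.cons (.br (nat_lit 9) (nat_lit 0) (.cons (.rf (nat_lit 4389) (nat_lit 325702574508064)) .nil)) .nil))),
 (.br (nat_lit 8) (nat_lit 1) (.cons (.ev (nat_lit 18519083147019223296) (nat_lit 1)) (.cons (.rf (nat_lit 29) (nat_lit 8756289)) (.cons (.rf (nat_lit 1673) (nat_lit 407901467712816192)) .nil)))),
 (.br (nat_lit 8) (nat_lit 1) (.cons (.rf (nat_lit 4391) (nat_lit 11584701642934304)) (.cons (.rf (nat_lit 4391) (nat_lit 10493983962794016)) (.cons (.rf (nat_lit 29) (nat_lit 8756289)) (.cons (.rf (nat_lit 1673) (nat_lit 407901467712816192)) .nil))))),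
 (.br (nat_lit 8) (nat_lit 1) (.cons (.rf (nat_lit 4392) (nat_lit 11584701642934304)) (.cons (.br (nat_lit 8) (nat_lit 1) (.cons (.ev (nat_lit 18519083147019223296) (nat_lit 1)) (.cons (.rf (nat_lit 1676) (nat_lit 407901467712816192)) (.cons (.rf (nat_lit 1673) (nat_lit 407901467712816192)) .nil)))) (.cons (.rf (nat_lit 1676) (nat_lit 407901467712816192)) (.cons (.rf (nat_lit 1673) (nat_lit 407901467712816192)) .nil))))),
 (.br (nat_lit 8) (nat_lit 1) (.cons (.rf (nat_lit 4392) (nat_lit 11584701642934304)) (.cons (.rf (nat_lit 4393) (nat_lit 11584701642934304)) (.cons (.rf (nat_lit 4393) (nat_lit 10493983962794016)) (.cons (.rf (nat_lit 1676) (nat_lit 407901467712816192)) (.cons (.rf (nat_lit 1673) (nat_lit 407901467712816192)) .nil)))))),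
 (.br (nat_lit 10) (nat_lit 1) (.cons (.ev (nat_lit 72339073309671681) (nat_lit 1)) (.cons (.br (nat_lit 10) (nat_lit 1) (.cons (.ev (nat_lit 72339073309671681) (nat_lit 1)) (.cons (.rf (nat_lit 1676) (nat_lit 407901467712816192)) (.cons (.rf (nat_lit 1673) (nat_lit 407901467712816192)) .nil)))) (.cons (.rf (nat_lit 1676) (nat_lit 407901467712816192)) (.cons (.rf (nat_lit 1673) (nat_lit 407901467712816192)) .nil))))),
 (.br (nat_lit 10) (nat_lit 1) (.cons (.ev (nat_lit 72339073309671681) (nat_lit 1)) (.cons (.rf (nat_lit 4395) (nat_lit 11584701642934304)) (.cons (.br (nat_lit 10) (nat_lit 1) (.cons (.ev (nat_lit 72339073309671681) (nat_lit 1)) (.cons (.rf (nat_lit 4395) (nat_lit 11584701642934304)) (.cons (.rf (nat_lit 1676) (nat_lit 407901467712816192)) (.cons (.rf (nat_lit 1673) (nat_lit 407901467712816192)) .nil))))) (.cons (.rf (nat_lit 1676) (nat_lit 407901467712816192)) (.cons (.rf (nat_lit 1673) (nat_lit 407901467712816192)) .nil)))))),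
 (.br (nat_lit 2) (nat_lit 1) (.cons (.rf (nat_lit 4394) (nat_lit 11584495484504288)) (.cons (.rf (nat_lit 1681) (nat_lit 11584700504212544)) (.cons (.rf (nat_lit 4396) (nat_lit 11584701642934304)) (.cons (.rf (nat_lit 4396) (nat_lit 10493983962794016)) (.cons (.rf (nat_lit 1676) (nat_lit 407901467712816192)) (.cons (.rf (nat_lit 1673) (nat_lit 407901467712816192)) .nil))))))),
 (.br (nat_lit 8) (nat_lit 1) (.cons (.ev (nat_lit 18447025552981295104) (nat_lit 1)) (.cons (.rf (nat_lit 82) (nat_lit 11048037441)) (.cons (.rf (nat_lit 1673) (nat_lit 407901467712816192)) .nil)))),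
 (.br (nat_lit 8) (nat_lit 1) (.cons (.br (nat_lit 8) (nat_lit 1) (.cons (.rf (nat_lit 84) (nat_lit 11015658530)) (.cons (.rf (nat_lit 1673) (nat_lit 407901467712816192)) .nil))) (.cons (.rf (nat_lit 84) (nat_lit 11015658530)) (.cons (.rf (nat_lit 1673) (nat_lit 407901467712816192)) .nil)))),
 (.br (nat_lit 7) (nat_lit 1) (.cons (.rf (nat_lit 4394) (nat_lit 11584495484504288)) (.cons (.rf (nat_lit 4397) (nat_lit 11584495484504288)) (.cons (.br (nat_lit 2) (nat_lit 1) (.cons (.br (nat_lit 10) (nat_lit 1) (.cons (.rf (nat_lit 4398) (nat_lit 11584701642934304)) (.cons (.br (nat_lit 8) (nat_lit 1) (.cons (.rf (nat_lit 4398) (nat_lit 11584701642934304)) (.cons (.rf (nat_lit 82) (nat_lit 11015658530)) (.cons (.rf (nat_lit 1673) (nat_lit 407901467712816192)) .nil)))) (.cons (.rf (nat_lit 1676) (nat_lit 407901467712816192)) (.cons (.rf (nat_lit 1673) (nat_lit 407901467712816192)) .nil))))) (.cons (.ev (nat_lit 4722438541567506514176) (nat_lit 1)) (.cons (.br (nat_lit 8) (nat_lit 1) (.cons (.rf (nat_lit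 4399) (nat_lit 11584701642934304)) (.cons (.br (nat_lit 8) (nat_lit 1) (.cons (.rf (nat_lit 4399) (nat_lit 11584701642934304)) (.cons (.rf (nat_lit 1676) (nat_lit 407901467712816192)) (.cons (.rf (nat_lit 1673) (nat_lit 407901467712816192)) .nil)))) (.cons (.rf (nat_lit 1676) (nat_lit 407901467712816192)) (.cons (.rf (nat_lit 1673) (nat_lit 407901467712816192)) .nil))))) (.cons (.rf (nat_lit 29) (nat_lit 9667938)) (.cons (.rf (nat_lit 1673) (nat_lit 407901467712816192)) .nil)))))) (.cons (.rf (nat_lit 1689) (nat_lit 11584700504212544)) (.cons (.rf (nat_lit 1676) (nat_lit 407901467712816192)) (.cons (.rf (nat_lit 1673) (nat_lit 407901467712816192)) .nil))))))),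
 (.br (nat_lit 8) (nat_lit 1) (.cons (.br (nat_lit 11) (nat_lit 1) (.cons (.ev (nat_lit 309485028340429315255566593) (nat_lit 1)) (.cons (.ev (nat_lit 40565132319127514525011106005505) (nat_lit 2)) .nil))) (.cons (.br (nat_lit 12) (nat_lit 1) (.cons (.br (nat_lit 11) (nat_lit 1) (.cons (.ev (nat_lit 21475487671569078861129163539202) (nat_lit 4)) .nil)) (.cons (.ev (nat_lit 79228162514336677766365184256) (nat_lit 1)) .nil))) .nil))),
 (.br (nat_lit 13) (nat_lit 1) (.cons (.rf (nat_lit 4401) (nat_lit 493858305440582043680)) (.cons (.br (nat_lit 8) (nat_lit 1) (.cons (.br (nat_lit 11) (nat_lit 1) (.cons (.ev (nat_lit 309499232261028097845887491) (nat_lit 2)) .nil)) (.cons (.br (nat_lit 10) (nat_lit 1) (.cons (.ev (nat_lit 1208944338698871427367168) (nat_lit 1)) .nil)) (.cons (.ev (nat_lit 79228162514336677766365184256) (nat_lit 1)) .nil)))) .nil))),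
 (.br (nat_lit 13) (nat_lit 1) (.cons (.rf (nat_lit 4401) (nat_lit 493858305440582043680)) (.cons (.rf (nat_lit 4402) (nat_lit 493858305440582043680)) (.cons (.br (nat_lit 13) (nat_lit 1) (.cons (.rf (nat_lit 4401) (nat_lit 493858305440582043680)) (.cons (.rf (nat_lit 4402) (nat_lit 493858305440582043680)) .nil))) .nil)))),
 (.br (nat_lit 8) (nat_lit 1) (.cons (.br (nat_lit 8) (nat_lit 1) (.cons (.ev (nat_lit 1208944338698871427367168) (nat_lit 1)) (.cons (.rf (nat_lit 4403) (nat_lit 493858305440582043680)) .nil))) (.cons (.br (nat_lit 8) (nat_lit 1) (.cons (.ev (nat_lit 1208944338698871427367168) (nat_lit 1)) (.cons (.rf (nat_lit 4403) (nat_lit 493858305440582043680)) .nil))) (.cons (.rf (nat_lit 4403) (nat_lit 493858305440582043680)) .nil))))]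

theorem c152 : chkAll C T R L152 (nat_lit 4370) = true := by decide +kernel

theorem l152 : (nat_lit 4370) + L152.length = (nat_lit 4405) := by decide +kernel

/-- part of the certificates -/
def L153 : List Prf := [(.br (nat_lit 13) (nat_lit 1) (.cons (.rf (nat_lit 4403) (nat_lit 493858305440582043680)) (.cons (.rf (nat_lit 4404) (nat_lit 493858305440582043680)) (.cons (.br (nat_lit 13) (nat_lit 1) (.cons (.rf (nat_lit 4403) (nat_lit 493858305440582043680)) (.cons (.rf (nat_lit 4404) (nat_lit 493858305440582043680)) .nil))) .nil)))),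
 (.br (nat_lit 13) (nat_lit 1) (.cons (.rf (nat_lit 4403) (nat_lit 493858305440582043680)) (.cons (.rf (nat_lit 4404) (nat_lit 493858305440582043680)) (.cons (.rf (nat_lit 4405) (nat_lit 493858305440582043680)) (.cons (.br (nat_lit 13) (nat_lit 1) (.cons (.rf (nat_lit 4403) (nat_lit 493858305440582043680)) (.cons (.rf (nat_lit 4404) (nat_lit 493858305440582043680)) (.cons (.rf (nat_lit 4405) (nat_lit 493858305440582043680)) .nil)))) .nil))))),
 (.br (nat_lit 12) (nat_lit 1) (.cons (.rf (nat_lit 84) (nat_lit 12092221666)) (.cons (.ev (nat_lit 79229371440083953326525317376) (nat_lit 1)) (.cons (.br (nat_lit 7) (nat_lit 1) (.cons (.ev (nat_lit 79229376180969519334616531200) (nat_lit 1)) (.cons (.br (nat_lit 8) (nat_lit 1) (.cons (.rf (nat_lit 84) (nat_lit 13164911690)) (.cons (.ev (nat_lit 1208944338698871427367168) (nat_lit 1)) .nil))) (.cons (.br (nat_lit 11) (nat_lit 1) (.cons (.ev (nat_lit 1208944338698871427367168) (nat_lit 1)) (.cons (.br (nat_lit 8) (nat_lit 1) (.cons (.ev (nat_lit 1208944338698871427367168)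 (nat_lit 1)) .nil)) .nil))) .nil)))) .nil)))),
 (.br (nat_lit 12) (nat_lit 1) (.cons (.rf (nat_lit 4406) (nat_lit 493858305440582043680)) (.cons (.ev (nat_lit 79229371440083953326525317376) (nat_lit 1)) (.cons (.br (nat_lit 7) (nat_lit 1) (.cons (.br (nat_lit 10) (nat_lit 1) (.cons (.rf (nat_lit 82) (nat_lit 13262724130)) (.cons (.br (nat_lit 11) (nat_lit 1) (.cons (.ev (nat_lit 20680101468142008141644847974148) (nat_lit 3)) .nil)) .nil))) (.cons (.br (nat_lit 8) (nat_lit 1) (.cons (.zr (nat_lit 3631518272633780832305664) (nat_lit 158456325028672791478987128833) (nat_lit 5) (nat_lit 5)) (.cons (.zr (nat_lit 1208962785160370631868672) (nat_lit 158456325028528676290911272961) (nat_lit 5) (nat_lit 0)) .nil))) (.cons (.ev (nat_lit 309489732187829037898400001) (nat_lit 1)) (.cons (.br (nat_lit 8) (nat_lit 1) (.cons (.br (nat_lit 11) (nat_lit 1) (.cons (.ev (nat_lit 620183686276094664244264962) (nat_lit 2)) .nil)) (.cons (.ev (nat_lit 309485028340429315255566593) (nat_lit 1)) (.cons (.ev (nat_lit 20361637770906748271058655117313)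 (nat_lit 1)) .nil)))) .nil))))) .nil)))),
 (.br (nat_lit 12) (nat_lit 1) (.cons (.rf (nat_lit 4406) (nat_lit 493858305440582043680)) (.cons (.rf (nat_lit 4407) (nat_lit 493858305440582043680)) (.cons (.rf (nat_lit 4408) (nat_lit 493858305440582043680)) (.cons (.br (nat_lit 12) (nat_lit 1) (.cons (.ev (nat_lit 79228162514336677766365184256) (nat_lit 1)) (.cons (.rf (nat_lit 4407) (nat_lit 493858305440582043680)) (.cons (.rf (nat_lit 4408) (nat_lit 493858305440582043680)) .nil)))) .nil))))),
 (.br (nat_lit 12) (nat_lit 1) (.cons (.kr (nat_lit 4722366482869645213696) (nat_lit 79228162514264337593543950336) (nat_lit 9) (nat_lit 0)) (.cons (.ev (nat_lit 79229371440083953326525317376) (nat_lit 1)) (.cons (.br (nat_lit 11) (nat_lit 1) (.cons (.ev (nat_lit 309489732187829037898400001) (nat_lit 1)) (.cons (.ev (nat_lit 158767018964170197839252619267) (nat_lit 2)) (.cons (.ev (nat_lit 79537647524085683761797136641) (nat_lit 1)) .nil)))) .nil)))),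
 (.br (nat_lit 12) (nat_lit 1) (.cons (.rf (nat_lit 4406) (nat_lit 493858305440582043680)) (.cons (.rf (nat_lit 4409) (nat_lit 493858305440582043680)) (.cons (.rf (nat_lit 4410) (nat_lit 493858305440582043680)) (.cons (.br (nat_lit 12) (nat_lit 1) (.cons (.rf (nat_lit 4406) (nat_lit 493858305440582043680)) (.cons (.rf (nat_lit 4409) (nat_lit 493858305440582043680)) (.cons (.rf (nat_lit 4410) (nat_lit 493858305440582043680)) .nil)))) .nil))))),
 (.br (nat_lit 12) (nat_lit 1) (.cons (.rf (nat_lit 4406) (nat_lit 493858305440582043680)) (.cons (.rf (nat_lit 4409) (nat_lit 493858305440582043680)) (.cons (.rf (nat_lit 4411) (nat_lit 493858305440582043680)) (.cons (.br (nat_lit 12) (nat_lit 1) (.cons (.rf (nat_lit 4406) (nat_lit 493858305440582043680)) (.cons (.rf (nat_lit 4409) (nat_lit 493858305440582043680)) (.cons (.rf (nat_lit 4411) (nat_lit 493858305440582043680)) .nil)))) .nil))))),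
 (.br (nat_lit 12) (nat_lit 1) (.cons (.rf (nat_lit 4406) (nat_lit 493858305440582043680)) (.cons (.rf (nat_lit 4409) (nat_lit 493858305440582043680)) (.cons (.rf (nat_lit 4411) (nat_lit 493858305440582043680)) (.cons (.rf (nat_lit 4412) (nat_lit 493858305440582043680)) (.cons (.br (nat_lit 12) (nat_lit 1) (.cons (.rf (nat_lit 4406) (nat_lit 493858305440582043680)) (.cons (.rf (nat_lit 4409) (nat_lit 493858305440582043680)) (.cons (.rf (nat_lit 4411) (nat_lit 493858305440582043680)) (.cons (.rf (nat_lit 4412) (nat_lit 493858305440582043680)) .nil))))) .nil)))))),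
 (.br (nat_lit 11) (nat_lit 1) (.cons (.rf (nat_lit 2594) (nat_lit 9000298561)) (.cons (.kr (nat_lit 4722366482869645213696) (nat_lit 309485009821345068724781056) (nat_lit 9) (nat_lit 0)) (.cons (.br (nat_lit 8) (nat_lit 1) (.cons (.zr (nat_lit 9518520504992789431296) (nat_lit 618970019642698933542649863) (nat_lit 15) (nat_lit 3)) (.cons (.br (nat_lit 12) (nat_lit 1) (.cons (.ev (nat_lit 79537652264971249778444730625) (nat_lit 1)) (.cons (.ev (nat_lit 79228162532783421840074735873) (nat_lit 1)) .nil))) (.cons (.zr (nat_lit 28407986436471370286080) (nat_lit 1856910058928079208441774087) (nat_lit 15) (nat_lit 3)) .nil)))) .nil)))),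
 (.br (nat_lit 11) (nat_lit 1) (.cons (.br (nat_lit 12) (nat_lit 1) (.cons (.kr (nat_lit 79537647524085682662268797184) (nat_lit 20282410812596008840244173471744) (nat_lit 1) (nat_lit 0)) .nil)) .nil)),
 (.br (nat_lit 8) (nat_lit 1) (.cons (.rf (nat_lit 31) (nat_lit 377718082)) (.cons (.br (nat_lit 11) (nat_lit 1) (.cons (.rf (nat_lit 4415) (nat_lit 493858305440582043680)) (.cons (.br (nat_lit 12) (nat_lit 1) (.cons (.rf (nat_lit 4415) (nat_lit 493858305440582043680)) (.cons (.zr (nat_lit 20282410826744590331610342425856) (nat_lit 74075208900077944834) (nat_lit 10) (nat_lit 6)) .nil))) .nil))) .nil))),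
 (.br (nat_lit 11) (nat_lit 1) (.cons (.rf (nat_lit 84) (nat_lit 14238656738)) (.cons (.br (nat_lit 8) (nat_lit 1) (.cons (.ev (nat_lit 310698676526526809797361920) (nat_lit 1)) (.cons (.br (nat_lit 13) (nat_lit 1) (.cons (.rf (nat_lit 1921) (nat_lit 493858305439441290304)) (.cons (.zr (nat_lit 9444732965739290624768) (nat_lit 158456325028528957765887983617) (nat_lit 5) (nat_lit 0)) .nil))) (.cons (.br (nat_lit 10) (nat_lit 1) (.cons (.br (nat_lit 12) (nat_lit 1) (.cons (.zr (nat_lit 18889465931478581052160) (nat_lit 159075295048171647903337545729) (nat_lit 5) (nat_lit 0)) .nil)) (.cons (.ev (nat_lit 1208944338698871427367168) (nat_lit 1)) .nil))) .nil)))) (.cons (.ev (nat_lit 309485009893685241546014976) (nat_lit 1)) .nil)))),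
 (.br (nat_lit 11) (nat_lit 1) (.cons (.rf (nat_lit 4417) (nat_lit 493858305440582043680)) (.cons (.kr (nat_lit 4722366482869645213696) (nat_lit 309485009821345068724781056) (nat_lit 9) (nat_lit 0)) (.cons (.br (nat_lit 10) (nat_lit 1) (.cons (.br (nat_lit 8) (nat_lit 1) (.cons (.br (nat_lit 12) (nat_lit 1) (.cons (.zr (nat_lit 9444732965739290624768) (nat_lit 158456325028528957765887983617) (nat_lit 5) (nat_lit 0)) .nil)) (.cons (.ev (nat_lit 20282410812577562097269992390656) (nat_lit 1)) .nil))) (.cons (.br (nat_lit 12) (nat_lit 1) (.cons (.zr (nat_lit 18889465931478581052160) (nat_lit 159075295048171647903337545729) (nat_lit 5) (nat_lit 0)) (.cons (.ev (nat_lit 20282410812577562097269992390656) (nat_lit 1)) .nil))) (.cons (.ev (nat_lit 20282720302309749925208362385408) (nat_lit 1)) .nil)))) .nil)))),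
 (.br (nat_lit 2) (nat_lit 1) (.cons (.br (nat_lit 11) (nat_lit 1) (.cons (.rf (nat_lit 1339) (nat_lit 392259770593)) (.cons (.rf (nat_lit 1343) (nat_lit 422352005345)) (.cons (.rf (nat_lit 4414) (nat_lit 493858305440582043680)) (.cons (.br (nat_lit 11) (nat_lit 1) (.cons (.ev (nat_lit 309485009893685241546014976) (nat_lit 1)) (.cons (.rf (nat_lit 82) (nat_lit 14238689505)) (.cons (.rf (nat_lit 4414) (nat_lit 493858305440582043680)) .nil)))) .nil))))) (.cons (.br (nat_lit 8) (nat_lit 1) (.cons (.rf (nat_lit 31) (nat_lit 377718082)) (.cons (.rf (nat_lit 4416) (nat_lit 493858305440582043680)) (.cons (.br (nat_lit 8) (nat_lit 1) (.cons (.rf (nat_lit 31) (nat_lit 377718082)) (.cons (.rf (nat_lit 4416) (nat_lit 493858305440582043680)) .nil))) .nil)))) (.cons (.rf (nat_lit 4413) (nat_lit 493858305440582043680)) (.cons (.rf (nat_lit 4413) (nat_lit 492741412732994160672)) (.cons (.br (nat_lit 11) (nat_lit 1) (.cons (.rf (nat_lit 4417) (nat_lit 493858305440582043680)) (.cons (.rf (nat_lit 2305) (nat_lit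 13580763572449)) (.cons (.rf (nat_lit 4418) (nat_lit 493858305440582043680)) (.cons (.br (nat_lit 11) (nat_lit 1) (.cons (.ev (nat_lit 309485009893685241546014976) (nat_lit 1)) (.cons (.rf (nat_lit 84) (nat_lit 9037752545)) (.cons (.rf (nat_lit 4418) (nat_lit 493858305440582043680)) .nil)))) .nil))))) .nil)))))),
 (.br (nat_lit 2) (nat_lit 1) (.cons (.rf (nat_lit 31) (nat_lit 377816290)) (.cons (.rf (nat_lit 1339) (nat_lit 392159107393)) (.cons (.rf (nat_lit 1339) (nat_lit 289083299874)) (.cons (.rf (nat_lit 4413) (nat_lit 492741412732994160672)) (.cons (.br (nat_lit 7) (nat_lit 1) (.cons (.rf (nat_lit 84) (nat_lit 14336465954)) (.cons (.rf (nat_lit 84) (nat_lit 14238656738)) (.cons (.rf (nat_lit 4419) (nat_lit 492741412732994160672)) (.cons (.br (nat_lit 8) (nat_lit 1) (.cons (.br (nat_lit 11) (nat_lit 1) (.cons (.br (nat_lit 12) (nat_lit 1) (.cons (.zr (nat_lit 9444732965739290624768) (nat_lit 158456325028528957765887983617) (nat_lit 5) (nat_lit 0)) .nil)) (.cons (.ev (nat_lit 310693935640960801706148096)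 (nat_lit 1)) .nil))) (.cons (.ev (nat_lit 1208944338698871427367168) (nat_lit 1)) .nil))) .nil))))) .nil)))))),
 (.br (nat_lit 2) (nat_lit 1) (.cons (.br (nat_lit 12) (nat_lit 1) (.cons (.ev (nat_lit 309485028340429315255566593) (nat_lit 1)) (.cons (.zr (nat_lit 237684487542793012780632048384) (nat_lit 618974742009455585894858753) (nat_lit 5) (nat_lit 0)) .nil))) (.cons (.ev (nat_lit 1213666632842676336132353) (nat_lit 1)) (.cons (.rf (nat_lit 4413) (nat_lit 492741412732994160672)) (.cons (.zr (nat_lit 9444732965739290624768) (nat_lit 618970019642972716249645057) (nat_lit 5) (nat_lit 0)) .nil))))),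
 (.br (nat_lit 11) (nat_lit 1) (.cons (.rf (nat_lit 4413) (nat_lit 493858305440582043680)) (.cons (.rf (nat_lit 4419) (nat_lit 493858305440582043680)) (.cons (.rf (nat_lit 4420) (nat_lit 493858305440582043680)) (.cons (.br (nat_lit 12) (nat_lit 1) (.cons (.rf (nat_lit 4413) (nat_lit 492741412732994160672)) (.cons (.rf (nat_lit 4419) (nat_lit 492741412732994160672)) (.cons (.br (nat_lit 2) (nat_lit 1) (.cons (.ev (nat_lit 309485028340429315255566593) (nat_lit 1)) (.cons (.rf (nat_lit 1593) (nat_lit 424171281730)) (.cons (.rf (nat_lit 4413) (nat_lit 492741412732994160672)) (.cons (.zr (nat_lit 9444732965739290624768) (nat_lit 618970019642972716249645057) (nat_lit 5) (nat_lit 0)) .nil))))) (.cons (.rf (nat_lit 4421) (nat_lit 493858305440582043680)) (.cons (.br (nat_lit 12) (nat_lit 1) (.cons (.rf (nat_lit 4413) (nat_lit 492741412732994160672)) (.cons (.rf (nat_lit 4419) (nat_lit 492741412732994160672)) (.cons (.kr (nat_lit 309485009821345068724781056) (nat_lit 79228162514264337593543950336) (nat_lit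 11) (nat_lit 0)) (.cons (.rf (nat_lit 4421) (nat_lit 493858305440582043680)) .nil))))) .nil)))))) .nil))))),
 (.br (nat_lit 11) (nat_lit 1) (.cons (.rf (nat_lit 4413) (nat_lit 493858305440582043680)) (.cons (.rf (nat_lit 4419) (nat_lit 493858305440582043680)) (.cons (.rf (nat_lit 4420) (nat_lit 493858305440582043680)) (.cons (.rf (nat_lit 4422) (nat_lit 493858305440582043680)) (.cons (.br (nat_lit 11) (nat_lit 1) (.cons (.rf (nat_lit 4413) (nat_lit 493858305440582043680)) (.cons (.ev (nat_lit 309485009893685241546014976) (nat_lit 1)) (.cons (.rf (nat_lit 4420) (nat_lit 493858305440582043680)) (.cons (.rf (nat_lit 4422) (nat_lit 493858305440582043680)) .nil))))) .nil)))))),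
 (.br (nat_lit 12) (nat_lit 1) (.cons (.rf (nat_lit 4413) (nat_lit 492741412732994160672)) (.cons (.rf (nat_lit 4419) (nat_lit 492741412732994160672)) (.cons (.rf (nat_lit 4423) (nat_lit 492741412732994160672)) (.cons (.br (nat_lit 12) (nat_lit 1) (.cons (.rf (nat_lit 4413) (nat_lit 492741412732994160672)) (.cons (.rf (nat_lit 4419) (nat_lit 492741412732994160672)) (.cons (.rf (nat_lit 4423) (nat_lit 492741412732994160672)) .nil)))) .nil))))),
 (.br (nat_lit 12) (nat_lit 1) (.cons (.rf (nat_lit 4413) (nat_lit 492741412732994160672)) (.cons (.rf (nat_lit 4419) (nat_lit 492741412732994160672)) (.cons (.rf (nat_lit 4423) (nat_lit 492741412732994160672)) (.cons (.rf (nat_lit 4424) (nat_lit 493858305440582043680)) (.cons (.br (nat_lit 12) (nat_lit 1) (.cons (.rf (nat_lit 4413) (nat_lit 492741412732994160672)) (.cons (.rf (nat_lit 4419) (nat_lit 492741412732994160672)) (.cons (.rf (nat_lit 4423) (nat_lit 492741412732994160672)) (.cons (.rf (nat_lit 4424) (nat_lit 493858305440582043680)) .nil))))) .nil)))))),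
 (.br (nat_lit 11) (nat_lit 1) (.cons (.rf (nat_lit 4413) (nat_lit 493858305440582043680)) (.cons (.rf (nat_lit 4419) (nat_lit 493858305440582043680)) (.cons (.rf (nat_lit 4423) (nat_lit 493858305440582043680)) (.cons (.rf (nat_lit 4425) (nat_lit 493858305440582043680)) (.cons (.br (nat_lit 11) (nat_lit 1) (.cons (.rf (nat_lit 4413) (nat_lit 493858305440582043680)) (.cons (.rf (nat_lit 4419) (nat_lit 493858305440582043680)) (.cons (.rf (nat_lit 4423) (nat_lit 493858305440582043680)) (.cons (.rf (nat_lit 4425) (nat_lit 493858305440582043680)) .nil))))) .nil)))))),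
 (.br (nat_lit 11) (nat_lit 1) (.cons (.rf (nat_lit 4413) (nat_lit 493858305440582043680)) (.cons (.rf (nat_lit 4419) (nat_lit 493858305440582043680)) (.cons (.rf (nat_lit 4423) (nat_lit 493858305440582043680)) (.cons (.rf (nat_lit 4425) (nat_lit 493858305440582043680)) (.cons (.rf (nat_lit 4426) (nat_lit 493858305440582043680)) (.cons (.br (nat_lit 11) (nat_lit 1) (.cons (.rf (nat_lit 4413) (nat_lit 493858305440582043680)) (.cons (.rf (nat_lit 4419) (nat_lit 493858305440582043680)) (.cons (.rf (nat_lit 4423) (nat_lit 493858305440582043680)) (.cons (.rf (nat_lit 4425) (nat_lit 493858305440582043680)) (.cons (.rf (nat_lit 4426) (nat_lit 493858305440582043680)) .nil)))))) .nil))))))),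
 (.br (nat_lit 11) (nat_lit 1) (.cons (.rf (nat_lit 1339) (nat_lit 392259934242)) (.cons (.rf (nat_lit 1343) (nat_lit 422357248034)) (.cons (.br (nat_lit 11) (nat_lit 1) (.cons (.rf (nat_lit 2594) (nat_lit 8994007266)) (.cons (.rf (nat_lit 82) (nat_lit 13165111330)) (.cons (.ev (nat_lit 309489732188109417641738241) (nat_lit 1)) .nil)))) (.cons (.br (nat_lit 11) (nat_lit 1) (.cons (.rf (nat_lit 2594) (nat_lit 9027561698)) (.cons (.rf (nat_lit 82) (nat_lit 14238853154)) (.cons (.ev (nat_lit 309489732188109417641738241) (nat_lit 1)) .nil)))) .nil))))),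
 (.br (nat_lit 12) (nat_lit 1) (.cons (.ev (nat_lit 1208944338416301217153024) (nat_lit 1)) (.cons (.zr (nat_lit 9444732965739290624768) (nat_lit 158456325028528957765887983617) (nat_lit 5) (nat_lit 0)) .nil))),
 (.br (nat_lit 8) (nat_lit 1) (.cons (.ev (nat_lit 1208944338416301217153024) (nat_lit 1)) (.cons (.br (nat_lit 11) (nat_lit 1) (.cons (.rf (nat_lit 4429) (nat_lit 493858305440582043680)) (.cons (.br (nat_lit 11) (nat_lit 1) (.cons (.rf (nat_lit 4429) (nat_lit 493858305440582043680)) .nil)) .nil))) (.cons (.rf (nat_lit 84) (nat_lit 12255796298)) .nil))))]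

theorem c153 : chkAll C T R L153 (nat_lit 4405) = true := by decide +kernel

theorem l153 : (nat_lit 4405) + L153.length = (nat_lit 4431) := by decide +kernel

/-- part of the certificates -/
def L154 : List Prf := [(.br (nat_lit 1) (nat_lit 1) (.cons (.kr (nat_lit 1) (nat_lit 18446744073709551616) (nat_lit 0) (nat_lit 1)) (.cons (.ev (nat_lit 1208925891672227507601409) (nat_lit 1)) (.cons (.rf (nat_lit 4428) (nat_lit 493858305440582043680)) (.cons (.rf (nat_lit 4428) (nat_lit 492741412732994160672)) (.cons (.br (nat_lit 10) (nat_lit 1) (.cons (.rf (nat_lit 58) (nat_lit 8723521)) (.cons (.rf (nat_lit 4430) (nat_lit 493858305440582043680)) (.cons (.rf (nat_lit 4430) (nat_lit 492741412732994160672)) (.cons (.rf (nat_lit 1343) (nat_lit 388064618530)) .nil))))) .nil)))))),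
 (.br (nat_lit 11) (nat_lit 1) (.cons (.rf (nat_lit 2594) (nat_lit 8994004290)) (.cons (.rf (nat_lit 2594) (nat_lit 9000289602)) (.cons (.br (nat_lit 1) (nat_lit 1) (.cons (.ev (nat_lit 1208925891672227507601409) (nat_lit 1)) (.cons (.br (nat_lit 12) (nat_lit 1) (.cons (.ev (nat_lit 79229371458530697400234868993) (nat_lit 1)) (.cons (.ev (nat_lit 79228167236631101942460907521) (nat_lit 1)) .nil))) (.cons (.zr (nat_lit 9444732965739290624768) (nat_lit 618970019642972716249645057) (nat_lit 5) (nat_lit 0)) .nil)))) .nil)))),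
 (.br (nat_lit 11) (nat_lit 1) (.cons (.rf (nat_lit 1339) (nat_lit 392159369250)) (.cons (.rf (nat_lit 1339) (nat_lit 391958042850)) (.cons (.rf (nat_lit 4432) (nat_lit 493858305440582043680)) (.cons (.br (nat_lit 11) (nat_lit 1) (.cons (.rf (nat_lit 2594) (nat_lit 9027558722)) (.cons (.rf (nat_lit 2594) (nat_lit 9033844034)) (.cons (.rf (nat_lit 4432) (nat_lit 493858305440582043680)) .nil)))) .nil))))),
 (.br (nat_lit 8) (nat_lit 1) (.cons (.rf (nat_lit 58) (nat_lit 8718375)) (.cons (.rf (nat_lit 58) (nat_lit 8723521)) (.cons (.rf (nat_lit 4433) (nat_lit 493858305440582043680)) (.cons (.rf (nat_lit 4433) (nat_lit 492741412732994160672)) (.cons (.ev (nat_lit 18447025552981295104) (nat_lit 1)) .nil)))))),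
 (.br (nat_lit 10) (nat_lit 1) (.cons (.rf (nat_lit 31) (nat_lit 377522503)) (.cons (.rf (nat_lit 2594) (nat_lit 12216180033)) (.cons (.rf (nat_lit 1835) (nat_lit 492741412730781730848)) (.cons (.br (nat_lit 7) (nat_lit 1) (.cons (.kr (nat_lit 4722366482869645279488) (nat_lit 18518802767259107328) (nat_lit 1) (nat_lit 0)) (.cons (.br (nat_lit 13) (nat_lit 1) (.cons (.br (nat_lit 12) (nat_lit 1) (.cons (.ev (nat_lit 20680101496513244644397237339396) (nat_lit 3)) .nil)) (.cons (.br (nat_lit 11) (nat_lit 1) (.cons (.ev (nat_lit 20680101496513244644397237339396) (nat_lit 3)) .nil)) .nil))) (.cons (.br (nat_lit 11) (nat_lit 1) (.cons (.br (nat_lit 12) (nat_lit 1) (.cons (.zr (nat_lit 55556407202265694208) (nat_lit 158456329750895439536021569537) (nat_lit 5) (nat_lit 0)) .nil)) (.cons (.ev (nat_lit 20282721515994973909716694008320) (nat_lit 2)) .nil))) .nil)))) .nil))))),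
 (.br (nat_lit 10) (nat_lit 1) (.cons (.rf (nat_lit 84) (nat_lit 14238689505)) (.cons (.br (nat_lit 12) (nat_lit 1) (.cons (.ev (nat_lit 79229376180969236764406317056) (nat_lit 1)) (.cons (.ev (nat_lit 79229371440083953326525317376) (nat_lit 1)) .nil))) (.cons (.br (nat_lit 11) (nat_lit 1) (.cons (.br (nat_lit 12) (nat_lit 1) (.cons (.zr (nat_lit 9444732965739290624768) (nat_lit 158456325028528957765887983617) (nat_lit 5) (nat_lit 0)) .nil)) (.cons (.ev (nat_lit 20282721520698821589819080180480) (nat_lit 2)) .nil))) .nil)))),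
 (.br (nat_lit 11) (nat_lit 1) (.cons (.br (nat_lit 12) (nat_lit 1) (.cons (.kr (nat_lit 79537647524085682662268797184) (nat_lit 20282410812596008840244173471744) (nat_lit 1) (nat_lit 0)) .nil)) .nil)),
 (.br (nat_lit 10) (nat_lit 1) (.cons (.rf (nat_lit 84) (nat_lit 13164947681)) (.cons (.br (nat_lit 11) (nat_lit 1) (.cons (.rf (nat_lit 84) (nat_lit 8971855906)) (.cons (.br (nat_lit 12) (nat_lit 1) (.cons (.ev (nat_lit 79849583497740669221230347783) (nat_lit 3)) .nil)) .nil))) (.cons (.br (nat_lit 11) (nat_lit 1) (.cons (.br (nat_lit 12) (nat_lit 1) (.cons (.ev (nat_lit 79228167236631101942460907521) (nat_lit 1)) .nil)) (.cons (.ev (nat_lit 20282720297587311666223934144513) (nat_lit 1)) .nil))) .nil)))),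
 (.br (nat_lit 7) (nat_lit 1) (.cons (.rf (nat_lit 84) (nat_lit 13164947681)) (.cons (.rf (nat_lit 1699) (nat_lit 410189587915375680)) (.cons (.rf (nat_lit 3958) (nat_lit 14246339458243921952)) .nil)))),
 (.br (nat_lit 11) (nat_lit 1) (.cons (.rf (nat_lit 4438) (nat_lit 493858305440582043680)) (.cons (.ev (nat_lit 310693935640960801706148096) (nat_lit 1)) (.cons (.br (nat_lit 7) (nat_lit 1) (.cons (.br (nat_lit 12) (nat_lit 1) (.cons (.ev (nat_lit 79228167236631101942460907521) (nat_lit 1)) .nil)) (.cons (.zr (nat_lit 55556407202265694208) (nat_lit 618974742009454486383230977) (nat_lit 5) (nat_lit 0)) (.cons (.zr (nat_lit 4777922888972399477504) (nat_lit 1237940039285943233476034562) (nat_lit 10) (nat_lit 0)) .nil)))) .nil)))),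
 (.br (nat_lit 8) (nat_lit 1) (.cons (.rf (nat_lit 4427) (nat_lit 493858305440582043680)) (.cons (.rf (nat_lit 4431) (nat_lit 493858305440582043680)) (.cons (.rf (nat_lit 4434) (nat_lit 493858305440582043680)) (.cons (.br (nat_lit 1) (nat_lit 1) (.cons (.rf (nat_lit 1593) (nat_lit 424204839137)) (.cons (.rf (nat_lit 1593) (nat_lit 424204836161)) (.cons (.rf (nat_lit 4435) (nat_lit 493858305440582043680)) (.cons (.rf (nat_lit 4435) (nat_lit 492741412732994160672)) (.cons (.br (nat_lit 7) (nat_lit 1) (.cons (.rf (nat_lit 1593) (nat_lit 424204830023)) (.cons (.rf (nat_lit 4436) (nat_lit 493858305440582043680)) (.cons (.rf (nat_lit 4436) (nat_lit 492741412732994160672)) (.cons (.kr (nat_lit 4722366482869645279488) (nat_lit 18518802767259107328) (nat_lit 1) (nat_lit 0)) .nil))))) .nil)))))) (.cons (.br (nat_lit 1) (nat_lit 1) (.cons (.br (nat_lit 10) (nat_lit 1) (.cons (.rf (nat_lit 31) (nat_lit 377817313)) (.cons (.br (nat_lit 11) (nat_lit 1) (.cons (.rf (nat_lit 4437) (nat_lit 493858305440582043680))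 (.cons (.br (nat_lit 12) (nat_lit 1) (.cons (.rf (nat_lit 4437) (nat_lit 493858305440582043680)) (.cons (.zr (nat_lit 60847228810955227444641047511040) (nat_lit 2422610899482849918844929) (nat_lit 5) (nat_lit 3)) .nil))) .nil))) (.cons (.rf (nat_lit 31) (nat_lit 444926177)) .nil)))) (.cons (.rf (nat_lit 3981) (nat_lit 12852543677960231)) (.cons (.br (nat_lit 7) (nat_lit 1) (.cons (.rf (nat_lit 31) (nat_lit 377522503)) (.cons (.rf (nat_lit 2594) (nat_lit 12249737441)) (.cons (.br (nat_lit 10) (nat_lit 1) (.cons (.rf (nat_lit 84) (nat_lit 13164947495)) (.cons (.br (nat_lit 12) (nat_lit 1) (.cons (.kr (nat_lit 4722366482869645213696) (nat_lit 79228162514264337593543950336) (nat_lit 9) (nat_lit 0)) (.cons (.kr (nat_lit 79228162514264337593544016128) (nat_lit 18518802767259107328) (nat_lit 1) (nat_lit 0)) .nil))) (.cons (.br (nat_lit 11) (nat_lit 1) (.cons (.br (nat_lit 12) (nat_lit 1) (.cons (.ev (nat_lit 79228162514336677766365184256) (nat_lit 1)) .nil)) (.cons (.ev (nat_lit 20282720302309750205588105593088)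 (nat_lit 1)) .nil))) .nil)))) (.cons (.br (nat_lit 10) (nat_lit 1) (.cons (.rf (nat_lit 84) (nat_lit 14238689319)) (.cons (.br (nat_lit 11) (nat_lit 1) (.cons (.br (nat_lit 12) (nat_lit 1) (.cons (.ev (nat_lit 80160249043554547280386196225) (nat_lit 2)) .nil)) (.cons (.ev (nat_lit 20283028573671458073697740521731) (nat_lit 2)) .nil))) (.cons (.ev (nat_lit 20282409603670117168025255870721) (nat_lit 1)) .nil)))) .nil))))) (.cons (.br (nat_lit 11) (nat_lit 1) (.cons (.rf (nat_lit 4438) (nat_lit 493858305440582043680)) (.cons (.rf (nat_lit 4439) (nat_lit 493858305440582043680)) (.cons (.rf (nat_lit 4440) (nat_lit 493858305440582043680)) (.cons (.br (nat_lit 11) (nat_lit 1) (.cons (.rf (nat_lit 4438) (nat_lit 493858305440582043680)) (.cons (.rf (nat_lit 4439) (nat_lit 493858305440582043680)) (.cons (.rf (nat_lit 4440) (nat_lit 493858305440582043680)) .nil)))) .nil))))) (.cons (.br (nat_lit 7) (nat_lit 1) (.cons (.rf (nat_lit 31) (nat_lit 444631367)) (.cons (.br (nat_lit 10) (nat_lit 1) (.cons (.rf (nat_lit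 84) (nat_lit 14238689505)) (.cons (.br (nat_lit 13) (nat_lit 1) (.cons (.zr (nat_lit 9444732966838802252544) (nat_lit 40564821625154980358632140439553) (nat_lit 5) (nat_lit 0)) (.cons (.zr (nat_lit 60847228810955227444641047511040) (nat_lit 2422610899482849918844929) (nat_lit 5) (nat_lit 3)) .nil))) (.cons (.ev (nat_lit 20282409603651670423951546319104) (nat_lit 1)) .nil)))) (.cons (.kr (nat_lit 4722366482869645279488) (nat_lit 18518802767259107328) (nat_lit 1) (nat_lit 0)) (.cons (.rf (nat_lit 2594) (nat_lit 14330112225)) .nil))))) .nil)))))) .nil)))))),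
 (.br (nat_lit 8) (nat_lit 1) (.cons (.rf (nat_lit 4427) (nat_lit 493858305440582043680)) (.cons (.rf (nat_lit 4431) (nat_lit 493858305440582043680)) (.cons (.rf (nat_lit 4434) (nat_lit 493858305440582043680)) (.cons (.rf (nat_lit 4441) (nat_lit 493858305440582043680)) (.cons (.rf (nat_lit 4441) (nat_lit 492741412732994160672)) (.cons (.br (nat_lit 8) (nat_lit 1) (.cons (.rf (nat_lit 4427) (nat_lit 493858305440582043680)) (.cons (.rf (nat_lit 4431) (nat_lit 493858305440582043680)) (.cons (.ev (nat_lit 18447025552981295104) (nat_lit 1)) (.cons (.rf (nat_lit 4441) (nat_lit 493858305440582043680)) (.cons (.rf (nat_lit 4441) (nat_lit 492741412732994160672)) .nil)))))) .nil))))))),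
 (.br (nat_lit 11) (nat_lit 1) (.cons (.rf (nat_lit 82) (nat_lit 13165201447)) (.cons (.rf (nat_lit 2594) (nat_lit 8993999175)) (.cons (.br (nat_lit 2) (nat_lit 1) (.cons (.ev (nat_lit 309489732188109417641738241) (nat_lit 1)) (.cons (.rf (nat_lit 3420) (nat_lit 310568277657736355145)) (.cons (.rf (nat_lit 1845) (nat_lit 15433072044949014560)) .nil)))) .nil)))),
 (.br (nat_lit 11) (nat_lit 1) (.cons (.rf (nat_lit 1343) (nat_lit 422360385575)) (.cons (.rf (nat_lit 1339) (nat_lit 391991597095)) (.cons (.rf (nat_lit 4443) (nat_lit 493858305440582043680)) (.cons (.br (nat_lit 11) (nat_lit 1) (.cons (.rf (nat_lit 82) (nat_lit 14238943271)) (.cons (.rf (nat_lit 2594) (nat_lit 9027553607)) (.cons (.rf (nat_lit 4443) (nat_lit 493858305440582043680)) .nil)))) .nil))))),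
 (.br (nat_lit 11) (nat_lit 1) (.cons (.rf (nat_lit 3467) (nat_lit 367438378849865765)) (.cons (.rf (nat_lit 2061) (nat_lit 407901468715256992)) .nil))),
 (.br (nat_lit 6) (nat_lit 1) (.cons (.rf (nat_lit 84) (nat_lit 12119482528)) (.cons (.br (nat_lit 9) (nat_lit 1) (.cons (.rf (nat_lit 4445) (nat_lit 407901468851537952)) (.cons (.br (nat_lit 9) (nat_lit 1) (.cons (.rf (nat_lit 3467) (nat_lit 367438378849865765)) .nil)) .nil))) (.cons (.rf (nat_lit 84) (nat_lit 10039074977)) .nil)))),
 (.br (nat_lit 1) (nat_lit 1) (.cons (.rf (nat_lit 29) (nat_lit 8723521)) (.cons (.ev (nat_lit 18446745173237956864) (nat_lit 1)) (.cons (.rf (nat_lit 4444) (nat_lit 493858305440582043680)) (.cons (.rf (nat_lit 4444) (nat_lit 492741412732994160672)) (.cons (.br (nat_lit 2) (nat_lit 1) (.cons (.rf (nat_lit 58) (nat_lit 8723521)) (.cons (.rf (nat_lit 4446) (nat_lit 482283501406818369)) (.cons (.rf (nat_lit 4446) (nat_lit 481192785872064577)) (.cons (.rf (nat_lit 1343) (nat_lit 388067756071)) .nil))))) .nil)))))),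
 (.br (nat_lit 11) (nat_lit 1) (.cons (.ev (nat_lit 309485009893684137756262401) (nat_lit 1)) .nil)),
 (.br (nat_lit 1) (nat_lit 1) (.cons (.rf (nat_lit 31) (nat_lit 377822273)) (.cons (.zr (nat_lit 309485009893402671369421056) (nat_lit 2417851639230357861040130) (nat_lit 5) (nat_lit 3)) (.cons (.br (nat_lit 2) (nat_lit 1) (.cons (.rf (nat_lit 84) (nat_lit 13165111361)) (.cons (.ev (nat_lit 79228162514336395187598721024) (nat_lit 1)) (.cons (.br (nat_lit 11) (nat_lit 1) (.cons (.ev (nat_lit 79228167236631101942460907521) (nat_lit 1)) (.cons (.br (nat_lit 12) (nat_lit 1) (.cons (.ev (nat_lit 21474247304048374571850707305730) (nat_lit 4)) .nil)) .nil))) .nil)))) (.cons (.br (nat_lit 2) (nat_lit 1) (.cons (.rf (nat_lit 84) (nat_lit 14238853185)) (.cons (.br (nat_lit 13) (nat_lit 1) (.cons (.br (nat_lit 12) (nat_lit 1) (.cons (.ev (nat_lit 79228167255077846016170459136) (nat_lit 1)) .nil)) (.cons (.ev (nat_lit 79228167255077846016170459136) (nat_lit 1)) .nil))) (.cons (.br (nat_lit 11) (nat_lit 1) (.cons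 (.rf (nat_lit 4448) (nat_lit 15433072045017106464)) (.cons (.ev (nat_lit 20282721520698821589819080180480) (nat_lit 2)) .nil))) .nil)))) .nil))))),
 (.br (nat_lit 12) (nat_lit 1) (.cons (.ev (nat_lit 79229371458530697400234868993) (nat_lit 1)) .nil)),
 (.br (nat_lit 12) (nat_lit 1) (.cons (.ev (nat_lit 79537647524085683761797136641) (nat_lit 1)) .nil)),
 (.br (nat_lit 12) (nat_lit 1) (.cons (.rf (nat_lit 4448) (nat_lit 13056261022321575968)) (.cons (.rf (nat_lit 84) (nat_lit 7930677286)) .nil))),
 (.br (nat_lit 8) (nat_lit 1) (.cons (.rf (nat_lit 4427) (nat_lit 493858305440582043680)) (.cons (.rf (nat_lit 4442) (nat_lit 493858305440582043680)) (.cons (.rf (nat_lit 4447) (nat_lit 493858305440582043680)) (.cons (.br (nat_lit 10) (nat_lit 1) (.cons (.ev (nat_lit 1208925891672227507601409) (nat_lit 1)) (.cons (.rf (nat_lit 1593) (nat_lit 424372602178)) (.cons (.rf (nat_lit 4449) (nat_lit 493858305440582043680)) (.cons (.rf (nat_lit 4449) (nat_lit 492741412732994160672)) (.cons (.ev (nat_lit 1213666633123047522959361)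 (nat_lit 1)) .nil)))))) (.cons (.br (nat_lit 10) (nat_lit 1) (.cons (.ev (nat_lit 1208925891672227507601409) (nat_lit 1)) (.cons (.br (nat_lit 1) (nat_lit 1) (.cons (.rf (nat_lit 31) (nat_lit 377527618)) (.cons (.br (nat_lit 12) (nat_lit 1) (.cons (.rf (nat_lit 4450) (nat_lit 493858305440582043680)) (.cons (.rf (nat_lit 4450) (nat_lit 420143386739781765152)) .nil))) (.cons (.rf (nat_lit 31) (nat_lit 444636482)) .nil)))) (.cons (.br (nat_lit 1) (nat_lit 1) (.cons (.rf (nat_lit 31) (nat_lit 377822273)) (.cons (.zr (nat_lit 309485009893402671369421056) (nat_lit 2417851639230357861040130) (nat_lit 5) (nat_lit 3)) (.cons (.br (nat_lit 2) (nat_lit 1) (.cons (.rf (nat_lit 84) (nat_lit 13165111361)) (.cons (.br (nat_lit 11) (nat_lit 1) (.cons (.ev (nat_lit 79537652264971249778444730625) (nat_lit 1)) (.cons (.br (nat_lit 12) (nat_lit 1) (.cons (.ev (nat_lit 20680725283346556304962439283974) (nat_lit 3)) .nil)) .nil))) (.cons (.br (nat_lit 11) (nat_lit 1) (.cons (.br (nat_lit 12) (nat_lit 1) (.cons (.ev (nat_lit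 20837322289909538311445294809856) (nat_lit 3)) .nil)) (.cons (.ev (nat_lit 20282410812577562097269992390656) (nat_lit 1)) .nil))) .nil)))) (.cons (.br (nat_lit 2) (nat_lit 1) (.cons (.rf (nat_lit 84) (nat_lit 14238853185)) (.cons (.br (nat_lit 12) (nat_lit 1) (.cons (.rf (nat_lit 4451) (nat_lit 493858305440582043680)) (.cons (.ev (nat_lit 20282410812596008841343701942273) (nat_lit 1)) .nil))) (.cons (.rf (nat_lit 84) (nat_lit 12093458474)) .nil)))) .nil))))) (.cons (.ev (nat_lit 1213666633123047522959361) (nat_lit 1)) (.cons (.br (nat_lit 1) (nat_lit 1) (.cons (.rf (nat_lit 31) (nat_lit 444931137)) (.cons (.br (nat_lit 2) (nat_lit 1) (.cons (.ev (nat_lit 309485009893402662779551744) (nat_lit 1)) (.cons (.br (nat_lit 11) (nat_lit 1) (.cons (.br (nat_lit 12) (nat_lit 1) (.cons (.ev (nat_lit 21475487614752816636360050937606) (nat_lit 4)) .nil)) (.cons (.ev (nat_lit 309489732188109417641738241) (nat_lit 1)) .nil))) (.cons (.rf (nat_lit 84) (nat_lit 12093466689)) .nil)))) (.cons (.br (nat_lit 2) (nat_lit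 1) (.cons (.br (nat_lit 11) (nat_lit 1) (.cons (.ev (nat_lit 309489750634853491351289856) (nat_lit 1)) (.cons (.ev (nat_lit 310703417267415796567704065) (nat_lit 2)) .nil))) (.cons (.rf (nat_lit 4452) (nat_lit 15433072045017106464)) (.cons (.rf (nat_lit 84) (nat_lit 13167208513)) .nil)))) (.cons (.rf (nat_lit 2594) (nat_lit 14335347009)) .nil))))) .nil)))))) .nil)))))),
 (.br (nat_lit 8) (nat_lit 1) (.cons (.rf (nat_lit 4427) (nat_lit 493858305440582043680)) (.cons (.rf (nat_lit 4442) (nat_lit 493858305440582043680)) (.cons (.rf (nat_lit 4447) (nat_lit 493858305440582043680)) (.cons (.rf (nat_lit 4453) (nat_lit 493858305440582043680)) (.cons (.rf (nat_lit 4453) (nat_lit 492741412732994160672)) (.cons (.br (nat_lit 8) (nat_lit 1) (.cons (.rf (nat_lit 4427) (nat_lit 493858305440582043680)) (.cons (.rf (nat_lit 4442) (nat_lit 493858305440582043680)) (.cons (.rf (nat_lit 4447) (nat_lit 493858305440582043680)) (.cons (.rf (nat_lit 4453) (nat_lit 493858305440582043680)) (.cons (.rf (nat_lit 4453) (nat_lit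 492741412732994160672)) .nil)))))) .nil))))))),
 (.br (nat_lit 2) (nat_lit 1) (.cons (.rf (nat_lit 31) (nat_lit 377530594)) (.cons (.rf (nat_lit 2594) (nat_lit 12224568385)) (.cons (.br (nat_lit 7) (nat_lit 1) (.cons (.rf (nat_lit 84) (nat_lit 13165206562)) (.cons (.ev (nat_lit 4740885284537409536001) (nat_lit 1)) (.cons (.br (nat_lit 13) (nat_lit 1) (.cons (.ev (nat_lit 309489732188109417641738241) (nat_lit 1)) (.cons (.br (nat_lit 11) (nat_lit 1) (.cons (.ev (nat_lit 309489732188109417641738241) (nat_lit 1)) .nil)) .nil))) .nil)))) (.cons (.br (nat_lit 7) (nat_lit 1) (.cons (.rf (nat_lit 84) (nat_lit 14238948386)) (.cons (.br (nat_lit 11) (nat_lit 1) (.cons (.ev (nat_lit 309489732188109417641738241) (nat_lit 1)) (.cons (.br (nat_lit 12) (nat_lit 1) (.cons (.ev (nat_lit 20841667178860503736198126308622) (nat_lit 4)) .nil)) .nil))) (.cons (.ev (nat_lit 4740885284537409536001) (nat_lit 1)) .nil)))) .nil))))),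
 (.br (nat_lit 7) (nat_lit 1) (.cons (.ev (nat_lit 4740885284537409536001) (nat_lit 1)) (.cons (.br (nat_lit 11) (nat_lit 1) (.cons (.ev (nat_lit 79538870635595889935709766400) (nat_lit 2)) (.cons (.br (nat_lit 12) (nat_lit 1) (.cons (.ev (nat_lit 79538856449977637459986546945) (nat_lit 1)) .nil)) .nil))) (.cons (.br (nat_lit 13) (nat_lit 1) (.cons (.ev (nat_lit 20282721520698821589819080180480) (nat_lit 2)) (.cons (.rf (nat_lit 2097) (nat_lit 415522381260730303817)) .nil))) .nil))))]

theorem c154 : chkAll C T R L154 (nat_lit 4431) = true := by decide +kernel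

theorem l154 : (nat_lit 4431) + L154.length = (nat_lit 4457) := by decide +kernel

/-- part of the certificates -/
def L155 : List Prf := [(.br (nat_lit 7) (nat_lit 1) (.cons (.ev (nat_lit 309489732187829037898400001) (nat_lit 1)) (.cons (.br (nat_lit 11) (nat_lit 1) (.cons (.ev (nat_lit 79229376180969519334616531200) (nat_lit 1)) (.cons (.br (nat_lit 12) (nat_lit 1) (.cons (.ev (nat_lit 20839176763190468302503070073088) (nat_lit 3)) .nil)) .nil))) (.cons (.br (nat_lit 11) (nat_lit 1) (.cons (.br (nat_lit 12) (nat_lit 1) (.cons (.ev (nat_lit 79541274357101213036602130945) (nat_lit 2)) .nil)) (.cons (.ev (nat_lit 20282409608392555989959637532928) (nat_lit 1)) .nil))) .nil)))),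
 (.br (nat_lit 2) (nat_lit 1) (.cons (.ev (nat_lit 309489732187829037898400001) (nat_lit 1)) (.cons (.br (nat_lit 11) (nat_lit 1) (.cons (.ev (nat_lit 79228162514336395187598721024) (nat_lit 1)) (.cons (.br (nat_lit 12) (nat_lit 1) (.cons (.ev (nat_lit 79849564607986500769394196481) (nat_lit 2)) .nil)) .nil))) (.cons (.br (nat_lit 11) (nat_lit 1) (.cons (.br (nat_lit 12) (nat_lit 1) (.cons (.ev (nat_lit 20838557793133498650572290851588) (nat_lit 3)) .nil)) (.cons (.ev (nat_lit 20282410812577562097269992390656) (nat_lit 1)) .nil))) .nil)))),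
 (.br (nat_lit 11) (nat_lit 1) (.cons (.rf (nat_lit 4457) (nat_lit 493858305440582043680)) (.cons (.rf (nat_lit 4458) (nat_lit 493858305440582043680)) (.cons (.br (nat_lit 2) (nat_lit 1) (.cons (.zr (nat_lit 55556406102754263808) (nat_lit 309494454554873766592118786) (nat_lit 10) (nat_lit 0)) (.cons (.rf (nat_lit 2946) (nat_lit 14316145252567746592)) (.cons (.br (nat_lit 7) (nat_lit 1) (.cons (.ev (nat_lit 4740885284537409536001) (nat_lit 1)) .nil)) .nil)))) .nil)))),
 (.br (nat_lit 8) (nat_lit 1) (.cons (.rf (nat_lit 4427) (nat_lit 493858305440582043680)) (.cons (.rf (nat_lit 4442) (nat_lit 493858305440582043680)) (.cons (.rf (nat_lit 4454) (nat_lit 493858305440582043680)) (.cons (.br (nat_lit 1) (nat_lit 1) (.cons (.rf (nat_lit 1593) (nat_lit 424473271361)) (.cons (.ev (nat_lit 1208925891672227507601409) (nat_lit 1)) (.cons (.rf (nat_lit 4455) (nat_lit 493858305440582043680)) (.cons (.rf (nat_lit 4455) (nat_lit 492741412732994160672)) (.cons (.br (nat_lit 2) (nat_lit 1) (.cons (.ev (nat_lit 1208925891954797717815553)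 (nat_lit 1)) (.cons (.rf (nat_lit 4456) (nat_lit 493858305440582043680)) (.cons (.rf (nat_lit 4456) (nat_lit 492741412732994160672)) (.cons (.br (nat_lit 7) (nat_lit 1) (.cons (.rf (nat_lit 1858) (nat_lit 493858305232211188800)) (.cons (.rf (nat_lit 1858) (nat_lit 492741412524623305792)) (.cons (.ev (nat_lit 4740885284537409536001) (nat_lit 1)) .nil)))) .nil))))) .nil)))))) (.cons (.br (nat_lit 1) (nat_lit 1) (.cons (.br (nat_lit 7) (nat_lit 1) (.cons (.rf (nat_lit 31) (nat_lit 377727041)) (.cons (.br (nat_lit 11) (nat_lit 1) (.cons (.br (nat_lit 11) (nat_lit 1) (.cons (.ev (nat_lit 309489732188109417641738241) (nat_lit 1)) .nil)) (.cons (.br (nat_lit 11) (nat_lit 1) (.cons (.ev (nat_lit 309489732188109417641738241) (nat_lit 1)) .nil)) .nil))) (.cons (.rf (nat_lit 31) (nat_lit 444835905)) .nil)))) (.cons (.ev (nat_lit 1208925891672227507601409) (nat_lit 1)) (.cons (.br (nat_lit 2) (nat_lit 1) (.cons (.rf (nat_lit 31) (nat_lit 377530594)) (.cons (.rf (nat_lit 2594) (nat_lit 12258122817)) (.cons (.br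 (nat_lit 13) (nat_lit 1) (.cons (.ev (nat_lit 4740885284537409536001) (nat_lit 1)) (.cons (.ev (nat_lit 309489732188109417641738241) (nat_lit 1)) (.cons (.br (nat_lit 13) (nat_lit 1) (.cons (.ev (nat_lit 4740885284537409536001) (nat_lit 1)) (.cons (.ev (nat_lit 309489732188109417641738241) (nat_lit 1)) .nil))) .nil)))) (.cons (.rf (nat_lit 2941) (nat_lit 14316145252567746592)) .nil))))) (.cons (.br (nat_lit 11) (nat_lit 1) (.cons (.rf (nat_lit 4457) (nat_lit 493858305440582043680)) (.cons (.rf (nat_lit 4458) (nat_lit 493858305440582043680)) (.cons (.rf (nat_lit 4459) (nat_lit 493858305440582043680)) (.cons (.br (nat_lit 11) (nat_lit 1) (.cons (.rf (nat_lit 4457) (nat_lit 493858305440582043680)) (.cons (.rf (nat_lit 4458) (nat_lit 493858305440582043680)) (.cons (.rf (nat_lit 4459) (nat_lit 493858305440582043680)) .nil)))) .nil))))) (.cons (.br (nat_lit 2) (nat_lit 1) (.cons (.ev (nat_lit 1208925891954797717815553) (nat_lit 1)) (.cons (.br (nat_lit 7) (nat_lit 1) (.cons (.rf (nat_lit 84) (nat_lit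 14238948417)) (.cons (.br (nat_lit 11) (nat_lit 1) (.cons (.br (nat_lit 12) (nat_lit 1) (.cons (.zr (nat_lit 18734975549373088001) (nat_lit 79847137256273792079960735744) (nat_lit 10) (nat_lit 0)) .nil)) (.cons (.ev (nat_lit 20282720297605758410297643696128) (nat_lit 1)) .nil))) (.cons (.ev (nat_lit 20282410812577562377649735598336) (nat_lit 1)) .nil)))) (.cons (.br (nat_lit 7) (nat_lit 1) (.cons (.rf (nat_lit 2942) (nat_lit 14316145252535207968)) (.cons (.br (nat_lit 13) (nat_lit 1) (.cons (.zr (nat_lit 60847228810955371560928634994688) (nat_lit 2432018738959342278672897) (nat_lit 5) (nat_lit 3)) (.cons (.ev (nat_lit 20361637766166007100609826717953) (nat_lit 1)) .nil))) (.cons (.ev (nat_lit 4740885284537409536001) (nat_lit 1)) .nil)))) (.cons (.rf (nat_lit 2594) (nat_lit 14338497601)) .nil))))) .nil)))))) .nil)))))),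
 (.br (nat_lit 8) (nat_lit 1) (.cons (.rf (nat_lit 4427) (nat_lit 493858305440582043680)) (.cons (.rf (nat_lit 4442) (nat_lit 493858305440582043680)) (.cons (.rf (nat_lit 4454) (nat_lit 493858305440582043680)) (.cons (.rf (nat_lit 4460) (nat_lit 493858305440582043680)) (.cons (.rf (nat_lit 4460) (nat_lit 492741412732994160672)) (.cons (.br (nat_lit 8) (nat_lit 1) (.cons (.rf (nat_lit 4427) (nat_lit 493858305440582043680)) (.cons (.ev (nat_lit 18447025552981295104) (nat_lit 1)) (.cons (.rf (nat_lit 4454) (nat_lit 493858305440582043680)) (.cons (.rf (nat_lit 4460) (nat_lit 493858305440582043680)) (.cons (.rf (nat_lit 4460) (nat_lit 492741412732994160672)) .nil)))))) .nil))))))),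
 (.br (nat_lit 12) (nat_lit 1) (.cons (.ev (nat_lit 1213648186098602626580736) (nat_lit 1)) (.cons (.ev (nat_lit 309489732187829037898400001) (nat_lit 1)) (.cons (.br (nat_lit 12) (nat_lit 1) (.cons (.ev (nat_lit 1213648186098602626580736) (nat_lit 1)) (.cons (.ev (nat_lit 309489732187829037898400001) (nat_lit 1)) .nil))) .nil)))),
 (.br (nat_lit 13) (nat_lit 1) (.cons (.ev (nat_lit 310698676526526809797361920) (nat_lit 1)) (.cons (.zr (nat_lit 60847232437732686288511391760384) (nat_lit 4759260253595864399873) (nat_lit 5) (nat_lit 9)) .nil))),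
 (.br (nat_lit 10) (nat_lit 1) (.cons (.rf (nat_lit 29) (nat_lit 11863266)) (.cons (.ev (nat_lit 1213648186098602626580736) (nat_lit 1)) (.cons (.br (nat_lit 11) (nat_lit 1) (.cons (.br (nat_lit 12) (nat_lit 1) (.cons (.zr (nat_lit 55556407202265694208) (nat_lit 158456329750895439536021569537) (nat_lit 5) (nat_lit 0)) .nil)) (.cons (.ev (nat_lit 309489750634573111607951616) (nat_lit 1)) .nil))) .nil)))),
 (.br (nat_lit 12) (nat_lit 1) (.cons (.ev (nat_lit 79229376162522775260906979585) (nat_lit 1)) (.cons (.br (nat_lit 10) (nat_lit 1) (.cons (.ev (nat_lit 20681349117478329157386226303238) (nat_lit 4)) .nil)) (.cons (.zr (nat_lit 237684487543009187761768890368) (nat_lit 4759260252496352772097) (nat_lit 5) (nat_lit 9)) .nil)))),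
 (.br (nat_lit 13) (nat_lit 1) (.cons (.rf (nat_lit 4465) (nat_lit 493858305440582043680)) (.cons (.br (nat_lit 1) (nat_lit 1) (.cons (.ev (nat_lit 20837938841966860747131207484676) (nat_lit 3)) .nil)) (.cons (.zr (nat_lit 237684487543009187761768890368) (nat_lit 4759260252496352772097) (nat_lit 5) (nat_lit 9)) .nil)))),
 (.br (nat_lit 12) (nat_lit 1) (.cons (.br (nat_lit 11) (nat_lit 1) (.cons (.ev (nat_lit 20838562647763137089457229070598) (nat_lit 3)) .nil)) (.cons (.ev (nat_lit 79228167236631101942460907521) (nat_lit 1)) (.cons (.ev (nat_lit 79228167255077565636427120896) (nat_lit 1)) .nil)))),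
 (.br (nat_lit 1) (nat_lit 1) (.cons (.br (nat_lit 12) (nat_lit 1) (.cons (.ev (nat_lit 20680722874828968455490571927810) (nat_lit 3)) .nil)) (.cons (.rf (nat_lit 4467) (nat_lit 493858305440582043680)) (.cons (.zr (nat_lit 60847232437732686288511391760384) (nat_lit 4759260253595864399873) (nat_lit 5) (nat_lit 9)) .nil)))),
 (.br (nat_lit 2) (nat_lit 1) (.cons (.br (nat_lit 10) (nat_lit 1) (.cons (.rf (nat_lit 29) (nat_lit 11869249)) (.cons (.br (nat_lit 11) (nat_lit 1) (.cons (.ev (nat_lit 309489732187829037898400001) (nat_lit 1)) (.cons (.br (nat_lit 12) (nat_lit 1) (.cons (.ev (nat_lit 20521649997632582119047160856838) (nat_lit 3)) .nil)) .nil))) (.cons (.ev (nat_lit 1213666632842676336132353) (nat_lit 1)) .nil)))) (.cons (.br (nat_lit 1) (nat_lit 1) (.cons (.rf (nat_lit 29) (nat_lit 11765058)) (.cons (.br (nat_lit 12) (nat_lit 1) (.cons (.rf (nat_lit 31) (nat_lit 414227778)) (.cons (.ev (nat_lit 79228167255077565636427120896) (nat_lit 1)) .nil))) (.cons (.br (nat_lit 13) (nat_lit 1) (.cons (.ev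 (nat_lit 20282719093402305278533835948033) (nat_lit 1)) (.cons (.zr (nat_lit 60847232437732686288511391760384) (nat_lit 4759260253595864399873) (nat_lit 5) (nat_lit 9)) .nil))) .nil)))) (.cons (.ev (nat_lit 309489750634853491351289856) (nat_lit 1)) (.cons (.br (nat_lit 13) (nat_lit 1) (.cons (.rf (nat_lit 4465) (nat_lit 493858305440582043680)) (.cons (.rf (nat_lit 4466) (nat_lit 493858305440582043680)) (.cons (.br (nat_lit 13) (nat_lit 1) (.cons (.ev (nat_lit 20282719093402305278533835948033) (nat_lit 1)) (.cons (.rf (nat_lit 4466) (nat_lit 493858305440582043680)) (.cons (.zr (nat_lit 237684487543009187761768890368) (nat_lit 4759260252496352772097) (nat_lit 5) (nat_lit 9)) .nil)))) (.cons (.zr (nat_lit 237684487543009187761768890368) (nat_lit 4759260252496352772097) (nat_lit 5) (nat_lit 9)) .nil))))) (.cons (.br (nat_lit 12) (nat_lit 1) (.cons (.rf (nat_lit 4467) (nat_lit 493858305440582043680)) (.cons (.rf (nat_lit 4468) (nat_lit 493858305440582043680)) (.cons (.br (nat_lit 12) (nat_lit 1) (.cons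 (.ev (nat_lit 79228167236631101942460907521) (nat_lit 1)) (.cons (.rf (nat_lit 4468) (nat_lit 493858305440582043680)) (.cons (.br (nat_lit 1) (nat_lit 1) (.cons (.zr (nat_lit 928455029464035206174540544) (nat_lit 158456329750895440635533197313) (nat_lit 5) (nat_lit 0)) .nil)) .nil)))) (.cons (.br (nat_lit 10) (nat_lit 1) (.cons (.zr (nat_lit 60847232437732686288511391760384) (nat_lit 4759260253595864399873) (nat_lit 5) (nat_lit 9)) (.cons (.ev (nat_lit 20282720302309749925208362385408) (nat_lit 1)) (.cons (.rf (nat_lit 4468) (nat_lit 493858305440582043680)) .nil)))) .nil))))) .nil)))))),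
 (.br (nat_lit 11) (nat_lit 1) (.cons (.br (nat_lit 12) (nat_lit 1) (.cons (.ev (nat_lit 79228167236631101942460907521) (nat_lit 1)) .nil)) (.cons (.ev (nat_lit 20282721515994973909716694008320) (nat_lit 2)) .nil))),
 (.br (nat_lit 11) (nat_lit 1) (.cons (.br (nat_lit 10) (nat_lit 1) (.cons (.br (nat_lit 12) (nat_lit 1) (.cons (.ev (nat_lit 20839179199968033477732818158338) (nat_lit 3)) .nil)) (.cons (.ev (nat_lit 20282409608392555989959637532928) (nat_lit 1)) .nil))) (.cons (.ev (nat_lit 310698676526244239587147776) (nat_lit 1)) (.cons (.zr (nat_lit 928455029680210187311382528) (nat_lit 4759260252496352772097) (nat_lit 5) (nat_lit 9)) (.cons (.br (nat_lit 1) (nat_lit 1) (.cons (.ev (nat_lit 20282409608392555989959637532928) (nat_lit 1)) (.cons (.br (nat_lit 10) (nat_lit 1) (.cons (.ev (nat_lit 20999499707647883516231996343562) (nat_lit 4)) .nil)) .nil))) .nil))))),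
 (.br (nat_lit 11) (nat_lit 1) (.cons (.ev (nat_lit 311912343303767244419432705) (nat_lit 2)) (.cons (.ev (nat_lit 309489732188109417641738241) (nat_lit 1)) .nil))),
 (.br (nat_lit 8) (nat_lit 1) (.cons (.rf (nat_lit 4427) (nat_lit 493858305440582043680)) (.cons (.rf (nat_lit 4442) (nat_lit 493858305440582043680)) (.cons (.rf (nat_lit 4454) (nat_lit 493858305440582043680)) (.cons (.rf (nat_lit 4461) (nat_lit 493858305440582043680)) (.cons (.br (nat_lit 7) (nat_lit 1) (.cons (.br (nat_lit 2) (nat_lit 1) (.cons (.rf (nat_lit 246) (nat_lit 422358354145)) (.cons (.rf (nat_lit 4462) (nat_lit 14242959524133701664)) (.cons (.rf (nat_lit 4462) (nat_lit 13126066816545818656)) (.cons (.br (nat_lit 10) (nat_lit 1) (.cons (.rf (nat_lit 4463) (nat_lit 493858305440582043680)) (.cons (.rf (nat_lit 4463) (nat_lit 492741412732994160672)) (.cons (.ev (nat_lit 20282409608392555709588450574336) (nat_lit 1)) .nil)))) .nil))))) (.cons (.br (nat_lit 1) (nat_lit 1) (.cons (.zr (nat_lit 18518801667747611136) (nat_lit 4722366764348933668865)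 (nat_lit 5) (nat_lit 0)) (.cons (.rf (nat_lit 4464) (nat_lit 493858305440582043680)) (.cons (.rf (nat_lit 4464) (nat_lit 492741412732994160672)) (.cons (.rf (nat_lit 3999) (nat_lit 445198108073300002)) .nil))))) (.cons (.ev (nat_lit 1213666633123047522959361) (nat_lit 1)) (.cons (.rf (nat_lit 4469) (nat_lit 493858305440582043680)) (.cons (.rf (nat_lit 4469) (nat_lit 492741412732994160672)) (.cons (.br (nat_lit 2) (nat_lit 1) (.cons (.br (nat_lit 10) (nat_lit 1) (.cons (.rf (nat_lit 4470) (nat_lit 493858305440582043680)) (.cons (.rf (nat_lit 4470) (nat_lit 492741412732994160672)) (.cons (.ev (nat_lit 1213666632842676336132353) (nat_lit 1)) .nil)))) (.cons (.ev (nat_lit 4740885284537409536001) (nat_lit 1)) (.cons (.rf (nat_lit 4471) (nat_lit 493858305440582043680)) (.cons (.rf (nat_lit 4471) (nat_lit 492741412732994160672)) (.cons (.br (nat_lit 1) (nat_lit 1) (.cons (.ev (nat_lit 20282410817318303548098564128768) (nat_lit 1)) (.cons (.rf (nat_lit 4472) (nat_lit 493858305440582043680)) (.cons (.rf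 (nat_lit 4472) (nat_lit 492741412732994160672)) .nil)))) .nil)))))) .nil))))))) .nil)))))),
 (.br (nat_lit 8) (nat_lit 1) (.cons (.rf (nat_lit 4427) (nat_lit 493858305440582043680)) (.cons (.rf (nat_lit 4442) (nat_lit 493858305440582043680)) (.cons (.rf (nat_lit 4454) (nat_lit 493858305440582043680)) (.cons (.rf (nat_lit 4461) (nat_lit 493858305440582043680)) (.cons (.rf (nat_lit 4473) (nat_lit 493858305440582043680)) (.cons (.br (nat_lit 8) (nat_lit 1) (.cons (.rf (nat_lit 4427) (nat_lit 493858305440582043680)) (.cons (.rf (nat_lit 4442) (nat_lit 493858305440582043680)) (.cons (.rf (nat_lit 4454) (nat_lit 493858305440582043680)) (.cons (.rf (nat_lit 4461) (nat_lit 493858305440582043680)) (.cons (.rf (nat_lit 4473) (nat_lit 493858305440582043680)) .nil)))))) .nil))))))),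
 (.br (nat_lit 8) (nat_lit 1) (.cons (.br (nat_lit 11) (nat_lit 1) (.cons (.ev (nat_lit 309485028340429315255566593) (nat_lit 1)) (.cons (.ev (nat_lit 310698658079500161599406081) (nat_lit 1)) .nil))) (.cons (.br (nat_lit 12) (nat_lit 1) (.cons (.ev (nat_lit 79229376180969236760128126976) (nat_lit 1)) (.cons (.ev (nat_lit 79228162514336677766365184256) (nat_lit 1)) .nil))) .nil))),
 (.br (nat_lit 13) (nat_lit 1) (.cons (.rf (nat_lit 4475) (nat_lit 493858305440582043680)) (.cons (.br (nat_lit 8) (nat_lit 1) (.cons (.br (nat_lit 11) (nat_lit 1) (.cons (.ev (nat_lit 158765814816056737545643360771) (nat_lit 2)) .nil)) (.cons (.br (nat_lit 10) (nat_lit 1) (.cons (.ev (nat_lit 1213666777241538428797696) (nat_lit 2)) .nil)) (.cons (.ev (nat_lit 79228162514336677766365184256) (nat_lit 1)) .nil)))) .nil))),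
 (.br (nat_lit 13) (nat_lit 1) (.cons (.rf (nat_lit 4475) (nat_lit 493858305440582043680)) (.cons (.rf (nat_lit 4476) (nat_lit 493858305440582043680)) (.cons (.br (nat_lit 13) (nat_lit 1) (.cons (.rf (nat_lit 4475) (nat_lit 493858305440582043680)) (.cons (.rf (nat_lit 4476) (nat_lit 493858305440582043680)) .nil))) .nil)))),
 (.br (nat_lit 8) (nat_lit 1) (.cons (.br (nat_lit 8) (nat_lit 1) (.cons (.ev (nat_lit 1213666777241538428797696) (nat_lit 2)) (.cons (.rf (nat_lit 4477) (nat_lit 493858305440582043680)) .nil))) (.cons (.br (nat_lit 8) (nat_lit 1) (.cons (.ev (nat_lit 1213666777241538428797696) (nat_lit 2)) (.cons (.rf (nat_lit 4477) (nat_lit 493858305440582043680)) .nil))) (.cons (.rf (nat_lit 4477) (nat_lit 493858305440582043680)) .nil)))),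
 (.br (nat_lit 13) (nat_lit 1) (.cons (.rf (nat_lit 4477) (nat_lit 493858305440582043680)) (.cons (.rf (nat_lit 4478) (nat_lit 493858305440582043680)) (.cons (.br (nat_lit 13) (nat_lit 1) (.cons (.rf (nat_lit 4477) (nat_lit 493858305440582043680)) (.cons (.rf (nat_lit 4478) (nat_lit 493858305440582043680)) .nil))) .nil)))),
 (.br (nat_lit 13) (nat_lit 1) (.cons (.rf (nat_lit 4477) (nat_lit 493858305440582043680)) (.cons (.rf (nat_lit 4478) (nat_lit 493858305440582043680)) (.cons (.rf (nat_lit 4479) (nat_lit 493858305440582043680)) (.cons (.br (nat_lit 13) (nat_lit 1) (.cons (.rf (nat_lit 4477) (nat_lit 493858305440582043680)) (.cons (.rf (nat_lit 4478) (nat_lit 493858305440582043680)) (.cons (.rf (nat_lit 4479) (nat_lit 493858305440582043680)) .nil)))) .nil)))))]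

theorem c155 : chkAll C T R L155 (nat_lit 4457) = true := by decide +kernel

theorem l155 : (nat_lit 4457) + L155.length = (nat_lit 4481) := by decide +kernel

/-- part of the certificates -/
def L156 : List Prf := [(.br (nat_lit 7) (nat_lit 1) (.cons (.rf (nat_lit 84) (nat_lit 12222536738)) (.cons (.br (nat_lit 8) (nat_lit 1) (.cons (.rf (nat_lit 84) (nat_lit 13164911690)) (.cons (.br (nat_lit 11) (nat_lit 1) (.cons (.ev (nat_lit 79537652264971249778444730625) (nat_lit 1)) (.cons (.br (nat_lit 12) (nat_lit 1) (.cons (.ev (nat_lit 79538856449977354885498142721) (nat_lit 1)) .nil)) .nil))) .nil))) (.cons (.rf (nat_lit 84) (nat_lit 12092221666)) (.cons (.br (nat_lit 8) (nat_lit 1) (.cons (.br (nat_lit 11) (nat_lit 1) (.cons (.ev (nat_lit 309485028340429315255566593) (nat_lit 1)) (.cons (.ev (nat_lit 310698658079500161599406081) (nat_lit 1)) .nil))) (.cons (.br (nat_lit 12) (nat_lit 1) (.cons (.br (nat_lit 11) (nat_lit 1) (.cons (.ev (nat_lit 80160244339706021653558329601) (nat_lit 2)) .nil)) (.cons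 (.ev (nat_lit 20757784656515586819709581984513) (nat_lit 3)) .nil))) .nil))) .nil))))),
 (.br (nat_lit 12) (nat_lit 1) (.cons (.rf (nat_lit 4480) (nat_lit 493858305440582043680)) (.cons (.rf (nat_lit 4481) (nat_lit 493858305440582043680)) (.cons (.br (nat_lit 8) (nat_lit 1) (.cons (.br (nat_lit 10) (nat_lit 1) (.cons (.ev (nat_lit 310693954087985250880716801) (nat_lit 1)) (.cons (.br (nat_lit 11) (nat_lit 1) (.cons (.ev (nat_lit 310698658079500161599406081) (nat_lit 1)) .nil)) .nil))) (.cons (.br (nat_lit 7) (nat_lit 1) (.cons (.ev (nat_lit 79537652264971249778444730625) (nat_lit 1)) (.cons (.br (nat_lit 11) (nat_lit 1) (.cons (.ev (nat_lit 310698658079500161599406081) (nat_lit 1)) .nil)) .nil))) (.cons (.ev (nat_lit 79537647524085683761797136641) (nat_lit 1)) (.cons (.br (nat_lit 11) (nat_lit 1) (.cons (.br (nat_lit 10) (nat_lit 1) (.cons (.ev (nat_lit 20680106303845575395703788077316) (nat_lit 3)) .nil)) (.cons (.br (nat_lit 7) (nat_lit 1) (.cons (.ev (nat_lit 620193168046385562587890434) (nat_lit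 2)) .nil)) (.cons (.ev (nat_lit 20282409603670117168020977680641) (nat_lit 1)) .nil)))) .nil))))) .nil)))),
 (.br (nat_lit 12) (nat_lit 1) (.cons (.rf (nat_lit 4480) (nat_lit 493858305440582043680)) (.cons (.rf (nat_lit 4481) (nat_lit 493858305440582043680)) (.cons (.rf (nat_lit 4482) (nat_lit 493858305440582043680)) (.cons (.br (nat_lit 12) (nat_lit 1) (.cons (.ev (nat_lit 79228162514336677766365184256) (nat_lit 1)) (.cons (.rf (nat_lit 4481) (nat_lit 493858305440582043680)) (.cons (.rf (nat_lit 4482) (nat_lit 493858305440582043680)) .nil)))) .nil))))),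
 (.br (nat_lit 8) (nat_lit 1) (.cons (.rf (nat_lit 84) (nat_lit 12155165737)) (.cons (.rf (nat_lit 84) (nat_lit 11115207714)) (.cons (.ev (nat_lit 18446745173237956864) (nat_lit 1)) .nil)))),
 (.br (nat_lit 12) (nat_lit 1) (.cons (.kr (nat_lit 4722366482869645213696) (nat_lit 79228162514264337593543950336) (nat_lit 9) (nat_lit 0)) (.cons (.rf (nat_lit 4483) (nat_lit 493858305440582043680)) (.cons (.br (nat_lit 7) (nat_lit 1) (.cons (.rf (nat_lit 4484) (nat_lit 15433070910038444064)) (.cons (.rf (nat_lit 84) (nat_lit 9004457025)) (.cons (.br (nat_lit 11) (nat_lit 1) (.cons (.br (nat_lit 8) (nat_lit 1) (.cons (.ev (nat_lit 20837943687188227365050513555718) (nat_lit 3)) .nil)) (.cons (.ev (nat_lit 20282720302309749925208362385408) (nat_lit 1)) .nil))) .nil)))) .nil)))),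
 (.br (nat_lit 12) (nat_lit 1) (.cons (.rf (nat_lit 4480) (nat_lit 493858305440582043680)) (.cons (.rf (nat_lit 4483) (nat_lit 493858305440582043680)) (.cons (.rf (nat_lit 4485) (nat_lit 493858305440582043680)) (.cons (.br (nat_lit 12) (nat_lit 1) (.cons (.rf (nat_lit 4480) (nat_lit 493858305440582043680)) (.cons (.rf (nat_lit 4483) (nat_lit 493858305440582043680)) (.cons (.rf (nat_lit 4485) (nat_lit 493858305440582043680)) .nil)))) .nil))))),
 (.br (nat_lit 12) (nat_lit 1) (.cons (.rf (nat_lit 4480) (nat_lit 493858305440582043680)) (.cons (.rf (nat_lit 4483) (nat_lit 493858305440582043680)) (.cons (.rf (nat_lit 4486) (nat_lit 493858305440582043680)) (.cons (.br (nat_lit 12) (nat_lit 1) (.cons (.rf (nat_lit 4480) (nat_lit 493858305440582043680)) (.cons (.rf (nat_lit 4483) (nat_lit 493858305440582043680)) (.cons (.rf (nat_lit 4486) (nat_lit 493858305440582043680)) .nil)))) .nil))))),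
 (.br (nat_lit 12) (nat_lit 1) (.cons (.rf (nat_lit 4480) (nat_lit 493858305440582043680)) (.cons (.rf (nat_lit 4483) (nat_lit 493858305440582043680)) (.cons (.rf (nat_lit 4486) (nat_lit 493858305440582043680)) (.cons (.rf (nat_lit 4487) (nat_lit 493858305440582043680)) (.cons (.br (nat_lit 12) (nat_lit 1) (.cons (.rf (nat_lit 4480) (nat_lit 493858305440582043680)) (.cons (.rf (nat_lit 4483) (nat_lit 493858305440582043680)) (.cons (.rf (nat_lit 4486) (nat_lit 493858305440582043680)) (.cons (.rf (nat_lit 4487) (nat_lit 493858305440582043680)) .nil))))) .nil)))))),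
 (.br (nat_lit 11) (nat_lit 1) (.cons (.rf (nat_lit 2594) (nat_lit 9000298561)) (.cons (.kr (nat_lit 4722366482869645213696) (nat_lit 309485009821345068724781056) (nat_lit 9) (nat_lit 0)) (.cons (.br (nat_lit 8) (nat_lit 1) (.cons (.zr (nat_lit 2475880152358299803297252352) (nat_lit 37778931871753254797319) (nat_lit 15) (nat_lit 3)) (.cons (.br (nat_lit 12) (nat_lit 1) (.cons (.ev (nat_lit 79537652264971249778444730625) (nat_lit 1)) (.cons (.ev (nat_lit 79228162532783421840074735873) (nat_lit 1)) .nil))) (.cons (.zr (nat_lit 1237940113072919528398128128) (nat_lit 18889465940274673942535) (nat_lit 15) (nat_lit 3)) .nil)))) .nil)))),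
 (.br (nat_lit 11) (nat_lit 1) (.cons (.br (nat_lit 12) (nat_lit 1) (.cons (.kr (nat_lit 79537647524085682662268797184) (nat_lit 20282410812596008840244173471744) (nat_lit 1) (nat_lit 0)) .nil)) .nil)),
 (.br (nat_lit 11) (nat_lit 1) (.cons (.rf (nat_lit 4490) (nat_lit 493858305440582043680)) (.cons (.br (nat_lit 11) (nat_lit 1) (.cons (.rf (nat_lit 4490) (nat_lit 493858305440582043680)) .nil)) .nil))),
 (.br (nat_lit 11) (nat_lit 1) (.cons (.rf (nat_lit 84) (nat_lit 14238656738)) (.cons (.br (nat_lit 8) (nat_lit 1) (.cons (.ev (nat_lit 1208944338416296938962944) (nat_lit 1)) (.cons (.br (nat_lit 13) (nat_lit 1) (.cons (.rf (nat_lit 1737) (nat_lit 493858305439443321920)) (.cons (.zr (nat_lit 9444732965739290624768) (nat_lit 158456325028528957765887983617) (nat_lit 5) (nat_lit 0)) .nil))) (.cons (.br (nat_lit 10) (nat_lit 1) (.cons (.br (nat_lit 12) (nat_lit 1) (.cons (.zr (nat_lit 18889465931478581052160) (nat_lit 159075295048171647903337545729) (nat_lit 5) (nat_lit 0)) .nil)) (.cons (.ev (nat_lit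 310698676526244235308957696) (nat_lit 1)) .nil))) .nil)))) (.cons (.ev (nat_lit 309485009893685241546014976) (nat_lit 1)) .nil)))),
 (.br (nat_lit 11) (nat_lit 1) (.cons (.rf (nat_lit 4492) (nat_lit 493858305440582043680)) (.cons (.kr (nat_lit 4722366482869645213696) (nat_lit 309485009821345068724781056) (nat_lit 9) (nat_lit 0)) (.cons (.br (nat_lit 10) (nat_lit 1) (.cons (.br (nat_lit 8) (nat_lit 1) (.cons (.br (nat_lit 12) (nat_lit 1) (.cons (.zr (nat_lit 9444732965739290624768) (nat_lit 158456325028528957765887983617) (nat_lit 5) (nat_lit 0)) .nil)) (.cons (.ev (nat_lit 20282720302309749925208362385408) (nat_lit 1)) .nil))) (.cons (.br (nat_lit 12) (nat_lit 1) (.cons (.zr (nat_lit 18889465931478581052160) (nat_lit 159075295048171647903337545729) (nat_lit 5) (nat_lit 0)) (.cons (.ev (nat_lit 20282720302309749925208362385408) (nat_lit 1)) .nil))) (.cons (.ev (nat_lit 20282410812577562097269992390656) (nat_lit 1)) .nil)))) .nil)))),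
 (.br (nat_lit 2) (nat_lit 1) (.cons (.br (nat_lit 11) (nat_lit 1) (.cons (.rf (nat_lit 1339) (nat_lit 392259769569)) (.cons (.rf (nat_lit 1343) (nat_lit 422352005345)) (.cons (.rf (nat_lit 4489) (nat_lit 493858305440582043680)) (.cons (.br (nat_lit 11) (nat_lit 1) (.cons (.ev (nat_lit 309485009893685241546014976) (nat_lit 1)) (.cons (.rf (nat_lit 82) (nat_lit 14238689505)) (.cons (.rf (nat_lit 4489) (nat_lit 493858305440582043680)) .nil)))) .nil))))) (.cons (.br (nat_lit 8) (nat_lit 1) (.cons (.rf (nat_lit 31) (nat_lit 377718082)) (.cons (.br (nat_lit 8) (nat_lit 1) (.cons (.ev (nat_lit 1213666633123051801149441) (nat_lit 1)) (.cons (.rf (nat_lit 4491) (nat_lit 493858305440582043680)) .nil))) (.cons (.br (nat_lit 8) (nat_lit 1) (.cons (.rf (nat_lit 31) (nat_lit 377718082)) (.cons (.rf (nat_lit 4491) (nat_lit 493858305440582043680)) .nil))) .nil)))) (.cons (.rf (nat_lit 4488) (nat_lit 493858305440582043680)) (.cons (.rf (nat_lit 4488) (nat_lit 492741412732994160672)) (.cons (.br (nat_lit 11) (nat_lit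 1) (.cons (.rf (nat_lit 4492) (nat_lit 493858305440582043680)) (.cons (.rf (nat_lit 2305) (nat_lit 13580763572449)) (.cons (.rf (nat_lit 4493) (nat_lit 493858305440582043680)) (.cons (.br (nat_lit 11) (nat_lit 1) (.cons (.ev (nat_lit 309485009893685241546014976) (nat_lit 1)) (.cons (.rf (nat_lit 84) (nat_lit 9037752545)) (.cons (.rf (nat_lit 4493) (nat_lit 493858305440582043680)) .nil)))) .nil))))) .nil)))))),
 (.br (nat_lit 2) (nat_lit 1) (.cons (.rf (nat_lit 31) (nat_lit 377816290)) (.cons (.rf (nat_lit 1339) (nat_lit 392159106369)) (.cons (.rf (nat_lit 1339) (nat_lit 289083298850)) (.cons (.rf (nat_lit 4488) (nat_lit 492741412732994160672)) (.cons (.br (nat_lit 7) (nat_lit 1) (.cons (.rf (nat_lit 84) (nat_lit 14336465954)) (.cons (.rf (nat_lit 84) (nat_lit 14238656738)) (.cons (.rf (nat_lit 4494) (nat_lit 492741412732994160672)) (.cons (.br (nat_lit 8) (nat_lit 1) (.cons (.br (nat_lit 11) (nat_lit 1) (.cons (.br (nat_lit 12) (nat_lit 1) (.cons (.zr (nat_lit 9444732965739290624768) (nat_lit 158456325028528957765887983617)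 (nat_lit 5) (nat_lit 0)) .nil)) (.cons (.rf (nat_lit 84) (nat_lit 8972999745)) .nil))) (.cons (.ev (nat_lit 20282409603651670423947268129024) (nat_lit 1)) .nil))) .nil))))) .nil)))))),
 (.br (nat_lit 2) (nat_lit 1) (.cons (.br (nat_lit 12) (nat_lit 1) (.cons (.ev (nat_lit 309485028340429315255566593) (nat_lit 1)) (.cons (.zr (nat_lit 237684487542793012780632048384) (nat_lit 618974742009455585894858753) (nat_lit 5) (nat_lit 0)) .nil))) (.cons (.ev (nat_lit 1213666633123051801149441) (nat_lit 1)) (.cons (.rf (nat_lit 4488) (nat_lit 492741412732994160672)) (.cons (.zr (nat_lit 9444732965739290624768) (nat_lit 618970019642972716249645057) (nat_lit 5) (nat_lit 0)) .nil))))),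
 (.br (nat_lit 11) (nat_lit 1) (.cons (.rf (nat_lit 4488) (nat_lit 493858305440582043680)) (.cons (.rf (nat_lit 4494) (nat_lit 493858305440582043680)) (.cons (.rf (nat_lit 4495) (nat_lit 493858305440582043680)) (.cons (.br (nat_lit 12) (nat_lit 1) (.cons (.rf (nat_lit 4488) (nat_lit 492741412732994160672)) (.cons (.rf (nat_lit 4494) (nat_lit 492741412732994160672)) (.cons (.br (nat_lit 2) (nat_lit 1) (.cons (.ev (nat_lit 309485028340429315255566593) (nat_lit 1)) (.cons (.ev (nat_lit 1213666633123051801149441) (nat_lit 1)) (.cons (.ev (nat_lit 79537647524085683761797136641) (nat_lit 1)) (.cons (.zr (nat_lit 9444732965739290624768) (nat_lit 618970019642972716249645057) (nat_lit 5) (nat_lit 0)) .nil))))) (.cons (.rf (nat_lit 4496) (nat_lit 493858305440582043680)) (.cons (.br (nat_lit 12) (nat_lit 1) (.cons (.rf (nat_lit 4488) (nat_lit 492741412732994160672)) (.cons (.rf (nat_lit 4494) (nat_lit 492741412732994160672)) (.cons (.kr (nat_lit 309485009821345068724781056) (nat_lit 79228162514264337593543950336)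 (nat_lit 11) (nat_lit 0)) (.cons (.rf (nat_lit 4496) (nat_lit 493858305440582043680)) .nil))))) .nil)))))) .nil))))),
 (.br (nat_lit 11) (nat_lit 1) (.cons (.rf (nat_lit 4488) (nat_lit 493858305440582043680)) (.cons (.rf (nat_lit 4494) (nat_lit 493858305440582043680)) (.cons (.rf (nat_lit 4495) (nat_lit 493858305440582043680)) (.cons (.rf (nat_lit 4497) (nat_lit 493858305440582043680)) (.cons (.br (nat_lit 11) (nat_lit 1) (.cons (.rf (nat_lit 4488) (nat_lit 493858305440582043680)) (.cons (.ev (nat_lit 309485009893685241546014976) (nat_lit 1)) (.cons (.rf (nat_lit 4495) (nat_lit 493858305440582043680)) (.cons (.rf (nat_lit 4497) (nat_lit 493858305440582043680)) .nil))))) .nil)))))),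
 (.br (nat_lit 12) (nat_lit 1) (.cons (.rf (nat_lit 4488) (nat_lit 492741412732994160672)) (.cons (.rf (nat_lit 4494) (nat_lit 492741412732994160672)) (.cons (.rf (nat_lit 4498) (nat_lit 492741412732994160672)) (.cons (.br (nat_lit 12) (nat_lit 1) (.cons (.rf (nat_lit 4488) (nat_lit 492741412732994160672)) (.cons (.rf (nat_lit 4494) (nat_lit 492741412732994160672)) (.cons (.rf (nat_lit 4498) (nat_lit 492741412732994160672)) .nil)))) .nil))))),
 (.br (nat_lit 12) (nat_lit 1) (.cons (.rf (nat_lit 4488) (nat_lit 492741412732994160672)) (.cons (.rf (nat_lit 4494) (nat_lit 492741412732994160672)) (.cons (.rf (nat_lit 4498) (nat_lit 492741412732994160672)) (.cons (.rf (nat_lit 4499) (nat_lit 493858305440582043680)) (.cons (.br (nat_lit 12) (nat_lit 1) (.cons (.rf (nat_lit 4488) (nat_lit 492741412732994160672)) (.cons (.rf (nat_lit 4494) (nat_lit 492741412732994160672)) (.cons (.rf (nat_lit 4498) (nat_lit 492741412732994160672)) (.cons (.rf (nat_lit 4499) (nat_lit 493858305440582043680)) .nil))))) .nil)))))),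
 (.br (nat_lit 11) (nat_lit 1) (.cons (.rf (nat_lit 4488) (nat_lit 493858305440582043680)) (.cons (.rf (nat_lit 4494) (nat_lit 493858305440582043680)) (.cons (.rf (nat_lit 4498) (nat_lit 493858305440582043680)) (.cons (.rf (nat_lit 4500) (nat_lit 493858305440582043680)) (.cons (.br (nat_lit 11) (nat_lit 1) (.cons (.rf (nat_lit 4488) (nat_lit 493858305440582043680)) (.cons (.rf (nat_lit 4494) (nat_lit 493858305440582043680)) (.cons (.rf (nat_lit 4498) (nat_lit 493858305440582043680)) (.cons (.rf (nat_lit 4500) (nat_lit 493858305440582043680)) .nil))))) .nil)))))),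
 (.br (nat_lit 11) (nat_lit 1) (.cons (.rf (nat_lit 4488) (nat_lit 493858305440582043680)) (.cons (.rf (nat_lit 4494) (nat_lit 493858305440582043680)) (.cons (.rf (nat_lit 4498) (nat_lit 493858305440582043680)) (.cons (.rf (nat_lit 4500) (nat_lit 493858305440582043680)) (.cons (.rf (nat_lit 4501) (nat_lit 493858305440582043680)) (.cons (.br (nat_lit 11) (nat_lit 1) (.cons (.rf (nat_lit 4488) (nat_lit 493858305440582043680)) (.cons (.rf (nat_lit 4494) (nat_lit 493858305440582043680)) (.cons (.rf (nat_lit 4498) (nat_lit 493858305440582043680)) (.cons (.rf (nat_lit 4500) (nat_lit 493858305440582043680)) (.cons (.rf (nat_lit 4501) (nat_lit 493858305440582043680)) .nil)))))) .nil))))))),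
 (.br (nat_lit 11) (nat_lit 1) (.cons (.rf (nat_lit 2594) (nat_lit 8994007266)) (.cons (.ev (nat_lit 309489732188109417641738241) (nat_lit 1)) (.cons (.br (nat_lit 8) (nat_lit 1) (.cons (.rf (nat_lit 58) (nat_lit 8723521)) (.cons (.br (nat_lit 10) (nat_lit 1) (.cons (.ev (nat_lit 79537652264971249778444730625) (nat_lit 1)) (.cons (.br (nat_lit 12) (nat_lit 1) (.cons (.zr (nat_lit 3626832799076108652774144) (nat_lit 158456329750895440635533197313) (nat_lit 5) (nat_lit 0)) .nil)) .nil))) (.cons (.br (nat_lit 10) (nat_lit 1) (.cons (.br (nat_lit 12) (nat_lit 1) (.cons (.ev (nat_lit 79228167255077846016170459136) (nat_lit 1)) .nil)) (.cons (.rf (nat_lit 84) (nat_lit 12256091201)) .nil))) .nil)))) .nil)))),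
 (.br (nat_lit 11) (nat_lit 1) (.cons (.rf (nat_lit 1339) (nat_lit 392259933218)) (.cons (.rf (nat_lit 1343) (nat_lit 422357248034)) (.cons (.rf (nat_lit 4503) (nat_lit 493858305440582043680)) (.cons (.br (nat_lit 11) (nat_lit 1) (.cons (.ev (nat_lit 309485046931572255336104195) (nat_lit 2)) (.cons (.rf (nat_lit 82) (nat_lit 14238853154)) (.cons (.rf (nat_lit 4503) (nat_lit 493858305440582043680)) .nil)))) .nil))))),
 (.br (nat_lit 6) (nat_lit 1) (.cons (.rf (nat_lit 84) (nat_lit 12119708737)) (.cons (.kr (nat_lit 72057594037993472) (nat_lit 18447025548686262272) (nat_lit 2) (nat_lit 0)) (.cons (.rf (nat_lit 84) (nat_lit 10039104584)) .nil)))),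
 (.br (nat_lit 1) (nat_lit 1) (.cons (.kr (nat_lit 1) (nat_lit 18446744073709551616) (nat_lit 0) (nat_lit 1)) (.cons (.rf (nat_lit 29) (nat_lit 8620353)) (.cons (.rf (nat_lit 4504) (nat_lit 493858305440582043680)) (.cons (.rf (nat_lit 4504) (nat_lit 492741412732994160672)) (.cons (.br (nat_lit 10) (nat_lit 1) (.cons (.ev (nat_lit 1208944338698875705557248) (nat_lit 1)) (.cons (.rf (nat_lit 4505) (nat_lit 482283501406783520)) (.cons (.rf (nat_lit 4505) (nat_lit 481192785872029728)) (.cons (.rf (nat_lit 1343) (nat_lit 388064618530)) .nil))))) .nil))))))]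

theorem c156 : chkAll C T R L156 (nat_lit 4481) = true := by decide +kernel

theorem l156 : (nat_lit 4481) + L156.length = (nat_lit 4507) := by decide +kernel

/-- part of the certificates -/
def L157 : List Prf := [(.br (nat_lit 12) (nat_lit 1) (.cons (.rf (nat_lit 84) (nat_lit 12222441537)) (.cons (.ev (nat_lit 79537647524085964141540474881) (nat_lit 1)) .nil))),
 (.br (nat_lit 11) (nat_lit 1) (.cons (.rf (nat_lit 82) (nat_lit 13165206562)) (.cons (.rf (nat_lit 2594) (nat_lit 8994004290)) (.cons (.br (nat_lit 7) (nat_lit 1) (.cons (.rf (nat_lit 58) (nat_lit 8723521)) (.cons (.rf (nat_lit 4507) (nat_lit 493858305440582043680)) (.cons (.br (nat_lit 8) (nat_lit 1) (.cons (.br (nat_lit 12) (nat_lit 1) (.cons (.ev (nat_lit 476609337791328140330441049348) (nat_lit 3)) .nil)) (.cons (.ev (nat_lit 40565131124387385781198260273665) (nat_lit 2)) .nil))) .nil)))) .nil)))),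
 (.br (nat_lit 11) (nat_lit 1) (.cons (.rf (nat_lit 1343) (nat_lit 422360390690)) (.cons (.rf (nat_lit 1339) (nat_lit 392159368226)) (.cons (.rf (nat_lit 4508) (nat_lit 493858305440582043680)) (.cons (.br (nat_lit 11) (nat_lit 1) (.cons (.rf (nat_lit 82) (nat_lit 14238948386)) (.cons (.rf (nat_lit 2594) (nat_lit 9027558722)) (.cons (.rf (nat_lit 4508) (nat_lit 493858305440582043680)) .nil)))) .nil))))),
 (.br (nat_lit 8) (nat_lit 1) (.cons (.rf (nat_lit 84) (nat_lit 14336370753)) (.cons (.kr (nat_lit 4722366482869645279488) (nat_lit 18518802767259107328) (nat_lit 1) (nat_lit 0)) (.cons (.rf (nat_lit 84) (nat_lit 12255799367)) .nil)))),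
 (.br (nat_lit 1) (nat_lit 1) (.cons (.rf (nat_lit 29) (nat_lit 8718561)) (.cons (.rf (nat_lit 58) (nat_lit 8718375)) (.cons (.rf (nat_lit 4509) (nat_lit 493858305440582043680)) (.cons (.rf (nat_lit 4509) (nat_lit 492741412732994160672)) (.cons (.br (nat_lit 7) (nat_lit 1) (.cons (.ev (nat_lit 1208944338698875705557248) (nat_lit 1)) (.cons (.rf (nat_lit 4510) (nat_lit 493858305440582043680)) (.cons (.rf (nat_lit 4510) (nat_lit 492741412732994160672)) (.cons (.rf (nat_lit 1343) (nat_lit 388067761186)) .nil))))) .nil)))))),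
 (.br (nat_lit 7) (nat_lit 1) (.cons (.kr (nat_lit 4722366482869645279232) (nat_lit 1208944266358702884257792) (nat_lit 2) (nat_lit 0)) (.cons (.rf (nat_lit 2594) (nat_lit 12216183009)) (.cons (.br (nat_lit 10) (nat_lit 1) (.cons (.rf (nat_lit 84) (nat_lit 13164947495)) (.cons (.rf (nat_lit 84) (nat_lit 12092254433)) (.cons (.br (nat_lit 12) (nat_lit 1) (.cons (.ev (nat_lit 79537647524085964141540474881) (nat_lit 1)) (.cons (.zr (nat_lit 316917485834123348144373629952) (nat_lit 37778931871753255059459) (nat_lit 15) (nat_lit 3)) .nil))) .nil)))) (.cons (.br (nat_lit 10) (nat_lit 1) (.cons (.zr (nat_lit 1237940113361149904549838848) (nat_lit 4854592744394393326256135) (nat_lit 15) (nat_lit 3)) (.cons (.br (nat_lit 11) (nat_lit 1) (.cons (.zr (nat_lit 79234207161881212407164962051) (nat_lit 1547434493840255141002870784) (nat_lit 10) (nat_lit 0)) (.cons (.br (nat_lit 12) (nat_lit 1) (.cons (.ev (nat_lit 79538856449977637464264737025) (nat_lit 1)) .nil)) .nil))) (.cons (.br (nat_lit 13) (nat_lit 1) (.cons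 (.ev (nat_lit 20282412026281088988848955851521) (nat_lit 2)) (.cons (.ev (nat_lit 20282409608374109245890206171393) (nat_lit 1)) .nil))) .nil)))) .nil))))),
 (.br (nat_lit 10) (nat_lit 1) (.cons (.rf (nat_lit 84) (nat_lit 14238689505)) (.cons (.br (nat_lit 13) (nat_lit 1) (.cons (.zr (nat_lit 18889465931478581183232) (nat_lit 621387908175690122018160641) (nat_lit 5) (nat_lit 0)) (.cons (.zr (nat_lit 18889465931478581183744) (nat_lit 158456325065566563300406198273) (nat_lit 5) (nat_lit 0)) .nil))) (.cons (.br (nat_lit 12) (nat_lit 1) (.cons (.zr (nat_lit 18889465931478581183232) (nat_lit 621387908175690122018160641) (nat_lit 5) (nat_lit 0)) (.cons (.kr (nat_lit 4722366482869645213952) (nat_lit 20282409603651742481541289213952) (nat_lit 1) (nat_lit 0)) .nil))) .nil)))),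
 (.br (nat_lit 12) (nat_lit 1) (.cons (.zr (nat_lit 18889465931478581183744) (nat_lit 618970056680578250767859713) (nat_lit 5) (nat_lit 0)) (.cons (.kr (nat_lit 4722366483969156841472) (nat_lit 20282410812577490038576425992192) (nat_lit 5) (nat_lit 0)) .nil))),
 (.br (nat_lit 7) (nat_lit 1) (.cons (.kr (nat_lit 2417870085973332058964224) (nat_lit 4722438541563194834944) (nat_lit 1) (nat_lit 0)) (.cons (.br (nat_lit 10) (nat_lit 1) (.cons (.rf (nat_lit 84) (nat_lit 13164947681)) (.cons (.br (nat_lit 13) (nat_lit 1) (.cons (.zr (nat_lit 1242775816351378045096952832) (nat_lit 37778931871753255059459) (nat_lit 15) (nat_lit 3)) (.cons (.kr (nat_lit 2417870085973332058963969) (nat_lit 79228167236630820463189295104) (nat_lit 0) (nat_lit 1)) .nil))) (.cons (.br (nat_lit 12) (nat_lit 1) (.cons (.zr (nat_lit 1242775816351378045096952832) (nat_lit 37778931871753255059459) (nat_lit 15) (nat_lit 3)) (.cons (.rf (nat_lit 1691) (nat_lit 492741412731855438912)) .nil))) .nil)))) (.cons (.br (nat_lit 10) (nat_lit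 1) (.cons (.br (nat_lit 12) (nat_lit 1) (.cons (.zr (nat_lit 6058814716323422556652803) (nat_lit 397378752610607632300707414016) (nat_lit 10) (nat_lit 0)) (.cons (.ev (nat_lit 79229376162522775265185169665) (nat_lit 1)) .nil))) (.cons (.kr (nat_lit 1208925819614629174706177) (nat_lit 79228162514264337593544015872) (nat_lit 0) (nat_lit 1)) (.cons (.br (nat_lit 12) (nat_lit 1) (.cons (.ev (nat_lit 79229376162522775265185169665) (nat_lit 1)) (.cons (.rf (nat_lit 84) (nat_lit 9039060002)) .nil))) .nil)))) (.cons (.br (nat_lit 10) (nat_lit 1) (.cons (.br (nat_lit 12) (nat_lit 1) (.cons (.br (nat_lit 12) (nat_lit 1) (.cons (.ev (nat_lit 79228162532783421840074735873) (nat_lit 1)) .nil)) (.cons (.br (nat_lit 11) (nat_lit 1) (.cons (.ev (nat_lit 79228162532783421840074735873) (nat_lit 1)) .nil)) .nil))) (.cons (.br (nat_lit 12) (nat_lit 1) (.cons (.ev (nat_lit 79228167236631101942460907521) (nat_lit 1)) (.cons (.kr (nat_lit 2417870085973332058963969) (nat_lit 79228167236630820463189295104) (nat_lit 0) (nat_lit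 1)) .nil))) (.cons (.rf (nat_lit 84) (nat_lit 13167044833)) .nil)))) .nil))))),
 (.br (nat_lit 10) (nat_lit 1) (.cons (.rf (nat_lit 1711) (nat_lit 492741412731855438912)) (.cons (.zr (nat_lit 1237940113361149904549838848) (nat_lit 37778931867355208548355) (nat_lit 15) (nat_lit 3)) (.cons (.kr (nat_lit 4722366482869645213696) (nat_lit 79228162514264337593543950336) (nat_lit 9) (nat_lit 0)) (.cons (.br (nat_lit 1) (nat_lit 1) (.cons (.br (nat_lit 12) (nat_lit 1) (.cons (.ev (nat_lit 79228162514336677766365184256) (nat_lit 1)) .nil)) (.cons (.ev (nat_lit 79229376162522775265185169665) (nat_lit 1)) (.cons (.rf (nat_lit 84) (nat_lit 13167044647)) .nil)))) .nil))))),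
 (.br (nat_lit 12) (nat_lit 1) (.cons (.rf (nat_lit 4515) (nat_lit 493858305440582043680)) (.cons (.br (nat_lit 12) (nat_lit 1) (.cons (.kr (nat_lit 1208925819614629174706177) (nat_lit 79228162514264337593544015872) (nat_lit 0) (nat_lit 1)) (.cons (.kr (nat_lit 4722366482869645213696) (nat_lit 79228162514264337593543950336) (nat_lit 9) (nat_lit 0)) (.cons (.ev (nat_lit 79228167255077846016170459136) (nat_lit 1)) .nil)))) (.cons (.rf (nat_lit 4516) (nat_lit 493858305440582043680)) (.cons (.br (nat_lit 12) (nat_lit 1) (.cons (.rf (nat_lit 4515) (nat_lit 493858305440582043680)) (.cons (.ev (nat_lit 79228167255077846016170459136) (nat_lit 1)) (.cons (.rf (nat_lit 4516) (nat_lit 493858305440582043680)) .nil)))) .nil))))),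
 (.br (nat_lit 12) (nat_lit 1) (.cons (.rf (nat_lit 4515) (nat_lit 493858305440582043680)) (.cons (.rf (nat_lit 4517) (nat_lit 493858305440582043680)) (.cons (.br (nat_lit 12) (nat_lit 1) (.cons (.ev (nat_lit 79228167236631101942460907521) (nat_lit 1)) (.cons (.kr (nat_lit 4722366482869645213696) (nat_lit 79228162514264337593543950336) (nat_lit 9) (nat_lit 0)) (.cons (.kr (nat_lit 79228162514264337593544015872) (nat_lit 1208944266358702884257792) (nat_lit 2) (nat_lit 0)) .nil)))) (.cons (.br (nat_lit 12) (nat_lit 1) (.cons (.kr (nat_lit 2417870085973332058963969) (nat_lit 79228167236630820463189295104) (nat_lit 0) (nat_lit 1)) (.cons (.ev (nat_lit 79228167255077846016170459136) (nat_lit 1)) (.cons (.kr (nat_lit 79228162514264337593544015872) (nat_lit 1208944266358702884257792) (nat_lit 2) (nat_lit 0)) .nil)))) .nil))))),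
 (.br (nat_lit 12) (nat_lit 1) (.cons (.rf (nat_lit 4515) (nat_lit 493858305440582043680)) (.cons (.rf (nat_lit 4517) (nat_lit 493858305440582043680)) (.cons (.rf (nat_lit 4518) (nat_lit 493858305440582043680)) (.cons (.br (nat_lit 12) (nat_lit 1) (.cons (.rf (nat_lit 4515) (nat_lit 493858305440582043680)) (.cons (.rf (nat_lit 4517) (nat_lit 493858305440582043680)) (.cons (.kr (nat_lit 79228162514264337593544015872) (nat_lit 1208944266358702884257792) (nat_lit 2) (nat_lit 0)) .nil)))) .nil))))),
 (.br (nat_lit 8) (nat_lit 1) (.cons (.rf (nat_lit 4502) (nat_lit 493858305440582043680)) (.cons (.rf (nat_lit 4506) (nat_lit 493858305440582043680)) (.cons (.rf (nat_lit 4511) (nat_lit 493858305440582043680)) (.cons (.br (nat_lit 1) (nat_lit 1) (.cons (.rf (nat_lit 1593) (nat_lit 424204839137)) (.cons (.ev (nat_lit 1213666633123051801149441) (nat_lit 1)) (.cons (.rf (nat_lit 4512) (nat_lit 493858305440582043680)) (.cons (.rf (nat_lit 4512) (nat_lit 492741412732994160672)) (.cons (.br (nat_lit 7) (nat_lit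 1) (.cons (.kr (nat_lit 1208925819614629174706432) (nat_lit 72058693549555712) (nat_lit 1) (nat_lit 0)) (.cons (.rf (nat_lit 4513) (nat_lit 493858305440582043680)) (.cons (.rf (nat_lit 4513) (nat_lit 492741412732994160672)) (.cons (.br (nat_lit 10) (nat_lit 1) (.cons (.rf (nat_lit 4514) (nat_lit 493858305440582043680)) (.cons (.rf (nat_lit 4514) (nat_lit 492741412732994160672)) (.cons (.ev (nat_lit 20282410812577562377649735598336) (nat_lit 1)) .nil)))) .nil))))) .nil)))))) (.cons (.br (nat_lit 12) (nat_lit 1) (.cons (.rf (nat_lit 4515) (nat_lit 493858305440582043680)) (.cons (.rf (nat_lit 4517) (nat_lit 493858305440582043680)) (.cons (.rf (nat_lit 4518) (nat_lit 493858305440582043680)) (.cons (.rf (nat_lit 4519) (nat_lit 493858305440582043680)) (.cons (.br (nat_lit 12) (nat_lit 1) (.cons (.rf (nat_lit 4515) (nat_lit 493858305440582043680)) (.cons (.rf (nat_lit 4517) (nat_lit 493858305440582043680)) (.cons (.rf (nat_lit 4518) (nat_lit 493858305440582043680)) (.cons (.rf (nat_lit 4519) (nat_lit 493858305440582043680))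 .nil))))) .nil)))))) .nil)))))),
 (.br (nat_lit 8) (nat_lit 1) (.cons (.rf (nat_lit 4502) (nat_lit 493858305440582043680)) (.cons (.rf (nat_lit 4506) (nat_lit 493858305440582043680)) (.cons (.rf (nat_lit 4511) (nat_lit 493858305440582043680)) (.cons (.rf (nat_lit 4520) (nat_lit 493858305440582043680)) (.cons (.rf (nat_lit 4520) (nat_lit 492741412732994160672)) (.cons (.br (nat_lit 8) (nat_lit 1) (.cons (.rf (nat_lit 4502) (nat_lit 493858305440582043680)) (.cons (.rf (nat_lit 4506) (nat_lit 493858305440582043680)) (.cons (.rf (nat_lit 4511) (nat_lit 493858305440582043680)) (.cons (.rf (nat_lit 4520) (nat_lit 493858305440582043680)) (.cons (.rf (nat_lit 4520) (nat_lit 492741412732994160672)) .nil)))))) .nil))))))),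
 (.br (nat_lit 11) (nat_lit 1) (.cons (.rf (nat_lit 82) (nat_lit 13165201447)) (.cons (.rf (nat_lit 2594) (nat_lit 8993999175)) (.cons (.br (nat_lit 12) (nat_lit 1) (.cons (.ev (nat_lit 311912306410279105556709635) (nat_lit 2)) (.cons (.ev (nat_lit 313111842621268913777804034) (nat_lit 2)) (.cons (.br (nat_lit 12) (nat_lit 1) (.cons (.ev (nat_lit 311912306410279105556709635) (nat_lit 2)) (.cons (.ev (nat_lit 313111842621268913777804034) (nat_lit 2)) .nil))) .nil)))) .nil)))),
 (.br (nat_lit 11) (nat_lit 1) (.cons (.rf (nat_lit 1343) (nat_lit 422360385575)) (.cons (.rf (nat_lit 1339) (nat_lit 391991596071)) (.cons (.rf (nat_lit 4522) (nat_lit 493858305440582043680)) (.cons (.br (nat_lit 11) (nat_lit 1) (.cons (.rf (nat_lit 82) (nat_lit 14238943271)) (.cons (.rf (nat_lit 2594) (nat_lit 9027553607)) (.cons (.rf (nat_lit 4522) (nat_lit 493858305440582043680)) .nil)))) .nil))))),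
 (.br (nat_lit 11) (nat_lit 1) (.cons (.br (nat_lit 12) (nat_lit 1) (.cons (.ev (nat_lit 79537647524085683761797136641) (nat_lit 1)) .nil)) .nil)),
 (.br (nat_lit 8) (nat_lit 1) (.cons (.rf (nat_lit 84) (nat_lit 14336207073)) (.cons (.br (nat_lit 11) (nat_lit 1) (.cons (.rf (nat_lit 4524) (nat_lit 493858305440582043680)) (.cons (.br (nat_lit 12) (nat_lit 1) (.cons (.rf (nat_lit 4524) (nat_lit 493858305440582043680)) (.cons (.ev (nat_lit 20282410812596008841343701942273) (nat_lit 1)) .nil))) .nil))) (.cons (.rf (nat_lit 84) (nat_lit 12255799522)) .nil)))),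
 (.br (nat_lit 1) (nat_lit 1) (.cons (.rf (nat_lit 29) (nat_lit 8723521)) (.cons (.rf (nat_lit 58) (nat_lit 8723490)) (.cons (.rf (nat_lit 4523) (nat_lit 493858305440582043680)) (.cons (.rf (nat_lit 4523) (nat_lit 492741412732994160672)) (.cons (.br (nat_lit 2) (nat_lit 1) (.cons (.ev (nat_lit 1208944338698875705557248) (nat_lit 1)) (.cons (.rf (nat_lit 4525) (nat_lit 493858305440582043680)) (.cons (.rf (nat_lit 4525) (nat_lit 492741412732994160672)) (.cons (.rf (nat_lit 1343) (nat_lit 388067756071)) .nil))))) .nil)))))),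
 (.br (nat_lit 11) (nat_lit 1) (.cons (.ev (nat_lit 1213666632842672057942273) (nat_lit 1)) (.cons (.ev (nat_lit 79228162532783139261308272641) (nat_lit 1)) (.cons (.ev (nat_lit 20282409603670117450599744143361) (nat_lit 1)) .nil)))),
 (.br (nat_lit 2) (nat_lit 1) (.cons (.rf (nat_lit 31) (nat_lit 377527618)) (.cons (.ev (nat_lit 309485009893402662779551744) (nat_lit 1)) (.cons (.br (nat_lit 10) (nat_lit 1) (.cons (.ev (nat_lit 309489732188109417641738241) (nat_lit 1)) (.cons (.ev (nat_lit 79228167255077846016170459136) (nat_lit 1)) (.cons (.br (nat_lit 12) (nat_lit 1) (.cons (.ev (nat_lit 79538861172271781260617122048) (nat_lit 1)) (.cons (.rf (nat_lit 1753) (nat_lit 492741412731855438912)) .nil))) .nil)))) (.cons (.br (nat_lit 10) (nat_lit 1) (.cons (.ev (nat_lit 1213666632842672057942273) (nat_lit 1)) (.cons (.br (nat_lit 13) (nat_lit 1) (.cons (.br (nat_lit 12) (nat_lit 1) (.cons (.ev (nat_lit 79538856449977637464264737025) (nat_lit 1)) .nil)) (.cons (.rf (nat_lit 4527) (nat_lit 493858305440582043680))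 .nil))) (.cons (.br (nat_lit 13) (nat_lit 1) (.cons (.rf (nat_lit 84) (nat_lit 8972707911)) (.cons (.rf (nat_lit 4527) (nat_lit 493858305440582043680)) .nil))) .nil)))) .nil))))),
 (.br (nat_lit 10) (nat_lit 1) (.cons (.ev (nat_lit 1213666632842672057942273) (nat_lit 1)) (.cons (.br (nat_lit 11) (nat_lit 1) (.cons (.ev (nat_lit 79538856468424381537974288640) (nat_lit 1)) (.cons (.rf (nat_lit 1754) (nat_lit 493858305439443321920)) .nil))) (.cons (.br (nat_lit 11) (nat_lit 1) (.cons (.rf (nat_lit 1755) (nat_lit 493858305439443321920)) (.cons (.ev (nat_lit 20282720297587311383645167550721) (nat_lit 1)) .nil))) .nil)))),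
 (.br (nat_lit 10) (nat_lit 1) (.cons (.ev (nat_lit 1213666632842672057942273) (nat_lit 1)) (.cons (.br (nat_lit 11) (nat_lit 1) (.cons (.ev (nat_lit 79537652264971249778444730625) (nat_lit 1)) (.cons (.rf (nat_lit 1759) (nat_lit 493858305439443321920)) .nil))) (.cons (.br (nat_lit 11) (nat_lit 1) (.cons (.rf (nat_lit 1760) (nat_lit 493858305439443321920)) (.cons (.ev (nat_lit 20282719093383858251885638123776) (nat_lit 1)) .nil))) .nil)))),
 (.br (nat_lit 2) (nat_lit 1) (.cons (.ev (nat_lit 1213666632842672057942273) (nat_lit 1)) (.cons (.br (nat_lit 11) (nat_lit 1) (.cons (.ev (nat_lit 79537652264971249778444730625) (nat_lit 1)) (.cons (.br (nat_lit 12) (nat_lit 1) (.cons (.ev (nat_lit 20679482526419960216879712503554) (nat_lit 3)) .nil)) .nil))) (.cons (.br (nat_lit 12) (nat_lit 1) (.cons (.br (nat_lit 12) (nat_lit 1) (.cons (.ev (nat_lit 79229376180969236760128126976) (nat_lit 1)) .nil)) (.cons (.br (nat_lit 11) (nat_lit 1) (.cons (.ev (nat_lit 79229376180969236760128126976) (nat_lit 1)) .nil))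 .nil))) .nil)))),
 (.br (nat_lit 11) (nat_lit 1) (.cons (.rf (nat_lit 4530) (nat_lit 493858305440582043680)) (.cons (.rf (nat_lit 4531) (nat_lit 493858305440582043680)) (.cons (.br (nat_lit 2) (nat_lit 1) (.cons (.zr (nat_lit 3626832799076108652774144) (nat_lit 618974742009455585894858753) (nat_lit 5) (nat_lit 0)) (.cons (.ev (nat_lit 309485028340146736489103361) (nat_lit 1)) (.cons (.br (nat_lit 10) (nat_lit 1) (.cons (.ev (nat_lit 20521642725299023081648691808004) (nat_lit 3)) .nil)) .nil)))) .nil)))),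
 (.br (nat_lit 11) (nat_lit 1) (.cons (.rf (nat_lit 4530) (nat_lit 493858305440582043680)) (.cons (.rf (nat_lit 4531) (nat_lit 493858305440582043680)) (.cons (.rf (nat_lit 4532) (nat_lit 493858305440582043680)) (.cons (.br (nat_lit 11) (nat_lit 1) (.cons (.rf (nat_lit 4530) (nat_lit 493858305440582043680)) (.cons (.rf (nat_lit 4531) (nat_lit 493858305440582043680)) (.cons (.rf (nat_lit 4532) (nat_lit 493858305440582043680)) .nil)))) .nil)))))]

theorem c157 : chkAll C T R L157 (nat_lit 4507) = true := by decide +kernel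

theorem l157 : (nat_lit 4507) + L157.length = (nat_lit 4534) := by decide +kernel

/-- part of the certificates -/
def L158 : List Prf := [(.br (nat_lit 10) (nat_lit 1) (.cons (.ev (nat_lit 1208925891953698206187521) (nat_lit 1)) .nil)),
 (.br (nat_lit 1) (nat_lit 1) (.cons (.br (nat_lit 11) (nat_lit 1) (.cons (.rf (nat_lit 84) (nat_lit 8971659335)) (.cons (.br (nat_lit 12) (nat_lit 1) (.cons (.ev (nat_lit 79537652264971249778444730625) (nat_lit 1)) .nil)) .nil))) (.cons (.ev (nat_lit 1213666632842672057942273) (nat_lit 1)) (.cons (.br (nat_lit 12) (nat_lit 1) (.cons (.rf (nat_lit 4534) (nat_lit 15433072045017106464)) (.cons (.ev (nat_lit 20520096523231648859768423121410) (nat_lit 2)) .nil))) .nil)))),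
 (.br (nat_lit 12) (nat_lit 1) (.cons (.rf (nat_lit 4533) (nat_lit 493858305440582043680)) (.cons (.rf (nat_lit 4535) (nat_lit 493858305440582043680)) (.cons (.br (nat_lit 13) (nat_lit 1) (.cons (.rf (nat_lit 3873) (nat_lit 411385926495932481)) (.cons (.ev (nat_lit 79229376162522492686418575361) (nat_lit 1)) (.cons (.ev (nat_lit 309485028340146736489103361) (nat_lit 1)) .nil)))) .nil)))),
 (.br (nat_lit 12) (nat_lit 1) (.cons (.rf (nat_lit 4533) (nat_lit 493858305440582043680)) (.cons (.rf (nat_lit 4535) (nat_lit 493858305440582043680)) (.cons (.rf (nat_lit 4536) (nat_lit 493858305440582043680)) (.cons (.br (nat_lit 12) (nat_lit 1) (.cons (.rf (nat_lit 4533) (nat_lit 493858305440582043680)) (.cons (.rf (nat_lit 4535) (nat_lit 493858305440582043680)) (.cons (.rf (nat_lit 4536) (nat_lit 493858305440582043680)) .nil)))) .nil))))),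
 (.br (nat_lit 12) (nat_lit 1) (.cons (.rf (nat_lit 4533) (nat_lit 493858305440582043680)) (.cons (.rf (nat_lit 4537) (nat_lit 493858305440582043680)) (.cons (.br (nat_lit 1) (nat_lit 1) (.cons (.br (nat_lit 11) (nat_lit 1) (.cons (.zr (nat_lit 3626832799076108652774144) (nat_lit 618974742009455585894858753) (nat_lit 5) (nat_lit 0)) .nil)) (.cons (.br (nat_lit 2) (nat_lit 1) (.cons (.ev (nat_lit 20521026201464787309335572581636) (nat_lit 4)) .nil)) (.cons (.br (nat_lit 2) (nat_lit 1) (.cons (.zr (nat_lit 4840444091685460053787905) (nat_lit 238303457562435987695938306048) (nat_lit 10) (nat_lit 0)) .nil)) .nil)))) .nil)))),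
 (.br (nat_lit 12) (nat_lit 1) (.cons (.rf (nat_lit 4533) (nat_lit 493858305440582043680)) (.cons (.rf (nat_lit 4537) (nat_lit 493858305440582043680)) (.cons (.rf (nat_lit 4538) (nat_lit 493858305440582043680)) (.cons (.br (nat_lit 12) (nat_lit 1) (.cons (.rf (nat_lit 4533) (nat_lit 493858305440582043680)) (.cons (.rf (nat_lit 4537) (nat_lit 493858305440582043680)) (.cons (.rf (nat_lit 4538) (nat_lit 493858305440582043680)) .nil)))) .nil))))),
 (.br (nat_lit 12) (nat_lit 1) (.cons (.rf (nat_lit 4533) (nat_lit 493858305440582043680)) (.cons (.rf (nat_lit 4537) (nat_lit 493858305440582043680)) (.cons (.rf (nat_lit 4539) (nat_lit 493858305440582043680)) (.cons (.br (nat_lit 12) (nat_lit 1) (.cons (.rf (nat_lit 4533) (nat_lit 493858305440582043680)) (.cons (.rf (nat_lit 4537) (nat_lit 493858305440582043680)) (.cons (.rf (nat_lit 4539) (nat_lit 493858305440582043680)) .nil)))) .nil))))),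
 (.br (nat_lit 8) (nat_lit 1) (.cons (.rf (nat_lit 4502) (nat_lit 493858305440582043680)) (.cons (.rf (nat_lit 4521) (nat_lit 493858305440582043680)) (.cons (.rf (nat_lit 4526) (nat_lit 493858305440582043680)) (.cons (.br (nat_lit 1) (nat_lit 1) (.cons (.rf (nat_lit 1593) (nat_lit 424372611137)) (.cons (.rf (nat_lit 1593) (nat_lit 424372603201)) (.cons (.rf (nat_lit 4528) (nat_lit 493858305440582043680)) (.cons (.rf (nat_lit 4528) (nat_lit 492741412732994160672)) (.cons (.br (nat_lit 2) (nat_lit 1) (.cons (.rf (nat_lit 1593) (nat_lit 424372602178)) (.cons (.rf (nat_lit 4529) (nat_lit 493858305440582043680)) (.cons (.rf (nat_lit 4529) (nat_lit 492741412732994160672)) (.cons (.br (nat_lit 10) (nat_lit 1) (.cons (.rf (nat_lit 4452) (nat_lit 13164383732729219104)) (.cons (.rf (nat_lit 4452) (nat_lit 14316179337429223456)) (.cons (.ev (nat_lit 1213666632842672057942273) (nat_lit 1)) .nil)))) .nil))))) .nil)))))) (.cons (.br (nat_lit 12) (nat_lit 1) (.cons (.rf (nat_lit 4533) (nat_lit 493858305440582043680))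 (.cons (.rf (nat_lit 4537) (nat_lit 493858305440582043680)) (.cons (.rf (nat_lit 4539) (nat_lit 493858305440582043680)) (.cons (.rf (nat_lit 4540) (nat_lit 493858305440582043680)) (.cons (.br (nat_lit 12) (nat_lit 1) (.cons (.rf (nat_lit 4533) (nat_lit 493858305440582043680)) (.cons (.rf (nat_lit 4537) (nat_lit 493858305440582043680)) (.cons (.rf (nat_lit 4539) (nat_lit 493858305440582043680)) (.cons (.rf (nat_lit 4540) (nat_lit 493858305440582043680)) .nil))))) .nil)))))) .nil)))))),
 (.br (nat_lit 8) (nat_lit 1) (.cons (.rf (nat_lit 4502) (nat_lit 493858305440582043680)) (.cons (.rf (nat_lit 4521) (nat_lit 493858305440582043680)) (.cons (.rf (nat_lit 4526) (nat_lit 493858305440582043680)) (.cons (.rf (nat_lit 4541) (nat_lit 493858305440582043680)) (.cons (.rf (nat_lit 4541) (nat_lit 492741412732994160672)) (.cons (.br (nat_lit 8) (nat_lit 1) (.cons (.ev (nat_lit 18446745173237956864) (nat_lit 1)) (.cons (.rf (nat_lit 4521) (nat_lit 493858305440582043680)) (.cons (.rf (nat_lit 4526) (nat_lit 493858305440582043680))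 (.cons (.rf (nat_lit 4541) (nat_lit 493858305440582043680)) (.cons (.rf (nat_lit 4541) (nat_lit 492741412732994160672)) .nil)))))) .nil))))))),
 (.br (nat_lit 11) (nat_lit 1) (.cons (.rf (nat_lit 2594) (nat_lit 12224568385)) (.cons (.rf (nat_lit 2594) (nat_lit 12224563425)) (.cons (.br (nat_lit 2) (nat_lit 1) (.cons (.zr (nat_lit 310693935640959719391297536) (nat_lit 4722439947838566694914) (nat_lit 10) (nat_lit 4)) (.cons (.br (nat_lit 13) (nat_lit 1) (.cons (.zr (nat_lit 621392593720459859482181888) (nat_lit 79228162569604570914217787392) (nat_lit 5) (nat_lit 9)) .nil)) (.cons (.br (nat_lit 7) (nat_lit 1) (.cons (.ev (nat_lit 158768227927098911543240360705) (nat_lit 2)) (.cons (.ev (nat_lit 4740885284537409536001) (nat_lit 1)) .nil))) .nil)))) (.cons (.ev (nat_lit 309489750634573111607951616) (nat_lit 1)) .nil))))),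
 (.br (nat_lit 7) (nat_lit 1) (.cons (.ev (nat_lit 4740885284537409536001) (nat_lit 1)) (.cons (.br (nat_lit 11) (nat_lit 1) (.cons (.ev (nat_lit 79538856468424381537974288640) (nat_lit 1)) (.cons (.br (nat_lit 12) (nat_lit 1) (.cons (.zr (nat_lit 928455066501920021024866560) (nat_lit 79229385607183404130189312003) (nat_lit 10) (nat_lit 3)) .nil)) .nil))) (.cons (.br (nat_lit 11) (nat_lit 1) (.cons (.br (nat_lit 12) (nat_lit 1) (.cons (.zr (nat_lit 928455085020442408440037376) (nat_lit 396140817293688452316653420545) (nat_lit 5) (nat_lit 0)) .nil)) (.cons (.ev (nat_lit 20282719088661563827709542400001) (nat_lit 1)) .nil))) .nil)))),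
 (.br (nat_lit 11) (nat_lit 1) (.cons (.br (nat_lit 12) (nat_lit 1) (.cons (.ev (nat_lit 20282719088661563827709542400001) (nat_lit 1)) .nil)) (.cons (.ev (nat_lit 20283338063458841175343744745986) (nat_lit 2)) .nil))),
 (.br (nat_lit 7) (nat_lit 1) (.cons (.rf (nat_lit 84) (nat_lit 13165206593)) (.cons (.br (nat_lit 12) (nat_lit 1) (.cons (.zr (nat_lit 396146857256336454087026017540) (nat_lit 3713848452055322820559765504) (nat_lit 30) (nat_lit 0)) (.cons (.ev (nat_lit 79229376162522775265185169665) (nat_lit 1)) .nil))) (.cons (.br (nat_lit 13) (nat_lit 1) (.cons (.ev (nat_lit 20282412021540347259839664160771) (nat_lit 2)) (.cons (.ev (nat_lit 20282409608392555709584172384256) (nat_lit 1)) .nil))) .nil)))),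
 (.br (nat_lit 2) (nat_lit 1) (.cons (.rf (nat_lit 84) (nat_lit 13165206593)) (.cons (.br (nat_lit 11) (nat_lit 1) (.cons (.ev (nat_lit 79228162514336395187598721024) (nat_lit 1)) (.cons (.br (nat_lit 12) (nat_lit 1) (.cons (.ev (nat_lit 79849564607985940018464162305) (nat_lit 2)) .nil)) .nil))) (.cons (.br (nat_lit 12) (nat_lit 1) (.cons (.br (nat_lit 12) (nat_lit 1) (.cons (.ev (nat_lit 79537647524085964141540474881) (nat_lit 1)) .nil)) (.cons (.ev (nat_lit 20282410812596009121723445149953) (nat_lit 1)) .nil))) .nil)))),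
 (.br (nat_lit 11) (nat_lit 1) (.cons (.rf (nat_lit 4546) (nat_lit 493858305440582043680)) (.cons (.rf (nat_lit 4547) (nat_lit 493858305440582043680)) (.cons (.br (nat_lit 2) (nat_lit 1) (.cons (.br (nat_lit 12) (nat_lit 1) (.cons (.ev (nat_lit 79537647524085964141540474881) (nat_lit 1)) .nil)) (.cons (.rf (nat_lit 2946) (nat_lit 14316145252567746592)) (.cons (.ev (nat_lit 310693954087704871137509633) (nat_lit 1)) .nil)))) .nil)))),
 (.br (nat_lit 11) (nat_lit 1) (.cons (.rf (nat_lit 4546) (nat_lit 493858305440582043680)) (.cons (.rf (nat_lit 4547) (nat_lit 493858305440582043680)) (.cons (.rf (nat_lit 4548) (nat_lit 493858305440582043680)) (.cons (.br (nat_lit 11) (nat_lit 1) (.cons (.rf (nat_lit 4546) (nat_lit 493858305440582043680)) (.cons (.rf (nat_lit 4547) (nat_lit 493858305440582043680)) (.cons (.rf (nat_lit 4548) (nat_lit 493858305440582043680)) .nil)))) .nil))))),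
 (.br (nat_lit 1) (nat_lit 1) (.cons (.br (nat_lit 11) (nat_lit 1) (.cons (.ev (nat_lit 309489750634573111607951616) (nat_lit 1)) (.cons (.br (nat_lit 12) (nat_lit 1) (.cons (.ev (nat_lit 20522268948836688841098570040068) (nat_lit 3)) .nil)) .nil))) (.cons (.rf (nat_lit 58) (nat_lit 12814378)) (.cons (.br (nat_lit 12) (nat_lit 1) (.cons (.br (nat_lit 11) (nat_lit 1) (.cons (.ev (nat_lit 310693954087704871137509633) (nat_lit 1)) .nil)) (.cons (.ev (nat_lit 20520094105380153747897172819970) (nat_lit 2)) .nil))) .nil)))),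
 (.br (nat_lit 12) (nat_lit 1) (.cons (.rf (nat_lit 2946) (nat_lit 14316145252567746592)) (.cons (.rf (nat_lit 4550) (nat_lit 493858305440582043680)) (.cons (.br (nat_lit 7) (nat_lit 1) (.cons (.ev (nat_lit 79234207272635423319191389188) (nat_lit 3)) (.cons (.zr (nat_lit 618970019715032509294051328) (nat_lit 158457533972795033890022490112) (nat_lit 5) (nat_lit 5)) (.cons (.ev (nat_lit 4740885284537409536001) (nat_lit 1)) .nil)))) .nil)))),
 (.br (nat_lit 12) (nat_lit 1) (.cons (.rf (nat_lit 4549) (nat_lit 493858305440582043680)) (.cons (.rf (nat_lit 4550) (nat_lit 493858305440582043680)) (.cons (.rf (nat_lit 4551) (nat_lit 493858305440582043680)) (.cons (.br (nat_lit 12) (nat_lit 1) (.cons (.rf (nat_lit 4549) (nat_lit 493858305440582043680)) (.cons (.rf (nat_lit 4550) (nat_lit 493858305440582043680)) (.cons (.rf (nat_lit 4551) (nat_lit 493858305440582043680)) .nil)))) .nil))))),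
 (.br (nat_lit 11) (nat_lit 1) (.cons (.ev (nat_lit 79537647524085964141540474881) (nat_lit 1)) .nil)),
 (.br (nat_lit 12) (nat_lit 1) (.cons (.rf (nat_lit 4549) (nat_lit 493858305440582043680)) (.cons (.rf (nat_lit 4552) (nat_lit 493858305440582043680)) (.cons (.br (nat_lit 1) (nat_lit 1) (.cons (.rf (nat_lit 4553) (nat_lit 493858305440582043680)) (.cons (.ev (nat_lit 309489750634573111607951616) (nat_lit 1)) (.cons (.br (nat_lit 2) (nat_lit 1) (.cons (.zr (nat_lit 4741101458419018301697) (nat_lit 238303457562435984397403422720) (nat_lit 10) (nat_lit 0)) .nil)) .nil)))) .nil)))),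
 (.br (nat_lit 12) (nat_lit 1) (.cons (.rf (nat_lit 4549) (nat_lit 493858305440582043680)) (.cons (.rf (nat_lit 4552) (nat_lit 493858305440582043680)) (.cons (.rf (nat_lit 4554) (nat_lit 493858305440582043680)) (.cons (.br (nat_lit 12) (nat_lit 1) (.cons (.rf (nat_lit 4549) (nat_lit 493858305440582043680)) (.cons (.rf (nat_lit 4552) (nat_lit 493858305440582043680)) (.cons (.rf (nat_lit 4554) (nat_lit 493858305440582043680)) .nil)))) .nil))))),
 (.br (nat_lit 12) (nat_lit 1) (.cons (.rf (nat_lit 4549) (nat_lit 493858305440582043680)) (.cons (.rf (nat_lit 4552) (nat_lit 493858305440582043680)) (.cons (.rf (nat_lit 4555) (nat_lit 493858305440582043680)) (.cons (.br (nat_lit 12) (nat_lit 1) (.cons (.rf (nat_lit 4549) (nat_lit 493858305440582043680)) (.cons (.rf (nat_lit 4552) (nat_lit 493858305440582043680)) (.cons (.rf (nat_lit 4555) (nat_lit 493858305440582043680)) .nil)))) .nil))))),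
 (.br (nat_lit 8) (nat_lit 1) (.cons (.rf (nat_lit 4502) (nat_lit 493858305440582043680)) (.cons (.rf (nat_lit 4521) (nat_lit 493858305440582043680)) (.cons (.rf (nat_lit 4542) (nat_lit 493858305440582043680)) (.cons (.br (nat_lit 1) (nat_lit 1) (.cons (.rf (nat_lit 1593) (nat_lit 424473271361)) (.cons (.rf (nat_lit 1593) (nat_lit 424473266401)) (.cons (.rf (nat_lit 4543) (nat_lit 493858305440582043680)) (.cons (.rf (nat_lit 4543) (nat_lit 492741412732994160672)) (.cons (.br (nat_lit 2) (nat_lit 1) (.cons (.rf (nat_lit 1593) (nat_lit 424473265378)) (.cons (.rf (nat_lit 4544) (nat_lit 493858305440582043680)) (.cons (.rf (nat_lit 4544) (nat_lit 492741412732994160672)) (.cons (.br (nat_lit 7) (nat_lit 1) (.cons (.rf (nat_lit 4545) (nat_lit 493858305440582043680)) (.cons (.rf (nat_lit 4545) (nat_lit 492741412732994160672)) (.cons (.ev (nat_lit 4740885284537409536001) (nat_lit 1)) .nil)))) .nil))))) .nil)))))) (.cons (.br (nat_lit 12) (nat_lit 1) (.cons (.rf (nat_lit 4549) (nat_lit 493858305440582043680))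 (.cons (.rf (nat_lit 4552) (nat_lit 493858305440582043680)) (.cons (.rf (nat_lit 4555) (nat_lit 493858305440582043680)) (.cons (.rf (nat_lit 4556) (nat_lit 493858305440582043680)) (.cons (.br (nat_lit 12) (nat_lit 1) (.cons (.rf (nat_lit 4549) (nat_lit 493858305440582043680)) (.cons (.rf (nat_lit 4552) (nat_lit 493858305440582043680)) (.cons (.rf (nat_lit 4555) (nat_lit 493858305440582043680)) (.cons (.rf (nat_lit 4556) (nat_lit 493858305440582043680)) .nil))))) .nil)))))) .nil)))))),
 (.br (nat_lit 8) (nat_lit 1) (.cons (.rf (nat_lit 4502) (nat_lit 493858305440582043680)) (.cons (.rf (nat_lit 4521) (nat_lit 493858305440582043680)) (.cons (.rf (nat_lit 4542) (nat_lit 493858305440582043680)) (.cons (.rf (nat_lit 4557) (nat_lit 493858305440582043680)) (.cons (.rf (nat_lit 4557) (nat_lit 492741412732994160672)) (.cons (.br (nat_lit 8) (nat_lit 1) (.cons (.rf (nat_lit 4502) (nat_lit 493858305440582043680)) (.cons (.rf (nat_lit 4521) (nat_lit 493858305440582043680)) (.cons (.rf (nat_lit 4542) (nat_lit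 493858305440582043680)) (.cons (.rf (nat_lit 4557) (nat_lit 493858305440582043680)) (.cons (.rf (nat_lit 4557) (nat_lit 492741412732994160672)) .nil)))))) .nil))))))),
 (.br (nat_lit 7) (nat_lit 1) (.cons (.ev (nat_lit 310698658079782740366000385) (nat_lit 1)) (.cons (.br (nat_lit 11) (nat_lit 1) (.cons (.ev (nat_lit 20680106322734751970889197617408) (nat_lit 3)) .nil)) (.cons (.br (nat_lit 11) (nat_lit 1) (.cons (.ev (nat_lit 20680725292680464688863682823938) (nat_lit 3)) .nil)) .nil)))),
 (.br (nat_lit 2) (nat_lit 1) (.cons (.br (nat_lit 12) (nat_lit 1) (.cons (.ev (nat_lit 20839179199968034599234678753026) (nat_lit 3)) .nil)) (.cons (.br (nat_lit 11) (nat_lit 1) (.cons (.ev (nat_lit 20681344281847972410056346767106) (nat_lit 4)) .nil)) (.cons (.rf (nat_lit 4559) (nat_lit 493858305440582043680)) .nil))))]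

theorem c158 : chkAll C T R L158 (nat_lit 4534) = true := by decide +kernel

theorem l158 : (nat_lit 4534) + L158.length = (nat_lit 4561) := by decide +kernel

/-- part of the certificates -/
def L159 : List Prf := [(.br (nat_lit 10) (nat_lit 1) (.cons (.br (nat_lit 7) (nat_lit 1) (.cons (.rf (nat_lit 29) (nat_lit 11765058)) (.cons (.br (nat_lit 12) (nat_lit 1) (.cons (.ev (nat_lit 309489732188109417641738241) (nat_lit 1)) (.cons (.zr (nat_lit 237688114320251856668155970304) (nat_lit 4759260253595864399873) (nat_lit 5) (nat_lit 9)) .nil))) (.cons (.ev (nat_lit 4740885284537409536001) (nat_lit 1)) .nil)))) (.cons (.br (nat_lit 2) (nat_lit 1) (.cons (.ev (nat_lit 1213666632842672057942273) (nat_lit 1)) (.cons (.zr (nat_lit 4835721725202611900055808) (nat_lit 9444878489401761464321) (nat_lit 10) (nat_lit 4)) (.cons (.ev (nat_lit 4740885284537409536001) (nat_lit 1)) .nil)))) (.cons (.ev (nat_lit 309489750634573111607951616) (nat_lit 1)) (.cons (.br (nat_lit 13) (nat_lit 1) (.cons (.rf (nat_lit 4559)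 (nat_lit 493858305440582043680)) (.cons (.rf (nat_lit 4560) (nat_lit 493858305440582043680)) (.cons (.br (nat_lit 13) (nat_lit 1) (.cons (.rf (nat_lit 4559) (nat_lit 493858305440582043680)) (.cons (.rf (nat_lit 4560) (nat_lit 493858305440582043680)) (.cons (.ev (nat_lit 20282410817318303265519797534976) (nat_lit 1)) .nil)))) (.cons (.br (nat_lit 13) (nat_lit 1) (.cons (.ev (nat_lit 20361637770906748271062933307393) (nat_lit 1)) (.cons (.rf (nat_lit 4560) (nat_lit 493858305440582043680)) (.cons (.ev (nat_lit 20282410817318303265519797534976) (nat_lit 1)) .nil)))) .nil))))) (.cons (.br (nat_lit 7) (nat_lit 1) (.cons (.br (nat_lit 11) (nat_lit 1) (.cons (.br (nat_lit 12) (nat_lit 1) (.cons (.ev (nat_lit 79229376162522492686418575361) (nat_lit 1)) .nil)) (.cons (.rf (nat_lit 31) (nat_lit 448070882)) .nil))) (.cons (.ev (nat_lit 310698676526244235308957696) (nat_lit 1)) (.cons (.br (nat_lit 2) (nat_lit 1) (.cons (.br (nat_lit 12) (nat_lit 1) (.cons (.ev (nat_lit 20837943677669852661922591474436) (nat_lit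 3)) .nil)) (.cons (.zr (nat_lit 237688114320251856668155970304) (nat_lit 4759260253595864399873) (nat_lit 5) (nat_lit 9)) (.cons (.br (nat_lit 11) (nat_lit 1) (.cons (.ev (nat_lit 311912343303202095442887425) (nat_lit 2)) .nil)) .nil)))) (.cons (.ev (nat_lit 20282409608392555709584172384256) (nat_lit 1)) .nil))))) .nil)))))),
 (.br (nat_lit 1) (nat_lit 1) (.cons (.br (nat_lit 10) (nat_lit 1) (.cons (.ev (nat_lit 1213666632842672057942273) (nat_lit 1)) (.cons (.br (nat_lit 11) (nat_lit 1) (.cons (.ev (nat_lit 79537652264971249778444730625) (nat_lit 1)) (.cons (.zr (nat_lit 932081806922879093698462464) (nat_lit 4759260253595864399873) (nat_lit 5) (nat_lit 9)) .nil))) (.cons (.br (nat_lit 11) (nat_lit 1) (.cons (.zr (nat_lit 932081806922879093698462464) (nat_lit 4759260253595864399873) (nat_lit 5) (nat_lit 9)) (.cons (.ev (nat_lit 20282719093402305278538114138113) (nat_lit 1)) .nil))) .nil)))) (.cons (.br (nat_lit 7) (nat_lit 1) (.cons (.rf (nat_lit 29) (nat_lit 11766081)) (.cons (.br (nat_lit 12)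 (nat_lit 1) (.cons (.ev (nat_lit 79231798791941340166940131584) (nat_lit 2)) (.cons (.ev (nat_lit 79229376180969236760128126976) (nat_lit 1)) .nil))) (.cons (.br (nat_lit 13) (nat_lit 1) (.cons (.rf (nat_lit 31) (nat_lit 447973697)) (.cons (.ev (nat_lit 20282409608374109245890206171393) (nat_lit 1)) .nil))) .nil)))) (.cons (.rf (nat_lit 4561) (nat_lit 493858305440582043680)) (.cons (.rf (nat_lit 4561) (nat_lit 492741412732994160672)) (.cons (.br (nat_lit 7) (nat_lit 1) (.cons (.kr (nat_lit 1208925819614629174706432) (nat_lit 72058693549555712) (nat_lit 1) (nat_lit 0)) (.cons (.br (nat_lit 10) (nat_lit 1) (.cons (.zr (nat_lit 932081806922879093698462464) (nat_lit 4759260253595864399873) (nat_lit 5) (nat_lit 9)) (.cons (.rf (nat_lit 82) (nat_lit 9038011457)) .nil))) (.cons (.br (nat_lit 10) (nat_lit 1) (.cons (.zr (nat_lit 928455029680210187311382528) (nat_lit 4759260252496352772097) (nat_lit 5) (nat_lit 9)) (.cons (.br (nat_lit 11) (nat_lit 1) (.cons (.ev (nat_lit 310698676526526814075552000) (nat_lit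 1)) .nil)) (.cons (.br (nat_lit 11) (nat_lit 1) (.cons (.ev (nat_lit 310698676526526814075552000) (nat_lit 1)) .nil)) .nil)))) (.cons (.br (nat_lit 10) (nat_lit 1) (.cons (.rf (nat_lit 82) (nat_lit 9037916225)) (.cons (.br (nat_lit 11) (nat_lit 1) (.cons (.ev (nat_lit 310698676526526814075552000) (nat_lit 1)) .nil)) .nil))) .nil))))) .nil)))))),
 (.br (nat_lit 1) (nat_lit 1) (.cons (.br (nat_lit 11) (nat_lit 1) (.cons (.ev (nat_lit 79228167236631101942460907521) (nat_lit 1)) (.cons (.zr (nat_lit 932081806922879093698462464) (nat_lit 4759260253595864399873) (nat_lit 5) (nat_lit 9)) .nil))) (.cons (.rf (nat_lit 4561) (nat_lit 493858305440582043680)) (.cons (.ev (nat_lit 79228167255077565636427120896) (nat_lit 1)) (.cons (.br (nat_lit 2) (nat_lit 1) (.cons (.zr (nat_lit 932081806922879093698462464) (nat_lit 4759260253595864399873) (nat_lit 5) (nat_lit 9)) (.cons (.zr (nat_lit 237684487543009187761768890368) (nat_lit 4759260252496352772097) (nat_lit 5) (nat_lit 9)) (.cons (.zr (nat_lit 60847232437732686288511391760384)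 (nat_lit 4759260253595864399873) (nat_lit 5) (nat_lit 9)) .nil)))) .nil))))),
 (.br (nat_lit 12) (nat_lit 1) (.cons (.rf (nat_lit 4561) (nat_lit 492741412732994160672)) (.cons (.rf (nat_lit 4562) (nat_lit 492741412732994160672)) (.cons (.rf (nat_lit 4563) (nat_lit 493858305440582043680)) (.cons (.br (nat_lit 1) (nat_lit 1) (.cons (.br (nat_lit 10) (nat_lit 1) (.cons (.zr (nat_lit 932081806922879093698462464) (nat_lit 4759260253595864399873) (nat_lit 5) (nat_lit 9)) .nil)) (.cons (.br (nat_lit 2) (nat_lit 1) (.cons (.zr (nat_lit 928455029464035206174540544) (nat_lit 158456329750895440635533197313) (nat_lit 5) (nat_lit 0)) .nil)) (.cons (.kr (nat_lit 309485009821345068724781312) (nat_lit 20282409603651742481541289213952) (nat_lit 1) (nat_lit 0)) .nil)))) .nil))))),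
 (.br (nat_lit 12) (nat_lit 1) (.cons (.rf (nat_lit 4561) (nat_lit 492741412732994160672)) (.cons (.rf (nat_lit 4562) (nat_lit 492741412732994160672)) (.cons (.rf (nat_lit 4563) (nat_lit 493858305440582043680)) (.cons (.rf (nat_lit 4564) (nat_lit 493858305440582043680)) (.cons (.br (nat_lit 12) (nat_lit 1) (.cons (.rf (nat_lit 4561) (nat_lit 492741412732994160672)) (.cons (.rf (nat_lit 4562) (nat_lit 492741412732994160672)) (.cons (.rf (nat_lit 4563) (nat_lit 493858305440582043680)) (.cons (.rf (nat_lit 4564) (nat_lit 493858305440582043680)) .nil))))) .nil)))))),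
 (.br (nat_lit 2) (nat_lit 1) (.cons (.ev (nat_lit 309489732188109417641738241) (nat_lit 1)) (.cons (.zr (nat_lit 928455029680210187311382528) (nat_lit 4759260252496352772097) (nat_lit 5) (nat_lit 9)) (.cons (.rf (nat_lit 4562) (nat_lit 492741412732994160672)) (.cons (.br (nat_lit 12) (nat_lit 1) (.cons (.rf (nat_lit 4561) (nat_lit 492741412732994160672)) (.cons (.rf (nat_lit 4565) (nat_lit 492741412732994160672)) (.cons (.br (nat_lit 1) (nat_lit 1) (.cons (.zr (nat_lit 928455029464035206174540544) (nat_lit 158456329750895440635533197313) (nat_lit 5) (nat_lit 0)) .nil)) .nil)))) .nil))))),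
 (.br (nat_lit 12) (nat_lit 1) (.cons (.rf (nat_lit 4561) (nat_lit 492741412732994160672)) (.cons (.rf (nat_lit 4562) (nat_lit 492741412732994160672)) (.cons (.rf (nat_lit 4565) (nat_lit 492741412732994160672)) (.cons (.rf (nat_lit 4566) (nat_lit 493858305440582043680)) (.cons (.br (nat_lit 12) (nat_lit 1) (.cons (.rf (nat_lit 4561) (nat_lit 492741412732994160672)) (.cons (.rf (nat_lit 4562) (nat_lit 492741412732994160672)) (.cons (.rf (nat_lit 4565) (nat_lit 492741412732994160672)) (.cons (.rf (nat_lit 4566) (nat_lit 493858305440582043680)) .nil))))) .nil)))))),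
 (.br (nat_lit 11) (nat_lit 1) (.cons (.rf (nat_lit 4561) (nat_lit 493858305440582043680)) (.cons (.rf (nat_lit 4562) (nat_lit 493858305440582043680)) (.cons (.rf (nat_lit 4565) (nat_lit 493858305440582043680)) (.cons (.rf (nat_lit 4567) (nat_lit 493858305440582043680)) (.cons (.br (nat_lit 12) (nat_lit 1) (.cons (.rf (nat_lit 4561) (nat_lit 492741412732994160672)) (.cons (.rf (nat_lit 4562) (nat_lit 492741412732994160672)) (.cons (.rf (nat_lit 4565) (nat_lit 492741412732994160672)) (.cons (.rf (nat_lit 4567) (nat_lit 492741412732994160672)) (.cons (.kr (nat_lit 309485009821345068724781056) (nat_lit 79228162514264337593543950336) (nat_lit 11) (nat_lit 0)) .nil)))))) .nil)))))),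
 (.br (nat_lit 8) (nat_lit 1) (.cons (.rf (nat_lit 4502) (nat_lit 493858305440582043680)) (.cons (.rf (nat_lit 4521) (nat_lit 493858305440582043680)) (.cons (.rf (nat_lit 4542) (nat_lit 493858305440582043680)) (.cons (.rf (nat_lit 4558) (nat_lit 493858305440582043680)) (.cons (.br (nat_lit 11) (nat_lit 1) (.cons (.rf (nat_lit 4561) (nat_lit 493858305440582043680)) (.cons (.rf (nat_lit 4562) (nat_lit 493858305440582043680)) (.cons (.rf (nat_lit 4565) (nat_lit 493858305440582043680)) (.cons (.rf (nat_lit 4567) (nat_lit 493858305440582043680)) (.cons (.rf (nat_lit 4568) (nat_lit 493858305440582043680)) (.cons (.br (nat_lit 11) (nat_lit 1) (.cons (.rf (nat_lit 4561) (nat_lit 493858305440582043680)) (.cons (.rf (nat_lit 4562) (nat_lit 493858305440582043680)) (.cons (.rf (nat_lit 4565) (nat_lit 493858305440582043680)) (.cons (.rf (nat_lit 4567) (nat_lit 493858305440582043680)) (.cons (.rf (nat_lit 4568) (nat_lit 493858305440582043680)) .nil)))))) .nil))))))) .nil)))))),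
 (.br (nat_lit 8) (nat_lit 1) (.cons (.rf (nat_lit 4502) (nat_lit 493858305440582043680)) (.cons (.rf (nat_lit 4521) (nat_lit 493858305440582043680)) (.cons (.rf (nat_lit 4542) (nat_lit 493858305440582043680)) (.cons (.rf (nat_lit 4558) (nat_lit 493858305440582043680)) (.cons (.rf (nat_lit 4569) (nat_lit 493858305440582043680)) (.cons (.br (nat_lit 8) (nat_lit 1) (.cons (.rf (nat_lit 4502) (nat_lit 493858305440582043680)) (.cons (.rf (nat_lit 4521) (nat_lit 493858305440582043680)) (.cons (.rf (nat_lit 4542) (nat_lit 493858305440582043680)) (.cons (.rf (nat_lit 4558) (nat_lit 493858305440582043680)) (.cons (.rf (nat_lit 4569) (nat_lit 493858305440582043680)) .nil)))))) .nil))))))),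
 (.br (nat_lit 10) (nat_lit 0) (.cons (.br (nat_lit 6) (nat_lit 1) (.cons (.br (nat_lit 8) (nat_lit 1) (.cons (.rf (nat_lit 4427) (nat_lit 493858305440582043680)) (.cons (.rf (nat_lit 4442) (nat_lit 493858305440582043680)) (.cons (.rf (nat_lit 4454) (nat_lit 493858305440582043680)) (.cons (.rf (nat_lit 4461) (nat_lit 493858305440582043680)) (.cons (.rf (nat_lit 4474) (nat_lit 493858305440582043680)) (.cons (.rf (nat_lit 4474) (nat_lit 492741412732994160672)) (.cons (.br (nat_lit 8) (nat_lit 1) (.cons (.rf (nat_lit 4427) (nat_lit 493858305440582043680)) (.cons (.rf (nat_lit 4442) (nat_lit 493858305440582043680)) (.cons (.rf (nat_lit 4454) (nat_lit 493858305440582043680)) (.cons (.rf (nat_lit 4461) (nat_lit 493858305440582043680)) (.cons (.rf (nat_lit 4474) (nat_lit 493858305440582043680)) (.cons (.rf (nat_lit 4474) (nat_lit 492741412732994160672)) .nil))))))) .nil)))))))) .nil)) (.cons (.br (nat_lit 5) (nat_lit 1) (.cons (.br (nat_lit 8) (nat_lit 1) (.cons (.rf (nat_lit 4502) (nat_lit 493858305440582043680))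 (.cons (.rf (nat_lit 4521) (nat_lit 493858305440582043680)) (.cons (.rf (nat_lit 4542) (nat_lit 493858305440582043680)) (.cons (.rf (nat_lit 4558) (nat_lit 493858305440582043680)) (.cons (.rf (nat_lit 4570) (nat_lit 493858305440582043680)) (.cons (.rf (nat_lit 4570) (nat_lit 492741412732994160672)) (.cons (.br (nat_lit 8) (nat_lit 1) (.cons (.rf (nat_lit 4502) (nat_lit 493858305440582043680)) (.cons (.rf (nat_lit 4521) (nat_lit 493858305440582043680)) (.cons (.rf (nat_lit 4542) (nat_lit 493858305440582043680)) (.cons (.rf (nat_lit 4558) (nat_lit 493858305440582043680)) (.cons (.rf (nat_lit 4570) (nat_lit 493858305440582043680)) (.cons (.rf (nat_lit 4570) (nat_lit 492741412732994160672)) .nil))))))) .nil)))))))) .nil)) .nil))),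
 (.br (nat_lit 9) (nat_lit 1) (.cons (.br (nat_lit 9) (nat_lit 1) (.cons (.br (nat_lit 4) (nat_lit 1) (.cons (.rf (nat_lit 4571) (nat_lit 14242959524133701664)) (.cons (.br (nat_lit 6) (nat_lit 1) (.cons (.rf (nat_lit 4571) (nat_lit 14242959521988315168)) .nil)) .nil))) .nil)) .nil)),
 (.br (nat_lit 11) (nat_lit 1) (.cons (.ev (nat_lit 309489732188109417641738241) (nat_lit 1)) (.cons (.rf (nat_lit 31) (nat_lit 380017729)) .nil))),
 (.br (nat_lit 10) (nat_lit 1) (.cons (.rf (nat_lit 4573) (nat_lit 493858305440582043680)) (.cons (.rf (nat_lit 4573) (nat_lit 492741412732994160672)) (.cons (.ev (nat_lit 20282409608392555709584172449793) (nat_lit 1)) .nil)))),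
 (.br (nat_lit 8) (nat_lit 1) (.cons (.rf (nat_lit 1593) (nat_lit 388939134017)) (.cons (.br (nat_lit 7) (nat_lit 1) (.cons (.rf (nat_lit 4574) (nat_lit 493858305440582043680)) (.cons (.rf (nat_lit 4574) (nat_lit 493823402543469922336)) (.cons (.rf (nat_lit 4574) (nat_lit 492671606938769917984)) (.cons (.ev (nat_lit 20282409608392555989963915657473) (nat_lit 1)) .nil))))) (.cons (.rf (nat_lit 1593) (nat_lit 389140454465)) .nil)))),
 (.br (nat_lit 8) (nat_lit 1) (.cons (.rf (nat_lit 1982) (nat_lit 15071359418894368)) (.cons (.rf (nat_lit 4575) (nat_lit 493858305440582043680)) (.cons (.rf (nat_lit 4575) (nat_lit 492741412732994160672)) (.cons (.rf (nat_lit 1625) (nat_lit 13583143679041)) .nil))))),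
 (.br (nat_lit 13) (nat_lit 1) (.cons (.ev (nat_lit 310698676526526814075486465) (nat_lit 1)) (.cons (.zr (nat_lit 60847232437732686288511391760384) (nat_lit 4759260253595864399873) (nat_lit 5) (nat_lit 9)) .nil))),
 (.br (nat_lit 10) (nat_lit 1) (.cons (.rf (nat_lit 4577) (nat_lit 493858305440582043680)) (.cons (.rf (nat_lit 4577) (nat_lit 492741412732994160672)) (.cons (.ev (nat_lit 20282409608392555709584172449793) (nat_lit 1)) .nil)))),
 (.br (nat_lit 8) (nat_lit 1) (.cons (.rf (nat_lit 1593) (nat_lit 388771362017)) (.cons (.br (nat_lit 2) (nat_lit 1) (.cons (.rf (nat_lit 4578) (nat_lit 493858305440582043680)) (.cons (.rf (nat_lit 4578) (nat_lit 493823402543469922336)) (.cons (.rf (nat_lit 4578) (nat_lit 492671606938769917984)) (.cons (.zr (nat_lit 20282409603670189225614998897152) (nat_lit 4722366765448445296641) (nat_lit 5) (nat_lit 0)) .nil))))) (.cons (.rf (nat_lit 1593) (nat_lit 389140449505)) .nil)))),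
 (.br (nat_lit 8) (nat_lit 1) (.cons (.rf (nat_lit 1982) (nat_lit 15071359413656608)) (.cons (.rf (nat_lit 4579) (nat_lit 493858305440582043680)) (.cons (.rf (nat_lit 4579) (nat_lit 492741412732994160672)) (.cons (.rf (nat_lit 1627) (nat_lit 434660798700576)) .nil))))),
 (.br (nat_lit 8) (nat_lit 1) (.cons (.br (nat_lit 11) (nat_lit 1) (.cons (.ev (nat_lit 20361637770888301526989223821313) (nat_lit 1)) .nil)) .nil)),
 (.br (nat_lit 10) (nat_lit 1) (.cons (.rf (nat_lit 84) (nat_lit 12090127431)) (.cons (.rf (nat_lit 84) (nat_lit 8969761857)) (.cons (.br (nat_lit 8) (nat_lit 1) (.cons (.rf (nat_lit 4581) (nat_lit 493858305440582043680)) (.cons (.br (nat_lit 11) (nat_lit 1) (.cons (.rf (nat_lit 4581) (nat_lit 493858305440582043680)) (.cons (.ev (nat_lit 20361637770888301526989223821313) (nat_lit 1)) .nil))) .nil))) .nil)))),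
 (.br (nat_lit 8) (nat_lit 1) (.cons (.rf (nat_lit 3170) (nat_lit 13583137387746)) (.cons (.br (nat_lit 10) (nat_lit 1) (.cons (.zr (nat_lit 3626777675021067684413440) (nat_lit 40564819212062601100390855344129) (nat_lit 5) (nat_lit 9)) (.cons (.ev (nat_lit 20361638979814192917733181554688) (nat_lit 1)) .nil))) .nil))),
 (.br (nat_lit 8) (nat_lit 1) (.cons (.rf (nat_lit 3170) (nat_lit 13583137387746)) (.cons (.br (nat_lit 11) (nat_lit 1) (.cons (.br (nat_lit 10) (nat_lit 1) (.cons (.ev (nat_lit 79537647542532427835506688256) (nat_lit 1)) .nil)) (.cons (.zr (nat_lit 101412357503268533752775170916611) (nat_lit 396140817293688735994965131264) (nat_lit 10) (nat_lit 0)) .nil))) .nil)))]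

theorem c159 : chkAll C T R L159 (nat_lit 4561) = true := by decide +kernel

theorem l159 : (nat_lit 4561) + L159.length = (nat_lit 4585) := by decide +kernel

/-- part of the certificates -/
def L160 : List Prf := [(.br (nat_lit 8) (nat_lit 1) (.cons (.rf (nat_lit 4583) (nat_lit 493858305440582043680)) (.cons (.rf (nat_lit 4584) (nat_lit 493858305440582043680)) (.cons (.br (nat_lit 8) (nat_lit 1) (.cons (.rf (nat_lit 4583) (nat_lit 493858305440582043680)) (.cons (.rf (nat_lit 4584) (nat_lit 493858305440582043680)) .nil))) .nil)))),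
 (.br (nat_lit 12) (nat_lit 1) (.cons (.rf (nat_lit 4585) (nat_lit 493858305440582043680)) (.cons (.br (nat_lit 11) (nat_lit 1) (.cons (.zr (nat_lit 928455029464035206174540544) (nat_lit 158456329750895440635533197313) (nat_lit 5) (nat_lit 0)) (.cons (.zr (nat_lit 928464474197000945464967936) (nat_lit 396140812571321970546519834625) (nat_lit 5) (nat_lit 0)) (.cons (.ev (nat_lit 310693935640960797427892481) (nat_lit 1)) .nil)))) .nil))),
 (.br (nat_lit 12) (nat_lit 1) (.cons (.rf (nat_lit 4585) (nat_lit 493858305440582043680)) (.cons (.rf (nat_lit 4586) (nat_lit 493858305440582043680)) (.cons (.br (nat_lit 12) (nat_lit 1) (.cons (.rf (nat_lit 4585) (nat_lit 493858305440582043680)) (.cons (.rf (nat_lit 4586) (nat_lit 493858305440582043680)) .nil))) .nil)))),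
 (.br (nat_lit 12) (nat_lit 1) (.cons (.rf (nat_lit 4585) (nat_lit 493858305440582043680)) (.cons (.rf (nat_lit 4587) (nat_lit 493858305440582043680)) (.cons (.br (nat_lit 12) (nat_lit 1) (.cons (.kr (nat_lit 4722366482869645213696) (nat_lit 79228162514264337593543950336) (nat_lit 9) (nat_lit 0)) (.cons (.rf (nat_lit 4587) (nat_lit 493858305440582043680)) .nil))) .nil)))),
 (.br (nat_lit 12) (nat_lit 1) (.cons (.rf (nat_lit 4585) (nat_lit 493858305440582043680)) (.cons (.rf (nat_lit 4587) (nat_lit 493858305440582043680)) (.cons (.rf (nat_lit 4588) (nat_lit 493858305440582043680)) (.cons (.br (nat_lit 12) (nat_lit 1) (.cons (.rf (nat_lit 4585) (nat_lit 493858305440582043680)) (.cons (.rf (nat_lit 4587) (nat_lit 493858305440582043680)) (.cons (.rf (nat_lit 4588) (nat_lit 493858305440582043680)) .nil)))) .nil))))),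
 (.br (nat_lit 13) (nat_lit 1) (.cons (.rf (nat_lit 1627) (nat_lit 434660396053728)) (.cons (.rf (nat_lit 1637) (nat_lit 13583143679010)) (.cons (.br (nat_lit 7) (nat_lit 1) (.cons (.rf (nat_lit 1343) (nat_lit 387963958337)) (.cons (.rf (nat_lit 58) (nat_lit 10918977)) (.cons (.rf (nat_lit 4582) (nat_lit 493858305440582043680)) (.cons (.rf (nat_lit 4582) (nat_lit 492741412732994160672)) .nil))))) (.cons (.rf (nat_lit 4589) (nat_lit 493858305440582043680)) (.cons (.rf (nat_lit 4589) (nat_lit 492741412732994160672)) .nil)))))),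
 (.br (nat_lit 10) (nat_lit 1) (.cons (.rf (nat_lit 84) (nat_lit 12090159143)) (.cons (.ev (nat_lit 158457533954565026656431571201) (nat_lit 2)) (.cons (.br (nat_lit 8) (nat_lit 1) (.cons (.br (nat_lit 8) (nat_lit 1) (.cons (.ev (nat_lit 1208944338698875705491713) (nat_lit 1)) .nil)) (.cons (.br (nat_lit 8) (nat_lit 1) (.cons (.ev (nat_lit 1208944338698875705491713) (nat_lit 1)) .nil)) .nil))) .nil)))),
 (.br (nat_lit 8) (nat_lit 1) (.cons (.rf (nat_lit 3170) (nat_lit 13583138436321)) (.cons (.br (nat_lit 10) (nat_lit 1) (.cons (.zr (nat_lit 81129643250384035923935354683392) (nat_lit 37778931871753255059459) (nat_lit 15) (nat_lit 3)) (.cons (.ev (nat_lit 79229371440084233701990400001) (nat_lit 1)) .nil))) .nil))),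
 (.br (nat_lit 11) (nat_lit 1) (.cons (.br (nat_lit 10) (nat_lit 1) (.cons (.ev (nat_lit 20282720302309750205588105593088) (nat_lit 1)) (.cons (.ev (nat_lit 1213648186378978091663361) (nat_lit 1)) .nil))) (.cons (.zr (nat_lit 1237940039285943233559921664) (nat_lit 18889465940274673942531) (nat_lit 15) (nat_lit 3)) .nil))),
 (.br (nat_lit 8) (nat_lit 1) (.cons (.rf (nat_lit 4592) (nat_lit 493858305440582043680)) (.cons (.rf (nat_lit 4593) (nat_lit 493858305440582043680)) (.cons (.br (nat_lit 8) (nat_lit 1) (.cons (.rf (nat_lit 4592) (nat_lit 493858305440582043680)) (.cons (.rf (nat_lit 4593) (nat_lit 493858305440582043680)) .nil))) .nil)))),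
 (.br (nat_lit 10) (nat_lit 1) (.cons (.kr (nat_lit 4722366483969156841472) (nat_lit 20282410812577490038576425992192) (nat_lit 5) (nat_lit 0)) (.cons (.br (nat_lit 11) (nat_lit 1) (.cons (.zr (nat_lit 55556409401288949760) (nat_lit 40564821629877346841501785653249) (nat_lit 5) (nat_lit 0)) (.cons (.kr (nat_lit 79228162514264338693055578112) (nat_lit 20282410812577490038576425992192) (nat_lit 5) (nat_lit 0)) .nil))) (.cons (.ev (nat_lit 1213648186378978091663361) (nat_lit 1)) .nil)))),
 (.br (nat_lit 12) (nat_lit 1) (.cons (.rf (nat_lit 4594) (nat_lit 493858305440582043680)) (.cons (.rf (nat_lit 4595) (nat_lit 493858305440582043680)) (.cons (.br (nat_lit 12) (nat_lit 1) (.cons (.rf (nat_lit 4594) (nat_lit 493858305440582043680)) (.cons (.rf (nat_lit 4595) (nat_lit 493858305440582043680)) .nil))) .nil)))),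
 (.br (nat_lit 12) (nat_lit 1) (.cons (.rf (nat_lit 4594) (nat_lit 493858305440582043680)) (.cons (.rf (nat_lit 4596) (nat_lit 493858305440582043680)) (.cons (.br (nat_lit 11) (nat_lit 1) (.cons (.rf (nat_lit 2012) (nat_lit 482177951511745601)) (.cons (.zr (nat_lit 1237940039285943233559921664) (nat_lit 18889465940274673942531) (nat_lit 15) (nat_lit 3)) (.cons (.ev (nat_lit 1213648186378978091663361) (nat_lit 1)) .nil)))) .nil)))),
 (.br (nat_lit 12) (nat_lit 1) (.cons (.rf (nat_lit 4594) (nat_lit 493858305440582043680)) (.cons (.rf (nat_lit 4596) (nat_lit 493858305440582043680)) (.cons (.rf (nat_lit 4597) (nat_lit 493858305440582043680)) (.cons (.br (nat_lit 12) (nat_lit 1) (.cons (.rf (nat_lit 4594) (nat_lit 493858305440582043680)) (.cons (.rf (nat_lit 4596) (nat_lit 493858305440582043680)) (.cons (.rf (nat_lit 4597) (nat_lit 493858305440582043680)) .nil)))) .nil))))),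
 (.br (nat_lit 13) (nat_lit 1) (.cons (.ev (nat_lit 20282409603651670706526034657281) (nat_lit 1)) (.cons (.rf (nat_lit 1637) (nat_lit 13583143679041)) (.cons (.br (nat_lit 7) (nat_lit 1) (.cons (.rf (nat_lit 1343) (nat_lit 387963958306)) (.cons (.ev (nat_lit 20282410812577562377649735598336) (nat_lit 1)) (.cons (.rf (nat_lit 4591) (nat_lit 15395881028740548640)) (.cons (.rf (nat_lit 4591) (nat_lit 15431909825759512608)) .nil))))) (.cons (.rf (nat_lit 4598) (nat_lit 493858305440582043680)) (.cons (.rf (nat_lit 4598) (nat_lit 492741412732994160672)) .nil)))))),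
 (.br (nat_lit 8) (nat_lit 1) (.cons (.ev (nat_lit 1208925891672223229476864) (nat_lit 1)) (.cons (.br (nat_lit 13) (nat_lit 1) (.cons (.ev (nat_lit 20282409617837288956802734489602) (nat_lit 2)) (.cons (.rf (nat_lit 4452) (nat_lit 13056402894788593696)) (.cons (.rf (nat_lit 4452) (nat_lit 14208198499488598048)) .nil)))) (.cons (.rf (nat_lit 82) (nat_lit 12155172065)) .nil)))),
 (.br (nat_lit 8) (nat_lit 1) (.cons (.ev (nat_lit 1213648186378978091663361) (nat_lit 1)) (.cons (.br (nat_lit 10) (nat_lit 1) (.cons (.ev (nat_lit 309489750634853491351289856) (nat_lit 1)) (.cons (.ev (nat_lit 20282409617837288956802734489602) (nat_lit 2)) .nil))) (.cons (.rf (nat_lit 2012) (nat_lit 482283501406786625)) .nil)))),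
 (.br (nat_lit 10) (nat_lit 1) (.cons (.rf (nat_lit 4451) (nat_lit 382064325990457378848)) (.cons (.ev (nat_lit 79537647524085683761797136641) (nat_lit 1)) .nil))),
 (.br (nat_lit 12) (nat_lit 1) (.cons (.rf (nat_lit 4601) (nat_lit 493858305440582043680)) (.cons (.br (nat_lit 12) (nat_lit 1) (.cons (.rf (nat_lit 4601) (nat_lit 493858305440582043680)) (.cons (.rf (nat_lit 4602) (nat_lit 493858305440582043680)) .nil))) (.cons (.br (nat_lit 12) (nat_lit 1) (.cons (.rf (nat_lit 4601) (nat_lit 493858305440582043680)) (.cons (.rf (nat_lit 4602) (nat_lit 493858305440582043680)) .nil))) .nil)))),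
 (.br (nat_lit 6) (nat_lit 1) (.cons (.rf (nat_lit 84) (nat_lit 9938414753)) (.cons (.rf (nat_lit 84) (nat_lit 8898260128)) (.cons (.rf (nat_lit 2012) (nat_lit 407901468851506208)) .nil)))),
 (.br (nat_lit 8) (nat_lit 1) (.cons (.ev (nat_lit 1213648186378978091663361) (nat_lit 1)) (.cons (.br (nat_lit 8) (nat_lit 1) (.cons (.ev (nat_lit 1213648186378978091663361) (nat_lit 1)) (.cons (.rf (nat_lit 4603) (nat_lit 493858305440582043680)) (.cons (.rf (nat_lit 84) (nat_lit 11114984673)) .nil)))) (.cons (.rf (nat_lit 4603) (nat_lit 493858305440582043680)) (.cons (.rf (nat_lit 4604) (nat_lit 482283501406818369)) .nil))))),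
 (.br (nat_lit 12) (nat_lit 1) (.cons (.rf (nat_lit 4603) (nat_lit 493858305440582043680)) (.cons (.rf (nat_lit 4605) (nat_lit 493858305440582043680)) (.cons (.br (nat_lit 12) (nat_lit 1) (.cons (.rf (nat_lit 4602) (nat_lit 493858305440582043680)) (.cons (.rf (nat_lit 4605) (nat_lit 493858305440582043680)) .nil))) .nil)))),
 (.br (nat_lit 12) (nat_lit 1) (.cons (.rf (nat_lit 4603) (nat_lit 493858305440582043680)) (.cons (.rf (nat_lit 4605) (nat_lit 493858305440582043680)) (.cons (.rf (nat_lit 4606) (nat_lit 493858305440582043680)) (.cons (.br (nat_lit 12) (nat_lit 1) (.cons (.rf (nat_lit 4603) (nat_lit 493858305440582043680)) (.cons (.rf (nat_lit 4605) (nat_lit 493858305440582043680)) (.cons (.rf (nat_lit 4606) (nat_lit 493858305440582043680)) .nil)))) .nil))))),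
 (.br (nat_lit 2) (nat_lit 1) (.cons (.rf (nat_lit 4599) (nat_lit 493858305440582043680)) (.cons (.br (nat_lit 8) (nat_lit 1) (.cons (.ev (nat_lit 1208925891672223229476864) (nat_lit 1)) (.cons (.rf (nat_lit 4600) (nat_lit 493858305440582043680)) (.cons (.rf (nat_lit 4600) (nat_lit 492741412732994160672)) (.cons (.rf (nat_lit 1343) (nat_lit 387970238503)) .nil))))) (.cons (.rf (nat_lit 4607) (nat_lit 493858305440582043680)) (.cons (.rf (nat_lit 4607) (nat_lit 492741412732994160672)) (.cons (.rf (nat_lit 1627) (nat_lit 434660597347392)) .nil)))))),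
 (.br (nat_lit 13) (nat_lit 1) (.cons (.ev (nat_lit 310698676526526814075486465) (nat_lit 1)) (.cons (.zr (nat_lit 60847232437732686288511391760384) (nat_lit 4759260253595864399873) (nat_lit 5) (nat_lit 9)) .nil))),
 (.br (nat_lit 11) (nat_lit 1) (.cons (.zr (nat_lit 928455029680210187311382528) (nat_lit 4759260252496352772097) (nat_lit 5) (nat_lit 9)) (.cons (.rf (nat_lit 82) (nat_lit 8969952290)) .nil))),
 (.br (nat_lit 2) (nat_lit 1) (.cons (.zr (nat_lit 928455029680210187311382528) (nat_lit 4759260252496352772097) (nat_lit 5) (nat_lit 9)) (.cons (.ev (nat_lit 4740885284537409536001) (nat_lit 1)) (.cons (.zr (nat_lit 60847232437732686288511391760384) (nat_lit 4759260253595864399873) (nat_lit 5) (nat_lit 9)) .nil)))),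
 (.br (nat_lit 12) (nat_lit 1) (.cons (.ev (nat_lit 1213648186378978091663361) (nat_lit 1)) (.cons (.rf (nat_lit 4611) (nat_lit 493858305440582043680)) (.cons (.br (nat_lit 12) (nat_lit 1) (.cons (.ev (nat_lit 1213648186378978091663361) (nat_lit 1)) (.cons (.rf (nat_lit 4611) (nat_lit 493858305440582043680)) (.cons (.kr (nat_lit 309485009821346168236408832) (nat_lit 20282410812577490038576425992192) (nat_lit 5) (nat_lit 0)) .nil)))) (.cons (.br (nat_lit 12) (nat_lit 1) (.cons (.ev (nat_lit 1213648186378978091663361) (nat_lit 1)) (.cons (.rf (nat_lit 4611) (nat_lit 493858305440582043680)) (.cons (.kr (nat_lit 309485009821346168236408832) (nat_lit 20282410812577490038576425992192) (nat_lit 5) (nat_lit 0)) .nil)))) .nil))))),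
 (.br (nat_lit 8) (nat_lit 1) (.cons (.rf (nat_lit 4599) (nat_lit 493858305440582043680)) (.cons (.rf (nat_lit 4608) (nat_lit 493858305440582043680)) (.cons (.br (nat_lit 10) (nat_lit 1) (.cons (.br (nat_lit 7) (nat_lit 1) (.cons (.rf (nat_lit 4609) (nat_lit 493858305440582043680)) (.cons (.rf (nat_lit 4609) (nat_lit 492741412732994160672)) (.cons (.ev (nat_lit 20282410817318303548098564128768) (nat_lit 1)) .nil)))) (.cons (.br (nat_lit 2) (nat_lit 1) (.cons (.rf (nat_lit 4610) (nat_lit 493858305440582043680)) (.cons (.rf (nat_lit 4610) (nat_lit 492741412732994160672)) (.cons (.ev (nat_lit 20282413239910972179281422189059) (nat_lit 2)) .nil)))) (.cons (.rf (nat_lit 4612) (nat_lit 493858305440582043680)) (.cons (.rf (nat_lit 4612) (nat_lit 492741412732994160672)) (.cons (.ev (nat_lit 1213666632842672057876736) (nat_lit 1)) .nil)))))) (.cons (.br (nat_lit 10) (nat_lit 1) (.cons (.rf (nat_lit 2594) (nat_lit 11120417857)) (.cons (.rf (nat_lit 2594) (nat_lit 11120412897)) (.cons (.br (nat_lit 2) (nat_lit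 1) (.cons (.ev (nat_lit 20282409603651670706526034657281) (nat_lit 1)) (.cons (.br (nat_lit 12) (nat_lit 1) (.cons (.rf (nat_lit 3170) (nat_lit 13583149959393)) .nil)) (.cons (.ev (nat_lit 1213648186378978091663361) (nat_lit 1)) .nil)))) (.cons (.ev (nat_lit 1213666632842672057876736) (nat_lit 1)) .nil))))) .nil))))),
 (.br (nat_lit 8) (nat_lit 1) (.cons (.rf (nat_lit 4599) (nat_lit 493858305440582043680)) (.cons (.rf (nat_lit 4608) (nat_lit 493858305440582043680)) (.cons (.rf (nat_lit 4613) (nat_lit 493858305440582043680)) (.cons (.rf (nat_lit 4613) (nat_lit 492741412732994160672)) (.cons (.br (nat_lit 8) (nat_lit 1) (.cons (.rf (nat_lit 1637) (nat_lit 13583143679041)) (.cons (.ev (nat_lit 20282409603670117168020977615104) (nat_lit 1)) (.cons (.rf (nat_lit 4613) (nat_lit 493858305440582043680)) (.cons (.rf (nat_lit 4613) (nat_lit 492741412732994160672)) .nil))))) .nil)))))),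
 (.br (nat_lit 10) (nat_lit 1) (.cons (.ev (nat_lit 1208925891672223229476864) (nat_lit 1)) (.cons (.ev (nat_lit 1208944338698875705491713) (nat_lit 1)) .nil))),
 (.br (nat_lit 7) (nat_lit 1) (.cons (.rf (nat_lit 4372) (nat_lit 455774881829118642208)) (.cons (.ev (nat_lit 40565128692313379210183206502401) (nat_lit 2)) (.cons (.br (nat_lit 11) (nat_lit 1) (.cons (.ev (nat_lit 20282719088680010852162995224833) (nat_lit 1)) (.cons (.ev (nat_lit 20282719088661563827709542465536) (nat_lit 1)) .nil))) .nil)))),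
 (.br (nat_lit 8) (nat_lit 1) (.cons (.rf (nat_lit 4599) (nat_lit 493858305440582043680)) (.cons (.rf (nat_lit 4608) (nat_lit 493858305440582043680)) (.cons (.rf (nat_lit 4614) (nat_lit 493858305440582043680)) (.cons (.br (nat_lit 2) (nat_lit 1) (.cons (.ev (nat_lit 20282409603651670706526034657281) (nat_lit 1)) (.cons (.br (nat_lit 7) (nat_lit 1) (.cons (.ev (nat_lit 20282413230429201608007613415427) (nat_lit 2)) (.cons (.rf (nat_lit 4615) (nat_lit 493858305440582043680)) (.cons (.rf (nat_lit 4615) (nat_lit 492741412732994160672)) .nil)))) (.cons (.rf (nat_lit 4616) (nat_lit 493858305440582043680)) (.cons (.rf (nat_lit 4616) (nat_lit 492741412732994160672)) .nil))))) .nil)))))]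

theorem c160 : chkAll C T R L160 (nat_lit 4585) = true := by decide +kernel

theorem l160 : (nat_lit 4585) + L160.length = (nat_lit 4618) := by decide +kernel

/-- part of the certificates -/
def L161 : List Prf := [(.br (nat_lit 8) (nat_lit 1) (.cons (.rf (nat_lit 4599) (nat_lit 493858305440582043680)) (.cons (.rf (nat_lit 4608) (nat_lit 493858305440582043680)) (.cons (.rf (nat_lit 4614) (nat_lit 493858305440582043680)) (.cons (.rf (nat_lit 4617) (nat_lit 493858305440582043680)) (.cons (.br (nat_lit 8) (nat_lit 1) (.cons (.rf (nat_lit 1637) (nat_lit 13583143679041)) (.cons (.rf (nat_lit 4608) (nat_lit 493858305440582043680)) (.cons (.rf (nat_lit 4614) (nat_lit 493858305440582043680)) (.cons (.rf (nat_lit 4617) (nat_lit 493858305440582043680)) .nil))))) .nil)))))),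
 (.br (nat_lit 8) (nat_lit 1) (.cons (.rf (nat_lit 4599) (nat_lit 493858305440582043680)) (.cons (.rf (nat_lit 4608) (nat_lit 493858305440582043680)) (.cons (.rf (nat_lit 4614) (nat_lit 493858305440582043680)) (.cons (.rf (nat_lit 4618) (nat_lit 493858305440582043680)) (.cons (.rf (nat_lit 4618) (nat_lit 492741412732994160672)) (.cons (.br (nat_lit 8) (nat_lit 1) (.cons (.rf (nat_lit 1637) (nat_lit 13583143679041)) (.cons (.rf (nat_lit 4608) (nat_lit 493858305440582043680)) (.cons (.rf (nat_lit 4614) (nat_lit 493858305440582043680)) (.cons (.rf (nat_lit 4618) (nat_lit 493858305440582043680)) (.cons (.rf (nat_lit 4618) (nat_lit 492741412732994160672)) .nil)))))) .nil))))))),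
 (.br (nat_lit 7) (nat_lit 0) (.cons (.rf (nat_lit 4352) (nat_lit 8871427015904)) (.cons (.br (nat_lit 4) (nat_lit 1) (.cons (.rf (nat_lit 4390) (nat_lit 325702574508064)) (.cons (.br (nat_lit 6) (nat_lit 1) (.cons (.rf (nat_lit 4390) (nat_lit 360884801210400)) (.cons (.br (nat_lit 1) (nat_lit 1) (.cons (.rf (nat_lit 4394) (nat_lit 11584701642934304)) (.cons (.kr (nat_lit 256) (nat_lit 72057594037927936) (nat_lit 1) (nat_lit 0)) (.cons (.rf (nat_lit 4397) (nat_lit 11584701642934304)) (.cons (.rf (nat_lit 4400) (nat_lit 11584701642934304)) (.cons (.rf (nat_lit 4400) (nat_lit 10493983962794016)) (.cons (.rf (nat_lit 1676) (nat_lit 407901467712816192)) (.cons (.rf (nat_lit 1673) (nat_lit 407901467712816192)) .nil)))))))) .nil))) .nil))) (.cons (.rf (nat_lit 4352) (nat_lit 8869281629408)) (.cons (.br (nat_lit 9) (nat_lit 1) (.cons (.rf (nat_lit 4572) (nat_lit 11584701642934304)) (.cons (.br (nat_lit 9) (nat_lit 1) (.cons (.rf (nat_lit 4572) (nat_lit 12710601549776928)) (.cons (.br (nat_lit 9) (nat_lit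 1) (.cons (.rf (nat_lit 4572) (nat_lit 13836501456619552)) (.cons (.br (nat_lit 4) (nat_lit 1) (.cons (.br (nat_lit 5) (nat_lit 1) (.cons (.br (nat_lit 13) (nat_lit 0) (.cons (.br (nat_lit 1) (nat_lit 1) (.cons (.br (nat_lit 8) (nat_lit 1) (.cons (.rf (nat_lit 1982) (nat_lit 15071359418894368)) (.cons (.rf (nat_lit 4576) (nat_lit 493858305440582043680)) (.cons (.rf (nat_lit 4576) (nat_lit 493823402543469922336)) (.cons (.rf (nat_lit 4576) (nat_lit 492671606938769917984)) (.cons (.rf (nat_lit 1625) (nat_lit 13583143679041)) .nil)))))) (.cons (.br (nat_lit 8) (nat_lit 1) (.cons (.rf (nat_lit 1982) (nat_lit 15071359413656608)) (.cons (.rf (nat_lit 4580) (nat_lit 493858305440582043680)) (.cons (.rf (nat_lit 4580) (nat_lit 493823402543469922336)) (.cons (.rf (nat_lit 4580) (nat_lit 492671606938769917984)) (.cons (.rf (nat_lit 1627) (nat_lit 434660798700576)) .nil)))))) (.cons (.br (nat_lit 2) (nat_lit 1) (.cons (.rf (nat_lit 1982) (nat_lit 15071359412608064)) (.cons (.br (nat_lit 13) (nat_lit 1) (.cons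 (.ev (nat_lit 20282409603651670706526034657281) (nat_lit 1)) (.cons (.zr (nat_lit 73787539253499003904) (nat_lit 8796093087751) (nat_lit 15) (nat_lit 3)) (.cons (.rf (nat_lit 1637) (nat_lit 13583143667757)) (.cons (.rf (nat_lit 1637) (nat_lit 13549857671213)) (.cons (.rf (nat_lit 1637) (nat_lit 12451419785261)) .nil)))))) (.cons (.rf (nat_lit 4590) (nat_lit 493858305440582043680)) (.cons (.rf (nat_lit 4590) (nat_lit 493823402543469922336)) (.cons (.rf (nat_lit 4590) (nat_lit 492671606938769917984)) (.cons (.rf (nat_lit 1625) (nat_lit 13583143667106)) .nil))))))) (.cons (.rf (nat_lit 4619) (nat_lit 493858305440582043680)) (.cons (.rf (nat_lit 4619) (nat_lit 493823402543469922336)) (.cons (.rf (nat_lit 4619) (nat_lit 492671606938769917984)) (.cons (.kr (nat_lit 1099511627776) (nat_lit 20282409603651670423947251286016) (nat_lit 5) (nat_lit 0)) .nil)))))))) .nil)) .nil)) .nil)) .nil))) .nil))) .nil))) .nil))))),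
 (.br (nat_lit 7) (nat_lit 0) (.cons (.rf (nat_lit 4620) (nat_lit 9043225708576)) (.cons (.rf (nat_lit 4620) (nat_lit 9042184504384)) (.cons (.rf (nat_lit 4620) (nat_lit 9043158665248)) (.cons (.rf (nat_lit 4620) (nat_lit 9042117461056)) (.cons (.br (nat_lit 7) (nat_lit 0) (.cons (.rf (nat_lit 4620) (nat_lit 9043225708576)) (.cons (.rf (nat_lit 4620) (nat_lit 9042184504384)) (.cons (.rf (nat_lit 4620) (nat_lit 9043158665248)) (.cons (.rf (nat_lit 4620) (nat_lit 9042117461056)) .nil))))) .nil)))))),
 (.br (nat_lit 8) (nat_lit 1) (.cons (.rf (nat_lit 82) (nat_lit 13262628898)) (.cons (.rf (nat_lit 2594) (nat_lit 12215134434)) (.cons (.ev (nat_lit 18519084246547628288) (nat_lit 1)) .nil)))),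
 (.br (nat_lit 8) (nat_lit 1) (.cons (.rf (nat_lit 3822) (nat_lit 391186190370)) (.cons (.rf (nat_lit 1339) (nat_lit 288110120994)) (.cons (.rf (nat_lit 4622) (nat_lit 493858305440582043680)) (.cons (.rf (nat_lit 4622) (nat_lit 458117738623825714208)) .nil))))),
 (.br (nat_lit 7) (nat_lit 1) (.cons (.rf (nat_lit 1339) (nat_lit 391186190401)) (.cons (.rf (nat_lit 31) (nat_lit 377554247)) (.cons (.rf (nat_lit 1339) (nat_lit 288110120994)) (.cons (.br (nat_lit 8) (nat_lit 1) (.cons (.rf (nat_lit 84) (nat_lit 13262465063)) (.cons (.br (nat_lit 10) (nat_lit 1) (.cons (.kr (nat_lit 1208925819614629174706177) (nat_lit 4722366482869645213952) (nat_lit 0) (nat_lit 2)) (.cons (.ev (nat_lit 1213666632842672057876481) (nat_lit 1)) (.cons (.ev (nat_lit 1223129885455607849484545) (nat_lit 2)) .nil)))) (.cons (.ev (nat_lit 18519084246547628288) (nat_lit 1)) .nil)))) (.cons (.br (nat_lit 8) (nat_lit 1) (.cons (.rf (nat_lit 84) (nat_lit 14336206887)) (.cons (.ev (nat_lit 18519084246547628288) (nat_lit 1)) (.cons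 (.br (nat_lit 10) (nat_lit 1) (.cons (.kr (nat_lit 1208925819614629174706177) (nat_lit 4722366482869645213952) (nat_lit 0) (nat_lit 2)) (.cons (.kr (nat_lit 1208925819896104151482369) (nat_lit 4722438540467978109184) (nat_lit 0) (nat_lit 3)) (.cons (.ev (nat_lit 1213666632842672057876481) (nat_lit 1)) .nil)))) .nil)))) .nil)))))),
 (.br (nat_lit 8) (nat_lit 1) (.cons (.ev (nat_lit 310693954160043944447115265) (nat_lit 1)) (.cons (.br (nat_lit 12) (nat_lit 1) (.cons (.zr (nat_lit 14167099730096914695424) (nat_lit 79538856449905306087536525316) (nat_lit 15) (nat_lit 3)) (.cons (.ev (nat_lit 79228162532783421835796611073) (nat_lit 1)) .nil))) (.cons (.br (nat_lit 10) (nat_lit 1) (.cons (.br (nat_lit 12) (nat_lit 1) (.cons (.zr (nat_lit 9444733528697951224832) (nat_lit 79537647524157749052399681539) (nat_lit 15) (nat_lit 3)) .nil)) (.cons (.ev (nat_lit 20282719093383930310583482646528) (nat_lit 1)) .nil))) .nil)))),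
 (.br (nat_lit 7) (nat_lit 1) (.cons (.ev (nat_lit 310693954160043944447115265) (nat_lit 1)) (.cons (.br (nat_lit 8) (nat_lit 1) (.cons (.ev (nat_lit 79855628108249006810497156608) (nat_lit 3)) (.cons (.br (nat_lit 12) (nat_lit 1) (.cons (.ev (nat_lit 20838562647763138217547636606214) (nat_lit 3)) .nil)) .nil))) (.cons (.br (nat_lit 13) (nat_lit 1) (.cons (.ev (nat_lit 20282410817299856804020576321793) (nat_lit 1)) (.cons (.ev (nat_lit 20282409603651742482645112651776) (nat_lit 1)) .nil))) .nil)))),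
 (.br (nat_lit 8) (nat_lit 1) (.cons (.rf (nat_lit 4625) (nat_lit 493858305440582043680)) (.cons (.rf (nat_lit 4626) (nat_lit 493858305440582043680)) (.cons (.br (nat_lit 7) (nat_lit 1) (.cons (.br (nat_lit 12) (nat_lit 1) (.cons (.zr (nat_lit 9444733528697951224832) (nat_lit 79537647524157749052399681539) (nat_lit 15) (nat_lit 3)) .nil)) (.cons (.br (nat_lit 10) (nat_lit 1) (.cons (.ev (nat_lit 1223130029007854561722625) (nat_lit 2)) .nil)) (.cons (.zr (nat_lit 4722367327298987754496) (nat_lit 20282409603670189234411091787778) (nat_lit 15) (nat_lit 3)) .nil)))) .nil)))),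
 (.br (nat_lit 11) (nat_lit 1) (.cons (.rf (nat_lit 4623) (nat_lit 493858305440582043680)) (.cons (.rf (nat_lit 4624) (nat_lit 493858305440582043680)) (.cons (.kr (nat_lit 1208925819614629174706177) (nat_lit 4722366482869645213952) (nat_lit 0) (nat_lit 2)) (.cons (.br (nat_lit 8) (nat_lit 1) (.cons (.rf (nat_lit 4625) (nat_lit 493858305440582043680)) (.cons (.rf (nat_lit 4626) (nat_lit 493858305440582043680)) (.cons (.rf (nat_lit 4627) (nat_lit 493858305440582043680)) (.cons (.br (nat_lit 8) (nat_lit 1) (.cons (.rf (nat_lit 4625) (nat_lit 493858305440582043680)) (.cons (.rf (nat_lit 4626) (nat_lit 493858305440582043680)) (.cons (.rf (nat_lit 4627) (nat_lit 493858305440582043680)) .nil)))) .nil))))) .nil))))),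
 (.br (nat_lit 11) (nat_lit 1) (.cons (.rf (nat_lit 4623) (nat_lit 493858305440582043680)) (.cons (.rf (nat_lit 4624) (nat_lit 493858305440582043680)) (.cons (.kr (nat_lit 1208925819614629174706177) (nat_lit 4722366482869645213952) (nat_lit 0) (nat_lit 2)) (.cons (.rf (nat_lit 4628) (nat_lit 493858305440582043680)) (.cons (.br (nat_lit 11) (nat_lit 1) (.cons (.rf (nat_lit 4623) (nat_lit 493858305440582043680)) (.cons (.rf (nat_lit 4624) (nat_lit 493858305440582043680)) (.cons (.kr (nat_lit 1208925819614629174706177) (nat_lit 4722366482869645213952) (nat_lit 0) (nat_lit 2)) (.cons (.rf (nat_lit 4628) (nat_lit 493858305440582043680)) .nil))))) .nil)))))),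
 (.br (nat_lit 10) (nat_lit 1) (.cons (.br (nat_lit 13) (nat_lit 1) (.cons (.zr (nat_lit 55556405011832373248) (nat_lit 618974742009455581599891457) (nat_lit 5) (nat_lit 0)) (.cons (.zr (nat_lit 237684487543009185562745635584) (nat_lit 618974742009455585894858753) (nat_lit 5) (nat_lit 0)) .nil))) (.cons (.zr (nat_lit 55340795171082272768) (nat_lit 618974742009174110918148097) (nat_lit 5) (nat_lit 0)) (.cons (.zr (nat_lit 237684487542793575730585469696) (nat_lit 618974742009174123803049985) (nat_lit 5) (nat_lit 0)) (.cons (.br (nat_lit 13) (nat_lit 1) (.cons (.zr (nat_lit 60847228810955011271841754055424) (nat_lit 618974742009455585894858753) (nat_lit 5) (nat_lit 0)) (.cons (.ev (nat_lit 1213666632842672057876481) (nat_lit 1)) (.cons (.ev (nat_lit 79229376162450436196187242753) (nat_lit 1)) .nil)))) .nil))))),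
 (.br (nat_lit 10) (nat_lit 1) (.cons (.kr (nat_lit 1208925819614629174706177) (nat_lit 4722366482869645213952) (nat_lit 0) (nat_lit 2)) (.cons (.ev (nat_lit 1213666632842672057876481) (nat_lit 1)) (.cons (.ev (nat_lit 2427333338587367378976770) (nat_lit 2)) .nil)))),
 (.br (nat_lit 2) (nat_lit 1) (.cons (.br (nat_lit 10) (nat_lit 1) (.cons (.ev (nat_lit 79538856449977637459986546945) (nat_lit 1)) (.cons (.br (nat_lit 12) (nat_lit 1) (.cons (.ev (nat_lit 79231794050983154710074097666) (nat_lit 2)) .nil)) .nil))) (.cons (.br (nat_lit 8) (nat_lit 1) (.cons (.zr (nat_lit 55340795171082272768) (nat_lit 618974742009174110918148097) (nat_lit 5) (nat_lit 0)) (.cons (.br (nat_lit 12) (nat_lit 1) (.cons (.ev (nat_lit 79228162532711082771076874241) (nat_lit 1)) .nil)) .nil))) (.cons (.rf (nat_lit 4630) (nat_lit 493858305440582043680)) (.cons (.br (nat_lit 8) (nat_lit 1) (.cons (.zr (nat_lit 110896918703642968064) (nat_lit 1237949484018348213246361602) (nat_lit 10) (nat_lit 0)) (.cons (.rf (nat_lit 4631) (nat_lit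 493858305440582043680)) (.cons (.rf (nat_lit 4631) (nat_lit 458117738623825714208)) .nil)))) .nil))))),
 (.br (nat_lit 2) (nat_lit 1) (.cons (.br (nat_lit 10) (nat_lit 1) (.cons (.ev (nat_lit 1213666632842672057876481) (nat_lit 1)) (.cons (.br (nat_lit 12) (nat_lit 1) (.cons (.zr (nat_lit 237688114375808261671398408192) (nat_lit 1547429771473490792069201921) (nat_lit 5) (nat_lit 0)) .nil)) .nil))) (.cons (.zr (nat_lit 55340795171082272768) (nat_lit 618974742009174110918148097) (nat_lit 5) (nat_lit 0)) (.cons (.rf (nat_lit 4630) (nat_lit 493858305440582043680)) (.cons (.rf (nat_lit 4632) (nat_lit 458117738623825714208)) .nil))))),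
 (.br (nat_lit 13) (nat_lit 1) (.cons (.rf (nat_lit 4632) (nat_lit 458117738623825714208)) (.cons (.rf (nat_lit 4630) (nat_lit 458117738623825714208)) (.cons (.rf (nat_lit 4633) (nat_lit 458117738623825714208)) (.cons (.br (nat_lit 13) (nat_lit 1) (.cons (.rf (nat_lit 4632) (nat_lit 458117738623825714208)) (.cons (.ev (nat_lit 20282410817299856804020576321793) (nat_lit 1)) (.cons (.rf (nat_lit 4633) (nat_lit 458117738623825714208)) .nil)))) .nil))))),
 (.br (nat_lit 11) (nat_lit 1) (.cons (.rf (nat_lit 4629) (nat_lit 493858305440582043680)) (.cons (.rf (nat_lit 4629) (nat_lit 458117738623825714208)) (.cons (.kr (nat_lit 1208925819614629174706177) (nat_lit 4722366482869645213952) (nat_lit 0) (nat_lit 2)) (.cons (.br (nat_lit 12) (nat_lit 1) (.cons (.rf (nat_lit 4630) (nat_lit 493858305440582043680)) (.cons (.rf (nat_lit 4632) (nat_lit 493858305440582043680)) (.cons (.rf (nat_lit 4633) (nat_lit 493858305440582043680)) (.cons (.rf (nat_lit 4634) (nat_lit 493858305440582043680)) (.cons (.br (nat_lit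 12) (nat_lit 1) (.cons (.rf (nat_lit 4630) (nat_lit 493858305440582043680)) (.cons (.rf (nat_lit 4632) (nat_lit 493858305440582043680)) (.cons (.rf (nat_lit 4633) (nat_lit 493858305440582043680)) (.cons (.rf (nat_lit 4634) (nat_lit 493858305440582043680)) .nil))))) .nil)))))) .nil))))),
 (.br (nat_lit 11) (nat_lit 1) (.cons (.rf (nat_lit 4629) (nat_lit 493858305440582043680)) (.cons (.rf (nat_lit 4629) (nat_lit 458117738623825714208)) (.cons (.kr (nat_lit 1208925819614629174706177) (nat_lit 4722366482869645213952) (nat_lit 0) (nat_lit 2)) (.cons (.rf (nat_lit 4635) (nat_lit 493858305440582043680)) (.cons (.rf (nat_lit 4635) (nat_lit 458117738623825714208)) .nil)))))),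
 (.br (nat_lit 11) (nat_lit 1) (.cons (.rf (nat_lit 4629) (nat_lit 493858305440582043680)) (.cons (.rf (nat_lit 4629) (nat_lit 458117738623825714208)) (.cons (.rf (nat_lit 4636) (nat_lit 493858305440582043680)) (.cons (.kr (nat_lit 1208925819614629174706177) (nat_lit 4722366482869645213952) (nat_lit 0) (nat_lit 2)) (.cons (.br (nat_lit 11) (nat_lit 1) (.cons (.rf (nat_lit 4629) (nat_lit 493858305440582043680)) (.cons (.rf (nat_lit 4629) (nat_lit 458117738623825714208)) (.cons (.rf (nat_lit 4636) (nat_lit 493858305440582043680)) (.cons (.kr (nat_lit 1208925819614629174706177) (nat_lit 4722366482869645213952) (nat_lit 0) (nat_lit 2)) .nil))))) .nil)))))),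
 (.br (nat_lit 11) (nat_lit 1) (.cons (.rf (nat_lit 4629) (nat_lit 493858305440582043680)) (.cons (.rf (nat_lit 4629) (nat_lit 458117738623825714208)) (.cons (.rf (nat_lit 4636) (nat_lit 493858305440582043680)) (.cons (.kr (nat_lit 1208925819614629174706177) (nat_lit 4722366482869645213952) (nat_lit 0) (nat_lit 2)) (.cons (.rf (nat_lit 4637) (nat_lit 493858305440582043680)) (.cons (.rf (nat_lit 4637) (nat_lit 458117738623825714208)) .nil))))))),
 (.br (nat_lit 8) (nat_lit 1) (.cons (.rf (nat_lit 82) (nat_lit 13262628929)) (.cons (.rf (nat_lit 2594) (nat_lit 12216183009)) (.cons (.br (nat_lit 10) (nat_lit 1) (.cons (.ev (nat_lit 309489750706912184917623040) (nat_lit 1)) (.cons (.br (nat_lit 11) (nat_lit 1) (.cons (.ev (nat_lit 79848341515139214754134884352) (nat_lit 2)) (.cons (.br (nat_lit 12) (nat_lit 1) (.cons (.ev (nat_lit 79847137311614306871249273091) (nat_lit 2)) .nil)) .nil))) (.cons (.rf (nat_lit 3845) (nat_lit 9443706821355593)) .nil)))) .nil)))),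
 (.br (nat_lit 8) (nat_lit 1) (.cons (.rf (nat_lit 3822) (nat_lit 391186190401)) (.cons (.rf (nat_lit 1339) (nat_lit 288110121025)) (.cons (.rf (nat_lit 4639) (nat_lit 493858305440582043680)) (.cons (.br (nat_lit 8) (nat_lit 1) (.cons (.rf (nat_lit 82) (nat_lit 14336370753)) (.cons (.rf (nat_lit 2594) (nat_lit 12249737441)) (.cons (.rf (nat_lit 4639) (nat_lit 493858305440582043680)) .nil)))) .nil))))),
 (.br (nat_lit 13) (nat_lit 1) (.cons (.ev (nat_lit 40564820430396476930551598613249) (nat_lit 2)) (.cons (.ev (nat_lit 40564820430396332252404979532545) (nat_lit 2)) .nil))),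
 (.br (nat_lit 11) (nat_lit 1) (.cons (.rf (nat_lit 1339) (nat_lit 288110121025)) (.cons (.rf (nat_lit 1339) (nat_lit 288009556033)) (.cons (.ev (nat_lit 309485009821345073019814144) (nat_lit 1)) (.cons (.br (nat_lit 7) (nat_lit 1) (.cons (.ev (nat_lit 309485009893684137739419904) (nat_lit 1)) (.cons (.rf (nat_lit 31) (nat_lit 377522503)) (.cons (.br (nat_lit 10) (nat_lit 1) (.cons (.rf (nat_lit 84) (nat_lit 13262432327)) (.cons (.ev (nat_lit 310698658079781636559339521) (nat_lit 1)) (.cons (.br (nat_lit 8) (nat_lit 1) (.cons (.br (nat_lit 12) (nat_lit 1) (.cons (.ev (nat_lit 159076518141163330585910903555) (nat_lit 2)) .nil)) (.cons (.ev (nat_lit 40564820420988637450752080675585) (nat_lit 2)) .nil))) .nil)))) (.cons (.br (nat_lit 10) (nat_lit 1) (.cons (.rf (nat_lit 84) (nat_lit 14336174151)) (.cons (.rf (nat_lit 4641) (nat_lit 493858305440582043680)) (.cons (.ev (nat_lit 310698658079781636559339521) (nat_lit 1)) .nil)))) .nil))))) .nil)))))]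

theorem c161 : chkAll C T R L161 (nat_lit 4618) = true := by decide +kernel

theorem l161 : (nat_lit 4618) + L161.length = (nat_lit 4643) := by decide +kernel

/-- part of the certificates -/
def L162 : List Prf := [(.br (nat_lit 7) (nat_lit 1) (.cons (.ev (nat_lit 310698658079781636559339521) (nat_lit 1)) (.cons (.ev (nat_lit 309485009893684137739419904) (nat_lit 1)) (.cons (.rf (nat_lit 4641) (nat_lit 493858305440582043680)) .nil)))),
 (.br (nat_lit 12) (nat_lit 1) (.cons (.ev (nat_lit 309485009893684137739419904) (nat_lit 1)) (.cons (.rf (nat_lit 4643) (nat_lit 493858305440582043680)) (.cons (.br (nat_lit 10) (nat_lit 1) (.cons (.ev (nat_lit 79538861172271780161088717056) (nat_lit 1)) (.cons (.ev (nat_lit 159076508733250953178423231235) (nat_lit 2)) (.cons (.ev (nat_lit 310698658007442571839733761) (nat_lit 1)) .nil)))) .nil)))),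
 (.br (nat_lit 11) (nat_lit 1) (.cons (.rf (nat_lit 4640) (nat_lit 493858305440582043680)) (.cons (.ev (nat_lit 309485009821345073019814144) (nat_lit 1)) (.cons (.rf (nat_lit 4638) (nat_lit 493739772589549652297)) (.cons (.br (nat_lit 12) (nat_lit 1) (.cons (.ev (nat_lit 309485009893684137739419904) (nat_lit 1)) (.cons (.rf (nat_lit 4644) (nat_lit 493858305440582043680)) (.cons (.rf (nat_lit 4643) (nat_lit 493858305440582043680)) (.cons (.br (nat_lit 12) (nat_lit 1) (.cons (.ev (nat_lit 309485009893684137739419904) (nat_lit 1)) (.cons (.rf (nat_lit 4644) (nat_lit 493858305440582043680)) (.cons (.rf (nat_lit 4643) (nat_lit 493858305440582043680)) .nil)))) .nil))))) .nil))))),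
 (.br (nat_lit 11) (nat_lit 1) (.cons (.rf (nat_lit 4640) (nat_lit 493858305440582043680)) (.cons (.rf (nat_lit 4642) (nat_lit 493858305440582043680)) (.cons (.rf (nat_lit 4638) (nat_lit 493739772589549652297)) (.cons (.rf (nat_lit 4645) (nat_lit 493858305440582043680)) (.cons (.br (nat_lit 11) (nat_lit 1) (.cons (.rf (nat_lit 4640) (nat_lit 493858305440582043680)) (.cons (.rf (nat_lit 4642) (nat_lit 493858305440582043680)) (.cons (.rf (nat_lit 4638) (nat_lit 493739772589549652297)) (.cons (.rf (nat_lit 4645) (nat_lit 493858305440582043680)) .nil))))) .nil)))))),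
 (.br (nat_lit 10) (nat_lit 1) (.cons (.rf (nat_lit 84) (nat_lit 13262628929)) (.cons (.rf (nat_lit 84) (nat_lit 13164947681)) (.cons (.br (nat_lit 8) (nat_lit 1) (.cons (.rf (nat_lit 84) (nat_lit 12092254247)) (.cons (.br (nat_lit 11) (nat_lit 1) (.cons (.ev (nat_lit 310698676526525710268891136) (nat_lit 1)) (.cons (.ev (nat_lit 309485028268089146729365761) (nat_lit 1)) .nil))) .nil))) (.cons (.kr (nat_lit 1208925891672227507601409) (nat_lit 4722366764344621990144) (nat_lit 0) (nat_lit 3)) .nil))))),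
 (.br (nat_lit 1) (nat_lit 1) (.cons (.rf (nat_lit 1339) (nat_lit 391186026721)) (.cons (.rf (nat_lit 31) (nat_lit 377719105)) (.cons (.rf (nat_lit 1339) (nat_lit 288110121025)) (.cons (.rf (nat_lit 4647) (nat_lit 493858305440582043680)) (.cons (.br (nat_lit 10) (nat_lit 1) (.cons (.rf (nat_lit 84) (nat_lit 14336370753)) (.cons (.rf (nat_lit 84) (nat_lit 14238689505)) (.cons (.br (nat_lit 8) (nat_lit 1) (.cons (.br (nat_lit 11) (nat_lit 1) (.cons (.ev (nat_lit 620193149528143554832040195) (nat_lit 2)) (.cons (.ev (nat_lit 310698676526525710268891136) (nat_lit 1)) .nil))) (.cons (.br (nat_lit 12) (nat_lit 1) (.cons (.ev (nat_lit 310698676526525710268891136) (nat_lit 1)) (.cons (.ev (nat_lit 20282410817318303548094285873408) (nat_lit 1)) .nil))) .nil))) (.cons (.rf (nat_lit 4647) (nat_lit 457999205772793322825)) .nil))))) .nil)))))),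
 (.br (nat_lit 11) (nat_lit 1) (.cons (.rf (nat_lit 4646) (nat_lit 493858305440582043680)) (.cons (.rf (nat_lit 4638) (nat_lit 493739772589549652297)) (.cons (.br (nat_lit 1) (nat_lit 1) (.cons (.br (nat_lit 12) (nat_lit 1) (.cons (.zr (nat_lit 16925313692695121079828480) (nat_lit 85417876877790687576976201987) (nat_lit 40) (nat_lit 6)) .nil)) (.cons (.zr (nat_lit 475369017586888312037963074304) (nat_lit 3094850172360739154416369672) (nat_lit 35) (nat_lit 3)) (.cons (.ev (nat_lit 309485028340428211448971521) (nat_lit 1)) .nil)))) .nil)))),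
 (.br (nat_lit 8) (nat_lit 1) (.cons (.rf (nat_lit 4638) (nat_lit 493858305440582043680)) (.cons (.rf (nat_lit 4646) (nat_lit 457999205772793322825)) (.cons (.rf (nat_lit 4648) (nat_lit 493858305440582043680)) (.cons (.br (nat_lit 11) (nat_lit 1) (.cons (.rf (nat_lit 4646) (nat_lit 493858305440582043680)) (.cons (.rf (nat_lit 4638) (nat_lit 493739772589549652297)) (.cons (.rf (nat_lit 4649) (nat_lit 493858305440582043680)) (.cons (.br (nat_lit 11) (nat_lit 1) (.cons (.rf (nat_lit 4646) (nat_lit 493858305440582043680)) (.cons (.rf (nat_lit 4638) (nat_lit 493739772589549652297)) (.cons (.rf (nat_lit 4649) (nat_lit 493858305440582043680)) .nil)))) .nil))))) .nil))))),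
 (.br (nat_lit 8) (nat_lit 1) (.cons (.rf (nat_lit 4638) (nat_lit 493858305440582043680)) (.cons (.rf (nat_lit 4646) (nat_lit 457999205772793322825)) (.cons (.rf (nat_lit 4648) (nat_lit 493858305440582043680)) (.cons (.rf (nat_lit 4650) (nat_lit 493858305440582043680)) (.cons (.br (nat_lit 8) (nat_lit 1) (.cons (.rf (nat_lit 4638) (nat_lit 493858305440582043680)) (.cons (.rf (nat_lit 4646) (nat_lit 457999205772793322825)) (.cons (.rf (nat_lit 4648) (nat_lit 493858305440582043680)) (.cons (.rf (nat_lit 4650) (nat_lit 493858305440582043680)) .nil))))) .nil)))))),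
 (.br (nat_lit 12) (nat_lit 1) (.cons (.kr (nat_lit 281474976776192) (nat_lit 72057598332895232) (nat_lit 2) (nat_lit 0)) (.cons (.ev (nat_lit 4740885566012369404161) (nat_lit 1)) (.cons (.ev (nat_lit 20282410817299856804020576321793) (nat_lit 1)) .nil)))),
 (.br (nat_lit 11) (nat_lit 1) (.cons (.ev (nat_lit 309485009821345073019814144) (nat_lit 1)) (.cons (.rf (nat_lit 4651) (nat_lit 493858305440582043680)) (.cons (.rf (nat_lit 4638) (nat_lit 493739772589549652297)) (.cons (.br (nat_lit 1) (nat_lit 1) (.cons (.br (nat_lit 8) (nat_lit 1) (.cons (.rf (nat_lit 29) (nat_lit 8718561)) (.cons (.br (nat_lit 12) (nat_lit 1) (.cons (.ev (nat_lit 310698658079781636559339521) (nat_lit 1)) (.cons (.rf (nat_lit 4262) (nat_lit 417800529597219052576)) .nil))) (.cons (.ev (nat_lit 309485028268089146729365761) (nat_lit 1)) .nil)))) (.cons (.rf (nat_lit 4638) (nat_lit 493858305440582043680)) (.cons (.br (nat_lit 7) (nat_lit 1) (.cons (.ev (nat_lit 309489732260168111208071425) (nat_lit 1)) (.cons (.ev (nat_lit 310698658079781636559339521)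 (nat_lit 1)) (.cons (.br (nat_lit 13) (nat_lit 1) (.cons (.zr (nat_lit 60847228810955227444632457577216) (nat_lit 618974742010300006530023425) (nat_lit 5) (nat_lit 0)) (.cons (.zr (nat_lit 60847228810955011271841754055424) (nat_lit 618974742009455585894858753) (nat_lit 5) (nat_lit 0)) .nil))) .nil)))) (.cons (.br (nat_lit 7) (nat_lit 1) (.cons (.ev (nat_lit 309485028340428211448971521) (nat_lit 1)) (.cons (.br (nat_lit 8) (nat_lit 1) (.cons (.rf (nat_lit 31) (nat_lit 411076935)) (.cons (.br (nat_lit 12) (nat_lit 1) (.cons (.ev (nat_lit 79537652264971249774166605825) (nat_lit 1)) .nil)) .nil))) (.cons (.ev (nat_lit 79537647524158021735578337281) (nat_lit 1)) (.cons (.br (nat_lit 10) (nat_lit 1) (.cons (.rf (nat_lit 4652) (nat_lit 493858305440582043680)) (.cons (.br (nat_lit 8) (nat_lit 1) (.cons (.ev (nat_lit 79537652264971249774166605825) (nat_lit 1)) .nil)) (.cons (.zr (nat_lit 60847228810955011271841754055424) (nat_lit 618974742009455585894858753) (nat_lit 5) (nat_lit 0)) .nil)))) .nil))))) (.cons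 (.br (nat_lit 7) (nat_lit 1) (.cons (.ev (nat_lit 309485028268089146729365761) (nat_lit 1)) (.cons (.br (nat_lit 8) (nat_lit 1) (.cons (.br (nat_lit 12) (nat_lit 1) (.cons (.ev (nat_lit 79538856449977637459986546945) (nat_lit 1)) .nil)) (.cons (.rf (nat_lit 31) (nat_lit 444631367)) .nil))) (.cons (.br (nat_lit 8) (nat_lit 1) (.cons (.br (nat_lit 12) (nat_lit 1) (.cons (.ev (nat_lit 79229376199560377496873665026) (nat_lit 2)) .nil)) (.cons (.br (nat_lit 10) (nat_lit 1) (.cons (.ev (nat_lit 20838555403652953491130944783108) (nat_lit 3)) .nil)) (.cons (.ev (nat_lit 20282409603670189226718822203393) (nat_lit 1)) .nil)))) (.cons (.br (nat_lit 10) (nat_lit 1) (.cons (.ev (nat_lit 20283340476532918651327661277954) (nat_lit 2)) (.cons (.ev (nat_lit 20283340476532773973198222066434) (nat_lit 2)) .nil))) .nil))))) .nil)))))) .nil))))),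
 (.br (nat_lit 11) (nat_lit 1) (.cons (.rf (nat_lit 4646) (nat_lit 493858305440582043680)) (.cons (.rf (nat_lit 4651) (nat_lit 493858305440582043680)) (.cons (.rf (nat_lit 4638) (nat_lit 493739772589549652297)) (.cons (.rf (nat_lit 4653) (nat_lit 493858305440582043680)) (.cons (.br (nat_lit 11) (nat_lit 1) (.cons (.rf (nat_lit 4646) (nat_lit 493858305440582043680)) (.cons (.rf (nat_lit 4651) (nat_lit 493858305440582043680)) (.cons (.rf (nat_lit 4638) (nat_lit 493739772589549652297)) (.cons (.rf (nat_lit 4653) (nat_lit 493858305440582043680)) .nil))))) .nil)))))),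
 (.br (nat_lit 11) (nat_lit 1) (.cons (.rf (nat_lit 4646) (nat_lit 493858305440582043680)) (.cons (.rf (nat_lit 4651) (nat_lit 493858305440582043680)) (.cons (.rf (nat_lit 4654) (nat_lit 493858305440582043680)) (.cons (.rf (nat_lit 4638) (nat_lit 493739772589549652297)) (.cons (.br (nat_lit 11) (nat_lit 1) (.cons (.rf (nat_lit 4646) (nat_lit 493858305440582043680)) (.cons (.rf (nat_lit 4651) (nat_lit 493858305440582043680)) (.cons (.rf (nat_lit 4654) (nat_lit 493858305440582043680)) (.cons (.rf (nat_lit 4638) (nat_lit 493739772589549652297)) .nil))))) .nil)))))),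
 (.br (nat_lit 11) (nat_lit 1) (.cons (.rf (nat_lit 4646) (nat_lit 493858305440582043680)) (.cons (.rf (nat_lit 4651) (nat_lit 493858305440582043680)) (.cons (.rf (nat_lit 4654) (nat_lit 493858305440582043680)) (.cons (.rf (nat_lit 4638) (nat_lit 493739772589549652297)) (.cons (.rf (nat_lit 4655) (nat_lit 493858305440582043680)) (.cons (.br (nat_lit 11) (nat_lit 1) (.cons (.rf (nat_lit 4646) (nat_lit 493858305440582043680)) (.cons (.rf (nat_lit 4651) (nat_lit 493858305440582043680)) (.cons (.rf (nat_lit 4654) (nat_lit 493858305440582043680)) (.cons (.rf (nat_lit 4638) (nat_lit 493739772589549652297)) (.cons (.rf (nat_lit 4655) (nat_lit 493858305440582043680)) .nil)))))) .nil))))))),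
 (.br (nat_lit 7) (nat_lit 1) (.cons (.rf (nat_lit 31) (nat_lit 377530594)) (.cons (.rf (nat_lit 2594) (nat_lit 12224563425)) (.cons (.rf (nat_lit 4091) (nat_lit 400542478244896)) (.cons (.br (nat_lit 2) (nat_lit 1) (.cons (.ev (nat_lit 4740813226947649798401) (nat_lit 1)) (.cons (.kr (nat_lit 281474976776192) (nat_lit 72057598332895232) (nat_lit 2) (nat_lit 0)) (.cons (.br (nat_lit 11) (nat_lit 1) (.cons (.zr (nat_lit 6044629098636113241703680) (nat_lit 618974778902678746700054529) (nat_lit 30) (nat_lit 3)) (.cons (.zr (nat_lit 6044629099199054605190400) (nat_lit 618974779046793934775779329) (nat_lit 30) (nat_lit 3)) .nil))) .nil)))) .nil))))),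
 (.br (nat_lit 11) (nat_lit 1) (.cons (.rf (nat_lit 4657) (nat_lit 493858305440582043680)) (.cons (.ev (nat_lit 1208944266358707179290624) (nat_lit 1)) (.cons (.rf (nat_lit 4656) (nat_lit 457999205772793322825)) (.cons (.br (nat_lit 1) (nat_lit 1) (.cons (.zr (nat_lit 55340795171082272768) (nat_lit 618974742009174110918148097) (nat_lit 5) (nat_lit 0)) (.cons (.br (nat_lit 2) (nat_lit 1) (.cons (.ev (nat_lit 79537652264971249774166605825) (nat_lit 1)) (.cons (.rf (nat_lit 4096) (nat_lit 12821725342532672)) .nil))) (.cons (.br (nat_lit 7) (nat_lit 1) (.cons (.rf (nat_lit 31) (nat_lit 411085026)) (.cons (.ev (nat_lit 4740885566012369404161) (nat_lit 1)) .nil))) (.cons (.br (nat_lit 2) (nat_lit 1) (.cons (.rf (nat_lit 4096) (nat_lit 12821725342533664)) (.cons (.rf (nat_lit 4652) (nat_lit 458117738623825714208)) (.cons (.ev (nat_lit 4740813226947649798401) (nat_lit 1)) .nil)))) .nil))))) .nil))))),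
 (.br (nat_lit 11) (nat_lit 1) (.cons (.rf (nat_lit 4657) (nat_lit 493858305440582043680)) (.cons (.ev (nat_lit 1208944266358707179290624) (nat_lit 1)) (.cons (.rf (nat_lit 4656) (nat_lit 457999205772793322825)) (.cons (.rf (nat_lit 4658) (nat_lit 493858305440582043680)) (.cons (.br (nat_lit 11) (nat_lit 1) (.cons (.rf (nat_lit 4657) (nat_lit 493858305440582043680)) (.cons (.ev (nat_lit 1208944266358707179290624) (nat_lit 1)) (.cons (.rf (nat_lit 4656) (nat_lit 457999205772793322825)) (.cons (.rf (nat_lit 4658) (nat_lit 493858305440582043680)) .nil))))) .nil)))))),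
 (.br (nat_lit 8) (nat_lit 1) (.cons (.rf (nat_lit 4638) (nat_lit 493858305440582043680)) (.cons (.rf (nat_lit 4656) (nat_lit 493858305440582043680)) (.cons (.rf (nat_lit 4656) (nat_lit 458117738623825714208)) (.cons (.rf (nat_lit 4659) (nat_lit 493858305440582043680)) (.cons (.rf (nat_lit 4659) (nat_lit 458117738623825714208)) .nil)))))),
 (.br (nat_lit 2) (nat_lit 1) (.cons (.rf (nat_lit 4211) (nat_lit 12853613320866016)) (.cons (.rf (nat_lit 4656) (nat_lit 493739772589549652297)) (.cons (.ev (nat_lit 158457548121447740632844993281) (nat_lit 2)) (.cons (.ev (nat_lit 4740813226947649798401) (nat_lit 1)) .nil))))),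
 (.br (nat_lit 11) (nat_lit 1) (.cons (.rf (nat_lit 4656) (nat_lit 493739772589549652297)) (.cons (.rf (nat_lit 4656) (nat_lit 457999205772793322825)) (.cons (.rf (nat_lit 4661) (nat_lit 493858305440582043680)) (.cons (.rf (nat_lit 4661) (nat_lit 458117738623825714208)) .nil))))),
 (.br (nat_lit 11) (nat_lit 1) (.cons (.rf (nat_lit 4662) (nat_lit 493858305440582043680)) (.cons (.rf (nat_lit 4656) (nat_lit 493739772589549652297)) (.cons (.rf (nat_lit 4656) (nat_lit 457999205772793322825)) (.cons (.br (nat_lit 11) (nat_lit 1) (.cons (.rf (nat_lit 4662) (nat_lit 493858305440582043680)) (.cons (.rf (nat_lit 4656) (nat_lit 493739772589549652297)) (.cons (.rf (nat_lit 4656) (nat_lit 457999205772793322825)) .nil)))) .nil))))),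
 (.br (nat_lit 8) (nat_lit 1) (.cons (.rf (nat_lit 4638) (nat_lit 493858305440582043680)) (.cons (.rf (nat_lit 4656) (nat_lit 493858305440582043680)) (.cons (.rf (nat_lit 4656) (nat_lit 458117738623825714208)) (.cons (.rf (nat_lit 4660) (nat_lit 493858305440582043680)) (.cons (.br (nat_lit 11) (nat_lit 1) (.cons (.rf (nat_lit 4662) (nat_lit 493858305440582043680)) (.cons (.rf (nat_lit 4656) (nat_lit 493739772589549652297)) (.cons (.rf (nat_lit 4656) (nat_lit 457999205772793322825)) (.cons (.rf (nat_lit 4663) (nat_lit 493858305440582043680)) (.cons (.rf (nat_lit 4663) (nat_lit 458117738623825714208)) .nil)))))) .nil)))))),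
 (.br (nat_lit 8) (nat_lit 1) (.cons (.rf (nat_lit 4638) (nat_lit 493858305440582043680)) (.cons (.rf (nat_lit 4656) (nat_lit 493858305440582043680)) (.cons (.rf (nat_lit 4656) (nat_lit 458117738623825714208)) (.cons (.rf (nat_lit 4660) (nat_lit 493858305440582043680)) (.cons (.rf (nat_lit 4664) (nat_lit 493858305440582043680)) (.cons (.rf (nat_lit 4664) (nat_lit 458117738623825714208)) .nil))))))),
 (.br (nat_lit 13) (nat_lit 1) (.cons (.rf (nat_lit 4264) (nat_lit 417836523383744989216)) (.cons (.ev (nat_lit 310698658007442571839733761) (nat_lit 1)) (.cons (.br (nat_lit 7) (nat_lit 1) (.cons (.kr (nat_lit 79537647524157740256306659584) (nat_lit 20282410812595936782650135609344) (nat_lit 1) (nat_lit 0)) .nil)) .nil)))),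
 (.br (nat_lit 10) (nat_lit 1) (.cons (.rf (nat_lit 4666) (nat_lit 493739772589549652297)) (.cons (.ev (nat_lit 4740885566012369404161) (nat_lit 1)) (.cons (.br (nat_lit 2) (nat_lit 1) (.cons (.zr (nat_lit 237688114320468029450269753344) (nat_lit 4759260253595864399873) (nat_lit 5) (nat_lit 9)) .nil)) .nil)))),
 (.br (nat_lit 11) (nat_lit 1) (.cons (.rf (nat_lit 4665) (nat_lit 493739772589549652297)) (.cons (.rf (nat_lit 4656) (nat_lit 493739772589549652297)) (.cons (.rf (nat_lit 4656) (nat_lit 457999205772793322825)) (.cons (.rf (nat_lit 4638) (nat_lit 493739772589549652297)) (.cons (.br (nat_lit 1) (nat_lit 1) (.cons (.rf (nat_lit 4666) (nat_lit 493858305440582043680)) (.cons (.rf (nat_lit 4666) (nat_lit 458117738623825714208)) (.cons (.kr (nat_lit 309485009821345068724781312) (nat_lit 1208944266358702884257792) (nat_lit 1) (nat_lit 0)) (.cons (.rf (nat_lit 4667) (nat_lit 493858305440582043680)) (.cons (.rf (nat_lit 4667) (nat_lit 458117738623825714208)) .nil)))))) .nil))))))]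

theorem c162 : chkAll C T R L162 (nat_lit 4643) = true := by decide +kernel

theorem l162 : (nat_lit 4643) + L162.length = (nat_lit 4669) := by decide +kernel

/-- part of the certificates -/
def L163 : List Prf := [(.br (nat_lit 8) (nat_lit 1) (.cons (.rf (nat_lit 4638) (nat_lit 493858305440582043680)) (.cons (.rf (nat_lit 4656) (nat_lit 493858305440582043680)) (.cons (.rf (nat_lit 4656) (nat_lit 458117738623825714208)) (.cons (.rf (nat_lit 4665) (nat_lit 493858305440582043680)) (.cons (.br (nat_lit 11) (nat_lit 1) (.cons (.rf (nat_lit 4665) (nat_lit 493739772589549652297)) (.cons (.rf (nat_lit 4656) (nat_lit 493739772589549652297)) (.cons (.rf (nat_lit 4656) (nat_lit 457999205772793322825)) (.cons (.rf (nat_lit 4638) (nat_lit 493739772589549652297)) (.cons (.rf (nat_lit 4668) (nat_lit 493858305440582043680)) (.cons (.rf (nat_lit 4668) (nat_lit 458117738623825714208)) .nil))))))) .nil)))))),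
 (.br (nat_lit 8) (nat_lit 1) (.cons (.rf (nat_lit 4638) (nat_lit 493858305440582043680)) (.cons (.rf (nat_lit 4656) (nat_lit 493858305440582043680)) (.cons (.rf (nat_lit 4656) (nat_lit 458117738623825714208)) (.cons (.rf (nat_lit 4665) (nat_lit 493858305440582043680)) (.cons (.rf (nat_lit 4669) (nat_lit 493858305440582043680)) (.cons (.rf (nat_lit 4669) (nat_lit 458117738623825714208)) .nil))))))),
 (.br (nat_lit 8) (nat_lit 1) (.cons (.rf (nat_lit 4638) (nat_lit 493858305440582043680)) (.cons (.rf (nat_lit 4656) (nat_lit 493858305440582043680)) (.cons (.rf (nat_lit 4656) (nat_lit 458117738623825714208)) (.cons (.rf (nat_lit 4665) (nat_lit 493858305440582043680)) (.cons (.rf (nat_lit 4670) (nat_lit 493858305440582043680)) (.cons (.br (nat_lit 8) (nat_lit 1) (.cons (.rf (nat_lit 4638) (nat_lit 493858305440582043680)) (.cons (.rf (nat_lit 4656) (nat_lit 493858305440582043680)) (.cons (.rf (nat_lit 4656) (nat_lit 458117738623825714208)) (.cons (.rf (nat_lit 4665) (nat_lit 493858305440582043680)) (.cons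 (.rf (nat_lit 4670) (nat_lit 493858305440582043680)) .nil)))))) .nil))))))),
 (.br (nat_lit 10) (nat_lit 0) (.cons (.rf (nat_lit 4352) (nat_lit 12341760592201)) (.cons (.br (nat_lit 4) (nat_lit 1) (.cons (.br (nat_lit 6) (nat_lit 1) (.cons (.br (nat_lit 8) (nat_lit 1) (.cons (.rf (nat_lit 4638) (nat_lit 493858305440582043680)) (.cons (.rf (nat_lit 4656) (nat_lit 493858305440582043680)) (.cons (.rf (nat_lit 4656) (nat_lit 458117738623825714208)) (.cons (.rf (nat_lit 4665) (nat_lit 493858305440582043680)) (.cons (.rf (nat_lit 4670) (nat_lit 493858305440582043680)) (.cons (.rf (nat_lit 4671) (nat_lit 493858305440582043680)) (.cons (.rf (nat_lit 4671) (nat_lit 458117738623825714208)) .nil)))))))) .nil)) .nil)) (.cons (.rf (nat_lit 4352) (nat_lit 12339615205705)) .nil)))),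
 (.br (nat_lit 8) (nat_lit 1) (.cons (.ev (nat_lit 1213648258155092857913344) (nat_lit 1)) (.cons (.rf (nat_lit 2594) (nat_lit 12221425729)) (.cons (.br (nat_lit 10) (nat_lit 1) (.cons (.ev (nat_lit 1213648186378978091597824) (nat_lit 1)) (.cons (.rf (nat_lit 2825) (nat_lit 309451385223985170665)) (.cons (.rf (nat_lit 2825) (nat_lit 310568277929427667177)) .nil)))) .nil)))),
 (.br (nat_lit 12) (nat_lit 1) (.cons (.ev (nat_lit 1213648258155092857913344) (nat_lit 1)) (.cons (.rf (nat_lit 2594) (nat_lit 12087339073)) (.cons (.br (nat_lit 10) (nat_lit 1) (.cons (.rf (nat_lit 2809) (nat_lit 310568488760849344553)) (.cons (.ev (nat_lit 1213648186378978091597824) (nat_lit 1)) (.cons (.br (nat_lit 11) (nat_lit 1) (.cons (.br (nat_lit 8) (nat_lit 1) (.cons (.ev (nat_lit 20521028609761443193354757407488) (nat_lit 3)) .nil)) (.cons (.ev (nat_lit 20361948464823942485583316713473) (nat_lit 1)) .nil))) .nil)))) .nil)))),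
 (.br (nat_lit 12) (nat_lit 1) (.cons (.rf (nat_lit 4674) (nat_lit 493858305440582043680)) (.cons (.ev (nat_lit 1213648258155092857913344) (nat_lit 1)) (.cons (.rf (nat_lit 1339) (nat_lit 426622653665)) (.cons (.br (nat_lit 12) (nat_lit 1) (.cons (.rf (nat_lit 4674) (nat_lit 493858305440582043680)) (.cons (.ev (nat_lit 1213648258155092857913344) (nat_lit 1)) (.cons (.rf (nat_lit 2594) (nat_lit 12255111233)) .nil)))) .nil))))),
 (.br (nat_lit 7) (nat_lit 1) (.cons (.br (nat_lit 8) (nat_lit 1) (.cons (.ev (nat_lit 1213648258155092857913344) (nat_lit 1)) (.cons (.rf (nat_lit 1339) (nat_lit 288109956321)) (.cons (.rf (nat_lit 4673) (nat_lit 493858305440582043680)) (.cons (.rf (nat_lit 4673) (nat_lit 458117738797702744096)) .nil))))) (.cons (.rf (nat_lit 29) (nat_lit 11601223)) (.cons (.kr (nat_lit 281474976776192) (nat_lit 72057598332895232) (nat_lit 2) (nat_lit 0)) (.cons (.rf (nat_lit 4675) (nat_lit 493858305440582043680)) (.cons (.rf (nat_lit 4675) (nat_lit 458117738797702744096)) .nil)))))),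
 (.br (nat_lit 8) (nat_lit 1) (.cons (.br (nat_lit 10) (nat_lit 1) (.cons (.br (nat_lit 12) (nat_lit 1) (.cons (.ev (nat_lit 20679487333751713381491069486850) (nat_lit 3)) .nil)) (.cons (.ev (nat_lit 20282719088680010570688035291136) (nat_lit 1)) .nil))) (.cons (.rf (nat_lit 3498) (nat_lit 13129446750756636704)) (.cons (.zr (nat_lit 928455029464598156127961088) (nat_lit 4759259972120887689217) (nat_lit 5) (nat_lit 9)) .nil)))),
 (.br (nat_lit 8) (nat_lit 1) (.cons (.ev (nat_lit 79229371440156291291750072576) (nat_lit 1)) .nil)),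
 (.br (nat_lit 13) (nat_lit 1) (.cons (.ev (nat_lit 20282720297587311383645167550721) (nat_lit 1)) (.cons (.rf (nat_lit 4677) (nat_lit 493858305440582043680)) (.cons (.br (nat_lit 7) (nat_lit 1) (.cons (.rf (nat_lit 4678) (nat_lit 493858305440582043680)) (.cons (.ev (nat_lit 20362568639047110367273390571521) (nat_lit 2)) .nil))) .nil)))),
 (.br (nat_lit 13) (nat_lit 1) (.cons (.kr (nat_lit 281474976776192) (nat_lit 72057598332895232) (nat_lit 2) (nat_lit 0)) (.cons (.rf (nat_lit 4677) (nat_lit 493858305440582043680)) (.cons (.rf (nat_lit 4679) (nat_lit 493858305440582043680)) (.cons (.br (nat_lit 13) (nat_lit 1) (.cons (.kr (nat_lit 281474976776192) (nat_lit 72057598332895232) (nat_lit 2) (nat_lit 0)) (.cons (.rf (nat_lit 4677) (nat_lit 493858305440582043680)) (.cons (.rf (nat_lit 4679) (nat_lit 493858305440582043680)) .nil)))) .nil))))),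
 (.br (nat_lit 13) (nat_lit 1) (.cons (.rf (nat_lit 4680) (nat_lit 493858305440582043680)) (.cons (.rf (nat_lit 4680) (nat_lit 493858305266637970464)) (.cons (.br (nat_lit 13) (nat_lit 1) (.cons (.rf (nat_lit 4680) (nat_lit 493858305440582043680)) (.cons (.rf (nat_lit 4680) (nat_lit 493858305266637970464)) (.cons (.ev (nat_lit 20282719093383858534464404586496) (nat_lit 1)) .nil)))) (.cons (.br (nat_lit 13) (nat_lit 1) (.cons (.rf (nat_lit 4680) (nat_lit 493858305440582043680)) (.cons (.rf (nat_lit 4680) (nat_lit 493858305266637970464)) (.cons (.ev (nat_lit 20282719093383858534464404586496) (nat_lit 1)) .nil)))) .nil))))),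
 (.br (nat_lit 13) (nat_lit 1) (.cons (.rf (nat_lit 4680) (nat_lit 493858305440582043680)) (.cons (.rf (nat_lit 4680) (nat_lit 493858305266637970464)) (.cons (.rf (nat_lit 4681) (nat_lit 493858305440582043680)) (.cons (.br (nat_lit 13) (nat_lit 1) (.cons (.rf (nat_lit 4680) (nat_lit 493858305440582043680)) (.cons (.rf (nat_lit 4680) (nat_lit 493858305266637970464)) (.cons (.ev (nat_lit 20282719093383858534464404586496) (nat_lit 1)) .nil)))) .nil))))),
 (.br (nat_lit 13) (nat_lit 1) (.cons (.rf (nat_lit 4680) (nat_lit 493858305440582043680)) (.cons (.rf (nat_lit 4680) (nat_lit 493858305266637970464)) (.cons (.rf (nat_lit 4681) (nat_lit 493858305440582043680)) (.cons (.rf (nat_lit 4682) (nat_lit 493858305440582043680)) (.cons (.br (nat_lit 13) (nat_lit 1) (.cons (.rf (nat_lit 4680) (nat_lit 493858305440582043680)) (.cons (.rf (nat_lit 4680) (nat_lit 493858305266637970464)) (.cons (.rf (nat_lit 4681) (nat_lit 493858305440582043680)) (.cons (.rf (nat_lit 4682) (nat_lit 493858305440582043680)) .nil)))))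 .nil)))))),
 (.br (nat_lit 11) (nat_lit 1) (.cons (.rf (nat_lit 4676) (nat_lit 493858305440582043680)) (.cons (.rf (nat_lit 4676) (nat_lit 493858305266637970464)) (.cons (.ev (nat_lit 1213648186378978091597824) (nat_lit 1)) (.cons (.rf (nat_lit 4683) (nat_lit 493858305440582043680)) (.cons (.rf (nat_lit 4683) (nat_lit 458117738797702744096)) .nil)))))),
 (.br (nat_lit 8) (nat_lit 1) (.cons (.ev (nat_lit 79537647542604485433822806016) (nat_lit 1)) (.cons (.rf (nat_lit 4678) (nat_lit 310543790606072842272)) .nil))),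
 (.br (nat_lit 7) (nat_lit 1) (.cons (.ev (nat_lit 313111842621268913777804034) (nat_lit 2)) (.cons (.rf (nat_lit 4685) (nat_lit 493858305440582043680)) (.cons (.rf (nat_lit 4685) (nat_lit 458117738797702744096)) .nil)))),
 (.br (nat_lit 10) (nat_lit 1) (.cons (.ev (nat_lit 20680720438161651953309927539458) (nat_lit 3)) .nil)),
 (.br (nat_lit 8) (nat_lit 1) (.cons (.kr (nat_lit 281474976776192) (nat_lit 72057598332895232) (nat_lit 2) (nat_lit 0)) (.cons (.rf (nat_lit 4686) (nat_lit 493858305440582043680)) (.cons (.br (nat_lit 7) (nat_lit 1) (.cons (.ev (nat_lit 1208944266641277389438976) (nat_lit 1)) (.cons (.rf (nat_lit 4687) (nat_lit 493858305440582043680)) (.cons (.rf (nat_lit 4687) (nat_lit 458117738797702744096)) .nil)))) .nil)))),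
 (.br (nat_lit 8) (nat_lit 1) (.cons (.kr (nat_lit 281474976776192) (nat_lit 72057598332895232) (nat_lit 2) (nat_lit 0)) (.cons (.rf (nat_lit 4686) (nat_lit 493858305440582043680)) (.cons (.rf (nat_lit 4688) (nat_lit 493858305440582043680)) (.cons (.rf (nat_lit 4688) (nat_lit 458117738797702744096)) .nil))))),
 (.br (nat_lit 8) (nat_lit 1) (.cons (.rf (nat_lit 4686) (nat_lit 493858305440582043680)) (.cons (.rf (nat_lit 4686) (nat_lit 493858305266637970464)) (.cons (.ev (nat_lit 311926565527274201448186369) (nat_lit 3)) .nil)))),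
 (.br (nat_lit 8) (nat_lit 1) (.cons (.rf (nat_lit 4686) (nat_lit 493858305440582043680)) (.cons (.rf (nat_lit 4686) (nat_lit 493858305266637970464)) (.cons (.rf (nat_lit 4690) (nat_lit 493858305440582043680)) (.cons (.rf (nat_lit 4690) (nat_lit 458117738797702744096)) .nil))))),
 (.br (nat_lit 8) (nat_lit 1) (.cons (.rf (nat_lit 4689) (nat_lit 493858305440582043680)) (.cons (.rf (nat_lit 4689) (nat_lit 493858305266637970464)) (.cons (.rf (nat_lit 4691) (nat_lit 493858305440582043680)) (.cons (.br (nat_lit 8) (nat_lit 1) (.cons (.rf (nat_lit 4689) (nat_lit 493858305440582043680)) (.cons (.rf (nat_lit 4689) (nat_lit 493858305266637970464)) (.cons (.ev (nat_lit 311926565527274201448186369) (nat_lit 3)) .nil)))) .nil))))),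
 (.br (nat_lit 11) (nat_lit 1) (.cons (.rf (nat_lit 4676) (nat_lit 493858305440582043680)) (.cons (.rf (nat_lit 4676) (nat_lit 493858305266637970464)) (.cons (.rf (nat_lit 4684) (nat_lit 493858305440582043680)) (.cons (.ev (nat_lit 1213648186378978091597824) (nat_lit 1)) (.cons (.br (nat_lit 8) (nat_lit 1) (.cons (.rf (nat_lit 4689) (nat_lit 493858305440582043680)) (.cons (.rf (nat_lit 4689) (nat_lit 493858305266637970464)) (.cons (.rf (nat_lit 4691) (nat_lit 493858305440582043680)) (.cons (.rf (nat_lit 4692) (nat_lit 493858305440582043680)) (.cons (.rf (nat_lit 4692) (nat_lit 458117738797702744096)) .nil)))))) .nil)))))),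
 (.br (nat_lit 11) (nat_lit 1) (.cons (.rf (nat_lit 4676) (nat_lit 493858305440582043680)) (.cons (.rf (nat_lit 4676) (nat_lit 493858305266637970464)) (.cons (.rf (nat_lit 4684) (nat_lit 493858305440582043680)) (.cons (.ev (nat_lit 1213648186378978091597824) (nat_lit 1)) (.cons (.rf (nat_lit 4693) (nat_lit 493858305440582043680)) (.cons (.rf (nat_lit 4693) (nat_lit 458117738797702744096)) .nil))))))),
 (.br (nat_lit 8) (nat_lit 1) (.cons (.ev (nat_lit 1213648258155092857913344) (nat_lit 1)) (.cons (.br (nat_lit 10) (nat_lit 1) (.cons (.ev (nat_lit 79537652264899191084911951873) (nat_lit 1)) (.cons (.zr (nat_lit 932081806925412368489185284) (nat_lit 28371452674460778234368) (nat_lit 5) (nat_lit 6)) .nil))) (.cons (.br (nat_lit 10) (nat_lit 1) (.cons (.br (nat_lit 12) (nat_lit 1) (.cons (.zr (nat_lit 932081862264237214733959936) (nat_lit 396140817294048459911377977345) (nat_lit 5) (nat_lit 5)) .nil)) (.cons (.ev (nat_lit 20282719088680010570688035291136) (nat_lit 1)) .nil))) .nil)))),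
 (.br (nat_lit 7) (nat_lit 1) (.cons (.ev (nat_lit 1213648258155092857913344) (nat_lit 1)) (.cons (.br (nat_lit 8) (nat_lit 1) (.cons (.ev (nat_lit 79537652264899191084911951873) (nat_lit 1)) (.cons (.br (nat_lit 12) (nat_lit 1) (.cons (.ev (nat_lit 20839174373599241550520637392646) (nat_lit 3)) .nil)) .nil))) (.cons (.br (nat_lit 8) (nat_lit 1) (.cons (.br (nat_lit 12) (nat_lit 1) (.cons (.ev (nat_lit 79229371440083952227030466816) (nat_lit 1)) .nil)) (.cons (.ev (nat_lit 20282720311809895181866659545090) (nat_lit 2)) .nil))) .nil)))),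
 (.br (nat_lit 8) (nat_lit 1) (.cons (.rf (nat_lit 4695) (nat_lit 493858305440582043680)) (.cons (.rf (nat_lit 4696) (nat_lit 493858305440582043680)) (.cons (.br (nat_lit 7) (nat_lit 1) (.cons (.zr (nat_lit 932081806922879093698462464) (nat_lit 4759260253595864399873) (nat_lit 5) (nat_lit 9)) (.cons (.ev (nat_lit 4740885566012369404161) (nat_lit 1)) (.cons (.br (nat_lit 10) (nat_lit 1) (.cons (.ev (nat_lit 20520412057630333781382562906368) (nat_lit 3)) .nil)) .nil)))) .nil)))),
 (.br (nat_lit 8) (nat_lit 1) (.cons (.rf (nat_lit 4695) (nat_lit 493858305440582043680)) (.cons (.rf (nat_lit 4696) (nat_lit 493858305440582043680)) (.cons (.rf (nat_lit 4697) (nat_lit 493858305440582043680)) (.cons (.br (nat_lit 8) (nat_lit 1) (.cons (.rf (nat_lit 4695) (nat_lit 493858305440582043680)) (.cons (.rf (nat_lit 4696) (nat_lit 493858305440582043680)) (.cons (.rf (nat_lit 4697) (nat_lit 493858305440582043680)) .nil)))) .nil))))),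
 (.br (nat_lit 13) (nat_lit 1) (.cons (.rf (nat_lit 4698) (nat_lit 493858305440582043680)) (.cons (.ev (nat_lit 1213648258155092857913344) (nat_lit 1)) (.cons (.br (nat_lit 8) (nat_lit 1) (.cons (.br (nat_lit 10) (nat_lit 1) (.cons (.ev (nat_lit 158457548176788818382693597954) (nat_lit 2)) .nil)) (.cons (.ev (nat_lit 20282719093402377054652880453633) (nat_lit 1)) (.cons (.br (nat_lit 1) (nat_lit 1) (.cons (.ev (nat_lit 21471152444726789636272144712450) (nat_lit 4)) .nil)) .nil)))) .nil))))]

theorem c163 : chkAll C T R L163 (nat_lit 4669) = true := by decide +kernel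

theorem l163 : (nat_lit 4669) + L163.length = (nat_lit 4700) := by decide +kernel

/-- part of the certificates -/
def L164 : List Prf := [(.br (nat_lit 13) (nat_lit 1) (.cons (.rf (nat_lit 4698) (nat_lit 493858305440582043680)) (.cons (.rf (nat_lit 4699) (nat_lit 493858305440582043680)) (.cons (.ev (nat_lit 1213648258155092857913344) (nat_lit 1)) (.cons (.br (nat_lit 13) (nat_lit 1) (.cons (.rf (nat_lit 4698) (nat_lit 493858305440582043680)) (.cons (.rf (nat_lit 4699) (nat_lit 493858305440582043680)) (.cons (.ev (nat_lit 1213648258155092857913344) (nat_lit 1)) .nil)))) .nil))))),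
 (.br (nat_lit 13) (nat_lit 1) (.cons (.rf (nat_lit 4698) (nat_lit 493858305440582043680)) (.cons (.ev (nat_lit 1213648258155092857913344) (nat_lit 1)) (.cons (.br (nat_lit 7) (nat_lit 1) (.cons (.br (nat_lit 8) (nat_lit 1) (.cons (.zr (nat_lit 932081806922879093698462464) (nat_lit 4759260253595864399873) (nat_lit 5) (nat_lit 9)) .nil)) (.cons (.br (nat_lit 1) (nat_lit 1) (.cons (.zr (nat_lit 396140812571681975955089260544) (nat_lit 621392630542172987368407553) (nat_lit 5) (nat_lit 3)) .nil)) (.cons (.ev (nat_lit 20361948460101576003817494806528) (nat_lit 1)) .nil)))) .nil)))),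
 (.br (nat_lit 13) (nat_lit 1) (.cons (.rf (nat_lit 4698) (nat_lit 493858305440582043680)) (.cons (.rf (nat_lit 4700) (nat_lit 493858305440582043680)) (.cons (.rf (nat_lit 4701) (nat_lit 493858305440582043680)) (.cons (.br (nat_lit 13) (nat_lit 1) (.cons (.rf (nat_lit 4698) (nat_lit 493858305440582043680)) (.cons (.rf (nat_lit 4700) (nat_lit 493858305440582043680)) (.cons (.rf (nat_lit 4701) (nat_lit 493858305440582043680)) .nil)))) .nil))))),
 (.br (nat_lit 13) (nat_lit 1) (.cons (.rf (nat_lit 4698) (nat_lit 493858305440582043680)) (.cons (.ev (nat_lit 1213648258155092857913344) (nat_lit 1)) (.cons (.rf (nat_lit 4702) (nat_lit 493858305440582043680)) (.cons (.br (nat_lit 13) (nat_lit 1) (.cons (.rf (nat_lit 4698) (nat_lit 493858305440582043680)) (.cons (.ev (nat_lit 1213648258155092857913344) (nat_lit 1)) (.cons (.rf (nat_lit 4702) (nat_lit 493858305440582043680)) .nil)))) .nil))))),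
 (.br (nat_lit 13) (nat_lit 1) (.cons (.rf (nat_lit 4698) (nat_lit 493858305440582043680)) (.cons (.rf (nat_lit 4700) (nat_lit 493858305440582043680)) (.cons (.rf (nat_lit 4702) (nat_lit 493858305440582043680)) (.cons (.rf (nat_lit 4703) (nat_lit 493858305440582043680)) (.cons (.br (nat_lit 13) (nat_lit 1) (.cons (.rf (nat_lit 4698) (nat_lit 493858305440582043680)) (.cons (.rf (nat_lit 4700) (nat_lit 493858305440582043680)) (.cons (.rf (nat_lit 4702) (nat_lit 493858305440582043680)) (.cons (.rf (nat_lit 4703) (nat_lit 493858305440582043680)) .nil))))) .nil)))))),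
 (.br (nat_lit 11) (nat_lit 1) (.cons (.rf (nat_lit 4694) (nat_lit 493858305440582043680)) (.cons (.kr (nat_lit 281474976776192) (nat_lit 72057598332895232) (nat_lit 2) (nat_lit 0)) (.cons (.ev (nat_lit 1213648186378978091597824) (nat_lit 1)) (.cons (.rf (nat_lit 4704) (nat_lit 493858305440582043680)) (.cons (.rf (nat_lit 4704) (nat_lit 458117738797702744096)) .nil)))))),
 (.br (nat_lit 10) (nat_lit 1) (.cons (.ev (nat_lit 1213648258155092857913344) (nat_lit 1)) (.cons (.rf (nat_lit 2825) (nat_lit 420141979466936228928)) (.cons (.rf (nat_lit 2825) (nat_lit 421258872172378725440)) .nil)))),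
 (.br (nat_lit 8) (nat_lit 1) (.cons (.ev (nat_lit 79537647542604485433822806016) (nat_lit 1)) (.cons (.br (nat_lit 12) (nat_lit 1) (.cons (.ev (nat_lit 20839174373599241550520637392646) (nat_lit 3)) .nil)) .nil))),
 (.br (nat_lit 7) (nat_lit 1) (.cons (.ev (nat_lit 1213648258155092857913344) (nat_lit 1)) (.cons (.rf (nat_lit 4707) (nat_lit 493858305440582043680)) (.cons (.rf (nat_lit 4707) (nat_lit 458117738797702744096)) .nil)))),
 (.br (nat_lit 8) (nat_lit 1) (.cons (.rf (nat_lit 4706) (nat_lit 493858305440582043680)) (.cons (.rf (nat_lit 4708) (nat_lit 493858305440582043680)) (.cons (.ev (nat_lit 18446745173237956864) (nat_lit 1)) .nil)))),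
 (.br (nat_lit 8) (nat_lit 1) (.cons (.rf (nat_lit 4706) (nat_lit 493858305440582043680)) (.cons (.rf (nat_lit 4708) (nat_lit 493858305440582043680)) (.cons (.rf (nat_lit 4709) (nat_lit 493858305440582043680)) (.cons (.rf (nat_lit 4709) (nat_lit 458117738797702744096)) .nil))))),
 (.br (nat_lit 8) (nat_lit 1) (.cons (.rf (nat_lit 4706) (nat_lit 493858305440582043680)) (.cons (.ev (nat_lit 1213648258155092857913344) (nat_lit 1)) (.cons (.br (nat_lit 10) (nat_lit 1) (.cons (.ev (nat_lit 309485028268089146729365761) (nat_lit 1)) (.cons (.ev (nat_lit 79537652264970967199678267393) (nat_lit 1)) (.cons (.ev (nat_lit 20282719093402377054652880453633) (nat_lit 1)) .nil)))) .nil)))),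
 (.br (nat_lit 8) (nat_lit 1) (.cons (.rf (nat_lit 4706) (nat_lit 493858305440582043680)) (.cons (.ev (nat_lit 1213648258155092857913344) (nat_lit 1)) (.cons (.rf (nat_lit 4711) (nat_lit 493858305440582043680)) (.cons (.rf (nat_lit 4711) (nat_lit 458117738797702744096)) .nil))))),
 (.br (nat_lit 7) (nat_lit 1) (.cons (.ev (nat_lit 20837324698316012235997095198978) (nat_lit 3)) .nil)),
 (.br (nat_lit 8) (nat_lit 1) (.cons (.rf (nat_lit 4710) (nat_lit 493858305440582043680)) (.cons (.ev (nat_lit 1213648258155092857913344) (nat_lit 1)) (.cons (.br (nat_lit 1) (nat_lit 1) (.cons (.ev (nat_lit 309485028268089146729365761) (nat_lit 1)) (.cons (.rf (nat_lit 4713) (nat_lit 493858305440582043680)) (.cons (.rf (nat_lit 4713) (nat_lit 458117738797702744096)) .nil)))) .nil)))),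
 (.br (nat_lit 8) (nat_lit 1) (.cons (.rf (nat_lit 4710) (nat_lit 493858305440582043680)) (.cons (.ev (nat_lit 1213648258155092857913344) (nat_lit 1)) (.cons (.rf (nat_lit 4714) (nat_lit 493858305440582043680)) (.cons (.rf (nat_lit 4714) (nat_lit 458117738797702744096)) .nil))))),
 (.br (nat_lit 8) (nat_lit 1) (.cons (.rf (nat_lit 4710) (nat_lit 493858305440582043680)) (.cons (.rf (nat_lit 4712) (nat_lit 493858305440582043680)) (.cons (.rf (nat_lit 4715) (nat_lit 493858305440582043680)) (.cons (.br (nat_lit 8) (nat_lit 1) (.cons (.ev (nat_lit 18446745173237956864) (nat_lit 1)) (.cons (.rf (nat_lit 4712) (nat_lit 493858305440582043680)) (.cons (.rf (nat_lit 4715) (nat_lit 493858305440582043680)) .nil)))) .nil))))),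
 (.br (nat_lit 11) (nat_lit 1) (.cons (.rf (nat_lit 4694) (nat_lit 493858305440582043680)) (.cons (.kr (nat_lit 281474976776192) (nat_lit 72057598332895232) (nat_lit 2) (nat_lit 0)) (.cons (.rf (nat_lit 4705) (nat_lit 493858305440582043680)) (.cons (.ev (nat_lit 1213648186378978091597824) (nat_lit 1)) (.cons (.br (nat_lit 8) (nat_lit 1) (.cons (.rf (nat_lit 4710) (nat_lit 493858305440582043680)) (.cons (.rf (nat_lit 4712) (nat_lit 493858305440582043680)) (.cons (.rf (nat_lit 4715) (nat_lit 493858305440582043680)) (.cons (.rf (nat_lit 4716) (nat_lit 493858305440582043680)) (.cons (.rf (nat_lit 4716) (nat_lit 458117738797702744096)) .nil)))))) .nil)))))),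
 (.br (nat_lit 11) (nat_lit 1) (.cons (.rf (nat_lit 4694) (nat_lit 493858305440582043680)) (.cons (.kr (nat_lit 281474976776192) (nat_lit 72057598332895232) (nat_lit 2) (nat_lit 0)) (.cons (.rf (nat_lit 4705) (nat_lit 493858305440582043680)) (.cons (.ev (nat_lit 1213648186378978091597824) (nat_lit 1)) (.cons (.rf (nat_lit 4717) (nat_lit 493858305440582043680)) (.cons (.rf (nat_lit 4717) (nat_lit 458117738797702744096)) .nil))))))),
 (.br (nat_lit 10) (nat_lit 1) (.cons (.ev (nat_lit 79537647524157741360113254401) (nat_lit 1)) (.cons (.zr (nat_lit 3626832799076108652774144) (nat_lit 618974742009455585894858753) (nat_lit 5) (nat_lit 0)) .nil))),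
 (.br (nat_lit 10) (nat_lit 1) (.cons (.br (nat_lit 8) (nat_lit 1) (.cons (.rf (nat_lit 31) (nat_lit 411281473)) (.cons (.ev (nat_lit 310693954159761365647032321) (nat_lit 1)) .nil))) (.cons (.ev (nat_lit 79538856449977637464264737025) (nat_lit 1)) (.cons (.br (nat_lit 12) (nat_lit 1) (.cons (.br (nat_lit 8) (nat_lit 1) (.cons (.zr (nat_lit 55340795171082272768) (nat_lit 618974742009174110918148097) (nat_lit 5) (nat_lit 0)) .nil)) (.cons (.ev (nat_lit 20282719088661563826614325739521) (nat_lit 1)) .nil))) .nil)))),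
 (.br (nat_lit 7) (nat_lit 1) (.cons (.br (nat_lit 8) (nat_lit 1) (.cons (.ev (nat_lit 313111842836597266666554114) (nat_lit 2)) (.cons (.rf (nat_lit 4719) (nat_lit 493858305440582043680)) (.cons (.rf (nat_lit 4719) (nat_lit 458117738797702744096)) .nil)))) (.cons (.kr (nat_lit 1208925819614629174706432) (nat_lit 281474976776192) (nat_lit 1) (nat_lit 0)) (.cons (.rf (nat_lit 4720) (nat_lit 493858305440582043680)) (.cons (.rf (nat_lit 4720) (nat_lit 458117738797702744096)) .nil))))),
 (.br (nat_lit 8) (nat_lit 1) (.cons (.ev (nat_lit 310693954159761365647032321) (nat_lit 1)) (.cons (.zr (nat_lit 55556405011832373248) (nat_lit 618974742009455581599891457) (nat_lit 5) (nat_lit 0)) (.cons (.zr (nat_lit 55340795171082272768) (nat_lit 618974742009174110918148097) (nat_lit 5) (nat_lit 0)) .nil)))),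
 (.br (nat_lit 13) (nat_lit 1) (.cons (.rf (nat_lit 4722) (nat_lit 493858305440582043680)) (.cons (.zr (nat_lit 55340795171082272768) (nat_lit 618974742009174110918148097) (nat_lit 5) (nat_lit 0)) (.cons (.br (nat_lit 13) (nat_lit 1) (.cons (.rf (nat_lit 4722) (nat_lit 493858305440582043680)) (.cons (.zr (nat_lit 55340795171082272768) (nat_lit 618974742009174110918148097) (nat_lit 5) (nat_lit 0)) (.cons (.ev (nat_lit 20282719088661492050490969620481) (nat_lit 1)) .nil)))) (.cons (.br (nat_lit 13) (nat_lit 1) (.cons (.ev (nat_lit 20361637766165934761540795236609) (nat_lit 1)) (.cons (.zr (nat_lit 55340795171082272768) (nat_lit 618974742009174110918148097) (nat_lit 5) (nat_lit 0)) (.cons (.ev (nat_lit 20282719088661492050490969620481) (nat_lit 1)) .nil)))) .nil))))),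
 (.br (nat_lit 13) (nat_lit 1) (.cons (.zr (nat_lit 55340795171082272768) (nat_lit 618974742009174110918148097) (nat_lit 5) (nat_lit 0)) (.cons (.zr (nat_lit 55556405011832373248) (nat_lit 618974742009455581599891457) (nat_lit 5) (nat_lit 0)) (.cons (.br (nat_lit 12) (nat_lit 1) (.cons (.rf (nat_lit 4723) (nat_lit 493858305440582043680)) (.cons (.rf (nat_lit 4723) (nat_lit 493858305266637970464)) (.cons (.ev (nat_lit 40564820430451600988891118568194) (nat_lit 2)) .nil)))) (.cons (.br (nat_lit 13) (nat_lit 1) (.cons (.zr (nat_lit 55340795171082272768) (nat_lit 618974742009174110918148097) (nat_lit 5) (nat_lit 0)) (.cons (.zr (nat_lit 55556405011832373248) (nat_lit 618974742009455581599891457) (nat_lit 5) (nat_lit 0)) (.cons (.ev (nat_lit 40564820430451600988891118568194) (nat_lit 2)) .nil)))) .nil))))),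
 (.br (nat_lit 13) (nat_lit 1) (.cons (.rf (nat_lit 4723) (nat_lit 458117738797702744096)) (.cons (.rf (nat_lit 4723) (nat_lit 458117738623758670880)) (.cons (.rf (nat_lit 4724) (nat_lit 458117738797702744096)) (.cons (.br (nat_lit 13) (nat_lit 1) (.cons (.ev (nat_lit 79537647524085965236757135361) (nat_lit 1)) (.cons (.ev (nat_lit 79537647524157741360113254401) (nat_lit 1)) (.cons (.ev (nat_lit 158457548176788818382693597954) (nat_lit 2)) .nil)))) .nil))))),
 (.br (nat_lit 7) (nat_lit 1) (.cons (.kr (nat_lit 281474976776192) (nat_lit 72057598332895232) (nat_lit 2) (nat_lit 0)) (.cons (.br (nat_lit 8) (nat_lit 1) (.cons (.ev (nat_lit 79229371458530696300740018433) (nat_lit 1)) (.cons (.zr (nat_lit 3626832799076108652774144) (nat_lit 618974742009455585894858753) (nat_lit 5) (nat_lit 0)) .nil))) (.cons (.br (nat_lit 10) (nat_lit 1) (.cons (.ev (nat_lit 80157840655094744165298274306) (nat_lit 2)) (.cons (.rf (nat_lit 3906) (nat_lit 310568488726422554953)) .nil))) (.cons (.br (nat_lit 8) (nat_lit 1)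 (.cons (.br (nat_lit 12) (nat_lit 1) (.cons (.ev (nat_lit 79229376162450436191875498241) (nat_lit 1)) .nil)) (.cons (.br (nat_lit 10) (nat_lit 1) (.cons (.ev (nat_lit 79229376162450436191875498241) (nat_lit 1)) .nil)) (.cons (.br (nat_lit 10) (nat_lit 1) (.cons (.ev (nat_lit 20837322299243302584556575590148) (nat_lit 3)) .nil)) .nil)))) .nil))))),
 (.br (nat_lit 2) (nat_lit 1) (.cons (.rf (nat_lit 31) (nat_lit 411085026)) (.cons (.br (nat_lit 7) (nat_lit 1) (.cons (.kr (nat_lit 281474976776192) (nat_lit 72057598332895232) (nat_lit 2) (nat_lit 0)) .nil)) .nil))),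
 (.br (nat_lit 7) (nat_lit 1) (.cons (.ev (nat_lit 20363193663270143934076001911556) (nat_lit 3)) .nil)),
 (.br (nat_lit 8) (nat_lit 1) (.cons (.rf (nat_lit 4726) (nat_lit 493858305440582043680)) (.cons (.rf (nat_lit 4726) (nat_lit 493858305266637970464)) (.cons (.rf (nat_lit 4727) (nat_lit 493858305440582043680)) (.cons (.br (nat_lit 12) (nat_lit 1) (.cons (.rf (nat_lit 4728) (nat_lit 493858305440582043680)) (.cons (.rf (nat_lit 4728) (nat_lit 493858305266637970464)) (.cons (.ev (nat_lit 79229376162450436191875498241) (nat_lit 1)) .nil)))) .nil))))),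
 (.br (nat_lit 8) (nat_lit 1) (.cons (.rf (nat_lit 4726) (nat_lit 493858305440582043680)) (.cons (.rf (nat_lit 4726) (nat_lit 493858305266637970464)) (.cons (.rf (nat_lit 4727) (nat_lit 493858305440582043680)) (.cons (.br (nat_lit 13) (nat_lit 1) (.cons (.ev (nat_lit 4740813226947649798401) (nat_lit 1)) (.cons (.ev (nat_lit 4740885566012369404161) (nat_lit 1)) (.cons (.ev (nat_lit 79229376162450436191875498241) (nat_lit 1)) .nil)))) .nil))))),
 (.br (nat_lit 8) (nat_lit 1) (.cons (.rf (nat_lit 4726) (nat_lit 493858305440582043680)) (.cons (.rf (nat_lit 4726) (nat_lit 493858305266637970464)) (.cons (.rf (nat_lit 4729) (nat_lit 493858305440582043680)) (.cons (.rf (nat_lit 4730) (nat_lit 493858305440582043680)) (.cons (.br (nat_lit 8) (nat_lit 1) (.cons (.rf (nat_lit 4726) (nat_lit 493858305440582043680)) (.cons (.rf (nat_lit 4726) (nat_lit 493858305266637970464)) (.cons (.rf (nat_lit 4729) (nat_lit 493858305440582043680)) (.cons (.rf (nat_lit 4730) (nat_lit 493858305440582043680)) .nil))))) .nil)))))),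
 (.br (nat_lit 11) (nat_lit 1) (.cons (.rf (nat_lit 4694) (nat_lit 493858305440582043680)) (.cons (.rf (nat_lit 4718) (nat_lit 493858305440582043680)) (.cons (.rf (nat_lit 4718) (nat_lit 493858305266637970464)) (.cons (.ev (nat_lit 1213648186378978091597824) (nat_lit 1)) (.cons (.br (nat_lit 1) (nat_lit 1) (.cons (.rf (nat_lit 4721) (nat_lit 493858305440582043680)) (.cons (.rf (nat_lit 4721) (nat_lit 493858305266637970464)) (.cons (.br (nat_lit 12) (nat_lit 1) (.cons (.rf (nat_lit 4723) (nat_lit 493858305440582043680)) (.cons (.rf (nat_lit 4723) (nat_lit 493858305266637970464)) (.cons (.rf (nat_lit 4724) (nat_lit 493858305440582043680)) (.cons (.rf (nat_lit 4725) (nat_lit 493858305440582043680)) (.cons (.br (nat_lit 12) (nat_lit 1) (.cons (.rf (nat_lit 4723) (nat_lit 493858305440582043680)) (.cons (.rf (nat_lit 4723) (nat_lit 493858305266637970464)) (.cons (.rf (nat_lit 4724) (nat_lit 493858305440582043680)) (.cons (.rf (nat_lit 4725) (nat_lit 493858305440582043680)) .nil))))) .nil)))))) (.cons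 (.ev (nat_lit 309489732187829037898400001) (nat_lit 1)) (.cons (.rf (nat_lit 4731) (nat_lit 493858305440582043680)) (.cons (.rf (nat_lit 4731) (nat_lit 458117738797702744096)) .nil))))))) .nil))))))]

theorem c164 : chkAll C T R L164 (nat_lit 4700) = true := by decide +kernel

theorem l164 : (nat_lit 4700) + L164.length = (nat_lit 4733) := by decide +kernel

/-- part of the certificates -/
def L165 : List Prf := [(.br (nat_lit 11) (nat_lit 1) (.cons (.rf (nat_lit 4694) (nat_lit 493858305440582043680)) (.cons (.rf (nat_lit 4718) (nat_lit 493858305440582043680)) (.cons (.rf (nat_lit 4718) (nat_lit 493858305266637970464)) (.cons (.ev (nat_lit 1213648186378978091597824) (nat_lit 1)) (.cons (.rf (nat_lit 4732) (nat_lit 493858305440582043680)) (.cons (.rf (nat_lit 4732) (nat_lit 458117738797702744096)) .nil))))))),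
 (.br (nat_lit 11) (nat_lit 1) (.cons (.rf (nat_lit 4694) (nat_lit 493858305440582043680)) (.cons (.rf (nat_lit 4718) (nat_lit 493858305440582043680)) (.cons (.rf (nat_lit 4718) (nat_lit 493858305266637970464)) (.cons (.rf (nat_lit 4733) (nat_lit 493858305440582043680)) (.cons (.ev (nat_lit 1213648186378978091597824) (nat_lit 1)) (.cons (.br (nat_lit 11) (nat_lit 1) (.cons (.rf (nat_lit 4694) (nat_lit 493858305440582043680)) (.cons (.rf (nat_lit 4718) (nat_lit 493858305440582043680)) (.cons (.rf (nat_lit 4718) (nat_lit 493858305266637970464)) (.cons (.rf (nat_lit 4733) (nat_lit 493858305440582043680)) (.cons (.ev (nat_lit 1213648186378978091597824) (nat_lit 1)) .nil)))))) .nil))))))),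
 (.br (nat_lit 3) (nat_lit 1) (.cons (.rf (nat_lit 4672) (nat_lit 407901468851537952)) (.cons (.br (nat_lit 5) (nat_lit 1) (.cons (.rf (nat_lit 4672) (nat_lit 407901468784494624)) (.cons (.br (nat_lit 4) (nat_lit 1) (.cons (.br (nat_lit 10) (nat_lit 0) (.cons (.br (nat_lit 11) (nat_lit 1) (.cons (.rf (nat_lit 4694) (nat_lit 493858305440582043680)) (.cons (.rf (nat_lit 4718) (nat_lit 493858305440582043680)) (.cons (.rf (nat_lit 4718) (nat_lit 493858305266637970464)) (.cons (.rf (nat_lit 4733) (nat_lit 493858305440582043680)) (.cons (.ev (nat_lit 1213648186378978091597824) (nat_lit 1)) (.cons (.rf (nat_lit 4734) (nat_lit 493858305440582043680)) (.cons (.rf (nat_lit 4734) (nat_lit 458117738797702744096)) .nil)))))))) .nil)) .nil)) .nil))) .nil))),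
 (.br (nat_lit 8) (nat_lit 1) (.cons (.br (nat_lit 12) (nat_lit 1) (.cons (.br (nat_lit 12) (nat_lit 1) (.cons (.ev (nat_lit 20363805370179024286566765233410) (nat_lit 3)) .nil)) (.cons (.br (nat_lit 11) (nat_lit 1) (.cons (.ev (nat_lit 20363805370179024286566765233410) (nat_lit 3)) .nil)) .nil))) (.cons (.br (nat_lit 12) (nat_lit 1) (.cons (.br (nat_lit 11) (nat_lit 1) (.cons (.ev (nat_lit 79849564589755368739770073858) (nat_lit 2)) .nil)) (.cons (.zr (nat_lit 237684497042866210758230803200) (nat_lit 101412048018258352402310761676804) (nat_lit 5) (nat_lit 3)) .nil))) .nil))),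
 (.br (nat_lit 13) (nat_lit 1) (.cons (.rf (nat_lit 4736) (nat_lit 493858305440582043680)) (.cons (.br (nat_lit 8) (nat_lit 1) (.cons (.br (nat_lit 11) (nat_lit 1) (.cons (.ev (nat_lit 21156713256896809073687876799758) (nat_lit 4)) .nil)) (.cons (.ev (nat_lit 20282409608392483932365599604736) (nat_lit 1)) (.cons (.br (nat_lit 10) (nat_lit 1) (.cons (.zr (nat_lit 161551175126742407353792071424) (nat_lit 6077741003695350123331590) (nat_lit 20) (nat_lit 3)) .nil)) .nil)))) .nil))),
 (.br (nat_lit 13) (nat_lit 1) (.cons (.rf (nat_lit 4736) (nat_lit 493858305440582043680)) (.cons (.rf (nat_lit 4737) (nat_lit 493858305440582043680)) (.cons (.br (nat_lit 13) (nat_lit 1) (.cons (.rf (nat_lit 4736) (nat_lit 493858305440582043680)) (.cons (.rf (nat_lit 4737) (nat_lit 493858305440582043680)) .nil))) .nil)))),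
 (.br (nat_lit 8) (nat_lit 1) (.cons (.br (nat_lit 13) (nat_lit 1) (.cons (.br (nat_lit 12) (nat_lit 1) (.cons (.ev (nat_lit 159076508751842095010385363714) (nat_lit 2)) .nil)) (.cons (.br (nat_lit 11) (nat_lit 1) (.cons (.ev (nat_lit 159076508751842095010385363714) (nat_lit 2)) .nil)) .nil))) (.cons (.rf (nat_lit 4738) (nat_lit 493858305440582043680)) .nil))),
 (.br (nat_lit 8) (nat_lit 1) (.cons (.rf (nat_lit 4739) (nat_lit 493858305440582043680)) (.cons (.br (nat_lit 8) (nat_lit 1) (.cons (.rf (nat_lit 4739) (nat_lit 493858305440582043680)) (.cons (.rf (nat_lit 4738) (nat_lit 493858305440582043680)) .nil))) (.cons (.rf (nat_lit 4738) (nat_lit 493858305440582043680)) .nil)))),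
 (.br (nat_lit 13) (nat_lit 1) (.cons (.rf (nat_lit 4738) (nat_lit 493858305440582043680)) (.cons (.rf (nat_lit 4740) (nat_lit 493858305440582043680)) (.cons (.br (nat_lit 13) (nat_lit 1) (.cons (.rf (nat_lit 4738) (nat_lit 493858305440582043680)) (.cons (.rf (nat_lit 4740) (nat_lit 493858305440582043680)) .nil))) .nil)))),
 (.br (nat_lit 13) (nat_lit 1) (.cons (.rf (nat_lit 4738) (nat_lit 493858305440582043680)) (.cons (.rf (nat_lit 4740) (nat_lit 493858305440582043680)) (.cons (.rf (nat_lit 4741) (nat_lit 493858305440582043680)) (.cons (.br (nat_lit 13) (nat_lit 1) (.cons (.rf (nat_lit 4738) (nat_lit 493858305440582043680)) (.cons (.rf (nat_lit 4740) (nat_lit 493858305440582043680)) (.cons (.rf (nat_lit 4741) (nat_lit 493858305440582043680)) .nil)))) .nil))))),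
 (.br (nat_lit 7) (nat_lit 1) (.cons (.rf (nat_lit 84) (nat_lit 12222536738)) (.cons (.rf (nat_lit 1420) (nat_lit 419678108430372120809)) (.cons (.rf (nat_lit 84) (nat_lit 12092221666)) (.cons (.br (nat_lit 8) (nat_lit 1) (.cons (.br (nat_lit 13) (nat_lit 1) (.cons (.br (nat_lit 12) (nat_lit 1) (.cons (.ev (nat_lit 20680115984770939926612739558146) (nat_lit 4)) .nil)) (.cons (.br (nat_lit 11) (nat_lit 1) (.cons (.ev (nat_lit 20680115984770939926612739558146) (nat_lit 4)) .nil)) .nil))) (.cons (.br (nat_lit 11) (nat_lit 1) (.cons (.br (nat_lit 11) (nat_lit 1) (.cons (.ev (nat_lit 20997028634754213678391797681922) (nat_lit 4)) .nil)) (.cons (.br (nat_lit 11) (nat_lit 1) (.cons (.ev (nat_lit 20997028634754213678391797681922) (nat_lit 4)) .nil)) .nil))) .nil))) .nil))))),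
 (.br (nat_lit 12) (nat_lit 1) (.cons (.rf (nat_lit 4742) (nat_lit 493858305440582043680)) (.cons (.rf (nat_lit 4743) (nat_lit 493858305440582043680)) (.cons (.br (nat_lit 11) (nat_lit 1) (.cons (.rf (nat_lit 1338) (nat_lit 9561506194321998912)) (.cons (.br (nat_lit 7) (nat_lit 1) (.cons (.rf (nat_lit 31) (nat_lit 377554247)) (.cons (.br (nat_lit 10) (nat_lit 1) (.cons (.ev (nat_lit 20680725302162090019040952255238) (nat_lit 3)) .nil)) .nil))) (.cons (.ev (nat_lit 310693935641241177171165184) (nat_lit 1)) (.cons (.br (nat_lit 8) (nat_lit 1) (.cons (.rf (nat_lit 2994) (nat_lit 14312441104194214985)) (.cons (.ev (nat_lit 309489750634573111607951616) (nat_lit 1)) (.cons (.br (nat_lit 7) (nat_lit 1) (.cons (.ev (nat_lit 20679487333752146292221453731586) (nat_lit 3)) .nil)) .nil)))) .nil))))) .nil)))),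
 (.br (nat_lit 12) (nat_lit 1) (.cons (.rf (nat_lit 4742) (nat_lit 493858305440582043680)) (.cons (.rf (nat_lit 4743) (nat_lit 493858305440582043680)) (.cons (.rf (nat_lit 4744) (nat_lit 493858305440582043680)) (.cons (.br (nat_lit 12) (nat_lit 1) (.cons (.rf (nat_lit 4742) (nat_lit 493858305440582043680)) (.cons (.rf (nat_lit 4743) (nat_lit 493858305440582043680)) (.cons (.rf (nat_lit 4744) (nat_lit 493858305440582043680)) .nil)))) .nil))))),
 (.br (nat_lit 8) (nat_lit 1) (.cons (.rf (nat_lit 4745) (nat_lit 493858305440582043680)) (.cons (.br (nat_lit 11) (nat_lit 1) (.cons (.br (nat_lit 12) (nat_lit 1) (.cons (.ev (nat_lit 20284577207683206974521907545090) (nat_lit 3)) .nil)) (.cons (.ev (nat_lit 40565439391026510713289277702914) (nat_lit 2)) .nil))) .nil))),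
 (.br (nat_lit 7) (nat_lit 1) (.cons (.rf (nat_lit 4484) (nat_lit 15433070910038444064)) (.cons (.rf (nat_lit 1420) (nat_lit 419678108430372120809)) (.cons (.rf (nat_lit 4742) (nat_lit 493858305440582043680)) (.cons (.br (nat_lit 8) (nat_lit 1) (.cons (.rf (nat_lit 4746) (nat_lit 493858305440582043680)) (.cons (.rf (nat_lit 4745) (nat_lit 493858305440582043680)) (.cons (.br (nat_lit 8) (nat_lit 1) (.cons (.rf (nat_lit 4746) (nat_lit 493858305440582043680)) (.cons (.rf (nat_lit 4745) (nat_lit 493858305440582043680)) .nil))) .nil)))) .nil))))),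
 (.br (nat_lit 12) (nat_lit 1) (.cons (.rf (nat_lit 4742) (nat_lit 493858305440582043680)) (.cons (.rf (nat_lit 4745) (nat_lit 493858305440582043680)) (.cons (.rf (nat_lit 4747) (nat_lit 493858305440582043680)) (.cons (.br (nat_lit 12) (nat_lit 1) (.cons (.rf (nat_lit 4742) (nat_lit 493858305440582043680)) (.cons (.rf (nat_lit 4745) (nat_lit 493858305440582043680)) (.cons (.rf (nat_lit 4747) (nat_lit 493858305440582043680)) .nil)))) .nil))))),
 (.br (nat_lit 12) (nat_lit 1) (.cons (.rf (nat_lit 4742) (nat_lit 493858305440582043680)) (.cons (.rf (nat_lit 4745) (nat_lit 493858305440582043680)) (.cons (.rf (nat_lit 4747) (nat_lit 493858305440582043680)) (.cons (.rf (nat_lit 4748) (nat_lit 493858305440582043680)) (.cons (.br (nat_lit 12) (nat_lit 1) (.cons (.rf (nat_lit 4742) (nat_lit 493858305440582043680)) (.cons (.rf (nat_lit 4745) (nat_lit 493858305440582043680)) (.cons (.rf (nat_lit 4747) (nat_lit 493858305440582043680)) (.cons (.rf (nat_lit 4748) (nat_lit 493858305440582043680)) .nil))))) .nil)))))),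
 (.br (nat_lit 2) (nat_lit 1) (.cons (.rf (nat_lit 1339) (nat_lit 392259769569)) (.cons (.rf (nat_lit 31) (nat_lit 377718082)) (.cons (.rf (nat_lit 1339) (nat_lit 289183863842)) (.cons (.br (nat_lit 8) (nat_lit 1) (.cons (.ev (nat_lit 1208944338416296938962944) (nat_lit 1)) (.cons (.br (nat_lit 10) (nat_lit 1) (.cons (.rf (nat_lit 84) (nat_lit 13164914914)) (.cons (.rf (nat_lit 84) (nat_lit 12092221511)) (.cons (.br (nat_lit 13) (nat_lit 1) (.cons (.br (nat_lit 12) (nat_lit 1) (.cons (.ev (nat_lit 159076508751842095010385363714) (nat_lit 2)) .nil)) (.cons (.br (nat_lit 11) (nat_lit 1) (.cons (.ev (nat_lit 159076508751842095010385363714) (nat_lit 2)) .nil)) .nil))) .nil)))) (.cons (.br (nat_lit 10) (nat_lit 1) (.cons (.rf (nat_lit 84) (nat_lit 13164914914)) (.cons (.br (nat_lit 11) (nat_lit 1) (.cons (.ev (nat_lit 79538861172344119230120067328) (nat_lit 1)) (.cons (.zr (nat_lit 6044648265396471382147080) (nat_lit 1237973095851041837510034688) (nat_lit 10) (nat_lit 0)) .nil))) (.cons (.br (nat_lit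 11) (nat_lit 1) (.cons (.br (nat_lit 12) (nat_lit 1) (.cons (.ev (nat_lit 158768227927099757080583733249) (nat_lit 2)) .nil)) (.cons (.zr (nat_lit 928455084804830394436288512) (nat_lit 101412048022980718603705430179841) (nat_lit 5) (nat_lit 3)) .nil))) .nil)))) .nil)))) (.cons (.br (nat_lit 8) (nat_lit 1) (.cons (.ev (nat_lit 1208944338416296938962944) (nat_lit 1)) (.cons (.br (nat_lit 10) (nat_lit 1) (.cons (.rf (nat_lit 84) (nat_lit 14238656738)) (.cons (.br (nat_lit 11) (nat_lit 1) (.cons (.ev (nat_lit 158768237371688044673221394435) (nat_lit 2)) (.cons (.zr (nat_lit 309499195368663651411428608) (nat_lit 6044629458368821234499591) (nat_lit 10) (nat_lit 3)) .nil))) (.cons (.br (nat_lit 13) (nat_lit 1) (.cons (.zr (nat_lit 6044648265396471382147080) (nat_lit 1237973095851041837510034688) (nat_lit 10) (nat_lit 0)) (.cons (.ev (nat_lit 20282409603670189225619293798401) (nat_lit 1)) .nil))) .nil)))) (.cons (.br (nat_lit 10) (nat_lit 1) (.cons (.rf (nat_lit 84) (nat_lit 14238656738)) (.cons (.br (nat_lit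 12) (nat_lit 1) (.cons (.zr (nat_lit 309499195368663651411428608) (nat_lit 6044629458368821234499591) (nat_lit 10) (nat_lit 3)) (.cons (.zr (nat_lit 1208944699552003461742600) (nat_lit 81129638447663247075876639081728) (nat_lit 10) (nat_lit 0)) .nil))) (.cons (.rf (nat_lit 84) (nat_lit 12093270087)) .nil)))) .nil)))) .nil)))))),
 (.br (nat_lit 8) (nat_lit 1) (.cons (.br (nat_lit 12) (nat_lit 1) (.cons (.kr (nat_lit 79537647524085682662268797184) (nat_lit 20282410812596008840244173471744) (nat_lit 1) (nat_lit 0)) .nil)) .nil)),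
 (.br (nat_lit 11) (nat_lit 1) (.cons (.kr (nat_lit 4722366482869645213696) (nat_lit 309485009821345068724781056) (nat_lit 9) (nat_lit 0)) (.cons (.rf (nat_lit 1339) (nat_lit 288915526695)) (.cons (.br (nat_lit 2) (nat_lit 1) (.cons (.rf (nat_lit 82) (nat_lit 13164947681)) (.cons (.rf (nat_lit 84) (nat_lit 9004198113)) (.cons (.br (nat_lit 8) (nat_lit 1) (.cons (.rf (nat_lit 4751) (nat_lit 493858305440582043680)) (.cons (.br (nat_lit 12) (nat_lit 1) (.cons (.rf (nat_lit 4751) (nat_lit 493858305440582043680)) (.cons (.rf (nat_lit 2794) (nat_lit 309451384949076794697)) .nil))) .nil))) .nil)))) (.cons (.ev (nat_lit 309489732187829037898400001) (nat_lit 1)) .nil))))),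
 (.br (nat_lit 8) (nat_lit 1) (.cons (.rf (nat_lit 58) (nat_lit 8718375)) (.cons (.br (nat_lit 12) (nat_lit 1) (.cons (.ev (nat_lit 80157840673613264362363944961) (nat_lit 2)) (.cons (.rf (nat_lit 1389) (nat_lit 310474018896709059648)) .nil))) (.cons (.br (nat_lit 10) (nat_lit 1) (.cons (.br (nat_lit 12) (nat_lit 1) (.cons (.zr (nat_lit 79228176681366041300878884864) (nat_lit 1243984668383453450837427202) (nat_lit 10) (nat_lit 6)) .nil)) (.cons (.ev (nat_lit 20282409603670189225619293798401) (nat_lit 1)) .nil))) .nil)))),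
 (.br (nat_lit 2) (nat_lit 1) (.cons (.rf (nat_lit 58) (nat_lit 8718375)) (.cons (.br (nat_lit 8) (nat_lit 1) (.cons (.rf (nat_lit 84) (nat_lit 12222277671)) (.cons (.br (nat_lit 12) (nat_lit 1) (.cons (.ev (nat_lit 20998875892443190685848901454592) (nat_lit 4)) .nil)) .nil))) (.cons (.br (nat_lit 8) (nat_lit 1) (.cons (.rf (nat_lit 3791) (nat_lit 14316145252468164640)) (.cons (.ev (nat_lit 20282719088679938794564679172096) (nat_lit 1)) .nil))) .nil)))),
 (.br (nat_lit 8) (nat_lit 1) (.cons (.rf (nat_lit 4753) (nat_lit 493858305440582043680)) (.cons (.rf (nat_lit 4754) (nat_lit 493858305440582043680)) (.cons (.br (nat_lit 2) (nat_lit 1) (.cons (.br (nat_lit 12) (nat_lit 1) (.cons (.zr (nat_lit 79234207143723546433072136195) (nat_lit 1237949484018346022813303808) (nat_lit 10) (nat_lit 6)) .nil)) (.cons (.br (nat_lit 10) (nat_lit 1) (.cons (.ev (nat_lit 20837317463539879450083691266820) (nat_lit 3)) .nil)) (.cons (.br (nat_lit 10) (nat_lit 1) (.cons (.zr (nat_lit 79537661691185975696269116928) (nat_lit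 6044629458368821234499591) (nat_lit 10) (nat_lit 3)) .nil)) .nil)))) .nil)))),
 (.br (nat_lit 11) (nat_lit 1) (.cons (.rf (nat_lit 1338) (nat_lit 9561506194321998912)) (.cons (.rf (nat_lit 4750) (nat_lit 493858305440582043680)) (.cons (.rf (nat_lit 4752) (nat_lit 493858305440582043680)) (.cons (.br (nat_lit 8) (nat_lit 1) (.cons (.rf (nat_lit 4753) (nat_lit 493858305440582043680)) (.cons (.rf (nat_lit 4754) (nat_lit 493858305440582043680)) (.cons (.rf (nat_lit 4755) (nat_lit 493858305440582043680)) (.cons (.br (nat_lit 8) (nat_lit 1) (.cons (.rf (nat_lit 4753) (nat_lit 493858305440582043680)) (.cons (.rf (nat_lit 4754) (nat_lit 493858305440582043680)) (.cons (.rf (nat_lit 4755) (nat_lit 493858305440582043680)) .nil)))) .nil))))) .nil))))),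
 (.br (nat_lit 11) (nat_lit 1) (.cons (.rf (nat_lit 4749) (nat_lit 493858305440582043680)) (.cons (.rf (nat_lit 4750) (nat_lit 493858305440582043680)) (.cons (.rf (nat_lit 4752) (nat_lit 493858305440582043680)) (.cons (.rf (nat_lit 4756) (nat_lit 493858305440582043680)) (.cons (.br (nat_lit 11) (nat_lit 1) (.cons (.rf (nat_lit 4749) (nat_lit 493858305440582043680)) (.cons (.rf (nat_lit 4750) (nat_lit 493858305440582043680)) (.cons (.ev (nat_lit 309489732187829037898400001) (nat_lit 1)) (.cons (.rf (nat_lit 4756) (nat_lit 493858305440582043680)) .nil))))) .nil)))))),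
 (.br (nat_lit 13) (nat_lit 1) (.cons (.br (nat_lit 12) (nat_lit 1) (.cons (.ev (nat_lit 20680115984770939926612739558146) (nat_lit 4)) .nil)) (.cons (.br (nat_lit 11) (nat_lit 1) (.cons (.ev (nat_lit 20680115984770939926612739558146) (nat_lit 4)) .nil)) .nil)))]

theorem c165 : chkAll C T R L165 (nat_lit 4733) = true := by decide +kernel

theorem l165 : (nat_lit 4733) + L165.length = (nat_lit 4759) := by decide +kernel

/-- part of the certificates -/
def L166 : List Prf := [(.br (nat_lit 2) (nat_lit 1) (.cons (.rf (nat_lit 31) (nat_lit 377816290)) (.cons (.rf (nat_lit 1339) (nat_lit 392159106369)) (.cons (.rf (nat_lit 1339) (nat_lit 289083298850)) (.cons (.br (nat_lit 7) (nat_lit 1) (.cons (.rf (nat_lit 84) (nat_lit 13262724130)) (.cons (.rf (nat_lit 84) (nat_lit 13164914914)) (.cons (.rf (nat_lit 1420) (nat_lit 455418675073184377065)) (.cons (.br (nat_lit 8) (nat_lit 1) (.cons (.rf (nat_lit 4758) (nat_lit 493858305440582043680)) (.cons (.br (nat_lit 11) (nat_lit 1) (.cons (.br (nat_lit 12) (nat_lit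 1) (.cons (.ev (nat_lit 20681353981404836125028543040262) (nat_lit 4)) .nil)) (.cons (.rf (nat_lit 4758) (nat_lit 457999205773897506121)) .nil))) .nil))) .nil))))) (.cons (.br (nat_lit 7) (nat_lit 1) (.cons (.rf (nat_lit 84) (nat_lit 14336465954)) (.cons (.rf (nat_lit 84) (nat_lit 14238656738)) (.cons (.br (nat_lit 8) (nat_lit 1) (.cons (.br (nat_lit 12) (nat_lit 1) (.cons (.ev (nat_lit 79849555144878850753733722880) (nat_lit 2)) (.cons (.zr (nat_lit 79228181422177857570899101184) (nat_lit 6044629458368821234499592) (nat_lit 10) (nat_lit 3)) .nil))) (.cons (.br (nat_lit 13) (nat_lit 1) (.cons (.ev (nat_lit 20283032200485810126461008413185) (nat_lit 2)) (.cons (.zr (nat_lit 20282409617837217461054961157376) (nat_lit 4835703566696598021865479) (nat_lit 10) (nat_lit 3)) .nil))) .nil))) (.cons (.rf (nat_lit 1420) (nat_lit 489176852110770340928)) .nil))))) .nil)))))),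
 (.br (nat_lit 10) (nat_lit 1) (.cons (.br (nat_lit 8) (nat_lit 1) (.cons (.rf (nat_lit 31) (nat_lit 411108679)) (.cons (.br (nat_lit 12) (nat_lit 1) (.cons (.ev (nat_lit 20837324717094941255245838614788) (nat_lit 3)) .nil)) .nil))) (.cons (.br (nat_lit 12) (nat_lit 1) (.cons (.rf (nat_lit 82) (nat_lit 12222441506)) (.cons (.ev (nat_lit 79228162532711364241758617601) (nat_lit 1)) .nil))) (.cons (.ev (nat_lit 79229376162450435096658837761) (nat_lit 1)) (.cons (.br (nat_lit 12) (nat_lit 1) (.cons (.ev (nat_lit 310698658079500161599406081) (nat_lit 1)) (.cons (.br (nat_lit 7) (nat_lit 1) (.cons (.ev (nat_lit 20838562628836778795722579576068) (nat_lit 3)) .nil)) (.cons (.ev (nat_lit 20282719088661492050490969620481) (nat_lit 1)) .nil)))) .nil))))),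
 (.br (nat_lit 12) (nat_lit 1) (.cons (.rf (nat_lit 4760) (nat_lit 493858305440582043680)) (.cons (.ev (nat_lit 309485028340429315255566593) (nat_lit 1)) (.cons (.br (nat_lit 2) (nat_lit 1) (.cons (.ev (nat_lit 1213666633123051801149441) (nat_lit 1)) (.cons (.zr (nat_lit 237684487542793012780632048384) (nat_lit 618974742009455585894858753) (nat_lit 5) (nat_lit 0)) .nil))) (.cons (.br (nat_lit 10) (nat_lit 1) (.cons (.zr (nat_lit 237684487542793012780632048384) (nat_lit 618974742009455585894858753) (nat_lit 5) (nat_lit 0)) (.cons (.ev (nat_lit 79538856449905297295738405121) (nat_lit 1)) (.cons (.ev (nat_lit 310698658079500161599406081) (nat_lit 1)) .nil)))) .nil))))),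
 (.br (nat_lit 12) (nat_lit 1) (.cons (.ev (nat_lit 79540074820458723188662272770) (nat_lit 2)) (.cons (.ev (nat_lit 20521024968798005526442536927234) (nat_lit 2)) .nil))),
 (.br (nat_lit 2) (nat_lit 1) (.cons (.br (nat_lit 10) (nat_lit 1) (.cons (.rf (nat_lit 31) (nat_lit 411370722)) (.cons (.rf (nat_lit 4762) (nat_lit 493858305440582043680)) .nil))) (.cons (.ev (nat_lit 1213666633123051801149441) (nat_lit 1)) (.cons (.rf (nat_lit 4760) (nat_lit 493858305440582043680)) (.cons (.br (nat_lit 7) (nat_lit 1) (.cons (.rf (nat_lit 3798) (nat_lit 14316145252468164640)) (.cons (.ev (nat_lit 309485028340429315255566593) (nat_lit 1)) (.cons (.br (nat_lit 10) (nat_lit 1) (.cons (.ev (nat_lit 310698658079500161599406081) (nat_lit 1)) .nil)) .nil)))) .nil))))),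
 (.br (nat_lit 12) (nat_lit 1) (.cons (.ev (nat_lit 79229376162450435096658837761) (nat_lit 1)) (.cons (.rf (nat_lit 4761) (nat_lit 493858305440582043680)) (.cons (.rf (nat_lit 4763) (nat_lit 493858305440582043680)) (.cons (.br (nat_lit 2) (nat_lit 1) (.cons (.zr (nat_lit 237684487542793012780632048384) (nat_lit 618974742009455585894858753) (nat_lit 5) (nat_lit 0)) (.cons (.ev (nat_lit 1213666633123051801149441) (nat_lit 1)) (.cons (.br (nat_lit 7) (nat_lit 1) (.cons (.zr (nat_lit 55340795171082272768) (nat_lit 618974742009174110918148097) (nat_lit 5) (nat_lit 0)) .nil)) .nil)))) .nil))))),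
 (.br (nat_lit 11) (nat_lit 1) (.cons (.rf (nat_lit 4749) (nat_lit 493858305440582043680)) (.cons (.rf (nat_lit 4757) (nat_lit 493858305440582043680)) (.cons (.rf (nat_lit 4759) (nat_lit 493858305440582043680)) (.cons (.br (nat_lit 12) (nat_lit 1) (.cons (.rf (nat_lit 4760) (nat_lit 493858305440582043680)) (.cons (.rf (nat_lit 4761) (nat_lit 493858305440582043680)) (.cons (.rf (nat_lit 4763) (nat_lit 493858305440582043680)) (.cons (.rf (nat_lit 4764) (nat_lit 493858305440582043680)) (.cons (.br (nat_lit 12) (nat_lit 1) (.cons (.rf (nat_lit 4760) (nat_lit 493858305440582043680)) (.cons (.rf (nat_lit 4761) (nat_lit 493858305440582043680)) (.cons (.rf (nat_lit 4763) (nat_lit 493858305440582043680)) (.cons (.rf (nat_lit 4764) (nat_lit 493858305440582043680)) .nil))))) .nil)))))) .nil))))),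
 (.br (nat_lit 11) (nat_lit 1) (.cons (.rf (nat_lit 4749) (nat_lit 493858305440582043680)) (.cons (.rf (nat_lit 4757) (nat_lit 493858305440582043680)) (.cons (.rf (nat_lit 4759) (nat_lit 493858305440582043680)) (.cons (.rf (nat_lit 4765) (nat_lit 493858305440582043680)) (.cons (.br (nat_lit 11) (nat_lit 1) (.cons (.rf (nat_lit 4749) (nat_lit 493858305440582043680)) (.cons (.rf (nat_lit 4757) (nat_lit 493858305440582043680)) (.cons (.rf (nat_lit 4759) (nat_lit 493858305440582043680)) (.cons (.rf (nat_lit 4765) (nat_lit 493858305440582043680)) .nil))))) .nil)))))),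
 (.br (nat_lit 8) (nat_lit 1) (.cons (.ev (nat_lit 1213666633123051801149441) (nat_lit 1)) (.cons (.rf (nat_lit 4749) (nat_lit 457999205773897506121)) (.cons (.rf (nat_lit 4766) (nat_lit 493858305440582043680)) (.cons (.br (nat_lit 11) (nat_lit 1) (.cons (.rf (nat_lit 4749) (nat_lit 493858305440582043680)) (.cons (.rf (nat_lit 4757) (nat_lit 493858305440582043680)) (.cons (.br (nat_lit 11) (nat_lit 1) (.cons (.ev (nat_lit 310693935641241177171165184) (nat_lit 1)) (.cons (.rf (nat_lit 4757) (nat_lit 493858305440582043680)) (.cons (.kr (nat_lit 309485009821345068724781057) (nat_lit 4740813226943354765312) (nat_lit 0) (nat_lit 1)) .nil)))) (.cons (.br (nat_lit 11) (nat_lit 1) (.cons (.rf (nat_lit 4749) (nat_lit 493858305440582043680)) (.cons (.ev (nat_lit 310693954087985250880716801) (nat_lit 1)) (.cons (.kr (nat_lit 309485009821345068724781057) (nat_lit 4740813226943354765312) (nat_lit 0) (nat_lit 1)) .nil)))) .nil))))) .nil))))),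
 (.br (nat_lit 8) (nat_lit 1) (.cons (.rf (nat_lit 4757) (nat_lit 457999205773897506121)) (.cons (.rf (nat_lit 4749) (nat_lit 457999205773897506121)) (.cons (.rf (nat_lit 4766) (nat_lit 493858305440582043680)) (.cons (.rf (nat_lit 4767) (nat_lit 493858305440582043680)) (.cons (.br (nat_lit 8) (nat_lit 1) (.cons (.rf (nat_lit 4757) (nat_lit 457999205773897506121)) (.cons (.ev (nat_lit 18446745173237956864) (nat_lit 1)) (.cons (.rf (nat_lit 4766) (nat_lit 493858305440582043680)) (.cons (.rf (nat_lit 4767) (nat_lit 493858305440582043680)) .nil))))) .nil)))))),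
 (.br (nat_lit 11) (nat_lit 1) (.cons (.rf (nat_lit 4749) (nat_lit 493858305440582043680)) (.cons (.rf (nat_lit 4757) (nat_lit 493858305440582043680)) (.cons (.rf (nat_lit 4766) (nat_lit 493858305440582043680)) (.cons (.rf (nat_lit 4768) (nat_lit 493858305440582043680)) (.cons (.br (nat_lit 11) (nat_lit 1) (.cons (.rf (nat_lit 4749) (nat_lit 493858305440582043680)) (.cons (.rf (nat_lit 4757) (nat_lit 493858305440582043680)) (.cons (.rf (nat_lit 4766) (nat_lit 493858305440582043680)) (.cons (.rf (nat_lit 4768) (nat_lit 493858305440582043680)) .nil))))) .nil)))))),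
 (.br (nat_lit 11) (nat_lit 1) (.cons (.rf (nat_lit 4749) (nat_lit 493858305440582043680)) (.cons (.rf (nat_lit 4757) (nat_lit 493858305440582043680)) (.cons (.rf (nat_lit 4766) (nat_lit 493858305440582043680)) (.cons (.rf (nat_lit 4768) (nat_lit 493858305440582043680)) (.cons (.rf (nat_lit 4769) (nat_lit 493858305440582043680)) (.cons (.br (nat_lit 11) (nat_lit 1) (.cons (.rf (nat_lit 4749) (nat_lit 493858305440582043680)) (.cons (.rf (nat_lit 4757) (nat_lit 493858305440582043680)) (.cons (.rf (nat_lit 4766) (nat_lit 493858305440582043680)) (.cons (.rf (nat_lit 4768) (nat_lit 493858305440582043680)) (.cons (.rf (nat_lit 4769) (nat_lit 493858305440582043680)) .nil)))))) .nil))))))),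
 (.br (nat_lit 8) (nat_lit 1) (.cons (.ev (nat_lit 18519083142741033216) (nat_lit 1)) (.cons (.rf (nat_lit 2594) (nat_lit 12216183009)) (.cons (.br (nat_lit 10) (nat_lit 1) (.cons (.rf (nat_lit 58) (nat_lit 11869218)) (.cons (.br (nat_lit 11) (nat_lit 1) (.cons (.ev (nat_lit 79537652246524223125968715776) (nat_lit 1)) (.cons (.br (nat_lit 12) (nat_lit 1) (.cons (.ev (nat_lit 79537647542604485433822806016) (nat_lit 1)) .nil)) .nil))) (.cons (.br (nat_lit 13) (nat_lit 1) (.cons (.ev (nat_lit 20283029782652545301107842220032) (nat_lit 2)) (.cons (.zr (nat_lit 20282409603652031565147054080002) (nat_lit 6049425251532310457615360) (nat_lit 10) (nat_lit 5)) .nil))) .nil)))) .nil)))),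
 (.br (nat_lit 8) (nat_lit 1) (.cons (.rf (nat_lit 3822) (nat_lit 392259933249)) (.cons (.rf (nat_lit 1339) (nat_lit 289183863873)) (.cons (.rf (nat_lit 4771) (nat_lit 493858305440582043680)) (.cons (.br (nat_lit 8) (nat_lit 1) (.cons (.rf (nat_lit 82) (nat_lit 14336370753)) (.cons (.rf (nat_lit 2594) (nat_lit 12249737441)) (.cons (.rf (nat_lit 4771) (nat_lit 493858305440582043680)) .nil)))) .nil))))),
 (.br (nat_lit 7) (nat_lit 1) (.cons (.rf (nat_lit 1339) (nat_lit 392259933218)) (.cons (.rf (nat_lit 31) (nat_lit 377522503)) (.cons (.rf (nat_lit 1339) (nat_lit 289183863873)) (.cons (.br (nat_lit 10) (nat_lit 1) (.cons (.ev (nat_lit 18519083142741033216) (nat_lit 1)) (.cons (.ev (nat_lit 309485009821345073019814144) (nat_lit 1)) (.cons (.rf (nat_lit 3189) (nat_lit 301742654854667593)) (.cons (.br (nat_lit 8) (nat_lit 1) (.cons (.br (nat_lit 13) (nat_lit 1) (.cons (.br (nat_lit 12) (nat_lit 1) (.cons (.ev (nat_lit 20363807788030662952875161093890) (nat_lit 3)) .nil)) (.cons (.br (nat_lit 11) (nat_lit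 1) (.cons (.ev (nat_lit 20363807788030662952875161093890) (nat_lit 3)) .nil)) .nil))) (.cons (.br (nat_lit 12) (nat_lit 1) (.cons (.br (nat_lit 12) (nat_lit 1) (.cons (.ev (nat_lit 158458747620981697650215682050) (nat_lit 2)) .nil)) (.cons (.br (nat_lit 11) (nat_lit 1) (.cons (.ev (nat_lit 158458747620981697650215682050) (nat_lit 2)) .nil)) .nil))) .nil))) .nil))))) (.cons (.br (nat_lit 8) (nat_lit 1) (.cons (.rf (nat_lit 84) (nat_lit 14336174151)) (.cons (.br (nat_lit 10) (nat_lit 1) (.cons (.ev (nat_lit 309485009821345073019814144) (nat_lit 1)) (.cons (.br (nat_lit 13) (nat_lit 1) (.cons (.br (nat_lit 12) (nat_lit 1) (.cons (.ev (nat_lit 20680101477661107928762363350786) (nat_lit 4)) .nil)) (.cons (.br (nat_lit 11) (nat_lit 1) (.cons (.ev (nat_lit 20680101477661107928762363350786) (nat_lit 4)) .nil)) .nil))) (.cons (.br (nat_lit 11) (nat_lit 1) (.cons (.br (nat_lit 12) (nat_lit 1) (.cons (.ev (nat_lit 20680106303882759931202154073862) (nat_lit 4)) .nil)) (.cons (.rf (nat_lit 84) (nat_lit 8972708066))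 .nil))) .nil)))) (.cons (.br (nat_lit 10) (nat_lit 1) (.cons (.ev (nat_lit 309489750634573111607951616) (nat_lit 1)) (.cons (.br (nat_lit 11) (nat_lit 1) (.cons (.br (nat_lit 12) (nat_lit 1) (.cons (.ev (nat_lit 20284580834460664973984501335810) (nat_lit 3)) .nil)) (.cons (.ev (nat_lit 40565440599952330046443475894274) (nat_lit 2)) .nil))) (.cons (.ev (nat_lit 20282409603651742481545584246784) (nat_lit 1)) .nil)))) .nil)))) .nil)))))),
 (.br (nat_lit 10) (nat_lit 1) (.cons (.ev (nat_lit 313111842621268913777804034) (nat_lit 2)) (.cons (.rf (nat_lit 1420) (nat_lit 308997647286649694441)) (.cons (.rf (nat_lit 1420) (nat_lit 308168178086518621248)) .nil)))),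
 (.br (nat_lit 8) (nat_lit 1) (.cons (.br (nat_lit 12) (nat_lit 1) (.cons (.ev (nat_lit 20282719088679938794564679172096) (nat_lit 1)) .nil)) (.cons (.ev (nat_lit 20282409608392555709584172384256) (nat_lit 1)) .nil))),
 (.br (nat_lit 7) (nat_lit 1) (.cons (.ev (nat_lit 313111842621268913777804034) (nat_lit 2)) (.cons (.br (nat_lit 8) (nat_lit 1) (.cons (.ev (nat_lit 79537647542604485433822806016) (nat_lit 1)) (.cons (.br (nat_lit 12) (nat_lit 1) (.cons (.ev (nat_lit 79228167255077846016170459136) (nat_lit 1)) .nil)) .nil))) (.cons (.rf (nat_lit 4775) (nat_lit 493858305440582043680)) .nil)))),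
 (.br (nat_lit 8) (nat_lit 1) (.cons (.rf (nat_lit 1338) (nat_lit 13020267409607656512)) (.cons (.rf (nat_lit 4776) (nat_lit 493858305440582043680)) (.cons (.br (nat_lit 7) (nat_lit 1) (.cons (.ev (nat_lit 1208944266641277389438976) (nat_lit 1)) (.cons (.br (nat_lit 10) (nat_lit 1) (.cons (.ev (nat_lit 80159049617807564371698647296) (nat_lit 2)) .nil)) (.cons (.br (nat_lit 10) (nat_lit 1) (.cons (.ev (nat_lit 20997028634754213678391797681922) (nat_lit 4)) .nil)) .nil)))) .nil)))),
 (.br (nat_lit 11) (nat_lit 1) (.cons (.rf (nat_lit 4772) (nat_lit 493858305440582043680)) (.cons (.rf (nat_lit 4773) (nat_lit 493858305440582043680)) (.cons (.rf (nat_lit 4770) (nat_lit 457999205773897506121)) (.cons (.br (nat_lit 8) (nat_lit 1) (.cons (.rf (nat_lit 4774) (nat_lit 493858305440582043680)) (.cons (.rf (nat_lit 4776) (nat_lit 493858305440582043680)) (.cons (.rf (nat_lit 4777) (nat_lit 493858305440582043680)) (.cons (.br (nat_lit 8) (nat_lit 1) (.cons (.rf (nat_lit 4774) (nat_lit 493858305440582043680)) (.cons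 (.rf (nat_lit 4776) (nat_lit 493858305440582043680)) (.cons (.rf (nat_lit 4777) (nat_lit 493858305440582043680)) .nil)))) .nil))))) .nil))))),
 (.br (nat_lit 11) (nat_lit 1) (.cons (.rf (nat_lit 4772) (nat_lit 493858305440582043680)) (.cons (.rf (nat_lit 4773) (nat_lit 493858305440582043680)) (.cons (.rf (nat_lit 4770) (nat_lit 457999205773897506121)) (.cons (.rf (nat_lit 4778) (nat_lit 493858305440582043680)) (.cons (.br (nat_lit 11) (nat_lit 1) (.cons (.rf (nat_lit 4772) (nat_lit 493858305440582043680)) (.cons (.rf (nat_lit 4773) (nat_lit 493858305440582043680)) (.cons (.rf (nat_lit 4770) (nat_lit 457999205773897506121)) (.cons (.rf (nat_lit 4778) (nat_lit 493858305440582043680)) .nil))))) .nil)))))),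
 (.br (nat_lit 8) (nat_lit 1) (.cons (.br (nat_lit 11) (nat_lit 1) (.cons (.kr (nat_lit 310693954087703771609039104) (nat_lit 20361637766166006819134833229824) (nat_lit 1) (nat_lit 0)) .nil)) .nil)),
 (.br (nat_lit 8) (nat_lit 1) (.cons (.br (nat_lit 12) (nat_lit 1) (.cons (.ev (nat_lit 158768227927099757080583733249) (nat_lit 2)) (.cons (.rf (nat_lit 3310) (nat_lit 421259188731800356896)) .nil))) (.cons (.br (nat_lit 12) (nat_lit 1) (.cons (.zr (nat_lit 309485010182486272822476803) (nat_lit 4845221798400550944900096) (nat_lit 10) (nat_lit 5)) (.cons (.zr (nat_lit 20282409603652031565147054080002) (nat_lit 6049425251532310457615360) (nat_lit 10) (nat_lit 5)) .nil))) .nil))),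
 (.br (nat_lit 8) (nat_lit 1) (.cons (.rf (nat_lit 4781) (nat_lit 493858305440582043680)) (.cons (.br (nat_lit 12) (nat_lit 1) (.cons (.br (nat_lit 11) (nat_lit 1) (.cons (.zr (nat_lit 2166395068896639001406275592) (nat_lit 237694187468016267769180849408) (nat_lit 20) (nat_lit 5)) .nil)) (.cons (.ev (nat_lit 20440867142365495704195235512320) (nat_lit 2)) .nil))) .nil))),
 (.br (nat_lit 10) (nat_lit 1) (.cons (.rf (nat_lit 4779) (nat_lit 457999205773897506121)) (.cons (.rf (nat_lit 4770) (nat_lit 457999205773897506121)) (.cons (.br (nat_lit 12) (nat_lit 1) (.cons (.rf (nat_lit 84) (nat_lit 12092254247)) (.cons (.ev (nat_lit 79228167236631101942460907521) (nat_lit 1)) (.cons (.br (nat_lit 8) (nat_lit 1) (.cons (.rf (nat_lit 4780) (nat_lit 493858305440582043680)) (.cons (.br (nat_lit 8) (nat_lit 1) (.cons (.rf (nat_lit 4780) (nat_lit 493858305440582043680)) .nil)) .nil))) .nil)))) (.cons (.br (nat_lit 8) (nat_lit 1) (.cons (.rf (nat_lit 4781) (nat_lit 493858305440582043680)) (.cons (.rf (nat_lit 4782)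 (nat_lit 493858305440582043680)) (.cons (.br (nat_lit 8) (nat_lit 1) (.cons (.rf (nat_lit 4781) (nat_lit 493858305440582043680)) (.cons (.rf (nat_lit 4782) (nat_lit 493858305440582043680)) .nil))) .nil)))) .nil)))))]

theorem c166 : chkAll C T R L166 (nat_lit 4759) = true := by decide +kernel

theorem l166 : (nat_lit 4759) + L166.length = (nat_lit 4784) := by decide +kernel

/-- part of the certificates -/
def L167 : List Prf := [(.br (nat_lit 8) (nat_lit 1) (.cons (.rf (nat_lit 3311) (nat_lit 421259188731800356896)) (.cons (.br (nat_lit 12) (nat_lit 1) (.cons (.zr (nat_lit 309499195368382176434652672) (nat_lit 4835703638754192059793415) (nat_lit 10) (nat_lit 3)) (.cons (.zr (nat_lit 7253573796780724405141512) (nat_lit 81129638447663247638826592829440) (nat_lit 10) (nat_lit 0)) .nil))) .nil))),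
 (.br (nat_lit 8) (nat_lit 1) (.cons (.rf (nat_lit 3311) (nat_lit 421259188731800356896)) (.cons (.br (nat_lit 13) (nat_lit 1) (.cons (.zr (nat_lit 20282409617837217461054961157376) (nat_lit 4835703566696598021865479) (nat_lit 10) (nat_lit 3)) (.cons (.ev (nat_lit 20440865938161970514837389705475) (nat_lit 2)) .nil))) .nil))),
 (.br (nat_lit 1) (nat_lit 1) (.cons (.rf (nat_lit 4770) (nat_lit 493858305440582043680)) (.cons (.kr (nat_lit 1208925891672227507601409) (nat_lit 4722366482869662056704) (nat_lit 0) (nat_lit 5)) (.cons (.rf (nat_lit 4779) (nat_lit 493858305440582043680)) (.cons (.rf (nat_lit 4783) (nat_lit 493858305440582043680)) (.cons (.br (nat_lit 10) (nat_lit 1) (.cons (.rf (nat_lit 4779) (nat_lit 457999205773897506121)) (.cons (.rf (nat_lit 4770) (nat_lit 457999205773897506121)) (.cons (.br (nat_lit 8) (nat_lit 1) (.cons (.rf (nat_lit 4784) (nat_lit 493858305440582043680)) (.cons (.rf (nat_lit 4785) (nat_lit 493858305440582043680)) (.cons (.br (nat_lit 8) (nat_lit 1) (.cons (.rf (nat_lit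 4784) (nat_lit 493858305440582043680)) (.cons (.rf (nat_lit 4785) (nat_lit 493858305440582043680)) .nil))) .nil)))) (.cons (.rf (nat_lit 4783) (nat_lit 457999205773897506121)) .nil))))) .nil)))))),
 (.br (nat_lit 11) (nat_lit 1) (.cons (.rf (nat_lit 4779) (nat_lit 493858305440582043680)) (.cons (.rf (nat_lit 4786) (nat_lit 493858305440582043680)) (.cons (.rf (nat_lit 4770) (nat_lit 457999205773897506121)) (.cons (.br (nat_lit 1) (nat_lit 1) (.cons (.br (nat_lit 8) (nat_lit 1) (.cons (.rf (nat_lit 29) (nat_lit 8718561)) (.cons (.br (nat_lit 10) (nat_lit 1) (.cons (.rf (nat_lit 31) (nat_lit 411371745)) (.cons (.zr (nat_lit 3626832799076108652774144) (nat_lit 618974742009455585894858753) (nat_lit 5) (nat_lit 0)) .nil))) (.cons (.br (nat_lit 12) (nat_lit 1) (.cons (.zr (nat_lit 3626832799076108652774144) (nat_lit 618974742009455585894858753) (nat_lit 5) (nat_lit 0)) (.cons (.kr (nat_lit 309485009821345068724781312) (nat_lit 20282409603651742481541289213952) (nat_lit 1) (nat_lit 0)) .nil))) .nil))))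 (.cons (.rf (nat_lit 4770) (nat_lit 493858305440582043680)) (.cons (.br (nat_lit 8) (nat_lit 1) (.cons (.ev (nat_lit 310703398965632426752213250) (nat_lit 2)) (.cons (.ev (nat_lit 1213666633123051801149441) (nat_lit 1)) (.cons (.br (nat_lit 7) (nat_lit 1) (.cons (.br (nat_lit 12) (nat_lit 1) (.cons (.zr (nat_lit 237684487542793012780632048384) (nat_lit 618974742009455585894858753) (nat_lit 5) (nat_lit 0)) .nil)) (.cons (.ev (nat_lit 40565440599952330046443475894274) (nat_lit 2)) .nil))) .nil)))) (.cons (.br (nat_lit 10) (nat_lit 1) (.cons (.br (nat_lit 8) (nat_lit 1) (.cons (.zr (nat_lit 55556407202265694208) (nat_lit 618974742009454486383230977) (nat_lit 5) (nat_lit 0)) (.cons (.zr (nat_lit 3626832799076108652774144) (nat_lit 618974742009455585894858753) (nat_lit 5) (nat_lit 0)) .nil))) (.cons (.br (nat_lit 12) (nat_lit 1) (.cons (.zr (nat_lit 55556407202265694208) (nat_lit 618974742009454486383230977) (nat_lit 5) (nat_lit 0)) (.cons (.ev (nat_lit 79228162532711364241758617601) (nat_lit 1)) .nil)))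 (.cons (.ev (nat_lit 79228167236631101942460907521) (nat_lit 1)) (.cons (.br (nat_lit 7) (nat_lit 1) (.cons (.zr (nat_lit 3626832799076108652774144) (nat_lit 618974742009455585894858753) (nat_lit 5) (nat_lit 0)) (.cons (.ev (nat_lit 310698658079500161599406081) (nat_lit 1)) (.cons (.br (nat_lit 8) (nat_lit 1) (.cons (.ev (nat_lit 310693954159762469453627393) (nat_lit 1)) .nil)) .nil)))) .nil))))) (.cons (.br (nat_lit 7) (nat_lit 1) (.cons (.br (nat_lit 10) (nat_lit 1) (.cons (.zr (nat_lit 3626832799076108652774144) (nat_lit 618974742009455585894858753) (nat_lit 5) (nat_lit 0)) (.cons (.ev (nat_lit 20282409608374108965510462832641) (nat_lit 1)) .nil))) (.cons (.kr (nat_lit 1208925819614629174706432) (nat_lit 72058693549555712) (nat_lit 1) (nat_lit 0)) (.cons (.br (nat_lit 10) (nat_lit 1) (.cons (.zr (nat_lit 55556407202265694208) (nat_lit 618974742009454486383230977) (nat_lit 5) (nat_lit 0)) (.cons (.zr (nat_lit 237684487542793012780632048384) (nat_lit 618974742009455585894858753) (nat_lit 5) (nat_lit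 0)) (.cons (.ev (nat_lit 310698658079500161599406081) (nat_lit 1)) .nil)))) (.cons (.br (nat_lit 10) (nat_lit 1) (.cons (.ev (nat_lit 20282410817299856521446087983361) (nat_lit 1)) (.cons (.ev (nat_lit 310698658079500161599406081) (nat_lit 1)) .nil))) .nil))))) .nil)))))) .nil))))),
 (.br (nat_lit 11) (nat_lit 1) (.cons (.rf (nat_lit 4779) (nat_lit 493858305440582043680)) (.cons (.rf (nat_lit 4786) (nat_lit 493858305440582043680)) (.cons (.rf (nat_lit 4770) (nat_lit 457999205773897506121)) (.cons (.rf (nat_lit 4787) (nat_lit 493858305440582043680)) (.cons (.br (nat_lit 11) (nat_lit 1) (.cons (.rf (nat_lit 4779) (nat_lit 493858305440582043680)) (.cons (.rf (nat_lit 4786) (nat_lit 493858305440582043680)) (.cons (.rf (nat_lit 4770) (nat_lit 457999205773897506121)) (.cons (.rf (nat_lit 4787) (nat_lit 493858305440582043680)) .nil))))) .nil)))))),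
 (.br (nat_lit 11) (nat_lit 1) (.cons (.rf (nat_lit 4779) (nat_lit 493858305440582043680)) (.cons (.rf (nat_lit 4786) (nat_lit 493858305440582043680)) (.cons (.rf (nat_lit 4788) (nat_lit 493858305440582043680)) (.cons (.rf (nat_lit 4770) (nat_lit 457999205773897506121)) (.cons (.br (nat_lit 11) (nat_lit 1) (.cons (.rf (nat_lit 4779) (nat_lit 493858305440582043680)) (.cons (.rf (nat_lit 4786) (nat_lit 493858305440582043680)) (.cons (.rf (nat_lit 4788) (nat_lit 493858305440582043680)) (.cons (.rf (nat_lit 4770) (nat_lit 457999205773897506121)) .nil))))) .nil)))))),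
 (.br (nat_lit 11) (nat_lit 1) (.cons (.rf (nat_lit 4779) (nat_lit 493858305440582043680)) (.cons (.rf (nat_lit 4786) (nat_lit 493858305440582043680)) (.cons (.rf (nat_lit 4788) (nat_lit 493858305440582043680)) (.cons (.rf (nat_lit 4770) (nat_lit 457999205773897506121)) (.cons (.rf (nat_lit 4789) (nat_lit 493858305440582043680)) (.cons (.br (nat_lit 11) (nat_lit 1) (.cons (.rf (nat_lit 4779) (nat_lit 493858305440582043680)) (.cons (.rf (nat_lit 4786) (nat_lit 493858305440582043680)) (.cons (.rf (nat_lit 4788) (nat_lit 493858305440582043680)) (.cons (.rf (nat_lit 4770) (nat_lit 457999205773897506121)) (.cons (.rf (nat_lit 4789) (nat_lit 493858305440582043680)) .nil)))))) .nil))))))),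
 (.br (nat_lit 12) (nat_lit 1) (.cons (.ev (nat_lit 20282409608392555709584172384256) (nat_lit 1)) .nil)),
 (.br (nat_lit 11) (nat_lit 1) (.cons (.ev (nat_lit 309489732260167007401476353) (nat_lit 1)) (.cons (.ev (nat_lit 310693954087985250880716801) (nat_lit 1)) (.cons (.br (nat_lit 2) (nat_lit 1) (.cons (.ev (nat_lit 313111842621268913777804034) (nat_lit 2)) (.cons (.br (nat_lit 8) (nat_lit 1) (.cons (.ev (nat_lit 79228167255077846016170459136) (nat_lit 1)) (.cons (.rf (nat_lit 4678) (nat_lit 310543790432128769056)) .nil))) (.cons (.br (nat_lit 8) (nat_lit 1) (.cons (.rf (nat_lit 4791) (nat_lit 493858305440582043680)) (.cons (.ev (nat_lit 20282719088679938794564679172096) (nat_lit 1)) .nil))) .nil)))) .nil)))),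
 (.br (nat_lit 12) (nat_lit 1) (.cons (.rf (nat_lit 82) (nat_lit 12092508199)) (.cons (.rf (nat_lit 2594) (nat_lit 8960477511)) (.cons (.br (nat_lit 2) (nat_lit 1) (.cons (.rf (nat_lit 58) (nat_lit 8723521)) (.cons (.ev (nat_lit 79230589810853271630375878915) (nat_lit 2)) (.cons (.br (nat_lit 8) (nat_lit 1) (.cons (.ev (nat_lit 1213666704900270374060033) (nat_lit 1)) (.cons (.ev (nat_lit 79229376180897179170368389376) (nat_lit 1)) .nil))) .nil)))) .nil)))),
 (.br (nat_lit 10) (nat_lit 1) (.cons (.ev (nat_lit 1208925891672227507667201) (nat_lit 1)) .nil)),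
 (.br (nat_lit 13) (nat_lit 1) (.cons (.rf (nat_lit 82) (nat_lit 12093556775)) (.cons (.rf (nat_lit 2594) (nat_lit 8960510279)) (.cons (.br (nat_lit 2) (nat_lit 1) (.cons (.rf (nat_lit 58) (nat_lit 8723521)) (.cons (.br (nat_lit 8) (nat_lit 1) (.cons (.ev (nat_lit 20282719088679938794564679172096) (nat_lit 1)) (.cons (.rf (nat_lit 4794) (nat_lit 15433072044983552032)) .nil))) (.cons (.br (nat_lit 8) (nat_lit 1) (.cons (.br (nat_lit 11) (nat_lit 1) (.cons (.ev (nat_lit 20838555403652951802272494584580) (nat_lit 3)) .nil)) (.cons (.rf (nat_lit 84) (nat_lit 14369761505)) .nil))) .nil)))) .nil)))),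
 (.br (nat_lit 1) (nat_lit 1) (.cons (.rf (nat_lit 29) (nat_lit 8723521)) (.cons (.rf (nat_lit 58) (nat_lit 8723490)) (.cons (.br (nat_lit 11) (nat_lit 1) (.cons (.rf (nat_lit 3822) (nat_lit 392259769569)) (.cons (.rf (nat_lit 1339) (nat_lit 391991596071)) (.cons (.rf (nat_lit 4792) (nat_lit 493858305440582043680)) (.cons (.br (nat_lit 11) (nat_lit 1) (.cons (.rf (nat_lit 82) (nat_lit 14238943271)) (.cons (.rf (nat_lit 2594) (nat_lit 9027553607)) (.cons (.rf (nat_lit 4792) (nat_lit 493858305440582043680)) .nil)))) .nil))))) (.cons (.br (nat_lit 12) (nat_lit 1) (.cons (.rf (nat_lit 1343) (nat_lit 388034201639)) (.cons (.rf (nat_lit 1339) (nat_lit 426351334439)) (.cons (.rf (nat_lit 4793) (nat_lit 493858305440582043680)) (.cons (.br (nat_lit 12) (nat_lit 1) (.cons (.rf (nat_lit 82) (nat_lit 14239991847)) (.cons (.rf (nat_lit 2594) (nat_lit 9027586375)) (.cons (.rf (nat_lit 4793) (nat_lit 493858305440582043680)) .nil)))) .nil))))) (.cons (.br (nat_lit 13) (nat_lit 1) (.cons (.rf (nat_lit 1343) (nat_lit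 388067756071)) (.cons (.rf (nat_lit 1339) (nat_lit 459637332007)) (.cons (.rf (nat_lit 4795) (nat_lit 493858305440582043680)) (.cons (.br (nat_lit 13) (nat_lit 1) (.cons (.ev (nat_lit 20282409603651670706526034591744) (nat_lit 1)) (.cons (.rf (nat_lit 2594) (nat_lit 8994064711)) (.cons (.rf (nat_lit 4795) (nat_lit 493858305440582043680)) .nil)))) .nil))))) .nil)))))),
 (.br (nat_lit 2) (nat_lit 1) (.cons (.rf (nat_lit 31) (nat_lit 377527618)) (.cons (.rf (nat_lit 2594) (nat_lit 12221425729)) (.cons (.br (nat_lit 10) (nat_lit 1) (.cons (.rf (nat_lit 84) (nat_lit 13165111330)) (.cons (.ev (nat_lit 79229376162450435096658837761) (nat_lit 1)) (.cons (.br (nat_lit 13) (nat_lit 1) (.cons (.br (nat_lit 12) (nat_lit 1) (.cons (.ev (nat_lit 20680720438161795505522280039170) (nat_lit 3)) .nil)) (.cons (.br (nat_lit 11) (nat_lit 1) (.cons (.ev (nat_lit 20680720438161795505522280039170) (nat_lit 3)) .nil)) .nil))) .nil)))) (.cons (.br (nat_lit 10) (nat_lit 1) (.cons (.rf (nat_lit 84) (nat_lit 14238853154))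 (.cons (.br (nat_lit 13) (nat_lit 1) (.cons (.zr (nat_lit 1237940039287069133467025408) (nat_lit 6058814644274624611745795) (nat_lit 15) (nat_lit 3)) (.cons (.br (nat_lit 11) (nat_lit 1) (.cons (.zr (nat_lit 1237940039287069133467025408) (nat_lit 6058814644274624611745795) (nat_lit 15) (nat_lit 3)) .nil)) .nil))) (.cons (.br (nat_lit 13) (nat_lit 1) (.cons (.zr (nat_lit 40565128692313234532032292388864) (nat_lit 1218388999327740709568513) (nat_lit 5) (nat_lit 3)) (.cons (.ev (nat_lit 20282409608392555709584172384256) (nat_lit 1)) .nil))) .nil)))) .nil))))),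
 (.br (nat_lit 1) (nat_lit 1) (.cons (.rf (nat_lit 31) (nat_lit 377560385)) (.cons (.rf (nat_lit 2594) (nat_lit 12221425729)) (.cons (.br (nat_lit 10) (nat_lit 1) (.cons (.rf (nat_lit 84) (nat_lit 13165111361)) (.cons (.ev (nat_lit 79228167236631101942460907521) (nat_lit 1)) (.cons (.br (nat_lit 13) (nat_lit 1) (.cons (.br (nat_lit 12) (nat_lit 1) (.cons (.zr (nat_lit 792281639328549859921169285120) (nat_lit 2790200791672534460092384263) (nat_lit 10) (nat_lit 4)) .nil)) (.cons (.rf (nat_lit 2848) (nat_lit 421259188731802388512)) .nil))) .nil)))) (.cons (.br (nat_lit 10) (nat_lit 1) (.cons (.rf (nat_lit 84) (nat_lit 14238853185)) (.cons (.br (nat_lit 13) (nat_lit 1) (.cons (.zr (nat_lit 1237940039285943233559921664) (nat_lit 1223111365816107912921091) (nat_lit 15) (nat_lit 3)) (.cons (.rf (nat_lit 3326) (nat_lit 421259188731800356896)) .nil))) (.cons (.br (nat_lit 12) (nat_lit 1) (.cons (.zr (nat_lit 1208944267203127814717699) (nat_lit 1237949484018348221836296192) (nat_lit 10) (nat_lit 0)) (.cons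 (.rf (nat_lit 2849) (nat_lit 421259188731802388512)) .nil))) .nil)))) .nil))))),
 (.br (nat_lit 10) (nat_lit 1) (.cons (.zr (nat_lit 3626832799076108652774144) (nat_lit 618974742009455585894858753) (nat_lit 5) (nat_lit 0)) (.cons (.ev (nat_lit 79537647524157741360113254401) (nat_lit 1)) (.cons (.ev (nat_lit 20282409608374108965510462832641) (nat_lit 1)) .nil)))),
 (.br (nat_lit 11) (nat_lit 1) (.cons (.rf (nat_lit 4797) (nat_lit 493858305440582043680)) (.cons (.rf (nat_lit 4798) (nat_lit 493858305440582043680)) (.cons (.rf (nat_lit 4770) (nat_lit 457999205773897506121)) (.cons (.br (nat_lit 12) (nat_lit 1) (.cons (.ev (nat_lit 79537652264899192180128612353) (nat_lit 1)) (.cons (.br (nat_lit 1) (nat_lit 1) (.cons (.ev (nat_lit 79538856449977637464264737025) (nat_lit 1)) (.cons (.rf (nat_lit 4799) (nat_lit 493858305440582043680)) .nil))) (.cons (.ev (nat_lit 79537647524157741360113254401) (nat_lit 1)) (.cons (.br (nat_lit 13) (nat_lit 1) (.cons (.rf (nat_lit 4799) (nat_lit 493858305440582043680))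 (.cons (.ev (nat_lit 79228162532783139261308272641) (nat_lit 1)) (.cons (.br (nat_lit 1) (nat_lit 1) (.cons (.zr (nat_lit 3626832799076108652774144) (nat_lit 618974742009455585894858753) (nat_lit 5) (nat_lit 0)) .nil)) .nil)))) .nil))))) .nil))))),
 (.br (nat_lit 11) (nat_lit 1) (.cons (.rf (nat_lit 4797) (nat_lit 493858305440582043680)) (.cons (.rf (nat_lit 4798) (nat_lit 493858305440582043680)) (.cons (.rf (nat_lit 4770) (nat_lit 457999205773897506121)) (.cons (.rf (nat_lit 4800) (nat_lit 493858305440582043680)) (.cons (.br (nat_lit 11) (nat_lit 1) (.cons (.rf (nat_lit 4797) (nat_lit 493858305440582043680)) (.cons (.rf (nat_lit 4798) (nat_lit 493858305440582043680)) (.cons (.rf (nat_lit 4770) (nat_lit 457999205773897506121)) (.cons (.rf (nat_lit 4800) (nat_lit 493858305440582043680)) .nil))))) .nil)))))),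
 (.br (nat_lit 2) (nat_lit 1) (.cons (.rf (nat_lit 31) (nat_lit 377527618)) (.cons (.rf (nat_lit 2594) (nat_lit 12254980161)) (.cons (.br (nat_lit 11) (nat_lit 1) (.cons (.rf (nat_lit 84) (nat_lit 13165111330)) (.cons (.br (nat_lit 10) (nat_lit 1) (.cons (.ev (nat_lit 158769451038464718855060194049) (nat_lit 2)) (.cons (.br (nat_lit 12) (nat_lit 1) (.cons (.ev (nat_lit 20678865955362202028988212512000) (nat_lit 3)) .nil)) .nil))) (.cons (.zr (nat_lit 309499177281084946385010688) (nat_lit 73787257778438406146) (nat_lit 10) (nat_lit 9)) .nil)))) (.cons (.br (nat_lit 10) (nat_lit 1) (.cons (.rf (nat_lit 84) (nat_lit 14238853154)) (.cons (.br (nat_lit 12) (nat_lit 1) (.cons (.zr (nat_lit 6044647544817219583149315) (nat_lit 1237949484018629696813006848) (nat_lit 10) (nat_lit 0)) (.cons (.br (nat_lit 11) (nat_lit 1) (.cons (.zr (nat_lit 6044647544817219583149315) (nat_lit 1237949484018629696813006848) (nat_lit 10) (nat_lit 0)) .nil)) .nil))) (.cons (.zr (nat_lit 81129638414606681695789089161728) (nat_lit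 1213666632845979165917187) (nat_lit 5) (nat_lit 3)) .nil)))) .nil))))),
 (.br (nat_lit 11) (nat_lit 1) (.cons (.rf (nat_lit 2594) (nat_lit 12254980161)) (.cons (.rf (nat_lit 2594) (nat_lit 12254971202)) (.cons (.br (nat_lit 1) (nat_lit 1) (.cons (.ev (nat_lit 309499195440443068906668545) (nat_lit 2)) (.cons (.br (nat_lit 10) (nat_lit 1) (.cons (.ev (nat_lit 158768242112645385700862263809) (nat_lit 2)) (.cons (.zr (nat_lit 1208944267203127814717699) (nat_lit 1237949484018348221836296192) (nat_lit 10) (nat_lit 0)) .nil))) (.cons (.br (nat_lit 10) (nat_lit 1) (.cons (.zr (nat_lit 1208944267203127814717699) (nat_lit 1237949484018348221836296192) (nat_lit 10) (nat_lit 0)) (.cons (.ev (nat_lit 40565131124387314008377734005249) (nat_lit 2)) .nil))) .nil)))) (.cons (.rf (nat_lit 4801) (nat_lit 457999205773897506121)) .nil))))),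
 (.br (nat_lit 11) (nat_lit 1) (.cons (.rf (nat_lit 4802) (nat_lit 493858305440582043680)) (.cons (.rf (nat_lit 4803) (nat_lit 493858305440582043680)) (.cons (.rf (nat_lit 4770) (nat_lit 457999205773897506121)) (.cons (.br (nat_lit 1) (nat_lit 1) (.cons (.zr (nat_lit 55340795171082272768) (nat_lit 618974742009174110918148097) (nat_lit 5) (nat_lit 0)) (.cons (.br (nat_lit 2) (nat_lit 1) (.cons (.br (nat_lit 12) (nat_lit 1) (.cons (.ev (nat_lit 20678861119732709420866444787972) (nat_lit 3)) .nil)) (.cons (.rf (nat_lit 31) (nat_lit 444669249)) .nil))) (.cons (.br (nat_lit 2) (nat_lit 1) (.cons (.zr (nat_lit 3626832799076108652774144) (nat_lit 618974742009455585894858753) (nat_lit 5) (nat_lit 0)) (.cons (.ev (nat_lit 79537661746669760155419280130) (nat_lit 2)) (.cons (.br (nat_lit 10) (nat_lit 1) (.cons (.ev (nat_lit 20680103895401487413644045124868) (nat_lit 3)) .nil)) .nil)))) (.cons (.br (nat_lit 2) (nat_lit 1) (.cons (.ev (nat_lit 40565439400434421965892075193090) (nat_lit 2)) (.cons (.br (nat_lit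 10) (nat_lit 1) (.cons (.ev (nat_lit 20680099059698207829227439718660) (nat_lit 3)) .nil)) .nil))) .nil))))) .nil))))),
 (.br (nat_lit 8) (nat_lit 1) (.cons (.rf (nat_lit 4770) (nat_lit 493858305440582043680)) (.cons (.rf (nat_lit 4790) (nat_lit 493858305440582043680)) (.cons (.rf (nat_lit 4796) (nat_lit 493858305440582043680)) (.cons (.rf (nat_lit 4801) (nat_lit 493858305440582043680)) (.cons (.br (nat_lit 11) (nat_lit 1) (.cons (.rf (nat_lit 4802) (nat_lit 493858305440582043680)) (.cons (.rf (nat_lit 4803) (nat_lit 493858305440582043680)) (.cons (.rf (nat_lit 4770) (nat_lit 457999205773897506121)) (.cons (.rf (nat_lit 4804) (nat_lit 493858305440582043680)) (.cons (.br (nat_lit 11) (nat_lit 1) (.cons (.rf (nat_lit 4802) (nat_lit 493858305440582043680)) (.cons (.rf (nat_lit 4801) (nat_lit 457999205773897506121)) (.cons (.rf (nat_lit 4770) (nat_lit 457999205773897506121)) (.cons (.rf (nat_lit 4804) (nat_lit 493858305440582043680)) .nil))))) .nil)))))) .nil))))))]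

theorem c167 : chkAll C T R L167 (nat_lit 4784) = true := by decide +kernel

theorem l167 : (nat_lit 4784) + L167.length = (nat_lit 4806) := by decide +kernel

/-- part of the certificates -/
def L168 : List Prf := [(.br (nat_lit 11) (nat_lit 1) (.cons (.ev (nat_lit 309489732260167007401476353) (nat_lit 1)) (.cons (.rf (nat_lit 4770) (nat_lit 457999205773897506121)) (.cons (.br (nat_lit 2) (nat_lit 1) (.cons (.ev (nat_lit 310698676526244235308957696) (nat_lit 1)) (.cons (.ev (nat_lit 79537661746669760155419280130) (nat_lit 2)) (.cons (.br (nat_lit 10) (nat_lit 1) (.cons (.ev (nat_lit 21315179243887308067096798888718) (nat_lit 4)) .nil)) .nil)))) .nil)))),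
 (.br (nat_lit 11) (nat_lit 1) (.cons (.rf (nat_lit 4796) (nat_lit 457999205773897506121)) (.cons (.rf (nat_lit 4770) (nat_lit 457999205773897506121)) (.cons (.rf (nat_lit 4806) (nat_lit 493858305440582043680)) (.cons (.br (nat_lit 11) (nat_lit 1) (.cons (.rf (nat_lit 4796) (nat_lit 457999205773897506121)) (.cons (.ev (nat_lit 310693954087985250880716801) (nat_lit 1)) (.cons (.rf (nat_lit 4806) (nat_lit 493858305440582043680)) .nil)))) .nil))))),
 (.br (nat_lit 11) (nat_lit 1) (.cons (.ev (nat_lit 309489732260167007401476353) (nat_lit 1)) (.cons (.ev (nat_lit 310693935641241177171165184) (nat_lit 1)) (.cons (.br (nat_lit 1) (nat_lit 1) (.cons (.ev (nat_lit 309485028268089146729365761) (nat_lit 1)) (.cons (.br (nat_lit 10) (nat_lit 1) (.cons (.ev (nat_lit 20681349126812095108352318050058) (nat_lit 4)) .nil)) (.cons (.br (nat_lit 10) (nat_lit 1) (.cons (.ev (nat_lit 21315169572480748898263587031822) (nat_lit 4)) .nil)) .nil)))) .nil)))),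
 (.br (nat_lit 11) (nat_lit 1) (.cons (.rf (nat_lit 4796) (nat_lit 457999205773897506121)) (.cons (.rf (nat_lit 4770) (nat_lit 457999205773897506121)) (.cons (.rf (nat_lit 4808) (nat_lit 493858305440582043680)) (.cons (.br (nat_lit 11) (nat_lit 1) (.cons (.rf (nat_lit 4796) (nat_lit 457999205773897506121)) (.cons (.rf (nat_lit 4770) (nat_lit 457999205773897506121)) (.cons (.rf (nat_lit 4808) (nat_lit 493858305440582043680)) .nil)))) .nil))))),
 (.br (nat_lit 11) (nat_lit 1) (.cons (.rf (nat_lit 4807) (nat_lit 493858305440582043680)) (.cons (.rf (nat_lit 4809) (nat_lit 493858305440582043680)) (.cons (.rf (nat_lit 4770) (nat_lit 457999205773897506121)) (.cons (.br (nat_lit 11) (nat_lit 1) (.cons (.rf (nat_lit 4807) (nat_lit 493858305440582043680)) (.cons (.rf (nat_lit 4809) (nat_lit 493858305440582043680)) (.cons (.rf (nat_lit 4770) (nat_lit 457999205773897506121)) .nil)))) .nil))))),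
 (.br (nat_lit 8) (nat_lit 1) (.cons (.rf (nat_lit 4770) (nat_lit 493858305440582043680)) (.cons (.rf (nat_lit 4790) (nat_lit 493858305440582043680)) (.cons (.rf (nat_lit 4796) (nat_lit 493858305440582043680)) (.cons (.rf (nat_lit 4805) (nat_lit 493858305440582043680)) (.cons (.br (nat_lit 11) (nat_lit 1) (.cons (.rf (nat_lit 4807) (nat_lit 493858305440582043680)) (.cons (.rf (nat_lit 4809) (nat_lit 493858305440582043680)) (.cons (.rf (nat_lit 4770) (nat_lit 457999205773897506121)) (.cons (.rf (nat_lit 4810) (nat_lit 493858305440582043680)) (.cons (.br (nat_lit 11) (nat_lit 1) (.cons (.rf (nat_lit 4807) (nat_lit 493858305440582043680)) (.cons (.rf (nat_lit 4809) (nat_lit 493858305440582043680)) (.cons (.rf (nat_lit 4770) (nat_lit 457999205773897506121)) (.cons (.rf (nat_lit 4810) (nat_lit 493858305440582043680)) .nil))))) .nil)))))) .nil)))))),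
 (.br (nat_lit 8) (nat_lit 1) (.cons (.rf (nat_lit 4770) (nat_lit 493858305440582043680)) (.cons (.rf (nat_lit 4790) (nat_lit 493858305440582043680)) (.cons (.rf (nat_lit 4796) (nat_lit 493858305440582043680)) (.cons (.rf (nat_lit 4805) (nat_lit 493858305440582043680)) (.cons (.rf (nat_lit 4811) (nat_lit 493858305440582043680)) (.cons (.br (nat_lit 8) (nat_lit 1) (.cons (.ev (nat_lit 18446745173237956864) (nat_lit 1)) (.cons (.rf (nat_lit 4790) (nat_lit 493858305440582043680)) (.cons (.rf (nat_lit 4796) (nat_lit 493858305440582043680)) (.cons (.rf (nat_lit 4805) (nat_lit 493858305440582043680)) (.cons (.rf (nat_lit 4811) (nat_lit 493858305440582043680)) .nil)))))) .nil))))))),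
 (.br (nat_lit 2) (nat_lit 1) (.cons (.rf (nat_lit 31) (nat_lit 377530594)) (.cons (.rf (nat_lit 2594) (nat_lit 12224568385)) (.cons (.br (nat_lit 7) (nat_lit 1) (.cons (.ev (nat_lit 310693954087985250880716801) (nat_lit 1)) (.cons (.ev (nat_lit 79228167255077846016170459136) (nat_lit 1)) (.cons (.br (nat_lit 11) (nat_lit 1) (.cons (.ev (nat_lit 79538870672417320489090940930) (nat_lit 2)) (.cons (.br (nat_lit 12) (nat_lit 1) (.cons (.ev (nat_lit 22429937080786120307093164595984) (nat_lit 5)) .nil)) .nil))) .nil)))) (.cons (.br (nat_lit 7) (nat_lit 1) (.cons (.ev (nat_lit 310693935713018395744075776) (nat_lit 1)) (.cons (.br (nat_lit 13) (nat_lit 1) (.cons (.br (nat_lit 12) (nat_lit 1) (.cons (.ev (nat_lit 21315179243887308067096798888718) (nat_lit 4)) .nil)) (.cons (.br (nat_lit 11) (nat_lit 1) (.cons (.ev (nat_lit 21315179243887308067096798888718) (nat_lit 4)) .nil)) .nil))) (.cons (.rf (nat_lit 1420) (nat_lit 492635613326055998528)) .nil)))) .nil))))),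
 (.br (nat_lit 11) (nat_lit 1) (.cons (.rf (nat_lit 4813) (nat_lit 493858305440582043680)) (.cons (.rf (nat_lit 4812) (nat_lit 457999205773897506121)) (.cons (.rf (nat_lit 4790) (nat_lit 457999205773897506121)) (.cons (.br (nat_lit 2) (nat_lit 1) (.cons (.br (nat_lit 7) (nat_lit 1) (.cons (.rf (nat_lit 31) (nat_lit 411281473)) (.cons (.ev (nat_lit 309489732260167007401476353) (nat_lit 1)) .nil))) (.cons (.zr (nat_lit 55556407202265694208) (nat_lit 618974742009454486383230977) (nat_lit 5) (nat_lit 0)) (.cons (.br (nat_lit 7) (nat_lit 1) (.cons (.ev (nat_lit 79538870672417320489090940930) (nat_lit 2)) (.cons (.ev (nat_lit 79537652264970967199678267393) (nat_lit 1)) .nil))) (.cons (.br (nat_lit 7) (nat_lit 1) (.cons (.rf (nat_lit 3887) (nat_lit 13164349647768160288)) (.cons (.rf (nat_lit 1422) (nat_lit 492635613326123041856)) (.cons (.br (nat_lit 1) (nat_lit 1) (.cons (.ev (nat_lit 20678868373287484117154301019908) (nat_lit 3)) .nil)) .nil)))) .nil))))) .nil))))),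
 (.br (nat_lit 11) (nat_lit 1) (.cons (.rf (nat_lit 4813) (nat_lit 493858305440582043680)) (.cons (.rf (nat_lit 4812) (nat_lit 457999205773897506121)) (.cons (.rf (nat_lit 4790) (nat_lit 457999205773897506121)) (.cons (.rf (nat_lit 4814) (nat_lit 493858305440582043680)) (.cons (.br (nat_lit 11) (nat_lit 1) (.cons (.rf (nat_lit 4813) (nat_lit 493858305440582043680)) (.cons (.rf (nat_lit 4812) (nat_lit 457999205773897506121)) (.cons (.rf (nat_lit 4790) (nat_lit 457999205773897506121)) (.cons (.rf (nat_lit 4814) (nat_lit 493858305440582043680)) .nil))))) .nil)))))),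
 (.br (nat_lit 11) (nat_lit 1) (.cons (.ev (nat_lit 309489750634573111607951616) (nat_lit 1)) (.cons (.rf (nat_lit 2594) (nat_lit 12258117857)) (.cons (.br (nat_lit 2) (nat_lit 1) (.cons (.rf (nat_lit 31) (nat_lit 377530594)) (.cons (.br (nat_lit 12) (nat_lit 1) (.cons (.ev (nat_lit 79537647524085964141540474881) (nat_lit 1)) (.cons (.ev (nat_lit 79231817718155801275134313472) (nat_lit 3)) .nil))) (.cons (.br (nat_lit 7) (nat_lit 1) (.cons (.br (nat_lit 12) (nat_lit 1) (.cons (.ev (nat_lit 20680106351143604224380289876746) (nat_lit 4)) .nil)) (.cons (.ev (nat_lit 20282409608392555709584172384256) (nat_lit 1)) .nil))) .nil)))) (.cons (.rf (nat_lit 4815) (nat_lit 457999205773897506121)) .nil))))),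
 (.br (nat_lit 11) (nat_lit 1) (.cons (.rf (nat_lit 4816) (nat_lit 493858305440582043680)) (.cons (.rf (nat_lit 4812) (nat_lit 457999205773897506121)) (.cons (.rf (nat_lit 4790) (nat_lit 457999205773897506121)) (.cons (.br (nat_lit 2) (nat_lit 1) (.cons (.br (nat_lit 7) (nat_lit 1) (.cons (.br (nat_lit 12) (nat_lit 1) (.cons (.ev (nat_lit 20521645161966339577240923473156) (nat_lit 3)) .nil)) (.cons (.ev (nat_lit 309489732260167007401476353) (nat_lit 1)) .nil))) (.cons (.br (nat_lit 1) (nat_lit 1) (.cons (.br (nat_lit 12) (nat_lit 1) (.cons (.ev (nat_lit 20680099050290656575423206589700) (nat_lit 3)) .nil)) (.cons (.ev (nat_lit 40565439400434421965892075193090) (nat_lit 2)) .nil))) (.cons (.br (nat_lit 1) (nat_lit 1) (.cons (.br (nat_lit 12) (nat_lit 1) (.cons (.ev (nat_lit 82960145094285965817779784712) (nat_lit 4)) .nil)) (.cons (.ev (nat_lit 79228162532711364241758617601) (nat_lit 1)) (.cons (.br (nat_lit 7) (nat_lit 1) (.cons (.ev (nat_lit 20680101477549702941098690020100) (nat_lit 3)) .nil))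 .nil)))) (.cons (.ev (nat_lit 20282719093402305278538114138113) (nat_lit 1)) .nil))))) .nil))))),
 (.br (nat_lit 8) (nat_lit 1) (.cons (.rf (nat_lit 4770) (nat_lit 493858305440582043680)) (.cons (.rf (nat_lit 4790) (nat_lit 493858305440582043680)) (.cons (.rf (nat_lit 4812) (nat_lit 493858305440582043680)) (.cons (.rf (nat_lit 4815) (nat_lit 493858305440582043680)) (.cons (.br (nat_lit 11) (nat_lit 1) (.cons (.rf (nat_lit 4816) (nat_lit 493858305440582043680)) (.cons (.rf (nat_lit 4812) (nat_lit 457999205773897506121)) (.cons (.rf (nat_lit 4790) (nat_lit 457999205773897506121)) (.cons (.rf (nat_lit 4817) (nat_lit 493858305440582043680)) (.cons (.br (nat_lit 11) (nat_lit 1) (.cons (.rf (nat_lit 4815) (nat_lit 457999205773897506121)) (.cons (.rf (nat_lit 4812) (nat_lit 457999205773897506121)) (.cons (.rf (nat_lit 4790) (nat_lit 457999205773897506121)) (.cons (.rf (nat_lit 4817) (nat_lit 493858305440582043680)) .nil))))) .nil)))))) .nil)))))),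
 (.br (nat_lit 11) (nat_lit 1) (.cons (.rf (nat_lit 4812) (nat_lit 457999205773897506121)) (.cons (.rf (nat_lit 4790) (nat_lit 457999205773897506121)) (.cons (.br (nat_lit 11) (nat_lit 1) (.cons (.rf (nat_lit 4812) (nat_lit 457999205773897506121)) (.cons (.rf (nat_lit 4790) (nat_lit 457999205773897506121)) (.cons (.ev (nat_lit 311926565527274201448186369) (nat_lit 3)) .nil)))) (.cons (.br (nat_lit 11) (nat_lit 1) (.cons (.rf (nat_lit 4812) (nat_lit 457999205773897506121)) (.cons (.rf (nat_lit 4790) (nat_lit 457999205773897506121)) (.cons (.ev (nat_lit 311926565527274201448186369) (nat_lit 3)) .nil)))) .nil))))),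
 (.br (nat_lit 11) (nat_lit 1) (.cons (.rf (nat_lit 4819) (nat_lit 493858305440582043680)) (.cons (.rf (nat_lit 4812) (nat_lit 457999205773897506121)) (.cons (.rf (nat_lit 4790) (nat_lit 457999205773897506121)) (.cons (.br (nat_lit 11) (nat_lit 1) (.cons (.ev (nat_lit 311926565527274201448186369) (nat_lit 3)) (.cons (.rf (nat_lit 4812) (nat_lit 457999205773897506121)) (.cons (.rf (nat_lit 4790) (nat_lit 457999205773897506121)) .nil)))) .nil))))),
 (.br (nat_lit 8) (nat_lit 1) (.cons (.rf (nat_lit 4770) (nat_lit 493858305440582043680)) (.cons (.rf (nat_lit 4790) (nat_lit 493858305440582043680)) (.cons (.rf (nat_lit 4812) (nat_lit 493858305440582043680)) (.cons (.rf (nat_lit 4818) (nat_lit 493858305440582043680)) (.cons (.br (nat_lit 11) (nat_lit 1) (.cons (.rf (nat_lit 4819) (nat_lit 493858305440582043680)) (.cons (.rf (nat_lit 4812) (nat_lit 457999205773897506121)) (.cons (.rf (nat_lit 4790) (nat_lit 457999205773897506121)) (.cons (.rf (nat_lit 4820) (nat_lit 493858305440582043680)) (.cons (.br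 (nat_lit 11) (nat_lit 1) (.cons (.rf (nat_lit 4819) (nat_lit 493858305440582043680)) (.cons (.rf (nat_lit 4812) (nat_lit 457999205773897506121)) (.cons (.rf (nat_lit 4790) (nat_lit 457999205773897506121)) (.cons (.rf (nat_lit 4820) (nat_lit 493858305440582043680)) .nil))))) .nil)))))) .nil)))))),
 (.br (nat_lit 8) (nat_lit 1) (.cons (.rf (nat_lit 4770) (nat_lit 493858305440582043680)) (.cons (.rf (nat_lit 4790) (nat_lit 493858305440582043680)) (.cons (.rf (nat_lit 4812) (nat_lit 493858305440582043680)) (.cons (.rf (nat_lit 4818) (nat_lit 493858305440582043680)) (.cons (.rf (nat_lit 4821) (nat_lit 493858305440582043680)) (.cons (.br (nat_lit 8) (nat_lit 1) (.cons (.rf (nat_lit 4770) (nat_lit 493858305440582043680)) (.cons (.rf (nat_lit 4790) (nat_lit 493858305440582043680)) (.cons (.rf (nat_lit 4812) (nat_lit 493858305440582043680)) (.cons (.rf (nat_lit 4818) (nat_lit 493858305440582043680)) (.cons (.rf (nat_lit 4821) (nat_lit 493858305440582043680)) .nil)))))) .nil))))))),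
 (.br (nat_lit 10) (nat_lit 1) (.cons (.zr (nat_lit 3626832799076108652774144) (nat_lit 618974742009455585894858753) (nat_lit 5) (nat_lit 0)) (.cons (.br (nat_lit 2) (nat_lit 1) (.cons (.zr (nat_lit 237684487542793012780632048384) (nat_lit 618974742009455585894858753) (nat_lit 5) (nat_lit 0)) .nil)) (.cons (.ev (nat_lit 20282409608374108965510462832641) (nat_lit 1)) .nil)))),
 (.br (nat_lit 11) (nat_lit 1) (.cons (.rf (nat_lit 4822) (nat_lit 457999205773897506121)) (.cons (.rf (nat_lit 4812) (nat_lit 457999205773897506121)) (.cons (.rf (nat_lit 4790) (nat_lit 457999205773897506121)) (.cons (.rf (nat_lit 4770) (nat_lit 457999205773897506121)) (.cons (.br (nat_lit 8) (nat_lit 1) (.cons (.rf (nat_lit 4770) (nat_lit 493858305440582043680)) (.cons (.rf (nat_lit 4790) (nat_lit 493858305440582043680)) (.cons (.rf (nat_lit 4812) (nat_lit 493858305440582043680)) (.cons (.rf (nat_lit 4822) (nat_lit 493858305440582043680)) (.cons (.br (nat_lit 1) (nat_lit 1) (.cons (.br (nat_lit 7) (nat_lit 1) (.cons (.zr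 (nat_lit 3626832799076108652774144) (nat_lit 618974742009455585894858753) (nat_lit 5) (nat_lit 0)) (.cons (.br (nat_lit 10) (nat_lit 1) (.cons (.ev (nat_lit 310698658079500161599406081) (nat_lit 1)) .nil)) (.cons (.ev (nat_lit 309489732260167007401476353) (nat_lit 1)) .nil)))) (.cons (.rf (nat_lit 4823) (nat_lit 493858305440582043680)) (.cons (.br (nat_lit 2) (nat_lit 1) (.cons (.rf (nat_lit 3347) (nat_lit 421259188731800356896)) (.cons (.br (nat_lit 7) (nat_lit 1) (.cons (.ev (nat_lit 20683201191686404253716307968776) (nat_lit 4)) .nil)) (.cons (.br (nat_lit 7) (nat_lit 1) (.cons (.zr (nat_lit 237684487542793012780632048384) (nat_lit 618974742009455585894858753) (nat_lit 5) (nat_lit 0)) .nil)) .nil)))) (.cons (.br (nat_lit 2) (nat_lit 1) (.cons (.rf (nat_lit 4762) (nat_lit 457999205773897506121)) (.cons (.ev (nat_lit 79228167236631101942460907521) (nat_lit 1)) (.cons (.ev (nat_lit 4740813226947649798401) (nat_lit 1)) .nil)))) (.cons (.br (nat_lit 2) (nat_lit 1) (.cons (.br (nat_lit 10) (nat_lit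 1) (.cons (.zr (nat_lit 237684487542793012780632048384) (nat_lit 618974742009455585894858753) (nat_lit 5) (nat_lit 0)) .nil)) (.cons (.rf (nat_lit 4823) (nat_lit 457999205773897506121)) (.cons (.ev (nat_lit 4740813226947649798401) (nat_lit 1)) .nil)))) .nil)))))) .nil)))))) .nil)))))),
 (.br (nat_lit 8) (nat_lit 1) (.cons (.rf (nat_lit 4770) (nat_lit 493858305440582043680)) (.cons (.rf (nat_lit 4790) (nat_lit 493858305440582043680)) (.cons (.rf (nat_lit 4812) (nat_lit 493858305440582043680)) (.cons (.rf (nat_lit 4822) (nat_lit 493858305440582043680)) (.cons (.br (nat_lit 11) (nat_lit 1) (.cons (.rf (nat_lit 4822) (nat_lit 457999205773897506121)) (.cons (.rf (nat_lit 4812) (nat_lit 457999205773897506121)) (.cons (.rf (nat_lit 4790) (nat_lit 457999205773897506121)) (.cons (.rf (nat_lit 4770) (nat_lit 457999205773897506121)) (.cons (.rf (nat_lit 4824) (nat_lit 457999205773897506121)) (.cons (.rf (nat_lit 4824) (nat_lit 493858305440582043680)) .nil))))))) .nil)))))),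
 (.br (nat_lit 8) (nat_lit 1) (.cons (.rf (nat_lit 4770) (nat_lit 493858305440582043680)) (.cons (.rf (nat_lit 4790) (nat_lit 493858305440582043680)) (.cons (.rf (nat_lit 4812) (nat_lit 493858305440582043680)) (.cons (.rf (nat_lit 4822) (nat_lit 493858305440582043680)) (.cons (.rf (nat_lit 4825) (nat_lit 493858305440582043680)) (.cons (.br (nat_lit 8) (nat_lit 1) (.cons (.rf (nat_lit 4770) (nat_lit 493858305440582043680)) (.cons (.rf (nat_lit 4790) (nat_lit 493858305440582043680)) (.cons (.rf (nat_lit 4812) (nat_lit 493858305440582043680)) (.cons (.rf (nat_lit 4822) (nat_lit 493858305440582043680)) (.cons (.rf (nat_lit 4825) (nat_lit 493858305440582043680)) .nil)))))) .nil)))))))]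

theorem c168 : chkAll C T R L168 (nat_lit 4806) = true := by decide +kernel

theorem l168 : (nat_lit 4806) + L168.length = (nat_lit 4827) := by decide +kernel

/-- part of the certificates -/
def L169 : List Prf := [(.br (nat_lit 8) (nat_lit 1) (.cons (.rf (nat_lit 4770) (nat_lit 493858305440582043680)) (.cons (.rf (nat_lit 4790) (nat_lit 493858305440582043680)) (.cons (.rf (nat_lit 4812) (nat_lit 493858305440582043680)) (.cons (.rf (nat_lit 4822) (nat_lit 493858305440582043680)) (.cons (.rf (nat_lit 4826) (nat_lit 493858305440582043680)) (.cons (.br (nat_lit 8) (nat_lit 1) (.cons (.rf (nat_lit 4770) (nat_lit 493858305440582043680)) (.cons (.rf (nat_lit 4790) (nat_lit 493858305440582043680)) (.cons (.rf (nat_lit 4812) (nat_lit 493858305440582043680)) (.cons (.rf (nat_lit 4822) (nat_lit 493858305440582043680)) (.cons (.rf (nat_lit 4826) (nat_lit 493858305440582043680)) .nil)))))) .nil))))))),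
 (.br (nat_lit 5) (nat_lit 1) (.cons (.br (nat_lit 8) (nat_lit 1) (.cons (.rf (nat_lit 4770) (nat_lit 493858305440582043680)) (.cons (.rf (nat_lit 4790) (nat_lit 493858305440582043680)) (.cons (.rf (nat_lit 4812) (nat_lit 493858305440582043680)) (.cons (.rf (nat_lit 4822) (nat_lit 493858305440582043680)) (.cons (.rf (nat_lit 4826) (nat_lit 493858305440582043680)) (.cons (.rf (nat_lit 4827) (nat_lit 493858305440582043680)) (.cons (.br (nat_lit 8) (nat_lit 1) (.cons (.rf (nat_lit 4770) (nat_lit 493858305440582043680)) (.cons (.rf (nat_lit 4790) (nat_lit 493858305440582043680)) (.cons (.rf (nat_lit 4812) (nat_lit 493858305440582043680)) (.cons (.rf (nat_lit 4822) (nat_lit 493858305440582043680)) (.cons (.rf (nat_lit 4826) (nat_lit 493858305440582043680)) (.cons (.rf (nat_lit 4827) (nat_lit 493858305440582043680)) .nil))))))) .nil)))))))) .nil)),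
 (.br (nat_lit 10) (nat_lit 0) (.cons (.rf (nat_lit 4352) (nat_lit 12339615205705)) (.cons (.br (nat_lit 6) (nat_lit 1) (.cons (.rf (nat_lit 4735) (nat_lit 407901468851537952)) (.cons (.br (nat_lit 7) (nat_lit 0) (.cons (.rf (nat_lit 4828) (nat_lit 14242959524133701664)) (.cons (.rf (nat_lit 4828) (nat_lit 14242959524066658336)) .nil))) .nil))) (.cons (.rf (nat_lit 4352) (nat_lit 12339548162377)) .nil)))),
 (.br (nat_lit 10) (nat_lit 0) (.cons (.rf (nat_lit 4352) (nat_lit 12341760592201)) (.cons (.rf (nat_lit 4352) (nat_lit 12338574002505)) .nil))),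
 (.br (nat_lit 4) (nat_lit 1) (.cons (.rf (nat_lit 4830) (nat_lit 493739772589549652297)) (.cons (.rf (nat_lit 4830) (nat_lit 493858305440582043680)) .nil))),
 (.br (nat_lit 12) (nat_lit 1) (.cons (.rf (nat_lit 31) (nat_lit 411376705)) (.cons (.rf (nat_lit 2348) (nat_lit 417839795530349250592)) .nil))),
 (.br (nat_lit 11) (nat_lit 1) (.cons (.rf (nat_lit 31) (nat_lit 377822273)) (.cons (.br (nat_lit 8) (nat_lit 1) (.cons (.zr (nat_lit 55340795171082272768) (nat_lit 618974742009174110918148097) (nat_lit 5) (nat_lit 0)) (.cons (.rf (nat_lit 4832) (nat_lit 493858305440582043680)) (.cons (.rf (nat_lit 4832) (nat_lit 458117738797769787424)) .nil)))) .nil))),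
 (.br (nat_lit 11) (nat_lit 1) (.cons (.rf (nat_lit 31) (nat_lit 377822273)) (.cons (.rf (nat_lit 4833) (nat_lit 493858305440582043680)) (.cons (.rf (nat_lit 4833) (nat_lit 458117738797769787424)) .nil)))),
 (.br (nat_lit 8) (nat_lit 1) (.cons (.rf (nat_lit 29) (nat_lit 8723521)) (.cons (.rf (nat_lit 4834) (nat_lit 493858305440582043680)) (.cons (.rf (nat_lit 2654) (nat_lit 459637233985)) .nil)))),
 (.br (nat_lit 8) (nat_lit 1) (.cons (.rf (nat_lit 29) (nat_lit 8723521)) (.cons (.rf (nat_lit 4834) (nat_lit 493858305440582043680)) (.cons (.rf (nat_lit 4835) (nat_lit 493858305440582043680)) (.cons (.rf (nat_lit 4835) (nat_lit 458117738797769787424)) .nil))))),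
 (.br (nat_lit 8) (nat_lit 1) (.cons (.ev (nat_lit 4740885284541687660801) (nat_lit 1)) (.cons (.ev (nat_lit 310693954159762465175437313) (nat_lit 1)) .nil))),
 (.br (nat_lit 11) (nat_lit 1) (.cons (.rf (nat_lit 31) (nat_lit 377727041)) (.cons (.br (nat_lit 7) (nat_lit 1) (.cons (.zr (nat_lit 55340795171082272768) (nat_lit 618974742009174110918148097) (nat_lit 5) (nat_lit 0)) (.cons (.rf (nat_lit 4837) (nat_lit 493858305440582043680)) (.cons (.rf (nat_lit 4837) (nat_lit 458117738797769787424)) .nil)))) .nil))),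
 (.br (nat_lit 11) (nat_lit 1) (.cons (.rf (nat_lit 31) (nat_lit 377727041)) (.cons (.rf (nat_lit 4838) (nat_lit 493858305440582043680)) (.cons (.rf (nat_lit 4838) (nat_lit 458117738797769787424)) .nil)))),
 (.br (nat_lit 8) (nat_lit 1) (.cons (.rf (nat_lit 29) (nat_lit 8723521)) (.cons (.rf (nat_lit 4839) (nat_lit 493858305440582043680)) (.cons (.rf (nat_lit 2654) (nat_lit 459637332193)) .nil)))),
 (.br (nat_lit 8) (nat_lit 1) (.cons (.rf (nat_lit 29) (nat_lit 8723521)) (.cons (.rf (nat_lit 4839) (nat_lit 493858305440582043680)) (.cons (.rf (nat_lit 4840) (nat_lit 493858305440582043680)) (.cons (.rf (nat_lit 4840) (nat_lit 458117738797769787424)) .nil))))),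
 (.br (nat_lit 10) (nat_lit 1) (.cons (.ev (nat_lit 1213666632841576824504321) (nat_lit 1)) (.cons (.ev (nat_lit 1213666705180645839077376) (nat_lit 1)) .nil))),
 (.br (nat_lit 9) (nat_lit 1) (.cons (.kr (nat_lit 4722366482869645213697) (nat_lit 1208925819614629174706432) (nat_lit 0) (nat_lit 2)) (.cons (.rf (nat_lit 4842) (nat_lit 14242959524133701664)) (.cons (.rf (nat_lit 4842) (nat_lit 13126066816545818656)) .nil)))),
 (.br (nat_lit 11) (nat_lit 1) (.cons (.rf (nat_lit 4843) (nat_lit 15433072044983552032)) (.cons (.zr (nat_lit 3626777459406837477736450) (nat_lit 4759259972120887689984) (nat_lit 5) (nat_lit 9)) (.cons (.rf (nat_lit 2352) (nat_lit 417839795530349250592)) .nil)))),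
 (.br (nat_lit 8) (nat_lit 1) (.cons (.rf (nat_lit 4836) (nat_lit 493858305440582043680)) (.cons (.rf (nat_lit 4841) (nat_lit 493858305440582043680)) (.cons (.br (nat_lit 11) (nat_lit 1) (.cons (.rf (nat_lit 4843) (nat_lit 15433072044983552032)) (.cons (.zr (nat_lit 3626777459406837477736450) (nat_lit 4759259972120887689984) (nat_lit 5) (nat_lit 9)) (.cons (.rf (nat_lit 4844) (nat_lit 493858305440582043680)) (.cons (.rf (nat_lit 4844) (nat_lit 458117738797769787424)) .nil))))) .nil)))),
 (.br (nat_lit 8) (nat_lit 1) (.cons (.rf (nat_lit 4836) (nat_lit 493858305440582043680)) (.cons (.rf (nat_lit 4841) (nat_lit 493858305440582043680)) (.cons (.rf (nat_lit 4845) (nat_lit 493858305440582043680)) (.cons (.rf (nat_lit 4845) (nat_lit 458117738797769787424)) .nil))))),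
 (.br (nat_lit 8) (nat_lit 1) (.cons (.rf (nat_lit 4836) (nat_lit 493858305440582043680)) (.cons (.rf (nat_lit 4841) (nat_lit 493858305440582043680)) (.cons (.rf (nat_lit 4846) (nat_lit 493858305440582043680)) (.cons (.br (nat_lit 8) (nat_lit 1) (.cons (.rf (nat_lit 2654) (nat_lit 459637233985)) (.cons (.rf (nat_lit 2654) (nat_lit 459637332193)) (.cons (.rf (nat_lit 4846) (nat_lit 493858305440582043680)) .nil)))) .nil))))),
 (.br (nat_lit 8) (nat_lit 1) (.cons (.rf (nat_lit 4836) (nat_lit 493858305440582043680)) (.cons (.rf (nat_lit 4841) (nat_lit 493858305440582043680)) (.cons (.rf (nat_lit 4846) (nat_lit 493858305440582043680)) (.cons (.rf (nat_lit 4847) (nat_lit 493858305440582043680)) (.cons (.rf (nat_lit 4847) (nat_lit 458117738797769787424)) .nil)))))),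
 (.br (nat_lit 12) (nat_lit 1) (.cons (.rf (nat_lit 82) (nat_lit 12092418082)) (.cons (.rf (nat_lit 2594) (nat_lit 8969913570)) (.cons (.br (nat_lit 1) (nat_lit 1) (.cons (.ev (nat_lit 72058693566398721) (nat_lit 1)) (.cons (.br (nat_lit 8) (nat_lit 1) (.cons (.ev (nat_lit 79538856468424381533696098560) (nat_lit 1)) (.cons (.br (nat_lit 11) (nat_lit 1) (.cons (.ev (nat_lit 20679480108531715727651005726984) (nat_lit 4)) .nil)) .nil))) (.cons (.br (nat_lit 8) (nat_lit 1) (.cons (.br (nat_lit 11) (nat_lit 1) (.cons (.ev (nat_lit 79538856449977637459986546945) (nat_lit 1)) .nil)) (.cons (.ev (nat_lit 20440865938180488751360438894850) (nat_lit 2)) .nil))) .nil)))) .nil)))),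
 (.br (nat_lit 12) (nat_lit 1) (.cons (.rf (nat_lit 1343) (nat_lit 388031064098)) (.cons (.rf (nat_lit 1339) (nat_lit 426317683010)) (.cons (.rf (nat_lit 4849) (nat_lit 493858305440582043680)) (.cons (.br (nat_lit 12) (nat_lit 1) (.cons (.rf (nat_lit 82) (nat_lit 14239901730)) (.cons (.rf (nat_lit 2594) (nat_lit 9037022434)) (.cons (.rf (nat_lit 4849) (nat_lit 493858305440582043680)) .nil)))) .nil))))),
 (.br (nat_lit 10) (nat_lit 1) (.cons (.ev (nat_lit 79537652264971249774166605825) (nat_lit 1)) (.cons (.br (nat_lit 12) (nat_lit 1) (.cons (.zr (nat_lit 9444733528697951225088) (nat_lit 79229371458602762686559158275) (nat_lit 15) (nat_lit 3)) .nil)) .nil))),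
 (.br (nat_lit 11) (nat_lit 1) (.cons (.rf (nat_lit 2594) (nat_lit 9000298561)) (.cons (.kr (nat_lit 1208925819614629174706177) (nat_lit 4722366482869645213952) (nat_lit 0) (nat_lit 2)) (.cons (.br (nat_lit 8) (nat_lit 1) (.cons (.ev (nat_lit 1213648258156192386318336) (nat_lit 1)) (.cons (.rf (nat_lit 4851) (nat_lit 493858305440582043680)) (.cons (.rf (nat_lit 4851) (nat_lit 458117738797769787424)) .nil)))) .nil)))),
 (.br (nat_lit 11) (nat_lit 1) (.cons (.rf (nat_lit 1339) (nat_lit 391186028769)) (.cons (.kr (nat_lit 1208925819614629174706177) (nat_lit 4722366482869645213952) (nat_lit 0) (nat_lit 2)) (.cons (.rf (nat_lit 4852) (nat_lit 493858305440582043680)) (.cons (.rf (nat_lit 4852) (nat_lit 458117738797769787424)) .nil))))),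
 (.br (nat_lit 12) (nat_lit 1) (.cons (.ev (nat_lit 72058693566398721) (nat_lit 1)) (.cons (.ev (nat_lit 309485028268089146729365761) (nat_lit 1)) (.cons (.ev (nat_lit 20282410817299856804020576321793) (nat_lit 1)) .nil)))),
 (.br (nat_lit 8) (nat_lit 1) (.cons (.ev (nat_lit 1213648258156192386318336) (nat_lit 1)) (.cons (.br (nat_lit 10) (nat_lit 1) (.cons (.rf (nat_lit 84) (nat_lit 13164947681)) (.cons (.rf (nat_lit 84) (nat_lit 12092254247)) (.cons (.br (nat_lit 12) (nat_lit 1) (.cons (.ev (nat_lit 79538861172344119234398257408) (nat_lit 1)) (.cons (.rf (nat_lit 2383) (nat_lit 417839795530349250592)) .nil))) .nil)))) (.cons (.br (nat_lit 10) (nat_lit 1) (.cons (.rf (nat_lit 84) (nat_lit 13164947681)) (.cons (.br (nat_lit 11) (nat_lit 1) (.cons (.ev (nat_lit 79540070116538985487959851266) (nat_lit 2)) (.cons (.rf (nat_lit 4854) (nat_lit 493858305440582043680)) .nil))) (.cons (.br (nat_lit 13) (nat_lit 1) (.cons (.ev (nat_lit 20282410812595937064129407287553) (nat_lit 1)) (.cons (.ev (nat_lit 20282413239929418923363755098624)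 (nat_lit 2)) .nil))) .nil)))) .nil)))),
 (.br (nat_lit 1) (nat_lit 1) (.cons (.rf (nat_lit 1339) (nat_lit 391186028769)) (.cons (.rf (nat_lit 31) (nat_lit 377719105)) (.cons (.ev (nat_lit 72058693566398721) (nat_lit 1)) (.cons (.rf (nat_lit 4855) (nat_lit 493858305440582043680)) (.cons (.rf (nat_lit 4855) (nat_lit 458117738797769787424)) .nil)))))),
 (.br (nat_lit 10) (nat_lit 1) (.cons (.kr (nat_lit 20282719088661491769015976132864) (nat_lit 79229371458602753890466136064) (nat_lit 1) (nat_lit 0)) .nil)),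
 (.br (nat_lit 11) (nat_lit 1) (.cons (.ev (nat_lit 72058693566398721) (nat_lit 1)) (.cons (.rf (nat_lit 4853) (nat_lit 493739772417750965577)) (.cons (.br (nat_lit 1) (nat_lit 1) (.cons (.kr (nat_lit 309485009821345068724846848) (nat_lit 1208944338416296922185728) (nat_lit 1) (nat_lit 0)) (.cons (.rf (nat_lit 4857) (nat_lit 493858305440582043680)) (.cons (.rf (nat_lit 4857) (nat_lit 458117738797769787424)) .nil)))) .nil)))),
 (.br (nat_lit 8) (nat_lit 1) (.cons (.rf (nat_lit 4853) (nat_lit 493858305440582043680)) (.cons (.ev (nat_lit 1213648258156192386318336) (nat_lit 1)) (.cons (.rf (nat_lit 4856) (nat_lit 493858305440582043680)) (.cons (.br (nat_lit 11) (nat_lit 1) (.cons (.ev (nat_lit 72058693566398721) (nat_lit 1)) (.cons (.rf (nat_lit 4853) (nat_lit 493739772417750965577)) (.cons (.rf (nat_lit 4858) (nat_lit 493858305440582043680)) (.cons (.rf (nat_lit 4858) (nat_lit 458117738797769787424)) .nil))))) .nil))))),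
 (.br (nat_lit 1) (nat_lit 1) (.cons (.rf (nat_lit 1339) (nat_lit 426619508961)) (.cons (.rf (nat_lit 31) (nat_lit 411273537)) (.cons (.br (nat_lit 8) (nat_lit 1) (.cons (.ev (nat_lit 4740885284541687660801) (nat_lit 1)) (.cons (.br (nat_lit 10) (nat_lit 1) (.cons (.rf (nat_lit 84) (nat_lit 13164947495)) (.cons (.rf (nat_lit 84) (nat_lit 12092254433)) (.cons (.br (nat_lit 11) (nat_lit 1) (.cons (.ev (nat_lit 79538861172344119234398257408) (nat_lit 1)) (.cons (.br (nat_lit 12) (nat_lit 1) (.cons (.ev (nat_lit 20998868619851377783295926013196) (nat_lit 4)) .nil)) .nil))) .nil)))) (.cons (.br (nat_lit 10) (nat_lit 1) (.cons (.br (nat_lit 11) (nat_lit 1) (.cons (.rf (nat_lit 84) (nat_lit 9004361762)) (.cons (.br (nat_lit 12) (nat_lit 1) (.cons (.ev (nat_lit 79537652264971249774166605825) (nat_lit 1)) .nil)) .nil))) (.cons (.rf (nat_lit 84) (nat_lit 12092254433)) (.cons (.br (nat_lit 13) (nat_lit 1) (.cons (.ev (nat_lit 20282410812595937064129407287553) (nat_lit 1)) (.cons (.ev (nat_lit 20282413239929418923363755098624)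 (nat_lit 2)) .nil))) .nil)))) .nil)))) (.cons (.ev (nat_lit 72058693566398721) (nat_lit 1)) (.cons (.br (nat_lit 8) (nat_lit 1) (.cons (.ev (nat_lit 1208944338416301217153024) (nat_lit 1)) (.cons (.br (nat_lit 10) (nat_lit 1) (.cons (.br (nat_lit 11) (nat_lit 1) (.cons (.zr (nat_lit 7253554918250733709033475) (nat_lit 79537666413551622936942674432) (nat_lit 15) (nat_lit 3)) (.cons (.ev (nat_lit 309489732187829037898400001) (nat_lit 1)) .nil))) (.cons (.rf (nat_lit 84) (nat_lit 14239738081)) (.cons (.br (nat_lit 11) (nat_lit 1) (.cons (.rf (nat_lit 4854) (nat_lit 458117738797769787424)) (.cons (.rf (nat_lit 4534) (nat_lit 14316179332025943264)) .nil))) .nil)))) (.cons (.br (nat_lit 10) (nat_lit 1) (.cons (.br (nat_lit 13) (nat_lit 1) (.cons (.zr (nat_lit 4835703279021475359621122) (nat_lit 20282409617837288683020027428864) (nat_lit 15) (nat_lit 3)) (.cons (.ev (nat_lit 20361637766184453564308071186688) (nat_lit 1)) .nil))) (.cons (.rf (nat_lit 84) (nat_lit 14239738081)) (.cons (.rf (nat_lit 84) (nat_lit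 13167044647)) .nil)))) .nil)))) .nil)))))),
 (.br (nat_lit 8) (nat_lit 1) (.cons (.rf (nat_lit 82) (nat_lit 12222531623)) (.cons (.rf (nat_lit 2594) (nat_lit 13256361287)) (.cons (.br (nat_lit 1) (nat_lit 1) (.cons (.br (nat_lit 11) (nat_lit 1) (.cons (.ev (nat_lit 79537652264971249774166605825) (nat_lit 1)) (.cons (.br (nat_lit 12) (nat_lit 1) (.cons (.ev (nat_lit 20837322270946285968803605185280) (nat_lit 3)) .nil)) .nil))) (.cons (.ev (nat_lit 72058693566398721) (nat_lit 1)) (.cons (.br (nat_lit 13) (nat_lit 1) (.cons (.zr (nat_lit 81129638447663247638826475717888) (nat_lit 1209128805860345487818755) (nat_lit 15) (nat_lit 9)) (.cons (.ev (nat_lit 20361638975091826433768302837761) (nat_lit 1)) .nil))) .nil)))) .nil))))]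

theorem c169 : chkAll C T R L169 (nat_lit 4827) = true := by decide +kernel

theorem l169 : (nat_lit 4827) + L169.length = (nat_lit 4862) := by decide +kernel

/-- part of the certificates -/
def L170 : List Prf := [(.br (nat_lit 8) (nat_lit 1) (.cons (.rf (nat_lit 1343) (nat_lit 388025821409)) (.cons (.rf (nat_lit 4861) (nat_lit 493858305440582043680)) (.cons (.rf (nat_lit 1339) (nat_lit 288883021895)) (.cons (.br (nat_lit 8) (nat_lit 1) (.cons (.rf (nat_lit 82) (nat_lit 14370015271)) (.cons (.rf (nat_lit 4861) (nat_lit 493858305440582043680)) (.cons (.rf (nat_lit 2594) (nat_lit 13323470151)) .nil)))) .nil))))),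
 (.br (nat_lit 11) (nat_lit 1) (.cons (.ev (nat_lit 79228162532711364241758617601) (nat_lit 1)) (.cons (.kr (nat_lit 1208925819614629174706177) (nat_lit 4722366482869645213952) (nat_lit 0) (nat_lit 2)) (.cons (.br (nat_lit 8) (nat_lit 1) (.cons (.rf (nat_lit 58) (nat_lit 8718375)) (.cons (.ev (nat_lit 79228162532711364241758617601) (nat_lit 1)) (.cons (.zr (nat_lit 4722367045828306011136) (nat_lit 20282409603670189234411091787778) (nat_lit 15) (nat_lit 3)) .nil)))) .nil)))),
 (.br (nat_lit 1) (nat_lit 1) (.cons (.rf (nat_lit 58) (nat_lit 8718375)) (.cons (.br (nat_lit 8) (nat_lit 1) (.cons (.ev (nat_lit 79537652264971249774166605825) (nat_lit 1)) (.cons (.br (nat_lit 11) (nat_lit 1) (.cons (.ev (nat_lit 159076508733395631307862704899) (nat_lit 2)) .nil)) .nil))) (.cons (.br (nat_lit 8) (nat_lit 1) (.cons (.br (nat_lit 11) (nat_lit 1) (.cons (.ev (nat_lit 159077717677517312985131057154) (nat_lit 2)) .nil)) (.cons (.ev (nat_lit 40564820416247751325096932868355) (nat_lit 2)) .nil))) .nil)))),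
 (.br (nat_lit 8) (nat_lit 1) (.cons (.ev (nat_lit 79228162532711364241758617601) (nat_lit 1)) (.cons (.rf (nat_lit 4864) (nat_lit 493858305440582043680)) (.cons (.br (nat_lit 1) (nat_lit 1) (.cons (.br (nat_lit 11) (nat_lit 1) (.cons (.zr (nat_lit 237684487542793012780632048384) (nat_lit 618974742009455585894858753) (nat_lit 5) (nat_lit 0)) .nil)) (.cons (.ev (nat_lit 79537647524158021735578337281) (nat_lit 1)) (.cons (.br (nat_lit 10) (nat_lit 1) (.cons (.zr (nat_lit 6044629098636104534327298) (nat_lit 79537661691185140067297460480) (nat_lit 15) (nat_lit 3)) .nil)) .nil)))) .nil)))),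
 (.br (nat_lit 12) (nat_lit 1) (.cons (.ev (nat_lit 72058693566398721) (nat_lit 1)) (.cons (.rf (nat_lit 4860) (nat_lit 493858305440582043680)) (.cons (.rf (nat_lit 4862) (nat_lit 493858305440582043680)) (.cons (.br (nat_lit 8) (nat_lit 1) (.cons (.rf (nat_lit 4863) (nat_lit 493858305440582043680)) (.cons (.rf (nat_lit 4864) (nat_lit 493858305440582043680)) (.cons (.rf (nat_lit 4865) (nat_lit 493858305440582043680)) (.cons (.br (nat_lit 8) (nat_lit 1) (.cons (.rf (nat_lit 4863) (nat_lit 493858305440582043680)) (.cons (.rf (nat_lit 4864) (nat_lit 493858305440582043680)) (.cons (.rf (nat_lit 4865) (nat_lit 493858305440582043680)) .nil)))) .nil))))) .nil))))),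
 (.br (nat_lit 12) (nat_lit 1) (.cons (.ev (nat_lit 72058693566398721) (nat_lit 1)) (.cons (.rf (nat_lit 4860) (nat_lit 493858305440582043680)) (.cons (.rf (nat_lit 4862) (nat_lit 493858305440582043680)) (.cons (.rf (nat_lit 4866) (nat_lit 493858305440582043680)) (.cons (.br (nat_lit 12) (nat_lit 1) (.cons (.ev (nat_lit 72058693566398721) (nat_lit 1)) (.cons (.rf (nat_lit 4860) (nat_lit 493858305440582043680)) (.cons (.rf (nat_lit 4862) (nat_lit 493858305440582043680)) (.cons (.rf (nat_lit 4866) (nat_lit 493858305440582043680)) .nil))))) .nil)))))),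
 (.br (nat_lit 7) (nat_lit 1) (.cons (.rf (nat_lit 4848) (nat_lit 493858305268783356960)) (.cons (.br (nat_lit 10) (nat_lit 1) (.cons (.rf (nat_lit 29) (nat_lit 8620353)) (.cons (.rf (nat_lit 58) (nat_lit 8723521)) (.cons (.ev (nat_lit 1213648258156192386318336) (nat_lit 1)) (.cons (.rf (nat_lit 4850) (nat_lit 493858305440582043680)) (.cons (.rf (nat_lit 4850) (nat_lit 458117738797769787424)) .nil)))))) (.cons (.rf (nat_lit 4848) (nat_lit 493739772417750965577)) (.cons (.br (nat_lit 8) (nat_lit 1) (.cons (.rf (nat_lit 4853) (nat_lit 493858305440582043680)) (.cons (.ev (nat_lit 1213648258156192386318336) (nat_lit 1)) (.cons (.rf (nat_lit 4856) (nat_lit 493858305440582043680)) (.cons (.rf (nat_lit 4859) (nat_lit 493858305440582043680)) (.cons (.rf (nat_lit 4859) (nat_lit 458117738797769787424)) .nil)))))) (.cons (.rf (nat_lit 4867) (nat_lit 493858305440582043680)) (.cons (.rf (nat_lit 4867) (nat_lit 458117738797769787424)) .nil))))))),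
 (.br (nat_lit 10) (nat_lit 1) (.cons (.ev (nat_lit 1223093063180625243144451) (nat_lit 2)) (.cons (.ev (nat_lit 1213648258156192386318336) (nat_lit 1)) (.cons (.rf (nat_lit 58) (nat_lit 12917825)) (.cons (.br (nat_lit 12) (nat_lit 1) (.cons (.ev (nat_lit 79229376162522775260906979585) (nat_lit 1)) (.cons (.kr (nat_lit 4722366764344621924352) (nat_lit 79229371440083952222718656512) (nat_lit 6) (nat_lit 0)) (.cons (.ev (nat_lit 79228162514336677762087059456) (nat_lit 1)) .nil)))) .nil))))),
 (.br (nat_lit 11) (nat_lit 1) (.cons (.kr (nat_lit 1208925819614629174706177) (nat_lit 4722366482869645213952) (nat_lit 0) (nat_lit 2)) (.cons (.br (nat_lit 10) (nat_lit 1) (.cons (.ev (nat_lit 310693954159762465175437313) (nat_lit 1)) (.cons (.zr (nat_lit 237684487543009185562745635584) (nat_lit 618974742009455585894858753) (nat_lit 5) (nat_lit 0)) (.cons (.zr (nat_lit 60847228810955011271841754055424) (nat_lit 618974742009455585894858753) (nat_lit 5) (nat_lit 0)) .nil)))) .nil))),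
 (.br (nat_lit 11) (nat_lit 1) (.cons (.kr (nat_lit 1208925819614629174706177) (nat_lit 4722366482869645213952) (nat_lit 0) (nat_lit 2)) (.cons (.rf (nat_lit 4870) (nat_lit 493858305440582043680)) (.cons (.rf (nat_lit 4870) (nat_lit 458117738625971100704)) .nil)))),
 (.br (nat_lit 11) (nat_lit 1) (.cons (.rf (nat_lit 4871) (nat_lit 493858305440582043680)) (.cons (.kr (nat_lit 1208925819614629174706177) (nat_lit 4722366482869645213952) (nat_lit 0) (nat_lit 2)) (.cons (.br (nat_lit 11) (nat_lit 1) (.cons (.rf (nat_lit 4871) (nat_lit 493858305440582043680)) (.cons (.kr (nat_lit 1208925819614629174706177) (nat_lit 4722366482869645213952) (nat_lit 0) (nat_lit 2)) .nil))) .nil)))),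
 (.br (nat_lit 11) (nat_lit 1) (.cons (.rf (nat_lit 4871) (nat_lit 493858305440582043680)) (.cons (.kr (nat_lit 1208925819614629174706177) (nat_lit 4722366482869645213952) (nat_lit 0) (nat_lit 2)) (.cons (.rf (nat_lit 4872) (nat_lit 493858305440582043680)) (.cons (.rf (nat_lit 4872) (nat_lit 458117738625971100704)) .nil))))),
 (.br (nat_lit 12) (nat_lit 1) (.cons (.rf (nat_lit 84) (nat_lit 14239991847)) (.cons (.br (nat_lit 1) (nat_lit 1) (.cons (.ev (nat_lit 318770792690820294204582790915) (nat_lit 3)) (.cons (.ev (nat_lit 79229371458530977775699951873) (nat_lit 1)) .nil))) (.cons (.ev (nat_lit 79228167255077846016170459136) (nat_lit 1)) .nil)))),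
 (.br (nat_lit 8) (nat_lit 1) (.cons (.rf (nat_lit 4873) (nat_lit 493858305440582043680)) (.cons (.rf (nat_lit 4874) (nat_lit 493858305440582043680)) (.cons (.rf (nat_lit 4874) (nat_lit 458117738625971100704)) .nil)))),
 (.br (nat_lit 8) (nat_lit 1) (.cons (.rf (nat_lit 84) (nat_lit 14369761319)) (.cons (.rf (nat_lit 4875) (nat_lit 493858305440582043680)) (.cons (.br (nat_lit 11) (nat_lit 1) (.cons (.br (nat_lit 11) (nat_lit 1) (.cons (.ev (nat_lit 79228167255077846016170459136) (nat_lit 1)) (.cons (.ev (nat_lit 20282409608392555989963915657216) (nat_lit 1)) .nil))) (.cons (.ev (nat_lit 79228167255077846016170459136) (nat_lit 1)) (.cons (.ev (nat_lit 20282409608392555989963915657216) (nat_lit 1)) .nil)))) .nil)))),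
 (.br (nat_lit 8) (nat_lit 1) (.cons (.rf (nat_lit 4873) (nat_lit 493858305440582043680)) (.cons (.rf (nat_lit 4875) (nat_lit 493858305440582043680)) (.cons (.rf (nat_lit 4876) (nat_lit 493858305440582043680)) (.cons (.rf (nat_lit 4876) (nat_lit 458117738625971100704)) .nil))))),
 (.br (nat_lit 8) (nat_lit 1) (.cons (.rf (nat_lit 4873) (nat_lit 493858305440582043680)) (.cons (.rf (nat_lit 4877) (nat_lit 493858305440582043680)) (.cons (.br (nat_lit 10) (nat_lit 1) (.cons (.br (nat_lit 11) (nat_lit 1) (.cons (.zr (nat_lit 237688114320468029450269753344) (nat_lit 4759260253595864399873) (nat_lit 5) (nat_lit 9)) (.cons (.zr (nat_lit 60847232437732470115729278173184) (nat_lit 4759260253595864399873) (nat_lit 5) (nat_lit 9)) .nil))) (.cons (.rf (nat_lit 4873) (nat_lit 493739772589549652297)) (.cons (.ev (nat_lit 79228167255077846016170459136) (nat_lit 1)) (.cons (.ev (nat_lit 20282409608392555989963915657216) (nat_lit 1)) .nil))))) .nil)))),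
 (.br (nat_lit 8) (nat_lit 1) (.cons (.rf (nat_lit 4873) (nat_lit 493858305440582043680)) (.cons (.rf (nat_lit 4877) (nat_lit 493858305440582043680)) (.cons (.rf (nat_lit 4878) (nat_lit 493858305440582043680)) (.cons (.rf (nat_lit 4878) (nat_lit 458117738625971100704)) .nil))))),
 (.br (nat_lit 8) (nat_lit 1) (.cons (.rf (nat_lit 4873) (nat_lit 493858305440582043680)) (.cons (.rf (nat_lit 4877) (nat_lit 493858305440582043680)) (.cons (.rf (nat_lit 4879) (nat_lit 493858305440582043680)) (.cons (.br (nat_lit 8) (nat_lit 1) (.cons (.rf (nat_lit 4873) (nat_lit 493858305440582043680)) (.cons (.rf (nat_lit 4877) (nat_lit 493858305440582043680)) (.cons (.rf (nat_lit 4879) (nat_lit 493858305440582043680)) .nil)))) .nil))))),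
 (.br (nat_lit 7) (nat_lit 1) (.cons (.rf (nat_lit 4848) (nat_lit 493858305268783356960)) (.cons (.rf (nat_lit 4868) (nat_lit 493858305268783356960)) (.cons (.rf (nat_lit 4848) (nat_lit 493739772417750965577)) (.cons (.rf (nat_lit 4868) (nat_lit 493739772417750965577)) (.cons (.br (nat_lit 1) (nat_lit 1) (.cons (.ev (nat_lit 72058693566398721) (nat_lit 1)) (.cons (.rf (nat_lit 29) (nat_lit 12814657)) (.cons (.rf (nat_lit 4869) (nat_lit 493858305440582043680)) (.cons (.rf (nat_lit 58) (nat_lit 12814378)) (.cons (.br (nat_lit 10) (nat_lit 1) (.cons (.rf (nat_lit 4869) (nat_lit 493739772589549652297)) (.cons (.ev (nat_lit 1213648258156192386318336) (nat_lit 1)) (.cons (.rf (nat_lit 58) (nat_lit 12917825)) (.cons (.rf (nat_lit 1343) (nat_lit 275321858082)) .nil))))) .nil)))))) (.cons (.br (nat_lit 8) (nat_lit 1) (.cons (.rf (nat_lit 4873) (nat_lit 493858305440582043680)) (.cons (.rf (nat_lit 4877) (nat_lit 493858305440582043680)) (.cons (.rf (nat_lit 4879) (nat_lit 493858305440582043680)) (.cons (.rf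 (nat_lit 4880) (nat_lit 493858305440582043680)) (.cons (.rf (nat_lit 4880) (nat_lit 458117738625971100704)) .nil)))))) .nil))))))),
 (.br (nat_lit 9) (nat_lit 1) (.cons (.br (nat_lit 6) (nat_lit 1) (.cons (.rf (nat_lit 4735) (nat_lit 407901468851537952)) (.cons (.rf (nat_lit 4829) (nat_lit 407901468851537952)) (.cons (.br (nat_lit 6) (nat_lit 1) (.cons (.rf (nat_lit 4735) (nat_lit 407901468851537952)) (.cons (.rf (nat_lit 4829) (nat_lit 407901468851537952)) (.cons (.br (nat_lit 3) (nat_lit 1) (.cons (.rf (nat_lit 4831) (nat_lit 493858305440582043680)) (.cons (.br (nat_lit 7) (nat_lit 0) (.cons (.br (nat_lit 10) (nat_lit 0) (.cons (.br (nat_lit 2) (nat_lit 1) (.cons (.rf (nat_lit 4848) (nat_lit 493858305440582043680)) (.cons (.kr (nat_lit 65536) (nat_lit 72057594037927936) (nat_lit 2) (nat_lit 0)) (.cons (.rf (nat_lit 4868) (nat_lit 493858305440582043680)) (.cons (.rf (nat_lit 4848) (nat_lit 493739772589549652297)) (.cons (.rf (nat_lit 4868) (nat_lit 493739772589549652297)) (.cons (.rf (nat_lit 4881)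 (nat_lit 493858305440582043680)) (.cons (.rf (nat_lit 4881) (nat_lit 458117738797769787424)) .nil)))))))) .nil)) (.cons (.rf (nat_lit 4831) (nat_lit 493858305440515000352)) .nil))) .nil))) .nil)))) .nil)))) .nil)),
 (.br (nat_lit 10) (nat_lit 1) (.cons (.br (nat_lit 11) (nat_lit 1) (.cons (.ev (nat_lit 20839176791561128903055096874244) (nat_lit 3)) .nil)) .nil)),
 (.br (nat_lit 8) (nat_lit 1) (.cons (.rf (nat_lit 1593) (nat_lit 388939132993)) (.cons (.rf (nat_lit 29) (nat_lit 8789057)) (.cons (.br (nat_lit 12) (nat_lit 1) (.cons (.rf (nat_lit 31) (nat_lit 344333377)) (.cons (.br (nat_lit 10) (nat_lit 1) (.cons (.rf (nat_lit 4883) (nat_lit 493858305440582043680)) (.cons (.br (nat_lit 10) (nat_lit 1) (.cons (.rf (nat_lit 4883) (nat_lit 493858305440582043680)) .nil)) .nil))) (.cons (.rf (nat_lit 31) (nat_lit 444996673)) .nil)))) .nil)))),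
 (.br (nat_lit 8) (nat_lit 1) (.cons (.rf (nat_lit 4884) (nat_lit 493858305440582043680)) (.cons (.rf (nat_lit 4884) (nat_lit 493823402543469922336)) (.cons (.rf (nat_lit 29) (nat_lit 8789057)) (.cons (.br (nat_lit 8) (nat_lit 1) (.cons (.rf (nat_lit 4884) (nat_lit 493858305440582043680)) (.cons (.rf (nat_lit 4884) (nat_lit 493823402543469922336)) (.cons (.rf (nat_lit 29) (nat_lit 8789057)) .nil)))) .nil))))),
 (.br (nat_lit 11) (nat_lit 1) (.cons (.rf (nat_lit 31) (nat_lit 309537857)) (.cons (.br (nat_lit 10) (nat_lit 1) (.cons (.ev (nat_lit 1213666632841576824504576) (nat_lit 1)) .nil)) (.cons (.rf (nat_lit 31) (nat_lit 412457025)) .nil)))),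
 (.br (nat_lit 10) (nat_lit 1) (.cons (.br (nat_lit 11) (nat_lit 1) (.cons (.zr (nat_lit 928455029464598156127961088) (nat_lit 4759259972120887689217) (nat_lit 5) (nat_lit 9)) (.cons (.br (nat_lit 12) (nat_lit 1) (.cons (.ev (nat_lit 79537652246452166635737317633) (nat_lit 1)) .nil)) .nil))) (.cons (.ev (nat_lit 1213666705181745367548160) (nat_lit 1)) (.cons (.rf (nat_lit 4886) (nat_lit 15433072044983552032)) .nil)))),
 (.br (nat_lit 10) (nat_lit 1) (.cons (.zr (nat_lit 3626777459406837477736448) (nat_lit 4759259972120887689217) (nat_lit 5) (nat_lit 9)) (.cons (.ev (nat_lit 20282410817318375324217642123265) (nat_lit 1)) .nil))),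
 (.br (nat_lit 8) (nat_lit 1) (.cons (.rf (nat_lit 1593) (nat_lit 388939132993)) (.cons (.rf (nat_lit 1593) (nat_lit 389106900033)) (.cons (.br (nat_lit 7) (nat_lit 1) (.cons (.rf (nat_lit 4887) (nat_lit 493858305440582043680)) (.cons (.rf (nat_lit 4887) (nat_lit 493823402543469922336)) (.cons (.rf (nat_lit 246) (nat_lit 387965131841)) (.cons (.br (nat_lit 12) (nat_lit 1) (.cons (.rf (nat_lit 4888) (nat_lit 493858305440582043680)) (.cons (.rf (nat_lit 4888) (nat_lit 493823402543469922336)) (.cons (.ev (nat_lit 79228167255149903610208321793) (nat_lit 1)) .nil)))) .nil))))) .nil)))),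
 (.br (nat_lit 11) (nat_lit 1) (.cons (.rf (nat_lit 4553) (nat_lit 492671606937728713792)) .nil)),
 (.br (nat_lit 8) (nat_lit 1) (.cons (.rf (nat_lit 29) (nat_lit 8789057)) (.cons (.rf (nat_lit 1593) (nat_lit 389106900033)) (.cons (.br (nat_lit 7) (nat_lit 1) (.cons (.ev (nat_lit 79228162532783421835796611328) (nat_lit 1)) (.cons (.br (nat_lit 10) (nat_lit 1) (.cons (.rf (nat_lit 4890) (nat_lit 493858305440582043680)) (.cons (.br (nat_lit 11) (nat_lit 1) (.cons (.rf (nat_lit 4890) (nat_lit 493858305440582043680)) (.cons (.ev (nat_lit 20361637766184453564308071186433) (nat_lit 1)) .nil))) .nil))) (.cons (.rf (nat_lit 31) (nat_lit 444837953)) .nil)))) .nil)))),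
 (.br (nat_lit 8) (nat_lit 1) (.cons (.rf (nat_lit 4885) (nat_lit 493858305440582043680)) (.cons (.rf (nat_lit 4889) (nat_lit 493858305440582043680)) (.cons (.rf (nat_lit 4891) (nat_lit 493858305440582043680)) (.cons (.br (nat_lit 8) (nat_lit 1) (.cons (.rf (nat_lit 4885) (nat_lit 493858305440582043680)) (.cons (.rf (nat_lit 4889) (nat_lit 493858305440582043680)) (.cons (.rf (nat_lit 4891) (nat_lit 493858305440582043680)) .nil)))) .nil)))))]

theorem c170 : chkAll C T R L170 (nat_lit 4862) = true := by decide +kernel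

theorem l170 : (nat_lit 4862) + L170.length = (nat_lit 4893) := by decide +kernel

/-- part of the certificates -/
def L171 : List Prf := [(.br (nat_lit 8) (nat_lit 1) (.cons (.rf (nat_lit 29) (nat_lit 8789057)) (.cons (.rf (nat_lit 4892) (nat_lit 493858305440582043680)) (.cons (.rf (nat_lit 4892) (nat_lit 493823402543469922336)) (.cons (.br (nat_lit 8) (nat_lit 1) (.cons (.rf (nat_lit 29) (nat_lit 8789057)) (.cons (.rf (nat_lit 4892) (nat_lit 493858305440582043680)) (.cons (.rf (nat_lit 4892) (nat_lit 493823402543469922336)) .nil)))) .nil))))),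
 (.br (nat_lit 8) (nat_lit 1) (.cons (.rf (nat_lit 1593) (nat_lit 388737806562)) (.cons (.rf (nat_lit 29) (nat_lit 8783074)) (.cons (.br (nat_lit 12) (nat_lit 1) (.cons (.rf (nat_lit 31) (nat_lit 344327394)) (.cons (.br (nat_lit 10) (nat_lit 1) (.cons (.br (nat_lit 10) (nat_lit 1) (.cons (.zr (nat_lit 237684487598349417783874289664) (nat_lit 2422574005994706794708993) (nat_lit 5) (nat_lit 0)) .nil)) (.cons (.br (nat_lit 10) (nat_lit 1) (.cons (.zr (nat_lit 237684487598349417783874289664) (nat_lit 2422574005994706794708993) (nat_lit 5) (nat_lit 0)) .nil)) .nil))) (.cons (.rf (nat_lit 31) (nat_lit 444990690)) .nil)))) .nil)))),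
 (.br (nat_lit 8) (nat_lit 1) (.cons (.rf (nat_lit 4894) (nat_lit 493858305440582043680)) (.cons (.rf (nat_lit 4894) (nat_lit 493823402543469922336)) (.cons (.rf (nat_lit 29) (nat_lit 8783074)) (.cons (.br (nat_lit 8) (nat_lit 1) (.cons (.rf (nat_lit 4894) (nat_lit 493858305440582043680)) (.cons (.rf (nat_lit 4894) (nat_lit 493823402543469922336)) (.cons (.rf (nat_lit 29) (nat_lit 8783074)) .nil)))) .nil))))),
 (.br (nat_lit 10) (nat_lit 1) (.cons (.br (nat_lit 12) (nat_lit 1) (.cons (.ev (nat_lit 79538861172271780161088717056) (nat_lit 1)) (.cons (.zr (nat_lit 237688114320468029450269753344) (nat_lit 4759260253595864399873) (nat_lit 5) (nat_lit 9)) .nil))) (.cons (.ev (nat_lit 1213666705181745367548160) (nat_lit 1)) (.cons (.br (nat_lit 12) (nat_lit 1) (.cons (.zr (nat_lit 237688114320468029450269753344) (nat_lit 4759260253595864399873) (nat_lit 5) (nat_lit 9)) (.cons (.ev (nat_lit 20361638979832639661806891106305) (nat_lit 1)) .nil))) .nil)))),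
 (.br (nat_lit 10) (nat_lit 1) (.cons (.br (nat_lit 11) (nat_lit 1) (.cons (.ev (nat_lit 309489732187829037898400001) (nat_lit 1)) .nil)) (.cons (.rf (nat_lit 31) (nat_lit 446738658)) .nil))),
 (.br (nat_lit 8) (nat_lit 1) (.cons (.rf (nat_lit 1593) (nat_lit 388737806562)) (.cons (.rf (nat_lit 1593) (nat_lit 389106894050)) (.cons (.br (nat_lit 1) (nat_lit 1) (.cons (.rf (nat_lit 4896) (nat_lit 493858305440582043680)) (.cons (.rf (nat_lit 4896) (nat_lit 493823402543469922336)) (.cons (.rf (nat_lit 246) (nat_lit 387964963201)) (.cons (.br (nat_lit 12) (nat_lit 1) (.cons (.rf (nat_lit 4897) (nat_lit 493858305440582043680)) (.cons (.rf (nat_lit 4897) (nat_lit 493823402543469922336)) (.cons (.ev (nat_lit 79228167255149903610208321793) (nat_lit 1)) .nil)))) .nil))))) .nil)))),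
 (.br (nat_lit 8) (nat_lit 1) (.cons (.rf (nat_lit 29) (nat_lit 8783074)) (.cons (.rf (nat_lit 1593) (nat_lit 389106894050)) (.cons (.br (nat_lit 1) (nat_lit 1) (.cons (.rf (nat_lit 31) (nat_lit 343978210)) (.cons (.br (nat_lit 11) (nat_lit 1) (.cons (.br (nat_lit 13) (nat_lit 1) (.cons (.ev (nat_lit 79229371458530696296428273921) (nat_lit 1)) (.cons (.rf (nat_lit 4211) (nat_lit 12750260301667392)) .nil))) (.cons (.rf (nat_lit 4211) (nat_lit 12750260301667392)) .nil))) (.cons (.rf (nat_lit 31) (nat_lit 444641506)) .nil)))) .nil)))),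
 (.br (nat_lit 8) (nat_lit 1) (.cons (.rf (nat_lit 4895) (nat_lit 493858305440582043680)) (.cons (.rf (nat_lit 4898) (nat_lit 493858305440582043680)) (.cons (.rf (nat_lit 4899) (nat_lit 493858305440582043680)) (.cons (.br (nat_lit 8) (nat_lit 1) (.cons (.rf (nat_lit 4895) (nat_lit 493858305440582043680)) (.cons (.rf (nat_lit 4898) (nat_lit 493858305440582043680)) (.cons (.rf (nat_lit 4899) (nat_lit 493858305440582043680)) .nil)))) .nil))))),
 (.br (nat_lit 8) (nat_lit 1) (.cons (.rf (nat_lit 29) (nat_lit 8783074)) (.cons (.rf (nat_lit 4899) (nat_lit 493858305440582043680)) (.cons (.rf (nat_lit 4899) (nat_lit 493823402543469922336)) (.cons (.br (nat_lit 8) (nat_lit 1) (.cons (.rf (nat_lit 29) (nat_lit 8783074)) (.cons (.rf (nat_lit 4899) (nat_lit 493858305440582043680)) (.cons (.rf (nat_lit 4899) (nat_lit 493823402543469922336)) .nil)))) .nil))))),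
 (.br (nat_lit 10) (nat_lit 1) (.cons (.br (nat_lit 12) (nat_lit 1) (.cons (.zr (nat_lit 3626777675016686817771520) (nat_lit 158456329787788928778657333249) (nat_lit 5) (nat_lit 9)) (.cons (.ev (nat_lit 20361638975091754657644946718721) (nat_lit 1)) .nil))) (.cons (.ev (nat_lit 1208925891953698189345024) (nat_lit 1)) (.cons (.br (nat_lit 8) (nat_lit 1) (.cons (.br (nat_lit 11) (nat_lit 1) (.cons (.ev (nat_lit 79538861172271780161088717056) (nat_lit 1)) .nil)) .nil)) .nil)))),
 (.br (nat_lit 13) (nat_lit 1) (.cons (.rf (nat_lit 4902) (nat_lit 493858305440582043680)) (.cons (.br (nat_lit 10) (nat_lit 1) (.cons (.zr (nat_lit 121694457621910024795513604672256) (nat_lit 316912654964251586140361981954) (nat_lit 35) (nat_lit 3)) (.cons (.kr (nat_lit 309485009821345073019748352) (nat_lit 79228167236630820463189164032) (nat_lit 4) (nat_lit 0)) .nil))) .nil))),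
 (.br (nat_lit 13) (nat_lit 1) (.cons (.rf (nat_lit 4902) (nat_lit 493858305440582043680)) (.cons (.rf (nat_lit 4903) (nat_lit 493858305440582043680)) (.cons (.br (nat_lit 13) (nat_lit 1) (.cons (.rf (nat_lit 4902) (nat_lit 493858305440582043680)) (.cons (.rf (nat_lit 4903) (nat_lit 493858305440582043680)) .nil))) .nil)))),
 (.br (nat_lit 13) (nat_lit 1) (.cons (.rf (nat_lit 4904) (nat_lit 493858305440582043680)) (.cons (.br (nat_lit 11) (nat_lit 1) (.cons (.zr (nat_lit 20678550416223352399885160743171) (nat_lit 1237949484018911171789717504) (nat_lit 10) (nat_lit 0)) (.cons (.ev (nat_lit 1208925891953698189345024) (nat_lit 1)) .nil))) .nil))),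
 (.br (nat_lit 13) (nat_lit 1) (.cons (.rf (nat_lit 4904) (nat_lit 493858305440582043680)) (.cons (.rf (nat_lit 4905) (nat_lit 493858305440582043680)) (.cons (.br (nat_lit 13) (nat_lit 1) (.cons (.rf (nat_lit 4904) (nat_lit 493858305440582043680)) (.cons (.rf (nat_lit 4905) (nat_lit 493858305440582043680)) .nil))) .nil)))),
 (.br (nat_lit 13) (nat_lit 1) (.cons (.rf (nat_lit 4904) (nat_lit 493858305440582043680)) (.cons (.rf (nat_lit 4906) (nat_lit 493858305440582043680)) (.cons (.br (nat_lit 13) (nat_lit 1) (.cons (.rf (nat_lit 4904) (nat_lit 493858305440582043680)) (.cons (.rf (nat_lit 4906) (nat_lit 493858305440582043680)) .nil))) .nil)))),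
 (.br (nat_lit 13) (nat_lit 1) (.cons (.rf (nat_lit 4904) (nat_lit 493858305440582043680)) (.cons (.rf (nat_lit 4906) (nat_lit 493858305440582043680)) (.cons (.rf (nat_lit 4907) (nat_lit 493858305440582043680)) (.cons (.br (nat_lit 13) (nat_lit 1) (.cons (.rf (nat_lit 4904) (nat_lit 493858305440582043680)) (.cons (.rf (nat_lit 4906) (nat_lit 493858305440582043680)) (.cons (.rf (nat_lit 4907) (nat_lit 493858305440582043680)) .nil)))) .nil))))),
 (.br (nat_lit 11) (nat_lit 1) (.cons (.rf (nat_lit 4908) (nat_lit 493858305440582043680)) (.cons (.br (nat_lit 7) (nat_lit 1) (.cons (.ev (nat_lit 309485028268089146729365761) (nat_lit 1)) (.cons (.ev (nat_lit 79538861172271780161088717056) (nat_lit 1)) (.cons (.br (nat_lit 8) (nat_lit 1) (.cons (.ev (nat_lit 79538856468424381533696098560) (nat_lit 1)) (.cons (.br (nat_lit 10) (nat_lit 1) (.cons (.ev (nat_lit 79850764052179098566167495171) (nat_lit 2)) .nil)) .nil))) .nil)))) (.cons (.br (nat_lit 8) (nat_lit 1) (.cons (.ev (nat_lit 309485028340428211448971521)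 (nat_lit 1)) (.cons (.br (nat_lit 7) (nat_lit 1) (.cons (.rf (nat_lit 31) (nat_lit 343968135)) (.cons (.br (nat_lit 12) (nat_lit 1) (.cons (.zr (nat_lit 3626777675016686817771520) (nat_lit 158456329787788928778657333249) (nat_lit 5) (nat_lit 9)) .nil)) .nil))) (.cons (.ev (nat_lit 79228167255077564536898781441) (nat_lit 1)) (.cons (.br (nat_lit 7) (nat_lit 1) (.cons (.zr (nat_lit 3626833015248899356491776) (nat_lit 618988909108904190535532545) (nat_lit 5) (nat_lit 0)) (.cons (.ev (nat_lit 79537652283562107936423739906) (nat_lit 2)) (.cons (.zr (nat_lit 60847228810955227444632457577216) (nat_lit 618974742010300006530023425) (nat_lit 5) (nat_lit 0)) .nil)))) .nil))))) .nil)))),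
 (.br (nat_lit 11) (nat_lit 1) (.cons (.rf (nat_lit 84) (nat_lit 11017466081)) (.cons (.rf (nat_lit 4909) (nat_lit 493858305440582043680)) (.cons (.br (nat_lit 7) (nat_lit 1) (.cons (.ev (nat_lit 309489732260168111208071425) (nat_lit 1)) (.cons (.br (nat_lit 8) (nat_lit 1) (.cons (.ev (nat_lit 1213666632842672057876736) (nat_lit 1)) (.cons (.br (nat_lit 10) (nat_lit 1) (.cons (.ev (nat_lit 310703399037125979931738625) (nat_lit 2)) .nil)) .nil))) (.cons (.br (nat_lit 8) (nat_lit 1) (.cons (.br (nat_lit 10) (nat_lit 1) (.cons (.zr (nat_lit 618974760456763704791400704) (nat_lit 316916276834660309458365710338) (nat_lit 5) (nat_lit 6)) .nil)) (.cons (.ev (nat_lit 20361947251194203132158206345216) (nat_lit 1)) .nil))) .nil)))) .nil)))),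
 (.br (nat_lit 11) (nat_lit 1) (.cons (.rf (nat_lit 4908) (nat_lit 493858305440582043680)) (.cons (.rf (nat_lit 4909) (nat_lit 493858305440582043680)) (.cons (.rf (nat_lit 4910) (nat_lit 493858305440582043680)) (.cons (.br (nat_lit 11) (nat_lit 1) (.cons (.rf (nat_lit 4908) (nat_lit 493858305440582043680)) (.cons (.rf (nat_lit 4909) (nat_lit 493858305440582043680)) (.cons (.rf (nat_lit 4910) (nat_lit 493858305440582043680)) .nil)))) .nil))))),
 (.br (nat_lit 11) (nat_lit 1) (.cons (.rf (nat_lit 84) (nat_lit 8937058530)) (.cons (.rf (nat_lit 4911) (nat_lit 493858305440582043680)) (.cons (.br (nat_lit 7) (nat_lit 1) (.cons (.br (nat_lit 8) (nat_lit 1) (.cons (.ev (nat_lit 1213666632842672057876736) (nat_lit 1)) (.cons (.br (nat_lit 10) (nat_lit 1) (.cons (.ev (nat_lit 20361645019720996848190837752069) (nat_lit 3)) .nil)) .nil))) (.cons (.ev (nat_lit 309489732260168111208071425) (nat_lit 1)) (.cons (.br (nat_lit 13) (nat_lit 1) (.cons (.zr (nat_lit 60847228810955371559829123367680) (nat_lit 618974742010862956483575809)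 (nat_lit 5) (nat_lit 0)) (.cons (.ev (nat_lit 20282720302309678147994067730433) (nat_lit 1)) .nil))) .nil)))) .nil)))),
 (.br (nat_lit 11) (nat_lit 1) (.cons (.rf (nat_lit 4908) (nat_lit 493858305440582043680)) (.cons (.rf (nat_lit 4911) (nat_lit 493858305440582043680)) (.cons (.rf (nat_lit 4912) (nat_lit 493858305440582043680)) (.cons (.br (nat_lit 11) (nat_lit 1) (.cons (.rf (nat_lit 4908) (nat_lit 493858305440582043680)) (.cons (.rf (nat_lit 4911) (nat_lit 493858305440582043680)) (.cons (.rf (nat_lit 4912) (nat_lit 493858305440582043680)) .nil)))) .nil))))),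
 (.br (nat_lit 11) (nat_lit 1) (.cons (.rf (nat_lit 4908) (nat_lit 493858305440582043680)) (.cons (.rf (nat_lit 4911) (nat_lit 493858305440582043680)) (.cons (.rf (nat_lit 4913) (nat_lit 493858305440582043680)) (.cons (.br (nat_lit 11) (nat_lit 1) (.cons (.rf (nat_lit 4908) (nat_lit 493858305440582043680)) (.cons (.rf (nat_lit 4911) (nat_lit 493858305440582043680)) (.cons (.rf (nat_lit 4913) (nat_lit 493858305440582043680)) .nil)))) .nil))))),
 (.br (nat_lit 11) (nat_lit 1) (.cons (.rf (nat_lit 4908) (nat_lit 493858305440582043680)) (.cons (.rf (nat_lit 4911) (nat_lit 493858305440582043680)) (.cons (.rf (nat_lit 4913) (nat_lit 493858305440582043680)) (.cons (.rf (nat_lit 4914) (nat_lit 493858305440582043680)) (.cons (.br (nat_lit 11) (nat_lit 1) (.cons (.rf (nat_lit 4908) (nat_lit 493858305440582043680)) (.cons (.rf (nat_lit 4911) (nat_lit 493858305440582043680)) (.cons (.rf (nat_lit 4913) (nat_lit 493858305440582043680)) (.cons (.rf (nat_lit 4914) (nat_lit 493858305440582043680)) .nil))))) .nil)))))),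
 (.br (nat_lit 10) (nat_lit 1) (.cons (.rf (nat_lit 2594) (nat_lit 8966713409)) (.cons (.rf (nat_lit 82) (nat_lit 12090159329)) (.cons (.br (nat_lit 13) (nat_lit 1) (.cons (.ev (nat_lit 1213666632842672057876736) (nat_lit 1)) (.cons (.br (nat_lit 8) (nat_lit 1) (.cons (.zr (nat_lit 3626833015248899356491776) (nat_lit 618988909108904190535532545) (nat_lit 5) (nat_lit 0)) (.cons (.rf (nat_lit 58) (nat_lit 8783911)) (.cons (.ev (nat_lit 1213666632842672057876736) (nat_lit 1)) .nil)))) (.cons (.kr (nat_lit 1208925819614633469673472) (nat_lit 79228167236630820463189164032) (nat_lit 4) (nat_lit 0)) .nil)))) .nil)))),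
 (.br (nat_lit 11) (nat_lit 1) (.cons (.zr (nat_lit 237684487598349417783874289664) (nat_lit 618974742009455585894858753) (nat_lit 5) (nat_lit 0)) .nil)),
 (.br (nat_lit 8) (nat_lit 1) (.cons (.rf (nat_lit 31) (nat_lit 344164737)) (.cons (.br (nat_lit 10) (nat_lit 1) (.cons (.rf (nat_lit 4917) (nat_lit 493858305440582043680)) (.cons (.br (nat_lit 10) (nat_lit 1) (.cons (.rf (nat_lit 4917) (nat_lit 493858305440582043680)) .nil)) .nil))) .nil))),
 (.br (nat_lit 11) (nat_lit 1) (.cons (.br (nat_lit 13) (nat_lit 1) (.cons (.br (nat_lit 10) (nat_lit 1) (.cons (.ev (nat_lit 1208944338697771898896641) (nat_lit 1)) .nil)) (.cons (.br (nat_lit 8) (nat_lit 1) (.cons (.ev (nat_lit 1208944338697771898896641) (nat_lit 1)) .nil)) .nil))) (.cons (.ev (nat_lit 309489732187829037898400001) (nat_lit 1)) .nil))),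
 (.br (nat_lit 11) (nat_lit 1) (.cons (.rf (nat_lit 4919) (nat_lit 493858305440582043680)) (.cons (.br (nat_lit 10) (nat_lit 1) (.cons (.br (nat_lit 10) (nat_lit 1) (.cons (.ev (nat_lit 79538856449977637459986546945) (nat_lit 1)) .nil)) (.cons (.br (nat_lit 8) (nat_lit 1) (.cons (.ev (nat_lit 79538856449977637459986546945) (nat_lit 1)) .nil)) .nil))) .nil))),
 (.br (nat_lit 11) (nat_lit 1) (.cons (.rf (nat_lit 4919) (nat_lit 493858305440582043680)) (.cons (.rf (nat_lit 4920) (nat_lit 493858305440582043680)) (.cons (.br (nat_lit 11) (nat_lit 1) (.cons (.ev (nat_lit 309489732187829037898400001) (nat_lit 1)) (.cons (.rf (nat_lit 4920) (nat_lit 493858305440582043680)) .nil))) .nil)))),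
 (.br (nat_lit 11) (nat_lit 1) (.cons (.rf (nat_lit 4921) (nat_lit 493858305440582043680)) (.cons (.br (nat_lit 10) (nat_lit 1) (.cons (.br (nat_lit 8) (nat_lit 1) (.cons (.ev (nat_lit 20837319871947218059166977426690) (nat_lit 3)) .nil)) (.cons (.ev (nat_lit 20282720302309678147994067730433) (nat_lit 1)) .nil))) .nil))),
 (.br (nat_lit 11) (nat_lit 1) (.cons (.rf (nat_lit 4921) (nat_lit 493858305440582043680)) (.cons (.rf (nat_lit 4922) (nat_lit 493858305440582043680)) (.cons (.br (nat_lit 11) (nat_lit 1) (.cons (.ev (nat_lit 309489732187829037898400001) (nat_lit 1)) (.cons (.rf (nat_lit 4922) (nat_lit 493858305440582043680)) .nil))) .nil))))]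

theorem c171 : chkAll C T R L171 (nat_lit 4893) = true := by decide +kernel

theorem l171 : (nat_lit 4893) + L171.length = (nat_lit 4924) := by decide +kernel

/-- part of the certificates -/
def L172 : List Prf := [(.br (nat_lit 11) (nat_lit 1) (.cons (.rf (nat_lit 4921) (nat_lit 493858305440582043680)) (.cons (.rf (nat_lit 4923) (nat_lit 493858305440582043680)) (.cons (.br (nat_lit 11) (nat_lit 1) (.cons (.rf (nat_lit 4921) (nat_lit 493858305440582043680)) (.cons (.rf (nat_lit 4923) (nat_lit 493858305440582043680)) .nil))) .nil)))),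
 (.br (nat_lit 1) (nat_lit 1) (.cons (.br (nat_lit 10) (nat_lit 1) (.cons (.rf (nat_lit 1339) (nat_lit 357967141089)) (.cons (.rf (nat_lit 4916) (nat_lit 493858305440582043680)) (.cons (.rf (nat_lit 1343) (nat_lit 387958714593)) (.cons (.br (nat_lit 10) (nat_lit 1) (.cons (.rf (nat_lit 2594) (nat_lit 9033822273)) (.cons (.rf (nat_lit 4916) (nat_lit 493858305440582043680)) (.cons (.rf (nat_lit 82) (nat_lit 14237642977)) .nil)))) .nil))))) (.cons (.rf (nat_lit 4915) (nat_lit 493858305440582043680)) (.cons (.rf (nat_lit 4915) (nat_lit 493823402543469922336)) (.cons (.br (nat_lit 8) (nat_lit 1) (.cons (.rf (nat_lit 31) (nat_lit 344164737)) (.cons (.rf (nat_lit 4918) (nat_lit 493858305440582043680)) (.cons (.br (nat_lit 8) (nat_lit 1) (.cons (.ev (nat_lit 79228162532783421835796611328) (nat_lit 1)) (.cons (.rf (nat_lit 4918) (nat_lit 493858305440582043680)) .nil))) .nil)))) (.cons (.br (nat_lit 11) (nat_lit 1) (.cons (.rf (nat_lit 4921) (nat_lit 493858305440582043680)) (.cons (.rf (nat_lit 4923) (nat_lit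 493858305440582043680)) (.cons (.rf (nat_lit 4924) (nat_lit 493858305440582043680)) (.cons (.br (nat_lit 11) (nat_lit 1) (.cons (.rf (nat_lit 4921) (nat_lit 493858305440582043680)) (.cons (.rf (nat_lit 4923) (nat_lit 493858305440582043680)) (.cons (.rf (nat_lit 4924) (nat_lit 493858305440582043680)) .nil)))) .nil))))) .nil)))))),
 (.br (nat_lit 11) (nat_lit 1) (.cons (.ev (nat_lit 309489732187829037898400001) (nat_lit 1)) .nil)),
 (.br (nat_lit 1) (nat_lit 1) (.cons (.rf (nat_lit 31) (nat_lit 344328417)) (.cons (.ev (nat_lit 79228162532711082771076874496) (nat_lit 1)) (.cons (.rf (nat_lit 4915) (nat_lit 493823402543469922336)) (.cons (.br (nat_lit 7) (nat_lit 1) (.cons (.ev (nat_lit 1213648258437671657996545) (nat_lit 1)) (.cons (.rf (nat_lit 4925) (nat_lit 493823402543469922336)) (.cons (.br (nat_lit 8) (nat_lit 1) (.cons (.rf (nat_lit 4926) (nat_lit 493858305440582043680)) (.cons (.rf (nat_lit 84) (nat_lit 11019557932)) .nil))) .nil)))) .nil))))),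
 (.br (nat_lit 11) (nat_lit 1) (.cons (.rf (nat_lit 4915) (nat_lit 493823402543469922336)) (.cons (.rf (nat_lit 4925) (nat_lit 493823402543469922336)) (.cons (.rf (nat_lit 4927) (nat_lit 493823402543469922336)) (.cons (.br (nat_lit 1) (nat_lit 1) (.cons (.br (nat_lit 8) (nat_lit 1) (.cons (.zr (nat_lit 237684487598349417783874289664) (nat_lit 2422574005994706794708993) (nat_lit 5) (nat_lit 0)) .nil)) (.cons (.zr (nat_lit 238612942627597843157888466944) (nat_lit 6049351464557132227018753) (nat_lit 5) (nat_lit 0)) (.cons (.ev (nat_lit 1213648186098598348325121) (nat_lit 1)) .nil)))) .nil))))),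
 (.br (nat_lit 10) (nat_lit 1) (.cons (.rf (nat_lit 4915) (nat_lit 493858305440582043680)) (.cons (.rf (nat_lit 4925) (nat_lit 493858305440582043680)) (.cons (.rf (nat_lit 4927) (nat_lit 493858305440582043680)) (.cons (.br (nat_lit 11) (nat_lit 1) (.cons (.rf (nat_lit 4915) (nat_lit 493823402543469922336)) (.cons (.rf (nat_lit 4925) (nat_lit 493823402543469922336)) (.cons (.br (nat_lit 1) (nat_lit 1) (.cons (.rf (nat_lit 1593) (nat_lit 388771360993)) (.cons (.rf (nat_lit 4915) (nat_lit 493823402543469922336)) (.cons (.rf (nat_lit 1593) (nat_lit 388771356033)) (.cons (.ev (nat_lit 1213648186098598348325121) (nat_lit 1)) .nil))))) (.cons (.rf (nat_lit 4928) (nat_lit 493858305440582043680)) (.cons (.br (nat_lit 11) (nat_lit 1) (.cons (.rf (nat_lit 4915) (nat_lit 493823402543469922336)) (.cons (.rf (nat_lit 4925) (nat_lit 493823402543469922336)) (.cons (.kr (nat_lit 1208925819614629174706176) (nat_lit 309485009821345068724781056) (nat_lit 10) (nat_lit 0)) (.cons (.rf (nat_lit 4928) (nat_lit 493858305440582043680))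 .nil))))) .nil)))))) .nil))))),
 (.br (nat_lit 1) (nat_lit 1) (.cons (.rf (nat_lit 31) (nat_lit 344328417)) (.cons (.ev (nat_lit 79228162532711082771076874496) (nat_lit 1)) (.cons (.ev (nat_lit 1208925819614633469739264) (nat_lit 1)) (.cons (.rf (nat_lit 4915) (nat_lit 493823402543469922336)) (.cons (.br (nat_lit 7) (nat_lit 1) (.cons (.rf (nat_lit 84) (nat_lit 14302977089)) (.cons (.rf (nat_lit 84) (nat_lit 14237642977)) (.cons (.rf (nat_lit 4925) (nat_lit 493823402543469922336)) (.cons (.br (nat_lit 10) (nat_lit 1) (.cons (.rf (nat_lit 4929) (nat_lit 493858305440582043680)) (.cons (.rf (nat_lit 84) (nat_lit 8939510818)) .nil))) .nil))))) .nil)))))),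
 (.br (nat_lit 10) (nat_lit 1) (.cons (.rf (nat_lit 4915) (nat_lit 493858305440582043680)) (.cons (.rf (nat_lit 4925) (nat_lit 493858305440582043680)) (.cons (.rf (nat_lit 4929) (nat_lit 493858305440582043680)) (.cons (.rf (nat_lit 4930) (nat_lit 493858305440582043680)) (.cons (.br (nat_lit 10) (nat_lit 1) (.cons (.rf (nat_lit 4915) (nat_lit 493858305440582043680)) (.cons (.rf (nat_lit 4925) (nat_lit 493858305440582043680)) (.cons (.rf (nat_lit 4929) (nat_lit 493858305440582043680)) (.cons (.rf (nat_lit 4930) (nat_lit 493858305440582043680)) .nil))))) .nil)))))),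
 (.br (nat_lit 11) (nat_lit 1) (.cons (.rf (nat_lit 4915) (nat_lit 493823402543469922336)) (.cons (.rf (nat_lit 4925) (nat_lit 493823402543469922336)) (.cons (.rf (nat_lit 4931) (nat_lit 493823402543469922336)) (.cons (.br (nat_lit 11) (nat_lit 1) (.cons (.rf (nat_lit 4915) (nat_lit 493823402543469922336)) (.cons (.rf (nat_lit 4925) (nat_lit 493823402543469922336)) (.cons (.rf (nat_lit 4931) (nat_lit 493823402543469922336)) .nil)))) .nil))))),
 (.br (nat_lit 10) (nat_lit 1) (.cons (.rf (nat_lit 4915) (nat_lit 493858305440582043680)) (.cons (.rf (nat_lit 4925) (nat_lit 493858305440582043680)) (.cons (.rf (nat_lit 4931) (nat_lit 493858305440582043680)) (.cons (.rf (nat_lit 4932) (nat_lit 493858305440582043680)) (.cons (.br (nat_lit 10) (nat_lit 1) (.cons (.rf (nat_lit 4915) (nat_lit 493858305440582043680)) (.cons (.rf (nat_lit 4925) (nat_lit 493858305440582043680)) (.cons (.rf (nat_lit 4931) (nat_lit 493858305440582043680)) (.cons (.rf (nat_lit 4932) (nat_lit 493858305440582043680)) .nil))))) .nil)))))),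
 (.br (nat_lit 11) (nat_lit 1) (.cons (.rf (nat_lit 4915) (nat_lit 493823402543469922336)) (.cons (.rf (nat_lit 4925) (nat_lit 493823402543469922336)) (.cons (.rf (nat_lit 4931) (nat_lit 493823402543469922336)) (.cons (.rf (nat_lit 4933) (nat_lit 493858305440582043680)) (.cons (.br (nat_lit 11) (nat_lit 1) (.cons (.rf (nat_lit 4915) (nat_lit 493823402543469922336)) (.cons (.rf (nat_lit 4925) (nat_lit 493823402543469922336)) (.cons (.rf (nat_lit 4931) (nat_lit 493823402543469922336)) (.cons (.rf (nat_lit 4933) (nat_lit 493858305440582043680)) .nil))))) .nil)))))),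
 (.br (nat_lit 10) (nat_lit 1) (.cons (.rf (nat_lit 2594) (nat_lit 8961470689)) (.cons (.rf (nat_lit 82) (nat_lit 12090323009)) (.cons (.br (nat_lit 13) (nat_lit 1) (.cons (.ev (nat_lit 1213666632842672057876736) (nat_lit 1)) (.cons (.br (nat_lit 13) (nat_lit 1) (.cons (.ev (nat_lit 1213666632842672057876736) (nat_lit 1)) (.cons (.ev (nat_lit 79229376162450436196187242753) (nat_lit 1)) .nil))) (.cons (.ev (nat_lit 79229376162450436196187242753) (nat_lit 1)) .nil)))) .nil)))),
 (.br (nat_lit 8) (nat_lit 1) (.cons (.ev (nat_lit 1213666632842672057876736) (nat_lit 1)) .nil)),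
 (.br (nat_lit 12) (nat_lit 1) (.cons (.rf (nat_lit 4507) (nat_lit 492671606937728713792)) (.cons (.rf (nat_lit 84) (nat_lit 8937091297)) (.cons (.ev (nat_lit 79229376162450436196187242753) (nat_lit 1)) .nil)))),
 (.br (nat_lit 10) (nat_lit 1) (.cons (.br (nat_lit 12) (nat_lit 1) (.cons (.zr (nat_lit 55556405020422307840) (nat_lit 158458747602534669889587642369) (nat_lit 5) (nat_lit 0)) (.cons (.ev (nat_lit 20282410817299928580143932571648) (nat_lit 1)) .nil))) (.cons (.rf (nat_lit 4937) (nat_lit 493858305440582043680)) (.cons (.ev (nat_lit 79229376162522775260906979585) (nat_lit 1)) .nil)))),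
 (.br (nat_lit 13) (nat_lit 1) (.cons (.rf (nat_lit 4938) (nat_lit 493858305440582043680)) (.cons (.br (nat_lit 13) (nat_lit 1) (.cons (.rf (nat_lit 4938) (nat_lit 493858305440582043680)) (.cons (.zr (nat_lit 4722367045832600978432) (nat_lit 20361637766165934770336888324099) (nat_lit 15) (nat_lit 3)) .nil))) (.cons (.br (nat_lit 13) (nat_lit 1) (.cons (.rf (nat_lit 4938) (nat_lit 493858305440582043680)) (.cons (.zr (nat_lit 4722367045832600978432) (nat_lit 20361637766165934770336888324099) (nat_lit 15) (nat_lit 3)) .nil))) .nil)))),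
 (.br (nat_lit 10) (nat_lit 1) (.cons (.br (nat_lit 8) (nat_lit 1) (.cons (.br (nat_lit 12) (nat_lit 1) (.cons (.ev (nat_lit 310693935713299870737563905) (nat_lit 1)) (.cons (.zr (nat_lit 9444733528697951225088) (nat_lit 79229371458602762686559158275) (nat_lit 15) (nat_lit 3)) .nil))) (.cons (.rf (nat_lit 84) (nat_lit 12155170855)) (.cons (.rf (nat_lit 4939) (nat_lit 493858305440582043680)) .nil)))) (.cons (.rf (nat_lit 4937) (nat_lit 493858305440582043680)) (.cons (.ev (nat_lit 79229376162522775260906979585) (nat_lit 1)) .nil)))),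
 (.br (nat_lit 13) (nat_lit 1) (.cons (.rf (nat_lit 4939) (nat_lit 493858305440582043680)) (.cons (.rf (nat_lit 4940) (nat_lit 493858305440582043680)) (.cons (.br (nat_lit 13) (nat_lit 1) (.cons (.zr (nat_lit 4722367045832600978432) (nat_lit 20361637766165934770336888324099) (nat_lit 15) (nat_lit 3)) (.cons (.rf (nat_lit 4940) (nat_lit 493858305440582043680)) .nil))) .nil)))),
 (.br (nat_lit 12) (nat_lit 1) (.cons (.rf (nat_lit 4604) (nat_lit 445199173022780642)) (.cons (.ev (nat_lit 79229376162522775260906979585) (nat_lit 1)) (.cons (.br (nat_lit 13) (nat_lit 1) (.cons (.zr (nat_lit 9444733247222974514432) (nat_lit 309485028268097938527420419) (nat_lit 15) (nat_lit 3)) (.cons (.zr (nat_lit 14167099730096914695424) (nat_lit 79538856449905306087536525316) (nat_lit 15) (nat_lit 3)) .nil))) (.cons (.rf (nat_lit 4604) (nat_lit 445023256732372002)) .nil))))),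
 (.br (nat_lit 11) (nat_lit 1) (.cons (.rf (nat_lit 4942) (nat_lit 493858305440582043680)) (.cons (.br (nat_lit 10) (nat_lit 1) (.cons (.zr (nat_lit 55700520208498163712) (nat_lit 618974742010018531553443841) (nat_lit 5) (nat_lit 0)) (.cons (.zr (nat_lit 60847228810955371559829123367680) (nat_lit 618974742010862956483575809) (nat_lit 5) (nat_lit 0)) .nil))) .nil))),
 (.br (nat_lit 11) (nat_lit 1) (.cons (.rf (nat_lit 4942) (nat_lit 493858305440582043680)) (.cons (.rf (nat_lit 4943) (nat_lit 493858305440582043680)) (.cons (.br (nat_lit 11) (nat_lit 1) (.cons (.rf (nat_lit 4942) (nat_lit 493858305440582043680)) (.cons (.rf (nat_lit 4943) (nat_lit 493858305440582043680)) .nil))) .nil)))),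
 (.br (nat_lit 12) (nat_lit 1) (.cons (.rf (nat_lit 4604) (nat_lit 445199173022780642)) (.cons (.ev (nat_lit 79229376162522775260906979585) (nat_lit 1)) (.cons (.br (nat_lit 11) (nat_lit 1) (.cons (.rf (nat_lit 4944) (nat_lit 493858305440582043680)) (.cons (.br (nat_lit 8) (nat_lit 1) (.cons (.zr (nat_lit 14167099730096914695424) (nat_lit 79538856449905306087536525316) (nat_lit 15) (nat_lit 3)) (.cons (.zr (nat_lit 9444733528697951224832) (nat_lit 20282719088661491777812069154819) (nat_lit 15) (nat_lit 3)) .nil))) .nil))) (.cons (.rf (nat_lit 4604) (nat_lit 445023256732372002)) .nil))))),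
 (.br (nat_lit 11) (nat_lit 1) (.cons (.rf (nat_lit 4944) (nat_lit 493858305440582043680)) (.cons (.rf (nat_lit 4945) (nat_lit 493858305440582043680)) (.cons (.br (nat_lit 11) (nat_lit 1) (.cons (.rf (nat_lit 4944) (nat_lit 493858305440582043680)) (.cons (.rf (nat_lit 4945) (nat_lit 493858305440582043680)) .nil))) .nil)))),
 (.br (nat_lit 7) (nat_lit 1) (.cons (.br (nat_lit 10) (nat_lit 1) (.cons (.rf (nat_lit 1339) (nat_lit 357967304769)) (.cons (.rf (nat_lit 4935) (nat_lit 493858305440582043680)) (.cons (.rf (nat_lit 1343) (nat_lit 387963957313)) (.cons (.br (nat_lit 10) (nat_lit 1) (.cons (.rf (nat_lit 2594) (nat_lit 9028579553)) (.cons (.rf (nat_lit 4935) (nat_lit 493858305440582043680)) (.cons (.rf (nat_lit 82) (nat_lit 14237806657)) .nil)))) .nil))))) (.cons (.br (nat_lit 10) (nat_lit 1) (.cons (.rf (nat_lit 1339) (nat_lit 289249925154)) (.cons (.kr (nat_lit 4722366482869645213696) (nat_lit 1208925819614629174706176) (nat_lit 9) (nat_lit 0)) (.cons (.rf (nat_lit 58) (nat_lit 10886209)) (.cons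 (.br (nat_lit 12) (nat_lit 1) (.cons (.rf (nat_lit 82) (nat_lit 14237965377)) (.cons (.br (nat_lit 8) (nat_lit 1) (.cons (.rf (nat_lit 4936) (nat_lit 493858305440582043680)) (.cons (.br (nat_lit 8) (nat_lit 1) (.cons (.ev (nat_lit 1213666632842672057876736) (nat_lit 1)) .nil)) .nil))) (.cons (.rf (nat_lit 84) (nat_lit 9037028417)) .nil)))) .nil))))) (.cons (.br (nat_lit 13) (nat_lit 1) (.cons (.rf (nat_lit 4939) (nat_lit 493858305440582043680)) (.cons (.rf (nat_lit 4940) (nat_lit 493858305440582043680)) (.cons (.rf (nat_lit 4941) (nat_lit 493858305440582043680)) (.cons (.br (nat_lit 13) (nat_lit 1) (.cons (.rf (nat_lit 4939) (nat_lit 493858305440582043680)) (.cons (.rf (nat_lit 4940) (nat_lit 493858305440582043680)) (.cons (.rf (nat_lit 4941) (nat_lit 493858305440582043680)) .nil)))) .nil))))) (.cons (.ev (nat_lit 79228162514264338697367322881) (nat_lit 1)) (.cons (.br (nat_lit 11) (nat_lit 1) (.cons (.rf (nat_lit 4944) (nat_lit 493858305440582043680)) (.cons (.rf (nat_lit 4945) (nat_lit 493858305440582043680))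 (.cons (.rf (nat_lit 4946) (nat_lit 493858305440582043680)) (.cons (.br (nat_lit 11) (nat_lit 1) (.cons (.rf (nat_lit 4944) (nat_lit 493858305440582043680)) (.cons (.rf (nat_lit 4945) (nat_lit 493858305440582043680)) (.cons (.rf (nat_lit 4946) (nat_lit 493858305440582043680)) .nil)))) .nil))))) .nil)))))),
 (.br (nat_lit 1) (nat_lit 1) (.cons (.rf (nat_lit 1339) (nat_lit 357967304769)) (.cons (.rf (nat_lit 1339) (nat_lit 289249761505)) (.cons (.br (nat_lit 8) (nat_lit 1) (.cons (.br (nat_lit 13) (nat_lit 1) (.cons (.ev (nat_lit 1208944338697771898896641) (nat_lit 1)) (.cons (.ev (nat_lit 309485009893684137739419904) (nat_lit 1)) (.cons (.ev (nat_lit 79228167292188073194241916930) (nat_lit 2)) .nil)))) (.cons (.rf (nat_lit 84) (nat_lit 12155171041)) (.cons (.br (nat_lit 10) (nat_lit 1) (.cons (.ev (nat_lit 1208944338697771898896641) (nat_lit 1)) (.cons (.rf (nat_lit 84) (nat_lit 12090323009)) (.cons (.br (nat_lit 12) (nat_lit 1) (.cons (.br (nat_lit 11) (nat_lit 1) (.cons (.ev (nat_lit 20839181598819670424068005757188)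 (nat_lit 3)) .nil)) (.cons (.ev (nat_lit 79229376162450436196187242753) (nat_lit 1)) .nil))) .nil)))) .nil)))) (.cons (.rf (nat_lit 31) (nat_lit 344006017)) (.cons (.br (nat_lit 8) (nat_lit 1) (.cons (.br (nat_lit 10) (nat_lit 1) (.cons (.ev (nat_lit 1208944338697771898896641) (nat_lit 1)) (.cons (.rf (nat_lit 84) (nat_lit 14237806657)) (.cons (.br (nat_lit 12) (nat_lit 1) (.cons (.ev (nat_lit 79229376162450436196187242753) (nat_lit 1)) (.cons (.ev (nat_lit 79228167292188073194241916930) (nat_lit 2)) .nil))) .nil)))) (.cons (.rf (nat_lit 84) (nat_lit 14302654689)) (.cons (.br (nat_lit 10) (nat_lit 1) (.cons (.br (nat_lit 12) (nat_lit 1) (.cons (.br (nat_lit 11) (nat_lit 1) (.cons (.zr (nat_lit 2460445531583462732990976) (nat_lit 240160367621365753550872248332) (nat_lit 20) (nat_lit 3)) .nil)) (.cons (.ev (nat_lit 79229376162450436196187242753) (nat_lit 1)) .nil))) (.cons (.rf (nat_lit 84) (nat_lit 14237806657)) (.cons (.ev (nat_lit 1208944338697771898896641) (nat_lit 1)) .nil)))) .nil)))) .nil))))))]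

theorem c172 : chkAll C T R L172 (nat_lit 4924) = true := by decide +kernel

theorem l172 : (nat_lit 4924) + L172.length = (nat_lit 4949) := by decide +kernel

/-- part of the certificates -/
def L173 : List Prf := [(.br (nat_lit 10) (nat_lit 1) (.cons (.br (nat_lit 11) (nat_lit 1) (.cons (.zr (nat_lit 396451506506963773565576478723) (nat_lit 14240886432608945176576) (nat_lit 10) (nat_lit 3)) (.cons (.rf (nat_lit 3292) (nat_lit 384329741948874328288)) .nil))) (.cons (.ev (nat_lit 1213666705181745367548160) (nat_lit 1)) (.cons (.br (nat_lit 12) (nat_lit 1) (.cons (.br (nat_lit 11) (nat_lit 1) (.cons (.ev (nat_lit 20837013994806582873760691388677) (nat_lit 3)) .nil)) (.cons (.ev (nat_lit 20361638979832639661806891106305) (nat_lit 1)) .nil))) .nil)))),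
 (.br (nat_lit 12) (nat_lit 1) (.cons (.ev (nat_lit 4722438540467978174721) (nat_lit 1)) (.cons (.rf (nat_lit 2994) (nat_lit 11971987520826214592)) .nil))),
 (.br (nat_lit 10) (nat_lit 1) (.cons (.rf (nat_lit 4949) (nat_lit 493858305440582043680)) (.cons (.rf (nat_lit 4950) (nat_lit 15433072044983552032)) (.cons (.br (nat_lit 12) (nat_lit 1) (.cons (.ev (nat_lit 1208944266358707179290881) (nat_lit 1)) (.cons (.zr (nat_lit 475679669021228111159120429060) (nat_lit 14259333176686949695488) (nat_lit 10) (nat_lit 3)) (.cons (.ev (nat_lit 20282410817299928580143932571648) (nat_lit 1)) .nil)))) .nil)))),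
 (.br (nat_lit 9) (nat_lit 1) (.cons (.ev (nat_lit 309489732187827938370060544) (nat_lit 1)) (.cons (.rf (nat_lit 4950) (nat_lit 14242959524133701664)) (.cons (.rf (nat_lit 4950) (nat_lit 11939368314733692960)) .nil)))),
 (.br (nat_lit 8) (nat_lit 1) (.cons (.rf (nat_lit 4947) (nat_lit 493858305440582043680)) (.cons (.rf (nat_lit 4948) (nat_lit 493858305440582043680)) (.cons (.br (nat_lit 1) (nat_lit 1) (.cons (.rf (nat_lit 82) (nat_lit 12155171041)) (.cons (.rf (nat_lit 84) (nat_lit 11114950882)) (.cons (.br (nat_lit 10) (nat_lit 1) (.cons (.rf (nat_lit 4604) (nat_lit 445199173224107042)) (.cons (.rf (nat_lit 3597) (nat_lit 12751358745839648)) .nil))) .nil)))) (.cons (.br (nat_lit 10) (nat_lit 1) (.cons (.rf (nat_lit 4949) (nat_lit 493858305440582043680)) (.cons (.rf (nat_lit 4951) (nat_lit 493858305440582043680)) (.cons (.rf (nat_lit 4952) (nat_lit 15433072044983552032)) (.cons (.br (nat_lit 10) (nat_lit 1) (.cons (.rf (nat_lit 4949) (nat_lit 493858305440582043680)) (.cons (.rf (nat_lit 4951)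 (nat_lit 493858305440582043680)) (.cons (.rf (nat_lit 4950) (nat_lit 13129480835583543328)) .nil)))) .nil))))) .nil))))),
 (.br (nat_lit 9) (nat_lit 1) (.cons (.rf (nat_lit 4794) (nat_lit 11972089780776306720)) (.cons (.br (nat_lit 9) (nat_lit 1) (.cons (.ev (nat_lit 4722438540467978174721) (nat_lit 1)) .nil)) .nil))),
 (.br (nat_lit 8) (nat_lit 1) (.cons (.rf (nat_lit 58) (nat_lit 8789026)) (.cons (.rf (nat_lit 1339) (nat_lit 357598369863)) (.cons (.rf (nat_lit 4953) (nat_lit 493858305440582043680)) (.cons (.br (nat_lit 1) (nat_lit 1) (.cons (.rf (nat_lit 82) (nat_lit 14302654689)) (.cons (.rf (nat_lit 4954) (nat_lit 15433072044983552032)) (.cons (.rf (nat_lit 84) (nat_lit 11182059746)) .nil)))) .nil))))),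
 (.br (nat_lit 8) (nat_lit 1) (.cons (.rf (nat_lit 4947) (nat_lit 493858305440582043680)) (.cons (.rf (nat_lit 4948) (nat_lit 493858305440582043680)) (.cons (.rf (nat_lit 4953) (nat_lit 493858305440582043680)) (.cons (.rf (nat_lit 4955) (nat_lit 493858305440582043680)) (.cons (.br (nat_lit 8) (nat_lit 1) (.cons (.rf (nat_lit 4947) (nat_lit 493858305440582043680)) (.cons (.rf (nat_lit 4948) (nat_lit 493858305440582043680)) (.cons (.rf (nat_lit 4953) (nat_lit 493858305440582043680)) (.cons (.rf (nat_lit 4955) (nat_lit 493858305440582043680)) .nil))))) .nil)))))),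
 (.br (nat_lit 11) (nat_lit 1) (.cons (.ev (nat_lit 4740885566012369404161) (nat_lit 1)) (.cons (.br (nat_lit 7) (nat_lit 1) (.cons (.ev (nat_lit 79537652264971249774166606080) (nat_lit 1)) (.cons (.zr (nat_lit 928455029680207996878061568) (nat_lit 4759260253591569432577) (nat_lit 5) (nat_lit 9)) .nil))) (.cons (.zr (nat_lit 928455029464598156127961088) (nat_lit 4759259972120887689217) (nat_lit 5) (nat_lit 9)) (.cons (.br (nat_lit 7) (nat_lit 1) (.cons (.zr (nat_lit 928455029680207996878061568) (nat_lit 4759260253591569432577) (nat_lit 5) (nat_lit 9)) (.cons (.ev (nat_lit 79537652264898910709446869248) (nat_lit 1)) (.cons (.ev (nat_lit 20282719093402305278533835948033) (nat_lit 1)) .nil)))) .nil))))),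
 (.br (nat_lit 1) (nat_lit 1) (.cons (.br (nat_lit 12) (nat_lit 1) (.cons (.ev (nat_lit 310698658007442571839734016) (nat_lit 1)) (.cons (.zr (nat_lit 237688114320468029450269753344) (nat_lit 4759260253595864399873) (nat_lit 5) (nat_lit 9)) .nil))) (.cons (.ev (nat_lit 4740885566012369404161) (nat_lit 1)) (.cons (.br (nat_lit 10) (nat_lit 1) (.cons (.ev (nat_lit 79537652264971249774166606080) (nat_lit 1)) (.cons (.zr (nat_lit 237688114320468029450269753344) (nat_lit 4759260253595864399873) (nat_lit 5) (nat_lit 9)) .nil))) (.cons (.br (nat_lit 10) (nat_lit 1) (.cons (.br (nat_lit 12) (nat_lit 1) (.cons (.ev (nat_lit 79229376162450436196187242753) (nat_lit 1)) .nil)) (.cons (.ev (nat_lit 79229376162522775260906979585) (nat_lit 1)) (.cons (.br (nat_lit 11) (nat_lit 1) (.cons (.ev (nat_lit 79229376162450436196187242753) (nat_lit 1)) .nil)) .nil)))) .nil))))),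
 (.br (nat_lit 11) (nat_lit 1) (.cons (.rf (nat_lit 4957) (nat_lit 493858305440582043680)) (.cons (.rf (nat_lit 4958) (nat_lit 493858305440582043680)) (.cons (.br (nat_lit 1) (nat_lit 1) (.cons (.ev (nat_lit 79537652264971249774166606080) (nat_lit 1)) (.cons (.br (nat_lit 7) (nat_lit 1) (.cons (.ev (nat_lit 4740885566012369404161) (nat_lit 1)) .nil)) .nil))) (.cons (.br (nat_lit 1) (nat_lit 1) (.cons (.zr (nat_lit 55556405011832373248) (nat_lit 618974742009455581599891457) (nat_lit 5) (nat_lit 0)) (.cons (.br (nat_lit 7) (nat_lit 1) (.cons (.zr (nat_lit 237688114320468029450269753344) (nat_lit 4759260253595864399873) (nat_lit 5) (nat_lit 9)) .nil)) (.cons (.ev (nat_lit 309489732187829037898400001) (nat_lit 1)) .nil)))) .nil))))),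
 (.br (nat_lit 11) (nat_lit 1) (.cons (.zr (nat_lit 928455029464598156127961088) (nat_lit 4759259972120887689217) (nat_lit 5) (nat_lit 9)) (.cons (.rf (nat_lit 4958) (nat_lit 493858305440582043680)) (.cons (.rf (nat_lit 4959) (nat_lit 493858305440582043680)) (.cons (.br (nat_lit 1) (nat_lit 1) (.cons (.br (nat_lit 10) (nat_lit 1) (.cons (.zr (nat_lit 237688114320468029450269753344) (nat_lit 4759260253595864399873) (nat_lit 5) (nat_lit 9)) .nil)) (.cons (.br (nat_lit 7) (nat_lit 1) (.cons (.zr (nat_lit 237688114320468029450269753344) (nat_lit 4759260253595864399873) (nat_lit 5) (nat_lit 9)) .nil)) (.cons (.br (nat_lit 7) (nat_lit 1) (.cons (.ev (nat_lit 20363188836974704385785927632130) (nat_lit 3)) .nil)) .nil)))) .nil))))),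
 (.br (nat_lit 8) (nat_lit 1) (.cons (.rf (nat_lit 4947) (nat_lit 493858305440582043680)) (.cons (.rf (nat_lit 4956) (nat_lit 493858305440582043680)) (.cons (.br (nat_lit 1) (nat_lit 1) (.cons (.ev (nat_lit 79228162514264338697367322881) (nat_lit 1)) (.cons (.ev (nat_lit 4740813226947649798401) (nat_lit 1)) (.cons (.br (nat_lit 7) (nat_lit 1) (.cons (.rf (nat_lit 84) (nat_lit 12090481729)) (.cons (.rf (nat_lit 84) (nat_lit 11017788450)) (.cons (.br (nat_lit 10) (nat_lit 1) (.cons (.ev (nat_lit 79538856468424381533696098560) (nat_lit 1)) (.cons (.br (nat_lit 11) (nat_lit 1) (.cons (.zr (nat_lit 37109660933827985921) (nat_lit 79538870617005028474884194304) (nat_lit 10) (nat_lit 0)) .nil)) .nil))) .nil)))) (.cons (.br (nat_lit 10) (nat_lit 1) (.cons (.rf (nat_lit 84) (nat_lit 14237965377)) (.cons (.br (nat_lit 11) (nat_lit 1) (.cons (.kr (nat_lit 309485009821345073019748352) (nat_lit 79228167236630820463189164032) (nat_lit 4) (nat_lit 0)) (.cons (.ev (nat_lit 309489732187829037898400001) (nat_lit 1))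 .nil))) (.cons (.rf (nat_lit 4091) (nat_lit 295771118437769)) .nil)))) .nil))))) (.cons (.br (nat_lit 11) (nat_lit 1) (.cons (.rf (nat_lit 4957) (nat_lit 493858305440582043680)) (.cons (.rf (nat_lit 4958) (nat_lit 493858305440582043680)) (.cons (.rf (nat_lit 4959) (nat_lit 493858305440582043680)) (.cons (.rf (nat_lit 4960) (nat_lit 493858305440582043680)) (.cons (.br (nat_lit 11) (nat_lit 1) (.cons (.rf (nat_lit 4957) (nat_lit 493858305440582043680)) (.cons (.rf (nat_lit 4958) (nat_lit 493858305440582043680)) (.cons (.rf (nat_lit 4959) (nat_lit 493858305440582043680)) (.cons (.rf (nat_lit 4960) (nat_lit 493858305440582043680)) .nil))))) .nil)))))) .nil))))),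
 (.br (nat_lit 8) (nat_lit 1) (.cons (.rf (nat_lit 1339) (nat_lit 357799696449)) (.cons (.rf (nat_lit 1339) (nat_lit 357598369863)) (.cons (.rf (nat_lit 4961) (nat_lit 493858305440582043680)) (.cons (.br (nat_lit 1) (nat_lit 1) (.cons (.ev (nat_lit 79228162514264338697367322881) (nat_lit 1)) (.cons (.rf (nat_lit 2594) (nat_lit 11186478145)) (.cons (.br (nat_lit 7) (nat_lit 1) (.cons (.rf (nat_lit 84) (nat_lit 12090481729)) (.cons (.br (nat_lit 11) (nat_lit 1) (.cons (.ev (nat_lit 79537652264971249774166606080) (nat_lit 1)) (.cons (.ev (nat_lit 80156617543800712972556304387) (nat_lit 2)) .nil))) (.cons (.br (nat_lit 10) (nat_lit 1) (.cons (.br (nat_lit 11) (nat_lit 1) (.cons (.ev (nat_lit 158768242112645384614201983489) (nat_lit 2)) .nil)) (.cons (.ev (nat_lit 20361638975110201401718656270336) (nat_lit 1)) .nil))) .nil)))) (.cons (.br (nat_lit 7) (nat_lit 1) (.cons (.rf (nat_lit 84) (nat_lit 14237965377)) (.cons (.br (nat_lit 13) (nat_lit 1) (.cons (.rf (nat_lit 4091) (nat_lit 295771118437769)) (.cons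 (.ev (nat_lit 20361637766184453564308071186433) (nat_lit 1)) .nil))) (.cons (.rf (nat_lit 84) (nat_lit 11019885602)) .nil)))) .nil))))) .nil))))),
 (.br (nat_lit 8) (nat_lit 1) (.cons (.rf (nat_lit 4947) (nat_lit 493858305440582043680)) (.cons (.rf (nat_lit 4956) (nat_lit 493858305440582043680)) (.cons (.rf (nat_lit 4961) (nat_lit 493858305440582043680)) (.cons (.rf (nat_lit 4962) (nat_lit 493858305440582043680)) (.cons (.br (nat_lit 8) (nat_lit 1) (.cons (.rf (nat_lit 4947) (nat_lit 493858305440582043680)) (.cons (.rf (nat_lit 4956) (nat_lit 493858305440582043680)) (.cons (.rf (nat_lit 4961) (nat_lit 493858305440582043680)) (.cons (.rf (nat_lit 4962) (nat_lit 493858305440582043680)) .nil))))) .nil)))))),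
 (.br (nat_lit 9) (nat_lit 1) (.cons (.kr (nat_lit 18446744073709551616) (nat_lit 4722366482869645213696) (nat_lit 8) (nat_lit 0)) (.cons (.ev (nat_lit 4722438540467978174721) (nat_lit 1)) .nil))),
 (.br (nat_lit 8) (nat_lit 1) (.cons (.rf (nat_lit 4947) (nat_lit 493858305440582043680)) (.cons (.rf (nat_lit 4956) (nat_lit 493858305440582043680)) (.cons (.rf (nat_lit 4963) (nat_lit 493858305440582043680)) (.cons (.br (nat_lit 1) (nat_lit 1) (.cons (.ev (nat_lit 79228162514264338697367322881) (nat_lit 1)) (.cons (.br (nat_lit 7) (nat_lit 1) (.cons (.rf (nat_lit 58) (nat_lit 10717228)) (.cons (.br (nat_lit 11) (nat_lit 1) (.cons (.zr (nat_lit 9556134006121927412227) (nat_lit 2796245420770328338602393600) (nat_lit 35) (nat_lit 0)) (.cons (.ev (nat_lit 79537647542532426735978348801) (nat_lit 1)) .nil))) (.cons (.br (nat_lit 10) (nat_lit 1) (.cons (.zr (nat_lit 237688114320612144642640576512) (nat_lit 4759260816541522984961) (nat_lit 5) (nat_lit 9)) (.cons (.ev (nat_lit 20361638979832639661806891106305)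 (nat_lit 1)) .nil))) .nil)))) (.cons (.br (nat_lit 7) (nat_lit 1) (.cons (.rf (nat_lit 4964) (nat_lit 15433072044983552032)) (.cons (.rf (nat_lit 84) (nat_lit 11017788450)) (.cons (.br (nat_lit 11) (nat_lit 1) (.cons (.zr (nat_lit 928455029824323193543852032) (nat_lit 4759260816541522984961) (nat_lit 5) (nat_lit 9)) (.cons (.ev (nat_lit 20282719093402377054657192198145) (nat_lit 1)) .nil))) .nil)))) (.cons (.ev (nat_lit 4740813226947649798401) (nat_lit 1)) .nil))))) .nil))))),
 (.br (nat_lit 8) (nat_lit 1) (.cons (.rf (nat_lit 4947) (nat_lit 493858305440582043680)) (.cons (.rf (nat_lit 4956) (nat_lit 493858305440582043680)) (.cons (.rf (nat_lit 4963) (nat_lit 493858305440582043680)) (.cons (.rf (nat_lit 4965) (nat_lit 493858305440582043680)) (.cons (.br (nat_lit 8) (nat_lit 1) (.cons (.rf (nat_lit 4947) (nat_lit 493858305440582043680)) (.cons (.rf (nat_lit 4956) (nat_lit 493858305440582043680)) (.cons (.rf (nat_lit 4963) (nat_lit 493858305440582043680)) (.cons (.rf (nat_lit 4965) (nat_lit 493858305440582043680))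 .nil))))) .nil)))))),
 (.br (nat_lit 8) (nat_lit 1) (.cons (.rf (nat_lit 4947) (nat_lit 493858305440582043680)) (.cons (.rf (nat_lit 4956) (nat_lit 493858305440582043680)) (.cons (.rf (nat_lit 4963) (nat_lit 493858305440582043680)) (.cons (.rf (nat_lit 4966) (nat_lit 493858305440582043680)) (.cons (.br (nat_lit 8) (nat_lit 1) (.cons (.rf (nat_lit 4947) (nat_lit 493858305440582043680)) (.cons (.rf (nat_lit 4956) (nat_lit 493858305440582043680)) (.cons (.rf (nat_lit 4963) (nat_lit 493858305440582043680)) (.cons (.rf (nat_lit 4966) (nat_lit 493858305440582043680)) .nil))))) .nil)))))),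
 (.br (nat_lit 8) (nat_lit 1) (.cons (.rf (nat_lit 4947) (nat_lit 493858305440582043680)) (.cons (.rf (nat_lit 4956) (nat_lit 493858305440582043680)) (.cons (.rf (nat_lit 4963) (nat_lit 493858305440582043680)) (.cons (.rf (nat_lit 4966) (nat_lit 493858305440582043680)) (.cons (.rf (nat_lit 4967) (nat_lit 493858305440582043680)) (.cons (.br (nat_lit 8) (nat_lit 1) (.cons (.rf (nat_lit 4947) (nat_lit 493858305440582043680)) (.cons (.rf (nat_lit 4956) (nat_lit 493858305440582043680)) (.cons (.rf (nat_lit 4963) (nat_lit 493858305440582043680)) (.cons (.rf (nat_lit 4966) (nat_lit 493858305440582043680)) (.cons (.rf (nat_lit 4967) (nat_lit 493858305440582043680)) .nil)))))) .nil))))))),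
 (.br (nat_lit 9) (nat_lit 1) (.cons (.br (nat_lit 10) (nat_lit 1) (.cons (.ev (nat_lit 80156617599069451649128858370) (nat_lit 2)) .nil)) .nil)),
 (.br (nat_lit 8) (nat_lit 1) (.cons (.kr (nat_lit 1208925819614629174706177) (nat_lit 18446744078004518912) (nat_lit 0) (nat_lit 1)) (.cons (.rf (nat_lit 84) (nat_lit 10041236522)) (.cons (.br (nat_lit 9) (nat_lit 1) (.cons (.br (nat_lit 12) (nat_lit 1) (.cons (.rf (nat_lit 4969) (nat_lit 13056261022321575968)) (.cons (.ev (nat_lit 313111842621267805659464450) (nat_lit 2)) .nil))) (.cons (.rf (nat_lit 4969) (nat_lit 13056261022321575968)) .nil))) .nil)))),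
 (.br (nat_lit 11) (nat_lit 1) (.cons (.br (nat_lit 8) (nat_lit 1) (.cons (.zr (nat_lit 396450297599950065080343789571) (nat_lit 6054073831322567787413504) (nat_lit 10) (nat_lit 0)) (.cons (.br (nat_lit 10) (nat_lit 1) (.cons (.ev (nat_lit 79229376180897180269896794368) (nat_lit 1)) .nil)) .nil))) (.cons (.br (nat_lit 8) (nat_lit 1) (.cons (.br (nat_lit 12) (nat_lit 1) (.cons (.ev (nat_lit 79538856449905298395266810113) (nat_lit 1)) .nil)) (.cons (.br (nat_lit 10) (nat_lit 1) (.cons (.ev (nat_lit 79538856449905298395266810113) (nat_lit 1)) .nil)) (.cons (.zr (nat_lit 55556405011832373248) (nat_lit 618974742009455581599891457) (nat_lit 5) (nat_lit 0)) .nil)))) .nil))),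
 (.br (nat_lit 11) (nat_lit 1) (.cons (.rf (nat_lit 4971) (nat_lit 493858305440582043680)) (.cons (.br (nat_lit 10) (nat_lit 1) (.cons (.br (nat_lit 10) (nat_lit 1) (.cons (.ev (nat_lit 79538856449977637459986546945) (nat_lit 1)) .nil)) (.cons (.br (nat_lit 8) (nat_lit 1) (.cons (.ev (nat_lit 79538856449977637459986546945) (nat_lit 1)) .nil)) .nil))) .nil))),
 (.br (nat_lit 11) (nat_lit 1) (.cons (.rf (nat_lit 4971) (nat_lit 493858305440582043680)) (.cons (.rf (nat_lit 4972) (nat_lit 493858305440582043680)) (.cons (.br (nat_lit 11) (nat_lit 1) (.cons (.rf (nat_lit 4971) (nat_lit 493858305440582043680)) (.cons (.rf (nat_lit 4972) (nat_lit 493858305440582043680)) .nil))) .nil)))),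
 (.br (nat_lit 11) (nat_lit 1) (.cons (.rf (nat_lit 4973) (nat_lit 493858305440582043680)) (.cons (.br (nat_lit 10) (nat_lit 1) (.cons (.br (nat_lit 8) (nat_lit 1) (.cons (.ev (nat_lit 309499195583994220402246145) (nat_lit 2)) .nil)) (.cons (.ev (nat_lit 20361948460101647779932261122048) (nat_lit 1)) .nil))) .nil)))]

theorem c173 : chkAll C T R L173 (nat_lit 4949) = true := by decide +kernel

theorem l173 : (nat_lit 4949) + L173.length = (nat_lit 4975) := by decide +kernel

/-- part of the certificates -/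
def L174 : List Prf := [(.br (nat_lit 11) (nat_lit 1) (.cons (.rf (nat_lit 4973) (nat_lit 493858305440582043680)) (.cons (.rf (nat_lit 4974) (nat_lit 493858305440582043680)) (.cons (.br (nat_lit 11) (nat_lit 1) (.cons (.rf (nat_lit 4973) (nat_lit 493858305440582043680)) (.cons (.rf (nat_lit 4974) (nat_lit 493858305440582043680)) .nil))) .nil)))),
 (.br (nat_lit 11) (nat_lit 1) (.cons (.rf (nat_lit 4973) (nat_lit 493858305440582043680)) (.cons (.rf (nat_lit 4975) (nat_lit 493858305440582043680)) (.cons (.br (nat_lit 11) (nat_lit 1) (.cons (.rf (nat_lit 4973) (nat_lit 493858305440582043680)) (.cons (.rf (nat_lit 4975) (nat_lit 493858305440582043680)) .nil))) .nil)))),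
 (.br (nat_lit 11) (nat_lit 1) (.cons (.rf (nat_lit 4973) (nat_lit 493858305440582043680)) (.cons (.rf (nat_lit 4975) (nat_lit 493858305440582043680)) (.cons (.rf (nat_lit 4976) (nat_lit 493858305440582043680)) (.cons (.br (nat_lit 11) (nat_lit 1) (.cons (.rf (nat_lit 4973) (nat_lit 493858305440582043680)) (.cons (.rf (nat_lit 4975) (nat_lit 493858305440582043680)) (.cons (.rf (nat_lit 4976) (nat_lit 493858305440582043680)) .nil)))) .nil))))),
 (.br (nat_lit 13) (nat_lit 1) (.cons (.rf (nat_lit 84) (nat_lit 11019525196)) (.cons (.ev (nat_lit 20361637766165935044119595319296) (nat_lit 1)) (.cons (.br (nat_lit 8) (nat_lit 1) (.cons (.br (nat_lit 11) (nat_lit 1) (.cons (.kr (nat_lit 20361637766165934761540795236608) (nat_lit 18447025552981229568) (nat_lit 1) (nat_lit 0)) (.cons (.zr (nat_lit 61084913298498164572596870316800) (nat_lit 2422574007402077383426049) (nat_lit 5) (nat_lit 0)) .nil))) (.cons (.br (nat_lit 10) (nat_lit 1) (.cons (.kr (nat_lit 20361637766165934761540795236608) (nat_lit 18447025552981229568)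 (nat_lit 1) (nat_lit 0)) (.cons (.zr (nat_lit 61084913298498020457404499493632) (nat_lit 618974742010300010824990721) (nat_lit 5) (nat_lit 0)) .nil))) .nil))) .nil)))),
 (.br (nat_lit 7) (nat_lit 1) (.cons (.br (nat_lit 12) (nat_lit 1) (.cons (.rf (nat_lit 58) (nat_lit 8789026)) (.cons (.rf (nat_lit 4970) (nat_lit 482246047075239968)) (.cons (.rf (nat_lit 4970) (nat_lit 482281231447328800)) (.cons (.rf (nat_lit 1343) (nat_lit 353704882241)) .nil))))) (.cons (.rf (nat_lit 4977) (nat_lit 493858305440582043680)) (.cons (.rf (nat_lit 4977) (nat_lit 493823402543469922336)) (.cons (.ev (nat_lit 79228162514336677762087059713) (nat_lit 1)) (.cons (.br (nat_lit 12) (nat_lit 1) (.cons (.rf (nat_lit 1343) (nat_lit 353710120001)) (.cons (.rf (nat_lit 4978) (nat_lit 493858305440582043680)) (.cons (.rf (nat_lit 4978) (nat_lit 493823402543469922336)) (.cons (.ev (nat_lit 20361637766166006820234361634816) (nat_lit 1)) .nil))))) .nil)))))),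
 (.br (nat_lit 1) (nat_lit 1) (.cons (.rf (nat_lit 84) (nat_lit 14237806626)) (.cons (.br (nat_lit 11) (nat_lit 1) (.cons (.ev (nat_lit 79537652264898910709446869248) (nat_lit 1)) (.cons (.ev (nat_lit 309485009893684137739419904) (nat_lit 1)) .nil))) (.cons (.br (nat_lit 10) (nat_lit 1) (.cons (.rf (nat_lit 4926) (nat_lit 493858305268783356960)) (.cons (.ev (nat_lit 20282410812577490320055697735681) (nat_lit 1)) .nil))) .nil)))),
 (.br (nat_lit 8) (nat_lit 1) (.cons (.rf (nat_lit 4979) (nat_lit 493858305440582043680)) (.cons (.br (nat_lit 12) (nat_lit 1) (.cons (.rf (nat_lit 1593) (nat_lit 388939123073)) (.cons (.rf (nat_lit 4980) (nat_lit 493858305440582043680)) (.cons (.rf (nat_lit 4980) (nat_lit 493823402543469922336)) (.cons (.ev (nat_lit 79228167292188073194241916930) (nat_lit 2)) .nil))))) (.cons (.br (nat_lit 1) (nat_lit 1) (.cons (.rf (nat_lit 84) (nat_lit 14302621922)) (.cons (.br (nat_lit 11) (nat_lit 1) (.cons (.br (nat_lit 13) (nat_lit 1) (.cons (.ev (nat_lit 79229371458530696296428273921)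 (nat_lit 1)) (.cons (.rf (nat_lit 3597) (nat_lit 11660643211084864)) .nil))) (.cons (.rf (nat_lit 3597) (nat_lit 11660643211084864)) .nil))) (.cons (.rf (nat_lit 82) (nat_lit 11182092513)) .nil)))) (.cons (.br (nat_lit 1) (nat_lit 1) (.cons (.br (nat_lit 10) (nat_lit 1) (.cons (.br (nat_lit 12) (nat_lit 1) (.cons (.br (nat_lit 11) (nat_lit 1) (.cons (.ev (nat_lit 20839176791487341926760258667776) (nat_lit 3)) .nil)) (.cons (.ev (nat_lit 79229376180897180269896794368) (nat_lit 1)) .nil))) (.cons (.rf (nat_lit 84) (nat_lit 14237806626)) (.cons (.ev (nat_lit 1208925891953698189345024) (nat_lit 1)) .nil)))) (.cons (.br (nat_lit 12) (nat_lit 1) (.cons (.br (nat_lit 10) (nat_lit 1) (.cons (.br (nat_lit 11) (nat_lit 1) (.cons (.ev (nat_lit 20282416857243771802795534319875) (nat_lit 3)) .nil)) (.cons (.ev (nat_lit 20520096523268614407713215086849) (nat_lit 2)) .nil))) (.cons (.br (nat_lit 11) (nat_lit 1) (.cons (.br (nat_lit 10) (nat_lit 1) (.cons (.ev (nat_lit 20839176772598163095359809062148) (nat_lit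 3)) .nil)) (.cons (.ev (nat_lit 309485009821345073019814144) (nat_lit 1)) .nil))) (.cons (.rf (nat_lit 84) (nat_lit 12093468737)) .nil)))) (.cons (.rf (nat_lit 31) (nat_lit 444669313)) (.cons (.rf (nat_lit 2594) (nat_lit 14301802561)) .nil))))) .nil))))),
 (.br (nat_lit 0) (nat_lit 1) (.cons (.rf (nat_lit 84) (nat_lit 5606774848)) (.cons (.rf (nat_lit 689) (nat_lit 5606774848)) (.cons (.rf (nat_lit 84) (nat_lit 8828000320)) .nil)))),
 (.br (nat_lit 8) (nat_lit 1) (.cons (.rf (nat_lit 4979) (nat_lit 493858305440582043680)) (.cons (.rf (nat_lit 4981) (nat_lit 493858305440582043680)) (.cons (.rf (nat_lit 4981) (nat_lit 493823402543469922336)) (.cons (.br (nat_lit 8) (nat_lit 1) (.cons (.rf (nat_lit 58) (nat_lit 8789026)) (.cons (.rf (nat_lit 4981) (nat_lit 493858305440582043680)) (.cons (.rf (nat_lit 4981) (nat_lit 493823402543469922336)) (.cons (.rf (nat_lit 4982) (nat_lit 459906751553)) .nil))))) (.cons (.br (nat_lit 8) (nat_lit 1) (.cons (.rf (nat_lit 4982) (nat_lit 454538036300)) (.cons (.rf (nat_lit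 4981) (nat_lit 493858305440582043680)) (.cons (.rf (nat_lit 4981) (nat_lit 493823402543469922336)) (.cons (.rf (nat_lit 4982) (nat_lit 459906751553)) .nil))))) .nil)))))),
 (.br (nat_lit 10) (nat_lit 1) (.cons (.rf (nat_lit 84) (nat_lit 14237965346)) (.cons (.br (nat_lit 13) (nat_lit 1) (.cons (.zr (nat_lit 3626777819131874893627392) (nat_lit 4759260816541522984961) (nat_lit 5) (nat_lit 9)) (.cons (.zr (nat_lit 3626832799639058606391296) (nat_lit 1547429771473209317092491265) (nat_lit 5) (nat_lit 0)) .nil))) (.cons (.rf (nat_lit 4091) (nat_lit 295770044696969)) .nil)))),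
 (.br (nat_lit 10) (nat_lit 1) (.cons (.zr (nat_lit 7253555134142036433895424) (nat_lit 9518519944233185443842) (nat_lit 10) (nat_lit 9)) (.cons (.ev (nat_lit 79229376180897180269896794368) (nat_lit 1)) .nil))),
 (.br (nat_lit 7) (nat_lit 1) (.cons (.br (nat_lit 11) (nat_lit 1) (.cons (.zr (nat_lit 928455029680207996878061568) (nat_lit 4759260253591569432577) (nat_lit 5) (nat_lit 9)) .nil)) (.cons (.ev (nat_lit 4740885566012369404161) (nat_lit 1)) (.cons (.br (nat_lit 10) (nat_lit 1) (.cons (.zr (nat_lit 928455029680207996878061568) (nat_lit 4759260253591569432577) (nat_lit 5) (nat_lit 9)) .nil)) .nil)))),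
 (.br (nat_lit 11) (nat_lit 1) (.cons (.ev (nat_lit 4740885566012369404161) (nat_lit 1)) (.cons (.br (nat_lit 1) (nat_lit 1) (.cons (.ev (nat_lit 20837941259892286950476681118978) (nat_lit 3)) .nil)) (.cons (.ev (nat_lit 20282409608392555708484643979264) (nat_lit 1)) .nil)))),
 (.br (nat_lit 11) (nat_lit 1) (.cons (.rf (nat_lit 4986) (nat_lit 493858305440582043680)) (.cons (.rf (nat_lit 4987) (nat_lit 493858305440582043680)) (.cons (.br (nat_lit 1) (nat_lit 1) (.cons (.zr (nat_lit 55556405011832373248) (nat_lit 618974742009455581599891457) (nat_lit 5) (nat_lit 0)) .nil)) .nil)))),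
 (.br (nat_lit 11) (nat_lit 1) (.cons (.rf (nat_lit 4986) (nat_lit 493858305440582043680)) (.cons (.rf (nat_lit 4987) (nat_lit 493858305440582043680)) (.cons (.rf (nat_lit 4988) (nat_lit 493858305440582043680)) (.cons (.br (nat_lit 11) (nat_lit 1) (.cons (.rf (nat_lit 4986) (nat_lit 493858305440582043680)) (.cons (.ev (nat_lit 20282409608392555708484643979264) (nat_lit 1)) (.cons (.rf (nat_lit 4988) (nat_lit 493858305440582043680)) .nil)))) .nil))))),
 (.br (nat_lit 8) (nat_lit 1) (.cons (.rf (nat_lit 4979) (nat_lit 493858305440582043680)) (.cons (.rf (nat_lit 4983) (nat_lit 493858305440582043680)) (.cons (.br (nat_lit 1) (nat_lit 1) (.cons (.ev (nat_lit 79228162514264338697367322881) (nat_lit 1)) (.cons (.rf (nat_lit 4984) (nat_lit 493858305440582043680)) (.cons (.rf (nat_lit 4984) (nat_lit 493823402543469922336)) (.cons (.ev (nat_lit 4740813226947649798401) (nat_lit 1)) .nil))))) (.cons (.br (nat_lit 12) (nat_lit 1) (.cons (.ev (nat_lit 4740813226947649798401) (nat_lit 1)) (.cons (.br (nat_lit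 1) (nat_lit 1) (.cons (.rf (nat_lit 4985) (nat_lit 493858305440582043680)) (.cons (.rf (nat_lit 4985) (nat_lit 493823402543469922336)) (.cons (.ev (nat_lit 9481699355918562558466) (nat_lit 2)) .nil)))) (.cons (.rf (nat_lit 4989) (nat_lit 493858305440582043680)) (.cons (.rf (nat_lit 4989) (nat_lit 493823402543469922336)) (.cons (.ev (nat_lit 20282409608392483932369877794816) (nat_lit 1)) .nil)))))) .nil))))),
 (.br (nat_lit 8) (nat_lit 1) (.cons (.rf (nat_lit 4979) (nat_lit 493858305440582043680)) (.cons (.rf (nat_lit 4983) (nat_lit 493858305440582043680)) (.cons (.rf (nat_lit 4990) (nat_lit 493858305440582043680)) (.cons (.br (nat_lit 1) (nat_lit 1) (.cons (.ev (nat_lit 79228162514264338697367322881) (nat_lit 1)) (.cons (.br (nat_lit 13) (nat_lit 1) (.cons (.ev (nat_lit 20361637766165935044119595319296) (nat_lit 1)) (.cons (.ev (nat_lit 20440865928680199945766916064001) (nat_lit 2)) (.cons (.ev (nat_lit 20282409608392483932369877794816) (nat_lit 1)) .nil)))) (.cons (.ev (nat_lit 4740813226947649798401)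 (nat_lit 1)) (.cons (.rf (nat_lit 2594) (nat_lit 14307040321)) .nil))))) .nil))))),
 (.br (nat_lit 8) (nat_lit 1) (.cons (.rf (nat_lit 4979) (nat_lit 493858305440582043680)) (.cons (.rf (nat_lit 4983) (nat_lit 493858305440582043680)) (.cons (.rf (nat_lit 4990) (nat_lit 493858305440582043680)) (.cons (.rf (nat_lit 4991) (nat_lit 493858305440582043680)) (.cons (.br (nat_lit 8) (nat_lit 1) (.cons (.rf (nat_lit 4979) (nat_lit 493858305440582043680)) (.cons (.rf (nat_lit 4983) (nat_lit 493858305440582043680)) (.cons (.rf (nat_lit 4990) (nat_lit 493858305440582043680)) (.cons (.rf (nat_lit 4991) (nat_lit 493858305440582043680)) .nil))))) .nil)))))),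
 (.br (nat_lit 8) (nat_lit 1) (.cons (.rf (nat_lit 4979) (nat_lit 493858305440582043680)) (.cons (.rf (nat_lit 4983) (nat_lit 493858305440582043680)) (.cons (.rf (nat_lit 4992) (nat_lit 493858305440582043680)) (.cons (.rf (nat_lit 4992) (nat_lit 493823402543469922336)) (.cons (.br (nat_lit 8) (nat_lit 1) (.cons (.rf (nat_lit 4982) (nat_lit 459906745415)) (.cons (.rf (nat_lit 4982) (nat_lit 459906751553)) (.cons (.rf (nat_lit 4992) (nat_lit 493858305440582043680)) (.cons (.rf (nat_lit 4992) (nat_lit 493823402543469922336)) .nil))))) .nil)))))),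
 (.br (nat_lit 11) (nat_lit 1) (.cons (.ev (nat_lit 79537647542532426740290093313) (nat_lit 1)) .nil)),
 (.br (nat_lit 12) (nat_lit 1) (.cons (.rf (nat_lit 31) (nat_lit 344333377)) (.cons (.br (nat_lit 11) (nat_lit 1) (.cons (.rf (nat_lit 4994) (nat_lit 493858305440582043680)) (.cons (.rf (nat_lit 4994) (nat_lit 383181218698045261856)) .nil))) (.cons (.rf (nat_lit 31) (nat_lit 444996673)) .nil)))),
 (.br (nat_lit 8) (nat_lit 1) (.cons (.rf (nat_lit 1593) (nat_lit 388939132993)) (.cons (.kr (nat_lit 79228162514264619068520726528) (nat_lit 72057598349672448) (nat_lit 2) (nat_lit 0)) (.cons (.rf (nat_lit 4995) (nat_lit 493858305440582043680)) .nil)))),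
 (.br (nat_lit 8) (nat_lit 1) (.cons (.rf (nat_lit 4996) (nat_lit 14242959524133701664)) (.cons (.rf (nat_lit 4996) (nat_lit 14208056627021580320)) (.cons (.kr (nat_lit 79228162514264619068520726528) (nat_lit 72057598349672448) (nat_lit 2) (nat_lit 0)) (.cons (.br (nat_lit 8) (nat_lit 1) (.cons (.rf (nat_lit 4995) (nat_lit 493858305440582043680)) (.cons (.rf (nat_lit 4995) (nat_lit 493823402543469922336)) (.cons (.kr (nat_lit 79228162514264619068520726528) (nat_lit 72057598349672448) (nat_lit 2) (nat_lit 0)) .nil)))) .nil))))),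
 (.br (nat_lit 10) (nat_lit 1) (.cons (.br (nat_lit 11) (nat_lit 1) (.cons (.ev (nat_lit 79538861172344119230120067328) (nat_lit 1)) (.cons (.zr (nat_lit 55340795171082272768) (nat_lit 618974742009174110918148097) (nat_lit 5) (nat_lit 0)) .nil))) (.cons (.ev (nat_lit 1213666705181745367548160) (nat_lit 1)) (.cons (.rf (nat_lit 4886) (nat_lit 15433072044983552032)) .nil)))),
 (.br (nat_lit 10) (nat_lit 1) (.cons (.br (nat_lit 11) (nat_lit 1) (.cons (.zr (nat_lit 55340795171082272768) (nat_lit 618974742009174110918148097) (nat_lit 5) (nat_lit 0)) .nil)) (.cons (.ev (nat_lit 20440867147087861904494687289600) (nat_lit 2)) .nil))),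
 (.br (nat_lit 8) (nat_lit 1) (.cons (.rf (nat_lit 1593) (nat_lit 388939132993)) (.cons (.rf (nat_lit 1593) (nat_lit 389106900033)) (.cons (.br (nat_lit 7) (nat_lit 1) (.cons (.rf (nat_lit 4998) (nat_lit 493858305440582043680)) (.cons (.rf (nat_lit 4998) (nat_lit 493823402543469922336)) (.cons (.rf (nat_lit 246) (nat_lit 387965131841)) (.cons (.br (nat_lit 12) (nat_lit 1) (.cons (.rf (nat_lit 4999) (nat_lit 493858305440582043680)) (.cons (.rf (nat_lit 4999) (nat_lit 493823402543469922336)) (.cons (.kr (nat_lit 79228162514264619068520726528) (nat_lit 72057598349672448) (nat_lit 2) (nat_lit 0)) .nil)))) .nil))))) .nil)))),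
 (.br (nat_lit 10) (nat_lit 1) (.cons (.ev (nat_lit 1208925891954797700972801) (nat_lit 1)) .nil)),
 (.br (nat_lit 6) (nat_lit 1) (.cons (.rf (nat_lit 31) (nat_lit 309537857)) (.cons (.br (nat_lit 10) (nat_lit 1) (.cons (.rf (nat_lit 5001) (nat_lit 14242959524133701664)) (.cons (.rf (nat_lit 5001) (nat_lit 10784300563429427232)) .nil))) (.cons (.rf (nat_lit 31) (nat_lit 410201153)) .nil)))),
 (.br (nat_lit 8) (nat_lit 1) (.cons (.rf (nat_lit 4997) (nat_lit 14242959524133701664)) (.cons (.rf (nat_lit 5000) (nat_lit 493858305440582043680)) (.cons (.br (nat_lit 8) (nat_lit 1) (.cons (.kr (nat_lit 79228162514264619068520726528) (nat_lit 72057598349672448) (nat_lit 2) (nat_lit 0)) (.cons (.rf (nat_lit 1593) (nat_lit 389106900033)) (.cons (.rf (nat_lit 5002) (nat_lit 15433072045018155040)) .nil)))) (.cons (.br (nat_lit 8) (nat_lit 1) (.cons (.rf (nat_lit 4997) (nat_lit 14242959524133701664)) (.cons (.rf (nat_lit 5000) (nat_lit 493858305440582043680)) (.cons (.rf (nat_lit 5002) (nat_lit 15433072045018155040))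 .nil)))) .nil))))),
 (.br (nat_lit 8) (nat_lit 1) (.cons (.kr (nat_lit 79228162514264619068520726528) (nat_lit 72057598349672448) (nat_lit 2) (nat_lit 0)) (.cons (.rf (nat_lit 5003) (nat_lit 493858305440582043680)) (.cons (.rf (nat_lit 5003) (nat_lit 493823402543469922336)) (.cons (.br (nat_lit 8) (nat_lit 1) (.cons (.kr (nat_lit 79228162514264619068520726528) (nat_lit 72057598349672448) (nat_lit 2) (nat_lit 0)) (.cons (.rf (nat_lit 5002) (nat_lit 15433072045018155040)) (.cons (.rf (nat_lit 5002) (nat_lit 15431981329483401248)) .nil)))) .nil))))),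
 (.br (nat_lit 8) (nat_lit 1) (.cons (.rf (nat_lit 4997) (nat_lit 14242959524133701664)) (.cons (.rf (nat_lit 5003) (nat_lit 493858305440582043680)) (.cons (.rf (nat_lit 5003) (nat_lit 493823402543469922336)) (.cons (.rf (nat_lit 5004) (nat_lit 493858305440582043680)) (.cons (.br (nat_lit 8) (nat_lit 1) (.cons (.rf (nat_lit 4997) (nat_lit 14242959524133701664)) (.cons (.rf (nat_lit 5003) (nat_lit 493858305440582043680)) (.cons (.rf (nat_lit 5003) (nat_lit 493823402543469922336)) (.cons (.rf (nat_lit 5004) (nat_lit 493858305440582043680)) .nil))))) .nil))))))]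

theorem c174 : chkAll C T R L174 (nat_lit 4975) = true := by decide +kernel

theorem l174 : (nat_lit 4975) + L174.length = (nat_lit 5006) := by decide +kernel

/-- part of the certificates -/
def L175 : List Prf := [(.br (nat_lit 11) (nat_lit 1) (.cons (.ev (nat_lit 20521647579780942889814514270468) (nat_lit 3)) .nil)),
 (.br (nat_lit 7) (nat_lit 1) (.cons (.rf (nat_lit 1339) (nat_lit 357967303745)) (.cons (.kr (nat_lit 281474976776192) (nat_lit 72057598332895232) (nat_lit 2) (nat_lit 0)) (.cons (.br (nat_lit 8) (nat_lit 1) (.cons (.br (nat_lit 12) (nat_lit 1) (.cons (.rf (nat_lit 84) (nat_lit 12090126407)) (.cons (.rf (nat_lit 84) (nat_lit 11017433314)) (.cons (.br (nat_lit 13) (nat_lit 1) (.cons (.rf (nat_lit 5006) (nat_lit 493858305440582043680)) (.cons (.rf (nat_lit 5006) (nat_lit 493823402369525849120)) .nil))) .nil)))) (.cons (.ev (nat_lit 79228167255149903605930131713) (nat_lit 1)) (.cons (.br (nat_lit 10) (nat_lit 1) (.cons (.br (nat_lit 11) (nat_lit 1) (.cons (.ev (nat_lit 79538861172271780165400461568)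 (nat_lit 1)) (.cons (.zr (nat_lit 4777922887881477586944) (nat_lit 621387871282201970304090113) (nat_lit 5) (nat_lit 0)) .nil))) (.cons (.rf (nat_lit 84) (nat_lit 12090126407)) (.cons (.br (nat_lit 13) (nat_lit 1) (.cons (.ev (nat_lit 20282409608392483932365599604736) (nat_lit 1)) (.cons (.zr (nat_lit 237684496987526259994898989824) (nat_lit 40564819207303484964186401800193) (nat_lit 5) (nat_lit 3)) .nil))) .nil)))) .nil)))) (.cons (.rf (nat_lit 31) (nat_lit 343999879)) (.cons (.br (nat_lit 8) (nat_lit 1) (.cons (.br (nat_lit 10) (nat_lit 1) (.cons (.br (nat_lit 11) (nat_lit 1) (.cons (.ev (nat_lit 79537647524085682666580541696) (nat_lit 1)) (.cons (.zr (nat_lit 55556405011832373248) (nat_lit 618974742009455581599891457) (nat_lit 5) (nat_lit 0)) .nil))) (.cons (.rf (nat_lit 84) (nat_lit 14237610055)) (.cons (.br (nat_lit 13) (nat_lit 1) (.cons (.ev (nat_lit 20282410812595937064125129097216) (nat_lit 1)) (.cons (.ev (nat_lit 20440867147087861904494687289600) (nat_lit 2)) .nil))) .nil)))) (.cons (.ev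 (nat_lit 18519084246547628288) (nat_lit 1)) (.cons (.br (nat_lit 12) (nat_lit 1) (.cons (.rf (nat_lit 84) (nat_lit 14237610055)) (.cons (.br (nat_lit 10) (nat_lit 1) (.cons (.br (nat_lit 11) (nat_lit 1) (.cons (.ev (nat_lit 309489732187829037898400001) (nat_lit 1)) .nil)) (.cons (.ev (nat_lit 20361638979832567885692124790785) (nat_lit 1)) .nil))) (.cons (.rf (nat_lit 84) (nat_lit 11019530466)) .nil)))) .nil)))) .nil)))))),
 (.br (nat_lit 8) (nat_lit 1) (.cons (.br (nat_lit 11) (nat_lit 1) (.cons (.kr (nat_lit 20361638975091826433764007870720) (nat_lit 309485028268652092387819520) (nat_lit 1) (nat_lit 0)) .nil)) .nil)),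
 (.br (nat_lit 8) (nat_lit 1) (.cons (.br (nat_lit 11) (nat_lit 1) (.cons (.ev (nat_lit 79537647524085682666580541696) (nat_lit 1)) (.cons (.zr (nat_lit 3626832799639058606391296) (nat_lit 618988909108622719853789185) (nat_lit 5) (nat_lit 0)) .nil))) (.cons (.ev (nat_lit 1213666632842672057876736) (nat_lit 1)) (.cons (.br (nat_lit 12) (nat_lit 1) (.cons (.br (nat_lit 11) (nat_lit 1) (.cons (.ev (nat_lit 309489732187829037898400001) (nat_lit 1)) .nil)) (.cons (.rf (nat_lit 84) (nat_lit 11182414882)) .nil))) .nil)))),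
 (.br (nat_lit 8) (nat_lit 1) (.cons (.rf (nat_lit 5009) (nat_lit 493858305440582043680)) (.cons (.ev (nat_lit 79228167255077564541210525953) (nat_lit 1)) (.cons (.br (nat_lit 11) (nat_lit 1) (.cons (.zr (nat_lit 4777707278040727486464) (nat_lit 621387871281920499622346753) (nat_lit 5) (nat_lit 0)) (.cons (.ev (nat_lit 79537647524085682666580541696) (nat_lit 1)) (.cons (.zr (nat_lit 55340795171082272768) (nat_lit 618974742009174110918148097) (nat_lit 5) (nat_lit 0)) .nil)))) .nil)))),
 (.br (nat_lit 10) (nat_lit 1) (.cons (.kr (nat_lit 281474976776192) (nat_lit 72057598332895232) (nat_lit 2) (nat_lit 0)) (.cons (.rf (nat_lit 5007) (nat_lit 493858305440582043680)) (.cons (.br (nat_lit 7) (nat_lit 1) (.cons (.rf (nat_lit 82) (nat_lit 12090323009)) (.cons (.rf (nat_lit 84) (nat_lit 8969760833)) (.cons (.br (nat_lit 8) (nat_lit 1) (.cons (.rf (nat_lit 5008) (nat_lit 493858305440582043680)) (.cons (.br (nat_lit 11) (nat_lit 1) (.cons (.rf (nat_lit 5008) (nat_lit 493858305440582043680)) (.cons (.zr (nat_lit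 237684506432475117058506359552) (nat_lit 40564821625154981204152287559681) (nat_lit 5) (nat_lit 3)) .nil))) .nil))) .nil)))) (.cons (.br (nat_lit 8) (nat_lit 1) (.cons (.rf (nat_lit 5009) (nat_lit 493858305440582043680)) (.cons (.rf (nat_lit 5010) (nat_lit 493858305440582043680)) (.cons (.br (nat_lit 8) (nat_lit 1) (.cons (.ev (nat_lit 1213666632842672057876736) (nat_lit 1)) (.cons (.ev (nat_lit 79228167255077564541210525953) (nat_lit 1)) (.cons (.ev (nat_lit 18446745173237956864) (nat_lit 1)) .nil)))) (.cons (.br (nat_lit 8) (nat_lit 1) (.cons (.rf (nat_lit 5009) (nat_lit 493858305440582043680)) (.cons (.rf (nat_lit 5010) (nat_lit 493858305440582043680)) (.cons (.ev (nat_lit 18446745173237956864) (nat_lit 1)) .nil)))) .nil))))) .nil))))),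
 (.br (nat_lit 10) (nat_lit 1) (.cons (.kr (nat_lit 281474976776192) (nat_lit 72057598332895232) (nat_lit 2) (nat_lit 0)) (.cons (.rf (nat_lit 1339) (nat_lit 289082315810)) (.cons (.rf (nat_lit 5011) (nat_lit 493858305440582043680)) (.cons (.br (nat_lit 7) (nat_lit 1) (.cons (.rf (nat_lit 82) (nat_lit 14237806657)) (.cons (.br (nat_lit 8) (nat_lit 1) (.cons (.rf (nat_lit 5007) (nat_lit 493823402369525849120)) (.cons (.br (nat_lit 8) (nat_lit 1) (.cons (.rf (nat_lit 5007) (nat_lit 493823402369525849120)) .nil)) .nil))) (.cons (.rf (nat_lit 84) (nat_lit 9036869697)) .nil)))) .nil))))),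
 (.br (nat_lit 10) (nat_lit 1) (.cons (.kr (nat_lit 281474976776192) (nat_lit 72057598332895232) (nat_lit 2) (nat_lit 0)) (.cons (.rf (nat_lit 5007) (nat_lit 493858305440582043680)) (.cons (.rf (nat_lit 5011) (nat_lit 493858305440582043680)) (.cons (.rf (nat_lit 5012) (nat_lit 493858305440582043680)) (.cons (.br (nat_lit 10) (nat_lit 1) (.cons (.kr (nat_lit 281474976776192) (nat_lit 72057598332895232) (nat_lit 2) (nat_lit 0)) (.cons (.rf (nat_lit 5007) (nat_lit 493858305440582043680)) (.cons (.rf (nat_lit 5011) (nat_lit 493858305440582043680)) (.cons (.rf (nat_lit 5012) (nat_lit 493858305440582043680)) .nil))))) .nil)))))),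
 (.br (nat_lit 10) (nat_lit 1) (.cons (.rf (nat_lit 5013) (nat_lit 493858305440582043680)) (.cons (.rf (nat_lit 5013) (nat_lit 493858305266637970464)) (.cons (.br (nat_lit 2) (nat_lit 1) (.cons (.rf (nat_lit 31) (nat_lit 344327394)) (.cons (.rf (nat_lit 2594) (nat_lit 8971951169)) (.cons (.ev (nat_lit 79229371440083952227030466816) (nat_lit 1)) (.cons (.br (nat_lit 7) (nat_lit 1) (.cons (.ev (nat_lit 1213648258437671657996545) (nat_lit 1)) (.cons (.ev (nat_lit 79229371440156291291750072576) (nat_lit 1)) (.cons (.kr (nat_lit 281474976776192) (nat_lit 72057598332895232) (nat_lit 2) (nat_lit 0)) .nil)))) .nil))))) (.cons (.br (nat_lit 11) (nat_lit 1) (.cons (.rf (nat_lit 5013) (nat_lit 493823402543469922336)) (.cons (.rf (nat_lit 5013) (nat_lit 493823402369525849120)) (.cons (.br (nat_lit 2) (nat_lit 1) (.cons (.rf (nat_lit 1593) (nat_lit 388737806562)) (.cons (.rf (nat_lit 5013) (nat_lit 493823402543469922336)) (.cons (.rf (nat_lit 1593) (nat_lit 388737801602)) (.cons (.zr (nat_lit 55340795171082272768)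 (nat_lit 2422574005713231817998337) (nat_lit 5) (nat_lit 0)) .nil))))) (.cons (.br (nat_lit 11) (nat_lit 1) (.cons (.rf (nat_lit 5013) (nat_lit 493823402543469922336)) (.cons (.rf (nat_lit 5013) (nat_lit 493823402369525849120)) (.cons (.rf (nat_lit 4727) (nat_lit 489212845723484260384)) (.cons (.ev (nat_lit 309489732187829037898400001) (nat_lit 1)) .nil))))) (.cons (.br (nat_lit 11) (nat_lit 1) (.cons (.rf (nat_lit 5013) (nat_lit 493823402543469922336)) (.cons (.rf (nat_lit 5013) (nat_lit 493823402369525849120)) (.cons (.kr (nat_lit 1208925819614629174706176) (nat_lit 309485009821345068724781056) (nat_lit 10) (nat_lit 0)) (.cons (.ev (nat_lit 309489732187829037898400001) (nat_lit 1)) .nil))))) .nil)))))) .nil))))),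
 (.br (nat_lit 2) (nat_lit 1) (.cons (.rf (nat_lit 31) (nat_lit 344327394)) (.cons (.rf (nat_lit 1339) (nat_lit 357799368065)) (.cons (.rf (nat_lit 1339) (nat_lit 289082315810)) (.cons (.rf (nat_lit 5013) (nat_lit 493823402543469922336)) (.cons (.br (nat_lit 7) (nat_lit 1) (.cons (.rf (nat_lit 84) (nat_lit 14302977058)) (.cons (.rf (nat_lit 84) (nat_lit 14237610210)) (.cons (.rf (nat_lit 5013) (nat_lit 493823402369525849120)) (.cons (.kr (nat_lit 281474976776192) (nat_lit 72057598332895232) (nat_lit 2) (nat_lit 0)) .nil))))) .nil)))))),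
 (.br (nat_lit 10) (nat_lit 1) (.cons (.rf (nat_lit 5013) (nat_lit 493858305440582043680)) (.cons (.rf (nat_lit 5013) (nat_lit 493858305266637970464)) (.cons (.rf (nat_lit 5014) (nat_lit 493858305440582043680)) (.cons (.rf (nat_lit 5015) (nat_lit 493858305440582043680)) (.cons (.br (nat_lit 10) (nat_lit 1) (.cons (.rf (nat_lit 5013) (nat_lit 493858305440582043680)) (.cons (.rf (nat_lit 5013) (nat_lit 493858305266637970464)) (.cons (.rf (nat_lit 5014) (nat_lit 493858305440582043680)) (.cons (.rf (nat_lit 5015) (nat_lit 493858305440582043680)) .nil))))) .nil)))))),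
 (.br (nat_lit 10) (nat_lit 1) (.cons (.rf (nat_lit 5013) (nat_lit 493858305440582043680)) (.cons (.rf (nat_lit 5013) (nat_lit 493858305266637970464)) (.cons (.rf (nat_lit 5016) (nat_lit 493858305440582043680)) (.cons (.br (nat_lit 10) (nat_lit 1) (.cons (.rf (nat_lit 5013) (nat_lit 493858305440582043680)) (.cons (.rf (nat_lit 5013) (nat_lit 493858305266637970464)) (.cons (.rf (nat_lit 5016) (nat_lit 493858305440582043680)) (.cons (.ev (nat_lit 1213648186098598348325121) (nat_lit 1)) .nil))))) (.cons (.br (nat_lit 10) (nat_lit 1) (.cons (.rf (nat_lit 5013) (nat_lit 493858305440582043680)) (.cons (.rf (nat_lit 5013) (nat_lit 493858305266637970464)) (.cons (.rf (nat_lit 5016) (nat_lit 493858305440582043680)) (.cons (.ev (nat_lit 1213648186098598348325121) (nat_lit 1)) .nil))))) .nil)))))),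
 (.br (nat_lit 11) (nat_lit 1) (.cons (.rf (nat_lit 5013) (nat_lit 493823402543469922336)) (.cons (.rf (nat_lit 5013) (nat_lit 493823402369525849120)) (.cons (.rf (nat_lit 5016) (nat_lit 493823402543469922336)) (.cons (.rf (nat_lit 5017) (nat_lit 493858305440582043680)) (.cons (.br (nat_lit 11) (nat_lit 1) (.cons (.rf (nat_lit 5013) (nat_lit 493823402543469922336)) (.cons (.rf (nat_lit 5013) (nat_lit 493823402369525849120)) (.cons (.rf (nat_lit 5016) (nat_lit 493823402543469922336)) (.cons (.rf (nat_lit 5017) (nat_lit 493858305440582043680)) .nil))))) .nil)))))),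
 (.br (nat_lit 12) (nat_lit 1) (.cons (.ev (nat_lit 1208925819614633469739264) (nat_lit 1)) (.cons (.ev (nat_lit 309485028340428211448971521) (nat_lit 1)) (.cons (.zr (nat_lit 20282409603651671271679306301696) (nat_lit 316912654779423833243854569474) (nat_lit 10) (nat_lit 5)) .nil)))),
 (.br (nat_lit 10) (nat_lit 1) (.cons (.ev (nat_lit 1208925891954797700972801) (nat_lit 1)) .nil)),
 (.br (nat_lit 12) (nat_lit 1) (.cons (.rf (nat_lit 4604) (nat_lit 445199173057351905)) (.cons (.ev (nat_lit 79229376162522775265185169665) (nat_lit 1)) (.cons (.ev (nat_lit 79537647524085682666580541696) (nat_lit 1)) (.cons (.rf (nat_lit 4604) (nat_lit 445023256733388865)) .nil))))),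
 (.br (nat_lit 7) (nat_lit 1) (.cons (.kr (nat_lit 281474976776192) (nat_lit 72057598332895232) (nat_lit 2) (nat_lit 0)) (.cons (.rf (nat_lit 1339) (nat_lit 289249924161)) (.cons (.br (nat_lit 8) (nat_lit 1) (.cons (.br (nat_lit 12) (nat_lit 1) (.cons (.ev (nat_lit 1208925819614633469739264) (nat_lit 1)) (.cons (.ev (nat_lit 309485028268089146729365761) (nat_lit 1)) (.cons (.br (nat_lit 10) (nat_lit 1) (.cons (.ev (nat_lit 80157831247255268781073825794) (nat_lit 2)) (.cons (.br (nat_lit 11) (nat_lit 1) (.cons (.ev (nat_lit 20838555375319042826488315707648) (nat_lit 3)) .nil)) .nil))) .nil)))) (.cons (.rf (nat_lit 84) (nat_lit 12155138119)) (.cons (.br (nat_lit 10) (nat_lit 1) (.cons (.br (nat_lit 11) (nat_lit 1) (.cons (.ev (nat_lit 79537652264971249778444796160) (nat_lit 1)) (.cons (.rf (nat_lit 5019) (nat_lit 493858305440582043680)) .nil))) (.cons (.ev (nat_lit 1208925819614633469739264) (nat_lit 1)) (.cons (.br (nat_lit 11) (nat_lit 1) (.cons (.rf (nat_lit 5020) (nat_lit 15433072045018155040))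 (.cons (.rf (nat_lit 5019) (nat_lit 493858305440582043680)) .nil))) .nil)))) .nil)))) (.cons (.rf (nat_lit 31) (nat_lit 343968135)) (.cons (.br (nat_lit 8) (nat_lit 1) (.cons (.br (nat_lit 10) (nat_lit 1) (.cons (.rf (nat_lit 5021) (nat_lit 493858305440582043680)) (.cons (.ev (nat_lit 1208925819614633469739264) (nat_lit 1)) (.cons (.br (nat_lit 12) (nat_lit 1) (.cons (.br (nat_lit 11) (nat_lit 1) (.cons (.ev (nat_lit 309489732187829037898400001) (nat_lit 1)) .nil)) (.cons (.ev (nat_lit 20361640198203192244387298017539) (nat_lit 2)) .nil))) .nil)))) (.cons (.rf (nat_lit 84) (nat_lit 14302621767)) (.cons (.br (nat_lit 12) (nat_lit 1) (.cons (.ev (nat_lit 1208925819614633469739264) (nat_lit 1)) (.cons (.br (nat_lit 13) (nat_lit 1) (.cons (.ev (nat_lit 20361638979832567885692124790785) (nat_lit 1)) (.cons (.rf (nat_lit 1386) (nat_lit 417696524594329099648)) .nil))) (.cons (.rf (nat_lit 84) (nat_lit 11019563233)) .nil)))) .nil)))) .nil)))))),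
 (.br (nat_lit 8) (nat_lit 1) (.cons (.rf (nat_lit 4604) (nat_lit 370817140535659680)) (.cons (.br (nat_lit 8) (nat_lit 1) (.cons (.rf (nat_lit 4604) (nat_lit 370817140535659680)) .nil)) .nil))),
 (.br (nat_lit 10) (nat_lit 1) (.cons (.br (nat_lit 11) (nat_lit 1) (.cons (.ev (nat_lit 79537647524085682666580541696) (nat_lit 1)) (.cons (.zr (nat_lit 3626833015248899356491776) (nat_lit 618988909108904190535532545) (nat_lit 5) (nat_lit 0)) .nil))) (.cons (.ev (nat_lit 1213666705181745367548160) (nat_lit 1)) (.cons (.br (nat_lit 12) (nat_lit 1) (.cons (.br (nat_lit 11) (nat_lit 1) (.cons (.ev (nat_lit 309489732187829037898400001) (nat_lit 1)) .nil)) (.cons (.rf (nat_lit 84) (nat_lit 9037028386)) .nil))) .nil)))),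
 (.br (nat_lit 10) (nat_lit 1) (.cons (.ev (nat_lit 79229371458603035365459624193) (nat_lit 1)) .nil)),
 (.br (nat_lit 7) (nat_lit 1) (.cons (.rf (nat_lit 5024) (nat_lit 493858305440582043680)) (.cons (.br (nat_lit 10) (nat_lit 1) (.cons (.ev (nat_lit 1208925891953698189345024) (nat_lit 1)) (.cons (.br (nat_lit 12) (nat_lit 1) (.cons (.ev (nat_lit 20838555375319042826488315707648) (nat_lit 3)) .nil)) .nil))) (.cons (.rf (nat_lit 5025) (nat_lit 493858305440582043680)) (.cons (.rf (nat_lit 5021) (nat_lit 493858305440582043680)) .nil))))),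
 (.br (nat_lit 10) (nat_lit 1) (.cons (.ev (nat_lit 1213666705181745367548160) (nat_lit 1)) (.cons (.rf (nat_lit 5026) (nat_lit 493858305440582043680)) (.cons (.br (nat_lit 7) (nat_lit 1) (.cons (.ev (nat_lit 79229376162522775265185169665) (nat_lit 1)) (.cons (.ev (nat_lit 1208925891953698189345024) (nat_lit 1)) .nil))) .nil)))),
 (.br (nat_lit 8) (nat_lit 1) (.cons (.kr (nat_lit 281474976776192) (nat_lit 72057598332895232) (nat_lit 2) (nat_lit 0)) (.cons (.rf (nat_lit 5022) (nat_lit 493858305440582043680)) (.cons (.br (nat_lit 7) (nat_lit 1) (.cons (.rf (nat_lit 82) (nat_lit 12155334721)) (.cons (.rf (nat_lit 84) (nat_lit 11115147329)) (.cons (.rf (nat_lit 5023) (nat_lit 482283501406784577)) .nil)))) (.cons (.br (nat_lit 10) (nat_lit 1) (.cons (.rf (nat_lit 5024) (nat_lit 493858305440582043680)) (.cons (.rf (nat_lit 5026) (nat_lit 493858305440582043680)) (.cons (.rf (nat_lit 5027) (nat_lit 493858305440582043680)) (.cons (.br (nat_lit 10) (nat_lit 1) (.cons (.rf (nat_lit 5024) (nat_lit 493858305440582043680))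 (.cons (.rf (nat_lit 5026) (nat_lit 493858305440582043680)) (.cons (.rf (nat_lit 5027) (nat_lit 493858305440582043680)) .nil)))) .nil))))) .nil))))),
 (.br (nat_lit 6) (nat_lit 1) (.cons (.rf (nat_lit 82) (nat_lit 13194439745)) (.cons (.rf (nat_lit 4954) (nat_lit 14241868804271478816)) (.cons (.rf (nat_lit 84) (nat_lit 10073877569)) .nil)))),
 (.br (nat_lit 8) (nat_lit 1) (.cons (.kr (nat_lit 281474976776192) (nat_lit 72057598332895232) (nat_lit 2) (nat_lit 0)) (.cons (.rf (nat_lit 5022) (nat_lit 493858305440582043680)) (.cons (.rf (nat_lit 5028) (nat_lit 493858305440582043680)) (.cons (.br (nat_lit 8) (nat_lit 1) (.cons (.kr (nat_lit 281474976776192) (nat_lit 72057598332895232) (nat_lit 2) (nat_lit 0)) (.cons (.rf (nat_lit 1339) (nat_lit 357799695394)) (.cons (.rf (nat_lit 5028) (nat_lit 493858305440582043680)) (.cons (.rf (nat_lit 5029) (nat_lit 15433072045018155040)) .nil))))) (.cons (.br (nat_lit 8) (nat_lit 1) (.cons (.kr (nat_lit 281474976776192) (nat_lit 72057598332895232) (nat_lit 2) (nat_lit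 0)) (.cons (.rf (nat_lit 5022) (nat_lit 493858305440582043680)) (.cons (.rf (nat_lit 5028) (nat_lit 493858305440582043680)) (.cons (.rf (nat_lit 5029) (nat_lit 15433072045018155040)) .nil))))) .nil))))))]

theorem c175 : chkAll C T R L175 (nat_lit 5006) = true := by decide +kernel

theorem l175 : (nat_lit 5006) + L175.length = (nat_lit 5031) := by decide +kernel

/-- part of the certificates -/
def L176 : List Prf := [(.br (nat_lit 10) (nat_lit 1) (.cons (.zr (nat_lit 3626777675016678227836928) (nat_lit 4759260253591569432577) (nat_lit 5) (nat_lit 9)) (.cons (.ev (nat_lit 79229376162522775265185169665) (nat_lit 1)) (.cons (.zr (nat_lit 3626777459406837477736448) (nat_lit 4759259972120887689217) (nat_lit 5) (nat_lit 9)) .nil)))),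
 (.br (nat_lit 13) (nat_lit 1) (.cons (.ev (nat_lit 20282719093402305278538114138113) (nat_lit 1)) (.cons (.zr (nat_lit 3626777459406837477736448) (nat_lit 4759259972120887689217) (nat_lit 5) (nat_lit 9)) (.cons (.br (nat_lit 7) (nat_lit 1) (.cons (.ev (nat_lit 20838560229838000240188757180676) (nat_lit 3)) .nil)) .nil)))),
 (.br (nat_lit 13) (nat_lit 1) (.cons (.rf (nat_lit 5031) (nat_lit 493858305440582043680)) (.cons (.zr (nat_lit 3626777459406837477736448) (nat_lit 4759259972120887689217) (nat_lit 5) (nat_lit 9)) (.cons (.rf (nat_lit 5032) (nat_lit 493858305440582043680)) (.cons (.br (nat_lit 13) (nat_lit 1) (.cons (.rf (nat_lit 5031) (nat_lit 493858305440582043680)) (.cons (.zr (nat_lit 3626777459406837477736448) (nat_lit 4759259972120887689217) (nat_lit 5) (nat_lit 9)) (.cons (.rf (nat_lit 5032) (nat_lit 493858305440582043680)) .nil)))) .nil))))),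
 (.br (nat_lit 11) (nat_lit 1) (.cons (.rf (nat_lit 5033) (nat_lit 493858305440582043680)) (.cons (.rf (nat_lit 5033) (nat_lit 493858305266637970464)) (.cons (.rf (nat_lit 4727) (nat_lit 491446631138660026400)) (.cons (.br (nat_lit 13) (nat_lit 1) (.cons (.zr (nat_lit 3626777459406837477736448) (nat_lit 4759259972120887689217) (nat_lit 5) (nat_lit 9)) (.cons (.zr (nat_lit 3626777675016678227836928) (nat_lit 4759260253591569432577) (nat_lit 5) (nat_lit 9)) (.cons (.kr (nat_lit 309485009821345068741558272) (nat_lit 79229371440083952222718656512) (nat_lit 3) (nat_lit 0)) .nil)))) .nil))))),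
 (.br (nat_lit 8) (nat_lit 1) (.cons (.rf (nat_lit 5030) (nat_lit 493858305440582043680)) (.cons (.rf (nat_lit 5030) (nat_lit 493858305266637970464)) (.cons (.br (nat_lit 2) (nat_lit 1) (.cons (.rf (nat_lit 31) (nat_lit 343978210)) (.cons (.ev (nat_lit 4740813226947649798401) (nat_lit 1)) (.cons (.br (nat_lit 7) (nat_lit 1) (.cons (.ev (nat_lit 4740885566012369404161) (nat_lit 1)) (.cons (.kr (nat_lit 281474976776192) (nat_lit 72057598332895232) (nat_lit 2) (nat_lit 0)) (.cons (.ev (nat_lit 79228162532783421840074801408) (nat_lit 1)) .nil)))) (.cons (.br (nat_lit 7) (nat_lit 1) (.cons (.ev (nat_lit 4740885566012369404161) (nat_lit 1)) (.cons (.ev (nat_lit 79228162532783421840074801408) (nat_lit 1)) (.cons (.kr (nat_lit 281474976776192) (nat_lit 72057598332895232) (nat_lit 2) (nat_lit 0)) .nil)))) .nil))))) (.cons (.br (nat_lit 11) (nat_lit 1) (.cons (.rf (nat_lit 5033) (nat_lit 493858305440582043680)) (.cons (.rf (nat_lit 5033) (nat_lit 493858305266637970464)) (.cons (.rf (nat_lit 5034) (nat_lit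 493858305440582043680)) (.cons (.br (nat_lit 11) (nat_lit 1) (.cons (.rf (nat_lit 5033) (nat_lit 493858305440582043680)) (.cons (.rf (nat_lit 5033) (nat_lit 493858305266637970464)) (.cons (.rf (nat_lit 4727) (nat_lit 491446631138660026400)) (.cons (.ev (nat_lit 309489732187829037898400001) (nat_lit 1)) .nil))))) (.cons (.br (nat_lit 11) (nat_lit 1) (.cons (.rf (nat_lit 5033) (nat_lit 493858305440582043680)) (.cons (.rf (nat_lit 5033) (nat_lit 493858305266637970464)) (.cons (.rf (nat_lit 5034) (nat_lit 493858305440582043680)) (.cons (.ev (nat_lit 309489732187829037898400001) (nat_lit 1)) .nil))))) .nil)))))) .nil))))),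
 (.br (nat_lit 8) (nat_lit 1) (.cons (.rf (nat_lit 5030) (nat_lit 493858305440582043680)) (.cons (.rf (nat_lit 5030) (nat_lit 493858305266637970464)) (.cons (.rf (nat_lit 5035) (nat_lit 493858305440582043680)) (.cons (.br (nat_lit 8) (nat_lit 1) (.cons (.rf (nat_lit 1339) (nat_lit 357799695394)) (.cons (.rf (nat_lit 1339) (nat_lit 357631923239)) (.cons (.rf (nat_lit 5035) (nat_lit 493858305440582043680)) (.cons (.ev (nat_lit 79228162532711082766765129984) (nat_lit 1)) .nil))))) (.cons (.br (nat_lit 8) (nat_lit 1) (.cons (.rf (nat_lit 5030) (nat_lit 493858305440582043680)) (.cons (.rf (nat_lit 5030) (nat_lit 493858305266637970464)) (.cons (.rf (nat_lit 5035) (nat_lit 493858305440582043680)) (.cons (.ev (nat_lit 79228162532711082766765129984) (nat_lit 1)) .nil))))) .nil)))))),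
 (.br (nat_lit 13) (nat_lit 1) (.cons (.ev (nat_lit 4740813226947649798401) (nat_lit 1)) (.cons (.ev (nat_lit 4740885566012369404161) (nat_lit 1)) (.cons (.br (nat_lit 2) (nat_lit 1) (.cons (.kr (nat_lit 158456334491708387199111135488) (nat_lit 60847228810955083329435842183168) (nat_lit 1) (nat_lit 0)) (.cons (.br (nat_lit 7) (nat_lit 1) (.cons (.ev (nat_lit 79228162532783421840074801408) (nat_lit 1)) .nil)) (.cons (.br (nat_lit 7) (nat_lit 1) (.cons (.ev (nat_lit 79228162532783421840074801408) (nat_lit 1)) .nil)) .nil)))) .nil)))),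
 (.br (nat_lit 8) (nat_lit 1) (.cons (.rf (nat_lit 5030) (nat_lit 493858305440582043680)) (.cons (.rf (nat_lit 5030) (nat_lit 493858305266637970464)) (.cons (.rf (nat_lit 5036) (nat_lit 493858305440582043680)) (.cons (.br (nat_lit 13) (nat_lit 1) (.cons (.ev (nat_lit 4740813226947649798401) (nat_lit 1)) (.cons (.ev (nat_lit 4740885566012369404161) (nat_lit 1)) (.cons (.rf (nat_lit 5037) (nat_lit 493858305440582043680)) (.cons (.br (nat_lit 13) (nat_lit 1) (.cons (.ev (nat_lit 4740813226947649798401) (nat_lit 1)) (.cons (.ev (nat_lit 4740885566012369404161) (nat_lit 1)) (.cons (.rf (nat_lit 5037) (nat_lit 493858305440582043680)) .nil)))) .nil))))) .nil))))),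
 (.br (nat_lit 8) (nat_lit 1) (.cons (.rf (nat_lit 5030) (nat_lit 493858305440582043680)) (.cons (.rf (nat_lit 5030) (nat_lit 493858305266637970464)) (.cons (.rf (nat_lit 5036) (nat_lit 493858305440582043680)) (.cons (.rf (nat_lit 5038) (nat_lit 493858305440582043680)) (.cons (.br (nat_lit 8) (nat_lit 1) (.cons (.rf (nat_lit 5030) (nat_lit 493858305440582043680)) (.cons (.rf (nat_lit 5030) (nat_lit 493858305266637970464)) (.cons (.rf (nat_lit 5036) (nat_lit 493858305440582043680)) (.cons (.rf (nat_lit 5038) (nat_lit 493858305440582043680)) .nil))))) .nil)))))),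
 (.br (nat_lit 8) (nat_lit 1) (.cons (.rf (nat_lit 5030) (nat_lit 493858305440582043680)) (.cons (.rf (nat_lit 5030) (nat_lit 493858305266637970464)) (.cons (.rf (nat_lit 5036) (nat_lit 493858305440582043680)) (.cons (.rf (nat_lit 5039) (nat_lit 493858305440582043680)) (.cons (.br (nat_lit 8) (nat_lit 1) (.cons (.rf (nat_lit 5029) (nat_lit 15433072045018155040)) (.cons (.rf (nat_lit 5029) (nat_lit 15433072039582342176)) (.cons (.ev (nat_lit 79228162532711082766765129984) (nat_lit 1)) (.cons (.rf (nat_lit 5039) (nat_lit 493858305440582043680)) .nil))))) .nil)))))),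
 (.br (nat_lit 8) (nat_lit 1) (.cons (.rf (nat_lit 5030) (nat_lit 493858305440582043680)) (.cons (.rf (nat_lit 5030) (nat_lit 493858305266637970464)) (.cons (.rf (nat_lit 5036) (nat_lit 493858305440582043680)) (.cons (.rf (nat_lit 5039) (nat_lit 493858305440582043680)) (.cons (.rf (nat_lit 5040) (nat_lit 493858305440582043680)) (.cons (.br (nat_lit 8) (nat_lit 1) (.cons (.rf (nat_lit 5030) (nat_lit 493858305440582043680)) (.cons (.rf (nat_lit 5030) (nat_lit 493858305266637970464)) (.cons (.rf (nat_lit 5036) (nat_lit 493858305440582043680)) (.cons (.rf (nat_lit 5039) (nat_lit 493858305440582043680)) (.cons (.rf (nat_lit 5040) (nat_lit 493858305440582043680)) .nil)))))) .nil))))))),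
 (.br (nat_lit 10) (nat_lit 1) (.cons (.br (nat_lit 11) (nat_lit 1) (.cons (.ev (nat_lit 309489732187829037898400001) (nat_lit 1)) (.cons (.ev (nat_lit 313116564987470308446502914) (nat_lit 2)) .nil))) (.cons (.ev (nat_lit 79229376180897180265585049856) (nat_lit 1)) (.cons (.br (nat_lit 11) (nat_lit 1) (.cons (.rf (nat_lit 3398) (nat_lit 308298497495068188041)) (.cons (.ev (nat_lit 20282410812596008840248485216256) (nat_lit 1)) .nil))) .nil)))),
 (.br (nat_lit 10) (nat_lit 1) (.cons (.ev (nat_lit 79229376180897180265585049856) (nat_lit 1)) (.cons (.ev (nat_lit 1213648186098598348325121) (nat_lit 1)) (.cons (.ev (nat_lit 79229371440083952227030466816) (nat_lit 1)) .nil)))),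
 (.br (nat_lit 11) (nat_lit 1) (.cons (.rf (nat_lit 84) (nat_lit 13163900129)) (.cons (.rf (nat_lit 84) (nat_lit 11018513447)) (.cons (.rf (nat_lit 3398) (nat_lit 384365594824032848224)) .nil)))),
 (.br (nat_lit 9) (nat_lit 1) (.cons (.ev (nat_lit 1208925891954797700972801) (nat_lit 1)) (.cons (.rf (nat_lit 5020) (nat_lit 10784300563429427232)) .nil))),
 (.br (nat_lit 8) (nat_lit 1) (.cons (.kr (nat_lit 281474976776192) (nat_lit 72057598332895232) (nat_lit 2) (nat_lit 0)) (.cons (.br (nat_lit 7) (nat_lit 1) (.cons (.rf (nat_lit 5042) (nat_lit 493858305440582043680)) (.cons (.rf (nat_lit 5042) (nat_lit 493823402543469922336)) (.cons (.rf (nat_lit 1593) (nat_lit 388771349895)) (.cons (.br (nat_lit 12) (nat_lit 1) (.cons (.rf (nat_lit 5043) (nat_lit 493858305440582043680)) (.cons (.rf (nat_lit 5043) (nat_lit 493823402543469922336)) (.cons (.zr (nat_lit 237684496987526541469875766017) (nat_lit 40564819207340450509932153798656) (nat_lit 5) (nat_lit 3)) .nil)))) .nil))))) (.cons (.rf (nat_lit 5029) (nat_lit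 11974413084313880608)) (.cons (.br (nat_lit 7) (nat_lit 1) (.cons (.rf (nat_lit 5044) (nat_lit 15431909825759512608)) (.cons (.br (nat_lit 12) (nat_lit 1) (.cons (.br (nat_lit 10) (nat_lit 1) (.cons (.ev (nat_lit 1213648186098598348325121) (nat_lit 1)) (.cons (.ev (nat_lit 79229371440083952227030466816) (nat_lit 1)) .nil))) (.cons (.rf (nat_lit 5045) (nat_lit 15433072045018155040)) (.cons (.rf (nat_lit 84) (nat_lit 12093304871)) .nil)))) (.cons (.rf (nat_lit 31) (nat_lit 444631431)) (.cons (.rf (nat_lit 2594) (nat_lit 14296559841)) .nil))))) .nil))))),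
 (.br (nat_lit 8) (nat_lit 1) (.cons (.kr (nat_lit 281474976776192) (nat_lit 72057598332895232) (nat_lit 2) (nat_lit 0)) (.cons (.rf (nat_lit 5046) (nat_lit 493858305440582043680)) (.cons (.rf (nat_lit 5046) (nat_lit 493823402543469922336)) (.cons (.br (nat_lit 8) (nat_lit 1) (.cons (.kr (nat_lit 281474976776192) (nat_lit 72057598332895232) (nat_lit 2) (nat_lit 0)) (.cons (.rf (nat_lit 5029) (nat_lit 11974413084313880608)) (.cons (.rf (nat_lit 5029) (nat_lit 13126208689013884960)) (.cons (.rf (nat_lit 4982) (nat_lit 459906746407)) .nil))))) (.cons (.br (nat_lit 8) (nat_lit 1) (.cons (.kr (nat_lit 281474976776192) (nat_lit 72057598332895232) (nat_lit 2) (nat_lit 0)) (.cons (.rf (nat_lit 5046) (nat_lit 493858305440582043680)) (.cons (.rf (nat_lit 5046) (nat_lit 493823402543469922336)) (.cons (.rf (nat_lit 4982) (nat_lit 459906746407)) .nil))))) .nil)))))),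
 (.br (nat_lit 7) (nat_lit 1) (.cons (.kr (nat_lit 281474976776192) (nat_lit 72057598332895232) (nat_lit 2) (nat_lit 0)) (.cons (.ev (nat_lit 79228162532783421840074801408) (nat_lit 1)) (.cons (.ev (nat_lit 4740885566012369404161) (nat_lit 1)) .nil)))),
 (.br (nat_lit 13) (nat_lit 1) (.cons (.ev (nat_lit 4740813226947649798401) (nat_lit 1)) (.cons (.ev (nat_lit 4740885566012369404161) (nat_lit 1)) (.cons (.br (nat_lit 2) (nat_lit 1) (.cons (.kr (nat_lit 9463179712012023234816) (nat_lit 60926456973469347667029335801856) (nat_lit 1) (nat_lit 0)) (.cons (.rf (nat_lit 5048) (nat_lit 493858305440582043680)) (.cons (.rf (nat_lit 5048) (nat_lit 493823402543469922336)) .nil)))) .nil)))),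
 (.br (nat_lit 7) (nat_lit 1) (.cons (.br (nat_lit 11) (nat_lit 1) (.cons (.ev (nat_lit 79538861172271780165400461568) (nat_lit 1)) .nil)) (.cons (.ev (nat_lit 20361638984573597566901160116480) (nat_lit 2)) .nil))),
 (.br (nat_lit 10) (nat_lit 1) (.cons (.rf (nat_lit 5050) (nat_lit 493858305440582043680)) (.cons (.rf (nat_lit 5050) (nat_lit 493858305266637970464)) (.cons (.ev (nat_lit 1213648186098598348325121) (nat_lit 1)) (.cons (.rf (nat_lit 4727) (nat_lit 421118418258130733088)) .nil))))),
 (.br (nat_lit 7) (nat_lit 1) (.cons (.kr (nat_lit 281474976776192) (nat_lit 72057598332895232) (nat_lit 2) (nat_lit 0)) (.cons (.br (nat_lit 10) (nat_lit 1) (.cons (.ev (nat_lit 20837317454169223377691997438208) (nat_lit 3)) .nil)) .nil))),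
 (.br (nat_lit 8) (nat_lit 1) (.cons (.rf (nat_lit 5047) (nat_lit 493858305440582043680)) (.cons (.rf (nat_lit 5047) (nat_lit 493858305266637970464)) (.cons (.br (nat_lit 13) (nat_lit 1) (.cons (.ev (nat_lit 4740813226947649798401) (nat_lit 1)) (.cons (.ev (nat_lit 4740885566012369404161) (nat_lit 1)) (.cons (.rf (nat_lit 5049) (nat_lit 493858305440582043680)) (.cons (.rf (nat_lit 5049) (nat_lit 493823402543469922336)) .nil))))) (.cons (.br (nat_lit 12) (nat_lit 1) (.cons (.ev (nat_lit 4740813226947649798401) (nat_lit 1)) (.cons (.ev (nat_lit 4740885566012369404161) (nat_lit 1)) (.cons (.rf (nat_lit 5051) (nat_lit 493858305440582043680)) (.cons (.rf (nat_lit 5051) (nat_lit 493823402543469922336)) (.cons (.br (nat_lit 2) (nat_lit 1) (.cons (.rf (nat_lit 29) (nat_lit 14025954)) (.cons (.rf (nat_lit 5052) (nat_lit 493858305440582043680)) (.cons (.rf (nat_lit 5052) (nat_lit 493823402543469922336)) .nil)))) .nil)))))) .nil))))),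
 (.br (nat_lit 8) (nat_lit 1) (.cons (.rf (nat_lit 5029) (nat_lit 11974413084313880608)) (.cons (.rf (nat_lit 5029) (nat_lit 11974413078878067744)) (.cons (.rf (nat_lit 5053) (nat_lit 493858305440582043680)) (.cons (.br (nat_lit 2) (nat_lit 1) (.cons (.rf (nat_lit 31) (nat_lit 444641506)) (.cons (.br (nat_lit 7) (nat_lit 1) (.cons (.kr (nat_lit 281474976776192) (nat_lit 72057598332895232) (nat_lit 2) (nat_lit 0)) (.cons (.ev (nat_lit 4740885566012369404161) (nat_lit 1)) (.cons (.ev (nat_lit 79228162532783421840074801408) (nat_lit 1)) .nil)))) (.cons (.ev (nat_lit 4740813226947649798401) (nat_lit 1)) (.cons (.rf (nat_lit 2594) (nat_lit 14307040321)) .nil))))) .nil))))),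
 (.br (nat_lit 8) (nat_lit 1) (.cons (.rf (nat_lit 5047) (nat_lit 493858305440582043680)) (.cons (.rf (nat_lit 5047) (nat_lit 493858305266637970464)) (.cons (.rf (nat_lit 5053) (nat_lit 493858305440582043680)) (.cons (.rf (nat_lit 5054) (nat_lit 493858305440582043680)) (.cons (.br (nat_lit 8) (nat_lit 1) (.cons (.rf (nat_lit 5047) (nat_lit 493858305440582043680)) (.cons (.rf (nat_lit 5047) (nat_lit 493858305266637970464)) (.cons (.rf (nat_lit 5053) (nat_lit 493858305440582043680)) (.cons (.rf (nat_lit 5054) (nat_lit 493858305440582043680)) .nil))))) .nil)))))),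
 (.br (nat_lit 8) (nat_lit 1) (.cons (.rf (nat_lit 5047) (nat_lit 493858305440582043680)) (.cons (.rf (nat_lit 5047) (nat_lit 493858305266637970464)) (.cons (.rf (nat_lit 5055) (nat_lit 493858305440582043680)) (.cons (.rf (nat_lit 5055) (nat_lit 493823402543469922336)) (.cons (.br (nat_lit 8) (nat_lit 1) (.cons (.rf (nat_lit 4982) (nat_lit 459906746407)) (.cons (.rf (nat_lit 4982) (nat_lit 459906751522)) (.cons (.rf (nat_lit 5055) (nat_lit 493858305440582043680)) (.cons (.rf (nat_lit 5055) (nat_lit 493823402543469922336)) .nil))))) .nil)))))),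
 (.br (nat_lit 12) (nat_lit 0) (.cons (.br (nat_lit 6) (nat_lit 1) (.cons (.br (nat_lit 2) (nat_lit 1) (.cons (.br (nat_lit 8) (nat_lit 1) (.cons (.rf (nat_lit 4885) (nat_lit 493858305440582043680)) (.cons (.rf (nat_lit 4892) (nat_lit 493858305440582043680)) (.cons (.rf (nat_lit 4892) (nat_lit 493823402543469922336)) (.cons (.rf (nat_lit 4893) (nat_lit 493858305440582043680)) (.cons (.br (nat_lit 8) (nat_lit 1) (.cons (.rf (nat_lit 4885) (nat_lit 493858305440582043680)) (.cons (.rf (nat_lit 4892) (nat_lit 493858305440582043680)) (.cons (.rf (nat_lit 4892) (nat_lit 493823402543469922336)) (.cons (.rf (nat_lit 4893) (nat_lit 493858305440582043680)) .nil))))) .nil)))))) (.cons (.br (nat_lit 8) (nat_lit 1) (.cons (.rf (nat_lit 4895) (nat_lit 493858305440582043680)) (.cons (.rf (nat_lit 4900) (nat_lit 493858305440582043680)) (.cons (.rf (nat_lit 4900) (nat_lit 493823402543469922336)) (.cons (.rf (nat_lit 4901) (nat_lit 493858305440582043680)) (.cons (.br (nat_lit 8) (nat_lit 1) (.cons (.rf (nat_lit 4895)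 (nat_lit 493858305440582043680)) (.cons (.rf (nat_lit 4900) (nat_lit 493858305440582043680)) (.cons (.rf (nat_lit 4900) (nat_lit 493823402543469922336)) (.cons (.rf (nat_lit 4901) (nat_lit 493858305440582043680)) .nil))))) .nil)))))) (.cons (.br (nat_lit 10) (nat_lit 1) (.cons (.rf (nat_lit 4915) (nat_lit 493858305440582043680)) (.cons (.rf (nat_lit 4925) (nat_lit 493858305440582043680)) (.cons (.rf (nat_lit 4931) (nat_lit 493858305440582043680)) (.cons (.rf (nat_lit 4933) (nat_lit 493858305440582043680)) (.cons (.rf (nat_lit 4934) (nat_lit 493858305440582043680)) (.cons (.br (nat_lit 10) (nat_lit 1) (.cons (.rf (nat_lit 4915) (nat_lit 493858305440582043680)) (.cons (.rf (nat_lit 4925) (nat_lit 493858305440582043680)) (.cons (.rf (nat_lit 4931) (nat_lit 493858305440582043680)) (.cons (.rf (nat_lit 4933) (nat_lit 493858305440582043680)) (.cons (.rf (nat_lit 4934) (nat_lit 493858305440582043680)) .nil)))))) .nil))))))) (.cons (.rf (nat_lit 4968) (nat_lit 493858305440582043680)) (.cons (.rf (nat_lit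 4968) (nat_lit 493823402543469922336)) (.cons (.kr (nat_lit 4294967296) (nat_lit 79228162514264337593543950336) (nat_lit 4) (nat_lit 0)) (.cons (.br (nat_lit 8) (nat_lit 1) (.cons (.rf (nat_lit 4979) (nat_lit 493858305440582043680)) (.cons (.rf (nat_lit 4983) (nat_lit 493858305440582043680)) (.cons (.rf (nat_lit 4992) (nat_lit 493858305440582043680)) (.cons (.rf (nat_lit 4992) (nat_lit 493823402543469922336)) (.cons (.rf (nat_lit 4993) (nat_lit 493858305440582043680)) (.cons (.br (nat_lit 8) (nat_lit 1) (.cons (.rf (nat_lit 4979) (nat_lit 493858305440582043680)) (.cons (.rf (nat_lit 4983) (nat_lit 493858305440582043680)) (.cons (.rf (nat_lit 4992) (nat_lit 493858305440582043680)) (.cons (.rf (nat_lit 4992) (nat_lit 493823402543469922336)) (.cons (.rf (nat_lit 4993) (nat_lit 493858305440582043680)) .nil)))))) .nil))))))) .nil)))))))) .nil)) (.cons (.br (nat_lit 5) (nat_lit 1) (.cons (.br (nat_lit 1) (nat_lit 1) (.cons (.rf (nat_lit 5005) (nat_lit 493858305440582043680)) (.cons (.rf (nat_lit 5005)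 (nat_lit 493858305266637970464)) (.cons (.br (nat_lit 10) (nat_lit 1) (.cons (.rf (nat_lit 5013) (nat_lit 493858305440582043680)) (.cons (.rf (nat_lit 5013) (nat_lit 493858305266637970464)) (.cons (.rf (nat_lit 5016) (nat_lit 493858305440582043680)) (.cons (.rf (nat_lit 5017) (nat_lit 493858305440582043680)) (.cons (.rf (nat_lit 5018) (nat_lit 493858305440582043680)) (.cons (.br (nat_lit 10) (nat_lit 1) (.cons (.rf (nat_lit 5013) (nat_lit 493858305440582043680)) (.cons (.rf (nat_lit 5013) (nat_lit 493858305266637970464)) (.cons (.rf (nat_lit 5016) (nat_lit 493858305440582043680)) (.cons (.rf (nat_lit 5017) (nat_lit 493858305440582043680)) (.cons (.rf (nat_lit 5018) (nat_lit 493858305440582043680)) .nil)))))) .nil))))))) (.cons (.rf (nat_lit 5041) (nat_lit 493858305440582043680)) (.cons (.rf (nat_lit 5041) (nat_lit 493823402543469922336)) (.cons (.kr (nat_lit 16777216) (nat_lit 79228162514264337593543950336) (nat_lit 3) (nat_lit 0)) (.cons (.br (nat_lit 8) (nat_lit 1) (.cons (.rf (nat_lit 5047) (nat_lit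 493858305440582043680)) (.cons (.rf (nat_lit 5047) (nat_lit 493858305266637970464)) (.cons (.rf (nat_lit 5055) (nat_lit 493858305440582043680)) (.cons (.rf (nat_lit 5055) (nat_lit 493823402543469922336)) (.cons (.rf (nat_lit 5056) (nat_lit 493858305440582043680)) (.cons (.br (nat_lit 8) (nat_lit 1) (.cons (.rf (nat_lit 5047) (nat_lit 493858305440582043680)) (.cons (.rf (nat_lit 5047) (nat_lit 493858305266637970464)) (.cons (.rf (nat_lit 5055) (nat_lit 493858305440582043680)) (.cons (.rf (nat_lit 5055) (nat_lit 493823402543469922336)) (.cons (.rf (nat_lit 5056) (nat_lit 493858305440582043680)) .nil)))))) .nil))))))) .nil)))))))) .nil)) .nil)))]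

theorem c176 : chkAll C T R L176 (nat_lit 5031) = true := by decide +kernel

theorem l176 : (nat_lit 5031) + L176.length = (nat_lit 5058) := by decide +kernel

/-- part of the certificates -/
def L177 : List Prf := [(.br (nat_lit 4) (nat_lit 1) (.cons (.rf (nat_lit 5057) (nat_lit 14242959524133701664)) (.cons (.br (nat_lit 6) (nat_lit 1) (.cons (.rf (nat_lit 5057) (nat_lit 14242959350189628448)) .nil)) .nil))),
 (.br (nat_lit 3) (nat_lit 1) (.cons (.rf (nat_lit 5058) (nat_lit 14242959524133701664)) (.cons (.br (nat_lit 5) (nat_lit 1) (.cons (.rf (nat_lit 5058) (nat_lit 15395881028673505312)) .nil)) .nil))),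
 (.br (nat_lit 8) (nat_lit 1) (.cons (.rf (nat_lit 1593) (nat_lit 388939132993)) (.cons (.rf (nat_lit 29) (nat_lit 8789057)) (.cons (.rf (nat_lit 4995) (nat_lit 493858305440515000352)) .nil)))),
 (.br (nat_lit 8) (nat_lit 1) (.cons (.rf (nat_lit 5060) (nat_lit 14242959524133701664)) (.cons (.rf (nat_lit 5060) (nat_lit 14208056627021580320)) (.cons (.rf (nat_lit 29) (nat_lit 8789057)) (.cons (.br (nat_lit 8) (nat_lit 1) (.cons (.rf (nat_lit 5060) (nat_lit 14242959524133701664)) (.cons (.rf (nat_lit 5060) (nat_lit 14208056627021580320)) (.cons (.rf (nat_lit 29) (nat_lit 8789057)) .nil)))) .nil))))),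
 (.br (nat_lit 10) (nat_lit 1) (.cons (.zr (nat_lit 3626777459406837477736448) (nat_lit 4759259972120887689217) (nat_lit 5) (nat_lit 9)) (.cons (.rf (nat_lit 29) (nat_lit 10886209)) (.cons (.rf (nat_lit 4886) (nat_lit 15433072044983552032)) .nil)))),
 (.br (nat_lit 10) (nat_lit 1) (.cons (.ev (nat_lit 1213648258436567851401473) (nat_lit 1)) (.cons (.ev (nat_lit 79229376180897179166090199296) (nat_lit 1)) .nil))),
 (.br (nat_lit 8) (nat_lit 1) (.cons (.rf (nat_lit 1593) (nat_lit 388939132993)) (.cons (.rf (nat_lit 1593) (nat_lit 389106900033)) (.cons (.br (nat_lit 7) (nat_lit 1) (.cons (.rf (nat_lit 5062) (nat_lit 493858305440582043680)) (.cons (.rf (nat_lit 5062) (nat_lit 493823402543469922336)) (.cons (.ev (nat_lit 79228167255149903610208321793) (nat_lit 1)) (.cons (.br (nat_lit 12) (nat_lit 1) (.cons (.rf (nat_lit 5063) (nat_lit 493858305440582043680)) (.cons (.rf (nat_lit 5063) (nat_lit 493823402543469922336)) (.cons (.kr (nat_lit 281474976710657) (nat_lit 20282409603651670423947251286272) (nat_lit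 0) (nat_lit 2)) .nil)))) .nil))))) .nil)))),
 (.br (nat_lit 10) (nat_lit 1) (.cons (.br (nat_lit 11) (nat_lit 1) (.cons (.ev (nat_lit 20282409608374037188296168243201) (nat_lit 1)) .nil)) .nil)),
 (.br (nat_lit 8) (nat_lit 1) (.cons (.rf (nat_lit 29) (nat_lit 8789057)) (.cons (.rf (nat_lit 1593) (nat_lit 389106900033)) (.cons (.br (nat_lit 7) (nat_lit 1) (.cons (.rf (nat_lit 31) (nat_lit 344174657)) (.cons (.br (nat_lit 10) (nat_lit 1) (.cons (.rf (nat_lit 5065) (nat_lit 493858305440582043680)) (.cons (.br (nat_lit 11) (nat_lit 1) (.cons (.rf (nat_lit 5065) (nat_lit 493858305440582043680)) (.cons (.ev (nat_lit 20282409608374037188296168243201) (nat_lit 1)) .nil))) .nil))) (.cons (.rf (nat_lit 31) (nat_lit 444837953)) .nil)))) .nil)))),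
 (.br (nat_lit 8) (nat_lit 1) (.cons (.rf (nat_lit 5061) (nat_lit 14242959524133701664)) (.cons (.rf (nat_lit 5064) (nat_lit 493858305440582043680)) (.cons (.rf (nat_lit 5066) (nat_lit 493858305440582043680)) (.cons (.br (nat_lit 8) (nat_lit 1) (.cons (.rf (nat_lit 5061) (nat_lit 14242959524133701664)) (.cons (.rf (nat_lit 5064) (nat_lit 493858305440582043680)) (.cons (.rf (nat_lit 5066) (nat_lit 493858305440582043680)) .nil)))) .nil))))),
 (.br (nat_lit 8) (nat_lit 1) (.cons (.rf (nat_lit 29) (nat_lit 8789057)) (.cons (.rf (nat_lit 5066) (nat_lit 493858305440582043680)) (.cons (.rf (nat_lit 5066) (nat_lit 493823402543469922336)) (.cons (.br (nat_lit 8) (nat_lit 1) (.cons (.rf (nat_lit 29) (nat_lit 8789057)) (.cons (.rf (nat_lit 5066) (nat_lit 493858305440582043680)) (.cons (.rf (nat_lit 5066) (nat_lit 493823402543469922336)) .nil)))) .nil))))),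
 (.br (nat_lit 8) (nat_lit 1) (.cons (.rf (nat_lit 1593) (nat_lit 388771360993)) (.cons (.rf (nat_lit 29) (nat_lit 8784097)) (.cons (.br (nat_lit 12) (nat_lit 1) (.cons (.rf (nat_lit 31) (nat_lit 344328417)) (.cons (.br (nat_lit 10) (nat_lit 1) (.cons (.br (nat_lit 10) (nat_lit 1) (.cons (.zr (nat_lit 237684487598349417783874289664) (nat_lit 2422574005994706794708993) (nat_lit 5) (nat_lit 0)) .nil)) (.cons (.br (nat_lit 11) (nat_lit 1) (.cons (.zr (nat_lit 237684487598349417783874289664) (nat_lit 2422574005994706794708993) (nat_lit 5) (nat_lit 0)) (.cons (.rf (nat_lit 3250) (nat_lit 382095956740930701344)) .nil))) .nil))) (.cons (.rf (nat_lit 31) (nat_lit 444991713)) .nil)))) .nil)))),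
 (.br (nat_lit 8) (nat_lit 1) (.cons (.rf (nat_lit 5069) (nat_lit 493858305440582043680)) (.cons (.rf (nat_lit 5069) (nat_lit 493823402543469922336)) (.cons (.rf (nat_lit 29) (nat_lit 8784097)) (.cons (.br (nat_lit 8) (nat_lit 1) (.cons (.rf (nat_lit 5069) (nat_lit 493858305440582043680)) (.cons (.rf (nat_lit 5069) (nat_lit 493823402543469922336)) (.cons (.rf (nat_lit 29) (nat_lit 8784097)) .nil)))) .nil))))),
 (.br (nat_lit 10) (nat_lit 1) (.cons (.br (nat_lit 12) (nat_lit 1) (.cons (.ev (nat_lit 310698676526526814075486465) (nat_lit 1)) (.cons (.zr (nat_lit 237688114320468029450269753344) (nat_lit 4759260253595864399873) (nat_lit 5) (nat_lit 9)) .nil))) (.cons (.rf (nat_lit 29) (nat_lit 10881249)) (.cons (.br (nat_lit 12) (nat_lit 1) (.cons (.zr (nat_lit 237688114320468029450269753344) (nat_lit 4759260253595864399873) (nat_lit 5) (nat_lit 9)) (.cons (.ev (nat_lit 40644051006076690485474238857729) (nat_lit 2)) .nil))) .nil)))),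
 (.br (nat_lit 10) (nat_lit 1) (.cons (.ev (nat_lit 1213648186098598348325121) (nat_lit 1)) (.cons (.ev (nat_lit 79229376180969519334616531200) (nat_lit 1)) .nil))),
 (.br (nat_lit 8) (nat_lit 1) (.cons (.rf (nat_lit 1593) (nat_lit 388771360993)) (.cons (.rf (nat_lit 1593) (nat_lit 389106895073)) (.cons (.br (nat_lit 2) (nat_lit 1) (.cons (.rf (nat_lit 5071) (nat_lit 493858305440582043680)) (.cons (.rf (nat_lit 5071) (nat_lit 493823402543469922336)) (.cons (.rf (nat_lit 246) (nat_lit 387965126881)) (.cons (.br (nat_lit 12) (nat_lit 1) (.cons (.rf (nat_lit 5072) (nat_lit 493858305440582043680)) (.cons (.rf (nat_lit 5072) (nat_lit 493823402543469922336)) (.cons (.kr (nat_lit 281474976710657) (nat_lit 20282409603651670423947251286272) (nat_lit 0) (nat_lit 2)) .nil)))) .nil))))) .nil)))),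
 (.br (nat_lit 7) (nat_lit 1) (.cons (.rf (nat_lit 29) (nat_lit 7702721)) (.cons (.rf (nat_lit 1593) (nat_lit 353638779073)) (.cons (.rf (nat_lit 5002) (nat_lit 14242959519806232608)) .nil)))),
 (.br (nat_lit 8) (nat_lit 1) (.cons (.rf (nat_lit 5070) (nat_lit 493858305440582043680)) (.cons (.rf (nat_lit 5073) (nat_lit 493858305440582043680)) (.cons (.rf (nat_lit 5074) (nat_lit 445092485094541344)) (.cons (.br (nat_lit 8) (nat_lit 1) (.cons (.rf (nat_lit 5070) (nat_lit 493858305440582043680)) (.cons (.rf (nat_lit 5073) (nat_lit 493858305440582043680)) (.cons (.rf (nat_lit 5074) (nat_lit 445092485094541344)) .nil)))) .nil))))),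
 (.br (nat_lit 7) (nat_lit 1) (.cons (.rf (nat_lit 29) (nat_lit 7702721)) (.cons (.rf (nat_lit 5074) (nat_lit 407901468851537952)) (.cons (.rf (nat_lit 5074) (nat_lit 406810753316784160)) (.cons (.br (nat_lit 7) (nat_lit 1) (.cons (.rf (nat_lit 29) (nat_lit 7702721)) (.cons (.rf (nat_lit 5074) (nat_lit 407901468851537952)) (.cons (.rf (nat_lit 5074) (nat_lit 406810753316784160)) .nil)))) .nil))))),
 (.br (nat_lit 10) (nat_lit 1) (.cons (.br (nat_lit 12) (nat_lit 1) (.cons (.zr (nat_lit 3626777675021067684413440) (nat_lit 158456329787788927683440672769) (nat_lit 5) (nat_lit 9)) (.cons (.ev (nat_lit 40644050996631957517527301554691) (nat_lit 2)) .nil))) (.cons (.br (nat_lit 8) (nat_lit 1) (.cons (.zr (nat_lit 18944806726649663127552) (nat_lit 625014648740764387146465281) (nat_lit 5) (nat_lit 0)) (.cons (.ev (nat_lit 1213666632842672057876736) (nat_lit 1)) .nil))) (.cons (.ev (nat_lit 79229376162522775260906979585) (nat_lit 1)) .nil)))),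
 (.br (nat_lit 13) (nat_lit 1) (.cons (.rf (nat_lit 5077) (nat_lit 493858305440582043680)) (.cons (.br (nat_lit 11) (nat_lit 1) (.cons (.ev (nat_lit 40723585017378800810567760085505) (nat_lit 2)) (.cons (.zr (nat_lit 20282719088661492613453841498368) (nat_lit 396140822016054655906033434626) (nat_lit 10) (nat_lit 3)) .nil))) .nil))),
 (.br (nat_lit 13) (nat_lit 1) (.cons (.rf (nat_lit 5077) (nat_lit 493858305440582043680)) (.cons (.rf (nat_lit 5078) (nat_lit 493858305440582043680)) (.cons (.br (nat_lit 13) (nat_lit 1) (.cons (.rf (nat_lit 5077) (nat_lit 493858305440582043680)) (.cons (.rf (nat_lit 5078) (nat_lit 493858305440582043680)) .nil))) .nil)))),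
 (.br (nat_lit 13) (nat_lit 1) (.cons (.rf (nat_lit 5079) (nat_lit 493858305440582043680)) (.cons (.br (nat_lit 8) (nat_lit 1) (.cons (.zr (nat_lit 20282410812577562659133352575232) (nat_lit 316912659501790318312489484290) (nat_lit 10) (nat_lit 3)) (.cons (.zr (nat_lit 20678550416223352399885160743171) (nat_lit 1237949484018911171789717504) (nat_lit 10) (nat_lit 0)) .nil))) .nil))),
 (.br (nat_lit 13) (nat_lit 1) (.cons (.rf (nat_lit 5079) (nat_lit 493858305440582043680)) (.cons (.rf (nat_lit 5080) (nat_lit 493858305440582043680)) (.cons (.br (nat_lit 13) (nat_lit 1) (.cons (.rf (nat_lit 5079) (nat_lit 493858305440582043680)) (.cons (.rf (nat_lit 5080) (nat_lit 493858305440582043680)) .nil))) .nil)))),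
 (.br (nat_lit 13) (nat_lit 1) (.cons (.rf (nat_lit 5079) (nat_lit 493858305440582043680)) (.cons (.rf (nat_lit 5081) (nat_lit 493858305440582043680)) (.cons (.br (nat_lit 13) (nat_lit 1) (.cons (.rf (nat_lit 5079) (nat_lit 493858305440582043680)) (.cons (.rf (nat_lit 5081) (nat_lit 493858305440582043680)) .nil))) .nil)))),
 (.br (nat_lit 13) (nat_lit 1) (.cons (.rf (nat_lit 5079) (nat_lit 493858305440582043680)) (.cons (.rf (nat_lit 5081) (nat_lit 493858305440582043680)) (.cons (.rf (nat_lit 5082) (nat_lit 493858305440582043680)) (.cons (.br (nat_lit 13) (nat_lit 1) (.cons (.rf (nat_lit 5079) (nat_lit 493858305440582043680)) (.cons (.rf (nat_lit 5081) (nat_lit 493858305440582043680)) (.cons (.rf (nat_lit 5082) (nat_lit 493858305440582043680)) .nil)))) .nil))))),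
 (.br (nat_lit 11) (nat_lit 1) (.cons (.rf (nat_lit 5083) (nat_lit 493858305440582043680)) (.cons (.ev (nat_lit 79537647524085683766075392256) (nat_lit 1)) (.cons (.br (nat_lit 7) (nat_lit 1) (.cons (.zr (nat_lit 55340795171082272768) (nat_lit 618974742009174110918148097) (nat_lit 5) (nat_lit 0)) (.cons (.kr (nat_lit 4722366482869645213696) (nat_lit 1208925819614629174706176) (nat_lit 9) (nat_lit 0)) (.cons (.br (nat_lit 8) (nat_lit 1) (.cons (.ev (nat_lit 309485028340429315255566593) (nat_lit 1)) (.cons (.br (nat_lit 10) (nat_lit 1) (.cons (.zr (nat_lit 9500073760910372700160) (nat_lit 622596797101535128797052929) (nat_lit 5) (nat_lit 0)) .nil)) .nil))) (.cons (.br (nat_lit 12) (nat_lit 1) (.cons (.ev (nat_lit 79228167255077565640705376513) (nat_lit 1)) (.cons (.ev (nat_lit 79229376162522775260906979585) (nat_lit 1)) (.cons (.zr (nat_lit 60847228810955011271841754055424) (nat_lit 618974742009455585894858753) (nat_lit 5) (nat_lit 0)) .nil)))) .nil))))) .nil)))),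
 (.br (nat_lit 11) (nat_lit 1) (.cons (.rf (nat_lit 84) (nat_lit 11017433314)) (.cons (.ev (nat_lit 79537647524085683766075392256) (nat_lit 1)) (.cons (.br (nat_lit 7) (nat_lit 1) (.cons (.ev (nat_lit 79537652264971249774166606080) (nat_lit 1)) (.cons (.br (nat_lit 8) (nat_lit 1) (.cons (.ev (nat_lit 309485028340429315255566593) (nat_lit 1)) (.cons (.br (nat_lit 10) (nat_lit 1) (.cons (.ev (nat_lit 20837324717095087052695261217028) (nat_lit 3)) .nil)) .nil))) (.cons (.br (nat_lit 8) (nat_lit 1) (.cons (.br (nat_lit 10) (nat_lit 1) (.cons (.zr (nat_lit 79228162532783983686221889539) (nat_lit 4845148011426463635996672) (nat_lit 10) (nat_lit 0)) .nil)) (.cons (.ev (nat_lit 309485028340429315255566593) (nat_lit 1)) .nil))) .nil)))) .nil)))),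
 (.br (nat_lit 11) (nat_lit 1) (.cons (.rf (nat_lit 5083) (nat_lit 493858305440582043680)) (.cons (.rf (nat_lit 5084) (nat_lit 493858305440582043680)) (.cons (.rf (nat_lit 5085) (nat_lit 493858305440582043680)) (.cons (.br (nat_lit 11) (nat_lit 1) (.cons (.rf (nat_lit 5083) (nat_lit 493858305440582043680)) (.cons (.rf (nat_lit 5084) (nat_lit 493858305440582043680)) (.cons (.rf (nat_lit 5085) (nat_lit 493858305440582043680)) .nil)))) .nil))))),
 (.br (nat_lit 11) (nat_lit 1) (.cons (.ev (nat_lit 309489732187829037898400001) (nat_lit 1)) (.cons (.ev (nat_lit 79537647524085683766075392256) (nat_lit 1)) (.cons (.br (nat_lit 10) (nat_lit 1) (.cons (.kr (nat_lit 4722366482869645213696) (nat_lit 1208925819614629174706176) (nat_lit 9) (nat_lit 0)) (.cons (.br (nat_lit 7) (nat_lit 1) (.cons (.rf (nat_lit 84) (nat_lit 12155165740)) (.cons (.br (nat_lit 8) (nat_lit 1) (.cons (.zr (nat_lit 3626777675021067684413440) (nat_lit 158456329787788927683440672769) (nat_lit 5) (nat_lit 9)) .nil)) .nil))) (.cons (.ev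 (nat_lit 310693935640960797427892481) (nat_lit 1)) .nil)))) .nil)))),
 (.br (nat_lit 11) (nat_lit 1) (.cons (.rf (nat_lit 5083) (nat_lit 493858305440582043680)) (.cons (.rf (nat_lit 5086) (nat_lit 493858305440582043680)) (.cons (.rf (nat_lit 5087) (nat_lit 493858305440582043680)) (.cons (.br (nat_lit 11) (nat_lit 1) (.cons (.rf (nat_lit 5083) (nat_lit 493858305440582043680)) (.cons (.rf (nat_lit 5086) (nat_lit 493858305440582043680)) (.cons (.rf (nat_lit 5087) (nat_lit 493858305440582043680)) .nil)))) .nil))))),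
 (.br (nat_lit 11) (nat_lit 1) (.cons (.rf (nat_lit 5083) (nat_lit 493858305440582043680)) (.cons (.rf (nat_lit 5086) (nat_lit 493858305440582043680)) (.cons (.rf (nat_lit 5088) (nat_lit 493858305440582043680)) (.cons (.br (nat_lit 11) (nat_lit 1) (.cons (.rf (nat_lit 5083) (nat_lit 493858305440582043680)) (.cons (.rf (nat_lit 5086) (nat_lit 493858305440582043680)) (.cons (.rf (nat_lit 5088) (nat_lit 493858305440582043680)) .nil)))) .nil))))),
 (.br (nat_lit 11) (nat_lit 1) (.cons (.rf (nat_lit 5083) (nat_lit 493858305440582043680)) (.cons (.rf (nat_lit 5086) (nat_lit 493858305440582043680)) (.cons (.rf (nat_lit 5088) (nat_lit 493858305440582043680)) (.cons (.rf (nat_lit 5089) (nat_lit 493858305440582043680)) (.cons (.br (nat_lit 11) (nat_lit 1) (.cons (.rf (nat_lit 5083) (nat_lit 493858305440582043680)) (.cons (.rf (nat_lit 5086) (nat_lit 493858305440582043680)) (.cons (.rf (nat_lit 5088) (nat_lit 493858305440582043680)) (.cons (.rf (nat_lit 5089) (nat_lit 493858305440582043680)) .nil))))) .nil)))))),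
 (.br (nat_lit 10) (nat_lit 1) (.cons (.rf (nat_lit 2594) (nat_lit 8966713409)) (.cons (.ev (nat_lit 1213648186098598348325121) (nat_lit 1)) (.cons (.br (nat_lit 8) (nat_lit 1) (.cons (.br (nat_lit 11) (nat_lit 1) (.cons (.ev (nat_lit 310698676526526814075486465) (nat_lit 1)) (.cons (.br (nat_lit 12) (nat_lit 1) (.cons (.zr (nat_lit 237684487598349417783874289664) (nat_lit 618974742009455585894858753) (nat_lit 5) (nat_lit 0)) .nil)) .nil))) (.cons (.rf (nat_lit 58) (nat_lit 8783911)) (.cons (.br (nat_lit 12) (nat_lit 1) (.cons (.br (nat_lit 11) (nat_lit 1) (.cons (.ev (nat_lit 309489750634573111607951616) (nat_lit 1)) .nil)) (.cons (.rf (nat_lit 84) (nat_lit 11182409767)) .nil))) .nil)))) .nil))))]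

theorem c177 : chkAll C T R L177 (nat_lit 5058) = true := by decide +kernel

theorem l177 : (nat_lit 5058) + L177.length = (nat_lit 5092) := by decide +kernel

/-- part of the certificates -/
def L178 : List Prf := [(.br (nat_lit 11) (nat_lit 1) (.cons (.zr (nat_lit 237684487598349417783874289664) (nat_lit 618974742009455585894858753) (nat_lit 5) (nat_lit 0)) .nil)),
 (.br (nat_lit 8) (nat_lit 1) (.cons (.rf (nat_lit 31) (nat_lit 344163714)) (.cons (.br (nat_lit 10) (nat_lit 1) (.cons (.rf (nat_lit 5092) (nat_lit 493858305440582043680)) (.cons (.br (nat_lit 10) (nat_lit 1) (.cons (.rf (nat_lit 5092) (nat_lit 493858305440582043680)) .nil)) .nil))) .nil))),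
 (.br (nat_lit 10) (nat_lit 1) (.cons (.br (nat_lit 13) (nat_lit 1) (.cons (.zr (nat_lit 3626832799639058606391296) (nat_lit 1547429771473209317092491265) (nat_lit 5) (nat_lit 0)) (.cons (.zr (nat_lit 1208944267484615726399488) (nat_lit 396140822016054655906033434626) (nat_lit 10) (nat_lit 3)) .nil))) (.cons (.ev (nat_lit 1213648186098598348325121) (nat_lit 1)) (.cons (.br (nat_lit 8) (nat_lit 1) (.cons (.br (nat_lit 11) (nat_lit 1) (.cons (.ev (nat_lit 309485028340429315255566593) (nat_lit 1)) .nil)) (.cons (.br (nat_lit 11) (nat_lit 1) (.cons (.ev (nat_lit 309485028340429315255566593) (nat_lit 1)) .nil)) .nil))) .nil)))),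
 (.br (nat_lit 11) (nat_lit 1) (.cons (.rf (nat_lit 5094) (nat_lit 493858305440582043680)) (.cons (.br (nat_lit 11) (nat_lit 1) (.cons (.rf (nat_lit 5094) (nat_lit 493858305440582043680)) (.cons (.ev (nat_lit 79537647524085683766075392256) (nat_lit 1)) .nil))) (.cons (.br (nat_lit 11) (nat_lit 1) (.cons (.rf (nat_lit 5094) (nat_lit 493858305440582043680)) (.cons (.ev (nat_lit 79537647524085683766075392256) (nat_lit 1)) .nil))) .nil)))),
 (.br (nat_lit 11) (nat_lit 1) (.cons (.rf (nat_lit 5095) (nat_lit 493858305440582043680)) (.cons (.br (nat_lit 10) (nat_lit 1) (.cons (.br (nat_lit 8) (nat_lit 1) (.cons (.ev (nat_lit 20838562647689781897958575375618) (nat_lit 3)) .nil)) (.cons (.ev (nat_lit 20361637766166006820234361634816) (nat_lit 1)) .nil))) .nil))),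
 (.br (nat_lit 11) (nat_lit 1) (.cons (.rf (nat_lit 5095) (nat_lit 493858305440582043680)) (.cons (.rf (nat_lit 5096) (nat_lit 493858305440582043680)) (.cons (.br (nat_lit 11) (nat_lit 1) (.cons (.rf (nat_lit 5095) (nat_lit 493858305440582043680)) (.cons (.rf (nat_lit 5096) (nat_lit 493858305440582043680)) .nil))) .nil)))),
 (.br (nat_lit 11) (nat_lit 1) (.cons (.rf (nat_lit 5095) (nat_lit 493858305440582043680)) (.cons (.rf (nat_lit 5097) (nat_lit 493858305440582043680)) (.cons (.br (nat_lit 11) (nat_lit 1) (.cons (.ev (nat_lit 79537647524085683766075392256) (nat_lit 1)) (.cons (.rf (nat_lit 5097) (nat_lit 493858305440582043680)) .nil))) .nil)))),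
 (.br (nat_lit 2) (nat_lit 1) (.cons (.br (nat_lit 10) (nat_lit 1) (.cons (.rf (nat_lit 1339) (nat_lit 357967141089)) (.cons (.rf (nat_lit 5091) (nat_lit 493858305440582043680)) (.cons (.rf (nat_lit 1343) (nat_lit 387958714593)) (.cons (.br (nat_lit 10) (nat_lit 1) (.cons (.rf (nat_lit 2594) (nat_lit 9033822273)) (.cons (.rf (nat_lit 5091) (nat_lit 493858305440582043680)) (.cons (.rf (nat_lit 82) (nat_lit 14237642977)) .nil)))) .nil))))) (.cons (.rf (nat_lit 5090) (nat_lit 493858305440582043680)) (.cons (.rf (nat_lit 5090) (nat_lit 493823402543469922336)) (.cons (.br (nat_lit 8) (nat_lit 1) (.cons (.rf (nat_lit 31) (nat_lit 344163714)) (.cons (.rf (nat_lit 5093) (nat_lit 493858305440582043680)) (.cons (.br (nat_lit 8) (nat_lit 1) (.cons (.ev (nat_lit 79228162532783421835796611328) (nat_lit 1)) (.cons (.rf (nat_lit 5093) (nat_lit 493858305440582043680)) .nil))) .nil)))) (.cons (.br (nat_lit 11) (nat_lit 1) (.cons (.rf (nat_lit 5095) (nat_lit 493858305440582043680)) (.cons (.rf (nat_lit 5097) (nat_lit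 493858305440582043680)) (.cons (.rf (nat_lit 5098) (nat_lit 493858305440582043680)) (.cons (.br (nat_lit 11) (nat_lit 1) (.cons (.rf (nat_lit 5095) (nat_lit 493858305440582043680)) (.cons (.rf (nat_lit 5097) (nat_lit 493858305440582043680)) (.cons (.rf (nat_lit 5098) (nat_lit 493858305440582043680)) .nil)))) .nil))))) .nil)))))),
 (.br (nat_lit 2) (nat_lit 1) (.cons (.rf (nat_lit 31) (nat_lit 344327394)) (.cons (.rf (nat_lit 2594) (nat_lit 8971951169)) (.cons (.ev (nat_lit 79229371440083953326525317376) (nat_lit 1)) (.cons (.br (nat_lit 7) (nat_lit 1) (.cons (.ev (nat_lit 79229376180969519334616531200) (nat_lit 1)) (.cons (.rf (nat_lit 5099) (nat_lit 493823402543469922336)) (.cons (.br (nat_lit 8) (nat_lit 1) (.cons (.ev (nat_lit 1208944338698875705491713) (nat_lit 1)) (.cons (.rf (nat_lit 84) (nat_lit 11019525196)) .nil))) .nil)))) .nil))))),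
 (.br (nat_lit 11) (nat_lit 1) (.cons (.rf (nat_lit 5090) (nat_lit 493823402543469922336)) (.cons (.ev (nat_lit 309489732187829037898400001) (nat_lit 1)) (.cons (.rf (nat_lit 5100) (nat_lit 493823402543469922336)) (.cons (.br (nat_lit 2) (nat_lit 1) (.cons (.br (nat_lit 8) (nat_lit 1) (.cons (.zr (nat_lit 237684487598349417783874289664) (nat_lit 2422574005994706794708993) (nat_lit 5) (nat_lit 0)) .nil)) (.cons (.br (nat_lit 7) (nat_lit 1) (.cons (.zr (nat_lit 237684487598349417783874289664) (nat_lit 2422574005994706794708993) (nat_lit 5) (nat_lit 0)) .nil)) (.cons (.br (nat_lit 7) (nat_lit 1) (.cons (.ev (nat_lit 20838555384800811708886494020868) (nat_lit 3)) .nil)) .nil)))) .nil))))),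
 (.br (nat_lit 10) (nat_lit 1) (.cons (.rf (nat_lit 5090) (nat_lit 493858305440582043680)) (.cons (.rf (nat_lit 5099) (nat_lit 493858305440582043680)) (.cons (.rf (nat_lit 5100) (nat_lit 493858305440582043680)) (.cons (.br (nat_lit 11) (nat_lit 1) (.cons (.rf (nat_lit 5090) (nat_lit 493823402543469922336)) (.cons (.rf (nat_lit 5099) (nat_lit 493823402543469922336)) (.cons (.br (nat_lit 11) (nat_lit 1) (.cons (.rf (nat_lit 5090) (nat_lit 493823402543469922336)) (.cons (.rf (nat_lit 5099) (nat_lit 493823402543469922336)) (.cons (.rf (nat_lit 5100) (nat_lit 493823402543469922336)) (.cons (.kr (nat_lit 1208925819614629174706176) (nat_lit 309485009821345068724781056) (nat_lit 10) (nat_lit 0)) .nil))))) (.cons (.rf (nat_lit 5101) (nat_lit 493858305440582043680)) (.cons (.br (nat_lit 11) (nat_lit 1) (.cons (.rf (nat_lit 5090) (nat_lit 493823402543469922336)) (.cons (.rf (nat_lit 5099) (nat_lit 493823402543469922336)) (.cons (.kr (nat_lit 1208925819614629174706176) (nat_lit 309485009821345068724781056)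 (nat_lit 10) (nat_lit 0)) (.cons (.rf (nat_lit 5101) (nat_lit 493858305440582043680)) .nil))))) .nil)))))) .nil))))),
 (.br (nat_lit 2) (nat_lit 1) (.cons (.rf (nat_lit 31) (nat_lit 344327394)) (.cons (.rf (nat_lit 1339) (nat_lit 357799369089)) (.cons (.rf (nat_lit 1339) (nat_lit 289082316834)) (.cons (.rf (nat_lit 5090) (nat_lit 493823402543469922336)) (.cons (.br (nat_lit 10) (nat_lit 1) (.cons (.rf (nat_lit 84) (nat_lit 14237610210)) (.cons (.rf (nat_lit 5102) (nat_lit 493858305440582043680)) (.cons (.ev (nat_lit 79229371440083953326525317376) (nat_lit 1)) .nil)))) .nil)))))),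
 (.br (nat_lit 10) (nat_lit 1) (.cons (.rf (nat_lit 5090) (nat_lit 493858305440582043680)) (.cons (.rf (nat_lit 5099) (nat_lit 493858305440582043680)) (.cons (.rf (nat_lit 5102) (nat_lit 493858305440582043680)) (.cons (.rf (nat_lit 5103) (nat_lit 493858305440582043680)) (.cons (.br (nat_lit 10) (nat_lit 1) (.cons (.rf (nat_lit 5090) (nat_lit 493858305440582043680)) (.cons (.rf (nat_lit 5099) (nat_lit 493858305440582043680)) (.cons (.rf (nat_lit 5102) (nat_lit 493858305440582043680)) (.cons (.rf (nat_lit 5103) (nat_lit 493858305440582043680)) .nil))))) .nil)))))),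
 (.br (nat_lit 11) (nat_lit 1) (.cons (.rf (nat_lit 5090) (nat_lit 493823402543469922336)) (.cons (.rf (nat_lit 5099) (nat_lit 493823402543469922336)) (.cons (.rf (nat_lit 5104) (nat_lit 493823402543469922336)) (.cons (.br (nat_lit 11) (nat_lit 1) (.cons (.rf (nat_lit 5090) (nat_lit 493823402543469922336)) (.cons (.rf (nat_lit 5099) (nat_lit 493823402543469922336)) (.cons (.rf (nat_lit 5104) (nat_lit 493823402543469922336)) .nil)))) .nil))))),
 (.br (nat_lit 10) (nat_lit 1) (.cons (.rf (nat_lit 5090) (nat_lit 493858305440582043680)) (.cons (.rf (nat_lit 5099) (nat_lit 493858305440582043680)) (.cons (.rf (nat_lit 5104) (nat_lit 493858305440582043680)) (.cons (.rf (nat_lit 5105) (nat_lit 493858305440582043680)) (.cons (.br (nat_lit 10) (nat_lit 1) (.cons (.rf (nat_lit 5090) (nat_lit 493858305440582043680)) (.cons (.rf (nat_lit 5099) (nat_lit 493858305440582043680)) (.cons (.rf (nat_lit 5104) (nat_lit 493858305440582043680)) (.cons (.rf (nat_lit 5105) (nat_lit 493858305440582043680)) .nil))))) .nil)))))),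
 (.br (nat_lit 11) (nat_lit 1) (.cons (.rf (nat_lit 5090) (nat_lit 493823402543469922336)) (.cons (.rf (nat_lit 5099) (nat_lit 493823402543469922336)) (.cons (.rf (nat_lit 5104) (nat_lit 493823402543469922336)) (.cons (.rf (nat_lit 5106) (nat_lit 493858305440582043680)) (.cons (.br (nat_lit 11) (nat_lit 1) (.cons (.rf (nat_lit 5090) (nat_lit 493823402543469922336)) (.cons (.rf (nat_lit 5099) (nat_lit 493823402543469922336)) (.cons (.rf (nat_lit 5104) (nat_lit 493823402543469922336)) (.cons (.rf (nat_lit 5106) (nat_lit 493858305440582043680)) .nil))))) .nil)))))),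
 (.br (nat_lit 13) (nat_lit 1) (.cons (.br (nat_lit 12) (nat_lit 1) (.cons (.ev (nat_lit 20361637770888301526989223821313) (nat_lit 1)) (.cons (.br (nat_lit 8) (nat_lit 1) (.cons (.ev (nat_lit 20839174373636134477917126328578) (nat_lit 3)) .nil)) (.cons (.zr (nat_lit 60847228810955371564227169878016) (nat_lit 396759787313331142449808146945) (nat_lit 5) (nat_lit 3)) .nil)))) (.cons (.br (nat_lit 11) (nat_lit 1) (.cons (.br (nat_lit 10) (nat_lit 1) (.cons (.ev (nat_lit 20839174373636134477917126328578) (nat_lit 3)) .nil)) (.cons (.br (nat_lit 8) (nat_lit 1) (.cons (.ev (nat_lit 20839174373636134477917126328578) (nat_lit 3)) .nil)) .nil))) .nil))),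
 (.br (nat_lit 13) (nat_lit 1) (.cons (.rf (nat_lit 5108) (nat_lit 493858305440582043680)) (.cons (.br (nat_lit 11) (nat_lit 1) (.cons (.ev (nat_lit 40565128701794861551072239944195) (nat_lit 2)) (.cons (.zr (nat_lit 20282719088661492613453841498368) (nat_lit 396140822016054655906033434626) (nat_lit 10) (nat_lit 3)) .nil))) .nil))),
 (.br (nat_lit 13) (nat_lit 1) (.cons (.rf (nat_lit 5108) (nat_lit 493858305440582043680)) (.cons (.rf (nat_lit 5109) (nat_lit 493858305440582043680)) (.cons (.br (nat_lit 13) (nat_lit 1) (.cons (.rf (nat_lit 5108) (nat_lit 493858305440582043680)) (.cons (.rf (nat_lit 5109) (nat_lit 493858305440582043680)) .nil))) .nil)))),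
 (.br (nat_lit 13) (nat_lit 1) (.cons (.rf (nat_lit 5110) (nat_lit 493858305440582043680)) (.cons (.br (nat_lit 8) (nat_lit 1) (.cons (.rf (nat_lit 2521) (nat_lit 421187201506508638240)) (.cons (.zr (nat_lit 20678550416223352399885160743171) (nat_lit 1237949484018911171789717504) (nat_lit 10) (nat_lit 0)) .nil))) .nil))),
 (.br (nat_lit 13) (nat_lit 1) (.cons (.rf (nat_lit 5110) (nat_lit 493858305440582043680)) (.cons (.rf (nat_lit 5111) (nat_lit 493858305440582043680)) (.cons (.br (nat_lit 13) (nat_lit 1) (.cons (.rf (nat_lit 5110) (nat_lit 493858305440582043680)) (.cons (.rf (nat_lit 5111) (nat_lit 493858305440582043680)) .nil))) .nil)))),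
 (.br (nat_lit 13) (nat_lit 1) (.cons (.rf (nat_lit 5110) (nat_lit 493858305440582043680)) (.cons (.rf (nat_lit 5112) (nat_lit 493858305440582043680)) (.cons (.br (nat_lit 13) (nat_lit 1) (.cons (.rf (nat_lit 5110) (nat_lit 493858305440582043680)) (.cons (.rf (nat_lit 5112) (nat_lit 493858305440582043680)) .nil))) .nil)))),
 (.br (nat_lit 13) (nat_lit 1) (.cons (.rf (nat_lit 5110) (nat_lit 493858305440582043680)) (.cons (.rf (nat_lit 5112) (nat_lit 493858305440582043680)) (.cons (.rf (nat_lit 5113) (nat_lit 493858305440582043680)) (.cons (.br (nat_lit 13) (nat_lit 1) (.cons (.rf (nat_lit 5110) (nat_lit 493858305440582043680)) (.cons (.rf (nat_lit 5112) (nat_lit 493858305440582043680)) (.cons (.rf (nat_lit 5113) (nat_lit 493858305440582043680)) .nil)))) .nil))))),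
 (.br (nat_lit 8) (nat_lit 1) (.cons (.zr (nat_lit 55556407202265694208) (nat_lit 618974742009454486383230977) (nat_lit 5) (nat_lit 0)) (.cons (.rf (nat_lit 4604) (nat_lit 445199173057417441)) (.cons (.br (nat_lit 10) (nat_lit 1) (.cons (.ev (nat_lit 20838560220429872532212076971268) (nat_lit 3)) .nil)) .nil)))),
 (.br (nat_lit 7) (nat_lit 1) (.cons (.zr (nat_lit 55556407202265694208) (nat_lit 618974742009454486383230977) (nat_lit 5) (nat_lit 0)) (.cons (.ev (nat_lit 79228167255149903610208321793) (nat_lit 1)) (.cons (.rf (nat_lit 5115) (nat_lit 493858305440582043680)) .nil)))),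
 (.br (nat_lit 8) (nat_lit 1) (.cons (.br (nat_lit 12) (nat_lit 1) (.cons (.ev (nat_lit 20837322270908959574341028217092) (nat_lit 3)) .nil)) (.cons (.kr (nat_lit 309485009821346168236408832) (nat_lit 79229371440083952222718656512) (nat_lit 5) (nat_lit 0)) (.cons (.ev (nat_lit 20282720302309678147994067730433) (nat_lit 1)) .nil)))),
 (.br (nat_lit 11) (nat_lit 1) (.cons (.rf (nat_lit 5114) (nat_lit 493858305440582043680)) (.cons (.ev (nat_lit 79537647524085683766075392256) (nat_lit 1)) (.cons (.br (nat_lit 13) (nat_lit 1) (.cons (.rf (nat_lit 5115) (nat_lit 493858305440582043680)) (.cons (.rf (nat_lit 5116) (nat_lit 493858305440582043680)) (.cons (.rf (nat_lit 5117) (nat_lit 493858305440582043680)) (.cons (.br (nat_lit 13) (nat_lit 1) (.cons (.zr (nat_lit 60847228810955011271841754055424) (nat_lit 618974742009455585894858753) (nat_lit 5) (nat_lit 0)) (.cons (.rf (nat_lit 5116) (nat_lit 493858305440582043680)) (.cons (.rf (nat_lit 5117) (nat_lit 493858305440582043680)) .nil)))) .nil))))) .nil)))),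
 (.br (nat_lit 11) (nat_lit 1) (.cons (.ev (nat_lit 309489732187829037898400001) (nat_lit 1)) (.cons (.ev (nat_lit 79537647524085683766075392256) (nat_lit 1)) (.cons (.br (nat_lit 8) (nat_lit 1) (.cons (.kr (nat_lit 79228162514264337593543950337) (nat_lit 18446745173221179392) (nat_lit 0) (nat_lit 1)) (.cons (.br (nat_lit 7) (nat_lit 1) (.cons (.rf (nat_lit 84) (nat_lit 12090154028)) (.cons (.br (nat_lit 10) (nat_lit 1) (.cons (.zr (nat_lit 55556409401288949760) (nat_lit 158458747602534668794370981889) (nat_lit 5) (nat_lit 0)) .nil)) .nil))) (.cons (.ev (nat_lit 79537652264898909605640274176) (nat_lit 1)) .nil)))) .nil)))),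
 (.br (nat_lit 11) (nat_lit 1) (.cons (.rf (nat_lit 5114) (nat_lit 493858305440582043680)) (.cons (.rf (nat_lit 5118) (nat_lit 493858305440582043680)) (.cons (.rf (nat_lit 5119) (nat_lit 493858305440582043680)) (.cons (.br (nat_lit 11) (nat_lit 1) (.cons (.rf (nat_lit 5114) (nat_lit 493858305440582043680)) (.cons (.rf (nat_lit 5118) (nat_lit 493858305440582043680)) (.cons (.rf (nat_lit 5119) (nat_lit 493858305440582043680)) .nil)))) .nil)))))]

theorem c178 : chkAll C T R L178 (nat_lit 5092) = true := by decide +kernel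

theorem l178 : (nat_lit 5092) + L178.length = (nat_lit 5121) := by decide +kernel

end Pool.Agent.H93.Neg.Q14_4_4_0_4_2
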