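import Pool.Agent.H93.Neg.TabQ14_4_4_0_4_2

/-!
Certificates.
-/

set_option autoImplicit false
set_option maxRecDepth 100000
set_option linter.all false

namespace Pool.Agent.H93.Neg.Q14_4_4_0_4_2

/-- part of the certificates -/
def L179 : List Prf := [(.br (nat_lit 11) (nat_lit 1) (.cons (.rf (nat_lit 84) (nat_lit 8937058530)) (.cons (.ev (nat_lit 79537647524085683766075392256) (nat_lit 1)) (.cons (.br (nat_lit 7) (nat_lit 1) (.cons (.br (nat_lit 8) (nat_lit 1) (.cons (.ev (nat_lit 79538861172344119234398257408) (nat_lit 1)) (.cons (.br (nat_lit 10) (nat_lit 1) (.cons (.ev (nat_lit 20361953295934054011022998569222) (nat_lit 3)) .nil)) .nil))) (.cons (.ev (nat_lit 310693935713298766930968833) (nat_lit 1)) (.cons (.br (nat_lit 13) (nat_lit 1) (.cons (.rf (nat_lit 3236) (nat_lit 382095956740930701344)) (.cons (.ev (nat_lit 79538861172344119234398257408) (nat_lit 1)) .nil))) .nil)))) .nil)))),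
 (.br (nat_lit 11) (nat_lit 1) (.cons (.rf (nat_lit 5114) (nat_lit 493858305440582043680)) (.cons (.rf (nat_lit 5120) (nat_lit 493858305440582043680)) (.cons (.rf (nat_lit 5121) (nat_lit 493858305440582043680)) (.cons (.br (nat_lit 11) (nat_lit 1) (.cons (.rf (nat_lit 5114) (nat_lit 493858305440582043680)) (.cons (.rf (nat_lit 5120) (nat_lit 493858305440582043680)) (.cons (.rf (nat_lit 5121) (nat_lit 493858305440582043680)) .nil)))) .nil))))),
 (.br (nat_lit 11) (nat_lit 1) (.cons (.rf (nat_lit 5114) (nat_lit 493858305440582043680)) (.cons (.rf (nat_lit 5120) (nat_lit 493858305440582043680)) (.cons (.rf (nat_lit 5122) (nat_lit 493858305440582043680)) (.cons (.br (nat_lit 11) (nat_lit 1) (.cons (.rf (nat_lit 5114) (nat_lit 493858305440582043680)) (.cons (.rf (nat_lit 5120) (nat_lit 493858305440582043680)) (.cons (.rf (nat_lit 5122) (nat_lit 493858305440582043680)) .nil)))) .nil))))),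
 (.br (nat_lit 11) (nat_lit 1) (.cons (.rf (nat_lit 5114) (nat_lit 493858305440582043680)) (.cons (.rf (nat_lit 5120) (nat_lit 493858305440582043680)) (.cons (.rf (nat_lit 5122) (nat_lit 493858305440582043680)) (.cons (.rf (nat_lit 5123) (nat_lit 493858305440582043680)) (.cons (.br (nat_lit 11) (nat_lit 1) (.cons (.rf (nat_lit 5114) (nat_lit 493858305440582043680)) (.cons (.rf (nat_lit 5120) (nat_lit 493858305440582043680)) (.cons (.rf (nat_lit 5122) (nat_lit 493858305440582043680)) (.cons (.rf (nat_lit 5123) (nat_lit 493858305440582043680)) .nil))))) .nil)))))),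
 (.br (nat_lit 2) (nat_lit 1) (.cons (.rf (nat_lit 1339) (nat_lit 357967304738)) (.cons (.rf (nat_lit 1339) (nat_lit 289249761505)) (.cons (.br (nat_lit 8) (nat_lit 1) (.cons (.br (nat_lit 10) (nat_lit 1) (.cons (.br (nat_lit 13) (nat_lit 1) (.cons (.ev (nat_lit 79849555163469990399607570434) (nat_lit 2)) .nil)) (.cons (.rf (nat_lit 84) (nat_lit 12090322978)) (.cons (.zr (nat_lit 1223093279354506834935808) (nat_lit 73787257778438406146) (nat_lit 10) (nat_lit 9)) .nil)))) (.cons (.ev (nat_lit 79228162532711081667270279424) (nat_lit 1)) (.cons (.br (nat_lit 12) (nat_lit 1) (.cons (.rf (nat_lit 84) (nat_lit 12090322978)) (.cons (.rf (nat_lit 5045) (nat_lit 11974413078878067744)) (.cons (.br (nat_lit 11) (nat_lit 1) (.cons (.zr (nat_lit 55340799569128783872) (nat_lit 396143235145327400100026122241) (nat_lit 5) (nat_lit 0)) (.cons (.br (nat_lit 10) (nat_lit 1) (.cons (.zr (nat_lit 55340799569128783872) (nat_lit 396143235145327400100026122241) (nat_lit 5) (nat_lit 0)) .nil)) .nil))) .nil)))) .nil))))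 (.cons (.rf (nat_lit 31) (nat_lit 343973250)) (.cons (.br (nat_lit 8) (nat_lit 1) (.cons (.br (nat_lit 10) (nat_lit 1) (.cons (.zr (nat_lit 1223093279354506834935808) (nat_lit 73787257778438406146) (nat_lit 10) (nat_lit 9)) (.cons (.rf (nat_lit 84) (nat_lit 14237806626)) (.cons (.br (nat_lit 12) (nat_lit 1) (.cons (.br (nat_lit 11) (nat_lit 1) (.cons (.ev (nat_lit 20680103895401774513739356505348) (nat_lit 3)) .nil)) (.cons (.ev (nat_lit 40644047374595384805909258699264) (nat_lit 2)) .nil))) .nil)))) (.cons (.ev (nat_lit 79228162532711081667270279424) (nat_lit 1)) (.cons (.rf (nat_lit 5044) (nat_lit 15431909618559884352)) .nil)))) .nil)))))),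
 (.br (nat_lit 1) (nat_lit 1) (.cons (.rf (nat_lit 82) (nat_lit 9938446496)) (.cons (.rf (nat_lit 84) (nat_lit 8898259104)) (.cons (.rf (nat_lit 5023) (nat_lit 407901468717288608)) .nil)))),
 (.br (nat_lit 10) (nat_lit 1) (.cons (.br (nat_lit 11) (nat_lit 1) (.cons (.ev (nat_lit 310698676526526814075486465) (nat_lit 1)) (.cons (.br (nat_lit 12) (nat_lit 1) (.cons (.zr (nat_lit 55340797370105528320) (nat_lit 238303462284802185792038371329) (nat_lit 5) (nat_lit 0)) .nil)) .nil))) (.cons (.rf (nat_lit 58) (nat_lit 10881063)) (.cons (.br (nat_lit 13) (nat_lit 1) (.cons (.ev (nat_lit 20282409603670189225615015608321) (nat_lit 1)) (.cons (.rf (nat_lit 84) (nat_lit 9037023271)) .nil))) .nil)))),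
 (.br (nat_lit 2) (nat_lit 1) (.cons (.rf (nat_lit 5127) (nat_lit 493858305440582043680)) (.cons (.br (nat_lit 10) (nat_lit 1) (.cons (.ev (nat_lit 1208925819614633469739264) (nat_lit 1)) (.cons (.br (nat_lit 12) (nat_lit 1) (.cons (.ev (nat_lit 20522261723578787771266892235010) (nat_lit 3)) .nil)) .nil))) (.cons (.rf (nat_lit 5025) (nat_lit 493858305266570927136)) (.cons (.br (nat_lit 10) (nat_lit 1) (.cons (.br (nat_lit 11) (nat_lit 1) (.cons (.ev (nat_lit 21314548165499216009718529197320) (nat_lit 4)) .nil)) (.cons (.ev (nat_lit 20282409608392483932369877794816) (nat_lit 1)) .nil))) .nil))))),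
 (.br (nat_lit 10) (nat_lit 1) (.cons (.rf (nat_lit 58) (nat_lit 10881063)) (.cons (.rf (nat_lit 5128) (nat_lit 493858305440582043680)) (.cons (.br (nat_lit 2) (nat_lit 1) (.cons (.br (nat_lit 11) (nat_lit 1) (.cons (.ev (nat_lit 20837936433596559741383415628038) (nat_lit 3)) .nil)) (.cons (.ev (nat_lit 1208925819614633469739264) (nat_lit 1)) .nil))) .nil)))),
 (.br (nat_lit 8) (nat_lit 1) (.cons (.rf (nat_lit 5124) (nat_lit 493858305440582043680)) (.cons (.rf (nat_lit 5125) (nat_lit 493858305440582043680)) (.cons (.rf (nat_lit 5126) (nat_lit 13909140160286785)) (.cons (.br (nat_lit 10) (nat_lit 1) (.cons (.rf (nat_lit 5127) (nat_lit 493858305440582043680)) (.cons (.rf (nat_lit 5128) (nat_lit 493858305440582043680)) (.cons (.rf (nat_lit 5129) (nat_lit 493858305440582043680)) (.cons (.br (nat_lit 10) (nat_lit 1) (.cons (.rf (nat_lit 5127) (nat_lit 493858305440582043680)) (.cons (.rf (nat_lit 5128) (nat_lit 493858305440582043680)) (.cons (.rf (nat_lit 5129) (nat_lit 493858305440582043680)) .nil))))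 .nil))))) .nil))))),
 (.br (nat_lit 8) (nat_lit 1) (.cons (.rf (nat_lit 5124) (nat_lit 493858305440582043680)) (.cons (.rf (nat_lit 5125) (nat_lit 493858305440582043680)) (.cons (.rf (nat_lit 5130) (nat_lit 493858305440582043680)) (.cons (.br (nat_lit 8) (nat_lit 1) (.cons (.rf (nat_lit 58) (nat_lit 8789057)) (.cons (.ev (nat_lit 79228162532711081667270279424) (nat_lit 1)) (.cons (.rf (nat_lit 5126) (nat_lit 13909140160286785)) (.cons (.rf (nat_lit 5029) (nat_lit 15433072039582342176)) .nil))))) (.cons (.br (nat_lit 8) (nat_lit 1) (.cons (.rf (nat_lit 5124) (nat_lit 493858305440582043680)) (.cons (.rf (nat_lit 5125) (nat_lit 493858305440582043680)) (.cons (.rf (nat_lit 5130) (nat_lit 493858305440582043680)) (.cons (.rf (nat_lit 5029) (nat_lit 15433072039582342176)) .nil))))) .nil)))))),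
 (.br (nat_lit 7) (nat_lit 1) (.cons (.zr (nat_lit 3626777459406837477736448) (nat_lit 4759259972120887689217) (nat_lit 5) (nat_lit 9)) (.cons (.br (nat_lit 10) (nat_lit 1) (.cons (.ev (nat_lit 310698676526526814075486465) (nat_lit 1)) (.cons (.br (nat_lit 12) (nat_lit 1) (.cons (.ev (nat_lit 20838560229911787214267358707968) (nat_lit 3)) .nil)) .nil))) (.cons (.br (nat_lit 10) (nat_lit 1) (.cons (.ev (nat_lit 79229376180969519334616531200) (nat_lit 1)) (.cons (.br (nat_lit 11) (nat_lit 1) (.cons (.ev (nat_lit 20680718039199621644809671214338) (nat_lit 3)) .nil)) .nil))) (.cons (.br (nat_lit 10) (nat_lit 1) (.cons (.zr (nat_lit 928455029680210187311382528) (nat_lit 4759260252496352772097) (nat_lit 5) (nat_lit 9)) (.cons (.br (nat_lit 11) (nat_lit 1) (.cons (.ev (nat_lit 20679484934863327622973272294658) (nat_lit 3)) .nil)) (.cons (.ev (nat_lit 20282410817318303548094285873153) (nat_lit 1)) .nil)))) .nil))))),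
 (.br (nat_lit 11) (nat_lit 1) (.cons (.rf (nat_lit 5132) (nat_lit 493858305440582043680)) (.cons (.br (nat_lit 2) (nat_lit 1) (.cons (.ev (nat_lit 309489750706911081111027968) (nat_lit 1)) (.cons (.br (nat_lit 12) (nat_lit 1) (.cons (.zr (nat_lit 928455029464600355151216640) (nat_lit 237684492302052983802007912449) (nat_lit 5) (nat_lit 9)) .nil)) .nil))) (.cons (.ev (nat_lit 309489732187829037898400001) (nat_lit 1)) (.cons (.br (nat_lit 10) (nat_lit 1) (.cons (.zr (nat_lit 18663199430311870467) (nat_lit 621397316014885143712890880) (nat_lit 10) (nat_lit 0)) (.cons (.br (nat_lit 2) (nat_lit 1) (.cons (.ev (nat_lit 21474871100585393628177693347078) (nat_lit 4)) .nil)) (.cons (.rf (nat_lit 3262) (nat_lit 382095956740930701344)) .nil)))) .nil))))),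
 (.br (nat_lit 2) (nat_lit 1) (.cons (.zr (nat_lit 3626777459406837477736448) (nat_lit 4759259972120887689217) (nat_lit 5) (nat_lit 9)) (.cons (.rf (nat_lit 5132) (nat_lit 493858305440582043680)) (.cons (.br (nat_lit 7) (nat_lit 1) (.cons (.ev (nat_lit 309489750706911081111027968) (nat_lit 1)) (.cons (.zr (nat_lit 237688114320468029450269753344) (nat_lit 4759260253595864399873) (nat_lit 5) (nat_lit 9)) .nil))) (.cons (.br (nat_lit 7) (nat_lit 1) (.cons (.rf (nat_lit 5133) (nat_lit 493858305440582043680)) (.cons (.br (nat_lit 11) (nat_lit 1) (.cons (.zr (nat_lit 80466102571996464154111180800) (nat_lit 3636222193498476674809858) (nat_lit 10) (nat_lit 4)) .nil)) (.cons (.ev (nat_lit 20282409608392483932369877794816) (nat_lit 1)) .nil)))) .nil))))),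
 (.br (nat_lit 11) (nat_lit 1) (.cons (.rf (nat_lit 5132) (nat_lit 493858305440582043680)) (.cons (.ev (nat_lit 309489732187829037898400001) (nat_lit 1)) (.cons (.rf (nat_lit 5134) (nat_lit 493858305440582043680)) (.cons (.br (nat_lit 2) (nat_lit 1) (.cons (.br (nat_lit 10) (nat_lit 1) (.cons (.zr (nat_lit 237688114320468029450269753344) (nat_lit 4759260253595864399873) (nat_lit 5) (nat_lit 9)) .nil)) (.cons (.br (nat_lit 7) (nat_lit 1) (.cons (.zr (nat_lit 237688114320468029450269753344) (nat_lit 4759260253595864399873) (nat_lit 5) (nat_lit 9)) .nil)) (.cons (.br (nat_lit 7) (nat_lit 1) (.cons (.ev (nat_lit 20680106322661253224970510730498) (nat_lit 3)) .nil)) .nil)))) .nil))))),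
 (.br (nat_lit 8) (nat_lit 1) (.cons (.rf (nat_lit 5124) (nat_lit 493858305440582043680)) (.cons (.rf (nat_lit 5131) (nat_lit 493858305440582043680)) (.cons (.br (nat_lit 2) (nat_lit 1) (.cons (.rf (nat_lit 31) (nat_lit 343978210)) (.cons (.ev (nat_lit 4740813226947649798401) (nat_lit 1)) (.cons (.br (nat_lit 7) (nat_lit 1) (.cons (.rf (nat_lit 84) (nat_lit 12090481698)) (.cons (.rf (nat_lit 84) (nat_lit 11017788481)) (.cons (.br (nat_lit 10) (nat_lit 1) (.cons (.ev (nat_lit 79538856468424381533696098560) (nat_lit 1)) (.cons (.br (nat_lit 11) (nat_lit 1) (.cons (.ev (nat_lit 21156708392711611961274088228100) (nat_lit 4)) .nil)) .nil))) .nil)))) (.cons (.br (nat_lit 7) (nat_lit 1) (.cons (.rf (nat_lit 84) (nat_lit 14237965346)) (.cons (.br (nat_lit 11) (nat_lit 1) (.cons (.ev (nat_lit 309489750706911081111027968) (nat_lit 1)) (.cons (.ev (nat_lit 158765810038567037475791831041) (nat_lit 2)) .nil))) (.cons (.br (nat_lit 10) (nat_lit 1) (.cons (.br (nat_lit 11) (nat_lit 1) (.cons (.ev (nat_lit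 20679482498048434362232063721732) (nat_lit 3)) .nil)) (.cons (.ev (nat_lit 20282410812577490320055697735681) (nat_lit 1)) .nil))) .nil)))) .nil))))) (.cons (.br (nat_lit 11) (nat_lit 1) (.cons (.rf (nat_lit 5132) (nat_lit 493858305440582043680)) (.cons (.rf (nat_lit 5133) (nat_lit 493858305440582043680)) (.cons (.rf (nat_lit 5134) (nat_lit 493858305440582043680)) (.cons (.rf (nat_lit 5135) (nat_lit 493858305440582043680)) (.cons (.br (nat_lit 11) (nat_lit 1) (.cons (.rf (nat_lit 5132) (nat_lit 493858305440582043680)) (.cons (.rf (nat_lit 5133) (nat_lit 493858305440582043680)) (.cons (.rf (nat_lit 5134) (nat_lit 493858305440582043680)) (.cons (.rf (nat_lit 5135) (nat_lit 493858305440582043680)) .nil))))) .nil)))))) .nil))))),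
 (.br (nat_lit 11) (nat_lit 1) (.cons (.br (nat_lit 11) (nat_lit 1) (.cons (.ev (nat_lit 79537652264898909605640274176) (nat_lit 1)) .nil)) (.cons (.br (nat_lit 10) (nat_lit 1) (.cons (.ev (nat_lit 79537652264898909605640274176) (nat_lit 1)) .nil)) .nil))),
 (.br (nat_lit 8) (nat_lit 1) (.cons (.rf (nat_lit 1339) (nat_lit 357799696418)) (.cons (.ev (nat_lit 79228162532711081667270279424) (nat_lit 1)) (.cons (.rf (nat_lit 5136) (nat_lit 493858305440582043680)) (.cons (.br (nat_lit 2) (nat_lit 1) (.cons (.rf (nat_lit 31) (nat_lit 343978210)) (.cons (.rf (nat_lit 2594) (nat_lit 11186478145)) (.cons (.br (nat_lit 7) (nat_lit 1) (.cons (.rf (nat_lit 84) (nat_lit 12090481698)) (.cons (.rf (nat_lit 4964) (nat_lit 15431981329448798240)) (.cons (.rf (nat_lit 5137) (nat_lit 493858305440582043680)) .nil)))) (.cons (.br (nat_lit 7) (nat_lit 1) (.cons (.rf (nat_lit 84) (nat_lit 14237965346)) (.cons (.br (nat_lit 13) (nat_lit 1) (.cons (.ev (nat_lit 20837014009103025423300882990851) (nat_lit 3)) (.cons (.ev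 (nat_lit 20361637766166006820234361634816) (nat_lit 1)) .nil))) (.cons (.rf (nat_lit 84) (nat_lit 11019885633)) .nil)))) .nil))))) .nil))))),
 (.br (nat_lit 8) (nat_lit 1) (.cons (.rf (nat_lit 5124) (nat_lit 493858305440582043680)) (.cons (.rf (nat_lit 5131) (nat_lit 493858305440582043680)) (.cons (.rf (nat_lit 5136) (nat_lit 493858305440582043680)) (.cons (.rf (nat_lit 5138) (nat_lit 493858305440582043680)) (.cons (.br (nat_lit 8) (nat_lit 1) (.cons (.rf (nat_lit 5124) (nat_lit 493858305440582043680)) (.cons (.rf (nat_lit 5131) (nat_lit 493858305440582043680)) (.cons (.rf (nat_lit 5136) (nat_lit 493858305440582043680)) (.cons (.rf (nat_lit 5138) (nat_lit 493858305440582043680)) .nil))))) .nil)))))),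
 (.br (nat_lit 10) (nat_lit 1) (.cons (.rf (nat_lit 4791) (nat_lit 492586849812591287689)) (.cons (.rf (nat_lit 84) (nat_lit 9036859436)) .nil))),
 (.br (nat_lit 2) (nat_lit 1) (.cons (.rf (nat_lit 5140) (nat_lit 493858305440582043680)) (.cons (.br (nat_lit 10) (nat_lit 1) (.cons (.br (nat_lit 10) (nat_lit 1) (.cons (.ev (nat_lit 20361947251175756389188303388673) (nat_lit 1)) .nil)) (.cons (.br (nat_lit 10) (nat_lit 1) (.cons (.ev (nat_lit 20361947251175756389188303388673) (nat_lit 1)) .nil)) .nil))) (.cons (.ev (nat_lit 4740813226947649798401) (nat_lit 1)) .nil)))),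
 (.br (nat_lit 13) (nat_lit 1) (.cons (.ev (nat_lit 4740813226947649798401) (nat_lit 1)) (.cons (.rf (nat_lit 5141) (nat_lit 493858305440582043680)) (.cons (.br (nat_lit 7) (nat_lit 1) (.cons (.br (nat_lit 10) (nat_lit 1) (.cons (.ev (nat_lit 20283033409393254494963405095172) (nat_lit 3)) .nil)) (.cons (.ev (nat_lit 79231789291795521653906079747) (nat_lit 2)) (.cons (.ev (nat_lit 158765810038567037475791831041) (nat_lit 2)) .nil)))) .nil)))),
 (.br (nat_lit 8) (nat_lit 1) (.cons (.rf (nat_lit 5126) (nat_lit 13909139992514785)) (.cons (.rf (nat_lit 5126) (nat_lit 13909140160286785)) (.cons (.rf (nat_lit 5139) (nat_lit 493858305440582043680)) (.cons (.br (nat_lit 13) (nat_lit 1) (.cons (.ev (nat_lit 4740813226947649798401) (nat_lit 1)) (.cons (.rf (nat_lit 5141) (nat_lit 493858305440582043680)) (.cons (.rf (nat_lit 5142) (nat_lit 493858305440582043680)) (.cons (.br (nat_lit 13) (nat_lit 1) (.cons (.ev (nat_lit 4740813226947649798401) (nat_lit 1)) (.cons (.rf (nat_lit 5141) (nat_lit 493858305440582043680))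 (.cons (.rf (nat_lit 5142) (nat_lit 493858305440582043680)) .nil)))) .nil))))) .nil))))),
 (.br (nat_lit 8) (nat_lit 1) (.cons (.rf (nat_lit 5124) (nat_lit 493858305440582043680)) (.cons (.rf (nat_lit 5131) (nat_lit 493858305440582043680)) (.cons (.rf (nat_lit 5139) (nat_lit 493858305440582043680)) (.cons (.rf (nat_lit 5143) (nat_lit 493858305440582043680)) (.cons (.br (nat_lit 8) (nat_lit 1) (.cons (.rf (nat_lit 5124) (nat_lit 493858305440582043680)) (.cons (.rf (nat_lit 5131) (nat_lit 493858305440582043680)) (.cons (.rf (nat_lit 5139) (nat_lit 493858305440582043680)) (.cons (.rf (nat_lit 5143) (nat_lit 493858305440582043680)) .nil))))) .nil))))))]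

theorem c179 : chkAll C T R L179 (nat_lit 5121) = true := by decide +kernel

theorem l179 : (nat_lit 5121) + L179.length = (nat_lit 5145) := by decide +kernel

/-- part of the certificates -/
def L180 : List Prf := [(.br (nat_lit 8) (nat_lit 1) (.cons (.rf (nat_lit 5124) (nat_lit 493858305440582043680)) (.cons (.rf (nat_lit 5131) (nat_lit 493858305440582043680)) (.cons (.rf (nat_lit 5139) (nat_lit 493858305440582043680)) (.cons (.rf (nat_lit 5144) (nat_lit 493858305440582043680)) (.cons (.br (nat_lit 8) (nat_lit 1) (.cons (.rf (nat_lit 5124) (nat_lit 493858305440582043680)) (.cons (.rf (nat_lit 5029) (nat_lit 15433072039582342176)) (.cons (.rf (nat_lit 5139) (nat_lit 493858305440582043680)) (.cons (.rf (nat_lit 5144) (nat_lit 493858305440582043680)) .nil))))) .nil)))))),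
 (.br (nat_lit 8) (nat_lit 1) (.cons (.rf (nat_lit 5124) (nat_lit 493858305440582043680)) (.cons (.rf (nat_lit 5131) (nat_lit 493858305440582043680)) (.cons (.rf (nat_lit 5139) (nat_lit 493858305440582043680)) (.cons (.rf (nat_lit 5144) (nat_lit 493858305440582043680)) (.cons (.rf (nat_lit 5145) (nat_lit 493858305440582043680)) (.cons (.br (nat_lit 8) (nat_lit 1) (.cons (.rf (nat_lit 5124) (nat_lit 493858305440582043680)) (.cons (.rf (nat_lit 5131) (nat_lit 493858305440582043680)) (.cons (.rf (nat_lit 5139) (nat_lit 493858305440582043680)) (.cons (.rf (nat_lit 5144) (nat_lit 493858305440582043680)) (.cons (.rf (nat_lit 5145) (nat_lit 493858305440582043680)) .nil)))))) .nil))))))),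
 (.br (nat_lit 13) (nat_lit 1) (.cons (.rf (nat_lit 2594) (nat_lit 8926965986)) (.cons (.ev (nat_lit 20282409608374037188296168243201) (nat_lit 1)) (.cons (.rf (nat_lit 82) (nat_lit 11019726882)) .nil)))),
 (.br (nat_lit 13) (nat_lit 1) (.cons (.ev (nat_lit 79537652264898909605640274176) (nat_lit 1)) (.cons (.br (nat_lit 8) (nat_lit 1) (.cons (.ev (nat_lit 79537652264898909605640274176) (nat_lit 1)) .nil)) .nil))),
 (.br (nat_lit 11) (nat_lit 1) (.cons (.rf (nat_lit 5148) (nat_lit 493858305440582043680)) (.cons (.br (nat_lit 8) (nat_lit 1) (.cons (.ev (nat_lit 621392648989200747996577794) (nat_lit 2)) (.cons (.br (nat_lit 10) (nat_lit 1) (.cons (.ev (nat_lit 79538861190790863308107809025) (nat_lit 1)) .nil)) (.cons (.zr (nat_lit 55556407202265694208) (nat_lit 618974742009454486383230977) (nat_lit 5) (nat_lit 0)) .nil)))) .nil))),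
 (.br (nat_lit 11) (nat_lit 1) (.cons (.rf (nat_lit 5149) (nat_lit 493858305440582043680)) (.cons (.br (nat_lit 11) (nat_lit 1) (.cons (.rf (nat_lit 5148) (nat_lit 493858305440582043680)) (.cons (.ev (nat_lit 79537647524085683766075392256) (nat_lit 1)) .nil))) (.cons (.br (nat_lit 11) (nat_lit 1) (.cons (.rf (nat_lit 5149) (nat_lit 493858305440582043680)) (.cons (.ev (nat_lit 79537647524085683766075392256) (nat_lit 1)) .nil))) .nil)))),
 (.br (nat_lit 11) (nat_lit 1) (.cons (.rf (nat_lit 5148) (nat_lit 493858305440582043680)) (.cons (.br (nat_lit 13) (nat_lit 1) (.cons (.ev (nat_lit 20362566235362642643127059350275) (nat_lit 2)) (.cons (.ev (nat_lit 20282409608374037188296168243201) (nat_lit 1)) .nil))) .nil))),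
 (.br (nat_lit 11) (nat_lit 1) (.cons (.rf (nat_lit 5150) (nat_lit 493858305440582043680)) (.cons (.rf (nat_lit 5151) (nat_lit 493858305440582043680)) (.cons (.br (nat_lit 11) (nat_lit 1) (.cons (.rf (nat_lit 5150) (nat_lit 493858305440582043680)) (.cons (.rf (nat_lit 5151) (nat_lit 493858305440582043680)) .nil))) .nil)))),
 (.br (nat_lit 11) (nat_lit 1) (.cons (.rf (nat_lit 5150) (nat_lit 493858305440582043680)) (.cons (.rf (nat_lit 5152) (nat_lit 493858305440582043680)) (.cons (.br (nat_lit 11) (nat_lit 1) (.cons (.ev (nat_lit 79537647524085683766075392256) (nat_lit 1)) (.cons (.rf (nat_lit 5152) (nat_lit 493858305440582043680)) .nil))) .nil)))),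
 (.br (nat_lit 11) (nat_lit 1) (.cons (.rf (nat_lit 5150) (nat_lit 493858305440582043680)) (.cons (.rf (nat_lit 5152) (nat_lit 493858305440582043680)) (.cons (.rf (nat_lit 5153) (nat_lit 493858305440582043680)) (.cons (.br (nat_lit 11) (nat_lit 1) (.cons (.rf (nat_lit 5150) (nat_lit 493858305440582043680)) (.cons (.rf (nat_lit 5152) (nat_lit 493858305440582043680)) (.cons (.rf (nat_lit 5153) (nat_lit 493858305440582043680)) .nil)))) .nil))))),
 (.br (nat_lit 10) (nat_lit 1) (.cons (.br (nat_lit 11) (nat_lit 1) (.cons (.kr (nat_lit 20361638975091754376169970008320) (nat_lit 309485028340148935495516160) (nat_lit 1) (nat_lit 0)) .nil)) (.cons (.ev (nat_lit 79229371440083953326525317376) (nat_lit 1)) .nil))),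
 (.br (nat_lit 8) (nat_lit 1) (.cons (.br (nat_lit 12) (nat_lit 1) (.cons (.rf (nat_lit 5155) (nat_lit 493858305440582043680)) (.cons (.rf (nat_lit 5155) (nat_lit 493823402543469922336)) (.cons (.ev (nat_lit 40564819212081192242235752645120) (nat_lit 2)) .nil)))) (.cons (.rf (nat_lit 82) (nat_lit 11182256193)) (.cons (.rf (nat_lit 2594) (nat_lit 14296559841)) .nil)))),
 (.br (nat_lit 7) (nat_lit 1) (.cons (.br (nat_lit 13) (nat_lit 1) (.cons (.rf (nat_lit 4982) (nat_lit 454538037292)) (.cons (.rf (nat_lit 5147) (nat_lit 493858305440582043680)) (.cons (.rf (nat_lit 5147) (nat_lit 493823402543469922336)) (.cons (.rf (nat_lit 1343) (nat_lit 353704882210)) .nil))))) (.cons (.rf (nat_lit 5154) (nat_lit 493858305440582043680)) (.cons (.rf (nat_lit 5154) (nat_lit 493823402543469922336)) (.cons (.ev (nat_lit 79228162514336677762087059713) (nat_lit 1)) (.cons (.br (nat_lit 8) (nat_lit 1) (.cons (.rf (nat_lit 5156) (nat_lit 493858305440582043680)) (.cons (.rf (nat_lit 5156) (nat_lit 493823402543469922336))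 (.cons (.rf (nat_lit 1343) (nat_lit 353710119970)) (.cons (.rf (nat_lit 4982) (nat_lit 282739508300)) .nil))))) .nil)))))),
 (.br (nat_lit 10) (nat_lit 1) (.cons (.br (nat_lit 11) (nat_lit 1) (.cons (.rf (nat_lit 4602) (nat_lit 455779244691257657376)) (.cons (.br (nat_lit 12) (nat_lit 1) (.cons (.ev (nat_lit 79849564571164789844826128386) (nat_lit 2)) .nil)) .nil))) (.cons (.rf (nat_lit 84) (nat_lit 14237806657)) (.cons (.br (nat_lit 12) (nat_lit 1) (.cons (.br (nat_lit 11) (nat_lit 1) (.cons (.ev (nat_lit 620193167974888723758252545) (nat_lit 2)) .nil)) (.cons (.ev (nat_lit 20520094105380154589027846258945) (nat_lit 2)) .nil))) .nil)))),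
 (.br (nat_lit 10) (nat_lit 1) (.cons (.br (nat_lit 11) (nat_lit 1) (.cons (.ev (nat_lit 20363191245344717167763227215108) (nat_lit 3)) .nil)) (.cons (.ev (nat_lit 20282413244614819859388086354690) (nat_lit 2)) .nil))),
 (.br (nat_lit 11) (nat_lit 1) (.cons (.ev (nat_lit 20282410812596008841347980066816) (nat_lit 1)) .nil)),
 (.br (nat_lit 8) (nat_lit 1) (.cons (.rf (nat_lit 5157) (nat_lit 493858305440582043680)) (.cons (.br (nat_lit 2) (nat_lit 1) (.cons (.rf (nat_lit 5158) (nat_lit 493858305440582043680)) (.cons (.rf (nat_lit 5158) (nat_lit 493823402543469922336)) (.cons (.rf (nat_lit 1593) (nat_lit 388939122050)) (.cons (.br (nat_lit 12) (nat_lit 1) (.cons (.rf (nat_lit 5159) (nat_lit 493858305440582043680)) (.cons (.rf (nat_lit 5159) (nat_lit 493823402543469922336)) (.cons (.ev (nat_lit 40644047384003367835730628968960) (nat_lit 2)) .nil)))) .nil))))) (.cons (.rf (nat_lit 5029) (nat_lit 11974413078878067744)) (.cons (.br (nat_lit 2) (nat_lit 1) (.cons (.br (nat_lit 12) (nat_lit 1) (.cons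 (.rf (nat_lit 84) (nat_lit 14237806657)) (.cons (.br (nat_lit 11) (nat_lit 1) (.cons (.rf (nat_lit 5160) (nat_lit 493858305440582043680)) (.cons (.ev (nat_lit 20361637766184453564308071186433) (nat_lit 1)) .nil))) (.cons (.rf (nat_lit 84) (nat_lit 11019726882)) .nil)))) (.cons (.br (nat_lit 12) (nat_lit 1) (.cons (.br (nat_lit 11) (nat_lit 1) (.cons (.rf (nat_lit 4602) (nat_lit 454662351983669774368)) (.cons (.ev (nat_lit 20361637766184453564308071186433) (nat_lit 1)) .nil))) (.cons (.rf (nat_lit 5045) (nat_lit 15433072039582342176)) (.cons (.rf (nat_lit 84) (nat_lit 12093468706)) .nil)))) (.cons (.rf (nat_lit 31) (nat_lit 444636546)) (.cons (.ev (nat_lit 20282409603651742481541306056704) (nat_lit 1)) .nil))))) .nil))))),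
 (.br (nat_lit 8) (nat_lit 1) (.cons (.rf (nat_lit 5157) (nat_lit 493858305440582043680)) (.cons (.rf (nat_lit 5161) (nat_lit 493858305440582043680)) (.cons (.rf (nat_lit 5161) (nat_lit 493823402543469922336)) (.cons (.br (nat_lit 8) (nat_lit 1) (.cons (.rf (nat_lit 58) (nat_lit 8789057)) (.cons (.rf (nat_lit 5029) (nat_lit 11974413078878067744)) (.cons (.rf (nat_lit 5029) (nat_lit 13126208683578072096)) (.cons (.ev (nat_lit 79228162532711081667270279424) (nat_lit 1)) .nil))))) (.cons (.br (nat_lit 8) (nat_lit 1) (.cons (.rf (nat_lit 4982) (nat_lit 454538037292)) (.cons (.rf (nat_lit 5161) (nat_lit 493858305440582043680)) (.cons (.rf (nat_lit 5161) (nat_lit 493823402543469922336)) (.cons (.ev (nat_lit 79228162532711081667270279424) (nat_lit 1)) .nil))))) .nil)))))),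
 (.br (nat_lit 7) (nat_lit 1) (.cons (.rf (nat_lit 84) (nat_lit 14237965377)) (.cons (.br (nat_lit 11) (nat_lit 1) (.cons (.ev (nat_lit 309489750706911081111027968) (nat_lit 1)) (.cons (.ev (nat_lit 158765810038567037475791831041) (nat_lit 2)) .nil))) (.cons (.br (nat_lit 10) (nat_lit 1) (.cons (.br (nat_lit 11) (nat_lit 1) (.cons (.ev (nat_lit 79537647542604765809287889153) (nat_lit 1)) .nil)) (.cons (.rf (nat_lit 84) (nat_lit 8939183148)) .nil))) .nil)))),
 (.br (nat_lit 10) (nat_lit 1) (.cons (.br (nat_lit 11) (nat_lit 1) (.cons (.zr (nat_lit 55556407202265694208) (nat_lit 618974742009454486383230977) (nat_lit 5) (nat_lit 0)) .nil)) (.cons (.ev (nat_lit 20440867147087790128367052980480) (nat_lit 2)) .nil))),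
 (.br (nat_lit 10) (nat_lit 1) (.cons (.br (nat_lit 12) (nat_lit 1) (.cons (.ev (nat_lit 20521647579854729868291229417728) (nat_lit 3)) .nil)) (.cons (.ev (nat_lit 79229376180897179166090199296) (nat_lit 1)) (.cons (.zr (nat_lit 3626777675018868661157888) (nat_lit 4759260252496352772097) (nat_lit 5) (nat_lit 9)) .nil)))),
 (.br (nat_lit 7) (nat_lit 1) (.cons (.rf (nat_lit 5165) (nat_lit 493858305440582043680)) (.cons (.br (nat_lit 11) (nat_lit 1) (.cons (.ev (nat_lit 79538861190790863308107809025) (nat_lit 1)) .nil)) (.cons (.zr (nat_lit 3626777675018868661157888) (nat_lit 4759260252496352772097) (nat_lit 5) (nat_lit 9)) .nil)))),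
 (.br (nat_lit 11) (nat_lit 1) (.cons (.rf (nat_lit 5165) (nat_lit 493858305440582043680)) (.cons (.rf (nat_lit 5166) (nat_lit 493858305440582043680)) (.cons (.br (nat_lit 11) (nat_lit 1) (.cons (.rf (nat_lit 5165) (nat_lit 493858305440582043680)) (.cons (.rf (nat_lit 5166) (nat_lit 493858305440582043680)) (.cons (.ev (nat_lit 20282409608374037188296168243201) (nat_lit 1)) .nil)))) (.cons (.ev (nat_lit 20282409608374037188296168243201) (nat_lit 1)) .nil))))),
 (.br (nat_lit 10) (nat_lit 1) (.cons (.br (nat_lit 11) (nat_lit 1) (.cons (.ev (nat_lit 20838562647689781897958575375618) (nat_lit 3)) .nil)) (.cons (.ev (nat_lit 1213666705180641560953088) (nat_lit 1)) .nil))),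
 (.br (nat_lit 8) (nat_lit 1) (.cons (.rf (nat_lit 5157) (nat_lit 493858305440582043680)) (.cons (.rf (nat_lit 5162) (nat_lit 493858305440582043680)) (.cons (.br (nat_lit 2) (nat_lit 1) (.cons (.rf (nat_lit 1593) (nat_lit 389106894050)) (.cons (.rf (nat_lit 5163) (nat_lit 493858305440582043680)) (.cons (.rf (nat_lit 5163) (nat_lit 493823402543469922336)) (.cons (.ev (nat_lit 4740813226947649798401) (nat_lit 1)) .nil))))) (.cons (.br (nat_lit 2) (nat_lit 1) (.cons (.br (nat_lit 12) (nat_lit 1) (.cons (.rf (nat_lit 5164) (nat_lit 493858305440582043680)) (.cons (.rf (nat_lit 5164) (nat_lit 493823402543469922336)) (.cons (.kr (nat_lit 281474976776192) (nat_lit 79228162514336395187581878272) (nat_lit 2) (nat_lit 0)) .nil)))) (.cons (.rf (nat_lit 5167) (nat_lit 493858305440582043680)) (.cons (.rf (nat_lit 5167) (nat_lit 493823402543469922336)) (.cons (.ev (nat_lit 4740813226947649798401) (nat_lit 1)) (.cons (.br (nat_lit 7) (nat_lit 1) (.cons (.rf (nat_lit 5168) (nat_lit 493858305440582043680)) (.cons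 (.rf (nat_lit 5168) (nat_lit 493823402543469922336)) (.cons (.ev (nat_lit 20361637770906748271062933372928) (nat_lit 1)) .nil)))) .nil)))))) .nil))))),
 (.br (nat_lit 8) (nat_lit 1) (.cons (.rf (nat_lit 5157) (nat_lit 493858305440582043680)) (.cons (.rf (nat_lit 5029) (nat_lit 11974413078878067744)) (.cons (.rf (nat_lit 5169) (nat_lit 493858305440582043680)) (.cons (.br (nat_lit 2) (nat_lit 1) (.cons (.rf (nat_lit 31) (nat_lit 444641506)) (.cons (.br (nat_lit 7) (nat_lit 1) (.cons (.rf (nat_lit 84) (nat_lit 14237965377)) (.cons (.br (nat_lit 11) (nat_lit 1) (.cons (.br (nat_lit 11) (nat_lit 1) (.cons (.ev (nat_lit 79538861190790863308107809025) (nat_lit 1)) .nil)) (.cons (.ev (nat_lit 20282409608374037188296168243201) (nat_lit 1)) .nil))) (.cons (.ev (nat_lit 20361637766165935043015788724224) (nat_lit 1)) .nil)))) (.cons (.ev (nat_lit 4740813226947649798401) (nat_lit 1)) (.cons (.rf (nat_lit 2594) (nat_lit 14307040321)) .nil))))) .nil))))),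
 (.br (nat_lit 8) (nat_lit 1) (.cons (.rf (nat_lit 5157) (nat_lit 493858305440582043680)) (.cons (.rf (nat_lit 5162) (nat_lit 493858305440582043680)) (.cons (.rf (nat_lit 5169) (nat_lit 493858305440582043680)) (.cons (.rf (nat_lit 5170) (nat_lit 493858305440582043680)) (.cons (.br (nat_lit 8) (nat_lit 1) (.cons (.rf (nat_lit 5157) (nat_lit 493858305440582043680)) (.cons (.rf (nat_lit 5162) (nat_lit 493858305440582043680)) (.cons (.rf (nat_lit 5169) (nat_lit 493858305440582043680)) (.cons (.rf (nat_lit 5170) (nat_lit 493858305440582043680)) .nil))))) .nil)))))),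
 (.br (nat_lit 8) (nat_lit 1) (.cons (.rf (nat_lit 5157) (nat_lit 493858305440582043680)) (.cons (.rf (nat_lit 5162) (nat_lit 493858305440582043680)) (.cons (.rf (nat_lit 5171) (nat_lit 493858305440582043680)) (.cons (.rf (nat_lit 5171) (nat_lit 493823402543469922336)) (.cons (.br (nat_lit 8) (nat_lit 1) (.cons (.rf (nat_lit 4982) (nat_lit 459906746407)) (.cons (.ev (nat_lit 79228162532711081667270279424) (nat_lit 1)) (.cons (.rf (nat_lit 5171) (nat_lit 493858305440582043680)) (.cons (.rf (nat_lit 5171) (nat_lit 493823402543469922336)) .nil))))) .nil)))))),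
 (.br (nat_lit 4) (nat_lit 1) (.cons (.br (nat_lit 12) (nat_lit 0) (.cons (.br (nat_lit 1) (nat_lit 1) (.cons (.br (nat_lit 8) (nat_lit 1) (.cons (.rf (nat_lit 5061) (nat_lit 14242959524133701664)) (.cons (.rf (nat_lit 5067) (nat_lit 493858305440582043680)) (.cons (.rf (nat_lit 5067) (nat_lit 493823402543469922336)) (.cons (.rf (nat_lit 5068) (nat_lit 493858305440582043680)) (.cons (.br (nat_lit 8) (nat_lit 1) (.cons (.rf (nat_lit 5061) (nat_lit 14242959524133701664)) (.cons (.rf (nat_lit 5067) (nat_lit 493858305440582043680)) (.cons (.rf (nat_lit 5067) (nat_lit 493823402543469922336)) (.cons (.rf (nat_lit 5068) (nat_lit 493858305440582043680)) .nil))))) .nil)))))) (.cons (.br (nat_lit 8) (nat_lit 1) (.cons (.rf (nat_lit 5070) (nat_lit 493858305440582043680)) (.cons (.rf (nat_lit 5075) (nat_lit 493858305440582043680)) (.cons (.rf (nat_lit 5075) (nat_lit 493823402543469922336)) (.cons (.rf (nat_lit 5076) (nat_lit 445092485094541344)) (.cons (.br (nat_lit 8) (nat_lit 1) (.cons (.rf (nat_lit 5070)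 (nat_lit 493858305440582043680)) (.cons (.rf (nat_lit 5075) (nat_lit 493858305440582043680)) (.cons (.rf (nat_lit 5075) (nat_lit 493823402543469922336)) (.cons (.rf (nat_lit 5076) (nat_lit 445092485094541344)) .nil))))) .nil)))))) (.cons (.br (nat_lit 10) (nat_lit 1) (.cons (.rf (nat_lit 5090) (nat_lit 493858305440582043680)) (.cons (.rf (nat_lit 5099) (nat_lit 493858305440582043680)) (.cons (.rf (nat_lit 5104) (nat_lit 493858305440582043680)) (.cons (.rf (nat_lit 5106) (nat_lit 493858305440582043680)) (.cons (.rf (nat_lit 5107) (nat_lit 493858305440582043680)) (.cons (.br (nat_lit 10) (nat_lit 1) (.cons (.rf (nat_lit 5090) (nat_lit 493858305440582043680)) (.cons (.rf (nat_lit 5099) (nat_lit 493858305440582043680)) (.cons (.rf (nat_lit 5104) (nat_lit 493858305440582043680)) (.cons (.rf (nat_lit 5106) (nat_lit 493858305440582043680)) (.cons (.rf (nat_lit 5107) (nat_lit 493858305440582043680)) .nil)))))) .nil))))))) (.cons (.rf (nat_lit 5146) (nat_lit 493858305440582043680)) (.cons (.rf (nat_lit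 5146) (nat_lit 493823402543469922336)) (.cons (.kr (nat_lit 1099511627776) (nat_lit 79228162514264337593543950336) (nat_lit 5) (nat_lit 0)) (.cons (.br (nat_lit 8) (nat_lit 1) (.cons (.rf (nat_lit 5157) (nat_lit 493858305440582043680)) (.cons (.rf (nat_lit 5162) (nat_lit 493858305440582043680)) (.cons (.rf (nat_lit 5171) (nat_lit 493858305440582043680)) (.cons (.rf (nat_lit 5171) (nat_lit 493823402543469922336)) (.cons (.rf (nat_lit 5172) (nat_lit 493858305440582043680)) (.cons (.br (nat_lit 8) (nat_lit 1) (.cons (.rf (nat_lit 5157) (nat_lit 493858305440582043680)) (.cons (.rf (nat_lit 5162) (nat_lit 493858305440582043680)) (.cons (.rf (nat_lit 5171) (nat_lit 493858305440582043680)) (.cons (.rf (nat_lit 5171) (nat_lit 493823402543469922336)) (.cons (.rf (nat_lit 5172) (nat_lit 493858305440582043680)) .nil)))))) .nil))))))) .nil)))))))) .nil)) .nil))]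

theorem c180 : chkAll C T R L180 (nat_lit 5145) = true := by decide +kernel

theorem l180 : (nat_lit 5145) + L180.length = (nat_lit 5174) := by decide +kernel

/-- part of the certificates -/
def L181 : List Prf := [(.br (nat_lit 10) (nat_lit 1) (.cons (.br (nat_lit 12) (nat_lit 1) (.cons (.br (nat_lit 8) (nat_lit 1) (.cons (.br (nat_lit 11) (nat_lit 1) (.cons (.ev (nat_lit 309489732187829037898400001) (nat_lit 1)) .nil)) (.cons (.ev (nat_lit 20282410817318375605688323866625) (nat_lit 1)) .nil))) (.cons (.br (nat_lit 11) (nat_lit 1) (.cons (.br (nat_lit 8) (nat_lit 1) (.cons (.ev (nat_lit 20837324707724283489597580969218) (nat_lit 3)) .nil)) (.cons (.rf (nat_lit 84) (nat_lit 11120543783)) .nil))) (.cons (.kr (nat_lit 281474976710656) (nat_lit 79228162514264337593543950336) (nat_lit 6) (nat_lit 0)) .nil)))) (.cons (.rf (nat_lit 82) (nat_lit 9036706017)) (.cons (.rf (nat_lit 2594) (nat_lit 14234759233)) .nil)))),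
 (.br (nat_lit 10) (nat_lit 1) (.cons (.rf (nat_lit 5174) (nat_lit 493858305440582043680)) (.cons (.br (nat_lit 10) (nat_lit 1) (.cons (.rf (nat_lit 5174) (nat_lit 493858305440582043680)) (.cons (.rf (nat_lit 82) (nat_lit 12257931489)) (.cons (.rf (nat_lit 2594) (nat_lit 14335422529)) .nil)))) (.cons (.rf (nat_lit 1343) (nat_lit 275327027239)) (.cons (.rf (nat_lit 4982) (nat_lit 346013730028)) .nil))))),
 (.br (nat_lit 7) (nat_lit 1) (.cons (.ev (nat_lit 72058693566398721) (nat_lit 1)) (.cons (.rf (nat_lit 5175) (nat_lit 493858305440582043680)) (.cons (.rf (nat_lit 5175) (nat_lit 493823402543469922336)) (.cons (.rf (nat_lit 29) (nat_lit 13698439)) (.cons (.rf (nat_lit 58) (nat_lit 13862956)) .nil)))))),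
 (.br (nat_lit 5) (nat_lit 1) (.cons (.br (nat_lit 5) (nat_lit 1) .nil) .nil)),
 (.br (nat_lit 7) (nat_lit 1) (.cons (.rf (nat_lit 2594) (nat_lit 8926965986)) (.cons (.br (nat_lit 8) (nat_lit 1) (.cons (.rf (nat_lit 5177) (nat_lit 14338497601)) (.cons (.ev (nat_lit 4740885284541687660801) (nat_lit 1)) (.cons (.rf (nat_lit 84) (nat_lit 11182059591)) .nil)))) (.cons (.br (nat_lit 8) (nat_lit 1) (.cons (.ev (nat_lit 4740885284541687660801) (nat_lit 1)) (.cons (.br (nat_lit 11) (nat_lit 1) (.cons (.br (nat_lit 10) (nat_lit 1) (.cons (.ev (nat_lit 20837936424115221520046077576450) (nat_lit 3)) .nil)) (.cons (.ev (nat_lit 79228162514336677762087059713) (nat_lit 1)) .nil))) (.cons (.zr (nat_lit 81129638414680756904689116643328) (nat_lit 79228181403732239396961779975) (nat_lit 15) (nat_lit 4)) .nil)))) (.cons (.rf (nat_lit 31) (nat_lit 444631431)) .nil))))),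
 (.br (nat_lit 7) (nat_lit 1) (.cons (.rf (nat_lit 5178) (nat_lit 493858305268783356960)) (.cons (.rf (nat_lit 2594) (nat_lit 11007340770)) (.cons (.br (nat_lit 10) (nat_lit 1) (.cons (.br (nat_lit 8) (nat_lit 1) (.cons (.br (nat_lit 11) (nat_lit 1) (.cons (.ev (nat_lit 20361955732638555037698101806338) (nat_lit 3)) .nil)) (.cons (.rf (nat_lit 5177) (nat_lit 14338492801)) .nil))) (.cons (.br (nat_lit 11) (nat_lit 1) (.cons (.ev (nat_lit 310693935640960797427892481) (nat_lit 1)) (.cons (.ev (nat_lit 20282719088661564108089285672961) (nat_lit 1)) .nil))) (.cons (.ev (nat_lit 20361638975091754376174264975361) (nat_lit 1)) .nil)))) (.cons (.rf (nat_lit 31) (nat_lit 446728583)) .nil))))),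
 (.br (nat_lit 10) (nat_lit 1) (.cons (.ev (nat_lit 1213648186098598348325121) (nat_lit 1)) .nil)),
 (.br (nat_lit 8) (nat_lit 1) (.cons (.rf (nat_lit 5180) (nat_lit 493858305440582043680)) (.cons (.br (nat_lit 8) (nat_lit 1) (.cons (.rf (nat_lit 5180) (nat_lit 493858305440582043680)) .nil)) .nil))),
 (.br (nat_lit 2) (nat_lit 1) (.cons (.kr (nat_lit 65536) (nat_lit 72057594037927936) (nat_lit 2) (nat_lit 0)) (.cons (.rf (nat_lit 5178) (nat_lit 493858305440582043680)) (.cons (.rf (nat_lit 5179) (nat_lit 493858305440582043680)) (.cons (.br (nat_lit 7) (nat_lit 1) (.cons (.rf (nat_lit 5178) (nat_lit 493858305268783356960)) (.cons (.rf (nat_lit 5179) (nat_lit 493858305268783356960)) (.cons (.br (nat_lit 11) (nat_lit 1) (.cons (.br (nat_lit 12) (nat_lit 1) (.cons (.ev (nat_lit 79228162514336677762087059713) (nat_lit 1)) (.cons (.ev (nat_lit 79537652246524505700457054465) (nat_lit 1)) .nil))) (.cons (.kr (nat_lit 4722366482869645213696) (nat_lit 309485009821345068724781056) (nat_lit 9) (nat_lit 0))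 (.cons (.rf (nat_lit 58) (nat_lit 11934785)) .nil)))) (.cons (.rf (nat_lit 5181) (nat_lit 493858305440582043680)) .nil))))) (.cons (.br (nat_lit 7) (nat_lit 1) (.cons (.rf (nat_lit 31) (nat_lit 444636546)) (.cons (.rf (nat_lit 31) (nat_lit 446733698)) (.cons (.rf (nat_lit 5181) (nat_lit 493858305268783356960)) .nil)))) .nil)))))),
 (.br (nat_lit 13) (nat_lit 1) (.cons (.rf (nat_lit 5176) (nat_lit 493858305440582043680)) (.cons (.rf (nat_lit 5176) (nat_lit 493858305268783356960)) (.cons (.rf (nat_lit 5182) (nat_lit 493858305440582043680)) (.cons (.rf (nat_lit 5182) (nat_lit 493823402543469922336)) (.cons (.kr (nat_lit 281474976710656) (nat_lit 79228162514264337593543950336) (nat_lit 6) (nat_lit 0)) .nil)))))),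
 (.br (nat_lit 10) (nat_lit 1) (.cons (.ev (nat_lit 1213648186098598348325121) (nat_lit 1)) (.cons (.rf (nat_lit 84) (nat_lit 14302977089)) .nil))),
 (.br (nat_lit 10) (nat_lit 1) (.cons (.br (nat_lit 8) (nat_lit 1) (.cons (.br (nat_lit 11) (nat_lit 1) (.cons (.ev (nat_lit 20361950878045954762890897851650) (nat_lit 3)) .nil)) (.cons (.rf (nat_lit 84) (nat_lit 14302818369)) .nil))) (.cons (.br (nat_lit 11) (nat_lit 1) (.cons (.ev (nat_lit 309489732187829037898400001) (nat_lit 1)) (.cons (.ev (nat_lit 20282720302309678147994067730433) (nat_lit 1)) .nil))) (.cons (.ev (nat_lit 79228162514336677762087059713) (nat_lit 1)) .nil)))),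
 (.br (nat_lit 7) (nat_lit 1) (.cons (.br (nat_lit 8) (nat_lit 1) (.cons (.rf (nat_lit 5184) (nat_lit 493858305440582043680)) (.cons (.rf (nat_lit 5184) (nat_lit 493823402543469922336)) (.cons (.ev (nat_lit 79228162514336677762087059713) (nat_lit 1)) .nil)))) (.cons (.rf (nat_lit 5185) (nat_lit 493858305440582043680)) (.cons (.rf (nat_lit 5185) (nat_lit 493823402543469922336)) (.cons (.rf (nat_lit 1593) (nat_lit 388737960327)) .nil))))),
 (.br (nat_lit 7) (nat_lit 1) (.cons (.br (nat_lit 8) (nat_lit 1) (.cons (.kr (nat_lit 18446744073709617152) (nat_lit 72057598332895232) (nat_lit 2) (nat_lit 0)) (.cons (.rf (nat_lit 84) (nat_lit 7826614402)) .nil))) (.cons (.rf (nat_lit 5177) (nat_lit 9840070721)) (.cons (.rf (nat_lit 84) (nat_lit 8899307588)) .nil)))),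
 (.br (nat_lit 7) (nat_lit 1) (.cons (.rf (nat_lit 5186) (nat_lit 493858305268783356960)) (.cons (.rf (nat_lit 2594) (nat_lit 11108004066)) (.cons (.rf (nat_lit 5187) (nat_lit 469845002029088)) (.cons (.rf (nat_lit 31) (nat_lit 446728583)) .nil))))),
 (.br (nat_lit 13) (nat_lit 1) (.cons (.rf (nat_lit 5176) (nat_lit 493858305440582043680)) (.cons (.rf (nat_lit 5176) (nat_lit 493858305268783356960)) (.cons (.rf (nat_lit 5183) (nat_lit 493858305440582043680)) (.cons (.br (nat_lit 2) (nat_lit 1) (.cons (.kr (nat_lit 65536) (nat_lit 72057594037927936) (nat_lit 2) (nat_lit 0)) (.cons (.rf (nat_lit 5186) (nat_lit 493858305440582043680)) (.cons (.rf (nat_lit 5188) (nat_lit 493858305440582043680)) (.cons (.rf (nat_lit 5188) (nat_lit 493823402543469922336)) (.cons (.rf (nat_lit 1593) (nat_lit 388737965442)) .nil)))))) (.cons (.kr (nat_lit 281474976710656) (nat_lit 79228162514264337593543950336) (nat_lit 6) (nat_lit 0)) .nil)))))),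
 (.br (nat_lit 13) (nat_lit 1) (.cons (.rf (nat_lit 5176) (nat_lit 493858305440582043680)) (.cons (.rf (nat_lit 5176) (nat_lit 493858305268783356960)) (.cons (.rf (nat_lit 5183) (nat_lit 493858305440582043680)) (.cons (.rf (nat_lit 5189) (nat_lit 493858305440582043680)) (.cons (.rf (nat_lit 5189) (nat_lit 493823402543469922336)) (.cons (.kr (nat_lit 281474976710656) (nat_lit 79228162514264337593543950336) (nat_lit 6) (nat_lit 0)) .nil))))))),
 (.br (nat_lit 10) (nat_lit 1) (.cons (.br (nat_lit 12) (nat_lit 1) (.cons (.br (nat_lit 8) (nat_lit 1) (.cons (.br (nat_lit 11) (nat_lit 1) (.cons (.ev (nat_lit 20680725273790999322525522002180) (nat_lit 3)) .nil)) (.cons (.ev (nat_lit 20361638989277301134001625367296) (nat_lit 2)) .nil))) (.cons (.br (nat_lit 11) (nat_lit 1) (.cons (.br (nat_lit 8) (nat_lit 1) (.cons (.ev (nat_lit 79229376180969519334616531200) (nat_lit 1)) .nil)) (.cons (.ev (nat_lit 20361947255898122590578693636096) (nat_lit 1)) .nil))) (.cons (.ev (nat_lit 20282409603651742764115794395136)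 (nat_lit 1)) .nil)))) (.cons (.rf (nat_lit 82) (nat_lit 9036869666)) (.cons (.rf (nat_lit 2594) (nat_lit 14228467938)) .nil)))),
 (.br (nat_lit 10) (nat_lit 1) (.cons (.rf (nat_lit 5191) (nat_lit 493858305440582043680)) (.cons (.br (nat_lit 10) (nat_lit 1) (.cons (.rf (nat_lit 5191) (nat_lit 493858305440582043680)) (.cons (.rf (nat_lit 82) (nat_lit 12258095138)) (.cons (.rf (nat_lit 2594) (nat_lit 14329131234)) .nil)))) (.cons (.rf (nat_lit 1343) (nat_lit 275327032385)) (.cons (.rf (nat_lit 4982) (nat_lit 351382439980)) .nil))))),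
 (.br (nat_lit 1) (nat_lit 1) (.cons (.ev (nat_lit 72058693566398721) (nat_lit 1)) (.cons (.rf (nat_lit 5192) (nat_lit 493858305440582043680)) (.cons (.rf (nat_lit 5192) (nat_lit 493823402543469922336)) (.cons (.rf (nat_lit 29) (nat_lit 13863297)) (.cons (.rf (nat_lit 58) (nat_lit 13862956)) .nil)))))),
 (.br (nat_lit 8) (nat_lit 1) (.cons (.ev (nat_lit 4740813226947649798401) (nat_lit 1)) (.cons (.br (nat_lit 12) (nat_lit 1) (.cons (.rf (nat_lit 2321) (nat_lit 382099228715738307616)) (.cons (.ev (nat_lit 79228162514336677762087059713) (nat_lit 1)) .nil))) (.cons (.rf (nat_lit 84) (nat_lit 12255834337)) .nil)))),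
 (.br (nat_lit 8) (nat_lit 1) (.cons (.ev (nat_lit 4740813226947649798401) (nat_lit 1)) (.cons (.br (nat_lit 7) (nat_lit 1) (.cons (.br (nat_lit 11) (nat_lit 1) (.cons (.ev (nat_lit 20678863546918689946929842947330) (nat_lit 3)) .nil)) (.cons (.br (nat_lit 10) (nat_lit 1) (.cons (.zr (nat_lit 238612942572257047986806390784) (nat_lit 4759260253595864399873) (nat_lit 5) (nat_lit 9)) .nil)) (.cons (.rf (nat_lit 2330) (nat_lit 382099228715738307616)) .nil)))) (.cons (.br (nat_lit 7) (nat_lit 1) (.cons (.ev (nat_lit 20361637780351697128109377716481) (nat_lit 2)) (.cons (.ev (nat_lit 79228162514336677762087059713) (nat_lit 1)) .nil))) .nil)))),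
 (.br (nat_lit 8) (nat_lit 1) (.cons (.rf (nat_lit 5194) (nat_lit 493858305440582043680)) (.cons (.rf (nat_lit 5195) (nat_lit 493858305440582043680)) (.cons (.br (nat_lit 8) (nat_lit 1) (.cons (.rf (nat_lit 5194) (nat_lit 493858305440582043680)) (.cons (.rf (nat_lit 5195) (nat_lit 493858305440582043680)) (.cons (.ev (nat_lit 20282409608392483932369877794816) (nat_lit 1)) .nil)))) (.cons (.br (nat_lit 8) (nat_lit 1) (.cons (.rf (nat_lit 84) (nat_lit 12255834337)) (.cons (.rf (nat_lit 5195) (nat_lit 493858305440582043680)) (.cons (.ev (nat_lit 20282409608392483932369877794816) (nat_lit 1)) .nil)))) .nil))))),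
 (.br (nat_lit 11) (nat_lit 1) (.cons (.rf (nat_lit 5196) (nat_lit 493858305440582043680)) (.cons (.br (nat_lit 8) (nat_lit 1) (.cons (.br (nat_lit 10) (nat_lit 1) (.cons (.zr (nat_lit 475368975104393057605162958851) (nat_lit 1237949484018911171789717504) (nat_lit 10) (nat_lit 0)) .nil)) (.cons (.br (nat_lit 1) (nat_lit 1) (.cons (.zr (nat_lit 238612942572257047986806390784) (nat_lit 4759260253595864399873) (nat_lit 5) (nat_lit 9)) .nil)) (.cons (.ev (nat_lit 20282409608392483932369877794816) (nat_lit 1)) .nil)))) (.cons (.ev (nat_lit 20282719093383858534460126396416) (nat_lit 1)) .nil)))),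
 (.br (nat_lit 11) (nat_lit 1) (.cons (.rf (nat_lit 5196) (nat_lit 493858305440582043680)) (.cons (.rf (nat_lit 5197) (nat_lit 493858305440582043680)) (.cons (.br (nat_lit 1) (nat_lit 1) (.cons (.ev (nat_lit 79228162514336677762087059713) (nat_lit 1)) (.cons (.rf (nat_lit 84) (nat_lit 14305767650)) .nil))) .nil)))),
 (.br (nat_lit 11) (nat_lit 1) (.cons (.rf (nat_lit 5196) (nat_lit 493858305440582043680)) (.cons (.rf (nat_lit 5197) (nat_lit 493858305440582043680)) (.cons (.rf (nat_lit 5198) (nat_lit 493858305440582043680)) (.cons (.br (nat_lit 11) (nat_lit 1) (.cons (.rf (nat_lit 58) (nat_lit 11934754)) (.cons (.ev (nat_lit 20282719093383858534460126396416) (nat_lit 1)) (.cons (.rf (nat_lit 5198) (nat_lit 493858305440582043680)) .nil)))) .nil))))),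
 (.br (nat_lit 11) (nat_lit 1) (.cons (.rf (nat_lit 5196) (nat_lit 493858305440582043680)) (.cons (.rf (nat_lit 5199) (nat_lit 493858305440582043680)) (.cons (.br (nat_lit 1) (nat_lit 1) (.cons (.br (nat_lit 8) (nat_lit 1) (.cons (.ev (nat_lit 4740813226947649798401) (nat_lit 1)) .nil)) (.cons (.ev (nat_lit 79228162532711364241758617856) (nat_lit 1)) (.cons (.br (nat_lit 7) (nat_lit 1) (.cons (.ev (nat_lit 4740813226947649798401) (nat_lit 1)) .nil)) .nil)))) .nil)))),
 (.br (nat_lit 11) (nat_lit 1) (.cons (.rf (nat_lit 5196) (nat_lit 493858305440582043680)) (.cons (.rf (nat_lit 5199) (nat_lit 493858305440582043680)) (.cons (.rf (nat_lit 5200) (nat_lit 493858305440582043680)) (.cons (.br (nat_lit 11) (nat_lit 1) (.cons (.rf (nat_lit 5196) (nat_lit 493858305440582043680)) (.cons (.ev (nat_lit 20282719093383858534460126396416) (nat_lit 1)) (.cons (.rf (nat_lit 5200) (nat_lit 493858305440582043680)) .nil)))) .nil))))),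
 (.br (nat_lit 11) (nat_lit 1) (.cons (.rf (nat_lit 5196) (nat_lit 493858305440582043680)) (.cons (.rf (nat_lit 5199) (nat_lit 493858305440582043680)) (.cons (.rf (nat_lit 5201) (nat_lit 493858305440582043680)) (.cons (.br (nat_lit 11) (nat_lit 1) (.cons (.ev (nat_lit 20361947251175756106613815050241) (nat_lit 1)) (.cons (.rf (nat_lit 5199) (nat_lit 493858305440582043680)) (.cons (.rf (nat_lit 5201) (nat_lit 493858305440582043680)) .nil)))) .nil))))),
 (.br (nat_lit 11) (nat_lit 1) (.cons (.rf (nat_lit 5196) (nat_lit 493858305440582043680)) (.cons (.rf (nat_lit 5199) (nat_lit 493858305440582043680)) (.cons (.rf (nat_lit 5201) (nat_lit 493858305440582043680)) (.cons (.rf (nat_lit 5202) (nat_lit 493858305440582043680)) (.cons (.br (nat_lit 11) (nat_lit 1) (.cons (.rf (nat_lit 5196) (nat_lit 493858305440582043680)) (.cons (.rf (nat_lit 5199) (nat_lit 493858305440582043680)) (.cons (.rf (nat_lit 5201) (nat_lit 493858305440582043680)) (.cons (.rf (nat_lit 5202) (nat_lit 493858305440582043680)) .nil)))))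 .nil)))))),
 (.br (nat_lit 13) (nat_lit 1) (.cons (.rf (nat_lit 5190) (nat_lit 493858305440582043680)) (.cons (.rf (nat_lit 5193) (nat_lit 493858305440582043680)) (.cons (.rf (nat_lit 5203) (nat_lit 493858305440582043680)) (.cons (.rf (nat_lit 5203) (nat_lit 493823402543469922336)) (.cons (.kr (nat_lit 281474976710656) (nat_lit 79228162514264337593543950336) (nat_lit 6) (nat_lit 0)) .nil)))))),
 (.br (nat_lit 10) (nat_lit 1) (.cons (.br (nat_lit 11) (nat_lit 1) (.cons (.zr (nat_lit 237684487598133245001760702464) (nat_lit 2422574005994706794708993) (nat_lit 5) (nat_lit 0)) .nil)) (.cons (.ev (nat_lit 20282410817318375605688323866625) (nat_lit 1)) .nil))),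
 (.br (nat_lit 10) (nat_lit 1) (.cons (.br (nat_lit 8) (nat_lit 1) (.cons (.br (nat_lit 11) (nat_lit 1) (.cons (.zr (nat_lit 79228162533072214062373339139) (nat_lit 4845148011426463635996672) (nat_lit 10) (nat_lit 0)) .nil)) (.cons (.rf (nat_lit 84) (nat_lit 14302818338)) .nil))) (.cons (.br (nat_lit 11) (nat_lit 1) (.cons (.br (nat_lit 8) (nat_lit 1) (.cons (.ev (nat_lit 79537652246452448106419060993) (nat_lit 1)) .nil)) (.cons (.ev (nat_lit 20361948460101647779932261122048) (nat_lit 1)) .nil))) (.cons (.ev (nat_lit 79228162514336677762087059713) (nat_lit 1)) .nil))))]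

theorem c181 : chkAll C T R L181 (nat_lit 5174) = true := by decide +kernel

theorem l181 : (nat_lit 5174) + L181.length = (nat_lit 5207) := by decide +kernel

/-- part of the certificates -/
def L182 : List Prf := [(.br (nat_lit 7) (nat_lit 1) (.cons (.br (nat_lit 10) (nat_lit 1) (.cons (.br (nat_lit 8) (nat_lit 1) (.cons (.br (nat_lit 11) (nat_lit 1) (.cons (.zr (nat_lit 55701646091225664004) (nat_lit 158470836860730534753602633728) (nat_lit 30) (nat_lit 0)) .nil)) (.cons (.ev (nat_lit 20282410817318375605688323866625) (nat_lit 1)) .nil))) (.cons (.br (nat_lit 11) (nat_lit 1) (.cons (.br (nat_lit 8) (nat_lit 1) (.cons (.ev (nat_lit 20522268948762468958488573837572) (nat_lit 3)) .nil)) (.cons (.ev (nat_lit 20282720302309750205588105592833) (nat_lit 1)) .nil))) (.cons (.ev (nat_lit 79228162514336677762087059713) (nat_lit 1)) .nil)))) (.cons (.ev (nat_lit 1208925819614633469739264) (nat_lit 1)) (.cons (.br (nat_lit 10) (nat_lit 1) (.cons (.br (nat_lit 11) (nat_lit 1) (.cons (.br (nat_lit 8)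 (nat_lit 1) (.cons (.ev (nat_lit 21471154852912626027045038001412) (nat_lit 4)) .nil)) (.cons (.ev (nat_lit 20361947255898122590578693636096) (nat_lit 1)) .nil))) (.cons (.ev (nat_lit 310698658079500165877596416) (nat_lit 1)) (.cons (.rf (nat_lit 84) (nat_lit 12257931303)) .nil)))) (.cons (.rf (nat_lit 31) (nat_lit 446760327)) .nil))))),
 (.br (nat_lit 13) (nat_lit 1) (.cons (.rf (nat_lit 5190) (nat_lit 493858305440582043680)) (.cons (.rf (nat_lit 5193) (nat_lit 493858305440582043680)) (.cons (.rf (nat_lit 5204) (nat_lit 493858305440582043680)) (.cons (.br (nat_lit 1) (nat_lit 1) (.cons (.rf (nat_lit 1593) (nat_lit 388771524833)) (.cons (.br (nat_lit 7) (nat_lit 1) (.cons (.br (nat_lit 8) (nat_lit 1) (.cons (.rf (nat_lit 5205) (nat_lit 493858305440582043680)) (.cons (.rf (nat_lit 5205) (nat_lit 493823402543469922336)) (.cons (.ev (nat_lit 79228162514336677762087059713) (nat_lit 1)) .nil)))) (.cons (.rf (nat_lit 5206) (nat_lit 493858305440582043680)) (.cons (.rf (nat_lit 5206) (nat_lit 493823402543469922336))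 (.cons (.rf (nat_lit 1593) (nat_lit 388771513735)) .nil))))) (.cons (.rf (nat_lit 5207) (nat_lit 493858305440582043680)) (.cons (.rf (nat_lit 5207) (nat_lit 493823402543469922336)) (.cons (.rf (nat_lit 1593) (nat_lit 388771519873)) .nil)))))) (.cons (.kr (nat_lit 281474976710656) (nat_lit 79228162514264337593543950336) (nat_lit 6) (nat_lit 0)) .nil)))))),
 (.br (nat_lit 13) (nat_lit 1) (.cons (.rf (nat_lit 5190) (nat_lit 493858305440582043680)) (.cons (.rf (nat_lit 5193) (nat_lit 493858305440582043680)) (.cons (.rf (nat_lit 5204) (nat_lit 493858305440582043680)) (.cons (.rf (nat_lit 5208) (nat_lit 493858305440582043680)) (.cons (.rf (nat_lit 5208) (nat_lit 493823402543469922336)) (.cons (.kr (nat_lit 281474976710656) (nat_lit 79228162514264337593543950336) (nat_lit 6) (nat_lit 0)) .nil))))))),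
 (.br (nat_lit 12) (nat_lit 1) (.cons (.ev (nat_lit 79228162532783421835796611328) (nat_lit 1)) (.cons (.rf (nat_lit 2238) (nat_lit 417839795530349250592)) .nil))),
 (.br (nat_lit 10) (nat_lit 1) (.cons (.br (nat_lit 8) (nat_lit 1) (.cons (.br (nat_lit 11) (nat_lit 1) (.cons (.zr (nat_lit 237688114320251856668156166144) (nat_lit 4759260253595864399873) (nat_lit 5) (nat_lit 9)) .nil)) (.cons (.ev (nat_lit 20361640198203192244387298017539) (nat_lit 2)) .nil))) (.cons (.br (nat_lit 11) (nat_lit 1) (.cons (.ev (nat_lit 310693935640960797427892481) (nat_lit 1)) (.cons (.ev (nat_lit 20282720302309678147994067730433) (nat_lit 1)) .nil))) (.cons (.rf (nat_lit 29) (nat_lit 10886209)) .nil)))),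
 (.br (nat_lit 7) (nat_lit 1) (.cons (.br (nat_lit 8) (nat_lit 1) (.cons (.rf (nat_lit 5210) (nat_lit 493858305440582043680)) (.cons (.rf (nat_lit 5210) (nat_lit 493823402543469922336)) (.cons (.ev (nat_lit 20361637770906820046082482896896) (nat_lit 1)) .nil)))) (.cons (.rf (nat_lit 5211) (nat_lit 493858305440582043680)) (.cons (.rf (nat_lit 5211) (nat_lit 493823402543469922336)) (.cons (.rf (nat_lit 246) (nat_lit 387970374721)) .nil))))),
 (.br (nat_lit 10) (nat_lit 1) (.cons (.ev (nat_lit 1213666632842672057876736) (nat_lit 1)) (.cons (.ev (nat_lit 20282410817318375605688323866625) (nat_lit 1)) .nil))),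
 (.br (nat_lit 7) (nat_lit 1) (.cons (.br (nat_lit 10) (nat_lit 1) (.cons (.br (nat_lit 11) (nat_lit 1) (.cons (.ev (nat_lit 20361953295934054011022998569222) (nat_lit 3)) .nil)) (.cons (.rf (nat_lit 82) (nat_lit 14302977089)) .nil))) (.cons (.ev (nat_lit 72058693566398721) (nat_lit 1)) (.cons (.br (nat_lit 11) (nat_lit 1) (.cons (.br (nat_lit 10) (nat_lit 1) (.cons (.ev (nat_lit 20839174373636134477917126328578) (nat_lit 3)) .nil)) (.cons (.ev (nat_lit 310698658079500165877596416) (nat_lit 1)) (.cons (.rf (nat_lit 2325) (nat_lit 417839795530349250592)) .nil)))) (.cons (.br (nat_lit 10) (nat_lit 1) (.cons (.ev (nat_lit 79229371440084233701990400256) (nat_lit 1)) (.cons (.ev (nat_lit 20361638975091826433768302837761) (nat_lit 1)) .nil))) .nil))))),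
 (.br (nat_lit 10) (nat_lit 1) (.cons (.ev (nat_lit 40644048588225124157126722191875) (nat_lit 2)) (.cons (.zr (nat_lit 20282410812577490041887896174848) (nat_lit 396140822016055216656963600386) (nat_lit 10) (nat_lit 4)) .nil))),
 (.br (nat_lit 1) (nat_lit 1) (.cons (.rf (nat_lit 5212) (nat_lit 493858305268783356960)) (.cons (.br (nat_lit 7) (nat_lit 1) (.cons (.rf (nat_lit 5213) (nat_lit 493858305440582043680)) (.cons (.rf (nat_lit 5213) (nat_lit 493823402543469922336)) (.cons (.zr (nat_lit 4722367045828306011136) (nat_lit 20282409603670189234411091787778) (nat_lit 15) (nat_lit 3)) .nil)))) (.cons (.rf (nat_lit 5214) (nat_lit 493858305440582043680)) (.cons (.rf (nat_lit 5214) (nat_lit 493823402543469922336)) (.cons (.br (nat_lit 7) (nat_lit 1) (.cons (.kr (nat_lit 281474976710657) (nat_lit 79228162532711081667253501952) (nat_lit 0) (nat_lit 1)) (.cons (.rf (nat_lit 5215) (nat_lit 493858305440582043680)) (.cons (.rf (nat_lit 5215) (nat_lit 493823402543469922336)) .nil)))) .nil)))))),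
 (.br (nat_lit 12) (nat_lit 1) (.cons (.ev (nat_lit 20361637766184453564308071186433) (nat_lit 1)) (.cons (.zr (nat_lit 9444733528697951224832) (nat_lit 20282410812577562104966556942339) (nat_lit 15) (nat_lit 3)) (.cons (.zr (nat_lit 9444733528697951224832) (nat_lit 20282719088661491777812069154819) (nat_lit 15) (nat_lit 3)) .nil)))),
 (.br (nat_lit 1) (nat_lit 1) (.cons (.rf (nat_lit 5217) (nat_lit 493858305440582043680)) (.cons (.br (nat_lit 8) (nat_lit 1) (.cons (.ev (nat_lit 80156617543800712972556304387) (nat_lit 2)) .nil)) (.cons (.zr (nat_lit 20282409603651743325966219673859) (nat_lit 4845148011426463635996672) (nat_lit 10) (nat_lit 0)) .nil)))),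
 (.br (nat_lit 7) (nat_lit 1) (.cons (.rf (nat_lit 5212) (nat_lit 493858305268783356960)) (.cons (.rf (nat_lit 5216) (nat_lit 493858305268783356960)) (.cons (.br (nat_lit 1) (nat_lit 1) (.cons (.ev (nat_lit 72058693566398721) (nat_lit 1)) (.cons (.br (nat_lit 12) (nat_lit 1) (.cons (.ev (nat_lit 79229376162522775260906979585) (nat_lit 1)) (.cons (.kr (nat_lit 4722366764344621924352) (nat_lit 79229371440083952222718656512) (nat_lit 6) (nat_lit 0)) .nil))) (.cons (.rf (nat_lit 29) (nat_lit 10717569)) .nil)))) (.cons (.br (nat_lit 8) (nat_lit 1) (.cons (.rf (nat_lit 5217) (nat_lit 493858305440582043680)) (.cons (.rf (nat_lit 5218) (nat_lit 493858305440582043680)) (.cons (.rf (nat_lit 5218) (nat_lit 493823402371671235616)) (.cons (.br (nat_lit 1) (nat_lit 1) (.cons (.ev (nat_lit 20361637766184453564308071186433) (nat_lit 1)) (.cons (.ev (nat_lit 79231789291723464059868217347) (nat_lit 2)) (.cons (.ev (nat_lit 80156617543800712972556304387) (nat_lit 2)) .nil)))) .nil))))) (.cons (.br (nat_lit 1)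 (nat_lit 1) (.cons (.zr (nat_lit 81129638414606969928394278436864) (nat_lit 316912668946524407752663499011) (nat_lit 15) (nat_lit 4)) (.cons (.rf (nat_lit 29) (nat_lit 10552711)) (.cons (.br (nat_lit 10) (nat_lit 1) (.cons (.zr (nat_lit 20282409603651743325966219673859) (nat_lit 4845148011426463635996672) (nat_lit 10) (nat_lit 0)) (.cons (.ev (nat_lit 310698658007442571839734016) (nat_lit 1)) .nil))) .nil)))) .nil)))))),
 (.br (nat_lit 13) (nat_lit 1) (.cons (.rf (nat_lit 5190) (nat_lit 493858305440582043680)) (.cons (.rf (nat_lit 5209) (nat_lit 493858305440582043680)) (.cons (.rf (nat_lit 5209) (nat_lit 493858305268783356960)) (.cons (.br (nat_lit 2) (nat_lit 1) (.cons (.rf (nat_lit 5212) (nat_lit 493858305440582043680)) (.cons (.kr (nat_lit 65536) (nat_lit 72057594037927936) (nat_lit 2) (nat_lit 0)) (.cons (.rf (nat_lit 5216) (nat_lit 493858305440582043680)) (.cons (.rf (nat_lit 5219) (nat_lit 493858305440582043680)) (.cons (.rf (nat_lit 5219) (nat_lit 493823402543469922336)) (.cons (.br (nat_lit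 7) (nat_lit 1) (.cons (.rf (nat_lit 246) (nat_lit 387970369761)) (.cons (.rf (nat_lit 5216) (nat_lit 493858305268783356960)) (.cons (.rf (nat_lit 5219) (nat_lit 493858305268783356960)) (.cons (.rf (nat_lit 5219) (nat_lit 493823402371671235616)) .nil))))) .nil))))))) (.cons (.kr (nat_lit 281474976710656) (nat_lit 79228162514264337593543950336) (nat_lit 6) (nat_lit 0)) .nil)))))),
 (.br (nat_lit 13) (nat_lit 1) (.cons (.rf (nat_lit 5190) (nat_lit 493858305440582043680)) (.cons (.rf (nat_lit 5209) (nat_lit 493858305440582043680)) (.cons (.rf (nat_lit 5209) (nat_lit 493858305268783356960)) (.cons (.rf (nat_lit 5220) (nat_lit 493858305440582043680)) (.cons (.rf (nat_lit 5220) (nat_lit 493823402543469922336)) (.cons (.kr (nat_lit 281474976710656) (nat_lit 79228162514264337593543950336) (nat_lit 6) (nat_lit 0)) .nil))))))),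
 (.br (nat_lit 13) (nat_lit 1) (.cons (.rf (nat_lit 5190) (nat_lit 493858305440582043680)) (.cons (.rf (nat_lit 5209) (nat_lit 493858305440582043680)) (.cons (.rf (nat_lit 5209) (nat_lit 493858305268783356960)) (.cons (.rf (nat_lit 5221) (nat_lit 493858305440582043680)) (.cons (.br (nat_lit 13) (nat_lit 1) (.cons (.rf (nat_lit 5190) (nat_lit 493858305440582043680)) (.cons (.rf (nat_lit 5209) (nat_lit 493858305440582043680)) (.cons (.rf (nat_lit 5209) (nat_lit 493858305268783356960)) (.cons (.rf (nat_lit 5221) (nat_lit 493858305440582043680)) (.cons (.kr (nat_lit 281474976710656) (nat_lit 79228162514264337593543950336) (nat_lit 6) (nat_lit 0)) .nil)))))) (.cons (.kr (nat_lit 281474976710656) (nat_lit 79228162514264337593543950336) (nat_lit 6) (nat_lit 0)) .nil))))))),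
 (.br (nat_lit 6) (nat_lit 1) (.cons (.rf (nat_lit 5059) (nat_lit 407901468851537952)) (.cons (.br (nat_lit 3) (nat_lit 1) (.cons (.rf (nat_lit 5173) (nat_lit 493858305440582043680)) (.cons (.br (nat_lit 7) (nat_lit 0) (.cons (.br (nat_lit 12) (nat_lit 0) (.cons (.br (nat_lit 13) (nat_lit 1) (.cons (.rf (nat_lit 5190) (nat_lit 493858305440582043680)) (.cons (.rf (nat_lit 5209) (nat_lit 493858305440582043680)) (.cons (.rf (nat_lit 5209) (nat_lit 493858305268783356960)) (.cons (.rf (nat_lit 5221) (nat_lit 493858305440582043680)) (.cons (.rf (nat_lit 5222) (nat_lit 493858305440582043680)) (.cons (.rf (nat_lit 5222) (nat_lit 493823402543469922336)) (.cons (.kr (nat_lit 281474976710656) (nat_lit 79228162514264337593543950336) (nat_lit 6) (nat_lit 0)) .nil)))))))) .nil)) (.cons (.rf (nat_lit 5173) (nat_lit 493858305440515000352)) .nil))) .nil))) .nil))),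
 (.br (nat_lit 9) (nat_lit 1) (.cons (.rf (nat_lit 4882) (nat_lit 11584701642934304)) (.cons (.br (nat_lit 9) (nat_lit 1) (.cons (.rf (nat_lit 4882) (nat_lit 12710601549776928)) (.cons (.br (nat_lit 6) (nat_lit 1) (.cons (.rf (nat_lit 5059) (nat_lit 407901468851537952)) (.cons (.rf (nat_lit 5223) (nat_lit 14242959524133701664)) (.cons (.br (nat_lit 6) (nat_lit 1) (.cons (.rf (nat_lit 5059) (nat_lit 407901468851537952)) (.cons (.rf (nat_lit 5223) (nat_lit 15395881028740548640)) .nil))) .nil)))) .nil))) .nil))),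
 (.br (nat_lit 7) (nat_lit 0) (.cons (.rf (nat_lit 4352) (nat_lit 8869281629408)) (.cons (.rf (nat_lit 4621) (nat_lit 8871427021856)) (.cons (.rf (nat_lit 4352) (nat_lit 8869214586080)) .nil)))),
 (.br (nat_lit 7) (nat_lit 1) (.cons (.rf (nat_lit 31) (nat_lit 410199105)) (.cons (.ev (nat_lit 18519083147019223041) (nat_lit 1)) .nil))),
 (.br (nat_lit 7) (nat_lit 1) (.cons (.rf (nat_lit 31) (nat_lit 410199105)) (.cons (.rf (nat_lit 5226) (nat_lit 14242959524133701664)) (.cons (.rf (nat_lit 5226) (nat_lit 14208056627021580320)) .nil)))),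
 (.br (nat_lit 13) (nat_lit 1) (.cons (.rf (nat_lit 5227) (nat_lit 15433072044983552032)) (.cons (.kr (nat_lit 1208925819614629174706432) (nat_lit 281474976776192) (nat_lit 1) (nat_lit 0)) (.cons (.rf (nat_lit 1593) (nat_lit 424372774977)) .nil)))),
 (.br (nat_lit 13) (nat_lit 1) (.cons (.rf (nat_lit 5227) (nat_lit 15433072044983552032)) (.cons (.kr (nat_lit 1208925819614629174706432) (nat_lit 281474976776192) (nat_lit 1) (nat_lit 0)) (.cons (.rf (nat_lit 5228) (nat_lit 493858305440582043680)) (.cons (.rf (nat_lit 5228) (nat_lit 492741412732994160672)) .nil))))),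
 (.br (nat_lit 10) (nat_lit 1) (.cons (.ev (nat_lit 1208944338698871427367168) (nat_lit 1)) (.cons (.rf (nat_lit 2671) (nat_lit 455882862667026761760)) .nil))),
 (.br (nat_lit 10) (nat_lit 1) (.cons (.br (nat_lit 8) (nat_lit 1) (.cons (.ev (nat_lit 20283029796782750982302028923139) (nat_lit 2)) (.cons (.ev (nat_lit 20282410812596008841343701942273) (nat_lit 1)) .nil))) (.cons (.rf (nat_lit 29) (nat_lit 11869249)) (.cons (.br (nat_lit 11) (nat_lit 1) (.cons (.br (nat_lit 8) (nat_lit 1) (.cons (.zr (nat_lit 932081806922879093698462464) (nat_lit 4759260253595864399873) (nat_lit 5) (nat_lit 9)) .nil)) (.cons (.ev (nat_lit 20361947255898122870958436974593) (nat_lit 1)) .nil))) .nil)))),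
 (.br (nat_lit 13) (nat_lit 1) (.cons (.rf (nat_lit 5227) (nat_lit 15433072044983552032)) (.cons (.kr (nat_lit 1208925819614629174706432) (nat_lit 281474976776192) (nat_lit 1) (nat_lit 0)) (.cons (.br (nat_lit 7) (nat_lit 1) (.cons (.br (nat_lit 8) (nat_lit 1) (.cons (.ev (nat_lit 20282410817318375323118113652736) (nat_lit 1)) (.cons (.rf (nat_lit 5230) (nat_lit 493858305440582043680)) (.cons (.rf (nat_lit 5230) (nat_lit 492741412732994160672)) .nil)))) (.cons (.rf (nat_lit 246) (nat_lit 422363601985)) (.cons (.rf (nat_lit 5231) (nat_lit 493858305440582043680)) (.cons (.rf (nat_lit 5231) (nat_lit 492741412732994160672)) .nil))))) .nil)))),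
 (.br (nat_lit 13) (nat_lit 1) (.cons (.rf (nat_lit 5227) (nat_lit 15433072044983552032)) (.cons (.kr (nat_lit 1208925819614629174706432) (nat_lit 281474976776192) (nat_lit 1) (nat_lit 0)) (.cons (.rf (nat_lit 5232) (nat_lit 493858305440582043680)) (.cons (.rf (nat_lit 5232) (nat_lit 492741412732994160672)) .nil))))),
 (.br (nat_lit 13) (nat_lit 1) (.cons (.rf (nat_lit 5229) (nat_lit 493858305440582043680)) (.cons (.rf (nat_lit 5233) (nat_lit 493858305440582043680)) (.cons (.kr (nat_lit 1208925819614629174706432) (nat_lit 281474976776192) (nat_lit 1) (nat_lit 0)) (.cons (.br (nat_lit 13) (nat_lit 1) (.cons (.rf (nat_lit 1593) (nat_lit 424372774977)) (.cons (.rf (nat_lit 5233) (nat_lit 493858305440582043680)) (.cons (.kr (nat_lit 1208925819614629174706432) (nat_lit 281474976776192) (nat_lit 1) (nat_lit 0)) .nil)))) .nil))))),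
 (.br (nat_lit 13) (nat_lit 1) (.cons (.rf (nat_lit 5229) (nat_lit 493858305440582043680)) (.cons (.rf (nat_lit 5233) (nat_lit 493858305440582043680)) (.cons (.kr (nat_lit 1208925819614629174706432) (nat_lit 281474976776192) (nat_lit 1) (nat_lit 0)) (.cons (.rf (nat_lit 5234) (nat_lit 493858305440582043680)) (.cons (.rf (nat_lit 5234) (nat_lit 492741412732994160672)) .nil)))))),
 (.br (nat_lit 11) (nat_lit 1) (.cons (.rf (nat_lit 2594) (nat_lit 9000298561)) (.cons (.ev (nat_lit 309489732187829037898400001) (nat_lit 1)) (.cons (.br (nat_lit 8) (nat_lit 1) (.cons (.rf (nat_lit 58) (nat_lit 8718375)) (.cons (.br (nat_lit 10) (nat_lit 1) (.cons (.ev (nat_lit 79228162532783139265586462721) (nat_lit 1)) (.cons (.br (nat_lit 12) (nat_lit 1) (.cons (.zr (nat_lit 3626833015248890766557184) (nat_lit 158456329750895440635533197313) (nat_lit 5) (nat_lit 0)) .nil)) .nil))) (.cons (.br (nat_lit 10) (nat_lit 1) (.cons (.br (nat_lit 12) (nat_lit 1) (.cons (.ev (nat_lit 79228167255077565636427120896) (nat_lit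 1)) .nil)) (.cons (.rf (nat_lit 84) (nat_lit 12256086055)) .nil))) .nil)))) .nil))))]

theorem c182 : chkAll C T R L182 (nat_lit 5207) = true := by decide +kernel

theorem l182 : (nat_lit 5207) + L182.length = (nat_lit 5237) := by decide +kernel

/-- part of the certificates -/
def L183 : List Prf := [(.br (nat_lit 11) (nat_lit 1) (.cons (.rf (nat_lit 1339) (nat_lit 392259770593)) (.cons (.rf (nat_lit 1343) (nat_lit 422352005345)) (.cons (.rf (nat_lit 5236) (nat_lit 493858305440582043680)) (.cons (.br (nat_lit 11) (nat_lit 1) (.cons (.rf (nat_lit 2594) (nat_lit 9033852993)) (.cons (.rf (nat_lit 82) (nat_lit 14238689505)) (.cons (.rf (nat_lit 5236) (nat_lit 493858305440582043680)) .nil)))) .nil))))),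
 (.br (nat_lit 10) (nat_lit 1) (.cons (.ev (nat_lit 309485028340146740767293441) (nat_lit 1)) (.cons (.br (nat_lit 11) (nat_lit 1) (.cons (.kr (nat_lit 20361637766165934761540795302144) (nat_lit 310693954159761365646966784) (nat_lit 1) (nat_lit 0)) .nil)) .nil))),
 (.br (nat_lit 13) (nat_lit 1) (.cons (.rf (nat_lit 2594) (nat_lit 8966809665)) (.cons (.rf (nat_lit 82) (nat_lit 12093303009)) (.cons (.br (nat_lit 8) (nat_lit 1) (.cons (.ev (nat_lit 1208925891954797717815553) (nat_lit 1)) (.cons (.rf (nat_lit 5238) (nat_lit 493858305440582043680)) (.cons (.rf (nat_lit 5238) (nat_lit 492741412732994160672)) .nil)))) .nil)))),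
 (.br (nat_lit 8) (nat_lit 1) (.cons (.rf (nat_lit 29) (nat_lit 8619330)) (.cons (.rf (nat_lit 1593) (nat_lit 424171281730)) (.cons (.br (nat_lit 7) (nat_lit 1) (.cons (.rf (nat_lit 31) (nat_lit 377718082)) (.cons (.br (nat_lit 11) (nat_lit 1) (.cons (.br (nat_lit 11) (nat_lit 1) (.cons (.zr (nat_lit 3626833015248890766557184) (nat_lit 618974742009455585894858753) (nat_lit 5) (nat_lit 0)) .nil)) (.cons (.br (nat_lit 11) (nat_lit 1) (.cons (.zr (nat_lit 3626833015248890766557184) (nat_lit 618974742009455585894858753) (nat_lit 5) (nat_lit 0)) .nil)) .nil))) (.cons (.rf (nat_lit 31) (nat_lit 444826946)) .nil)))) .nil)))),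
 (.br (nat_lit 8) (nat_lit 1) (.cons (.rf (nat_lit 84) (nat_lit 13262465063)) (.cons (.br (nat_lit 10) (nat_lit 1) (.cons (.rf (nat_lit 84) (nat_lit 13164914759)) (.cons (.rf (nat_lit 84) (nat_lit 12092221666)) (.cons (.br (nat_lit 13) (nat_lit 1) (.cons (.zr (nat_lit 1208944339260721852645379) (nat_lit 1237949484018348221836296192) (nat_lit 10) (nat_lit 0)) (.cons (.zr (nat_lit 6044647905105189772787715) (nat_lit 316912659501790599796089683968) (nat_lit 10) (nat_lit 0)) .nil))) .nil)))) (.cons (.br (nat_lit 10) (nat_lit 1) (.cons (.rf (nat_lit 84) (nat_lit 13164914759)) (.cons (.br (nat_lit 11) (nat_lit 1) (.cons (.ev (nat_lit 79229371458530977775699886081) (nat_lit 1)) (.cons (.zr (nat_lit 1208944339260721852645379) (nat_lit 1237949484018348221836296192) (nat_lit 10) (nat_lit 0)) .nil))) (.cons (.br (nat_lit 13) (nat_lit 1) (.cons (.rf (nat_lit 5177) (nat_lit 14373095466)) (.cons (.zr (nat_lit 40564821625191945624015312322560) (nat_lit 14167101137458795905283) (nat_lit 10) (nat_lit 4)) .nil)))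 .nil)))) .nil)))),
 (.br (nat_lit 11) (nat_lit 1) (.cons (.rf (nat_lit 5241) (nat_lit 493858305440582043680)) (.cons (.kr (nat_lit 4722366482869645213696) (nat_lit 309485009821345068724781056) (nat_lit 9) (nat_lit 0)) (.cons (.br (nat_lit 12) (nat_lit 1) (.cons (.br (nat_lit 8) (nat_lit 1) (.cons (.zr (nat_lit 37110223879486636033) (nat_lit 159075299770537849306595983616) (nat_lit 10) (nat_lit 0)) (.cons (.zr (nat_lit 4759476706749131849729) (nat_lit 159694265067814056574400332032) (nat_lit 10) (nat_lit 0)) .nil))) (.cons (.ev (nat_lit 79228162514336395191876911104) (nat_lit 1)) (.cons (.ev (nat_lit 79537652246524223130246905856) (nat_lit 1)) .nil)))) .nil)))),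
 (.br (nat_lit 11) (nat_lit 1) (.cons (.rf (nat_lit 5241) (nat_lit 493858305440582043680)) (.cons (.rf (nat_lit 4484) (nat_lit 15429590782896637257)) (.cons (.rf (nat_lit 5242) (nat_lit 493858305440582043680)) (.cons (.br (nat_lit 11) (nat_lit 1) (.cons (.rf (nat_lit 5241) (nat_lit 493858305440582043680)) (.cons (.ev (nat_lit 310693935641241177171165184) (nat_lit 1)) (.cons (.rf (nat_lit 5242) (nat_lit 493858305440582043680)) .nil)))) .nil))))),
 (.br (nat_lit 7) (nat_lit 1) (.cons (.rf (nat_lit 84) (nat_lit 12222536738)) (.cons (.br (nat_lit 8) (nat_lit 1) (.cons (.ev (nat_lit 4740885284541687726081) (nat_lit 1)) (.cons (.br (nat_lit 11) (nat_lit 1) (.cons (.zr (nat_lit 6054092638070929063215107) (nat_lit 318150590096343014331698380800) (nat_lit 10) (nat_lit 0)) (.cons (.br (nat_lit 12) (nat_lit 1) (.cons (.ev (nat_lit 20521031008796971680408419895040) (nat_lit 3)) .nil)) .nil))) .nil))) (.cons (.rf (nat_lit 84) (nat_lit 12092221666)) (.cons (.br (nat_lit 8) (nat_lit 1) (.cons (.br (nat_lit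 11) (nat_lit 1) (.cons (.rf (nat_lit 5177) (nat_lit 13332908074)) (.cons (.zr (nat_lit 1208944339260721852645379) (nat_lit 1237949484018348221836296192) (nat_lit 10) (nat_lit 0)) .nil))) (.cons (.ev (nat_lit 4740885284541687726081) (nat_lit 1)) .nil))) .nil))))),
 (.br (nat_lit 12) (nat_lit 1) (.cons (.rf (nat_lit 5243) (nat_lit 493858305440582043680)) (.cons (.rf (nat_lit 5244) (nat_lit 493858305440582043680)) (.cons (.br (nat_lit 7) (nat_lit 1) (.cons (.zr (nat_lit 55340795171082272768) (nat_lit 158456329750895159160556486657) (nat_lit 5) (nat_lit 0)) (.cons (.br (nat_lit 11) (nat_lit 1) (.cons (.ev (nat_lit 79538861190718805714069880833) (nat_lit 1)) (.cons (.rf (nat_lit 4190) (nat_lit 9699641271864395081)) .nil))) (.cons (.br (nat_lit 10) (nat_lit 1) (.cons (.zr (nat_lit 928455084804830377256615936) (nat_lit 158456343917994607769492127745) (nat_lit 5) (nat_lit 0)) (.cons (.ev (nat_lit 1208925891954797717815553) (nat_lit 1)) .nil))) (.cons (.br (nat_lit 10) (nat_lit 1) (.cons (.rf (nat_lit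 5029) (nat_lit 14208198494053827808)) (.cons (.ev (nat_lit 1208925891954797717815553) (nat_lit 1)) (.cons (.zr (nat_lit 60847228810955011271841754055424) (nat_lit 158456329750895440635533197313) (nat_lit 5) (nat_lit 0)) .nil)))) .nil))))) .nil)))),
 (.br (nat_lit 12) (nat_lit 1) (.cons (.rf (nat_lit 5243) (nat_lit 493858305440582043680)) (.cons (.rf (nat_lit 5244) (nat_lit 493858305440582043680)) (.cons (.rf (nat_lit 5245) (nat_lit 493858305440582043680)) (.cons (.br (nat_lit 12) (nat_lit 1) (.cons (.rf (nat_lit 5243) (nat_lit 493858305440582043680)) (.cons (.rf (nat_lit 5244) (nat_lit 493858305440582043680)) (.cons (.rf (nat_lit 5245) (nat_lit 493858305440582043680)) .nil)))) .nil))))),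
 (.br (nat_lit 12) (nat_lit 1) (.cons (.ev (nat_lit 79228162514336395191876911104) (nat_lit 1)) (.cons (.rf (nat_lit 5246) (nat_lit 493858305440582043680)) (.cons (.br (nat_lit 7) (nat_lit 1) (.cons (.br (nat_lit 8) (nat_lit 1) (.cons (.ev (nat_lit 79229371458530977775699886081) (nat_lit 1)) (.cons (.kr (nat_lit 79228162514264337593543950337) (nat_lit 4740813226943354765312) (nat_lit 0) (nat_lit 1)) .nil))) (.cons (.rf (nat_lit 84) (nat_lit 9004457025)) (.cons (.br (nat_lit 11) (nat_lit 1) (.cons (.br (nat_lit 8) (nat_lit 1) (.cons (.zr (nat_lit 3645722481180369347411968) (nat_lit 396759782590964660683969396737) (nat_lit 5) (nat_lit 0)) .nil)) (.cons (.ev (nat_lit 20361948460101647779932261122048) (nat_lit 1)) .nil))) .nil)))) .nil)))),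
 (.br (nat_lit 12) (nat_lit 1) (.cons (.rf (nat_lit 5243) (nat_lit 493858305440582043680)) (.cons (.rf (nat_lit 5246) (nat_lit 493858305440582043680)) (.cons (.rf (nat_lit 5247) (nat_lit 493858305440582043680)) (.cons (.br (nat_lit 12) (nat_lit 1) (.cons (.rf (nat_lit 5243) (nat_lit 493858305440582043680)) (.cons (.rf (nat_lit 5246) (nat_lit 493858305440582043680)) (.cons (.rf (nat_lit 5247) (nat_lit 493858305440582043680)) .nil)))) .nil))))),
 (.br (nat_lit 12) (nat_lit 1) (.cons (.rf (nat_lit 5243) (nat_lit 493858305440582043680)) (.cons (.rf (nat_lit 5246) (nat_lit 493858305440582043680)) (.cons (.rf (nat_lit 5248) (nat_lit 493858305440582043680)) (.cons (.br (nat_lit 12) (nat_lit 1) (.cons (.rf (nat_lit 5243) (nat_lit 493858305440582043680)) (.cons (.rf (nat_lit 5246) (nat_lit 493858305440582043680)) (.cons (.rf (nat_lit 5248) (nat_lit 493858305440582043680)) .nil)))) .nil))))),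
 (.br (nat_lit 12) (nat_lit 1) (.cons (.rf (nat_lit 5243) (nat_lit 493858305440582043680)) (.cons (.rf (nat_lit 5246) (nat_lit 493858305440582043680)) (.cons (.rf (nat_lit 5248) (nat_lit 493858305440582043680)) (.cons (.rf (nat_lit 5249) (nat_lit 493858305440582043680)) (.cons (.br (nat_lit 12) (nat_lit 1) (.cons (.rf (nat_lit 5243) (nat_lit 493858305440582043680)) (.cons (.rf (nat_lit 5246) (nat_lit 493858305440582043680)) (.cons (.rf (nat_lit 5248) (nat_lit 493858305440582043680)) (.cons (.rf (nat_lit 5249) (nat_lit 493858305440582043680)) .nil))))) .nil)))))),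
 (.br (nat_lit 8) (nat_lit 1) (.cons (.rf (nat_lit 84) (nat_lit 14336370722)) (.cons (.br (nat_lit 10) (nat_lit 1) (.cons (.ev (nat_lit 1208925891954797717815553) (nat_lit 1)) (.cons (.br (nat_lit 11) (nat_lit 1) (.cons (.zr (nat_lit 6044647905105189772787715) (nat_lit 1237949484018629696813006848) (nat_lit 10) (nat_lit 0)) (.cons (.br (nat_lit 12) (nat_lit 1) (.cons (.ev (nat_lit 20998880727999181157123628928776) (nat_lit 4)) .nil)) .nil))) (.cons (.br (nat_lit 11) (nat_lit 1) (.cons (.zr (nat_lit 618974742010017436504556800) (nat_lit 6044684438315262606835716) (nat_lit 20) (nat_lit 3)) (.cons (.rf (nat_lit 84) (nat_lit 8972904513)) .nil))) .nil)))) (.cons (.br (nat_lit 10) (nat_lit 1) (.cons (.ev (nat_lit 1208925891954797717815553) (nat_lit 1)) (.cons (.br (nat_lit 11) (nat_lit 1) (.cons (.br (nat_lit 12) (nat_lit 1) (.cons (.ev (nat_lit 20680725292680895912908937037058) (nat_lit 3)) .nil)) (.cons (.rf (nat_lit 5177) (nat_lit 14373100578)) .nil))) (.cons (.rf (nat_lit 84) (nat_lit 12093270087))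 .nil)))) .nil)))),
 (.br (nat_lit 11) (nat_lit 1) (.cons (.rf (nat_lit 5251) (nat_lit 493858305440582043680)) (.cons (.ev (nat_lit 1208925891954797717815553) (nat_lit 1)) (.cons (.br (nat_lit 10) (nat_lit 1) (.cons (.br (nat_lit 8) (nat_lit 1) (.cons (.br (nat_lit 12) (nat_lit 1) (.cons (.ev (nat_lit 20363193663270143371100278555908) (nat_lit 3)) .nil)) (.cons (.ev (nat_lit 40565131124387385220438773858305) (nat_lit 2)) .nil))) (.cons (.br (nat_lit 12) (nat_lit 1) (.cons (.br (nat_lit 8) (nat_lit 1) (.cons (.ev (nat_lit 4740885284541687726081) (nat_lit 1)) .nil)) (.cons (.ev (nat_lit 20361948460101647779932261122048) (nat_lit 1)) .nil))) (.cons (.rf (nat_lit 84) (nat_lit 8972904513)) .nil)))) .nil)))),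
 (.br (nat_lit 11) (nat_lit 1) (.cons (.rf (nat_lit 5251) (nat_lit 493858305440582043680)) (.cons (.ev (nat_lit 1208925891954797717815553) (nat_lit 1)) (.cons (.rf (nat_lit 5252) (nat_lit 493858305440582043680)) (.cons (.br (nat_lit 11) (nat_lit 1) (.cons (.rf (nat_lit 5251) (nat_lit 493858305440582043680)) (.cons (.ev (nat_lit 1208925891954797717815553) (nat_lit 1)) (.cons (.rf (nat_lit 5252) (nat_lit 493858305440582043680)) .nil)))) .nil))))),
 (.br (nat_lit 7) (nat_lit 1) (.cons (.rf (nat_lit 84) (nat_lit 14336465954)) (.cons (.ev (nat_lit 1208925891954797717815553) (nat_lit 1)) (.cons (.rf (nat_lit 5253) (nat_lit 492741412732994160672)) (.cons (.br (nat_lit 8) (nat_lit 1) (.cons (.ev (nat_lit 4740885284541687726081) (nat_lit 1)) (.cons (.rf (nat_lit 84) (nat_lit 12093267018)) .nil))) .nil))))),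
 (.br (nat_lit 11) (nat_lit 1) (.cons (.rf (nat_lit 5253) (nat_lit 493858305440582043680)) (.cons (.rf (nat_lit 5254) (nat_lit 493858305440582043680)) (.cons (.br (nat_lit 12) (nat_lit 1) (.cons (.rf (nat_lit 5253) (nat_lit 492741412732994160672)) (.cons (.br (nat_lit 7) (nat_lit 1) (.cons (.rf (nat_lit 1593) (nat_lit 424171276615)) (.cons (.zr (nat_lit 237684487598133807951714123776) (nat_lit 1547429771473209317092491265) (nat_lit 5) (nat_lit 0)) (.cons (.ev (nat_lit 4740885284541687726081) (nat_lit 1)) .nil)))) (.cons (.br (nat_lit 7) (nat_lit 1) (.cons (.zr (nat_lit 4722438540463733473536) (nat_lit 1208944266360901907513345) (nat_lit 5) (nat_lit 3)) (.cons (.ev (nat_lit 1208925891954797717815553) (nat_lit 1)) (.cons (.br (nat_lit 8) (nat_lit 1) (.cons (.ev (nat_lit 4740885284541687726081) (nat_lit 1)) .nil)) .nil)))) (.cons (.br (nat_lit 7) (nat_lit 1) (.cons (.ev (nat_lit 20282719088661564108089285738753) (nat_lit 1)) (.cons (.rf (nat_lit 1593) (nat_lit 424204993863)) (.cons (.rf (nat_lit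 5253) (nat_lit 492741412732994160672)) .nil)))) .nil))))) .nil)))),
 (.br (nat_lit 11) (nat_lit 1) (.cons (.rf (nat_lit 5253) (nat_lit 493858305440582043680)) (.cons (.rf (nat_lit 5254) (nat_lit 493858305440582043680)) (.cons (.rf (nat_lit 5255) (nat_lit 493858305440582043680)) (.cons (.br (nat_lit 11) (nat_lit 1) (.cons (.rf (nat_lit 5253) (nat_lit 493858305440582043680)) (.cons (.rf (nat_lit 5254) (nat_lit 493858305440582043680)) (.cons (.rf (nat_lit 5255) (nat_lit 493858305440582043680)) .nil)))) .nil))))),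
 (.br (nat_lit 12) (nat_lit 1) (.cons (.rf (nat_lit 5253) (nat_lit 492741412732994160672)) (.cons (.rf (nat_lit 5256) (nat_lit 492741412732994160672)) (.cons (.br (nat_lit 12) (nat_lit 1) (.cons (.rf (nat_lit 5253) (nat_lit 492741412732994160672)) (.cons (.rf (nat_lit 5256) (nat_lit 492741412732994160672)) .nil))) .nil)))),
 (.br (nat_lit 12) (nat_lit 1) (.cons (.rf (nat_lit 5253) (nat_lit 492741412732994160672)) (.cons (.rf (nat_lit 5256) (nat_lit 492741412732994160672)) (.cons (.rf (nat_lit 5257) (nat_lit 493858305440582043680)) (.cons (.br (nat_lit 12) (nat_lit 1) (.cons (.rf (nat_lit 5253) (nat_lit 492741412732994160672)) (.cons (.rf (nat_lit 5256) (nat_lit 492741412732994160672)) (.cons (.rf (nat_lit 5257) (nat_lit 493858305440582043680)) .nil)))) .nil))))),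
 (.br (nat_lit 11) (nat_lit 1) (.cons (.rf (nat_lit 5253) (nat_lit 493858305440582043680)) (.cons (.rf (nat_lit 5256) (nat_lit 493858305440582043680)) (.cons (.rf (nat_lit 5258) (nat_lit 493858305440582043680)) (.cons (.br (nat_lit 11) (nat_lit 1) (.cons (.rf (nat_lit 5253) (nat_lit 493858305440582043680)) (.cons (.rf (nat_lit 5256) (nat_lit 493858305440582043680)) (.cons (.rf (nat_lit 5258) (nat_lit 493858305440582043680)) .nil)))) .nil))))),
 (.br (nat_lit 2) (nat_lit 1) (.cons (.rf (nat_lit 5235) (nat_lit 493858305234423613664)) (.cons (.br (nat_lit 7) (nat_lit 1) (.cons (.kr (nat_lit 1) (nat_lit 18446744073709551616) (nat_lit 0) (nat_lit 1)) (.cons (.rf (nat_lit 29) (nat_lit 8455495)) (.cons (.rf (nat_lit 5237) (nat_lit 493858305440582043680)) (.cons (.rf (nat_lit 5237) (nat_lit 492741412732994160672)) (.cons (.br (nat_lit 13) (nat_lit 1) (.cons (.rf (nat_lit 4982) (nat_lit 449202881770)) (.cons (.rf (nat_lit 1343) (nat_lit 388059375841)) (.cons (.rf (nat_lit 5239) (nat_lit 493858305440582043680))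 (.cons (.rf (nat_lit 5239) (nat_lit 492741412732994160672)) .nil))))) .nil)))))) (.cons (.br (nat_lit 8) (nat_lit 1) (.cons (.rf (nat_lit 29) (nat_lit 8619330)) (.cons (.rf (nat_lit 5240) (nat_lit 493858305440582043680)) (.cons (.rf (nat_lit 5240) (nat_lit 492741412732994160672)) (.cons (.br (nat_lit 8) (nat_lit 1) (.cons (.rf (nat_lit 29) (nat_lit 8619330)) (.cons (.rf (nat_lit 5240) (nat_lit 493858305440582043680)) (.cons (.rf (nat_lit 5240) (nat_lit 492741412732994160672)) .nil)))) .nil))))) (.cons (.rf (nat_lit 5250) (nat_lit 493858305440582043680)) (.cons (.rf (nat_lit 5250) (nat_lit 492741412732994160672)) (.cons (.br (nat_lit 11) (nat_lit 1) (.cons (.rf (nat_lit 5253) (nat_lit 493858305440582043680)) (.cons (.rf (nat_lit 5256) (nat_lit 493858305440582043680)) (.cons (.rf (nat_lit 5258) (nat_lit 493858305440582043680)) (.cons (.rf (nat_lit 5259) (nat_lit 493858305440582043680)) (.cons (.br (nat_lit 11) (nat_lit 1) (.cons (.rf (nat_lit 5253) (nat_lit 493858305440582043680)) (.cons (.rf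 (nat_lit 5256) (nat_lit 493858305440582043680)) (.cons (.rf (nat_lit 5258) (nat_lit 493858305440582043680)) (.cons (.rf (nat_lit 5259) (nat_lit 493858305440582043680)) .nil))))) .nil)))))) .nil))))))),
 (.br (nat_lit 8) (nat_lit 1) (.cons (.br (nat_lit 12) (nat_lit 1) (.cons (.kr (nat_lit 20282719088661491769015976132864) (nat_lit 79229371458602753890466136064) (nat_lit 1) (nat_lit 0)) .nil)) .nil))]

theorem c183 : chkAll C T R L183 (nat_lit 5237) = true := by decide +kernel

theorem l183 : (nat_lit 5237) + L183.length = (nat_lit 5262) := by decide +kernel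

/-- part of the certificates -/
def L184 : List Prf := [(.br (nat_lit 11) (nat_lit 1) (.cons (.rf (nat_lit 29) (nat_lit 11766081)) (.cons (.ev (nat_lit 309489732187829037898400001) (nat_lit 1)) (.cons (.br (nat_lit 2) (nat_lit 1) (.cons (.rf (nat_lit 31) (nat_lit 377719105)) (.cons (.br (nat_lit 8) (nat_lit 1) (.cons (.rf (nat_lit 5261) (nat_lit 493858305440582043680)) (.cons (.br (nat_lit 8) (nat_lit 1) (.cons (.rf (nat_lit 5261) (nat_lit 493858305440582043680)) .nil)) .nil))) (.cons (.rf (nat_lit 31) (nat_lit 447814977)) .nil)))) .nil)))),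
 (.br (nat_lit 8) (nat_lit 1) (.cons (.br (nat_lit 12) (nat_lit 1) (.cons (.kr (nat_lit 20282719088661491769015976132864) (nat_lit 79229371458602753890466136064) (nat_lit 1) (nat_lit 0)) .nil)) .nil)),
 (.br (nat_lit 11) (nat_lit 1) (.cons (.rf (nat_lit 29) (nat_lit 11766081)) (.cons (.ev (nat_lit 309489732187829037898400001) (nat_lit 1)) (.cons (.br (nat_lit 2) (nat_lit 1) (.cons (.br (nat_lit 8) (nat_lit 1) (.cons (.rf (nat_lit 5263) (nat_lit 493858305440582043680)) (.cons (.br (nat_lit 8) (nat_lit 1) (.cons (.rf (nat_lit 5263) (nat_lit 493858305440582043680)) .nil)) .nil))) (.cons (.zr (nat_lit 9444805868857786957824) (nat_lit 928455029464035219059245568) (nat_lit 5) (nat_lit 6)) (.cons (.rf (nat_lit 31) (nat_lit 447814977)) .nil)))) .nil)))),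
 (.br (nat_lit 11) (nat_lit 1) (.cons (.rf (nat_lit 29) (nat_lit 11766081)) (.cons (.rf (nat_lit 5262) (nat_lit 493858305440582043680)) (.cons (.rf (nat_lit 5264) (nat_lit 493858305440582043680)) (.cons (.br (nat_lit 11) (nat_lit 1) (.cons (.ev (nat_lit 310693935713298771209093376) (nat_lit 1)) (.cons (.rf (nat_lit 5262) (nat_lit 493858305440582043680)) (.cons (.rf (nat_lit 5264) (nat_lit 493858305440582043680)) .nil)))) .nil))))),
 (.br (nat_lit 11) (nat_lit 1) (.cons (.zr (nat_lit 932081807139051875812245504) (nat_lit 4759260253595864399873) (nat_lit 5) (nat_lit 9)) (.cons (.rf (nat_lit 31) (nat_lit 447973697)) .nil))),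
 (.br (nat_lit 8) (nat_lit 1) (.cons (.rf (nat_lit 31) (nat_lit 444827969)) (.cons (.br (nat_lit 2) (nat_lit 1) (.cons (.rf (nat_lit 5266) (nat_lit 493858305440582043680)) (.cons (.rf (nat_lit 5266) (nat_lit 492741412732994160672)) (.cons (.kr (nat_lit 281474976710657) (nat_lit 20282409603651670423947251286272) (nat_lit 0) (nat_lit 2)) .nil)))) .nil))),
 (.br (nat_lit 8) (nat_lit 1) (.cons (.rf (nat_lit 31) (nat_lit 444827969)) (.cons (.rf (nat_lit 5267) (nat_lit 493858305440582043680)) (.cons (.rf (nat_lit 5267) (nat_lit 492741412732994160672)) .nil)))),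
 (.br (nat_lit 13) (nat_lit 1) (.cons (.rf (nat_lit 29) (nat_lit 13863233)) (.cons (.rf (nat_lit 5268) (nat_lit 493858305440582043680)) (.cons (.rf (nat_lit 1593) (nat_lit 424372767041)) .nil)))),
 (.br (nat_lit 7) (nat_lit 1) (.cons (.rf (nat_lit 5235) (nat_lit 493858305234423613664)) (.cons (.rf (nat_lit 5260) (nat_lit 493858305234423613664)) (.cons (.rf (nat_lit 5265) (nat_lit 493858305440582043680)) (.cons (.rf (nat_lit 5265) (nat_lit 492741412732994160672)) (.cons (.br (nat_lit 13) (nat_lit 1) (.cons (.rf (nat_lit 29) (nat_lit 13863233)) (.cons (.rf (nat_lit 5268) (nat_lit 493858305440582043680)) (.cons (.rf (nat_lit 5269) (nat_lit 493858305440582043680)) (.cons (.rf (nat_lit 5269) (nat_lit 492741412732994160672)) .nil))))) .nil)))))),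
 (.br (nat_lit 12) (nat_lit 1) (.cons (.rf (nat_lit 82) (nat_lit 8971855937)) (.cons (.rf (nat_lit 2594) (nat_lit 12082096353)) (.cons (.br (nat_lit 10) (nat_lit 1) (.cons (.br (nat_lit 8) (nat_lit 1) (.cons (.rf (nat_lit 84) (nat_lit 13165206562)) (.cons (.br (nat_lit 11) (nat_lit 1) (.cons (.ev (nat_lit 158768242112573608490845602305) (nat_lit 2)) .nil)) .nil))) (.cons (.rf (nat_lit 58) (nat_lit 11869218)) (.cons (.br (nat_lit 13) (nat_lit 1) (.cons (.zr (nat_lit 20282410812577562659120417669379) (nat_lit 316912659501790318321112973312) (nat_lit 10) (nat_lit 0)) (.cons (.rf (nat_lit 84) (nat_lit 13332978722)) .nil))) .nil)))) .nil)))),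
 (.br (nat_lit 8) (nat_lit 1) (.cons (.br (nat_lit 12) (nat_lit 1) (.cons (.ev (nat_lit 79229376180897461740578603008) (nat_lit 1)) .nil)) .nil)),
 (.br (nat_lit 10) (nat_lit 1) (.cons (.zr (nat_lit 9444733811263749029888) (nat_lit 158765810038350020268697583872) (nat_lit 5) (nat_lit 6)) .nil)),
 (.br (nat_lit 13) (nat_lit 1) (.cons (.rf (nat_lit 2759) (nat_lit 455882862667026761760)) (.cons (.br (nat_lit 8) (nat_lit 1) (.cons (.br (nat_lit 11) (nat_lit 1) (.cons (.ev (nat_lit 21316405113373680642350450674432) (nat_lit 4)) .nil)) (.cons (.rf (nat_lit 5273) (nat_lit 493858305440582043680)) (.cons (.rf (nat_lit 5273) (nat_lit 492741412526835730656)) .nil)))) .nil))),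
 (.br (nat_lit 13) (nat_lit 1) (.cons (.rf (nat_lit 2759) (nat_lit 455882862667026761760)) (.cons (.rf (nat_lit 5274) (nat_lit 493858305440582043680)) (.cons (.rf (nat_lit 5274) (nat_lit 492741412526835730656)) .nil)))),
 (.br (nat_lit 8) (nat_lit 1) (.cons (.br (nat_lit 13) (nat_lit 1) (.cons (.zr (nat_lit 7253573436489442795717891) (nat_lit 1237949484018911171789717504) (nat_lit 10) (nat_lit 0)) (.cons (.zr (nat_lit 7253573724719818947428611) (nat_lit 316912659501790881271066394624) (nat_lit 10) (nat_lit 0)) .nil))) (.cons (.rf (nat_lit 2759) (nat_lit 455882862667026761760)) .nil))),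
 (.br (nat_lit 8) (nat_lit 1) (.cons (.rf (nat_lit 5276) (nat_lit 493858305440582043680)) (.cons (.rf (nat_lit 5276) (nat_lit 492741412526835730656)) (.cons (.rf (nat_lit 2759) (nat_lit 455882862667026761760)) .nil)))),
 (.br (nat_lit 13) (nat_lit 1) (.cons (.rf (nat_lit 5275) (nat_lit 493858305440582043680)) (.cons (.rf (nat_lit 5277) (nat_lit 493858305440582043680)) (.cons (.br (nat_lit 13) (nat_lit 1) (.cons (.rf (nat_lit 5275) (nat_lit 493858305440582043680)) (.cons (.rf (nat_lit 5277) (nat_lit 493858305440582043680)) .nil))) .nil)))),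
 (.br (nat_lit 13) (nat_lit 1) (.cons (.rf (nat_lit 5275) (nat_lit 493858305440582043680)) (.cons (.rf (nat_lit 5277) (nat_lit 493858305440582043680)) (.cons (.rf (nat_lit 5278) (nat_lit 493858305440582043680)) (.cons (.rf (nat_lit 5278) (nat_lit 492741412526835730656)) .nil))))),
 (.br (nat_lit 2) (nat_lit 1) (.cons (.rf (nat_lit 84) (nat_lit 13262432327)) (.cons (.rf (nat_lit 84) (nat_lit 13165201447)) (.cons (.br (nat_lit 8) (nat_lit 1) (.cons (.ev (nat_lit 79228167255149623230465048576) (nat_lit 1)) (.cons (.br (nat_lit 12) (nat_lit 1) (.cons (.zr (nat_lit 6073018997490555063634436) (nat_lit 558310957717707349551208202240) (nat_lit 30) (nat_lit 0)) (.cons (.ev (nat_lit 79228162532711081671548535041) (nat_lit 1)) .nil))) .nil))) (.cons (.br (nat_lit 8) (nat_lit 1) (.cons (.br (nat_lit 11) (nat_lit 1) (.cons (.ev (nat_lit 79538856449905579865948618753) (nat_lit 1)) (.cons (.br (nat_lit 12) (nat_lit 1) (.cons (.ev (nat_lit 20286131952381842499549648585740) (nat_lit 4)) .nil)) .nil))) (.cons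 (.br (nat_lit 13) (nat_lit 1) (.cons (.rf (nat_lit 5177) (nat_lit 14373094722)) (.cons (.ev (nat_lit 20282409608392483932369877794816) (nat_lit 1)) .nil))) .nil))) .nil))))),
 (.br (nat_lit 8) (nat_lit 1) (.cons (.rf (nat_lit 5279) (nat_lit 493858305440582043680)) (.cons (.rf (nat_lit 5280) (nat_lit 493858305440582043680)) (.cons (.rf (nat_lit 5280) (nat_lit 492741412526835730656)) (.cons (.br (nat_lit 8) (nat_lit 1) (.cons (.rf (nat_lit 5279) (nat_lit 493858305440582043680)) (.cons (.rf (nat_lit 5280) (nat_lit 493858305440582043680)) (.cons (.rf (nat_lit 5280) (nat_lit 492741412526835730656)) .nil)))) .nil))))),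
 (.br (nat_lit 8) (nat_lit 1) (.cons (.rf (nat_lit 5279) (nat_lit 493858305440582043680)) (.cons (.rf (nat_lit 5281) (nat_lit 493858305440582043680)) (.cons (.br (nat_lit 10) (nat_lit 1) (.cons (.br (nat_lit 13) (nat_lit 1) (.cons (.zr (nat_lit 932081807139051875812245504) (nat_lit 4759260253595864399873) (nat_lit 5) (nat_lit 9)) (.cons (.zr (nat_lit 237688114320251856668155970304) (nat_lit 4759260253595864399873) (nat_lit 5) (nat_lit 9)) .nil))) (.cons (.ev (nat_lit 309489732259886631936327681) (nat_lit 1)) (.cons (.ev (nat_lit 79228167236630821562717569281) (nat_lit 1)) (.cons (.br (nat_lit 2) (nat_lit 1) (.cons (.zr (nat_lit 932081807139051875812245504) (nat_lit 4759260253595864399873) (nat_lit 5) (nat_lit 9)) (.cons (.zr (nat_lit 237688114320251856668155970304) (nat_lit 4759260253595864399873) (nat_lit 5) (nat_lit 9)) (.cons (.ev (nat_lit 20282409608392483932369877794816) (nat_lit 1)) .nil)))) .nil))))) .nil)))),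
 (.br (nat_lit 8) (nat_lit 1) (.cons (.rf (nat_lit 5279) (nat_lit 493858305440582043680)) (.cons (.rf (nat_lit 5281) (nat_lit 493858305440582043680)) (.cons (.rf (nat_lit 5282) (nat_lit 493858305440582043680)) (.cons (.br (nat_lit 8) (nat_lit 1) (.cons (.rf (nat_lit 5279) (nat_lit 493858305440582043680)) (.cons (.rf (nat_lit 5281) (nat_lit 493858305440582043680)) (.cons (.rf (nat_lit 5282) (nat_lit 493858305440582043680)) .nil)))) .nil))))),
 (.br (nat_lit 8) (nat_lit 1) (.cons (.rf (nat_lit 84) (nat_lit 14336174151)) (.cons (.br (nat_lit 10) (nat_lit 1) (.cons (.ev (nat_lit 1208925891954797717815553) (nat_lit 1)) (.cons (.br (nat_lit 11) (nat_lit 1) (.cons (.rf (nat_lit 5177) (nat_lit 13332907082)) (.cons (.zr (nat_lit 14185548447781044420608) (nat_lit 1242775742852069197814431746) (nat_lit 10) (nat_lit 6)) .nil))) (.cons (.br (nat_lit 11) (nat_lit 1) (.cons (.zr (nat_lit 14185548447781044420608) (nat_lit 1242775742852069197814431746) (nat_lit 10) (nat_lit 6)) (.cons (.rf (nat_lit 84) (nat_lit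 8972708066)) .nil))) .nil)))) (.cons (.br (nat_lit 10) (nat_lit 1) (.cons (.ev (nat_lit 1208944266641277389438976) (nat_lit 1)) (.cons (.br (nat_lit 11) (nat_lit 1) (.cons (.zr (nat_lit 7253573436489442795717891) (nat_lit 1237949484018911171789717504) (nat_lit 10) (nat_lit 0)) (.cons (.rf (nat_lit 5177) (nat_lit 14373094471)) .nil))) (.cons (.rf (nat_lit 84) (nat_lit 12093303009)) .nil)))) .nil)))),
 (.br (nat_lit 11) (nat_lit 1) (.cons (.rf (nat_lit 5284) (nat_lit 493858305440582043680)) (.cons (.ev (nat_lit 1208925891954797717815553) (nat_lit 1)) (.cons (.br (nat_lit 10) (nat_lit 1) (.cons (.br (nat_lit 8) (nat_lit 1) (.cons (.ev (nat_lit 313111842621268913777804034) (nat_lit 2)) (.cons (.rf (nat_lit 84) (nat_lit 12255995969)) .nil))) (.cons (.br (nat_lit 12) (nat_lit 1) (.cons (.br (nat_lit 8) (nat_lit 1) (.cons (.ev (nat_lit 1208944266641277389438976) (nat_lit 1)) .nil)) (.cons (.ev (nat_lit 20361947255898122870958436974593) (nat_lit 1)) .nil))) (.cons (.rf (nat_lit 84) (nat_lit 8972708066))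 .nil)))) .nil)))),
 (.br (nat_lit 11) (nat_lit 1) (.cons (.rf (nat_lit 5284) (nat_lit 493858305440582043680)) (.cons (.ev (nat_lit 1208925891954797717815553) (nat_lit 1)) (.cons (.rf (nat_lit 5285) (nat_lit 493858305440582043680)) (.cons (.br (nat_lit 11) (nat_lit 1) (.cons (.rf (nat_lit 5284) (nat_lit 493858305440582043680)) (.cons (.ev (nat_lit 1208925891954797717815553) (nat_lit 1)) (.cons (.rf (nat_lit 5285) (nat_lit 493858305440582043680)) .nil)))) .nil))))),
 (.br (nat_lit 8) (nat_lit 1) (.cons (.br (nat_lit 11) (nat_lit 1) (.cons (.ev (nat_lit 79537652246452165536208978176) (nat_lit 1)) (.cons (.br (nat_lit 12) (nat_lit 1) (.cons (.ev (nat_lit 20996409683549961150137923208452) (nat_lit 4)) .nil)) .nil))) (.cons (.br (nat_lit 13) (nat_lit 1) (.cons (.rf (nat_lit 5177) (nat_lit 14373094727)) (.cons (.ev (nat_lit 20282410812595936783749664014593) (nat_lit 1)) .nil))) .nil))),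
 (.br (nat_lit 8) (nat_lit 1) (.cons (.rf (nat_lit 5287) (nat_lit 493858305440582043680)) (.cons (.br (nat_lit 13) (nat_lit 1) (.cons (.ev (nat_lit 20282410812595936783749664014593) (nat_lit 1)) (.cons (.rf (nat_lit 5177) (nat_lit 14340589895)) .nil))) .nil))),
 (.br (nat_lit 8) (nat_lit 1) (.cons (.br (nat_lit 11) (nat_lit 1) (.cons (.ev (nat_lit 20837943668262011495472169287940) (nat_lit 3)) .nil)) .nil)),
 (.br (nat_lit 2) (nat_lit 1) (.cons (.rf (nat_lit 5286) (nat_lit 493858305440582043680)) (.cons (.ev (nat_lit 1208925891954797717815553) (nat_lit 1)) (.cons (.br (nat_lit 8) (nat_lit 1) (.cons (.rf (nat_lit 5287) (nat_lit 493858305440582043680)) (.cons (.rf (nat_lit 5288) (nat_lit 493858305440582043680)) (.cons (.br (nat_lit 8) (nat_lit 1) (.cons (.rf (nat_lit 5287) (nat_lit 493858305440582043680)) (.cons (.rf (nat_lit 5288) (nat_lit 493858305440582043680)) .nil))) .nil)))) (.cons (.br (nat_lit 13) (nat_lit 1) (.cons (.rf (nat_lit 84) (nat_lit 12093561921)) (.cons (.rf (nat_lit 84) (nat_lit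 8972704842)) (.cons (.br (nat_lit 8) (nat_lit 1) (.cons (.rf (nat_lit 5289) (nat_lit 493858305440582043680)) (.cons (.br (nat_lit 8) (nat_lit 1) (.cons (.rf (nat_lit 5289) (nat_lit 493858305440582043680)) .nil)) .nil))) .nil)))) .nil))))),
 (.br (nat_lit 8) (nat_lit 1) (.cons (.rf (nat_lit 5286) (nat_lit 493858305440582043680)) (.cons (.rf (nat_lit 5290) (nat_lit 493858305440582043680)) (.cons (.br (nat_lit 13) (nat_lit 1) (.cons (.br (nat_lit 10) (nat_lit 1) (.cons (.ev (nat_lit 40565129910720681164601903022595) (nat_lit 2)) (.cons (.br (nat_lit 11) (nat_lit 1) (.cons (.ev (nat_lit 20680725292680751797720861181698) (nat_lit 3)) .nil)) .nil))) (.cons (.ev (nat_lit 20282410817318375323118113652736) (nat_lit 1)) (.cons (.ev (nat_lit 20282719093402305278533835948033) (nat_lit 1)) (.cons (.br (nat_lit 2) (nat_lit 1) (.cons (.br (nat_lit 11) (nat_lit 1) (.cons (.zr (nat_lit 932081807139051875812245504) (nat_lit 4759260253595864399873) (nat_lit 5) (nat_lit 9)) .nil)) (.cons (.br (nat_lit 10) (nat_lit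 1) (.cons (.zr (nat_lit 932081807139051875812245504) (nat_lit 4759260253595864399873) (nat_lit 5) (nat_lit 9)) .nil)) (.cons (.ev (nat_lit 20361637775666152357268090323715) (nat_lit 2)) .nil)))) .nil))))) .nil)))),
 (.br (nat_lit 8) (nat_lit 1) (.cons (.rf (nat_lit 5286) (nat_lit 493858305440582043680)) (.cons (.rf (nat_lit 5290) (nat_lit 493858305440582043680)) (.cons (.rf (nat_lit 5291) (nat_lit 493858305440582043680)) (.cons (.br (nat_lit 8) (nat_lit 1) (.cons (.rf (nat_lit 5286) (nat_lit 493858305440582043680)) (.cons (.rf (nat_lit 5290) (nat_lit 493858305440582043680)) (.cons (.rf (nat_lit 5291) (nat_lit 493858305440582043680)) .nil)))) .nil))))),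
 (.br (nat_lit 8) (nat_lit 1) (.cons (.rf (nat_lit 5286) (nat_lit 493858305440582043680)) (.cons (.rf (nat_lit 5290) (nat_lit 493858305440582043680)) (.cons (.rf (nat_lit 5292) (nat_lit 493858305440582043680)) (.cons (.br (nat_lit 8) (nat_lit 1) (.cons (.rf (nat_lit 5286) (nat_lit 493858305440582043680)) (.cons (.rf (nat_lit 5290) (nat_lit 493858305440582043680)) (.cons (.rf (nat_lit 5292) (nat_lit 493858305440582043680)) .nil)))) .nil)))))]

theorem c184 : chkAll C T R L184 (nat_lit 5262) = true := by decide +kernel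

theorem l184 : (nat_lit 5262) + L184.length = (nat_lit 5294) := by decide +kernel

/-- part of the certificates -/
def L185 : List Prf := [(.br (nat_lit 7) (nat_lit 1) (.cons (.rf (nat_lit 5235) (nat_lit 493858305234423613664)) (.cons (.rf (nat_lit 5260) (nat_lit 493858305234423613664)) (.cons (.rf (nat_lit 5270) (nat_lit 493858305234423613664)) (.cons (.br (nat_lit 2) (nat_lit 1) (.cons (.br (nat_lit 10) (nat_lit 1) (.cons (.rf (nat_lit 1343) (nat_lit 422360390690)) (.cons (.rf (nat_lit 58) (nat_lit 11869218)) (.cons (.br (nat_lit 11) (nat_lit 1) (.cons (.rf (nat_lit 84) (nat_lit 13164944426)) (.cons (.rf (nat_lit 84) (nat_lit 9004456994)) (.cons (.br (nat_lit 8) (nat_lit 1) (.cons (.br (nat_lit 8) (nat_lit 1) (.cons (.ev (nat_lit 1208944266641277389438976) (nat_lit 1)) .nil)) (.cons (.br (nat_lit 8) (nat_lit 1) (.cons (.ev (nat_lit 1208944266641277389438976) (nat_lit 1)) .nil)) .nil))) .nil)))) (.cons (.ev (nat_lit 1208925891954797717815553) (nat_lit 1)) .nil))))) (.cons (.rf (nat_lit 29)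 (nat_lit 11765058)) (.cons (.rf (nat_lit 58) (nat_lit 11765802)) (.cons (.br (nat_lit 12) (nat_lit 1) (.cons (.rf (nat_lit 5271) (nat_lit 493858305440582043680)) (.cons (.rf (nat_lit 1343) (nat_lit 275288270913)) (.cons (.rf (nat_lit 1339) (nat_lit 426622818369)) (.cons (.br (nat_lit 12) (nat_lit 1) (.cons (.rf (nat_lit 5271) (nat_lit 493858305440582043680)) (.cons (.ev (nat_lit 79229371440084233701990334464) (nat_lit 1)) (.cons (.rf (nat_lit 2594) (nat_lit 12249868513)) .nil)))) .nil))))) (.cons (.br (nat_lit 10) (nat_lit 1) (.cons (.ev (nat_lit 1208925891954797717815553) (nat_lit 1)) (.cons (.rf (nat_lit 58) (nat_lit 11869218)) (.cons (.br (nat_lit 11) (nat_lit 1) (.cons (.br (nat_lit 8) (nat_lit 1) (.cons (.rf (nat_lit 5272) (nat_lit 493858305440582043680)) (.cons (.br (nat_lit 12) (nat_lit 1) (.cons (.rf (nat_lit 5272) (nat_lit 493858305440582043680)) (.cons (.ev (nat_lit 20282719093383930592054164324608) (nat_lit 1)) .nil))) .nil))) (.cons (.rf (nat_lit 84) (nat_lit 14373166114)) (.cons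 (.rf (nat_lit 84) (nat_lit 13332716586)) .nil)))) (.cons (.rf (nat_lit 1343) (nat_lit 275321825345)) .nil))))) .nil)))))) (.cons (.br (nat_lit 8) (nat_lit 1) (.cons (.rf (nat_lit 5279) (nat_lit 493858305440582043680)) (.cons (.rf (nat_lit 5281) (nat_lit 493858305440582043680)) (.cons (.rf (nat_lit 5283) (nat_lit 493858305440582043680)) (.cons (.rf (nat_lit 5283) (nat_lit 492741412526835730656)) (.cons (.br (nat_lit 8) (nat_lit 1) (.cons (.rf (nat_lit 5279) (nat_lit 493858305440582043680)) (.cons (.rf (nat_lit 5281) (nat_lit 493858305440582043680)) (.cons (.rf (nat_lit 5283) (nat_lit 493858305440582043680)) (.cons (.rf (nat_lit 5283) (nat_lit 492741412526835730656)) .nil))))) .nil)))))) (.cons (.br (nat_lit 8) (nat_lit 1) (.cons (.rf (nat_lit 5286) (nat_lit 493858305440582043680)) (.cons (.rf (nat_lit 5290) (nat_lit 493858305440582043680)) (.cons (.rf (nat_lit 5292) (nat_lit 493858305440582043680)) (.cons (.rf (nat_lit 5293) (nat_lit 493858305440582043680)) (.cons (.br (nat_lit 8) (nat_lit 1)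 (.cons (.rf (nat_lit 5286) (nat_lit 493858305440582043680)) (.cons (.rf (nat_lit 5290) (nat_lit 493858305440582043680)) (.cons (.rf (nat_lit 5292) (nat_lit 493858305440582043680)) (.cons (.rf (nat_lit 5293) (nat_lit 493858305440582043680)) .nil))))) .nil)))))) .nil))))))),
 (.br (nat_lit 13) (nat_lit 1) (.cons (.ev (nat_lit 40564821629932687358505049456640) (nat_lit 2)) (.cons (.ev (nat_lit 40564821629895937985545706209794) (nat_lit 2)) .nil))),
 (.br (nat_lit 8) (nat_lit 1) (.cons (.rf (nat_lit 82) (nat_lit 12255995969)) (.cons (.br (nat_lit 10) (nat_lit 1) (.cons (.rf (nat_lit 5295) (nat_lit 493858305440582043680)) (.cons (.rf (nat_lit 5295) (nat_lit 492741412732994160672)) (.cons (.ev (nat_lit 1208925891954797717815553) (nat_lit 1)) .nil)))) (.cons (.rf (nat_lit 2594) (nat_lit 14330112225)) .nil)))),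
 (.br (nat_lit 11) (nat_lit 1) (.cons (.rf (nat_lit 82) (nat_lit 9037916225)) (.cons (.br (nat_lit 13) (nat_lit 1) (.cons (.ev (nat_lit 20282719093383930592054164324608) (nat_lit 1)) (.cons (.ev (nat_lit 20282409603651742764115794329856) (nat_lit 1)) (.cons (.ev (nat_lit 20282719088661492050495247810561) (nat_lit 1)) .nil)))) (.cons (.rf (nat_lit 2594) (nat_lit 14229547233)) .nil)))),
 (.br (nat_lit 11) (nat_lit 1) (.cons (.rf (nat_lit 5297) (nat_lit 493858305440582043680)) (.cons (.rf (nat_lit 1343) (nat_lit 275324967970)) (.cons (.br (nat_lit 11) (nat_lit 1) (.cons (.rf (nat_lit 5297) (nat_lit 493858305440582043680)) (.cons (.kr (nat_lit 4722366482869645213696) (nat_lit 309485009821345068724781056) (nat_lit 9) (nat_lit 0)) (.cons (.rf (nat_lit 2594) (nat_lit 14363764961)) .nil)))) (.cons (.rf (nat_lit 4982) (nat_lit 385742177354)) .nil))))),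
 (.br (nat_lit 6) (nat_lit 1) (.cons (.rf (nat_lit 5225) (nat_lit 14242959524133701664)) (.cons (.br (nat_lit 4) (nat_lit 1) (.cons (.rf (nat_lit 5225) (nat_lit 14242959521988315168)) (.cons (.br (nat_lit 3) (nat_lit 1) (.cons (.br (nat_lit 7) (nat_lit 0) (.cons (.br (nat_lit 1) (nat_lit 1) (.cons (.rf (nat_lit 5235) (nat_lit 493858305440582043680)) (.cons (.kr (nat_lit 256) (nat_lit 72057594037927936) (nat_lit 1) (nat_lit 0)) (.cons (.rf (nat_lit 5260) (nat_lit 493858305440582043680)) (.cons (.rf (nat_lit 5270) (nat_lit 493858305440582043680)) (.cons (.rf (nat_lit 5294) (nat_lit 493858305440582043680)) (.cons (.rf (nat_lit 5294) (nat_lit 492741412732994160672)) (.cons (.br (nat_lit 7) (nat_lit 1) (.cons (.rf (nat_lit 5235) (nat_lit 493858305234423613664)) (.cons (.rf (nat_lit 5260) (nat_lit 493858305234423613664)) (.cons (.rf (nat_lit 5270) (nat_lit 493858305234423613664)) (.cons (.rf (nat_lit 5294) (nat_lit 493858305234423613664)) (.cons (.rf (nat_lit 5294) (nat_lit 492741412526835730656))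 (.cons (.br (nat_lit 2) (nat_lit 1) (.cons (.br (nat_lit 8) (nat_lit 1) (.cons (.rf (nat_lit 1343) (nat_lit 388067761186)) (.cons (.rf (nat_lit 5296) (nat_lit 493858305440582043680)) (.cons (.rf (nat_lit 5296) (nat_lit 492741412732994160672)) (.cons (.rf (nat_lit 4982) (nat_lit 282773062730)) .nil))))) (.cons (.rf (nat_lit 29) (nat_lit 13862210)) (.cons (.rf (nat_lit 5298) (nat_lit 493858305440582043680)) (.cons (.rf (nat_lit 5298) (nat_lit 492741412732994160672)) (.cons (.rf (nat_lit 58) (nat_lit 13862954)) .nil)))))) .nil))))))) .nil)))))))) .nil)) .nil)) .nil))) .nil))),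
 (.br (nat_lit 9) (nat_lit 1) (.cons (.rf (nat_lit 5224) (nat_lit 325702574508064)) (.cons (.br (nat_lit 9) (nat_lit 1) (.cons (.rf (nat_lit 5224) (nat_lit 325702574508064)) (.cons (.br (nat_lit 6) (nat_lit 1) (.cons (.rf (nat_lit 5225) (nat_lit 14242959524133701664)) (.cons (.rf (nat_lit 5299) (nat_lit 14242959524133701664)) (.cons (.br (nat_lit 6) (nat_lit 1) (.cons (.rf (nat_lit 5225) (nat_lit 14242959524133701664)) (.cons (.rf (nat_lit 5299) (nat_lit 14242959524133701664)) .nil))) .nil)))) .nil))) .nil))),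
 (.br (nat_lit 7) (nat_lit 0) (.cons (.rf (nat_lit 4352) (nat_lit 8869281629408)) (.cons (.rf (nat_lit 4621) (nat_lit 8871427021856)) (.cons (.rf (nat_lit 4352) (nat_lit 8869214586080)) .nil)))),
 (.br (nat_lit 2) (nat_lit 0) (.cons (.rf (nat_lit 4352) (nat_lit 9043225707584)) (.cons (.rf (nat_lit 4352) (nat_lit 9040039117888)) (.cons (.rf (nat_lit 4621) (nat_lit 9043225708576)) (.cons (.br (nat_lit 9) (nat_lit 1) (.cons (.rf (nat_lit 5224) (nat_lit 325702574508064)) (.cons (.rf (nat_lit 5300) (nat_lit 11584701642934304)) (.cons (.br (nat_lit 9) (nat_lit 1) (.cons (.rf (nat_lit 5224) (nat_lit 325702574508064)) (.cons (.rf (nat_lit 5300) (nat_lit 12710601549776928)) (.cons (.br (nat_lit 9) (nat_lit 1) (.cons (.rf (nat_lit 5224) (nat_lit 325702574508064)) (.cons (.rf (nat_lit 5300) (nat_lit 13836501456619552)) (.cons (.br (nat_lit 6) (nat_lit 1) (.cons (.rf (nat_lit 5301) (nat_lit 14242959524133701664)) (.cons (.br (nat_lit 6) (nat_lit 1) (.cons (.rf (nat_lit 5301) (nat_lit 14242959524133701664))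 .nil)) .nil))) .nil)))) .nil)))) .nil)))) .nil))))),
 (.br (nat_lit 2) (nat_lit 0) (.cons (.br (nat_lit 7) (nat_lit 0) (.cons (.br (nat_lit 9) (nat_lit 0) (.cons (.br (nat_lit 12) (nat_lit 1) (.cons (.rf (nat_lit 5302) (nat_lit 14539742644524)) .nil)) .nil)) .nil)) .nil)),
 (.br (nat_lit 7) (nat_lit 0) (.cons (.rf (nat_lit 5303) (nat_lit 407901468851537952)) (.cons (.br (nat_lit 7) (nat_lit 0) (.cons (.rf (nat_lit 5303) (nat_lit 407901468851537952)) .nil)) .nil))),
 (.br (nat_lit 6) (nat_lit 1) (.cons (.rf (nat_lit 5302) (nat_lit 9041080322080)) (.cons (.rf (nat_lit 5302) (nat_lit 8869281635360)) (.cons (.br (nat_lit 2) (nat_lit 0) (.cons (.rf (nat_lit 5304) (nat_lit 407901468851537952)) (.cons (.rf (nat_lit 5304) (nat_lit 407901468784494624)) (.cons (.br (nat_lit 2) (nat_lit 0) (.cons (.rf (nat_lit 5304) (nat_lit 407901468851537952)) (.cons (.rf (nat_lit 5304) (nat_lit 407901468784494624)) .nil))) .nil)))) .nil)))),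
 (.br (nat_lit 4) (nat_lit 1) (.cons (.rf (nat_lit 5302) (nat_lit 9043225708576)) (.cons (.rf (nat_lit 5302) (nat_lit 8871427021856)) (.cons (.br (nat_lit 6) (nat_lit 1) (.cons (.rf (nat_lit 5302) (nat_lit 9041080322080)) (.cons (.rf (nat_lit 5302) (nat_lit 8869281635360)) (.cons (.rf (nat_lit 5305) (nat_lit 11584701642934304)) (.cons (.br (nat_lit 6) (nat_lit 1) (.cons (.rf (nat_lit 5302) (nat_lit 9041080322080)) (.cons (.rf (nat_lit 5302) (nat_lit 8869281635360)) (.cons (.rf (nat_lit 5305) (nat_lit 11584701642934304)) (.cons (.rf (nat_lit 4350) (nat_lit 14242959524101195808)) .nil))))) .nil))))) .nil)))),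
 (.br (nat_lit 4) (nat_lit 1) (.cons (.rf (nat_lit 5302) (nat_lit 9043225708576)) (.cons (.rf (nat_lit 5302) (nat_lit 8871427021856)) (.cons (.rf (nat_lit 5306) (nat_lit 325702574508064)) (.cons (.br (nat_lit 6) (nat_lit 1) (.cons (.rf (nat_lit 5302) (nat_lit 9041080322080)) (.cons (.rf (nat_lit 5302) (nat_lit 8869281635360)) (.cons (.rf (nat_lit 5306) (nat_lit 360884801210400)) (.cons (.br (nat_lit 4) (nat_lit 1) (.cons (.rf (nat_lit 5302) (nat_lit 9043225708576)) (.cons (.rf (nat_lit 5302) (nat_lit 8871427021856)) (.cons (.rf (nat_lit 5306) (nat_lit 396071318685728)) (.cons (.br (nat_lit 6) (nat_lit 1) (.cons (.rf (nat_lit 5302) (nat_lit 9041080322080)) (.cons (.rf (nat_lit 5302) (nat_lit 8869281635360)) (.cons (.rf (nat_lit 5306) (nat_lit 431253545388064)) .nil)))) .nil))))) .nil))))) .nil))))),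
 (.br (nat_lit 8) (nat_lit 1) (.cons (.rf (nat_lit 82) (nat_lit 11148537057)) (.cons (.rf (nat_lit 2594) (nat_lit 13228059713)) (.cons (.br (nat_lit 11) (nat_lit 1) (.cons (.br (nat_lit 10) (nat_lit 1) (.cons (.rf (nat_lit 84) (nat_lit 8938424359)) (.cons (.br (nat_lit 12) (nat_lit 1) (.cons (.ev (nat_lit 20681960852684512093211214414606) (nat_lit 4)) .nil)) .nil))) (.cons (.kr (nat_lit 1099511627776) (nat_lit 309485009821345068724781056) (nat_lit 5) (nat_lit 0)) (.cons (.ev (nat_lit 309499195440158299673199106) (nat_lit 2)) .nil)))) .nil)))),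
 (.br (nat_lit 8) (nat_lit 1) (.cons (.rf (nat_lit 5308) (nat_lit 493858305440582043680)) (.cons (.rf (nat_lit 1343) (nat_lit 353675511847)) (.cons (.rf (nat_lit 1339) (nat_lit 289218304225)) (.cons (.br (nat_lit 8) (nat_lit 1) (.cons (.rf (nat_lit 5308) (nat_lit 493858305440582043680)) (.cons (.rf (nat_lit 82) (nat_lit 14369762529)) (.cons (.rf (nat_lit 2594) (nat_lit 13328723009)) .nil)))) .nil))))),
 (.br (nat_lit 13) (nat_lit 1) (.cons (.zr (nat_lit 20282409603651670423955858063616) (nat_lit 4722438542662706397185) (nat_lit 5) (nat_lit 3)) (.cons (.rf (nat_lit 82) (nat_lit 9006296289)) (.cons (.rf (nat_lit 2594) (nat_lit 13161114689)) .nil)))),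
 (.br (nat_lit 7) (nat_lit 1) (.cons (.rf (nat_lit 5309) (nat_lit 493858305440582043680)) (.cons (.rf (nat_lit 5309) (nat_lit 493855739180442814505)) (.cons (.rf (nat_lit 29) (nat_lit 12649831)) (.cons (.rf (nat_lit 58) (nat_lit 12814379)) (.cons (.br (nat_lit 13) (nat_lit 1) (.cons (.rf (nat_lit 5310) (nat_lit 493858305440582043680)) (.cons (.rf (nat_lit 5310) (nat_lit 493855739180442814505)) (.cons (.rf (nat_lit 1343) (nat_lit 275316616417)) (.cons (.rf (nat_lit 4982) (nat_lit 449092912363)) .nil))))) .nil)))))),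
 (.br (nat_lit 11) (nat_lit 1) (.cons (.rf (nat_lit 1343) (nat_lit 353675516962)) (.cons (.rf (nat_lit 3189) (nat_lit 301753615578668073)) (.cons (.kr (nat_lit 1099511627776) (nat_lit 309485009821345068724781056) (nat_lit 5) (nat_lit 0)) (.cons (.br (nat_lit 12) (nat_lit 1) (.cons (.rf (nat_lit 84) (nat_lit 14239734827)) (.cons (.br (nat_lit 8) (nat_lit 1) (.cons (.br (nat_lit 8) (nat_lit 1) (.cons (.ev (nat_lit 4777851111766761865730) (nat_lit 2)) .nil)) (.cons (.br (nat_lit 8) (nat_lit 1) (.cons (.ev (nat_lit 4777851111766761865730) (nat_lit 2)) .nil)) .nil))) (.cons (.rf (nat_lit 84) (nat_lit 9039092770)) .nil)))) .nil))))),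
 (.br (nat_lit 2) (nat_lit 1) (.cons (.rf (nat_lit 5312) (nat_lit 493858305440582043680)) (.cons (.rf (nat_lit 5312) (nat_lit 493855739180442814505)) (.cons (.rf (nat_lit 29) (nat_lit 12813666)) (.cons (.rf (nat_lit 58) (nat_lit 12814379)) (.cons (.br (nat_lit 11) (nat_lit 1) (.cons (.rf (nat_lit 3189) (nat_lit 482214191302810656)) (.cons (.rf (nat_lit 3189) (nat_lit 481897600673487913)) (.cons (.kr (nat_lit 1099511627776) (nat_lit 309485009821345068724781056) (nat_lit 5) (nat_lit 0)) (.cons (.rf (nat_lit 1343) (nat_lit 275321859137)) .nil))))) .nil)))))),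
 (.br (nat_lit 7) (nat_lit 1) (.cons (.rf (nat_lit 2594) (nat_lit 8926932194)) (.cons (.br (nat_lit 8) (nat_lit 1) (.cons (.rf (nat_lit 5177) (nat_lit 13331864641)) (.cons (.rf (nat_lit 84) (nat_lit 11148504135)) (.cons (.br (nat_lit 10) (nat_lit 1) (.cons (.ev (nat_lit 79229376162522492690696830976) (nat_lit 1)) (.cons (.br (nat_lit 11) (nat_lit 1) (.cons (.ev (nat_lit 20366295823702066229130486288142) (nat_lit 4)) .nil)) .nil))) .nil)))) (.cons (.rf (nat_lit 31) (nat_lit 411076967)) (.cons (.br (nat_lit 8) (nat_lit 1) (.cons (.br (nat_lit 11) (nat_lit 1) (.cons (.rf (nat_lit 5177) (nat_lit 13331868737)) (.cons (.ev (nat_lit 309489787672460134021530114) (nat_lit 2)) .nil))) (.cons (.ev (nat_lit 79537652264971249774166606080) (nat_lit 1)) (.cons (.br (nat_lit 11) (nat_lit 1) (.cons (.ev (nat_lit 309499232261308477589225472) (nat_lit 2)) (.cons (.rf (nat_lit 84) (nat_lit 13167045857)) .nil))) .nil)))) .nil))))),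
 (.br (nat_lit 8) (nat_lit 1) (.cons (.ev (nat_lit 4777923454134311322114) (nat_lit 2)) (.cons (.ev (nat_lit 79228167255077565636427120896) (nat_lit 1)) (.cons (.br (nat_lit 11) (nat_lit 1) (.cons (.br (nat_lit 10) (nat_lit 1) (.cons (.ev (nat_lit 20679484925455632262768500211968) (nat_lit 3)) .nil)) (.cons (.rf (nat_lit 84) (nat_lit 13167209537)) .nil))) .nil)))),
 (.br (nat_lit 7) (nat_lit 1) (.cons (.ev (nat_lit 4777923454134311322114) (nat_lit 2)) (.cons (.ev (nat_lit 1218370625202016279986691) (nat_lit 2)) (.cons (.br (nat_lit 8) (nat_lit 1) (.cons (.br (nat_lit 10) (nat_lit 1) (.cons (.ev (nat_lit 79229376180969236764406317313) (nat_lit 1)) .nil)) .nil)) (.cons (.br (nat_lit 8) (nat_lit 1) (.cons (.br (nat_lit 10) (nat_lit 1) (.cons (.ev (nat_lit 79229376180969236764406317313) (nat_lit 1)) .nil)) (.cons (.br (nat_lit 10) (nat_lit 1) (.cons (.ev (nat_lit 79229376180969236764406317313) (nat_lit 1)) .nil)) .nil))) .nil))))),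
 (.br (nat_lit 10) (nat_lit 1) (.cons (.rf (nat_lit 5315) (nat_lit 493855739180442814505)) (.cons (.rf (nat_lit 5316) (nat_lit 493858305440582043680)) (.cons (.br (nat_lit 7) (nat_lit 1) (.cons (.ev (nat_lit 79228167255077565636427120896) (nat_lit 1)) (.cons (.rf (nat_lit 5315) (nat_lit 493855739180442814505)) (.cons (.ev (nat_lit 20282719093383858251889916313601) (nat_lit 1)) .nil)))) .nil)))),
 (.br (nat_lit 8) (nat_lit 1) (.cons (.br (nat_lit 10) (nat_lit 1) (.cons (.ev (nat_lit 79229371440156291291750138113) (nat_lit 1)) (.cons (.br (nat_lit 11) (nat_lit 1) (.cons (.zr (nat_lit 1208944267203140749623552) (nat_lit 1237949484018348213212807170) (nat_lit 10) (nat_lit 3)) .nil)) .nil))) (.cons (.rf (nat_lit 84) (nat_lit 11148504290)) (.cons (.br (nat_lit 11) (nat_lit 1) (.cons (.br (nat_lit 10) (nat_lit 1) (.cons (.ev (nat_lit 20681960852684512093211214414606) (nat_lit 4)) .nil)) (.cons (.rf (nat_lit 5177) (nat_lit 14307034347)) .nil))) .nil)))),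
 (.br (nat_lit 8) (nat_lit 1) (.cons (.rf (nat_lit 5318) (nat_lit 493858305440582043680)) (.cons (.br (nat_lit 10) (nat_lit 1) (.cons (.ev (nat_lit 79229376180897461744856793345) (nat_lit 1)) (.cons (.ev (nat_lit 620178945463149204489830401) (nat_lit 2)) .nil))) (.cons (.br (nat_lit 7) (nat_lit 1) (.cons (.br (nat_lit 11) (nat_lit 1) (.cons (.zr (nat_lit 932081806922879093698462464) (nat_lit 4759260253595864399873) (nat_lit 5) (nat_lit 9)) .nil)) (.cons (.br (nat_lit 10) (nat_lit 1) (.cons (.zr (nat_lit 932081806922879093698462464) (nat_lit 4759260253595864399873) (nat_lit 5) (nat_lit 9)) .nil)) (.cons (.zr (nat_lit 20282409603651670423955858063616) (nat_lit 4722438542662706397185) (nat_lit 5) (nat_lit 3)) .nil)))) .nil)))),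
 (.br (nat_lit 13) (nat_lit 1) (.cons (.zr (nat_lit 20282409603651670423955858063616) (nat_lit 4722438542662706397185) (nat_lit 5) (nat_lit 3)) (.cons (.ev (nat_lit 20282719088661492050490969620736) (nat_lit 1)) .nil))),
 (.br (nat_lit 8) (nat_lit 1) (.cons (.rf (nat_lit 5318) (nat_lit 493858305440582043680)) (.cons (.rf (nat_lit 5319) (nat_lit 493858305440582043680)) (.cons (.br (nat_lit 8) (nat_lit 1) (.cons (.rf (nat_lit 84) (nat_lit 11148504290)) (.cons (.rf (nat_lit 5319) (nat_lit 493858305440582043680)) (.cons (.rf (nat_lit 5320) (nat_lit 493858305440582043680)) .nil)))) (.cons (.br (nat_lit 8) (nat_lit 1) (.cons (.rf (nat_lit 5318) (nat_lit 493858305440582043680)) (.cons (.rf (nat_lit 5319) (nat_lit 493858305440582043680)) (.cons (.rf (nat_lit 5320) (nat_lit 493858305440582043680)) .nil)))) .nil)))))]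

theorem c185 : chkAll C T R L185 (nat_lit 5294) = true := by decide +kernel

theorem l185 : (nat_lit 5294) + L185.length = (nat_lit 5322) := by decide +kernel

/-- part of the certificates -/
def L186 : List Prf := [(.br (nat_lit 2) (nat_lit 1) (.cons (.rf (nat_lit 84) (nat_lit 13163900129)) (.cons (.ev (nat_lit 79538861172343838858933239808) (nat_lit 1)) .nil))),
 (.br (nat_lit 10) (nat_lit 1) (.cons (.rf (nat_lit 5321) (nat_lit 493858305440582043680)) (.cons (.rf (nat_lit 5322) (nat_lit 493858305440582043680)) (.cons (.br (nat_lit 2) (nat_lit 1) (.cons (.br (nat_lit 11) (nat_lit 1) (.cons (.zr (nat_lit 1208944267203140749623552) (nat_lit 1237949484018348213212807170) (nat_lit 10) (nat_lit 3)) .nil)) (.cons (.br (nat_lit 8) (nat_lit 1) (.cons (.zr (nat_lit 932081806922879093698462464) (nat_lit 4759260253595864399873) (nat_lit 5) (nat_lit 9)) .nil)) (.cons (.br (nat_lit 8) (nat_lit 1) (.cons (.ev (nat_lit 20680106303845287726078566400258) (nat_lit 3)) .nil)) .nil)))) .nil)))),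
 (.br (nat_lit 10) (nat_lit 1) (.cons (.rf (nat_lit 5321) (nat_lit 493858305440582043680)) (.cons (.rf (nat_lit 5323) (nat_lit 493858305440582043680)) (.cons (.br (nat_lit 10) (nat_lit 1) (.cons (.rf (nat_lit 58) (nat_lit 10853441)) (.cons (.rf (nat_lit 5322) (nat_lit 493858305440582043680)) (.cons (.ev (nat_lit 79538856449905297291460215041) (nat_lit 1)) .nil)))) (.cons (.br (nat_lit 10) (nat_lit 1) (.cons (.rf (nat_lit 5321) (nat_lit 493858305440582043680)) (.cons (.rf (nat_lit 5323) (nat_lit 493858305440582043680)) (.cons (.ev (nat_lit 79538856449905297291460215041) (nat_lit 1)) .nil)))) .nil))))),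
 (.br (nat_lit 10) (nat_lit 1) (.cons (.ev (nat_lit 79229376162450717671147175936) (nat_lit 1)) (.cons (.rf (nat_lit 5322) (nat_lit 493858305440582043680)) (.cons (.br (nat_lit 2) (nat_lit 1) (.cons (.br (nat_lit 8) (nat_lit 1) (.cons (.ev (nat_lit 20363186419123065156527611642112) (nat_lit 3)) .nil)) (.cons (.rf (nat_lit 5320) (nat_lit 493855739180442814505)) (.cons (.br (nat_lit 7) (nat_lit 1) (.cons (.ev (nat_lit 4777923454134311322114) (nat_lit 2)) .nil)) .nil)))) .nil)))),
 (.br (nat_lit 10) (nat_lit 1) (.cons (.rf (nat_lit 5321) (nat_lit 493858305440582043680)) (.cons (.rf (nat_lit 5324) (nat_lit 493858305440582043680)) (.cons (.rf (nat_lit 5325) (nat_lit 493858305440582043680)) (.cons (.br (nat_lit 10) (nat_lit 1) (.cons (.rf (nat_lit 5321) (nat_lit 493858305440582043680)) (.cons (.rf (nat_lit 5324) (nat_lit 493858305440582043680)) (.cons (.rf (nat_lit 5325) (nat_lit 493858305440582043680)) .nil)))) .nil))))),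
 (.br (nat_lit 10) (nat_lit 1) (.cons (.rf (nat_lit 5321) (nat_lit 493858305440582043680)) (.cons (.rf (nat_lit 5324) (nat_lit 493858305440582043680)) (.cons (.rf (nat_lit 5326) (nat_lit 493858305440582043680)) (.cons (.br (nat_lit 10) (nat_lit 1) (.cons (.rf (nat_lit 5321) (nat_lit 493858305440582043680)) (.cons (.ev (nat_lit 79538856449905297291460215041) (nat_lit 1)) (.cons (.rf (nat_lit 5326) (nat_lit 493858305440582043680)) .nil)))) .nil))))),
 (.br (nat_lit 12) (nat_lit 1) (.cons (.rf (nat_lit 5311) (nat_lit 493858305440582043680)) (.cons (.rf (nat_lit 5313) (nat_lit 493858305440582043680)) (.cons (.br (nat_lit 2) (nat_lit 1) (.cons (.br (nat_lit 11) (nat_lit 1) (.cons (.rf (nat_lit 31) (nat_lit 411086050)) (.cons (.rf (nat_lit 31) (nat_lit 413183202)) (.cons (.kr (nat_lit 309485009821345068724846592) (nat_lit 72339069014638592) (nat_lit 2) (nat_lit 0)) .nil)))) (.cons (.rf (nat_lit 5314) (nat_lit 493858305440582043680)) (.cons (.rf (nat_lit 5314) (nat_lit 493855739180442814505)) (.cons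 (.ev (nat_lit 79228167236630821562717634561) (nat_lit 1)) (.cons (.br (nat_lit 8) (nat_lit 1) (.cons (.rf (nat_lit 5315) (nat_lit 493858305440582043680)) (.cons (.rf (nat_lit 5316) (nat_lit 493858305440582043680)) (.cons (.rf (nat_lit 5317) (nat_lit 493858305440582043680)) (.cons (.br (nat_lit 8) (nat_lit 1) (.cons (.rf (nat_lit 5315) (nat_lit 493858305440582043680)) (.cons (.rf (nat_lit 5316) (nat_lit 493858305440582043680)) (.cons (.rf (nat_lit 5317) (nat_lit 493858305440582043680)) .nil)))) .nil))))) .nil)))))) (.cons (.kr (nat_lit 1099511627776) (nat_lit 309485009821345068724781056) (nat_lit 5) (nat_lit 0)) (.cons (.br (nat_lit 10) (nat_lit 1) (.cons (.rf (nat_lit 5321) (nat_lit 493858305440582043680)) (.cons (.rf (nat_lit 5324) (nat_lit 493858305440582043680)) (.cons (.rf (nat_lit 5326) (nat_lit 493858305440582043680)) (.cons (.rf (nat_lit 5327) (nat_lit 493858305440582043680)) (.cons (.br (nat_lit 10) (nat_lit 1) (.cons (.rf (nat_lit 5321) (nat_lit 493858305440582043680)) (.cons (.rf (nat_lit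 5324) (nat_lit 493858305440582043680)) (.cons (.rf (nat_lit 5326) (nat_lit 493858305440582043680)) (.cons (.rf (nat_lit 5327) (nat_lit 493858305440582043680)) .nil))))) .nil)))))) .nil)))))),
 (.br (nat_lit 12) (nat_lit 1) (.cons (.rf (nat_lit 5311) (nat_lit 493858305440582043680)) (.cons (.rf (nat_lit 5313) (nat_lit 493858305440582043680)) (.cons (.rf (nat_lit 5328) (nat_lit 493858305440582043680)) (.cons (.rf (nat_lit 5328) (nat_lit 493855739180442814505)) (.cons (.kr (nat_lit 1099511627776) (nat_lit 309485009821345068724781056) (nat_lit 5) (nat_lit 0)) (.cons (.br (nat_lit 12) (nat_lit 1) (.cons (.rf (nat_lit 5311) (nat_lit 493858305440582043680)) (.cons (.rf (nat_lit 5313) (nat_lit 493858305440582043680)) (.cons (.rf (nat_lit 5328) (nat_lit 493858305440582043680)) (.cons (.rf (nat_lit 5328) (nat_lit 493855739180442814505)) (.cons (.kr (nat_lit 1099511627776) (nat_lit 309485009821345068724781056) (nat_lit 5) (nat_lit 0)) .nil)))))) .nil))))))),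
 (.br (nat_lit 2) (nat_lit 1) (.cons (.rf (nat_lit 2594) (nat_lit 8933223489)) (.cons (.br (nat_lit 8) (nat_lit 1) (.cons (.rf (nat_lit 5177) (nat_lit 13331859495)) (.cons (.ev (nat_lit 79537647542604485433822871553) (nat_lit 1)) (.cons (.br (nat_lit 10) (nat_lit 1) (.cons (.ev (nat_lit 79229371458603035365459623936) (nat_lit 1)) (.cons (.br (nat_lit 11) (nat_lit 1) (.cons (.ev (nat_lit 20362582003585073653534337205006) (nat_lit 4)) .nil)) .nil))) .nil)))) (.cons (.rf (nat_lit 31) (nat_lit 411272546)) (.cons (.br (nat_lit 8) (nat_lit 1) (.cons (.br (nat_lit 11) (nat_lit 1) (.cons (.rf (nat_lit 5177) (nat_lit 13331868711)) (.cons (.ev (nat_lit 309489787672460134021464834) (nat_lit 2)) .nil))) (.cons (.ev (nat_lit 79537652264898909605640274176) (nat_lit 1)) (.cons (.br (nat_lit 11) (nat_lit 1) (.cons (.ev (nat_lit 309499232261308477589160192) (nat_lit 2)) (.cons (.rf (nat_lit 84) (nat_lit 13167012935)) .nil))) .nil)))) .nil))))),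
 (.br (nat_lit 13) (nat_lit 1) (.cons (.ev (nat_lit 20282719088661492050490969554944) (nat_lit 1)) (.cons (.ev (nat_lit 20282719093383930592058442580225) (nat_lit 1)) (.cons (.ev (nat_lit 20282409603651670706521756401664) (nat_lit 1)) .nil)))),
 (.br (nat_lit 2) (nat_lit 1) (.cons (.rf (nat_lit 2594) (nat_lit 9033886785)) (.cons (.br (nat_lit 8) (nat_lit 1) (.cons (.br (nat_lit 10) (nat_lit 1) (.cons (.rf (nat_lit 84) (nat_lit 13163867207)) (.cons (.zr (nat_lit 1223092991124130683159808) (nat_lit 73787257778438406146) (nat_lit 10) (nat_lit 9)) .nil))) (.cons (.rf (nat_lit 84) (nat_lit 11148700706)) (.cons (.br (nat_lit 10) (nat_lit 1) (.cons (.ev (nat_lit 309499232261308477589160192) (nat_lit 2)) (.cons (.ev (nat_lit 20282409603651670706521756467456) (nat_lit 1)) .nil))) .nil)))) (.cons (.rf (nat_lit 31) (nat_lit 411272546)) (.cons (.br (nat_lit 8) (nat_lit 1) (.cons (.br (nat_lit 11) (nat_lit 1) (.cons (.br (nat_lit 10) (nat_lit 1) (.cons (.ev (nat_lit 20680103895401343298473082029828) (nat_lit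 3)) .nil)) (.cons (.ev (nat_lit 309489787672460134021464834) (nat_lit 2)) .nil))) (.cons (.ev (nat_lit 79537647542604485433822871553) (nat_lit 1)) (.cons (.rf (nat_lit 5177) (nat_lit 14307040290)) .nil)))) .nil))))),
 (.br (nat_lit 2) (nat_lit 1) (.cons (.rf (nat_lit 5332) (nat_lit 493858305440582042688)) (.cons (.br (nat_lit 10) (nat_lit 1) (.cons (.br (nat_lit 8) (nat_lit 1) (.cons (.ev (nat_lit 79538856468424381533696032768) (nat_lit 1)) (.cons (.zr (nat_lit 3626777675579619591323648) (nat_lit 4759259972120887689217) (nat_lit 5) (nat_lit 9)) .nil))) (.cons (.rf (nat_lit 58) (nat_lit 10848295)) (.cons (.br (nat_lit 13) (nat_lit 1) (.cons (.ev (nat_lit 20282409608374109245890206105601) (nat_lit 1)) (.cons (.rf (nat_lit 84) (nat_lit 13331957799)) .nil))) .nil)))) (.cons (.ev (nat_lit 79228167236703159532220645633) (nat_lit 1)) (.cons (.br (nat_lit 11) (nat_lit 1) (.cons (.br (nat_lit 8) (nat_lit 1) (.cons (.br (nat_lit 10) (nat_lit 1) (.cons (.ev (nat_lit 620178945463149204489634561) (nat_lit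 2)) .nil)) (.cons (.ev (nat_lit 20520403590426724745209750487296) (nat_lit 2)) .nil))) (.cons (.br (nat_lit 10) (nat_lit 1) (.cons (.ev (nat_lit 79229376162522492690696830976) (nat_lit 1)) (.cons (.ev (nat_lit 79229371440083953322247061761) (nat_lit 1)) .nil))) (.cons (.rf (nat_lit 84) (nat_lit 11153943617)) .nil)))) .nil))))),
 (.br (nat_lit 12) (nat_lit 1) (.cons (.rf (nat_lit 5329) (nat_lit 493858305440582043680)) (.cons (.rf (nat_lit 5329) (nat_lit 493858305440582042688)) (.cons (.br (nat_lit 1) (nat_lit 1) (.cons (.kr (nat_lit 256) (nat_lit 65536) (nat_lit 1) (nat_lit 0)) (.cons (.rf (nat_lit 5330) (nat_lit 493858305440582043680)) (.cons (.rf (nat_lit 5330) (nat_lit 493855739180442814505)) (.cons (.br (nat_lit 2) (nat_lit 1) (.cons (.rf (nat_lit 31) (nat_lit 411273569)) (.cons (.rf (nat_lit 31) (nat_lit 413370721)) (.cons (.ev (nat_lit 79228167236703159532220645633) (nat_lit 1)) .nil)))) (.cons (.br (nat_lit 2) (nat_lit 1) (.cons (.rf (nat_lit 5330) (nat_lit 493858305440582042688)) (.cons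 (.rf (nat_lit 5330) (nat_lit 493855739180442813513)) (.cons (.ev (nat_lit 79228167236703159532220645633) (nat_lit 1)) (.cons (.br (nat_lit 11) (nat_lit 1) (.cons (.rf (nat_lit 5331) (nat_lit 493858305440582043680)) (.cons (.rf (nat_lit 5331) (nat_lit 493855739180442814505)) (.cons (.rf (nat_lit 58) (nat_lit 13994023)) .nil)))) .nil))))) .nil)))))) (.cons (.kr (nat_lit 1099511627776) (nat_lit 309485009821345068724781056) (nat_lit 5) (nat_lit 0)) (.cons (.br (nat_lit 1) (nat_lit 1) (.cons (.kr (nat_lit 256) (nat_lit 65536) (nat_lit 1) (nat_lit 0)) (.cons (.rf (nat_lit 5332) (nat_lit 493858305440582043680)) (.cons (.rf (nat_lit 5333) (nat_lit 493858305440582043680)) (.cons (.br (nat_lit 2) (nat_lit 1) (.cons (.rf (nat_lit 31) (nat_lit 411273569)) (.cons (.ev (nat_lit 79228167236703159532220645633) (nat_lit 1)) (.cons (.rf (nat_lit 31) (nat_lit 448863585)) .nil)))) (.cons (.br (nat_lit 2) (nat_lit 1) (.cons (.rf (nat_lit 5332) (nat_lit 493858305440582042688)) (.cons (.rf (nat_lit 5333) (nat_lit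 493858305440582042688)) (.cons (.rf (nat_lit 31) (nat_lit 448830818)) (.cons (.ev (nat_lit 20282409603651670706521756401664) (nat_lit 1)) .nil))))) .nil)))))) .nil)))))),
 (.br (nat_lit 12) (nat_lit 1) (.cons (.rf (nat_lit 5329) (nat_lit 493858305440582043680)) (.cons (.rf (nat_lit 5329) (nat_lit 493858305440582042688)) (.cons (.rf (nat_lit 5334) (nat_lit 493858305440582043680)) (.cons (.rf (nat_lit 5334) (nat_lit 493855739180442814505)) (.cons (.kr (nat_lit 1099511627776) (nat_lit 309485009821345068724781056) (nat_lit 5) (nat_lit 0)) (.cons (.br (nat_lit 12) (nat_lit 1) (.cons (.rf (nat_lit 5329) (nat_lit 493858305440582043680)) (.cons (.rf (nat_lit 5329) (nat_lit 493858305440582042688)) (.cons (.rf (nat_lit 5334) (nat_lit 493858305440582043680)) (.cons (.rf (nat_lit 5334) (nat_lit 493855739180442814505)) (.cons (.ev (nat_lit 79228162514264620172327256064) (nat_lit 1)) .nil)))))) .nil))))))),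
 (.br (nat_lit 8) (nat_lit 1) (.cons (.br (nat_lit 10) (nat_lit 1) (.cons (.ev (nat_lit 20363191235863090707270891275012) (nat_lit 3)) .nil)) (.cons (.rf (nat_lit 31) (nat_lit 444673249)) .nil))),
 (.br (nat_lit 11) (nat_lit 1) (.cons (.rf (nat_lit 5336) (nat_lit 493858305440582043680)) (.cons (.rf (nat_lit 5336) (nat_lit 493855739180442814505)) (.cons (.kr (nat_lit 309485009821345068724781312) (nat_lit 72339069014638592) (nat_lit 1) (nat_lit 0)) .nil)))),
 (.br (nat_lit 10) (nat_lit 1) (.cons (.ev (nat_lit 20362257959278712970285892633344) (nat_lit 2)) .nil)),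
 (.br (nat_lit 13) (nat_lit 1) (.cons (.rf (nat_lit 5337) (nat_lit 493858305440582043680)) (.cons (.br (nat_lit 2) (nat_lit 1) (.cons (.rf (nat_lit 5338) (nat_lit 493858305440582043680)) (.cons (.rf (nat_lit 5338) (nat_lit 493855739180442814505)) (.cons (.zr (nat_lit 20361637766165934761553730536704) (nat_lit 9445021761264418816002) (nat_lit 10) (nat_lit 3)) .nil)))) (.cons (.kr (nat_lit 309485009821345068724781312) (nat_lit 72339069014638592) (nat_lit 1) (nat_lit 0)) .nil)))),
 (.br (nat_lit 13) (nat_lit 1) (.cons (.rf (nat_lit 5337) (nat_lit 493858305440582043680)) (.cons (.rf (nat_lit 5339) (nat_lit 493858305440582043680)) (.cons (.rf (nat_lit 5339) (nat_lit 493855739180442814505)) (.cons (.kr (nat_lit 309485009821345068724781312) (nat_lit 72339069014638592) (nat_lit 1) (nat_lit 0)) .nil))))),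
 (.br (nat_lit 10) (nat_lit 1) (.cons (.ev (nat_lit 20282719088679938794564679172353) (nat_lit 1)) .nil)),
 (.br (nat_lit 10) (nat_lit 1) (.cons (.br (nat_lit 11) (nat_lit 1) (.cons (.ev (nat_lit 20363810205956088595486951407872) (nat_lit 3)) .nil)) (.cons (.ev (nat_lit 309499232261308477589160192) (nat_lit 2)) (.cons (.ev (nat_lit 20282409603651670706521756467456) (nat_lit 1)) .nil)))),
 (.br (nat_lit 11) (nat_lit 1) (.cons (.br (nat_lit 10) (nat_lit 1) (.cons (.ev (nat_lit 20680720457051117886978874475778) (nat_lit 3)) .nil)) (.cons (.br (nat_lit 8) (nat_lit 1) (.cons (.ev (nat_lit 309499232261308477589160192) (nat_lit 2)) .nil)) (.cons (.zr (nat_lit 20361637766166007663572698530048) (nat_lit 1547434493839693281937588226) (nat_lit 10) (nat_lit 3)) .nil)))),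
 (.br (nat_lit 7) (nat_lit 1) (.cons (.rf (nat_lit 5343) (nat_lit 493858305440582043680)) (.cons (.br (nat_lit 10) (nat_lit 1) (.cons (.zr (nat_lit 928455084804267427303194624) (nat_lit 2422574005994706794708993) (nat_lit 5) (nat_lit 0)) .nil)) (.cons (.br (nat_lit 10) (nat_lit 1) (.cons (.ev (nat_lit 20681960852905728346156723012866) (nat_lit 4)) .nil)) .nil)))),
 (.br (nat_lit 2) (nat_lit 1) (.cons (.rf (nat_lit 5340) (nat_lit 493858305440582042688)) (.cons (.br (nat_lit 7) (nat_lit 1) (.cons (.br (nat_lit 10) (nat_lit 1) (.cons (.ev (nat_lit 79538856468424381533696032768) (nat_lit 1)) (.cons (.br (nat_lit 11) (nat_lit 1) (.cons (.ev (nat_lit 20363810205956088595486951407872) (nat_lit 3)) .nil)) .nil))) (.cons (.ev (nat_lit 79228167255149903605930197248) (nat_lit 1)) (.cons (.br (nat_lit 11) (nat_lit 1) (.cons (.rf (nat_lit 5341) (nat_lit 493858305440582043680)) (.cons (.rf (nat_lit 82) (nat_lit 13329860647)) .nil))) .nil)))) (.cons (.br (nat_lit 13) (nat_lit 1) (.cons (.br (nat_lit 8) (nat_lit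 1) (.cons (.zr (nat_lit 18518804966282690563) (nat_lit 4845148011705739589451776) (nat_lit 10) (nat_lit 0)) (.cons (.br (nat_lit 10) (nat_lit 1) (.cons (.ev (nat_lit 313111787280471535049048067) (nat_lit 2)) .nil)) (.cons (.rf (nat_lit 5342) (nat_lit 493858305440582043680)) .nil)))) (.cons (.rf (nat_lit 5342) (nat_lit 493858305440582043680)) (.cons (.rf (nat_lit 5342) (nat_lit 493855739180442813513)) (.cons (.br (nat_lit 13) (nat_lit 1) (.cons (.zr (nat_lit 20361637766165935324503683956992) (nat_lit 1237949484018348213212807170) (nat_lit 10) (nat_lit 3)) (.cons (.rf (nat_lit 5342) (nat_lit 493858305440582043680)) (.cons (.rf (nat_lit 5342) (nat_lit 493855739180442813513)) .nil)))) .nil))))) (.cons (.br (nat_lit 7) (nat_lit 1) (.cons (.kr (nat_lit 1099511627777) (nat_lit 309485028268089142434332672) (nat_lit 0) (nat_lit 1)) (.cons (.br (nat_lit 10) (nat_lit 1) (.cons (.rf (nat_lit 31) (nat_lit 344163682)) (.cons (.ev (nat_lit 79538856449905297291460280321) (nat_lit 1)) .nil))) (.cons (.br (nat_lit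 8) (nat_lit 1) (.cons (.br (nat_lit 10) (nat_lit 1) (.cons (.ev (nat_lit 20680103895401630398551280649988) (nat_lit 3)) .nil)) (.cons (.ev (nat_lit 20282719088661563827709542400256) (nat_lit 1)) .nil))) .nil)))) (.cons (.br (nat_lit 10) (nat_lit 1) (.cons (.rf (nat_lit 5343) (nat_lit 493858305440582043680)) (.cons (.rf (nat_lit 5344) (nat_lit 493858305440582043680)) (.cons (.br (nat_lit 10) (nat_lit 1) (.cons (.rf (nat_lit 5343) (nat_lit 493858305440582043680)) (.cons (.rf (nat_lit 5344) (nat_lit 493858305440582043680)) (.cons (.ev (nat_lit 79538861172272061640360395008) (nat_lit 1)) .nil)))) (.cons (.br (nat_lit 7) (nat_lit 1) (.cons (.ev (nat_lit 20282409608392555989963915657216) (nat_lit 1)) (.cons (.rf (nat_lit 5343) (nat_lit 493858305440582043680)) (.cons (.zr (nat_lit 60847228810955011271858933728000) (nat_lit 158456329751039555819314085889) (nat_lit 5) (nat_lit 3)) .nil)))) .nil))))) .nil))))))]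

theorem c186 : chkAll C T R L186 (nat_lit 5322) = true := by decide +kernel

theorem l186 : (nat_lit 5322) + L186.length = (nat_lit 5346) := by decide +kernel

/-- part of the certificates -/
def L187 : List Prf := [(.br (nat_lit 8) (nat_lit 1) (.cons (.br (nat_lit 10) (nat_lit 1) (.cons (.kr (nat_lit 20361637766166006819134833164544) (nat_lit 310693954087703771609104384) (nat_lit 1) (nat_lit 0)) .nil)) (.cons (.ev (nat_lit 79537652264898909605640274176) (nat_lit 1)) .nil))),
 (.br (nat_lit 2) (nat_lit 1) (.cons (.rf (nat_lit 5340) (nat_lit 493858305440582042688)) (.cons (.rf (nat_lit 5345) (nat_lit 493858305440582042688)) (.cons (.rf (nat_lit 5345) (nat_lit 493855739180442813513)) (.cons (.br (nat_lit 7) (nat_lit 1) (.cons (.rf (nat_lit 5346) (nat_lit 493858305440582043680)) (.cons (.rf (nat_lit 5346) (nat_lit 493855739180442814505)) (.cons (.ev (nat_lit 20520403580926723322260324811521) (nat_lit 2)) .nil)))) .nil))))),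
 (.br (nat_lit 12) (nat_lit 1) (.cons (.rf (nat_lit 5329) (nat_lit 493858305440582043680)) (.cons (.rf (nat_lit 5329) (nat_lit 493858305440582042688)) (.cons (.rf (nat_lit 5335) (nat_lit 493858305440582043680)) (.cons (.kr (nat_lit 1099511627776) (nat_lit 309485009821345068724781056) (nat_lit 5) (nat_lit 0)) (.cons (.br (nat_lit 1) (nat_lit 1) (.cons (.kr (nat_lit 256) (nat_lit 65536) (nat_lit 1) (nat_lit 0)) (.cons (.rf (nat_lit 5340) (nat_lit 493858305440582043680)) (.cons (.rf (nat_lit 5345) (nat_lit 493858305440582043680)) (.cons (.rf (nat_lit 5345) (nat_lit 493855739180442814505)) (.cons (.rf (nat_lit 5347) (nat_lit 493858305440582043680)) (.cons (.br (nat_lit 2) (nat_lit 1) (.cons (.rf (nat_lit 5340) (nat_lit 493858305440582042688)) (.cons (.rf (nat_lit 5345) (nat_lit 493858305440582042688)) (.cons (.rf (nat_lit 5345) (nat_lit 493855739180442813513)) (.cons (.rf (nat_lit 5347) (nat_lit 493858305440582042688)) (.cons (.ev (nat_lit 20282409603651670706521756401664) (nat_lit 1)) .nil))))))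 .nil))))))) .nil)))))),
 (.br (nat_lit 12) (nat_lit 1) (.cons (.rf (nat_lit 5329) (nat_lit 493858305440582043680)) (.cons (.rf (nat_lit 5329) (nat_lit 493858305440582042688)) (.cons (.rf (nat_lit 5335) (nat_lit 493858305440582043680)) (.cons (.rf (nat_lit 5348) (nat_lit 493858305440582043680)) (.cons (.kr (nat_lit 1099511627776) (nat_lit 309485009821345068724781056) (nat_lit 5) (nat_lit 0)) (.cons (.br (nat_lit 12) (nat_lit 1) (.cons (.rf (nat_lit 5329) (nat_lit 493858305440582043680)) (.cons (.rf (nat_lit 5329) (nat_lit 493858305440582042688)) (.cons (.rf (nat_lit 5335) (nat_lit 493858305440582043680)) (.cons (.rf (nat_lit 5348) (nat_lit 493858305440582043680)) (.cons (.kr (nat_lit 1099511627776) (nat_lit 309485009821345068724781056) (nat_lit 5) (nat_lit 0)) .nil)))))) .nil))))))),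
 (.br (nat_lit 11) (nat_lit 0) (.cons (.br (nat_lit 6) (nat_lit 1) (.cons (.br (nat_lit 12) (nat_lit 1) (.cons (.rf (nat_lit 5329) (nat_lit 493858305440582043680)) (.cons (.rf (nat_lit 5329) (nat_lit 493858305440582042688)) (.cons (.rf (nat_lit 5335) (nat_lit 493858305440582043680)) (.cons (.rf (nat_lit 5349) (nat_lit 493858305440582043680)) (.cons (.rf (nat_lit 5349) (nat_lit 493855739180442814505)) (.cons (.kr (nat_lit 1099511627776) (nat_lit 309485009821345068724781056) (nat_lit 5) (nat_lit 0)) (.cons (.br (nat_lit 12) (nat_lit 1) (.cons (.rf (nat_lit 5329) (nat_lit 493858305440582043680)) (.cons (.rf (nat_lit 5329) (nat_lit 493858305440582042688)) (.cons (.rf (nat_lit 5335) (nat_lit 493858305440582043680)) (.cons (.rf (nat_lit 5349) (nat_lit 493858305440582043680)) (.cons (.rf (nat_lit 5349) (nat_lit 493855739180442814505)) (.cons (.kr (nat_lit 1099511627776) (nat_lit 309485009821345068724781056) (nat_lit 5) (nat_lit 0)) .nil))))))) .nil)))))))) .nil)) .nil)),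
 (.br (nat_lit 5) (nat_lit 1) (.cons (.br (nat_lit 11) (nat_lit 0) (.cons (.rf (nat_lit 5350) (nat_lit 14242959524133701664)) (.cons (.br (nat_lit 11) (nat_lit 0) (.cons (.rf (nat_lit 5350) (nat_lit 14242959524133701664)) .nil)) .nil))) .nil)),
 (.br (nat_lit 5) (nat_lit 1) (.cons (.rf (nat_lit 5351) (nat_lit 407901468851537952)) (.cons (.br (nat_lit 5) (nat_lit 1) (.cons (.rf (nat_lit 5351) (nat_lit 443930265870501920)) (.cons (.br (nat_lit 6) (nat_lit 1) (.cons (.br (nat_lit 6) (nat_lit 1) .nil) .nil)) .nil))) .nil))),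
 (.br (nat_lit 11) (nat_lit 1) (.cons (.rf (nat_lit 31) (nat_lit 411404513)) (.cons (.zr (nat_lit 928455084804267427302998784) (nat_lit 2422574005994706794708993) (nat_lit 5) (nat_lit 0)) .nil))),
 (.br (nat_lit 10) (nat_lit 1) (.cons (.rf (nat_lit 31) (nat_lit 344295649)) (.cons (.br (nat_lit 8) (nat_lit 1) (.cons (.zr (nat_lit 1208981376021831473954816) (nat_lit 928473918930248164026875905) (nat_lit 5) (nat_lit 0)) (.cons (.rf (nat_lit 5353) (nat_lit 493858305440582043680)) (.cons (.rf (nat_lit 5353) (nat_lit 458117738795624400928)) .nil)))) .nil))),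
 (.br (nat_lit 10) (nat_lit 1) (.cons (.rf (nat_lit 31) (nat_lit 344295649)) (.cons (.rf (nat_lit 5354) (nat_lit 493858305440582043680)) (.cons (.rf (nat_lit 5354) (nat_lit 458117738795624400928)) .nil)))),
 (.br (nat_lit 8) (nat_lit 1) (.cons (.rf (nat_lit 5355) (nat_lit 493858305440582043680)) (.cons (.rf (nat_lit 29) (nat_lit 8751329)) (.cons (.br (nat_lit 11) (nat_lit 1) (.cons (.ev (nat_lit 309499232261308477589225472) (nat_lit 2)) (.cons (.rf (nat_lit 31) (nat_lit 411404513)) (.cons (.rf (nat_lit 31) (nat_lit 444958945)) .nil)))) .nil)))),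
 (.br (nat_lit 8) (nat_lit 1) (.cons (.rf (nat_lit 5355) (nat_lit 493858305440582043680)) (.cons (.rf (nat_lit 29) (nat_lit 8751329)) (.cons (.rf (nat_lit 5356) (nat_lit 493858305440582043680)) (.cons (.rf (nat_lit 5356) (nat_lit 458117738795624400928)) .nil))))),
 (.br (nat_lit 8) (nat_lit 1) (.cons (.rf (nat_lit 31) (nat_lit 411118817)) (.cons (.br (nat_lit 11) (nat_lit 1) (.cons (.br (nat_lit 12) (nat_lit 1) (.cons (.ev (nat_lit 79537652264899191080600207616) (nat_lit 1)) (.cons (.ev (nat_lit 79537652246452447006890721281) (nat_lit 1)) .nil))) (.cons (.ev (nat_lit 79537652264971249774166606080) (nat_lit 1)) (.cons (.br (nat_lit 12) (nat_lit 1) (.cons (.ev (nat_lit 79537652246452447006890721281) (nat_lit 1)) (.cons (.ev (nat_lit 79537652264899191080600207616) (nat_lit 1)) .nil))) .nil)))) .nil))),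
 (.br (nat_lit 8) (nat_lit 1) (.cons (.rf (nat_lit 5358) (nat_lit 493858305440582043680)) (.cons (.rf (nat_lit 31) (nat_lit 411118817)) (.cons (.br (nat_lit 8) (nat_lit 1) (.cons (.rf (nat_lit 5358) (nat_lit 493858305440582043680)) (.cons (.rf (nat_lit 31) (nat_lit 411118817)) .nil))) .nil)))),
 (.br (nat_lit 12) (nat_lit 1) (.cons (.rf (nat_lit 5359) (nat_lit 493858305440582043680)) (.cons (.rf (nat_lit 5359) (nat_lit 493855739180442814505)) (.cons (.rf (nat_lit 29) (nat_lit 12945633)) (.cons (.br (nat_lit 12) (nat_lit 1) (.cons (.rf (nat_lit 5359) (nat_lit 493858305440582043680)) (.cons (.rf (nat_lit 5359) (nat_lit 493855739180442814505)) (.cons (.rf (nat_lit 29) (nat_lit 12945633)) .nil)))) .nil))))),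
 (.br (nat_lit 2) (nat_lit 1) (.cons (.rf (nat_lit 5357) (nat_lit 493858305440582043680)) (.cons (.rf (nat_lit 5357) (nat_lit 493855739180442814505)) (.cons (.kr (nat_lit 618970019642690137449562624) (nat_lit 72058693566398464) (nat_lit 1) (nat_lit 0)) (.cons (.rf (nat_lit 5360) (nat_lit 493858305440582043680)) (.cons (.rf (nat_lit 5360) (nat_lit 458117738795624400928)) .nil)))))),
 (.br (nat_lit 12) (nat_lit 1) (.cons (.ev (nat_lit 79537647524085682666580541696) (nat_lit 1)) .nil)),
 (.br (nat_lit 11) (nat_lit 1) (.cons (.ev (nat_lit 79537647542604485433822871553) (nat_lit 1)) (.cons (.rf (nat_lit 5362) (nat_lit 493858305440582043680)) .nil))),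
 (.br (nat_lit 10) (nat_lit 1) (.cons (.rf (nat_lit 2594) (nat_lit 8995024097)) (.cons (.rf (nat_lit 82) (nat_lit 13164063809)) (.cons (.br (nat_lit 8) (nat_lit 1) (.cons (.kr (nat_lit 1099511628033) (nat_lit 18518801667764256768) (nat_lit 0) (nat_lit 2)) (.cons (.rf (nat_lit 5363) (nat_lit 493858305440582043680)) (.cons (.rf (nat_lit 5363) (nat_lit 458117738795624400928)) .nil)))) .nil)))),
 (.br (nat_lit 12) (nat_lit 1) (.cons (.rf (nat_lit 2594) (nat_lit 8927980769)) (.cons (.rf (nat_lit 82) (nat_lit 11018677313)) (.cons (.br (nat_lit 8) (nat_lit 1) (.cons (.br (nat_lit 10) (nat_lit 1) (.cons (.ev (nat_lit 158767023741948970519769448451) (nat_lit 2)) (.cons (.br (nat_lit 11) (nat_lit 1) (.cons (.zr (nat_lit 928455084804267427303194624) (nat_lit 2422574005994706794708993) (nat_lit 5) (nat_lit 0)) .nil)) .nil))) (.cons (.ev (nat_lit 79537652246452447006890721281) (nat_lit 1)) (.cons (.rf (nat_lit 5363) (nat_lit 384333014300599879712)) .nil)))) .nil)))),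
 (.br (nat_lit 12) (nat_lit 1) (.cons (.rf (nat_lit 1339) (nat_lit 426653227073)) (.cons (.rf (nat_lit 5365) (nat_lit 493858305440582043680)) (.cons (.rf (nat_lit 1343) (nat_lit 353671326785)) (.cons (.br (nat_lit 12) (nat_lit 1) (.cons (.rf (nat_lit 2594) (nat_lit 9028644065)) (.cons (.rf (nat_lit 5365) (nat_lit 493858305440582043680)) (.cons (.rf (nat_lit 82) (nat_lit 14239902785)) .nil)))) .nil))))),
 (.br (nat_lit 2) (nat_lit 1) (.cons (.kr (nat_lit 1) (nat_lit 18446744073709551616) (nat_lit 0) (nat_lit 1)) (.cons (.br (nat_lit 10) (nat_lit 1) (.cons (.rf (nat_lit 1339) (nat_lit 356860006465)) (.cons (.rf (nat_lit 3822) (nat_lit 356725919778)) (.cons (.rf (nat_lit 5364) (nat_lit 493858305440582043680)) (.cons (.rf (nat_lit 5364) (nat_lit 458117738795624400928)) .nil))))) (.cons (.rf (nat_lit 29) (nat_lit 8619362)) (.cons (.rf (nat_lit 5366) (nat_lit 493858305440582043680)) (.cons (.rf (nat_lit 5366) (nat_lit 458117738795624400928)) .nil)))))),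
 (.br (nat_lit 8) (nat_lit 1) (.cons (.rf (nat_lit 84) (nat_lit 13229075490)) (.cons (.br (nat_lit 10) (nat_lit 1) (.cons (.rf (nat_lit 84) (nat_lit 13163867362)) (.cons (.ev (nat_lit 79228162532711082771076940033) (nat_lit 1)) (.cons (.br (nat_lit 11) (nat_lit 1) (.cons (.rf (nat_lit 84) (nat_lit 11018480711)) (.cons (.br (nat_lit 12) (nat_lit 1) (.cons (.zr (nat_lit 3411588681399227617666007048) (nat_lit 792281658199210734044374369536) (nat_lit 10) (nat_lit 0)) .nil)) .nil))) .nil)))) (.cons (.br (nat_lit 10) (nat_lit 1) (.cons (.rf (nat_lit 84) (nat_lit 13163867362)) (.cons (.br (nat_lit 11) (nat_lit 1) (.cons (.ev (nat_lit 79538861172343838858933174528) (nat_lit 1)) (.cons (.zr (nat_lit 55340236619175362560) (nat_lit 621392593648683744732643329) (nat_lit 5) (nat_lit 0)) .nil))) (.cons (.br (nat_lit 11) (nat_lit 1) (.cons (.zr (nat_lit 55340236619175362560) (nat_lit 621392593648683744732643329) (nat_lit 5) (nat_lit 0)) (.cons (.rf (nat_lit 5177) (nat_lit 14372052011)) .nil))) .nil)))) .nil)))),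
 (.br (nat_lit 2) (nat_lit 1) (.cons (.rf (nat_lit 1339) (nat_lit 356859842785)) (.cons (.rf (nat_lit 1339) (nat_lit 288142626850)) (.cons (.rf (nat_lit 31) (nat_lit 344163682)) (.cons (.rf (nat_lit 5368) (nat_lit 493858305440582043680)) (.cons (.rf (nat_lit 5368) (nat_lit 458117738795624400928)) .nil)))))),
 (.br (nat_lit 8) (nat_lit 1) (.cons (.rf (nat_lit 82) (nat_lit 13229197351)) (.cons (.rf (nat_lit 2594) (nat_lit 11141384551)) (.cons (.ev (nat_lit 309499232261308477589160192) (nat_lit 2)) .nil)))),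
 (.br (nat_lit 8) (nat_lit 1) (.cons (.rf (nat_lit 3822) (nat_lit 356558147623)) (.cons (.rf (nat_lit 1339) (nat_lit 287840768039)) (.cons (.rf (nat_lit 5370) (nat_lit 493858305440582043680)) (.cons (.rf (nat_lit 5370) (nat_lit 458117738795624400928)) .nil))))),
 (.br (nat_lit 11) (nat_lit 1) (.cons (.kr (nat_lit 309485009821345068724781057) (nat_lit 18446745173221179392) (nat_lit 0) (nat_lit 1)) (.cons (.br (nat_lit 12) (nat_lit 1) (.cons (.ev (nat_lit 20363810205992982083634370511110) (nat_lit 3)) .nil)) .nil))),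
 (.br (nat_lit 8) (nat_lit 1) (.cons (.zr (nat_lit 1208981376020731962327040) (nat_lit 618988909108903095302094849) (nat_lit 5) (nat_lit 0)) (.cons (.rf (nat_lit 5372) (nat_lit 493858305440582043680)) (.cons (.rf (nat_lit 5372) (nat_lit 458117738795624400928)) .nil)))),
 (.br (nat_lit 12) (nat_lit 1) (.cons (.ev (nat_lit 79538856449905578766420148481) (nat_lit 1)) (.cons (.ev (nat_lit 79537652246452447006890721281) (nat_lit 1)) .nil))),
 (.br (nat_lit 2) (nat_lit 1) (.cons (.zr (nat_lit 1208981376020731962327040) (nat_lit 618988909108903095302094849) (nat_lit 5) (nat_lit 0)) (.cons (.rf (nat_lit 5374) (nat_lit 493858305440582043680)) (.cons (.rf (nat_lit 5374) (nat_lit 458117738795624400928)) .nil)))),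
 (.br (nat_lit 8) (nat_lit 1) (.cons (.rf (nat_lit 5373) (nat_lit 493858305440582043680)) (.cons (.rf (nat_lit 5375) (nat_lit 493858305440582043680)) (.cons (.br (nat_lit 11) (nat_lit 1) (.cons (.br (nat_lit 12) (nat_lit 1) (.cons (.ev (nat_lit 20363810205992982083634370511110) (nat_lit 3)) .nil)) (.cons (.ev (nat_lit 79229376180969236764406317313) (nat_lit 1)) (.cons (.ev (nat_lit 20282410817318375604588795396353) (nat_lit 1)) .nil)))) .nil)))),
 (.br (nat_lit 10) (nat_lit 1) (.cons (.rf (nat_lit 5367) (nat_lit 493855739180442813513)) (.cons (.rf (nat_lit 5369) (nat_lit 493858305440582043680)) (.cons (.rf (nat_lit 5371) (nat_lit 493858305440582043680)) (.cons (.br (nat_lit 8) (nat_lit 1) (.cons (.rf (nat_lit 5373) (nat_lit 493858305440582043680)) (.cons (.rf (nat_lit 5375) (nat_lit 493858305440582043680)) (.cons (.rf (nat_lit 5376) (nat_lit 493858305440582043680)) (.cons (.rf (nat_lit 5376) (nat_lit 458117738795624400928)) .nil))))) .nil))))),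
 (.br (nat_lit 10) (nat_lit 1) (.cons (.ev (nat_lit 79228162514264338697367388416) (nat_lit 1)) .nil)),
 (.br (nat_lit 13) (nat_lit 1) (.cons (.br (nat_lit 8) (nat_lit 1) (.cons (.ev (nat_lit 40565439391026653985147623375619) (nat_lit 2)) (.cons (.rf (nat_lit 5378) (nat_lit 493858305440582043680)) .nil))) (.cons (.br (nat_lit 8) (nat_lit 1) (.cons (.ev (nat_lit 20282409608392483651994412711936) (nat_lit 1)) (.cons (.br (nat_lit 10) (nat_lit 1) (.cons (.ev (nat_lit 313111787280471535049048067) (nat_lit 2)) .nil)) (.cons (.br (nat_lit 10) (nat_lit 1) (.cons (.ev (nat_lit 309499232261308477589160192) (nat_lit 2)) .nil)) .nil)))) .nil))),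
 (.br (nat_lit 13) (nat_lit 1) (.cons (.rf (nat_lit 5379) (nat_lit 493858305440582043680)) (.cons (.br (nat_lit 8) (nat_lit 1) (.cons (.br (nat_lit 10) (nat_lit 1) (.cons (.ev (nat_lit 20680718029791494504172467847940) (nat_lit 3)) .nil)) (.cons (.ev (nat_lit 79537652264899191080600272896) (nat_lit 1)) .nil))) .nil)))]

theorem c187 : chkAll C T R L187 (nat_lit 5346) = true := by decide +kernel

theorem l187 : (nat_lit 5346) + L187.length = (nat_lit 5381) := by decide +kernel

/-- part of the certificates -/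
def L188 : List Prf := [(.br (nat_lit 13) (nat_lit 1) (.cons (.rf (nat_lit 5379) (nat_lit 493858305440582043680)) (.cons (.rf (nat_lit 5380) (nat_lit 493858305440582043680)) (.cons (.br (nat_lit 13) (nat_lit 1) (.cons (.rf (nat_lit 5379) (nat_lit 493858305440582043680)) (.cons (.rf (nat_lit 5380) (nat_lit 493858305440582043680)) .nil))) .nil)))),
 (.br (nat_lit 13) (nat_lit 1) (.cons (.rf (nat_lit 5381) (nat_lit 493858305440582043680)) (.cons (.rf (nat_lit 5381) (nat_lit 493855739180442813513)) (.cons (.br (nat_lit 13) (nat_lit 1) (.cons (.rf (nat_lit 5381) (nat_lit 493858305440582043680)) (.cons (.rf (nat_lit 5381) (nat_lit 493855739180442813513)) .nil))) .nil)))),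
 (.br (nat_lit 13) (nat_lit 1) (.cons (.rf (nat_lit 5381) (nat_lit 493858305440582043680)) (.cons (.rf (nat_lit 5381) (nat_lit 493855739180442813513)) (.cons (.rf (nat_lit 5382) (nat_lit 493858305440582043680)) (.cons (.br (nat_lit 13) (nat_lit 1) (.cons (.rf (nat_lit 5381) (nat_lit 493858305440582043680)) (.cons (.rf (nat_lit 5381) (nat_lit 493855739180442813513)) (.cons (.rf (nat_lit 5382) (nat_lit 493858305440582043680)) .nil)))) .nil))))),
 (.br (nat_lit 2) (nat_lit 1) (.cons (.kr (nat_lit 309485009821345068724781057) (nat_lit 18446745173221179392) (nat_lit 0) (nat_lit 1)) (.cons (.rf (nat_lit 84) (nat_lit 13163867207)) (.cons (.br (nat_lit 8) (nat_lit 1) (.cons (.ev (nat_lit 79537647542532426740290093313) (nat_lit 1)) (.cons (.br (nat_lit 12) (nat_lit 1) (.cons (.ev (nat_lit 79538861172343838858933174528) (nat_lit 1)) (.cons (.rf (nat_lit 5362) (nat_lit 384328515099019019328)) .nil))) .nil))) (.cons (.br (nat_lit 8) (nat_lit 1) (.cons (.br (nat_lit 13) (nat_lit 1) (.cons (.rf (nat_lit 5378)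 (nat_lit 383181218698045261856)) (.cons (.ev (nat_lit 79228162514264338697367388416) (nat_lit 1)) .nil))) (.cons (.br (nat_lit 13) (nat_lit 1) (.cons (.ev (nat_lit 20282409603670117450595466019073) (nat_lit 1)) (.cons (.ev (nat_lit 20282719093383858251889916313601) (nat_lit 1)) .nil))) .nil))) .nil))))),
 (.br (nat_lit 10) (nat_lit 1) (.cons (.rf (nat_lit 5383) (nat_lit 493858305440582043680)) (.cons (.rf (nat_lit 5384) (nat_lit 493858305440582043680)) (.cons (.br (nat_lit 11) (nat_lit 1) (.cons (.br (nat_lit 12) (nat_lit 1) (.cons (.ev (nat_lit 79538856449905578766420148481) (nat_lit 1)) (.cons (.ev (nat_lit 79228167236703159532220645633) (nat_lit 1)) .nil))) (.cons (.br (nat_lit 12) (nat_lit 1) (.cons (.ev (nat_lit 79538856449905578766420148481) (nat_lit 1)) (.cons (.ev (nat_lit 79229376180969236764406317313) (nat_lit 1)) .nil))) (.cons (.ev (nat_lit 79538856449977637459986481153) (nat_lit 1)) (.cons (.br (nat_lit 2) (nat_lit 1) (.cons (.rf (nat_lit 5341) (nat_lit 454662351981524387872)) (.cons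 (.br (nat_lit 8) (nat_lit 1) (.cons (.zr (nat_lit 55340234420152107008) (nat_lit 2422574005993607283081217) (nat_lit 5) (nat_lit 0)) .nil)) (.cons (.br (nat_lit 8) (nat_lit 1) (.cons (.zr (nat_lit 55340234420152107008) (nat_lit 2422574005993607283081217) (nat_lit 5) (nat_lit 0)) .nil)) .nil)))) .nil))))) .nil)))),
 (.br (nat_lit 10) (nat_lit 1) (.cons (.rf (nat_lit 5383) (nat_lit 493858305440582043680)) (.cons (.rf (nat_lit 5384) (nat_lit 493858305440582043680)) (.cons (.rf (nat_lit 5385) (nat_lit 493858305440582043680)) (.cons (.br (nat_lit 10) (nat_lit 1) (.cons (.rf (nat_lit 5383) (nat_lit 493858305440582043680)) (.cons (.rf (nat_lit 5384) (nat_lit 493858305440582043680)) (.cons (.rf (nat_lit 5385) (nat_lit 493858305440582043680)) .nil)))) .nil))))),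
 (.br (nat_lit 12) (nat_lit 1) (.cons (.ev (nat_lit 313111787496645416657682691) (nat_lit 2)) (.cons (.ev (nat_lit 309499232261308477589160192) (nat_lit 2)) (.cons (.ev (nat_lit 20282410812577562096174775664641) (nat_lit 1)) .nil)))),
 (.br (nat_lit 10) (nat_lit 1) (.cons (.rf (nat_lit 84) (nat_lit 9003314241)) (.cons (.rf (nat_lit 5386) (nat_lit 493858305440582043680)) (.cons (.br (nat_lit 2) (nat_lit 1) (.cons (.br (nat_lit 8) (nat_lit 1) (.cons (.ev (nat_lit 79229371458603035365459623936) (nat_lit 1)) (.cons (.rf (nat_lit 5387) (nat_lit 493858305440582043680)) .nil))) (.cons (.ev (nat_lit 313111787496645416657682691) (nat_lit 2)) (.cons (.br (nat_lit 13) (nat_lit 1) (.cons (.rf (nat_lit 5387) (nat_lit 493858305440582043680)) (.cons (.rf (nat_lit 5177) (nat_lit 14239997282)) .nil))) .nil)))) .nil)))),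
 (.br (nat_lit 10) (nat_lit 1) (.cons (.rf (nat_lit 5383) (nat_lit 493858305440582043680)) (.cons (.rf (nat_lit 5386) (nat_lit 493858305440582043680)) (.cons (.rf (nat_lit 5388) (nat_lit 493858305440582043680)) (.cons (.br (nat_lit 10) (nat_lit 1) (.cons (.rf (nat_lit 5383) (nat_lit 493858305440582043680)) (.cons (.rf (nat_lit 5386) (nat_lit 493858305440582043680)) (.cons (.rf (nat_lit 5388) (nat_lit 493858305440582043680)) .nil)))) .nil))))),
 (.br (nat_lit 10) (nat_lit 1) (.cons (.rf (nat_lit 5383) (nat_lit 493858305440582043680)) (.cons (.rf (nat_lit 5386) (nat_lit 493858305440582043680)) (.cons (.rf (nat_lit 5389) (nat_lit 493858305440582043680)) (.cons (.br (nat_lit 10) (nat_lit 1) (.cons (.rf (nat_lit 5383) (nat_lit 493858305440582043680)) (.cons (.rf (nat_lit 5386) (nat_lit 493858305440582043680)) (.cons (.rf (nat_lit 5389) (nat_lit 493858305440582043680)) .nil)))) .nil))))),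
 (.br (nat_lit 10) (nat_lit 1) (.cons (.rf (nat_lit 5383) (nat_lit 493858305440582043680)) (.cons (.rf (nat_lit 5386) (nat_lit 493858305440582043680)) (.cons (.rf (nat_lit 5389) (nat_lit 493858305440582043680)) (.cons (.rf (nat_lit 5390) (nat_lit 493858305440582043680)) (.cons (.br (nat_lit 10) (nat_lit 1) (.cons (.rf (nat_lit 5383) (nat_lit 493858305440582043680)) (.cons (.rf (nat_lit 5386) (nat_lit 493858305440582043680)) (.cons (.rf (nat_lit 5389) (nat_lit 493858305440582043680)) (.cons (.rf (nat_lit 5390) (nat_lit 493858305440582043680)) .nil))))) .nil)))))),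
 (.br (nat_lit 7) (nat_lit 1) (.cons (.rf (nat_lit 5361) (nat_lit 493858305440582042688)) (.cons (.rf (nat_lit 5367) (nat_lit 493858305440582043680)) (.cons (.br (nat_lit 10) (nat_lit 1) (.cons (.rf (nat_lit 5367) (nat_lit 493855739180442813513)) (.cons (.rf (nat_lit 5369) (nat_lit 493858305440582043680)) (.cons (.rf (nat_lit 5371) (nat_lit 493858305440582043680)) (.cons (.rf (nat_lit 5377) (nat_lit 493858305440582043680)) (.cons (.rf (nat_lit 5377) (nat_lit 458117738795624400928)) .nil)))))) (.cons (.kr (nat_lit 1099511627776) (nat_lit 309485009821345068724781056) (nat_lit 5) (nat_lit 0)) (.cons (.rf (nat_lit 5391) (nat_lit 493858305440582043680)) (.cons (.rf (nat_lit 5391) (nat_lit 458117738795624400928)) .nil))))))),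
 (.br (nat_lit 8) (nat_lit 1) (.cons (.rf (nat_lit 31) (nat_lit 411114849)) (.cons (.br (nat_lit 7) (nat_lit 1) (.cons (.br (nat_lit 10) (nat_lit 1) (.cons (.rf (nat_lit 31) (nat_lit 413212001)) (.cons (.zr (nat_lit 932081806922879093698658304) (nat_lit 4759260253595864399873) (nat_lit 5) (nat_lit 9)) .nil))) (.cons (.ev (nat_lit 79537652264971249774166606080) (nat_lit 1)) (.cons (.br (nat_lit 13) (nat_lit 1) (.cons (.ev (nat_lit 20282409608374108964415246237953) (nat_lit 1)) (.cons (.ev (nat_lit 20282719093402304995963625865216) (nat_lit 1)) .nil))) .nil)))) .nil))),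
 (.br (nat_lit 8) (nat_lit 1) (.cons (.rf (nat_lit 31) (nat_lit 411114849)) (.cons (.rf (nat_lit 5393) (nat_lit 493858305440582043680)) (.cons (.br (nat_lit 8) (nat_lit 1) (.cons (.rf (nat_lit 31) (nat_lit 411114849)) (.cons (.rf (nat_lit 5393) (nat_lit 493858305440582043680)) .nil))) .nil)))),
 (.br (nat_lit 12) (nat_lit 1) (.cons (.rf (nat_lit 29) (nat_lit 12814689)) (.cons (.rf (nat_lit 5394) (nat_lit 493858305440582043680)) (.cons (.rf (nat_lit 5394) (nat_lit 493855739180442814505)) (.cons (.br (nat_lit 12) (nat_lit 1) (.cons (.zr (nat_lit 72339077654905088) (nat_lit 80466102553549717868443205632) (nat_lit 5) (nat_lit 3)) (.cons (.rf (nat_lit 5394) (nat_lit 493858305440582043680)) (.cons (.rf (nat_lit 5394) (nat_lit 493855739180442814505)) .nil)))) .nil))))),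
 (.br (nat_lit 2) (nat_lit 1) (.cons (.kr (nat_lit 72058693566333184) (nat_lit 618970019642690137449693184) (nat_lit 1) (nat_lit 0)) (.cons (.rf (nat_lit 5392) (nat_lit 493858305440582042688)) (.cons (.rf (nat_lit 5392) (nat_lit 493855739180442813513)) (.cons (.rf (nat_lit 5395) (nat_lit 493858305440582043680)) (.cons (.rf (nat_lit 5395) (nat_lit 458117738795624400928)) .nil)))))),
 (.br (nat_lit 10) (nat_lit 1) (.cons (.rf (nat_lit 3822) (nat_lit 391186028769)) (.cons (.rf (nat_lit 58) (nat_lit 11864103)) (.cons (.rf (nat_lit 2266) (nat_lit 14242959350122579168)) (.cons (.rf (nat_lit 2266) (nat_lit 15395880854729426144)) .nil))))),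
 (.br (nat_lit 8) (nat_lit 1) (.cons (.br (nat_lit 10) (nat_lit 1) (.cons (.ev (nat_lit 20680722884384671241931099144964) (nat_lit 3)) .nil)) (.cons (.ev (nat_lit 79537647524085682666580475904) (nat_lit 1)) .nil))),
 (.br (nat_lit 13) (nat_lit 1) (.cons (.br (nat_lit 11) (nat_lit 1) (.cons (.rf (nat_lit 5398) (nat_lit 493858305440582043680)) (.cons (.rf (nat_lit 5398) (nat_lit 493855739180442814505)) (.cons (.ev (nat_lit 20520403590371600405395270730499) (nat_lit 2)) .nil)))) (.cons (.rf (nat_lit 82) (nat_lit 9006296289)) (.cons (.rf (nat_lit 2594) (nat_lit 13161114689)) .nil)))),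
 (.br (nat_lit 11) (nat_lit 1) (.cons (.br (nat_lit 12) (nat_lit 1) (.cons (.ev (nat_lit 79537652264899191080600272896) (nat_lit 1)) (.cons (.ev (nat_lit 79537652246452447006890656001) (nat_lit 1)) .nil))) (.cons (.ev (nat_lit 79537647524157741360113254656) (nat_lit 1)) (.cons (.br (nat_lit 12) (nat_lit 1) (.cons (.ev (nat_lit 79537652246452447006890656001) (nat_lit 1)) (.cons (.ev (nat_lit 79537652264899191080600272896) (nat_lit 1)) .nil))) .nil)))),
 (.br (nat_lit 8) (nat_lit 1) (.cons (.rf (nat_lit 2529) (nat_lit 383248842887255923744)) (.cons (.rf (nat_lit 5400) (nat_lit 493858305440582043680)) (.cons (.rf (nat_lit 5400) (nat_lit 458117738795624399936)) .nil)))),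
 (.br (nat_lit 8) (nat_lit 1) (.cons (.rf (nat_lit 5401) (nat_lit 493858305440582043680)) (.cons (.br (nat_lit 12) (nat_lit 1) (.cons (.br (nat_lit 10) (nat_lit 1) (.cons (.zr (nat_lit 3626777675017769183084544) (nat_lit 618974778902942633785556993) (nat_lit 5) (nat_lit 9)) .nil)) (.cons (.ev (nat_lit 79537652264899191080600272896) (nat_lit 1)) .nil))) .nil))),
 (.br (nat_lit 8) (nat_lit 1) (.cons (.rf (nat_lit 5401) (nat_lit 493858305440582043680)) (.cons (.rf (nat_lit 5402) (nat_lit 493858305440582043680)) (.cons (.rf (nat_lit 5402) (nat_lit 458117738795624399936)) .nil)))),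
 (.br (nat_lit 10) (nat_lit 1) (.cons (.rf (nat_lit 5401) (nat_lit 493858305440582043680)) (.cons (.rf (nat_lit 5403) (nat_lit 493858305440582043680)) (.cons (.br (nat_lit 10) (nat_lit 1) (.cons (.rf (nat_lit 5401) (nat_lit 493858305440582043680)) (.cons (.rf (nat_lit 5403) (nat_lit 493858305440582043680)) .nil))) .nil)))),
 (.br (nat_lit 10) (nat_lit 1) (.cons (.rf (nat_lit 5401) (nat_lit 493858305440582043680)) (.cons (.rf (nat_lit 5403) (nat_lit 493858305440582043680)) (.cons (.rf (nat_lit 5404) (nat_lit 493858305440582043680)) (.cons (.rf (nat_lit 5404) (nat_lit 458117738795624399936)) .nil))))),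
 (.br (nat_lit 12) (nat_lit 1) (.cons (.ev (nat_lit 79537647542604485433822871553) (nat_lit 1)) (.cons (.zr (nat_lit 238612942572257047986823168000) (nat_lit 40564819212025707613342931091969) (nat_lit 5) (nat_lit 4)) .nil))),
 (.br (nat_lit 13) (nat_lit 1) (.cons (.br (nat_lit 11) (nat_lit 1) (.cons (.rf (nat_lit 5406) (nat_lit 493858305440582043680)) (.cons (.rf (nat_lit 5406) (nat_lit 493855739180442814505)) (.cons (.ev (nat_lit 79228162514336395191876845824) (nat_lit 1)) .nil)))) (.cons (.rf (nat_lit 82) (nat_lit 9006459969)) (.cons (.rf (nat_lit 2594) (nat_lit 13155871969)) .nil)))),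
 (.br (nat_lit 13) (nat_lit 1) (.cons (.rf (nat_lit 5407) (nat_lit 493858305440582043680)) (.cons (.rf (nat_lit 5407) (nat_lit 493855739180442814505)) (.cons (.rf (nat_lit 1343) (nat_lit 275321859137)) (.cons (.rf (nat_lit 4982) (nat_lit 454461621323)) .nil))))),
 (.br (nat_lit 2) (nat_lit 1) (.cons (.rf (nat_lit 5361) (nat_lit 493858305440582042688)) (.cons (.rf (nat_lit 5392) (nat_lit 493858305440582042688)) (.cons (.rf (nat_lit 5392) (nat_lit 493855739180442813513)) (.cons (.rf (nat_lit 5396) (nat_lit 493858305440582042688)) (.cons (.br (nat_lit 7) (nat_lit 1) (.cons (.rf (nat_lit 5397) (nat_lit 15433035725666355232)) (.cons (.rf (nat_lit 5397) (nat_lit 15432721265340811305)) (.cons (.kr (nat_lit 1099511627776) (nat_lit 309485009821345068724781056) (nat_lit 5) (nat_lit 0)) (.cons (.ev (nat_lit 79228162514264338697367322624) (nat_lit 1)) (.cons (.br (nat_lit 13) (nat_lit 1) (.cons (.rf (nat_lit 5399) (nat_lit 493858305440582043680)) (.cons (.rf (nat_lit 5399) (nat_lit 493855739180442814505))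 (.cons (.rf (nat_lit 1343) (nat_lit 275316616417)) (.cons (.rf (nat_lit 4982) (nat_lit 449092912363)) .nil))))) .nil)))))) (.cons (.br (nat_lit 7) (nat_lit 1) (.cons (.rf (nat_lit 5405) (nat_lit 493858305440582043680)) (.cons (.rf (nat_lit 5405) (nat_lit 493855739180442814505)) (.cons (.kr (nat_lit 1099511627776) (nat_lit 309485009821345068724781056) (nat_lit 5) (nat_lit 0)) (.cons (.rf (nat_lit 5408) (nat_lit 493858305440582043680)) (.cons (.rf (nat_lit 5408) (nat_lit 458117738795624399936)) .nil)))))) .nil))))))),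
 (.br (nat_lit 11) (nat_lit 0) (.cons (.br (nat_lit 6) (nat_lit 1) (.cons (.br (nat_lit 1) (nat_lit 1) (.cons (.kr (nat_lit 256) (nat_lit 65536) (nat_lit 1) (nat_lit 0)) (.cons (.rf (nat_lit 5361) (nat_lit 493858305440582043680)) (.cons (.rf (nat_lit 5392) (nat_lit 493858305440582043680)) (.cons (.rf (nat_lit 5392) (nat_lit 493855739180442814505)) (.cons (.rf (nat_lit 5396) (nat_lit 493858305440582043680)) (.cons (.rf (nat_lit 5409) (nat_lit 493858305440582043680)) (.cons (.rf (nat_lit 5409) (nat_lit 458117738795624400928)) .nil)))))))) .nil)) .nil)),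
 (.br (nat_lit 7) (nat_lit 0) (.cons (.rf (nat_lit 5352) (nat_lit 11584701642934304)) (.cons (.br (nat_lit 4) (nat_lit 1) (.cons (.br (nat_lit 11) (nat_lit 0) (.cons (.rf (nat_lit 5410) (nat_lit 14242959524133701664)) (.cons (.br (nat_lit 11) (nat_lit 0) (.cons (.rf (nat_lit 5410) (nat_lit 14242959524133701664)) .nil)) .nil))) .nil)) (.cons (.rf (nat_lit 5352) (nat_lit 11584699497547808)) .nil))))]

theorem c188 : chkAll C T R L188 (nat_lit 5381) = true := by decide +kernel

theorem l188 : (nat_lit 5381) + L188.length = (nat_lit 5412) := by decide +kernel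

/-- part of the certificates -/
def L189 : List Prf := [(.br (nat_lit 4) (nat_lit 1) (.cons (.rf (nat_lit 5352) (nat_lit 11584701642934304)) (.cons (.rf (nat_lit 5411) (nat_lit 407901468851537952)) (.cons (.br (nat_lit 6) (nat_lit 1) (.cons (.rf (nat_lit 5352) (nat_lit 11584699497547808)) (.cons (.rf (nat_lit 5411) (nat_lit 443930263725115424)) (.cons (.br (nat_lit 4) (nat_lit 1) (.cons (.rf (nat_lit 5352) (nat_lit 11584701642934304)) (.cons (.rf (nat_lit 5411) (nat_lit 479959062889465888)) .nil))) .nil)))) .nil)))),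
 (.br (nat_lit 10) (nat_lit 1) (.cons (.rf (nat_lit 31) (nat_lit 344300609)) (.cons (.br (nat_lit 8) (nat_lit 1) (.cons (.rf (nat_lit 29) (nat_lit 8756289)) (.cons (.br (nat_lit 12) (nat_lit 1) (.cons (.rf (nat_lit 31) (nat_lit 411409473)) (.cons (.ev (nat_lit 79228162532783140360803123201) (nat_lit 1)) .nil))) (.cons (.zr (nat_lit 55340795171082272768) (nat_lit 2422574005713231817998337) (nat_lit 5) (nat_lit 0)) .nil)))) .nil))),
 (.br (nat_lit 10) (nat_lit 1) (.cons (.rf (nat_lit 31) (nat_lit 344300609)) (.cons (.rf (nat_lit 5413) (nat_lit 493858305440582043680)) (.cons (.br (nat_lit 10) (nat_lit 1) (.cons (.rf (nat_lit 31) (nat_lit 344300609)) (.cons (.rf (nat_lit 5413) (nat_lit 493858305440582043680)) .nil))) .nil)))),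
 (.br (nat_lit 8) (nat_lit 1) (.cons (.rf (nat_lit 5414) (nat_lit 493858305440582043680)) (.cons (.rf (nat_lit 29) (nat_lit 8756289)) (.cons (.br (nat_lit 11) (nat_lit 1) (.cons (.ev (nat_lit 309499232333366071627087872) (nat_lit 2)) (.cons (.rf (nat_lit 31) (nat_lit 411409473)) (.cons (.rf (nat_lit 31) (nat_lit 444963905)) .nil)))) .nil)))),
 (.br (nat_lit 8) (nat_lit 1) (.cons (.rf (nat_lit 5414) (nat_lit 493858305440582043680)) (.cons (.rf (nat_lit 29) (nat_lit 8756289)) (.cons (.rf (nat_lit 5415) (nat_lit 493858305440582043680)) (.cons (.br (nat_lit 8) (nat_lit 1) (.cons (.rf (nat_lit 5414) (nat_lit 493858305440582043680)) (.cons (.rf (nat_lit 29) (nat_lit 8756289)) (.cons (.rf (nat_lit 5415) (nat_lit 493858305440582043680)) .nil)))) .nil))))),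
 (.br (nat_lit 10) (nat_lit 1) (.cons (.rf (nat_lit 31) (nat_lit 344173633)) (.cons (.br (nat_lit 8) (nat_lit 1) (.cons (.rf (nat_lit 29) (nat_lit 8756289)) (.cons (.zr (nat_lit 55340234420151911168) (nat_lit 2422574005993607283081217) (nat_lit 5) (nat_lit 0)) (.cons (.br (nat_lit 7) (nat_lit 1) (.cons (.br (nat_lit 12) (nat_lit 1) (.cons (.ev (nat_lit 20680722884384382448622140327684) (nat_lit 3)) .nil)) (.cons (.ev (nat_lit 20282719088679938513093997428993) (nat_lit 1)) .nil))) .nil)))) .nil))),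
 (.br (nat_lit 10) (nat_lit 1) (.cons (.rf (nat_lit 31) (nat_lit 344173633)) (.cons (.rf (nat_lit 5417) (nat_lit 493858305440582043680)) (.cons (.br (nat_lit 10) (nat_lit 1) (.cons (.rf (nat_lit 31) (nat_lit 344173633)) (.cons (.rf (nat_lit 5417) (nat_lit 493858305440582043680)) .nil))) .nil)))),
 (.br (nat_lit 10) (nat_lit 1) (.cons (.rf (nat_lit 5416) (nat_lit 493855739180442814505)) (.cons (.zr (nat_lit 3626777458846086547374848) (nat_lit 4759260252496352772097) (nat_lit 5) (nat_lit 9)) (.cons (.br (nat_lit 7) (nat_lit 1) (.cons (.br (nat_lit 12) (nat_lit 1) (.cons (.ev (nat_lit 79538861190718806809286541313) (nat_lit 1)) .nil)) (.cons (.br (nat_lit 11) (nat_lit 1) (.cons (.ev (nat_lit 79538861190718806809286541313) (nat_lit 1)) .nil)) (.cons (.ev (nat_lit 20282409608374108964410934427649) (nat_lit 1)) .nil)))) .nil)))),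
 (.br (nat_lit 8) (nat_lit 1) (.cons (.rf (nat_lit 5416) (nat_lit 493858305440582043680)) (.cons (.rf (nat_lit 5418) (nat_lit 493858305440582043680)) (.cons (.br (nat_lit 10) (nat_lit 1) (.cons (.rf (nat_lit 5416) (nat_lit 493855739180442814505)) (.cons (.rf (nat_lit 5418) (nat_lit 493855739180442814505)) (.cons (.rf (nat_lit 5419) (nat_lit 493858305440582043680)) (.cons (.br (nat_lit 10) (nat_lit 1) (.cons (.zr (nat_lit 3626777459406837477736448) (nat_lit 4759259972120887689217) (nat_lit 5) (nat_lit 9)) (.cons (.rf (nat_lit 5418) (nat_lit 493855739180442814505)) (.cons (.rf (nat_lit 5419) (nat_lit 493858305440582043680)) .nil)))) .nil))))) .nil)))),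
 (.br (nat_lit 8) (nat_lit 1) (.cons (.rf (nat_lit 5416) (nat_lit 493858305440582043680)) (.cons (.rf (nat_lit 5418) (nat_lit 493858305440582043680)) (.cons (.rf (nat_lit 5420) (nat_lit 493858305440582043680)) (.cons (.br (nat_lit 8) (nat_lit 1) (.cons (.rf (nat_lit 5416) (nat_lit 493858305440582043680)) (.cons (.rf (nat_lit 5418) (nat_lit 493858305440582043680)) (.cons (.rf (nat_lit 5420) (nat_lit 493858305440582043680)) .nil)))) .nil))))),
 (.br (nat_lit 10) (nat_lit 1) (.cons (.rf (nat_lit 5416) (nat_lit 493855739180442814505)) (.cons (.rf (nat_lit 5421) (nat_lit 493858305440582043680)) (.cons (.br (nat_lit 10) (nat_lit 1) (.cons (.ev (nat_lit 313111787352529129086910467) (nat_lit 2)) (.cons (.rf (nat_lit 5421) (nat_lit 493858305440582043680)) .nil))) .nil)))),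
 (.br (nat_lit 10) (nat_lit 1) (.cons (.rf (nat_lit 5416) (nat_lit 493855739180442814505)) (.cons (.rf (nat_lit 5421) (nat_lit 493858305440582043680)) (.cons (.rf (nat_lit 5422) (nat_lit 493858305440582043680)) (.cons (.br (nat_lit 10) (nat_lit 1) (.cons (.rf (nat_lit 5416) (nat_lit 493855739180442814505)) (.cons (.rf (nat_lit 5421) (nat_lit 493858305440582043680)) (.cons (.rf (nat_lit 5422) (nat_lit 493858305440582043680)) .nil)))) .nil))))),
 (.br (nat_lit 8) (nat_lit 1) (.cons (.rf (nat_lit 5416) (nat_lit 493858305440582043680)) (.cons (.rf (nat_lit 5421) (nat_lit 493858305440582043680)) (.cons (.rf (nat_lit 5423) (nat_lit 493858305440582043680)) (.cons (.br (nat_lit 8) (nat_lit 1) (.cons (.rf (nat_lit 5416) (nat_lit 493858305440582043680)) (.cons (.rf (nat_lit 5421) (nat_lit 493858305440582043680)) (.cons (.rf (nat_lit 5423) (nat_lit 493858305440582043680)) .nil)))) .nil))))),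
 (.br (nat_lit 10) (nat_lit 1) (.cons (.rf (nat_lit 31) (nat_lit 344295649)) (.cons (.br (nat_lit 8) (nat_lit 1) (.cons (.rf (nat_lit 29) (nat_lit 8751329)) (.cons (.br (nat_lit 11) (nat_lit 1) (.cons (.rf (nat_lit 31) (nat_lit 411404513)) (.cons (.zr (nat_lit 928455085020440209416781824) (nat_lit 2422574005994706794708993) (nat_lit 5) (nat_lit 0)) .nil))) (.cons (.br (nat_lit 11) (nat_lit 1) (.cons (.zr (nat_lit 928455085020440209416781824) (nat_lit 2422574005994706794708993) (nat_lit 5) (nat_lit 0)) (.cons (.ev (nat_lit 20282409603670117168025255870721) (nat_lit 1)) .nil))) .nil)))) .nil))),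
 (.br (nat_lit 10) (nat_lit 1) (.cons (.rf (nat_lit 31) (nat_lit 344295649)) (.cons (.rf (nat_lit 5425) (nat_lit 493858305440582043680)) (.cons (.br (nat_lit 10) (nat_lit 1) (.cons (.rf (nat_lit 31) (nat_lit 344295649)) (.cons (.rf (nat_lit 5425) (nat_lit 493858305440582043680)) .nil))) .nil)))),
 (.br (nat_lit 7) (nat_lit 1) (.cons (.rf (nat_lit 4211) (nat_lit 5954965950533670)) .nil)),
 (.br (nat_lit 8) (nat_lit 1) (.cons (.br (nat_lit 7) (nat_lit 1) (.cons (.rf (nat_lit 5427) (nat_lit 11584701642934304)) (.cons (.br (nat_lit 9) (nat_lit 1) (.cons (.rf (nat_lit 4211) (nat_lit 5954965950533670)) (.cons (.ev (nat_lit 1208925819897207958011904) (nat_lit 1)) .nil))) .nil))) (.cons (.rf (nat_lit 31) (nat_lit 307497089)) (.cons (.rf (nat_lit 31) (nat_lit 341051521)) .nil)))),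
 (.br (nat_lit 8) (nat_lit 1) (.cons (.rf (nat_lit 5426) (nat_lit 493858305440582043680)) (.cons (.rf (nat_lit 29) (nat_lit 8751329)) (.cons (.br (nat_lit 8) (nat_lit 1) (.cons (.rf (nat_lit 5426) (nat_lit 493858305440582043680)) (.cons (.rf (nat_lit 29) (nat_lit 8751329)) (.cons (.rf (nat_lit 5428) (nat_lit 15071359418927136)) .nil)))) (.cons (.br (nat_lit 8) (nat_lit 1) (.cons (.rf (nat_lit 5426) (nat_lit 493858305440582043680)) (.cons (.rf (nat_lit 29) (nat_lit 8751329)) (.cons (.rf (nat_lit 5428) (nat_lit 15071359418927136)) .nil)))) .nil))))),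
 (.br (nat_lit 9) (nat_lit 1) (.cons (.rf (nat_lit 4096) (nat_lit 8209168733406272)) (.cons (.ev (nat_lit 1208925891672227507601409) (nat_lit 1)) .nil))),
 (.br (nat_lit 10) (nat_lit 1) (.cons (.rf (nat_lit 31) (nat_lit 344009953)) (.cons (.br (nat_lit 2) (nat_lit 1) (.cons (.rf (nat_lit 29) (nat_lit 8751329)) (.cons (.br (nat_lit 8) (nat_lit 1) (.cons (.rf (nat_lit 31) (nat_lit 411118817)) (.cons (.ev (nat_lit 1218389071384239564587266) (nat_lit 2)) .nil))) (.cons (.rf (nat_lit 5430) (nat_lit 15071359418927136)) .nil)))) .nil))),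
 (.br (nat_lit 10) (nat_lit 1) (.cons (.rf (nat_lit 31) (nat_lit 344009953)) (.cons (.br (nat_lit 10) (nat_lit 1) (.cons (.rf (nat_lit 31) (nat_lit 344009953)) (.cons (.rf (nat_lit 5431) (nat_lit 458117738797769787424)) .nil))) (.cons (.rf (nat_lit 5431) (nat_lit 458117738797769787424)) .nil)))),
 (.br (nat_lit 10) (nat_lit 1) (.cons (.rf (nat_lit 5429) (nat_lit 493855739180442814505)) (.cons (.rf (nat_lit 5432) (nat_lit 15393314768601319465)) (.cons (.br (nat_lit 8) (nat_lit 1) (.cons (.rf (nat_lit 5429) (nat_lit 493858305440582043680)) (.cons (.rf (nat_lit 5432) (nat_lit 15395881028740548640)) (.cons (.br (nat_lit 11) (nat_lit 1) (.cons (.zr (nat_lit 928455085020440209416781824) (nat_lit 2422574005994706794708993) (nat_lit 5) (nat_lit 0)) (.cons (.ev (nat_lit 79229376180969518235088060673) (nat_lit 1)) (.cons (.ev (nat_lit 20282409608374036907916424904961) (nat_lit 1)) .nil)))) .nil)))) .nil)))),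
 (.br (nat_lit 8) (nat_lit 1) (.cons (.rf (nat_lit 5429) (nat_lit 493858305440582043680)) (.cons (.rf (nat_lit 5432) (nat_lit 15395881028740548640)) (.cons (.br (nat_lit 10) (nat_lit 1) (.cons (.rf (nat_lit 5429) (nat_lit 493855739180442814505)) (.cons (.rf (nat_lit 5432) (nat_lit 15393314768601319465)) (.cons (.rf (nat_lit 5433) (nat_lit 493855739180442814505)) (.cons (.rf (nat_lit 5433) (nat_lit 493858305440582043680)) .nil))))) .nil)))),
 (.br (nat_lit 8) (nat_lit 1) (.cons (.rf (nat_lit 5429) (nat_lit 493858305440582043680)) (.cons (.rf (nat_lit 5432) (nat_lit 15395881028740548640)) (.cons (.rf (nat_lit 5434) (nat_lit 493858305440582043680)) (.cons (.br (nat_lit 8) (nat_lit 1) (.cons (.rf (nat_lit 5429) (nat_lit 493858305440582043680)) (.cons (.rf (nat_lit 5432) (nat_lit 15395881028740548640)) (.cons (.rf (nat_lit 5434) (nat_lit 493858305440582043680)) .nil)))) .nil))))),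
 (.br (nat_lit 10) (nat_lit 1) (.cons (.rf (nat_lit 5429) (nat_lit 493855739180442814505)) (.cons (.rf (nat_lit 5432) (nat_lit 15395881028740548640)) (.cons (.br (nat_lit 10) (nat_lit 1) (.cons (.rf (nat_lit 5428) (nat_lit 15071281102882857)) (.cons (.rf (nat_lit 5432) (nat_lit 15395881028740548640)) .nil))) .nil)))),
 (.br (nat_lit 10) (nat_lit 1) (.cons (.rf (nat_lit 5429) (nat_lit 493855739180442814505)) (.cons (.rf (nat_lit 5432) (nat_lit 15395881028740548640)) (.cons (.rf (nat_lit 5436) (nat_lit 493858305440582043680)) (.cons (.br (nat_lit 10) (nat_lit 1) (.cons (.rf (nat_lit 5429) (nat_lit 493855739180442814505)) (.cons (.rf (nat_lit 5432) (nat_lit 15395881028740548640)) (.cons (.rf (nat_lit 5436) (nat_lit 493858305440582043680)) .nil)))) .nil))))),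
 (.br (nat_lit 8) (nat_lit 1) (.cons (.rf (nat_lit 5429) (nat_lit 493858305440582043680)) (.cons (.rf (nat_lit 5435) (nat_lit 493858305440582043680)) (.cons (.rf (nat_lit 5437) (nat_lit 493858305440582043680)) (.cons (.br (nat_lit 8) (nat_lit 1) (.cons (.rf (nat_lit 5428) (nat_lit 15071359418927136)) (.cons (.rf (nat_lit 5435) (nat_lit 493858305440582043680)) (.cons (.rf (nat_lit 5437) (nat_lit 493858305440582043680)) .nil)))) .nil))))),
 (.br (nat_lit 13) (nat_lit 1) (.cons (.ev (nat_lit 20282719088661491769020287877376) (nat_lit 1)) (.cons (.br (nat_lit 8) (nat_lit 1) (.cons (.br (nat_lit 11) (nat_lit 1) (.cons (.zr (nat_lit 3626777675016669705011200) (nat_lit 618974778902943733297184769) (nat_lit 5) (nat_lit 9)) .nil)) (.cons (.ev (nat_lit 20282719088661563827713820655616) (nat_lit 1)) (.cons (.br (nat_lit 10) (nat_lit 1) (.cons (.ev (nat_lit 20680101486957688224927487034118) (nat_lit 3)) .nil)) .nil)))) .nil))),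
 (.br (nat_lit 13) (nat_lit 1) (.cons (.ev (nat_lit 20282719088661491769020287877376) (nat_lit 1)) (.cons (.br (nat_lit 12) (nat_lit 1) (.cons (.ev (nat_lit 20282409603670189507094287220993) (nat_lit 1)) (.cons (.zr (nat_lit 237684487542793012797811720960) (nat_lit 40564819212025707613338653032449) (nat_lit 5) (nat_lit 3)) .nil))) .nil))),
 (.br (nat_lit 13) (nat_lit 1) (.cons (.rf (nat_lit 5439) (nat_lit 493858305440582043680)) (.cons (.rf (nat_lit 5440) (nat_lit 493858305440582043680)) (.cons (.br (nat_lit 13) (nat_lit 1) (.cons (.rf (nat_lit 5439) (nat_lit 493858305440582043680)) (.cons (.rf (nat_lit 5440) (nat_lit 493858305440582043680)) .nil))) .nil)))),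
 (.br (nat_lit 13) (nat_lit 1) (.cons (.ev (nat_lit 20282719088661491769020287877376) (nat_lit 1)) (.cons (.br (nat_lit 10) (nat_lit 1) (.cons (.br (nat_lit 8) (nat_lit 1) (.cons (.zr (nat_lit 3626777675016669705011200) (nat_lit 618974778902943733297184769) (nat_lit 5) (nat_lit 9)) .nil)) (.cons (.ev (nat_lit 20282720297587311384744662401281) (nat_lit 1)) .nil))) .nil))),
 (.br (nat_lit 13) (nat_lit 1) (.cons (.rf (nat_lit 5441) (nat_lit 493858305440582043680)) (.cons (.rf (nat_lit 5442) (nat_lit 493858305440582043680)) (.cons (.br (nat_lit 13) (nat_lit 1) (.cons (.rf (nat_lit 5441) (nat_lit 493858305440582043680)) (.cons (.rf (nat_lit 5442) (nat_lit 493858305440582043680)) .nil))) .nil)))),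
 (.br (nat_lit 13) (nat_lit 1) (.cons (.rf (nat_lit 5441) (nat_lit 493858305440582043680)) (.cons (.rf (nat_lit 5443) (nat_lit 493858305440582043680)) (.cons (.br (nat_lit 13) (nat_lit 1) (.cons (.rf (nat_lit 5441) (nat_lit 493858305440582043680)) (.cons (.rf (nat_lit 5443) (nat_lit 493858305440582043680)) .nil))) .nil)))),
 (.br (nat_lit 13) (nat_lit 1) (.cons (.rf (nat_lit 5441) (nat_lit 493858305440582043680)) (.cons (.rf (nat_lit 5443) (nat_lit 493858305440582043680)) (.cons (.rf (nat_lit 5444) (nat_lit 493858305440582043680)) (.cons (.br (nat_lit 13) (nat_lit 1) (.cons (.rf (nat_lit 5441) (nat_lit 493858305440582043680)) (.cons (.rf (nat_lit 5443) (nat_lit 493858305440582043680)) (.cons (.rf (nat_lit 5444) (nat_lit 493858305440582043680)) .nil)))) .nil)))))]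

theorem c189 : chkAll C T R L189 (nat_lit 5412) = true := by decide +kernel

theorem l189 : (nat_lit 5412) + L189.length = (nat_lit 5446) := by decide +kernel

/-- part of the certificates -/
def L190 : List Prf := [(.br (nat_lit 11) (nat_lit 1) (.cons (.kr (nat_lit 20361637766165934761540795302144) (nat_lit 310693954159761365646966784) (nat_lit 1) (nat_lit 0)) .nil)),
 (.br (nat_lit 12) (nat_lit 1) (.cons (.rf (nat_lit 5445) (nat_lit 493858305440582043680)) (.cons (.br (nat_lit 7) (nat_lit 1) (.cons (.ev (nat_lit 79228162532711081667270344961) (nat_lit 1)) (.cons (.kr (nat_lit 1208925819614629191483392) (nat_lit 309489732187827938369994752) (nat_lit 3) (nat_lit 0)) (.cons (.br (nat_lit 8) (nat_lit 1) (.cons (.rf (nat_lit 5177) (nat_lit 13331859499)) (.cons (.br (nat_lit 10) (nat_lit 1) (.cons (.ev (nat_lit 79538861190718524234798268673) (nat_lit 1)) .nil)) .nil))) .nil)))) (.cons (.br (nat_lit 8) (nat_lit 1) (.cons (.ev (nat_lit 79228162532783140360803123201) (nat_lit 1)) (.cons (.br (nat_lit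 7) (nat_lit 1) (.cons (.ev (nat_lit 311917065525568690402164995) (nat_lit 2)) (.cons (.rf (nat_lit 5446) (nat_lit 493858305440582043680)) .nil))) (.cons (.ev (nat_lit 79537652264898910709446869248) (nat_lit 1)) (.cons (.br (nat_lit 10) (nat_lit 1) (.cons (.br (nat_lit 11) (nat_lit 1) (.cons (.ev (nat_lit 20363812652141926719764182401280) (nat_lit 3)) .nil)) (.cons (.zr (nat_lit 3626777458846086564152064) (nat_lit 618974778902942633785556993) (nat_lit 5) (nat_lit 9)) (.cons (.kr (nat_lit 20282410812577490038576442769409) (nat_lit 79228167255077564541193682944) (nat_lit 0) (nat_lit 1)) .nil)))) .nil))))) .nil)))),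
 (.br (nat_lit 10) (nat_lit 1) (.cons (.kr (nat_lit 20361637766165934761540795302144) (nat_lit 310693954159761365646966784) (nat_lit 1) (nat_lit 0)) .nil)),
 (.br (nat_lit 12) (nat_lit 1) (.cons (.ev (nat_lit 79537647524158021731300147456) (nat_lit 1)) (.cons (.rf (nat_lit 5447) (nat_lit 493858305440582043680)) (.cons (.br (nat_lit 7) (nat_lit 1) (.cons (.ev (nat_lit 79228167236703160636027240705) (nat_lit 1)) (.cons (.br (nat_lit 8) (nat_lit 1) (.cons (.ev (nat_lit 79229371458530697400234803456) (nat_lit 1)) (.cons (.br (nat_lit 10) (nat_lit 1) (.cons (.ev (nat_lit 20363812652141926719764182401280) (nat_lit 3)) .nil)) .nil))) (.cons (.br (nat_lit 8) (nat_lit 1) (.cons (.rf (nat_lit 5448) (nat_lit 493858305440582043680)) (.cons (.ev (nat_lit 20282719093402305277434307608576) (nat_lit 1)) .nil))) .nil)))) .nil)))),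
 (.br (nat_lit 12) (nat_lit 1) (.cons (.rf (nat_lit 5445) (nat_lit 493858305440582043680)) (.cons (.rf (nat_lit 5447) (nat_lit 493858305440582043680)) (.cons (.rf (nat_lit 5449) (nat_lit 493858305440582043680)) (.cons (.br (nat_lit 12) (nat_lit 1) (.cons (.rf (nat_lit 5445) (nat_lit 493858305440582043680)) (.cons (.rf (nat_lit 5447) (nat_lit 493858305440582043680)) (.cons (.rf (nat_lit 5449) (nat_lit 493858305440582043680)) .nil)))) .nil))))),
 (.br (nat_lit 12) (nat_lit 1) (.cons (.rf (nat_lit 84) (nat_lit 8938138849)) (.cons (.rf (nat_lit 5450) (nat_lit 493858305440582043680)) (.cons (.br (nat_lit 7) (nat_lit 1) (.cons (.br (nat_lit 8) (nat_lit 1) (.cons (.ev (nat_lit 158457538732271461371790557699) (nat_lit 2)) (.cons (.br (nat_lit 10) (nat_lit 1) (.cons (.ev (nat_lit 79229371458530697400234803456) (nat_lit 1)) .nil)) .nil))) (.cons (.ev (nat_lit 79228167236703160636027240705) (nat_lit 1)) (.cons (.br (nat_lit 8) (nat_lit 1) (.cons (.rf (nat_lit 5448) (nat_lit 493855739180441797705)) (.cons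 (.zr (nat_lit 60847228810955011271841821163520) (nat_lit 158456329750895440635516420609) (nat_lit 5) (nat_lit 4)) .nil))) .nil)))) .nil)))),
 (.br (nat_lit 12) (nat_lit 1) (.cons (.rf (nat_lit 5445) (nat_lit 493858305440582043680)) (.cons (.rf (nat_lit 5450) (nat_lit 493858305440582043680)) (.cons (.rf (nat_lit 5451) (nat_lit 493858305440582043680)) (.cons (.br (nat_lit 12) (nat_lit 1) (.cons (.rf (nat_lit 5445) (nat_lit 493858305440582043680)) (.cons (.rf (nat_lit 5450) (nat_lit 493858305440582043680)) (.cons (.rf (nat_lit 5451) (nat_lit 493858305440582043680)) .nil)))) .nil))))),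
 (.br (nat_lit 12) (nat_lit 1) (.cons (.rf (nat_lit 5445) (nat_lit 493858305440582043680)) (.cons (.rf (nat_lit 5450) (nat_lit 493858305440582043680)) (.cons (.rf (nat_lit 5452) (nat_lit 493858305440582043680)) (.cons (.br (nat_lit 12) (nat_lit 1) (.cons (.rf (nat_lit 5445) (nat_lit 493858305440582043680)) (.cons (.rf (nat_lit 5450) (nat_lit 493858305440582043680)) (.cons (.rf (nat_lit 5452) (nat_lit 493858305440582043680)) .nil)))) .nil))))),
 (.br (nat_lit 12) (nat_lit 1) (.cons (.rf (nat_lit 5445) (nat_lit 493858305440582043680)) (.cons (.rf (nat_lit 5450) (nat_lit 493858305440582043680)) (.cons (.rf (nat_lit 5452) (nat_lit 493858305440582043680)) (.cons (.rf (nat_lit 5453) (nat_lit 493858305440582043680)) (.cons (.br (nat_lit 12) (nat_lit 1) (.cons (.rf (nat_lit 5445) (nat_lit 493858305440582043680)) (.cons (.rf (nat_lit 5450) (nat_lit 493858305440582043680)) (.cons (.rf (nat_lit 5452) (nat_lit 493858305440582043680)) (.cons (.rf (nat_lit 5453) (nat_lit 493858305440582043680)) .nil)))))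 .nil)))))),
 (.br (nat_lit 2) (nat_lit 1) (.cons (.rf (nat_lit 1339) (nat_lit 357933585633)) (.cons (.rf (nat_lit 1339) (nat_lit 289216369698)) (.cons (.rf (nat_lit 31) (nat_lit 344163682)) (.cons (.br (nat_lit 10) (nat_lit 1) (.cons (.rf (nat_lit 84) (nat_lit 13163867362)) (.cons (.rf (nat_lit 5044) (nat_lit 14240393054649457737)) (.cons (.br (nat_lit 8) (nat_lit 1) (.cons (.rf (nat_lit 84) (nat_lit 13229075490)) (.cons (.br (nat_lit 11) (nat_lit 1) (.cons (.ev (nat_lit 79537647542604765805009699073) (nat_lit 1)) (.cons (.br (nat_lit 12) (nat_lit 1) (.cons (.ev (nat_lit 20679487352641322297876952449282) (nat_lit 3)) .nil)) .nil))) (.cons (.br (nat_lit 11) (nat_lit 1) (.cons (.zr (nat_lit 3626777459406837544845312) (nat_lit 1547429808366697464494817281) (nat_lit 5) (nat_lit 9)) (.cons (.zr (nat_lit 1547425067913757387523162115) (nat_lit 4845148011707938612707328) (nat_lit 10) (nat_lit 0)) .nil))) .nil)))) .nil)))) (.cons (.br (nat_lit 8) (nat_lit 1) (.cons (.rf (nat_lit 84) (nat_lit 14302817314))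 (.cons (.br (nat_lit 10) (nat_lit 1) (.cons (.rf (nat_lit 84) (nat_lit 14237609186)) (.cons (.br (nat_lit 12) (nat_lit 1) (.cons (.rf (nat_lit 5177) (nat_lit 13331864619)) (.cons (.ev (nat_lit 79229376180897461740578537473) (nat_lit 1)) .nil))) (.cons (.br (nat_lit 11) (nat_lit 1) (.cons (.br (nat_lit 12) (nat_lit 1) (.cons (.zr (nat_lit 793829087971042255517834545664) (nat_lit 10880406166604182272081927) (nat_lit 10) (nat_lit 9)) .nil)) (.cons (.zr (nat_lit 1547425067913757387523162115) (nat_lit 4845148011707938612707328) (nat_lit 10) (nat_lit 0)) .nil))) .nil)))) (.cons (.br (nat_lit 10) (nat_lit 1) (.cons (.rf (nat_lit 84) (nat_lit 14237609186)) (.cons (.br (nat_lit 12) (nat_lit 1) (.cons (.zr (nat_lit 1547425067913757387523162115) (nat_lit 4845148011707938612707328) (nat_lit 10) (nat_lit 0)) (.cons (.zr (nat_lit 101412048018258712407706513178624) (nat_lit 2422610900045804150587393) (nat_lit 5) (nat_lit 5)) .nil))) (.cons (.ev (nat_lit 20282410817299928580143932571648) (nat_lit 1)) .nil))))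 .nil)))) .nil)))))),
 (.br (nat_lit 8) (nat_lit 1) (.cons (.rf (nat_lit 82) (nat_lit 13229197351)) (.cons (.rf (nat_lit 2594) (nat_lit 11141384551)) (.cons (.br (nat_lit 2) (nat_lit 1) (.cons (.rf (nat_lit 58) (nat_lit 10853441)) (.cons (.br (nat_lit 10) (nat_lit 1) (.cons (.rf (nat_lit 84) (nat_lit 9003150561)) (.cons (.ev (nat_lit 1218389071384239564587266) (nat_lit 2)) .nil))) (.cons (.rf (nat_lit 3845) (nat_lit 9443717525178409)) .nil)))) .nil)))),
 (.br (nat_lit 8) (nat_lit 1) (.cons (.rf (nat_lit 3822) (nat_lit 356558148647)) (.cons (.rf (nat_lit 1339) (nat_lit 287840769063)) (.cons (.br (nat_lit 8) (nat_lit 1) (.cons (.rf (nat_lit 82) (nat_lit 13229197351)) (.cons (.rf (nat_lit 2594) (nat_lit 11141384551)) (.cons (.rf (nat_lit 5456) (nat_lit 458117738797769787424)) .nil)))) (.cons (.rf (nat_lit 5456) (nat_lit 458117738797769787424)) .nil))))),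
 (.br (nat_lit 8) (nat_lit 1) (.cons (.ev (nat_lit 313111787352529129086910467) (nat_lit 2)) (.cons (.br (nat_lit 12) (nat_lit 1) (.cons (.ev (nat_lit 79537647542604765805009699073) (nat_lit 1)) (.cons (.rf (nat_lit 3292) (nat_lit 310568628401945609449)) .nil))) (.cons (.br (nat_lit 11) (nat_lit 1) (.cons (.br (nat_lit 12) (nat_lit 1) (.cons (.ev (nat_lit 79229371458530697400234803456) (nat_lit 1)) .nil)) (.cons (.ev (nat_lit 20282720302328196949661815144705) (nat_lit 1)) .nil))) .nil)))),
 (.br (nat_lit 8) (nat_lit 1) (.cons (.rf (nat_lit 5458) (nat_lit 493858305440582043680)) (.cons (.ev (nat_lit 313111787352529129086910467) (nat_lit 2)) (.cons (.br (nat_lit 11) (nat_lit 1) (.cons (.br (nat_lit 12) (nat_lit 1) (.cons (.ev (nat_lit 475989163531627626915044984576) (nat_lit 3)) .nil)) (.cons (.ev (nat_lit 79229376180969518235088060673) (nat_lit 1)) (.cons (.ev (nat_lit 20282409603670189507094287220993) (nat_lit 1)) .nil)))) .nil)))),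
 (.br (nat_lit 10) (nat_lit 1) (.cons (.rf (nat_lit 5454) (nat_lit 493858305440582043680)) (.cons (.rf (nat_lit 5455) (nat_lit 493858305440582043680)) (.cons (.rf (nat_lit 5457) (nat_lit 15395881028740548640)) (.cons (.br (nat_lit 8) (nat_lit 1) (.cons (.rf (nat_lit 5458) (nat_lit 493858305440582043680)) (.cons (.ev (nat_lit 313111787352529129086910467) (nat_lit 2)) (.cons (.rf (nat_lit 5459) (nat_lit 493858305440582043680)) (.cons (.br (nat_lit 8) (nat_lit 1) (.cons (.rf (nat_lit 5458) (nat_lit 493858305440582043680)) (.cons (.ev (nat_lit 313111787352529129086910467) (nat_lit 2)) (.cons (.rf (nat_lit 5459) (nat_lit 493858305440582043680)) .nil)))) .nil))))) .nil))))),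
 (.br (nat_lit 10) (nat_lit 1) (.cons (.rf (nat_lit 5454) (nat_lit 493858305440582043680)) (.cons (.rf (nat_lit 5455) (nat_lit 493858305440582043680)) (.cons (.rf (nat_lit 5457) (nat_lit 15395881028740548640)) (.cons (.rf (nat_lit 5460) (nat_lit 493858305440582043680)) (.cons (.br (nat_lit 10) (nat_lit 1) (.cons (.rf (nat_lit 5454) (nat_lit 493858305440582043680)) (.cons (.rf (nat_lit 5455) (nat_lit 493858305440582043680)) (.cons (.rf (nat_lit 5457) (nat_lit 15395881028740548640)) (.cons (.rf (nat_lit 5460) (nat_lit 493858305440582043680)) .nil))))) .nil)))))),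
 (.br (nat_lit 2) (nat_lit 1) (.cons (.rf (nat_lit 31) (nat_lit 344294626)) (.cons (.rf (nat_lit 1339) (nat_lit 357799368033)) (.cons (.rf (nat_lit 1339) (nat_lit 289082283042)) (.cons (.br (nat_lit 7) (nat_lit 1) (.cons (.rf (nat_lit 84) (nat_lit 13229202466)) (.cons (.rf (nat_lit 84) (nat_lit 13163867362)) (.cons (.br (nat_lit 8) (nat_lit 1) (.cons (.ev (nat_lit 79537652246524223130246840321) (nat_lit 1)) (.cons (.br (nat_lit 10) (nat_lit 1) (.cons (.ev (nat_lit 158767023741948408677900747011) (nat_lit 2)) (.cons (.br (nat_lit 12) (nat_lit 1) (.cons (.ev (nat_lit 21317024036316947029750933554442) (nat_lit 4)) .nil)) .nil))) .nil))) (.cons (.br (nat_lit 8) (nat_lit 1) (.cons (.br (nat_lit 10) (nat_lit 1) (.cons (.ev (nat_lit 158769441556838264968317108995) (nat_lit 2)) (.cons (.br (nat_lit 12) (nat_lit 1) (.cons (.ev (nat_lit 20681965631866824290123521657102) (nat_lit 4)) .nil)) .nil))) (.cons (.br (nat_lit 10) (nat_lit 1) (.cons (.br (nat_lit 12) (nat_lit 1) (.cons (.ev (nat_lit 20681349145774913988282982796032)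 (nat_lit 4)) .nil)) (.cons (.ev (nat_lit 20282720297605758128818371952896) (nat_lit 1)) .nil))) .nil))) .nil))))) (.cons (.br (nat_lit 7) (nat_lit 1) (.cons (.rf (nat_lit 84) (nat_lit 14302944290)) (.cons (.rf (nat_lit 84) (nat_lit 14237609186)) (.cons (.br (nat_lit 8) (nat_lit 1) (.cons (.br (nat_lit 10) (nat_lit 1) (.cons (.rf (nat_lit 5177) (nat_lit 13331868711)) (.cons (.br (nat_lit 12) (nat_lit 1) (.cons (.ev (nat_lit 158769441593731753115736212225) (nat_lit 2)) .nil)) .nil))) (.cons (.rf (nat_lit 4091) (nat_lit 366447959378272)) .nil))) (.cons (.rf (nat_lit 3189) (nat_lit 302879514411763945)) .nil))))) .nil)))))),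
 (.br (nat_lit 7) (nat_lit 1) (.cons (.br (nat_lit 12) (nat_lit 1) (.cons (.ev (nat_lit 79538856449905578770731958273) (nat_lit 1)) .nil)) (.cons (.br (nat_lit 11) (nat_lit 1) (.cons (.ev (nat_lit 79538856449905578770731958273) (nat_lit 1)) .nil)) (.cons (.ev (nat_lit 20282409608374108964410934427649) (nat_lit 1)) .nil)))),
 (.br (nat_lit 7) (nat_lit 1) (.cons (.br (nat_lit 12) (nat_lit 1) (.cons (.ev (nat_lit 20678865955362200905270249718020) (nat_lit 3)) .nil)) (.cons (.ev (nat_lit 79538856449905578770731958273) (nat_lit 1)) (.cons (.ev (nat_lit 20282409608374036907916424904961) (nat_lit 1)) .nil)))),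
 (.br (nat_lit 13) (nat_lit 1) (.cons (.br (nat_lit 13) (nat_lit 1) (.cons (.ev (nat_lit 20282409608374108964410934427649) (nat_lit 1)) (.cons (.ev (nat_lit 20282409608374036907916424904961) (nat_lit 1)) (.cons (.ev (nat_lit 20282410812577490320051419545601) (nat_lit 1)) .nil)))) (.cons (.rf (nat_lit 5463) (nat_lit 493858305440582043680)) (.cons (.rf (nat_lit 5464) (nat_lit 493858305440582043680)) (.cons (.br (nat_lit 13) (nat_lit 1) (.cons (.ev (nat_lit 20282410812577490320051419545601) (nat_lit 1)) (.cons (.rf (nat_lit 5463) (nat_lit 493858305440582043680)) (.cons (.rf (nat_lit 5464) (nat_lit 493858305440582043680)) .nil)))) .nil))))),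
 (.br (nat_lit 2) (nat_lit 1) (.cons (.kr (nat_lit 20361637766165934761540795302144) (nat_lit 310693954159761365646966784) (nat_lit 1) (nat_lit 0)) .nil)),
 (.br (nat_lit 12) (nat_lit 1) (.cons (.rf (nat_lit 5465) (nat_lit 493858305440582043680)) (.cons (.ev (nat_lit 79229376180897461740578537473) (nat_lit 1)) (.cons (.br (nat_lit 8) (nat_lit 1) (.cons (.rf (nat_lit 82) (nat_lit 11148822567)) (.cons (.ev (nat_lit 79229376180969518235088060673) (nat_lit 1)) .nil))) (.cons (.br (nat_lit 8) (nat_lit 1) (.cons (.br (nat_lit 11) (nat_lit 1) (.cons (.zr (nat_lit 928455085020440209416781824) (nat_lit 2422574005994706794708993) (nat_lit 5) (nat_lit 0)) .nil)) (.cons (.ev (nat_lit 79229376180969518235088060673) (nat_lit 1)) (.cons (.rf (nat_lit 5466) (nat_lit 493858305440582043680)) .nil)))) .nil))))),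
 (.br (nat_lit 12) (nat_lit 1) (.cons (.rf (nat_lit 5465) (nat_lit 493858305440582043680)) (.cons (.ev (nat_lit 79229376180897461740578537473) (nat_lit 1)) (.cons (.ev (nat_lit 79229371440083953326525251841) (nat_lit 1)) (.cons (.br (nat_lit 2) (nat_lit 1) (.cons (.br (nat_lit 11) (nat_lit 1) (.cons (.zr (nat_lit 928455085020440209416781824) (nat_lit 2422574005994706794708993) (nat_lit 5) (nat_lit 0)) .nil)) (.cons (.br (nat_lit 7) (nat_lit 1) (.cons (.zr (nat_lit 928455085020440209416781824) (nat_lit 2422574005994706794708993) (nat_lit 5) (nat_lit 0)) .nil)) (.cons (.ev (nat_lit 79228167236631101942460907521) (nat_lit 1)) .nil)))) .nil))))),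
 (.br (nat_lit 12) (nat_lit 1) (.cons (.rf (nat_lit 5465) (nat_lit 493858305440582043680)) (.cons (.rf (nat_lit 5467) (nat_lit 493858305440582043680)) (.cons (.ev (nat_lit 79229371440083953326525251841) (nat_lit 1)) (.cons (.br (nat_lit 2) (nat_lit 1) (.cons (.kr (nat_lit 281474976776192) (nat_lit 309485009893402662762708992) (nat_lit 2) (nat_lit 0)) (.cons (.br (nat_lit 7) (nat_lit 1) (.cons (.zr (nat_lit 928455085020440209416781824) (nat_lit 2422574005994706794708993) (nat_lit 5) (nat_lit 0)) .nil)) (.cons (.br (nat_lit 7) (nat_lit 1) (.cons (.zr (nat_lit 55340795171082272768) (nat_lit 2422574005713231817998337) (nat_lit 5) (nat_lit 0)) .nil)) .nil)))) .nil))))),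
 (.br (nat_lit 10) (nat_lit 1) (.cons (.rf (nat_lit 5454) (nat_lit 493858305440582043680)) (.cons (.rf (nat_lit 5461) (nat_lit 493858305440582043680)) (.cons (.rf (nat_lit 5462) (nat_lit 493858305440582043680)) (.cons (.br (nat_lit 12) (nat_lit 1) (.cons (.rf (nat_lit 5465) (nat_lit 493858305440582043680)) (.cons (.rf (nat_lit 5467) (nat_lit 493858305440582043680)) (.cons (.rf (nat_lit 5468) (nat_lit 493858305440582043680)) (.cons (.rf (nat_lit 5469) (nat_lit 493858305440582043680)) (.cons (.br (nat_lit 12) (nat_lit 1) (.cons (.rf (nat_lit 5465) (nat_lit 493858305440582043680)) (.cons (.rf (nat_lit 5467) (nat_lit 493858305440582043680)) (.cons (.rf (nat_lit 5468) (nat_lit 493858305440582043680)) (.cons (.rf (nat_lit 5469) (nat_lit 493858305440582043680)) .nil))))) .nil)))))) .nil))))),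
 (.br (nat_lit 10) (nat_lit 1) (.cons (.rf (nat_lit 5454) (nat_lit 493858305440582043680)) (.cons (.rf (nat_lit 5461) (nat_lit 493858305440582043680)) (.cons (.rf (nat_lit 5462) (nat_lit 493858305440582043680)) (.cons (.rf (nat_lit 5470) (nat_lit 493858305440582043680)) (.cons (.br (nat_lit 10) (nat_lit 1) (.cons (.rf (nat_lit 5454) (nat_lit 493858305440582043680)) (.cons (.rf (nat_lit 5461) (nat_lit 493858305440582043680)) (.cons (.rf (nat_lit 5462) (nat_lit 493858305440582043680)) (.cons (.rf (nat_lit 5470) (nat_lit 493858305440582043680)) .nil))))) .nil))))))]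

theorem c190 : chkAll C T R L190 (nat_lit 5446) = true := by decide +kernel

theorem l190 : (nat_lit 5446) + L190.length = (nat_lit 5472) := by decide +kernel

/-- part of the certificates -/
def L191 : List Prf := [(.br (nat_lit 12) (nat_lit 1) (.cons (.rf (nat_lit 5140) (nat_lit 455881387122454792233)) (.cons (.zr (nat_lit 1223092919907663074361600) (nat_lit 1237940113072357677838893058) (nat_lit 10) (nat_lit 9)) (.cons (.br (nat_lit 12) (nat_lit 1) (.cons (.ev (nat_lit 79537647524085965236757069824) (nat_lit 1)) (.cons (.zr (nat_lit 1223092919907663074361600) (nat_lit 1237940113072357677838893058) (nat_lit 10) (nat_lit 9)) .nil))) .nil)))),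
 (.br (nat_lit 2) (nat_lit 1) (.cons (.kr (nat_lit 1) (nat_lit 18446744073709551616) (nat_lit 0) (nat_lit 1)) (.cons (.rf (nat_lit 4775) (nat_lit 458078332128190399840)) (.cons (.br (nat_lit 8) (nat_lit 1) (.cons (.br (nat_lit 12) (nat_lit 1) (.cons (.ev (nat_lit 79228167236631101942460907521) (nat_lit 1)) .nil)) (.cons (.ev (nat_lit 20282719088680010571787530207233) (nat_lit 1)) .nil))) .nil)))),
 (.br (nat_lit 8) (nat_lit 1) (.cons (.zr (nat_lit 1223092919907663074361600) (nat_lit 1237940113072357677838893058) (nat_lit 10) (nat_lit 9)) (.cons (.rf (nat_lit 5473) (nat_lit 493858305440582043680)) (.cons (.br (nat_lit 2) (nat_lit 1) (.cons (.rf (nat_lit 5428) (nat_lit 15071359418926144)) (.cons (.ev (nat_lit 79538861190718524234798268673) (nat_lit 1)) (.cons (.br (nat_lit 7) (nat_lit 1) (.cons (.ev (nat_lit 79538861172271780161088717056) (nat_lit 1)) .nil)) .nil)))) .nil)))),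
 (.br (nat_lit 10) (nat_lit 1) (.cons (.rf (nat_lit 5454) (nat_lit 493858305440582043680)) (.cons (.rf (nat_lit 5457) (nat_lit 15395881028740548640)) (.cons (.rf (nat_lit 5471) (nat_lit 493858305440582043680)) (.cons (.br (nat_lit 8) (nat_lit 1) (.cons (.rf (nat_lit 5472) (nat_lit 493858305440582043680)) (.cons (.rf (nat_lit 5473) (nat_lit 493858305440582043680)) (.cons (.rf (nat_lit 5474) (nat_lit 493858305440582043680)) (.cons (.br (nat_lit 8) (nat_lit 1) (.cons (.rf (nat_lit 5472) (nat_lit 493858305440582043680)) (.cons (.rf (nat_lit 5473) (nat_lit 493858305440582043680)) (.cons (.rf (nat_lit 5474) (nat_lit 493858305440582043680)) .nil)))) .nil))))) .nil))))),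
 (.br (nat_lit 10) (nat_lit 1) (.cons (.rf (nat_lit 5454) (nat_lit 493858305440582043680)) (.cons (.rf (nat_lit 5457) (nat_lit 15395881028740548640)) (.cons (.rf (nat_lit 5471) (nat_lit 493858305440582043680)) (.cons (.rf (nat_lit 5475) (nat_lit 493858305440582043680)) (.cons (.br (nat_lit 10) (nat_lit 1) (.cons (.rf (nat_lit 5454) (nat_lit 493858305440582043680)) (.cons (.rf (nat_lit 5457) (nat_lit 15395881028740548640)) (.cons (.rf (nat_lit 5471) (nat_lit 493858305440582043680)) (.cons (.rf (nat_lit 5475) (nat_lit 493858305440582043680)) .nil))))) .nil)))))),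
 (.br (nat_lit 10) (nat_lit 1) (.cons (.rf (nat_lit 5454) (nat_lit 493858305440582043680)) (.cons (.rf (nat_lit 5461) (nat_lit 493858305440582043680)) (.cons (.rf (nat_lit 5471) (nat_lit 493858305440582043680)) (.cons (.rf (nat_lit 5476) (nat_lit 493858305440582043680)) (.cons (.br (nat_lit 10) (nat_lit 1) (.cons (.rf (nat_lit 5454) (nat_lit 493858305440582043680)) (.cons (.rf (nat_lit 5461) (nat_lit 493858305440582043680)) (.cons (.rf (nat_lit 5471) (nat_lit 493858305440582043680)) (.cons (.rf (nat_lit 5476) (nat_lit 493858305440582043680)) .nil))))) .nil)))))),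
 (.br (nat_lit 10) (nat_lit 1) (.cons (.rf (nat_lit 5454) (nat_lit 493858305440582043680)) (.cons (.rf (nat_lit 5461) (nat_lit 493858305440582043680)) (.cons (.rf (nat_lit 5471) (nat_lit 493858305440582043680)) (.cons (.rf (nat_lit 5476) (nat_lit 493858305440582043680)) (.cons (.rf (nat_lit 5477) (nat_lit 493858305440582043680)) (.cons (.br (nat_lit 10) (nat_lit 1) (.cons (.rf (nat_lit 5454) (nat_lit 493858305440582043680)) (.cons (.rf (nat_lit 5461) (nat_lit 493858305440582043680)) (.cons (.rf (nat_lit 5471) (nat_lit 493858305440582043680)) (.cons (.rf (nat_lit 5476) (nat_lit 493858305440582043680)) (.cons (.rf (nat_lit 5477) (nat_lit 493858305440582043680)) .nil)))))) .nil))))))),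
 (.br (nat_lit 8) (nat_lit 1) (.cons (.rf (nat_lit 5177) (nat_lit 14372052043)) (.cons (.ev (nat_lit 20282719093402304997058842460416) (nat_lit 1)) .nil))),
 (.br (nat_lit 13) (nat_lit 1) (.cons (.rf (nat_lit 5479) (nat_lit 493858305440582043680)) (.cons (.br (nat_lit 8) (nat_lit 1) (.cons (.ev (nat_lit 20282410812577490320051419545601) (nat_lit 1)) (.cons (.br (nat_lit 10) (nat_lit 1) (.cons (.ev (nat_lit 313111787352529129086910467) (nat_lit 2)) .nil)) (.cons (.br (nat_lit 10) (nat_lit 1) (.cons (.ev (nat_lit 79229376162450435092380713216) (nat_lit 1)) .nil)) .nil)))) .nil))),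
 (.br (nat_lit 13) (nat_lit 1) (.cons (.rf (nat_lit 5480) (nat_lit 493858305440582043680)) (.cons (.br (nat_lit 13) (nat_lit 1) (.cons (.rf (nat_lit 5479) (nat_lit 493858305440582043680)) (.cons (.ev (nat_lit 20282719088661491769020287877376) (nat_lit 1)) .nil))) (.cons (.br (nat_lit 13) (nat_lit 1) (.cons (.rf (nat_lit 5480) (nat_lit 493858305440582043680)) (.cons (.ev (nat_lit 20282719088661491769020287877376) (nat_lit 1)) .nil))) .nil)))),
 (.br (nat_lit 13) (nat_lit 1) (.cons (.rf (nat_lit 5479) (nat_lit 493858305440582043680)) (.cons (.br (nat_lit 12) (nat_lit 1) (.cons (.ev (nat_lit 20520094095916974879219157827841) (nat_lit 2)) (.cons (.ev (nat_lit 79537652246452447011202465793) (nat_lit 1)) .nil))) .nil))),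
 (.br (nat_lit 13) (nat_lit 1) (.cons (.rf (nat_lit 5481) (nat_lit 493858305440582043680)) (.cons (.rf (nat_lit 5482) (nat_lit 493858305440582043680)) (.cons (.br (nat_lit 13) (nat_lit 1) (.cons (.rf (nat_lit 5481) (nat_lit 493858305440582043680)) (.cons (.rf (nat_lit 5482) (nat_lit 493858305440582043680)) .nil))) .nil)))),
 (.br (nat_lit 13) (nat_lit 1) (.cons (.rf (nat_lit 5481) (nat_lit 493858305440582043680)) (.cons (.rf (nat_lit 5483) (nat_lit 493858305440582043680)) (.cons (.br (nat_lit 13) (nat_lit 1) (.cons (.ev (nat_lit 20282719088661491769020287877376) (nat_lit 1)) (.cons (.rf (nat_lit 5483) (nat_lit 493858305440582043680)) .nil))) .nil)))),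
 (.br (nat_lit 13) (nat_lit 1) (.cons (.rf (nat_lit 5481) (nat_lit 493858305440582043680)) (.cons (.rf (nat_lit 5483) (nat_lit 493858305440582043680)) (.cons (.rf (nat_lit 5484) (nat_lit 493858305440582043680)) (.cons (.br (nat_lit 13) (nat_lit 1) (.cons (.rf (nat_lit 5481) (nat_lit 493858305440582043680)) (.cons (.rf (nat_lit 5483) (nat_lit 493858305440582043680)) (.cons (.rf (nat_lit 5484) (nat_lit 493858305440582043680)) .nil)))) .nil))))),
 (.br (nat_lit 7) (nat_lit 1) (.cons (.kr (nat_lit 309485009821345068724781057) (nat_lit 18446744073726328832) (nat_lit 0) (nat_lit 1)) (.cons (.rf (nat_lit 84) (nat_lit 13163900129)) (.cons (.rf (nat_lit 3189) (nat_lit 301753615611200745)) (.cons (.br (nat_lit 8) (nat_lit 1) (.cons (.br (nat_lit 10) (nat_lit 1) (.cons (.rf (nat_lit 5177) (nat_lit 13331868737)) (.cons (.zr (nat_lit 55700520191385403392) (nat_lit 2422574005996905801187841) (nat_lit 5) (nat_lit 0)) .nil))) (.cons (.br (nat_lit 10) (nat_lit 1) (.cons (.zr (nat_lit 14185548444482509537280)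 (nat_lit 4835703278459646275224578) (nat_lit 10) (nat_lit 6)) (.cons (.ev (nat_lit 20282409603670189226718822203393) (nat_lit 1)) .nil))) .nil))) .nil))))),
 (.br (nat_lit 10) (nat_lit 1) (.cons (.rf (nat_lit 5485) (nat_lit 493858305440582043680)) (.cons (.rf (nat_lit 5486) (nat_lit 493858305440582043680)) (.cons (.br (nat_lit 11) (nat_lit 1) (.cons (.br (nat_lit 8) (nat_lit 1) (.cons (.ev (nat_lit 621392612167206136510087426) (nat_lit 2)) (.cons (.ev (nat_lit 618974797494084478699766274) (nat_lit 2)) .nil))) (.cons (.zr (nat_lit 55340234420151911168) (nat_lit 2422574005993607283081217) (nat_lit 5) (nat_lit 0)) (.cons (.ev (nat_lit 79538856449905298395266810113) (nat_lit 1)) (.cons (.br (nat_lit 12) (nat_lit 1) (.cons (.br (nat_lit 8) (nat_lit 1) (.cons (.zr (nat_lit 55556405003275993088) (nat_lit 2422574005994706777931777) (nat_lit 5) (nat_lit 0)) .nil)) (.cons (.br (nat_lit 7) (nat_lit 1) (.cons (.zr (nat_lit 55556405003275993088) (nat_lit 2422574005994706777931777) (nat_lit 5) (nat_lit 0))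 .nil)) (.cons (.ev (nat_lit 79537652246452447011202465793) (nat_lit 1)) .nil)))) .nil))))) .nil)))),
 (.br (nat_lit 10) (nat_lit 1) (.cons (.rf (nat_lit 5485) (nat_lit 493858305440582043680)) (.cons (.rf (nat_lit 5486) (nat_lit 493858305440582043680)) (.cons (.rf (nat_lit 5487) (nat_lit 493858305440582043680)) (.cons (.br (nat_lit 10) (nat_lit 1) (.cons (.rf (nat_lit 5485) (nat_lit 493858305440582043680)) (.cons (.rf (nat_lit 5486) (nat_lit 493858305440582043680)) (.cons (.rf (nat_lit 5487) (nat_lit 493858305440582043680)) .nil)))) .nil))))),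
 (.br (nat_lit 10) (nat_lit 1) (.cons (.rf (nat_lit 84) (nat_lit 9003117794)) (.cons (.rf (nat_lit 5488) (nat_lit 493858305440582043680)) (.cons (.br (nat_lit 7) (nat_lit 1) (.cons (.rf (nat_lit 5140) (nat_lit 455881386916296362217)) (.cons (.rf (nat_lit 84) (nat_lit 8938429474)) (.cons (.br (nat_lit 13) (nat_lit 1) (.cons (.ev (nat_lit 20282409608374108964410934427649) (nat_lit 1)) (.cons (.ev (nat_lit 20282410812577562378744952324353) (nat_lit 1)) .nil))) .nil)))) .nil)))),
 (.br (nat_lit 10) (nat_lit 1) (.cons (.rf (nat_lit 5485) (nat_lit 493858305440582043680)) (.cons (.rf (nat_lit 5488) (nat_lit 493858305440582043680)) (.cons (.rf (nat_lit 5489) (nat_lit 493858305440582043680)) (.cons (.br (nat_lit 10) (nat_lit 1) (.cons (.rf (nat_lit 5485) (nat_lit 493858305440582043680)) (.cons (.rf (nat_lit 5488) (nat_lit 493858305440582043680)) (.cons (.rf (nat_lit 5489) (nat_lit 493858305440582043680)) .nil)))) .nil))))),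
 (.br (nat_lit 10) (nat_lit 1) (.cons (.rf (nat_lit 5485) (nat_lit 493858305440582043680)) (.cons (.rf (nat_lit 5488) (nat_lit 493858305440582043680)) (.cons (.rf (nat_lit 5490) (nat_lit 493858305440582043680)) (.cons (.br (nat_lit 10) (nat_lit 1) (.cons (.rf (nat_lit 5485) (nat_lit 493858305440582043680)) (.cons (.rf (nat_lit 5488) (nat_lit 493858305440582043680)) (.cons (.rf (nat_lit 5490) (nat_lit 493858305440582043680)) .nil)))) .nil))))),
 (.br (nat_lit 10) (nat_lit 1) (.cons (.rf (nat_lit 5485) (nat_lit 493858305440582043680)) (.cons (.rf (nat_lit 5488) (nat_lit 493858305440582043680)) (.cons (.rf (nat_lit 5490) (nat_lit 493858305440582043680)) (.cons (.rf (nat_lit 5491) (nat_lit 493858305440582043680)) (.cons (.br (nat_lit 10) (nat_lit 1) (.cons (.rf (nat_lit 5485) (nat_lit 493858305440582043680)) (.cons (.rf (nat_lit 5488) (nat_lit 493858305440582043680)) (.cons (.rf (nat_lit 5490) (nat_lit 493858305440582043680)) (.cons (.rf (nat_lit 5491) (nat_lit 493858305440582043680)) .nil)))))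 .nil)))))),
 (.br (nat_lit 8) (nat_lit 1) (.cons (.rf (nat_lit 82) (nat_lit 11148537057)) (.cons (.ev (nat_lit 79228167255077846016170459136) (nat_lit 1)) (.cons (.br (nat_lit 11) (nat_lit 1) (.cons (.br (nat_lit 12) (nat_lit 1) (.cons (.ev (nat_lit 79538861172344119230120067328) (nat_lit 1)) (.cons (.rf (nat_lit 4165) (nat_lit 382852596456577146208)) .nil))) (.cons (.ev (nat_lit 79537647524085682662268797184) (nat_lit 1)) (.cons (.br (nat_lit 12) (nat_lit 1) (.cons (.br (nat_lit 10) (nat_lit 1) (.cons (.ev (nat_lit 20680718029791637489079837327620) (nat_lit 3)) .nil)) (.cons (.ev (nat_lit 20520403580982136456508994486530) (nat_lit 2)) .nil))) .nil)))) .nil)))),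
 (.br (nat_lit 8) (nat_lit 1) (.cons (.br (nat_lit 12) (nat_lit 1) (.cons (.ev (nat_lit 79228162532783140360803123201) (nat_lit 1)) (.cons (.ev (nat_lit 79537652246452447011202465793) (nat_lit 1)) .nil))) (.cons (.br (nat_lit 13) (nat_lit 1) (.cons (.ev (nat_lit 20282409603670189226718822203393) (nat_lit 1)) (.cons (.ev (nat_lit 20282719093383858533360598056961) (nat_lit 1)) .nil))) .nil))),
 (.br (nat_lit 10) (nat_lit 1) (.cons (.rf (nat_lit 5494) (nat_lit 493858305440582043680)) (.cons (.br (nat_lit 12) (nat_lit 1) (.cons (.ev (nat_lit 79228162532783140360803123201) (nat_lit 1)) (.cons (.ev (nat_lit 79538856449905298395266810113) (nat_lit 1)) (.cons (.kr (nat_lit 20282409603651670423947268063232) (nat_lit 79228162514264337597838917632) (nat_lit 3) (nat_lit 0)) .nil)))) .nil))),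
 (.br (nat_lit 10) (nat_lit 1) (.cons (.rf (nat_lit 5494) (nat_lit 493858305440582043680)) (.cons (.rf (nat_lit 5495) (nat_lit 493858305440582043680)) (.cons (.br (nat_lit 10) (nat_lit 1) (.cons (.rf (nat_lit 5494) (nat_lit 493858305440582043680)) (.cons (.rf (nat_lit 5495) (nat_lit 493858305440582043680)) .nil))) .nil)))),
 (.br (nat_lit 8) (nat_lit 1) (.cons (.rf (nat_lit 5496) (nat_lit 493858305440582043680)) (.cons (.br (nat_lit 8) (nat_lit 1) (.cons (.rf (nat_lit 5496) (nat_lit 493858305440582043680)) (.cons (.ev (nat_lit 309499232333366071627087872) (nat_lit 2)) .nil))) (.cons (.br (nat_lit 8) (nat_lit 1) (.cons (.rf (nat_lit 5496) (nat_lit 493858305440582043680)) (.cons (.ev (nat_lit 309499232333366071627087872) (nat_lit 2)) .nil))) .nil)))),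
 (.br (nat_lit 10) (nat_lit 1) (.cons (.rf (nat_lit 5496) (nat_lit 493858305440582043680)) (.cons (.rf (nat_lit 5497) (nat_lit 493858305440582043680)) (.cons (.br (nat_lit 10) (nat_lit 1) (.cons (.rf (nat_lit 5496) (nat_lit 493858305440582043680)) (.cons (.rf (nat_lit 5497) (nat_lit 493858305440582043680)) .nil))) .nil)))),
 (.br (nat_lit 2) (nat_lit 1) (.cons (.rf (nat_lit 5492) (nat_lit 493858305440582043680)) (.cons (.rf (nat_lit 5492) (nat_lit 493855739180442814505)) (.cons (.br (nat_lit 8) (nat_lit 1) (.cons (.br (nat_lit 8) (nat_lit 1) (.cons (.rf (nat_lit 31) (nat_lit 411082082)) (.cons (.br (nat_lit 12) (nat_lit 1) (.cons (.rf (nat_lit 3798) (nat_lit 15431913154324661472)) (.cons (.rf (nat_lit 3798) (nat_lit 11976526340224648416)) .nil))) .nil))) (.cons (.rf (nat_lit 31) (nat_lit 411082082)) (.cons (.br (nat_lit 8) (nat_lit 1) (.cons (.br (nat_lit 12) (nat_lit 1) (.cons (.rf (nat_lit 3798) (nat_lit 15431913154324661472)) (.cons (.rf (nat_lit 3798) (nat_lit 11976526340224648416)) .nil)))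 (.cons (.rf (nat_lit 31) (nat_lit 411082082)) .nil))) .nil)))) (.cons (.br (nat_lit 8) (nat_lit 1) (.cons (.rf (nat_lit 5493) (nat_lit 493858305440582043680)) (.cons (.rf (nat_lit 1343) (nat_lit 353675511847)) (.cons (.rf (nat_lit 1339) (nat_lit 289218303201)) (.cons (.br (nat_lit 8) (nat_lit 1) (.cons (.rf (nat_lit 5493) (nat_lit 493858305440582043680)) (.cons (.rf (nat_lit 82) (nat_lit 14369762529)) (.cons (.rf (nat_lit 2594) (nat_lit 13328723009)) .nil)))) .nil))))) (.cons (.br (nat_lit 10) (nat_lit 1) (.cons (.rf (nat_lit 5496) (nat_lit 493858305440582043680)) (.cons (.rf (nat_lit 5497) (nat_lit 493858305440582043680)) (.cons (.rf (nat_lit 5498) (nat_lit 493858305440582043680)) (.cons (.br (nat_lit 10) (nat_lit 1) (.cons (.rf (nat_lit 5496) (nat_lit 493858305440582043680)) (.cons (.rf (nat_lit 5497) (nat_lit 493858305440582043680)) (.cons (.rf (nat_lit 5498) (nat_lit 493858305440582043680)) .nil)))) .nil))))) .nil))))))]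

theorem c191 : chkAll C T R L191 (nat_lit 5472) = true := by decide +kernel

theorem l191 : (nat_lit 5472) + L191.length = (nat_lit 5500) := by decide +kernel

/-- part of the certificates -/
def L192 : List Prf := [(.br (nat_lit 10) (nat_lit 1) (.cons (.rf (nat_lit 5492) (nat_lit 493855739180442814505)) (.cons (.rf (nat_lit 5499) (nat_lit 493855739180442814505)) (.cons (.br (nat_lit 8) (nat_lit 1) (.cons (.zr (nat_lit 55340234420151911168) (nat_lit 2422574005993607283081217) (nat_lit 5) (nat_lit 0)) (.cons (.rf (nat_lit 5499) (nat_lit 493858305440582043680)) (.cons (.br (nat_lit 7) (nat_lit 1) (.cons (.ev (nat_lit 79537647542604765805009699073) (nat_lit 1)) (.cons (.ev (nat_lit 79538856449977354889776332801) (nat_lit 1)) .nil))) (.cons (.br (nat_lit 2) (nat_lit 1) (.cons (.rf (nat_lit 3887) (nat_lit 11976526340224648416)) (.cons (.ev (nat_lit 79538861190718524234798268673) (nat_lit 1)) (.cons (.br (nat_lit 7) (nat_lit 1) (.cons (.ev (nat_lit 79228162532711081667270344961) (nat_lit 1)) .nil))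 .nil)))) .nil))))) .nil)))),
 (.br (nat_lit 10) (nat_lit 1) (.cons (.rf (nat_lit 5492) (nat_lit 493855739180442814505)) (.cons (.rf (nat_lit 5499) (nat_lit 493855739180442814505)) (.cons (.rf (nat_lit 5500) (nat_lit 493858305440582043680)) (.cons (.br (nat_lit 10) (nat_lit 1) (.cons (.rf (nat_lit 5492) (nat_lit 493855739180442814505)) (.cons (.rf (nat_lit 5499) (nat_lit 493855739180442814505)) (.cons (.rf (nat_lit 5500) (nat_lit 493858305440582043680)) .nil)))) .nil))))),
 (.br (nat_lit 10) (nat_lit 1) (.cons (.rf (nat_lit 5492) (nat_lit 493855739180442814505)) (.cons (.rf (nat_lit 5499) (nat_lit 493855739180442814505)) (.cons (.rf (nat_lit 5501) (nat_lit 493855739180442814505)) (.cons (.br (nat_lit 8) (nat_lit 1) (.cons (.rf (nat_lit 5492) (nat_lit 493858305440582043680)) (.cons (.ev (nat_lit 79229376180897461740578537473) (nat_lit 1)) (.cons (.rf (nat_lit 5501) (nat_lit 493858305440582043680)) (.cons (.br (nat_lit 2) (nat_lit 1) (.cons (.zr (nat_lit 55556405003275993088) (nat_lit 2422574005994706777931777)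 (nat_lit 5) (nat_lit 0)) (.cons (.ev (nat_lit 79538861190718524234798268673) (nat_lit 1)) (.cons (.br (nat_lit 7) (nat_lit 1) (.cons (.ev (nat_lit 20363191254826345308309363427076) (nat_lit 3)) .nil)) .nil)))) .nil))))) .nil))))),
 (.br (nat_lit 8) (nat_lit 1) (.cons (.rf (nat_lit 5492) (nat_lit 493858305440582043680)) (.cons (.rf (nat_lit 5499) (nat_lit 493858305440582043680)) (.cons (.rf (nat_lit 5501) (nat_lit 493858305440582043680)) (.cons (.br (nat_lit 10) (nat_lit 1) (.cons (.rf (nat_lit 5492) (nat_lit 493855739180442814505)) (.cons (.rf (nat_lit 5499) (nat_lit 493855739180442814505)) (.cons (.rf (nat_lit 5501) (nat_lit 493855739180442814505)) (.cons (.rf (nat_lit 5502) (nat_lit 493855739180442814505)) (.cons (.rf (nat_lit 5502) (nat_lit 493858305440582043680)) .nil)))))) .nil))))),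
 (.br (nat_lit 8) (nat_lit 1) (.cons (.rf (nat_lit 5492) (nat_lit 493858305440582043680)) (.cons (.rf (nat_lit 5499) (nat_lit 493858305440582043680)) (.cons (.rf (nat_lit 5501) (nat_lit 493858305440582043680)) (.cons (.rf (nat_lit 5503) (nat_lit 493858305440582043680)) (.cons (.br (nat_lit 8) (nat_lit 1) (.cons (.rf (nat_lit 5492) (nat_lit 493858305440582043680)) (.cons (.rf (nat_lit 5499) (nat_lit 493858305440582043680)) (.cons (.rf (nat_lit 5501) (nat_lit 493858305440582043680)) (.cons (.rf (nat_lit 5503) (nat_lit 493858305440582043680)) .nil))))) .nil)))))),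
 (.br (nat_lit 10) (nat_lit 1) (.cons (.rf (nat_lit 5492) (nat_lit 493855739180442814505)) (.cons (.rf (nat_lit 5499) (nat_lit 493855739180442814505)) (.cons (.rf (nat_lit 5504) (nat_lit 493858305440582043680)) (.cons (.br (nat_lit 10) (nat_lit 1) (.cons (.rf (nat_lit 5492) (nat_lit 493855739180442814505)) (.cons (.ev (nat_lit 313111787352529129086910467) (nat_lit 2)) (.cons (.rf (nat_lit 5504) (nat_lit 493858305440582043680)) .nil)))) .nil))))),
 (.br (nat_lit 10) (nat_lit 1) (.cons (.rf (nat_lit 5492) (nat_lit 493855739180442814505)) (.cons (.rf (nat_lit 5499) (nat_lit 493855739180442814505)) (.cons (.rf (nat_lit 5504) (nat_lit 493858305440582043680)) (.cons (.rf (nat_lit 5505) (nat_lit 493858305440582043680)) (.cons (.br (nat_lit 10) (nat_lit 1) (.cons (.rf (nat_lit 5492) (nat_lit 493855739180442814505)) (.cons (.rf (nat_lit 5499) (nat_lit 493855739180442814505)) (.cons (.rf (nat_lit 5504) (nat_lit 493858305440582043680)) (.cons (.rf (nat_lit 5505) (nat_lit 493858305440582043680)) .nil)))))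 .nil)))))),
 (.br (nat_lit 8) (nat_lit 1) (.cons (.rf (nat_lit 5492) (nat_lit 493858305440582043680)) (.cons (.rf (nat_lit 5499) (nat_lit 493858305440582043680)) (.cons (.rf (nat_lit 5504) (nat_lit 493858305440582043680)) (.cons (.rf (nat_lit 5506) (nat_lit 493858305440582043680)) (.cons (.br (nat_lit 8) (nat_lit 1) (.cons (.rf (nat_lit 5492) (nat_lit 493858305440582043680)) (.cons (.rf (nat_lit 5499) (nat_lit 493858305440582043680)) (.cons (.rf (nat_lit 5504) (nat_lit 493858305440582043680)) (.cons (.rf (nat_lit 5506) (nat_lit 493858305440582043680)) .nil))))) .nil)))))),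
 (.br (nat_lit 12) (nat_lit 1) (.cons (.br (nat_lit 8) (nat_lit 1) (.cons (.ev (nat_lit 158769451001571513290719298049) (nat_lit 2)) (.cons (.rf (nat_lit 4094) (nat_lit 378637161439710873632)) .nil))) (.cons (.br (nat_lit 8) (nat_lit 1) (.cons (.br (nat_lit 11) (nat_lit 1) (.cons (.ev (nat_lit 20363807816401898329753379864838) (nat_lit 3)) .nil)) (.cons (.br (nat_lit 10) (nat_lit 1) (.cons (.ev (nat_lit 313111787352529129086910467) (nat_lit 2)) .nil)) (.cons (.ev (nat_lit 20282409608392555708484643979264) (nat_lit 1)) .nil)))) .nil))),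
 (.br (nat_lit 12) (nat_lit 1) (.cons (.rf (nat_lit 5508) (nat_lit 493858305440582043680)) (.cons (.br (nat_lit 8) (nat_lit 1) (.cons (.br (nat_lit 10) (nat_lit 1) (.cons (.ev (nat_lit 20363807797586219370154478207238) (nat_lit 3)) .nil)) (.cons (.ev (nat_lit 20282409608392555708484643979264) (nat_lit 1)) .nil))) .nil))),
 (.br (nat_lit 12) (nat_lit 1) (.cons (.rf (nat_lit 5508) (nat_lit 493858305440582043680)) (.cons (.rf (nat_lit 5509) (nat_lit 493858305440582043680)) (.cons (.br (nat_lit 12) (nat_lit 1) (.cons (.rf (nat_lit 5508) (nat_lit 493858305440582043680)) (.cons (.rf (nat_lit 5509) (nat_lit 493858305440582043680)) .nil))) .nil)))),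
 (.br (nat_lit 12) (nat_lit 1) (.cons (.rf (nat_lit 5510) (nat_lit 493858305440582043680)) (.cons (.br (nat_lit 10) (nat_lit 1) (.cons (.br (nat_lit 8) (nat_lit 1) (.cons (.ev (nat_lit 20680720438088151522930770117890) (nat_lit 3)) .nil)) (.cons (.ev (nat_lit 20282720297587311665120127549441) (nat_lit 1)) .nil))) .nil))),
 (.br (nat_lit 12) (nat_lit 1) (.cons (.rf (nat_lit 5510) (nat_lit 493858305440582043680)) (.cons (.rf (nat_lit 5511) (nat_lit 493858305440582043680)) (.cons (.br (nat_lit 12) (nat_lit 1) (.cons (.rf (nat_lit 5510) (nat_lit 493858305440582043680)) (.cons (.rf (nat_lit 5511) (nat_lit 493858305440582043680)) .nil))) .nil)))),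
 (.br (nat_lit 12) (nat_lit 1) (.cons (.rf (nat_lit 5510) (nat_lit 493858305440582043680)) (.cons (.rf (nat_lit 5512) (nat_lit 493858305440582043680)) (.cons (.br (nat_lit 12) (nat_lit 1) (.cons (.rf (nat_lit 5510) (nat_lit 493858305440582043680)) (.cons (.rf (nat_lit 5512) (nat_lit 493858305440582043680)) .nil))) .nil)))),
 (.br (nat_lit 12) (nat_lit 1) (.cons (.rf (nat_lit 5510) (nat_lit 493858305440582043680)) (.cons (.rf (nat_lit 5512) (nat_lit 493858305440582043680)) (.cons (.rf (nat_lit 5513) (nat_lit 493858305440582043680)) (.cons (.br (nat_lit 12) (nat_lit 1) (.cons (.rf (nat_lit 5510) (nat_lit 493858305440582043680)) (.cons (.rf (nat_lit 5512) (nat_lit 493858305440582043680)) (.cons (.rf (nat_lit 5513) (nat_lit 493858305440582043680)) .nil)))) .nil))))),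
 (.br (nat_lit 8) (nat_lit 1) (.cons (.kr (nat_lit 309485009821345068724781057) (nat_lit 18446744073726328832) (nat_lit 0) (nat_lit 1)) (.cons (.br (nat_lit 10) (nat_lit 1) (.cons (.zr (nat_lit 1223092919907663040807168) (nat_lit 309485065161578397971775491) (nat_lit 10) (nat_lit 9)) (.cons (.zr (nat_lit 1223092919907663040807168) (nat_lit 73786977402973323266) (nat_lit 10) (nat_lit 9)) (.cons (.br (nat_lit 7) (nat_lit 1) (.cons (.br (nat_lit 12) (nat_lit 1) (.cons (.ev (nat_lit 20680103895401630959285098185988) (nat_lit 3)) .nil)) (.cons (.rf (nat_lit 84) (nat_lit 8939478050)) .nil))) .nil)))) (.cons (.rf (nat_lit 4091) (nat_lit 366449033119072)) .nil)))),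
 (.br (nat_lit 8) (nat_lit 1) (.cons (.br (nat_lit 12) (nat_lit 1) (.cons (.ev (nat_lit 20680103914364739758484724320004) (nat_lit 3)) .nil)) (.cons (.br (nat_lit 11) (nat_lit 1) (.cons (.ev (nat_lit 20680103895401342733306925875460) (nat_lit 3)) .nil)) (.cons (.zr (nat_lit 55556405003275993088) (nat_lit 2422574005994706777931777) (nat_lit 5) (nat_lit 0)) .nil)))),
 (.br (nat_lit 7) (nat_lit 1) (.cons (.zr (nat_lit 110896638323899499264) (nat_lit 4845148011987214532608002) (nat_lit 10) (nat_lit 0)) (.cons (.rf (nat_lit 5516) (nat_lit 493858305440582043680)) (.cons (.zr (nat_lit 55556405003275993088) (nat_lit 2422574005994706777931777) (nat_lit 5) (nat_lit 0)) .nil)))),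
 (.br (nat_lit 10) (nat_lit 1) (.cons (.rf (nat_lit 5514) (nat_lit 493858305440582043680)) (.cons (.rf (nat_lit 5515) (nat_lit 493858305440582043680)) (.cons (.br (nat_lit 12) (nat_lit 1) (.cons (.rf (nat_lit 5516) (nat_lit 493858305440582043680)) (.cons (.rf (nat_lit 5517) (nat_lit 493858305440582043680)) (.cons (.br (nat_lit 12) (nat_lit 1) (.cons (.rf (nat_lit 5516) (nat_lit 493858305440582043680)) (.cons (.rf (nat_lit 5517) (nat_lit 493858305440582043680)) (.cons (.ev (nat_lit 79229371440083953326525251841) (nat_lit 1)) .nil)))) (.cons (.br (nat_lit 12) (nat_lit 1) (.cons (.rf (nat_lit 5516) (nat_lit 493858305440582043680)) (.cons (.rf (nat_lit 5517) (nat_lit 493858305440582043680)) (.cons (.ev (nat_lit 79229371440083953326525251841) (nat_lit 1)) .nil)))) .nil))))) .nil)))),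
 (.br (nat_lit 10) (nat_lit 1) (.cons (.rf (nat_lit 5514) (nat_lit 493858305440582043680)) (.cons (.rf (nat_lit 5515) (nat_lit 493858305440582043680)) (.cons (.rf (nat_lit 5518) (nat_lit 493858305440582043680)) (.cons (.br (nat_lit 10) (nat_lit 1) (.cons (.rf (nat_lit 5514) (nat_lit 493858305440582043680)) (.cons (.rf (nat_lit 5515) (nat_lit 493858305440582043680)) (.cons (.rf (nat_lit 5518) (nat_lit 493858305440582043680)) .nil)))) .nil))))),
 (.br (nat_lit 10) (nat_lit 1) (.cons (.rf (nat_lit 5514) (nat_lit 493858305440582043680)) (.cons (.rf (nat_lit 5519) (nat_lit 493858305440582043680)) (.cons (.br (nat_lit 7) (nat_lit 1) (.cons (.br (nat_lit 8) (nat_lit 1) (.cons (.br (nat_lit 12) (nat_lit 1) (.cons (.ev (nat_lit 79229371440083953326525251841) (nat_lit 1)) .nil)) (.cons (.ev (nat_lit 20282720302328196949661815144705) (nat_lit 1)) .nil))) (.cons (.br (nat_lit 8) (nat_lit 1) (.cons (.ev (nat_lit 79538861172271780161088717056) (nat_lit 1)) (.cons (.rf (nat_lit 4086) (nat_lit 9443717525178409))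 .nil))) (.cons (.rf (nat_lit 84) (nat_lit 8939478050)) .nil)))) .nil)))),
 (.br (nat_lit 10) (nat_lit 1) (.cons (.rf (nat_lit 5514) (nat_lit 493858305440582043680)) (.cons (.rf (nat_lit 5519) (nat_lit 493858305440582043680)) (.cons (.rf (nat_lit 5520) (nat_lit 493858305440582043680)) (.cons (.br (nat_lit 10) (nat_lit 1) (.cons (.rf (nat_lit 84) (nat_lit 9036672226)) (.cons (.rf (nat_lit 5519) (nat_lit 493858305440582043680)) (.cons (.rf (nat_lit 5520) (nat_lit 493858305440582043680)) .nil)))) .nil))))),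
 (.br (nat_lit 10) (nat_lit 1) (.cons (.rf (nat_lit 5514) (nat_lit 493858305440582043680)) (.cons (.rf (nat_lit 5519) (nat_lit 493858305440582043680)) (.cons (.rf (nat_lit 5521) (nat_lit 493858305440582043680)) (.cons (.br (nat_lit 10) (nat_lit 1) (.cons (.rf (nat_lit 5514) (nat_lit 493858305440582043680)) (.cons (.rf (nat_lit 5519) (nat_lit 493858305440582043680)) (.cons (.rf (nat_lit 5521) (nat_lit 493858305440582043680)) .nil)))) .nil))))),
 (.br (nat_lit 10) (nat_lit 1) (.cons (.rf (nat_lit 5514) (nat_lit 493858305440582043680)) (.cons (.rf (nat_lit 5519) (nat_lit 493858305440582043680)) (.cons (.rf (nat_lit 5521) (nat_lit 493858305440582043680)) (.cons (.rf (nat_lit 5522) (nat_lit 493858305440582043680)) (.cons (.br (nat_lit 10) (nat_lit 1) (.cons (.rf (nat_lit 5514) (nat_lit 493858305440582043680)) (.cons (.rf (nat_lit 5519) (nat_lit 493858305440582043680)) (.cons (.rf (nat_lit 5521) (nat_lit 493858305440582043680)) (.cons (.rf (nat_lit 5522) (nat_lit 493858305440582043680)) .nil)))))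 .nil)))))),
 (.br (nat_lit 10) (nat_lit 1) (.cons (.br (nat_lit 12) (nat_lit 1) (.cons (.ev (nat_lit 79229371440156009821068328961) (nat_lit 1)) .nil)) .nil)),
 (.br (nat_lit 8) (nat_lit 1) (.cons (.br (nat_lit 10) (nat_lit 1) (.cons (.rf (nat_lit 5524) (nat_lit 493858305440582043680)) (.cons (.br (nat_lit 12) (nat_lit 1) (.cons (.rf (nat_lit 5524) (nat_lit 493858305440582043680)) (.cons (.ev (nat_lit 20282719088679938513093997428993) (nat_lit 1)) .nil))) .nil))) (.cons (.rf (nat_lit 31) (nat_lit 444636514)) .nil))),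
 (.br (nat_lit 8) (nat_lit 1) (.cons (.br (nat_lit 12) (nat_lit 1) (.cons (.ev (nat_lit 79537652264899191084912017408) (nat_lit 1)) (.cons (.ev (nat_lit 79228162514336396287093571584) (nat_lit 1)) .nil))) (.cons (.br (nat_lit 13) (nat_lit 1) (.cons (.ev (nat_lit 20282719093402305277434307608576) (nat_lit 1)) (.cons (.ev (nat_lit 20282409603651742482645112651776) (nat_lit 1)) .nil))) .nil))),
 (.br (nat_lit 10) (nat_lit 1) (.cons (.rf (nat_lit 5526) (nat_lit 493858305440582043680)) (.cons (.br (nat_lit 8) (nat_lit 1) (.cons (.ev (nat_lit 313121287569561910706766594) (nat_lit 2)) (.cons (.br (nat_lit 11) (nat_lit 1) (.cons (.ev (nat_lit 21316412329186562763425369751816) (nat_lit 4)) .nil)) (.cons (.br (nat_lit 11) (nat_lit 1) (.cons (.zr (nat_lit 55340795171115827200) (nat_lit 930877603469748437975564289) (nat_lit 5) (nat_lit 0)) .nil)) .nil)))) .nil))),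
 (.br (nat_lit 10) (nat_lit 1) (.cons (.rf (nat_lit 5526) (nat_lit 493858305440582043680)) (.cons (.rf (nat_lit 5527) (nat_lit 493858305440582043680)) (.cons (.br (nat_lit 10) (nat_lit 1) (.cons (.rf (nat_lit 5526) (nat_lit 493858305440582043680)) (.cons (.rf (nat_lit 5527) (nat_lit 493858305440582043680)) .nil))) .nil))))]

theorem c192 : chkAll C T R L192 (nat_lit 5500) = true := by decide +kernel

theorem l192 : (nat_lit 5500) + L192.length = (nat_lit 5529) := by decide +kernel

/-- part of the certificates -/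
def L193 : List Prf := [(.br (nat_lit 8) (nat_lit 1) (.cons (.rf (nat_lit 5526) (nat_lit 493858305440582043680)) (.cons (.br (nat_lit 8) (nat_lit 1) (.cons (.rf (nat_lit 5526) (nat_lit 493858305440582043680)) (.cons (.ev (nat_lit 309499232333366071627087872) (nat_lit 2)) .nil))) (.cons (.br (nat_lit 8) (nat_lit 1) (.cons (.rf (nat_lit 5526) (nat_lit 493858305440582043680)) (.cons (.ev (nat_lit 309499232333366071627087872) (nat_lit 2)) .nil))) .nil)))),
 (.br (nat_lit 10) (nat_lit 1) (.cons (.rf (nat_lit 5528) (nat_lit 493858305440582043680)) (.cons (.rf (nat_lit 5529) (nat_lit 493858305440582043680)) (.cons (.br (nat_lit 10) (nat_lit 1) (.cons (.rf (nat_lit 5528) (nat_lit 493858305440582043680)) (.cons (.rf (nat_lit 5529) (nat_lit 493858305440582043680)) .nil))) .nil)))),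
 (.br (nat_lit 8) (nat_lit 1) (.cons (.rf (nat_lit 82) (nat_lit 11182091489)) (.cons (.br (nat_lit 11) (nat_lit 1) (.cons (.br (nat_lit 10) (nat_lit 1) (.cons (.br (nat_lit 12) (nat_lit 1) (.cons (.ev (nat_lit 79228167236631101942460907521) (nat_lit 1)) .nil)) (.cons (.ev (nat_lit 20282410812577490039675954397441) (nat_lit 1)) .nil))) (.cons (.br (nat_lit 12) (nat_lit 1) (.cons (.br (nat_lit 10) (nat_lit 1) (.cons (.zr (nat_lit 55340795171115827200) (nat_lit 930877603469748437975564289) (nat_lit 5) (nat_lit 0)) .nil)) (.cons (.rf (nat_lit 84) (nat_lit 9006581799)) .nil))) (.cons (.rf (nat_lit 58) (nat_lit 13994023)) .nil)))) (.cons (.rf (nat_lit 2594) (nat_lit 14301801537)) .nil)))),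
 (.br (nat_lit 2) (nat_lit 1) (.cons (.rf (nat_lit 5523) (nat_lit 493858305440582043680)) (.cons (.rf (nat_lit 5523) (nat_lit 493855739180442814505)) (.cons (.br (nat_lit 8) (nat_lit 1) (.cons (.rf (nat_lit 5525) (nat_lit 493858305440582043680)) (.cons (.br (nat_lit 8) (nat_lit 1) (.cons (.rf (nat_lit 5525) (nat_lit 493858305440582043680)) (.cons (.rf (nat_lit 31) (nat_lit 444636514)) .nil))) (.cons (.rf (nat_lit 31) (nat_lit 444636514)) .nil)))) (.cons (.br (nat_lit 10) (nat_lit 1) (.cons (.rf (nat_lit 5528) (nat_lit 493858305440582043680)) (.cons (.rf (nat_lit 5529) (nat_lit 493858305440582043680)) (.cons (.rf (nat_lit 5530) (nat_lit 493858305440582043680)) (.cons (.br (nat_lit 10) (nat_lit 1) (.cons (.rf (nat_lit 5528) (nat_lit 493858305440582043680)) (.cons (.rf (nat_lit 5529) (nat_lit 493858305440582043680)) (.cons (.rf (nat_lit 5530) (nat_lit 493858305440582043680)) .nil)))) .nil))))) (.cons (.br (nat_lit 8) (nat_lit 1) (.cons (.rf (nat_lit 5531) (nat_lit 493858305440582043680)) (.cons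 (.rf (nat_lit 1343) (nat_lit 353709066279)) (.cons (.br (nat_lit 8) (nat_lit 1) (.cons (.rf (nat_lit 5531) (nat_lit 493858305440582043680)) (.cons (.rf (nat_lit 82) (nat_lit 13329575137)) (.cons (.rf (nat_lit 2594) (nat_lit 14368910401)) .nil)))) (.cons (.rf (nat_lit 1339) (nat_lit 288145610977)) .nil))))) .nil)))))),
 (.br (nat_lit 10) (nat_lit 1) (.cons (.rf (nat_lit 5523) (nat_lit 493855739180442814505)) (.cons (.rf (nat_lit 5532) (nat_lit 493855739180442814505)) (.cons (.br (nat_lit 7) (nat_lit 1) (.cons (.rf (nat_lit 5430) (nat_lit 15071359418926144)) (.cons (.rf (nat_lit 5532) (nat_lit 493858305440582043680)) (.cons (.br (nat_lit 2) (nat_lit 1) (.cons (.rf (nat_lit 5523) (nat_lit 493858305440582043680)) (.cons (.ev (nat_lit 79537652246524223130246840321) (nat_lit 1)) (.cons (.ev (nat_lit 20282410812577562096170463920129) (nat_lit 1)) .nil)))) (.cons (.ev (nat_lit 20282719093383930309479675985921) (nat_lit 1)) .nil))))) .nil)))),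
 (.br (nat_lit 10) (nat_lit 1) (.cons (.rf (nat_lit 5523) (nat_lit 493855739180442814505)) (.cons (.rf (nat_lit 5532) (nat_lit 493855739180442814505)) (.cons (.rf (nat_lit 5533) (nat_lit 493858305440582043680)) (.cons (.br (nat_lit 10) (nat_lit 1) (.cons (.rf (nat_lit 4091) (nat_lit 295771118404969)) (.cons (.rf (nat_lit 5532) (nat_lit 493855739180442814505)) (.cons (.rf (nat_lit 5533) (nat_lit 493858305440582043680)) .nil)))) .nil))))),
 (.br (nat_lit 10) (nat_lit 1) (.cons (.rf (nat_lit 5523) (nat_lit 493855739180442814505)) (.cons (.rf (nat_lit 5532) (nat_lit 493855739180442814505)) (.cons (.rf (nat_lit 5534) (nat_lit 493855739180442814505)) (.cons (.br (nat_lit 8) (nat_lit 1) (.cons (.rf (nat_lit 5523) (nat_lit 493858305440582043680)) (.cons (.rf (nat_lit 5532) (nat_lit 493858305440582043680)) (.cons (.rf (nat_lit 5534) (nat_lit 493858305440582043680)) (.cons (.br (nat_lit 11) (nat_lit 1) (.cons (.ev (nat_lit 20282410817318303265524075790593) (nat_lit 1)) (.cons (.ev (nat_lit 40565438186767788562464808894722)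 (nat_lit 2)) (.cons (.kr (nat_lit 20362256736185577451678244798720) (nat_lit 1208944266640177894522880) (nat_lit 1) (nat_lit 0)) .nil)))) .nil))))) .nil))))),
 (.br (nat_lit 8) (nat_lit 1) (.cons (.rf (nat_lit 5523) (nat_lit 493858305440582043680)) (.cons (.rf (nat_lit 5532) (nat_lit 493858305440582043680)) (.cons (.rf (nat_lit 5534) (nat_lit 493858305440582043680)) (.cons (.br (nat_lit 10) (nat_lit 1) (.cons (.rf (nat_lit 5523) (nat_lit 493855739180442814505)) (.cons (.rf (nat_lit 5532) (nat_lit 493855739180442814505)) (.cons (.rf (nat_lit 5534) (nat_lit 493855739180442814505)) (.cons (.rf (nat_lit 5535) (nat_lit 493855739180442814505)) (.cons (.rf (nat_lit 5535) (nat_lit 493858305440582043680)) .nil)))))) .nil))))),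
 (.br (nat_lit 8) (nat_lit 1) (.cons (.rf (nat_lit 5523) (nat_lit 493858305440582043680)) (.cons (.rf (nat_lit 5532) (nat_lit 493858305440582043680)) (.cons (.rf (nat_lit 5534) (nat_lit 493858305440582043680)) (.cons (.rf (nat_lit 5536) (nat_lit 493858305440582043680)) (.cons (.br (nat_lit 8) (nat_lit 1) (.cons (.rf (nat_lit 5523) (nat_lit 493858305440582043680)) (.cons (.rf (nat_lit 5532) (nat_lit 493858305440582043680)) (.cons (.rf (nat_lit 5534) (nat_lit 493858305440582043680)) (.cons (.rf (nat_lit 5536) (nat_lit 493858305440582043680)) .nil))))) .nil)))))),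
 (.br (nat_lit 10) (nat_lit 1) (.cons (.rf (nat_lit 5523) (nat_lit 493855739180442814505)) (.cons (.rf (nat_lit 5532) (nat_lit 493855739180442814505)) (.cons (.rf (nat_lit 5537) (nat_lit 493858305440582043680)) (.cons (.br (nat_lit 10) (nat_lit 1) (.cons (.rf (nat_lit 5523) (nat_lit 493855739180442814505)) (.cons (.ev (nat_lit 313111787352529129086910467) (nat_lit 2)) (.cons (.rf (nat_lit 5537) (nat_lit 493858305440582043680)) .nil)))) .nil))))),
 (.br (nat_lit 10) (nat_lit 1) (.cons (.rf (nat_lit 5523) (nat_lit 493855739180442814505)) (.cons (.rf (nat_lit 5532) (nat_lit 493855739180442814505)) (.cons (.rf (nat_lit 5537) (nat_lit 493858305440582043680)) (.cons (.rf (nat_lit 5538) (nat_lit 493858305440582043680)) (.cons (.br (nat_lit 10) (nat_lit 1) (.cons (.rf (nat_lit 5523) (nat_lit 493855739180442814505)) (.cons (.rf (nat_lit 5532) (nat_lit 493855739180442814505)) (.cons (.rf (nat_lit 5537) (nat_lit 493858305440582043680)) (.cons (.rf (nat_lit 5538) (nat_lit 493858305440582043680)) .nil)))))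 .nil)))))),
 (.br (nat_lit 8) (nat_lit 1) (.cons (.rf (nat_lit 5523) (nat_lit 493858305440582043680)) (.cons (.rf (nat_lit 5532) (nat_lit 493858305440582043680)) (.cons (.rf (nat_lit 5537) (nat_lit 493858305440582043680)) (.cons (.rf (nat_lit 5539) (nat_lit 493858305440582043680)) (.cons (.br (nat_lit 8) (nat_lit 1) (.cons (.rf (nat_lit 5523) (nat_lit 493858305440582043680)) (.cons (.rf (nat_lit 5532) (nat_lit 493858305440582043680)) (.cons (.rf (nat_lit 5537) (nat_lit 493858305440582043680)) (.cons (.rf (nat_lit 5539) (nat_lit 493858305440582043680)) .nil))))) .nil)))))),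
 (.br (nat_lit 8) (nat_lit 1) (.cons (.kr (nat_lit 309485009821346168236409088) (nat_lit 72339069031415808) (nat_lit 1) (nat_lit 0)) (.cons (.rf (nat_lit 2594) (nat_lit 13228059713)) (.cons (.br (nat_lit 11) (nat_lit 1) (.cons (.br (nat_lit 10) (nat_lit 1) (.cons (.ev (nat_lit 79538856468352323943936295168) (nat_lit 1)) (.cons (.br (nat_lit 12) (nat_lit 1) (.cons (.ev (nat_lit 79229371458530697400234803456) (nat_lit 1)) .nil)) .nil))) (.cons (.ev (nat_lit 79228167255149904709736792320) (nat_lit 1)) (.cons (.br (nat_lit 12) (nat_lit 1) (.cons (.br (nat_lit 10) (nat_lit 1) (.cons (.ev (nat_lit 20363810205882590414717308699908) (nat_lit 3)) .nil)) (.cons (.rf (nat_lit 84) (nat_lit 9039087655)) .nil))) .nil)))) .nil)))),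
 (.br (nat_lit 8) (nat_lit 1) (.cons (.rf (nat_lit 5541) (nat_lit 493858305440582043680)) (.cons (.kr (nat_lit 309485009821346168236409088) (nat_lit 72339069031415808) (nat_lit 1) (nat_lit 0)) (.cons (.rf (nat_lit 1339) (nat_lit 289218302177)) (.cons (.br (nat_lit 8) (nat_lit 1) (.cons (.rf (nat_lit 5541) (nat_lit 493858305440582043680)) (.cons (.kr (nat_lit 309485009821346168236409088) (nat_lit 72339069031415808) (nat_lit 1) (nat_lit 0)) (.cons (.rf (nat_lit 2594) (nat_lit 13328723009)) .nil)))) .nil))))),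
 (.br (nat_lit 8) (nat_lit 1) (.cons (.br (nat_lit 10) (nat_lit 1) (.cons (.ev (nat_lit 20363191235863092400518764495620) (nat_lit 3)) .nil)) (.cons (.rf (nat_lit 84) (nat_lit 14240024615)) .nil))),
 (.br (nat_lit 13) (nat_lit 1) (.cons (.br (nat_lit 11) (nat_lit 1) (.cons (.rf (nat_lit 5543) (nat_lit 493858305440582043680)) (.cons (.rf (nat_lit 5543) (nat_lit 493855739180442814505)) (.cons (.kr (nat_lit 281474976710656) (nat_lit 309485009821345068724781056) (nat_lit 6) (nat_lit 0)) .nil)))) (.cons (.kr (nat_lit 309485009821346168236409088) (nat_lit 72339069031415808) (nat_lit 1) (nat_lit 0)) (.cons (.rf (nat_lit 2594) (nat_lit 13161114689)) .nil)))),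
 (.br (nat_lit 7) (nat_lit 1) (.cons (.rf (nat_lit 5542) (nat_lit 493858305440582043680)) (.cons (.rf (nat_lit 5542) (nat_lit 493855739180442814505)) (.cons (.rf (nat_lit 29) (nat_lit 12649831)) (.cons (.kr (nat_lit 1099511628032) (nat_lit 72057594054705152) (nat_lit 1) (nat_lit 0)) (.cons (.br (nat_lit 13) (nat_lit 1) (.cons (.rf (nat_lit 5544) (nat_lit 493858305440582043680)) (.cons (.rf (nat_lit 5544) (nat_lit 493855739180442814505)) (.cons (.kr (nat_lit 309485009821346168236409088) (nat_lit 72339069031415808) (nat_lit 1) (nat_lit 0)) (.cons (.rf (nat_lit 4982) (nat_lit 449092912363)) .nil))))) .nil)))))),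
 (.br (nat_lit 8) (nat_lit 1) (.cons (.br (nat_lit 10) (nat_lit 1) (.cons (.ev (nat_lit 79229376180897461740578537473) (nat_lit 1)) (.cons (.br (nat_lit 11) (nat_lit 1) (.cons (.ev (nat_lit 20363810205882590414717308699908) (nat_lit 3)) .nil)) .nil))) (.cons (.kr (nat_lit 309485009821346168236409088) (nat_lit 72339069031415808) (nat_lit 1) (nat_lit 0)) (.cons (.br (nat_lit 13) (nat_lit 1) (.cons (.ev (nat_lit 20282409608374036906816896565249) (nat_lit 1)) (.cons (.rf (nat_lit 84) (nat_lit 13167209537)) .nil))) .nil)))),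
 (.br (nat_lit 7) (nat_lit 1) (.cons (.rf (nat_lit 5546) (nat_lit 493858305440582043680)) (.cons (.rf (nat_lit 5546) (nat_lit 493855739180442814505)) (.cons (.br (nat_lit 8) (nat_lit 1) (.cons (.br (nat_lit 10) (nat_lit 1) (.cons (.ev (nat_lit 79538861190790581828836131073) (nat_lit 1)) .nil)) .nil)) (.cons (.br (nat_lit 8) (nat_lit 1) (.cons (.br (nat_lit 10) (nat_lit 1) (.cons (.ev (nat_lit 20363191235863092400518764495620) (nat_lit 3)) .nil)) (.cons (.br (nat_lit 10) (nat_lit 1) (.cons (.ev (nat_lit 20363186419123066849775484732160) (nat_lit 3)) .nil)) .nil))) .nil))))),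
 (.br (nat_lit 10) (nat_lit 1) (.cons (.rf (nat_lit 5546) (nat_lit 493855739180442814505)) (.cons (.rf (nat_lit 5547) (nat_lit 493858305440582043680)) (.cons (.br (nat_lit 8) (nat_lit 1) (.cons (.kr (nat_lit 309485009821346168236409088) (nat_lit 72339069031415808) (nat_lit 1) (nat_lit 0)) (.cons (.rf (nat_lit 5547) (nat_lit 493858305440582043680)) (.cons (.ev (nat_lit 20282409608374036906816896565249) (nat_lit 1)) .nil)))) .nil)))),
 (.br (nat_lit 8) (nat_lit 1) (.cons (.rf (nat_lit 5546) (nat_lit 493858305440582043680)) (.cons (.rf (nat_lit 5547) (nat_lit 493858305440582043680)) (.cons (.rf (nat_lit 5548) (nat_lit 493858305440582043680)) (.cons (.br (nat_lit 10) (nat_lit 1) (.cons (.rf (nat_lit 5546) (nat_lit 493855739180442814505)) (.cons (.rf (nat_lit 5547) (nat_lit 493858305440582043680)) (.cons (.rf (nat_lit 5548) (nat_lit 493855739180442814505)) (.cons (.ev (nat_lit 20282409608374036906816896565249) (nat_lit 1)) .nil))))) .nil))))),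
 (.br (nat_lit 10) (nat_lit 1) (.cons (.ev (nat_lit 20362257959278713533235812500224) (nat_lit 2)) .nil)),
 (.br (nat_lit 13) (nat_lit 1) (.cons (.rf (nat_lit 5549) (nat_lit 493858305440582043680)) (.cons (.br (nat_lit 2) (nat_lit 1) (.cons (.rf (nat_lit 5550) (nat_lit 493858305440582043680)) (.cons (.rf (nat_lit 5550) (nat_lit 493855739180442814505)) (.cons (.zr (nat_lit 60848776236004117998284889392384) (nat_lit 158456329751040117674050977793) (nat_lit 5) (nat_lit 3)) .nil)))) (.cons (.kr (nat_lit 309485009821346168236409088) (nat_lit 72339069031415808) (nat_lit 1) (nat_lit 0)) .nil)))),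
 (.br (nat_lit 13) (nat_lit 1) (.cons (.rf (nat_lit 5549) (nat_lit 493858305440582043680)) (.cons (.rf (nat_lit 5551) (nat_lit 493858305440582043680)) (.cons (.rf (nat_lit 5551) (nat_lit 493855739180442814505)) (.cons (.kr (nat_lit 309485009821346168236409088) (nat_lit 72339069031415808) (nat_lit 1) (nat_lit 0)) .nil))))),
 (.br (nat_lit 7) (nat_lit 1) (.cons (.ev (nat_lit 4741029962688340623616) (nat_lit 2)) (.cons (.kr (nat_lit 1099511628032) (nat_lit 72057594054705152) (nat_lit 1) (nat_lit 0)) (.cons (.kr (nat_lit 309485009821346168236409088) (nat_lit 72339069031415808) (nat_lit 1) (nat_lit 0)) .nil)))),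
 (.br (nat_lit 13) (nat_lit 1) (.cons (.ev (nat_lit 20282409608374036906816896565249) (nat_lit 1)) (.cons (.rf (nat_lit 5552) (nat_lit 493858305440582043680)) (.cons (.br (nat_lit 2) (nat_lit 1) (.cons (.zr (nat_lit 238612942572257047986823168000) (nat_lit 40564819212025707613342931091969) (nat_lit 5) (nat_lit 6)) (.cons (.rf (nat_lit 5553) (nat_lit 493858305440582043680)) (.cons (.rf (nat_lit 5553) (nat_lit 493855739180442814505)) .nil)))) .nil)))),
 (.br (nat_lit 13) (nat_lit 1) (.cons (.rf (nat_lit 5549) (nat_lit 493858305440582043680)) (.cons (.rf (nat_lit 5552) (nat_lit 493858305440582043680)) (.cons (.rf (nat_lit 5554) (nat_lit 493858305440582043680)) (.cons (.br (nat_lit 13) (nat_lit 1) (.cons (.rf (nat_lit 5549) (nat_lit 493858305440582043680)) (.cons (.kr (nat_lit 309485009821346168236409088) (nat_lit 72339069031415808) (nat_lit 1) (nat_lit 0)) (.cons (.rf (nat_lit 5554) (nat_lit 493858305440582043680)) .nil)))) .nil))))),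
 (.br (nat_lit 8) (nat_lit 1) (.cons (.br (nat_lit 10) (nat_lit 1) (.cons (.ev (nat_lit 79229371458602753894777880576) (nat_lit 1)) (.cons (.ev (nat_lit 1208925964293879617487361) (nat_lit 2)) .nil))) (.cons (.kr (nat_lit 309485009821346168236409088) (nat_lit 72339069031415808) (nat_lit 1) (nat_lit 0)) (.cons (.br (nat_lit 13) (nat_lit 1) (.cons (.ev (nat_lit 20282409603651742764120072585216) (nat_lit 1)) (.cons (.rf (nat_lit 5177) (nat_lit 14307034347)) .nil))) .nil))))]

theorem c193 : chkAll C T R L193 (nat_lit 5529) = true := by decide +kernel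

theorem l193 : (nat_lit 5529) + L193.length = (nat_lit 5557) := by decide +kernel

/-- part of the certificates -/
def L194 : List Prf := [(.br (nat_lit 8) (nat_lit 1) (.cons (.rf (nat_lit 5556) (nat_lit 493858305440582043680)) (.cons (.br (nat_lit 10) (nat_lit 1) (.cons (.ev (nat_lit 79538856468352323943936295168) (nat_lit 1)) (.cons (.ev (nat_lit 620178945462308078094581761) (nat_lit 2)) .nil))) (.cons (.br (nat_lit 10) (nat_lit 1) (.cons (.br (nat_lit 11) (nat_lit 1) (.cons (.ev (nat_lit 20363805389142564863974028936448) (nat_lit 3)) .nil)) (.cons (.br (nat_lit 7) (nat_lit 1) (.cons (.ev (nat_lit 20363186419123066849775484732160) (nat_lit 3)) .nil)) (.cons (.zr (nat_lit 3626777458846086547374848) (nat_lit 4759260252496352772097) (nat_lit 5) (nat_lit 9)) .nil)))) .nil)))),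
 (.br (nat_lit 10) (nat_lit 1) (.cons (.rf (nat_lit 2809) (nat_lit 310568276730023423049)) (.cons (.rf (nat_lit 5557) (nat_lit 493858305440582043680)) (.cons (.br (nat_lit 8) (nat_lit 1) (.cons (.kr (nat_lit 309485009821346168236409088) (nat_lit 72339069031415808) (nat_lit 1) (nat_lit 0)) (.cons (.ev (nat_lit 620178945462308078094581761) (nat_lit 2)) (.cons (.ev (nat_lit 20282719088661491769020287877376) (nat_lit 1)) .nil)))) .nil)))),
 (.br (nat_lit 8) (nat_lit 1) (.cons (.rf (nat_lit 5556) (nat_lit 493858305440582043680)) (.cons (.rf (nat_lit 5557) (nat_lit 493858305440582043680)) (.cons (.rf (nat_lit 5558) (nat_lit 493858305440582043680)) (.cons (.br (nat_lit 8) (nat_lit 1) (.cons (.rf (nat_lit 5556) (nat_lit 493858305440582043680)) (.cons (.rf (nat_lit 5557) (nat_lit 493858305440582043680)) (.cons (.rf (nat_lit 5558) (nat_lit 493858305440582043680)) .nil)))) .nil))))),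
 (.br (nat_lit 10) (nat_lit 1) (.cons (.rf (nat_lit 5559) (nat_lit 493858305440582043680)) (.cons (.kr (nat_lit 309485009821346168236409088) (nat_lit 72339069031415808) (nat_lit 1) (nat_lit 0)) (.cons (.br (nat_lit 11) (nat_lit 1) (.cons (.ev (nat_lit 79229376162450435092380713216) (nat_lit 1)) (.cons (.ev (nat_lit 79229376180969518235088060673) (nat_lit 1)) (.cons (.br (nat_lit 2) (nat_lit 1) (.cons (.ev (nat_lit 309489750778969787545616896) (nat_lit 2)) .nil)) .nil)))) .nil)))),
 (.br (nat_lit 10) (nat_lit 1) (.cons (.rf (nat_lit 5559) (nat_lit 493858305440582043680)) (.cons (.rf (nat_lit 5560) (nat_lit 493858305440582043680)) (.cons (.kr (nat_lit 309485009821346168236409088) (nat_lit 72339069031415808) (nat_lit 1) (nat_lit 0)) (.cons (.br (nat_lit 10) (nat_lit 1) (.cons (.rf (nat_lit 5559) (nat_lit 493858305440582043680)) (.cons (.rf (nat_lit 5560) (nat_lit 493858305440582043680)) (.cons (.kr (nat_lit 309485009821346168236409088) (nat_lit 72339069031415808) (nat_lit 1) (nat_lit 0)) .nil))))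 .nil))))),
 (.br (nat_lit 10) (nat_lit 1) (.cons (.rf (nat_lit 5559) (nat_lit 493858305440582043680)) (.cons (.kr (nat_lit 309485009821346168236409088) (nat_lit 72339069031415808) (nat_lit 1) (nat_lit 0)) (.cons (.br (nat_lit 7) (nat_lit 1) (.cons (.ev (nat_lit 79229376162450435092380713216) (nat_lit 1)) (.cons (.ev (nat_lit 79538861190718525334326607873) (nat_lit 1)) (.cons (.br (nat_lit 2) (nat_lit 1) (.cons (.ev (nat_lit 618974760527976886750610176) (nat_lit 2)) .nil)) .nil)))) .nil)))),
 (.br (nat_lit 10) (nat_lit 1) (.cons (.rf (nat_lit 5559) (nat_lit 493858305440582043680)) (.cons (.rf (nat_lit 5561) (nat_lit 493858305440582043680)) (.cons (.rf (nat_lit 5562) (nat_lit 493858305440582043680)) (.cons (.br (nat_lit 10) (nat_lit 1) (.cons (.rf (nat_lit 5559) (nat_lit 493858305440582043680)) (.cons (.rf (nat_lit 5561) (nat_lit 493858305440582043680)) (.cons (.rf (nat_lit 5562) (nat_lit 493858305440582043680)) .nil)))) .nil))))),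
 (.br (nat_lit 10) (nat_lit 1) (.cons (.rf (nat_lit 5559) (nat_lit 493858305440582043680)) (.cons (.kr (nat_lit 309485009821346168236409088) (nat_lit 72339069031415808) (nat_lit 1) (nat_lit 0)) (.cons (.rf (nat_lit 5563) (nat_lit 493858305440582043680)) (.cons (.br (nat_lit 10) (nat_lit 1) (.cons (.rf (nat_lit 5559) (nat_lit 493858305440582043680)) (.cons (.kr (nat_lit 309485009821346168236409088) (nat_lit 72339069031415808) (nat_lit 1) (nat_lit 0)) (.cons (.rf (nat_lit 5563) (nat_lit 493858305440582043680)) .nil)))) .nil))))),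
 (.br (nat_lit 12) (nat_lit 1) (.cons (.rf (nat_lit 5545) (nat_lit 493858305440582043680)) (.cons (.kr (nat_lit 1099511628032) (nat_lit 72057594054705152) (nat_lit 1) (nat_lit 0)) (.cons (.br (nat_lit 13) (nat_lit 1) (.cons (.rf (nat_lit 5549) (nat_lit 493858305440582043680)) (.cons (.rf (nat_lit 5552) (nat_lit 493858305440582043680)) (.cons (.rf (nat_lit 5555) (nat_lit 493858305440582043680)) (.cons (.rf (nat_lit 5555) (nat_lit 493855739180442814505)) (.cons (.br (nat_lit 13) (nat_lit 1) (.cons (.rf (nat_lit 5549) (nat_lit 493858305440582043680)) (.cons (.kr (nat_lit 309485009821346168236409088) (nat_lit 72339069031415808) (nat_lit 1) (nat_lit 0)) (.cons (.rf (nat_lit 5555) (nat_lit 493858305440582043680)) (.cons (.rf (nat_lit 5555) (nat_lit 493855739180442814505)) .nil))))) .nil)))))) (.cons (.kr (nat_lit 281474976710656) (nat_lit 309485009821345068724781056) (nat_lit 6) (nat_lit 0)) (.cons (.br (nat_lit 10) (nat_lit 1) (.cons (.rf (nat_lit 5559) (nat_lit 493858305440582043680)) (.cons (.rf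 (nat_lit 5561) (nat_lit 493858305440582043680)) (.cons (.rf (nat_lit 5563) (nat_lit 493858305440582043680)) (.cons (.rf (nat_lit 5564) (nat_lit 493858305440582043680)) (.cons (.br (nat_lit 10) (nat_lit 1) (.cons (.rf (nat_lit 5559) (nat_lit 493858305440582043680)) (.cons (.rf (nat_lit 5561) (nat_lit 493858305440582043680)) (.cons (.rf (nat_lit 5563) (nat_lit 493858305440582043680)) (.cons (.rf (nat_lit 5564) (nat_lit 493858305440582043680)) .nil))))) .nil)))))) .nil)))))),
 (.br (nat_lit 12) (nat_lit 1) (.cons (.rf (nat_lit 5545) (nat_lit 493858305440582043680)) (.cons (.kr (nat_lit 1099511628032) (nat_lit 72057594054705152) (nat_lit 1) (nat_lit 0)) (.cons (.rf (nat_lit 5565) (nat_lit 493858305440582043680)) (.cons (.rf (nat_lit 5565) (nat_lit 493855739180442814505)) (.cons (.kr (nat_lit 281474976710656) (nat_lit 309485009821345068724781056) (nat_lit 6) (nat_lit 0)) (.cons (.br (nat_lit 12) (nat_lit 1) (.cons (.rf (nat_lit 5545) (nat_lit 493858305440582043680)) (.cons (.kr (nat_lit 1099511628032)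 (nat_lit 72057594054705152) (nat_lit 1) (nat_lit 0)) (.cons (.rf (nat_lit 5565) (nat_lit 493858305440582043680)) (.cons (.rf (nat_lit 5565) (nat_lit 493855739180442814505)) (.cons (.kr (nat_lit 281474976710656) (nat_lit 309485009821345068724781056) (nat_lit 6) (nat_lit 0)) .nil)))))) .nil))))))),
 (.br (nat_lit 13) (nat_lit 1) (.cons (.kr (nat_lit 1099511628032) (nat_lit 72057594054705152) (nat_lit 1) (nat_lit 0)) (.cons (.br (nat_lit 7) (nat_lit 1) (.cons (.ev (nat_lit 20282409608392483650890606116864) (nat_lit 1)) (.cons (.ev (nat_lit 20282410812577490038576426057729) (nat_lit 1)) (.cons (.ev (nat_lit 20282719093383858252985132908801) (nat_lit 1)) .nil)))) (.cons (.br (nat_lit 7) (nat_lit 1) (.cons (.rf (nat_lit 84) (nat_lit 13167209506)) (.cons (.br (nat_lit 8) (nat_lit 1) (.cons (.ev (nat_lit 20363805389068488531403065328900) (nat_lit 3)) .nil)) .nil))) .nil)))),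
 (.br (nat_lit 13) (nat_lit 1) (.cons (.kr (nat_lit 1099511628032) (nat_lit 72057594054705152) (nat_lit 1) (nat_lit 0)) (.cons (.rf (nat_lit 5567) (nat_lit 493858305440582043680)) (.cons (.rf (nat_lit 5567) (nat_lit 493855739180442814505)) (.cons (.br (nat_lit 13) (nat_lit 1) (.cons (.kr (nat_lit 1099511628032) (nat_lit 72057594054705152) (nat_lit 1) (nat_lit 0)) (.cons (.rf (nat_lit 5567) (nat_lit 493858305440582043680)) (.cons (.rf (nat_lit 5567) (nat_lit 493855739180442814505)) .nil)))) .nil))))),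
 (.br (nat_lit 13) (nat_lit 1) (.cons (.rf (nat_lit 5568) (nat_lit 493858305440582043680)) (.cons (.rf (nat_lit 5568) (nat_lit 493858305234356570336)) (.cons (.br (nat_lit 13) (nat_lit 1) (.cons (.rf (nat_lit 5568) (nat_lit 493858305440582043680)) (.cons (.rf (nat_lit 5568) (nat_lit 493858305234356570336)) (.cons (.ev (nat_lit 20362256745630310698896807034882) (nat_lit 2)) .nil)))) (.cons (.br (nat_lit 13) (nat_lit 1) (.cons (.rf (nat_lit 5568) (nat_lit 493858305440582043680)) (.cons (.rf (nat_lit 5568) (nat_lit 493858305234356570336)) (.cons (.ev (nat_lit 20362256745630310698896807034882) (nat_lit 2)) .nil)))) .nil))))),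
 (.br (nat_lit 10) (nat_lit 1) (.cons (.kr (nat_lit 1099511628032) (nat_lit 72057594054705152) (nat_lit 1) (nat_lit 0)) (.cons (.br (nat_lit 7) (nat_lit 1) (.cons (.ev (nat_lit 79229371458602753894777880576) (nat_lit 1)) (.cons (.br (nat_lit 8) (nat_lit 1) (.cons (.ev (nat_lit 20363805389068632644392151483140) (nat_lit 3)) .nil)) .nil))) (.cons (.br (nat_lit 13) (nat_lit 1) (.cons (.ev (nat_lit 20282410812577490038576426057729) (nat_lit 1)) (.cons (.rf (nat_lit 5466) (nat_lit 493855739008611621929)) (.cons (.br (nat_lit 7) (nat_lit 1) (.cons (.zr (nat_lit 1208944266362014354440192) (nat_lit 1237949484018908964142972930) (nat_lit 10) (nat_lit 4)) .nil)) .nil)))) .nil)))),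
 (.br (nat_lit 10) (nat_lit 1) (.cons (.ev (nat_lit 79538856449905297295738470401) (nat_lit 1)) (.cons (.rf (nat_lit 5570) (nat_lit 493858305440582043680)) (.cons (.br (nat_lit 7) (nat_lit 1) (.cons (.br (nat_lit 8) (nat_lit 1) (.cons (.ev (nat_lit 79229371458530697400234803456) (nat_lit 1)) .nil)) (.cons (.rf (nat_lit 84) (nat_lit 13331835938)) .nil))) .nil)))),
 (.br (nat_lit 10) (nat_lit 1) (.cons (.kr (nat_lit 1099511628032) (nat_lit 72057594054705152) (nat_lit 1) (nat_lit 0)) (.cons (.rf (nat_lit 5570) (nat_lit 493858305440582043680)) (.cons (.rf (nat_lit 5571) (nat_lit 493858305440582043680)) (.cons (.br (nat_lit 10) (nat_lit 1) (.cons (.kr (nat_lit 1099511628032) (nat_lit 72057594054705152) (nat_lit 1) (nat_lit 0)) (.cons (.rf (nat_lit 5570) (nat_lit 493858305440582043680)) (.cons (.rf (nat_lit 5571) (nat_lit 493858305440582043680)) .nil)))) .nil))))),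
 (.br (nat_lit 10) (nat_lit 1) (.cons (.rf (nat_lit 5572) (nat_lit 493858305440582043680)) (.cons (.rf (nat_lit 5572) (nat_lit 493858305234356570336)) (.cons (.br (nat_lit 10) (nat_lit 1) (.cons (.rf (nat_lit 5572) (nat_lit 493858305440582043680)) (.cons (.rf (nat_lit 5572) (nat_lit 493858305234356570336)) (.cons (.ev (nat_lit 79229376162450717666868985856) (nat_lit 1)) .nil)))) (.cons (.br (nat_lit 10) (nat_lit 1) (.cons (.rf (nat_lit 5572) (nat_lit 493858305440582043680)) (.cons (.rf (nat_lit 5572) (nat_lit 493858305234356570336)) (.cons (.ev (nat_lit 79229376162450717666868985856) (nat_lit 1)) .nil)))) .nil))))),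
 (.br (nat_lit 10) (nat_lit 1) (.cons (.rf (nat_lit 5572) (nat_lit 493858305440582043680)) (.cons (.rf (nat_lit 5572) (nat_lit 493858305234356570336)) (.cons (.rf (nat_lit 5573) (nat_lit 493858305440582043680)) (.cons (.br (nat_lit 10) (nat_lit 1) (.cons (.rf (nat_lit 5572) (nat_lit 493858305440582043680)) (.cons (.rf (nat_lit 5572) (nat_lit 493858305234356570336)) (.cons (.ev (nat_lit 79229376162450717666868985856) (nat_lit 1)) .nil)))) .nil))))),
 (.br (nat_lit 12) (nat_lit 1) (.cons (.rf (nat_lit 5566) (nat_lit 493858305440582043680)) (.cons (.rf (nat_lit 5566) (nat_lit 493858305234356570336)) (.cons (.br (nat_lit 13) (nat_lit 1) (.cons (.rf (nat_lit 5568) (nat_lit 493858305440582043680)) (.cons (.rf (nat_lit 5568) (nat_lit 493858305234356570336)) (.cons (.rf (nat_lit 5569) (nat_lit 493858305440582043680)) (.cons (.rf (nat_lit 5569) (nat_lit 493855739180442814505)) (.cons (.br (nat_lit 13) (nat_lit 1) (.cons (.rf (nat_lit 5568) (nat_lit 493858305440582043680)) (.cons (.rf (nat_lit 5568) (nat_lit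 493858305234356570336)) (.cons (.rf (nat_lit 5569) (nat_lit 493858305440582043680)) (.cons (.rf (nat_lit 5569) (nat_lit 493855739180442814505)) .nil))))) .nil)))))) (.cons (.kr (nat_lit 281474976710656) (nat_lit 309485009821345068724781056) (nat_lit 6) (nat_lit 0)) (.cons (.br (nat_lit 10) (nat_lit 1) (.cons (.rf (nat_lit 5572) (nat_lit 493858305440582043680)) (.cons (.rf (nat_lit 5572) (nat_lit 493858305234356570336)) (.cons (.rf (nat_lit 5573) (nat_lit 493858305440582043680)) (.cons (.rf (nat_lit 5574) (nat_lit 493858305440582043680)) (.cons (.br (nat_lit 10) (nat_lit 1) (.cons (.rf (nat_lit 5572) (nat_lit 493858305440582043680)) (.cons (.rf (nat_lit 5572) (nat_lit 493858305234356570336)) (.cons (.rf (nat_lit 5573) (nat_lit 493858305440582043680)) (.cons (.rf (nat_lit 5574) (nat_lit 493858305440582043680)) .nil))))) .nil)))))) .nil)))))),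
 (.br (nat_lit 12) (nat_lit 1) (.cons (.rf (nat_lit 5566) (nat_lit 493858305440582043680)) (.cons (.rf (nat_lit 5566) (nat_lit 493858305234356570336)) (.cons (.rf (nat_lit 5575) (nat_lit 493858305440582043680)) (.cons (.rf (nat_lit 5575) (nat_lit 493855739180442814505)) (.cons (.kr (nat_lit 281474976710656) (nat_lit 309485009821345068724781056) (nat_lit 6) (nat_lit 0)) (.cons (.br (nat_lit 12) (nat_lit 1) (.cons (.rf (nat_lit 5566) (nat_lit 493858305440582043680)) (.cons (.rf (nat_lit 5566) (nat_lit 493858305234356570336)) (.cons (.rf (nat_lit 5575) (nat_lit 493858305440582043680)) (.cons (.rf (nat_lit 5575) (nat_lit 493855739180442814505)) (.cons (.kr (nat_lit 281474976710656) (nat_lit 309485009821345068724781056) (nat_lit 6) (nat_lit 0)) .nil)))))) .nil))))))),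
 (.br (nat_lit 8) (nat_lit 1) (.cons (.br (nat_lit 10) (nat_lit 1) (.cons (.ev (nat_lit 79229371440156009821068328961) (nat_lit 1)) (.cons (.br (nat_lit 11) (nat_lit 1) (.cons (.zr (nat_lit 928455084804267427303194624) (nat_lit 2422574005994706794708993) (nat_lit 5) (nat_lit 0)) .nil)) .nil))) (.cons (.ev (nat_lit 79537652264970968303484862720) (nat_lit 1)) (.cons (.rf (nat_lit 5428) (nat_lit 15071359413656608)) .nil)))),
 (.br (nat_lit 8) (nat_lit 1) (.cons (.ev (nat_lit 79537647542604484330016211201) (nat_lit 1)) (.cons (.ev (nat_lit 79228167255149622135248388096) (nat_lit 1)) .nil))),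
 (.br (nat_lit 7) (nat_lit 1) (.cons (.rf (nat_lit 5577) (nat_lit 493858305440582043680)) (.cons (.rf (nat_lit 5577) (nat_lit 493855739180442814505)) (.cons (.kr (nat_lit 1099511628032) (nat_lit 309485009821345068724846592) (nat_lit 1) (nat_lit 0)) (.cons (.br (nat_lit 11) (nat_lit 1) (.cons (.rf (nat_lit 5578) (nat_lit 493858305440582043680)) (.cons (.rf (nat_lit 5578) (nat_lit 493855739180442814505)) (.cons (.rf (nat_lit 29) (nat_lit 13999169)) .nil)))) .nil))))),
 (.br (nat_lit 7) (nat_lit 1) (.cons (.br (nat_lit 10) (nat_lit 1) (.cons (.ev (nat_lit 79538856468352323943936295168) (nat_lit 1)) (.cons (.br (nat_lit 11) (nat_lit 1) (.cons (.ev (nat_lit 20363810205956089156237881573632) (nat_lit 3)) .nil)) .nil))) (.cons (.kr (nat_lit 1099511628032) (nat_lit 72057594054705152) (nat_lit 1) (nat_lit 0)) (.cons (.br (nat_lit 8) (nat_lit 1) (.cons (.ev (nat_lit 158767023742021029221925847299) (nat_lit 2)) (.cons (.br (nat_lit 10) (nat_lit 1) (.cons (.ev (nat_lit 79538856468424380438479372288) (nat_lit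 1)) .nil)) .nil))) (.cons (.br (nat_lit 8) (nat_lit 1) (.cons (.br (nat_lit 11) (nat_lit 1) (.cons (.ev (nat_lit 309499232405425864721891840) (nat_lit 2)) .nil)) (.cons (.ev (nat_lit 79537647542604484330016211201) (nat_lit 1)) (.cons (.br (nat_lit 10) (nat_lit 1) (.cons (.ev (nat_lit 309499232261308477589225472) (nat_lit 2)) .nil)) .nil)))) .nil))))),
 (.br (nat_lit 10) (nat_lit 1) (.cons (.rf (nat_lit 5580) (nat_lit 493858305440582043680)) (.cons (.rf (nat_lit 5580) (nat_lit 493858305234356570336)) (.cons (.rf (nat_lit 4727) (nat_lit 489283776317062513728)) (.cons (.br (nat_lit 13) (nat_lit 1) (.cons (.zr (nat_lit 55340234420151911168) (nat_lit 2422574005993607283081217) (nat_lit 5) (nat_lit 0)) (.cons (.zr (nat_lit 55556405003275993088) (nat_lit 2422574005994706777931777) (nat_lit 5) (nat_lit 0)) (.cons (.ev (nat_lit 40723587449415770625966539472898) (nat_lit 2)) .nil)))) .nil)))))]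

theorem c194 : chkAll C T R L194 (nat_lit 5557) = true := by decide +kernel

theorem l194 : (nat_lit 5557) + L194.length = (nat_lit 5582) := by decide +kernel

/-- part of the certificates -/
def L195 : List Prf := [(.br (nat_lit 10) (nat_lit 1) (.cons (.rf (nat_lit 5580) (nat_lit 493858305440582043680)) (.cons (.rf (nat_lit 5580) (nat_lit 493858305234356570336)) (.cons (.rf (nat_lit 4727) (nat_lit 489283776317062513728)) (.cons (.br (nat_lit 13) (nat_lit 1) (.cons (.ev (nat_lit 79229371440083953326525251841) (nat_lit 1)) (.cons (.ev (nat_lit 79229371440156009821068328961) (nat_lit 1)) (.cons (.ev (nat_lit 309499232261308477589225472) (nat_lit 2)) .nil)))) .nil))))),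
 (.br (nat_lit 10) (nat_lit 1) (.cons (.rf (nat_lit 5580) (nat_lit 493858305440582043680)) (.cons (.rf (nat_lit 5580) (nat_lit 493858305234356570336)) (.cons (.rf (nat_lit 5581) (nat_lit 493858305440582043680)) (.cons (.rf (nat_lit 5582) (nat_lit 493858305440582043680)) (.cons (.br (nat_lit 10) (nat_lit 1) (.cons (.rf (nat_lit 5580) (nat_lit 493858305440582043680)) (.cons (.rf (nat_lit 5580) (nat_lit 493858305234356570336)) (.cons (.rf (nat_lit 5581) (nat_lit 493858305440582043680)) (.cons (.rf (nat_lit 5582) (nat_lit 493858305440582043680)) .nil))))) .nil)))))),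
 (.br (nat_lit 7) (nat_lit 1) (.cons (.kr (nat_lit 1099511628032) (nat_lit 72057594054705152) (nat_lit 1) (nat_lit 0)) (.cons (.br (nat_lit 8) (nat_lit 1) (.cons (.rf (nat_lit 5446) (nat_lit 493858305268750851104)) (.cons (.br (nat_lit 10) (nat_lit 1) (.cons (.ev (nat_lit 79229376180969518235088060673) (nat_lit 1)) .nil)) (.cons (.br (nat_lit 10) (nat_lit 1) (.cons (.ev (nat_lit 79229376180969518235088060673) (nat_lit 1)) .nil)) .nil)))) (.cons (.br (nat_lit 13) (nat_lit 1) (.cons (.ev (nat_lit 20282719088679938513093997428993) (nat_lit 1)) (.cons (.zr (nat_lit 60847228810955011276239800369920) (nat_lit 158456329751039554724097425409) (nat_lit 5) (nat_lit 4)) .nil))) (.cons (.br (nat_lit 8) (nat_lit 1) (.cons (.br (nat_lit 10) (nat_lit 1) (.cons (.ev (nat_lit 79229371440083953326525251841) (nat_lit 1)) .nil)) (.cons (.rf (nat_lit 82) (nat_lit 13329738786)) .nil))) .nil))))),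
 (.br (nat_lit 8) (nat_lit 1) (.cons (.rf (nat_lit 5584) (nat_lit 493858305440582043680)) (.cons (.rf (nat_lit 5584) (nat_lit 493858305234356570336)) (.cons (.br (nat_lit 10) (nat_lit 1) (.cons (.ev (nat_lit 79228167255077565640705310976) (nat_lit 1)) (.cons (.ev (nat_lit 79228167255149622135248388096) (nat_lit 1)) (.cons (.ev (nat_lit 20282719093383858533360598056961) (nat_lit 1)) .nil)))) (.cons (.br (nat_lit 10) (nat_lit 1) (.cons (.rf (nat_lit 5584) (nat_lit 493855739180442814505)) (.cons (.rf (nat_lit 5584) (nat_lit 493855738974217341161)) (.cons (.ev (nat_lit 20282719093383858533360598056961) (nat_lit 1)) .nil)))) .nil))))),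
 (.br (nat_lit 12) (nat_lit 1) (.cons (.rf (nat_lit 5566) (nat_lit 493858305440582043680)) (.cons (.rf (nat_lit 5576) (nat_lit 493858305440582043680)) (.cons (.rf (nat_lit 5566) (nat_lit 493858305234356570336)) (.cons (.kr (nat_lit 281474976710656) (nat_lit 309485009821345068724781056) (nat_lit 6) (nat_lit 0)) (.cons (.br (nat_lit 2) (nat_lit 1) (.cons (.rf (nat_lit 5579) (nat_lit 493858305440582043680)) (.cons (.rf (nat_lit 5579) (nat_lit 493858305234356570336)) (.cons (.rf (nat_lit 5583) (nat_lit 493858305440582043680)) (.cons (.rf (nat_lit 5583) (nat_lit 493855739180442814505)) (.cons (.ev (nat_lit 79228167236631101942460907521) (nat_lit 1)) (.cons (.br (nat_lit 8) (nat_lit 1) (.cons (.rf (nat_lit 5584) (nat_lit 493858305440582043680)) (.cons (.rf (nat_lit 5584) (nat_lit 493858305234356570336)) (.cons (.rf (nat_lit 5585) (nat_lit 493858305440582043680)) (.cons (.br (nat_lit 10) (nat_lit 1) (.cons (.rf (nat_lit 5584) (nat_lit 493855739180442814505)) (.cons (.rf (nat_lit 5584) (nat_lit 493855738974217341161))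 (.cons (.rf (nat_lit 5585) (nat_lit 493858305440582043680)) (.cons (.ev (nat_lit 20282719093383858533360598056961) (nat_lit 1)) .nil))))) (.cons (.br (nat_lit 10) (nat_lit 1) (.cons (.rf (nat_lit 5584) (nat_lit 493855739180442814505)) (.cons (.rf (nat_lit 5584) (nat_lit 493855738974217341161)) (.cons (.rf (nat_lit 5585) (nat_lit 493858305440582043680)) (.cons (.ev (nat_lit 20282719093383858533360598056961) (nat_lit 1)) .nil))))) .nil)))))) .nil))))))) .nil)))))),
 (.br (nat_lit 12) (nat_lit 1) (.cons (.rf (nat_lit 5566) (nat_lit 493858305440582043680)) (.cons (.rf (nat_lit 5576) (nat_lit 493858305440582043680)) (.cons (.rf (nat_lit 5566) (nat_lit 493858305234356570336)) (.cons (.rf (nat_lit 5586) (nat_lit 493858305440582043680)) (.cons (.kr (nat_lit 281474976710656) (nat_lit 309485009821345068724781056) (nat_lit 6) (nat_lit 0)) (.cons (.br (nat_lit 12) (nat_lit 1) (.cons (.rf (nat_lit 5566) (nat_lit 493858305440582043680)) (.cons (.rf (nat_lit 5576) (nat_lit 493858305440582043680)) (.cons (.rf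 (nat_lit 5566) (nat_lit 493858305234356570336)) (.cons (.rf (nat_lit 5586) (nat_lit 493858305440582043680)) (.cons (.kr (nat_lit 281474976710656) (nat_lit 309485009821345068724781056) (nat_lit 6) (nat_lit 0)) .nil)))))) .nil))))))),
 (.br (nat_lit 11) (nat_lit 0) (.cons (.br (nat_lit 5) (nat_lit 1) (.cons (.br (nat_lit 1) (nat_lit 1) (.cons (.br (nat_lit 8) (nat_lit 1) (.cons (.rf (nat_lit 5416) (nat_lit 493858305440582043680)) (.cons (.rf (nat_lit 5421) (nat_lit 493858305440582043680)) (.cons (.rf (nat_lit 5423) (nat_lit 493858305440582043680)) (.cons (.rf (nat_lit 5424) (nat_lit 493858305440582043680)) (.cons (.br (nat_lit 8) (nat_lit 1) (.cons (.rf (nat_lit 5416) (nat_lit 493858305440582043680)) (.cons (.rf (nat_lit 5421) (nat_lit 493858305440582043680)) (.cons (.rf (nat_lit 5423) (nat_lit 493858305440582043680)) (.cons (.rf (nat_lit 5424) (nat_lit 493858305440582043680)) .nil))))) .nil)))))) (.cons (.br (nat_lit 8) (nat_lit 1) (.cons (.rf (nat_lit 5429) (nat_lit 493858305440582043680)) (.cons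 (.rf (nat_lit 5435) (nat_lit 493858305440582043680)) (.cons (.rf (nat_lit 5437) (nat_lit 493858305440582043680)) (.cons (.rf (nat_lit 5438) (nat_lit 493858305440582043680)) (.cons (.br (nat_lit 8) (nat_lit 1) (.cons (.rf (nat_lit 5429) (nat_lit 493858305440582043680)) (.cons (.rf (nat_lit 5435) (nat_lit 493858305440582043680)) (.cons (.rf (nat_lit 5437) (nat_lit 493858305440582043680)) (.cons (.rf (nat_lit 5438) (nat_lit 493858305440582043680)) .nil))))) .nil)))))) (.cons (.rf (nat_lit 5478) (nat_lit 493858305440582043680)) (.cons (.rf (nat_lit 5478) (nat_lit 493855739180442814505)) (.cons (.kr (nat_lit 16777216) (nat_lit 309485009821345068724781056) (nat_lit 3) (nat_lit 0)) (.cons (.br (nat_lit 8) (nat_lit 1) (.cons (.rf (nat_lit 5492) (nat_lit 493858305440582043680)) (.cons (.rf (nat_lit 5499) (nat_lit 493858305440582043680)) (.cons (.rf (nat_lit 5504) (nat_lit 493858305440582043680)) (.cons (.rf (nat_lit 5506) (nat_lit 493858305440582043680)) (.cons (.rf (nat_lit 5507) (nat_lit 493858305440582043680))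 (.cons (.br (nat_lit 8) (nat_lit 1) (.cons (.rf (nat_lit 5492) (nat_lit 493858305440582043680)) (.cons (.rf (nat_lit 5499) (nat_lit 493858305440582043680)) (.cons (.rf (nat_lit 5504) (nat_lit 493858305440582043680)) (.cons (.rf (nat_lit 5506) (nat_lit 493858305440582043680)) (.cons (.rf (nat_lit 5507) (nat_lit 493858305440582043680)) .nil)))))) .nil))))))) (.cons (.br (nat_lit 8) (nat_lit 1) (.cons (.rf (nat_lit 5523) (nat_lit 493858305440582043680)) (.cons (.rf (nat_lit 5532) (nat_lit 493858305440582043680)) (.cons (.rf (nat_lit 5537) (nat_lit 493858305440582043680)) (.cons (.rf (nat_lit 5539) (nat_lit 493858305440582043680)) (.cons (.rf (nat_lit 5540) (nat_lit 493858305440582043680)) (.cons (.br (nat_lit 8) (nat_lit 1) (.cons (.rf (nat_lit 5523) (nat_lit 493858305440582043680)) (.cons (.rf (nat_lit 5532) (nat_lit 493858305440582043680)) (.cons (.rf (nat_lit 5537) (nat_lit 493858305440582043680)) (.cons (.rf (nat_lit 5539) (nat_lit 493858305440582043680)) (.cons (.rf (nat_lit 5540) (nat_lit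 493858305440582043680)) .nil)))))) .nil))))))) .nil)))))))) .nil)) (.cons (.br (nat_lit 4) (nat_lit 1) (.cons (.br (nat_lit 12) (nat_lit 1) (.cons (.rf (nat_lit 5566) (nat_lit 493858305440582043680)) (.cons (.rf (nat_lit 5576) (nat_lit 493858305440582043680)) (.cons (.rf (nat_lit 5566) (nat_lit 493858305234356570336)) (.cons (.rf (nat_lit 5587) (nat_lit 493858305440582043680)) (.cons (.rf (nat_lit 5587) (nat_lit 493855739180442814505)) (.cons (.kr (nat_lit 281474976710656) (nat_lit 309485009821345068724781056) (nat_lit 6) (nat_lit 0)) (.cons (.br (nat_lit 12) (nat_lit 1) (.cons (.rf (nat_lit 5566) (nat_lit 493858305440582043680)) (.cons (.rf (nat_lit 5576) (nat_lit 493858305440582043680)) (.cons (.rf (nat_lit 5566) (nat_lit 493858305234356570336)) (.cons (.rf (nat_lit 5587) (nat_lit 493858305440582043680)) (.cons (.rf (nat_lit 5587) (nat_lit 493855739180442814505)) (.cons (.kr (nat_lit 281474976710656) (nat_lit 309485009821345068724781056) (nat_lit 6) (nat_lit 0)) .nil))))))) .nil)))))))) .nil))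 .nil))),
 (.br (nat_lit 6) (nat_lit 1) (.cons (.br (nat_lit 3) (nat_lit 1) (.cons (.rf (nat_lit 5588) (nat_lit 14242959524133701664)) (.cons (.br (nat_lit 5) (nat_lit 1) (.cons (.rf (nat_lit 5588) (nat_lit 14242959317908228320)) .nil)) .nil))) .nil)),
 (.br (nat_lit 11) (nat_lit 1) (.cons (.ev (nat_lit 310693935713017296249159681) (nat_lit 1)) (.cons (.ev (nat_lit 309485028340147835983953921) (nat_lit 1)) .nil))),
 (.br (nat_lit 10) (nat_lit 1) (.cons (.br (nat_lit 8) (nat_lit 1) (.cons (.rf (nat_lit 5590) (nat_lit 493858305440582043680)) (.cons (.rf (nat_lit 5590) (nat_lit 492741412732994160672)) (.cons (.zr (nat_lit 55340795171082272768) (nat_lit 2422574005713231817998337) (nat_lit 5) (nat_lit 0)) .nil)))) (.cons (.rf (nat_lit 31) (nat_lit 344366145)) .nil))),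
 (.br (nat_lit 10) (nat_lit 1) (.cons (.rf (nat_lit 5591) (nat_lit 493858305440582043680)) (.cons (.rf (nat_lit 5591) (nat_lit 492741412732994160672)) (.cons (.rf (nat_lit 31) (nat_lit 344366145)) .nil)))),
 (.br (nat_lit 8) (nat_lit 1) (.cons (.rf (nat_lit 5592) (nat_lit 493858305440582043680)) (.cons (.rf (nat_lit 2654) (nat_lit 424203753889)) (.cons (.kr (nat_lit 20282409603651670425046762914048) (nat_lit 72057598349672448) (nat_lit 1) (nat_lit 0)) .nil)))),
 (.br (nat_lit 8) (nat_lit 1) (.cons (.rf (nat_lit 5592) (nat_lit 493858305440582043680)) (.cons (.rf (nat_lit 5593) (nat_lit 493858305440582043680)) (.cons (.rf (nat_lit 5593) (nat_lit 492741412732994160672)) (.cons (.kr (nat_lit 20282409603651670425046762914048) (nat_lit 72057598349672448) (nat_lit 1) (nat_lit 0)) .nil))))),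
 (.br (nat_lit 10) (nat_lit 1) (.cons (.rf (nat_lit 5594) (nat_lit 493855739180442814505)) (.cons (.zr (nat_lit 55340234420151911168) (nat_lit 2422574005993607283081217) (nat_lit 5) (nat_lit 0)) (.cons (.br (nat_lit 12) (nat_lit 1) (.cons (.rf (nat_lit 3887) (nat_lit 9668117139593305129)) (.cons (.ev (nat_lit 20282719093402304997058842460416) (nat_lit 1)) .nil))) .nil)))),
 (.br (nat_lit 11) (nat_lit 1) (.cons (.rf (nat_lit 3887) (nat_lit 10784164219625576480)) (.cons (.rf (nat_lit 3887) (nat_lit 11935959824325580832)) .nil))),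
 (.br (nat_lit 8) (nat_lit 1) (.cons (.rf (nat_lit 5594) (nat_lit 493858305440582043680)) (.cons (.br (nat_lit 10) (nat_lit 1) (.cons (.rf (nat_lit 5594) (nat_lit 493855739180442814505)) (.cons (.rf (nat_lit 5595) (nat_lit 493858305440582043680)) (.cons (.rf (nat_lit 5595) (nat_lit 492741412732994160672)) (.cons (.br (nat_lit 10) (nat_lit 1) (.cons (.zr (nat_lit 3626777459406837477736448) (nat_lit 4759259972120887689217) (nat_lit 5) (nat_lit 9)) (.cons (.rf (nat_lit 5595) (nat_lit 493858305440582043680)) (.cons (.rf (nat_lit 5595) (nat_lit 492741412732994160672)) .nil)))) .nil))))) (.cons (.br (nat_lit 7) (nat_lit 1) (.cons (.rf (nat_lit 31) (nat_lit 344175681)) (.cons (.rf (nat_lit 31) (nat_lit 377730113)) (.cons (.br (nat_lit 10) (nat_lit 1) (.cons (.rf (nat_lit 5596) (nat_lit 15433072045018187808)) (.cons (.br (nat_lit 11) (nat_lit 1) (.cons (.rf (nat_lit 5596) (nat_lit 15433072045018187808)) (.cons (.ev (nat_lit 79228162532783140360803123201) (nat_lit 1)) .nil))) .nil))) .nil)))) .nil)))),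
 (.br (nat_lit 8) (nat_lit 1) (.cons (.rf (nat_lit 5594) (nat_lit 493858305440582043680)) (.cons (.rf (nat_lit 5597) (nat_lit 493858305440582043680)) (.cons (.rf (nat_lit 5597) (nat_lit 492741412732994160672)) (.cons (.br (nat_lit 10) (nat_lit 1) (.cons (.rf (nat_lit 31) (nat_lit 344175681)) (.cons (.rf (nat_lit 5597) (nat_lit 493855739180442814505)) (.cons (.rf (nat_lit 5597) (nat_lit 492738846472854931497)) .nil)))) .nil))))),
 (.br (nat_lit 8) (nat_lit 1) (.cons (.rf (nat_lit 5594) (nat_lit 493858305440582043680)) (.cons (.rf (nat_lit 5598) (nat_lit 493858305440582043680)) (.cons (.br (nat_lit 8) (nat_lit 1) (.cons (.rf (nat_lit 2654) (nat_lit 424203753889)) (.cons (.rf (nat_lit 5598) (nat_lit 493858305440582043680)) (.cons (.rf (nat_lit 2654) (nat_lit 424203950305)) .nil)))) (.cons (.br (nat_lit 8) (nat_lit 1) (.cons (.kr (nat_lit 20282409603651670425046762914048) (nat_lit 72057598349672448) (nat_lit 1) (nat_lit 0)) (.cons (.rf (nat_lit 5598) (nat_lit 493858305440582043680)) (.cons (.rf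 (nat_lit 2654) (nat_lit 424203950305)) .nil)))) .nil))))),
 (.br (nat_lit 8) (nat_lit 1) (.cons (.rf (nat_lit 5594) (nat_lit 493858305440582043680)) (.cons (.rf (nat_lit 5598) (nat_lit 493858305440582043680)) (.cons (.rf (nat_lit 5599) (nat_lit 493858305440582043680)) (.cons (.rf (nat_lit 5599) (nat_lit 492741412732994160672)) (.cons (.br (nat_lit 10) (nat_lit 1) (.cons (.rf (nat_lit 5594) (nat_lit 493855739180442814505)) (.cons (.rf (nat_lit 5598) (nat_lit 493858305440582043680)) (.cons (.rf (nat_lit 5599) (nat_lit 493855739180442814505)) (.cons (.rf (nat_lit 5599) (nat_lit 492738846472854931497)) .nil))))) .nil)))))),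
 (.br (nat_lit 10) (nat_lit 1) (.cons (.ev (nat_lit 1213666633123051801214976) (nat_lit 1)) .nil)),
 (.br (nat_lit 8) (nat_lit 1) (.cons (.br (nat_lit 10) (nat_lit 1) (.cons (.rf (nat_lit 5177) (nat_lit 12224562247)) (.cons (.br (nat_lit 11) (nat_lit 1) (.cons (.br (nat_lit 12) (nat_lit 1) (.cons (.ev (nat_lit 79228167236631101942460907521) (nat_lit 1)) .nil)) (.cons (.ev (nat_lit 20282720297587383723813693882625) (nat_lit 1)) .nil))) (.cons (.rf (nat_lit 84) (nat_lit 12090160167)) .nil)))) (.cons (.br (nat_lit 10) (nat_lit 1) (.cons (.br (nat_lit 12) (nat_lit 1) (.cons (.ev (nat_lit 310693954087704875415634176) (nat_lit 1)) (.cons (.rf (nat_lit 5160) (nat_lit 421257712981071988969)) .nil))) (.cons (.br (nat_lit 12) (nat_lit 1) (.cons (.rf (nat_lit 5601) (nat_lit 15433072045018187808)) (.cons (.ev (nat_lit 20361637766165934761545107046656) (nat_lit 1)) .nil))) (.cons (.rf (nat_lit 84) (nat_lit 12090160167)) .nil)))) (.cons (.rf (nat_lit 84) (nat_lit 12155139143)) .nil)))),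
 (.br (nat_lit 7) (nat_lit 1) (.cons (.rf (nat_lit 1339) (nat_lit 355853375522)) (.cons (.kr (nat_lit 1099511628032) (nat_lit 72057594054705152) (nat_lit 1) (nat_lit 0)) (.cons (.rf (nat_lit 5602) (nat_lit 493858305440582043680)) (.cons (.rf (nat_lit 5602) (nat_lit 492741412732994160672)) (.cons (.rf (nat_lit 31) (nat_lit 343968167)) .nil)))))),
 (.br (nat_lit 11) (nat_lit 1) (.cons (.br (nat_lit 12) (nat_lit 1) (.cons (.ev (nat_lit 79228167236631101942460907521) (nat_lit 1)) .nil)) (.cons (.ev (nat_lit 20282719088661491769020287877376) (nat_lit 1)) .nil))),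
 (.br (nat_lit 11) (nat_lit 1) (.cons (.br (nat_lit 8) (nat_lit 1) (.cons (.ev (nat_lit 310693954159761369958711296) (nat_lit 1)) (.cons (.rf (nat_lit 84) (nat_lit 11115148353)) .nil))) (.cons (.br (nat_lit 12) (nat_lit 1) (.cons (.ev (nat_lit 80160244321187500365554123011) (nat_lit 2)) (.cons (.ev (nat_lit 79228167236631101942460907521) (nat_lit 1)) .nil))) (.cons (.ev (nat_lit 20282720297587311665120127549441) (nat_lit 1)) .nil))))]

theorem c195 : chkAll C T R L195 (nat_lit 5582) = true := by decide +kernel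

theorem l195 : (nat_lit 5582) + L195.length = (nat_lit 5606) := by decide +kernel

/-- part of the certificates -/
def L196 : List Prf := [(.br (nat_lit 6) (nat_lit 1) (.cons (.rf (nat_lit 82) (nat_lit 10981945378)) (.cons (.rf (nat_lit 84) (nat_lit 7861383202)) (.cons (.br (nat_lit 7) (nat_lit 1) (.cons (.br (nat_lit 7) (nat_lit 1) (.cons (.rf (nat_lit 3791) (nat_lit 11933426618254661672)) .nil)) (.cons (.rf (nat_lit 3791) (nat_lit 11933426618254661672)) .nil))) .nil)))),
 (.br (nat_lit 10) (nat_lit 1) (.cons (.kr (nat_lit 1099511628032) (nat_lit 72057594054705152) (nat_lit 1) (nat_lit 0)) (.cons (.rf (nat_lit 5603) (nat_lit 493858305440582043680)) (.cons (.br (nat_lit 7) (nat_lit 1) (.cons (.br (nat_lit 8) (nat_lit 1) (.cons (.rf (nat_lit 5604) (nat_lit 493858305440582043680)) (.cons (.rf (nat_lit 5604) (nat_lit 492741412732994160672)) (.cons (.zr (nat_lit 1208944266363109520770563) (nat_lit 81129638447663319414945586610176) (nat_lit 10) (nat_lit 0)) .nil)))) (.cons (.rf (nat_lit 5605) (nat_lit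 493858305440582043680)) (.cons (.rf (nat_lit 5605) (nat_lit 492741412732994160672)) (.cons (.rf (nat_lit 2654) (nat_lit 424574752839)) .nil))))) (.cons (.rf (nat_lit 5606) (nat_lit 15433072045018187808)) .nil))))),
 (.br (nat_lit 10) (nat_lit 1) (.cons (.kr (nat_lit 1099511628032) (nat_lit 72057594054705152) (nat_lit 1) (nat_lit 0)) (.cons (.rf (nat_lit 5603) (nat_lit 493858305440582043680)) (.cons (.rf (nat_lit 5607) (nat_lit 493858305440582043680)) (.cons (.rf (nat_lit 5607) (nat_lit 492741412732994160672)) (.cons (.br (nat_lit 10) (nat_lit 1) (.cons (.kr (nat_lit 1099511628032) (nat_lit 72057594054705152) (nat_lit 1) (nat_lit 0)) (.cons (.rf (nat_lit 1339) (nat_lit 286934865985)) (.cons (.rf (nat_lit 5606) (nat_lit 15433072045018187808)) (.cons (.rf (nat_lit 5606) (nat_lit 15398169147906066464)) .nil))))) .nil)))))),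
 (.br (nat_lit 11) (nat_lit 1) (.cons (.br (nat_lit 12) (nat_lit 1) (.cons (.ev (nat_lit 79228167236631101942460907521) (nat_lit 1)) .nil)) (.cons (.ev (nat_lit 20282719088679938513093997428993) (nat_lit 1)) .nil))),
 (.br (nat_lit 7) (nat_lit 1) (.cons (.rf (nat_lit 5609) (nat_lit 493858305440582043680)) (.cons (.rf (nat_lit 5609) (nat_lit 492741412732994160672)) (.cons (.zr (nat_lit 60847228811010568239794983469056) (nat_lit 2422574005716543221007105) (nat_lit 5) (nat_lit 0)) .nil)))),
 (.br (nat_lit 12) (nat_lit 1) (.cons (.zr (nat_lit 55340234420151911168) (nat_lit 2422574005993607283081217) (nat_lit 5) (nat_lit 0)) (.cons (.zr (nat_lit 55556405003275993088) (nat_lit 2422574005994706777931777) (nat_lit 5) (nat_lit 0)) (.cons (.br (nat_lit 12) (nat_lit 1) (.cons (.zr (nat_lit 55340234420151911168) (nat_lit 2422574005993607283081217) (nat_lit 5) (nat_lit 0)) (.cons (.zr (nat_lit 55556405003275993088) (nat_lit 2422574005994706777931777) (nat_lit 5) (nat_lit 0)) (.cons (.ev (nat_lit 79228167236631101942460907521)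 (nat_lit 1)) .nil)))) (.cons (.br (nat_lit 12) (nat_lit 1) (.cons (.zr (nat_lit 55340234420151911168) (nat_lit 2422574005993607283081217) (nat_lit 5) (nat_lit 0)) (.cons (.zr (nat_lit 55556405003275993088) (nat_lit 2422574005994706777931777) (nat_lit 5) (nat_lit 0)) (.cons (.ev (nat_lit 79228167236631101942460907521) (nat_lit 1)) .nil)))) .nil))))),
 (.br (nat_lit 7) (nat_lit 1) (.cons (.rf (nat_lit 84) (nat_lit 12155526209)) (.cons (.kr (nat_lit 1099511628032) (nat_lit 72057594054705152) (nat_lit 1) (nat_lit 0)) (.cons (.br (nat_lit 8) (nat_lit 1) (.cons (.rf (nat_lit 5177) (nat_lit 12224574529)) (.cons (.br (nat_lit 11) (nat_lit 1) (.cons (.ev (nat_lit 20680103904809326326112642729728) (nat_lit 3)) .nil)) .nil))) .nil)))),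
 (.br (nat_lit 10) (nat_lit 1) (.cons (.rf (nat_lit 5608) (nat_lit 493858305440582043680)) (.cons (.rf (nat_lit 5608) (nat_lit 493858305234356570336)) (.cons (.br (nat_lit 8) (nat_lit 1) (.cons (.rf (nat_lit 5610) (nat_lit 493858305440582043680)) (.cons (.rf (nat_lit 5610) (nat_lit 493858305234356570336)) (.cons (.rf (nat_lit 5611) (nat_lit 493858305440582043680)) (.cons (.rf (nat_lit 5611) (nat_lit 492741412732994160672)) (.cons (.ev (nat_lit 40564821629895793868158573543426) (nat_lit 2)) .nil)))))) (.cons (.br (nat_lit 1) (nat_lit 1) (.cons (.rf (nat_lit 31) (nat_lit 344361185)) (.cons (.rf (nat_lit 2594) (nat_lit 8972999745)) (.cons (.rf (nat_lit 5612) (nat_lit 493858305440582043680)) (.cons (.br (nat_lit 7) (nat_lit 1) (.cons (.zr (nat_lit 1223093207293622885613824) (nat_lit 81129638414606681978363493482502) (nat_lit 10) (nat_lit 9)) (.cons (.rf (nat_lit 5612) (nat_lit 493858305234356570336)) (.cons (.kr (nat_lit 1099511628032) (nat_lit 72057594054705152) (nat_lit 1) (nat_lit 0)) .nil))))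 .nil))))) .nil))))),
 (.br (nat_lit 10) (nat_lit 1) (.cons (.rf (nat_lit 5608) (nat_lit 493858305440582043680)) (.cons (.rf (nat_lit 5608) (nat_lit 493858305234356570336)) (.cons (.rf (nat_lit 5613) (nat_lit 493858305440582043680)) (.cons (.rf (nat_lit 5613) (nat_lit 492741412732994160672)) (.cons (.br (nat_lit 10) (nat_lit 1) (.cons (.rf (nat_lit 1339) (nat_lit 286934865985)) (.cons (.rf (nat_lit 1339) (nat_lit 286733539399)) (.cons (.rf (nat_lit 5613) (nat_lit 493858305440582043680)) (.cons (.rf (nat_lit 5613) (nat_lit 492741412732994160672)) .nil))))) .nil)))))),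
 (.br (nat_lit 8) (nat_lit 1) (.cons (.zr (nat_lit 1223092919066545235232000) (nat_lit 81129638414606681977264015409158) (nat_lit 10) (nat_lit 9)) (.cons (.zr (nat_lit 1223093279351216940318720) (nat_lit 81129638414606681979463005110278) (nat_lit 10) (nat_lit 9)) (.cons (.zr (nat_lit 3626777459406841772703746) (nat_lit 40564819212117941052232223948800) (nat_lit 5) (nat_lit 9)) .nil)))),
 (.br (nat_lit 10) (nat_lit 1) (.cons (.rf (nat_lit 5608) (nat_lit 493858305440582043680)) (.cons (.rf (nat_lit 5608) (nat_lit 493858305234356570336)) (.cons (.rf (nat_lit 5614) (nat_lit 493858305440582043680)) (.cons (.br (nat_lit 8) (nat_lit 1) (.cons (.zr (nat_lit 1223092919066545235232000) (nat_lit 81129638414606681977264015409158) (nat_lit 10) (nat_lit 9)) (.cons (.zr (nat_lit 1223093279351216940318720) (nat_lit 81129638414606681979463005110278) (nat_lit 10) (nat_lit 9)) (.cons (.rf (nat_lit 5615) (nat_lit 493858305440582043680)) (.cons (.rf (nat_lit 5615) (nat_lit 492741412732994160672)) .nil))))) .nil))))),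
 (.br (nat_lit 10) (nat_lit 1) (.cons (.rf (nat_lit 5608) (nat_lit 493858305440582043680)) (.cons (.rf (nat_lit 5608) (nat_lit 493858305234356570336)) (.cons (.rf (nat_lit 5614) (nat_lit 493858305440582043680)) (.cons (.rf (nat_lit 5616) (nat_lit 493858305440582043680)) (.cons (.br (nat_lit 10) (nat_lit 1) (.cons (.rf (nat_lit 5606) (nat_lit 15433072045018187808)) (.cons (.rf (nat_lit 5606) (nat_lit 15433072038573639904)) (.cons (.rf (nat_lit 5614) (nat_lit 493858305440582043680)) (.cons (.rf (nat_lit 5616) (nat_lit 493858305440582043680)) .nil))))) .nil)))))),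
 (.br (nat_lit 10) (nat_lit 1) (.cons (.rf (nat_lit 5608) (nat_lit 493858305440582043680)) (.cons (.rf (nat_lit 5608) (nat_lit 493858305234356570336)) (.cons (.rf (nat_lit 5614) (nat_lit 493858305440582043680)) (.cons (.rf (nat_lit 5617) (nat_lit 493858305440582043680)) (.cons (.rf (nat_lit 5617) (nat_lit 492741412732994160672)) (.cons (.br (nat_lit 10) (nat_lit 1) (.cons (.rf (nat_lit 5608) (nat_lit 493858305440582043680)) (.cons (.rf (nat_lit 5608) (nat_lit 493858305234356570336)) (.cons (.rf (nat_lit 5614) (nat_lit 493858305440582043680)) (.cons (.rf (nat_lit 5617) (nat_lit 493858305440582043680)) (.cons (.rf (nat_lit 5617) (nat_lit 492741412732994160672)) .nil)))))) .nil))))))),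
 (.br (nat_lit 7) (nat_lit 1) (.cons (.rf (nat_lit 5044) (nat_lit 13162095612523578432)) (.cons (.rf (nat_lit 2594) (nat_lit 12148028642)) (.cons (.br (nat_lit 11) (nat_lit 1) (.cons (.br (nat_lit 10) (nat_lit 1) (.cons (.rf (nat_lit 5601) (nat_lit 15362060189617489961)) (.cons (.rf (nat_lit 5177) (nat_lit 12224574498)) .nil))) (.cons (.br (nat_lit 12) (nat_lit 1) (.cons (.zr (nat_lit 237684487542793294264198497025) (nat_lit 618974779046777442118139904) (nat_lit 5) (nat_lit 3)) (.cons (.ev (nat_lit 20361637770906820328652693111040) (nat_lit 1)) .nil))) (.cons (.ev (nat_lit 309485009821345068741624064) (nat_lit 1)) .nil)))) (.cons (.rf (nat_lit 31) (nat_lit 377554343)) .nil))))),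
 (.br (nat_lit 10) (nat_lit 1) (.cons (.rf (nat_lit 5044) (nat_lit 13159529144080538697)) (.cons (.br (nat_lit 12) (nat_lit 1) (.cons (.ev (nat_lit 79229376180897461740578537473) (nat_lit 1)) (.cons (.ev (nat_lit 79228167236631101942460907521) (nat_lit 1)) .nil))) (.cons (.zr (nat_lit 1223111365810623239750912) (nat_lit 101412048018258352401211266695175) (nat_lit 10) (nat_lit 9)) .nil)))),
 (.br (nat_lit 10) (nat_lit 1) (.cons (.rf (nat_lit 5044) (nat_lit 13159529144080538697)) (.cons (.br (nat_lit 12) (nat_lit 1) (.cons (.ev (nat_lit 79229376180897461740578537473) (nat_lit 1)) (.cons (.ev (nat_lit 79229371440083953326525251841) (nat_lit 1)) (.cons (.ev (nat_lit 79228167236631101942460907521) (nat_lit 1)) .nil)))) (.cons (.br (nat_lit 7) (nat_lit 1) (.cons (.rf (nat_lit 84) (nat_lit 8937446465)) (.cons (.br (nat_lit 11) (nat_lit 1) (.cons (.ev (nat_lit 20837943687225552640210220025094) (nat_lit 3)) .nil)) .nil))) .nil)))),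
 (.br (nat_lit 8) (nat_lit 1) (.cons (.kr (nat_lit 1099511628032) (nat_lit 72057594054705152) (nat_lit 1) (nat_lit 0)) (.cons (.rf (nat_lit 5619) (nat_lit 493858305440582043680)) (.cons (.br (nat_lit 10) (nat_lit 1) (.cons (.rf (nat_lit 5620) (nat_lit 493858305440582043680)) (.cons (.rf (nat_lit 5621) (nat_lit 493858305440582043680)) (.cons (.br (nat_lit 10) (nat_lit 1) (.cons (.rf (nat_lit 5620) (nat_lit 493858305440582043680)) (.cons (.rf (nat_lit 5621) (nat_lit 493858305440582043680)) (.cons (.zr (nat_lit 1223092919066545235232000) (nat_lit 81129638414606681977264015409158) (nat_lit 10) (nat_lit 9)) .nil)))) (.cons (.br (nat_lit 10) (nat_lit 1) (.cons (.zr (nat_lit 1223111365810623239750912) (nat_lit 101412048018258352401211266695175) (nat_lit 10) (nat_lit 9)) (.cons (.rf (nat_lit 5621) (nat_lit 493858305440582043680)) (.cons (.zr (nat_lit 1223092919066545235232000) (nat_lit 81129638414606681977264015409158) (nat_lit 10) (nat_lit 9)) .nil)))) .nil))))) (.cons (.rf (nat_lit 5606) (nat_lit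 15431865983841732649)) .nil))))),
 (.br (nat_lit 8) (nat_lit 1) (.cons (.kr (nat_lit 1099511628032) (nat_lit 72057594054705152) (nat_lit 1) (nat_lit 0)) (.cons (.rf (nat_lit 5622) (nat_lit 493858305440582043680)) (.cons (.br (nat_lit 7) (nat_lit 1) (.cons (.br (nat_lit 11) (nat_lit 1) (.cons (.br (nat_lit 10) (nat_lit 1) (.cons (.br (nat_lit 12) (nat_lit 1) (.cons (.ev (nat_lit 79228167236631101942460907521) (nat_lit 1)) .nil)) (.cons (.ev (nat_lit 20283029796782751823428424106499) (nat_lit 2)) .nil))) (.cons (.br (nat_lit 12) (nat_lit 1) (.cons (.br (nat_lit 10) (nat_lit 1) (.cons (.ev (nat_lit 1858128448287689443324790530) (nat_lit 3)) .nil)) (.cons (.ev (nat_lit 20361637766165934761545107046656) (nat_lit 1)) .nil))) (.cons (.ev (nat_lit 309485009821345068741624064) (nat_lit 1)) .nil)))) (.cons (.rf (nat_lit 2594) (nat_lit 12215137506)) (.cons (.br (nat_lit 11) (nat_lit 1) (.cons (.br (nat_lit 12) (nat_lit 1) (.cons (.br (nat_lit 10) (nat_lit 1) (.cons (.ev (nat_lit 20837943687225264405436088910086)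 (nat_lit 3)) .nil)) (.cons (.ev (nat_lit 79228162532711081667270344961) (nat_lit 1)) .nil))) (.cons (.rf (nat_lit 5177) (nat_lit 13232244775)) (.cons (.ev (nat_lit 309485009821345068741624064) (nat_lit 1)) .nil)))) (.cons (.rf (nat_lit 31) (nat_lit 377554343)) .nil))))) (.cons (.rf (nat_lit 1339) (nat_lit 391085725761)) .nil))))),
 (.br (nat_lit 8) (nat_lit 1) (.cons (.kr (nat_lit 1099511628032) (nat_lit 72057594054705152) (nat_lit 1) (nat_lit 0)) (.cons (.rf (nat_lit 5622) (nat_lit 493858305440582043680)) (.cons (.rf (nat_lit 5623) (nat_lit 493858305440582043680)) (.cons (.br (nat_lit 7) (nat_lit 1) (.cons (.br (nat_lit 10) (nat_lit 1) (.cons (.rf (nat_lit 5623) (nat_lit 493855738974217341161)) (.cons (.br (nat_lit 10) (nat_lit 1) (.cons (.rf (nat_lit 5623) (nat_lit 493855738974217341161)) .nil)) .nil))) (.cons (.rf (nat_lit 82) (nat_lit 13262631970)) (.cons (.rf (nat_lit 84) (nat_lit 12222444578)) .nil)))) .nil))))),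
 (.br (nat_lit 8) (nat_lit 1) (.cons (.kr (nat_lit 1099511628032) (nat_lit 72057594054705152) (nat_lit 1) (nat_lit 0)) (.cons (.rf (nat_lit 5622) (nat_lit 493858305440582043680)) (.cons (.rf (nat_lit 5623) (nat_lit 493858305440582043680)) (.cons (.rf (nat_lit 5624) (nat_lit 493858305440582043680)) (.cons (.br (nat_lit 8) (nat_lit 1) (.cons (.kr (nat_lit 1099511628032) (nat_lit 72057594054705152) (nat_lit 1) (nat_lit 0)) (.cons (.rf (nat_lit 5606) (nat_lit 15431865983841732649)) (.cons (.rf (nat_lit 1339) (nat_lit 391085725761)) (.cons (.rf (nat_lit 5624) (nat_lit 493858305440582043680)) .nil))))) .nil)))))),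
 (.br (nat_lit 10) (nat_lit 1) (.cons (.rf (nat_lit 5625) (nat_lit 493855739180442814505)) (.cons (.rf (nat_lit 5625) (nat_lit 493855738974217341161)) (.cons (.br (nat_lit 13) (nat_lit 1) (.cons (.ev (nat_lit 310698676454186641271095553) (nat_lit 1)) (.cons (.ev (nat_lit 310698676526245334803873793) (nat_lit 1)) (.cons (.ev (nat_lit 79228167236631101942460907521) (nat_lit 1)) .nil)))) (.cons (.rf (nat_lit 4727) (nat_lit 455707189295201780800)) .nil))))),
 (.br (nat_lit 1) (nat_lit 1) (.cons (.rf (nat_lit 31) (nat_lit 377566433)) (.cons (.rf (nat_lit 1339) (nat_lit 391085725761)) (.cons (.rf (nat_lit 5625) (nat_lit 493855739180442814505)) (.cons (.rf (nat_lit 1339) (nat_lit 288009296289)) (.cons (.br (nat_lit 7) (nat_lit 1) (.cons (.rf (nat_lit 84) (nat_lit 13262468321)) (.cons (.rf (nat_lit 5625) (nat_lit 493855738974217341161)) (.cons (.rf (nat_lit 84) (nat_lit 13165304897)) (.cons (.kr (nat_lit 1099511628032) (nat_lit 72057594054705152) (nat_lit 1) (nat_lit 0)) .nil))))) .nil)))))),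
 (.br (nat_lit 8) (nat_lit 1) (.cons (.rf (nat_lit 5625) (nat_lit 493858305440582043680)) (.cons (.rf (nat_lit 5625) (nat_lit 493858305234356570336)) (.cons (.br (nat_lit 10) (nat_lit 1) (.cons (.rf (nat_lit 5625) (nat_lit 493855739180442814505)) (.cons (.rf (nat_lit 5625) (nat_lit 493855738974217341161)) (.cons (.rf (nat_lit 5626) (nat_lit 493858305440582043680)) (.cons (.br (nat_lit 10) (nat_lit 1) (.cons (.rf (nat_lit 5625) (nat_lit 493855739180442814505)) (.cons (.rf (nat_lit 5625) (nat_lit 493855738974217341161)) (.cons (.rf (nat_lit 5626) (nat_lit 493858305440582043680)) (.cons (.zr (nat_lit 60847232437732470678679231594498) (nat_lit 4814600204354901245952) (nat_lit 5) (nat_lit 9)) .nil))))) (.cons (.br (nat_lit 10) (nat_lit 1) (.cons (.rf (nat_lit 5606) (nat_lit 15429694448376875040)) (.cons (.rf (nat_lit 5606) (nat_lit 15429694441932327136)) (.cons (.rf (nat_lit 4727) (nat_lit 455707189295201780800)) (.cons (.zr (nat_lit 60847232437732470678679231594498) (nat_lit 4814600204354901245952)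 (nat_lit 5) (nat_lit 9)) .nil))))) .nil)))))) (.cons (.rf (nat_lit 5627) (nat_lit 493858305440582043680)) .nil))))),
 (.br (nat_lit 8) (nat_lit 1) (.cons (.rf (nat_lit 5625) (nat_lit 493858305440582043680)) (.cons (.rf (nat_lit 5625) (nat_lit 493858305234356570336)) (.cons (.rf (nat_lit 5628) (nat_lit 493858305440582043680)) (.cons (.br (nat_lit 10) (nat_lit 1) (.cons (.zr (nat_lit 18446747380834436355) (nat_lit 81129638442940880874481886691328) (nat_lit 10) (nat_lit 0)) (.cons (.zr (nat_lit 18807032052539523075) (nat_lit 81129638442940880876680876392448) (nat_lit 10) (nat_lit 0)) (.cons (.rf (nat_lit 5628) (nat_lit 493855739180442814505)) (.cons (.br (nat_lit 10) (nat_lit 1) (.cons (.zr (nat_lit 18446747380834436355) (nat_lit 81129638442940880874481886691328) (nat_lit 10) (nat_lit 0)) (.cons (.zr (nat_lit 18807032052539523075) (nat_lit 81129638442940880876680876392448) (nat_lit 10) (nat_lit 0)) (.cons (.zr (nat_lit 60847228820455085032752126558208) (nat_lit 6044629098074262581805057) (nat_lit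 5) (nat_lit 0)) .nil)))) .nil))))) .nil))))),
 (.br (nat_lit 8) (nat_lit 1) (.cons (.rf (nat_lit 5625) (nat_lit 493858305440582043680)) (.cons (.rf (nat_lit 5625) (nat_lit 493858305234356570336)) (.cons (.rf (nat_lit 5628) (nat_lit 493858305440582043680)) (.cons (.rf (nat_lit 5629) (nat_lit 493858305440582043680)) (.cons (.br (nat_lit 10) (nat_lit 1) (.cons (.rf (nat_lit 5625) (nat_lit 493855739180442814505)) (.cons (.rf (nat_lit 5625) (nat_lit 493855738974217341161)) (.cons (.rf (nat_lit 5628) (nat_lit 493855739180442814505)) (.cons (.rf (nat_lit 5629) (nat_lit 493855739180442814505)) .nil))))) .nil))))))]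

theorem c196 : chkAll C T R L196 (nat_lit 5606) = true := by decide +kernel

theorem l196 : (nat_lit 5606) + L196.length = (nat_lit 5631) := by decide +kernel

/-- part of the certificates -/
def L197 : List Prf := [(.br (nat_lit 8) (nat_lit 1) (.cons (.rf (nat_lit 5625) (nat_lit 493858305440582043680)) (.cons (.rf (nat_lit 5625) (nat_lit 493858305234356570336)) (.cons (.rf (nat_lit 5630) (nat_lit 493858305440582043680)) (.cons (.br (nat_lit 8) (nat_lit 1) (.cons (.rf (nat_lit 5625) (nat_lit 493858305440582043680)) (.cons (.rf (nat_lit 5625) (nat_lit 493858305234356570336)) (.cons (.rf (nat_lit 5630) (nat_lit 493858305440582043680)) (.cons (.rf (nat_lit 5627) (nat_lit 493858305440582043680)) .nil))))) (.cons (.rf (nat_lit 5627) (nat_lit 493858305440582043680)) .nil)))))),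
 (.br (nat_lit 8) (nat_lit 1) (.cons (.rf (nat_lit 5625) (nat_lit 493858305440582043680)) (.cons (.rf (nat_lit 5625) (nat_lit 493858305234356570336)) (.cons (.rf (nat_lit 5630) (nat_lit 493858305440582043680)) (.cons (.rf (nat_lit 5631) (nat_lit 493858305440582043680)) (.cons (.br (nat_lit 8) (nat_lit 1) (.cons (.rf (nat_lit 5625) (nat_lit 493858305440582043680)) (.cons (.rf (nat_lit 5625) (nat_lit 493858305234356570336)) (.cons (.rf (nat_lit 5630) (nat_lit 493858305440582043680)) (.cons (.rf (nat_lit 5631) (nat_lit 493858305440582043680)) .nil))))) .nil)))))),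
 (.br (nat_lit 8) (nat_lit 1) (.cons (.rf (nat_lit 5625) (nat_lit 493858305440582043680)) (.cons (.rf (nat_lit 5625) (nat_lit 493858305234356570336)) (.cons (.rf (nat_lit 5630) (nat_lit 493858305440582043680)) (.cons (.rf (nat_lit 5631) (nat_lit 493858305440582043680)) (.cons (.rf (nat_lit 5632) (nat_lit 493858305440582043680)) (.cons (.br (nat_lit 10) (nat_lit 1) (.cons (.rf (nat_lit 5625) (nat_lit 493855739180442814505)) (.cons (.rf (nat_lit 5625) (nat_lit 493855738974217341161)) (.cons (.rf (nat_lit 5630) (nat_lit 493858305440582043680)) (.cons (.rf (nat_lit 5631) (nat_lit 493855739180442814505)) (.cons (.rf (nat_lit 5632) (nat_lit 493855739180442814505)) .nil)))))) .nil))))))),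
 (.br (nat_lit 6) (nat_lit 1) (.cons (.rf (nat_lit 5589) (nat_lit 407901468851537952)) (.cons (.br (nat_lit 6) (nat_lit 1) (.cons (.rf (nat_lit 5589) (nat_lit 443930265870501920)) (.cons (.br (nat_lit 3) (nat_lit 1) (.cons (.br (nat_lit 4) (nat_lit 1) (.cons (.br (nat_lit 13) (nat_lit 0) (.cons (.br (nat_lit 2) (nat_lit 1) (.cons (.rf (nat_lit 5600) (nat_lit 493858305440582043680)) (.cons (.rf (nat_lit 5600) (nat_lit 493858305234356570336)) (.cons (.rf (nat_lit 5618) (nat_lit 493858305440582043680)) (.cons (.rf (nat_lit 5618) (nat_lit 493855739180442814505)) (.cons (.rf (nat_lit 5633) (nat_lit 493858305440582043680)) (.cons (.rf (nat_lit 5633) (nat_lit 492741412732994160672)) (.cons (.kr (nat_lit 4294967296) (nat_lit 20282409603651670423947251286016) (nat_lit 4) (nat_lit 0)) .nil)))))))) .nil)) .nil)) .nil)) .nil))) .nil))),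
 (.br (nat_lit 7) (nat_lit 0) (.cons (.rf (nat_lit 5412) (nat_lit 11584529844247584)) (.cons (.rf (nat_lit 5412) (nat_lit 11584494443306048)) (.cons (.rf (nat_lit 5634) (nat_lit 11584701642934304)) (.cons (.rf (nat_lit 5634) (nat_lit 11584700601730112)) .nil))))),
 (.br (nat_lit 9) (nat_lit 1) (.cons (.rf (nat_lit 1280) (nat_lit 11242248964137)) (.cons (.br (nat_lit 2) (nat_lit 0) (.cons (.rf (nat_lit 5412) (nat_lit 11584701642934304)) (.cons (.rf (nat_lit 5635) (nat_lit 11584701642934304)) (.cons (.br (nat_lit 7) (nat_lit 0) (.cons (.rf (nat_lit 5412) (nat_lit 11584529844247584)) (.cons (.rf (nat_lit 5635) (nat_lit 11584529844247584)) (.cons (.rf (nat_lit 5412) (nat_lit 11584495417465920)) (.cons (.rf (nat_lit 5635) (nat_lit 11584527698861088)) .nil))))) (.cons (.rf (nat_lit 5635) (nat_lit 11584699497547808)) .nil))))) .nil))),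
 (.br (nat_lit 7) (nat_lit 0) (.cons (.rf (nat_lit 4352) (nat_lit 8871427015904)) (.cons (.rf (nat_lit 5307) (nat_lit 8871427015904)) (.cons (.rf (nat_lit 4352) (nat_lit 8869281629408)) .nil)))),
 (.br (nat_lit 9) (nat_lit 1) (.cons (.rf (nat_lit 1280) (nat_lit 11242248964137)) (.cons (.br (nat_lit 7) (nat_lit 0) (.cons (.rf (nat_lit 5637) (nat_lit 407901468851537952)) (.cons (.rf (nat_lit 5637) (nat_lit 407901467810334752)) (.cons (.rf (nat_lit 5637) (nat_lit 407901468784494624)) (.cons (.rf (nat_lit 5637) (nat_lit 407901467743291424)) .nil))))) .nil))),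
 (.br (nat_lit 7) (nat_lit 0) (.cons (.rf (nat_lit 4352) (nat_lit 8871427015904)) (.cons (.rf (nat_lit 5307) (nat_lit 8871427015904)) (.cons (.rf (nat_lit 4352) (nat_lit 8869281629408)) .nil)))),
 (.br (nat_lit 9) (nat_lit 1) (.cons (.rf (nat_lit 5636) (nat_lit 325702574508064)) (.cons (.rf (nat_lit 5638) (nat_lit 11584701642934304)) (.cons (.br (nat_lit 9) (nat_lit 1) (.cons (.rf (nat_lit 5636) (nat_lit 325702574508064)) (.cons (.rf (nat_lit 5638) (nat_lit 12710601549776928)) (.cons (.br (nat_lit 7) (nat_lit 0) (.cons (.rf (nat_lit 5639) (nat_lit 407901468851537952)) (.cons (.rf (nat_lit 5639) (nat_lit 407901467810334752)) (.cons (.rf (nat_lit 5639) (nat_lit 407901468784494624)) (.cons (.rf (nat_lit 5639) (nat_lit 407901467743291424)) .nil))))) .nil)))) .nil)))),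
 (.br (nat_lit 2) (nat_lit 0) (.cons (.rf (nat_lit 4352) (nat_lit 9043225707584)) (.cons (.rf (nat_lit 5307) (nat_lit 9043225707584)) (.cons (.rf (nat_lit 4352) (nat_lit 9041080321088)) .nil)))),
 (.br (nat_lit 9) (nat_lit 1) (.cons (.rf (nat_lit 5640) (nat_lit 325702574508064)) (.cons (.rf (nat_lit 5640) (nat_lit 325530775821344)) (.cons (.br (nat_lit 9) (nat_lit 1) (.cons (.rf (nat_lit 5640) (nat_lit 325702574508064)) (.cons (.rf (nat_lit 5640) (nat_lit 325530775821344)) (.cons (.br (nat_lit 2) (nat_lit 0) (.cons (.rf (nat_lit 5641) (nat_lit 14242959524133701664)) (.cons (.rf (nat_lit 5641) (nat_lit 14242959523092498464)) (.cons (.rf (nat_lit 5641) (nat_lit 14242959524066658336)) (.cons (.rf (nat_lit 5641) (nat_lit 14242959523025455136)) .nil))))) .nil)))) .nil)))),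
 (.br (nat_lit 2) (nat_lit 0) (.cons (.rf (nat_lit 4352) (nat_lit 9043225707584)) (.cons (.rf (nat_lit 4352) (nat_lit 9040039117888)) (.cons (.rf (nat_lit 5307) (nat_lit 9042184504384)) .nil)))),
 (.br (nat_lit 0) (nat_lit 1) (.cons (.rf (nat_lit 1280) (nat_lit 9043225708576)) (.cons (.br (nat_lit 1) (nat_lit 0) (.cons (.rf (nat_lit 4352) (nat_lit 9043225708576)) (.cons (.rf (nat_lit 5307) (nat_lit 9043225708576)) (.cons (.rf (nat_lit 4352) (nat_lit 9041080322080)) (.cons (.br (nat_lit 9) (nat_lit 1) (.cons (.rf (nat_lit 5640) (nat_lit 325702574508064)) (.cons (.rf (nat_lit 5640) (nat_lit 325530775821344)) (.cons (.rf (nat_lit 5642) (nat_lit 11584701642934304)) (.cons (.br (nat_lit 9) (nat_lit 1) (.cons (.rf (nat_lit 5640) (nat_lit 325702574508064)) (.cons (.rf (nat_lit 5640) (nat_lit 325530775821344)) (.cons (.rf (nat_lit 5642) (nat_lit 12710601549776928)) (.cons (.br (nat_lit 9) (nat_lit 1) (.cons (.rf (nat_lit 5640) (nat_lit 325702574508064)) (.cons (.rf (nat_lit 5640) (nat_lit 325530775821344))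 (.cons (.rf (nat_lit 5642) (nat_lit 13836501456619552)) (.cons (.br (nat_lit 2) (nat_lit 0) (.cons (.rf (nat_lit 5643) (nat_lit 14242959523092498464)) (.cons (.rf (nat_lit 5643) (nat_lit 14242959524133701664)) (.cons (.rf (nat_lit 5643) (nat_lit 14242959520947111968)) (.cons (.rf (nat_lit 5643) (nat_lit 14242959521988315168)) .nil))))) .nil))))) .nil))))) .nil))))) .nil))))) .nil))),
 (.br (nat_lit 10) (nat_lit 1) (.cons (.kr (nat_lit 79229371458530696296428208384) (nat_lit 20282409608374108964410934493184) (nat_lit 1) (nat_lit 0)) .nil)),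
 (.br (nat_lit 12) (nat_lit 1) (.cons (.br (nat_lit 7) (nat_lit 1) (.cons (.rf (nat_lit 5177) (nat_lit 13329729577)) (.cons (.ev (nat_lit 79229371440156009821068328961) (nat_lit 1)) (.cons (.br (nat_lit 8) (nat_lit 1) (.cons (.ev (nat_lit 310693935713017296249159681) (nat_lit 1)) (.cons (.br (nat_lit 10) (nat_lit 1) (.cons (.zr (nat_lit 79229371440444243504328409088) (nat_lit 618970093430229382274745346) (nat_lit 10) (nat_lit 5)) .nil)) .nil))) .nil)))) (.cons (.br (nat_lit 7) (nat_lit 1) (.cons (.rf (nat_lit 5177) (nat_lit 13329729578)) (.cons (.rf (nat_lit 84) (nat_lit 9000264738)) (.cons (.br (nat_lit 8) (nat_lit 1) (.cons (.ev (nat_lit 79228167255077846016170393601) (nat_lit 1)) (.cons (.br (nat_lit 9) (nat_lit 1) (.cons (.zr (nat_lit 79228167328864544143156708608) (nat_lit 618970019931483463588511746) (nat_lit 10) (nat_lit 4)) .nil)) .nil))) .nil)))) (.cons (.br (nat_lit 13) (nat_lit 1) (.cons (.br (nat_lit 8) (nat_lit 1) (.cons (.rf (nat_lit 5645) (nat_lit 493858305440582043680)) (.cons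 (.ev (nat_lit 310693935713017296249159681) (nat_lit 1)) (.cons (.kr (nat_lit 79228162514264337593543950336) (nat_lit 20282409603651670423947251286016) (nat_lit 12) (nat_lit 0)) .nil)))) (.cons (.br (nat_lit 7) (nat_lit 1) (.cons (.ev (nat_lit 309489750634853491351224321) (nat_lit 1)) (.cons (.rf (nat_lit 5645) (nat_lit 493857213659862893632)) (.cons (.kr (nat_lit 79228162514264337593543950336) (nat_lit 20282409603651670423947251286016) (nat_lit 12) (nat_lit 0)) .nil)))) (.cons (.br (nat_lit 7) (nat_lit 1) (.cons (.ev (nat_lit 309489750634853491351224321) (nat_lit 1)) (.cons (.zr (nat_lit 14167315621391049621504) (nat_lit 158765810038350302834612764673) (nat_lit 5) (nat_lit 0)) (.cons (.ev (nat_lit 20361637766165935044115283575041) (nat_lit 1)) .nil)))) (.cons (.br (nat_lit 8) (nat_lit 1) (.cons (.ev (nat_lit 310693935713017296249159681) (nat_lit 1)) (.cons (.zr (nat_lit 3626832799076108652774144) (nat_lit 158765810038350302834612764673) (nat_lit 5) (nat_lit 0)) (.cons (.ev (nat_lit 20361637766165934762640323706881)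 (nat_lit 1)) .nil)))) .nil))))) .nil)))),
 (.br (nat_lit 12) (nat_lit 1) (.cons (.rf (nat_lit 5646) (nat_lit 493858305440582043680)) (.cons (.rf (nat_lit 84) (nat_lit 8837441826)) (.cons (.br (nat_lit 7) (nat_lit 1) (.cons (.br (nat_lit 8) (nat_lit 1) (.cons (.ev (nat_lit 1213666704900266095804673) (nat_lit 1)) (.cons (.br (nat_lit 9) (nat_lit 1) (.cons (.zr (nat_lit 237684501710108638569727983616) (nat_lit 315529731153420062434525185) (nat_lit 5) (nat_lit 4)) .nil)) .nil))) (.cons (.rf (nat_lit 84) (nat_lit 9000264738)) (.cons (.br (nat_lit 13) (nat_lit 1) (.cons (.rf (nat_lit 5646) (nat_lit 458117738797769787424)) (.cons (.ev (nat_lit 20282719088661491770115504537601) (nat_lit 1)) .nil))) .nil)))) .nil)))),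
 (.br (nat_lit 12) (nat_lit 1) (.cons (.rf (nat_lit 5646) (nat_lit 493858305440582043680)) (.cons (.br (nat_lit 12) (nat_lit 1) (.cons (.rf (nat_lit 5646) (nat_lit 493858305440582043680)) (.cons (.rf (nat_lit 84) (nat_lit 8837441826)) (.cons (.ev (nat_lit 79537647524085683761797201921) (nat_lit 1)) .nil)))) (.cons (.rf (nat_lit 5647) (nat_lit 493858305440582043680)) (.cons (.br (nat_lit 12) (nat_lit 1) (.cons (.rf (nat_lit 5646) (nat_lit 493858305440582043680)) (.cons (.ev (nat_lit 79537647524085683761797201921) (nat_lit 1)) (.cons (.rf (nat_lit 5647) (nat_lit 493858305440582043680)) .nil)))) .nil))))),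
 (.br (nat_lit 7) (nat_lit 1) (.cons (.br (nat_lit 7) (nat_lit 1) (.cons (.rf (nat_lit 4982) (nat_lit 284956001354)) (.cons (.rf (nat_lit 4982) (nat_lit 286029743177)) (.cons (.rf (nat_lit 5648) (nat_lit 493858305440582043680)) (.cons (.rf (nat_lit 5648) (nat_lit 458117738797769787424)) .nil))))) (.cons (.br (nat_lit 7) (nat_lit 1) (.cons (.rf (nat_lit 4982) (nat_lit 284956001354)) (.cons (.rf (nat_lit 58) (nat_lit 7676962)) (.cons (.rf (nat_lit 5648) (nat_lit 493858305440582043680)) (.cons (.rf (nat_lit 5648) (nat_lit 458117738797769787424)) .nil))))) (.cons (.br (nat_lit 7) (nat_lit 1) (.cons (.rf (nat_lit 4982) (nat_lit 286029743177)) (.cons (.rf (nat_lit 58) (nat_lit 7676962)) (.cons (.rf (nat_lit 5648) (nat_lit 493858305440582043680)) (.cons (.rf (nat_lit 5648) (nat_lit 458117738797769787424)) .nil))))) (.cons (.rf (nat_lit 5648) (nat_lit 493858305440582043680)) (.cons (.rf (nat_lit 5648) (nat_lit 458117738797769787424)) .nil)))))),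
 (.br (nat_lit 10) (nat_lit 1) (.cons (.rf (nat_lit 84) (nat_lit 13128214818)) (.cons (.rf (nat_lit 84) (nat_lit 8837441609)) (.cons (.ev (nat_lit 310693935713017296249159681) (nat_lit 1)) .nil)))),
 (.br (nat_lit 12) (nat_lit 1) (.cons (.kr (nat_lit 79229371458530696296428208384) (nat_lit 20282409608374108964410934493184) (nat_lit 1) (nat_lit 0)) .nil)),
 (.br (nat_lit 7) (nat_lit 1) (.cons (.rf (nat_lit 84) (nat_lit 13160982562)) (.cons (.rf (nat_lit 5650) (nat_lit 493858305440582043680)) (.cons (.br (nat_lit 10) (nat_lit 1) (.cons (.rf (nat_lit 84) (nat_lit 13128214818)) (.cons (.ev (nat_lit 310693935713017296249159681) (nat_lit 1)) (.cons (.br (nat_lit 8) (nat_lit 1) (.cons (.rf (nat_lit 5651) (nat_lit 493858305440582043680)) (.cons (.ev (nat_lit 1213666632842672057876736) (nat_lit 1)) .nil))) .nil)))) .nil)))),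
 (.br (nat_lit 2) (nat_lit 1) (.cons (.kr (nat_lit 1) (nat_lit 72057594037927936) (nat_lit 0) (nat_lit 1)) (.cons (.rf (nat_lit 4982) (nat_lit 250596296746)) (.cons (.rf (nat_lit 31) (nat_lit 276071746)) (.cons (.rf (nat_lit 5652) (nat_lit 493858305440582043680)) (.cons (.rf (nat_lit 5652) (nat_lit 458117738797769787424)) .nil)))))),
 (.br (nat_lit 7) (nat_lit 1) (.cons (.rf (nat_lit 84) (nat_lit 13161014306)) (.cons (.br (nat_lit 8) (nat_lit 1) (.cons (.rf (nat_lit 84) (nat_lit 13128214818)) (.cons (.ev (nat_lit 79229371440084233701990400256) (nat_lit 1)) (.cons (.br (nat_lit 9) (nat_lit 1) (.cons (.rf (nat_lit 84) (nat_lit 8837440586)) (.cons (.br (nat_lit 12) (nat_lit 1) (.cons (.ev (nat_lit 80159044877211075350894805249) (nat_lit 2)) .nil)) .nil))) .nil)))) (.cons (.br (nat_lit 8) (nat_lit 1) (.cons (.rf (nat_lit 84) (nat_lit 13128214818)) (.cons (.br (nat_lit 9) (nat_lit 1) (.cons (.ev (nat_lit 80157840655166521379592864256) (nat_lit 2)) (.cons (.br (nat_lit 12) (nat_lit 1) (.cons (.ev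 (nat_lit 20679177853575371329298474533638) (nat_lit 3)) .nil)) .nil))) (.cons (.br (nat_lit 13) (nat_lit 1) (.cons (.ev (nat_lit 20282719088661491770115504537601) (nat_lit 1)) (.cons (.ev (nat_lit 20282410812577562377649735663873) (nat_lit 1)) .nil))) .nil)))) .nil)))),
 (.br (nat_lit 2) (nat_lit 1) (.cons (.kr (nat_lit 1) (nat_lit 72057594037927936) (nat_lit 0) (nat_lit 1)) (.cons (.rf (nat_lit 4982) (nat_lit 251670038569)) (.cons (.rf (nat_lit 31) (nat_lit 276104482)) (.cons (.rf (nat_lit 5654) (nat_lit 493858305440582043680)) (.cons (.rf (nat_lit 5654) (nat_lit 458117738797769787424)) .nil)))))),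
 (.br (nat_lit 9) (nat_lit 1) (.cons (.ev (nat_lit 309489750706911085389152256) (nat_lit 1)) (.cons (.br (nat_lit 12) (nat_lit 1) (.cons (.zr (nat_lit 14167315621391049621504) (nat_lit 158765810038350302834612764673) (nat_lit 5) (nat_lit 0)) .nil)) .nil))),
 (.br (nat_lit 12) (nat_lit 1) (.cons (.kr (nat_lit 79229371458530696296428208384) (nat_lit 20282409608374108964410934493184) (nat_lit 1) (nat_lit 0)) .nil)),
 (.br (nat_lit 13) (nat_lit 1) (.cons (.br (nat_lit 9) (nat_lit 1) (.cons (.rf (nat_lit 5657) (nat_lit 493858305440582043680)) (.cons (.br (nat_lit 10) (nat_lit 1) (.cons (.zr (nat_lit 237688114320251856668155970304) (nat_lit 309485046715115794943967233) (nat_lit 5) (nat_lit 11)) .nil)) (.cons (.ev (nat_lit 309489750706911085389152256) (nat_lit 1)) .nil)))) (.cons (.br (nat_lit 7) (nat_lit 1) (.cons (.br (nat_lit 12) (nat_lit 1) (.cons (.ev (nat_lit 79537647524158022830794998016) (nat_lit 1)) .nil)) (.cons (.br (nat_lit 10) (nat_lit 1) (.cons (.ev (nat_lit 310693935713017296249159681)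 (nat_lit 1)) .nil)) (.cons (.ev (nat_lit 309489750706911085389152256) (nat_lit 1)) .nil)))) (.cons (.br (nat_lit 12) (nat_lit 1) (.cons (.ev (nat_lit 310693935713017296249159681) (nat_lit 1)) (.cons (.zr (nat_lit 237688114320251856668155970304) (nat_lit 309485046715115794943967233) (nat_lit 5) (nat_lit 11)) (.cons (.ev (nat_lit 20282719088661492051590464405761) (nat_lit 1)) .nil)))) (.cons (.br (nat_lit 10) (nat_lit 1) (.cons (.ev (nat_lit 79537647524158022830794998016) (nat_lit 1)) (.cons (.zr (nat_lit 237688114320251856668155970304) (nat_lit 309485046715115794943967233) (nat_lit 5) (nat_lit 11)) (.cons (.ev (nat_lit 20282719088661492051590464405761) (nat_lit 1)) .nil)))) .nil))))),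
 (.br (nat_lit 8) (nat_lit 1) (.cons (.rf (nat_lit 5649) (nat_lit 493858305440582043680)) (.cons (.rf (nat_lit 5653) (nat_lit 493858305440582043680)) (.cons (.rf (nat_lit 5655) (nat_lit 493858305440582043680)) (.cons (.br (nat_lit 2) (nat_lit 1) (.cons (.kr (nat_lit 1) (nat_lit 72057594037927936) (nat_lit 0) (nat_lit 1)) (.cons (.ev (nat_lit 309489750634853491351224321) (nat_lit 1)) (.cons (.br (nat_lit 7) (nat_lit 1) (.cons (.ev (nat_lit 309489750706629610429284608) (nat_lit 1)) (.cons (.rf (nat_lit 5656) (nat_lit 493858305440582043680)) (.cons (.rf (nat_lit 5656) (nat_lit 458117738797769787424)) .nil)))) (.cons (.rf (nat_lit 5658) (nat_lit 493858305440582043680)) (.cons (.rf (nat_lit 5658) (nat_lit 458117738797769787424)) .nil)))))) .nil))))),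
 (.br (nat_lit 8) (nat_lit 1) (.cons (.rf (nat_lit 5649) (nat_lit 493858305440582043680)) (.cons (.rf (nat_lit 5653) (nat_lit 493858305440582043680)) (.cons (.rf (nat_lit 5655) (nat_lit 493858305440582043680)) (.cons (.rf (nat_lit 5659) (nat_lit 493858305440582043680)) (.cons (.rf (nat_lit 5659) (nat_lit 458117738797769787424)) .nil))))))]

theorem c197 : chkAll C T R L197 (nat_lit 5631) = true := by decide +kernel

theorem l197 : (nat_lit 5631) + L197.length = (nat_lit 5661) := by decide +kernel

/-- part of the certificates -/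
def L198 : List Prf := [(.br (nat_lit 7) (nat_lit 1) (.cons (.rf (nat_lit 82) (nat_lit 13161007145)) (.cons (.rf (nat_lit 2594) (nat_lit 8993868105)) (.cons (.ev (nat_lit 310693935713017296249159681) (nat_lit 1)) .nil)))),
 (.br (nat_lit 7) (nat_lit 1) (.cons (.rf (nat_lit 1343) (nat_lit 424398792993)) (.cons (.rf (nat_lit 4982) (nat_lit 251670045730)) (.cons (.rf (nat_lit 5661) (nat_lit 493858305440582043680)) (.cons (.rf (nat_lit 5661) (nat_lit 458117738797769787424)) .nil))))),
 (.br (nat_lit 12) (nat_lit 1) (.cons (.ev (nat_lit 20282719088661492051590464405761) (nat_lit 1)) .nil)),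
 (.br (nat_lit 10) (nat_lit 1) (.cons (.ev (nat_lit 80157840655238578973630792195) (nat_lit 2)) (.cons (.rf (nat_lit 5663) (nat_lit 493858305440582043680)) .nil))),
 (.br (nat_lit 7) (nat_lit 1) (.cons (.kr (nat_lit 79229371458530696296428208384) (nat_lit 20282409608374108964410934493184) (nat_lit 1) (nat_lit 0)) .nil)),
 (.br (nat_lit 10) (nat_lit 1) (.cons (.br (nat_lit 12) (nat_lit 1) (.cons (.ev (nat_lit 309489750706629610429284608) (nat_lit 1)) (.cons (.zr (nat_lit 237684487542794138680538694400) (nat_lit 311902898354063578316668929) (nat_lit 5) (nat_lit 3)) .nil))) (.cons (.ev (nat_lit 79848341496620976036374512385) (nat_lit 2)) (.cons (.br (nat_lit 12) (nat_lit 1) (.cons (.rf (nat_lit 5665) (nat_lit 493858305440582043680)) (.cons (.ev (nat_lit 20282719088661492051590464405761) (nat_lit 1)) .nil))) .nil)))),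
 (.br (nat_lit 8) (nat_lit 1) (.cons (.rf (nat_lit 5649) (nat_lit 493858305440582043680)) (.cons (.rf (nat_lit 5660) (nat_lit 493858305440582043680)) (.cons (.rf (nat_lit 5662) (nat_lit 493858305440582043680)) (.cons (.br (nat_lit 2) (nat_lit 1) (.cons (.br (nat_lit 7) (nat_lit 1) (.cons (.ev (nat_lit 72058693566398464) (nat_lit 1)) (.cons (.rf (nat_lit 5664) (nat_lit 493858305440582043680)) (.cons (.rf (nat_lit 5664) (nat_lit 458117738797769787424)) .nil)))) (.cons (.rf (nat_lit 1593) (nat_lit 459875288386)) (.cons (.rf (nat_lit 5666) (nat_lit 493858305440582043680)) (.cons (.rf (nat_lit 5666) (nat_lit 458117738797769787424)) .nil))))) .nil))))),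
 (.br (nat_lit 8) (nat_lit 1) (.cons (.rf (nat_lit 5649) (nat_lit 493858305440582043680)) (.cons (.rf (nat_lit 5660) (nat_lit 493858305440582043680)) (.cons (.rf (nat_lit 5662) (nat_lit 493858305440582043680)) (.cons (.rf (nat_lit 5667) (nat_lit 493858305440582043680)) (.cons (.rf (nat_lit 5667) (nat_lit 458117738797769787424)) .nil)))))),
 (.br (nat_lit 9) (nat_lit 1) (.cons (.ev (nat_lit 80157840655094463785554936321) (nat_lit 2)) (.cons (.br (nat_lit 12) (nat_lit 1) (.cons (.ev (nat_lit 79538861190790582928364536065) (nat_lit 1)) .nil)) .nil))),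
 (.br (nat_lit 9) (nat_lit 1) (.cons (.br (nat_lit 7) (nat_lit 1) (.cons (.ev (nat_lit 79229371440084233701990400256) (nat_lit 1)) (.cons (.br (nat_lit 12) (nat_lit 1) (.cons (.ev (nat_lit 20680408549467578495009330495748) (nat_lit 3)) .nil)) .nil))) (.cons (.rf (nat_lit 84) (nat_lit 7797548097)) (.cons (.ev (nat_lit 1213666633124147017875456) (nat_lit 1)) .nil)))),
 (.br (nat_lit 8) (nat_lit 1) (.cons (.rf (nat_lit 5649) (nat_lit 493858305440582043680)) (.cons (.rf (nat_lit 5660) (nat_lit 493858305440582043680)) (.cons (.rf (nat_lit 5662) (nat_lit 493858305440582043680)) (.cons (.br (nat_lit 2) (nat_lit 1) (.cons (.br (nat_lit 7) (nat_lit 1) (.cons (.ev (nat_lit 72340168526266624) (nat_lit 1)) (.cons (.rf (nat_lit 5669) (nat_lit 493858305440582043680)) (.cons (.rf (nat_lit 5669) (nat_lit 458117738797769787424)) .nil)))) (.cons (.ev (nat_lit 309489750634572016391356673) (nat_lit 1)) (.cons (.rf (nat_lit 5670) (nat_lit 493858305440582043680)) (.cons (.rf (nat_lit 5670) (nat_lit 458117738797769787424))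 .nil))))) .nil))))),
 (.br (nat_lit 8) (nat_lit 1) (.cons (.rf (nat_lit 5649) (nat_lit 493858305440582043680)) (.cons (.rf (nat_lit 5660) (nat_lit 493858305440582043680)) (.cons (.rf (nat_lit 5662) (nat_lit 493858305440582043680)) (.cons (.rf (nat_lit 5671) (nat_lit 493858305440582043680)) (.cons (.rf (nat_lit 5671) (nat_lit 458117738797769787424)) .nil)))))),
 (.br (nat_lit 8) (nat_lit 1) (.cons (.rf (nat_lit 5649) (nat_lit 493858305440582043680)) (.cons (.rf (nat_lit 5660) (nat_lit 493858305440582043680)) (.cons (.rf (nat_lit 5668) (nat_lit 493858305440582043680)) (.cons (.rf (nat_lit 5672) (nat_lit 493858305440582043680)) (.cons (.br (nat_lit 8) (nat_lit 1) (.cons (.rf (nat_lit 5649) (nat_lit 493858305440582043680)) (.cons (.rf (nat_lit 5660) (nat_lit 493858305440582043680)) (.cons (.rf (nat_lit 5668) (nat_lit 493858305440582043680)) (.cons (.rf (nat_lit 5672) (nat_lit 493858305440582043680)) .nil))))) .nil)))))),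
 (.br (nat_lit 8) (nat_lit 1) (.cons (.rf (nat_lit 5649) (nat_lit 493858305440582043680)) (.cons (.rf (nat_lit 5660) (nat_lit 493858305440582043680)) (.cons (.rf (nat_lit 5668) (nat_lit 493858305440582043680)) (.cons (.rf (nat_lit 5672) (nat_lit 493858305440582043680)) (.cons (.rf (nat_lit 5673) (nat_lit 493858305440582043680)) (.cons (.rf (nat_lit 5673) (nat_lit 458117738797769787424)) .nil))))))),
 (.br (nat_lit 2) (nat_lit 1) (.cons (.rf (nat_lit 31) (nat_lit 102925440)) (.cons (.rf (nat_lit 1593) (nat_lit 282434016384)) .nil))),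
 (.br (nat_lit 2) (nat_lit 1) (.cons (.rf (nat_lit 31) (nat_lit 102925440)) (.cons (.rf (nat_lit 5675) (nat_lit 9043225708576)) (.cons (.rf (nat_lit 5675) (nat_lit 7978073819168)) .nil)))),
 (.br (nat_lit 7) (nat_lit 1) (.cons (.br (nat_lit 7) (nat_lit 1) (.cons (.rf (nat_lit 31) (nat_lit 410290497)) (.cons (.ev (nat_lit 309489732260167011679600641) (nat_lit 1)) .nil))) (.cons (.rf (nat_lit 31) (nat_lit 410290497)) (.cons (.br (nat_lit 7) (nat_lit 1) (.cons (.ev (nat_lit 309489732260167011679600641) (nat_lit 1)) (.cons (.rf (nat_lit 31) (nat_lit 410290497)) .nil))) .nil)))),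
 (.br (nat_lit 12) (nat_lit 1) (.cons (.rf (nat_lit 2594) (nat_lit 7786079554)) (.cons (.rf (nat_lit 82) (nat_lit 8837735458)) (.cons (.br (nat_lit 7) (nat_lit 1) (.cons (.br (nat_lit 8) (nat_lit 1) (.cons (.ev (nat_lit 1213666632842672057876736) (nat_lit 1)) (.cons (.br (nat_lit 9) (nat_lit 1) (.cons (.ev (nat_lit 79538861190790582928364536065) (nat_lit 1)) .nil)) .nil))) (.cons (.kr (nat_lit 309485009821345068724781057) (nat_lit 79228162514336395187581878272) (nat_lit 0) (nat_lit 1)) (.cons (.br (nat_lit 9) (nat_lit 1) (.cons (.br (nat_lit 8) (nat_lit 1) (.cons (.ev (nat_lit 20680410957874483632628549355268) (nat_lit 3)) .nil)) (.cons (.rf (nat_lit 84) (nat_lit 13328754753)) .nil))) .nil)))) .nil)))),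
 (.br (nat_lit 12) (nat_lit 1) (.cons (.rf (nat_lit 4982) (nat_lit 423322945577)) (.cons (.rf (nat_lit 5678) (nat_lit 493858305440582043680)) (.cons (.rf (nat_lit 1343) (nat_lit 275291284514)) (.cons (.br (nat_lit 12) (nat_lit 1) (.cons (.ev (nat_lit 79537647524158022830794998016) (nat_lit 1)) (.cons (.rf (nat_lit 5678) (nat_lit 493858305440582043680)) (.cons (.rf (nat_lit 82) (nat_lit 14206444578)) .nil)))) .nil))))),
 (.br (nat_lit 7) (nat_lit 1) (.cons (.br (nat_lit 9) (nat_lit 1) (.cons (.rf (nat_lit 84) (nat_lit 13128247585)) (.cons (.rf (nat_lit 84) (nat_lit 8837473322)) (.cons (.ev (nat_lit 309489732260167011679600641) (nat_lit 1)) .nil)))) (.cons (.rf (nat_lit 84) (nat_lit 8999969866)) (.cons (.br (nat_lit 9) (nat_lit 1) (.cons (.ev (nat_lit 309489732260167011679600641) (nat_lit 1)) (.cons (.rf (nat_lit 84) (nat_lit 8837473322)) (.cons (.br (nat_lit 13) (nat_lit 1) (.cons (.zr (nat_lit 60847228810955011276239800369920) (nat_lit 311902861604970994438504449) (nat_lit 5) (nat_lit 4)) (.cons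 (.ev (nat_lit 79228167236630820467500974336) (nat_lit 1)) .nil))) .nil)))) .nil)))),
 (.br (nat_lit 12) (nat_lit 1) (.cons (.rf (nat_lit 5680) (nat_lit 493858305440582043680)) (.cons (.rf (nat_lit 84) (nat_lit 7797548066)) (.cons (.br (nat_lit 8) (nat_lit 1) (.cons (.br (nat_lit 7) (nat_lit 1) (.cons (.ev (nat_lit 79537647524157741355835129856) (nat_lit 1)) (.cons (.br (nat_lit 9) (nat_lit 1) (.cons (.zr (nat_lit 934499677369140408966250496) (nat_lit 316912668946523852499291471879) (nat_lit 10) (nat_lit 3)) .nil)) .nil))) (.cons (.ev (nat_lit 159076518196430662982833340675) (nat_lit 2)) (.cons (.br (nat_lit 9) (nat_lit 1) (.cons (.br (nat_lit 7) (nat_lit 1) (.cons (.zr (nat_lit 6044629458361116063171840) (nat_lit 158765819519976756721322426369) (nat_lit 5) (nat_lit 0)) .nil)) (.cons (.ev (nat_lit 20282719088661491770115504537601) (nat_lit 1)) .nil))) .nil)))) .nil)))),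
 (.br (nat_lit 8) (nat_lit 1) (.cons (.rf (nat_lit 5657) (nat_lit 493857214725014783040)) .nil)),
 (.br (nat_lit 7) (nat_lit 1) (.cons (.rf (nat_lit 31) (nat_lit 410028361)) (.cons (.br (nat_lit 8) (nat_lit 1) (.cons (.rf (nat_lit 5682) (nat_lit 493858305440582043680)) (.cons (.br (nat_lit 12) (nat_lit 1) (.cons (.rf (nat_lit 5682) (nat_lit 493858305440582043680)) (.cons (.zr (nat_lit 3626777675016669637903104) (nat_lit 40565128692313162475542027436033) (nat_lit 5) (nat_lit 0)) .nil))) .nil))) .nil))),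
 (.br (nat_lit 10) (nat_lit 1) (.cons (.rf (nat_lit 5679) (nat_lit 493858305440582043680)) (.cons (.br (nat_lit 12) (nat_lit 1) (.cons (.rf (nat_lit 5680) (nat_lit 493858305440582043680)) (.cons (.rf (nat_lit 5681) (nat_lit 493858305440582043680)) (.cons (.rf (nat_lit 5679) (nat_lit 267479000046768432459)) (.cons (.br (nat_lit 12) (nat_lit 1) (.cons (.rf (nat_lit 5680) (nat_lit 493858305440582043680)) (.cons (.rf (nat_lit 5681) (nat_lit 493858305440582043680)) (.cons (.rf (nat_lit 5679) (nat_lit 267479000046768432459)) .nil)))) .nil))))) (.cons (.br (nat_lit 7) (nat_lit 1) (.cons (.rf (nat_lit 5683) (nat_lit 493858305440582043680)) (.cons (.rf (nat_lit 31) (nat_lit 410028361)) (.cons (.br (nat_lit 7) (nat_lit 1) (.cons (.rf (nat_lit 5683) (nat_lit 493858305440582043680)) (.cons (.rf (nat_lit 31) (nat_lit 410028361)) .nil))) .nil)))) (.cons (.rf (nat_lit 5674) (nat_lit 303219566689580688715)) (.cons (.rf (nat_lit 5674) (nat_lit 303219565624428799307)) .nil)))))),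
 (.br (nat_lit 1) (nat_lit 1) (.cons (.rf (nat_lit 5674) (nat_lit 493858305440582043680)) (.cons (.rf (nat_lit 5674) (nat_lit 493858304375430154272)) (.cons (.br (nat_lit 10) (nat_lit 1) (.cons (.rf (nat_lit 29) (nat_lit 7670049)) (.cons (.rf (nat_lit 5676) (nat_lit 14718124432449)) (.cons (.rf (nat_lit 5674) (nat_lit 303219566689580688715)) (.cons (.rf (nat_lit 5674) (nat_lit 303219565624428799307)) .nil))))) (.cons (.br (nat_lit 9) (nat_lit 1) (.cons (.rf (nat_lit 29) (nat_lit 7637313)) (.cons (.rf (nat_lit 5676) (nat_lit 14718091926593)) (.cons (.rf (nat_lit 5677) (nat_lit 493858305440582043680)) (.cons (.rf (nat_lit 5677) (nat_lit 458117738797769787424)) .nil))))) (.cons (.rf (nat_lit 5684) (nat_lit 493858305440582043680)) (.cons (.rf (nat_lit 5684) (nat_lit 458117738797769787424)) .nil))))))),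
 (.br (nat_lit 7) (nat_lit 1) (.cons (.rf (nat_lit 84) (nat_lit 13161014337)) (.cons (.ev (nat_lit 1213648258156192386253056) (nat_lit 1)) (.cons (.br (nat_lit 2) (nat_lit 1) (.cons (.ev (nat_lit 310693954160042844918710528) (nat_lit 1)) (.cons (.br (nat_lit 8) (nat_lit 1) (.cons (.ev (nat_lit 1213666633124147017875456) (nat_lit 1)) (.cons (.br (nat_lit 12) (nat_lit 1) (.cons (.ev (nat_lit 20838864865051229528509565174020) (nat_lit 3)) .nil)) .nil))) (.cons (.br (nat_lit 8) (nat_lit 1) (.cons (.br (nat_lit 12) (nat_lit 1) (.cons (.zr (nat_lit 2178503216411493260025135106) (nat_lit 475368975104395318201069600768) (nat_lit 15) (nat_lit 11)) .nil)) (.cons (.ev (nat_lit 1213666633124147017875456) (nat_lit 1)) .nil))) .nil)))) .nil)))),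
 (.br (nat_lit 1) (nat_lit 1) (.cons (.rf (nat_lit 31) (nat_lit 276112449)) (.cons (.rf (nat_lit 4982) (nat_lit 284956001602)) (.cons (.rf (nat_lit 4982) (nat_lit 251670037794)) (.cons (.rf (nat_lit 5686) (nat_lit 493858305440582043680)) (.cons (.rf (nat_lit 5686) (nat_lit 458117738797769787424)) .nil)))))),
 (.br (nat_lit 12) (nat_lit 1) (.cons (.ev (nat_lit 310693954160042844918710528) (nat_lit 1)) (.cons (.zr (nat_lit 237684501709892461389567688704) (nat_lit 309485046715115794943967233) (nat_lit 5) (nat_lit 11)) .nil))),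
 (.br (nat_lit 2) (nat_lit 1) (.cons (.rf (nat_lit 82) (nat_lit 9000003873)) (.cons (.br (nat_lit 12) (nat_lit 1) (.cons (.ev (nat_lit 20362881774538601087618055996678) (nat_lit 3)) .nil)) .nil))),
 (.br (nat_lit 8) (nat_lit 1) (.cons (.rf (nat_lit 5674) (nat_lit 493858304375430154272)) (.cons (.rf (nat_lit 5685) (nat_lit 493858304375430154272)) (.cons (.rf (nat_lit 5687) (nat_lit 493858305440582043680)) (.cons (.br (nat_lit 10) (nat_lit 1) (.cons (.ev (nat_lit 310693954087703775920783361) (nat_lit 1)) (.cons (.br (nat_lit 1) (nat_lit 1) (.cons (.ev (nat_lit 309489750706629610429284608) (nat_lit 1)) (.cons (.rf (nat_lit 5688) (nat_lit 493858305440582043680)) (.cons (.rf (nat_lit 5688) (nat_lit 458117738797769787424)) .nil)))) (.cons (.br (nat_lit 1) (nat_lit 1) (.cons (.kr (nat_lit 281474976710913) (nat_lit 72057594054770688) (nat_lit 0) (nat_lit 4)) (.cons (.rf (nat_lit 5689) (nat_lit 493858305440582043680)) (.cons (.rf (nat_lit 5689) (nat_lit 458117738797769787424)) .nil)))) (.cons (.rf (nat_lit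 5674) (nat_lit 303219566689580688715)) (.cons (.rf (nat_lit 5674) (nat_lit 303219565624428799307)) .nil)))))) .nil))))),
 (.br (nat_lit 8) (nat_lit 1) (.cons (.rf (nat_lit 5674) (nat_lit 493858304375430154272)) (.cons (.rf (nat_lit 5685) (nat_lit 493858304375430154272)) (.cons (.rf (nat_lit 5687) (nat_lit 493858305440582043680)) (.cons (.rf (nat_lit 5690) (nat_lit 493858305440582043680)) (.cons (.rf (nat_lit 5690) (nat_lit 458117738797769787424)) .nil)))))),
 (.br (nat_lit 12) (nat_lit 1) (.cons (.ev (nat_lit 309489750706629610429284608) (nat_lit 1)) (.cons (.zr (nat_lit 237688114320251856668155970304) (nat_lit 309485046715115794943967233) (nat_lit 5) (nat_lit 11)) .nil))),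
 (.br (nat_lit 8) (nat_lit 1) (.cons (.rf (nat_lit 5674) (nat_lit 493858304375430154272)) (.cons (.rf (nat_lit 5685) (nat_lit 493858304375430154272)) (.cons (.rf (nat_lit 5691) (nat_lit 493858304375430154272)) (.cons (.br (nat_lit 9) (nat_lit 1) (.cons (.br (nat_lit 2) (nat_lit 1) (.cons (.ev (nat_lit 310693954160042844918710528) (nat_lit 1)) (.cons (.rf (nat_lit 5692) (nat_lit 493858305440582043680)) (.cons (.rf (nat_lit 5692) (nat_lit 458117738797769787424)) .nil)))) (.cons (.ev (nat_lit 309489750634853491351224321) (nat_lit 1)) (.cons (.rf (nat_lit 5691) (nat_lit 493858305440582043680)) (.cons (.rf (nat_lit 5685) (nat_lit 303219566689580688715)) (.cons (.rf (nat_lit 5685) (nat_lit 303219565624428799307)) .nil)))))) .nil)))))]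

theorem c198 : chkAll C T R L198 (nat_lit 5661) = true := by decide +kernel

theorem l198 : (nat_lit 5661) + L198.length = (nat_lit 5694) := by decide +kernel

/-- part of the certificates -/
def L199 : List Prf := [(.br (nat_lit 8) (nat_lit 1) (.cons (.rf (nat_lit 5674) (nat_lit 493858304375430154272)) (.cons (.rf (nat_lit 5685) (nat_lit 493858304375430154272)) (.cons (.rf (nat_lit 5691) (nat_lit 493858304375430154272)) (.cons (.rf (nat_lit 5693) (nat_lit 493858305440582043680)) (.cons (.rf (nat_lit 5693) (nat_lit 458117738797769787424)) .nil)))))),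
 (.br (nat_lit 8) (nat_lit 1) (.cons (.rf (nat_lit 5674) (nat_lit 493858304375430154272)) (.cons (.rf (nat_lit 5685) (nat_lit 493858304375430154272)) (.cons (.rf (nat_lit 5691) (nat_lit 493858304375430154272)) (.cons (.rf (nat_lit 5694) (nat_lit 493858304375430154272)) (.cons (.kr (nat_lit 72057594037927936) (nat_lit 18446744073709551616) (nat_lit 7) (nat_lit 0)) .nil)))))),
 (.br (nat_lit 7) (nat_lit 1) (.cons (.rf (nat_lit 5674) (nat_lit 493858305440582043680)) (.cons (.rf (nat_lit 5685) (nat_lit 493858305440582043680)) (.cons (.rf (nat_lit 5691) (nat_lit 493858305440582043680)) (.cons (.rf (nat_lit 5694) (nat_lit 493858305440582043680)) (.cons (.br (nat_lit 8) (nat_lit 1) (.cons (.rf (nat_lit 5674) (nat_lit 493858304375430154272)) (.cons (.rf (nat_lit 5685) (nat_lit 493858304375430154272)) (.cons (.rf (nat_lit 5691) (nat_lit 493858304375430154272)) (.cons (.rf (nat_lit 5694) (nat_lit 493858304375430154272)) (.cons (.rf (nat_lit 5695) (nat_lit 493858305440582043680)) (.cons (.rf (nat_lit 5695)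 (nat_lit 458117738797769787424)) .nil))))))) .nil)))))),
 (.br (nat_lit 7) (nat_lit 1) (.cons (.rf (nat_lit 5674) (nat_lit 493858305440582043680)) (.cons (.rf (nat_lit 5685) (nat_lit 493858305440582043680)) (.cons (.rf (nat_lit 5691) (nat_lit 493858305440582043680)) (.cons (.rf (nat_lit 5694) (nat_lit 493858305440582043680)) (.cons (.rf (nat_lit 5696) (nat_lit 493858305440582043680)) (.cons (.rf (nat_lit 5696) (nat_lit 458117738797769787424)) .nil))))))),
 (.br (nat_lit 2) (nat_lit 1) (.cons (.kr (nat_lit 20282410812577562096170463920384) (nat_lit 79228167255077564536898781184) (nat_lit 1) (nat_lit 0)) .nil)),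
 (.br (nat_lit 8) (nat_lit 1) (.cons (.rf (nat_lit 5674) (nat_lit 493858304375430154272)) (.cons (.rf (nat_lit 5685) (nat_lit 493858304375430154272)) (.cons (.br (nat_lit 1) (nat_lit 1) (.cons (.kr (nat_lit 1208925891672223212634368) (nat_lit 4740813226943354830848) (nat_lit 1) (nat_lit 0)) (.cons (.rf (nat_lit 5698) (nat_lit 493858305440582043680)) (.cons (.rf (nat_lit 5698) (nat_lit 458117738797769787424)) .nil)))) .nil)))),
 (.br (nat_lit 7) (nat_lit 1) (.cons (.rf (nat_lit 5674) (nat_lit 493858305440582043680)) (.cons (.rf (nat_lit 5685) (nat_lit 493858305440582043680)) (.cons (.rf (nat_lit 5697) (nat_lit 493858305440582043680)) (.cons (.br (nat_lit 8) (nat_lit 1) (.cons (.rf (nat_lit 5674) (nat_lit 493858304375430154272)) (.cons (.rf (nat_lit 5685) (nat_lit 493858304375430154272)) (.cons (.rf (nat_lit 5699) (nat_lit 493858305440582043680)) (.cons (.rf (nat_lit 5699) (nat_lit 458117738797769787424)) .nil))))) .nil))))),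
 (.br (nat_lit 7) (nat_lit 1) (.cons (.rf (nat_lit 5674) (nat_lit 493858305440582043680)) (.cons (.rf (nat_lit 5685) (nat_lit 493858305440582043680)) (.cons (.rf (nat_lit 5697) (nat_lit 493858305440582043680)) (.cons (.rf (nat_lit 5700) (nat_lit 493858305440582043680)) (.cons (.rf (nat_lit 5700) (nat_lit 458117738797769787424)) .nil)))))),
 (.br (nat_lit 8) (nat_lit 1) (.cons (.rf (nat_lit 5674) (nat_lit 493858304375430154272)) (.cons (.rf (nat_lit 5685) (nat_lit 493858304375430154272)) (.cons (.rf (nat_lit 5697) (nat_lit 493858305440582043680)) (.cons (.rf (nat_lit 5701) (nat_lit 493858305440582043680)) (.cons (.br (nat_lit 8) (nat_lit 1) (.cons (.rf (nat_lit 5674) (nat_lit 493858304375430154272)) (.cons (.ev (nat_lit 309489750634853491351224321) (nat_lit 1)) (.cons (.rf (nat_lit 5697) (nat_lit 493858305440582043680)) (.cons (.rf (nat_lit 5701) (nat_lit 493858305440582043680)) .nil))))) .nil)))))),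
 (.br (nat_lit 8) (nat_lit 1) (.cons (.rf (nat_lit 5674) (nat_lit 493858304375430154272)) (.cons (.rf (nat_lit 5685) (nat_lit 493858304375430154272)) (.cons (.rf (nat_lit 5697) (nat_lit 493858305440582043680)) (.cons (.rf (nat_lit 5701) (nat_lit 493858305440582043680)) (.cons (.rf (nat_lit 5702) (nat_lit 493858305440582043680)) (.cons (.rf (nat_lit 5702) (nat_lit 458117738797769787424)) .nil))))))),
 (.br (nat_lit 8) (nat_lit 1) (.cons (.rf (nat_lit 5674) (nat_lit 493858304375430154272)) (.cons (.rf (nat_lit 5685) (nat_lit 493858304375430154272)) (.cons (.rf (nat_lit 5697) (nat_lit 493858305440582043680)) (.cons (.rf (nat_lit 5703) (nat_lit 493858304375430154272)) (.cons (.br (nat_lit 8) (nat_lit 1) (.cons (.ev (nat_lit 310693954087703775920783361) (nat_lit 1)) (.cons (.rf (nat_lit 5685) (nat_lit 493858304375430154272)) (.cons (.rf (nat_lit 5697) (nat_lit 493858305440582043680)) (.cons (.rf (nat_lit 5703) (nat_lit 493858304375430154272)) .nil))))) .nil)))))),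
 (.br (nat_lit 8) (nat_lit 1) (.cons (.rf (nat_lit 5674) (nat_lit 493858304375430154272)) (.cons (.rf (nat_lit 5685) (nat_lit 493858304375430154272)) (.cons (.rf (nat_lit 5697) (nat_lit 493858305440582043680)) (.cons (.rf (nat_lit 5703) (nat_lit 493858304375430154272)) (.cons (.rf (nat_lit 5704) (nat_lit 493858305440582043680)) (.cons (.rf (nat_lit 5704) (nat_lit 458117738797769787424)) .nil))))))),
 (.br (nat_lit 7) (nat_lit 1) (.cons (.rf (nat_lit 5674) (nat_lit 493858305440582043680)) (.cons (.rf (nat_lit 5685) (nat_lit 493858305440582043680)) (.cons (.rf (nat_lit 5697) (nat_lit 493858305440582043680)) (.cons (.rf (nat_lit 5703) (nat_lit 493858305440582043680)) (.cons (.rf (nat_lit 5705) (nat_lit 493858305440582043680)) (.cons (.br (nat_lit 7) (nat_lit 1) (.cons (.rf (nat_lit 5674) (nat_lit 493858305440582043680)) (.cons (.rf (nat_lit 5685) (nat_lit 493858305440582043680)) (.cons (.rf (nat_lit 5697) (nat_lit 493858305440582043680)) (.cons (.rf (nat_lit 5703) (nat_lit 493858305440582043680))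 (.cons (.rf (nat_lit 5705) (nat_lit 493858305440582043680)) .nil)))))) .nil))))))),
 (.br (nat_lit 9) (nat_lit 0) (.cons (.br (nat_lit 10) (nat_lit 0) (.cons (.br (nat_lit 11) (nat_lit 1) (.cons (.br (nat_lit 11) (nat_lit 1) (.cons (.br (nat_lit 7) (nat_lit 1) (.cons (.rf (nat_lit 5674) (nat_lit 493858305440582043680)) (.cons (.rf (nat_lit 5685) (nat_lit 493858305440582043680)) (.cons (.rf (nat_lit 5697) (nat_lit 493858305440582043680)) (.cons (.rf (nat_lit 5703) (nat_lit 493858305440582043680)) (.cons (.rf (nat_lit 5705) (nat_lit 493858305440582043680)) (.cons (.rf (nat_lit 5706) (nat_lit 493858305440582043680)) (.cons (.rf (nat_lit 5706) (nat_lit 458117738797769787424)) .nil)))))))) .nil)) .nil)) .nil)) .nil)),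
 (.br (nat_lit 10) (nat_lit 0) (.cons (.rf (nat_lit 5707) (nat_lit 11584701642934304)) (.cons (.br (nat_lit 10) (nat_lit 0) (.cons (.rf (nat_lit 5707) (nat_lit 11584701642934304)) .nil)) .nil))),
 (.br (nat_lit 10) (nat_lit 0) (.cons (.rf (nat_lit 5708) (nat_lit 10493986108180512)) (.cons (.br (nat_lit 10) (nat_lit 0) (.cons (.rf (nat_lit 5708) (nat_lit 10493986108180512)) .nil)) .nil))),
 (.br (nat_lit 12) (nat_lit 0) .nil),
 (.br (nat_lit 11) (nat_lit 0) (.cons (.br (nat_lit 12) (nat_lit 1) (.cons (.rf (nat_lit 5710) (nat_lit 15431909825759512608)) .nil)) .nil)),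
 (.br (nat_lit 11) (nat_lit 0) (.cons (.rf (nat_lit 5710) (nat_lit 13126066816545818656)) .nil)),
 (.br (nat_lit 7) (nat_lit 1) (.cons (.br (nat_lit 7) (nat_lit 1) (.cons (.kr (nat_lit 281474976710913) (nat_lit 72057594054770688) (nat_lit 0) (nat_lit 4)) (.cons (.rf (nat_lit 29) (nat_lit 7709761)) (.cons (.rf (nat_lit 5711) (nat_lit 407901468851537952)) .nil)))) (.cons (.br (nat_lit 7) (nat_lit 1) (.cons (.kr (nat_lit 281474976710913) (nat_lit 72057594054770688) (nat_lit 0) (nat_lit 4)) (.cons (.rf (nat_lit 3981) (nat_lit 9359085227053129)) (.cons (.rf (nat_lit 5711) (nat_lit 407901468851537952)) .nil)))) (.cons (.rf (nat_lit 5712) (nat_lit 407901468851537952)) (.cons (.rf (nat_lit 5711) (nat_lit 407901468851537952)) .nil))))),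
 (.br (nat_lit 8) (nat_lit 1) (.cons (.rf (nat_lit 5713) (nat_lit 11584701642934304)) (.cons (.br (nat_lit 8) (nat_lit 1) (.cons (.rf (nat_lit 5713) (nat_lit 11584701642934304)) (.cons (.rf (nat_lit 5712) (nat_lit 407901468851537952)) (.cons (.rf (nat_lit 5711) (nat_lit 407901468851537952)) .nil)))) (.cons (.rf (nat_lit 5712) (nat_lit 407901468851537952)) (.cons (.rf (nat_lit 5711) (nat_lit 407901468851537952)) .nil))))),
 (.br (nat_lit 9) (nat_lit 1) (.cons (.kr (nat_lit 1099511627776) (nat_lit 4722366482869645213696) (nat_lit 5) (nat_lit 0)) (.cons (.ev (nat_lit 4740813508418331476224) (nat_lit 1)) (.cons (.kr (nat_lit 4722366482869645213697) (nat_lit 18446745173221179392) (nat_lit 0) (nat_lit 1)) (.cons (.rf (nat_lit 5712) (nat_lit 407901468851537952)) (.cons (.rf (nat_lit 5711) (nat_lit 407901468851537952)) .nil)))))),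
 (.br (nat_lit 8) (nat_lit 1) (.cons (.rf (nat_lit 5715) (nat_lit 11584701642934304)) (.cons (.kr (nat_lit 282574488338689) (nat_lit 4740813226943371608064) (nat_lit 0) (nat_lit 4)) (.cons (.rf (nat_lit 5712) (nat_lit 407901468851537952)) (.cons (.rf (nat_lit 5711) (nat_lit 407901468851537952)) .nil))))),
 (.br (nat_lit 10) (nat_lit 1) (.cons (.rf (nat_lit 5716) (nat_lit 11584701642934304)) (.cons (.br (nat_lit 10) (nat_lit 1) (.cons (.rf (nat_lit 5716) (nat_lit 11584701642934304)) (.cons (.rf (nat_lit 84) (nat_lit 8835378465)) (.cons (.rf (nat_lit 5711) (nat_lit 407901468851537952)) .nil)))) (.cons (.rf (nat_lit 5712) (nat_lit 407901468851537952)) (.cons (.rf (nat_lit 5711) (nat_lit 407901468851537952)) .nil))))),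
 (.br (nat_lit 10) (nat_lit 1) (.cons (.rf (nat_lit 5717) (nat_lit 11584701642934304)) (.cons (.rf (nat_lit 5716) (nat_lit 11584701642934304)) (.cons (.br (nat_lit 10) (nat_lit 1) (.cons (.rf (nat_lit 5717) (nat_lit 11584701642934304)) (.cons (.rf (nat_lit 5716) (nat_lit 11584701642934304)) (.cons (.rf (nat_lit 5712) (nat_lit 407901468851537952)) (.cons (.rf (nat_lit 5711) (nat_lit 407901468851537952)) .nil))))) (.cons (.rf (nat_lit 5712) (nat_lit 407901468851537952)) (.cons (.rf (nat_lit 5711) (nat_lit 407901468851537952)) .nil)))))),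
 (.br (nat_lit 7) (nat_lit 1) (.cons (.br (nat_lit 8) (nat_lit 1) (.cons (.ev (nat_lit 1213666704899166567465216) (nat_lit 1)) (.cons (.rf (nat_lit 84) (nat_lit 10980764961)) (.cons (.rf (nat_lit 5711) (nat_lit 407901468851537952)) .nil)))) (.cons (.rf (nat_lit 84) (nat_lit 11013499969)) (.cons (.rf (nat_lit 5711) (nat_lit 407901468851537952)) .nil)))),
 (.br (nat_lit 1) (nat_lit 1) (.cons (.kr (nat_lit 1) (nat_lit 72057594037927936) (nat_lit 0) (nat_lit 1)) (.cons (.ev (nat_lit 4740813226943371608064) (nat_lit 1)) (.cons (.rf (nat_lit 5719) (nat_lit 11584701642934304)) (.cons (.rf (nat_lit 31) (nat_lit 276072801)) (.cons (.rf (nat_lit 5711) (nat_lit 407901468851537952)) .nil)))))),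
 (.br (nat_lit 8) (nat_lit 1) (.cons (.rf (nat_lit 5718) (nat_lit 11584701642934304)) (.cons (.rf (nat_lit 5720) (nat_lit 11584701642934304)) (.cons (.br (nat_lit 8) (nat_lit 1) (.cons (.rf (nat_lit 5715) (nat_lit 11584701642934304)) (.cons (.rf (nat_lit 5720) (nat_lit 11584701642934304)) (.cons (.rf (nat_lit 5712) (nat_lit 407901468851537952)) (.cons (.rf (nat_lit 5711) (nat_lit 407901468851537952)) .nil))))) (.cons (.rf (nat_lit 5712) (nat_lit 407901468851537952)) (.cons (.rf (nat_lit 5711) (nat_lit 407901468851537952)) .nil)))))),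
 (.br (nat_lit 8) (nat_lit 1) (.cons (.rf (nat_lit 5718) (nat_lit 11584701642934304)) (.cons (.rf (nat_lit 5720) (nat_lit 11584701642934304)) (.cons (.br (nat_lit 8) (nat_lit 1) (.cons (.kr (nat_lit 282574488338689) (nat_lit 4740813226943371608064) (nat_lit 0) (nat_lit 4)) (.cons (.rf (nat_lit 5720) (nat_lit 11584701642934304)) (.cons (.rf (nat_lit 5712) (nat_lit 407901468851537952)) (.cons (.rf (nat_lit 5711) (nat_lit 407901468851537952)) .nil))))) (.cons (.rf (nat_lit 5712) (nat_lit 407901468851537952)) (.cons (.rf (nat_lit 5711) (nat_lit 407901468851537952)) .nil)))))),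
 (.br (nat_lit 8) (nat_lit 1) (.cons (.rf (nat_lit 5718) (nat_lit 11584701642934304)) (.cons (.rf (nat_lit 5721) (nat_lit 11584701642934304)) (.cons (.rf (nat_lit 5722) (nat_lit 11584701642934304)) (.cons (.br (nat_lit 8) (nat_lit 1) (.cons (.rf (nat_lit 5718) (nat_lit 11584701642934304)) (.cons (.rf (nat_lit 5721) (nat_lit 11584701642934304)) (.cons (.rf (nat_lit 5722) (nat_lit 11584701642934304)) (.cons (.rf (nat_lit 5712) (nat_lit 407901468851537952)) (.cons (.rf (nat_lit 5711) (nat_lit 407901468851537952)) .nil)))))) (.cons (.rf (nat_lit 5712) (nat_lit 407901468851537952)) (.cons (.rf (nat_lit 5711) (nat_lit 407901468851537952)) .nil))))))),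
 (.br (nat_lit 7) (nat_lit 1) (.cons (.kr (nat_lit 282574488338689) (nat_lit 4722438540463699984384) (nat_lit 0) (nat_lit 4)) (.cons (.rf (nat_lit 5715) (nat_lit 11583636491044896)) (.cons (.rf (nat_lit 5712) (nat_lit 407901468851537952)) (.cons (.rf (nat_lit 5711) (nat_lit 407901468851537952)) .nil))))),
 (.br (nat_lit 7) (nat_lit 1) (.cons (.rf (nat_lit 5719) (nat_lit 11584701610427456)) (.cons (.br (nat_lit 7) (nat_lit 1) (.cons (.ev (nat_lit 4722438821938659852544) (nat_lit 1)) (.cons (.rf (nat_lit 84) (nat_lit 8932895785)) (.cons (.rf (nat_lit 5711) (nat_lit 407901468851537952)) .nil)))) (.cons (.rf (nat_lit 5712) (nat_lit 407901468851537952)) (.cons (.rf (nat_lit 5711) (nat_lit 407901468851537952)) .nil))))),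
 (.br (nat_lit 8) (nat_lit 1) (.cons (.rf (nat_lit 5724) (nat_lit 11584701642934304)) (.cons (.rf (nat_lit 5725) (nat_lit 11584701642934304)) (.cons (.br (nat_lit 8) (nat_lit 1) (.cons (.rf (nat_lit 5724) (nat_lit 11584701642934304)) (.cons (.rf (nat_lit 5725) (nat_lit 11584701642934304)) (.cons (.rf (nat_lit 5712) (nat_lit 407901468851537952)) (.cons (.rf (nat_lit 5711) (nat_lit 407901468851537952)) .nil))))) (.cons (.rf (nat_lit 5712) (nat_lit 407901468851537952)) (.cons (.rf (nat_lit 5711) (nat_lit 407901468851537952)) .nil)))))),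
 (.br (nat_lit 8) (nat_lit 1) (.cons (.rf (nat_lit 5719) (nat_lit 11583636458538048)) (.cons (.br (nat_lit 8) (nat_lit 1) (.cons (.ev (nat_lit 4740813508418331476224) (nat_lit 1)) (.cons (.rf (nat_lit 5712) (nat_lit 407901468851537952)) (.cons (.rf (nat_lit 5711) (nat_lit 407901468851537952)) .nil)))) (.cons (.rf (nat_lit 5712) (nat_lit 407901468851537952)) (.cons (.rf (nat_lit 5711) (nat_lit 407901468851537952)) .nil))))),
 (.br (nat_lit 7) (nat_lit 1) (.cons (.rf (nat_lit 5726) (nat_lit 11584701642934304)) (.cons (.rf (nat_lit 5727) (nat_lit 11584701642934304)) (.cons (.br (nat_lit 7) (nat_lit 1) (.cons (.rf (nat_lit 5715) (nat_lit 11583636491044896)) (.cons (.rf (nat_lit 5727) (nat_lit 11584701642934304)) (.cons (.rf (nat_lit 5712) (nat_lit 407901468851537952)) (.cons (.rf (nat_lit 5711) (nat_lit 407901468851537952)) .nil))))) (.cons (.rf (nat_lit 5712) (nat_lit 407901468851537952)) (.cons (.rf (nat_lit 5711) (nat_lit 407901468851537952)) .nil)))))),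
 (.br (nat_lit 8) (nat_lit 1) (.cons (.rf (nat_lit 5725) (nat_lit 11583636491044896)) (.cons (.rf (nat_lit 5727) (nat_lit 11584701642934304)) (.cons (.br (nat_lit 8) (nat_lit 1) (.cons (.rf (nat_lit 5725) (nat_lit 11583636491044896)) (.cons (.rf (nat_lit 5727) (nat_lit 11584701642934304)) (.cons (.rf (nat_lit 5712) (nat_lit 407901468851537952)) (.cons (.rf (nat_lit 5711) (nat_lit 407901468851537952)) .nil))))) (.cons (.rf (nat_lit 5712) (nat_lit 407901468851537952)) (.cons (.rf (nat_lit 5711) (nat_lit 407901468851537952)) .nil))))))]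

theorem c199 : chkAll C T R L199 (nat_lit 5694) = true := by decide +kernel

theorem l199 : (nat_lit 5694) + L199.length = (nat_lit 5730) := by decide +kernel

/-- part of the certificates -/
def L200 : List Prf := [(.br (nat_lit 11) (nat_lit 0) (.cons (.br (nat_lit 11) (nat_lit 0) .nil) .nil)),
 (.br (nat_lit 11) (nat_lit 1) (.cons (.rf (nat_lit 5730) (nat_lit 445092485128095776)) (.cons (.br (nat_lit 11) (nat_lit 1) (.cons (.rf (nat_lit 5730) (nat_lit 481121282147059744)) .nil)) .nil))),
 (.br (nat_lit 9) (nat_lit 0) (.cons (.br (nat_lit 2) (nat_lit 1) (.cons (.br (nat_lit 7) (nat_lit 1) (.cons (.rf (nat_lit 5713) (nat_lit 11584701642934304)) (.cons (.rf (nat_lit 5714) (nat_lit 11584701642934304)) (.cons (.br (nat_lit 7) (nat_lit 1) (.cons (.rf (nat_lit 5713) (nat_lit 11584701642934304)) (.cons (.rf (nat_lit 5714) (nat_lit 11584701642934304)) (.cons (.rf (nat_lit 5712) (nat_lit 407901468851537952)) (.cons (.rf (nat_lit 5711) (nat_lit 407901468851537952)) .nil))))) (.cons (.rf (nat_lit 5712)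 (nat_lit 407901468851537952)) (.cons (.rf (nat_lit 5711) (nat_lit 407901468851537952)) .nil)))))) (.cons (.rf (nat_lit 5723) (nat_lit 11584701642934304)) (.cons (.rf (nat_lit 5723) (nat_lit 11583636491044896)) (.cons (.kr (nat_lit 1099511627776) (nat_lit 4722366482869645213696) (nat_lit 5) (nat_lit 0)) (.cons (.br (nat_lit 7) (nat_lit 1) (.cons (.rf (nat_lit 5726) (nat_lit 11584701642934304)) (.cons (.rf (nat_lit 5728) (nat_lit 11584701642934304)) (.cons (.rf (nat_lit 5729) (nat_lit 11584701642934304)) (.cons (.br (nat_lit 7) (nat_lit 1) (.cons (.rf (nat_lit 5726) (nat_lit 11584701642934304)) (.cons (.rf (nat_lit 5728) (nat_lit 11584701642934304)) (.cons (.rf (nat_lit 5729) (nat_lit 11584701642934304)) (.cons (.rf (nat_lit 5712) (nat_lit 407901468851537952)) (.cons (.rf (nat_lit 5711) (nat_lit 407901468851537952)) .nil)))))) (.cons (.rf (nat_lit 5712) (nat_lit 407901468851537952)) (.cons (.rf (nat_lit 5711) (nat_lit 407901468851537952)) .nil))))))) (.cons (.rf (nat_lit 5712) (nat_lit 407901468851537952))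 (.cons (.rf (nat_lit 5711) (nat_lit 407901468851537952)) .nil)))))))) (.cons (.rf (nat_lit 5731) (nat_lit 407901468851537952)) .nil))),
 (.br (nat_lit 9) (nat_lit 0) (.cons (.rf (nat_lit 5731) (nat_lit 407901468851537952)) (.cons (.rf (nat_lit 5731) (nat_lit 407901468819031104)) .nil))),
 (.br (nat_lit 6) (nat_lit 1) (.cons (.br (nat_lit 9) (nat_lit 0) (.cons (.rf (nat_lit 5708) (nat_lit 11584701642934304)) (.cons (.rf (nat_lit 5709) (nat_lit 11584701642934304)) (.cons (.br (nat_lit 9) (nat_lit 0) (.cons (.rf (nat_lit 5708) (nat_lit 11584701642934304)) (.cons (.rf (nat_lit 5709) (nat_lit 11584701642934304)) .nil))) .nil)))) (.cons (.br (nat_lit 9) (nat_lit 0) (.cons (.rf (nat_lit 5732) (nat_lit 11584701642934304)) (.cons (.br (nat_lit 9) (nat_lit 0) (.cons (.rf (nat_lit 5732) (nat_lit 11584701642934304)) (.cons (.rf (nat_lit 5733) (nat_lit 407901468851537952)) .nil))) (.cons (.rf (nat_lit 5733) (nat_lit 407901468851537952)) .nil)))) .nil))),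
 (.br (nat_lit 11) (nat_lit 0) (.cons (.br (nat_lit 12) (nat_lit 1) (.cons (.br (nat_lit 13) (nat_lit 0) .nil) .nil)) .nil)),
 (.br (nat_lit 4) (nat_lit 1) (.cons (.br (nat_lit 11) (nat_lit 0) (.cons (.rf (nat_lit 5735) (nat_lit 407901468851537952)) (.cons (.br (nat_lit 11) (nat_lit 0) (.cons (.rf (nat_lit 5735) (nat_lit 407901468851537952)) .nil)) .nil))) .nil)),
 (.br (nat_lit 6) (nat_lit 1) (.cons (.rf (nat_lit 5734) (nat_lit 325702574508064)) (.cons (.br (nat_lit 6) (nat_lit 1) (.cons (.rf (nat_lit 5734) (nat_lit 360886946596896)) (.cons (.rf (nat_lit 5736) (nat_lit 11584701642934304)) .nil))) .nil))),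
 (.br (nat_lit 8) (nat_lit 1) (.cons (.rf (nat_lit 2594) (nat_lit 7921215777)) (.cons (.rf (nat_lit 82) (nat_lit 13128476737)) (.cons (.ev (nat_lit 309489750634853487073034241) (nat_lit 1)) .nil)))),
 (.br (nat_lit 8) (nat_lit 1) (.cons (.rf (nat_lit 4982) (nat_lit 284956001354)) (.cons (.rf (nat_lit 1343) (nat_lit 424406132801)) (.cons (.rf (nat_lit 5738) (nat_lit 493858305440582043680)) (.cons (.rf (nat_lit 5738) (nat_lit 458117738797769787424)) .nil))))),
 (.br (nat_lit 13) (nat_lit 1) (.cons (.zr (nat_lit 618974742081793555381288960) (nat_lit 3626832799077208181178369) (nat_lit 5) (nat_lit 3)) (.cons (.zr (nat_lit 14167316465815979556864) (nat_lit 79847132533907028830521983233) (nat_lit 5) (nat_lit 5)) .nil))),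
 (.br (nat_lit 7) (nat_lit 1) (.cons (.rf (nat_lit 2594) (nat_lit 8993876258)) (.cons (.rf (nat_lit 82) (nat_lit 13160982562)) (.cons (.br (nat_lit 8) (nat_lit 1) (.cons (.ev (nat_lit 310693935713017296249159681) (nat_lit 1)) (.cons (.rf (nat_lit 5740) (nat_lit 493858305440582043680)) (.cons (.rf (nat_lit 5740) (nat_lit 458117738797769787424)) .nil)))) .nil)))),
 (.br (nat_lit 7) (nat_lit 1) (.cons (.rf (nat_lit 4982) (nat_lit 250596296746)) (.cons (.rf (nat_lit 1343) (nat_lit 424407180353)) (.cons (.rf (nat_lit 5741) (nat_lit 493858305440582043680)) (.cons (.rf (nat_lit 5741) (nat_lit 458117738797769787424)) .nil))))),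
 (.br (nat_lit 7) (nat_lit 1) (.cons (.ev (nat_lit 310693935713017296249159681) (nat_lit 1)) (.cons (.br (nat_lit 12) (nat_lit 1) (.cons (.kr (nat_lit 1208944266358707179225088) (nat_lit 4722438821938659852288) (nat_lit 4) (nat_lit 0)) (.cons (.zr (nat_lit 60847228810955011271858933923840) (nat_lit 309494454698708570596179969) (nat_lit 5) (nat_lit 3)) .nil))) .nil))),
 (.br (nat_lit 7) (nat_lit 1) (.cons (.ev (nat_lit 310693935713017296249159681) (nat_lit 1)) (.cons (.br (nat_lit 12) (nat_lit 1) (.cons (.br (nat_lit 8) (nat_lit 1) (.cons (.zr (nat_lit 79229371440444243491493838848) (nat_lit 618970093430229390831125506) (nat_lit 10) (nat_lit 6)) .nil)) (.cons (.ev (nat_lit 79537647524085683766075392001) (nat_lit 1)) .nil))) .nil))),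
 (.br (nat_lit 10) (nat_lit 1) (.cons (.rf (nat_lit 5742) (nat_lit 493857213657750012992)) (.cons (.rf (nat_lit 5739) (nat_lit 493857213657750012992)) (.cons (.rf (nat_lit 2305) (nat_lit 14713563130145)) (.cons (.br (nat_lit 7) (nat_lit 1) (.cons (.rf (nat_lit 5743) (nat_lit 493858305440582043680)) (.cons (.rf (nat_lit 5744) (nat_lit 493858305440582043680)) (.cons (.br (nat_lit 7) (nat_lit 1) (.cons (.rf (nat_lit 5743) (nat_lit 493858305440582043680)) (.cons (.rf (nat_lit 5744) (nat_lit 493858305440582043680)) .nil))) .nil)))) .nil))))),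
 (.br (nat_lit 9) (nat_lit 1) (.cons (.rf (nat_lit 5739) (nat_lit 493858305440582043680)) (.cons (.rf (nat_lit 5742) (nat_lit 493858305440582043680)) (.cons (.rf (nat_lit 5676) (nat_lit 14717857045545)) (.cons (.rf (nat_lit 5745) (nat_lit 493858305440582043680)) (.cons (.rf (nat_lit 5745) (nat_lit 458117738797769787424)) .nil)))))),
 (.br (nat_lit 7) (nat_lit 1) (.cons (.rf (nat_lit 84) (nat_lit 13160982562)) (.cons (.rf (nat_lit 5650) (nat_lit 493858305440582043680)) (.cons (.br (nat_lit 10) (nat_lit 1) (.cons (.rf (nat_lit 84) (nat_lit 13128214818)) (.cons (.ev (nat_lit 310693935713017296249159681) (nat_lit 1)) (.cons (.br (nat_lit 8) (nat_lit 1) (.cons (.rf (nat_lit 5651) (nat_lit 493858305439541856288)) (.cons (.ev (nat_lit 1213666632842676336066816) (nat_lit 1)) .nil))) .nil)))) .nil)))),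
 (.br (nat_lit 2) (nat_lit 1) (.cons (.kr (nat_lit 1) (nat_lit 72057594037927936) (nat_lit 0) (nat_lit 1)) (.cons (.rf (nat_lit 4982) (nat_lit 250596296746)) (.cons (.rf (nat_lit 31) (nat_lit 276071746)) (.cons (.rf (nat_lit 5747) (nat_lit 493858305440582043680)) (.cons (.rf (nat_lit 5747) (nat_lit 458117738797769787424)) .nil)))))),
 (.br (nat_lit 7) (nat_lit 1) (.cons (.rf (nat_lit 84) (nat_lit 13161014306)) (.cons (.br (nat_lit 8) (nat_lit 1) (.cons (.rf (nat_lit 84) (nat_lit 13128214818)) (.cons (.ev (nat_lit 79229371440084233697712210176) (nat_lit 1)) (.cons (.br (nat_lit 12) (nat_lit 1) (.cons (.rf (nat_lit 84) (nat_lit 8837440586)) (.cons (.zr (nat_lit 80163871098646060574766597379) (nat_lit 74148110893309755392) (nat_lit 10) (nat_lit 11)) .nil))) .nil)))) (.cons (.br (nat_lit 8) (nat_lit 1) (.cons (.rf (nat_lit 84) (nat_lit 13128214818)) (.cons (.br (nat_lit 9) (nat_lit 1) (.cons (.zr (nat_lit 14167172069157221957633) (nat_lit 158765810038350021355341087232) (nat_lit 5) (nat_lit 5))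 (.cons (.br (nat_lit 12) (nat_lit 1) (.cons (.ev (nat_lit 20283037064560541826756470965766) (nat_lit 3)) .nil)) .nil))) (.cons (.br (nat_lit 13) (nat_lit 1) (.cons (.ev (nat_lit 20282719088661491770119782727681) (nat_lit 1)) (.cons (.ev (nat_lit 20282410812577562377645457473793) (nat_lit 1)) .nil))) .nil)))) .nil)))),
 (.br (nat_lit 2) (nat_lit 1) (.cons (.kr (nat_lit 1) (nat_lit 72057594037927936) (nat_lit 0) (nat_lit 1)) (.cons (.rf (nat_lit 4982) (nat_lit 251670038569)) (.cons (.rf (nat_lit 31) (nat_lit 276104482)) (.cons (.rf (nat_lit 5749) (nat_lit 493858305440582043680)) (.cons (.rf (nat_lit 5749) (nat_lit 458117738797769787424)) .nil)))))),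
 (.br (nat_lit 13) (nat_lit 1) (.cons (.kr (nat_lit 1208944266358707179225088) (nat_lit 4722438821938659852288) (nat_lit 4) (nat_lit 0)) (.cons (.zr (nat_lit 237684487542793294264198692864) (nat_lit 311902898354063574021701633) (nat_lit 5) (nat_lit 3)) .nil))),
 (.br (nat_lit 9) (nat_lit 1) (.cons (.br (nat_lit 10) (nat_lit 1) (.cons (.rf (nat_lit 82) (nat_lit 9000264738)) (.cons (.br (nat_lit 12) (nat_lit 1) (.cons (.ev (nat_lit 79538861190790864403324534785) (nat_lit 1)) .nil)) .nil))) (.cons (.zr (nat_lit 14185546193782190374912) (nat_lit 311902861460855806345871361) (nat_lit 5) (nat_lit 4)) (.cons (.br (nat_lit 13) (nat_lit 1) (.cons (.zr (nat_lit 14167172069157221957633) (nat_lit 158765810038350021355341087232) (nat_lit 5) (nat_lit 5)) (.cons (.zr (nat_lit 237688114320251856668155970304) (nat_lit 309485046715115794943967233) (nat_lit 5) (nat_lit 11)) .nil))) (.cons (.br (nat_lit 12) (nat_lit 1) (.cons (.br (nat_lit 10) (nat_lit 1) (.cons (.ev (nat_lit 310693935713017296249159681) (nat_lit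 1)) .nil)) (.cons (.rf (nat_lit 5739) (nat_lit 303219566690621891915)) (.cons (.rf (nat_lit 5750) (nat_lit 303220656343150143787)) .nil)))) .nil))))),
 (.br (nat_lit 8) (nat_lit 1) (.cons (.rf (nat_lit 5746) (nat_lit 493858305440582043680)) (.cons (.rf (nat_lit 5748) (nat_lit 493858305440582043680)) (.cons (.rf (nat_lit 5750) (nat_lit 493858305440582043680)) (.cons (.br (nat_lit 2) (nat_lit 1) (.cons (.kr (nat_lit 1) (nat_lit 72057594037927936) (nat_lit 0) (nat_lit 1)) (.cons (.ev (nat_lit 309489750634853487073034241) (nat_lit 1)) (.cons (.br (nat_lit 7) (nat_lit 1) (.cons (.ev (nat_lit 309489750706629610429284608) (nat_lit 1)) (.cons (.rf (nat_lit 5751) (nat_lit 493858305440582043680)) (.cons (.rf (nat_lit 5751) (nat_lit 458117738797769787424)) .nil)))) (.cons (.rf (nat_lit 5752) (nat_lit 493858305440582043680)) (.cons (.rf (nat_lit 5752) (nat_lit 458117738797769787424)) .nil)))))) .nil))))),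
 (.br (nat_lit 8) (nat_lit 1) (.cons (.rf (nat_lit 5746) (nat_lit 493858305440582043680)) (.cons (.rf (nat_lit 5748) (nat_lit 493858305440582043680)) (.cons (.rf (nat_lit 5750) (nat_lit 493858305440582043680)) (.cons (.rf (nat_lit 5753) (nat_lit 493858305440582043680)) (.cons (.rf (nat_lit 5753) (nat_lit 458117738797769787424)) .nil)))))),
 (.br (nat_lit 10) (nat_lit 1) (.cons (.rf (nat_lit 84) (nat_lit 9000257577)) (.cons (.rf (nat_lit 5663) (nat_lit 493858305439540840480)) .nil))),
 (.br (nat_lit 10) (nat_lit 1) (.cons (.br (nat_lit 12) (nat_lit 1) (.cons (.ev (nat_lit 309489750706629610429284608) (nat_lit 1)) (.cons (.zr (nat_lit 237684487542793017178678362880) (nat_lit 311902898354343953781751809) (nat_lit 5) (nat_lit 4)) .nil))) (.cons (.ev (nat_lit 79848341496620976044930892545) (nat_lit 2)) (.cons (.br (nat_lit 12) (nat_lit 1) (.cons (.rf (nat_lit 5665) (nat_lit 493858305439541856288)) (.cons (.ev (nat_lit 20282719088661492051590464405761) (nat_lit 1)) .nil))) .nil)))),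
 (.br (nat_lit 8) (nat_lit 1) (.cons (.rf (nat_lit 5746) (nat_lit 493858305440582043680)) (.cons (.rf (nat_lit 5754) (nat_lit 493858305440582043680)) (.cons (.rf (nat_lit 5662) (nat_lit 493858305440582043680)) (.cons (.br (nat_lit 2) (nat_lit 1) (.cons (.br (nat_lit 7) (nat_lit 1) (.cons (.ev (nat_lit 72058697844588544) (nat_lit 1)) (.cons (.rf (nat_lit 5755) (nat_lit 493858305440582043680)) (.cons (.rf (nat_lit 5755) (nat_lit 458117738797769787424)) .nil)))) (.cons (.rf (nat_lit 1593) (nat_lit 459875288386)) (.cons (.rf (nat_lit 5756) (nat_lit 493858305440582043680)) (.cons (.rf (nat_lit 5756) (nat_lit 458117738797769787424)) .nil))))) .nil))))),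
 (.br (nat_lit 8) (nat_lit 1) (.cons (.rf (nat_lit 5746) (nat_lit 493858305440582043680)) (.cons (.rf (nat_lit 5754) (nat_lit 493858305440582043680)) (.cons (.rf (nat_lit 5662) (nat_lit 493858305440582043680)) (.cons (.rf (nat_lit 5757) (nat_lit 493858305440582043680)) (.cons (.rf (nat_lit 5757) (nat_lit 458117738797769787424)) .nil)))))),
 (.br (nat_lit 9) (nat_lit 1) (.cons (.br (nat_lit 12) (nat_lit 1) (.cons (.ev (nat_lit 79229371440084233697712210176) (nat_lit 1)) (.cons (.kr (nat_lit 79228162514264338693055578368) (nat_lit 4740813226943371542528) (nat_lit 1) (nat_lit 0)) .nil))) (.cons (.rf (nat_lit 84) (nat_lit 7797548097)) (.cons (.ev (nat_lit 1213666633124147017875456) (nat_lit 1)) .nil)))),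
 (.br (nat_lit 8) (nat_lit 1) (.cons (.rf (nat_lit 5739) (nat_lit 493857213657750012992)) (.cons (.rf (nat_lit 5754) (nat_lit 493858305440582043680)) (.cons (.rf (nat_lit 5662) (nat_lit 493858305440582043680)) (.cons (.br (nat_lit 2) (nat_lit 1) (.cons (.rf (nat_lit 5758) (nat_lit 493857214722901902400)) (.cons (.ev (nat_lit 309489750634572016391356673) (nat_lit 1)) (.cons (.rf (nat_lit 5759) (nat_lit 493858305440582043680)) (.cons (.rf (nat_lit 5759) (nat_lit 458117738797769787424)) .nil))))) .nil))))),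
 (.br (nat_lit 8) (nat_lit 1) (.cons (.rf (nat_lit 5739) (nat_lit 493857213657750012992)) (.cons (.rf (nat_lit 5754) (nat_lit 493858305440582043680)) (.cons (.rf (nat_lit 5662) (nat_lit 493858305440582043680)) (.cons (.rf (nat_lit 5760) (nat_lit 493858305440582043680)) (.cons (.rf (nat_lit 5760) (nat_lit 458117738797769787424)) .nil)))))),
 (.br (nat_lit 8) (nat_lit 1) (.cons (.rf (nat_lit 5746) (nat_lit 493858305440582043680)) (.cons (.rf (nat_lit 5754) (nat_lit 493858305440582043680)) (.cons (.rf (nat_lit 5758) (nat_lit 493858305440582043680)) (.cons (.rf (nat_lit 5761) (nat_lit 493858305440582043680)) (.cons (.br (nat_lit 8) (nat_lit 1) (.cons (.rf (nat_lit 5746) (nat_lit 493858305440582043680)) (.cons (.rf (nat_lit 5754) (nat_lit 493858305440582043680)) (.cons (.rf (nat_lit 5758) (nat_lit 493858305440582043680)) (.cons (.rf (nat_lit 5761) (nat_lit 493858305440582043680)) .nil))))) .nil)))))),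
 (.br (nat_lit 8) (nat_lit 1) (.cons (.rf (nat_lit 5746) (nat_lit 493858305440582043680)) (.cons (.rf (nat_lit 5754) (nat_lit 493858305440582043680)) (.cons (.rf (nat_lit 5758) (nat_lit 493858305440582043680)) (.cons (.rf (nat_lit 5761) (nat_lit 493858305440582043680)) (.cons (.rf (nat_lit 5762) (nat_lit 493858305440582043680)) (.cons (.rf (nat_lit 5762) (nat_lit 458117738797769787424)) .nil))))))),
 (.br (nat_lit 7) (nat_lit 1) (.cons (.rf (nat_lit 84) (nat_lit 13161014337)) (.cons (.ev (nat_lit 1213648258156196664443136) (nat_lit 1)) (.cons (.br (nat_lit 2) (nat_lit 1) (.cons (.ev (nat_lit 310693954160042840640520448) (nat_lit 1)) (.cons (.br (nat_lit 8) (nat_lit 1) (.cons (.ev (nat_lit 1213666633124147017875456) (nat_lit 1)) (.cons (.kr (nat_lit 72339069014638848) (nat_lit 18446744078004584448) (nat_lit 1) (nat_lit 0)) .nil))) (.cons (.br (nat_lit 12) (nat_lit 1) (.cons (.kr (nat_lit 72339069014638848) (nat_lit 18446744078004584448) (nat_lit 1) (nat_lit 0)) (.cons (.zr (nat_lit 618993631475106684699542535)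 (nat_lit 121694458830836275348314859241472) (nat_lit 15) (nat_lit 0)) .nil))) .nil)))) .nil))))]

theorem c200 : chkAll C T R L200 (nat_lit 5730) = true := by decide +kernel

theorem l200 : (nat_lit 5730) + L200.length = (nat_lit 5765) := by decide +kernel

/-- part of the certificates -/
def L201 : List Prf := [(.br (nat_lit 1) (nat_lit 1) (.cons (.rf (nat_lit 31) (nat_lit 276112449)) (.cons (.rf (nat_lit 4982) (nat_lit 284956001602)) (.cons (.rf (nat_lit 4982) (nat_lit 251670037794)) (.cons (.rf (nat_lit 5764) (nat_lit 493858305440582043680)) (.cons (.rf (nat_lit 5764) (nat_lit 458117738797769787424)) .nil)))))),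
 (.br (nat_lit 13) (nat_lit 1) (.cons (.kr (nat_lit 72339069014638848) (nat_lit 18446744078004584448) (nat_lit 1) (nat_lit 0)) (.cons (.zr (nat_lit 237684501709892461389567688704) (nat_lit 309485046715115794943967233) (nat_lit 5) (nat_lit 11)) .nil))),
 (.br (nat_lit 1) (nat_lit 1) (.cons (.rf (nat_lit 82) (nat_lit 7891625216)) (.cons (.br (nat_lit 11) (nat_lit 1) (.cons (.kr (nat_lit 79228167236630820463205941248) (nat_lit 309485028268090241945960448) (nat_lit 3) (nat_lit 0)) .nil)) .nil))),
 (.br (nat_lit 8) (nat_lit 1) (.cons (.rf (nat_lit 5763) (nat_lit 493858304375430154272)) (.cons (.rf (nat_lit 5763) (nat_lit 493857213657750012992)) (.cons (.rf (nat_lit 5765) (nat_lit 493858305440582043680)) (.cons (.br (nat_lit 10) (nat_lit 1) (.cons (.ev (nat_lit 310693954087703775920783361) (nat_lit 1)) (.cons (.br (nat_lit 1) (nat_lit 1) (.cons (.ev (nat_lit 309489750706629610429284608) (nat_lit 1)) (.cons (.rf (nat_lit 5766) (nat_lit 493858305440582043680)) (.cons (.rf (nat_lit 5766) (nat_lit 458117738797769787424))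 .nil)))) (.cons (.br (nat_lit 1) (nat_lit 1) (.cons (.rf (nat_lit 29) (nat_lit 7676993)) (.cons (.rf (nat_lit 5767) (nat_lit 15433072045018188865)) (.cons (.rf (nat_lit 5767) (nat_lit 14316179337430305857)) .nil)))) (.cons (.rf (nat_lit 5763) (nat_lit 303219566690621891915)) (.cons (.rf (nat_lit 5763) (nat_lit 303219565625470002507)) .nil)))))) .nil))))),
 (.br (nat_lit 8) (nat_lit 1) (.cons (.rf (nat_lit 5763) (nat_lit 493858304375430154272)) (.cons (.rf (nat_lit 5763) (nat_lit 493857213657750012992)) (.cons (.rf (nat_lit 5765) (nat_lit 493858305440582043680)) (.cons (.rf (nat_lit 5768) (nat_lit 493858305440582043680)) (.cons (.rf (nat_lit 5768) (nat_lit 458117738797769787424)) .nil)))))),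
 (.br (nat_lit 7) (nat_lit 1) (.cons (.rf (nat_lit 5763) (nat_lit 493858305440582043680)) (.cons (.rf (nat_lit 5763) (nat_lit 493857214722901902400)) (.cons (.rf (nat_lit 5769) (nat_lit 493858305440582043680)) (.cons (.rf (nat_lit 5769) (nat_lit 493857214722901902400)) (.cons (.br (nat_lit 9) (nat_lit 1) (.cons (.br (nat_lit 10) (nat_lit 1) (.cons (.kr (nat_lit 1208925819614629174706432) (nat_lit 4722366482869645279232) (nat_lit 1) (nat_lit 0)) (.cons (.rf (nat_lit 5769) (nat_lit 493857213657750012992)) (.cons (.rf (nat_lit 5763) (nat_lit 303219566690621891915)) (.cons (.rf (nat_lit 5763) (nat_lit 303219565625470002507)) .nil))))) (.cons (.ev (nat_lit 309489732260167007401410561) (nat_lit 1)) (.cons (.rf (nat_lit 5769) (nat_lit 493858304375430154272)) (.cons (.zr (nat_lit 14167171507302518751232) (nat_lit 311902861460855806345871361) (nat_lit 5) (nat_lit 4)) (.cons (.rf (nat_lit 5763) (nat_lit 303220657408302033195)) (.cons (.rf (nat_lit 5763) (nat_lit 303220656343150143787)) .nil))))))) .nil)))))),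
 (.br (nat_lit 7) (nat_lit 1) (.cons (.rf (nat_lit 5763) (nat_lit 493858305440582043680)) (.cons (.rf (nat_lit 5763) (nat_lit 493857214722901902400)) (.cons (.rf (nat_lit 5769) (nat_lit 493858305440582043680)) (.cons (.rf (nat_lit 5769) (nat_lit 493857214722901902400)) (.cons (.rf (nat_lit 5770) (nat_lit 493858305440582043680)) (.cons (.rf (nat_lit 5770) (nat_lit 458117738797769787424)) .nil))))))),
 (.br (nat_lit 8) (nat_lit 1) (.cons (.rf (nat_lit 5763) (nat_lit 493858304375430154272)) (.cons (.rf (nat_lit 5763) (nat_lit 493857213657750012992)) (.cons (.zr (nat_lit 14222439681929609478144) (nat_lit 311902861604970994421727233) (nat_lit 5) (nat_lit 4)) .nil)))),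
 (.br (nat_lit 7) (nat_lit 1) (.cons (.rf (nat_lit 5763) (nat_lit 493858305440582043680)) (.cons (.rf (nat_lit 5763) (nat_lit 493857214722901902400)) (.cons (.rf (nat_lit 5771) (nat_lit 493858305440582043680)) (.cons (.br (nat_lit 8) (nat_lit 1) (.cons (.rf (nat_lit 5763) (nat_lit 493858304375430154272)) (.cons (.rf (nat_lit 5763) (nat_lit 493857213657750012992)) (.cons (.rf (nat_lit 5772) (nat_lit 493858305440582043680)) (.cons (.rf (nat_lit 5772) (nat_lit 458117738797769787424)) .nil))))) .nil))))),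
 (.br (nat_lit 7) (nat_lit 1) (.cons (.rf (nat_lit 5763) (nat_lit 493858305440582043680)) (.cons (.rf (nat_lit 5763) (nat_lit 493857214722901902400)) (.cons (.rf (nat_lit 5771) (nat_lit 493858305440582043680)) (.cons (.rf (nat_lit 5773) (nat_lit 493858305440582043680)) (.cons (.rf (nat_lit 5773) (nat_lit 458117738797769787424)) .nil)))))),
 (.br (nat_lit 8) (nat_lit 1) (.cons (.rf (nat_lit 5763) (nat_lit 493858304375430154272)) (.cons (.rf (nat_lit 5763) (nat_lit 493857213657750012992)) (.cons (.rf (nat_lit 5771) (nat_lit 493858305440582043680)) (.cons (.rf (nat_lit 5774) (nat_lit 493858305440582043680)) (.cons (.br (nat_lit 8) (nat_lit 1) (.cons (.rf (nat_lit 5763) (nat_lit 493858304375430154272)) (.cons (.ev (nat_lit 309489750634853487073034241) (nat_lit 1)) (.cons (.rf (nat_lit 5771) (nat_lit 493858305440582043680)) (.cons (.rf (nat_lit 5774) (nat_lit 493858305440582043680)) .nil))))) .nil)))))),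
 (.br (nat_lit 8) (nat_lit 1) (.cons (.rf (nat_lit 5763) (nat_lit 493858304375430154272)) (.cons (.rf (nat_lit 5763) (nat_lit 493857213657750012992)) (.cons (.rf (nat_lit 5771) (nat_lit 493858305440582043680)) (.cons (.rf (nat_lit 5774) (nat_lit 493858305440582043680)) (.cons (.rf (nat_lit 5775) (nat_lit 493858305440582043680)) (.cons (.rf (nat_lit 5775) (nat_lit 458117738797769787424)) .nil))))))),
 (.br (nat_lit 7) (nat_lit 1) (.cons (.rf (nat_lit 5763) (nat_lit 493858305440582043680)) (.cons (.rf (nat_lit 5763) (nat_lit 493857214722901902400)) (.cons (.rf (nat_lit 5771) (nat_lit 493858305440582043680)) (.cons (.rf (nat_lit 5776) (nat_lit 493858305440582043680)) (.cons (.rf (nat_lit 5776) (nat_lit 493857214722901902400)) (.cons (.br (nat_lit 7) (nat_lit 1) (.cons (.rf (nat_lit 5763) (nat_lit 493858305440582043680)) (.cons (.rf (nat_lit 5763) (nat_lit 493857214722901902400)) (.cons (.rf (nat_lit 5771) (nat_lit 493858305440582043680)) (.cons (.rf (nat_lit 5776) (nat_lit 493858305440582043680))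 (.cons (.rf (nat_lit 5776) (nat_lit 493857214722901902400)) .nil)))))) .nil))))))),
 (.br (nat_lit 8) (nat_lit 1) (.cons (.br (nat_lit 12) (nat_lit 1) (.cons (.kr (nat_lit 20282410812577562096170463920384) (nat_lit 79228167255077564536898781184) (nat_lit 1) (nat_lit 0)) .nil)) .nil)),
 (.br (nat_lit 7) (nat_lit 1) (.cons (.rf (nat_lit 31) (nat_lit 410323233)) (.cons (.br (nat_lit 8) (nat_lit 1) (.cons (.rf (nat_lit 5778) (nat_lit 493858305440582043680)) (.cons (.br (nat_lit 12) (nat_lit 1) (.cons (.rf (nat_lit 5778) (nat_lit 493858305440582043680)) (.cons (.zr (nat_lit 3626777675016669637903104) (nat_lit 40565128692313162475542027436033) (nat_lit 5) (nat_lit 0)) .nil))) .nil))) .nil))),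
 (.br (nat_lit 7) (nat_lit 1) (.cons (.rf (nat_lit 5779) (nat_lit 493858305440582043680)) (.cons (.rf (nat_lit 31) (nat_lit 410323233)) (.cons (.br (nat_lit 7) (nat_lit 1) (.cons (.rf (nat_lit 5779) (nat_lit 493858305440582043680)) (.cons (.rf (nat_lit 31) (nat_lit 410323233)) .nil))) .nil)))),
 (.br (nat_lit 10) (nat_lit 1) (.cons (.rf (nat_lit 29) (nat_lit 7670049)) (.cons (.rf (nat_lit 5676) (nat_lit 14718124432449)) (.cons (.rf (nat_lit 5780) (nat_lit 493858305440582043680)) (.cons (.rf (nat_lit 5780) (nat_lit 458117738797769787424)) .nil))))),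
 (.br (nat_lit 8) (nat_lit 1) (.cons (.br (nat_lit 12) (nat_lit 1) (.cons (.kr (nat_lit 79229371458530696296428208384) (nat_lit 20282409608374108964410934493184) (nat_lit 1) (nat_lit 0)) .nil)) .nil)),
 (.br (nat_lit 7) (nat_lit 1) (.cons (.rf (nat_lit 31) (nat_lit 410069281)) (.cons (.br (nat_lit 8) (nat_lit 1) (.cons (.rf (nat_lit 5782) (nat_lit 493858305440582043680)) (.cons (.br (nat_lit 12) (nat_lit 1) (.cons (.rf (nat_lit 5782) (nat_lit 493858305440582043680)) (.cons (.zr (nat_lit 14167315621391049621504) (nat_lit 40565128692313162475542027436033) (nat_lit 5) (nat_lit 0)) .nil))) .nil))) .nil))),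
 (.br (nat_lit 7) (nat_lit 1) (.cons (.rf (nat_lit 5783) (nat_lit 493858305440582043680)) (.cons (.rf (nat_lit 31) (nat_lit 410069281)) (.cons (.br (nat_lit 7) (nat_lit 1) (.cons (.rf (nat_lit 5783) (nat_lit 493858305440582043680)) (.cons (.rf (nat_lit 31) (nat_lit 410069281)) .nil))) .nil)))),
 (.br (nat_lit 10) (nat_lit 1) (.cons (.rf (nat_lit 5784) (nat_lit 493858305440582043680)) (.cons (.rf (nat_lit 5784) (nat_lit 493858304375430154272)) (.cons (.rf (nat_lit 29) (nat_lit 12912929)) (.cons (.rf (nat_lit 5676) (nat_lit 9036956610625)) .nil))))),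
 (.br (nat_lit 12) (nat_lit 1) (.cons (.ev (nat_lit 79537647524085965236757070081) (nat_lit 1)) .nil)),
 (.br (nat_lit 7) (nat_lit 1) (.cons (.rf (nat_lit 31) (nat_lit 410322210)) (.cons (.br (nat_lit 8) (nat_lit 1) (.cons (.rf (nat_lit 5786) (nat_lit 493858305440582043680)) (.cons (.br (nat_lit 8) (nat_lit 1) (.cons (.rf (nat_lit 5786) (nat_lit 493858305440582043680)) .nil)) .nil))) .nil))),
 (.br (nat_lit 7) (nat_lit 1) (.cons (.rf (nat_lit 5787) (nat_lit 493858305440582043680)) (.cons (.rf (nat_lit 31) (nat_lit 410322210)) (.cons (.br (nat_lit 7) (nat_lit 1) (.cons (.rf (nat_lit 5787) (nat_lit 493858305440582043680)) (.cons (.rf (nat_lit 31) (nat_lit 410322210)) .nil))) .nil)))),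
 (.br (nat_lit 10) (nat_lit 1) (.cons (.rf (nat_lit 29) (nat_lit 7669026)) (.cons (.rf (nat_lit 5676) (nat_lit 14718124432418)) (.cons (.rf (nat_lit 5788) (nat_lit 493858305440582043680)) (.cons (.rf (nat_lit 5788) (nat_lit 458117738797769787424)) .nil))))),
 (.br (nat_lit 12) (nat_lit 1) (.cons (.ev (nat_lit 79537652264899191080600207616) (nat_lit 1)) (.cons (.ev (nat_lit 79538861172272062735577055233) (nat_lit 1)) .nil))),
 (.br (nat_lit 8) (nat_lit 1) (.cons (.rf (nat_lit 31) (nat_lit 275818786)) (.cons (.br (nat_lit 1) (nat_lit 1) (.cons (.kr (nat_lit 1099511627777) (nat_lit 4722438540463683141632) (nat_lit 0) (nat_lit 1)) (.cons (.rf (nat_lit 5790) (nat_lit 493858305440582043680)) (.cons (.rf (nat_lit 5790) (nat_lit 458117738797769787424)) .nil)))) .nil))),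
 (.br (nat_lit 8) (nat_lit 1) (.cons (.rf (nat_lit 31) (nat_lit 275818786)) (.cons (.rf (nat_lit 5791) (nat_lit 493858305440582043680)) (.cons (.rf (nat_lit 5791) (nat_lit 458117738797769787424)) .nil)))),
 (.br (nat_lit 8) (nat_lit 1) (.cons (.rf (nat_lit 5789) (nat_lit 493858304375430154272)) (.cons (.rf (nat_lit 5792) (nat_lit 493858304375430154272)) (.cons (.kr (nat_lit 72057594037927936) (nat_lit 18446744073709551616) (nat_lit 7) (nat_lit 0)) .nil)))),
 (.br (nat_lit 7) (nat_lit 1) (.cons (.rf (nat_lit 5789) (nat_lit 493858305440582043680)) (.cons (.rf (nat_lit 5792) (nat_lit 493858305440582043680)) (.cons (.br (nat_lit 8) (nat_lit 1) (.cons (.rf (nat_lit 5789) (nat_lit 493858304375430154272)) (.cons (.rf (nat_lit 5792) (nat_lit 493858304375430154272)) (.cons (.rf (nat_lit 5793) (nat_lit 493858305440582043680)) (.cons (.rf (nat_lit 5793) (nat_lit 458117738797769787424)) .nil))))) .nil)))),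
 (.br (nat_lit 7) (nat_lit 1) (.cons (.rf (nat_lit 5789) (nat_lit 493858305440582043680)) (.cons (.rf (nat_lit 5792) (nat_lit 493858305440582043680)) (.cons (.rf (nat_lit 5794) (nat_lit 493858305440582043680)) (.cons (.rf (nat_lit 5794) (nat_lit 458117738797769787424)) .nil))))),
 (.br (nat_lit 8) (nat_lit 1) (.cons (.rf (nat_lit 5676) (nat_lit 14718124400674)) (.cons (.rf (nat_lit 5795) (nat_lit 493858305440582043680)) (.cons (.br (nat_lit 8) (nat_lit 1) (.cons (.rf (nat_lit 1593) (nat_lit 459606862114)) (.cons (.rf (nat_lit 5795) (nat_lit 493858305440582043680)) .nil))) .nil)))),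
 (.br (nat_lit 8) (nat_lit 1) (.cons (.rf (nat_lit 5676) (nat_lit 14718124400674)) (.cons (.rf (nat_lit 5795) (nat_lit 493858305440582043680)) (.cons (.rf (nat_lit 5796) (nat_lit 493858305440582043680)) (.cons (.rf (nat_lit 5796) (nat_lit 458117738797769787424)) .nil))))),
 (.br (nat_lit 7) (nat_lit 1) (.cons (.rf (nat_lit 5789) (nat_lit 493858305440582043680)) (.cons (.rf (nat_lit 5795) (nat_lit 493858305440582043680)) (.cons (.rf (nat_lit 5797) (nat_lit 493858305440582043680)) (.cons (.br (nat_lit 7) (nat_lit 1) (.cons (.rf (nat_lit 1593) (nat_lit 459606829346)) (.cons (.rf (nat_lit 5795) (nat_lit 493858305440582043680)) (.cons (.rf (nat_lit 1593) (nat_lit 459908810018)) .nil)))) .nil))))),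
 (.br (nat_lit 13) (nat_lit 1) (.cons (.kr (nat_lit 1208925891672223212634368) (nat_lit 18446745173221244928) (nat_lit 1) (nat_lit 0)) (.cons (.zr (nat_lit 55340234420152107008) (nat_lit 158765810038350301735101136897) (nat_lit 5) (nat_lit 0)) .nil))),
 (.br (nat_lit 8) (nat_lit 1) (.cons (.rf (nat_lit 2594) (nat_lit 7920167202)) (.cons (.rf (nat_lit 82) (nat_lit 13128476706)) (.cons (.br (nat_lit 7) (nat_lit 1) (.cons (.ev (nat_lit 1213648258437667346251776) (nat_lit 1)) (.cons (.rf (nat_lit 5799) (nat_lit 493858305440582043680)) (.cons (.rf (nat_lit 5799) (nat_lit 458117738797769787424)) .nil)))) .nil))))]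

theorem c201 : chkAll C T R L201 (nat_lit 5765) = true := by decide +kernel

theorem l201 : (nat_lit 5765) + L201.length = (nat_lit 5801) := by decide +kernel

/-- part of the certificates -/
def L202 : List Prf := [(.br (nat_lit 10) (nat_lit 1) (.cons (.ev (nat_lit 79538856449977636360458141696) (nat_lit 1)) (.cons (.br (nat_lit 12) (nat_lit 1) (.cons (.ev (nat_lit 20282719088661492051590464405761) (nat_lit 1)) .nil)) .nil))),
 (.br (nat_lit 7) (nat_lit 1) (.cons (.kr (nat_lit 1) (nat_lit 18446744073709551616) (nat_lit 0) (nat_lit 1)) (.cons (.rf (nat_lit 82) (nat_lit 13160753441)) (.cons (.br (nat_lit 8) (nat_lit 1) (.cons (.kr (nat_lit 1099511627777) (nat_lit 4740813226943354765312) (nat_lit 0) (nat_lit 1)) (.cons (.rf (nat_lit 5801) (nat_lit 493858305440582043680)) (.cons (.rf (nat_lit 5801) (nat_lit 458117738797769787424)) .nil)))) .nil)))),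
 (.br (nat_lit 12) (nat_lit 1) (.cons (.br (nat_lit 7) (nat_lit 1) (.cons (.rf (nat_lit 5177) (nat_lit 13329728802)) (.cons (.ev (nat_lit 1213648258718042811466497) (nat_lit 2)) (.cons (.br (nat_lit 10) (nat_lit 1) (.cons (.zr (nat_lit 618984186742139845896831744) (nat_lit 2417851783625925713723393) (nat_lit 5) (nat_lit 4)) (.cons (.zr (nat_lit 1208925891675521747845379) (nat_lit 317531620076700603470202273792) (nat_lit 10) (nat_lit 0)) .nil))) .nil)))) (.cons (.rf (nat_lit 84) (nat_lit 8837703745)) (.cons (.kr (nat_lit 79228162514264338693055578112) (nat_lit 309489732187827938369994752) (nat_lit 5) (nat_lit 0)) .nil)))),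
 (.br (nat_lit 8) (nat_lit 1) (.cons (.br (nat_lit 7) (nat_lit 1) (.cons (.ev (nat_lit 79538856468424380434167693313) (nat_lit 1)) (.cons (.br (nat_lit 10) (nat_lit 1) (.cons (.ev (nat_lit 79538861190790864403324534785) (nat_lit 1)) .nil)) .nil))) (.cons (.rf (nat_lit 84) (nat_lit 7927310377)) (.cons (.br (nat_lit 13) (nat_lit 1) (.cons (.ev (nat_lit 20361637766165935044115283575041) (nat_lit 1)) (.cons (.ev (nat_lit 20361637770888301525885417160961) (nat_lit 1)) .nil))) .nil)))),
 (.br (nat_lit 12) (nat_lit 1) (.cons (.rf (nat_lit 5803) (nat_lit 493858305440582043680)) (.cons (.br (nat_lit 12) (nat_lit 1) (.cons (.rf (nat_lit 5803) (nat_lit 493858305440582043680)) (.cons (.rf (nat_lit 84) (nat_lit 7797254217)) (.cons (.rf (nat_lit 5804) (nat_lit 493858305440582043680)) .nil)))) (.cons (.rf (nat_lit 2305) (nat_lit 14714871720001)) (.cons (.br (nat_lit 12) (nat_lit 1) (.cons (.kr (nat_lit 79228162514264338693055578112) (nat_lit 309489732187827938369994752) (nat_lit 5) (nat_lit 0)) (.cons (.rf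 (nat_lit 5804) (nat_lit 493858305440582043680)) (.cons (.kr (nat_lit 309485009821345068724781056) (nat_lit 79228162514264337593543950336) (nat_lit 11) (nat_lit 0)) .nil)))) .nil))))),
 (.br (nat_lit 2) (nat_lit 1) (.cons (.br (nat_lit 8) (nat_lit 1) (.cons (.rf (nat_lit 4982) (nat_lit 284956002346)) (.cons (.rf (nat_lit 1343) (nat_lit 424406132770)) (.cons (.rf (nat_lit 5800) (nat_lit 493858305440582043680)) (.cons (.rf (nat_lit 5800) (nat_lit 458117738797769787424)) .nil))))) (.cons (.br (nat_lit 7) (nat_lit 1) (.cons (.kr (nat_lit 1) (nat_lit 18446744073709551616) (nat_lit 0) (nat_lit 1)) (.cons (.rf (nat_lit 1343) (nat_lit 424407173161)) (.cons (.rf (nat_lit 5802) (nat_lit 493858305440582043680)) (.cons (.rf (nat_lit 5802) (nat_lit 458117738797769787424)) .nil))))) (.cons (.rf (nat_lit 5676) (nat_lit 14718091894818)) (.cons (.rf (nat_lit 5805) (nat_lit 493858305440582043680)) (.cons (.rf (nat_lit 5805) (nat_lit 458117738797769787424)) .nil)))))),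
 (.br (nat_lit 8) (nat_lit 1) (.cons (.rf (nat_lit 2594) (nat_lit 7921215777)) (.cons (.rf (nat_lit 82) (nat_lit 13128476737)) (.cons (.ev (nat_lit 309494509895387467009425410) (nat_lit 2)) .nil)))),
 (.br (nat_lit 13) (nat_lit 1) (.cons (.ev (nat_lit 20282719088661492051590464405761) (nat_lit 1)) (.cons (.br (nat_lit 8) (nat_lit 1) (.cons (.ev (nat_lit 20282409608392483650894917861633) (nat_lit 1)) (.cons (.ev (nat_lit 20282409603670117169124784275713) (nat_lit 1)) (.cons (.ev (nat_lit 309494509895387467009425410) (nat_lit 2)) .nil)))) .nil))),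
 (.br (nat_lit 6) (nat_lit 1) (.cons (.rf (nat_lit 3958) (nat_lit 13122725361988280352)) (.cons (.rf (nat_lit 1700) (nat_lit 8515508858327794944)) .nil))),
 (.br (nat_lit 13) (nat_lit 1) (.cons (.rf (nat_lit 5808) (nat_lit 493858305440582043680)) (.cons (.rf (nat_lit 5809) (nat_lit 15433072045018155040)) (.cons (.br (nat_lit 13) (nat_lit 1) (.cons (.rf (nat_lit 5808) (nat_lit 493858305440582043680)) (.cons (.rf (nat_lit 5809) (nat_lit 15433072045018155040)) .nil))) .nil)))),
 (.br (nat_lit 8) (nat_lit 1) (.cons (.br (nat_lit 13) (nat_lit 1) (.cons (.ev (nat_lit 20282719088661492051590464405761) (nat_lit 1)) (.cons (.ev (nat_lit 20282409603670117169124784275713) (nat_lit 1)) .nil))) (.cons (.ev (nat_lit 309494509895387467009425410) (nat_lit 2)) .nil))),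
 (.br (nat_lit 13) (nat_lit 1) (.cons (.rf (nat_lit 5810) (nat_lit 493858305440582043680)) (.cons (.rf (nat_lit 5811) (nat_lit 493858305440582043680)) (.cons (.br (nat_lit 13) (nat_lit 1) (.cons (.rf (nat_lit 5810) (nat_lit 493858305440582043680)) (.cons (.rf (nat_lit 5811) (nat_lit 493858305440582043680)) .nil))) .nil)))),
 (.br (nat_lit 13) (nat_lit 1) (.cons (.rf (nat_lit 5809) (nat_lit 15433072045018155040)) (.cons (.rf (nat_lit 5812) (nat_lit 493858305440582043680)) (.cons (.br (nat_lit 13) (nat_lit 1) (.cons (.rf (nat_lit 5809) (nat_lit 15433072045018155040)) (.cons (.rf (nat_lit 5812) (nat_lit 493858305440582043680)) .nil))) .nil)))),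
 (.br (nat_lit 13) (nat_lit 1) (.cons (.rf (nat_lit 5810) (nat_lit 493858305440582043680)) (.cons (.rf (nat_lit 5812) (nat_lit 493858305440582043680)) (.cons (.rf (nat_lit 5813) (nat_lit 493858305440582043680)) (.cons (.br (nat_lit 13) (nat_lit 1) (.cons (.rf (nat_lit 5810) (nat_lit 493858305440582043680)) (.cons (.rf (nat_lit 5812) (nat_lit 493858305440582043680)) (.cons (.rf (nat_lit 5813) (nat_lit 493858305440582043680)) .nil)))) .nil))))),
 (.br (nat_lit 1) (nat_lit 1) (.cons (.br (nat_lit 8) (nat_lit 1) (.cons (.rf (nat_lit 4982) (nat_lit 284956001354)) (.cons (.rf (nat_lit 1343) (nat_lit 424406132801)) (.cons (.rf (nat_lit 5807) (nat_lit 493858305440582043680)) (.cons (.rf (nat_lit 5807) (nat_lit 458117738797769787424)) .nil))))) (.cons (.rf (nat_lit 5806) (nat_lit 493858305440582043680)) (.cons (.rf (nat_lit 5676) (nat_lit 14718091894849)) (.cons (.rf (nat_lit 5814) (nat_lit 493858305440582043680)) (.cons (.rf (nat_lit 5814) (nat_lit 458117738797769787424)) .nil)))))),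
 (.br (nat_lit 7) (nat_lit 1) (.cons (.ev (nat_lit 1208925891953698189410304) (nat_lit 1)) (.cons (.rf (nat_lit 2593) (nat_lit 9668426931321808928)) (.cons (.br (nat_lit 2) (nat_lit 1) (.cons (.zr (nat_lit 1213740491877673364095232) (nat_lit 309485009823315393561755655) (nat_lit 10) (nat_lit 4)) (.cons (.br (nat_lit 12) (nat_lit 1) (.cons (.zr (nat_lit 2418036251066705927012352) (nat_lit 396759796758063838808732862473) (nat_lit 20) (nat_lit 3)) (.cons (.zr (nat_lit 1239153687543537579715461376) (nat_lit 396140812571323658292556726274) (nat_lit 10) (nat_lit 4)) .nil))) (.cons (.br (nat_lit 12) (nat_lit 1) (.cons (.zr (nat_lit 571746046773511) (nat_lit 1239153779777255770798686208) (nat_lit 15) (nat_lit 0)) (.cons (.kr (nat_lit 20282409603651670425046762913792) (nat_lit 309489732187827938369994752) (nat_lit 5) (nat_lit 0)) .nil))) .nil)))) .nil)))),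
 (.br (nat_lit 1) (nat_lit 1) (.cons (.rf (nat_lit 31) (nat_lit 276112449)) (.cons (.rf (nat_lit 4982) (nat_lit 284956001602)) (.cons (.ev (nat_lit 4740813508418331476224) (nat_lit 1)) (.cons (.rf (nat_lit 5816) (nat_lit 493858305440582043680)) (.cons (.rf (nat_lit 5816) (nat_lit 458117738797769787424)) .nil)))))),
 (.br (nat_lit 10) (nat_lit 1) (.cons (.rf (nat_lit 82) (nat_lit 9000264738)) (.cons (.br (nat_lit 12) (nat_lit 1) (.cons (.ev (nat_lit 20282719088661492051590464405761) (nat_lit 1)) .nil)) .nil))),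
 (.br (nat_lit 12) (nat_lit 1) (.cons (.ev (nat_lit 79538856468424380434167693313) (nat_lit 1)) (.cons (.zr (nat_lit 237684487542793014979655303168) (nat_lit 309485046715114695432339457) (nat_lit 5) (nat_lit 11)) .nil))),
 (.br (nat_lit 2) (nat_lit 1) (.cons (.kr (nat_lit 79229371440156009816756584704) (nat_lit 20282409608392483650890606116864) (nat_lit 1) (nat_lit 0)) .nil)),
 (.br (nat_lit 10) (nat_lit 1) (.cons (.br (nat_lit 12) (nat_lit 1) (.cons (.rf (nat_lit 31) (nat_lit 410068289)) (.cons (.ev (nat_lit 79537647524085965236757070081) (nat_lit 1)) .nil))) (.cons (.br (nat_lit 1) (nat_lit 1) (.cons (.ev (nat_lit 79538856468424380434167693313) (nat_lit 1)) (.cons (.br (nat_lit 12) (nat_lit 1) (.cons (.zr (nat_lit 3626777675016669637903104) (nat_lit 158765810038350302834612764673) (nat_lit 5) (nat_lit 0)) .nil)) .nil))) (.cons (.ev (nat_lit 310693954159761369958711296) (nat_lit 1)) (.cons (.br (nat_lit 1) (nat_lit 1) (.cons (.kr (nat_lit 1208925891672223212634368) (nat_lit 18446745173221244928)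 (nat_lit 1) (nat_lit 0)) (.cons (.br (nat_lit 2) (nat_lit 1) (.cons (.zr (nat_lit 237684487542793014979655303168) (nat_lit 309485046715114695432339457) (nat_lit 5) (nat_lit 11)) .nil)) (.cons (.rf (nat_lit 5820) (nat_lit 493858305440582043680)) .nil)))) .nil))))),
 (.br (nat_lit 8) (nat_lit 1) (.cons (.rf (nat_lit 5806) (nat_lit 493858305440582043680)) (.cons (.rf (nat_lit 5815) (nat_lit 493858305440582043680)) (.cons (.rf (nat_lit 5817) (nat_lit 493858305440582043680)) (.cons (.br (nat_lit 7) (nat_lit 1) (.cons (.br (nat_lit 2) (nat_lit 1) (.cons (.ev (nat_lit 309489750634572016391356673) (nat_lit 1)) (.cons (.rf (nat_lit 5818) (nat_lit 493858305440582043680)) (.cons (.rf (nat_lit 5818) (nat_lit 458117738797769787424)) .nil)))) (.cons (.br (nat_lit 1) (nat_lit 1) (.cons (.ev (nat_lit 309489750634572016391356673) (nat_lit 1)) (.cons (.rf (nat_lit 5819) (nat_lit 493858305440582043680)) (.cons (.rf (nat_lit 5819) (nat_lit 458117738797769787424)) .nil)))) (.cons (.ev (nat_lit 310698676526245339115552768)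 (nat_lit 1)) (.cons (.rf (nat_lit 5821) (nat_lit 493858305440582043680)) (.cons (.rf (nat_lit 5821) (nat_lit 458117738797769787424)) .nil)))))) .nil))))),
 (.br (nat_lit 8) (nat_lit 1) (.cons (.rf (nat_lit 5806) (nat_lit 493858305440582043680)) (.cons (.rf (nat_lit 5815) (nat_lit 493858305440582043680)) (.cons (.rf (nat_lit 5817) (nat_lit 493858305440582043680)) (.cons (.rf (nat_lit 5822) (nat_lit 493858305440582043680)) (.cons (.rf (nat_lit 5822) (nat_lit 458117738797769787424)) .nil)))))),
 (.br (nat_lit 6) (nat_lit 1) (.cons (.rf (nat_lit 84) (nat_lit 7891656745)) (.cons (.br (nat_lit 11) (nat_lit 1) (.cons (.ev (nat_lit 310698658079782736071032833) (nat_lit 1)) .nil)) .nil))),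
 (.br (nat_lit 2) (nat_lit 1) (.cons (.br (nat_lit 12) (nat_lit 1) (.cons (.ev (nat_lit 79538856468424380434167693313) (nat_lit 1)) (.cons (.zr (nat_lit 237684487542793017178678558720) (nat_lit 309494491448080434722766849) (nat_lit 5) (nat_lit 11)) .nil))) (.cons (.ev (nat_lit 309489750634572016391356673) (nat_lit 1)) (.cons (.br (nat_lit 12) (nat_lit 1) (.cons (.zr (nat_lit 237684487542793017178678558720) (nat_lit 309494491448080434722766849) (nat_lit 5) (nat_lit 11)) (.cons (.ev (nat_lit 20361947251175756107713343455488) (nat_lit 1)) .nil))) .nil)))),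
 (.br (nat_lit 8) (nat_lit 1) (.cons (.rf (nat_lit 5806) (nat_lit 493858305440582043680)) (.cons (.rf (nat_lit 5815) (nat_lit 493858305440582043680)) (.cons (.rf (nat_lit 5823) (nat_lit 493858305440582043680)) (.cons (.br (nat_lit 1) (nat_lit 1) (.cons (.rf (nat_lit 1593) (nat_lit 459908850753)) (.cons (.br (nat_lit 2) (nat_lit 1) (.cons (.ev (nat_lit 309489750634572016391356673) (nat_lit 1)) (.cons (.rf (nat_lit 5824) (nat_lit 15433072045018155040)) (.cons (.rf (nat_lit 5824) (nat_lit 14316179337430272032)) .nil)))) (.cons (.rf (nat_lit 5825) (nat_lit 493858305440582043680)) (.cons (.rf (nat_lit 5825) (nat_lit 458117738797769787424)) .nil))))) .nil))))),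
 (.br (nat_lit 8) (nat_lit 1) (.cons (.rf (nat_lit 5806) (nat_lit 493858305440582043680)) (.cons (.rf (nat_lit 5815) (nat_lit 493858305440582043680)) (.cons (.rf (nat_lit 5823) (nat_lit 493858305440582043680)) (.cons (.rf (nat_lit 5826) (nat_lit 493858305440582043680)) (.cons (.rf (nat_lit 5826) (nat_lit 458117738797769787424)) .nil)))))),
 (.br (nat_lit 8) (nat_lit 1) (.cons (.rf (nat_lit 5806) (nat_lit 493858305440582043680)) (.cons (.rf (nat_lit 5815) (nat_lit 493858305440582043680)) (.cons (.rf (nat_lit 5823) (nat_lit 493858305440582043680)) (.cons (.rf (nat_lit 5827) (nat_lit 493858305440582043680)) (.cons (.br (nat_lit 8) (nat_lit 1) (.cons (.rf (nat_lit 5806) (nat_lit 493858305440582043680)) (.cons (.ev (nat_lit 309494509895387467009425410) (nat_lit 2)) (.cons (.rf (nat_lit 5823) (nat_lit 493858305440582043680)) (.cons (.rf (nat_lit 5827) (nat_lit 493858305440582043680)) .nil))))) .nil)))))),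
 (.br (nat_lit 8) (nat_lit 1) (.cons (.rf (nat_lit 5806) (nat_lit 493858305440582043680)) (.cons (.rf (nat_lit 5815) (nat_lit 493858305440582043680)) (.cons (.rf (nat_lit 5823) (nat_lit 493858305440582043680)) (.cons (.rf (nat_lit 5827) (nat_lit 493858305440582043680)) (.cons (.rf (nat_lit 5828) (nat_lit 493858305440582043680)) (.cons (.rf (nat_lit 5828) (nat_lit 458117738797769787424)) .nil))))))),
 (.br (nat_lit 13) (nat_lit 1) (.cons (.br (nat_lit 7) (nat_lit 1) (.cons (.ev (nat_lit 20282409603670117169124784275713) (nat_lit 1)) (.cons (.zr (nat_lit 216177180160491520) (nat_lit 40565128701757895440181806235649) (nat_lit 5) (nat_lit 0)) .nil))) (.cons (.br (nat_lit 7) (nat_lit 1) (.cons (.ev (nat_lit 20282409608392483650894917861633) (nat_lit 1)) (.cons (.zr (nat_lit 14167315621391049621504) (nat_lit 40565128692313162475542027436033) (nat_lit 5) (nat_lit 0)) (.cons (.zr (nat_lit 216174981137235968) (nat_lit 40565128692313162474442515808257) (nat_lit 5) (nat_lit 0)) .nil)))) .nil))),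
 (.br (nat_lit 13) (nat_lit 1) (.cons (.rf (nat_lit 5830) (nat_lit 493858305440582043680)) (.cons (.br (nat_lit 7) (nat_lit 1) (.cons (.br (nat_lit 8) (nat_lit 1) (.cons (.zr (nat_lit 3626832799076125832642560) (nat_lit 158765810038350302830317797889) (nat_lit 5) (nat_lit 5)) .nil)) (.cons (.ev (nat_lit 20361948464823942205212163309568) (nat_lit 1)) .nil))) .nil))),
 (.br (nat_lit 13) (nat_lit 1) (.cons (.rf (nat_lit 5830) (nat_lit 493858305440582043680)) (.cons (.rf (nat_lit 5831) (nat_lit 493858305440582043680)) (.cons (.br (nat_lit 13) (nat_lit 1) (.cons (.rf (nat_lit 5830) (nat_lit 493858305440582043680)) (.cons (.rf (nat_lit 5831) (nat_lit 493858305440582043680)) .nil))) .nil)))),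
 (.br (nat_lit 13) (nat_lit 1) (.cons (.rf (nat_lit 5832) (nat_lit 493858305440582043680)) (.cons (.br (nat_lit 13) (nat_lit 1) (.cons (.rf (nat_lit 5832) (nat_lit 493858305440582043680)) (.cons (.ev (nat_lit 20282719088661492051590464405761) (nat_lit 1)) .nil))) (.cons (.br (nat_lit 13) (nat_lit 1) (.cons (.rf (nat_lit 5832) (nat_lit 493858305440582043680)) (.cons (.ev (nat_lit 20282719088661492051590464405761) (nat_lit 1)) .nil))) .nil))))]

theorem c202 : chkAll C T R L202 (nat_lit 5801) = true := by decide +kernel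

theorem l202 : (nat_lit 5801) + L202.length = (nat_lit 5834) := by decide +kernel

/-- part of the certificates -/
def L203 : List Prf := [(.br (nat_lit 13) (nat_lit 1) (.cons (.rf (nat_lit 5832) (nat_lit 493858305440582043680)) (.cons (.rf (nat_lit 5833) (nat_lit 493858305440582043680)) (.cons (.br (nat_lit 13) (nat_lit 1) (.cons (.rf (nat_lit 5832) (nat_lit 493858305440582043680)) (.cons (.ev (nat_lit 20282719088661492051590464405761) (nat_lit 1)) .nil))) .nil)))),
 (.br (nat_lit 13) (nat_lit 1) (.cons (.rf (nat_lit 5832) (nat_lit 493858305440582043680)) (.cons (.rf (nat_lit 5833) (nat_lit 493858305440582043680)) (.cons (.rf (nat_lit 5834) (nat_lit 493858305440582043680)) (.cons (.br (nat_lit 13) (nat_lit 1) (.cons (.rf (nat_lit 5832) (nat_lit 493858305440582043680)) (.cons (.rf (nat_lit 5833) (nat_lit 493858305440582043680)) (.cons (.rf (nat_lit 5834) (nat_lit 493858305440582043680)) .nil)))) .nil))))),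
 (.br (nat_lit 2) (nat_lit 1) (.cons (.kr (nat_lit 1) (nat_lit 72057594037927936) (nat_lit 0) (nat_lit 1)) (.cons (.rf (nat_lit 84) (nat_lit 13128214601)) (.cons (.br (nat_lit 8) (nat_lit 1) (.cons (.ev (nat_lit 79229376162450436196187242496) (nat_lit 1)) (.cons (.br (nat_lit 12) (nat_lit 1) (.cons (.ev (nat_lit 79538856468424380434167693313) (nat_lit 1)) (.cons (.zr (nat_lit 237688114320251857767667598080) (nat_lit 309494491448080434722766849) (nat_lit 5) (nat_lit 11)) .nil))) .nil))) (.cons (.br (nat_lit 8) (nat_lit 1) (.cons (.br (nat_lit 7) (nat_lit 1) (.cons (.rf (nat_lit 5177) (nat_lit 13329737769)) (.cons (.br (nat_lit 12) (nat_lit 1) (.cons (.ev (nat_lit 79229376162522493790225170433) (nat_lit 1)) .nil)) .nil))) (.cons (.rf (nat_lit 2942) (nat_lit 14102294633612682272)) .nil))) .nil))))),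
 (.br (nat_lit 10) (nat_lit 1) (.cons (.ev (nat_lit 20282719088661564109184502333696) (nat_lit 1)) .nil)),
 (.br (nat_lit 8) (nat_lit 1) (.cons (.rf (nat_lit 5835) (nat_lit 493858305440582043680)) (.cons (.rf (nat_lit 5836) (nat_lit 493858305440582043680)) (.cons (.br (nat_lit 2) (nat_lit 1) (.cons (.ev (nat_lit 309485028268090246257770753) (nat_lit 1)) (.cons (.br (nat_lit 12) (nat_lit 1) (.cons (.ev (nat_lit 79538856468424380434167693313) (nat_lit 1)) (.cons (.zr (nat_lit 237688114320251856668155970304) (nat_lit 309485046715115794943967233) (nat_lit 5) (nat_lit 11)) .nil))) (.cons (.br (nat_lit 10) (nat_lit 1) (.cons (.ev (nat_lit 79538856468424380434167693313) (nat_lit 1)) (.cons (.zr (nat_lit 237688114320251856668155970304) (nat_lit 309485046715115794943967233) (nat_lit 5) (nat_lit 11)) .nil))) (.cons (.br (nat_lit 7) (nat_lit 1) (.cons (.br (nat_lit 12) (nat_lit 1) (.cons (.ev (nat_lit 79538861190718806809286606848) (nat_lit 1)) .nil)) (.cons (.rf (nat_lit 5837) (nat_lit 493858305440582043680))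 (.cons (.ev (nat_lit 20283028578412342796388969545731) (nat_lit 2)) .nil)))) .nil))))) .nil)))),
 (.br (nat_lit 8) (nat_lit 1) (.cons (.rf (nat_lit 5835) (nat_lit 493858305440582043680)) (.cons (.rf (nat_lit 5836) (nat_lit 493858305440582043680)) (.cons (.rf (nat_lit 5838) (nat_lit 493858305440582043680)) (.cons (.br (nat_lit 8) (nat_lit 1) (.cons (.rf (nat_lit 5835) (nat_lit 493858305440582043680)) (.cons (.rf (nat_lit 5836) (nat_lit 493858305440582043680)) (.cons (.rf (nat_lit 5838) (nat_lit 493858305440582043680)) .nil)))) .nil))))),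
 (.br (nat_lit 8) (nat_lit 1) (.cons (.rf (nat_lit 84) (nat_lit 7927539777)) (.cons (.rf (nat_lit 5839) (nat_lit 493858305440582043680)) (.cons (.br (nat_lit 2) (nat_lit 1) (.cons (.br (nat_lit 7) (nat_lit 1) (.cons (.ev (nat_lit 79538856468424380434167693313) (nat_lit 1)) (.cons (.br (nat_lit 12) (nat_lit 1) (.cons (.ev (nat_lit 20680413385096780625353246179588) (nat_lit 3)) .nil)) .nil))) (.cons (.ev (nat_lit 309489750634572016391356673) (nat_lit 1)) (.cons (.br (nat_lit 12) (nat_lit 1) (.cons (.br (nat_lit 7) (nat_lit 1) (.cons (.ev (nat_lit 20520716711843857517098440263436) (nat_lit 4)) .nil)) (.cons (.ev (nat_lit 20361638979832567885687813111808) (nat_lit 1)) .nil))) .nil)))) .nil)))),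
 (.br (nat_lit 8) (nat_lit 1) (.cons (.rf (nat_lit 5835) (nat_lit 493858305440582043680)) (.cons (.rf (nat_lit 5839) (nat_lit 493858305440582043680)) (.cons (.rf (nat_lit 5840) (nat_lit 493858305440582043680)) (.cons (.br (nat_lit 8) (nat_lit 1) (.cons (.rf (nat_lit 5835) (nat_lit 493858305440582043680)) (.cons (.rf (nat_lit 5839) (nat_lit 493858305440582043680)) (.cons (.rf (nat_lit 5840) (nat_lit 493858305440582043680)) .nil)))) .nil))))),
 (.br (nat_lit 8) (nat_lit 1) (.cons (.rf (nat_lit 5835) (nat_lit 493858305440582043680)) (.cons (.rf (nat_lit 5839) (nat_lit 493858305440582043680)) (.cons (.rf (nat_lit 5841) (nat_lit 493858305440582043680)) (.cons (.br (nat_lit 8) (nat_lit 1) (.cons (.rf (nat_lit 5835) (nat_lit 493858305440582043680)) (.cons (.rf (nat_lit 5839) (nat_lit 493858305440582043680)) (.cons (.rf (nat_lit 5841) (nat_lit 493858305440582043680)) .nil)))) .nil))))),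
 (.br (nat_lit 8) (nat_lit 1) (.cons (.rf (nat_lit 5835) (nat_lit 493858305440582043680)) (.cons (.rf (nat_lit 5839) (nat_lit 493858305440582043680)) (.cons (.rf (nat_lit 5841) (nat_lit 493858305440582043680)) (.cons (.rf (nat_lit 5842) (nat_lit 493858305440582043680)) (.cons (.br (nat_lit 8) (nat_lit 1) (.cons (.rf (nat_lit 5835) (nat_lit 493858305440582043680)) (.cons (.rf (nat_lit 5839) (nat_lit 493858305440582043680)) (.cons (.rf (nat_lit 5841) (nat_lit 493858305440582043680)) (.cons (.rf (nat_lit 5842) (nat_lit 493858305440582043680)) .nil))))) .nil)))))),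
 (.br (nat_lit 8) (nat_lit 1) (.cons (.br (nat_lit 12) (nat_lit 1) (.cons (.ev (nat_lit 79538861190790864403324534785) (nat_lit 1)) .nil)) .nil)),
 (.br (nat_lit 7) (nat_lit 1) (.cons (.rf (nat_lit 31) (nat_lit 410290497)) (.cons (.br (nat_lit 8) (nat_lit 1) (.cons (.rf (nat_lit 5844) (nat_lit 493858305440582043680)) (.cons (.br (nat_lit 12) (nat_lit 1) (.cons (.rf (nat_lit 5844) (nat_lit 493858305440582043680)) (.cons (.ev (nat_lit 20282719088661492051590464405761) (nat_lit 1)) .nil))) .nil))) .nil))),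
 (.br (nat_lit 7) (nat_lit 1) (.cons (.rf (nat_lit 82) (nat_lit 9000233025)) (.cons (.rf (nat_lit 2594) (nat_lit 13155674401)) (.cons (.br (nat_lit 10) (nat_lit 1) (.cons (.br (nat_lit 8) (nat_lit 1) (.cons (.ev (nat_lit 79229371458530696300739952641) (nat_lit 1)) (.cons (.br (nat_lit 12) (nat_lit 1) (.cons (.ev (nat_lit 79538856468424380434167693313) (nat_lit 1)) .nil)) .nil))) (.cons (.rf (nat_lit 58) (nat_lit 12919842)) (.cons (.br (nat_lit 13) (nat_lit 1) (.cons (.ev (nat_lit 20282719088661492051590464405761) (nat_lit 1)) (.cons (.ev (nat_lit 20282409603651742482645112652033) (nat_lit 1)) .nil))) .nil)))) .nil)))),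
 (.br (nat_lit 7) (nat_lit 1) (.cons (.br (nat_lit 12) (nat_lit 1) (.cons (.rf (nat_lit 5177) (nat_lit 13329737801)) (.cons (.zr (nat_lit 79229371440517142224811589888) (nat_lit 618993631475106684698886151) (nat_lit 10) (nat_lit 3)) .nil))) (.cons (.br (nat_lit 13) (nat_lit 1) (.cons (.ev (nat_lit 20282719093383930590954635919616) (nat_lit 1)) (.cons (.ev (nat_lit 20282409608374036906821208310016) (nat_lit 1)) .nil))) .nil))),
 (.br (nat_lit 8) (nat_lit 1) (.cons (.rf (nat_lit 5847) (nat_lit 493858305440582043680)) (.cons (.br (nat_lit 13) (nat_lit 1) (.cons (.ev (nat_lit 20282719093383930590954635919616) (nat_lit 1)) (.cons (.zr (nat_lit 60847228825122110720450689695744) (nat_lit 309485046715115794943967233) (nat_lit 5) (nat_lit 11)) (.cons (.zr (nat_lit 60847228810955011274040777310208) (nat_lit 309485046715114695432339457) (nat_lit 5) (nat_lit 11)) .nil)))) .nil))),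
 (.br (nat_lit 8) (nat_lit 1) (.cons (.rf (nat_lit 5847) (nat_lit 493858305440582043680)) (.cons (.rf (nat_lit 5848) (nat_lit 493858305440582043680)) (.cons (.br (nat_lit 8) (nat_lit 1) (.cons (.rf (nat_lit 5847) (nat_lit 493858305440582043680)) (.cons (.rf (nat_lit 5848) (nat_lit 493858305440582043680)) .nil))) .nil)))),
 (.br (nat_lit 7) (nat_lit 1) (.cons (.rf (nat_lit 5849) (nat_lit 493858305440582043680)) (.cons (.br (nat_lit 12) (nat_lit 1) (.cons (.zr (nat_lit 3626777675016686817771520) (nat_lit 158765810038350302830317797889) (nat_lit 5) (nat_lit 5)) (.cons (.ev (nat_lit 20282409608374036906821208310016) (nat_lit 1)) .nil))) .nil))),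
 (.br (nat_lit 7) (nat_lit 1) (.cons (.rf (nat_lit 5849) (nat_lit 493858305440582043680)) (.cons (.rf (nat_lit 5850) (nat_lit 493858305440582043680)) (.cons (.br (nat_lit 7) (nat_lit 1) (.cons (.rf (nat_lit 5849) (nat_lit 493858305440582043680)) (.cons (.rf (nat_lit 5850) (nat_lit 493858305440582043680)) .nil))) .nil)))),
 (.br (nat_lit 8) (nat_lit 1) (.cons (.rf (nat_lit 5849) (nat_lit 493858305440582043680)) (.cons (.rf (nat_lit 5851) (nat_lit 493858305440582043680)) (.cons (.br (nat_lit 8) (nat_lit 1) (.cons (.rf (nat_lit 5849) (nat_lit 493858305440582043680)) (.cons (.rf (nat_lit 5851) (nat_lit 493858305440582043680)) .nil))) .nil)))),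
 (.br (nat_lit 1) (nat_lit 1) (.cons (.rf (nat_lit 5843) (nat_lit 493858305440582043680)) (.cons (.rf (nat_lit 5843) (nat_lit 493858304375430154272)) (.cons (.br (nat_lit 7) (nat_lit 1) (.cons (.rf (nat_lit 5845) (nat_lit 493858305440582043680)) (.cons (.rf (nat_lit 31) (nat_lit 410290497)) (.cons (.br (nat_lit 7) (nat_lit 1) (.cons (.rf (nat_lit 5845) (nat_lit 493858305440582043680)) (.cons (.rf (nat_lit 31) (nat_lit 410290497)) .nil))) .nil)))) (.cons (.br (nat_lit 7) (nat_lit 1) (.cons (.rf (nat_lit 5846) (nat_lit 493858305440582043680)) (.cons (.rf (nat_lit 1343) (nat_lit 275291284514)) (.cons (.rf (nat_lit 4982) (nat_lit 250450674762)) (.cons (.br (nat_lit 7) (nat_lit 1) (.cons (.rf (nat_lit 5846) (nat_lit 493858305440582043680)) (.cons (.rf (nat_lit 82) (nat_lit 14368942145)) (.cons (.rf (nat_lit 2594) (nat_lit 13323446561)) .nil)))) .nil))))) (.cons (.br (nat_lit 8) (nat_lit 1) (.cons (.rf (nat_lit 5849) (nat_lit 493858305440582043680)) (.cons (.rf (nat_lit 5851) (nat_lit 493858305440582043680))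 (.cons (.rf (nat_lit 5852) (nat_lit 493858305440582043680)) (.cons (.br (nat_lit 8) (nat_lit 1) (.cons (.rf (nat_lit 5849) (nat_lit 493858305440582043680)) (.cons (.rf (nat_lit 5851) (nat_lit 493858305440582043680)) (.cons (.rf (nat_lit 5852) (nat_lit 493858305440582043680)) .nil)))) .nil))))) .nil)))))),
 (.br (nat_lit 8) (nat_lit 1) (.cons (.rf (nat_lit 5843) (nat_lit 493858304375430154272)) (.cons (.rf (nat_lit 5853) (nat_lit 493858304375430154272)) (.cons (.br (nat_lit 7) (nat_lit 1) (.cons (.rf (nat_lit 5843) (nat_lit 493858305440582043680)) (.cons (.rf (nat_lit 5853) (nat_lit 493858305440582043680)) (.cons (.br (nat_lit 1) (nat_lit 1) (.cons (.ev (nat_lit 309489750706629610429284608) (nat_lit 1)) (.cons (.br (nat_lit 2) (nat_lit 1) (.cons (.ev (nat_lit 309485028268090246257770753) (nat_lit 1)) .nil)) .nil))) (.cons (.kr (nat_lit 18446745173221179392) (nat_lit 4722438540463683141632) (nat_lit 5) (nat_lit 0)) .nil))))) .nil)))),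
 (.br (nat_lit 8) (nat_lit 1) (.cons (.rf (nat_lit 5843) (nat_lit 493858304375430154272)) (.cons (.rf (nat_lit 5853) (nat_lit 493858304375430154272)) (.cons (.rf (nat_lit 5854) (nat_lit 493858305440582043680)) (.cons (.br (nat_lit 8) (nat_lit 1) (.cons (.rf (nat_lit 5843) (nat_lit 493858304375430154272)) (.cons (.rf (nat_lit 5853) (nat_lit 493858304375430154272)) (.cons (.rf (nat_lit 5854) (nat_lit 493858305440582043680)) .nil)))) .nil))))),
 (.br (nat_lit 7) (nat_lit 1) (.cons (.rf (nat_lit 5843) (nat_lit 493858305440582043680)) (.cons (.rf (nat_lit 5853) (nat_lit 493858305440582043680)) (.cons (.rf (nat_lit 5855) (nat_lit 493858305440582043680)) (.cons (.br (nat_lit 8) (nat_lit 1) (.cons (.rf (nat_lit 5843) (nat_lit 493858304375430154272)) (.cons (.rf (nat_lit 5853) (nat_lit 493858304375430154272)) (.cons (.rf (nat_lit 5855) (nat_lit 493858304375430154272)) (.cons (.br (nat_lit 8) (nat_lit 1) (.cons (.rf (nat_lit 5843) (nat_lit 493858304375430154272)) (.cons (.rf (nat_lit 5853) (nat_lit 493858304375430154272))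 (.cons (.rf (nat_lit 5855) (nat_lit 493858304375430154272)) (.cons (.kr (nat_lit 72057594037927936) (nat_lit 18446744073709551616) (nat_lit 7) (nat_lit 0)) .nil))))) (.cons (.br (nat_lit 8) (nat_lit 1) (.cons (.rf (nat_lit 5843) (nat_lit 493858304375430154272)) (.cons (.rf (nat_lit 5853) (nat_lit 493858304375430154272)) (.cons (.kr (nat_lit 72058693549555712) (nat_lit 4740813226943354765312) (nat_lit 5) (nat_lit 0)) (.cons (.kr (nat_lit 72057594037927936) (nat_lit 18446744073709551616) (nat_lit 7) (nat_lit 0)) .nil))))) .nil)))))) .nil))))),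
 (.br (nat_lit 7) (nat_lit 1) (.cons (.rf (nat_lit 5843) (nat_lit 493858305440582043680)) (.cons (.rf (nat_lit 5853) (nat_lit 493858305440582043680)) (.cons (.rf (nat_lit 5855) (nat_lit 493858305440582043680)) (.cons (.rf (nat_lit 5856) (nat_lit 493858305440582043680)) (.cons (.br (nat_lit 7) (nat_lit 1) (.cons (.rf (nat_lit 5843) (nat_lit 493858305440582043680)) (.cons (.rf (nat_lit 5853) (nat_lit 493858305440582043680)) (.cons (.rf (nat_lit 5855) (nat_lit 493858305440582043680)) (.cons (.rf (nat_lit 5856) (nat_lit 493858305440582043680)) .nil))))) .nil)))))),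
 (.br (nat_lit 8) (nat_lit 1) (.cons (.rf (nat_lit 5843) (nat_lit 493858304375430154272)) (.cons (.rf (nat_lit 5853) (nat_lit 493858304375430154272)) (.cons (.rf (nat_lit 5857) (nat_lit 493858305440582043680)) (.cons (.br (nat_lit 8) (nat_lit 1) (.cons (.rf (nat_lit 5843) (nat_lit 493858304375430154272)) (.cons (.rf (nat_lit 5853) (nat_lit 493858304375430154272)) (.cons (.rf (nat_lit 5857) (nat_lit 493858305440582043680)) .nil)))) .nil))))),
 (.br (nat_lit 8) (nat_lit 1) (.cons (.rf (nat_lit 5843) (nat_lit 493858304375430154272)) (.cons (.rf (nat_lit 5853) (nat_lit 493858304375430154272)) (.cons (.rf (nat_lit 5857) (nat_lit 493858305440582043680)) (.cons (.rf (nat_lit 5858) (nat_lit 493858305440582043680)) (.cons (.br (nat_lit 8) (nat_lit 1) (.cons (.rf (nat_lit 5843) (nat_lit 493858304375430154272)) (.cons (.rf (nat_lit 5853) (nat_lit 493858304375430154272)) (.cons (.rf (nat_lit 5857) (nat_lit 493858305440582043680)) (.cons (.rf (nat_lit 5858) (nat_lit 493858305440582043680)) .nil))))) .nil)))))),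
 (.br (nat_lit 7) (nat_lit 1) (.cons (.rf (nat_lit 5843) (nat_lit 493858305440582043680)) (.cons (.rf (nat_lit 5853) (nat_lit 493858305440582043680)) (.cons (.rf (nat_lit 5857) (nat_lit 493858305440582043680)) (.cons (.rf (nat_lit 5859) (nat_lit 493858305440582043680)) (.cons (.br (nat_lit 7) (nat_lit 1) (.cons (.rf (nat_lit 5843) (nat_lit 493858305440582043680)) (.cons (.rf (nat_lit 5853) (nat_lit 493858305440582043680)) (.cons (.rf (nat_lit 5857) (nat_lit 493858305440582043680)) (.cons (.rf (nat_lit 5859) (nat_lit 493858305440582043680)) .nil))))) .nil))))))]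

theorem c203 : chkAll C T R L203 (nat_lit 5834) = true := by decide +kernel

theorem l203 : (nat_lit 5834) + L203.length = (nat_lit 5861) := by decide +kernel

/-- part of the certificates -/
def L204 : List Prf := [(.br (nat_lit 7) (nat_lit 1) (.cons (.rf (nat_lit 5843) (nat_lit 493858305440582043680)) (.cons (.rf (nat_lit 5853) (nat_lit 493858305440582043680)) (.cons (.rf (nat_lit 5857) (nat_lit 493858305440582043680)) (.cons (.rf (nat_lit 5859) (nat_lit 493858305440582043680)) (.cons (.rf (nat_lit 5860) (nat_lit 493858305440582043680)) (.cons (.br (nat_lit 7) (nat_lit 1) (.cons (.rf (nat_lit 5843) (nat_lit 493858305440582043680)) (.cons (.rf (nat_lit 5853) (nat_lit 493858305440582043680)) (.cons (.rf (nat_lit 5857) (nat_lit 493858305440582043680)) (.cons (.rf (nat_lit 5859) (nat_lit 493858305440582043680)) (.cons (.rf (nat_lit 5860) (nat_lit 493858305440582043680)) .nil)))))) .nil))))))),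
 (.br (nat_lit 10) (nat_lit 0) (.cons (.br (nat_lit 2) (nat_lit 0) (.cons (.br (nat_lit 9) (nat_lit 0) (.cons (.br (nat_lit 11) (nat_lit 1) (.cons (.br (nat_lit 11) (nat_lit 1) (.cons (.br (nat_lit 7) (nat_lit 1) (.cons (.rf (nat_lit 5763) (nat_lit 493858305440582043680)) (.cons (.rf (nat_lit 5763) (nat_lit 493857214722901902400)) (.cons (.rf (nat_lit 5771) (nat_lit 493858305440582043680)) (.cons (.rf (nat_lit 5776) (nat_lit 493858305440582043680)) (.cons (.rf (nat_lit 5776) (nat_lit 493857214722901902400)) (.cons (.rf (nat_lit 5777) (nat_lit 493858305440582043680)) (.cons (.rf (nat_lit 5777) (nat_lit 458117738797769787424)) .nil)))))))) .nil)) .nil)) .nil)) (.cons (.br (nat_lit 9) (nat_lit 0) (.cons (.br (nat_lit 11) (nat_lit 1) (.cons (.br (nat_lit 11) (nat_lit 1) (.cons (.br (nat_lit 9) (nat_lit 1) (.cons (.br (nat_lit 2) (nat_lit 1) (.cons (.rf (nat_lit 5781) (nat_lit 493858305440582043680)) (.cons (.rf (nat_lit 5781) (nat_lit 493858304375430154272)) (.cons (.kr (nat_lit 1208925819614629174706432)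 (nat_lit 4722366482869645279232) (nat_lit 1) (nat_lit 0)) (.cons (.rf (nat_lit 5785) (nat_lit 493858305440582043680)) (.cons (.rf (nat_lit 5785) (nat_lit 458117738797769787424)) .nil)))))) (.cons (.br (nat_lit 7) (nat_lit 1) (.cons (.rf (nat_lit 5789) (nat_lit 493858305440582043680)) (.cons (.rf (nat_lit 5795) (nat_lit 493858305440582043680)) (.cons (.rf (nat_lit 5797) (nat_lit 493858305440582043680)) (.cons (.rf (nat_lit 5798) (nat_lit 493858305440582043680)) (.cons (.rf (nat_lit 5798) (nat_lit 458117738797769787424)) .nil)))))) (.cons (.rf (nat_lit 5829) (nat_lit 493858305440582043680)) (.cons (.rf (nat_lit 5829) (nat_lit 493858304375430154272)) (.cons (.kr (nat_lit 1099511627776) (nat_lit 4722366482869645213696) (nat_lit 5) (nat_lit 0)) (.cons (.rf (nat_lit 5861) (nat_lit 493858305440582043680)) (.cons (.rf (nat_lit 5861) (nat_lit 458117738797769787424)) .nil)))))))) .nil)) .nil)) (.cons (.rf (nat_lit 5644) (nat_lit 350211908683)) .nil))) .nil))) .nil)),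
 (.br (nat_lit 10) (nat_lit 0) (.cons (.rf (nat_lit 5862) (nat_lit 11584701642934304)) (.cons (.br (nat_lit 10) (nat_lit 0) (.cons (.rf (nat_lit 5862) (nat_lit 11584701642934304)) .nil)) .nil))),
 (.br (nat_lit 8) (nat_lit 1) (.cons (.br (nat_lit 12) (nat_lit 1) (.cons (.kr (nat_lit 79228167255077564536898715904) (nat_lit 20282410812577562096170463985664) (nat_lit 1) (nat_lit 0)) .nil)) .nil)),
 (.br (nat_lit 7) (nat_lit 1) (.cons (.rf (nat_lit 31) (nat_lit 410322210)) (.cons (.br (nat_lit 8) (nat_lit 1) (.cons (.rf (nat_lit 5864) (nat_lit 493858305440582043680)) (.cons (.br (nat_lit 12) (nat_lit 1) (.cons (.rf (nat_lit 5864) (nat_lit 493858305440582043680)) (.cons (.zr (nat_lit 3626777675016669638098944) (nat_lit 40565128692313162475542027436033) (nat_lit 5) (nat_lit 0)) .nil))) .nil))) .nil))),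
 (.br (nat_lit 7) (nat_lit 1) (.cons (.rf (nat_lit 5865) (nat_lit 493858305440582043680)) (.cons (.rf (nat_lit 31) (nat_lit 410322210)) (.cons (.br (nat_lit 7) (nat_lit 1) (.cons (.rf (nat_lit 5865) (nat_lit 493858305440582043680)) (.cons (.rf (nat_lit 31) (nat_lit 410322210)) .nil))) .nil)))),
 (.br (nat_lit 10) (nat_lit 1) (.cons (.rf (nat_lit 29) (nat_lit 7669026)) (.cons (.rf (nat_lit 5676) (nat_lit 14718124432418)) (.cons (.rf (nat_lit 5866) (nat_lit 493858305440582043680)) (.cons (.rf (nat_lit 5866) (nat_lit 458117738797769787424)) .nil))))),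
 (.br (nat_lit 12) (nat_lit 1) (.cons (.kr (nat_lit 20282409608392483650890606051584) (nat_lit 79229371440156009816756649984) (nat_lit 1) (nat_lit 0)) .nil)),
 (.br (nat_lit 10) (nat_lit 1) (.cons (.ev (nat_lit 310693954159761369958777088) (nat_lit 1)) (.cons (.rf (nat_lit 5868) (nat_lit 493858305440582043680)) .nil))),
 (.br (nat_lit 8) (nat_lit 1) (.cons (.rf (nat_lit 2594) (nat_lit 7921215777)) (.cons (.rf (nat_lit 82) (nat_lit 13128476737)) (.cons (.br (nat_lit 7) (nat_lit 1) (.cons (.ev (nat_lit 1213648258437667346186496) (nat_lit 1)) (.cons (.rf (nat_lit 5869) (nat_lit 493858305440582043680)) (.cons (.rf (nat_lit 5869) (nat_lit 458117738797769787424)) .nil)))) .nil)))),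
 (.br (nat_lit 8) (nat_lit 1) (.cons (.kr (nat_lit 79228167255077564536898715904) (nat_lit 20282410812577562096170463985664) (nat_lit 1) (nat_lit 0)) .nil)),
 (.br (nat_lit 7) (nat_lit 1) (.cons (.br (nat_lit 8) (nat_lit 1) (.cons (.ev (nat_lit 1213666705181741055803393) (nat_lit 1)) (.cons (.br (nat_lit 10) (nat_lit 1) (.cons (.ev (nat_lit 79538861190718806809286606848) (nat_lit 1)) .nil)) .nil))) (.cons (.ev (nat_lit 1213648258437667346186496) (nat_lit 1)) (.cons (.br (nat_lit 10) (nat_lit 1) (.cons (.rf (nat_lit 5871) (nat_lit 493858305440582043680)) (.cons (.ev (nat_lit 20362257959278713252847445606915) (nat_lit 2)) .nil))) .nil)))),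
 (.br (nat_lit 12) (nat_lit 1) (.cons (.rf (nat_lit 4982) (nat_lit 422249202762)) (.cons (.br (nat_lit 12) (nat_lit 1) (.cons (.ev (nat_lit 79228167236702878061538836481) (nat_lit 1)) (.cons (.rf (nat_lit 82) (nat_lit 8837703745)) (.cons (.rf (nat_lit 5872) (nat_lit 493858305440582043680)) .nil)))) (.cons (.rf (nat_lit 1343) (nat_lit 275290236993)) (.cons (.br (nat_lit 12) (nat_lit 1) (.cons (.rf (nat_lit 2594) (nat_lit 7954901281)) (.cons (.rf (nat_lit 5872) (nat_lit 493858305440582043680)) (.cons (.rf (nat_lit 82) (nat_lit 14206412865)) .nil)))) .nil))))),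
 (.br (nat_lit 2) (nat_lit 1) (.cons (.rf (nat_lit 58) (nat_lit 7637034)) (.cons (.br (nat_lit 8) (nat_lit 1) (.cons (.rf (nat_lit 4982) (nat_lit 284956001354)) (.cons (.rf (nat_lit 1343) (nat_lit 424406132801)) (.cons (.rf (nat_lit 5870) (nat_lit 493858305440582043680)) (.cons (.rf (nat_lit 5870) (nat_lit 458117738797769787424)) .nil))))) (.cons (.rf (nat_lit 29) (nat_lit 7636290)) (.cons (.rf (nat_lit 5873) (nat_lit 493858305440582043680)) (.cons (.rf (nat_lit 5873) (nat_lit 458117738797769787424)) .nil)))))),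
 (.br (nat_lit 12) (nat_lit 1) (.cons (.ev (nat_lit 80156617562391854804518503170) (nat_lit 2)) (.cons (.ev (nat_lit 79228167255077564541210525953) (nat_lit 1)) .nil))),
 (.br (nat_lit 8) (nat_lit 1) (.cons (.kr (nat_lit 1) (nat_lit 72057594037927936) (nat_lit 0) (nat_lit 1)) (.cons (.rf (nat_lit 82) (nat_lit 13128247585)) (.cons (.br (nat_lit 7) (nat_lit 1) (.cons (.ev (nat_lit 310693954087703775920849153) (nat_lit 1)) (.cons (.rf (nat_lit 5875) (nat_lit 493858305440582043680)) (.cons (.rf (nat_lit 5875) (nat_lit 458117738797769787424)) .nil)))) .nil)))),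
 (.br (nat_lit 8) (nat_lit 1) (.cons (.ev (nat_lit 79228167255149622135248453888) (nat_lit 1)) (.cons (.br (nat_lit 12) (nat_lit 1) (.cons (.ev (nat_lit 20362262814000584286226962515718) (nat_lit 3)) .nil)) .nil))),
 (.br (nat_lit 12) (nat_lit 1) (.cons (.kr (nat_lit 79229371458530696296428208384) (nat_lit 20282409608374108964410934493184) (nat_lit 1) (nat_lit 0)) .nil)),
 (.br (nat_lit 7) (nat_lit 1) (.cons (.rf (nat_lit 5877) (nat_lit 493858305440582043680)) (.cons (.br (nat_lit 8) (nat_lit 1) (.cons (.rf (nat_lit 5878) (nat_lit 493858305440582043680)) (.cons (.ev (nat_lit 20282719088680010853258211950593) (nat_lit 1)) .nil))) .nil))),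
 (.br (nat_lit 8) (nat_lit 1) (.cons (.kr (nat_lit 79229371458530696296428208384) (nat_lit 20282409608374108964410934493184) (nat_lit 1) (nat_lit 0)) .nil)),
 (.br (nat_lit 7) (nat_lit 1) (.cons (.rf (nat_lit 5877) (nat_lit 493858305440582043680)) (.cons (.br (nat_lit 12) (nat_lit 1) (.cons (.rf (nat_lit 5880) (nat_lit 493858305440582043680)) (.cons (.ev (nat_lit 20361947255898194647077514903553) (nat_lit 1)) .nil))) .nil))),
 (.br (nat_lit 10) (nat_lit 1) (.cons (.rf (nat_lit 5874) (nat_lit 493857214725047289888)) (.cons (.br (nat_lit 8) (nat_lit 1) (.cons (.rf (nat_lit 84) (nat_lit 13128214818)) (.cons (.rf (nat_lit 84) (nat_lit 7927310625)) (.cons (.br (nat_lit 7) (nat_lit 1) (.cons (.br (nat_lit 7) (nat_lit 1) (.cons (.ev (nat_lit 1213666705181741055803393) (nat_lit 1)) .nil)) (.cons (.br (nat_lit 7) (nat_lit 1) (.cons (.ev (nat_lit 1213666705181741055803393) (nat_lit 1)) .nil)) .nil))) .nil)))) (.cons (.rf (nat_lit 5874) (nat_lit 303219566690621891915)) (.cons (.br (nat_lit 7) (nat_lit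 1) (.cons (.rf (nat_lit 5879) (nat_lit 493858305440582043680)) (.cons (.rf (nat_lit 5881) (nat_lit 493858305440582043680)) (.cons (.br (nat_lit 7) (nat_lit 1) (.cons (.rf (nat_lit 5879) (nat_lit 493858305440582043680)) (.cons (.rf (nat_lit 5881) (nat_lit 493858305440582043680)) .nil))) .nil)))) .nil))))),
 (.br (nat_lit 2) (nat_lit 1) (.cons (.br (nat_lit 8) (nat_lit 1) (.cons (.kr (nat_lit 1) (nat_lit 72057594037927936) (nat_lit 0) (nat_lit 1)) (.cons (.rf (nat_lit 1343) (nat_lit 424398792993)) (.cons (.rf (nat_lit 5876) (nat_lit 493858305440582043680)) (.cons (.rf (nat_lit 5876) (nat_lit 458117738797769787424)) .nil))))) (.cons (.rf (nat_lit 5874) (nat_lit 493858304375430153280)) (.cons (.rf (nat_lit 5676) (nat_lit 14718091926562)) (.cons (.rf (nat_lit 5882) (nat_lit 493858305440582043680)) (.cons (.rf (nat_lit 5882) (nat_lit 458117738797769787424)) .nil)))))),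
 (.br (nat_lit 12) (nat_lit 1) (.cons (.kr (nat_lit 20282409608392483650890606051584) (nat_lit 79229371440156009816756649984) (nat_lit 1) (nat_lit 0)) .nil)),
 (.br (nat_lit 8) (nat_lit 1) (.cons (.ev (nat_lit 79228167255149622135248453888) (nat_lit 1)) (.cons (.rf (nat_lit 5884) (nat_lit 493858305440582043680)) .nil))),
 (.br (nat_lit 7) (nat_lit 1) (.cons (.rf (nat_lit 5885) (nat_lit 493858305440582043680)) (.cons (.rf (nat_lit 5885) (nat_lit 458116648082235033632)) .nil))),
 (.br (nat_lit 7) (nat_lit 1) (.cons (.rf (nat_lit 5886) (nat_lit 493858305440582043680)) (.cons (.br (nat_lit 8) (nat_lit 1) (.cons (.zr (nat_lit 475370184011482764346992755968) (nat_lit 618993631475123177373302796) (nat_lit 35) (nat_lit 3)) (.cons (.zr (nat_lit 121694457626632466150709707277568) (nat_lit 625014648740781975020765196) (nat_lit 35) (nat_lit 3)) .nil))) .nil))),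
 (.br (nat_lit 2) (nat_lit 1) (.cons (.br (nat_lit 10) (nat_lit 1) (.cons (.rf (nat_lit 58) (nat_lit 7669801)) (.cons (.rf (nat_lit 5883) (nat_lit 493857214725047289888)) (.cons (.rf (nat_lit 1343) (nat_lit 275282897185)) (.cons (.rf (nat_lit 2305) (nat_lit 9049832065065)) .nil))))) (.cons (.br (nat_lit 10) (nat_lit 1) (.cons (.rf (nat_lit 5874) (nat_lit 493857214725047289888)) (.cons (.rf (nat_lit 5874) (nat_lit 493857213659895399488)) (.cons (.rf (nat_lit 2305) (nat_lit 14713563130145)) (.cons (.br (nat_lit 7) (nat_lit 1) (.cons (.rf (nat_lit 5886) (nat_lit 493858305440582043680)) (.cons (.rf (nat_lit 5887) (nat_lit 493858305440582043680)) (.cons (.rf (nat_lit 5887) (nat_lit 458116648082235033632)) .nil)))) .nil))))) (.cons (.rf (nat_lit 5867) (nat_lit 493857214725047289888)) (.cons (.rf (nat_lit 5874) (nat_lit 303219566690621892907)) (.cons (.rf (nat_lit 5883) (nat_lit 303219566690621892907)) .nil)))))),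
 (.br (nat_lit 9) (nat_lit 1) (.cons (.rf (nat_lit 5867) (nat_lit 493858305440582043680)) (.cons (.rf (nat_lit 5874) (nat_lit 493858305440582043680)) (.cons (.rf (nat_lit 5883) (nat_lit 493858305440582043680)) (.cons (.kr (nat_lit 4722366482869645213696) (nat_lit 1208925819614629174706176) (nat_lit 9) (nat_lit 0)) (.cons (.rf (nat_lit 5888) (nat_lit 493858305440582043680)) (.cons (.rf (nat_lit 5888) (nat_lit 458117738797769787424)) .nil))))))),
 (.br (nat_lit 8) (nat_lit 1) (.cons (.br (nat_lit 12) (nat_lit 1) (.cons (.kr (nat_lit 79229371458530696296428208384) (nat_lit 20282409608374108964410934493184) (nat_lit 1) (nat_lit 0)) .nil)) .nil)),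
 (.br (nat_lit 7) (nat_lit 1) (.cons (.rf (nat_lit 31) (nat_lit 410069281)) (.cons (.br (nat_lit 8) (nat_lit 1) (.cons (.rf (nat_lit 5890) (nat_lit 493858305440582043680)) (.cons (.br (nat_lit 12) (nat_lit 1) (.cons (.rf (nat_lit 5890) (nat_lit 493858305440582043680)) (.cons (.zr (nat_lit 14167315621391049621504) (nat_lit 40565128692313162475542027436033) (nat_lit 5) (nat_lit 0)) .nil))) .nil))) .nil))),
 (.br (nat_lit 7) (nat_lit 1) (.cons (.rf (nat_lit 5891) (nat_lit 493858305440582043680)) (.cons (.rf (nat_lit 31) (nat_lit 410069281)) (.cons (.br (nat_lit 7) (nat_lit 1) (.cons (.rf (nat_lit 5891) (nat_lit 493858305440582043680)) (.cons (.rf (nat_lit 31) (nat_lit 410069281)) .nil))) .nil)))),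
 (.br (nat_lit 10) (nat_lit 1) (.cons (.rf (nat_lit 5892) (nat_lit 493858305440582043680)) (.cons (.rf (nat_lit 5892) (nat_lit 493858304375430154272)) (.cons (.rf (nat_lit 29) (nat_lit 12912929)) (.cons (.rf (nat_lit 5676) (nat_lit 9036956610625)) .nil))))),
 (.br (nat_lit 2) (nat_lit 1) (.cons (.rf (nat_lit 5889) (nat_lit 493858305440582042688)) (.cons (.rf (nat_lit 5889) (nat_lit 493858304375430153280)) (.cons (.kr (nat_lit 1208925819614629174706432) (nat_lit 4722366482869645279232) (nat_lit 1) (nat_lit 0)) (.cons (.rf (nat_lit 5893) (nat_lit 493858305440582043680)) (.cons (.rf (nat_lit 5893) (nat_lit 458117738797769787424)) .nil)))))),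
 (.br (nat_lit 7) (nat_lit 1) (.cons (.br (nat_lit 8) (nat_lit 1) (.cons (.ev (nat_lit 20838864865051229528509565174020) (nat_lit 3)) .nil)) .nil))]

theorem c204 : chkAll C T R L204 (nat_lit 5861) = true := by decide +kernel

theorem l204 : (nat_lit 5861) + L204.length = (nat_lit 5896) := by decide +kernel

/-- part of the certificates -/
def L205 : List Prf := [(.br (nat_lit 10) (nat_lit 1) (.cons (.rf (nat_lit 1343) (nat_lit 275291277353)) (.cons (.br (nat_lit 12) (nat_lit 1) (.cons (.rf (nat_lit 84) (nat_lit 8837695530)) (.cons (.rf (nat_lit 84) (nat_lit 7797540905)) (.cons (.br (nat_lit 7) (nat_lit 1) (.cons (.rf (nat_lit 5895) (nat_lit 493858305440582043680)) (.cons (.br (nat_lit 7) (nat_lit 1) (.cons (.rf (nat_lit 5895) (nat_lit 493858305440582043680)) .nil)) .nil))) .nil)))) (.cons (.ev (nat_lit 79229371440083952227030466816) (nat_lit 1)) (.cons (.rf (nat_lit 5889) (nat_lit 303220656341004756299)) .nil))))),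
 (.br (nat_lit 9) (nat_lit 1) (.cons (.rf (nat_lit 5896) (nat_lit 493858305440582043680)) (.cons (.rf (nat_lit 5896) (nat_lit 493858304375430154272)) (.cons (.kr (nat_lit 4722366482869645213696) (nat_lit 1208925819614629174706176) (nat_lit 9) (nat_lit 0)) (.cons (.ev (nat_lit 79228167236630820467500974336) (nat_lit 1)) (.cons (.rf (nat_lit 5889) (nat_lit 303220656341004757291)) .nil)))))),
 (.br (nat_lit 12) (nat_lit 1) (.cons (.kr (nat_lit 20282409608392483650890606051584) (nat_lit 79229371440156009816756649984) (nat_lit 1) (nat_lit 0)) .nil)),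
 (.br (nat_lit 8) (nat_lit 1) (.cons (.ev (nat_lit 79537647542604766904504614913) (nat_lit 1)) (.cons (.rf (nat_lit 5898) (nat_lit 493858305440582043680)) .nil))),
 (.br (nat_lit 7) (nat_lit 1) (.cons (.rf (nat_lit 5899) (nat_lit 493858305440582043680)) (.cons (.rf (nat_lit 5899) (nat_lit 458117738797769786432)) .nil))),
 (.br (nat_lit 7) (nat_lit 1) (.cons (.rf (nat_lit 5900) (nat_lit 493858305440582043680)) (.cons (.br (nat_lit 8) (nat_lit 1) (.cons (.zr (nat_lit 237684487542794138680538890240) (nat_lit 311902861604690618973421569) (nat_lit 5) (nat_lit 3)) (.cons (.zr (nat_lit 60847228810955012397741660701440) (nat_lit 311902861604690618973421569) (nat_lit 5) (nat_lit 3)) .nil))) .nil))),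
 (.br (nat_lit 10) (nat_lit 1) (.cons (.rf (nat_lit 5897) (nat_lit 303220657406156646699)) (.cons (.br (nat_lit 7) (nat_lit 1) (.cons (.rf (nat_lit 5900) (nat_lit 493858305440582043680)) (.cons (.rf (nat_lit 5901) (nat_lit 493858305440582043680)) (.cons (.rf (nat_lit 5901) (nat_lit 458117738797769786432)) .nil)))) (.cons (.rf (nat_lit 5889) (nat_lit 303220657406156645707)) (.cons (.rf (nat_lit 5889) (nat_lit 303220656341004756299)) .nil))))),
 (.br (nat_lit 2) (nat_lit 1) (.cons (.rf (nat_lit 5889) (nat_lit 493858305440582042688)) (.cons (.rf (nat_lit 5889) (nat_lit 493858304375430153280)) (.cons (.rf (nat_lit 5894) (nat_lit 493858305440582042688)) (.cons (.rf (nat_lit 5894) (nat_lit 493857214725047288896)) (.cons (.rf (nat_lit 5897) (nat_lit 493858305440582043680)) (.cons (.br (nat_lit 9) (nat_lit 1) (.cons (.rf (nat_lit 5902) (nat_lit 493858305440582043680)) (.cons (.rf (nat_lit 5902) (nat_lit 493858304375430154272)) (.cons (.kr (nat_lit 4722366482869645213696) (nat_lit 1208925819614629174706176)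 (nat_lit 9) (nat_lit 0)) (.cons (.rf (nat_lit 5889) (nat_lit 303220657406156646699)) (.cons (.rf (nat_lit 5889) (nat_lit 303220656341004757291)) .nil)))))) .nil))))))),
 (.br (nat_lit 10) (nat_lit 0) (.cons (.rf (nat_lit 5863) (nat_lit 10493986108180512)) (.cons (.br (nat_lit 9) (nat_lit 0) (.cons (.rf (nat_lit 5863) (nat_lit 11584701642934304)) (.cons (.br (nat_lit 2) (nat_lit 0) (.cons (.br (nat_lit 11) (nat_lit 1) (.cons (.br (nat_lit 11) (nat_lit 1) (.cons (.br (nat_lit 1) (nat_lit 1) (.cons (.kr (nat_lit 256) (nat_lit 65536) (nat_lit 1) (nat_lit 0)) (.cons (.rf (nat_lit 5889) (nat_lit 493858305440582043680)) (.cons (.rf (nat_lit 5889) (nat_lit 493858304375430154272)) (.cons (.rf (nat_lit 5894) (nat_lit 493858305440582043680)) (.cons (.rf (nat_lit 5894) (nat_lit 493857214725047289888)) (.cons (.rf (nat_lit 5903) (nat_lit 493858305440582043680)) (.cons (.rf (nat_lit 5903) (nat_lit 458117738797769787424)) .nil)))))))) .nil)) .nil)) (.cons (.rf (nat_lit 5644) (nat_lit 350211908683)) .nil)))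 .nil))) .nil))),
 (.br (nat_lit 9) (nat_lit 0) (.cons (.rf (nat_lit 5863) (nat_lit 11584701642934304)) (.cons (.br (nat_lit 10) (nat_lit 0) (.cons (.rf (nat_lit 5863) (nat_lit 10493986108180512)) (.cons (.rf (nat_lit 5904) (nat_lit 406810753316784160)) (.cons (.rf (nat_lit 5904) (nat_lit 407901468851537952)) .nil)))) .nil))),
 (.br (nat_lit 9) (nat_lit 0) (.cons (.rf (nat_lit 5863) (nat_lit 11584701642934304)) (.cons (.rf (nat_lit 5905) (nat_lit 11584701642934304)) (.cons (.br (nat_lit 9) (nat_lit 0) (.cons (.rf (nat_lit 5863) (nat_lit 11584701642934304)) (.cons (.rf (nat_lit 5905) (nat_lit 11584701642934304)) .nil))) .nil)))),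
 (.br (nat_lit 9) (nat_lit 1) (.cons (.kr (nat_lit 4722366764344621924608) (nat_lit 1103806660608) (nat_lit 1) (nat_lit 0)) (.cons (.ev (nat_lit 4722366482873940246529) (nat_lit 1)) (.cons (.kr (nat_lit 1099511627776) (nat_lit 4722366482869645213696) (nat_lit 5) (nat_lit 0)) (.cons (.rf (nat_lit 5712) (nat_lit 407901467811350560)) (.cons (.rf (nat_lit 5711) (nat_lit 407901467811350560)) .nil)))))),
 (.br (nat_lit 10) (nat_lit 1) (.cons (.kr (nat_lit 281474976710912) (nat_lit 4295032832) (nat_lit 1) (nat_lit 0)) (.cons (.br (nat_lit 2) (nat_lit 1) (.cons (.rf (nat_lit 5907) (nat_lit 11584701642934304)) (.cons (.rf (nat_lit 5907) (nat_lit 11583636491044896)) (.cons (.kr (nat_lit 282574488338433) (nat_lit 1213648186097498819985408) (nat_lit 0) (nat_lit 1)) (.cons (.rf (nat_lit 1593) (nat_lit 282427991394)) (.cons (.rf (nat_lit 5711) (nat_lit 407901467811350560)) .nil)))))) (.cons (.kr (nat_lit 1099511627776) (nat_lit 4722366482869645213696) (nat_lit 5) (nat_lit 0)) (.cons (.rf (nat_lit 5712) (nat_lit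 407901467811350560)) (.cons (.rf (nat_lit 5711) (nat_lit 407901467811350560)) .nil)))))),
 (.br (nat_lit 10) (nat_lit 1) (.cons (.kr (nat_lit 281474976710912) (nat_lit 4295032832) (nat_lit 1) (nat_lit 0)) (.cons (.rf (nat_lit 5908) (nat_lit 11584701642934304)) (.cons (.rf (nat_lit 5908) (nat_lit 11583636491044896)) (.cons (.kr (nat_lit 1099511627776) (nat_lit 4722366482869645213696) (nat_lit 5) (nat_lit 0)) (.cons (.rf (nat_lit 5712) (nat_lit 407901467811350560)) (.cons (.rf (nat_lit 5711) (nat_lit 407901467811350560)) .nil))))))),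
 (.br (nat_lit 10) (nat_lit 1) (.cons (.rf (nat_lit 5909) (nat_lit 11584701642934304)) (.cons (.rf (nat_lit 5909) (nat_lit 11584699497546816)) (.cons (.br (nat_lit 10) (nat_lit 1) (.cons (.rf (nat_lit 5909) (nat_lit 11584701642934304)) (.cons (.rf (nat_lit 5909) (nat_lit 11584699497546816)) (.cons (.kr (nat_lit 1099511627776) (nat_lit 4722366482869645213696) (nat_lit 5) (nat_lit 0)) (.cons (.rf (nat_lit 5712) (nat_lit 407901467811350560)) (.cons (.rf (nat_lit 5711) (nat_lit 407901467811350560)) .nil)))))) (.cons (.kr (nat_lit 1099511627776) (nat_lit 4722366482869645213696) (nat_lit 5) (nat_lit 0)) (.cons (.rf (nat_lit 5712) (nat_lit 407901467811350560)) (.cons (.rf (nat_lit 5711) (nat_lit 407901467811350560)) .nil))))))),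
 (.br (nat_lit 10) (nat_lit 1) (.cons (.rf (nat_lit 5644) (nat_lit 383463268394)) (.cons (.br (nat_lit 10) (nat_lit 1) (.cons (.rf (nat_lit 5644) (nat_lit 417823006762)) .nil)) .nil))),
 (.br (nat_lit 9) (nat_lit 1) (.cons (.rf (nat_lit 5911) (nat_lit 10425816387258400)) (.cons (.br (nat_lit 9) (nat_lit 1) (.cons (.rf (nat_lit 5911) (nat_lit 10426915898886176)) .nil)) .nil))),
 (.br (nat_lit 2) (nat_lit 0) (.cons (.br (nat_lit 9) (nat_lit 0) (.cons (.br (nat_lit 10) (nat_lit 1) (.cons (.rf (nat_lit 5909) (nat_lit 11584701642934304)) (.cons (.rf (nat_lit 5909) (nat_lit 11584699497546816)) (.cons (.rf (nat_lit 5910) (nat_lit 11584701642934304)) (.cons (.rf (nat_lit 5910) (nat_lit 11583636491044896)) (.cons (.kr (nat_lit 1099511627776) (nat_lit 4722366482869645213696) (nat_lit 5) (nat_lit 0)) (.cons (.rf (nat_lit 5712) (nat_lit 407901467811350560)) (.cons (.rf (nat_lit 5711) (nat_lit 407901467811350560)) .nil)))))))) (.cons (.rf (nat_lit 5733) (nat_lit 407901467811350560)) .nil))) (.cons (.rf (nat_lit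 5912) (nat_lit 398305810058304)) .nil))),
 (.br (nat_lit 2) (nat_lit 0) (.cons (.br (nat_lit 9) (nat_lit 0) (.cons (.br (nat_lit 6) (nat_lit 1) (.cons (.rf (nat_lit 5906) (nat_lit 13836500415416352)) (.cons (.br (nat_lit 11) (nat_lit 1) (.cons (.br (nat_lit 13) (nat_lit 0) .nil) .nil)) .nil))) .nil)) (.cons (.rf (nat_lit 5913) (nat_lit 11584699497546816)) (.cons (.rf (nat_lit 5912) (nat_lit 398305810058304)) .nil)))),
 (.br (nat_lit 5) (nat_lit 1) (.cons (.rf (nat_lit 5737) (nat_lit 9043225708576)) (.cons (.rf (nat_lit 5906) (nat_lit 11584701642934304)) (.cons (.br (nat_lit 9) (nat_lit 0) (.cons (.rf (nat_lit 5913) (nat_lit 11584701642934304)) (.cons (.rf (nat_lit 5914) (nat_lit 11584701642934304)) (.cons (.br (nat_lit 9) (nat_lit 0) (.cons (.rf (nat_lit 5913) (nat_lit 11584701642934304)) (.cons (.rf (nat_lit 5914) (nat_lit 11584701642934304)) .nil))) .nil)))) .nil)))),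
 (.br (nat_lit 5) (nat_lit 1) (.cons (.rf (nat_lit 5737) (nat_lit 9043225708576)) (.cons (.rf (nat_lit 5915) (nat_lit 325702574508064)) (.cons (.br (nat_lit 5) (nat_lit 1) (.cons (.rf (nat_lit 5737) (nat_lit 9043225708576)) (.cons (.rf (nat_lit 5915) (nat_lit 360886946596896)) (.cons (.br (nat_lit 2) (nat_lit 0) (.cons (.br (nat_lit 6) (nat_lit 1) (.cons (.rf (nat_lit 5915) (nat_lit 396070277482528)) .nil)) (.cons (.rf (nat_lit 5736) (nat_lit 11584700602746912)) (.cons (.rf (nat_lit 5912) (nat_lit 397206298430528)) .nil)))) .nil)))) .nil)))),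
 (.br (nat_lit 7) (nat_lit 1) (.cons (.rf (nat_lit 31) (nat_lit 410354978)) (.cons (.br (nat_lit 8) (nat_lit 1) (.cons (.rf (nat_lit 5864) (nat_lit 493823402543437416480)) (.cons (.br (nat_lit 12) (nat_lit 1) (.cons (.rf (nat_lit 5864) (nat_lit 493823402543437416480)) (.cons (.zr (nat_lit 928455029680207988288323584) (nat_lit 40564820416229160745102477361153) (nat_lit 5) (nat_lit 0)) .nil))) .nil))) .nil))),
 (.br (nat_lit 7) (nat_lit 1) (.cons (.rf (nat_lit 5917) (nat_lit 493858305440582043680)) (.cons (.rf (nat_lit 31) (nat_lit 410354978)) (.cons (.br (nat_lit 7) (nat_lit 1) (.cons (.rf (nat_lit 5917) (nat_lit 493858305440582043680)) (.cons (.rf (nat_lit 31) (nat_lit 410354978)) .nil))) .nil)))),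
 (.br (nat_lit 11) (nat_lit 1) (.cons (.rf (nat_lit 29) (nat_lit 7701794)) (.cons (.rf (nat_lit 5676) (nat_lit 14717084245026)) (.cons (.rf (nat_lit 5918) (nat_lit 493858305440582043680)) (.cons (.rf (nat_lit 5918) (nat_lit 458117738797769787424)) .nil))))),
 (.br (nat_lit 11) (nat_lit 1) (.cons (.ev (nat_lit 310693954160042844918710528) (nat_lit 1)) (.cons (.rf (nat_lit 5868) (nat_lit 493823402543437416480)) .nil))),
 (.br (nat_lit 8) (nat_lit 1) (.cons (.rf (nat_lit 2594) (nat_lit 7921216801)) (.cons (.rf (nat_lit 82) (nat_lit 13128477761)) (.cons (.br (nat_lit 7) (nat_lit 1) (.cons (.ev (nat_lit 309489732259886631936327936) (nat_lit 1)) (.cons (.rf (nat_lit 5920) (nat_lit 493858305440582043680)) (.cons (.rf (nat_lit 5920) (nat_lit 458117738797769787424)) .nil)))) .nil)))),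
 (.br (nat_lit 12) (nat_lit 1) (.cons (.ev (nat_lit 79228167236703159536498769921) (nat_lit 1)) (.cons (.rf (nat_lit 82) (nat_lit 8837704769)) (.cons (.br (nat_lit 7) (nat_lit 1) (.cons (.br (nat_lit 8) (nat_lit 1) (.cons (.ev (nat_lit 309489750706630705645944833) (nat_lit 1)) (.cons (.br (nat_lit 11) (nat_lit 1) (.cons (.ev (nat_lit 79538861190718525334326673408) (nat_lit 1)) .nil)) .nil))) (.cons (.ev (nat_lit 309489732259886631936327936) (nat_lit 1)) (.cons (.br (nat_lit 11) (nat_lit 1) (.cons (.rf (nat_lit 5871) (nat_lit 493823402543437416480)) (.cons (.ev (nat_lit 20361949683194710959457975665155) (nat_lit 2)) .nil))) .nil)))) .nil)))),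
 (.br (nat_lit 12) (nat_lit 1) (.cons (.rf (nat_lit 4982) (nat_lit 422249202763)) (.cons (.rf (nat_lit 5922) (nat_lit 493858305440582043680)) (.cons (.rf (nat_lit 1343) (nat_lit 275290238017)) (.cons (.br (nat_lit 12) (nat_lit 1) (.cons (.rf (nat_lit 2594) (nat_lit 7954902305)) (.cons (.rf (nat_lit 5922) (nat_lit 493858305440582043680)) (.cons (.rf (nat_lit 82) (nat_lit 14206413889)) .nil)))) .nil))))),
 (.br (nat_lit 2) (nat_lit 1) (.cons (.rf (nat_lit 58) (nat_lit 7637035)) (.cons (.br (nat_lit 8) (nat_lit 1) (.cons (.rf (nat_lit 4982) (nat_lit 284954952779)) (.cons (.rf (nat_lit 1343) (nat_lit 423332392001)) (.cons (.rf (nat_lit 5921) (nat_lit 493858305440582043680)) (.cons (.rf (nat_lit 5921) (nat_lit 458117738797769787424)) .nil))))) (.cons (.rf (nat_lit 29) (nat_lit 7636322)) (.cons (.rf (nat_lit 5923) (nat_lit 493858305440582043680)) (.cons (.rf (nat_lit 5923) (nat_lit 458117738797769787424)) .nil)))))),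
 (.br (nat_lit 13) (nat_lit 1) (.cons (.rf (nat_lit 4936) (nat_lit 453394277353934423402)) (.cons (.ev (nat_lit 79228167255077846016170459393) (nat_lit 1)) .nil))),
 (.br (nat_lit 8) (nat_lit 1) (.cons (.kr (nat_lit 1) (nat_lit 72057594037927936) (nat_lit 0) (nat_lit 1)) (.cons (.rf (nat_lit 82) (nat_lit 13128248609)) (.cons (.br (nat_lit 7) (nat_lit 1) (.cons (.ev (nat_lit 310693954087985250880782593) (nat_lit 1)) (.cons (.rf (nat_lit 5925) (nat_lit 493858305440582043680)) (.cons (.rf (nat_lit 5925) (nat_lit 458117738797769787424)) .nil)))) .nil)))),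
 (.br (nat_lit 7) (nat_lit 1) (.cons (.br (nat_lit 8) (nat_lit 1) (.cons (.ev (nat_lit 79228167255149903610208387328) (nat_lit 1)) (.cons (.br (nat_lit 12) (nat_lit 1) (.cons (.ev (nat_lit 20837318667817553594776973412102) (nat_lit 3)) .nil)) .nil))) (.cons (.br (nat_lit 8) (nat_lit 1) (.cons (.rf (nat_lit 5878) (nat_lit 493823402543437416480)) (.cons (.ev (nat_lit 20282410812596008841343701942273) (nat_lit 1)) .nil))) .nil))),
 (.br (nat_lit 7) (nat_lit 1) (.cons (.rf (nat_lit 5927) (nat_lit 493858305440582043680)) (.cons (.br (nat_lit 12) (nat_lit 1) (.cons (.rf (nat_lit 5880) (nat_lit 493823402543437416480)) (.cons (.ev (nat_lit 20361638979814193198112924762113) (nat_lit 1)) .nil))) .nil))),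
 (.br (nat_lit 11) (nat_lit 1) (.cons (.rf (nat_lit 5924) (nat_lit 493786318215288293408)) (.cons (.br (nat_lit 8) (nat_lit 1) (.cons (.rf (nat_lit 84) (nat_lit 13128215842)) (.cons (.rf (nat_lit 84) (nat_lit 7927311649)) (.cons (.br (nat_lit 7) (nat_lit 1) (.cons (.br (nat_lit 7) (nat_lit 1) (.cons (.ev (nat_lit 309489750706630705645944833) (nat_lit 1)) .nil)) (.cons (.br (nat_lit 7) (nat_lit 1) (.cons (.ev (nat_lit 309489750706630705645944833) (nat_lit 1)) .nil)) .nil))) .nil)))) (.cons (.rf (nat_lit 5924) (nat_lit 303254469588905239914)) (.cons (.br (nat_lit 7) (nat_lit 1) (.cons (.rf (nat_lit 5927) (nat_lit 493858305440582043680)) (.cons (.rf (nat_lit 5928) (nat_lit 493858305440582043680)) (.cons (.br (nat_lit 7) (nat_lit 1) (.cons (.rf (nat_lit 5927) (nat_lit 493858305440582043680)) (.cons (.rf (nat_lit 5928) (nat_lit 493858305440582043680)) .nil))) .nil)))) .nil))))),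
 (.br (nat_lit 2) (nat_lit 1) (.cons (.br (nat_lit 8) (nat_lit 1) (.cons (.kr (nat_lit 1) (nat_lit 72057594037927936) (nat_lit 0) (nat_lit 1)) (.cons (.rf (nat_lit 1343) (nat_lit 423325052193)) (.cons (.rf (nat_lit 5926) (nat_lit 493858305440582043680)) (.cons (.rf (nat_lit 5926) (nat_lit 458117738797769787424)) .nil))))) (.cons (.rf (nat_lit 5924) (nat_lit 493858304375430153280)) (.cons (.rf (nat_lit 5676) (nat_lit 14717019233314)) (.cons (.rf (nat_lit 5929) (nat_lit 493858305440582043680)) (.cons (.rf (nat_lit 5929) (nat_lit 458117738797769787424)) .nil)))))),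
 (.br (nat_lit 8) (nat_lit 1) (.cons (.ev (nat_lit 79228167255149903610208387328) (nat_lit 1)) (.cons (.rf (nat_lit 5884) (nat_lit 493823402543437416480)) .nil)))]

theorem c205 : chkAll C T R L205 (nat_lit 5896) = true := by decide +kernel

theorem l205 : (nat_lit 5896) + L205.length = (nat_lit 5932) := by decide +kernel

/-- part of the certificates -/
def L206 : List Prf := [(.br (nat_lit 7) (nat_lit 1) (.cons (.rf (nat_lit 5931) (nat_lit 493858305440582043680)) (.cons (.rf (nat_lit 5931) (nat_lit 458045751572476037152)) .nil))),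
 (.br (nat_lit 7) (nat_lit 1) (.cons (.rf (nat_lit 5932) (nat_lit 493858305440582043680)) (.cons (.zr (nat_lit 309489732259885545292824576) (nat_lit 2417851639792208302833920) (nat_lit 5) (nat_lit 4)) .nil))),
 (.br (nat_lit 2) (nat_lit 1) (.cons (.br (nat_lit 11) (nat_lit 1) (.cons (.rf (nat_lit 58) (nat_lit 7702569)) (.cons (.rf (nat_lit 5930) (nat_lit 493786318215288293408)) (.cons (.rf (nat_lit 1343) (nat_lit 275282898209)) (.cons (.rf (nat_lit 2305) (nat_lit 9049865619497)) .nil))))) (.cons (.br (nat_lit 11) (nat_lit 1) (.cons (.rf (nat_lit 5924) (nat_lit 493786318215288293408)) (.cons (.rf (nat_lit 5924) (nat_lit 493786317150136403008)) (.cons (.rf (nat_lit 2305) (nat_lit 14713562082593)) (.cons (.br (nat_lit 7) (nat_lit 1) (.cons (.rf (nat_lit 5932) (nat_lit 493858305440582043680)) (.cons (.rf (nat_lit 5933) (nat_lit 493858305440582043680)) (.cons (.rf (nat_lit 5933) (nat_lit 458045751572476037152)) .nil)))) .nil))))) (.cons (.rf (nat_lit 5919) (nat_lit 493786318215288293408)) (.cons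 (.rf (nat_lit 5924) (nat_lit 303254469588905241898)) (.cons (.rf (nat_lit 5930) (nat_lit 303254469588905241898)) .nil)))))),
 (.br (nat_lit 9) (nat_lit 1) (.cons (.rf (nat_lit 5919) (nat_lit 493858305440582043680)) (.cons (.rf (nat_lit 5924) (nat_lit 493858305440582043680)) (.cons (.rf (nat_lit 5930) (nat_lit 493858305440582043680)) (.cons (.kr (nat_lit 4722366482869645213696) (nat_lit 309485009821345068724781056) (nat_lit 9) (nat_lit 0)) (.cons (.rf (nat_lit 5934) (nat_lit 493858305440582043680)) (.cons (.rf (nat_lit 5934) (nat_lit 458117738797769787424)) .nil))))))),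
 (.br (nat_lit 7) (nat_lit 1) (.cons (.rf (nat_lit 31) (nat_lit 410070305)) (.cons (.br (nat_lit 8) (nat_lit 1) (.cons (.rf (nat_lit 5890) (nat_lit 493823402543437416480)) (.cons (.br (nat_lit 12) (nat_lit 1) (.cons (.rf (nat_lit 5890) (nat_lit 493823402543437416480)) (.cons (.zr (nat_lit 14167315621391049621504) (nat_lit 40564820416229160745102477361153) (nat_lit 5) (nat_lit 0)) .nil))) .nil))) .nil))),
 (.br (nat_lit 7) (nat_lit 1) (.cons (.rf (nat_lit 5936) (nat_lit 493858305440582043680)) (.cons (.rf (nat_lit 31) (nat_lit 410070305)) (.cons (.br (nat_lit 7) (nat_lit 1) (.cons (.rf (nat_lit 5936) (nat_lit 493858305440582043680)) (.cons (.rf (nat_lit 31) (nat_lit 410070305)) .nil))) .nil)))),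
 (.br (nat_lit 11) (nat_lit 1) (.cons (.rf (nat_lit 5937) (nat_lit 493858305440582043680)) (.cons (.rf (nat_lit 5937) (nat_lit 493858304375430154272)) (.cons (.rf (nat_lit 29) (nat_lit 12945697)) (.cons (.rf (nat_lit 5676) (nat_lit 9036990165057)) .nil))))),
 (.br (nat_lit 2) (nat_lit 1) (.cons (.rf (nat_lit 5935) (nat_lit 493858305440582042688)) (.cons (.rf (nat_lit 5935) (nat_lit 493858304375430153280)) (.cons (.kr (nat_lit 309485009821345068724781312) (nat_lit 4722366482869645279232) (nat_lit 1) (nat_lit 0)) (.cons (.rf (nat_lit 5938) (nat_lit 493858305440582043680)) (.cons (.rf (nat_lit 5938) (nat_lit 458117738797769787424)) .nil)))))),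
 (.br (nat_lit 7) (nat_lit 1) (.cons (.br (nat_lit 8) (nat_lit 1) (.cons (.ev (nat_lit 20837323484631220876311814799620) (nat_lit 3)) .nil)) .nil)),
 (.br (nat_lit 11) (nat_lit 1) (.cons (.rf (nat_lit 1343) (nat_lit 275292325929)) (.cons (.br (nat_lit 12) (nat_lit 1) (.cons (.rf (nat_lit 84) (nat_lit 8837695531)) (.cons (.rf (nat_lit 84) (nat_lit 7797573673)) (.cons (.br (nat_lit 7) (nat_lit 1) (.cons (.rf (nat_lit 5940) (nat_lit 493858305440582043680)) (.cons (.br (nat_lit 7) (nat_lit 1) (.cons (.rf (nat_lit 5940) (nat_lit 493858305440582043680)) .nil)) .nil))) .nil)))) (.cons (.ev (nat_lit 79537647524085964141540475136) (nat_lit 1)) (.cons (.rf (nat_lit 5935) (nat_lit 303290462136400225642)) .nil))))),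
 (.br (nat_lit 9) (nat_lit 1) (.cons (.rf (nat_lit 5941) (nat_lit 493858305440582043680)) (.cons (.rf (nat_lit 5941) (nat_lit 493858304375430154272)) (.cons (.kr (nat_lit 4722366482869645213696) (nat_lit 309485009821345068724781056) (nat_lit 9) (nat_lit 0)) (.cons (.ev (nat_lit 79228167236631101942460907776) (nat_lit 1)) (.cons (.rf (nat_lit 5935) (nat_lit 303290462136400227626)) .nil)))))),
 (.br (nat_lit 8) (nat_lit 1) (.cons (.ev (nat_lit 79229371458602754989994606593) (nat_lit 1)) (.cons (.rf (nat_lit 5898) (nat_lit 493823402543437416480)) .nil))),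
 (.br (nat_lit 7) (nat_lit 1) (.cons (.rf (nat_lit 5943) (nat_lit 493858305440582043680)) (.cons (.rf (nat_lit 5943) (nat_lit 458117738797769786432)) .nil))),
 (.br (nat_lit 7) (nat_lit 1) (.cons (.rf (nat_lit 5944) (nat_lit 493858305440582043680)) (.cons (.br (nat_lit 8) (nat_lit 1) (.cons (.zr (nat_lit 316912650057057913332836859904) (nat_lit 313111787352255346379849731) (nat_lit 15) (nat_lit 3)) (.cons (.zr (nat_lit 81129638414606682258747665941504) (nat_lit 313111787352255346379849731) (nat_lit 15) (nat_lit 3)) .nil))) .nil))),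
 (.br (nat_lit 11) (nat_lit 1) (.cons (.rf (nat_lit 5942) (nat_lit 303290463201552117034)) (.cons (.br (nat_lit 7) (nat_lit 1) (.cons (.rf (nat_lit 5944) (nat_lit 493858305440582043680)) (.cons (.rf (nat_lit 5945) (nat_lit 493858305440582043680)) (.cons (.rf (nat_lit 5945) (nat_lit 458117738797769786432)) .nil)))) (.cons (.rf (nat_lit 5935) (nat_lit 303290463201552115050)) (.cons (.rf (nat_lit 5935) (nat_lit 303290462136400225642)) .nil))))),
 (.br (nat_lit 2) (nat_lit 1) (.cons (.rf (nat_lit 5935) (nat_lit 493858305440582042688)) (.cons (.rf (nat_lit 5935) (nat_lit 493858304375430153280)) (.cons (.rf (nat_lit 5939) (nat_lit 493858305440582042688)) (.cons (.rf (nat_lit 5939) (nat_lit 493786318215288292416)) (.cons (.rf (nat_lit 5942) (nat_lit 493858305440582043680)) (.cons (.br (nat_lit 9) (nat_lit 1) (.cons (.rf (nat_lit 5946) (nat_lit 493858305440582043680)) (.cons (.rf (nat_lit 5946) (nat_lit 493858304375430154272)) (.cons (.kr (nat_lit 4722366482869645213696) (nat_lit 309485009821345068724781056)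 (nat_lit 9) (nat_lit 0)) (.cons (.rf (nat_lit 5935) (nat_lit 303290463201552117034)) (.cons (.rf (nat_lit 5935) (nat_lit 303290462136400227626)) .nil)))))) .nil))))))),
 (.br (nat_lit 9) (nat_lit 0) (.cons (.br (nat_lit 4) (nat_lit 1) (.cons (.br (nat_lit 6) (nat_lit 1) (.cons (.br (nat_lit 11) (nat_lit 0) (.cons (.br (nat_lit 10) (nat_lit 1) (.cons (.br (nat_lit 10) (nat_lit 1) (.cons (.br (nat_lit 1) (nat_lit 1) (.cons (.kr (nat_lit 256) (nat_lit 65536) (nat_lit 1) (nat_lit 0)) (.cons (.rf (nat_lit 5935) (nat_lit 493858305440582043680)) (.cons (.rf (nat_lit 5935) (nat_lit 493858304375430154272)) (.cons (.rf (nat_lit 5939) (nat_lit 493858305440582043680)) (.cons (.rf (nat_lit 5939) (nat_lit 493786318215288293408)) (.cons (.rf (nat_lit 5947) (nat_lit 493858305440582043680)) (.cons (.rf (nat_lit 5947) (nat_lit 458117738797769787424)) .nil)))))))) .nil)) .nil)) .nil)) (.cons (.rf (nat_lit 5912) (nat_lit 365320428687648)) .nil))) (.cons (.rf (nat_lit 5912) (nat_lit 364220914964768)) .nil))) .nil)),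
 (.br (nat_lit 9) (nat_lit 0) (.cons (.rf (nat_lit 5948) (nat_lit 325702574508064)) (.cons (.br (nat_lit 9) (nat_lit 0) (.cons (.rf (nat_lit 5948) (nat_lit 325702574508064)) .nil)) .nil))),
 (.br (nat_lit 6) (nat_lit 1) (.cons (.br (nat_lit 6) (nat_lit 1) .nil) .nil)),
 (.br (nat_lit 9) (nat_lit 1) (.cons (.rf (nat_lit 5644) (nat_lit 384571648073)) (.cons (.br (nat_lit 9) (nat_lit 1) (.cons (.rf (nat_lit 5644) (nat_lit 418931386441)) (.cons (.br (nat_lit 10) (nat_lit 0) (.cons (.rf (nat_lit 5950) (nat_lit 14242959524133701664)) (.cons (.rf (nat_lit 5950) (nat_lit 14242959521988315168)) .nil))) .nil))) .nil))),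
 (.br (nat_lit 8) (nat_lit 1) (.cons (.br (nat_lit 12) (nat_lit 1) (.cons (.kr (nat_lit 20282719088661563826610013995264) (nat_lit 79229371458530696296428273664) (nat_lit 1) (nat_lit 0)) .nil)) .nil)),
 (.br (nat_lit 7) (nat_lit 1) (.cons (.rf (nat_lit 31) (nat_lit 410363969)) (.cons (.br (nat_lit 8) (nat_lit 1) (.cons (.rf (nat_lit 5952) (nat_lit 493858305440582043680)) (.cons (.br (nat_lit 12) (nat_lit 1) (.cons (.rf (nat_lit 5952) (nat_lit 493858305440582043680)) (.cons (.zr (nat_lit 928455029680207988288127744) (nat_lit 40564819212025707613342947868673) (nat_lit 5) (nat_lit 0)) .nil))) .nil))) .nil))),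
 (.br (nat_lit 7) (nat_lit 1) (.cons (.rf (nat_lit 5953) (nat_lit 493858305440582043680)) (.cons (.rf (nat_lit 31) (nat_lit 410363969)) (.cons (.br (nat_lit 7) (nat_lit 1) (.cons (.rf (nat_lit 5953) (nat_lit 493858305440582043680)) (.cons (.rf (nat_lit 31) (nat_lit 410363969)) .nil))) .nil)))),
 (.br (nat_lit 11) (nat_lit 1) (.cons (.rf (nat_lit 29) (nat_lit 7710785)) (.cons (.rf (nat_lit 5676) (nat_lit 14716003163457)) (.cons (.rf (nat_lit 5954) (nat_lit 493858305440582043680)) (.cons (.rf (nat_lit 5954) (nat_lit 458117738797769787424)) .nil))))),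
 (.br (nat_lit 8) (nat_lit 1) (.cons (.br (nat_lit 12) (nat_lit 1) (.cons (.kr (nat_lit 79537647542532426735978283264) (nat_lit 20282410812577562096170463985664) (nat_lit 1) (nat_lit 0)) .nil)) .nil)),
 (.br (nat_lit 7) (nat_lit 1) (.cons (.rf (nat_lit 31) (nat_lit 410332225)) (.cons (.br (nat_lit 8) (nat_lit 1) (.cons (.rf (nat_lit 5956) (nat_lit 493858305440582043680)) (.cons (.br (nat_lit 12) (nat_lit 1) (.cons (.rf (nat_lit 5956) (nat_lit 493858305440582043680)) (.cons (.zr (nat_lit 3626777675016669638098944) (nat_lit 40564819212025707613342947868673) (nat_lit 5) (nat_lit 0)) .nil))) .nil))) .nil))),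
 (.br (nat_lit 7) (nat_lit 1) (.cons (.rf (nat_lit 5957) (nat_lit 493858305440582043680)) (.cons (.rf (nat_lit 31) (nat_lit 410332225)) (.cons (.br (nat_lit 7) (nat_lit 1) (.cons (.rf (nat_lit 5957) (nat_lit 493858305440582043680)) (.cons (.rf (nat_lit 31) (nat_lit 410332225)) .nil))) .nil)))),
 (.br (nat_lit 11) (nat_lit 1) (.cons (.rf (nat_lit 5958) (nat_lit 493858305440582043680)) (.cons (.rf (nat_lit 5958) (nat_lit 493858304375430154272)) (.cons (.rf (nat_lit 29) (nat_lit 12953665)) (.cons (.rf (nat_lit 5676) (nat_lit 9036982825281)) .nil))))),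
 (.br (nat_lit 11) (nat_lit 1) (.cons (.ev (nat_lit 158767033149788729599536005379) (nat_lit 2)) (.cons (.br (nat_lit 12) (nat_lit 1) (.cons (.ev (nat_lit 158768232612428074755668574466) (nat_lit 2)) .nil)) .nil))),
 (.br (nat_lit 8) (nat_lit 1) (.cons (.rf (nat_lit 2594) (nat_lit 7921216833)) (.cons (.rf (nat_lit 82) (nat_lit 13128510529)) (.cons (.br (nat_lit 7) (nat_lit 1) (.cons (.rf (nat_lit 58) (nat_lit 7710754)) (.cons (.rf (nat_lit 5960) (nat_lit 493858305440582043680)) (.cons (.rf (nat_lit 5960) (nat_lit 458117738797769787424)) .nil)))) .nil)))),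
 (.br (nat_lit 11) (nat_lit 1) (.cons (.ev (nat_lit 79229376180969236760128127233) (nat_lit 1)) (.cons (.br (nat_lit 12) (nat_lit 1) (.cons (.kr (nat_lit 79537647542532426735978283264) (nat_lit 20282410812577562096170463985664) (nat_lit 1) (nat_lit 0)) .nil)) .nil))),
 (.br (nat_lit 7) (nat_lit 1) (.cons (.ev (nat_lit 1208944266358702901035264) (nat_lit 1)) (.cons (.rf (nat_lit 82) (nat_lit 13161016354)) (.cons (.br (nat_lit 8) (nat_lit 1) (.cons (.ev (nat_lit 309489732260167011679600641) (nat_lit 1)) (.cons (.rf (nat_lit 5962) (nat_lit 493858305440582043680)) (.cons (.rf (nat_lit 5962) (nat_lit 458117738797769787424)) .nil)))) .nil)))),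
 (.br (nat_lit 13) (nat_lit 1) (.cons (.br (nat_lit 7) (nat_lit 1) (.cons (.ev (nat_lit 310698676526526814075486208) (nat_lit 1)) (.cons (.zr (nat_lit 81129638414606970489123817914368) (nat_lit 1548648142025791880269135880) (nat_lit 15) (nat_lit 3)) .nil))) (.cons (.br (nat_lit 7) (nat_lit 1) (.cons (.br (nat_lit 11) (nat_lit 1) (.cons (.ev (nat_lit 309489732260167011679600641) (nat_lit 1)) .nil)) (.cons (.zr (nat_lit 3626777675016669638098944) (nat_lit 40564819212025707613342947868673) (nat_lit 5) (nat_lit 0)) (.cons (.ev (nat_lit 79228162514336677766365249793) (nat_lit 1)) .nil)))) .nil))),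
 (.br (nat_lit 13) (nat_lit 1) (.cons (.rf (nat_lit 5964) (nat_lit 493858305440582043680)) (.cons (.br (nat_lit 8) (nat_lit 1) (.cons (.zr (nat_lit 60847228810955011276239800565760) (nat_lit 2422574150108795358937089) (nat_lit 5) (nat_lit 9)) (.cons (.zr (nat_lit 101412048018258352126333326524416) (nat_lit 159077717622177358931820544515) (nat_lit 5) (nat_lit 9)) .nil))) .nil))),
 (.br (nat_lit 13) (nat_lit 1) (.cons (.rf (nat_lit 5964) (nat_lit 493858305440582043680)) (.cons (.rf (nat_lit 5965) (nat_lit 493858305440582043680)) (.cons (.br (nat_lit 13) (nat_lit 1) (.cons (.rf (nat_lit 5964) (nat_lit 493858305440582043680)) (.cons (.rf (nat_lit 5965) (nat_lit 493858305440582043680)) .nil))) .nil)))),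
 (.br (nat_lit 7) (nat_lit 1) (.cons (.kr (nat_lit 1) (nat_lit 72057594037927936) (nat_lit 0) (nat_lit 1)) (.cons (.ev (nat_lit 20282409608374108965510462832896) (nat_lit 1)) (.cons (.ev (nat_lit 309489732260167011679600641) (nat_lit 1)) .nil)))),
 (.br (nat_lit 13) (nat_lit 1) (.cons (.rf (nat_lit 5966) (nat_lit 493858305440582043680)) (.cons (.br (nat_lit 8) (nat_lit 1) (.cons (.rf (nat_lit 5967) (nat_lit 493858305440582043680)) (.cons (.zr (nat_lit 79538870617004748099402662144) (nat_lit 92234283327124668417) (nat_lit 10) (nat_lit 9)) .nil))) .nil))),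
 (.br (nat_lit 13) (nat_lit 1) (.cons (.rf (nat_lit 5966) (nat_lit 493858305440582043680)) (.cons (.rf (nat_lit 5968) (nat_lit 493858305440582043680)) (.cons (.br (nat_lit 13) (nat_lit 1) (.cons (.rf (nat_lit 5966) (nat_lit 493858305440582043680)) (.cons (.rf (nat_lit 5968) (nat_lit 493858305440582043680)) .nil))) .nil))))]

theorem c206 : chkAll C T R L206 (nat_lit 5932) = true := by decide +kernel

theorem l206 : (nat_lit 5932) + L206.length = (nat_lit 5970) := by decide +kernel

/-- part of the certificates -/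
def L207 : List Prf := [(.br (nat_lit 13) (nat_lit 1) (.cons (.rf (nat_lit 5966) (nat_lit 493858305440582043680)) (.cons (.rf (nat_lit 5969) (nat_lit 493858305440582043680)) (.cons (.br (nat_lit 13) (nat_lit 1) (.cons (.rf (nat_lit 5966) (nat_lit 493858305440582043680)) (.cons (.rf (nat_lit 5969) (nat_lit 493858305440582043680)) .nil))) .nil)))),
 (.br (nat_lit 13) (nat_lit 1) (.cons (.rf (nat_lit 5966) (nat_lit 493858305440582043680)) (.cons (.rf (nat_lit 5969) (nat_lit 493858305440582043680)) (.cons (.rf (nat_lit 5970) (nat_lit 493858305440582043680)) (.cons (.br (nat_lit 13) (nat_lit 1) (.cons (.rf (nat_lit 5966) (nat_lit 493858305440582043680)) (.cons (.rf (nat_lit 5969) (nat_lit 493858305440582043680)) (.cons (.rf (nat_lit 5970) (nat_lit 493858305440582043680)) .nil)))) .nil))))),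
 (.br (nat_lit 10) (nat_lit 1) (.cons (.br (nat_lit 8) (nat_lit 1) (.cons (.rf (nat_lit 4982) (nat_lit 286027646027)) (.cons (.rf (nat_lit 1343) (nat_lit 422259698753)) (.cons (.rf (nat_lit 5961) (nat_lit 493858305440582043680)) (.cons (.rf (nat_lit 5961) (nat_lit 458117738797769787424)) .nil))))) (.cons (.br (nat_lit 7) (nat_lit 1) (.cons (.ev (nat_lit 1208944266358702901035264) (nat_lit 1)) (.cons (.rf (nat_lit 1343) (nat_lit 422260746305)) (.cons (.rf (nat_lit 5963) (nat_lit 493858305440582043680)) (.cons (.rf (nat_lit 5963) (nat_lit 458117738797769787424)) .nil))))) (.cons (.rf (nat_lit 5676) (nat_lit 14715710610474)) (.cons (.rf (nat_lit 5971) (nat_lit 493858305440582043680)) (.cons (.rf (nat_lit 5971) (nat_lit 458117738797769787424)) .nil)))))),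
 (.br (nat_lit 11) (nat_lit 1) (.cons (.rf (nat_lit 84) (nat_lit 13161016354)) (.cons (.rf (nat_lit 84) (nat_lit 13128215874)) (.cons (.rf (nat_lit 2305) (nat_lit 14713829469249)) (.cons (.br (nat_lit 7) (nat_lit 1) (.cons (.ev (nat_lit 309489732260167011679600641) (nat_lit 1)) (.cons (.br (nat_lit 13) (nat_lit 1) (.cons (.ev (nat_lit 1208944338416296938963201) (nat_lit 1)) (.cons (.zr (nat_lit 3645666924775366104974592) (nat_lit 40564819207303485245661378641921) (nat_lit 5) (nat_lit 5)) .nil))) .nil))) .nil))))),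
 (.br (nat_lit 2) (nat_lit 1) (.cons (.kr (nat_lit 1) (nat_lit 72057594037927936) (nat_lit 0) (nat_lit 1)) (.cons (.ev (nat_lit 1208944266358702901035264) (nat_lit 1)) (.cons (.rf (nat_lit 31) (nat_lit 276104546)) (.cons (.rf (nat_lit 5973) (nat_lit 493858305440582043680)) (.cons (.rf (nat_lit 5973) (nat_lit 458117738797769787424)) .nil)))))),
 (.br (nat_lit 7) (nat_lit 1) (.cons (.rf (nat_lit 84) (nat_lit 13161048098)) (.cons (.br (nat_lit 12) (nat_lit 1) (.cons (.rf (nat_lit 5177) (nat_lit 13329738786)) (.cons (.ev (nat_lit 79228162514264620172327321856) (nat_lit 1)) (.cons (.ev (nat_lit 79537652246524223125968715776) (nat_lit 1)) .nil)))) (.cons (.br (nat_lit 8) (nat_lit 1) (.cons (.rf (nat_lit 84) (nat_lit 13128215874)) (.cons (.br (nat_lit 10) (nat_lit 1) (.cons (.ev (nat_lit 79229376180969236760128127233) (nat_lit 1)) (.cons (.br (nat_lit 12) (nat_lit 1) (.cons (.ev (nat_lit 79538856468352323943936294913) (nat_lit 1)) .nil)) .nil))) (.cons (.br (nat_lit 13) (nat_lit 1) (.cons (.rf (nat_lit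 5177) (nat_lit 14369926186)) (.cons (.zr (nat_lit 55340234420152107008) (nat_lit 40564819212025707612243436240897) (nat_lit 5) (nat_lit 0)) .nil))) .nil)))) .nil)))),
 (.br (nat_lit 2) (nat_lit 1) (.cons (.kr (nat_lit 1) (nat_lit 72057594037927936) (nat_lit 0) (nat_lit 1)) (.cons (.rf (nat_lit 4982) (nat_lit 252741683242)) (.cons (.rf (nat_lit 31) (nat_lit 276137282)) (.cons (.rf (nat_lit 5975) (nat_lit 493858305440582043680)) (.cons (.rf (nat_lit 5975) (nat_lit 458117738797769787424)) .nil)))))),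
 (.br (nat_lit 11) (nat_lit 1) (.cons (.ev (nat_lit 310698676526526814075486208) (nat_lit 1)) (.cons (.ev (nat_lit 309489732260167011679600641) (nat_lit 1)) .nil))),
 (.br (nat_lit 13) (nat_lit 1) (.cons (.kr (nat_lit 18446745173221179392) (nat_lit 1208925891672223212634112) (nat_lit 5) (nat_lit 0)) (.cons (.zr (nat_lit 55340234420152107008) (nat_lit 158456329750895439536021569537) (nat_lit 5) (nat_lit 0)) .nil))),
 (.br (nat_lit 12) (nat_lit 1) (.cons (.ev (nat_lit 79228171996035190346641113091) (nat_lit 2)) (.cons (.rf (nat_lit 5126) (nat_lit 11548183585001825)) (.cons (.br (nat_lit 7) (nat_lit 1) (.cons (.rf (nat_lit 82) (nat_lit 9000298530)) (.cons (.ev (nat_lit 309489732260167011679600641) (nat_lit 1)) .nil))) (.cons (.br (nat_lit 11) (nat_lit 1) (.cons (.br (nat_lit 10) (nat_lit 1) (.cons (.ev (nat_lit 79538861190718525334326673408) (nat_lit 1)) .nil)) (.cons (.zr (nat_lit 238612942572257047986806194944) (nat_lit 4759260253595864399873) (nat_lit 5) (nat_lit 9)) (.cons (.rf (nat_lit 5967)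 (nat_lit 493858305440582043680)) .nil)))) .nil))))),
 (.br (nat_lit 8) (nat_lit 1) (.cons (.rf (nat_lit 5972) (nat_lit 493858305440582043680)) (.cons (.rf (nat_lit 5974) (nat_lit 493858305440582043680)) (.cons (.rf (nat_lit 5976) (nat_lit 493858305440582043680)) (.cons (.br (nat_lit 2) (nat_lit 1) (.cons (.kr (nat_lit 1) (nat_lit 72057594037927936) (nat_lit 0) (nat_lit 1)) (.cons (.br (nat_lit 7) (nat_lit 1) (.cons (.rf (nat_lit 29) (nat_lit 7701826)) (.cons (.rf (nat_lit 5977) (nat_lit 493858305440582043680)) (.cons (.rf (nat_lit 5977) (nat_lit 458117738797769787424)) .nil)))) (.cons (.br (nat_lit 7) (nat_lit 1) (.cons (.ev (nat_lit 1213666705180645839143168) (nat_lit 1)) (.cons (.rf (nat_lit 5978) (nat_lit 493858305440582043680)) (.cons (.rf (nat_lit 5978) (nat_lit 458117738797769787424)) .nil)))) (.cons (.rf (nat_lit 5979) (nat_lit 493858305440582043680)) (.cons (.rf (nat_lit 5979) (nat_lit 458117738797769787424)) .nil)))))) .nil))))),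
 (.br (nat_lit 8) (nat_lit 1) (.cons (.rf (nat_lit 5972) (nat_lit 493858305440582043680)) (.cons (.rf (nat_lit 5974) (nat_lit 493858305440582043680)) (.cons (.rf (nat_lit 5976) (nat_lit 493858305440582043680)) (.cons (.rf (nat_lit 5980) (nat_lit 493858305440582043680)) (.cons (.rf (nat_lit 5980) (nat_lit 458117738797769787424)) .nil)))))),
 (.br (nat_lit 7) (nat_lit 1) (.cons (.rf (nat_lit 82) (nat_lit 13161039914)) (.cons (.rf (nat_lit 2594) (nat_lit 8993868138)) (.cons (.ev (nat_lit 309489732260167011679600641) (nat_lit 1)) .nil)))),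
 (.br (nat_lit 7) (nat_lit 1) (.cons (.rf (nat_lit 1343) (nat_lit 422251310401)) (.cons (.rf (nat_lit 4982) (nat_lit 252741691426)) (.cons (.rf (nat_lit 5982) (nat_lit 493858305440582043680)) (.cons (.rf (nat_lit 5982) (nat_lit 458117738797769787424)) .nil))))),
 (.br (nat_lit 13) (nat_lit 1) (.cons (.rf (nat_lit 4936) (nat_lit 454547198858541270377)) (.cons (.ev (nat_lit 79229371458530977775699951873) (nat_lit 1)) .nil))),
 (.br (nat_lit 11) (nat_lit 1) (.cons (.br (nat_lit 12) (nat_lit 1) (.cons (.ev (nat_lit 1213666705180645839143168) (nat_lit 1)) (.cons (.zr (nat_lit 6063518564004624454386432) (nat_lit 159075295085065136050756648961) (nat_lit 5) (nat_lit 5)) .nil))) (.cons (.rf (nat_lit 84) (nat_lit 7797550145)) (.cons (.br (nat_lit 12) (nat_lit 1) (.cons (.zr (nat_lit 6063518564004624454386432) (nat_lit 159075295085065136050756648961) (nat_lit 5) (nat_lit 5)) (.cons (.rf (nat_lit 5177) (nat_lit 14206372171)) .nil))) .nil)))),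
 (.br (nat_lit 8) (nat_lit 1) (.cons (.rf (nat_lit 5972) (nat_lit 493858305440582043680)) (.cons (.rf (nat_lit 5981) (nat_lit 493858305440582043680)) (.cons (.rf (nat_lit 5983) (nat_lit 493858305440582043680)) (.cons (.br (nat_lit 2) (nat_lit 1) (.cons (.br (nat_lit 7) (nat_lit 1) (.cons (.zr (nat_lit 6054073975154073239814912) (nat_lit 618970056536460863668748291) (nat_lit 5) (nat_lit 5)) (.cons (.rf (nat_lit 5984) (nat_lit 493858305440582043680)) (.cons (.rf (nat_lit 5984) (nat_lit 458117738797769787424)) .nil)))) (.cons (.rf (nat_lit 1593) (nat_lit 459906745698)) (.cons (.rf (nat_lit 5985) (nat_lit 493858305440582043680)) (.cons (.rf (nat_lit 5985) (nat_lit 458117738797769787424)) .nil))))) .nil))))),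
 (.br (nat_lit 8) (nat_lit 1) (.cons (.rf (nat_lit 5972) (nat_lit 493858305440582043680)) (.cons (.rf (nat_lit 5981) (nat_lit 493858305440582043680)) (.cons (.rf (nat_lit 5983) (nat_lit 493858305440582043680)) (.cons (.rf (nat_lit 5986) (nat_lit 493858305440582043680)) (.cons (.rf (nat_lit 5986) (nat_lit 458117738797769787424)) .nil)))))),
 (.br (nat_lit 12) (nat_lit 1) (.cons (.ev (nat_lit 79229376180897179166090199296) (nat_lit 1)) (.cons (.zr (nat_lit 55340234420152107008) (nat_lit 158456329750895439536021569537) (nat_lit 5) (nat_lit 0)) .nil))),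
 (.br (nat_lit 10) (nat_lit 1) (.cons (.br (nat_lit 12) (nat_lit 1) (.cons (.rf (nat_lit 84) (nat_lit 9000003627)) (.cons (.ev (nat_lit 79538856468352323943936294913) (nat_lit 1)) .nil))) (.cons (.rf (nat_lit 84) (nat_lit 7797581889)) (.cons (.ev (nat_lit 310693954087704871137509376) (nat_lit 1)) .nil)))),
 (.br (nat_lit 8) (nat_lit 1) (.cons (.rf (nat_lit 5972) (nat_lit 493858305440582043680)) (.cons (.rf (nat_lit 5981) (nat_lit 493858305440582043680)) (.cons (.rf (nat_lit 5983) (nat_lit 493858305440582043680)) (.cons (.br (nat_lit 2) (nat_lit 1) (.cons (.br (nat_lit 7) (nat_lit 1) (.cons (.ev (nat_lit 72058693566333184) (nat_lit 1)) (.cons (.rf (nat_lit 5988) (nat_lit 493858305440582043680)) (.cons (.rf (nat_lit 5988) (nat_lit 458117738797769787424)) .nil)))) (.cons (.ev (nat_lit 1213666633123051801215233) (nat_lit 1)) (.cons (.rf (nat_lit 5989) (nat_lit 493858305440582043680)) (.cons (.rf (nat_lit 5989) (nat_lit 458117738797769787424)) .nil))))) .nil))))),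
 (.br (nat_lit 8) (nat_lit 1) (.cons (.rf (nat_lit 5972) (nat_lit 493858305440582043680)) (.cons (.rf (nat_lit 5981) (nat_lit 493858305440582043680)) (.cons (.rf (nat_lit 5983) (nat_lit 493858305440582043680)) (.cons (.rf (nat_lit 5990) (nat_lit 493858305440582043680)) (.cons (.rf (nat_lit 5990) (nat_lit 458117738797769787424)) .nil)))))),
 (.br (nat_lit 8) (nat_lit 1) (.cons (.rf (nat_lit 5972) (nat_lit 493858305440582043680)) (.cons (.rf (nat_lit 5981) (nat_lit 493858305440582043680)) (.cons (.rf (nat_lit 5987) (nat_lit 493858305440582043680)) (.cons (.rf (nat_lit 5991) (nat_lit 493858305440582043680)) (.cons (.br (nat_lit 8) (nat_lit 1) (.cons (.rf (nat_lit 5972) (nat_lit 493858305440582043680)) (.cons (.rf (nat_lit 5981) (nat_lit 493858305440582043680)) (.cons (.rf (nat_lit 5987) (nat_lit 493858305440582043680)) (.cons (.rf (nat_lit 5991) (nat_lit 493858305440582043680)) .nil))))) .nil)))))),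
 (.br (nat_lit 8) (nat_lit 1) (.cons (.rf (nat_lit 5972) (nat_lit 493858305440582043680)) (.cons (.rf (nat_lit 5981) (nat_lit 493858305440582043680)) (.cons (.rf (nat_lit 5987) (nat_lit 493858305440582043680)) (.cons (.rf (nat_lit 5991) (nat_lit 493858305440582043680)) (.cons (.rf (nat_lit 5992) (nat_lit 493858305440582043680)) (.cons (.rf (nat_lit 5992) (nat_lit 458117738797769787424)) .nil))))))),
 (.br (nat_lit 8) (nat_lit 1) (.cons (.br (nat_lit 8) (nat_lit 1) (.cons (.ev (nat_lit 309489750634853491351224321) (nat_lit 1)) .nil)) (.cons (.br (nat_lit 8) (nat_lit 1) (.cons (.ev (nat_lit 309489750634853491351224321) (nat_lit 1)) .nil)) .nil))),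
 (.br (nat_lit 7) (nat_lit 1) (.cons (.rf (nat_lit 5994) (nat_lit 493858305440582043680)) (.cons (.rf (nat_lit 31) (nat_lit 410323297)) (.cons (.br (nat_lit 7) (nat_lit 1) (.cons (.rf (nat_lit 5994) (nat_lit 493858305440582043680)) (.cons (.rf (nat_lit 31) (nat_lit 410323297)) .nil))) .nil)))),
 (.br (nat_lit 10) (nat_lit 1) (.cons (.rf (nat_lit 29) (nat_lit 7670113)) (.cons (.rf (nat_lit 5676) (nat_lit 14715979045953)) (.cons (.rf (nat_lit 5995) (nat_lit 493858305440582043680)) (.cons (.rf (nat_lit 5995) (nat_lit 458117738797769787424)) .nil))))),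
 (.br (nat_lit 8) (nat_lit 1) (.cons (.rf (nat_lit 31) (nat_lit 275851617)) (.cons (.ev (nat_lit 309489750634853491351224321) (nat_lit 1)) .nil))),
 (.br (nat_lit 8) (nat_lit 1) (.cons (.rf (nat_lit 31) (nat_lit 275851617)) (.cons (.rf (nat_lit 5997) (nat_lit 493858305440582043680)) (.cons (.rf (nat_lit 5997) (nat_lit 458117738797769787424)) .nil)))),
 (.br (nat_lit 7) (nat_lit 1) (.cons (.rf (nat_lit 5996) (nat_lit 493858305440582043680)) (.cons (.rf (nat_lit 5998) (nat_lit 493858305440582043680)) (.cons (.ev (nat_lit 309489732260167011679600641) (nat_lit 1)) .nil)))),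
 (.br (nat_lit 7) (nat_lit 1) (.cons (.rf (nat_lit 5996) (nat_lit 493858305440582043680)) (.cons (.rf (nat_lit 5998) (nat_lit 493858305440582043680)) (.cons (.rf (nat_lit 5999) (nat_lit 493858305440582043680)) (.cons (.rf (nat_lit 5999) (nat_lit 458117738797769787424)) .nil))))),
 (.br (nat_lit 8) (nat_lit 1) (.cons (.rf (nat_lit 5676) (nat_lit 14715979014209)) (.cons (.rf (nat_lit 6000) (nat_lit 493858305440582043680)) (.cons (.br (nat_lit 8) (nat_lit 1) (.cons (.rf (nat_lit 1593) (nat_lit 459638319457)) (.cons (.ev (nat_lit 309489750634853491351224321) (nat_lit 1)) .nil))) .nil)))),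
 (.br (nat_lit 8) (nat_lit 1) (.cons (.rf (nat_lit 5676) (nat_lit 14715979014209)) (.cons (.rf (nat_lit 6000) (nat_lit 493858305440582043680)) (.cons (.rf (nat_lit 6001) (nat_lit 493858305440582043680)) (.cons (.rf (nat_lit 6001) (nat_lit 458117738797769787424)) .nil))))),
 (.br (nat_lit 7) (nat_lit 1) (.cons (.rf (nat_lit 5996) (nat_lit 493858305440582043680)) (.cons (.rf (nat_lit 6000) (nat_lit 493858305440582043680)) (.cons (.rf (nat_lit 6002) (nat_lit 493858305440582043680)) (.cons (.br (nat_lit 7) (nat_lit 1) (.cons (.rf (nat_lit 1593) (nat_lit 459638286689)) (.cons (.ev (nat_lit 309489732260167011679600641) (nat_lit 1)) (.cons (.rf (nat_lit 1593) (nat_lit 459906713953)) .nil)))) .nil))))),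
 (.br (nat_lit 7) (nat_lit 1) (.cons (.rf (nat_lit 84) (nat_lit 13161016385)) (.cons (.br (nat_lit 8) (nat_lit 1) (.cons (.rf (nat_lit 84) (nat_lit 13128248641)) (.cons (.ev (nat_lit 79229371458603035369737879808) (nat_lit 1)) (.cons (.br (nat_lit 12) (nat_lit 1) (.cons (.ev (nat_lit 79229376180969236760128127233) (nat_lit 1)) (.cons (.ev (nat_lit 79228162532711364246036873473) (nat_lit 1)) .nil))) .nil)))) (.cons (.br (nat_lit 8) (nat_lit 1) (.cons (.rf (nat_lit 84) (nat_lit 13128248641)) (.cons (.br (nat_lit 11) (nat_lit 1) (.cons (.ev (nat_lit 79538856449905579870226743296) (nat_lit 1)) (.cons (.rf (nat_lit 5137) (nat_lit 270265842768906660896)) .nil))) (.cons (.br (nat_lit 13) (nat_lit 1) (.cons (.ev (nat_lit 20282409608392555709584172384513) (nat_lit 1)) (.cons (.ev (nat_lit 20282410812595937064129407287553) (nat_lit 1)) .nil))) .nil)))) .nil))))]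

theorem c207 : chkAll C T R L207 (nat_lit 5970) = true := by decide +kernel

theorem l207 : (nat_lit 5970) + L207.length = (nat_lit 6005) := by decide +kernel

/-- part of the certificates -/
def L208 : List Prf := [(.br (nat_lit 8) (nat_lit 1) (.cons (.ev (nat_lit 309485028268089142451175424) (nat_lit 1)) (.cons (.rf (nat_lit 2594) (nat_lit 8994915690)) (.cons (.ev (nat_lit 309485028340146736489103361) (nat_lit 1)) (.cons (.br (nat_lit 10) (nat_lit 1) (.cons (.kr (nat_lit 1099511627776) (nat_lit 1208925819614629174706176) (nat_lit 5) (nat_lit 0)) (.cons (.kr (nat_lit 1208925819614629174706177) (nat_lit 72058693549555712) (nat_lit 0) (nat_lit 1)) (.cons (.ev (nat_lit 310693954087704871137509376) (nat_lit 1)) .nil)))) .nil))))),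
 (.br (nat_lit 7) (nat_lit 1) (.cons (.kr (nat_lit 1) (nat_lit 72057594037927936) (nat_lit 0) (nat_lit 1)) (.cons (.rf (nat_lit 4982) (nat_lit 286027647329)) (.cons (.rf (nat_lit 6005) (nat_lit 14242959524133701664)) (.cons (.rf (nat_lit 6005) (nat_lit 15395881028740548640)) .nil))))),
 (.br (nat_lit 8) (nat_lit 1) (.cons (.rf (nat_lit 6004) (nat_lit 493858305440582043680)) (.cons (.rf (nat_lit 6006) (nat_lit 493858305440582043680)) (.cons (.br (nat_lit 13) (nat_lit 1) (.cons (.br (nat_lit 11) (nat_lit 1) (.cons (.br (nat_lit 12) (nat_lit 1) (.cons (.zr (nat_lit 237688114320251856668156166144) (nat_lit 4759260253595864399873) (nat_lit 5) (nat_lit 9)) .nil)) (.cons (.zr (nat_lit 237684487543009187761769086976) (nat_lit 4759260252496352772100) (nat_lit 5) (nat_lit 9)) (.cons (.ev (nat_lit 309489750706911085389152256) (nat_lit 1)) .nil)))) (.cons (.br (nat_lit 11) (nat_lit 1) (.cons (.br (nat_lit 12) (nat_lit 1) (.cons (.zr (nat_lit 237684487543009187761769086976) (nat_lit 4759260252496352772100)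 (nat_lit 5) (nat_lit 9)) .nil)) (.cons (.zr (nat_lit 237688114320251856668156166144) (nat_lit 4759260253595864399873) (nat_lit 5) (nat_lit 9)) (.cons (.ev (nat_lit 310698676454469220037558273) (nat_lit 1)) .nil)))) (.cons (.br (nat_lit 13) (nat_lit 1) (.cons (.ev (nat_lit 309489750706911085389152256) (nat_lit 1)) (.cons (.ev (nat_lit 310698676454469220037558273) (nat_lit 1)) (.cons (.zr (nat_lit 60847228810955011274040777310208) (nat_lit 4759260252496352772097) (nat_lit 5) (nat_lit 9)) .nil)))) (.cons (.br (nat_lit 11) (nat_lit 1) (.cons (.zr (nat_lit 237684487543009187761769086976) (nat_lit 4759260252496352772100) (nat_lit 5) (nat_lit 9)) (.cons (.zr (nat_lit 237688114320251856668156166144) (nat_lit 4759260253595864399873) (nat_lit 5) (nat_lit 9)) (.cons (.zr (nat_lit 60847228810955011274040777310208) (nat_lit 4759260252496352772097) (nat_lit 5) (nat_lit 9)) .nil)))) .nil))))) .nil)))),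
 (.br (nat_lit 8) (nat_lit 1) (.cons (.rf (nat_lit 6004) (nat_lit 493858305440582043680)) (.cons (.rf (nat_lit 6006) (nat_lit 493858305440582043680)) (.cons (.rf (nat_lit 6007) (nat_lit 493858305440582043680)) (.cons (.br (nat_lit 8) (nat_lit 1) (.cons (.rf (nat_lit 6004) (nat_lit 493858305440582043680)) (.cons (.rf (nat_lit 6006) (nat_lit 493858305440582043680)) (.cons (.rf (nat_lit 6007) (nat_lit 493858305440582043680)) .nil)))) .nil))))),
 (.br (nat_lit 8) (nat_lit 1) (.cons (.br (nat_lit 12) (nat_lit 1) (.cons (.ev (nat_lit 79229376180969236760128127233) (nat_lit 1)) .nil)) .nil)),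
 (.br (nat_lit 7) (nat_lit 1) (.cons (.rf (nat_lit 84) (nat_lit 13161016385)) (.cons (.rf (nat_lit 84) (nat_lit 8999971914)) (.cons (.br (nat_lit 8) (nat_lit 1) (.cons (.rf (nat_lit 6009) (nat_lit 493858305440582043680)) (.cons (.br (nat_lit 12) (nat_lit 1) (.cons (.rf (nat_lit 6009) (nat_lit 493858305440582043680)) (.cons (.ev (nat_lit 20282719093383858251885638123521) (nat_lit 1)) .nil))) .nil))) .nil)))),
 (.br (nat_lit 11) (nat_lit 1) (.cons (.rf (nat_lit 5126) (nat_lit 9405469730900000)) (.cons (.rf (nat_lit 4604) (nat_lit 300802439370606624)) .nil))),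
 (.br (nat_lit 7) (nat_lit 1) (.cons (.rf (nat_lit 6008) (nat_lit 493858305440582043680)) (.cons (.rf (nat_lit 84) (nat_lit 8999971914)) (.cons (.br (nat_lit 11) (nat_lit 1) (.cons (.rf (nat_lit 6011) (nat_lit 482283501406818369)) (.cons (.rf (nat_lit 84) (nat_lit 8837475370)) (.cons (.br (nat_lit 12) (nat_lit 1) (.cons (.br (nat_lit 8) (nat_lit 1) (.cons (.ev (nat_lit 20683208426498421154078341401346) (nat_lit 4)) .nil)) (.cons (.ev (nat_lit 20520096513768686166075857108994) (nat_lit 2)) .nil))) .nil)))) .nil)))),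
 (.br (nat_lit 7) (nat_lit 1) (.cons (.rf (nat_lit 6008) (nat_lit 493858305440582043680)) (.cons (.rf (nat_lit 6010) (nat_lit 493858305440582043680)) (.cons (.rf (nat_lit 6012) (nat_lit 493858305440582043680)) (.cons (.br (nat_lit 7) (nat_lit 1) (.cons (.rf (nat_lit 6008) (nat_lit 493858305440582043680)) (.cons (.rf (nat_lit 6010) (nat_lit 493858305440582043680)) (.cons (.rf (nat_lit 6012) (nat_lit 493858305440582043680)) .nil)))) .nil))))),
 (.br (nat_lit 8) (nat_lit 1) (.cons (.rf (nat_lit 6006) (nat_lit 493858305440582043680)) (.cons (.rf (nat_lit 84) (nat_lit 7927278914)) (.cons (.br (nat_lit 10) (nat_lit 1) (.cons (.rf (nat_lit 6011) (nat_lit 481966841017831777)) (.cons (.ev (nat_lit 79228167255077565636427120896) (nat_lit 1)) (.cons (.br (nat_lit 12) (nat_lit 1) (.cons (.zr (nat_lit 55340236619175362560) (nat_lit 158458747602534668794370981889) (nat_lit 5) (nat_lit 0)) (.cons (.ev (nat_lit 20282410817318303265519797534976) (nat_lit 1)) .nil))) .nil)))) .nil)))),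
 (.br (nat_lit 8) (nat_lit 1) (.cons (.rf (nat_lit 6006) (nat_lit 493858305440582043680)) (.cons (.rf (nat_lit 6013) (nat_lit 493858305440582043680)) (.cons (.rf (nat_lit 6014) (nat_lit 493858305440582043680)) (.cons (.br (nat_lit 8) (nat_lit 1) (.cons (.rf (nat_lit 6006) (nat_lit 493858305440582043680)) (.cons (.rf (nat_lit 5126) (nat_lit 11729908248252481)) (.cons (.rf (nat_lit 6014) (nat_lit 493858305440582043680)) .nil)))) .nil))))),
 (.br (nat_lit 8) (nat_lit 1) (.cons (.rf (nat_lit 6008) (nat_lit 493858305440582043680)) (.cons (.rf (nat_lit 6013) (nat_lit 493858305440582043680)) (.cons (.rf (nat_lit 6015) (nat_lit 493858305440582043680)) (.cons (.br (nat_lit 8) (nat_lit 1) (.cons (.rf (nat_lit 6008) (nat_lit 493858305440582043680)) (.cons (.rf (nat_lit 6013) (nat_lit 493858305440582043680)) (.cons (.rf (nat_lit 6015) (nat_lit 493858305440582043680)) .nil)))) .nil))))),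
 (.br (nat_lit 8) (nat_lit 1) (.cons (.rf (nat_lit 6008) (nat_lit 493858305440582043680)) (.cons (.rf (nat_lit 6013) (nat_lit 493858305440582043680)) (.cons (.rf (nat_lit 6015) (nat_lit 493858305440582043680)) (.cons (.rf (nat_lit 6016) (nat_lit 493858305440582043680)) (.cons (.br (nat_lit 8) (nat_lit 1) (.cons (.rf (nat_lit 6008) (nat_lit 493858305440582043680)) (.cons (.rf (nat_lit 6013) (nat_lit 493858305440582043680)) (.cons (.rf (nat_lit 6015) (nat_lit 493858305440582043680)) (.cons (.rf (nat_lit 6016) (nat_lit 493858305440582043680)) .nil))))) .nil)))))),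
 (.br (nat_lit 2) (nat_lit 1) (.cons (.rf (nat_lit 84) (nat_lit 13161048129)) (.cons (.rf (nat_lit 84) (nat_lit 13128510529)) (.cons (.br (nat_lit 7) (nat_lit 1) (.cons (.rf (nat_lit 84) (nat_lit 8837728299)) (.cons (.br (nat_lit 12) (nat_lit 1) (.cons (.ev (nat_lit 4740885567116176064768) (nat_lit 1)) (.cons (.zr (nat_lit 310708102812468112831545600) (nat_lit 316912650057059320699012775938) (nat_lit 10) (nat_lit 4)) .nil))) .nil))) (.cons (.br (nat_lit 8) (nat_lit 1) (.cons (.br (nat_lit 12) (nat_lit 1) (.cons (.ev (nat_lit 4740885567116176064768) (nat_lit 1)) (.cons (.zr (nat_lit 55340236619175362560) (nat_lit 158458747602534668794370981889) (nat_lit 5) (nat_lit 0)) .nil))) (.cons (.ev (nat_lit 310693954087704871137509376) (nat_lit 1)) .nil))) .nil))))),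
 (.br (nat_lit 8) (nat_lit 1) (.cons (.rf (nat_lit 6017) (nat_lit 493858304375430154272)) (.cons (.rf (nat_lit 6018) (nat_lit 493858305440582043680)) (.cons (.br (nat_lit 7) (nat_lit 1) (.cons (.rf (nat_lit 6017) (nat_lit 493858305440582043680)) (.cons (.ev (nat_lit 310698676454469220037558273) (nat_lit 1)) (.cons (.br (nat_lit 2) (nat_lit 1) (.cons (.ev (nat_lit 4740885567116176064768) (nat_lit 1)) (.cons (.br (nat_lit 11) (nat_lit 1) (.cons (.ev (nat_lit 20837936424225903106007307978498) (nat_lit 3)) .nil)) .nil))) (.cons (.br (nat_lit 11) (nat_lit 1) (.cons (.kr (nat_lit 309485009893402662762709248) (nat_lit 18446745173221244928) (nat_lit 1) (nat_lit 0)) (.cons (.rf (nat_lit 5820) (nat_lit 458046842287978285088)) (.cons (.br (nat_lit 2) (nat_lit 1) (.cons (.zr (nat_lit 238616569349932064656444097280) (nat_lit 4814600489115527938049) (nat_lit 5) (nat_lit 9)) .nil)) .nil)))) .nil))))) .nil)))),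
 (.br (nat_lit 8) (nat_lit 1) (.cons (.rf (nat_lit 6017) (nat_lit 493858304375430154272)) (.cons (.rf (nat_lit 6018) (nat_lit 493858305440582043680)) (.cons (.rf (nat_lit 6019) (nat_lit 493858305440582043680)) (.cons (.br (nat_lit 8) (nat_lit 1) (.cons (.rf (nat_lit 6017) (nat_lit 493858304375430154272)) (.cons (.rf (nat_lit 6018) (nat_lit 493858305440582043680)) (.cons (.rf (nat_lit 6019) (nat_lit 493858305440582043680)) .nil)))) .nil))))),
 (.br (nat_lit 8) (nat_lit 1) (.cons (.rf (nat_lit 6005) (nat_lit 14242958458981812256)) (.cons (.rf (nat_lit 6020) (nat_lit 493858304375430154272)) (.cons (.br (nat_lit 2) (nat_lit 1) (.cons (.rf (nat_lit 6017) (nat_lit 493858305440582043680)) (.cons (.br (nat_lit 7) (nat_lit 1) (.cons (.ev (nat_lit 4740885567116176064768) (nat_lit 1)) (.cons (.ev (nat_lit 1213648258436572129591553) (nat_lit 1)) .nil))) (.cons (.ev (nat_lit 79537652264898909605640339456) (nat_lit 1)) (.cons (.br (nat_lit 10) (nat_lit 1) (.cons (.ev (nat_lit 310698676454469220037558273)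 (nat_lit 1)) (.cons (.br (nat_lit 7) (nat_lit 1) (.cons (.ev (nat_lit 79538865950194949513264759041) (nat_lit 2)) .nil)) (.cons (.zr (nat_lit 60848157265984475307047928201984) (nat_lit 4759260253595864399873) (nat_lit 5) (nat_lit 9)) .nil)))) .nil))))) .nil)))),
 (.br (nat_lit 8) (nat_lit 1) (.cons (.rf (nat_lit 6017) (nat_lit 493858304375430154272)) (.cons (.rf (nat_lit 6020) (nat_lit 493858304375430154272)) (.cons (.rf (nat_lit 6021) (nat_lit 493858305440582043680)) (.cons (.br (nat_lit 8) (nat_lit 1) (.cons (.rf (nat_lit 6005) (nat_lit 15395879963588659232)) (.cons (.rf (nat_lit 6020) (nat_lit 493858304375430154272)) (.cons (.rf (nat_lit 6021) (nat_lit 493858305440582043680)) .nil)))) .nil))))),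
 (.br (nat_lit 7) (nat_lit 1) (.cons (.rf (nat_lit 6017) (nat_lit 493858305440582043680)) (.cons (.rf (nat_lit 6020) (nat_lit 493858305440582043680)) (.cons (.rf (nat_lit 6022) (nat_lit 493858305440582043680)) (.cons (.br (nat_lit 8) (nat_lit 1) (.cons (.rf (nat_lit 6017) (nat_lit 493858304375430154272)) (.cons (.rf (nat_lit 6020) (nat_lit 493858304375430154272)) (.cons (.rf (nat_lit 6022) (nat_lit 493858304375430154272)) (.cons (.br (nat_lit 8) (nat_lit 1) (.cons (.rf (nat_lit 6017) (nat_lit 493858304375430154272)) (.cons (.rf (nat_lit 6020) (nat_lit 493858304375430154272)) (.cons (.rf (nat_lit 6022) (nat_lit 493858304375430154272)) (.cons (.kr (nat_lit 72057594037927936) (nat_lit 18446744073709551616) (nat_lit 7) (nat_lit 0)) .nil))))) (.cons (.br (nat_lit 8) (nat_lit 1) (.cons (.rf (nat_lit 6017) (nat_lit 493858304375430154272)) (.cons (.rf (nat_lit 6020) (nat_lit 493858304375430154272)) (.cons (.rf (nat_lit 6022) (nat_lit 493858304375430154272)) (.cons (.kr (nat_lit 72057594037927936) (nat_lit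 18446744073709551616) (nat_lit 7) (nat_lit 0)) .nil))))) .nil)))))) .nil))))),
 (.br (nat_lit 7) (nat_lit 1) (.cons (.rf (nat_lit 6017) (nat_lit 493858305440582043680)) (.cons (.rf (nat_lit 6020) (nat_lit 493858305440582043680)) (.cons (.rf (nat_lit 6022) (nat_lit 493858305440582043680)) (.cons (.rf (nat_lit 6023) (nat_lit 493858305440582043680)) (.cons (.br (nat_lit 7) (nat_lit 1) (.cons (.rf (nat_lit 6017) (nat_lit 493858305440582043680)) (.cons (.rf (nat_lit 6020) (nat_lit 493858305440582043680)) (.cons (.rf (nat_lit 6022) (nat_lit 493858305440582043680)) (.cons (.rf (nat_lit 6023) (nat_lit 493858305440582043680)) .nil))))) .nil)))))),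
 (.br (nat_lit 2) (nat_lit 1) (.cons (.ev (nat_lit 1208925891672223229411584) (nat_lit 1)) (.cons (.rf (nat_lit 6010) (nat_lit 493858304375430154272)) (.cons (.rf (nat_lit 84) (nat_lit 8837728299)) (.cons (.br (nat_lit 7) (nat_lit 1) (.cons (.rf (nat_lit 6024) (nat_lit 493858305440582043680)) (.cons (.br (nat_lit 12) (nat_lit 1) (.cons (.br (nat_lit 8) (nat_lit 1) (.cons (.zr (nat_lit 242326781579939412658321097984) (nat_lit 8462794332233136741548033) (nat_lit 30) (nat_lit 9)) .nil)) (.cons (.rf (nat_lit 5177) (nat_lit 14239892802)) .nil))) .nil))) .nil))))),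
 (.br (nat_lit 7) (nat_lit 1) (.cons (.rf (nat_lit 6017) (nat_lit 493858305440582043680)) (.cons (.rf (nat_lit 6024) (nat_lit 493858305440582043680)) (.cons (.rf (nat_lit 6025) (nat_lit 493858305440582043680)) (.cons (.br (nat_lit 7) (nat_lit 1) (.cons (.rf (nat_lit 5126) (nat_lit 11729906872521057)) (.cons (.rf (nat_lit 6024) (nat_lit 493858305440582043680)) (.cons (.rf (nat_lit 6025) (nat_lit 493858305440582043680)) .nil)))) .nil))))),
 (.br (nat_lit 8) (nat_lit 1) (.cons (.rf (nat_lit 6017) (nat_lit 493858304375430154272)) (.cons (.rf (nat_lit 6024) (nat_lit 493858305440582043680)) (.cons (.rf (nat_lit 6026) (nat_lit 493858305440582043680)) (.cons (.br (nat_lit 8) (nat_lit 1) (.cons (.rf (nat_lit 6017) (nat_lit 493858304375430154272)) (.cons (.rf (nat_lit 6024) (nat_lit 493858305440582043680)) (.cons (.rf (nat_lit 6026) (nat_lit 493858305440582043680)) .nil)))) .nil))))),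
 (.br (nat_lit 8) (nat_lit 1) (.cons (.rf (nat_lit 6017) (nat_lit 493858304375430154272)) (.cons (.rf (nat_lit 6024) (nat_lit 493858305440582043680)) (.cons (.rf (nat_lit 6026) (nat_lit 493858305440582043680)) (.cons (.rf (nat_lit 6027) (nat_lit 493858305440582043680)) (.cons (.br (nat_lit 8) (nat_lit 1) (.cons (.rf (nat_lit 6017) (nat_lit 493858304375430154272)) (.cons (.rf (nat_lit 6024) (nat_lit 493858305440582043680)) (.cons (.rf (nat_lit 6026) (nat_lit 493858305440582043680)) (.cons (.rf (nat_lit 6027) (nat_lit 493858305440582043680)) .nil))))) .nil)))))),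
 (.br (nat_lit 8) (nat_lit 1) (.cons (.rf (nat_lit 6017) (nat_lit 493858304375430154272)) (.cons (.rf (nat_lit 6024) (nat_lit 493858305440582043680)) (.cons (.rf (nat_lit 6028) (nat_lit 493858304375430154272)) (.cons (.br (nat_lit 8) (nat_lit 1) (.cons (.rf (nat_lit 6017) (nat_lit 493858304375430154272)) (.cons (.rf (nat_lit 6024) (nat_lit 493858305440582043680)) (.cons (.rf (nat_lit 6028) (nat_lit 493858304375430154272)) .nil)))) .nil))))),
 (.br (nat_lit 8) (nat_lit 1) (.cons (.rf (nat_lit 6017) (nat_lit 493858304375430154272)) (.cons (.rf (nat_lit 6024) (nat_lit 493858305440582043680)) (.cons (.rf (nat_lit 6028) (nat_lit 493858304375430154272)) (.cons (.rf (nat_lit 6029) (nat_lit 493858305440582043680)) (.cons (.br (nat_lit 8) (nat_lit 1) (.cons (.rf (nat_lit 6017) (nat_lit 493858304375430154272)) (.cons (.rf (nat_lit 6024) (nat_lit 493858305440582043680)) (.cons (.rf (nat_lit 6028) (nat_lit 493858304375430154272)) (.cons (.rf (nat_lit 6029) (nat_lit 493858305440582043680)) .nil))))) .nil))))))]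

theorem c208 : chkAll C T R L208 (nat_lit 6005) = true := by decide +kernel

theorem l208 : (nat_lit 6005) + L208.length = (nat_lit 6031) := by decide +kernel

end Pool.Agent.H93.Neg.Q14_4_4_0_4_2
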