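import Pool.Agent.H93.Neg.TabQ14_4_4_0_4_2

/-!
Certificates.
-/

set_option autoImplicit false
set_option maxRecDepth 100000
set_option linter.all false

namespace Pool.Agent.H93.Neg.Q14_4_4_0_4_2

/-- part of the certificates -/
def L209 : List Prf := [(.br (nat_lit 7) (nat_lit 1) (.cons (.rf (nat_lit 6017) (nat_lit 493858305440582043680)) (.cons (.rf (nat_lit 6024) (nat_lit 493858305440582043680)) (.cons (.rf (nat_lit 6028) (nat_lit 493858305440582043680)) (.cons (.rf (nat_lit 6030) (nat_lit 493858305440582043680)) (.cons (.br (nat_lit 7) (nat_lit 1) (.cons (.rf (nat_lit 6017) (nat_lit 493858305440582043680)) (.cons (.rf (nat_lit 6024) (nat_lit 493858305440582043680)) (.cons (.rf (nat_lit 6028) (nat_lit 493858305440582043680)) (.cons (.rf (nat_lit 6030) (nat_lit 493858305440582043680)) .nil))))) .nil)))))),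
 (.br (nat_lit 7) (nat_lit 1) (.cons (.rf (nat_lit 6017) (nat_lit 493858305440582043680)) (.cons (.rf (nat_lit 6024) (nat_lit 493858305440582043680)) (.cons (.rf (nat_lit 6028) (nat_lit 493858305440582043680)) (.cons (.rf (nat_lit 6030) (nat_lit 493858305440582043680)) (.cons (.rf (nat_lit 6031) (nat_lit 493858305440582043680)) (.cons (.br (nat_lit 7) (nat_lit 1) (.cons (.rf (nat_lit 6017) (nat_lit 493858305440582043680)) (.cons (.rf (nat_lit 6024) (nat_lit 493858305440582043680)) (.cons (.rf (nat_lit 6028) (nat_lit 493858305440582043680)) (.cons (.rf (nat_lit 6030) (nat_lit 493858305440582043680)) (.cons (.rf (nat_lit 6031) (nat_lit 493858305440582043680)) .nil)))))) .nil))))))),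
 (.br (nat_lit 10) (nat_lit 0) (.cons (.br (nat_lit 4) (nat_lit 1) (.cons (.br (nat_lit 11) (nat_lit 0) (.cons (.br (nat_lit 1) (nat_lit 1) (.cons (.br (nat_lit 10) (nat_lit 1) (.cons (.rf (nat_lit 5955) (nat_lit 493858305440582043680)) (.cons (.rf (nat_lit 5955) (nat_lit 493858304375430154272)) (.cons (.kr (nat_lit 309485009821345068724781312) (nat_lit 1208925819614629174771712) (nat_lit 1) (nat_lit 0)) (.cons (.rf (nat_lit 5959) (nat_lit 493858305440582043680)) (.cons (.rf (nat_lit 5959) (nat_lit 458117738797769787424)) .nil)))))) (.cons (.rf (nat_lit 5993) (nat_lit 493858305440582043680)) (.cons (.rf (nat_lit 5993) (nat_lit 493858304375430154272)) (.cons (.kr (nat_lit 1099511627776) (nat_lit 1208925819614629174706176) (nat_lit 5) (nat_lit 0)) (.cons (.br (nat_lit 7) (nat_lit 1) (.cons (.rf (nat_lit 5996) (nat_lit 493858305440582043680)) (.cons (.rf (nat_lit 6000) (nat_lit 493858305440582043680)) (.cons (.rf (nat_lit 6002) (nat_lit 493858305440582043680)) (.cons (.rf (nat_lit 6003)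 (nat_lit 493858305440582043680)) (.cons (.rf (nat_lit 6003) (nat_lit 458117738797769787424)) .nil)))))) (.cons (.rf (nat_lit 6032) (nat_lit 493858305440582043680)) (.cons (.rf (nat_lit 6032) (nat_lit 458117738797769787424)) .nil)))))))) .nil)) .nil)) .nil)),
 (.br (nat_lit 9) (nat_lit 1) (.cons (.rf (nat_lit 5644) (nat_lit 384571648073)) (.cons (.br (nat_lit 9) (nat_lit 1) (.cons (.rf (nat_lit 5644) (nat_lit 384571648073)) (.cons (.br (nat_lit 10) (nat_lit 0) (.cons (.rf (nat_lit 6033) (nat_lit 493858305440582043680)) (.cons (.rf (nat_lit 6033) (nat_lit 493858305438436657184)) .nil))) .nil))) .nil))),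
 (.br (nat_lit 2) (nat_lit 0) (.cons (.rf (nat_lit 5916) (nat_lit 9043225707584)) (.cons (.br (nat_lit 4) (nat_lit 1) (.cons (.rf (nat_lit 5949) (nat_lit 325702574508064)) (.cons (.br (nat_lit 6) (nat_lit 1) (.cons (.rf (nat_lit 5949) (nat_lit 360884801210400)) (.cons (.br (nat_lit 4) (nat_lit 1) (.cons (.rf (nat_lit 5949) (nat_lit 396071318685728)) .nil)) .nil))) .nil))) (.cons (.rf (nat_lit 5916) (nat_lit 9041080321088)) (.cons (.br (nat_lit 5) (nat_lit 1) (.cons (.br (nat_lit 9) (nat_lit 1) (.cons (.rf (nat_lit 5951) (nat_lit 11584701642934304)) (.cons (.rf (nat_lit 6034) (nat_lit 407901468851537952)) (.cons (.br (nat_lit 9) (nat_lit 1) (.cons (.rf (nat_lit 5951) (nat_lit 11584701642934304)) (.cons (.rf (nat_lit 6034) (nat_lit 443930265870501920)) (.cons (.br (nat_lit 9) (nat_lit 1) (.cons (.rf (nat_lit 5951) (nat_lit 11584701642934304)) (.cons (.rf (nat_lit 6034) (nat_lit 479959062889465888)) .nil))) .nil)))) .nil)))) (.cons (.rf (nat_lit 5912) (nat_lit 327937065880640)) .nil))) .nil))))),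
 (.br (nat_lit 8) (nat_lit 1) (.cons (.br (nat_lit 11) (nat_lit 1) (.cons (.kr (nat_lit 310693954087703771609039104) (nat_lit 20361637766166006819134833229824) (nat_lit 1) (nat_lit 0)) .nil)) .nil)),
 (.br (nat_lit 7) (nat_lit 1) (.cons (.rf (nat_lit 31) (nat_lit 376833346)) (.cons (.br (nat_lit 8) (nat_lit 1) (.cons (.rf (nat_lit 6036) (nat_lit 493858305440582043680)) (.cons (.br (nat_lit 11) (nat_lit 1) (.cons (.rf (nat_lit 6036) (nat_lit 493858305440582043680)) (.cons (.zr (nat_lit 237684487543009185562745831424) (nat_lit 40564819212025707613342947868673) (nat_lit 5) (nat_lit 0)) .nil))) .nil))) .nil))),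
 (.br (nat_lit 7) (nat_lit 1) (.cons (.rf (nat_lit 6037) (nat_lit 493858305440582043680)) (.cons (.rf (nat_lit 31) (nat_lit 376833346)) (.cons (.br (nat_lit 7) (nat_lit 1) (.cons (.rf (nat_lit 6037) (nat_lit 493858305440582043680)) (.cons (.rf (nat_lit 31) (nat_lit 376833346)) .nil))) .nil)))),
 (.br (nat_lit 12) (nat_lit 1) (.cons (.rf (nat_lit 29) (nat_lit 7734594)) (.cons (.rf (nat_lit 5676) (nat_lit 14681685367842)) (.cons (.rf (nat_lit 6038) (nat_lit 493858305440582043680)) (.cons (.rf (nat_lit 6038) (nat_lit 420143386739781765152)) .nil))))),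
 (.br (nat_lit 8) (nat_lit 1) (.cons (.rf (nat_lit 2594) (nat_lit 7887663425)) (.cons (.rf (nat_lit 82) (nat_lit 12054769729)) (.cons (.br (nat_lit 12) (nat_lit 1) (.cons (.ev (nat_lit 158458747658019581361175724544) (nat_lit 2)) (.cons (.rf (nat_lit 6011) (nat_lit 480805756738900044)) (.cons (.rf (nat_lit 6011) (nat_lit 410999962514657356)) .nil)))) .nil)))),
 (.br (nat_lit 11) (nat_lit 1) (.cons (.rf (nat_lit 2594) (nat_lit 7787098433)) (.cons (.rf (nat_lit 82) (nat_lit 8836689985)) (.cons (.br (nat_lit 7) (nat_lit 1) (.cons (.br (nat_lit 8) (nat_lit 1) (.cons (.rf (nat_lit 84) (nat_lit 12087339042)) (.cons (.zr (nat_lit 928455029464037405197599488) (nat_lit 4759260252496352772097) (nat_lit 5) (nat_lit 9)) .nil))) (.cons (.rf (nat_lit 58) (nat_lit 7743522)) (.cons (.br (nat_lit 12) (nat_lit 1) (.cons (.br (nat_lit 8) (nat_lit 1) (.cons (.zr (nat_lit 928455029464039604220855040) (nat_lit 2422610899481754702184449) (nat_lit 5) (nat_lit 9)) .nil)) (.cons (.rf (nat_lit 84) (nat_lit 12255111202))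 .nil))) .nil)))) .nil)))),
 (.br (nat_lit 11) (nat_lit 1) (.cons (.rf (nat_lit 4982) (nat_lit 388963206220)) (.cons (.rf (nat_lit 6041) (nat_lit 493858305440582043680)) (.cons (.rf (nat_lit 1343) (nat_lit 275257733185)) (.cons (.br (nat_lit 11) (nat_lit 1) (.cons (.rf (nat_lit 2594) (nat_lit 7954870593)) (.cons (.rf (nat_lit 6041) (nat_lit 493858305440582043680)) (.cons (.rf (nat_lit 82) (nat_lit 14205399105)) .nil)))) .nil))))),
 (.br (nat_lit 2) (nat_lit 1) (.cons (.rf (nat_lit 58) (nat_lit 7669804)) (.cons (.br (nat_lit 8) (nat_lit 1) (.cons (.rf (nat_lit 4982) (nat_lit 285994091596)) (.cons (.rf (nat_lit 6040) (nat_lit 493858305440582043680)) (.cons (.rf (nat_lit 1343) (nat_lit 387899961409)) (.cons (.rf (nat_lit 6040) (nat_lit 420143386739781765152)) .nil))))) (.cons (.rf (nat_lit 6042) (nat_lit 493858305440582043680)) (.cons (.rf (nat_lit 29) (nat_lit 7669122)) (.cons (.rf (nat_lit 6042) (nat_lit 420143386739781765152)) .nil)))))),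
 (.br (nat_lit 11) (nat_lit 1) (.cons (.rf (nat_lit 84) (nat_lit 8966768682)) (.cons (.br (nat_lit 12) (nat_lit 1) (.cons (.ev (nat_lit 20680099050290513029782154052868) (nat_lit 3)) .nil)) .nil))),
 (.br (nat_lit 8) (nat_lit 1) (.cons (.kr (nat_lit 1) (nat_lit 72057594037927936) (nat_lit 0) (nat_lit 1)) (.cons (.rf (nat_lit 82) (nat_lit 12054507841)) (.cons (.br (nat_lit 7) (nat_lit 1) (.cons (.rf (nat_lit 6044) (nat_lit 493858305440582043680)) (.cons (.kr (nat_lit 1099511627777) (nat_lit 1208925891672223212634112) (nat_lit 0) (nat_lit 1)) (.cons (.rf (nat_lit 6044) (nat_lit 420143386739781765152)) .nil)))) .nil)))),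
 (.br (nat_lit 7) (nat_lit 1) (.cons (.br (nat_lit 8) (nat_lit 1) (.cons (.ev (nat_lit 158765819520120870809886588931) (nat_lit 2)) (.cons (.br (nat_lit 11) (nat_lit 1) (.cons (.ev (nat_lit 20363805398513366170882338652930) (nat_lit 3)) .nil)) .nil))) (.cons (.br (nat_lit 13) (nat_lit 1) (.cons (.rf (nat_lit 5177) (nat_lit 14336370732)) (.cons (.zr (nat_lit 216177180160491520) (nat_lit 40564821629877346841501785653249) (nat_lit 5) (nat_lit 0)) .nil))) .nil))),
 (.br (nat_lit 7) (nat_lit 1) (.cons (.rf (nat_lit 6046) (nat_lit 493858305440582043680)) (.cons (.br (nat_lit 13) (nat_lit 1) (.cons (.zr (nat_lit 20282410826744589490483896583424) (nat_lit 288793334728622082) (nat_lit 10) (nat_lit 9)) (.cons (.ev (nat_lit 40565440599897206267379925910274) (nat_lit 2)) .nil))) .nil))),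
 (.br (nat_lit 12) (nat_lit 1) (.cons (.rf (nat_lit 6043) (nat_lit 491554714231182034976)) (.cons (.br (nat_lit 8) (nat_lit 1) (.cons (.rf (nat_lit 84) (nat_lit 12054475074)) (.cons (.rf (nat_lit 84) (nat_lit 7893758273)) (.cons (.br (nat_lit 7) (nat_lit 1) (.cons (.br (nat_lit 7) (nat_lit 1) (.cons (.ev (nat_lit 158458747639500779693428310274) (nat_lit 2)) .nil)) (.cons (.br (nat_lit 7) (nat_lit 1) (.cons (.ev (nat_lit 158458747639500779693428310274) (nat_lit 2)) .nil)) .nil))) .nil)))) (.cons (.rf (nat_lit 6043) (nat_lit 306942847281658954825)) (.cons (.br (nat_lit 7) (nat_lit 1) (.cons (.rf (nat_lit 6046) (nat_lit 493858305440582043680)) (.cons (.rf (nat_lit 6047) (nat_lit 493858305440582043680)) (.cons (.br (nat_lit 7) (nat_lit 1) (.cons (.rf (nat_lit 6046) (nat_lit 493858305440582043680)) (.cons (.rf (nat_lit 6047) (nat_lit 493858305440582043680)) .nil))) .nil)))) .nil))))),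
 (.br (nat_lit 2) (nat_lit 1) (.cons (.br (nat_lit 8) (nat_lit 1) (.cons (.kr (nat_lit 1) (nat_lit 72057594037927936) (nat_lit 0) (nat_lit 1)) (.cons (.rf (nat_lit 6045) (nat_lit 493858305440582043680)) (.cons (.rf (nat_lit 1343) (nat_lit 387891573057)) (.cons (.rf (nat_lit 6045) (nat_lit 420143386739781765152)) .nil))))) (.cons (.rf (nat_lit 6043) (nat_lit 493858304375430153280)) (.cons (.rf (nat_lit 6048) (nat_lit 493858305440582043680)) (.cons (.rf (nat_lit 5676) (nat_lit 14681620356130)) (.cons (.rf (nat_lit 6048) (nat_lit 420143386739781765152)) .nil)))))),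
 (.br (nat_lit 7) (nat_lit 1) (.cons (.br (nat_lit 8) (nat_lit 1) (.cons (.ev (nat_lit 20680103885919716277229816185092) (nat_lit 3)) .nil)) .nil)),
 (.br (nat_lit 11) (nat_lit 1) (.cons (.rf (nat_lit 5177) (nat_lit 12255987754)) (.cons (.zr (nat_lit 79537647524158584694172090368) (nat_lit 9444732973435871821826) (nat_lit 10) (nat_lit 3)) .nil))),
 (.br (nat_lit 7) (nat_lit 1) (.cons (.rf (nat_lit 6051) (nat_lit 493858305440582043680)) (.cons (.rf (nat_lit 6051) (nat_lit 417839795530381756448)) .nil))),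
 (.br (nat_lit 8) (nat_lit 1) (.cons (.rf (nat_lit 6052) (nat_lit 493858305440582043680)) (.cons (.rf (nat_lit 5187) (nat_lit 396065142572361)) (.cons (.br (nat_lit 7) (nat_lit 1) (.cons (.rf (nat_lit 6052) (nat_lit 493858305440582043680)) (.cons (.zr (nat_lit 216177180160491520) (nat_lit 40564821629877346841501785653249) (nat_lit 5) (nat_lit 0)) .nil))) .nil)))),
 (.br (nat_lit 2) (nat_lit 1) (.cons (.br (nat_lit 12) (nat_lit 1) (.cons (.rf (nat_lit 58) (nat_lit 7735338)) (.cons (.rf (nat_lit 6049) (nat_lit 491554714231182034976)) (.cons (.rf (nat_lit 1343) (nat_lit 275249344833)) (.cons (.rf (nat_lit 2305) (nat_lit 9048825432106)) .nil))))) (.cons (.br (nat_lit 12) (nat_lit 1) (.cons (.rf (nat_lit 6043) (nat_lit 491554714231182034976)) (.cons (.rf (nat_lit 6043) (nat_lit 491554713166030144576)) (.cons (.br (nat_lit 11) (nat_lit 1) (.cons (.rf (nat_lit 84) (nat_lit 8836395330)) (.cons (.rf (nat_lit 84) (nat_lit 7796240705)) (.cons (.br (nat_lit 7) (nat_lit 1) (.cons (.rf (nat_lit 6050)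 (nat_lit 493858305440582043680)) (.cons (.br (nat_lit 7) (nat_lit 1) (.cons (.rf (nat_lit 6050) (nat_lit 493858305440582043680)) .nil)) .nil))) .nil)))) (.cons (.br (nat_lit 7) (nat_lit 1) (.cons (.rf (nat_lit 6052) (nat_lit 493858305440582043680)) (.cons (.rf (nat_lit 6053) (nat_lit 493858305440582043680)) (.cons (.rf (nat_lit 6053) (nat_lit 417839795530381756448)) .nil)))) .nil))))) (.cons (.rf (nat_lit 6043) (nat_lit 309246438491058963529)) (.cons (.rf (nat_lit 6039) (nat_lit 491554714231182034976)) (.cons (.rf (nat_lit 6049) (nat_lit 309246436360755184713)) .nil)))))),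
 (.br (nat_lit 10) (nat_lit 1) (.cons (.rf (nat_lit 6039) (nat_lit 493858305440582043680)) (.cons (.rf (nat_lit 6043) (nat_lit 493858305440582043680)) (.cons (.rf (nat_lit 6049) (nat_lit 493858305440582043680)) (.cons (.rf (nat_lit 6054) (nat_lit 493858305440582043680)) (.cons (.kr (nat_lit 1099511627776) (nat_lit 79228162514264337593543950336) (nat_lit 5) (nat_lit 0)) (.cons (.rf (nat_lit 6054) (nat_lit 420143386739781765152)) .nil))))))),
 (.br (nat_lit 2) (nat_lit 1) (.cons (.rf (nat_lit 6055) (nat_lit 493858305440582042688)) (.cons (.rf (nat_lit 6055) (nat_lit 493858304375430153280)) (.cons (.rf (nat_lit 6055) (nat_lit 309246438491058963529)) (.cons (.kr (nat_lit 79228162514264337593543950592) (nat_lit 1208925819614629174771712) (nat_lit 1) (nat_lit 0)) (.cons (.rf (nat_lit 6055) (nat_lit 309246436360755184713)) .nil)))))),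
 (.br (nat_lit 10) (nat_lit 0) (.cons (.br (nat_lit 4) (nat_lit 1) (.cons (.br (nat_lit 12) (nat_lit 0) (.cons (.br (nat_lit 1) (nat_lit 1) (.cons (.kr (nat_lit 256) (nat_lit 65536) (nat_lit 1) (nat_lit 0)) (.cons (.rf (nat_lit 6055) (nat_lit 493858305440582043680)) (.cons (.rf (nat_lit 6055) (nat_lit 493858304375430154272)) (.cons (.rf (nat_lit 6056) (nat_lit 493858305440582043680)) (.cons (.rf (nat_lit 6055) (nat_lit 309246438491058964521)) (.cons (.rf (nat_lit 6056) (nat_lit 491554714231182034976)) (.cons (.rf (nat_lit 6055) (nat_lit 309246436360755185705)) .nil)))))))) .nil)) .nil)) .nil)),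
 (.br (nat_lit 10) (nat_lit 0) (.cons (.br (nat_lit 10) (nat_lit 0) .nil) .nil)),
 (.br (nat_lit 12) (nat_lit 0) .nil),
 (.br (nat_lit 11) (nat_lit 0) (.cons (.br (nat_lit 12) (nat_lit 1) (.cons (.rf (nat_lit 6059) (nat_lit 15431909825759512608)) .nil)) .nil)),
 (.br (nat_lit 8) (nat_lit 1) (.cons (.br (nat_lit 8) (nat_lit 1) (.cons (.rf (nat_lit 31) (nat_lit 276145217)) (.cons (.rf (nat_lit 6060) (nat_lit 407901468851537952)) .nil))) (.cons (.rf (nat_lit 31) (nat_lit 276145217)) (.cons (.rf (nat_lit 6060) (nat_lit 407901468851537952)) .nil)))),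
 (.br (nat_lit 11) (nat_lit 0) (.cons (.rf (nat_lit 6059) (nat_lit 13126066816545818656)) .nil)),
 (.br (nat_lit 7) (nat_lit 1) (.cons (.rf (nat_lit 6061) (nat_lit 11584701642934304)) (.cons (.br (nat_lit 7) (nat_lit 1) (.cons (.rf (nat_lit 6061) (nat_lit 11584701642934304)) (.cons (.rf (nat_lit 6062) (nat_lit 407901468851537952)) (.cons (.rf (nat_lit 6060) (nat_lit 407901468851537952)) .nil)))) (.cons (.rf (nat_lit 6062) (nat_lit 407901468851537952)) (.cons (.rf (nat_lit 6060) (nat_lit 407901468851537952)) .nil)))))]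

theorem c209 : chkAll C T R L209 (nat_lit 6031) = true := by decide +kernel

theorem l209 : (nat_lit 6031) + L209.length = (nat_lit 6064) := by decide +kernel

/-- part of the certificates -/
def L210 : List Prf := [(.br (nat_lit 8) (nat_lit 1) (.cons (.rf (nat_lit 6063) (nat_lit 11584701642934304)) (.cons (.br (nat_lit 8) (nat_lit 1) (.cons (.rf (nat_lit 6063) (nat_lit 11584701642934304)) (.cons (.rf (nat_lit 6062) (nat_lit 407901468851537952)) (.cons (.rf (nat_lit 6060) (nat_lit 407901468851537952)) .nil)))) (.cons (.rf (nat_lit 6062) (nat_lit 407901468851537952)) (.cons (.rf (nat_lit 6060) (nat_lit 407901468851537952)) .nil))))),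
 (.br (nat_lit 7) (nat_lit 1) (.cons (.rf (nat_lit 6063) (nat_lit 11584701642934304)) (.cons (.rf (nat_lit 6064) (nat_lit 11584701642934304)) (.cons (.br (nat_lit 7) (nat_lit 1) (.cons (.rf (nat_lit 6063) (nat_lit 11584701642934304)) (.cons (.rf (nat_lit 6064) (nat_lit 11584701642934304)) (.cons (.rf (nat_lit 6062) (nat_lit 407901468851537952)) (.cons (.rf (nat_lit 6060) (nat_lit 407901468851537952)) .nil))))) (.cons (.rf (nat_lit 6062) (nat_lit 407901468851537952)) (.cons (.rf (nat_lit 6060) (nat_lit 407901468851537952)) .nil)))))),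
 (.br (nat_lit 7) (nat_lit 1) (.cons (.ev (nat_lit 4722366483973468586241) (nat_lit 1)) (.cons (.br (nat_lit 8) (nat_lit 1) (.cons (.ev (nat_lit 4740885566012369469441) (nat_lit 1)) (.cons (.br (nat_lit 9) (nat_lit 1) (.cons (.ev (nat_lit 1208925891672227507667201) (nat_lit 1)) (.cons (.rf (nat_lit 31) (nat_lit 275810665)) (.cons (.rf (nat_lit 6060) (nat_lit 407901468851537952)) .nil)))) (.cons (.rf (nat_lit 2594) (nat_lit 8927815009)) (.cons (.rf (nat_lit 6060) (nat_lit 407901468851537952)) .nil))))) (.cons (.rf (nat_lit 1339) (nat_lit 285925021730)) (.cons (.rf (nat_lit 6060) (nat_lit 407901468851537952)) .nil))))),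
 (.br (nat_lit 7) (nat_lit 1) (.cons (.rf (nat_lit 6066) (nat_lit 11584701642934304)) (.cons (.ev (nat_lit 4722366483973468586241) (nat_lit 1)) (.cons (.br (nat_lit 7) (nat_lit 1) (.cons (.rf (nat_lit 6066) (nat_lit 11584701642934304)) (.cons (.ev (nat_lit 72339073309671424) (nat_lit 1)) (.cons (.rf (nat_lit 6062) (nat_lit 407901468851537952)) (.cons (.rf (nat_lit 6060) (nat_lit 407901468851537952)) .nil))))) (.cons (.rf (nat_lit 6062) (nat_lit 407901468851537952)) (.cons (.rf (nat_lit 6060) (nat_lit 407901468851537952)) .nil)))))),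
 (.br (nat_lit 8) (nat_lit 1) (.cons (.rf (nat_lit 6067) (nat_lit 11584701642934304)) (.cons (.br (nat_lit 8) (nat_lit 1) (.cons (.rf (nat_lit 6067) (nat_lit 11584701642934304)) (.cons (.ev (nat_lit 4740813508418331541504) (nat_lit 1)) (.cons (.rf (nat_lit 1339) (nat_lit 251297896521)) (.cons (.rf (nat_lit 6060) (nat_lit 407901468851537952)) .nil))))) (.cons (.br (nat_lit 8) (nat_lit 1) (.cons (.rf (nat_lit 6067) (nat_lit 11584701642934304)) (.cons (.ev (nat_lit 4740813508418331541504) (nat_lit 1)) (.cons (.rf (nat_lit 6062) (nat_lit 407901468851537952)) (.cons (.rf (nat_lit 6060) (nat_lit 407901468851537952)) .nil))))) (.cons (.rf (nat_lit 6062) (nat_lit 407901468851537952)) (.cons (.rf (nat_lit 6060) (nat_lit 407901468851537952)) .nil)))))),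
 (.br (nat_lit 7) (nat_lit 1) (.cons (.ev (nat_lit 4722366483973468586241) (nat_lit 1)) (.cons (.rf (nat_lit 6068) (nat_lit 11584701642934304)) (.cons (.br (nat_lit 7) (nat_lit 1) (.cons (.ev (nat_lit 4722366483973468586241) (nat_lit 1)) (.cons (.rf (nat_lit 6068) (nat_lit 11584701642934304)) (.cons (.rf (nat_lit 6062) (nat_lit 407901468851537952)) (.cons (.rf (nat_lit 6060) (nat_lit 407901468851537952)) .nil))))) (.cons (.rf (nat_lit 6062) (nat_lit 407901468851537952)) (.cons (.rf (nat_lit 6060) (nat_lit 407901468851537952)) .nil)))))),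
 (.br (nat_lit 8) (nat_lit 1) (.cons (.rf (nat_lit 6067) (nat_lit 11584701642934304)) (.cons (.rf (nat_lit 6068) (nat_lit 11584701642934304)) (.cons (.rf (nat_lit 6069) (nat_lit 11584701642934304)) (.cons (.br (nat_lit 8) (nat_lit 1) (.cons (.rf (nat_lit 6067) (nat_lit 11584701642934304)) (.cons (.rf (nat_lit 6068) (nat_lit 11584701642934304)) (.cons (.rf (nat_lit 6069) (nat_lit 11584701642934304)) (.cons (.rf (nat_lit 6062) (nat_lit 407901468851537952)) (.cons (.rf (nat_lit 6060) (nat_lit 407901468851537952)) .nil)))))) (.cons (.rf (nat_lit 6062) (nat_lit 407901468851537952)) (.cons (.rf (nat_lit 6060) (nat_lit 407901468851537952)) .nil))))))),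
 (.br (nat_lit 8) (nat_lit 1) (.cons (.ev (nat_lit 4722366483973468586241) (nat_lit 1)) (.cons (.br (nat_lit 8) (nat_lit 1) (.cons (.ev (nat_lit 4722366483973468586241) (nat_lit 1)) (.cons (.rf (nat_lit 6062) (nat_lit 407901468851537952)) (.cons (.rf (nat_lit 6060) (nat_lit 407901468851537952)) .nil)))) (.cons (.rf (nat_lit 6062) (nat_lit 407901468851537952)) (.cons (.rf (nat_lit 6060) (nat_lit 407901468851537952)) .nil))))),
 (.br (nat_lit 8) (nat_lit 1) (.cons (.rf (nat_lit 6071) (nat_lit 11584701642934304)) (.cons (.ev (nat_lit 4722366483973468586241) (nat_lit 1)) (.cons (.br (nat_lit 8) (nat_lit 1) (.cons (.rf (nat_lit 6071) (nat_lit 11584701642934304)) (.cons (.ev (nat_lit 4722366483973468586241) (nat_lit 1)) (.cons (.rf (nat_lit 6062) (nat_lit 407901468851537952)) (.cons (.rf (nat_lit 6060) (nat_lit 407901468851537952)) .nil))))) (.cons (.rf (nat_lit 6062) (nat_lit 407901468851537952)) (.cons (.rf (nat_lit 6060) (nat_lit 407901468851537952)) .nil)))))),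
 (.br (nat_lit 8) (nat_lit 1) (.cons (.ev (nat_lit 4722366483973468586241) (nat_lit 1)) (.cons (.br (nat_lit 8) (nat_lit 1) (.cons (.ev (nat_lit 4722366483973468586241) (nat_lit 1)) (.cons (.rf (nat_lit 6062) (nat_lit 407901468851537952)) (.cons (.rf (nat_lit 6060) (nat_lit 407901468851537952)) .nil)))) (.cons (.rf (nat_lit 6062) (nat_lit 407901468851537952)) (.cons (.rf (nat_lit 6060) (nat_lit 407901468851537952)) .nil))))),
 (.br (nat_lit 7) (nat_lit 1) (.cons (.rf (nat_lit 6072) (nat_lit 11584701642934304)) (.cons (.rf (nat_lit 6073) (nat_lit 11584701642934304)) (.cons (.br (nat_lit 7) (nat_lit 1) (.cons (.rf (nat_lit 6072) (nat_lit 11584701642934304)) (.cons (.rf (nat_lit 6073) (nat_lit 11584701642934304)) (.cons (.rf (nat_lit 6062) (nat_lit 407901468851537952)) (.cons (.rf (nat_lit 6060) (nat_lit 407901468851537952)) .nil))))) (.cons (.rf (nat_lit 6062) (nat_lit 407901468851537952)) (.cons (.rf (nat_lit 6060) (nat_lit 407901468851537952)) .nil)))))),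
 (.br (nat_lit 8) (nat_lit 1) (.cons (.ev (nat_lit 4722366483973468586241) (nat_lit 1)) (.cons (.rf (nat_lit 6074) (nat_lit 11584701642934304)) (.cons (.br (nat_lit 8) (nat_lit 1) (.cons (.ev (nat_lit 4722366483973468586241) (nat_lit 1)) (.cons (.rf (nat_lit 6074) (nat_lit 11584701642934304)) (.cons (.rf (nat_lit 6062) (nat_lit 407901468851537952)) (.cons (.rf (nat_lit 6060) (nat_lit 407901468851537952)) .nil))))) (.cons (.rf (nat_lit 6062) (nat_lit 407901468851537952)) (.cons (.rf (nat_lit 6060) (nat_lit 407901468851537952)) .nil)))))),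
 (.br (nat_lit 6) (nat_lit 1) (.cons (.rf (nat_lit 6058) (nat_lit 11584701642934304)) (.cons (.br (nat_lit 2) (nat_lit 1) (.cons (.rf (nat_lit 6065) (nat_lit 11584701642934304)) (.cons (.rf (nat_lit 6070) (nat_lit 11584701642934304)) (.cons (.rf (nat_lit 6070) (nat_lit 11583636491044896)) (.cons (.kr (nat_lit 4294967296) (nat_lit 4722366482869645213696) (nat_lit 4) (nat_lit 0)) (.cons (.br (nat_lit 7) (nat_lit 1) (.cons (.rf (nat_lit 6072) (nat_lit 11584701642934304)) (.cons (.rf (nat_lit 6074) (nat_lit 11584701642934304)) (.cons (.rf (nat_lit 6075) (nat_lit 11584701642934304)) (.cons (.br (nat_lit 7) (nat_lit 1) (.cons (.rf (nat_lit 6072) (nat_lit 11584701642934304)) (.cons (.rf (nat_lit 6074) (nat_lit 11584701642934304)) (.cons (.rf (nat_lit 6075) (nat_lit 11584701642934304)) (.cons (.rf (nat_lit 6062) (nat_lit 407901468851537952)) (.cons (.rf (nat_lit 6060) (nat_lit 407901468851537952)) .nil)))))) (.cons (.rf (nat_lit 6062) (nat_lit 407901468851537952)) (.cons (.rf (nat_lit 6060) (nat_lit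 407901468851537952)) .nil))))))) (.cons (.rf (nat_lit 6062) (nat_lit 407901468851537952)) (.cons (.rf (nat_lit 6060) (nat_lit 407901468851537952)) .nil)))))))) .nil))),
 (.br (nat_lit 12) (nat_lit 1) (.cons (.ev (nat_lit 79228167236630820467500974336) (nat_lit 1)) (.cons (.ev (nat_lit 79537647524085965236757135616) (nat_lit 1)) (.cons (.zr (nat_lit 2417851639229258349609728) (nat_lit 158456325028528957765887983617) (nat_lit 5) (nat_lit 0)) .nil)))),
 (.br (nat_lit 8) (nat_lit 1) (.cons (.rf (nat_lit 2594) (nat_lit 7921216801)) (.cons (.rf (nat_lit 82) (nat_lit 13128477761)) (.cons (.br (nat_lit 7) (nat_lit 1) (.cons (.ev (nat_lit 72058693566333184) (nat_lit 1)) (.cons (.rf (nat_lit 6077) (nat_lit 493858305440582043680)) (.cons (.rf (nat_lit 6077) (nat_lit 458117738797769787424)) .nil)))) .nil)))),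
 (.br (nat_lit 8) (nat_lit 1) (.cons (.rf (nat_lit 4982) (nat_lit 284954952779)) (.cons (.rf (nat_lit 1343) (nat_lit 423332392001)) (.cons (.rf (nat_lit 6078) (nat_lit 493858305440582043680)) (.cons (.rf (nat_lit 6078) (nat_lit 458117738797769787424)) .nil))))),
 (.br (nat_lit 8) (nat_lit 1) (.cons (.ev (nat_lit 79228167236630820467500974336) (nat_lit 1)) (.cons (.zr (nat_lit 14222439685228110807040) (nat_lit 620178945606701433988579329) (nat_lit 5) (nat_lit 4)) .nil))),
 (.br (nat_lit 7) (nat_lit 1) (.cons (.rf (nat_lit 6080) (nat_lit 493858305440582043680)) (.cons (.rf (nat_lit 6080) (nat_lit 458045751570263607328)) .nil))),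
 (.br (nat_lit 7) (nat_lit 1) (.cons (.rf (nat_lit 6081) (nat_lit 493858305440582043680)) (.cons (.ev (nat_lit 309489732260167011679600896) (nat_lit 1)) .nil))),
 (.br (nat_lit 11) (nat_lit 1) (.cons (.rf (nat_lit 6079) (nat_lit 493786318213075863584)) (.cons (.rf (nat_lit 6079) (nat_lit 493786317146882769984)) (.cons (.rf (nat_lit 2305) (nat_lit 14713562082593)) (.cons (.br (nat_lit 7) (nat_lit 1) (.cons (.rf (nat_lit 6081) (nat_lit 493858305440582043680)) (.cons (.rf (nat_lit 6082) (nat_lit 493858305440582043680)) (.cons (.rf (nat_lit 6082) (nat_lit 458045751570263607328)) .nil)))) .nil))))),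
 (.br (nat_lit 9) (nat_lit 1) (.cons (.rf (nat_lit 6079) (nat_lit 493858305440582043680)) (.cons (.rf (nat_lit 6079) (nat_lit 493858304374388950080)) (.cons (.rf (nat_lit 5676) (nat_lit 14716784352297)) (.cons (.rf (nat_lit 6083) (nat_lit 493858305440582043680)) (.cons (.rf (nat_lit 6083) (nat_lit 458117738797769787424)) .nil)))))),
 (.br (nat_lit 7) (nat_lit 1) (.cons (.rf (nat_lit 84) (nat_lit 13160983586)) (.cons (.br (nat_lit 8) (nat_lit 1) (.cons (.rf (nat_lit 84) (nat_lit 13128215842)) (.cons (.rf (nat_lit 5177) (nat_lit 13329736738)) (.cons (.br (nat_lit 12) (nat_lit 1) (.cons (.ev (nat_lit 309489732260167011679600896) (nat_lit 1)) (.cons (.ev (nat_lit 158457538695378533975301686019) (nat_lit 2)) .nil))) .nil)))) (.cons (.br (nat_lit 11) (nat_lit 1) (.cons (.rf (nat_lit 84) (nat_lit 13128215842)) (.cons (.br (nat_lit 8) (nat_lit 1) (.cons (.ev (nat_lit 159076518196647677999460647169) (nat_lit 2)) (.cons (.ev (nat_lit 310693954087703775920783361) (nat_lit 1)) .nil))) (.cons (.ev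 (nat_lit 309489732260167011679600896) (nat_lit 1)) .nil)))) .nil)))),
 (.br (nat_lit 2) (nat_lit 1) (.cons (.kr (nat_lit 1) (nat_lit 72057594037927936) (nat_lit 0) (nat_lit 1)) (.cons (.rf (nat_lit 4982) (nat_lit 250595248171)) (.cons (.ev (nat_lit 309489732188109417641672961) (nat_lit 1)) (.cons (.rf (nat_lit 6085) (nat_lit 493858305440582043680)) (.cons (.rf (nat_lit 6085) (nat_lit 458117738797769787424)) .nil)))))),
 (.br (nat_lit 11) (nat_lit 1) (.cons (.ev (nat_lit 79538861190718525334326673408) (nat_lit 1)) (.cons (.zr (nat_lit 928469196779656597223768064) (nat_lit 1208962713385355393892353) (nat_lit 5) (nat_lit 10)) .nil))),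
 (.br (nat_lit 7) (nat_lit 1) (.cons (.ev (nat_lit 1213666705181741055737856) (nat_lit 1)) (.cons (.rf (nat_lit 6087) (nat_lit 493858305440582043680)) (.cons (.rf (nat_lit 6087) (nat_lit 458117738797769787424)) .nil)))),
 (.br (nat_lit 11) (nat_lit 1) (.cons (.rf (nat_lit 82) (nat_lit 9000234018)) (.cons (.zr (nat_lit 928469196563483815109984258) (nat_lit 1208962713385355393892352) (nat_lit 5) (nat_lit 10)) .nil))),
 (.br (nat_lit 12) (nat_lit 1) (.cons (.ev (nat_lit 79229371458530977775699951616) (nat_lit 1)) (.cons (.rf (nat_lit 6089) (nat_lit 493858305440582043680)) (.cons (.rf (nat_lit 6089) (nat_lit 493786318213075863584)) (.cons (.ev (nat_lit 79229371440083953322247061761) (nat_lit 1)) .nil))))),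
 (.br (nat_lit 8) (nat_lit 1) (.cons (.rf (nat_lit 6084) (nat_lit 493858305440582043680)) (.cons (.rf (nat_lit 6086) (nat_lit 493858305440582043680)) (.cons (.rf (nat_lit 6086) (nat_lit 493786318213075863584)) (.cons (.br (nat_lit 2) (nat_lit 1) (.cons (.kr (nat_lit 1) (nat_lit 72057594037927936) (nat_lit 0) (nat_lit 1)) (.cons (.rf (nat_lit 6088) (nat_lit 493858305440582043680)) (.cons (.rf (nat_lit 6088) (nat_lit 493786318213075863584)) (.cons (.rf (nat_lit 6090) (nat_lit 493858305440582043680)) (.cons (.rf (nat_lit 6090) (nat_lit 458117738797769787424)) .nil)))))) .nil))))),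
 (.br (nat_lit 8) (nat_lit 1) (.cons (.rf (nat_lit 6084) (nat_lit 493858305440582043680)) (.cons (.rf (nat_lit 6086) (nat_lit 493858305440582043680)) (.cons (.rf (nat_lit 6086) (nat_lit 493786318213075863584)) (.cons (.rf (nat_lit 6091) (nat_lit 493858305440582043680)) (.cons (.rf (nat_lit 6091) (nat_lit 458117738797769787424)) .nil)))))),
 (.br (nat_lit 8) (nat_lit 1) (.cons (.ev (nat_lit 311907639311967564467340035) (nat_lit 2)) (.cons (.ev (nat_lit 18519083147019223041) (nat_lit 1)) .nil))),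
 (.br (nat_lit 7) (nat_lit 1) (.cons (.rf (nat_lit 82) (nat_lit 13161039913)) (.cons (.rf (nat_lit 2594) (nat_lit 8993868137)) (.cons (.br (nat_lit 2) (nat_lit 1) (.cons (.ev (nat_lit 18447025552981295104) (nat_lit 1)) (.cons (.rf (nat_lit 6093) (nat_lit 493858305440582043680)) (.cons (.rf (nat_lit 6093) (nat_lit 458117738797769787424)) .nil)))) .nil)))),
 (.br (nat_lit 7) (nat_lit 1) (.cons (.rf (nat_lit 1343) (nat_lit 423325052193)) (.cons (.rf (nat_lit 4982) (nat_lit 252742738978)) (.cons (.rf (nat_lit 6094) (nat_lit 493858305440582043680)) (.cons (.rf (nat_lit 6094) (nat_lit 458117738797769787424)) .nil))))),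
 (.br (nat_lit 12) (nat_lit 1) (.cons (.ev (nat_lit 20282409608392483933465094389761) (nat_lit 1)) .nil)),
 (.br (nat_lit 2) (nat_lit 1) (.cons (.br (nat_lit 7) (nat_lit 1) (.cons (.ev (nat_lit 79850768774618486761955852544) (nat_lit 2)) (.cons (.rf (nat_lit 6096) (nat_lit 493858305440582043680)) .nil))) (.cons (.rf (nat_lit 84) (nat_lit 7797517377)) (.cons (.br (nat_lit 12) (nat_lit 1) (.cons (.br (nat_lit 7) (nat_lit 1) (.cons (.ev (nat_lit 20837937628429212122578761614598) (nat_lit 3)) .nil)) (.cons (.ev (nat_lit 20282410812577490039675954397441) (nat_lit 1)) .nil))) .nil)))),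
 (.br (nat_lit 8) (nat_lit 1) (.cons (.rf (nat_lit 6084) (nat_lit 493858305440582043680)) (.cons (.rf (nat_lit 6092) (nat_lit 493858305440582043680)) (.cons (.rf (nat_lit 6095) (nat_lit 493858305440582043680)) (.cons (.br (nat_lit 11) (nat_lit 1) (.cons (.ev (nat_lit 309489732188109417641672961) (nat_lit 1)) (.cons (.ev (nat_lit 310693954087703775920783361) (nat_lit 1)) (.cons (.rf (nat_lit 6097) (nat_lit 493858305440582043680)) (.cons (.rf (nat_lit 6097) (nat_lit 458117738797769787424)) .nil))))) .nil))))),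
 (.br (nat_lit 8) (nat_lit 1) (.cons (.rf (nat_lit 6084) (nat_lit 493858305440582043680)) (.cons (.rf (nat_lit 6092) (nat_lit 493858305440582043680)) (.cons (.rf (nat_lit 6095) (nat_lit 493858305440582043680)) (.cons (.rf (nat_lit 6098) (nat_lit 493858305440582043680)) (.cons (.rf (nat_lit 6098) (nat_lit 458117738797769787424)) .nil))))))]

theorem c210 : chkAll C T R L210 (nat_lit 6064) = true := by decide +kernel

theorem l210 : (nat_lit 6064) + L210.length = (nat_lit 6100) := by decide +kernel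

/-- part of the certificates -/
def L211 : List Prf := [(.br (nat_lit 8) (nat_lit 1) (.cons (.rf (nat_lit 6084) (nat_lit 493858305440582043680)) (.cons (.rf (nat_lit 6092) (nat_lit 493858305440582043680)) (.cons (.rf (nat_lit 6099) (nat_lit 493858305440582043680)) (.cons (.rf (nat_lit 6099) (nat_lit 493786318213075863584)) (.cons (.br (nat_lit 8) (nat_lit 1) (.cons (.rf (nat_lit 6084) (nat_lit 493858305440582043680)) (.cons (.rf (nat_lit 6092) (nat_lit 493858305440582043680)) (.cons (.rf (nat_lit 6099) (nat_lit 493858305440582043680)) (.cons (.rf (nat_lit 6099) (nat_lit 493786318213075863584)) .nil))))) .nil)))))),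
 (.br (nat_lit 8) (nat_lit 1) (.cons (.rf (nat_lit 6084) (nat_lit 493858305440582043680)) (.cons (.rf (nat_lit 6092) (nat_lit 493858305440582043680)) (.cons (.rf (nat_lit 6099) (nat_lit 493858305440582043680)) (.cons (.rf (nat_lit 6099) (nat_lit 493786318213075863584)) (.cons (.rf (nat_lit 6100) (nat_lit 493858305440582043680)) (.cons (.rf (nat_lit 6100) (nat_lit 458117738797769787424)) .nil))))))),
 (.br (nat_lit 8) (nat_lit 1) (.cons (.ev (nat_lit 79229371440084233701990400001) (nat_lit 1)) (.cons (.br (nat_lit 12) (nat_lit 1) (.cons (.ev (nat_lit 21004443066863203575758289830684) (nat_lit 5)) .nil)) .nil))),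
 (.br (nat_lit 2) (nat_lit 1) (.cons (.rf (nat_lit 84) (nat_lit 13161047105)) (.cons (.rf (nat_lit 84) (nat_lit 13128477761)) (.cons (.br (nat_lit 7) (nat_lit 1) (.cons (.ev (nat_lit 79228167236702878061538902273) (nat_lit 1)) (.cons (.br (nat_lit 8) (nat_lit 1) (.cons (.ev (nat_lit 79537647542532709310466687233) (nat_lit 1)) (.cons (.br (nat_lit 12) (nat_lit 1) (.cons (.ev (nat_lit 20837323484631220876311814799620) (nat_lit 3)) .nil)) .nil))) .nil))) (.cons (.br (nat_lit 7) (nat_lit 1) (.cons (.rf (nat_lit 6102) (nat_lit 493858305440582043680)) (.cons (.rf (nat_lit 6102) (nat_lit 458117738796728583232)) .nil))) .nil))))),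
 (.br (nat_lit 1) (nat_lit 1) (.cons (.ev (nat_lit 309489732188109417641672961) (nat_lit 1)) (.cons (.rf (nat_lit 4982) (nat_lit 284954953058)) (.cons (.rf (nat_lit 4982) (nat_lit 252742731042)) (.cons (.rf (nat_lit 6103) (nat_lit 493858305440582043680)) (.cons (.rf (nat_lit 6103) (nat_lit 458117738797769787424)) .nil)))))),
 (.br (nat_lit 2) (nat_lit 1) (.cons (.rf (nat_lit 82) (nat_lit 9000004897)) (.cons (.br (nat_lit 12) (nat_lit 1) (.cons (.ev (nat_lit 20363190050622602818057606071558) (nat_lit 3)) .nil)) .nil))),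
 (.br (nat_lit 12) (nat_lit 1) (.cons (.ev (nat_lit 79229371458530697395956613376) (nat_lit 1)) (.cons (.ev (nat_lit 79229371458530977775699951616) (nat_lit 1)) (.cons (.br (nat_lit 1) (nat_lit 1) (.cons (.ev (nat_lit 621387908319807517707272960) (nat_lit 2)) (.cons (.br (nat_lit 2) (nat_lit 1) (.cons (.ev (nat_lit 310693954160043940135371008) (nat_lit 1)) .nil)) .nil))) (.cons (.br (nat_lit 1) (nat_lit 1) (.cons (.ev (nat_lit 79229371440084233701990400001) (nat_lit 1)) (.cons (.br (nat_lit 2) (nat_lit 1) (.cons (.zr (nat_lit 79228162514480510375657931520) (nat_lit 1208981160129429103443969) (nat_lit 5) (nat_lit 0)) .nil)) (.cons (.br (nat_lit 2) (nat_lit 1) (.cons (.zr (nat_lit 79228162514480510375657931520) (nat_lit 1208981160129429103443969) (nat_lit 5) (nat_lit 0)) .nil)) .nil)))) .nil))))),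
 (.br (nat_lit 8) (nat_lit 1) (.cons (.rf (nat_lit 6101) (nat_lit 493858304375430154272)) (.cons (.rf (nat_lit 6101) (nat_lit 493858304374388950080)) (.cons (.rf (nat_lit 6104) (nat_lit 493858305440582043680)) (.cons (.br (nat_lit 7) (nat_lit 1) (.cons (.rf (nat_lit 6101) (nat_lit 493858305440582043680)) (.cons (.rf (nat_lit 6101) (nat_lit 493858305439540839488)) (.cons (.br (nat_lit 1) (nat_lit 1) (.cons (.rf (nat_lit 29) (nat_lit 7709761)) (.cons (.rf (nat_lit 6105) (nat_lit 493858305440582043680)) (.cons (.rf (nat_lit 6105) (nat_lit 458117738797769787424)) .nil)))) (.cons (.rf (nat_lit 6106) (nat_lit 493858305440582043680)) (.cons (.rf (nat_lit 6106) (nat_lit 458117738797769787424)) .nil)))))) .nil))))),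
 (.br (nat_lit 8) (nat_lit 1) (.cons (.rf (nat_lit 6101) (nat_lit 493858304375430154272)) (.cons (.rf (nat_lit 6101) (nat_lit 493858304374388950080)) (.cons (.rf (nat_lit 6104) (nat_lit 493858305440582043680)) (.cons (.rf (nat_lit 6107) (nat_lit 493858305440582043680)) (.cons (.rf (nat_lit 6107) (nat_lit 458117738797769787424)) .nil)))))),
 (.br (nat_lit 8) (nat_lit 1) (.cons (.rf (nat_lit 6101) (nat_lit 493858304375430154272)) (.cons (.rf (nat_lit 6101) (nat_lit 493858304374388950080)) (.cons (.rf (nat_lit 6108) (nat_lit 493858304375430154272)) (.cons (.rf (nat_lit 6108) (nat_lit 493786317147923974176)) (.cons (.kr (nat_lit 72057594037927936) (nat_lit 18446744073709551616) (nat_lit 7) (nat_lit 0)) .nil)))))),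
 (.br (nat_lit 7) (nat_lit 1) (.cons (.rf (nat_lit 6101) (nat_lit 493858305440582043680)) (.cons (.rf (nat_lit 6101) (nat_lit 493858305439540839488)) (.cons (.rf (nat_lit 6108) (nat_lit 493858305440582043680)) (.cons (.rf (nat_lit 6108) (nat_lit 493786318213075863584)) (.cons (.br (nat_lit 8) (nat_lit 1) (.cons (.rf (nat_lit 6101) (nat_lit 493858304375430154272)) (.cons (.rf (nat_lit 6101) (nat_lit 493858304374388950080)) (.cons (.rf (nat_lit 6108) (nat_lit 493858304375430154272)) (.cons (.rf (nat_lit 6108) (nat_lit 493786317147923974176)) (.cons (.rf (nat_lit 6109) (nat_lit 493858305440582043680)) (.cons (.rf (nat_lit 6109) (nat_lit 458117738797769787424)) .nil))))))) .nil)))))),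
 (.br (nat_lit 7) (nat_lit 1) (.cons (.rf (nat_lit 6101) (nat_lit 493858305440582043680)) (.cons (.rf (nat_lit 6101) (nat_lit 493858305439540839488)) (.cons (.rf (nat_lit 6108) (nat_lit 493858305440582043680)) (.cons (.rf (nat_lit 6108) (nat_lit 493786318213075863584)) (.cons (.rf (nat_lit 6110) (nat_lit 493858305440582043680)) (.cons (.rf (nat_lit 6110) (nat_lit 458117738797769787424)) .nil))))))),
 (.br (nat_lit 7) (nat_lit 1) (.cons (.rf (nat_lit 6101) (nat_lit 493858305440582043680)) (.cons (.rf (nat_lit 6101) (nat_lit 493858305439540839488)) (.cons (.rf (nat_lit 6111) (nat_lit 493858305440582043680)) (.cons (.ev (nat_lit 310693935713017296249159681) (nat_lit 1)) .nil))))),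
 (.br (nat_lit 7) (nat_lit 1) (.cons (.rf (nat_lit 6101) (nat_lit 493858305440582043680)) (.cons (.rf (nat_lit 6101) (nat_lit 493858305439540839488)) (.cons (.rf (nat_lit 6111) (nat_lit 493858305440582043680)) (.cons (.rf (nat_lit 6112) (nat_lit 493858305440582043680)) (.cons (.rf (nat_lit 6112) (nat_lit 458117738797769787424)) .nil)))))),
 (.br (nat_lit 8) (nat_lit 1) (.cons (.rf (nat_lit 6101) (nat_lit 493858304375430154272)) (.cons (.rf (nat_lit 6101) (nat_lit 493858304374388950080)) (.cons (.rf (nat_lit 6111) (nat_lit 493858305440582043680)) (.cons (.rf (nat_lit 6113) (nat_lit 493858305440582043680)) (.cons (.br (nat_lit 8) (nat_lit 1) (.cons (.rf (nat_lit 6101) (nat_lit 493858304375430154272)) (.cons (.rf (nat_lit 6101) (nat_lit 493858304374388950080)) (.cons (.rf (nat_lit 6111) (nat_lit 493858305440582043680)) (.cons (.ev (nat_lit 1213666633124147017809921) (nat_lit 1)) .nil))))) .nil)))))),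
 (.br (nat_lit 8) (nat_lit 1) (.cons (.rf (nat_lit 6101) (nat_lit 493858304375430154272)) (.cons (.rf (nat_lit 6101) (nat_lit 493858304374388950080)) (.cons (.rf (nat_lit 6111) (nat_lit 493858305440582043680)) (.cons (.rf (nat_lit 6113) (nat_lit 493858305440582043680)) (.cons (.rf (nat_lit 6114) (nat_lit 493858305440582043680)) (.cons (.rf (nat_lit 6114) (nat_lit 458117738797769787424)) .nil))))))),
 (.br (nat_lit 7) (nat_lit 1) (.cons (.rf (nat_lit 6101) (nat_lit 493858305440582043680)) (.cons (.rf (nat_lit 6101) (nat_lit 493858305439540839488)) (.cons (.rf (nat_lit 6111) (nat_lit 493858305440582043680)) (.cons (.rf (nat_lit 6115) (nat_lit 493858305440582043680)) (.cons (.rf (nat_lit 6115) (nat_lit 493786318213075863584)) (.cons (.br (nat_lit 7) (nat_lit 1) (.cons (.rf (nat_lit 6101) (nat_lit 493858305440582043680)) (.cons (.rf (nat_lit 6101) (nat_lit 493858305439540839488)) (.cons (.rf (nat_lit 6111) (nat_lit 493858305440582043680)) (.cons (.rf (nat_lit 6115) (nat_lit 493858305440582043680))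 (.cons (.rf (nat_lit 6115) (nat_lit 493786318213075863584)) .nil)))))) .nil))))))),
 (.br (nat_lit 9) (nat_lit 0) (.cons (.rf (nat_lit 6076) (nat_lit 325702574508064)) (.cons (.rf (nat_lit 6076) (nat_lit 325701533303872)) (.cons (.br (nat_lit 5) (nat_lit 1) (.cons (.br (nat_lit 6) (nat_lit 1) (.cons (.br (nat_lit 11) (nat_lit 0) (.cons (.br (nat_lit 10) (nat_lit 1) (.cons (.br (nat_lit 10) (nat_lit 1) (.cons (.br (nat_lit 7) (nat_lit 1) (.cons (.rf (nat_lit 6101) (nat_lit 493858305440582043680)) (.cons (.rf (nat_lit 6101) (nat_lit 493858305439540839488)) (.cons (.rf (nat_lit 6111) (nat_lit 493858305440582043680)) (.cons (.rf (nat_lit 6115) (nat_lit 493858305440582043680)) (.cons (.rf (nat_lit 6115) (nat_lit 493786318213075863584)) (.cons (.rf (nat_lit 6116) (nat_lit 493858305440582043680)) (.cons (.rf (nat_lit 6116) (nat_lit 458117738797769787424)) .nil)))))))) .nil)) .nil)) .nil)) (.cons (.rf (nat_lit 5912) (nat_lit 365320428687648)) .nil))) (.cons (.rf (nat_lit 5912) (nat_lit 364220949597472))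 .nil))) .nil)))),
 (.br (nat_lit 12) (nat_lit 1) (.cons (.ev (nat_lit 310693954159762465175437568) (nat_lit 1)) (.cons (.zr (nat_lit 618970019642690137449759488) (nat_lit 158456325028528957765887983617) (nat_lit 5) (nat_lit 0)) .nil))),
 (.br (nat_lit 8) (nat_lit 1) (.cons (.rf (nat_lit 2594) (nat_lit 7921215777)) (.cons (.rf (nat_lit 82) (nat_lit 13128476737)) (.cons (.br (nat_lit 7) (nat_lit 1) (.cons (.ev (nat_lit 1213648258436572129526016) (nat_lit 1)) (.cons (.rf (nat_lit 6118) (nat_lit 493858305440582043680)) (.cons (.rf (nat_lit 6118) (nat_lit 458117738797769787424)) .nil)))) .nil)))),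
 (.br (nat_lit 8) (nat_lit 1) (.cons (.rf (nat_lit 4982) (nat_lit 284956001354)) (.cons (.rf (nat_lit 1343) (nat_lit 424406132801)) (.cons (.rf (nat_lit 6119) (nat_lit 493858305440582043680)) (.cons (.rf (nat_lit 6119) (nat_lit 458117738797769787424)) .nil))))),
 (.br (nat_lit 7) (nat_lit 1) (.cons (.br (nat_lit 8) (nat_lit 1) (.cons (.ev (nat_lit 79228167255149903610208387328) (nat_lit 1)) (.cons (.zr (nat_lit 3640944558292496459759620) (nat_lit 309485046859230983019823104) (nat_lit 5) (nat_lit 11)) .nil))) (.cons (.br (nat_lit 12) (nat_lit 1) (.cons (.zr (nat_lit 3640944558292496459759620) (nat_lit 309485046859230983019823104) (nat_lit 5) (nat_lit 11)) (.cons (.zr (nat_lit 1237940039285380274899322112) (nat_lit 40564819216748218211400668938241) (nat_lit 5) (nat_lit 0)) .nil))) .nil))),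
 (.br (nat_lit 7) (nat_lit 1) (.cons (.rf (nat_lit 6121) (nat_lit 493858305440582043680)) (.cons (.br (nat_lit 13) (nat_lit 1) (.cons (.zr (nat_lit 1237940039285380274899322112) (nat_lit 40564819216748218211400668938241) (nat_lit 5) (nat_lit 0)) (.cons (.ev (nat_lit 20361638979814193198112924762368) (nat_lit 1)) .nil))) .nil))),
 (.br (nat_lit 10) (nat_lit 1) (.cons (.rf (nat_lit 4505) (nat_lit 303299568824583232)) (.cons (.rf (nat_lit 6120) (nat_lit 493857213658854196288)) (.cons (.rf (nat_lit 2305) (nat_lit 14713563130145)) (.cons (.br (nat_lit 7) (nat_lit 1) (.cons (.rf (nat_lit 6121) (nat_lit 493858305440582043680)) (.cons (.rf (nat_lit 6122) (nat_lit 493858305440582043680)) (.cons (.br (nat_lit 7) (nat_lit 1) (.cons (.rf (nat_lit 6121) (nat_lit 493858305440582043680)) (.cons (.rf (nat_lit 6122) (nat_lit 493858305440582043680)) .nil))) .nil)))) .nil))))),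
 (.br (nat_lit 9) (nat_lit 1) (.cons (.rf (nat_lit 6120) (nat_lit 493858305440582043680)) (.cons (.br (nat_lit 10) (nat_lit 1) (.cons (.rf (nat_lit 1343) (nat_lit 424407180353)) (.cons (.ev (nat_lit 1213666632842672057942016) (nat_lit 1)) (.cons (.rf (nat_lit 4505) (nat_lit 267271872358516768)) (.cons (.rf (nat_lit 4505) (nat_lit 266181156823762976)) .nil))))) (.cons (.rf (nat_lit 5676) (nat_lit 14717857045545)) (.cons (.rf (nat_lit 6123) (nat_lit 493858305440582043680)) (.cons (.rf (nat_lit 6123) (nat_lit 458117738797769787424)) .nil)))))),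
 (.br (nat_lit 10) (nat_lit 1) (.cons (.rf (nat_lit 84) (nat_lit 7797516353)) (.cons (.br (nat_lit 12) (nat_lit 1) (.cons (.kr (nat_lit 79229371458530696296428208384) (nat_lit 20282409608374108964410934493184) (nat_lit 1) (nat_lit 0)) .nil)) .nil))),
 (.br (nat_lit 7) (nat_lit 1) (.cons (.rf (nat_lit 84) (nat_lit 13160982562)) (.cons (.br (nat_lit 8) (nat_lit 1) (.cons (.rf (nat_lit 84) (nat_lit 13128214818)) (.cons (.ev (nat_lit 79228167255149903610208387328) (nat_lit 1)) (.cons (.br (nat_lit 10) (nat_lit 1) (.cons (.ev (nat_lit 80159044858620217201505927424) (nat_lit 2)) (.cons (.br (nat_lit 12) (nat_lit 1) (.cons (.ev (nat_lit 20838864864977297876267164959490) (nat_lit 3)) .nil)) .nil))) .nil)))) (.cons (.br (nat_lit 8) (nat_lit 1) (.cons (.rf (nat_lit 84) (nat_lit 13128214818)) (.cons (.rf (nat_lit 6125) (nat_lit 493858305440582043680)) (.cons (.br (nat_lit 13) (nat_lit 1) (.cons (.ev (nat_lit 20282719088680010852162995290113) (nat_lit 1)) (.cons (.ev (nat_lit 20282409608392483932369877795073)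 (nat_lit 1)) .nil))) .nil)))) .nil)))),
 (.br (nat_lit 2) (nat_lit 1) (.cons (.kr (nat_lit 1) (nat_lit 72057594037927936) (nat_lit 0) (nat_lit 1)) (.cons (.rf (nat_lit 4982) (nat_lit 250596296746)) (.cons (.rf (nat_lit 31) (nat_lit 276071746)) (.cons (.rf (nat_lit 6126) (nat_lit 493858305440582043680)) (.cons (.rf (nat_lit 6126) (nat_lit 458117738797769787424)) .nil)))))),
 (.br (nat_lit 7) (nat_lit 1) (.cons (.rf (nat_lit 84) (nat_lit 13161014306)) (.cons (.br (nat_lit 8) (nat_lit 1) (.cons (.rf (nat_lit 84) (nat_lit 13128214818)) (.cons (.ev (nat_lit 79229371458602754989994606848) (nat_lit 1)) (.cons (.br (nat_lit 9) (nat_lit 1) (.cons (.ev (nat_lit 80159044858620217201505927424) (nat_lit 2)) (.cons (.rf (nat_lit 1704) (nat_lit 440509452094908715)) .nil))) .nil)))) (.cons (.br (nat_lit 8) (nat_lit 1) (.cons (.rf (nat_lit 84) (nat_lit 13128214818)) (.cons (.br (nat_lit 9) (nat_lit 1) (.cons (.kr (nat_lit 4722366482869645213697) (nat_lit 79228162514264337593543950592) (nat_lit 0) (nat_lit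 2)) (.cons (.br (nat_lit 12) (nat_lit 1) (.cons (.ev (nat_lit 21474551977003789156131664888580) (nat_lit 4)) .nil)) .nil))) (.cons (.br (nat_lit 13) (nat_lit 1) (.cons (.ev (nat_lit 20282719088680010852162995290113) (nat_lit 1)) (.cons (.ev (nat_lit 20282410812595936783749664014593) (nat_lit 1)) .nil))) .nil)))) .nil)))),
 (.br (nat_lit 2) (nat_lit 1) (.cons (.kr (nat_lit 1) (nat_lit 72057594037927936) (nat_lit 0) (nat_lit 1)) (.cons (.rf (nat_lit 4982) (nat_lit 251670038569)) (.cons (.rf (nat_lit 31) (nat_lit 276104482)) (.cons (.rf (nat_lit 6128) (nat_lit 493858305440582043680)) (.cons (.rf (nat_lit 6128) (nat_lit 458117738797769787424)) .nil))))))]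

theorem c211 : chkAll C T R L211 (nat_lit 6100) = true := by decide +kernel

theorem l211 : (nat_lit 6100) + L211.length = (nat_lit 6130) := by decide +kernel

/-- part of the certificates -/
def L212 : List Prf := [(.br (nat_lit 10) (nat_lit 1) (.cons (.ev (nat_lit 79537647542604765809287954433) (nat_lit 1)) (.cons (.zr (nat_lit 3640944774465278573543424) (nat_lit 309485046715115794943967233) (nat_lit 5) (nat_lit 11)) .nil))),
 (.br (nat_lit 13) (nat_lit 1) (.cons (.zr (nat_lit 3640944774465278573543424) (nat_lit 309485046715115794943967233) (nat_lit 5) (nat_lit 11)) (.cons (.kr (nat_lit 79228162514264337593544015872) (nat_lit 1208944266358702884257792) (nat_lit 2) (nat_lit 0)) .nil))),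
 (.br (nat_lit 9) (nat_lit 1) (.cons (.br (nat_lit 10) (nat_lit 1) (.cons (.rf (nat_lit 82) (nat_lit 9000264738)) (.cons (.br (nat_lit 12) (nat_lit 1) (.cons (.ev (nat_lit 79538861190718525334326673408) (nat_lit 1)) .nil)) .nil))) (.cons (.br (nat_lit 12) (nat_lit 1) (.cons (.rf (nat_lit 31) (nat_lit 410060105)) (.cons (.zr (nat_lit 237688114320251856668155970304) (nat_lit 309485046715115794943967233) (nat_lit 5) (nat_lit 11)) .nil))) (.cons (.kr (nat_lit 4722366482869645213697) (nat_lit 79228162514264337593543950592) (nat_lit 0) (nat_lit 2)) (.cons (.br (nat_lit 12) (nat_lit 1) (.cons (.br (nat_lit 10) (nat_lit 1) (.cons (.ev (nat_lit 79538861190718525334326673408) (nat_lit 1)) .nil)) (.cons (.zr (nat_lit 3640944558292496459759618) (nat_lit 309485046715115794943967232) (nat_lit 5) (nat_lit 11)) (.cons (.rf (nat_lit 6129) (nat_lit 303220656343217187115)) .nil)))) .nil))))),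
 (.br (nat_lit 8) (nat_lit 1) (.cons (.rf (nat_lit 6124) (nat_lit 493858305440582043680)) (.cons (.rf (nat_lit 6127) (nat_lit 493858305440582043680)) (.cons (.rf (nat_lit 6129) (nat_lit 493858305440582043680)) (.cons (.br (nat_lit 2) (nat_lit 1) (.cons (.kr (nat_lit 1) (nat_lit 72057594037927936) (nat_lit 0) (nat_lit 1)) (.cons (.br (nat_lit 7) (nat_lit 1) (.cons (.ev (nat_lit 310693954087704871137509633) (nat_lit 1)) (.cons (.rf (nat_lit 6130) (nat_lit 493858305440582043680)) (.cons (.rf (nat_lit 6130) (nat_lit 458117738797769787424)) .nil)))) (.cons (.br (nat_lit 7) (nat_lit 1) (.cons (.ev (nat_lit 309489750634853491351290113) (nat_lit 1)) (.cons (.rf (nat_lit 6131) (nat_lit 493858305440582043680)) (.cons (.rf (nat_lit 6131) (nat_lit 458117738797769787424)) .nil)))) (.cons (.rf (nat_lit 6132) (nat_lit 493858305440582043680)) (.cons (.rf (nat_lit 6132) (nat_lit 458117738797769787424)) .nil)))))) .nil))))),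
 (.br (nat_lit 8) (nat_lit 1) (.cons (.rf (nat_lit 6124) (nat_lit 493858305440582043680)) (.cons (.rf (nat_lit 6127) (nat_lit 493858305440582043680)) (.cons (.rf (nat_lit 6129) (nat_lit 493858305440582043680)) (.cons (.rf (nat_lit 6133) (nat_lit 493858305440582043680)) (.cons (.rf (nat_lit 6133) (nat_lit 458117738797769787424)) .nil)))))),
 (.br (nat_lit 8) (nat_lit 1) (.cons (.ev (nat_lit 620183686419649097111896321) (nat_lit 2)) (.cons (.ev (nat_lit 1213666704900266095869953) (nat_lit 1)) .nil))),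
 (.br (nat_lit 7) (nat_lit 1) (.cons (.rf (nat_lit 82) (nat_lit 13161007145)) (.cons (.rf (nat_lit 2594) (nat_lit 8993868105)) (.cons (.br (nat_lit 2) (nat_lit 1) (.cons (.ev (nat_lit 1213666632842672057942016) (nat_lit 1)) (.cons (.rf (nat_lit 6135) (nat_lit 493858305440582043680)) (.cons (.rf (nat_lit 6135) (nat_lit 458117738797769787424)) .nil)))) .nil)))),
 (.br (nat_lit 7) (nat_lit 1) (.cons (.rf (nat_lit 1343) (nat_lit 424398792993)) (.cons (.rf (nat_lit 4982) (nat_lit 251670045730)) (.cons (.rf (nat_lit 6136) (nat_lit 493858305440582043680)) (.cons (.rf (nat_lit 6136) (nat_lit 458117738797769787424)) .nil))))),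
 (.br (nat_lit 12) (nat_lit 1) (.cons (.ev (nat_lit 80159044858620217201505927424) (nat_lit 2)) (.cons (.ev (nat_lit 79228167255077846016170459393) (nat_lit 1)) .nil))),
 (.br (nat_lit 12) (nat_lit 1) (.cons (.kr (nat_lit 79229371458530696296428208384) (nat_lit 20282409608374108964410934493184) (nat_lit 1) (nat_lit 0)) .nil)),
 (.br (nat_lit 7) (nat_lit 1) (.cons (.kr (nat_lit 79229371458530696296428208384) (nat_lit 20282409608374108964410934493184) (nat_lit 1) (nat_lit 0)) .nil)),
 (.br (nat_lit 10) (nat_lit 1) (.cons (.br (nat_lit 7) (nat_lit 1) (.cons (.ev (nat_lit 79229371440156291296028262401) (nat_lit 1)) (.cons (.rf (nat_lit 6139) (nat_lit 493858305440582043680)) .nil))) (.cons (.ev (nat_lit 310693954087704871137509633) (nat_lit 1)) (.cons (.br (nat_lit 12) (nat_lit 1) (.cons (.rf (nat_lit 6140) (nat_lit 493858305440582043680)) (.cons (.ev (nat_lit 20361638979832567604212853178368) (nat_lit 1)) .nil))) .nil)))),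
 (.br (nat_lit 8) (nat_lit 1) (.cons (.rf (nat_lit 6124) (nat_lit 493858305440582043680)) (.cons (.rf (nat_lit 6134) (nat_lit 493858305440582043680)) (.cons (.rf (nat_lit 6137) (nat_lit 493858305440582043680)) (.cons (.br (nat_lit 2) (nat_lit 1) (.cons (.br (nat_lit 7) (nat_lit 1) (.cons (.ev (nat_lit 310693954087704871137509633) (nat_lit 1)) (.cons (.rf (nat_lit 6138) (nat_lit 493858305440582043680)) (.cons (.rf (nat_lit 6138) (nat_lit 458117738797769787424)) .nil)))) (.cons (.rf (nat_lit 1593) (nat_lit 459875288386)) (.cons (.rf (nat_lit 6141) (nat_lit 493858305440582043680)) (.cons (.rf (nat_lit 6141) (nat_lit 458117738797769787424)) .nil))))) .nil))))),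
 (.br (nat_lit 8) (nat_lit 1) (.cons (.rf (nat_lit 6124) (nat_lit 493858305440582043680)) (.cons (.rf (nat_lit 6134) (nat_lit 493858305440582043680)) (.cons (.rf (nat_lit 6137) (nat_lit 493858305440582043680)) (.cons (.rf (nat_lit 6142) (nat_lit 493858305440582043680)) (.cons (.rf (nat_lit 6142) (nat_lit 458117738797769787424)) .nil)))))),
 (.br (nat_lit 9) (nat_lit 1) (.cons (.br (nat_lit 7) (nat_lit 1) (.cons (.ev (nat_lit 79228167236702879156755496961) (nat_lit 1)) (.cons (.br (nat_lit 12) (nat_lit 1) (.cons (.ev (nat_lit 21474547084706478600856766580488) (nat_lit 4)) .nil)) .nil))) (.cons (.ev (nat_lit 309489750634853491351290113) (nat_lit 1)) (.cons (.br (nat_lit 12) (nat_lit 1) (.cons (.br (nat_lit 7) (nat_lit 1) (.cons (.ev (nat_lit 20523809191203704344169981741828) (nat_lit 4)) .nil)) (.cons (.ev (nat_lit 20361638979832567604212853178368) (nat_lit 1)) .nil))) .nil)))),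
 (.br (nat_lit 8) (nat_lit 1) (.cons (.rf (nat_lit 6124) (nat_lit 493858305440582043680)) (.cons (.rf (nat_lit 6134) (nat_lit 493858305440582043680)) (.cons (.rf (nat_lit 6143) (nat_lit 493858305440582043680)) (.cons (.br (nat_lit 2) (nat_lit 1) (.cons (.rf (nat_lit 6143) (nat_lit 493857214724006085696)) (.cons (.rf (nat_lit 1593) (nat_lit 459908842786)) (.cons (.rf (nat_lit 6144) (nat_lit 493858305440582043680)) (.cons (.rf (nat_lit 6144) (nat_lit 458117738797769787424)) .nil))))) .nil))))),
 (.br (nat_lit 8) (nat_lit 1) (.cons (.rf (nat_lit 6124) (nat_lit 493858305440582043680)) (.cons (.rf (nat_lit 6134) (nat_lit 493858305440582043680)) (.cons (.rf (nat_lit 6143) (nat_lit 493858305440582043680)) (.cons (.rf (nat_lit 6145) (nat_lit 493858305440582043680)) (.cons (.rf (nat_lit 6145) (nat_lit 458117738797769787424)) .nil)))))),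
 (.br (nat_lit 8) (nat_lit 1) (.cons (.rf (nat_lit 6124) (nat_lit 493858305440582043680)) (.cons (.rf (nat_lit 6134) (nat_lit 493858305440582043680)) (.cons (.rf (nat_lit 6143) (nat_lit 493858305440582043680)) (.cons (.rf (nat_lit 6146) (nat_lit 493858305440582043680)) (.cons (.br (nat_lit 8) (nat_lit 1) (.cons (.rf (nat_lit 6124) (nat_lit 493858305440582043680)) (.cons (.rf (nat_lit 6134) (nat_lit 493858305440582043680)) (.cons (.rf (nat_lit 6143) (nat_lit 493858305440582043680)) (.cons (.rf (nat_lit 6146) (nat_lit 493858305440582043680)) .nil))))) .nil)))))),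
 (.br (nat_lit 8) (nat_lit 1) (.cons (.rf (nat_lit 6124) (nat_lit 493858305440582043680)) (.cons (.rf (nat_lit 6134) (nat_lit 493858305440582043680)) (.cons (.rf (nat_lit 6143) (nat_lit 493858305440582043680)) (.cons (.rf (nat_lit 6146) (nat_lit 493858305440582043680)) (.cons (.rf (nat_lit 6147) (nat_lit 493858305440582043680)) (.cons (.rf (nat_lit 6147) (nat_lit 458117738797769787424)) .nil))))))),
 (.br (nat_lit 12) (nat_lit 1) (.cons (.kr (nat_lit 20282410812577562096170463920384) (nat_lit 79228167255077564536898781184) (nat_lit 1) (nat_lit 0)) .nil)),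
 (.br (nat_lit 2) (nat_lit 1) (.cons (.rf (nat_lit 84) (nat_lit 13161014337)) (.cons (.rf (nat_lit 84) (nat_lit 13128476737)) (.cons (.br (nat_lit 7) (nat_lit 1) (.cons (.ev (nat_lit 79228167236702879156755496961) (nat_lit 1)) (.cons (.br (nat_lit 8) (nat_lit 1) (.cons (.ev (nat_lit 79229371458530977775699886081) (nat_lit 1)) (.cons (.br (nat_lit 12) (nat_lit 1) (.cons (.ev (nat_lit 20838864865051229528509565174020) (nat_lit 3)) .nil)) .nil))) .nil))) (.cons (.br (nat_lit 7) (nat_lit 1) (.cons (.br (nat_lit 8) (nat_lit 1) (.cons (.ev (nat_lit 79537647542604765809287954433) (nat_lit 1)) (.cons (.br (nat_lit 12) (nat_lit 1) (.cons (.ev (nat_lit 20687236609832836609178032348932) (nat_lit 5)) .nil)) .nil))) (.cons (.br (nat_lit 8) (nat_lit 1) (.cons (.rf (nat_lit 6149) (nat_lit 493858305440582043680)) (.cons (.ev (nat_lit 20282719088680010571783251951873) (nat_lit 1)) .nil))) .nil))) .nil))))),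
 (.br (nat_lit 1) (nat_lit 1) (.cons (.rf (nat_lit 31) (nat_lit 276112449)) (.cons (.rf (nat_lit 4982) (nat_lit 284956001602)) (.cons (.rf (nat_lit 4982) (nat_lit 251670037794)) (.cons (.rf (nat_lit 6150) (nat_lit 493858305440582043680)) (.cons (.rf (nat_lit 6150) (nat_lit 458117738797769787424)) .nil)))))),
 (.br (nat_lit 2) (nat_lit 1) (.cons (.rf (nat_lit 82) (nat_lit 9000003873)) (.cons (.br (nat_lit 12) (nat_lit 1) (.cons (.ev (nat_lit 20362881774538601087618055996678) (nat_lit 3)) .nil)) .nil))),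
 (.br (nat_lit 12) (nat_lit 1) (.cons (.kr (nat_lit 237684487542865070374669844736) (nat_lit 20282410817355196753667199860736) (nat_lit 1) (nat_lit 0)) .nil)),
 (.br (nat_lit 10) (nat_lit 1) (.cons (.br (nat_lit 2) (nat_lit 1) (.cons (.ev (nat_lit 79537647542604485429544616193) (nat_lit 1)) (.cons (.rf (nat_lit 6153) (nat_lit 493858305440582043680)) .nil))) (.cons (.br (nat_lit 13) (nat_lit 1) (.cons (.zr (nat_lit 1208926035787411288621824) (nat_lit 309485046715115794943967233) (nat_lit 5) (nat_lit 0)) (.cons (.kr (nat_lit 79228162514264337593544015872) (nat_lit 1208944266358702884257792) (nat_lit 2) (nat_lit 0)) .nil))) (.cons (.ev (nat_lit 310693954160042844918644736) (nat_lit 1)) (.cons (.rf (nat_lit 6148) (nat_lit 303219565626641229131)) .nil))))),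
 (.br (nat_lit 8) (nat_lit 1) (.cons (.rf (nat_lit 6148) (nat_lit 493858304375430154272)) (.cons (.rf (nat_lit 6148) (nat_lit 493857213658854196288)) (.cons (.rf (nat_lit 6151) (nat_lit 493858305440582043680)) (.cons (.br (nat_lit 7) (nat_lit 1) (.cons (.rf (nat_lit 6148) (nat_lit 493858305440582043680)) (.cons (.rf (nat_lit 6148) (nat_lit 493857214724006085696)) (.cons (.br (nat_lit 1) (nat_lit 1) (.cons (.rf (nat_lit 29) (nat_lit 7676993)) (.cons (.rf (nat_lit 6152) (nat_lit 493858305440582043680)) (.cons (.rf (nat_lit 6152) (nat_lit 458117738797769787424)) .nil)))) (.cons (.rf (nat_lit 6154) (nat_lit 493858305440582043680)) (.cons (.rf (nat_lit 6154) (nat_lit 458117738797769787424)) .nil)))))) .nil))))),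
 (.br (nat_lit 8) (nat_lit 1) (.cons (.rf (nat_lit 6148) (nat_lit 493858304375430154272)) (.cons (.rf (nat_lit 6148) (nat_lit 493857213658854196288)) (.cons (.rf (nat_lit 6151) (nat_lit 493858305440582043680)) (.cons (.rf (nat_lit 6155) (nat_lit 493858305440582043680)) (.cons (.rf (nat_lit 6155) (nat_lit 458117738797769787424)) .nil)))))),
 (.br (nat_lit 8) (nat_lit 1) (.cons (.rf (nat_lit 6148) (nat_lit 493858304375430154272)) (.cons (.rf (nat_lit 6148) (nat_lit 493857213658854196288)) (.cons (.rf (nat_lit 6156) (nat_lit 493858304375430154272)) (.cons (.rf (nat_lit 6156) (nat_lit 493857213658854196288)) (.cons (.kr (nat_lit 72057594037927936) (nat_lit 18446744073709551616) (nat_lit 7) (nat_lit 0)) .nil)))))),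
 (.br (nat_lit 7) (nat_lit 1) (.cons (.rf (nat_lit 6148) (nat_lit 493858305440582043680)) (.cons (.rf (nat_lit 6148) (nat_lit 493857214724006085696)) (.cons (.rf (nat_lit 6156) (nat_lit 493858305440582043680)) (.cons (.rf (nat_lit 6156) (nat_lit 493857214724006085696)) (.cons (.br (nat_lit 8) (nat_lit 1) (.cons (.rf (nat_lit 6148) (nat_lit 493858304375430154272)) (.cons (.rf (nat_lit 6148) (nat_lit 493857213658854196288)) (.cons (.rf (nat_lit 6156) (nat_lit 493858304375430154272)) (.cons (.rf (nat_lit 6156) (nat_lit 493857213658854196288)) (.cons (.rf (nat_lit 6157) (nat_lit 493858305440582043680)) (.cons (.rf (nat_lit 6157) (nat_lit 458117738797769787424)) .nil))))))) .nil)))))),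
 (.br (nat_lit 7) (nat_lit 1) (.cons (.rf (nat_lit 6148) (nat_lit 493858305440582043680)) (.cons (.rf (nat_lit 6148) (nat_lit 493857214724006085696)) (.cons (.rf (nat_lit 6156) (nat_lit 493858305440582043680)) (.cons (.rf (nat_lit 6156) (nat_lit 493857214724006085696)) (.cons (.rf (nat_lit 6158) (nat_lit 493858305440582043680)) (.cons (.rf (nat_lit 6158) (nat_lit 458117738797769787424)) .nil))))))),
 (.br (nat_lit 2) (nat_lit 1) (.cons (.kr (nat_lit 20282410812577562096170463920384) (nat_lit 79228167255077564536898781184) (nat_lit 1) (nat_lit 0)) .nil)),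
 (.br (nat_lit 1) (nat_lit 1) (.cons (.kr (nat_lit 1208925891672223212634368) (nat_lit 4740813226943354830848) (nat_lit 1) (nat_lit 0)) (.cons (.rf (nat_lit 6160) (nat_lit 493858305440582043680)) (.cons (.rf (nat_lit 6160) (nat_lit 458117738797769787424)) .nil)))),
 (.br (nat_lit 8) (nat_lit 1) (.cons (.rf (nat_lit 6148) (nat_lit 493858304375430154272)) (.cons (.rf (nat_lit 6148) (nat_lit 493857213658854196288)) (.cons (.rf (nat_lit 6161) (nat_lit 493858305440582043680)) .nil))))]

theorem c212 : chkAll C T R L212 (nat_lit 6130) = true := by decide +kernel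

theorem l212 : (nat_lit 6130) + L212.length = (nat_lit 6163) := by decide +kernel

/-- part of the certificates -/
def L213 : List Prf := [(.br (nat_lit 7) (nat_lit 1) (.cons (.rf (nat_lit 6148) (nat_lit 493858305440582043680)) (.cons (.rf (nat_lit 6148) (nat_lit 493857214724006085696)) (.cons (.rf (nat_lit 6159) (nat_lit 493858305440582043680)) (.cons (.br (nat_lit 8) (nat_lit 1) (.cons (.rf (nat_lit 6148) (nat_lit 493858304375430154272)) (.cons (.rf (nat_lit 6148) (nat_lit 493857213658854196288)) (.cons (.rf (nat_lit 6162) (nat_lit 493858305440582043680)) (.cons (.rf (nat_lit 6162) (nat_lit 458117738797769787424)) .nil))))) .nil))))),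
 (.br (nat_lit 7) (nat_lit 1) (.cons (.rf (nat_lit 6148) (nat_lit 493858305440582043680)) (.cons (.rf (nat_lit 6148) (nat_lit 493857214724006085696)) (.cons (.rf (nat_lit 6159) (nat_lit 493858305440582043680)) (.cons (.rf (nat_lit 6163) (nat_lit 493858305440582043680)) (.cons (.rf (nat_lit 6163) (nat_lit 458117738797769787424)) .nil)))))),
 (.br (nat_lit 8) (nat_lit 1) (.cons (.rf (nat_lit 6148) (nat_lit 493858304375430154272)) (.cons (.rf (nat_lit 6148) (nat_lit 493857213658854196288)) (.cons (.rf (nat_lit 6159) (nat_lit 493858305440582043680)) (.cons (.rf (nat_lit 6164) (nat_lit 493858305440582043680)) (.cons (.br (nat_lit 8) (nat_lit 1) (.cons (.rf (nat_lit 6148) (nat_lit 493858304375430154272)) (.cons (.rf (nat_lit 6148) (nat_lit 493857213658854196288)) (.cons (.rf (nat_lit 6159) (nat_lit 493858305440582043680)) (.cons (.rf (nat_lit 6164) (nat_lit 493858305440582043680)) .nil))))) .nil)))))),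
 (.br (nat_lit 8) (nat_lit 1) (.cons (.rf (nat_lit 6148) (nat_lit 493858304375430154272)) (.cons (.rf (nat_lit 6148) (nat_lit 493857213658854196288)) (.cons (.rf (nat_lit 6159) (nat_lit 493858305440582043680)) (.cons (.rf (nat_lit 6164) (nat_lit 493858305440582043680)) (.cons (.rf (nat_lit 6165) (nat_lit 493858305440582043680)) (.cons (.rf (nat_lit 6165) (nat_lit 458117738797769787424)) .nil))))))),
 (.br (nat_lit 7) (nat_lit 1) (.cons (.rf (nat_lit 6148) (nat_lit 493858305440582043680)) (.cons (.rf (nat_lit 6148) (nat_lit 493857214724006085696)) (.cons (.rf (nat_lit 6159) (nat_lit 493858305440582043680)) (.cons (.rf (nat_lit 6166) (nat_lit 493858305440582043680)) (.cons (.rf (nat_lit 6166) (nat_lit 493857214724006085696)) (.cons (.br (nat_lit 7) (nat_lit 1) (.cons (.rf (nat_lit 6148) (nat_lit 493858305440582043680)) (.cons (.rf (nat_lit 6148) (nat_lit 493857214724006085696)) (.cons (.rf (nat_lit 6159) (nat_lit 493858305440582043680)) (.cons (.rf (nat_lit 6166) (nat_lit 493858305440582043680))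 (.cons (.rf (nat_lit 6166) (nat_lit 493857214724006085696)) .nil)))))) .nil))))))),
 (.br (nat_lit 10) (nat_lit 0) (.cons (.br (nat_lit 9) (nat_lit 0) (.cons (.br (nat_lit 11) (nat_lit 1) (.cons (.br (nat_lit 11) (nat_lit 1) (.cons (.br (nat_lit 7) (nat_lit 1) (.cons (.rf (nat_lit 6148) (nat_lit 493858305440582043680)) (.cons (.rf (nat_lit 6148) (nat_lit 493857214724006085696)) (.cons (.rf (nat_lit 6159) (nat_lit 493858305440582043680)) (.cons (.rf (nat_lit 6166) (nat_lit 493858305440582043680)) (.cons (.rf (nat_lit 6166) (nat_lit 493857214724006085696)) (.cons (.rf (nat_lit 6167) (nat_lit 493858305440582043680)) (.cons (.rf (nat_lit 6167) (nat_lit 458117738797769787424)) .nil)))))))) .nil)) .nil)) .nil)) .nil)),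
 (.br (nat_lit 9) (nat_lit 0) (.cons (.rf (nat_lit 6058) (nat_lit 11584699497547808)) (.cons (.br (nat_lit 10) (nat_lit 0) (.cons (.rf (nat_lit 6168) (nat_lit 406810752275579968)) (.cons (.rf (nat_lit 6168) (nat_lit 407901468851537952)) .nil))) .nil))),
 (.br (nat_lit 9) (nat_lit 0) (.cons (.rf (nat_lit 6169) (nat_lit 11584701642934304)) (.cons (.rf (nat_lit 6117) (nat_lit 325700429121568)) (.cons (.br (nat_lit 9) (nat_lit 0) (.cons (.rf (nat_lit 6169) (nat_lit 11584701642934304)) (.cons (.rf (nat_lit 6117) (nat_lit 325700429121568)) .nil))) .nil)))),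
 (.br (nat_lit 9) (nat_lit 0) (.cons (.br (nat_lit 12) (nat_lit 1) (.cons (.br (nat_lit 13) (nat_lit 0) .nil) .nil)) .nil)),
 (.br (nat_lit 9) (nat_lit 0) (.cons (.rf (nat_lit 6171) (nat_lit 407901468851537952)) (.cons (.br (nat_lit 9) (nat_lit 0) (.cons (.rf (nat_lit 6171) (nat_lit 407901468851537952)) .nil)) .nil))),
 (.br (nat_lit 8) (nat_lit 1) (.cons (.br (nat_lit 12) (nat_lit 1) (.cons (.kr (nat_lit 79537652246524223125951873280) (nat_lit 20282409603670117730970914324480) (nat_lit 1) (nat_lit 0)) .nil)) .nil)),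
 (.br (nat_lit 7) (nat_lit 1) (.cons (.rf (nat_lit 31) (nat_lit 410362945)) (.cons (.br (nat_lit 8) (nat_lit 1) (.cons (.rf (nat_lit 6173) (nat_lit 493858305440582043680)) (.cons (.br (nat_lit 8) (nat_lit 1) (.cons (.rf (nat_lit 6173) (nat_lit 493858305440582043680)) .nil)) .nil))) .nil))),
 (.br (nat_lit 7) (nat_lit 1) (.cons (.rf (nat_lit 6174) (nat_lit 493858305440582043680)) (.cons (.rf (nat_lit 31) (nat_lit 410362945)) (.cons (.br (nat_lit 7) (nat_lit 1) (.cons (.rf (nat_lit 6174) (nat_lit 493858305440582043680)) (.cons (.rf (nat_lit 31) (nat_lit 410362945)) .nil))) .nil)))),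
 (.br (nat_lit 11) (nat_lit 1) (.cons (.rf (nat_lit 29) (nat_lit 7709761)) (.cons (.ev (nat_lit 309489732187829037898465281) (nat_lit 1)) (.cons (.rf (nat_lit 6175) (nat_lit 493858305440582043680)) (.cons (.rf (nat_lit 6175) (nat_lit 458117738797769787424)) .nil))))),
 (.br (nat_lit 12) (nat_lit 1) (.cons (.zr (nat_lit 238612942572257329461782905600) (nat_lit 1218370696696660364361729) (nat_lit 5) (nat_lit 5)) .nil)),
 (.br (nat_lit 7) (nat_lit 1) (.cons (.rf (nat_lit 31) (nat_lit 410299457)) (.cons (.br (nat_lit 8) (nat_lit 1) (.cons (.rf (nat_lit 6177) (nat_lit 493858305440582043680)) (.cons (.br (nat_lit 8) (nat_lit 1) (.cons (.rf (nat_lit 6177) (nat_lit 493858305440582043680)) .nil)) .nil))) .nil))),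
 (.br (nat_lit 7) (nat_lit 1) (.cons (.rf (nat_lit 6178) (nat_lit 493858305440582043680)) (.cons (.rf (nat_lit 31) (nat_lit 410299457)) (.cons (.br (nat_lit 7) (nat_lit 1) (.cons (.rf (nat_lit 6178) (nat_lit 493858305440582043680)) (.cons (.rf (nat_lit 31) (nat_lit 410299457)) .nil))) .nil)))),
 (.br (nat_lit 11) (nat_lit 1) (.cons (.rf (nat_lit 6179) (nat_lit 493858305440582043680)) (.cons (.rf (nat_lit 6179) (nat_lit 493858304375430154272)) (.cons (.rf (nat_lit 29) (nat_lit 12952641)) (.cons (.ev (nat_lit 310698658007442571839668224) (nat_lit 1)) .nil))))),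
 (.br (nat_lit 12) (nat_lit 1) (.cons (.ev (nat_lit 79229376162522492686418640896) (nat_lit 1)) (.cons (.ev (nat_lit 79537647524085683766075392256) (nat_lit 1)) (.cons (.zr (nat_lit 216735732067401728) (nat_lit 158457533954348290920085979137) (nat_lit 5) (nat_lit 0)) .nil)))),
 (.br (nat_lit 7) (nat_lit 1) (.cons (.rf (nat_lit 2594) (nat_lit 8993877282)) (.cons (.rf (nat_lit 82) (nat_lit 13160983586)) (.cons (.br (nat_lit 8) (nat_lit 1) (.cons (.ev (nat_lit 1208944338416301217218816) (nat_lit 1)) (.cons (.rf (nat_lit 6181) (nat_lit 493858305440582043680)) (.cons (.rf (nat_lit 6181) (nat_lit 458117738797769787424)) .nil)))) .nil)))),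
 (.br (nat_lit 7) (nat_lit 1) (.cons (.ev (nat_lit 1213666632842676336066561) (nat_lit 1)) (.cons (.br (nat_lit 8) (nat_lit 1) (.cons (.ev (nat_lit 620188408786696029123707394) (nat_lit 2)) .nil)) (.cons (.rf (nat_lit 6181) (nat_lit 458117738797769787424)) .nil)))),
 (.br (nat_lit 13) (nat_lit 1) (.cons (.rf (nat_lit 6183) (nat_lit 493858305440582043680)) (.cons (.ev (nat_lit 310698658007442571839668224) (nat_lit 1)) (.cons (.br (nat_lit 13) (nat_lit 1) (.cons (.rf (nat_lit 6183) (nat_lit 493858305440582043680)) (.cons (.ev (nat_lit 310698658007442571839668224) (nat_lit 1)) .nil))) .nil)))),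
 (.br (nat_lit 13) (nat_lit 1) (.cons (.rf (nat_lit 6184) (nat_lit 493858305440582043680)) (.cons (.ev (nat_lit 310698658007442571839668224) (nat_lit 1)) (.cons (.br (nat_lit 13) (nat_lit 1) (.cons (.rf (nat_lit 6184) (nat_lit 493858305440582043680)) (.cons (.ev (nat_lit 310698658007442571839668224) (nat_lit 1)) .nil))) .nil)))),
 (.br (nat_lit 13) (nat_lit 1) (.cons (.rf (nat_lit 6184) (nat_lit 493858305440582043680)) (.cons (.rf (nat_lit 6185) (nat_lit 493858305440582043680)) (.cons (.ev (nat_lit 310698658007442571839668224) (nat_lit 1)) (.cons (.br (nat_lit 13) (nat_lit 1) (.cons (.rf (nat_lit 6184) (nat_lit 493858305440582043680)) (.cons (.rf (nat_lit 6185) (nat_lit 493858305440582043680)) (.cons (.ev (nat_lit 310698658007442571839668224) (nat_lit 1)) .nil)))) .nil))))),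
 (.br (nat_lit 9) (nat_lit 1) (.cons (.ev (nat_lit 4722366482869662056449) (nat_lit 1)) (.cons (.br (nat_lit 7) (nat_lit 1) (.cons (.rf (nat_lit 4982) (nat_lit 250595248171)) (.cons (.rf (nat_lit 1343) (nat_lit 423334487105)) (.cons (.rf (nat_lit 6182) (nat_lit 493858305440582043680)) (.cons (.rf (nat_lit 6182) (nat_lit 458117738797769787424)) .nil))))) (.cons (.rf (nat_lit 5676) (nat_lit 14716784352297)) (.cons (.rf (nat_lit 6186) (nat_lit 493858305440582043680)) (.cons (.rf (nat_lit 6186) (nat_lit 458117738797769787424)) .nil)))))),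
 (.br (nat_lit 7) (nat_lit 1) (.cons (.rf (nat_lit 84) (nat_lit 13160983586)) (.cons (.br (nat_lit 8) (nat_lit 1) (.cons (.ev (nat_lit 309485028268089142451110144) (nat_lit 1)) (.cons (.rf (nat_lit 5177) (nat_lit 13329736738)) (.cons (.br (nat_lit 11) (nat_lit 1) (.cons (.ev (nat_lit 79537647524157741360113320193) (nat_lit 1)) (.cons (.br (nat_lit 12) (nat_lit 1) (.cons (.ev (nat_lit 79538861190790582928364601345) (nat_lit 1)) .nil)) .nil))) .nil)))) (.cons (.br (nat_lit 8) (nat_lit 1) (.cons (.ev (nat_lit 309485028268089142451110144) (nat_lit 1)) (.cons (.br (nat_lit 12) (nat_lit 1) (.cons (.ev (nat_lit 79229371440156010916284989696) (nat_lit 1)) (.cons (.ev (nat_lit 79228167255149623234743238656) (nat_lit 1)) .nil))) (.cons (.br (nat_lit 13) (nat_lit 1) (.cons (.rf (nat_lit 5177) (nat_lit 14369924139)) (.cons (.zr (nat_lit 216735732067401728) (nat_lit 40564820416229160463627500650497) (nat_lit 5) (nat_lit 0)) .nil))) .nil)))) .nil)))),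
 (.br (nat_lit 2) (nat_lit 1) (.cons (.ev (nat_lit 4722366482869662056449) (nat_lit 1)) (.cons (.rf (nat_lit 4982) (nat_lit 250595248171)) (.cons (.rf (nat_lit 31) (nat_lit 276071778)) (.cons (.rf (nat_lit 6188) (nat_lit 493858305440582043680)) (.cons (.rf (nat_lit 6188) (nat_lit 458117738797769787424)) .nil)))))),
 (.br (nat_lit 9) (nat_lit 1) (.cons (.rf (nat_lit 84) (nat_lit 13161047074)) (.cons (.ev (nat_lit 309485028268089142451110144) (nat_lit 1)) (.cons (.rf (nat_lit 2305) (nat_lit 14713864070209)) (.cons (.br (nat_lit 8) (nat_lit 1) (.cons (.zr (nat_lit 930872881103545939500466944) (nat_lit 9481626454990532902913) (nat_lit 5) (nat_lit 5)) (.cons (.br (nat_lit 7) (nat_lit 1) (.cons (.br (nat_lit 12) (nat_lit 1) (.cons (.ev (nat_lit 79228162532711081671548535041) (nat_lit 1)) .nil)) (.cons (.ev (nat_lit 20282410817299928579040125976576) (nat_lit 1)) .nil))) .nil))) .nil))))),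
 (.br (nat_lit 2) (nat_lit 1) (.cons (.kr (nat_lit 1) (nat_lit 72057594037927936) (nat_lit 0) (nat_lit 1)) (.cons (.rf (nat_lit 4982) (nat_lit 252742731817)) (.cons (.rf (nat_lit 31) (nat_lit 276137250)) (.cons (.rf (nat_lit 6190) (nat_lit 493858305440582043680)) (.cons (.rf (nat_lit 6190) (nat_lit 458117738797769787424)) .nil)))))),
 (.br (nat_lit 9) (nat_lit 1) (.cons (.ev (nat_lit 1213666704900270373994496) (nat_lit 1)) (.cons (.ev (nat_lit 310698658079500165877596161) (nat_lit 1)) .nil))),
 (.br (nat_lit 11) (nat_lit 1) (.cons (.br (nat_lit 12) (nat_lit 1) (.cons (.rf (nat_lit 82) (nat_lit 9000234018)) (.cons (.ev (nat_lit 79229371440156010916284989696) (nat_lit 1)) .nil))) (.cons (.br (nat_lit 12) (nat_lit 1) (.cons (.ev (nat_lit 80159035432405770546851151875) (nat_lit 2)) (.cons (.zr (nat_lit 238612942572257329461782905600) (nat_lit 1218407446069619707609089) (nat_lit 5) (nat_lit 5)) .nil))) (.cons (.ev (nat_lit 79538856468352041365169766656) (nat_lit 1)) (.cons (.br (nat_lit 12)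 (nat_lit 1) (.cons (.kr (nat_lit 18446745173221179392) (nat_lit 309485009893402662762708992) (nat_lit 5) (nat_lit 0)) (.cons (.ev (nat_lit 310698658007442571839668224) (nat_lit 1)) (.cons (.ev (nat_lit 20282410812577490039675954397441) (nat_lit 1)) .nil)))) .nil))))),
 (.br (nat_lit 8) (nat_lit 1) (.cons (.rf (nat_lit 6187) (nat_lit 493858305440582043680)) (.cons (.rf (nat_lit 6189) (nat_lit 493858305440582043680)) (.cons (.rf (nat_lit 6191) (nat_lit 493858305440582043680)) (.cons (.br (nat_lit 2) (nat_lit 1) (.cons (.kr (nat_lit 1) (nat_lit 72057594037927936) (nat_lit 0) (nat_lit 1)) (.cons (.ev (nat_lit 1213666632842676336066561) (nat_lit 1)) (.cons (.br (nat_lit 7) (nat_lit 1) (.cons (.rf (nat_lit 29) (nat_lit 7636322)) (.cons (.rf (nat_lit 6192) (nat_lit 493858305440582043680)) (.cons (.rf (nat_lit 6192) (nat_lit 458117738797769787424)) .nil)))) (.cons (.rf (nat_lit 6193) (nat_lit 493858305440582043680)) (.cons (.rf (nat_lit 6193) (nat_lit 458117738797769787424)) .nil)))))) .nil))))),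
 (.br (nat_lit 8) (nat_lit 1) (.cons (.rf (nat_lit 6187) (nat_lit 493858305440582043680)) (.cons (.rf (nat_lit 6189) (nat_lit 493858305440582043680)) (.cons (.rf (nat_lit 6191) (nat_lit 493858305440582043680)) (.cons (.rf (nat_lit 6194) (nat_lit 493858305440582043680)) (.cons (.rf (nat_lit 6194) (nat_lit 458117738797769787424)) .nil)))))),
 (.br (nat_lit 12) (nat_lit 1) (.cons (.ev (nat_lit 79537647524157741360113320193) (nat_lit 1)) .nil)),
 (.br (nat_lit 7) (nat_lit 1) (.cons (.rf (nat_lit 84) (nat_lit 13160983586)) (.cons (.rf (nat_lit 84) (nat_lit 9000004649)) (.cons (.br (nat_lit 8) (nat_lit 1) (.cons (.rf (nat_lit 6196) (nat_lit 493858305440582043680)) (.cons (.br (nat_lit 8) (nat_lit 1) (.cons (.rf (nat_lit 6196) (nat_lit 493858305440582043680)) .nil)) .nil))) .nil)))),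
 (.br (nat_lit 7) (nat_lit 1) (.cons (.rf (nat_lit 6195) (nat_lit 493858305440582043680)) (.cons (.rf (nat_lit 84) (nat_lit 9000004649)) (.cons (.br (nat_lit 11) (nat_lit 1) (.cons (.br (nat_lit 8) (nat_lit 1) (.cons (.ev (nat_lit 311907639311967564467340035) (nat_lit 2)) (.cons (.ev (nat_lit 1208944266358707179290881) (nat_lit 1)) .nil))) (.cons (.rf (nat_lit 84) (nat_lit 8837442633)) (.cons (.br (nat_lit 12) (nat_lit 1) (.cons (.br (nat_lit 8) (nat_lit 1) (.cons (.ev (nat_lit 20838559025634547106221547520258) (nat_lit 3)) .nil)) (.cons (.ev (nat_lit 20282719088661491770119782727936) (nat_lit 1)) .nil))) .nil)))) .nil))))]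

theorem c213 : chkAll C T R L213 (nat_lit 6163) = true := by decide +kernel

theorem l213 : (nat_lit 6163) + L213.length = (nat_lit 6199) := by decide +kernel

/-- part of the certificates -/
def L214 : List Prf := [(.br (nat_lit 7) (nat_lit 1) (.cons (.rf (nat_lit 6195) (nat_lit 493858305440582043680)) (.cons (.rf (nat_lit 6197) (nat_lit 14242959524133701664)) (.cons (.rf (nat_lit 6198) (nat_lit 493858305440582043680)) (.cons (.br (nat_lit 7) (nat_lit 1) (.cons (.rf (nat_lit 6195) (nat_lit 493858305440582043680)) (.cons (.rf (nat_lit 6197) (nat_lit 14242959524133701664)) (.cons (.rf (nat_lit 6198) (nat_lit 493858305440582043680)) .nil)))) .nil))))),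
 (.br (nat_lit 2) (nat_lit 1) (.cons (.ev (nat_lit 4722366482869662056449) (nat_lit 1)) (.cons (.rf (nat_lit 6187) (nat_lit 493858305440582043680)) (.cons (.rf (nat_lit 5676) (nat_lit 14717019233314)) (.cons (.rf (nat_lit 6199) (nat_lit 493858305440582043680)) (.cons (.rf (nat_lit 6199) (nat_lit 458117738797769787424)) .nil)))))),
 (.br (nat_lit 2) (nat_lit 1) (.cons (.br (nat_lit 7) (nat_lit 1) (.cons (.ev (nat_lit 4722438540463699984384) (nat_lit 1)) (.cons (.ev (nat_lit 310698658079500165877596161) (nat_lit 1)) .nil))) (.cons (.ev (nat_lit 79537652246452165536208912384) (nat_lit 1)) (.cons (.br (nat_lit 12) (nat_lit 1) (.cons (.br (nat_lit 7) (nat_lit 1) (.cons (.ev (nat_lit 20837940046280706673699081750278) (nat_lit 3)) .nil)) (.cons (.rf (nat_lit 5177) (nat_lit 14206379362)) .nil))) .nil)))),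
 (.br (nat_lit 8) (nat_lit 1) (.cons (.rf (nat_lit 6187) (nat_lit 493858305440582043680)) (.cons (.rf (nat_lit 6195) (nat_lit 493858305440582043680)) (.cons (.rf (nat_lit 6200) (nat_lit 493858305440582043680)) (.cons (.br (nat_lit 9) (nat_lit 1) (.cons (.ev (nat_lit 1208944266358707179290881) (nat_lit 1)) (.cons (.zr (nat_lit 930872881103545939500466944) (nat_lit 9481626454990532902913) (nat_lit 5) (nat_lit 5)) (.cons (.rf (nat_lit 6201) (nat_lit 493858305440582043680)) (.cons (.rf (nat_lit 6201) (nat_lit 458117738797769787424)) .nil))))) .nil))))),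
 (.br (nat_lit 8) (nat_lit 1) (.cons (.rf (nat_lit 6187) (nat_lit 493858305440582043680)) (.cons (.rf (nat_lit 6195) (nat_lit 493858305440582043680)) (.cons (.rf (nat_lit 6200) (nat_lit 493858305440582043680)) (.cons (.rf (nat_lit 6202) (nat_lit 493858305440582043680)) (.cons (.rf (nat_lit 6202) (nat_lit 458117738797769787424)) .nil)))))),
 (.br (nat_lit 8) (nat_lit 1) (.cons (.rf (nat_lit 6187) (nat_lit 493858305440582043680)) (.cons (.rf (nat_lit 6195) (nat_lit 493858305440582043680)) (.cons (.rf (nat_lit 6200) (nat_lit 493858305440582043680)) (.cons (.rf (nat_lit 6203) (nat_lit 493858305440582043680)) (.cons (.br (nat_lit 8) (nat_lit 1) (.cons (.rf (nat_lit 6187) (nat_lit 493858305440582043680)) (.cons (.rf (nat_lit 6195) (nat_lit 493858305440582043680)) (.cons (.rf (nat_lit 6200) (nat_lit 493858305440582043680)) (.cons (.rf (nat_lit 6203) (nat_lit 493858305440582043680)) .nil))))) .nil)))))),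
 (.br (nat_lit 8) (nat_lit 1) (.cons (.rf (nat_lit 6187) (nat_lit 493858305440582043680)) (.cons (.rf (nat_lit 6195) (nat_lit 493858305440582043680)) (.cons (.rf (nat_lit 6200) (nat_lit 493858305440582043680)) (.cons (.rf (nat_lit 6203) (nat_lit 493858305440582043680)) (.cons (.rf (nat_lit 6204) (nat_lit 493858305440582043680)) (.cons (.rf (nat_lit 6204) (nat_lit 458117738797769787424)) .nil))))))),
 (.br (nat_lit 7) (nat_lit 1) (.cons (.br (nat_lit 7) (nat_lit 1) (.cons (.kr (nat_lit 309485009821345068724781057) (nat_lit 72058693549555712) (nat_lit 0) (nat_lit 1)) (.cons (.ev (nat_lit 310698658079500165877596161) (nat_lit 1)) .nil))) (.cons (.rf (nat_lit 31) (nat_lit 410356001)) (.cons (.br (nat_lit 7) (nat_lit 1) (.cons (.ev (nat_lit 310698658079500165877596161) (nat_lit 1)) (.cons (.rf (nat_lit 31) (nat_lit 410356001)) .nil))) .nil)))),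
 (.br (nat_lit 11) (nat_lit 1) (.cons (.rf (nat_lit 29) (nat_lit 7702817)) (.cons (.ev (nat_lit 309489732187829037898465281) (nat_lit 1)) (.cons (.rf (nat_lit 6206) (nat_lit 493858305440582043680)) (.cons (.rf (nat_lit 6206) (nat_lit 458117738797769787424)) .nil))))),
 (.br (nat_lit 7) (nat_lit 1) (.cons (.ev (nat_lit 2422611115937115582563075) (nat_lit 2)) (.cons (.ev (nat_lit 1208925891672227507667201) (nat_lit 1)) .nil))),
 (.br (nat_lit 8) (nat_lit 1) (.cons (.ev (nat_lit 309489732187829037898465281) (nat_lit 1)) (.cons (.br (nat_lit 2) (nat_lit 1) (.cons (.ev (nat_lit 310693954159762469453627648) (nat_lit 1)) (.cons (.rf (nat_lit 6208) (nat_lit 493858305440582043680)) (.cons (.rf (nat_lit 6208) (nat_lit 458117738797769787424)) .nil)))) .nil))),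
 (.br (nat_lit 8) (nat_lit 1) (.cons (.ev (nat_lit 309489732187829037898465281) (nat_lit 1)) (.cons (.rf (nat_lit 6209) (nat_lit 493858305440582043680)) (.cons (.rf (nat_lit 6209) (nat_lit 458117738797769787424)) .nil)))),
 (.br (nat_lit 8) (nat_lit 1) (.cons (.rf (nat_lit 6207) (nat_lit 493858304375430154272)) (.cons (.rf (nat_lit 6210) (nat_lit 493858304375430154272)) (.cons (.kr (nat_lit 72057594037927936) (nat_lit 18446744073709551616) (nat_lit 7) (nat_lit 0)) .nil)))),
 (.br (nat_lit 7) (nat_lit 1) (.cons (.rf (nat_lit 6207) (nat_lit 493858305440582043680)) (.cons (.rf (nat_lit 6210) (nat_lit 493858305440582043680)) (.cons (.br (nat_lit 8) (nat_lit 1) (.cons (.rf (nat_lit 6207) (nat_lit 493858304375430154272)) (.cons (.rf (nat_lit 6210) (nat_lit 493858304375430154272)) (.cons (.rf (nat_lit 6211) (nat_lit 493858305440582043680)) (.cons (.rf (nat_lit 6211) (nat_lit 458117738797769787424)) .nil))))) .nil)))),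
 (.br (nat_lit 7) (nat_lit 1) (.cons (.rf (nat_lit 6207) (nat_lit 493858305440582043680)) (.cons (.rf (nat_lit 6210) (nat_lit 493858305440582043680)) (.cons (.rf (nat_lit 6212) (nat_lit 493858305440582043680)) (.cons (.rf (nat_lit 6212) (nat_lit 458117738797769787424)) .nil))))),
 (.br (nat_lit 8) (nat_lit 1) (.cons (.ev (nat_lit 309489732187829037898465281) (nat_lit 1)) (.cons (.rf (nat_lit 6213) (nat_lit 493858305440582043680)) (.cons (.br (nat_lit 8) (nat_lit 1) (.cons (.ev (nat_lit 310698676454186645549219841) (nat_lit 1)) (.cons (.rf (nat_lit 6213) (nat_lit 493858305440582043680)) .nil))) .nil)))),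
 (.br (nat_lit 8) (nat_lit 1) (.cons (.ev (nat_lit 309489732187829037898465281) (nat_lit 1)) (.cons (.rf (nat_lit 6213) (nat_lit 493858305440582043680)) (.cons (.rf (nat_lit 6214) (nat_lit 493858305440582043680)) (.cons (.rf (nat_lit 6214) (nat_lit 458117738797769787424)) .nil))))),
 (.br (nat_lit 7) (nat_lit 1) (.cons (.rf (nat_lit 6207) (nat_lit 493858305440582043680)) (.cons (.rf (nat_lit 6213) (nat_lit 493858305440582043680)) (.cons (.rf (nat_lit 6215) (nat_lit 493858305440582043680)) (.cons (.br (nat_lit 7) (nat_lit 1) (.cons (.rf (nat_lit 1593) (nat_lit 459639336225)) (.cons (.rf (nat_lit 6213) (nat_lit 493858305440582043680)) (.cons (.rf (nat_lit 1593) (nat_lit 459941316897)) .nil)))) .nil))))),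
 (.br (nat_lit 9) (nat_lit 1) (.cons (.ev (nat_lit 309489732187829037898465281) (nat_lit 1)) (.cons (.ev (nat_lit 4722366482869662056449) (nat_lit 1)) (.cons (.ev (nat_lit 309489732259886631936393216) (nat_lit 1)) (.cons (.ev (nat_lit 1213648258156196664442881) (nat_lit 1)) .nil))))),
 (.br (nat_lit 7) (nat_lit 1) (.cons (.kr (nat_lit 1) (nat_lit 72057594037927936) (nat_lit 0) (nat_lit 1)) (.cons (.rf (nat_lit 4982) (nat_lit 284954954081)) (.cons (.rf (nat_lit 6217) (nat_lit 493858305440582043680)) (.cons (.rf (nat_lit 6217) (nat_lit 458117738797769787424)) .nil))))),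
 (.br (nat_lit 8) (nat_lit 1) (.cons (.ev (nat_lit 4722366482869662056449) (nat_lit 1)) (.cons (.rf (nat_lit 6218) (nat_lit 493858305440582043680)) (.cons (.br (nat_lit 12) (nat_lit 1) (.cons (.br (nat_lit 9) (nat_lit 1) (.cons (.ev (nat_lit 79230585125307655260368535811) (nat_lit 2)) (.cons (.ev (nat_lit 1213648258156196664442881) (nat_lit 1)) .nil))) (.cons (.ev (nat_lit 79229376180897179166090264576) (nat_lit 1)) (.cons (.br (nat_lit 9) (nat_lit 1) (.cons (.ev (nat_lit 79849555144806228010718986497) (nat_lit 2)) (.cons (.ev (nat_lit 310698658007442571839668224) (nat_lit 1)) .nil))) (.cons (.zr (nat_lit 237684487542793575730585468928) (nat_lit 1208962713103880417181697) (nat_lit 5) (nat_lit 10)) .nil))))) .nil)))),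
 (.br (nat_lit 8) (nat_lit 1) (.cons (.ev (nat_lit 4722366482869662056449) (nat_lit 1)) (.cons (.rf (nat_lit 6218) (nat_lit 493858305440582043680)) (.cons (.rf (nat_lit 6219) (nat_lit 493858305440582043680)) (.cons (.br (nat_lit 8) (nat_lit 1) (.cons (.ev (nat_lit 4722366482869662056449) (nat_lit 1)) (.cons (.rf (nat_lit 6218) (nat_lit 493858305440582043680)) (.cons (.rf (nat_lit 6219) (nat_lit 493858305440582043680)) .nil)))) .nil))))),
 (.br (nat_lit 8) (nat_lit 1) (.cons (.rf (nat_lit 6218) (nat_lit 493858305440582043680)) (.cons (.ev (nat_lit 4722366482869662056449) (nat_lit 1)) (.cons (.br (nat_lit 9) (nat_lit 1) (.cons (.br (nat_lit 7) (nat_lit 1) (.cons (.ev (nat_lit 310693954159762469453627648) (nat_lit 1)) (.cons (.ev (nat_lit 18518802767275884801) (nat_lit 1)) .nil))) (.cons (.rf (nat_lit 84) (nat_lit 7797580834)) (.cons (.br (nat_lit 12) (nat_lit 1) (.cons (.br (nat_lit 7) (nat_lit 1) (.cons (.ev (nat_lit 620188427305497696871186944) (nat_lit 2)) .nil)) (.cons (.rf (nat_lit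 5177) (nat_lit 14206371177)) .nil))) .nil)))) .nil)))),
 (.br (nat_lit 8) (nat_lit 1) (.cons (.rf (nat_lit 6218) (nat_lit 493858305440582043680)) (.cons (.ev (nat_lit 4722366482869662056449) (nat_lit 1)) (.cons (.rf (nat_lit 6221) (nat_lit 493858305440582043680)) (.cons (.br (nat_lit 8) (nat_lit 1) (.cons (.rf (nat_lit 6218) (nat_lit 493858305440582043680)) (.cons (.ev (nat_lit 4722366482869662056449) (nat_lit 1)) (.cons (.rf (nat_lit 6221) (nat_lit 493858305440582043680)) .nil)))) .nil))))),
 (.br (nat_lit 8) (nat_lit 1) (.cons (.rf (nat_lit 6220) (nat_lit 493858305440582043680)) (.cons (.ev (nat_lit 4722366482869662056449) (nat_lit 1)) (.cons (.rf (nat_lit 6222) (nat_lit 493858305440582043680)) (.cons (.br (nat_lit 8) (nat_lit 1) (.cons (.rf (nat_lit 6220) (nat_lit 493858305440582043680)) (.cons (.ev (nat_lit 4722366482869662056449) (nat_lit 1)) (.cons (.rf (nat_lit 6222) (nat_lit 493858305440582043680)) .nil)))) .nil))))),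
 (.br (nat_lit 8) (nat_lit 1) (.cons (.rf (nat_lit 6220) (nat_lit 493858305440582043680)) (.cons (.ev (nat_lit 4722366482869662056449) (nat_lit 1)) (.cons (.rf (nat_lit 6222) (nat_lit 493858305440582043680)) (.cons (.rf (nat_lit 6223) (nat_lit 493858305440582043680)) (.cons (.br (nat_lit 8) (nat_lit 1) (.cons (.rf (nat_lit 6220) (nat_lit 493858305440582043680)) (.cons (.ev (nat_lit 4722366482869662056449) (nat_lit 1)) (.cons (.rf (nat_lit 6222) (nat_lit 493858305440582043680)) (.cons (.rf (nat_lit 6223) (nat_lit 493858305440582043680)) .nil))))) .nil)))))),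
 (.br (nat_lit 2) (nat_lit 1) (.cons (.rf (nat_lit 84) (nat_lit 13161047105)) (.cons (.ev (nat_lit 4722366482869662056449) (nat_lit 1)) (.cons (.br (nat_lit 8) (nat_lit 1) (.cons (.ev (nat_lit 79537647542532427839784943873) (nat_lit 1)) (.cons (.br (nat_lit 12) (nat_lit 1) (.cons (.zr (nat_lit 4740813793191843397891) (nat_lit 397379961536426682880417071104) (nat_lit 10) (nat_lit 0)) (.cons (.zr (nat_lit 396450302321956822942687953152) (nat_lit 7253554917695471629631490) (nat_lit 10) (nat_lit 3)) .nil))) .nil))) (.cons (.br (nat_lit 7) (nat_lit 1) (.cons (.br (nat_lit 8) (nat_lit 1) (.cons (.ev (nat_lit 79537652246524223130246840321) (nat_lit 1)) (.cons (.br (nat_lit 12) (nat_lit 1) (.cons (.zr (nat_lit 2432074078914486460220160) (nat_lit 396759782590965504009387900929) (nat_lit 5) (nat_lit 0)) .nil)) .nil))) (.cons (.rf (nat_lit 2942) (nat_lit 14138287112418624864)) .nil))) .nil))))),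
 (.br (nat_lit 11) (nat_lit 1) (.cons (.ev (nat_lit 1208925891672227507667201) (nat_lit 1)) (.cons (.ev (nat_lit 79849555144806228010718986497) (nat_lit 2)) (.cons (.ev (nat_lit 20282410812577490039675954397441) (nat_lit 1)) .nil)))),
 (.br (nat_lit 8) (nat_lit 1) (.cons (.ev (nat_lit 4722366482869662056449) (nat_lit 1)) (.cons (.rf (nat_lit 6225) (nat_lit 493858305440582043680)) (.cons (.br (nat_lit 2) (nat_lit 1) (.cons (.rf (nat_lit 6224) (nat_lit 493858305440582043680)) (.cons (.br (nat_lit 7) (nat_lit 1) (.cons (.ev (nat_lit 310693954159762469453627648) (nat_lit 1)) (.cons (.ev (nat_lit 1208925891672227507667201) (nat_lit 1)) .nil))) (.cons (.br (nat_lit 7) (nat_lit 1) (.cons (.ev (nat_lit 311917065526133835033673985) (nat_lit 2)) (.cons (.rf (nat_lit 6226) (nat_lit 493858305440582043680)) .nil))) (.cons (.br (nat_lit 7) (nat_lit 1) (.cons (.ev (nat_lit 1208925891672227507667201) (nat_lit 1)) (.cons (.zr (nat_lit 237684487542793575730585468928) (nat_lit 1208962713103880417181697)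 (nat_lit 5) (nat_lit 10)) (.cons (.rf (nat_lit 6226) (nat_lit 493858305440582043680)) .nil)))) .nil))))) .nil)))),
 (.br (nat_lit 8) (nat_lit 1) (.cons (.ev (nat_lit 4722366482869662056449) (nat_lit 1)) (.cons (.rf (nat_lit 6225) (nat_lit 493858305440582043680)) (.cons (.rf (nat_lit 6227) (nat_lit 493858305440582043680)) (.cons (.br (nat_lit 8) (nat_lit 1) (.cons (.ev (nat_lit 4722366482869662056449) (nat_lit 1)) (.cons (.rf (nat_lit 6225) (nat_lit 493858305440582043680)) (.cons (.rf (nat_lit 6227) (nat_lit 493858305440582043680)) .nil)))) .nil))))),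
 (.br (nat_lit 8) (nat_lit 1) (.cons (.rf (nat_lit 6224) (nat_lit 493858304375430154272)) (.cons (.rf (nat_lit 6228) (nat_lit 493858304375430154272)) (.cons (.br (nat_lit 2) (nat_lit 1) (.cons (.rf (nat_lit 6224) (nat_lit 493858305440582043680)) (.cons (.ev (nat_lit 1213666632842676336066561) (nat_lit 1)) (.cons (.br (nat_lit 7) (nat_lit 1) (.cons (.ev (nat_lit 311917065526133835033673985) (nat_lit 2)) (.cons (.br (nat_lit 9) (nat_lit 1) (.cons (.ev (nat_lit 20839177995727688548874753343746) (nat_lit 3)) .nil)) .nil))) (.cons (.br (nat_lit 7) (nat_lit 1) (.cons (.ev (nat_lit 1208925891672227507667201) (nat_lit 1)) (.cons (.zr (nat_lit 237684487542793575730585468928) (nat_lit 1208962713103880417181697) (nat_lit 5) (nat_lit 10)) (.cons (.br (nat_lit 9) (nat_lit 1) (.cons (.ev (nat_lit 20839177986246493312453340890886) (nat_lit 3)) .nil)) .nil)))) .nil))))) .nil)))),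
 (.br (nat_lit 8) (nat_lit 1) (.cons (.rf (nat_lit 6224) (nat_lit 493858304375430154272)) (.cons (.rf (nat_lit 6228) (nat_lit 493858304375430154272)) (.cons (.rf (nat_lit 6229) (nat_lit 493858305440582043680)) (.cons (.br (nat_lit 8) (nat_lit 1) (.cons (.rf (nat_lit 6224) (nat_lit 493858304375430154272)) (.cons (.rf (nat_lit 6228) (nat_lit 493858304375430154272)) (.cons (.rf (nat_lit 6229) (nat_lit 493858305440582043680)) .nil)))) .nil)))))]

theorem c214 : chkAll C T R L214 (nat_lit 6199) = true := by decide +kernel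

theorem l214 : (nat_lit 6199) + L214.length = (nat_lit 6231) := by decide +kernel

/-- part of the certificates -/
def L215 : List Prf := [(.br (nat_lit 7) (nat_lit 1) (.cons (.rf (nat_lit 6224) (nat_lit 493858305440582043680)) (.cons (.rf (nat_lit 6228) (nat_lit 493858305440582043680)) (.cons (.rf (nat_lit 6230) (nat_lit 493858305440582043680)) (.cons (.br (nat_lit 8) (nat_lit 1) (.cons (.rf (nat_lit 6224) (nat_lit 493858304375430154272)) (.cons (.rf (nat_lit 6228) (nat_lit 493858304375430154272)) (.cons (.rf (nat_lit 6230) (nat_lit 493858304375430154272)) (.cons (.br (nat_lit 2) (nat_lit 1) (.cons (.rf (nat_lit 6224) (nat_lit 493858304375430154272)) (.cons (.ev (nat_lit 1213648258156196664442881) (nat_lit 1)) (.cons (.rf (nat_lit 1593) (nat_lit 282428056930)) (.cons (.zr (nat_lit 237684487542793575730585468928) (nat_lit 1208925963730921073934337) (nat_lit 5) (nat_lit 10)) .nil))))) (.cons (.br (nat_lit 8) (nat_lit 1) (.cons (.rf (nat_lit 6224) (nat_lit 493858304375430154272)) (.cons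 (.rf (nat_lit 6228) (nat_lit 493858304375430154272)) (.cons (.rf (nat_lit 6230) (nat_lit 493858304375430154272)) (.cons (.kr (nat_lit 72057594037927936) (nat_lit 18446744073709551616) (nat_lit 7) (nat_lit 0)) .nil))))) .nil)))))) .nil))))),
 (.br (nat_lit 7) (nat_lit 1) (.cons (.rf (nat_lit 6224) (nat_lit 493858305440582043680)) (.cons (.rf (nat_lit 6228) (nat_lit 493858305440582043680)) (.cons (.rf (nat_lit 6230) (nat_lit 493858305440582043680)) (.cons (.rf (nat_lit 6231) (nat_lit 493858305440582043680)) (.cons (.br (nat_lit 7) (nat_lit 1) (.cons (.rf (nat_lit 6224) (nat_lit 493858305440582043680)) (.cons (.rf (nat_lit 6228) (nat_lit 493858305440582043680)) (.cons (.rf (nat_lit 6230) (nat_lit 493858305440582043680)) (.cons (.rf (nat_lit 6231) (nat_lit 493858305440582043680)) .nil))))) .nil)))))),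
 (.br (nat_lit 2) (nat_lit 1) (.cons (.rf (nat_lit 84) (nat_lit 8999969867)) (.cons (.ev (nat_lit 4722366482869662056449) (nat_lit 1)) (.cons (.rf (nat_lit 84) (nat_lit 8837695531)) (.cons (.br (nat_lit 7) (nat_lit 1) (.cons (.rf (nat_lit 6232) (nat_lit 493858305440582043680)) (.cons (.br (nat_lit 12) (nat_lit 1) (.cons (.br (nat_lit 8) (nat_lit 1) (.cons (.ev (nat_lit 20839173169432392555021958447878) (nat_lit 3)) .nil)) (.cons (.ev (nat_lit 79537652246524223130246840321) (nat_lit 1)) .nil))) .nil))) .nil))))),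
 (.br (nat_lit 7) (nat_lit 1) (.cons (.rf (nat_lit 6224) (nat_lit 493858305440582043680)) (.cons (.rf (nat_lit 6232) (nat_lit 493858305440582043680)) (.cons (.rf (nat_lit 6233) (nat_lit 493858305440582043680)) (.cons (.br (nat_lit 7) (nat_lit 1) (.cons (.rf (nat_lit 6224) (nat_lit 493858305440582043680)) (.cons (.rf (nat_lit 6232) (nat_lit 493858305440582043680)) (.cons (.rf (nat_lit 6233) (nat_lit 493858305440582043680)) .nil)))) .nil))))),
 (.br (nat_lit 8) (nat_lit 1) (.cons (.ev (nat_lit 4722366482869662056449) (nat_lit 1)) (.cons (.rf (nat_lit 6232) (nat_lit 493858305440582043680)) (.cons (.rf (nat_lit 6234) (nat_lit 493858305440582043680)) (.cons (.br (nat_lit 8) (nat_lit 1) (.cons (.ev (nat_lit 4722366482869662056449) (nat_lit 1)) (.cons (.rf (nat_lit 6232) (nat_lit 493858305440582043680)) (.cons (.rf (nat_lit 6234) (nat_lit 493858305440582043680)) .nil)))) .nil))))),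
 (.br (nat_lit 8) (nat_lit 1) (.cons (.ev (nat_lit 4722366482869662056449) (nat_lit 1)) (.cons (.rf (nat_lit 6232) (nat_lit 493858305440582043680)) (.cons (.rf (nat_lit 6234) (nat_lit 493858305440582043680)) (.cons (.rf (nat_lit 6235) (nat_lit 493858305440582043680)) (.cons (.br (nat_lit 8) (nat_lit 1) (.cons (.ev (nat_lit 4722366482869662056449) (nat_lit 1)) (.cons (.rf (nat_lit 6232) (nat_lit 493858305440582043680)) (.cons (.rf (nat_lit 6234) (nat_lit 493858305440582043680)) (.cons (.rf (nat_lit 6235) (nat_lit 493858305440582043680)) .nil))))) .nil)))))),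
 (.br (nat_lit 8) (nat_lit 1) (.cons (.rf (nat_lit 6224) (nat_lit 493858304375430154272)) (.cons (.rf (nat_lit 6232) (nat_lit 493858305440582043680)) (.cons (.rf (nat_lit 6236) (nat_lit 493858304375430154272)) (.cons (.br (nat_lit 8) (nat_lit 1) (.cons (.rf (nat_lit 6224) (nat_lit 493858304375430154272)) (.cons (.rf (nat_lit 6232) (nat_lit 493858305440582043680)) (.cons (.rf (nat_lit 6236) (nat_lit 493858304375430154272)) .nil)))) .nil))))),
 (.br (nat_lit 8) (nat_lit 1) (.cons (.rf (nat_lit 6224) (nat_lit 493858304375430154272)) (.cons (.rf (nat_lit 6232) (nat_lit 493858305440582043680)) (.cons (.rf (nat_lit 6236) (nat_lit 493858304375430154272)) (.cons (.rf (nat_lit 6237) (nat_lit 493858305440582043680)) (.cons (.br (nat_lit 8) (nat_lit 1) (.cons (.rf (nat_lit 6224) (nat_lit 493858304375430154272)) (.cons (.rf (nat_lit 6232) (nat_lit 493858305440582043680)) (.cons (.rf (nat_lit 6236) (nat_lit 493858304375430154272)) (.cons (.rf (nat_lit 6237) (nat_lit 493858305440582043680)) .nil)))))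 .nil)))))),
 (.br (nat_lit 7) (nat_lit 1) (.cons (.rf (nat_lit 6224) (nat_lit 493858305440582043680)) (.cons (.rf (nat_lit 6232) (nat_lit 493858305440582043680)) (.cons (.rf (nat_lit 6236) (nat_lit 493858305440582043680)) (.cons (.rf (nat_lit 6238) (nat_lit 493858305440582043680)) (.cons (.br (nat_lit 7) (nat_lit 1) (.cons (.rf (nat_lit 6224) (nat_lit 493858305440582043680)) (.cons (.rf (nat_lit 6232) (nat_lit 493858305440582043680)) (.cons (.rf (nat_lit 6236) (nat_lit 493858305440582043680)) (.cons (.rf (nat_lit 6238) (nat_lit 493858305440582043680)) .nil))))) .nil)))))),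
 (.br (nat_lit 7) (nat_lit 1) (.cons (.rf (nat_lit 6224) (nat_lit 493858305440582043680)) (.cons (.rf (nat_lit 6232) (nat_lit 493858305440582043680)) (.cons (.rf (nat_lit 6236) (nat_lit 493858305440582043680)) (.cons (.rf (nat_lit 6238) (nat_lit 493858305440582043680)) (.cons (.rf (nat_lit 6239) (nat_lit 493858305440582043680)) (.cons (.br (nat_lit 7) (nat_lit 1) (.cons (.rf (nat_lit 6224) (nat_lit 493858305440582043680)) (.cons (.rf (nat_lit 6232) (nat_lit 493858305440582043680)) (.cons (.rf (nat_lit 6236) (nat_lit 493858305440582043680)) (.cons (.rf (nat_lit 6238) (nat_lit 493858305440582043680)) (.cons (.rf (nat_lit 6239) (nat_lit 493858305440582043680)) .nil)))))) .nil))))))),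
 (.br (nat_lit 10) (nat_lit 1) (.cons (.rf (nat_lit 5644) (nat_lit 383530443850)) (.cons (.br (nat_lit 4) (nat_lit 1) (.cons (.br (nat_lit 11) (nat_lit 0) (.cons (.br (nat_lit 10) (nat_lit 1) (.cons (.br (nat_lit 1) (nat_lit 1) (.cons (.br (nat_lit 9) (nat_lit 1) (.cons (.rf (nat_lit 6176) (nat_lit 493858305440582043680)) (.cons (.rf (nat_lit 6176) (nat_lit 493858304375430154272)) (.cons (.kr (nat_lit 309489732187827938369995008) (nat_lit 562949953486848) (nat_lit 1) (nat_lit 0)) (.cons (.rf (nat_lit 6180) (nat_lit 493858305440582043680)) (.cons (.rf (nat_lit 6180) (nat_lit 458117738797769787424)) .nil)))))) (.cons (.rf (nat_lit 6205) (nat_lit 493858305440582043680)) (.cons (.rf (nat_lit 6205) (nat_lit 493858304375430154272)) (.cons (.br (nat_lit 7) (nat_lit 1) (.cons (.rf (nat_lit 6207) (nat_lit 493858305440582043680)) (.cons (.rf (nat_lit 6213) (nat_lit 493858305440582043680)) (.cons (.rf (nat_lit 6215) (nat_lit 493858305440582043680)) (.cons (.rf (nat_lit 6216) (nat_lit 493858305440582043680))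 (.cons (.rf (nat_lit 6216) (nat_lit 458117738797769787424)) .nil)))))) (.cons (.kr (nat_lit 1099511627776) (nat_lit 309485009821345068724781056) (nat_lit 5) (nat_lit 0)) (.cons (.rf (nat_lit 6240) (nat_lit 493858305440582043680)) (.cons (.rf (nat_lit 6240) (nat_lit 458117738797769787424)) .nil)))))))) .nil)) (.cons (.rf (nat_lit 5644) (nat_lit 383530443850)) .nil))) (.cons (.rf (nat_lit 5912) (nat_lit 366419938220320)) .nil))) .nil))),
 (.br (nat_lit 5) (nat_lit 1) (.cons (.rf (nat_lit 5644) (nat_lit 278234470405)) (.cons (.br (nat_lit 0) (nat_lit 0) (.cons (.rf (nat_lit 5916) (nat_lit 9039967754245)) (.cons (.rf (nat_lit 5916) (nat_lit 9037822367749)) (.cons (.rf (nat_lit 6035) (nat_lit 9039967754245)) (.cons (.br (nat_lit 6) (nat_lit 0) (.cons (.rf (nat_lit 5916) (nat_lit 9039967748293)) (.cons (.rf (nat_lit 5916) (nat_lit 9037822361797)) (.cons (.rf (nat_lit 6035) (nat_lit 9039967748293)) (.cons (.br (nat_lit 4) (nat_lit 1) (.cons (.br (nat_lit 9) (nat_lit 1) (.cons (.rf (nat_lit 5644)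 (nat_lit 346953947145)) (.cons (.rf (nat_lit 5644) (nat_lit 381313685513)) (.cons (.br (nat_lit 4) (nat_lit 1) (.cons (.br (nat_lit 9) (nat_lit 1) (.cons (.rf (nat_lit 5644) (nat_lit 346953947145)) (.cons (.rf (nat_lit 5644) (nat_lit 415673423881)) (.cons (.br (nat_lit 10) (nat_lit 0) (.cons (.rf (nat_lit 6057) (nat_lit 493858305437324089349)) (.cons (.rf (nat_lit 6057) (nat_lit 493858305435178702853)) .nil))) .nil)))) (.cons (.rf (nat_lit 5912) (nat_lit 330135987324933)) .nil))) .nil)))) (.cons (.rf (nat_lit 5912) (nat_lit 327936964069381)) .nil))) .nil))))) .nil))))) .nil))),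
 (.br (nat_lit 10) (nat_lit 1) (.cons (.rf (nat_lit 5644) (nat_lit 383530443850)) (.cons (.br (nat_lit 11) (nat_lit 0) (.cons (.rf (nat_lit 6241) (nat_lit 335914243557787680)) (.cons (.rf (nat_lit 6242) (nat_lit 424470024290)) (.cons (.rf (nat_lit 6241) (nat_lit 335914243490744352)) .nil)))) .nil))),
 (.br (nat_lit 6) (nat_lit 1) (.cons (.br (nat_lit 6) (nat_lit 1) (.cons (.br (nat_lit 9) (nat_lit 1) (.cons (.rf (nat_lit 6243) (nat_lit 370817140669909024)) (.cons (.rf (nat_lit 6243) (nat_lit 406810753316784160)) (.cons (.br (nat_lit 9) (nat_lit 1) (.cons (.rf (nat_lit 6243) (nat_lit 370817140669909024)) (.cons (.rf (nat_lit 6243) (nat_lit 406810753316784160)) (.cons (.br (nat_lit 9) (nat_lit 1) (.cons (.rf (nat_lit 6243) (nat_lit 370817140669909024)) (.cons (.rf (nat_lit 6243) (nat_lit 406810753316784160)) .nil))) .nil)))) .nil)))) (.cons (.rf (nat_lit 5912) (nat_lit 329036544970816)) .nil))) (.cons (.rf (nat_lit 5912) (nat_lit 327937033343040)) .nil))),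
 (.br (nat_lit 2) (nat_lit 0) (.cons (.rf (nat_lit 6242) (nat_lit 242668999809)) (.cons (.br (nat_lit 4) (nat_lit 1) (.cons (.rf (nat_lit 6117) (nat_lit 325702574508064)) (.cons (.rf (nat_lit 6170) (nat_lit 11584701642934304)) (.cons (.br (nat_lit 6) (nat_lit 1) (.cons (.rf (nat_lit 6117) (nat_lit 325700429121568)) (.cons (.rf (nat_lit 6170) (nat_lit 12710599404390432)) (.cons (.rf (nat_lit 6172) (nat_lit 407901468851537952)) .nil)))) .nil)))) (.cons (.rf (nat_lit 6244) (nat_lit 360886946596896)) .nil)))),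
 (.br (nat_lit 7) (nat_lit 1) (.cons (.ev (nat_lit 4722366483969156841729) (nat_lit 1)) (.cons (.br (nat_lit 8) (nat_lit 1) (.cons (.ev (nat_lit 4740885566016681213953) (nat_lit 1)) (.cons (.br (nat_lit 9) (nat_lit 1) (.cons (.ev (nat_lit 1208925891672227507667201) (nat_lit 1)) (.cons (.rf (nat_lit 31) (nat_lit 275810665)) (.cons (.rf (nat_lit 6060) (nat_lit 407901468850521152)) .nil)))) (.cons (.rf (nat_lit 2594) (nat_lit 8927815009)) (.cons (.rf (nat_lit 6060) (nat_lit 407901468850521152)) .nil))))) (.cons (.rf (nat_lit 1339) (nat_lit 285925021730)) (.cons (.rf (nat_lit 6060) (nat_lit 407901468850521152)) .nil))))),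
 (.br (nat_lit 7) (nat_lit 1) (.cons (.rf (nat_lit 6246) (nat_lit 11584701642934304)) (.cons (.ev (nat_lit 4722366483969156841729) (nat_lit 1)) (.cons (.br (nat_lit 7) (nat_lit 1) (.cons (.rf (nat_lit 6246) (nat_lit 11584701642934304)) (.cons (.ev (nat_lit 72339069031481344) (nat_lit 1)) (.cons (.rf (nat_lit 6062) (nat_lit 407901468850521152)) (.cons (.rf (nat_lit 6060) (nat_lit 407901468850521152)) .nil))))) (.cons (.rf (nat_lit 6062) (nat_lit 407901468850521152)) (.cons (.rf (nat_lit 6060) (nat_lit 407901468850521152)) .nil)))))),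
 (.br (nat_lit 8) (nat_lit 1) (.cons (.rf (nat_lit 6247) (nat_lit 11584701642934304)) (.cons (.br (nat_lit 8) (nat_lit 1) (.cons (.rf (nat_lit 6247) (nat_lit 11584701642934304)) (.cons (.ev (nat_lit 4740813508422643286016) (nat_lit 1)) (.cons (.rf (nat_lit 1339) (nat_lit 251297896521)) (.cons (.rf (nat_lit 6060) (nat_lit 407901468850521152)) .nil))))) (.cons (.br (nat_lit 8) (nat_lit 1) (.cons (.rf (nat_lit 6247) (nat_lit 11584701642934304)) (.cons (.ev (nat_lit 4740813508422643286016) (nat_lit 1)) (.cons (.rf (nat_lit 6062) (nat_lit 407901468850521152)) (.cons (.rf (nat_lit 6060) (nat_lit 407901468850521152)) .nil))))) (.cons (.rf (nat_lit 6062) (nat_lit 407901468850521152)) (.cons (.rf (nat_lit 6060) (nat_lit 407901468850521152)) .nil)))))),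
 (.br (nat_lit 7) (nat_lit 1) (.cons (.ev (nat_lit 4722366483969156841729) (nat_lit 1)) (.cons (.rf (nat_lit 6248) (nat_lit 11584701642934304)) (.cons (.br (nat_lit 7) (nat_lit 1) (.cons (.ev (nat_lit 4722366483969156841729) (nat_lit 1)) (.cons (.rf (nat_lit 6248) (nat_lit 11584701642934304)) (.cons (.rf (nat_lit 6062) (nat_lit 407901468850521152)) (.cons (.rf (nat_lit 6060) (nat_lit 407901468850521152)) .nil))))) (.cons (.rf (nat_lit 6062) (nat_lit 407901468850521152)) (.cons (.rf (nat_lit 6060) (nat_lit 407901468850521152)) .nil)))))),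
 (.br (nat_lit 8) (nat_lit 1) (.cons (.rf (nat_lit 6247) (nat_lit 11584701642934304)) (.cons (.rf (nat_lit 6248) (nat_lit 11584701642934304)) (.cons (.rf (nat_lit 6249) (nat_lit 11584701642934304)) (.cons (.br (nat_lit 8) (nat_lit 1) (.cons (.rf (nat_lit 6247) (nat_lit 11584701642934304)) (.cons (.rf (nat_lit 6248) (nat_lit 11584701642934304)) (.cons (.rf (nat_lit 6249) (nat_lit 11584701642934304)) (.cons (.rf (nat_lit 6062) (nat_lit 407901468850521152)) (.cons (.rf (nat_lit 6060) (nat_lit 407901468850521152)) .nil)))))) (.cons (.rf (nat_lit 6062) (nat_lit 407901468850521152)) (.cons (.rf (nat_lit 6060) (nat_lit 407901468850521152)) .nil))))))),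
 (.br (nat_lit 8) (nat_lit 1) (.cons (.ev (nat_lit 4722366483969156841729) (nat_lit 1)) (.cons (.br (nat_lit 8) (nat_lit 1) (.cons (.ev (nat_lit 4722366483969156841729) (nat_lit 1)) (.cons (.rf (nat_lit 6062) (nat_lit 407901468850521152)) (.cons (.rf (nat_lit 6060) (nat_lit 407901468850521152)) .nil)))) (.cons (.rf (nat_lit 6062) (nat_lit 407901468850521152)) (.cons (.rf (nat_lit 6060) (nat_lit 407901468850521152)) .nil))))),
 (.br (nat_lit 8) (nat_lit 1) (.cons (.rf (nat_lit 6251) (nat_lit 11584701642934304)) (.cons (.ev (nat_lit 4722366483969156841729) (nat_lit 1)) (.cons (.br (nat_lit 8) (nat_lit 1) (.cons (.rf (nat_lit 6251) (nat_lit 11584701642934304)) (.cons (.ev (nat_lit 4722366483969156841729) (nat_lit 1)) (.cons (.rf (nat_lit 6062) (nat_lit 407901468850521152)) (.cons (.rf (nat_lit 6060) (nat_lit 407901468850521152)) .nil))))) (.cons (.rf (nat_lit 6062) (nat_lit 407901468850521152)) (.cons (.rf (nat_lit 6060) (nat_lit 407901468850521152)) .nil)))))),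
 (.br (nat_lit 8) (nat_lit 1) (.cons (.ev (nat_lit 4722366483969156841729) (nat_lit 1)) (.cons (.br (nat_lit 8) (nat_lit 1) (.cons (.ev (nat_lit 4722366483969156841729) (nat_lit 1)) (.cons (.rf (nat_lit 6062) (nat_lit 407901468850521152)) (.cons (.rf (nat_lit 6060) (nat_lit 407901468850521152)) .nil)))) (.cons (.rf (nat_lit 6062) (nat_lit 407901468850521152)) (.cons (.rf (nat_lit 6060) (nat_lit 407901468850521152)) .nil))))),
 (.br (nat_lit 7) (nat_lit 1) (.cons (.rf (nat_lit 6252) (nat_lit 11584701642934304)) (.cons (.rf (nat_lit 6253) (nat_lit 11584701642934304)) (.cons (.br (nat_lit 7) (nat_lit 1) (.cons (.rf (nat_lit 6252) (nat_lit 11584701642934304)) (.cons (.rf (nat_lit 6253) (nat_lit 11584701642934304)) (.cons (.rf (nat_lit 6062) (nat_lit 407901468850521152)) (.cons (.rf (nat_lit 6060) (nat_lit 407901468850521152)) .nil))))) (.cons (.rf (nat_lit 6062) (nat_lit 407901468850521152)) (.cons (.rf (nat_lit 6060) (nat_lit 407901468850521152)) .nil)))))),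
 (.br (nat_lit 8) (nat_lit 1) (.cons (.ev (nat_lit 4722366483969156841729) (nat_lit 1)) (.cons (.rf (nat_lit 6254) (nat_lit 11584701642934304)) (.cons (.br (nat_lit 8) (nat_lit 1) (.cons (.ev (nat_lit 4722366483969156841729) (nat_lit 1)) (.cons (.rf (nat_lit 6254) (nat_lit 11584701642934304)) (.cons (.rf (nat_lit 6062) (nat_lit 407901468850521152)) (.cons (.rf (nat_lit 6060) (nat_lit 407901468850521152)) .nil))))) (.cons (.rf (nat_lit 6062) (nat_lit 407901468850521152)) (.cons (.rf (nat_lit 6060) (nat_lit 407901468850521152)) .nil)))))),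
 (.br (nat_lit 6) (nat_lit 1) (.cons (.rf (nat_lit 6058) (nat_lit 11584701641917504)) (.cons (.br (nat_lit 2) (nat_lit 1) (.cons (.rf (nat_lit 6065) (nat_lit 11584701641917504)) (.cons (.rf (nat_lit 6250) (nat_lit 11584701642934304)) (.cons (.rf (nat_lit 6250) (nat_lit 11583636491044896)) (.cons (.kr (nat_lit 4294967296) (nat_lit 4722366482869645213696) (nat_lit 4) (nat_lit 0)) (.cons (.br (nat_lit 7) (nat_lit 1) (.cons (.rf (nat_lit 6252) (nat_lit 11584701642934304)) (.cons (.rf (nat_lit 6254) (nat_lit 11584701642934304)) (.cons (.rf (nat_lit 6255) (nat_lit 11584701642934304)) (.cons (.br (nat_lit 7) (nat_lit 1) (.cons (.rf (nat_lit 6252) (nat_lit 11584701642934304)) (.cons (.rf (nat_lit 6254) (nat_lit 11584701642934304)) (.cons (.rf (nat_lit 6255) (nat_lit 11584701642934304)) (.cons (.rf (nat_lit 6062) (nat_lit 407901468850521152)) (.cons (.rf (nat_lit 6060) (nat_lit 407901468850521152)) .nil)))))) (.cons (.rf (nat_lit 6062) (nat_lit 407901468850521152)) (.cons (.rf (nat_lit 6060) (nat_lit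 407901468850521152)) .nil))))))) (.cons (.rf (nat_lit 6062) (nat_lit 407901468850521152)) (.cons (.rf (nat_lit 6060) (nat_lit 407901468850521152)) .nil)))))))) .nil))),
 (.br (nat_lit 13) (nat_lit 1) (.cons (.zr (nat_lit 1213666633404526777860608) (nat_lit 618970019786806425053822977) (nat_lit 5) (nat_lit 3)) (.cons (.zr (nat_lit 2417851639229258349609728) (nat_lit 158456325028528957765887983617) (nat_lit 5) (nat_lit 0)) .nil)))]

theorem c215 : chkAll C T R L215 (nat_lit 6231) = true := by decide +kernel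

theorem l215 : (nat_lit 6231) + L215.length = (nat_lit 6258) := by decide +kernel

/-- part of the certificates -/
def L216 : List Prf := [(.br (nat_lit 8) (nat_lit 1) (.cons (.rf (nat_lit 2594) (nat_lit 7921216801)) (.cons (.rf (nat_lit 82) (nat_lit 13128477761)) (.cons (.br (nat_lit 7) (nat_lit 1) (.cons (.ev (nat_lit 72058697844523264) (nat_lit 1)) (.cons (.rf (nat_lit 6257) (nat_lit 493858305440582043680)) (.cons (.rf (nat_lit 6257) (nat_lit 458117738797769787424)) .nil)))) .nil)))),
 (.br (nat_lit 8) (nat_lit 1) (.cons (.rf (nat_lit 4982) (nat_lit 284954952779)) (.cons (.rf (nat_lit 1343) (nat_lit 423332392001)) (.cons (.rf (nat_lit 6258) (nat_lit 493858305440582043680)) (.cons (.rf (nat_lit 6258) (nat_lit 458117738797769787424)) .nil))))),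
 (.br (nat_lit 13) (nat_lit 1) (.cons (.zr (nat_lit 14222440806729971138560) (nat_lit 620178945606421058523496449) (nat_lit 5) (nat_lit 3)) (.cons (.kr (nat_lit 79228162514264619068520726528) (nat_lit 309485009893402667057676288) (nat_lit 2) (nat_lit 0)) .nil))),
 (.br (nat_lit 7) (nat_lit 1) (.cons (.rf (nat_lit 6260) (nat_lit 493858305440582043680)) (.cons (.rf (nat_lit 6260) (nat_lit 458045751569222404128)) .nil))),
 (.br (nat_lit 7) (nat_lit 1) (.cons (.rf (nat_lit 6261) (nat_lit 493858305440582043680)) (.cons (.ev (nat_lit 309489732260167007401410816) (nat_lit 1)) .nil))),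
 (.br (nat_lit 11) (nat_lit 1) (.cons (.rf (nat_lit 6259) (nat_lit 493786318212034660384)) (.cons (.rf (nat_lit 6259) (nat_lit 493786317147923973184)) (.cons (.rf (nat_lit 2305) (nat_lit 14713562082593)) (.cons (.br (nat_lit 7) (nat_lit 1) (.cons (.rf (nat_lit 6261) (nat_lit 493858305440582043680)) (.cons (.rf (nat_lit 6262) (nat_lit 493858305440582043680)) (.cons (.rf (nat_lit 6262) (nat_lit 458045751569222404128)) .nil)))) .nil))))),
 (.br (nat_lit 9) (nat_lit 1) (.cons (.rf (nat_lit 6259) (nat_lit 493858305440582043680)) (.cons (.rf (nat_lit 6259) (nat_lit 493858304374388950080)) (.cons (.rf (nat_lit 5676) (nat_lit 14716784352297)) (.cons (.rf (nat_lit 6263) (nat_lit 493858305440582043680)) (.cons (.rf (nat_lit 6263) (nat_lit 458117738797769787424)) .nil)))))),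
 (.br (nat_lit 7) (nat_lit 1) (.cons (.rf (nat_lit 84) (nat_lit 13160983586)) (.cons (.br (nat_lit 8) (nat_lit 1) (.cons (.rf (nat_lit 84) (nat_lit 13128215842)) (.cons (.rf (nat_lit 5177) (nat_lit 13329736738)) (.cons (.br (nat_lit 12) (nat_lit 1) (.cons (.ev (nat_lit 309489732260167007401410816) (nat_lit 1)) (.cons (.zr (nat_lit 3631518272070830879278339) (nat_lit 316912650057417922031283863552) (nat_lit 10) (nat_lit 0)) .nil))) .nil)))) (.cons (.br (nat_lit 11) (nat_lit 1) (.cons (.rf (nat_lit 84) (nat_lit 13128215842)) (.cons (.br (nat_lit 8) (nat_lit 1) (.cons (.zr (nat_lit 928455029536374283778916353) (nat_lit 158457533954348290915791012352) (nat_lit 5) (nat_lit 5)) (.cons (.ev (nat_lit 310693954087703775920783361) (nat_lit 1)) .nil))) (.cons (.ev (nat_lit 309489732260167007401410816) (nat_lit 1)) .nil)))) .nil)))),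
 (.br (nat_lit 2) (nat_lit 1) (.cons (.kr (nat_lit 1) (nat_lit 72057594037927936) (nat_lit 0) (nat_lit 1)) (.cons (.rf (nat_lit 4982) (nat_lit 250595248171)) (.cons (.ev (nat_lit 309489732188109413363482881) (nat_lit 1)) (.cons (.rf (nat_lit 6265) (nat_lit 493858305440582043680)) (.cons (.rf (nat_lit 6265) (nat_lit 458117738797769787424)) .nil)))))),
 (.br (nat_lit 13) (nat_lit 1) (.cons (.zr (nat_lit 928469196779656597223768064) (nat_lit 1208962713385355393892353) (nat_lit 5) (nat_lit 10)) (.cons (.zr (nat_lit 14222440243784312684544) (nat_lit 158457533954348290915791142913) (nat_lit 5) (nat_lit 3)) .nil))),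
 (.br (nat_lit 7) (nat_lit 1) (.cons (.ev (nat_lit 1213666705181741055737856) (nat_lit 1)) (.cons (.rf (nat_lit 6267) (nat_lit 493858305440582043680)) (.cons (.rf (nat_lit 6267) (nat_lit 458117738797769787424)) .nil)))),
 (.br (nat_lit 13) (nat_lit 1) (.cons (.zr (nat_lit 14167171508402013601793) (nat_lit 158457533954348571295534285312) (nat_lit 5) (nat_lit 4)) (.cons (.zr (nat_lit 928469196563483815109984258) (nat_lit 1208962713385355393892352) (nat_lit 5) (nat_lit 10)) .nil))),
 (.br (nat_lit 12) (nat_lit 1) (.cons (.ev (nat_lit 79229371458530977771421761536) (nat_lit 1)) (.cons (.rf (nat_lit 6269) (nat_lit 493858305440582043680)) (.cons (.rf (nat_lit 6269) (nat_lit 493786318212034660384)) (.cons (.ev (nat_lit 79229371440083953326525251841) (nat_lit 1)) .nil))))),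
 (.br (nat_lit 8) (nat_lit 1) (.cons (.rf (nat_lit 6264) (nat_lit 493858305440582043680)) (.cons (.rf (nat_lit 6266) (nat_lit 493858305440582043680)) (.cons (.rf (nat_lit 6266) (nat_lit 493786318212034660384)) (.cons (.br (nat_lit 2) (nat_lit 1) (.cons (.kr (nat_lit 1) (nat_lit 72057594037927936) (nat_lit 0) (nat_lit 1)) (.cons (.rf (nat_lit 6268) (nat_lit 493858305440582043680)) (.cons (.rf (nat_lit 6268) (nat_lit 493786318212034660384)) (.cons (.rf (nat_lit 6270) (nat_lit 493858305440582043680)) (.cons (.rf (nat_lit 6270) (nat_lit 458117738797769787424)) .nil)))))) .nil))))),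
 (.br (nat_lit 8) (nat_lit 1) (.cons (.rf (nat_lit 6264) (nat_lit 493858305440582043680)) (.cons (.rf (nat_lit 6266) (nat_lit 493858305440582043680)) (.cons (.rf (nat_lit 6266) (nat_lit 493786318212034660384)) (.cons (.rf (nat_lit 6271) (nat_lit 493858305440582043680)) (.cons (.rf (nat_lit 6271) (nat_lit 458117738797769787424)) .nil)))))),
 (.br (nat_lit 8) (nat_lit 1) (.cons (.ev (nat_lit 311907639311967555910959875) (nat_lit 2)) (.cons (.ev (nat_lit 18519083142741032961) (nat_lit 1)) .nil))),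
 (.br (nat_lit 7) (nat_lit 1) (.cons (.rf (nat_lit 82) (nat_lit 13161039913)) (.cons (.rf (nat_lit 2594) (nat_lit 8993868137)) (.cons (.br (nat_lit 2) (nat_lit 1) (.cons (.ev (nat_lit 18447025548703105024) (nat_lit 1)) (.cons (.rf (nat_lit 6273) (nat_lit 493858305440582043680)) (.cons (.rf (nat_lit 6273) (nat_lit 458117738797769787424)) .nil)))) .nil)))),
 (.br (nat_lit 7) (nat_lit 1) (.cons (.rf (nat_lit 1343) (nat_lit 423325052193)) (.cons (.rf (nat_lit 4982) (nat_lit 252742738978)) (.cons (.rf (nat_lit 6274) (nat_lit 493858305440582043680)) (.cons (.rf (nat_lit 6274) (nat_lit 458117738797769787424)) .nil))))),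
 (.br (nat_lit 12) (nat_lit 1) (.cons (.rf (nat_lit 84) (nat_lit 7797517377)) (.cons (.br (nat_lit 2) (nat_lit 1) (.cons (.ev (nat_lit 79850768774618486761955852544) (nat_lit 2)) (.cons (.br (nat_lit 7) (nat_lit 1) (.cons (.ev (nat_lit 20283340486106923226639756297478) (nat_lit 3)) .nil)) .nil))) (.cons (.rf (nat_lit 6272) (nat_lit 303254469589879399786)) .nil)))),
 (.br (nat_lit 8) (nat_lit 1) (.cons (.rf (nat_lit 6264) (nat_lit 493858305440582043680)) (.cons (.rf (nat_lit 6272) (nat_lit 493858305440582043680)) (.cons (.rf (nat_lit 6275) (nat_lit 493858305440582043680)) (.cons (.br (nat_lit 11) (nat_lit 1) (.cons (.ev (nat_lit 309489732188109413363482881) (nat_lit 1)) (.cons (.ev (nat_lit 310693954087703775920783361) (nat_lit 1)) (.cons (.rf (nat_lit 6276) (nat_lit 493858305440582043680)) (.cons (.rf (nat_lit 6276) (nat_lit 458117738797769787424)) .nil))))) .nil))))),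
 (.br (nat_lit 8) (nat_lit 1) (.cons (.rf (nat_lit 6264) (nat_lit 493858305440582043680)) (.cons (.rf (nat_lit 6272) (nat_lit 493858305440582043680)) (.cons (.rf (nat_lit 6275) (nat_lit 493858305440582043680)) (.cons (.rf (nat_lit 6277) (nat_lit 493858305440582043680)) (.cons (.rf (nat_lit 6277) (nat_lit 458117738797769787424)) .nil)))))),
 (.br (nat_lit 8) (nat_lit 1) (.cons (.rf (nat_lit 6264) (nat_lit 493858305440582043680)) (.cons (.rf (nat_lit 6272) (nat_lit 493858305440582043680)) (.cons (.rf (nat_lit 6278) (nat_lit 493858305440582043680)) (.cons (.rf (nat_lit 6278) (nat_lit 493786318212034660384)) (.cons (.br (nat_lit 8) (nat_lit 1) (.cons (.rf (nat_lit 6264) (nat_lit 493858305440582043680)) (.cons (.rf (nat_lit 6272) (nat_lit 493858305440582043680)) (.cons (.rf (nat_lit 6278) (nat_lit 493858305440582043680)) (.cons (.rf (nat_lit 6278) (nat_lit 493786318212034660384)) .nil))))) .nil)))))),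
 (.br (nat_lit 8) (nat_lit 1) (.cons (.rf (nat_lit 6264) (nat_lit 493858305440582043680)) (.cons (.rf (nat_lit 6272) (nat_lit 493858305440582043680)) (.cons (.rf (nat_lit 6278) (nat_lit 493858305440582043680)) (.cons (.rf (nat_lit 6278) (nat_lit 493786318212034660384)) (.cons (.rf (nat_lit 6279) (nat_lit 493858305440582043680)) (.cons (.rf (nat_lit 6279) (nat_lit 458117738797769787424)) .nil))))))),
 (.br (nat_lit 8) (nat_lit 1) (.cons (.ev (nat_lit 79229371440084233697712209921) (nat_lit 1)) (.cons (.br (nat_lit 12) (nat_lit 1) (.cons (.zr (nat_lit 79537647524447940957295673344) (nat_lit 2417925426207756539397122) (nat_lit 10) (nat_lit 5)) .nil)) .nil))),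
 (.br (nat_lit 2) (nat_lit 1) (.cons (.rf (nat_lit 84) (nat_lit 13161047105)) (.cons (.rf (nat_lit 84) (nat_lit 13128477761)) (.cons (.br (nat_lit 7) (nat_lit 1) (.cons (.ev (nat_lit 79228167236702878061538902273) (nat_lit 1)) (.cons (.br (nat_lit 8) (nat_lit 1) (.cons (.ev (nat_lit 79537647542532709310466687233) (nat_lit 1)) (.cons (.br (nat_lit 12) (nat_lit 1) (.cons (.ev (nat_lit 20837323484631220876311814799620) (nat_lit 3)) .nil)) .nil))) .nil))) (.cons (.br (nat_lit 7) (nat_lit 1) (.cons (.rf (nat_lit 6281) (nat_lit 493858305440582043680)) (.cons (.rf (nat_lit 6281) (nat_lit 458117738796728583232)) .nil))) .nil))))),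
 (.br (nat_lit 1) (nat_lit 1) (.cons (.ev (nat_lit 309489732187829042176655361) (nat_lit 1)) (.cons (.rf (nat_lit 4982) (nat_lit 284954953058)) (.cons (.rf (nat_lit 4982) (nat_lit 252742731042)) (.cons (.rf (nat_lit 6282) (nat_lit 493858305440582043680)) (.cons (.rf (nat_lit 6282) (nat_lit 458117738797769787424)) .nil)))))),
 (.br (nat_lit 2) (nat_lit 1) (.cons (.rf (nat_lit 82) (nat_lit 9000004897)) (.cons (.br (nat_lit 12) (nat_lit 1) (.cons (.ev (nat_lit 20363190050622602818057606071558) (nat_lit 3)) .nil)) .nil))),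
 (.br (nat_lit 12) (nat_lit 1) (.cons (.ev (nat_lit 79229371458530697400234803456) (nat_lit 1)) (.cons (.ev (nat_lit 79229371458530977771421761536) (nat_lit 1)) (.cons (.rf (nat_lit 6280) (nat_lit 303254469589879399786)) (.cons (.br (nat_lit 1) (nat_lit 1) (.cons (.ev (nat_lit 79229371440083953326525251841) (nat_lit 1)) (.cons (.zr (nat_lit 237684487542793294264198497024) (nat_lit 620178982355794013571776513) (nat_lit 5) (nat_lit 3)) (.cons (.zr (nat_lit 60847228825122326895431826539264) (nat_lit 396142021497141584076233244673) (nat_lit 5) (nat_lit 0)) .nil)))) .nil))))),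
 (.br (nat_lit 8) (nat_lit 1) (.cons (.rf (nat_lit 6280) (nat_lit 493858304375430154272)) (.cons (.rf (nat_lit 6280) (nat_lit 493858304374388950080)) (.cons (.rf (nat_lit 6283) (nat_lit 493858305440582043680)) (.cons (.br (nat_lit 7) (nat_lit 1) (.cons (.rf (nat_lit 6280) (nat_lit 493858305440582043680)) (.cons (.rf (nat_lit 6280) (nat_lit 493858305439540839488)) (.cons (.br (nat_lit 1) (nat_lit 1) (.cons (.rf (nat_lit 29) (nat_lit 7709761)) (.cons (.rf (nat_lit 6284) (nat_lit 493858305440582043680)) (.cons (.rf (nat_lit 6284) (nat_lit 458117738797769787424)) .nil)))) (.cons (.rf (nat_lit 6285) (nat_lit 493858305440582043680)) (.cons (.rf (nat_lit 6285) (nat_lit 458117738797769787424)) .nil)))))) .nil))))),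
 (.br (nat_lit 8) (nat_lit 1) (.cons (.rf (nat_lit 6280) (nat_lit 493858304375430154272)) (.cons (.rf (nat_lit 6280) (nat_lit 493858304374388950080)) (.cons (.rf (nat_lit 6283) (nat_lit 493858305440582043680)) (.cons (.rf (nat_lit 6286) (nat_lit 493858305440582043680)) (.cons (.rf (nat_lit 6286) (nat_lit 458117738797769787424)) .nil)))))),
 (.br (nat_lit 8) (nat_lit 1) (.cons (.rf (nat_lit 6280) (nat_lit 493858304375430154272)) (.cons (.rf (nat_lit 6280) (nat_lit 493858304374388950080)) (.cons (.rf (nat_lit 6287) (nat_lit 493858304375430154272)) (.cons (.rf (nat_lit 6287) (nat_lit 493786317146882770976)) (.cons (.kr (nat_lit 72057594037927936) (nat_lit 18446744073709551616) (nat_lit 7) (nat_lit 0)) .nil)))))),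
 (.br (nat_lit 7) (nat_lit 1) (.cons (.rf (nat_lit 6280) (nat_lit 493858305440582043680)) (.cons (.rf (nat_lit 6280) (nat_lit 493858305439540839488)) (.cons (.rf (nat_lit 6287) (nat_lit 493858305440582043680)) (.cons (.rf (nat_lit 6287) (nat_lit 493786318212034660384)) (.cons (.br (nat_lit 8) (nat_lit 1) (.cons (.rf (nat_lit 6280) (nat_lit 493858304375430154272)) (.cons (.rf (nat_lit 6280) (nat_lit 493858304374388950080)) (.cons (.rf (nat_lit 6287) (nat_lit 493858304375430154272)) (.cons (.rf (nat_lit 6287) (nat_lit 493786317146882770976)) (.cons (.rf (nat_lit 6288) (nat_lit 493858305440582043680)) (.cons (.rf (nat_lit 6288) (nat_lit 458117738797769787424)) .nil))))))) .nil)))))),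
 (.br (nat_lit 7) (nat_lit 1) (.cons (.rf (nat_lit 6280) (nat_lit 493858305440582043680)) (.cons (.rf (nat_lit 6280) (nat_lit 493858305439540839488)) (.cons (.rf (nat_lit 6287) (nat_lit 493858305440582043680)) (.cons (.rf (nat_lit 6287) (nat_lit 493786318212034660384)) (.cons (.rf (nat_lit 6289) (nat_lit 493858305440582043680)) (.cons (.rf (nat_lit 6289) (nat_lit 458117738797769787424)) .nil))))))),
 (.br (nat_lit 7) (nat_lit 1) (.cons (.rf (nat_lit 6280) (nat_lit 493858305440582043680)) (.cons (.rf (nat_lit 6280) (nat_lit 493858305439540839488)) (.cons (.rf (nat_lit 6290) (nat_lit 493858305440582043680)) (.cons (.ev (nat_lit 310693935713017296249159681) (nat_lit 1)) .nil)))))]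

theorem c216 : chkAll C T R L216 (nat_lit 6258) = true := by decide +kernel

theorem l216 : (nat_lit 6258) + L216.length = (nat_lit 6292) := by decide +kernel

/-- part of the certificates -/
def L217 : List Prf := [(.br (nat_lit 7) (nat_lit 1) (.cons (.rf (nat_lit 6280) (nat_lit 493858305440582043680)) (.cons (.rf (nat_lit 6280) (nat_lit 493858305439540839488)) (.cons (.rf (nat_lit 6290) (nat_lit 493858305440582043680)) (.cons (.rf (nat_lit 6291) (nat_lit 493858305440582043680)) (.cons (.rf (nat_lit 6291) (nat_lit 458117738797769787424)) .nil)))))),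
 (.br (nat_lit 8) (nat_lit 1) (.cons (.rf (nat_lit 6280) (nat_lit 493858304375430154272)) (.cons (.rf (nat_lit 6280) (nat_lit 493858304374388950080)) (.cons (.rf (nat_lit 6290) (nat_lit 493858305440582043680)) (.cons (.rf (nat_lit 6292) (nat_lit 493858305440582043680)) (.cons (.br (nat_lit 8) (nat_lit 1) (.cons (.rf (nat_lit 6280) (nat_lit 493858304375430154272)) (.cons (.rf (nat_lit 6280) (nat_lit 493858304374388950080)) (.cons (.rf (nat_lit 6290) (nat_lit 493858305440582043680)) (.cons (.ev (nat_lit 1213666633124147017809921) (nat_lit 1)) .nil))))) .nil)))))),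
 (.br (nat_lit 8) (nat_lit 1) (.cons (.rf (nat_lit 6280) (nat_lit 493858304375430154272)) (.cons (.rf (nat_lit 6280) (nat_lit 493858304374388950080)) (.cons (.rf (nat_lit 6290) (nat_lit 493858305440582043680)) (.cons (.rf (nat_lit 6292) (nat_lit 493858305440582043680)) (.cons (.rf (nat_lit 6293) (nat_lit 493858305440582043680)) (.cons (.rf (nat_lit 6293) (nat_lit 458117738797769787424)) .nil))))))),
 (.br (nat_lit 7) (nat_lit 1) (.cons (.rf (nat_lit 6280) (nat_lit 493858305440582043680)) (.cons (.rf (nat_lit 6280) (nat_lit 493858305439540839488)) (.cons (.rf (nat_lit 6290) (nat_lit 493858305440582043680)) (.cons (.rf (nat_lit 6294) (nat_lit 493858305440582043680)) (.cons (.rf (nat_lit 6294) (nat_lit 493786318212034660384)) (.cons (.br (nat_lit 7) (nat_lit 1) (.cons (.rf (nat_lit 6280) (nat_lit 493858305440582043680)) (.cons (.rf (nat_lit 6280) (nat_lit 493858305439540839488)) (.cons (.rf (nat_lit 6290) (nat_lit 493858305440582043680)) (.cons (.rf (nat_lit 6294) (nat_lit 493858305440582043680))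 (.cons (.rf (nat_lit 6294) (nat_lit 493786318212034660384)) .nil)))))) .nil))))))),
 (.br (nat_lit 9) (nat_lit 0) (.cons (.rf (nat_lit 6256) (nat_lit 325702574508064)) (.cons (.rf (nat_lit 6256) (nat_lit 325701533303872)) (.cons (.br (nat_lit 5) (nat_lit 1) (.cons (.br (nat_lit 6) (nat_lit 1) (.cons (.br (nat_lit 11) (nat_lit 0) (.cons (.br (nat_lit 10) (nat_lit 1) (.cons (.br (nat_lit 10) (nat_lit 1) (.cons (.br (nat_lit 7) (nat_lit 1) (.cons (.rf (nat_lit 6280) (nat_lit 493858305440582043680)) (.cons (.rf (nat_lit 6280) (nat_lit 493858305439540839488)) (.cons (.rf (nat_lit 6290) (nat_lit 493858305440582043680)) (.cons (.rf (nat_lit 6294) (nat_lit 493858305440582043680)) (.cons (.rf (nat_lit 6294) (nat_lit 493786318212034660384)) (.cons (.rf (nat_lit 6295) (nat_lit 493858305440582043680)) (.cons (.rf (nat_lit 6295) (nat_lit 458117738797769787424)) .nil)))))))) .nil)) .nil)) .nil)) (.cons (.rf (nat_lit 5912) (nat_lit 365320428687648)) .nil))) (.cons (.rf (nat_lit 5912) (nat_lit 364220949597472))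 .nil))) .nil)))),
 (.br (nat_lit 9) (nat_lit 1) (.cons (.br (nat_lit 9) (nat_lit 1) (.cons (.rf (nat_lit 6245) (nat_lit 47629211902185)) .nil)) .nil)),
 (.br (nat_lit 9) (nat_lit 0) (.cons (.rf (nat_lit 6058) (nat_lit 11584699530053664)) (.cons (.br (nat_lit 10) (nat_lit 0) (.cons (.br (nat_lit 10) (nat_lit 0) (.cons (.rf (nat_lit 6297) (nat_lit 398339061418016)) .nil)) (.cons (.rf (nat_lit 6297) (nat_lit 398339061418016)) .nil))) .nil))),
 (.br (nat_lit 12) (nat_lit 1) (.cons (.ev (nat_lit 310693954159762469453627648) (nat_lit 1)) (.cons (.zr (nat_lit 618970019642690137449759488) (nat_lit 158456325028528957765887983617) (nat_lit 5) (nat_lit 0)) .nil))),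
 (.br (nat_lit 8) (nat_lit 1) (.cons (.rf (nat_lit 2594) (nat_lit 7921215777)) (.cons (.rf (nat_lit 82) (nat_lit 13128476737)) (.cons (.br (nat_lit 7) (nat_lit 1) (.cons (.ev (nat_lit 1213648258436567851335936) (nat_lit 1)) (.cons (.rf (nat_lit 6299) (nat_lit 493858305440582043680)) (.cons (.rf (nat_lit 6299) (nat_lit 458117738797769787424)) .nil)))) .nil)))),
 (.br (nat_lit 8) (nat_lit 1) (.cons (.rf (nat_lit 4982) (nat_lit 284956001354)) (.cons (.rf (nat_lit 1343) (nat_lit 424406132801)) (.cons (.rf (nat_lit 6300) (nat_lit 493858305440582043680)) (.cons (.rf (nat_lit 6300) (nat_lit 458117738797769787424)) .nil))))),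
 (.br (nat_lit 10) (nat_lit 1) (.cons (.rf (nat_lit 1343) (nat_lit 424407180353)) (.cons (.ev (nat_lit 1213666632842676336132096) (nat_lit 1)) (.cons (.rf (nat_lit 4505) (nat_lit 267271872357468192)) (.cons (.rf (nat_lit 4505) (nat_lit 266181156822714400)) .nil))))),
 (.br (nat_lit 7) (nat_lit 1) (.cons (.br (nat_lit 8) (nat_lit 1) (.cons (.ev (nat_lit 79228167255149903605930197248) (nat_lit 1)) (.cons (.zr (nat_lit 3640944558292496459759620) (nat_lit 309485046859230983019823104) (nat_lit 5) (nat_lit 11)) .nil))) (.cons (.br (nat_lit 12) (nat_lit 1) (.cons (.zr (nat_lit 14167315621408229294080) (nat_lit 311902898354345048998412289) (nat_lit 5) (nat_lit 3)) (.cons (.zr (nat_lit 14167315621408229294080) (nat_lit 40565128692313162475537732599809) (nat_lit 5) (nat_lit 3)) .nil))) .nil))),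
 (.br (nat_lit 7) (nat_lit 1) (.cons (.rf (nat_lit 6303) (nat_lit 493858305440582043680)) (.cons (.br (nat_lit 13) (nat_lit 1) (.cons (.zr (nat_lit 1237940039285380274899322112) (nat_lit 40564819216748218211400668938241) (nat_lit 5) (nat_lit 0)) (.cons (.ev (nat_lit 20361638979814193198108646572288) (nat_lit 1)) .nil))) .nil))),
 (.br (nat_lit 10) (nat_lit 1) (.cons (.rf (nat_lit 4505) (nat_lit 303299568825631808)) (.cons (.rf (nat_lit 6301) (nat_lit 493857213658854196288)) (.cons (.rf (nat_lit 2305) (nat_lit 14713563130145)) (.cons (.br (nat_lit 7) (nat_lit 1) (.cons (.rf (nat_lit 6303) (nat_lit 493858305440582043680)) (.cons (.rf (nat_lit 6304) (nat_lit 493858305440582043680)) (.cons (.br (nat_lit 7) (nat_lit 1) (.cons (.rf (nat_lit 6303) (nat_lit 493858305440582043680)) (.cons (.rf (nat_lit 6304) (nat_lit 493858305440582043680)) .nil))) .nil)))) .nil))))),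
 (.br (nat_lit 9) (nat_lit 1) (.cons (.rf (nat_lit 6301) (nat_lit 493858305440582043680)) (.cons (.rf (nat_lit 6302) (nat_lit 493858305440582043680)) (.cons (.rf (nat_lit 5676) (nat_lit 14717857045545)) (.cons (.rf (nat_lit 6305) (nat_lit 493858305440582043680)) (.cons (.rf (nat_lit 6305) (nat_lit 458117738797769787424)) .nil)))))),
 (.br (nat_lit 7) (nat_lit 1) (.cons (.rf (nat_lit 84) (nat_lit 13160982562)) (.cons (.br (nat_lit 8) (nat_lit 1) (.cons (.rf (nat_lit 84) (nat_lit 13128214818)) (.cons (.ev (nat_lit 79228167255149903605930197248) (nat_lit 1)) (.cons (.br (nat_lit 10) (nat_lit 1) (.cons (.ev (nat_lit 80159044858620217201505927424) (nat_lit 2)) (.cons (.br (nat_lit 12) (nat_lit 1) (.cons (.ev (nat_lit 20838864864977297876284277719810) (nat_lit 3)) .nil)) .nil))) .nil)))) (.cons (.br (nat_lit 8) (nat_lit 1) (.cons (.rf (nat_lit 84) (nat_lit 13128214818)) (.cons (.rf (nat_lit 6125) (nat_lit 493858305439541856288)) (.cons (.br (nat_lit 13) (nat_lit 1) (.cons (.ev (nat_lit 20282719088680010852158717100033)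 (nat_lit 1)) (.cons (.ev (nat_lit 20282409608392483932365599604993) (nat_lit 1)) .nil))) .nil)))) .nil)))),
 (.br (nat_lit 2) (nat_lit 1) (.cons (.kr (nat_lit 1) (nat_lit 72057594037927936) (nat_lit 0) (nat_lit 1)) (.cons (.rf (nat_lit 4982) (nat_lit 250596296746)) (.cons (.rf (nat_lit 31) (nat_lit 276071746)) (.cons (.rf (nat_lit 6307) (nat_lit 493858305440582043680)) (.cons (.rf (nat_lit 6307) (nat_lit 458117738797769787424)) .nil)))))),
 (.br (nat_lit 7) (nat_lit 1) (.cons (.rf (nat_lit 84) (nat_lit 13161014306)) (.cons (.br (nat_lit 8) (nat_lit 1) (.cons (.rf (nat_lit 84) (nat_lit 13128214818)) (.cons (.ev (nat_lit 79229371458602754994272796928) (nat_lit 1)) (.cons (.br (nat_lit 9) (nat_lit 1) (.cons (.ev (nat_lit 80159044858620217201505927424) (nat_lit 2)) (.cons (.rf (nat_lit 1704) (nat_lit 440509452095957291)) .nil))) .nil)))) (.cons (.br (nat_lit 8) (nat_lit 1) (.cons (.rf (nat_lit 84) (nat_lit 13128214818)) (.cons (.br (nat_lit 9) (nat_lit 1) (.cons (.kr (nat_lit 4722366482869645213697)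 (nat_lit 79228162514264337593543950592) (nat_lit 0) (nat_lit 2)) (.cons (.br (nat_lit 12) (nat_lit 1) (.cons (.ev (nat_lit 21472085768479927986570532031244) (nat_lit 4)) .nil)) .nil))) (.cons (.br (nat_lit 13) (nat_lit 1) (.cons (.ev (nat_lit 20282719088680010852158717100033) (nat_lit 1)) (.cons (.ev (nat_lit 20282410812595936783753942204673) (nat_lit 1)) .nil))) .nil)))) .nil)))),
 (.br (nat_lit 2) (nat_lit 1) (.cons (.kr (nat_lit 1) (nat_lit 72057594037927936) (nat_lit 0) (nat_lit 1)) (.cons (.rf (nat_lit 4982) (nat_lit 251670038569)) (.cons (.rf (nat_lit 31) (nat_lit 276104482)) (.cons (.rf (nat_lit 6309) (nat_lit 493858305440582043680)) (.cons (.rf (nat_lit 6309) (nat_lit 458117738797769787424)) .nil)))))),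
 (.br (nat_lit 10) (nat_lit 1) (.cons (.ev (nat_lit 79537647542604765805009764353) (nat_lit 1)) (.cons (.zr (nat_lit 3640944774465278573543424) (nat_lit 309485046715115794943967233) (nat_lit 5) (nat_lit 11)) .nil))),
 (.br (nat_lit 13) (nat_lit 1) (.cons (.zr (nat_lit 3640944774465278573543424) (nat_lit 309485046715115794943967233) (nat_lit 5) (nat_lit 11)) (.cons (.kr (nat_lit 79228162514264337593544015872) (nat_lit 1208944266358702884257792) (nat_lit 2) (nat_lit 0)) .nil))),
 (.br (nat_lit 9) (nat_lit 1) (.cons (.br (nat_lit 10) (nat_lit 1) (.cons (.rf (nat_lit 82) (nat_lit 9000264738)) (.cons (.br (nat_lit 12) (nat_lit 1) (.cons (.ev (nat_lit 79538861190718525338604863488) (nat_lit 1)) .nil)) .nil))) (.cons (.br (nat_lit 12) (nat_lit 1) (.cons (.rf (nat_lit 31) (nat_lit 410060105)) (.cons (.zr (nat_lit 237688114320251856668155970304) (nat_lit 309485046715115794943967233) (nat_lit 5) (nat_lit 11)) .nil))) (.cons (.kr (nat_lit 4722366482869645213697) (nat_lit 79228162514264337593543950592)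 (nat_lit 0) (nat_lit 2)) (.cons (.br (nat_lit 12) (nat_lit 1) (.cons (.rf (nat_lit 5837) (nat_lit 493858059147832042528)) (.cons (.zr (nat_lit 3640944558292496459759618) (nat_lit 309485046715115794943967232) (nat_lit 5) (nat_lit 11)) (.cons (.rf (nat_lit 6310) (nat_lit 303220656343217187115)) .nil)))) .nil))))),
 (.br (nat_lit 8) (nat_lit 1) (.cons (.rf (nat_lit 6306) (nat_lit 493858305440582043680)) (.cons (.rf (nat_lit 6308) (nat_lit 493858305440582043680)) (.cons (.rf (nat_lit 6310) (nat_lit 493858305440582043680)) (.cons (.br (nat_lit 2) (nat_lit 1) (.cons (.kr (nat_lit 1) (nat_lit 72057594037927936) (nat_lit 0) (nat_lit 1)) (.cons (.br (nat_lit 7) (nat_lit 1) (.cons (.ev (nat_lit 310693954087704875415699713) (nat_lit 1)) (.cons (.rf (nat_lit 6311) (nat_lit 493858305440582043680)) (.cons (.rf (nat_lit 6311) (nat_lit 458117738797769787424)) .nil)))) (.cons (.br (nat_lit 7) (nat_lit 1) (.cons (.ev (nat_lit 309489750634853487073100033) (nat_lit 1)) (.cons (.rf (nat_lit 6312) (nat_lit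 493858305440582043680)) (.cons (.rf (nat_lit 6312) (nat_lit 458117738797769787424)) .nil)))) (.cons (.rf (nat_lit 6313) (nat_lit 493858305440582043680)) (.cons (.rf (nat_lit 6313) (nat_lit 458117738797769787424)) .nil)))))) .nil))))),
 (.br (nat_lit 8) (nat_lit 1) (.cons (.rf (nat_lit 6306) (nat_lit 493858305440582043680)) (.cons (.rf (nat_lit 6308) (nat_lit 493858305440582043680)) (.cons (.rf (nat_lit 6310) (nat_lit 493858305440582043680)) (.cons (.rf (nat_lit 6314) (nat_lit 493858305440582043680)) (.cons (.rf (nat_lit 6314) (nat_lit 458117738797769787424)) .nil)))))),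
 (.br (nat_lit 8) (nat_lit 1) (.cons (.ev (nat_lit 620183686419649105668276481) (nat_lit 2)) (.cons (.ev (nat_lit 1213666704900270374060033) (nat_lit 1)) .nil))),
 (.br (nat_lit 7) (nat_lit 1) (.cons (.rf (nat_lit 82) (nat_lit 13161007145)) (.cons (.rf (nat_lit 2594) (nat_lit 8993868105)) (.cons (.br (nat_lit 2) (nat_lit 1) (.cons (.ev (nat_lit 1213666632842676336132096) (nat_lit 1)) (.cons (.rf (nat_lit 6316) (nat_lit 493858305440582043680)) (.cons (.rf (nat_lit 6316) (nat_lit 458117738797769787424)) .nil)))) .nil)))),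
 (.br (nat_lit 7) (nat_lit 1) (.cons (.rf (nat_lit 1343) (nat_lit 424398792993)) (.cons (.rf (nat_lit 4982) (nat_lit 251670045730)) (.cons (.rf (nat_lit 6317) (nat_lit 493858305440582043680)) (.cons (.rf (nat_lit 6317) (nat_lit 458117738797769787424)) .nil))))),
 (.br (nat_lit 12) (nat_lit 1) (.cons (.ev (nat_lit 80159044858620217201505927424) (nat_lit 2)) (.cons (.ev (nat_lit 79228167255077846011892269313) (nat_lit 1)) .nil))),
 (.br (nat_lit 10) (nat_lit 1) (.cons (.br (nat_lit 7) (nat_lit 1) (.cons (.ev (nat_lit 79229371440156291291750072321) (nat_lit 1)) (.cons (.rf (nat_lit 6139) (nat_lit 493858305439541856288)) .nil))) (.cons (.ev (nat_lit 310693954087704875415699713) (nat_lit 1)) (.cons (.br (nat_lit 12) (nat_lit 1) (.cons (.rf (nat_lit 6140) (nat_lit 493858305439541856288)) (.cons (.ev (nat_lit 20361638979832567604217131368448) (nat_lit 1)) .nil))) .nil)))),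
 (.br (nat_lit 8) (nat_lit 1) (.cons (.rf (nat_lit 6302) (nat_lit 493858305440582043680)) (.cons (.rf (nat_lit 6315) (nat_lit 493858305440582043680)) (.cons (.rf (nat_lit 6318) (nat_lit 493858305440582043680)) (.cons (.br (nat_lit 2) (nat_lit 1) (.cons (.br (nat_lit 7) (nat_lit 1) (.cons (.ev (nat_lit 310693954087704875415699713) (nat_lit 1)) (.cons (.rf (nat_lit 6319) (nat_lit 493858305440582043680)) (.cons (.rf (nat_lit 6319) (nat_lit 458117738797769787424)) .nil)))) (.cons (.rf (nat_lit 1593) (nat_lit 459875288386)) (.cons (.rf (nat_lit 6320) (nat_lit 493858305440582043680)) (.cons (.rf (nat_lit 6320) (nat_lit 458117738797769787424)) .nil))))) .nil))))),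
 (.br (nat_lit 8) (nat_lit 1) (.cons (.rf (nat_lit 6302) (nat_lit 493858305440582043680)) (.cons (.rf (nat_lit 6315) (nat_lit 493858305440582043680)) (.cons (.rf (nat_lit 6318) (nat_lit 493858305440582043680)) (.cons (.rf (nat_lit 6321) (nat_lit 493858305440582043680)) (.cons (.rf (nat_lit 6321) (nat_lit 458117738797769787424)) .nil)))))),
 (.br (nat_lit 9) (nat_lit 1) (.cons (.br (nat_lit 7) (nat_lit 1) (.cons (.ev (nat_lit 79228167236702879161033687041) (nat_lit 1)) (.cons (.br (nat_lit 12) (nat_lit 1) (.cons (.ev (nat_lit 21472071242406260981864312669960) (nat_lit 4)) .nil)) .nil))) (.cons (.ev (nat_lit 309489750634853487073100033) (nat_lit 1)) (.cons (.br (nat_lit 12) (nat_lit 1) (.cons (.br (nat_lit 7) (nat_lit 1) (.cons (.ev (nat_lit 21157634453686461134533735285508) (nat_lit 4)) .nil)) (.cons (.ev (nat_lit 20361638979832567604217131368448) (nat_lit 1)) .nil))) .nil))))]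

theorem c217 : chkAll C T R L217 (nat_lit 6292) = true := by decide +kernel

theorem l217 : (nat_lit 6292) + L217.length = (nat_lit 6324) := by decide +kernel

/-- part of the certificates -/
def L218 : List Prf := [(.br (nat_lit 8) (nat_lit 1) (.cons (.rf (nat_lit 6306) (nat_lit 493858305440582043680)) (.cons (.rf (nat_lit 6315) (nat_lit 493858305440582043680)) (.cons (.rf (nat_lit 6318) (nat_lit 493858305440582043680)) (.cons (.br (nat_lit 2) (nat_lit 1) (.cons (.rf (nat_lit 6322) (nat_lit 493857214724006085696)) (.cons (.rf (nat_lit 1593) (nat_lit 459908842786)) (.cons (.rf (nat_lit 6323) (nat_lit 493858305440582043680)) (.cons (.rf (nat_lit 6323) (nat_lit 458117738797769787424)) .nil))))) .nil))))),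
 (.br (nat_lit 8) (nat_lit 1) (.cons (.rf (nat_lit 6306) (nat_lit 493858305440582043680)) (.cons (.rf (nat_lit 6315) (nat_lit 493858305440582043680)) (.cons (.rf (nat_lit 6318) (nat_lit 493858305440582043680)) (.cons (.rf (nat_lit 6324) (nat_lit 493858305440582043680)) (.cons (.rf (nat_lit 6324) (nat_lit 458117738797769787424)) .nil)))))),
 (.br (nat_lit 8) (nat_lit 1) (.cons (.rf (nat_lit 6306) (nat_lit 493858305440582043680)) (.cons (.rf (nat_lit 6315) (nat_lit 493858305440582043680)) (.cons (.rf (nat_lit 6322) (nat_lit 493858305440582043680)) (.cons (.rf (nat_lit 6325) (nat_lit 493858305440582043680)) (.cons (.br (nat_lit 8) (nat_lit 1) (.cons (.rf (nat_lit 6306) (nat_lit 493858305440582043680)) (.cons (.rf (nat_lit 6315) (nat_lit 493858305440582043680)) (.cons (.rf (nat_lit 6322) (nat_lit 493858305440582043680)) (.cons (.rf (nat_lit 6325) (nat_lit 493858305440582043680)) .nil))))) .nil)))))),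
 (.br (nat_lit 8) (nat_lit 1) (.cons (.rf (nat_lit 6306) (nat_lit 493858305440582043680)) (.cons (.rf (nat_lit 6315) (nat_lit 493858305440582043680)) (.cons (.rf (nat_lit 6322) (nat_lit 493858305440582043680)) (.cons (.rf (nat_lit 6325) (nat_lit 493858305440582043680)) (.cons (.rf (nat_lit 6326) (nat_lit 493858305440582043680)) (.cons (.rf (nat_lit 6326) (nat_lit 458117738797769787424)) .nil))))))),
 (.br (nat_lit 2) (nat_lit 1) (.cons (.rf (nat_lit 84) (nat_lit 13161014337)) (.cons (.rf (nat_lit 84) (nat_lit 13128476737)) (.cons (.br (nat_lit 7) (nat_lit 1) (.cons (.ev (nat_lit 79228167236702879161033687041) (nat_lit 1)) (.cons (.br (nat_lit 8) (nat_lit 1) (.cons (.ev (nat_lit 79229371458530977771421696001) (nat_lit 1)) (.cons (.br (nat_lit 12) (nat_lit 1) (.cons (.ev (nat_lit 20838864865051229528509565174020) (nat_lit 3)) .nil)) .nil))) .nil))) (.cons (.br (nat_lit 7) (nat_lit 1) (.cons (.br (nat_lit 8) (nat_lit 1) (.cons (.ev (nat_lit 79537647542604765805009764353) (nat_lit 1)) (.cons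 (.br (nat_lit 12) (nat_lit 1) (.cons (.ev (nat_lit 21954867867246799255137557880580) (nat_lit 5)) .nil)) .nil))) (.cons (.br (nat_lit 8) (nat_lit 1) (.cons (.rf (nat_lit 6149) (nat_lit 493858305439541856288)) (.cons (.ev (nat_lit 20282719088680010571787530141953) (nat_lit 1)) .nil))) .nil))) .nil))))),
 (.br (nat_lit 1) (nat_lit 1) (.cons (.rf (nat_lit 31) (nat_lit 276112449)) (.cons (.rf (nat_lit 4982) (nat_lit 284956001602)) (.cons (.rf (nat_lit 4982) (nat_lit 251670037794)) (.cons (.rf (nat_lit 6328) (nat_lit 493858305440582043680)) (.cons (.rf (nat_lit 6328) (nat_lit 458117738797769787424)) .nil)))))),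
 (.br (nat_lit 2) (nat_lit 1) (.cons (.rf (nat_lit 82) (nat_lit 9000003873)) (.cons (.br (nat_lit 12) (nat_lit 1) (.cons (.ev (nat_lit 20362881774538601087618055996678) (nat_lit 3)) .nil)) .nil))),
 (.br (nat_lit 10) (nat_lit 1) (.cons (.br (nat_lit 2) (nat_lit 1) (.cons (.ev (nat_lit 79537647542604485433822806273) (nat_lit 1)) (.cons (.rf (nat_lit 6153) (nat_lit 493858305439541856288)) .nil))) (.cons (.br (nat_lit 13) (nat_lit 1) (.cons (.zr (nat_lit 1208926035787411288621824) (nat_lit 309485046715115794943967233) (nat_lit 5) (nat_lit 0)) (.cons (.kr (nat_lit 79228162514264337593544015872) (nat_lit 1208944266358702884257792) (nat_lit 2) (nat_lit 0)) .nil))) (.cons (.ev (nat_lit 310693954160042840640454656) (nat_lit 1)) (.cons (.rf (nat_lit 6327) (nat_lit 303219565626641229131)) .nil))))),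
 (.br (nat_lit 8) (nat_lit 1) (.cons (.rf (nat_lit 6327) (nat_lit 493858304375430154272)) (.cons (.rf (nat_lit 6327) (nat_lit 493857213658854196288)) (.cons (.rf (nat_lit 6329) (nat_lit 493858305440582043680)) (.cons (.br (nat_lit 7) (nat_lit 1) (.cons (.rf (nat_lit 6327) (nat_lit 493858305440582043680)) (.cons (.rf (nat_lit 6327) (nat_lit 493857214724006085696)) (.cons (.br (nat_lit 1) (nat_lit 1) (.cons (.rf (nat_lit 29) (nat_lit 7676993)) (.cons (.rf (nat_lit 6330) (nat_lit 493858305440582043680)) (.cons (.rf (nat_lit 6330) (nat_lit 458117738797769787424)) .nil)))) (.cons (.rf (nat_lit 6331) (nat_lit 493858305440582043680)) (.cons (.rf (nat_lit 6331) (nat_lit 458117738797769787424)) .nil)))))) .nil))))),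
 (.br (nat_lit 8) (nat_lit 1) (.cons (.rf (nat_lit 6327) (nat_lit 493858304375430154272)) (.cons (.rf (nat_lit 6327) (nat_lit 493857213658854196288)) (.cons (.rf (nat_lit 6329) (nat_lit 493858305440582043680)) (.cons (.rf (nat_lit 6332) (nat_lit 493858305440582043680)) (.cons (.rf (nat_lit 6332) (nat_lit 458117738797769787424)) .nil)))))),
 (.br (nat_lit 8) (nat_lit 1) (.cons (.rf (nat_lit 6327) (nat_lit 493858304375430154272)) (.cons (.rf (nat_lit 6327) (nat_lit 493857213658854196288)) (.cons (.rf (nat_lit 6333) (nat_lit 493858304375430154272)) (.cons (.rf (nat_lit 6333) (nat_lit 493857213658854196288)) (.cons (.kr (nat_lit 72057594037927936) (nat_lit 18446744073709551616) (nat_lit 7) (nat_lit 0)) .nil)))))),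
 (.br (nat_lit 7) (nat_lit 1) (.cons (.rf (nat_lit 6327) (nat_lit 493858305440582043680)) (.cons (.rf (nat_lit 6327) (nat_lit 493857214724006085696)) (.cons (.rf (nat_lit 6333) (nat_lit 493858305440582043680)) (.cons (.rf (nat_lit 6333) (nat_lit 493857214724006085696)) (.cons (.br (nat_lit 8) (nat_lit 1) (.cons (.rf (nat_lit 6327) (nat_lit 493858304375430154272)) (.cons (.rf (nat_lit 6327) (nat_lit 493857213658854196288)) (.cons (.rf (nat_lit 6333) (nat_lit 493858304375430154272)) (.cons (.rf (nat_lit 6333) (nat_lit 493857213658854196288)) (.cons (.rf (nat_lit 6334) (nat_lit 493858305440582043680)) (.cons (.rf (nat_lit 6334) (nat_lit 458117738797769787424)) .nil))))))) .nil)))))),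
 (.br (nat_lit 7) (nat_lit 1) (.cons (.rf (nat_lit 6327) (nat_lit 493858305440582043680)) (.cons (.rf (nat_lit 6327) (nat_lit 493857214724006085696)) (.cons (.rf (nat_lit 6333) (nat_lit 493858305440582043680)) (.cons (.rf (nat_lit 6333) (nat_lit 493857214724006085696)) (.cons (.rf (nat_lit 6335) (nat_lit 493858305440582043680)) (.cons (.rf (nat_lit 6335) (nat_lit 458117738797769787424)) .nil))))))),
 (.br (nat_lit 8) (nat_lit 1) (.cons (.rf (nat_lit 6327) (nat_lit 493858304375430154272)) (.cons (.rf (nat_lit 6327) (nat_lit 493857213658854196288)) (.cons (.rf (nat_lit 6161) (nat_lit 493858305439541856288)) .nil)))),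
 (.br (nat_lit 7) (nat_lit 1) (.cons (.rf (nat_lit 6327) (nat_lit 493858305440582043680)) (.cons (.rf (nat_lit 6327) (nat_lit 493857214724006085696)) (.cons (.rf (nat_lit 6336) (nat_lit 493858305440582043680)) (.cons (.br (nat_lit 8) (nat_lit 1) (.cons (.rf (nat_lit 6327) (nat_lit 493858304375430154272)) (.cons (.rf (nat_lit 6327) (nat_lit 493857213658854196288)) (.cons (.rf (nat_lit 6337) (nat_lit 493858305440582043680)) (.cons (.rf (nat_lit 6337) (nat_lit 458117738797769787424)) .nil))))) .nil))))),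
 (.br (nat_lit 7) (nat_lit 1) (.cons (.rf (nat_lit 6327) (nat_lit 493858305440582043680)) (.cons (.rf (nat_lit 6327) (nat_lit 493857214724006085696)) (.cons (.rf (nat_lit 6336) (nat_lit 493858305440582043680)) (.cons (.rf (nat_lit 6338) (nat_lit 493858305440582043680)) (.cons (.rf (nat_lit 6338) (nat_lit 458117738797769787424)) .nil)))))),
 (.br (nat_lit 8) (nat_lit 1) (.cons (.rf (nat_lit 6327) (nat_lit 493858304375430154272)) (.cons (.rf (nat_lit 6327) (nat_lit 493857213658854196288)) (.cons (.rf (nat_lit 6336) (nat_lit 493858305440582043680)) (.cons (.rf (nat_lit 6339) (nat_lit 493858305440582043680)) (.cons (.br (nat_lit 8) (nat_lit 1) (.cons (.rf (nat_lit 6327) (nat_lit 493858304375430154272)) (.cons (.rf (nat_lit 6327) (nat_lit 493857213658854196288)) (.cons (.rf (nat_lit 6336) (nat_lit 493858305440582043680)) (.cons (.rf (nat_lit 6339) (nat_lit 493858305440582043680)) .nil))))) .nil)))))),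
 (.br (nat_lit 8) (nat_lit 1) (.cons (.rf (nat_lit 6327) (nat_lit 493858304375430154272)) (.cons (.rf (nat_lit 6327) (nat_lit 493857213658854196288)) (.cons (.rf (nat_lit 6336) (nat_lit 493858305440582043680)) (.cons (.rf (nat_lit 6339) (nat_lit 493858305440582043680)) (.cons (.rf (nat_lit 6340) (nat_lit 493858305440582043680)) (.cons (.rf (nat_lit 6340) (nat_lit 458117738797769787424)) .nil))))))),
 (.br (nat_lit 7) (nat_lit 1) (.cons (.rf (nat_lit 6327) (nat_lit 493858305440582043680)) (.cons (.rf (nat_lit 6327) (nat_lit 493857214724006085696)) (.cons (.rf (nat_lit 6336) (nat_lit 493858305440582043680)) (.cons (.rf (nat_lit 6341) (nat_lit 493858305440582043680)) (.cons (.rf (nat_lit 6341) (nat_lit 493857214724006085696)) (.cons (.br (nat_lit 7) (nat_lit 1) (.cons (.rf (nat_lit 6327) (nat_lit 493858305440582043680)) (.cons (.rf (nat_lit 6327) (nat_lit 493857214724006085696)) (.cons (.rf (nat_lit 6336) (nat_lit 493858305440582043680)) (.cons (.rf (nat_lit 6341) (nat_lit 493858305440582043680))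 (.cons (.rf (nat_lit 6341) (nat_lit 493857214724006085696)) .nil)))))) .nil))))))),
 (.br (nat_lit 9) (nat_lit 0) (.cons (.rf (nat_lit 6058) (nat_lit 11584699530053664)) (.cons (.br (nat_lit 5) (nat_lit 1) (.cons (.br (nat_lit 10) (nat_lit 0) (.cons (.br (nat_lit 11) (nat_lit 1) (.cons (.br (nat_lit 11) (nat_lit 1) (.cons (.br (nat_lit 7) (nat_lit 1) (.cons (.rf (nat_lit 6327) (nat_lit 493858305440582043680)) (.cons (.rf (nat_lit 6327) (nat_lit 493857214724006085696)) (.cons (.rf (nat_lit 6336) (nat_lit 493858305440582043680)) (.cons (.rf (nat_lit 6341) (nat_lit 493858305440582043680)) (.cons (.rf (nat_lit 6341) (nat_lit 493857214724006085696)) (.cons (.rf (nat_lit 6342) (nat_lit 493858305440582043680)) (.cons (.rf (nat_lit 6342) (nat_lit 458117738797769787424)) .nil)))))))) .nil)) .nil)) .nil)) (.cons (.rf (nat_lit 5912) (nat_lit 400504833314080)) .nil))) .nil))),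
 (.br (nat_lit 9) (nat_lit 0) (.cons (.rf (nat_lit 6298) (nat_lit 11584701642934304)) (.cons (.rf (nat_lit 6343) (nat_lit 11584701642934304)) (.cons (.br (nat_lit 9) (nat_lit 0) (.cons (.rf (nat_lit 6298) (nat_lit 11584701642934304)) (.cons (.rf (nat_lit 6343) (nat_lit 11584701642934304)) .nil))) .nil)))),
 (.br (nat_lit 5) (nat_lit 1) (.cons (.br (nat_lit 5) (nat_lit 1) (.cons (.rf (nat_lit 5912) (nat_lit 365320461225248)) .nil)) (.cons (.rf (nat_lit 5912) (nat_lit 364220949597472)) .nil))),
 (.br (nat_lit 10) (nat_lit 1) (.cons (.rf (nat_lit 5644) (nat_lit 383530443850)) (.cons (.br (nat_lit 11) (nat_lit 0) (.cons (.rf (nat_lit 6242) (nat_lit 424470024290)) (.cons (.br (nat_lit 11) (nat_lit 0) (.cons (.rf (nat_lit 6242) (nat_lit 424470024290)) .nil)) .nil))) .nil))),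
 (.br (nat_lit 12) (nat_lit 1) (.cons (.rf (nat_lit 31) (nat_lit 410362945)) (.cons (.ev (nat_lit 79229371440083953326525251841) (nat_lit 1)) .nil))),
 (.br (nat_lit 8) (nat_lit 1) (.cons (.rf (nat_lit 31) (nat_lit 276145217)) (.cons (.br (nat_lit 7) (nat_lit 1) (.cons (.ev (nat_lit 310698676454186641271029761) (nat_lit 1)) (.cons (.rf (nat_lit 6347) (nat_lit 493858305440582043680)) (.cons (.rf (nat_lit 6347) (nat_lit 458117738797769787424)) .nil)))) .nil))),
 (.br (nat_lit 8) (nat_lit 1) (.cons (.rf (nat_lit 31) (nat_lit 276145217)) (.cons (.rf (nat_lit 6348) (nat_lit 493858305440582043680)) (.cons (.rf (nat_lit 6348) (nat_lit 458117738797769787424)) .nil)))),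
 (.br (nat_lit 12) (nat_lit 1) (.cons (.zr (nat_lit 237684487561240319812884955136) (nat_lit 1223092919064337638752260) (nat_lit 5) (nat_lit 10)) (.cons (.ev (nat_lit 79229371440083953326525251841) (nat_lit 1)) .nil))),
 (.br (nat_lit 8) (nat_lit 1) (.cons (.rf (nat_lit 31) (nat_lit 276081729)) (.cons (.br (nat_lit 7) (nat_lit 1) (.cons (.ev (nat_lit 310698676454186641271029761) (nat_lit 1)) (.cons (.rf (nat_lit 6350) (nat_lit 493858305440582043680)) (.cons (.rf (nat_lit 6350) (nat_lit 458117738797769787424)) .nil)))) .nil))),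
 (.br (nat_lit 8) (nat_lit 1) (.cons (.rf (nat_lit 31) (nat_lit 276081729)) (.cons (.rf (nat_lit 6351) (nat_lit 493858305440582043680)) (.cons (.rf (nat_lit 6351) (nat_lit 458117738797769787424)) .nil)))),
 (.br (nat_lit 8) (nat_lit 1) (.cons (.rf (nat_lit 6347) (nat_lit 493858304375430154272)) (.cons (.rf (nat_lit 6352) (nat_lit 493858304375430154272)) (.cons (.kr (nat_lit 72057594037927936) (nat_lit 18446744073709551616) (nat_lit 7) (nat_lit 0)) .nil)))),
 (.br (nat_lit 7) (nat_lit 1) (.cons (.rf (nat_lit 6349) (nat_lit 493858305440582043680)) (.cons (.rf (nat_lit 6352) (nat_lit 493858305440582043680)) (.cons (.br (nat_lit 8) (nat_lit 1) (.cons (.rf (nat_lit 6349) (nat_lit 493858304375430154272)) (.cons (.rf (nat_lit 6352) (nat_lit 493858304375430154272)) (.cons (.rf (nat_lit 6353) (nat_lit 493858305440582043680)) (.cons (.rf (nat_lit 6353) (nat_lit 458117738797769787424)) .nil))))) .nil)))),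
 (.br (nat_lit 7) (nat_lit 1) (.cons (.rf (nat_lit 6349) (nat_lit 493858305440582043680)) (.cons (.rf (nat_lit 6352) (nat_lit 493858305440582043680)) (.cons (.rf (nat_lit 6354) (nat_lit 493858305440582043680)) (.cons (.rf (nat_lit 6354) (nat_lit 458117738797769787424)) .nil))))),
 (.br (nat_lit 7) (nat_lit 1) (.cons (.rf (nat_lit 6355) (nat_lit 493858305440582043680)) (.cons (.rf (nat_lit 29) (nat_lit 7709761)) (.cons (.rf (nat_lit 6347) (nat_lit 493858305440582043680)) (.cons (.br (nat_lit 8) (nat_lit 1) (.cons (.rf (nat_lit 6355) (nat_lit 493858305440582043680)) (.cons (.rf (nat_lit 5676) (nat_lit 14717076905249)) (.cons (.rf (nat_lit 6347) (nat_lit 458117738797769787424)) .nil)))) .nil)))))]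

theorem c218 : chkAll C T R L218 (nat_lit 6324) = true := by decide +kernel

theorem l218 : (nat_lit 6324) + L218.length = (nat_lit 6357) := by decide +kernel

/-- part of the certificates -/
def L219 : List Prf := [(.br (nat_lit 8) (nat_lit 1) (.cons (.rf (nat_lit 6355) (nat_lit 493858305440582043680)) (.cons (.rf (nat_lit 5676) (nat_lit 14717076905249)) (.cons (.rf (nat_lit 6356) (nat_lit 493858305440582043680)) (.cons (.rf (nat_lit 6356) (nat_lit 458117738797769787424)) .nil))))),
 (.br (nat_lit 8) (nat_lit 1) (.cons (.rf (nat_lit 6355) (nat_lit 493858305440582043680)) (.cons (.rf (nat_lit 5676) (nat_lit 14717076873505)) (.cons (.br (nat_lit 8) (nat_lit 1) (.cons (.rf (nat_lit 6355) (nat_lit 493858305440582043680)) (.cons (.rf (nat_lit 1593) (nat_lit 459874249793)) .nil))) .nil)))),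
 (.br (nat_lit 8) (nat_lit 1) (.cons (.rf (nat_lit 6355) (nat_lit 493858305440582043680)) (.cons (.rf (nat_lit 5676) (nat_lit 14717076873505)) (.cons (.rf (nat_lit 6358) (nat_lit 493858305440582043680)) (.cons (.rf (nat_lit 6358) (nat_lit 458117738797769787424)) .nil))))),
 (.br (nat_lit 7) (nat_lit 1) (.cons (.rf (nat_lit 6355) (nat_lit 493858305440582043680)) (.cons (.rf (nat_lit 6357) (nat_lit 493858305440582043680)) (.cons (.rf (nat_lit 6359) (nat_lit 493858305440582043680)) (.cons (.br (nat_lit 7) (nat_lit 1) (.cons (.rf (nat_lit 6355) (nat_lit 493858305440582043680)) (.cons (.rf (nat_lit 1593) (nat_lit 459874217025)) (.cons (.rf (nat_lit 1593) (nat_lit 459941323841)) .nil)))) .nil))))),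
 (.br (nat_lit 7) (nat_lit 1) (.cons (.rf (nat_lit 6355) (nat_lit 493858305440582043680)) (.cons (.rf (nat_lit 6357) (nat_lit 493858305440582043680)) (.cons (.rf (nat_lit 6359) (nat_lit 493858305440582043680)) (.cons (.rf (nat_lit 6360) (nat_lit 493858305440582043680)) (.cons (.rf (nat_lit 6360) (nat_lit 458117738797769787424)) .nil)))))),
 (.br (nat_lit 11) (nat_lit 1) (.cons (.ev (nat_lit 309485009893403762274402304) (nat_lit 1)) (.cons (.ev (nat_lit 309489750706630709924134913) (nat_lit 1)) .nil))),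
 (.br (nat_lit 8) (nat_lit 1) (.cons (.rf (nat_lit 2594) (nat_lit 7920168226)) (.cons (.rf (nat_lit 82) (nat_lit 13128477730)) (.cons (.br (nat_lit 7) (nat_lit 1) (.cons (.zr (nat_lit 2432018738959342261764864) (nat_lit 618970056536179388692037633) (nat_lit 5) (nat_lit 3)) (.cons (.rf (nat_lit 6362) (nat_lit 493858305440582043680)) (.cons (.rf (nat_lit 6362) (nat_lit 458117738797769787424)) .nil)))) .nil)))),
 (.br (nat_lit 12) (nat_lit 1) (.cons (.rf (nat_lit 2594) (nat_lit 8827317537)) (.cons (.rf (nat_lit 2594) (nat_lit 8836745505)) (.cons (.ev (nat_lit 79229376162450436191875498241) (nat_lit 1)) .nil)))),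
 (.br (nat_lit 7) (nat_lit 1) (.cons (.rf (nat_lit 2594) (nat_lit 8994925857)) (.cons (.rf (nat_lit 82) (nat_lit 13160983617)) (.cons (.br (nat_lit 8) (nat_lit 1) (.cons (.ev (nat_lit 310693935713017296249159681) (nat_lit 1)) (.cons (.rf (nat_lit 6364) (nat_lit 493858305440582043680)) (.cons (.rf (nat_lit 6364) (nat_lit 458117738797769787424)) .nil)))) .nil)))),
 (.br (nat_lit 13) (nat_lit 1) (.cons (.br (nat_lit 7) (nat_lit 1) (.cons (.ev (nat_lit 310698676526244235308957696) (nat_lit 1)) (.cons (.br (nat_lit 8) (nat_lit 1) (.cons (.ev (nat_lit 79228167236630820467500974336) (nat_lit 1)) .nil)) .nil))) (.cons (.br (nat_lit 7) (nat_lit 1) (.cons (.br (nat_lit 11) (nat_lit 1) (.cons (.ev (nat_lit 310693935713017296249159681) (nat_lit 1)) .nil)) (.cons (.ev (nat_lit 20282719093383930309479675985921) (nat_lit 1)) (.cons (.br (nat_lit 8) (nat_lit 1) (.cons (.ev (nat_lit 310693935713017296249159681) (nat_lit 1)) .nil)) .nil)))) .nil))),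
 (.br (nat_lit 13) (nat_lit 1) (.cons (.rf (nat_lit 6366) (nat_lit 493858305440582043680)) (.cons (.br (nat_lit 13) (nat_lit 1) (.cons (.rf (nat_lit 6366) (nat_lit 493858305440582043680)) (.cons (.zr (nat_lit 928469196563765290086694914) (nat_lit 40564820416229160463627500651008) (nat_lit 5) (nat_lit 5)) .nil))) (.cons (.br (nat_lit 13) (nat_lit 1) (.cons (.rf (nat_lit 6366) (nat_lit 493858305440582043680)) (.cons (.zr (nat_lit 928469196563765290086694914) (nat_lit 40564820416229160463627500651008) (nat_lit 5) (nat_lit 5)) .nil))) .nil)))),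
 (.br (nat_lit 13) (nat_lit 1) (.cons (.rf (nat_lit 6366) (nat_lit 493858305440582043680)) (.cons (.br (nat_lit 8) (nat_lit 1) (.cons (.br (nat_lit 7) (nat_lit 1) (.cons (.ev (nat_lit 310693935713017296249159681) (nat_lit 1)) .nil)) (.cons (.ev (nat_lit 79228162532711081667270344961) (nat_lit 1)) .nil))) .nil))),
 (.br (nat_lit 13) (nat_lit 1) (.cons (.rf (nat_lit 6366) (nat_lit 493858305440582043680)) (.cons (.rf (nat_lit 6368) (nat_lit 493858305440582043680)) (.cons (.br (nat_lit 13) (nat_lit 1) (.cons (.rf (nat_lit 6366) (nat_lit 493858305440582043680)) (.cons (.rf (nat_lit 6368) (nat_lit 493858305440582043680)) .nil))) .nil)))),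
 (.br (nat_lit 13) (nat_lit 1) (.cons (.rf (nat_lit 6367) (nat_lit 493858305440582043680)) (.cons (.rf (nat_lit 6369) (nat_lit 493858305440582043680)) (.cons (.br (nat_lit 13) (nat_lit 1) (.cons (.zr (nat_lit 928469196563765290086694914) (nat_lit 40564820416229160463627500651008) (nat_lit 5) (nat_lit 5)) (.cons (.rf (nat_lit 6369) (nat_lit 493858305440582043680)) .nil))) .nil)))),
 (.br (nat_lit 13) (nat_lit 1) (.cons (.rf (nat_lit 6367) (nat_lit 493858305440582043680)) (.cons (.rf (nat_lit 6369) (nat_lit 493858305440582043680)) (.cons (.rf (nat_lit 6370) (nat_lit 493858305440582043680)) (.cons (.br (nat_lit 13) (nat_lit 1) (.cons (.rf (nat_lit 6367) (nat_lit 493858305440582043680)) (.cons (.rf (nat_lit 6369) (nat_lit 493858305440582043680)) (.cons (.rf (nat_lit 6370) (nat_lit 493858305440582043680)) .nil)))) .nil))))),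
 (.br (nat_lit 9) (nat_lit 1) (.cons (.br (nat_lit 8) (nat_lit 1) (.cons (.rf (nat_lit 4982) (nat_lit 284954953771)) (.cons (.rf (nat_lit 1343) (nat_lit 423332391970)) (.cons (.rf (nat_lit 6363) (nat_lit 493858305440582043680)) (.cons (.rf (nat_lit 6363) (nat_lit 458117738797769787424)) .nil))))) (.cons (.br (nat_lit 7) (nat_lit 1) (.cons (.rf (nat_lit 4982) (nat_lit 250595247179)) (.cons (.rf (nat_lit 1343) (nat_lit 423334487074)) (.cons (.rf (nat_lit 6365) (nat_lit 493858305440582043680)) (.cons (.rf (nat_lit 6365) (nat_lit 458117738797769787424)) .nil))))) (.cons (.rf (nat_lit 5676) (nat_lit 14716784320553)) (.cons (.rf (nat_lit 6371) (nat_lit 493858305440582043680)) (.cons (.rf (nat_lit 6371) (nat_lit 458117738797769787424)) .nil)))))),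
 (.br (nat_lit 7) (nat_lit 1) (.cons (.rf (nat_lit 84) (nat_lit 13160983617)) (.cons (.br (nat_lit 11) (nat_lit 1) (.cons (.rf (nat_lit 84) (nat_lit 13128248609)) (.cons (.rf (nat_lit 84) (nat_lit 8837475369)) (.cons (.ev (nat_lit 310693935713017296249159681) (nat_lit 1)) .nil)))) (.cons (.br (nat_lit 11) (nat_lit 1) (.cons (.rf (nat_lit 84) (nat_lit 13128248609)) (.cons (.ev (nat_lit 310693935713017296249159681) (nat_lit 1)) (.cons (.br (nat_lit 8) (nat_lit 1) (.cons (.br (nat_lit 12) (nat_lit 1) (.cons (.zr (nat_lit 237684487543009752910745763840) (nat_lit 1548634011819828124529459204) (nat_lit 5) (nat_lit 4)) .nil)) (.cons (.ev (nat_lit 309489750634573115886206976) (nat_lit 1)) .nil))) .nil)))) .nil)))),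
 (.br (nat_lit 1) (nat_lit 1) (.cons (.kr (nat_lit 1) (nat_lit 72057594037927936) (nat_lit 0) (nat_lit 1)) (.cons (.rf (nat_lit 4982) (nat_lit 250595247179)) (.cons (.rf (nat_lit 31) (nat_lit 276072801)) (.cons (.rf (nat_lit 6373) (nat_lit 493858305440582043680)) (.cons (.rf (nat_lit 6373) (nat_lit 458117738797769787424)) .nil)))))),
 (.br (nat_lit 7) (nat_lit 1) (.cons (.ev (nat_lit 309485009893403762274402304) (nat_lit 1)) (.cons (.br (nat_lit 8) (nat_lit 1) (.cons (.rf (nat_lit 84) (nat_lit 13128248609)) (.cons (.rf (nat_lit 5177) (nat_lit 13329738817)) (.cons (.br (nat_lit 9) (nat_lit 1) (.cons (.ev (nat_lit 79228167236702878061538902273) (nat_lit 1)) (.cons (.br (nat_lit 12) (nat_lit 1) (.cons (.zr (nat_lit 79537671135918663258983104771) (nat_lit 2417925426205557600026624) (nat_lit 10) (nat_lit 5)) .nil)) .nil))) .nil)))) (.cons (.br (nat_lit 8) (nat_lit 1) (.cons (.rf (nat_lit 84) (nat_lit 13128248609)) (.cons (.br (nat_lit 12) (nat_lit 1) (.cons (.zr (nat_lit 237684487542865633328918364160)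 (nat_lit 1218370552581467993538564) (nat_lit 5) (nat_lit 10)) (.cons (.ev (nat_lit 79537647542604484334327955456) (nat_lit 1)) .nil))) (.cons (.br (nat_lit 9) (nat_lit 1) (.cons (.br (nat_lit 12) (nat_lit 1) (.cons (.ev (nat_lit 79538856468424100058702610433) (nat_lit 1)) .nil)) (.cons (.rf (nat_lit 5177) (nat_lit 14369926217)) .nil))) .nil)))) .nil)))),
 (.br (nat_lit 1) (nat_lit 1) (.cons (.kr (nat_lit 1) (nat_lit 72057594037927936) (nat_lit 0) (nat_lit 1)) (.cons (.rf (nat_lit 4982) (nat_lit 252742730825)) (.cons (.rf (nat_lit 31) (nat_lit 276138273)) (.cons (.rf (nat_lit 6375) (nat_lit 493858305440582043680)) (.cons (.rf (nat_lit 6375) (nat_lit 458117738797769787424)) .nil)))))),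
 (.br (nat_lit 11) (nat_lit 1) (.cons (.ev (nat_lit 310698676526244235308957696) (nat_lit 1)) (.cons (.ev (nat_lit 310693935713017296249159681) (nat_lit 1)) .nil))),
 (.br (nat_lit 13) (nat_lit 1) (.cons (.kr (nat_lit 18446744078004518912) (nat_lit 4722438540463683141632) (nat_lit 4) (nat_lit 0)) (.cons (.zr (nat_lit 237684487542793294264198497024) (nat_lit 620178982355794013571776513) (nat_lit 5) (nat_lit 3)) .nil))),
 (.br (nat_lit 12) (nat_lit 1) (.cons (.ev (nat_lit 79229371458530697400234803456) (nat_lit 1)) (.cons (.zr (nat_lit 237684487561240319812884955136) (nat_lit 1223092919064337638752260) (nat_lit 5) (nat_lit 10)) (.cons (.br (nat_lit 7) (nat_lit 1) (.cons (.ev (nat_lit 79538856468424100058702610433) (nat_lit 1)) (.cons (.ev (nat_lit 310693935713017296249159681) (nat_lit 1)) .nil))) (.cons (.br (nat_lit 9) (nat_lit 1) (.cons (.zr (nat_lit 237684487543009748512699252736) (nat_lit 1208962713103880417181700) (nat_lit 5) (nat_lit 10)) (.cons (.ev (nat_lit 79538861172271781264895311873)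 (nat_lit 1)) (.cons (.zr (nat_lit 60847228810955011834791707475968) (nat_lit 1208962713103880417181697) (nat_lit 5) (nat_lit 10)) .nil)))) .nil))))),
 (.br (nat_lit 8) (nat_lit 1) (.cons (.rf (nat_lit 6372) (nat_lit 493858305440582043680)) (.cons (.rf (nat_lit 6374) (nat_lit 493858305440582043680)) (.cons (.rf (nat_lit 6376) (nat_lit 493858305440582043680)) (.cons (.br (nat_lit 1) (nat_lit 1) (.cons (.kr (nat_lit 1) (nat_lit 72057594037927936) (nat_lit 0) (nat_lit 1)) (.cons (.br (nat_lit 7) (nat_lit 1) (.cons (.rf (nat_lit 29) (nat_lit 7702817)) (.cons (.rf (nat_lit 6377) (nat_lit 493858305440582043680)) (.cons (.rf (nat_lit 6377) (nat_lit 458117738797769787424)) .nil)))) (.cons (.br (nat_lit 7) (nat_lit 1) (.cons (.ev (nat_lit 1213666704899170879209728) (nat_lit 1)) (.cons (.rf (nat_lit 6378) (nat_lit 493858305440582043680)) (.cons (.rf (nat_lit 6378) (nat_lit 458117738797769787424)) .nil)))) (.cons (.rf (nat_lit 6379) (nat_lit 493858305440582043680)) (.cons (.rf (nat_lit 6379) (nat_lit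 458117738797769787424)) .nil)))))) .nil))))),
 (.br (nat_lit 8) (nat_lit 1) (.cons (.rf (nat_lit 6372) (nat_lit 493858305440582043680)) (.cons (.rf (nat_lit 6374) (nat_lit 493858305440582043680)) (.cons (.rf (nat_lit 6376) (nat_lit 493858305440582043680)) (.cons (.rf (nat_lit 6380) (nat_lit 493858305440582043680)) (.cons (.rf (nat_lit 6380) (nat_lit 458117738797769787424)) .nil)))))),
 (.br (nat_lit 7) (nat_lit 1) (.cons (.rf (nat_lit 82) (nat_lit 13161039913)) (.cons (.rf (nat_lit 2594) (nat_lit 8994915689)) (.cons (.ev (nat_lit 310693935713017296249159681) (nat_lit 1)) .nil)))),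
 (.br (nat_lit 7) (nat_lit 1) (.cons (.rf (nat_lit 1343) (nat_lit 423325052193)) (.cons (.rf (nat_lit 4982) (nat_lit 252742739009)) (.cons (.rf (nat_lit 6382) (nat_lit 493858305440582043680)) (.cons (.rf (nat_lit 6382) (nat_lit 458117738797769787424)) .nil))))),
 (.br (nat_lit 13) (nat_lit 1) (.cons (.zr (nat_lit 2422574005993607266304768) (nat_lit 618970019786806425053822977) (nat_lit 5) (nat_lit 3)) (.cons (.zr (nat_lit 55340795171082272768) (nat_lit 158457533954348290920085979137) (nat_lit 5) (nat_lit 0)) .nil))),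
 (.br (nat_lit 11) (nat_lit 1) (.cons (.br (nat_lit 7) (nat_lit 1) (.cons (.ev (nat_lit 1213666704899170879209728) (nat_lit 1)) (.cons (.br (nat_lit 12) (nat_lit 1) (.cons (.zr (nat_lit 237684501710108638569727787776) (nat_lit 620179037697151039390613505) (nat_lit 5) (nat_lit 4)) .nil)) .nil))) (.cons (.ev (nat_lit 79537652246452165531930722304) (nat_lit 1)) (.cons (.rf (nat_lit 5809) (nat_lit 15431981296164931616)) .nil)))),
 (.br (nat_lit 8) (nat_lit 1) (.cons (.rf (nat_lit 6372) (nat_lit 493858305440582043680)) (.cons (.rf (nat_lit 6381) (nat_lit 493858305440582043680)) (.cons (.rf (nat_lit 6383) (nat_lit 493858305440582043680)) (.cons (.br (nat_lit 1) (nat_lit 1) (.cons (.br (nat_lit 7) (nat_lit 1) (.cons (.ev (nat_lit 72058697844523264) (nat_lit 1)) (.cons (.rf (nat_lit 6384) (nat_lit 493858305440582043680)) (.cons (.rf (nat_lit 6384) (nat_lit 458117738797769787424)) .nil)))) (.cons (.rf (nat_lit 1593) (nat_lit 459874240865)) (.cons (.rf (nat_lit 6385) (nat_lit 493858305440582043680))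 (.cons (.rf (nat_lit 6385) (nat_lit 458117738797769787424)) .nil))))) .nil))))),
 (.br (nat_lit 8) (nat_lit 1) (.cons (.rf (nat_lit 6372) (nat_lit 493858305440582043680)) (.cons (.rf (nat_lit 6381) (nat_lit 493858305440582043680)) (.cons (.rf (nat_lit 6383) (nat_lit 493858305440582043680)) (.cons (.rf (nat_lit 6386) (nat_lit 493858305440582043680)) (.cons (.rf (nat_lit 6386) (nat_lit 458117738797769787424)) .nil)))))),
 (.br (nat_lit 13) (nat_lit 1) (.cons (.rf (nat_lit 6096) (nat_lit 458045751570263607328)) (.cons (.ev (nat_lit 79537647542532426740290027521) (nat_lit 1)) .nil))),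
 (.br (nat_lit 9) (nat_lit 1) (.cons (.br (nat_lit 7) (nat_lit 1) (.cons (.ev (nat_lit 79538856468424100058702610433) (nat_lit 1)) (.cons (.br (nat_lit 12) (nat_lit 1) (.cons (.ev (nat_lit 20282719088679938513093997363201) (nat_lit 1)) .nil)) .nil))) (.cons (.rf (nat_lit 84) (nat_lit 7797580834)) (.cons (.br (nat_lit 12) (nat_lit 1) (.cons (.br (nat_lit 7) (nat_lit 1) (.cons (.ev (nat_lit 310693935713017296249159681) (nat_lit 1)) .nil)) (.cons (.ev (nat_lit 20361947251175756107709031710721) (nat_lit 1)) .nil))) .nil)))),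
 (.br (nat_lit 8) (nat_lit 1) (.cons (.rf (nat_lit 6372) (nat_lit 493858305440582043680)) (.cons (.rf (nat_lit 6381) (nat_lit 493858305440582043680)) (.cons (.rf (nat_lit 6383) (nat_lit 493858305440582043680)) (.cons (.br (nat_lit 1) (nat_lit 1) (.cons (.br (nat_lit 7) (nat_lit 1) (.cons (.rf (nat_lit 58) (nat_lit 7637035)) (.cons (.rf (nat_lit 6388) (nat_lit 493858305440582043680)) (.cons (.rf (nat_lit 6388) (nat_lit 458117738797769787424)) .nil)))) (.cons (.ev (nat_lit 1213666632841576841281793) (nat_lit 1)) (.cons (.rf (nat_lit 6389) (nat_lit 493858305440582043680)) (.cons (.rf (nat_lit 6389) (nat_lit 458117738797769787424)) .nil))))) .nil)))))]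

theorem c219 : chkAll C T R L219 (nat_lit 6357) = true := by decide +kernel

theorem l219 : (nat_lit 6357) + L219.length = (nat_lit 6391) := by decide +kernel

/-- part of the certificates -/
def L220 : List Prf := [(.br (nat_lit 8) (nat_lit 1) (.cons (.rf (nat_lit 6372) (nat_lit 493858305440582043680)) (.cons (.rf (nat_lit 6381) (nat_lit 493858305440582043680)) (.cons (.rf (nat_lit 6383) (nat_lit 493858305440582043680)) (.cons (.rf (nat_lit 6390) (nat_lit 493858305440582043680)) (.cons (.rf (nat_lit 6390) (nat_lit 458117738797769787424)) .nil)))))),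
 (.br (nat_lit 8) (nat_lit 1) (.cons (.rf (nat_lit 6372) (nat_lit 493858305440582043680)) (.cons (.rf (nat_lit 6381) (nat_lit 493858305440582043680)) (.cons (.rf (nat_lit 6387) (nat_lit 493858305440582043680)) (.cons (.rf (nat_lit 6391) (nat_lit 493858305440582043680)) (.cons (.br (nat_lit 8) (nat_lit 1) (.cons (.rf (nat_lit 6372) (nat_lit 493858305440582043680)) (.cons (.rf (nat_lit 6381) (nat_lit 493858305440582043680)) (.cons (.rf (nat_lit 6387) (nat_lit 493858305440582043680)) (.cons (.rf (nat_lit 6391) (nat_lit 493858305440582043680)) .nil))))) .nil)))))),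
 (.br (nat_lit 8) (nat_lit 1) (.cons (.rf (nat_lit 6372) (nat_lit 493858305440582043680)) (.cons (.rf (nat_lit 6381) (nat_lit 493858305440582043680)) (.cons (.rf (nat_lit 6387) (nat_lit 493858305440582043680)) (.cons (.rf (nat_lit 6391) (nat_lit 493858305440582043680)) (.cons (.rf (nat_lit 6392) (nat_lit 493858305440582043680)) (.cons (.rf (nat_lit 6392) (nat_lit 458117738797769787424)) .nil))))))),
 (.br (nat_lit 11) (nat_lit 0) (.cons (.br (nat_lit 9) (nat_lit 0) (.cons (.br (nat_lit 10) (nat_lit 1) (.cons (.br (nat_lit 10) (nat_lit 1) (.cons (.br (nat_lit 2) (nat_lit 1) (.cons (.rf (nat_lit 6361) (nat_lit 493858305440582043680)) (.cons (.rf (nat_lit 6393) (nat_lit 493858305440582043680)) (.cons (.rf (nat_lit 6393) (nat_lit 493858304375430154272)) (.cons (.kr (nat_lit 4294967296) (nat_lit 4722366482869645213696) (nat_lit 4) (nat_lit 0)) (.cons (.rf (nat_lit 6361) (nat_lit 303254715880484014442)) (.cons (.rf (nat_lit 6393) (nat_lit 303254715880484014442)) (.cons (.rf (nat_lit 6393) (nat_lit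 303254714815332125034)) .nil)))))))) .nil)) .nil)) (.cons (.rf (nat_lit 5644) (nat_lit 383530443850)) .nil))) .nil)),
 (.br (nat_lit 11) (nat_lit 0) (.cons (.rf (nat_lit 6394) (nat_lit 407901468851537952)) (.cons (.br (nat_lit 11) (nat_lit 0) (.cons (.rf (nat_lit 6394) (nat_lit 407901468851537952)) .nil)) .nil))),
 (.br (nat_lit 7) (nat_lit 1) (.cons (.rf (nat_lit 5644) (nat_lit 211664569351)) (.cons (.rf (nat_lit 5644) (nat_lit 279342848039)) (.cons (.br (nat_lit 7) (nat_lit 1) (.cons (.rf (nat_lit 5644) (nat_lit 211664569351)) (.cons (.rf (nat_lit 5644) (nat_lit 313702586407)) (.cons (.rf (nat_lit 6245) (nat_lit 10175988696263)) .nil)))) .nil)))),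
 (.br (nat_lit 2) (nat_lit 0) (.cons (.br (nat_lit 4) (nat_lit 1) (.cons (.rf (nat_lit 6296) (nat_lit 325702574508064)) (.cons (.rf (nat_lit 6344) (nat_lit 11584701642934304)) (.cons (.br (nat_lit 5) (nat_lit 1) (.cons (.br (nat_lit 9) (nat_lit 0) (.cons (.rf (nat_lit 6296) (nat_lit 325699320875040)) (.cons (.br (nat_lit 6) (nat_lit 1) (.cons (.rf (nat_lit 6344) (nat_lit 10564351598725152)) (.cons (.br (nat_lit 11) (nat_lit 1) (.cons (.rf (nat_lit 238) (nat_lit 11695578373268523)) .nil)) .nil))) .nil))) (.cons (.br (nat_lit 9) (nat_lit 0) (.cons (.rf (nat_lit 6344) (nat_lit 12710598296143904)) (.cons (.br (nat_lit 9) (nat_lit 0) (.cons (.rf (nat_lit 5912) (nat_lit 433490147514656)) .nil)) .nil))) (.cons (.rf (nat_lit 6172) (nat_lit 407901467811350560)) .nil)))) .nil)))) (.cons (.rf (nat_lit 6242) (nat_lit 242670016609)) (.cons (.br (nat_lit 6) (nat_lit 1) (.cons (.br (nat_lit 10) (nat_lit 1) (.cons (.rf (nat_lit 6345) (nat_lit 11584701642934304)) (.cons (.rf (nat_lit 6346) (nat_lit 407901468851537952))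 (.cons (.br (nat_lit 10) (nat_lit 1) (.cons (.rf (nat_lit 6345) (nat_lit 11584701642934304)) (.cons (.rf (nat_lit 6346) (nat_lit 443930265870501920)) (.cons (.br (nat_lit 10) (nat_lit 1) (.cons (.rf (nat_lit 6345) (nat_lit 11584701642934304)) (.cons (.rf (nat_lit 6346) (nat_lit 479959062889465888)) .nil))) .nil)))) .nil)))) (.cons (.br (nat_lit 9) (nat_lit 0) (.cons (.rf (nat_lit 6395) (nat_lit 407901468851537952)) (.cons (.br (nat_lit 9) (nat_lit 0) (.cons (.rf (nat_lit 6395) (nat_lit 407901468851537952)) (.cons (.rf (nat_lit 6396) (nat_lit 353467763777)) .nil))) (.cons (.br (nat_lit 9) (nat_lit 0) (.cons (.rf (nat_lit 6395) (nat_lit 407901468851537952)) (.cons (.rf (nat_lit 6396) (nat_lit 353467763777)) .nil))) .nil)))) (.cons (.rf (nat_lit 5912) (nat_lit 364220917059648)) .nil)))) .nil)))),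
 (.br (nat_lit 12) (nat_lit 0) (.cons (.rf (nat_lit 5912) (nat_lit 364220914964864)) .nil)),
 (.br (nat_lit 6) (nat_lit 1) (.cons (.rf (nat_lit 5644) (nat_lit 244915934214)) (.cons (.rf (nat_lit 6242) (nat_lit 246091482176)) .nil))),
 (.br (nat_lit 8) (nat_lit 1) (.cons (.br (nat_lit 11) (nat_lit 1) (.cons (.kr (nat_lit 309489750634574211102802176) (nat_lit 20361637766166007382084786651136) (nat_lit 1) (nat_lit 0)) .nil)) .nil)),
 (.br (nat_lit 7) (nat_lit 1) (.cons (.rf (nat_lit 31) (nat_lit 376866082)) (.cons (.br (nat_lit 8) (nat_lit 1) (.cons (.rf (nat_lit 6400) (nat_lit 493858305440582043680)) (.cons (.br (nat_lit 11) (nat_lit 1) (.cons (.rf (nat_lit 6400) (nat_lit 493858305440582043680)) (.cons (.zr (nat_lit 60847228810955228007573821259776) (nat_lit 158457533954348294218620862465) (nat_lit 5) (nat_lit 0)) .nil))) .nil))) .nil))),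
 (.br (nat_lit 7) (nat_lit 1) (.cons (.rf (nat_lit 6401) (nat_lit 493858305440582043680)) (.cons (.rf (nat_lit 31) (nat_lit 376866082)) (.cons (.br (nat_lit 7) (nat_lit 1) (.cons (.rf (nat_lit 6401) (nat_lit 493858305440582043680)) (.cons (.rf (nat_lit 31) (nat_lit 376866082)) .nil))) .nil)))),
 (.br (nat_lit 8) (nat_lit 1) (.cons (.rf (nat_lit 2594) (nat_lit 7887664417)) (.cons (.br (nat_lit 13) (nat_lit 1) (.cons (.ev (nat_lit 40564820425729378341933595820544) (nat_lit 2)) (.cons (.rf (nat_lit 6011) (nat_lit 444775894567029837)) (.cons (.rf (nat_lit 6011) (nat_lit 409872997454908493)) .nil)))) (.cons (.rf (nat_lit 82) (nat_lit 12054737985)) .nil)))),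
 (.br (nat_lit 11) (nat_lit 1) (.cons (.rf (nat_lit 2594) (nat_lit 7787099425)) (.cons (.br (nat_lit 7) (nat_lit 1) (.cons (.br (nat_lit 8) (nat_lit 1) (.cons (.zr (nat_lit 928455029464037405197599488) (nat_lit 1208962713384255882264577) (nat_lit 5) (nat_lit 10)) (.cons (.rf (nat_lit 84) (nat_lit 12087370786)) .nil))) (.cons (.br (nat_lit 12) (nat_lit 1) (.cons (.br (nat_lit 8) (nat_lit 1) (.cons (.zr (nat_lit 928455029464318880174310144) (nat_lit 1218407446068520195981313) (nat_lit 5) (nat_lit 10)) .nil)) (.cons (.rf (nat_lit 84) (nat_lit 12221588514)) .nil))) (.cons (.rf (nat_lit 58) (nat_lit 7775266)) .nil)))) (.cons (.rf (nat_lit 82) (nat_lit 8836658241)) .nil)))),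
 (.br (nat_lit 11) (nat_lit 1) (.cons (.rf (nat_lit 4982) (nat_lit 387889464397)) (.cons (.rf (nat_lit 6404) (nat_lit 493858305440582043680)) (.cons (.br (nat_lit 11) (nat_lit 1) (.cons (.rf (nat_lit 2594) (nat_lit 7921317153)) (.cons (.rf (nat_lit 6404) (nat_lit 493858305440582043680)) (.cons (.rf (nat_lit 82) (nat_lit 13131625537)) .nil)))) (.cons (.rf (nat_lit 1343) (nat_lit 275256685633)) .nil))))),
 (.br (nat_lit 2) (nat_lit 1) (.cons (.rf (nat_lit 58) (nat_lit 7637037)) (.cons (.br (nat_lit 8) (nat_lit 1) (.cons (.rf (nat_lit 4982) (nat_lit 284921398349)) (.cons (.rf (nat_lit 6403) (nat_lit 493858305440582043680)) (.cons (.rf (nat_lit 6403) (nat_lit 492741412732994160672)) (.cons (.rf (nat_lit 1343) (nat_lit 388972655681)) .nil))))) (.cons (.rf (nat_lit 6405) (nat_lit 493858305440582043680)) (.cons (.rf (nat_lit 6405) (nat_lit 492741412732994160672)) (.cons (.rf (nat_lit 29) (nat_lit 7636386)) .nil)))))),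
 (.br (nat_lit 11) (nat_lit 1) (.cons (.br (nat_lit 12) (nat_lit 1) (.cons (.ev (nat_lit 20678859924863166364057176441092) (nat_lit 3)) .nil)) (.cons (.rf (nat_lit 84) (nat_lit 8966801449)) .nil))),
 (.br (nat_lit 8) (nat_lit 1) (.cons (.kr (nat_lit 1) (nat_lit 72057594037927936) (nat_lit 0) (nat_lit 1)) (.cons (.br (nat_lit 7) (nat_lit 1) (.cons (.rf (nat_lit 6407) (nat_lit 493858305440582043680)) (.cons (.rf (nat_lit 6407) (nat_lit 492741412732994160672)) (.cons (.kr (nat_lit 281474976710657) (nat_lit 4722438540463683141632) (nat_lit 0) (nat_lit 1)) .nil)))) (.cons (.rf (nat_lit 82) (nat_lit 12054508833)) .nil)))),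
 (.br (nat_lit 7) (nat_lit 1) (.cons (.rf (nat_lit 2594) (nat_lit 8960324898)) (.cons (.br (nat_lit 13) (nat_lit 1) (.cons (.ev (nat_lit 40564820425711003935829389345024) (nat_lit 2)) (.cons (.rf (nat_lit 6011) (nat_lit 444811079979306029)) (.cons (.rf (nat_lit 6011) (nat_lit 409908182867184685)) .nil)))) (.cons (.rf (nat_lit 82) (nat_lit 12087243810)) .nil)))),
 (.br (nat_lit 12) (nat_lit 1) (.cons (.kr (nat_lit 20282719088679938513089685618944) (nat_lit 79228167236702878057227157504) (nat_lit 1) (nat_lit 0)) .nil)),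
 (.br (nat_lit 7) (nat_lit 1) (.cons (.br (nat_lit 8) (nat_lit 1) (.cons (.rf (nat_lit 5177) (nat_lit 12222440482)) (.cons (.br (nat_lit 11) (nat_lit 1) (.cons (.br (nat_lit 12) (nat_lit 1) (.cons (.ev (nat_lit 20363811419530631268929055949570) (nat_lit 3)) .nil)) (.cons (.ev (nat_lit 40565131114924205793204540342275) (nat_lit 2)) .nil))) (.cons (.rf (nat_lit 84) (nat_lit 12054476066)) .nil)))) (.cons (.br (nat_lit 11) (nat_lit 1) (.cons (.br (nat_lit 8) (nat_lit 1) (.cons (.rf (nat_lit 6410) (nat_lit 493858305440582043680)) (.cons (.ev (nat_lit 20282413235170015399000433426945) (nat_lit 2)) .nil))) (.cons (.br (nat_lit 12) (nat_lit 1) (.cons (.ev (nat_lit 159076503974207999372714574594) (nat_lit 2)) (.cons (.ev (nat_lit 159076513418940402162051580674) (nat_lit 2)) .nil))) (.cons (.rf (nat_lit 84) (nat_lit 8836396105)) .nil)))) (.cons (.rf (nat_lit 84) (nat_lit 8966452265)) .nil)))),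
 (.br (nat_lit 11) (nat_lit 1) (.cons (.rf (nat_lit 6411) (nat_lit 493858305440582043680)) (.cons (.br (nat_lit 8) (nat_lit 1) (.cons (.br (nat_lit 13) (nat_lit 1) (.cons (.rf (nat_lit 84) (nat_lit 12087243810)) (.cons (.zr (nat_lit 928455029464039604220855040) (nat_lit 40564820416266054232150384836609) (nat_lit 5) (nat_lit 10)) .nil))) (.cons (.br (nat_lit 13) (nat_lit 1) (.cons (.zr (nat_lit 928455029464039604220855040) (nat_lit 40564820416266054232150384836609) (nat_lit 5) (nat_lit 10)) (.cons (.rf (nat_lit 5177) (nat_lit 13131581741)) .nil))) (.cons (.rf (nat_lit 84) (nat_lit 7893759265)) .nil)))) (.cons (.rf (nat_lit 84) (nat_lit 7796470849)) .nil)))),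
 (.br (nat_lit 11) (nat_lit 1) (.cons (.rf (nat_lit 6411) (nat_lit 493858305440582043680)) (.cons (.rf (nat_lit 6412) (nat_lit 493858305440582043680)) (.cons (.br (nat_lit 11) (nat_lit 1) (.cons (.rf (nat_lit 6411) (nat_lit 493858305440582043680)) (.cons (.rf (nat_lit 6412) (nat_lit 493858305440582043680)) (.cons (.rf (nat_lit 6406) (nat_lit 341517437917266576458)) .nil)))) (.cons (.rf (nat_lit 6406) (nat_lit 341517437917266576458)) .nil))))),
 (.br (nat_lit 2) (nat_lit 1) (.cons (.br (nat_lit 8) (nat_lit 1) (.cons (.kr (nat_lit 1) (nat_lit 72057594037927936) (nat_lit 0) (nat_lit 1)) (.cons (.rf (nat_lit 6408) (nat_lit 493858305440582043680)) (.cons (.rf (nat_lit 6408) (nat_lit 492741412732994160672)) (.cons (.rf (nat_lit 1343) (nat_lit 388965315873)) .nil))))) (.cons (.br (nat_lit 7) (nat_lit 1) (.cons (.rf (nat_lit 4982) (nat_lit 250561693741)) (.cons (.rf (nat_lit 6409) (nat_lit 493858305440582043680)) (.cons (.rf (nat_lit 6409) (nat_lit 492741412732994160672)) (.cons (.rf (nat_lit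 1343) (nat_lit 388976845889)) .nil))))) (.cons (.rf (nat_lit 6413) (nat_lit 493858305440582043680)) (.cons (.rf (nat_lit 6413) (nat_lit 492741412732994160672)) (.cons (.rf (nat_lit 5676) (nat_lit 13583149964322)) .nil)))))),
 (.br (nat_lit 7) (nat_lit 1) (.cons (.br (nat_lit 8) (nat_lit 1) (.cons (.ev (nat_lit 20678859906047775643647632278788) (nat_lit 3)) .nil)) .nil)),
 (.br (nat_lit 7) (nat_lit 1) (.cons (.br (nat_lit 11) (nat_lit 1) (.cons (.rf (nat_lit 5177) (nat_lit 12222433321)) (.cons (.zr (nat_lit 20282719088661563828821972549632) (nat_lit 2417851640918108209676290) (nat_lit 10) (nat_lit 4)) .nil))) (.cons (.br (nat_lit 12) (nat_lit 1) (.cons (.rf (nat_lit 5177) (nat_lit 13262620717)) (.cons (.zr (nat_lit 79228167236703722495092523008) (nat_lit 2417851639236954930806786) (nat_lit 10) (nat_lit 3)) .nil))) .nil))),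
 (.br (nat_lit 7) (nat_lit 1) (.cons (.rf (nat_lit 6416) (nat_lit 493858305440582043680)) (.cons (.br (nat_lit 8) (nat_lit 1) (.cons (.zr (nat_lit 216736831579029504) (nat_lit 40565439386248803152665438584833) (nat_lit 5) (nat_lit 0)) (.cons (.zr (nat_lit 217298682020823040) (nat_lit 158457543399081256659376406529) (nat_lit 5) (nat_lit 0)) .nil))) .nil))),
 (.br (nat_lit 13) (nat_lit 1) (.cons (.rf (nat_lit 6414) (nat_lit 346284492522200892480)) (.cons (.rf (nat_lit 6406) (nat_lit 346284492522200892480)) (.cons (.br (nat_lit 11) (nat_lit 1) (.cons (.rf (nat_lit 84) (nat_lit 8836396322)) (.cons (.rf (nat_lit 84) (nat_lit 7796241697)) (.cons (.br (nat_lit 7) (nat_lit 1) (.cons (.rf (nat_lit 6415) (nat_lit 493858305440582043680)) (.cons (.br (nat_lit 7) (nat_lit 1) (.cons (.rf (nat_lit 6415) (nat_lit 493858305440582043680)) .nil)) .nil))) .nil)))) (.cons (.br (nat_lit 7) (nat_lit 1) (.cons (.rf (nat_lit 6416) (nat_lit 493858305440582043680)) (.cons (.rf (nat_lit 6417) (nat_lit 493858305440582043680))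 (.cons (.br (nat_lit 7) (nat_lit 1) (.cons (.rf (nat_lit 6416) (nat_lit 493858305440582043680)) (.cons (.rf (nat_lit 6417) (nat_lit 493858305440582043680)) .nil))) .nil)))) .nil))))),
 (.br (nat_lit 8) (nat_lit 1) (.cons (.rf (nat_lit 6418) (nat_lit 493858305440582043680)) (.cons (.br (nat_lit 2) (nat_lit 1) (.cons (.kr (nat_lit 1) (nat_lit 72057594037927936) (nat_lit 0) (nat_lit 1)) (.cons (.br (nat_lit 13) (nat_lit 1) (.cons (.ev (nat_lit 20282721515994901567353422675971) (nat_lit 2)) (.cons (.zr (nat_lit 60848157265984475307047928201984) (nat_lit 1208962713385355393892353) (nat_lit 5) (nat_lit 10)) .nil))) (.cons (.br (nat_lit 12) (nat_lit 1) (.cons (.ev (nat_lit 79230580402941734241165180931) (nat_lit 2)) (.cons (.zr (nat_lit 237684487542793014979655107328) (nat_lit 1208962713384255882264577) (nat_lit 5) (nat_lit 10)) (.cons (.zr (nat_lit 237684501709892463588590748416) (nat_lit 1208962714228680812396545) (nat_lit 5) (nat_lit 10)) .nil)))) (.cons (.br (nat_lit 11) (nat_lit 1) (.cons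 (.ev (nat_lit 20282721511272535365958754172931) (nat_lit 2)) (.cons (.zr (nat_lit 60848157265984475307047928201984) (nat_lit 1208962713385355393892353) (nat_lit 5) (nat_lit 10)) .nil))) .nil))))) (.cons (.br (nat_lit 2) (nat_lit 1) (.cons (.kr (nat_lit 1) (nat_lit 72057594037927936) (nat_lit 0) (nat_lit 1)) (.cons (.rf (nat_lit 84) (nat_lit 7796597825)) (.cons (.br (nat_lit 7) (nat_lit 1) (.cons (.rf (nat_lit 5177) (nat_lit 12222444585)) (.cons (.br (nat_lit 11) (nat_lit 1) (.cons (.ev (nat_lit 20837323484557289224077970965250) (nat_lit 3)) .nil)) .nil))) .nil)))) .nil)))),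
 (.br (nat_lit 8) (nat_lit 1) (.cons (.rf (nat_lit 6418) (nat_lit 493858305440582043680)) (.cons (.rf (nat_lit 6419) (nat_lit 493858305440582043680)) (.cons (.br (nat_lit 2) (nat_lit 1) (.cons (.kr (nat_lit 1) (nat_lit 72057594037927936) (nat_lit 0) (nat_lit 1)) (.cons (.br (nat_lit 11) (nat_lit 1) (.cons (.ev (nat_lit 20282721515994901567353422675971) (nat_lit 2)) (.cons (.zr (nat_lit 60848157265984475588522904912640) (nat_lit 1218407446069619707609089) (nat_lit 5) (nat_lit 10)) .nil))) (.cons (.br (nat_lit 12) (nat_lit 1) (.cons (.ev (nat_lit 79230589847674137030502187011) (nat_lit 2)) (.cons (.zr (nat_lit 237684487542793296454631817984) (nat_lit 1218407446068520195981313) (nat_lit 5) (nat_lit 10)) .nil))) .nil)))) .nil)))),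
 (.br (nat_lit 8) (nat_lit 1) (.cons (.rf (nat_lit 6418) (nat_lit 493858305440582043680)) (.cons (.rf (nat_lit 6419) (nat_lit 493858305440582043680)) (.cons (.rf (nat_lit 6420) (nat_lit 493858305440582043680)) (.cons (.br (nat_lit 8) (nat_lit 1) (.cons (.rf (nat_lit 84) (nat_lit 12054475849)) (.cons (.rf (nat_lit 6419) (nat_lit 493858305440582043680)) (.cons (.rf (nat_lit 6420) (nat_lit 493858305440582043680)) .nil)))) .nil)))))]

theorem c220 : chkAll C T R L220 (nat_lit 6391) = true := by decide +kernel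

theorem l220 : (nat_lit 6391) + L220.length = (nat_lit 6422) := by decide +kernel

/-- part of the certificates -/
def L221 : List Prf := [(.br (nat_lit 8) (nat_lit 1) (.cons (.rf (nat_lit 6418) (nat_lit 493858305440582043680)) (.cons (.rf (nat_lit 6421) (nat_lit 493858305440582043680)) (.cons (.br (nat_lit 2) (nat_lit 1) (.cons (.rf (nat_lit 6414) (nat_lit 346284493587352781888)) (.cons (.rf (nat_lit 84) (nat_lit 7796597825)) (.cons (.br (nat_lit 12) (nat_lit 1) (.cons (.zr (nat_lit 4740813789893308514563) (nat_lit 316915067908696580740660330496) (nat_lit 10) (nat_lit 0)) (.cons (.rf (nat_lit 5177) (nat_lit 13131589026)) .nil))) .nil)))) .nil)))),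
 (.br (nat_lit 8) (nat_lit 1) (.cons (.rf (nat_lit 6418) (nat_lit 493858305440582043680)) (.cons (.rf (nat_lit 6421) (nat_lit 493858305440582043680)) (.cons (.rf (nat_lit 6422) (nat_lit 493858305440582043680)) (.cons (.br (nat_lit 8) (nat_lit 1) (.cons (.rf (nat_lit 84) (nat_lit 7893988417)) (.cons (.rf (nat_lit 6421) (nat_lit 493858305440582043680)) (.cons (.rf (nat_lit 6422) (nat_lit 493858305440582043680)) .nil)))) .nil))))),
 (.br (nat_lit 8) (nat_lit 1) (.cons (.rf (nat_lit 6418) (nat_lit 493858305440582043680)) (.cons (.rf (nat_lit 6421) (nat_lit 493858305440582043680)) (.cons (.rf (nat_lit 6423) (nat_lit 493858305440582043680)) (.cons (.br (nat_lit 8) (nat_lit 1) (.cons (.rf (nat_lit 5126) (nat_lit 15071358142812201)) (.cons (.rf (nat_lit 6421) (nat_lit 493858305440582043680)) (.cons (.rf (nat_lit 6423) (nat_lit 493858305440582043680)) .nil)))) .nil))))),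
 (.br (nat_lit 8) (nat_lit 1) (.cons (.rf (nat_lit 6418) (nat_lit 493858305440582043680)) (.cons (.rf (nat_lit 6421) (nat_lit 493858305440582043680)) (.cons (.rf (nat_lit 6423) (nat_lit 493858305440582043680)) (.cons (.rf (nat_lit 6424) (nat_lit 493858305440582043680)) (.cons (.br (nat_lit 8) (nat_lit 1) (.cons (.rf (nat_lit 6406) (nat_lit 346284492522200892480)) (.cons (.rf (nat_lit 6421) (nat_lit 493858305440582043680)) (.cons (.rf (nat_lit 6423) (nat_lit 493858305440582043680)) (.cons (.rf (nat_lit 6424) (nat_lit 493858305440582043680)) .nil))))) .nil)))))),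
 (.br (nat_lit 9) (nat_lit 1) (.cons (.br (nat_lit 13) (nat_lit 1) (.cons (.rf (nat_lit 29) (nat_lit 7767330)) (.cons (.rf (nat_lit 5676) (nat_lit 13583279987746)) (.cons (.rf (nat_lit 6402) (nat_lit 493858305440582043680)) (.cons (.rf (nat_lit 6402) (nat_lit 492741412732994160672)) .nil))))) (.cons (.rf (nat_lit 6406) (nat_lit 493858305440582043680)) (.cons (.rf (nat_lit 6414) (nat_lit 493858305440582043680)) (.cons (.rf (nat_lit 6425) (nat_lit 493858305440582043680)) (.cons (.rf (nat_lit 6425) (nat_lit 492741412732994160672)) (.cons (.kr (nat_lit 1099511627776) (nat_lit 20282409603651670423947251286016) (nat_lit 5) (nat_lit 0)) .nil))))))),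
 (.br (nat_lit 9) (nat_lit 0) (.cons (.br (nat_lit 13) (nat_lit 0) (.cons (.br (nat_lit 1) (nat_lit 1) (.cons (.kr (nat_lit 1099511628032) (nat_lit 281474976776192) (nat_lit 1) (nat_lit 0)) (.cons (.rf (nat_lit 6426) (nat_lit 493858305440582043680)) (.cons (.rf (nat_lit 6426) (nat_lit 493858304375430154272)) (.cons (.br (nat_lit 2) (nat_lit 1) (.cons (.rf (nat_lit 6426) (nat_lit 346284493587352781888)) (.cons (.rf (nat_lit 6426) (nat_lit 346284492522200892480)) (.cons (.rf (nat_lit 6426) (nat_lit 341517437917266576458)) (.cons (.rf (nat_lit 6426) (nat_lit 341517436852114687050)) (.cons (.kr (nat_lit 20282409603651670423947251286272) (nat_lit 4722366482869645279232) (nat_lit 1) (nat_lit 0)) .nil)))))) (.cons (.rf (nat_lit 6426) (nat_lit 489091249770495838250)) (.cons (.rf (nat_lit 6426) (nat_lit 489091248705343948842)) (.cons (.br (nat_lit 2) (nat_lit 1) (.cons (.rf (nat_lit 6426) (nat_lit 346284493587352781888)) (.cons (.rf (nat_lit 6426) (nat_lit 346284492522200892480)) (.cons (.kr (nat_lit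 4722366485068668469504) (nat_lit 20282409603651670986897204772864) (nat_lit 1) (nat_lit 0)) (.cons (.rf (nat_lit 6426) (nat_lit 341517437917266576458)) (.cons (.rf (nat_lit 6426) (nat_lit 341517436852114687050)) .nil)))))) .nil)))))))) .nil)) .nil)),
 (.br (nat_lit 5) (nat_lit 1) (.cons (.br (nat_lit 13) (nat_lit 0) (.cons (.rf (nat_lit 6427) (nat_lit 493858305440582043680)) (.cons (.br (nat_lit 13) (nat_lit 0) (.cons (.rf (nat_lit 6427) (nat_lit 493858305440582043680)) .nil)) .nil))) .nil)),
 (.br (nat_lit 1) (nat_lit 0) (.cons (.rf (nat_lit 6399) (nat_lit 72551553)) (.cons (.rf (nat_lit 6396) (nat_lit 1280445513)) (.cons (.rf (nat_lit 6397) (nat_lit 325702574508064)) (.cons (.br (nat_lit 2) (nat_lit 0) (.cons (.br (nat_lit 4) (nat_lit 1) (.cons (.rf (nat_lit 6397) (nat_lit 325701533303872)) (.cons (.rf (nat_lit 6397) (nat_lit 396070277481536)) (.cons (.br (nat_lit 5) (nat_lit 1) (.cons (.br (nat_lit 9) (nat_lit 0) (.cons (.br (nat_lit 10) (nat_lit 1) (.cons (.rf (nat_lit 6398) (nat_lit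 14242959524133701664)) (.cons (.br (nat_lit 10) (nat_lit 1) (.cons (.rf (nat_lit 6398) (nat_lit 15395881028740548640)) .nil)) .nil))) (.cons (.rf (nat_lit 6399) (nat_lit 11045867617)) .nil))) (.cons (.br (nat_lit 9) (nat_lit 0) (.cons (.br (nat_lit 9) (nat_lit 0) (.cons (.rf (nat_lit 6399) (nat_lit 11045867617)) .nil)) (.cons (.rf (nat_lit 6399) (nat_lit 11045867617)) .nil))) (.cons (.rf (nat_lit 5912) (nat_lit 365320461224992)) .nil)))) .nil)))) (.cons (.rf (nat_lit 6244) (nat_lit 360885905392704)) (.cons (.br (nat_lit 10) (nat_lit 1) (.cons (.rf (nat_lit 6399) (nat_lit 11045867617)) (.cons (.rf (nat_lit 5644) (nat_lit 384571639850)) (.cons (.br (nat_lit 10) (nat_lit 1) (.cons (.rf (nat_lit 6399) (nat_lit 11045867617)) (.cons (.rf (nat_lit 5644) (nat_lit 418931378218)) (.cons (.br (nat_lit 5) (nat_lit 1) (.cons (.rf (nat_lit 6428) (nat_lit 14242959524133701664)) (.cons (.br (nat_lit 5) (nat_lit 1) (.cons (.rf (nat_lit 6428) (nat_lit 14242959524133701664)) .nil)) .nil))) .nil)))) .nil))))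 .nil)))) .nil))))),
 (.br (nat_lit 9) (nat_lit 0) (.cons (.br (nat_lit 9) (nat_lit 0) (.cons (.rf (nat_lit 5912) (nat_lit 434589693775136)) .nil)) (.cons (.rf (nat_lit 5912) (nat_lit 434589693775136)) .nil))),
 (.br (nat_lit 4) (nat_lit 1) (.cons (.rf (nat_lit 6399) (nat_lit 72551553)) (.cons (.rf (nat_lit 6429) (nat_lit 325699387918368)) (.cons (.rf (nat_lit 6429) (nat_lit 360883760007200)) (.cons (.br (nat_lit 5) (nat_lit 1) (.cons (.rf (nat_lit 6429) (nat_lit 325702507463744)) (.cons (.rf (nat_lit 6429) (nat_lit 396071251641408)) (.cons (.rf (nat_lit 6430) (nat_lit 407901468851537952)) .nil)))) .nil))))),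
 (.br (nat_lit 8) (nat_lit 1) (.cons (.br (nat_lit 11) (nat_lit 1) (.cons (.kr (nat_lit 20361637766166006819134833164544) (nat_lit 309489750634572012079611904) (nat_lit 1) (nat_lit 0)) .nil)) .nil)),
 (.br (nat_lit 7) (nat_lit 1) (.cons (.rf (nat_lit 31) (nat_lit 376874049)) (.cons (.br (nat_lit 8) (nat_lit 1) (.cons (.rf (nat_lit 6432) (nat_lit 493858305440582043680)) (.cons (.br (nat_lit 11) (nat_lit 1) (.cons (.rf (nat_lit 6432) (nat_lit 493858305440582043680)) (.cons (.zr (nat_lit 60847228810955227444623867642624) (nat_lit 158457533954348572395062689793) (nat_lit 5) (nat_lit 0)) .nil))) .nil))) .nil))),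
 (.br (nat_lit 7) (nat_lit 1) (.cons (.rf (nat_lit 6433) (nat_lit 493858305440582043680)) (.cons (.rf (nat_lit 31) (nat_lit 376874049)) (.cons (.br (nat_lit 7) (nat_lit 1) (.cons (.rf (nat_lit 6433) (nat_lit 493858305440582043680)) (.cons (.rf (nat_lit 31) (nat_lit 376874049)) .nil))) .nil)))),
 (.br (nat_lit 13) (nat_lit 1) (.cons (.rf (nat_lit 29) (nat_lit 7775297)) (.cons (.rf (nat_lit 5676) (nat_lit 13583272647969)) (.cons (.rf (nat_lit 6434) (nat_lit 493858305440582043680)) (.cons (.rf (nat_lit 6434) (nat_lit 492741412732994160672)) .nil))))),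
 (.br (nat_lit 8) (nat_lit 1) (.cons (.zr (nat_lit 55340234420151911168) (nat_lit 620178945462586245912723457) (nat_lit 5) (nat_lit 0)) (.cons (.rf (nat_lit 82) (nat_lit 12087363625)) .nil))),
 (.br (nat_lit 11) (nat_lit 1) (.cons (.rf (nat_lit 2594) (nat_lit 7794439233)) (.cons (.br (nat_lit 9) (nat_lit 1) (.cons (.rf (nat_lit 6436) (nat_lit 493858305440582043680)) (.cons (.br (nat_lit 13) (nat_lit 1) (.cons (.rf (nat_lit 6436) (nat_lit 346284493588326941760)) (.cons (.rf (nat_lit 82) (nat_lit 12221581353)) .nil))) (.cons (.rf (nat_lit 29) (nat_lit 7407017)) .nil)))) (.cons (.rf (nat_lit 2594) (nat_lit 7798629441)) .nil)))),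
 (.br (nat_lit 11) (nat_lit 1) (.cons (.rf (nat_lit 6437) (nat_lit 493858305440582043680)) (.cons (.rf (nat_lit 4982) (nat_lit 380373271853)) (.cons (.br (nat_lit 11) (nat_lit 1) (.cons (.rf (nat_lit 6437) (nat_lit 493858305440582043680)) (.cons (.rf (nat_lit 2594) (nat_lit 7928656961)) (.cons (.rf (nat_lit 2594) (nat_lit 7932847169)) .nil)))) (.cons (.rf (nat_lit 4982) (nat_lit 380373271977)) .nil))))),
 (.br (nat_lit 11) (nat_lit 1) (.cons (.br (nat_lit 12) (nat_lit 1) (.cons (.ev (nat_lit 80160258506733691948721307650) (nat_lit 2)) .nil)) (.cons (.ev (nat_lit 20283032205189658090245967708419) (nat_lit 2)) .nil))),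
 (.br (nat_lit 8) (nat_lit 1) (.cons (.rf (nat_lit 2594) (nat_lit 7887664417)) (.cons (.br (nat_lit 7) (nat_lit 1) (.cons (.rf (nat_lit 6439) (nat_lit 493858305440582043680)) (.cons (.rf (nat_lit 6439) (nat_lit 492741412732994160672)) (.cons (.rf (nat_lit 58) (nat_lit 7775266)) .nil)))) (.cons (.rf (nat_lit 82) (nat_lit 12054737985)) .nil)))),
 (.br (nat_lit 8) (nat_lit 1) (.cons (.rf (nat_lit 4982) (nat_lit 284921398349)) (.cons (.rf (nat_lit 6440) (nat_lit 493858305440582043680)) (.cons (.rf (nat_lit 6440) (nat_lit 492741412732994160672)) (.cons (.rf (nat_lit 1343) (nat_lit 388972655681)) .nil))))),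
 (.br (nat_lit 11) (nat_lit 1) (.cons (.br (nat_lit 12) (nat_lit 1) (.cons (.zr (nat_lit 237684487542793012780699156480) (nat_lit 1218370696978135324295169) (nat_lit 5) (nat_lit 10)) .nil)) (.cons (.zr (nat_lit 928455029536094999302832128) (nat_lit 60847230029325564133689490669572) (nat_lit 5) (nat_lit 10)) .nil))),
 (.br (nat_lit 7) (nat_lit 1) (.cons (.rf (nat_lit 2594) (nat_lit 8960324898)) (.cons (.br (nat_lit 8) (nat_lit 1) (.cons (.rf (nat_lit 6442) (nat_lit 493858305440582043680)) (.cons (.rf (nat_lit 6442) (nat_lit 492741412732994160672)) (.cons (.rf (nat_lit 58) (nat_lit 8823873)) .nil)))) (.cons (.rf (nat_lit 82) (nat_lit 12087243810)) .nil)))),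
 (.br (nat_lit 7) (nat_lit 1) (.cons (.rf (nat_lit 4982) (nat_lit 250561693741)) (.cons (.rf (nat_lit 6443) (nat_lit 493858305440582043680)) (.cons (.rf (nat_lit 6443) (nat_lit 492741412732994160672)) (.cons (.rf (nat_lit 1343) (nat_lit 388976845889)) .nil))))),
 (.br (nat_lit 7) (nat_lit 1) (.cons (.kr (nat_lit 309485009821345068724781057) (nat_lit 72058693549555712) (nat_lit 0) (nat_lit 1)) (.cons (.br (nat_lit 8) (nat_lit 1) (.cons (.kr (nat_lit 4722366482869645213697) (nat_lit 18446744073726328832) (nat_lit 0) (nat_lit 1)) (.cons (.kr (nat_lit 309485028268089142451109888) (nat_lit 4722438541563194769408) (nat_lit 3) (nat_lit 0)) .nil))) .nil))),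
 (.br (nat_lit 7) (nat_lit 1) (.cons (.br (nat_lit 8) (nat_lit 1) (.cons (.kr (nat_lit 4722366482869645213697) (nat_lit 18446744073726328832) (nat_lit 0) (nat_lit 1)) (.cons (.kr (nat_lit 79228167236630820463189164034) (nat_lit 18518802767275884544) (nat_lit 0) (nat_lit 1)) .nil))) (.cons (.kr (nat_lit 79228162514264337593543950337) (nat_lit 72058693549555712) (nat_lit 0) (nat_lit 1)) .nil))),
 (.br (nat_lit 7) (nat_lit 1) (.cons (.rf (nat_lit 6446) (nat_lit 15433035725666355232)) (.cons (.br (nat_lit 12) (nat_lit 1) (.cons (.zr (nat_lit 237684487543009189960859451392) (nat_lit 101412049236628904981583993241606) (nat_lit 5) (nat_lit 10)) (.cons (.zr (nat_lit 237684487542793013880210784256) (nat_lit 40564820425673893709742239383555) (nat_lit 5) (nat_lit 10)) .nil))) .nil))),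
 (.br (nat_lit 13) (nat_lit 1) (.cons (.rf (nat_lit 6444) (nat_lit 346284492523175052352)) (.cons (.rf (nat_lit 6441) (nat_lit 346284492523175052352)) (.cons (.br (nat_lit 11) (nat_lit 1) (.cons (.rf (nat_lit 84) (nat_lit 8836396322)) (.cons (.rf (nat_lit 84) (nat_lit 7796241697)) (.cons (.br (nat_lit 7) (nat_lit 1) (.cons (.rf (nat_lit 6445) (nat_lit 481084962796308512)) (.cons (.br (nat_lit 7) (nat_lit 1) (.cons (.rf (nat_lit 6445) (nat_lit 481084962796308512)) .nil)) .nil))) .nil)))) (.cons (.br (nat_lit 7) (nat_lit 1) (.cons (.rf (nat_lit 6446) (nat_lit 15433035725666355232)) (.cons (.rf (nat_lit 6447) (nat_lit 493858305440582043680)) (.cons (.br (nat_lit 7) (nat_lit 1) (.cons (.kr (nat_lit 20282409603651670423947251286017) (nat_lit 72058693549555712) (nat_lit 0) (nat_lit 1)) (.cons (.rf (nat_lit 6447) (nat_lit 493858305440582043680)) .nil))) .nil)))) .nil))))),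
 (.br (nat_lit 8) (nat_lit 1) (.cons (.br (nat_lit 8) (nat_lit 1) (.cons (.kr (nat_lit 18446745173237956608) (nat_lit 79228167236702878057227091968) (nat_lit 3) (nat_lit 0)) .nil)) (.cons (.br (nat_lit 8) (nat_lit 1) (.cons (.kr (nat_lit 18446745173237956608) (nat_lit 79228167236702878057227091968) (nat_lit 3) (nat_lit 0)) .nil)) .nil))),
 (.br (nat_lit 7) (nat_lit 1) (.cons (.br (nat_lit 7) (nat_lit 1) (.cons (.kr (nat_lit 309485009821345068724781057) (nat_lit 72058693549555712) (nat_lit 0) (nat_lit 1)) (.cons (.rf (nat_lit 6449) (nat_lit 13126066816545818656)) .nil))) (.cons (.rf (nat_lit 31) (nat_lit 343246114)) (.cons (.br (nat_lit 7) (nat_lit 1) (.cons (.rf (nat_lit 6449) (nat_lit 13126066816545818656)) (.cons (.rf (nat_lit 31) (nat_lit 343246114)) .nil))) .nil)))),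
 (.br (nat_lit 8) (nat_lit 1) (.cons (.rf (nat_lit 2594) (nat_lit 8993879330)) (.cons (.zr (nat_lit 4740885288948357660928) (nat_lit 1208925821584954011680771) (nat_lit 10) (nat_lit 4)) (.cons (.br (nat_lit 13) (nat_lit 1) (.cons (.kr (nat_lit 1099511627776) (nat_lit 20282409603651670423947251286016) (nat_lit 5) (nat_lit 0)) (.cons (.zr (nat_lit 20282409608392483654202059391232) (nat_lit 1208925821584954011680770) (nat_lit 10) (nat_lit 4)) (.cons (.kr (nat_lit 20282409603651670423947251286017) (nat_lit 72058693549555712) (nat_lit 0) (nat_lit 1)) .nil)))) (.cons (.rf (nat_lit 2594) (nat_lit 8993868201)) .nil))))),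
 (.br (nat_lit 7) (nat_lit 1) (.cons (.kr (nat_lit 1) (nat_lit 72057594037927936) (nat_lit 0) (nat_lit 1)) (.cons (.rf (nat_lit 6451) (nat_lit 492741412732994160672)) (.cons (.rf (nat_lit 6451) (nat_lit 493858305440582043680)) (.cons (.rf (nat_lit 4982) (nat_lit 289216365858)) .nil))))),
 (.br (nat_lit 8) (nat_lit 1) (.cons (.rf (nat_lit 6452) (nat_lit 493858305440582043680)) (.cons (.br (nat_lit 9) (nat_lit 1) (.cons (.br (nat_lit 11) (nat_lit 1) (.cons (.zr (nat_lit 928455029680210187311383296) (nat_lit 1208962713384255882264580) (nat_lit 5) (nat_lit 10)) (.cons (.ev (nat_lit 40565131114924061678016464486401) (nat_lit 2)) .nil))) (.cons (.zr (nat_lit 928455047910781478940705536) (nat_lit 1223092919344717382025220) (nat_lit 5) (nat_lit 10)) (.cons (.br (nat_lit 11) (nat_lit 1) (.cons (.kr (nat_lit 18446744073726328832) (nat_lit 4722438540463683141632) (nat_lit 3) (nat_lit 0)) (.cons (.zr (nat_lit 237684487542793014979655107328) (nat_lit 1208962713384255882264577) (nat_lit 5) (nat_lit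 10)) (.cons (.kr (nat_lit 20282409608374036906816896499713) (nat_lit 18446745173237956608) (nat_lit 0) (nat_lit 1)) .nil)))) (.cons (.br (nat_lit 11) (nat_lit 1) (.cons (.ev (nat_lit 311907620864943111014514691) (nat_lit 2)) (.cons (.zr (nat_lit 60848157265984475307047928201984) (nat_lit 1208962713385355393892353) (nat_lit 5) (nat_lit 10)) .nil))) .nil))))) (.cons (.br (nat_lit 7) (nat_lit 1) (.cons (.rf (nat_lit 84) (nat_lit 12087370786)) (.cons (.rf (nat_lit 5177) (nat_lit 12222444578)) (.cons (.br (nat_lit 9) (nat_lit 1) (.cons (.zr (nat_lit 928455029536094999252304640) (nat_lit 1218370552861847736811524) (nat_lit 5) (nat_lit 10)) (.cons (.br (nat_lit 11) (nat_lit 1) (.cons (.ev (nat_lit 79850778219711458992231350535) (nat_lit 3)) .nil)) .nil))) .nil)))) .nil))))]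

theorem c221 : chkAll C T R L221 (nat_lit 6422) = true := by decide +kernel

theorem l221 : (nat_lit 6422) + L221.length = (nat_lit 6454) := by decide +kernel

/-- part of the certificates -/
def L222 : List Prf := [(.br (nat_lit 8) (nat_lit 1) (.cons (.rf (nat_lit 6452) (nat_lit 493858305440582043680)) (.cons (.rf (nat_lit 6453) (nat_lit 493858305440582043680)) (.cons (.br (nat_lit 7) (nat_lit 1) (.cons (.zr (nat_lit 55340233320707588096) (nat_lit 40564822843525532939000588795905) (nat_lit 5) (nat_lit 0)) (.cons (.br (nat_lit 11) (nat_lit 1) (.cons (.rf (nat_lit 84) (nat_lit 8836392013)) (.cons (.zr (nat_lit 55340233320674033664) (nat_lit 40565439386248803434140398518273) (nat_lit 5) (nat_lit 0)) .nil))) (.cons (.br (nat_lit 12) (nat_lit 1) (.cons (.rf (nat_lit 5177) (nat_lit 13262631977)) (.cons (.zr (nat_lit 55340232221162405888) (nat_lit 158457533954348572395045912577) (nat_lit 5) (nat_lit 0)) .nil))) .nil)))) .nil)))),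
 (.br (nat_lit 8) (nat_lit 1) (.cons (.rf (nat_lit 6452) (nat_lit 493858305440582043680)) (.cons (.rf (nat_lit 6453) (nat_lit 493858305440582043680)) (.cons (.rf (nat_lit 6454) (nat_lit 493858305440582043680)) (.cons (.br (nat_lit 8) (nat_lit 1) (.cons (.rf (nat_lit 84) (nat_lit 12054476066)) (.cons (.rf (nat_lit 6453) (nat_lit 493858305440582043680)) (.cons (.rf (nat_lit 6454) (nat_lit 493858305440582043680)) .nil)))) .nil))))),
 (.br (nat_lit 7) (nat_lit 1) (.cons (.rf (nat_lit 6452) (nat_lit 493858305440582043680)) (.cons (.br (nat_lit 11) (nat_lit 1) (.cons (.br (nat_lit 8) (nat_lit 1) (.cons (.rf (nat_lit 6410) (nat_lit 493858305440549537824)) (.cons (.rf (nat_lit 84) (nat_lit 7893759265)) .nil))) (.cons (.rf (nat_lit 6455) (nat_lit 341517437918240736330)) (.cons (.ev (nat_lit 40565131124332045270796445220865) (nat_lit 2)) .nil)))) (.cons (.zr (nat_lit 4722582656751287599104) (nat_lit 40564822834080799973261298368513) (nat_lit 5) (nat_lit 0)) .nil)))),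
 (.br (nat_lit 7) (nat_lit 1) (.cons (.rf (nat_lit 6452) (nat_lit 493858305440582043680)) (.cons (.br (nat_lit 7) (nat_lit 1) (.cons (.zr (nat_lit 4740885288948357660928) (nat_lit 1208925821584954011680771) (nat_lit 10) (nat_lit 4)) (.cons (.rf (nat_lit 6456) (nat_lit 493858305440582043680)) (.cons (.rf (nat_lit 84) (nat_lit 8966452265)) .nil)))) (.cons (.rf (nat_lit 6456) (nat_lit 493858305440582043680)) (.cons (.rf (nat_lit 6011) (nat_lit 444780292614557986)) .nil))))),
 (.br (nat_lit 12) (nat_lit 1) (.cons (.rf (nat_lit 6456) (nat_lit 493858305440582043680)) (.cons (.rf (nat_lit 6457) (nat_lit 493858305440582043680)) (.cons (.rf (nat_lit 6455) (nat_lit 341517437918240736330)) (.cons (.br (nat_lit 8) (nat_lit 1) (.cons (.rf (nat_lit 6452) (nat_lit 493858305440582043680)) (.cons (.rf (nat_lit 6456) (nat_lit 341517437918240736330)) (.cons (.rf (nat_lit 6457) (nat_lit 493858305440582043680)) .nil)))) .nil))))),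
 (.br (nat_lit 8) (nat_lit 1) (.cons (.rf (nat_lit 6455) (nat_lit 493858305440582043680)) (.cons (.rf (nat_lit 6458) (nat_lit 493858305440582043680)) (.cons (.br (nat_lit 11) (nat_lit 1) (.cons (.br (nat_lit 7) (nat_lit 1) (.cons (.ev (nat_lit 20282719102828808235944352154370) (nat_lit 2)) (.cons (.br (nat_lit 9) (nat_lit 1) (.cons (.ev (nat_lit 20681343086941679975924115113226) (nat_lit 4)) .nil)) .nil))) (.cons (.rf (nat_lit 84) (nat_lit 7796597825)) (.cons (.rf (nat_lit 6455) (nat_lit 341517437918240736330)) .nil)))) .nil)))),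
 (.br (nat_lit 8) (nat_lit 1) (.cons (.rf (nat_lit 6455) (nat_lit 493858305440582043680)) (.cons (.rf (nat_lit 6458) (nat_lit 493858305440582043680)) (.cons (.rf (nat_lit 6459) (nat_lit 493858305440582043680)) (.cons (.br (nat_lit 8) (nat_lit 1) (.cons (.rf (nat_lit 6455) (nat_lit 493858305440582043680)) (.cons (.rf (nat_lit 84) (nat_lit 7893759265)) (.cons (.rf (nat_lit 6459) (nat_lit 493858305440582043680)) .nil)))) .nil))))),
 (.br (nat_lit 8) (nat_lit 1) (.cons (.rf (nat_lit 6455) (nat_lit 493858305440582043680)) (.cons (.rf (nat_lit 6458) (nat_lit 493858305440582043680)) (.cons (.rf (nat_lit 6460) (nat_lit 493858305440582043680)) (.cons (.br (nat_lit 8) (nat_lit 1) (.cons (.rf (nat_lit 6455) (nat_lit 493858305440582043680)) (.cons (.rf (nat_lit 5126) (nat_lit 15071358377693218)) (.cons (.rf (nat_lit 6460) (nat_lit 493858305440582043680)) .nil)))) .nil))))),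
 (.br (nat_lit 8) (nat_lit 1) (.cons (.rf (nat_lit 6455) (nat_lit 493858305440582043680)) (.cons (.rf (nat_lit 6458) (nat_lit 493858305440582043680)) (.cons (.rf (nat_lit 6460) (nat_lit 493858305440582043680)) (.cons (.rf (nat_lit 6461) (nat_lit 493858305440582043680)) (.cons (.br (nat_lit 8) (nat_lit 1) (.cons (.rf (nat_lit 6455) (nat_lit 493858305440582043680)) (.cons (.rf (nat_lit 6458) (nat_lit 493858305440582043680)) (.cons (.rf (nat_lit 6460) (nat_lit 493858305440582043680)) (.cons (.rf (nat_lit 6461) (nat_lit 493858305440582043680)) .nil))))) .nil)))))),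
 (.br (nat_lit 2) (nat_lit 1) (.cons (.br (nat_lit 7) (nat_lit 1) (.cons (.kr (nat_lit 1) (nat_lit 72057594037927936) (nat_lit 0) (nat_lit 1)) (.cons (.rf (nat_lit 58) (nat_lit 7637037)) (.cons (.rf (nat_lit 6438) (nat_lit 493858305440582043680)) (.cons (.rf (nat_lit 6438) (nat_lit 492741412732994160672)) (.cons (.rf (nat_lit 58) (nat_lit 7768105)) .nil)))))) (.cons (.br (nat_lit 9) (nat_lit 1) (.cons (.rf (nat_lit 6441) (nat_lit 493858305440582043680)) (.cons (.rf (nat_lit 6444) (nat_lit 493858305440582043680)) (.cons (.rf (nat_lit 6448) (nat_lit 493858305440582043680)) (.cons (.rf (nat_lit 6448) (nat_lit 492741412732994160672)) (.cons (.rf (nat_lit 5676) (nat_lit 13582915083305)) .nil)))))) (.cons (.br (nat_lit 13) (nat_lit 1) (.cons (.rf (nat_lit 29) (nat_lit 7767330)) (.cons (.rf (nat_lit 5676) (nat_lit 13583279987746)) (.cons (.rf (nat_lit 6450) (nat_lit 481084962796308512)) (.cons (.rf (nat_lit 6450) (nat_lit 482210862703151136)) .nil))))) (.cons (.rf (nat_lit 6462) (nat_lit 493858305440582043680))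 (.cons (.rf (nat_lit 6462) (nat_lit 492741412732994160672)) (.cons (.kr (nat_lit 1099511627776) (nat_lit 20282409603651670423947251286016) (nat_lit 5) (nat_lit 0)) .nil))))))),
 (.br (nat_lit 9) (nat_lit 0) (.cons (.br (nat_lit 13) (nat_lit 0) (.cons (.br (nat_lit 1) (nat_lit 1) (.cons (.br (nat_lit 9) (nat_lit 1) (.cons (.rf (nat_lit 6435) (nat_lit 493858305440582043680)) (.cons (.rf (nat_lit 6435) (nat_lit 493858304375430154272)) (.cons (.rf (nat_lit 6435) (nat_lit 489091249770495838250)) (.cons (.rf (nat_lit 6435) (nat_lit 489091248705343948842)) (.cons (.kr (nat_lit 20282409603651670423947251286272) (nat_lit 4722366482869645279232) (nat_lit 1) (nat_lit 0)) .nil)))))) (.cons (.rf (nat_lit 6463) (nat_lit 493858305440582043680)) (.cons (.rf (nat_lit 6463) (nat_lit 493858304375430154272)) (.cons (.kr (nat_lit 16777216) (nat_lit 4722366482869645213696) (nat_lit 3) (nat_lit 0)) (.cons (.rf (nat_lit 6463) (nat_lit 489091249770495838250)) (.cons (.rf (nat_lit 6463) (nat_lit 489091248705343948842))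 (.cons (.br (nat_lit 2) (nat_lit 1) (.cons (.rf (nat_lit 6463) (nat_lit 346284493588326941760)) (.cons (.rf (nat_lit 6463) (nat_lit 346284492523175052352)) (.cons (.kr (nat_lit 1099528404992) (nat_lit 20282409608374036906816896499712) (nat_lit 3) (nat_lit 0)) (.cons (.rf (nat_lit 6463) (nat_lit 341517437918240736330)) (.cons (.rf (nat_lit 6463) (nat_lit 341517436853088846922)) .nil)))))) .nil)))))))) .nil)) .nil)),
 (.br (nat_lit 4) (nat_lit 1) (.cons (.br (nat_lit 13) (nat_lit 0) (.cons (.rf (nat_lit 6464) (nat_lit 493858305440582043680)) (.cons (.br (nat_lit 13) (nat_lit 0) (.cons (.rf (nat_lit 6464) (nat_lit 493858305440582043680)) .nil)) .nil))) .nil)),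
 (.br (nat_lit 2) (nat_lit 0) (.cons (.rf (nat_lit 6429) (nat_lit 325702574508064)) (.cons (.rf (nat_lit 6429) (nat_lit 325700429121568)) (.cons (.br (nat_lit 1) (nat_lit 0) (.cons (.rf (nat_lit 6431) (nat_lit 325702574508064)) (.cons (.rf (nat_lit 6399) (nat_lit 73502881)) (.cons (.rf (nat_lit 6431) (nat_lit 325700429121568)) (.cons (.br (nat_lit 10) (nat_lit 1) (.cons (.rf (nat_lit 6399) (nat_lit 11045867617)) (.cons (.rf (nat_lit 5644) (nat_lit 384571639850)) (.cons (.br (nat_lit 10) (nat_lit 1) (.cons (.rf (nat_lit 6399) (nat_lit 11045867617)) (.cons (.rf (nat_lit 5644) (nat_lit 418931378218)) (.cons (.br (nat_lit 4) (nat_lit 1) (.cons (.rf (nat_lit 6465) (nat_lit 14242959524133701664)) (.cons (.br (nat_lit 4) (nat_lit 1) (.cons (.rf (nat_lit 6465) (nat_lit 14242959524133701664)) .nil)) .nil))) .nil)))) .nil)))) .nil))))) .nil)))),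
 (.br (nat_lit 2) (nat_lit 0) (.cons (.rf (nat_lit 6429) (nat_lit 325702574508064)) (.cons (.rf (nat_lit 6466) (nat_lit 325702574508064)) (.cons (.rf (nat_lit 6429) (nat_lit 325700429121568)) (.cons (.br (nat_lit 2) (nat_lit 0) (.cons (.rf (nat_lit 6429) (nat_lit 325702574508064)) (.cons (.rf (nat_lit 6466) (nat_lit 325702574508064)) (.cons (.rf (nat_lit 6429) (nat_lit 325700429121568)) .nil)))) .nil))))),
 (.br (nat_lit 4) (nat_lit 1) (.cons (.rf (nat_lit 6399) (nat_lit 72551553)) (.cons (.rf (nat_lit 6467) (nat_lit 360885905392704)) (.cons (.br (nat_lit 5) (nat_lit 1) (.cons (.br (nat_lit 5) (nat_lit 1) (.cons (.rf (nat_lit 6399) (nat_lit 73502881)) (.cons (.rf (nat_lit 6396) (nat_lit 1278350411)) .nil))) (.cons (.br (nat_lit 5) (nat_lit 1) (.cons (.rf (nat_lit 6399) (nat_lit 73502881)) (.cons (.rf (nat_lit 6467) (nat_lit 396071251641408)) .nil))) (.cons (.rf (nat_lit 6430) (nat_lit 335914243490743360)) .nil)))) .nil)))),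
 (.br (nat_lit 2) (nat_lit 0) (.cons (.rf (nat_lit 6468) (nat_lit 325702574508064)) (.cons (.rf (nat_lit 6468) (nat_lit 325700429121568)) (.cons (.rf (nat_lit 5912) (nat_lit 362021924246592)) .nil)))),
 (.br (nat_lit 3) (nat_lit 0) (.cons (.br (nat_lit 4) (nat_lit 0) (.cons (.br (nat_lit 5) (nat_lit 0) (.cons (.br (nat_lit 0) (nat_lit 1) (.cons (.rf (nat_lit 211) (nat_lit 6614517792)) (.cons (.br (nat_lit 0) (nat_lit 1) (.cons (.rf (nat_lit 211) (nat_lit 7688259616)) (.cons (.br (nat_lit 1) (nat_lit 0) (.cons (.rf (nat_lit 235) (nat_lit 247132686368)) (.cons (.rf (nat_lit 235) (nat_lit 247100180512)) (.cons (.rf (nat_lit 0) (nat_lit 267395)) (.cons (.br (nat_lit 3) (nat_lit 1) (.cons (.br (nat_lit 2) (nat_lit 0) (.cons (.rf (nat_lit 235) (nat_lit 247132685376)) (.cons (.rf (nat_lit 235) (nat_lit 247100179520)) (.cons (.br (nat_lit 8) (nat_lit 1) (.cons (.rf (nat_lit 211) (nat_lit 9835743272)) (.cons (.br (nat_lit 8) (nat_lit 1) (.cons (.rf (nat_lit 211) (nat_lit 10909485096)) (.cons (.br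 (nat_lit 4) (nat_lit 1) (.cons (.br (nat_lit 11) (nat_lit 0) (.cons (.br (nat_lit 11) (nat_lit 0) (.cons (.rf (nat_lit 0) (nat_lit 398467)) .nil)) (.cons (.rf (nat_lit 0) (nat_lit 398467)) .nil))) .nil)) .nil))) .nil))) (.cons (.rf (nat_lit 0) (nat_lit 300163)) .nil))))) (.cons (.br (nat_lit 2) (nat_lit 0) (.cons (.rf (nat_lit 237) (nat_lit 325702574508064)) (.cons (.rf (nat_lit 237) (nat_lit 325702542002208)) (.cons (.br (nat_lit 2) (nat_lit 0) (.cons (.rf (nat_lit 237) (nat_lit 325702574508064)) (.cons (.rf (nat_lit 237) (nat_lit 325702542002208)) (.cons (.rf (nat_lit 0) (nat_lit 332931)) .nil)))) (.cons (.rf (nat_lit 0) (nat_lit 332931)) .nil))))) (.cons (.rf (nat_lit 228) (nat_lit 9113051500576)) .nil)))) .nil))))) .nil))) .nil))) (.cons (.br (nat_lit 6) (nat_lit 0) (.cons (.br (nat_lit 0) (nat_lit 1) (.cons (.rf (nat_lit 5644) (nat_lit 247132686368)) (.cons (.br (nat_lit 0) (nat_lit 1) (.cons (.rf (nat_lit 5644) (nat_lit 281492424736)) (.cons (.br (nat_lit 3) (nat_lit 1) (.cons (.rf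 (nat_lit 6399) (nat_lit 73568353)) (.cons (.rf (nat_lit 6467) (nat_lit 325702574508064)) (.cons (.br (nat_lit 2) (nat_lit 0) (.cons (.rf (nat_lit 6468) (nat_lit 325702574508064)) (.cons (.rf (nat_lit 6469) (nat_lit 325702574508064)) (.cons (.rf (nat_lit 6468) (nat_lit 325700429121568)) (.cons (.br (nat_lit 2) (nat_lit 0) (.cons (.rf (nat_lit 6468) (nat_lit 325702574508064)) (.cons (.rf (nat_lit 5912) (nat_lit 362021924246592)) (.cons (.rf (nat_lit 6468) (nat_lit 325700429121568)) .nil)))) .nil))))) .nil)))) .nil))) .nil))) .nil)) .nil))) .nil)) .nil)),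
 (.br (nat_lit 1) (nat_lit 0) (.cons (.rf (nat_lit 6470) (nat_lit 100384)) (.cons (.br (nat_lit 1) (nat_lit 0) (.cons (.rf (nat_lit 6470) (nat_lit 133152)) .nil)) .nil))),
 (.br (nat_lit 5) (nat_lit 1) (.cons (.rf (nat_lit 6471) (nat_lit 6277)) (.cons (.br (nat_lit 5) (nat_lit 1) (.cons (.rf (nat_lit 6471) (nat_lit 7301)) .nil)) .nil))),
 (.br (nat_lit 1) (nat_lit 0) (.cons (.kr (nat_lit 1099511627776) (nat_lit 281474976710656) (nat_lit 5) (nat_lit 0)) (.cons (.br (nat_lit 8) (nat_lit 0) (.cons (.kr (nat_lit 1099511627776) (nat_lit 72057594037927936) (nat_lit 5) (nat_lit 0)) (.cons (.rf (nat_lit 0) (nat_lit 302277)) (.cons (.rf (nat_lit 6472) (nat_lit 310512704)) .nil)))) (.cons (.rf (nat_lit 0) (nat_lit 302277)) (.cons (.rf (nat_lit 6472) (nat_lit 303172672)) .nil))))),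
 (.br (nat_lit 8) (nat_lit 0) (.cons (.rf (nat_lit 6473) (nat_lit 9043225708576)) (.cons (.rf (nat_lit 6473) (nat_lit 9009939712032)) (.cons (.rf (nat_lit 0) (nat_lit 302277)) (.cons (.rf (nat_lit 6472) (nat_lit 310512704)) .nil))))),
 (.br (nat_lit 6) (nat_lit 1) (.cons (.rf (nat_lit 6474) (nat_lit 10141697148960)) .nil)),
 (.br (nat_lit 9) (nat_lit 0) (.cons (.br (nat_lit 9) (nat_lit 0) (.cons (.rf (nat_lit 6472) (nat_lit 378670144)) .nil)) (.cons (.rf (nat_lit 6472) (nat_lit 345115712)) .nil))),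
 (.br (nat_lit 8) (nat_lit 1) (.cons (.rf (nat_lit 6476) (nat_lit 362020817963040)) (.cons (.br (nat_lit 7) (nat_lit 1) (.cons (.rf (nat_lit 6476) (nat_lit 397170830313504)) .nil)) .nil))),
 (.br (nat_lit 5) (nat_lit 1) (.cons (.rf (nat_lit 6472) (nat_lit 174164000)) .nil)),
 (.br (nat_lit 2) (nat_lit 1) (.cons (.kr (nat_lit 281474976710657) (nat_lit 4722366482869645279232) (nat_lit 0) (nat_lit 1)) (.cons (.rf (nat_lit 1593) (nat_lit 141029353761)) (.cons (.br (nat_lit 11) (nat_lit 0) (.cons (.rf (nat_lit 6478) (nat_lit 414321728)) .nil)) .nil)))),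
 (.br (nat_lit 11) (nat_lit 0) (.cons (.rf (nat_lit 6478) (nat_lit 414321728)) .nil)),
 (.br (nat_lit 11) (nat_lit 0) (.cons (.rf (nat_lit 6472) (nat_lit 414321728)) .nil)),
 (.br (nat_lit 2) (nat_lit 1) (.cons (.rf (nat_lit 6479) (nat_lit 11584701642934304)) (.cons (.br (nat_lit 3) (nat_lit 1) (.cons (.rf (nat_lit 6479) (nat_lit 11584701642902560)) (.cons (.rf (nat_lit 31) (nat_lit 103131425)) (.cons (.rf (nat_lit 6480) (nat_lit 407901468851537952)) .nil)))) (.cons (.rf (nat_lit 6481) (nat_lit 407901468851537952)) (.cons (.rf (nat_lit 6480) (nat_lit 407901468851537952)) .nil))))),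
 (.br (nat_lit 2) (nat_lit 1) (.cons (.rf (nat_lit 6482) (nat_lit 11584701642934304)) (.cons (.rf (nat_lit 6482) (nat_lit 11584701641918496)) (.cons (.br (nat_lit 3) (nat_lit 1) (.cons (.rf (nat_lit 6482) (nat_lit 11584701642934304)) (.cons (.rf (nat_lit 6482) (nat_lit 11584701640870944)) (.cons (.rf (nat_lit 6481) (nat_lit 407901468851537952)) (.cons (.rf (nat_lit 6480) (nat_lit 407901468851537952)) .nil))))) (.cons (.rf (nat_lit 6481) (nat_lit 407901468851537952)) (.cons (.rf (nat_lit 6480) (nat_lit 407901468851537952)) .nil)))))),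
 (.br (nat_lit 10) (nat_lit 1) (.cons (.ev (nat_lit 1208925819896104151482624) (nat_lit 1)) (.cons (.kr (nat_lit 72057594037927937) (nat_lit 1208925819614629174771712) (nat_lit 0) (nat_lit 1)) (.cons (.rf (nat_lit 29) (nat_lit 2393450)) (.cons (.rf (nat_lit 6480) (nat_lit 407901468851537952)) .nil))))),
 (.br (nat_lit 2) (nat_lit 1) (.cons (.rf (nat_lit 6484) (nat_lit 11584701642934304)) (.cons (.rf (nat_lit 6484) (nat_lit 11584701641918496)) (.cons (.ev (nat_lit 1213648186097498819985664) (nat_lit 1)) (.cons (.rf (nat_lit 58) (nat_lit 2466858)) (.cons (.rf (nat_lit 6480) (nat_lit 407901468851537952)) .nil)))))),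
 (.br (nat_lit 3) (nat_lit 1) (.cons (.br (nat_lit 3) (nat_lit 1) (.cons (.kr (nat_lit 1) (nat_lit 16777216) (nat_lit 0) (nat_lit 1)) (.cons (.ev (nat_lit 4722438540463699919104) (nat_lit 1)) (.cons (.rf (nat_lit 4982) (nat_lit 80664954154)) (.cons (.rf (nat_lit 6480) (nat_lit 407901468851537952)) .nil))))) (.cons (.br (nat_lit 3) (nat_lit 1) (.cons (.kr (nat_lit 1) (nat_lit 16777216) (nat_lit 0) (nat_lit 1)) (.cons (.kr (nat_lit 281474976710657) (nat_lit 4722366482869661990912) (nat_lit 0) (nat_lit 1)) (.cons (.rf (nat_lit 6481) (nat_lit 407901468851537952)) (.cons (.rf (nat_lit 6480) (nat_lit 407901468851537952)) .nil))))) (.cons (.rf (nat_lit 6485) (nat_lit 10490654387932192)) (.cons (.rf (nat_lit 6481) (nat_lit 407901468851537952)) (.cons (.rf (nat_lit 6480) (nat_lit 407901468851537952)) .nil)))))),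
 (.br (nat_lit 1) (nat_lit 1) (.cons (.rf (nat_lit 6485) (nat_lit 11584701642934304)) (.cons (.rf (nat_lit 6486) (nat_lit 11584701642934304)) (.cons (.rf (nat_lit 6486) (nat_lit 11584701641918496)) (.cons (.rf (nat_lit 6483) (nat_lit 10490654387963936)) (.cons (.rf (nat_lit 6481) (nat_lit 407901468851537952)) (.cons (.rf (nat_lit 6480) (nat_lit 407901468851537952)) .nil))))))),
 (.br (nat_lit 10) (nat_lit 0) (.cons (.br (nat_lit 9) (nat_lit 1) (.cons (.rf (nat_lit 6483) (nat_lit 11584701642934304)) (.cons (.rf (nat_lit 6487) (nat_lit 11584701642934304)) (.cons (.rf (nat_lit 6487) (nat_lit 11584701642902560)) (.cons (.rf (nat_lit 6487) (nat_lit 11584701641855008)) (.cons (.kr (nat_lit 281474976710656) (nat_lit 4722366482869645213696) (nat_lit 6) (nat_lit 0)) (.cons (.rf (nat_lit 6481) (nat_lit 407901468851537952)) (.cons (.rf (nat_lit 6480) (nat_lit 407901468851537952)) .nil)))))))) (.cons (.rf (nat_lit 6472) (nat_lit 379718720)) .nil))),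
 (.br (nat_lit 7) (nat_lit 1) (.cons (.br (nat_lit 11) (nat_lit 0) (.cons (.br (nat_lit 11) (nat_lit 0) (.cons (.rf (nat_lit 6472) (nat_lit 414321728)) .nil)) (.cons (.rf (nat_lit 6472) (nat_lit 414321728)) .nil))) .nil)),
 (.br (nat_lit 1) (nat_lit 0) (.cons (.rf (nat_lit 6477) (nat_lit 325702574508064)) (.cons (.rf (nat_lit 6477) (nat_lit 325669288511520)) (.cons (.br (nat_lit 6) (nat_lit 1) (.cons (.br (nat_lit 10) (nat_lit 0) (.cons (.rf (nat_lit 6488) (nat_lit 11584701642934304)) (.cons (.br (nat_lit 10) (nat_lit 0) (.cons (.rf (nat_lit 6488) (nat_lit 11584701642934304)) (.cons (.rf (nat_lit 6472) (nat_lit 379718720)) .nil))) (.cons (.rf (nat_lit 6472) (nat_lit 379718720)) .nil)))) (.cons (.rf (nat_lit 6489) (nat_lit 11584701642934304)) .nil))) (.cons (.rf (nat_lit 6472) (nat_lit 336727104)) .nil))))),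
 (.br (nat_lit 3) (nat_lit 1) (.cons (.ev (nat_lit 1208925819615728703176961) (nat_lit 1)) (.cons (.rf (nat_lit 2594) (nat_lit 2293344545)) (.cons (.rf (nat_lit 6480) (nat_lit 407900403699648544)) .nil)))),
 (.br (nat_lit 4) (nat_lit 1) (.cons (.rf (nat_lit 6491) (nat_lit 11584701642934304)) (.cons (.br (nat_lit 3) (nat_lit 1) (.cons (.rf (nat_lit 6491) (nat_lit 11584701642934304)) (.cons (.rf (nat_lit 84) (nat_lit 4398097450)) (.cons (.rf (nat_lit 6480) (nat_lit 407900403699648544)) .nil)))) (.cons (.rf (nat_lit 6481) (nat_lit 407900403699648544)) (.cons (.rf (nat_lit 6480) (nat_lit 407900403699648544)) .nil)))))]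

theorem c222 : chkAll C T R L222 (nat_lit 6454) = true := by decide +kernel

theorem l222 : (nat_lit 6454) + L222.length = (nat_lit 6493) := by decide +kernel

/-- part of the certificates -/
def L223 : List Prf := [(.br (nat_lit 2) (nat_lit 1) (.cons (.kr (nat_lit 1) (nat_lit 65536) (nat_lit 0) (nat_lit 1)) (.cons (.rf (nat_lit 6492) (nat_lit 11584701642934304)) (.cons (.rf (nat_lit 6492) (nat_lit 10493917455812640)) (.cons (.rf (nat_lit 6481) (nat_lit 407900403699648544)) (.cons (.rf (nat_lit 6480) (nat_lit 407900403699648544)) .nil)))))),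
 (.br (nat_lit 2) (nat_lit 1) (.cons (.rf (nat_lit 6492) (nat_lit 11584701642934304)) (.cons (.rf (nat_lit 6492) (nat_lit 11584701641918496)) (.cons (.ev (nat_lit 72058693549621504) (nat_lit 1)) (.cons (.rf (nat_lit 58) (nat_lit 2466858)) (.cons (.rf (nat_lit 6480) (nat_lit 407900403699648544)) .nil)))))),
 (.br (nat_lit 2) (nat_lit 1) (.cons (.rf (nat_lit 6493) (nat_lit 11584701642934304)) (.cons (.rf (nat_lit 6493) (nat_lit 11584701641918496)) (.cons (.rf (nat_lit 6494) (nat_lit 11584701642934304)) (.cons (.rf (nat_lit 6494) (nat_lit 10493917455812640)) (.cons (.rf (nat_lit 6481) (nat_lit 407900403699648544)) (.cons (.rf (nat_lit 6480) (nat_lit 407900403699648544)) .nil))))))),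
 (.br (nat_lit 10) (nat_lit 0) (.cons (.br (nat_lit 9) (nat_lit 0) (.cons (.br (nat_lit 1) (nat_lit 1) (.cons (.rf (nat_lit 6495) (nat_lit 11584701642934304)) (.cons (.rf (nat_lit 6495) (nat_lit 11584701642902560)) (.cons (.rf (nat_lit 6495) (nat_lit 11584701641855008)) (.cons (.kr (nat_lit 1099511627776) (nat_lit 4722366482869645213696) (nat_lit 5) (nat_lit 0)) (.cons (.kr (nat_lit 72057594037927936) (nat_lit 1208925819614629174706176) (nat_lit 7) (nat_lit 0)) (.cons (.rf (nat_lit 6481) (nat_lit 407900403699648544)) (.cons (.rf (nat_lit 6480) (nat_lit 407900403699648544)) .nil)))))))) (.cons (.rf (nat_lit 6472) (nat_lit 378670144)) .nil))) (.cons (.rf (nat_lit 6472) (nat_lit 379718720)) .nil))),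
 (.br (nat_lit 9) (nat_lit 0) (.cons (.rf (nat_lit 6490) (nat_lit 325702574508064)) (.cons (.br (nat_lit 1) (nat_lit 0) (.cons (.rf (nat_lit 6477) (nat_lit 324637422618656)) (.cons (.br (nat_lit 6) (nat_lit 1) (.cons (.br (nat_lit 10) (nat_lit 0) (.cons (.rf (nat_lit 6496) (nat_lit 10493917455812640)) (.cons (.rf (nat_lit 6496) (nat_lit 11584701642934304)) (.cons (.rf (nat_lit 6472) (nat_lit 379718720)) .nil)))) (.cons (.rf (nat_lit 6489) (nat_lit 11583636491044896)) .nil))) (.cons (.rf (nat_lit 6477) (nat_lit 324570850625568)) (.cons (.rf (nat_lit 6472) (nat_lit 336727104)) .nil))))) (.cons (.rf (nat_lit 6472) (nat_lit 345115712)) .nil)))),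
 (.br (nat_lit 9) (nat_lit 0) (.cons (.rf (nat_lit 6497) (nat_lit 325702574508064)) (.cons (.br (nat_lit 9) (nat_lit 0) (.cons (.rf (nat_lit 6490) (nat_lit 325702574508064)) (.cons (.rf (nat_lit 6490) (nat_lit 323505698736160)) (.cons (.rf (nat_lit 6472) (nat_lit 345115712)) .nil)))) (.cons (.rf (nat_lit 6497) (nat_lit 323505698736160)) (.cons (.rf (nat_lit 6472) (nat_lit 345115712)) .nil))))),
 (.br (nat_lit 6) (nat_lit 1) (.cons (.rf (nat_lit 6498) (nat_lit 359820754520096)) .nil)),
 (.br (nat_lit 0) (nat_lit 1) (.cons (.rf (nat_lit 6471) (nat_lit 2080)) (.cons (.br (nat_lit 0) (nat_lit 1) (.cons (.rf (nat_lit 6471) (nat_lit 3104)) (.cons (.br (nat_lit 0) (nat_lit 1) (.cons (.rf (nat_lit 6471) (nat_lit 4128)) (.cons (.br (nat_lit 1) (nat_lit 0) (.cons (.br (nat_lit 5) (nat_lit 0) (.cons (.br (nat_lit 6) (nat_lit 0) (.cons (.br (nat_lit 7) (nat_lit 0) (.cons (.br (nat_lit 5) (nat_lit 1) (.cons (.rf (nat_lit 6474) (nat_lit 9043225708576)) (.cons (.br (nat_lit 1) (nat_lit 0) (.cons (.rf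 (nat_lit 6475) (nat_lit 9043225708576)) (.cons (.rf (nat_lit 6475) (nat_lit 9009939712032)) (.cons (.rf (nat_lit 0) (nat_lit 302277)) (.cons (.rf (nat_lit 6472) (nat_lit 303172672)) .nil))))) .nil))) (.cons (.br (nat_lit 8) (nat_lit 0) (.cons (.br (nat_lit 5) (nat_lit 1) (.cons (.rf (nat_lit 6498) (nat_lit 325702574508064)) (.cons (.br (nat_lit 1) (nat_lit 0) (.cons (.rf (nat_lit 6499) (nat_lit 325702574508064)) (.cons (.br (nat_lit 7) (nat_lit 1) (.cons (.rf (nat_lit 6498) (nat_lit 360818294229024)) .nil)) (.cons (.rf (nat_lit 6499) (nat_lit 323505698736160)) (.cons (.rf (nat_lit 6472) (nat_lit 336727104)) .nil))))) .nil))) .nil)) .nil))) .nil)) .nil)) (.cons (.rf (nat_lit 6472) (nat_lit 168954944)) .nil))) .nil))) .nil))) .nil))),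
 (.br (nat_lit 0) (nat_lit 0) (.cons (.kr (nat_lit 256) (nat_lit 65536) (nat_lit 1) (nat_lit 0)) (.cons (.br (nat_lit 4) (nat_lit 0) (.cons (.kr (nat_lit 256) (nat_lit 16777216) (nat_lit 1) (nat_lit 0)) (.cons (.rf (nat_lit 0) (nat_lit 166977)) (.cons (.rf (nat_lit 6500) (nat_lit 133)) .nil)))) (.cons (.rf (nat_lit 0) (nat_lit 166977)) (.cons (.rf (nat_lit 6500) (nat_lit 5)) .nil))))),
 (.br (nat_lit 0) (nat_lit 0) (.cons (.rf (nat_lit 6500) (nat_lit 7)) .nil)),
 (.br (nat_lit 6) (nat_lit 0) (.cons (.rf (nat_lit 6502) (nat_lit 6543279172)) (.cons (.rf (nat_lit 6502) (nat_lit 6614517792)) (.cons (.rf (nat_lit 6500) (nat_lit 199)) .nil)))),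
 (.br (nat_lit 10) (nat_lit 1) (.cons (.br (nat_lit 11) (nat_lit 0) (.cons (.rf (nat_lit 6503) (nat_lit 12156411077)) (.cons (.rf (nat_lit 6503) (nat_lit 12156379333)) (.cons (.rf (nat_lit 6500) (nat_lit 364)) .nil)))) .nil)),
 (.br (nat_lit 9) (nat_lit 1) (.cons (.br (nat_lit 10) (nat_lit 0) (.cons (.rf (nat_lit 6504) (nat_lit 10422482586667040)) (.cons (.rf (nat_lit 6504) (nat_lit 10422449300670496)) (.cons (.rf (nat_lit 6504) (nat_lit 10421350862784544)) (.cons (.rf (nat_lit 6500) (nat_lit 331)) .nil))))) .nil)),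
 (.br (nat_lit 8) (nat_lit 0) (.cons (.rf (nat_lit 6505) (nat_lit 325702574508064)) (.cons (.rf (nat_lit 6505) (nat_lit 255402549807136)) (.cons (.rf (nat_lit 6500) (nat_lit 266)) .nil)))),
 (.br (nat_lit 5) (nat_lit 0) (.cons (.br (nat_lit 6) (nat_lit 0) (.cons (.br (nat_lit 7) (nat_lit 0) (.cons (.br (nat_lit 6) (nat_lit 1) (.cons (.br (nat_lit 8) (nat_lit 0) (.cons (.br (nat_lit 9) (nat_lit 0) (.cons (.rf (nat_lit 6501) (nat_lit 9706693)) (.cons (.rf (nat_lit 6501) (nat_lit 9674949)) (.cons (.rf (nat_lit 0) (nat_lit 336102)) (.cons (.rf (nat_lit 6500) (nat_lit 298)) .nil))))) (.cons (.br (nat_lit 10) (nat_lit 0) (.cons (.br (nat_lit 5) (nat_lit 0) (.cons (.rf (nat_lit 6506) (nat_lit 357623878748192)) (.cons (.rf (nat_lit 6506) (nat_lit 252140555700256)) (.cons (.rf (nat_lit 6506) (nat_lit 252073983707168)) (.cons (.rf (nat_lit 6500) (nat_lit 171)) .nil))))) .nil)) .nil))) .nil)) .nil)) .nil)) (.cons (.rf (nat_lit 6500) (nat_lit 166)) .nil))),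
 (.br (nat_lit 1) (nat_lit 1) (.cons (.kr (nat_lit 1) (nat_lit 256) (nat_lit 0) (nat_lit 2)) (.cons (.rf (nat_lit 6507) (nat_lit 172066848)) .nil))),
 (.br (nat_lit 1) (nat_lit 1) (.cons (.rf (nat_lit 6508) (nat_lit 4294688)) (.cons (.rf (nat_lit 6508) (nat_lit 3278880)) (.cons (.rf (nat_lit 6507) (nat_lit 172066848)) .nil)))),
 (.br (nat_lit 0) (nat_lit 1) (.cons (.rf (nat_lit 6500) (nat_lit 32)) (.cons (.br (nat_lit 0) (nat_lit 1) (.cons (.rf (nat_lit 6500) (nat_lit 64)) (.cons (.br (nat_lit 0) (nat_lit 1) (.cons (.rf (nat_lit 6500) (nat_lit 96)) (.cons (.br (nat_lit 0) (nat_lit 1) (.cons (.rf (nat_lit 6500) (nat_lit 128)) (.cons (.br (nat_lit 1) (nat_lit 1) (.cons (.rf (nat_lit 6509) (nat_lit 4294688)) (.cons (.rf (nat_lit 6509) (nat_lit 4262944)) (.cons (.rf (nat_lit 6509) (nat_lit 3215392)) (.cons (.rf (nat_lit 6507) (nat_lit 172066848)) .nil))))) .nil))) .nil))) .nil))) .nil)))]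

theorem c223 : chkAll C T R L223 (nat_lit 6493) = true := by decide +kernel

theorem l223 : (nat_lit 6493) + L223.length = (nat_lit 6511) := by decide +kernel

end Pool.Agent.H93.Neg.Q14_4_4_0_4_2
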