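import Pool.Agent.H93.Neg.TabQ14_6_0_0_7_1

/-!
Certificates.
-/

set_option autoImplicit false
set_option maxRecDepth 100000
set_option linter.all false

namespace Pool.Agent.H93.Neg.Q14_6_0_0_7_1

/-- part of the certificates -/
def L0 : List Prf := [(.br (nat_lit 2) (nat_lit 1) (.cons (.kr (nat_lit 79228162514264337593544016128) (nat_lit 309485009893403762274336768) (nat_lit 1) (nat_lit 0)) .nil)),
 (.br (nat_lit 7) (nat_lit 1) (.cons (.kr (nat_lit 79228162514264337593544016128) (nat_lit 309485009893403762274336768) (nat_lit 1) (nat_lit 0)) .nil)),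
 (.br (nat_lit 11) (nat_lit 1) (.cons (.rf (nat_lit 1) (nat_lit 493858305440582043680)) (.cons (.br (nat_lit 12) (nat_lit 1) (.cons (.kr (nat_lit 309494454554310808015274240) (nat_lit 40644047369817677244181596078080) (nat_lit 1) (nat_lit 0)) .nil)) (.cons (.kr (nat_lit 4722366482869645213696) (nat_lit 79228162514264337593543950336) (nat_lit 9) (nat_lit 0)) .nil)))),
 (.br (nat_lit 1) (nat_lit 1) (.cons (.kr (nat_lit 79228162514264337593544016128) (nat_lit 309485009893403762274336768) (nat_lit 1) (nat_lit 0)) .nil)),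
 (.br (nat_lit 10) (nat_lit 0) (.cons (.br (nat_lit 5) (nat_lit 1) (.cons (.br (nat_lit 7) (nat_lit 1) (.cons (.zr (nat_lit 4722438541563194900992) (nat_lit 1208944266640182172712961) (nat_lit 5) (nat_lit 0)) (.cons (.br (nat_lit 2) (nat_lit 1) (.cons (.zr (nat_lit 158765810038494137642911858944) (nat_lit 1218388999605921463140353) (nat_lit 5) (nat_lit 0)) .nil)) (.cons (.rf (nat_lit 0) (nat_lit 493858305440582043680)) .nil)))) (.cons (.rf (nat_lit 2) (nat_lit 493858305440582043680)) (.cons (.ev (nat_lit 40564820420970046029648493543426) (nat_lit 2)) (.cons (.br (nat_lit 7) (nat_lit 1) (.cons (.rf (nat_lit 2) (nat_lit 345165351105937382560)) (.cons (.br (nat_lit 12) (nat_lit 1) (.cons (.zr (nat_lit 158765810038494137642911858944) (nat_lit 1218388999605921463140353) (nat_lit 5) (nat_lit 0)) .nil)) (.cons (.ev (nat_lit 20361948460120094805493865775106) (nat_lit 2)) .nil)))) (.cons (.br (nat_lit 7) (nat_lit 1) (.cons (.rf (nat_lit 1) (nat_lit 492739162958125440160)) (.cons (.rf (nat_lit 3) (nat_lit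 493858305440582043680)) (.cons (.ev (nat_lit 20361948460120094805493865775106) (nat_lit 2)) .nil)))) .nil)))))) .nil)),
 (.br (nat_lit 11) (nat_lit 0) (.cons (.br (nat_lit 12) (nat_lit 0) (.cons (.br (nat_lit 13) (nat_lit 0) (.cons (.rf (nat_lit 4) (nat_lit 493858305440582043680)) (.cons (.br (nat_lit 13) (nat_lit 0) (.cons (.rf (nat_lit 4) (nat_lit 493858305440582043680)) .nil)) .nil))) .nil)) .nil)),
 (.br (nat_lit 12) (nat_lit 0) (.cons (.rf (nat_lit 5) (nat_lit 14242959524133701664)) (.cons (.br (nat_lit 12) (nat_lit 0) (.cons (.rf (nat_lit 5) (nat_lit 14242959524133701664)) .nil)) .nil))),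
 (.br (nat_lit 9) (nat_lit 1) (.cons (.br (nat_lit 9) (nat_lit 1) (.cons (.br (nat_lit 10) (nat_lit 1) (.cons (.rf (nat_lit 6) (nat_lit 14242959524133701664)) (.cons (.rf (nat_lit 6) (nat_lit 13126066816545818656)) .nil))) .nil)) .nil)),
 (.br (nat_lit 11) (nat_lit 1) (.cons (.kr (nat_lit 309485009821345068724846848) (nat_lit 79228162514336396287093506048) (nat_lit 1) (nat_lit 0)) .nil)),
 (.br (nat_lit 5) (nat_lit 1) (.cons (.kr (nat_lit 309485009821345068724846848) (nat_lit 79228162514336396287093506048) (nat_lit 1) (nat_lit 0)) .nil)),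
 (.br (nat_lit 7) (nat_lit 1) (.cons (.rf (nat_lit 8) (nat_lit 493858305440582043680)) (.cons (.ev (nat_lit 40564820420970046029648493543426) (nat_lit 2)) (.cons (.rf (nat_lit 9) (nat_lit 493858305440582043680)) .nil)))),
 (.br (nat_lit 11) (nat_lit 1) (.cons (.ev (nat_lit 79538861190719368664073699586) (nat_lit 2)) (.cons (.rf (nat_lit 9) (nat_lit 493858299872226313280)) (.cons (.rf (nat_lit 9) (nat_lit 493858301039318598720)) .nil)))),
 (.br (nat_lit 7) (nat_lit 1) (.cons (.kr (nat_lit 79228162514264337593544016128) (nat_lit 309485009893403762274336768) (nat_lit 1) (nat_lit 0)) .nil)),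
 (.br (nat_lit 1) (nat_lit 1) (.cons (.kr (nat_lit 79228162514264337593544016128) (nat_lit 309485009893403762274336768) (nat_lit 1) (nat_lit 0)) .nil)),
 (.br (nat_lit 12) (nat_lit 0) (.cons (.br (nat_lit 12) (nat_lit 1) (.cons (.br (nat_lit 11) (nat_lit 1) (.cons (.kr (nat_lit 309485009821345068724781056) (nat_lit 20282409603651670423947251286016) (nat_lit 11) (nat_lit 0)) (.cons (.kr (nat_lit 20282409603670117168020994392064) (nat_lit 79537647524085964141540409344) (nat_lit 3) (nat_lit 0)) (.cons (.kr (nat_lit 20282409603670117168020977614848) (nat_lit 79537647524085964137245442048) (nat_lit 3) (nat_lit 0)) .nil)))) (.cons (.br (nat_lit 11) (nat_lit 1) (.cons (.kr (nat_lit 20282409603651670423947268063232) (nat_lit 309485009821626543701491712) (nat_lit 3) (nat_lit 0)) (.cons (.kr (nat_lit 20282409603670117168020977614848) (nat_lit 79537647524085682666563698688) (nat_lit 3) (nat_lit 0)) (.cons (.kr (nat_lit 20282409603670117168020960837632) (nat_lit 79537647524085682662268731392) (nat_lit 8) (nat_lit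 0)) .nil)))) (.cons (.kr (nat_lit 18446744073726328832) (nat_lit 79228162514264337597838917632) (nat_lit 3) (nat_lit 0)) (.cons (.kr (nat_lit 18446744073709551616) (nat_lit 79228162514264337593543950336) (nat_lit 8) (nat_lit 0)) (.cons (.br (nat_lit 5) (nat_lit 1) (.cons (.rf (nat_lit 12) (nat_lit 493858305440582043680)) (.cons (.rf (nat_lit 13) (nat_lit 493858305440582043680)) (.cons (.ev (nat_lit 20282720302328196950769967038466) (nat_lit 2)) .nil)))) .nil)))))) .nil)),
 (.br (nat_lit 9) (nat_lit 1) (.cons (.rf (nat_lit 7) (nat_lit 10493986108180512)) (.cons (.br (nat_lit 10) (nat_lit 0) (.cons (.kr (nat_lit 4722366482869645213696) (nat_lit 1208925819614629174706176) (nat_lit 9) (nat_lit 0)) (.cons (.br (nat_lit 13) (nat_lit 0) (.cons (.br (nat_lit 2) (nat_lit 0) (.cons (.br (nat_lit 11) (nat_lit 0) (.cons (.br (nat_lit 12) (nat_lit 0) (.cons (.br (nat_lit 12) (nat_lit 1) (.cons (.rf (nat_lit 10) (nat_lit 493858305440582043680)) (.cons (.rf (nat_lit 11) (nat_lit 493858305440582043680)) (.cons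 (.rf (nat_lit 10) (nat_lit 493858305266503752864)) (.cons (.rf (nat_lit 11) (nat_lit 493858305266503752864)) (.cons (.kr (nat_lit 309485009821345068724781056) (nat_lit 20282409603651670423947251286016) (nat_lit 11) (nat_lit 0)) .nil)))))) .nil)) .nil)) (.cons (.br (nat_lit 13) (nat_lit 1) (.cons (.rf (nat_lit 14) (nat_lit 493858305440582043680)) (.cons (.rf (nat_lit 14) (nat_lit 492741412732994160672)) .nil))) .nil))) .nil)) .nil))) .nil))),
 (.br (nat_lit 7) (nat_lit 0) (.cons (.br (nat_lit 8) (nat_lit 0) (.cons (.br (nat_lit 8) (nat_lit 0) (.cons (.br (nat_lit 10) (nat_lit 1) (.cons (.rf (nat_lit 7) (nat_lit 11584701642934304)) (.cons (.br (nat_lit 10) (nat_lit 1) (.cons (.rf (nat_lit 7) (nat_lit 11584701642934304)) (.cons (.br (nat_lit 9) (nat_lit 1) (.cons (.rf (nat_lit 7) (nat_lit 10493986108180512)) (.cons (.rf (nat_lit 15) (nat_lit 14242959524133701664)) (.cons (.rf (nat_lit 15) (nat_lit 13126066816545818656)) .nil)))) .nil))) .nil))) .nil)) .nil)) .nil)),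
 (.br (nat_lit 6) (nat_lit 0) .nil),
 (.br (nat_lit 9) (nat_lit 1) (.cons (.br (nat_lit 11) (nat_lit 0) (.cons (.kr (nat_lit 18446744073709551616) (nat_lit 4722366482869645213696) (nat_lit 8) (nat_lit 0)) (.cons (.br (nat_lit 11) (nat_lit 0) (.cons (.kr (nat_lit 18446744073709551616) (nat_lit 4722366482869645213696) (nat_lit 8) (nat_lit 0)) (.cons (.rf (nat_lit 17) (nat_lit 13230151811)) .nil))) (.cons (.rf (nat_lit 17) (nat_lit 13230151811)) .nil)))) .nil)),
 (.br (nat_lit 6) (nat_lit 1) (.cons (.kr (nat_lit 1213648186097498819985408) (nat_lit 79228162514336395187598655488) (nat_lit 2) (nat_lit 0)) .nil)),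
 (.br (nat_lit 13) (nat_lit 1) (.cons (.rf (nat_lit 19) (nat_lit 15433072045018188865)) (.cons (.rf (nat_lit 19) (nat_lit 15433072042872770625)) (.cons (.ev (nat_lit 20282719088661491769020287877121) (nat_lit 1)) .nil)))),
 (.br (nat_lit 9) (nat_lit 1) (.cons (.br (nat_lit 10) (nat_lit 1) (.cons (.br (nat_lit 2) (nat_lit 1) (.cons (.rf (nat_lit 20) (nat_lit 493858305440582043680)) (.cons (.rf (nat_lit 20) (nat_lit 493858305438302439584)) (.cons (.rf (nat_lit 20) (nat_lit 493858305368509253856)) (.cons (.kr (nat_lit 18446744073709551616) (nat_lit 309485009821345068724781056) (nat_lit 8) (nat_lit 0)) (.cons (.kr (nat_lit 1208925819614629174706176) (nat_lit 20282409603651670423947251286016) (nat_lit 10) (nat_lit 0)) .nil)))))) .nil)) .nil)),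
 (.br (nat_lit 12) (nat_lit 1) (.cons (.br (nat_lit 13) (nat_lit 0) (.cons (.rf (nat_lit 21) (nat_lit 493858305440582043680)) (.cons (.br (nat_lit 9) (nat_lit 1) (.cons (.rf (nat_lit 21) (nat_lit 420141137138991335456)) (.cons (.rf (nat_lit 21) (nat_lit 493858305440582043680)) .nil))) .nil))) .nil)),
 (.br (nat_lit 12) (nat_lit 1) (.cons (.rf (nat_lit 22) (nat_lit 14242959524133701664)) (.cons (.br (nat_lit 12) (nat_lit 1) (.cons (.rf (nat_lit 22) (nat_lit 14242959524133701664)) .nil)) .nil))),
 (.br (nat_lit 13) (nat_lit 1) (.cons (.ev (nat_lit 20361637766165934761545107046401) (nat_lit 1)) (.cons (.ev (nat_lit 20361637766165935043015788789761) (nat_lit 1)) (.cons (.ev (nat_lit 20361637766165935043020066979841) (nat_lit 1)) .nil)))),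
 (.br (nat_lit 11) (nat_lit 0) (.cons (.br (nat_lit 2) (nat_lit 1) (.cons (.ev (nat_lit 79229371440083952227030466561) (nat_lit 1)) (.cons (.ev (nat_lit 79229371440084233697712209921) (nat_lit 1)) (.cons (.ev (nat_lit 79229371440084233701990400001) (nat_lit 1)) (.cons (.rf (nat_lit 24) (nat_lit 493858305440582043680)) (.cons (.rf (nat_lit 24) (nat_lit 417839761445521295392)) .nil)))))) .nil)),
 (.br (nat_lit 13) (nat_lit 0) (.cons (.br (nat_lit 2) (nat_lit 0) (.cons (.rf (nat_lit 25) (nat_lit 493858305440582043680)) (.cons (.rf (nat_lit 25) (nat_lit 490399646479877769248)) .nil))) .nil)),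
 (.br (nat_lit 10) (nat_lit 1) (.cons (.rf (nat_lit 23) (nat_lit 14242959524133701664)) (.cons (.br (nat_lit 13) (nat_lit 0) (.cons (.rf (nat_lit 26) (nat_lit 493858305440582043680)) (.cons (.rf (nat_lit 26) (nat_lit 490399646479877769248)) .nil))) .nil))),
 (.br (nat_lit 9) (nat_lit 1) (.cons (.kr (nat_lit 18446744073709551616) (nat_lit 4722366482869645213696) (nat_lit 8) (nat_lit 0)) (.cons (.br (nat_lit 12) (nat_lit 0) (.cons (.br (nat_lit 12) (nat_lit 0) (.cons (.rf (nat_lit 17) (nat_lit 14303893635)) .nil)) (.cons (.rf (nat_lit 17) (nat_lit 14303893635)) .nil))) .nil))),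
 (.br (nat_lit 8) (nat_lit 1) (.cons (.rf (nat_lit 28) (nat_lit 407901468851537952)) (.cons (.br (nat_lit 9) (nat_lit 1) (.cons (.rf (nat_lit 28) (nat_lit 407867383991076896)) (.cons (.kr (nat_lit 18446744073709551616) (nat_lit 4722366482869645213696) (nat_lit 8) (nat_lit 0)) .nil))) .nil))),
 (.br (nat_lit 12) (nat_lit 0) (.cons (.kr (nat_lit 18446744073709551616) (nat_lit 4722366482869645213696) (nat_lit 8) (nat_lit 0)) (.cons (.rf (nat_lit 17) (nat_lit 14303893635)) .nil))),
 (.br (nat_lit 12) (nat_lit 0) (.cons (.rf (nat_lit 30) (nat_lit 14242959524133701664)) (.cons (.rf (nat_lit 30) (nat_lit 14242925439273240608)) (.cons (.rf (nat_lit 17) (nat_lit 14303893635)) .nil)))),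
 (.br (nat_lit 10) (nat_lit 1) (.cons (.rf (nat_lit 29) (nat_lit 407901468851537952)) (.cons (.br (nat_lit 10) (nat_lit 1) (.cons (.rf (nat_lit 29) (nat_lit 407901468851537952)) (.cons (.rf (nat_lit 31) (nat_lit 14242959524133701664)) .nil))) (.cons (.rf (nat_lit 31) (nat_lit 14242959524133701664)) .nil)))),
 (.br (nat_lit 1) (nat_lit 1) (.cons (.kr (nat_lit 20282719088661491769015976132864) (nat_lit 9444805024432839983104) (nat_lit 1) (nat_lit 0)) .nil)),
 (.br (nat_lit 1) (nat_lit 1) (.cons (.kr (nat_lit 20282719088661491769015976132864) (nat_lit 9444805024432839983104) (nat_lit 1) (nat_lit 0)) .nil)),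
 (.br (nat_lit 11) (nat_lit 1) (.cons (.kr (nat_lit 309485009821345068724846848) (nat_lit 20282409603651742482640800841728) (nat_lit 1) (nat_lit 0)) .nil)),
 (.br (nat_lit 1) (nat_lit 1) (.cons (.kr (nat_lit 309485009821345068724846848) (nat_lit 20282409603651742482640800841728) (nat_lit 1) (nat_lit 0)) .nil)),
 (.br (nat_lit 10) (nat_lit 1) (.cons (.br (nat_lit 8) (nat_lit 1) (.cons (.br (nat_lit 12) (nat_lit 1) (.cons (.br (nat_lit 9) (nat_lit 1) (.cons (.br (nat_lit 13) (nat_lit 1) (.cons (.kr (nat_lit 1208925819614629191483392) (nat_lit 20282409603651670705422227996672) (nat_lit 3) (nat_lit 0)) (.cons (.br (nat_lit 11) (nat_lit 1) (.cons (.ev (nat_lit 79540065394172500423603192066) (nat_lit 2)) (.cons (.rf (nat_lit 33) (nat_lit 493858305440582043680)) (.cons (.rf (nat_lit 34) (nat_lit 493858305440582043680)) .nil)))) (.cons (.br (nat_lit 2) (nat_lit 1) (.cons (.ev (nat_lit 20361637766165934761540795301889) (nat_lit 1)) (.cons (.ev (nat_lit 79229371440084233701990400001) (nat_lit 1)) (.cons (.ev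 (nat_lit 20361637766165935043015788789761) (nat_lit 1)) .nil)))) (.cons (.br (nat_lit 2) (nat_lit 1) (.cons (.ev (nat_lit 20361637766165934761545107046401) (nat_lit 1)) (.cons (.ev (nat_lit 79229371440084233697712209921) (nat_lit 1)) (.cons (.ev (nat_lit 20361637766165935043020066979841) (nat_lit 1)) .nil)))) (.cons (.kr (nat_lit 1208925819614629174706176) (nat_lit 20282409603651670423947251286016) (nat_lit 10) (nat_lit 0)) .nil)))))) .nil)) .nil)) (.cons (.br (nat_lit 11) (nat_lit 0) (.cons (.br (nat_lit 12) (nat_lit 1) (.cons (.br (nat_lit 2) (nat_lit 1) (.cons (.br (nat_lit 13) (nat_lit 1) (.cons (.kr (nat_lit 79228162514264337593560727552) (nat_lit 20282409603651670423951546253312) (nat_lit 3) (nat_lit 0)) (.cons (.kr (nat_lit 79228162514264337593543950336) (nat_lit 20282409603651670423947251286016) (nat_lit 12) (nat_lit 0)) (.cons (.ev (nat_lit 20282410812577490038580737802241) (nat_lit 1)) .nil)))) (.cons (.ev (nat_lit 79229371440084233697712209921) (nat_lit 1)) (.cons (.ev (nat_lit 79229371440084233701990400001)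 (nat_lit 1)) (.cons (.br (nat_lit 1) (nat_lit 1) (.cons (.zr (nat_lit 159384784780359193262907458304) (nat_lit 1208944266640182172844033) (nat_lit 5) (nat_lit 10)) (.cons (.zr (nat_lit 158456329750895158061061832704) (nat_lit 620178963909330315310531073) (nat_lit 5) (nat_lit 8)) (.cons (.ev (nat_lit 20282410812577490038580737802241) (nat_lit 1)) .nil)))) (.cons (.br (nat_lit 7) (nat_lit 1) (.cons (.br (nat_lit 11) (nat_lit 1) (.cons (.ev (nat_lit 79537647542532708215266738433) (nat_lit 1)) .nil)) (.cons (.ev (nat_lit 20361637766184453564308071186433) (nat_lit 1)) (.cons (.br (nat_lit 1) (nat_lit 1) (.cons (.ev (nat_lit 79537647542532708215266738433) (nat_lit 1)) .nil)) .nil)))) .nil)))))) .nil)) (.cons (.br (nat_lit 9) (nat_lit 1) (.cons (.br (nat_lit 2) (nat_lit 1) (.cons (.br (nat_lit 11) (nat_lit 1) (.cons (.ev (nat_lit 309489750634853491368001793) (nat_lit 1)) (.cons (.ev (nat_lit 309489750634853487056257281) (nat_lit 1)) (.cons (.ev (nat_lit 40644358077938793182297866699010) (nat_lit 2)) .nil))))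 (.cons (.br (nat_lit 7) (nat_lit 1) (.cons (.rf (nat_lit 35) (nat_lit 493858305440582043680)) (.cons (.rf (nat_lit 36) (nat_lit 493858305440582043680)) (.cons (.ev (nat_lit 18518802767275950081) (nat_lit 1)) .nil)))) (.cons (.br (nat_lit 5) (nat_lit 1) (.cons (.rf (nat_lit 35) (nat_lit 486940776350730029088)) (.cons (.rf (nat_lit 36) (nat_lit 486940776350730029088)) (.cons (.ev (nat_lit 18518802771554140161) (nat_lit 1)) .nil)))) (.cons (.br (nat_lit 1) (nat_lit 1) (.cons (.ev (nat_lit 309489750634853491368001793) (nat_lit 1)) (.cons (.ev (nat_lit 309489750634853487056257281) (nat_lit 1)) (.cons (.ev (nat_lit 40644358077938792337872919789826) (nat_lit 2)) .nil)))) (.cons (.kr (nat_lit 4722366482869645213696) (nat_lit 20282409603651670423947251286016) (nat_lit 9) (nat_lit 0)) .nil)))))) .nil)) .nil))) .nil))) .nil)),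
 (.br (nat_lit 10) (nat_lit 1) (.cons (.rf (nat_lit 37) (nat_lit 14242959524133701664)) (.cons (.br (nat_lit 10) (nat_lit 1) (.cons (.rf (nat_lit 37) (nat_lit 14242959524133701664)) .nil)) .nil))),
 (.br (nat_lit 7) (nat_lit 1) (.cons (.kr (nat_lit 309485009821345068724846848) (nat_lit 20282409603651742482640800841728) (nat_lit 1) (nat_lit 0)) .nil)),
 (.br (nat_lit 9) (nat_lit 1) (.cons (.br (nat_lit 13) (nat_lit 1) (.cons (.kr (nat_lit 1208925819614629191483392) (nat_lit 20282409603651670705422227996672) (nat_lit 3) (nat_lit 0)) (.cons (.br (nat_lit 1) (nat_lit 1) (.cons (.rf (nat_lit 39) (nat_lit 493858305440582043680)) (.cons (.rf (nat_lit 0) (nat_lit 458113271306876228832)) (.cons (.ev (nat_lit 20521024978298006663510349775618) (nat_lit 2)) .nil)))) (.cons (.br (nat_lit 2) (nat_lit 1) (.cons (.ev (nat_lit 79229371440083952227030466561) (nat_lit 1)) (.cons (.ev (nat_lit 20361637766165935043015788789761) (nat_lit 1)) (.cons (.ev (nat_lit 79229371440084233701990400001) (nat_lit 1)) .nil)))) (.cons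 (.br (nat_lit 2) (nat_lit 1) (.cons (.ev (nat_lit 79229371440083952227030466561) (nat_lit 1)) (.cons (.ev (nat_lit 20361637766165935043015788789761) (nat_lit 1)) (.cons (.ev (nat_lit 79229371440084233701990400001) (nat_lit 1)) .nil)))) (.cons (.kr (nat_lit 1208925819614629174706176) (nat_lit 20282409603651670423947251286016) (nat_lit 10) (nat_lit 0)) .nil)))))) .nil))]

theorem c0 : chkAll C T R L0 (nat_lit 0) = true := by decide +kernel

theorem l0 : (nat_lit 0) + L0.length = (nat_lit 41) := by decide +kernel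

/-- part of the certificates -/
def L1 : List Prf := [(.br (nat_lit 10) (nat_lit 1) (.cons (.rf (nat_lit 38) (nat_lit 11939334229873231904)) (.cons (.br (nat_lit 12) (nat_lit 1) (.cons (.rf (nat_lit 38) (nat_lit 14242959524133701664)) (.cons (.br (nat_lit 7) (nat_lit 0) (.cons (.rf (nat_lit 40) (nat_lit 493858305440582043680)) (.cons (.rf (nat_lit 40) (nat_lit 491554680146321573920)) .nil))) .nil))) .nil))),
 (.br (nat_lit 12) (nat_lit 1) (.cons (.rf (nat_lit 38) (nat_lit 14242959524133701664)) (.cons (.br (nat_lit 10) (nat_lit 1) (.cons (.rf (nat_lit 38) (nat_lit 11939334229873231904)) (.cons (.rf (nat_lit 41) (nat_lit 491554680146321573920)) (.cons (.rf (nat_lit 41) (nat_lit 493858305440582043680)) .nil)))) .nil))),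
 (.br (nat_lit 12) (nat_lit 1) (.cons (.rf (nat_lit 38) (nat_lit 14242959524133701664)) (.cons (.rf (nat_lit 42) (nat_lit 14242959524133701664)) (.cons (.br (nat_lit 12) (nat_lit 1) (.cons (.rf (nat_lit 38) (nat_lit 14242959524133701664)) (.cons (.rf (nat_lit 42) (nat_lit 14242959524133701664)) .nil))) .nil)))),
 (.br (nat_lit 8) (nat_lit 1) (.cons (.br (nat_lit 13) (nat_lit 0) (.cons (.br (nat_lit 7) (nat_lit 1) (.cons (.br (nat_lit 5) (nat_lit 1) (.cons (.zr (nat_lit 158456325028744851267736567808) (nat_lit 1213666633123051817926657) (nat_lit 5) (nat_lit 0)) (.cons (.ev (nat_lit 310693935713299870720721153) (nat_lit 1)) (.cons (.br (nat_lit 11) (nat_lit 1) (.cons (.ev (nat_lit 4722438823042483290113) (nat_lit 1)) .nil)) .nil)))) (.cons (.br (nat_lit 5) (nat_lit 1) (.cons (.zr (nat_lit 158456325028744851267736567808) (nat_lit 1213666633123051817926657) (nat_lit 5) (nat_lit 0)) (.cons (.zr (nat_lit 158456325028745129444211949568) (nat_lit 1213666632843775847694337) (nat_lit 5) (nat_lit 4)) (.cons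 (.ev (nat_lit 20282409608392555709584172449793) (nat_lit 1)) .nil)))) (.cons (.ev (nat_lit 158457538695233856941078872066) (nat_lit 2)) (.cons (.br (nat_lit 2) (nat_lit 1) (.cons (.br (nat_lit 5) (nat_lit 1) (.cons (.ev (nat_lit 4722438823042483290113) (nat_lit 1)) .nil)) (.cons (.zr (nat_lit 158456325028744851267770122240) (nat_lit 1213666633967476731281409) (nat_lit 5) (nat_lit 0)) (.cons (.ev (nat_lit 1208944266640182156001281) (nat_lit 1)) .nil)))) (.cons (.br (nat_lit 1) (nat_lit 1) (.cons (.br (nat_lit 5) (nat_lit 1) (.cons (.ev (nat_lit 4722438823042483290113) (nat_lit 1)) .nil)) (.cons (.br (nat_lit 11) (nat_lit 1) (.cons (.ev (nat_lit 4722438823042483290113) (nat_lit 1)) .nil)) (.cons (.ev (nat_lit 309489750634572012096323841) (nat_lit 1)) .nil)))) .nil)))))) .nil)) .nil)),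
 (.br (nat_lit 11) (nat_lit 1) (.cons (.kr (nat_lit 309485009821345068724846848) (nat_lit 20282409603651742482640800841728) (nat_lit 1) (nat_lit 0)) .nil)),
 (.br (nat_lit 1) (nat_lit 1) (.cons (.kr (nat_lit 309485009821345068724846848) (nat_lit 20282409603651742482640800841728) (nat_lit 1) (nat_lit 0)) .nil)),
 (.br (nat_lit 12) (nat_lit 1) (.cons (.br (nat_lit 10) (nat_lit 1) (.cons (.rf (nat_lit 44) (nat_lit 493858305440582043680)) (.cons (.br (nat_lit 11) (nat_lit 0) (.cons (.rf (nat_lit 44) (nat_lit 493856055839791613984)) (.cons (.br (nat_lit 8) (nat_lit 1) (.cons (.br (nat_lit 13) (nat_lit 1) (.cons (.kr (nat_lit 79228162514264337593560727552) (nat_lit 20282409603651670705422227996672) (nat_lit 3) (nat_lit 0)) (.cons (.br (nat_lit 5) (nat_lit 1) (.cons (.rf (nat_lit 45) (nat_lit 493858305440582043680)) (.cons (.ev (nat_lit 158457538695233856941078872066) (nat_lit 2)) (.cons (.rf (nat_lit 46) (nat_lit 493858305440582043680)) .nil)))) (.cons (.br (nat_lit 2) (nat_lit 1) (.cons (.ev (nat_lit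 1208944266358707196067841) (nat_lit 1)) (.cons (.ev (nat_lit 20361638975110201401718673047553) (nat_lit 1)) (.cons (.ev (nat_lit 1208944266640182156001281) (nat_lit 1)) .nil)))) (.cons (.br (nat_lit 2) (nat_lit 1) (.cons (.ev (nat_lit 1208944266358707196067841) (nat_lit 1)) (.cons (.ev (nat_lit 20361638975110201401718673047553) (nat_lit 1)) (.cons (.ev (nat_lit 1208944266640182156001281) (nat_lit 1)) .nil)))) (.cons (.kr (nat_lit 79228162514264337593543950336) (nat_lit 20282409603651670423947251286016) (nat_lit 12) (nat_lit 0)) .nil)))))) .nil)) .nil))) .nil))) .nil)),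
 (.br (nat_lit 12) (nat_lit 1) (.cons (.rf (nat_lit 47) (nat_lit 14242959524133701664)) (.cons (.br (nat_lit 12) (nat_lit 1) (.cons (.rf (nat_lit 47) (nat_lit 14242959524133701664)) .nil)) .nil))),
 (.br (nat_lit 7) (nat_lit 1) (.cons (.ev (nat_lit 79537652246452447006890656001) (nat_lit 1)) .nil)),
 (.br (nat_lit 7) (nat_lit 1) (.cons (.ev (nat_lit 79537652246452447006890656001) (nat_lit 1)) .nil)),
 (.br (nat_lit 10) (nat_lit 1) (.cons (.br (nat_lit 13) (nat_lit 1) (.cons (.br (nat_lit 2) (nat_lit 1) (.cons (.rf (nat_lit 3) (nat_lit 458113237222015767776)) (.cons (.rf (nat_lit 1) (nat_lit 455883951117064865824)) (.cons (.ev (nat_lit 40644360486345698601391978774786) (nat_lit 2)) .nil)))) (.cons (.kr (nat_lit 1208925819614629174706176) (nat_lit 20282409603651670423947251286016) (nat_lit 10) (nat_lit 0)) (.cons (.br (nat_lit 2) (nat_lit 1) (.cons (.rf (nat_lit 49) (nat_lit 493858305440582043680)) (.cons (.ev (nat_lit 79229376162522493790208458753) (nat_lit 1)) (.cons (.rf (nat_lit 50) (nat_lit 493858305440582043680))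 .nil)))) (.cons (.br (nat_lit 2) (nat_lit 1) (.cons (.br (nat_lit 5) (nat_lit 1) (.cons (.ev (nat_lit 79537652246452447011202400513) (nat_lit 1)) .nil)) (.cons (.ev (nat_lit 79229376162522493785930268673) (nat_lit 1)) (.cons (.br (nat_lit 5) (nat_lit 1) (.cons (.ev (nat_lit 79537652246452447011202400513) (nat_lit 1)) .nil)) .nil)))) (.cons (.br (nat_lit 7) (nat_lit 1) (.cons (.rf (nat_lit 12) (nat_lit 382099226622040344608)) (.cons (.rf (nat_lit 13) (nat_lit 382099226622040344608)) (.cons (.ev (nat_lit 20361638979832639943294786207746) (nat_lit 2)) .nil)))) .nil)))))) .nil)),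
 (.br (nat_lit 12) (nat_lit 1) (.cons (.rf (nat_lit 48) (nat_lit 10784300563429427232)) (.cons (.br (nat_lit 9) (nat_lit 1) (.cons (.rf (nat_lit 48) (nat_lit 14242959524133701664)) (.cons (.br (nat_lit 7) (nat_lit 0) (.cons (.rf (nat_lit 51) (nat_lit 493858305440582043680)) (.cons (.rf (nat_lit 51) (nat_lit 493856055839791613984)) .nil))) .nil))) .nil))),
 (.br (nat_lit 9) (nat_lit 1) (.cons (.rf (nat_lit 48) (nat_lit 14242959524133701664)) (.cons (.br (nat_lit 12) (nat_lit 1) (.cons (.rf (nat_lit 48) (nat_lit 10784300563429427232)) (.cons (.rf (nat_lit 52) (nat_lit 490399646479877769248)) (.cons (.rf (nat_lit 52) (nat_lit 493858305440582043680)) .nil)))) .nil))),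
 (.br (nat_lit 2) (nat_lit 0) (.cons (.rf (nat_lit 16) (nat_lit 247132686368)) (.cons (.br (nat_lit 8) (nat_lit 0) (.cons (.br (nat_lit 9) (nat_lit 0) (.cons (.br (nat_lit 6) (nat_lit 1) (.cons (.rf (nat_lit 16) (nat_lit 247132686368)) (.cons (.br (nat_lit 8) (nat_lit 1) (.cons (.br (nat_lit 8) (nat_lit 0) (.cons (.br (nat_lit 2) (nat_lit 0) (.cons (.rf (nat_lit 18) (nat_lit 11584701642934304)) (.cons (.rf (nat_lit 18) (nat_lit 10493986108180512)) (.cons (.rf (nat_lit 17) (nat_lit 13230151811)) .nil)))) (.cons (.br (nat_lit 10) (nat_lit 0) (.cons (.br (nat_lit 10) (nat_lit 1) (.cons (.rf (nat_lit 23) (nat_lit 14242959524133701664)) (.cons (.rf (nat_lit 27) (nat_lit 14242959524133701664)) (.cons (.br (nat_lit 10) (nat_lit 1) (.cons (.rf (nat_lit 23) (nat_lit 14242959524133701664)) (.cons (.rf (nat_lit 27) (nat_lit 14242959524133701664)) .nil))) .nil)))) .nil)) .nil))) .nil)) (.cons (.br (nat_lit 10) (nat_lit 0) (.cons (.br (nat_lit 2) (nat_lit 0) (.cons (.rf (nat_lit 32) (nat_lit 407901468851537952))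 (.cons (.rf (nat_lit 32) (nat_lit 406810753316784160)) (.cons (.rf (nat_lit 17) (nat_lit 13230151811)) .nil)))) (.cons (.br (nat_lit 12) (nat_lit 0) (.cons (.br (nat_lit 2) (nat_lit 0) (.cons (.rf (nat_lit 43) (nat_lit 14242959524133701664)) (.cons (.br (nat_lit 9) (nat_lit 1) (.cons (.rf (nat_lit 48) (nat_lit 14242959524133701664)) (.cons (.rf (nat_lit 53) (nat_lit 14242959524133701664)) (.cons (.br (nat_lit 9) (nat_lit 1) (.cons (.rf (nat_lit 48) (nat_lit 14242959524133701664)) (.cons (.rf (nat_lit 53) (nat_lit 14242959524133701664)) .nil))) .nil)))) (.cons (.rf (nat_lit 43) (nat_lit 10784300563429427232)) .nil)))) .nil)) .nil))) .nil)))) .nil)) .nil)) .nil))),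
 (.br (nat_lit 11) (nat_lit 1) (.cons (.br (nat_lit 12) (nat_lit 0) (.cons (.rf (nat_lit 17) (nat_lit 14337448067)) .nil)) .nil)),
 (.br (nat_lit 2) (nat_lit 0) (.cons (.kr (nat_lit 18446744073709551616) (nat_lit 4722366482869645213696) (nat_lit 8) (nat_lit 0)) (.cons (.br (nat_lit 10) (nat_lit 0) (.cons (.rf (nat_lit 55) (nat_lit 407901468851537952)) (.cons (.rf (nat_lit 55) (nat_lit 335914071759100960)) (.cons (.rf (nat_lit 17) (nat_lit 13263706243)) .nil)))) (.cons (.rf (nat_lit 17) (nat_lit 13263706243)) .nil)))),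
 (.br (nat_lit 2) (nat_lit 0) (.cons (.rf (nat_lit 56) (nat_lit 407901468851537952)) (.cons (.rf (nat_lit 56) (nat_lit 407867383991076896)) (.cons (.br (nat_lit 2) (nat_lit 0) (.cons (.rf (nat_lit 56) (nat_lit 407901468851537952)) (.cons (.rf (nat_lit 56) (nat_lit 407867383991076896)) (.cons (.rf (nat_lit 17) (nat_lit 13263706243)) .nil)))) (.cons (.rf (nat_lit 17) (nat_lit 13263706243)) .nil))))),
 (.br (nat_lit 13) (nat_lit 1) (.cons (.ev (nat_lit 20282409608374036906816896565249) (nat_lit 1)) (.cons (.kr (nat_lit 18446744073709551616) (nat_lit 20282409603651670423947251286016) (nat_lit 8) (nat_lit 0)) (.cons (.ev (nat_lit 20282409608374037188291890053121) (nat_lit 1)) .nil)))),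
 (.br (nat_lit 2) (nat_lit 1) (.cons (.rf (nat_lit 58) (nat_lit 493858305440582043680)) (.cons (.br (nat_lit 13) (nat_lit 1) (.cons (.ev (nat_lit 1213648258437667362963713) (nat_lit 1)) .nil)) (.cons (.zr (nat_lit 216735732067401728) (nat_lit 79537652264898909609935241217) (nat_lit 5) (nat_lit 0)) .nil)))),
 (.br (nat_lit 8) (nat_lit 1) (.cons (.br (nat_lit 9) (nat_lit 1) (.cons (.br (nat_lit 12) (nat_lit 1) (.cons (.br (nat_lit 7) (nat_lit 1) (.cons (.rf (nat_lit 59) (nat_lit 493858305440582043680)) (.cons (.ev (nat_lit 4740813508422626508801) (nat_lit 1)) (.cons (.rf (nat_lit 59) (nat_lit 493858305438302439584)) (.cons (.br (nat_lit 2) (nat_lit 1) (.cons (.rf (nat_lit 58) (nat_lit 493858305438302439584)) (.cons (.rf (nat_lit 58) (nat_lit 493858305440582043680)) (.cons (.zr (nat_lit 216172782147534848) (nat_lit 79537652264899191084895174657) (nat_lit 5) (nat_lit 0)) .nil)))) (.cons (.kr (nat_lit 18446744073709551616) (nat_lit 20282409603651670423947251286016) (nat_lit 8) (nat_lit 0)) .nil))))))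 .nil)) .nil)) .nil)),
 (.br (nat_lit 12) (nat_lit 1) (.cons (.rf (nat_lit 60) (nat_lit 14242959524133701664)) (.cons (.br (nat_lit 12) (nat_lit 1) (.cons (.rf (nat_lit 60) (nat_lit 14242959524133701664)) .nil)) .nil))),
 (.br (nat_lit 10) (nat_lit 0) (.cons (.rf (nat_lit 61) (nat_lit 10676217299108731936)) (.cons (.rf (nat_lit 61) (nat_lit 9559290506660387872)) (.cons (.rf (nat_lit 61) (nat_lit 14242959524133701664)) (.cons (.rf (nat_lit 61) (nat_lit 13126032731685357600)) .nil))))),
 (.br (nat_lit 12) (nat_lit 1) (.cons (.rf (nat_lit 61) (nat_lit 13126032731685357600)) (.cons (.br (nat_lit 2) (nat_lit 0) (.cons (.br (nat_lit 13) (nat_lit 0) (.cons (.br (nat_lit 7) (nat_lit 1) (.cons (.ev (nat_lit 79537647524157740260618403841) (nat_lit 1)) (.cons (.br (nat_lit 13) (nat_lit 1) (.cons (.ev (nat_lit 20361637766166006819139144908801) (nat_lit 1)) (.cons (.ev (nat_lit 20361637766166007100609826652161) (nat_lit 1)) (.cons (.ev (nat_lit 20361637766166007100614104842241) (nat_lit 1)) .nil)))) (.cons (.ev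 (nat_lit 79537647524158021731300147201) (nat_lit 1)) (.cons (.ev (nat_lit 79537647524158021735578337281) (nat_lit 1)) (.cons (.br (nat_lit 2) (nat_lit 1) (.cons (.zr (nat_lit 60847228815677378317661352689664) (nat_lit 79537647542676541928365883393) (nat_lit 5) (nat_lit 11)) (.cons (.zr (nat_lit 60847228815677377754719989202944) (nat_lit 79537647542676823399047626753) (nat_lit 5) (nat_lit 11)) (.cons (.zr (nat_lit 60847228815677377754711432822784) (nat_lit 79537647542676823403325816833) (nat_lit 5) (nat_lit 11)) .nil)))) .nil)))))) .nil)) (.cons (.br (nat_lit 13) (nat_lit 0) (.cons (.br (nat_lit 7) (nat_lit 1) (.cons (.ev (nat_lit 79537647524157740260618403841) (nat_lit 1)) (.cons (.zr (nat_lit 158456329751111330838880452608) (nat_lit 309485028268370621706141697) (nat_lit 5) (nat_lit 8)) (.cons (.ev (nat_lit 79537647524158021731300147201) (nat_lit 1)) (.cons (.ev (nat_lit 79537647524158021735578337281) (nat_lit 1)) (.cons (.br (nat_lit 2) (nat_lit 1) (.cons (.ev (nat_lit 79228162532711081671565312001)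 (nat_lit 1)) (.cons (.ev (nat_lit 79228162532711363142247055361) (nat_lit 1)) (.cons (.ev (nat_lit 79228162532711363146525245441) (nat_lit 1)) .nil)))) .nil)))))) .nil)) .nil))) .nil))),
 (.br (nat_lit 11) (nat_lit 1) (.cons (.rf (nat_lit 61) (nat_lit 14242959524133701664)) (.cons (.br (nat_lit 12) (nat_lit 1) (.cons (.rf (nat_lit 62) (nat_lit 14242959524133701664)) (.cons (.rf (nat_lit 63) (nat_lit 493858305440582043680)) (.cons (.br (nat_lit 12) (nat_lit 1) (.cons (.rf (nat_lit 62) (nat_lit 14242959524133701664)) (.cons (.rf (nat_lit 63) (nat_lit 493858305440582043680)) .nil))) .nil)))) .nil))),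
 (.br (nat_lit 12) (nat_lit 1) (.cons (.rf (nat_lit 64) (nat_lit 13126032731685357600)) (.cons (.br (nat_lit 12) (nat_lit 1) (.cons (.rf (nat_lit 64) (nat_lit 13126032731685357600)) .nil)) .nil))),
 (.br (nat_lit 11) (nat_lit 1) (.cons (.rf (nat_lit 64) (nat_lit 14242959524133701664)) (.cons (.rf (nat_lit 65) (nat_lit 14242959524133701664)) (.cons (.br (nat_lit 11) (nat_lit 1) (.cons (.rf (nat_lit 64) (nat_lit 14242959524133701664)) (.cons (.rf (nat_lit 65) (nat_lit 14242959524133701664)) .nil))) .nil)))),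
 (.br (nat_lit 13) (nat_lit 1) (.cons (.br (nat_lit 10) (nat_lit 1) (.cons (.ev (nat_lit 79538856468352323939658170625) (nat_lit 1)) .nil)) (.cons (.zr (nat_lit 216735732067401728) (nat_lit 79537652264898909609935241217) (nat_lit 5) (nat_lit 0)) (.cons (.br (nat_lit 7) (nat_lit 1) (.cons (.ev (nat_lit 79538856468352323939658170625) (nat_lit 1)) .nil)) .nil)))),
 (.br (nat_lit 10) (nat_lit 1) (.cons (.ev (nat_lit 1213666632842676336066561) (nat_lit 1)) .nil)),
 (.br (nat_lit 8) (nat_lit 1) (.cons (.br (nat_lit 12) (nat_lit 1) (.cons (.br (nat_lit 11) (nat_lit 1) (.cons (.br (nat_lit 2) (nat_lit 1) (.cons (.rf (nat_lit 67) (nat_lit 493858305440582043680)) (.cons (.rf (nat_lit 67) (nat_lit 493858305438302439584)) (.cons (.ev (nat_lit 309485028340428215743938561) (nat_lit 1)) (.cons (.br (nat_lit 7) (nat_lit 1) (.cons (.rf (nat_lit 68) (nat_lit 15071359418927136)) (.cons (.rf (nat_lit 68) (nat_lit 15071359418796192)) (.cons (.zr (nat_lit 216172782147534848) (nat_lit 79537652264899191084895174657) (nat_lit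 5) (nat_lit 0)) .nil)))) (.cons (.kr (nat_lit 79228162514264337593543950336) (nat_lit 20282409603651670423947251286016) (nat_lit 12) (nat_lit 0)) .nil)))))) .nil)) .nil)) .nil)),
 (.br (nat_lit 2) (nat_lit 0) (.cons (.rf (nat_lit 66) (nat_lit 10784300391630740512)) (.cons (.br (nat_lit 10) (nat_lit 0) (.cons (.rf (nat_lit 69) (nat_lit 13126032559886670880)) (.cons (.rf (nat_lit 69) (nat_lit 14242959524133701664)) (.cons (.rf (nat_lit 69) (nat_lit 9667373599182396448)) (.cons (.rf (nat_lit 69) (nat_lit 10784300563429427232)) .nil))))) (.cons (.rf (nat_lit 66) (nat_lit 10676217299108731936)) .nil)))),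
 (.br (nat_lit 9) (nat_lit 1) (.cons (.rf (nat_lit 70) (nat_lit 10784300563429427232)) (.cons (.br (nat_lit 9) (nat_lit 1) (.cons (.rf (nat_lit 70) (nat_lit 10784300563429427232)) .nil)) .nil))),
 (.br (nat_lit 11) (nat_lit 0) (.cons (.br (nat_lit 7) (nat_lit 0) (.cons (.rf (nat_lit 57) (nat_lit 407901468851537952)) (.cons (.rf (nat_lit 57) (nat_lit 335914243557787680)) (.cons (.rf (nat_lit 17) (nat_lit 13263706243)) .nil)))) (.cons (.br (nat_lit 12) (nat_lit 0) (.cons (.br (nat_lit 7) (nat_lit 0) (.cons (.rf (nat_lit 66) (nat_lit 14242959524133701664)) (.cons (.br (nat_lit 12) (nat_lit 1) (.cons (.rf (nat_lit 70) (nat_lit 14242959524133701664)) (.cons (.rf (nat_lit 71) (nat_lit 14242959524133701664)) (.cons (.br (nat_lit 12) (nat_lit 1) (.cons (.rf (nat_lit 70) (nat_lit 14242959524133701664)) (.cons (.rf (nat_lit 71) (nat_lit 14242959524133701664)) .nil))) .nil)))) (.cons (.rf (nat_lit 66) (nat_lit 10784300563429427232)) .nil)))) .nil)) .nil)))]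

theorem c1 : chkAll C T R L1 (nat_lit 41) = true := by decide +kernel

theorem l1 : (nat_lit 41) + L1.length = (nat_lit 73) := by decide +kernel

/-- part of the certificates -/
def L2 : List Prf := [(.br (nat_lit 11) (nat_lit 0) (.cons (.rf (nat_lit 72) (nat_lit 372998571739416608)) (.cons (.rf (nat_lit 72) (nat_lit 228701898820289600)) (.cons (.rf (nat_lit 17) (nat_lit 13230151811)) .nil)))),
 (.br (nat_lit 12) (nat_lit 0) (.cons (.rf (nat_lit 73) (nat_lit 445056165777344544)) (.cons (.rf (nat_lit 73) (nat_lit 442874562909150240)) (.cons (.rf (nat_lit 17) (nat_lit 14337448067)) .nil)))),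
 (.br (nat_lit 2) (nat_lit 0) (.cons (.rf (nat_lit 74) (nat_lit 14242959524133701664)) (.cons (.rf (nat_lit 74) (nat_lit 14242925439273240608)) (.cons (.rf (nat_lit 17) (nat_lit 14337448067)) .nil)))),
 (.br (nat_lit 2) (nat_lit 0) (.cons (.kr (nat_lit 18446744073709551616) (nat_lit 4722366482869645213696) (nat_lit 8) (nat_lit 0)) (.cons (.rf (nat_lit 17) (nat_lit 14337448067)) .nil))),
 (.br (nat_lit 11) (nat_lit 1) (.cons (.rf (nat_lit 75) (nat_lit 14242959524133701664)) (.cons (.br (nat_lit 2) (nat_lit 0) (.cons (.rf (nat_lit 76) (nat_lit 14242959524133701664)) (.cons (.rf (nat_lit 76) (nat_lit 14242925439273240608)) (.cons (.rf (nat_lit 17) (nat_lit 14337448067)) .nil)))) .nil))),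
 (.br (nat_lit 11) (nat_lit 1) (.cons (.rf (nat_lit 75) (nat_lit 14242959524133701664)) (.cons (.rf (nat_lit 77) (nat_lit 14242959524133701664)) (.cons (.rf (nat_lit 77) (nat_lit 11939368312454088864)) .nil)))),
 (.br (nat_lit 10) (nat_lit 1) (.cons (.kr (nat_lit 79228162514264337593544016128) (nat_lit 1208925891673322724261888) (nat_lit 1) (nat_lit 0)) .nil)),
 (.br (nat_lit 2) (nat_lit 1) (.cons (.kr (nat_lit 79228162514264337593544016128) (nat_lit 1208925891673322724261888) (nat_lit 1) (nat_lit 0)) .nil)),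
 (.br (nat_lit 12) (nat_lit 1) (.cons (.ev (nat_lit 20361637766184381787089481498881) (nat_lit 1)) (.cons (.rf (nat_lit 79) (nat_lit 493858305440582043680)) (.cons (.rf (nat_lit 80) (nat_lit 493858305440582043680)) .nil)))),
 (.br (nat_lit 1) (nat_lit 1) (.cons (.kr (nat_lit 79228162514336395187581878528) (nat_lit 1208925819615728686399488) (nat_lit 1) (nat_lit 0)) .nil)),
 (.br (nat_lit 2) (nat_lit 1) (.cons (.rf (nat_lit 81) (nat_lit 493858305268783356960)) (.cons (.ev (nat_lit 20282410812595936783753942138881) (nat_lit 1)) (.cons (.rf (nat_lit 82) (nat_lit 493858305440582043680)) .nil)))),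
 (.br (nat_lit 10) (nat_lit 1) (.cons (.kr (nat_lit 79228162514336395187581878528) (nat_lit 1208925819615728686399488) (nat_lit 1) (nat_lit 0)) .nil)),
 (.br (nat_lit 12) (nat_lit 1) (.cons (.kr (nat_lit 79228162514336395187581878528) (nat_lit 1208925819615728686399488) (nat_lit 1) (nat_lit 0)) .nil)),
 (.br (nat_lit 2) (nat_lit 1) (.cons (.kr (nat_lit 79228162514336395187581878528) (nat_lit 1208925819615728686399488) (nat_lit 1) (nat_lit 0)) .nil)),
 (.br (nat_lit 1) (nat_lit 1) (.cons (.kr (nat_lit 79228162514336395187581878528) (nat_lit 1208925819615728686399488) (nat_lit 1) (nat_lit 0)) .nil)),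
 (.br (nat_lit 5) (nat_lit 1) (.cons (.kr (nat_lit 79228162514336395187581878528) (nat_lit 1208925819615728686399488) (nat_lit 1) (nat_lit 0)) .nil)),
 (.br (nat_lit 7) (nat_lit 0) (.cons (.br (nat_lit 7) (nat_lit 1) (.cons (.ev (nat_lit 309485028340146740784005121) (nat_lit 1)) (.cons (.br (nat_lit 1) (nat_lit 1) (.cons (.rf (nat_lit 84) (nat_lit 493858305440582043680)) (.cons (.rf (nat_lit 85) (nat_lit 493858305440582043680)) (.cons (.ev (nat_lit 20361947260620489916778085941506) (nat_lit 2)) .nil)))) (.cons (.br (nat_lit 10) (nat_lit 1) (.cons (.rf (nat_lit 86) (nat_lit 493858305440582043680)) (.cons (.ev (nat_lit 309489732188109417641738241) (nat_lit 1)) (.cons (.rf (nat_lit 87) (nat_lit 493858305440582043680)) .nil)))) (.cons (.br (nat_lit 2) (nat_lit 1) (.cons (.rf (nat_lit 86) (nat_lit 235351681133222040800)) (.cons (.ev (nat_lit 309489732188109413363548161) (nat_lit 1)) (.cons (.rf (nat_lit 88) (nat_lit 493858305440582043680)) .nil)))) (.cons (.ev (nat_lit 309485028340428215743938561) (nat_lit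 1)) .nil)))))) .nil)),
 (.br (nat_lit 12) (nat_lit 0) (.cons (.br (nat_lit 2) (nat_lit 0) (.cons (.br (nat_lit 13) (nat_lit 1) (.cons (.br (nat_lit 7) (nat_lit 1) (.cons (.rf (nat_lit 81) (nat_lit 493858305440582043680)) (.cons (.kr (nat_lit 65536) (nat_lit 72057594037927936) (nat_lit 2) (nat_lit 0)) (.cons (.rf (nat_lit 81) (nat_lit 491554714228902430880)) (.cons (.rf (nat_lit 83) (nat_lit 493858305440582043680)) (.cons (.rf (nat_lit 83) (nat_lit 491554714228902430880)) .nil)))))) .nil)) .nil)) (.cons (.br (nat_lit 13) (nat_lit 1) (.cons (.rf (nat_lit 89) (nat_lit 493858305440582043680)) (.cons (.rf (nat_lit 89) (nat_lit 493858305268783356960)) .nil))) .nil))),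
 (.br (nat_lit 13) (nat_lit 1) (.cons (.br (nat_lit 7) (nat_lit 1) (.cons (.br (nat_lit 2) (nat_lit 1) (.cons (.kr (nat_lit 20282409603651670423951546318848) (nat_lit 4722438821938659852288) (nat_lit 2) (nat_lit 0)) (.cons (.kr (nat_lit 20282409603651670423947268128768) (nat_lit 4722438821938659852288) (nat_lit 2) (nat_lit 0)) (.cons (.ev (nat_lit 20282719088661492050495247810561) (nat_lit 1)) .nil)))) (.cons (.zr (nat_lit 618970038089434211192864768) (nat_lit 20282409608374181303484244033537) (nat_lit 5) (nat_lit 9)) (.cons (.ev (nat_lit 309489732260167007401410561) (nat_lit 1)) (.cons (.ev (nat_lit 309489732260167011679600641) (nat_lit 1)) (.cons (.br (nat_lit 1) (nat_lit 1) (.cons (.ev (nat_lit 20282719088661491769020287877121) (nat_lit 1)) (.cons (.zr (nat_lit 20520094100639196402467173565184) (nat_lit 309485028412485809798643713) (nat_lit 5) (nat_lit 11)) (.cons (.zr (nat_lit 20282409613096619562472984018944) (nat_lit 158765810056797045804498944513) (nat_lit 5) (nat_lit 8)) .nil)))) .nil))))))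 .nil)),
 (.br (nat_lit 12) (nat_lit 0) (.cons (.rf (nat_lit 90) (nat_lit 493858305440582043680)) (.cons (.br (nat_lit 2) (nat_lit 0) (.cons (.rf (nat_lit 91) (nat_lit 493858305440582043680)) (.cons (.rf (nat_lit 91) (nat_lit 343980902376714373280)) .nil))) .nil))),
 (.br (nat_lit 12) (nat_lit 0) (.cons (.rf (nat_lit 90) (nat_lit 493858305440582043680)) (.cons (.rf (nat_lit 92) (nat_lit 493858305440582043680)) (.cons (.br (nat_lit 12) (nat_lit 0) (.cons (.rf (nat_lit 90) (nat_lit 493858305440582043680)) (.cons (.rf (nat_lit 92) (nat_lit 493858305440582043680)) .nil))) .nil)))),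
 (.br (nat_lit 9) (nat_lit 1) (.cons (.br (nat_lit 12) (nat_lit 0) (.cons (.rf (nat_lit 93) (nat_lit 491554714228902430880)) .nil)) .nil)),
 (.br (nat_lit 12) (nat_lit 1) (.cons (.ev (nat_lit 20361637770888301525885417160961) (nat_lit 1)) (.cons (.rf (nat_lit 79) (nat_lit 420143386739781765152)) (.cons (.rf (nat_lit 80) (nat_lit 420143386739781765152)) .nil)))),
 (.br (nat_lit 2) (nat_lit 1) (.cons (.rf (nat_lit 95) (nat_lit 493858305268783356960)) (.cons (.ev (nat_lit 20282410817299856522549877800961) (nat_lit 1)) (.cons (.rf (nat_lit 82) (nat_lit 420143386739781765152)) .nil)))),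
 (.br (nat_lit 13) (nat_lit 1) (.cons (.rf (nat_lit 94) (nat_lit 493858305440582043680)) (.cons (.br (nat_lit 9) (nat_lit 1) (.cons (.rf (nat_lit 94) (nat_lit 346284493588393986080)) (.cons (.br (nat_lit 11) (nat_lit 1) (.cons (.br (nat_lit 7) (nat_lit 1) (.cons (.rf (nat_lit 95) (nat_lit 493858305440582043680)) (.cons (.kr (nat_lit 65536) (nat_lit 72057594037927936) (nat_lit 2) (nat_lit 0)) (.cons (.rf (nat_lit 95) (nat_lit 491554714228902430880)) (.cons (.rf (nat_lit 96) (nat_lit 493858305440582043680)) (.cons (.rf (nat_lit 96) (nat_lit 491554714228902430880)) .nil)))))) .nil)) .nil))) .nil))),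
 (.br (nat_lit 12) (nat_lit 0) (.cons (.rf (nat_lit 93) (nat_lit 491554714228902430880)) (.cons (.rf (nat_lit 93) (nat_lit 343980902376714373280)) .nil))),
 (.br (nat_lit 10) (nat_lit 0) (.cons (.rf (nat_lit 98) (nat_lit 491554714228902430880)) (.cons (.br (nat_lit 11) (nat_lit 1) (.cons (.rf (nat_lit 97) (nat_lit 493858305440582043680)) (.cons (.rf (nat_lit 97) (nat_lit 493858305268783356960)) (.cons (.rf (nat_lit 98) (nat_lit 493858305440582043680)) .nil)))) .nil))),
 (.br (nat_lit 10) (nat_lit 0) (.cons (.rf (nat_lit 99) (nat_lit 493858305440582043680)) (.cons (.rf (nat_lit 98) (nat_lit 491554714228902430880)) (.cons (.rf (nat_lit 99) (nat_lit 346284493588393986080)) .nil)))),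
 (.br (nat_lit 7) (nat_lit 1) (.cons (.zr (nat_lit 216735740657336320) (nat_lit 20282719093402304995959397941249) (nat_lit 5) (nat_lit 0)) (.cons (.zr (nat_lit 216735732067401728) (nat_lit 20282719093402304995963642576897) (nat_lit 5) (nat_lit 0)) (.cons (.ev (nat_lit 20361637766184381787089481498881) (nat_lit 1)) .nil)))),
 (.br (nat_lit 2) (nat_lit 1) (.cons (.kr (nat_lit 79228162514336395187581878528) (nat_lit 1208925819615728686399488) (nat_lit 1) (nat_lit 0)) .nil)),
 (.br (nat_lit 12) (nat_lit 1) (.cons (.kr (nat_lit 79228162514264337593543950592) (nat_lit 16842752) (nat_lit 1) (nat_lit 0)) (.cons (.br (nat_lit 10) (nat_lit 1) (.cons (.kr (nat_lit 79229371440083953322230284544) (nat_lit 72057594071547904) (nat_lit 1) (nat_lit 0)) .nil)) (.cons (.rf (nat_lit 102) (nat_lit 493858305440582043680)) .nil)))),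
 (.br (nat_lit 2) (nat_lit 1) (.cons (.zr (nat_lit 216735740657336320) (nat_lit 20282719093402304995959397941249) (nat_lit 5) (nat_lit 0)) (.cons (.zr (nat_lit 216735732067401728) (nat_lit 20282719093402304995963642576897) (nat_lit 5) (nat_lit 0)) (.cons (.ev (nat_lit 20361637766184381787089481498881) (nat_lit 1)) .nil)))),
 (.br (nat_lit 7) (nat_lit 1) (.cons (.kr (nat_lit 79228162514336395187581878528) (nat_lit 1208925819615728686399488) (nat_lit 1) (nat_lit 0)) .nil)),
 (.br (nat_lit 7) (nat_lit 1) (.cons (.ev (nat_lit 79537652246524223125968716033) (nat_lit 1)) (.cons (.zr (nat_lit 216172790703915008) (nat_lit 20282719093402305277434324320257) (nat_lit 5) (nat_lit 0)) (.cons (.zr (nat_lit 216172782147534848) (nat_lit 20282719093402305277438602510337) (nat_lit 5) (nat_lit 0)) .nil)))),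
 (.br (nat_lit 1) (nat_lit 1) (.cons (.kr (nat_lit 79229371440083953322263838976) (nat_lit 72620552581349376) (nat_lit 1) (nat_lit 0)) .nil)),
 (.br (nat_lit 2) (nat_lit 0) (.cons (.br (nat_lit 10) (nat_lit 0) (.cons (.br (nat_lit 7) (nat_lit 0) (.cons (.br (nat_lit 1) (nat_lit 1) (.cons (.rf (nat_lit 101) (nat_lit 493858305440582043680)) (.cons (.rf (nat_lit 103) (nat_lit 493858305440582043680)) (.cons (.rf (nat_lit 104) (nat_lit 493858305440582043680)) (.cons (.br (nat_lit 5) (nat_lit 1) (.cons (.rf (nat_lit 104) (nat_lit 417839761271443004576)) (.cons (.kr (nat_lit 72057598332895232) (nat_lit 1208925819615728686333952) (nat_lit 4) (nat_lit 0)) (.cons (.rf (nat_lit 105) (nat_lit 493858305440582043680)) .nil)))) (.cons (.br (nat_lit 5) (nat_lit 1) (.cons (.rf (nat_lit 104) (nat_lit 417839761271443004576)) (.cons (.rf (nat_lit 101) (nat_lit 417839761271443004576)) (.cons (.br (nat_lit 2) (nat_lit 1) (.cons (.ev (nat_lit 80474583924114936276468564228) (nat_lit 3)) .nil)) .nil)))) .nil)))))) .nil))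 .nil)) (.cons (.br (nat_lit 13) (nat_lit 1) (.cons (.rf (nat_lit 100) (nat_lit 419999241864891959328)) (.cons (.br (nat_lit 11) (nat_lit 1) (.cons (.br (nat_lit 12) (nat_lit 1) (.cons (.ev (nat_lit 20361637766184381505614521565441) (nat_lit 1)) (.cons (.rf (nat_lit 106) (nat_lit 493858305440582043680)) (.cons (.br (nat_lit 10) (nat_lit 1) (.cons (.ev (nat_lit 310698658007725146344783873) (nat_lit 1)) (.cons (.rf (nat_lit 106) (nat_lit 343872819284192364704)) (.cons (.rf (nat_lit 106) (nat_lit 417839761271443004576)) .nil)))) (.cons (.rf (nat_lit 106) (nat_lit 309318882803952229408)) (.cons (.br (nat_lit 5) (nat_lit 1) (.cons (.ev (nat_lit 310698658007725146344783873) (nat_lit 1)) (.cons (.rf (nat_lit 107) (nat_lit 493858305440582043680)) (.cons (.rf (nat_lit 107) (nat_lit 309318882803952229408)) .nil)))) .nil)))))) .nil)) .nil))) .nil))),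
 (.br (nat_lit 7) (nat_lit 1) (.cons (.zr (nat_lit 216735732067401728) (nat_lit 20282719093402304995963642576897) (nat_lit 5) (nat_lit 0)) (.cons (.ev (nat_lit 20282410812596008841343701942273) (nat_lit 1)) (.cons (.zr (nat_lit 216172782147534848) (nat_lit 20282719093402305277438602510337) (nat_lit 5) (nat_lit 0)) .nil)))),
 (.br (nat_lit 2) (nat_lit 0) (.cons (.rf (nat_lit 108) (nat_lit 493858305440582043680)) (.cons (.br (nat_lit 13) (nat_lit 1) (.cons (.rf (nat_lit 100) (nat_lit 419999241864891959328)) (.cons (.br (nat_lit 9) (nat_lit 1) (.cons (.br (nat_lit 10) (nat_lit 1) (.cons (.br (nat_lit 5) (nat_lit 1) (.cons (.zr (nat_lit 20282413239873862236872617492480) (nat_lit 309485028268370630296076289) (nat_lit 5) (nat_lit 8)) (.cons (.zr (nat_lit 618970038305607001879609344) (nat_lit 20282412026225676419749245878273) (nat_lit 5) (nat_lit 9)) (.cons (.ev (nat_lit 310698658007725146344783873) (nat_lit 1)) .nil)))) (.cons (.rf (nat_lit 109) (nat_lit 493858305440582043680)) (.cons (.ev (nat_lit 310698658007443667073105921)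 (nat_lit 1)) (.cons (.rf (nat_lit 109) (nat_lit 309318882803952229408)) (.cons (.br (nat_lit 1) (nat_lit 1) (.cons (.zr (nat_lit 309485046715396170392469504) (nat_lit 20440865933402565582004001178113) (nat_lit 5) (nat_lit 13)) (.cons (.ev (nat_lit 310698658007725146344783873) (nat_lit 1)) (.cons (.zr (nat_lit 40564819212025924066500509958144) (nat_lit 158765810056796764329539011073) (nat_lit 5) (nat_lit 8)) .nil)))) .nil)))))) .nil)) .nil))) .nil))),
 (.br (nat_lit 2) (nat_lit 0) (.cons (.rf (nat_lit 108) (nat_lit 493858305440582043680)) (.cons (.rf (nat_lit 110) (nat_lit 493858305440582043680)) (.cons (.br (nat_lit 2) (nat_lit 0) (.cons (.rf (nat_lit 108) (nat_lit 493858305440582043680)) (.cons (.rf (nat_lit 110) (nat_lit 493858305440582043680)) .nil))) .nil)))),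
 (.br (nat_lit 7) (nat_lit 1) (.cons (.kr (nat_lit 79229371440083953322230284544) (nat_lit 72057602627928064) (nat_lit 1) (nat_lit 0)) .nil))]

theorem c2 : chkAll C T R L2 (nat_lit 73) = true := by decide +kernel

theorem l2 : (nat_lit 73) + L2.length = (nat_lit 113) := by decide +kernel

/-- part of the certificates -/
def L3 : List Prf := [(.br (nat_lit 7) (nat_lit 1) (.cons (.zr (nat_lit 216735732067401728) (nat_lit 20282719093402304995963642576897) (nat_lit 5) (nat_lit 0)) (.cons (.ev (nat_lit 20282410817299928580139637604353) (nat_lit 1)) (.cons (.zr (nat_lit 216172782147534848) (nat_lit 20282719093402305277438602510337) (nat_lit 5) (nat_lit 0)) .nil)))),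
 (.br (nat_lit 7) (nat_lit 1) (.cons (.zr (nat_lit 216735740657336320) (nat_lit 20282719093402304995959397941249) (nat_lit 5) (nat_lit 0)) (.cons (.ev (nat_lit 310693954087704875415633921) (nat_lit 1)) (.cons (.zr (nat_lit 216172790703915008) (nat_lit 20282719093402305277434324320257) (nat_lit 5) (nat_lit 0)) .nil)))),
 (.br (nat_lit 10) (nat_lit 1) (.cons (.kr (nat_lit 72057598332895232) (nat_lit 1208925819615728686333952) (nat_lit 4) (nat_lit 0)) (.cons (.ev (nat_lit 310693954087704875415633921) (nat_lit 1)) (.cons (.kr (nat_lit 1208925819615728703111168) (nat_lit 72339073309605888) (nat_lit 3) (nat_lit 0)) .nil)))),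
 (.br (nat_lit 10) (nat_lit 0) (.cons (.br (nat_lit 11) (nat_lit 1) (.cons (.br (nat_lit 13) (nat_lit 1) (.cons (.br (nat_lit 10) (nat_lit 1) (.cons (.br (nat_lit 2) (nat_lit 1) (.cons (.rf (nat_lit 112) (nat_lit 493858305440582043680)) (.cons (.ev (nat_lit 309489732260167011679600641) (nat_lit 1)) (.cons (.rf (nat_lit 113) (nat_lit 307015291764071303328)) .nil)))) (.cons (.rf (nat_lit 113) (nat_lit 493858305440582043680)) (.cons (.ev (nat_lit 310693954087704871137443841) (nat_lit 1)) (.cons (.rf (nat_lit 113) (nat_lit 346176410324073290784)) (.cons (.br (nat_lit 5) (nat_lit 1) (.cons (.ev (nat_lit 310693954087986350409121793) (nat_lit 1)) (.cons (.rf (nat_lit 107) (nat_lit 420143386739781765152)) (.cons (.rf (nat_lit 107) (nat_lit 309318950973673151520)) .nil)))) .nil)))))) .nil)) (.cons (.br (nat_lit 13) (nat_lit 1) (.cons (.br (nat_lit 5) (nat_lit 1) (.cons (.rf (nat_lit 103) (nat_lit 420143386739781765152)) (.cons (.rf (nat_lit 114) (nat_lit 493858305440582043680)) (.cons (.rf (nat_lit 115)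 (nat_lit 493858305440582043680)) (.cons (.br (nat_lit 1) (nat_lit 1) (.cons (.rf (nat_lit 115) (nat_lit 417839761271443004576)) (.cons (.rf (nat_lit 114) (nat_lit 417839761271443004576)) (.cons (.br (nat_lit 2) (nat_lit 1) (.cons (.ev (nat_lit 80474565108435981092725915908) (nat_lit 3)) .nil)) .nil)))) (.cons (.br (nat_lit 1) (nat_lit 1) (.cons (.kr (nat_lit 79228162514264337593543950592) (nat_lit 281474976776192) (nat_lit 1) (nat_lit 0)) (.cons (.rf (nat_lit 114) (nat_lit 417839761271443004576)) (.cons (.rf (nat_lit 105) (nat_lit 420143386739781765152)) .nil)))) .nil)))))) .nil)) .nil))) (.cons (.rf (nat_lit 111) (nat_lit 417839761271443004576)) .nil))),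
 (.br (nat_lit 12) (nat_lit 0) (.cons (.rf (nat_lit 111) (nat_lit 493858305440582043680)) (.cons (.br (nat_lit 2) (nat_lit 0) (.cons (.rf (nat_lit 116) (nat_lit 493858305440582043680)) (.cons (.br (nat_lit 2) (nat_lit 0) (.cons (.rf (nat_lit 116) (nat_lit 493858305440582043680)) (.cons (.rf (nat_lit 116) (nat_lit 346284493588393986080)) .nil))) (.cons (.rf (nat_lit 116) (nat_lit 346284493588393986080)) .nil)))) .nil))),
 (.br (nat_lit 12) (nat_lit 0) (.cons (.rf (nat_lit 117) (nat_lit 493858305440582043680)) (.cons (.br (nat_lit 12) (nat_lit 0) (.cons (.rf (nat_lit 117) (nat_lit 493858305440582043680)) (.cons (.rf (nat_lit 117) (nat_lit 346284493588393986080)) .nil))) (.cons (.rf (nat_lit 117) (nat_lit 346284493588393986080)) .nil)))),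
 (.br (nat_lit 7) (nat_lit 0) (.cons (.rf (nat_lit 54) (nat_lit 247132686368)) (.cons (.rf (nat_lit 54) (nat_lit 244853082272)) (.cons (.br (nat_lit 8) (nat_lit 0) (.cons (.br (nat_lit 4) (nat_lit 1) (.cons (.rf (nat_lit 54) (nat_lit 75333999648)) (.cons (.rf (nat_lit 54) (nat_lit 247132686368)) (.cons (.br (nat_lit 9) (nat_lit 0) (.cons (.br (nat_lit 6) (nat_lit 1) (.cons (.rf (nat_lit 54) (nat_lit 73054395552)) (.cons (.rf (nat_lit 54) (nat_lit 244853082272)) (.cons (.rf (nat_lit 72) (nat_lit 407901468851537952)) (.cons (.br (nat_lit 11) (nat_lit 0) (.cons (.br (nat_lit 7) (nat_lit 0) (.cons (.rf (nat_lit 78) (nat_lit 14242959524133701664)) (.cons (.rf (nat_lit 78) (nat_lit 14170972298839951392)) (.cons (.rf (nat_lit 17) (nat_lit 14337448067)) .nil)))) (.cons (.br (nat_lit 8) (nat_lit 0) (.cons (.br (nat_lit 8) (nat_lit 1) (.cons (.rf (nat_lit 100) (nat_lit 493858305440582043680)) (.cons (.rf (nat_lit 118) (nat_lit 493858305440582043680)) (.cons (.rf (nat_lit 118) (nat_lit 491554714228902430880))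 .nil)))) .nil)) .nil))) .nil))))) .nil)) .nil)))) .nil)) .nil)))),
 (.br (nat_lit 7) (nat_lit 0) (.cons (.br (nat_lit 11) (nat_lit 0) (.cons (.br (nat_lit 10) (nat_lit 1) (.cons (.br (nat_lit 12) (nat_lit 0) (.cons (.rf (nat_lit 17) (nat_lit 14303893635)) .nil)) .nil)) (.cons (.rf (nat_lit 17) (nat_lit 13230151811)) .nil))) (.cons (.br (nat_lit 10) (nat_lit 1) (.cons (.kr (nat_lit 1208925819614629191483392) (nat_lit 18446744078004518912) (nat_lit 3) (nat_lit 0)) (.cons (.br (nat_lit 12) (nat_lit 0) (.cons (.br (nat_lit 11) (nat_lit 0) (.cons (.rf (nat_lit 17) (nat_lit 14303893635)) .nil)) (.cons (.rf (nat_lit 17) (nat_lit 14303893635)) .nil))) .nil))) (.cons (.rf (nat_lit 17) (nat_lit 13230151811)) .nil)))),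
 (.br (nat_lit 2) (nat_lit 0) (.cons (.rf (nat_lit 120) (nat_lit 407901468851537952)) (.cons (.rf (nat_lit 120) (nat_lit 406810753316784160)) (.cons (.rf (nat_lit 17) (nat_lit 13230151811)) .nil)))),
 (.br (nat_lit 10) (nat_lit 1) (.cons (.br (nat_lit 12) (nat_lit 0) (.cons (.rf (nat_lit 17) (nat_lit 14303893635)) .nil)) .nil)),
 (.br (nat_lit 11) (nat_lit 0) (.cons (.rf (nat_lit 121) (nat_lit 407901468851537952)) (.cons (.br (nat_lit 7) (nat_lit 0) (.cons (.br (nat_lit 2) (nat_lit 0) (.cons (.rf (nat_lit 122) (nat_lit 407901468851537952)) (.cons (.rf (nat_lit 122) (nat_lit 406810753316784160)) (.cons (.rf (nat_lit 17) (nat_lit 13230151811)) .nil)))) (.cons (.rf (nat_lit 121) (nat_lit 407867315337693216)) (.cons (.rf (nat_lit 121) (nat_lit 406742514942478368)) (.cons (.rf (nat_lit 17) (nat_lit 13230151811)) .nil))))) (.cons (.rf (nat_lit 17) (nat_lit 13230151811)) .nil)))),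
 (.br (nat_lit 10) (nat_lit 1) (.cons (.br (nat_lit 12) (nat_lit 0) (.cons (.rf (nat_lit 17) (nat_lit 14303893635)) .nil)) .nil)),
 (.br (nat_lit 2) (nat_lit 0) (.cons (.br (nat_lit 11) (nat_lit 0) (.cons (.br (nat_lit 10) (nat_lit 1) (.cons (.br (nat_lit 12) (nat_lit 0) (.cons (.rf (nat_lit 17) (nat_lit 14303893635)) .nil)) .nil)) (.cons (.rf (nat_lit 17) (nat_lit 13230151811)) .nil))) (.cons (.br (nat_lit 11) (nat_lit 0) (.cons (.rf (nat_lit 124) (nat_lit 407901468851537952)) (.cons (.rf (nat_lit 124) (nat_lit 406810581518097440)) (.cons (.rf (nat_lit 17) (nat_lit 13230151811)) .nil)))) (.cons (.rf (nat_lit 17) (nat_lit 13230151811)) .nil)))),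
 (.br (nat_lit 7) (nat_lit 0) (.cons (.rf (nat_lit 125) (nat_lit 407901468851537952)) (.cons (.rf (nat_lit 125) (nat_lit 406810753316784160)) (.cons (.rf (nat_lit 17) (nat_lit 13230151811)) .nil)))),
 (.br (nat_lit 12) (nat_lit 0) (.cons (.kr (nat_lit 4722366482869661990912) (nat_lit 18446744078004518912) (nat_lit 3) (nat_lit 0)) (.cons (.kr (nat_lit 4722366482869645213696) (nat_lit 1208925819614629174706176) (nat_lit 9) (nat_lit 0)) (.cons (.rf (nat_lit 17) (nat_lit 14303893635)) .nil)))),
 (.br (nat_lit 10) (nat_lit 1) (.cons (.br (nat_lit 9) (nat_lit 1) (.cons (.rf (nat_lit 127) (nat_lit 14242959524133701664)) .nil)) (.cons (.rf (nat_lit 127) (nat_lit 14241868808598947872)) .nil))),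
 (.br (nat_lit 11) (nat_lit 0) (.cons (.rf (nat_lit 126) (nat_lit 407901468851537952)) (.cons (.br (nat_lit 8) (nat_lit 1) (.cons (.rf (nat_lit 128) (nat_lit 407901297052851232)) (.cons (.rf (nat_lit 128) (nat_lit 407901468851537952)) (.cons (.br (nat_lit 12) (nat_lit 0) (.cons (.kr (nat_lit 4722366482869661990912) (nat_lit 18446744078004518912) (nat_lit 3) (nat_lit 0)) (.cons (.kr (nat_lit 1208925819614629191483392) (nat_lit 18446744078004518912) (nat_lit 3) (nat_lit 0)) (.cons (.rf (nat_lit 17) (nat_lit 14303893635)) .nil)))) .nil)))) (.cons (.rf (nat_lit 17) (nat_lit 13230151811)) .nil)))),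
 (.br (nat_lit 7) (nat_lit 0) (.cons (.br (nat_lit 11) (nat_lit 0) (.cons (.br (nat_lit 10) (nat_lit 1) (.cons (.br (nat_lit 12) (nat_lit 0) (.cons (.rf (nat_lit 17) (nat_lit 14303893635)) .nil)) .nil)) (.cons (.rf (nat_lit 17) (nat_lit 13230151811)) .nil))) (.cons (.br (nat_lit 10) (nat_lit 1) (.cons (.kr (nat_lit 1208925819614629191483392) (nat_lit 18446744078004518912) (nat_lit 3) (nat_lit 0)) (.cons (.br (nat_lit 12) (nat_lit 0) (.cons (.br (nat_lit 12) (nat_lit 0) (.cons (.rf (nat_lit 17) (nat_lit 14303893635)) .nil)) (.cons (.rf (nat_lit 17) (nat_lit 14303893635)) .nil))) .nil))) (.cons (.rf (nat_lit 17) (nat_lit 13230151811)) .nil)))),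
 (.br (nat_lit 2) (nat_lit 0) (.cons (.rf (nat_lit 130) (nat_lit 407901468851537952)) (.cons (.rf (nat_lit 130) (nat_lit 406810753316784160)) (.cons (.rf (nat_lit 17) (nat_lit 13230151811)) .nil)))),
 (.br (nat_lit 8) (nat_lit 1) (.cons (.br (nat_lit 10) (nat_lit 1) (.cons (.br (nat_lit 12) (nat_lit 0) (.cons (.rf (nat_lit 17) (nat_lit 14303893635)) .nil)) .nil)) (.cons (.br (nat_lit 12) (nat_lit 0) (.cons (.br (nat_lit 12) (nat_lit 0) (.cons (.rf (nat_lit 17) (nat_lit 14303893635)) .nil)) (.cons (.rf (nat_lit 17) (nat_lit 14303893635)) .nil))) .nil))),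
 (.br (nat_lit 10) (nat_lit 1) (.cons (.rf (nat_lit 132) (nat_lit 406810753316784160)) (.cons (.br (nat_lit 12) (nat_lit 0) (.cons (.br (nat_lit 2) (nat_lit 0) (.cons (.rf (nat_lit 17) (nat_lit 14303893635)) .nil)) (.cons (.rf (nat_lit 17) (nat_lit 14303893635)) .nil))) .nil))),
 (.br (nat_lit 7) (nat_lit 0) (.cons (.rf (nat_lit 131) (nat_lit 407901468851537952)) (.cons (.br (nat_lit 9) (nat_lit 1) (.cons (.rf (nat_lit 132) (nat_lit 407901468851537952)) (.cons (.rf (nat_lit 133) (nat_lit 407901468851537952)) (.cons (.br (nat_lit 10) (nat_lit 1) (.cons (.rf (nat_lit 132) (nat_lit 406810753316784160)) (.cons (.rf (nat_lit 133) (nat_lit 406810753316784160)) (.cons (.kr (nat_lit 4722366482869645213696) (nat_lit 1208925819614629174706176) (nat_lit 9) (nat_lit 0)) .nil)))) .nil)))) (.cons (.rf (nat_lit 17) (nat_lit 13230151811)) .nil)))),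
 (.br (nat_lit 11) (nat_lit 0) (.cons (.br (nat_lit 12) (nat_lit 0) (.cons (.kr (nat_lit 4722366482869661990912) (nat_lit 18446744078004518912) (nat_lit 3) (nat_lit 0)) (.cons (.kr (nat_lit 1208925819614629191483392) (nat_lit 18446744078004518912) (nat_lit 3) (nat_lit 0)) (.cons (.rf (nat_lit 17) (nat_lit 14303893635)) .nil)))) (.cons (.rf (nat_lit 17) (nat_lit 14303893635)) .nil))),
 (.br (nat_lit 11) (nat_lit 0) (.cons (.rf (nat_lit 135) (nat_lit 14242959524133701664)) (.cons (.rf (nat_lit 135) (nat_lit 14241868808598947872)) (.cons (.rf (nat_lit 17) (nat_lit 14303893635)) .nil)))),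
 (.br (nat_lit 11) (nat_lit 0) (.cons (.kr (nat_lit 16777216) (nat_lit 4294967296) (nat_lit 3) (nat_lit 0)) (.cons (.kr (nat_lit 4722366482869645213696) (nat_lit 1208925819614629174706176) (nat_lit 9) (nat_lit 0)) (.cons (.rf (nat_lit 17) (nat_lit 14303893635)) .nil)))),
 (.br (nat_lit 11) (nat_lit 0) (.cons (.kr (nat_lit 16777216) (nat_lit 4294967296) (nat_lit 3) (nat_lit 0)) (.cons (.rf (nat_lit 137) (nat_lit 14242959524133701664)) (.cons (.rf (nat_lit 137) (nat_lit 14241868808598947872)) (.cons (.rf (nat_lit 17) (nat_lit 14303893635)) .nil))))),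
 (.br (nat_lit 7) (nat_lit 0) (.cons (.rf (nat_lit 138) (nat_lit 14242959524133701664)) (.cons (.kr (nat_lit 4722366482869645213696) (nat_lit 1208925819614629174706176) (nat_lit 9) (nat_lit 0)) (.cons (.rf (nat_lit 17) (nat_lit 14303893635)) .nil)))),
 (.br (nat_lit 12) (nat_lit 0) (.cons (.rf (nat_lit 136) (nat_lit 14242959524133701664)) (.cons (.br (nat_lit 7) (nat_lit 0) (.cons (.rf (nat_lit 138) (nat_lit 14242959524133701664)) (.cons (.rf (nat_lit 139) (nat_lit 14242959524133701664)) (.cons (.rf (nat_lit 139) (nat_lit 14241868808598947872)) (.cons (.rf (nat_lit 17) (nat_lit 14303893635)) .nil))))) (.cons (.rf (nat_lit 17) (nat_lit 14303893635)) .nil)))),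
 (.br (nat_lit 4) (nat_lit 1) (.cons (.rf (nat_lit 119) (nat_lit 247031010336)) (.cons (.br (nat_lit 6) (nat_lit 1) (.cons (.rf (nat_lit 119) (nat_lit 178479302688)) (.cons (.br (nat_lit 11) (nat_lit 0) (.cons (.rf (nat_lit 121) (nat_lit 407901468851537952)) (.cons (.rf (nat_lit 123) (nat_lit 407901468851537952)) (.cons (.rf (nat_lit 123) (nat_lit 406810753316784160)) (.cons (.rf (nat_lit 17) (nat_lit 13230151811)) .nil))))) .nil))) (.cons (.br (nat_lit 6) (nat_lit 1) (.cons (.br (nat_lit 11) (nat_lit 0) (.cons (.rf (nat_lit 126) (nat_lit 407901468851537952)) (.cons (.rf (nat_lit 129) (nat_lit 407901468851537952)) (.cons (.rf (nat_lit 129) (nat_lit 406810753316784160)) (.cons (.rf (nat_lit 17) (nat_lit 13230151811)) .nil))))) (.cons (.br (nat_lit 7) (nat_lit 0) (.cons (.rf (nat_lit 131) (nat_lit 407901468851537952)) (.cons (.rf (nat_lit 134) (nat_lit 407901468851537952)) (.cons (.rf (nat_lit 134) (nat_lit 406810753316784160)) (.cons (.rf (nat_lit 17) (nat_lit 13230151811)) .nil))))) (.cons (.br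 (nat_lit 12) (nat_lit 0) (.cons (.rf (nat_lit 136) (nat_lit 14242959524133701664)) (.cons (.rf (nat_lit 140) (nat_lit 14242959524133701664)) (.cons (.rf (nat_lit 140) (nat_lit 14241868808598947872)) (.cons (.rf (nat_lit 17) (nat_lit 14303893635)) .nil))))) .nil)))) .nil)))),
 (.br (nat_lit 7) (nat_lit 0) (.cons (.br (nat_lit 2) (nat_lit 0) (.cons (.rf (nat_lit 141) (nat_lit 6865393631401184)) (.cons (.rf (nat_lit 141) (nat_lit 6865393630385376)) (.cons (.rf (nat_lit 17) (nat_lit 14303893635)) .nil)))) (.cons (.rf (nat_lit 17) (nat_lit 14303893635)) .nil))),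
 (.br (nat_lit 7) (nat_lit 0) (.cons (.rf (nat_lit 142) (nat_lit 14242959524133701664)) (.cons (.rf (nat_lit 142) (nat_lit 14241868808598947872)) (.cons (.rf (nat_lit 17) (nat_lit 14303893635)) .nil)))),
 (.br (nat_lit 7) (nat_lit 0) (.cons (.kr (nat_lit 4722366482869645213696) (nat_lit 1208925819614629174706176) (nat_lit 9) (nat_lit 0)) (.cons (.rf (nat_lit 17) (nat_lit 14303893635)) .nil))),
 (.br (nat_lit 11) (nat_lit 0) (.cons (.rf (nat_lit 143) (nat_lit 14242959524133701664)) (.cons (.br (nat_lit 2) (nat_lit 0) (.cons (.br (nat_lit 7) (nat_lit 0) (.cons (.rf (nat_lit 144) (nat_lit 14242959524133701664)) (.cons (.rf (nat_lit 144) (nat_lit 14241868808598947872)) (.cons (.rf (nat_lit 17) (nat_lit 14303893635)) .nil)))) (.cons (.rf (nat_lit 143) (nat_lit 14242925439171564576)) (.cons (.rf (nat_lit 143) (nat_lit 14241800638776349728)) (.cons (.rf (nat_lit 17) (nat_lit 14303893635)) .nil))))) (.cons (.rf (nat_lit 17) (nat_lit 14303893635)) .nil)))),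
 (.br (nat_lit 11) (nat_lit 0) (.cons (.rf (nat_lit 143) (nat_lit 14242959524133701664)) (.cons (.rf (nat_lit 145) (nat_lit 14242959524133701664)) (.cons (.rf (nat_lit 145) (nat_lit 14241868808598947872)) (.cons (.rf (nat_lit 17) (nat_lit 14303893635)) .nil))))),
 (.br (nat_lit 7) (nat_lit 0) (.cons (.rf (nat_lit 146) (nat_lit 14242925267540644896)) (.cons (.br (nat_lit 2) (nat_lit 0) (.cons (.rf (nat_lit 146) (nat_lit 14242959524133701664)) (.cons (.rf (nat_lit 119) (nat_lit 182779675712)) (.cons (.rf (nat_lit 119) (nat_lit 181705966656)) (.cons (.rf (nat_lit 17) (nat_lit 14303893635)) .nil))))) (.cons (.rf (nat_lit 17) (nat_lit 14303893635)) .nil)))),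
 (.br (nat_lit 7) (nat_lit 0) (.cons (.rf (nat_lit 146) (nat_lit 14242959352335014944)) (.cons (.rf (nat_lit 147) (nat_lit 14242959524133701664)) (.cons (.rf (nat_lit 147) (nat_lit 14241868808598947872)) (.cons (.rf (nat_lit 17) (nat_lit 14303893635)) .nil))))),
 (.br (nat_lit 7) (nat_lit 0) (.cons (.rf (nat_lit 141) (nat_lit 6865393799173184)) (.cons (.rf (nat_lit 119) (nat_lit 180634289216)) (.cons (.kr (nat_lit 4722366482869645213696) (nat_lit 1208925819614629174706176) (nat_lit 9) (nat_lit 0)) (.cons (.rf (nat_lit 17) (nat_lit 14303893635)) .nil))))),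
 (.br (nat_lit 2) (nat_lit 0) (.cons (.rf (nat_lit 146) (nat_lit 14242959524133701664)) (.cons (.rf (nat_lit 148) (nat_lit 14242959524133701664)) (.cons (.br (nat_lit 7) (nat_lit 0) (.cons (.rf (nat_lit 146) (nat_lit 14242959352335014944)) (.cons (.rf (nat_lit 148) (nat_lit 14242959352335014944)) (.cons (.rf (nat_lit 149) (nat_lit 14242959524133701664)) (.cons (.rf (nat_lit 149) (nat_lit 14241868808598947872)) (.cons (.rf (nat_lit 17) (nat_lit 14303893635)) .nil)))))) (.cons (.rf (nat_lit 17) (nat_lit 14303893635)) .nil)))))]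

theorem c3 : chkAll C T R L3 (nat_lit 113) = true := by decide +kernel

theorem l3 : (nat_lit 113) + L3.length = (nat_lit 151) := by decide +kernel

/-- part of the certificates -/
def L4 : List Prf := [(.br (nat_lit 5) (nat_lit 1) (.cons (.ev (nat_lit 79229376180897460641066975233) (nat_lit 1)) .nil)),
 (.br (nat_lit 2) (nat_lit 1) (.cons (.kr (nat_lit 20282409603651670423947251351808) (nat_lit 79228162514336396287093506048) (nat_lit 1) (nat_lit 0)) .nil)),
 (.br (nat_lit 1) (nat_lit 1) (.cons (.kr (nat_lit 20282409603651670423947251351808) (nat_lit 79228162514336396287093506048) (nat_lit 1) (nat_lit 0)) .nil)),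
 (.br (nat_lit 9) (nat_lit 1) (.cons (.br (nat_lit 10) (nat_lit 1) (.cons (.br (nat_lit 8) (nat_lit 1) (.cons (.br (nat_lit 11) (nat_lit 1) (.cons (.br (nat_lit 13) (nat_lit 1) (.cons (.br (nat_lit 12) (nat_lit 1) (.cons (.ev (nat_lit 20361638979814120859043926966273) (nat_lit 1)) (.cons (.br (nat_lit 2) (nat_lit 1) (.cons (.ev (nat_lit 79229376180897460641066975233) (nat_lit 1)) .nil)) (.cons (.rf (nat_lit 151) (nat_lit 493858305440582043680)) .nil)))) (.cons (.br (nat_lit 7) (nat_lit 1) (.cons (.br (nat_lit 12) (nat_lit 1) (.cons (.ev (nat_lit 79537647542532708215266738433) (nat_lit 1)) .nil)) (.cons (.ev (nat_lit 309485009893403762291179521) (nat_lit 1)) (.cons (.br (nat_lit 5) (nat_lit 1) (.cons (.ev (nat_lit 79537647542532708215266738433) (nat_lit 1)) .nil)) .nil)))) (.cons (.kr (nat_lit 18446744073709551616) (nat_lit 20282409603651670423947251286016) (nat_lit 8) (nat_lit 0)) (.cons (.kr (nat_lit 20282409603651670423947268063232) (nat_lit 18446744078004518912) (nat_lit 3) (nat_lit 0)) (.cons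 (.br (nat_lit 5) (nat_lit 1) (.cons (.rf (nat_lit 152) (nat_lit 493858305440582043680)) (.cons (.rf (nat_lit 153) (nat_lit 493858305440582043680)) (.cons (.ev (nat_lit 79538861190790864416259702786) (nat_lit 2)) .nil)))) .nil)))))) .nil)) .nil)) (.cons (.br (nat_lit 13) (nat_lit 0) (.cons (.br (nat_lit 11) (nat_lit 1) (.cons (.br (nat_lit 12) (nat_lit 1) (.cons (.br (nat_lit 2) (nat_lit 1) (.cons (.zr (nat_lit 36893488156009235200) (nat_lit 310698658007724042588520449) (nat_lit 5) (nat_lit 0)) (.cons (.zr (nat_lit 36893488147419300608) (nat_lit 310698658007724046833156097) (nat_lit 5) (nat_lit 0)) (.cons (.ev (nat_lit 20361638979814120859043926966273) (nat_lit 1)) .nil)))) (.cons (.br (nat_lit 1) (nat_lit 1) (.cons (.zr (nat_lit 36893488156026011648) (nat_lit 310698658007724042521412097) (nat_lit 5) (nat_lit 6)) (.cons (.zr (nat_lit 36893488147419300608) (nat_lit 310698658007724046833156097) (nat_lit 5) (nat_lit 0)) (.cons (.ev (nat_lit 20361947251175756106609536794881) (nat_lit 1)) .nil)))) (.cons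 (.br (nat_lit 13) (nat_lit 1) (.cons (.ev (nat_lit 79537652246452447006890656001) (nat_lit 1)) (.cons (.ev (nat_lit 79229371440084233701990400001) (nat_lit 1)) (.cons (.ev (nat_lit 40644358063753318485363062210562) (nat_lit 2)) .nil)))) (.cons (.br (nat_lit 13) (nat_lit 1) (.cons (.ev (nat_lit 79537652246452447011202400513) (nat_lit 1)) (.cons (.ev (nat_lit 79229371440084233697712209921) (nat_lit 1)) (.cons (.ev (nat_lit 40644358063753318485367407509506) (nat_lit 2)) .nil)))) (.cons (.kr (nat_lit 4722366482869645213696) (nat_lit 20282409603651670423947251286016) (nat_lit 9) (nat_lit 0)) .nil)))))) .nil)) (.cons (.br (nat_lit 12) (nat_lit 0) (.cons (.br (nat_lit 2) (nat_lit 1) (.cons (.br (nat_lit 12) (nat_lit 1) (.cons (.ev (nat_lit 79538856449905578766420148481) (nat_lit 1)) (.cons (.ev (nat_lit 79538856449905578770731892993) (nat_lit 1)) (.cons (.ev (nat_lit 79228167236630820467500974081) (nat_lit 1)) .nil)))) (.cons (.br (nat_lit 1) (nat_lit 1) (.cons (.ev (nat_lit 1213648258437671641153793)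 (nat_lit 1)) (.cons (.ev (nat_lit 79538856449905297291460215041) (nat_lit 1)) (.cons (.zr (nat_lit 36893488156009235200) (nat_lit 310698658007724042588520449) (nat_lit 5) (nat_lit 0)) .nil)))) (.cons (.br (nat_lit 1) (nat_lit 1) (.cons (.ev (nat_lit 1213648258437667362963713) (nat_lit 1)) (.cons (.ev (nat_lit 79538856449905297291460215041) (nat_lit 1)) (.cons (.zr (nat_lit 36893488147419300608) (nat_lit 310698658007724046833156097) (nat_lit 5) (nat_lit 0)) .nil)))) (.cons (.br (nat_lit 1) (nat_lit 1) (.cons (.ev (nat_lit 79538856449905578766420148481) (nat_lit 1)) (.cons (.ev (nat_lit 79538856449905578770731892993) (nat_lit 1)) (.cons (.zr (nat_lit 2417888532717414358647552) (nat_lit 60847538300687200225680047472641) (nat_lit 5) (nat_lit 0)) .nil)))) (.cons (.kr (nat_lit 1208925819614629174706176) (nat_lit 20282409603651670423947251286016) (nat_lit 10) (nat_lit 0)) .nil)))))) .nil)) .nil))) .nil))) .nil)),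
 (.br (nat_lit 9) (nat_lit 1) (.cons (.rf (nat_lit 154) (nat_lit 14242959524133701664)) (.cons (.br (nat_lit 9) (nat_lit 1) (.cons (.rf (nat_lit 154) (nat_lit 14242959524133701664)) .nil)) .nil))),
 (.br (nat_lit 11) (nat_lit 1) (.cons (.ev (nat_lit 309489732188109417641738241) (nat_lit 1)) .nil)),
 (.br (nat_lit 1) (nat_lit 1) (.cons (.br (nat_lit 7) (nat_lit 1) (.cons (.ev (nat_lit 20361948464823942485583316648193) (nat_lit 1)) .nil)) (.cons (.br (nat_lit 2) (nat_lit 1) (.cons (.ev (nat_lit 20361948464823942485583316648193) (nat_lit 1)) .nil)) (.cons (.ev (nat_lit 20361948464823942204112634904833) (nat_lit 1)) .nil)))),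
 (.br (nat_lit 9) (nat_lit 1) (.cons (.rf (nat_lit 155) (nat_lit 14170972298839951392)) (.cons (.br (nat_lit 11) (nat_lit 1) (.cons (.rf (nat_lit 155) (nat_lit 14242959524133701664)) (.cons (.br (nat_lit 10) (nat_lit 1) (.cons (.br (nat_lit 8) (nat_lit 1) (.cons (.br (nat_lit 13) (nat_lit 1) (.cons (.br (nat_lit 7) (nat_lit 1) (.cons (.rf (nat_lit 156) (nat_lit 15433072009550071840)) (.cons (.ev (nat_lit 1208944338417396433813761) (nat_lit 1)) (.cons (.br (nat_lit 5) (nat_lit 1) (.cons (.ev (nat_lit 79229371440084233701990400001) (nat_lit 1)) .nil)) .nil)))) (.cons (.br (nat_lit 7) (nat_lit 1) (.cons (.rf (nat_lit 49) (nat_lit 492741412664174025760)) (.cons (.ev (nat_lit 309489750706630709924134913) (nat_lit 1)) (.cons (.rf (nat_lit 50) (nat_lit 492741412664174025760)) .nil)))) (.cons (.kr (nat_lit 18446744073709551616) (nat_lit 20282409603651670423947251286016) (nat_lit 8) (nat_lit 0)) (.cons (.kr (nat_lit 20282409603651670423947268063232) (nat_lit 18446744078004518912) (nat_lit 3) (nat_lit 0))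 (.cons (.br (nat_lit 7) (nat_lit 1) (.cons (.rf (nat_lit 12) (nat_lit 236793964545822558240)) (.cons (.rf (nat_lit 13) (nat_lit 236793964545822558240)) (.cons (.ev (nat_lit 79538861190790864416259702786) (nat_lit 2)) .nil)))) .nil)))))) .nil)) (.cons (.br (nat_lit 7) (nat_lit 0) (.cons (.br (nat_lit 13) (nat_lit 1) (.cons (.br (nat_lit 2) (nat_lit 1) (.cons (.zr (nat_lit 60847228810991905322939126579968) (nat_lit 314325435466286459430895617) (nat_lit 5) (nat_lit 0)) (.cons (.zr (nat_lit 60847228810991905322939126579968) (nat_lit 314325435466286472265465857) (nat_lit 5) (nat_lit 0)) (.cons (.zr (nat_lit 36893488147419300608) (nat_lit 310698658007724046833156097) (nat_lit 5) (nat_lit 0)) .nil)))) (.cons (.kr (nat_lit 1208925819614629174706176) (nat_lit 20282409603651670423947251286016) (nat_lit 10) (nat_lit 0)) (.cons (.rf (nat_lit 157) (nat_lit 493858305440582043680)) (.cons (.rf (nat_lit 157) (nat_lit 493858305371928660000)) (.cons (.br (nat_lit 2) (nat_lit 1) (.cons (.ev (nat_lit 20361637766165934761545107046401)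 (nat_lit 1)) (.cons (.ev (nat_lit 79229371440084233701990400001) (nat_lit 1)) (.cons (.ev (nat_lit 79229371440084233697712209921) (nat_lit 1)) .nil)))) .nil)))))) .nil)) .nil))) .nil))) .nil))),
 (.br (nat_lit 11) (nat_lit 1) (.cons (.rf (nat_lit 155) (nat_lit 14242959524133701664)) (.cons (.br (nat_lit 9) (nat_lit 1) (.cons (.rf (nat_lit 155) (nat_lit 14170972298839951392)) (.cons (.rf (nat_lit 158) (nat_lit 493786318215288293408)) (.cons (.rf (nat_lit 158) (nat_lit 493858305440582043680)) .nil)))) .nil))),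
 (.br (nat_lit 11) (nat_lit 1) (.cons (.rf (nat_lit 155) (nat_lit 14242959524133701664)) (.cons (.rf (nat_lit 159) (nat_lit 14242959524133701664)) (.cons (.br (nat_lit 11) (nat_lit 1) (.cons (.rf (nat_lit 155) (nat_lit 14242959524133701664)) (.cons (.rf (nat_lit 159) (nat_lit 14242959524133701664)) .nil))) .nil)))),
 (.br (nat_lit 9) (nat_lit 1) (.cons (.br (nat_lit 9) (nat_lit 1) .nil) .nil)),
 (.br (nat_lit 11) (nat_lit 1) (.cons (.rf (nat_lit 161) (nat_lit 14242959524133701664)) (.cons (.br (nat_lit 11) (nat_lit 1) (.cons (.rf (nat_lit 161) (nat_lit 14242959524133701664)) .nil)) .nil))),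
 (.br (nat_lit 1) (nat_lit 1) (.cons (.ev (nat_lit 1208925891954797701038081) (nat_lit 1)) .nil)),
 (.br (nat_lit 2) (nat_lit 1) (.cons (.kr (nat_lit 9444732965739290493184) (nat_lit 20361637766166006820234344792064) (nat_lit 1) (nat_lit 0)) .nil)),
 (.br (nat_lit 5) (nat_lit 1) (.cons (.kr (nat_lit 9444732965739290493184) (nat_lit 20361637766166006820234344792064) (nat_lit 1) (nat_lit 0)) .nil)),
 (.br (nat_lit 12) (nat_lit 0) (.cons (.br (nat_lit 12) (nat_lit 1) (.cons (.ev (nat_lit 79538856449905297291460215041) (nat_lit 1)) (.cons (.ev (nat_lit 79228162532711363146525245441) (nat_lit 1)) (.cons (.br (nat_lit 2) (nat_lit 1) (.cons (.ev (nat_lit 79538856449905578766420148481) (nat_lit 1)) (.cons (.br (nat_lit 1) (nat_lit 1) (.cons (.ev (nat_lit 1208944338417400745558273) (nat_lit 1)) .nil)) (.cons (.rf (nat_lit 163) (nat_lit 15433070910038444064)) .nil)))) (.cons (.br (nat_lit 13) (nat_lit 1) (.cons (.br (nat_lit 2) (nat_lit 1) (.cons (.ev (nat_lit 1208944338417400745558273) (nat_lit 1)) .nil))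 (.cons (.rf (nat_lit 163) (nat_lit 15433002671664138272)) (.cons (.ev (nat_lit 79540065394243996171443896322) (nat_lit 2)) .nil)))) (.cons (.br (nat_lit 7) (nat_lit 1) (.cons (.rf (nat_lit 164) (nat_lit 493858305440582043680)) (.cons (.rf (nat_lit 165) (nat_lit 493858305440582043680)) (.cons (.ev (nat_lit 20361948460120094805493865775106) (nat_lit 2)) .nil)))) .nil)))))) .nil)),
 (.br (nat_lit 13) (nat_lit 0) (.cons (.br (nat_lit 11) (nat_lit 1) (.cons (.rf (nat_lit 166) (nat_lit 493858305440582043680)) (.cons (.br (nat_lit 9) (nat_lit 1) (.cons (.rf (nat_lit 166) (nat_lit 493786318215288293408)) .nil)) .nil))) .nil)),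
 (.br (nat_lit 10) (nat_lit 1) (.cons (.rf (nat_lit 160) (nat_lit 14242959524133701664)) (.cons (.rf (nat_lit 162) (nat_lit 14242959524133701664)) (.cons (.br (nat_lit 13) (nat_lit 0) (.cons (.rf (nat_lit 167) (nat_lit 493858305440582043680)) (.cons (.rf (nat_lit 167) (nat_lit 493786318215288293408)) .nil))) .nil)))),
 (.br (nat_lit 2) (nat_lit 1) (.cons (.ev (nat_lit 40565129901257429396095387107586) (nat_lit 2)) (.cons (.rf (nat_lit 36) (nat_lit 452424131074229143584)) (.cons (.rf (nat_lit 46) (nat_lit 453579269260783487008)) .nil)))),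
 (.br (nat_lit 2) (nat_lit 0) (.cons (.br (nat_lit 13) (nat_lit 1) (.cons (.br (nat_lit 12) (nat_lit 1) (.cons (.ev (nat_lit 79537652246452447011202400513) (nat_lit 1)) (.cons (.ev (nat_lit 20361947251175756106613814984961) (nat_lit 1)) (.cons (.ev (nat_lit 20361947251175756106609536794881) (nat_lit 1)) .nil)))) (.cons (.br (nat_lit 12) (nat_lit 1) (.cons (.ev (nat_lit 79229376180897179166073487361) (nat_lit 1)) (.cons (.ev (nat_lit 20361638975110201401718673047553) (nat_lit 1)) (.cons (.ev (nat_lit 20361638975110201401722951237633) (nat_lit 1)) .nil)))) (.cons (.rf (nat_lit 169) (nat_lit 493858305440582043680)) (.cons (.rf (nat_lit 169) (nat_lit 493856055771138230304)) (.cons (.kr (nat_lit 4722366482869645213696) (nat_lit 20282409603651670423947251286016) (nat_lit 9) (nat_lit 0)) .nil)))))) .nil)),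
 (.br (nat_lit 12) (nat_lit 0) (.cons (.br (nat_lit 13) (nat_lit 0) (.cons (.rf (nat_lit 170) (nat_lit 493858305440582043680)) (.cons (.rf (nat_lit 170) (nat_lit 493786318215288293408)) .nil))) .nil)),
 (.br (nat_lit 8) (nat_lit 1) (.cons (.rf (nat_lit 160) (nat_lit 14240709854689888288)) (.cons (.rf (nat_lit 168) (nat_lit 14242959524133701664)) (.cons (.br (nat_lit 10) (nat_lit 1) (.cons (.rf (nat_lit 160) (nat_lit 14242959524133701664)) (.cons (.rf (nat_lit 168) (nat_lit 14240709854689888288)) (.cons (.br (nat_lit 12) (nat_lit 0) (.cons (.rf (nat_lit 171) (nat_lit 493858305440582043680)) (.cons (.rf (nat_lit 171) (nat_lit 493786318215288293408)) .nil))) .nil)))) .nil)))),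
 (.br (nat_lit 12) (nat_lit 0) (.cons (.br (nat_lit 7) (nat_lit 0) (.cons (.br (nat_lit 2) (nat_lit 0) (.cons (.br (nat_lit 13) (nat_lit 1) (.cons (.br (nat_lit 12) (nat_lit 1) (.cons (.ev (nat_lit 79537647542532708210954993921) (nat_lit 1)) (.cons (.ev (nat_lit 20361947255916569333552891560193) (nat_lit 1)) (.cons (.ev (nat_lit 20361947255916569333557169750273) (nat_lit 1)) .nil)))) (.cons (.br (nat_lit 12) (nat_lit 1) (.cons (.ev (nat_lit 79229371440083952227030466561) (nat_lit 1)) (.cons (.ev (nat_lit 20361638979814121140518886899713) (nat_lit 1)) (.cons (.ev (nat_lit 20361638979814121140514608709633) (nat_lit 1)) .nil)))) (.cons (.br (nat_lit 7) (nat_lit 1) (.cons (.rf (nat_lit 0) (nat_lit 384362287637038499872)) (.cons (.rf (nat_lit 39) (nat_lit 491587324440291415264)) (.cons (.ev (nat_lit 20361948460120094805493865775106) (nat_lit 2)) .nil)))) (.cons (.br (nat_lit 5) (nat_lit 1) (.cons (.rf (nat_lit 1) (nat_lit 383247644418378962144)) (.cons (.rf (nat_lit 3) (nat_lit 384362287637038499872))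 (.cons (.ev (nat_lit 20361948460120094805493865775106) (nat_lit 2)) .nil)))) (.cons (.kr (nat_lit 4722366482869645213696) (nat_lit 20282409603651670423947251286016) (nat_lit 9) (nat_lit 0)) .nil)))))) .nil)) .nil)) (.cons (.br (nat_lit 9) (nat_lit 1) (.cons (.br (nat_lit 11) (nat_lit 1) (.cons (.rf (nat_lit 160) (nat_lit 14205772872717305888)) .nil)) (.cons (.br (nat_lit 2) (nat_lit 0) (.cons (.rf (nat_lit 160) (nat_lit 14208022473507735584)) .nil)) .nil))) .nil))),
 (.br (nat_lit 13) (nat_lit 0) (.cons (.rf (nat_lit 173) (nat_lit 493858305440582043680)) (.cons (.rf (nat_lit 173) (nat_lit 493786318215288293408)) .nil))),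
 (.br (nat_lit 2) (nat_lit 1) (.cons (.ev (nat_lit 40565439400471243114979069723394) (nat_lit 2)) (.cons (.br (nat_lit 1) (nat_lit 1) (.cons (.zr (nat_lit 237686905394648418119629930496) (nat_lit 1237944780098888697542344705) (nat_lit 5) (nat_lit 0)) .nil)) (.cons (.br (nat_lit 7) (nat_lit 1) (.cons (.zr (nat_lit 237686905394648418119629930496) (nat_lit 1237944780098888697542344705) (nat_lit 5) (nat_lit 0)) .nil)) .nil)))),
 (.br (nat_lit 12) (nat_lit 0) (.cons (.br (nat_lit 13) (nat_lit 1) (.cons (.br (nat_lit 12) (nat_lit 1) (.cons (.ev (nat_lit 79228167255077846011875426561) (nat_lit 1)) (.cons (.ev (nat_lit 20361638979832567603113341485313) (nat_lit 1)) (.cons (.ev (nat_lit 20361638979832567603117619675393) (nat_lit 1)) .nil)))) (.cons (.br (nat_lit 12) (nat_lit 1) (.cons (.ev (nat_lit 79229371440083952227030466561) (nat_lit 1)) (.cons (.ev (nat_lit 20361637766165935043020066979841) (nat_lit 1)) (.cons (.ev (nat_lit 20361637766165935043015788789761) (nat_lit 1)) .nil)))) (.cons (.rf (nat_lit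 175) (nat_lit 493858305440582043680)) (.cons (.rf (nat_lit 175) (nat_lit 493858305371928660000)) (.cons (.kr (nat_lit 1208925819614629174706176) (nat_lit 20282409603651670423947251286016) (nat_lit 10) (nat_lit 0)) .nil)))))) .nil)),
 (.br (nat_lit 11) (nat_lit 1) (.cons (.rf (nat_lit 160) (nat_lit 14208022473507735584)) (.cons (.rf (nat_lit 174) (nat_lit 493823368389956077600)) .nil))),
 (.br (nat_lit 13) (nat_lit 0) (.cons (.rf (nat_lit 174) (nat_lit 493858305440582043680)) (.cons (.br (nat_lit 7) (nat_lit 0) (.cons (.br (nat_lit 2) (nat_lit 0) (.cons (.rf (nat_lit 176) (nat_lit 493858305440582043680)) (.cons (.rf (nat_lit 176) (nat_lit 493786318215288293408)) .nil))) (.cons (.rf (nat_lit 177) (nat_lit 493858305440582043680)) (.cons (.rf (nat_lit 177) (nat_lit 493786318215288293408)) .nil)))) .nil))),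
 (.br (nat_lit 10) (nat_lit 1) (.cons (.rf (nat_lit 160) (nat_lit 14242959524133701664)) (.cons (.rf (nat_lit 172) (nat_lit 14242959524133701664)) (.cons (.br (nat_lit 13) (nat_lit 0) (.cons (.rf (nat_lit 174) (nat_lit 493858305440582043680)) (.cons (.rf (nat_lit 178) (nat_lit 493858305440582043680)) (.cons (.rf (nat_lit 178) (nat_lit 493786318215288293408)) .nil)))) .nil)))),
 (.br (nat_lit 2) (nat_lit 1) (.cons (.kr (nat_lit 20282409603651742481541289214208) (nat_lit 79228162514264338693055643648) (nat_lit 1) (nat_lit 0)) .nil)),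
 (.br (nat_lit 11) (nat_lit 1) (.cons (.br (nat_lit 8) (nat_lit 1) (.cons (.br (nat_lit 13) (nat_lit 1) (.cons (.br (nat_lit 2) (nat_lit 1) (.cons (.zr (nat_lit 9444732965739290624768) (nat_lit 310693954087985250897494017) (nat_lit 5) (nat_lit 0)) (.cons (.zr (nat_lit 618979464375655876773741312) (nat_lit 60847230019899278756448839925761) (nat_lit 5) (nat_lit 0)) (.cons (.zr (nat_lit 9444732965739324179200) (nat_lit 310693954087985263765618689) (nat_lit 5) (nat_lit 0)) .nil)))) (.cons (.kr (nat_lit 309485009821345068724781056) (nat_lit 20282409603651670423947251286016) (nat_lit 11) (nat_lit 0)) (.cons (.br (nat_lit 2) (nat_lit 1) (.cons (.rf (nat_lit 86) (nat_lit 346287763361898798240)) (.cons (.rf (nat_lit 85) (nat_lit 346287763361898798240)) (.cons (.ev (nat_lit 40644977038513702344841272295426) (nat_lit 2)) .nil)))) (.cons (.br (nat_lit 1) (nat_lit 1) (.cons (.br (nat_lit 12) (nat_lit 1) (.cons (.ev (nat_lit 20837628148049235880281584501508) (nat_lit 3)) .nil)) (.cons (.br (nat_lit 12) (nat_lit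 1) (.cons (.ev (nat_lit 317229412344526565114269336068) (nat_lit 3)) .nil)) (.cons (.br (nat_lit 5) (nat_lit 1) (.cons (.ev (nat_lit 317229412344526565118681743876) (nat_lit 3)) .nil)) .nil)))) (.cons (.br (nat_lit 5) (nat_lit 1) (.cons (.rf (nat_lit 180) (nat_lit 493858305440582043680)) (.cons (.ev (nat_lit 40644977038513702344854173974530) (nat_lit 2)) (.cons (.rf (nat_lit 87) (nat_lit 421154477843622758432)) .nil)))) .nil)))))) .nil)) .nil))]

theorem c4 : chkAll C T R L4 (nat_lit 151) = true := by decide +kernel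

theorem l4 : (nat_lit 151) + L4.length = (nat_lit 182) := by decide +kernel

/-- part of the certificates -/
def L5 : List Prf := [(.br (nat_lit 2) (nat_lit 1) (.cons (.kr (nat_lit 4722366482869662056448) (nat_lit 309485009893402667057676288) (nat_lit 2) (nat_lit 0)) .nil)),
 (.br (nat_lit 5) (nat_lit 1) (.cons (.kr (nat_lit 618970019714747731487490304) (nat_lit 20361637766165934762640306929664) (nat_lit 1) (nat_lit 0)) .nil)),
 (.br (nat_lit 7) (nat_lit 1) (.cons (.ev (nat_lit 20283028578412199243059925352706) (nat_lit 2)) (.cons (.br (nat_lit 12) (nat_lit 1) (.cons (.zr (nat_lit 618970019858862919563346688) (nat_lit 1213666633123051817926657) (nat_lit 5) (nat_lit 0)) .nil)) (.cons (.rf (nat_lit 183) (nat_lit 493858305440582043680)) .nil)))),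
 (.br (nat_lit 10) (nat_lit 1) (.cons (.br (nat_lit 9) (nat_lit 1) (.cons (.rf (nat_lit 181) (nat_lit 493858305440582043680)) (.cons (.br (nat_lit 11) (nat_lit 1) (.cons (.rf (nat_lit 181) (nat_lit 493786318043489606688)) (.cons (.br (nat_lit 8) (nat_lit 1) (.cons (.br (nat_lit 13) (nat_lit 1) (.cons (.br (nat_lit 7) (nat_lit 1) (.cons (.br (nat_lit 5) (nat_lit 1) (.cons (.ev (nat_lit 20679176649279539237207696278788) (nat_lit 3)) .nil)) (.cons (.rf (nat_lit 182) (nat_lit 493858305440582043680)) (.cons (.rf (nat_lit 182) (nat_lit 485787854908567980064)) .nil)))) (.cons (.rf (nat_lit 184) (nat_lit 493858305440582043680)) (.cons (.kr (nat_lit 1208925819614629191483392) (nat_lit 20282409603651670423951546253312) (nat_lit 3) (nat_lit 0)) (.cons (.rf (nat_lit 184) (nat_lit 493786318043489606688)) (.cons (.kr (nat_lit 1208925819614629174706176) (nat_lit 20282409603651670423947251286016) (nat_lit 10) (nat_lit 0)) .nil)))))) .nil)) .nil))) .nil))) .nil)),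
 (.br (nat_lit 10) (nat_lit 1) (.cons (.rf (nat_lit 185) (nat_lit 14242959524133701664)) (.cons (.br (nat_lit 10) (nat_lit 1) (.cons (.rf (nat_lit 185) (nat_lit 14242959524133701664)) .nil)) .nil))),
 (.br (nat_lit 8) (nat_lit 1) (.cons (.br (nat_lit 10) (nat_lit 1) (.cons (.br (nat_lit 13) (nat_lit 0) (.cons (.br (nat_lit 7) (nat_lit 1) (.cons (.br (nat_lit 2) (nat_lit 1) (.cons (.zr (nat_lit 9444732965739290624768) (nat_lit 310693954087985250897494017) (nat_lit 5) (nat_lit 0)) (.cons (.zr (nat_lit 9444732965739324179200) (nat_lit 310693954087985263765618689) (nat_lit 5) (nat_lit 0)) (.cons (.br (nat_lit 5) (nat_lit 1) (.cons (.ev (nat_lit 20679176649279540363090423252228) (nat_lit 3)) .nil)) .nil)))) (.cons (.br (nat_lit 1) (nat_lit 1) (.cons (.zr (nat_lit 9444732965739290624768) (nat_lit 310693954087985250897494017) (nat_lit 5) (nat_lit 0)) (.cons (.zr (nat_lit 9444732965743619145728) (nat_lit 310693954087985246585750017) (nat_lit 5) (nat_lit 6)) (.cons (.zr (nat_lit 37109660929532887808) (nat_lit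 310698658007724046833156097) (nat_lit 5) (nat_lit 0)) .nil)))) (.cons (.br (nat_lit 13) (nat_lit 1) (.cons (.zr (nat_lit 60847228810992121495721240167168) (nat_lit 314325435466286459430895617) (nat_lit 5) (nat_lit 0)) (.cons (.br (nat_lit 1) (nat_lit 1) (.cons (.ev (nat_lit 20679176649279540363090423252228) (nat_lit 3)) .nil)) (.cons (.ev (nat_lit 20521023755205304339294251384834) (nat_lit 2)) .nil)))) (.cons (.br (nat_lit 5) (nat_lit 1) (.cons (.br (nat_lit 2) (nat_lit 1) (.cons (.ev (nat_lit 20679176649279540363090423252228) (nat_lit 3)) .nil)) (.cons (.zr (nat_lit 2417870086258114160492544) (nat_lit 158765814760716503125474803713) (nat_lit 5) (nat_lit 3)) (.cons (.ev (nat_lit 20521023755205304339302874873858) (nat_lit 2)) .nil)))) (.cons (.kr (nat_lit 1208925819614629174706176) (nat_lit 20282409603651670423947251286016) (nat_lit 10) (nat_lit 0)) .nil)))))) .nil)) .nil)) (.cons (.br (nat_lit 10) (nat_lit 1) (.cons (.br (nat_lit 11) (nat_lit 1) (.cons (.br (nat_lit 13) (nat_lit 1) (.cons (.br (nat_lit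 2) (nat_lit 1) (.cons (.br (nat_lit 7) (nat_lit 1) (.cons (.ev (nat_lit 20679171813650047754968722900228) (nat_lit 3)) .nil)) (.cons (.kr (nat_lit 4722366482869662056448) (nat_lit 18518801672042446848) (nat_lit 2) (nat_lit 0)) (.cons (.br (nat_lit 7) (nat_lit 1) (.cons (.ev (nat_lit 20679171813650047754968722900228) (nat_lit 3)) .nil)) .nil)))) (.cons (.br (nat_lit 5) (nat_lit 1) (.cons (.rf (nat_lit 85) (nat_lit 161712197860565648448)) (.cons (.rf (nat_lit 86) (nat_lit 161712197860565648448)) (.cons (.ev (nat_lit 20521026187205380100301435109378) (nat_lit 2)) .nil)))) (.cons (.kr (nat_lit 18446744073709551616) (nat_lit 20282409603651670423947251286016) (nat_lit 8) (nat_lit 0)) (.cons (.br (nat_lit 2) (nat_lit 1) (.cons (.ev (nat_lit 40565129910739055849982096638210) (nat_lit 2)) (.cons (.br (nat_lit 12) (nat_lit 1) (.cons (.zr (nat_lit 237684487579902677017289555968) (nat_lit 310712825107172651524161537) (nat_lit 5) (nat_lit 0)) .nil)) (.cons (.br (nat_lit 5) (nat_lit 1) (.cons (.zr (nat_lit 237684487579902677017289555968)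 (nat_lit 310712825107172651524161537) (nat_lit 5) (nat_lit 0)) .nil)) .nil)))) (.cons (.kr (nat_lit 20282409603651670423947268063232) (nat_lit 18446744078004518912) (nat_lit 3) (nat_lit 0)) .nil)))))) .nil)) (.cons (.br (nat_lit 11) (nat_lit 1) (.cons (.br (nat_lit 13) (nat_lit 1) (.cons (.br (nat_lit 2) (nat_lit 1) (.cons (.br (nat_lit 7) (nat_lit 1) (.cons (.ev (nat_lit 20679171832465726710169578308868) (nat_lit 3)) .nil)) (.cons (.kr (nat_lit 4722366482869662056448) (nat_lit 18518801672042446848) (nat_lit 2) (nat_lit 0)) (.cons (.br (nat_lit 5) (nat_lit 1) (.cons (.ev (nat_lit 20679171832465726710169578308868) (nat_lit 3)) .nil)) .nil)))) (.cons (.br (nat_lit 1) (nat_lit 1) (.cons (.br (nat_lit 12) (nat_lit 1) (.cons (.zr (nat_lit 237684496987525981818490912768) (nat_lit 310694009428217484894273537) (nat_lit 5) (nat_lit 0)) .nil)) (.cons (.ev (nat_lit 40565129915443047646367724863746) (nat_lit 2)) (.cons (.br (nat_lit 5) (nat_lit 1) (.cons (.zr (nat_lit 237684496987525981818490912768) (nat_lit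 310694009428217484894273537) (nat_lit 5) (nat_lit 0)) .nil)) .nil)))) (.cons (.kr (nat_lit 4722366482869661990912) (nat_lit 20282409603651670423951546253312) (nat_lit 3) (nat_lit 0)) (.cons (.br (nat_lit 2) (nat_lit 1) (.cons (.ev (nat_lit 40565129901257429396103943487746) (nat_lit 2)) (.cons (.rf (nat_lit 86) (nat_lit 161712197861470569696)) (.cons (.rf (nat_lit 88) (nat_lit 384333011934070807584)) .nil)))) (.cons (.kr (nat_lit 4722366482869645213696) (nat_lit 20282409603651670423947251286016) (nat_lit 9) (nat_lit 0)) .nil)))))) .nil)) .nil))) .nil))),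
 (.br (nat_lit 1) (nat_lit 1) (.cons (.kr (nat_lit 20282409603651742481541289214208) (nat_lit 79228162514264338693055643648) (nat_lit 1) (nat_lit 0)) .nil)),
 (.br (nat_lit 7) (nat_lit 1) (.cons (.ev (nat_lit 40565129901257501453697981350146) (nat_lit 2)) (.cons (.rf (nat_lit 188) (nat_lit 493858305440582043680)) (.cons (.rf (nat_lit 82) (nat_lit 421190471456269633568)) .nil)))),
 (.br (nat_lit 10) (nat_lit 1) (.cons (.rf (nat_lit 187) (nat_lit 493858305440582043680)) (.cons (.br (nat_lit 11) (nat_lit 1) (.cons (.br (nat_lit 8) (nat_lit 1) (.cons (.br (nat_lit 13) (nat_lit 1) (.cons (.br (nat_lit 7) (nat_lit 1) (.cons (.kr (nat_lit 65536) (nat_lit 72057594037927936) (nat_lit 2) (nat_lit 0)) (.cons (.br (nat_lit 2) (nat_lit 1) (.cons (.ev (nat_lit 20679171832465726710169578308868) (nat_lit 3)) .nil)) (.cons (.br (nat_lit 5) (nat_lit 1) (.cons (.ev (nat_lit 20679171832465726710169578308868) (nat_lit 3)) .nil)) .nil)))) (.cons (.rf (nat_lit 189) (nat_lit 493858305440582043680)) (.cons (.kr (nat_lit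 4722366482869661990912) (nat_lit 20282409603651670423951546253312) (nat_lit 3) (nat_lit 0)) (.cons (.rf (nat_lit 189) (nat_lit 493858305268783356960)) (.cons (.kr (nat_lit 4722366482869645213696) (nat_lit 20282409603651670423947251286016) (nat_lit 9) (nat_lit 0)) .nil)))))) .nil)) (.cons (.br (nat_lit 8) (nat_lit 1) (.cons (.br (nat_lit 13) (nat_lit 1) (.cons (.br (nat_lit 2) (nat_lit 1) (.cons (.br (nat_lit 12) (nat_lit 1) (.cons (.ev (nat_lit 20679176649279539237207696278788) (nat_lit 3)) .nil)) (.cons (.kr (nat_lit 4722366482869645279232) (nat_lit 1208925891672223212634112) (nat_lit 2) (nat_lit 0)) (.cons (.br (nat_lit 5) (nat_lit 1) (.cons (.ev (nat_lit 20679176649279539237207696278788) (nat_lit 3)) .nil)) .nil)))) (.cons (.br (nat_lit 5) (nat_lit 1) (.cons (.rf (nat_lit 39) (nat_lit 491587433495923886240)) (.cons (.rf (nat_lit 0) (nat_lit 384360039024026715360)) (.cons (.ev (nat_lit 20521024978298007229750248144898) (nat_lit 2)) .nil)))) (.cons (.kr (nat_lit 1208925819614629191483392) (nat_lit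 20282409603651670423951546253312) (nat_lit 3) (nat_lit 0)) (.cons (.br (nat_lit 1) (nat_lit 1) (.cons (.ev (nat_lit 40565132328553801591101583327490) (nat_lit 2)) (.cons (.br (nat_lit 2) (nat_lit 1) (.cons (.zr (nat_lit 237686905394648418119629930496) (nat_lit 309503917734302100303642625) (nat_lit 5) (nat_lit 0)) .nil)) (.cons (.br (nat_lit 5) (nat_lit 1) (.cons (.zr (nat_lit 237686905394648418119629930496) (nat_lit 309503917734302100303642625) (nat_lit 5) (nat_lit 0)) .nil)) .nil)))) (.cons (.kr (nat_lit 1208925819614629174706176) (nat_lit 20282409603651670423947251286016) (nat_lit 10) (nat_lit 0)) .nil)))))) .nil)) .nil))) .nil))),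
 (.br (nat_lit 9) (nat_lit 1) (.cons (.rf (nat_lit 186) (nat_lit 14242959524133701664)) (.cons (.br (nat_lit 10) (nat_lit 1) (.cons (.rf (nat_lit 187) (nat_lit 493858305440582043680)) (.cons (.rf (nat_lit 190) (nat_lit 493858305440582043680)) (.cons (.br (nat_lit 10) (nat_lit 1) (.cons (.rf (nat_lit 187) (nat_lit 493858305440582043680)) (.cons (.rf (nat_lit 190) (nat_lit 493858305440582043680)) .nil))) .nil)))) .nil))),
 (.br (nat_lit 9) (nat_lit 1) (.cons (.rf (nat_lit 186) (nat_lit 14242959524133701664)) (.cons (.rf (nat_lit 191) (nat_lit 14242959524133701664)) (.cons (.br (nat_lit 9) (nat_lit 1) (.cons (.rf (nat_lit 186) (nat_lit 14242959524133701664)) (.cons (.rf (nat_lit 191) (nat_lit 14242959524133701664)) .nil))) .nil)))),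
 (.br (nat_lit 7) (nat_lit 1) (.cons (.ev (nat_lit 40565129905961421192489638822146) (nat_lit 2)) (.cons (.rf (nat_lit 188) (nat_lit 493823402543469922336)) (.cons (.rf (nat_lit 82) (nat_lit 384333012105869494304)) .nil)))),
 (.br (nat_lit 7) (nat_lit 0) (.cons (.br (nat_lit 13) (nat_lit 1) (.cons (.br (nat_lit 2) (nat_lit 1) (.cons (.zr (nat_lit 36893488156009235200) (nat_lit 310698658007724042588520449) (nat_lit 5) (nat_lit 0)) (.cons (.zr (nat_lit 2417888532717414358647552) (nat_lit 60847538300687200225680047472641) (nat_lit 5) (nat_lit 0)) (.cons (.zr (nat_lit 36893488147419300608) (nat_lit 310698658007724046833156097) (nat_lit 5) (nat_lit 0)) .nil)))) (.cons (.kr (nat_lit 1208925819614629174706176) (nat_lit 20282409603651670423947251286016) (nat_lit 10) (nat_lit 0)) (.cons (.br (nat_lit 2) (nat_lit 1) (.cons (.rf (nat_lit 3) (nat_lit 421253526071934190816)) (.cons (.rf (nat_lit 1) (nat_lit 420143382135643048096)) (.cons (.ev (nat_lit 40644360486345698883962172145666) (nat_lit 2)) .nil)))) (.cons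 (.br (nat_lit 1) (nat_lit 1) (.cons (.br (nat_lit 5) (nat_lit 1) (.cons (.ev (nat_lit 20837628138641396402698269557508) (nat_lit 3)) .nil)) (.cons (.br (nat_lit 2) (nat_lit 1) (.cons (.ev (nat_lit 318770797468454956103677182468) (nat_lit 3)) .nil)) (.cons (.br (nat_lit 2) (nat_lit 1) (.cons (.ev (nat_lit 318770797468454956107955372548) (nat_lit 3)) .nil)) .nil)))) (.cons (.br (nat_lit 7) (nat_lit 1) (.cons (.ev (nat_lit 20283339281829610208874100425474) (nat_lit 2)) (.cons (.rf (nat_lit 13) (nat_lit 383251019888130787488)) (.cons (.rf (nat_lit 12) (nat_lit 383251019888130787488)) .nil)))) .nil)))))) .nil)),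
 (.br (nat_lit 9) (nat_lit 1) (.cons (.rf (nat_lit 192) (nat_lit 14170972298839951392)) (.cons (.rf (nat_lit 192) (nat_lit 14170972127041264672)) (.cons (.br (nat_lit 11) (nat_lit 1) (.cons (.rf (nat_lit 192) (nat_lit 14242959524133701664)) (.cons (.rf (nat_lit 192) (nat_lit 14242959352335014944)) (.cons (.br (nat_lit 13) (nat_lit 0) (.cons (.br (nat_lit 2) (nat_lit 0) (.cons (.br (nat_lit 7) (nat_lit 0) (.cons (.br (nat_lit 13) (nat_lit 1) (.cons (.br (nat_lit 7) (nat_lit 1) (.cons (.kr (nat_lit 65536) (nat_lit 72057594037927936) (nat_lit 2) (nat_lit 0)) (.cons (.br (nat_lit 2) (nat_lit 1) (.cons (.ev (nat_lit 20679171813650047754968722900228) (nat_lit 3)) .nil)) (.cons (.br (nat_lit 2) (nat_lit 1) (.cons (.ev (nat_lit 20679171813650047754968722900228) (nat_lit 3)) .nil)) .nil)))) (.cons (.rf (nat_lit 193) (nat_lit 493858305440582043680)) (.cons (.kr (nat_lit 18446744073709551616) (nat_lit 20282409603651670423947251286016) (nat_lit 8) (nat_lit 0)) (.cons (.rf (nat_lit 193) (nat_lit 493858305268783356960))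 (.cons (.kr (nat_lit 20282409603651670423947268063232) (nat_lit 18446744078004518912) (nat_lit 3) (nat_lit 0)) .nil)))))) .nil)) .nil)) (.cons (.br (nat_lit 10) (nat_lit 1) (.cons (.rf (nat_lit 194) (nat_lit 493858305440582043680)) (.cons (.rf (nat_lit 194) (nat_lit 493858305268783356960)) .nil))) .nil))) .nil)))) .nil)))),
 (.br (nat_lit 11) (nat_lit 1) (.cons (.rf (nat_lit 192) (nat_lit 14242959524133701664)) (.cons (.rf (nat_lit 192) (nat_lit 14242959352335014944)) (.cons (.br (nat_lit 9) (nat_lit 1) (.cons (.rf (nat_lit 192) (nat_lit 14170972298839951392)) (.cons (.rf (nat_lit 192) (nat_lit 14170972127041264672)) (.cons (.rf (nat_lit 195) (nat_lit 493786318215288293408)) (.cons (.rf (nat_lit 195) (nat_lit 493858305440582043680)) .nil))))) .nil)))),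
 (.br (nat_lit 7) (nat_lit 1) (.cons (.ev (nat_lit 4722438821938659918081) (nat_lit 1)) .nil)),
 (.br (nat_lit 1) (nat_lit 1) (.cons (.ev (nat_lit 4722438821938659918081) (nat_lit 1)) .nil)),
 (.br (nat_lit 2) (nat_lit 1) (.cons (.ev (nat_lit 4722438821938659918081) (nat_lit 1)) .nil)),
 (.br (nat_lit 7) (nat_lit 1) (.cons (.kr (nat_lit 36893488147419169024) (nat_lit 20361637766166006820234344792064) (nat_lit 1) (nat_lit 0)) .nil)),
 (.br (nat_lit 9) (nat_lit 1) (.cons (.br (nat_lit 10) (nat_lit 1) (.cons (.br (nat_lit 5) (nat_lit 1) (.cons (.br (nat_lit 2) (nat_lit 1) (.cons (.zr (nat_lit 36893488156026011648) (nat_lit 310698658007724042521412097) (nat_lit 5) (nat_lit 6)) (.cons (.ev (nat_lit 79537647524085965236773912833) (nat_lit 1)) (.cons (.rf (nat_lit 197) (nat_lit 15433072009550071840)) .nil)))) (.cons (.br (nat_lit 7) (nat_lit 1) (.cons (.zr (nat_lit 36893488156009235200) (nat_lit 310698658007724042588520449) (nat_lit 5) (nat_lit 0)) (.cons (.rf (nat_lit 198) (nat_lit 15433072009550071840))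 (.cons (.ev (nat_lit 309489732260167007401410561) (nat_lit 1)) .nil)))) (.cons (.br (nat_lit 12) (nat_lit 1) (.cons (.rf (nat_lit 199) (nat_lit 15433072009550071840)) (.cons (.rf (nat_lit 197) (nat_lit 14308150466200242400)) (.cons (.ev (nat_lit 20521026177723969819205395546114) (nat_lit 2)) .nil)))) (.cons (.ev (nat_lit 79229376162450436191892275201) (nat_lit 1)) (.cons (.br (nat_lit 12) (nat_lit 1) (.cons (.rf (nat_lit 200) (nat_lit 493858305440582043680)) (.cons (.br (nat_lit 7) (nat_lit 1) (.cons (.zr (nat_lit 36893488147419300608) (nat_lit 310698658007724046833156097) (nat_lit 5) (nat_lit 0)) .nil)) (.cons (.ev (nat_lit 20521026177723969819196839165954) (nat_lit 2)) .nil)))) .nil)))))) .nil)) .nil)),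
 (.br (nat_lit 8) (nat_lit 1) (.cons (.rf (nat_lit 161) (nat_lit 14208052228845045920)) (.cons (.br (nat_lit 9) (nat_lit 1) (.cons (.rf (nat_lit 201) (nat_lit 493858305440582043680)) (.cons (.br (nat_lit 9) (nat_lit 1) (.cons (.rf (nat_lit 201) (nat_lit 493858305440582043680)) .nil)) .nil))) .nil))),
 (.br (nat_lit 7) (nat_lit 1) (.cons (.kr (nat_lit 20282409603651670423947251351808) (nat_lit 79228162514336396287093506048) (nat_lit 1) (nat_lit 0)) .nil)),
 (.br (nat_lit 13) (nat_lit 0) (.cons (.br (nat_lit 10) (nat_lit 1) (.cons (.br (nat_lit 12) (nat_lit 0) (.cons (.br (nat_lit 12) (nat_lit 1) (.cons (.br (nat_lit 5) (nat_lit 1) (.cons (.rf (nat_lit 86) (nat_lit 421046360494441602080)) (.cons (.ev (nat_lit 4740885566012386181121) (nat_lit 1)) (.cons (.kr (nat_lit 18446744073709551616) (nat_lit 20282409603651670423947251286016) (nat_lit 8) (nat_lit 0)) .nil)))) (.cons (.br (nat_lit 5) (nat_lit 1) (.cons (.rf (nat_lit 85) (nat_lit 310293830730495890496)) (.cons (.ev (nat_lit 4740885566012386181121)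 (nat_lit 1)) (.cons (.kr (nat_lit 18446744073709551616) (nat_lit 20282409603651670423947251286016) (nat_lit 8) (nat_lit 0)) .nil)))) (.cons (.br (nat_lit 1) (nat_lit 1) (.cons (.ev (nat_lit 310698694901775139894001922) (nat_lit 2)) (.cons (.br (nat_lit 13) (nat_lit 1) (.cons (.ev (nat_lit 79228167236630821567012602113) (nat_lit 1)) .nil)) (.cons (.br (nat_lit 7) (nat_lit 1) (.cons (.ev (nat_lit 79228167236630821567012602113) (nat_lit 1)) .nil)) .nil)))) (.cons (.ev (nat_lit 4740885566016664371201) (nat_lit 1)) (.cons (.kr (nat_lit 20282409603651670423947268063232) (nat_lit 18446744078004518912) (nat_lit 3) (nat_lit 0)) .nil)))))) .nil)) (.cons (.br (nat_lit 7) (nat_lit 0) (.cons (.br (nat_lit 12) (nat_lit 1) (.cons (.br (nat_lit 5) (nat_lit 1) (.cons (.rf (nat_lit 203) (nat_lit 493858305440582043680)) (.cons (.ev (nat_lit 309489732260167011679600641) (nat_lit 1)) (.cons (.kr (nat_lit 18446744073709551616) (nat_lit 20282409603651670423947251286016) (nat_lit 8) (nat_lit 0)) .nil)))) (.cons (.br (nat_lit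 7) (nat_lit 1) (.cons (.zr (nat_lit 36893488147419300608) (nat_lit 310698658007724046833156097) (nat_lit 5) (nat_lit 0)) (.cons (.ev (nat_lit 309489732260167011679600641) (nat_lit 1)) (.cons (.br (nat_lit 1) (nat_lit 1) (.cons (.zr (nat_lit 237684487543009188861280518144) (nat_lit 310698676454468120542707713) (nat_lit 5) (nat_lit 0)) .nil)) .nil)))) (.cons (.br (nat_lit 7) (nat_lit 1) (.cons (.rf (nat_lit 68) (nat_lit 14930691757249568)) (.cons (.rf (nat_lit 68) (nat_lit 14930691757216832)) (.cons (.ev (nat_lit 20521026187205596273083548696578) (nat_lit 2)) .nil)))) (.cons (.ev (nat_lit 309489732260167007401410561) (nat_lit 1)) (.cons (.kr (nat_lit 20282409603651670423947268063232) (nat_lit 18446744078004518912) (nat_lit 3) (nat_lit 0)) .nil)))))) .nil)) .nil))) (.cons (.br (nat_lit 7) (nat_lit 0) (.cons (.br (nat_lit 9) (nat_lit 1) (.cons (.rf (nat_lit 202) (nat_lit 14170972298839951392)) .nil)) .nil)) .nil)))]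

theorem c5 : chkAll C T R L5 (nat_lit 182) = true := by decide +kernel

theorem l5 : (nat_lit 182) + L5.length = (nat_lit 205) := by decide +kernel

/-- part of the certificates -/
def L6 : List Prf := [(.br (nat_lit 11) (nat_lit 1) (.cons (.ev (nat_lit 4722438821938659918081) (nat_lit 1)) .nil)),
 (.br (nat_lit 1) (nat_lit 1) (.cons (.ev (nat_lit 79538856449905579865931776001) (nat_lit 1)) .nil)),
 (.br (nat_lit 5) (nat_lit 1) (.cons (.ev (nat_lit 79538856449905579865931776001) (nat_lit 1)) .nil)),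
 (.br (nat_lit 13) (nat_lit 0) (.cons (.rf (nat_lit 204) (nat_lit 493858305440582043680)) (.cons (.br (nat_lit 12) (nat_lit 0) (.cons (.br (nat_lit 9) (nat_lit 1) (.cons (.br (nat_lit 7) (nat_lit 1) (.cons (.br (nat_lit 12) (nat_lit 1) (.cons (.rf (nat_lit 68) (nat_lit 15001058354038816)) (.cons (.zr (nat_lit 237686905394648418119629930496) (nat_lit 309489805975085712496656385) (nat_lit 5) (nat_lit 0)) (.cons (.ev (nat_lit 20282720302309749924113145659393) (nat_lit 1)) .nil)))) (.cons (.br (nat_lit 13) (nat_lit 1) (.cons (.zr (nat_lit 36893488147419300608) (nat_lit 310698658007724046833156097) (nat_lit 5) (nat_lit 0)) (.cons (.ev (nat_lit 20282720302309750205588105592833) (nat_lit 1)) (.cons (.ev (nat_lit 20282720302309750205583827402753) (nat_lit 1)) .nil)))) (.cons (.ev (nat_lit 309489732260167011679600641) (nat_lit 1)) (.cons (.ev (nat_lit 309489732260167007401410561) (nat_lit 1)) (.cons (.br (nat_lit 5) (nat_lit 1) (.cons (.rf (nat_lit 199) (nat_lit 14308150466200242400)) (.cons (.rf (nat_lit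 205) (nat_lit 15433072009550071840)) (.cons (.ev (nat_lit 20361638975091754377269498347521) (nat_lit 1)) .nil)))) .nil)))))) .nil)) (.cons (.br (nat_lit 8) (nat_lit 1) (.cons (.br (nat_lit 13) (nat_lit 1) (.cons (.kr (nat_lit 1208925819614633469673472) (nat_lit 20282409603651670705422227996672) (nat_lit 4) (nat_lit 0)) (.cons (.kr (nat_lit 1208925819614629174706176) (nat_lit 20282409603651670423947251286016) (nat_lit 10) (nat_lit 0)) (.cons (.br (nat_lit 7) (nat_lit 1) (.cons (.ev (nat_lit 1213648258155097169592321) (nat_lit 1)) (.cons (.ev (nat_lit 1213648258436567851335681) (nat_lit 1)) (.cons (.ev (nat_lit 20282409608374109245890206105601) (nat_lit 1)) .nil)))) (.cons (.br (nat_lit 2) (nat_lit 1) (.cons (.ev (nat_lit 20282720297587383441239205544193) (nat_lit 1)) (.cons (.rf (nat_lit 206) (nat_lit 493858305440582043680)) (.cons (.rf (nat_lit 207) (nat_lit 493858305440582043680)) .nil)))) (.cons (.br (nat_lit 7) (nat_lit 1) (.cons (.ev (nat_lit 1213648258155097169592321) (nat_lit 1)) (.cons (.ev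 (nat_lit 1213648258436567851335681) (nat_lit 1)) (.cons (.ev (nat_lit 20282409608374109245890206105601) (nat_lit 1)) .nil)))) .nil)))))) .nil)) .nil))) .nil))),
 (.br (nat_lit 11) (nat_lit 1) (.cons (.rf (nat_lit 202) (nat_lit 14242959524133701664)) (.cons (.br (nat_lit 13) (nat_lit 0) (.cons (.rf (nat_lit 204) (nat_lit 493858305440582043680)) (.cons (.rf (nat_lit 208) (nat_lit 493858305440582043680)) (.cons (.br (nat_lit 13) (nat_lit 0) (.cons (.rf (nat_lit 204) (nat_lit 493858305440582043680)) (.cons (.rf (nat_lit 208) (nat_lit 493858305440582043680)) .nil))) .nil)))) .nil))),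
 (.br (nat_lit 9) (nat_lit 1) (.cons (.rf (nat_lit 209) (nat_lit 14170972298839951392)) (.cons (.br (nat_lit 9) (nat_lit 1) (.cons (.rf (nat_lit 209) (nat_lit 14170972298839951392)) .nil)) .nil))),
 (.br (nat_lit 11) (nat_lit 1) (.cons (.rf (nat_lit 209) (nat_lit 14242959524133701664)) (.cons (.rf (nat_lit 210) (nat_lit 14242959524133701664)) (.cons (.br (nat_lit 11) (nat_lit 1) (.cons (.rf (nat_lit 209) (nat_lit 14242959524133701664)) (.cons (.rf (nat_lit 210) (nat_lit 14242959524133701664)) .nil))) .nil)))),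
 (.br (nat_lit 1) (nat_lit 1) (.cons (.kr (nat_lit 618970019642690137449627904) (nat_lit 20361637766166006820234344792064) (nat_lit 1) (nat_lit 0)) .nil)),
 (.br (nat_lit 11) (nat_lit 1) (.cons (.br (nat_lit 13) (nat_lit 1) (.cons (.br (nat_lit 7) (nat_lit 1) (.cons (.ev (nat_lit 4740885566016664371201) (nat_lit 1)) (.cons (.ev (nat_lit 20282409608374108964410934427649) (nat_lit 1)) (.cons (.ev (nat_lit 20282409608374108964415246172161) (nat_lit 1)) .nil)))) (.cons (.br (nat_lit 7) (nat_lit 1) (.cons (.ev (nat_lit 4740885284537392693249) (nat_lit 1)) (.cons (.ev (nat_lit 20282409608374109245890206105601) (nat_lit 1)) (.cons (.ev (nat_lit 20282409608374109245885927915521) (nat_lit 1)) .nil)))) (.cons (.kr (nat_lit 18446744073709551616) (nat_lit 20282409603651670423947251286016) (nat_lit 8) (nat_lit 0)) (.cons (.br (nat_lit 5) (nat_lit 1) (.cons (.br (nat_lit 2) (nat_lit 1) (.cons (.zr (nat_lit 618970019642690137449759488) (nat_lit 1213666633123051817926657) (nat_lit 5) (nat_lit 0)) .nil)) (.cons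 (.rf (nat_lit 212) (nat_lit 493858305440582043680)) (.cons (.ev (nat_lit 79229376199416263408342794242) (nat_lit 2)) .nil)))) (.cons (.kr (nat_lit 20282409603651670423947268063232) (nat_lit 18446744078004518912) (nat_lit 3) (nat_lit 0)) .nil)))))) .nil)),
 (.br (nat_lit 13) (nat_lit 0) (.cons (.br (nat_lit 2) (nat_lit 0) (.cons (.rf (nat_lit 213) (nat_lit 493858305440582043680)) (.cons (.rf (nat_lit 213) (nat_lit 493786318215288293408)) .nil))) .nil)),
 (.br (nat_lit 5) (nat_lit 1) (.cons (.kr (nat_lit 20282409603651670423947251351808) (nat_lit 79228162514336396287093506048) (nat_lit 1) (nat_lit 0)) .nil)),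
 (.br (nat_lit 12) (nat_lit 1) (.cons (.kr (nat_lit 20282409603651670423947251351808) (nat_lit 79228162514336396287093506048) (nat_lit 1) (nat_lit 0)) .nil)),
 (.br (nat_lit 13) (nat_lit 1) (.cons (.kr (nat_lit 20282409603651670423947251351808) (nat_lit 79228162514336396287093506048) (nat_lit 1) (nat_lit 0)) .nil)),
 (.br (nat_lit 2) (nat_lit 0) (.cons (.br (nat_lit 12) (nat_lit 0) (.cons (.br (nat_lit 7) (nat_lit 0) (.cons (.br (nat_lit 1) (nat_lit 1) (.cons (.br (nat_lit 12) (nat_lit 1) (.cons (.ev (nat_lit 79229376162450436191892275201) (nat_lit 1)) (.cons (.br (nat_lit 13) (nat_lit 1) (.cons (.ev (nat_lit 79228162532711364241758683393) (nat_lit 1)) .nil)) (.cons (.br (nat_lit 5) (nat_lit 1) (.cons (.ev (nat_lit 79228162532711364241758683393) (nat_lit 1)) .nil)) .nil)))) (.cons (.br (nat_lit 2) (nat_lit 1) (.cons (.ev (nat_lit 4740885566016664371201) (nat_lit 1)) (.cons (.ev (nat_lit 79229376162450717666852208641) (nat_lit 1)) (.cons (.zr (nat_lit 618970019642690137449759488) (nat_lit 1213666633123051817926657)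 (nat_lit 5) (nat_lit 0)) .nil)))) (.cons (.ev (nat_lit 4740885284537392693249) (nat_lit 1)) (.cons (.br (nat_lit 2) (nat_lit 1) (.cons (.ev (nat_lit 79229376162450717666852208641) (nat_lit 1)) (.cons (.ev (nat_lit 4740885566016664371201) (nat_lit 1)) (.cons (.zr (nat_lit 618970019642690141778280448) (nat_lit 1213666633123047506182657) (nat_lit 5) (nat_lit 6)) .nil)))) (.cons (.kr (nat_lit 4722366482873940180992) (nat_lit 20282409603651670705422227996672) (nat_lit 4) (nat_lit 0)) .nil)))))) .nil)) .nil)) (.cons (.br (nat_lit 11) (nat_lit 1) (.cons (.br (nat_lit 9) (nat_lit 1) (.cons (.br (nat_lit 13) (nat_lit 1) (.cons (.br (nat_lit 7) (nat_lit 1) (.cons (.ev (nat_lit 20282409603670189225614998765569) (nat_lit 1)) (.cons (.ev (nat_lit 4740885566012386181121) (nat_lit 1)) (.cons (.ev (nat_lit 4740885566016664371201) (nat_lit 1)) .nil)))) (.cons (.br (nat_lit 7) (nat_lit 1) (.cons (.ev (nat_lit 20282409603670189225614998765569) (nat_lit 1)) (.cons (.ev (nat_lit 4740885566012386181121) (nat_lit 1))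 (.cons (.ev (nat_lit 4740885566016664371201) (nat_lit 1)) .nil)))) (.cons (.kr (nat_lit 4722366482869661990912) (nat_lit 20282409603651670423951546253312) (nat_lit 3) (nat_lit 0)) (.cons (.br (nat_lit 2) (nat_lit 1) (.cons (.ev (nat_lit 310703398821513948731343106) (nat_lit 2)) (.cons (.rf (nat_lit 86) (nat_lit 161712197856102024416)) (.cons (.rf (nat_lit 88) (nat_lit 384152873446534126624)) .nil)))) (.cons (.kr (nat_lit 4722366482869645213696) (nat_lit 20282409603651670423947251286016) (nat_lit 9) (nat_lit 0)) .nil)))))) .nil)) (.cons (.br (nat_lit 9) (nat_lit 1) (.cons (.br (nat_lit 7) (nat_lit 1) (.cons (.br (nat_lit 13) (nat_lit 1) (.cons (.ev (nat_lit 1208925891672223229477121) (nat_lit 1)) (.cons (.rf (nat_lit 203) (nat_lit 458117628677899525280)) (.cons (.rf (nat_lit 215) (nat_lit 493858305440582043680)) .nil)))) (.cons (.br (nat_lit 1) (nat_lit 1) (.cons (.rf (nat_lit 216) (nat_lit 493858305440582043680)) (.cons (.rf (nat_lit 217) (nat_lit 493858305440582043680)) (.cons (.ev (nat_lit 1208925891953702501155073)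 (nat_lit 1)) .nil)))) (.cons (.br (nat_lit 12) (nat_lit 1) (.cons (.ev (nat_lit 79229376162450717666852208641) (nat_lit 1)) (.cons (.ev (nat_lit 79229376162450436196170465281) (nat_lit 1)) (.cons (.ev (nat_lit 40644358077938864678050052702210) (nat_lit 2)) .nil)))) (.cons (.br (nat_lit 5) (nat_lit 1) (.cons (.ev (nat_lit 79229376162450717666852208641) (nat_lit 1)) (.cons (.ev (nat_lit 79229376162450436196170465281) (nat_lit 1)) (.cons (.ev (nat_lit 40644358077938864678037151023106) (nat_lit 2)) .nil)))) (.cons (.kr (nat_lit 4722366482869645213696) (nat_lit 20282409603651670423947251286016) (nat_lit 9) (nat_lit 0)) .nil)))))) .nil)) .nil))) .nil))),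
 (.br (nat_lit 13) (nat_lit 0) (.cons (.rf (nat_lit 218) (nat_lit 493858305440582043680)) (.cons (.rf (nat_lit 218) (nat_lit 493786318215288293408)) .nil))),
 (.br (nat_lit 2) (nat_lit 1) (.cons (.ev (nat_lit 4722366483973451808769) (nat_lit 1)) .nil)),
 (.br (nat_lit 13) (nat_lit 1) (.cons (.ev (nat_lit 20361637770888301526984928788481) (nat_lit 1)) .nil)),
 (.br (nat_lit 7) (nat_lit 1) (.cons (.kr (nat_lit 618970019642690137449627904) (nat_lit 20361637766166006820234344792064) (nat_lit 1) (nat_lit 0)) .nil)),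
 (.br (nat_lit 1) (nat_lit 1) (.cons (.kr (nat_lit 618970019642690137449627904) (nat_lit 20361637766166006820234344792064) (nat_lit 1) (nat_lit 0)) .nil)),
 (.br (nat_lit 11) (nat_lit 1) (.cons (.br (nat_lit 8) (nat_lit 1) (.cons (.br (nat_lit 13) (nat_lit 1) (.cons (.br (nat_lit 12) (nat_lit 1) (.cons (.rf (nat_lit 220) (nat_lit 15067782681041952)) (.cons (.ev (nat_lit 20361638975091754658748770025473) (nat_lit 1)) (.cons (.rf (nat_lit 220) (nat_lit 15067954479728672)) .nil)))) (.cons (.br (nat_lit 12) (nat_lit 1) (.cons (.rf (nat_lit 220) (nat_lit 15067746175917120)) (.cons (.ev (nat_lit 20361638975091754377269498347521) (nat_lit 1)) (.cons (.rf (nat_lit 220) (nat_lit 15067952334341184)) .nil)))) (.cons (.br (nat_lit 1) (nat_lit 1) (.cons (.ev (nat_lit 20283028578412127185452985811202) (nat_lit 2)) (.cons (.br (nat_lit 2) (nat_lit 1) (.cons (.zr (nat_lit 237686905394648418119629930496) (nat_lit 1237944780098888697542344705) (nat_lit 5) (nat_lit 0)) .nil)) (.cons (.br (nat_lit 7) (nat_lit 1) (.cons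 (.zr (nat_lit 237686905394648418119629930496) (nat_lit 1237944780098888697542344705) (nat_lit 5) (nat_lit 0)) .nil)) .nil)))) (.cons (.kr (nat_lit 1208925819614629174706176) (nat_lit 20282409603651670423947251286016) (nat_lit 10) (nat_lit 0)) (.cons (.br (nat_lit 7) (nat_lit 1) (.cons (.br (nat_lit 5) (nat_lit 1) (.cons (.zr (nat_lit 237686905394648418119629930496) (nat_lit 1237944780098888697542344705) (nat_lit 5) (nat_lit 0)) .nil)) (.cons (.br (nat_lit 1) (nat_lit 1) (.cons (.zr (nat_lit 237686905394648418119629930496) (nat_lit 1237944780098888697542344705) (nat_lit 5) (nat_lit 0)) .nil)) (.cons (.ev (nat_lit 40644047374558490752612862787586) (nat_lit 2)) .nil)))) .nil)))))) .nil)) (.cons (.br (nat_lit 7) (nat_lit 0) (.cons (.br (nat_lit 12) (nat_lit 1) (.cons (.br (nat_lit 7) (nat_lit 1) (.cons (.zr (nat_lit 618970019642690141778280448) (nat_lit 1213666633123047506182657) (nat_lit 5) (nat_lit 6)) (.cons (.rf (nat_lit 199) (nat_lit 15431909825759512608)) (.cons (.ev (nat_lit 1208944338697776193863681)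 (nat_lit 1)) .nil)))) (.cons (.br (nat_lit 7) (nat_lit 1) (.cons (.zr (nat_lit 618970019642690137483313920) (nat_lit 1213666633123064686051329) (nat_lit 5) (nat_lit 0)) (.cons (.rf (nat_lit 197) (nat_lit 14308150465125419232)) (.cons (.ev (nat_lit 1208944338697776193863681) (nat_lit 1)) .nil)))) (.cons (.ev (nat_lit 79229376162450436191892275201) (nat_lit 1)) (.cons (.br (nat_lit 5) (nat_lit 1) (.cons (.rf (nat_lit 221) (nat_lit 493858305440582043680)) (.cons (.rf (nat_lit 198) (nat_lit 15431909825759512608)) (.cons (.ev (nat_lit 20520095314342939752705636171778) (nat_lit 2)) .nil)))) (.cons (.br (nat_lit 5) (nat_lit 1) (.cons (.rf (nat_lit 222) (nat_lit 493858305440582043680)) (.cons (.rf (nat_lit 223) (nat_lit 493858305440582043680)) (.cons (.ev (nat_lit 20520095314342939752697012682754) (nat_lit 2)) .nil)))) .nil)))))) .nil)) .nil))),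
 (.br (nat_lit 11) (nat_lit 1) (.cons (.rf (nat_lit 224) (nat_lit 493786318215288293408)) (.cons (.br (nat_lit 8) (nat_lit 1) (.cons (.br (nat_lit 7) (nat_lit 1) (.cons (.br (nat_lit 2) (nat_lit 1) (.cons (.rf (nat_lit 35) (nat_lit 486977967219674291360)) (.cons (.rf (nat_lit 36) (nat_lit 486977967219674291360)) (.cons (.ev (nat_lit 4722438540463699984641) (nat_lit 1)) .nil)))) (.cons (.br (nat_lit 1) (nat_lit 1) (.cons (.rf (nat_lit 35) (nat_lit 484672124178276818080)) (.cons (.rf (nat_lit 36) (nat_lit 484672124178276818080)) (.cons (.ev (nat_lit 4722438821942971662593) (nat_lit 1)) .nil)))) (.cons (.br (nat_lit 12) (nat_lit 1) (.cons (.ev (nat_lit 79229376162450717666852208641) (nat_lit 1)) (.cons (.ev (nat_lit 79229376162450436196170465281) (nat_lit 1)) (.cons (.ev (nat_lit 40644360486345770941569111687170) (nat_lit 2)) .nil)))) (.cons (.br (nat_lit 5) (nat_lit 1) (.cons (.ev (nat_lit 79229376162450717666852208641) (nat_lit 1)) (.cons (.ev (nat_lit 79229376162450436196170465281) (nat_lit 1))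 (.cons (.ev (nat_lit 40644360486345770941556210008066) (nat_lit 2)) .nil)))) (.cons (.kr (nat_lit 1208925819614629174706176) (nat_lit 20282409603651670423947251286016) (nat_lit 10) (nat_lit 0)) .nil)))))) .nil)) .nil))),
 (.br (nat_lit 13) (nat_lit 0) (.cons (.rf (nat_lit 219) (nat_lit 493858305440582043680)) (.cons (.br (nat_lit 9) (nat_lit 1) (.cons (.rf (nat_lit 224) (nat_lit 493858305440582043680)) (.cons (.rf (nat_lit 225) (nat_lit 493858305440582043680)) (.cons (.br (nat_lit 11) (nat_lit 1) (.cons (.rf (nat_lit 224) (nat_lit 493786318215288293408)) (.cons (.rf (nat_lit 225) (nat_lit 493786318215288293408)) .nil))) .nil)))) .nil))),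
 (.br (nat_lit 10) (nat_lit 1) (.cons (.rf (nat_lit 211) (nat_lit 14242959524133701664)) (.cons (.br (nat_lit 8) (nat_lit 1) (.cons (.br (nat_lit 7) (nat_lit 0) (.cons (.rf (nat_lit 161) (nat_lit 14166464133532327072)) (.cons (.rf (nat_lit 161) (nat_lit 14238451358826077344)) .nil))) (.cons (.rf (nat_lit 162) (nat_lit 14236206117623695520)) (.cons (.br (nat_lit 13) (nat_lit 0) (.cons (.rf (nat_lit 214) (nat_lit 493858305440582043680)) (.cons (.rf (nat_lit 214) (nat_lit 493786318215288293408)) .nil))) .nil)))) (.cons (.br (nat_lit 13) (nat_lit 0) (.cons (.rf (nat_lit 219) (nat_lit 493858305440582043680)) (.cons (.rf (nat_lit 226) (nat_lit 493858305440582043680)) (.cons (.rf (nat_lit 226) (nat_lit 493786318215288293408)) .nil)))) .nil)))),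
 (.br (nat_lit 13) (nat_lit 0) (.cons (.br (nat_lit 13) (nat_lit 1) (.cons (.br (nat_lit 12) (nat_lit 1) (.cons (.br (nat_lit 5) (nat_lit 1) (.cons (.ev (nat_lit 79229371458530697395956613121) (nat_lit 1)) .nil)) (.cons (.ev (nat_lit 20361638979832567885687813046273) (nat_lit 1)) (.cons (.br (nat_lit 5) (nat_lit 1) (.cons (.ev (nat_lit 79229371458530697395956613121) (nat_lit 1)) .nil)) .nil)))) (.cons (.br (nat_lit 5) (nat_lit 1) (.cons (.br (nat_lit 7) (nat_lit 1) (.cons (.ev (nat_lit 79229371458530978875228291073) (nat_lit 1)) .nil)) (.cons (.br (nat_lit 12) (nat_lit 1) (.cons (.ev (nat_lit 79229371458530978875228291073) (nat_lit 1)) .nil)) (.cons (.ev (nat_lit 20361638979832567604217131302913) (nat_lit 1)) .nil)))) (.cons (.br (nat_lit 1) (nat_lit 1) (.cons (.ev (nat_lit 20282720302328125455013435736322) (nat_lit 2)) (.cons (.rf (nat_lit 86) (nat_lit 235535246994960386208)) (.cons (.rf (nat_lit 88) (nat_lit 310293865912720528448)) .nil)))) (.cons (.kr (nat_lit 4722366482869645213696) (nat_lit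 20282409603651670423947251286016) (nat_lit 9) (nat_lit 0)) (.cons (.br (nat_lit 2) (nat_lit 1) (.cons (.ev (nat_lit 20282720302328125455026337415426) (nat_lit 2)) (.cons (.rf (nat_lit 87) (nat_lit 347259420483487112224)) (.cons (.rf (nat_lit 180) (nat_lit 493750044017866150976)) .nil)))) .nil)))))) .nil)),
 (.br (nat_lit 7) (nat_lit 0) (.cons (.br (nat_lit 11) (nat_lit 1) (.cons (.rf (nat_lit 228) (nat_lit 493858305440582043680)) (.cons (.br (nat_lit 9) (nat_lit 1) (.cons (.rf (nat_lit 228) (nat_lit 493786318215288293408)) .nil)) .nil))) .nil)),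
 (.br (nat_lit 7) (nat_lit 0) (.cons (.rf (nat_lit 229) (nat_lit 493858305440582043680)) (.cons (.rf (nat_lit 229) (nat_lit 493786318215288293408)) .nil))),
 (.br (nat_lit 12) (nat_lit 1) (.cons (.kr (nat_lit 9444732965739290493184) (nat_lit 20361637766166006820234344792064) (nat_lit 1) (nat_lit 0)) .nil)),
 (.br (nat_lit 9) (nat_lit 1) (.cons (.br (nat_lit 7) (nat_lit 0) (.cons (.br (nat_lit 13) (nat_lit 1) (.cons (.br (nat_lit 7) (nat_lit 1) (.cons (.ev (nat_lit 310693935713298766930903041) (nat_lit 1)) (.cons (.ev (nat_lit 20282719088661563826610013995009) (nat_lit 1)) (.cons (.ev (nat_lit 20282719088661563826614325739521) (nat_lit 1)) .nil)))) (.cons (.br (nat_lit 7) (nat_lit 1) (.cons (.ev (nat_lit 310693935713017296249159681) (nat_lit 1)) (.cons (.ev (nat_lit 20282719088661564108089285672961) (nat_lit 1)) (.cons (.ev (nat_lit 20282719088661564108085007482881) (nat_lit 1)) .nil)))) (.cons (.kr (nat_lit 1208925819614629191483392) (nat_lit 20282409603651670423951546253312) (nat_lit 3) (nat_lit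 0)) (.cons (.br (nat_lit 5) (nat_lit 1) (.cons (.rf (nat_lit 231) (nat_lit 493858305440582043680)) (.cons (.br (nat_lit 1) (nat_lit 1) (.cons (.zr (nat_lit 9444732965739290624768) (nat_lit 310693954087985250897494017) (nat_lit 5) (nat_lit 0)) .nil)) (.cons (.ev (nat_lit 79540065394243996175789195266) (nat_lit 2)) .nil)))) (.cons (.kr (nat_lit 1208925819614629174706176) (nat_lit 20282409603651670423947251286016) (nat_lit 10) (nat_lit 0)) .nil)))))) .nil)) .nil))]

theorem c6 : chkAll C T R L6 (nat_lit 205) = true := by decide +kernel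

theorem l6 : (nat_lit 205) + L6.length = (nat_lit 233) := by decide +kernel

/-- part of the certificates -/
def L7 : List Prf := [(.br (nat_lit 13) (nat_lit 0) (.cons (.rf (nat_lit 230) (nat_lit 493858305440582043680)) (.cons (.br (nat_lit 11) (nat_lit 1) (.cons (.rf (nat_lit 232) (nat_lit 493858305440582043680)) (.cons (.br (nat_lit 9) (nat_lit 1) (.cons (.rf (nat_lit 232) (nat_lit 493786318215288293408)) (.cons (.br (nat_lit 8) (nat_lit 1) (.cons (.br (nat_lit 7) (nat_lit 1) (.cons (.br (nat_lit 13) (nat_lit 1) (.cons (.ev (nat_lit 20282720302309749924113145659393) (nat_lit 1)) (.cons (.kr (nat_lit 1208925819614629191483392) (nat_lit 20282409603651670423951546253312) (nat_lit 3) (nat_lit 0)) (.cons (.kr (nat_lit 1208925819614629174706176) (nat_lit 20282409603651670423947251286016) (nat_lit 10) (nat_lit 0)) .nil)))) (.cons (.br (nat_lit 13) (nat_lit 1) (.cons (.ev (nat_lit 20282720302309749924113145659393) (nat_lit 1)) (.cons (.kr (nat_lit 1208925819614629191483392) (nat_lit 20282409603651670423951546253312)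 (nat_lit 3) (nat_lit 0)) (.cons (.kr (nat_lit 1208925819614629174706176) (nat_lit 20282409603651670423947251286016) (nat_lit 10) (nat_lit 0)) .nil)))) (.cons (.ev (nat_lit 309489732260167011679600641) (nat_lit 1)) (.cons (.ev (nat_lit 309489732260167007401410561) (nat_lit 1)) (.cons (.br (nat_lit 12) (nat_lit 1) (.cons (.rf (nat_lit 46) (nat_lit 491589512500613323936)) (.cons (.rf (nat_lit 46) (nat_lit 491589442099685366944)) (.cons (.ev (nat_lit 20521024978298223402532361732098) (nat_lit 2)) .nil)))) .nil)))))) .nil)) .nil))) .nil))) .nil))),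
 (.br (nat_lit 10) (nat_lit 1) (.cons (.rf (nat_lit 211) (nat_lit 14242959524133701664)) (.cons (.rf (nat_lit 227) (nat_lit 14242959524133701664)) (.cons (.br (nat_lit 13) (nat_lit 0) (.cons (.rf (nat_lit 230) (nat_lit 493858305440582043680)) (.cons (.rf (nat_lit 233) (nat_lit 493858305440582043680)) (.cons (.rf (nat_lit 233) (nat_lit 493786318215288293408)) .nil)))) .nil)))),
 (.br (nat_lit 9) (nat_lit 1) (.cons (.br (nat_lit 12) (nat_lit 0) (.cons (.br (nat_lit 7) (nat_lit 0) (.cons (.br (nat_lit 1) (nat_lit 1) (.cons (.br (nat_lit 13) (nat_lit 1) (.cons (.ev (nat_lit 20282719088679938794568974074113) (nat_lit 1)) (.cons (.ev (nat_lit 20282410812577490038580737802241) (nat_lit 1)) (.cons (.ev (nat_lit 20282719088679938794564662329601) (nat_lit 1)) .nil)))) (.cons (.br (nat_lit 2) (nat_lit 1) (.cons (.ev (nat_lit 309489732260167007401410561) (nat_lit 1)) (.cons (.zr (nat_lit 9444732965739290624768) (nat_lit 310693954087985250897494017) (nat_lit 5) (nat_lit 0)) (.cons (.ev (nat_lit 20282719088679938794568974074113)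 (nat_lit 1)) .nil)))) (.cons (.br (nat_lit 2) (nat_lit 1) (.cons (.ev (nat_lit 1213666704899166584242433) (nat_lit 1)) (.cons (.ev (nat_lit 1213666704899170862432513) (nat_lit 1)) (.cons (.zr (nat_lit 60847228810992049156652225528064) (nat_lit 310698658007442571856576513) (nat_lit 5) (nat_lit 9)) .nil)))) (.cons (.br (nat_lit 2) (nat_lit 1) (.cons (.zr (nat_lit 9444732965739290624768) (nat_lit 310693954087985250897494017) (nat_lit 5) (nat_lit 0)) (.cons (.ev (nat_lit 309489732260167007401410561) (nat_lit 1)) (.cons (.ev (nat_lit 20282719088679938794564662329601) (nat_lit 1)) .nil)))) (.cons (.ev (nat_lit 20282719088679938513093980586241) (nat_lit 1)) .nil)))))) .nil)) (.cons (.br (nat_lit 10) (nat_lit 1) (.cons (.br (nat_lit 1) (nat_lit 1) (.cons (.br (nat_lit 13) (nat_lit 1) (.cons (.ev (nat_lit 20282410812577490038576426057729) (nat_lit 1)) (.cons (.ev (nat_lit 20282719088679938794564662329601) (nat_lit 1)) (.cons (.ev (nat_lit 20282410812577490038580737802241) (nat_lit 1)) .nil)))) (.cons (.br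 (nat_lit 2) (nat_lit 1) (.cons (.ev (nat_lit 1208925891953698189410561) (nat_lit 1)) (.cons (.zr (nat_lit 9444732965739290624768) (nat_lit 310693954087985250897494017) (nat_lit 5) (nat_lit 0)) (.cons (.ev (nat_lit 20282410812577490320051419545601) (nat_lit 1)) .nil)))) (.cons (.ev (nat_lit 309485028340146736472260609) (nat_lit 1)) (.cons (.br (nat_lit 7) (nat_lit 1) (.cons (.ev (nat_lit 1208925891953702501155073) (nat_lit 1)) (.cons (.ev (nat_lit 79229371440156292391261700353) (nat_lit 1)) (.cons (.kr (nat_lit 20282409603651670423947251286272) (nat_lit 72057598332895232) (nat_lit 1) (nat_lit 0)) .nil)))) (.cons (.br (nat_lit 2) (nat_lit 1) (.cons (.ev (nat_lit 20282410812577490038576426057729) (nat_lit 1)) (.cons (.br (nat_lit 12) (nat_lit 1) (.cons (.ev (nat_lit 21470841722217288489844488080136) (nat_lit 4)) .nil)) (.cons (.ev (nat_lit 20282410812577490038580737802241) (nat_lit 1)) .nil)))) .nil)))))) .nil)) .nil))) (.cons (.br (nat_lit 11) (nat_lit 1) (.cons (.br (nat_lit 10) (nat_lit 1) (.cons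 (.br (nat_lit 13) (nat_lit 1) (.cons (.ev (nat_lit 20282719088679938513093980586241) (nat_lit 1)) (.cons (.ev (nat_lit 20282410812577490320051419545601) (nat_lit 1)) (.cons (.br (nat_lit 2) (nat_lit 1) (.cons (.ev (nat_lit 20282719088679938794568974074113) (nat_lit 1)) (.cons (.zr (nat_lit 40565128692313162192967522516992) (nat_lit 1208944410755365936824321) (nat_lit 5) (nat_lit 6)) (.cons (.zr (nat_lit 237686905394432245337549897728) (nat_lit 309489805975930137410011137) (nat_lit 5) (nat_lit 0)) .nil)))) (.cons (.br (nat_lit 1) (nat_lit 1) (.cons (.zr (nat_lit 60847230019917724374618347668224) (nat_lit 309489732332224605734305793) (nat_lit 5) (nat_lit 9)) (.cons (.br (nat_lit 2) (nat_lit 1) (.cons (.ev (nat_lit 310698658079781636559405313) (nat_lit 1)) .nil)) (.cons (.br (nat_lit 2) (nat_lit 1) (.cons (.ev (nat_lit 310698658079781636559405313) (nat_lit 1)) .nil)) .nil)))) (.cons (.br (nat_lit 5) (nat_lit 1) (.cons (.zr (nat_lit 20520713061214106126865349477120) (nat_lit 1218388999608120469618689)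 (nat_lit 5) (nat_lit 4)) (.cons (.zr (nat_lit 2417870086258114160492544) (nat_lit 158765814760716503125474803713) (nat_lit 5) (nat_lit 3)) (.cons (.ev (nat_lit 4740885566012386181121) (nat_lit 1)) .nil)))) .nil)))))) .nil)) .nil)) .nil))),
 (.br (nat_lit 13) (nat_lit 1) (.cons (.ev (nat_lit 20282410817318303546994774310913) (nat_lit 1)) .nil)),
 (.br (nat_lit 13) (nat_lit 1) (.cons (.kr (nat_lit 20282719088661491769015992844544) (nat_lit 4722438540472273076224) (nat_lit 1) (nat_lit 0)) .nil)),
 (.br (nat_lit 13) (nat_lit 1) (.cons (.kr (nat_lit 20282719088661491769015976067328) (nat_lit 4722438540463699918848) (nat_lit 1) (nat_lit 0)) .nil)),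
 (.br (nat_lit 11) (nat_lit 1) (.cons (.rf (nat_lit 235) (nat_lit 493858305440582043680)) (.cons (.br (nat_lit 10) (nat_lit 1) (.cons (.br (nat_lit 9) (nat_lit 1) (.cons (.br (nat_lit 7) (nat_lit 1) (.cons (.br (nat_lit 2) (nat_lit 1) (.cons (.rf (nat_lit 236) (nat_lit 493858305440582043680)) (.cons (.br (nat_lit 5) (nat_lit 1) (.cons (.ev (nat_lit 79229376180969519334616465665) (nat_lit 1)) .nil)) (.cons (.zr (nat_lit 36893488147419300608) (nat_lit 310698658007724046833156097) (nat_lit 5) (nat_lit 0)) .nil)))) (.cons (.br (nat_lit 1) (nat_lit 1) (.cons (.br (nat_lit 13) (nat_lit 1) (.cons (.ev (nat_lit 79537647542604766908816359425) (nat_lit 1)) .nil)) (.cons (.br (nat_lit 5) (nat_lit 1) (.cons (.ev (nat_lit 79537647542604766908816359425) (nat_lit 1)) .nil)) (.cons (.zr (nat_lit 36893488147419300608) (nat_lit 310698658007724046833156097) (nat_lit 5) (nat_lit 0)) .nil)))) (.cons (.ev (nat_lit 309489732260167011679600641) (nat_lit 1)) (.cons (.ev (nat_lit 309489732260167007401410561) (nat_lit 1))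 (.cons (.br (nat_lit 2) (nat_lit 1) (.cons (.ev (nat_lit 1208925891672223229477121) (nat_lit 1)) (.cons (.zr (nat_lit 9444949138529994342400) (nat_lit 60847539504909099257088356384769) (nat_lit 5) (nat_lit 0)) (.cons (.zr (nat_lit 9444949138521437962240) (nat_lit 60847539504909099257092634574849) (nat_lit 5) (nat_lit 0)) .nil)))) .nil)))))) .nil)) (.cons (.br (nat_lit 2) (nat_lit 0) (.cons (.br (nat_lit 7) (nat_lit 1) (.cons (.br (nat_lit 13) (nat_lit 1) (.cons (.ev (nat_lit 1208925891672223229477121) (nat_lit 1)) (.cons (.zr (nat_lit 1208962929838508677791744) (nat_lit 40565128697035528675837167534593) (nat_lit 5) (nat_lit 11)) (.cons (.zr (nat_lit 1208962929838512955981824) (nat_lit 40565128697035528675832889344513) (nat_lit 5) (nat_lit 11)) .nil)))) (.cons (.ev (nat_lit 4740885566016664371201) (nat_lit 1)) (.cons (.br (nat_lit 2) (nat_lit 1) (.cons (.rf (nat_lit 237) (nat_lit 493858305440582043680)) (.cons (.br (nat_lit 13) (nat_lit 1) (.cons (.zr (nat_lit 618970019642690137483313920) (nat_lit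 1213666633123064686051329) (nat_lit 5) (nat_lit 0)) .nil)) (.cons (.zr (nat_lit 9444949138529994342400) (nat_lit 60847539504909099257088356384769) (nat_lit 5) (nat_lit 0)) .nil)))) (.cons (.br (nat_lit 1) (nat_lit 1) (.cons (.rf (nat_lit 238) (nat_lit 493858305440582043680)) (.cons (.zr (nat_lit 237684496987598036113993761280) (nat_lit 620178963909332518628753409) (nat_lit 5) (nat_lit 4)) (.cons (.br (nat_lit 5) (nat_lit 1) (.cons (.zr (nat_lit 618970019642690137449759488) (nat_lit 1213666633123051817926657) (nat_lit 5) (nat_lit 0)) .nil)) .nil)))) (.cons (.br (nat_lit 2) (nat_lit 1) (.cons (.zr (nat_lit 60847230019917724374618347668224) (nat_lit 309489732332224605734305793) (nat_lit 5) (nat_lit 9)) (.cons (.ev (nat_lit 20282720302309678147994067730433) (nat_lit 1)) (.cons (.ev (nat_lit 20282720302309678147989789540353) (nat_lit 1)) .nil)))) .nil)))))) .nil)) .nil))) .nil))),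
 (.br (nat_lit 12) (nat_lit 1) (.cons (.ev (nat_lit 79228167236631101942460907521) (nat_lit 1)) .nil)),
 (.br (nat_lit 1) (nat_lit 1) (.cons (.ev (nat_lit 4722438821938659918081) (nat_lit 1)) .nil)),
 (.br (nat_lit 7) (nat_lit 0) (.cons (.br (nat_lit 12) (nat_lit 0) (.cons (.br (nat_lit 7) (nat_lit 1) (.cons (.br (nat_lit 2) (nat_lit 1) (.cons (.br (nat_lit 13) (nat_lit 1) (.cons (.ev (nat_lit 79229371440156292395539890433) (nat_lit 1)) .nil)) (.cons (.rf (nat_lit 240) (nat_lit 15433072009550071840)) (.cons (.zr (nat_lit 36893488147419300608) (nat_lit 310698658007724046833156097) (nat_lit 5) (nat_lit 0)) .nil)))) (.cons (.br (nat_lit 13) (nat_lit 1) (.cons (.zr (nat_lit 36893488147419300608) (nat_lit 310698658007724046833156097) (nat_lit 5) (nat_lit 0)) (.cons (.br (nat_lit 1) (nat_lit 1) (.cons (.ev (nat_lit 79537652246524505700440276993) (nat_lit 1)) .nil)) (.cons (.br (nat_lit 5) (nat_lit 1) (.cons (.ev (nat_lit 79537652246524505700440276993) (nat_lit 1)) .nil)) .nil)))) (.cons (.ev (nat_lit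 309485028340428211465748481) (nat_lit 1)) (.cons (.ev (nat_lit 309485028340428215743938561) (nat_lit 1)) (.cons (.br (nat_lit 12) (nat_lit 1) (.cons (.br (nat_lit 2) (nat_lit 1) (.cons (.zr (nat_lit 237684492265231556551439810560) (nat_lit 310693954087985246602527489) (nat_lit 5) (nat_lit 8)) .nil)) (.cons (.br (nat_lit 1) (nat_lit 1) (.cons (.zr (nat_lit 237684492265231553244348547584) (nat_lit 310693954087987449903972353) (nat_lit 5) (nat_lit 4)) .nil)) (.cons (.ev (nat_lit 20361638979832567604217131302913) (nat_lit 1)) .nil)))) .nil)))))) .nil)) (.cons (.br (nat_lit 12) (nat_lit 0) (.cons (.br (nat_lit 13) (nat_lit 1) (.cons (.br (nat_lit 5) (nat_lit 1) (.cons (.rf (nat_lit 205) (nat_lit 15425043173788125408)) (.cons (.rf (nat_lit 199) (nat_lit 14316179301962188832)) (.cons (.zr (nat_lit 40802819229207419765057979940864) (nat_lit 147574797027491447042) (nat_lit 10) (nat_lit 10)) .nil)))) (.cons (.br (nat_lit 7) (nat_lit 1) (.cons (.zr (nat_lit 36893488147419300608) (nat_lit 310698658007724046833156097)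 (nat_lit 5) (nat_lit 0)) (.cons (.rf (nat_lit 197) (nat_lit 15425043173788125408)) (.cons (.rf (nat_lit 241) (nat_lit 15433072009550071840)) .nil)))) (.cons (.br (nat_lit 7) (nat_lit 1) (.cons (.ev (nat_lit 20282719093383858533360597991681) (nat_lit 1)) (.cons (.ev (nat_lit 20282410812577490320055697735681) (nat_lit 1)) (.cons (.ev (nat_lit 20361638975091754377269498347521) (nat_lit 1)) .nil)))) (.cons (.ev (nat_lit 309489732260167007401410561) (nat_lit 1)) (.cons (.br (nat_lit 7) (nat_lit 1) (.cons (.ev (nat_lit 20282719093383858533364909736193) (nat_lit 1)) (.cons (.ev (nat_lit 20282410812577490320051419545601) (nat_lit 1)) (.cons (.ev (nat_lit 20361638975091754377273776537601) (nat_lit 1)) .nil)))) .nil)))))) .nil)) .nil))),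
 (.br (nat_lit 9) (nat_lit 1) (.cons (.rf (nat_lit 242) (nat_lit 493858305440582043680)) (.cons (.br (nat_lit 11) (nat_lit 1) (.cons (.rf (nat_lit 242) (nat_lit 493786318215288293408)) .nil)) .nil))),
 (.br (nat_lit 5) (nat_lit 1) (.cons (.kr (nat_lit 9444732965739290493184) (nat_lit 20361637766166006820234344792064) (nat_lit 1) (nat_lit 0)) .nil)),
 (.br (nat_lit 11) (nat_lit 1) (.cons (.br (nat_lit 13) (nat_lit 1) (.cons (.ev (nat_lit 20282719093383858251885638058241) (nat_lit 1)) (.cons (.br (nat_lit 1) (nat_lit 1) (.cons (.ev (nat_lit 20282719093383858533360597991681) (nat_lit 1)) (.cons (.zr (nat_lit 37110223879486504960) (nat_lit 60847539509613018714413610303489) (nat_lit 5) (nat_lit 0)) (.cons (.ev (nat_lit 20282719093383858533364909736193) (nat_lit 1)) .nil)))) (.cons (.br (nat_lit 2) (nat_lit 1) (.cons (.ev (nat_lit 20282719093383858533360597991681) (nat_lit 1)) (.cons (.ev (nat_lit 309485028340428215743938561) (nat_lit 1)) (.cons (.ev (nat_lit 20361638975091754377269498347521) (nat_lit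 1)) .nil)))) (.cons (.br (nat_lit 1) (nat_lit 1) (.cons (.ev (nat_lit 20282410817318303265519780823041) (nat_lit 1)) (.cons (.br (nat_lit 2) (nat_lit 1) (.cons (.zr (nat_lit 9444732965739290624768) (nat_lit 310693954087985250897494017) (nat_lit 5) (nat_lit 0)) .nil)) (.cons (.rf (nat_lit 244) (nat_lit 493858305440582043680)) .nil)))) (.cons (.br (nat_lit 2) (nat_lit 1) (.cons (.ev (nat_lit 20282719093383858533364909736193) (nat_lit 1)) (.cons (.ev (nat_lit 20361638975091754377273776537601) (nat_lit 1)) (.cons (.ev (nat_lit 309485028340428215743938561) (nat_lit 1)) .nil)))) .nil)))))) .nil)),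
 (.br (nat_lit 10) (nat_lit 1) (.cons (.rf (nat_lit 243) (nat_lit 493858305440582043680)) (.cons (.br (nat_lit 7) (nat_lit 0) (.cons (.rf (nat_lit 245) (nat_lit 493858305440582043680)) (.cons (.rf (nat_lit 245) (nat_lit 493786318215288293408)) .nil))) .nil))),
 (.br (nat_lit 13) (nat_lit 0) (.cons (.br (nat_lit 11) (nat_lit 1) (.cons (.rf (nat_lit 235) (nat_lit 493858305440582043680)) (.cons (.rf (nat_lit 239) (nat_lit 493858305440582043680)) (.cons (.br (nat_lit 11) (nat_lit 1) (.cons (.rf (nat_lit 235) (nat_lit 493858305440582043680)) (.cons (.rf (nat_lit 239) (nat_lit 493858305440582043680)) .nil))) .nil)))) (.cons (.br (nat_lit 10) (nat_lit 1) (.cons (.rf (nat_lit 243) (nat_lit 493858305440582043680)) (.cons (.rf (nat_lit 246) (nat_lit 493858305440582043680)) (.cons (.br (nat_lit 10) (nat_lit 1) (.cons (.rf (nat_lit 243) (nat_lit 493858305440582043680)) (.cons (.rf (nat_lit 246) (nat_lit 493858305440582043680)) .nil))) .nil)))) .nil))),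
 (.br (nat_lit 13) (nat_lit 0) (.cons (.rf (nat_lit 247) (nat_lit 493858305440582043680)) (.cons (.br (nat_lit 13) (nat_lit 0) (.cons (.rf (nat_lit 247) (nat_lit 493858305440582043680)) (.cons (.rf (nat_lit 247) (nat_lit 493786318215288293408)) .nil))) (.cons (.rf (nat_lit 247) (nat_lit 493786318215288293408)) .nil)))),
 (.br (nat_lit 1) (nat_lit 1) (.cons (.kr (nat_lit 20282409603651742481541289214208) (nat_lit 79228162514264338693055643648) (nat_lit 1) (nat_lit 0)) .nil)),
 (.br (nat_lit 2) (nat_lit 1) (.cons (.kr (nat_lit 20282409603651742481541289214208) (nat_lit 79228162514264338693055643648) (nat_lit 1) (nat_lit 0)) .nil)),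
 (.br (nat_lit 7) (nat_lit 1) (.cons (.br (nat_lit 5) (nat_lit 1) (.cons (.kr (nat_lit 9444732965739290493184) (nat_lit 20361637766166006820234344792064) (nat_lit 1) (nat_lit 0)) .nil)) (.cons (.kr (nat_lit 4722366482869645279232) (nat_lit 20282409603651742481541289213952) (nat_lit 2) (nat_lit 0)) (.cons (.rf (nat_lit 152) (nat_lit 457866665111474931872)) .nil)))),
 (.br (nat_lit 2) (nat_lit 1) (.cons (.zr (nat_lit 9444732965739290624768) (nat_lit 310693954087985250897494017) (nat_lit 5) (nat_lit 0)) (.cons (.ev (nat_lit 18519083142724256001) (nat_lit 1)) (.cons (.zr (nat_lit 9444732965739324179200) (nat_lit 310693954087985263765618689) (nat_lit 5) (nat_lit 0)) .nil)))),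
 (.br (nat_lit 2) (nat_lit 1) (.cons (.zr (nat_lit 9444732965739290624768) (nat_lit 310693954087985250897494017) (nat_lit 5) (nat_lit 0)) (.cons (.ev (nat_lit 1213666705180641544175873) (nat_lit 1)) (.cons (.zr (nat_lit 9444732965739324179200) (nat_lit 310693954087985263765618689) (nat_lit 5) (nat_lit 0)) .nil)))),
 (.br (nat_lit 7) (nat_lit 1) (.cons (.kr (nat_lit 20282409603651742481541289214208) (nat_lit 79228162514264338693055643648) (nat_lit 1) (nat_lit 0)) .nil)),
 (.br (nat_lit 10) (nat_lit 1) (.cons (.br (nat_lit 9) (nat_lit 1) (.cons (.br (nat_lit 11) (nat_lit 1) (.cons (.br (nat_lit 13) (nat_lit 0) (.cons (.br (nat_lit 7) (nat_lit 1) (.cons (.ev (nat_lit 309485028340146736472260609) (nat_lit 1)) (.cons (.br (nat_lit 1) (nat_lit 1) (.cons (.rf (nat_lit 216) (nat_lit 493823296821776194592)) (.cons (.rf (nat_lit 217) (nat_lit 493823296821776194592)) (.cons (.ev (nat_lit 1208925891953702501155073) (nat_lit 1)) .nil)))) (.cons (.br (nat_lit 13) (nat_lit 1) (.cons (.br (nat_lit 12) (nat_lit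 1) (.cons (.zr (nat_lit 9444732965739324179200) (nat_lit 310693954087985263765618689) (nat_lit 5) (nat_lit 0)) .nil)) (.cons (.kr (nat_lit 4722366482869662056448) (nat_lit 20282409603651742481545584181248) (nat_lit 2) (nat_lit 0)) (.cons (.rf (nat_lit 215) (nat_lit 458117734399593253024)) .nil)))) (.cons (.br (nat_lit 5) (nat_lit 1) (.cons (.kr (nat_lit 4722366482869645213952) (nat_lit 79228162514264338693055578112) (nat_lit 1) (nat_lit 0)) (.cons (.br (nat_lit 1) (nat_lit 1) (.cons (.zr (nat_lit 9444732965739290624768) (nat_lit 310693954087985250897494017) (nat_lit 5) (nat_lit 0)) .nil)) (.cons (.rf (nat_lit 249) (nat_lit 493858305440582043680)) .nil)))) (.cons (.br (nat_lit 1) (nat_lit 1) (.cons (.br (nat_lit 5) (nat_lit 1) (.cons (.ev (nat_lit 20838870923865585569450867099396) (nat_lit 3)) .nil)) (.cons (.ev (nat_lit 20282410817299856802921047916801) (nat_lit 1)) (.cons (.ev (nat_lit 20282410817299856802925359661313) (nat_lit 1)) .nil)))) .nil)))))) .nil)) .nil)) (.cons (.br (nat_lit 11) (nat_lit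 1) (.cons (.br (nat_lit 8) (nat_lit 1) (.cons (.br (nat_lit 7) (nat_lit 1) (.cons (.br (nat_lit 2) (nat_lit 1) (.cons (.zr (nat_lit 9444732965739290624768) (nat_lit 310693954087985250897494017) (nat_lit 5) (nat_lit 0)) (.cons (.zr (nat_lit 9444732965739324179200) (nat_lit 310693954087985263765618689) (nat_lit 5) (nat_lit 0)) (.cons (.ev (nat_lit 20282720297587311665124439228673) (nat_lit 1)) .nil)))) (.cons (.br (nat_lit 13) (nat_lit 1) (.cons (.ev (nat_lit 20282409603670117168020960903169) (nat_lit 1)) (.cons (.kr (nat_lit 4722366482869662056448) (nat_lit 20282409603651742481545584181248) (nat_lit 2) (nat_lit 0)) (.cons (.kr (nat_lit 4722366482869645279232) (nat_lit 20282409603651742481541289213952) (nat_lit 2) (nat_lit 0)) .nil)))) (.cons (.br (nat_lit 13) (nat_lit 1) (.cons (.br (nat_lit 2) (nat_lit 1) (.cons (.ev (nat_lit 20837006760215135679417946669316) (nat_lit 3)) .nil)) (.cons (.rf (nat_lit 86) (nat_lit 161712197860560569408)) (.cons (.rf (nat_lit 87) (nat_lit 236723036216732256288)) .nil))))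 (.cons (.br (nat_lit 1) (nat_lit 1) (.cons (.rf (nat_lit 86) (nat_lit 310293830724963636448)) (.cons (.rf (nat_lit 85) (nat_lit 310293830724963636448)) (.cons (.br (nat_lit 5) (nat_lit 1) (.cons (.ev (nat_lit 20837006760215135679392143311108) (nat_lit 3)) .nil)) .nil)))) (.cons (.ev (nat_lit 4740885566016664371201) (nat_lit 1)) .nil)))))) .nil)) (.cons (.br (nat_lit 8) (nat_lit 1) (.cons (.br (nat_lit 13) (nat_lit 1) (.cons (.br (nat_lit 7) (nat_lit 1) (.cons (.ev (nat_lit 20282410817318303265519780823041) (nat_lit 1)) (.cons (.br (nat_lit 12) (nat_lit 1) (.cons (.ev (nat_lit 20837011577028948206456064639236) (nat_lit 3)) .nil)) (.cons (.br (nat_lit 5) (nat_lit 1) (.cons (.ev (nat_lit 20837011577028948206430261281028) (nat_lit 3)) .nil)) .nil)))) (.cons (.br (nat_lit 7) (nat_lit 1) (.cons (.ev (nat_lit 20282719093383858533364909736193) (nat_lit 1)) (.cons (.rf (nat_lit 45) (nat_lit 490436517301006370976)) (.cons (.rf (nat_lit 46) (nat_lit 490436517301006370976)) .nil)))) (.cons (.br (nat_lit 12)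 (nat_lit 1) (.cons (.kr (nat_lit 4722366482869661991168) (nat_lit 79228162514264338697350545408) (nat_lit 1) (nat_lit 0)) (.cons (.br (nat_lit 7) (nat_lit 1) (.cons (.zr (nat_lit 9444732965739324179200) (nat_lit 310693954087985263765618689) (nat_lit 5) (nat_lit 0)) .nil)) (.cons (.rf (nat_lit 250) (nat_lit 493858305440582043680)) .nil)))) (.cons (.ev (nat_lit 1208944338697776193863681) (nat_lit 1)) (.cons (.rf (nat_lit 251) (nat_lit 493858305440582043680)) .nil)))))) .nil)) .nil))) .nil))) (.cons (.br (nat_lit 9) (nat_lit 1) (.cons (.br (nat_lit 7) (nat_lit 0) (.cons (.br (nat_lit 13) (nat_lit 0) (.cons (.br (nat_lit 7) (nat_lit 1) (.cons (.ev (nat_lit 310693935713017296249159681) (nat_lit 1)) (.cons (.br (nat_lit 1) (nat_lit 1) (.cons (.rf (nat_lit 35) (nat_lit 484671030167596173472)) (.cons (.rf (nat_lit 36) (nat_lit 484671030167596173472)) (.cons (.ev (nat_lit 18519083142724256001) (nat_lit 1)) .nil)))) (.cons (.br (nat_lit 1) (nat_lit 1) (.cons (.rf (nat_lit 35) (nat_lit 490435637891223881888))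 (.cons (.kr (nat_lit 4722366482869661991168) (nat_lit 79228162514264338697350545408) (nat_lit 1) (nat_lit 0)) (.cons (.rf (nat_lit 252) (nat_lit 493858305440582043680)) .nil)))) (.cons (.br (nat_lit 13) (nat_lit 1) (.cons (.rf (nat_lit 252) (nat_lit 493858305440582043680)) (.cons (.kr (nat_lit 4722366482869645279232) (nat_lit 20282409603651742481541289213952) (nat_lit 2) (nat_lit 0)) (.cons (.rf (nat_lit 250) (nat_lit 493857214725047289888)) .nil)))) (.cons (.br (nat_lit 1) (nat_lit 1) (.cons (.br (nat_lit 12) (nat_lit 1) (.cons (.ev (nat_lit 20838870923865585569450867099396) (nat_lit 3)) .nil)) (.cons (.ev (nat_lit 20282409608392483932369894506753) (nat_lit 1)) (.cons (.ev (nat_lit 20282409608392483932365582762241) (nat_lit 1)) .nil)))) .nil)))))) .nil)) (.cons (.br (nat_lit 13) (nat_lit 0) (.cons (.br (nat_lit 7) (nat_lit 1) (.cons (.ev (nat_lit 309489732259885536719667201) (nat_lit 1)) (.cons (.br (nat_lit 1) (nat_lit 1) (.cons (.rf (nat_lit 84) (nat_lit 236687042604085381152)) (.cons (.rf (nat_lit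 85) (nat_lit 236687042604085381152)) (.cons (.ev (nat_lit 1213666705180641544175873) (nat_lit 1)) .nil)))) (.cons (.br (nat_lit 13) (nat_lit 1) (.cons (.rf (nat_lit 253) (nat_lit 493858305440582043680)) (.cons (.kr (nat_lit 4722366482869662056448) (nat_lit 20282409603651742481545584181248) (nat_lit 2) (nat_lit 0)) (.cons (.rf (nat_lit 87) (nat_lit 236687042604085381152)) .nil)))) (.cons (.br (nat_lit 1) (nat_lit 1) (.cons (.rf (nat_lit 86) (nat_lit 310293865909334676704)) (.cons (.kr (nat_lit 4722366482869645213952) (nat_lit 79228162514264338693055578112) (nat_lit 1) (nat_lit 0)) (.cons (.rf (nat_lit 253) (nat_lit 493858305440582043680)) .nil)))) (.cons (.br (nat_lit 1) (nat_lit 1) (.cons (.br (nat_lit 12) (nat_lit 1) (.cons (.ev (nat_lit 20838870923865585569450867099396) (nat_lit 3)) .nil)) (.cons (.ev (nat_lit 20282410812595937064129423999233) (nat_lit 1)) (.cons (.ev (nat_lit 20282410812595937064125112254721) (nat_lit 1)) .nil)))) .nil)))))) .nil)) .nil))) (.cons (.br (nat_lit 11) (nat_lit 1)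 (.cons (.br (nat_lit 7) (nat_lit 0) (.cons (.br (nat_lit 13) (nat_lit 1) (.cons (.br (nat_lit 2) (nat_lit 1) (.cons (.br (nat_lit 12) (nat_lit 1) (.cons (.ev (nat_lit 20837011595844627161631250907396) (nat_lit 3)) .nil)) (.cons (.ev (nat_lit 20282410812577490038580737802241) (nat_lit 1)) (.cons (.br (nat_lit 5) (nat_lit 1) (.cons (.ev (nat_lit 20837011595844627161622560309508) (nat_lit 3)) .nil)) .nil)))) (.cons (.br (nat_lit 1) (nat_lit 1) (.cons (.rf (nat_lit 39) (nat_lit 491587263071621580960)) (.cons (.ev (nat_lit 20282719088679938794564662329601) (nat_lit 1)) (.cons (.rf (nat_lit 254) (nat_lit 493858305440582043680)) .nil)))) (.cons (.br (nat_lit 1) (nat_lit 1) (.cons (.rf (nat_lit 3) (nat_lit 384360033526473819360)) (.cons (.br (nat_lit 12) (nat_lit 1) (.cons (.zr (nat_lit 9444732965739324179200) (nat_lit 310693954087985263765618689) (nat_lit 5) (nat_lit 0)) .nil)) (.cons (.kr (nat_lit 4722366482869661991168) (nat_lit 79228162514264338697350545408) (nat_lit 1) (nat_lit 0)) .nil)))) (.cons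 (.ev (nat_lit 1213648258436567851335681) (nat_lit 1)) (.cons (.br (nat_lit 7) (nat_lit 1) (.cons (.br (nat_lit 2) (nat_lit 1) (.cons (.zr (nat_lit 9444732965739290624768) (nat_lit 310693954087985250897494017) (nat_lit 5) (nat_lit 0)) .nil)) (.cons (.kr (nat_lit 4722366482869645279232) (nat_lit 20282409603651742481541289213952) (nat_lit 2) (nat_lit 0)) (.cons (.rf (nat_lit 12) (nat_lit 235675941403916241056)) .nil)))) .nil)))))) .nil)) .nil)) .nil))) .nil)))]

theorem c7 : chkAll C T R L7 (nat_lit 233) = true := by decide +kernel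

theorem l7 : (nat_lit 233) + L7.length = (nat_lit 256) := by decide +kernel

/-- part of the certificates -/
def L8 : List Prf := [(.br (nat_lit 2) (nat_lit 1) (.cons (.ev (nat_lit 79228167255149904705425047553) (nat_lit 1)) .nil)),
 (.br (nat_lit 1) (nat_lit 1) (.cons (.ev (nat_lit 79228167255149904705425047553) (nat_lit 1)) .nil)),
 (.br (nat_lit 12) (nat_lit 1) (.cons (.rf (nat_lit 256) (nat_lit 493858305440582043680)) (.cons (.ev (nat_lit 79228167255149623234743304193) (nat_lit 1)) (.cons (.rf (nat_lit 257) (nat_lit 493858305440582043680)) .nil)))),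
 (.br (nat_lit 5) (nat_lit 1) (.cons (.ev (nat_lit 4722438821938659918081) (nat_lit 1)) .nil)),
 (.br (nat_lit 13) (nat_lit 1) (.cons (.ev (nat_lit 20282410817299856802921047916801) (nat_lit 1)) (.cons (.ev (nat_lit 20282409603670117168020960903169) (nat_lit 1)) (.cons (.ev (nat_lit 20282410817299856802925359661313) (nat_lit 1)) .nil)))),
 (.br (nat_lit 2) (nat_lit 1) (.cons (.ev (nat_lit 79229376162522775260890202113) (nat_lit 1)) .nil)),
 (.br (nat_lit 11) (nat_lit 1) (.cons (.rf (nat_lit 255) (nat_lit 493858305440582043680)) (.cons (.br (nat_lit 7) (nat_lit 0) (.cons (.br (nat_lit 10) (nat_lit 1) (.cons (.br (nat_lit 9) (nat_lit 1) (.cons (.br (nat_lit 2) (nat_lit 1) (.cons (.br (nat_lit 13) (nat_lit 1) (.cons (.br (nat_lit 7) (nat_lit 1) (.cons (.ev (nat_lit 20679788375262784744536999659268) (nat_lit 3)) .nil)) (.cons (.ev (nat_lit 20282412035707519044231931035650) (nat_lit 2)) (.cons (.br (nat_lit 7) (nat_lit 1) (.cons (.ev (nat_lit 20679788375262784744554246637316) (nat_lit 3)) .nil)) .nil))))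 (.cons (.br (nat_lit 13) (nat_lit 1) (.cons (.zr (nat_lit 36893488156009235200) (nat_lit 310698658007724042588520449) (nat_lit 5) (nat_lit 0)) (.cons (.ev (nat_lit 20282410812577490320055697735681) (nat_lit 1)) (.cons (.br (nat_lit 7) (nat_lit 1) (.cons (.ev (nat_lit 20837011605400039465921381073156) (nat_lit 3)) .nil)) .nil)))) (.cons (.ev (nat_lit 1213648258436567851335681) (nat_lit 1)) (.cons (.br (nat_lit 13) (nat_lit 1) (.cons (.zr (nat_lit 36893488147419300608) (nat_lit 310698658007724046833156097) (nat_lit 5) (nat_lit 0)) (.cons (.br (nat_lit 7) (nat_lit 1) (.cons (.ev (nat_lit 20837011605400039465895711932676) (nat_lit 3)) .nil)) (.cons (.ev (nat_lit 20282410812577490320051419545601) (nat_lit 1)) .nil)))) (.cons (.br (nat_lit 1) (nat_lit 1) (.cons (.zr (nat_lit 36893488156026011648) (nat_lit 310698658007724042521412097) (nat_lit 5) (nat_lit 6)) (.cons (.ev (nat_lit 309485009893402662779552001) (nat_lit 1)) (.cons (.zr (nat_lit 36893488147419300608) (nat_lit 310698658007724046833156097) (nat_lit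 5) (nat_lit 0)) .nil)))) .nil)))))) .nil)) (.cons (.br (nat_lit 2) (nat_lit 0) (.cons (.br (nat_lit 7) (nat_lit 1) (.cons (.br (nat_lit 2) (nat_lit 1) (.cons (.ev (nat_lit 18518801667764322561) (nat_lit 1)) (.cons (.ev (nat_lit 18518801672042512641) (nat_lit 1)) (.cons (.br (nat_lit 5) (nat_lit 1) (.cons (.ev (nat_lit 20520715479102711468113694623492) (nat_lit 3)) .nil)) .nil)))) (.cons (.ev (nat_lit 1213648258436567851335681) (nat_lit 1)) (.cons (.rf (nat_lit 258) (nat_lit 493858305440582043680)) (.cons (.br (nat_lit 2) (nat_lit 1) (.cons (.br (nat_lit 13) (nat_lit 1) (.cons (.ev (nat_lit 79228167255149904709736792065) (nat_lit 1)) .nil)) (.cons (.ev (nat_lit 79228167255149623234743304193) (nat_lit 1)) (.cons (.br (nat_lit 1) (nat_lit 1) (.cons (.ev (nat_lit 79228167255149904709736792065) (nat_lit 1)) .nil)) .nil)))) (.cons (.br (nat_lit 1) (nat_lit 1) (.cons (.ev (nat_lit 20282410812577490038580737802241) (nat_lit 1)) (.cons (.zr (nat_lit 60847538305409565582649769067264) (nat_lit 1208944410755370248568833)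 (nat_lit 5) (nat_lit 10)) (.cons (.zr (nat_lit 309494454770483594457513984) (nat_lit 40564820416247607488072363540993) (nat_lit 5) (nat_lit 8)) .nil)))) .nil)))))) .nil)) .nil))) (.cons (.br (nat_lit 8) (nat_lit 1) (.cons (.br (nat_lit 10) (nat_lit 1) (.cons (.br (nat_lit 7) (nat_lit 1) (.cons (.br (nat_lit 2) (nat_lit 1) (.cons (.zr (nat_lit 2417851639229258349609728) (nat_lit 309489750634853491368001537) (nat_lit 5) (nat_lit 0)) (.cons (.zr (nat_lit 2417851639229258383164160) (nat_lit 309489750634853504236126209) (nat_lit 5) (nat_lit 0)) (.cons (.ev (nat_lit 20282719088661492050490969620481) (nat_lit 1)) .nil)))) (.cons (.br (nat_lit 1) (nat_lit 1) (.cons (.zr (nat_lit 2417851639229258349609728) (nat_lit 309489750634853491368001537) (nat_lit 5) (nat_lit 0)) (.cons (.zr (nat_lit 2417851639229262678130688) (nat_lit 309489750634853487056257537) (nat_lit 5) (nat_lit 6)) (.cons (.ev (nat_lit 20282409608392483650894901018881) (nat_lit 1)) .nil)))) (.cons (.ev (nat_lit 309489732260167011679600641) (nat_lit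 1)) (.cons (.ev (nat_lit 309489732260167007401410561) (nat_lit 1)) (.cons (.br (nat_lit 5) (nat_lit 1) (.cons (.br (nat_lit 12) (nat_lit 1) (.cons (.ev (nat_lit 18519083147036000513) (nat_lit 1)) .nil)) (.cons (.br (nat_lit 1) (nat_lit 1) (.cons (.ev (nat_lit 18519083147036000513) (nat_lit 1)) .nil)) (.cons (.br (nat_lit 1) (nat_lit 1) (.cons (.ev (nat_lit 20520101373157728415210075783428) (nat_lit 3)) .nil)) .nil)))) .nil)))))) .nil)) (.cons (.br (nat_lit 10) (nat_lit 1) (.cons (.br (nat_lit 7) (nat_lit 1) (.cons (.br (nat_lit 2) (nat_lit 1) (.cons (.zr (nat_lit 36893488156009235200) (nat_lit 310698658007724042588520449) (nat_lit 5) (nat_lit 0)) (.cons (.zr (nat_lit 36893488147419300608) (nat_lit 310698658007724046833156097) (nat_lit 5) (nat_lit 0)) (.cons (.ev (nat_lit 20282719088661492050490969620481) (nat_lit 1)) .nil)))) (.cons (.br (nat_lit 1) (nat_lit 1) (.cons (.zr (nat_lit 36893488156026011648) (nat_lit 310698658007724042521412097) (nat_lit 5) (nat_lit 6)) (.cons (.zr (nat_lit 36893488147419300608)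 (nat_lit 310698658007724046833156097) (nat_lit 5) (nat_lit 0)) (.cons (.ev (nat_lit 20282410817299856521446087983361) (nat_lit 1)) .nil)))) (.cons (.ev (nat_lit 309489732260167011679600641) (nat_lit 1)) (.cons (.ev (nat_lit 309489732260167007401410561) (nat_lit 1)) (.cons (.br (nat_lit 2) (nat_lit 1) (.cons (.br (nat_lit 12) (nat_lit 1) (.cons (.ev (nat_lit 20520098955342982674073342116100) (nat_lit 3)) .nil)) (.cons (.rf (nat_lit 198) (nat_lit 14316179301962188832)) (.cons (.rf (nat_lit 259) (nat_lit 15433072009550071840)) .nil)))) .nil)))))) .nil)) .nil))) (.cons (.br (nat_lit 13) (nat_lit 0) (.cons (.br (nat_lit 2) (nat_lit 0) (.cons (.br (nat_lit 7) (nat_lit 1) (.cons (.br (nat_lit 2) (nat_lit 1) (.cons (.ev (nat_lit 1208925891672227507667201) (nat_lit 1)) (.cons (.ev (nat_lit 1208925891672223229477121) (nat_lit 1)) (.cons (.br (nat_lit 12) (nat_lit 1) (.cons (.ev (nat_lit 20520715479102711468113694623492) (nat_lit 3)) .nil)) .nil)))) (.cons (.ev (nat_lit 4740885566016664371201) (nat_lit 1))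 (.cons (.br (nat_lit 2) (nat_lit 1) (.cons (.rf (nat_lit 260) (nat_lit 493858305440582043680)) (.cons (.ev (nat_lit 79229376162522493785930268673) (nat_lit 1)) (.cons (.br (nat_lit 12) (nat_lit 1) (.cons (.ev (nat_lit 79229376162522775265201946625) (nat_lit 1)) .nil)) .nil)))) (.cons (.br (nat_lit 1) (nat_lit 1) (.cons (.rf (nat_lit 260) (nat_lit 493858305440582043680)) (.cons (.rf (nat_lit 261) (nat_lit 493858305440582043680)) (.cons (.ev (nat_lit 20282410817299856521446087983361) (nat_lit 1)) .nil)))) (.cons (.br (nat_lit 5) (nat_lit 1) (.cons (.zr (nat_lit 60847538305409565582649769067264) (nat_lit 1208944410755370248568833) (nat_lit 5) (nat_lit 8)) (.cons (.kr (nat_lit 618970019642690141744594944) (nat_lit 20282409608374108964410951204864) (nat_lit 2) (nat_lit 0)) (.cons (.rf (nat_lit 220) (nat_lit 13975045194155168)) .nil)))) .nil)))))) .nil)) (.cons (.br (nat_lit 2) (nat_lit 0) (.cons (.br (nat_lit 7) (nat_lit 1) (.cons (.br (nat_lit 13) (nat_lit 1) (.cons (.ev (nat_lit 309485009893402662779552001)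 (nat_lit 1)) (.cons (.br (nat_lit 12) (nat_lit 1) (.cons (.ev (nat_lit 20837014023214785207032311382276) (nat_lit 3)) .nil)) (.cons (.br (nat_lit 5) (nat_lit 1) (.cons (.ev (nat_lit 20837014023214785207023755002116) (nat_lit 3)) .nil)) .nil)))) (.cons (.ev (nat_lit 4740885566016664371201) (nat_lit 1)) (.cons (.br (nat_lit 2) (nat_lit 1) (.cons (.br (nat_lit 12) (nat_lit 1) (.cons (.ev (nat_lit 20679795628707021967861234206468) (nat_lit 3)) .nil)) (.cons (.br (nat_lit 13) (nat_lit 1) (.cons (.zr (nat_lit 2417851639229258383164160) (nat_lit 309489750634853504236126209) (nat_lit 5) (nat_lit 0)) .nil)) (.cons (.br (nat_lit 12) (nat_lit 1) (.cons (.zr (nat_lit 2417851639229262678130688) (nat_lit 309489750634853487056257537) (nat_lit 5) (nat_lit 6)) .nil)) .nil)))) (.cons (.br (nat_lit 13) (nat_lit 1) (.cons (.rf (nat_lit 34) (nat_lit 447812415227086249120)) (.cons (.rf (nat_lit 33) (nat_lit 447812415227086249120)) (.cons (.br (nat_lit 2) (nat_lit 1) (.cons (.ev (nat_lit 20679795628707021967878481184516)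 (nat_lit 3)) .nil)) .nil)))) (.cons (.br (nat_lit 2) (nat_lit 1) (.cons (.ev (nat_lit 20282412035707519044231931035650) (nat_lit 2)) (.cons (.ev (nat_lit 20282409603670117449495954391041) (nat_lit 1)) (.cons (.ev (nat_lit 20282409603670117449500232581121) (nat_lit 1)) .nil)))) .nil)))))) .nil)) .nil))) .nil)))) .nil))),
 (.br (nat_lit 12) (nat_lit 1) (.cons (.kr (nat_lit 20282409603651742481541289214208) (nat_lit 79228162514264338693055643648) (nat_lit 1) (nat_lit 0)) .nil)),
 (.br (nat_lit 9) (nat_lit 1) (.cons (.br (nat_lit 8) (nat_lit 1) (.cons (.br (nat_lit 10) (nat_lit 1) (.cons (.br (nat_lit 13) (nat_lit 1) (.cons (.br (nat_lit 7) (nat_lit 1) (.cons (.ev (nat_lit 20282719093402304995959330897921) (nat_lit 1)) (.cons (.br (nat_lit 12) (nat_lit 1) (.cons (.ev (nat_lit 20837011576955161230161159062788) (nat_lit 3)) .nil)) (.cons (.br (nat_lit 5) (nat_lit 1) (.cons (.ev (nat_lit 20837011576955161230152602682628) (nat_lit 3)) .nil)) .nil)))) (.cons (.br (nat_lit 1) (nat_lit 1) (.cons (.rf (nat_lit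 263) (nat_lit 493858305440582043680)) (.cons (.ev (nat_lit 20282410812595937064125112254721) (nat_lit 1)) (.cons (.rf (nat_lit 249) (nat_lit 458117628677899525280)) .nil)))) (.cons (.br (nat_lit 2) (nat_lit 1) (.cons (.rf (nat_lit 203) (nat_lit 458117734399593253024)) (.cons (.kr (nat_lit 18446744073709617152) (nat_lit 20282409603651742481541289213952) (nat_lit 2) (nat_lit 0)) (.cons (.br (nat_lit 1) (nat_lit 1) (.cons (.zr (nat_lit 36893488147419300608) (nat_lit 310698658007724046833156097) (nat_lit 5) (nat_lit 0)) .nil)) .nil)))) (.cons (.ev (nat_lit 309489732260167007401410561) (nat_lit 1)) (.cons (.br (nat_lit 7) (nat_lit 1) (.cons (.br (nat_lit 2) (nat_lit 1) (.cons (.zr (nat_lit 36893488156009235200) (nat_lit 310698658007724042588520449) (nat_lit 5) (nat_lit 0)) .nil)) (.cons (.kr (nat_lit 18446744078004584448) (nat_lit 20282409603651742481541305991168) (nat_lit 2) (nat_lit 0)) (.cons (.rf (nat_lit 215) (nat_lit 458082831502481131680)) .nil)))) .nil)))))) .nil)) .nil)) (.cons (.br (nat_lit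 13) (nat_lit 0) (.cons (.br (nat_lit 10) (nat_lit 1) (.cons (.br (nat_lit 7) (nat_lit 1) (.cons (.br (nat_lit 2) (nat_lit 1) (.cons (.zr (nat_lit 36893488156009235200) (nat_lit 310698658007724042588520449) (nat_lit 5) (nat_lit 0)) (.cons (.zr (nat_lit 36893488147419300608) (nat_lit 310698658007724046833156097) (nat_lit 5) (nat_lit 0)) (.cons (.ev (nat_lit 20282720297587311665124439228673) (nat_lit 1)) .nil)))) (.cons (.br (nat_lit 13) (nat_lit 1) (.cons (.ev (nat_lit 20282409608374036906821208309761) (nat_lit 1)) (.cons (.kr (nat_lit 18446744073709617152) (nat_lit 20282409603651742481541289213952) (nat_lit 2) (nat_lit 0)) (.cons (.kr (nat_lit 18446744078004584448) (nat_lit 20282409603651742481541305991168) (nat_lit 2) (nat_lit 0)) .nil)))) (.cons (.br (nat_lit 12) (nat_lit 1) (.cons (.rf (nat_lit 86) (nat_lit 236759063914239592480)) (.cons (.br (nat_lit 13) (nat_lit 1) (.cons (.ev (nat_lit 20837006760215135679417946669316) (nat_lit 3)) .nil)) (.cons (.rf (nat_lit 87) (nat_lit 236759063914239592480))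 .nil)))) (.cons (.br (nat_lit 2) (nat_lit 1) (.cons (.rf (nat_lit 86) (nat_lit 310293830724964652256)) (.cons (.br (nat_lit 13) (nat_lit 1) (.cons (.ev (nat_lit 20837006760215135679392143311108) (nat_lit 3)) .nil)) (.cons (.rf (nat_lit 88) (nat_lit 236759063914239592480)) .nil)))) (.cons (.ev (nat_lit 4740885566016664371201) (nat_lit 1)) .nil)))))) .nil)) (.cons (.br (nat_lit 8) (nat_lit 1) (.cons (.br (nat_lit 1) (nat_lit 1) (.cons (.br (nat_lit 12) (nat_lit 1) (.cons (.br (nat_lit 13) (nat_lit 1) (.cons (.ev (nat_lit 20838870933273425047068541781764) (nat_lit 3)) .nil)) (.cons (.rf (nat_lit 36) (nat_lit 492740319816158644384)) (.cons (.rf (nat_lit 153) (nat_lit 458117734399593253024)) .nil)))) (.cons (.br (nat_lit 13) (nat_lit 1) (.cons (.zr (nat_lit 36893488156026011648) (nat_lit 310698658007724042521412097) (nat_lit 5) (nat_lit 6)) (.cons (.ev (nat_lit 20282719088679938794568974074113) (nat_lit 1)) (.cons (.rf (nat_lit 152) (nat_lit 458117734399593253024)) .nil)))) (.cons (.ev (nat_lit 1213648258155097169592321)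 (nat_lit 1)) (.cons (.br (nat_lit 13) (nat_lit 1) (.cons (.zr (nat_lit 36893488147419300608) (nat_lit 310698658007724046833156097) (nat_lit 5) (nat_lit 0)) (.cons (.rf (nat_lit 250) (nat_lit 493815515540412958944)) (.cons (.ev (nat_lit 20282719088679938794564662329601) (nat_lit 1)) .nil)))) (.cons (.br (nat_lit 2) (nat_lit 1) (.cons (.zr (nat_lit 36893488156009235200) (nat_lit 310698658007724042588520449) (nat_lit 5) (nat_lit 0)) (.cons (.ev (nat_lit 309485009893684142051229953) (nat_lit 1)) (.cons (.zr (nat_lit 36893488147419300608) (nat_lit 310698658007724046833156097) (nat_lit 5) (nat_lit 0)) .nil)))) .nil)))))) .nil)) .nil))) .nil))),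
 (.br (nat_lit 5) (nat_lit 1) (.cons (.kr (nat_lit 20282409603651742481541289214208) (nat_lit 79228162514264338693055643648) (nat_lit 1) (nat_lit 0)) .nil)),
 (.br (nat_lit 11) (nat_lit 1) (.cons (.rf (nat_lit 264) (nat_lit 493858305440582043680)) (.cons (.br (nat_lit 9) (nat_lit 1) (.cons (.rf (nat_lit 264) (nat_lit 493786318215288293408)) (.cons (.br (nat_lit 8) (nat_lit 1) (.cons (.br (nat_lit 10) (nat_lit 1) (.cons (.br (nat_lit 1) (nat_lit 1) (.cons (.br (nat_lit 13) (nat_lit 1) (.cons (.rf (nat_lit 3) (nat_lit 421253521673891874016)) (.cons (.br (nat_lit 5) (nat_lit 1) (.cons (.ev (nat_lit 20838870933273425047068541781764) (nat_lit 3)) .nil)) (.cons (.rf (nat_lit 265) (nat_lit 493858305440582043680)) .nil)))) (.cons (.br (nat_lit 12) (nat_lit 1) (.cons (.rf (nat_lit 49) (nat_lit 455883953382493361184)) (.cons (.kr (nat_lit 18446744078004519168) (nat_lit 79228162514264338693072355328) (nat_lit 1) (nat_lit 0)) (.cons (.rf (nat_lit 13) (nat_lit 163006985941306049760)) .nil)))) (.cons (.ev (nat_lit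 1208944338416296922185729) (nat_lit 1)) (.cons (.br (nat_lit 7) (nat_lit 1) (.cons (.rf (nat_lit 39) (nat_lit 455882645994452878560)) (.cons (.kr (nat_lit 18446744073709551872) (nat_lit 79228162514264338693055578112) (nat_lit 1) (nat_lit 0)) (.cons (.ev (nat_lit 20282719093383858533364909736193) (nat_lit 1)) .nil)))) (.cons (.br (nat_lit 2) (nat_lit 1) (.cons (.zr (nat_lit 36893488156009235200) (nat_lit 310698658007724042588520449) (nat_lit 5) (nat_lit 0)) (.cons (.ev (nat_lit 309489750706911081094250753) (nat_lit 1)) (.cons (.zr (nat_lit 36893488147419300608) (nat_lit 310698658007724046833156097) (nat_lit 5) (nat_lit 0)) .nil)))) .nil)))))) .nil)) .nil)) .nil))) .nil))),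
 (.br (nat_lit 13) (nat_lit 0) (.cons (.br (nat_lit 13) (nat_lit 1) (.cons (.ev (nat_lit 20282719088679938513093980586241) (nat_lit 1)) (.cons (.br (nat_lit 1) (nat_lit 1) (.cons (.ev (nat_lit 20282719088679938794568974074113) (nat_lit 1)) (.cons (.br (nat_lit 12) (nat_lit 1) (.cons (.ev (nat_lit 20520715488510550945731369305860) (nat_lit 3)) .nil)) (.cons (.ev (nat_lit 20282719088679938794564662329601) (nat_lit 1)) .nil)))) (.cons (.br (nat_lit 2) (nat_lit 1) (.cons (.ev (nat_lit 20282719088679938794568974074113) (nat_lit 1)) (.cons (.ev (nat_lit 4740885566016664371201) (nat_lit 1)) (.cons (.ev (nat_lit 20361947251175756107709048422401) (nat_lit 1)) .nil)))) (.cons (.br (nat_lit 2) (nat_lit 1) (.cons (.ev (nat_lit 20282409608374036906821208309761) (nat_lit 1)) (.cons (.kr (nat_lit 2417851639229258349477888) (nat_lit 20282409603670189225614998765568) (nat_lit 2) (nat_lit 0)) (.cons (.kr (nat_lit 2417851639229258366255104) (nat_lit 20282409603670189225619293732864) (nat_lit 2) (nat_lit 0)) .nil))))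 (.cons (.br (nat_lit 2) (nat_lit 1) (.cons (.ev (nat_lit 20282719088679938794564662329601) (nat_lit 1)) (.cons (.ev (nat_lit 20361947251175756107713326612481) (nat_lit 1)) (.cons (.ev (nat_lit 4740885566016664371201) (nat_lit 1)) .nil)))) .nil)))))) .nil)),
 (.br (nat_lit 13) (nat_lit 0) (.cons (.br (nat_lit 11) (nat_lit 1) (.cons (.br (nat_lit 2) (nat_lit 1) (.cons (.br (nat_lit 7) (nat_lit 1) (.cons (.br (nat_lit 12) (nat_lit 1) (.cons (.ev (nat_lit 20680412162059346473573838685956) (nat_lit 3)) .nil)) (.cons (.br (nat_lit 13) (nat_lit 1) (.cons (.ev (nat_lit 20680412162059346473556591707908) (nat_lit 3)) .nil)) (.cons (.ev (nat_lit 20283028583171602766302260953090) (nat_lit 2)) .nil)))) (.cons (.br (nat_lit 13) (nat_lit 1) (.cons (.zr (nat_lit 618970019642690137449759488) (nat_lit 1213666633123051817926657) (nat_lit 5) (nat_lit 0)) (.cons (.ev (nat_lit 20282409608374037188296168243201) (nat_lit 1)) (.cons (.br (nat_lit 1) (nat_lit 1) (.cons (.ev (nat_lit 20838863670310956112077740507396) (nat_lit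 3)) .nil)) .nil)))) (.cons (.ev (nat_lit 4740885566016664371201) (nat_lit 1)) (.cons (.br (nat_lit 13) (nat_lit 1) (.cons (.zr (nat_lit 618970019642690137483313920) (nat_lit 1213666633123064686051329) (nat_lit 5) (nat_lit 0)) (.cons (.br (nat_lit 7) (nat_lit 1) (.cons (.ev (nat_lit 20838863670310956112052071366916) (nat_lit 3)) .nil)) (.cons (.ev (nat_lit 20282409608374037188291890053121) (nat_lit 1)) .nil)))) (.cons (.br (nat_lit 1) (nat_lit 1) (.cons (.zr (nat_lit 618970019642690137449759488) (nat_lit 1213666633123051817926657) (nat_lit 5) (nat_lit 0)) (.cons (.ev (nat_lit 1208925891672223229477121) (nat_lit 1)) (.cons (.zr (nat_lit 618970019642690141778280448) (nat_lit 1213666633123047506182657) (nat_lit 5) (nat_lit 6)) .nil)))) .nil)))))) .nil)) (.cons (.br (nat_lit 7) (nat_lit 0) (.cons (.br (nat_lit 13) (nat_lit 1) (.cons (.ev (nat_lit 20282409608392483650894901018881) (nat_lit 1)) (.cons (.ev (nat_lit 20282410812577490320051419545601) (nat_lit 1)) (.cons (.br (nat_lit 7) (nat_lit 1) (.cons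 (.br (nat_lit 2) (nat_lit 1) (.cons (.zr (nat_lit 618970019642690137483313920) (nat_lit 1213666633123064686051329) (nat_lit 5) (nat_lit 0)) .nil)) (.cons (.br (nat_lit 1) (nat_lit 1) (.cons (.zr (nat_lit 618970019642690141778280448) (nat_lit 1213666633123047506182657) (nat_lit 5) (nat_lit 6)) .nil)) (.cons (.ev (nat_lit 1208944338697776193863681) (nat_lit 1)) .nil)))) (.cons (.br (nat_lit 2) (nat_lit 1) (.cons (.br (nat_lit 5) (nat_lit 1) (.cons (.ev (nat_lit 20521951020253899320229701550340) (nat_lit 3)) .nil)) (.cons (.rf (nat_lit 198) (nat_lit 14315017118171629600)) (.cons (.rf (nat_lit 259) (nat_lit 15431909825759512608)) .nil)))) (.cons (.br (nat_lit 5) (nat_lit 1) (.cons (.rf (nat_lit 222) (nat_lit 493858199890687002656)) (.cons (.rf (nat_lit 223) (nat_lit 493858199890687002656)) (.cons (.ev (nat_lit 1208944338697771915673601) (nat_lit 1)) .nil)))) .nil)))))) .nil)) .nil))),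
 (.br (nat_lit 10) (nat_lit 1) (.cons (.rf (nat_lit 266) (nat_lit 493858305440582043680)) (.cons (.br (nat_lit 2) (nat_lit 0) (.cons (.br (nat_lit 11) (nat_lit 1) (.cons (.rf (nat_lit 267) (nat_lit 493858305440582043680)) (.cons (.br (nat_lit 9) (nat_lit 1) (.cons (.rf (nat_lit 267) (nat_lit 493786318215288293408)) .nil)) .nil))) (.cons (.rf (nat_lit 268) (nat_lit 493858305440582043680)) (.cons (.rf (nat_lit 268) (nat_lit 493786318215288293408)) .nil)))) .nil))),
 (.br (nat_lit 12) (nat_lit 0) (.cons (.rf (nat_lit 248) (nat_lit 493858305440582043680)) (.cons (.br (nat_lit 11) (nat_lit 1) (.cons (.rf (nat_lit 255) (nat_lit 493858305440582043680)) (.cons (.rf (nat_lit 262) (nat_lit 493858305440582043680)) (.cons (.br (nat_lit 11) (nat_lit 1) (.cons (.rf (nat_lit 255) (nat_lit 493858305440582043680)) (.cons (.rf (nat_lit 262) (nat_lit 493858305440582043680)) .nil))) .nil)))) (.cons (.br (nat_lit 10) (nat_lit 1) (.cons (.rf (nat_lit 266) (nat_lit 493858305440582043680)) (.cons (.rf (nat_lit 269) (nat_lit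 493858305440582043680)) (.cons (.br (nat_lit 10) (nat_lit 1) (.cons (.rf (nat_lit 266) (nat_lit 493858305440582043680)) (.cons (.rf (nat_lit 269) (nat_lit 493858305440582043680)) .nil))) .nil)))) .nil))))]

theorem c8 : chkAll C T R L8 (nat_lit 256) = true := by decide +kernel

theorem l8 : (nat_lit 256) + L8.length = (nat_lit 271) := by decide +kernel

/-- part of the certificates -/
def L9 : List Prf := [(.br (nat_lit 4) (nat_lit 1) (.cons (.rf (nat_lit 119) (nat_lit 247031010336)) (.cons (.br (nat_lit 6) (nat_lit 1) (.cons (.rf (nat_lit 119) (nat_lit 178479302688)) (.cons (.br (nat_lit 10) (nat_lit 1) (.cons (.rf (nat_lit 160) (nat_lit 14242959524133701664)) (.cons (.rf (nat_lit 172) (nat_lit 14242959524133701664)) (.cons (.rf (nat_lit 179) (nat_lit 14242959524133701664)) (.cons (.br (nat_lit 10) (nat_lit 1) (.cons (.rf (nat_lit 160) (nat_lit 14242959524133701664)) (.cons (.rf (nat_lit 172) (nat_lit 14242959524133701664)) (.cons (.rf (nat_lit 179) (nat_lit 14242959524133701664)) .nil)))) .nil)))))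 .nil))) (.cons (.br (nat_lit 6) (nat_lit 1) (.cons (.br (nat_lit 11) (nat_lit 1) (.cons (.rf (nat_lit 192) (nat_lit 14242959524133701664)) (.cons (.rf (nat_lit 192) (nat_lit 14242959352335014944)) (.cons (.rf (nat_lit 196) (nat_lit 14242959524133701664)) (.cons (.br (nat_lit 11) (nat_lit 1) (.cons (.rf (nat_lit 192) (nat_lit 14242959524133701664)) (.cons (.rf (nat_lit 192) (nat_lit 14242959352335014944)) (.cons (.rf (nat_lit 196) (nat_lit 14242959524133701664)) .nil)))) .nil))))) (.cons (.br (nat_lit 10) (nat_lit 1) (.cons (.rf (nat_lit 211) (nat_lit 14242959524133701664)) (.cons (.rf (nat_lit 227) (nat_lit 14242959524133701664)) (.cons (.rf (nat_lit 234) (nat_lit 14242959524133701664)) (.cons (.br (nat_lit 10) (nat_lit 1) (.cons (.rf (nat_lit 211) (nat_lit 14242959524133701664)) (.cons (.rf (nat_lit 227) (nat_lit 14242959524133701664)) (.cons (.rf (nat_lit 234) (nat_lit 14242959524133701664)) .nil)))) .nil))))) (.cons (.br (nat_lit 12) (nat_lit 0) (.cons (.rf (nat_lit 248) (nat_lit 493858305440582043680))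 (.cons (.rf (nat_lit 270) (nat_lit 493858305440582043680)) (.cons (.br (nat_lit 12) (nat_lit 0) (.cons (.rf (nat_lit 248) (nat_lit 493858305440582043680)) (.cons (.rf (nat_lit 270) (nat_lit 493858305440582043680)) (.cons (.rf (nat_lit 270) (nat_lit 493786318215288293408)) .nil)))) (.cons (.rf (nat_lit 270) (nat_lit 493786318215288293408)) .nil))))) .nil)))) .nil)))),
 (.br (nat_lit 13) (nat_lit 0) (.cons (.br (nat_lit 2) (nat_lit 1) (.cons (.br (nat_lit 13) (nat_lit 1) (.cons (.zr (nat_lit 60847538305409565582654064034560) (nat_lit 1208944267203127831298049) (nat_lit 5) (nat_lit 8)) (.cons (.ev (nat_lit 309485028340428215743938561) (nat_lit 1)) (.cons (.zr (nat_lit 60847538305409565582649802621696) (nat_lit 1208944267203136404455425) (nat_lit 5) (nat_lit 8)) .nil)))) (.cons (.ev (nat_lit 4740813508418348318721) (nat_lit 1)) (.cons (.zr (nat_lit 1208962929275567297527808) (nat_lit 309489732188109413363613697) (nat_lit 5) (nat_lit 9)) (.cons (.ev (nat_lit 4740813508422626508801) (nat_lit 1)) (.cons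 (.br (nat_lit 1) (nat_lit 1) (.cons (.zr (nat_lit 60847538305409565582649769067264) (nat_lit 1208944266640182172844033) (nat_lit 5) (nat_lit 8)) (.cons (.ev (nat_lit 309485028340146736472260609) (nat_lit 1)) (.cons (.zr (nat_lit 309494454554310812343926784) (nat_lit 40564820416247607488072363540993) (nat_lit 5) (nat_lit 10)) .nil)))) .nil)))))) .nil)),
 (.br (nat_lit 11) (nat_lit 1) (.cons (.br (nat_lit 4) (nat_lit 1) (.cons (.br (nat_lit 13) (nat_lit 0) (.cons (.br (nat_lit 5) (nat_lit 1) (.cons (.br (nat_lit 13) (nat_lit 1) (.cons (.ev (nat_lit 4740813508422626508801) (nat_lit 1)) (.cons (.ev (nat_lit 309485028340428215743938561) (nat_lit 1)) (.cons (.ev (nat_lit 79537652246452447006890656001) (nat_lit 1)) .nil)))) (.cons (.ev (nat_lit 4740813508418348318721) (nat_lit 1)) (.cons (.ev (nat_lit 309485028340428211465748481) (nat_lit 1)) (.cons (.br (nat_lit 13) (nat_lit 1) (.cons (.ev (nat_lit 79537652246452447006890656001) (nat_lit 1)) (.cons (.ev (nat_lit 4740813508422626508801) (nat_lit 1)) (.cons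 (.ev (nat_lit 309485028340428215743938561) (nat_lit 1)) .nil)))) (.cons (.br (nat_lit 2) (nat_lit 1) (.cons (.br (nat_lit 12) (nat_lit 1) (.cons (.ev (nat_lit 20837009168621753705955227535108) (nat_lit 3)) .nil)) (.cons (.ev (nat_lit 20282719093383930310579187679233) (nat_lit 1)) (.cons (.br (nat_lit 1) (nat_lit 1) (.cons (.ev (nat_lit 20837009168621753143013864048388) (nat_lit 3)) .nil)) .nil)))) .nil)))))) .nil)) .nil)) (.cons (.br (nat_lit 12) (nat_lit 0) (.cons (.rf (nat_lit 272) (nat_lit 493858305440582043680)) (.cons (.br (nat_lit 13) (nat_lit 0) (.cons (.rf (nat_lit 272) (nat_lit 458045751400677350432)) .nil)) .nil))) .nil))),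
 (.br (nat_lit 9) (nat_lit 1) (.cons (.rf (nat_lit 273) (nat_lit 493858305440582043680)) (.cons (.rf (nat_lit 273) (nat_lit 458117738797769787424)) .nil))),
 (.br (nat_lit 13) (nat_lit 1) (.cons (.ev (nat_lit 20282720297587311665124439228673) (nat_lit 1)) (.cons (.rf (nat_lit 79) (nat_lit 421154341504180914208)) (.cons (.rf (nat_lit 80) (nat_lit 421154341504180914208)) .nil)))),
 (.br (nat_lit 2) (nat_lit 1) (.cons (.kr (nat_lit 20282409603651742481541289214208) (nat_lit 79228162514264338693055643648) (nat_lit 1) (nat_lit 0)) .nil)),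
 (.br (nat_lit 11) (nat_lit 1) (.cons (.br (nat_lit 13) (nat_lit 0) (.cons (.br (nat_lit 7) (nat_lit 1) (.cons (.rf (nat_lit 275) (nat_lit 493858305440582043680)) (.cons (.kr (nat_lit 65536) (nat_lit 72057594037927936) (nat_lit 2) (nat_lit 0)) (.cons (.br (nat_lit 2) (nat_lit 1) (.cons (.rf (nat_lit 275) (nat_lit 493858305268783356960)) (.cons (.ev (nat_lit 79538856449905298395250032641) (nat_lit 1)) (.cons (.rf (nat_lit 188) (nat_lit 493857073991853901856)) .nil)))) (.cons (.br (nat_lit 2) (nat_lit 1) (.cons (.rf (nat_lit 188) (nat_lit 458116502779066424480)) (.cons (.ev (nat_lit 79538856449905298395250032641) (nat_lit 1)) (.cons (.rf (nat_lit 82) (nat_lit 421154341504180914208)) .nil)))) (.cons (.br (nat_lit 2) (nat_lit 1) (.cons (.ev (nat_lit 20282720297587311665124439228673) (nat_lit 1)) (.cons (.rf (nat_lit 188) (nat_lit 493857073820055215136)) (.cons (.rf (nat_lit 82) (nat_lit 421154341332382227488)) .nil)))) .nil)))))) .nil)) (.cons (.br (nat_lit 7) (nat_lit 0) (.cons (.br (nat_lit 7) (nat_lit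 1) (.cons (.ev (nat_lit 1208944338416296922185729) (nat_lit 1)) (.cons (.br (nat_lit 13) (nat_lit 1) (.cons (.ev (nat_lit 20282719098124672323266807922946) (nat_lit 2)) (.cons (.rf (nat_lit 1) (nat_lit 346357426191890385056)) (.cons (.rf (nat_lit 13) (nat_lit 420142150686914906272)) .nil)))) (.cons (.br (nat_lit 12) (nat_lit 1) (.cons (.rf (nat_lit 0) (nat_lit 346357426191890385056)) (.cons (.ev (nat_lit 4740813508422626508801) (nat_lit 1)) (.cons (.rf (nat_lit 12) (nat_lit 420142150686914906272)) .nil)))) (.cons (.br (nat_lit 5) (nat_lit 1) (.cons (.rf (nat_lit 1) (nat_lit 347466445323495539936)) (.cons (.ev (nat_lit 4740813508418348318721) (nat_lit 1)) (.cons (.rf (nat_lit 276) (nat_lit 493858305440582043680)) .nil)))) (.cons (.ev (nat_lit 1208944338697776193863681) (nat_lit 1)) .nil)))))) .nil)) .nil))),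
 (.br (nat_lit 13) (nat_lit 0) (.cons (.rf (nat_lit 277) (nat_lit 458117738797769787424)) (.cons (.br (nat_lit 7) (nat_lit 0) (.cons (.br (nat_lit 12) (nat_lit 1) (.cons (.br (nat_lit 7) (nat_lit 1) (.cons (.br (nat_lit 13) (nat_lit 1) (.cons (.ev (nat_lit 20837006760214846316519081838340) (nat_lit 3)) .nil)) (.cons (.ev (nat_lit 1208944338417396433813761) (nat_lit 1)) (.cons (.br (nat_lit 2) (nat_lit 1) (.cons (.ev (nat_lit 20837006760214846316527638218500) (nat_lit 3)) .nil)) .nil)))) (.cons (.ev (nat_lit 4740813508422626508801) (nat_lit 1)) (.cons (.br (nat_lit 2) (nat_lit 1) (.cons (.ev (nat_lit 79538856449905578766420148481) (nat_lit 1)) (.cons (.rf (nat_lit 39) (nat_lit 453573565890932577504)) (.cons (.rf (nat_lit 254) (nat_lit 457828272366612190272)) .nil)))) (.cons (.br (nat_lit 1) (nat_lit 1) (.cons (.ev (nat_lit 79538856449905578770731892993) (nat_lit 1)) (.cons (.rf (nat_lit 1) (nat_lit 347470948922988565728)) (.cons (.rf (nat_lit 276) (nat_lit 458001766503234737216)) .nil)))) (.cons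 (.br (nat_lit 2) (nat_lit 1) (.cons (.ev (nat_lit 40644977038550595831893491647234) (nat_lit 2)) (.cons (.rf (nat_lit 265) (nat_lit 458037689749284918336)) (.cons (.rf (nat_lit 13) (nat_lit 420142155222400239648)) .nil)))) .nil)))))) .nil)) .nil))),
 (.br (nat_lit 9) (nat_lit 1) (.cons (.rf (nat_lit 274) (nat_lit 493858305440582043680)) (.cons (.br (nat_lit 12) (nat_lit 0) (.cons (.rf (nat_lit 277) (nat_lit 493858305440582043680)) (.cons (.rf (nat_lit 278) (nat_lit 493858305440582043680)) (.cons (.br (nat_lit 13) (nat_lit 0) (.cons (.rf (nat_lit 277) (nat_lit 458117738797769787424)) (.cons (.rf (nat_lit 278) (nat_lit 458117738797769787424)) .nil))) .nil)))) .nil))),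
 (.br (nat_lit 9) (nat_lit 1) (.cons (.rf (nat_lit 274) (nat_lit 493858305440582043680)) (.cons (.rf (nat_lit 279) (nat_lit 493858305440582043680)) (.cons (.rf (nat_lit 279) (nat_lit 458117738797769787424)) .nil)))),
 (.br (nat_lit 7) (nat_lit 1) (.cons (.ev (nat_lit 1208944338416296922185729) (nat_lit 1)) (.cons (.rf (nat_lit 8) (nat_lit 420142155283409540160)) (.cons (.rf (nat_lit 9) (nat_lit 420142155283409540160)) .nil)))),
 (.br (nat_lit 8) (nat_lit 1) (.cons (.br (nat_lit 12) (nat_lit 1) (.cons (.br (nat_lit 7) (nat_lit 1) (.cons (.rf (nat_lit 8) (nat_lit 420142157316130708512)) (.cons (.rf (nat_lit 8) (nat_lit 420142155222232472608)) (.cons (.ev (nat_lit 20282719093383858533364909736193) (nat_lit 1)) .nil)))) (.cons (.rf (nat_lit 281) (nat_lit 493858305440582043680)) (.cons (.rf (nat_lit 281) (nat_lit 493856055839689937952)) (.cons (.br (nat_lit 1) (nat_lit 1) (.cons (.rf (nat_lit 8) (nat_lit 420142150713698682080)) (.cons (.rf (nat_lit 8) (nat_lit 420142149718237316320)) (.cons (.ev (nat_lit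 79537652246452447011202400513) (nat_lit 1)) .nil)))) (.cons (.kr (nat_lit 79228162514264337593543950336) (nat_lit 20282409603651670423947251286016) (nat_lit 12) (nat_lit 0)) .nil)))))) .nil)),
 (.br (nat_lit 9) (nat_lit 1) (.cons (.rf (nat_lit 280) (nat_lit 493786318215288293408)) (.cons (.rf (nat_lit 280) (nat_lit 493786318043489606688)) (.cons (.br (nat_lit 4) (nat_lit 1) (.cons (.rf (nat_lit 282) (nat_lit 493858305440582043680)) (.cons (.rf (nat_lit 282) (nat_lit 493858305268783356960)) .nil))) .nil)))),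
 (.br (nat_lit 11) (nat_lit 1) (.cons (.rf (nat_lit 280) (nat_lit 493858305440582043680)) (.cons (.rf (nat_lit 280) (nat_lit 493858305268783356960)) (.cons (.br (nat_lit 9) (nat_lit 1) (.cons (.rf (nat_lit 280) (nat_lit 493786318215288293408)) (.cons (.rf (nat_lit 280) (nat_lit 493786318043489606688)) (.cons (.rf (nat_lit 283) (nat_lit 493858305440582043680)) (.cons (.rf (nat_lit 283) (nat_lit 458117738797769787424)) .nil))))) .nil)))),
 (.br (nat_lit 11) (nat_lit 1) (.cons (.rf (nat_lit 280) (nat_lit 493858305440582043680)) (.cons (.rf (nat_lit 280) (nat_lit 493858305268783356960)) (.cons (.rf (nat_lit 284) (nat_lit 493858305440582043680)) (.cons (.rf (nat_lit 284) (nat_lit 458117738797769787424)) .nil))))),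
 (.br (nat_lit 11) (nat_lit 1) (.cons (.ev (nat_lit 310698676454186641254318081) (nat_lit 1)) .nil)),
 (.br (nat_lit 13) (nat_lit 1) (.cons (.ev (nat_lit 20282410817299856521446087983361) (nat_lit 1)) (.cons (.zr (nat_lit 40802503694846133860683724423168) (nat_lit 311907583827338671712894977) (nat_lit 5) (nat_lit 6)) (.cons (.zr (nat_lit 40802503694846133860675151265792) (nat_lit 311907583827338671696117761) (nat_lit 5) (nat_lit 6)) .nil)))),
 (.br (nat_lit 7) (nat_lit 1) (.cons (.rf (nat_lit 35) (nat_lit 452420757771481384992)) (.cons (.br (nat_lit 13) (nat_lit 1) (.cons (.zr (nat_lit 216176080682418176) (nat_lit 310698676454468120525931265) (nat_lit 5) (nat_lit 0)) .nil)) (.cons (.kr (nat_lit 20282409603651670423947251286528) (nat_lit 72058693566332928) (nat_lit 1) (nat_lit 0)) .nil)))),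
 (.br (nat_lit 7) (nat_lit 1) (.cons (.ev (nat_lit 21158269153816623983404931550984) (nat_lit 4)) .nil)),
 (.br (nat_lit 10) (nat_lit 1) (.cons (.ev (nat_lit 310698676454186641254318081) (nat_lit 1)) .nil)),
 (.br (nat_lit 7) (nat_lit 1) (.cons (.kr (nat_lit 20361637766165934761540795237120) (nat_lit 72058693583175680) (nat_lit 1) (nat_lit 0)) .nil)),
 (.br (nat_lit 1) (nat_lit 1) (.cons (.rf (nat_lit 291) (nat_lit 493858305440582043680)) (.cons (.br (nat_lit 13) (nat_lit 1) (.cons (.zr (nat_lit 216176089238798336) (nat_lit 310698676454468116247741185) (nat_lit 5) (nat_lit 0)) .nil)) (.cons (.ev (nat_lit 20282719093383858251885638058241) (nat_lit 1)) .nil)))),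
 (.br (nat_lit 12) (nat_lit 1) (.cons (.kr (nat_lit 20361637766165934762648896798976) (nat_lit 72620544024969216) (nat_lit 1) (nat_lit 0)) .nil)),
 (.br (nat_lit 7) (nat_lit 1) (.cons (.ev (nat_lit 20282720297587311384748957368321) (nat_lit 1)) .nil)),
 (.br (nat_lit 9) (nat_lit 1) (.cons (.br (nat_lit 11) (nat_lit 1) (.cons (.br (nat_lit 8) (nat_lit 1) (.cons (.br (nat_lit 4) (nat_lit 1) (.cons (.br (nat_lit 7) (nat_lit 1) (.cons (.br (nat_lit 2) (nat_lit 1) (.cons (.ev (nat_lit 4740813508418348318721) (nat_lit 1)) (.cons (.zr (nat_lit 237685696505506115557225661184) (nat_lit 309489732188109417658580993) (nat_lit 5) (nat_lit 9)) (.cons (.ev (nat_lit 4740813508422626508801) (nat_lit 1)) .nil)))) (.cons (.br (nat_lit 5) (nat_lit 1) (.cons (.br (nat_lit 12) (nat_lit 1) (.cons (.ev (nat_lit 79537647542532708215266738433) (nat_lit 1)) .nil)) (.cons (.br (nat_lit 13) (nat_lit 1) (.cons (.ev (nat_lit 79537647542532708215266738433) (nat_lit 1)) .nil)) (.cons (.ev (nat_lit 20282719088680010571787530207233)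 (nat_lit 1)) .nil)))) (.cons (.ev (nat_lit 309489732260167011679600641) (nat_lit 1)) (.cons (.br (nat_lit 2) (nat_lit 1) (.cons (.zr (nat_lit 237685696505506115561520628480) (nat_lit 309489732188672363317035009) (nat_lit 5) (nat_lit 9)) (.cons (.ev (nat_lit 4740813508418348318721) (nat_lit 1)) (.cons (.ev (nat_lit 4740813508422626508801) (nat_lit 1)) .nil)))) (.cons (.ev (nat_lit 309489732260167007401410561) (nat_lit 1)) .nil)))))) .nil)) .nil)) (.cons (.br (nat_lit 4) (nat_lit 1) (.cons (.br (nat_lit 13) (nat_lit 0) (.cons (.br (nat_lit 2) (nat_lit 1) (.cons (.br (nat_lit 12) (nat_lit 1) (.cons (.rf (nat_lit 286) (nat_lit 482283501406816288)) (.cons (.rf (nat_lit 286) (nat_lit 482283501339772960)) (.cons (.ev (nat_lit 20521023769335293279258779189250) (nat_lit 2)) .nil)))) (.cons (.ev (nat_lit 4740813508418348318721) (nat_lit 1)) (.cons (.ev (nat_lit 4740813508422626508801) (nat_lit 1)) (.cons (.rf (nat_lit 287) (nat_lit 493858305440582043680)) (.cons (.rf (nat_lit 287) (nat_lit 458082801747143821344))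 .nil)))))) .nil)) (.cons (.br (nat_lit 7) (nat_lit 0) (.cons (.br (nat_lit 1) (nat_lit 1) (.cons (.br (nat_lit 7) (nat_lit 1) (.cons (.zr (nat_lit 216735732067401728) (nat_lit 310698676454186645565997057) (nat_lit 5) (nat_lit 0)) (.cons (.ev (nat_lit 79229376162522492686418641153) (nat_lit 1)) (.cons (.zr (nat_lit 216735732100956160) (nat_lit 310698676454186658434121729) (nat_lit 5) (nat_lit 0)) .nil)))) (.cons (.br (nat_lit 13) (nat_lit 1) (.cons (.zr (nat_lit 60847538305409565585948303949824) (nat_lit 1208944266640182172844033) (nat_lit 5) (nat_lit 8)) (.cons (.zr (nat_lit 2417870302146118501269504) (nat_lit 40565128697035528959506872532993) (nat_lit 5) (nat_lit 9)) (.cons (.ev (nat_lit 79537647542532708215266738433) (nat_lit 1)) .nil)))) (.cons (.br (nat_lit 12) (nat_lit 1) (.cons (.ev (nat_lit 79229376162522492686418641153) (nat_lit 1)) (.cons (.zr (nat_lit 238303462284802185792021594880) (nat_lit 1208944411318315907022849) (nat_lit 5) (nat_lit 10)) (.cons (.zr (nat_lit 618974742225908739195535360)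 (nat_lit 158457533972795033898562093569) (nat_lit 5) (nat_lit 8)) .nil)))) (.cons (.ev (nat_lit 79537647542532426740273250561) (nat_lit 1)) (.cons (.br (nat_lit 2) (nat_lit 1) (.cons (.zr (nat_lit 60847538305409565585948320727040) (nat_lit 1208944266640190746001409) (nat_lit 5) (nat_lit 8)) (.cons (.ev (nat_lit 4740813508422626508801) (nat_lit 1)) (.cons (.zr (nat_lit 237685696505506115557225661184) (nat_lit 309489732188109417658580993) (nat_lit 5) (nat_lit 9)) .nil)))) .nil)))))) .nil)) .nil))) .nil))) (.cons (.br (nat_lit 7) (nat_lit 0) (.cons (.br (nat_lit 11) (nat_lit 1) (.cons (.br (nat_lit 8) (nat_lit 1) (.cons (.br (nat_lit 1) (nat_lit 1) (.cons (.ev (nat_lit 4740813226943354830849) (nat_lit 1)) (.cons (.rf (nat_lit 288) (nat_lit 493858305440582043680)) (.cons (.rf (nat_lit 288) (nat_lit 493823368389956077600)) (.cons (.br (nat_lit 13) (nat_lit 1) (.cons (.ev (nat_lit 20282720297587311665124439228673) (nat_lit 1)) (.cons (.rf (nat_lit 250) (nat_lit 458115375882728245472)) (.cons (.rf (nat_lit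 250) (nat_lit 458116502950865111200)) .nil)))) (.cons (.br (nat_lit 12) (nat_lit 1) (.cons (.ev (nat_lit 79228167255077846011875426561) (nat_lit 1)) (.cons (.rf (nat_lit 289) (nat_lit 493858305440582043680)) (.cons (.rf (nat_lit 289) (nat_lit 493823368389956077600)) .nil)))) .nil)))))) .nil)) (.cons (.br (nat_lit 8) (nat_lit 1) (.cons (.br (nat_lit 2) (nat_lit 1) (.cons (.br (nat_lit 13) (nat_lit 1) (.cons (.rf (nat_lit 290) (nat_lit 482283501406816288)) (.cons (.rf (nat_lit 290) (nat_lit 482283501339772960)) (.cons (.ev (nat_lit 20520407217167289818379679039490) (nat_lit 2)) .nil)))) (.cons (.ev (nat_lit 4740813508418348318721) (nat_lit 1)) (.cons (.ev (nat_lit 4740813508422626508801) (nat_lit 1)) (.cons (.rf (nat_lit 292) (nat_lit 493858305440582043680)) (.cons (.rf (nat_lit 292) (nat_lit 458082801747143821344)) .nil)))))) .nil)) .nil))) (.cons (.br (nat_lit 4) (nat_lit 1) (.cons (.br (nat_lit 11) (nat_lit 1) (.cons (.br (nat_lit 5) (nat_lit 1) (.cons (.br (nat_lit 2) (nat_lit 1) (.cons (.ev (nat_lit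 4740813508422626508801) (nat_lit 1)) (.cons (.br (nat_lit 13) (nat_lit 1) (.cons (.zr (nat_lit 216172782147534848) (nat_lit 310698676454468120525930497) (nat_lit 5) (nat_lit 0)) .nil)) (.cons (.br (nat_lit 7) (nat_lit 1) (.cons (.zr (nat_lit 216172782147534848) (nat_lit 310698676454468120525930497) (nat_lit 5) (nat_lit 0)) .nil)) .nil)))) (.cons (.br (nat_lit 7) (nat_lit 1) (.cons (.zr (nat_lit 216735732067401728) (nat_lit 310698676454186645565997057) (nat_lit 5) (nat_lit 0)) (.cons (.ev (nat_lit 79537652246524224225480343553) (nat_lit 1)) (.cons (.zr (nat_lit 216172790703915008) (nat_lit 310698676454468116247740417) (nat_lit 5) (nat_lit 0)) .nil)))) (.cons (.br (nat_lit 1) (nat_lit 1) (.cons (.zr (nat_lit 216735732067401728) (nat_lit 310698676454186645565997057) (nat_lit 5) (nat_lit 0)) (.cons (.rf (nat_lit 231) (nat_lit 458077024780920555744)) (.cons (.ev (nat_lit 20282719093383858251885638058241) (nat_lit 1)) .nil)))) (.cons (.ev (nat_lit 79229371458530697400234803201) (nat_lit 1)) (.cons (.br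 (nat_lit 2) (nat_lit 1) (.cons (.rf (nat_lit 293) (nat_lit 493858305440582043680)) (.cons (.ev (nat_lit 4740813508422626508801) (nat_lit 1)) (.cons (.br (nat_lit 7) (nat_lit 1) (.cons (.zr (nat_lit 216735732100956160) (nat_lit 310698676454186658434121729) (nat_lit 5) (nat_lit 0)) .nil)) .nil)))) .nil)))))) .nil)) (.cons (.br (nat_lit 11) (nat_lit 1) (.cons (.br (nat_lit 12) (nat_lit 1) (.cons (.br (nat_lit 5) (nat_lit 1) (.cons (.rf (nat_lit 294) (nat_lit 493858305440582043680)) (.cons (.br (nat_lit 2) (nat_lit 1) (.cons (.ev (nat_lit 79538856449977354889776398593) (nat_lit 1)) .nil)) (.cons (.br (nat_lit 2) (nat_lit 1) (.cons (.ev (nat_lit 20837006760215278662083309537028) (nat_lit 3)) .nil)) .nil)))) (.cons (.br (nat_lit 7) (nat_lit 1) (.cons (.ev (nat_lit 79228167255077846011875426561) (nat_lit 1)) (.cons (.zr (nat_lit 216172790703915008) (nat_lit 310698676454468116247740417) (nat_lit 5) (nat_lit 0)) (.cons (.zr (nat_lit 216172782147534848) (nat_lit 310698676454468120525930497) (nat_lit 5) (nat_lit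 0)) .nil)))) (.cons (.br (nat_lit 1) (nat_lit 1) (.cons (.kr (nat_lit 79228162514264337597838917888) (nat_lit 281474993553408) (nat_lit 1) (nat_lit 0)) (.cons (.br (nat_lit 2) (nat_lit 1) (.cons (.zr (nat_lit 216735732100956160) (nat_lit 310698676454186658434121729) (nat_lit 5) (nat_lit 0)) .nil)) (.cons (.rf (nat_lit 250) (nat_lit 458110872145796270304)) .nil)))) (.cons (.br (nat_lit 2) (nat_lit 1) (.cons (.ev (nat_lit 79228167255077846011875426561) (nat_lit 1)) (.cons (.zr (nat_lit 216172790703915008) (nat_lit 310698676454468116247740417) (nat_lit 5) (nat_lit 0)) (.cons (.zr (nat_lit 216172782147534848) (nat_lit 310698676454468120525930497) (nat_lit 5) (nat_lit 0)) .nil)))) (.cons (.rf (nat_lit 251) (nat_lit 458110872145796270304)) .nil)))))) .nil)) .nil))) (.cons (.br (nat_lit 4) (nat_lit 1) (.cons (.br (nat_lit 8) (nat_lit 1) (.cons (.br (nat_lit 7) (nat_lit 1) (.cons (.br (nat_lit 13) (nat_lit 1) (.cons (.ev (nat_lit 4740813508422626508801) (nat_lit 1)) (.cons (.rf (nat_lit 86) (nat_lit 383109058847148443808))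 (.cons (.rf (nat_lit 87) (nat_lit 310293725175236367424)) .nil)))) (.cons (.br (nat_lit 5) (nat_lit 1) (.cons (.rf (nat_lit 84) (nat_lit 347403394934074612768)) (.cons (.ev (nat_lit 79229376199344205814304931842) (nat_lit 2)) (.cons (.rf (nat_lit 85) (nat_lit 383109058847148443808)) .nil)))) (.cons (.ev (nat_lit 309489732260167011679600641) (nat_lit 1)) (.cons (.ev (nat_lit 309489732260167007401410561) (nat_lit 1)) (.cons (.br (nat_lit 2) (nat_lit 1) (.cons (.ev (nat_lit 4740813226943354830849) (nat_lit 1)) (.cons (.rf (nat_lit 86) (nat_lit 161712092307279676640)) (.cons (.rf (nat_lit 88) (nat_lit 347403394934074612768)) .nil)))) .nil)))))) .nil)) (.cons (.br (nat_lit 8) (nat_lit 1) (.cons (.br (nat_lit 2) (nat_lit 1) (.cons (.br (nat_lit 12) (nat_lit 1) (.cons (.rf (nat_lit 86) (nat_lit 347403394929649622176)) (.cons (.ev (nat_lit 309489732260167007401410561) (nat_lit 1)) (.cons (.rf (nat_lit 87) (nat_lit 347403394929649622176)) .nil)))) (.cons (.ev (nat_lit 4740813508418348318721) (nat_lit 1))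 (.cons (.br (nat_lit 5) (nat_lit 1) (.cons (.rf (nat_lit 84) (nat_lit 383109058851573434400)) (.cons (.rf (nat_lit 85) (nat_lit 347403394929649622176)) (.cons (.ev (nat_lit 20282410817336966464950126116866) (nat_lit 2)) .nil)))) (.cons (.br (nat_lit 7) (nat_lit 1) (.cons (.ev (nat_lit 309489732259885536719667201) (nat_lit 1)) (.cons (.rf (nat_lit 86) (nat_lit 162863887911074759744)) (.cons (.rf (nat_lit 88) (nat_lit 383109058851573434400)) .nil)))) (.cons (.ev (nat_lit 4740813508422626508801) (nat_lit 1)) .nil)))))) .nil)) .nil))) .nil)))) .nil)))]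

theorem c9 : chkAll C T R L9 (nat_lit 271) = true := by decide +kernel

theorem l9 : (nat_lit 271) + L9.length = (nat_lit 296) := by decide +kernel

/-- part of the certificates -/
def L10 : List Prf := [(.br (nat_lit 7) (nat_lit 1) (.cons (.ev (nat_lit 20282719093383858533360597991681) (nat_lit 1)) .nil)),
 (.br (nat_lit 12) (nat_lit 1) (.cons (.ev (nat_lit 79537647542532708215266738433) (nat_lit 1)) .nil)),
 (.br (nat_lit 1) (nat_lit 1) (.cons (.ev (nat_lit 79537647542532708215266738433) (nat_lit 1)) .nil)),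
 (.br (nat_lit 9) (nat_lit 1) (.cons (.rf (nat_lit 295) (nat_lit 493858305440582043680)) (.cons (.br (nat_lit 4) (nat_lit 1) (.cons (.br (nat_lit 13) (nat_lit 0) (.cons (.br (nat_lit 11) (nat_lit 1) (.cons (.br (nat_lit 2) (nat_lit 1) (.cons (.br (nat_lit 13) (nat_lit 1) (.cons (.ev (nat_lit 20282720297587311665120127484161) (nat_lit 1)) (.cons (.ev (nat_lit 20282720297587311665124439228673) (nat_lit 1)) (.cons (.ev (nat_lit 20441795606821029223140212015874) (nat_lit 2)) .nil)))) (.cons (.br (nat_lit 13) (nat_lit 1) (.cons (.rf (nat_lit 237) (nat_lit 451200209598330024992)) (.cons (.rf (nat_lit 3) (nat_lit 347473197536130500640)) (.cons (.zr (nat_lit 158765819483082985995119951872) (nat_lit 40564820416247607488072363540481) (nat_lit 5) (nat_lit 10)) .nil)))) (.cons (.br (nat_lit 13) (nat_lit 1) (.cons (.rf (nat_lit 238) (nat_lit 451200209598330024992)) (.cons (.rf (nat_lit 39) (nat_lit 490431025240259007712)) (.cons (.zr (nat_lit 158765819483082985995136729088) (nat_lit 40564820416247607488076658507777)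 (nat_lit 5) (nat_lit 10)) .nil)))) (.cons (.br (nat_lit 1) (nat_lit 1) (.cons (.zr (nat_lit 1208962713102785200717824) (nat_lit 158765814760716784600434606593) (nat_lit 5) (nat_lit 11)) (.cons (.zr (nat_lit 237685696505506115557225661184) (nat_lit 309489732188109417658580993) (nat_lit 5) (nat_lit 9)) (.cons (.ev (nat_lit 20361638979814120859043926966273) (nat_lit 1)) .nil)))) (.cons (.ev (nat_lit 4740813508422626508801) (nat_lit 1)) .nil)))))) .nil)) (.cons (.br (nat_lit 7) (nat_lit 0) (.cons (.br (nat_lit 2) (nat_lit 1) (.cons (.br (nat_lit 12) (nat_lit 1) (.cons (.zr (nat_lit 1208962713665726564204544) (nat_lit 158765814760716503129752863233) (nat_lit 5) (nat_lit 11)) (.cons (.zr (nat_lit 1208962713665730842394624) (nat_lit 158765814760716503125474673153) (nat_lit 5) (nat_lit 11)) (.cons (.ev (nat_lit 20361637766165934761545107046401) (nat_lit 1)) .nil)))) (.cons (.ev (nat_lit 4740813508418348318721) (nat_lit 1)) (.cons (.ev (nat_lit 4740813508422626508801) (nat_lit 1)) (.cons (.br (nat_lit 1)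 (nat_lit 1) (.cons (.rf (nat_lit 296) (nat_lit 493858305440582043680)) (.cons (.rf (nat_lit 296) (nat_lit 493858305371929675808)) (.cons (.zr (nat_lit 237685696505506115557225661184) (nat_lit 309489732188109417658580993) (nat_lit 5) (nat_lit 9)) .nil)))) (.cons (.br (nat_lit 5) (nat_lit 1) (.cons (.rf (nat_lit 297) (nat_lit 493858305440582043680)) (.cons (.br (nat_lit 1) (nat_lit 1) (.cons (.ev (nat_lit 20837014023214929885153194213636) (nat_lit 3)) .nil)) (.cons (.rf (nat_lit 298) (nat_lit 493858305440582043680)) .nil)))) .nil)))))) .nil)) .nil))) (.cons (.br (nat_lit 11) (nat_lit 1) (.cons (.br (nat_lit 8) (nat_lit 1) (.cons (.br (nat_lit 7) (nat_lit 1) (.cons (.ev (nat_lit 1213648258155097169592321) (nat_lit 1)) (.cons (.zr (nat_lit 309494454770483590162546688) (nat_lit 1208944266640182156066817) (nat_lit 5) (nat_lit 8)) (.cons (.br (nat_lit 2) (nat_lit 1) (.cons (.kr (nat_lit 18447025548686327808) (nat_lit 1208925891672227507601408) (nat_lit 2) (nat_lit 0)) (.cons (.kr (nat_lit 18446744073709617152)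 (nat_lit 1208925891672223212634112) (nat_lit 2) (nat_lit 0)) (.cons (.ev (nat_lit 4740813508422626508801) (nat_lit 1)) .nil)))) (.cons (.ev (nat_lit 1213648258436567851335681) (nat_lit 1)) (.cons (.br (nat_lit 2) (nat_lit 1) (.cons (.kr (nat_lit 18447025548686327808) (nat_lit 1208925891672223229411328) (nat_lit 2) (nat_lit 0)) (.cons (.ev (nat_lit 4740813508418348318721) (nat_lit 1)) (.cons (.kr (nat_lit 18446744078004584448) (nat_lit 1208925891672223229411328) (nat_lit 2) (nat_lit 0)) .nil)))) .nil)))))) .nil)) .nil)) .nil))) .nil))),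
 (.br (nat_lit 9) (nat_lit 1) (.cons (.rf (nat_lit 295) (nat_lit 493858305440582043680)) (.cons (.rf (nat_lit 299) (nat_lit 493858305440582043680)) (.cons (.br (nat_lit 9) (nat_lit 1) (.cons (.rf (nat_lit 295) (nat_lit 493858305440582043680)) (.cons (.rf (nat_lit 299) (nat_lit 493858305440582043680)) .nil))) .nil)))),
 (.br (nat_lit 5) (nat_lit 1) (.cons (.kr (nat_lit 20361637766165934761540795237120) (nat_lit 72058702139555840) (nat_lit 1) (nat_lit 0)) .nil)),
 (.br (nat_lit 7) (nat_lit 1) (.cons (.ev (nat_lit 1208944266641277389439233) (nat_lit 1)) (.cons (.rf (nat_lit 291) (nat_lit 493787340692280974368)) (.cons (.rf (nat_lit 301) (nat_lit 493858305440582043680)) .nil)))),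
 (.br (nat_lit 9) (nat_lit 1) (.cons (.br (nat_lit 13) (nat_lit 0) (.cons (.br (nat_lit 1) (nat_lit 1) (.cons (.rf (nat_lit 302) (nat_lit 493858305440582043680)) (.cons (.rf (nat_lit 302) (nat_lit 458043501971583931424)) (.cons (.br (nat_lit 12) (nat_lit 1) (.cons (.br (nat_lit 13) (nat_lit 1) (.cons (.ev (nat_lit 1208944266359806707695873) (nat_lit 1)) .nil)) (.cons (.br (nat_lit 13) (nat_lit 1) (.cons (.ev (nat_lit 1208944266359806707695873) (nat_lit 1)) .nil)) (.cons (.ev (nat_lit 20521023759927597916846427209730) (nat_lit 2)) .nil)))) (.cons (.ev (nat_lit 79228167255077564541193683201) (nat_lit 1)) (.cons (.ev (nat_lit 20282720297587311383645167550721) (nat_lit 1)) .nil)))))) .nil)) .nil)),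
 (.br (nat_lit 7) (nat_lit 1) (.cons (.rf (nat_lit 35) (nat_lit 491584058927364545568)) (.cons (.br (nat_lit 13) (nat_lit 1) (.cons (.zr (nat_lit 216176089238798336) (nat_lit 310698676454468116247741185) (nat_lit 5) (nat_lit 0)) .nil)) (.cons (.kr (nat_lit 20282409603651670423947251286272) (nat_lit 72057598332895232) (nat_lit 1) (nat_lit 0)) .nil)))),
 (.br (nat_lit 5) (nat_lit 1) (.cons (.ev (nat_lit 21158264337002809206817495649544) (nat_lit 4)) .nil)),
 (.br (nat_lit 13) (nat_lit 0) (.cons (.br (nat_lit 9) (nat_lit 1) (.cons (.br (nat_lit 2) (nat_lit 1) (.cons (.br (nat_lit 13) (nat_lit 1) (.cons (.ev (nat_lit 20282719093383858533360597991681) (nat_lit 1)) (.cons (.ev (nat_lit 20282719093383858533364909736193) (nat_lit 1)) (.cons (.ev (nat_lit 20441798015227935486659271000834) (nat_lit 2)) .nil)))) (.cons (.br (nat_lit 13) (nat_lit 1) (.cons (.br (nat_lit 7) (nat_lit 1) (.cons (.ev (nat_lit 20837011577029092321644140364036) (nat_lit 3)) .nil)) (.cons (.rf (nat_lit 39) (nat_lit 490431131892885757088))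 (.cons (.rf (nat_lit 13) (nat_lit 384365563147609802784)) .nil)))) (.cons (.br (nat_lit 13) (nat_lit 1) (.cons (.br (nat_lit 12) (nat_lit 1) (.cons (.ev (nat_lit 20837011577029092321618337005828) (nat_lit 3)) .nil)) (.cons (.rf (nat_lit 3) (nat_lit 347473200900097542176)) (.cons (.rf (nat_lit 265) (nat_lit 493779381195645393984)) .nil)))) (.cons (.br (nat_lit 1) (nat_lit 1) (.cons (.rf (nat_lit 0) (nat_lit 346357432816681196704)) (.cons (.rf (nat_lit 39) (nat_lit 453573641894840371232)) (.cons (.ev (nat_lit 20361638979814120859043926966273) (nat_lit 1)) .nil)))) (.cons (.ev (nat_lit 1208944266640182156001281) (nat_lit 1)) .nil)))))) .nil)) .nil)),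
 (.br (nat_lit 9) (nat_lit 1) (.cons (.br (nat_lit 12) (nat_lit 1) (.cons (.ev (nat_lit 79228167255077564541193683201) (nat_lit 1)) (.cons (.br (nat_lit 7) (nat_lit 1) (.cons (.ev (nat_lit 79538856449977354885498208513) (nat_lit 1)) (.cons (.zr (nat_lit 216172790703915008) (nat_lit 310698676454468116247740417) (nat_lit 5) (nat_lit 0)) (.cons (.zr (nat_lit 216172782147534848) (nat_lit 310698676454468120525930497) (nat_lit 5) (nat_lit 0)) .nil)))) (.cons (.br (nat_lit 7) (nat_lit 1) (.cons (.rf (nat_lit 293) (nat_lit 458116647910436346912)) (.cons (.ev (nat_lit 1208944266640182156001281) (nat_lit 1)) (.cons (.br (nat_lit 1) (nat_lit 1) (.cons (.zr (nat_lit 216735732100956160) (nat_lit 310698676454186658434121729) (nat_lit 5) (nat_lit 0)) .nil)) .nil)))) (.cons (.br (nat_lit 2) (nat_lit 1) (.cons (.ev (nat_lit 79538856449977354885498208513) (nat_lit 1)) (.cons (.zr (nat_lit 216172790703915008) (nat_lit 310698676454468116247740417) (nat_lit 5) (nat_lit 0)) (.cons (.zr (nat_lit 216172782147534848) (nat_lit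 310698676454468120525930497) (nat_lit 5) (nat_lit 0)) .nil)))) (.cons (.br (nat_lit 5) (nat_lit 1) (.cons (.ev (nat_lit 79228167255077846016187171073) (nat_lit 1)) (.cons (.rf (nat_lit 222) (nat_lit 493671400357704768576)) (.cons (.rf (nat_lit 223) (nat_lit 493671400357704768576)) .nil)))) .nil)))))) .nil)),
 (.br (nat_lit 2) (nat_lit 0) (.cons (.br (nat_lit 7) (nat_lit 0) (.cons (.rf (nat_lit 285) (nat_lit 493856055839689937952)) (.cons (.br (nat_lit 11) (nat_lit 1) (.cons (.rf (nat_lit 303) (nat_lit 493858305440582043680)) (.cons (.br (nat_lit 8) (nat_lit 1) (.cons (.br (nat_lit 13) (nat_lit 0) (.cons (.br (nat_lit 1) (nat_lit 1) (.cons (.rf (nat_lit 304) (nat_lit 493858305440582043680)) (.cons (.rf (nat_lit 304) (nat_lit 493856055839689937952)) (.cons (.ev (nat_lit 309489732259885536719667201) (nat_lit 1)) (.cons (.br (nat_lit 13) (nat_lit 1) (.cons (.rf (nat_lit 305) (nat_lit 493858305440582043680)) (.cons (.rf (nat_lit 305) (nat_lit 493856055839689937952)) (.cons (.ev (nat_lit 20282719093383858533364909736193)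 (nat_lit 1)) .nil)))) (.cons (.br (nat_lit 12) (nat_lit 1) (.cons (.zr (nat_lit 237993977367214561104729473536) (nat_lit 20282415648280769341518105280514) (nat_lit 10) (nat_lit 8)) (.cons (.zr (nat_lit 238000021904078913864942486016) (nat_lit 20282409603743904988753614077954) (nat_lit 10) (nat_lit 10)) (.cons (.ev (nat_lit 79229371458530977771404919041) (nat_lit 1)) .nil)))) .nil)))))) .nil)) (.cons (.rf (nat_lit 303) (nat_lit 458115489196877681696)) .nil))) .nil))) .nil))) (.cons (.br (nat_lit 7) (nat_lit 0) (.cons (.br (nat_lit 13) (nat_lit 0) (.cons (.rf (nat_lit 306) (nat_lit 493858305440582043680)) (.cons (.br (nat_lit 13) (nat_lit 0) (.cons (.rf (nat_lit 306) (nat_lit 493858305440582043680)) .nil)) .nil))) (.cons (.br (nat_lit 4) (nat_lit 1) (.cons (.br (nat_lit 11) (nat_lit 1) (.cons (.br (nat_lit 13) (nat_lit 0) (.cons (.br (nat_lit 13) (nat_lit 1) (.cons (.br (nat_lit 2) (nat_lit 1) (.cons (.br (nat_lit 7) (nat_lit 1) (.cons (.ev (nat_lit 79229371458530697395956613121) (nat_lit 1)) .nil))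 (.cons (.br (nat_lit 5) (nat_lit 1) (.cons (.ev (nat_lit 20837011577029092321618337005828) (nat_lit 3)) .nil)) (.cons (.br (nat_lit 5) (nat_lit 1) (.cons (.ev (nat_lit 79229371458530697395956613121) (nat_lit 1)) .nil)) .nil)))) (.cons (.br (nat_lit 7) (nat_lit 1) (.cons (.ev (nat_lit 20282719093383858533364909736193) (nat_lit 1)) (.cons (.zr (nat_lit 216172790703915008) (nat_lit 310698676454468116247740417) (nat_lit 5) (nat_lit 0)) (.cons (.zr (nat_lit 216172782147534848) (nat_lit 310698676454468120525930497) (nat_lit 5) (nat_lit 0)) .nil)))) (.cons (.br (nat_lit 1) (nat_lit 1) (.cons (.br (nat_lit 12) (nat_lit 1) (.cons (.zr (nat_lit 216735732100956160) (nat_lit 310698676454186658434121729) (nat_lit 5) (nat_lit 0)) .nil)) (.cons (.kr (nat_lit 20282409603651670423951546253568) (nat_lit 72339069031415808) (nat_lit 1) (nat_lit 0)) (.cons (.rf (nat_lit 250) (nat_lit 493851438787535838272)) .nil)))) (.cons (.br (nat_lit 1) (nat_lit 1) (.cons (.ev (nat_lit 20282719093383858533364909736193) (nat_lit 1))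 (.cons (.kr (nat_lit 20282409603651670423947251286272) (nat_lit 72057594054705152) (nat_lit 1) (nat_lit 0)) (.cons (.kr (nat_lit 20282409603651670423947251286272) (nat_lit 72057598332895232) (nat_lit 1) (nat_lit 0)) .nil)))) (.cons (.rf (nat_lit 251) (nat_lit 493851438787535838272)) .nil)))))) .nil)) .nil)) (.cons (.br (nat_lit 12) (nat_lit 0) (.cons (.rf (nat_lit 307) (nat_lit 493786318215288293408)) (.cons (.rf (nat_lit 307) (nat_lit 493858305440582043680)) .nil))) .nil))) .nil))) (.cons (.rf (nat_lit 300) (nat_lit 493786318215288293408)) (.cons (.rf (nat_lit 300) (nat_lit 493858305440582043680)) .nil))))),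
 (.br (nat_lit 9) (nat_lit 1) (.cons (.rf (nat_lit 300) (nat_lit 493786318215288293408)) (.cons (.rf (nat_lit 308) (nat_lit 493786318215288293408)) (.cons (.br (nat_lit 9) (nat_lit 1) (.cons (.rf (nat_lit 300) (nat_lit 493786318215288293408)) (.cons (.rf (nat_lit 308) (nat_lit 493786318215288293408)) .nil))) .nil)))),
 (.br (nat_lit 11) (nat_lit 1) (.cons (.rf (nat_lit 300) (nat_lit 493858305440582043680)) (.cons (.rf (nat_lit 308) (nat_lit 493858305440582043680)) (.cons (.rf (nat_lit 309) (nat_lit 493858305440582043680)) (.cons (.br (nat_lit 11) (nat_lit 1) (.cons (.rf (nat_lit 300) (nat_lit 493858305440582043680)) (.cons (.rf (nat_lit 308) (nat_lit 493858305440582043680)) (.cons (.rf (nat_lit 309) (nat_lit 493858305440582043680)) .nil)))) .nil))))),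
 (.br (nat_lit 10) (nat_lit 1) (.cons (.rf (nat_lit 285) (nat_lit 493858305440582043680)) (.cons (.rf (nat_lit 310) (nat_lit 493858305440582043680)) (.cons (.rf (nat_lit 310) (nat_lit 458117738797769787424)) .nil)))),
 (.br (nat_lit 7) (nat_lit 0) (.cons (.br (nat_lit 11) (nat_lit 1) (.cons (.br (nat_lit 2) (nat_lit 1) (.cons (.ev (nat_lit 310693935640959702211297281) (nat_lit 1)) (.cons (.br (nat_lit 12) (nat_lit 1) (.cons (.rf (nat_lit 0) (nat_lit 383250914338067979424)) (.cons (.ev (nat_lit 309489732260167007401410561) (nat_lit 1)) (.cons (.rf (nat_lit 12) (nat_lit 163005760157638722624)) .nil)))) (.cons (.br (nat_lit 12) (nat_lit 1) (.cons (.rf (nat_lit 39) (nat_lit 454726346795661952064)) (.cons (.ev (nat_lit 79540065394171938581751332866) (nat_lit 2)) (.cons (.rf (nat_lit 13) (nat_lit 420143276585580240032)) .nil)))) (.cons (.br (nat_lit 5) (nat_lit 1) (.cons (.rf (nat_lit 1) (nat_lit 384359933642712286272)) (.cons (.ev (nat_lit 309489732260167011679600641) (nat_lit 1)) (.cons (.rf (nat_lit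 276) (nat_lit 493857214553248603168)) .nil)))) (.cons (.ev (nat_lit 310693935641241172893040641) (nat_lit 1)) .nil)))))) .nil)) .nil)),
 (.br (nat_lit 2) (nat_lit 0) (.cons (.rf (nat_lit 312) (nat_lit 493858305440582043680)) (.cons (.br (nat_lit 8) (nat_lit 1) (.cons (.rf (nat_lit 312) (nat_lit 493858305268783356960)) (.cons (.br (nat_lit 7) (nat_lit 0) (.cons (.br (nat_lit 2) (nat_lit 1) (.cons (.br (nat_lit 12) (nat_lit 1) (.cons (.rf (nat_lit 296) (nat_lit 493751381233215050784)) (.cons (.rf (nat_lit 188) (nat_lit 458117628677899525280)) (.cons (.rf (nat_lit 80) (nat_lit 421190369029889563680)) .nil)))) (.cons (.br (nat_lit 12) (nat_lit 1) (.cons (.rf (nat_lit 79) (nat_lit 420038573420764568736)) (.cons (.ev (nat_lit 79229371458530697395956613121) (nat_lit 1)) (.cons (.rf (nat_lit 80) (nat_lit 420038573420764568736)) .nil)))) (.cons (.kr (nat_lit 65536) (nat_lit 72057594037927936) (nat_lit 2) (nat_lit 0)) (.cons (.br (nat_lit 7) (nat_lit 1) (.cons (.rf (nat_lit 188) (nat_lit 458117628849698212000))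 (.cons (.ev (nat_lit 79229371458530697395956613121) (nat_lit 1)) (.cons (.rf (nat_lit 82) (nat_lit 421190369029889563680)) .nil)))) (.cons (.br (nat_lit 7) (nat_lit 1) (.cons (.ev (nat_lit 20282410812595937064125112254721) (nat_lit 1)) (.cons (.rf (nat_lit 188) (nat_lit 493858199890687002656)) (.cons (.rf (nat_lit 82) (nat_lit 421190369201688250400)) .nil)))) .nil)))))) .nil)) .nil))) .nil))),
 (.br (nat_lit 4) (nat_lit 1) (.cons (.rf (nat_lit 311) (nat_lit 493821118788997880864)) (.cons (.kr (nat_lit 16777216) (nat_lit 4294967296) (nat_lit 3) (nat_lit 0)) (.cons (.rf (nat_lit 311) (nat_lit 493823368389956077600)) .nil)))),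
 (.br (nat_lit 13) (nat_lit 0) (.cons (.rf (nat_lit 313) (nat_lit 458117738797769787424)) (.cons (.br (nat_lit 11) (nat_lit 1) (.cons (.rf (nat_lit 314) (nat_lit 493858305440582043680)) (.cons (.rf (nat_lit 314) (nat_lit 493858305268783356960)) .nil))) .nil))),
 (.br (nat_lit 12) (nat_lit 1) (.cons (.rf (nat_lit 8) (nat_lit 420143281121233340448)) (.cons (.rf (nat_lit 8) (nat_lit 420143281011516642528)) (.cons (.kr (nat_lit 79228162514264337593543950336) (nat_lit 20282409603651670423947251286016) (nat_lit 12) (nat_lit 0)) .nil)))),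
 (.br (nat_lit 1) (nat_lit 1) (.cons (.rf (nat_lit 316) (nat_lit 493858124021168866368)) (.cons (.rf (nat_lit 316) (nat_lit 493858089867655021632)) (.cons (.ev (nat_lit 79228167255077846011875426561) (nat_lit 1)) .nil)))),
 (.br (nat_lit 4) (nat_lit 1) (.cons (.br (nat_lit 2) (nat_lit 1) (.cons (.ev (nat_lit 310693935640959702211297281) (nat_lit 1)) (.cons (.rf (nat_lit 316) (nat_lit 493858305440582043680)) (.cons (.rf (nat_lit 316) (nat_lit 493858271287068198944)) (.cons (.rf (nat_lit 317) (nat_lit 493858305440582043680)) (.cons (.rf (nat_lit 317) (nat_lit 458117738797769787424)) .nil)))))) .nil)),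
 (.br (nat_lit 12) (nat_lit 0) (.cons (.rf (nat_lit 313) (nat_lit 493858305440582043680)) (.cons (.rf (nat_lit 315) (nat_lit 493858305440582043680)) (.cons (.br (nat_lit 13) (nat_lit 0) (.cons (.rf (nat_lit 313) (nat_lit 458117738797769787424)) (.cons (.rf (nat_lit 315) (nat_lit 458117738797769787424)) (.cons (.br (nat_lit 8) (nat_lit 1) (.cons (.rf (nat_lit 318) (nat_lit 493858305440582043680)) (.cons (.rf (nat_lit 318) (nat_lit 493858305268783356960)) .nil))) .nil)))) .nil))))]

theorem c10 : chkAll C T R L10 (nat_lit 296) = true := by decide +kernel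

theorem l10 : (nat_lit 296) + L10.length = (nat_lit 320) := by decide +kernel

/-- part of the certificates -/
def L11 : List Prf := [(.br (nat_lit 11) (nat_lit 1) (.cons (.kr (nat_lit 310693935640959697899552768) (nat_lit 79228162532711081667270279168) (nat_lit 2) (nat_lit 0)) .nil)),
 (.br (nat_lit 5) (nat_lit 1) (.cons (.rf (nat_lit 297) (nat_lit 458045751572476037152)) (.cons (.ev (nat_lit 79540065394243996175789195266) (nat_lit 2)) (.cons (.rf (nat_lit 298) (nat_lit 458045751572476037152)) .nil)))),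
 (.br (nat_lit 11) (nat_lit 1) (.cons (.rf (nat_lit 319) (nat_lit 493786318215288293408)) (.cons (.br (nat_lit 8) (nat_lit 1) (.cons (.br (nat_lit 7) (nat_lit 0) (.cons (.br (nat_lit 2) (nat_lit 1) (.cons (.br (nat_lit 13) (nat_lit 1) (.cons (.rf (nat_lit 320) (nat_lit 15433072045018188865)) (.cons (.rf (nat_lit 320) (nat_lit 15433072042872770625)) (.cons (.ev (nat_lit 20361637766165934761545107046401) (nat_lit 1)) .nil)))) (.cons (.ev (nat_lit 309489732188109417641738241) (nat_lit 1)) (.cons (.ev (nat_lit 309489732188109413363548161) (nat_lit 1)) (.cons (.rf (nat_lit 321) (nat_lit 493858305440582043680)) (.cons (.rf (nat_lit 321) (nat_lit 458045751572476037152)) .nil)))))) .nil)) .nil)) .nil))),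
 (.br (nat_lit 11) (nat_lit 1) (.cons (.rf (nat_lit 319) (nat_lit 493786318215288293408)) (.cons (.br (nat_lit 4) (nat_lit 1) (.cons (.rf (nat_lit 311) (nat_lit 493823368389788310560)) (.cons (.rf (nat_lit 311) (nat_lit 493821118789165647904)) .nil))) .nil))),
 (.br (nat_lit 11) (nat_lit 1) (.cons (.rf (nat_lit 322) (nat_lit 493858305440582043680)) (.cons (.rf (nat_lit 323) (nat_lit 493858305440582043680)) (.cons (.br (nat_lit 11) (nat_lit 1) (.cons (.rf (nat_lit 322) (nat_lit 493858305440582043680)) (.cons (.rf (nat_lit 323) (nat_lit 493858305440582043680)) .nil))) .nil)))),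
 (.br (nat_lit 9) (nat_lit 1) (.cons (.rf (nat_lit 319) (nat_lit 493858305440582043680)) (.cons (.rf (nat_lit 324) (nat_lit 493858305440582043680)) (.cons (.rf (nat_lit 324) (nat_lit 458117738797769787424)) .nil)))),
 (.br (nat_lit 11) (nat_lit 1) (.cons (.rf (nat_lit 325) (nat_lit 493786318215288293408)) (.cons (.rf (nat_lit 325) (nat_lit 493786318043489606688)) (.cons (.br (nat_lit 11) (nat_lit 1) (.cons (.rf (nat_lit 325) (nat_lit 493786318215288293408)) (.cons (.rf (nat_lit 325) (nat_lit 493786318043489606688)) .nil))) .nil)))),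
 (.br (nat_lit 10) (nat_lit 1) (.cons (.rf (nat_lit 311) (nat_lit 493858305440582043680)) (.cons (.rf (nat_lit 311) (nat_lit 493858305268783356960)) (.cons (.br (nat_lit 9) (nat_lit 1) (.cons (.rf (nat_lit 325) (nat_lit 493858305440582043680)) (.cons (.rf (nat_lit 325) (nat_lit 493858305268783356960)) (.cons (.rf (nat_lit 326) (nat_lit 493858305440582043680)) (.cons (.rf (nat_lit 326) (nat_lit 458117738797769787424)) .nil))))) .nil)))),
 (.br (nat_lit 5) (nat_lit 0) (.cons (.kr (nat_lit 16777216) (nat_lit 4294967296) (nat_lit 3) (nat_lit 0)) (.cons (.rf (nat_lit 119) (nat_lit 247132686368)) (.cons (.br (nat_lit 8) (nat_lit 0) (.cons (.br (nat_lit 9) (nat_lit 0) (.cons (.br (nat_lit 10) (nat_lit 0) (.cons (.br (nat_lit 6) (nat_lit 1) (.cons (.rf (nat_lit 141) (nat_lit 11584701642934304)) (.cons (.rf (nat_lit 141) (nat_lit 11584529844247584)) (.cons (.br (nat_lit 6) (nat_lit 1) (.cons (.rf (nat_lit 141) (nat_lit 11584701642934304)) (.cons (.rf (nat_lit 141) (nat_lit 11584529844247584)) (.cons (.br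 (nat_lit 2) (nat_lit 0) (.cons (.rf (nat_lit 146) (nat_lit 14242959524133701664)) (.cons (.rf (nat_lit 148) (nat_lit 14242959524133701664)) (.cons (.rf (nat_lit 150) (nat_lit 14242959524133701664)) (.cons (.rf (nat_lit 150) (nat_lit 14241868808598947872)) (.cons (.rf (nat_lit 17) (nat_lit 14303893635)) .nil)))))) .nil)))) .nil)))) (.cons (.br (nat_lit 11) (nat_lit 0) (.cons (.br (nat_lit 6) (nat_lit 1) (.cons (.rf (nat_lit 271) (nat_lit 407901468851537952)) (.cons (.rf (nat_lit 271) (nat_lit 407901297052851232)) (.cons (.br (nat_lit 6) (nat_lit 1) (.cons (.rf (nat_lit 271) (nat_lit 407901468851537952)) (.cons (.rf (nat_lit 271) (nat_lit 407901297052851232)) (.cons (.br (nat_lit 10) (nat_lit 1) (.cons (.rf (nat_lit 311) (nat_lit 493858305440582043680)) (.cons (.rf (nat_lit 311) (nat_lit 493858305268783356960)) (.cons (.rf (nat_lit 327) (nat_lit 493858305440582043680)) (.cons (.rf (nat_lit 327) (nat_lit 458117738797769787424)) .nil))))) .nil)))) .nil)))) .nil)) .nil))) .nil)) .nil)) .nil)))),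
 (.br (nat_lit 2) (nat_lit 0) (.cons (.rf (nat_lit 328) (nat_lit 244984251456)) (.cons (.rf (nat_lit 328) (nat_lit 243911558208)) (.cons (.rf (nat_lit 328) (nat_lit 180466517216)) (.cons (.rf (nat_lit 328) (nat_lit 180465501408)) (.cons (.rf (nat_lit 17) (nat_lit 13230151811)) .nil)))))),
 (.br (nat_lit 7) (nat_lit 0) (.cons (.rf (nat_lit 329) (nat_lit 407901468851537952)) (.cons (.rf (nat_lit 17) (nat_lit 14303893635)) .nil))),
 (.br (nat_lit 7) (nat_lit 0) (.cons (.rf (nat_lit 330) (nat_lit 14242959524133701664)) (.cons (.rf (nat_lit 330) (nat_lit 14241868808598947872)) (.cons (.rf (nat_lit 17) (nat_lit 14303893635)) .nil)))),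
 (.br (nat_lit 7) (nat_lit 0) (.cons (.kr (nat_lit 18446744073726328832) (nat_lit 4722366764344621924352) (nat_lit 3) (nat_lit 0)) (.cons (.kr (nat_lit 4722366482869645213696) (nat_lit 1208925819614629174706176) (nat_lit 9) (nat_lit 0)) (.cons (.rf (nat_lit 17) (nat_lit 14303893635)) .nil)))),
 (.br (nat_lit 11) (nat_lit 0) (.cons (.rf (nat_lit 331) (nat_lit 14242959524133701664)) (.cons (.br (nat_lit 2) (nat_lit 0) (.cons (.br (nat_lit 7) (nat_lit 0) (.cons (.rf (nat_lit 332) (nat_lit 14242959524133701664)) (.cons (.rf (nat_lit 332) (nat_lit 14241868808598947872)) (.cons (.rf (nat_lit 17) (nat_lit 14303893635)) .nil)))) (.cons (.rf (nat_lit 331) (nat_lit 14242925439172580384)) (.cons (.rf (nat_lit 331) (nat_lit 14241800638777365536)) (.cons (.rf (nat_lit 17) (nat_lit 14303893635)) .nil))))) (.cons (.rf (nat_lit 17) (nat_lit 14303893635)) .nil)))),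
 (.br (nat_lit 11) (nat_lit 0) (.cons (.rf (nat_lit 331) (nat_lit 14242959524133701664)) (.cons (.rf (nat_lit 333) (nat_lit 14242959524133701664)) (.cons (.rf (nat_lit 333) (nat_lit 14241868808598947872)) (.cons (.rf (nat_lit 17) (nat_lit 14303893635)) .nil))))),
 (.br (nat_lit 6) (nat_lit 1) (.cons (.rf (nat_lit 334) (nat_lit 14242959524133701664)) (.cons (.rf (nat_lit 334) (nat_lit 14242959352335014944)) (.cons (.rf (nat_lit 329) (nat_lit 400932560150235360)) (.cons (.rf (nat_lit 329) (nat_lit 436961357169199328)) .nil))))),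
 (.br (nat_lit 2) (nat_lit 0) (.cons (.rf (nat_lit 334) (nat_lit 14242959524133701664)) (.cons (.rf (nat_lit 328) (nat_lit 251433059392)) (.cons (.br (nat_lit 7) (nat_lit 0) (.cons (.rf (nat_lit 334) (nat_lit 14242959352335014944)) (.cons (.rf (nat_lit 335) (nat_lit 14242959352335014944)) (.cons (.rf (nat_lit 328) (nat_lit 180634289216)) (.cons (.rf (nat_lit 328) (nat_lit 180633273408)) (.cons (.rf (nat_lit 17) (nat_lit 14303893635)) .nil)))))) (.cons (.rf (nat_lit 17) (nat_lit 14303893635)) .nil))))),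
 (.br (nat_lit 12) (nat_lit 0) (.cons (.br (nat_lit 7) (nat_lit 0) (.cons (.br (nat_lit 2) (nat_lit 1) (.cons (.ev (nat_lit 20282409603670117168020960903169) (nat_lit 1)) (.cons (.ev (nat_lit 20282409603670117449495954391041) (nat_lit 1)) (.cons (.zr (nat_lit 1208962713102776627560448) (nat_lit 20282409608374181303484244033537) (nat_lit 5) (nat_lit 9)) (.cons (.br (nat_lit 7) (nat_lit 1) (.cons (.ev (nat_lit 4740885284541704437761) (nat_lit 1)) (.cons (.ev (nat_lit 4740885566016664371201) (nat_lit 1)) (.cons (.kr (nat_lit 20282409603651670423947251351552) (nat_lit 4722438540463683141632) (nat_lit 2) (nat_lit 0)) .nil)))) (.cons (.br (nat_lit 7) (nat_lit 1) (.cons (.ev (nat_lit 4740885284541704437761) (nat_lit 1)) (.cons (.ev (nat_lit 4740885566016664371201) (nat_lit 1)) (.cons (.kr (nat_lit 20282409603651670423947284905984) (nat_lit 4722438540472273076224) (nat_lit 2) (nat_lit 0)) .nil)))) .nil)))))) .nil)) .nil)),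
 (.br (nat_lit 5) (nat_lit 1) (.cons (.br (nat_lit 12) (nat_lit 1) (.cons (.ev (nat_lit 81209183315686190035658913284868) (nat_lit 3)) .nil)) (.cons (.ev (nat_lit 20282409603651742482640817619201) (nat_lit 1)) (.cons (.ev (nat_lit 20282409603651742482645095809281) (nat_lit 1)) .nil)))),
 (.br (nat_lit 1) (nat_lit 1) (.cons (.rf (nat_lit 338) (nat_lit 493858305268783356960)) (.cons (.br (nat_lit 2) (nat_lit 1) (.cons (.ev (nat_lit 284033284235314882037804782521608) (nat_lit 4)) .nil)) (.cons (.ev (nat_lit 20361947251175828445682846400513) (nat_lit 1)) .nil)))),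
 (.br (nat_lit 2) (nat_lit 0) (.cons (.rf (nat_lit 337) (nat_lit 493858305440582043680)) (.cons (.br (nat_lit 7) (nat_lit 0) (.cons (.rf (nat_lit 337) (nat_lit 493858305268783356960)) (.cons (.br (nat_lit 9) (nat_lit 1) (.cons (.br (nat_lit 7) (nat_lit 1) (.cons (.rf (nat_lit 338) (nat_lit 493858305440582043680)) (.cons (.kr (nat_lit 65536) (nat_lit 72057594037927936) (nat_lit 2) (nat_lit 0)) (.cons (.br (nat_lit 1) (nat_lit 1) (.cons (.rf (nat_lit 338) (nat_lit 493858305268783356960)) (.cons (.ev (nat_lit 20282409603651742764115777552641) (nat_lit 1)) (.cons (.ev (nat_lit 20282409603651742764120089297153) (nat_lit 1)) .nil)))) (.cons (.rf (nat_lit 339) (nat_lit 493858305440582043680)) (.cons (.br (nat_lit 11) (nat_lit 1) (.cons (.ev (nat_lit 20361947251175828445678534656001) (nat_lit 1)) (.cons (.rf (nat_lit 339) (nat_lit 493858305268783356960)) (.cons (.ev (nat_lit 20361947251175828164203574722561) (nat_lit 1)) .nil)))) .nil)))))) .nil)) .nil))) .nil))),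
 (.br (nat_lit 11) (nat_lit 0) (.cons (.rf (nat_lit 340) (nat_lit 493858305440582043680)) (.cons (.rf (nat_lit 340) (nat_lit 346284493588393986080)) .nil))),
 (.br (nat_lit 2) (nat_lit 0) (.cons (.br (nat_lit 2) (nat_lit 1) (.cons (.ev (nat_lit 4740813226947666575361) (nat_lit 1)) (.cons (.ev (nat_lit 4740813508422626508801) (nat_lit 1)) (.cons (.zr (nat_lit 1208962929275567297527808) (nat_lit 20282409608374037188291890118657) (nat_lit 5) (nat_lit 9)) (.cons (.br (nat_lit 7) (nat_lit 1) (.cons (.ev (nat_lit 20282409603670189225619310510081) (nat_lit 1)) (.cons (.ev (nat_lit 20282409603670189507094270443521) (nat_lit 1)) (.cons (.kr (nat_lit 4722366482873940246528) (nat_lit 20282409603651742481541305991168) (nat_lit 2) (nat_lit 0)) .nil)))) (.cons (.br (nat_lit 7) (nat_lit 1) (.cons (.ev (nat_lit 20282409603670189225619310510081) (nat_lit 1)) (.cons (.ev (nat_lit 20282409603670189507094270443521) (nat_lit 1)) (.cons (.kr (nat_lit 4722366482869662056448) (nat_lit 20282409603651742481545584181248)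 (nat_lit 2) (nat_lit 0)) .nil)))) .nil)))))) .nil)),
 (.br (nat_lit 13) (nat_lit 1) (.cons (.br (nat_lit 5) (nat_lit 1) (.cons (.br (nat_lit 2) (nat_lit 1) (.cons (.ev (nat_lit 20282410822040742651512251154690) (nat_lit 2)) (.cons (.br (nat_lit 12) (nat_lit 1) (.cons (.ev (nat_lit 79540065449584516481799227140) (nat_lit 3)) .nil)) (.cons (.br (nat_lit 11) (nat_lit 1) (.cons (.ev (nat_lit 79540065449584516464686466820) (nat_lit 3)) .nil)) .nil)))) (.cons (.ev (nat_lit 1208944266640177877811201) (nat_lit 1)) (.cons (.ev (nat_lit 4740885566016664371201) (nat_lit 1)) (.cons (.br (nat_lit 1) (nat_lit 1) (.cons (.ev (nat_lit 1208944266358702884323329) (nat_lit 1)) (.cons (.ev (nat_lit 4740885284541704437761) (nat_lit 1)) (.cons (.zr (nat_lit 2417851639232556884296448) (nat_lit 20282409608392483932369894506497) (nat_lit 5) (nat_lit 0)) .nil)))) (.cons (.br (nat_lit 1) (nat_lit 1) (.cons (.ev (nat_lit 1208944266358702884323329) (nat_lit 1)) (.cons (.ev (nat_lit 4740885284541704437761) (nat_lit 1)) (.cons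 (.zr (nat_lit 2417851639232556884296448) (nat_lit 20282409608392483932369894506497) (nat_lit 5) (nat_lit 0)) .nil)))) .nil)))))) .nil)),
 (.br (nat_lit 8) (nat_lit 1) (.cons (.rf (nat_lit 343) (nat_lit 493858305440582043680)) (.cons (.rf (nat_lit 343) (nat_lit 493858305268783356960)) .nil))),
 (.br (nat_lit 12) (nat_lit 0) (.cons (.rf (nat_lit 341) (nat_lit 493858305440582043680)) (.cons (.br (nat_lit 11) (nat_lit 0) (.cons (.br (nat_lit 7) (nat_lit 0) (.cons (.rf (nat_lit 342) (nat_lit 493858305440582043680)) (.cons (.rf (nat_lit 342) (nat_lit 346284493588393986080)) .nil))) (.cons (.rf (nat_lit 344) (nat_lit 493858305440582043680)) (.cons (.rf (nat_lit 344) (nat_lit 346284493588393986080)) .nil)))) .nil))),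
 (.br (nat_lit 12) (nat_lit 0) (.cons (.rf (nat_lit 341) (nat_lit 493858305440582043680)) (.cons (.rf (nat_lit 345) (nat_lit 493858305440582043680)) (.cons (.rf (nat_lit 345) (nat_lit 346284493588393986080)) .nil)))),
 (.br (nat_lit 11) (nat_lit 0) (.cons (.br (nat_lit 7) (nat_lit 1) (.cons (.br (nat_lit 2) (nat_lit 1) (.cons (.ev (nat_lit 20282409603651742482645095809281) (nat_lit 1)) (.cons (.zr (nat_lit 36893488156009235200) (nat_lit 20282410817299856802921115025409) (nat_lit 5) (nat_lit 0)) (.cons (.zr (nat_lit 36893488147419300608) (nat_lit 20282410817299856802925359661057) (nat_lit 5) (nat_lit 0)) .nil)))) (.cons (.br (nat_lit 5) (nat_lit 1) (.cons (.ev (nat_lit 1213648258156196681285633) (nat_lit 1)) (.cons (.kr (nat_lit 18446744073709617152) (nat_lit 1208925819615728686333952) (nat_lit 2) (nat_lit 0)) (.cons (.kr (nat_lit 18446744078004584448) (nat_lit 1208925819615728703111168) (nat_lit 2) (nat_lit 0)) .nil)))) (.cons (.ev (nat_lit 4740885566016664371201) (nat_lit 1)) (.cons (.br (nat_lit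 1) (nat_lit 1) (.cons (.ev (nat_lit 20282410812596008840248468504833) (nat_lit 1)) (.cons (.br (nat_lit 2) (nat_lit 1) (.cons (.ev (nat_lit 20361948460120022747886892613633) (nat_lit 1)) .nil)) (.cons (.br (nat_lit 5) (nat_lit 1) (.cons (.ev (nat_lit 20361948460120022747886892613633) (nat_lit 1)) .nil)) .nil)))) (.cons (.br (nat_lit 1) (nat_lit 1) (.cons (.ev (nat_lit 20282410812596008840244190314753) (nat_lit 1)) (.cons (.br (nat_lit 2) (nat_lit 1) (.cons (.ev (nat_lit 20361948460120022747886892613633) (nat_lit 1)) .nil)) (.cons (.br (nat_lit 2) (nat_lit 1) (.cons (.ev (nat_lit 20361948460120022747886892613633) (nat_lit 1)) .nil)) .nil)))) .nil)))))) .nil)),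
 (.br (nat_lit 7) (nat_lit 0) (.cons (.rf (nat_lit 347) (nat_lit 346284493588393986080)) (.cons (.rf (nat_lit 347) (nat_lit 493858305440582043680)) .nil))),
 (.br (nat_lit 12) (nat_lit 0) (.cons (.rf (nat_lit 346) (nat_lit 492741412732993144864)) (.cons (.br (nat_lit 6) (nat_lit 1) (.cons (.rf (nat_lit 348) (nat_lit 493858305440582043680)) (.cons (.rf (nat_lit 348) (nat_lit 493858305268783356960)) (.cons (.rf (nat_lit 346) (nat_lit 493858305440582043680)) .nil)))) .nil))),
 (.br (nat_lit 12) (nat_lit 0) (.cons (.rf (nat_lit 346) (nat_lit 492741412732993144864)) (.cons (.rf (nat_lit 349) (nat_lit 493858305440582043680)) (.cons (.rf (nat_lit 349) (nat_lit 346284493588393986080)) .nil)))),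
 (.br (nat_lit 12) (nat_lit 1) (.cons (.kr (nat_lit 36965545741457031424) (nat_lit 79537647524085683761780424704) (nat_lit 1) (nat_lit 0)) .nil)),
 (.br (nat_lit 7) (nat_lit 1) (.cons (.ev (nat_lit 20282410817299856804020559610113) (nat_lit 1)) (.cons (.rf (nat_lit 351) (nat_lit 493858305440582043680)) (.cons (.rf (nat_lit 351) (nat_lit 492741412732993144864)) .nil)))),
 (.br (nat_lit 7) (nat_lit 1) (.cons (.ev (nat_lit 72058697861365761) (nat_lit 1)) .nil)),
 (.br (nat_lit 1) (nat_lit 1) (.cons (.rf (nat_lit 353) (nat_lit 445091350149433376)) (.cons (.rf (nat_lit 353) (nat_lit 445023111776143392)) (.cons (.ev (nat_lit 79537647524085964137262219521) (nat_lit 1)) .nil))))]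

theorem c11 : chkAll C T R L11 (nat_lit 320) = true := by decide +kernel

theorem l11 : (nat_lit 320) + L11.length = (nat_lit 355) := by decide +kernel

/-- part of the certificates -/
def L12 : List Prf := [(.br (nat_lit 6) (nat_lit 1) (.cons (.br (nat_lit 2) (nat_lit 1) (.cons (.ev (nat_lit 1208944266358702884323329) (nat_lit 1)) (.cons (.rf (nat_lit 352) (nat_lit 493858305440582043680)) (.cons (.rf (nat_lit 352) (nat_lit 493856055771139246112)) (.cons (.rf (nat_lit 354) (nat_lit 493858305440582043680)) (.cons (.rf (nat_lit 354) (nat_lit 492741412732993144864)) .nil)))))) .nil)),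
 (.br (nat_lit 12) (nat_lit 0) (.cons (.rf (nat_lit 346) (nat_lit 492741412732993144864)) (.cons (.rf (nat_lit 350) (nat_lit 492741412732993144864)) (.cons (.br (nat_lit 8) (nat_lit 1) (.cons (.rf (nat_lit 355) (nat_lit 493858305440582043680)) (.cons (.rf (nat_lit 355) (nat_lit 493858305268783356960)) .nil))) .nil)))),
 (.br (nat_lit 11) (nat_lit 0) (.cons (.rf (nat_lit 346) (nat_lit 493858305440582043680)) (.cons (.rf (nat_lit 350) (nat_lit 493858305440582043680)) (.cons (.br (nat_lit 12) (nat_lit 0) (.cons (.rf (nat_lit 346) (nat_lit 492741412732993144864)) (.cons (.rf (nat_lit 350) (nat_lit 492741412732993144864)) (.cons (.rf (nat_lit 356) (nat_lit 493858305440582043680)) (.cons (.rf (nat_lit 356) (nat_lit 346284493588393986080)) .nil))))) .nil)))),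
 (.br (nat_lit 11) (nat_lit 0) (.cons (.rf (nat_lit 346) (nat_lit 493858305440582043680)) (.cons (.rf (nat_lit 350) (nat_lit 493858305440582043680)) (.cons (.rf (nat_lit 357) (nat_lit 493858305440582043680)) (.cons (.rf (nat_lit 357) (nat_lit 346284493588393986080)) .nil))))),
 (.br (nat_lit 12) (nat_lit 1) (.cons (.rf (nat_lit 212) (nat_lit 455739662097647338720)) (.cons (.zr (nat_lit 9444949138521437766400) (nat_lit 20282410812595937064142292123649) (nat_lit 5) (nat_lit 0)) (.cons (.br (nat_lit 7) (nat_lit 1) (.cons (.ev (nat_lit 79540065376085770563179840260) (nat_lit 3)) .nil)) .nil)))),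
 (.br (nat_lit 2) (nat_lit 1) (.cons (.ev (nat_lit 4722366765448445362433) (nat_lit 1)) (.cons (.ev (nat_lit 1208925891953698189410561) (nat_lit 1)) (.cons (.kr (nat_lit 1213648186097503114887424) (nat_lit 79537647524085682662285574144) (nat_lit 1) (nat_lit 0)) .nil)))),
 (.br (nat_lit 7) (nat_lit 1) (.cons (.br (nat_lit 11) (nat_lit 1) (.cons (.ev (nat_lit 79540065376085770563179840260) (nat_lit 3)) .nil)) (.cons (.zr (nat_lit 9444949138529994146560) (nat_lit 20282410812595937064125179363329) (nat_lit 5) (nat_lit 0)) (.cons (.zr (nat_lit 9444949138521404211968) (nat_lit 20282410812595937064129423998977) (nat_lit 5) (nat_lit 0)) .nil)))),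
 (.br (nat_lit 7) (nat_lit 1) (.cons (.br (nat_lit 11) (nat_lit 1) (.cons (.ev (nat_lit 79540065376085770563179840260) (nat_lit 3)) .nil)) (.cons (.zr (nat_lit 9444949138521404211968) (nat_lit 20282410812595937064129423998977) (nat_lit 5) (nat_lit 0)) (.cons (.zr (nat_lit 9444949138521437766400) (nat_lit 20282410812595937064142292123649) (nat_lit 5) (nat_lit 0)) .nil)))),
 (.br (nat_lit 12) (nat_lit 1) (.cons (.kr (nat_lit 1213648186097503114887424) (nat_lit 79537647524085682662285574144) (nat_lit 1) (nat_lit 0)) (.cons (.ev (nat_lit 79538856449905579865931776001) (nat_lit 1)) (.cons (.ev (nat_lit 79537652246524504605240328193) (nat_lit 1)) .nil)))),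
 (.br (nat_lit 13) (nat_lit 1) (.cons (.br (nat_lit 9) (nat_lit 1) (.cons (.br (nat_lit 8) (nat_lit 1) (.cons (.br (nat_lit 12) (nat_lit 0) (.cons (.br (nat_lit 2) (nat_lit 1) (.cons (.ev (nat_lit 20282409603670117168025272647681) (nat_lit 1)) (.cons (.ev (nat_lit 20282409603670117449495954391041) (nat_lit 1)) (.cons (.br (nat_lit 1) (nat_lit 1) (.cons (.ev (nat_lit 18518802771554074881) (nat_lit 1)) (.cons (.br (nat_lit 5) (nat_lit 1) (.cons (.ev (nat_lit 18519084246547562753) (nat_lit 1)) .nil)) (.cons (.br (nat_lit 5) (nat_lit 1) (.cons (.ev (nat_lit 18519084246547562753) (nat_lit 1)) .nil)) .nil)))) (.cons (.br (nat_lit 7) (nat_lit 1) (.cons (.br (nat_lit 12) (nat_lit 1) (.cons (.zr (nat_lit 2417851639232556884296448) (nat_lit 20282409608392483932369894506497) (nat_lit 5) (nat_lit 0)) .nil)) (.cons (.br (nat_lit 1) (nat_lit 1) (.cons (.zr (nat_lit 2417851639232556884296448) (nat_lit 20282409608392483932369894506497) (nat_lit 5) (nat_lit 0)) .nil)) (.cons (.ev (nat_lit 20282409608374109245885927915521)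 (nat_lit 1)) .nil)))) (.cons (.br (nat_lit 7) (nat_lit 1) (.cons (.br (nat_lit 11) (nat_lit 1) (.cons (.zr (nat_lit 2417851639232565474231040) (nat_lit 20282409608392483932365649870849) (nat_lit 5) (nat_lit 0)) .nil)) (.cons (.br (nat_lit 1) (nat_lit 1) (.cons (.zr (nat_lit 2417851639232565491007488) (nat_lit 20282409608392483932365582762497) (nat_lit 5) (nat_lit 6)) .nil)) (.cons (.ev (nat_lit 20282409608374109245890206105601) (nat_lit 1)) .nil)))) .nil)))))) .nil)) .nil)) (.cons (.br (nat_lit 7) (nat_lit 0) (.cons (.br (nat_lit 8) (nat_lit 1) (.cons (.br (nat_lit 1) (nat_lit 1) (.cons (.ev (nat_lit 20282409603670117168025272647681) (nat_lit 1)) (.cons (.rf (nat_lit 359) (nat_lit 493858305440582043680)) (.cons (.rf (nat_lit 359) (nat_lit 308272886709268645920)) (.cons (.rf (nat_lit 360) (nat_lit 493858305440582043680)) (.cons (.rf (nat_lit 360) (nat_lit 308272886709268645920)) .nil)))))) .nil)) (.cons (.br (nat_lit 6) (nat_lit 1) (.cons (.br (nat_lit 7) (nat_lit 1) (.cons (.br (nat_lit 5) (nat_lit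 1) (.cons (.ev (nat_lit 4722366765444133617921) (nat_lit 1)) (.cons (.zr (nat_lit 2417851639232565474231040) (nat_lit 20282409608392483932365649870849) (nat_lit 5) (nat_lit 0)) (.cons (.zr (nat_lit 2417851639232556884296448) (nat_lit 20282409608392483932369894506497) (nat_lit 5) (nat_lit 0)) .nil)))) (.cons (.ev (nat_lit 1213648258436567851335681) (nat_lit 1)) (.cons (.br (nat_lit 2) (nat_lit 1) (.cons (.ev (nat_lit 4722366483973451874561) (nat_lit 1)) (.cons (.zr (nat_lit 216172790703915008) (nat_lit 20282410817318303546994774245377) (nat_lit 5) (nat_lit 0)) (.cons (.zr (nat_lit 216172782147534848) (nat_lit 20282410817318303546999052435457) (nat_lit 5) (nat_lit 0)) .nil)))) (.cons (.br (nat_lit 5) (nat_lit 1) (.cons (.ev (nat_lit 20282410812596008841343701876993) (nat_lit 1)) (.cons (.zr (nat_lit 216172790703915008) (nat_lit 20282410817318303546994774245377) (nat_lit 5) (nat_lit 0)) (.cons (.rf (nat_lit 200) (nat_lit 455522361189759977696)) .nil)))) (.cons (.br (nat_lit 2) (nat_lit 1) (.cons (.zr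 (nat_lit 216735732100956160) (nat_lit 20282410817318303265536960626689) (nat_lit 5) (nat_lit 0)) (.cons (.zr (nat_lit 216172782147534848) (nat_lit 20282410817318303546999052435457) (nat_lit 5) (nat_lit 0)) (.cons (.ev (nat_lit 20361948460120022465316699308033) (nat_lit 1)) .nil)))) .nil)))))) .nil)) .nil))) .nil))) (.cons (.br (nat_lit 7) (nat_lit 0) (.cons (.br (nat_lit 9) (nat_lit 1) (.cons (.br (nat_lit 12) (nat_lit 0) (.cons (.br (nat_lit 1) (nat_lit 1) (.cons (.ev (nat_lit 20282409603670117168020960903169) (nat_lit 1)) (.cons (.rf (nat_lit 361) (nat_lit 493858305440582043680)) (.cons (.rf (nat_lit 361) (nat_lit 309389779416857544736)) (.cons (.br (nat_lit 2) (nat_lit 1) (.cons (.ev (nat_lit 4722366765444133617921) (nat_lit 1)) (.cons (.ev (nat_lit 1208925891953698189410561) (nat_lit 1)) (.cons (.kr (nat_lit 1213648186097507409854720) (nat_lit 79537647524085682662302351360) (nat_lit 1) (nat_lit 0)) .nil)))) (.cons (.br (nat_lit 7) (nat_lit 1) (.cons (.ev (nat_lit 1208925891953702501155073) (nat_lit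 1)) (.cons (.zr (nat_lit 9444949138521404211968) (nat_lit 20282410812595937064129423998977) (nat_lit 5) (nat_lit 0)) (.cons (.ev (nat_lit 79537652246524504605240328193) (nat_lit 1)) .nil)))) .nil)))))) .nil)) (.cons (.br (nat_lit 8) (nat_lit 1) (.cons (.br (nat_lit 1) (nat_lit 1) (.cons (.ev (nat_lit 20282409603670117168025272647681) (nat_lit 1)) (.cons (.rf (nat_lit 362) (nat_lit 493858305440582043680)) (.cons (.rf (nat_lit 362) (nat_lit 308272886709268645920)) (.cons (.rf (nat_lit 363) (nat_lit 493858305440582043680)) (.cons (.rf (nat_lit 363) (nat_lit 308272886709268645920)) .nil)))))) .nil)) .nil))) (.cons (.br (nat_lit 11) (nat_lit 0) (.cons (.br (nat_lit 9) (nat_lit 1) (.cons (.br (nat_lit 7) (nat_lit 1) (.cons (.br (nat_lit 11) (nat_lit 1) (.cons (.zr (nat_lit 216735740657336320) (nat_lit 20282410817318303265519847866369) (nat_lit 5) (nat_lit 0)) (.cons (.zr (nat_lit 2417851639232565474231040) (nat_lit 20282409608392483932365649870849) (nat_lit 5) (nat_lit 0)) (.cons (.ev (nat_lit 79537652246524504605240328193)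 (nat_lit 1)) .nil)))) (.cons (.ev (nat_lit 1213648258436572129525761) (nat_lit 1)) (.cons (.br (nat_lit 1) (nat_lit 1) (.cons (.ev (nat_lit 4722366483973451874561) (nat_lit 1)) (.cons (.zr (nat_lit 2417851639232565491007488) (nat_lit 20282409608392483932365582762497) (nat_lit 5) (nat_lit 6)) (.cons (.zr (nat_lit 2417851639232556884296448) (nat_lit 20282409608392483932369894506497) (nat_lit 5) (nat_lit 0)) .nil)))) (.cons (.br (nat_lit 2) (nat_lit 1) (.cons (.zr (nat_lit 216735740657336320) (nat_lit 20282410817318303265519847866369) (nat_lit 5) (nat_lit 0)) (.cons (.zr (nat_lit 216172790703915008) (nat_lit 20282410817318303546994774245377) (nat_lit 5) (nat_lit 0)) (.cons (.ev (nat_lit 20361948460120022465316699308033) (nat_lit 1)) .nil)))) (.cons (.br (nat_lit 5) (nat_lit 1) (.cons (.ev (nat_lit 20282410812596008841343701876993) (nat_lit 1)) (.cons (.zr (nat_lit 216172782147534848) (nat_lit 20282410817318303546999052435457) (nat_lit 5) (nat_lit 0)) (.cons (.rf (nat_lit 200) (nat_lit 419818914058427697376))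 .nil)))) .nil)))))) .nil)) (.cons (.br (nat_lit 12) (nat_lit 0) (.cons (.br (nat_lit 7) (nat_lit 1) (.cons (.br (nat_lit 11) (nat_lit 1) (.cons (.zr (nat_lit 216735732067401728) (nat_lit 20282410817318303265524092502017) (nat_lit 5) (nat_lit 0)) (.cons (.zr (nat_lit 2417851639232565474231040) (nat_lit 20282409608392483932365649870849) (nat_lit 5) (nat_lit 0)) (.cons (.ev (nat_lit 79537652246524504605240328193) (nat_lit 1)) .nil)))) (.cons (.ev (nat_lit 1213648258436572129525761) (nat_lit 1)) (.cons (.br (nat_lit 2) (nat_lit 1) (.cons (.ev (nat_lit 4722366483969173684481) (nat_lit 1)) (.cons (.zr (nat_lit 216172790703915008) (nat_lit 20282410817318303546994774245377) (nat_lit 5) (nat_lit 0)) (.cons (.zr (nat_lit 216172782147534848) (nat_lit 20282410817318303546999052435457) (nat_lit 5) (nat_lit 0)) .nil)))) (.cons (.br (nat_lit 2) (nat_lit 1) (.cons (.zr (nat_lit 216735732067401728) (nat_lit 20282410817318303265524092502017) (nat_lit 5) (nat_lit 0)) (.cons (.zr (nat_lit 216172790703915008) (nat_lit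 20282410817318303546994774245377) (nat_lit 5) (nat_lit 0)) (.cons (.ev (nat_lit 20361948460120022465316699308033) (nat_lit 1)) .nil)))) (.cons (.br (nat_lit 1) (nat_lit 1) (.cons (.zr (nat_lit 216735732100956160) (nat_lit 20282410817318303265536960626689) (nat_lit 5) (nat_lit 0)) (.cons (.ev (nat_lit 20282410812596008841343701876993) (nat_lit 1)) (.cons (.rf (nat_lit 244) (nat_lit 420028331441100425440)) .nil)))) .nil)))))) .nil)) .nil))) (.cons (.br (nat_lit 12) (nat_lit 0) (.cons (.br (nat_lit 11) (nat_lit 0) (.cons (.br (nat_lit 7) (nat_lit 1) (.cons (.br (nat_lit 5) (nat_lit 1) (.cons (.ev (nat_lit 20282409603670117449495954391041) (nat_lit 1)) (.cons (.zr (nat_lit 2417851639232565474231040) (nat_lit 20282409608392483932365649870849) (nat_lit 5) (nat_lit 0)) (.cons (.zr (nat_lit 2417851639232556884296448) (nat_lit 20282409608392483932369894506497) (nat_lit 5) (nat_lit 0)) .nil)))) (.cons (.br (nat_lit 12) (nat_lit 1) (.cons (.rf (nat_lit 199) (nat_lit 13129410431305225248)) (.cons (.rf (nat_lit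 197) (nat_lit 14236092869916267744)) (.cons (.ev (nat_lit 79537647542532426735995125761) (nat_lit 1)) .nil)))) (.cons (.br (nat_lit 1) (nat_lit 1) (.cons (.ev (nat_lit 20282409603670117168025272647681) (nat_lit 1)) (.cons (.zr (nat_lit 2417851639232565491007488) (nat_lit 20282409608392483932365582762497) (nat_lit 5) (nat_lit 6)) (.cons (.zr (nat_lit 2417851639232556884296448) (nat_lit 20282409608392483932369894506497) (nat_lit 5) (nat_lit 0)) .nil)))) (.cons (.ev (nat_lit 20282409608374109245885927915521) (nat_lit 1)) (.cons (.ev (nat_lit 20282409608374109245890206105601) (nat_lit 1)) .nil)))))) .nil)) (.cons (.br (nat_lit 11) (nat_lit 0) (.cons (.br (nat_lit 2) (nat_lit 1) (.cons (.ev (nat_lit 20282409603670117168020960903169) (nat_lit 1)) (.cons (.ev (nat_lit 20282409603670117449495954391041) (nat_lit 1)) (.cons (.br (nat_lit 11) (nat_lit 1) (.cons (.rf (nat_lit 199) (nat_lit 14246303138893108256)) (.cons (.rf (nat_lit 197) (nat_lit 13119200162328384736)) (.cons (.ev (nat_lit 79537647542532426740273315841)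 (nat_lit 1)) .nil)))) (.cons (.br (nat_lit 7) (nat_lit 1) (.cons (.rf (nat_lit 112) (nat_lit 309103582045228270656)) (.cons (.rf (nat_lit 112) (nat_lit 161637853148123272256)) (.cons (.ev (nat_lit 20282409608374109245885927915521) (nat_lit 1)) .nil)))) (.cons (.br (nat_lit 11) (nat_lit 1) (.cons (.br (nat_lit 7) (nat_lit 1) (.cons (.zr (nat_lit 2417851639232565491007488) (nat_lit 20282409608392483932365582762497) (nat_lit 5) (nat_lit 6)) .nil)) (.cons (.br (nat_lit 7) (nat_lit 1) (.cons (.zr (nat_lit 2417851639232565474231040) (nat_lit 20282409608392483932365649870849) (nat_lit 5) (nat_lit 0)) .nil)) (.cons (.ev (nat_lit 20282409608374109245890206105601) (nat_lit 1)) .nil)))) .nil)))))) .nil)) .nil))) .nil)))) .nil))),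
 (.br (nat_lit 11) (nat_lit 1) (.cons (.ev (nat_lit 79544919968974273530265142020) (nat_lit 3)) .nil)),
 (.br (nat_lit 13) (nat_lit 1) (.cons (.rf (nat_lit 364) (nat_lit 493858305440582043680)) (.cons (.br (nat_lit 6) (nat_lit 1) (.cons (.br (nat_lit 8) (nat_lit 1) (.cons (.br (nat_lit 12) (nat_lit 0) (.cons (.br (nat_lit 7) (nat_lit 1) (.cons (.br (nat_lit 5) (nat_lit 1) (.cons (.rf (nat_lit 365) (nat_lit 493858305440582043680)) (.cons (.zr (nat_lit 2417851639232565474231040) (nat_lit 20282409608392483932365649870849) (nat_lit 5) (nat_lit 0)) (.cons (.zr (nat_lit 2417851639232556884296448) (nat_lit 20282409608392483932369894506497) (nat_lit 5) (nat_lit 0)) .nil)))) (.cons (.br (nat_lit 1) (nat_lit 1) (.cons (.rf (nat_lit 365) (nat_lit 493858305371929675808)) (.cons (.ev (nat_lit 4722438821942971662593) (nat_lit 1)) (.cons (.ev (nat_lit 4722438821938659918081) (nat_lit 1)) .nil)))) (.cons (.kr (nat_lit 1099511627776) (nat_lit 72057594037927936) (nat_lit 5) (nat_lit 0)) (.cons (.br (nat_lit 1) (nat_lit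 1) (.cons (.ev (nat_lit 20282409603670117168025272647681) (nat_lit 1)) (.cons (.zr (nat_lit 2417851855402049053131520) (nat_lit 20282409608392483932365649870849) (nat_lit 5) (nat_lit 0)) (.cons (.ev (nat_lit 79537652246524504600928583681) (nat_lit 1)) .nil)))) (.cons (.br (nat_lit 1) (nat_lit 1) (.cons (.ev (nat_lit 20282409603670117168025272647681) (nat_lit 1)) (.cons (.zr (nat_lit 2417851855402040463196928) (nat_lit 20282409608392483932369894506497) (nat_lit 5) (nat_lit 0)) (.cons (.ev (nat_lit 79537652246524504605240328193) (nat_lit 1)) .nil)))) .nil)))))) .nil)) (.cons (.br (nat_lit 7) (nat_lit 0) (.cons (.br (nat_lit 5) (nat_lit 1) (.cons (.br (nat_lit 12) (nat_lit 1) (.cons (.br (nat_lit 7) (nat_lit 1) (.cons (.ev (nat_lit 81209178498872233397830765839108) (nat_lit 3)) .nil)) (.cons (.br (nat_lit 2) (nat_lit 1) (.cons (.ev (nat_lit 81209178498872233397830765839108) (nat_lit 3)) .nil)) (.cons (.rf (nat_lit 165) (nat_lit 455557585274082198752)) .nil)))) (.cons (.ev (nat_lit 20282409603670117449495954391041)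 (nat_lit 1)) (.cons (.br (nat_lit 11) (nat_lit 1) (.cons (.zr (nat_lit 2417851639232565491007488) (nat_lit 20282409608392483932365582762497) (nat_lit 5) (nat_lit 6)) (.cons (.rf (nat_lit 231) (nat_lit 419786512579321595040)) (.cons (.rf (nat_lit 164) (nat_lit 455557585274082198752)) .nil)))) (.cons (.br (nat_lit 7) (nat_lit 1) (.cons (.zr (nat_lit 2417851639232565474231040) (nat_lit 20282409608392483932365649870849) (nat_lit 5) (nat_lit 0)) (.cons (.ev (nat_lit 1208944338698875705556993) (nat_lit 1)) (.cons (.ev (nat_lit 79537652246524223125968650241) (nat_lit 1)) .nil)))) (.cons (.br (nat_lit 7) (nat_lit 1) (.cons (.zr (nat_lit 2417851639232556884296448) (nat_lit 20282409608392483932369894506497) (nat_lit 5) (nat_lit 0)) (.cons (.ev (nat_lit 1208944338698871427366913) (nat_lit 1)) (.cons (.ev (nat_lit 79537652246524223130246840321) (nat_lit 1)) .nil)))) .nil)))))) .nil)) .nil))) (.cons (.br (nat_lit 9) (nat_lit 1) (.cons (.br (nat_lit 7) (nat_lit 0) (.cons (.br (nat_lit 2) (nat_lit 1) (.cons (.ev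 (nat_lit 20282409603670117168025272647681) (nat_lit 1)) (.cons (.ev (nat_lit 20282409603670117449495954391041) (nat_lit 1)) (.cons (.br (nat_lit 5) (nat_lit 1) (.cons (.ev (nat_lit 1213666704900266095804673) (nat_lit 1)) (.cons (.br (nat_lit 1) (nat_lit 1) (.cons (.ev (nat_lit 1213666705181741055738113) (nat_lit 1)) .nil)) (.cons (.br (nat_lit 1) (nat_lit 1) (.cons (.ev (nat_lit 1213666705181741055738113) (nat_lit 1)) .nil)) .nil)))) (.cons (.br (nat_lit 7) (nat_lit 1) (.cons (.kr (nat_lit 18446744078004584448) (nat_lit 1208925891953698189344768) (nat_lit 2) (nat_lit 0)) (.cons (.kr (nat_lit 18446744073709617152) (nat_lit 1208925891672223212634112) (nat_lit 2) (nat_lit 0)) (.cons (.ev (nat_lit 20282410812577562377649735598081) (nat_lit 1)) .nil)))) (.cons (.br (nat_lit 7) (nat_lit 1) (.cons (.kr (nat_lit 18446744073726394368) (nat_lit 1208925891953698189344768) (nat_lit 2) (nat_lit 0)) (.cons (.kr (nat_lit 18446744073726394368) (nat_lit 1208925891672227507601408) (nat_lit 2) (nat_lit 0)) (.cons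 (.ev (nat_lit 20282410812577562377645457408001) (nat_lit 1)) .nil)))) .nil)))))) .nil)) .nil)) .nil))) .nil))),
 (.br (nat_lit 13) (nat_lit 1) (.cons (.rf (nat_lit 364) (nat_lit 493858305440582043680)) (.cons (.rf (nat_lit 366) (nat_lit 493858305440582043680)) (.cons (.br (nat_lit 13) (nat_lit 1) (.cons (.rf (nat_lit 364) (nat_lit 493858305440582043680)) (.cons (.rf (nat_lit 366) (nat_lit 493858305440582043680)) .nil))) .nil)))),
 (.br (nat_lit 1) (nat_lit 1) (.cons (.ev (nat_lit 18518802771554074881) (nat_lit 1)) (.cons (.zr (nat_lit 36893488147419300608) (nat_lit 20282410817299856802925359661057) (nat_lit 5) (nat_lit 0)) (.cons (.zr (nat_lit 36893488151747821568) (nat_lit 20282410817299856802921047917057) (nat_lit 5) (nat_lit 6)) .nil)))),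
 (.br (nat_lit 8) (nat_lit 1) (.cons (.br (nat_lit 9) (nat_lit 1) (.cons (.br (nat_lit 7) (nat_lit 1) (.cons (.br (nat_lit 11) (nat_lit 1) (.cons (.zr (nat_lit 36893488147419300608) (nat_lit 20282410817299856802925359661057) (nat_lit 5) (nat_lit 0)) (.cons (.zr (nat_lit 2417851639232565474231040) (nat_lit 20282409608392483932365649870849) (nat_lit 5) (nat_lit 0)) (.cons (.ev (nat_lit 20361948464842388948182049489153) (nat_lit 1)) .nil)))) (.cons (.rf (nat_lit 368) (nat_lit 493858305440582043680)) (.cons (.rf (nat_lit 368) (nat_lit 345165351279913997344)) (.cons (.ev (nat_lit 20282409608374109245890206105601) (nat_lit 1)) (.cons (.ev (nat_lit 20282409608374109245885927915521) (nat_lit 1)) .nil)))))) .nil)) .nil)),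
 (.br (nat_lit 1) (nat_lit 1) (.cons (.ev (nat_lit 18518802767275884801) (nat_lit 1)) (.cons (.zr (nat_lit 36893488156026011648) (nat_lit 20282410817299856802921047917057) (nat_lit 5) (nat_lit 6)) (.cons (.zr (nat_lit 36893488147419300608) (nat_lit 20282410817299856802925359661057) (nat_lit 5) (nat_lit 0)) .nil)))),
 (.br (nat_lit 9) (nat_lit 1) (.cons (.br (nat_lit 6) (nat_lit 1) (.cons (.br (nat_lit 2) (nat_lit 1) (.cons (.br (nat_lit 7) (nat_lit 1) (.cons (.ev (nat_lit 20282410817299856522549877866753) (nat_lit 1)) (.cons (.zr (nat_lit 216735732067401728) (nat_lit 20282410817318303265524092502017) (nat_lit 5) (nat_lit 0)) (.cons (.zr (nat_lit 216735732100956160) (nat_lit 20282410817318303265536960626689) (nat_lit 5) (nat_lit 0)) .nil)))) (.cons (.br (nat_lit 7) (nat_lit 1) (.cons (.ev (nat_lit 20282410817299856804020559610113) (nat_lit 1)) (.cons (.zr (nat_lit 216172790703915008) (nat_lit 20282410817318303546994774245377) (nat_lit 5) (nat_lit 0)) (.cons (.zr (nat_lit 216172782147534848) (nat_lit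 20282410817318303546999052435457) (nat_lit 5) (nat_lit 0)) .nil)))) (.cons (.ev (nat_lit 20282409608374109245885927915521) (nat_lit 1)) (.cons (.br (nat_lit 7) (nat_lit 1) (.cons (.zr (nat_lit 216735732067401728) (nat_lit 20282410817318303265524092502017) (nat_lit 5) (nat_lit 0)) (.cons (.zr (nat_lit 216172790703915008) (nat_lit 20282410817318303546994774245377) (nat_lit 5) (nat_lit 0)) (.cons (.ev (nat_lit 79537647542532426740273315841) (nat_lit 1)) .nil)))) (.cons (.br (nat_lit 11) (nat_lit 1) (.cons (.kr (nat_lit 1208925819614633469673472) (nat_lit 79537647524085682662268731392) (nat_lit 4) (nat_lit 0)) (.cons (.kr (nat_lit 1208925819896104151416832) (nat_lit 79537647524085682662268731392) (nat_lit 6) (nat_lit 0)) (.cons (.ev (nat_lit 79537647542532426735995125761) (nat_lit 1)) .nil)))) .nil)))))) .nil)) .nil))]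

theorem c12 : chkAll C T R L12 (nat_lit 355) = true := by decide +kernel

theorem l12 : (nat_lit 355) + L12.length = (nat_lit 372) := by decide +kernel

/-- part of the certificates -/
def L13 : List Prf := [(.br (nat_lit 2) (nat_lit 0) (.cons (.br (nat_lit 7) (nat_lit 0) (.cons (.rf (nat_lit 358) (nat_lit 493856055839690953760)) (.cons (.br (nat_lit 13) (nat_lit 1) (.cons (.rf (nat_lit 369) (nat_lit 493858305440582043680)) (.cons (.br (nat_lit 12) (nat_lit 0) (.cons (.rf (nat_lit 369) (nat_lit 492739163132102054944)) (.cons (.br (nat_lit 8) (nat_lit 1) (.cons (.br (nat_lit 7) (nat_lit 1) (.cons (.br (nat_lit 11) (nat_lit 1) (.cons (.zr (nat_lit 36893488156009235200) (nat_lit 20282410817299856802921115025409) (nat_lit 5) (nat_lit 0)) (.cons (.zr (nat_lit 2417851639232565474231040) (nat_lit 20282409608392483932365649870849) (nat_lit 5) (nat_lit 0)) (.cons (.ev (nat_lit 20361948464842388948182049489153) (nat_lit 1)) .nil)))) (.cons (.rf (nat_lit 370) (nat_lit 493858305440582043680)) (.cons (.rf (nat_lit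 370) (nat_lit 493856055839690953760)) (.cons (.ev (nat_lit 20282409608374109245885927915521) (nat_lit 1)) (.cons (.ev (nat_lit 20282409608374109245890206105601) (nat_lit 1)) .nil)))))) .nil)) .nil))) .nil))) .nil))) (.cons (.br (nat_lit 7) (nat_lit 0) (.cons (.br (nat_lit 9) (nat_lit 1) (.cons (.rf (nat_lit 161) (nat_lit 12836853473679246496)) (.cons (.br (nat_lit 12) (nat_lit 0) (.cons (.br (nat_lit 11) (nat_lit 0) (.cons (.br (nat_lit 5) (nat_lit 1) (.cons (.br (nat_lit 12) (nat_lit 1) (.cons (.br (nat_lit 11) (nat_lit 1) (.cons (.ev (nat_lit 79540065449584516464686466820) (nat_lit 3)) .nil)) (.cons (.br (nat_lit 11) (nat_lit 1) (.cons (.ev (nat_lit 79540065449584516481799227140) (nat_lit 3)) .nil)) (.cons (.rf (nat_lit 223) (nat_lit 420143175459608397024)) .nil)))) (.cons (.ev (nat_lit 1208944266640177877811201) (nat_lit 1)) (.cons (.br (nat_lit 1) (nat_lit 1) (.cons (.zr (nat_lit 40564819207303557020676616356608) (nat_lit 1213666633123051817926657) (nat_lit 5) (nat_lit 0)) (.cons (.zr (nat_lit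 2417851639232565491007488) (nat_lit 20282409608392483932365582762497) (nat_lit 5) (nat_lit 6)) (.cons (.zr (nat_lit 2417851639232556884296448) (nat_lit 20282409608392483932369894506497) (nat_lit 5) (nat_lit 0)) .nil)))) (.cons (.br (nat_lit 7) (nat_lit 1) (.cons (.zr (nat_lit 2417851639232565474231040) (nat_lit 20282409608392483932365649870849) (nat_lit 5) (nat_lit 0)) (.cons (.ev (nat_lit 20282409603670189508193782136833) (nat_lit 1)) (.cons (.ev (nat_lit 20361948464824014261702394642433) (nat_lit 1)) .nil)))) (.cons (.br (nat_lit 7) (nat_lit 1) (.cons (.zr (nat_lit 2417851639232556884296448) (nat_lit 20282409608392483932369894506497) (nat_lit 5) (nat_lit 0)) (.cons (.ev (nat_lit 20282409603670189508189503946753) (nat_lit 1)) (.cons (.ev (nat_lit 20361948464824014261706672832513) (nat_lit 1)) .nil)))) .nil)))))) .nil)) .nil)) .nil))) (.cons (.br (nat_lit 13) (nat_lit 1) (.cons (.rf (nat_lit 371) (nat_lit 493858305440582043680)) (.cons (.br (nat_lit 11) (nat_lit 0) (.cons (.br (nat_lit 12) (nat_lit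 0) (.cons (.br (nat_lit 7) (nat_lit 1) (.cons (.br (nat_lit 12) (nat_lit 1) (.cons (.zr (nat_lit 216735732067401728) (nat_lit 20282410817318303265524092502017) (nat_lit 5) (nat_lit 0)) (.cons (.zr (nat_lit 2417851639232556884296448) (nat_lit 20282409608392483932369894506497) (nat_lit 5) (nat_lit 0)) (.cons (.ev (nat_lit 20361948464824014543177354575873) (nat_lit 1)) .nil)))) (.cons (.ev (nat_lit 20282409608374109245885927915521) (nat_lit 1)) (.cons (.br (nat_lit 2) (nat_lit 1) (.cons (.ev (nat_lit 20282410817299856522545599676673) (nat_lit 1)) (.cons (.zr (nat_lit 216172790703915008) (nat_lit 20282410817318303546994774245377) (nat_lit 5) (nat_lit 0)) (.cons (.zr (nat_lit 216172782147534848) (nat_lit 20282410817318303546999052435457) (nat_lit 5) (nat_lit 0)) .nil)))) (.cons (.br (nat_lit 2) (nat_lit 1) (.cons (.zr (nat_lit 216735740657336320) (nat_lit 20282410817318303265519847866369) (nat_lit 5) (nat_lit 0)) (.cons (.zr (nat_lit 216172790703915008) (nat_lit 20282410817318303546994774245377) (nat_lit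 5) (nat_lit 0)) (.cons (.ev (nat_lit 79537647542532426735995125761) (nat_lit 1)) .nil)))) (.cons (.br (nat_lit 2) (nat_lit 1) (.cons (.zr (nat_lit 216735732067401728) (nat_lit 20282410817318303265524092502017) (nat_lit 5) (nat_lit 0)) (.cons (.zr (nat_lit 216172782147534848) (nat_lit 20282410817318303546999052435457) (nat_lit 5) (nat_lit 0)) (.cons (.ev (nat_lit 79537647542532426740273315841) (nat_lit 1)) .nil)))) .nil)))))) .nil)) (.cons (.rf (nat_lit 371) (nat_lit 346284493588393986080)) .nil))) .nil))) .nil))) (.cons (.rf (nat_lit 367) (nat_lit 493858305440582043680)) (.cons (.rf (nat_lit 367) (nat_lit 346284493588393986080)) .nil))))),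
 (.br (nat_lit 13) (nat_lit 1) (.cons (.rf (nat_lit 367) (nat_lit 346284493588393986080)) (.cons (.rf (nat_lit 372) (nat_lit 346284493588393986080)) (.cons (.br (nat_lit 13) (nat_lit 1) (.cons (.rf (nat_lit 367) (nat_lit 346284493588393986080)) (.cons (.rf (nat_lit 372) (nat_lit 346284493588393986080)) .nil))) .nil)))),
 (.br (nat_lit 9) (nat_lit 1) (.cons (.rf (nat_lit 367) (nat_lit 493858305440582043680)) (.cons (.rf (nat_lit 372) (nat_lit 493858305440582043680)) (.cons (.rf (nat_lit 373) (nat_lit 493858305440582043680)) (.cons (.br (nat_lit 9) (nat_lit 1) (.cons (.rf (nat_lit 367) (nat_lit 493858305440582043680)) (.cons (.rf (nat_lit 372) (nat_lit 493858305440582043680)) (.cons (.rf (nat_lit 373) (nat_lit 493858305440582043680)) .nil)))) .nil))))),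
 (.br (nat_lit 10) (nat_lit 1) (.cons (.rf (nat_lit 358) (nat_lit 493858305440582043680)) (.cons (.rf (nat_lit 374) (nat_lit 493858305440582043680)) (.cons (.rf (nat_lit 374) (nat_lit 492741412732993144864)) .nil)))),
 (.br (nat_lit 10) (nat_lit 1) (.cons (.ev (nat_lit 1213648186097503131664641) (nat_lit 1)) .nil)),
 (.br (nat_lit 12) (nat_lit 1) (.cons (.ev (nat_lit 1213666705181741055738113) (nat_lit 1)) .nil)),
 (.br (nat_lit 1) (nat_lit 1) (.cons (.zr (nat_lit 40564819207303340847894502769408) (nat_lit 1213666633123051817926657) (nat_lit 5) (nat_lit 0)) (.cons (.rf (nat_lit 377) (nat_lit 493858305440582043680)) (.cons (.rf (nat_lit 377) (nat_lit 492741412732994160672)) .nil)))),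
 (.br (nat_lit 7) (nat_lit 0) (.cons (.br (nat_lit 12) (nat_lit 0) (.cons (.br (nat_lit 11) (nat_lit 0) (.cons (.br (nat_lit 7) (nat_lit 1) (.cons (.br (nat_lit 5) (nat_lit 1) (.cons (.zr (nat_lit 1208925819616828198028032) (nat_lit 4740813508422643220481) (nat_lit 5) (nat_lit 0)) (.cons (.rf (nat_lit 376) (nat_lit 482283430470584352)) (.cons (.rf (nat_lit 376) (nat_lit 481192714934814752)) .nil)))) (.cons (.rf (nat_lit 378) (nat_lit 493858305440582043680)) (.cons (.rf (nat_lit 378) (nat_lit 383181184613084140576)) (.cons (.ev (nat_lit 20282410812577562377645457408001) (nat_lit 1)) (.cons (.ev (nat_lit 20282410812577562377649735598081) (nat_lit 1)) .nil)))))) .nil)) .nil)) (.cons (.rf (nat_lit 375) (nat_lit 383181184544364665888)) .nil))),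
 (.br (nat_lit 7) (nat_lit 0) (.cons (.rf (nat_lit 379) (nat_lit 493858305440582043680)) (.cons (.br (nat_lit 7) (nat_lit 0) (.cons (.rf (nat_lit 379) (nat_lit 493858305440582043680)) (.cons (.rf (nat_lit 375) (nat_lit 383181184544364665888)) .nil))) (.cons (.rf (nat_lit 375) (nat_lit 383181184544364665888)) .nil)))),
 (.br (nat_lit 13) (nat_lit 1) (.cons (.br (nat_lit 7) (nat_lit 1) (.cons (.br (nat_lit 2) (nat_lit 1) (.cons (.zr (nat_lit 2417851639232556884296448) (nat_lit 20282409608392483932369894506497) (nat_lit 5) (nat_lit 0)) (.cons (.ev (nat_lit 20282410812577490320051419545601) (nat_lit 1)) (.cons (.ev (nat_lit 20282410812577490320055697735681) (nat_lit 1)) .nil)))) (.cons (.br (nat_lit 1) (nat_lit 1) (.cons (.ev (nat_lit 20282412026244123725677742522626) (nat_lit 2)) (.cons (.rf (nat_lit 301) (nat_lit 419822291759217777728)) (.cons (.rf (nat_lit 291) (nat_lit 419776243250239931456)) .nil)))) (.cons (.br (nat_lit 2) (nat_lit 1) (.cons (.zr (nat_lit 2417851639232556884296448) (nat_lit 20282409608392483932369894506497)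 (nat_lit 5) (nat_lit 0)) (.cons (.ev (nat_lit 20282410812577490320051419545601) (nat_lit 1)) (.cons (.ev (nat_lit 20282410812577490320055697735681) (nat_lit 1)) .nil)))) (.cons (.ev (nat_lit 20282409608374109245890206105601) (nat_lit 1)) (.cons (.ev (nat_lit 20282409608374109245885927915521) (nat_lit 1)) .nil)))))) .nil)),
 (.br (nat_lit 7) (nat_lit 0) (.cons (.rf (nat_lit 380) (nat_lit 493858305268783356960)) (.cons (.br (nat_lit 11) (nat_lit 0) (.cons (.rf (nat_lit 381) (nat_lit 493858305440582043680)) (.cons (.br (nat_lit 12) (nat_lit 0) (.cons (.rf (nat_lit 381) (nat_lit 492741412732993144864)) .nil)) .nil))) .nil))),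
 (.br (nat_lit 7) (nat_lit 0) (.cons (.br (nat_lit 7) (nat_lit 0) (.cons (.rf (nat_lit 380) (nat_lit 493858305268783356960)) (.cons (.rf (nat_lit 375) (nat_lit 383176685342951573536)) .nil))) (.cons (.rf (nat_lit 382) (nat_lit 493858305440582043680)) (.cons (.br (nat_lit 7) (nat_lit 0) (.cons (.rf (nat_lit 375) (nat_lit 383176685342951573536)) (.cons (.rf (nat_lit 382) (nat_lit 493858305440582043680)) .nil))) .nil)))),
 (.br (nat_lit 3) (nat_lit 1) (.cons (.ev (nat_lit 309485009893403762291179521) (nat_lit 1)) .nil)),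
 (.br (nat_lit 11) (nat_lit 1) (.cons (.ev (nat_lit 18519083147036000513) (nat_lit 1)) .nil)),
 (.br (nat_lit 7) (nat_lit 1) (.cons (.zr (nat_lit 2417851639232556884296448) (nat_lit 20282409608392483932369894506497) (nat_lit 5) (nat_lit 0)) (.cons (.rf (nat_lit 385) (nat_lit 15433035725666355232)) (.cons (.rf (nat_lit 385) (nat_lit 15398132828553218080)) .nil)))),
 (.br (nat_lit 13) (nat_lit 1) (.cons (.br (nat_lit 2) (nat_lit 1) (.cons (.br (nat_lit 7) (nat_lit 1) (.cons (.zr (nat_lit 2417851639232556884296448) (nat_lit 20282409608392483932369894506497) (nat_lit 5) (nat_lit 0)) (.cons (.rf (nat_lit 384) (nat_lit 482283501406816288)) (.cons (.rf (nat_lit 384) (nat_lit 337077735235160096)) .nil)))) (.cons (.rf (nat_lit 386) (nat_lit 493858305440582043680)) (.cons (.rf (nat_lit 386) (nat_lit 493858305371929675808)) (.cons (.ev (nat_lit 20282409608374037188296168243201) (nat_lit 1)) (.cons (.ev (nat_lit 20282409608374037188291890053121) (nat_lit 1)) .nil)))))) .nil)),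
 (.br (nat_lit 12) (nat_lit 1) (.cons (.ev (nat_lit 79537647542532708210955059201) (nat_lit 1)) .nil)),
 (.br (nat_lit 5) (nat_lit 1) (.cons (.zr (nat_lit 2417851639232556884296448) (nat_lit 20282409608392483932369894506497) (nat_lit 5) (nat_lit 0)) (.cons (.rf (nat_lit 388) (nat_lit 493858305440582043680)) (.cons (.rf (nat_lit 197) (nat_lit 14246303138893108256)) .nil)))),
 (.br (nat_lit 7) (nat_lit 0) (.cons (.rf (nat_lit 383) (nat_lit 493858305268783356960)) (.cons (.br (nat_lit 8) (nat_lit 1) (.cons (.br (nat_lit 1) (nat_lit 1) (.cons (.rf (nat_lit 389) (nat_lit 493858305440582043680)) (.cons (.ev (nat_lit 20282412026244123725677742522626) (nat_lit 2)) (.cons (.rf (nat_lit 389) (nat_lit 493858305268783356960)) (.cons (.br (nat_lit 5) (nat_lit 1) (.cons (.rf (nat_lit 205) (nat_lit 13119200162328384736)) (.cons (.rf (nat_lit 205) (nat_lit 13119200162496156736)) (.cons (.rf (nat_lit 241) (nat_lit 14236092870084039744)) .nil)))) (.cons (.br (nat_lit 5) (nat_lit 1) (.cons (.rf (nat_lit 198) (nat_lit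 13119200162328384736)) (.cons (.rf (nat_lit 198) (nat_lit 13119200162496156736)) (.cons (.rf (nat_lit 259) (nat_lit 14236092870084039744)) .nil)))) .nil)))))) .nil)) .nil))),
 (.br (nat_lit 9) (nat_lit 1) (.cons (.rf (nat_lit 390) (nat_lit 493858305440582043680)) (.cons (.br (nat_lit 13) (nat_lit 1) (.cons (.rf (nat_lit 390) (nat_lit 346284493588393986080)) .nil)) .nil))),
 (.br (nat_lit 2) (nat_lit 0) (.cons (.rf (nat_lit 380) (nat_lit 493858305440582043680)) (.cons (.rf (nat_lit 383) (nat_lit 493858305440582043680)) (.cons (.br (nat_lit 6) (nat_lit 1) (.cons (.br (nat_lit 7) (nat_lit 0) (.cons (.br (nat_lit 11) (nat_lit 0) (.cons (.rf (nat_lit 387) (nat_lit 493858305440582043680)) (.cons (.rf (nat_lit 387) (nat_lit 346284493588393986080)) .nil))) (.cons (.rf (nat_lit 375) (nat_lit 383181184544532432928)) (.cons (.rf (nat_lit 375) (nat_lit 383176685342951573536)) .nil)))) (.cons (.rf (nat_lit 391) (nat_lit 493858305440582043680)) (.cons (.rf (nat_lit 391) (nat_lit 492741412732993144864)) .nil))))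 .nil)))),
 (.br (nat_lit 13) (nat_lit 1) (.cons (.rf (nat_lit 392) (nat_lit 346284493588393986080)) (.cons (.rf (nat_lit 392) (nat_lit 346284493416595299360)) (.cons (.br (nat_lit 13) (nat_lit 1) (.cons (.rf (nat_lit 392) (nat_lit 346284493588393986080)) (.cons (.rf (nat_lit 392) (nat_lit 346284493416595299360)) .nil))) .nil)))),
 (.br (nat_lit 10) (nat_lit 1) (.cons (.rf (nat_lit 375) (nat_lit 493858305440582043680)) (.cons (.rf (nat_lit 375) (nat_lit 493858305268783356960)) (.cons (.br (nat_lit 9) (nat_lit 1) (.cons (.rf (nat_lit 392) (nat_lit 493858305440582043680)) (.cons (.rf (nat_lit 392) (nat_lit 493858305268783356960)) (.cons (.rf (nat_lit 393) (nat_lit 493858305440582043680)) (.cons (.rf (nat_lit 393) (nat_lit 492741412732993144864)) .nil))))) .nil)))),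
 (.br (nat_lit 5) (nat_lit 0) (.cons (.rf (nat_lit 328) (nat_lit 247132686368)) (.cons (.rf (nat_lit 328) (nat_lit 247131670560)) (.cons (.br (nat_lit 8) (nat_lit 0) (.cons (.br (nat_lit 9) (nat_lit 0) (.cons (.br (nat_lit 3) (nat_lit 1) (.cons (.rf (nat_lit 328) (nat_lit 247032026144)) (.cons (.rf (nat_lit 328) (nat_lit 178480318496)) (.cons (.br (nat_lit 4) (nat_lit 1) (.cons (.rf (nat_lit 328) (nat_lit 247031010336)) (.cons (.rf (nat_lit 328) (nat_lit 178479302688)) (.cons (.kr (nat_lit 16777216) (nat_lit 4294967296) (nat_lit 3) (nat_lit 0)) (.cons (.br (nat_lit 8) (nat_lit 0) (.cons (.br (nat_lit 2) (nat_lit 0) (.cons (.rf (nat_lit 334) (nat_lit 14242959524133701664)) (.cons (.rf (nat_lit 335) (nat_lit 14242959524133701664)) (.cons (.rf (nat_lit 336) (nat_lit 14242959524133701664)) (.cons (.rf (nat_lit 336) (nat_lit 14241868808598947872)) (.cons (.rf (nat_lit 17) (nat_lit 14303893635)) .nil)))))) (.cons (.br (nat_lit 10) (nat_lit 0) (.cons (.br (nat_lit 10) (nat_lit 1) (.cons (.rf (nat_lit 375)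 (nat_lit 493858305440582043680)) (.cons (.rf (nat_lit 375) (nat_lit 493858305268783356960)) (.cons (.rf (nat_lit 394) (nat_lit 493858305440582043680)) (.cons (.rf (nat_lit 394) (nat_lit 492741412732993144864)) .nil))))) .nil)) .nil))) .nil))))) .nil)))) .nil)) .nil)) .nil)))),
 (.br (nat_lit 2) (nat_lit 0) (.cons (.rf (nat_lit 328) (nat_lit 247032026144)) (.cons (.rf (nat_lit 328) (nat_lit 247031010336)) (.cons (.rf (nat_lit 395) (nat_lit 247032026144)) (.cons (.rf (nat_lit 328) (nat_lit 251332396192)) (.cons (.rf (nat_lit 328) (nat_lit 251331380384)) (.cons (.rf (nat_lit 395) (nat_lit 251332396192)) (.cons (.rf (nat_lit 17) (nat_lit 12156409987)) .nil)))))))),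
 (.br (nat_lit 4) (nat_lit 1) (.cons (.rf (nat_lit 328) (nat_lit 247031010336)) (.cons (.rf (nat_lit 328) (nat_lit 247131670560)) (.cons (.rf (nat_lit 328) (nat_lit 178479302688)) (.cons (.kr (nat_lit 16777216) (nat_lit 4294967296) (nat_lit 3) (nat_lit 0)) (.cons (.br (nat_lit 5) (nat_lit 0) (.cons (.rf (nat_lit 396) (nat_lit 12710601549776928)) (.cons (.rf (nat_lit 396) (nat_lit 10529170480269344)) (.cons (.rf (nat_lit 17) (nat_lit 14337448067)) .nil)))) .nil)))))),
 (.br (nat_lit 13) (nat_lit 1) (.cons (.br (nat_lit 7) (nat_lit 1) (.cons (.ev (nat_lit 20282409608374108964415246172161) (nat_lit 1)) (.cons (.zr (nat_lit 309494454770483590162546688) (nat_lit 20282409603670117449500232646657) (nat_lit 5) (nat_lit 8)) (.cons (.zr (nat_lit 40564819207321787595275336941568) (nat_lit 309489732332224601439338497) (nat_lit 5) (nat_lit 9)) (.cons (.ev (nat_lit 20282409608374109245890206105601) (nat_lit 1)) (.cons (.ev (nat_lit 20282409608374109245885927915521) (nat_lit 1)) .nil)))))) .nil)),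
 (.br (nat_lit 2) (nat_lit 0) (.cons (.br (nat_lit 12) (nat_lit 0) (.cons (.br (nat_lit 13) (nat_lit 1) (.cons (.br (nat_lit 12) (nat_lit 1) (.cons (.br (nat_lit 10) (nat_lit 1) (.cons (.ev (nat_lit 309489732188109413363548161) (nat_lit 1)) (.cons (.ev (nat_lit 20282719088661492051594759372801) (nat_lit 1)) (.cons (.ev (nat_lit 20282409608374109245890206105601) (nat_lit 1)) .nil)))) (.cons (.ev (nat_lit 309489732188109417641738241) (nat_lit 1)) (.cons (.ev (nat_lit 20282719088661492051590481182721) (nat_lit 1)) (.cons (.ev (nat_lit 20282409608374109245885927915521) (nat_lit 1)) (.cons (.br (nat_lit 1) (nat_lit 1) (.cons (.ev (nat_lit 309489732187827938370060289) (nat_lit 1)) (.cons (.ev (nat_lit 20282719088661491770119799439361) (nat_lit 1)) (.cons (.ev (nat_lit 20282409608374108964415246172161) (nat_lit 1)) .nil)))) .nil)))))) .nil)) .nil)) (.cons (.br (nat_lit 10) (nat_lit 0) (.cons (.rf (nat_lit 398) (nat_lit 493858305440582043680)) (.cons (.rf (nat_lit 398) (nat_lit 346176410495771317280)) .nil)))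 .nil)))]

theorem c13 : chkAll C T R L13 (nat_lit 372) = true := by decide +kernel

theorem l13 : (nat_lit 372) + L13.length = (nat_lit 400) := by decide +kernel

/-- part of the certificates -/
def L14 : List Prf := [(.br (nat_lit 5) (nat_lit 1) (.cons (.zr (nat_lit 566248488501248) (nat_lit 20282719093402304995963642576897) (nat_lit 5) (nat_lit 0)) (.cons (.zr (nat_lit 3298568634368) (nat_lit 20282719093402305277438602510337) (nat_lit 5) (nat_lit 0)) (.cons (.zr (nat_lit 3307125014528) (nat_lit 20282719093402305277434324320257) (nat_lit 5) (nat_lit 0)) .nil)))),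
 (.br (nat_lit 10) (nat_lit 0) (.cons (.br (nat_lit 7) (nat_lit 1) (.cons (.ev (nat_lit 309489732259885532407922689) (nat_lit 1)) (.cons (.rf (nat_lit 400) (nat_lit 493858305440582043680)) (.cons (.rf (nat_lit 400) (nat_lit 307015291766249231392)) (.cons (.ev (nat_lit 309489732260167007401410561) (nat_lit 1)) (.cons (.ev (nat_lit 309489732260167011679600641) (nat_lit 1)) .nil)))))) .nil)),
 (.br (nat_lit 2) (nat_lit 0) (.cons (.rf (nat_lit 399) (nat_lit 493786318146468158496)) (.cons (.br (nat_lit 12) (nat_lit 0) (.cons (.rf (nat_lit 401) (nat_lit 493858305440582043680)) (.cons (.rf (nat_lit 401) (nat_lit 309318882975650255904)) .nil))) .nil))),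
 (.br (nat_lit 12) (nat_lit 1) (.cons (.ev (nat_lit 20282719088661563827713837432833) (nat_lit 1)) .nil)),
 (.br (nat_lit 7) (nat_lit 1) (.cons (.zr (nat_lit 566248488501248) (nat_lit 20282719093402304995963642576897) (nat_lit 5) (nat_lit 0)) (.cons (.rf (nat_lit 403) (nat_lit 493858305440582043680)) (.cons (.rf (nat_lit 403) (nat_lit 491554714231181019168)) .nil)))),
 (.br (nat_lit 7) (nat_lit 1) (.cons (.rf (nat_lit 403) (nat_lit 493858305268783356960)) (.cons (.zr (nat_lit 3298568634368) (nat_lit 20282719093402305277438602510337) (nat_lit 5) (nat_lit 0)) (.cons (.br (nat_lit 5) (nat_lit 1) (.cons (.ev (nat_lit 20361948460101575721243006468353) (nat_lit 1)) .nil)) .nil)))),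
 (.br (nat_lit 12) (nat_lit 0) (.cons (.br (nat_lit 2) (nat_lit 1) (.cons (.rf (nat_lit 404) (nat_lit 493858305440582043680)) (.cons (.br (nat_lit 7) (nat_lit 1) (.cons (.zr (nat_lit 216739030602088448) (nat_lit 20282719093402304995963642576897) (nat_lit 5) (nat_lit 0)) (.cons (.zr (nat_lit 216176080682221568) (nat_lit 20282719093402305277438602510337) (nat_lit 5) (nat_lit 0)) (.cons (.zr (nat_lit 216176089238601728) (nat_lit 20282719093402305277434324320257) (nat_lit 5) (nat_lit 0)) .nil)))) (.cons (.kr (nat_lit 65536) (nat_lit 72057594037927936) (nat_lit 2) (nat_lit 0)) (.cons (.rf (nat_lit 405) (nat_lit 493858305440582043680)) (.cons (.rf (nat_lit 405) (nat_lit 417839761445520279584)) .nil)))))) .nil)),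
 (.br (nat_lit 7) (nat_lit 0) (.cons (.rf (nat_lit 399) (nat_lit 493858305440582043680)) (.cons (.rf (nat_lit 402) (nat_lit 493858305440582043680)) (.cons (.br (nat_lit 2) (nat_lit 0) (.cons (.rf (nat_lit 399) (nat_lit 346176410324140397600)) (.cons (.rf (nat_lit 402) (nat_lit 309318882804019336224)) (.cons (.br (nat_lit 10) (nat_lit 0) (.cons (.rf (nat_lit 406) (nat_lit 493858305440582043680)) (.cons (.rf (nat_lit 406) (nat_lit 420143352654921304096)) .nil))) .nil)))) .nil)))),
 (.br (nat_lit 7) (nat_lit 0) (.cons (.rf (nat_lit 407) (nat_lit 346176410495771317280)) (.cons (.rf (nat_lit 407) (nat_lit 309318882975650255904)) (.cons (.rf (nat_lit 407) (nat_lit 493858305440582043680)) (.cons (.rf (nat_lit 407) (nat_lit 420143352654921304096)) .nil))))),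
 (.br (nat_lit 7) (nat_lit 0) (.cons (.rf (nat_lit 407) (nat_lit 419963384523034560544)) (.cons (.rf (nat_lit 407) (nat_lit 346176410427219609632)) .nil))),
 (.br (nat_lit 7) (nat_lit 1) (.cons (.zr (nat_lit 216735732067401728) (nat_lit 20282719093402304995963642576897) (nat_lit 5) (nat_lit 0)) (.cons (.zr (nat_lit 216172782147534848) (nat_lit 20282719093402305277438602510337) (nat_lit 5) (nat_lit 0)) (.cons (.zr (nat_lit 216172790703915008) (nat_lit 20282719093402305277434324320257) (nat_lit 5) (nat_lit 0)) .nil)))),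
 (.br (nat_lit 13) (nat_lit 1) (.cons (.rf (nat_lit 409) (nat_lit 309390870132392298528)) (.cons (.br (nat_lit 8) (nat_lit 1) (.cons (.rf (nat_lit 409) (nat_lit 493858305440582043680)) (.cons (.br (nat_lit 2) (nat_lit 0) (.cons (.br (nat_lit 5) (nat_lit 1) (.cons (.ev (nat_lit 20282719088661491770119799439361) (nat_lit 1)) (.cons (.rf (nat_lit 410) (nat_lit 493858305440582043680)) (.cons (.rf (nat_lit 410) (nat_lit 417839761273721592864)) (.cons (.ev (nat_lit 20282719088661492051594759372801) (nat_lit 1)) (.cons (.ev (nat_lit 20282719088661492051590481182721) (nat_lit 1)) .nil)))))) .nil)) .nil))) .nil))),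
 (.br (nat_lit 13) (nat_lit 1) (.cons (.rf (nat_lit 408) (nat_lit 493858305440582043680)) (.cons (.rf (nat_lit 411) (nat_lit 493858305440582043680)) (.cons (.br (nat_lit 13) (nat_lit 1) (.cons (.rf (nat_lit 408) (nat_lit 493858305440582043680)) (.cons (.rf (nat_lit 411) (nat_lit 493858305440582043680)) .nil))) .nil)))),
 (.br (nat_lit 11) (nat_lit 1) (.cons (.rf (nat_lit 409) (nat_lit 346356378490453985312)) (.cons (.rf (nat_lit 412) (nat_lit 493858305440582043680)) (.cons (.rf (nat_lit 412) (nat_lit 491554714231181019168)) .nil)))),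
 (.br (nat_lit 13) (nat_lit 1) (.cons (.rf (nat_lit 413) (nat_lit 420143352654921304096)) (.cons (.rf (nat_lit 413) (nat_lit 420143352483122617376)) (.cons (.br (nat_lit 13) (nat_lit 1) (.cons (.rf (nat_lit 413) (nat_lit 420143352654921304096)) (.cons (.rf (nat_lit 413) (nat_lit 420143352483122617376)) .nil))) .nil)))),
 (.br (nat_lit 11) (nat_lit 1) (.cons (.rf (nat_lit 413) (nat_lit 493858305440582043680)) (.cons (.rf (nat_lit 413) (nat_lit 493858305268783356960)) (.cons (.rf (nat_lit 414) (nat_lit 493858305440582043680)) (.cons (.rf (nat_lit 414) (nat_lit 491554714231181019168)) .nil))))),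
 (.br (nat_lit 4) (nat_lit 1) (.cons (.ev (nat_lit 18447025552998072321) (nat_lit 1)) .nil)),
 (.br (nat_lit 2) (nat_lit 1) (.cons (.zr (nat_lit 566248488501248) (nat_lit 20282719093402304995963642576897) (nat_lit 5) (nat_lit 0)) (.cons (.rf (nat_lit 416) (nat_lit 15071359418927136)) (.cons (.rf (nat_lit 416) (nat_lit 14998862518454304)) .nil)))),
 (.br (nat_lit 7) (nat_lit 1) (.cons (.rf (nat_lit 417) (nat_lit 493858305371929675808)) (.cons (.zr (nat_lit 3298568634368) (nat_lit 20282719093402305277438602510337) (nat_lit 5) (nat_lit 0)) (.cons (.br (nat_lit 2) (nat_lit 1) (.cons (.ev (nat_lit 309489732259886631919616001) (nat_lit 1)) .nil)) .nil)))),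
 (.br (nat_lit 10) (nat_lit 0) (.cons (.br (nat_lit 5) (nat_lit 1) (.cons (.rf (nat_lit 417) (nat_lit 493858305440582043680)) (.cons (.br (nat_lit 7) (nat_lit 1) (.cons (.zr (nat_lit 216735732067401728) (nat_lit 20282719093402304995963642576897) (nat_lit 5) (nat_lit 0)) (.cons (.zr (nat_lit 216172782147534848) (nat_lit 20282719093402305277438602510337) (nat_lit 5) (nat_lit 0)) (.cons (.zr (nat_lit 216172790703915008) (nat_lit 20282719093402305277434324320257) (nat_lit 5) (nat_lit 0)) .nil)))) (.cons (.kr (nat_lit 1099511627776) (nat_lit 72057594037927936) (nat_lit 5) (nat_lit 0)) (.cons (.rf (nat_lit 418) (nat_lit 493858305440582043680)) (.cons (.rf (nat_lit 418) (nat_lit 491482727005887268896)) .nil)))))) .nil)),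
 (.br (nat_lit 2) (nat_lit 0) (.cons (.br (nat_lit 12) (nat_lit 0) (.cons (.rf (nat_lit 419) (nat_lit 493858305440582043680)) (.cons (.rf (nat_lit 419) (nat_lit 493786318215288293408)) .nil))) .nil)),
 (.br (nat_lit 7) (nat_lit 0) (.cons (.rf (nat_lit 415) (nat_lit 493858305371929675808)) (.cons (.rf (nat_lit 415) (nat_lit 493786318146635925536)) (.cons (.br (nat_lit 2) (nat_lit 0) (.cons (.rf (nat_lit 420) (nat_lit 493858305440582043680)) (.cons (.rf (nat_lit 420) (nat_lit 493786318215288293408)) .nil))) .nil)))),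
 (.br (nat_lit 7) (nat_lit 0) (.cons (.rf (nat_lit 415) (nat_lit 493858305371929675808)) (.cons (.br (nat_lit 2) (nat_lit 0) (.cons (.rf (nat_lit 421) (nat_lit 493858305268783356960)) (.cons (.rf (nat_lit 421) (nat_lit 420143352483189724192)) (.cons (.rf (nat_lit 421) (nat_lit 346356378387374773280)) (.cons (.rf (nat_lit 421) (nat_lit 309390870029245979680)) .nil))))) (.cons (.rf (nat_lit 415) (nat_lit 419963384523034560544)) .nil)))),
 (.br (nat_lit 3) (nat_lit 1) (.cons (.rf (nat_lit 328) (nat_lit 247032026144)) (.cons (.rf (nat_lit 328) (nat_lit 247132686368)) (.cons (.rf (nat_lit 328) (nat_lit 178480318496)) (.cons (.kr (nat_lit 16777216) (nat_lit 4294967296) (nat_lit 3) (nat_lit 0)) (.cons (.br (nat_lit 5) (nat_lit 0) (.cons (.rf (nat_lit 415) (nat_lit 493858305440582043680)) (.cons (.rf (nat_lit 415) (nat_lit 493786318215288293408)) (.cons (.br (nat_lit 7) (nat_lit 0) (.cons (.rf (nat_lit 421) (nat_lit 493858305440582043680)) (.cons (.rf (nat_lit 422) (nat_lit 493858305440582043680)) (.cons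 (.rf (nat_lit 422) (nat_lit 493786318215288293408)) (.cons (.rf (nat_lit 421) (nat_lit 309390870201044666400)) .nil))))) .nil)))) .nil)))))),
 (.br (nat_lit 5) (nat_lit 0) (.cons (.rf (nat_lit 328) (nat_lit 247132686368)) (.cons (.rf (nat_lit 328) (nat_lit 247131670560)) (.cons (.rf (nat_lit 395) (nat_lit 247132686368)) (.cons (.br (nat_lit 8) (nat_lit 0) (.cons (.br (nat_lit 6) (nat_lit 1) (.cons (.rf (nat_lit 395) (nat_lit 247032026144)) (.cons (.rf (nat_lit 395) (nat_lit 247132686368)) (.cons (.rf (nat_lit 395) (nat_lit 178480318496)) (.cons (.br (nat_lit 8) (nat_lit 0) (.cons (.br (nat_lit 6) (nat_lit 1) (.cons (.rf (nat_lit 395) (nat_lit 247032026144)) (.cons (.rf (nat_lit 395) (nat_lit 247132686368)) (.cons (.rf (nat_lit 395) (nat_lit 178480318496)) (.cons (.br (nat_lit 9) (nat_lit 0) (.cons (.br (nat_lit 3) (nat_lit 1) (.cons (.rf (nat_lit 328) (nat_lit 247032026144)) (.cons (.rf (nat_lit 328) (nat_lit 247132686368)) (.cons (.rf (nat_lit 328) (nat_lit 178480318496)) (.cons (.rf (nat_lit 397)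 (nat_lit 14242959524133701664)) (.cons (.rf (nat_lit 397) (nat_lit 11939368314733692960)) .nil)))))) (.cons (.br (nat_lit 11) (nat_lit 0) (.cons (.br (nat_lit 4) (nat_lit 1) (.cons (.rf (nat_lit 328) (nat_lit 247031010336)) (.cons (.rf (nat_lit 328) (nat_lit 247131670560)) (.cons (.rf (nat_lit 328) (nat_lit 178479302688)) (.cons (.rf (nat_lit 423) (nat_lit 493858305440582043680)) (.cons (.rf (nat_lit 423) (nat_lit 491554714231182034976)) .nil)))))) .nil)) .nil))) .nil))))) .nil)) .nil))))) .nil)) .nil))))),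
 (.br (nat_lit 6) (nat_lit 1) (.cons (.br (nat_lit 12) (nat_lit 0) (.cons (.rf (nat_lit 17) (nat_lit 14303893635)) .nil)) .nil)),
 (.br (nat_lit 5) (nat_lit 0) (.cons (.br (nat_lit 7) (nat_lit 0) (.cons (.br (nat_lit 6) (nat_lit 1) (.cons (.br (nat_lit 12) (nat_lit 0) (.cons (.rf (nat_lit 17) (nat_lit 14303893635)) .nil)) .nil)) (.cons (.rf (nat_lit 17) (nat_lit 13230151811)) .nil))) (.cons (.br (nat_lit 7) (nat_lit 0) (.cons (.rf (nat_lit 425) (nat_lit 407901468851537952)) (.cons (.rf (nat_lit 425) (nat_lit 406810751070737440)) (.cons (.rf (nat_lit 17) (nat_lit 13230151811)) .nil)))) (.cons (.rf (nat_lit 17) (nat_lit 13230151811)) .nil)))),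
 (.br (nat_lit 2) (nat_lit 0) (.cons (.rf (nat_lit 426) (nat_lit 407901468851537952)) (.cons (.rf (nat_lit 426) (nat_lit 407901466706151456)) (.cons (.rf (nat_lit 17) (nat_lit 13230151811)) .nil)))),
 (.br (nat_lit 6) (nat_lit 1) (.cons (.br (nat_lit 4) (nat_lit 1) (.cons (.br (nat_lit 12) (nat_lit 0) (.cons (.rf (nat_lit 17) (nat_lit 14303893635)) .nil)) .nil)) (.cons (.br (nat_lit 12) (nat_lit 0) (.cons (.br (nat_lit 12) (nat_lit 0) (.cons (.rf (nat_lit 17) (nat_lit 14303893635)) .nil)) (.cons (.rf (nat_lit 17) (nat_lit 14303893635)) .nil))) .nil))),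
 (.br (nat_lit 7) (nat_lit 0) (.cons (.br (nat_lit 2) (nat_lit 0) (.cons (.kr (nat_lit 4722366482869661990912) (nat_lit 18446744078004518912) (nat_lit 3) (nat_lit 0)) (.cons (.br (nat_lit 5) (nat_lit 0) (.cons (.kr (nat_lit 1208925819614629191483392) (nat_lit 18446744078004518912) (nat_lit 3) (nat_lit 0)) (.cons (.br (nat_lit 4) (nat_lit 1) (.cons (.br (nat_lit 12) (nat_lit 0) (.cons (.rf (nat_lit 17) (nat_lit 14303893635)) .nil)) .nil)) (.cons (.rf (nat_lit 17) (nat_lit 13230151811)) .nil)))) (.cons (.rf (nat_lit 17) (nat_lit 13230151811)) .nil)))) (.cons (.rf (nat_lit 427) (nat_lit 407901262692092128)) (.cons (.br (nat_lit 2) (nat_lit 0) (.cons (.rf (nat_lit 428) (nat_lit 407901468851537952)) (.cons (.br (nat_lit 5) (nat_lit 0) (.cons (.rf (nat_lit 428) (nat_lit 406810753216123936)) (.cons (.rf (nat_lit 428) (nat_lit 406810543836566752)) (.cons (.rf (nat_lit 17) (nat_lit 13230151811)) .nil)))) (.cons (.rf (nat_lit 428) (nat_lit 407901259471980768)) (.cons (.rf (nat_lit 17) (nat_lit 13230151811))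 .nil))))) (.cons (.rf (nat_lit 17) (nat_lit 13230151811)) .nil))))),
 (.br (nat_lit 7) (nat_lit 0) (.cons (.kr (nat_lit 9444732965743602171904) (nat_lit 1208944266921652837679104) (nat_lit 3) (nat_lit 0)) (.cons (.rf (nat_lit 17) (nat_lit 14303893635)) .nil))),
 (.br (nat_lit 2) (nat_lit 0) (.cons (.rf (nat_lit 430) (nat_lit 14242959524133701664)) (.cons (.rf (nat_lit 17) (nat_lit 14303893635)) .nil))),
 (.br (nat_lit 11) (nat_lit 0) (.cons (.br (nat_lit 5) (nat_lit 0) (.cons (.rf (nat_lit 431) (nat_lit 14242959524133701664)) (.cons (.rf (nat_lit 431) (nat_lit 14242959521988315168)) (.cons (.rf (nat_lit 17) (nat_lit 14303893635)) .nil)))) (.cons (.rf (nat_lit 17) (nat_lit 14303893635)) .nil))),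
 (.br (nat_lit 11) (nat_lit 0) (.cons (.rf (nat_lit 432) (nat_lit 14242959524133701664)) (.cons (.rf (nat_lit 432) (nat_lit 14242959521988315168)) (.cons (.rf (nat_lit 17) (nat_lit 14303893635)) .nil)))),
 (.br (nat_lit 12) (nat_lit 0) (.cons (.rf (nat_lit 433) (nat_lit 14242959524133701664)) (.cons (.br (nat_lit 7) (nat_lit 0) (.cons (.br (nat_lit 5) (nat_lit 0) (.cons (.kr (nat_lit 1208925819614629191483392) (nat_lit 18446744078004518912) (nat_lit 3) (nat_lit 0)) (.cons (.kr (nat_lit 1208925819614629191483392) (nat_lit 18447025548686262272) (nat_lit 3) (nat_lit 0)) (.cons (.rf (nat_lit 17) (nat_lit 14303893635)) .nil)))) (.cons (.rf (nat_lit 433) (nat_lit 14242959317974255840)) (.cons (.rf (nat_lit 433) (nat_lit 14242959315826837728)) (.cons (.rf (nat_lit 17) (nat_lit 14303893635)) .nil))))) (.cons (.rf (nat_lit 17) (nat_lit 14303893635)) .nil)))),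
 (.br (nat_lit 9) (nat_lit 1) (.cons (.rf (nat_lit 424) (nat_lit 249185993888)) (.cons (.rf (nat_lit 424) (nat_lit 182612919520)) (.cons (.br (nat_lit 10) (nat_lit 1) (.cons (.rf (nat_lit 424) (nat_lit 249286657088)) (.cons (.rf (nat_lit 424) (nat_lit 181540226272)) (.cons (.br (nat_lit 11) (nat_lit 0) (.cons (.rf (nat_lit 427) (nat_lit 407901468851537952)) (.cons (.rf (nat_lit 429) (nat_lit 407901468851537952)) (.cons (.rf (nat_lit 429) (nat_lit 407901466706151456)) (.cons (.rf (nat_lit 17) (nat_lit 13230151811)) .nil))))) (.cons (.br (nat_lit 12) (nat_lit 0) (.cons (.rf (nat_lit 433) (nat_lit 14242959524133701664)) (.cons (.rf (nat_lit 434) (nat_lit 14242959524133701664)) (.cons (.rf (nat_lit 434) (nat_lit 14242959521988315168)) (.cons (.rf (nat_lit 17) (nat_lit 14303893635)) .nil))))) .nil))))) .nil))))]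

theorem c14 : chkAll C T R L14 (nat_lit 400) = true := by decide +kernel

theorem l14 : (nat_lit 400) + L14.length = (nat_lit 436) := by decide +kernel

/-- part of the certificates -/
def L15 : List Prf := [(.br (nat_lit 7) (nat_lit 0) (.cons (.br (nat_lit 7) (nat_lit 0) (.cons (.rf (nat_lit 424) (nat_lit 175093449952)) (.cons (.rf (nat_lit 435) (nat_lit 11584701642934304)) (.cons (.rf (nat_lit 435) (nat_lit 11550616781456448)) (.cons (.rf (nat_lit 435) (nat_lit 10425816286594208)) (.cons (.rf (nat_lit 17) (nat_lit 12156409987)) .nil)))))) (.cons (.rf (nat_lit 435) (nat_lit 6899618244986912)) (.cons (.rf (nat_lit 435) (nat_lit 11584701642934304)) (.cons (.rf (nat_lit 435) (nat_lit 11550616781456448)) (.cons (.rf (nat_lit 435) (nat_lit 10425816286594208)) (.cons (.rf (nat_lit 17) (nat_lit 12156409987)) .nil))))))),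
 (.br (nat_lit 2) (nat_lit 0) (.cons (.rf (nat_lit 436) (nat_lit 11584701642934304)) (.cons (.rf (nat_lit 436) (nat_lit 11584699497547808)) (.cons (.rf (nat_lit 424) (nat_lit 251433059392)) (.cons (.rf (nat_lit 424) (nat_lit 249286657088)) (.cons (.rf (nat_lit 17) (nat_lit 12156409987)) .nil)))))),
 (.br (nat_lit 2) (nat_lit 0) (.cons (.rf (nat_lit 437) (nat_lit 10493986007520288)) (.cons (.rf (nat_lit 437) (nat_lit 11550616781456448)) (.cons (.br (nat_lit 7) (nat_lit 0) (.cons (.rf (nat_lit 435) (nat_lit 4718255827847200)) (.cons (.rf (nat_lit 435) (nat_lit 6865600861504672)) (.cons (.rf (nat_lit 435) (nat_lit 4616001245447232)) (.cons (.rf (nat_lit 435) (nat_lit 11584701642934304)) (.cons (.rf (nat_lit 435) (nat_lit 11550614634038336)) (.cons (.rf (nat_lit 435) (nat_lit 10425816285578400)) (.cons (.rf (nat_lit 17) (nat_lit 12156409987)) .nil)))))))) (.cons (.rf (nat_lit 424) (nat_lit 251433059392)) (.cons (.rf (nat_lit 424) (nat_lit 249286657088)) (.cons (.rf (nat_lit 17) (nat_lit 12156409987))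 .nil))))))),
 (.br (nat_lit 5) (nat_lit 0) (.cons (.rf (nat_lit 437) (nat_lit 11584701642934304)) (.cons (.rf (nat_lit 438) (nat_lit 11584701642934304)) (.cons (.rf (nat_lit 438) (nat_lit 11584699497547808)) (.cons (.rf (nat_lit 424) (nat_lit 250259702944)) (.cons (.rf (nat_lit 424) (nat_lit 249185993888)) (.cons (.rf (nat_lit 17) (nat_lit 12156409987)) .nil))))))),
 (.br (nat_lit 7) (nat_lit 0) (.cons (.rf (nat_lit 439) (nat_lit 4615829447771360)) (.cons (.rf (nat_lit 424) (nat_lit 182612919520)) (.cons (.rf (nat_lit 424) (nat_lit 181540226272)) (.cons (.rf (nat_lit 17) (nat_lit 13230151811)) .nil))))),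
 (.br (nat_lit 7) (nat_lit 0) (.cons (.rf (nat_lit 439) (nat_lit 6899515165774880)) (.cons (.rf (nat_lit 440) (nat_lit 407901468851537952)) (.cons (.rf (nat_lit 440) (nat_lit 407867383991076896)) (.cons (.rf (nat_lit 440) (nat_lit 406742583595862048)) (.cons (.rf (nat_lit 17) (nat_lit 13230151811)) .nil)))))),
 (.br (nat_lit 5) (nat_lit 0) (.cons (.kr (nat_lit 1208925819614629191483392) (nat_lit 18446744078004518912) (nat_lit 3) (nat_lit 0)) (.cons (.br (nat_lit 9) (nat_lit 1) (.cons (.br (nat_lit 2) (nat_lit 0) (.cons (.rf (nat_lit 430) (nat_lit 1594636252402003008)) (.cons (.rf (nat_lit 430) (nat_lit 6206322270692125760)) (.cons (.rf (nat_lit 17) (nat_lit 14303893635)) .nil)))) (.cons (.rf (nat_lit 441) (nat_lit 403216454005298208)) (.cons (.rf (nat_lit 441) (nat_lit 439245251024262176)) .nil)))) (.cons (.rf (nat_lit 424) (nat_lit 251332396192)) (.cons (.rf (nat_lit 17) (nat_lit 14303893635)) .nil))))),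
 (.br (nat_lit 4) (nat_lit 1) (.cons (.rf (nat_lit 441) (nat_lit 407901468851537952)) (.cons (.rf (nat_lit 441) (nat_lit 407901400199170080)) (.cons (.br (nat_lit 5) (nat_lit 0) (.cons (.rf (nat_lit 442) (nat_lit 14236093077145261088)) (.cons (.rf (nat_lit 442) (nat_lit 14242959524133701664)) (.cons (.rf (nat_lit 442) (nat_lit 14242925439273239616)) (.cons (.rf (nat_lit 17) (nat_lit 14303893635)) .nil))))) .nil)))),
 (.br (nat_lit 12) (nat_lit 0) (.cons (.rf (nat_lit 443) (nat_lit 13126066816545818656)) (.cons (.rf (nat_lit 443) (nat_lit 13126066814400432160)) (.cons (.br (nat_lit 11) (nat_lit 0) (.cons (.rf (nat_lit 443) (nat_lit 14242959524133701664)) (.cons (.rf (nat_lit 443) (nat_lit 14242959521988315168)) (.cons (.rf (nat_lit 17) (nat_lit 14303893635)) .nil)))) (.cons (.rf (nat_lit 17) (nat_lit 14303893635)) .nil))))),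
 (.br (nat_lit 6) (nat_lit 1) (.cons (.rf (nat_lit 439) (nat_lit 6899686897354784)) (.cons (.rf (nat_lit 439) (nat_lit 6899618244986912)) (.cons (.br (nat_lit 5) (nat_lit 0) (.cons (.rf (nat_lit 442) (nat_lit 14238274508315428896)) (.cons (.rf (nat_lit 442) (nat_lit 14238240422381257792)) (.cons (.rf (nat_lit 442) (nat_lit 14242959521988315168)) (.cons (.rf (nat_lit 442) (nat_lit 14242925436054144064)) (.cons (.rf (nat_lit 17) (nat_lit 14303893635)) .nil)))))) .nil)))),
 (.br (nat_lit 6) (nat_lit 1) (.cons (.rf (nat_lit 439) (nat_lit 6899686897354784)) (.cons (.rf (nat_lit 439) (nat_lit 6899618244986912)) (.cons (.rf (nat_lit 445) (nat_lit 14242959524133701664)) (.cons (.rf (nat_lit 445) (nat_lit 13126066816545818656)) .nil))))),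
 (.br (nat_lit 10) (nat_lit 1) (.cons (.rf (nat_lit 424) (nat_lit 249286657088)) (.cons (.rf (nat_lit 439) (nat_lit 11584701642934304)) (.cons (.rf (nat_lit 439) (nat_lit 11584632990566432)) (.cons (.br (nat_lit 10) (nat_lit 1) (.cons (.rf (nat_lit 424) (nat_lit 249286657088)) (.cons (.rf (nat_lit 439) (nat_lit 11584701642934304)) (.cons (.rf (nat_lit 439) (nat_lit 11584632990566432)) (.cons (.br (nat_lit 2) (nat_lit 0) (.cons (.br (nat_lit 11) (nat_lit 0) (.cons (.rf (nat_lit 443) (nat_lit 14242959524133701664)) (.cons (.rf (nat_lit 443) (nat_lit 14242959521988315168)) (.cons (.rf (nat_lit 444) (nat_lit 14242959524133701664)) (.cons (.rf (nat_lit 444) (nat_lit 14242925439273239616)) (.cons (.rf (nat_lit 17) (nat_lit 14303893635)) .nil)))))) (.cons (.rf (nat_lit 446) (nat_lit 14242959524133701664)) (.cons (.rf (nat_lit 446) (nat_lit 14242959521988315168)) (.cons (.rf (nat_lit 424) (nat_lit 251433059392)) (.cons (.rf (nat_lit 17) (nat_lit 14303893635)) .nil)))))) .nil))))) .nil))))),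
 (.br (nat_lit 10) (nat_lit 1) (.cons (.rf (nat_lit 447) (nat_lit 10493986108180512)) (.cons (.rf (nat_lit 447) (nat_lit 10493986007520288)) (.cons (.rf (nat_lit 447) (nat_lit 10493917288045600)) (.cons (.kr (nat_lit 4722366482869645213696) (nat_lit 1208925819614629174706176) (nat_lit 9) (nat_lit 0)) .nil))))),
 (.br (nat_lit 10) (nat_lit 1) (.cons (.br (nat_lit 10) (nat_lit 1) .nil) .nil)),
 (.br (nat_lit 7) (nat_lit 1) (.cons (.ev (nat_lit 4722438541567489736961) (nat_lit 1)) .nil)),
 (.br (nat_lit 13) (nat_lit 0) (.cons (.br (nat_lit 5) (nat_lit 0) (.cons (.br (nat_lit 7) (nat_lit 0) (.cons (.br (nat_lit 13) (nat_lit 1) (.cons (.br (nat_lit 2) (nat_lit 1) (.cons (.rf (nat_lit 450) (nat_lit 15433070910038444064)) (.cons (.rf (nat_lit 221) (nat_lit 458037621581543642336)) (.cons (.ev (nat_lit 20361638975091754657644946718721) (nat_lit 1)) .nil)))) (.cons (.br (nat_lit 12) (nat_lit 1) (.cons (.br (nat_lit 7) (nat_lit 1) (.cons (.ev (nat_lit 158768227908508051194844872706) (nat_lit 2)) .nil)) (.cons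 (.br (nat_lit 7) (nat_lit 1) (.cons (.ev (nat_lit 158768227908508051190499573762) (nat_lit 2)) .nil)) (.cons (.ev (nat_lit 20441487316607038267958361260034) (nat_lit 2)) .nil)))) (.cons (.br (nat_lit 12) (nat_lit 1) (.cons (.rf (nat_lit 163) (nat_lit 15431980192224089152)) (.cons (.ev (nat_lit 20361638975091754657649258463233) (nat_lit 1)) (.cons (.rf (nat_lit 163) (nat_lit 15431877731682554944)) .nil)))) (.cons (.kr (nat_lit 309485009821345068724781056) (nat_lit 20282409603651670423947251286016) (nat_lit 11) (nat_lit 0)) (.cons (.br (nat_lit 7) (nat_lit 1) (.cons (.ev (nat_lit 79229371458602753890482913281) (nat_lit 1)) (.cons (.ev (nat_lit 20361948460120094804381418913793) (nat_lit 1)) (.cons (.ev (nat_lit 79229371458602753894761103361) (nat_lit 1)) .nil)))) .nil)))))) .nil)) (.cons (.br (nat_lit 7) (nat_lit 0) (.cons (.br (nat_lit 13) (nat_lit 1) (.cons (.kr (nat_lit 309485009821345068741558272) (nat_lit 20282409603651670423951546253312) (nat_lit 3) (nat_lit 0)) (.cons (.br (nat_lit 12) (nat_lit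 1) (.cons (.br (nat_lit 7) (nat_lit 1) (.cons (.ev (nat_lit 79229376162522774161378508801) (nat_lit 1)) .nil)) (.cons (.br (nat_lit 7) (nat_lit 1) (.cons (.ev (nat_lit 79229376162522774161378508801) (nat_lit 1)) .nil)) (.cons (.ev (nat_lit 20361948464824014261702394642433) (nat_lit 1)) .nil)))) (.cons (.kr (nat_lit 309485009821345068724781056) (nat_lit 20282409603651670423947251286016) (nat_lit 11) (nat_lit 0)) (.cons (.br (nat_lit 5) (nat_lit 1) (.cons (.ev (nat_lit 1208925891954802012717313) (nat_lit 1)) (.cons (.rf (nat_lit 206) (nat_lit 493823402541220828192)) (.cons (.rf (nat_lit 207) (nat_lit 493823402541220828192)) .nil)))) (.cons (.br (nat_lit 2) (nat_lit 1) (.cons (.br (nat_lit 5) (nat_lit 1) (.cons (.ev (nat_lit 20837014004362069211445914175236) (nat_lit 3)) .nil)) (.cons (.br (nat_lit 1) (nat_lit 1) (.cons (.ev (nat_lit 20837014004362069211445914175236) (nat_lit 3)) .nil)) (.cons (.kr (nat_lit 20282409603651670423947251351552) (nat_lit 4722438540463683141632) (nat_lit 2) (nat_lit 0))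 .nil)))) .nil)))))) .nil)) .nil))) .nil)),
 (.br (nat_lit 9) (nat_lit 1) (.cons (.br (nat_lit 11) (nat_lit 1) (.cons (.rf (nat_lit 449) (nat_lit 14242959524133701664)) (.cons (.br (nat_lit 11) (nat_lit 1) (.cons (.rf (nat_lit 449) (nat_lit 14242959524133701664)) .nil)) .nil))) (.cons (.rf (nat_lit 162) (nat_lit 14199120687788135488)) (.cons (.br (nat_lit 13) (nat_lit 0) (.cons (.rf (nat_lit 451) (nat_lit 493858305440582043680)) (.cons (.br (nat_lit 13) (nat_lit 0) (.cons (.rf (nat_lit 451) (nat_lit 493858305440582043680)) .nil)) .nil))) .nil)))),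
 (.br (nat_lit 9) (nat_lit 1) (.cons (.rf (nat_lit 452) (nat_lit 14204750223622937760)) (.cons (.br (nat_lit 11) (nat_lit 1) (.cons (.rf (nat_lit 449) (nat_lit 14170972298839951392)) (.cons (.br (nat_lit 5) (nat_lit 0) (.cons (.br (nat_lit 13) (nat_lit 0) (.cons (.br (nat_lit 12) (nat_lit 1) (.cons (.br (nat_lit 13) (nat_lit 1) (.cons (.ev (nat_lit 79537647542532708215266803713) (nat_lit 1)) (.cons (.br (nat_lit 2) (nat_lit 1) (.cons (.ev (nat_lit 79234216625277096127560548612) (nat_lit 3)) .nil)) (.cons (.ev (nat_lit 79229371458602753890482913281) (nat_lit 1)) .nil)))) (.cons (.br (nat_lit 13) (nat_lit 1) (.cons (.br (nat_lit 7) (nat_lit 1) (.cons (.ev (nat_lit 20837009187548256684399239825156) (nat_lit 3)) .nil)) (.cons (.br (nat_lit 7) (nat_lit 1) (.cons (.ev (nat_lit 20837009187548256684407796205316) (nat_lit 3)) .nil)) (.cons (.ev (nat_lit 20361948460120094804381418913793) (nat_lit 1)) .nil)))) (.cons (.br (nat_lit 13) (nat_lit 1) (.cons (.br (nat_lit 7) (nat_lit 1) (.cons (.ev (nat_lit 79234216625277096123282358532)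 (nat_lit 3)) .nil)) (.cons (.ev (nat_lit 79537647542532708210955059201) (nat_lit 1)) (.cons (.ev (nat_lit 79229371458602753894761103361) (nat_lit 1)) .nil)))) (.cons (.br (nat_lit 2) (nat_lit 1) (.cons (.br (nat_lit 5) (nat_lit 1) (.cons (.ev (nat_lit 20837009187548256684407796205316) (nat_lit 3)) .nil)) (.cons (.br (nat_lit 13) (nat_lit 1) (.cons (.ev (nat_lit 20837009187548256684399239825156) (nat_lit 3)) .nil)) (.cons (.ev (nat_lit 20361637766184381505618799820801) (nat_lit 1)) .nil)))) (.cons (.kr (nat_lit 309485009821345068724781056) (nat_lit 20282409603651670423947251286016) (nat_lit 11) (nat_lit 0)) .nil)))))) .nil)) .nil)) .nil))) .nil))),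
 (.br (nat_lit 12) (nat_lit 0) (.cons (.rf (nat_lit 452) (nat_lit 14242959524133701664)) (.cons (.rf (nat_lit 452) (nat_lit 14241868808598947872)) (.cons (.br (nat_lit 7) (nat_lit 0) (.cons (.rf (nat_lit 453) (nat_lit 14242959524133701664)) (.cons (.rf (nat_lit 453) (nat_lit 14241868808598947872)) (.cons (.rf (nat_lit 162) (nat_lit 14199052518067213376)) .nil)))) .nil)))),
 (.br (nat_lit 13) (nat_lit 1) (.cons (.ev (nat_lit 18447026648197955841) (nat_lit 1)) (.cons (.rf (nat_lit 450) (nat_lit 15431875669896923360)) (.cons (.br (nat_lit 7) (nat_lit 1) (.cons (.ev (nat_lit 20838868515459111088554672326404) (nat_lit 3)) .nil)) .nil)))),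
 (.br (nat_lit 1) (nat_lit 1) (.cons (.ev (nat_lit 20282410812595937065224623948033) (nat_lit 1)) (.cons (.rf (nat_lit 450) (nat_lit 15431875669896928320)) (.cons (.rf (nat_lit 163) (nat_lit 14306957631273862368)) .nil)))),
 (.br (nat_lit 10) (nat_lit 1) (.cons (.br (nat_lit 11) (nat_lit 1) (.cons (.br (nat_lit 13) (nat_lit 0) (.cons (.br (nat_lit 2) (nat_lit 1) (.cons (.rf (nat_lit 455) (nat_lit 493858305440582043680)) (.cons (.br (nat_lit 7) (nat_lit 1) (.cons (.rf (nat_lit 455) (nat_lit 493858305268783356960)) (.cons (.ev (nat_lit 79229371458530696300723240961) (nat_lit 1)) (.cons (.rf (nat_lit 221) (nat_lit 458110770095126250656)) .nil)))) (.cons (.kr (nat_lit 65536) (nat_lit 72057594037927936) (nat_lit 2) (nat_lit 0)) (.cons (.ev (nat_lit 79229371458530977771404984321) (nat_lit 1)) (.cons (.rf (nat_lit 456) (nat_lit 493858305440582043680)) .nil)))))) .nil)) .nil)) .nil)),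
 (.br (nat_lit 11) (nat_lit 1) (.cons (.rf (nat_lit 457) (nat_lit 14242959524133701664)) (.cons (.br (nat_lit 11) (nat_lit 1) (.cons (.rf (nat_lit 457) (nat_lit 14242959524133701664)) .nil)) .nil))),
 (.br (nat_lit 7) (nat_lit 1) (.cons (.kr (nat_lit 65536) (nat_lit 72057594037927936) (nat_lit 2) (nat_lit 0)) (.cons (.br (nat_lit 2) (nat_lit 1) (.cons (.ev (nat_lit 20521951029698487044881042834180) (nat_lit 3)) .nil)) (.cons (.br (nat_lit 5) (nat_lit 1) (.cons (.ev (nat_lit 20521951029698487044881042834180) (nat_lit 3)) .nil)) .nil)))),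
 (.br (nat_lit 12) (nat_lit 1) (.cons (.ev (nat_lit 20361637770888301244414735482881) (nat_lit 1)) (.cons (.ev (nat_lit 20361637770888301244410457292801) (nat_lit 1)) (.cons (.ev (nat_lit 79229376162450716571652390913) (nat_lit 1)) .nil)))),
 (.br (nat_lit 13) (nat_lit 0) (.cons (.br (nat_lit 5) (nat_lit 0) (.cons (.br (nat_lit 13) (nat_lit 1) (.cons (.rf (nat_lit 459) (nat_lit 493858305440582043680)) (.cons (.rf (nat_lit 460) (nat_lit 493858305440582043680)) (.cons (.rf (nat_lit 459) (nat_lit 493750222347924801696)) (.cons (.rf (nat_lit 460) (nat_lit 493858305268783356960)) (.cons (.kr (nat_lit 1208925819614629174706176) (nat_lit 20282409603651670423947251286016) (nat_lit 10) (nat_lit 0)) .nil)))))) .nil)) .nil)),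
 (.br (nat_lit 11) (nat_lit 1) (.cons (.rf (nat_lit 461) (nat_lit 493750222348060035104)) (.cons (.rf (nat_lit 461) (nat_lit 493750222347924801696)) .nil))),
 (.br (nat_lit 10) (nat_lit 1) (.cons (.rf (nat_lit 458) (nat_lit 14242959524133701664)) (.cons (.br (nat_lit 13) (nat_lit 0) (.cons (.rf (nat_lit 462) (nat_lit 493750222348060035104)) (.cons (.rf (nat_lit 462) (nat_lit 493858305440582043680)) .nil))) .nil))),
 (.br (nat_lit 5) (nat_lit 1) (.cons (.ev (nat_lit 1208925891673327019229441) (nat_lit 1)) (.cons (.ev (nat_lit 79850759348260207489418527490) (nat_lit 2)) (.cons (.ev (nat_lit 20282409603651670706526051434753) (nat_lit 1)) .nil)))),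
 (.br (nat_lit 8) (nat_lit 1) (.cons (.br (nat_lit 13) (nat_lit 0) (.cons (.br (nat_lit 2) (nat_lit 1) (.cons (.rf (nat_lit 464) (nat_lit 493858305440582043680)) (.cons (.rf (nat_lit 464) (nat_lit 493750222347924801696)) (.cons (.br (nat_lit 12) (nat_lit 1) (.cons (.ev (nat_lit 79228162514336395191876845569) (nat_lit 1)) (.cons (.ev (nat_lit 79228162514336395187598655489) (nat_lit 1)) (.cons (.ev (nat_lit 79229376162450716571652390913) (nat_lit 1)) .nil)))) (.cons (.br (nat_lit 7) (nat_lit 1) (.cons (.ev (nat_lit 79228162514336395191876845569) (nat_lit 1)) (.cons (.ev (nat_lit 79228162514336395187598655489) (nat_lit 1)) (.cons (.ev (nat_lit 40723276745980128241133025296386) (nat_lit 2)) .nil)))) (.cons (.kr (nat_lit 4722366482869645213696) (nat_lit 20282409603651670423947251286016) (nat_lit 9) (nat_lit 0)) .nil)))))) .nil)) .nil)),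
 (.br (nat_lit 9) (nat_lit 1) (.cons (.rf (nat_lit 161) (nat_lit 14134939100555543616)) (.cons (.br (nat_lit 11) (nat_lit 1) (.cons (.rf (nat_lit 465) (nat_lit 493858305440582043680)) (.cons (.br (nat_lit 11) (nat_lit 1) (.cons (.rf (nat_lit 465) (nat_lit 493858305440582043680)) .nil)) .nil))) .nil))),
 (.br (nat_lit 7) (nat_lit 1) (.cons (.br (nat_lit 12) (nat_lit 1) (.cons (.ev (nat_lit 20838247108698076133195558094596) (nat_lit 3)) .nil)) (.cons (.br (nat_lit 2) (nat_lit 1) (.cons (.ev (nat_lit 80165103673479809196741755140) (nat_lit 3)) .nil)) (.cons (.br (nat_lit 5) (nat_lit 1) (.cons (.ev (nat_lit 80162695266717660865758494980) (nat_lit 3)) .nil)) .nil)))),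
 (.br (nat_lit 12) (nat_lit 1) (.cons (.ev (nat_lit 79229371458530696296445050881) (nat_lit 1)) (.cons (.ev (nat_lit 79229371458530696300723240961) (nat_lit 1)) (.cons (.ev (nat_lit 20361948460120022746787381051393) (nat_lit 1)) .nil)))),
 (.br (nat_lit 12) (nat_lit 1) (.cons (.br (nat_lit 5) (nat_lit 1) (.cons (.ev (nat_lit 79537652246524223130246840321) (nat_lit 1)) .nil)) (.cons (.br (nat_lit 7) (nat_lit 1) (.cons (.ev (nat_lit 79537652246524223130246840321) (nat_lit 1)) .nil)) (.cons (.ev (nat_lit 20361637770888373583483766833153) (nat_lit 1)) .nil))))]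

theorem c15 : chkAll C T R L15 (nat_lit 436) = true := by decide +kernel

theorem l15 : (nat_lit 436) + L15.length = (nat_lit 470) := by decide +kernel

/-- part of the certificates -/
def L16 : List Prf := [(.br (nat_lit 11) (nat_lit 1) (.cons (.br (nat_lit 13) (nat_lit 1) (.cons (.kr (nat_lit 309485009821345068741558272) (nat_lit 20282409603651670423951546253312) (nat_lit 3) (nat_lit 0)) (.cons (.rf (nat_lit 469) (nat_lit 493858305440582043680)) (.cons (.kr (nat_lit 309485009821345068724781056) (nat_lit 20282409603651670423947251286016) (nat_lit 11) (nat_lit 0)) (.cons (.rf (nat_lit 469) (nat_lit 493857214553248603168)) (.cons (.br (nat_lit 1) (nat_lit 1) (.cons (.rf (nat_lit 182) (nat_lit 485752951839289089408)) (.cons (.br (nat_lit 2) (nat_lit 1) (.cons (.ev (nat_lit 20838251963291107627675572176644) (nat_lit 3)) .nil)) (.cons (.rf (nat_lit 182) (nat_lit 485716958398440900992)) .nil)))) .nil)))))) .nil)),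
 (.br (nat_lit 8) (nat_lit 1) (.cons (.br (nat_lit 10) (nat_lit 1) (.cons (.br (nat_lit 13) (nat_lit 1) (.cons (.kr (nat_lit 1208925819614629191483392) (nat_lit 20282409603651670423951546253312) (nat_lit 3) (nat_lit 0)) (.cons (.rf (nat_lit 456) (nat_lit 493858305440582043680)) (.cons (.kr (nat_lit 1208925819614629174706176) (nat_lit 20282409603651670423947251286016) (nat_lit 10) (nat_lit 0)) (.cons (.br (nat_lit 5) (nat_lit 1) (.cons (.ev (nat_lit 20282409603651742764120089297153) (nat_lit 1)) (.cons (.rf (nat_lit 450) (nat_lit 15429696299473242336)) (.cons (.rf (nat_lit 163) (nat_lit 14308048211682890816)) .nil)))) (.cons (.br (nat_lit 7) (nat_lit 1) (.cons (.br (nat_lit 2) (nat_lit 1) (.cons (.ev (nat_lit 20838868515459111088554672326404) (nat_lit 3)) .nil)) (.cons (.kr (nat_lit 1208925819614629191548928) (nat_lit 18518801672042446848) (nat_lit 2) (nat_lit 0)) (.cons (.br (nat_lit 1) (nat_lit 1) (.cons (.ev (nat_lit 20838868515459111088554672326404) (nat_lit 3)) .nil)) .nil)))) .nil)))))) .nil))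 .nil)),
 (.br (nat_lit 11) (nat_lit 1) (.cons (.rf (nat_lit 161) (nat_lit 14128153945485542624)) (.cons (.br (nat_lit 10) (nat_lit 1) (.cons (.rf (nat_lit 471) (nat_lit 493858305440582043680)) (.cons (.br (nat_lit 10) (nat_lit 1) (.cons (.rf (nat_lit 471) (nat_lit 493858305440582043680)) .nil)) .nil))) .nil))),
 (.br (nat_lit 13) (nat_lit 1) (.cons (.br (nat_lit 12) (nat_lit 1) (.cons (.zr (nat_lit 237684487542937129068219465984) (nat_lit 310693954087985255192461313) (nat_lit 5) (nat_lit 0)) .nil)) (.cons (.ev (nat_lit 310698658079501261111034113) (nat_lit 1)) (.cons (.ev (nat_lit 79228167255149622130953420801) (nat_lit 1)) .nil)))),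
 (.br (nat_lit 5) (nat_lit 1) (.cons (.ev (nat_lit 310698658079782736070967553) (nat_lit 1)) .nil)),
 (.br (nat_lit 5) (nat_lit 1) (.cons (.ev (nat_lit 310698658079782736070967553) (nat_lit 1)) .nil)),
 (.br (nat_lit 11) (nat_lit 1) (.cons (.br (nat_lit 13) (nat_lit 0) (.cons (.br (nat_lit 7) (nat_lit 1) (.cons (.rf (nat_lit 473) (nat_lit 493858305440582043680)) (.cons (.br (nat_lit 12) (nat_lit 1) (.cons (.rf (nat_lit 474) (nat_lit 493858305440582043680)) (.cons (.rf (nat_lit 474) (nat_lit 493858305440446810272)) (.cons (.ev (nat_lit 20361947255916641672621889421313) (nat_lit 1)) .nil)))) (.cons (.rf (nat_lit 473) (nat_lit 493858305440446810272)) (.cons (.br (nat_lit 2) (nat_lit 1) (.cons (.rf (nat_lit 475) (nat_lit 493858305440582043680)) (.cons (.rf (nat_lit 475) (nat_lit 493858305440446810272)) (.cons (.br (nat_lit 1) (nat_lit 1) (.cons (.ev (nat_lit 20679183921908824327231810240776) (nat_lit 4)) .nil)) .nil)))) (.cons (.kr (nat_lit 309485009821345068724781056) (nat_lit 20282409603651670423947251286016)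 (nat_lit 11) (nat_lit 0)) .nil)))))) .nil)) .nil)),
 (.br (nat_lit 5) (nat_lit 1) (.cons (.rf (nat_lit 450) (nat_lit 14242959524133701664)) (.cons (.ev (nat_lit 4722438823038171480321) (nat_lit 1)) (.cons (.rf (nat_lit 163) (nat_lit 13119200369523823680)) .nil)))),
 (.br (nat_lit 13) (nat_lit 0) (.cons (.br (nat_lit 13) (nat_lit 1) (.cons (.rf (nat_lit 477) (nat_lit 15433070910038444064)) (.cons (.br (nat_lit 1) (nat_lit 1) (.cons (.br (nat_lit 7) (nat_lit 1) (.cons (.ev (nat_lit 20996086919301507226035505005832) (nat_lit 4)) .nil)) (.cons (.br (nat_lit 5) (nat_lit 1) (.cons (.zr (nat_lit 9444732969046415246080) (nat_lit 237995181496880998027234377729) (nat_lit 5) (nat_lit 0)) .nil)) (.cons (.br (nat_lit 7) (nat_lit 1) (.cons (.zr (nat_lit 9444732969037858865920) (nat_lit 237995181496880998031512567809) (nat_lit 5) (nat_lit 0)) .nil)) .nil)))) (.cons (.br (nat_lit 12) (nat_lit 1) (.cons (.rf (nat_lit 163) (nat_lit 15431980192224089152)) (.cons (.ev (nat_lit 20361638975091754657649258463233) (nat_lit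 1)) (.cons (.rf (nat_lit 163) (nat_lit 15431877731682554944)) .nil)))) (.cons (.kr (nat_lit 309485009821345068724781056) (nat_lit 20282409603651670423947251286016) (nat_lit 11) (nat_lit 0)) (.cons (.br (nat_lit 7) (nat_lit 1) (.cons (.ev (nat_lit 79537647542604765809304666113) (nat_lit 1)) (.cons (.ev (nat_lit 20361637766184453563212837683201) (nat_lit 1)) (.cons (.ev (nat_lit 79537647542604765804992921601) (nat_lit 1)) .nil)))) .nil)))))) .nil)),
 (.br (nat_lit 7) (nat_lit 0) (.cons (.rf (nat_lit 454) (nat_lit 14242959352335014944)) (.cons (.br (nat_lit 10) (nat_lit 1) (.cons (.rf (nat_lit 458) (nat_lit 14242959524133701664)) (.cons (.rf (nat_lit 463) (nat_lit 14242959524133701664)) (.cons (.br (nat_lit 10) (nat_lit 1) (.cons (.rf (nat_lit 458) (nat_lit 14242959524133701664)) (.cons (.rf (nat_lit 463) (nat_lit 14242959524133701664)) .nil))) .nil)))) (.cons (.br (nat_lit 10) (nat_lit 1) (.cons (.rf (nat_lit 454) (nat_lit 14171994672719862944)) (.cons (.rf (nat_lit 466) (nat_lit 14242959524133701664))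 (.cons (.br (nat_lit 9) (nat_lit 1) (.cons (.rf (nat_lit 454) (nat_lit 14208022542025885856)) (.cons (.rf (nat_lit 466) (nat_lit 14241868636800261152)) (.cons (.br (nat_lit 5) (nat_lit 0) (.cons (.br (nat_lit 12) (nat_lit 0) (.cons (.br (nat_lit 11) (nat_lit 1) (.cons (.br (nat_lit 13) (nat_lit 1) (.cons (.rf (nat_lit 467) (nat_lit 493858305440582043680)) (.cons (.rf (nat_lit 468) (nat_lit 493858305440582043680)) (.cons (.rf (nat_lit 467) (nat_lit 493858305440446810272)) (.cons (.rf (nat_lit 468) (nat_lit 493857214553248603168)) (.cons (.kr (nat_lit 309485009821345068724781056) (nat_lit 20282409603651670423947251286016) (nat_lit 11) (nat_lit 0)) .nil)))))) .nil)) .nil)) (.cons (.br (nat_lit 12) (nat_lit 0) (.cons (.rf (nat_lit 470) (nat_lit 493858305440582043680)) (.cons (.rf (nat_lit 470) (nat_lit 493750222347924801696)) .nil))) .nil))) .nil)))) .nil)))) (.cons (.br (nat_lit 9) (nat_lit 1) (.cons (.rf (nat_lit 454) (nat_lit 14208022542025885856)) (.cons (.rf (nat_lit 472) (nat_lit 14242959524133701664))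 (.cons (.br (nat_lit 5) (nat_lit 0) (.cons (.br (nat_lit 10) (nat_lit 1) (.cons (.rf (nat_lit 476) (nat_lit 493858305440582043680)) (.cons (.br (nat_lit 10) (nat_lit 1) (.cons (.rf (nat_lit 476) (nat_lit 493858305440582043680)) .nil)) .nil))) (.cons (.br (nat_lit 11) (nat_lit 1) (.cons (.rf (nat_lit 472) (nat_lit 14168722526115601568)) (.cons (.br (nat_lit 8) (nat_lit 1) (.cons (.rf (nat_lit 478) (nat_lit 493858305440582043680)) (.cons (.br (nat_lit 10) (nat_lit 1) (.cons (.rf (nat_lit 478) (nat_lit 493784068442563943584)) .nil)) .nil))) .nil))) (.cons (.rf (nat_lit 454) (nat_lit 14134876259677772960)) .nil)))) .nil)))) .nil))))),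
 (.br (nat_lit 10) (nat_lit 1) (.cons (.br (nat_lit 10) (nat_lit 1) .nil) .nil)),
 (.br (nat_lit 7) (nat_lit 1) (.cons (.ev (nat_lit 20282409603670117168025272582401) (nat_lit 1)) (.cons (.ev (nat_lit 20282413230447720972633904447490) (nat_lit 2)) (.cons (.ev (nat_lit 20361637770888301525889728970753) (nat_lit 1)) .nil)))),
 (.br (nat_lit 7) (nat_lit 1) (.cons (.ev (nat_lit 20282409617837432790511572353026) (nat_lit 2)) .nil)),
 (.br (nat_lit 7) (nat_lit 1) (.cons (.ev (nat_lit 20282410812577562377645457473793) (nat_lit 1)) (.cons (.rf (nat_lit 450) (nat_lit 15429696299473247296)) (.cons (.br (nat_lit 5) (nat_lit 1) (.cons (.ev (nat_lit 21312999569358561198727206469896) (nat_lit 4)) .nil)) .nil)))),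
 (.br (nat_lit 2) (nat_lit 0) (.cons (.br (nat_lit 12) (nat_lit 0) (.cons (.br (nat_lit 5) (nat_lit 0) (.cons (.br (nat_lit 13) (nat_lit 1) (.cons (.ev (nat_lit 20282409603670117449500232515841) (nat_lit 1)) (.cons (.rf (nat_lit 481) (nat_lit 493858305440582043680)) (.cons (.br (nat_lit 1) (nat_lit 1) (.cons (.rf (nat_lit 482) (nat_lit 493858305440582043680)) (.cons (.rf (nat_lit 482) (nat_lit 493857214553248603168)) (.cons (.ev (nat_lit 20282409603670117449495954325761) (nat_lit 1)) .nil)))) (.cons (.rf (nat_lit 481) (nat_lit 493857214553248603168)) (.cons (.br (nat_lit 5) (nat_lit 1) (.cons (.ev (nat_lit 20282409603670117449495954325761) (nat_lit 1)) (.cons (.ev (nat_lit 20361637770888301244410457292801) (nat_lit 1)) (.cons (.ev (nat_lit 20361638975091826433764024647681) (nat_lit 1)) .nil)))) .nil)))))) .nil)) .nil)) (.cons (.br (nat_lit 5) (nat_lit 0) (.cons (.br (nat_lit 12) (nat_lit 0) (.cons (.br (nat_lit 13) (nat_lit 1) (.cons (.ev (nat_lit 20282409603670117449500232515841) (nat_lit 1)) (.cons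 (.rf (nat_lit 483) (nat_lit 493858305440582043680)) (.cons (.br (nat_lit 12) (nat_lit 1) (.cons (.ev (nat_lit 79229371440084234801501962241) (nat_lit 1)) (.cons (.rf (nat_lit 163) (nat_lit 15431877731514782944)) (.cons (.rf (nat_lit 483) (nat_lit 458043501799751687328)) .nil)))) (.cons (.br (nat_lit 1) (nat_lit 1) (.cons (.ev (nat_lit 20282409603670117168025272582401) (nat_lit 1)) (.cons (.br (nat_lit 2) (nat_lit 1) (.cons (.ev (nat_lit 20679179104873075540820467583240) (nat_lit 4)) .nil)) (.cons (.rf (nat_lit 163) (nat_lit 14312801530368164928)) .nil)))) (.cons (.br (nat_lit 5) (nat_lit 1) (.cons (.ev (nat_lit 79229371440084234801501962241) (nat_lit 1)) (.cons (.br (nat_lit 7) (nat_lit 1) (.cons (.ev (nat_lit 21312999569358564576418169291016) (nat_lit 4)) .nil)) (.cons (.br (nat_lit 1) (nat_lit 1) (.cons (.ev (nat_lit 20679179104873074414946296989960) (nat_lit 4)) .nil)) .nil)))) .nil)))))) .nil)) (.cons (.br (nat_lit 12) (nat_lit 0) (.cons (.br (nat_lit 13) (nat_lit 1) (.cons (.ev (nat_lit 20282409603670117449500232515841)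 (nat_lit 1)) (.cons (.br (nat_lit 7) (nat_lit 1) (.cons (.ev (nat_lit 20282409603670117168025272582401) (nat_lit 1)) (.cons (.br (nat_lit 1) (nat_lit 1) (.cons (.ev (nat_lit 20838866088051916000586159817476) (nat_lit 3)) .nil)) (.cons (.ev (nat_lit 20361637770888301525889728970753) (nat_lit 1)) .nil)))) (.cons (.br (nat_lit 1) (nat_lit 1) (.cons (.zr (nat_lit 309485046715399464648966144) (nat_lit 40564820420951526945397617590273) (nat_lit 5) (nat_lit 4)) (.cons (.br (nat_lit 12) (nat_lit 1) (.cons (.ev (nat_lit 20838866088051914311719153238788) (nat_lit 3)) .nil)) (.cons (.ev (nat_lit 20282409603670117449495954325761) (nat_lit 1)) .nil)))) (.cons (.br (nat_lit 2) (nat_lit 1) (.cons (.ev (nat_lit 20282409603670117168025272582401) (nat_lit 1)) (.cons (.zr (nat_lit 60847228810991904763287708041216) (nat_lit 1239153687471759253007499265) (nat_lit 5) (nat_lit 0)) (.cons (.ev (nat_lit 20361638979832639660711657603073) (nat_lit 1)) .nil)))) (.cons (.br (nat_lit 5) (nat_lit 1) (.cons (.ev (nat_lit 20282409603670117449495954325761)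 (nat_lit 1)) (.cons (.ev (nat_lit 20361637770888301244410457292801) (nat_lit 1)) (.cons (.ev (nat_lit 20361638979832639942182339346433) (nat_lit 1)) .nil)))) .nil)))))) .nil)) .nil))) .nil))),
 (.br (nat_lit 13) (nat_lit 1) (.cons (.br (nat_lit 12) (nat_lit 1) (.cons (.ev (nat_lit 1208925891673327019229441) (nat_lit 1)) .nil)) (.cons (.ev (nat_lit 20282409603670189507094270509313) (nat_lit 1)) (.cons (.br (nat_lit 5) (nat_lit 1) (.cons (.ev (nat_lit 20838868496458821701163855315716) (nat_lit 3)) .nil)) .nil)))),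
 (.br (nat_lit 10) (nat_lit 1) (.cons (.br (nat_lit 1) (nat_lit 1) (.cons (.rf (nat_lit 485) (nat_lit 493858305440582043680)) (.cons (.br (nat_lit 2) (nat_lit 1) (.cons (.ev (nat_lit 1208925819615728703176961) (nat_lit 1)) (.cons (.br (nat_lit 7) (nat_lit 1) (.cons (.ev (nat_lit 20838868496458820575238212223748) (nat_lit 3)) .nil)) (.cons (.br (nat_lit 12) (nat_lit 1) (.cons (.ev (nat_lit 20838868496458964690426287948548) (nat_lit 3)) .nil)) .nil)))) (.cons (.rf (nat_lit 485) (nat_lit 493858305268783356960)) (.cons (.br (nat_lit 5) (nat_lit 1) (.cons (.rf (nat_lit 450) (nat_lit 14310332104500840480)) (.cons (.rf (nat_lit 450) (nat_lit 14310331932702153760)) (.cons (.ev (nat_lit 79228162532711364241758617601) (nat_lit 1)) .nil)))) (.cons (.ev (nat_lit 20282409603670117449500232515841) (nat_lit 1)) .nil)))))) .nil)),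
 (.br (nat_lit 7) (nat_lit 0) (.cons (.rf (nat_lit 484) (nat_lit 493858305440582043680)) (.cons (.rf (nat_lit 484) (nat_lit 493857214725047289888)) (.cons (.br (nat_lit 2) (nat_lit 0) (.cons (.rf (nat_lit 484) (nat_lit 493858305268783356960)) (.cons (.rf (nat_lit 484) (nat_lit 493857214553248603168)) (.cons (.br (nat_lit 12) (nat_lit 0) (.cons (.rf (nat_lit 486) (nat_lit 493858305440582043680)) (.cons (.rf (nat_lit 486) (nat_lit 493857214725047289888)) .nil))) .nil)))) .nil)))),
 (.br (nat_lit 11) (nat_lit 1) (.cons (.ev (nat_lit 18518802767275884801) (nat_lit 1)) .nil)),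
 (.br (nat_lit 7) (nat_lit 0) (.cons (.br (nat_lit 5) (nat_lit 1) (.cons (.br (nat_lit 2) (nat_lit 1) (.cons (.ev (nat_lit 18518802771554074881) (nat_lit 1)) (.cons (.br (nat_lit 7) (nat_lit 1) (.cons (.ev (nat_lit 20679181532390808664754228758792) (nat_lit 4)) .nil)) (.cons (.br (nat_lit 12) (nat_lit 1) (.cons (.ev (nat_lit 20679181513280846495467981965576) (nat_lit 4)) .nil)) .nil)))) (.cons (.br (nat_lit 7) (nat_lit 1) (.cons (.br (nat_lit 12) (nat_lit 1) (.cons (.ev (nat_lit 20679181513280845369559317416200) (nat_lit 4)) .nil)) (.cons (.ev (nat_lit 79228167236703160631732273153) (nat_lit 1)) (.cons (.rf (nat_lit 488) (nat_lit 15431909825759512608)) .nil)))) (.cons (.br (nat_lit 13) (nat_lit 1) (.cons (.ev (nat_lit 18519084246547562753) (nat_lit 1)) (.cons (.rf (nat_lit 450) (nat_lit 15429661115101158464)) (.cons (.br (nat_lit 2) (nat_lit 1) (.cons (.ev (nat_lit 20679181532390807538811338688776) (nat_lit 4)) .nil)) .nil)))) (.cons (.ev (nat_lit 79228162532711364246036807681) (nat_lit 1)) (.cons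 (.br (nat_lit 2) (nat_lit 1) (.cons (.rf (nat_lit 450) (nat_lit 15427190726018238624)) (.cons (.rf (nat_lit 488) (nat_lit 15430819039427004448)) (.cons (.rf (nat_lit 163) (nat_lit 15430751831607940320)) .nil)))) .nil)))))) .nil)),
 (.br (nat_lit 11) (nat_lit 1) (.cons (.br (nat_lit 12) (nat_lit 1) (.cons (.br (nat_lit 5) (nat_lit 1) (.cons (.zr (nat_lit 238303457562435702918081610496) (nat_lit 1213721973355272946581505) (nat_lit 5) (nat_lit 0)) (.cons (.br (nat_lit 2) (nat_lit 1) (.cons (.ev (nat_lit 20838868515422218161166873854724) (nat_lit 3)) .nil)) (.cons (.ev (nat_lit 79228162532711364241758617601) (nat_lit 1)) .nil)))) (.cons (.br (nat_lit 7) (nat_lit 1) (.cons (.br (nat_lit 5) (nat_lit 1) (.cons (.ev (nat_lit 20838868515422218724108237341444) (nat_lit 3)) .nil)) (.cons (.ev (nat_lit 79228162532711082766765129729) (nat_lit 1)) (.cons (.ev (nat_lit 20361638975091754376169986785281) (nat_lit 1)) .nil)))) (.cons (.ev (nat_lit 79228162532711364246036807681) (nat_lit 1)) (.cons (.br (nat_lit 2)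 (nat_lit 1) (.cons (.zr (nat_lit 618970038089715694725759744) (nat_lit 158457538676714772685924728833) (nat_lit 5) (nat_lit 3)) (.cons (.ev (nat_lit 79228162532711082766765129729) (nat_lit 1)) (.cons (.ev (nat_lit 20361638979832639942182339346433) (nat_lit 1)) .nil)))) (.cons (.br (nat_lit 1) (nat_lit 1) (.cons (.ev (nat_lit 20361638975091754657644946718721) (nat_lit 1)) (.cons (.ev (nat_lit 79228162532711364241758617601) (nat_lit 1)) (.cons (.ev (nat_lit 20361638979832639660707379412993) (nat_lit 1)) .nil)))) .nil)))))) .nil)),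
 (.br (nat_lit 11) (nat_lit 1) (.cons (.br (nat_lit 5) (nat_lit 1) (.cons (.br (nat_lit 2) (nat_lit 1) (.cons (.ev (nat_lit 18518802771554074881) (nat_lit 1)) (.cons (.ev (nat_lit 79229376180897180269896794113) (nat_lit 1)) (.cons (.ev (nat_lit 20282409608374036906816896499969) (nat_lit 1)) .nil)))) (.cons (.br (nat_lit 12) (nat_lit 1) (.cons (.ev (nat_lit 1208925819897203663110401) (nat_lit 1)) (.cons (.rf (nat_lit 488) (nat_lit 14310332102353356832)) (.cons (.br (nat_lit 1) (nat_lit 1) (.cons (.ev (nat_lit 79228167236703160636010463233) (nat_lit 1)) .nil)) .nil)))) (.cons (.br (nat_lit 1) (nat_lit 1) (.cons (.rf (nat_lit 236) (nat_lit 458117704504669574208)) (.cons (.zr (nat_lit 238303457562651875700195197696) (nat_lit 1213721973355272946581505) (nat_lit 5) (nat_lit 0)) (.cons (.ev (nat_lit 18519084246547562753) (nat_lit 1)) .nil)))) (.cons (.rf (nat_lit 477) (nat_lit 14313858232780720288)) (.cons (.br (nat_lit 12) (nat_lit 1) (.cons (.rf (nat_lit 163) (nat_lit 14312767514162103360)) (.cons (.zr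 (nat_lit 60847228810991905326237661462528) (nat_lit 1239153687471477790915690497) (nat_lit 5) (nat_lit 0)) (.cons (.ev (nat_lit 79229376180897461744856727553) (nat_lit 1)) .nil)))) .nil)))))) .nil)),
 (.br (nat_lit 7) (nat_lit 0) (.cons (.br (nat_lit 5) (nat_lit 1) (.cons (.br (nat_lit 7) (nat_lit 1) (.cons (.ev (nat_lit 18446745177516212481) (nat_lit 1)) (.cons (.ev (nat_lit 79229371440084234801501962241) (nat_lit 1)) (.cons (.ev (nat_lit 20282409608374036906816896499969) (nat_lit 1)) .nil)))) (.cons (.br (nat_lit 13) (nat_lit 1) (.cons (.ev (nat_lit 18447026652509700353) (nat_lit 1)) (.cons (.ev (nat_lit 121694458835669105847962412711940) (nat_lit 3)) (.cons (.ev (nat_lit 79229371440083953326542028801) (nat_lit 1)) .nil)))) (.cons (.br (nat_lit 12) (nat_lit 1) (.cons (.ev (nat_lit 1213666704900266095804673) (nat_lit 1)) (.cons (.rf (nat_lit 488) (nat_lit 14310331930554670112)) (.cons (.br (nat_lit 2) (nat_lit 1) (.cons (.ev (nat_lit 79228167236703160636010463233) (nat_lit 1)) .nil)) .nil)))) (.cons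 (.rf (nat_lit 477) (nat_lit 14313858060982033568)) (.cons (.br (nat_lit 1) (nat_lit 1) (.cons (.br (nat_lit 7) (nat_lit 1) (.cons (.ev (nat_lit 476608147773564187239012959748) (nat_lit 3)) .nil)) (.cons (.ev (nat_lit 1213666704900270373994753) (nat_lit 1)) (.cons (.rf (nat_lit 163) (nat_lit 14312767342363411680)) .nil)))) .nil)))))) .nil))]

theorem c16 : chkAll C T R L16 (nat_lit 470) = true := by decide +kernel

theorem l16 : (nat_lit 470) + L16.length = (nat_lit 493) := by decide +kernel

/-- part of the certificates -/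
def L17 : List Prf := [(.br (nat_lit 13) (nat_lit 1) (.cons (.br (nat_lit 12) (nat_lit 1) (.cons (.ev (nat_lit 20838868487050981097654897279748) (nat_lit 3)) .nil)) (.cons (.ev (nat_lit 1208925891673322741039361) (nat_lit 1)) (.cons (.br (nat_lit 5) (nat_lit 1) (.cons (.ev (nat_lit 20679181541799224603046797314312) (nat_lit 4)) .nil)) .nil)))),
 (.br (nat_lit 2) (nat_lit 1) (.cons (.rf (nat_lit 493) (nat_lit 493858305268783356960)) (.cons (.rf (nat_lit 493) (nat_lit 458009655533313858720)) (.cons (.br (nat_lit 1) (nat_lit 1) (.cons (.ev (nat_lit 20679181541799225728972306188552) (nat_lit 4)) .nil)) .nil)))),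
 (.br (nat_lit 5) (nat_lit 1) (.cons (.ev (nat_lit 20282412021540203142452581826562) (nat_lit 2)) (.cons (.br (nat_lit 12) (nat_lit 1) (.cons (.ev (nat_lit 20679169405169499751844762027268) (nat_lit 3)) .nil)) (.cons (.zr (nat_lit 618970056536744533356970752) (nat_lit 61084914512145990382125517373441) (nat_lit 5) (nat_lit 0)) .nil)))),
 (.br (nat_lit 10) (nat_lit 1) (.cons (.br (nat_lit 13) (nat_lit 1) (.cons (.rf (nat_lit 495) (nat_lit 493858305440582043680)) (.cons (.br (nat_lit 12) (nat_lit 1) (.cons (.ev (nat_lit 20282409608374037188296168177921) (nat_lit 1)) (.cons (.rf (nat_lit 495) (nat_lit 458008564817779104928)) (.cons (.kr (nat_lit 1208925819614629174771712) (nat_lit 4722438540463683141632) (nat_lit 2) (nat_lit 0)) .nil)))) (.cons (.br (nat_lit 12) (nat_lit 1) (.cons (.zr (nat_lit 618970056536744533356970752) (nat_lit 61084914512145990382125517373441) (nat_lit 5) (nat_lit 0)) (.cons (.rf (nat_lit 220) (nat_lit 13971677907262528)) (.cons (.ev (nat_lit 79229371440084234797223772161) (nat_lit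 1)) .nil)))) (.cons (.br (nat_lit 12) (nat_lit 1) (.cons (.rf (nat_lit 220) (nat_lit 15063352428824800)) (.cons (.ev (nat_lit 20361637770888373583483766833153) (nat_lit 1)) (.cons (.rf (nat_lit 495) (nat_lit 458008564817779104928)) .nil)))) (.cons (.br (nat_lit 1) (nat_lit 1) (.cons (.ev (nat_lit 20361638975091754376174264975361) (nat_lit 1)) (.cons (.br (nat_lit 7) (nat_lit 1) (.cons (.ev (nat_lit 21003519385906156126195091184912) (nat_lit 5)) .nil)) (.cons (.br (nat_lit 5) (nat_lit 1) (.cons (.ev (nat_lit 20838863670236880340257874313988) (nat_lit 3)) .nil)) .nil)))) .nil)))))) .nil)),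
 (.br (nat_lit 13) (nat_lit 0) (.cons (.rf (nat_lit 487) (nat_lit 493858305440582043680)) (.cons (.br (nat_lit 5) (nat_lit 0) (.cons (.br (nat_lit 12) (nat_lit 0) (.cons (.br (nat_lit 11) (nat_lit 1) (.cons (.rf (nat_lit 489) (nat_lit 493858305440582043680)) (.cons (.rf (nat_lit 489) (nat_lit 493858305268783356960)) .nil))) (.cons (.rf (nat_lit 487) (nat_lit 458082801815661971616)) .nil))) (.cons (.br (nat_lit 12) (nat_lit 0) (.cons (.br (nat_lit 10) (nat_lit 1) (.cons (.rf (nat_lit 490) (nat_lit 493858305440582043680)) (.cons (.rf (nat_lit 490) (nat_lit 493858305268783356960)) .nil))) (.cons (.br (nat_lit 9) (nat_lit 1) (.cons (.rf (nat_lit 491) (nat_lit 493858305268783356960)) (.cons (.rf (nat_lit 491) (nat_lit 493858305440582043680)) .nil))) (.cons (.br (nat_lit 2) (nat_lit 0) (.cons (.rf (nat_lit 492) (nat_lit 493858305440582043680)) (.cons (.br (nat_lit 7) (nat_lit 0) (.cons (.rf (nat_lit 492) (nat_lit 493858305268783356960)) .nil)) .nil))) .nil)))) (.cons (.br (nat_lit 12) (nat_lit 0) (.cons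 (.br (nat_lit 7) (nat_lit 0) (.cons (.br (nat_lit 2) (nat_lit 0) (.cons (.br (nat_lit 7) (nat_lit 1) (.cons (.rf (nat_lit 493) (nat_lit 493858305440582043680)) (.cons (.kr (nat_lit 65536) (nat_lit 72057594037927936) (nat_lit 2) (nat_lit 0)) (.cons (.rf (nat_lit 493) (nat_lit 458009655705112545440)) (.cons (.rf (nat_lit 494) (nat_lit 493858305440582043680)) (.cons (.rf (nat_lit 494) (nat_lit 458009655705112545440)) .nil)))))) .nil)) .nil)) (.cons (.br (nat_lit 2) (nat_lit 0) (.cons (.rf (nat_lit 496) (nat_lit 493858305440582043680)) (.cons (.rf (nat_lit 496) (nat_lit 458008564989577791648)) .nil))) .nil))) .nil)))) .nil))),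
 (.br (nat_lit 13) (nat_lit 0) (.cons (.rf (nat_lit 497) (nat_lit 493858305440582043680)) (.cons (.rf (nat_lit 497) (nat_lit 493857214725047289888)) (.cons (.br (nat_lit 13) (nat_lit 0) (.cons (.rf (nat_lit 497) (nat_lit 493858305440582043680)) (.cons (.rf (nat_lit 497) (nat_lit 493857214725047289888)) .nil))) .nil)))),
 (.br (nat_lit 13) (nat_lit 1) (.cons (.kr (nat_lit 79228162514264337593544016128) (nat_lit 20282409603651742482640800841728) (nat_lit 1) (nat_lit 0)) .nil)),
 (.br (nat_lit 13) (nat_lit 1) (.cons (.kr (nat_lit 79228162514264337593544016128) (nat_lit 20282409603651742482640800841728) (nat_lit 1) (nat_lit 0)) .nil)),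
 (.br (nat_lit 5) (nat_lit 1) (.cons (.rf (nat_lit 499) (nat_lit 493858305440582043680)) (.cons (.rf (nat_lit 500) (nat_lit 493858305440582043680)) (.cons (.ev (nat_lit 4722438823042483224833) (nat_lit 1)) .nil)))),
 (.br (nat_lit 1) (nat_lit 1) (.cons (.rf (nat_lit 499) (nat_lit 493858305268783356960)) (.cons (.ev (nat_lit 4722438823038171480321) (nat_lit 1)) (.cons (.rf (nat_lit 500) (nat_lit 458117704712774092960)) .nil)))),
 (.br (nat_lit 1) (nat_lit 1) (.cons (.kr (nat_lit 79228162514264337593544016128) (nat_lit 20282409603651742482640800841728) (nat_lit 1) (nat_lit 0)) .nil)),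
 (.br (nat_lit 13) (nat_lit 1) (.cons (.rf (nat_lit 203) (nat_lit 458043255609214829632)) (.cons (.ev (nat_lit 18519084242235818241) (nat_lit 1)) (.cons (.rf (nat_lit 215) (nat_lit 493783788030632596704)) .nil)))),
 (.br (nat_lit 12) (nat_lit 1) (.cons (.ev (nat_lit 18519084246547562753) (nat_lit 1)) (.cons (.br (nat_lit 1) (nat_lit 1) (.cons (.kr (nat_lit 79228171959069360926905860352) (nat_lit 20282409603688563913202772017152) (nat_lit 1) (nat_lit 0)) .nil)) (.cons (.br (nat_lit 2) (nat_lit 1) (.cons (.kr (nat_lit 79228171959069360926905860352) (nat_lit 20282409603688563913202772017152) (nat_lit 1) (nat_lit 0)) .nil)) .nil)))),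
 (.br (nat_lit 7) (nat_lit 0) (.cons (.br (nat_lit 7) (nat_lit 1) (.cons (.rf (nat_lit 504) (nat_lit 493858305440582043680)) (.cons (.kr (nat_lit 18446744078004584448) (nat_lit 4722438540463699918848) (nat_lit 2) (nat_lit 0)) (.cons (.rf (nat_lit 505) (nat_lit 493858305440582043680)) (.cons (.br (nat_lit 1) (nat_lit 1) (.cons (.rf (nat_lit 505) (nat_lit 458082801643863284896)) (.cons (.rf (nat_lit 217) (nat_lit 493783788030632596704)) (.cons (.rf (nat_lit 249) (nat_lit 458043220288477533248)) .nil)))) (.cons (.br (nat_lit 2) (nat_lit 1) (.cons (.rf (nat_lit 505) (nat_lit 458082801643863284896)) (.cons (.rf (nat_lit 504) (nat_lit 458082801643863284896)) (.cons (.br (nat_lit 1) (nat_lit 1) (.cons (.kr (nat_lit 79228171959069360926905860352) (nat_lit 20282409603688563913202772017152) (nat_lit 1) (nat_lit 0)) .nil)) .nil)))) .nil)))))) .nil)),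
 (.br (nat_lit 13) (nat_lit 0) (.cons (.br (nat_lit 7) (nat_lit 0) (.cons (.br (nat_lit 11) (nat_lit 1) (.cons (.br (nat_lit 7) (nat_lit 1) (.cons (.rf (nat_lit 501) (nat_lit 493858305440582043680)) (.cons (.kr (nat_lit 65536) (nat_lit 72057594037927936) (nat_lit 2) (nat_lit 0)) (.cons (.rf (nat_lit 502) (nat_lit 493858305440582043680)) (.cons (.br (nat_lit 2) (nat_lit 1) (.cons (.rf (nat_lit 501) (nat_lit 493858305268783356960)) (.cons (.rf (nat_lit 502) (nat_lit 493858305268783356960)) (.cons (.rf (nat_lit 503) (nat_lit 493858305440582043680)) .nil)))) (.cons (.br (nat_lit 2) (nat_lit 1) (.cons (.rf (nat_lit 501) (nat_lit 493858305268783356960)) (.cons (.rf (nat_lit 502) (nat_lit 493858305268783356960)) (.cons (.rf (nat_lit 503) (nat_lit 493858305268783356960)) .nil)))) .nil)))))) .nil)) .nil)) (.cons (.br (nat_lit 11) (nat_lit 1) (.cons (.rf (nat_lit 506) (nat_lit 493858305440582043680)) (.cons (.rf (nat_lit 506) (nat_lit 493858305268783356960)) .nil))) .nil))),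
 (.br (nat_lit 13) (nat_lit 0) (.cons (.br (nat_lit 12) (nat_lit 1) (.cons (.br (nat_lit 2) (nat_lit 1) (.cons (.ev (nat_lit 79537647524085965241052037121) (nat_lit 1)) (.cons (.ev (nat_lit 79537652283561826465775485186) (nat_lit 2)) (.cons (.ev (nat_lit 20282720297605758409193853812993) (nat_lit 1)) .nil)))) (.cons (.br (nat_lit 5) (nat_lit 1) (.cons (.ev (nat_lit 1213666632842676336132353) (nat_lit 1)) (.cons (.br (nat_lit 13) (nat_lit 1) (.cons (.ev (nat_lit 20837011595918124779459563422468) (nat_lit 3)) .nil)) (.cons (.br (nat_lit 1) (nat_lit 1) (.cons (.ev (nat_lit 79538856468424100063014354945) (nat_lit 1)) .nil)) .nil)))) (.cons (.br (nat_lit 1) (nat_lit 1) (.cons (.br (nat_lit 7) (nat_lit 1) (.cons (.ev (nat_lit 20837006760141347574998375006980) (nat_lit 3)) .nil)) (.cons (.rf (nat_lit 36) (nat_lit 484670921453392299072)) (.cons (.rf (nat_lit 46) (nat_lit 491586233928870364224)) .nil)))) (.cons (.br (nat_lit 13) (nat_lit 1) (.cons (.rf (nat_lit 46) (nat_lit 491586057943731340352)) (.cons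 (.rf (nat_lit 250) (nat_lit 493749126131645514912)) (.cons (.ev (nat_lit 79537647524085683766092103681) (nat_lit 1)) .nil)))) (.cons (.br (nat_lit 1) (nat_lit 1) (.cons (.ev (nat_lit 20361637770888301244414735482881) (nat_lit 1)) (.cons (.rf (nat_lit 153) (nat_lit 458043460187024884800)) (.cons (.rf (nat_lit 153) (nat_lit 457863321630840915008)) .nil)))) .nil)))))) .nil)),
 (.br (nat_lit 7) (nat_lit 0) (.cons (.rf (nat_lit 508) (nat_lit 493858305440582043680)) (.cons (.rf (nat_lit 508) (nat_lit 493857214725047289888)) .nil))),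
 (.br (nat_lit 5) (nat_lit 0) (.cons (.rf (nat_lit 507) (nat_lit 493858305440582043680)) (.cons (.rf (nat_lit 507) (nat_lit 493857214725047289888)) (.cons (.br (nat_lit 11) (nat_lit 1) (.cons (.rf (nat_lit 509) (nat_lit 493858305440582043680)) (.cons (.rf (nat_lit 509) (nat_lit 493858305268783356960)) (.cons (.rf (nat_lit 498) (nat_lit 458009655705112545440)) .nil)))) .nil)))),
 (.br (nat_lit 13) (nat_lit 1) (.cons (.rf (nat_lit 240) (nat_lit 14315088412547421216)) (.cons (.br (nat_lit 5) (nat_lit 1) (.cons (.ev (nat_lit 79855628182250750720195299076) (nat_lit 3)) .nil)) (.cons (.ev (nat_lit 20361948464823942485583316713473) (nat_lit 1)) .nil)))),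
 (.br (nat_lit 13) (nat_lit 1) (.cons (.rf (nat_lit 39) (nat_lit 491587154220102812736)) (.cons (.rf (nat_lit 156) (nat_lit 15431981119937025248)) (.cons (.zr (nat_lit 60847228810991904763287708041216) (nat_lit 1239153687471759253007499265) (nat_lit 5) (nat_lit 0)) .nil)))),
 (.br (nat_lit 5) (nat_lit 0) (.cons (.br (nat_lit 2) (nat_lit 0) (.cons (.br (nat_lit 2) (nat_lit 1) (.cons (.rf (nat_lit 511) (nat_lit 493858305440582043680)) (.cons (.rf (nat_lit 512) (nat_lit 493858305440582043680)) (.cons (.br (nat_lit 13) (nat_lit 1) (.cons (.rf (nat_lit 0) (nat_lit 384360030202065261792)) (.cons (.br (nat_lit 12) (nat_lit 1) (.cons (.ev (nat_lit 22271796238376337991865203887376) (nat_lit 5)) .nil)) (.cons (.rf (nat_lit 12) (nat_lit 124995477095884981312)) .nil)))) (.cons (.br (nat_lit 7) (nat_lit 1) (.cons (.rf (nat_lit 156) (nat_lit 14314983030092072000)) (.cons (.rf (nat_lit 511) (nat_lit 458009655533313858720)) (.cons (.ev (nat_lit 20361948464823942204108356780033) (nat_lit 1)) .nil)))) (.cons (.br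 (nat_lit 1) (nat_lit 1) (.cons (.zr (nat_lit 309485046714833224750792704) (nat_lit 40564820420951527229067322458113) (nat_lit 5) (nat_lit 6)) (.cons (.rf (nat_lit 1) (nat_lit 383242012828470805568)) (.cons (.ev (nat_lit 20282409603670117168025272582401) (nat_lit 1)) .nil)))) .nil)))))) .nil)) .nil)),
 (.br (nat_lit 13) (nat_lit 1) (.cons (.rf (nat_lit 188) (nat_lit 493858299942889851040)) (.cons (.ev (nat_lit 310698658079501261111034113) (nat_lit 1)) (.cons (.rf (nat_lit 80) (nat_lit 420038675847273777184)) .nil)))),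
 (.br (nat_lit 2) (nat_lit 1) (.cons (.rf (nat_lit 514) (nat_lit 493858305268783356960)) (.cons (.rf (nat_lit 188) (nat_lit 458117734227923704864)) (.cons (.rf (nat_lit 82) (nat_lit 420038675675475090464)) .nil)))),
 (.br (nat_lit 5) (nat_lit 0) (.cons (.br (nat_lit 7) (nat_lit 0) (.cons (.br (nat_lit 1) (nat_lit 1) (.cons (.br (nat_lit 13) (nat_lit 1) (.cons (.ev (nat_lit 310698658007443667073171713) (nat_lit 1)) (.cons (.br (nat_lit 5) (nat_lit 1) (.cons (.ev (nat_lit 22427764669441498846926488535824) (nat_lit 5)) .nil)) (.cons (.br (nat_lit 5) (nat_lit 1) (.cons (.ev (nat_lit 21315473003250432519363292496136) (nat_lit 4)) .nil)) .nil)))) (.cons (.br (nat_lit 7) (nat_lit 1) (.cons (.rf (nat_lit 84) (nat_lit 383181216325074951200)) (.cons (.rf (nat_lit 85) (nat_lit 125826395628233753824)) (.cons (.br (nat_lit 2) (nat_lit 1) (.cons (.ev (nat_lit 21315473003250429141672329675016) (nat_lit 4)) .nil)) .nil)))) (.cons (.br (nat_lit 13) (nat_lit 1) (.cons (.rf (nat_lit 86) (nat_lit 161532059235590018112))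 (.cons (.ev (nat_lit 310693954159762469453562113) (nat_lit 1)) (.cons (.rf (nat_lit 87) (nat_lit 161532059235590018112)) .nil)))) (.cons (.br (nat_lit 2) (nat_lit 1) (.cons (.ev (nat_lit 310698658007443671351361793) (nat_lit 1)) (.cons (.ev (nat_lit 159077717678021712836305289732) (nat_lit 3)) (.cons (.ev (nat_lit 20361948460120022465312421117953) (nat_lit 1)) .nil)))) (.cons (.br (nat_lit 5) (nat_lit 1) (.cons (.rf (nat_lit 86) (nat_lit 383181216325074951200)) (.cons (.br (nat_lit 12) (nat_lit 1) (.cons (.ev (nat_lit 22427764631809564475806700339984) (nat_lit 5)) .nil)) (.cons (.rf (nat_lit 88) (nat_lit 161532059235590018112)) .nil)))) .nil)))))) .nil)) (.cons (.br (nat_lit 8) (nat_lit 1) (.cons (.br (nat_lit 7) (nat_lit 1) (.cons (.br (nat_lit 5) (nat_lit 1) (.cons (.rf (nat_lit 35) (nat_lit 446659486031271892192)) (.cons (.zr (nat_lit 238303457562651875700195197696) (nat_lit 1213721973355272946581505) (nat_lit 5) (nat_lit 0)) (.cons (.ev (nat_lit 310693954159762469453562113) (nat_lit 1)) .nil))))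 (.cons (.br (nat_lit 5) (nat_lit 1) (.cons (.rf (nat_lit 35) (nat_lit 455882858093860885728)) (.cons (.rf (nat_lit 45) (nat_lit 453577894668215194848)) (.cons (.br (nat_lit 12) (nat_lit 1) (.cons (.ev (nat_lit 20837011576954871308718977516292) (nat_lit 3)) .nil)) .nil)))) (.cons (.br (nat_lit 12) (nat_lit 1) (.cons (.ev (nat_lit 310693954159762465175372033) (nat_lit 1)) (.cons (.br (nat_lit 1) (nat_lit 1) (.cons (.ev (nat_lit 311902916872866345575842306) (nat_lit 2)) .nil)) (.cons (.br (nat_lit 2) (nat_lit 1) (.cons (.ev (nat_lit 20838868487051126901701423203076) (nat_lit 3)) .nil)) .nil)))) (.cons (.br (nat_lit 13) (nat_lit 1) (.cons (.rf (nat_lit 250) (nat_lit 458073828493171561536)) (.cons (.rf (nat_lit 250) (nat_lit 458082833527754462240)) (.cons (.ev (nat_lit 20361638975091826715243296325633) (nat_lit 1)) .nil)))) (.cons (.br (nat_lit 1) (nat_lit 1) (.cons (.ev (nat_lit 40565128701813307448526308049410) (nat_lit 2)) (.cons (.br (nat_lit 2) (nat_lit 1) (.cons (.ev (nat_lit 20838868487051125775784336491268)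 (nat_lit 3)) .nil)) (.cons (.ev (nat_lit 20361638975091826715238984581121) (nat_lit 1)) .nil)))) .nil)))))) .nil)) .nil))),
 (.br (nat_lit 13) (nat_lit 0) (.cons (.rf (nat_lit 510) (nat_lit 493858305440582043680)) (.cons (.br (nat_lit 7) (nat_lit 0) (.cons (.rf (nat_lit 513) (nat_lit 493858305440582043680)) (.cons (.br (nat_lit 2) (nat_lit 0) (.cons (.rf (nat_lit 513) (nat_lit 493858305268783356960)) (.cons (.br (nat_lit 8) (nat_lit 1) (.cons (.br (nat_lit 7) (nat_lit 1) (.cons (.rf (nat_lit 514) (nat_lit 493858305440582043680)) (.cons (.kr (nat_lit 65536) (nat_lit 72057594037927936) (nat_lit 2) (nat_lit 0)) (.cons (.rf (nat_lit 514) (nat_lit 458117738797634554016)) (.cons (.rf (nat_lit 515) (nat_lit 493858305440582043680)) (.cons (.rf (nat_lit 515) (nat_lit 458117738797634554016)) .nil)))))) .nil)) .nil))) .nil))) (.cons (.br (nat_lit 11) (nat_lit 1) (.cons (.rf (nat_lit 516) (nat_lit 493858305440582043680)) (.cons (.rf (nat_lit 498) (nat_lit 458009655705112545440)) (.cons (.rf (nat_lit 516) (nat_lit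 493858305268783356960)) .nil)))) .nil))))]

theorem c17 : chkAll C T R L17 (nat_lit 493) = true := by decide +kernel

theorem l17 : (nat_lit 493) + L17.length = (nat_lit 518) := by decide +kernel

/-- part of the certificates -/
def L18 : List Prf := [(.br (nat_lit 13) (nat_lit 0) (.cons (.rf (nat_lit 510) (nat_lit 493858305440582043680)) (.cons (.rf (nat_lit 517) (nat_lit 493858305440582043680)) (.cons (.rf (nat_lit 517) (nat_lit 493857214725047289888)) (.cons (.br (nat_lit 13) (nat_lit 0) (.cons (.rf (nat_lit 510) (nat_lit 493858305440582043680)) (.cons (.rf (nat_lit 517) (nat_lit 493858305440582043680)) (.cons (.rf (nat_lit 517) (nat_lit 493857214725047289888)) .nil)))) .nil))))),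
 (.br (nat_lit 12) (nat_lit 1) (.cons (.br (nat_lit 5) (nat_lit 1) (.cons (.ev (nat_lit 20283961864496723651770357712388) (nat_lit 3)) .nil)) (.cons (.zr (nat_lit 618970056536744533356970752) (nat_lit 61084914512145990382125517373441) (nat_lit 5) (nat_lit 0)) (.cons (.rf (nat_lit 249) (nat_lit 458115276783002784832)) .nil)))),
 (.br (nat_lit 7) (nat_lit 1) (.cons (.ev (nat_lit 20282720297605758127723172069633) (nat_lit 1)) (.cons (.br (nat_lit 12) (nat_lit 1) (.cons (.zr (nat_lit 72059793061249536) (nat_lit 1213648186097503131664385) (nat_lit 5) (nat_lit 0)) .nil)) (.cons (.ev (nat_lit 79537652264899192184406802433) (nat_lit 1)) .nil)))),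
 (.br (nat_lit 13) (nat_lit 0) (.cons (.br (nat_lit 5) (nat_lit 0) (.cons (.rf (nat_lit 498) (nat_lit 458046774118154635424)) (.cons (.br (nat_lit 10) (nat_lit 1) (.cons (.br (nat_lit 13) (nat_lit 1) (.cons (.rf (nat_lit 519) (nat_lit 493858305440582043680)) (.cons (.br (nat_lit 12) (nat_lit 1) (.cons (.ev (nat_lit 20282720297605758409193853812993) (nat_lit 1)) (.cons (.rf (nat_lit 249) (nat_lit 493751171154558780640)) (.cons (.kr (nat_lit 4722366482869645279232) (nat_lit 1208925891672223212634112) (nat_lit 2) (nat_lit 0)) .nil)))) (.cons (.rf (nat_lit 520) (nat_lit 493858305440582043680)) (.cons (.br (nat_lit 12) (nat_lit 1) (.cons (.rf (nat_lit 520) (nat_lit 458008564817779104928)) (.cons (.ev (nat_lit 20361638975091826715243296325633) (nat_lit 1)) (.cons (.rf (nat_lit 519) (nat_lit 458008564817779104928)) .nil)))) (.cons (.br (nat_lit 2) (nat_lit 1) (.cons (.ev (nat_lit 20361637770888301244414735482881) (nat_lit 1)) (.cons (.zr (nat_lit 1218370552580372793851904) (nat_lit 40565128692331609220710936870913)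 (nat_lit 5) (nat_lit 6)) (.cons (.rf (nat_lit 102) (nat_lit 309394060780924769344)) .nil)))) .nil)))))) .nil)) .nil))) (.cons (.br (nat_lit 5) (nat_lit 0) (.cons (.rf (nat_lit 518) (nat_lit 458046774118154635424)) .nil)) .nil))),
 (.br (nat_lit 5) (nat_lit 1) (.cons (.br (nat_lit 13) (nat_lit 1) (.cons (.kr (nat_lit 79228162551157825749553053952) (nat_lit 20282409613096475448380124823552) (nat_lit 1) (nat_lit 0)) .nil)) (.cons (.br (nat_lit 2) (nat_lit 1) (.cons (.kr (nat_lit 79228162551157825749553053952) (nat_lit 20282409613096475448380124823552) (nat_lit 1) (nat_lit 0)) .nil)) (.cons (.ev (nat_lit 18519084242235818241) (nat_lit 1)) .nil)))),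
 (.br (nat_lit 1) (nat_lit 1) (.cons (.rf (nat_lit 203) (nat_lit 458043256708557636832)) (.cons (.rf (nat_lit 217) (nat_lit 458008353811445515488)) (.cons (.ev (nat_lit 20361637770888373583479455088641) (nat_lit 1)) .nil)))),
 (.br (nat_lit 2) (nat_lit 1) (.cons (.ev (nat_lit 310693935641242272404602881) (nat_lit 1)) .nil)),
 (.br (nat_lit 2) (nat_lit 1) (.cons (.rf (nat_lit 502) (nat_lit 457936253240855600288)) (.cons (.rf (nat_lit 502) (nat_lit 493676853968665582624)) (.cons (.rf (nat_lit 503) (nat_lit 493821221112400414752)) .nil)))),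
 (.br (nat_lit 9) (nat_lit 1) (.cons (.rf (nat_lit 521) (nat_lit 493858305268783356960)) (.cons (.br (nat_lit 11) (nat_lit 1) (.cons (.br (nat_lit 10) (nat_lit 1) (.cons (.br (nat_lit 7) (nat_lit 1) (.cons (.rf (nat_lit 522) (nat_lit 493858305440582043680)) (.cons (.kr (nat_lit 18446744078004584448) (nat_lit 4722438540463699918848) (nat_lit 2) (nat_lit 0)) (.cons (.br (nat_lit 12) (nat_lit 1) (.cons (.ev (nat_lit 18519084246547562753) (nat_lit 1)) (.cons (.rf (nat_lit 203) (nat_lit 493748884034177668160)) (.cons (.rf (nat_lit 215) (nat_lit 458008353811445515488)) .nil)))) (.cons (.br (nat_lit 5) (nat_lit 1) (.cons (.br (nat_lit 13) (nat_lit 1) (.cons (.zr (nat_lit 237684487579686500936641086208) (nat_lit 310712825107172651524161537) (nat_lit 5) (nat_lit 0)) .nil)) (.cons (.rf (nat_lit 522) (nat_lit 458082801643863284896)) (.cons (.ev (nat_lit 20361637770888373583483766833153) (nat_lit 1)) .nil)))) (.cons (.rf (nat_lit 523) (nat_lit 493858305440582043680)) .nil)))))) .nil)) (.cons (.rf (nat_lit 518)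 (nat_lit 458082801815661971616)) .nil))) (.cons (.br (nat_lit 11) (nat_lit 1) (.cons (.br (nat_lit 10) (nat_lit 1) (.cons (.br (nat_lit 7) (nat_lit 1) (.cons (.br (nat_lit 13) (nat_lit 1) (.cons (.br (nat_lit 12) (nat_lit 1) (.cons (.ev (nat_lit 20837011576955305343141655413508) (nat_lit 3)) .nil)) (.cons (.rf (nat_lit 524) (nat_lit 15433072009550071840)) (.cons (.ev (nat_lit 20282719093402304995963642577153) (nat_lit 1)) .nil)))) (.cons (.br (nat_lit 1) (nat_lit 1) (.cons (.rf (nat_lit 35) (nat_lit 492740245977213240544)) (.cons (.ev (nat_lit 79538856486798785443191128322) (nat_lit 2)) (.cons (.rf (nat_lit 45) (nat_lit 490433136441103156448)) .nil)))) (.cons (.br (nat_lit 1) (nat_lit 1) (.cons (.rf (nat_lit 35) (nat_lit 484669795555464119520)) (.cons (.ev (nat_lit 79537647524085683761780359169) (nat_lit 1)) (.cons (.rf (nat_lit 45) (nat_lit 490433382621208970464)) .nil)))) (.cons (.br (nat_lit 13) (nat_lit 1) (.cons (.br (nat_lit 5) (nat_lit 1) (.cons (.ev (nat_lit 20837011595918270020530366120708)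 (nat_lit 3)) .nil)) (.cons (.ev (nat_lit 20361638979832567884588301484033) (nat_lit 1)) (.cons (.rf (nat_lit 151) (nat_lit 458079461427430753504)) .nil)))) (.cons (.br (nat_lit 12) (nat_lit 1) (.cons (.ev (nat_lit 20282719093402304995963642577153) (nat_lit 1)) (.cons (.rf (nat_lit 250) (nat_lit 493751342575456158880)) (.cons (.rf (nat_lit 250) (nat_lit 493743465777241195584)) .nil)))) .nil)))))) .nil)) (.cons (.br (nat_lit 10) (nat_lit 1) (.cons (.br (nat_lit 7) (nat_lit 1) (.cons (.rf (nat_lit 502) (nat_lit 457936253412654287008)) (.cons (.kr (nat_lit 65536) (nat_lit 72057594037927936) (nat_lit 2) (nat_lit 0)) (.cons (.rf (nat_lit 502) (nat_lit 493676854140464269344)) (.cons (.rf (nat_lit 525) (nat_lit 493858305440582043680)) (.cons (.rf (nat_lit 525) (nat_lit 458009655705112545440)) .nil)))))) .nil)) .nil))) .nil)))),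
 (.br (nat_lit 7) (nat_lit 0) (.cons (.rf (nat_lit 521) (nat_lit 493858305440582043680)) (.cons (.rf (nat_lit 526) (nat_lit 493858305440582043680)) (.cons (.br (nat_lit 2) (nat_lit 0) (.cons (.rf (nat_lit 521) (nat_lit 493858305268783356960)) (.cons (.rf (nat_lit 526) (nat_lit 493858305268783356960)) .nil))) .nil)))),
 (.br (nat_lit 5) (nat_lit 0) (.cons (.rf (nat_lit 518) (nat_lit 458117738797634554016)) (.cons (.rf (nat_lit 498) (nat_lit 458082801815661971616)) (.cons (.rf (nat_lit 498) (nat_lit 458046774118154635424)) (.cons (.rf (nat_lit 518) (nat_lit 458009655705112545440)) .nil))))),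
 (.br (nat_lit 5) (nat_lit 0) (.cons (.br (nat_lit 10) (nat_lit 1) (.cons (.br (nat_lit 12) (nat_lit 1) (.cons (.br (nat_lit 2) (nat_lit 1) (.cons (.ev (nat_lit 1213666632842672057942273) (nat_lit 1)) (.cons (.kr (nat_lit 4722366482869645279232) (nat_lit 309485009893402662762708992) (nat_lit 2) (nat_lit 0)) (.cons (.ev (nat_lit 20361948460120022465312421117953) (nat_lit 1)) .nil)))) (.cons (.br (nat_lit 5) (nat_lit 1) (.cons (.br (nat_lit 7) (nat_lit 1) (.cons (.zr (nat_lit 238303457562651875700195197696) (nat_lit 1227833732571660753567745) (nat_lit 5) (nat_lit 0)) .nil)) (.cons (.zr (nat_lit 310693954087704871120732160) (nat_lit 79228167236702878057227091969) (nat_lit 5) (nat_lit 10)) (.cons (.ev (nat_lit 20361948460120022465316699308033) (nat_lit 1)) .nil)))) (.cons (.zr (nat_lit 620178963909049939845447680) (nat_lit 79228171958997303332834377729) (nat_lit 5) (nat_lit 10)) (.cons (.br (nat_lit 13) (nat_lit 1) (.cons (.zr (nat_lit 1218388999324442174685440) (nat_lit 20283028573671313114084700848129)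 (nat_lit 5) (nat_lit 8)) (.cons (.rf (nat_lit 276) (nat_lit 457865605219846722592)) (.cons (.ev (nat_lit 20361638979832639660711657603073) (nat_lit 1)) .nil)))) (.cons (.br (nat_lit 5) (nat_lit 1) (.cons (.kr (nat_lit 79537647524085682662268731648) (nat_lit 20282409608374036907916408127488) (nat_lit 1) (nat_lit 0)) (.cons (.rf (nat_lit 13) (nat_lit 163006982615824798944)) (.cons (.br (nat_lit 1) (nat_lit 1) (.cons (.zr (nat_lit 238303457562651875700195197696) (nat_lit 1227833732571660753567745) (nat_lit 5) (nat_lit 0)) .nil)) .nil)))) .nil)))))) .nil)) .nil)),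
 (.br (nat_lit 13) (nat_lit 1) (.cons (.ev (nat_lit 310693954087704875415699713) (nat_lit 1)) (.cons (.zr (nat_lit 1218389071382036212613376) (nat_lit 20283028573671313114084700913665) (nat_lit 5) (nat_lit 8)) (.cons (.rf (nat_lit 80) (nat_lit 383181216325074951200)) .nil)))),
 (.br (nat_lit 7) (nat_lit 1) (.cons (.rf (nat_lit 530) (nat_lit 493858305268783356960)) (.cons (.zr (nat_lit 1218388999325541686378496) (nat_lit 79847132533979085325031440385) (nat_lit 5) (nat_lit 8)) (.cons (.rf (nat_lit 82) (nat_lit 383181216496873637920)) .nil)))),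
 (.br (nat_lit 13) (nat_lit 0) (.cons (.rf (nat_lit 527) (nat_lit 493858305440582043680)) (.cons (.rf (nat_lit 528) (nat_lit 493858305440582043680)) (.cons (.br (nat_lit 7) (nat_lit 0) (.cons (.rf (nat_lit 529) (nat_lit 493858305440582043680)) (.cons (.br (nat_lit 5) (nat_lit 0) (.cons (.br (nat_lit 2) (nat_lit 0) (.cons (.br (nat_lit 2) (nat_lit 1) (.cons (.rf (nat_lit 530) (nat_lit 493858305440582043680)) (.cons (.rf (nat_lit 530) (nat_lit 458117738797634554016)) (.cons (.kr (nat_lit 65536) (nat_lit 72057594037927936) (nat_lit 2) (nat_lit 0)) (.cons (.rf (nat_lit 531) (nat_lit 493858305440582043680)) (.cons (.rf (nat_lit 531) (nat_lit 458117738797634554016)) .nil)))))) .nil)) (.cons (.rf (nat_lit 529) (nat_lit 458043501971550374048)) .nil))) .nil))) .nil)))),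
 (.br (nat_lit 5) (nat_lit 1) (.cons (.zr (nat_lit 237686905394432242038981460736) (nat_lit 309503917734302100303642625) (nat_lit 5) (nat_lit 0)) (.cons (.rf (nat_lit 86) (nat_lit 125826465996070913088)) (.cons (.ev (nat_lit 79228167236631103037694279681) (nat_lit 1)) .nil)))),
 (.br (nat_lit 7) (nat_lit 1) (.cons (.br (nat_lit 13) (nat_lit 1) (.cons (.ev (nat_lit 80161453376280131968203818756) (nat_lit 3)) .nil)) (.cons (.rf (nat_lit 85) (nat_lit 384261024703274294432)) (.cons (.rf (nat_lit 533) (nat_lit 458116647910301113504)) .nil)))),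
 (.br (nat_lit 7) (nat_lit 0) (.cons (.br (nat_lit 12) (nat_lit 1) (.cons (.br (nat_lit 2) (nat_lit 1) (.cons (.rf (nat_lit 524) (nat_lit 14314985060400503968)) (.cons (.br (nat_lit 13) (nat_lit 1) (.cons (.ev (nat_lit 20997349104449069709226174782736) (nat_lit 5)) .nil)) (.cons (.rf (nat_lit 220) (nat_lit 15063355648908352)) .nil)))) (.cons (.rf (nat_lit 533) (nat_lit 493858305440582043680)) (.cons (.rf (nat_lit 534) (nat_lit 493858305440582043680)) (.cons (.br (nat_lit 13) (nat_lit 1) (.cons (.rf (nat_lit 534) (nat_lit 458116647910301113504)) (.cons (.ev (nat_lit 20361947255916641672621889421313) (nat_lit 1)) (.cons (.rf (nat_lit 220) (nat_lit 13971677908306144)) .nil)))) (.cons (.br (nat_lit 7) (nat_lit 1) (.cons (.ev (nat_lit 20361947255916641391146929487873) (nat_lit 1)) (.cons (.zr (nat_lit 20361637766202828531163191246848) (nat_lit 1213648330212691207520257) (nat_lit 5) (nat_lit 9)) (.cons (.zr (nat_lit 1218370768753154907439104) (nat_lit 40565128692331609220710936870913) (nat_lit 5) (nat_lit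 6)) .nil)))) .nil)))))) .nil)),
 (.br (nat_lit 13) (nat_lit 0) (.cons (.rf (nat_lit 527) (nat_lit 493858305440582043680)) (.cons (.rf (nat_lit 528) (nat_lit 493858305440582043680)) (.cons (.br (nat_lit 5) (nat_lit 0) (.cons (.br (nat_lit 9) (nat_lit 1) (.cons (.rf (nat_lit 535) (nat_lit 493858305440582043680)) (.cons (.rf (nat_lit 535) (nat_lit 493858305268783356960)) .nil))) (.cons (.rf (nat_lit 527) (nat_lit 458079529669057710240)) (.cons (.rf (nat_lit 498) (nat_lit 458046774118154635424)) .nil)))) .nil)))),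
 (.br (nat_lit 12) (nat_lit 0) (.cons (.rf (nat_lit 498) (nat_lit 493858305440582043680)) (.cons (.rf (nat_lit 528) (nat_lit 458117738797634554016)) (.cons (.br (nat_lit 13) (nat_lit 0) (.cons (.rf (nat_lit 527) (nat_lit 493858305440582043680)) (.cons (.rf (nat_lit 532) (nat_lit 493858305440582043680)) (.cons (.rf (nat_lit 536) (nat_lit 493858305440582043680)) (.cons (.br (nat_lit 13) (nat_lit 0) (.cons (.rf (nat_lit 528) (nat_lit 493823368458609461280)) (.cons (.rf (nat_lit 532) (nat_lit 493858305440582043680)) (.cons (.rf (nat_lit 536) (nat_lit 493858305440582043680)) .nil)))) .nil))))) .nil)))),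
 (.br (nat_lit 4) (nat_lit 1) (.cons (.rf (nat_lit 424) (nat_lit 243913589824)) (.cons (.rf (nat_lit 424) (nat_lit 175093449952)) (.cons (.br (nat_lit 3) (nat_lit 1) (.cons (.rf (nat_lit 424) (nat_lit 244987298880)) (.cons (.rf (nat_lit 424) (nat_lit 247032022176)) (.cons (.rf (nat_lit 424) (nat_lit 176167159008)) (.cons (.br (nat_lit 2) (nat_lit 0) (.cons (.rf (nat_lit 454) (nat_lit 14242959524133701664)) (.cons (.rf (nat_lit 479) (nat_lit 14242959524133701664)) (.cons (.rf (nat_lit 479) (nat_lit 14241868808598947872)) (.cons (.br (nat_lit 7) (nat_lit 0) (.cons (.rf (nat_lit 454) (nat_lit 14242959352335014944)) (.cons (.rf (nat_lit 479) (nat_lit 14242959352335014944)) (.cons (.rf (nat_lit 479) (nat_lit 14241868636800261152)) (.cons (.br (nat_lit 5) (nat_lit 0) (.cons (.br (nat_lit 10) (nat_lit 1) (.cons (.rf (nat_lit 480) (nat_lit 14241868808598947872)) (.cons (.br (nat_lit 10) (nat_lit 1) (.cons (.rf (nat_lit 480) (nat_lit 14241868808598947872)) .nil)) .nil))) (.cons (.rf (nat_lit 479) (nat_lit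 14204750395421624480)) (.cons (.rf (nat_lit 479) (nat_lit 14168722697914288288)) .nil)))) .nil))))) .nil))))) (.cons (.br (nat_lit 12) (nat_lit 0) (.cons (.rf (nat_lit 498) (nat_lit 493858305440582043680)) (.cons (.rf (nat_lit 537) (nat_lit 493858305440582043680)) (.cons (.rf (nat_lit 537) (nat_lit 493857214725047289888)) (.cons (.br (nat_lit 12) (nat_lit 0) (.cons (.rf (nat_lit 498) (nat_lit 493858305440582043680)) (.cons (.rf (nat_lit 537) (nat_lit 493858305440582043680)) (.cons (.rf (nat_lit 537) (nat_lit 493857214725047289888)) .nil)))) .nil))))) .nil)))))) .nil)))),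
 (.br (nat_lit 2) (nat_lit 0) (.cons (.rf (nat_lit 538) (nat_lit 407901465630409792)) (.cons (.rf (nat_lit 538) (nat_lit 372964483657827392)) (.cons (.rf (nat_lit 538) (nat_lit 336936786150491200)) (.cons (.rf (nat_lit 538) (nat_lit 299818373108401216)) .nil))))),
 (.br (nat_lit 9) (nat_lit 1) (.cons (.kr (nat_lit 309485009821345068724846592) (nat_lit 4722366482869661990912) (nat_lit 2) (nat_lit 0)) (.cons (.kr (nat_lit 4722366482869661990912) (nat_lit 309485009821346168236408832) (nat_lit 3) (nat_lit 0)) (.cons (.kr (nat_lit 4722366482869645213696) (nat_lit 309485009821345068724781056) (nat_lit 9) (nat_lit 0)) (.cons (.kr (nat_lit 4722366482869661990912) (nat_lit 310693935640959697899487232) (nat_lit 3) (nat_lit 0)) .nil))))),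
 (.br (nat_lit 13) (nat_lit 0) (.cons (.rf (nat_lit 540) (nat_lit 482214196706151489)) (.cons (.rf (nat_lit 540) (nat_lit 482283500298439745)) .nil))),
 (.br (nat_lit 13) (nat_lit 0) (.cons (.rf (nat_lit 541) (nat_lit 493787340761102125088)) (.cons (.br (nat_lit 13) (nat_lit 0) (.cons (.rf (nat_lit 540) (nat_lit 482177947182173249)) (.cons (.rf (nat_lit 540) (nat_lit 482283500298439745)) .nil))) (.cons (.rf (nat_lit 541) (nat_lit 493858305440582043680)) .nil)))),
 (.br (nat_lit 13) (nat_lit 0) (.cons (.rf (nat_lit 542) (nat_lit 493823368458609461280)) (.cons (.rf (nat_lit 542) (nat_lit 493858305440582043680)) (.cons (.rf (nat_lit 542) (nat_lit 493857214725047289888)) (.cons (.rf (nat_lit 542) (nat_lit 493820096312005199904)) .nil)))))]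

theorem c18 : chkAll C T R L18 (nat_lit 518) = true := by decide +kernel

theorem l18 : (nat_lit 518) + L18.length = (nat_lit 544) := by decide +kernel

/-- part of the certificates -/
def L19 : List Prf := [(.br (nat_lit 5) (nat_lit 1) (.cons (.rf (nat_lit 543) (nat_lit 493858305440582043680)) .nil)),
 (.br (nat_lit 10) (nat_lit 1) (.cons (.ev (nat_lit 79229376162522774161378508801) (nat_lit 1)) (.cons (.ev (nat_lit 79229376162522492686418575361) (nat_lit 1)) (.cons (.ev (nat_lit 79229376162522774165690253313) (nat_lit 1)) (.cons (.ev (nat_lit 1213648258436567851335681) (nat_lit 1)) .nil))))),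
 (.br (nat_lit 7) (nat_lit 0) (.cons (.br (nat_lit 13) (nat_lit 0) (.cons (.rf (nat_lit 545) (nat_lit 493858305440582043680)) (.cons (.rf (nat_lit 545) (nat_lit 493857214725047289888)) (.cons (.br (nat_lit 13) (nat_lit 0) (.cons (.rf (nat_lit 545) (nat_lit 493858305440582043680)) (.cons (.rf (nat_lit 545) (nat_lit 493857214725047289888)) .nil))) .nil)))) (.cons (.br (nat_lit 10) (nat_lit 1) (.cons (.br (nat_lit 10) (nat_lit 1) (.cons (.ev (nat_lit 79229371458602753894761103361) (nat_lit 1)) (.cons (.ev (nat_lit 1208944338416296922185729) (nat_lit 1)) .nil))) (.cons (.br (nat_lit 10) (nat_lit 1) (.cons (.ev (nat_lit 79229371458602753894761103361) (nat_lit 1)) (.cons (.ev (nat_lit 1208944338697776193863681) (nat_lit 1)) .nil))) (.cons (.br (nat_lit 10) (nat_lit 1) (.cons (.ev (nat_lit 1208944338416296922185729) (nat_lit 1)) (.cons (.ev (nat_lit 1208944338697776193863681) (nat_lit 1)) .nil))) .nil)))) .nil))),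
 (.br (nat_lit 7) (nat_lit 0) (.cons (.rf (nat_lit 546) (nat_lit 493858305440582043680)) (.cons (.rf (nat_lit 546) (nat_lit 493857214725047289888)) (.cons (.br (nat_lit 7) (nat_lit 0) (.cons (.rf (nat_lit 546) (nat_lit 493858305440582043680)) (.cons (.rf (nat_lit 546) (nat_lit 493857214725047289888)) .nil))) .nil)))),
 (.br (nat_lit 13) (nat_lit 0) (.cons (.rf (nat_lit 547) (nat_lit 493858305440582043680)) (.cons (.br (nat_lit 2) (nat_lit 0) (.cons (.br (nat_lit 10) (nat_lit 1) (.cons (.ev (nat_lit 20282410812595936783753942204673) (nat_lit 1)) (.cons (.br (nat_lit 9) (nat_lit 1) (.cons (.ev (nat_lit 20282409608392483651994412712193) (nat_lit 1)) (.cons (.ev (nat_lit 1213648258436567851335681) (nat_lit 1)) .nil))) .nil))) (.cons (.rf (nat_lit 547) (nat_lit 493823368455388333120)) (.cons (.rf (nat_lit 547) (nat_lit 493787340757880996928)) (.cons (.rf (nat_lit 547) (nat_lit 493750222344838906944)) .nil))))) .nil))),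
 (.br (nat_lit 13) (nat_lit 0) (.cons (.rf (nat_lit 547) (nat_lit 493858305440582043680)) (.cons (.rf (nat_lit 548) (nat_lit 493858305440582043680)) (.cons (.br (nat_lit 13) (nat_lit 0) (.cons (.rf (nat_lit 547) (nat_lit 493858305440582043680)) (.cons (.rf (nat_lit 548) (nat_lit 493858305440582043680)) .nil))) .nil)))),
 (.br (nat_lit 5) (nat_lit 1) (.cons (.br (nat_lit 13) (nat_lit 0) (.cons (.rf (nat_lit 547) (nat_lit 493858305440582043680)) (.cons (.rf (nat_lit 549) (nat_lit 493858305440582043680)) (.cons (.rf (nat_lit 549) (nat_lit 493857214725047289888)) (.cons (.br (nat_lit 13) (nat_lit 0) (.cons (.rf (nat_lit 547) (nat_lit 493858305440582043680)) (.cons (.rf (nat_lit 549) (nat_lit 493858305440582043680)) (.cons (.rf (nat_lit 549) (nat_lit 493857214725047289888)) .nil)))) .nil))))) .nil)),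
 (.br (nat_lit 2) (nat_lit 0) (.cons (.rf (nat_lit 550) (nat_lit 493858305438299395136)) (.cons (.rf (nat_lit 550) (nat_lit 493823368456326812736)) (.cons (.rf (nat_lit 550) (nat_lit 493787340758819476544)) (.cons (.rf (nat_lit 550) (nat_lit 493750222345777386560)) .nil))))),
 (.br (nat_lit 7) (nat_lit 0) (.cons (.br (nat_lit 5) (nat_lit 0) (.cons (.br (nat_lit 7) (nat_lit 1) (.cons (.br (nat_lit 12) (nat_lit 1) (.cons (.rf (nat_lit 388) (nat_lit 421259120493292821536)) (.cons (.rf (nat_lit 488) (nat_lit 14316109961727515712)) (.cons (.ev (nat_lit 20520407203037084702334502568450) (nat_lit 2)) .nil)))) (.cons (.ev (nat_lit 309485028340146736472260609) (nat_lit 1)) (.cons (.ev (nat_lit 309485028340428215743938561) (nat_lit 1)) (.cons (.br (nat_lit 13) (nat_lit 1) (.cons (.ev (nat_lit 20282409603670117449500232515841) (nat_lit 1)) (.cons (.br (nat_lit 5) (nat_lit 1) (.cons (.ev (nat_lit 20838868496458965253402011173636) (nat_lit 3)) .nil)) (.cons (.br (nat_lit 1) (nat_lit 1) (.cons (.ev (nat_lit 20838868496458964690426287948548)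 (nat_lit 3)) .nil)) .nil)))) (.cons (.br (nat_lit 1) (nat_lit 1) (.cons (.br (nat_lit 5) (nat_lit 1) (.cons (.ev (nat_lit 20682264264822841228125272739592) (nat_lit 4)) .nil)) (.cons (.br (nat_lit 2) (nat_lit 1) (.cons (.ev (nat_lit 20682264264822839539232462802696) (nat_lit 4)) .nil)) (.cons (.ev (nat_lit 79538856449905297291460215041) (nat_lit 1)) .nil)))) .nil)))))) .nil)) .nil)),
 (.br (nat_lit 5) (nat_lit 1) (.cons (.ev (nat_lit 1213666632842672057942273) (nat_lit 1)) .nil)),
 (.br (nat_lit 1) (nat_lit 1) (.cons (.ev (nat_lit 20441486121792761700237709606914) (nat_lit 2)) .nil)),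
 (.br (nat_lit 2) (nat_lit 0) (.cons (.rf (nat_lit 552) (nat_lit 493858305440582043680)) (.cons (.br (nat_lit 5) (nat_lit 0) (.cons (.rf (nat_lit 552) (nat_lit 493858305438335996960)) (.cons (.br (nat_lit 7) (nat_lit 0) (.cons (.br (nat_lit 7) (nat_lit 1) (.cons (.br (nat_lit 13) (nat_lit 1) (.cons (.rf (nat_lit 553) (nat_lit 493858305440582043680)) (.cons (.rf (nat_lit 553) (nat_lit 493858305438335996960)) (.cons (.zr (nat_lit 238303457580882446991790965504) (nat_lit 1213648330494166184230913) (nat_lit 5) (nat_lit 9)) .nil)))) (.cons (.ev (nat_lit 309489732260167007401410561) (nat_lit 1)) (.cons (.ev (nat_lit 309489732259885536719667201) (nat_lit 1)) (.cons (.br (nat_lit 1) (nat_lit 1) (.cons (.zr (nat_lit 618970038305888468283162624) (nat_lit 158457538676714772690202788353) (nat_lit 5) (nat_lit 10)) (.cons (.zr (nat_lit 618970038305606997601419264) (nat_lit 158457538676715054160884531713) (nat_lit 5) (nat_lit 10)) (.cons (.ev (nat_lit 20282409603670117449500232515841) (nat_lit 1)) .nil)))) (.cons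 (.br (nat_lit 12) (nat_lit 1) (.cons (.ev (nat_lit 79538856449905297291460215041) (nat_lit 1)) (.cons (.rf (nat_lit 554) (nat_lit 493858305440582043680)) (.cons (.rf (nat_lit 554) (nat_lit 493858305438335996960)) .nil)))) .nil)))))) .nil)) .nil))) .nil))),
 (.br (nat_lit 1) (nat_lit 1) (.cons (.ev (nat_lit 18446745177516212481) (nat_lit 1)) (.cons (.kr (nat_lit 79228162514264337593543950592) (nat_lit 72339069014638592) (nat_lit 1) (nat_lit 0)) (.cons (.ev (nat_lit 20282409603670117449500232515841) (nat_lit 1)) .nil)))),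
 (.br (nat_lit 9) (nat_lit 1) (.cons (.br (nat_lit 11) (nat_lit 1) (.cons (.br (nat_lit 12) (nat_lit 1) (.cons (.br (nat_lit 13) (nat_lit 1) (.cons (.ev (nat_lit 20282409603670117168025272582401) (nat_lit 1)) (.cons (.ev (nat_lit 20282409603670117449495954325761) (nat_lit 1)) (.cons (.kr (nat_lit 309485009821345068741558272) (nat_lit 20361637766165934761540795236352) (nat_lit 3) (nat_lit 0)) .nil)))) (.cons (.rf (nat_lit 556) (nat_lit 493858305440582043680)) (.cons (.rf (nat_lit 556) (nat_lit 493857214722801243168)) (.cons (.ev (nat_lit 309485028340428215743938561) (nat_lit 1)) (.cons (.br (nat_lit 1) (nat_lit 1) (.cons (.ev (nat_lit 20282409603670117168025272582401) (nat_lit 1)) (.cons (.ev (nat_lit 20282409603670117449495954325761) (nat_lit 1)) (.cons (.ev (nat_lit 79537647542532708215266738433) (nat_lit 1)) .nil)))) .nil)))))) .nil)) (.cons (.br (nat_lit 5) (nat_lit 0) (.cons (.br (nat_lit 1) (nat_lit 1) (.cons (.br (nat_lit 5) (nat_lit 1) (.cons (.ev (nat_lit 1208925819615728703176961) (nat_lit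 1)) (.cons (.zr (nat_lit 9444732969046415441920) (nat_lit 237995181496880998027234377729) (nat_lit 5) (nat_lit 0)) (.cons (.br (nat_lit 7) (nat_lit 1) (.cons (.ev (nat_lit 80160253821260417946196574210) (nat_lit 2)) .nil)) .nil)))) (.cons (.br (nat_lit 12) (nat_lit 1) (.cons (.zr (nat_lit 9444733531987778928640) (nat_lit 237995181496880716556552634369) (nat_lit 5) (nat_lit 0)) (.cons (.br (nat_lit 13) (nat_lit 1) (.cons (.ev (nat_lit 80160253821260417946196574210) (nat_lit 2)) .nil)) (.cons (.ev (nat_lit 79537647542532708215266738433) (nat_lit 1)) .nil)))) (.cons (.br (nat_lit 5) (nat_lit 1) (.cons (.br (nat_lit 13) (nat_lit 1) (.cons (.ev (nat_lit 20837630556419392764227017049860) (nat_lit 3)) .nil)) (.cons (.rf (nat_lit 488) (nat_lit 14316109961727515712)) (.cons (.rf (nat_lit 488) (nat_lit 15424941057582111808)) .nil)))) (.cons (.ev (nat_lit 79537647542532708210954993921) (nat_lit 1)) (.cons (.ev (nat_lit 20282409603670117449500232515841) (nat_lit 1)) .nil)))))) .nil)) .nil))),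
 (.br (nat_lit 12) (nat_lit 1) (.cons (.ev (nat_lit 20838868515422218161166873854724) (nat_lit 3)) .nil)),
 (.br (nat_lit 5) (nat_lit 1) (.cons (.ev (nat_lit 79538856449905297295738405121) (nat_lit 1)) .nil)),
 (.br (nat_lit 13) (nat_lit 1) (.cons (.br (nat_lit 12) (nat_lit 1) (.cons (.ev (nat_lit 79538856449905297295738405121) (nat_lit 1)) .nil)) (.cons (.ev (nat_lit 20282720297587383442338717171713) (nat_lit 1)) (.cons (.rf (nat_lit 559) (nat_lit 493858305440582043680)) .nil)))),
 (.br (nat_lit 1) (nat_lit 1) (.cons (.ev (nat_lit 20282720297587383723813677105153) (nat_lit 1)) .nil)),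
 (.br (nat_lit 5) (nat_lit 0) (.cons (.br (nat_lit 11) (nat_lit 1) (.cons (.br (nat_lit 7) (nat_lit 1) (.cons (.br (nat_lit 13) (nat_lit 1) (.cons (.rf (nat_lit 558) (nat_lit 493858305440582043680)) (.cons (.rf (nat_lit 558) (nat_lit 493858305438335996960)) (.cons (.ev (nat_lit 20282409608374037188296168177921) (nat_lit 1)) .nil)))) (.cons (.rf (nat_lit 560) (nat_lit 493858305440582043680)) (.cons (.rf (nat_lit 560) (nat_lit 493858305438335996960)) (.cons (.br (nat_lit 13) (nat_lit 1) (.cons (.br (nat_lit 5) (nat_lit 1) (.cons (.ev (nat_lit 20521951029587807145596385822468) (nat_lit 3)) .nil)) (.cons (.ev (nat_lit 20361638979832639942182339346433) (nat_lit 1)) (.cons (.ev (nat_lit 20361638979832639660711657603073) (nat_lit 1)) .nil)))) (.cons (.ev (nat_lit 309485028340428215743938561) (nat_lit 1)) .nil)))))) .nil)) (.cons (.br (nat_lit 7) (nat_lit 0) (.cons (.br (nat_lit 7) (nat_lit 1) (.cons (.br (nat_lit 12) (nat_lit 1) (.cons (.zr (nat_lit 238303457580882446991790965504) (nat_lit 1213648330494166184230913)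 (nat_lit 5) (nat_lit 9)) (.cons (.zr (nat_lit 618970038089997165407503104) (nat_lit 158457538676858887874000453633) (nat_lit 5) (nat_lit 3)) (.cons (.ev (nat_lit 20282409608374037188296168177921) (nat_lit 1)) .nil)))) (.cons (.rf (nat_lit 258) (nat_lit 458008599072324391968)) (.cons (.br (nat_lit 12) (nat_lit 1) (.cons (.ev (nat_lit 79538856449905297291460215041) (nat_lit 1)) (.cons (.rf (nat_lit 561) (nat_lit 493858305440582043680)) (.cons (.rf (nat_lit 559) (nat_lit 493858305369616522272)) .nil)))) (.cons (.br (nat_lit 13) (nat_lit 1) (.cons (.br (nat_lit 5) (nat_lit 1) (.cons (.ev (nat_lit 20837009168658934863736424562948) (nat_lit 3)) .nil)) (.cons (.ev (nat_lit 20361638975091826715243296325633) (nat_lit 1)) (.cons (.ev (nat_lit 20361638975091826433764024647681) (nat_lit 1)) .nil)))) (.cons (.ev (nat_lit 309489732260167007401410561) (nat_lit 1)) .nil)))))) .nil)) .nil))),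
 (.br (nat_lit 5) (nat_lit 0) (.cons (.br (nat_lit 7) (nat_lit 1) (.cons (.br (nat_lit 5) (nat_lit 1) (.cons (.ev (nat_lit 1208925819615732981367041) (nat_lit 1)) (.cons (.zr (nat_lit 618970038089997165407503104) (nat_lit 158457538676858887874000453633) (nat_lit 5) (nat_lit 3)) (.cons (.zr (nat_lit 40564819207321788154918165545728) (nat_lit 1213648330212691207520257) (nat_lit 5) (nat_lit 3)) .nil)))) (.cons (.ev (nat_lit 310693935713298766930903041) (nat_lit 1)) (.cons (.ev (nat_lit 310693935713017296249159681) (nat_lit 1)) (.cons (.br (nat_lit 13) (nat_lit 1) (.cons (.br (nat_lit 2) (nat_lit 1) (.cons (.ev (nat_lit 20678552843630550303737446074116) (nat_lit 3)) .nil)) (.cons (.rf (nat_lit 220) (nat_lit 13971574828045536)) (.cons (.rf (nat_lit 220) (nat_lit 13971677907257568)) .nil)))) (.cons (.br (nat_lit 1) (nat_lit 1) (.cons (.rf (nat_lit 261) (nat_lit 458008599072324391968)) (.cons (.rf (nat_lit 206) (nat_lit 493787408928543446080)) (.cons (.br (nat_lit 2) (nat_lit 1) (.cons (.ev (nat_lit 20679790783669547458017060389636)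 (nat_lit 3)) .nil)) .nil)))) .nil)))))) .nil)),
 (.br (nat_lit 1) (nat_lit 1) (.cons (.ev (nat_lit 4722366483969173684481) (nat_lit 1)) (.cons (.rf (nat_lit 488) (nat_lit 13123851091137666208)) (.cons (.rf (nat_lit 488) (nat_lit 14234968069517909152)) .nil)))),
 (.br (nat_lit 1) (nat_lit 1) (.cons (.ev (nat_lit 4722366765448445362433) (nat_lit 1)) (.cons (.rf (nat_lit 450) (nat_lit 13121381630001552416)) (.cons (.rf (nat_lit 450) (nat_lit 14242959352335014944)) .nil)))),
 (.br (nat_lit 2) (nat_lit 0) (.cons (.br (nat_lit 7) (nat_lit 1) (.cons (.ev (nat_lit 309489732259885532407922689) (nat_lit 1)) (.cons (.rf (nat_lit 564) (nat_lit 15433035725666355232)) (.cons (.rf (nat_lit 565) (nat_lit 15433035725666355232)) (.cons (.br (nat_lit 1) (nat_lit 1) (.cons (.ev (nat_lit 79537652246452447006890656001) (nat_lit 1)) (.cons (.ev (nat_lit 79537652246452165536208912641) (nat_lit 1)) (.cons (.kr (nat_lit 79228162514264337593543950592) (nat_lit 72057594054705152) (nat_lit 1) (nat_lit 0)) .nil)))) (.cons (.br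 (nat_lit 5) (nat_lit 1) (.cons (.ev (nat_lit 20282409608374037188296168177921) (nat_lit 1)) (.cons (.br (nat_lit 12) (nat_lit 1) (.cons (.ev (nat_lit 20838866078644220075215197373188) (nat_lit 3)) .nil)) (.cons (.rf (nat_lit 220) (nat_lit 13971746626734240)) .nil)))) .nil)))))) .nil)),
 (.br (nat_lit 5) (nat_lit 0) (.cons (.br (nat_lit 7) (nat_lit 1) (.cons (.br (nat_lit 13) (nat_lit 1) (.cons (.ev (nat_lit 20282409608374037188296168177921) (nat_lit 1)) (.cons (.ev (nat_lit 20282409608374036906816896499969) (nat_lit 1)) (.cons (.br (nat_lit 5) (nat_lit 1) (.cons (.ev (nat_lit 20999184206251503493757866279688) (nat_lit 4)) .nil)) .nil)))) (.cons (.br (nat_lit 5) (nat_lit 1) (.cons (.br (nat_lit 12) (nat_lit 1) (.cons (.ev (nat_lit 20838251953735261851929796871428) (nat_lit 3)) .nil)) (.cons (.zr (nat_lit 2417851639232556918046720) (nat_lit 237993977293427866271983075329) (nat_lit 5) (nat_lit 0)) (.cons (.ev (nat_lit 20282412026244122881257073868802) (nat_lit 2)) .nil)))) (.cons (.br (nat_lit 2) (nat_lit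 1) (.cons (.br (nat_lit 12) (nat_lit 1) (.cons (.ev (nat_lit 20838251953735262977846883583236) (nat_lit 3)) .nil)) (.cons (.zr (nat_lit 2417851639795506871468032) (nat_lit 237993977293427584809891266561) (nat_lit 5) (nat_lit 0)) (.cons (.ev (nat_lit 20282412026244123725686298968066) (nat_lit 2)) .nil)))) (.cons (.br (nat_lit 13) (nat_lit 1) (.cons (.ev (nat_lit 20361637766184453844687831171073) (nat_lit 1)) (.cons (.kr (nat_lit 309485009821626543701491712) (nat_lit 20361637766165934761540795236352) (nat_lit 6) (nat_lit 0)) (.cons (.kr (nat_lit 309485009821345073019748352) (nat_lit 20361637766165934761540795236352) (nat_lit 4) (nat_lit 0)) .nil)))) (.cons (.ev (nat_lit 309485028340428215743938561) (nat_lit 1)) .nil)))))) .nil)),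
 (.br (nat_lit 2) (nat_lit 0) (.cons (.br (nat_lit 7) (nat_lit 0) (.cons (.br (nat_lit 13) (nat_lit 1) (.cons (.br (nat_lit 7) (nat_lit 1) (.cons (.br (nat_lit 5) (nat_lit 1) (.cons (.zr (nat_lit 2417851639232556884493056) (nat_lit 309489750851026273481785345) (nat_lit 5) (nat_lit 0)) .nil)) (.cons (.br (nat_lit 2) (nat_lit 1) (.cons (.zr (nat_lit 2417851639232565474427648) (nat_lit 309489750851870694116950017) (nat_lit 5) (nat_lit 0)) .nil)) (.cons (.ev (nat_lit 20361637766184453844687831171073) (nat_lit 1)) .nil)))) (.cons (.br (nat_lit 5) (nat_lit 1) (.cons (.br (nat_lit 12) (nat_lit 1) (.cons (.ev (nat_lit 21474553181336657736679052478728) (nat_lit 4)) .nil)) (.cons (.br (nat_lit 12) (nat_lit 1) (.cons (.zr (nat_lit 2417851639232565474427648) (nat_lit 309489750851870694116950017) (nat_lit 5) (nat_lit 0)) .nil)) (.cons (.rf (nat_lit 220) (nat_lit 13971574828047520)) .nil)))) (.cons (.br (nat_lit 7) (nat_lit 1) (.cons (.ev (nat_lit 20282409608374037188296168177921) (nat_lit 1)) (.cons (.rf (nat_lit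 301) (nat_lit 493601594700785256672)) (.cons (.br (nat_lit 2) (nat_lit 1) (.cons (.ev (nat_lit 21474553181336659988513225902344) (nat_lit 4)) .nil)) .nil)))) (.cons (.ev (nat_lit 309489732260167007401410561) (nat_lit 1)) (.cons (.br (nat_lit 7) (nat_lit 1) (.cons (.kr (nat_lit 309485009821345068724781312) (nat_lit 20282409603651742481541289213952) (nat_lit 1) (nat_lit 0)) (.cons (.br (nat_lit 5) (nat_lit 1) (.cons (.ev (nat_lit 20679795609891199462647049683716) (nat_lit 3)) .nil)) (.cons (.br (nat_lit 1) (nat_lit 1) (.cons (.ev (nat_lit 20679795609891199462647049683716) (nat_lit 3)) .nil)) .nil)))) .nil)))))) .nil)) .nil)),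
 (.br (nat_lit 5) (nat_lit 1) (.cons (.ev (nat_lit 20838868515422218724108237341444) (nat_lit 3)) .nil)),
 (.br (nat_lit 1) (nat_lit 1) (.cons (.ev (nat_lit 20282719088680010571783252017153) (nat_lit 1)) .nil))]

theorem c19 : chkAll C T R L19 (nat_lit 544) = true := by decide +kernel

theorem l19 : (nat_lit 544) + L19.length = (nat_lit 571) := by decide +kernel

/-- part of the certificates -/
def L20 : List Prf := [(.br (nat_lit 13) (nat_lit 0) (.cons (.br (nat_lit 12) (nat_lit 0) (.cons (.rf (nat_lit 555) (nat_lit 493858305440582043680)) (.cons (.rf (nat_lit 555) (nat_lit 493857214725047289888)) (.cons (.br (nat_lit 10) (nat_lit 1) (.cons (.rf (nat_lit 557) (nat_lit 493858305440582043680)) (.cons (.rf (nat_lit 557) (nat_lit 493858305438335996960)) (.cons (.br (nat_lit 9) (nat_lit 1) (.cons (.rf (nat_lit 557) (nat_lit 493857214725047289888)) (.cons (.rf (nat_lit 557) (nat_lit 493857214722801243168)) .nil))) .nil)))) .nil)))) (.cons (.br (nat_lit 12) (nat_lit 0) (.cons (.br (nat_lit 2) (nat_lit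 0) (.cons (.rf (nat_lit 562) (nat_lit 493858305440582043680)) (.cons (.br (nat_lit 5) (nat_lit 0) (.cons (.rf (nat_lit 562) (nat_lit 493858305438335996960)) .nil)) .nil))) (.cons (.br (nat_lit 7) (nat_lit 0) (.cons (.br (nat_lit 10) (nat_lit 1) (.cons (.rf (nat_lit 563) (nat_lit 493858305440582043680)) (.cons (.rf (nat_lit 563) (nat_lit 493858305438335996960)) .nil))) (.cons (.br (nat_lit 5) (nat_lit 0) (.cons (.rf (nat_lit 566) (nat_lit 493858305440582043680)) (.cons (.br (nat_lit 2) (nat_lit 0) (.cons (.rf (nat_lit 566) (nat_lit 493858305438335996960)) .nil)) .nil))) (.cons (.br (nat_lit 9) (nat_lit 1) (.cons (.rf (nat_lit 567) (nat_lit 493858305440582043680)) (.cons (.rf (nat_lit 567) (nat_lit 493858305438335996960)) .nil))) .nil)))) (.cons (.br (nat_lit 5) (nat_lit 0) (.cons (.rf (nat_lit 568) (nat_lit 493858305440582043680)) (.cons (.br (nat_lit 2) (nat_lit 0) (.cons (.rf (nat_lit 568) (nat_lit 493858305438335996960)) (.cons (.br (nat_lit 7) (nat_lit 0) (.cons (.br (nat_lit 7) (nat_lit 1) (.cons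 (.br (nat_lit 12) (nat_lit 1) (.cons (.rf (nat_lit 569) (nat_lit 493858305440582043680)) (.cons (.rf (nat_lit 569) (nat_lit 493858305438335996960)) (.cons (.ev (nat_lit 20361638979832639660707379412993) (nat_lit 1)) .nil)))) (.cons (.ev (nat_lit 310693935713298766930903041) (nat_lit 1)) (.cons (.ev (nat_lit 310693935713017296249159681) (nat_lit 1)) (.cons (.br (nat_lit 13) (nat_lit 1) (.cons (.br (nat_lit 2) (nat_lit 1) (.cons (.ev (nat_lit 20837630556419392764252820408068) (nat_lit 3)) .nil)) (.cons (.rf (nat_lit 220) (nat_lit 13971574828045536)) (.cons (.rf (nat_lit 220) (nat_lit 13971677907257568)) .nil)))) (.cons (.br (nat_lit 12) (nat_lit 1) (.cons (.zr (nat_lit 61084915716349515571474773049344) (nat_lit 309494473001336361013215233) (nat_lit 5) (nat_lit 11)) (.cons (.rf (nat_lit 570) (nat_lit 493858305440582043680)) (.cons (.rf (nat_lit 570) (nat_lit 493858305438335996960)) .nil)))) .nil)))))) .nil)) .nil))) .nil))) .nil)))) .nil))),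
 (.br (nat_lit 13) (nat_lit 0) (.cons (.rf (nat_lit 571) (nat_lit 493858305440582043680)) (.cons (.rf (nat_lit 571) (nat_lit 493857214725047289888)) (.cons (.br (nat_lit 13) (nat_lit 0) (.cons (.rf (nat_lit 571) (nat_lit 493858305440582043680)) (.cons (.rf (nat_lit 571) (nat_lit 493857214725047289888)) .nil))) .nil)))),
 (.br (nat_lit 1) (nat_lit 1) (.cons (.rf (nat_lit 35) (nat_lit 486977890253995836640)) (.cons (.br (nat_lit 5) (nat_lit 1) (.cons (.ev (nat_lit 20837006741325812172078591574788) (nat_lit 3)) .nil)) (.cons (.rf (nat_lit 45) (nat_lit 492738979444948239584)) .nil)))),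
 (.br (nat_lit 13) (nat_lit 1) (.cons (.ev (nat_lit 20282720302328124611700902133762) (nat_lit 2)) .nil)),
 (.br (nat_lit 12) (nat_lit 0) (.cons (.br (nat_lit 5) (nat_lit 0) (.cons (.br (nat_lit 13) (nat_lit 0) (.cons (.br (nat_lit 12) (nat_lit 1) (.cons (.ev (nat_lit 79537652246452165531930722561) (nat_lit 1)) (.cons (.br (nat_lit 13) (nat_lit 1) (.cons (.ev (nat_lit 79537652246452447006890656001) (nat_lit 1)) (.cons (.br (nat_lit 7) (nat_lit 1) (.cons (.ev (nat_lit 81394586028037796179900302340) (nat_lit 3)) .nil)) (.cons (.ev (nat_lit 1213648258155097169592321) (nat_lit 1)) .nil)))) (.cons (.br (nat_lit 13) (nat_lit 1) (.cons (.ev (nat_lit 79537652246452165536208912641) (nat_lit 1)) (.cons (.br (nat_lit 1) (nat_lit 1) (.cons (.ev (nat_lit 81394586028038077650582045700) (nat_lit 3)) .nil)) (.cons (.ev (nat_lit 1213648258155097169592321) (nat_lit 1)) .nil)))) (.cons (.br (nat_lit 13) (nat_lit 1) (.cons (.kr (nat_lit 1208925819614629191483392) (nat_lit 20361637766165934761540795236352) (nat_lit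 3) (nat_lit 0)) (.cons (.ev (nat_lit 20361637770888373583483766833153) (nat_lit 1)) (.cons (.ev (nat_lit 20361637770888373302004495155201) (nat_lit 1)) .nil)))) (.cons (.br (nat_lit 1) (nat_lit 1) (.cons (.ev (nat_lit 79537652246452447006890656001) (nat_lit 1)) (.cons (.ev (nat_lit 79537652246452165536208912641) (nat_lit 1)) (.cons (.ev (nat_lit 20282720302309677866514795987201) (nat_lit 1)) .nil)))) .nil)))))) .nil)) .nil)) (.cons (.br (nat_lit 11) (nat_lit 1) (.cons (.br (nat_lit 10) (nat_lit 1) (.cons (.br (nat_lit 7) (nat_lit 1) (.cons (.br (nat_lit 12) (nat_lit 1) (.cons (.ev (nat_lit 79537647542532426735995060481) (nat_lit 1)) (.cons (.ev (nat_lit 79537647542532708215266738433) (nat_lit 1)) (.cons (.ev (nat_lit 40644977047995545533373405463298) (nat_lit 2)) .nil)))) (.cons (.br (nat_lit 13) (nat_lit 1) (.cons (.rf (nat_lit 263) (nat_lit 493855879846059869248)) (.cons (.br (nat_lit 1) (nat_lit 1) (.cons (.ev (nat_lit 80156631766312169925960073730) (nat_lit 2)) .nil)) (.cons (.rf (nat_lit 102)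 (nat_lit 421118200490473325632)) .nil)))) (.cons (.br (nat_lit 12) (nat_lit 1) (.cons (.br (nat_lit 2) (nat_lit 1) (.cons (.ev (nat_lit 80156631766312732867323560450) (nat_lit 2)) .nil)) (.cons (.rf (nat_lit 203) (nat_lit 493751135833986208832)) (.cons (.rf (nat_lit 215) (nat_lit 458010600113701160160)) .nil)))) (.cons (.ev (nat_lit 1213648258155097169592321) (nat_lit 1)) (.cons (.rf (nat_lit 523) (nat_lit 493677980039297370144)) .nil)))))) .nil)) (.cons (.br (nat_lit 5) (nat_lit 0) (.cons (.br (nat_lit 7) (nat_lit 1) (.cons (.ev (nat_lit 1213648258155092857847809) (nat_lit 1)) (.cons (.rf (nat_lit 573) (nat_lit 493858305440582043680)) (.cons (.rf (nat_lit 573) (nat_lit 493857214722801243168)) (.cons (.br (nat_lit 1) (nat_lit 1) (.cons (.rf (nat_lit 574) (nat_lit 493858305440582043680)) (.cons (.rf (nat_lit 574) (nat_lit 493857214722801243168)) (.cons (.ev (nat_lit 79537647542532708215266738433) (nat_lit 1)) .nil)))) (.cons (.br (nat_lit 12) (nat_lit 1) (.cons (.ev (nat_lit 20282720302309677866514795987201)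 (nat_lit 1)) (.cons (.rf (nat_lit 250) (nat_lit 493745786743201006752)) (.cons (.rf (nat_lit 250) (nat_lit 493743536145980228672)) .nil)))) .nil)))))) .nil)) .nil))) .nil))),
 (.br (nat_lit 5) (nat_lit 1) (.cons (.ev (nat_lit 80160244376671565204548551170) (nat_lit 2)) .nil)),
 (.br (nat_lit 12) (nat_lit 0) (.cons (.br (nat_lit 7) (nat_lit 1) (.cons (.br (nat_lit 5) (nat_lit 1) (.cons (.br (nat_lit 13) (nat_lit 1) (.cons (.ev (nat_lit 20521332040715881364022899049220) (nat_lit 3)) .nil)) (.cons (.br (nat_lit 2) (nat_lit 1) (.cons (.ev (nat_lit 1213666632842672057942273) (nat_lit 1)) .nil)) (.cons (.br (nat_lit 2) (nat_lit 1) (.cons (.ev (nat_lit 1213666632842672057942273) (nat_lit 1)) .nil)) .nil)))) (.cons (.ev (nat_lit 1213648258155097169592321) (nat_lit 1)) (.cons (.ev (nat_lit 1213648258436567851335681) (nat_lit 1)) (.cons (.br (nat_lit 1) (nat_lit 1) (.cons (.rf (nat_lit 576) (nat_lit 493858305440582043680)) (.cons (.rf (nat_lit 576) (nat_lit 493858305438335996960)) (.cons (.ev (nat_lit 20282719093402304995959330832641)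 (nat_lit 1)) .nil)))) (.cons (.br (nat_lit 1) (nat_lit 1) (.cons (.zr (nat_lit 9444949138529994146560) (nat_lit 60847539504909099257088356384769) (nat_lit 5) (nat_lit 0)) (.cons (.zr (nat_lit 9444949701471357633280) (nat_lit 60847539504909098975617674641409) (nat_lit 5) (nat_lit 0)) (.cons (.ev (nat_lit 79537652246452165531930722561) (nat_lit 1)) .nil)))) .nil)))))) .nil)),
 (.br (nat_lit 2) (nat_lit 0) (.cons (.rf (nat_lit 575) (nat_lit 493858305440582043680)) (.cons (.rf (nat_lit 575) (nat_lit 493857214725047289888)) (.cons (.br (nat_lit 5) (nat_lit 0) (.cons (.rf (nat_lit 575) (nat_lit 493858305438335996960)) (.cons (.rf (nat_lit 575) (nat_lit 493857214722801243168)) (.cons (.br (nat_lit 13) (nat_lit 0) (.cons (.rf (nat_lit 577) (nat_lit 493858305440582043680)) (.cons (.rf (nat_lit 577) (nat_lit 493857214725047289888)) .nil))) .nil)))) .nil)))),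
 (.br (nat_lit 7) (nat_lit 1) (.cons (.ev (nat_lit 1213666633124147017875713) (nat_lit 1)) (.cons (.ev (nat_lit 79228162514264337597838917889) (nat_lit 1)) (.cons (.ev (nat_lit 20282409603670117168025272582401) (nat_lit 1)) .nil)))),
 (.br (nat_lit 13) (nat_lit 1) (.cons (.ev (nat_lit 1213666632842672057942273) (nat_lit 1)) .nil)),
 (.br (nat_lit 12) (nat_lit 1) (.cons (.ev (nat_lit 20361638979832639660707379412993) (nat_lit 1)) .nil)),
 (.br (nat_lit 11) (nat_lit 1) (.cons (.br (nat_lit 1) (nat_lit 1) (.cons (.br (nat_lit 5) (nat_lit 1) (.cons (.br (nat_lit 12) (nat_lit 1) (.cons (.zr (nat_lit 237684487543009185562745635584) (nat_lit 310698676454468120542707713) (nat_lit 5) (nat_lit 0)) .nil)) (.cons (.rf (nat_lit 203) (nat_lit 493823397045777729696)) (.cons (.ev (nat_lit 20282720302328124611700902133762) (nat_lit 2)) .nil)))) (.cons (.br (nat_lit 13) (nat_lit 1) (.cons (.ev (nat_lit 20282720302328125456112947363842) (nat_lit 2)) (.cons (.rf (nat_lit 263) (nat_lit 493858194221196123296)) (.cons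 (.rf (nat_lit 102) (nat_lit 383181114242292254752)) .nil)))) (.cons (.ev (nat_lit 1213648258436572129525761) (nat_lit 1)) (.cons (.br (nat_lit 13) (nat_lit 1) (.cons (.kr (nat_lit 309485009821345068741558272) (nat_lit 20361637766165934761540795236352) (nat_lit 3) (nat_lit 0)) (.cons (.kr (nat_lit 309485009821345073036525568) (nat_lit 20361637766165935043015771947008) (nat_lit 3) (nat_lit 0)) (.cons (.ev (nat_lit 20282409603670117449495954325761) (nat_lit 1)) .nil)))) (.cons (.br (nat_lit 7) (nat_lit 1) (.cons (.zr (nat_lit 618970019858862928186835712) (nat_lit 60847230024621645239314190172161) (nat_lit 5) (nat_lit 0)) (.cons (.zr (nat_lit 618970019858862919596901120) (nat_lit 60847230024621644394893555007489) (nat_lit 5) (nat_lit 0)) (.cons (.ev (nat_lit 79537647542532426735995060481) (nat_lit 1)) .nil)))) .nil)))))) .nil)),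
 (.br (nat_lit 10) (nat_lit 1) (.cons (.kr (nat_lit 4722366483969156841472) (nat_lit 310693935640959697899487232) (nat_lit 5) (nat_lit 0)) .nil)),
 (.br (nat_lit 5) (nat_lit 0) (.cons (.br (nat_lit 11) (nat_lit 1) (.cons (.br (nat_lit 12) (nat_lit 1) (.cons (.br (nat_lit 2) (nat_lit 1) (.cons (.ev (nat_lit 310693954087704871137509633) (nat_lit 1)) (.cons (.br (nat_lit 13) (nat_lit 1) (.cons (.ev (nat_lit 22270543781339475296940301419280) (nat_lit 5)) .nil)) (.cons (.br (nat_lit 7) (nat_lit 1) (.cons (.ev (nat_lit 22270543781339472482233483985680) (nat_lit 5)) .nil)) .nil)))) (.cons (.br (nat_lit 1) (nat_lit 1) (.cons (.rf (nat_lit 86) (nat_lit 347187397071888194624)) (.cons (.ev (nat_lit 79537647542532708215266738433) (nat_lit 1)) (.cons (.rf (nat_lit 88) (nat_lit 125898523485950772384)) .nil)))) (.cons (.br (nat_lit 7) (nat_lit 1) (.cons (.ev (nat_lit 79537647542532426735995060481) (nat_lit 1)) (.cons (.rf (nat_lit 86) (nat_lit 125898523485950772384)) (.cons (.rf (nat_lit 88) (nat_lit 161748304787158602784))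 .nil)))) (.cons (.ev (nat_lit 1213648258436567851335681) (nat_lit 1)) (.cons (.br (nat_lit 7) (nat_lit 1) (.cons (.ev (nat_lit 40644360486345915055657675916034) (nat_lit 2)) (.cons (.rf (nat_lit 87) (nat_lit 161748304787158602784)) (.cons (.rf (nat_lit 180) (nat_lit 493571096341148664992)) .nil)))) .nil)))))) .nil)) (.cons (.br (nat_lit 10) (nat_lit 1) (.cons (.br (nat_lit 7) (nat_lit 1) (.cons (.br (nat_lit 13) (nat_lit 1) (.cons (.rf (nat_lit 583) (nat_lit 482283500298439745)) (.cons (.br (nat_lit 2) (nat_lit 1) (.cons (.ev (nat_lit 158765819520193496872894400260) (nat_lit 3)) .nil)) (.cons (.ev (nat_lit 20361948464824014543177354575873) (nat_lit 1)) .nil)))) (.cons (.ev (nat_lit 1213648258155097169592321) (nat_lit 1)) (.cons (.ev (nat_lit 1213648258436567851335681) (nat_lit 1)) (.cons (.br (nat_lit 13) (nat_lit 1) (.cons (.kr (nat_lit 20440865928680199099134339186944) (nat_lit 1208925891672223246188544) (nat_lit 1) (nat_lit 0)) (.cons (.rf (nat_lit 220) (nat_lit 13971574828045536)) (.cons (.rf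 (nat_lit 220) (nat_lit 13971677907257568)) .nil)))) (.cons (.br (nat_lit 5) (nat_lit 1) (.cons (.rf (nat_lit 206) (nat_lit 493787408928543446080)) (.cons (.br (nat_lit 1) (nat_lit 1) (.cons (.ev (nat_lit 20838863679755688510443361599748) (nat_lit 3)) .nil)) (.cons (.rf (nat_lit 207) (nat_lit 493787408928543446080)) .nil)))) .nil)))))) .nil)) .nil))),
 (.br (nat_lit 8) (nat_lit 1) (.cons (.rf (nat_lit 584) (nat_lit 493858305438335996960)) (.cons (.br (nat_lit 5) (nat_lit 0) (.cons (.br (nat_lit 7) (nat_lit 1) (.cons (.br (nat_lit 12) (nat_lit 1) (.cons (.ev (nat_lit 79228162514264337597838917889) (nat_lit 1)) (.cons (.ev (nat_lit 79228162514264619068520661249) (nat_lit 1)) (.cons (.br (nat_lit 2) (nat_lit 1) (.cons (.ev (nat_lit 20837625739716116593057297007876) (nat_lit 3)) .nil)) .nil)))) (.cons (.br (nat_lit 12) (nat_lit 1) (.cons (.zr (nat_lit 238303457562651875700195197696) (nat_lit 1213721973355272946581505) (nat_lit 5) (nat_lit 0)) (.cons (.br (nat_lit 1) (nat_lit 1) (.cons (.ev (nat_lit 79231789328760785916108276226)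 (nat_lit 2)) .nil)) (.cons (.br (nat_lit 1) (nat_lit 1) (.cons (.ev (nat_lit 20680414636764574330877049768712) (nat_lit 4)) .nil)) .nil)))) (.cons (.br (nat_lit 12) (nat_lit 1) (.cons (.zr (nat_lit 238303457562652438650148619008) (nat_lit 1213721973073810854772737) (nat_lit 5) (nat_lit 0)) (.cons (.br (nat_lit 1) (nat_lit 1) (.cons (.ev (nat_lit 79231789328761067403969888770) (nat_lit 2)) .nil)) (.cons (.br (nat_lit 1) (nat_lit 1) (.cons (.ev (nat_lit 20680414636764570953228868848392) (nat_lit 4)) .nil)) .nil)))) (.cons (.ev (nat_lit 1213648258155097169592321) (nat_lit 1)) (.cons (.br (nat_lit 12) (nat_lit 1) (.cons (.ev (nat_lit 20361638975091826433768302837761) (nat_lit 1)) (.cons (.kr (nat_lit 4722366764344621924352) (nat_lit 20361637766165934761540795236352) (nat_lit 6) (nat_lit 0)) (.cons (.kr (nat_lit 4722366482873940180992) (nat_lit 20361637766165934761540795236352) (nat_lit 4) (nat_lit 0)) .nil)))) .nil)))))) .nil)) .nil))),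
 (.br (nat_lit 13) (nat_lit 0) (.cons (.rf (nat_lit 578) (nat_lit 493858305440582043680)) (.cons (.br (nat_lit 12) (nat_lit 0) (.cons (.br (nat_lit 2) (nat_lit 0) (.cons (.br (nat_lit 11) (nat_lit 1) (.cons (.br (nat_lit 1) (nat_lit 1) (.cons (.rf (nat_lit 579) (nat_lit 493858305440582043680)) (.cons (.rf (nat_lit 579) (nat_lit 493858305438335996960)) (.cons (.ev (nat_lit 1213648258436572129525761) (nat_lit 1)) (.cons (.br (nat_lit 7) (nat_lit 1) (.cons (.rf (nat_lit 580) (nat_lit 493858305440582043680)) (.cons (.rf (nat_lit 580) (nat_lit 493858305438335996960)) (.cons (.zr (nat_lit 238303457562651875700195197696) (nat_lit 1213721973355272946581505) (nat_lit 5) (nat_lit 0)) .nil)))) (.cons (.br (nat_lit 7) (nat_lit 1) (.cons (.rf (nat_lit 581) (nat_lit 493858305440582043680)) (.cons (.rf (nat_lit 581) (nat_lit 493858305440481383456)) (.cons (.zr (nat_lit 618970019858862919596901120) (nat_lit 60847230024621644394893555007489) (nat_lit 5) (nat_lit 0)) .nil)))) .nil)))))) .nil)) .nil)) (.cons (.br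 (nat_lit 5) (nat_lit 0) (.cons (.rf (nat_lit 582) (nat_lit 493858305440582043680)) (.cons (.br (nat_lit 2) (nat_lit 0) (.cons (.rf (nat_lit 582) (nat_lit 493858305438335996960)) .nil)) .nil))) .nil))) (.cons (.br (nat_lit 2) (nat_lit 0) (.cons (.rf (nat_lit 584) (nat_lit 493858305440582043680)) (.cons (.rf (nat_lit 585) (nat_lit 493858305440582043680)) (.cons (.br (nat_lit 5) (nat_lit 0) (.cons (.rf (nat_lit 584) (nat_lit 493858305438335996960)) (.cons (.rf (nat_lit 585) (nat_lit 493858305438335996960)) .nil))) .nil)))) .nil)))),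
 (.br (nat_lit 2) (nat_lit 1) (.cons (.ev (nat_lit 79540065394244558013295755522) (nat_lit 2)) .nil)),
 (.br (nat_lit 12) (nat_lit 1) (.cons (.ev (nat_lit 79538856449905297291460215041) (nat_lit 1)) (.cons (.br (nat_lit 1) (nat_lit 1) (.cons (.ev (nat_lit 20679176658724129778790681740036) (nat_lit 3)) .nil)) (.cons (.ev (nat_lit 20361638979832639942182339346433) (nat_lit 1)) .nil)))),
 (.br (nat_lit 11) (nat_lit 1) (.cons (.br (nat_lit 10) (nat_lit 1) (.cons (.br (nat_lit 7) (nat_lit 1) (.cons (.br (nat_lit 5) (nat_lit 1) (.cons (.br (nat_lit 12) (nat_lit 1) (.cons (.zr (nat_lit 2422574221884918715121664) (nat_lit 158765810056797045804498944513) (nat_lit 5) (nat_lit 11)) .nil)) (.cons (.rf (nat_lit 488) (nat_lit 14316109961727515712)) (.cons (.rf (nat_lit 488) (nat_lit 15424941057582111808)) .nil)))) (.cons (.ev (nat_lit 1208944338697776193863681) (nat_lit 1)) (.cons (.ev (nat_lit 1208944338416296922185729) (nat_lit 1)) (.cons (.br (nat_lit 1) (nat_lit 1) (.cons (.zr (nat_lit 237686905394648414829684982528)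 (nat_lit 309503917735146520938807297) (nat_lit 5) (nat_lit 0)) (.cons (.zr (nat_lit 237686910116798724908626477824) (nat_lit 309485028412485809798643713) (nat_lit 5) (nat_lit 8)) (.cons (.ev (nat_lit 20282720297605758127718860325121) (nat_lit 1)) .nil)))) (.cons (.br (nat_lit 12) (nat_lit 1) (.cons (.ev (nat_lit 79538856449905297291460215041) (nat_lit 1)) (.cons (.br (nat_lit 1) (nat_lit 1) (.cons (.ev (nat_lit 79540065394244558013295755522) (nat_lit 2)) .nil)) (.cons (.rf (nat_lit 587) (nat_lit 493858305440582043680)) .nil)))) .nil)))))) .nil)) (.cons (.br (nat_lit 10) (nat_lit 1) (.cons (.br (nat_lit 13) (nat_lit 1) (.cons (.br (nat_lit 12) (nat_lit 1) (.cons (.ev (nat_lit 79538856449905578766420148481) (nat_lit 1)) (.cons (.ev (nat_lit 79538856449905297295738405121) (nat_lit 1)) (.cons (.zr (nat_lit 237686910116798724908626477824) (nat_lit 309485028412485809798643713) (nat_lit 5) (nat_lit 8)) .nil)))) (.cons (.rf (nat_lit 588) (nat_lit 493858305440582043680)) (.cons (.rf (nat_lit 588) (nat_lit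 493858305438335996960)) (.cons (.ev (nat_lit 1208944338416296922185729) (nat_lit 1)) (.cons (.br (nat_lit 7) (nat_lit 1) (.cons (.ev (nat_lit 20282720302309677866514795987201) (nat_lit 1)) (.cons (.rf (nat_lit 559) (nat_lit 493858305440582043680)) (.cons (.rf (nat_lit 559) (nat_lit 493858305438335996960)) .nil)))) .nil)))))) .nil)) .nil)))]

theorem c20 : chkAll C T R L20 (nat_lit 571) = true := by decide +kernel

theorem l20 : (nat_lit 571) + L20.length = (nat_lit 590) := by decide +kernel

/-- part of the certificates -/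
def L21 : List Prf := [(.br (nat_lit 5) (nat_lit 0) (.cons (.br (nat_lit 11) (nat_lit 1) (.cons (.br (nat_lit 7) (nat_lit 1) (.cons (.ev (nat_lit 1208944338697771915673601) (nat_lit 1)) (.cons (.br (nat_lit 12) (nat_lit 1) (.cons (.br (nat_lit 5) (nat_lit 1) (.cons (.ev (nat_lit 475370184085697025166987821828) (nat_lit 3)) .nil)) (.cons (.zr (nat_lit 2417851639232556918046720) (nat_lit 237993977293427866271983075329) (nat_lit 5) (nat_lit 0)) (.cons (.rf (nat_lit 102) (nat_lit 384224712344127964224)) .nil)))) (.cons (.br (nat_lit 12) (nat_lit 1) (.cons (.br (nat_lit 13) (nat_lit 1) (.cons (.ev (nat_lit 475370184085698995496119763716) (nat_lit 3)) .nil)) (.cons (.zr (nat_lit 2417851639795506871468032) (nat_lit 237993977293427584809891266561) (nat_lit 5) (nat_lit 0)) (.cons (.rf (nat_lit 215) (nat_lit 458009474213795366112)) .nil)))) (.cons (.br (nat_lit 1) (nat_lit 1) (.cons (.br (nat_lit 5) (nat_lit 1) (.cons (.ev (nat_lit 79541279042573928478579753730) (nat_lit 2)) .nil)) (.cons (.br (nat_lit 13)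 (nat_lit 1) (.cons (.ev (nat_lit 79541279042574772907804852994) (nat_lit 2)) .nil)) (.cons (.ev (nat_lit 79537652246452165536208912641) (nat_lit 1)) .nil)))) (.cons (.br (nat_lit 1) (nat_lit 1) (.cons (.rf (nat_lit 203) (nat_lit 458079280008019608800)) (.cons (.rf (nat_lit 217) (nat_lit 458009474213795366112)) (.cons (.ev (nat_lit 20282720302309677866514795987201) (nat_lit 1)) .nil)))) .nil)))))) .nil)) (.cons (.br (nat_lit 13) (nat_lit 0) (.cons (.br (nat_lit 7) (nat_lit 1) (.cons (.br (nat_lit 12) (nat_lit 1) (.cons (.ev (nat_lit 79537652246452447006890656001) (nat_lit 1)) (.cons (.ev (nat_lit 79537652246452165536208912641) (nat_lit 1)) (.cons (.ev (nat_lit 40644977038513918516536776065794) (nat_lit 2)) .nil)))) (.cons (.br (nat_lit 12) (nat_lit 1) (.cons (.br (nat_lit 13) (nat_lit 1) (.cons (.zr (nat_lit 618970019643256385938064128) (nat_lit 1213666849014371839901697) (nat_lit 5) (nat_lit 0)) .nil)) (.cons (.kr (nat_lit 309485009821627643213185024) (nat_lit 79228162514408452785914773504) (nat_lit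 2) (nat_lit 0)) (.cons (.rf (nat_lit 152) (nat_lit 457863318332138357984)) .nil)))) (.cons (.br (nat_lit 1) (nat_lit 1) (.cons (.rf (nat_lit 35) (nat_lit 484670921450003399904)) (.cons (.br (nat_lit 13) (nat_lit 1) (.cons (.zr (nat_lit 618970019642693435984642816) (nat_lit 1213666849295833931710465) (nat_lit 5) (nat_lit 0)) .nil)) (.cons (.kr (nat_lit 309485009821345068724781312) (nat_lit 20282409603651742481541289213952) (nat_lit 1) (nat_lit 0)) .nil)))) (.cons (.ev (nat_lit 1208944338697776193863681) (nat_lit 1)) (.cons (.br (nat_lit 12) (nat_lit 1) (.cons (.ev (nat_lit 20361637770888373302008773345281) (nat_lit 1)) (.cons (.rf (nat_lit 250) (nat_lit 493745751558828950688)) (.cons (.rf (nat_lit 250) (nat_lit 493743502061119767616)) .nil)))) .nil)))))) .nil)) .nil))),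
 (.br (nat_lit 2) (nat_lit 0) (.cons (.br (nat_lit 1) (nat_lit 1) (.cons (.br (nat_lit 13) (nat_lit 1) (.cons (.ev (nat_lit 20282720302328124611700902133762) (nat_lit 2)) (.cons (.rf (nat_lit 203) (nat_lit 458079280008017577184)) (.cons (.rf (nat_lit 215) (nat_lit 493819814628792046656)) .nil)))) (.cons (.br (nat_lit 2) (nat_lit 1) (.cons (.rf (nat_lit 216) (nat_lit 493819814628792046656)) (.cons (.rf (nat_lit 217) (nat_lit 493819814628792046656)) (.cons (.ev (nat_lit 20282720302328125456112947363842) (nat_lit 2)) .nil)))) (.cons (.ev (nat_lit 1208944338697771915673601) (nat_lit 1)) (.cons (.br (nat_lit 7) (nat_lit 1) (.cons (.rf (nat_lit 583) (nat_lit 447126512988366882)) (.cons (.rf (nat_lit 583) (nat_lit 447196813009922085)) (.cons (.ev (nat_lit 20282719093402304995963642577153) (nat_lit 1)) .nil)))) (.cons (.br (nat_lit 7) (nat_lit 1) (.cons (.zr (nat_lit 37109660938122822400) (nat_lit 60847539509613018995884292046849) (nat_lit 5) (nat_lit 0)) (.cons (.zr (nat_lit 37110223879486309120) (nat_lit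 60847539509613018714413610303489) (nat_lit 5) (nat_lit 0)) (.cons (.ev (nat_lit 79537652246452165536208912641) (nat_lit 1)) .nil)))) .nil)))))) .nil)),
 (.br (nat_lit 5) (nat_lit 1) (.cons (.ev (nat_lit 79537647542532426735995060481) (nat_lit 1)) .nil)),
 (.br (nat_lit 2) (nat_lit 0) (.cons (.br (nat_lit 13) (nat_lit 0) (.cons (.br (nat_lit 7) (nat_lit 1) (.cons (.br (nat_lit 2) (nat_lit 1) (.cons (.ev (nat_lit 18447026652509700353) (nat_lit 1)) (.cons (.rf (nat_lit 583) (nat_lit 447126513055444033)) (.cons (.br (nat_lit 5) (nat_lit 1) (.cons (.ev (nat_lit 475370193493538191612896936708) (nat_lit 3)) .nil)) .nil)))) (.cons (.ev (nat_lit 1208944338697776193863681) (nat_lit 1)) (.cons (.ev (nat_lit 1208944338416296922185729) (nat_lit 1)) (.cons (.br (nat_lit 13) (nat_lit 1) (.cons (.kr (nat_lit 309485009821345068724781312) (nat_lit 20282409603651742481541289213952) (nat_lit 1) (nat_lit 0)) (.cons (.br (nat_lit 5) (nat_lit 1) (.cons (.ev (nat_lit 79538856468424381533696098305) (nat_lit 1)) .nil)) (.cons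 (.br (nat_lit 2) (nat_lit 1) (.cons (.ev (nat_lit 79538856468424381533696098305) (nat_lit 1)) .nil)) .nil)))) (.cons (.br (nat_lit 12) (nat_lit 1) (.cons (.br (nat_lit 2) (nat_lit 1) (.cons (.ev (nat_lit 20838251963290675282102788228356) (nat_lit 3)) .nil)) (.cons (.rf (nat_lit 592) (nat_lit 493858305440582043680)) (.cons (.rf (nat_lit 592) (nat_lit 493858305440481383456)) .nil)))) .nil)))))) .nil)) .nil)),
 (.br (nat_lit 7) (nat_lit 1) (.cons (.ev (nat_lit 20282719093402304995963642577153) (nat_lit 1)) (.cons (.br (nat_lit 1) (nat_lit 1) (.cons (.ev (nat_lit 79538856486871124507910734082) (nat_lit 2)) .nil)) (.cons (.kr (nat_lit 4722366764344621924352) (nat_lit 20361637766165934761540795236352) (nat_lit 6) (nat_lit 0)) .nil)))),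
 (.br (nat_lit 5) (nat_lit 1) (.cons (.ev (nat_lit 20520098927008495546479419786500) (nat_lit 3)) .nil)),
 (.br (nat_lit 12) (nat_lit 0) (.cons (.br (nat_lit 2) (nat_lit 0) (.cons (.rf (nat_lit 589) (nat_lit 493858305440582043680)) (.cons (.br (nat_lit 5) (nat_lit 0) (.cons (.rf (nat_lit 589) (nat_lit 493858305438335996960)) .nil)) .nil))) (.cons (.br (nat_lit 9) (nat_lit 1) (.cons (.rf (nat_lit 590) (nat_lit 493858305440582043680)) (.cons (.rf (nat_lit 590) (nat_lit 493858305438335996960)) (.cons (.br (nat_lit 5) (nat_lit 0) (.cons (.rf (nat_lit 591) (nat_lit 493858305440582043680)) (.cons (.br (nat_lit 2) (nat_lit 0) (.cons (.rf (nat_lit 591) (nat_lit 493858305438335996960)) .nil)) .nil))) .nil)))) (.cons (.br (nat_lit 5) (nat_lit 0) (.cons (.rf (nat_lit 593) (nat_lit 493858305440582043680)) (.cons (.br (nat_lit 9) (nat_lit 1) (.cons (.rf (nat_lit 593) (nat_lit 493858305438335996960)) (.cons (.br (nat_lit 10) (nat_lit 1) (.cons (.br (nat_lit 13) (nat_lit 1) (.cons (.br (nat_lit 7) (nat_lit 1)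 (.cons (.zr (nat_lit 37109660938122822400) (nat_lit 60847539509613018995884292046849) (nat_lit 5) (nat_lit 0)) (.cons (.zr (nat_lit 37110223879486309120) (nat_lit 60847539509613018714413610303489) (nat_lit 5) (nat_lit 0)) (.cons (.ev (nat_lit 20361638979832639660707379412993) (nat_lit 1)) .nil)))) (.cons (.rf (nat_lit 594) (nat_lit 493858305440582043680)) (.cons (.rf (nat_lit 594) (nat_lit 493858305438335996960)) (.cons (.ev (nat_lit 1208944338416296922185729) (nat_lit 1)) (.cons (.br (nat_lit 7) (nat_lit 1) (.cons (.br (nat_lit 5) (nat_lit 1) (.cons (.ev (nat_lit 20679176696650923270568401634056) (nat_lit 4)) .nil)) (.cons (.rf (nat_lit 595) (nat_lit 493858305440582043680)) (.cons (.rf (nat_lit 595) (nat_lit 493858305438335996960)) .nil)))) .nil)))))) .nil)) .nil))) .nil))) .nil)))),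
 (.br (nat_lit 11) (nat_lit 1) (.cons (.br (nat_lit 10) (nat_lit 1) (.cons (.br (nat_lit 7) (nat_lit 1) (.cons (.ev (nat_lit 1208944338697771915673601) (nat_lit 1)) (.cons (.br (nat_lit 5) (nat_lit 1) (.cons (.rf (nat_lit 84) (nat_lit 235535246995089524768)) (.cons (.rf (nat_lit 85) (nat_lit 347259420477984349344)) (.cons (.br (nat_lit 12) (nat_lit 1) (.cons (.ev (nat_lit 20837011577028802395821024806660) (nat_lit 3)) .nil)) .nil)))) (.cons (.br (nat_lit 12) (nat_lit 1) (.cons (.br (nat_lit 13) (nat_lit 1) (.cons (.ev (nat_lit 20837011577028802958762388293380) (nat_lit 3)) .nil)) (.cons (.rf (nat_lit 86) (nat_lit 125826430810622100544)) (.cons (.rf (nat_lit 87) (nat_lit 235535246995089524768)) .nil)))) (.cons (.br (nat_lit 1) (nat_lit 1) (.cons (.br (nat_lit 13) (nat_lit 1) (.cons (.ev (nat_lit 80157840692204406194376409858) (nat_lit 2)) .nil)) (.cons (.br (nat_lit 2) (nat_lit 1) (.cons (.ev (nat_lit 80157840692204124723694666498) (nat_lit 2)) .nil)) (.cons (.ev (nat_lit 79537652246452165536208912641)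 (nat_lit 1)) .nil)))) (.cons (.br (nat_lit 1) (nat_lit 1) (.cons (.rf (nat_lit 86) (nat_lit 161532094415497434336)) (.cons (.rf (nat_lit 85) (nat_lit 161532094415497434336)) (.cons (.ev (nat_lit 20282409603670117449495954325761) (nat_lit 1)) .nil)))) .nil)))))) .nil)) (.cons (.br (nat_lit 10) (nat_lit 1) (.cons (.br (nat_lit 7) (nat_lit 1) (.cons (.br (nat_lit 12) (nat_lit 1) (.cons (.br (nat_lit 13) (nat_lit 1) (.cons (.ev (nat_lit 79229380922000049379496756740) (nat_lit 3)) .nil)) (.cons (.br (nat_lit 2) (nat_lit 1) (.cons (.ev (nat_lit 79229380922000330850178500100) (nat_lit 3)) .nil)) (.cons (.ev (nat_lit 20282409603670117449495954325761) (nat_lit 1)) .nil)))) (.cons (.br (nat_lit 12) (nat_lit 1) (.cons (.ev (nat_lit 79537647542532708210954993921) (nat_lit 1)) (.cons (.br (nat_lit 13) (nat_lit 1) (.cons (.ev (nat_lit 79537647542532708215266738433) (nat_lit 1)) .nil)) (.cons (.br (nat_lit 1) (nat_lit 1) (.cons (.ev (nat_lit 79537647542532708215266738433) (nat_lit 1)) .nil)) .nil)))) (.cons (.br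 (nat_lit 13) (nat_lit 1) (.cons (.br (nat_lit 12) (nat_lit 1) (.cons (.ev (nat_lit 79537647542532426735995060481) (nat_lit 1)) .nil)) (.cons (.ev (nat_lit 20282719088680010853258211950593) (nat_lit 1)) (.cons (.br (nat_lit 1) (nat_lit 1) (.cons (.ev (nat_lit 79537647542532426735995060481) (nat_lit 1)) .nil)) .nil)))) (.cons (.br (nat_lit 13) (nat_lit 1) (.cons (.kr (nat_lit 309485009821345068741558272) (nat_lit 20361637766165934761540795236352) (nat_lit 3) (nat_lit 0)) (.cons (.ev (nat_lit 20361948460120094804381418913793) (nat_lit 1)) (.cons (.ev (nat_lit 20361948460120094522910737170433) (nat_lit 1)) .nil)))) (.cons (.ev (nat_lit 1208944338416296922185729) (nat_lit 1)) .nil)))))) .nil)) .nil))),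
 (.br (nat_lit 8) (nat_lit 1) (.cons (.rf (nat_lit 597) (nat_lit 493858305438335996960)) (.cons (.br (nat_lit 2) (nat_lit 0) (.cons (.br (nat_lit 7) (nat_lit 1) (.cons (.ev (nat_lit 1208944338697771915673601) (nat_lit 1)) (.cons (.rf (nat_lit 564) (nat_lit 15433070910038444064)) (.cons (.rf (nat_lit 565) (nat_lit 15433070910038444064)) (.cons (.br (nat_lit 1) (nat_lit 1) (.cons (.ev (nat_lit 79228162514264337597838917889) (nat_lit 1)) (.cons (.ev (nat_lit 79228162514264619068520661249) (nat_lit 1)) (.cons (.ev (nat_lit 40644669966633369636381728441090) (nat_lit 2)) .nil)))) (.cons (.br (nat_lit 1) (nat_lit 1) (.cons (.ev (nat_lit 20282409603670117168025272582401) (nat_lit 1)) (.cons (.ev (nat_lit 20282409603670117449495954325761) (nat_lit 1)) (.cons (.ev (nat_lit 20283032200485881618914659533570) (nat_lit 2)) .nil)))) .nil)))))) .nil)) .nil))),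
 (.br (nat_lit 5) (nat_lit 0) (.cons (.br (nat_lit 12) (nat_lit 0) (.cons (.br (nat_lit 12) (nat_lit 1) (.cons (.br (nat_lit 2) (nat_lit 1) (.cons (.ev (nat_lit 310693954087704871137509633) (nat_lit 1)) (.cons (.br (nat_lit 13) (nat_lit 1) (.cons (.ev (nat_lit 79231803514306978607309849090) (nat_lit 2)) .nil)) (.cons (.br (nat_lit 7) (nat_lit 1) (.cons (.ev (nat_lit 79231803514307541548673335810) (nat_lit 2)) .nil)) .nil)))) (.cons (.br (nat_lit 7) (nat_lit 1) (.cons (.ev (nat_lit 79537652246452165536208912641) (nat_lit 1)) (.cons (.rf (nat_lit 217) (nat_lit 493823397043632346176)) (.cons (.kr (nat_lit 309485009821626543701491712) (nat_lit 20361637766165934761540795236352) (nat_lit 6) (nat_lit 0)) .nil)))) (.cons (.br (nat_lit 1) (nat_lit 1) (.cons (.zr (nat_lit 618970019642693444574576640) (nat_lit 237685701209426135828154810369) (nat_lit 5) (nat_lit 0)) (.cons (.ev (nat_lit 79537652246452447006890656001) (nat_lit 1)) (.cons (.rf (nat_lit 249) (nat_lit 493858123955533257792)) .nil)))) (.cons (.ev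 (nat_lit 1208944338416296922185729) (nat_lit 1)) (.cons (.br (nat_lit 2) (nat_lit 1) (.cons (.rf (nat_lit 102) (nat_lit 420038503225995039776)) (.cons (.ev (nat_lit 20282720302328125456125849042946) (nat_lit 2)) (.cons (.rf (nat_lit 215) (nat_lit 493823397043632346176)) .nil)))) .nil)))))) .nil)) .nil)),
 (.br (nat_lit 7) (nat_lit 1) (.cons (.ev (nat_lit 20283032205226550732856093704450) (nat_lit 2)) .nil)),
 (.br (nat_lit 13) (nat_lit 1) (.cons (.br (nat_lit 7) (nat_lit 1) (.cons (.kr (nat_lit 79847132533979085325031440640) (nat_lit 20282409613096403390786053406720) (nat_lit 1) (nat_lit 0)) .nil)) (.cons (.rf (nat_lit 220) (nat_lit 15067782546824352)) (.cons (.kr (nat_lit 4722366764344621924352) (nat_lit 20361637766165934761540795236352) (nat_lit 6) (nat_lit 0)) .nil)))),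
 (.br (nat_lit 13) (nat_lit 0) (.cons (.rf (nat_lit 596) (nat_lit 493858305440582043680)) (.cons (.br (nat_lit 5) (nat_lit 0) (.cons (.rf (nat_lit 597) (nat_lit 493858305440582043680)) (.cons (.rf (nat_lit 598) (nat_lit 493858305440582043680)) (.cons (.br (nat_lit 2) (nat_lit 0) (.cons (.rf (nat_lit 597) (nat_lit 493858305438335996960)) (.cons (.rf (nat_lit 598) (nat_lit 493858305438335996960)) .nil))) .nil)))) (.cons (.br (nat_lit 2) (nat_lit 0) (.cons (.rf (nat_lit 599) (nat_lit 493858305440582043680)) (.cons (.br (nat_lit 8) (nat_lit 1) (.cons (.rf (nat_lit 599) (nat_lit 493858305438335996960)) (.cons (.br (nat_lit 10) (nat_lit 1) (.cons (.br (nat_lit 12) (nat_lit 1) (.cons (.br (nat_lit 13) (nat_lit 1) (.cons (.rf (nat_lit 600) (nat_lit 493858305440582043680)) (.cons (.rf (nat_lit 600) (nat_lit 493858305438335996960)) (.cons (.ev (nat_lit 20361638979832639660707379412993) (nat_lit 1)) .nil)))) (.cons (.rf (nat_lit 601) (nat_lit 493858305440582043680)) (.cons (.rf (nat_lit 601) (nat_lit 493858305438335996960))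 (.cons (.ev (nat_lit 1208944338416296922185729) (nat_lit 1)) (.cons (.br (nat_lit 5) (nat_lit 1) (.cons (.br (nat_lit 7) (nat_lit 1) (.cons (.zr (nat_lit 238303457562651875700195197696) (nat_lit 1227833732571660753567745) (nat_lit 5) (nat_lit 0)) .nil)) (.cons (.ev (nat_lit 20282410822040670593926769475586) (nat_lit 2)) (.cons (.br (nat_lit 2) (nat_lit 1) (.cons (.zr (nat_lit 238303457562651875700195197696) (nat_lit 1227833732571660753567745) (nat_lit 5) (nat_lit 0)) .nil)) .nil)))) .nil)))))) .nil)) .nil))) .nil))) .nil)))),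
 (.br (nat_lit 5) (nat_lit 0) (.cons (.br (nat_lit 10) (nat_lit 1) (.cons (.br (nat_lit 12) (nat_lit 1) (.cons (.br (nat_lit 7) (nat_lit 1) (.cons (.br (nat_lit 13) (nat_lit 1) (.cons (.ev (nat_lit 20837011577028803521703751780100) (nat_lit 3)) .nil)) (.cons (.br (nat_lit 2) (nat_lit 1) (.cons (.ev (nat_lit 20837011577028804084645115266820) (nat_lit 3)) .nil)) (.cons (.ev (nat_lit 20282410812577490320055697670401) (nat_lit 1)) .nil)))) (.cons (.br (nat_lit 7) (nat_lit 1) (.cons (.ev (nat_lit 1208944338416301233930241) (nat_lit 1)) (.cons (.rf (nat_lit 85) (nat_lit 420974337082842684480)) (.cons (.zr (nat_lit 60847228810991977099066777534464) (nat_lit 159076508696357462823374159873) (nat_lit 5) (nat_lit 3)) .nil)))) (.cons (.br (nat_lit 7) (nat_lit 1) (.cons (.ev (nat_lit 1208944338416301233930241) (nat_lit 1)) (.cons (.rf (nat_lit 86) (nat_lit 125898488303726134432)) (.cons (.zr (nat_lit 61084913298534769830363842740224) (nat_lit 620183667829069115557937153) (nat_lit 5) (nat_lit 10)) .nil)))) (.cons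 (.br (nat_lit 1) (nat_lit 1) (.cons (.br (nat_lit 13) (nat_lit 1) (.cons (.ev (nat_lit 80160258506949584355319743234) (nat_lit 2)) .nil)) (.cons (.br (nat_lit 2) (nat_lit 1) (.cons (.ev (nat_lit 80160258506950428784544842498) (nat_lit 2)) .nil)) (.cons (.ev (nat_lit 79537652246452447006890656001) (nat_lit 1)) .nil)))) (.cons (.kr (nat_lit 310693935640959702194454528) (nat_lit 20361637770888301244410440450048) (nat_lit 4) (nat_lit 0)) .nil)))))) .nil)) (.cons (.br (nat_lit 12) (nat_lit 0) (.cons (.br (nat_lit 7) (nat_lit 1) (.cons (.br (nat_lit 13) (nat_lit 1) (.cons (.ev (nat_lit 20282410812577490038576425992449) (nat_lit 1)) (.cons (.ev (nat_lit 20282410812577490320055697670401) (nat_lit 1)) (.cons (.zr (nat_lit 2422574222447860078608384) (nat_lit 158765810056796764333817201153) (nat_lit 5) (nat_lit 11)) .nil)))) (.cons (.br (nat_lit 13) (nat_lit 1) (.cons (.br (nat_lit 5) (nat_lit 1) (.cons (.ev (nat_lit 79540065394243713601250525442) (nat_lit 2)) .nil)) (.cons (.br (nat_lit 1) (nat_lit 1) (.cons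 (.zr (nat_lit 79228162514408453881131500032) (nat_lit 9463179991287993466881) (nat_lit 5) (nat_lit 0)) .nil)) (.cons (.br (nat_lit 5) (nat_lit 1) (.cons (.ev (nat_lit 79540065394243713601250525442) (nat_lit 2)) .nil)) .nil)))) (.cons (.br (nat_lit 2) (nat_lit 1) (.cons (.br (nat_lit 12) (nat_lit 1) (.cons (.ev (nat_lit 79540065394243713601250525442) (nat_lit 2)) .nil)) (.cons (.br (nat_lit 13) (nat_lit 1) (.cons (.ev (nat_lit 79540065394243713601250525442) (nat_lit 2)) .nil)) (.cons (.br (nat_lit 1) (nat_lit 1) (.cons (.zr (nat_lit 79228162514408735356108210688) (nat_lit 9463179709821606690817) (nat_lit 5) (nat_lit 0)) .nil)) .nil)))) (.cons (.br (nat_lit 1) (nat_lit 1) (.cons (.zr (nat_lit 237686910116798724908626477824) (nat_lit 309485028412485809798643713) (nat_lit 5) (nat_lit 8)) (.cons (.zr (nat_lit 237686905394648977771048469248) (nat_lit 309503917734020638211833857) (nat_lit 5) (nat_lit 0)) (.cons (.ev (nat_lit 20361948460120094522906458980353) (nat_lit 1)) .nil)))) (.cons (.ev (nat_lit 1208944338416296922185729)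 (nat_lit 1)) .nil)))))) .nil)) .nil))),
 (.br (nat_lit 2) (nat_lit 0) (.cons (.br (nat_lit 7) (nat_lit 1) (.cons (.ev (nat_lit 1208944338416301233930241) (nat_lit 1)) (.cons (.rf (nat_lit 564) (nat_lit 14314983033175935136)) (.cons (.rf (nat_lit 564) (nat_lit 14313858230633305152)) (.cons (.br (nat_lit 13) (nat_lit 1) (.cons (.br (nat_lit 2) (nat_lit 1) (.cons (.ev (nat_lit 20837628157457363020884394311940) (nat_lit 3)) .nil)) (.cons (.rf (nat_lit 220) (nat_lit 15067952200127552)) (.cons (.rf (nat_lit 220) (nat_lit 15067954345511072)) .nil)))) (.cons (.br (nat_lit 1) (nat_lit 1) (.cons (.ev (nat_lit 20282410812577490320055697670401) (nat_lit 1)) (.cons (.ev (nat_lit 20282410812577490038576425992449) (nat_lit 1)) (.cons (.kr (nat_lit 618970019642690137449562368) (nat_lit 20282409603670189225614998765568) (nat_lit 1) (nat_lit 0)) .nil)))) .nil)))))) .nil)),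
 (.br (nat_lit 13) (nat_lit 0) (.cons (.rf (nat_lit 596) (nat_lit 493858305440582043680)) (.cons (.rf (nat_lit 602) (nat_lit 493858305440582043680)) (.cons (.br (nat_lit 8) (nat_lit 1) (.cons (.rf (nat_lit 603) (nat_lit 493858305440582043680)) (.cons (.rf (nat_lit 603) (nat_lit 493858305438335996960)) (.cons (.br (nat_lit 9) (nat_lit 1) (.cons (.rf (nat_lit 604) (nat_lit 493858305438335996960)) (.cons (.rf (nat_lit 604) (nat_lit 493858305440582043680)) .nil))) .nil)))) .nil))))]

theorem c21 : chkAll C T R L21 (nat_lit 590) = true := by decide +kernel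

theorem l21 : (nat_lit 590) + L21.length = (nat_lit 606) := by decide +kernel

/-- part of the certificates -/
def L22 : List Prf := [(.br (nat_lit 7) (nat_lit 0) (.cons (.rf (nat_lit 572) (nat_lit 493858305440582043680)) (.cons (.br (nat_lit 13) (nat_lit 0) (.cons (.rf (nat_lit 578) (nat_lit 493858305440582043680)) (.cons (.rf (nat_lit 586) (nat_lit 493858305440582043680)) (.cons (.rf (nat_lit 586) (nat_lit 493857214725047289888)) (.cons (.br (nat_lit 13) (nat_lit 0) (.cons (.rf (nat_lit 578) (nat_lit 493858305440582043680)) (.cons (.rf (nat_lit 586) (nat_lit 493858305440582043680)) (.cons (.rf (nat_lit 586) (nat_lit 493857214725047289888)) .nil)))) .nil))))) (.cons (.br (nat_lit 13) (nat_lit 0) (.cons (.rf (nat_lit 596) (nat_lit 493858305440582043680)) (.cons (.rf (nat_lit 602) (nat_lit 493858305440582043680)) (.cons (.rf (nat_lit 605) (nat_lit 493858305440582043680)) (.cons (.br (nat_lit 13) (nat_lit 0) (.cons (.rf (nat_lit 596) (nat_lit 493858305440582043680)) (.cons (.rf (nat_lit 602) (nat_lit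 493858305440582043680)) (.cons (.rf (nat_lit 605) (nat_lit 493858305440582043680)) .nil)))) .nil))))) .nil)))),
 (.br (nat_lit 3) (nat_lit 1) (.cons (.rf (nat_lit 424) (nat_lit 244987298880)) (.cons (.rf (nat_lit 424) (nat_lit 247032022176)) (.cons (.rf (nat_lit 539) (nat_lit 14242959524133701664)) (.cons (.br (nat_lit 12) (nat_lit 1) (.cons (.kr (nat_lit 16777216) (nat_lit 79228162514264337593543950336) (nat_lit 3) (nat_lit 0)) (.cons (.kr (nat_lit 281474976710656) (nat_lit 79228162514264337593543950336) (nat_lit 6) (nat_lit 0)) (.cons (.kr (nat_lit 4294967296) (nat_lit 79228162514264337593543950336) (nat_lit 4) (nat_lit 0)) (.cons (.br (nat_lit 1) (nat_lit 1) (.cons (.rf (nat_lit 544) (nat_lit 14242959524133701664)) (.cons (.rf (nat_lit 544) (nat_lit 14242959521887654944)) (.cons (.rf (nat_lit 543) (nat_lit 493858305438299395136)) .nil)))) (.cons (.br (nat_lit 1) (nat_lit 1) (.cons (.rf (nat_lit 551) (nat_lit 493858305437262283936)) (.cons (.rf (nat_lit 551) (nat_lit 493858305437360915520)) (.cons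 (.br (nat_lit 2) (nat_lit 1) (.cons (.rf (nat_lit 551) (nat_lit 493858305440582043680)) .nil)) .nil)))) .nil)))))) (.cons (.br (nat_lit 7) (nat_lit 0) (.cons (.rf (nat_lit 572) (nat_lit 493858305440582043680)) (.cons (.rf (nat_lit 606) (nat_lit 493858305440582043680)) (.cons (.rf (nat_lit 606) (nat_lit 493857214725047289888)) (.cons (.br (nat_lit 7) (nat_lit 0) (.cons (.rf (nat_lit 572) (nat_lit 493858305440582043680)) (.cons (.rf (nat_lit 606) (nat_lit 493858305440582043680)) (.cons (.rf (nat_lit 606) (nat_lit 493857214725047289888)) .nil)))) .nil))))) .nil)))))),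
 (.br (nat_lit 5) (nat_lit 0) (.cons (.rf (nat_lit 607) (nat_lit 14242959520813941920)) (.cons (.rf (nat_lit 607) (nat_lit 14208022538841359520)) (.cons (.rf (nat_lit 607) (nat_lit 14171994841334023328)) (.cons (.rf (nat_lit 607) (nat_lit 14134876428291933344)) .nil))))),
 (.br (nat_lit 6) (nat_lit 1) (.cons (.rf (nat_lit 424) (nat_lit 243812926624)) (.cons (.rf (nat_lit 538) (nat_lit 407901468851537952)) (.cons (.br (nat_lit 4) (nat_lit 1) (.cons (.rf (nat_lit 424) (nat_lit 243913589824)) (.cons (.rf (nat_lit 538) (nat_lit 407901466605491232)) (.cons (.rf (nat_lit 608) (nat_lit 14242959521851053120)) (.cons (.br (nat_lit 3) (nat_lit 1) (.cons (.rf (nat_lit 424) (nat_lit 244987298880)) (.cons (.rf (nat_lit 424) (nat_lit 247032022176)) (.cons (.rf (nat_lit 539) (nat_lit 15395881028740548640)) (.cons (.rf (nat_lit 608) (nat_lit 14242959524133701664)) (.cons (.rf (nat_lit 608) (nat_lit 15395881026494501920)) .nil)))))) .nil))))) .nil)))),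
 (.br (nat_lit 5) (nat_lit 0) (.cons (.br (nat_lit 7) (nat_lit 0) (.cons (.br (nat_lit 1) (nat_lit 1) (.cons (.br (nat_lit 12) (nat_lit 1) (.cons (.br (nat_lit 13) (nat_lit 1) (.cons (.ev (nat_lit 20362259182482169231596815974660) (nat_lit 3)) .nil)) (.cons (.kr (nat_lit 309485009821345073019748608) (nat_lit 18519083142724190208) (nat_lit 1) (nat_lit 0)) (.cons (.rf (nat_lit 265) (nat_lit 458041004916425721888)) .nil)))) (.cons (.br (nat_lit 13) (nat_lit 1) (.cons (.br (nat_lit 12) (nat_lit 1) (.cons (.ev (nat_lit 20363497103632275780488512210180) (nat_lit 3)) .nil)) (.cons (.ev (nat_lit 40565131110257251880547085453060) (nat_lit 3)) (.cons (.ev (nat_lit 40644360486382592937262846051074) (nat_lit 2)) .nil)))) (.cons (.br (nat_lit 13) (nat_lit 1) (.cons (.ev (nat_lit 20283339272384877806089041674754) (nat_lit 2)) (.cons (.rf (nat_lit 1) (nat_lit 346353984747342234784)) (.cons (.rf (nat_lit 13) (nat_lit 309461622499829974176)) .nil)))) (.cons (.br (nat_lit 2) (nat_lit 1) (.cons (.ev (nat_lit 79538870672344981428649459970)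 (nat_lit 2)) (.cons (.ev (nat_lit 475685732632385842677350269188) (nat_lit 3)) (.cons (.br (nat_lit 7) (nat_lit 1) (.cons (.ev (nat_lit 20362259182482169231614062952708) (nat_lit 3)) .nil)) .nil)))) (.cons (.br (nat_lit 2) (nat_lit 1) (.cons (.rf (nat_lit 39) (nat_lit 490428773646610924704)) (.cons (.br (nat_lit 5) (nat_lit 1) (.cons (.ev (nat_lit 20363497103632276906371239183620) (nat_lit 3)) .nil)) (.cons (.zr (nat_lit 60847847780974653961979203617536) (nat_lit 1213721973355272946581505) (nat_lit 5) (nat_lit 0)) .nil)))) .nil)))))) .nil)) .nil)),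
 (.br (nat_lit 5) (nat_lit 1) (.cons (.kr (nat_lit 20283028573671313114093290848512) (nat_lit 79228171959069924976337354752) (nat_lit 1) (nat_lit 0)) .nil)),
 (.br (nat_lit 7) (nat_lit 1) (.cons (.kr (nat_lit 309485009821345073019748608) (nat_lit 4722438821938659852288) (nat_lit 1) (nat_lit 0)) (.cons (.rf (nat_lit 188) (nat_lit 458116439106377582624)) (.cons (.br (nat_lit 5) (nat_lit 1) (.cons (.kr (nat_lit 20283028573671313114093290848512) (nat_lit 79228171959069924976337354752) (nat_lit 1) (nat_lit 0)) .nil)) .nil)))),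
 (.br (nat_lit 1) (nat_lit 1) (.cons (.rf (nat_lit 79) (nat_lit 420002470963110319136)) (.cons (.rf (nat_lit 79) (nat_lit 420002471066189531168)) (.cons (.kr (nat_lit 79228162514264337593543950592) (nat_lit 20282409603651742481541289213952) (nat_lit 1) (nat_lit 0)) .nil)))),
 (.br (nat_lit 2) (nat_lit 0) (.cons (.rf (nat_lit 610) (nat_lit 493858305440582043680)) (.cons (.br (nat_lit 5) (nat_lit 0) (.cons (.rf (nat_lit 610) (nat_lit 493858305440481383456)) (.cons (.br (nat_lit 7) (nat_lit 0) (.cons (.br (nat_lit 12) (nat_lit 1) (.cons (.br (nat_lit 7) (nat_lit 1) (.cons (.rf (nat_lit 611) (nat_lit 493858305440582043680)) (.cons (.rf (nat_lit 611) (nat_lit 493858305440481383456)) (.cons (.kr (nat_lit 20283028573671313114093290782976) (nat_lit 79228171959069923876825726976) (nat_lit 1) (nat_lit 0)) .nil)))) (.cons (.rf (nat_lit 612) (nat_lit 493858305440582043680)) (.cons (.rf (nat_lit 612) (nat_lit 493858305440481383456)) (.cons (.rf (nat_lit 613) (nat_lit 493858305440582043680)) (.cons (.kr (nat_lit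 20282719088661491769020271034368) (nat_lit 79228167236631101938165874688) (nat_lit 4) (nat_lit 0)) .nil)))))) .nil)) .nil))) .nil))),
 (.br (nat_lit 7) (nat_lit 1) (.cons (.ev (nat_lit 79538865894638263043618832642) (nat_lit 2)) (.cons (.ev (nat_lit 79540070098091395902659887362) (nat_lit 2)) (.cons (.br (nat_lit 5) (nat_lit 1) (.cons (.ev (nat_lit 20363497103632275780488512210180) (nat_lit 3)) .nil)) .nil)))),
 (.br (nat_lit 5) (nat_lit 1) (.cons (.ev (nat_lit 79538865894639107468565741826) (nat_lit 2)) (.cons (.ev (nat_lit 79229380903336564067588440066) (nat_lit 2)) (.cons (.rf (nat_lit 615) (nat_lit 458079529494240232608)) .nil)))),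
 (.br (nat_lit 5) (nat_lit 1) (.cons (.ev (nat_lit 20678555270816241475723742086916) (nat_lit 3)) .nil)),
 (.br (nat_lit 2) (nat_lit 1) (.cons (.ev (nat_lit 79538856486798787642214514946) (nat_lit 2)) (.cons (.br (nat_lit 13) (nat_lit 1) (.cons (.ev (nat_lit 20843846843835420189724079887632) (nat_lit 5)) .nil)) (.cons (.br (nat_lit 7) (nat_lit 1) (.cons (.ev (nat_lit 21158264318187277179329623035144) (nat_lit 4)) .nil)) .nil)))),
 (.br (nat_lit 7) (nat_lit 1) (.cons (.rf (nat_lit 85) (nat_lit 310473798999825646656)) (.cons (.rf (nat_lit 86) (nat_lit 310473798999825646656)) (.cons (.rf (nat_lit 618) (nat_lit 458082801609538114784)) .nil)))),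
 (.br (nat_lit 9) (nat_lit 1) (.cons (.br (nat_lit 7) (nat_lit 0) (.cons (.br (nat_lit 12) (nat_lit 1) (.cons (.rf (nat_lit 615) (nat_lit 493858305440582043680)) (.cons (.rf (nat_lit 616) (nat_lit 493858305440582043680)) (.cons (.rf (nat_lit 616) (nat_lit 493857214724946629664)) (.cons (.rf (nat_lit 615) (nat_lit 493750222141901605088)) (.cons (.br (nat_lit 1) (nat_lit 1) (.cons (.rf (nat_lit 617) (nat_lit 493858305440582043680)) (.cons (.rf (nat_lit 617) (nat_lit 493857214724946629664)) (.cons (.br (nat_lit 2) (nat_lit 1) (.cons (.ev (nat_lit 20678555270816241475723742086916) (nat_lit 3)) .nil)) .nil)))) .nil)))))) .nil)) (.cons (.br (nat_lit 11) (nat_lit 1) (.cons (.br (nat_lit 12) (nat_lit 1) (.cons (.rf (nat_lit 618) (nat_lit 493858305440582043680)) (.cons (.rf (nat_lit 619) (nat_lit 493858305440582043680)) (.cons (.rf (nat_lit 618) (nat_lit 493749131457371249824)) (.cons (.rf (nat_lit 619) (nat_lit 493749131457371249824)) (.cons (.br (nat_lit 5) (nat_lit 1) (.cons (.ev (nat_lit 20283028573708207166294503457026)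 (nat_lit 2)) (.cons (.rf (nat_lit 180) (nat_lit 493743466945404142656)) (.cons (.rf (nat_lit 87) (nat_lit 383181040511734614048)) .nil)))) .nil)))))) .nil)) .nil))),
 (.br (nat_lit 13) (nat_lit 0) (.cons (.rf (nat_lit 614) (nat_lit 493858305440582043680)) (.cons (.rf (nat_lit 614) (nat_lit 493857214725047289888)) (.cons (.br (nat_lit 10) (nat_lit 1) (.cons (.rf (nat_lit 620) (nat_lit 493858305440582043680)) (.cons (.rf (nat_lit 620) (nat_lit 493858305440481383456)) (.cons (.br (nat_lit 5) (nat_lit 0) (.cons (.rf (nat_lit 620) (nat_lit 493857214724946629664)) (.cons (.rf (nat_lit 620) (nat_lit 493750222172906003616)) .nil))) .nil)))) .nil)))),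
 (.br (nat_lit 7) (nat_lit 1) (.cons (.ev (nat_lit 20837026226068320157003203550992) (nat_lit 5)) .nil)),
 (.br (nat_lit 13) (nat_lit 1) (.cons (.rf (nat_lit 622) (nat_lit 493858305440582043680)) (.cons (.rf (nat_lit 622) (nat_lit 493784068542624367680)) (.cons (.ev (nat_lit 20283028583116046079836876243202) (nat_lit 2)) .nil)))),
 (.br (nat_lit 12) (nat_lit 1) (.cons (.br (nat_lit 7) (nat_lit 1) (.cons (.zr (nat_lit 223978015427825282380247282483968) (nat_lit 626251945724820880416112644) (nat_lit 20) (nat_lit 4)) .nil)) (.cons (.rf (nat_lit 86) (nat_lit 384332836115160598752)) (.cons (.rf (nat_lit 87) (nat_lit 346179462539367357504)) .nil)))),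
 (.br (nat_lit 7) (nat_lit 1) (.cons (.rf (nat_lit 624) (nat_lit 493784068542624367680)) (.cons (.rf (nat_lit 623) (nat_lit 458008564814558993568)) (.cons (.br (nat_lit 2) (nat_lit 1) (.cons (.ev (nat_lit 80160244358225384076497388290) (nat_lit 2)) .nil)) .nil)))),
 (.br (nat_lit 5) (nat_lit 0) (.cons (.br (nat_lit 1) (nat_lit 1) (.cons (.rf (nat_lit 623) (nat_lit 493858305440582043680)) (.cons (.rf (nat_lit 624) (nat_lit 493858305440582043680)) (.cons (.br (nat_lit 12) (nat_lit 1) (.cons (.ev (nat_lit 79230585106789414343534510082) (nat_lit 2)) (.cons (.rf (nat_lit 85) (nat_lit 310473798998652290208)) (.cons (.rf (nat_lit 180) (nat_lit 458111019510485062688)) .nil)))) (.cons (.rf (nat_lit 625) (nat_lit 493858305440582043680)) (.cons (.br (nat_lit 12) (nat_lit 1) (.cons (.rf (nat_lit 625) (nat_lit 493784068542624367680)) (.cons (.zr (nat_lit 928455029464316681167831808) (nat_lit 20361637766202828251887237595137) (nat_lit 5) (nat_lit 3)) (.cons (.rf (nat_lit 88) (nat_lit 346179462539367357504)) .nil))))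 .nil)))))) .nil)),
 (.br (nat_lit 5) (nat_lit 1) (.cons (.br (nat_lit 7) (nat_lit 1) (.cons (.ev (nat_lit 20363497122447955861572228809988) (nat_lit 3)) .nil)) (.cons (.zr (nat_lit 237686905394432808287469568768) (nat_lit 309503917734020625377263617) (nat_lit 5) (nat_lit 0)) (.cons (.br (nat_lit 7) (nat_lit 1) (.cons (.ev (nat_lit 80160253766064862776504025858) (nat_lit 2)) .nil)) .nil)))),
 (.br (nat_lit 5) (nat_lit 1) (.cons (.br (nat_lit 7) (nat_lit 1) (.cons (.ev (nat_lit 80160253766065144251463959298) (nat_lit 2)) .nil)) (.cons (.zr (nat_lit 237684487579902673710164934656) (nat_lit 1239153687471759253007499265) (nat_lit 5) (nat_lit 0)) (.cons (.rf (nat_lit 627) (nat_lit 458082801640643173536)) .nil)))),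
 (.br (nat_lit 13) (nat_lit 1) (.cons (.br (nat_lit 12) (nat_lit 1) (.cons (.ev (nat_lit 20363497103632276910769285956868) (nat_lit 3)) .nil)) (.cons (.br (nat_lit 12) (nat_lit 1) (.cons (.ev (nat_lit 20362259182482169231614062952708) (nat_lit 3)) .nil)) (.cons (.ev (nat_lit 20441179054653242497984589135874) (nat_lit 2)) .nil)))),
 (.br (nat_lit 9) (nat_lit 1) (.cons (.br (nat_lit 10) (nat_lit 1) (.cons (.br (nat_lit 12) (nat_lit 1) (.cons (.rf (nat_lit 627) (nat_lit 493858305440582043680)) (.cons (.rf (nat_lit 628) (nat_lit 493858305440582043680)) (.cons (.rf (nat_lit 628) (nat_lit 493784068408238773472)) (.cons (.rf (nat_lit 627) (nat_lit 493784068408238773472)) (.cons (.br (nat_lit 2) (nat_lit 1) (.cons (.br (nat_lit 5) (nat_lit 1) (.cons (.ev (nat_lit 20678555252000563646439839172356) (nat_lit 3)) .nil)) (.cons (.br (nat_lit 1) (nat_lit 1) (.cons (.ev (nat_lit 20678555252000563646439839172356) (nat_lit 3)) .nil)) (.cons (.br (nat_lit 5) (nat_lit 1) (.cons (.ev (nat_lit 20678555252000563646439839172356)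 (nat_lit 3)) .nil)) .nil)))) .nil)))))) .nil)) (.cons (.br (nat_lit 10) (nat_lit 1) (.cons (.br (nat_lit 7) (nat_lit 1) (.cons (.br (nat_lit 12) (nat_lit 1) (.cons (.rf (nat_lit 39) (nat_lit 453571423076960274656)) (.cons (.ev (nat_lit 80157840655239140824055808770) (nat_lit 2)) (.cons (.rf (nat_lit 13) (nat_lit 309461623599341569184)) .nil)))) (.cons (.rf (nat_lit 629) (nat_lit 493858305440582043680)) (.cons (.br (nat_lit 12) (nat_lit 1) (.cons (.br (nat_lit 13) (nat_lit 1) (.cons (.ev (nat_lit 20361640193536310113337738462980) (nat_lit 3)) .nil)) (.cons (.zr (nat_lit 237684487579902673710164934656) (nat_lit 1239153687471759253007499265) (nat_lit 5) (nat_lit 0)) (.cons (.zr (nat_lit 9444949419996397699072) (nat_lit 20361638975091754378368993198081) (nat_lit 5) (nat_lit 3)) .nil)))) (.cons (.br (nat_lit 5) (nat_lit 1) (.cons (.rf (nat_lit 629) (nat_lit 458009655633374282816)) (.cons (.rf (nat_lit 1) (nat_lit 347474252924418590944)) (.cons (.kr (nat_lit 20282719088661491769015992844288) (nat_lit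 79228162532711363142230212608) (nat_lit 3) (nat_lit 0)) .nil)))) (.cons (.br (nat_lit 5) (nat_lit 1) (.cons (.rf (nat_lit 629) (nat_lit 458009655633374282816)) (.cons (.ev (nat_lit 20282720311809823124268326780930) (nat_lit 2)) (.cons (.ev (nat_lit 20678867173769863993192217575428) (nat_lit 3)) .nil)))) .nil)))))) .nil)) .nil))),
 (.br (nat_lit 9) (nat_lit 1) (.cons (.rf (nat_lit 621) (nat_lit 458082801815797205024)) (.cons (.rf (nat_lit 621) (nat_lit 458082801743923708992)) (.cons (.rf (nat_lit 621) (nat_lit 458082801640844493984)) (.cons (.rf (nat_lit 621) (nat_lit 458082801609638775008)) .nil))))),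
 (.br (nat_lit 13) (nat_lit 1) (.cons (.zr (nat_lit 60847228820399960410363158265856) (nat_lit 314320731546829138421612545) (nat_lit 5) (nat_lit 0)) (.cons (.br (nat_lit 12) (nat_lit 1) (.cons (.ev (nat_lit 20679174221983168170291873906948) (nat_lit 3)) .nil)) (.cons (.rf (nat_lit 180) (nat_lit 458038964115470390304)) .nil))))]

theorem c22 : chkAll C T R L22 (nat_lit 606) = true := by decide +kernel

theorem l22 : (nat_lit 606) + L22.length = (nat_lit 633) := by decide +kernel

/-- part of the certificates -/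
def L23 : List Prf := [(.br (nat_lit 13) (nat_lit 1) (.cons (.rf (nat_lit 86) (nat_lit 346251523466364818464)) (.cons (.br (nat_lit 1) (nat_lit 1) (.cons (.ev (nat_lit 20521953447477204565168843195656) (nat_lit 4)) .nil)) (.cons (.rf (nat_lit 87) (nat_lit 346251523466364818464)) .nil)))),
 (.br (nat_lit 2) (nat_lit 1) (.cons (.ev (nat_lit 79231803495788178030534524930) (nat_lit 2)) .nil)),
 (.br (nat_lit 12) (nat_lit 1) (.cons (.rf (nat_lit 634) (nat_lit 493858305440582043680)) (.cons (.rf (nat_lit 634) (nat_lit 493784068542624367680)) (.cons (.ev (nat_lit 79230580402869113705746923522) (nat_lit 2)) .nil)))),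
 (.br (nat_lit 1) (nat_lit 1) (.cons (.rf (nat_lit 635) (nat_lit 458082801640643173536)) (.cons (.rf (nat_lit 86) (nat_lit 384260778521124767968)) (.cons (.kr (nat_lit 309485009821345068724781312) (nat_lit 18518801667747479552) (nat_lit 1) (nat_lit 0)) .nil)))),
 (.br (nat_lit 13) (nat_lit 0) (.cons (.br (nat_lit 10) (nat_lit 1) (.cons (.br (nat_lit 7) (nat_lit 1) (.cons (.rf (nat_lit 632) (nat_lit 493858305440582043680)) (.cons (.rf (nat_lit 633) (nat_lit 493858305440582043680)) (.cons (.rf (nat_lit 635) (nat_lit 493858305440582043680)) (.cons (.rf (nat_lit 636) (nat_lit 493858305440582043680)) (.cons (.br (nat_lit 5) (nat_lit 1) (.cons (.rf (nat_lit 633) (nat_lit 493784068542624367680)) (.cons (.rf (nat_lit 632) (nat_lit 493784068542624367680)) (.cons (.rf (nat_lit 636) (nat_lit 493784068542624367680)) .nil)))) .nil)))))) .nil)) .nil)),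
 (.br (nat_lit 2) (nat_lit 1) (.cons (.kr (nat_lit 65536) (nat_lit 1099511627776) (nat_lit 2) (nat_lit 0)) (.cons (.br (nat_lit 5) (nat_lit 1) (.cons (.ev (nat_lit 20283029787319499776732514418946) (nat_lit 2)) .nil)) (.cons (.br (nat_lit 5) (nat_lit 1) (.cons (.ev (nat_lit 20283029787319499777832025981186) (nat_lit 2)) .nil)) .nil)))),
 (.br (nat_lit 13) (nat_lit 1) (.cons (.rf (nat_lit 613) (nat_lit 458079461293313591520)) (.cons (.rf (nat_lit 82) (nat_lit 383108982919844169760)) (.cons (.rf (nat_lit 638) (nat_lit 458009655499089348832)) .nil)))),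
 (.br (nat_lit 2) (nat_lit 1) (.cons (.rf (nat_lit 80) (nat_lit 383108982816764957728)) (.cons (.kr (nat_lit 65536) (nat_lit 1099511627776) (nat_lit 2) (nat_lit 0)) (.cons (.rf (nat_lit 80) (nat_lit 384260778418045555936)) .nil)))),
 (.br (nat_lit 12) (nat_lit 0) (.cons (.rf (nat_lit 631) (nat_lit 458082801815797205024)) (.cons (.br (nat_lit 7) (nat_lit 0) (.cons (.br (nat_lit 13) (nat_lit 0) (.cons (.br (nat_lit 2) (nat_lit 0) (.cons (.rf (nat_lit 626) (nat_lit 493858305440582043680)) (.cons (.rf (nat_lit 626) (nat_lit 458082801609638775008)) .nil))) (.cons (.rf (nat_lit 631) (nat_lit 493858305440582043680)) .nil))) (.cons (.br (nat_lit 11) (nat_lit 1) (.cons (.rf (nat_lit 630) (nat_lit 493858305440582043680)) (.cons (.rf (nat_lit 630) (nat_lit 493858305440481383456)) (.cons (.rf (nat_lit 631) (nat_lit 493858305440582043680)) .nil)))) (.cons (.br (nat_lit 5) (nat_lit 0) (.cons (.rf (nat_lit 637) (nat_lit 493858305440582043680)) (.cons (.br (nat_lit 2) (nat_lit 0) (.cons (.rf (nat_lit 637) (nat_lit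 493858305440481383456)) (.cons (.br (nat_lit 13) (nat_lit 0) (.cons (.br (nat_lit 12) (nat_lit 1) (.cons (.rf (nat_lit 638) (nat_lit 493858305440582043680)) (.cons (.rf (nat_lit 639) (nat_lit 493858305440582043680)) (.cons (.rf (nat_lit 639) (nat_lit 493858305440481383456)) (.cons (.rf (nat_lit 613) (nat_lit 493823402543469922336)) (.cons (.rf (nat_lit 640) (nat_lit 493858305440582043680)) .nil)))))) .nil)) .nil))) .nil))) .nil)))) .nil))),
 (.br (nat_lit 12) (nat_lit 0) (.cons (.rf (nat_lit 641) (nat_lit 493858305440582043680)) (.cons (.rf (nat_lit 641) (nat_lit 493857214725047289888)) (.cons (.br (nat_lit 12) (nat_lit 0) (.cons (.rf (nat_lit 641) (nat_lit 493858305440582043680)) (.cons (.rf (nat_lit 641) (nat_lit 493857214725047289888)) .nil))) .nil)))),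
 (.br (nat_lit 12) (nat_lit 1) (.cons (.ev (nat_lit 79848346182237524104824685314) (nat_lit 2)) .nil)),
 (.br (nat_lit 13) (nat_lit 1) (.cons (.rf (nat_lit 643) (nat_lit 493858305440582043680)) (.cons (.rf (nat_lit 643) (nat_lit 493750222172906003616)) (.cons (.kr (nat_lit 79228162514264337593543950336) (nat_lit 20282409603651670423947251286016) (nat_lit 12) (nat_lit 0)) .nil)))),
 (.br (nat_lit 1) (nat_lit 1) (.cons (.rf (nat_lit 316) (nat_lit 493820939635182994592)) (.cons (.rf (nat_lit 644) (nat_lit 493858305368708547648)) (.cons (.rf (nat_lit 9) (nat_lit 384365492776616596512)) .nil)))),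
 (.br (nat_lit 5) (nat_lit 0) (.cons (.br (nat_lit 7) (nat_lit 0) (.cons (.br (nat_lit 7) (nat_lit 1) (.cons (.rf (nat_lit 316) (nat_lit 493821215543843363904)) (.cons (.rf (nat_lit 644) (nat_lit 493858305440582043680)) (.cons (.rf (nat_lit 316) (nat_lit 493821048315199984672)) (.cons (.rf (nat_lit 645) (nat_lit 493858305440582043680)) (.cons (.rf (nat_lit 645) (nat_lit 458117738797769787424)) .nil)))))) .nil)) .nil)),
 (.br (nat_lit 5) (nat_lit 1) (.cons (.kr (nat_lit 79228162514264338693055578368) (nat_lit 20282409603651742481541289279488) (nat_lit 1) (nat_lit 0)) .nil)),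
 (.br (nat_lit 7) (nat_lit 1) (.cons (.kr (nat_lit 1099511628032) (nat_lit 72057594037993472) (nat_lit 1) (nat_lit 0)) (.cons (.rf (nat_lit 647) (nat_lit 493858305440582043680)) (.cons (.rf (nat_lit 647) (nat_lit 458117738797769787424)) .nil)))),
 (.br (nat_lit 7) (nat_lit 1) (.cons (.rf (nat_lit 648) (nat_lit 493750222275985218624)) (.cons (.rf (nat_lit 648) (nat_lit 493750222172906003616)) (.cons (.kr (nat_lit 20282409603651670423947251286272) (nat_lit 79228162514336395187581878272) (nat_lit 1) (nat_lit 0)) .nil)))),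
 (.br (nat_lit 11) (nat_lit 1) (.cons (.br (nat_lit 1) (nat_lit 1) (.cons (.rf (nat_lit 648) (nat_lit 493858305440582043680)) (.cons (.rf (nat_lit 648) (nat_lit 493858305440481383456)) (.cons (.kr (nat_lit 256) (nat_lit 72057594037927936) (nat_lit 1) (nat_lit 0)) (.cons (.rf (nat_lit 649) (nat_lit 493858305440582043680)) (.cons (.rf (nat_lit 649) (nat_lit 458117738797769787424)) .nil)))))) .nil)),
 (.br (nat_lit 10) (nat_lit 1) (.cons (.rf (nat_lit 650) (nat_lit 493823402543469922336)) (.cons (.rf (nat_lit 650) (nat_lit 493823402543369262112)) .nil))),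
 (.br (nat_lit 13) (nat_lit 1) (.cons (.kr (nat_lit 79847132533907027730993578240) (nat_lit 20282409613096475448380091269120) (nat_lit 1) (nat_lit 0)) .nil)),
 (.br (nat_lit 5) (nat_lit 1) (.cons (.kr (nat_lit 618970019642690137449627904) (nat_lit 9444805024432839983104) (nat_lit 1) (nat_lit 0)) (.cons (.rf (nat_lit 652) (nat_lit 493858305440582043680)) (.cons (.rf (nat_lit 652) (nat_lit 458117738797769787424)) .nil)))),
 (.br (nat_lit 1) (nat_lit 1) (.cons (.rf (nat_lit 653) (nat_lit 493858305368708547648)) (.cons (.kr (nat_lit 309485009821345068724781312) (nat_lit 4722438540463683141632) (nat_lit 1) (nat_lit 0)) (.cons (.rf (nat_lit 9) (nat_lit 421258975259146687520)) .nil)))),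
 (.br (nat_lit 5) (nat_lit 0) (.cons (.br (nat_lit 2) (nat_lit 1) (.cons (.rf (nat_lit 316) (nat_lit 493856968432200909984)) (.cons (.kr (nat_lit 309485009821345068724846592) (nat_lit 4722366483969156841472) (nat_lit 2) (nat_lit 0)) (.cons (.rf (nat_lit 653) (nat_lit 493858305440582043680)) (.cons (.rf (nat_lit 654) (nat_lit 493858305440582043680)) (.cons (.rf (nat_lit 654) (nat_lit 458117738797769787424)) .nil)))))) .nil)),
 (.br (nat_lit 7) (nat_lit 0) (.cons (.rf (nat_lit 651) (nat_lit 493858305440582043680)) (.cons (.br (nat_lit 2) (nat_lit 0) (.cons (.rf (nat_lit 655) (nat_lit 493858305440582043680)) (.cons (.rf (nat_lit 655) (nat_lit 493784068408339433696)) .nil))) .nil))),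
 (.br (nat_lit 9) (nat_lit 1) (.cons (.rf (nat_lit 642) (nat_lit 493823368386735965248)) (.cons (.rf (nat_lit 642) (nat_lit 493823368283656750240)) (.cons (.rf (nat_lit 642) (nat_lit 493823368252451031264)) (.cons (.br (nat_lit 12) (nat_lit 0) (.cons (.rf (nat_lit 642) (nat_lit 458117738797769787424)) (.cons (.br (nat_lit 10) (nat_lit 1) (.cons (.rf (nat_lit 642) (nat_lit 458046774046416372800)) (.cons (.rf (nat_lit 642) (nat_lit 458046773943337157792)) (.cons (.rf (nat_lit 642) (nat_lit 458046773912131438816)) (.cons (.br (nat_lit 2) (nat_lit 0) (.cons (.rf (nat_lit 646) (nat_lit 493858305440582043680)) (.cons (.br (nat_lit 8) (nat_lit 1) (.cons (.rf (nat_lit 646) (nat_lit 493858305440481383456)) (.cons (.rf (nat_lit 651) (nat_lit 493823402543469922336)) .nil))) .nil))) .nil))))) (.cons (.br (nat_lit 11) (nat_lit 1) (.cons (.rf (nat_lit 642) (nat_lit 458009655633374282816)) (.cons (.rf (nat_lit 642) (nat_lit 458009655530295067808)) (.cons (.rf (nat_lit 642) (nat_lit 458009655499089348832)) (.cons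 (.rf (nat_lit 656) (nat_lit 493858305440582043680)) .nil))))) .nil)))) .nil))))),
 (.br (nat_lit 1) (nat_lit 1) (.cons (.br (nat_lit 13) (nat_lit 1) (.cons (.ev (nat_lit 79229371458530697395956613121) (nat_lit 1)) .nil)) (.cons (.br (nat_lit 13) (nat_lit 1) (.cons (.ev (nat_lit 79229371458530697395956613121) (nat_lit 1)) .nil)) (.cons (.ev (nat_lit 20283028578412126622515967623426) (nat_lit 2)) .nil)))),
 (.br (nat_lit 13) (nat_lit 0) (.cons (.br (nat_lit 12) (nat_lit 0) (.cons (.br (nat_lit 2) (nat_lit 0) (.cons (.br (nat_lit 5) (nat_lit 1) (.cons (.br (nat_lit 2) (nat_lit 1) (.cons (.ev (nat_lit 1213648258155097169592321) (nat_lit 1)) (.cons (.ev (nat_lit 79229371458530697395956613121) (nat_lit 1)) (.cons (.br (nat_lit 12) (nat_lit 1) (.cons (.ev (nat_lit 20837632983789551374768598745348) (nat_lit 3)) .nil)) .nil)))) (.cons (.br (nat_lit 12) (nat_lit 1) (.cons (.ev (nat_lit 79229371458530697395956613121) (nat_lit 1)) (.cons (.ev (nat_lit 79228162514264337593560793089) (nat_lit 1)) (.cons (.ev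 (nat_lit 79229371458530697400234803201) (nat_lit 1)) .nil)))) (.cons (.br (nat_lit 2) (nat_lit 1) (.cons (.ev (nat_lit 4740885285641216131073) (nat_lit 1)) (.cons (.zr (nat_lit 237684487579902673710164934656) (nat_lit 1239153687471759253007499265) (nat_lit 5) (nat_lit 0)) (.cons (.ev (nat_lit 4740885285636904386561) (nat_lit 1)) .nil)))) (.cons (.ev (nat_lit 79229371458530978870916546561) (nat_lit 1)) (.cons (.br (nat_lit 2) (nat_lit 1) (.cons (.br (nat_lit 7) (nat_lit 1) (.cons (.ev (nat_lit 20837632983789551374777155125508) (nat_lit 3)) .nil)) (.cons (.ev (nat_lit 1213648258155097169592321) (nat_lit 1)) (.cons (.ev (nat_lit 79229371458530697400234803201) (nat_lit 1)) .nil)))) .nil)))))) .nil)) .nil)) (.cons (.br (nat_lit 10) (nat_lit 1) (.cons (.br (nat_lit 11) (nat_lit 1) (.cons (.br (nat_lit 7) (nat_lit 1) (.cons (.ev (nat_lit 1213648258155092857847809) (nat_lit 1)) (.cons (.rf (nat_lit 658) (nat_lit 493858305440582043680)) (.cons (.rf (nat_lit 658) (nat_lit 493857214724946629664)) (.cons (.br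 (nat_lit 5) (nat_lit 1) (.cons (.rf (nat_lit 182) (nat_lit 273615395094708455808)) (.cons (.ev (nat_lit 72340168543109121) (nat_lit 1)) (.cons (.rf (nat_lit 182) (nat_lit 259780337039827929472)) .nil)))) (.cons (.ev (nat_lit 1213648258155097169592321) (nat_lit 1)) .nil)))))) .nil)) (.cons (.br (nat_lit 11) (nat_lit 1) (.cons (.br (nat_lit 7) (nat_lit 1) (.cons (.br (nat_lit 13) (nat_lit 1) (.cons (.br (nat_lit 12) (nat_lit 1) (.cons (.ev (nat_lit 20679169414724483666656719470856) (nat_lit 4)) .nil)) (.cons (.ev (nat_lit 20283029782615579473899981635842) (nat_lit 2)) (.cons (.br (nat_lit 2) (nat_lit 1) (.cons (.ev (nat_lit 20679174231391007647875188850948) (nat_lit 3)) .nil)) .nil)))) (.cons (.br (nat_lit 5) (nat_lit 1) (.cons (.br (nat_lit 13) (nat_lit 1) (.cons (.ev (nat_lit 20520713070733130473183109120260) (nat_lit 3)) .nil)) (.cons (.ev (nat_lit 4740885567116176064513) (nat_lit 1)) (.cons (.br (nat_lit 12) (nat_lit 1) (.cons (.ev (nat_lit 20520713070733130473157305762052) (nat_lit 3)) .nil))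 .nil)))) (.cons (.ev (nat_lit 1213648258436567851335681) (nat_lit 1)) (.cons (.br (nat_lit 5) (nat_lit 1) (.cons (.ev (nat_lit 79229376162450717666852208641) (nat_lit 1)) (.cons (.kr (nat_lit 79228162514264338693055578112) (nat_lit 72339069014638592) (nat_lit 5) (nat_lit 0)) (.cons (.ev (nat_lit 79229376162450717671163953153) (nat_lit 1)) .nil)))) (.cons (.br (nat_lit 5) (nat_lit 1) (.cons (.ev (nat_lit 20283029782615579473887147065602) (nat_lit 2)) (.cons (.br (nat_lit 12) (nat_lit 1) (.cons (.ev (nat_lit 20679174231391007647875188850948) (nat_lit 3)) .nil)) (.cons (.br (nat_lit 2) (nat_lit 1) (.cons (.ev (nat_lit 20679169414724483666613669134600) (nat_lit 4)) .nil)) .nil)))) .nil)))))) .nil)) .nil))) .nil))),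
 (.br (nat_lit 7) (nat_lit 1) (.cons (.ev (nat_lit 20837628148012485939982865072388) (nat_lit 3)) .nil)),
 (.br (nat_lit 10) (nat_lit 1) (.cons (.br (nat_lit 12) (nat_lit 1) (.cons (.br (nat_lit 2) (nat_lit 1) (.cons (.ev (nat_lit 79229371458530696296445050881) (nat_lit 1)) (.cons (.br (nat_lit 13) (nat_lit 1) (.cons (.ev (nat_lit 20837628148012485942156084838660) (nat_lit 3)) .nil)) (.cons (.br (nat_lit 5) (nat_lit 1) (.cons (.ev (nat_lit 20837628148012485939957061714180) (nat_lit 3)) .nil)) .nil)))) (.cons (.ev (nat_lit 79229371458530977771404984321) (nat_lit 1)) (.cons (.ev (nat_lit 79229371458530978870916546561) (nat_lit 1)) (.cons (.br (nat_lit 2) (nat_lit 1) (.cons (.br (nat_lit 13) (nat_lit 1) (.cons (.ev (nat_lit 1213648258156192369541121) (nat_lit 1)) .nil)) (.cons (.kr (nat_lit 65536) (nat_lit 1099511627776) (nat_lit 2) (nat_lit 0)) (.cons (.br (nat_lit 1) (nat_lit 1) (.cons (.ev (nat_lit 1213648258156192369541121) (nat_lit 1)) .nil)) .nil)))) (.cons (.br (nat_lit 1) (nat_lit 1) (.cons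 (.rf (nat_lit 660) (nat_lit 493858305440582043680)) (.cons (.rf (nat_lit 660) (nat_lit 493858305440481383456)) (.cons (.ev (nat_lit 1213648258436572129525761) (nat_lit 1)) .nil)))) .nil)))))) .nil)),
 (.br (nat_lit 12) (nat_lit 0) (.cons (.br (nat_lit 10) (nat_lit 1) (.cons (.br (nat_lit 11) (nat_lit 1) (.cons (.br (nat_lit 7) (nat_lit 1) (.cons (.br (nat_lit 13) (nat_lit 1) (.cons (.br (nat_lit 12) (nat_lit 1) (.cons (.ev (nat_lit 79229376162450716571652390913) (nat_lit 1)) .nil)) (.cons (.ev (nat_lit 20282410817299928580139637539073) (nat_lit 1)) (.cons (.br (nat_lit 5) (nat_lit 1) (.cons (.ev (nat_lit 79229376162450716571652390913) (nat_lit 1)) .nil)) .nil)))) (.cons (.br (nat_lit 5) (nat_lit 1) (.cons (.ev (nat_lit 4740885285641216131073) (nat_lit 1)) (.cons (.kr (nat_lit 1208925819614629174771712) (nat_lit 4722366483969156841472) (nat_lit 2) (nat_lit 0)) (.cons (.ev (nat_lit 4740885285636904386561) (nat_lit 1)) .nil)))) (.cons (.ev (nat_lit 1208944338697776193863681) (nat_lit 1)) (.cons (.br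 (nat_lit 5) (nat_lit 1) (.cons (.br (nat_lit 13) (nat_lit 1) (.cons (.ev (nat_lit 79231789310241986451679084546) (nat_lit 2)) .nil)) (.cons (.ev (nat_lit 79228162514264338693072355329) (nat_lit 1)) (.cons (.br (nat_lit 2) (nat_lit 1) (.cons (.ev (nat_lit 79231789310241986447400894466) (nat_lit 2)) .nil)) .nil)))) (.cons (.br (nat_lit 12) (nat_lit 1) (.cons (.br (nat_lit 5) (nat_lit 1) (.cons (.ev (nat_lit 79229376162450716567340646401) (nat_lit 1)) .nil)) (.cons (.ev (nat_lit 79229376162450435092380712961) (nat_lit 1)) (.cons (.br (nat_lit 1) (nat_lit 1) (.cons (.ev (nat_lit 79229376162450716567340646401) (nat_lit 1)) .nil)) .nil)))) .nil)))))) .nil)) (.cons (.br (nat_lit 11) (nat_lit 1) (.cons (.br (nat_lit 7) (nat_lit 1) (.cons (.ev (nat_lit 1208944338697771915673601) (nat_lit 1)) (.cons (.br (nat_lit 13) (nat_lit 1) (.cons (.br (nat_lit 12) (nat_lit 1) (.cons (.ev (nat_lit 20837628129196806419624376074500) (nat_lit 3)) .nil)) (.cons (.rf (nat_lit 256) (nat_lit 458117704709587535008)) (.cons (.rf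 (nat_lit 257) (nat_lit 458117704709587535008)) .nil)))) (.cons (.br (nat_lit 12) (nat_lit 1) (.cons (.br (nat_lit 13) (nat_lit 1) (.cons (.ev (nat_lit 79229376162450716567340646401) (nat_lit 1)) .nil)) (.cons (.zr (nat_lit 237993972589507849295310618624) (nat_lit 1213648330494166184230913) (nat_lit 5) (nat_lit 10)) (.cons (.br (nat_lit 1) (nat_lit 1) (.cons (.ev (nat_lit 79229376162450716567340646401) (nat_lit 1)) .nil)) .nil)))) (.cons (.br (nat_lit 5) (nat_lit 1) (.cons (.zr (nat_lit 309485046931568948227866624) (nat_lit 158457538676714774889226043393) (nat_lit 5) (nat_lit 9)) (.cons (.ev (nat_lit 72340168543109121) (nat_lit 1)) (.cons (.zr (nat_lit 309485046931568952506056704) (nat_lit 158457538676714774884947853313) (nat_lit 5) (nat_lit 9)) .nil)))) (.cons (.ev (nat_lit 1208944338697776193863681) (nat_lit 1)) .nil)))))) .nil)) .nil))) (.cons (.br (nat_lit 5) (nat_lit 0) (.cons (.br (nat_lit 13) (nat_lit 0) (.cons (.br (nat_lit 7) (nat_lit 1) (.cons (.br (nat_lit 12) (nat_lit 1) (.cons (.br (nat_lit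 13) (nat_lit 1) (.cons (.ev (nat_lit 79229376199415981933382860802) (nat_lit 2)) .nil)) (.cons (.br (nat_lit 2) (nat_lit 1) (.cons (.ev (nat_lit 20679169405169355638855709163780) (nat_lit 3)) .nil)) (.cons (.br (nat_lit 5) (nat_lit 1) (.cons (.ev (nat_lit 79229376199415981933382860802) (nat_lit 2)) .nil)) .nil)))) (.cons (.ev (nat_lit 1208944338416296922185729) (nat_lit 1)) (.cons (.br (nat_lit 2) (nat_lit 1) (.cons (.br (nat_lit 13) (nat_lit 1) (.cons (.ev (nat_lit 158457538713608261945773850626) (nat_lit 2)) .nil)) (.cons (.ev (nat_lit 4740885567116176064513) (nat_lit 1)) (.cons (.br (nat_lit 12) (nat_lit 1) (.cons (.ev (nat_lit 158457538713608261932872171522) (nat_lit 2)) .nil)) .nil)))) (.cons (.br (nat_lit 2) (nat_lit 1) (.cons (.ev (nat_lit 79229371458530696296445050881) (nat_lit 1)) (.cons (.zr (nat_lit 309485046787453760135364608) (nat_lit 1213648186099702154919937) (nat_lit 5) (nat_lit 9)) (.cons (.ev (nat_lit 79229371458530696300723240961) (nat_lit 1)) .nil)))) (.cons (.br (nat_lit 12)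 (nat_lit 1) (.cons (.br (nat_lit 5) (nat_lit 1) (.cons (.ev (nat_lit 79229376199415981933382860802) (nat_lit 2)) .nil)) (.cons (.rf (nat_lit 587) (nat_lit 493784068611176072352)) (.cons (.br (nat_lit 1) (nat_lit 1) (.cons (.ev (nat_lit 20679169405169355638847152783620) (nat_lit 3)) .nil)) .nil)))) .nil)))))) .nil)) .nil)) .nil)))]

theorem c23 : chkAll C T R L23 (nat_lit 633) = true := by decide +kernel

theorem l23 : (nat_lit 633) + L23.length = (nat_lit 663) := by decide +kernel

/-- part of the certificates -/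
def L24 : List Prf := [(.br (nat_lit 5) (nat_lit 1) (.cons (.br (nat_lit 12) (nat_lit 1) (.cons (.ev (nat_lit 20837628129196805856683012587780) (nat_lit 3)) .nil)) (.cons (.ev (nat_lit 79229376162450436191892275201) (nat_lit 1)) (.cons (.br (nat_lit 12) (nat_lit 1) (.cons (.ev (nat_lit 20837628129196805856674321989892) (nat_lit 3)) .nil)) .nil)))),
 (.br (nat_lit 13) (nat_lit 1) (.cons (.ev (nat_lit 1208944338698871427366913) (nat_lit 1)) .nil)),
 (.br (nat_lit 12) (nat_lit 1) (.cons (.ev (nat_lit 79228167255077565636427120641) (nat_lit 1)) (.cons (.rf (nat_lit 664) (nat_lit 493858305440481383456)) (.cons (.br (nat_lit 2) (nat_lit 1) (.cons (.ev (nat_lit 79229376199415981933382860802) (nat_lit 2)) .nil)) .nil)))),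
 (.br (nat_lit 1) (nat_lit 1) (.cons (.rf (nat_lit 665) (nat_lit 493858305440481383456)) (.cons (.br (nat_lit 2) (nat_lit 1) (.cons (.ev (nat_lit 79229376199415980833871298562) (nat_lit 2)) .nil)) (.cons (.ev (nat_lit 20282409608392555991059132317953) (nat_lit 1)) .nil)))),
 (.br (nat_lit 9) (nat_lit 1) (.cons (.rf (nat_lit 662) (nat_lit 493858305440481383456)) (.cons (.br (nat_lit 13) (nat_lit 0) (.cons (.br (nat_lit 11) (nat_lit 1) (.cons (.br (nat_lit 7) (nat_lit 1) (.cons (.br (nat_lit 2) (nat_lit 1) (.cons (.br (nat_lit 12) (nat_lit 1) (.cons (.ev (nat_lit 20679171822984101379958083092740) (nat_lit 3)) .nil)) (.cons (.ev (nat_lit 79230585106789414343534510082) (nat_lit 2)) (.cons (.br (nat_lit 12) (nat_lit 1) (.cons (.ev (nat_lit 20996089327634481269938359566600) (nat_lit 4)) .nil)) .nil)))) (.cons (.br (nat_lit 12) (nat_lit 1) (.cons (.br (nat_lit 13) (nat_lit 1) (.cons (.ev (nat_lit 20837628129196805856674321989892) (nat_lit 3)) .nil)) (.cons (.ev (nat_lit 1213648258156196681285633) (nat_lit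 1)) (.cons (.br (nat_lit 5) (nat_lit 1) (.cons (.ev (nat_lit 20837628129196805856683012587780) (nat_lit 3)) .nil)) .nil)))) (.cons (.ev (nat_lit 1208944338416296922185729) (nat_lit 1)) (.cons (.br (nat_lit 5) (nat_lit 1) (.cons (.ev (nat_lit 79229371458530697395956613121) (nat_lit 1)) (.cons (.kr (nat_lit 79228162514264338693055578112) (nat_lit 72339069014638592) (nat_lit 5) (nat_lit 0)) (.cons (.ev (nat_lit 79229371458530697400234803201) (nat_lit 1)) .nil)))) (.cons (.br (nat_lit 2) (nat_lit 1) (.cons (.br (nat_lit 5) (nat_lit 1) (.cons (.ev (nat_lit 20996089327634481269981141467400) (nat_lit 4)) .nil)) (.cons (.br (nat_lit 12) (nat_lit 1) (.cons (.ev (nat_lit 20679171822984101379958083092740) (nat_lit 3)) .nil)) (.cons (.ev (nat_lit 79230585106789414339256320002) (nat_lit 2)) .nil)))) .nil)))))) .nil)) (.cons (.br (nat_lit 5) (nat_lit 0) (.cons (.br (nat_lit 7) (nat_lit 1) (.cons (.ev (nat_lit 1208944338416301233930241) (nat_lit 1)) (.cons (.rf (nat_lit 663) (nat_lit 493858305440582043680)) (.cons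 (.rf (nat_lit 663) (nat_lit 493858305440481383456)) (.cons (.br (nat_lit 1) (nat_lit 1) (.cons (.rf (nat_lit 664) (nat_lit 493858305440582043680)) (.cons (.rf (nat_lit 664) (nat_lit 493858305440481383456)) (.cons (.ev (nat_lit 20837628129196806418524863987972) (nat_lit 3)) .nil)))) (.cons (.ev (nat_lit 1208944338416296922185729) (nat_lit 1)) .nil)))))) .nil)) .nil))) (.cons (.br (nat_lit 12) (nat_lit 0) (.cons (.br (nat_lit 5) (nat_lit 0) (.cons (.br (nat_lit 2) (nat_lit 1) (.cons (.br (nat_lit 13) (nat_lit 1) (.cons (.zr (nat_lit 618970038089715694725759744) (nat_lit 40564820420951526945393339400193) (nat_lit 5) (nat_lit 3)) (.cons (.ev (nat_lit 20282409608392555989959620755713) (nat_lit 1)) (.cons (.ev (nat_lit 20361638979814121140518886834433) (nat_lit 1)) .nil)))) (.cons (.br (nat_lit 12) (nat_lit 1) (.cons (.ev (nat_lit 79228167255077565636427120641) (nat_lit 1)) (.cons (.ev (nat_lit 79228162514264337593560793089) (nat_lit 1)) (.cons (.ev (nat_lit 79228167255077565640705310721) (nat_lit 1))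 .nil)))) (.cons (.ev (nat_lit 1208944338697776193863681) (nat_lit 1)) (.cons (.br (nat_lit 5) (nat_lit 1) (.cons (.ev (nat_lit 79228167255077565636427120641) (nat_lit 1)) (.cons (.zr (nat_lit 237993972589507849295310618624) (nat_lit 1213648330494166184230913) (nat_lit 5) (nat_lit 10)) (.cons (.ev (nat_lit 79228167255077565640705310721) (nat_lit 1)) .nil)))) (.cons (.br (nat_lit 1) (nat_lit 1) (.cons (.zr (nat_lit 60847847780974653961979237171968) (nat_lit 1213721974199697859936257) (nat_lit 5) (nat_lit 0)) (.cons (.ev (nat_lit 20282409608392555989959620755713) (nat_lit 1)) (.cons (.ev (nat_lit 20361638979814121140514608644353) (nat_lit 1)) .nil)))) .nil)))))) .nil)) (.cons (.br (nat_lit 5) (nat_lit 0) (.cons (.br (nat_lit 5) (nat_lit 1) (.cons (.rf (nat_lit 665) (nat_lit 493858305440582043680)) (.cons (.kr (nat_lit 65536) (nat_lit 1099511627776) (nat_lit 2) (nat_lit 0)) (.cons (.rf (nat_lit 666) (nat_lit 493858305440582043680)) (.cons (.ev (nat_lit 79228167255077847111387054081) (nat_lit 1)) (.cons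 (.br (nat_lit 2) (nat_lit 1) (.cons (.rf (nat_lit 665) (nat_lit 493858305440481383456)) (.cons (.rf (nat_lit 666) (nat_lit 493858305440481383456)) (.cons (.ev (nat_lit 79228167255077565640705310721) (nat_lit 1)) .nil)))) .nil)))))) .nil)) .nil))) .nil)))),
 (.br (nat_lit 7) (nat_lit 0) (.cons (.br (nat_lit 5) (nat_lit 0) (.cons (.rf (nat_lit 659) (nat_lit 493858305440582043680)) (.cons (.rf (nat_lit 659) (nat_lit 493857214725047289888)) (.cons (.br (nat_lit 2) (nat_lit 0) (.cons (.rf (nat_lit 659) (nat_lit 493858305440481383456)) (.cons (.rf (nat_lit 659) (nat_lit 493857214724946629664)) (.cons (.br (nat_lit 12) (nat_lit 0) (.cons (.rf (nat_lit 661) (nat_lit 493858305440582043680)) (.cons (.rf (nat_lit 661) (nat_lit 493857214725047289888)) .nil))) .nil)))) .nil)))) (.cons (.br (nat_lit 2) (nat_lit 0) (.cons (.rf (nat_lit 662) (nat_lit 493858305440582043680)) (.cons (.rf (nat_lit 667) (nat_lit 493858305440582043680)) (.cons (.br (nat_lit 5) (nat_lit 0) (.cons (.rf (nat_lit 662) (nat_lit 493858305440481383456))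 (.cons (.rf (nat_lit 667) (nat_lit 493858305440481383456)) .nil))) .nil)))) .nil))),
 (.br (nat_lit 7) (nat_lit 0) (.cons (.rf (nat_lit 668) (nat_lit 493858305440582043680)) (.cons (.rf (nat_lit 668) (nat_lit 493857214725047289888)) (.cons (.br (nat_lit 7) (nat_lit 0) (.cons (.rf (nat_lit 668) (nat_lit 493858305440582043680)) (.cons (.rf (nat_lit 668) (nat_lit 493857214725047289888)) .nil))) .nil)))),
 (.br (nat_lit 12) (nat_lit 1) (.cons (.br (nat_lit 5) (nat_lit 1) (.cons (.ev (nat_lit 79229371458530697395956613121) (nat_lit 1)) .nil)) (.cons (.ev (nat_lit 79541283783243041341960224770) (nat_lit 2)) (.cons (.rf (nat_lit 559) (nat_lit 493820096137923861664)) .nil)))),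
 (.br (nat_lit 1) (nat_lit 1) (.cons (.kr (nat_lit 4722366482869662056448) (nat_lit 1208925819615732981301248) (nat_lit 2) (nat_lit 0)) .nil)),
 (.br (nat_lit 12) (nat_lit 1) (.cons (.rf (nat_lit 86) (nat_lit 347439347867004965920)) (.cons (.ev (nat_lit 79228162514264337593560793089) (nat_lit 1)) (.cons (.rf (nat_lit 87) (nat_lit 347439347867004965920)) .nil)))),
 (.br (nat_lit 2) (nat_lit 0) (.cons (.br (nat_lit 7) (nat_lit 0) (.cons (.br (nat_lit 12) (nat_lit 0) (.cons (.br (nat_lit 7) (nat_lit 1) (.cons (.ev (nat_lit 309485028340428211465748481) (nat_lit 1)) (.cons (.rf (nat_lit 670) (nat_lit 493858305440582043680)) (.cons (.rf (nat_lit 670) (nat_lit 493857214724946629664)) (.cons (.br (nat_lit 13) (nat_lit 1) (.cons (.ev (nat_lit 20361948464842388948182049489153) (nat_lit 1)) (.cons (.rf (nat_lit 671) (nat_lit 493858305440582043680)) (.cons (.rf (nat_lit 671) (nat_lit 493857214724946629664)) .nil)))) (.cons (.ev (nat_lit 309485028340428215743938561) (nat_lit 1)) .nil)))))) .nil)) .nil)) (.cons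 (.br (nat_lit 10) (nat_lit 1) (.cons (.br (nat_lit 11) (nat_lit 1) (.cons (.br (nat_lit 2) (nat_lit 1) (.cons (.br (nat_lit 7) (nat_lit 1) (.cons (.br (nat_lit 12) (nat_lit 1) (.cons (.zr (nat_lit 237684487579902673718754869248) (nat_lit 314325435466567930112638977) (nat_lit 5) (nat_lit 0)) .nil)) (.cons (.ev (nat_lit 309489732259885536719667201) (nat_lit 1)) (.cons (.br (nat_lit 5) (nat_lit 1) (.cons (.zr (nat_lit 237684487579902673718754869248) (nat_lit 314325435466567930112638977) (nat_lit 5) (nat_lit 0)) .nil)) .nil)))) (.cons (.kr (nat_lit 18446744078004584448) (nat_lit 1208925819615728703111168) (nat_lit 2) (nat_lit 0)) (.cons (.rf (nat_lit 672) (nat_lit 493858305440582043680)) (.cons (.br (nat_lit 5) (nat_lit 1) (.cons (.rf (nat_lit 86) (nat_lit 384044607801803349056)) (.cons (.ev (nat_lit 79229371458530697400234803201) (nat_lit 1)) (.cons (.rf (nat_lit 88) (nat_lit 347439347867004965920)) .nil)))) (.cons (.br (nat_lit 7) (nat_lit 1) (.cons (.br (nat_lit 12) (nat_lit 1) (.cons (.zr (nat_lit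 237685696505506115557242634240) (nat_lit 309489732332224614307463169) (nat_lit 5) (nat_lit 11)) .nil)) (.cons (.br (nat_lit 12) (nat_lit 1) (.cons (.zr (nat_lit 237684487579902673718754869248) (nat_lit 314325435466567930112638977) (nat_lit 5) (nat_lit 0)) .nil)) (.cons (.ev (nat_lit 309489732259885536719667201) (nat_lit 1)) .nil)))) .nil)))))) .nil)) (.cons (.br (nat_lit 7) (nat_lit 0) (.cons (.br (nat_lit 5) (nat_lit 1) (.cons (.br (nat_lit 12) (nat_lit 1) (.cons (.rf (nat_lit 3) (nat_lit 383248591066782602464)) (.cons (.ev (nat_lit 79229376162450717666852208641) (nat_lit 1)) (.cons (.rf (nat_lit 265) (nat_lit 493817600252098909216)) .nil)))) (.cons (.br (nat_lit 13) (nat_lit 1) (.cons (.ev (nat_lit 20282720302328124610588555936002) (nat_lit 2)) (.cons (.rf (nat_lit 1) (nat_lit 383248591066782602464)) (.cons (.rf (nat_lit 13) (nat_lit 346356228819270341856)) .nil)))) (.cons (.ev (nat_lit 309485028340146736472260609) (nat_lit 1)) (.cons (.br (nat_lit 2) (nat_lit 1) (.cons (.br (nat_lit 13) (nat_lit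 1) (.cons (.ev (nat_lit 20838244681364811013017632309508) (nat_lit 3)) .nil)) (.cons (.ev (nat_lit 310693935713018395760852993) (nat_lit 1)) (.cons (.br (nat_lit 7) (nat_lit 1) (.cons (.ev (nat_lit 20838244681364811013026188689668) (nat_lit 3)) .nil)) .nil)))) (.cons (.br (nat_lit 7) (nat_lit 1) (.cons (.rf (nat_lit 39) (nat_lit 491581733454776374496)) (.cons (.rf (nat_lit 0) (nat_lit 384358735111751304256)) (.cons (.ev (nat_lit 79229376162450717671163953153) (nat_lit 1)) .nil)))) .nil)))))) .nil)) .nil))) .nil))),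
 (.br (nat_lit 5) (nat_lit 1) (.cons (.rf (nat_lit 188) (nat_lit 458117557309502916832)) (.cons (.ev (nat_lit 79228167255077565640705310721) (nat_lit 1)) (.cons (.rf (nat_lit 82) (nat_lit 421190295363750466592)) .nil)))),
 (.br (nat_lit 12) (nat_lit 0) (.cons (.br (nat_lit 12) (nat_lit 1) (.cons (.rf (nat_lit 613) (nat_lit 493850460218959595744)) (.cons (.rf (nat_lit 674) (nat_lit 493858305440582043680)) (.cons (.rf (nat_lit 674) (nat_lit 493858305440481383456)) (.cons (.ev (nat_lit 310693935713017296249159681) (nat_lit 1)) (.cons (.rf (nat_lit 640) (nat_lit 458046836790452815904)) .nil)))))) .nil)),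
 (.br (nat_lit 5) (nat_lit 0) (.cons (.rf (nat_lit 673) (nat_lit 493858305440582043680)) (.cons (.rf (nat_lit 673) (nat_lit 493857214725047289888)) (.cons (.br (nat_lit 2) (nat_lit 0) (.cons (.rf (nat_lit 673) (nat_lit 493858305440481383456)) (.cons (.rf (nat_lit 673) (nat_lit 493857214724946629664)) (.cons (.br (nat_lit 7) (nat_lit 0) (.cons (.rf (nat_lit 675) (nat_lit 493858305440582043680)) (.cons (.rf (nat_lit 675) (nat_lit 493857214725047289888)) .nil))) .nil)))) .nil)))),
 (.br (nat_lit 12) (nat_lit 1) (.cons (.rf (nat_lit 36) (nat_lit 483511321379695959200)) (.cons (.ev (nat_lit 79228162514264337593560793089) (nat_lit 1)) (.cons (.rf (nat_lit 153) (nat_lit 457829335595258944672)) .nil)))),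
 (.br (nat_lit 12) (nat_lit 0) (.cons (.br (nat_lit 11) (nat_lit 1) (.cons (.br (nat_lit 7) (nat_lit 1) (.cons (.br (nat_lit 12) (nat_lit 1) (.cons (.zr (nat_lit 237684487579902673718754869248) (nat_lit 1239153687471759248762863617) (nat_lit 5) (nat_lit 0)) (.cons (.br (nat_lit 2) (nat_lit 1) (.cons (.ev (nat_lit 311912361678451529346121730) (nat_lit 2)) .nil)) (.cons (.rf (nat_lit 153) (nat_lit 458117557209641786528)) .nil)))) (.cons (.rf (nat_lit 677) (nat_lit 493858305440582043680)) (.cons (.br (nat_lit 12) (nat_lit 1) (.cons (.br (nat_lit 2) (nat_lit 1) (.cons (.ev (nat_lit 20837630565974805068508725444868) (nat_lit 3)) .nil)) (.cons (.ev (nat_lit 79537647542532709310466621441) (nat_lit 1)) (.cons (.br (nat_lit 1) (nat_lit 1) (.cons (.ev (nat_lit 20837630565974805068508725444868) (nat_lit 3)) .nil)) .nil)))) (.cons (.ev (nat_lit 1213648258436567851335681) (nat_lit 1)) (.cons (.br (nat_lit 2) (nat_lit 1) (.cons (.br (nat_lit 5) (nat_lit 1) (.cons (.ev (nat_lit 311912361678451533624311810) (nat_lit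 2)) .nil)) (.cons (.rf (nat_lit 45) (nat_lit 484670751993139240096)) (.cons (.zr (nat_lit 237684487579902673710164934656) (nat_lit 1239153687471759253007499265) (nat_lit 5) (nat_lit 0)) .nil)))) .nil)))))) .nil)) .nil)),
 (.br (nat_lit 7) (nat_lit 1) (.cons (.rf (nat_lit 500) (nat_lit 493851516883858396384)) (.cons (.rf (nat_lit 500) (nat_lit 493851516986937608416)) (.cons (.kr (nat_lit 20282409603651670423947251286272) (nat_lit 79228162514336395187581878272) (nat_lit 1) (nat_lit 0)) .nil)))),
 (.br (nat_lit 13) (nat_lit 1) (.cons (.kr (nat_lit 20282409603651670423947251351808) (nat_lit 79228162514336396287093506048) (nat_lit 1) (nat_lit 0)) .nil)),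
 (.br (nat_lit 5) (nat_lit 1) (.cons (.rf (nat_lit 680) (nat_lit 493858305440582043680)) (.cons (.ev (nat_lit 79537647542532709310466621441) (nat_lit 1)) (.cons (.rf (nat_lit 503) (nat_lit 458111018514053695520)) .nil)))),
 (.br (nat_lit 7) (nat_lit 1) (.cons (.kr (nat_lit 20282409603651670425046762914048) (nat_lit 79228162514336395187581943808) (nat_lit 1) (nat_lit 0)) .nil)),
 (.br (nat_lit 2) (nat_lit 1) (.cons (.rf (nat_lit 682) (nat_lit 493858305440582043680)) (.cons (.kr (nat_lit 65536) (nat_lit 1099511627776) (nat_lit 2) (nat_lit 0)) (.cons (.rf (nat_lit 682) (nat_lit 458115277884588591328)) .nil)))),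
 (.br (nat_lit 10) (nat_lit 1) (.cons (.br (nat_lit 12) (nat_lit 0) (.cons (.br (nat_lit 5) (nat_lit 1) (.cons (.br (nat_lit 7) (nat_lit 1) (.cons (.rf (nat_lit 35) (nat_lit 453571314296311448640)) (.cons (.ev (nat_lit 79537652246452166635720540161) (nat_lit 1)) (.cons (.rf (nat_lit 36) (nat_lit 453571314296311448640)) .nil)))) (.cons (.br (nat_lit 1) (nat_lit 1) (.cons (.rf (nat_lit 35) (nat_lit 454724235731187106880)) (.cons (.rf (nat_lit 45) (nat_lit 447811245557276673088)) (.cons (.ev (nat_lit 20282720302328124610588555936002) (nat_lit 2)) .nil)))) (.cons (.ev (nat_lit 1208944338697776193863681) (nat_lit 1)) (.cons (.br (nat_lit 13) (nat_lit 1) (.cons (.ev (nat_lit 20361638979814121140514608644353) (nat_lit 1)) (.cons (.br (nat_lit 7) (nat_lit 1) (.cons (.ev (nat_lit 20837011577028802965350901678340) (nat_lit 3)) .nil)) (.cons (.br (nat_lit 1) (nat_lit 1) (.cons (.ev (nat_lit 20837011577028802965342345298180) (nat_lit 3)) .nil)) .nil)))) (.cons (.br (nat_lit 12) (nat_lit 1) (.cons (.rf (nat_lit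 46) (nat_lit 447811245557276673088)) (.cons (.rf (nat_lit 250) (nat_lit 458009474213793334496)) (.cons (.ev (nat_lit 79537652246452166631442350081) (nat_lit 1)) .nil)))) .nil)))))) .nil)) (.cons (.br (nat_lit 8) (nat_lit 1) (.cons (.br (nat_lit 5) (nat_lit 1) (.cons (.br (nat_lit 12) (nat_lit 1) (.cons (.rf (nat_lit 1) (nat_lit 384358735180408751168)) (.cons (.ev (nat_lit 79537652246452166635720540161) (nat_lit 1)) (.cons (.zr (nat_lit 60847847780974653965277738304256) (nat_lit 1213721973355272946581505) (nat_lit 5) (nat_lit 0)) .nil)))) (.cons (.br (nat_lit 13) (nat_lit 1) (.cons (.ev (nat_lit 20282720302328124610588555936002) (nat_lit 2)) (.cons (.zr (nat_lit 2422574078335970554413056) (nat_lit 309485028268089159614398465) (nat_lit 5) (nat_lit 8)) (.cons (.zr (nat_lit 79229380884817202735554232320) (nat_lit 309485028268089159614332929) (nat_lit 5) (nat_lit 8)) .nil)))) (.cons (.ev (nat_lit 1208944338697776193863681) (nat_lit 1)) (.cons (.br (nat_lit 2) (nat_lit 1) (.cons (.br (nat_lit 7) (nat_lit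 1) (.cons (.ev (nat_lit 20282413235225427131363271770372) (nat_lit 3)) .nil)) (.cons (.ev (nat_lit 310693935713018395760852993) (nat_lit 1)) (.cons (.br (nat_lit 1) (nat_lit 1) (.cons (.ev (nat_lit 20282413235225427131363271770372) (nat_lit 3)) .nil)) .nil)))) (.cons (.br (nat_lit 12) (nat_lit 1) (.cons (.zr (nat_lit 618970038089437514022518784) (nat_lit 40564820420951527226868299203073) (nat_lit 5) (nat_lit 6)) (.cons (.rf (nat_lit 276) (nat_lit 493787406557852736544)) (.cons (.ev (nat_lit 79537652246452166631442350081) (nat_lit 1)) .nil)))) .nil)))))) .nil)) .nil))),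
 (.br (nat_lit 13) (nat_lit 1) (.cons (.ev (nat_lit 79537647542532708215266803713) (nat_lit 1)) (.cons (.ev (nat_lit 79228167255077565636427120641) (nat_lit 1)) (.cons (.ev (nat_lit 1208944338416296922185729) (nat_lit 1)) .nil)))),
 (.br (nat_lit 5) (nat_lit 0) (.cons (.br (nat_lit 7) (nat_lit 1) (.cons (.ev (nat_lit 1208944338416301233930241) (nat_lit 1)) (.cons (.br (nat_lit 12) (nat_lit 1) (.cons (.rf (nat_lit 685) (nat_lit 493858305440582043680)) (.cons (.br (nat_lit 13) (nat_lit 1) (.cons (.ev (nat_lit 20837011586436641873387093164292) (nat_lit 3)) .nil)) (.cons (.rf (nat_lit 559) (nat_lit 493784068612215212192)) .nil)))) (.cons (.br (nat_lit 12) (nat_lit 1) (.cons (.rf (nat_lit 685) (nat_lit 493858305440582043680)) (.cons (.zr (nat_lit 309485046931287481824313344) (nat_lit 158457538676714774884947853313) (nat_lit 5) (nat_lit 9)) (.cons (.br (nat_lit 1) (nat_lit 1) (.cons (.ev (nat_lit 79537647542532708215266803713) (nat_lit 1)) .nil)) .nil)))) (.cons (.br (nat_lit 5) (nat_lit 1) (.cons (.zr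 (nat_lit 237684487579902677017289555968) (nat_lit 1239153687471759248762863617) (nat_lit 5) (nat_lit 0)) (.cons (.ev (nat_lit 310698676526245334803873793) (nat_lit 1)) (.cons (.zr (nat_lit 237993972589507849295310618624) (nat_lit 1213648330494166184230913) (nat_lit 5) (nat_lit 10)) .nil)))) (.cons (.ev (nat_lit 1208944338416296922185729) (nat_lit 1)) .nil)))))) .nil))]

theorem c24 : chkAll C T R L24 (nat_lit 663) = true := by decide +kernel

theorem l24 : (nat_lit 663) + L24.length = (nat_lit 687) := by decide +kernel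

/-- part of the certificates -/
def L25 : List Prf := [(.br (nat_lit 7) (nat_lit 0) (.cons (.rf (nat_lit 676) (nat_lit 493858305440582043680)) (.cons (.br (nat_lit 5) (nat_lit 0) (.cons (.rf (nat_lit 678) (nat_lit 493858305440582043680)) (.cons (.br (nat_lit 2) (nat_lit 0) (.cons (.rf (nat_lit 678) (nat_lit 493858305440481383456)) (.cons (.br (nat_lit 8) (nat_lit 1) (.cons (.br (nat_lit 12) (nat_lit 1) (.cons (.rf (nat_lit 679) (nat_lit 493858305440582043680)) (.cons (.rf (nat_lit 681) (nat_lit 493858305440582043680)) (.cons (.rf (nat_lit 681) (nat_lit 493858305440481383456)) (.cons (.ev (nat_lit 1213648258436567851335681) (nat_lit 1)) (.cons (.rf (nat_lit 683) (nat_lit 493858305440582043680)) .nil)))))) .nil)) .nil))) .nil))) (.cons (.br (nat_lit 11) (nat_lit 1) (.cons (.rf (nat_lit 684) (nat_lit 493858305440582043680)) (.cons (.rf (nat_lit 684) (nat_lit 493858305440481383456)) (.cons (.br (nat_lit 8) (nat_lit 1) (.cons (.rf (nat_lit 686) (nat_lit 493858305440582043680)) (.cons (.rf (nat_lit 686)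 (nat_lit 493858305440481383456)) .nil))) .nil)))) .nil)))),
 (.br (nat_lit 11) (nat_lit 1) (.cons (.br (nat_lit 2) (nat_lit 1) (.cons (.br (nat_lit 12) (nat_lit 1) (.cons (.rf (nat_lit 3) (nat_lit 346357354719277811936)) (.cons (.ev (nat_lit 79229371458530696296445050881) (nat_lit 1)) (.cons (.rf (nat_lit 265) (nat_lit 493781570460795013152)) .nil)))) (.cons (.br (nat_lit 13) (nat_lit 1) (.cons (.ev (nat_lit 20282720302328124611688067498242) (nat_lit 2)) (.cons (.rf (nat_lit 1) (nat_lit 346357354719277811936)) (.cons (.rf (nat_lit 13) (nat_lit 420142079214302333152)) .nil)))) (.cons (.ev (nat_lit 309489732260167007401410561) (nat_lit 1)) (.cons (.br (nat_lit 13) (nat_lit 1) (.cons (.ev (nat_lit 20361947251194203132162501247233) (nat_lit 1)) (.cons (.br (nat_lit 1) (nat_lit 1) (.cons (.ev (nat_lit 20838244700180488835712888013060) (nat_lit 3)) .nil)) (.cons (.br (nat_lit 1) (nat_lit 1) (.cons (.ev (nat_lit 20838244700180488835704331632900) (nat_lit 3)) .nil)) .nil)))) (.cons (.br (nat_lit 7) (nat_lit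 1) (.cons (.rf (nat_lit 39) (nat_lit 490428882421991868640)) (.cons (.rf (nat_lit 0) (nat_lit 347465249060276208800)) (.cons (.ev (nat_lit 79229371458530696300723240961) (nat_lit 1)) .nil)))) .nil)))))) .nil)),
 (.br (nat_lit 5) (nat_lit 1) (.cons (.rf (nat_lit 188) (nat_lit 458080402612579207392)) (.cons (.ev (nat_lit 79229376162450717671163953153) (nat_lit 1)) (.cons (.rf (nat_lit 82) (nat_lit 384260778421459883040)) .nil)))),
 (.br (nat_lit 13) (nat_lit 1) (.cons (.ev (nat_lit 79228167255077565636427120641) (nat_lit 1)) .nil)),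
 (.br (nat_lit 12) (nat_lit 1) (.cons (.ev (nat_lit 79229376162450716567340646401) (nat_lit 1)) .nil)),
 (.br (nat_lit 1) (nat_lit 1) (.cons (.ev (nat_lit 79229376162450716567340646401) (nat_lit 1)) .nil)),
 (.br (nat_lit 7) (nat_lit 0) (.cons (.br (nat_lit 5) (nat_lit 0) (.cons (.br (nat_lit 7) (nat_lit 1) (.cons (.ev (nat_lit 309489732259885532407922689) (nat_lit 1)) (.cons (.br (nat_lit 1) (nat_lit 1) (.cons (.rf (nat_lit 690) (nat_lit 493858305440582043680)) (.cons (.rf (nat_lit 561) (nat_lit 493784068611178103968)) (.cons (.br (nat_lit 12) (nat_lit 1) (.cons (.ev (nat_lit 20838244690772648795145293463812) (nat_lit 3)) .nil)) .nil)))) (.cons (.br (nat_lit 2) (nat_lit 1) (.cons (.rf (nat_lit 691) (nat_lit 493858305440582043680)) (.cons (.zr (nat_lit 1218370769034625589182464) (nat_lit 158765810056796766532840456193) (nat_lit 5) (nat_lit 8)) (.cons (.rf (nat_lit 692) (nat_lit 493858305440582043680)) .nil)))) (.cons (.br (nat_lit 5) (nat_lit 1) (.cons (.zr (nat_lit 237685705913345596447631867904)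 (nat_lit 309485028412485809798643713) (nat_lit 5) (nat_lit 11)) (.cons (.ev (nat_lit 310698676526245334803873793) (nat_lit 1)) (.cons (.zr (nat_lit 237684496987742154600604499968) (nat_lit 314320731546829151289737217) (nat_lit 5) (nat_lit 0)) .nil)))) (.cons (.ev (nat_lit 309489732259885536719667201) (nat_lit 1)) .nil)))))) .nil)) (.cons (.br (nat_lit 10) (nat_lit 1) (.cons (.br (nat_lit 7) (nat_lit 1) (.cons (.br (nat_lit 12) (nat_lit 1) (.cons (.br (nat_lit 13) (nat_lit 1) (.cons (.ev (nat_lit 620193149599922959576793090) (nat_lit 2)) .nil)) (.cons (.zr (nat_lit 237684496987742154600570945536) (nat_lit 314320731546829138421612545) (nat_lit 5) (nat_lit 0)) (.cons (.rf (nat_lit 180) (nat_lit 493779530861356779552)) .nil)))) (.cons (.br (nat_lit 12) (nat_lit 1) (.cons (.br (nat_lit 13) (nat_lit 1) (.cons (.ev (nat_lit 20838247127550648013602435432708) (nat_lit 3)) .nil)) (.cons (.ev (nat_lit 79229376162450716571652390913) (nat_lit 1)) (.cons (.br (nat_lit 5) (nat_lit 1) (.cons (.ev (nat_lit 20838247127550648013602435432708)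 (nat_lit 3)) .nil)) .nil)))) (.cons (.rf (nat_lit 672) (nat_lit 493823402543369262112)) (.cons (.ev (nat_lit 309485028340428215743938561) (nat_lit 1)) (.cons (.br (nat_lit 1) (nat_lit 1) (.cons (.zr (nat_lit 60847231228806650501108693402368) (nat_lit 309503917734302096059006977) (nat_lit 5) (nat_lit 0)) (.cons (.br (nat_lit 2) (nat_lit 1) (.cons (.ev (nat_lit 620193149599922963854983170) (nat_lit 2)) .nil)) (.cons (.rf (nat_lit 88) (nat_lit 124926625748551402560)) .nil)))) .nil)))))) .nil)) .nil))),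
 (.br (nat_lit 11) (nat_lit 1) (.cons (.br (nat_lit 5) (nat_lit 1) (.cons (.br (nat_lit 12) (nat_lit 1) (.cons (.br (nat_lit 7) (nat_lit 1) (.cons (.zr (nat_lit 237684497005972725896461680640) (nat_lit 310693935785356361002385409) (nat_lit 5) (nat_lit 10)) .nil)) (.cons (.ev (nat_lit 310693935713017296249159681) (nat_lit 1)) (.cons (.br (nat_lit 2) (nat_lit 1) (.cons (.zr (nat_lit 237684496987742154600604499968) (nat_lit 310694009428217484894273537) (nat_lit 5) (nat_lit 0)) .nil)) .nil)))) (.cons (.kr (nat_lit 18446744078004584448) (nat_lit 4722366483969173618688) (nat_lit 2) (nat_lit 0)) (.cons (.rf (nat_lit 672) (nat_lit 493821221112299754528)) (.cons (.br (nat_lit 2) (nat_lit 1) (.cons (.rf (nat_lit 86) (nat_lit 347151119656430017696)) (.cons (.ev (nat_lit 79228167255077564541193748481) (nat_lit 1)) (.cons (.rf (nat_lit 88) (nat_lit 421190295466829678624)) .nil)))) (.cons (.br (nat_lit 12) (nat_lit 1) (.cons (.br (nat_lit 7) (nat_lit 1) (.cons (.zr (nat_lit 237684496987742154600604499968) (nat_lit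 310694009428217484894273537) (nat_lit 5) (nat_lit 0)) .nil)) (.cons (.br (nat_lit 1) (nat_lit 1) (.cons (.zr (nat_lit 237684496987742154600604499968) (nat_lit 310694009428217484894273537) (nat_lit 5) (nat_lit 0)) .nil)) (.cons (.ev (nat_lit 310693935713017296249159681) (nat_lit 1)) .nil)))) .nil)))))) .nil)),
 (.br (nat_lit 5) (nat_lit 1) (.cons (.rf (nat_lit 188) (nat_lit 458082654412390795488)) (.cons (.ev (nat_lit 79228167255077565640705310721) (nat_lit 1)) (.cons (.rf (nat_lit 82) (nat_lit 384332836013350327328)) .nil)))),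
 (.br (nat_lit 12) (nat_lit 1) (.cons (.kr (nat_lit 79228162532711082766765129728) (nat_lit 309485009893684137739419648) (nat_lit 5) (nat_lit 0)) .nil)),
 (.br (nat_lit 10) (nat_lit 1) (.cons (.br (nat_lit 7) (nat_lit 1) (.cons (.br (nat_lit 13) (nat_lit 1) (.cons (.rf (nat_lit 39) (nat_lit 492734655062461384928)) (.cons (.rf (nat_lit 696) (nat_lit 493858305440582043680)) (.cons (.zr (nat_lit 159075295066618672348200436480) (nat_lit 40564820420951671060585710092289) (nat_lit 5) (nat_lit 3)) .nil)))) (.cons (.ev (nat_lit 309489732260167007401410561) (nat_lit 1)) (.cons (.br (nat_lit 2) (nat_lit 1) (.cons (.kr (nat_lit 1208925819614633469739008) (nat_lit 4722366483969173618688) (nat_lit 2) (nat_lit 0)) (.cons (.ev (nat_lit 310693935713018395760852993) (nat_lit 1)) (.cons (.kr (nat_lit 1208925819614629174771712) (nat_lit 4722366483969156841472) (nat_lit 2) (nat_lit 0)) .nil)))) (.cons (.br (nat_lit 2) (nat_lit 1) (.cons (.ev (nat_lit 79229371458530696296445050881) (nat_lit 1)) (.cons (.ev (nat_lit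 79541288487163341975469621250) (nat_lit 2)) (.cons (.ev (nat_lit 79229371458530696300723240961) (nat_lit 1)) .nil)))) (.cons (.br (nat_lit 1) (nat_lit 1) (.cons (.rf (nat_lit 3) (nat_lit 421252223156091159712)) (.cons (.br (nat_lit 2) (nat_lit 1) (.cons (.ev (nat_lit 20283338077589191533593562120452) (nat_lit 3)) .nil)) (.cons (.zr (nat_lit 60847847780993101269002866393856) (nat_lit 237685701191123225476117561345) (nat_lit 5) (nat_lit 9)) .nil)))) .nil)))))) .nil)),
 (.br (nat_lit 12) (nat_lit 0) (.cons (.br (nat_lit 7) (nat_lit 0) (.cons (.br (nat_lit 5) (nat_lit 0) (.cons (.rf (nat_lit 688) (nat_lit 493858305440582043680)) (.cons (.br (nat_lit 2) (nat_lit 0) (.cons (.rf (nat_lit 688) (nat_lit 493858305440481383456)) .nil)) .nil))) (.cons (.br (nat_lit 5) (nat_lit 0) (.cons (.br (nat_lit 2) (nat_lit 0) (.cons (.br (nat_lit 12) (nat_lit 1) (.cons (.rf (nat_lit 613) (nat_lit 493814398436591798496)) (.cons (.rf (nat_lit 689) (nat_lit 493858305440582043680)) (.cons (.rf (nat_lit 689) (nat_lit 493858305440481383456))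 (.cons (.ev (nat_lit 309485028340428215743938561) (nat_lit 1)) (.cons (.rf (nat_lit 640) (nat_lit 458117733300211812384)) .nil)))))) .nil)) .nil)) .nil))) (.cons (.br (nat_lit 9) (nat_lit 1) (.cons (.rf (nat_lit 693) (nat_lit 493858305440582043680)) (.cons (.rf (nat_lit 693) (nat_lit 493858305440481383456)) (.cons (.br (nat_lit 10) (nat_lit 1) (.cons (.rf (nat_lit 694) (nat_lit 493858305440481383456)) (.cons (.rf (nat_lit 694) (nat_lit 493858305440582043680)) .nil))) .nil)))) (.cons (.br (nat_lit 7) (nat_lit 0) (.cons (.br (nat_lit 5) (nat_lit 0) (.cons (.br (nat_lit 10) (nat_lit 1) (.cons (.br (nat_lit 12) (nat_lit 1) (.cons (.rf (nat_lit 613) (nat_lit 493814466606312720608)) (.cons (.rf (nat_lit 695) (nat_lit 493858305440582043680)) (.cons (.rf (nat_lit 695) (nat_lit 493858305440481383456)) (.cons (.ev (nat_lit 310693935713017296249159681) (nat_lit 1)) (.cons (.rf (nat_lit 640) (nat_lit 458045746074918062112)) .nil)))))) .nil)) .nil)) (.cons (.br (nat_lit 2) (nat_lit 0) (.cons (.rf (nat_lit 697)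 (nat_lit 493858305440582043680)) (.cons (.br (nat_lit 5) (nat_lit 0) (.cons (.rf (nat_lit 697) (nat_lit 493858305440481383456)) .nil)) .nil))) .nil))) .nil)))),
 (.br (nat_lit 5) (nat_lit 0) (.cons (.br (nat_lit 12) (nat_lit 0) (.cons (.br (nat_lit 7) (nat_lit 1) (.cons (.ev (nat_lit 1213648258436572129525761) (nat_lit 1)) (.cons (.br (nat_lit 1) (nat_lit 1) (.cons (.br (nat_lit 12) (nat_lit 1) (.cons (.ev (nat_lit 79537652246452166635720540161) (nat_lit 1)) .nil)) (.cons (.br (nat_lit 13) (nat_lit 1) (.cons (.ev (nat_lit 79537652246452166635720540161) (nat_lit 1)) .nil)) (.cons (.ev (nat_lit 20282720297624204871796898464002) (nat_lit 2)) .nil)))) (.cons (.br (nat_lit 2) (nat_lit 1) (.cons (.rf (nat_lit 690) (nat_lit 493858305371761908768)) (.cons (.ev (nat_lit 79848350959871900113699012610) (nat_lit 2)) (.cons (.br (nat_lit 1) (nat_lit 1) (.cons (.ev (nat_lit 79228167255077564536915558401) (nat_lit 1)) .nil)) .nil)))) (.cons (.br (nat_lit 13) (nat_lit 1) (.cons (.ev (nat_lit 20361948464842388948182049489153)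 (nat_lit 1)) (.cons (.br (nat_lit 1) (nat_lit 1) (.cons (.ev (nat_lit 20520094100750382966614239019268) (nat_lit 3)) .nil)) (.cons (.br (nat_lit 1) (nat_lit 1) (.cons (.ev (nat_lit 20520094100750382966639908159748) (nat_lit 3)) .nil)) .nil)))) (.cons (.ev (nat_lit 1213648258436567851335681) (nat_lit 1)) .nil)))))) .nil)) (.cons (.br (nat_lit 12) (nat_lit 0) (.cons (.br (nat_lit 7) (nat_lit 1) (.cons (.br (nat_lit 13) (nat_lit 1) (.cons (.rf (nat_lit 36) (nat_lit 455877157132714706080)) (.cons (.br (nat_lit 2) (nat_lit 1) (.cons (.ev (nat_lit 20837011595844483039837414686980) (nat_lit 3)) .nil)) (.cons (.rf (nat_lit 153) (nat_lit 493855878643469059232)) .nil)))) (.cons (.ev (nat_lit 1213648258155097169592321) (nat_lit 1)) (.cons (.br (nat_lit 12) (nat_lit 1) (.cons (.rf (nat_lit 45) (nat_lit 447811315753210414240)) (.cons (.ev (nat_lit 1208944338417396433879041) (nat_lit 1)) (.cons (.rf (nat_lit 152) (nat_lit 493855878643469059232)) .nil)))) (.cons (.br (nat_lit 2) (nat_lit 1) (.cons (.ev (nat_lit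 79537647542532708215266803713) (nat_lit 1)) (.cons (.ev (nat_lit 79538870672417037914619445250) (nat_lit 2)) (.cons (.ev (nat_lit 79537647542532708210955059201) (nat_lit 1)) .nil)))) (.cons (.br (nat_lit 12) (nat_lit 1) (.cons (.rf (nat_lit 46) (nat_lit 447811315753210414240)) (.cons (.br (nat_lit 1) (nat_lit 1) (.cons (.ev (nat_lit 20837011595844483039828858306820) (nat_lit 3)) .nil)) (.cons (.rf (nat_lit 250) (nat_lit 458008352780755076160)) .nil)))) .nil)))))) .nil)) .nil))),
 (.br (nat_lit 5) (nat_lit 0) (.cons (.br (nat_lit 2) (nat_lit 1) (.cons (.br (nat_lit 12) (nat_lit 1) (.cons (.rf (nat_lit 1) (nat_lit 421252223327726142624)) (.cons (.ev (nat_lit 79537647542532708215266803713) (nat_lit 1)) (.cons (.rf (nat_lit 13) (nat_lit 126113325347628057760)) .nil)))) (.cons (.br (nat_lit 12) (nat_lit 1) (.cons (.rf (nat_lit 0) (nat_lit 420142079218597174336)) (.cons (.ev (nat_lit 80157840655166239913206284290) (nat_lit 2)) (.cons (.rf (nat_lit 12) (nat_lit 346357354723572653120)) .nil)))) (.cons (.ev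 (nat_lit 1213648258155097169592321) (nat_lit 1)) (.cons (.br (nat_lit 13) (nat_lit 1) (.cons (.ev (nat_lit 20361948460101575721243006468353) (nat_lit 1)) (.cons (.br (nat_lit 7) (nat_lit 1) (.cons (.ev (nat_lit 20837011595844483039837414686980) (nat_lit 3)) .nil)) (.cons (.br (nat_lit 5) (nat_lit 1) (.cons (.ev (nat_lit 20837011595844483039828858306820) (nat_lit 3)) .nil)) .nil)))) (.cons (.br (nat_lit 7) (nat_lit 1) (.cons (.rf (nat_lit 3) (nat_lit 421252223327726142624)) (.cons (.rf (nat_lit 1) (nat_lit 420142079218597174336)) (.cons (.ev (nat_lit 79537647542532708210955059201) (nat_lit 1)) .nil)))) .nil)))))) .nil)),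
 (.br (nat_lit 2) (nat_lit 0) (.cons (.br (nat_lit 12) (nat_lit 0) (.cons (.br (nat_lit 7) (nat_lit 1) (.cons (.br (nat_lit 2) (nat_lit 1) (.cons (.kr (nat_lit 4722366482869645279232) (nat_lit 309485009821346168236408832) (nat_lit 2) (nat_lit 0)) (.cons (.rf (nat_lit 36) (nat_lit 491581807122050194592)) (.cons (.br (nat_lit 5) (nat_lit 1) (.cons (.kr (nat_lit 20283028573671313115184212476160) (nat_lit 79228171959069360926872371200) (nat_lit 1) (nat_lit 0)) .nil)) .nil)))) (.cons (.rf (nat_lit 677) (nat_lit 493823402543469922336)) (.cons (.br (nat_lit 13) (nat_lit 1) (.cons (.rf (nat_lit 294) (nat_lit 458046842114063670304)) (.cons (.br (nat_lit 12) (nat_lit 1) (.cons (.kr (nat_lit 20283028573671313115184212476160) (nat_lit 79228171959069360926872371200) (nat_lit 1) (nat_lit 0)) .nil)) (.cons (.br (nat_lit 1) (nat_lit 1) (.cons (.kr (nat_lit 20283028573671313115184212476160) (nat_lit 79228171959069360926872371200) (nat_lit 1) (nat_lit 0)) .nil)) .nil)))) (.cons (.ev (nat_lit 1208944338416296922185729)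 (nat_lit 1)) (.cons (.br (nat_lit 1) (nat_lit 1) (.cons (.br (nat_lit 12) (nat_lit 1) (.cons (.kr (nat_lit 20283028573671313115184212476160) (nat_lit 79228171959069360926872371200) (nat_lit 1) (nat_lit 0)) .nil)) (.cons (.rf (nat_lit 45) (nat_lit 484672124209384922272)) (.cons (.kr (nat_lit 20282719088661491769015976067328) (nat_lit 79228167236702878057227091968) (nat_lit 1) (nat_lit 0)) .nil)))) .nil)))))) .nil)) .nil)),
 (.br (nat_lit 5) (nat_lit 1) (.cons (.rf (nat_lit 680) (nat_lit 493823402543469922336)) (.cons (.ev (nat_lit 79537652246452166631442350081) (nat_lit 1)) (.cons (.rf (nat_lit 503) (nat_lit 458075024901406820384)) .nil)))),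
 (.br (nat_lit 7) (nat_lit 0) (.cons (.rf (nat_lit 698) (nat_lit 493858305440582043680)) (.cons (.br (nat_lit 11) (nat_lit 1) (.cons (.rf (nat_lit 699) (nat_lit 493858305440582043680)) (.cons (.rf (nat_lit 699) (nat_lit 493858305440481383456)) (.cons (.br (nat_lit 8) (nat_lit 1) (.cons (.rf (nat_lit 700) (nat_lit 493858305440582043680)) (.cons (.rf (nat_lit 700) (nat_lit 493858305440481383456)) .nil))) .nil)))) (.cons (.br (nat_lit 5) (nat_lit 0) (.cons (.rf (nat_lit 701) (nat_lit 493858305440582043680)) (.cons (.br (nat_lit 2) (nat_lit 0) (.cons (.rf (nat_lit 701) (nat_lit 493858305440481383456)) (.cons (.br (nat_lit 8) (nat_lit 1) (.cons (.br (nat_lit 12) (nat_lit 1) (.cons (.rf (nat_lit 679) (nat_lit 493823402543469922336)) (.cons (.rf (nat_lit 702) (nat_lit 493858305440582043680)) (.cons (.rf (nat_lit 702) (nat_lit 493858305440481383456)) (.cons (.ev (nat_lit 1208944338416296922185729) (nat_lit 1)) (.cons (.rf (nat_lit 683) (nat_lit 493823402543469922336)) .nil)))))) .nil)) .nil))) .nil))) .nil)))),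
 (.br (nat_lit 8) (nat_lit 1) (.cons (.br (nat_lit 12) (nat_lit 0) (.cons (.br (nat_lit 7) (nat_lit 1) (.cons (.br (nat_lit 13) (nat_lit 1) (.cons (.br (nat_lit 5) (nat_lit 1) (.cons (.ev (nat_lit 20837006760214990438312783708420) (nat_lit 3)) .nil)) (.cons (.rf (nat_lit 3) (nat_lit 347465249232011854912)) (.cons (.rf (nat_lit 265) (nat_lit 493786069559229553696)) .nil)))) (.cons (.br (nat_lit 12) (nat_lit 1) (.cons (.rf (nat_lit 39) (nat_lit 453571143804425405504)) (.cons (.ev (nat_lit 309485028340429315255631873) (nat_lit 1)) (.cons (.rf (nat_lit 13) (nat_lit 420142079218496511136)) .nil)))) (.cons (.ev (nat_lit 4740885566016664371201) (nat_lit 1)) (.cons (.br (nat_lit 5) (nat_lit 1) (.cons (.ev (nat_lit 79538856449905298395250032641) (nat_lit 1)) (.cons (.ev (nat_lit 80157840655166241012717846530) (nat_lit 2)) (.cons (.ev (nat_lit 79538856449905298390971842561) (nat_lit 1)) .nil)))) (.cons (.br (nat_lit 1) (nat_lit 1) (.cons (.br (nat_lit 5) (nat_lit 1) (.cons (.ev (nat_lit 20837006760214990438304227328260)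 (nat_lit 3)) .nil)) (.cons (.rf (nat_lit 39) (nat_lit 490428886716954975392)) (.cons (.rf (nat_lit 254) (nat_lit 493820972456341675040)) .nil)))) .nil)))))) .nil)) (.cons (.br (nat_lit 5) (nat_lit 0) (.cons (.br (nat_lit 7) (nat_lit 1) (.cons (.br (nat_lit 13) (nat_lit 1) (.cons (.br (nat_lit 12) (nat_lit 1) (.cons (.ev (nat_lit 20282719107606442337075420332292) (nat_lit 3)) .nil)) (.cons (.rf (nat_lit 36) (nat_lit 453571314228727710784)) (.cons (.zr (nat_lit 60847538296001726668007851164416) (nat_lit 237685701191123225467561181185) (nat_lit 5) (nat_lit 9)) .nil)))) (.cons (.br (nat_lit 5) (nat_lit 1) (.cons (.kr (nat_lit 4722366482869662056448) (nat_lit 1208925819615732981301248) (nat_lit 2) (nat_lit 0)) (.cons (.ev (nat_lit 1208944338417396433879041) (nat_lit 1)) (.cons (.kr (nat_lit 4722366482869645279232) (nat_lit 1208925819615728686333952) (nat_lit 2) (nat_lit 0)) .nil)))) (.cons (.ev (nat_lit 4740885566016664371201) (nat_lit 1)) (.cons (.br (nat_lit 5) (nat_lit 1) (.cons (.ev (nat_lit 79538856449905298395250032641)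 (nat_lit 1)) (.cons (.ev (nat_lit 79541288487163343074981183490) (nat_lit 2)) (.cons (.ev (nat_lit 79538856449905298390971842561) (nat_lit 1)) .nil)))) (.cons (.br (nat_lit 1) (nat_lit 1) (.cons (.rf (nat_lit 696) (nat_lit 51028364578930136480)) (.cons (.rf (nat_lit 36) (nat_lit 455877157304450352192)) (.cons (.zr (nat_lit 60847538296001726668007851164416) (nat_lit 237685701191123225471839371265) (nat_lit 5) (nat_lit 9)) .nil)))) .nil)))))) .nil)) .nil)))]

theorem c25 : chkAll C T R L25 (nat_lit 687) = true := by decide +kernel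

theorem l25 : (nat_lit 687) + L25.length = (nat_lit 705) := by decide +kernel

/-- part of the certificates -/
def L26 : List Prf := [(.br (nat_lit 2) (nat_lit 0) (.cons (.br (nat_lit 7) (nat_lit 1) (.cons (.ev (nat_lit 4740885284541704437761) (nat_lit 1)) (.cons (.br (nat_lit 5) (nat_lit 1) (.cons (.br (nat_lit 13) (nat_lit 1) (.cons (.ev (nat_lit 79537652246452166635720540161) (nat_lit 1)) .nil)) (.cons (.br (nat_lit 13) (nat_lit 1) (.cons (.ev (nat_lit 20837625720789899593163953602820) (nat_lit 3)) .nil)) (.cons (.br (nat_lit 1) (nat_lit 1) (.cons (.ev (nat_lit 79537652246452166635720540161) (nat_lit 1)) .nil)) .nil)))) (.cons (.br (nat_lit 2) (nat_lit 1) (.cons (.rf (nat_lit 691) (nat_lit 493858305440582043680)) (.cons (.zr (nat_lit 1218370769034625589182464) (nat_lit 158765810056796766532840456193) (nat_lit 5) (nat_lit 11)) (.cons (.rf (nat_lit 692) (nat_lit 493858305440582043680)) .nil)))) (.cons (.br (nat_lit 5) (nat_lit 1) (.cons (.zr (nat_lit 237685705913345596447631867904) (nat_lit 309485028412485809798643713)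 (nat_lit 5) (nat_lit 8)) (.cons (.ev (nat_lit 310698676526245334803873793) (nat_lit 1)) (.cons (.zr (nat_lit 237684496987742154600604499968) (nat_lit 314320731546829151289737217) (nat_lit 5) (nat_lit 0)) .nil)))) (.cons (.ev (nat_lit 4740885284537392693249) (nat_lit 1)) .nil)))))) .nil)),
 (.br (nat_lit 7) (nat_lit 0) (.cons (.rf (nat_lit 698) (nat_lit 493858305440582043680)) (.cons (.rf (nat_lit 703) (nat_lit 493858305440582043680)) (.cons (.br (nat_lit 10) (nat_lit 1) (.cons (.rf (nat_lit 704) (nat_lit 493858305440582043680)) (.cons (.rf (nat_lit 704) (nat_lit 493858305440481383456)) (.cons (.br (nat_lit 5) (nat_lit 0) (.cons (.rf (nat_lit 705) (nat_lit 493858305440582043680)) (.cons (.br (nat_lit 2) (nat_lit 0) (.cons (.rf (nat_lit 705) (nat_lit 493858305440481383456)) .nil)) .nil))) .nil)))) .nil)))),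
 (.br (nat_lit 13) (nat_lit 0) (.cons (.rf (nat_lit 669) (nat_lit 493858305440582043680)) (.cons (.br (nat_lit 7) (nat_lit 0) (.cons (.rf (nat_lit 676) (nat_lit 493858305440582043680)) (.cons (.rf (nat_lit 687) (nat_lit 493858305440582043680)) (.cons (.rf (nat_lit 687) (nat_lit 493857214725047289888)) (.cons (.br (nat_lit 7) (nat_lit 0) (.cons (.rf (nat_lit 676) (nat_lit 493858305440582043680)) (.cons (.rf (nat_lit 687) (nat_lit 493858305440582043680)) (.cons (.rf (nat_lit 687) (nat_lit 493857214725047289888)) .nil)))) .nil))))) (.cons (.br (nat_lit 7) (nat_lit 0) (.cons (.rf (nat_lit 698) (nat_lit 493858305440582043680)) (.cons (.rf (nat_lit 703) (nat_lit 493858305440582043680)) (.cons (.rf (nat_lit 706) (nat_lit 493858305440582043680)) (.cons (.br (nat_lit 7) (nat_lit 0) (.cons (.rf (nat_lit 698) (nat_lit 493858305440582043680)) (.cons (.rf (nat_lit 703) (nat_lit 493858305440582043680)) (.cons (.rf (nat_lit 706) (nat_lit 493858305440582043680)) .nil)))) .nil))))) .nil)))),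
 (.br (nat_lit 13) (nat_lit 0) (.cons (.rf (nat_lit 669) (nat_lit 493858305440582043680)) (.cons (.rf (nat_lit 707) (nat_lit 493858305440582043680)) (.cons (.rf (nat_lit 707) (nat_lit 493857214725047289888)) (.cons (.br (nat_lit 13) (nat_lit 0) (.cons (.rf (nat_lit 669) (nat_lit 493858305440582043680)) (.cons (.rf (nat_lit 707) (nat_lit 493858305440582043680)) (.cons (.rf (nat_lit 707) (nat_lit 493857214725047289888)) .nil)))) .nil))))),
 (.br (nat_lit 3) (nat_lit 1) (.cons (.rf (nat_lit 424) (nat_lit 244987298880)) (.cons (.rf (nat_lit 424) (nat_lit 244886635680)) (.cons (.br (nat_lit 13) (nat_lit 0) (.cons (.rf (nat_lit 642) (nat_lit 493858305440582043680)) (.cons (.rf (nat_lit 657) (nat_lit 493858305440582043680)) (.cons (.rf (nat_lit 657) (nat_lit 493857214725047289888)) (.cons (.br (nat_lit 9) (nat_lit 1) (.cons (.rf (nat_lit 657) (nat_lit 493820096240131703872)) (.cons (.rf (nat_lit 657) (nat_lit 493820096137052488864)) (.cons (.rf (nat_lit 657) (nat_lit 493820096105846769888)) (.cons (.rf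 (nat_lit 657) (nat_lit 458117738797769787424)) (.cons (.rf (nat_lit 657) (nat_lit 493858305440582043680)) .nil)))))) .nil))))) (.cons (.rf (nat_lit 708) (nat_lit 493858305440582043680)) (.cons (.rf (nat_lit 708) (nat_lit 458117738797769787424)) .nil)))))),
 (.br (nat_lit 2) (nat_lit 0) (.cons (.rf (nat_lit 709) (nat_lit 493858305437360915520)) (.cons (.rf (nat_lit 709) (nat_lit 493823368455388333120)) (.cons (.rf (nat_lit 709) (nat_lit 493787340757880996928)) (.cons (.rf (nat_lit 709) (nat_lit 493750222344838906944)) .nil))))),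
 (.br (nat_lit 13) (nat_lit 0) (.cons (.br (nat_lit 7) (nat_lit 0) (.cons (.br (nat_lit 2) (nat_lit 0) (.cons (.ev (nat_lit 79537647542604484334311178241) (nat_lit 1)) .nil)) .nil)) (.cons (.br (nat_lit 11) (nat_lit 1) (.cons (.ev (nat_lit 20361947255898122590582988669185) (nat_lit 1)) (.cons (.ev (nat_lit 79537647542604765804992921601) (nat_lit 1)) .nil))) .nil))),
 (.br (nat_lit 11) (nat_lit 1) (.cons (.kr (nat_lit 309485009893402662779486208) (nat_lit 18446745177516146688) (nat_lit 3) (nat_lit 0)) (.cons (.br (nat_lit 10) (nat_lit 1) (.cons (.ev (nat_lit 1208944266359802395885569) (nat_lit 1)) (.cons (.ev (nat_lit 310693935713017296249159681) (nat_lit 1)) .nil))) .nil))),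
 (.br (nat_lit 7) (nat_lit 0) (.cons (.br (nat_lit 10) (nat_lit 1) (.cons (.rf (nat_lit 712) (nat_lit 493858305440582043680)) (.cons (.br (nat_lit 10) (nat_lit 1) (.cons (.rf (nat_lit 712) (nat_lit 493858305440582043680)) .nil)) .nil))) (.cons (.br (nat_lit 11) (nat_lit 1) (.cons (.br (nat_lit 9) (nat_lit 1) (.cons (.ev (nat_lit 79537652246524223125968650241) (nat_lit 1)) .nil)) (.cons (.br (nat_lit 9) (nat_lit 1) (.cons (.ev (nat_lit 79537652246524223125968650241) (nat_lit 1)) (.cons (.ev (nat_lit 79537652246524504605240328193) (nat_lit 1)) .nil))) .nil))) (.cons (.ev (nat_lit 309485028340428215743938561) (nat_lit 1)) .nil)))),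
 (.br (nat_lit 5) (nat_lit 0) (.cons (.br (nat_lit 13) (nat_lit 0) (.cons (.rf (nat_lit 711) (nat_lit 493858305440582043680)) (.cons (.rf (nat_lit 711) (nat_lit 493857214725047289888)) (.cons (.br (nat_lit 13) (nat_lit 0) (.cons (.rf (nat_lit 711) (nat_lit 493858305440582043680)) (.cons (.rf (nat_lit 711) (nat_lit 493857214725047289888)) .nil))) .nil)))) (.cons (.rf (nat_lit 713) (nat_lit 493858305440582043680)) .nil))),
 (.br (nat_lit 5) (nat_lit 0) (.cons (.rf (nat_lit 714) (nat_lit 493858305440582043680)) (.cons (.rf (nat_lit 714) (nat_lit 493857214725047289888)) (.cons (.br (nat_lit 5) (nat_lit 0) (.cons (.rf (nat_lit 713) (nat_lit 493858305440582043680)) (.cons (.rf (nat_lit 713) (nat_lit 493857214725047289888)) .nil))) .nil)))),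
 (.br (nat_lit 8) (nat_lit 1) (.cons (.rf (nat_lit 480) (nat_lit 14242783605395919904)) (.cons (.br (nat_lit 13) (nat_lit 0) (.cons (.br (nat_lit 2) (nat_lit 0) (.cons (.ev (nat_lit 79229371458602753894761103361) (nat_lit 1)) .nil)) .nil)) .nil))),
 (.br (nat_lit 5) (nat_lit 0) (.cons (.kr (nat_lit 16777216) (nat_lit 79228162514264337593543950336) (nat_lit 3) (nat_lit 0)) (.cons (.kr (nat_lit 281474976710656) (nat_lit 79228162514264337593543950336) (nat_lit 6) (nat_lit 0)) (.cons (.br (nat_lit 13) (nat_lit 0) (.cons (.kr (nat_lit 16777216) (nat_lit 4294967296) (nat_lit 3) (nat_lit 0)) (.cons (.kr (nat_lit 4294967296) (nat_lit 281474976710656) (nat_lit 4) (nat_lit 0)) (.cons (.ev (nat_lit 1208944338416296922185729) (nat_lit 1)) .nil)))) (.cons (.br (nat_lit 13) (nat_lit 0) (.cons (.kr (nat_lit 16777216) (nat_lit 4294967296) (nat_lit 3) (nat_lit 0)) (.cons (.kr (nat_lit 4294967296) (nat_lit 281474976710656) (nat_lit 4) (nat_lit 0)) (.cons (.ev (nat_lit 1208944338416296922185729) (nat_lit 1)) .nil))))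 .nil))))),
 (.br (nat_lit 10) (nat_lit 1) (.cons (.ev (nat_lit 1208944338416296922185729) (nat_lit 1)) .nil)),
 (.br (nat_lit 7) (nat_lit 0) (.cons (.rf (nat_lit 715) (nat_lit 493858305440582043680)) (.cons (.br (nat_lit 10) (nat_lit 1) (.cons (.rf (nat_lit 715) (nat_lit 493787340757880996928)) (.cons (.br (nat_lit 9) (nat_lit 1) (.cons (.ev (nat_lit 1213648258155097169592321) (nat_lit 1)) (.cons (.ev (nat_lit 79229376162522774165690253313) (nat_lit 1)) (.cons (.ev (nat_lit 1213648258436567851335681) (nat_lit 1)) .nil)))) (.cons (.br (nat_lit 9) (nat_lit 1) (.cons (.ev (nat_lit 79229376162522492686418575361) (nat_lit 1)) (.cons (.ev (nat_lit 1213648258436567851335681) (nat_lit 1)) (.cons (.ev (nat_lit 79229376162522774165690253313) (nat_lit 1)) .nil)))) .nil)))) (.cons (.br (nat_lit 11) (nat_lit 1) (.cons (.rf (nat_lit 715) (nat_lit 493750222344838906944)) (.cons (.br (nat_lit 9) (nat_lit 1) (.cons (.rf (nat_lit 715) (nat_lit 493823368455388333120)) (.cons (.rf (nat_lit 716) (nat_lit 493858305440582043680))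 (.cons (.br (nat_lit 2) (nat_lit 0) (.cons (.br (nat_lit 13) (nat_lit 0) (.cons (.br (nat_lit 5) (nat_lit 0) (.cons (.ev (nat_lit 1208944338416296922185729) (nat_lit 1)) .nil)) .nil)) (.cons (.rf (nat_lit 717) (nat_lit 493858305440582043680)) .nil))) .nil)))) (.cons (.br (nat_lit 2) (nat_lit 0) (.cons (.br (nat_lit 5) (nat_lit 0) (.cons (.br (nat_lit 5) (nat_lit 0) (.cons (.rf (nat_lit 718) (nat_lit 493858305440582043680)) .nil)) (.cons (.rf (nat_lit 718) (nat_lit 493858305440582043680)) .nil))) (.cons (.rf (nat_lit 715) (nat_lit 493823368455388333120)) (.cons (.br (nat_lit 9) (nat_lit 1) (.cons (.rf (nat_lit 717) (nat_lit 493784068614497862720)) (.cons (.br (nat_lit 10) (nat_lit 1) (.cons (.br (nat_lit 8) (nat_lit 1) (.cons (.ev (nat_lit 79229371458602753894761103361) (nat_lit 1)) .nil)) .nil)) .nil))) .nil)))) .nil)))) .nil)))),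
 (.br (nat_lit 5) (nat_lit 0) (.cons (.br (nat_lit 7) (nat_lit 0) (.cons (.br (nat_lit 11) (nat_lit 1) (.cons (.ev (nat_lit 79537647542604765804992921601) (nat_lit 1)) .nil)) .nil)) (.cons (.br (nat_lit 11) (nat_lit 1) (.cons (.ev (nat_lit 20282719093383858534464421429505) (nat_lit 1)) (.cons (.ev (nat_lit 309485028340146736472260609) (nat_lit 1)) .nil))) .nil))),
 (.br (nat_lit 10) (nat_lit 1) (.cons (.br (nat_lit 5) (nat_lit 0) (.cons (.ev (nat_lit 79538856449977636364769820673) (nat_lit 1)) .nil)) .nil)),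
 (.br (nat_lit 7) (nat_lit 0) (.cons (.br (nat_lit 10) (nat_lit 1) (.cons (.rf (nat_lit 721) (nat_lit 493858305440582043680)) (.cons (.br (nat_lit 10) (nat_lit 1) (.cons (.rf (nat_lit 721) (nat_lit 493858305440582043680)) .nil)) .nil))) (.cons (.br (nat_lit 9) (nat_lit 1) (.cons (.br (nat_lit 11) (nat_lit 1) (.cons (.ev (nat_lit 309489732260167007401410561) (nat_lit 1)) .nil)) (.cons (.br (nat_lit 11) (nat_lit 1) (.cons (.ev (nat_lit 309489732260167007401410561) (nat_lit 1)) (.cons (.ev (nat_lit 79537652246524223125968650241) (nat_lit 1)) .nil))) .nil))) (.cons (.ev (nat_lit 79537647542604484334311178241) (nat_lit 1)) .nil)))),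
 (.br (nat_lit 13) (nat_lit 0) (.cons (.br (nat_lit 5) (nat_lit 0) (.cons (.rf (nat_lit 720) (nat_lit 493858305440582043680)) (.cons (.rf (nat_lit 720) (nat_lit 493857214725047289888)) (.cons (.br (nat_lit 5) (nat_lit 0) (.cons (.rf (nat_lit 720) (nat_lit 493858305440582043680)) (.cons (.rf (nat_lit 720) (nat_lit 493857214725047289888)) .nil))) .nil)))) (.cons (.rf (nat_lit 722) (nat_lit 493858305440582043680)) .nil))),
 (.br (nat_lit 13) (nat_lit 0) (.cons (.rf (nat_lit 723) (nat_lit 493858305440582043680)) (.cons (.rf (nat_lit 723) (nat_lit 493857214725047289888)) (.cons (.br (nat_lit 13) (nat_lit 0) (.cons (.rf (nat_lit 722) (nat_lit 493858305440582043680)) (.cons (.rf (nat_lit 722) (nat_lit 493857214725047289888)) .nil))) .nil)))),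
 (.br (nat_lit 10) (nat_lit 1) (.cons (.ev (nat_lit 1213648258155092857847809) (nat_lit 1)) (.cons (.ev (nat_lit 1213648258436567851335681) (nat_lit 1)) (.cons (.ev (nat_lit 1213648258155097169592321) (nat_lit 1)) .nil)))),
 (.br (nat_lit 8) (nat_lit 1) (.cons (.br (nat_lit 10) (nat_lit 1) (.cons (.ev (nat_lit 79229371458603035365442846721) (nat_lit 1)) (.cons (.ev (nat_lit 1208944338697776193863681) (nat_lit 1)) .nil))) (.cons (.br (nat_lit 10) (nat_lit 1) (.cons (.ev (nat_lit 1208944338697776193863681) (nat_lit 1)) (.cons (.ev (nat_lit 79229371458603035365442846721) (nat_lit 1)) .nil))) .nil))),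
 (.br (nat_lit 10) (nat_lit 1) (.cons (.rf (nat_lit 726) (nat_lit 493858305440582043680)) (.cons (.br (nat_lit 8) (nat_lit 1) (.cons (.ev (nat_lit 1208944338697776193863681) (nat_lit 1)) (.cons (.ev (nat_lit 79229371458602753894761103361) (nat_lit 1)) (.cons (.ev (nat_lit 1208944338416296922185729) (nat_lit 1)) .nil)))) .nil))),
 (.br (nat_lit 7) (nat_lit 0) (.cons (.rf (nat_lit 724) (nat_lit 493858305440582043680)) (.cons (.br (nat_lit 9) (nat_lit 1) (.cons (.br (nat_lit 10) (nat_lit 1) (.cons (.ev (nat_lit 1213648258436567851335681) (nat_lit 1)) (.cons (.ev (nat_lit 79229376162522774165690253313) (nat_lit 1)) .nil))) (.cons (.br (nat_lit 5) (nat_lit 0) (.cons (.rf (nat_lit 725) (nat_lit 493858305440582043680)) (.cons (.ev (nat_lit 79229376162522492686418575361) (nat_lit 1)) (.cons (.rf (nat_lit 725) (nat_lit 493750222348060035104)) .nil)))) (.cons (.br (nat_lit 10) (nat_lit 1) (.cons (.ev (nat_lit 79229376162522774165690253313) (nat_lit 1)) (.cons (.ev (nat_lit 1213648258155097169592321) (nat_lit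 1)) (.cons (.ev (nat_lit 79229376162522492686418575361) (nat_lit 1)) .nil)))) .nil)))) (.cons (.br (nat_lit 10) (nat_lit 1) (.cons (.rf (nat_lit 726) (nat_lit 493858305440582043680)) (.cons (.rf (nat_lit 727) (nat_lit 493858305440582043680)) (.cons (.br (nat_lit 10) (nat_lit 1) (.cons (.rf (nat_lit 726) (nat_lit 493858305440582043680)) (.cons (.rf (nat_lit 727) (nat_lit 493858305440582043680)) .nil))) .nil)))) .nil)))),
 (.br (nat_lit 1) (nat_lit 1) (.cons (.br (nat_lit 7) (nat_lit 0) (.cons (.rf (nat_lit 724) (nat_lit 493858305440582043680)) (.cons (.rf (nat_lit 728) (nat_lit 493858305440582043680)) (.cons (.rf (nat_lit 728) (nat_lit 493857214725047289888)) (.cons (.br (nat_lit 7) (nat_lit 0) (.cons (.rf (nat_lit 724) (nat_lit 493858305440582043680)) (.cons (.rf (nat_lit 728) (nat_lit 493858305440582043680)) (.cons (.rf (nat_lit 728) (nat_lit 493857214725047289888)) .nil)))) .nil))))) .nil)),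
 (.br (nat_lit 2) (nat_lit 0) (.cons (.rf (nat_lit 729) (nat_lit 493858305437360915520)) (.cons (.rf (nat_lit 729) (nat_lit 493823368455388333120)) (.cons (.rf (nat_lit 729) (nat_lit 493787340757880996928)) (.cons (.rf (nat_lit 729) (nat_lit 493750222344838906944)) .nil))))),
 (.br (nat_lit 2) (nat_lit 1) (.cons (.br (nat_lit 13) (nat_lit 1) (.cons (.br (nat_lit 7) (nat_lit 0) (.cons (.rf (nat_lit 715) (nat_lit 493858305440582043680)) (.cons (.rf (nat_lit 719) (nat_lit 493858305440582043680)) (.cons (.rf (nat_lit 719) (nat_lit 493857214725047289888)) (.cons (.br (nat_lit 7) (nat_lit 0) (.cons (.rf (nat_lit 715) (nat_lit 493858305440582043680)) (.cons (.rf (nat_lit 719) (nat_lit 493858305440582043680)) (.cons (.rf (nat_lit 719) (nat_lit 493857214725047289888)) .nil)))) .nil))))) .nil)) (.cons (.rf (nat_lit 730) (nat_lit 493858305437360915520)) (.cons (.br (nat_lit 7) (nat_lit 1) (.cons (.rf (nat_lit 730) (nat_lit 493858305440582043680)) .nil)) .nil)))),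
 (.br (nat_lit 5) (nat_lit 1) (.cons (.br (nat_lit 7) (nat_lit 1) (.cons (.kr (nat_lit 20361637766165934761540795302144) (nat_lit 72058693583110144) (nat_lit 1) (nat_lit 0)) .nil)) (.cons (.rf (nat_lit 86) (nat_lit 235571062494368892960)) (.cons (.kr (nat_lit 79228162514264337593543950592) (nat_lit 1099528404992) (nat_lit 1) (nat_lit 0)) .nil)))),
 (.br (nat_lit 2) (nat_lit 1) (.cons (.rf (nat_lit 87) (nat_lit 384152695320155004064)) (.cons (.br (nat_lit 1) (nat_lit 1) (.cons (.kr (nat_lit 20361637766165934761540795302144) (nat_lit 72058702139490304) (nat_lit 1) (nat_lit 0)) .nil)) (.cons (.kr (nat_lit 20282409603651670423947251351552) (nat_lit 72057598332895232) (nat_lit 2) (nat_lit 0)) .nil))))]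

theorem c26 : chkAll C T R L26 (nat_lit 705) = true := by decide +kernel

theorem l26 : (nat_lit 705) + L26.length = (nat_lit 734) := by decide +kernel

/-- part of the certificates -/
def L27 : List Prf := [(.br (nat_lit 13) (nat_lit 1) (.cons (.kr (nat_lit 20361637766165934761540795302144) (nat_lit 72621643502977024) (nat_lit 1) (nat_lit 0)) .nil)),
 (.br (nat_lit 7) (nat_lit 1) (.cons (.rf (nat_lit 734) (nat_lit 493858305440582043680)) (.cons (.ev (nat_lit 1213648258155097169592321) (nat_lit 1)) (.cons (.rf (nat_lit 183) (nat_lit 457930869103142373536)) .nil)))),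
 (.br (nat_lit 2) (nat_lit 1) (.cons (.kr (nat_lit 20361637766165934761540795302144) (nat_lit 72058702139490304) (nat_lit 1) (nat_lit 0)) .nil)),
 (.br (nat_lit 13) (nat_lit 0) (.cons (.br (nat_lit 12) (nat_lit 0) (.cons (.br (nat_lit 5) (nat_lit 0) (.cons (.br (nat_lit 13) (nat_lit 1) (.cons (.rf (nat_lit 732) (nat_lit 493858305440582043680)) (.cons (.br (nat_lit 1) (nat_lit 1) (.cons (.br (nat_lit 7) (nat_lit 1) (.cons (.ev (nat_lit 79537647542532708215266738433) (nat_lit 1)) .nil)) (.cons (.br (nat_lit 5) (nat_lit 1) (.cons (.ev (nat_lit 79537647542532708215266738433) (nat_lit 1)) .nil)) (.cons (.br (nat_lit 5) (nat_lit 1) (.cons (.ev (nat_lit 20837011595844483039846104893188) (nat_lit 3)) .nil)) .nil)))) (.cons (.br (nat_lit 7) (nat_lit 1) (.cons (.zr (nat_lit 216739030602088448) (nat_lit 310698676454186645565997057) (nat_lit 5) (nat_lit 0)) (.cons (.ev (nat_lit 20282410817299856802925359726593) (nat_lit 1)) (.cons (.zr (nat_lit 216739030635642880) (nat_lit 310698676454186658434121729) (nat_lit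 5) (nat_lit 0)) .nil)))) (.cons (.br (nat_lit 5) (nat_lit 1) (.cons (.zr (nat_lit 216739030602088448) (nat_lit 310698676454186645565997057) (nat_lit 5) (nat_lit 0)) (.cons (.ev (nat_lit 20282410817299856802925359726593) (nat_lit 1)) (.cons (.zr (nat_lit 216739030635642880) (nat_lit 310698676454186658434121729) (nat_lit 5) (nat_lit 0)) .nil)))) (.cons (.rf (nat_lit 733) (nat_lit 493858305440582043680)) .nil)))))) .nil)) .nil)) (.cons (.br (nat_lit 11) (nat_lit 1) (.cons (.br (nat_lit 12) (nat_lit 0) (.cons (.br (nat_lit 12) (nat_lit 1) (.cons (.ev (nat_lit 79537652246452165531930722561) (nat_lit 1)) (.cons (.rf (nat_lit 735) (nat_lit 493858305440582043680)) (.cons (.br (nat_lit 7) (nat_lit 1) (.cons (.ev (nat_lit 79229371458603036464954474753) (nat_lit 1)) (.cons (.zr (nat_lit 216176080682221568) (nat_lit 310698676454468120525930497) (nat_lit 5) (nat_lit 0)) (.cons (.zr (nat_lit 216739030635642880) (nat_lit 310698676454186658434121729) (nat_lit 5) (nat_lit 0)) .nil)))) (.cons (.br (nat_lit 13) (nat_lit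 1) (.cons (.rf (nat_lit 735) (nat_lit 458082801743923708992)) (.cons (.ev (nat_lit 20282410812595937064125112320001) (nat_lit 1)) (.cons (.zr (nat_lit 216739030635642880) (nat_lit 310698676454186658434121729) (nat_lit 5) (nat_lit 0)) .nil)))) (.cons (.br (nat_lit 1) (nat_lit 1) (.cons (.ev (nat_lit 79537652246452447006890656001) (nat_lit 1)) (.cons (.br (nat_lit 7) (nat_lit 1) (.cons (.zr (nat_lit 216176089238601728) (nat_lit 310698676454468116247740417) (nat_lit 5) (nat_lit 0)) .nil)) (.cons (.rf (nat_lit 736) (nat_lit 493858305440582043680)) .nil)))) .nil)))))) .nil)) (.cons (.br (nat_lit 5) (nat_lit 0) (.cons (.br (nat_lit 7) (nat_lit 1) (.cons (.ev (nat_lit 1213648258155092857847809) (nat_lit 1)) (.cons (.br (nat_lit 13) (nat_lit 1) (.cons (.rf (nat_lit 39) (nat_lit 492734446158506919136)) (.cons (.ev (nat_lit 309489732187829042193367041) (nat_lit 1)) (.cons (.rf (nat_lit 13) (nat_lit 236793782987896719520)) .nil)))) (.cons (.br (nat_lit 12) (nat_lit 1) (.cons (.ev (nat_lit 79847137274720537261771849986)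 (nat_lit 2)) (.cons (.rf (nat_lit 0) (nat_lit 420135327149904430304)) (.cons (.rf (nat_lit 12) (nat_lit 236793782987896719520)) .nil)))) (.cons (.ev (nat_lit 1213648258155097169592321) (nat_lit 1)) (.cons (.br (nat_lit 5) (nat_lit 1) (.cons (.rf (nat_lit 1) (nat_lit 420135327149904430304)) (.cons (.ev (nat_lit 309489732188110512875110401) (nat_lit 1)) (.cons (.rf (nat_lit 276) (nat_lit 457936541478387189792)) .nil)))) .nil)))))) .nil)) .nil))) .nil))),
 (.br (nat_lit 13) (nat_lit 1) (.cons (.kr (nat_lit 20361637766165934761540795302144) (nat_lit 72621643502977024) (nat_lit 1) (nat_lit 0)) .nil)),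
 (.br (nat_lit 13) (nat_lit 1) (.cons (.kr (nat_lit 20361637766165934761540795302144) (nat_lit 72621643502977024) (nat_lit 1) (nat_lit 0)) .nil)),
 (.br (nat_lit 1) (nat_lit 1) (.cons (.rf (nat_lit 738) (nat_lit 493858305440582043680)) (.cons (.rf (nat_lit 739) (nat_lit 493858305440582043680)) (.cons (.ev (nat_lit 20282409608392483650890622894081) (nat_lit 1)) .nil)))),
 (.br (nat_lit 13) (nat_lit 0) (.cons (.br (nat_lit 11) (nat_lit 1) (.cons (.br (nat_lit 12) (nat_lit 1) (.cons (.ev (nat_lit 79538856449905297291460215041) (nat_lit 1)) (.cons (.rf (nat_lit 740) (nat_lit 493858305440582043680)) (.cons (.br (nat_lit 13) (nat_lit 1) (.cons (.rf (nat_lit 740) (nat_lit 458008564986491896896)) (.cons (.ev (nat_lit 20282409608392483932365582827521) (nat_lit 1)) (.cons (.zr (nat_lit 216739030635642880) (nat_lit 310698676454186658434121729) (nat_lit 5) (nat_lit 0)) .nil)))) (.cons (.br (nat_lit 5) (nat_lit 1) (.cons (.ev (nat_lit 79228167255149904705424982273) (nat_lit 1)) (.cons (.zr (nat_lit 216176080682221568)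 (nat_lit 310698676454468120525930497) (nat_lit 5) (nat_lit 0)) (.cons (.zr (nat_lit 216739030635642880) (nat_lit 310698676454186658434121729) (nat_lit 5) (nat_lit 0)) .nil)))) (.cons (.br (nat_lit 2) (nat_lit 1) (.cons (.ev (nat_lit 79538856449905578766420148481) (nat_lit 1)) (.cons (.rf (nat_lit 164) (nat_lit 458040996017055472800)) (.cons (.rf (nat_lit 165) (nat_lit 458040996017055472800)) .nil)))) .nil)))))) .nil)) (.cons (.br (nat_lit 10) (nat_lit 1) (.cons (.br (nat_lit 13) (nat_lit 1) (.cons (.br (nat_lit 2) (nat_lit 1) (.cons (.ev (nat_lit 309489732188110512875110401) (nat_lit 1)) (.cons (.ev (nat_lit 1213648258155097169592321) (nat_lit 1)) (.cons (.ev (nat_lit 79538856449905578766420148481) (nat_lit 1)) .nil)))) (.cons (.br (nat_lit 7) (nat_lit 1) (.cons (.zr (nat_lit 60847228810992120932779876876288) (nat_lit 1239153687471759248762863617) (nat_lit 5) (nat_lit 0)) (.cons (.ev (nat_lit 20282720297587383442338717171713) (nat_lit 1)) (.cons (.zr (nat_lit 60847228810992120932771286941696) (nat_lit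 1239153687471759253007499265) (nat_lit 5) (nat_lit 0)) .nil)))) (.cons (.ev (nat_lit 309489732187829042193367041) (nat_lit 1)) (.cons (.ev (nat_lit 1213648258436567851335681) (nat_lit 1)) (.cons (.br (nat_lit 2) (nat_lit 1) (.cons (.ev (nat_lit 79538856449905578766420148481) (nat_lit 1)) (.cons (.ev (nat_lit 309489732188110512875110401) (nat_lit 1)) (.cons (.ev (nat_lit 1213648258155097169592321) (nat_lit 1)) .nil)))) .nil)))))) .nil)) .nil))),
 (.br (nat_lit 9) (nat_lit 1) (.cons (.br (nat_lit 7) (nat_lit 1) (.cons (.ev (nat_lit 1213648258436572129525761) (nat_lit 1)) (.cons (.br (nat_lit 13) (nat_lit 1) (.cons (.rf (nat_lit 36) (nat_lit 446653893913153439904)) (.cons (.ev (nat_lit 309489732187829042193367041) (nat_lit 1)) (.cons (.rf (nat_lit 153) (nat_lit 493571025935901460640)) .nil)))) (.cons (.br (nat_lit 12) (nat_lit 1) (.cons (.ev (nat_lit 79847137274720255773910237442) (nat_lit 2)) (.cons (.rf (nat_lit 45) (nat_lit 447814415242131474592)) (.cons (.rf (nat_lit 152) (nat_lit 493571025935901460640))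 .nil)))) (.cons (.ev (nat_lit 1213648258436567851335681) (nat_lit 1)) (.cons (.br (nat_lit 2) (nat_lit 1) (.cons (.rf (nat_lit 36) (nat_lit 453571423140311206048)) (.cons (.ev (nat_lit 309489732188110512875110401) (nat_lit 1)) (.cons (.rf (nat_lit 46) (nat_lit 447814415242131474592)) .nil)))) .nil)))))) .nil)),
 (.br (nat_lit 2) (nat_lit 0) (.cons (.rf (nat_lit 737) (nat_lit 493858305440582043680)) (.cons (.rf (nat_lit 737) (nat_lit 493857214725047289888)) (.cons (.br (nat_lit 12) (nat_lit 0) (.cons (.rf (nat_lit 741) (nat_lit 493858305440582043680)) (.cons (.rf (nat_lit 741) (nat_lit 493857214725047289888)) (.cons (.br (nat_lit 10) (nat_lit 1) (.cons (.rf (nat_lit 742) (nat_lit 493858305440582043680)) (.cons (.br (nat_lit 9) (nat_lit 1) (.cons (.rf (nat_lit 742) (nat_lit 493857214725047289888)) .nil)) .nil))) .nil)))) .nil)))),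
 (.br (nat_lit 13) (nat_lit 1) (.cons (.ev (nat_lit 79229371458602754994272731393) (nat_lit 1)) .nil)),
 (.br (nat_lit 13) (nat_lit 1) (.cons (.ev (nat_lit 79229371458602754994272731393) (nat_lit 1)) .nil)),
 (.br (nat_lit 2) (nat_lit 1) (.cons (.rf (nat_lit 744) (nat_lit 493858305440582043680)) (.cons (.rf (nat_lit 745) (nat_lit 493858305440582043680)) (.cons (.br (nat_lit 7) (nat_lit 1) (.cons (.ev (nat_lit 20837011577028802958762388293380) (nat_lit 3)) .nil)) .nil)))),
 (.br (nat_lit 2) (nat_lit 1) (.cons (.rf (nat_lit 744) (nat_lit 493858305440582043680)) (.cons (.rf (nat_lit 745) (nat_lit 493858305440582043680)) (.cons (.br (nat_lit 7) (nat_lit 1) (.cons (.ev (nat_lit 20837011577028802958762388293380) (nat_lit 3)) .nil)) .nil)))),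
 (.br (nat_lit 7) (nat_lit 0) (.cons (.rf (nat_lit 743) (nat_lit 493858305440582043680)) (.cons (.br (nat_lit 12) (nat_lit 0) (.cons (.br (nat_lit 5) (nat_lit 0) (.cons (.br (nat_lit 10) (nat_lit 1) (.cons (.br (nat_lit 13) (nat_lit 0) (.cons (.br (nat_lit 13) (nat_lit 1) (.cons (.br (nat_lit 5) (nat_lit 1) (.cons (.zr (nat_lit 60847230029325563852210219188224) (nat_lit 309485028268372820746043393) (nat_lit 5) (nat_lit 11)) (.cons (.ev (nat_lit 1208944338416296922185729) (nat_lit 1)) (.cons (.zr (nat_lit 238303457580883009941744386816) (nat_lit 1213648186099706483441665) (nat_lit 5) (nat_lit 9)) .nil)))) (.cons (.ev (nat_lit 20282409608392483932365582827521) (nat_lit 1)) (.cons (.br (nat_lit 7) (nat_lit 1) (.cons (.zr (nat_lit 216739030602088448) (nat_lit 310698676454186645565997057) (nat_lit 5) (nat_lit 0)) (.cons (.ev (nat_lit 20282720297587383442338717171713) (nat_lit 1)) (.cons (.zr (nat_lit 216739030635642880) (nat_lit 310698676454186658434121729) (nat_lit 5) (nat_lit 0)) .nil)))) (.cons (.br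 (nat_lit 12) (nat_lit 1) (.cons (.ev (nat_lit 79538856449905297291460215041) (nat_lit 1)) (.cons (.zr (nat_lit 60847538296001726105057897938944) (nat_lit 1213648330494166184230913) (nat_lit 5) (nat_lit 10)) (.cons (.zr (nat_lit 216739030635642880) (nat_lit 310698676454186658434121729) (nat_lit 5) (nat_lit 0)) .nil)))) (.cons (.br (nat_lit 1) (nat_lit 1) (.cons (.ev (nat_lit 79538856449905578766420148481) (nat_lit 1)) (.cons (.zr (nat_lit 618970038089997165407503104) (nat_lit 158457538676714774884947853313) (nat_lit 5) (nat_lit 3)) (.cons (.zr (nat_lit 237686910116798724908643255040) (nat_lit 309485028412485818371801089) (nat_lit 5) (nat_lit 8)) .nil)))) .nil)))))) .nil)) (.cons (.br (nat_lit 2) (nat_lit 0) (.cons (.br (nat_lit 1) (nat_lit 1) (.cons (.br (nat_lit 12) (nat_lit 1) (.cons (.zr (nat_lit 618970038089718984704262144) (nat_lit 158457538676714772690202788353) (nat_lit 5) (nat_lit 10)) (.cons (.zr (nat_lit 237686910116798724908626477824) (nat_lit 309485028412485809798643713) (nat_lit 5) (nat_lit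 8)) (.cons (.ev (nat_lit 79538856449905578766420148481) (nat_lit 1)) .nil)))) (.cons (.br (nat_lit 2) (nat_lit 1) (.cons (.zr (nat_lit 216176089238601728) (nat_lit 310698676454468116247740417) (nat_lit 5) (nat_lit 0)) (.cons (.zr (nat_lit 618970038089715694725759744) (nat_lit 158457538676714774884947853313) (nat_lit 5) (nat_lit 3)) (.cons (.ev (nat_lit 20282409608392483932365582827521) (nat_lit 1)) .nil)))) (.cons (.br (nat_lit 13) (nat_lit 1) (.cons (.ev (nat_lit 20282409608392483932365582827521) (nat_lit 1)) (.cons (.zr (nat_lit 216739030602088448) (nat_lit 310698676454186645565997057) (nat_lit 5) (nat_lit 0)) (.cons (.zr (nat_lit 2422574222447860078608384) (nat_lit 158765810056796764333817201153) (nat_lit 5) (nat_lit 11)) .nil)))) (.cons (.ev (nat_lit 79538856449905297291460215041) (nat_lit 1)) (.cons (.br (nat_lit 12) (nat_lit 1) (.cons (.ev (nat_lit 79538856449905578766420148481) (nat_lit 1)) (.cons (.zr (nat_lit 238303457580882446996085932800) (nat_lit 1213648186381172870217729) (nat_lit 5)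 (nat_lit 9)) (.cons (.zr (nat_lit 237686905394648977771048469248) (nat_lit 309503917734020638211833857) (nat_lit 5) (nat_lit 0)) .nil)))) .nil)))))) .nil)) .nil))) (.cons (.br (nat_lit 13) (nat_lit 0) (.cons (.br (nat_lit 2) (nat_lit 0) (.cons (.br (nat_lit 5) (nat_lit 1) (.cons (.br (nat_lit 7) (nat_lit 1) (.cons (.ev (nat_lit 1208944338697776193863681) (nat_lit 1)) (.cons (.zr (nat_lit 237686910116798724908626477824) (nat_lit 309485028412485809798643713) (nat_lit 5) (nat_lit 8)) (.cons (.ev (nat_lit 1208944338416296922185729) (nat_lit 1)) .nil)))) (.cons (.ev (nat_lit 309485028268090241945960449) (nat_lit 1)) (.cons (.br (nat_lit 2) (nat_lit 1) (.cons (.br (nat_lit 13) (nat_lit 1) (.cons (.ev (nat_lit 79538856449905578766420148481) (nat_lit 1)) .nil)) (.cons (.br (nat_lit 13) (nat_lit 1) (.cons (.ev (nat_lit 79538856449905578766420148481) (nat_lit 1)) .nil)) (.cons (.ev (nat_lit 20282720297587383442338717171713) (nat_lit 1)) .nil)))) (.cons (.br (nat_lit 7) (nat_lit 1) (.cons (.zr (nat_lit 237686910116798724908643255040)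 (nat_lit 309485028412485818371801089) (nat_lit 5) (nat_lit 8)) (.cons (.ev (nat_lit 1208944338697776193863681) (nat_lit 1)) (.cons (.ev (nat_lit 1208944338416296922185729) (nat_lit 1)) .nil)))) (.cons (.ev (nat_lit 309485028268371721217638401) (nat_lit 1)) .nil)))))) .nil)) .nil)) .nil))) (.cons (.br (nat_lit 11) (nat_lit 1) (.cons (.br (nat_lit 9) (nat_lit 1) (.cons (.br (nat_lit 13) (nat_lit 0) (.cons (.br (nat_lit 5) (nat_lit 1) (.cons (.br (nat_lit 12) (nat_lit 1) (.cons (.zr (nat_lit 618970038089715694725759744) (nat_lit 158457538676714774884947853313) (nat_lit 5) (nat_lit 3)) (.cons (.ev (nat_lit 1208944338697776193863681) (nat_lit 1)) (.cons (.zr (nat_lit 238303457580882446991790965504) (nat_lit 1213648186381177131630593) (nat_lit 5) (nat_lit 10)) .nil)))) (.cons (.ev (nat_lit 310693935641242272404602881) (nat_lit 1)) (.cons (.zr (nat_lit 2417851855968288985055232) (nat_lit 309503917734020638195056641) (nat_lit 5) (nat_lit 0)) (.cons (.br (nat_lit 1) (nat_lit 1) (.cons (.zr (nat_lit 618970038089718984704262144)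 (nat_lit 158457538676714772690202788353) (nat_lit 5) (nat_lit 9)) (.cons (.ev (nat_lit 1208944338697771915673601) (nat_lit 1)) (.cons (.zr (nat_lit 618970038089437514022518784) (nat_lit 158457538676715054160884531713) (nat_lit 5) (nat_lit 9)) .nil)))) (.cons (.ev (nat_lit 310693935640960801722859521) (nat_lit 1)) .nil)))))) .nil)) (.cons (.br (nat_lit 10) (nat_lit 1) (.cons (.br (nat_lit 12) (nat_lit 1) (.cons (.rf (nat_lit 746) (nat_lit 493858305440582043680)) (.cons (.rf (nat_lit 732) (nat_lit 458045649246021157952)) (.cons (.br (nat_lit 13) (nat_lit 1) (.cons (.kr (nat_lit 79228162514264337593543950592) (nat_lit 1099528404992) (nat_lit 1) (nat_lit 0)) (.cons (.rf (nat_lit 746) (nat_lit 458008564917839529024)) (.cons (.zr (nat_lit 216739030635642880) (nat_lit 310698676454186658434121729) (nat_lit 5) (nat_lit 0)) .nil)))) (.cons (.br (nat_lit 13) (nat_lit 1) (.cons (.rf (nat_lit 732) (nat_lit 493821221112400414752)) (.cons (.rf (nat_lit 746) (nat_lit 458008564917839529024)) (.cons (.zr (nat_lit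 216739030635642880) (nat_lit 310698676454186658434121729) (nat_lit 5) (nat_lit 0)) .nil)))) (.cons (.rf (nat_lit 733) (nat_lit 493821221112400414752)) .nil)))))) .nil)) .nil))) (.cons (.br (nat_lit 2) (nat_lit 0) (.cons (.rf (nat_lit 743) (nat_lit 458082801743923708992)) (.cons (.br (nat_lit 9) (nat_lit 1) (.cons (.br (nat_lit 7) (nat_lit 1) (.cons (.ev (nat_lit 1208944338416301233930241) (nat_lit 1)) (.cons (.br (nat_lit 13) (nat_lit 1) (.cons (.rf (nat_lit 36) (nat_lit 446653858728781383840)) (.cons (.ev (nat_lit 309485028268371721217638401) (nat_lit 1)) (.cons (.rf (nat_lit 153) (nat_lit 493569900035994650784)) .nil)))) (.cons (.br (nat_lit 2) (nat_lit 1) (.cons (.rf (nat_lit 35) (nat_lit 453571387955940165792)) (.cons (.rf (nat_lit 45) (nat_lit 447813289342224664736)) (.cons (.ev (nat_lit 20282412026244195500692963655682) (nat_lit 2)) .nil)))) (.cons (.ev (nat_lit 1208944338416296922185729) (nat_lit 1)) (.cons (.br (nat_lit 2) (nat_lit 1) (.cons (.rf (nat_lit 36) (nat_lit 453571387955940165792))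 (.cons (.ev (nat_lit 309485028268090241945960449) (nat_lit 1)) (.cons (.rf (nat_lit 46) (nat_lit 447813289342224664736)) .nil)))) .nil)))))) .nil)) .nil))) (.cons (.br (nat_lit 10) (nat_lit 1) (.cons (.br (nat_lit 9) (nat_lit 1) (.cons (.br (nat_lit 5) (nat_lit 1) (.cons (.br (nat_lit 7) (nat_lit 1) (.cons (.kr (nat_lit 18518801672042446848) (nat_lit 309485009821627643213119488) (nat_lit 4) (nat_lit 0)) (.cons (.ev (nat_lit 1208944338416296922185729) (nat_lit 1)) (.cons (.kr (nat_lit 309485009821346168236408832) (nat_lit 18518801667747479552) (nat_lit 5) (nat_lit 0)) .nil)))) (.cons (.ev (nat_lit 310693935641242272404602881) (nat_lit 1)) (.cons (.zr (nat_lit 2422574005715426563063808) (nat_lit 309485028412485809781866497) (nat_lit 5) (nat_lit 8)) (.cons (.br (nat_lit 1) (nat_lit 1) (.cons (.zr (nat_lit 238303457580882446996085932800) (nat_lit 1213648186381172870217729) (nat_lit 5) (nat_lit 10)) (.cons (.ev (nat_lit 1208944338416301233930241) (nat_lit 1)) (.cons (.zr (nat_lit 618970038090000459680972800)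 (nat_lit 158457538676714772694497755649) (nat_lit 5) (nat_lit 9)) .nil)))) (.cons (.ev (nat_lit 310693935640960801722859521) (nat_lit 1)) .nil)))))) .nil)) (.cons (.br (nat_lit 2) (nat_lit 0) (.cons (.br (nat_lit 12) (nat_lit 1) (.cons (.rf (nat_lit 747) (nat_lit 493858305440582043680)) (.cons (.rf (nat_lit 732) (nat_lit 458117704641035830336)) (.cons (.br (nat_lit 7) (nat_lit 1) (.cons (.ev (nat_lit 79537652246452165536208912641) (nat_lit 1)) (.cons (.zr (nat_lit 216176080682221568) (nat_lit 310698676454468120525930497) (nat_lit 5) (nat_lit 0)) (.cons (.zr (nat_lit 216739030635642880) (nat_lit 310698676454186658434121729) (nat_lit 5) (nat_lit 0)) .nil)))) (.cons (.br (nat_lit 13) (nat_lit 1) (.cons (.rf (nat_lit 732) (nat_lit 493823402543469922336)) (.cons (.rf (nat_lit 747) (nat_lit 458082801743923708992)) (.cons (.zr (nat_lit 216739030635642880) (nat_lit 310698676454186658434121729) (nat_lit 5) (nat_lit 0)) .nil)))) (.cons (.rf (nat_lit 733) (nat_lit 493823402543469922336)) .nil)))))) .nil))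 .nil))) .nil)))) (.cons (.br (nat_lit 13) (nat_lit 0) (.cons (.br (nat_lit 2) (nat_lit 0) (.cons (.br (nat_lit 5) (nat_lit 0) (.cons (.br (nat_lit 12) (nat_lit 1) (.cons (.ev (nat_lit 79537647542532708210954993921) (nat_lit 1)) (.cons (.br (nat_lit 1) (nat_lit 1) (.cons (.rf (nat_lit 738) (nat_lit 493821221112400414752)) (.cons (.rf (nat_lit 739) (nat_lit 493821221112400414752)) (.cons (.ev (nat_lit 79537647542532426735995060481) (nat_lit 1)) .nil)))) (.cons (.br (nat_lit 7) (nat_lit 1) (.cons (.ev (nat_lit 79229376162522493785930203393) (nat_lit 1)) (.cons (.zr (nat_lit 216176080682221568) (nat_lit 310698676454468120525930497) (nat_lit 5) (nat_lit 0)) (.cons (.zr (nat_lit 216739030635642880) (nat_lit 310698676454186658434121729) (nat_lit 5) (nat_lit 0)) .nil)))) (.cons (.br (nat_lit 5) (nat_lit 1) (.cons (.ev (nat_lit 79229376162522493785930203393) (nat_lit 1)) (.cons (.zr (nat_lit 216176080682221568) (nat_lit 310698676454468120525930497) (nat_lit 5) (nat_lit 0)) (.cons (.zr (nat_lit 216739030635642880)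 (nat_lit 310698676454186658434121729) (nat_lit 5) (nat_lit 0)) .nil)))) (.cons (.br (nat_lit 7) (nat_lit 1) (.cons (.rf (nat_lit 165) (nat_lit 493778188225426562208)) (.cons (.rf (nat_lit 165) (nat_lit 458113053610018610336)) (.cons (.ev (nat_lit 1208944338416296922185729) (nat_lit 1)) .nil)))) .nil)))))) .nil)) .nil)) (.cons (.br (nat_lit 5) (nat_lit 0) (.cons (.br (nat_lit 2) (nat_lit 0) (.cons (.br (nat_lit 13) (nat_lit 1) (.cons (.br (nat_lit 2) (nat_lit 1) (.cons (.ev (nat_lit 310693935641242272404602881) (nat_lit 1)) (.cons (.ev (nat_lit 1208944338697776193863681) (nat_lit 1)) (.cons (.ev (nat_lit 79537647542532426735995060481) (nat_lit 1)) .nil)))) (.cons (.br (nat_lit 1) (nat_lit 1) (.cons (.br (nat_lit 12) (nat_lit 1) (.cons (.ev (nat_lit 20837011586436643562236986590980) (nat_lit 3)) .nil)) (.cons (.br (nat_lit 12) (nat_lit 1) (.cons (.ev (nat_lit 20837011586436643562245542971140) (nat_lit 3)) .nil)) (.cons (.ev (nat_lit 79537647542532708210954993921) (nat_lit 1)) .nil)))) (.cons (.ev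 (nat_lit 310693935640960801722859521) (nat_lit 1)) (.cons (.ev (nat_lit 1208944338416296922185729) (nat_lit 1)) (.cons (.br (nat_lit 2) (nat_lit 1) (.cons (.ev (nat_lit 79537647542532426735995060481) (nat_lit 1)) (.cons (.ev (nat_lit 310693935641242272404602881) (nat_lit 1)) (.cons (.ev (nat_lit 1208944338697776193863681) (nat_lit 1)) .nil)))) .nil)))))) .nil)) (.cons (.br (nat_lit 2) (nat_lit 0) (.cons (.br (nat_lit 1) (nat_lit 1) (.cons (.br (nat_lit 5) (nat_lit 1) (.cons (.ev (nat_lit 1208944338697776193863681) (nat_lit 1)) (.cons (.br (nat_lit 7) (nat_lit 1) (.cons (.zr (nat_lit 216739030635642880) (nat_lit 310698676454186658434121729) (nat_lit 5) (nat_lit 0)) .nil)) (.cons (.br (nat_lit 12) (nat_lit 1) (.cons (.zr (nat_lit 216739030635642880) (nat_lit 310698676454186658434121729) (nat_lit 5) (nat_lit 0)) .nil)) .nil)))) (.cons (.br (nat_lit 7) (nat_lit 1) (.cons (.zr (nat_lit 216176089238601728) (nat_lit 310698676454468116247740417) (nat_lit 5) (nat_lit 0)) (.cons (.ev (nat_lit 79229376162522493785930203393)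 (nat_lit 1)) (.cons (.zr (nat_lit 216739030602088448) (nat_lit 310698676454186645565997057) (nat_lit 5) (nat_lit 0)) .nil)))) (.cons (.br (nat_lit 12) (nat_lit 1) (.cons (.rf (nat_lit 734) (nat_lit 493823402543469922336)) (.cons (.ev (nat_lit 79229376162522493785930203393) (nat_lit 1)) (.cons (.rf (nat_lit 736) (nat_lit 493823402543469922336)) .nil)))) (.cons (.ev (nat_lit 79537647542532708210954993921) (nat_lit 1)) (.cons (.br (nat_lit 5) (nat_lit 1) (.cons (.rf (nat_lit 734) (nat_lit 458117704641035830336)) (.cons (.ev (nat_lit 1208944338697776193863681) (nat_lit 1)) (.cons (.rf (nat_lit 183) (nat_lit 493563352583672988896)) .nil)))) .nil)))))) .nil)) .nil))) .nil))) .nil)))) .nil)))]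

theorem c27 : chkAll C T R L27 (nat_lit 734) = true := by decide +kernel

theorem l27 : (nat_lit 734) + L27.length = (nat_lit 749) := by decide +kernel

/-- part of the certificates -/
def L28 : List Prf := [(.br (nat_lit 7) (nat_lit 0) (.cons (.rf (nat_lit 748) (nat_lit 493858305440582043680)) (.cons (.rf (nat_lit 748) (nat_lit 493857214725047289888)) (.cons (.br (nat_lit 7) (nat_lit 0) (.cons (.rf (nat_lit 748) (nat_lit 493858305440582043680)) (.cons (.rf (nat_lit 748) (nat_lit 493857214725047289888)) .nil))) .nil)))),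
 (.br (nat_lit 13) (nat_lit 0) (.cons (.br (nat_lit 7) (nat_lit 1) (.cons (.br (nat_lit 12) (nat_lit 1) (.cons (.rf (nat_lit 86) (nat_lit 347439352429135795264)) (.cons (.ev (nat_lit 1213648186380073325035521) (nat_lit 1)) (.cons (.rf (nat_lit 87) (nat_lit 347439352429135795264)) .nil)))) (.cons (.ev (nat_lit 4740885566016664371201) (nat_lit 1)) (.cons (.br (nat_lit 13) (nat_lit 1) (.cons (.rf (nat_lit 85) (nat_lit 420002475459768228896)) (.cons (.ev (nat_lit 20282719093420896421473899577346) (nat_lit 2)) (.cons (.rf (nat_lit 180) (nat_lit 457930631401597896864)) .nil)))) (.cons (.br (nat_lit 5) (nat_lit 1) (.cons (.ev (nat_lit 1213648186380077603225601) (nat_lit 1)) (.cons (.rf (nat_lit 86) (nat_lit 125898277195286381792)) (.cons (.rf (nat_lit 88) (nat_lit 420002475459768228896)) .nil)))) (.cons (.ev (nat_lit 4740885284537392693249) (nat_lit 1)) .nil)))))) .nil)),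
 (.br (nat_lit 7) (nat_lit 0) (.cons (.rf (nat_lit 750) (nat_lit 493857214725047289888)) (.cons (.rf (nat_lit 750) (nat_lit 493858305440582043680)) .nil))),
 (.br (nat_lit 11) (nat_lit 1) (.cons (.rf (nat_lit 751) (nat_lit 493858305440582043680)) (.cons (.rf (nat_lit 751) (nat_lit 458117738794548659264)) .nil))),
 (.br (nat_lit 7) (nat_lit 1) (.cons (.br (nat_lit 12) (nat_lit 1) (.cons (.ev (nat_lit 79537647542532426735995060481) (nat_lit 1)) .nil)) (.cons (.kr (nat_lit 1099511627776) (nat_lit 72057594037927936) (nat_lit 5) (nat_lit 0)) (.cons (.br (nat_lit 5) (nat_lit 1) (.cons (.ev (nat_lit 79537647542532426735995060481) (nat_lit 1)) .nil)) .nil)))),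
 (.br (nat_lit 12) (nat_lit 1) (.cons (.rf (nat_lit 753) (nat_lit 458117738795621352512)) (.cons (.rf (nat_lit 613) (nat_lit 493817837746611557408)) (.cons (.rf (nat_lit 82) (nat_lit 383181043806875425824)) .nil)))),
 (.br (nat_lit 11) (nat_lit 1) (.cons (.rf (nat_lit 752) (nat_lit 493858305440582043680)) (.cons (.br (nat_lit 9) (nat_lit 1) (.cons (.br (nat_lit 7) (nat_lit 0) (.cons (.br (nat_lit 13) (nat_lit 1) (.cons (.rf (nat_lit 613) (nat_lit 458073896668253918272)) (.cons (.rf (nat_lit 753) (nat_lit 493858305440582043680)) (.cons (.rf (nat_lit 754) (nat_lit 493858305440582043680)) (.cons (.rf (nat_lit 754) (nat_lit 493858305371929675808)) (.cons (.rf (nat_lit 640) (nat_lit 493678226158163072032)) .nil)))))) .nil)) .nil)) .nil))),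
 (.br (nat_lit 7) (nat_lit 1) (.cons (.ev (nat_lit 79537647542532426735995060481) (nat_lit 1)) (.cons (.rf (nat_lit 680) (nat_lit 493819816833181750336)) (.cons (.rf (nat_lit 503) (nat_lit 493815591547269389344)) .nil)))),
 (.br (nat_lit 5) (nat_lit 1) (.cons (.br (nat_lit 13) (nat_lit 1) (.cons (.ev (nat_lit 20681647693655554927766311863560) (nat_lit 4)) .nil)) (.cons (.ev (nat_lit 79228162514264619068520661249) (nat_lit 1)) (.cons (.br (nat_lit 2) (nat_lit 1) (.cons (.ev (nat_lit 20681647693655554364756228900104) (nat_lit 4)) .nil)) .nil)))),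
 (.br (nat_lit 2) (nat_lit 1) (.cons (.br (nat_lit 5) (nat_lit 1) (.cons (.ev (nat_lit 20681647693655554364764785280264) (nat_lit 4)) .nil)) (.cons (.rf (nat_lit 757) (nat_lit 458009655633374282816)) (.cons (.rf (nat_lit 220) (nat_lit 15067952200127552)) .nil)))),
 (.br (nat_lit 7) (nat_lit 0) (.cons (.rf (nat_lit 749) (nat_lit 493858305371929675808)) (.cons (.br (nat_lit 11) (nat_lit 1) (.cons (.br (nat_lit 8) (nat_lit 1) (.cons (.br (nat_lit 12) (nat_lit 1) (.cons (.br (nat_lit 5) (nat_lit 1) (.cons (.br (nat_lit 7) (nat_lit 1) (.cons (.ev (nat_lit 79537647542604766904504549633) (nat_lit 1)) .nil)) (.cons (.kr (nat_lit 1099511627776) (nat_lit 72057594037927936) (nat_lit 5) (nat_lit 0)) (.cons (.rf (nat_lit 592) (nat_lit 458009655497008026688)) .nil)))) (.cons (.rf (nat_lit 679) (nat_lit 493819816833181750336)) (.cons (.rf (nat_lit 756) (nat_lit 493858305440582043680)) (.cons (.rf (nat_lit 756) (nat_lit 493858305371929675808)) (.cons (.rf (nat_lit 683) (nat_lit 458082730179031045152)) .nil))))))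 .nil)) (.cons (.br (nat_lit 8) (nat_lit 1) (.cons (.br (nat_lit 7) (nat_lit 1) (.cons (.rf (nat_lit 757) (nat_lit 493858305440582043680)) (.cons (.rf (nat_lit 757) (nat_lit 458009655702026650688)) (.cons (.kr (nat_lit 1099511627776) (nat_lit 72057594037927936) (nat_lit 5) (nat_lit 0)) (.cons (.rf (nat_lit 758) (nat_lit 493858305440582043680)) (.cons (.rf (nat_lit 758) (nat_lit 458009655702026650688)) .nil)))))) .nil)) .nil))) (.cons (.rf (nat_lit 749) (nat_lit 458009655633374282816)) .nil)))),
 (.br (nat_lit 2) (nat_lit 0) (.cons (.br (nat_lit 11) (nat_lit 1) (.cons (.rf (nat_lit 752) (nat_lit 493858305440582043680)) (.cons (.rf (nat_lit 755) (nat_lit 493858305440582043680)) (.cons (.rf (nat_lit 755) (nat_lit 458117738794548659264)) .nil)))) (.cons (.rf (nat_lit 749) (nat_lit 458082801812576076864)) (.cons (.rf (nat_lit 749) (nat_lit 458046774115068740672)) (.cons (.br (nat_lit 7) (nat_lit 0) (.cons (.rf (nat_lit 749) (nat_lit 493858305371929675808)) (.cons (.rf (nat_lit 759) (nat_lit 493858305440582043680))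 (.cons (.rf (nat_lit 759) (nat_lit 493857214725047289888)) (.cons (.rf (nat_lit 749) (nat_lit 458009655633374282816)) .nil))))) .nil))))),
 (.br (nat_lit 7) (nat_lit 1) (.cons (.br (nat_lit 5) (nat_lit 1) (.cons (.ev (nat_lit 79537652246524224225480278273) (nat_lit 1)) .nil)) (.cons (.kr (nat_lit 1099511627776) (nat_lit 72057594037927936) (nat_lit 5) (nat_lit 0)) (.cons (.br (nat_lit 2) (nat_lit 1) (.cons (.ev (nat_lit 79537652246524224225480278273) (nat_lit 1)) .nil)) .nil)))),
 (.br (nat_lit 13) (nat_lit 1) (.cons (.rf (nat_lit 613) (nat_lit 458109890280900793408)) (.cons (.rf (nat_lit 761) (nat_lit 458117738795621352512)) (.cons (.rf (nat_lit 82) (nat_lit 420038503225995039776)) .nil)))),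
 (.br (nat_lit 7) (nat_lit 0) (.cons (.rf (nat_lit 760) (nat_lit 493858305371929675808)) (.cons (.br (nat_lit 12) (nat_lit 0) (.cons (.br (nat_lit 13) (nat_lit 0) (.cons (.br (nat_lit 12) (nat_lit 1) (.cons (.rf (nat_lit 761) (nat_lit 493858305440582043680)) (.cons (.rf (nat_lit 613) (nat_lit 493853831359258432544)) (.cons (.rf (nat_lit 762) (nat_lit 493858305440582043680)) (.cons (.rf (nat_lit 762) (nat_lit 493858305371929675808)) (.cons (.rf (nat_lit 640) (nat_lit 493679316873697825824)) .nil)))))) .nil)) .nil)) .nil))),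
 (.br (nat_lit 10) (nat_lit 1) (.cons (.br (nat_lit 5) (nat_lit 1) (.cons (.br (nat_lit 12) (nat_lit 1) (.cons (.zr (nat_lit 237686910116798724908643255040) (nat_lit 309485028268372829319200769) (nat_lit 5) (nat_lit 8)) (.cons (.ev (nat_lit 4740885284537392693249) (nat_lit 1)) (.cons (.zr (nat_lit 2422574006278376499707904) (nat_lit 158765810056796764333817201153) (nat_lit 5) (nat_lit 11)) .nil)))) (.cons (.ev (nat_lit 1208944266641281667563521) (nat_lit 1)) (.cons (.zr (nat_lit 309485046714836523268702208) (nat_lit 1213648330494161889263617) (nat_lit 5) (nat_lit 9)) (.cons (.br (nat_lit 1) (nat_lit 1) (.cons (.zr (nat_lit 237686910116798724908626477824) (nat_lit 309485028268372820746043393) (nat_lit 5) (nat_lit 8)) (.cons (.ev (nat_lit 4740885284541704437761) (nat_lit 1)) (.cons (.zr (nat_lit 237686905394432808287469568768) (nat_lit 309503917734020638211833857) (nat_lit 5) (nat_lit 0)) .nil)))) (.cons (.ev (nat_lit 1208944266359802395885569) (nat_lit 1)) .nil)))))) .nil)),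
 (.br (nat_lit 7) (nat_lit 0) (.cons (.rf (nat_lit 760) (nat_lit 493858305371929675808)) (.cons (.br (nat_lit 9) (nat_lit 1) (.cons (.rf (nat_lit 764) (nat_lit 493858305440582043680)) (.cons (.rf (nat_lit 764) (nat_lit 458117738794548659264)) .nil))) .nil))),
 (.br (nat_lit 12) (nat_lit 1) (.cons (.br (nat_lit 5) (nat_lit 1) (.cons (.kr (nat_lit 79847132533907028830505140480) (nat_lit 20282409613096475447280579706880) (nat_lit 1) (nat_lit 0)) .nil)) (.cons (.ev (nat_lit 79228162514264619068520661249) (nat_lit 1)) (.cons (.br (nat_lit 5) (nat_lit 1) (.cons (.kr (nat_lit 79847132533907028830505140480) (nat_lit 20282409613096475447280579706880) (nat_lit 1) (nat_lit 0)) .nil)) .nil)))),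
 (.br (nat_lit 5) (nat_lit 1) (.cons (.ev (nat_lit 79228162514264619068520661249) (nat_lit 1)) (.cons (.rf (nat_lit 766) (nat_lit 458043501899812111424)) (.cons (.br (nat_lit 2) (nat_lit 1) (.cons (.kr (nat_lit 79847132533907028830505140480) (nat_lit 20282409613096475447280579706880) (nat_lit 1) (nat_lit 0)) .nil)) .nil)))),
 (.br (nat_lit 13) (nat_lit 1) (.cons (.rf (nat_lit 679) (nat_lit 458117633076143166496)) (.cons (.rf (nat_lit 761) (nat_lit 458043501969537172544)) (.cons (.rf (nat_lit 503) (nat_lit 493851585159916264480)) .nil)))),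
 (.br (nat_lit 7) (nat_lit 0) (.cons (.rf (nat_lit 749) (nat_lit 493858305371929675808)) (.cons (.rf (nat_lit 749) (nat_lit 458046774046416372800)) (.cons (.br (nat_lit 8) (nat_lit 1) (.cons (.br (nat_lit 13) (nat_lit 0) (.cons (.br (nat_lit 7) (nat_lit 1) (.cons (.rf (nat_lit 766) (nat_lit 493858305440582043680)) (.cons (.rf (nat_lit 766) (nat_lit 458043501968464479296)) (.cons (.kr (nat_lit 1099511627776) (nat_lit 72057594037927936) (nat_lit 5) (nat_lit 0)) (.cons (.rf (nat_lit 767) (nat_lit 493858305440582043680)) (.cons (.rf (nat_lit 767) (nat_lit 458043501968464479296)) .nil)))))) .nil)) (.cons (.br (nat_lit 10) (nat_lit 1) (.cons (.br (nat_lit 12) (nat_lit 1) (.cons (.rf (nat_lit 761) (nat_lit 493858305440582043680)) (.cons (.rf (nat_lit 679) (nat_lit 493855844530689086528)) (.cons (.rf (nat_lit 768) (nat_lit 493858305440582043680)) (.cons (.rf (nat_lit 768) (nat_lit 493858305371929675808)) (.cons (.rf (nat_lit 683) (nat_lit 458117633076143166496)) .nil)))))) .nil)) .nil))) .nil)))),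
 (.br (nat_lit 5) (nat_lit 0) (.cons (.rf (nat_lit 749) (nat_lit 493858305440582043680)) (.cons (.rf (nat_lit 760) (nat_lit 493858305440582043680)) (.cons (.br (nat_lit 2) (nat_lit 0) (.cons (.br (nat_lit 7) (nat_lit 0) (.cons (.rf (nat_lit 763) (nat_lit 493858305440582043680)) (.cons (.rf (nat_lit 765) (nat_lit 493858305440582043680)) (.cons (.br (nat_lit 7) (nat_lit 0) (.cons (.rf (nat_lit 763) (nat_lit 493858305440582043680)) (.cons (.rf (nat_lit 765) (nat_lit 493858305440582043680)) .nil))) .nil)))) (.cons (.rf (nat_lit 749) (nat_lit 458082801812576076864)) (.cons (.br (nat_lit 7) (nat_lit 0) (.cons (.rf (nat_lit 749) (nat_lit 493858305371929675808)) (.cons (.rf (nat_lit 769) (nat_lit 493858305440582043680)) (.cons (.rf (nat_lit 749) (nat_lit 458046774046416372800)) (.cons (.rf (nat_lit 769) (nat_lit 458043501968464479296)) .nil))))) (.cons (.rf (nat_lit 749) (nat_lit 458009655702026650688)) .nil))))) .nil)))),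
 (.br (nat_lit 3) (nat_lit 1) (.cons (.rf (nat_lit 424) (nat_lit 244987298880)) (.cons (.rf (nat_lit 710) (nat_lit 493858305440582043680)) (.cons (.rf (nat_lit 710) (nat_lit 493858305371929675808)) (.cons (.br (nat_lit 12) (nat_lit 1) (.cons (.kr (nat_lit 16777216) (nat_lit 79228162514264337593543950336) (nat_lit 3) (nat_lit 0)) (.cons (.kr (nat_lit 281474976710656) (nat_lit 79228162514264337593543950336) (nat_lit 6) (nat_lit 0)) (.cons (.rf (nat_lit 731) (nat_lit 493858305440582043680)) (.cons (.rf (nat_lit 731) (nat_lit 493858305371929675808)) (.cons (.kr (nat_lit 4294967296) (nat_lit 79228162514264337593543950336) (nat_lit 4) (nat_lit 0)) .nil)))))) (.cons (.br (nat_lit 5) (nat_lit 0) (.cons (.rf (nat_lit 749) (nat_lit 493858305440582043680)) (.cons (.rf (nat_lit 770) (nat_lit 493858305440582043680)) (.cons (.rf (nat_lit 770) (nat_lit 493857214725047289888)) (.cons (.br (nat_lit 5) (nat_lit 0) (.cons (.rf (nat_lit 749) (nat_lit 493858305440582043680)) (.cons (.rf (nat_lit 770) (nat_lit 493858305440582043680))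 (.cons (.rf (nat_lit 770) (nat_lit 493857214725047289888)) .nil)))) .nil))))) .nil)))))),
 (.br (nat_lit 4) (nat_lit 1) (.cons (.rf (nat_lit 424) (nat_lit 243913589824)) (.cons (.rf (nat_lit 609) (nat_lit 407901468851537952)) (.cons (.rf (nat_lit 609) (nat_lit 407901400199170080)) (.cons (.br (nat_lit 4) (nat_lit 1) (.cons (.rf (nat_lit 424) (nat_lit 243913589824)) (.cons (.rf (nat_lit 609) (nat_lit 407901468851537952)) (.cons (.rf (nat_lit 609) (nat_lit 407901400199170080)) (.cons (.br (nat_lit 6) (nat_lit 1) (.cons (.rf (nat_lit 710) (nat_lit 493858305437360915520)) (.cons (.rf (nat_lit 710) (nat_lit 493858305368708547648)) (.cons (.rf (nat_lit 771) (nat_lit 493858305440582043680)) (.cons (.rf (nat_lit 771) (nat_lit 458117738797769787424)) .nil))))) .nil))))) .nil))))),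
 (.br (nat_lit 4) (nat_lit 1) (.cons (.rf (nat_lit 772) (nat_lit 407901466706151456)) (.cons (.rf (nat_lit 772) (nat_lit 407901466605491232)) (.cons (.rf (nat_lit 772) (nat_lit 407901397886016544)) (.cons (.kr (nat_lit 4294967296) (nat_lit 281474976710656) (nat_lit 4) (nat_lit 0)) .nil))))),
 (.br (nat_lit 1) (nat_lit 0) (.cons (.rf (nat_lit 424) (nat_lit 247132686368)) (.cons (.rf (nat_lit 424) (nat_lit 244987299872)) (.cons (.br (nat_lit 8) (nat_lit 0) (.cons (.br (nat_lit 8) (nat_lit 0) (.cons (.br (nat_lit 9) (nat_lit 0) (.cons (.br (nat_lit 9) (nat_lit 1) (.cons (.rf (nat_lit 447) (nat_lit 11584701642934304)) (.cons (.rf (nat_lit 447) (nat_lit 11584701542274080)) (.cons (.rf (nat_lit 447) (nat_lit 11584632822799392)) (.cons (.br (nat_lit 9) (nat_lit 1) (.cons (.rf (nat_lit 447) (nat_lit 11584701642934304)) (.cons (.rf (nat_lit 447) (nat_lit 11584701542274080)) (.cons (.rf (nat_lit 447) (nat_lit 11584632822799392)) (.cons (.br (nat_lit 10) (nat_lit 1) (.cons (.rf (nat_lit 447) (nat_lit 10493986108180512))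 (.cons (.rf (nat_lit 447) (nat_lit 10493986007520288)) (.cons (.rf (nat_lit 447) (nat_lit 10493917288045600)) (.cons (.rf (nat_lit 448) (nat_lit 14242959524133701664)) (.cons (.rf (nat_lit 448) (nat_lit 13126066816545818656)) .nil)))))) .nil))))) .nil))))) (.cons (.br (nat_lit 10) (nat_lit 0) (.cons (.br (nat_lit 6) (nat_lit 1) (.cons (.rf (nat_lit 772) (nat_lit 407901468851537952)) (.cons (.rf (nat_lit 772) (nat_lit 407901468750877728)) (.cons (.rf (nat_lit 772) (nat_lit 407901400031403040)) (.cons (.br (nat_lit 6) (nat_lit 1) (.cons (.rf (nat_lit 772) (nat_lit 407901468851537952)) (.cons (.rf (nat_lit 772) (nat_lit 407901468750877728)) (.cons (.rf (nat_lit 772) (nat_lit 407901400031403040)) (.cons (.br (nat_lit 4) (nat_lit 1) (.cons (.rf (nat_lit 772) (nat_lit 407901466706151456)) (.cons (.rf (nat_lit 772) (nat_lit 407901466605491232)) (.cons (.rf (nat_lit 772) (nat_lit 407901397886016544)) (.cons (.rf (nat_lit 773) (nat_lit 493858305440582043680)) (.cons (.rf (nat_lit 773) (nat_lit 458117738797769787424))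 .nil)))))) .nil))))) .nil))))) .nil)) .nil))) .nil)) .nil)) .nil)))),
 (.br (nat_lit 9) (nat_lit 0) (.cons (.br (nat_lit 10) (nat_lit 0) (.cons (.br (nat_lit 11) (nat_lit 0) (.cons (.rf (nat_lit 774) (nat_lit 183687742688)) .nil)) .nil)) .nil)),
 (.br (nat_lit 2) (nat_lit 0) (.cons (.zr (nat_lit 3298534884096) (nat_lit 18447025552998006785) (nat_lit 5) (nat_lit 0)) (.cons (.rf (nat_lit 775) (nat_lit 325530842928160)) .nil))),
 (.br (nat_lit 7) (nat_lit 0) (.cons (.rf (nat_lit 776) (nat_lit 9041080322080)) (.cons (.rf (nat_lit 776) (nat_lit 9043225708576)) (.cons (.rf (nat_lit 775) (nat_lit 325702574508064)) .nil))))]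

theorem c28 : chkAll C T R L28 (nat_lit 749) = true := by decide +kernel

theorem l28 : (nat_lit 749) + L28.length = (nat_lit 778) := by decide +kernel

end Pool.Agent.H93.Neg.Q14_6_0_0_7_1
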