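import Pool.Agent.H93.Neg.TabQ14_6_0_0_7_1

/-!
Certificates.
-/

set_option autoImplicit false
set_option maxRecDepth 100000
set_option linter.all false

namespace Pool.Agent.H93.Neg.Q14_6_0_0_7_1

/-- part of the certificates -/
def L29 : List Prf := [(.br (nat_lit 2) (nat_lit 0) (.cons (.rf (nat_lit 777) (nat_lit 6674416016544)) (.cons (.kr (nat_lit 256) (nat_lit 65536) (nat_lit 1) (nat_lit 0)) (.cons (.rf (nat_lit 775) (nat_lit 325530842928160)) .nil)))),
 (.br (nat_lit 8) (nat_lit 1) (.cons (.kr (nat_lit 256) (nat_lit 65536) (nat_lit 1) (nat_lit 0)) (.cons (.rf (nat_lit 777) (nat_lit 9043225708576)) (.cons (.br (nat_lit 7) (nat_lit 0) (.cons (.rf (nat_lit 778) (nat_lit 9043225708576)) (.cons (.rf (nat_lit 778) (nat_lit 9041080322080)) (.cons (.rf (nat_lit 775) (nat_lit 360886946596896)) .nil)))) .nil)))),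
 (.br (nat_lit 1) (nat_lit 0) (.cons (.ev (nat_lit 282578783305729) (nat_lit 1)) (.cons (.rf (nat_lit 775) (nat_lit 360680855278656)) .nil))),
 (.br (nat_lit 8) (nat_lit 1) (.cons (.rf (nat_lit 779) (nat_lit 9043225708576)) (.cons (.rf (nat_lit 779) (nat_lit 9043225707584)) (.cons (.br (nat_lit 2) (nat_lit 0) (.cons (.rf (nat_lit 780) (nat_lit 325702574508064)) (.cons (.rf (nat_lit 780) (nat_lit 325700429121568)) (.cons (.rf (nat_lit 775) (nat_lit 360715215016992)) .nil)))) .nil)))),
 (.br (nat_lit 7) (nat_lit 0) (.cons (.kr (nat_lit 1099511627776) (nat_lit 72057594037927936) (nat_lit 5) (nat_lit 0)) (.cons (.rf (nat_lit 775) (nat_lit 396071318685728)) .nil))),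
 (.br (nat_lit 8) (nat_lit 1) (.cons (.rf (nat_lit 779) (nat_lit 9043225708576)) (.cons (.rf (nat_lit 779) (nat_lit 9043225707584)) (.cons (.rf (nat_lit 781) (nat_lit 9043225708576)) (.cons (.br (nat_lit 8) (nat_lit 1) (.cons (.rf (nat_lit 779) (nat_lit 9043225708576)) (.cons (.rf (nat_lit 779) (nat_lit 9043225707584)) (.cons (.rf (nat_lit 781) (nat_lit 9043225708576)) (.cons (.br (nat_lit 7) (nat_lit 0) (.cons (.rf (nat_lit 782) (nat_lit 11584701642934304)) (.cons (.rf (nat_lit 782) (nat_lit 11584699497547808)) (.cons (.rf (nat_lit 775) (nat_lit 396071318685728)) .nil)))) .nil))))) .nil))))),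
 (.br (nat_lit 7) (nat_lit 0) (.cons (.rf (nat_lit 783) (nat_lit 8974573340704)) (.cons (.br (nat_lit 2) (nat_lit 0) (.cons (.kr (nat_lit 18446744073709617152) (nat_lit 1099528404992) (nat_lit 2) (nat_lit 0)) (.cons (.kr (nat_lit 18446744073709617152) (nat_lit 72057594054705152) (nat_lit 2) (nat_lit 0)) (.cons (.rf (nat_lit 775) (nat_lit 325530842928160)) .nil)))) (.cons (.rf (nat_lit 775) (nat_lit 325702574508064)) .nil)))),
 (.br (nat_lit 5) (nat_lit 0) (.cons (.rf (nat_lit 783) (nat_lit 9043225708576)) (.cons (.br (nat_lit 7) (nat_lit 0) (.cons (.br (nat_lit 7) (nat_lit 0) (.cons (.rf (nat_lit 783) (nat_lit 8974573340704)) (.cons (.kr (nat_lit 1099511627776) (nat_lit 72057594037927936) (nat_lit 5) (nat_lit 0)) (.cons (.rf (nat_lit 775) (nat_lit 325702574508064)) .nil)))) (.cons (.rf (nat_lit 784) (nat_lit 9043225708576)) (.cons (.br (nat_lit 7) (nat_lit 0) (.cons (.kr (nat_lit 1099511627776) (nat_lit 72057594037927936) (nat_lit 5) (nat_lit 0)) (.cons (.rf (nat_lit 784) (nat_lit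 9043225708576)) (.cons (.rf (nat_lit 775) (nat_lit 325702574508064)) .nil)))) (.cons (.rf (nat_lit 775) (nat_lit 325702574508064)) .nil))))) (.cons (.rf (nat_lit 775) (nat_lit 325633922140192)) .nil)))),
 (.br (nat_lit 5) (nat_lit 0) (.cons (.rf (nat_lit 785) (nat_lit 9043225708576)) (.cons (.rf (nat_lit 785) (nat_lit 9041080322080)) (.cons (.br (nat_lit 5) (nat_lit 0) (.cons (.rf (nat_lit 785) (nat_lit 9043225708576)) (.cons (.rf (nat_lit 785) (nat_lit 9041080322080)) (.cons (.rf (nat_lit 775) (nat_lit 325633922140192)) .nil)))) (.cons (.rf (nat_lit 775) (nat_lit 325633922140192)) .nil))))),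
 (.br (nat_lit 7) (nat_lit 0) (.cons (.zr (nat_lit 3298535079936) (nat_lit 18447025552998006785) (nat_lit 5) (nat_lit 0)) (.cons (.rf (nat_lit 775) (nat_lit 325702574508064)) .nil))),
 (.br (nat_lit 6) (nat_lit 1) (.cons (.zr (nat_lit 3298535079936) (nat_lit 18447025552998006785) (nat_lit 5) (nat_lit 0)) (.cons (.rf (nat_lit 780) (nat_lit 323333764814048)) .nil))),
 (.br (nat_lit 1) (nat_lit 0) (.cons (.rf (nat_lit 786) (nat_lit 6846348920864)) (.cons (.br (nat_lit 2) (nat_lit 0) (.cons (.rf (nat_lit 786) (nat_lit 4647325730848)) (.cons (.br (nat_lit 5) (nat_lit 0) (.cons (.ev (nat_lit 1103823438081) (nat_lit 1)) (.cons (.br (nat_lit 7) (nat_lit 0) (.cons (.rf (nat_lit 787) (nat_lit 9043225708576)) (.cons (.rf (nat_lit 787) (nat_lit 4641962264608)) (.cons (.rf (nat_lit 775) (nat_lit 325702574508064)) .nil)))) (.cons (.ev (nat_lit 18446745173237956609) (nat_lit 1)) (.cons (.rf (nat_lit 775) (nat_lit 325633922140192)) .nil))))) (.cons (.rf (nat_lit 775) (nat_lit 325530842928160))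 .nil)))) (.cons (.br (nat_lit 2) (nat_lit 0) (.cons (.br (nat_lit 5) (nat_lit 0) (.cons (.ev (nat_lit 1103823438081) (nat_lit 1)) (.cons (.ev (nat_lit 282574505181441) (nat_lit 1)) (.cons (.br (nat_lit 7) (nat_lit 0) (.cons (.rf (nat_lit 788) (nat_lit 9043225708576)) (.cons (.rf (nat_lit 788) (nat_lit 9041080322080)) (.cons (.rf (nat_lit 775) (nat_lit 325702574508064)) .nil)))) (.cons (.rf (nat_lit 775) (nat_lit 325633922140192)) .nil))))) (.cons (.rf (nat_lit 786) (nat_lit 3545667733536)) (.cons (.rf (nat_lit 775) (nat_lit 325530842928160)) .nil)))) (.cons (.rf (nat_lit 775) (nat_lit 325496483189824)) .nil))))),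
 (.br (nat_lit 2) (nat_lit 0) (.cons (.rf (nat_lit 789) (nat_lit 9043225708576)) (.cons (.rf (nat_lit 789) (nat_lit 9041080322080)) (.cons (.br (nat_lit 2) (nat_lit 0) (.cons (.rf (nat_lit 789) (nat_lit 9043225708576)) (.cons (.rf (nat_lit 789) (nat_lit 9041080322080)) (.cons (.rf (nat_lit 775) (nat_lit 325530842928160)) .nil)))) (.cons (.rf (nat_lit 775) (nat_lit 325530842928160)) .nil))))),
 (.br (nat_lit 5) (nat_lit 0) (.cons (.rf (nat_lit 790) (nat_lit 9043225708576)) (.cons (.rf (nat_lit 786) (nat_lit 6674416016544)) (.cons (.rf (nat_lit 790) (nat_lit 4647325729856)) (.cons (.br (nat_lit 7) (nat_lit 0) (.cons (.rf (nat_lit 790) (nat_lit 8974573340704)) (.cons (.rf (nat_lit 790) (nat_lit 4578673361984)) (.cons (.rf (nat_lit 786) (nat_lit 3373734829216)) (.cons (.rf (nat_lit 775) (nat_lit 325702574508064)) .nil))))) (.cons (.rf (nat_lit 775) (nat_lit 325633922140192)) .nil)))))),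
 (.br (nat_lit 2) (nat_lit 0) (.cons (.rf (nat_lit 790) (nat_lit 6777696552000)) (.cons (.rf (nat_lit 791) (nat_lit 9043225708576)) (.cons (.br (nat_lit 2) (nat_lit 0) (.cons (.rf (nat_lit 790) (nat_lit 6777696552000)) (.cons (.rf (nat_lit 791) (nat_lit 9043225708576)) (.cons (.rf (nat_lit 775) (nat_lit 360715215016992)) .nil)))) (.cons (.rf (nat_lit 775) (nat_lit 360715215016992)) .nil))))),
 (.br (nat_lit 5) (nat_lit 0) (.cons (.br (nat_lit 7) (nat_lit 0) (.cons (.zr (nat_lit 36893488147435881216) (nat_lit 281479271809025) (nat_lit 5) (nat_lit 4)) (.cons (.rf (nat_lit 775) (nat_lit 325702574508064)) .nil))) (.cons (.rf (nat_lit 775) (nat_lit 325633922140192)) .nil))),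
 (.br (nat_lit 5) (nat_lit 0) (.cons (.rf (nat_lit 793) (nat_lit 9043225708576)) (.cons (.br (nat_lit 5) (nat_lit 0) (.cons (.rf (nat_lit 793) (nat_lit 9043225708576)) (.cons (.rf (nat_lit 775) (nat_lit 325633922140192)) .nil))) (.cons (.rf (nat_lit 775) (nat_lit 325633922140192)) .nil)))),
 (.br (nat_lit 10) (nat_lit 0) (.cons (.br (nat_lit 10) (nat_lit 0) (.cons (.br (nat_lit 11) (nat_lit 1) (.cons (.br (nat_lit 12) (nat_lit 1) (.cons (.br (nat_lit 10) (nat_lit 0) (.cons (.br (nat_lit 13) (nat_lit 1) (.cons (.kr (nat_lit 1208925891672223212634368) (nat_lit 4722366483969156907008) (nat_lit 1) (nat_lit 0)) .nil)) .nil)) .nil)) .nil)) .nil)) .nil)),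
 (.br (nat_lit 7) (nat_lit 0) (.cons (.br (nat_lit 5) (nat_lit 0) (.cons (.rf (nat_lit 795) (nat_lit 11584701642934304)) (.cons (.rf (nat_lit 775) (nat_lit 396002666317856)) .nil))) (.cons (.rf (nat_lit 775) (nat_lit 396071318685728)) .nil))),
 (.br (nat_lit 7) (nat_lit 0) (.cons (.rf (nat_lit 796) (nat_lit 11584701642934304)) (.cons (.br (nat_lit 7) (nat_lit 0) (.cons (.rf (nat_lit 796) (nat_lit 11584701642934304)) (.cons (.rf (nat_lit 775) (nat_lit 396071318685728)) .nil))) (.cons (.rf (nat_lit 775) (nat_lit 396071318685728)) .nil)))),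
 (.br (nat_lit 7) (nat_lit 0) (.cons (.rf (nat_lit 797) (nat_lit 10493917455812640)) (.cons (.br (nat_lit 7) (nat_lit 0) (.cons (.rf (nat_lit 797) (nat_lit 10493917455812640)) (.cons (.rf (nat_lit 775) (nat_lit 396071318685728)) .nil))) (.cons (.rf (nat_lit 775) (nat_lit 396071318685728)) .nil)))),
 (.br (nat_lit 2) (nat_lit 0) (.cons (.kr (nat_lit 256) (nat_lit 65536) (nat_lit 1) (nat_lit 0)) (.cons (.br (nat_lit 7) (nat_lit 0) (.cons (.rf (nat_lit 794) (nat_lit 9043225708576)) (.cons (.rf (nat_lit 794) (nat_lit 9041080321088)) (.cons (.br (nat_lit 7) (nat_lit 0) (.cons (.rf (nat_lit 794) (nat_lit 9043225708576)) (.cons (.rf (nat_lit 794) (nat_lit 9041080321088)) (.cons (.rf (nat_lit 775) (nat_lit 396071318685728)) .nil)))) (.cons (.rf (nat_lit 775) (nat_lit 396071318685728)) .nil))))) (.cons (.br (nat_lit 5) (nat_lit 0) (.cons (.rf (nat_lit 797) (nat_lit 11584701642934304)) (.cons (.br (nat_lit 5) (nat_lit 0) (.cons (.rf (nat_lit 797) (nat_lit 11584701642934304)) (.cons (.rf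 (nat_lit 798) (nat_lit 11584701642934304)) (.cons (.rf (nat_lit 775) (nat_lit 396002666317856)) .nil)))) (.cons (.rf (nat_lit 798) (nat_lit 11584701642934304)) (.cons (.rf (nat_lit 775) (nat_lit 396002666317856)) .nil))))) (.cons (.rf (nat_lit 775) (nat_lit 395899587105824)) .nil))))),
 (.br (nat_lit 12) (nat_lit 1) (.cons (.kr (nat_lit 309485009821345068724781056) (nat_lit 79228162514264337593543950336) (nat_lit 11) (nat_lit 0)) .nil)),
 (.br (nat_lit 10) (nat_lit 1) (.cons (.br (nat_lit 13) (nat_lit 0) (.cons (.rf (nat_lit 800) (nat_lit 455779244691257657376)) (.cons (.rf (nat_lit 800) (nat_lit 420038678048445401120)) .nil))) .nil)),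
 (.br (nat_lit 7) (nat_lit 0) (.cons (.ev (nat_lit 4311810049) (nat_lit 1)) (.cons (.br (nat_lit 5) (nat_lit 0) (.cons (.br (nat_lit 9) (nat_lit 0) (.cons (.br (nat_lit 10) (nat_lit 0) (.cons (.br (nat_lit 10) (nat_lit 0) (.cons (.br (nat_lit 12) (nat_lit 0) (.cons (.rf (nat_lit 801) (nat_lit 14242959524133701664)) .nil)) .nil)) .nil)) .nil)) (.cons (.rf (nat_lit 775) (nat_lit 360818294229024)) .nil))) (.cons (.rf (nat_lit 775) (nat_lit 360886946596896)) .nil)))),
 (.br (nat_lit 7) (nat_lit 0) (.cons (.ev (nat_lit 4311810049) (nat_lit 1)) (.cons (.rf (nat_lit 802) (nat_lit 321232658695232)) (.cons (.br (nat_lit 5) (nat_lit 0) (.cons (.rf (nat_lit 802) (nat_lit 320134218777664)) (.cons (.ev (nat_lit 18447025548686262529) (nat_lit 1)) (.cons (.rf (nat_lit 775) (nat_lit 360818294229024)) .nil)))) (.cons (.rf (nat_lit 775) (nat_lit 360886946596896)) .nil))))),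
 (.br (nat_lit 2) (nat_lit 0) (.cons (.rf (nat_lit 799) (nat_lit 11584701642934304)) (.cons (.rf (nat_lit 799) (nat_lit 11582504766146592)) (.cons (.br (nat_lit 5) (nat_lit 0) (.cons (.rf (nat_lit 803) (nat_lit 325702574508064)) (.cons (.rf (nat_lit 803) (nat_lit 323505697720352)) (.cons (.rf (nat_lit 803) (nat_lit 321301311063104)) (.cons (.rf (nat_lit 803) (nat_lit 320202871145536)) (.cons (.rf (nat_lit 775) (nat_lit 396002666317856)) .nil)))))) (.cons (.rf (nat_lit 775) (nat_lit 395899587105824)) .nil))))),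
 (.br (nat_lit 2) (nat_lit 0) (.cons (.rf (nat_lit 799) (nat_lit 11584701642934304)) (.cons (.rf (nat_lit 799) (nat_lit 11582504766146592)) (.cons (.rf (nat_lit 804) (nat_lit 11584701642934304)) (.cons (.rf (nat_lit 804) (nat_lit 11582504766146592)) (.cons (.rf (nat_lit 775) (nat_lit 395899587105824)) .nil)))))),
 (.br (nat_lit 2) (nat_lit 0) (.cons (.br (nat_lit 9) (nat_lit 0) (.cons (.rf (nat_lit 780) (nat_lit 325496315417824)) (.cons (.br (nat_lit 11) (nat_lit 0) (.cons (.br (nat_lit 11) (nat_lit 1) (.cons (.rf (nat_lit 775) (nat_lit 396071318685728)) (.cons (.br (nat_lit 12) (nat_lit 0) (.cons (.br (nat_lit 8) (nat_lit 1) (.cons (.br (nat_lit 13) (nat_lit 0) (.cons (.rf (nat_lit 801) (nat_lit 15433033455847442464)) .nil)) (.cons (.rf (nat_lit 780) (nat_lit 325496315417824)) (.cons (.rf (nat_lit 780) (nat_lit 360680687506656)) .nil)))) .nil)) .nil))) .nil)) .nil))) (.cons (.rf (nat_lit 805) (nat_lit 11582499402679360)) (.cons (.rf (nat_lit 775) (nat_lit 395899587105824))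 .nil)))),
 (.br (nat_lit 2) (nat_lit 0) (.cons (.kr (nat_lit 256) (nat_lit 65536) (nat_lit 1) (nat_lit 0)) (.cons (.rf (nat_lit 805) (nat_lit 11582499402679360)) (.cons (.rf (nat_lit 805) (nat_lit 11580300379489344)) (.cons (.rf (nat_lit 775) (nat_lit 395899587105824)) .nil))))),
 (.br (nat_lit 5) (nat_lit 0) (.cons (.br (nat_lit 2) (nat_lit 0) (.cons (.rf (nat_lit 806) (nat_lit 11584701642934304)) (.cons (.rf (nat_lit 806) (nat_lit 11584699497547808)) (.cons (.rf (nat_lit 807) (nat_lit 11584701642934304)) (.cons (.rf (nat_lit 775) (nat_lit 395899587105824)) .nil))))) (.cons (.ev (nat_lit 18446744073726329089) (nat_lit 1)) (.cons (.rf (nat_lit 775) (nat_lit 396002666317856)) .nil)))),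
 (.br (nat_lit 5) (nat_lit 0) (.cons (.rf (nat_lit 808) (nat_lit 11584701642934304)) (.cons (.rf (nat_lit 808) (nat_lit 11584699497547808)) (.cons (.ev (nat_lit 18446744073726329089) (nat_lit 1)) (.cons (.rf (nat_lit 775) (nat_lit 396002666317856)) .nil))))),
 (.br (nat_lit 2) (nat_lit 0) (.cons (.rf (nat_lit 805) (nat_lit 11584701642933312)) (.cons (.rf (nat_lit 809) (nat_lit 11582504766145600)) (.cons (.rf (nat_lit 805) (nat_lit 11582499402679360)) (.cons (.rf (nat_lit 775) (nat_lit 395899587105824)) .nil))))),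
 (.br (nat_lit 7) (nat_lit 0) (.cons (.rf (nat_lit 809) (nat_lit 11584701642934304)) (.cons (.br (nat_lit 2) (nat_lit 0) (.cons (.rf (nat_lit 807) (nat_lit 11579204084959264)) (.cons (.rf (nat_lit 810) (nat_lit 11584701642934304)) (.cons (.rf (nat_lit 810) (nat_lit 11584699497547808)) (.cons (.rf (nat_lit 807) (nat_lit 11584701642934304)) (.cons (.rf (nat_lit 775) (nat_lit 395899587105824)) .nil)))))) (.cons (.rf (nat_lit 809) (nat_lit 11579204084959264)) (.cons (.rf (nat_lit 775) (nat_lit 396071318685728)) .nil))))),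
 (.br (nat_lit 7) (nat_lit 1) (.cons (.br (nat_lit 3) (nat_lit 1) (.cons (.rf (nat_lit 786) (nat_lit 9043225708576)) (.cons (.rf (nat_lit 790) (nat_lit 9043225708576)) (.cons (.rf (nat_lit 790) (nat_lit 8974573340704)) (.cons (.br (nat_lit 7) (nat_lit 0) (.cons (.rf (nat_lit 792) (nat_lit 325702574508064)) (.cons (.rf (nat_lit 792) (nat_lit 325700429121568)) (.cons (.br (nat_lit 5) (nat_lit 0) (.cons (.rf (nat_lit 791) (nat_lit 6640089832608)) (.cons (.rf (nat_lit 791) (nat_lit 4441066642592)) (.cons (.rf (nat_lit 786) (nat_lit 3373734829216)) (.cons (.rf (nat_lit 775) (nat_lit 360818294229024)) .nil))))) (.cons (.rf (nat_lit 775) (nat_lit 360886946596896)) .nil))))) .nil))))) (.cons (.br (nat_lit 5) (nat_lit 1) (.cons (.br (nat_lit 1) (nat_lit 0) (.cons (.rf (nat_lit 805) (nat_lit 11584701642934304)) (.cons (.rf (nat_lit 805) (nat_lit 11584699497547808)) (.cons (.br (nat_lit 7) (nat_lit 0) (.cons (.rf (nat_lit 809) (nat_lit 11584701642934304)) (.cons (.rf (nat_lit 811) (nat_lit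 11584701642934304)) (.cons (.rf (nat_lit 811) (nat_lit 11584699497547808)) (.cons (.rf (nat_lit 809) (nat_lit 11579204084959264)) (.cons (.rf (nat_lit 775) (nat_lit 396071318685728)) .nil)))))) (.cons (.rf (nat_lit 775) (nat_lit 395865227367488)) .nil))))) .nil)) .nil))),
 (.br (nat_lit 2) (nat_lit 0) (.cons (.rf (nat_lit 812) (nat_lit 9043091493952)) (.cons (.rf (nat_lit 812) (nat_lit 6846214706240)) (.cons (.rf (nat_lit 812) (nat_lit 4647191516224)) (.cons (.rf (nat_lit 812) (nat_lit 3545533518912)) (.cons (.rf (nat_lit 775) (nat_lit 325530842928160)) .nil)))))),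
 (.br (nat_lit 5) (nat_lit 0) (.cons (.br (nat_lit 6) (nat_lit 0) .nil) .nil)),
 (.br (nat_lit 7) (nat_lit 0) (.cons (.ev (nat_lit 4740885284537392693249) (nat_lit 1)) (.cons (.rf (nat_lit 814) (nat_lit 345249923)) .nil))),
 (.br (nat_lit 11) (nat_lit 0) (.cons (.br (nat_lit 11) (nat_lit 0) (.cons (.rf (nat_lit 814) (nat_lit 412358787)) .nil)) (.cons (.rf (nat_lit 814) (nat_lit 412358787)) .nil))),
 (.br (nat_lit 11) (nat_lit 0) (.cons (.rf (nat_lit 816) (nat_lit 407901468851537952)) (.cons (.br (nat_lit 11) (nat_lit 0) (.cons (.rf (nat_lit 816) (nat_lit 407901468851537952)) (.cons (.rf (nat_lit 814) (nat_lit 412358787)) .nil))) (.cons (.rf (nat_lit 814) (nat_lit 412358787)) .nil)))),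
 (.br (nat_lit 8) (nat_lit 1) (.cons (.br (nat_lit 7) (nat_lit 0) (.cons (.rf (nat_lit 815) (nat_lit 291615568659520)) (.cons (.rf (nat_lit 815) (nat_lit 325702574508064)) (.cons (.rf (nat_lit 814) (nat_lit 345249923)) .nil)))) (.cons (.zr (nat_lit 4740813226943354961920) (nat_lit 16777729) (nat_lit 5) (nat_lit 8)) (.cons (.br (nat_lit 10) (nat_lit 1) (.cons (.rf (nat_lit 817) (nat_lit 407901468851537952)) .nil)) .nil)))),
 (.br (nat_lit 11) (nat_lit 0) (.cons (.br (nat_lit 11) (nat_lit 0) (.cons (.rf (nat_lit 814) (nat_lit 412358787)) .nil)) (.cons (.rf (nat_lit 814) (nat_lit 412358787)) .nil))),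
 (.br (nat_lit 11) (nat_lit 0) (.cons (.rf (nat_lit 819) (nat_lit 407901468851537952)) (.cons (.br (nat_lit 11) (nat_lit 0) (.cons (.rf (nat_lit 819) (nat_lit 407901468851537952)) (.cons (.rf (nat_lit 814) (nat_lit 412358787)) .nil))) (.cons (.rf (nat_lit 814) (nat_lit 412358787)) .nil)))),
 (.br (nat_lit 8) (nat_lit 1) (.cons (.rf (nat_lit 818) (nat_lit 325702574508064)) (.cons (.br (nat_lit 4) (nat_lit 1) (.cons (.kr (nat_lit 18446744073709617152) (nat_lit 1099528404992) (nat_lit 2) (nat_lit 0)) (.cons (.kr (nat_lit 18518801667747479808) (nat_lit 2199040032768) (nat_lit 1) (nat_lit 0)) (.cons (.br (nat_lit 10) (nat_lit 0) (.cons (.br (nat_lit 10) (nat_lit 0) (.cons (.rf (nat_lit 814) (nat_lit 378804355)) .nil)) (.cons (.rf (nat_lit 814) (nat_lit 378804355)) .nil))) .nil)))) (.cons (.br (nat_lit 10) (nat_lit 1) (.cons (.rf (nat_lit 820) (nat_lit 407901468851537952)) .nil)) .nil)))),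
 (.br (nat_lit 11) (nat_lit 0) (.cons (.br (nat_lit 11) (nat_lit 0) (.cons (.rf (nat_lit 814) (nat_lit 412358787)) .nil)) (.cons (.rf (nat_lit 814) (nat_lit 412358787)) .nil))),
 (.br (nat_lit 11) (nat_lit 0) (.cons (.rf (nat_lit 822) (nat_lit 407901468851537952)) (.cons (.br (nat_lit 11) (nat_lit 0) (.cons (.rf (nat_lit 822) (nat_lit 407901468851537952)) (.cons (.rf (nat_lit 814) (nat_lit 412358787)) .nil))) (.cons (.rf (nat_lit 814) (nat_lit 412358787)) .nil)))),
 (.br (nat_lit 8) (nat_lit 1) (.cons (.zr (nat_lit 4740813226943354961920) (nat_lit 16777729) (nat_lit 5) (nat_lit 8)) (.cons (.rf (nat_lit 821) (nat_lit 325702574508064)) (.cons (.br (nat_lit 10) (nat_lit 1) (.cons (.rf (nat_lit 823) (nat_lit 407901468851537952)) .nil)) .nil)))),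
 (.br (nat_lit 10) (nat_lit 0) (.cons (.br (nat_lit 2) (nat_lit 0) (.cons (.kr (nat_lit 1208925819614629174706432) (nat_lit 18446744073709617152) (nat_lit 1) (nat_lit 0)) (.cons (.rf (nat_lit 820) (nat_lit 407688165642769440)) (.cons (.rf (nat_lit 814) (nat_lit 412358787)) .nil)))) (.cons (.rf (nat_lit 814) (nat_lit 412358787)) .nil))),
 (.br (nat_lit 8) (nat_lit 1) (.cons (.rf (nat_lit 818) (nat_lit 325702574508064)) (.cons (.rf (nat_lit 821) (nat_lit 325702574508064)) (.cons (.rf (nat_lit 824) (nat_lit 325702574508064)) (.cons (.br (nat_lit 8) (nat_lit 1) (.cons (.rf (nat_lit 818) (nat_lit 325702574508064)) (.cons (.rf (nat_lit 821) (nat_lit 325702574508064)) (.cons (.rf (nat_lit 824) (nat_lit 325702574508064)) (.cons (.br (nat_lit 10) (nat_lit 1) (.cons (.br (nat_lit 10) (nat_lit 0) (.cons (.rf (nat_lit 825) (nat_lit 407901468851537952)) (.cons (.br (nat_lit 10) (nat_lit 0) (.cons (.rf (nat_lit 825) (nat_lit 407901468851537952)) (.cons (.rf (nat_lit 814) (nat_lit 412358787))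 .nil))) (.cons (.rf (nat_lit 814) (nat_lit 412358787)) .nil)))) .nil)) .nil))))) .nil)))))]

theorem c29 : chkAll C T R L29 (nat_lit 778) = true := by decide +kernel

theorem l29 : (nat_lit 778) + L29.length = (nat_lit 827) := by decide +kernel

/-- part of the certificates -/
def L30 : List Prf := [(.br (nat_lit 2) (nat_lit 0) (.cons (.ev (nat_lit 309489750634853491368001793) (nat_lit 1)) (.cons (.rf (nat_lit 814) (nat_lit 412358787)) .nil))),
 (.br (nat_lit 5) (nat_lit 0) (.cons (.rf (nat_lit 827) (nat_lit 407901468851537952)) (.cons (.br (nat_lit 5) (nat_lit 0) (.cons (.rf (nat_lit 827) (nat_lit 407901468851537952)) (.cons (.rf (nat_lit 814) (nat_lit 412358787)) .nil))) (.cons (.rf (nat_lit 814) (nat_lit 412358787)) .nil)))),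
 (.br (nat_lit 11) (nat_lit 0) (.cons (.br (nat_lit 7) (nat_lit 0) (.cons (.rf (nat_lit 828) (nat_lit 407901468851537952)) (.cons (.br (nat_lit 5) (nat_lit 0) (.cons (.rf (nat_lit 828) (nat_lit 407901400199170080)) (.cons (.ev (nat_lit 18447025548686262529) (nat_lit 1)) (.cons (.rf (nat_lit 814) (nat_lit 412358787)) .nil)))) (.cons (.br (nat_lit 5) (nat_lit 0) (.cons (.rf (nat_lit 828) (nat_lit 407901400199170080)) (.cons (.ev (nat_lit 18447025548686262529) (nat_lit 1)) (.cons (.rf (nat_lit 814) (nat_lit 412358787)) .nil)))) (.cons (.rf (nat_lit 814) (nat_lit 412358787)) .nil))))) (.cons (.rf (nat_lit 814) (nat_lit 412358787)) .nil))),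
 (.br (nat_lit 11) (nat_lit 0) (.cons (.rf (nat_lit 829) (nat_lit 407901468851537952)) (.cons (.br (nat_lit 11) (nat_lit 0) (.cons (.rf (nat_lit 829) (nat_lit 407901468851537952)) (.cons (.rf (nat_lit 814) (nat_lit 412358787)) .nil))) (.cons (.rf (nat_lit 814) (nat_lit 412358787)) .nil)))),
 (.br (nat_lit 11) (nat_lit 0) (.cons (.rf (nat_lit 830) (nat_lit 407901468851537952)) (.cons (.br (nat_lit 11) (nat_lit 0) (.cons (.rf (nat_lit 830) (nat_lit 407901468851537952)) (.cons (.rf (nat_lit 814) (nat_lit 412358787)) .nil))) (.cons (.rf (nat_lit 814) (nat_lit 412358787)) .nil)))),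
 (.br (nat_lit 9) (nat_lit 1) (.cons (.kr (nat_lit 256) (nat_lit 65536) (nat_lit 1) (nat_lit 0)) (.cons (.rf (nat_lit 826) (nat_lit 325702574508064)) (.cons (.rf (nat_lit 826) (nat_lit 325633922140192)) (.cons (.br (nat_lit 10) (nat_lit 1) (.cons (.br (nat_lit 11) (nat_lit 0) (.cons (.rf (nat_lit 830) (nat_lit 407901468851537952)) (.cons (.rf (nat_lit 831) (nat_lit 407901468851537952)) (.cons (.br (nat_lit 11) (nat_lit 0) (.cons (.rf (nat_lit 830) (nat_lit 407901468851537952)) (.cons (.rf (nat_lit 831) (nat_lit 407901468851537952)) (.cons (.rf (nat_lit 814) (nat_lit 412358787)) .nil)))) (.cons (.rf (nat_lit 814) (nat_lit 412358787)) .nil))))) .nil)) .nil))))),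
 (.br (nat_lit 7) (nat_lit 0) (.cons (.kr (nat_lit 1099511627776) (nat_lit 72057594037927936) (nat_lit 5) (nat_lit 0)) (.cons (.rf (nat_lit 832) (nat_lit 214477824103648)) (.cons (.br (nat_lit 2) (nat_lit 0) (.cons (.br (nat_lit 1) (nat_lit 0) (.cons (.kr (nat_lit 4722366482869645213952) (nat_lit 72057594054705152) (nat_lit 1) (nat_lit 0)) (.cons (.kr (nat_lit 1099511628032) (nat_lit 72057594037993472) (nat_lit 1) (nat_lit 0)) (.cons (.rf (nat_lit 814) (nat_lit 345249923)) .nil)))) (.cons (.kr (nat_lit 4722366482869645279232) (nat_lit 72057594054705152) (nat_lit 2) (nat_lit 0)) (.cons (.rf (nat_lit 832) (nat_lit 291615568659520)) (.cons (.rf (nat_lit 814) (nat_lit 345249923)) .nil))))) (.cons (.rf (nat_lit 814) (nat_lit 345249923)) .nil))))),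
 (.br (nat_lit 10) (nat_lit 0) (.cons (.br (nat_lit 5) (nat_lit 0) (.cons (.ev (nat_lit 18447025552998072321) (nat_lit 1)) (.cons (.rf (nat_lit 814) (nat_lit 378804355)) .nil))) (.cons (.ev (nat_lit 4722366764348933669121) (nat_lit 1)) (.cons (.rf (nat_lit 814) (nat_lit 378804355)) .nil)))),
 (.br (nat_lit 7) (nat_lit 0) (.cons (.rf (nat_lit 834) (nat_lit 11584701642934304)) (.cons (.kr (nat_lit 4722366482869645279232) (nat_lit 72057594054705152) (nat_lit 2) (nat_lit 0)) (.cons (.rf (nat_lit 814) (nat_lit 378804355)) .nil)))),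
 (.br (nat_lit 7) (nat_lit 0) (.cons (.rf (nat_lit 834) (nat_lit 12710601549776928)) (.cons (.rf (nat_lit 835) (nat_lit 12710601549776928)) (.cons (.rf (nat_lit 814) (nat_lit 412358787)) .nil)))),
 (.br (nat_lit 7) (nat_lit 0) (.cons (.br (nat_lit 5) (nat_lit 0) (.cons (.rf (nat_lit 834) (nat_lit 12676514543928384)) (.cons (.rf (nat_lit 814) (nat_lit 412358787)) .nil))) (.cons (.rf (nat_lit 835) (nat_lit 12676445891560512)) (.cons (.rf (nat_lit 814) (nat_lit 412358787)) .nil)))),
 (.br (nat_lit 2) (nat_lit 0) (.cons (.kr (nat_lit 256) (nat_lit 65536) (nat_lit 1) (nat_lit 0)) (.cons (.br (nat_lit 11) (nat_lit 0) (.cons (.rf (nat_lit 836) (nat_lit 407901468851537952)) (.cons (.rf (nat_lit 837) (nat_lit 407901468851537952)) (.cons (.br (nat_lit 11) (nat_lit 0) (.cons (.rf (nat_lit 836) (nat_lit 407901468851537952)) (.cons (.rf (nat_lit 837) (nat_lit 407901468851537952)) (.cons (.rf (nat_lit 814) (nat_lit 412358787)) .nil)))) (.cons (.rf (nat_lit 814) (nat_lit 412358787)) .nil)))))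 (.cons (.rf (nat_lit 832) (nat_lit 291615568659520)) (.cons (.rf (nat_lit 814) (nat_lit 412358787)) .nil))))),
 (.br (nat_lit 9) (nat_lit 1) (.cons (.rf (nat_lit 832) (nat_lit 325702574508064)) (.cons (.rf (nat_lit 832) (nat_lit 325702574507072)) (.cons (.br (nat_lit 5) (nat_lit 0) (.cons (.rf (nat_lit 833) (nat_lit 325702574508064)) (.cons (.rf (nat_lit 832) (nat_lit 214477824105632)) (.cons (.br (nat_lit 2) (nat_lit 0) (.cons (.rf (nat_lit 833) (nat_lit 112193207311520)) (.cons (.kr (nat_lit 4722366482869645279232) (nat_lit 1099528404992) (nat_lit 2) (nat_lit 0)) (.cons (.rf (nat_lit 832) (nat_lit 291615568659520)) (.cons (.rf (nat_lit 814) (nat_lit 345249923)) .nil))))) (.cons (.rf (nat_lit 814) (nat_lit 345249923)) .nil))))) (.cons (.br (nat_lit 10) (nat_lit 1) (.cons (.br (nat_lit 1) (nat_lit 0) (.cons (.rf (nat_lit 838) (nat_lit 407901468851537952)) (.cons (.br (nat_lit 2) (nat_lit 0) (.cons (.rf (nat_lit 838) (nat_lit 407901468851536960)) (.cons (.kr (nat_lit 256) (nat_lit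 65536) (nat_lit 1) (nat_lit 0)) (.cons (.rf (nat_lit 832) (nat_lit 291615568659520)) (.cons (.rf (nat_lit 814) (nat_lit 412358787)) .nil))))) (.cons (.rf (nat_lit 832) (nat_lit 291615568660512)) (.cons (.rf (nat_lit 814) (nat_lit 412358787)) .nil))))) .nil)) .nil))))),
 (.br (nat_lit 5) (nat_lit 0) (.cons (.br (nat_lit 7) (nat_lit 0) (.cons (.rf (nat_lit 832) (nat_lit 219980745546912)) (.cons (.rf (nat_lit 832) (nat_lit 150710439320736)) (.cons (.rf (nat_lit 839) (nat_lit 291546916292640)) (.cons (.rf (nat_lit 839) (nat_lit 325633922140192)) (.cons (.rf (nat_lit 814) (nat_lit 345249923)) .nil)))))) (.cons (.rf (nat_lit 839) (nat_lit 291615568660512)) (.cons (.rf (nat_lit 839) (nat_lit 325702574508064)) (.cons (.rf (nat_lit 814) (nat_lit 345249923)) .nil))))),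
 (.br (nat_lit 5) (nat_lit 0) (.cons (.rf (nat_lit 840) (nat_lit 325702574508064)) (.cons (.rf (nat_lit 840) (nat_lit 291615568660512)) (.cons (.rf (nat_lit 839) (nat_lit 291615568660512)) (.cons (.rf (nat_lit 839) (nat_lit 325702574508064)) (.cons (.rf (nat_lit 814) (nat_lit 345249923)) .nil)))))),
 (.br (nat_lit 10) (nat_lit 0) (.cons (.br (nat_lit 11) (nat_lit 0) (.cons (.rf (nat_lit 814) (nat_lit 412358787)) .nil)) (.cons (.rf (nat_lit 814) (nat_lit 412358787)) .nil))),
 (.br (nat_lit 9) (nat_lit 1) (.cons (.br (nat_lit 10) (nat_lit 1) (.cons (.br (nat_lit 11) (nat_lit 0) (.cons (.rf (nat_lit 842) (nat_lit 407901468851537952)) (.cons (.rf (nat_lit 842) (nat_lit 407897067588093984)) (.cons (.rf (nat_lit 814) (nat_lit 412358787)) .nil)))) .nil)) .nil)),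
 (.br (nat_lit 7) (nat_lit 0) (.cons (.kr (nat_lit 72057594037928192) (nat_lit 1099511693312) (nat_lit 1) (nat_lit 0)) (.cons (.rf (nat_lit 814) (nat_lit 412358787)) .nil))),
 (.br (nat_lit 5) (nat_lit 0) (.cons (.rf (nat_lit 817) (nat_lit 372783070549641376)) (.cons (.br (nat_lit 7) (nat_lit 0) (.cons (.br (nat_lit 10) (nat_lit 0) (.cons (.ev (nat_lit 9463180273862515556866) (nat_lit 2)) (.cons (.rf (nat_lit 814) (nat_lit 412358787)) .nil))) (.cons (.rf (nat_lit 841) (nat_lit 112227533495456)) (.cons (.rf (nat_lit 814) (nat_lit 412358787)) .nil)))) (.cons (.rf (nat_lit 814) (nat_lit 412358787)) .nil)))),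
 (.br (nat_lit 11) (nat_lit 0) (.cons (.rf (nat_lit 845) (nat_lit 407901468851537952)) (.cons (.br (nat_lit 11) (nat_lit 0) (.cons (.rf (nat_lit 845) (nat_lit 407901468851537952)) (.cons (.rf (nat_lit 814) (nat_lit 412358787)) .nil))) (.cons (.rf (nat_lit 814) (nat_lit 412358787)) .nil)))),
 (.br (nat_lit 6) (nat_lit 1) (.cons (.br (nat_lit 9) (nat_lit 1) (.cons (.rf (nat_lit 843) (nat_lit 325702574508064)) (.cons (.br (nat_lit 9) (nat_lit 1) (.cons (.rf (nat_lit 843) (nat_lit 325702574508064)) (.cons (.br (nat_lit 7) (nat_lit 0) (.cons (.rf (nat_lit 844) (nat_lit 407901468851537952)) (.cons (.rf (nat_lit 844) (nat_lit 407897067588093984)) (.cons (.rf (nat_lit 814) (nat_lit 412358787)) .nil)))) .nil))) .nil))) (.cons (.ev (nat_lit 281474993553409) (nat_lit 1)) (.cons (.br (nat_lit 10) (nat_lit 1) (.cons (.br (nat_lit 11) (nat_lit 0) (.cons (.rf (nat_lit 845) (nat_lit 407901468851537952)) (.cons (.rf (nat_lit 846) (nat_lit 407901468851537952)) (.cons (.br (nat_lit 11) (nat_lit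 0) (.cons (.rf (nat_lit 845) (nat_lit 407901468851537952)) (.cons (.rf (nat_lit 846) (nat_lit 407901468851537952)) (.cons (.rf (nat_lit 814) (nat_lit 412358787)) .nil)))) (.cons (.rf (nat_lit 814) (nat_lit 412358787)) .nil))))) .nil)) .nil)))),
 (.br (nat_lit 7) (nat_lit 0) (.cons (.ev (nat_lit 72340168543043841) (nat_lit 1)) (.cons (.zr (nat_lit 3302846627840) (nat_lit 18590859261785407489) (nat_lit 5) (nat_lit 3)) (.cons (.rf (nat_lit 847) (nat_lit 219946419360992)) (.cons (.rf (nat_lit 814) (nat_lit 345249923)) .nil))))),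
 (.br (nat_lit 5) (nat_lit 0) (.cons (.rf (nat_lit 820) (nat_lit 372785268497090720)) (.cons (.rf (nat_lit 814) (nat_lit 412358787)) .nil))),
 (.br (nat_lit 5) (nat_lit 0) (.cons (.br (nat_lit 7) (nat_lit 0) (.cons (.rf (nat_lit 841) (nat_lit 110029586046112)) (.cons (.br (nat_lit 7) (nat_lit 0) (.cons (.kr (nat_lit 4722582655651775774976) (nat_lit 36893490346442489856) (nat_lit 1) (nat_lit 0)) (.cons (.rf (nat_lit 814) (nat_lit 412358787)) .nil))) (.cons (.rf (nat_lit 814) (nat_lit 412358787)) .nil)))) (.cons (.rf (nat_lit 820) (nat_lit 372785268497090720)) (.cons (.rf (nat_lit 814) (nat_lit 412358787)) .nil)))),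
 (.br (nat_lit 11) (nat_lit 0) (.cons (.rf (nat_lit 850) (nat_lit 407901468851537952)) (.cons (.br (nat_lit 11) (nat_lit 0) (.cons (.rf (nat_lit 850) (nat_lit 407901468851537952)) (.cons (.rf (nat_lit 814) (nat_lit 412358787)) .nil))) (.cons (.rf (nat_lit 814) (nat_lit 412358787)) .nil)))),
 (.br (nat_lit 2) (nat_lit 0) (.cons (.rf (nat_lit 841) (nat_lit 150882372225056)) (.cons (.rf (nat_lit 847) (nat_lit 325702574508064)) (.cons (.br (nat_lit 4) (nat_lit 1) (.cons (.ev (nat_lit 1103823438081) (nat_lit 1)) (.cons (.br (nat_lit 8) (nat_lit 1) (.cons (.rf (nat_lit 848) (nat_lit 325702574508064)) (.cons (.rf (nat_lit 848) (nat_lit 220084026082368)) (.cons (.br (nat_lit 8) (nat_lit 1) (.cons (.rf (nat_lit 848) (nat_lit 325702574508064)) (.cons (.rf (nat_lit 848) (nat_lit 220084026082368)) (.cons (.br (nat_lit 11) (nat_lit 0) (.cons (.rf (nat_lit 849) (nat_lit 407901468851537952)) (.cons (.rf (nat_lit 849) (nat_lit 407795850303112256)) (.cons (.rf (nat_lit 814) (nat_lit 412358787))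 .nil)))) .nil)))) .nil)))) (.cons (.br (nat_lit 10) (nat_lit 1) (.cons (.br (nat_lit 11) (nat_lit 0) (.cons (.rf (nat_lit 850) (nat_lit 407901468851537952)) (.cons (.rf (nat_lit 851) (nat_lit 407901468851537952)) (.cons (.br (nat_lit 11) (nat_lit 0) (.cons (.rf (nat_lit 850) (nat_lit 407901468851537952)) (.cons (.rf (nat_lit 851) (nat_lit 407901468851537952)) (.cons (.rf (nat_lit 814) (nat_lit 412358787)) .nil)))) (.cons (.rf (nat_lit 814) (nat_lit 412358787)) .nil))))) .nil)) .nil)))) (.cons (.rf (nat_lit 814) (nat_lit 345249923)) .nil))))),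
 (.br (nat_lit 9) (nat_lit 1) (.cons (.br (nat_lit 10) (nat_lit 0) (.cons (.br (nat_lit 10) (nat_lit 0) (.cons (.rf (nat_lit 814) (nat_lit 378804355)) .nil)) (.cons (.rf (nat_lit 814) (nat_lit 378804355)) .nil))) .nil)),
 (.br (nat_lit 7) (nat_lit 0) (.cons (.rf (nat_lit 823) (nat_lit 372782898885172256)) (.cons (.br (nat_lit 7) (nat_lit 0) (.cons (.rf (nat_lit 823) (nat_lit 372782898885172256)) (.cons (.rf (nat_lit 814) (nat_lit 412358787)) .nil))) (.cons (.rf (nat_lit 814) (nat_lit 412358787)) .nil)))),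
 (.br (nat_lit 11) (nat_lit 0) (.cons (.rf (nat_lit 854) (nat_lit 407901468851537952)) (.cons (.br (nat_lit 11) (nat_lit 0) (.cons (.rf (nat_lit 854) (nat_lit 407901468851537952)) (.cons (.rf (nat_lit 814) (nat_lit 412358787)) .nil))) (.cons (.rf (nat_lit 814) (nat_lit 412358787)) .nil)))),
 (.br (nat_lit 2) (nat_lit 0) (.cons (.br (nat_lit 6) (nat_lit 1) (.cons (.ev (nat_lit 282574505181441) (nat_lit 1)) (.cons (.br (nat_lit 5) (nat_lit 0) (.cons (.rf (nat_lit 852) (nat_lit 291443635756192)) (.cons (.br (nat_lit 7) (nat_lit 0) (.cons (.kr (nat_lit 72057594037928192) (nat_lit 1099511693312) (nat_lit 1) (nat_lit 0)) (.cons (.rf (nat_lit 853) (nat_lit 325702574508064)) (.cons (.rf (nat_lit 814) (nat_lit 345249923)) .nil)))) (.cons (.br (nat_lit 7) (nat_lit 0) (.cons (.rf (nat_lit 853) (nat_lit 321232658695232)) (.cons (.ev (nat_lit 18447026648197890049) (nat_lit 1)) (.cons (.zr (nat_lit 284773528371200) (nat_lit 4722510598057721069569) (nat_lit 5) (nat_lit 3)) (.cons (.rf (nat_lit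 814) (nat_lit 345249923)) .nil))))) (.cons (.rf (nat_lit 814) (nat_lit 345249923)) .nil))))) (.cons (.br (nat_lit 10) (nat_lit 1) (.cons (.br (nat_lit 11) (nat_lit 0) (.cons (.rf (nat_lit 854) (nat_lit 407901468851537952)) (.cons (.rf (nat_lit 855) (nat_lit 407901468851537952)) (.cons (.br (nat_lit 11) (nat_lit 0) (.cons (.rf (nat_lit 854) (nat_lit 407901468851537952)) (.cons (.rf (nat_lit 855) (nat_lit 407901468851537952)) (.cons (.rf (nat_lit 814) (nat_lit 412358787)) .nil)))) (.cons (.rf (nat_lit 814) (nat_lit 412358787)) .nil))))) .nil)) .nil)))) (.cons (.rf (nat_lit 841) (nat_lit 110201518950432)) (.cons (.br (nat_lit 4) (nat_lit 1) (.cons (.rf (nat_lit 852) (nat_lit 220152678450240)) (.cons (.rf (nat_lit 852) (nat_lit 220084026082368)) (.cons (.br (nat_lit 10) (nat_lit 1) (.cons (.br (nat_lit 7) (nat_lit 0) (.cons (.br (nat_lit 7) (nat_lit 0) (.cons (.rf (nat_lit 823) (nat_lit 407685795997293600)) (.cons (.rf (nat_lit 852) (nat_lit 214581104641088)) (.cons (.rf (nat_lit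 814) (nat_lit 412358787)) .nil)))) (.cons (.rf (nat_lit 823) (nat_lit 407685795997293600)) (.cons (.rf (nat_lit 852) (nat_lit 214581104641088)) (.cons (.rf (nat_lit 814) (nat_lit 412358787)) .nil))))) .nil)) .nil)))) (.cons (.rf (nat_lit 814) (nat_lit 345249923)) .nil))))),
 (.br (nat_lit 1) (nat_lit 0) (.cons (.rf (nat_lit 841) (nat_lit 220152678451232)) (.cons (.rf (nat_lit 852) (nat_lit 325702574508064)) (.cons (.rf (nat_lit 856) (nat_lit 325702574508064)) (.cons (.br (nat_lit 2) (nat_lit 0) (.cons (.rf (nat_lit 856) (nat_lit 291615568660512)) (.cons (.br (nat_lit 9) (nat_lit 1) (.cons (.rf (nat_lit 856) (nat_lit 214649757009952)) (.cons (.rf (nat_lit 856) (nat_lit 214581104642080)) (.cons (.br (nat_lit 10) (nat_lit 1) (.cons (.br (nat_lit 5) (nat_lit 0) (.cons (.rf (nat_lit 856) (nat_lit 220152678450240)) (.cons (.br (nat_lit 7) (nat_lit 0) (.cons (.rf (nat_lit 852) (nat_lit 325530641603744)) (.cons (.rf (nat_lit 841) (nat_lit 150710439320736)) (.cons (.br (nat_lit 7) (nat_lit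 0) (.cons (.rf (nat_lit 852) (nat_lit 325530641603744)) (.cons (.zr (nat_lit 144117387099177216) (nat_lit 18447307023679750145) (nat_lit 5) (nat_lit 0)) (.cons (.rf (nat_lit 814) (nat_lit 412358787)) .nil)))) (.cons (.rf (nat_lit 814) (nat_lit 412358787)) .nil))))) (.cons (.rf (nat_lit 817) (nat_lit 407867381745026208)) (.cons (.rf (nat_lit 814) (nat_lit 412358787)) .nil))))) .nil)) .nil)))) (.cons (.rf (nat_lit 841) (nat_lit 112399466399776)) (.cons (.rf (nat_lit 814) (nat_lit 345249923)) .nil))))) (.cons (.rf (nat_lit 814) (nat_lit 345249923)) .nil)))))),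
 (.br (nat_lit 7) (nat_lit 0) (.cons (.rf (nat_lit 857) (nat_lit 325530641603744)) (.cons (.rf (nat_lit 857) (nat_lit 291443635756192)) (.cons (.br (nat_lit 5) (nat_lit 0) (.cons (.rf (nat_lit 857) (nat_lit 112193207309536)) (.cons (.rf (nat_lit 857) (nat_lit 109995259860192)) (.cons (.rf (nat_lit 814) (nat_lit 345249923)) .nil)))) (.cons (.rf (nat_lit 814) (nat_lit 345249923)) .nil))))),
 (.br (nat_lit 2) (nat_lit 0) (.cons (.rf (nat_lit 857) (nat_lit 325702574508064)) (.cons (.rf (nat_lit 857) (nat_lit 291615568660512)) (.cons (.br (nat_lit 7) (nat_lit 0) (.cons (.rf (nat_lit 857) (nat_lit 325530641603744)) (.cons (.rf (nat_lit 857) (nat_lit 291443635756192)) (.cons (.rf (nat_lit 858) (nat_lit 325702574508064)) (.cons (.rf (nat_lit 858) (nat_lit 291615568660512)) (.cons (.rf (nat_lit 814) (nat_lit 345249923)) .nil)))))) (.cons (.rf (nat_lit 814) (nat_lit 345249923)) .nil))))),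
 (.br (nat_lit 2) (nat_lit 0) (.cons (.rf (nat_lit 857) (nat_lit 325702574508064)) (.cons (.rf (nat_lit 857) (nat_lit 291615568660512)) (.cons (.rf (nat_lit 859) (nat_lit 325702574508064)) (.cons (.rf (nat_lit 859) (nat_lit 291615568660512)) (.cons (.rf (nat_lit 814) (nat_lit 345249923)) .nil)))))),
 (.br (nat_lit 1) (nat_lit 0) (.cons (.ev (nat_lit 309489750634853491368001793) (nat_lit 1)) (.cons (.rf (nat_lit 814) (nat_lit 412358787)) .nil))),
 (.br (nat_lit 10) (nat_lit 0) (.cons (.kr (nat_lit 281474976710656) (nat_lit 1208925819614629174706176) (nat_lit 6) (nat_lit 0)) (.cons (.br (nat_lit 5) (nat_lit 0) (.cons (.rf (nat_lit 861) (nat_lit 407901468851537952)) (.cons (.br (nat_lit 5) (nat_lit 0) (.cons (.rf (nat_lit 861) (nat_lit 407901468851537952)) (.cons (.rf (nat_lit 814) (nat_lit 412358787)) .nil))) (.cons (.rf (nat_lit 814) (nat_lit 412358787)) .nil)))) (.cons (.rf (nat_lit 814) (nat_lit 412358787)) .nil)))),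
 (.br (nat_lit 10) (nat_lit 0) (.cons (.kr (nat_lit 281474976710656) (nat_lit 1208925819614629174706176) (nat_lit 6) (nat_lit 0)) (.cons (.br (nat_lit 2) (nat_lit 0) (.cons (.br (nat_lit 1) (nat_lit 0) (.cons (.rf (nat_lit 862) (nat_lit 407688165743429664)) (.cons (.rf (nat_lit 814) (nat_lit 412358787)) .nil))) (.cons (.rf (nat_lit 862) (nat_lit 407688165743428672)) (.cons (.rf (nat_lit 814) (nat_lit 412358787)) .nil)))) (.cons (.rf (nat_lit 814) (nat_lit 412358787)) .nil)))),
 (.br (nat_lit 10) (nat_lit 0) (.cons (.rf (nat_lit 862) (nat_lit 407901468851537952)) (.cons (.rf (nat_lit 863) (nat_lit 407901468851537952)) (.cons (.br (nat_lit 10) (nat_lit 0) (.cons (.rf (nat_lit 862) (nat_lit 407901468851537952)) (.cons (.rf (nat_lit 863) (nat_lit 407901468851537952)) (.cons (.rf (nat_lit 814) (nat_lit 412358787)) .nil)))) (.cons (.rf (nat_lit 814) (nat_lit 412358787)) .nil))))),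
 (.br (nat_lit 7) (nat_lit 0) (.cons (.rf (nat_lit 864) (nat_lit 407901468851537952)) (.cons (.br (nat_lit 5) (nat_lit 0) (.cons (.rf (nat_lit 864) (nat_lit 407901400199170080)) (.cons (.rf (nat_lit 841) (nat_lit 112227533495456)) (.cons (.rf (nat_lit 814) (nat_lit 412358787)) .nil)))) (.cons (.rf (nat_lit 814) (nat_lit 412358787)) .nil)))),
 (.br (nat_lit 5) (nat_lit 0) (.cons (.rf (nat_lit 864) (nat_lit 407901400199170080)) (.cons (.rf (nat_lit 865) (nat_lit 407901468851537952)) (.cons (.br (nat_lit 5) (nat_lit 0) (.cons (.rf (nat_lit 864) (nat_lit 407901400199170080)) (.cons (.rf (nat_lit 865) (nat_lit 407901468851537952)) (.cons (.rf (nat_lit 814) (nat_lit 412358787)) .nil)))) (.cons (.rf (nat_lit 814) (nat_lit 412358787)) .nil)))))]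

theorem c30 : chkAll C T R L30 (nat_lit 827) = true := by decide +kernel

theorem l30 : (nat_lit 827) + L30.length = (nat_lit 867) := by decide +kernel

/-- part of the certificates -/
def L31 : List Prf := [(.br (nat_lit 5) (nat_lit 0) (.cons (.rf (nat_lit 864) (nat_lit 407901400199170080)) (.cons (.rf (nat_lit 866) (nat_lit 407901400199170080)) (.cons (.br (nat_lit 7) (nat_lit 0) (.cons (.rf (nat_lit 864) (nat_lit 407901468851537952)) (.cons (.rf (nat_lit 866) (nat_lit 407901468851537952)) (.cons (.rf (nat_lit 841) (nat_lit 112227533495456)) (.cons (.rf (nat_lit 814) (nat_lit 412358787)) .nil))))) (.cons (.rf (nat_lit 814) (nat_lit 412358787)) .nil))))),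
 (.br (nat_lit 7) (nat_lit 0) (.cons (.rf (nat_lit 864) (nat_lit 407901468851537952)) (.cons (.rf (nat_lit 866) (nat_lit 407901468851537952)) (.cons (.rf (nat_lit 867) (nat_lit 407901468851537952)) (.cons (.br (nat_lit 5) (nat_lit 0) (.cons (.rf (nat_lit 864) (nat_lit 407901400199170080)) (.cons (.rf (nat_lit 866) (nat_lit 407901400199170080)) (.cons (.rf (nat_lit 867) (nat_lit 407901400199170080)) (.cons (.rf (nat_lit 841) (nat_lit 112227533495456)) (.cons (.rf (nat_lit 814) (nat_lit 412358787)) .nil)))))) (.cons (.rf (nat_lit 814) (nat_lit 412358787)) .nil)))))),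
 (.br (nat_lit 11) (nat_lit 0) (.cons (.rf (nat_lit 868) (nat_lit 407901468851537952)) (.cons (.rf (nat_lit 868) (nat_lit 407867381845690400)) (.cons (.rf (nat_lit 814) (nat_lit 412358787)) .nil)))),
 (.br (nat_lit 1) (nat_lit 0) (.cons (.ev (nat_lit 310698676454468116247740673) (nat_lit 1)) (.cons (.rf (nat_lit 814) (nat_lit 412358787)) .nil))),
 (.br (nat_lit 5) (nat_lit 0) (.cons (.rf (nat_lit 870) (nat_lit 407901468851537952)) (.cons (.br (nat_lit 5) (nat_lit 0) (.cons (.rf (nat_lit 870) (nat_lit 407901468851537952)) (.cons (.rf (nat_lit 814) (nat_lit 412358787)) .nil))) (.cons (.rf (nat_lit 814) (nat_lit 412358787)) .nil)))),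
 (.br (nat_lit 5) (nat_lit 0) (.cons (.rf (nat_lit 871) (nat_lit 407901400199170080)) (.cons (.br (nat_lit 5) (nat_lit 0) (.cons (.rf (nat_lit 871) (nat_lit 407901400199170080)) (.cons (.rf (nat_lit 814) (nat_lit 412358787)) .nil))) (.cons (.rf (nat_lit 814) (nat_lit 412358787)) .nil)))),
 (.br (nat_lit 9) (nat_lit 1) (.cons (.rf (nat_lit 869) (nat_lit 372785268631308320)) (.cons (.rf (nat_lit 869) (nat_lit 372785268631307328)) (.cons (.rf (nat_lit 869) (nat_lit 372785096698404000)) (.cons (.rf (nat_lit 869) (nat_lit 372785096698402016)) (.cons (.kr (nat_lit 4722366482869645213696) (nat_lit 1208925819614629174706176) (nat_lit 9) (nat_lit 0)) .nil)))))),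
 (.br (nat_lit 10) (nat_lit 0) (.cons (.br (nat_lit 7) (nat_lit 0) (.cons (.rf (nat_lit 871) (nat_lit 407901468851537952)) (.cons (.rf (nat_lit 872) (nat_lit 407901468851537952)) (.cons (.br (nat_lit 5) (nat_lit 0) (.cons (.rf (nat_lit 871) (nat_lit 407901400199170080)) (.cons (.rf (nat_lit 872) (nat_lit 407901400199170080)) (.cons (.rf (nat_lit 814) (nat_lit 412358787)) .nil)))) (.cons (.rf (nat_lit 814) (nat_lit 412358787)) .nil))))) (.cons (.rf (nat_lit 873) (nat_lit 407901468851537952)) (.cons (.kr (nat_lit 4294967296) (nat_lit 1208925819614629174706176) (nat_lit 4) (nat_lit 0)) (.cons (.rf (nat_lit 814) (nat_lit 412358787)) .nil))))),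
 (.br (nat_lit 6) (nat_lit 1) (.cons (.rf (nat_lit 874) (nat_lit 407897067588093984)) (.cons (.rf (nat_lit 874) (nat_lit 407897067588092992)) (.cons (.rf (nat_lit 874) (nat_lit 407896895655189664)) (.cons (.rf (nat_lit 874) (nat_lit 407896895655187680)) .nil))))),
 (.br (nat_lit 10) (nat_lit 0) (.cons (.rf (nat_lit 873) (nat_lit 407901468851537952)) (.cons (.br (nat_lit 11) (nat_lit 0) (.cons (.rf (nat_lit 875) (nat_lit 372887518921918496)) (.cons (.kr (nat_lit 281474976710656) (nat_lit 1208925819614629174706176) (nat_lit 6) (nat_lit 0)) (.cons (.rf (nat_lit 875) (nat_lit 407901468851537952)) (.cons (.rf (nat_lit 814) (nat_lit 412358787)) .nil))))) (.cons (.rf (nat_lit 873) (nat_lit 407726648649254944)) (.cons (.rf (nat_lit 814) (nat_lit 412358787)) .nil))))),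
 (.br (nat_lit 11) (nat_lit 0) (.cons (.rf (nat_lit 873) (nat_lit 372785268631308320)) (.cons (.br (nat_lit 10) (nat_lit 0) (.cons (.rf (nat_lit 874) (nat_lit 407901468851537952)) (.cons (.rf (nat_lit 876) (nat_lit 372893021843359776)) (.cons (.rf (nat_lit 876) (nat_lit 407901468851537952)) (.cons (.kr (nat_lit 4722366482869645213696) (nat_lit 309485009821345068724781056) (nat_lit 9) (nat_lit 0)) (.cons (.rf (nat_lit 814) (nat_lit 412358787)) .nil)))))) (.cons (.rf (nat_lit 814) (nat_lit 412358787)) .nil)))),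
 (.br (nat_lit 11) (nat_lit 0) (.cons (.rf (nat_lit 873) (nat_lit 372785268631308320)) (.cons (.rf (nat_lit 877) (nat_lit 407901468851537952)) (.cons (.br (nat_lit 11) (nat_lit 0) (.cons (.rf (nat_lit 873) (nat_lit 372785268631308320)) (.cons (.rf (nat_lit 877) (nat_lit 407901468851537952)) (.cons (.rf (nat_lit 814) (nat_lit 412358787)) .nil)))) (.cons (.rf (nat_lit 814) (nat_lit 412358787)) .nil))))),
 (.br (nat_lit 11) (nat_lit 0) (.cons (.rf (nat_lit 878) (nat_lit 407901468851537952)) (.cons (.rf (nat_lit 878) (nat_lit 407867381845690400)) (.cons (.br (nat_lit 11) (nat_lit 0) (.cons (.rf (nat_lit 878) (nat_lit 407901468851537952)) (.cons (.rf (nat_lit 878) (nat_lit 407867381845690400)) (.cons (.rf (nat_lit 814) (nat_lit 412358787)) .nil)))) (.cons (.rf (nat_lit 814) (nat_lit 412358787)) .nil))))),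
 (.br (nat_lit 5) (nat_lit 0) (.cons (.kr (nat_lit 281474976710656) (nat_lit 1208925819614629174706176) (nat_lit 6) (nat_lit 0)) (.cons (.br (nat_lit 7) (nat_lit 0) (.cons (.br (nat_lit 11) (nat_lit 0) (.cons (.ev (nat_lit 4722366764348933669121) (nat_lit 1)) (.cons (.rf (nat_lit 814) (nat_lit 412358787)) .nil))) (.cons (.br (nat_lit 11) (nat_lit 0) (.cons (.ev (nat_lit 4722366764348933669121) (nat_lit 1)) (.cons (.rf (nat_lit 814) (nat_lit 412358787)) .nil))) (.cons (.rf (nat_lit 814) (nat_lit 412358787)) .nil)))) (.cons (.rf (nat_lit 814) (nat_lit 412358787)) .nil)))),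
 (.br (nat_lit 5) (nat_lit 0) (.cons (.kr (nat_lit 281474976710656) (nat_lit 1208925819614629174706176) (nat_lit 6) (nat_lit 0)) (.cons (.rf (nat_lit 880) (nat_lit 407901468851537952)) (.cons (.br (nat_lit 5) (nat_lit 0) (.cons (.kr (nat_lit 281474976710656) (nat_lit 1208925819614629174706176) (nat_lit 6) (nat_lit 0)) (.cons (.rf (nat_lit 880) (nat_lit 407901468851537952)) (.cons (.rf (nat_lit 814) (nat_lit 412358787)) .nil)))) (.cons (.rf (nat_lit 814) (nat_lit 412358787)) .nil))))),
 (.br (nat_lit 11) (nat_lit 0) (.cons (.br (nat_lit 11) (nat_lit 0) (.cons (.rf (nat_lit 881) (nat_lit 372892953190991904)) (.cons (.rf (nat_lit 814) (nat_lit 412358787)) .nil))) (.cons (.br (nat_lit 11) (nat_lit 0) (.cons (.rf (nat_lit 881) (nat_lit 372892953190991904)) (.cons (.rf (nat_lit 814) (nat_lit 412358787)) .nil))) (.cons (.rf (nat_lit 814) (nat_lit 412358787)) .nil)))),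
 (.br (nat_lit 2) (nat_lit 0) (.cons (.rf (nat_lit 882) (nat_lit 407901468851537952)) (.cons (.br (nat_lit 7) (nat_lit 0) (.cons (.ev (nat_lit 1208925819896104151482369) (nat_lit 1)) (.cons (.br (nat_lit 7) (nat_lit 0) (.cons (.ev (nat_lit 1208944338697776193929473) (nat_lit 1)) (.cons (.rf (nat_lit 814) (nat_lit 412358787)) .nil))) (.cons (.rf (nat_lit 814) (nat_lit 412358787)) .nil)))) (.cons (.rf (nat_lit 814) (nat_lit 412358787)) .nil)))),
 (.br (nat_lit 10) (nat_lit 0) (.cons (.rf (nat_lit 881) (nat_lit 407901468851537952)) (.cons (.br (nat_lit 2) (nat_lit 0) (.cons (.rf (nat_lit 882) (nat_lit 407901468851537952)) (.cons (.rf (nat_lit 883) (nat_lit 407901468851537952)) (.cons (.br (nat_lit 2) (nat_lit 0) (.cons (.rf (nat_lit 882) (nat_lit 407901468851537952)) (.cons (.rf (nat_lit 883) (nat_lit 407901468851537952)) (.cons (.rf (nat_lit 814) (nat_lit 412358787)) .nil)))) (.cons (.rf (nat_lit 814) (nat_lit 412358787)) .nil))))) (.cons (.rf (nat_lit 814) (nat_lit 412358787))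 .nil)))),
 (.br (nat_lit 7) (nat_lit 0) (.cons (.br (nat_lit 11) (nat_lit 0) (.cons (.br (nat_lit 5) (nat_lit 0) (.cons (.ev (nat_lit 4722366764348933669121) (nat_lit 1)) (.cons (.rf (nat_lit 814) (nat_lit 412358787)) .nil))) (.cons (.rf (nat_lit 884) (nat_lit 372892953190991904)) (.cons (.rf (nat_lit 814) (nat_lit 412358787)) .nil)))) (.cons (.ev (nat_lit 1213648186097498819920129) (nat_lit 1)) (.cons (.rf (nat_lit 814) (nat_lit 412358787)) .nil)))),
 (.br (nat_lit 10) (nat_lit 0) (.cons (.rf (nat_lit 881) (nat_lit 407901468851537952)) (.cons (.br (nat_lit 7) (nat_lit 0) (.cons (.rf (nat_lit 885) (nat_lit 407901468851537952)) (.cons (.br (nat_lit 7) (nat_lit 0) (.cons (.rf (nat_lit 885) (nat_lit 407901468851537952)) (.cons (.ev (nat_lit 1213648186097498819920129) (nat_lit 1)) (.cons (.rf (nat_lit 814) (nat_lit 412358787)) .nil)))) (.cons (.ev (nat_lit 1213648186097498819920129) (nat_lit 1)) (.cons (.rf (nat_lit 814) (nat_lit 412358787)) .nil))))) (.cons (.rf (nat_lit 814)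 (nat_lit 412358787)) .nil)))),
 (.br (nat_lit 10) (nat_lit 0) (.cons (.rf (nat_lit 884) (nat_lit 407901468851537952)) (.cons (.rf (nat_lit 886) (nat_lit 407901468851537952)) (.cons (.br (nat_lit 10) (nat_lit 0) (.cons (.rf (nat_lit 884) (nat_lit 407901468851537952)) (.cons (.rf (nat_lit 886) (nat_lit 407901468851537952)) (.cons (.rf (nat_lit 814) (nat_lit 412358787)) .nil)))) (.cons (.rf (nat_lit 814) (nat_lit 412358787)) .nil))))),
 (.br (nat_lit 7) (nat_lit 0) (.cons (.br (nat_lit 2) (nat_lit 0) (.cons (.br (nat_lit 2) (nat_lit 0) (.cons (.kr (nat_lit 928455029464035206174343680) (nat_lit 18519083147019223040) (nat_lit 1) (nat_lit 0)) (.cons (.rf (nat_lit 814) (nat_lit 412358787)) .nil))) (.cons (.br (nat_lit 2) (nat_lit 0) (.cons (.kr (nat_lit 928455029464035206174343680) (nat_lit 18519083147019223040) (nat_lit 1) (nat_lit 0)) (.cons (.rf (nat_lit 814) (nat_lit 412358787)) .nil))) (.cons (.rf (nat_lit 814) (nat_lit 412358787)) .nil)))) (.cons (.kr (nat_lit 18446744073709551616)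 (nat_lit 309485009821345068724781056) (nat_lit 8) (nat_lit 0)) (.cons (.br (nat_lit 5) (nat_lit 0) (.cons (.br (nat_lit 10) (nat_lit 0) (.cons (.ev (nat_lit 309489750634853491368001793) (nat_lit 1)) (.cons (.rf (nat_lit 814) (nat_lit 412358787)) .nil))) (.cons (.br (nat_lit 10) (nat_lit 0) (.cons (.ev (nat_lit 309489750634853491368001793) (nat_lit 1)) (.cons (.rf (nat_lit 814) (nat_lit 412358787)) .nil))) (.cons (.rf (nat_lit 814) (nat_lit 412358787)) .nil)))) (.cons (.rf (nat_lit 814) (nat_lit 412358787)) .nil))))),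
 (.br (nat_lit 7) (nat_lit 0) (.cons (.rf (nat_lit 888) (nat_lit 407901468851537952)) (.cons (.kr (nat_lit 18446744073709551616) (nat_lit 309485009821345068724781056) (nat_lit 8) (nat_lit 0)) (.cons (.br (nat_lit 10) (nat_lit 0) (.cons (.br (nat_lit 5) (nat_lit 0) (.cons (.ev (nat_lit 309489750634853491368001793) (nat_lit 1)) (.cons (.rf (nat_lit 814) (nat_lit 412358787)) .nil))) (.cons (.br (nat_lit 5) (nat_lit 0) (.cons (.ev (nat_lit 309489750634853491368001793) (nat_lit 1)) (.cons (.rf (nat_lit 814) (nat_lit 412358787)) .nil))) (.cons (.rf (nat_lit 814) (nat_lit 412358787)) .nil)))) (.cons (.rf (nat_lit 814) (nat_lit 412358787)) .nil))))),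
 (.br (nat_lit 11) (nat_lit 0) (.cons (.rf (nat_lit 887) (nat_lit 407901468851537952)) (.cons (.br (nat_lit 7) (nat_lit 0) (.cons (.rf (nat_lit 888) (nat_lit 407901468851537952)) (.cons (.rf (nat_lit 889) (nat_lit 407901468851537952)) (.cons (.kr (nat_lit 18446744073709551616) (nat_lit 309485009821345068724781056) (nat_lit 8) (nat_lit 0)) (.cons (.br (nat_lit 7) (nat_lit 0) (.cons (.rf (nat_lit 888) (nat_lit 407901468851537952)) (.cons (.rf (nat_lit 889) (nat_lit 407901468851537952)) (.cons (.kr (nat_lit 18446744073709551616) (nat_lit 309485009821345068724781056) (nat_lit 8) (nat_lit 0)) (.cons (.rf (nat_lit 814) (nat_lit 412358787)) .nil))))) (.cons (.rf (nat_lit 814) (nat_lit 412358787)) .nil)))))) (.cons (.rf (nat_lit 814) (nat_lit 412358787)) .nil)))),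
 (.br (nat_lit 11) (nat_lit 0) (.cons (.rf (nat_lit 887) (nat_lit 407901468851537952)) (.cons (.rf (nat_lit 890) (nat_lit 407901468851537952)) (.cons (.br (nat_lit 11) (nat_lit 0) (.cons (.rf (nat_lit 887) (nat_lit 407901468851537952)) (.cons (.rf (nat_lit 890) (nat_lit 407901468851537952)) (.cons (.rf (nat_lit 814) (nat_lit 412358787)) .nil)))) (.cons (.rf (nat_lit 814) (nat_lit 412358787)) .nil))))),
 (.br (nat_lit 11) (nat_lit 0) (.cons (.rf (nat_lit 887) (nat_lit 407901468851537952)) (.cons (.rf (nat_lit 891) (nat_lit 407901468851537952)) (.cons (.br (nat_lit 11) (nat_lit 0) (.cons (.rf (nat_lit 887) (nat_lit 407901468851537952)) (.cons (.rf (nat_lit 891) (nat_lit 407901468851537952)) (.cons (.rf (nat_lit 814) (nat_lit 412358787)) .nil)))) (.cons (.rf (nat_lit 814) (nat_lit 412358787)) .nil))))),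
 (.br (nat_lit 11) (nat_lit 0) (.cons (.rf (nat_lit 887) (nat_lit 407901468851537952)) (.cons (.rf (nat_lit 891) (nat_lit 407901468851537952)) (.cons (.rf (nat_lit 892) (nat_lit 407901468851537952)) (.cons (.br (nat_lit 11) (nat_lit 0) (.cons (.rf (nat_lit 887) (nat_lit 407901468851537952)) (.cons (.rf (nat_lit 891) (nat_lit 407901468851537952)) (.cons (.rf (nat_lit 892) (nat_lit 407901468851537952)) (.cons (.rf (nat_lit 814) (nat_lit 412358787)) .nil))))) (.cons (.rf (nat_lit 814) (nat_lit 412358787)) .nil)))))),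
 (.br (nat_lit 2) (nat_lit 0) (.cons (.kr (nat_lit 256) (nat_lit 65536) (nat_lit 1) (nat_lit 0)) (.cons (.kr (nat_lit 281474976710912) (nat_lit 72057594037993472) (nat_lit 1) (nat_lit 0)) (.cons (.rf (nat_lit 814) (nat_lit 343086211)) .nil)))),
 (.br (nat_lit 11) (nat_lit 0) (.cons (.rf (nat_lit 893) (nat_lit 372998503087048736)) (.cons (.rf (nat_lit 893) (nat_lit 372892953190991904)) (.cons (.br (nat_lit 2) (nat_lit 0) (.cons (.rf (nat_lit 894) (nat_lit 398341242456096)) (.cons (.rf (nat_lit 894) (nat_lit 398238262888480)) (.cons (.rf (nat_lit 814) (nat_lit 412358787)) .nil)))) (.cons (.rf (nat_lit 814) (nat_lit 412358787)) .nil))))),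
 (.br (nat_lit 11) (nat_lit 0) (.cons (.rf (nat_lit 893) (nat_lit 372998503087048736)) (.cons (.rf (nat_lit 893) (nat_lit 372892953190991904)) (.cons (.rf (nat_lit 895) (nat_lit 407901468851537952)) (.cons (.br (nat_lit 11) (nat_lit 0) (.cons (.rf (nat_lit 893) (nat_lit 372998503087048736)) (.cons (.rf (nat_lit 893) (nat_lit 372892953190991904)) (.cons (.rf (nat_lit 895) (nat_lit 407901468851537952)) (.cons (.rf (nat_lit 814) (nat_lit 412358787)) .nil))))) (.cons (.rf (nat_lit 814) (nat_lit 412358787)) .nil)))))),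
 (.br (nat_lit 10) (nat_lit 0) (.cons (.rf (nat_lit 893) (nat_lit 407901468851537952)) (.cons (.rf (nat_lit 893) (nat_lit 407795918955481120)) (.cons (.br (nat_lit 11) (nat_lit 0) (.cons (.rf (nat_lit 893) (nat_lit 372998503087048736)) (.cons (.rf (nat_lit 893) (nat_lit 372892953190991904)) (.cons (.rf (nat_lit 896) (nat_lit 407901468851537952)) (.cons (.br (nat_lit 11) (nat_lit 0) (.cons (.rf (nat_lit 893) (nat_lit 372998503087048736)) (.cons (.rf (nat_lit 893) (nat_lit 372892953190991904)) (.cons (.rf (nat_lit 896) (nat_lit 407901468851537952)) (.cons (.rf (nat_lit 896) (nat_lit 407795918955481120)) (.cons (.rf (nat_lit 814) (nat_lit 412358787)) .nil)))))) (.cons (.rf (nat_lit 896) (nat_lit 407795918955481120)) (.cons (.rf (nat_lit 814) (nat_lit 412358787)) .nil))))))) (.cons (.rf (nat_lit 814) (nat_lit 412358787)) .nil))))),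
 (.br (nat_lit 10) (nat_lit 0) (.cons (.rf (nat_lit 893) (nat_lit 407901468851537952)) (.cons (.rf (nat_lit 893) (nat_lit 407795918955481120)) (.cons (.rf (nat_lit 897) (nat_lit 407901468851537952)) (.cons (.br (nat_lit 10) (nat_lit 0) (.cons (.rf (nat_lit 893) (nat_lit 407901468851537952)) (.cons (.rf (nat_lit 893) (nat_lit 407795918955481120)) (.cons (.rf (nat_lit 897) (nat_lit 407901468851537952)) (.cons (.rf (nat_lit 814) (nat_lit 412358787)) .nil))))) (.cons (.rf (nat_lit 814) (nat_lit 412358787)) .nil)))))),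
 (.br (nat_lit 10) (nat_lit 0) (.cons (.rf (nat_lit 893) (nat_lit 407901468851537952)) (.cons (.rf (nat_lit 893) (nat_lit 407795918955481120)) (.cons (.rf (nat_lit 898) (nat_lit 407901468851537952)) (.cons (.br (nat_lit 10) (nat_lit 0) (.cons (.rf (nat_lit 893) (nat_lit 407901468851537952)) (.cons (.rf (nat_lit 893) (nat_lit 407795918955481120)) (.cons (.rf (nat_lit 898) (nat_lit 407901468851537952)) (.cons (.rf (nat_lit 898) (nat_lit 407795918955481120)) (.cons (.rf (nat_lit 814) (nat_lit 412358787)) .nil)))))) (.cons (.rf (nat_lit 898) (nat_lit 407795918955481120)) (.cons (.rf (nat_lit 814) (nat_lit 412358787)) .nil))))))),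
 (.br (nat_lit 2) (nat_lit 0) (.cons (.br (nat_lit 2) (nat_lit 0) (.cons (.rf (nat_lit 814) (nat_lit 377721987)) .nil)) (.cons (.rf (nat_lit 814) (nat_lit 377721987)) .nil))),
 (.br (nat_lit 10) (nat_lit 0) (.cons (.rf (nat_lit 900) (nat_lit 12746920900528160)) (.cons (.br (nat_lit 10) (nat_lit 0) (.cons (.rf (nat_lit 900) (nat_lit 12746920900528160)) (.cons (.rf (nat_lit 814) (nat_lit 412358787)) .nil))) (.cons (.rf (nat_lit 814) (nat_lit 412358787)) .nil)))),
 (.br (nat_lit 2) (nat_lit 0) (.cons (.rf (nat_lit 901) (nat_lit 407901297119958048)) (.cons (.br (nat_lit 2) (nat_lit 0) (.cons (.rf (nat_lit 901) (nat_lit 407901297119958048)) (.cons (.rf (nat_lit 814) (nat_lit 412358787)) .nil))) (.cons (.rf (nat_lit 814) (nat_lit 412358787)) .nil)))),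
 (.br (nat_lit 7) (nat_lit 0) (.cons (.rf (nat_lit 901) (nat_lit 407901468851537952)) (.cons (.rf (nat_lit 902) (nat_lit 407901468851537952)) (.cons (.br (nat_lit 7) (nat_lit 0) (.cons (.rf (nat_lit 901) (nat_lit 407901468851537952)) (.cons (.rf (nat_lit 902) (nat_lit 407901468851537952)) (.cons (.rf (nat_lit 814) (nat_lit 412358787)) .nil)))) (.cons (.rf (nat_lit 814) (nat_lit 412358787)) .nil))))),
 (.br (nat_lit 2) (nat_lit 0) (.cons (.rf (nat_lit 899) (nat_lit 407897067588092992)) (.cons (.br (nat_lit 5) (nat_lit 0) (.cons (.ev (nat_lit 309489750634853491368001793) (nat_lit 1)) (.cons (.rf (nat_lit 814) (nat_lit 412358787)) .nil))) (.cons (.rf (nat_lit 814) (nat_lit 412358787)) .nil)))),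
 (.br (nat_lit 2) (nat_lit 0) (.cons (.kr (nat_lit 256) (nat_lit 65536) (nat_lit 1) (nat_lit 0)) (.cons (.rf (nat_lit 899) (nat_lit 407897067588092992)) (.cons (.rf (nat_lit 899) (nat_lit 407720049438360640)) (.cons (.rf (nat_lit 814) (nat_lit 412358787)) .nil))))),
 (.br (nat_lit 2) (nat_lit 0) (.cons (.rf (nat_lit 904) (nat_lit 407901468851537952)) (.cons (.rf (nat_lit 905) (nat_lit 407901468851537952)) (.cons (.br (nat_lit 2) (nat_lit 0) (.cons (.rf (nat_lit 904) (nat_lit 407901468851537952)) (.cons (.rf (nat_lit 899) (nat_lit 407720049438360640)) (.cons (.rf (nat_lit 814) (nat_lit 412358787)) .nil)))) (.cons (.rf (nat_lit 814) (nat_lit 412358787)) .nil)))))]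

theorem c31 : chkAll C T R L31 (nat_lit 867) = true := by decide +kernel

theorem l31 : (nat_lit 867) + L31.length = (nat_lit 907) := by decide +kernel

/-- part of the certificates -/
def L32 : List Prf := [(.br (nat_lit 5) (nat_lit 0) (.cons (.kr (nat_lit 281474976710656) (nat_lit 1208925819614629174706176) (nat_lit 6) (nat_lit 0)) (.cons (.ev (nat_lit 4722366482873940181249) (nat_lit 1)) (.cons (.rf (nat_lit 814) (nat_lit 412358787)) .nil)))),
 (.br (nat_lit 2) (nat_lit 0) (.cons (.rf (nat_lit 814) (nat_lit 412358787)) .nil)),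
 (.br (nat_lit 10) (nat_lit 0) (.cons (.rf (nat_lit 906) (nat_lit 407901468851537952)) (.cons (.br (nat_lit 7) (nat_lit 0) (.cons (.rf (nat_lit 907) (nat_lit 407901468851537952)) (.cons (.rf (nat_lit 907) (nat_lit 407720049438361632)) (.cons (.rf (nat_lit 814) (nat_lit 412358787)) .nil)))) (.cons (.br (nat_lit 7) (nat_lit 0) (.cons (.br (nat_lit 5) (nat_lit 0) (.cons (.rf (nat_lit 908) (nat_lit 407901468851537952)) (.cons (.rf (nat_lit 814) (nat_lit 412358787)) .nil))) (.cons (.br (nat_lit 5) (nat_lit 0) (.cons (.rf (nat_lit 908) (nat_lit 407901400199170080)) (.cons (.rf (nat_lit 814) (nat_lit 412358787)) .nil))) (.cons (.rf (nat_lit 814) (nat_lit 412358787)) .nil)))) (.cons (.rf (nat_lit 814) (nat_lit 412358787)) .nil))))),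
 (.br (nat_lit 11) (nat_lit 0) (.cons (.rf (nat_lit 903) (nat_lit 407901468851537952)) (.cons (.br (nat_lit 10) (nat_lit 0) (.cons (.rf (nat_lit 906) (nat_lit 407901468851537952)) (.cons (.rf (nat_lit 909) (nat_lit 407901468851537952)) (.cons (.br (nat_lit 10) (nat_lit 0) (.cons (.rf (nat_lit 906) (nat_lit 407901468851537952)) (.cons (.rf (nat_lit 909) (nat_lit 407901468851537952)) (.cons (.rf (nat_lit 906) (nat_lit 407720049438361632)) (.cons (.rf (nat_lit 814) (nat_lit 412358787)) .nil))))) (.cons (.br (nat_lit 10) (nat_lit 0) (.cons (.rf (nat_lit 906) (nat_lit 407901468851537952)) (.cons (.rf (nat_lit 909) (nat_lit 407901468851537952)) (.cons (.rf (nat_lit 906) (nat_lit 407720049438361632)) (.cons (.rf (nat_lit 814) (nat_lit 412358787)) .nil))))) (.cons (.rf (nat_lit 814) (nat_lit 412358787)) .nil)))))) (.cons (.rf (nat_lit 814) (nat_lit 412358787)) .nil)))),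
 (.br (nat_lit 7) (nat_lit 0) (.cons (.ev (nat_lit 4722366482873940181249) (nat_lit 1)) (.cons (.br (nat_lit 7) (nat_lit 0) (.cons (.ev (nat_lit 4722366482873940181249) (nat_lit 1)) (.cons (.rf (nat_lit 814) (nat_lit 412358787)) .nil))) (.cons (.rf (nat_lit 814) (nat_lit 412358787)) .nil)))),
 (.br (nat_lit 11) (nat_lit 0) (.cons (.rf (nat_lit 903) (nat_lit 407901468851537952)) (.cons (.br (nat_lit 5) (nat_lit 0) (.cons (.ev (nat_lit 309485009821345073019748609) (nat_lit 1)) (.cons (.br (nat_lit 5) (nat_lit 0) (.cons (.ev (nat_lit 309485009821345073019748609) (nat_lit 1)) (.cons (.rf (nat_lit 911) (nat_lit 407901468851537952)) (.cons (.rf (nat_lit 814) (nat_lit 412358787)) .nil)))) (.cons (.rf (nat_lit 911) (nat_lit 407901468851537952)) (.cons (.rf (nat_lit 814) (nat_lit 412358787)) .nil))))) (.cons (.rf (nat_lit 814) (nat_lit 412358787)) .nil)))),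
 (.br (nat_lit 11) (nat_lit 0) (.cons (.rf (nat_lit 910) (nat_lit 407901468851537952)) (.cons (.rf (nat_lit 912) (nat_lit 407901468851537952)) (.cons (.br (nat_lit 11) (nat_lit 0) (.cons (.rf (nat_lit 910) (nat_lit 407901468851537952)) (.cons (.rf (nat_lit 912) (nat_lit 407901468851537952)) (.cons (.rf (nat_lit 814) (nat_lit 412358787)) .nil)))) (.cons (.rf (nat_lit 814) (nat_lit 412358787)) .nil))))),
 (.br (nat_lit 2) (nat_lit 0) (.cons (.ev (nat_lit 310698658007442571839733761) (nat_lit 1)) (.cons (.rf (nat_lit 814) (nat_lit 412358787)) .nil))),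
 (.br (nat_lit 10) (nat_lit 0) (.cons (.br (nat_lit 11) (nat_lit 0) (.cons (.rf (nat_lit 912) (nat_lit 407901468851537952)) (.cons (.br (nat_lit 2) (nat_lit 0) (.cons (.rf (nat_lit 914) (nat_lit 407901468851537952)) (.cons (.rf (nat_lit 914) (nat_lit 372817083673872416)) (.cons (.rf (nat_lit 814) (nat_lit 412358787)) .nil)))) (.cons (.rf (nat_lit 814) (nat_lit 412358787)) .nil)))) (.cons (.rf (nat_lit 903) (nat_lit 372817152326240288)) (.cons (.rf (nat_lit 814) (nat_lit 412358787)) .nil)))),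
 (.br (nat_lit 11) (nat_lit 0) (.cons (.rf (nat_lit 903) (nat_lit 407901468851537952)) (.cons (.br (nat_lit 10) (nat_lit 0) (.cons (.rf (nat_lit 915) (nat_lit 372817083673872416)) (.cons (.rf (nat_lit 915) (nat_lit 407901468851537952)) (.cons (.rf (nat_lit 912) (nat_lit 372817083673872416)) (.cons (.rf (nat_lit 814) (nat_lit 412358787)) .nil))))) (.cons (.rf (nat_lit 814) (nat_lit 412358787)) .nil)))),
 (.br (nat_lit 11) (nat_lit 0) (.cons (.rf (nat_lit 913) (nat_lit 407901468851537952)) (.cons (.rf (nat_lit 916) (nat_lit 407901468851537952)) (.cons (.br (nat_lit 11) (nat_lit 0) (.cons (.rf (nat_lit 913) (nat_lit 407901468851537952)) (.cons (.rf (nat_lit 916) (nat_lit 407901468851537952)) (.cons (.rf (nat_lit 814) (nat_lit 412358787)) .nil)))) (.cons (.rf (nat_lit 814) (nat_lit 412358787)) .nil))))),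
 (.br (nat_lit 10) (nat_lit 0) (.cons (.br (nat_lit 10) (nat_lit 0) (.cons (.rf (nat_lit 917) (nat_lit 372817083673872416)) (.cons (.rf (nat_lit 912) (nat_lit 372817083673872416)) (.cons (.rf (nat_lit 814) (nat_lit 412358787)) .nil)))) (.cons (.rf (nat_lit 917) (nat_lit 372817083673872416)) (.cons (.rf (nat_lit 912) (nat_lit 372817083673872416)) (.cons (.rf (nat_lit 814) (nat_lit 412358787)) .nil))))),
 (.br (nat_lit 11) (nat_lit 0) (.cons (.rf (nat_lit 913) (nat_lit 407901468851537952)) (.cons (.rf (nat_lit 917) (nat_lit 407901468851537952)) (.cons (.rf (nat_lit 918) (nat_lit 407901468851537952)) (.cons (.br (nat_lit 11) (nat_lit 0) (.cons (.rf (nat_lit 913) (nat_lit 407901468851537952)) (.cons (.rf (nat_lit 917) (nat_lit 407901468851537952)) (.cons (.rf (nat_lit 918) (nat_lit 407901468851537952)) (.cons (.rf (nat_lit 814) (nat_lit 412358787)) .nil))))) (.cons (.rf (nat_lit 814) (nat_lit 412358787)) .nil)))))),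
 (.br (nat_lit 11) (nat_lit 0) (.cons (.rf (nat_lit 919) (nat_lit 372998503087048736)) (.cons (.br (nat_lit 10) (nat_lit 0) (.cons (.rf (nat_lit 919) (nat_lit 407901468851537952)) (.cons (.rf (nat_lit 919) (nat_lit 407720049438361632)) (.cons (.br (nat_lit 2) (nat_lit 0) (.cons (.rf (nat_lit 905) (nat_lit 407720049438361632)) (.cons (.rf (nat_lit 905) (nat_lit 407901468851537952)) (.cons (.rf (nat_lit 814) (nat_lit 412358787)) .nil)))) (.cons (.rf (nat_lit 814) (nat_lit 412358787)) .nil))))) (.cons (.rf (nat_lit 919) (nat_lit 372817083673872416)) (.cons (.rf (nat_lit 814) (nat_lit 412358787)) .nil))))),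
 (.br (nat_lit 11) (nat_lit 0) (.cons (.rf (nat_lit 919) (nat_lit 372998503087048736)) (.cons (.rf (nat_lit 920) (nat_lit 372998503087048736)) (.cons (.rf (nat_lit 919) (nat_lit 372817083673872416)) (.cons (.rf (nat_lit 920) (nat_lit 407901468851537952)) (.cons (.rf (nat_lit 814) (nat_lit 412358787)) .nil)))))),
 (.br (nat_lit 10) (nat_lit 0) (.cons (.rf (nat_lit 919) (nat_lit 407901468851537952)) (.cons (.rf (nat_lit 919) (nat_lit 407720049438361632)) (.cons (.br (nat_lit 11) (nat_lit 0) (.cons (.rf (nat_lit 919) (nat_lit 372998503087048736)) (.cons (.rf (nat_lit 921) (nat_lit 407901468851537952)) (.cons (.br (nat_lit 11) (nat_lit 0) (.cons (.rf (nat_lit 919) (nat_lit 372998503087048736)) (.cons (.rf (nat_lit 920) (nat_lit 372998503087048736)) (.cons (.rf (nat_lit 919) (nat_lit 372817083673872416)) (.cons (.rf (nat_lit 920) (nat_lit 372817083673872416)) (.cons (.rf (nat_lit 814) (nat_lit 412358787)) .nil)))))) (.cons (.rf (nat_lit 919) (nat_lit 372817083673872416)) (.cons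 (.rf (nat_lit 921) (nat_lit 407720049438361632)) (.cons (.rf (nat_lit 814) (nat_lit 412358787)) .nil))))))) (.cons (.rf (nat_lit 814) (nat_lit 412358787)) .nil))))),
 (.br (nat_lit 10) (nat_lit 0) (.cons (.rf (nat_lit 919) (nat_lit 407901468851537952)) (.cons (.rf (nat_lit 922) (nat_lit 407901468851537952)) (.cons (.rf (nat_lit 919) (nat_lit 407720049438361632)) (.cons (.br (nat_lit 10) (nat_lit 0) (.cons (.rf (nat_lit 919) (nat_lit 407901468851537952)) (.cons (.rf (nat_lit 922) (nat_lit 407901468851537952)) (.cons (.rf (nat_lit 919) (nat_lit 407720049438361632)) (.cons (.rf (nat_lit 814) (nat_lit 412358787)) .nil))))) (.cons (.rf (nat_lit 814) (nat_lit 412358787)) .nil)))))),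
 (.br (nat_lit 10) (nat_lit 0) (.cons (.rf (nat_lit 919) (nat_lit 407901468851537952)) (.cons (.rf (nat_lit 923) (nat_lit 407901468851537952)) (.cons (.br (nat_lit 10) (nat_lit 0) (.cons (.rf (nat_lit 919) (nat_lit 407901468851537952)) (.cons (.rf (nat_lit 923) (nat_lit 407901468851537952)) (.cons (.rf (nat_lit 919) (nat_lit 407720049438361632)) (.cons (.rf (nat_lit 923) (nat_lit 407720049438361632)) (.cons (.rf (nat_lit 814) (nat_lit 412358787)) .nil)))))) (.cons (.rf (nat_lit 919) (nat_lit 407720049438361632)) (.cons (.rf (nat_lit 923) (nat_lit 407720049438361632)) (.cons (.rf (nat_lit 814) (nat_lit 412358787)) .nil))))))),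
 (.br (nat_lit 5) (nat_lit 1) (.cons (.br (nat_lit 3) (nat_lit 1) (.cons (.rf (nat_lit 841) (nat_lit 325702574508064)) (.cons (.rf (nat_lit 860) (nat_lit 325702574508064)) (.cons (.rf (nat_lit 860) (nat_lit 325633922140192)) (.cons (.br (nat_lit 10) (nat_lit 1) (.cons (.br (nat_lit 11) (nat_lit 0) (.cons (.rf (nat_lit 878) (nat_lit 407901468851537952)) (.cons (.rf (nat_lit 878) (nat_lit 407867381845690400)) (.cons (.rf (nat_lit 879) (nat_lit 407901468851537952)) (.cons (.rf (nat_lit 879) (nat_lit 407867381845690400)) (.cons (.rf (nat_lit 814) (nat_lit 412358787)) .nil)))))) .nil)) .nil))))) (.cons (.br (nat_lit 7) (nat_lit 1) (.cons (.br (nat_lit 1) (nat_lit 0) (.cons (.rf (nat_lit 899) (nat_lit 407901468851537952)) (.cons (.rf (nat_lit 899) (nat_lit 407867381845690400)) (.cons (.rf (nat_lit 924) (nat_lit 407901468851537952)) (.cons (.rf (nat_lit 924) (nat_lit 407867381845690400)) (.cons (.rf (nat_lit 814) (nat_lit 412358787)) .nil)))))) .nil)) .nil))),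
 (.br (nat_lit 5) (nat_lit 0) (.cons (.rf (nat_lit 925) (nat_lit 325702440290464)) (.cons (.rf (nat_lit 925) (nat_lit 220152544233632)) (.cons (.rf (nat_lit 925) (nat_lit 150882238007456)) (.cons (.rf (nat_lit 925) (nat_lit 110201384732832)) (.cons (.rf (nat_lit 925) (nat_lit 112399332182176)) (.cons (.rf (nat_lit 814) (nat_lit 345249923)) .nil))))))),
 (.br (nat_lit 4) (nat_lit 1) (.cons (.ev (nat_lit 18518802771554140161) (nat_lit 1)) (.cons (.br (nat_lit 10) (nat_lit 1) (.cons (.kr (nat_lit 1208925819614629174706432) (nat_lit 18446744073709617152) (nat_lit 1) (nat_lit 0)) (.cons (.ev (nat_lit 1208925891673327019229441) (nat_lit 1)) .nil))) .nil))),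
 (.br (nat_lit 6) (nat_lit 0) .nil),
 (.br (nat_lit 11) (nat_lit 0) (.cons (.ev (nat_lit 309489732188110517153300481) (nat_lit 1)) (.cons (.rf (nat_lit 928) (nat_lit 14303893635)) .nil))),
 (.br (nat_lit 10) (nat_lit 1) (.cons (.kr (nat_lit 1208925819614629174706432) (nat_lit 18446744073709617152) (nat_lit 1) (nat_lit 0)) (.cons (.br (nat_lit 9) (nat_lit 1) (.cons (.br (nat_lit 11) (nat_lit 0) (.cons (.ev (nat_lit 310698676454469220037624065) (nat_lit 1)) (.cons (.rf (nat_lit 928) (nat_lit 14303893635)) .nil))) (.cons (.kr (nat_lit 1208925819614629174706176) (nat_lit 309485009821345068724781056) (nat_lit 10) (nat_lit 0)) (.cons (.rf (nat_lit 929) (nat_lit 14242959524133701664)) .nil)))) .nil))),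
 (.br (nat_lit 8) (nat_lit 1) (.cons (.br (nat_lit 11) (nat_lit 1) (.cons (.br (nat_lit 10) (nat_lit 1) (.cons (.rf (nat_lit 927) (nat_lit 407901468851537952)) (.cons (.rf (nat_lit 930) (nat_lit 14242959524133701664)) (.cons (.br (nat_lit 10) (nat_lit 1) (.cons (.rf (nat_lit 927) (nat_lit 407901468851537952)) (.cons (.rf (nat_lit 930) (nat_lit 14242959524133701664)) .nil))) .nil)))) .nil)) .nil)),
 (.br (nat_lit 11) (nat_lit 0) (.cons (.rf (nat_lit 929) (nat_lit 14242959524133701664)) (.cons (.rf (nat_lit 928) (nat_lit 14303893635)) .nil))),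
 (.br (nat_lit 11) (nat_lit 0) (.cons (.ev (nat_lit 310698676454469220037624065) (nat_lit 1)) (.cons (.rf (nat_lit 928) (nat_lit 14303893635)) .nil))),
 (.br (nat_lit 7) (nat_lit 0) (.cons (.br (nat_lit 12) (nat_lit 0) (.cons (.rf (nat_lit 932) (nat_lit 14242959524133701664)) (.cons (.br (nat_lit 11) (nat_lit 0) (.cons (.rf (nat_lit 929) (nat_lit 13126066816545818656)) (.cons (.rf (nat_lit 928) (nat_lit 14303893635)) .nil))) (.cons (.rf (nat_lit 928) (nat_lit 14303893635)) .nil)))) (.cons (.br (nat_lit 11) (nat_lit 0) (.cons (.rf (nat_lit 933) (nat_lit 14242959524133701664)) (.cons (.br (nat_lit 12) (nat_lit 0) (.cons (.rf (nat_lit 933) (nat_lit 13126066816545818656)) (.cons (.rf (nat_lit 928) (nat_lit 14303893635)) .nil))) (.cons (.rf (nat_lit 928) (nat_lit 14303893635)) .nil)))) (.cons (.rf (nat_lit 928) (nat_lit 14303893635)) .nil)))),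
 (.br (nat_lit 10) (nat_lit 1) (.cons (.rf (nat_lit 934) (nat_lit 14242959524133701664)) (.cons (.kr (nat_lit 1208925819614629174706432) (nat_lit 18446744073709617152) (nat_lit 1) (nat_lit 0)) .nil))),
 (.br (nat_lit 8) (nat_lit 1) (.cons (.rf (nat_lit 931) (nat_lit 11584701642934304)) (.cons (.br (nat_lit 11) (nat_lit 1) (.cons (.br (nat_lit 8) (nat_lit 1) (.cons (.rf (nat_lit 931) (nat_lit 11584701642934304)) (.cons (.br (nat_lit 10) (nat_lit 1) (.cons (.rf (nat_lit 934) (nat_lit 14242959524133701664)) (.cons (.rf (nat_lit 935) (nat_lit 14242959524133701664)) (.cons (.rf (nat_lit 935) (nat_lit 13126066816545818656)) .nil)))) .nil))) .nil)) .nil))),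
 (.br (nat_lit 12) (nat_lit 0) (.cons (.kr (nat_lit 1208925819614629191483392) (nat_lit 4722366764344621924352) (nat_lit 3) (nat_lit 0)) (.cons (.rf (nat_lit 928) (nat_lit 14303893635)) .nil))),
 (.br (nat_lit 5) (nat_lit 0) (.cons (.kr (nat_lit 4722366764344621924608) (nat_lit 18446744073726394368) (nat_lit 1) (nat_lit 0)) (.cons (.rf (nat_lit 937) (nat_lit 14242959524133701664)) (.cons (.rf (nat_lit 928) (nat_lit 14303893635)) .nil)))),
 (.br (nat_lit 12) (nat_lit 0) (.cons (.rf (nat_lit 938) (nat_lit 14242959524133701664)) (.cons (.br (nat_lit 12) (nat_lit 0) (.cons (.rf (nat_lit 938) (nat_lit 14242959524133701664)) (.cons (.rf (nat_lit 928) (nat_lit 14303893635)) .nil))) (.cons (.rf (nat_lit 928) (nat_lit 14303893635)) .nil)))),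
 (.br (nat_lit 12) (nat_lit 0) (.cons (.rf (nat_lit 939) (nat_lit 14242959524133701664)) (.cons (.br (nat_lit 12) (nat_lit 0) (.cons (.rf (nat_lit 939) (nat_lit 14242959524133701664)) (.cons (.rf (nat_lit 928) (nat_lit 14303893635)) .nil))) (.cons (.rf (nat_lit 928) (nat_lit 14303893635)) .nil)))),
 (.br (nat_lit 4) (nat_lit 1) (.cons (.rf (nat_lit 936) (nat_lit 11584701642934304)) (.cons (.br (nat_lit 11) (nat_lit 1) (.cons (.br (nat_lit 12) (nat_lit 0) (.cons (.rf (nat_lit 939) (nat_lit 14242959524133701664)) (.cons (.rf (nat_lit 940) (nat_lit 14242959524133701664)) (.cons (.br (nat_lit 12) (nat_lit 0) (.cons (.rf (nat_lit 939) (nat_lit 14242959524133701664)) (.cons (.rf (nat_lit 940) (nat_lit 14242959524133701664)) (.cons (.rf (nat_lit 928) (nat_lit 14303893635)) .nil)))) (.cons (.rf (nat_lit 928) (nat_lit 14303893635)) .nil))))) .nil)) .nil))),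
 (.br (nat_lit 5) (nat_lit 0) (.cons (.kr (nat_lit 4722366764344621924608) (nat_lit 18446744073726394368) (nat_lit 1) (nat_lit 0)) (.cons (.br (nat_lit 7) (nat_lit 0) (.cons (.br (nat_lit 12) (nat_lit 0) (.cons (.rf (nat_lit 937) (nat_lit 14241864407234843680)) (.cons (.rf (nat_lit 928) (nat_lit 14303893635)) .nil))) (.cons (.br (nat_lit 7) (nat_lit 0) (.cons (.ev (nat_lit 309489750706912184917622785) (nat_lit 1)) (.cons (.rf (nat_lit 928) (nat_lit 14303893635)) .nil))) (.cons (.rf (nat_lit 928) (nat_lit 14303893635)) .nil)))) (.cons (.rf (nat_lit 928) (nat_lit 14303893635)) .nil)))),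
 (.br (nat_lit 12) (nat_lit 0) (.cons (.rf (nat_lit 942) (nat_lit 13126066816545818656)) (.cons (.br (nat_lit 5) (nat_lit 0) (.cons (.ev (nat_lit 79537652264899192184406868225) (nat_lit 1)) (.cons (.rf (nat_lit 928) (nat_lit 14303893635)) .nil))) (.cons (.rf (nat_lit 928) (nat_lit 14303893635)) .nil)))),
 (.br (nat_lit 11) (nat_lit 0) (.cons (.rf (nat_lit 942) (nat_lit 14242959524133701664)) (.cons (.br (nat_lit 12) (nat_lit 0) (.cons (.br (nat_lit 12) (nat_lit 0) (.cons (.rf (nat_lit 942) (nat_lit 13126066816545818656)) (.cons (.kr (nat_lit 1208925819614629174706432) (nat_lit 18446744073709617152) (nat_lit 1) (nat_lit 0)) (.cons (.rf (nat_lit 928) (nat_lit 14303893635)) .nil)))) (.cons (.rf (nat_lit 943) (nat_lit 14242959524133701664)) (.cons (.br (nat_lit 12) (nat_lit 0) (.cons (.kr (nat_lit 1208925819614629174706432) (nat_lit 18446744073709617152) (nat_lit 1) (nat_lit 0)) (.cons (.rf (nat_lit 943) (nat_lit 14242959524133701664)) (.cons (.rf (nat_lit 928) (nat_lit 14303893635))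 .nil)))) (.cons (.rf (nat_lit 928) (nat_lit 14303893635)) .nil))))) (.cons (.rf (nat_lit 928) (nat_lit 14303893635)) .nil)))),
 (.br (nat_lit 12) (nat_lit 0) (.cons (.rf (nat_lit 944) (nat_lit 13126066816545818656)) (.cons (.br (nat_lit 12) (nat_lit 0) (.cons (.rf (nat_lit 944) (nat_lit 13126066816545818656)) (.cons (.rf (nat_lit 928) (nat_lit 14303893635)) .nil))) (.cons (.rf (nat_lit 928) (nat_lit 14303893635)) .nil)))),
 (.br (nat_lit 4) (nat_lit 1) (.cons (.rf (nat_lit 936) (nat_lit 11584701642934304)) (.cons (.rf (nat_lit 941) (nat_lit 11584701642934304)) (.cons (.br (nat_lit 11) (nat_lit 1) (.cons (.br (nat_lit 4) (nat_lit 1) (.cons (.rf (nat_lit 936) (nat_lit 11584701642934304)) (.cons (.rf (nat_lit 941) (nat_lit 11584701642934304)) (.cons (.br (nat_lit 11) (nat_lit 0) (.cons (.rf (nat_lit 944) (nat_lit 14242959524133701664)) (.cons (.rf (nat_lit 945) (nat_lit 14242959524133701664)) (.cons (.br (nat_lit 11) (nat_lit 0) (.cons (.rf (nat_lit 944) (nat_lit 14242959524133701664))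 (.cons (.rf (nat_lit 945) (nat_lit 14242959524133701664)) (.cons (.rf (nat_lit 928) (nat_lit 14303893635)) .nil)))) (.cons (.rf (nat_lit 928) (nat_lit 14303893635)) .nil))))) .nil)))) .nil)) .nil))))]

theorem c32 : chkAll C T R L32 (nat_lit 907) = true := by decide +kernel

theorem l32 : (nat_lit 907) + L32.length = (nat_lit 947) := by decide +kernel

/-- part of the certificates -/
def L33 : List Prf := [(.br (nat_lit 11) (nat_lit 0) (.cons (.br (nat_lit 12) (nat_lit 0) (.cons (.br (nat_lit 12) (nat_lit 0) (.cons (.kr (nat_lit 309485009821345068724781056) (nat_lit 79228162514264337593543950336) (nat_lit 11) (nat_lit 0)) (.cons (.rf (nat_lit 928) (nat_lit 14303893635)) .nil))) (.cons (.br (nat_lit 12) (nat_lit 0) (.cons (.kr (nat_lit 309485009821345068724781056) (nat_lit 79228162514264337593543950336) (nat_lit 11) (nat_lit 0)) (.cons (.rf (nat_lit 928) (nat_lit 14303893635)) .nil))) (.cons (.rf (nat_lit 928) (nat_lit 14303893635)) .nil)))) (.cons (.rf (nat_lit 928) (nat_lit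 14303893635)) .nil))),
 (.br (nat_lit 2) (nat_lit 0) (.cons (.br (nat_lit 11) (nat_lit 0) (.cons (.ev (nat_lit 79537652264899192184406868225) (nat_lit 1)) (.cons (.rf (nat_lit 928) (nat_lit 14303893635)) .nil))) (.cons (.ev (nat_lit 1213648186380077603225601) (nat_lit 1)) (.cons (.rf (nat_lit 928) (nat_lit 14303893635)) .nil)))),
 (.br (nat_lit 12) (nat_lit 0) (.cons (.br (nat_lit 11) (nat_lit 0) (.cons (.rf (nat_lit 948) (nat_lit 14242959524133701664)) (.cons (.br (nat_lit 11) (nat_lit 0) (.cons (.rf (nat_lit 948) (nat_lit 14242959524133701664)) (.cons (.kr (nat_lit 1208925819614629174706176) (nat_lit 309485009821345068724781056) (nat_lit 10) (nat_lit 0)) (.cons (.rf (nat_lit 928) (nat_lit 14303893635)) .nil)))) (.cons (.br (nat_lit 11) (nat_lit 0) (.cons (.rf (nat_lit 948) (nat_lit 14242959524133701664)) (.cons (.kr (nat_lit 1208925819614629174706176) (nat_lit 309485009821345068724781056) (nat_lit 10) (nat_lit 0)) (.cons (.rf (nat_lit 928) (nat_lit 14303893635)) .nil))))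 (.cons (.rf (nat_lit 928) (nat_lit 14303893635)) .nil))))) (.cons (.rf (nat_lit 928) (nat_lit 14303893635)) .nil))),
 (.br (nat_lit 12) (nat_lit 0) (.cons (.rf (nat_lit 949) (nat_lit 14242959524133701664)) (.cons (.br (nat_lit 12) (nat_lit 0) (.cons (.rf (nat_lit 949) (nat_lit 14242959524133701664)) (.cons (.rf (nat_lit 928) (nat_lit 14303893635)) .nil))) (.cons (.rf (nat_lit 928) (nat_lit 14303893635)) .nil)))),
 (.br (nat_lit 12) (nat_lit 0) (.cons (.rf (nat_lit 950) (nat_lit 14242959524133701664)) (.cons (.br (nat_lit 12) (nat_lit 0) (.cons (.rf (nat_lit 950) (nat_lit 14242959524133701664)) (.cons (.rf (nat_lit 928) (nat_lit 14303893635)) .nil))) (.cons (.rf (nat_lit 928) (nat_lit 14303893635)) .nil)))),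
 (.br (nat_lit 9) (nat_lit 1) (.cons (.rf (nat_lit 946) (nat_lit 11584701642934304)) (.cons (.br (nat_lit 10) (nat_lit 1) (.cons (.kr (nat_lit 4722366482869645214208) (nat_lit 1099528470528) (nat_lit 1) (nat_lit 0)) (.cons (.kr (nat_lit 4722366482869645213952) (nat_lit 72057594054705152) (nat_lit 1) (nat_lit 0)) (.cons (.br (nat_lit 10) (nat_lit 1) (.cons (.kr (nat_lit 4722366482869645214208) (nat_lit 1099528470528) (nat_lit 1) (nat_lit 0)) (.cons (.kr (nat_lit 4722366482869645213952) (nat_lit 72057594054705152) (nat_lit 1) (nat_lit 0)) (.cons (.br (nat_lit 11) (nat_lit 1) (.cons (.br (nat_lit 11) (nat_lit 0) (.cons (.rf (nat_lit 947) (nat_lit 14242959524133701664)) (.cons (.br (nat_lit 11) (nat_lit 0) (.cons (.rf (nat_lit 947) (nat_lit 14242959524133701664)) (.cons (.rf (nat_lit 928) (nat_lit 14303893635)) .nil))) (.cons (.rf (nat_lit 928) (nat_lit 14303893635)) .nil)))) .nil)) .nil)))) .nil)))) (.cons (.br (nat_lit 11) (nat_lit 1) (.cons (.br (nat_lit 12) (nat_lit 0) (.cons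 (.rf (nat_lit 950) (nat_lit 14242959524133701664)) (.cons (.rf (nat_lit 951) (nat_lit 14242959524133701664)) (.cons (.br (nat_lit 12) (nat_lit 0) (.cons (.rf (nat_lit 950) (nat_lit 14242959524133701664)) (.cons (.rf (nat_lit 951) (nat_lit 14242959524133701664)) (.cons (.rf (nat_lit 928) (nat_lit 14303893635)) .nil)))) (.cons (.rf (nat_lit 928) (nat_lit 14303893635)) .nil))))) .nil)) .nil)))),
 (.br (nat_lit 2) (nat_lit 0) (.cons (.br (nat_lit 7) (nat_lit 0) (.cons (.br (nat_lit 5) (nat_lit 0) (.cons (.rf (nat_lit 928) (nat_lit 14303893635)) .nil)) (.cons (.rf (nat_lit 928) (nat_lit 14303893635)) .nil))) (.cons (.br (nat_lit 5) (nat_lit 0) (.cons (.zr (nat_lit 158458742880168469594413989888) (nat_lit 4777706715095068836097) (nat_lit 5) (nat_lit 8)) (.cons (.rf (nat_lit 928) (nat_lit 14303893635)) .nil))) (.cons (.rf (nat_lit 928) (nat_lit 14303893635)) .nil)))),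
 (.br (nat_lit 12) (nat_lit 0) (.cons (.br (nat_lit 11) (nat_lit 0) (.cons (.rf (nat_lit 953) (nat_lit 14242959524133701664)) (.cons (.br (nat_lit 11) (nat_lit 0) (.cons (.rf (nat_lit 953) (nat_lit 14242959524133701664)) (.cons (.kr (nat_lit 1208925819614629174706176) (nat_lit 309485009821345068724781056) (nat_lit 10) (nat_lit 0)) (.cons (.rf (nat_lit 928) (nat_lit 14303893635)) .nil)))) (.cons (.br (nat_lit 11) (nat_lit 0) (.cons (.rf (nat_lit 953) (nat_lit 14242959524133701664)) (.cons (.kr (nat_lit 1208925819614629174706176) (nat_lit 309485009821345068724781056) (nat_lit 10) (nat_lit 0)) (.cons (.rf (nat_lit 928) (nat_lit 14303893635)) .nil)))) (.cons (.rf (nat_lit 928) (nat_lit 14303893635)) .nil))))) (.cons (.rf (nat_lit 928) (nat_lit 14303893635)) .nil))),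
 (.br (nat_lit 12) (nat_lit 0) (.cons (.rf (nat_lit 954) (nat_lit 14242959524133701664)) (.cons (.br (nat_lit 12) (nat_lit 0) (.cons (.rf (nat_lit 954) (nat_lit 14242959524133701664)) (.cons (.rf (nat_lit 928) (nat_lit 14303893635)) .nil))) (.cons (.rf (nat_lit 928) (nat_lit 14303893635)) .nil)))),
 (.br (nat_lit 12) (nat_lit 0) (.cons (.rf (nat_lit 955) (nat_lit 14242959524133701664)) (.cons (.br (nat_lit 12) (nat_lit 0) (.cons (.rf (nat_lit 955) (nat_lit 14242959524133701664)) (.cons (.rf (nat_lit 928) (nat_lit 14303893635)) .nil))) (.cons (.rf (nat_lit 928) (nat_lit 14303893635)) .nil)))),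
 (.br (nat_lit 9) (nat_lit 1) (.cons (.rf (nat_lit 946) (nat_lit 11584701642934304)) (.cons (.rf (nat_lit 952) (nat_lit 11584701642934304)) (.cons (.br (nat_lit 11) (nat_lit 1) (.cons (.br (nat_lit 12) (nat_lit 0) (.cons (.rf (nat_lit 955) (nat_lit 14242959524133701664)) (.cons (.rf (nat_lit 956) (nat_lit 14242959524133701664)) (.cons (.br (nat_lit 12) (nat_lit 0) (.cons (.rf (nat_lit 955) (nat_lit 14242959524133701664)) (.cons (.rf (nat_lit 956) (nat_lit 14242959524133701664)) (.cons (.rf (nat_lit 928) (nat_lit 14303893635)) .nil)))) (.cons (.rf (nat_lit 928) (nat_lit 14303893635)) .nil))))) .nil)) .nil)))),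
 (.br (nat_lit 12) (nat_lit 0) (.cons (.kr (nat_lit 4294967296) (nat_lit 79228162514264337593543950336) (nat_lit 4) (nat_lit 0)) (.cons (.kr (nat_lit 309485009821345068724781056) (nat_lit 79228162514264337593543950336) (nat_lit 11) (nat_lit 0)) (.cons (.kr (nat_lit 4722366482869645213696) (nat_lit 79228162514264337593543950336) (nat_lit 9) (nat_lit 0)) (.cons (.rf (nat_lit 928) (nat_lit 14303893635)) .nil))))),
 (.br (nat_lit 12) (nat_lit 0) (.cons (.kr (nat_lit 309485009821345068724781056) (nat_lit 79228162514264337593543950336) (nat_lit 11) (nat_lit 0)) (.cons (.br (nat_lit 7) (nat_lit 0) (.cons (.br (nat_lit 7) (nat_lit 0) (.cons (.ev (nat_lit 79538856468424098963502661633) (nat_lit 1)) (.cons (.rf (nat_lit 928) (nat_lit 14303893635)) .nil))) (.cons (.br (nat_lit 7) (nat_lit 0) (.cons (.ev (nat_lit 79538856468424098963502661633) (nat_lit 1)) (.cons (.rf (nat_lit 928) (nat_lit 14303893635)) .nil))) (.cons (.rf (nat_lit 928) (nat_lit 14303893635)) .nil)))) (.cons (.rf (nat_lit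 928) (nat_lit 14303893635)) .nil)))),
 (.br (nat_lit 11) (nat_lit 0) (.cons (.br (nat_lit 12) (nat_lit 0) (.cons (.rf (nat_lit 958) (nat_lit 14242959524133701664)) (.cons (.rf (nat_lit 959) (nat_lit 14242959524133701664)) (.cons (.br (nat_lit 12) (nat_lit 0) (.cons (.kr (nat_lit 4722366482869645213696) (nat_lit 79228162514264337593543950336) (nat_lit 9) (nat_lit 0)) (.cons (.rf (nat_lit 959) (nat_lit 14242959524133701664)) (.cons (.rf (nat_lit 928) (nat_lit 14303893635)) .nil)))) (.cons (.rf (nat_lit 928) (nat_lit 14303893635)) .nil))))) (.cons (.kr (nat_lit 4722366482869645213696) (nat_lit 309485009821345068724781056) (nat_lit 9) (nat_lit 0)) (.cons (.rf (nat_lit 928) (nat_lit 14303893635)) .nil)))),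
 (.br (nat_lit 11) (nat_lit 0) (.cons (.rf (nat_lit 960) (nat_lit 14242959524133701664)) (.cons (.br (nat_lit 12) (nat_lit 0) (.cons (.rf (nat_lit 960) (nat_lit 13126066816545818656)) (.cons (.br (nat_lit 12) (nat_lit 0) (.cons (.rf (nat_lit 960) (nat_lit 13126066816545818656)) (.cons (.kr (nat_lit 1208925819614629174706176) (nat_lit 79228162514264337593543950336) (nat_lit 10) (nat_lit 0)) (.cons (.rf (nat_lit 928) (nat_lit 14303893635)) .nil)))) (.cons (.kr (nat_lit 1208925819614629174706176) (nat_lit 309485009821345068724781056) (nat_lit 10) (nat_lit 0)) (.cons (.rf (nat_lit 928) (nat_lit 14303893635)) .nil))))) (.cons (.rf (nat_lit 928) (nat_lit 14303893635)) .nil)))),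
 (.br (nat_lit 9) (nat_lit 1) (.cons (.rf (nat_lit 946) (nat_lit 11584701642934304)) (.cons (.rf (nat_lit 952) (nat_lit 11584701642934304)) (.cons (.rf (nat_lit 957) (nat_lit 11584701642934304)) (.cons (.br (nat_lit 11) (nat_lit 1) (.cons (.br (nat_lit 9) (nat_lit 1) (.cons (.rf (nat_lit 946) (nat_lit 11584701642934304)) (.cons (.rf (nat_lit 952) (nat_lit 11584701642934304)) (.cons (.rf (nat_lit 957) (nat_lit 11584701642934304)) (.cons (.br (nat_lit 11) (nat_lit 0) (.cons (.rf (nat_lit 960) (nat_lit 14242959524133701664)) (.cons (.rf (nat_lit 961) (nat_lit 14242959524133701664)) (.cons (.br (nat_lit 11) (nat_lit 0) (.cons (.kr (nat_lit 4722366482869645213696) (nat_lit 309485009821345068724781056) (nat_lit 9) (nat_lit 0)) (.cons (.rf (nat_lit 961) (nat_lit 14242959524133701664)) (.cons (.rf (nat_lit 928) (nat_lit 14303893635)) .nil)))) (.cons (.rf (nat_lit 928) (nat_lit 14303893635)) .nil))))) .nil))))) .nil)) .nil))))),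
 (.br (nat_lit 2) (nat_lit 0) (.cons (.kr (nat_lit 4722366764344621924608) (nat_lit 18446744073726394368) (nat_lit 1) (nat_lit 0)) (.cons (.br (nat_lit 5) (nat_lit 0) (.cons (.ev (nat_lit 4722366482873940246529) (nat_lit 1)) (.cons (.br (nat_lit 5) (nat_lit 0) (.cons (.ev (nat_lit 4722366482873940246529) (nat_lit 1)) (.cons (.rf (nat_lit 928) (nat_lit 14303893635)) .nil))) (.cons (.rf (nat_lit 928) (nat_lit 14303893635)) .nil)))) (.cons (.rf (nat_lit 928) (nat_lit 14303893635)) .nil)))),
 (.br (nat_lit 5) (nat_lit 0) (.cons (.br (nat_lit 2) (nat_lit 0) (.cons (.rf (nat_lit 928) (nat_lit 14303893635)) .nil)) (.cons (.rf (nat_lit 928) (nat_lit 14303893635)) .nil))),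
 (.br (nat_lit 5) (nat_lit 0) (.cons (.rf (nat_lit 964) (nat_lit 14242959524133701664)) (.cons (.br (nat_lit 5) (nat_lit 0) (.cons (.rf (nat_lit 964) (nat_lit 14242959524133701664)) (.cons (.rf (nat_lit 928) (nat_lit 14303893635)) .nil))) (.cons (.rf (nat_lit 928) (nat_lit 14303893635)) .nil)))),
 (.br (nat_lit 11) (nat_lit 0) (.cons (.rf (nat_lit 963) (nat_lit 14242959524133701664)) (.cons (.br (nat_lit 11) (nat_lit 0) (.cons (.rf (nat_lit 963) (nat_lit 14242959524133701664)) (.cons (.rf (nat_lit 965) (nat_lit 14242959524133701664)) (.cons (.rf (nat_lit 928) (nat_lit 14303893635)) .nil)))) (.cons (.br (nat_lit 11) (nat_lit 0) (.cons (.kr (nat_lit 18446744073709551616) (nat_lit 309485009821345068724781056) (nat_lit 8) (nat_lit 0)) (.cons (.rf (nat_lit 965) (nat_lit 14242959524133701664)) (.cons (.rf (nat_lit 928) (nat_lit 14303893635)) .nil)))) (.cons (.rf (nat_lit 928) (nat_lit 14303893635)) .nil))))),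
 (.br (nat_lit 5) (nat_lit 0) (.cons (.rf (nat_lit 966) (nat_lit 14242959455481333792)) (.cons (.br (nat_lit 7) (nat_lit 0) (.cons (.rf (nat_lit 966) (nat_lit 14242959524133701664)) (.cons (.br (nat_lit 11) (nat_lit 0) (.cons (.ev (nat_lit 79229376180969236764423094273) (nat_lit 1)) (.cons (.rf (nat_lit 928) (nat_lit 14303893635)) .nil))) (.cons (.rf (nat_lit 928) (nat_lit 14303893635)) .nil)))) (.cons (.rf (nat_lit 928) (nat_lit 14303893635)) .nil)))),
 (.br (nat_lit 5) (nat_lit 0) (.cons (.rf (nat_lit 966) (nat_lit 14242959455481333792)) (.cons (.rf (nat_lit 967) (nat_lit 14242959524133701664)) (.cons (.br (nat_lit 5) (nat_lit 0) (.cons (.rf (nat_lit 966) (nat_lit 14242959455481333792)) (.cons (.rf (nat_lit 967) (nat_lit 14242959524133701664)) (.cons (.rf (nat_lit 928) (nat_lit 14303893635)) .nil)))) (.cons (.rf (nat_lit 928) (nat_lit 14303893635)) .nil))))),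
 (.br (nat_lit 5) (nat_lit 0) (.cons (.rf (nat_lit 966) (nat_lit 14242959455481333792)) (.cons (.rf (nat_lit 968) (nat_lit 14242959455481333792)) (.cons (.br (nat_lit 5) (nat_lit 0) (.cons (.rf (nat_lit 966) (nat_lit 14242959455481333792)) (.cons (.rf (nat_lit 968) (nat_lit 14242959455481333792)) (.cons (.rf (nat_lit 928) (nat_lit 14303893635)) .nil)))) (.cons (.rf (nat_lit 928) (nat_lit 14303893635)) .nil))))),
 (.br (nat_lit 5) (nat_lit 0) (.cons (.br (nat_lit 11) (nat_lit 0) (.cons (.br (nat_lit 11) (nat_lit 0) (.cons (.ev (nat_lit 79537652264899192184406868225) (nat_lit 1)) (.cons (.rf (nat_lit 928) (nat_lit 14303893635)) .nil))) (.cons (.br (nat_lit 11) (nat_lit 0) (.cons (.ev (nat_lit 79537652264899192184406868225) (nat_lit 1)) (.cons (.rf (nat_lit 928) (nat_lit 14303893635)) .nil))) (.cons (.rf (nat_lit 928) (nat_lit 14303893635)) .nil)))) (.cons (.ev (nat_lit 79228167236631103041972535553) (nat_lit 1)) (.cons (.br (nat_lit 11) (nat_lit 0) (.cons (.br (nat_lit 11) (nat_lit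 0) (.cons (.ev (nat_lit 79538861172272062739871956993) (nat_lit 1)) (.cons (.rf (nat_lit 928) (nat_lit 14303893635)) .nil))) (.cons (.br (nat_lit 11) (nat_lit 0) (.cons (.ev (nat_lit 79538861172272062739871956993) (nat_lit 1)) (.cons (.rf (nat_lit 928) (nat_lit 14303893635)) .nil))) (.cons (.rf (nat_lit 928) (nat_lit 14303893635)) .nil)))) (.cons (.rf (nat_lit 928) (nat_lit 14303893635)) .nil))))),
 (.br (nat_lit 5) (nat_lit 0) (.cons (.br (nat_lit 11) (nat_lit 0) (.cons (.ev (nat_lit 79537652264899192184406868225) (nat_lit 1)) (.cons (.rf (nat_lit 928) (nat_lit 14303893635)) .nil))) (.cons (.kr (nat_lit 1208925819614629174706432) (nat_lit 18446744073709617152) (nat_lit 1) (nat_lit 0)) (.cons (.rf (nat_lit 928) (nat_lit 14303893635)) .nil)))),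
 (.br (nat_lit 7) (nat_lit 0) (.cons (.rf (nat_lit 971) (nat_lit 14242959455481333792)) (.cons (.br (nat_lit 7) (nat_lit 0) (.cons (.kr (nat_lit 1208925819614629174706432) (nat_lit 18446744073709617152) (nat_lit 1) (nat_lit 0)) (.cons (.rf (nat_lit 928) (nat_lit 14303893635)) .nil))) (.cons (.rf (nat_lit 928) (nat_lit 14303893635)) .nil)))),
 (.br (nat_lit 4) (nat_lit 1) (.cons (.rf (nat_lit 970) (nat_lit 14242959524133701664)) (.cons (.rf (nat_lit 970) (nat_lit 14242959455481333792)) (.cons (.br (nat_lit 5) (nat_lit 0) (.cons (.rf (nat_lit 971) (nat_lit 14242959524133701664)) (.cons (.rf (nat_lit 972) (nat_lit 14242959524133701664)) (.cons (.br (nat_lit 7) (nat_lit 0) (.cons (.rf (nat_lit 971) (nat_lit 14242959455481333792)) (.cons (.rf (nat_lit 972) (nat_lit 14242959455481333792)) (.cons (.rf (nat_lit 928) (nat_lit 14303893635)) .nil)))) (.cons (.rf (nat_lit 928) (nat_lit 14303893635)) .nil))))) .nil)))),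
 (.br (nat_lit 5) (nat_lit 0) (.cons (.br (nat_lit 11) (nat_lit 0) (.cons (.ev (nat_lit 79229376180897180269896794113) (nat_lit 1)) (.cons (.rf (nat_lit 928) (nat_lit 14303893635)) .nil))) (.cons (.kr (nat_lit 4722366482869645213952) (nat_lit 1099528404992) (nat_lit 1) (nat_lit 0)) (.cons (.rf (nat_lit 928) (nat_lit 14303893635)) .nil)))),
 (.br (nat_lit 5) (nat_lit 0) (.cons (.ev (nat_lit 18518802771554074881) (nat_lit 1)) (.cons (.rf (nat_lit 928) (nat_lit 14303893635)) .nil))),
 (.br (nat_lit 7) (nat_lit 0) (.cons (.br (nat_lit 5) (nat_lit 0) (.cons (.br (nat_lit 11) (nat_lit 0) (.cons (.rf (nat_lit 928) (nat_lit 14303893635)) .nil)) (.cons (.rf (nat_lit 928) (nat_lit 14303893635)) .nil))) (.cons (.rf (nat_lit 975) (nat_lit 14242959524133701664)) (.cons (.rf (nat_lit 928) (nat_lit 14303893635)) .nil)))),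
 (.br (nat_lit 5) (nat_lit 0) (.cons (.ev (nat_lit 18518802771554074881) (nat_lit 1)) (.cons (.rf (nat_lit 928) (nat_lit 14303893635)) .nil))),
 (.br (nat_lit 9) (nat_lit 1) (.cons (.rf (nat_lit 973) (nat_lit 14242959524133701664)) (.cons (.br (nat_lit 7) (nat_lit 0) (.cons (.rf (nat_lit 974) (nat_lit 14242959524133701664)) (.cons (.br (nat_lit 5) (nat_lit 0) (.cons (.rf (nat_lit 974) (nat_lit 14242959455481333792)) (.cons (.kr (nat_lit 4722366482869645213952) (nat_lit 1099528404992) (nat_lit 1) (nat_lit 0)) (.cons (.rf (nat_lit 928) (nat_lit 14303893635)) .nil)))) (.cons (.kr (nat_lit 4722366482869645213952) (nat_lit 72057594054705152) (nat_lit 1) (nat_lit 0)) (.cons (.rf (nat_lit 928) (nat_lit 14303893635)) .nil))))) (.cons (.br (nat_lit 7) (nat_lit 0) (.cons (.rf (nat_lit 976) (nat_lit 14242959524133701664)) (.cons (.br (nat_lit 7) (nat_lit 0) (.cons (.rf (nat_lit 976) (nat_lit 14242959524133701664)) (.cons (.rf (nat_lit 977) (nat_lit 14242959524133701664)) (.cons (.rf (nat_lit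 928) (nat_lit 14303893635)) .nil)))) (.cons (.br (nat_lit 7) (nat_lit 0) (.cons (.rf (nat_lit 975) (nat_lit 14242959524133701664)) (.cons (.rf (nat_lit 977) (nat_lit 14242959524133701664)) (.cons (.rf (nat_lit 928) (nat_lit 14303893635)) .nil)))) (.cons (.rf (nat_lit 928) (nat_lit 14303893635)) .nil))))) .nil)))),
 (.br (nat_lit 12) (nat_lit 0) (.cons (.br (nat_lit 7) (nat_lit 0) (.cons (.rf (nat_lit 966) (nat_lit 14242959524133701664)) (.cons (.rf (nat_lit 968) (nat_lit 14242959524133701664)) (.cons (.rf (nat_lit 969) (nat_lit 14242959524133701664)) (.cons (.br (nat_lit 7) (nat_lit 0) (.cons (.rf (nat_lit 966) (nat_lit 14242959524133701664)) (.cons (.rf (nat_lit 968) (nat_lit 14242959524133701664)) (.cons (.rf (nat_lit 969) (nat_lit 14242959524133701664)) (.cons (.rf (nat_lit 928) (nat_lit 14303893635)) .nil))))) (.cons (.rf (nat_lit 928) (nat_lit 14303893635)) .nil)))))) (.cons (.br (nat_lit 9) (nat_lit 1) (.cons (.rf (nat_lit 973) (nat_lit 14242959524133701664)) (.cons (.rf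 (nat_lit 978) (nat_lit 14242959524133701664)) (.cons (.rf (nat_lit 978) (nat_lit 14242959455481333792)) (.cons (.br (nat_lit 9) (nat_lit 1) (.cons (.rf (nat_lit 973) (nat_lit 14242959524133701664)) (.cons (.rf (nat_lit 978) (nat_lit 14242959524133701664)) (.cons (.rf (nat_lit 978) (nat_lit 14242959455481333792)) .nil)))) .nil))))) (.cons (.rf (nat_lit 928) (nat_lit 14303893635)) .nil))))]

theorem c33 : chkAll C T R L33 (nat_lit 947) = true := by decide +kernel

theorem l33 : (nat_lit 947) + L33.length = (nat_lit 980) := by decide +kernel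

/-- part of the certificates -/
def L34 : List Prf := [(.br (nat_lit 7) (nat_lit 0) (.cons (.br (nat_lit 5) (nat_lit 0) (.cons (.rf (nat_lit 928) (nat_lit 14303893635)) .nil)) (.cons (.rf (nat_lit 928) (nat_lit 14303893635)) .nil))),
 (.br (nat_lit 5) (nat_lit 0) (.cons (.rf (nat_lit 980) (nat_lit 14242959524133701664)) (.cons (.br (nat_lit 5) (nat_lit 0) (.cons (.rf (nat_lit 980) (nat_lit 14242959524133701664)) (.cons (.rf (nat_lit 928) (nat_lit 14303893635)) .nil))) (.cons (.rf (nat_lit 928) (nat_lit 14303893635)) .nil)))),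
 (.br (nat_lit 5) (nat_lit 0) (.cons (.rf (nat_lit 981) (nat_lit 14242959455481333792)) (.cons (.br (nat_lit 7) (nat_lit 0) (.cons (.rf (nat_lit 981) (nat_lit 14242959524133701664)) (.cons (.rf (nat_lit 928) (nat_lit 14303893635)) .nil))) (.cons (.rf (nat_lit 928) (nat_lit 14303893635)) .nil)))),
 (.br (nat_lit 5) (nat_lit 0) (.cons (.ev (nat_lit 79537652264899192184406868225) (nat_lit 1)) (.cons (.rf (nat_lit 928) (nat_lit 14303893635)) .nil))),
 (.br (nat_lit 11) (nat_lit 0) (.cons (.br (nat_lit 7) (nat_lit 0) (.cons (.rf (nat_lit 981) (nat_lit 14242959524133701664)) (.cons (.rf (nat_lit 982) (nat_lit 14242959524133701664)) (.cons (.br (nat_lit 5) (nat_lit 0) (.cons (.rf (nat_lit 981) (nat_lit 14242959455481333792)) (.cons (.rf (nat_lit 982) (nat_lit 14242959455481333792)) (.cons (.rf (nat_lit 928) (nat_lit 14303893635)) .nil)))) (.cons (.rf (nat_lit 928) (nat_lit 14303893635)) .nil))))) (.cons (.kr (nat_lit 4722366482869645213696) (nat_lit 79228162514264337593543950336)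 (nat_lit 9) (nat_lit 0)) (.cons (.br (nat_lit 2) (nat_lit 0) (.cons (.br (nat_lit 5) (nat_lit 0) (.cons (.rf (nat_lit 983) (nat_lit 14242959524133701664)) (.cons (.br (nat_lit 7) (nat_lit 0) (.cons (.rf (nat_lit 983) (nat_lit 14242959455481333792)) (.cons (.rf (nat_lit 928) (nat_lit 14303893635)) .nil))) (.cons (.rf (nat_lit 928) (nat_lit 14303893635)) .nil)))) (.cons (.kr (nat_lit 79228162514264337593543950592) (nat_lit 309485009821345068724846592) (nat_lit 1) (nat_lit 0)) (.cons (.rf (nat_lit 928) (nat_lit 14303893635)) .nil)))) (.cons (.rf (nat_lit 928) (nat_lit 14303893635)) .nil))))),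
 (.br (nat_lit 7) (nat_lit 0) (.cons (.br (nat_lit 7) (nat_lit 0) (.cons (.ev (nat_lit 79228162532783139265603174401) (nat_lit 1)) (.cons (.rf (nat_lit 928) (nat_lit 14303893635)) .nil))) (.cons (.br (nat_lit 7) (nat_lit 0) (.cons (.ev (nat_lit 79228162532783139265603174401) (nat_lit 1)) (.cons (.rf (nat_lit 928) (nat_lit 14303893635)) .nil))) (.cons (.rf (nat_lit 928) (nat_lit 14303893635)) .nil)))),
 (.br (nat_lit 11) (nat_lit 0) (.cons (.rf (nat_lit 984) (nat_lit 14242959524133701664)) (.cons (.kr (nat_lit 4722366482869645213696) (nat_lit 79228162514264337593543950336) (nat_lit 9) (nat_lit 0)) (.cons (.br (nat_lit 9) (nat_lit 1) (.cons (.kr (nat_lit 1208925819614629174706432) (nat_lit 309485009821345068724846592) (nat_lit 1) (nat_lit 0)) (.cons (.rf (nat_lit 985) (nat_lit 14242959524133701664)) (.cons (.rf (nat_lit 985) (nat_lit 14242959455481333792)) .nil)))) (.cons (.rf (nat_lit 928) (nat_lit 14303893635)) .nil))))),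
 (.br (nat_lit 12) (nat_lit 0) (.cons (.rf (nat_lit 979) (nat_lit 14242959524133701664)) (.cons (.br (nat_lit 11) (nat_lit 0) (.cons (.rf (nat_lit 984) (nat_lit 14242959524133701664)) (.cons (.rf (nat_lit 986) (nat_lit 14242959524133701664)) (.cons (.kr (nat_lit 4722366482869645213696) (nat_lit 79228162514264337593543950336) (nat_lit 9) (nat_lit 0)) (.cons (.br (nat_lit 11) (nat_lit 0) (.cons (.rf (nat_lit 984) (nat_lit 14242959524133701664)) (.cons (.rf (nat_lit 986) (nat_lit 14242959524133701664)) (.cons (.kr (nat_lit 4722366482869645213696) (nat_lit 79228162514264337593543950336) (nat_lit 9) (nat_lit 0)) (.cons (.rf (nat_lit 928) (nat_lit 14303893635)) .nil))))) (.cons (.rf (nat_lit 928) (nat_lit 14303893635)) .nil)))))) (.cons (.rf (nat_lit 928) (nat_lit 14303893635)) .nil)))),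
 (.br (nat_lit 12) (nat_lit 0) (.cons (.rf (nat_lit 979) (nat_lit 14242959524133701664)) (.cons (.rf (nat_lit 987) (nat_lit 14242959524133701664)) (.cons (.br (nat_lit 12) (nat_lit 0) (.cons (.rf (nat_lit 979) (nat_lit 14242959524133701664)) (.cons (.rf (nat_lit 987) (nat_lit 14242959524133701664)) (.cons (.rf (nat_lit 928) (nat_lit 14303893635)) .nil)))) (.cons (.rf (nat_lit 928) (nat_lit 14303893635)) .nil))))),
 (.br (nat_lit 7) (nat_lit 0) (.cons (.ev (nat_lit 310698676526525714563924225) (nat_lit 1)) (.cons (.rf (nat_lit 928) (nat_lit 14303893635)) .nil))),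
 (.br (nat_lit 5) (nat_lit 0) (.cons (.ev (nat_lit 310698676454469220037624065) (nat_lit 1)) (.cons (.rf (nat_lit 928) (nat_lit 14303893635)) .nil))),
 (.br (nat_lit 2) (nat_lit 0) (.cons (.br (nat_lit 7) (nat_lit 0) (.cons (.rf (nat_lit 989) (nat_lit 14242959524133701664)) (.cons (.br (nat_lit 5) (nat_lit 0) (.cons (.rf (nat_lit 989) (nat_lit 14242959455481333792)) (.cons (.rf (nat_lit 928) (nat_lit 14303893635)) .nil))) (.cons (.rf (nat_lit 928) (nat_lit 14303893635)) .nil)))) (.cons (.kr (nat_lit 79228162514264337593543950592) (nat_lit 18446744073709617152) (nat_lit 1) (nat_lit 0)) (.cons (.br (nat_lit 5) (nat_lit 0) (.cons (.rf (nat_lit 990) (nat_lit 14242959524133701664)) (.cons (.br (nat_lit 7) (nat_lit 0) (.cons (.rf (nat_lit 990) (nat_lit 14242959455481333792)) (.cons (.rf (nat_lit 928) (nat_lit 14303893635)) .nil))) (.cons (.rf (nat_lit 928) (nat_lit 14303893635)) .nil)))) (.cons (.rf (nat_lit 928) (nat_lit 14303893635)) .nil))))),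
 (.br (nat_lit 5) (nat_lit 0) (.cons (.ev (nat_lit 310698676454469220037624065) (nat_lit 1)) (.cons (.rf (nat_lit 928) (nat_lit 14303893635)) .nil))),
 (.br (nat_lit 11) (nat_lit 0) (.cons (.rf (nat_lit 991) (nat_lit 14242959524133701664)) (.cons (.br (nat_lit 2) (nat_lit 0) (.cons (.rf (nat_lit 991) (nat_lit 14242925437127853120)) (.cons (.br (nat_lit 5) (nat_lit 0) (.cons (.rf (nat_lit 992) (nat_lit 14242959524133701664)) (.cons (.br (nat_lit 7) (nat_lit 0) (.cons (.rf (nat_lit 992) (nat_lit 14242959455481333792)) (.cons (.rf (nat_lit 928) (nat_lit 14303893635)) .nil))) (.cons (.rf (nat_lit 928) (nat_lit 14303893635)) .nil)))) (.cons (.kr (nat_lit 4722366482869645213952) (nat_lit 309485009821345068724846592) (nat_lit 1) (nat_lit 0)) (.cons (.rf (nat_lit 928) (nat_lit 14303893635)) .nil))))) (.cons (.kr (nat_lit 1208925819614629174706176) (nat_lit 79228162514264337593543950336) (nat_lit 10) (nat_lit 0)) (.cons (.rf (nat_lit 928) (nat_lit 14303893635)) .nil))))),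
 (.br (nat_lit 11) (nat_lit 0) (.cons (.rf (nat_lit 993) (nat_lit 14242959524133701664)) (.cons (.br (nat_lit 2) (nat_lit 0) (.cons (.br (nat_lit 4) (nat_lit 1) (.cons (.rf (nat_lit 962) (nat_lit 11550614637085760)) (.cons (.rf (nat_lit 962) (nat_lit 11550545984717888)) .nil))) (.cons (.kr (nat_lit 79228162514264337593543950592) (nat_lit 309485009821345068724846592) (nat_lit 1) (nat_lit 0)) (.cons (.rf (nat_lit 928) (nat_lit 14303893635)) .nil)))) (.cons (.kr (nat_lit 18446744073709551616) (nat_lit 309485009821345068724781056) (nat_lit 8) (nat_lit 0)) (.cons (.rf (nat_lit 928) (nat_lit 14303893635)) .nil))))),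
 (.br (nat_lit 12) (nat_lit 0) (.cons (.rf (nat_lit 988) (nat_lit 14242959524133701664)) (.cons (.br (nat_lit 11) (nat_lit 0) (.cons (.rf (nat_lit 993) (nat_lit 14242959524133701664)) (.cons (.rf (nat_lit 994) (nat_lit 14242959524133701664)) (.cons (.br (nat_lit 11) (nat_lit 0) (.cons (.rf (nat_lit 993) (nat_lit 14242959524133701664)) (.cons (.rf (nat_lit 994) (nat_lit 14242959524133701664)) (.cons (.kr (nat_lit 1208925819614629174706176) (nat_lit 79228162514264337593543950336) (nat_lit 10) (nat_lit 0)) (.cons (.rf (nat_lit 928) (nat_lit 14303893635)) .nil))))) (.cons (.kr (nat_lit 1208925819614629174706176) (nat_lit 79228162514264337593543950336) (nat_lit 10) (nat_lit 0)) (.cons (.rf (nat_lit 928) (nat_lit 14303893635)) .nil)))))) (.cons (.rf (nat_lit 928) (nat_lit 14303893635)) .nil)))),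
 (.br (nat_lit 12) (nat_lit 0) (.cons (.rf (nat_lit 988) (nat_lit 14242959524133701664)) (.cons (.rf (nat_lit 995) (nat_lit 14242959524133701664)) (.cons (.br (nat_lit 12) (nat_lit 0) (.cons (.rf (nat_lit 988) (nat_lit 14242959524133701664)) (.cons (.rf (nat_lit 995) (nat_lit 14242959524133701664)) (.cons (.rf (nat_lit 928) (nat_lit 14303893635)) .nil)))) (.cons (.rf (nat_lit 928) (nat_lit 14303893635)) .nil))))),
 (.br (nat_lit 12) (nat_lit 0) (.cons (.rf (nat_lit 988) (nat_lit 14242959524133701664)) (.cons (.rf (nat_lit 996) (nat_lit 14242959524133701664)) (.cons (.br (nat_lit 12) (nat_lit 0) (.cons (.rf (nat_lit 988) (nat_lit 14242959524133701664)) (.cons (.rf (nat_lit 996) (nat_lit 14242959524133701664)) (.cons (.rf (nat_lit 928) (nat_lit 14303893635)) .nil)))) (.cons (.rf (nat_lit 928) (nat_lit 14303893635)) .nil))))),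
 (.br (nat_lit 6) (nat_lit 1) (.cons (.kr (nat_lit 256) (nat_lit 65536) (nat_lit 1) (nat_lit 0)) (.cons (.rf (nat_lit 962) (nat_lit 11584701642934304)) (.cons (.rf (nat_lit 962) (nat_lit 11584632990566432)) (.cons (.br (nat_lit 11) (nat_lit 1) (.cons (.br (nat_lit 12) (nat_lit 0) (.cons (.rf (nat_lit 988) (nat_lit 14242959524133701664)) (.cons (.rf (nat_lit 996) (nat_lit 14242959524133701664)) (.cons (.rf (nat_lit 997) (nat_lit 14242959524133701664)) (.cons (.br (nat_lit 12) (nat_lit 0) (.cons (.rf (nat_lit 988) (nat_lit 14242959524133701664)) (.cons (.rf (nat_lit 996) (nat_lit 14242959524133701664)) (.cons (.rf (nat_lit 997) (nat_lit 14242959524133701664)) (.cons (.rf (nat_lit 928) (nat_lit 14303893635)) .nil))))) (.cons (.rf (nat_lit 928) (nat_lit 14303893635)) .nil)))))) .nil)) .nil))))),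
 (.br (nat_lit 12) (nat_lit 0) (.cons (.br (nat_lit 11) (nat_lit 0) (.cons (.br (nat_lit 11) (nat_lit 0) (.cons (.kr (nat_lit 79229371440083952222735433728) (nat_lit 4740813226947649732608) (nat_lit 3) (nat_lit 0)) (.cons (.rf (nat_lit 928) (nat_lit 14303893635)) .nil))) (.cons (.br (nat_lit 11) (nat_lit 0) (.cons (.kr (nat_lit 79229371440083952222735433728) (nat_lit 4740813226947649732608) (nat_lit 3) (nat_lit 0)) (.cons (.rf (nat_lit 928) (nat_lit 14303893635)) .nil))) (.cons (.rf (nat_lit 928) (nat_lit 14303893635)) .nil)))) (.cons (.rf (nat_lit 928) (nat_lit 14303893635)) .nil))),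
 (.br (nat_lit 12) (nat_lit 0) (.cons (.rf (nat_lit 999) (nat_lit 14242959524133701664)) (.cons (.br (nat_lit 12) (nat_lit 0) (.cons (.rf (nat_lit 999) (nat_lit 14242959524133701664)) (.cons (.rf (nat_lit 928) (nat_lit 14303893635)) .nil))) (.cons (.rf (nat_lit 928) (nat_lit 14303893635)) .nil)))),
 (.br (nat_lit 12) (nat_lit 0) (.cons (.rf (nat_lit 1000) (nat_lit 14242959524133701664)) (.cons (.br (nat_lit 12) (nat_lit 0) (.cons (.rf (nat_lit 1000) (nat_lit 14242959524133701664)) (.cons (.rf (nat_lit 928) (nat_lit 14303893635)) .nil))) (.cons (.rf (nat_lit 928) (nat_lit 14303893635)) .nil)))),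
 (.br (nat_lit 12) (nat_lit 0) (.cons (.rf (nat_lit 1000) (nat_lit 14242959524133701664)) (.cons (.rf (nat_lit 1001) (nat_lit 14242959524133701664)) (.cons (.br (nat_lit 12) (nat_lit 0) (.cons (.rf (nat_lit 1000) (nat_lit 14242959524133701664)) (.cons (.rf (nat_lit 1001) (nat_lit 14242959524133701664)) (.cons (.rf (nat_lit 928) (nat_lit 14303893635)) .nil)))) (.cons (.rf (nat_lit 928) (nat_lit 14303893635)) .nil))))),
 (.br (nat_lit 12) (nat_lit 0) (.cons (.br (nat_lit 11) (nat_lit 0) (.cons (.br (nat_lit 11) (nat_lit 0) (.cons (.kr (nat_lit 4722366482869645213696) (nat_lit 79228162514264337593543950336) (nat_lit 9) (nat_lit 0)) (.cons (.rf (nat_lit 928) (nat_lit 14303893635)) .nil))) (.cons (.kr (nat_lit 4722366482869645213696) (nat_lit 79228162514264337593543950336) (nat_lit 9) (nat_lit 0)) (.cons (.rf (nat_lit 928) (nat_lit 14303893635)) .nil)))) (.cons (.rf (nat_lit 928) (nat_lit 14303893635)) .nil))),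
 (.br (nat_lit 12) (nat_lit 0) (.cons (.rf (nat_lit 1003) (nat_lit 14242959524133701664)) (.cons (.br (nat_lit 12) (nat_lit 0) (.cons (.rf (nat_lit 1003) (nat_lit 14242959524133701664)) (.cons (.rf (nat_lit 928) (nat_lit 14303893635)) .nil))) (.cons (.rf (nat_lit 928) (nat_lit 14303893635)) .nil)))),
 (.br (nat_lit 12) (nat_lit 0) (.cons (.rf (nat_lit 1004) (nat_lit 14242959524133701664)) (.cons (.br (nat_lit 12) (nat_lit 0) (.cons (.rf (nat_lit 1004) (nat_lit 14242959524133701664)) (.cons (.rf (nat_lit 928) (nat_lit 14303893635)) .nil))) (.cons (.rf (nat_lit 928) (nat_lit 14303893635)) .nil)))),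
 (.br (nat_lit 12) (nat_lit 0) (.cons (.rf (nat_lit 1004) (nat_lit 14242959524133701664)) (.cons (.rf (nat_lit 1005) (nat_lit 14242959524133701664)) (.cons (.br (nat_lit 12) (nat_lit 0) (.cons (.rf (nat_lit 1004) (nat_lit 14242959524133701664)) (.cons (.rf (nat_lit 1005) (nat_lit 14242959524133701664)) (.cons (.rf (nat_lit 928) (nat_lit 14303893635)) .nil)))) (.cons (.rf (nat_lit 928) (nat_lit 14303893635)) .nil))))),
 (.br (nat_lit 8) (nat_lit 1) (.cons (.kr (nat_lit 256) (nat_lit 65536) (nat_lit 1) (nat_lit 0)) (.cons (.rf (nat_lit 998) (nat_lit 10284909112532128)) (.cons (.rf (nat_lit 998) (nat_lit 10284909112530144)) (.cons (.br (nat_lit 11) (nat_lit 1) (.cons (.br (nat_lit 2) (nat_lit 0) (.cons (.rf (nat_lit 998) (nat_lit 11550614637085760)) (.cons (.rf (nat_lit 1002) (nat_lit 14242959524133701664)) (.cons (.rf (nat_lit 1006) (nat_lit 14242959524133701664)) (.cons (.rf (nat_lit 928) (nat_lit 14303893635)) .nil))))) .nil)) .nil))))),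
 (.br (nat_lit 1) (nat_lit 0) (.cons (.kr (nat_lit 256) (nat_lit 65536) (nat_lit 1) (nat_lit 0)) (.cons (.br (nat_lit 7) (nat_lit 0) (.cons (.br (nat_lit 5) (nat_lit 0) (.cons (.kr (nat_lit 72057594037928192) (nat_lit 1099511693312) (nat_lit 1) (nat_lit 0)) (.cons (.rf (nat_lit 928) (nat_lit 14303893635)) .nil))) (.cons (.br (nat_lit 5) (nat_lit 0) (.cons (.kr (nat_lit 1099511628032) (nat_lit 72057594037993472) (nat_lit 1) (nat_lit 0)) (.cons (.rf (nat_lit 928) (nat_lit 14303893635)) .nil))) (.cons (.rf (nat_lit 928) (nat_lit 14303893635)) .nil)))) (.cons (.rf (nat_lit 928) (nat_lit 14303893635)) .nil)))),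
 (.br (nat_lit 4) (nat_lit 1) (.cons (.rf (nat_lit 998) (nat_lit 11550614637086752)) (.cons (.rf (nat_lit 998) (nat_lit 11550614637085760)) (.cons (.rf (nat_lit 1007) (nat_lit 10489412911832224)) (.cons (.rf (nat_lit 1007) (nat_lit 10489412911830240)) (.cons (.br (nat_lit 2) (nat_lit 0) (.cons (.rf (nat_lit 1008) (nat_lit 14242959524133701664)) (.cons (.br (nat_lit 1) (nat_lit 0) (.cons (.rf (nat_lit 1008) (nat_lit 14242959524133700672)) (.cons (.kr (nat_lit 256) (nat_lit 65536) (nat_lit 1) (nat_lit 0)) (.cons (.rf (nat_lit 928) (nat_lit 14303893635)) .nil)))) (.cons (.rf (nat_lit 928) (nat_lit 14303893635)) .nil)))) .nil)))))),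
 (.br (nat_lit 8) (nat_lit 1) (.cons (.rf (nat_lit 1007) (nat_lit 11584701642934304)) (.cons (.rf (nat_lit 1007) (nat_lit 11584701642933312)) (.cons (.rf (nat_lit 998) (nat_lit 10284909112532128)) (.cons (.rf (nat_lit 998) (nat_lit 10284909112530144)) (.cons (.br (nat_lit 8) (nat_lit 1) (.cons (.rf (nat_lit 1007) (nat_lit 11584701642934304)) (.cons (.rf (nat_lit 1007) (nat_lit 11584701642933312)) (.cons (.rf (nat_lit 998) (nat_lit 10284909112532128)) (.cons (.rf (nat_lit 998) (nat_lit 10284909112530144)) (.cons (.br (nat_lit 4) (nat_lit 1) (.cons (.rf (nat_lit 998) (nat_lit 11550614637086752)) (.cons (.rf (nat_lit 998) (nat_lit 11550614637085760)) (.cons (.rf (nat_lit 1007) (nat_lit 10489412911832224)) (.cons (.rf (nat_lit 1007) (nat_lit 10489412911830240)) (.cons (.rf (nat_lit 1009) (nat_lit 14242959524133701664)) (.cons (.rf (nat_lit 1009) (nat_lit 13126066816545818656)) .nil))))))) .nil)))))) .nil)))))),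
 (.br (nat_lit 7) (nat_lit 0) (.cons (.kr (nat_lit 4740813226947649732864) (nat_lit 79229371440083952222735499264) (nat_lit 1) (nat_lit 0)) (.cons (.rf (nat_lit 928) (nat_lit 14303893635)) .nil))),
 (.br (nat_lit 11) (nat_lit 0) (.cons (.rf (nat_lit 1011) (nat_lit 14242959524133701664)) (.cons (.br (nat_lit 11) (nat_lit 0) (.cons (.rf (nat_lit 1011) (nat_lit 14242959524133701664)) (.cons (.rf (nat_lit 928) (nat_lit 14303893635)) .nil))) (.cons (.rf (nat_lit 928) (nat_lit 14303893635)) .nil)))),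
 (.br (nat_lit 7) (nat_lit 0) (.cons (.rf (nat_lit 1012) (nat_lit 14242959524133701664)) (.cons (.br (nat_lit 11) (nat_lit 0) (.cons (.kr (nat_lit 4740813226947649732864) (nat_lit 79229371440083952222735499264) (nat_lit 1) (nat_lit 0)) (.cons (.rf (nat_lit 928) (nat_lit 14303893635)) .nil))) (.cons (.rf (nat_lit 928) (nat_lit 14303893635)) .nil)))),
 (.br (nat_lit 12) (nat_lit 0) (.cons (.br (nat_lit 5) (nat_lit 0) (.cons (.ev (nat_lit 4740813228042866458881) (nat_lit 1)) (.cons (.br (nat_lit 7) (nat_lit 0) (.cons (.br (nat_lit 7) (nat_lit 0) (.cons (.ev (nat_lit 79229376180969518239383027713) (nat_lit 1)) (.cons (.rf (nat_lit 928) (nat_lit 14303893635)) .nil))) (.cons (.br (nat_lit 7) (nat_lit 0) (.cons (.ev (nat_lit 79229376180969518239383027713) (nat_lit 1)) (.cons (.rf (nat_lit 928) (nat_lit 14303893635)) .nil))) (.cons (.rf (nat_lit 928) (nat_lit 14303893635)) .nil)))) (.cons (.rf (nat_lit 928) (nat_lit 14303893635)) .nil)))) (.cons (.br (nat_lit 7) (nat_lit 0) (.cons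 (.rf (nat_lit 1012) (nat_lit 14242959524133701664)) (.cons (.rf (nat_lit 1013) (nat_lit 14242959524133701664)) (.cons (.br (nat_lit 7) (nat_lit 0) (.cons (.rf (nat_lit 1012) (nat_lit 14242959524133701664)) (.cons (.rf (nat_lit 1013) (nat_lit 14242959524133701664)) (.cons (.rf (nat_lit 928) (nat_lit 14303893635)) .nil)))) (.cons (.rf (nat_lit 928) (nat_lit 14303893635)) .nil))))) (.cons (.rf (nat_lit 928) (nat_lit 14303893635)) .nil))))]

theorem c34 : chkAll C T R L34 (nat_lit 980) = true := by decide +kernel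

theorem l34 : (nat_lit 980) + L34.length = (nat_lit 1015) := by decide +kernel

/-- part of the certificates -/
def L35 : List Prf := [(.br (nat_lit 7) (nat_lit 0) (.cons (.br (nat_lit 7) (nat_lit 0) (.cons (.kr (nat_lit 79229371440083952222735433728) (nat_lit 4740813226947649732608) (nat_lit 3) (nat_lit 0)) (.cons (.rf (nat_lit 928) (nat_lit 14303893635)) .nil))) (.cons (.br (nat_lit 7) (nat_lit 0) (.cons (.kr (nat_lit 79229371440083952222735433728) (nat_lit 4740813226947649732608) (nat_lit 3) (nat_lit 0)) (.cons (.rf (nat_lit 928) (nat_lit 14303893635)) .nil))) (.cons (.rf (nat_lit 928) (nat_lit 14303893635)) .nil)))),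
 (.br (nat_lit 11) (nat_lit 0) (.cons (.rf (nat_lit 1015) (nat_lit 14242959524133701664)) (.cons (.br (nat_lit 5) (nat_lit 0) (.cons (.ev (nat_lit 79537652264899192184406868225) (nat_lit 1)) (.cons (.rf (nat_lit 928) (nat_lit 14303893635)) .nil))) (.cons (.rf (nat_lit 928) (nat_lit 14303893635)) .nil)))),
 (.br (nat_lit 12) (nat_lit 0) (.cons (.rf (nat_lit 1014) (nat_lit 14242959524133701664)) (.cons (.br (nat_lit 11) (nat_lit 0) (.cons (.rf (nat_lit 1015) (nat_lit 14242959524133701664)) (.cons (.rf (nat_lit 1016) (nat_lit 14242959524133701664)) (.cons (.br (nat_lit 11) (nat_lit 0) (.cons (.rf (nat_lit 1015) (nat_lit 14242959524133701664)) (.cons (.rf (nat_lit 1016) (nat_lit 14242959524133701664)) (.cons (.rf (nat_lit 928) (nat_lit 14303893635)) .nil)))) (.cons (.rf (nat_lit 928) (nat_lit 14303893635)) .nil))))) (.cons (.rf (nat_lit 928) (nat_lit 14303893635)) .nil)))),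
 (.br (nat_lit 12) (nat_lit 0) (.cons (.rf (nat_lit 1014) (nat_lit 14242959524133701664)) (.cons (.rf (nat_lit 1017) (nat_lit 14242959524133701664)) (.cons (.br (nat_lit 12) (nat_lit 0) (.cons (.rf (nat_lit 1014) (nat_lit 14242959524133701664)) (.cons (.rf (nat_lit 1017) (nat_lit 14242959524133701664)) (.cons (.rf (nat_lit 928) (nat_lit 14303893635)) .nil)))) (.cons (.rf (nat_lit 928) (nat_lit 14303893635)) .nil))))),
 (.br (nat_lit 7) (nat_lit 0) (.cons (.ev (nat_lit 4740885284537392759041) (nat_lit 1)) (.cons (.rf (nat_lit 928) (nat_lit 13230151811)) .nil))),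
 (.br (nat_lit 5) (nat_lit 0) (.cons (.ev (nat_lit 4740813228042866458881) (nat_lit 1)) (.cons (.br (nat_lit 12) (nat_lit 0) (.cons (.rf (nat_lit 1018) (nat_lit 14242959524133701664)) (.cons (.br (nat_lit 7) (nat_lit 0) (.cons (.rf (nat_lit 1019) (nat_lit 443930265870501920)) (.cons (.rf (nat_lit 928) (nat_lit 14303893635)) .nil))) (.cons (.rf (nat_lit 928) (nat_lit 14303893635)) .nil)))) (.cons (.rf (nat_lit 928) (nat_lit 14303893635)) .nil)))),
 (.br (nat_lit 12) (nat_lit 0) (.cons (.rf (nat_lit 1018) (nat_lit 14242959524133701664)) (.cons (.rf (nat_lit 1020) (nat_lit 14242959524133701664)) (.cons (.br (nat_lit 12) (nat_lit 0) (.cons (.rf (nat_lit 1018) (nat_lit 14242959524133701664)) (.cons (.rf (nat_lit 1020) (nat_lit 14242959524133701664)) (.cons (.rf (nat_lit 928) (nat_lit 14303893635)) .nil)))) (.cons (.rf (nat_lit 928) (nat_lit 14303893635)) .nil))))),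
 (.br (nat_lit 12) (nat_lit 0) (.cons (.rf (nat_lit 1018) (nat_lit 14242959524133701664)) (.cons (.rf (nat_lit 1021) (nat_lit 14242959524133701664)) (.cons (.br (nat_lit 12) (nat_lit 0) (.cons (.rf (nat_lit 1018) (nat_lit 14242959524133701664)) (.cons (.rf (nat_lit 1021) (nat_lit 14242959524133701664)) (.cons (.rf (nat_lit 928) (nat_lit 14303893635)) .nil)))) (.cons (.rf (nat_lit 928) (nat_lit 14303893635)) .nil))))),
 (.br (nat_lit 11) (nat_lit 0) (.cons (.kr (nat_lit 4722366482869645213952) (nat_lit 79228162514264337593544015872) (nat_lit 1) (nat_lit 0)) (.cons (.br (nat_lit 5) (nat_lit 0) (.cons (.ev (nat_lit 159076513437171254920000700930) (nat_lit 2)) (.cons (.rf (nat_lit 928) (nat_lit 14303893635)) .nil))) (.cons (.rf (nat_lit 928) (nat_lit 14303893635)) .nil)))),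
 (.br (nat_lit 5) (nat_lit 0) (.cons (.br (nat_lit 7) (nat_lit 0) (.cons (.br (nat_lit 7) (nat_lit 0) (.cons (.rf (nat_lit 928) (nat_lit 14303893635)) .nil)) (.cons (.rf (nat_lit 928) (nat_lit 14303893635)) .nil))) (.cons (.ev (nat_lit 1208944266359802395885569) (nat_lit 1)) (.cons (.rf (nat_lit 928) (nat_lit 14303893635)) .nil)))),
 (.br (nat_lit 12) (nat_lit 0) (.cons (.br (nat_lit 11) (nat_lit 0) (.cons (.rf (nat_lit 1023) (nat_lit 14242959524133701664)) (.cons (.kr (nat_lit 4722366482869645213952) (nat_lit 79228162514264337593544015872) (nat_lit 1) (nat_lit 0)) (.cons (.br (nat_lit 11) (nat_lit 0) (.cons (.rf (nat_lit 1023) (nat_lit 14242959524133701664)) (.cons (.kr (nat_lit 4722366482869645213952) (nat_lit 79228162514264337593544015872) (nat_lit 1) (nat_lit 0)) (.cons (.rf (nat_lit 928) (nat_lit 14303893635)) .nil)))) (.cons (.rf (nat_lit 928) (nat_lit 14303893635)) .nil))))) (.cons (.rf (nat_lit 1024) (nat_lit 14242959524133701664)) (.cons (.rf (nat_lit 928) (nat_lit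 14303893635)) .nil)))),
 (.br (nat_lit 11) (nat_lit 0) (.cons (.br (nat_lit 5) (nat_lit 0) (.cons (.ev (nat_lit 159076513437171254920000700930) (nat_lit 2)) (.cons (.rf (nat_lit 928) (nat_lit 14303893635)) .nil))) (.cons (.kr (nat_lit 4722366482869645213696) (nat_lit 79228162514264337593543950336) (nat_lit 9) (nat_lit 0)) (.cons (.rf (nat_lit 928) (nat_lit 14303893635)) .nil)))),
 (.br (nat_lit 12) (nat_lit 0) (.cons (.rf (nat_lit 1025) (nat_lit 14242959524133701664)) (.cons (.br (nat_lit 11) (nat_lit 0) (.cons (.rf (nat_lit 1026) (nat_lit 14242959524133701664)) (.cons (.br (nat_lit 11) (nat_lit 0) (.cons (.rf (nat_lit 1026) (nat_lit 14242959524133701664)) (.cons (.kr (nat_lit 4722366482869645213696) (nat_lit 79228162514264337593543950336) (nat_lit 9) (nat_lit 0)) (.cons (.rf (nat_lit 928) (nat_lit 14303893635)) .nil)))) (.cons (.kr (nat_lit 4722366482869645213696) (nat_lit 79228162514264337593543950336) (nat_lit 9) (nat_lit 0)) (.cons (.rf (nat_lit 928) (nat_lit 14303893635))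 .nil))))) (.cons (.rf (nat_lit 928) (nat_lit 14303893635)) .nil)))),
 (.br (nat_lit 12) (nat_lit 0) (.cons (.rf (nat_lit 1025) (nat_lit 14242959524133701664)) (.cons (.rf (nat_lit 1027) (nat_lit 14242959524133701664)) (.cons (.br (nat_lit 12) (nat_lit 0) (.cons (.rf (nat_lit 1024) (nat_lit 14242959524133701664)) (.cons (.rf (nat_lit 1027) (nat_lit 14242959524133701664)) (.cons (.rf (nat_lit 928) (nat_lit 14303893635)) .nil)))) (.cons (.rf (nat_lit 928) (nat_lit 14303893635)) .nil))))),
 (.br (nat_lit 12) (nat_lit 0) (.cons (.rf (nat_lit 1028) (nat_lit 14242959524133701664)) (.cons (.br (nat_lit 5) (nat_lit 0) (.cons (.br (nat_lit 7) (nat_lit 0) (.cons (.rf (nat_lit 1010) (nat_lit 11550614637086752)) (.cons (.br (nat_lit 7) (nat_lit 0) (.cons (.kr (nat_lit 79228162514264338697350545408) (nat_lit 4722438821938659852288) (nat_lit 4) (nat_lit 0)) (.cons (.rf (nat_lit 928) (nat_lit 14303893635)) .nil))) (.cons (.rf (nat_lit 928) (nat_lit 14303893635)) .nil)))) (.cons (.ev (nat_lit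 1208944266359802395885569) (nat_lit 1)) (.cons (.rf (nat_lit 928) (nat_lit 14303893635)) .nil)))) (.cons (.rf (nat_lit 928) (nat_lit 14303893635)) .nil)))),
 (.br (nat_lit 12) (nat_lit 0) (.cons (.rf (nat_lit 1028) (nat_lit 14242959524133701664)) (.cons (.rf (nat_lit 1029) (nat_lit 14242959524133701664)) (.cons (.br (nat_lit 12) (nat_lit 0) (.cons (.rf (nat_lit 1024) (nat_lit 14242959524133701664)) (.cons (.rf (nat_lit 1029) (nat_lit 14242959524133701664)) (.cons (.rf (nat_lit 928) (nat_lit 14303893635)) .nil)))) (.cons (.rf (nat_lit 928) (nat_lit 14303893635)) .nil))))),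
 (.br (nat_lit 12) (nat_lit 0) (.cons (.rf (nat_lit 1028) (nat_lit 14242959524133701664)) (.cons (.rf (nat_lit 1030) (nat_lit 14242959524133701664)) (.cons (.br (nat_lit 12) (nat_lit 0) (.cons (.rf (nat_lit 1028) (nat_lit 14242959524133701664)) (.cons (.rf (nat_lit 1030) (nat_lit 14242959524133701664)) (.cons (.rf (nat_lit 928) (nat_lit 14303893635)) .nil)))) (.cons (.rf (nat_lit 928) (nat_lit 14303893635)) .nil))))),
 (.br (nat_lit 2) (nat_lit 0) (.cons (.rf (nat_lit 998) (nat_lit 11550614637085760)) (.cons (.kr (nat_lit 256) (nat_lit 65536) (nat_lit 1) (nat_lit 0)) (.cons (.br (nat_lit 12) (nat_lit 0) (.cons (.rf (nat_lit 1018) (nat_lit 14242959524133701664)) (.cons (.rf (nat_lit 1021) (nat_lit 14242959524133701664)) (.cons (.rf (nat_lit 1022) (nat_lit 14242959524133701664)) (.cons (.br (nat_lit 12) (nat_lit 0) (.cons (.rf (nat_lit 1018) (nat_lit 14242959524133701664)) (.cons (.rf (nat_lit 1021) (nat_lit 14242959524133701664)) (.cons (.rf (nat_lit 1022) (nat_lit 14242959524133701664))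 (.cons (.rf (nat_lit 928) (nat_lit 14303893635)) .nil))))) (.cons (.rf (nat_lit 928) (nat_lit 14303893635)) .nil)))))) (.cons (.br (nat_lit 12) (nat_lit 0) (.cons (.rf (nat_lit 1028) (nat_lit 14242959524133701664)) (.cons (.rf (nat_lit 1030) (nat_lit 14242959524133701664)) (.cons (.rf (nat_lit 1031) (nat_lit 14242959524133701664)) (.cons (.br (nat_lit 12) (nat_lit 0) (.cons (.rf (nat_lit 1028) (nat_lit 14242959524133701664)) (.cons (.rf (nat_lit 1030) (nat_lit 14242959524133701664)) (.cons (.rf (nat_lit 1031) (nat_lit 14242959524133701664)) (.cons (.rf (nat_lit 928) (nat_lit 14303893635)) .nil))))) (.cons (.rf (nat_lit 928) (nat_lit 14303893635)) .nil)))))) (.cons (.rf (nat_lit 928) (nat_lit 14303893635)) .nil)))))),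
 (.br (nat_lit 12) (nat_lit 0) (.cons (.br (nat_lit 5) (nat_lit 0) (.cons (.ev (nat_lit 79228162532711364241758683393) (nat_lit 1)) (.cons (.ev (nat_lit 1213648186380077603291393) (nat_lit 1)) (.cons (.rf (nat_lit 928) (nat_lit 14303893635)) .nil)))) (.cons (.br (nat_lit 5) (nat_lit 0) (.cons (.ev (nat_lit 79228162532711364241758617601) (nat_lit 1)) (.cons (.ev (nat_lit 1213648186380077603225601) (nat_lit 1)) (.cons (.rf (nat_lit 928) (nat_lit 14303893635)) .nil)))) (.cons (.rf (nat_lit 928) (nat_lit 14303893635)) .nil)))),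
 (.br (nat_lit 12) (nat_lit 0) (.cons (.rf (nat_lit 1033) (nat_lit 14242959524133701664)) (.cons (.br (nat_lit 7) (nat_lit 0) (.cons (.br (nat_lit 8) (nat_lit 1) (.cons (.ev (nat_lit 1213666632841572546314241) (nat_lit 1)) (.cons (.ev (nat_lit 18447025548686327809) (nat_lit 1)) .nil))) (.cons (.rf (nat_lit 928) (nat_lit 14303893635)) .nil))) (.cons (.rf (nat_lit 928) (nat_lit 14303893635)) .nil)))),
 (.br (nat_lit 4) (nat_lit 1) (.cons (.rf (nat_lit 1032) (nat_lit 13126032729539971104)) (.cons (.rf (nat_lit 1032) (nat_lit 13126032660887603232)) (.cons (.br (nat_lit 12) (nat_lit 0) (.cons (.rf (nat_lit 1033) (nat_lit 14242959524133701664)) (.cons (.rf (nat_lit 1034) (nat_lit 14242959524133701664)) (.cons (.br (nat_lit 12) (nat_lit 0) (.cons (.rf (nat_lit 1033) (nat_lit 14242959524133701664)) (.cons (.rf (nat_lit 1034) (nat_lit 14242959524133701664)) (.cons (.rf (nat_lit 928) (nat_lit 14303893635)) .nil)))) (.cons (.rf (nat_lit 928) (nat_lit 14303893635)) .nil))))) .nil)))),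
 (.br (nat_lit 7) (nat_lit 0) (.cons (.ev (nat_lit 1213648258155092857847809) (nat_lit 1)) (.cons (.rf (nat_lit 928) (nat_lit 14303893635)) .nil))),
 (.br (nat_lit 7) (nat_lit 0) (.cons (.br (nat_lit 4) (nat_lit 1) (.cons (.rf (nat_lit 1010) (nat_lit 11550614637086752)) (.cons (.rf (nat_lit 1032) (nat_lit 14242925368475486240)) (.cons (.ev (nat_lit 79229376162450716571652390913) (nat_lit 1)) .nil)))) (.cons (.rf (nat_lit 1036) (nat_lit 14242959524133701664)) (.cons (.rf (nat_lit 928) (nat_lit 14303893635)) .nil)))),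
 (.br (nat_lit 12) (nat_lit 0) (.cons (.rf (nat_lit 1035) (nat_lit 14242959524133701664)) (.cons (.br (nat_lit 12) (nat_lit 0) (.cons (.rf (nat_lit 1035) (nat_lit 14242959524133701664)) (.cons (.rf (nat_lit 1037) (nat_lit 14242959524133701664)) (.cons (.rf (nat_lit 928) (nat_lit 14303893635)) .nil)))) (.cons (.br (nat_lit 12) (nat_lit 0) (.cons (.rf (nat_lit 1035) (nat_lit 14242959524133701664)) (.cons (.rf (nat_lit 1037) (nat_lit 14242959524133701664)) (.cons (.rf (nat_lit 928) (nat_lit 14303893635)) .nil)))) (.cons (.rf (nat_lit 928) (nat_lit 14303893635)) .nil))))),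
 (.br (nat_lit 12) (nat_lit 0) (.cons (.rf (nat_lit 1035) (nat_lit 14242959524133701664)) (.cons (.rf (nat_lit 1038) (nat_lit 14242959524133701664)) (.cons (.rf (nat_lit 1037) (nat_lit 14242959524133701664)) (.cons (.rf (nat_lit 928) (nat_lit 14303893635)) .nil))))),
 (.br (nat_lit 2) (nat_lit 0) (.cons (.rf (nat_lit 998) (nat_lit 11550614637085760)) (.cons (.rf (nat_lit 1032) (nat_lit 14242959524133700672)) (.cons (.kr (nat_lit 256) (nat_lit 65536) (nat_lit 1) (nat_lit 0)) (.cons (.br (nat_lit 12) (nat_lit 0) (.cons (.rf (nat_lit 1035) (nat_lit 14242959524133701664)) (.cons (.rf (nat_lit 1038) (nat_lit 14242959524133701664)) (.cons (.rf (nat_lit 1039) (nat_lit 14242959524133701664)) (.cons (.br (nat_lit 12) (nat_lit 0) (.cons (.rf (nat_lit 1035) (nat_lit 14242959524133701664)) (.cons (.rf (nat_lit 1038) (nat_lit 14242959524133701664)) (.cons (.rf (nat_lit 1039) (nat_lit 14242959524133701664)) (.cons (.rf (nat_lit 928) (nat_lit 14303893635)) .nil))))) (.cons (.rf (nat_lit 928)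 (nat_lit 14303893635)) .nil)))))) (.cons (.rf (nat_lit 928) (nat_lit 14303893635)) .nil)))))),
 (.br (nat_lit 6) (nat_lit 1) (.cons (.rf (nat_lit 998) (nat_lit 11584701642934304)) (.cons (.rf (nat_lit 998) (nat_lit 11584701642933312)) (.cons (.rf (nat_lit 1010) (nat_lit 11584701642934304)) (.cons (.br (nat_lit 11) (nat_lit 1) (.cons (.br (nat_lit 1) (nat_lit 0) (.cons (.rf (nat_lit 998) (nat_lit 11550614637086752)) (.cons (.rf (nat_lit 1032) (nat_lit 14242959524133701664)) (.cons (.rf (nat_lit 1040) (nat_lit 14242959524133701664)) (.cons (.br (nat_lit 2) (nat_lit 0) (.cons (.rf (nat_lit 998) (nat_lit 11550614637085760)) (.cons (.rf (nat_lit 1032) (nat_lit 14242959524133700672)) (.cons (.rf (nat_lit 1040) (nat_lit 14242959524133700672)) (.cons (.kr (nat_lit 256) (nat_lit 65536) (nat_lit 1) (nat_lit 0)) (.cons (.rf (nat_lit 928) (nat_lit 14303893635)) .nil)))))) (.cons (.rf (nat_lit 928) (nat_lit 14303893635)) .nil)))))) .nil)) .nil))))),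
 (.br (nat_lit 5) (nat_lit 0) (.cons (.rf (nat_lit 998) (nat_lit 4823632717290656)) (.cons (.kr (nat_lit 1099511627776) (nat_lit 72057594037927936) (nat_lit 5) (nat_lit 0)) (.cons (.rf (nat_lit 998) (nat_lit 4619127845297312)) (.cons (.rf (nat_lit 928) (nat_lit 14303893635)) .nil))))),
 (.br (nat_lit 7) (nat_lit 0) (.cons (.br (nat_lit 5) (nat_lit 0) (.cons (.rf (nat_lit 1042) (nat_lit 14242959524133701664)) (.cons (.rf (nat_lit 1042) (nat_lit 14242925437127854112)) (.cons (.br (nat_lit 5) (nat_lit 0) (.cons (.rf (nat_lit 998) (nat_lit 4619127845297312)) (.cons (.rf (nat_lit 998) (nat_lit 6869828145290400)) (.cons (.rf (nat_lit 928) (nat_lit 14303893635)) .nil)))) (.cons (.rf (nat_lit 928) (nat_lit 14303893635)) .nil))))) (.cons (.br (nat_lit 5) (nat_lit 0) (.cons (.rf (nat_lit 998) (nat_lit 4619127845295328)) (.cons (.br (nat_lit 5) (nat_lit 0) (.cons (.rf (nat_lit 998) (nat_lit 4619127845295328)) (.cons (.rf (nat_lit 998) (nat_lit 3593282425003168)) (.cons (.rf (nat_lit 928)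 (nat_lit 14303893635)) .nil)))) (.cons (.rf (nat_lit 998) (nat_lit 3525111631385824)) (.cons (.rf (nat_lit 928) (nat_lit 14303893635)) .nil))))) (.cons (.rf (nat_lit 928) (nat_lit 14303893635)) .nil)))),
 (.br (nat_lit 4) (nat_lit 1) (.cons (.rf (nat_lit 998) (nat_lit 11550614637086752)) (.cons (.rf (nat_lit 998) (nat_lit 11550614637085760)) (.cons (.rf (nat_lit 1041) (nat_lit 11550614637086752)) (.cons (.rf (nat_lit 1041) (nat_lit 11550545984718880)) (.cons (.br (nat_lit 7) (nat_lit 0) (.cons (.rf (nat_lit 1043) (nat_lit 14242959524133701664)) (.cons (.rf (nat_lit 1043) (nat_lit 14242925437127854112)) (.cons (.br (nat_lit 7) (nat_lit 0) (.cons (.rf (nat_lit 1043) (nat_lit 14242959524133701664)) (.cons (.rf (nat_lit 1043) (nat_lit 14242925437127854112)) (.cons (.rf (nat_lit 928) (nat_lit 14303893635)) .nil)))) (.cons (.rf (nat_lit 928) (nat_lit 14303893635)) .nil))))) .nil)))))),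
 (.br (nat_lit 6) (nat_lit 1) (.cons (.rf (nat_lit 998) (nat_lit 11584701642934304)) (.cons (.rf (nat_lit 998) (nat_lit 11584701642933312)) (.cons (.rf (nat_lit 1041) (nat_lit 11584701642934304)) (.cons (.rf (nat_lit 1041) (nat_lit 11584632990566432)) (.cons (.br (nat_lit 6) (nat_lit 1) (.cons (.rf (nat_lit 998) (nat_lit 11584701642934304)) (.cons (.rf (nat_lit 998) (nat_lit 11584701642933312)) (.cons (.rf (nat_lit 1041) (nat_lit 11584701642934304)) (.cons (.rf (nat_lit 1041) (nat_lit 11584632990566432)) (.cons (.br (nat_lit 4) (nat_lit 1) (.cons (.rf (nat_lit 998) (nat_lit 11550614637086752)) (.cons (.rf (nat_lit 998) (nat_lit 11550614637085760)) (.cons (.rf (nat_lit 1041) (nat_lit 11550614637086752)) (.cons (.rf (nat_lit 1041) (nat_lit 11550545984718880)) (.cons (.rf (nat_lit 1044) (nat_lit 14242959524133701664)) (.cons (.rf (nat_lit 1044) (nat_lit 13126066816545818656)) .nil))))))) .nil)))))) .nil)))))),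
 (.br (nat_lit 10) (nat_lit 1) (.cons (.kr (nat_lit 72057594037928192) (nat_lit 1099511693312) (nat_lit 1) (nat_lit 0)) (.cons (.br (nat_lit 11) (nat_lit 1) (.cons (.br (nat_lit 7) (nat_lit 0) (.cons (.rf (nat_lit 1002) (nat_lit 14241659834682514496)) (.cons (.rf (nat_lit 1006) (nat_lit 14241659834682514496)) (.cons (.rf (nat_lit 928) (nat_lit 14303893635)) .nil)))) .nil)) .nil)))]

theorem c35 : chkAll C T R L35 (nat_lit 1015) = true := by decide +kernel

theorem l35 : (nat_lit 1015) + L35.length = (nat_lit 1047) := by decide +kernel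

/-- part of the certificates -/
def L36 : List Prf := [(.br (nat_lit 11) (nat_lit 0) (.cons (.kr (nat_lit 4722366482869645213696) (nat_lit 79228162514264337593543950336) (nat_lit 9) (nat_lit 0)) (.cons (.kr (nat_lit 1208925819614629191483392) (nat_lit 18446744078004518912) (nat_lit 3) (nat_lit 0)) (.cons (.rf (nat_lit 928) (nat_lit 14303893635)) .nil)))),
 (.br (nat_lit 12) (nat_lit 0) (.cons (.br (nat_lit 11) (nat_lit 0) (.cons (.rf (nat_lit 1047) (nat_lit 14242959524133701664)) (.cons (.kr (nat_lit 4722366482869645213696) (nat_lit 79228162514264337593543950336) (nat_lit 9) (nat_lit 0)) (.cons (.rf (nat_lit 1047) (nat_lit 14236198627140962336)) (.cons (.rf (nat_lit 928) (nat_lit 14303893635)) .nil))))) (.cons (.rf (nat_lit 928) (nat_lit 14303893635)) .nil))),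
 (.br (nat_lit 12) (nat_lit 0) (.cons (.rf (nat_lit 1048) (nat_lit 14242959524133701664)) (.cons (.br (nat_lit 12) (nat_lit 0) (.cons (.rf (nat_lit 1048) (nat_lit 14242959524133701664)) (.cons (.rf (nat_lit 928) (nat_lit 14303893635)) .nil))) (.cons (.rf (nat_lit 928) (nat_lit 14303893635)) .nil)))),
 (.br (nat_lit 6) (nat_lit 1) (.cons (.br (nat_lit 7) (nat_lit 0) (.cons (.rf (nat_lit 1046) (nat_lit 4823632717290656)) (.cons (.br (nat_lit 2) (nat_lit 0) (.cons (.rf (nat_lit 1046) (nat_lit 4823804650194976)) (.cons (.kr (nat_lit 72057594037928192) (nat_lit 1099511693312) (nat_lit 1) (nat_lit 0)) (.cons (.rf (nat_lit 1046) (nat_lit 11584701642934304)) (.cons (.rf (nat_lit 928) (nat_lit 12156409987)) .nil))))) (.cons (.rf (nat_lit 1046) (nat_lit 11584529710029984)) (.cons (.rf (nat_lit 928) (nat_lit 12156409987)) .nil))))) (.cons (.br (nat_lit 11) (nat_lit 1) (.cons (.br (nat_lit 12) (nat_lit 0) (.cons (.rf (nat_lit 1049) (nat_lit 14242959524133701664)) (.cons (.br (nat_lit 12)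 (nat_lit 0) (.cons (.rf (nat_lit 1049) (nat_lit 14242959524133701664)) (.cons (.rf (nat_lit 1049) (nat_lit 14236198627140962336)) (.cons (.rf (nat_lit 928) (nat_lit 14303893635)) .nil)))) (.cons (.rf (nat_lit 1049) (nat_lit 14236198627140962336)) (.cons (.rf (nat_lit 928) (nat_lit 14303893635)) .nil))))) .nil)) .nil))),
 (.br (nat_lit 11) (nat_lit 0) (.cons (.br (nat_lit 7) (nat_lit 0) (.cons (.rf (nat_lit 928) (nat_lit 14303893635)) .nil)) (.cons (.rf (nat_lit 928) (nat_lit 14303893635)) .nil))),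
 (.br (nat_lit 7) (nat_lit 0) (.cons (.rf (nat_lit 1051) (nat_lit 14242959524133701664)) (.cons (.br (nat_lit 7) (nat_lit 0) (.cons (.rf (nat_lit 1051) (nat_lit 14242959524133701664)) (.cons (.rf (nat_lit 928) (nat_lit 14303893635)) .nil))) (.cons (.rf (nat_lit 928) (nat_lit 14303893635)) .nil)))),
 (.br (nat_lit 2) (nat_lit 0) (.cons (.kr (nat_lit 79228162514264337593543950592) (nat_lit 281474976776192) (nat_lit 1) (nat_lit 0)) (.cons (.rf (nat_lit 1052) (nat_lit 14242959524133701664)) (.cons (.rf (nat_lit 928) (nat_lit 14303893635)) .nil)))),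
 (.br (nat_lit 7) (nat_lit 0) (.cons (.rf (nat_lit 1053) (nat_lit 14242959352200797344)) (.cons (.br (nat_lit 7) (nat_lit 0) (.cons (.rf (nat_lit 1052) (nat_lit 14242959352335014944)) (.cons (.rf (nat_lit 928) (nat_lit 14303893635)) .nil))) (.cons (.rf (nat_lit 928) (nat_lit 14303893635)) .nil)))),
 (.br (nat_lit 11) (nat_lit 0) (.cons (.br (nat_lit 11) (nat_lit 0) (.cons (.rf (nat_lit 928) (nat_lit 14303893635)) .nil)) (.cons (.rf (nat_lit 928) (nat_lit 14303893635)) .nil))),
 (.br (nat_lit 7) (nat_lit 0) (.cons (.br (nat_lit 2) (nat_lit 0) (.cons (.rf (nat_lit 1055) (nat_lit 14242959524133701664)) (.cons (.br (nat_lit 2) (nat_lit 0) (.cons (.rf (nat_lit 1055) (nat_lit 14242959524133701664)) (.cons (.rf (nat_lit 928) (nat_lit 14303893635)) .nil))) (.cons (.rf (nat_lit 928) (nat_lit 14303893635)) .nil)))) (.cons (.kr (nat_lit 1208925819614629191483392) (nat_lit 18446744078004518912) (nat_lit 3) (nat_lit 0)) (.cons (.rf (nat_lit 928) (nat_lit 14303893635)) .nil)))),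
 (.br (nat_lit 12) (nat_lit 0) (.cons (.br (nat_lit 2) (nat_lit 0) (.cons (.rf (nat_lit 1053) (nat_lit 14242959524133701664)) (.cons (.rf (nat_lit 1054) (nat_lit 14242959524133701664)) (.cons (.br (nat_lit 2) (nat_lit 0) (.cons (.rf (nat_lit 1052) (nat_lit 14242959524133701664)) (.cons (.rf (nat_lit 1054) (nat_lit 14242959524133701664)) (.cons (.rf (nat_lit 928) (nat_lit 14303893635)) .nil)))) (.cons (.rf (nat_lit 928) (nat_lit 14303893635)) .nil))))) (.cons (.br (nat_lit 7) (nat_lit 0) (.cons (.rf (nat_lit 1056) (nat_lit 14242959524133701664)) (.cons (.br (nat_lit 7) (nat_lit 0) (.cons (.rf (nat_lit 1056) (nat_lit 14242959524133701664)) (.cons (.rf (nat_lit 1056) (nat_lit 14236198627140962336)) (.cons (.rf (nat_lit 928) (nat_lit 14303893635)) .nil)))) (.cons (.rf (nat_lit 1056) (nat_lit 14236198627140962336)) (.cons (.rf (nat_lit 928) (nat_lit 14303893635)) .nil))))) (.cons (.rf (nat_lit 928) (nat_lit 14303893635)) .nil)))),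
 (.br (nat_lit 11) (nat_lit 0) (.cons (.ev (nat_lit 309485028268370617427886081) (nat_lit 1)) (.cons (.rf (nat_lit 928) (nat_lit 14303893635)) .nil))),
 (.br (nat_lit 9) (nat_lit 1) (.cons (.ev (nat_lit 18518802767275950081) (nat_lit 1)) (.cons (.br (nat_lit 11) (nat_lit 1) (.cons (.br (nat_lit 10) (nat_lit 1) (.cons (.rf (nat_lit 1045) (nat_lit 3593282425003168)) (.cons (.br (nat_lit 12) (nat_lit 0) (.cons (.br (nat_lit 12) (nat_lit 0) (.cons (.rf (nat_lit 1058) (nat_lit 14242959524133701664)) (.cons (.rf (nat_lit 928) (nat_lit 14303893635)) .nil))) (.cons (.br (nat_lit 12) (nat_lit 0) (.cons (.rf (nat_lit 1058) (nat_lit 14242959524133701664)) (.cons (.rf (nat_lit 928) (nat_lit 14303893635)) .nil))) (.cons (.rf (nat_lit 928) (nat_lit 14303893635)) .nil)))) (.cons (.br (nat_lit 11) (nat_lit 0) (.cons (.br (nat_lit 11) (nat_lit 0) (.cons (.ev (nat_lit 310693935640960801722925313) (nat_lit 1)) (.cons (.rf (nat_lit 928) (nat_lit 14303893635)) .nil))) (.cons (.br (nat_lit 11) (nat_lit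 0) (.cons (.ev (nat_lit 310693935640960801722925313) (nat_lit 1)) (.cons (.rf (nat_lit 928) (nat_lit 14303893635)) .nil))) (.cons (.rf (nat_lit 928) (nat_lit 14303893635)) .nil)))) .nil)))) .nil)) .nil))),
 (.br (nat_lit 11) (nat_lit 0) (.cons (.br (nat_lit 11) (nat_lit 0) (.cons (.rf (nat_lit 928) (nat_lit 14303893635)) .nil)) (.cons (.rf (nat_lit 928) (nat_lit 14303893635)) .nil))),
 (.br (nat_lit 9) (nat_lit 1) (.cons (.ev (nat_lit 18518802767275950081) (nat_lit 1)) (.cons (.br (nat_lit 11) (nat_lit 1) (.cons (.br (nat_lit 10) (nat_lit 1) (.cons (.rf (nat_lit 1045) (nat_lit 3593282425003168)) (.cons (.br (nat_lit 12) (nat_lit 0) (.cons (.br (nat_lit 12) (nat_lit 0) (.cons (.rf (nat_lit 1058) (nat_lit 14242959524133701664)) (.cons (.rf (nat_lit 928) (nat_lit 14303893635)) .nil))) (.cons (.br (nat_lit 12) (nat_lit 0) (.cons (.rf (nat_lit 1058) (nat_lit 14242959524133701664)) (.cons (.rf (nat_lit 928) (nat_lit 14303893635)) .nil))) (.cons (.rf (nat_lit 928) (nat_lit 14303893635))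 .nil)))) (.cons (.br (nat_lit 12) (nat_lit 0) (.cons (.rf (nat_lit 1060) (nat_lit 14242959524133701664)) (.cons (.br (nat_lit 12) (nat_lit 0) (.cons (.rf (nat_lit 1060) (nat_lit 14242959524133701664)) (.cons (.rf (nat_lit 928) (nat_lit 14303893635)) .nil))) (.cons (.rf (nat_lit 928) (nat_lit 14303893635)) .nil)))) .nil)))) .nil)) .nil))),
 (.br (nat_lit 11) (nat_lit 0) (.cons (.br (nat_lit 11) (nat_lit 0) (.cons (.br (nat_lit 12) (nat_lit 0) (.cons (.ev (nat_lit 309485028268370617427886081) (nat_lit 1)) (.cons (.rf (nat_lit 928) (nat_lit 14303893635)) .nil))) (.cons (.rf (nat_lit 928) (nat_lit 14303893635)) .nil))) (.cons (.br (nat_lit 12) (nat_lit 0) (.cons (.rf (nat_lit 1058) (nat_lit 14242959524133701664)) (.cons (.rf (nat_lit 928) (nat_lit 14303893635)) .nil))) (.cons (.rf (nat_lit 928) (nat_lit 14303893635)) .nil)))),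
 (.br (nat_lit 12) (nat_lit 0) (.cons (.rf (nat_lit 1062) (nat_lit 14242959524133701664)) (.cons (.br (nat_lit 11) (nat_lit 0) (.cons (.rf (nat_lit 1062) (nat_lit 13126066816545818656)) (.cons (.ev (nat_lit 79228162532711363142247055361) (nat_lit 1)) (.cons (.rf (nat_lit 928) (nat_lit 14303893635)) .nil)))) (.cons (.rf (nat_lit 928) (nat_lit 14303893635)) .nil)))),
 (.br (nat_lit 10) (nat_lit 1) (.cons (.rf (nat_lit 1059) (nat_lit 11584701642934304)) (.cons (.rf (nat_lit 1061) (nat_lit 11584701642934304)) (.cons (.br (nat_lit 10) (nat_lit 1) (.cons (.rf (nat_lit 1059) (nat_lit 11584701642934304)) (.cons (.rf (nat_lit 1061) (nat_lit 11584701642934304)) (.cons (.br (nat_lit 11) (nat_lit 1) (.cons (.br (nat_lit 12) (nat_lit 0) (.cons (.rf (nat_lit 1062) (nat_lit 14242959524133701664)) (.cons (.rf (nat_lit 1063) (nat_lit 14242959524133701664)) (.cons (.br (nat_lit 11) (nat_lit 0) (.cons (.rf (nat_lit 1062) (nat_lit 13126066816545818656)) (.cons (.rf (nat_lit 1063) (nat_lit 13126066816545818656))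 (.cons (.rf (nat_lit 928) (nat_lit 14303893635)) .nil)))) (.cons (.rf (nat_lit 928) (nat_lit 14303893635)) .nil))))) .nil)) .nil)))) .nil)))),
 (.br (nat_lit 10) (nat_lit 1) (.cons (.rf (nat_lit 1045) (nat_lit 3593282425003168)) (.cons (.br (nat_lit 11) (nat_lit 1) (.cons (.br (nat_lit 6) (nat_lit 1) (.cons (.ev (nat_lit 18447026648197890049) (nat_lit 1)) (.cons (.br (nat_lit 11) (nat_lit 0) (.cons (.br (nat_lit 7) (nat_lit 0) (.cons (.ev (nat_lit 1209018485682791088391172) (nat_lit 3)) (.cons (.br (nat_lit 12) (nat_lit 0) (.cons (.br (nat_lit 12) (nat_lit 0) (.cons (.rf (nat_lit 928) (nat_lit 14303893635)) .nil)) (.cons (.rf (nat_lit 928) (nat_lit 14303893635)) .nil))) (.cons (.rf (nat_lit 928) (nat_lit 14303893635)) .nil)))) (.cons (.ev (nat_lit 4740813508418348318721) (nat_lit 1)) (.cons (.rf (nat_lit 928) (nat_lit 14303893635)) .nil)))) (.cons (.br (nat_lit 12) (nat_lit 0) (.cons (.br (nat_lit 12) (nat_lit 0) (.cons (.ev (nat_lit 4740813508418348318721) (nat_lit 1)) (.cons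 (.rf (nat_lit 928) (nat_lit 14303893635)) .nil))) (.cons (.ev (nat_lit 4740813508418348318721) (nat_lit 1)) (.cons (.rf (nat_lit 928) (nat_lit 14303893635)) .nil)))) .nil)))) .nil)) .nil))),
 (.br (nat_lit 12) (nat_lit 0) (.cons (.br (nat_lit 11) (nat_lit 0) (.cons (.ev (nat_lit 1213648186378978091663361) (nat_lit 1)) (.cons (.rf (nat_lit 928) (nat_lit 14303893635)) .nil))) (.cons (.rf (nat_lit 928) (nat_lit 14303893635)) .nil))),
 (.br (nat_lit 10) (nat_lit 1) (.cons (.rf (nat_lit 1045) (nat_lit 3593282425003168)) (.cons (.br (nat_lit 11) (nat_lit 1) (.cons (.br (nat_lit 5) (nat_lit 0) (.cons (.br (nat_lit 4) (nat_lit 1) (.cons (.kr (nat_lit 1208925819614629191483392) (nat_lit 18446744078004518912) (nat_lit 3) (nat_lit 0)) (.cons (.br (nat_lit 11) (nat_lit 0) (.cons (.br (nat_lit 12) (nat_lit 0) (.cons (.ev (nat_lit 1213648186378978091663361) (nat_lit 1)) (.cons (.rf (nat_lit 928) (nat_lit 14303893635)) .nil))) (.cons (.br (nat_lit 12) (nat_lit 0) (.cons (.ev (nat_lit 1213648186378978091663361)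 (nat_lit 1)) (.cons (.rf (nat_lit 928) (nat_lit 14303893635)) .nil))) (.cons (.rf (nat_lit 928) (nat_lit 14303893635)) .nil)))) .nil))) (.cons (.br (nat_lit 12) (nat_lit 0) (.cons (.rf (nat_lit 1066) (nat_lit 14242959524133701664)) (.cons (.br (nat_lit 12) (nat_lit 0) (.cons (.rf (nat_lit 1066) (nat_lit 14242959524133701664)) (.cons (.rf (nat_lit 928) (nat_lit 14303893635)) .nil))) (.cons (.rf (nat_lit 928) (nat_lit 14303893635)) .nil)))) (.cons (.ev (nat_lit 4722438540463699984641) (nat_lit 1)) (.cons (.rf (nat_lit 928) (nat_lit 14303893635)) .nil))))) .nil)) .nil))),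
 (.br (nat_lit 4) (nat_lit 1) (.cons (.rf (nat_lit 1067) (nat_lit 4823735997827104)) (.cons (.rf (nat_lit 1065) (nat_lit 4823735997827104)) (.cons (.br (nat_lit 11) (nat_lit 0) (.cons (.br (nat_lit 12) (nat_lit 0) (.cons (.ev (nat_lit 79538856468352041369464799233) (nat_lit 1)) (.cons (.rf (nat_lit 928) (nat_lit 14303893635)) .nil))) (.cons (.br (nat_lit 12) (nat_lit 0) (.cons (.ev (nat_lit 79538856468352041369464799233) (nat_lit 1)) (.cons (.rf (nat_lit 928) (nat_lit 14303893635)) .nil))) (.cons (.rf (nat_lit 928) (nat_lit 14303893635)) .nil)))) .nil)))),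
 (.br (nat_lit 2) (nat_lit 0) (.cons (.rf (nat_lit 1064) (nat_lit 11584701642934304)) (.cons (.br (nat_lit 10) (nat_lit 1) (.cons (.rf (nat_lit 1065) (nat_lit 11584701642934304)) (.cons (.rf (nat_lit 1067) (nat_lit 11584701642934304)) (.cons (.br (nat_lit 11) (nat_lit 1) (.cons (.br (nat_lit 10) (nat_lit 1) (.cons (.rf (nat_lit 1065) (nat_lit 11584701642934304)) (.cons (.rf (nat_lit 1067) (nat_lit 11584701642934304)) (.cons (.br (nat_lit 4) (nat_lit 1) (.cons (.rf (nat_lit 1067) (nat_lit 4823735997827104)) (.cons (.rf (nat_lit 1065) (nat_lit 4823735997827104)) (.cons (.rf (nat_lit 1068) (nat_lit 14242959524133701664)) (.cons (.rf (nat_lit 1068) (nat_lit 13126066816545818656)) .nil))))) .nil)))) .nil)) .nil)))) (.cons (.rf (nat_lit 1064) (nat_lit 4823735997827104)) (.cons (.rf (nat_lit 928) (nat_lit 12156409987)) .nil))))),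
 (.br (nat_lit 11) (nat_lit 0) (.cons (.rf (nat_lit 1015) (nat_lit 13126066816445158432)) (.cons (.rf (nat_lit 928) (nat_lit 14303893635)) .nil))),
 (.br (nat_lit 2) (nat_lit 0) (.cons (.rf (nat_lit 1070) (nat_lit 14242959524133701664)) (.cons (.br (nat_lit 2) (nat_lit 0) (.cons (.rf (nat_lit 1070) (nat_lit 14242959524133701664)) (.cons (.rf (nat_lit 928) (nat_lit 14303893635)) .nil))) (.cons (.rf (nat_lit 928) (nat_lit 14303893635)) .nil)))),
 (.br (nat_lit 11) (nat_lit 0) (.cons (.rf (nat_lit 1071) (nat_lit 14242959524133701664)) (.cons (.br (nat_lit 7) (nat_lit 0) (.cons (.ev (nat_lit 309485028340429310977376513) (nat_lit 1)) (.cons (.kr (nat_lit 311902861532631921145675776) (nat_lit 9481626736461197869056) (nat_lit 3) (nat_lit 0)) (.cons (.rf (nat_lit 928) (nat_lit 14303893635)) .nil)))) (.cons (.rf (nat_lit 928) (nat_lit 14303893635)) .nil)))),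
 (.br (nat_lit 11) (nat_lit 0) (.cons (.rf (nat_lit 1071) (nat_lit 14242959524133701664)) (.cons (.rf (nat_lit 1072) (nat_lit 14242959524133701664)) (.cons (.br (nat_lit 11) (nat_lit 0) (.cons (.rf (nat_lit 1071) (nat_lit 14242959524133701664)) (.cons (.rf (nat_lit 1072) (nat_lit 14242959524133701664)) (.cons (.rf (nat_lit 928) (nat_lit 14303893635)) .nil)))) (.cons (.rf (nat_lit 928) (nat_lit 14303893635)) .nil))))),
 (.br (nat_lit 12) (nat_lit 0) (.cons (.rf (nat_lit 1073) (nat_lit 14242959524133701664)) (.cons (.br (nat_lit 12) (nat_lit 0) (.cons (.rf (nat_lit 1073) (nat_lit 14242959524133701664)) (.cons (.rf (nat_lit 928) (nat_lit 14303893635)) .nil))) (.cons (.rf (nat_lit 928) (nat_lit 14303893635)) .nil)))),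
 (.br (nat_lit 12) (nat_lit 0) (.cons (.rf (nat_lit 1074) (nat_lit 14242959524133701664)) (.cons (.br (nat_lit 12) (nat_lit 0) (.cons (.rf (nat_lit 1074) (nat_lit 14242959524133701664)) (.cons (.rf (nat_lit 928) (nat_lit 14303893635)) .nil))) (.cons (.rf (nat_lit 928) (nat_lit 14303893635)) .nil)))),
 (.br (nat_lit 9) (nat_lit 1) (.cons (.rf (nat_lit 1069) (nat_lit 11584701642934304)) (.cons (.rf (nat_lit 1045) (nat_lit 6869828145290400)) (.cons (.br (nat_lit 11) (nat_lit 1) (.cons (.br (nat_lit 12) (nat_lit 0) (.cons (.rf (nat_lit 1074) (nat_lit 14242959524133701664)) (.cons (.rf (nat_lit 1075) (nat_lit 14242959524133701664)) (.cons (.br (nat_lit 12) (nat_lit 0) (.cons (.rf (nat_lit 1074) (nat_lit 14242959524133701664)) (.cons (.rf (nat_lit 1075) (nat_lit 14242959524133701664)) (.cons (.rf (nat_lit 928) (nat_lit 14303893635)) .nil)))) (.cons (.rf (nat_lit 928) (nat_lit 14303893635)) .nil))))) .nil)) .nil)))),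
 (.br (nat_lit 11) (nat_lit 0) (.cons (.br (nat_lit 12) (nat_lit 0) (.cons (.rf (nat_lit 958) (nat_lit 14234900037402691616)) (.cons (.br (nat_lit 12) (nat_lit 0) (.cons (.kr (nat_lit 309485009821345068724781056) (nat_lit 79228162514264337593543950336) (nat_lit 11) (nat_lit 0)) (.cons (.ev (nat_lit 79537647542532426735995060481) (nat_lit 1)) (.cons (.rf (nat_lit 928) (nat_lit 14303893635)) .nil)))) (.cons (.br (nat_lit 12) (nat_lit 0) (.cons (.kr (nat_lit 4722366482869645213696) (nat_lit 79228162514264337593543950336) (nat_lit 9) (nat_lit 0)) (.cons (.ev (nat_lit 79537647542532426735995060481) (nat_lit 1)) (.cons (.rf (nat_lit 928) (nat_lit 14303893635)) .nil)))) (.cons (.rf (nat_lit 928) (nat_lit 14303893635)) .nil))))) (.cons (.kr (nat_lit 4722366482869645213696) (nat_lit 309485009821345068724781056) (nat_lit 9) (nat_lit 0)) (.cons (.rf (nat_lit 928) (nat_lit 14303893635)) .nil)))),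
 (.br (nat_lit 9) (nat_lit 1) (.cons (.rf (nat_lit 1069) (nat_lit 11584701642934304)) (.cons (.rf (nat_lit 1076) (nat_lit 11584701642934304)) (.cons (.rf (nat_lit 1076) (nat_lit 4823735997827104)) (.cons (.br (nat_lit 9) (nat_lit 1) (.cons (.rf (nat_lit 1069) (nat_lit 11584701642934304)) (.cons (.rf (nat_lit 1076) (nat_lit 11584701642934304)) (.cons (.rf (nat_lit 1076) (nat_lit 4823735997827104)) (.cons (.br (nat_lit 11) (nat_lit 1) (.cons (.br (nat_lit 11) (nat_lit 0) (.cons (.rf (nat_lit 1077) (nat_lit 14242959524133701664)) (.cons (.br (nat_lit 11) (nat_lit 0) (.cons (.rf (nat_lit 1077) (nat_lit 14242959524133701664)) (.cons (.rf (nat_lit 1077) (nat_lit 14236198558488594464)) (.cons (.rf (nat_lit 928) (nat_lit 14303893635)) .nil)))) (.cons (.rf (nat_lit 1077) (nat_lit 14236198558488594464)) (.cons (.rf (nat_lit 928) (nat_lit 14303893635)) .nil))))) .nil)) .nil))))) .nil))))),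
 (.br (nat_lit 2) (nat_lit 0) (.cons (.br (nat_lit 7) (nat_lit 0) (.cons (.ev (nat_lit 1208925891672223229477121) (nat_lit 1)) (.cons (.rf (nat_lit 928) (nat_lit 14303893635)) .nil))) (.cons (.zr (nat_lit 79230580365903566860483493888) (nat_lit 14185546193782156820737) (nat_lit 5) (nat_lit 9)) (.cons (.rf (nat_lit 928) (nat_lit 14303893635)) .nil))))]

theorem c36 : chkAll C T R L36 (nat_lit 1047) = true := by decide +kernel

theorem l36 : (nat_lit 1047) + L36.length = (nat_lit 1080) := by decide +kernel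

/-- part of the certificates -/
def L37 : List Prf := [(.br (nat_lit 2) (nat_lit 0) (.cons (.br (nat_lit 7) (nat_lit 0) (.cons (.ev (nat_lit 1208925891672223229477121) (nat_lit 1)) (.cons (.rf (nat_lit 928) (nat_lit 14303893635)) .nil))) (.cons (.ev (nat_lit 79228162532711363142247055361) (nat_lit 1)) (.cons (.rf (nat_lit 928) (nat_lit 14303893635)) .nil)))),
 (.br (nat_lit 5) (nat_lit 0) (.cons (.ev (nat_lit 72340172821233921) (nat_lit 1)) (.cons (.rf (nat_lit 928) (nat_lit 14303893635)) .nil))),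
 (.br (nat_lit 7) (nat_lit 0) (.cons (.br (nat_lit 2) (nat_lit 0) (.cons (.ev (nat_lit 79228162532711363142247055361) (nat_lit 1)) (.cons (.rf (nat_lit 928) (nat_lit 14303893635)) .nil))) (.cons (.rf (nat_lit 1081) (nat_lit 14242959524133701664)) (.cons (.rf (nat_lit 928) (nat_lit 14303893635)) .nil)))),
 (.br (nat_lit 10) (nat_lit 1) (.cons (.br (nat_lit 7) (nat_lit 0) (.cons (.rf (nat_lit 1079) (nat_lit 14242959524133701664)) (.cons (.rf (nat_lit 1080) (nat_lit 14242959524133701664)) (.cons (.br (nat_lit 7) (nat_lit 0) (.cons (.rf (nat_lit 1079) (nat_lit 14242959524133701664)) (.cons (.rf (nat_lit 1080) (nat_lit 14242959524133701664)) (.cons (.rf (nat_lit 928) (nat_lit 14303893635)) .nil)))) (.cons (.rf (nat_lit 928) (nat_lit 14303893635)) .nil))))) (.cons (.br (nat_lit 7) (nat_lit 0) (.cons (.br (nat_lit 5) (nat_lit 0) (.cons (.ev (nat_lit 79228162532783140365114802433) (nat_lit 1)) (.cons (.ev (nat_lit 79229371458530697400234803201) (nat_lit 1)) (.cons (.rf (nat_lit 928)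 (nat_lit 14303893635)) .nil)))) (.cons (.br (nat_lit 2) (nat_lit 0) (.cons (.ev (nat_lit 79229371458603035365442912513) (nat_lit 1)) (.cons (.ev (nat_lit 79228162532711363142247055361) (nat_lit 1)) (.cons (.rf (nat_lit 928) (nat_lit 14303893635)) .nil)))) (.cons (.ev (nat_lit 79229376180969236760111349761) (nat_lit 1)) (.cons (.rf (nat_lit 928) (nat_lit 14303893635)) .nil))))) (.cons (.br (nat_lit 7) (nat_lit 0) (.cons (.rf (nat_lit 1082) (nat_lit 14242959524133701664)) (.cons (.br (nat_lit 7) (nat_lit 0) (.cons (.rf (nat_lit 1082) (nat_lit 14242959524133701664)) (.cons (.ev (nat_lit 1208944338416296922185729) (nat_lit 1)) (.cons (.rf (nat_lit 928) (nat_lit 14303893635)) .nil)))) (.cons (.br (nat_lit 7) (nat_lit 0) (.cons (.rf (nat_lit 1081) (nat_lit 14242959524133701664)) (.cons (.ev (nat_lit 1208944338416296922185729) (nat_lit 1)) (.cons (.rf (nat_lit 928) (nat_lit 14303893635)) .nil)))) (.cons (.rf (nat_lit 928) (nat_lit 14303893635)) .nil))))) .nil)))),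
 (.br (nat_lit 11) (nat_lit 0) (.cons (.ev (nat_lit 1208925819897207974789121) (nat_lit 1)) (.cons (.br (nat_lit 2) (nat_lit 0) (.cons (.ev (nat_lit 79538861172272062735593832705) (nat_lit 1)) (.cons (.rf (nat_lit 928) (nat_lit 14303893635)) .nil))) (.cons (.rf (nat_lit 928) (nat_lit 14303893635)) .nil)))),
 (.br (nat_lit 4) (nat_lit 1) (.cons (.rf (nat_lit 1084) (nat_lit 14242959524133701664)) (.cons (.br (nat_lit 11) (nat_lit 0) (.cons (.br (nat_lit 7) (nat_lit 0) (.cons (.rf (nat_lit 928) (nat_lit 14303893635)) .nil)) (.cons (.rf (nat_lit 928) (nat_lit 14303893635)) .nil))) (.cons (.ev (nat_lit 1208925819897207974789121) (nat_lit 1)) .nil)))),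
 (.br (nat_lit 10) (nat_lit 1) (.cons (.rf (nat_lit 1083) (nat_lit 14242959524133701664)) (.cons (.rf (nat_lit 1045) (nat_lit 3593282425003168)) (.cons (.br (nat_lit 2) (nat_lit 0) (.cons (.rf (nat_lit 1084) (nat_lit 14242959524133701664)) (.cons (.rf (nat_lit 1085) (nat_lit 14242959524133701664)) (.cons (.br (nat_lit 2) (nat_lit 0) (.cons (.ev (nat_lit 79229371440083953326542094593) (nat_lit 1)) (.cons (.rf (nat_lit 1085) (nat_lit 14242959524133701664)) (.cons (.rf (nat_lit 928) (nat_lit 14303893635)) .nil)))) (.cons (.rf (nat_lit 928) (nat_lit 14303893635)) .nil))))) .nil)))),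
 (.br (nat_lit 5) (nat_lit 0) (.cons (.br (nat_lit 7) (nat_lit 0) (.cons (.ev (nat_lit 79229376162450717671163953153) (nat_lit 1)) (.cons (.rf (nat_lit 928) (nat_lit 14303893635)) .nil))) (.cons (.br (nat_lit 11) (nat_lit 0) (.cons (.rf (nat_lit 1015) (nat_lit 13126032729439306912)) (.cons (.rf (nat_lit 928) (nat_lit 14303893635)) .nil))) (.cons (.rf (nat_lit 928) (nat_lit 14303893635)) .nil)))),
 (.br (nat_lit 2) (nat_lit 0) (.cons (.rf (nat_lit 1087) (nat_lit 14242959524133701664)) (.cons (.br (nat_lit 5) (nat_lit 0) (.cons (.br (nat_lit 11) (nat_lit 0) (.cons (.rf (nat_lit 928) (nat_lit 14303893635)) .nil)) (.cons (.rf (nat_lit 928) (nat_lit 14303893635)) .nil))) (.cons (.rf (nat_lit 928) (nat_lit 14303893635)) .nil)))),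
 (.br (nat_lit 10) (nat_lit 1) (.cons (.rf (nat_lit 1083) (nat_lit 14242959524133701664)) (.cons (.rf (nat_lit 1045) (nat_lit 3593282425003168)) (.cons (.br (nat_lit 2) (nat_lit 0) (.cons (.rf (nat_lit 1087) (nat_lit 14242959524133701664)) (.cons (.rf (nat_lit 1088) (nat_lit 14242959524133701664)) (.cons (.br (nat_lit 2) (nat_lit 0) (.cons (.rf (nat_lit 1087) (nat_lit 14242959524133701664)) (.cons (.rf (nat_lit 1088) (nat_lit 14242959524133701664)) (.cons (.rf (nat_lit 928) (nat_lit 14303893635)) .nil)))) (.cons (.rf (nat_lit 928) (nat_lit 14303893635)) .nil))))) .nil)))),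
 (.br (nat_lit 11) (nat_lit 0) (.cons (.br (nat_lit 11) (nat_lit 0) (.cons (.kr (nat_lit 1208925819614629174706176) (nat_lit 309485009821345068724781056) (nat_lit 10) (nat_lit 0)) (.cons (.rf (nat_lit 928) (nat_lit 14303893635)) .nil))) (.cons (.br (nat_lit 11) (nat_lit 0) (.cons (.kr (nat_lit 1208925819614629174706176) (nat_lit 309485009821345068724781056) (nat_lit 10) (nat_lit 0)) (.cons (.rf (nat_lit 928) (nat_lit 14303893635)) .nil))) (.cons (.rf (nat_lit 928) (nat_lit 14303893635)) .nil)))),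
 (.br (nat_lit 2) (nat_lit 0) (.cons (.rf (nat_lit 1090) (nat_lit 14242959524133701664)) (.cons (.br (nat_lit 7) (nat_lit 0) (.cons (.br (nat_lit 5) (nat_lit 0) (.cons (.ev (nat_lit 79228162532783140365114802433) (nat_lit 1)) (.cons (.rf (nat_lit 928) (nat_lit 14303893635)) .nil))) (.cons (.ev (nat_lit 79228167255149622135231676673) (nat_lit 1)) (.cons (.rf (nat_lit 928) (nat_lit 14303893635)) .nil)))) (.cons (.rf (nat_lit 928) (nat_lit 14303893635)) .nil)))),
 (.br (nat_lit 2) (nat_lit 0) (.cons (.rf (nat_lit 1090) (nat_lit 14242959524133701664)) (.cons (.rf (nat_lit 1091) (nat_lit 14242959524133701664)) (.cons (.br (nat_lit 2) (nat_lit 0) (.cons (.rf (nat_lit 1090) (nat_lit 14242959524133701664)) (.cons (.rf (nat_lit 1091) (nat_lit 14242959524133701664)) (.cons (.rf (nat_lit 928) (nat_lit 14303893635)) .nil)))) (.cons (.rf (nat_lit 928) (nat_lit 14303893635)) .nil))))),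
 (.br (nat_lit 2) (nat_lit 0) (.cons (.rf (nat_lit 1090) (nat_lit 14242959352335014944)) (.cons (.br (nat_lit 5) (nat_lit 0) (.cons (.br (nat_lit 7) (nat_lit 0) (.cons (.ev (nat_lit 72340172821233921) (nat_lit 1)) (.cons (.rf (nat_lit 928) (nat_lit 14303893635)) .nil))) (.cons (.rf (nat_lit 1078) (nat_lit 11550442704182432)) (.cons (.rf (nat_lit 928) (nat_lit 14303893635)) .nil)))) (.cons (.rf (nat_lit 928) (nat_lit 14303893635)) .nil)))),
 (.br (nat_lit 2) (nat_lit 0) (.cons (.rf (nat_lit 1090) (nat_lit 14242959352335014944)) (.cons (.rf (nat_lit 1093) (nat_lit 14242959524133701664)) (.cons (.br (nat_lit 2) (nat_lit 0) (.cons (.rf (nat_lit 1090) (nat_lit 14242959352335014944)) (.cons (.rf (nat_lit 1093) (nat_lit 14242959524133701664)) (.cons (.rf (nat_lit 928) (nat_lit 14303893635)) .nil)))) (.cons (.rf (nat_lit 928) (nat_lit 14303893635)) .nil))))),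
 (.br (nat_lit 11) (nat_lit 0) (.cons (.br (nat_lit 2) (nat_lit 0) (.cons (.ev (nat_lit 4740813508418348318721) (nat_lit 1)) (.cons (.rf (nat_lit 928) (nat_lit 14303893635)) .nil))) (.cons (.rf (nat_lit 928) (nat_lit 14303893635)) .nil))),
 (.br (nat_lit 7) (nat_lit 0) (.cons (.rf (nat_lit 1092) (nat_lit 14242959524133701664)) (.cons (.rf (nat_lit 1094) (nat_lit 14242959524133701664)) (.cons (.br (nat_lit 9) (nat_lit 1) (.cons (.br (nat_lit 11) (nat_lit 0) (.cons (.rf (nat_lit 1095) (nat_lit 14242959524133701664)) (.cons (.br (nat_lit 2) (nat_lit 0) (.cons (.ev (nat_lit 1213666705180641544175873) (nat_lit 1)) (.cons (.rf (nat_lit 928) (nat_lit 14303893635)) .nil))) (.cons (.rf (nat_lit 928) (nat_lit 14303893635)) .nil)))) (.cons (.rf (nat_lit 1045) (nat_lit 6869828145290400)) (.cons (.br (nat_lit 11) (nat_lit 0) (.cons (.ev (nat_lit 310693954087703771625816321) (nat_lit 1)) (.cons (.br (nat_lit 5) (nat_lit 0) (.cons (.ev (nat_lit 310693935713299870720721153) (nat_lit 1)) (.cons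 (.rf (nat_lit 928) (nat_lit 14303893635)) .nil))) (.cons (.rf (nat_lit 928) (nat_lit 14303893635)) .nil)))) .nil)))) (.cons (.rf (nat_lit 928) (nat_lit 14303893635)) .nil))))),
 (.br (nat_lit 12) (nat_lit 0) (.cons (.br (nat_lit 10) (nat_lit 1) (.cons (.rf (nat_lit 1083) (nat_lit 14242959524133701664)) (.cons (.rf (nat_lit 1086) (nat_lit 14242959524133701664)) (.cons (.rf (nat_lit 1089) (nat_lit 14242959524133701664)) (.cons (.br (nat_lit 10) (nat_lit 1) (.cons (.rf (nat_lit 1083) (nat_lit 14242959524133701664)) (.cons (.rf (nat_lit 1086) (nat_lit 14242959524133701664)) (.cons (.rf (nat_lit 1089) (nat_lit 14242959524133701664)) .nil)))) .nil))))) (.cons (.br (nat_lit 7) (nat_lit 0) (.cons (.rf (nat_lit 1092) (nat_lit 14242959524133701664)) (.cons (.rf (nat_lit 1094) (nat_lit 14242959524133701664)) (.cons (.rf (nat_lit 1096) (nat_lit 14242959524133701664)) (.cons (.br (nat_lit 7) (nat_lit 0) (.cons (.rf (nat_lit 1092) (nat_lit 14242959524133701664)) (.cons (.rf (nat_lit 1094)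 (nat_lit 14242959524133701664)) (.cons (.rf (nat_lit 1096) (nat_lit 14242959524133701664)) (.cons (.rf (nat_lit 928) (nat_lit 14303893635)) .nil))))) (.cons (.rf (nat_lit 928) (nat_lit 14303893635)) .nil)))))) (.cons (.rf (nat_lit 928) (nat_lit 14303893635)) .nil)))),
 (.br (nat_lit 2) (nat_lit 0) (.cons (.ev (nat_lit 18447026648197890049) (nat_lit 1)) (.cons (.br (nat_lit 2) (nat_lit 0) (.cons (.ev (nat_lit 18447026648197890049) (nat_lit 1)) (.cons (.rf (nat_lit 928) (nat_lit 14303893635)) .nil))) (.cons (.rf (nat_lit 928) (nat_lit 14303893635)) .nil)))),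
 (.br (nat_lit 11) (nat_lit 0) (.cons (.br (nat_lit 5) (nat_lit 0) (.cons (.br (nat_lit 2) (nat_lit 0) (.cons (.br (nat_lit 2) (nat_lit 0) (.cons (.ev (nat_lit 310693935641242272404668673) (nat_lit 1)) (.cons (.rf (nat_lit 928) (nat_lit 14303893635)) .nil))) (.cons (.br (nat_lit 2) (nat_lit 0) (.cons (.ev (nat_lit 310693935641242272404668673) (nat_lit 1)) (.cons (.rf (nat_lit 928) (nat_lit 14303893635)) .nil))) (.cons (.rf (nat_lit 928) (nat_lit 14303893635)) .nil)))) (.cons (.rf (nat_lit 1097) (nat_lit 13126032557607066784)) (.cons (.rf (nat_lit 1098) (nat_lit 14242959524133701664)) (.cons (.rf (nat_lit 928) (nat_lit 14303893635)) .nil))))) (.cons (.kr (nat_lit 4722366482869645213696) (nat_lit 79228162514264337593543950336) (nat_lit 9) (nat_lit 0)) (.cons (.br (nat_lit 5) (nat_lit 0) (.cons (.br (nat_lit 7) (nat_lit 0) (.cons (.rf (nat_lit 1045) (nat_lit 10284909112532128)) (.cons (.br (nat_lit 7) (nat_lit 0) (.cons (.ev (nat_lit 310698676526245339115553025) (nat_lit 1)) (.cons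 (.rf (nat_lit 928) (nat_lit 14303893635)) .nil))) (.cons (.rf (nat_lit 928) (nat_lit 14303893635)) .nil)))) (.cons (.kr (nat_lit 79229371440083952222735433728) (nat_lit 4740813226947649732608) (nat_lit 3) (nat_lit 0)) (.cons (.rf (nat_lit 928) (nat_lit 14303893635)) .nil)))) (.cons (.rf (nat_lit 928) (nat_lit 14303893635)) .nil))))),
 (.br (nat_lit 11) (nat_lit 0) (.cons (.rf (nat_lit 1099) (nat_lit 14242959524133701664)) (.cons (.kr (nat_lit 4722366482869645213696) (nat_lit 79228162514264337593543950336) (nat_lit 9) (nat_lit 0)) (.cons (.br (nat_lit 4) (nat_lit 1) (.cons (.br (nat_lit 7) (nat_lit 0) (.cons (.br (nat_lit 7) (nat_lit 0) (.cons (.ev (nat_lit 310698676526525714563858433) (nat_lit 1)) (.cons (.rf (nat_lit 928) (nat_lit 14303893635)) .nil))) (.cons (.br (nat_lit 7) (nat_lit 0) (.cons (.ev (nat_lit 310698676526525714563858433) (nat_lit 1)) (.cons (.rf (nat_lit 928) (nat_lit 14303893635)) .nil))) (.cons (.rf (nat_lit 928) (nat_lit 14303893635)) .nil)))) (.cons (.kr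 (nat_lit 1208925819614629191483392) (nat_lit 18446744078004518912) (nat_lit 3) (nat_lit 0)) (.cons (.br (nat_lit 2) (nat_lit 0) (.cons (.br (nat_lit 2) (nat_lit 0) (.cons (.ev (nat_lit 309485028268089146746142721) (nat_lit 1)) (.cons (.rf (nat_lit 928) (nat_lit 14303893635)) .nil))) (.cons (.br (nat_lit 2) (nat_lit 0) (.cons (.ev (nat_lit 309485028268089146746142721) (nat_lit 1)) (.cons (.rf (nat_lit 928) (nat_lit 14303893635)) .nil))) (.cons (.rf (nat_lit 928) (nat_lit 14303893635)) .nil)))) .nil)))) (.cons (.rf (nat_lit 928) (nat_lit 14303893635)) .nil))))),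
 (.br (nat_lit 12) (nat_lit 0) (.cons (.rf (nat_lit 1097) (nat_lit 14242959524133701664)) (.cons (.br (nat_lit 11) (nat_lit 0) (.cons (.rf (nat_lit 1099) (nat_lit 14242959524133701664)) (.cons (.rf (nat_lit 1100) (nat_lit 14242959524133701664)) (.cons (.kr (nat_lit 4722366482869645213696) (nat_lit 79228162514264337593543950336) (nat_lit 9) (nat_lit 0)) (.cons (.br (nat_lit 11) (nat_lit 0) (.cons (.rf (nat_lit 1099) (nat_lit 14242959524133701664)) (.cons (.rf (nat_lit 1100) (nat_lit 14242959524133701664)) (.cons (.kr (nat_lit 4722366482869645213696) (nat_lit 79228162514264337593543950336) (nat_lit 9) (nat_lit 0)) (.cons (.rf (nat_lit 928) (nat_lit 14303893635)) .nil))))) (.cons (.rf (nat_lit 928) (nat_lit 14303893635)) .nil)))))) (.cons (.rf (nat_lit 928) (nat_lit 14303893635)) .nil)))),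
 (.br (nat_lit 12) (nat_lit 0) (.cons (.rf (nat_lit 1097) (nat_lit 14242959524133701664)) (.cons (.rf (nat_lit 1101) (nat_lit 14242959524133701664)) (.cons (.br (nat_lit 12) (nat_lit 0) (.cons (.rf (nat_lit 1097) (nat_lit 14242959524133701664)) (.cons (.rf (nat_lit 1101) (nat_lit 14242959524133701664)) (.cons (.rf (nat_lit 928) (nat_lit 14303893635)) .nil)))) (.cons (.rf (nat_lit 928) (nat_lit 14303893635)) .nil))))),
 (.br (nat_lit 5) (nat_lit 0) (.cons (.rf (nat_lit 928) (nat_lit 14303893635)) .nil)),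
 (.br (nat_lit 2) (nat_lit 0) (.cons (.rf (nat_lit 1103) (nat_lit 14242959524133701664)) (.cons (.rf (nat_lit 928) (nat_lit 14303893635)) .nil))),
 (.br (nat_lit 2) (nat_lit 0) (.cons (.ev (nat_lit 79228162532711363142247055361) (nat_lit 1)) (.cons (.rf (nat_lit 928) (nat_lit 14303893635)) .nil))),
 (.br (nat_lit 7) (nat_lit 0) (.cons (.rf (nat_lit 1105) (nat_lit 14242959524133701664)) (.cons (.br (nat_lit 7) (nat_lit 0) (.cons (.rf (nat_lit 1105) (nat_lit 14242959524133701664)) (.cons (.rf (nat_lit 928) (nat_lit 14303893635)) .nil))) (.cons (.rf (nat_lit 928) (nat_lit 14303893635)) .nil)))),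
 (.br (nat_lit 2) (nat_lit 0) (.cons (.rf (nat_lit 1106) (nat_lit 14242959524133701664)) (.cons (.br (nat_lit 5) (nat_lit 0) (.cons (.ev (nat_lit 1213648186098602643357953) (nat_lit 1)) (.cons (.rf (nat_lit 928) (nat_lit 14303893635)) .nil))) (.cons (.rf (nat_lit 928) (nat_lit 14303893635)) .nil)))),
 (.br (nat_lit 11) (nat_lit 0) (.cons (.br (nat_lit 9) (nat_lit 1) (.cons (.br (nat_lit 2) (nat_lit 0) (.cons (.br (nat_lit 5) (nat_lit 0) (.cons (.ev (nat_lit 1208925819897207974789121) (nat_lit 1)) (.cons (.rf (nat_lit 928) (nat_lit 14303893635)) .nil))) (.cons (.kr (nat_lit 79228162514264337593543950592) (nat_lit 281474976776192) (nat_lit 1) (nat_lit 0)) (.cons (.rf (nat_lit 928) (nat_lit 14303893635)) .nil)))) (.cons (.rf (nat_lit 1102) (nat_lit 13126032557607066784)) (.cons (.br (nat_lit 5) (nat_lit 0) (.cons (.br (nat_lit 7) (nat_lit 0) (.cons (.kr (nat_lit 79229371440083953322230284288) (nat_lit 4722438821938659852288) (nat_lit 5) (nat_lit 0)) (.cons (.rf (nat_lit 928) (nat_lit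 14303893635)) .nil))) (.cons (.ev (nat_lit 310698658007724042521411841) (nat_lit 1)) (.cons (.rf (nat_lit 928) (nat_lit 14303893635)) .nil)))) .nil)))) (.cons (.br (nat_lit 7) (nat_lit 0) (.cons (.br (nat_lit 7) (nat_lit 0) (.cons (.rf (nat_lit 1104) (nat_lit 14242959524133701664)) (.cons (.ev (nat_lit 310693954087703771625816321) (nat_lit 1)) (.cons (.rf (nat_lit 928) (nat_lit 14303893635)) .nil)))) (.cons (.br (nat_lit 7) (nat_lit 0) (.cons (.rf (nat_lit 1104) (nat_lit 14242959524133701664)) (.cons (.ev (nat_lit 310693954087703771625816321) (nat_lit 1)) (.cons (.rf (nat_lit 928) (nat_lit 14303893635)) .nil)))) (.cons (.ev (nat_lit 310693954087703771625816321) (nat_lit 1)) (.cons (.rf (nat_lit 928) (nat_lit 14303893635)) .nil))))) (.cons (.br (nat_lit 2) (nat_lit 0) (.cons (.rf (nat_lit 1106) (nat_lit 14242959524133701664)) (.cons (.rf (nat_lit 1107) (nat_lit 14242959524133701664)) (.cons (.br (nat_lit 2) (nat_lit 0) (.cons (.rf (nat_lit 1106) (nat_lit 14242959524133701664))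 (.cons (.rf (nat_lit 1107) (nat_lit 14242959524133701664)) (.cons (.rf (nat_lit 928) (nat_lit 14303893635)) .nil)))) (.cons (.rf (nat_lit 928) (nat_lit 14303893635)) .nil))))) (.cons (.rf (nat_lit 928) (nat_lit 14303893635)) .nil))))),
 (.br (nat_lit 2) (nat_lit 0) (.cons (.ev (nat_lit 1213666632842672057876481) (nat_lit 1)) (.cons (.br (nat_lit 2) (nat_lit 0) (.cons (.ev (nat_lit 1213666632842672057876481) (nat_lit 1)) (.cons (.ev (nat_lit 18447026648197890049) (nat_lit 1)) (.cons (.rf (nat_lit 928) (nat_lit 14303893635)) .nil)))) (.cons (.ev (nat_lit 18447026648197890049) (nat_lit 1)) (.cons (.rf (nat_lit 928) (nat_lit 14303893635)) .nil))))),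
 (.br (nat_lit 5) (nat_lit 0) (.cons (.br (nat_lit 4) (nat_lit 1) (.cons (.br (nat_lit 11) (nat_lit 0) (.cons (.ev (nat_lit 79537652246452448110714028033) (nat_lit 1)) (.cons (.br (nat_lit 2) (nat_lit 0) (.cons (.ev (nat_lit 79229371440083953326542094593) (nat_lit 1)) (.cons (.rf (nat_lit 928) (nat_lit 14303893635)) .nil))) (.cons (.rf (nat_lit 928) (nat_lit 14303893635)) .nil)))) (.cons (.rf (nat_lit 1045) (nat_lit 9229379023543456)) (.cons (.rf (nat_lit 1108) (nat_lit 14242959524133701664)) .nil)))) (.cons (.rf (nat_lit 1102) (nat_lit 13126032557607066784)) (.cons (.br (nat_lit 11) (nat_lit 0) (.cons (.rf (nat_lit 1108) (nat_lit 14242959524133701664)) (.cons (.rf (nat_lit 1109) (nat_lit 14242959524133701664)) (.cons (.rf (nat_lit 928) (nat_lit 14303893635)) .nil)))) (.cons (.rf (nat_lit 928) (nat_lit 14303893635)) .nil)))))]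

theorem c37 : chkAll C T R L37 (nat_lit 1080) = true := by decide +kernel

theorem l37 : (nat_lit 1080) + L37.length = (nat_lit 1111) := by decide +kernel

/-- part of the certificates -/
def L38 : List Prf := [(.br (nat_lit 12) (nat_lit 0) (.cons (.rf (nat_lit 1102) (nat_lit 14242959524133701664)) (.cons (.br (nat_lit 11) (nat_lit 0) (.cons (.rf (nat_lit 1108) (nat_lit 14242959524133701664)) (.cons (.rf (nat_lit 1110) (nat_lit 14242959524133701664)) (.cons (.br (nat_lit 11) (nat_lit 0) (.cons (.rf (nat_lit 1108) (nat_lit 14242959524133701664)) (.cons (.rf (nat_lit 1110) (nat_lit 14242959524133701664)) (.cons (.kr (nat_lit 1208925819614629174706176) (nat_lit 309485009821345068724781056) (nat_lit 10) (nat_lit 0)) (.cons (.rf (nat_lit 928) (nat_lit 14303893635)) .nil))))) (.cons (.br (nat_lit 11) (nat_lit 0) (.cons (.rf (nat_lit 1108) (nat_lit 14242959524133701664)) (.cons (.rf (nat_lit 1110) (nat_lit 14242959524133701664)) (.cons (.kr (nat_lit 1208925819614629174706176) (nat_lit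 309485009821345068724781056) (nat_lit 10) (nat_lit 0)) (.cons (.rf (nat_lit 928) (nat_lit 14303893635)) .nil))))) (.cons (.rf (nat_lit 928) (nat_lit 14303893635)) .nil)))))) (.cons (.rf (nat_lit 928) (nat_lit 14303893635)) .nil)))),
 (.br (nat_lit 12) (nat_lit 0) (.cons (.rf (nat_lit 1102) (nat_lit 14242959524133701664)) (.cons (.rf (nat_lit 1111) (nat_lit 14242959524133701664)) (.cons (.br (nat_lit 12) (nat_lit 0) (.cons (.rf (nat_lit 1102) (nat_lit 14242959524133701664)) (.cons (.rf (nat_lit 1111) (nat_lit 14242959524133701664)) (.cons (.rf (nat_lit 928) (nat_lit 14303893635)) .nil)))) (.cons (.rf (nat_lit 928) (nat_lit 14303893635)) .nil))))),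
 (.br (nat_lit 12) (nat_lit 0) (.cons (.rf (nat_lit 1102) (nat_lit 14242959524133701664)) (.cons (.rf (nat_lit 1112) (nat_lit 14242959524133701664)) (.cons (.br (nat_lit 12) (nat_lit 0) (.cons (.rf (nat_lit 1102) (nat_lit 14242959524133701664)) (.cons (.rf (nat_lit 1112) (nat_lit 14242959524133701664)) (.cons (.rf (nat_lit 928) (nat_lit 14303893635)) .nil)))) (.cons (.rf (nat_lit 928) (nat_lit 14303893635)) .nil))))),
 (.br (nat_lit 8) (nat_lit 1) (.cons (.rf (nat_lit 1045) (nat_lit 4619299778201632)) (.cons (.br (nat_lit 6) (nat_lit 1) (.cons (.rf (nat_lit 1050) (nat_lit 11584701642934304)) (.cons (.rf (nat_lit 1050) (nat_lit 11584529710029984)) (.cons (.br (nat_lit 11) (nat_lit 1) (.cons (.br (nat_lit 6) (nat_lit 1) (.cons (.rf (nat_lit 1050) (nat_lit 11584701642934304)) (.cons (.rf (nat_lit 1050) (nat_lit 11584529710029984)) (.cons (.br (nat_lit 12) (nat_lit 0) (.cons (.rf (nat_lit 1057) (nat_lit 14242959524133701664)) (.cons (.br (nat_lit 12) (nat_lit 0) (.cons (.rf (nat_lit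 1057) (nat_lit 14242959524133701664)) (.cons (.rf (nat_lit 1057) (nat_lit 14236198627140962336)) (.cons (.rf (nat_lit 928) (nat_lit 14303893635)) .nil)))) (.cons (.rf (nat_lit 1057) (nat_lit 14236198627140962336)) (.cons (.rf (nat_lit 928) (nat_lit 14303893635)) .nil))))) .nil)))) .nil)) .nil)))) (.cons (.rf (nat_lit 1078) (nat_lit 11584701642934304)) (.cons (.br (nat_lit 11) (nat_lit 1) (.cons (.br (nat_lit 12) (nat_lit 0) (.cons (.rf (nat_lit 1102) (nat_lit 14242959524133701664)) (.cons (.rf (nat_lit 1112) (nat_lit 14242959524133701664)) (.cons (.rf (nat_lit 1113) (nat_lit 14242959524133701664)) (.cons (.br (nat_lit 12) (nat_lit 0) (.cons (.rf (nat_lit 1102) (nat_lit 14242959524133701664)) (.cons (.rf (nat_lit 1112) (nat_lit 14242959524133701664)) (.cons (.rf (nat_lit 1113) (nat_lit 14242959524133701664)) (.cons (.rf (nat_lit 928) (nat_lit 14303893635)) .nil))))) (.cons (.rf (nat_lit 928) (nat_lit 14303893635)) .nil)))))) .nil)) .nil))))),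
 (.br (nat_lit 5) (nat_lit 0) (.cons (.ev (nat_lit 1208925819897207974789121) (nat_lit 1)) (.cons (.rf (nat_lit 928) (nat_lit 14303893635)) .nil))),
 (.br (nat_lit 11) (nat_lit 0) (.cons (.kr (nat_lit 309485009821345068724781056) (nat_lit 79228162514264337593543950336) (nat_lit 11) (nat_lit 0)) (.cons (.br (nat_lit 2) (nat_lit 0) (.cons (.rf (nat_lit 1115) (nat_lit 14242959524133701664)) (.cons (.br (nat_lit 7) (nat_lit 0) (.cons (.rf (nat_lit 1115) (nat_lit 14242959352200797344)) (.cons (.rf (nat_lit 928) (nat_lit 14303893635)) .nil))) (.cons (.rf (nat_lit 928) (nat_lit 14303893635)) .nil)))) (.cons (.rf (nat_lit 928) (nat_lit 14303893635)) .nil)))),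
 (.br (nat_lit 12) (nat_lit 0) (.cons (.br (nat_lit 11) (nat_lit 0) (.cons (.rf (nat_lit 958) (nat_lit 13118007329814807616)) (.cons (.rf (nat_lit 1116) (nat_lit 14242959524133701664)) (.cons (.br (nat_lit 11) (nat_lit 0) (.cons (.kr (nat_lit 4722366482869645213696) (nat_lit 309485009821345068724781056) (nat_lit 9) (nat_lit 0)) (.cons (.rf (nat_lit 1116) (nat_lit 14242959524133701664)) (.cons (.rf (nat_lit 928) (nat_lit 14303893635)) .nil)))) (.cons (.rf (nat_lit 928) (nat_lit 14303893635)) .nil))))) (.cons (.kr (nat_lit 4722366482869645213696) (nat_lit 79228162514264337593543950336) (nat_lit 9) (nat_lit 0)) (.cons (.rf (nat_lit 928) (nat_lit 14303893635)) .nil)))),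
 (.br (nat_lit 9) (nat_lit 1) (.cons (.rf (nat_lit 1114) (nat_lit 11550614637086752)) (.cons (.rf (nat_lit 1114) (nat_lit 4619231125832768)) (.cons (.rf (nat_lit 1114) (nat_lit 11550442704182432)) (.cons (.rf (nat_lit 1114) (nat_lit 4619093519111392)) (.cons (.br (nat_lit 9) (nat_lit 1) (.cons (.rf (nat_lit 1114) (nat_lit 11550614637086752)) (.cons (.rf (nat_lit 1114) (nat_lit 4619231125832768)) (.cons (.rf (nat_lit 1114) (nat_lit 11550442704182432)) (.cons (.rf (nat_lit 1114) (nat_lit 4619093519111392)) (.cons (.br (nat_lit 11) (nat_lit 1) (.cons (.br (nat_lit 12) (nat_lit 0) (.cons (.rf (nat_lit 1117) (nat_lit 14242959524133701664)) (.cons (.br (nat_lit 12) (nat_lit 0) (.cons (.rf (nat_lit 1117) (nat_lit 14242959524133701664)) (.cons (.rf (nat_lit 1117) (nat_lit 14236198558488593472)) (.cons (.rf (nat_lit 928) (nat_lit 14303893635)) .nil)))) (.cons (.rf (nat_lit 1117) (nat_lit 14236198558488593472)) (.cons (.rf (nat_lit 928) (nat_lit 14303893635)) .nil))))) .nil)) .nil))))))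 .nil)))))),
 (.br (nat_lit 10) (nat_lit 1) (.cons (.kr (nat_lit 1208925819614629191483392) (nat_lit 18446744078004518912) (nat_lit 3) (nat_lit 0)) (.cons (.br (nat_lit 12) (nat_lit 0) (.cons (.br (nat_lit 11) (nat_lit 0) (.cons (.rf (nat_lit 928) (nat_lit 14303893635)) .nil)) (.cons (.rf (nat_lit 928) (nat_lit 14303893635)) .nil))) .nil))),
 (.br (nat_lit 11) (nat_lit 0) (.cons (.ev (nat_lit 310693935713017296249159681) (nat_lit 1)) (.cons (.rf (nat_lit 928) (nat_lit 14303893635)) .nil))),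
 (.br (nat_lit 12) (nat_lit 0) (.cons (.br (nat_lit 12) (nat_lit 0) (.cons (.rf (nat_lit 928) (nat_lit 14303893635)) .nil)) (.cons (.rf (nat_lit 928) (nat_lit 14303893635)) .nil))),
 (.br (nat_lit 12) (nat_lit 0) (.cons (.rf (nat_lit 1121) (nat_lit 14242959524133701664)) (.cons (.br (nat_lit 12) (nat_lit 0) (.cons (.rf (nat_lit 1121) (nat_lit 14242959524133701664)) (.cons (.rf (nat_lit 928) (nat_lit 14303893635)) .nil))) (.cons (.rf (nat_lit 928) (nat_lit 14303893635)) .nil)))),
 (.br (nat_lit 7) (nat_lit 0) (.cons (.rf (nat_lit 1045) (nat_lit 9229379023543456)) (.cons (.br (nat_lit 9) (nat_lit 1) (.cons (.rf (nat_lit 1114) (nat_lit 11550614637086752)) (.cons (.rf (nat_lit 1114) (nat_lit 6869931425825856)) (.cons (.br (nat_lit 2) (nat_lit 0) (.cons (.ev (nat_lit 72057598349672449) (nat_lit 1)) (.cons (.br (nat_lit 1) (nat_lit 0) (.cons (.rf (nat_lit 1118) (nat_lit 9365883962132512)) (.cons (.br (nat_lit 11) (nat_lit 0) (.cons (.ev (nat_lit 4722366482873940181249) (nat_lit 1))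 (.cons (.ev (nat_lit 1208944338416296922185729) (nat_lit 1)) (.cons (.rf (nat_lit 928) (nat_lit 14303893635)) .nil)))) (.cons (.rf (nat_lit 928) (nat_lit 14303893635)) .nil)))) (.cons (.br (nat_lit 1) (nat_lit 0) (.cons (.rf (nat_lit 1119) (nat_lit 407901468851537952)) (.cons (.br (nat_lit 12) (nat_lit 0) (.cons (.rf (nat_lit 1120) (nat_lit 14242959524133701664)) (.cons (.br (nat_lit 12) (nat_lit 0) (.cons (.rf (nat_lit 1120) (nat_lit 14242959524133701664)) (.cons (.rf (nat_lit 928) (nat_lit 14303893635)) .nil))) (.cons (.rf (nat_lit 928) (nat_lit 14303893635)) .nil)))) (.cons (.ev (nat_lit 1213666632841572546248961) (nat_lit 1)) (.cons (.rf (nat_lit 928) (nat_lit 14303893635)) .nil))))) (.cons (.rf (nat_lit 928) (nat_lit 14303893635)) .nil))))) (.cons (.br (nat_lit 2) (nat_lit 0) (.cons (.ev (nat_lit 72057598349672449) (nat_lit 1)) (.cons (.br (nat_lit 1) (nat_lit 0) (.cons (.rf (nat_lit 1118) (nat_lit 9365883962132512)) (.cons (.br (nat_lit 11) (nat_lit 0) (.cons (.br (nat_lit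 11) (nat_lit 0) (.cons (.ev (nat_lit 1208944338416296922185729) (nat_lit 1)) (.cons (.rf (nat_lit 928) (nat_lit 14303893635)) .nil))) (.cons (.ev (nat_lit 1208944338416296922185729) (nat_lit 1)) (.cons (.rf (nat_lit 928) (nat_lit 14303893635)) .nil)))) (.cons (.rf (nat_lit 928) (nat_lit 14303893635)) .nil)))) (.cons (.br (nat_lit 10) (nat_lit 1) (.cons (.rf (nat_lit 1045) (nat_lit 3593454357907488)) (.cons (.br (nat_lit 1) (nat_lit 0) (.cons (.kr (nat_lit 1208925819614629191483392) (nat_lit 18446744078004518912) (nat_lit 3) (nat_lit 0)) (.cons (.br (nat_lit 11) (nat_lit 0) (.cons (.ev (nat_lit 309489750706911081094250753) (nat_lit 1)) (.cons (.rf (nat_lit 928) (nat_lit 14303893635)) .nil))) (.cons (.rf (nat_lit 928) (nat_lit 14303893635)) .nil)))) (.cons (.br (nat_lit 12) (nat_lit 0) (.cons (.kr (nat_lit 4740813226951944765440) (nat_lit 79230580365903567951421767680) (nat_lit 2) (nat_lit 0)) (.cons (.br (nat_lit 1) (nat_lit 0) (.cons (.rf (nat_lit 1119) (nat_lit 441575115184015392))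 (.cons (.rf (nat_lit 928) (nat_lit 14303893635)) .nil))) (.cons (.rf (nat_lit 928) (nat_lit 14303893635)) .nil)))) .nil)))) (.cons (.rf (nat_lit 928) (nat_lit 14303893635)) .nil))))) .nil))))) (.cons (.br (nat_lit 1) (nat_lit 0) (.cons (.br (nat_lit 2) (nat_lit 0) (.cons (.rf (nat_lit 1114) (nat_lit 10284874786346208)) (.cons (.br (nat_lit 9) (nat_lit 1) (.cons (.rf (nat_lit 1122) (nat_lit 14242959524133701664)) (.cons (.br (nat_lit 12) (nat_lit 0) (.cons (.br (nat_lit 12) (nat_lit 0) (.cons (.rf (nat_lit 1122) (nat_lit 13123711493926427808)) (.cons (.rf (nat_lit 928) (nat_lit 14303893635)) .nil))) (.cons (.br (nat_lit 12) (nat_lit 0) (.cons (.rf (nat_lit 1122) (nat_lit 13123711493926427808)) (.cons (.rf (nat_lit 928) (nat_lit 14303893635)) .nil))) (.cons (.rf (nat_lit 928) (nat_lit 14303893635)) .nil)))) .nil))) (.cons (.rf (nat_lit 1114) (nat_lit 3525077305201888)) (.cons (.rf (nat_lit 928) (nat_lit 14303893635)) .nil))))) (.cons (.rf (nat_lit 1114) (nat_lit 10284909112530144))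 (.cons (.rf (nat_lit 1114) (nat_lit 11550614637086752)) (.cons (.rf (nat_lit 1114) (nat_lit 3525111631385824)) (.cons (.rf (nat_lit 928) (nat_lit 14303893635)) .nil)))))) (.cons (.rf (nat_lit 928) (nat_lit 14303893635)) .nil))))),
 (.br (nat_lit 12) (nat_lit 0) (.cons (.br (nat_lit 2) (nat_lit 0) (.cons (.br (nat_lit 1) (nat_lit 0) (.cons (.rf (nat_lit 928) (nat_lit 14303893635)) .nil)) (.cons (.rf (nat_lit 928) (nat_lit 14303893635)) .nil))) (.cons (.rf (nat_lit 928) (nat_lit 14303893635)) .nil))),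
 (.br (nat_lit 12) (nat_lit 0) (.cons (.rf (nat_lit 1124) (nat_lit 14242959524133701664)) (.cons (.br (nat_lit 12) (nat_lit 0) (.cons (.rf (nat_lit 1124) (nat_lit 14242959524133701664)) (.cons (.rf (nat_lit 928) (nat_lit 14303893635)) .nil))) (.cons (.rf (nat_lit 928) (nat_lit 14303893635)) .nil)))),
 (.br (nat_lit 12) (nat_lit 0) (.cons (.rf (nat_lit 1125) (nat_lit 14242959524133701664)) (.cons (.br (nat_lit 12) (nat_lit 0) (.cons (.rf (nat_lit 1125) (nat_lit 14242959524133701664)) (.cons (.rf (nat_lit 928) (nat_lit 14303893635)) .nil))) (.cons (.rf (nat_lit 928) (nat_lit 14303893635)) .nil)))),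
 (.br (nat_lit 1) (nat_lit 0) (.cons (.br (nat_lit 2) (nat_lit 0) (.cons (.rf (nat_lit 1045) (nat_lit 10285081045436448)) (.cons (.br (nat_lit 12) (nat_lit 0) (.cons (.ev (nat_lit 79228162532711082771076940033) (nat_lit 1)) (.cons (.kr (nat_lit 4740813226951944765440) (nat_lit 79230580365903567951421767680) (nat_lit 2) (nat_lit 0)) (.cons (.rf (nat_lit 928) (nat_lit 14303893635)) .nil)))) (.cons (.rf (nat_lit 928) (nat_lit 14303893635)) .nil)))) (.cons (.ev (nat_lit 4722366482873940181249) (nat_lit 1)) (.cons (.rf (nat_lit 928) (nat_lit 14303893635)) .nil)))),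
 (.br (nat_lit 12) (nat_lit 0) (.cons (.rf (nat_lit 1127) (nat_lit 14242959524133701664)) (.cons (.br (nat_lit 11) (nat_lit 0) (.cons (.br (nat_lit 11) (nat_lit 0) (.cons (.kr (nat_lit 79229371440083953322230284288) (nat_lit 4722438821938659852288) (nat_lit 5) (nat_lit 0)) (.cons (.rf (nat_lit 928) (nat_lit 14303893635)) .nil))) (.cons (.kr (nat_lit 79229371440083953322230284288) (nat_lit 4722438821938659852288) (nat_lit 5) (nat_lit 0)) (.cons (.rf (nat_lit 928) (nat_lit 14303893635)) .nil)))) (.cons (.rf (nat_lit 928) (nat_lit 14303893635)) .nil)))),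
 (.br (nat_lit 7) (nat_lit 0) (.cons (.rf (nat_lit 1045) (nat_lit 9229379023543456)) (.cons (.rf (nat_lit 1123) (nat_lit 14242959524133701664)) (.cons (.br (nat_lit 9) (nat_lit 1) (.cons (.rf (nat_lit 1114) (nat_lit 11550614637086752)) (.cons (.rf (nat_lit 1114) (nat_lit 6869931425825856)) (.cons (.br (nat_lit 12) (nat_lit 0) (.cons (.rf (nat_lit 1125) (nat_lit 14242959524133701664)) (.cons (.rf (nat_lit 1126) (nat_lit 14242959524133701664)) (.cons (.br (nat_lit 12) (nat_lit 0) (.cons (.rf (nat_lit 1125) (nat_lit 14242959524133701664)) (.cons (.rf (nat_lit 1126) (nat_lit 14242959524133701664)) (.cons (.rf (nat_lit 928) (nat_lit 14303893635)) .nil)))) (.cons (.rf (nat_lit 928) (nat_lit 14303893635)) .nil))))) (.cons (.br (nat_lit 12) (nat_lit 0) (.cons (.rf (nat_lit 1127) (nat_lit 14242959524133701664)) (.cons (.rf (nat_lit 1128) (nat_lit 14242959524133701664)) (.cons (.br (nat_lit 12) (nat_lit 0) (.cons (.rf (nat_lit 1127) (nat_lit 14242959524133701664)) (.cons (.rf (nat_lit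 1128) (nat_lit 14242959524133701664)) (.cons (.rf (nat_lit 928) (nat_lit 14303893635)) .nil)))) (.cons (.rf (nat_lit 928) (nat_lit 14303893635)) .nil))))) .nil))))) (.cons (.rf (nat_lit 928) (nat_lit 14303893635)) .nil))))),
 (.br (nat_lit 7) (nat_lit 0) (.cons (.rf (nat_lit 1045) (nat_lit 9229379023543456)) (.cons (.rf (nat_lit 1123) (nat_lit 14242959524133701664)) (.cons (.rf (nat_lit 1129) (nat_lit 14242959524133701664)) (.cons (.br (nat_lit 7) (nat_lit 0) (.cons (.rf (nat_lit 1045) (nat_lit 9229379023543456)) (.cons (.rf (nat_lit 1123) (nat_lit 14242959524133701664)) (.cons (.rf (nat_lit 1129) (nat_lit 14242959524133701664)) (.cons (.rf (nat_lit 928) (nat_lit 14303893635)) .nil))))) (.cons (.rf (nat_lit 928) (nat_lit 14303893635)) .nil)))))),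
 (.br (nat_lit 11) (nat_lit 0) (.cons (.ev (nat_lit 309485028268370621706076161) (nat_lit 1)) (.cons (.rf (nat_lit 928) (nat_lit 14303893635)) .nil))),
 (.br (nat_lit 7) (nat_lit 0) (.cons (.rf (nat_lit 1045) (nat_lit 10284909112532128)) (.cons (.br (nat_lit 9) (nat_lit 1) (.cons (.rf (nat_lit 1114) (nat_lit 11550614637086752)) (.cons (.rf (nat_lit 1114) (nat_lit 6869931425825856)) (.cons (.br (nat_lit 1) (nat_lit 0) (.cons (.ev (nat_lit 72058697861300481) (nat_lit 1)) (.cons (.rf (nat_lit 1130) (nat_lit 14242925265194949792)) (.cons (.br (nat_lit 2) (nat_lit 0) (.cons (.br (nat_lit 12) (nat_lit 0) (.cons (.rf (nat_lit 1131) (nat_lit 14242959524133701664)) (.cons (.br (nat_lit 12) (nat_lit 0) (.cons (.rf (nat_lit 1131) (nat_lit 14242959524133701664)) (.cons (.rf (nat_lit 928) (nat_lit 14303893635)) .nil))) (.cons (.rf (nat_lit 928) (nat_lit 14303893635)) .nil)))) (.cons (.br (nat_lit 12) (nat_lit 0) (.cons (.rf (nat_lit 1130) (nat_lit 13124971493488532640)) (.cons (.rf (nat_lit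 1130) (nat_lit 13124767195948319808)) (.cons (.rf (nat_lit 928) (nat_lit 14303893635)) .nil)))) (.cons (.ev (nat_lit 1213666632841572546248961) (nat_lit 1)) (.cons (.rf (nat_lit 928) (nat_lit 14303893635)) .nil))))) (.cons (.rf (nat_lit 928) (nat_lit 14303893635)) .nil))))) (.cons (.br (nat_lit 1) (nat_lit 0) (.cons (.ev (nat_lit 72058697861300481) (nat_lit 1)) (.cons (.rf (nat_lit 1130) (nat_lit 13126032557607066784)) (.cons (.br (nat_lit 2) (nat_lit 0) (.cons (.br (nat_lit 11) (nat_lit 0) (.cons (.br (nat_lit 11) (nat_lit 0) (.cons (.ev (nat_lit 310698658007442567561478401) (nat_lit 1)) (.cons (.rf (nat_lit 928) (nat_lit 14303893635)) .nil))) (.cons (.br (nat_lit 11) (nat_lit 0) (.cons (.ev (nat_lit 310698658007442567561478401) (nat_lit 1)) (.cons (.rf (nat_lit 928) (nat_lit 14303893635)) .nil))) (.cons (.rf (nat_lit 928) (nat_lit 14303893635)) .nil)))) (.cons (.br (nat_lit 12) (nat_lit 0) (.cons (.rf (nat_lit 1130) (nat_lit 13124971493488532640)) (.cons (.rf (nat_lit 1130)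 (nat_lit 13124767195948319808)) (.cons (.rf (nat_lit 928) (nat_lit 14303893635)) .nil)))) (.cons (.rf (nat_lit 1045) (nat_lit 3593454357907488)) (.cons (.rf (nat_lit 928) (nat_lit 14303893635)) .nil))))) (.cons (.rf (nat_lit 928) (nat_lit 14303893635)) .nil))))) .nil))))) (.cons (.br (nat_lit 1) (nat_lit 0) (.cons (.rf (nat_lit 1114) (nat_lit 9229379023541472)) (.cons (.br (nat_lit 10) (nat_lit 1) (.cons (.kr (nat_lit 72339069014638848) (nat_lit 1099528470528) (nat_lit 1) (nat_lit 0)) (.cons (.rf (nat_lit 1130) (nat_lit 14241659731603299488)) (.cons (.rf (nat_lit 1130) (nat_lit 13124767024015416480)) .nil)))) (.cons (.rf (nat_lit 1114) (nat_lit 11550614637086752)) (.cons (.rf (nat_lit 1114) (nat_lit 3593282425001184)) (.cons (.rf (nat_lit 928) (nat_lit 14303893635)) .nil)))))) (.cons (.rf (nat_lit 928) (nat_lit 14303893635)) .nil))))),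
 (.br (nat_lit 11) (nat_lit 0) (.cons (.ev (nat_lit 310698658007443671351296001) (nat_lit 1)) (.cons (.rf (nat_lit 928) (nat_lit 14303893635)) .nil))),
 (.br (nat_lit 2) (nat_lit 0) (.cons (.ev (nat_lit 1208925891673322741104641) (nat_lit 1)) (.cons (.rf (nat_lit 1118) (nat_lit 3525214911924256)) (.cons (.rf (nat_lit 1114) (nat_lit 6869931425825856)) (.cons (.rf (nat_lit 928) (nat_lit 12156409987)) .nil))))),
 (.br (nat_lit 7) (nat_lit 0) (.cons (.rf (nat_lit 1132) (nat_lit 14242959524133701664)) (.cons (.rf (nat_lit 1045) (nat_lit 10284909112532128)) (.cons (.br (nat_lit 9) (nat_lit 1) (.cons (.rf (nat_lit 1114) (nat_lit 11550614637086752)) (.cons (.rf (nat_lit 1114) (nat_lit 6869931425825856)) (.cons (.br (nat_lit 1) (nat_lit 0) (.cons (.br (nat_lit 2) (nat_lit 0) (.cons (.ev (nat_lit 4740813226947666575361) (nat_lit 1)) (.cons (.ev (nat_lit 282574505181441) (nat_lit 1)) (.cons (.br (nat_lit 12) (nat_lit 0) (.cons (.rf (nat_lit 1133) (nat_lit 14242959524133701664)) (.cons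 (.rf (nat_lit 1133) (nat_lit 14242925265194949792)) (.cons (.rf (nat_lit 928) (nat_lit 14303893635)) .nil)))) (.cons (.rf (nat_lit 928) (nat_lit 14303893635)) .nil))))) (.cons (.rf (nat_lit 1130) (nat_lit 14242925265194949792)) (.cons (.rf (nat_lit 1134) (nat_lit 11584701642934304)) (.cons (.rf (nat_lit 928) (nat_lit 14303893635)) .nil))))) (.cons (.br (nat_lit 1) (nat_lit 0) (.cons (.br (nat_lit 2) (nat_lit 0) (.cons (.rf (nat_lit 1045) (nat_lit 9229550956447776)) (.cons (.ev (nat_lit 282574505181441) (nat_lit 1)) (.cons (.br (nat_lit 12) (nat_lit 0) (.cons (.br (nat_lit 12) (nat_lit 0) (.cons (.ev (nat_lit 79228162532783420736284917761) (nat_lit 1)) (.cons (.rf (nat_lit 928) (nat_lit 14303893635)) .nil))) (.cons (.br (nat_lit 12) (nat_lit 0) (.cons (.ev (nat_lit 79228162532783420736284917761) (nat_lit 1)) (.cons (.rf (nat_lit 928) (nat_lit 14303893635)) .nil))) (.cons (.rf (nat_lit 928) (nat_lit 14303893635)) .nil)))) (.cons (.rf (nat_lit 928) (nat_lit 14303893635)) .nil)))))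 (.cons (.rf (nat_lit 1130) (nat_lit 13126032557607066784)) (.cons (.rf (nat_lit 1134) (nat_lit 11584701642934304)) (.cons (.rf (nat_lit 928) (nat_lit 14303893635)) .nil))))) .nil))))) (.cons (.rf (nat_lit 928) (nat_lit 14303893635)) .nil)))))]

theorem c38 : chkAll C T R L38 (nat_lit 1111) = true := by decide +kernel

theorem l38 : (nat_lit 1111) + L38.length = (nat_lit 1136) := by decide +kernel

/-- part of the certificates -/
def L39 : List Prf := [(.br (nat_lit 7) (nat_lit 0) (.cons (.rf (nat_lit 1132) (nat_lit 14242959524133701664)) (.cons (.rf (nat_lit 1045) (nat_lit 10284909112532128)) (.cons (.rf (nat_lit 1135) (nat_lit 14242959524133701664)) (.cons (.br (nat_lit 7) (nat_lit 0) (.cons (.rf (nat_lit 1132) (nat_lit 14242959524133701664)) (.cons (.rf (nat_lit 1045) (nat_lit 10284909112532128)) (.cons (.rf (nat_lit 1135) (nat_lit 14242959524133701664)) (.cons (.rf (nat_lit 928) (nat_lit 14303893635)) .nil))))) (.cons (.rf (nat_lit 928) (nat_lit 14303893635)) .nil)))))),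
 (.br (nat_lit 12) (nat_lit 0) (.cons (.kr (nat_lit 18446744078004518912) (nat_lit 4722366764344621924352) (nat_lit 4) (nat_lit 0)) (.cons (.rf (nat_lit 928) (nat_lit 14303893635)) .nil))),
 (.br (nat_lit 12) (nat_lit 0) (.cons (.rf (nat_lit 1137) (nat_lit 14242959524133701664)) (.cons (.rf (nat_lit 1137) (nat_lit 14242925437127854112)) (.cons (.rf (nat_lit 928) (nat_lit 14303893635)) .nil)))),
 (.br (nat_lit 12) (nat_lit 0) (.cons (.kr (nat_lit 18446744078004518912) (nat_lit 4722366764344621924352) (nat_lit 4) (nat_lit 0)) (.cons (.rf (nat_lit 928) (nat_lit 14303893635)) .nil))),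
 (.br (nat_lit 12) (nat_lit 0) (.cons (.rf (nat_lit 1139) (nat_lit 14242959524133701664)) (.cons (.rf (nat_lit 1139) (nat_lit 14242925265329167392)) (.cons (.rf (nat_lit 928) (nat_lit 14303893635)) .nil)))),
 (.br (nat_lit 7) (nat_lit 0) (.cons (.br (nat_lit 1) (nat_lit 0) (.cons (.rf (nat_lit 1114) (nat_lit 9365712029226208)) (.cons (.rf (nat_lit 1114) (nat_lit 10489412911830240)) (.cons (.rf (nat_lit 1114) (nat_lit 11550614637086752)) (.cons (.br (nat_lit 2) (nat_lit 0) (.cons (.rf (nat_lit 1114) (nat_lit 9365677703042272)) (.cons (.rf (nat_lit 1114) (nat_lit 10489378585646304)) (.cons (.br (nat_lit 9) (nat_lit 1) (.cons (.rf (nat_lit 1138) (nat_lit 14242959524133701664)) (.cons (.br (nat_lit 12) (nat_lit 0) (.cons (.br (nat_lit 11) (nat_lit 0) (.cons (.kr (nat_lit 18446744078004518912) (nat_lit 4722366764344621924352) (nat_lit 4) (nat_lit 0)) (.cons (.rf (nat_lit 928) (nat_lit 14303893635)) .nil))) (.cons (.br (nat_lit 12) (nat_lit 0) (.cons (.rf (nat_lit 1138) (nat_lit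 13118075397462105120)) (.cons (.rf (nat_lit 928) (nat_lit 14303893635)) .nil))) (.cons (.rf (nat_lit 928) (nat_lit 14303893635)) .nil)))) .nil))) (.cons (.rf (nat_lit 928) (nat_lit 14303893635)) .nil))))) (.cons (.rf (nat_lit 928) (nat_lit 14303893635)) .nil)))))) (.cons (.br (nat_lit 9) (nat_lit 1) (.cons (.rf (nat_lit 1114) (nat_lit 11550614637086752)) (.cons (.rf (nat_lit 1114) (nat_lit 6869931425825856)) (.cons (.br (nat_lit 1) (nat_lit 0) (.cons (.rf (nat_lit 1136) (nat_lit 14242925265194949792)) (.cons (.rf (nat_lit 1130) (nat_lit 14242925265194949792)) (.cons (.br (nat_lit 2) (nat_lit 0) (.cons (.rf (nat_lit 1118) (nat_lit 3593454357907488)) (.cons (.rf (nat_lit 1140) (nat_lit 14242959524133701664)) (.cons (.rf (nat_lit 928) (nat_lit 14303893635)) .nil)))) (.cons (.rf (nat_lit 928) (nat_lit 14303893635)) .nil))))) (.cons (.br (nat_lit 1) (nat_lit 0) (.cons (.rf (nat_lit 1136) (nat_lit 13126032557607066784)) (.cons (.rf (nat_lit 1130) (nat_lit 13126032557607066784)) (.cons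 (.br (nat_lit 2) (nat_lit 0) (.cons (.rf (nat_lit 1118) (nat_lit 3593454357907488)) (.cons (.br (nat_lit 12) (nat_lit 0) (.cons (.br (nat_lit 11) (nat_lit 0) (.cons (.kr (nat_lit 18446744078004518912) (nat_lit 4722366764344621924352) (nat_lit 4) (nat_lit 0)) (.cons (.rf (nat_lit 928) (nat_lit 14303893635)) .nil))) (.cons (.br (nat_lit 12) (nat_lit 0) (.cons (.rf (nat_lit 1140) (nat_lit 13118007398467176480)) (.cons (.rf (nat_lit 928) (nat_lit 14303893635)) .nil))) (.cons (.rf (nat_lit 928) (nat_lit 14303893635)) .nil)))) (.cons (.rf (nat_lit 928) (nat_lit 14303893635)) .nil)))) (.cons (.rf (nat_lit 928) (nat_lit 14303893635)) .nil))))) .nil))))) (.cons (.rf (nat_lit 1045) (nat_lit 3593282425003168)) (.cons (.rf (nat_lit 928) (nat_lit 14303893635)) .nil))))),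
 (.br (nat_lit 12) (nat_lit 0) (.cons (.ev (nat_lit 4740813226947666575361) (nat_lit 1)) (.cons (.br (nat_lit 12) (nat_lit 0) (.cons (.ev (nat_lit 4740813226947666575361) (nat_lit 1)) (.cons (.rf (nat_lit 928) (nat_lit 14303893635)) .nil))) (.cons (.rf (nat_lit 928) (nat_lit 14303893635)) .nil)))),
 (.br (nat_lit 7) (nat_lit 0) (.cons (.rf (nat_lit 1141) (nat_lit 14242959524133701664)) (.cons (.br (nat_lit 9) (nat_lit 1) (.cons (.rf (nat_lit 1114) (nat_lit 11550614637086752)) (.cons (.rf (nat_lit 1114) (nat_lit 6869931425825856)) (.cons (.br (nat_lit 1) (nat_lit 0) (.cons (.rf (nat_lit 1136) (nat_lit 14242925265194949792)) (.cons (.rf (nat_lit 1130) (nat_lit 14242925265194949792)) (.cons (.br (nat_lit 2) (nat_lit 0) (.cons (.br (nat_lit 12) (nat_lit 0) (.cons (.rf (nat_lit 1142) (nat_lit 14242959524133701664)) (.cons (.rf (nat_lit 1142) (nat_lit 14242925265194949792)) (.cons (.rf (nat_lit 928) (nat_lit 14303893635)) .nil)))) (.cons (.rf (nat_lit 1118) (nat_lit 3525283564292128))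 (.cons (.rf (nat_lit 928) (nat_lit 14303893635)) .nil)))) (.cons (.rf (nat_lit 928) (nat_lit 14303893635)) .nil))))) (.cons (.br (nat_lit 1) (nat_lit 0) (.cons (.rf (nat_lit 1136) (nat_lit 13126032557607066784)) (.cons (.rf (nat_lit 1130) (nat_lit 13126032557607066784)) (.cons (.br (nat_lit 2) (nat_lit 0) (.cons (.br (nat_lit 12) (nat_lit 0) (.cons (.br (nat_lit 12) (nat_lit 0) (.cons (.rf (nat_lit 1142) (nat_lit 13118075569260791840)) (.cons (.rf (nat_lit 928) (nat_lit 14303893635)) .nil))) (.cons (.br (nat_lit 12) (nat_lit 0) (.cons (.rf (nat_lit 1142) (nat_lit 13118075569260791840)) (.cons (.rf (nat_lit 928) (nat_lit 14303893635)) .nil))) (.cons (.rf (nat_lit 928) (nat_lit 14303893635)) .nil)))) (.cons (.rf (nat_lit 1118) (nat_lit 3525283564292128)) (.cons (.rf (nat_lit 928) (nat_lit 14303893635)) .nil)))) (.cons (.rf (nat_lit 928) (nat_lit 14303893635)) .nil))))) .nil))))) (.cons (.rf (nat_lit 1045) (nat_lit 3593282425003168)) (.cons (.rf (nat_lit 928) (nat_lit 14303893635))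 .nil))))),
 (.br (nat_lit 8) (nat_lit 1) (.cons (.rf (nat_lit 1045) (nat_lit 4619299778201632)) (.cons (.rf (nat_lit 1114) (nat_lit 11584529710029984)) (.cons (.rf (nat_lit 1118) (nat_lit 11584701642934304)) (.cons (.br (nat_lit 11) (nat_lit 1) (.cons (.br (nat_lit 5) (nat_lit 0) (.cons (.rf (nat_lit 1130) (nat_lit 14242959524133701664)) (.cons (.rf (nat_lit 1136) (nat_lit 14242959524133701664)) (.cons (.rf (nat_lit 1114) (nat_lit 11550442704182432)) (.cons (.br (nat_lit 7) (nat_lit 0) (.cons (.rf (nat_lit 1141) (nat_lit 14242959524133701664)) (.cons (.rf (nat_lit 1143) (nat_lit 14242959524133701664)) (.cons (.br (nat_lit 7) (nat_lit 0) (.cons (.rf (nat_lit 1141) (nat_lit 14242959524133701664)) (.cons (.rf (nat_lit 1143) (nat_lit 14242959524133701664)) (.cons (.rf (nat_lit 1045) (nat_lit 3593282425003168)) (.cons (.rf (nat_lit 928) (nat_lit 14303893635)) .nil))))) (.cons (.rf (nat_lit 1045) (nat_lit 3593282425003168)) (.cons (.rf (nat_lit 928) (nat_lit 14303893635)) .nil))))))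 (.cons (.rf (nat_lit 928) (nat_lit 14303893635)) .nil)))))) .nil)) .nil))))),
 (.br (nat_lit 2) (nat_lit 0) (.cons (.br (nat_lit 7) (nat_lit 0) (.cons (.rf (nat_lit 1114) (nat_lit 9365815309763648)) (.cons (.rf (nat_lit 1114) (nat_lit 10489516192367680)) (.cons (.br (nat_lit 1) (nat_lit 0) (.cons (.rf (nat_lit 1045) (nat_lit 9229550956447776)) (.cons (.rf (nat_lit 1045) (nat_lit 10285081045436448)) (.cons (.ev (nat_lit 1213666632841572546248961) (nat_lit 1)) (.cons (.rf (nat_lit 928) (nat_lit 14303893635)) .nil))))) (.cons (.rf (nat_lit 928) (nat_lit 14303893635)) .nil))))) (.cons (.br (nat_lit 7) (nat_lit 0) (.cons (.rf (nat_lit 1114) (nat_lit 9229482304078912)) (.cons (.br (nat_lit 1) (nat_lit 0) (.cons (.rf (nat_lit 1045) (nat_lit 9229550956447776)) (.cons (.rf (nat_lit 1144) (nat_lit 10489516192368672)) (.cons (.rf (nat_lit 1045) (nat_lit 3593454357907488)) (.cons (.rf (nat_lit 928) (nat_lit 14303893635)) .nil))))) (.cons (.rf (nat_lit 1114) (nat_lit 3593385705538624))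 (.cons (.rf (nat_lit 928) (nat_lit 14303893635)) .nil))))) (.cons (.rf (nat_lit 928) (nat_lit 14303893635)) .nil)))),
 (.br (nat_lit 9) (nat_lit 1) (.cons (.rf (nat_lit 1114) (nat_lit 11550614637086752)) (.cons (.rf (nat_lit 1144) (nat_lit 11550614637086752)) (.cons (.rf (nat_lit 1114) (nat_lit 11550442704182432)) (.cons (.rf (nat_lit 1144) (nat_lit 11550442704182432)) (.cons (.br (nat_lit 2) (nat_lit 0) (.cons (.rf (nat_lit 1145) (nat_lit 14242959524133701664)) (.cons (.rf (nat_lit 1145) (nat_lit 14242925437127854112)) (.cons (.br (nat_lit 2) (nat_lit 0) (.cons (.rf (nat_lit 1145) (nat_lit 14242959524133701664)) (.cons (.rf (nat_lit 1145) (nat_lit 14242925437127854112)) (.cons (.rf (nat_lit 928) (nat_lit 14303893635)) .nil)))) (.cons (.rf (nat_lit 928) (nat_lit 14303893635)) .nil))))) .nil)))))),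
 (.br (nat_lit 8) (nat_lit 1) (.cons (.rf (nat_lit 1114) (nat_lit 11584701642934304)) (.cons (.rf (nat_lit 1144) (nat_lit 11584701642934304)) (.cons (.rf (nat_lit 1114) (nat_lit 11584529710029984)) (.cons (.rf (nat_lit 1144) (nat_lit 11584529710029984)) (.cons (.br (nat_lit 8) (nat_lit 1) (.cons (.rf (nat_lit 1114) (nat_lit 11584701642934304)) (.cons (.rf (nat_lit 1144) (nat_lit 11584701642934304)) (.cons (.rf (nat_lit 1114) (nat_lit 11584529710029984)) (.cons (.rf (nat_lit 1144) (nat_lit 11584529710029984)) (.cons (.br (nat_lit 9) (nat_lit 1) (.cons (.rf (nat_lit 1114) (nat_lit 11550614637086752)) (.cons (.rf (nat_lit 1144) (nat_lit 11550614637086752)) (.cons (.rf (nat_lit 1114) (nat_lit 11550442704182432)) (.cons (.rf (nat_lit 1144) (nat_lit 11550442704182432)) (.cons (.rf (nat_lit 1146) (nat_lit 14242959524133701664)) (.cons (.rf (nat_lit 1146) (nat_lit 13126066816545818656)) .nil))))))) .nil)))))) .nil)))))),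
 (.br (nat_lit 2) (nat_lit 0) (.cons (.rf (nat_lit 1147) (nat_lit 6870000078193728)) (.cons (.br (nat_lit 7) (nat_lit 0) (.cons (.rf (nat_lit 1045) (nat_lit 6869828145290400)) (.cons (.ev (nat_lit 79229371440156009821068328961) (nat_lit 1)) (.cons (.rf (nat_lit 928) (nat_lit 14303893635)) .nil)))) (.cons (.rf (nat_lit 928) (nat_lit 14303893635)) .nil)))),
 (.br (nat_lit 5) (nat_lit 0) (.cons (.rf (nat_lit 1148) (nat_lit 14242959524133701664)) (.cons (.br (nat_lit 5) (nat_lit 0) (.cons (.rf (nat_lit 1148) (nat_lit 14242959524133701664)) (.cons (.rf (nat_lit 928) (nat_lit 14303893635)) .nil))) (.cons (.rf (nat_lit 928) (nat_lit 14303893635)) .nil)))),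
 (.br (nat_lit 2) (nat_lit 0) (.cons (.br (nat_lit 5) (nat_lit 0) (.cons (.ev (nat_lit 1213648186378978091663361) (nat_lit 1)) (.cons (.rf (nat_lit 928) (nat_lit 14303893635)) .nil))) (.cons (.br (nat_lit 1) (nat_lit 0) (.cons (.br (nat_lit 5) (nat_lit 0) (.cons (.rf (nat_lit 928) (nat_lit 14303893635)) .nil)) (.cons (.rf (nat_lit 928) (nat_lit 14303893635)) .nil))) (.cons (.rf (nat_lit 928) (nat_lit 14303893635)) .nil)))),
 (.br (nat_lit 5) (nat_lit 0) (.cons (.rf (nat_lit 1150) (nat_lit 14242959524133701664)) (.cons (.br (nat_lit 1) (nat_lit 0) (.cons (.br (nat_lit 2) (nat_lit 0) (.cons (.rf (nat_lit 928) (nat_lit 14303893635)) .nil)) (.cons (.rf (nat_lit 928) (nat_lit 14303893635)) .nil))) (.cons (.rf (nat_lit 928) (nat_lit 14303893635)) .nil)))),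
 (.br (nat_lit 11) (nat_lit 0) (.cons (.rf (nat_lit 1149) (nat_lit 14242959524133701664)) (.cons (.br (nat_lit 5) (nat_lit 0) (.cons (.rf (nat_lit 1150) (nat_lit 14242959524133701664)) (.cons (.rf (nat_lit 1151) (nat_lit 14242959524133701664)) (.cons (.br (nat_lit 5) (nat_lit 0) (.cons (.rf (nat_lit 1150) (nat_lit 14242959524133701664)) (.cons (.rf (nat_lit 1151) (nat_lit 14242959524133701664)) (.cons (.rf (nat_lit 928) (nat_lit 14303893635)) .nil)))) (.cons (.rf (nat_lit 928) (nat_lit 14303893635)) .nil))))) (.cons (.rf (nat_lit 928) (nat_lit 14303893635)) .nil)))),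
 (.br (nat_lit 11) (nat_lit 0) (.cons (.rf (nat_lit 1149) (nat_lit 14242959524133701664)) (.cons (.rf (nat_lit 1152) (nat_lit 14242959524133701664)) (.cons (.br (nat_lit 11) (nat_lit 0) (.cons (.rf (nat_lit 1149) (nat_lit 14242959524133701664)) (.cons (.rf (nat_lit 1152) (nat_lit 14242959524133701664)) (.cons (.rf (nat_lit 928) (nat_lit 14303893635)) .nil)))) (.cons (.rf (nat_lit 928) (nat_lit 14303893635)) .nil))))),
 (.br (nat_lit 11) (nat_lit 0) (.cons (.br (nat_lit 1) (nat_lit 0) (.cons (.ev (nat_lit 1208925819896108463161601) (nat_lit 1)) (.cons (.rf (nat_lit 928) (nat_lit 14303893635)) .nil))) (.cons (.rf (nat_lit 928) (nat_lit 14303893635)) .nil))),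
 (.br (nat_lit 5) (nat_lit 0) (.cons (.rf (nat_lit 1154) (nat_lit 14242959524133701664)) (.cons (.br (nat_lit 5) (nat_lit 0) (.cons (.rf (nat_lit 1154) (nat_lit 14242959524133701664)) (.cons (.rf (nat_lit 928) (nat_lit 14303893635)) .nil))) (.cons (.rf (nat_lit 928) (nat_lit 14303893635)) .nil)))),
 (.br (nat_lit 1) (nat_lit 0) (.cons (.br (nat_lit 7) (nat_lit 0) (.cons (.rf (nat_lit 1147) (nat_lit 11584632990566432)) (.cons (.rf (nat_lit 1147) (nat_lit 6869931425826848)) (.cons (.rf (nat_lit 928) (nat_lit 14303893635)) .nil)))) (.cons (.rf (nat_lit 928) (nat_lit 14303893635)) .nil))),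
 (.br (nat_lit 2) (nat_lit 0) (.cons (.rf (nat_lit 1153) (nat_lit 14242959524133701664)) (.cons (.br (nat_lit 9) (nat_lit 1) (.cons (.rf (nat_lit 1045) (nat_lit 6870000078194720)) (.cons (.rf (nat_lit 1147) (nat_lit 6870000078193728)) (.cons (.rf (nat_lit 1147) (nat_lit 6869931425825856)) (.cons (.rf (nat_lit 1155) (nat_lit 14242959524133701664)) .nil))))) (.cons (.br (nat_lit 10) (nat_lit 1) (.cons (.rf (nat_lit 1045) (nat_lit 3593454357907488)) (.cons (.rf (nat_lit 1147) (nat_lit 3593454357906496)) (.cons (.ev (nat_lit 79229371440156009821068328961) (nat_lit 1)) (.cons (.br (nat_lit 5) (nat_lit 0) (.cons (.rf (nat_lit 1156) (nat_lit 14242959524133701664)) (.cons (.br (nat_lit 5) (nat_lit 0) (.cons (.rf (nat_lit 1156) (nat_lit 14242959524133701664)) (.cons (.rf (nat_lit 928) (nat_lit 14303893635)) .nil))) (.cons (.rf (nat_lit 928) (nat_lit 14303893635)) .nil)))) .nil))))) (.cons (.rf (nat_lit 928) (nat_lit 14303893635)) .nil))))),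
 (.br (nat_lit 1) (nat_lit 0) (.cons (.ev (nat_lit 4722438540463699984641) (nat_lit 1)) (.cons (.ev (nat_lit 18447025548686262529) (nat_lit 1)) (.cons (.rf (nat_lit 928) (nat_lit 14303893635)) .nil)))),
 (.br (nat_lit 9) (nat_lit 1) (.cons (.rf (nat_lit 1045) (nat_lit 6870000078194720)) (.cons (.rf (nat_lit 1147) (nat_lit 6870000078193728)) (.cons (.rf (nat_lit 1147) (nat_lit 6869931425825856)) (.cons (.br (nat_lit 2) (nat_lit 0) (.cons (.rf (nat_lit 1153) (nat_lit 14242959524133701664)) (.cons (.rf (nat_lit 1155) (nat_lit 14242959524133701664)) (.cons (.br (nat_lit 7) (nat_lit 0) (.cons (.br (nat_lit 5) (nat_lit 0) (.cons (.rf (nat_lit 1158) (nat_lit 14242959524133701664)) (.cons (.rf (nat_lit 1147) (nat_lit 3593454357906496)) (.cons (.rf (nat_lit 928) (nat_lit 14303893635)) .nil)))) (.cons (.ev (nat_lit 4740885284541704437761) (nat_lit 1)) (.cons (.ev (nat_lit 79229371440156009821068328961) (nat_lit 1)) (.cons (.rf (nat_lit 928) (nat_lit 14303893635)) .nil))))) (.cons (.rf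 (nat_lit 928) (nat_lit 14303893635)) .nil))))) .nil))))),
 (.br (nat_lit 2) (nat_lit 0) (.cons (.rf (nat_lit 1153) (nat_lit 14242959524133701664)) (.cons (.rf (nat_lit 1157) (nat_lit 14242959524133701664)) (.cons (.rf (nat_lit 1159) (nat_lit 14242959524133701664)) (.cons (.br (nat_lit 2) (nat_lit 0) (.cons (.rf (nat_lit 1153) (nat_lit 14242959524133701664)) (.cons (.rf (nat_lit 1157) (nat_lit 14242959524133701664)) (.cons (.rf (nat_lit 1159) (nat_lit 14242959524133701664)) (.cons (.rf (nat_lit 928) (nat_lit 14303893635)) .nil))))) (.cons (.rf (nat_lit 928) (nat_lit 14303893635)) .nil)))))),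
 (.br (nat_lit 7) (nat_lit 0) (.cons (.ev (nat_lit 1213648258436572129525761) (nat_lit 1)) (.cons (.rf (nat_lit 928) (nat_lit 14303893635)) .nil))),
 (.br (nat_lit 11) (nat_lit 0) (.cons (.br (nat_lit 2) (nat_lit 0) (.cons (.br (nat_lit 2) (nat_lit 0) (.cons (.rf (nat_lit 1161) (nat_lit 14242959524133701664)) (.cons (.rf (nat_lit 928) (nat_lit 14303893635)) .nil))) (.cons (.rf (nat_lit 1161) (nat_lit 14242959524133701664)) (.cons (.rf (nat_lit 928) (nat_lit 14303893635)) .nil)))) (.cons (.rf (nat_lit 928) (nat_lit 14303893635)) .nil))),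
 (.br (nat_lit 1) (nat_lit 0) (.cons (.br (nat_lit 11) (nat_lit 0) (.cons (.rf (nat_lit 1162) (nat_lit 14242959524133701664)) (.cons (.br (nat_lit 11) (nat_lit 0) (.cons (.rf (nat_lit 1162) (nat_lit 14242959524133701664)) (.cons (.rf (nat_lit 928) (nat_lit 14303893635)) .nil))) (.cons (.rf (nat_lit 928) (nat_lit 14303893635)) .nil)))) (.cons (.br (nat_lit 5) (nat_lit 0) (.cons (.rf (nat_lit 1160) (nat_lit 14242959455481333792)) (.cons (.rf (nat_lit 1147) (nat_lit 6870000078194720)) (.cons (.br (nat_lit 7) (nat_lit 0) (.cons (.ev (nat_lit 18518802771554074881) (nat_lit 1)) (.cons (.rf (nat_lit 1147) (nat_lit 6869931425826848)) (.cons (.rf (nat_lit 1045) (nat_lit 3593282425003168)) (.cons (.rf (nat_lit 928) (nat_lit 14303893635)) .nil))))) (.cons (.rf (nat_lit 928) (nat_lit 14303893635)) .nil))))) (.cons (.ev (nat_lit 18447025548686262529) (nat_lit 1)) (.cons (.rf (nat_lit 928) (nat_lit 14303893635)) .nil))))),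
 (.br (nat_lit 5) (nat_lit 0) (.cons (.rf (nat_lit 1160) (nat_lit 14242959455481333792)) (.cons (.rf (nat_lit 1163) (nat_lit 14242959524133701664)) (.cons (.br (nat_lit 9) (nat_lit 1) (.cons (.rf (nat_lit 1147) (nat_lit 6870000078194720)) (.cons (.rf (nat_lit 1147) (nat_lit 6870000078193728)) (.cons (.rf (nat_lit 1045) (nat_lit 6869828145290400)) (.cons (.br (nat_lit 10) (nat_lit 1) (.cons (.rf (nat_lit 1147) (nat_lit 3593454357907488)) (.cons (.rf (nat_lit 1147) (nat_lit 3593454357906496)) (.cons (.rf (nat_lit 1045) (nat_lit 3593282425003168)) (.cons (.br (nat_lit 7) (nat_lit 0) (.cons (.rf (nat_lit 1160) (nat_lit 14242959524133701664)) (.cons (.br (nat_lit 1) (nat_lit 0) (.cons (.ev (nat_lit 79538856468424100063014289665) (nat_lit 1)) (.cons (.rf (nat_lit 928) (nat_lit 14303893635)) .nil))) (.cons (.rf (nat_lit 928) (nat_lit 14303893635)) .nil)))) .nil))))) .nil))))) (.cons (.rf (nat_lit 928) (nat_lit 14303893635)) .nil)))))]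

theorem c39 : chkAll C T R L39 (nat_lit 1136) = true := by decide +kernel

theorem l39 : (nat_lit 1136) + L39.length = (nat_lit 1165) := by decide +kernel

/-- part of the certificates -/
def L40 : List Prf := [(.br (nat_lit 5) (nat_lit 0) (.cons (.rf (nat_lit 1160) (nat_lit 14242959455481333792)) (.cons (.rf (nat_lit 1163) (nat_lit 14242959524133701664)) (.cons (.rf (nat_lit 1164) (nat_lit 14242959524133701664)) (.cons (.br (nat_lit 5) (nat_lit 0) (.cons (.rf (nat_lit 1160) (nat_lit 14242959455481333792)) (.cons (.rf (nat_lit 1163) (nat_lit 14242959524133701664)) (.cons (.rf (nat_lit 1164) (nat_lit 14242959524133701664)) (.cons (.rf (nat_lit 928) (nat_lit 14303893635)) .nil))))) (.cons (.rf (nat_lit 928) (nat_lit 14303893635)) .nil)))))),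
 (.br (nat_lit 5) (nat_lit 0) (.cons (.rf (nat_lit 1160) (nat_lit 14242959455481333792)) (.cons (.rf (nat_lit 1165) (nat_lit 14242959455481333792)) (.cons (.br (nat_lit 7) (nat_lit 0) (.cons (.rf (nat_lit 1160) (nat_lit 14242959524133701664)) (.cons (.rf (nat_lit 1165) (nat_lit 14242959524133701664)) (.cons (.rf (nat_lit 1045) (nat_lit 6869828145290400)) (.cons (.rf (nat_lit 1045) (nat_lit 3593282425003168)) (.cons (.rf (nat_lit 928) (nat_lit 14303893635)) .nil)))))) (.cons (.rf (nat_lit 928) (nat_lit 14303893635)) .nil))))),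
 (.br (nat_lit 5) (nat_lit 0) (.cons (.rf (nat_lit 1160) (nat_lit 14242959455481333792)) (.cons (.rf (nat_lit 1165) (nat_lit 14242959455481333792)) (.cons (.rf (nat_lit 1166) (nat_lit 14242959524133701664)) (.cons (.br (nat_lit 5) (nat_lit 0) (.cons (.rf (nat_lit 1160) (nat_lit 14242959455481333792)) (.cons (.rf (nat_lit 1165) (nat_lit 14242959455481333792)) (.cons (.rf (nat_lit 1166) (nat_lit 14242959524133701664)) (.cons (.rf (nat_lit 928) (nat_lit 14303893635)) .nil))))) (.cons (.rf (nat_lit 928) (nat_lit 14303893635)) .nil)))))),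
 (.br (nat_lit 5) (nat_lit 0) (.cons (.rf (nat_lit 1160) (nat_lit 14242959455481333792)) (.cons (.rf (nat_lit 1165) (nat_lit 14242959455481333792)) (.cons (.rf (nat_lit 1167) (nat_lit 14242959455481333792)) (.cons (.rf (nat_lit 1045) (nat_lit 6869828145290400)) (.cons (.br (nat_lit 7) (nat_lit 0) (.cons (.rf (nat_lit 1160) (nat_lit 14242959524133701664)) (.cons (.rf (nat_lit 1165) (nat_lit 14242959524133701664)) (.cons (.rf (nat_lit 1167) (nat_lit 14242959524133701664)) (.cons (.rf (nat_lit 1045) (nat_lit 3593282425003168)) (.cons (.rf (nat_lit 928) (nat_lit 14303893635)) .nil)))))) (.cons (.rf (nat_lit 928) (nat_lit 14303893635)) .nil))))))),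
 (.br (nat_lit 7) (nat_lit 0) (.cons (.rf (nat_lit 1160) (nat_lit 14242959524133701664)) (.cons (.rf (nat_lit 1165) (nat_lit 14242959524133701664)) (.cons (.rf (nat_lit 1167) (nat_lit 14242959524133701664)) (.cons (.rf (nat_lit 1168) (nat_lit 14242959524133701664)) (.cons (.br (nat_lit 5) (nat_lit 0) (.cons (.rf (nat_lit 1160) (nat_lit 14242959455481333792)) (.cons (.rf (nat_lit 1165) (nat_lit 14242959455481333792)) (.cons (.rf (nat_lit 1167) (nat_lit 14242959455481333792)) (.cons (.rf (nat_lit 1168) (nat_lit 14242959455481333792)) (.cons (.rf (nat_lit 1045) (nat_lit 3593282425003168)) (.cons (.rf (nat_lit 928) (nat_lit 14303893635)) .nil))))))) (.cons (.rf (nat_lit 928) (nat_lit 14303893635)) .nil))))))),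
 (.br (nat_lit 7) (nat_lit 0) (.cons (.br (nat_lit 5) (nat_lit 0) (.cons (.ev (nat_lit 79538856468424100063014289665) (nat_lit 1)) (.cons (.rf (nat_lit 928) (nat_lit 14303893635)) .nil))) (.cons (.kr (nat_lit 1208925819614629191483392) (nat_lit 18446744078004518912) (nat_lit 3) (nat_lit 0)) (.cons (.rf (nat_lit 928) (nat_lit 14303893635)) .nil)))),
 (.br (nat_lit 11) (nat_lit 0) (.cons (.br (nat_lit 1) (nat_lit 0) (.cons (.rf (nat_lit 1170) (nat_lit 14242959524133701664)) (.cons (.rf (nat_lit 1170) (nat_lit 14242925368475486240)) (.cons (.ev (nat_lit 79537647524085964141540409601) (nat_lit 1)) (.cons (.rf (nat_lit 928) (nat_lit 14303893635)) .nil))))) (.cons (.rf (nat_lit 1169) (nat_lit 13124767024015416480)) (.cons (.rf (nat_lit 928) (nat_lit 14303893635)) .nil)))),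
 (.br (nat_lit 11) (nat_lit 0) (.cons (.rf (nat_lit 1171) (nat_lit 14242959524133701664)) (.cons (.rf (nat_lit 1171) (nat_lit 14242925368475486240)) (.cons (.br (nat_lit 11) (nat_lit 0) (.cons (.rf (nat_lit 1169) (nat_lit 13124767024015416480)) (.cons (.rf (nat_lit 1169) (nat_lit 13123711493926425824)) (.cons (.rf (nat_lit 928) (nat_lit 14303893635)) .nil)))) (.cons (.rf (nat_lit 928) (nat_lit 14303893635)) .nil))))),
 (.br (nat_lit 2) (nat_lit 0) (.cons (.rf (nat_lit 1172) (nat_lit 13123847826932110560)) (.cons (.br (nat_lit 7) (nat_lit 0) (.cons (.rf (nat_lit 1172) (nat_lit 13118007398467175488)) (.cons (.rf (nat_lit 928) (nat_lit 14303893635)) .nil))) (.cons (.rf (nat_lit 928) (nat_lit 14303893635)) .nil)))),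
 (.br (nat_lit 6) (nat_lit 1) (.cons (.rf (nat_lit 1169) (nat_lit 13124767195948320800)) (.cons (.rf (nat_lit 1169) (nat_lit 13124767195948319808)) (.cons (.rf (nat_lit 1169) (nat_lit 13124767024015416480)) (.cons (.rf (nat_lit 1169) (nat_lit 13124767024015414496)) .nil))))),
 (.br (nat_lit 8) (nat_lit 1) (.cons (.rf (nat_lit 1147) (nat_lit 4619299778201632)) (.cons (.rf (nat_lit 1147) (nat_lit 4619299778200640)) (.cons (.rf (nat_lit 1045) (nat_lit 4619127845297312)) (.cons (.br (nat_lit 11) (nat_lit 0) (.cons (.kr (nat_lit 281474976710656) (nat_lit 309485009821345068724781056) (nat_lit 6) (nat_lit 0)) (.cons (.br (nat_lit 2) (nat_lit 0) (.cons (.rf (nat_lit 1173) (nat_lit 14242959524133701664)) (.cons (.rf (nat_lit 1172) (nat_lit 13123847826932110560)) (.cons (.br (nat_lit 1) (nat_lit 0) (.cons (.rf (nat_lit 1172) (nat_lit 14236198455208058016)) (.cons (.rf (nat_lit 1173) (nat_lit 14238244822568962080)) (.cons (.rf (nat_lit 928) (nat_lit 14303893635)) .nil)))) (.cons (.rf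 (nat_lit 928) (nat_lit 14303893635)) .nil))))) (.cons (.rf (nat_lit 1174) (nat_lit 14242959524133701664)) (.cons (.rf (nat_lit 928) (nat_lit 14303893635)) .nil))))) .nil))))),
 (.br (nat_lit 5) (nat_lit 0) (.cons (.rf (nat_lit 1172) (nat_lit 14242959524133701664)) (.cons (.rf (nat_lit 1175) (nat_lit 14242959524133701664)) (.cons (.br (nat_lit 9) (nat_lit 1) (.cons (.rf (nat_lit 1147) (nat_lit 6870000078194720)) (.cons (.rf (nat_lit 1147) (nat_lit 6870000078193728)) (.cons (.rf (nat_lit 1045) (nat_lit 6869828145290400)) (.cons (.br (nat_lit 1) (nat_lit 0) (.cons (.kr (nat_lit 1208925819614629191483392) (nat_lit 4722366764344621924352) (nat_lit 3) (nat_lit 0)) (.cons (.br (nat_lit 7) (nat_lit 0) (.cons (.rf (nat_lit 1175) (nat_lit 14242925437127854112)) (.cons (.rf (nat_lit 1147) (nat_lit 4619231125833760)) (.cons (.rf (nat_lit 928) (nat_lit 14303893635)) .nil)))) (.cons (.rf (nat_lit 928) (nat_lit 14303893635)) .nil)))) .nil))))) (.cons (.rf (nat_lit 928) (nat_lit 14303893635))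 .nil))))),
 (.br (nat_lit 5) (nat_lit 0) (.cons (.rf (nat_lit 1172) (nat_lit 14242959524133701664)) (.cons (.rf (nat_lit 1175) (nat_lit 14242959524133701664)) (.cons (.rf (nat_lit 1176) (nat_lit 14242959524133701664)) (.cons (.br (nat_lit 5) (nat_lit 0) (.cons (.rf (nat_lit 1172) (nat_lit 14242959524133701664)) (.cons (.rf (nat_lit 1175) (nat_lit 14242959524133701664)) (.cons (.rf (nat_lit 1176) (nat_lit 14242959524133701664)) (.cons (.rf (nat_lit 928) (nat_lit 14303893635)) .nil))))) (.cons (.rf (nat_lit 928) (nat_lit 14303893635)) .nil)))))),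
 (.br (nat_lit 8) (nat_lit 1) (.cons (.rf (nat_lit 1147) (nat_lit 4619231125833760)) (.cons (.rf (nat_lit 1147) (nat_lit 4619231125832768)) (.cons (.rf (nat_lit 1045) (nat_lit 4619127845297312)) (.cons (.br (nat_lit 6) (nat_lit 1) (.cons (.rf (nat_lit 1177) (nat_lit 14235993916009878752)) (.cons (.rf (nat_lit 1177) (nat_lit 14235993950336062688)) (.cons (.rf (nat_lit 1177) (nat_lit 14242925368475486240)) (.cons (.rf (nat_lit 1177) (nat_lit 14242925437127854112)) (.cons (.kr (nat_lit 281474976710656) (nat_lit 309485009821345068724781056) (nat_lit 6) (nat_lit 0)) .nil)))))) .nil))))),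
 (.br (nat_lit 12) (nat_lit 0) (.cons (.rf (nat_lit 1174) (nat_lit 13123847998865016864)) (.cons (.rf (nat_lit 1174) (nat_lit 13124971699747620896)) (.cons (.br (nat_lit 7) (nat_lit 0) (.cons (.rf (nat_lit 1177) (nat_lit 14242959524133701664)) (.cons (.rf (nat_lit 1177) (nat_lit 14242925437127854112)) (.cons (.rf (nat_lit 1178) (nat_lit 14242959524133701664)) (.cons (.rf (nat_lit 1178) (nat_lit 14242925437127854112)) (.cons (.br (nat_lit 5) (nat_lit 0) (.cons (.rf (nat_lit 1177) (nat_lit 14242959455481333792)) (.cons (.rf (nat_lit 1177) (nat_lit 14242925368475486240)) (.cons (.rf (nat_lit 1178) (nat_lit 14242959455481333792)) (.cons (.rf (nat_lit 1178) (nat_lit 14242925368475486240)) (.cons (.rf (nat_lit 928) (nat_lit 14303893635)) .nil)))))) (.cons (.rf (nat_lit 928) (nat_lit 14303893635)) .nil))))))) (.cons (.rf (nat_lit 928) (nat_lit 14303893635)) .nil))))),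
 (.br (nat_lit 10) (nat_lit 1) (.cons (.rf (nat_lit 1045) (nat_lit 3593454357907488)) (.cons (.rf (nat_lit 1147) (nat_lit 3593454357907488)) (.cons (.rf (nat_lit 1147) (nat_lit 3593385705539616)) .nil)))),
 (.br (nat_lit 10) (nat_lit 1) (.cons (.rf (nat_lit 1180) (nat_lit 14242959524133701664)) (.cons (.rf (nat_lit 1180) (nat_lit 14242959524133700672)) (.cons (.rf (nat_lit 1180) (nat_lit 14242959352200797344)) (.cons (.rf (nat_lit 1180) (nat_lit 14242959352200795360)) .nil))))),
 (.br (nat_lit 6) (nat_lit 1) (.cons (.rf (nat_lit 1045) (nat_lit 10285081045436448)) (.cons (.rf (nat_lit 1147) (nat_lit 10285081045435456)) (.cons (.rf (nat_lit 1147) (nat_lit 10285012393067584)) .nil)))),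
 (.br (nat_lit 11) (nat_lit 0) (.cons (.rf (nat_lit 1181) (nat_lit 14242959524133701664)) (.cons (.br (nat_lit 2) (nat_lit 0) (.cons (.rf (nat_lit 1182) (nat_lit 14242959524133701664)) (.cons (.br (nat_lit 7) (nat_lit 0) (.cons (.rf (nat_lit 1182) (nat_lit 14242959352200797344)) (.cons (.rf (nat_lit 1182) (nat_lit 13121351943048174752)) (.cons (.rf (nat_lit 928) (nat_lit 14303893635)) .nil)))) (.cons (.rf (nat_lit 1182) (nat_lit 13121352114981079072)) (.cons (.rf (nat_lit 928) (nat_lit 14303893635)) .nil))))) (.cons (.kr (nat_lit 4294967296) (nat_lit 309485009821345068724781056) (nat_lit 4) (nat_lit 0)) (.cons (.rf (nat_lit 1174) (nat_lit 14234968276848674848)) (.cons (.rf (nat_lit 928) (nat_lit 14303893635)) .nil)))))),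
 (.br (nat_lit 10) (nat_lit 1) (.cons (.rf (nat_lit 1045) (nat_lit 3593454357907488)) (.cons (.rf (nat_lit 1147) (nat_lit 3593454357906496)) (.cons (.rf (nat_lit 1147) (nat_lit 3593385705538624)) (.cons (.kr (nat_lit 18446744073709551616) (nat_lit 309485009821345068724781056) (nat_lit 8) (nat_lit 0)) .nil))))),
 (.br (nat_lit 10) (nat_lit 1) (.cons (.rf (nat_lit 1184) (nat_lit 14242959524133700672)) (.cons (.rf (nat_lit 1184) (nat_lit 14242959524133701664)) (.cons (.rf (nat_lit 1184) (nat_lit 14242959352200795360)) (.cons (.rf (nat_lit 1184) (nat_lit 14242959352200797344)) (.cons (.kr (nat_lit 18446744073709551616) (nat_lit 309485009821345068724781056) (nat_lit 8) (nat_lit 0)) .nil)))))),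
 (.br (nat_lit 11) (nat_lit 0) (.cons (.rf (nat_lit 1181) (nat_lit 14242959524133701664)) (.cons (.rf (nat_lit 1185) (nat_lit 14242959524133701664)) (.cons (.rf (nat_lit 1174) (nat_lit 14238415240435107872)) (.cons (.rf (nat_lit 1174) (nat_lit 14234900106055059488)) (.cons (.rf (nat_lit 928) (nat_lit 14303893635)) .nil)))))),
 (.br (nat_lit 4) (nat_lit 1) (.cons (.rf (nat_lit 1179) (nat_lit 13123711665859332128)) (.cons (.rf (nat_lit 1179) (nat_lit 13123711665859331136)) (.cons (.rf (nat_lit 1179) (nat_lit 13123711493926427808)) (.cons (.rf (nat_lit 1179) (nat_lit 13123711493926425824)) (.cons (.kr (nat_lit 4294967296) (nat_lit 309485009821345068724781056) (nat_lit 4) (nat_lit 0)) .nil)))))),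
 (.br (nat_lit 6) (nat_lit 1) (.cons (.rf (nat_lit 1045) (nat_lit 10285081045436448)) (.cons (.rf (nat_lit 1147) (nat_lit 10285081045435456)) (.cons (.rf (nat_lit 1147) (nat_lit 10285012393067584)) .nil)))),
 (.br (nat_lit 11) (nat_lit 0) (.cons (.rf (nat_lit 1185) (nat_lit 14241864407335503904)) (.cons (.rf (nat_lit 1181) (nat_lit 14241864407335503904)) (.cons (.rf (nat_lit 1187) (nat_lit 14242959524133701664)) (.cons (.br (nat_lit 5) (nat_lit 0) (.cons (.br (nat_lit 2) (nat_lit 0) (.cons (.rf (nat_lit 1188) (nat_lit 14242959524133701664)) (.cons (.rf (nat_lit 1188) (nat_lit 13123711665859332128)) (.cons (.rf (nat_lit 928) (nat_lit 14303893635)) .nil)))) (.cons (.rf (nat_lit 1188) (nat_lit 14242959352200795360)) (.cons (.rf (nat_lit 1188) (nat_lit 13123711493926425824)) (.cons (.rf (nat_lit 928) (nat_lit 14303893635)) .nil))))) (.cons (.rf (nat_lit 928) (nat_lit 14303893635)) .nil)))))),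
 (.br (nat_lit 12) (nat_lit 0) (.cons (.rf (nat_lit 1187) (nat_lit 13123711665859332128)) (.cons (.br (nat_lit 11) (nat_lit 0) (.cons (.rf (nat_lit 1183) (nat_lit 14242959524133701664)) (.cons (.rf (nat_lit 1186) (nat_lit 14242959524133701664)) (.cons (.br (nat_lit 11) (nat_lit 0) (.cons (.rf (nat_lit 1183) (nat_lit 14242959524133701664)) (.cons (.rf (nat_lit 1185) (nat_lit 14242959524133701664)) (.cons (.rf (nat_lit 1187) (nat_lit 14242959524133701664)) (.cons (.rf (nat_lit 1187) (nat_lit 13119305919553079328)) (.cons (.rf (nat_lit 928) (nat_lit 14303893635)) .nil)))))) (.cons (.rf (nat_lit 1187) (nat_lit 14242959524133701664)) (.cons (.rf (nat_lit 1187) (nat_lit 13119305919553079328)) (.cons (.rf (nat_lit 928) (nat_lit 14303893635)) .nil))))))) (.cons (.br (nat_lit 11) (nat_lit 0) (.cons (.rf (nat_lit 1185) (nat_lit 14241864407335503904)) (.cons (.rf (nat_lit 1186) (nat_lit 14241864407335503904)) (.cons (.rf (nat_lit 1189) (nat_lit 14242959524133701664)) (.cons (.rf (nat_lit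 1187) (nat_lit 14242959524133701664)) (.cons (.br (nat_lit 11) (nat_lit 0) (.cons (.rf (nat_lit 1185) (nat_lit 14241864407335503904)) (.cons (.rf (nat_lit 1187) (nat_lit 14241864407335503904)) (.cons (.rf (nat_lit 1189) (nat_lit 14242959524133701664)) (.cons (.rf (nat_lit 1187) (nat_lit 14242959524133701664)) (.cons (.rf (nat_lit 928) (nat_lit 14303893635)) .nil)))))) (.cons (.rf (nat_lit 928) (nat_lit 14303893635)) .nil))))))) (.cons (.rf (nat_lit 928) (nat_lit 14303893635)) .nil))))),
 (.br (nat_lit 8) (nat_lit 1) (.cons (.rf (nat_lit 1147) (nat_lit 4619231125833760)) (.cons (.rf (nat_lit 1147) (nat_lit 4619231125832768)) (.cons (.rf (nat_lit 1045) (nat_lit 4619127845297312)) .nil)))),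
 (.br (nat_lit 8) (nat_lit 1) (.cons (.rf (nat_lit 1191) (nat_lit 14242959317874613408)) (.cons (.rf (nat_lit 1191) (nat_lit 14242959352200797344)) (.cons (.rf (nat_lit 1191) (nat_lit 14242959455481333792)) (.cons (.rf (nat_lit 1191) (nat_lit 14242959524133701664)) .nil))))),
 (.br (nat_lit 11) (nat_lit 0) (.cons (.rf (nat_lit 1192) (nat_lit 14242959524133701664)) (.cons (.rf (nat_lit 1181) (nat_lit 13121352114981079072)) (.cons (.kr (nat_lit 4294967296) (nat_lit 309485009821345068724781056) (nat_lit 4) (nat_lit 0)) (.cons (.rf (nat_lit 1187) (nat_lit 14240740706452899872)) (.cons (.rf (nat_lit 928) (nat_lit 14303893635)) .nil)))))),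
 (.br (nat_lit 7) (nat_lit 0) (.cons (.br (nat_lit 7) (nat_lit 0) (.cons (.ev (nat_lit 79538861190790863303812841473) (nat_lit 1)) (.cons (.rf (nat_lit 928) (nat_lit 14303893635)) .nil))) (.cons (.br (nat_lit 7) (nat_lit 0) (.cons (.ev (nat_lit 79538861190790863303812841473) (nat_lit 1)) (.cons (.rf (nat_lit 928) (nat_lit 14303893635)) .nil))) (.cons (.rf (nat_lit 928) (nat_lit 14303893635)) .nil)))),
 (.br (nat_lit 4) (nat_lit 1) (.cons (.kr (nat_lit 1208925819614629191483392) (nat_lit 18446744078004518912) (nat_lit 3) (nat_lit 0)) (.cons (.rf (nat_lit 1194) (nat_lit 14242959524133701664)) (.cons (.rf (nat_lit 1194) (nat_lit 14242959455481333792)) .nil)))),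
 (.br (nat_lit 4) (nat_lit 1) (.cons (.rf (nat_lit 1195) (nat_lit 14236198627140962336)) (.cons (.kr (nat_lit 1208925819614629191483392) (nat_lit 18446744078004518912) (nat_lit 3) (nat_lit 0)) (.cons (.br (nat_lit 2) (nat_lit 0) (.cons (.br (nat_lit 2) (nat_lit 0) (.cons (.ev (nat_lit 79538856449905297295738470401) (nat_lit 1)) (.cons (.rf (nat_lit 928) (nat_lit 14303893635)) .nil))) (.cons (.br (nat_lit 2) (nat_lit 0) (.cons (.ev (nat_lit 79538856449905297295738470401) (nat_lit 1)) (.cons (.rf (nat_lit 928) (nat_lit 14303893635)) .nil))) (.cons (.rf (nat_lit 928) (nat_lit 14303893635)) .nil)))) .nil)))),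
 (.br (nat_lit 10) (nat_lit 1) (.cons (.rf (nat_lit 1195) (nat_lit 14242959524133701664)) (.cons (.rf (nat_lit 1196) (nat_lit 14242959524133701664)) (.cons (.rf (nat_lit 1196) (nat_lit 14242959455481333792)) .nil))))]

theorem c40 : chkAll C T R L40 (nat_lit 1165) = true := by decide +kernel

theorem l40 : (nat_lit 1165) + L40.length = (nat_lit 1198) := by decide +kernel

/-- part of the certificates -/
def L41 : List Prf := [(.br (nat_lit 5) (nat_lit 0) (.cons (.br (nat_lit 2) (nat_lit 0) (.cons (.kr (nat_lit 18446744078004518912) (nat_lit 4722366764344621924352) (nat_lit 4) (nat_lit 0)) (.cons (.br (nat_lit 7) (nat_lit 0) (.cons (.rf (nat_lit 1158) (nat_lit 14242925368475486240)) (.cons (.rf (nat_lit 928) (nat_lit 14303893635)) .nil))) (.cons (.rf (nat_lit 928) (nat_lit 14303893635)) .nil)))) (.cons (.br (nat_lit 2) (nat_lit 0) (.cons (.kr (nat_lit 18446744078004518912) (nat_lit 4722366764344621924352) (nat_lit 4) (nat_lit 0)) (.cons (.br (nat_lit 1) (nat_lit 0) (.cons (.ev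 (nat_lit 79537652264899192184406868225) (nat_lit 1)) (.cons (.rf (nat_lit 928) (nat_lit 14303893635)) .nil))) (.cons (.rf (nat_lit 928) (nat_lit 14303893635)) .nil)))) (.cons (.rf (nat_lit 1197) (nat_lit 13123711493926427808)) (.cons (.rf (nat_lit 928) (nat_lit 14303893635)) .nil))))),
 (.br (nat_lit 5) (nat_lit 0) (.cons (.rf (nat_lit 1198) (nat_lit 14242959524133701664)) (.cons (.ev (nat_lit 79537647542532427835506688001) (nat_lit 1)) (.cons (.rf (nat_lit 1198) (nat_lit 14236198627140961344)) (.cons (.rf (nat_lit 928) (nat_lit 14303893635)) .nil))))),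
 (.br (nat_lit 5) (nat_lit 0) (.cons (.rf (nat_lit 1198) (nat_lit 14242959524133701664)) (.cons (.rf (nat_lit 1199) (nat_lit 14242959524133701664)) (.cons (.br (nat_lit 7) (nat_lit 0) (.cons (.rf (nat_lit 1198) (nat_lit 14242959455481333792)) (.cons (.rf (nat_lit 1199) (nat_lit 14242959455481333792)) (.cons (.rf (nat_lit 1198) (nat_lit 14236198558488593472)) (.cons (.rf (nat_lit 928) (nat_lit 14303893635)) .nil))))) (.cons (.rf (nat_lit 1198) (nat_lit 14236198627140961344)) (.cons (.rf (nat_lit 928) (nat_lit 14303893635)) .nil)))))),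
 (.br (nat_lit 1) (nat_lit 0) (.cons (.br (nat_lit 2) (nat_lit 0) (.cons (.br (nat_lit 5) (nat_lit 0) (.cons (.ev (nat_lit 79538856468352042468976427265) (nat_lit 1)) (.cons (.rf (nat_lit 928) (nat_lit 14303893635)) .nil))) (.cons (.rf (nat_lit 1195) (nat_lit 13118075569260790848)) (.cons (.rf (nat_lit 928) (nat_lit 14303893635)) .nil)))) (.cons (.br (nat_lit 2) (nat_lit 0) (.cons (.br (nat_lit 5) (nat_lit 0) (.cons (.ev (nat_lit 79538856468352042468976427265) (nat_lit 1)) (.cons (.rf (nat_lit 928) (nat_lit 14303893635)) .nil))) (.cons (.rf (nat_lit 1195) (nat_lit 13118075569260790848)) (.cons (.rf (nat_lit 928) (nat_lit 14303893635)) .nil)))) (.cons (.rf (nat_lit 1200) (nat_lit 13118075569260791840)) (.cons (.rf (nat_lit 928) (nat_lit 14303893635)) .nil))))),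
 (.br (nat_lit 5) (nat_lit 0) (.cons (.kr (nat_lit 18446744078004518912) (nat_lit 4722366764344621924352) (nat_lit 4) (nat_lit 0)) (.cons (.rf (nat_lit 1200) (nat_lit 13118075397327887520)) (.cons (.rf (nat_lit 928) (nat_lit 14303893635)) .nil)))),
 (.br (nat_lit 7) (nat_lit 0) (.cons (.br (nat_lit 7) (nat_lit 0) (.cons (.rf (nat_lit 1202) (nat_lit 14242959524133701664)) (.cons (.rf (nat_lit 1195) (nat_lit 13123711493926425824)) (.cons (.rf (nat_lit 928) (nat_lit 14303893635)) .nil)))) (.cons (.br (nat_lit 7) (nat_lit 0) (.cons (.rf (nat_lit 1202) (nat_lit 14242959524133701664)) (.cons (.rf (nat_lit 1201) (nat_lit 14236198455208058016)) (.cons (.rf (nat_lit 928) (nat_lit 14303893635)) .nil)))) (.cons (.rf (nat_lit 1201) (nat_lit 14236198455208058016)) (.cons (.rf (nat_lit 928) (nat_lit 14303893635)) .nil))))),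
 (.br (nat_lit 2) (nat_lit 0) (.cons (.rf (nat_lit 1201) (nat_lit 14242959524133701664)) (.cons (.rf (nat_lit 1203) (nat_lit 14242959524133701664)) (.cons (.rf (nat_lit 1202) (nat_lit 14236198455208058016)) (.cons (.rf (nat_lit 928) (nat_lit 14303893635)) .nil))))),
 (.br (nat_lit 2) (nat_lit 0) (.cons (.rf (nat_lit 1201) (nat_lit 14242959524133701664)) (.cons (.rf (nat_lit 1203) (nat_lit 14242959524133701664)) (.cons (.rf (nat_lit 1204) (nat_lit 14242959524133701664)) (.cons (.br (nat_lit 2) (nat_lit 0) (.cons (.rf (nat_lit 1195) (nat_lit 13118075569260790848)) (.cons (.rf (nat_lit 1203) (nat_lit 14242959524133701664)) (.cons (.rf (nat_lit 1204) (nat_lit 14242959524133701664)) (.cons (.rf (nat_lit 928) (nat_lit 14303893635)) .nil))))) (.cons (.rf (nat_lit 928) (nat_lit 14303893635)) .nil)))))),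
 (.br (nat_lit 11) (nat_lit 0) (.cons (.rf (nat_lit 1192) (nat_lit 14242959524133701664)) (.cons (.br (nat_lit 8) (nat_lit 1) (.cons (.rf (nat_lit 1197) (nat_lit 14242959524133701664)) (.cons (.rf (nat_lit 1200) (nat_lit 14242959524133701664)) (.cons (.rf (nat_lit 1205) (nat_lit 14242959524133701664)) (.cons (.rf (nat_lit 1205) (nat_lit 14242959455481333792)) .nil))))) (.cons (.kr (nat_lit 4722366482869645213696) (nat_lit 79228162514264337593543950336) (nat_lit 9) (nat_lit 0)) (.cons (.rf (nat_lit 1185) (nat_lit 13123711665859332128)) (.cons (.rf (nat_lit 928) (nat_lit 14303893635)) .nil)))))),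
 (.br (nat_lit 12) (nat_lit 0) (.cons (.rf (nat_lit 1187) (nat_lit 13123711665859332128)) (.cons (.rf (nat_lit 1190) (nat_lit 14242959524133701664)) (.cons (.br (nat_lit 11) (nat_lit 0) (.cons (.rf (nat_lit 1193) (nat_lit 14242959524133701664)) (.cons (.rf (nat_lit 1206) (nat_lit 14242959524133701664)) (.cons (.br (nat_lit 11) (nat_lit 0) (.cons (.rf (nat_lit 1181) (nat_lit 13121352114981079072)) (.cons (.rf (nat_lit 1206) (nat_lit 14242959524133701664)) (.cons (.kr (nat_lit 4722366482869645213696) (nat_lit 79228162514264337593543950336) (nat_lit 9) (nat_lit 0)) (.cons (.rf (nat_lit 1181) (nat_lit 13121522532847224864)) (.cons (.rf (nat_lit 928) (nat_lit 14303893635)) .nil)))))) (.cons (.kr (nat_lit 4722366482869645213696) (nat_lit 79228162514264337593543950336) (nat_lit 9) (nat_lit 0)) (.cons (.br (nat_lit 4) (nat_lit 1) (.cons (.rf (nat_lit 1190) (nat_lit 13123711665859332128)) (.cons (.rf (nat_lit 1190) (nat_lit 13123711665859331136)) (.cons (.rf (nat_lit 1190) (nat_lit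 13123711493926427808)) (.cons (.rf (nat_lit 1190) (nat_lit 13123711493926425824)) (.cons (.rf (nat_lit 1187) (nat_lit 14240740706452899872)) .nil)))))) (.cons (.rf (nat_lit 928) (nat_lit 14303893635)) .nil))))))) (.cons (.rf (nat_lit 928) (nat_lit 14303893635)) .nil))))),
 (.br (nat_lit 12) (nat_lit 0) (.cons (.rf (nat_lit 1187) (nat_lit 13123711665859332128)) (.cons (.rf (nat_lit 1190) (nat_lit 14242959524133701664)) (.cons (.rf (nat_lit 1207) (nat_lit 14242959524133701664)) (.cons (.br (nat_lit 12) (nat_lit 0) (.cons (.rf (nat_lit 1187) (nat_lit 13123711665859332128)) (.cons (.rf (nat_lit 1190) (nat_lit 14242959524133701664)) (.cons (.rf (nat_lit 1207) (nat_lit 14242959524133701664)) (.cons (.rf (nat_lit 928) (nat_lit 14303893635)) .nil))))) (.cons (.rf (nat_lit 928) (nat_lit 14303893635)) .nil)))))),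
 (.br (nat_lit 9) (nat_lit 1) (.cons (.rf (nat_lit 1208) (nat_lit 13121352114981079072)) (.cons (.rf (nat_lit 1208) (nat_lit 13121352114981078080)) (.cons (.rf (nat_lit 1208) (nat_lit 13121351943048174752)) (.cons (.rf (nat_lit 1208) (nat_lit 13121351943048172768)) (.cons (.rf (nat_lit 1192) (nat_lit 14240740706452899872)) .nil)))))),
 (.br (nat_lit 10) (nat_lit 1) (.cons (.rf (nat_lit 1208) (nat_lit 13118075569260791840)) (.cons (.rf (nat_lit 1208) (nat_lit 13118075569260790848)) (.cons (.rf (nat_lit 1208) (nat_lit 13118075397327887520)) (.cons (.rf (nat_lit 1208) (nat_lit 13118075397327885536)) (.cons (.kr (nat_lit 1208925819614629174706176) (nat_lit 79228162514264337593543950336) (nat_lit 10) (nat_lit 0)) .nil)))))),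
 (.br (nat_lit 12) (nat_lit 0) (.cons (.rf (nat_lit 1208) (nat_lit 14242959524133701664)) (.cons (.rf (nat_lit 1208) (nat_lit 14242925437127854112)) (.cons (.br (nat_lit 11) (nat_lit 0) (.cons (.rf (nat_lit 1209) (nat_lit 14242959524133701664)) (.cons (.rf (nat_lit 1209) (nat_lit 14242925437127854112)) (.cons (.rf (nat_lit 1210) (nat_lit 14242959524133701664)) (.cons (.rf (nat_lit 1210) (nat_lit 14242925437127854112)) (.cons (.kr (nat_lit 1208925819614629174706176) (nat_lit 79228162514264337593543950336) (nat_lit 10) (nat_lit 0)) (.cons (.rf (nat_lit 928) (nat_lit 14303893635)) .nil))))))) (.cons (.rf (nat_lit 928) (nat_lit 14303893635)) .nil))))),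
 (.br (nat_lit 12) (nat_lit 0) (.cons (.rf (nat_lit 1208) (nat_lit 14242959524133701664)) (.cons (.rf (nat_lit 1208) (nat_lit 14242925437127854112)) (.cons (.rf (nat_lit 1211) (nat_lit 14242959524133701664)) (.cons (.br (nat_lit 12) (nat_lit 0) (.cons (.rf (nat_lit 1208) (nat_lit 14242959524133701664)) (.cons (.rf (nat_lit 1208) (nat_lit 14242925437127854112)) (.cons (.rf (nat_lit 1211) (nat_lit 14242959524133701664)) (.cons (.rf (nat_lit 928) (nat_lit 14303893635)) .nil))))) (.cons (.rf (nat_lit 928) (nat_lit 14303893635)) .nil)))))),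
 (.br (nat_lit 7) (nat_lit 0) (.cons (.ev (nat_lit 79229371458602754994272796673) (nat_lit 1)) (.cons (.rf (nat_lit 928) (nat_lit 14303893635)) .nil))),
 (.br (nat_lit 5) (nat_lit 0) (.cons (.br (nat_lit 2) (nat_lit 0) (.cons (.rf (nat_lit 1213) (nat_lit 14242959524133701664)) (.cons (.br (nat_lit 1) (nat_lit 0) (.cons (.rf (nat_lit 1213) (nat_lit 14242959524133700672)) (.cons (.rf (nat_lit 928) (nat_lit 14303893635)) .nil))) (.cons (.rf (nat_lit 928) (nat_lit 14303893635)) .nil)))) (.cons (.rf (nat_lit 928) (nat_lit 14303893635)) .nil))),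
 (.br (nat_lit 5) (nat_lit 0) (.cons (.rf (nat_lit 1214) (nat_lit 14242959524133701664)) (.cons (.br (nat_lit 5) (nat_lit 0) (.cons (.rf (nat_lit 1214) (nat_lit 14242959524133701664)) (.cons (.rf (nat_lit 928) (nat_lit 14303893635)) .nil))) (.cons (.rf (nat_lit 928) (nat_lit 14303893635)) .nil)))),
 (.br (nat_lit 5) (nat_lit 0) (.cons (.br (nat_lit 11) (nat_lit 0) (.cons (.kr (nat_lit 309485009821346168236408832) (nat_lit 79228162514336395187581878272) (nat_lit 5) (nat_lit 0)) (.cons (.rf (nat_lit 928) (nat_lit 14303893635)) .nil))) (.cons (.br (nat_lit 11) (nat_lit 0) (.cons (.kr (nat_lit 309485009821346168236408832) (nat_lit 79228162514336395187581878272) (nat_lit 5) (nat_lit 0)) (.cons (.rf (nat_lit 928) (nat_lit 14303893635)) .nil))) (.cons (.rf (nat_lit 928) (nat_lit 14303893635)) .nil)))),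
 (.br (nat_lit 5) (nat_lit 0) (.cons (.rf (nat_lit 1216) (nat_lit 14242959524133701664)) (.cons (.br (nat_lit 11) (nat_lit 0) (.cons (.kr (nat_lit 309485009821346168236408832) (nat_lit 79228162514336395187581878272) (nat_lit 5) (nat_lit 0)) (.cons (.rf (nat_lit 928) (nat_lit 14303893635)) .nil))) (.cons (.rf (nat_lit 928) (nat_lit 14303893635)) .nil)))),
 (.br (nat_lit 7) (nat_lit 0) (.cons (.rf (nat_lit 1215) (nat_lit 14242959524133701664)) (.cons (.br (nat_lit 5) (nat_lit 0) (.cons (.rf (nat_lit 1216) (nat_lit 14242959524133701664)) (.cons (.rf (nat_lit 1217) (nat_lit 14242959524133701664)) (.cons (.br (nat_lit 5) (nat_lit 0) (.cons (.rf (nat_lit 1216) (nat_lit 14242959524133701664)) (.cons (.rf (nat_lit 1217) (nat_lit 14242959524133701664)) (.cons (.rf (nat_lit 928) (nat_lit 14303893635)) .nil)))) (.cons (.rf (nat_lit 928) (nat_lit 14303893635)) .nil))))) (.cons (.rf (nat_lit 928) (nat_lit 14303893635)) .nil)))),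
 (.br (nat_lit 7) (nat_lit 0) (.cons (.rf (nat_lit 1215) (nat_lit 14242959524133701664)) (.cons (.rf (nat_lit 1218) (nat_lit 14242959524133701664)) (.cons (.br (nat_lit 7) (nat_lit 0) (.cons (.rf (nat_lit 1215) (nat_lit 14242959524133701664)) (.cons (.rf (nat_lit 1218) (nat_lit 14242959524133701664)) (.cons (.rf (nat_lit 928) (nat_lit 14303893635)) .nil)))) (.cons (.rf (nat_lit 928) (nat_lit 14303893635)) .nil))))),
 (.br (nat_lit 2) (nat_lit 0) (.cons (.br (nat_lit 1) (nat_lit 0) (.cons (.kr (nat_lit 256) (nat_lit 65536) (nat_lit 1) (nat_lit 0)) (.cons (.rf (nat_lit 928) (nat_lit 14303893635)) .nil))) (.cons (.rf (nat_lit 928) (nat_lit 14303893635)) .nil))),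
 (.br (nat_lit 5) (nat_lit 0) (.cons (.rf (nat_lit 1220) (nat_lit 14242959524133701664)) (.cons (.br (nat_lit 5) (nat_lit 0) (.cons (.rf (nat_lit 1220) (nat_lit 14242959524133701664)) (.cons (.rf (nat_lit 928) (nat_lit 14303893635)) .nil))) (.cons (.rf (nat_lit 928) (nat_lit 14303893635)) .nil)))),
 (.br (nat_lit 5) (nat_lit 0) (.cons (.rf (nat_lit 1220) (nat_lit 14242959455481333792)) (.cons (.br (nat_lit 5) (nat_lit 0) (.cons (.rf (nat_lit 1220) (nat_lit 14242959455481333792)) (.cons (.rf (nat_lit 928) (nat_lit 14303893635)) .nil))) (.cons (.rf (nat_lit 928) (nat_lit 14303893635)) .nil)))),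
 (.br (nat_lit 7) (nat_lit 0) (.cons (.ev (nat_lit 4740885566012386181121) (nat_lit 1)) (.cons (.br (nat_lit 5) (nat_lit 0) (.cons (.rf (nat_lit 928) (nat_lit 14303893635)) .nil)) (.cons (.rf (nat_lit 928) (nat_lit 14303893635)) .nil)))),
 (.br (nat_lit 5) (nat_lit 0) (.cons (.rf (nat_lit 1223) (nat_lit 14242959524133701664)) (.cons (.br (nat_lit 5) (nat_lit 0) (.cons (.rf (nat_lit 1223) (nat_lit 14242959524133701664)) (.cons (.rf (nat_lit 928) (nat_lit 14303893635)) .nil))) (.cons (.rf (nat_lit 928) (nat_lit 14303893635)) .nil)))),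
 (.br (nat_lit 7) (nat_lit 0) (.cons (.rf (nat_lit 1224) (nat_lit 14242959524133701664)) (.cons (.br (nat_lit 5) (nat_lit 0) (.cons (.br (nat_lit 5) (nat_lit 0) (.cons (.kr (nat_lit 309485009821346168236408832) (nat_lit 79228162514336395187581878272) (nat_lit 5) (nat_lit 0)) (.cons (.rf (nat_lit 928) (nat_lit 14303893635)) .nil))) (.cons (.br (nat_lit 5) (nat_lit 0) (.cons (.kr (nat_lit 309485009821346168236408832) (nat_lit 79228162514336395187581878272) (nat_lit 5) (nat_lit 0)) (.cons (.rf (nat_lit 928) (nat_lit 14303893635)) .nil))) (.cons (.rf (nat_lit 928) (nat_lit 14303893635)) .nil)))) (.cons (.rf (nat_lit 928) (nat_lit 14303893635)) .nil)))),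
 (.br (nat_lit 11) (nat_lit 0) (.cons (.rf (nat_lit 1219) (nat_lit 14242959524133701664)) (.cons (.br (nat_lit 7) (nat_lit 0) (.cons (.rf (nat_lit 1221) (nat_lit 14242959524133701664)) (.cons (.rf (nat_lit 1222) (nat_lit 14242959524133701664)) (.cons (.br (nat_lit 7) (nat_lit 0) (.cons (.rf (nat_lit 1221) (nat_lit 14242959524133701664)) (.cons (.rf (nat_lit 1222) (nat_lit 14242959524133701664)) (.cons (.rf (nat_lit 928) (nat_lit 14303893635)) .nil)))) (.cons (.rf (nat_lit 928) (nat_lit 14303893635)) .nil))))) (.cons (.br (nat_lit 7) (nat_lit 0) (.cons (.rf (nat_lit 1224) (nat_lit 14242959524133701664)) (.cons (.rf (nat_lit 1225) (nat_lit 14242959524133701664)) (.cons (.br (nat_lit 7) (nat_lit 0) (.cons (.rf (nat_lit 1224) (nat_lit 14242959524133701664)) (.cons (.rf (nat_lit 1225) (nat_lit 14242959524133701664)) (.cons (.rf (nat_lit 928) (nat_lit 14303893635)) .nil)))) (.cons (.rf (nat_lit 928) (nat_lit 14303893635)) .nil))))) (.cons (.rf (nat_lit 928) (nat_lit 14303893635))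 .nil))))),
 (.br (nat_lit 1) (nat_lit 0) (.cons (.ev (nat_lit 309489750634853487056257281) (nat_lit 1)) (.cons (.rf (nat_lit 928) (nat_lit 14303893635)) .nil))),
 (.br (nat_lit 5) (nat_lit 0) (.cons (.rf (nat_lit 1227) (nat_lit 14242959524133701664)) (.cons (.br (nat_lit 5) (nat_lit 0) (.cons (.rf (nat_lit 1227) (nat_lit 14242959524133701664)) (.cons (.rf (nat_lit 928) (nat_lit 14303893635)) .nil))) (.cons (.rf (nat_lit 928) (nat_lit 14303893635)) .nil)))),
 (.br (nat_lit 1) (nat_lit 0) (.cons (.br (nat_lit 2) (nat_lit 0) (.cons (.kr (nat_lit 256) (nat_lit 65536) (nat_lit 1) (nat_lit 0)) (.cons (.ev (nat_lit 18447025548686327809) (nat_lit 1)) (.cons (.rf (nat_lit 928) (nat_lit 14303893635)) .nil)))) (.cons (.ev (nat_lit 18447025548686262529) (nat_lit 1)) (.cons (.rf (nat_lit 928) (nat_lit 14303893635)) .nil)))),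
 (.br (nat_lit 7) (nat_lit 0) (.cons (.rf (nat_lit 1228) (nat_lit 14242959524133701664)) (.cons (.kr (nat_lit 4722366482869645213696) (nat_lit 309485009821345068724781056) (nat_lit 9) (nat_lit 0)) (.cons (.br (nat_lit 8) (nat_lit 1) (.cons (.ev (nat_lit 79538856449905578766420148481) (nat_lit 1)) (.cons (.ev (nat_lit 79538856449905578766420213761) (nat_lit 1)) (.cons (.rf (nat_lit 1229) (nat_lit 14242959524133701664)) .nil)))) (.cons (.rf (nat_lit 928) (nat_lit 14303893635)) .nil))))),
 (.br (nat_lit 7) (nat_lit 0) (.cons (.rf (nat_lit 1228) (nat_lit 14242959524133701664)) (.cons (.kr (nat_lit 4722366482869645213696) (nat_lit 309485009821345068724781056) (nat_lit 9) (nat_lit 0)) (.cons (.br (nat_lit 5) (nat_lit 0) (.cons (.rf (nat_lit 1229) (nat_lit 14242959455481333792)) (.cons (.br (nat_lit 5) (nat_lit 0) (.cons (.rf (nat_lit 1229) (nat_lit 14242959455481333792)) (.cons (.rf (nat_lit 928) (nat_lit 14303893635)) .nil))) (.cons (.rf (nat_lit 928) (nat_lit 14303893635)) .nil))))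 (.cons (.rf (nat_lit 928) (nat_lit 14303893635)) .nil)))))]

theorem c41 : chkAll C T R L41 (nat_lit 1198) = true := by decide +kernel

theorem l41 : (nat_lit 1198) + L41.length = (nat_lit 1232) := by decide +kernel

/-- part of the certificates -/
def L42 : List Prf := [(.br (nat_lit 11) (nat_lit 0) (.cons (.rf (nat_lit 1219) (nat_lit 14242959524133701664)) (.cons (.rf (nat_lit 1226) (nat_lit 14242959524133701664)) (.cons (.br (nat_lit 7) (nat_lit 0) (.cons (.rf (nat_lit 1230) (nat_lit 14242959524133701664)) (.cons (.rf (nat_lit 1231) (nat_lit 14242959524133701664)) (.cons (.kr (nat_lit 4722366482869645213696) (nat_lit 309485009821345068724781056) (nat_lit 9) (nat_lit 0)) (.cons (.br (nat_lit 7) (nat_lit 0) (.cons (.rf (nat_lit 1230) (nat_lit 14242959524133701664)) (.cons (.rf (nat_lit 1231) (nat_lit 14242959524133701664)) (.cons (.kr (nat_lit 4722366482869645213696) (nat_lit 309485009821345068724781056) (nat_lit 9) (nat_lit 0)) (.cons (.rf (nat_lit 928) (nat_lit 14303893635))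 .nil))))) (.cons (.rf (nat_lit 928) (nat_lit 14303893635)) .nil)))))) (.cons (.rf (nat_lit 928) (nat_lit 14303893635)) .nil))))),
 (.br (nat_lit 11) (nat_lit 0) (.cons (.rf (nat_lit 1219) (nat_lit 14242959524133701664)) (.cons (.rf (nat_lit 1226) (nat_lit 14242959524133701664)) (.cons (.rf (nat_lit 1232) (nat_lit 14242959524133701664)) (.cons (.br (nat_lit 11) (nat_lit 0) (.cons (.rf (nat_lit 1219) (nat_lit 14242959524133701664)) (.cons (.rf (nat_lit 1226) (nat_lit 14242959524133701664)) (.cons (.rf (nat_lit 1232) (nat_lit 14242959524133701664)) (.cons (.rf (nat_lit 928) (nat_lit 14303893635)) .nil))))) (.cons (.rf (nat_lit 928) (nat_lit 14303893635)) .nil)))))),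
 (.br (nat_lit 5) (nat_lit 0) (.cons (.br (nat_lit 7) (nat_lit 0) (.cons (.kr (nat_lit 309485009821346168236408832) (nat_lit 79228162514336395187581878272) (nat_lit 5) (nat_lit 0)) (.cons (.rf (nat_lit 928) (nat_lit 14303893635)) .nil))) (.cons (.rf (nat_lit 928) (nat_lit 14303893635)) .nil))),
 (.br (nat_lit 7) (nat_lit 0) (.cons (.rf (nat_lit 1234) (nat_lit 14242959524133701664)) (.cons (.br (nat_lit 7) (nat_lit 0) (.cons (.rf (nat_lit 1234) (nat_lit 14242959524133701664)) (.cons (.rf (nat_lit 928) (nat_lit 14303893635)) .nil))) (.cons (.rf (nat_lit 928) (nat_lit 14303893635)) .nil)))),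
 (.br (nat_lit 2) (nat_lit 0) (.cons (.br (nat_lit 7) (nat_lit 0) (.cons (.rf (nat_lit 928) (nat_lit 14303893635)) .nil)) (.cons (.rf (nat_lit 928) (nat_lit 14303893635)) .nil))),
 (.br (nat_lit 7) (nat_lit 0) (.cons (.rf (nat_lit 1236) (nat_lit 14242959524133701664)) (.cons (.br (nat_lit 7) (nat_lit 0) (.cons (.rf (nat_lit 1236) (nat_lit 14242959524133701664)) (.cons (.rf (nat_lit 928) (nat_lit 14303893635)) .nil))) (.cons (.rf (nat_lit 928) (nat_lit 14303893635)) .nil)))),
 (.br (nat_lit 1) (nat_lit 0) (.cons (.ev (nat_lit 309489750634572016374513921) (nat_lit 1)) (.cons (.rf (nat_lit 928) (nat_lit 14303893635)) .nil))),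
 (.br (nat_lit 5) (nat_lit 0) (.cons (.rf (nat_lit 1238) (nat_lit 14242959524133701664)) (.cons (.br (nat_lit 5) (nat_lit 0) (.cons (.rf (nat_lit 1238) (nat_lit 14242959524133701664)) (.cons (.rf (nat_lit 928) (nat_lit 14303893635)) .nil))) (.cons (.rf (nat_lit 928) (nat_lit 14303893635)) .nil)))),
 (.br (nat_lit 5) (nat_lit 0) (.cons (.br (nat_lit 5) (nat_lit 0) (.cons (.kr (nat_lit 309485009821345073019748352) (nat_lit 4722366764344621924352) (nat_lit 4) (nat_lit 0)) (.cons (.rf (nat_lit 928) (nat_lit 14303893635)) .nil))) (.cons (.br (nat_lit 5) (nat_lit 0) (.cons (.kr (nat_lit 309485009821345073019748352) (nat_lit 4722366764344621924352) (nat_lit 4) (nat_lit 0)) (.cons (.rf (nat_lit 928) (nat_lit 14303893635)) .nil))) (.cons (.rf (nat_lit 928) (nat_lit 14303893635)) .nil)))),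
 (.br (nat_lit 11) (nat_lit 0) (.cons (.rf (nat_lit 1233) (nat_lit 14242959524133701664)) (.cons (.br (nat_lit 5) (nat_lit 0) (.cons (.rf (nat_lit 1235) (nat_lit 14242959524133701664)) (.cons (.br (nat_lit 5) (nat_lit 0) (.cons (.rf (nat_lit 1235) (nat_lit 14242959524133701664)) (.cons (.rf (nat_lit 1237) (nat_lit 14242959524133701664)) (.cons (.rf (nat_lit 928) (nat_lit 14303893635)) .nil)))) (.cons (.br (nat_lit 5) (nat_lit 0) (.cons (.rf (nat_lit 1235) (nat_lit 14242959524133701664)) (.cons (.rf (nat_lit 1237) (nat_lit 14242959524133701664)) (.cons (.rf (nat_lit 928) (nat_lit 14303893635)) .nil)))) (.cons (.rf (nat_lit 928) (nat_lit 14303893635)) .nil))))) (.cons (.br (nat_lit 7) (nat_lit 0) (.cons (.br (nat_lit 7) (nat_lit 0) (.cons (.rf (nat_lit 1239) (nat_lit 14242959524133701664)) (.cons (.ev (nat_lit 79229371440156009821068328961) (nat_lit 1)) (.cons (.rf (nat_lit 928) (nat_lit 14303893635)) .nil)))) (.cons (.br (nat_lit 7) (nat_lit 0) (.cons (.rf (nat_lit 1239) (nat_lit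 14242959524133701664)) (.cons (.rf (nat_lit 1240) (nat_lit 14242959524133701664)) (.cons (.rf (nat_lit 928) (nat_lit 14303893635)) .nil)))) (.cons (.br (nat_lit 7) (nat_lit 0) (.cons (.ev (nat_lit 79229371440156009821068328961) (nat_lit 1)) (.cons (.rf (nat_lit 1240) (nat_lit 14242959524133701664)) (.cons (.rf (nat_lit 928) (nat_lit 14303893635)) .nil)))) (.cons (.rf (nat_lit 928) (nat_lit 14303893635)) .nil))))) (.cons (.rf (nat_lit 928) (nat_lit 14303893635)) .nil))))),
 (.br (nat_lit 2) (nat_lit 0) (.cons (.ev (nat_lit 79538856449905297295738470401) (nat_lit 1)) (.cons (.rf (nat_lit 928) (nat_lit 14303893635)) .nil))),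
 (.br (nat_lit 5) (nat_lit 0) (.cons (.br (nat_lit 10) (nat_lit 1) (.cons (.kr (nat_lit 158456325028528675187087900928) (nat_lit 18446745173237956608) (nat_lit 1) (nat_lit 0)) (.cons (.kr (nat_lit 158456325028528675187087966208) (nat_lit 18446745173237956608) (nat_lit 2) (nat_lit 0)) (.cons (.br (nat_lit 7) (nat_lit 0) (.cons (.kr (nat_lit 309485009821346168236408832) (nat_lit 79228162514336395187581878272) (nat_lit 5) (nat_lit 0)) (.cons (.rf (nat_lit 928) (nat_lit 14303893635)) .nil))) .nil)))) (.cons (.ev (nat_lit 309489732187829042193367041) (nat_lit 1)) (.cons (.br (nat_lit 1) (nat_lit 0) (.cons (.rf (nat_lit 1242) (nat_lit 14242959524133701664)) (.cons (.ev (nat_lit 79538856449905297295738405121) (nat_lit 1)) (.cons (.rf (nat_lit 928) (nat_lit 14303893635)) .nil)))) (.cons (.rf (nat_lit 928) (nat_lit 14303893635)) .nil))))),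
 (.br (nat_lit 7) (nat_lit 0) (.cons (.ev (nat_lit 4740885284541704437761) (nat_lit 1)) (.cons (.ev (nat_lit 79229371440156009821068328961) (nat_lit 1)) (.cons (.rf (nat_lit 928) (nat_lit 14303893635)) .nil)))),
 (.br (nat_lit 7) (nat_lit 0) (.cons (.rf (nat_lit 1244) (nat_lit 14242959524133701664)) (.cons (.br (nat_lit 7) (nat_lit 0) (.cons (.ev (nat_lit 310693935640960801722859521) (nat_lit 1)) (.cons (.rf (nat_lit 928) (nat_lit 14303893635)) .nil))) (.cons (.rf (nat_lit 928) (nat_lit 14303893635)) .nil)))),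
 (.br (nat_lit 5) (nat_lit 0) (.cons (.rf (nat_lit 1243) (nat_lit 14242959524133701664)) (.cons (.rf (nat_lit 1245) (nat_lit 14242959524133701664)) (.cons (.br (nat_lit 1) (nat_lit 0) (.cons (.kr (nat_lit 18446744073709551872) (nat_lit 1099528404992) (nat_lit 1) (nat_lit 0)) (.cons (.br (nat_lit 2) (nat_lit 0) (.cons (.kr (nat_lit 18446744073709617152) (nat_lit 1099528404992) (nat_lit 2) (nat_lit 0)) (.cons (.rf (nat_lit 928) (nat_lit 14303893635)) .nil))) (.cons (.rf (nat_lit 928) (nat_lit 14303893635)) .nil)))) (.cons (.rf (nat_lit 928) (nat_lit 14303893635)) .nil))))),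
 (.br (nat_lit 7) (nat_lit 0) (.cons (.ev (nat_lit 4740885284541704437761) (nat_lit 1)) (.cons (.ev (nat_lit 309489732260167007401410561) (nat_lit 1)) (.cons (.rf (nat_lit 928) (nat_lit 14303893635)) .nil)))),
 (.br (nat_lit 5) (nat_lit 0) (.cons (.ev (nat_lit 309489732187829042193367041) (nat_lit 1)) (.cons (.rf (nat_lit 1245) (nat_lit 14242959524133701664)) (.cons (.br (nat_lit 7) (nat_lit 0) (.cons (.rf (nat_lit 1244) (nat_lit 14242959524133701664)) (.cons (.rf (nat_lit 1247) (nat_lit 14242959524133701664)) (.cons (.rf (nat_lit 928) (nat_lit 14303893635)) .nil)))) (.cons (.rf (nat_lit 928) (nat_lit 14303893635)) .nil))))),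
 (.br (nat_lit 11) (nat_lit 0) (.cons (.rf (nat_lit 1233) (nat_lit 14242959524133701664)) (.cons (.rf (nat_lit 1241) (nat_lit 14242959524133701664)) (.cons (.br (nat_lit 5) (nat_lit 0) (.cons (.rf (nat_lit 1243) (nat_lit 14242959524133701664)) (.cons (.rf (nat_lit 1246) (nat_lit 14242959524133701664)) (.cons (.rf (nat_lit 1248) (nat_lit 14242959524133701664)) (.cons (.br (nat_lit 5) (nat_lit 0) (.cons (.rf (nat_lit 1243) (nat_lit 14242959524133701664)) (.cons (.rf (nat_lit 1246) (nat_lit 14242959524133701664)) (.cons (.rf (nat_lit 1248) (nat_lit 14242959524133701664)) (.cons (.rf (nat_lit 928) (nat_lit 14303893635)) .nil))))) (.cons (.rf (nat_lit 928) (nat_lit 14303893635)) .nil)))))) (.cons (.rf (nat_lit 928) (nat_lit 14303893635)) .nil))))),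
 (.br (nat_lit 11) (nat_lit 0) (.cons (.rf (nat_lit 1233) (nat_lit 14242959524133701664)) (.cons (.rf (nat_lit 1241) (nat_lit 14242959524133701664)) (.cons (.rf (nat_lit 1249) (nat_lit 14242959524133701664)) (.cons (.br (nat_lit 11) (nat_lit 0) (.cons (.rf (nat_lit 1233) (nat_lit 14242959524133701664)) (.cons (.rf (nat_lit 1241) (nat_lit 14242959524133701664)) (.cons (.rf (nat_lit 1249) (nat_lit 14242959524133701664)) (.cons (.rf (nat_lit 928) (nat_lit 14303893635)) .nil))))) (.cons (.rf (nat_lit 928) (nat_lit 14303893635)) .nil)))))),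
 (.br (nat_lit 5) (nat_lit 0) (.cons (.kr (nat_lit 18446744078004518912) (nat_lit 4722366764344621924352) (nat_lit 4) (nat_lit 0)) (.cons (.br (nat_lit 1) (nat_lit 0) (.cons (.ev (nat_lit 310698658079782736070967553) (nat_lit 1)) (.cons (.rf (nat_lit 928) (nat_lit 14303893635)) .nil))) (.cons (.rf (nat_lit 928) (nat_lit 14303893635)) .nil)))),
 (.br (nat_lit 5) (nat_lit 0) (.cons (.kr (nat_lit 18446744078004518912) (nat_lit 4722366764344621924352) (nat_lit 4) (nat_lit 0)) (.cons (.br (nat_lit 1) (nat_lit 0) (.cons (.ev (nat_lit 310698658079782736070967553) (nat_lit 1)) (.cons (.rf (nat_lit 928) (nat_lit 14303893635)) .nil))) (.cons (.rf (nat_lit 928) (nat_lit 14303893635)) .nil)))),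
 (.br (nat_lit 7) (nat_lit 0) (.cons (.br (nat_lit 5) (nat_lit 0) (.cons (.rf (nat_lit 1251) (nat_lit 14242959524133701664)) (.cons (.br (nat_lit 5) (nat_lit 0) (.cons (.rf (nat_lit 1251) (nat_lit 14242959524133701664)) (.cons (.rf (nat_lit 928) (nat_lit 14303893635)) .nil))) (.cons (.rf (nat_lit 928) (nat_lit 14303893635)) .nil)))) (.cons (.br (nat_lit 5) (nat_lit 0) (.cons (.rf (nat_lit 1252) (nat_lit 14242959524133701664)) (.cons (.br (nat_lit 5) (nat_lit 0) (.cons (.rf (nat_lit 1252) (nat_lit 14242959524133701664)) (.cons (.rf (nat_lit 928) (nat_lit 14303893635)) .nil))) (.cons (.rf (nat_lit 928) (nat_lit 14303893635)) .nil)))) (.cons (.ev (nat_lit 79229371440156009821068328961) (nat_lit 1)) (.cons (.rf (nat_lit 928) (nat_lit 14303893635)) .nil))))),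
 (.br (nat_lit 4) (nat_lit 1) (.cons (.ev (nat_lit 79228162514264619068520661249) (nat_lit 1)) (.cons (.ev (nat_lit 79228162514264619068520726529) (nat_lit 1)) (.cons (.br (nat_lit 7) (nat_lit 0) (.cons (.br (nat_lit 5) (nat_lit 0) (.cons (.br (nat_lit 2) (nat_lit 0) (.cons (.rf (nat_lit 928) (nat_lit 14303893635)) .nil)) (.cons (.rf (nat_lit 928) (nat_lit 14303893635)) .nil))) (.cons (.kr (nat_lit 1208925819614629174706176) (nat_lit 309485009821345068724781056) (nat_lit 10) (nat_lit 0)) (.cons (.rf (nat_lit 928) (nat_lit 14303893635)) .nil)))) (.cons (.rf (nat_lit 1253) (nat_lit 14242959524133701664)) .nil))))),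
 (.br (nat_lit 11) (nat_lit 0) (.cons (.rf (nat_lit 1233) (nat_lit 14242959524133701664)) (.cons (.rf (nat_lit 1250) (nat_lit 14242959524133701664)) (.cons (.br (nat_lit 7) (nat_lit 0) (.cons (.rf (nat_lit 1253) (nat_lit 14242959524133701664)) (.cons (.rf (nat_lit 1254) (nat_lit 14242959524133701664)) (.cons (.br (nat_lit 7) (nat_lit 0) (.cons (.rf (nat_lit 1253) (nat_lit 14242959524133701664)) (.cons (.rf (nat_lit 1254) (nat_lit 14242959524133701664)) (.cons (.kr (nat_lit 1208925819614629174706176) (nat_lit 309485009821345068724781056) (nat_lit 10) (nat_lit 0)) (.cons (.rf (nat_lit 928) (nat_lit 14303893635)) .nil))))) (.cons (.kr (nat_lit 1208925819614629174706176) (nat_lit 309485009821345068724781056) (nat_lit 10) (nat_lit 0)) (.cons (.rf (nat_lit 928) (nat_lit 14303893635)) .nil)))))) (.cons (.rf (nat_lit 928) (nat_lit 14303893635)) .nil))))),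
 (.br (nat_lit 11) (nat_lit 0) (.cons (.rf (nat_lit 1233) (nat_lit 14242959524133701664)) (.cons (.rf (nat_lit 1250) (nat_lit 14242959524133701664)) (.cons (.rf (nat_lit 1255) (nat_lit 14242959524133701664)) (.cons (.br (nat_lit 11) (nat_lit 0) (.cons (.rf (nat_lit 1233) (nat_lit 14242959524133701664)) (.cons (.rf (nat_lit 1250) (nat_lit 14242959524133701664)) (.cons (.rf (nat_lit 1255) (nat_lit 14242959524133701664)) (.cons (.rf (nat_lit 928) (nat_lit 14303893635)) .nil))))) (.cons (.rf (nat_lit 928) (nat_lit 14303893635)) .nil)))))),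
 (.br (nat_lit 11) (nat_lit 0) (.cons (.rf (nat_lit 1233) (nat_lit 14242959524133701664)) (.cons (.rf (nat_lit 1250) (nat_lit 14242959524133701664)) (.cons (.rf (nat_lit 1256) (nat_lit 14242959524133701664)) (.cons (.br (nat_lit 11) (nat_lit 0) (.cons (.rf (nat_lit 1233) (nat_lit 14242959524133701664)) (.cons (.rf (nat_lit 1250) (nat_lit 14242959524133701664)) (.cons (.rf (nat_lit 1256) (nat_lit 14242959524133701664)) (.cons (.rf (nat_lit 928) (nat_lit 14303893635)) .nil))))) (.cons (.rf (nat_lit 928) (nat_lit 14303893635)) .nil)))))),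
 (.br (nat_lit 11) (nat_lit 0) (.cons (.rf (nat_lit 1233) (nat_lit 14242959524133701664)) (.cons (.rf (nat_lit 1250) (nat_lit 14242959524133701664)) (.cons (.rf (nat_lit 1256) (nat_lit 14242959524133701664)) (.cons (.rf (nat_lit 1257) (nat_lit 14242959524133701664)) (.cons (.br (nat_lit 11) (nat_lit 0) (.cons (.rf (nat_lit 1233) (nat_lit 14242959524133701664)) (.cons (.rf (nat_lit 1250) (nat_lit 14242959524133701664)) (.cons (.rf (nat_lit 1256) (nat_lit 14242959524133701664)) (.cons (.rf (nat_lit 1257) (nat_lit 14242959524133701664)) (.cons (.rf (nat_lit 928) (nat_lit 14303893635)) .nil)))))) (.cons (.rf (nat_lit 928) (nat_lit 14303893635)) .nil))))))),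
 (.br (nat_lit 5) (nat_lit 0) (.cons (.kr (nat_lit 309485009821346168236408832) (nat_lit 79228162514336395187581878272) (nat_lit 5) (nat_lit 0)) (.cons (.rf (nat_lit 928) (nat_lit 14303893635)) .nil))),
 (.br (nat_lit 7) (nat_lit 0) (.cons (.rf (nat_lit 1259) (nat_lit 14242959524133701664)) (.cons (.br (nat_lit 5) (nat_lit 0) (.cons (.kr (nat_lit 9444732966838802055168) (nat_lit 79537647524157740256306659328) (nat_lit 5) (nat_lit 0)) (.cons (.rf (nat_lit 928) (nat_lit 14303893635)) .nil))) (.cons (.rf (nat_lit 928) (nat_lit 14303893635)) .nil)))),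
 (.br (nat_lit 7) (nat_lit 0) (.cons (.br (nat_lit 7) (nat_lit 0) (.cons (.rf (nat_lit 1260) (nat_lit 14242959524133701664)) (.cons (.ev (nat_lit 310693935713298766930903041) (nat_lit 1)) (.cons (.rf (nat_lit 928) (nat_lit 14303893635)) .nil)))) (.cons (.rf (nat_lit 1260) (nat_lit 14242959524133701664)) (.cons (.br (nat_lit 7) (nat_lit 0) (.cons (.ev (nat_lit 310693935713298766930903041) (nat_lit 1)) (.cons (.rf (nat_lit 1260) (nat_lit 14242959524133701664)) (.cons (.rf (nat_lit 928) (nat_lit 14303893635)) .nil)))) (.cons (.rf (nat_lit 928) (nat_lit 14303893635)) .nil))))),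
 (.br (nat_lit 11) (nat_lit 0) (.cons (.rf (nat_lit 1261) (nat_lit 14242959524133701664)) (.cons (.br (nat_lit 5) (nat_lit 0) (.cons (.ev (nat_lit 309485028268371716939448321) (nat_lit 1)) (.cons (.br (nat_lit 7) (nat_lit 0) (.cons (.br (nat_lit 9) (nat_lit 1) (.cons (.zr (nat_lit 158456325065422726293050360832) (nat_lit 313111787280192254834114561) (nat_lit 5) (nat_lit 3)) (.cons (.zr (nat_lit 158456325065422726293050621952) (nat_lit 313111787280192254834114561) (nat_lit 5) (nat_lit 3)) (.cons (.kr (nat_lit 309485009821346168236408832) (nat_lit 79228162514336395187581878272) (nat_lit 5) (nat_lit 0)) .nil)))) (.cons (.br (nat_lit 7) (nat_lit 0) (.cons (.kr (nat_lit 309485009821346168236408832) (nat_lit 79228162514336395187581878272) (nat_lit 5) (nat_lit 0)) (.cons (.rf (nat_lit 928) (nat_lit 14303893635)) .nil))) (.cons (.rf (nat_lit 928) (nat_lit 14303893635)) .nil)))) (.cons (.rf (nat_lit 928) (nat_lit 14303893635)) .nil)))) (.cons (.rf (nat_lit 928) (nat_lit 14303893635))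 .nil)))),
 (.br (nat_lit 7) (nat_lit 0) (.cons (.br (nat_lit 7) (nat_lit 0) (.cons (.kr (nat_lit 4722366482869645213696) (nat_lit 309485009821345068724781056) (nat_lit 9) (nat_lit 0)) (.cons (.rf (nat_lit 928) (nat_lit 14303893635)) .nil))) (.cons (.kr (nat_lit 4722366482869645213696) (nat_lit 309485009821345068724781056) (nat_lit 9) (nat_lit 0)) (.cons (.rf (nat_lit 928) (nat_lit 14303893635)) .nil)))),
 (.br (nat_lit 11) (nat_lit 0) (.cons (.rf (nat_lit 1262) (nat_lit 14242959524133701664)) (.cons (.br (nat_lit 11) (nat_lit 0) (.cons (.rf (nat_lit 1261) (nat_lit 14242959524133701664)) (.cons (.rf (nat_lit 1263) (nat_lit 14242959524133701664)) (.cons (.rf (nat_lit 928) (nat_lit 14303893635)) .nil)))) (.cons (.br (nat_lit 11) (nat_lit 0) (.cons (.rf (nat_lit 1262) (nat_lit 14242959524133701664)) (.cons (.rf (nat_lit 1263) (nat_lit 14242959524133701664)) (.cons (.rf (nat_lit 928) (nat_lit 14303893635)) .nil)))) (.cons (.rf (nat_lit 928) (nat_lit 14303893635)) .nil))))),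
 (.br (nat_lit 7) (nat_lit 0) (.cons (.kr (nat_lit 18446744078004518912) (nat_lit 4722366764344621924352) (nat_lit 4) (nat_lit 0)) (.cons (.rf (nat_lit 928) (nat_lit 14303893635)) .nil)))]

theorem c42 : chkAll C T R L42 (nat_lit 1232) = true := by decide +kernel

theorem l42 : (nat_lit 1232) + L42.length = (nat_lit 1266) := by decide +kernel

/-- part of the certificates -/
def L43 : List Prf := [(.br (nat_lit 7) (nat_lit 0) (.cons (.rf (nat_lit 1265) (nat_lit 14242959524133701664)) (.cons (.rf (nat_lit 1265) (nat_lit 14242925437127854112)) (.cons (.rf (nat_lit 928) (nat_lit 14303893635)) .nil)))),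
 (.br (nat_lit 7) (nat_lit 0) (.cons (.br (nat_lit 1) (nat_lit 0) (.cons (.rf (nat_lit 928) (nat_lit 14303893635)) .nil)) (.cons (.rf (nat_lit 928) (nat_lit 14303893635)) .nil))),
 (.br (nat_lit 7) (nat_lit 0) (.cons (.rf (nat_lit 1267) (nat_lit 14242959524133701664)) (.cons (.br (nat_lit 7) (nat_lit 0) (.cons (.rf (nat_lit 1267) (nat_lit 14242959524133701664)) (.cons (.rf (nat_lit 928) (nat_lit 14303893635)) .nil))) (.cons (.rf (nat_lit 928) (nat_lit 14303893635)) .nil)))),
 (.br (nat_lit 7) (nat_lit 0) (.cons (.br (nat_lit 7) (nat_lit 0) (.cons (.ev (nat_lit 80156631729347468613761630210) (nat_lit 2)) (.cons (.rf (nat_lit 928) (nat_lit 14303893635)) .nil))) (.cons (.br (nat_lit 7) (nat_lit 0) (.cons (.ev (nat_lit 80156631729347468613761630210) (nat_lit 2)) (.cons (.rf (nat_lit 928) (nat_lit 14303893635)) .nil))) (.cons (.rf (nat_lit 928) (nat_lit 14303893635)) .nil)))),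
 (.br (nat_lit 7) (nat_lit 0) (.cons (.br (nat_lit 7) (nat_lit 0) (.cons (.kr (nat_lit 18446744078004518912) (nat_lit 4722366764344621924352) (nat_lit 4) (nat_lit 0)) (.cons (.rf (nat_lit 928) (nat_lit 14303893635)) .nil))) (.cons (.br (nat_lit 7) (nat_lit 0) (.cons (.kr (nat_lit 18446744078004518912) (nat_lit 4722366764344621924352) (nat_lit 4) (nat_lit 0)) (.cons (.rf (nat_lit 928) (nat_lit 14303893635)) .nil))) (.cons (.rf (nat_lit 928) (nat_lit 14303893635)) .nil)))),
 (.br (nat_lit 2) (nat_lit 0) (.cons (.kr (nat_lit 79228162514264337593544015872) (nat_lit 1099528404992) (nat_lit 2) (nat_lit 0)) (.cons (.br (nat_lit 11) (nat_lit 0) (.cons (.br (nat_lit 11) (nat_lit 0) (.cons (.ev (nat_lit 79537652264899192184406868225) (nat_lit 1)) (.cons (.rf (nat_lit 928) (nat_lit 14303893635)) .nil))) (.cons (.br (nat_lit 11) (nat_lit 0) (.cons (.ev (nat_lit 79537652264899192184406868225) (nat_lit 1)) (.cons (.rf (nat_lit 928) (nat_lit 14303893635)) .nil))) (.cons (.rf (nat_lit 928)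 (nat_lit 14303893635)) .nil)))) (.cons (.rf (nat_lit 928) (nat_lit 14303893635)) .nil)))),
 (.br (nat_lit 5) (nat_lit 0) (.cons (.rf (nat_lit 1264) (nat_lit 14242959524133701664)) (.cons (.br (nat_lit 11) (nat_lit 0) (.cons (.br (nat_lit 11) (nat_lit 0) (.cons (.rf (nat_lit 1258) (nat_lit 13126066747893450784)) (.cons (.rf (nat_lit 1258) (nat_lit 13126032660887603232)) (.cons (.rf (nat_lit 1266) (nat_lit 14242959524133701664)) (.cons (.rf (nat_lit 928) (nat_lit 14303893635)) .nil))))) (.cons (.br (nat_lit 11) (nat_lit 0) (.cons (.rf (nat_lit 1258) (nat_lit 13126066747893450784)) (.cons (.rf (nat_lit 1268) (nat_lit 14242959524133701664)) (.cons (.rf (nat_lit 1269) (nat_lit 14242959524133701664)) (.cons (.rf (nat_lit 928) (nat_lit 14303893635)) .nil))))) (.cons (.br (nat_lit 11) (nat_lit 0) (.cons (.rf (nat_lit 1258) (nat_lit 13126032660887603232)) (.cons (.rf (nat_lit 1268) (nat_lit 14242959524133701664)) (.cons (.rf (nat_lit 1270) (nat_lit 14242959524133701664)) (.cons (.rf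 (nat_lit 928) (nat_lit 14303893635)) .nil))))) (.cons (.br (nat_lit 11) (nat_lit 0) (.cons (.rf (nat_lit 1266) (nat_lit 14242959524133701664)) (.cons (.rf (nat_lit 1269) (nat_lit 14242959524133701664)) (.cons (.rf (nat_lit 1270) (nat_lit 14242959524133701664)) (.cons (.rf (nat_lit 928) (nat_lit 14303893635)) .nil))))) (.cons (.rf (nat_lit 928) (nat_lit 14303893635)) .nil)))))) (.cons (.br (nat_lit 1) (nat_lit 0) (.cons (.rf (nat_lit 1271) (nat_lit 14242959524133701664)) (.cons (.kr (nat_lit 79228162514264337593543950592) (nat_lit 1099528404992) (nat_lit 1) (nat_lit 0)) (.cons (.br (nat_lit 2) (nat_lit 0) (.cons (.rf (nat_lit 1271) (nat_lit 14242959524133700672)) (.cons (.kr (nat_lit 79228162514264337593544015872) (nat_lit 1099528404992) (nat_lit 2) (nat_lit 0)) (.cons (.kr (nat_lit 256) (nat_lit 65536) (nat_lit 1) (nat_lit 0)) (.cons (.rf (nat_lit 928) (nat_lit 14303893635)) .nil))))) (.cons (.rf (nat_lit 928) (nat_lit 14303893635)) .nil))))) (.cons (.rf (nat_lit 928) (nat_lit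 14303893635)) .nil))))),
 (.br (nat_lit 7) (nat_lit 0) (.cons (.rf (nat_lit 928) (nat_lit 14303893635)) .nil)),
 (.br (nat_lit 1) (nat_lit 0) (.cons (.rf (nat_lit 1273) (nat_lit 14242959524133701664)) (.cons (.rf (nat_lit 928) (nat_lit 14303893635)) .nil))),
 (.br (nat_lit 7) (nat_lit 0) (.cons (.rf (nat_lit 1274) (nat_lit 14242959524133701664)) (.cons (.br (nat_lit 7) (nat_lit 0) (.cons (.rf (nat_lit 1274) (nat_lit 14242959524133701664)) (.cons (.rf (nat_lit 928) (nat_lit 14303893635)) .nil))) (.cons (.rf (nat_lit 928) (nat_lit 14303893635)) .nil)))),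
 (.br (nat_lit 5) (nat_lit 0) (.cons (.rf (nat_lit 1264) (nat_lit 14242959524133701664)) (.cons (.rf (nat_lit 1272) (nat_lit 14242959524133701664)) (.cons (.br (nat_lit 11) (nat_lit 0) (.cons (.rf (nat_lit 1272) (nat_lit 14242925437127854112)) (.cons (.br (nat_lit 11) (nat_lit 0) (.cons (.rf (nat_lit 1258) (nat_lit 13126066747893450784)) (.cons (.rf (nat_lit 1275) (nat_lit 14242959524133701664)) (.cons (.rf (nat_lit 928) (nat_lit 14303893635)) .nil)))) (.cons (.br (nat_lit 11) (nat_lit 0) (.cons (.rf (nat_lit 1258) (nat_lit 13126032660887603232)) (.cons (.rf (nat_lit 1275) (nat_lit 14242959524133701664)) (.cons (.rf (nat_lit 928) (nat_lit 14303893635)) .nil)))) (.cons (.rf (nat_lit 928) (nat_lit 14303893635)) .nil))))) (.cons (.rf (nat_lit 928) (nat_lit 14303893635)) .nil))))),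
 (.br (nat_lit 5) (nat_lit 0) (.cons (.rf (nat_lit 1264) (nat_lit 14242959524133701664)) (.cons (.rf (nat_lit 1272) (nat_lit 14242959524133701664)) (.cons (.rf (nat_lit 1276) (nat_lit 14242959524133701664)) (.cons (.br (nat_lit 5) (nat_lit 0) (.cons (.rf (nat_lit 1264) (nat_lit 14242959524133701664)) (.cons (.rf (nat_lit 1272) (nat_lit 14242959524133701664)) (.cons (.rf (nat_lit 1276) (nat_lit 14242959524133701664)) (.cons (.rf (nat_lit 928) (nat_lit 14303893635)) .nil))))) (.cons (.rf (nat_lit 928) (nat_lit 14303893635)) .nil)))))),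
 (.br (nat_lit 7) (nat_lit 0) (.cons (.rf (nat_lit 1252) (nat_lit 14242925437127854112)) (.cons (.ev (nat_lit 79537647524158021731300147201) (nat_lit 1)) (.cons (.rf (nat_lit 928) (nat_lit 14303893635)) .nil)))),
 (.br (nat_lit 5) (nat_lit 0) (.cons (.kr (nat_lit 18446744078004518912) (nat_lit 4722366764344621924352) (nat_lit 4) (nat_lit 0)) (.cons (.rf (nat_lit 928) (nat_lit 14303893635)) .nil))),
 (.br (nat_lit 7) (nat_lit 0) (.cons (.rf (nat_lit 1278) (nat_lit 14242959524133701664)) (.cons (.br (nat_lit 7) (nat_lit 0) (.cons (.rf (nat_lit 1252) (nat_lit 14242925437127854112)) (.cons (.rf (nat_lit 1279) (nat_lit 14242959524133701664)) (.cons (.rf (nat_lit 928) (nat_lit 14303893635)) .nil)))) (.cons (.br (nat_lit 7) (nat_lit 0) (.cons (.ev (nat_lit 79537647524158021731300147201) (nat_lit 1)) (.cons (.rf (nat_lit 1279) (nat_lit 14242959524133701664)) (.cons (.rf (nat_lit 928) (nat_lit 14303893635)) .nil)))) (.cons (.rf (nat_lit 928) (nat_lit 14303893635)) .nil))))),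
 (.br (nat_lit 7) (nat_lit 0) (.cons (.rf (nat_lit 1279) (nat_lit 14242959455481333792)) (.cons (.rf (nat_lit 1279) (nat_lit 14242925368475486240)) (.cons (.rf (nat_lit 928) (nat_lit 14303893635)) .nil)))),
 (.br (nat_lit 5) (nat_lit 0) (.cons (.rf (nat_lit 1280) (nat_lit 14242959524133701664)) (.cons (.rf (nat_lit 1280) (nat_lit 14242925437127854112)) (.cons (.rf (nat_lit 1281) (nat_lit 14242959524133701664)) (.cons (.rf (nat_lit 928) (nat_lit 14303893635)) .nil))))),
 (.br (nat_lit 11) (nat_lit 0) (.cons (.rf (nat_lit 1277) (nat_lit 14242959524133701664)) (.cons (.rf (nat_lit 1277) (nat_lit 14242925437127854112)) (.cons (.br (nat_lit 5) (nat_lit 0) (.cons (.rf (nat_lit 1280) (nat_lit 14242959524133701664)) (.cons (.rf (nat_lit 1280) (nat_lit 14242925437127854112)) (.cons (.rf (nat_lit 1282) (nat_lit 14242959524133701664)) (.cons (.rf (nat_lit 1282) (nat_lit 14242925437127854112)) (.cons (.rf (nat_lit 928) (nat_lit 14303893635)) .nil)))))) (.cons (.rf (nat_lit 928) (nat_lit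 14303893635)) .nil))))),
 (.br (nat_lit 11) (nat_lit 0) (.cons (.rf (nat_lit 1277) (nat_lit 14242959524133701664)) (.cons (.rf (nat_lit 1277) (nat_lit 14242925437127854112)) (.cons (.rf (nat_lit 1283) (nat_lit 14242959524133701664)) (.cons (.br (nat_lit 11) (nat_lit 0) (.cons (.rf (nat_lit 1277) (nat_lit 14242959524133701664)) (.cons (.rf (nat_lit 1277) (nat_lit 14242925437127854112)) (.cons (.rf (nat_lit 1283) (nat_lit 14242959524133701664)) (.cons (.rf (nat_lit 928) (nat_lit 14303893635)) .nil))))) (.cons (.rf (nat_lit 928) (nat_lit 14303893635)) .nil)))))),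
 (.br (nat_lit 12) (nat_lit 0) (.cons (.rf (nat_lit 1258) (nat_lit 14242959524133701664)) (.cons (.rf (nat_lit 1258) (nat_lit 14242925437127854112)) (.cons (.br (nat_lit 11) (nat_lit 0) (.cons (.rf (nat_lit 1277) (nat_lit 14242959524133701664)) (.cons (.rf (nat_lit 1277) (nat_lit 14242925437127854112)) (.cons (.rf (nat_lit 1284) (nat_lit 14242959524133701664)) (.cons (.rf (nat_lit 1284) (nat_lit 14242925437127854112)) (.cons (.br (nat_lit 11) (nat_lit 0) (.cons (.rf (nat_lit 1277) (nat_lit 14242959524133701664)) (.cons (.rf (nat_lit 1277) (nat_lit 14242925437127854112)) (.cons (.rf (nat_lit 1284) (nat_lit 14242959524133701664)) (.cons (.rf (nat_lit 1284) (nat_lit 14242925437127854112)) (.cons (.rf (nat_lit 928) (nat_lit 14303893635)) .nil)))))) (.cons (.rf (nat_lit 928) (nat_lit 14303893635)) .nil))))))) (.cons (.rf (nat_lit 928) (nat_lit 14303893635)) .nil))))),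
 (.br (nat_lit 5) (nat_lit 0) (.cons (.br (nat_lit 7) (nat_lit 0) (.cons (.br (nat_lit 7) (nat_lit 0) (.cons (.kr (nat_lit 309485009821346168236408832) (nat_lit 79228162514336395187581878272) (nat_lit 5) (nat_lit 0)) (.cons (.rf (nat_lit 928) (nat_lit 14303893635)) .nil))) (.cons (.br (nat_lit 7) (nat_lit 0) (.cons (.kr (nat_lit 309485009821346168236408832) (nat_lit 79228162514336395187581878272) (nat_lit 5) (nat_lit 0)) (.cons (.rf (nat_lit 928) (nat_lit 14303893635)) .nil))) (.cons (.rf (nat_lit 928) (nat_lit 14303893635)) .nil)))) (.cons (.rf (nat_lit 928) (nat_lit 14303893635)) .nil))),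
 (.br (nat_lit 7) (nat_lit 0) (.cons (.br (nat_lit 7) (nat_lit 0) (.cons (.ev (nat_lit 4740885566012386181121) (nat_lit 1)) (.cons (.rf (nat_lit 928) (nat_lit 14303893635)) .nil))) (.cons (.br (nat_lit 7) (nat_lit 0) (.cons (.ev (nat_lit 4740885566012386181121) (nat_lit 1)) (.cons (.rf (nat_lit 928) (nat_lit 14303893635)) .nil))) (.cons (.rf (nat_lit 928) (nat_lit 14303893635)) .nil)))),
 (.br (nat_lit 5) (nat_lit 0) (.cons (.br (nat_lit 2) (nat_lit 0) (.cons (.br (nat_lit 1) (nat_lit 0) (.cons (.kr (nat_lit 1099528405248) (nat_lit 4722366482869645344768) (nat_lit 1) (nat_lit 0)) (.cons (.rf (nat_lit 928) (nat_lit 14303893635)) .nil))) (.cons (.rf (nat_lit 1109) (nat_lit 13126032523280882848)) (.cons (.rf (nat_lit 928) (nat_lit 14303893635)) .nil)))) (.cons (.rf (nat_lit 1287) (nat_lit 14242959524133701664)) (.cons (.rf (nat_lit 928) (nat_lit 14303893635)) .nil)))),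
 (.br (nat_lit 11) (nat_lit 0) (.cons (.rf (nat_lit 1285) (nat_lit 13126066747893450784)) (.cons (.br (nat_lit 5) (nat_lit 0) (.cons (.rf (nat_lit 1286) (nat_lit 14242959524133701664)) (.cons (.br (nat_lit 5) (nat_lit 0) (.cons (.rf (nat_lit 1286) (nat_lit 14242959524133701664)) (.cons (.rf (nat_lit 928) (nat_lit 14303893635)) .nil))) (.cons (.rf (nat_lit 928) (nat_lit 14303893635)) .nil)))) (.cons (.br (nat_lit 5) (nat_lit 0) (.cons (.rf (nat_lit 1288) (nat_lit 14242959524133701664)) (.cons (.br (nat_lit 5) (nat_lit 0) (.cons (.rf (nat_lit 1288) (nat_lit 14242959524133701664)) (.cons (.ev (nat_lit 79538856468352042468976361473) (nat_lit 1)) (.cons (.rf (nat_lit 928) (nat_lit 14303893635)) .nil)))) (.cons (.br (nat_lit 5) (nat_lit 0) (.cons (.rf (nat_lit 1287) (nat_lit 14242959524133701664)) (.cons (.ev (nat_lit 79538856468352042468976361473) (nat_lit 1)) (.cons (.rf (nat_lit 928) (nat_lit 14303893635)) .nil)))) (.cons (.rf (nat_lit 928) (nat_lit 14303893635)) .nil))))) (.cons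 (.rf (nat_lit 928) (nat_lit 14303893635)) .nil))))),
 (.br (nat_lit 7) (nat_lit 0) (.cons (.kr (nat_lit 309485028268089146729299968) (nat_lit 9444733247214267138048) (nat_lit 4) (nat_lit 0)) (.cons (.br (nat_lit 7) (nat_lit 0) (.cons (.kr (nat_lit 309485028268089146729299968) (nat_lit 9444733247214267138048) (nat_lit 4) (nat_lit 0)) (.cons (.rf (nat_lit 928) (nat_lit 14303893635)) .nil))) (.cons (.rf (nat_lit 928) (nat_lit 14303893635)) .nil)))),
 (.br (nat_lit 2) (nat_lit 0) (.cons (.br (nat_lit 7) (nat_lit 0) (.cons (.rf (nat_lit 928) (nat_lit 14303893635)) .nil)) (.cons (.rf (nat_lit 928) (nat_lit 14303893635)) .nil))),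
 (.br (nat_lit 5) (nat_lit 0) (.cons (.rf (nat_lit 1290) (nat_lit 14242959524133701664)) (.cons (.br (nat_lit 7) (nat_lit 0) (.cons (.rf (nat_lit 1291) (nat_lit 14242959524133700672)) (.cons (.br (nat_lit 7) (nat_lit 0) (.cons (.rf (nat_lit 1291) (nat_lit 14242959524133700672)) (.cons (.rf (nat_lit 928) (nat_lit 14303893635)) .nil))) (.cons (.rf (nat_lit 928) (nat_lit 14303893635)) .nil)))) (.cons (.rf (nat_lit 928) (nat_lit 14303893635)) .nil)))),
 (.br (nat_lit 7) (nat_lit 0) (.cons (.br (nat_lit 7) (nat_lit 0) (.cons (.kr (nat_lit 4722366482869645213696) (nat_lit 309485009821345068724781056) (nat_lit 9) (nat_lit 0)) (.cons (.rf (nat_lit 928) (nat_lit 14303893635)) .nil))) (.cons (.kr (nat_lit 4722366482869645213696) (nat_lit 309485009821345068724781056) (nat_lit 9) (nat_lit 0)) (.cons (.rf (nat_lit 928) (nat_lit 14303893635)) .nil)))),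
 (.br (nat_lit 5) (nat_lit 0) (.cons (.rf (nat_lit 1292) (nat_lit 14242959524133701664)) (.cons (.br (nat_lit 5) (nat_lit 0) (.cons (.rf (nat_lit 1290) (nat_lit 14242959524133701664)) (.cons (.rf (nat_lit 1293) (nat_lit 14242959524133701664)) (.cons (.rf (nat_lit 928) (nat_lit 14303893635)) .nil)))) (.cons (.br (nat_lit 5) (nat_lit 0) (.cons (.rf (nat_lit 1292) (nat_lit 14242959524133701664)) (.cons (.rf (nat_lit 1293) (nat_lit 14242959524133701664)) (.cons (.rf (nat_lit 928) (nat_lit 14303893635)) .nil)))) (.cons (.rf (nat_lit 928) (nat_lit 14303893635)) .nil))))),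
 (.br (nat_lit 11) (nat_lit 0) (.cons (.rf (nat_lit 1285) (nat_lit 13126066747893450784)) (.cons (.rf (nat_lit 1289) (nat_lit 14242959524133701664)) (.cons (.br (nat_lit 11) (nat_lit 0) (.cons (.rf (nat_lit 1285) (nat_lit 13126066747893450784)) (.cons (.rf (nat_lit 1289) (nat_lit 14242959524133701664)) (.cons (.rf (nat_lit 1294) (nat_lit 14242959524133701664)) (.cons (.rf (nat_lit 928) (nat_lit 14303893635)) .nil))))) (.cons (.br (nat_lit 11) (nat_lit 0) (.cons (.rf (nat_lit 1285) (nat_lit 13126066747893450784)) (.cons (.rf (nat_lit 1289) (nat_lit 14242959524133701664)) (.cons (.rf (nat_lit 1294) (nat_lit 14242959524133701664)) (.cons (.rf (nat_lit 928) (nat_lit 14303893635)) .nil))))) (.cons (.rf (nat_lit 928) (nat_lit 14303893635)) .nil)))))),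
 (.br (nat_lit 1) (nat_lit 0) (.cons (.rf (nat_lit 963) (nat_lit 14242959455481333792)) (.cons (.br (nat_lit 2) (nat_lit 0) (.cons (.rf (nat_lit 963) (nat_lit 14242959455481332800)) (.cons (.kr (nat_lit 256) (nat_lit 65536) (nat_lit 1) (nat_lit 0)) (.cons (.rf (nat_lit 928) (nat_lit 14303893635)) .nil)))) (.cons (.rf (nat_lit 928) (nat_lit 14303893635)) .nil)))),
 (.br (nat_lit 5) (nat_lit 0) (.cons (.ev (nat_lit 309485009821626543701491969) (nat_lit 1)) (.cons (.ev (nat_lit 4722366482873940181249) (nat_lit 1)) (.cons (.rf (nat_lit 928) (nat_lit 14303893635)) .nil)))),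
 (.br (nat_lit 2) (nat_lit 0) (.cons (.rf (nat_lit 963) (nat_lit 14242959524133700672)) (.cons (.br (nat_lit 1) (nat_lit 0) (.cons (.kr (nat_lit 4722366764344621924608) (nat_lit 18446744073726394368) (nat_lit 1) (nat_lit 0)) (.cons (.rf (nat_lit 1297) (nat_lit 14242959524133701664)) (.cons (.rf (nat_lit 928) (nat_lit 14303893635)) .nil)))) (.cons (.rf (nat_lit 1297) (nat_lit 14242959524133700672)) (.cons (.rf (nat_lit 928) (nat_lit 14303893635)) .nil))))),
 (.br (nat_lit 5) (nat_lit 0) (.cons (.br (nat_lit 5) (nat_lit 0) (.cons (.kr (nat_lit 309485009821345073019748352) (nat_lit 4722366764344621924352) (nat_lit 4) (nat_lit 0)) (.cons (.rf (nat_lit 928) (nat_lit 14303893635)) .nil))) (.cons (.br (nat_lit 5) (nat_lit 0) (.cons (.kr (nat_lit 309485009821345073019748352) (nat_lit 4722366764344621924352) (nat_lit 4) (nat_lit 0)) (.cons (.rf (nat_lit 928) (nat_lit 14303893635)) .nil))) (.cons (.rf (nat_lit 928) (nat_lit 14303893635)) .nil)))),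
 (.br (nat_lit 7) (nat_lit 0) (.cons (.rf (nat_lit 1298) (nat_lit 14242959524133701664)) (.cons (.br (nat_lit 1) (nat_lit 0) (.cons (.br (nat_lit 2) (nat_lit 0) (.cons (.ev (nat_lit 158457543454566165919022842370) (nat_lit 2)) (.cons (.rf (nat_lit 928) (nat_lit 14303893635)) .nil))) (.cons (.rf (nat_lit 1109) (nat_lit 13126032557607064800)) (.cons (.rf (nat_lit 928) (nat_lit 14303893635)) .nil)))) (.cons (.rf (nat_lit 1299) (nat_lit 14242959524133701664)) (.cons (.rf (nat_lit 928) (nat_lit 14303893635)) .nil)))))]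

theorem c43 : chkAll C T R L43 (nat_lit 1266) = true := by decide +kernel

theorem l43 : (nat_lit 1266) + L43.length = (nat_lit 1301) := by decide +kernel

/-- part of the certificates -/
def L44 : List Prf := [(.br (nat_lit 5) (nat_lit 0) (.cons (.kr (nat_lit 309485009821345073019748352) (nat_lit 4722366764344621924352) (nat_lit 4) (nat_lit 0)) (.cons (.rf (nat_lit 928) (nat_lit 14303893635)) .nil))),
 (.br (nat_lit 7) (nat_lit 0) (.cons (.rf (nat_lit 1298) (nat_lit 14242959524133701664)) (.cons (.rf (nat_lit 1300) (nat_lit 14242959524133701664)) (.cons (.br (nat_lit 5) (nat_lit 0) (.cons (.br (nat_lit 6) (nat_lit 1) (.cons (.rf (nat_lit 963) (nat_lit 14242959455481333792)) (.cons (.rf (nat_lit 963) (nat_lit 14242959455481332800)) (.cons (.kr (nat_lit 309485009821345073019748352) (nat_lit 4722366764344621924352) (nat_lit 4) (nat_lit 0)) .nil)))) (.cons (.rf (nat_lit 1301) (nat_lit 14242959524133701664)) (.cons (.rf (nat_lit 928) (nat_lit 14303893635)) .nil)))) (.cons (.rf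 (nat_lit 928) (nat_lit 14303893635)) .nil))))),
 (.br (nat_lit 11) (nat_lit 0) (.cons (.rf (nat_lit 1285) (nat_lit 13126066747893450784)) (.cons (.br (nat_lit 5) (nat_lit 0) (.cons (.rf (nat_lit 1296) (nat_lit 14242959524133701664)) (.cons (.rf (nat_lit 1296) (nat_lit 13126032729539971104)) (.cons (.br (nat_lit 5) (nat_lit 0) (.cons (.rf (nat_lit 1296) (nat_lit 14242959524133701664)) (.cons (.rf (nat_lit 1296) (nat_lit 13126032729539971104)) (.cons (.rf (nat_lit 928) (nat_lit 14303893635)) .nil)))) (.cons (.rf (nat_lit 928) (nat_lit 14303893635)) .nil))))) (.cons (.br (nat_lit 7) (nat_lit 0) (.cons (.rf (nat_lit 1298) (nat_lit 14242959524133701664)) (.cons (.rf (nat_lit 1300) (nat_lit 14242959524133701664)) (.cons (.rf (nat_lit 1302) (nat_lit 14242959524133701664)) (.cons (.br (nat_lit 7) (nat_lit 0) (.cons (.ev (nat_lit 79537647524157740260618403841) (nat_lit 1)) (.cons (.rf (nat_lit 1299) (nat_lit 14242959524133701664)) (.cons (.rf (nat_lit 1302) (nat_lit 14242959524133701664))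 (.cons (.rf (nat_lit 928) (nat_lit 14303893635)) .nil))))) (.cons (.rf (nat_lit 928) (nat_lit 14303893635)) .nil)))))) (.cons (.rf (nat_lit 928) (nat_lit 14303893635)) .nil))))),
 (.br (nat_lit 7) (nat_lit 0) (.cons (.rf (nat_lit 1273) (nat_lit 6208537789106063392)) (.cons (.rf (nat_lit 928) (nat_lit 14303893635)) .nil))),
 (.br (nat_lit 5) (nat_lit 0) (.cons (.rf (nat_lit 1104) (nat_lit 13126066747725683744)) (.cons (.rf (nat_lit 1304) (nat_lit 14242959524133701664)) (.cons (.rf (nat_lit 928) (nat_lit 14303893635)) .nil)))),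
 (.br (nat_lit 1) (nat_lit 0) (.cons (.rf (nat_lit 965) (nat_lit 14242959455481333792)) (.cons (.rf (nat_lit 1305) (nat_lit 14242959524133701664)) (.cons (.br (nat_lit 2) (nat_lit 0) (.cons (.rf (nat_lit 965) (nat_lit 14242959455481332800)) (.cons (.rf (nat_lit 1305) (nat_lit 14242959524133700672)) (.cons (.rf (nat_lit 928) (nat_lit 14303893635)) .nil)))) (.cons (.rf (nat_lit 928) (nat_lit 14303893635)) .nil))))),
 (.br (nat_lit 7) (nat_lit 0) (.cons (.rf (nat_lit 1306) (nat_lit 14242959455481333792)) (.cons (.br (nat_lit 7) (nat_lit 0) (.cons (.rf (nat_lit 1306) (nat_lit 14242959455481333792)) (.cons (.rf (nat_lit 928) (nat_lit 14303893635)) .nil))) (.cons (.rf (nat_lit 928) (nat_lit 14303893635)) .nil)))),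
 (.br (nat_lit 5) (nat_lit 0) (.cons (.rf (nat_lit 1306) (nat_lit 14242959524133701664)) (.cons (.rf (nat_lit 1307) (nat_lit 14242959524133701664)) (.cons (.br (nat_lit 7) (nat_lit 0) (.cons (.rf (nat_lit 1306) (nat_lit 14242959455481333792)) (.cons (.ev (nat_lit 79229371440084234797223772161) (nat_lit 1)) (.cons (.rf (nat_lit 928) (nat_lit 14303893635)) .nil)))) (.cons (.rf (nat_lit 928) (nat_lit 14303893635)) .nil))))),
 (.br (nat_lit 11) (nat_lit 0) (.cons (.rf (nat_lit 1285) (nat_lit 13126066747893450784)) (.cons (.rf (nat_lit 1303) (nat_lit 14242959524133701664)) (.cons (.br (nat_lit 5) (nat_lit 0) (.cons (.rf (nat_lit 1306) (nat_lit 14242959524133701664)) (.cons (.br (nat_lit 5) (nat_lit 0) (.cons (.rf (nat_lit 1306) (nat_lit 14242959524133701664)) (.cons (.rf (nat_lit 1307) (nat_lit 14242959524133701664)) (.cons (.ev (nat_lit 79537647524085965236773847041) (nat_lit 1)) (.cons (.rf (nat_lit 928) (nat_lit 14303893635)) .nil))))) (.cons (.rf (nat_lit 1308) (nat_lit 14242959524133701664))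 (.cons (.br (nat_lit 5) (nat_lit 0) (.cons (.rf (nat_lit 1306) (nat_lit 14242959524133701664)) (.cons (.ev (nat_lit 79537647524085965236773847041) (nat_lit 1)) (.cons (.rf (nat_lit 1308) (nat_lit 14242959524133701664)) (.cons (.rf (nat_lit 928) (nat_lit 14303893635)) .nil))))) (.cons (.rf (nat_lit 928) (nat_lit 14303893635)) .nil)))))) (.cons (.rf (nat_lit 928) (nat_lit 14303893635)) .nil))))),
 (.br (nat_lit 11) (nat_lit 0) (.cons (.rf (nat_lit 1285) (nat_lit 13126066747893450784)) (.cons (.rf (nat_lit 1303) (nat_lit 14242959524133701664)) (.cons (.rf (nat_lit 1309) (nat_lit 14242959524133701664)) (.cons (.br (nat_lit 11) (nat_lit 0) (.cons (.rf (nat_lit 1285) (nat_lit 13126066747893450784)) (.cons (.rf (nat_lit 1303) (nat_lit 14242959524133701664)) (.cons (.rf (nat_lit 1309) (nat_lit 14242959524133701664)) (.cons (.rf (nat_lit 928) (nat_lit 14303893635)) .nil))))) (.cons (.rf (nat_lit 928) (nat_lit 14303893635)) .nil)))))),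
 (.br (nat_lit 5) (nat_lit 0) (.cons (.kr (nat_lit 18446744078004518912) (nat_lit 4722366764344621924352) (nat_lit 4) (nat_lit 0)) (.cons (.br (nat_lit 1) (nat_lit 0) (.cons (.ev (nat_lit 309485009893403766569304321) (nat_lit 1)) (.cons (.rf (nat_lit 928) (nat_lit 14303893635)) .nil))) (.cons (.rf (nat_lit 928) (nat_lit 14303893635)) .nil)))),
 (.br (nat_lit 7) (nat_lit 0) (.cons (.br (nat_lit 5) (nat_lit 0) (.cons (.rf (nat_lit 1311) (nat_lit 14242959524133701664)) (.cons (.br (nat_lit 5) (nat_lit 0) (.cons (.rf (nat_lit 1311) (nat_lit 14242959524133701664)) (.cons (.rf (nat_lit 928) (nat_lit 14303893635)) .nil))) (.cons (.rf (nat_lit 928) (nat_lit 14303893635)) .nil)))) (.cons (.kr (nat_lit 1208925819614629174706176) (nat_lit 309485009821345068724781056) (nat_lit 10) (nat_lit 0)) (.cons (.rf (nat_lit 928) (nat_lit 14303893635)) .nil)))),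
 (.br (nat_lit 11) (nat_lit 0) (.cons (.rf (nat_lit 1295) (nat_lit 14242959524133701664)) (.cons (.rf (nat_lit 1310) (nat_lit 14242959524133701664)) (.cons (.br (nat_lit 7) (nat_lit 0) (.cons (.rf (nat_lit 1312) (nat_lit 14242959524133701664)) (.cons (.br (nat_lit 7) (nat_lit 0) (.cons (.rf (nat_lit 1312) (nat_lit 14242959524133701664)) (.cons (.kr (nat_lit 1208925819614629174706176) (nat_lit 309485009821345068724781056) (nat_lit 10) (nat_lit 0)) (.cons (.rf (nat_lit 928) (nat_lit 14303893635)) .nil)))) (.cons (.kr (nat_lit 1208925819614629174706176) (nat_lit 309485009821345068724781056) (nat_lit 10) (nat_lit 0)) (.cons (.rf (nat_lit 928) (nat_lit 14303893635)) .nil))))) (.cons (.rf (nat_lit 928) (nat_lit 14303893635)) .nil))))),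
 (.br (nat_lit 11) (nat_lit 0) (.cons (.rf (nat_lit 1295) (nat_lit 14242959524133701664)) (.cons (.rf (nat_lit 1310) (nat_lit 14242959524133701664)) (.cons (.rf (nat_lit 1313) (nat_lit 14242959524133701664)) (.cons (.br (nat_lit 11) (nat_lit 0) (.cons (.rf (nat_lit 1295) (nat_lit 14242959524133701664)) (.cons (.rf (nat_lit 1310) (nat_lit 14242959524133701664)) (.cons (.rf (nat_lit 1313) (nat_lit 14242959524133701664)) (.cons (.rf (nat_lit 928) (nat_lit 14303893635)) .nil))))) (.cons (.rf (nat_lit 928) (nat_lit 14303893635)) .nil)))))),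
 (.br (nat_lit 11) (nat_lit 0) (.cons (.rf (nat_lit 1295) (nat_lit 14242959524133701664)) (.cons (.rf (nat_lit 1310) (nat_lit 14242959524133701664)) (.cons (.rf (nat_lit 1314) (nat_lit 14242959524133701664)) (.cons (.br (nat_lit 11) (nat_lit 0) (.cons (.rf (nat_lit 1294) (nat_lit 14242959524133701664)) (.cons (.rf (nat_lit 1310) (nat_lit 14242959524133701664)) (.cons (.rf (nat_lit 1314) (nat_lit 14242959524133701664)) (.cons (.rf (nat_lit 928) (nat_lit 14303893635)) .nil))))) (.cons (.rf (nat_lit 928) (nat_lit 14303893635)) .nil)))))),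
 (.br (nat_lit 11) (nat_lit 0) (.cons (.rf (nat_lit 1295) (nat_lit 14242959524133701664)) (.cons (.rf (nat_lit 1310) (nat_lit 14242959524133701664)) (.cons (.rf (nat_lit 1314) (nat_lit 14242959524133701664)) (.cons (.rf (nat_lit 1315) (nat_lit 14242959524133701664)) (.cons (.br (nat_lit 11) (nat_lit 0) (.cons (.rf (nat_lit 1295) (nat_lit 14242959524133701664)) (.cons (.rf (nat_lit 1310) (nat_lit 14242959524133701664)) (.cons (.rf (nat_lit 1314) (nat_lit 14242959524133701664)) (.cons (.rf (nat_lit 1315) (nat_lit 14242959524133701664)) (.cons (.rf (nat_lit 928) (nat_lit 14303893635)) .nil)))))) (.cons (.rf (nat_lit 928) (nat_lit 14303893635)) .nil))))))),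
 (.br (nat_lit 5) (nat_lit 0) (.cons (.br (nat_lit 7) (nat_lit 0) (.cons (.br (nat_lit 7) (nat_lit 0) (.cons (.kr (nat_lit 309485009821346168236408832) (nat_lit 79228162514336395187581878272) (nat_lit 5) (nat_lit 0)) (.cons (.rf (nat_lit 928) (nat_lit 14303893635)) .nil))) (.cons (.br (nat_lit 7) (nat_lit 0) (.cons (.kr (nat_lit 309485009821346168236408832) (nat_lit 79228162514336395187581878272) (nat_lit 5) (nat_lit 0)) (.cons (.rf (nat_lit 928) (nat_lit 14303893635)) .nil))) (.cons (.rf (nat_lit 928) (nat_lit 14303893635)) .nil)))) (.cons (.rf (nat_lit 928) (nat_lit 14303893635)) .nil))),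
 (.br (nat_lit 11) (nat_lit 0) (.cons (.rf (nat_lit 1285) (nat_lit 13126066747893450784)) (.cons (.rf (nat_lit 1316) (nat_lit 13126066747893450784)) (.cons (.br (nat_lit 5) (nat_lit 0) (.cons (.rf (nat_lit 1317) (nat_lit 14242959524133701664)) (.cons (.br (nat_lit 5) (nat_lit 0) (.cons (.rf (nat_lit 1317) (nat_lit 14242959524133701664)) (.cons (.rf (nat_lit 928) (nat_lit 14303893635)) .nil))) (.cons (.rf (nat_lit 928) (nat_lit 14303893635)) .nil)))) (.cons (.rf (nat_lit 928) (nat_lit 14303893635)) .nil))))),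
 (.br (nat_lit 7) (nat_lit 0) (.cons (.br (nat_lit 5) (nat_lit 0) (.cons (.br (nat_lit 5) (nat_lit 0) (.cons (.ev (nat_lit 80156631729491586000860741634) (nat_lit 2)) (.cons (.rf (nat_lit 928) (nat_lit 14303893635)) .nil))) (.cons (.br (nat_lit 5) (nat_lit 0) (.cons (.ev (nat_lit 80156631729491586000860741634) (nat_lit 2)) (.cons (.rf (nat_lit 928) (nat_lit 14303893635)) .nil))) (.cons (.rf (nat_lit 928) (nat_lit 14303893635)) .nil)))) (.cons (.kr (nat_lit 4722366482869645213696) (nat_lit 309485009821345068724781056) (nat_lit 9) (nat_lit 0)) (.cons (.rf (nat_lit 928) (nat_lit 14303893635)) .nil)))),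
 (.br (nat_lit 11) (nat_lit 0) (.cons (.rf (nat_lit 1285) (nat_lit 13126066747893450784)) (.cons (.rf (nat_lit 1316) (nat_lit 13126066747893450784)) (.cons (.br (nat_lit 7) (nat_lit 0) (.cons (.rf (nat_lit 1319) (nat_lit 14242959524133701664)) (.cons (.br (nat_lit 7) (nat_lit 0) (.cons (.rf (nat_lit 1319) (nat_lit 14242959524133701664)) (.cons (.ev (nat_lit 79229376180969236764423094273) (nat_lit 1)) (.cons (.rf (nat_lit 928) (nat_lit 14303893635)) .nil)))) (.cons (.kr (nat_lit 4722366482869645213696) (nat_lit 309485009821345068724781056) (nat_lit 9) (nat_lit 0)) (.cons (.rf (nat_lit 928) (nat_lit 14303893635)) .nil))))) (.cons (.rf (nat_lit 928) (nat_lit 14303893635)) .nil))))),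
 (.br (nat_lit 11) (nat_lit 0) (.cons (.rf (nat_lit 1285) (nat_lit 13126066747893450784)) (.cons (.rf (nat_lit 1318) (nat_lit 14242959524133701664)) (.cons (.rf (nat_lit 1320) (nat_lit 14242959524133701664)) (.cons (.br (nat_lit 11) (nat_lit 0) (.cons (.rf (nat_lit 1285) (nat_lit 13126066747893450784)) (.cons (.rf (nat_lit 1318) (nat_lit 14242959524133701664)) (.cons (.rf (nat_lit 1320) (nat_lit 14242959524133701664)) (.cons (.rf (nat_lit 928) (nat_lit 14303893635)) .nil))))) (.cons (.rf (nat_lit 928) (nat_lit 14303893635)) .nil)))))),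
 (.br (nat_lit 5) (nat_lit 0) (.cons (.br (nat_lit 7) (nat_lit 0) (.cons (.kr (nat_lit 618970019642690141744529408) (nat_lit 4740813508418331475968) (nat_lit 4) (nat_lit 0)) (.cons (.rf (nat_lit 928) (nat_lit 14303893635)) .nil))) (.cons (.rf (nat_lit 928) (nat_lit 14303893635)) .nil))),
 (.br (nat_lit 7) (nat_lit 0) (.cons (.rf (nat_lit 1322) (nat_lit 14242959524133701664)) (.cons (.br (nat_lit 7) (nat_lit 0) (.cons (.rf (nat_lit 1322) (nat_lit 14242959524133701664)) (.cons (.rf (nat_lit 928) (nat_lit 14303893635)) .nil))) (.cons (.rf (nat_lit 928) (nat_lit 14303893635)) .nil)))),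
 (.br (nat_lit 5) (nat_lit 0) (.cons (.rf (nat_lit 1323) (nat_lit 14242959524133701664)) (.cons (.br (nat_lit 7) (nat_lit 0) (.cons (.ev (nat_lit 1103823372289) (nat_lit 1)) (.cons (.ev (nat_lit 4740813509517859880961) (nat_lit 1)) (.cons (.rf (nat_lit 928) (nat_lit 14303893635)) .nil)))) (.cons (.rf (nat_lit 928) (nat_lit 14303893635)) .nil)))),
 (.br (nat_lit 11) (nat_lit 0) (.cons (.rf (nat_lit 1285) (nat_lit 13126066747893450784)) (.cons (.rf (nat_lit 1316) (nat_lit 13126032660887603232)) (.cons (.br (nat_lit 5) (nat_lit 0) (.cons (.rf (nat_lit 1323) (nat_lit 14242959524133701664)) (.cons (.rf (nat_lit 1324) (nat_lit 14242959524133701664)) (.cons (.br (nat_lit 5) (nat_lit 0) (.cons (.rf (nat_lit 1323) (nat_lit 14242959524133701664)) (.cons (.rf (nat_lit 1324) (nat_lit 14242959524133701664)) (.cons (.rf (nat_lit 928) (nat_lit 14303893635)) .nil)))) (.cons (.rf (nat_lit 928) (nat_lit 14303893635)) .nil))))) (.cons (.rf (nat_lit 928) (nat_lit 14303893635)) .nil))))),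
 (.br (nat_lit 5) (nat_lit 0) (.cons (.br (nat_lit 7) (nat_lit 0) (.cons (.br (nat_lit 7) (nat_lit 0) (.cons (.ev (nat_lit 80156631729491586000860741634) (nat_lit 2)) (.cons (.rf (nat_lit 928) (nat_lit 14303893635)) .nil))) (.cons (.br (nat_lit 7) (nat_lit 0) (.cons (.ev (nat_lit 80156631729491586000860741634) (nat_lit 2)) (.cons (.rf (nat_lit 928) (nat_lit 14303893635)) .nil))) (.cons (.rf (nat_lit 928) (nat_lit 14303893635)) .nil)))) (.cons (.br (nat_lit 7) (nat_lit 0) (.cons (.br (nat_lit 7) (nat_lit 0) (.cons (.kr (nat_lit 309485009821346168236408832) (nat_lit 79228162514336395187581878272) (nat_lit 5) (nat_lit 0)) (.cons (.rf (nat_lit 928) (nat_lit 14303893635)) .nil))) (.cons (.kr (nat_lit 4740813226943354765312) (nat_lit 79537647524085682662268731392) (nat_lit 8) (nat_lit 0)) (.cons (.rf (nat_lit 928) (nat_lit 14303893635)) .nil)))) (.cons (.ev (nat_lit 309489732187829042193367041) (nat_lit 1)) (.cons (.rf (nat_lit 928) (nat_lit 14303893635)) .nil))))),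
 (.br (nat_lit 5) (nat_lit 0) (.cons (.rf (nat_lit 1326) (nat_lit 14242959524133701664)) (.cons (.br (nat_lit 7) (nat_lit 0) (.cons (.br (nat_lit 7) (nat_lit 0) (.cons (.kr (nat_lit 4740813226943354765312) (nat_lit 79537647524085682662268731392) (nat_lit 8) (nat_lit 0)) (.cons (.rf (nat_lit 928) (nat_lit 14303893635)) .nil))) (.cons (.kr (nat_lit 4740813226943354765312) (nat_lit 79537647524085682662268731392) (nat_lit 8) (nat_lit 0)) (.cons (.rf (nat_lit 928) (nat_lit 14303893635)) .nil)))) (.cons (.ev (nat_lit 79537647524085965236773847041) (nat_lit 1)) (.cons (.rf (nat_lit 928) (nat_lit 14303893635)) .nil))))),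
 (.br (nat_lit 11) (nat_lit 0) (.cons (.rf (nat_lit 1285) (nat_lit 13126066747893450784)) (.cons (.rf (nat_lit 1316) (nat_lit 13126032660887603232)) (.cons (.br (nat_lit 5) (nat_lit 0) (.cons (.rf (nat_lit 1326) (nat_lit 14242959524133701664)) (.cons (.rf (nat_lit 1327) (nat_lit 14242959524133701664)) (.cons (.br (nat_lit 7) (nat_lit 0) (.cons (.rf (nat_lit 1327) (nat_lit 13126032660887603232)) (.cons (.rf (nat_lit 1326) (nat_lit 13126032660887603232)) (.cons (.kr (nat_lit 4740813226943354765312) (nat_lit 79537647524085682662268731392) (nat_lit 8) (nat_lit 0)) (.cons (.rf (nat_lit 928) (nat_lit 14303893635)) .nil))))) (.cons (.br (nat_lit 7) (nat_lit 0) (.cons (.rf (nat_lit 1327) (nat_lit 13126032660887603232)) (.cons (.rf (nat_lit 1326) (nat_lit 13126032660887603232)) (.cons (.kr (nat_lit 4740813226943354765312) (nat_lit 79537647524085682662268731392) (nat_lit 8) (nat_lit 0)) (.cons (.rf (nat_lit 928) (nat_lit 14303893635)) .nil))))) (.cons (.rf (nat_lit 928) (nat_lit 14303893635))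 .nil)))))) (.cons (.rf (nat_lit 928) (nat_lit 14303893635)) .nil))))),
 (.br (nat_lit 11) (nat_lit 0) (.cons (.rf (nat_lit 1285) (nat_lit 13126066747893450784)) (.cons (.rf (nat_lit 1325) (nat_lit 14242959524133701664)) (.cons (.rf (nat_lit 1328) (nat_lit 14242959524133701664)) (.cons (.br (nat_lit 11) (nat_lit 0) (.cons (.rf (nat_lit 1285) (nat_lit 13126066747893450784)) (.cons (.rf (nat_lit 1325) (nat_lit 14242959524133701664)) (.cons (.rf (nat_lit 1328) (nat_lit 14242959524133701664)) (.cons (.rf (nat_lit 928) (nat_lit 14303893635)) .nil))))) (.cons (.rf (nat_lit 928) (nat_lit 14303893635)) .nil)))))),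
 (.br (nat_lit 5) (nat_lit 0) (.cons (.br (nat_lit 5) (nat_lit 0) (.cons (.kr (nat_lit 618970038089434215454081024) (nat_lit 2422574005993602971336704) (nat_lit 4) (nat_lit 0)) (.cons (.rf (nat_lit 928) (nat_lit 14303893635)) .nil))) (.cons (.br (nat_lit 5) (nat_lit 0) (.cons (.kr (nat_lit 618970038089434215454081024) (nat_lit 2422574005993602971336704) (nat_lit 4) (nat_lit 0)) (.cons (.rf (nat_lit 928) (nat_lit 14303893635)) .nil))) (.cons (.rf (nat_lit 928) (nat_lit 14303893635)) .nil)))),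
 (.br (nat_lit 11) (nat_lit 0) (.cons (.rf (nat_lit 1316) (nat_lit 13126066747893450784)) (.cons (.rf (nat_lit 1316) (nat_lit 13126032660887603232)) (.cons (.br (nat_lit 7) (nat_lit 0) (.cons (.br (nat_lit 7) (nat_lit 0) (.cons (.ev (nat_lit 79537647524157740260618403841) (nat_lit 1)) (.cons (.ev (nat_lit 79538856468424098963502661633) (nat_lit 1)) (.cons (.rf (nat_lit 928) (nat_lit 14303893635)) .nil)))) (.cons (.br (nat_lit 7) (nat_lit 0) (.cons (.ev (nat_lit 79537647524157740260618403841) (nat_lit 1)) (.cons (.rf (nat_lit 1330) (nat_lit 14242959524133701664)) (.cons (.rf (nat_lit 928) (nat_lit 14303893635)) .nil)))) (.cons (.br (nat_lit 7) (nat_lit 0) (.cons (.ev (nat_lit 79538856468424098963502661633) (nat_lit 1)) (.cons (.rf (nat_lit 1330) (nat_lit 14242959524133701664)) (.cons (.rf (nat_lit 928) (nat_lit 14303893635)) .nil)))) (.cons (.rf (nat_lit 928) (nat_lit 14303893635)) .nil))))) (.cons (.rf (nat_lit 928) (nat_lit 14303893635)) .nil)))))]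

theorem c44 : chkAll C T R L44 (nat_lit 1301) = true := by decide +kernel

theorem l44 : (nat_lit 1301) + L44.length = (nat_lit 1332) := by decide +kernel

/-- part of the certificates -/
def L45 : List Prf := [(.br (nat_lit 11) (nat_lit 0) (.cons (.rf (nat_lit 1321) (nat_lit 14242959524133701664)) (.cons (.rf (nat_lit 1329) (nat_lit 14242959524133701664)) (.cons (.rf (nat_lit 1331) (nat_lit 14242959524133701664)) (.cons (.br (nat_lit 11) (nat_lit 0) (.cons (.rf (nat_lit 1321) (nat_lit 14242959524133701664)) (.cons (.rf (nat_lit 1329) (nat_lit 14242959524133701664)) (.cons (.rf (nat_lit 1331) (nat_lit 14242959524133701664)) (.cons (.rf (nat_lit 928) (nat_lit 14303893635)) .nil))))) (.cons (.rf (nat_lit 928) (nat_lit 14303893635)) .nil)))))),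
 (.br (nat_lit 11) (nat_lit 0) (.cons (.rf (nat_lit 1321) (nat_lit 14242959524133701664)) (.cons (.rf (nat_lit 1329) (nat_lit 14242959524133701664)) (.cons (.rf (nat_lit 1332) (nat_lit 14242959524133701664)) (.cons (.br (nat_lit 11) (nat_lit 0) (.cons (.rf (nat_lit 1321) (nat_lit 14242959524133701664)) (.cons (.rf (nat_lit 1329) (nat_lit 14242959524133701664)) (.cons (.rf (nat_lit 1332) (nat_lit 14242959524133701664)) (.cons (.rf (nat_lit 928) (nat_lit 14303893635)) .nil))))) (.cons (.rf (nat_lit 928) (nat_lit 14303893635)) .nil)))))),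
 (.br (nat_lit 12) (nat_lit 0) (.cons (.rf (nat_lit 1285) (nat_lit 14242959524133701664)) (.cons (.rf (nat_lit 1316) (nat_lit 14242959524133701664)) (.cons (.br (nat_lit 11) (nat_lit 0) (.cons (.rf (nat_lit 1321) (nat_lit 14242959524133701664)) (.cons (.rf (nat_lit 1329) (nat_lit 14242959524133701664)) (.cons (.rf (nat_lit 1332) (nat_lit 14242959524133701664)) (.cons (.rf (nat_lit 1333) (nat_lit 14242959524133701664)) (.cons (.br (nat_lit 11) (nat_lit 0) (.cons (.rf (nat_lit 1321) (nat_lit 14242959524133701664)) (.cons (.rf (nat_lit 1329) (nat_lit 14242959524133701664)) (.cons (.rf (nat_lit 1332) (nat_lit 14242959524133701664)) (.cons (.rf (nat_lit 1333) (nat_lit 14242959524133701664)) (.cons (.rf (nat_lit 928) (nat_lit 14303893635)) .nil)))))) (.cons (.rf (nat_lit 928) (nat_lit 14303893635)) .nil))))))) (.cons (.rf (nat_lit 928) (nat_lit 14303893635)) .nil))))),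
 (.br (nat_lit 7) (nat_lit 0) (.cons (.kr (nat_lit 18446744073709551616) (nat_lit 309485009821345068724781056) (nat_lit 8) (nat_lit 0)) (.cons (.kr (nat_lit 309485009821345073019748352) (nat_lit 4722366764344621924352) (nat_lit 4) (nat_lit 0)) (.cons (.rf (nat_lit 928) (nat_lit 14303893635)) .nil)))),
 (.br (nat_lit 11) (nat_lit 0) (.cons (.br (nat_lit 11) (nat_lit 0) (.cons (.rf (nat_lit 1334) (nat_lit 13126032660887603232)) (.cons (.rf (nat_lit 1335) (nat_lit 14242959524133701664)) (.cons (.rf (nat_lit 928) (nat_lit 14303893635)) .nil)))) (.cons (.rf (nat_lit 1334) (nat_lit 13126032660887603232)) (.cons (.br (nat_lit 11) (nat_lit 0) (.cons (.rf (nat_lit 1335) (nat_lit 14242959524133701664)) (.cons (.ev (nat_lit 79538861172272062735593766913) (nat_lit 1)) (.cons (.rf (nat_lit 928) (nat_lit 14303893635)) .nil)))) (.cons (.rf (nat_lit 928) (nat_lit 14303893635)) .nil))))),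
 (.br (nat_lit 7) (nat_lit 0) (.cons (.br (nat_lit 7) (nat_lit 0) (.cons (.kr (nat_lit 18446744078004518912) (nat_lit 4722366764344621924352) (nat_lit 4) (nat_lit 0)) (.cons (.kr (nat_lit 1208925819614629174706176) (nat_lit 309485009821345068724781056) (nat_lit 10) (nat_lit 0)) (.cons (.rf (nat_lit 928) (nat_lit 14303893635)) .nil)))) (.cons (.br (nat_lit 7) (nat_lit 0) (.cons (.kr (nat_lit 18446744078004518912) (nat_lit 4722366764344621924352) (nat_lit 4) (nat_lit 0)) (.cons (.kr (nat_lit 1208925819614629174706176) (nat_lit 309485009821345068724781056) (nat_lit 10) (nat_lit 0)) (.cons (.rf (nat_lit 928) (nat_lit 14303893635)) .nil)))) (.cons (.kr (nat_lit 1208925819614629174706176) (nat_lit 309485009821345068724781056) (nat_lit 10) (nat_lit 0)) (.cons (.rf (nat_lit 928) (nat_lit 14303893635)) .nil))))),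
 (.br (nat_lit 11) (nat_lit 0) (.cons (.rf (nat_lit 1335) (nat_lit 14242959524133701664)) (.cons (.rf (nat_lit 1337) (nat_lit 14242959524133701664)) (.cons (.rf (nat_lit 928) (nat_lit 14303893635)) .nil)))),
 (.br (nat_lit 11) (nat_lit 0) (.cons (.rf (nat_lit 1336) (nat_lit 14242959524133701664)) (.cons (.br (nat_lit 11) (nat_lit 0) (.cons (.rf (nat_lit 1334) (nat_lit 13126032660887603232)) (.cons (.rf (nat_lit 1337) (nat_lit 14242959524133701664)) (.cons (.rf (nat_lit 928) (nat_lit 14303893635)) .nil)))) (.cons (.rf (nat_lit 1338) (nat_lit 14242959524133701664)) (.cons (.rf (nat_lit 928) (nat_lit 14303893635)) .nil))))),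
 (.br (nat_lit 11) (nat_lit 0) (.cons (.rf (nat_lit 1334) (nat_lit 13126032660887603232)) (.cons (.rf (nat_lit 1339) (nat_lit 14242959524133701664)) (.cons (.br (nat_lit 11) (nat_lit 0) (.cons (.ev (nat_lit 79538861172272062735593766913) (nat_lit 1)) (.cons (.rf (nat_lit 1337) (nat_lit 14242959524133701664)) (.cons (.rf (nat_lit 928) (nat_lit 14303893635)) .nil)))) (.cons (.rf (nat_lit 928) (nat_lit 14303893635)) .nil))))),
 (.br (nat_lit 7) (nat_lit 0) (.cons (.kr (nat_lit 309485009821345073019748352) (nat_lit 79228162514264619068520660992) (nat_lit 4) (nat_lit 0)) (.cons (.kr (nat_lit 4740813226943354765312) (nat_lit 79537647524085682662268731392) (nat_lit 8) (nat_lit 0)) (.cons (.rf (nat_lit 928) (nat_lit 14303893635)) .nil)))),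
 (.br (nat_lit 11) (nat_lit 0) (.cons (.br (nat_lit 11) (nat_lit 0) (.cons (.rf (nat_lit 1334) (nat_lit 13126032660887603232)) (.cons (.rf (nat_lit 1341) (nat_lit 14242959524133701664)) (.cons (.rf (nat_lit 928) (nat_lit 14303893635)) .nil)))) (.cons (.rf (nat_lit 1334) (nat_lit 13126032660887603232)) (.cons (.br (nat_lit 11) (nat_lit 0) (.cons (.rf (nat_lit 1341) (nat_lit 14242959524133701664)) (.cons (.rf (nat_lit 1334) (nat_lit 13126032660887603232)) (.cons (.rf (nat_lit 928) (nat_lit 14303893635)) .nil)))) (.cons (.rf (nat_lit 928) (nat_lit 14303893635)) .nil))))),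
 (.br (nat_lit 11) (nat_lit 0) (.cons (.rf (nat_lit 1342) (nat_lit 14242959524133701664)) (.cons (.br (nat_lit 11) (nat_lit 0) (.cons (.rf (nat_lit 1334) (nat_lit 13126032660887603232)) (.cons (.ev (nat_lit 310698676454187745077624833) (nat_lit 1)) (.cons (.rf (nat_lit 928) (nat_lit 14303893635)) .nil)))) (.cons (.br (nat_lit 11) (nat_lit 0) (.cons (.rf (nat_lit 1341) (nat_lit 14242959524133701664)) (.cons (.ev (nat_lit 310698676454187745077624833) (nat_lit 1)) (.cons (.rf (nat_lit 928) (nat_lit 14303893635)) .nil)))) (.cons (.rf (nat_lit 928) (nat_lit 14303893635)) .nil))))),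
 (.br (nat_lit 11) (nat_lit 0) (.cons (.rf (nat_lit 1334) (nat_lit 13126032660887603232)) (.cons (.rf (nat_lit 1343) (nat_lit 14242959524133701664)) (.cons (.br (nat_lit 11) (nat_lit 0) (.cons (.rf (nat_lit 1334) (nat_lit 13126032660887603232)) (.cons (.ev (nat_lit 310698676454187745077624833) (nat_lit 1)) (.cons (.rf (nat_lit 928) (nat_lit 14303893635)) .nil)))) (.cons (.rf (nat_lit 928) (nat_lit 14303893635)) .nil))))),
 (.br (nat_lit 11) (nat_lit 0) (.cons (.rf (nat_lit 1285) (nat_lit 13126066747893450784)) (.cons (.rf (nat_lit 1334) (nat_lit 13126032660887603232)) (.cons (.rf (nat_lit 928) (nat_lit 14303893635)) .nil)))),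
 (.br (nat_lit 11) (nat_lit 0) (.cons (.rf (nat_lit 1334) (nat_lit 13126066747893450784)) (.cons (.rf (nat_lit 1334) (nat_lit 13126032660887603232)) (.cons (.rf (nat_lit 928) (nat_lit 14303893635)) .nil)))),
 (.br (nat_lit 5) (nat_lit 0) (.cons (.br (nat_lit 11) (nat_lit 0) (.cons (.rf (nat_lit 1336) (nat_lit 14242959524133701664)) (.cons (.rf (nat_lit 1339) (nat_lit 14242959524133701664)) (.cons (.rf (nat_lit 1340) (nat_lit 14242959524133701664)) (.cons (.br (nat_lit 11) (nat_lit 0) (.cons (.rf (nat_lit 1336) (nat_lit 14242959524133701664)) (.cons (.rf (nat_lit 1338) (nat_lit 14242959524133701664)) (.cons (.rf (nat_lit 1340) (nat_lit 14242959524133701664)) (.cons (.rf (nat_lit 928) (nat_lit 14303893635)) .nil))))) (.cons (.rf (nat_lit 928) (nat_lit 14303893635)) .nil)))))) (.cons (.br (nat_lit 11) (nat_lit 0) (.cons (.rf (nat_lit 1342) (nat_lit 14242959524133701664)) (.cons (.rf (nat_lit 1343) (nat_lit 14242959524133701664)) (.cons (.rf (nat_lit 1344) (nat_lit 14242959524133701664))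 (.cons (.br (nat_lit 11) (nat_lit 0) (.cons (.rf (nat_lit 1342) (nat_lit 14242959524133701664)) (.cons (.rf (nat_lit 1343) (nat_lit 14242959524133701664)) (.cons (.rf (nat_lit 1344) (nat_lit 14242959524133701664)) (.cons (.rf (nat_lit 928) (nat_lit 14303893635)) .nil))))) (.cons (.rf (nat_lit 928) (nat_lit 14303893635)) .nil)))))) (.cons (.kr (nat_lit 4722366482869645213696) (nat_lit 79228162514264337593543950336) (nat_lit 9) (nat_lit 0)) (.cons (.br (nat_lit 11) (nat_lit 0) (.cons (.br (nat_lit 11) (nat_lit 0) (.cons (.rf (nat_lit 1345) (nat_lit 14242959524133701664)) (.cons (.rf (nat_lit 1334) (nat_lit 13126032660887603232)) (.cons (.rf (nat_lit 928) (nat_lit 14303893635)) .nil)))) (.cons (.br (nat_lit 11) (nat_lit 0) (.cons (.rf (nat_lit 1345) (nat_lit 14242959524133701664)) (.cons (.rf (nat_lit 1346) (nat_lit 14242959524133701664)) (.cons (.rf (nat_lit 928) (nat_lit 14303893635)) .nil)))) (.cons (.br (nat_lit 11) (nat_lit 0) (.cons (.rf (nat_lit 1334) (nat_lit 13126032660887603232))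 (.cons (.rf (nat_lit 1346) (nat_lit 14242959524133701664)) (.cons (.rf (nat_lit 928) (nat_lit 14303893635)) .nil)))) (.cons (.rf (nat_lit 928) (nat_lit 14303893635)) .nil))))) (.cons (.rf (nat_lit 928) (nat_lit 14303893635)) .nil)))))),
 (.br (nat_lit 4) (nat_lit 1) (.cons (.br (nat_lit 6) (nat_lit 1) (.cons (.ev (nat_lit 1208925819896108463161601) (nat_lit 1)) (.cons (.br (nat_lit 11) (nat_lit 0) (.cons (.br (nat_lit 7) (nat_lit 0) (.cons (.ev (nat_lit 79228167255077846011875426561) (nat_lit 1)) (.cons (.rf (nat_lit 928) (nat_lit 14303893635)) .nil))) (.cons (.rf (nat_lit 1334) (nat_lit 13126032660887603232)) (.cons (.rf (nat_lit 928) (nat_lit 14303893635)) .nil)))) .nil))) (.cons (.ev (nat_lit 79228162514264337597838917889) (nat_lit 1)) (.cons (.br (nat_lit 11) (nat_lit 0) (.cons (.rf (nat_lit 1285) (nat_lit 13126066747893450784)) (.cons (.rf (nat_lit 1334) (nat_lit 13126066747893450784)) (.cons (.br (nat_lit 11) (nat_lit 0) (.cons (.rf (nat_lit 1285) (nat_lit 13126066747893450784))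 (.cons (.rf (nat_lit 1334) (nat_lit 13126066747893450784)) (.cons (.rf (nat_lit 928) (nat_lit 14303893635)) .nil)))) (.cons (.rf (nat_lit 928) (nat_lit 14303893635)) .nil))))) .nil)))),
 (.br (nat_lit 11) (nat_lit 0) (.cons (.rf (nat_lit 1285) (nat_lit 13126066747893450784)) (.cons (.rf (nat_lit 1334) (nat_lit 13126066747893450784)) (.cons (.br (nat_lit 11) (nat_lit 0) (.cons (.rf (nat_lit 1285) (nat_lit 13126066747893450784)) (.cons (.rf (nat_lit 1334) (nat_lit 13126066747893450784)) (.cons (.rf (nat_lit 928) (nat_lit 14303893635)) .nil)))) (.cons (.rf (nat_lit 928) (nat_lit 14303893635)) .nil))))),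
 (.br (nat_lit 11) (nat_lit 0) (.cons (.rf (nat_lit 1334) (nat_lit 13126066747893450784)) (.cons (.rf (nat_lit 1349) (nat_lit 14242925437127854112)) (.cons (.br (nat_lit 11) (nat_lit 0) (.cons (.rf (nat_lit 1334) (nat_lit 13126066747893450784)) (.cons (.rf (nat_lit 1334) (nat_lit 13126032660887603232)) (.cons (.rf (nat_lit 928) (nat_lit 14303893635)) .nil)))) (.cons (.rf (nat_lit 928) (nat_lit 14303893635)) .nil))))),
 (.br (nat_lit 7) (nat_lit 0) (.cons (.br (nat_lit 7) (nat_lit 0) (.cons (.kr (nat_lit 18446744078004518912) (nat_lit 4722366764344621924352) (nat_lit 4) (nat_lit 0)) (.cons (.rf (nat_lit 928) (nat_lit 14303893635)) .nil))) (.cons (.br (nat_lit 7) (nat_lit 0) (.cons (.kr (nat_lit 18446744078004518912) (nat_lit 4722366764344621924352) (nat_lit 4) (nat_lit 0)) (.cons (.rf (nat_lit 928) (nat_lit 14303893635)) .nil))) (.cons (.rf (nat_lit 928) (nat_lit 14303893635)) .nil)))),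
 (.br (nat_lit 11) (nat_lit 0) (.cons (.rf (nat_lit 1285) (nat_lit 13126066747893450784)) (.cons (.br (nat_lit 7) (nat_lit 0) (.cons (.kr (nat_lit 36893488151714070528) (nat_lit 79537647524085964137245442048) (nat_lit 4) (nat_lit 0)) (.cons (.kr (nat_lit 4740813226943354765312) (nat_lit 79537647524085682662268731392) (nat_lit 8) (nat_lit 0)) (.cons (.rf (nat_lit 928) (nat_lit 14303893635)) .nil)))) (.cons (.ev (nat_lit 79537647524085965236773847041) (nat_lit 1)) (.cons (.rf (nat_lit 928) (nat_lit 14303893635)) .nil))))),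
 (.br (nat_lit 7) (nat_lit 0) (.cons (.kr (nat_lit 18446744078004518912) (nat_lit 4722366764344621924352) (nat_lit 4) (nat_lit 0)) (.cons (.kr (nat_lit 1208925819614629174706176) (nat_lit 309485009821345068724781056) (nat_lit 10) (nat_lit 0)) (.cons (.rf (nat_lit 928) (nat_lit 14303893635)) .nil)))),
 (.br (nat_lit 7) (nat_lit 0) (.cons (.rf (nat_lit 1353) (nat_lit 14242959524133701664)) (.cons (.rf (nat_lit 1353) (nat_lit 6172474905114806304)) (.cons (.kr (nat_lit 1208925819614629174706176) (nat_lit 309485009821345068724781056) (nat_lit 10) (nat_lit 0)) (.cons (.rf (nat_lit 928) (nat_lit 14303893635)) .nil))))),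
 (.br (nat_lit 11) (nat_lit 0) (.cons (.rf (nat_lit 1285) (nat_lit 13126066747893450784)) (.cons (.rf (nat_lit 1334) (nat_lit 13126066747893450784)) (.cons (.rf (nat_lit 1345) (nat_lit 14242925437127854112)) (.cons (.rf (nat_lit 928) (nat_lit 14303893635)) .nil))))),
 (.br (nat_lit 11) (nat_lit 0) (.cons (.rf (nat_lit 1334) (nat_lit 13126066747893450784)) (.cons (.rf (nat_lit 1355) (nat_lit 14242925437127854112)) (.cons (.rf (nat_lit 1346) (nat_lit 14242959524133701664)) (.cons (.rf (nat_lit 928) (nat_lit 14303893635)) .nil))))),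
 (.br (nat_lit 11) (nat_lit 0) (.cons (.rf (nat_lit 1355) (nat_lit 14242959524133701664)) (.cons (.rf (nat_lit 1355) (nat_lit 14242925437127854112)) (.cons (.rf (nat_lit 1356) (nat_lit 14242959524133701664)) (.cons (.rf (nat_lit 1356) (nat_lit 14242925437127854112)) (.cons (.rf (nat_lit 928) (nat_lit 14303893635)) .nil)))))),
 (.br (nat_lit 5) (nat_lit 0) (.cons (.rf (nat_lit 1347) (nat_lit 14242959524133701664)) (.cons (.br (nat_lit 10) (nat_lit 1) (.cons (.rf (nat_lit 1348) (nat_lit 14242959524133701664)) (.cons (.rf (nat_lit 1348) (nat_lit 14242959524133700672)) (.cons (.br (nat_lit 11) (nat_lit 0) (.cons (.rf (nat_lit 1349) (nat_lit 14242959524133701664)) (.cons (.rf (nat_lit 1349) (nat_lit 14242925437127854112)) (.cons (.rf (nat_lit 1350) (nat_lit 14242959524133701664)) (.cons (.rf (nat_lit 1350) (nat_lit 14242925437127854112)) (.cons (.rf (nat_lit 928) (nat_lit 14303893635)) .nil)))))) (.cons (.br (nat_lit 11) (nat_lit 0) (.cons (.br (nat_lit 11) (nat_lit 0) (.cons (.rf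 (nat_lit 1285) (nat_lit 13126066747893450784)) (.cons (.rf (nat_lit 1334) (nat_lit 13126066747893450784)) (.cons (.rf (nat_lit 1351) (nat_lit 14242959524133701664)) (.cons (.rf (nat_lit 928) (nat_lit 14303893635)) .nil))))) (.cons (.rf (nat_lit 1352) (nat_lit 14242959524133701664)) (.cons (.br (nat_lit 11) (nat_lit 0) (.cons (.rf (nat_lit 1334) (nat_lit 13126066747893450784)) (.cons (.rf (nat_lit 1352) (nat_lit 14242959524133701664)) (.cons (.rf (nat_lit 1354) (nat_lit 14242959524133701664)) (.cons (.rf (nat_lit 928) (nat_lit 14303893635)) .nil))))) (.cons (.br (nat_lit 11) (nat_lit 0) (.cons (.rf (nat_lit 1351) (nat_lit 14242959524133701664)) (.cons (.ev (nat_lit 79537647524085965236773847041) (nat_lit 1)) (.cons (.rf (nat_lit 1354) (nat_lit 14242959524133701664)) (.cons (.rf (nat_lit 928) (nat_lit 14303893635)) .nil))))) (.cons (.rf (nat_lit 928) (nat_lit 14303893635)) .nil)))))) .nil))))) (.cons (.kr (nat_lit 4722366482869645213696) (nat_lit 79228162514264337593543950336)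 (nat_lit 9) (nat_lit 0)) (.cons (.rf (nat_lit 1357) (nat_lit 14242959524133701664)) (.cons (.rf (nat_lit 928) (nat_lit 14303893635)) .nil)))))),
 (.br (nat_lit 12) (nat_lit 0) (.cons (.rf (nat_lit 1285) (nat_lit 14242959524133701664)) (.cons (.rf (nat_lit 1334) (nat_lit 14242959524133701664)) (.cons (.br (nat_lit 5) (nat_lit 0) (.cons (.rf (nat_lit 1347) (nat_lit 14242959524133701664)) (.cons (.rf (nat_lit 1358) (nat_lit 14242959524133701664)) (.cons (.br (nat_lit 5) (nat_lit 0) (.cons (.rf (nat_lit 1347) (nat_lit 14242959524133701664)) (.cons (.rf (nat_lit 1358) (nat_lit 14242959524133701664)) (.cons (.kr (nat_lit 4722366482869645213696) (nat_lit 79228162514264337593543950336) (nat_lit 9) (nat_lit 0)) (.cons (.rf (nat_lit 1357) (nat_lit 14242959524133701664)) (.cons (.rf (nat_lit 928) (nat_lit 14303893635)) .nil)))))) (.cons (.kr (nat_lit 4722366482869645213696) (nat_lit 79228162514264337593543950336) (nat_lit 9) (nat_lit 0)) (.cons (.rf (nat_lit 1357) (nat_lit 14242959524133701664))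 (.cons (.rf (nat_lit 928) (nat_lit 14303893635)) .nil))))))) (.cons (.rf (nat_lit 928) (nat_lit 14303893635)) .nil))))),
 (.br (nat_lit 12) (nat_lit 0) (.cons (.rf (nat_lit 1285) (nat_lit 14242959524133701664)) (.cons (.rf (nat_lit 1334) (nat_lit 14242959524133701664)) (.cons (.rf (nat_lit 1359) (nat_lit 14242959524133701664)) (.cons (.br (nat_lit 12) (nat_lit 0) (.cons (.rf (nat_lit 1285) (nat_lit 14242959524133701664)) (.cons (.rf (nat_lit 1334) (nat_lit 14242959524133701664)) (.cons (.rf (nat_lit 1359) (nat_lit 14242959524133701664)) (.cons (.rf (nat_lit 928) (nat_lit 14303893635)) .nil))))) (.cons (.rf (nat_lit 928) (nat_lit 14303893635)) .nil)))))),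
 (.br (nat_lit 2) (nat_lit 0) (.cons (.rf (nat_lit 1351) (nat_lit 14240740500193811616)) (.cons (.rf (nat_lit 928) (nat_lit 14303893635)) .nil))),
 (.br (nat_lit 7) (nat_lit 0) (.cons (.br (nat_lit 5) (nat_lit 0) (.cons (.rf (nat_lit 1361) (nat_lit 14242959524133700672)) (.cons (.rf (nat_lit 1361) (nat_lit 14242925437127853120)) (.cons (.rf (nat_lit 928) (nat_lit 14303893635)) .nil)))) (.cons (.rf (nat_lit 928) (nat_lit 14303893635)) .nil))),
 (.br (nat_lit 7) (nat_lit 0) (.cons (.rf (nat_lit 1362) (nat_lit 14242959524133701664)) (.cons (.rf (nat_lit 1362) (nat_lit 14242925437127854112)) (.cons (.rf (nat_lit 928) (nat_lit 14303893635)) .nil))))]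

theorem c45 : chkAll C T R L45 (nat_lit 1332) = true := by decide +kernel

theorem l45 : (nat_lit 1332) + L45.length = (nat_lit 1364) := by decide +kernel

/-- part of the certificates -/
def L46 : List Prf := [(.br (nat_lit 11) (nat_lit 0) (.cons (.rf (nat_lit 1360) (nat_lit 13126066747893450784)) (.cons (.rf (nat_lit 1360) (nat_lit 13126032660887603232)) (.cons (.br (nat_lit 11) (nat_lit 0) (.cons (.rf (nat_lit 1360) (nat_lit 13126066747893450784)) (.cons (.rf (nat_lit 1360) (nat_lit 13126032660887603232)) (.cons (.rf (nat_lit 1363) (nat_lit 14242959524133701664)) (.cons (.rf (nat_lit 928) (nat_lit 14303893635)) .nil))))) (.cons (.br (nat_lit 11) (nat_lit 0) (.cons (.rf (nat_lit 1360) (nat_lit 13126066747893450784)) (.cons (.rf (nat_lit 1360) (nat_lit 13126032660887603232)) (.cons (.rf (nat_lit 1363) (nat_lit 14242959524133701664)) (.cons (.rf (nat_lit 928) (nat_lit 14303893635)) .nil))))) (.cons (.rf (nat_lit 928) (nat_lit 14303893635)) .nil)))))),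
 (.br (nat_lit 12) (nat_lit 0) (.cons (.rf (nat_lit 1360) (nat_lit 14242959524133701664)) (.cons (.rf (nat_lit 1360) (nat_lit 14242925437127854112)) (.cons (.br (nat_lit 11) (nat_lit 0) (.cons (.rf (nat_lit 1360) (nat_lit 13126066747893450784)) (.cons (.rf (nat_lit 1360) (nat_lit 13126032660887603232)) (.cons (.rf (nat_lit 1364) (nat_lit 14242959524133701664)) (.cons (.rf (nat_lit 1364) (nat_lit 14242925437127854112)) (.cons (.br (nat_lit 11) (nat_lit 0) (.cons (.rf (nat_lit 1360) (nat_lit 13126066747893450784)) (.cons (.rf (nat_lit 1360) (nat_lit 13126032660887603232)) (.cons (.rf (nat_lit 1364) (nat_lit 14242959524133701664)) (.cons (.rf (nat_lit 1364) (nat_lit 14242925437127854112)) (.cons (.rf (nat_lit 928) (nat_lit 14303893635)) .nil)))))) (.cons (.rf (nat_lit 928) (nat_lit 14303893635)) .nil))))))) (.cons (.rf (nat_lit 928) (nat_lit 14303893635)) .nil))))),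
 (.br (nat_lit 12) (nat_lit 0) (.cons (.rf (nat_lit 1360) (nat_lit 14242959524133701664)) (.cons (.rf (nat_lit 1360) (nat_lit 14242925437127854112)) (.cons (.rf (nat_lit 1365) (nat_lit 14242959524133701664)) (.cons (.br (nat_lit 12) (nat_lit 0) (.cons (.rf (nat_lit 1360) (nat_lit 14242959524133701664)) (.cons (.rf (nat_lit 1360) (nat_lit 14242925437127854112)) (.cons (.rf (nat_lit 1365) (nat_lit 14242959524133701664)) (.cons (.rf (nat_lit 928) (nat_lit 14303893635)) .nil))))) (.cons (.rf (nat_lit 928) (nat_lit 14303893635)) .nil)))))),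
 (.br (nat_lit 12) (nat_lit 0) (.cons (.rf (nat_lit 1360) (nat_lit 14242959524133701664)) (.cons (.rf (nat_lit 1360) (nat_lit 14242925437127854112)) (.cons (.rf (nat_lit 1366) (nat_lit 14242959524133701664)) (.cons (.rf (nat_lit 1366) (nat_lit 14242925437127854112)) (.cons (.br (nat_lit 12) (nat_lit 0) (.cons (.rf (nat_lit 1360) (nat_lit 14242959524133701664)) (.cons (.rf (nat_lit 1360) (nat_lit 14242925437127854112)) (.cons (.rf (nat_lit 1366) (nat_lit 14242959524133701664)) (.cons (.rf (nat_lit 1366) (nat_lit 14242925437127854112)) (.cons (.rf (nat_lit 928) (nat_lit 14303893635)) .nil)))))) (.cons (.rf (nat_lit 928) (nat_lit 14303893635)) .nil))))))),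
 (.br (nat_lit 1) (nat_lit 0) (.cons (.rf (nat_lit 928) (nat_lit 14303893635)) .nil)),
 (.br (nat_lit 11) (nat_lit 0) (.cons (.rf (nat_lit 1368) (nat_lit 14242959524133701664)) (.cons (.rf (nat_lit 928) (nat_lit 14303893635)) .nil))),
 (.br (nat_lit 7) (nat_lit 0) (.cons (.br (nat_lit 5) (nat_lit 0) (.cons (.rf (nat_lit 1369) (nat_lit 14242959524133701664)) (.cons (.br (nat_lit 1) (nat_lit 0) (.cons (.rf (nat_lit 1369) (nat_lit 14242959523999484064)) (.cons (.rf (nat_lit 928) (nat_lit 14303893635)) .nil))) (.cons (.rf (nat_lit 928) (nat_lit 14303893635)) .nil)))) (.cons (.rf (nat_lit 928) (nat_lit 14303893635)) .nil))),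
 (.br (nat_lit 7) (nat_lit 0) (.cons (.rf (nat_lit 1370) (nat_lit 14242959524133701664)) (.cons (.br (nat_lit 7) (nat_lit 0) (.cons (.rf (nat_lit 1370) (nat_lit 14242959524133701664)) (.cons (.rf (nat_lit 928) (nat_lit 14303893635)) .nil))) (.cons (.rf (nat_lit 928) (nat_lit 14303893635)) .nil)))),
 (.br (nat_lit 7) (nat_lit 0) (.cons (.kr (nat_lit 4722366482869645213696) (nat_lit 309485009821345068724781056) (nat_lit 9) (nat_lit 0)) (.cons (.br (nat_lit 1) (nat_lit 0) (.cons (.br (nat_lit 2) (nat_lit 0) (.cons (.rf (nat_lit 928) (nat_lit 14303893635)) .nil)) (.cons (.rf (nat_lit 928) (nat_lit 14303893635)) .nil))) (.cons (.rf (nat_lit 928) (nat_lit 14303893635)) .nil)))),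
 (.br (nat_lit 11) (nat_lit 0) (.cons (.rf (nat_lit 1371) (nat_lit 14242959524133701664)) (.cons (.br (nat_lit 7) (nat_lit 0) (.cons (.rf (nat_lit 1372) (nat_lit 14242959524133701664)) (.cons (.kr (nat_lit 4722366482869645213696) (nat_lit 309485009821345068724781056) (nat_lit 9) (nat_lit 0)) (.cons (.br (nat_lit 7) (nat_lit 0) (.cons (.rf (nat_lit 1372) (nat_lit 14242959524133701664)) (.cons (.kr (nat_lit 4722366482869645213696) (nat_lit 309485009821345068724781056) (nat_lit 9) (nat_lit 0)) (.cons (.rf (nat_lit 928) (nat_lit 14303893635)) .nil)))) (.cons (.rf (nat_lit 928) (nat_lit 14303893635)) .nil))))) (.cons (.rf (nat_lit 928) (nat_lit 14303893635)) .nil)))),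
 (.br (nat_lit 11) (nat_lit 0) (.cons (.rf (nat_lit 1371) (nat_lit 14242959524133701664)) (.cons (.rf (nat_lit 1373) (nat_lit 14242959524133701664)) (.cons (.br (nat_lit 11) (nat_lit 0) (.cons (.rf (nat_lit 1371) (nat_lit 14242959524133701664)) (.cons (.rf (nat_lit 1373) (nat_lit 14242959524133701664)) (.cons (.rf (nat_lit 928) (nat_lit 14303893635)) .nil)))) (.cons (.rf (nat_lit 928) (nat_lit 14303893635)) .nil))))),
 (.br (nat_lit 7) (nat_lit 0) (.cons (.br (nat_lit 7) (nat_lit 0) (.cons (.rf (nat_lit 928) (nat_lit 14303893635)) .nil)) (.cons (.rf (nat_lit 928) (nat_lit 14303893635)) .nil))),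
 (.br (nat_lit 11) (nat_lit 0) (.cons (.br (nat_lit 11) (nat_lit 0) (.cons (.ev (nat_lit 1208925819896108463161601) (nat_lit 1)) (.cons (.rf (nat_lit 928) (nat_lit 14303893635)) .nil))) (.cons (.ev (nat_lit 1208925819896108463161601) (nat_lit 1)) (.cons (.rf (nat_lit 928) (nat_lit 14303893635)) .nil)))),
 (.br (nat_lit 7) (nat_lit 0) (.cons (.rf (nat_lit 1376) (nat_lit 14242959524133701664)) (.cons (.br (nat_lit 11) (nat_lit 0) (.cons (.ev (nat_lit 1208925819896108463161601) (nat_lit 1)) (.cons (.rf (nat_lit 928) (nat_lit 14303893635)) .nil))) (.cons (.rf (nat_lit 928) (nat_lit 14303893635)) .nil)))),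
 (.br (nat_lit 11) (nat_lit 0) (.cons (.zr (nat_lit 158458742880168467395390865408) (nat_lit 55412289819478327297) (nat_lit 5) (nat_lit 8)) (.cons (.br (nat_lit 11) (nat_lit 0) (.cons (.zr (nat_lit 158458742880168467395390865408) (nat_lit 55412289819478327297) (nat_lit 5) (nat_lit 8)) (.cons (.rf (nat_lit 928) (nat_lit 14303893635)) .nil))) (.cons (.rf (nat_lit 928) (nat_lit 14303893635)) .nil)))),
 (.br (nat_lit 5) (nat_lit 0) (.cons (.ev (nat_lit 79228162532711364241758683393) (nat_lit 1)) (.cons (.br (nat_lit 7) (nat_lit 0) (.cons (.ev (nat_lit 1213648258436572129525761) (nat_lit 1)) (.cons (.rf (nat_lit 928) (nat_lit 14303893635)) .nil))) (.cons (.rf (nat_lit 928) (nat_lit 14303893635)) .nil)))),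
 (.br (nat_lit 7) (nat_lit 0) (.cons (.rf (nat_lit 1379) (nat_lit 14242959524133701664)) (.cons (.rf (nat_lit 1378) (nat_lit 14242959524133701664)) (.cons (.rf (nat_lit 928) (nat_lit 14303893635)) .nil)))),
 (.br (nat_lit 2) (nat_lit 0) (.cons (.rf (nat_lit 1374) (nat_lit 14242959524133701664)) (.cons (.br (nat_lit 1) (nat_lit 0) (.cons (.br (nat_lit 11) (nat_lit 0) (.cons (.rf (nat_lit 1375) (nat_lit 14242959524133701664)) (.cons (.br (nat_lit 11) (nat_lit 0) (.cons (.rf (nat_lit 1375) (nat_lit 14242959524133701664)) (.cons (.rf (nat_lit 928) (nat_lit 14303893635)) .nil))) (.cons (.rf (nat_lit 928) (nat_lit 14303893635)) .nil)))) (.cons (.rf (nat_lit 1367) (nat_lit 14238244822568962080)) (.cons (.br (nat_lit 7) (nat_lit 0) (.cons (.rf (nat_lit 1376) (nat_lit 14242959524133701664)) (.cons (.rf (nat_lit 1377) (nat_lit 14242959524133701664)) (.cons (.br (nat_lit 7) (nat_lit 0) (.cons (.rf (nat_lit 1376) (nat_lit 14242959524133701664)) (.cons (.rf (nat_lit 1377) (nat_lit 14242959524133701664))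 (.cons (.rf (nat_lit 928) (nat_lit 14303893635)) .nil)))) (.cons (.rf (nat_lit 928) (nat_lit 14303893635)) .nil))))) (.cons (.rf (nat_lit 928) (nat_lit 14303893635)) .nil))))) (.cons (.br (nat_lit 1) (nat_lit 0) (.cons (.br (nat_lit 7) (nat_lit 0) (.cons (.br (nat_lit 7) (nat_lit 0) (.cons (.rf (nat_lit 1378) (nat_lit 14242959524133701664)) (.cons (.rf (nat_lit 928) (nat_lit 14303893635)) .nil))) (.cons (.br (nat_lit 7) (nat_lit 0) (.cons (.rf (nat_lit 1378) (nat_lit 14242959524133701664)) (.cons (.rf (nat_lit 928) (nat_lit 14303893635)) .nil))) (.cons (.rf (nat_lit 928) (nat_lit 14303893635)) .nil)))) (.cons (.br (nat_lit 7) (nat_lit 0) (.cons (.rf (nat_lit 1379) (nat_lit 14242959524133701664)) (.cons (.rf (nat_lit 1380) (nat_lit 14242959524133701664)) (.cons (.br (nat_lit 7) (nat_lit 0) (.cons (.rf (nat_lit 1379) (nat_lit 14242959524133701664)) (.cons (.rf (nat_lit 1378) (nat_lit 14242959524133701664)) (.cons (.rf (nat_lit 928) (nat_lit 14303893635)) .nil)))) (.cons (.rf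 (nat_lit 928) (nat_lit 14303893635)) .nil))))) (.cons (.rf (nat_lit 1367) (nat_lit 14234968276848674848)) (.cons (.rf (nat_lit 928) (nat_lit 14303893635)) .nil))))) (.cons (.rf (nat_lit 928) (nat_lit 14303893635)) .nil))))),
 (.br (nat_lit 11) (nat_lit 0) (.cons (.ev (nat_lit 309489750634572016391290881) (nat_lit 1)) (.cons (.rf (nat_lit 1368) (nat_lit 14242959352402117792)) (.cons (.rf (nat_lit 928) (nat_lit 14303893635)) .nil)))),
 (.br (nat_lit 7) (nat_lit 0) (.cons (.rf (nat_lit 1382) (nat_lit 14242959524133701664)) (.cons (.br (nat_lit 7) (nat_lit 0) (.cons (.rf (nat_lit 1382) (nat_lit 14242959524133701664)) (.cons (.rf (nat_lit 928) (nat_lit 14303893635)) .nil))) (.cons (.rf (nat_lit 928) (nat_lit 14303893635)) .nil)))),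
 (.br (nat_lit 11) (nat_lit 0) (.cons (.rf (nat_lit 1383) (nat_lit 14242959524133701664)) (.cons (.br (nat_lit 5) (nat_lit 0) (.cons (.ev (nat_lit 79537652246452166631442350081) (nat_lit 1)) (.cons (.rf (nat_lit 928) (nat_lit 14303893635)) .nil))) (.cons (.rf (nat_lit 928) (nat_lit 14303893635)) .nil)))),
 (.br (nat_lit 11) (nat_lit 0) (.cons (.br (nat_lit 11) (nat_lit 0) (.cons (.ev (nat_lit 79229376162450716567340581121) (nat_lit 1)) (.cons (.rf (nat_lit 928) (nat_lit 14303893635)) .nil))) (.cons (.br (nat_lit 11) (nat_lit 0) (.cons (.ev (nat_lit 79229376162450716567340581121) (nat_lit 1)) (.cons (.rf (nat_lit 928) (nat_lit 14303893635)) .nil))) (.cons (.rf (nat_lit 928) (nat_lit 14303893635)) .nil)))),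
 (.br (nat_lit 7) (nat_lit 0) (.cons (.rf (nat_lit 1385) (nat_lit 14242959524133701664)) (.cons (.br (nat_lit 5) (nat_lit 0) (.cons (.ev (nat_lit 79229376180969237863934722305) (nat_lit 1)) (.cons (.rf (nat_lit 928) (nat_lit 14303893635)) .nil))) (.cons (.rf (nat_lit 928) (nat_lit 14303893635)) .nil)))),
 (.br (nat_lit 2) (nat_lit 0) (.cons (.rf (nat_lit 1374) (nat_lit 14242959524133701664)) (.cons (.rf (nat_lit 1381) (nat_lit 14242959524133701664)) (.cons (.br (nat_lit 1) (nat_lit 0) (.cons (.br (nat_lit 11) (nat_lit 0) (.cons (.rf (nat_lit 1383) (nat_lit 14242959524133701664)) (.cons (.rf (nat_lit 1384) (nat_lit 14242959524133701664)) (.cons (.br (nat_lit 11) (nat_lit 0) (.cons (.rf (nat_lit 1383) (nat_lit 14242959524133701664)) (.cons (.rf (nat_lit 1384) (nat_lit 14242959524133701664)) (.cons (.rf (nat_lit 928) (nat_lit 14303893635)) .nil)))) (.cons (.rf (nat_lit 928) (nat_lit 14303893635)) .nil))))) (.cons (.br (nat_lit 7) (nat_lit 0) (.cons (.rf (nat_lit 1385) (nat_lit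 14242959524133701664)) (.cons (.rf (nat_lit 1386) (nat_lit 14242959524133701664)) (.cons (.br (nat_lit 7) (nat_lit 0) (.cons (.rf (nat_lit 1385) (nat_lit 14242959524133701664)) (.cons (.rf (nat_lit 1386) (nat_lit 14242959524133701664)) (.cons (.rf (nat_lit 928) (nat_lit 14303893635)) .nil)))) (.cons (.rf (nat_lit 928) (nat_lit 14303893635)) .nil))))) (.cons (.rf (nat_lit 1367) (nat_lit 14238244822568962080)) (.cons (.rf (nat_lit 1367) (nat_lit 14234968276848674848)) (.cons (.rf (nat_lit 928) (nat_lit 14303893635)) .nil)))))) (.cons (.rf (nat_lit 928) (nat_lit 14303893635)) .nil))))),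
 (.br (nat_lit 2) (nat_lit 0) (.cons (.rf (nat_lit 1374) (nat_lit 14242959524133701664)) (.cons (.rf (nat_lit 1381) (nat_lit 14242959524133701664)) (.cons (.rf (nat_lit 1387) (nat_lit 14242959524133701664)) (.cons (.br (nat_lit 2) (nat_lit 0) (.cons (.rf (nat_lit 1374) (nat_lit 14242959524133701664)) (.cons (.rf (nat_lit 1381) (nat_lit 14242959524133701664)) (.cons (.rf (nat_lit 1387) (nat_lit 14242959524133701664)) (.cons (.rf (nat_lit 928) (nat_lit 14303893635)) .nil))))) (.cons (.rf (nat_lit 928) (nat_lit 14303893635)) .nil)))))),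
 (.br (nat_lit 2) (nat_lit 0) (.cons (.rf (nat_lit 1237) (nat_lit 14242959524033041440)) (.cons (.rf (nat_lit 928) (nat_lit 14303893635)) .nil))),
 (.br (nat_lit 2) (nat_lit 0) (.cons (.rf (nat_lit 1389) (nat_lit 14242959524133701664)) (.cons (.br (nat_lit 2) (nat_lit 0) (.cons (.rf (nat_lit 1237) (nat_lit 14242959524033041440)) (.cons (.rf (nat_lit 928) (nat_lit 14303893635)) .nil))) (.cons (.rf (nat_lit 928) (nat_lit 14303893635)) .nil)))),
 (.br (nat_lit 7) (nat_lit 0) (.cons (.rf (nat_lit 1390) (nat_lit 14242959524133701664)) (.cons (.br (nat_lit 5) (nat_lit 0) (.cons (.kr (nat_lit 309485028268090241945960448) (nat_lit 79228162514336676662558588928) (nat_lit 5) (nat_lit 0)) (.cons (.br (nat_lit 1) (nat_lit 0) (.cons (.ev (nat_lit 79229371458530977775716663553) (nat_lit 1)) (.cons (.rf (nat_lit 928) (nat_lit 14303893635)) .nil))) (.cons (.rf (nat_lit 928) (nat_lit 14303893635)) .nil)))) (.cons (.rf (nat_lit 928) (nat_lit 14303893635)) .nil)))),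
 (.br (nat_lit 2) (nat_lit 0) (.cons (.kr (nat_lit 18446744073709551872) (nat_lit 281474976776192) (nat_lit 1) (nat_lit 0)) (.cons (.rf (nat_lit 928) (nat_lit 14303893635)) .nil))),
 (.br (nat_lit 1) (nat_lit 0) (.cons (.br (nat_lit 2) (nat_lit 0) (.cons (.rf (nat_lit 1367) (nat_lit 14238244822568962080)) (.cons (.rf (nat_lit 1392) (nat_lit 14242959524133701664)) (.cons (.rf (nat_lit 928) (nat_lit 14303893635)) .nil)))) (.cons (.ev (nat_lit 1208925819896108463161601) (nat_lit 1)) (.cons (.rf (nat_lit 928) (nat_lit 14303893635)) .nil)))),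
 (.br (nat_lit 11) (nat_lit 0) (.cons (.rf (nat_lit 1388) (nat_lit 14242959524133701664)) (.cons (.br (nat_lit 7) (nat_lit 0) (.cons (.rf (nat_lit 1390) (nat_lit 14242959524133701664)) (.cons (.rf (nat_lit 1391) (nat_lit 14242959524133701664)) (.cons (.br (nat_lit 7) (nat_lit 0) (.cons (.rf (nat_lit 1390) (nat_lit 14242959524133701664)) (.cons (.rf (nat_lit 1391) (nat_lit 14242959524133701664)) (.cons (.rf (nat_lit 928) (nat_lit 14303893635)) .nil)))) (.cons (.rf (nat_lit 928) (nat_lit 14303893635)) .nil))))) (.cons (.br (nat_lit 7) (nat_lit 0) (.cons (.rf (nat_lit 1393) (nat_lit 14242959524133701664)) (.cons (.br (nat_lit 7) (nat_lit 0) (.cons (.rf (nat_lit 1393) (nat_lit 14242959524133701664)) (.cons (.rf (nat_lit 1240) (nat_lit 14242959524033041440)) (.cons (.rf (nat_lit 928) (nat_lit 14303893635)) .nil)))) (.cons (.br (nat_lit 7) (nat_lit 0) (.cons (.rf (nat_lit 1393) (nat_lit 14242959524133701664)) (.cons (.rf (nat_lit 1240) (nat_lit 14242959524033041440)) (.cons (.rf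 (nat_lit 928) (nat_lit 14303893635)) .nil)))) (.cons (.rf (nat_lit 928) (nat_lit 14303893635)) .nil))))) (.cons (.rf (nat_lit 928) (nat_lit 14303893635)) .nil))))),
 (.br (nat_lit 5) (nat_lit 0) (.cons (.ev (nat_lit 1213666632842672057876481) (nat_lit 1)) (.cons (.rf (nat_lit 928) (nat_lit 14303893635)) .nil))),
 (.br (nat_lit 2) (nat_lit 0) (.cons (.rf (nat_lit 1395) (nat_lit 14242959524133701664)) (.cons (.ev (nat_lit 79228162532711081667253567489) (nat_lit 1)) (.cons (.rf (nat_lit 928) (nat_lit 14303893635)) .nil)))),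
 (.br (nat_lit 2) (nat_lit 0) (.cons (.rf (nat_lit 1109) (nat_lit 14240604167188124896)) (.cons (.rf (nat_lit 928) (nat_lit 14303893635)) .nil))),
 (.br (nat_lit 7) (nat_lit 0) (.cons (.rf (nat_lit 1396) (nat_lit 14242959524133701664)) (.cons (.br (nat_lit 7) (nat_lit 0) (.cons (.rf (nat_lit 1396) (nat_lit 14242959524133701664)) (.cons (.rf (nat_lit 1397) (nat_lit 14242959524133701664)) (.cons (.rf (nat_lit 928) (nat_lit 14303893635)) .nil)))) (.cons (.br (nat_lit 7) (nat_lit 0) (.cons (.rf (nat_lit 1396) (nat_lit 14242959524133701664)) (.cons (.rf (nat_lit 1397) (nat_lit 14242959524133701664)) (.cons (.rf (nat_lit 928) (nat_lit 14303893635)) .nil)))) (.cons (.rf (nat_lit 928) (nat_lit 14303893635)) .nil)))))]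

theorem c46 : chkAll C T R L46 (nat_lit 1364) = true := by decide +kernel

theorem l46 : (nat_lit 1364) + L46.length = (nat_lit 1399) := by decide +kernel

/-- part of the certificates -/
def L47 : List Prf := [(.br (nat_lit 2) (nat_lit 0) (.cons (.rf (nat_lit 1398) (nat_lit 14242959524133701664)) (.cons (.br (nat_lit 1) (nat_lit 0) (.cons (.br (nat_lit 5) (nat_lit 0) (.cons (.ev (nat_lit 79847146737900810016085115650) (nat_lit 2)) (.cons (.rf (nat_lit 928) (nat_lit 14303893635)) .nil))) (.cons (.ev (nat_lit 310698676454468116247805953) (nat_lit 1)) (.cons (.rf (nat_lit 928) (nat_lit 14303893635)) .nil)))) (.cons (.br (nat_lit 7) (nat_lit 0) (.cons (.br (nat_lit 7) (nat_lit 0) (.cons (.ev (nat_lit 79229376180897179166073487361) (nat_lit 1)) (.cons (.rf (nat_lit 928) (nat_lit 14303893635)) .nil))) (.cons (.ev (nat_lit 79229376180897179166073487361) (nat_lit 1)) (.cons (.rf (nat_lit 928) (nat_lit 14303893635)) .nil)))) (.cons (.rf (nat_lit 928) (nat_lit 14303893635)) .nil))))),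
 (.br (nat_lit 2) (nat_lit 0) (.cons (.rf (nat_lit 1398) (nat_lit 14242959524133701664)) (.cons (.rf (nat_lit 1399) (nat_lit 14242959524133701664)) (.cons (.br (nat_lit 7) (nat_lit 0) (.cons (.br (nat_lit 7) (nat_lit 0) (.cons (.ev (nat_lit 4740885284541704437761) (nat_lit 1)) (.cons (.rf (nat_lit 928) (nat_lit 14303893635)) .nil))) (.cons (.rf (nat_lit 1247) (nat_lit 14242959524033041440)) (.cons (.rf (nat_lit 928) (nat_lit 14303893635)) .nil)))) (.cons (.rf (nat_lit 928) (nat_lit 14303893635)) .nil))))),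
 (.br (nat_lit 11) (nat_lit 0) (.cons (.rf (nat_lit 1388) (nat_lit 14242959524133701664)) (.cons (.rf (nat_lit 1394) (nat_lit 14242959524133701664)) (.cons (.br (nat_lit 2) (nat_lit 0) (.cons (.rf (nat_lit 1398) (nat_lit 14242959524133701664)) (.cons (.rf (nat_lit 1399) (nat_lit 14242959524133701664)) (.cons (.rf (nat_lit 1400) (nat_lit 14242959524133701664)) (.cons (.br (nat_lit 2) (nat_lit 0) (.cons (.rf (nat_lit 1398) (nat_lit 14242959524133701664)) (.cons (.rf (nat_lit 1399) (nat_lit 14242959524133701664)) (.cons (.rf (nat_lit 1400) (nat_lit 14242959524133701664)) (.cons (.rf (nat_lit 928) (nat_lit 14303893635)) .nil))))) (.cons (.rf (nat_lit 928) (nat_lit 14303893635)) .nil)))))) (.cons (.rf (nat_lit 928) (nat_lit 14303893635)) .nil))))),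
 (.br (nat_lit 11) (nat_lit 0) (.cons (.rf (nat_lit 1388) (nat_lit 14242959524133701664)) (.cons (.rf (nat_lit 1394) (nat_lit 14242959524133701664)) (.cons (.rf (nat_lit 1401) (nat_lit 14242959524133701664)) (.cons (.br (nat_lit 11) (nat_lit 0) (.cons (.rf (nat_lit 1388) (nat_lit 14242959524133701664)) (.cons (.rf (nat_lit 1394) (nat_lit 14242959524133701664)) (.cons (.rf (nat_lit 1401) (nat_lit 14242959524133701664)) (.cons (.rf (nat_lit 928) (nat_lit 14303893635)) .nil))))) (.cons (.rf (nat_lit 928) (nat_lit 14303893635)) .nil)))))),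
 (.br (nat_lit 2) (nat_lit 0) (.cons (.br (nat_lit 1) (nat_lit 0) (.cons (.rf (nat_lit 928) (nat_lit 14303893635)) .nil)) (.cons (.rf (nat_lit 928) (nat_lit 14303893635)) .nil))),
 (.br (nat_lit 2) (nat_lit 0) (.cons (.rf (nat_lit 1403) (nat_lit 14242959524133701664)) (.cons (.br (nat_lit 2) (nat_lit 0) (.cons (.rf (nat_lit 1403) (nat_lit 14242959524133701664)) (.cons (.rf (nat_lit 928) (nat_lit 14303893635)) .nil))) (.cons (.rf (nat_lit 928) (nat_lit 14303893635)) .nil)))),
 (.br (nat_lit 2) (nat_lit 0) (.cons (.kr (nat_lit 18446744078004518912) (nat_lit 4722366764344621924352) (nat_lit 4) (nat_lit 0)) (.cons (.br (nat_lit 1) (nat_lit 0) (.cons (.ev (nat_lit 1208925891672223229477121) (nat_lit 1)) (.cons (.rf (nat_lit 928) (nat_lit 14303893635)) .nil))) (.cons (.rf (nat_lit 928) (nat_lit 14303893635)) .nil)))),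
 (.br (nat_lit 7) (nat_lit 0) (.cons (.rf (nat_lit 1404) (nat_lit 14242959524133701664)) (.cons (.br (nat_lit 2) (nat_lit 0) (.cons (.rf (nat_lit 1405) (nat_lit 14242959524133701664)) (.cons (.br (nat_lit 2) (nat_lit 0) (.cons (.rf (nat_lit 1405) (nat_lit 14242959524133701664)) (.cons (.rf (nat_lit 928) (nat_lit 14303893635)) .nil))) (.cons (.rf (nat_lit 928) (nat_lit 14303893635)) .nil)))) (.cons (.kr (nat_lit 1208925819614629174706176) (nat_lit 309485009821345068724781056) (nat_lit 10) (nat_lit 0)) (.cons (.rf (nat_lit 928) (nat_lit 14303893635)) .nil))))),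
 (.br (nat_lit 7) (nat_lit 0) (.cons (.rf (nat_lit 1404) (nat_lit 14242959524133701664)) (.cons (.br (nat_lit 1) (nat_lit 0) (.cons (.ev (nat_lit 79228162514264619068520661249) (nat_lit 1)) (.cons (.br (nat_lit 5) (nat_lit 0) (.cons (.ev (nat_lit 158457543454566168126669455874) (nat_lit 2)) (.cons (.rf (nat_lit 928) (nat_lit 14303893635)) .nil))) (.cons (.rf (nat_lit 928) (nat_lit 14303893635)) .nil)))) (.cons (.kr (nat_lit 1208925819614629174706176) (nat_lit 309485009821345068724781056) (nat_lit 10) (nat_lit 0)) (.cons (.rf (nat_lit 928) (nat_lit 14303893635)) .nil))))),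
 (.br (nat_lit 11) (nat_lit 0) (.cons (.rf (nat_lit 1388) (nat_lit 14242959524133701664)) (.cons (.rf (nat_lit 1402) (nat_lit 14242959524133701664)) (.cons (.br (nat_lit 7) (nat_lit 0) (.cons (.rf (nat_lit 1406) (nat_lit 14242959524133701664)) (.cons (.rf (nat_lit 1407) (nat_lit 14242959524133701664)) (.cons (.br (nat_lit 7) (nat_lit 0) (.cons (.rf (nat_lit 1406) (nat_lit 14242959524133701664)) (.cons (.rf (nat_lit 1407) (nat_lit 14242959524133701664)) (.cons (.kr (nat_lit 1208925819614629174706176) (nat_lit 309485009821345068724781056) (nat_lit 10) (nat_lit 0)) (.cons (.rf (nat_lit 928) (nat_lit 14303893635)) .nil))))) (.cons (.kr (nat_lit 1208925819614629174706176) (nat_lit 309485009821345068724781056) (nat_lit 10) (nat_lit 0)) (.cons (.rf (nat_lit 928) (nat_lit 14303893635)) .nil)))))) (.cons (.rf (nat_lit 928) (nat_lit 14303893635)) .nil))))),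
 (.br (nat_lit 11) (nat_lit 0) (.cons (.rf (nat_lit 1388) (nat_lit 14242959524133701664)) (.cons (.rf (nat_lit 1402) (nat_lit 14242959524133701664)) (.cons (.rf (nat_lit 1408) (nat_lit 14242959524133701664)) (.cons (.br (nat_lit 11) (nat_lit 0) (.cons (.rf (nat_lit 1388) (nat_lit 14242959524133701664)) (.cons (.rf (nat_lit 1402) (nat_lit 14242959524133701664)) (.cons (.rf (nat_lit 1408) (nat_lit 14242959524133701664)) (.cons (.rf (nat_lit 928) (nat_lit 14303893635)) .nil))))) (.cons (.rf (nat_lit 928) (nat_lit 14303893635)) .nil)))))),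
 (.br (nat_lit 11) (nat_lit 0) (.cons (.rf (nat_lit 1388) (nat_lit 14242959524133701664)) (.cons (.rf (nat_lit 1402) (nat_lit 14242959524133701664)) (.cons (.rf (nat_lit 1409) (nat_lit 14242959524133701664)) (.cons (.br (nat_lit 11) (nat_lit 0) (.cons (.rf (nat_lit 1388) (nat_lit 14242959524133701664)) (.cons (.rf (nat_lit 1402) (nat_lit 14242959524133701664)) (.cons (.rf (nat_lit 1409) (nat_lit 14242959524133701664)) (.cons (.rf (nat_lit 928) (nat_lit 14303893635)) .nil))))) (.cons (.rf (nat_lit 928) (nat_lit 14303893635)) .nil)))))),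
 (.br (nat_lit 11) (nat_lit 0) (.cons (.rf (nat_lit 1388) (nat_lit 14242959524133701664)) (.cons (.rf (nat_lit 1402) (nat_lit 14242959524133701664)) (.cons (.rf (nat_lit 1409) (nat_lit 14242959524133701664)) (.cons (.rf (nat_lit 1410) (nat_lit 14242959524133701664)) (.cons (.br (nat_lit 11) (nat_lit 0) (.cons (.rf (nat_lit 1388) (nat_lit 14242959524133701664)) (.cons (.rf (nat_lit 1402) (nat_lit 14242959524133701664)) (.cons (.rf (nat_lit 1409) (nat_lit 14242959524133701664)) (.cons (.rf (nat_lit 1410) (nat_lit 14242959524133701664)) (.cons (.rf (nat_lit 928) (nat_lit 14303893635)) .nil)))))) (.cons (.rf (nat_lit 928) (nat_lit 14303893635)) .nil))))))),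
 (.br (nat_lit 7) (nat_lit 0) (.cons (.rf (nat_lit 1268) (nat_lit 14242959352402121760)) (.cons (.rf (nat_lit 1275) (nat_lit 14242959352402121760)) (.cons (.rf (nat_lit 928) (nat_lit 14303893635)) .nil)))),
 (.br (nat_lit 7) (nat_lit 0) (.cons (.br (nat_lit 7) (nat_lit 0) (.cons (.rf (nat_lit 1268) (nat_lit 14242959352402121760)) (.cons (.ev (nat_lit 310693935713298766930903041) (nat_lit 1)) (.cons (.rf (nat_lit 928) (nat_lit 14303893635)) .nil)))) (.cons (.rf (nat_lit 1412) (nat_lit 14242959524133701664)) (.cons (.br (nat_lit 7) (nat_lit 0) (.cons (.ev (nat_lit 310693935713298766930903041) (nat_lit 1)) (.cons (.rf (nat_lit 1275) (nat_lit 14242959352402121760)) (.cons (.rf (nat_lit 928) (nat_lit 14303893635)) .nil)))) (.cons (.rf (nat_lit 928) (nat_lit 14303893635)) .nil))))),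
 (.br (nat_lit 2) (nat_lit 0) (.cons (.rf (nat_lit 1367) (nat_lit 14242959524133701664)) (.cons (.rf (nat_lit 1367) (nat_lit 14238244822568962080)) (.cons (.rf (nat_lit 928) (nat_lit 14303893635)) .nil)))),
 (.br (nat_lit 1) (nat_lit 0) (.cons (.rf (nat_lit 1414) (nat_lit 14242959524133701664)) (.cons (.rf (nat_lit 928) (nat_lit 14303893635)) .nil))),
 (.br (nat_lit 11) (nat_lit 0) (.cons (.rf (nat_lit 1413) (nat_lit 14242959524133701664)) (.cons (.br (nat_lit 7) (nat_lit 0) (.cons (.rf (nat_lit 1415) (nat_lit 14242959524133701664)) (.cons (.br (nat_lit 7) (nat_lit 0) (.cons (.rf (nat_lit 1415) (nat_lit 14242959524133701664)) (.cons (.rf (nat_lit 928) (nat_lit 14303893635)) .nil))) (.cons (.rf (nat_lit 928) (nat_lit 14303893635)) .nil)))) (.cons (.rf (nat_lit 928) (nat_lit 14303893635)) .nil)))),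
 (.br (nat_lit 11) (nat_lit 0) (.cons (.rf (nat_lit 1413) (nat_lit 14242959524133701664)) (.cons (.rf (nat_lit 1263) (nat_lit 14242959524033041440)) (.cons (.rf (nat_lit 928) (nat_lit 14303893635)) .nil)))),
 (.br (nat_lit 11) (nat_lit 0) (.cons (.rf (nat_lit 1416) (nat_lit 14242959524133701664)) (.cons (.rf (nat_lit 1417) (nat_lit 14242959524133701664)) (.cons (.br (nat_lit 11) (nat_lit 0) (.cons (.rf (nat_lit 1416) (nat_lit 14242959524133701664)) (.cons (.rf (nat_lit 1263) (nat_lit 14242959524033041440)) (.cons (.rf (nat_lit 928) (nat_lit 14303893635)) .nil)))) (.cons (.rf (nat_lit 928) (nat_lit 14303893635)) .nil))))),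
 (.br (nat_lit 11) (nat_lit 0) (.cons (.rf (nat_lit 1268) (nat_lit 14242959524033041440)) (.cons (.rf (nat_lit 1270) (nat_lit 14242959524033041440)) (.cons (.rf (nat_lit 928) (nat_lit 14303893635)) .nil)))),
 (.br (nat_lit 11) (nat_lit 0) (.cons (.br (nat_lit 11) (nat_lit 0) (.cons (.rf (nat_lit 1268) (nat_lit 14242959524033041440)) (.cons (.ev (nat_lit 310693935641241172893040641) (nat_lit 1)) (.cons (.rf (nat_lit 928) (nat_lit 14303893635)) .nil)))) (.cons (.rf (nat_lit 1419) (nat_lit 14242959524133701664)) (.cons (.br (nat_lit 11) (nat_lit 0) (.cons (.ev (nat_lit 310693935641241172893040641) (nat_lit 1)) (.cons (.rf (nat_lit 1270) (nat_lit 14242959524033041440)) (.cons (.rf (nat_lit 928) (nat_lit 14303893635)) .nil)))) (.cons (.rf (nat_lit 928) (nat_lit 14303893635)) .nil))))),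
 (.br (nat_lit 2) (nat_lit 0) (.cons (.rf (nat_lit 1418) (nat_lit 14242959524133701664)) (.cons (.br (nat_lit 1) (nat_lit 0) (.cons (.rf (nat_lit 1420) (nat_lit 14242959524133701664)) (.cons (.rf (nat_lit 1367) (nat_lit 14235994122268968992)) (.cons (.rf (nat_lit 1367) (nat_lit 14238244822568962080)) (.cons (.br (nat_lit 5) (nat_lit 0) (.cons (.br (nat_lit 11) (nat_lit 0) (.cons (.br (nat_lit 7) (nat_lit 0) (.cons (.rf (nat_lit 1095) (nat_lit 14238244753916593216)) (.cons (.rf (nat_lit 928) (nat_lit 14303893635)) .nil))) (.cons (.rf (nat_lit 1419) (nat_lit 14242959523999484064)) (.cons (.rf (nat_lit 928) (nat_lit 14303893635)) .nil)))) (.cons (.br (nat_lit 11) (nat_lit 0) (.cons (.rf (nat_lit 1418) (nat_lit 14235994122268968000)) (.cons (.br (nat_lit 11) (nat_lit 0) (.cons (.ev (nat_lit 309485028268371716939514113) (nat_lit 1)) (.cons (.rf (nat_lit 928) (nat_lit 14303893635)) .nil))) (.cons (.rf (nat_lit 928) (nat_lit 14303893635)) .nil)))) (.cons (.rf (nat_lit 1418) (nat_lit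 14238244822568961088)) (.cons (.rf (nat_lit 928) (nat_lit 14303893635)) .nil))))) (.cons (.rf (nat_lit 928) (nat_lit 14303893635)) .nil)))))) (.cons (.br (nat_lit 1) (nat_lit 0) (.cons (.br (nat_lit 11) (nat_lit 0) (.cons (.br (nat_lit 11) (nat_lit 0) (.cons (.ev (nat_lit 79538856468352041365153054721) (nat_lit 1)) (.cons (.rf (nat_lit 928) (nat_lit 14303893635)) .nil))) (.cons (.br (nat_lit 11) (nat_lit 0) (.cons (.ev (nat_lit 79538856468352041365153054721) (nat_lit 1)) (.cons (.rf (nat_lit 928) (nat_lit 14303893635)) .nil))) (.cons (.rf (nat_lit 928) (nat_lit 14303893635)) .nil)))) (.cons (.rf (nat_lit 1367) (nat_lit 14235994122268968992)) (.cons (.br (nat_lit 5) (nat_lit 0) (.cons (.kr (nat_lit 79228162514264619068520661248) (nat_lit 1208925819615728703111168) (nat_lit 1) (nat_lit 0)) (.cons (.br (nat_lit 11) (nat_lit 0) (.cons (.rf (nat_lit 1420) (nat_lit 14235994122268968000)) (.cons (.br (nat_lit 11) (nat_lit 0) (.cons (.ev (nat_lit 309485028268371716939514113) (nat_lit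 1)) (.cons (.rf (nat_lit 928) (nat_lit 14303893635)) .nil))) (.cons (.rf (nat_lit 928) (nat_lit 14303893635)) .nil)))) (.cons (.rf (nat_lit 1418) (nat_lit 14238244822568962080)) (.cons (.rf (nat_lit 928) (nat_lit 14303893635)) .nil))))) (.cons (.rf (nat_lit 928) (nat_lit 14303893635)) .nil))))) (.cons (.rf (nat_lit 928) (nat_lit 14303893635)) .nil))))),
 (.br (nat_lit 2) (nat_lit 0) (.cons (.rf (nat_lit 1418) (nat_lit 14242959524133701664)) (.cons (.rf (nat_lit 1421) (nat_lit 14242959524133701664)) (.cons (.br (nat_lit 11) (nat_lit 0) (.cons (.rf (nat_lit 1421) (nat_lit 14242925437127854112)) (.cons (.br (nat_lit 11) (nat_lit 0) (.cons (.rf (nat_lit 1421) (nat_lit 14242925437127854112)) (.cons (.rf (nat_lit 1275) (nat_lit 14242959524033041440)) (.cons (.rf (nat_lit 928) (nat_lit 14303893635)) .nil)))) (.cons (.br (nat_lit 11) (nat_lit 0) (.cons (.rf (nat_lit 1421) (nat_lit 14242925437127854112)) (.cons (.rf (nat_lit 1275) (nat_lit 14242959524033041440)) (.cons (.rf (nat_lit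 928) (nat_lit 14303893635)) .nil)))) (.cons (.rf (nat_lit 928) (nat_lit 14303893635)) .nil))))) (.cons (.rf (nat_lit 928) (nat_lit 14303893635)) .nil))))),
 (.br (nat_lit 2) (nat_lit 0) (.cons (.rf (nat_lit 1418) (nat_lit 14242959524133701664)) (.cons (.rf (nat_lit 1421) (nat_lit 14242959524133701664)) (.cons (.rf (nat_lit 1422) (nat_lit 14242959524133701664)) (.cons (.br (nat_lit 2) (nat_lit 0) (.cons (.rf (nat_lit 1418) (nat_lit 14242959524133701664)) (.cons (.rf (nat_lit 1421) (nat_lit 14242959524133701664)) (.cons (.rf (nat_lit 1422) (nat_lit 14242959524133701664)) (.cons (.rf (nat_lit 928) (nat_lit 14303893635)) .nil))))) (.cons (.rf (nat_lit 928) (nat_lit 14303893635)) .nil)))))),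
 (.br (nat_lit 2) (nat_lit 0) (.cons (.rf (nat_lit 1337) (nat_lit 2713710391294268448)) (.cons (.br (nat_lit 5) (nat_lit 0) (.cons (.ev (nat_lit 309485028268089142434398209) (nat_lit 1)) (.cons (.rf (nat_lit 928) (nat_lit 14303893635)) .nil))) (.cons (.rf (nat_lit 928) (nat_lit 14303893635)) .nil)))),
 (.br (nat_lit 2) (nat_lit 0) (.cons (.rf (nat_lit 1424) (nat_lit 14242959524133701664)) (.cons (.br (nat_lit 2) (nat_lit 0) (.cons (.rf (nat_lit 1337) (nat_lit 2713710391294268448)) (.cons (.rf (nat_lit 1281) (nat_lit 14242959524033041440)) (.cons (.rf (nat_lit 928) (nat_lit 14303893635)) .nil)))) (.cons (.br (nat_lit 2) (nat_lit 0) (.cons (.rf (nat_lit 1424) (nat_lit 14242959524133701664)) (.cons (.rf (nat_lit 1281) (nat_lit 14242959524033041440)) (.cons (.rf (nat_lit 928) (nat_lit 14303893635)) .nil)))) (.cons (.rf (nat_lit 928) (nat_lit 14303893635)) .nil))))),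
 (.br (nat_lit 7) (nat_lit 0) (.cons (.rf (nat_lit 1425) (nat_lit 14242959524133701664)) (.cons (.rf (nat_lit 1425) (nat_lit 14242925437127854112)) (.cons (.rf (nat_lit 1281) (nat_lit 14242959352402121760)) (.cons (.rf (nat_lit 928) (nat_lit 14303893635)) .nil))))),
 (.br (nat_lit 11) (nat_lit 0) (.cons (.rf (nat_lit 1423) (nat_lit 14242959524133701664)) (.cons (.rf (nat_lit 1423) (nat_lit 14242925437127854112)) (.cons (.br (nat_lit 7) (nat_lit 0) (.cons (.rf (nat_lit 1425) (nat_lit 14242959524133701664)) (.cons (.rf (nat_lit 1425) (nat_lit 14242925437127854112)) (.cons (.rf (nat_lit 1426) (nat_lit 14242959524133701664)) (.cons (.rf (nat_lit 1426) (nat_lit 14242925437127854112)) (.cons (.rf (nat_lit 928) (nat_lit 14303893635)) .nil)))))) (.cons (.rf (nat_lit 928) (nat_lit 14303893635)) .nil))))),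
 (.br (nat_lit 11) (nat_lit 0) (.cons (.rf (nat_lit 1423) (nat_lit 14242959524133701664)) (.cons (.rf (nat_lit 1423) (nat_lit 14242925437127854112)) (.cons (.rf (nat_lit 1427) (nat_lit 14242959524133701664)) (.cons (.br (nat_lit 11) (nat_lit 0) (.cons (.rf (nat_lit 1423) (nat_lit 14242959524133701664)) (.cons (.rf (nat_lit 1423) (nat_lit 14242925437127854112)) (.cons (.rf (nat_lit 1427) (nat_lit 14242959524133701664)) (.cons (.rf (nat_lit 928) (nat_lit 14303893635)) .nil))))) (.cons (.rf (nat_lit 928) (nat_lit 14303893635)) .nil)))))),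
 (.br (nat_lit 12) (nat_lit 0) (.cons (.rf (nat_lit 1411) (nat_lit 14242959524133701664)) (.cons (.rf (nat_lit 1411) (nat_lit 14242925437127854112)) (.cons (.br (nat_lit 11) (nat_lit 0) (.cons (.rf (nat_lit 1423) (nat_lit 14242959524133701664)) (.cons (.rf (nat_lit 1423) (nat_lit 14242925437127854112)) (.cons (.rf (nat_lit 1428) (nat_lit 14242959524133701664)) (.cons (.rf (nat_lit 1428) (nat_lit 14242925437127854112)) (.cons (.br (nat_lit 11) (nat_lit 0) (.cons (.rf (nat_lit 1423) (nat_lit 14242959524133701664)) (.cons (.rf (nat_lit 1423) (nat_lit 14242925437127854112)) (.cons (.rf (nat_lit 1428) (nat_lit 14242959524133701664)) (.cons (.rf (nat_lit 1428) (nat_lit 14242925437127854112)) (.cons (.rf (nat_lit 928) (nat_lit 14303893635)) .nil)))))) (.cons (.rf (nat_lit 928) (nat_lit 14303893635)) .nil))))))) (.cons (.rf (nat_lit 928) (nat_lit 14303893635)) .nil)))))]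

theorem c47 : chkAll C T R L47 (nat_lit 1399) = true := by decide +kernel

theorem l47 : (nat_lit 1399) + L47.length = (nat_lit 1430) := by decide +kernel

/-- part of the certificates -/
def L48 : List Prf := [(.br (nat_lit 2) (nat_lit 0) (.cons (.br (nat_lit 11) (nat_lit 0) (.cons (.rf (nat_lit 1287) (nat_lit 14242959524033041440)) (.cons (.rf (nat_lit 928) (nat_lit 14303893635)) .nil))) (.cons (.rf (nat_lit 928) (nat_lit 14303893635)) .nil))),
 (.br (nat_lit 7) (nat_lit 0) (.cons (.rf (nat_lit 1430) (nat_lit 14242959524133701664)) (.cons (.br (nat_lit 7) (nat_lit 0) (.cons (.rf (nat_lit 1430) (nat_lit 14242959524133701664)) (.cons (.rf (nat_lit 928) (nat_lit 14303893635)) .nil))) (.cons (.rf (nat_lit 928) (nat_lit 14303893635)) .nil)))),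
 (.br (nat_lit 7) (nat_lit 0) (.cons (.ev (nat_lit 4740885566012386181121) (nat_lit 1)) (.cons (.br (nat_lit 11) (nat_lit 0) (.cons (.br (nat_lit 1) (nat_lit 0) (.cons (.ev (nat_lit 1213666632841572546248961) (nat_lit 1)) (.cons (.rf (nat_lit 928) (nat_lit 14303893635)) .nil))) (.cons (.br (nat_lit 5) (nat_lit 0) (.cons (.zr (nat_lit 618970019642974910977933312) (nat_lit 237684487542937127968707706881) (nat_lit 5) (nat_lit 3)) (.cons (.rf (nat_lit 928) (nat_lit 14303893635)) .nil))) (.cons (.rf (nat_lit 928) (nat_lit 14303893635)) .nil)))) (.cons (.rf (nat_lit 928) (nat_lit 14303893635)) .nil)))),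
 (.br (nat_lit 7) (nat_lit 0) (.cons (.rf (nat_lit 1268) (nat_lit 13126066644814238752)) (.cons (.br (nat_lit 1) (nat_lit 0) (.cons (.br (nat_lit 5) (nat_lit 0) (.cons (.rf (nat_lit 928) (nat_lit 14303893635)) .nil)) (.cons (.rf (nat_lit 928) (nat_lit 14303893635)) .nil))) (.cons (.rf (nat_lit 928) (nat_lit 14303893635)) .nil)))),
 (.br (nat_lit 7) (nat_lit 0) (.cons (.rf (nat_lit 1433) (nat_lit 14242959524133701664)) (.cons (.rf (nat_lit 1412) (nat_lit 13126066816545818656)) (.cons (.br (nat_lit 7) (nat_lit 0) (.cons (.rf (nat_lit 1433) (nat_lit 14242959524133701664)) (.cons (.rf (nat_lit 1275) (nat_lit 13126066644814238752)) (.cons (.rf (nat_lit 928) (nat_lit 14303893635)) .nil)))) (.cons (.rf (nat_lit 928) (nat_lit 14303893635)) .nil))))),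
 (.br (nat_lit 6) (nat_lit 1) (.cons (.rf (nat_lit 1367) (nat_lit 14241659903536203808)) (.cons (.br (nat_lit 11) (nat_lit 0) (.cons (.rf (nat_lit 1431) (nat_lit 14242959524133701664)) (.cons (.br (nat_lit 11) (nat_lit 0) (.cons (.rf (nat_lit 1431) (nat_lit 14242959524133701664)) (.cons (.rf (nat_lit 1294) (nat_lit 14242959524033041440)) (.cons (.rf (nat_lit 928) (nat_lit 14303893635)) .nil)))) (.cons (.br (nat_lit 11) (nat_lit 0) (.cons (.rf (nat_lit 1431) (nat_lit 14242959524133701664)) (.cons (.rf (nat_lit 1294) (nat_lit 14242959524033041440)) (.cons (.rf (nat_lit 928) (nat_lit 14303893635)) .nil)))) (.cons (.rf (nat_lit 928) (nat_lit 14303893635)) .nil))))) (.cons (.br (nat_lit 11) (nat_lit 0) (.cons (.rf (nat_lit 1432) (nat_lit 14242959524133701664)) (.cons (.br (nat_lit 11) (nat_lit 0) (.cons (.rf (nat_lit 1432) (nat_lit 14242959524133701664)) (.cons (.rf (nat_lit 1294) (nat_lit 14242959524033041440)) (.cons (.rf (nat_lit 928) (nat_lit 14303893635)) .nil)))) (.cons (.br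 (nat_lit 11) (nat_lit 0) (.cons (.rf (nat_lit 1432) (nat_lit 14242959524133701664)) (.cons (.rf (nat_lit 1294) (nat_lit 14242959524033041440)) (.cons (.rf (nat_lit 928) (nat_lit 14303893635)) .nil)))) (.cons (.rf (nat_lit 928) (nat_lit 14303893635)) .nil))))) (.cons (.br (nat_lit 11) (nat_lit 0) (.cons (.rf (nat_lit 1371) (nat_lit 13126066816545818656)) (.cons (.br (nat_lit 2) (nat_lit 0) (.cons (.ev (nat_lit 79537652264899191084895240193) (nat_lit 1)) (.cons (.br (nat_lit 10) (nat_lit 1) (.cons (.ev (nat_lit 310693935641241172893040641) (nat_lit 1)) (.cons (.rf (nat_lit 1429) (nat_lit 14234968276848673856)) (.cons (.br (nat_lit 5) (nat_lit 0) (.cons (.rf (nat_lit 1392) (nat_lit 14234968208196305984)) (.cons (.rf (nat_lit 928) (nat_lit 14303893635)) .nil))) .nil)))) (.cons (.rf (nat_lit 928) (nat_lit 14303893635)) .nil)))) (.cons (.rf (nat_lit 1434) (nat_lit 14242959524133701664)) (.cons (.rf (nat_lit 928) (nat_lit 14303893635)) .nil))))) .nil))))),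
 (.br (nat_lit 11) (nat_lit 0) (.cons (.rf (nat_lit 1268) (nat_lit 13126066816445158432)) (.cons (.rf (nat_lit 928) (nat_lit 14303893635)) .nil))),
 (.br (nat_lit 1) (nat_lit 0) (.cons (.ev (nat_lit 79229376162522774161378574593) (nat_lit 1)) (.cons (.rf (nat_lit 928) (nat_lit 14303893635)) .nil))),
 (.br (nat_lit 7) (nat_lit 0) (.cons (.ev (nat_lit 79228167236630820463189229569) (nat_lit 1)) (.cons (.br (nat_lit 11) (nat_lit 0) (.cons (.rf (nat_lit 1437) (nat_lit 14242959524133701664)) (.cons (.br (nat_lit 11) (nat_lit 0) (.cons (.rf (nat_lit 1437) (nat_lit 14242959524133701664)) (.cons (.rf (nat_lit 928) (nat_lit 14303893635)) .nil))) (.cons (.rf (nat_lit 928) (nat_lit 14303893635)) .nil)))) (.cons (.rf (nat_lit 928) (nat_lit 14303893635)) .nil)))),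
 (.br (nat_lit 2) (nat_lit 0) (.cons (.rf (nat_lit 1435) (nat_lit 14242959524133701664)) (.cons (.br (nat_lit 11) (nat_lit 0) (.cons (.rf (nat_lit 1436) (nat_lit 14242959524133701664)) (.cons (.br (nat_lit 11) (nat_lit 0) (.cons (.rf (nat_lit 1268) (nat_lit 13126066816445158432)) (.cons (.rf (nat_lit 928) (nat_lit 14303893635)) .nil))) (.cons (.rf (nat_lit 928) (nat_lit 14303893635)) .nil)))) (.cons (.br (nat_lit 7) (nat_lit 0) (.cons (.rf (nat_lit 1438) (nat_lit 14242959524133701664)) (.cons (.ev (nat_lit 79228167236630820463189229569) (nat_lit 1)) (.cons (.br (nat_lit 7) (nat_lit 0) (.cons (.rf (nat_lit 1438) (nat_lit 14242959524133701664)) (.cons (.ev (nat_lit 79228167236630820463189229569) (nat_lit 1)) (.cons (.rf (nat_lit 928) (nat_lit 14303893635)) .nil)))) (.cons (.rf (nat_lit 928) (nat_lit 14303893635)) .nil))))) (.cons (.rf (nat_lit 928) (nat_lit 14303893635)) .nil))))),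
 (.br (nat_lit 11) (nat_lit 0) (.cons (.br (nat_lit 7) (nat_lit 0) (.cons (.rf (nat_lit 1371) (nat_lit 13126066644747131936)) (.cons (.rf (nat_lit 928) (nat_lit 14303893635)) .nil))) (.cons (.rf (nat_lit 928) (nat_lit 14303893635)) .nil))),
 (.br (nat_lit 2) (nat_lit 0) (.cons (.rf (nat_lit 1435) (nat_lit 14242959524133701664)) (.cons (.rf (nat_lit 1439) (nat_lit 14242959524133701664)) (.cons (.br (nat_lit 10) (nat_lit 1) (.cons (.rf (nat_lit 1367) (nat_lit 14234968276848674848)) (.cons (.rf (nat_lit 1429) (nat_lit 14234968276848673856)) (.cons (.br (nat_lit 11) (nat_lit 0) (.cons (.rf (nat_lit 1440) (nat_lit 14242959524133701664)) (.cons (.br (nat_lit 11) (nat_lit 0) (.cons (.rf (nat_lit 1440) (nat_lit 14242959524133701664)) (.cons (.rf (nat_lit 928) (nat_lit 14303893635)) .nil))) (.cons (.rf (nat_lit 928) (nat_lit 14303893635)) .nil)))) (.cons (.br (nat_lit 1) (nat_lit 0) (.cons (.br (nat_lit 11) (nat_lit 0) (.cons (.rf (nat_lit 1275) (nat_lit 13126066816445158432)) (.cons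 (.ev (nat_lit 79538861190718524239093170433) (nat_lit 1)) (.cons (.rf (nat_lit 928) (nat_lit 14303893635)) .nil)))) (.cons (.rf (nat_lit 1304) (nat_lit 13918700351164355616)) (.cons (.rf (nat_lit 928) (nat_lit 14303893635)) .nil)))) .nil))))) (.cons (.rf (nat_lit 928) (nat_lit 14303893635)) .nil))))),
 (.br (nat_lit 2) (nat_lit 0) (.cons (.rf (nat_lit 1435) (nat_lit 14242959524133701664)) (.cons (.rf (nat_lit 1439) (nat_lit 14242959524133701664)) (.cons (.rf (nat_lit 1441) (nat_lit 14242959524133701664)) (.cons (.br (nat_lit 2) (nat_lit 0) (.cons (.rf (nat_lit 1435) (nat_lit 14242959524133701664)) (.cons (.rf (nat_lit 1439) (nat_lit 14242959524133701664)) (.cons (.rf (nat_lit 1441) (nat_lit 14242959524133701664)) (.cons (.rf (nat_lit 928) (nat_lit 14303893635)) .nil))))) (.cons (.rf (nat_lit 928) (nat_lit 14303893635)) .nil)))))),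
 (.br (nat_lit 10) (nat_lit 1) (.cons (.rf (nat_lit 1367) (nat_lit 14234968276848674848)) (.cons (.rf (nat_lit 1429) (nat_lit 14234968276848673856)) (.cons (.rf (nat_lit 1429) (nat_lit 13118075500608422976)) .nil)))),
 (.br (nat_lit 1) (nat_lit 0) (.cons (.ev (nat_lit 79228162514264337597838917889) (nat_lit 1)) (.cons (.ev (nat_lit 4722366482873940181249) (nat_lit 1)) (.cons (.rf (nat_lit 928) (nat_lit 14303893635)) .nil)))),
 (.br (nat_lit 5) (nat_lit 0) (.cons (.rf (nat_lit 1444) (nat_lit 14242959524133701664)) (.cons (.ev (nat_lit 1208925819897207974789121) (nat_lit 1)) (.cons (.rf (nat_lit 928) (nat_lit 14303893635)) .nil)))),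
 (.br (nat_lit 5) (nat_lit 0) (.cons (.br (nat_lit 10) (nat_lit 1) (.cons (.ev (nat_lit 309485009821626543701491969) (nat_lit 1)) (.cons (.kr (nat_lit 4722367045819598700544) (nat_lit 2417851639230357877817344) (nat_lit 2) (nat_lit 0)) (.cons (.ev (nat_lit 79228167236703159532220579841) (nat_lit 1)) .nil)))) (.cons (.ev (nat_lit 310698658007443667073105921) (nat_lit 1)) (.cons (.rf (nat_lit 928) (nat_lit 14303893635)) .nil)))),
 (.br (nat_lit 2) (nat_lit 0) (.cons (.rf (nat_lit 1445) (nat_lit 14242959524133701664)) (.cons (.rf (nat_lit 1446) (nat_lit 14242959524133701664)) (.cons (.br (nat_lit 2) (nat_lit 0) (.cons (.rf (nat_lit 1445) (nat_lit 14242959524133701664)) (.cons (.rf (nat_lit 1446) (nat_lit 14242959524133701664)) (.cons (.rf (nat_lit 928) (nat_lit 14303893635)) .nil)))) (.cons (.rf (nat_lit 928) (nat_lit 14303893635)) .nil))))),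
 (.br (nat_lit 7) (nat_lit 0) (.cons (.rf (nat_lit 1447) (nat_lit 14242959524133701664)) (.cons (.br (nat_lit 1) (nat_lit 0) (.cons (.br (nat_lit 5) (nat_lit 0) (.cons (.ev (nat_lit 158457533972939151289972949506) (nat_lit 2)) (.cons (.rf (nat_lit 928) (nat_lit 14303893635)) .nil))) (.cons (.ev (nat_lit 1213666632841572546248961) (nat_lit 1)) (.cons (.rf (nat_lit 928) (nat_lit 14303893635)) .nil)))) (.cons (.rf (nat_lit 1299) (nat_lit 14242959524033041440)) (.cons (.rf (nat_lit 928) (nat_lit 14303893635)) .nil))))),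
 (.br (nat_lit 7) (nat_lit 0) (.cons (.rf (nat_lit 1447) (nat_lit 14242959524133701664)) (.cons (.rf (nat_lit 1448) (nat_lit 14242959524133701664)) (.cons (.br (nat_lit 2) (nat_lit 0) (.cons (.br (nat_lit 2) (nat_lit 0) (.cons (.kr (nat_lit 309485009821345073019748352) (nat_lit 4722366764344621924352) (nat_lit 4) (nat_lit 0)) (.cons (.rf (nat_lit 928) (nat_lit 14303893635)) .nil))) (.cons (.rf (nat_lit 1301) (nat_lit 14242959524033041440)) (.cons (.rf (nat_lit 928) (nat_lit 14303893635)) .nil)))) (.cons (.rf (nat_lit 928) (nat_lit 14303893635)) .nil))))),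
 (.br (nat_lit 11) (nat_lit 0) (.cons (.rf (nat_lit 1442) (nat_lit 14242959524133701664)) (.cons (.br (nat_lit 2) (nat_lit 0) (.cons (.br (nat_lit 5) (nat_lit 0) (.cons (.ev (nat_lit 309485009821627647524864001) (nat_lit 1)) (.cons (.br (nat_lit 2) (nat_lit 0) (.cons (.ev (nat_lit 79537652264899191084895240193) (nat_lit 1)) (.cons (.rf (nat_lit 1429) (nat_lit 14234968276848673856)) (.cons (.rf (nat_lit 928) (nat_lit 14303893635)) .nil)))) (.cons (.rf (nat_lit 928) (nat_lit 14303893635)) .nil)))) (.cons (.br (nat_lit 2) (nat_lit 0) (.cons (.ev (nat_lit 79537652264899191084895240193) (nat_lit 1)) (.cons (.rf (nat_lit 1443) (nat_lit 14242959524133701664)) (.cons (.rf (nat_lit 928) (nat_lit 14303893635)) .nil)))) (.cons (.rf (nat_lit 1443) (nat_lit 14242959524133701664)) (.cons (.rf (nat_lit 928) (nat_lit 14303893635)) .nil))))) (.cons (.br (nat_lit 7) (nat_lit 0) (.cons (.rf (nat_lit 1447) (nat_lit 14242959524133701664)) (.cons (.rf (nat_lit 1448) (nat_lit 14242959524133701664))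 (.cons (.rf (nat_lit 1449) (nat_lit 14242959524133701664)) (.cons (.br (nat_lit 7) (nat_lit 0) (.cons (.rf (nat_lit 1447) (nat_lit 14242959524133701664)) (.cons (.rf (nat_lit 1299) (nat_lit 14242959524033041440)) (.cons (.rf (nat_lit 1449) (nat_lit 14242959524133701664)) (.cons (.rf (nat_lit 928) (nat_lit 14303893635)) .nil))))) (.cons (.rf (nat_lit 928) (nat_lit 14303893635)) .nil)))))) (.cons (.rf (nat_lit 928) (nat_lit 14303893635)) .nil))))),
 (.br (nat_lit 7) (nat_lit 0) (.cons (.br (nat_lit 2) (nat_lit 0) (.cons (.rf (nat_lit 1103) (nat_lit 13126066816545817664)) (.cons (.rf (nat_lit 928) (nat_lit 14303893635)) .nil))) (.cons (.ev (nat_lit 1213666632841572546248961) (nat_lit 1)) (.cons (.rf (nat_lit 928) (nat_lit 14303893635)) .nil)))),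
 (.br (nat_lit 1) (nat_lit 0) (.cons (.br (nat_lit 5) (nat_lit 0) (.cons (.rf (nat_lit 1305) (nat_lit 14242959352402117792)) (.cons (.br (nat_lit 7) (nat_lit 0) (.cons (.ev (nat_lit 620188390267894361359385090) (nat_lit 2)) (.cons (.rf (nat_lit 928) (nat_lit 14303893635)) .nil))) (.cons (.rf (nat_lit 928) (nat_lit 14303893635)) .nil)))) (.cons (.ev (nat_lit 79228162514264337597838917889) (nat_lit 1)) (.cons (.rf (nat_lit 1451) (nat_lit 14242959524133701664)) (.cons (.rf (nat_lit 928) (nat_lit 14303893635)) .nil))))),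
 (.br (nat_lit 7) (nat_lit 0) (.cons (.rf (nat_lit 1452) (nat_lit 14242959524133701664)) (.cons (.br (nat_lit 2) (nat_lit 0) (.cons (.ev (nat_lit 309485028340146740784005121) (nat_lit 1)) (.cons (.br (nat_lit 2) (nat_lit 0) (.cons (.ev (nat_lit 309485028340146740784005121) (nat_lit 1)) (.cons (.rf (nat_lit 928) (nat_lit 14303893635)) .nil))) (.cons (.rf (nat_lit 928) (nat_lit 14303893635)) .nil)))) (.cons (.br (nat_lit 5) (nat_lit 0) (.cons (.kr (nat_lit 72057598332895232) (nat_lit 309485009821346168236408832) (nat_lit 4) (nat_lit 0)) (.cons (.br (nat_lit 2) (nat_lit 0) (.cons (.rf (nat_lit 1305) (nat_lit 14242959524033037472)) (.cons (.rf (nat_lit 928) (nat_lit 14303893635)) .nil))) (.cons (.rf (nat_lit 928) (nat_lit 14303893635)) .nil)))) (.cons (.rf (nat_lit 928) (nat_lit 14303893635)) .nil))))),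
 (.br (nat_lit 7) (nat_lit 0) (.cons (.rf (nat_lit 1452) (nat_lit 14242959524133701664)) (.cons (.rf (nat_lit 1453) (nat_lit 14242959524133701664)) (.cons (.br (nat_lit 5) (nat_lit 0) (.cons (.kr (nat_lit 72057598332895232) (nat_lit 1208925819615728686333952) (nat_lit 4) (nat_lit 0)) (.cons (.br (nat_lit 2) (nat_lit 0) (.cons (.br (nat_lit 2) (nat_lit 0) (.cons (.rf (nat_lit 928) (nat_lit 14303893635)) .nil)) (.cons (.rf (nat_lit 928) (nat_lit 14303893635)) .nil))) (.cons (.rf (nat_lit 928) (nat_lit 14303893635)) .nil)))) (.cons (.rf (nat_lit 928) (nat_lit 14303893635)) .nil))))),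
 (.br (nat_lit 11) (nat_lit 0) (.cons (.rf (nat_lit 1442) (nat_lit 14242959524133701664)) (.cons (.rf (nat_lit 1450) (nat_lit 14242959524133701664)) (.cons (.br (nat_lit 7) (nat_lit 0) (.cons (.rf (nat_lit 1452) (nat_lit 14242959524133701664)) (.cons (.rf (nat_lit 1453) (nat_lit 14242959524133701664)) (.cons (.rf (nat_lit 1454) (nat_lit 14242959524133701664)) (.cons (.br (nat_lit 7) (nat_lit 0) (.cons (.rf (nat_lit 1452) (nat_lit 14242959524133701664)) (.cons (.rf (nat_lit 1453) (nat_lit 14242959524133701664)) (.cons (.rf (nat_lit 1454) (nat_lit 14242959524133701664)) (.cons (.rf (nat_lit 928) (nat_lit 14303893635)) .nil))))) (.cons (.rf (nat_lit 928) (nat_lit 14303893635)) .nil)))))) (.cons (.rf (nat_lit 928) (nat_lit 14303893635)) .nil))))),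
 (.br (nat_lit 11) (nat_lit 0) (.cons (.rf (nat_lit 1442) (nat_lit 14242959524133701664)) (.cons (.rf (nat_lit 1450) (nat_lit 14242959524133701664)) (.cons (.rf (nat_lit 1455) (nat_lit 14242959524133701664)) (.cons (.br (nat_lit 11) (nat_lit 0) (.cons (.rf (nat_lit 1442) (nat_lit 14242959524133701664)) (.cons (.rf (nat_lit 1450) (nat_lit 14242959524133701664)) (.cons (.rf (nat_lit 1455) (nat_lit 14242959524133701664)) (.cons (.rf (nat_lit 928) (nat_lit 14303893635)) .nil))))) (.cons (.rf (nat_lit 928) (nat_lit 14303893635)) .nil)))))),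
 (.br (nat_lit 5) (nat_lit 0) (.cons (.br (nat_lit 1) (nat_lit 0) (.cons (.rf (nat_lit 928) (nat_lit 14303893635)) .nil)) (.cons (.rf (nat_lit 928) (nat_lit 14303893635)) .nil))),
 (.br (nat_lit 7) (nat_lit 0) (.cons (.br (nat_lit 2) (nat_lit 0) (.cons (.rf (nat_lit 1457) (nat_lit 14242959524133701664)) (.cons (.br (nat_lit 2) (nat_lit 0) (.cons (.rf (nat_lit 1457) (nat_lit 14242959524133701664)) (.cons (.rf (nat_lit 928) (nat_lit 14303893635)) .nil))) (.cons (.rf (nat_lit 928) (nat_lit 14303893635)) .nil)))) (.cons (.kr (nat_lit 1208925819614629174706176) (nat_lit 309485009821345068724781056) (nat_lit 10) (nat_lit 0)) (.cons (.rf (nat_lit 928) (nat_lit 14303893635)) .nil)))),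
 (.br (nat_lit 11) (nat_lit 0) (.cons (.rf (nat_lit 1442) (nat_lit 14242959524133701664)) (.cons (.rf (nat_lit 1456) (nat_lit 14242959524133701664)) (.cons (.br (nat_lit 7) (nat_lit 0) (.cons (.rf (nat_lit 1458) (nat_lit 14242959524133701664)) (.cons (.br (nat_lit 7) (nat_lit 0) (.cons (.rf (nat_lit 1458) (nat_lit 14242959524133701664)) (.cons (.kr (nat_lit 1208925819614629174706176) (nat_lit 309485009821345068724781056) (nat_lit 10) (nat_lit 0)) (.cons (.rf (nat_lit 928) (nat_lit 14303893635)) .nil)))) (.cons (.kr (nat_lit 1208925819614629174706176) (nat_lit 309485009821345068724781056) (nat_lit 10) (nat_lit 0)) (.cons (.rf (nat_lit 928) (nat_lit 14303893635)) .nil))))) (.cons (.rf (nat_lit 928) (nat_lit 14303893635)) .nil))))),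
 (.br (nat_lit 11) (nat_lit 0) (.cons (.rf (nat_lit 1442) (nat_lit 14242959524133701664)) (.cons (.rf (nat_lit 1456) (nat_lit 14242959524133701664)) (.cons (.rf (nat_lit 1459) (nat_lit 14242959524133701664)) (.cons (.br (nat_lit 11) (nat_lit 0) (.cons (.rf (nat_lit 1442) (nat_lit 14242959524133701664)) (.cons (.rf (nat_lit 1456) (nat_lit 14242959524133701664)) (.cons (.rf (nat_lit 1459) (nat_lit 14242959524133701664)) (.cons (.rf (nat_lit 928) (nat_lit 14303893635)) .nil))))) (.cons (.rf (nat_lit 928) (nat_lit 14303893635)) .nil))))))]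

theorem c48 : chkAll C T R L48 (nat_lit 1430) = true := by decide +kernel

theorem l48 : (nat_lit 1430) + L48.length = (nat_lit 1461) := by decide +kernel

/-- part of the certificates -/
def L49 : List Prf := [(.br (nat_lit 11) (nat_lit 0) (.cons (.rf (nat_lit 1442) (nat_lit 14242959524133701664)) (.cons (.rf (nat_lit 1456) (nat_lit 14242959524133701664)) (.cons (.rf (nat_lit 1460) (nat_lit 14242959524133701664)) (.cons (.br (nat_lit 11) (nat_lit 0) (.cons (.rf (nat_lit 1294) (nat_lit 14242959524033041440)) (.cons (.rf (nat_lit 1456) (nat_lit 14242959524133701664)) (.cons (.rf (nat_lit 1460) (nat_lit 14242959524133701664)) (.cons (.rf (nat_lit 928) (nat_lit 14303893635)) .nil))))) (.cons (.rf (nat_lit 928) (nat_lit 14303893635)) .nil)))))),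
 (.br (nat_lit 11) (nat_lit 0) (.cons (.rf (nat_lit 1442) (nat_lit 14242959524133701664)) (.cons (.rf (nat_lit 1456) (nat_lit 14242959524133701664)) (.cons (.rf (nat_lit 1460) (nat_lit 14242959524133701664)) (.cons (.rf (nat_lit 1461) (nat_lit 14242959524133701664)) (.cons (.br (nat_lit 11) (nat_lit 0) (.cons (.rf (nat_lit 1442) (nat_lit 14242959524133701664)) (.cons (.rf (nat_lit 1456) (nat_lit 14242959524133701664)) (.cons (.rf (nat_lit 1460) (nat_lit 14242959524133701664)) (.cons (.rf (nat_lit 1461) (nat_lit 14242959524133701664)) (.cons (.rf (nat_lit 928) (nat_lit 14303893635)) .nil)))))) (.cons (.rf (nat_lit 928) (nat_lit 14303893635)) .nil))))))),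
 (.br (nat_lit 1) (nat_lit 0) (.cons (.br (nat_lit 9) (nat_lit 1) (.cons (.rf (nat_lit 1367) (nat_lit 14238244822568962080)) (.cons (.rf (nat_lit 1429) (nat_lit 14238244822568962080)) (.cons (.ev (nat_lit 309489750634853491368001793) (nat_lit 1)) .nil)))) (.cons (.ev (nat_lit 1208925819896108463161601) (nat_lit 1)) (.cons (.rf (nat_lit 928) (nat_lit 14303893635)) .nil)))),
 (.br (nat_lit 1) (nat_lit 0) (.cons (.br (nat_lit 5) (nat_lit 0) (.cons (.rf (nat_lit 928) (nat_lit 14303893635)) .nil)) (.cons (.rf (nat_lit 928) (nat_lit 14303893635)) .nil))),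
 (.br (nat_lit 2) (nat_lit 0) (.cons (.rf (nat_lit 1464) (nat_lit 14242959524133701664)) (.cons (.br (nat_lit 2) (nat_lit 0) (.cons (.rf (nat_lit 1464) (nat_lit 14242959524133701664)) (.cons (.rf (nat_lit 928) (nat_lit 14303893635)) .nil))) (.cons (.rf (nat_lit 928) (nat_lit 14303893635)) .nil)))),
 (.br (nat_lit 1) (nat_lit 0) (.cons (.br (nat_lit 2) (nat_lit 0) (.cons (.br (nat_lit 2) (nat_lit 0) (.cons (.ev (nat_lit 79229371458602753894761169153) (nat_lit 1)) (.cons (.rf (nat_lit 928) (nat_lit 14303893635)) .nil))) (.cons (.br (nat_lit 2) (nat_lit 0) (.cons (.ev (nat_lit 79229371458602753894761169153) (nat_lit 1)) (.cons (.rf (nat_lit 928) (nat_lit 14303893635)) .nil))) (.cons (.rf (nat_lit 928) (nat_lit 14303893635)) .nil)))) (.cons (.br (nat_lit 11) (nat_lit 0) (.cons (.rf (nat_lit 1371) (nat_lit 13126066644747131936)) (.cons (.rf (nat_lit 1429) (nat_lit 13121352046328711200)) (.cons (.rf (nat_lit 928) (nat_lit 14303893635)) .nil)))) (.cons (.ev (nat_lit 1208925819896108463161601)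 (nat_lit 1)) (.cons (.rf (nat_lit 928) (nat_lit 14303893635)) .nil))))),
 (.br (nat_lit 11) (nat_lit 0) (.cons (.rf (nat_lit 1371) (nat_lit 13126066644747131936)) (.cons (.br (nat_lit 1) (nat_lit 0) (.cons (.br (nat_lit 5) (nat_lit 0) (.cons (.ev (nat_lit 1223111438431167264588290) (nat_lit 2)) (.cons (.rf (nat_lit 928) (nat_lit 14303893635)) .nil))) (.cons (.ev (nat_lit 1213666632841572546248961) (nat_lit 1)) (.cons (.rf (nat_lit 928) (nat_lit 14303893635)) .nil)))) (.cons (.br (nat_lit 2) (nat_lit 0) (.cons (.rf (nat_lit 1462) (nat_lit 13124971631095252032)) (.cons (.rf (nat_lit 1429) (nat_lit 13121352046328710208)) (.cons (.rf (nat_lit 928) (nat_lit 14303893635)) .nil)))) (.cons (.rf (nat_lit 928) (nat_lit 14303893635)) .nil))))),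
 (.br (nat_lit 2) (nat_lit 0) (.cons (.br (nat_lit 5) (nat_lit 0) (.cons (.rf (nat_lit 1429) (nat_lit 14238244822568961088)) (.cons (.rf (nat_lit 928) (nat_lit 14303893635)) .nil))) (.cons (.rf (nat_lit 928) (nat_lit 14303893635)) .nil))),
 (.br (nat_lit 11) (nat_lit 0) (.cons (.rf (nat_lit 1468) (nat_lit 14242959524133701664)) (.cons (.br (nat_lit 11) (nat_lit 0) (.cons (.rf (nat_lit 1468) (nat_lit 14242959524133701664)) (.cons (.rf (nat_lit 928) (nat_lit 14303893635)) .nil))) (.cons (.rf (nat_lit 928) (nat_lit 14303893635)) .nil)))),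
 (.br (nat_lit 2) (nat_lit 0) (.cons (.rf (nat_lit 1469) (nat_lit 14242959524133701664)) (.cons (.br (nat_lit 9) (nat_lit 1) (.cons (.rf (nat_lit 1367) (nat_lit 14238244822568962080)) (.cons (.rf (nat_lit 1429) (nat_lit 14238244822568961088)) (.cons (.br (nat_lit 11) (nat_lit 0) (.cons (.rf (nat_lit 1242) (nat_lit 13126032660887602240)) (.cons (.rf (nat_lit 928) (nat_lit 14303893635)) .nil))) .nil)))) (.cons (.rf (nat_lit 928) (nat_lit 14303893635)) .nil)))),
 (.br (nat_lit 7) (nat_lit 0) (.cons (.br (nat_lit 11) (nat_lit 0) (.cons (.rf (nat_lit 1463) (nat_lit 14242959524133701664)) (.cons (.br (nat_lit 11) (nat_lit 0) (.cons (.rf (nat_lit 1463) (nat_lit 14242959524133701664)) (.cons (.rf (nat_lit 1465) (nat_lit 14242959524133701664)) (.cons (.rf (nat_lit 928) (nat_lit 14303893635)) .nil)))) (.cons (.br (nat_lit 11) (nat_lit 0) (.cons (.rf (nat_lit 1463) (nat_lit 14242959524133701664)) (.cons (.rf (nat_lit 1465) (nat_lit 14242959524133701664)) (.cons (.rf (nat_lit 928) (nat_lit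 14303893635)) .nil)))) (.cons (.rf (nat_lit 928) (nat_lit 14303893635)) .nil))))) (.cons (.br (nat_lit 11) (nat_lit 0) (.cons (.rf (nat_lit 1466) (nat_lit 14242959524133701664)) (.cons (.rf (nat_lit 1467) (nat_lit 14242959524133701664)) (.cons (.br (nat_lit 11) (nat_lit 0) (.cons (.rf (nat_lit 1466) (nat_lit 14242959524133701664)) (.cons (.rf (nat_lit 1467) (nat_lit 14242959524133701664)) (.cons (.kr (nat_lit 4722366482869645213696) (nat_lit 309485009821345068724781056) (nat_lit 9) (nat_lit 0)) (.cons (.rf (nat_lit 928) (nat_lit 14303893635)) .nil))))) (.cons (.br (nat_lit 11) (nat_lit 0) (.cons (.rf (nat_lit 1466) (nat_lit 14242959524133701664)) (.cons (.rf (nat_lit 1467) (nat_lit 14242959524133701664)) (.cons (.kr (nat_lit 4722366482869645213696) (nat_lit 309485009821345068724781056) (nat_lit 9) (nat_lit 0)) (.cons (.rf (nat_lit 928) (nat_lit 14303893635)) .nil))))) (.cons (.rf (nat_lit 928) (nat_lit 14303893635)) .nil)))))) (.cons (.br (nat_lit 2) (nat_lit 0) (.cons (.rf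 (nat_lit 1469) (nat_lit 14242959524133701664)) (.cons (.rf (nat_lit 1470) (nat_lit 14242959524133701664)) (.cons (.br (nat_lit 2) (nat_lit 0) (.cons (.rf (nat_lit 1469) (nat_lit 14242959524133701664)) (.cons (.rf (nat_lit 1470) (nat_lit 14242959524133701664)) (.cons (.rf (nat_lit 928) (nat_lit 14303893635)) .nil)))) (.cons (.rf (nat_lit 928) (nat_lit 14303893635)) .nil))))) (.cons (.rf (nat_lit 928) (nat_lit 14303893635)) .nil))))),
 (.br (nat_lit 6) (nat_lit 1) (.cons (.rf (nat_lit 1367) (nat_lit 14241659903536203808)) (.cons (.rf (nat_lit 1462) (nat_lit 14241864407335502912)) (.cons (.br (nat_lit 2) (nat_lit 0) (.cons (.rf (nat_lit 1098) (nat_lit 13121351908721988832)) (.cons (.br (nat_lit 5) (nat_lit 0) (.cons (.ev (nat_lit 79229376180969236764423094273) (nat_lit 1)) (.cons (.rf (nat_lit 928) (nat_lit 14303893635)) .nil))) (.cons (.rf (nat_lit 928) (nat_lit 14303893635)) .nil)))) .nil)))),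
 (.br (nat_lit 11) (nat_lit 0) (.cons (.br (nat_lit 11) (nat_lit 0) (.cons (.rf (nat_lit 1429) (nat_lit 13121352046328710208)) (.cons (.rf (nat_lit 928) (nat_lit 14303893635)) .nil))) (.cons (.rf (nat_lit 1429) (nat_lit 13121352046328710208)) (.cons (.rf (nat_lit 928) (nat_lit 14303893635)) .nil)))),
 (.br (nat_lit 11) (nat_lit 0) (.cons (.br (nat_lit 2) (nat_lit 0) (.cons (.rf (nat_lit 1397) (nat_lit 13126032729539971104)) (.cons (.br (nat_lit 5) (nat_lit 0) (.cons (.ev (nat_lit 79537652264971248674654912513) (nat_lit 1)) (.cons (.rf (nat_lit 928) (nat_lit 14303893635)) .nil))) (.cons (.rf (nat_lit 928) (nat_lit 14303893635)) .nil)))) (.cons (.rf (nat_lit 928) (nat_lit 14303893635)) .nil))),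
 (.br (nat_lit 7) (nat_lit 0) (.cons (.rf (nat_lit 1471) (nat_lit 14242959524133701664)) (.cons (.br (nat_lit 2) (nat_lit 0) (.cons (.rf (nat_lit 1472) (nat_lit 14242959524133701664)) (.cons (.rf (nat_lit 1473) (nat_lit 14242959524133701664)) (.cons (.br (nat_lit 2) (nat_lit 0) (.cons (.rf (nat_lit 1472) (nat_lit 14242959524133701664)) (.cons (.rf (nat_lit 1473) (nat_lit 14242959524133701664)) (.cons (.rf (nat_lit 928) (nat_lit 14303893635)) .nil)))) (.cons (.rf (nat_lit 928) (nat_lit 14303893635)) .nil))))) (.cons (.br (nat_lit 11) (nat_lit 0) (.cons (.rf (nat_lit 1474) (nat_lit 14242959524133701664)) (.cons (.br (nat_lit 11) (nat_lit 0) (.cons (.rf (nat_lit 1474) (nat_lit 14242959524133701664)) (.cons (.rf (nat_lit 928) (nat_lit 14303893635)) .nil))) (.cons (.rf (nat_lit 928) (nat_lit 14303893635)) .nil)))) (.cons (.rf (nat_lit 928) (nat_lit 14303893635)) .nil))))),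
 (.br (nat_lit 11) (nat_lit 0) (.cons (.br (nat_lit 2) (nat_lit 0) (.cons (.rf (nat_lit 1371) (nat_lit 13126066816545818656)) (.cons (.br (nat_lit 2) (nat_lit 0) (.cons (.rf (nat_lit 1371) (nat_lit 13126066816545818656)) (.cons (.rf (nat_lit 928) (nat_lit 14303893635)) .nil))) (.cons (.rf (nat_lit 928) (nat_lit 14303893635)) .nil)))) (.cons (.br (nat_lit 1) (nat_lit 0) (.cons (.ev (nat_lit 310698658007724046833156353) (nat_lit 1)) (.cons (.br (nat_lit 5) (nat_lit 0) (.cons (.ev (nat_lit 159076504011100923466356883970) (nat_lit 2)) (.cons (.rf (nat_lit 928) (nat_lit 14303893635)) .nil))) (.cons (.rf (nat_lit 928) (nat_lit 14303893635)) .nil)))) (.cons (.rf (nat_lit 928) (nat_lit 14303893635)) .nil)))),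
 (.br (nat_lit 11) (nat_lit 0) (.cons (.rf (nat_lit 1476) (nat_lit 14242959524133701664)) (.cons (.br (nat_lit 1) (nat_lit 0) (.cons (.ev (nat_lit 79538861190718524239093170433) (nat_lit 1)) (.cons (.rf (nat_lit 928) (nat_lit 14303893635)) .nil))) (.cons (.rf (nat_lit 928) (nat_lit 14303893635)) .nil)))),
 (.br (nat_lit 7) (nat_lit 0) (.cons (.rf (nat_lit 1471) (nat_lit 14242959524133701664)) (.cons (.rf (nat_lit 1475) (nat_lit 14242959524133701664)) (.cons (.br (nat_lit 11) (nat_lit 0) (.cons (.rf (nat_lit 1476) (nat_lit 14242959524133701664)) (.cons (.rf (nat_lit 1477) (nat_lit 14242959524133701664)) (.cons (.br (nat_lit 11) (nat_lit 0) (.cons (.rf (nat_lit 1476) (nat_lit 14242959524133701664)) (.cons (.rf (nat_lit 1477) (nat_lit 14242959524133701664)) (.cons (.rf (nat_lit 928) (nat_lit 14303893635)) .nil)))) (.cons (.rf (nat_lit 928) (nat_lit 14303893635)) .nil))))) (.cons (.rf (nat_lit 928) (nat_lit 14303893635)) .nil))))),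
 (.br (nat_lit 7) (nat_lit 0) (.cons (.rf (nat_lit 1471) (nat_lit 14242959524133701664)) (.cons (.rf (nat_lit 1475) (nat_lit 14242959524133701664)) (.cons (.rf (nat_lit 1478) (nat_lit 14242959524133701664)) (.cons (.br (nat_lit 7) (nat_lit 0) (.cons (.rf (nat_lit 1471) (nat_lit 14242959524133701664)) (.cons (.rf (nat_lit 1475) (nat_lit 14242959524133701664)) (.cons (.rf (nat_lit 1478) (nat_lit 14242959524133701664)) (.cons (.rf (nat_lit 928) (nat_lit 14303893635)) .nil))))) (.cons (.rf (nat_lit 928) (nat_lit 14303893635)) .nil)))))),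
 (.br (nat_lit 5) (nat_lit 0) (.cons (.rf (nat_lit 1305) (nat_lit 13126032729439306912)) (.cons (.br (nat_lit 2) (nat_lit 0) (.cons (.ev (nat_lit 1213648186378978091663361) (nat_lit 1)) (.cons (.rf (nat_lit 928) (nat_lit 14303893635)) .nil))) (.cons (.rf (nat_lit 928) (nat_lit 14303893635)) .nil)))),
 (.br (nat_lit 2) (nat_lit 0) (.cons (.rf (nat_lit 1480) (nat_lit 14242959524133701664)) (.cons (.br (nat_lit 1) (nat_lit 0) (.cons (.ev (nat_lit 310698676454468116247805953) (nat_lit 1)) (.cons (.rf (nat_lit 928) (nat_lit 14303893635)) .nil))) (.cons (.rf (nat_lit 928) (nat_lit 14303893635)) .nil)))),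
 (.br (nat_lit 2) (nat_lit 0) (.cons (.rf (nat_lit 1480) (nat_lit 14242959524133701664)) (.cons (.rf (nat_lit 1481) (nat_lit 14242959524133701664)) (.cons (.br (nat_lit 2) (nat_lit 0) (.cons (.rf (nat_lit 1480) (nat_lit 14242959524133701664)) (.cons (.rf (nat_lit 1481) (nat_lit 14242959524133701664)) (.cons (.rf (nat_lit 928) (nat_lit 14303893635)) .nil)))) (.cons (.rf (nat_lit 928) (nat_lit 14303893635)) .nil))))),
 (.br (nat_lit 1) (nat_lit 0) (.cons (.br (nat_lit 5) (nat_lit 0) (.cons (.rf (nat_lit 1305) (nat_lit 13126032557808387232)) (.cons (.br (nat_lit 7) (nat_lit 0) (.cons (.kr (nat_lit 618970019642691236961189888) (nat_lit 1208925891953698189344768) (nat_lit 5) (nat_lit 0)) (.cons (.rf (nat_lit 928) (nat_lit 14303893635)) .nil))) (.cons (.rf (nat_lit 928) (nat_lit 14303893635)) .nil)))) (.cons (.rf (nat_lit 1305) (nat_lit 13126032557808391200)) (.cons (.rf (nat_lit 1451) (nat_lit 13126032729539971104)) (.cons (.rf (nat_lit 928) (nat_lit 14303893635)) .nil))))),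
 (.br (nat_lit 7) (nat_lit 0) (.cons (.rf (nat_lit 1482) (nat_lit 14242959524133701664)) (.cons (.rf (nat_lit 1483) (nat_lit 14242959524133701664)) (.cons (.br (nat_lit 2) (nat_lit 0) (.cons (.ev (nat_lit 310693935713017296249159681) (nat_lit 1)) (.cons (.br (nat_lit 2) (nat_lit 0) (.cons (.ev (nat_lit 310693935713017296249159681) (nat_lit 1)) (.cons (.rf (nat_lit 928) (nat_lit 14303893635)) .nil))) (.cons (.rf (nat_lit 928) (nat_lit 14303893635)) .nil)))) (.cons (.rf (nat_lit 928) (nat_lit 14303893635)) .nil))))),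
 (.br (nat_lit 2) (nat_lit 0) (.cons (.rf (nat_lit 1323) (nat_lit 14242959524033041440)) (.cons (.br (nat_lit 1) (nat_lit 0) (.cons (.ev (nat_lit 309485028268089146746142721) (nat_lit 1)) (.cons (.ev (nat_lit 309489732188109413363548161) (nat_lit 1)) (.cons (.rf (nat_lit 928) (nat_lit 14303893635)) .nil)))) (.cons (.rf (nat_lit 928) (nat_lit 14303893635)) .nil)))),
 (.br (nat_lit 11) (nat_lit 0) (.cons (.rf (nat_lit 1479) (nat_lit 14242959524133701664)) (.cons (.br (nat_lit 7) (nat_lit 0) (.cons (.rf (nat_lit 1482) (nat_lit 14242959524133701664)) (.cons (.rf (nat_lit 1483) (nat_lit 14242959524133701664)) (.cons (.rf (nat_lit 1484) (nat_lit 14242959524133701664)) (.cons (.br (nat_lit 7) (nat_lit 0) (.cons (.rf (nat_lit 1482) (nat_lit 14242959524133701664)) (.cons (.rf (nat_lit 1483) (nat_lit 14242959524133701664)) (.cons (.rf (nat_lit 1484) (nat_lit 14242959524133701664)) (.cons (.rf (nat_lit 928) (nat_lit 14303893635)) .nil))))) (.cons (.rf (nat_lit 928) (nat_lit 14303893635))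 .nil)))))) (.cons (.br (nat_lit 2) (nat_lit 0) (.cons (.rf (nat_lit 1323) (nat_lit 14242959524033041440)) (.cons (.rf (nat_lit 1485) (nat_lit 14242959524133701664)) (.cons (.br (nat_lit 2) (nat_lit 0) (.cons (.rf (nat_lit 1323) (nat_lit 14242959524033041440)) (.cons (.rf (nat_lit 1485) (nat_lit 14242959524133701664)) (.cons (.rf (nat_lit 928) (nat_lit 14303893635)) .nil)))) (.cons (.rf (nat_lit 928) (nat_lit 14303893635)) .nil))))) (.cons (.rf (nat_lit 928) (nat_lit 14303893635)) .nil))))),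
 (.br (nat_lit 7) (nat_lit 0) (.cons (.ev (nat_lit 309485028340146740784005121) (nat_lit 1)) (.cons (.br (nat_lit 5) (nat_lit 0) (.cons (.kr (nat_lit 4740813226943354765312) (nat_lit 79537647524085682662268731392) (nat_lit 8) (nat_lit 0)) (.cons (.rf (nat_lit 928) (nat_lit 14303893635)) .nil))) (.cons (.rf (nat_lit 928) (nat_lit 14303893635)) .nil)))),
 (.br (nat_lit 7) (nat_lit 0) (.cons (.ev (nat_lit 4740885284541704437761) (nat_lit 1)) (.cons (.ev (nat_lit 309489732260167007401410561) (nat_lit 1)) (.cons (.rf (nat_lit 928) (nat_lit 14303893635)) .nil)))),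
 (.br (nat_lit 2) (nat_lit 0) (.cons (.ev (nat_lit 79228162532711081667253567489) (nat_lit 1)) (.cons (.rf (nat_lit 1488) (nat_lit 14242959524133701664)) (.cons (.rf (nat_lit 928) (nat_lit 14303893635)) .nil)))),
 (.br (nat_lit 7) (nat_lit 0) (.cons (.rf (nat_lit 1487) (nat_lit 14242959524133701664)) (.cons (.rf (nat_lit 1489) (nat_lit 14242959524133701664)) (.cons (.br (nat_lit 7) (nat_lit 0) (.cons (.rf (nat_lit 1487) (nat_lit 14242959524133701664)) (.cons (.rf (nat_lit 1489) (nat_lit 14242959524133701664)) (.cons (.rf (nat_lit 928) (nat_lit 14303893635)) .nil)))) (.cons (.rf (nat_lit 928) (nat_lit 14303893635)) .nil))))),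
 (.br (nat_lit 1) (nat_lit 0) (.cons (.br (nat_lit 7) (nat_lit 0) (.cons (.rf (nat_lit 928) (nat_lit 14303893635)) .nil)) (.cons (.rf (nat_lit 928) (nat_lit 14303893635)) .nil))),
 (.br (nat_lit 2) (nat_lit 0) (.cons (.rf (nat_lit 1490) (nat_lit 14242959524133701664)) (.cons (.br (nat_lit 7) (nat_lit 0) (.cons (.rf (nat_lit 1491) (nat_lit 14242959524133701664)) (.cons (.br (nat_lit 7) (nat_lit 0) (.cons (.rf (nat_lit 1491) (nat_lit 14242959524133701664)) (.cons (.rf (nat_lit 928) (nat_lit 14303893635)) .nil))) (.cons (.rf (nat_lit 928) (nat_lit 14303893635)) .nil)))) (.cons (.br (nat_lit 7) (nat_lit 0) (.cons (.br (nat_lit 7) (nat_lit 0) (.cons (.ev (nat_lit 72339069031415809) (nat_lit 1)) (.cons (.rf (nat_lit 928) (nat_lit 14303893635)) .nil))) (.cons (.rf (nat_lit 1488) (nat_lit 14242959524133701664)) (.cons (.rf (nat_lit 928) (nat_lit 14303893635)) .nil)))) (.cons (.rf (nat_lit 928) (nat_lit 14303893635)) .nil)))))]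

theorem c49 : chkAll C T R L49 (nat_lit 1461) = true := by decide +kernel

theorem l49 : (nat_lit 1461) + L49.length = (nat_lit 1493) := by decide +kernel

/-- part of the certificates -/
def L50 : List Prf := [(.br (nat_lit 2) (nat_lit 0) (.cons (.rf (nat_lit 1490) (nat_lit 14242959524133701664)) (.cons (.rf (nat_lit 1492) (nat_lit 14242959524133701664)) (.cons (.br (nat_lit 1) (nat_lit 0) (.cons (.ev (nat_lit 310693935640959702211297281) (nat_lit 1)) (.cons (.ev (nat_lit 310698676454468116247805953) (nat_lit 1)) (.cons (.rf (nat_lit 928) (nat_lit 14303893635)) .nil)))) (.cons (.rf (nat_lit 928) (nat_lit 14303893635)) .nil))))),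
 (.br (nat_lit 11) (nat_lit 0) (.cons (.rf (nat_lit 1479) (nat_lit 14242959524133701664)) (.cons (.rf (nat_lit 1486) (nat_lit 14242959524133701664)) (.cons (.br (nat_lit 2) (nat_lit 0) (.cons (.rf (nat_lit 1490) (nat_lit 14242959524133701664)) (.cons (.rf (nat_lit 1492) (nat_lit 14242959524133701664)) (.cons (.rf (nat_lit 1493) (nat_lit 14242959524133701664)) (.cons (.br (nat_lit 2) (nat_lit 0) (.cons (.rf (nat_lit 1490) (nat_lit 14242959524133701664)) (.cons (.rf (nat_lit 1492) (nat_lit 14242959524133701664)) (.cons (.rf (nat_lit 1493) (nat_lit 14242959524133701664)) (.cons (.rf (nat_lit 928) (nat_lit 14303893635)) .nil))))) (.cons (.rf (nat_lit 928) (nat_lit 14303893635)) .nil)))))) (.cons (.rf (nat_lit 928) (nat_lit 14303893635)) .nil))))),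
 (.br (nat_lit 11) (nat_lit 0) (.cons (.rf (nat_lit 1479) (nat_lit 14242959524133701664)) (.cons (.rf (nat_lit 1486) (nat_lit 14242959524133701664)) (.cons (.rf (nat_lit 1494) (nat_lit 14242959524133701664)) (.cons (.br (nat_lit 11) (nat_lit 0) (.cons (.rf (nat_lit 1479) (nat_lit 14242959524133701664)) (.cons (.rf (nat_lit 1486) (nat_lit 14242959524133701664)) (.cons (.rf (nat_lit 1494) (nat_lit 14242959524133701664)) (.cons (.rf (nat_lit 928) (nat_lit 14303893635)) .nil))))) (.cons (.rf (nat_lit 928) (nat_lit 14303893635)) .nil)))))),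
 (.br (nat_lit 1) (nat_lit 0) (.cons (.rf (nat_lit 1294) (nat_lit 14241864407335503904)) (.cons (.br (nat_lit 7) (nat_lit 0) (.cons (.ev (nat_lit 79228167236703159536498769921) (nat_lit 1)) (.cons (.rf (nat_lit 928) (nat_lit 14303893635)) .nil))) (.cons (.rf (nat_lit 928) (nat_lit 14303893635)) .nil)))),
 (.br (nat_lit 2) (nat_lit 0) (.cons (.rf (nat_lit 1496) (nat_lit 14242959524133701664)) (.cons (.br (nat_lit 2) (nat_lit 0) (.cons (.rf (nat_lit 1496) (nat_lit 14242959524133701664)) (.cons (.rf (nat_lit 928) (nat_lit 14303893635)) .nil))) (.cons (.rf (nat_lit 928) (nat_lit 14303893635)) .nil)))),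
 (.br (nat_lit 7) (nat_lit 0) (.cons (.rf (nat_lit 1497) (nat_lit 14242959524133701664)) (.cons (.rf (nat_lit 1330) (nat_lit 14242959524033041440)) (.cons (.rf (nat_lit 928) (nat_lit 14303893635)) .nil)))),
 (.br (nat_lit 11) (nat_lit 0) (.cons (.rf (nat_lit 1479) (nat_lit 14242959524133701664)) (.cons (.rf (nat_lit 1495) (nat_lit 14242959524133701664)) (.cons (.br (nat_lit 7) (nat_lit 0) (.cons (.rf (nat_lit 1497) (nat_lit 14242959524133701664)) (.cons (.rf (nat_lit 1498) (nat_lit 14242959524133701664)) (.cons (.br (nat_lit 7) (nat_lit 0) (.cons (.rf (nat_lit 1497) (nat_lit 14242959524133701664)) (.cons (.rf (nat_lit 1330) (nat_lit 14242959524033041440)) (.cons (.rf (nat_lit 928) (nat_lit 14303893635)) .nil)))) (.cons (.rf (nat_lit 928) (nat_lit 14303893635)) .nil))))) (.cons (.rf (nat_lit 928) (nat_lit 14303893635)) .nil))))),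
 (.br (nat_lit 11) (nat_lit 0) (.cons (.rf (nat_lit 1479) (nat_lit 14242959524133701664)) (.cons (.rf (nat_lit 1495) (nat_lit 14242959524133701664)) (.cons (.rf (nat_lit 1499) (nat_lit 14242959524133701664)) (.cons (.br (nat_lit 11) (nat_lit 0) (.cons (.rf (nat_lit 1479) (nat_lit 14242959524133701664)) (.cons (.rf (nat_lit 1495) (nat_lit 14242959524133701664)) (.cons (.rf (nat_lit 1499) (nat_lit 14242959524133701664)) (.cons (.rf (nat_lit 928) (nat_lit 14303893635)) .nil))))) (.cons (.rf (nat_lit 928) (nat_lit 14303893635)) .nil)))))),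
 (.br (nat_lit 11) (nat_lit 0) (.cons (.rf (nat_lit 1479) (nat_lit 14242959524133701664)) (.cons (.rf (nat_lit 1495) (nat_lit 14242959524133701664)) (.cons (.rf (nat_lit 1500) (nat_lit 14242959524133701664)) (.cons (.br (nat_lit 11) (nat_lit 0) (.cons (.rf (nat_lit 1479) (nat_lit 14242959524133701664)) (.cons (.rf (nat_lit 1495) (nat_lit 14242959524133701664)) (.cons (.rf (nat_lit 1500) (nat_lit 14242959524133701664)) (.cons (.rf (nat_lit 928) (nat_lit 14303893635)) .nil))))) (.cons (.rf (nat_lit 928) (nat_lit 14303893635)) .nil)))))),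
 (.br (nat_lit 12) (nat_lit 0) (.cons (.rf (nat_lit 1429) (nat_lit 14242959524133701664)) (.cons (.rf (nat_lit 1462) (nat_lit 14242959524133701664)) (.cons (.br (nat_lit 11) (nat_lit 0) (.cons (.rf (nat_lit 1479) (nat_lit 14242959524133701664)) (.cons (.rf (nat_lit 1495) (nat_lit 14242959524133701664)) (.cons (.rf (nat_lit 1500) (nat_lit 14242959524133701664)) (.cons (.rf (nat_lit 1501) (nat_lit 14242959524133701664)) (.cons (.br (nat_lit 11) (nat_lit 0) (.cons (.rf (nat_lit 1479) (nat_lit 14242959524133701664)) (.cons (.rf (nat_lit 1495) (nat_lit 14242959524133701664)) (.cons (.rf (nat_lit 1500) (nat_lit 14242959524133701664)) (.cons (.rf (nat_lit 1501) (nat_lit 14242959524133701664)) (.cons (.rf (nat_lit 928) (nat_lit 14303893635)) .nil)))))) (.cons (.rf (nat_lit 928) (nat_lit 14303893635)) .nil))))))) (.cons (.rf (nat_lit 928) (nat_lit 14303893635)) .nil))))),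
 (.br (nat_lit 2) (nat_lit 0) (.cons (.kr (nat_lit 18446744078004518912) (nat_lit 79228162514264619068520660992) (nat_lit 4) (nat_lit 0)) (.cons (.br (nat_lit 1) (nat_lit 0) (.cons (.ev (nat_lit 79537652264899192184406868225) (nat_lit 1)) (.cons (.rf (nat_lit 928) (nat_lit 14303893635)) .nil))) (.cons (.rf (nat_lit 928) (nat_lit 14303893635)) .nil)))),
 (.br (nat_lit 2) (nat_lit 0) (.cons (.kr (nat_lit 18446744078004518912) (nat_lit 79228162514264619068520660992) (nat_lit 4) (nat_lit 0)) (.cons (.br (nat_lit 1) (nat_lit 0) (.cons (.ev (nat_lit 79537652264899192184406868225) (nat_lit 1)) (.cons (.rf (nat_lit 928) (nat_lit 14303893635)) .nil))) (.cons (.rf (nat_lit 928) (nat_lit 14303893635)) .nil)))),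
 (.br (nat_lit 11) (nat_lit 0) (.cons (.br (nat_lit 2) (nat_lit 0) (.cons (.rf (nat_lit 1503) (nat_lit 14242959524133701664)) (.cons (.rf (nat_lit 1504) (nat_lit 14242959524133701664)) (.cons (.br (nat_lit 2) (nat_lit 0) (.cons (.rf (nat_lit 1503) (nat_lit 14242959524133701664)) (.cons (.rf (nat_lit 1504) (nat_lit 14242959524133701664)) (.cons (.rf (nat_lit 928) (nat_lit 14303893635)) .nil)))) (.cons (.rf (nat_lit 928) (nat_lit 14303893635)) .nil))))) (.cons (.br (nat_lit 7) (nat_lit 0) (.cons (.kr (nat_lit 309485009821345073019748352) (nat_lit 79228162514264619068520660992) (nat_lit 4) (nat_lit 0)) (.cons (.kr (nat_lit 18446744073709551616) (nat_lit 309485009821345068724781056) (nat_lit 8) (nat_lit 0)) (.cons (.br (nat_lit 1) (nat_lit 0) (.cons (.kr (nat_lit 1208925819614629191483392) (nat_lit 79228162514264619068520660992) (nat_lit 3) (nat_lit 0)) (.cons (.kr (nat_lit 1208925819614629191483392) (nat_lit 18446744078004518912) (nat_lit 3) (nat_lit 0)) (.cons (.rf (nat_lit 928)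 (nat_lit 14303893635)) .nil)))) (.cons (.rf (nat_lit 928) (nat_lit 14303893635)) .nil))))) (.cons (.rf (nat_lit 928) (nat_lit 14303893635)) .nil)))),
 (.br (nat_lit 11) (nat_lit 0) (.cons (.rf (nat_lit 1505) (nat_lit 14242959524133701664)) (.cons (.br (nat_lit 1) (nat_lit 0) (.cons (.kr (nat_lit 1208925819614629191483392) (nat_lit 79228162514264619068520660992) (nat_lit 3) (nat_lit 0)) (.cons (.br (nat_lit 8) (nat_lit 1) (.cons (.rf (nat_lit 1367) (nat_lit 14235994122268968992)) (.cons (.rf (nat_lit 1429) (nat_lit 13119101346028718112)) .nil))) (.cons (.rf (nat_lit 928) (nat_lit 14303893635)) .nil)))) (.cons (.rf (nat_lit 928) (nat_lit 14303893635)) .nil)))),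
 (.br (nat_lit 11) (nat_lit 0) (.cons (.rf (nat_lit 1505) (nat_lit 14242959524133701664)) (.cons (.rf (nat_lit 1506) (nat_lit 14242959524133701664)) (.cons (.br (nat_lit 11) (nat_lit 0) (.cons (.rf (nat_lit 1505) (nat_lit 14242959524133701664)) (.cons (.rf (nat_lit 1506) (nat_lit 14242959524133701664)) (.cons (.rf (nat_lit 928) (nat_lit 14303893635)) .nil)))) (.cons (.rf (nat_lit 928) (nat_lit 14303893635)) .nil))))),
 (.br (nat_lit 11) (nat_lit 0) (.cons (.rf (nat_lit 1507) (nat_lit 14242959524133701664)) (.cons (.br (nat_lit 1) (nat_lit 0) (.cons (.br (nat_lit 2) (nat_lit 0) (.cons (.rf (nat_lit 1367) (nat_lit 14241659903536203808)) (.cons (.br (nat_lit 2) (nat_lit 0) (.cons (.ev (nat_lit 310698676454187745077690625) (nat_lit 1)) (.cons (.rf (nat_lit 928) (nat_lit 14303893635)) .nil))) (.cons (.rf (nat_lit 928) (nat_lit 14303893635)) .nil)))) (.cons (.kr (nat_lit 1208925819614629191483392) (nat_lit 18446744078004518912) (nat_lit 3) (nat_lit 0)) (.cons (.rf (nat_lit 928) (nat_lit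 14303893635)) .nil)))) (.cons (.rf (nat_lit 928) (nat_lit 14303893635)) .nil)))),
 (.br (nat_lit 11) (nat_lit 0) (.cons (.rf (nat_lit 1507) (nat_lit 14242959524133701664)) (.cons (.rf (nat_lit 1508) (nat_lit 14242959524133701664)) (.cons (.br (nat_lit 11) (nat_lit 0) (.cons (.rf (nat_lit 1507) (nat_lit 14242959524133701664)) (.cons (.rf (nat_lit 1508) (nat_lit 14242959524133701664)) (.cons (.rf (nat_lit 928) (nat_lit 14303893635)) .nil)))) (.cons (.rf (nat_lit 928) (nat_lit 14303893635)) .nil))))),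
 (.br (nat_lit 11) (nat_lit 0) (.cons (.rf (nat_lit 1507) (nat_lit 14242959524133701664)) (.cons (.rf (nat_lit 1509) (nat_lit 14242959524133701664)) (.cons (.br (nat_lit 11) (nat_lit 0) (.cons (.rf (nat_lit 1507) (nat_lit 14242959524133701664)) (.cons (.rf (nat_lit 1509) (nat_lit 14242959524133701664)) (.cons (.rf (nat_lit 928) (nat_lit 14303893635)) .nil)))) (.cons (.rf (nat_lit 928) (nat_lit 14303893635)) .nil))))),
 (.br (nat_lit 11) (nat_lit 0) (.cons (.br (nat_lit 11) (nat_lit 0) (.cons (.rf (nat_lit 928) (nat_lit 14303893635)) .nil)) (.cons (.rf (nat_lit 928) (nat_lit 14303893635)) .nil))),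
 (.br (nat_lit 11) (nat_lit 0) (.cons (.rf (nat_lit 1511) (nat_lit 14242959524133701664)) (.cons (.br (nat_lit 11) (nat_lit 0) (.cons (.rf (nat_lit 1511) (nat_lit 14242959524133701664)) (.cons (.rf (nat_lit 928) (nat_lit 14303893635)) .nil))) (.cons (.rf (nat_lit 928) (nat_lit 14303893635)) .nil)))),
 (.br (nat_lit 7) (nat_lit 0) (.cons (.kr (nat_lit 1213648186097498836697088) (nat_lit 79228162532711081671548469248) (nat_lit 3) (nat_lit 0)) (.cons (.rf (nat_lit 928) (nat_lit 14303893635)) .nil))),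
 (.br (nat_lit 11) (nat_lit 0) (.cons (.br (nat_lit 11) (nat_lit 0) (.cons (.rf (nat_lit 1351) (nat_lit 14236198455342275616)) (.cons (.rf (nat_lit 928) (nat_lit 14303893635)) .nil))) (.cons (.rf (nat_lit 1513) (nat_lit 14242959524133701664)) (.cons (.rf (nat_lit 928) (nat_lit 14303893635)) .nil)))),
 (.br (nat_lit 2) (nat_lit 0) (.cons (.rf (nat_lit 1514) (nat_lit 14242959524133701664)) (.cons (.br (nat_lit 7) (nat_lit 0) (.cons (.ev (nat_lit 158456329787933327649356841474) (nat_lit 2)) (.cons (.rf (nat_lit 928) (nat_lit 14303893635)) .nil))) (.cons (.rf (nat_lit 928) (nat_lit 14303893635)) .nil)))),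
 (.br (nat_lit 11) (nat_lit 0) (.cons (.ev (nat_lit 79537647542532708215266738433) (nat_lit 1)) (.cons (.br (nat_lit 2) (nat_lit 0) (.cons (.ev (nat_lit 79537652264899192184406868225) (nat_lit 1)) (.cons (.rf (nat_lit 928) (nat_lit 14303893635)) .nil))) (.cons (.rf (nat_lit 928) (nat_lit 14303893635)) .nil)))),
 (.br (nat_lit 2) (nat_lit 0) (.cons (.br (nat_lit 7) (nat_lit 0) (.cons (.ev (nat_lit 79228176700026987836126396930) (nat_lit 2)) (.cons (.rf (nat_lit 928) (nat_lit 14303893635)) .nil))) (.cons (.ev (nat_lit 79229371440083953326542094593) (nat_lit 1)) (.cons (.rf (nat_lit 928) (nat_lit 14303893635)) .nil)))),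
 (.br (nat_lit 2) (nat_lit 0) (.cons (.rf (nat_lit 1517) (nat_lit 14242959524133701664)) (.cons (.br (nat_lit 11) (nat_lit 0) (.cons (.br (nat_lit 11) (nat_lit 0) (.cons (.rf (nat_lit 928) (nat_lit 14303893635)) .nil)) (.cons (.rf (nat_lit 928) (nat_lit 14303893635)) .nil))) (.cons (.rf (nat_lit 928) (nat_lit 14303893635)) .nil)))),
 (.br (nat_lit 2) (nat_lit 0) (.cons (.rf (nat_lit 1338) (nat_lit 14242959524033041440)) (.cons (.kr (nat_lit 1213648186097498836697088) (nat_lit 79228162532711081671548469248) (nat_lit 3) (nat_lit 0)) (.cons (.rf (nat_lit 928) (nat_lit 14303893635)) .nil)))),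
 (.br (nat_lit 2) (nat_lit 0) (.cons (.rf (nat_lit 1338) (nat_lit 14242959524033041440)) (.cons (.br (nat_lit 11) (nat_lit 0) (.cons (.ev (nat_lit 310693935641242272404668673) (nat_lit 1)) (.cons (.rf (nat_lit 928) (nat_lit 14303893635)) .nil))) (.cons (.rf (nat_lit 928) (nat_lit 14303893635)) .nil)))),
 (.br (nat_lit 8) (nat_lit 1) (.cons (.rf (nat_lit 1367) (nat_lit 14235994122268968992)) (.cons (.br (nat_lit 4) (nat_lit 1) (.cons (.br (nat_lit 2) (nat_lit 0) (.cons (.rf (nat_lit 1512) (nat_lit 14242959524133701664)) (.cons (.ev (nat_lit 4740813228042866458881) (nat_lit 1)) (.cons (.br (nat_lit 9) (nat_lit 1) (.cons (.kr (nat_lit 1213648186097498836697088) (nat_lit 79228162532711081671548469248) (nat_lit 3) (nat_lit 0)) (.cons (.br (nat_lit 11) (nat_lit 0) (.cons (.rf (nat_lit 1502) (nat_lit 13119101346028718112)) (.cons (.rf (nat_lit 928) (nat_lit 14303893635)) .nil))) .nil))) (.cons (.rf (nat_lit 928) (nat_lit 14303893635)) .nil))))) (.cons (.br (nat_lit 10) (nat_lit 1)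 (.cons (.br (nat_lit 11) (nat_lit 0) (.cons (.ev (nat_lit 1208944338697776193863681) (nat_lit 1)) (.cons (.br (nat_lit 11) (nat_lit 0) (.cons (.ev (nat_lit 1208944338697776193863681) (nat_lit 1)) (.cons (.rf (nat_lit 928) (nat_lit 14303893635)) .nil))) (.cons (.rf (nat_lit 928) (nat_lit 14303893635)) .nil)))) (.cons (.br (nat_lit 6) (nat_lit 1) (.cons (.ev (nat_lit 1208944338697776193863681) (nat_lit 1)) (.cons (.rf (nat_lit 1429) (nat_lit 13119101346028718112)) .nil))) .nil))) (.cons (.br (nat_lit 2) (nat_lit 0) (.cons (.rf (nat_lit 1514) (nat_lit 14242959524133701664)) (.cons (.rf (nat_lit 1515) (nat_lit 14242959524133701664)) (.cons (.br (nat_lit 2) (nat_lit 0) (.cons (.rf (nat_lit 1514) (nat_lit 14242959524133701664)) (.cons (.rf (nat_lit 1515) (nat_lit 14242959524133701664)) (.cons (.rf (nat_lit 928) (nat_lit 14303893635)) .nil)))) (.cons (.rf (nat_lit 928) (nat_lit 14303893635)) .nil))))) .nil)))) (.cons (.br (nat_lit 10) (nat_lit 1) (.cons (.br (nat_lit 11) (nat_lit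 0) (.cons (.rf (nat_lit 1516) (nat_lit 14242959524133701664)) (.cons (.br (nat_lit 11) (nat_lit 0) (.cons (.ev (nat_lit 79537647542532708215266738433) (nat_lit 1)) (.cons (.ev (nat_lit 79538861190718806809286541313) (nat_lit 1)) (.cons (.rf (nat_lit 928) (nat_lit 14303893635)) .nil)))) (.cons (.br (nat_lit 11) (nat_lit 0) (.cons (.rf (nat_lit 1516) (nat_lit 14242959524133701664)) (.cons (.ev (nat_lit 79538861190718806809286541313) (nat_lit 1)) (.cons (.rf (nat_lit 928) (nat_lit 14303893635)) .nil)))) (.cons (.rf (nat_lit 928) (nat_lit 14303893635)) .nil))))) (.cons (.br (nat_lit 2) (nat_lit 0) (.cons (.rf (nat_lit 1517) (nat_lit 14242959524133701664)) (.cons (.rf (nat_lit 1518) (nat_lit 14242959524133701664)) (.cons (.br (nat_lit 2) (nat_lit 0) (.cons (.ev (nat_lit 79229371440083953326542094593) (nat_lit 1)) (.cons (.rf (nat_lit 1518) (nat_lit 14242959524133701664)) (.cons (.rf (nat_lit 928) (nat_lit 14303893635)) .nil)))) (.cons (.rf (nat_lit 928) (nat_lit 14303893635)) .nil)))))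 (.cons (.br (nat_lit 2) (nat_lit 0) (.cons (.rf (nat_lit 1519) (nat_lit 14242959524133701664)) (.cons (.rf (nat_lit 1520) (nat_lit 14242959524133701664)) (.cons (.br (nat_lit 2) (nat_lit 0) (.cons (.kr (nat_lit 1213648186097498836697088) (nat_lit 79228162532711081671548469248) (nat_lit 3) (nat_lit 0)) (.cons (.rf (nat_lit 1520) (nat_lit 14242959524133701664)) (.cons (.rf (nat_lit 928) (nat_lit 14303893635)) .nil)))) (.cons (.rf (nat_lit 928) (nat_lit 14303893635)) .nil))))) .nil)))) .nil)))),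
 (.br (nat_lit 11) (nat_lit 0) (.cons (.rf (nat_lit 1502) (nat_lit 13119101346028717120)) (.cons (.rf (nat_lit 1429) (nat_lit 13119101346028717120)) (.cons (.rf (nat_lit 928) (nat_lit 14303893635)) .nil)))),
 (.br (nat_lit 11) (nat_lit 0) (.cons (.rf (nat_lit 1522) (nat_lit 14242959524133701664)) (.cons (.br (nat_lit 11) (nat_lit 0) (.cons (.rf (nat_lit 1502) (nat_lit 13119101346028717120)) (.cons (.rf (nat_lit 1351) (nat_lit 14236198420982537280)) (.cons (.rf (nat_lit 928) (nat_lit 14303893635)) .nil)))) (.cons (.br (nat_lit 11) (nat_lit 0) (.cons (.rf (nat_lit 1429) (nat_lit 13119101346028717120)) (.cons (.rf (nat_lit 1351) (nat_lit 14236198420982537280)) (.cons (.rf (nat_lit 928) (nat_lit 14303893635)) .nil)))) (.cons (.rf (nat_lit 928) (nat_lit 14303893635)) .nil))))),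
 (.br (nat_lit 11) (nat_lit 0) (.cons (.rf (nat_lit 1522) (nat_lit 14242959524133701664)) (.cons (.rf (nat_lit 1502) (nat_lit 13119101346028717120)) (.cons (.rf (nat_lit 1429) (nat_lit 13119101346028717120)) (.cons (.rf (nat_lit 928) (nat_lit 14303893635)) .nil)))))]

theorem c50 : chkAll C T R L50 (nat_lit 1493) = true := by decide +kernel

theorem l50 : (nat_lit 1493) + L50.length = (nat_lit 1525) := by decide +kernel

/-- part of the certificates -/
def L51 : List Prf := [(.br (nat_lit 11) (nat_lit 0) (.cons (.rf (nat_lit 1523) (nat_lit 14242959524133701664)) (.cons (.rf (nat_lit 1502) (nat_lit 13119101346028717120)) (.cons (.br (nat_lit 11) (nat_lit 0) (.cons (.rf (nat_lit 1351) (nat_lit 14236198420982537280)) (.cons (.rf (nat_lit 1429) (nat_lit 13119101346028717120)) (.cons (.rf (nat_lit 928) (nat_lit 14303893635)) .nil)))) (.cons (.rf (nat_lit 928) (nat_lit 14303893635)) .nil))))),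
 (.br (nat_lit 11) (nat_lit 0) (.cons (.br (nat_lit 11) (nat_lit 0) (.cons (.kr (nat_lit 1208925819614629191483392) (nat_lit 4722366764344621924352) (nat_lit 3) (nat_lit 0)) (.cons (.rf (nat_lit 928) (nat_lit 14303893635)) .nil))) (.cons (.br (nat_lit 11) (nat_lit 0) (.cons (.kr (nat_lit 1208925819614629191483392) (nat_lit 4722366764344621924352) (nat_lit 3) (nat_lit 0)) (.cons (.rf (nat_lit 928) (nat_lit 14303893635)) .nil))) (.cons (.rf (nat_lit 928) (nat_lit 14303893635)) .nil)))),
 (.br (nat_lit 1) (nat_lit 0) (.cons (.rf (nat_lit 1526) (nat_lit 14242959524133701664)) (.cons (.br (nat_lit 11) (nat_lit 0) (.cons (.br (nat_lit 11) (nat_lit 0) (.cons (.kr (nat_lit 1208925819614629191483392) (nat_lit 4722366764344621924352) (nat_lit 3) (nat_lit 0)) (.cons (.rf (nat_lit 928) (nat_lit 14303893635)) .nil))) (.cons (.br (nat_lit 11) (nat_lit 0) (.cons (.kr (nat_lit 1208925819614629191483392) (nat_lit 4722366764344621924352) (nat_lit 3) (nat_lit 0)) (.cons (.rf (nat_lit 928) (nat_lit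 14303893635)) .nil))) (.cons (.rf (nat_lit 928) (nat_lit 14303893635)) .nil)))) (.cons (.ev (nat_lit 79228162514264337597838917889) (nat_lit 1)) (.cons (.rf (nat_lit 928) (nat_lit 14303893635)) .nil))))),
 (.br (nat_lit 7) (nat_lit 0) (.cons (.rf (nat_lit 1527) (nat_lit 14242959524133701664)) (.cons (.br (nat_lit 11) (nat_lit 0) (.cons (.br (nat_lit 11) (nat_lit 0) (.cons (.br (nat_lit 1) (nat_lit 0) (.cons (.rf (nat_lit 928) (nat_lit 14303893635)) .nil)) (.cons (.rf (nat_lit 928) (nat_lit 14303893635)) .nil))) (.cons (.br (nat_lit 2) (nat_lit 0) (.cons (.ev (nat_lit 1208944266640182156001281) (nat_lit 1)) (.cons (.rf (nat_lit 928) (nat_lit 14303893635)) .nil))) (.cons (.rf (nat_lit 928) (nat_lit 14303893635)) .nil)))) (.cons (.br (nat_lit 1) (nat_lit 0) (.cons (.br (nat_lit 2) (nat_lit 0) (.cons (.ev (nat_lit 79228167236631103041972535553) (nat_lit 1)) (.cons (.rf (nat_lit 928) (nat_lit 14303893635)) .nil))) (.cons (.kr (nat_lit 1208925819614629191483392) (nat_lit 4722366764344621924352)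 (nat_lit 3) (nat_lit 0)) (.cons (.rf (nat_lit 928) (nat_lit 14303893635)) .nil)))) (.cons (.rf (nat_lit 928) (nat_lit 14303893635)) .nil))))),
 (.br (nat_lit 7) (nat_lit 0) (.cons (.rf (nat_lit 1527) (nat_lit 14242959524133701664)) (.cons (.rf (nat_lit 1528) (nat_lit 14242959524133701664)) (.cons (.br (nat_lit 2) (nat_lit 0) (.cons (.ev (nat_lit 18518802771554140161) (nat_lit 1)) (.cons (.br (nat_lit 1) (nat_lit 0) (.cons (.ev (nat_lit 79228176700026987836126396930) (nat_lit 2)) (.cons (.rf (nat_lit 928) (nat_lit 14303893635)) .nil))) (.cons (.rf (nat_lit 928) (nat_lit 14303893635)) .nil)))) (.cons (.rf (nat_lit 928) (nat_lit 14303893635)) .nil))))),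
 (.br (nat_lit 8) (nat_lit 1) (.cons (.rf (nat_lit 1367) (nat_lit 14235994122268968992)) (.cons (.br (nat_lit 11) (nat_lit 0) (.cons (.rf (nat_lit 1523) (nat_lit 14242959524133701664)) (.cons (.rf (nat_lit 1524) (nat_lit 14242959524133701664)) (.cons (.rf (nat_lit 1525) (nat_lit 14242959524133701664)) (.cons (.br (nat_lit 11) (nat_lit 0) (.cons (.rf (nat_lit 1523) (nat_lit 14242959524133701664)) (.cons (.rf (nat_lit 1429) (nat_lit 13119101346028717120)) (.cons (.rf (nat_lit 1525) (nat_lit 14242959524133701664)) (.cons (.rf (nat_lit 928) (nat_lit 14303893635)) .nil))))) (.cons (.rf (nat_lit 928) (nat_lit 14303893635)) .nil)))))) (.cons (.br (nat_lit 7) (nat_lit 0) (.cons (.rf (nat_lit 1527) (nat_lit 14242959524133701664)) (.cons (.rf (nat_lit 1528) (nat_lit 14242959524133701664)) (.cons (.rf (nat_lit 1529) (nat_lit 14242959524133701664)) (.cons (.br (nat_lit 7) (nat_lit 0) (.cons (.rf (nat_lit 1527) (nat_lit 14242959524133701664)) (.cons (.rf (nat_lit 1528) (nat_lit 14242959524133701664))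 (.cons (.rf (nat_lit 1529) (nat_lit 14242959524133701664)) (.cons (.rf (nat_lit 928) (nat_lit 14303893635)) .nil))))) (.cons (.rf (nat_lit 928) (nat_lit 14303893635)) .nil)))))) .nil)))),
 (.br (nat_lit 11) (nat_lit 0) (.cons (.br (nat_lit 1) (nat_lit 0) (.cons (.ev (nat_lit 1213666632841572546248961) (nat_lit 1)) (.cons (.rf (nat_lit 928) (nat_lit 14303893635)) .nil))) (.cons (.br (nat_lit 1) (nat_lit 0) (.cons (.rf (nat_lit 1414) (nat_lit 14242959524133701664)) (.cons (.rf (nat_lit 928) (nat_lit 14303893635)) .nil))) (.cons (.rf (nat_lit 928) (nat_lit 14303893635)) .nil)))),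
 (.br (nat_lit 2) (nat_lit 0) (.cons (.rf (nat_lit 1531) (nat_lit 14242959524133701664)) (.cons (.br (nat_lit 1) (nat_lit 0) (.cons (.kr (nat_lit 1208925819614629191483392) (nat_lit 4722366764344621924352) (nat_lit 3) (nat_lit 0)) (.cons (.rf (nat_lit 928) (nat_lit 14303893635)) .nil))) (.cons (.rf (nat_lit 928) (nat_lit 14303893635)) .nil)))),
 (.br (nat_lit 2) (nat_lit 0) (.cons (.rf (nat_lit 1531) (nat_lit 14242959524133701664)) (.cons (.rf (nat_lit 1532) (nat_lit 14242959524133701664)) (.cons (.br (nat_lit 2) (nat_lit 0) (.cons (.rf (nat_lit 1531) (nat_lit 14242959524133701664)) (.cons (.rf (nat_lit 1532) (nat_lit 14242959524133701664)) (.cons (.rf (nat_lit 928) (nat_lit 14303893635)) .nil)))) (.cons (.rf (nat_lit 928) (nat_lit 14303893635)) .nil))))),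
 (.br (nat_lit 11) (nat_lit 0) (.cons (.rf (nat_lit 1533) (nat_lit 14242959524133701664)) (.cons (.br (nat_lit 2) (nat_lit 0) (.cons (.ev (nat_lit 309485009821627647524864001) (nat_lit 1)) (.cons (.br (nat_lit 2) (nat_lit 0) (.cons (.ev (nat_lit 309485009821627647524864001) (nat_lit 1)) (.cons (.rf (nat_lit 928) (nat_lit 14303893635)) .nil))) (.cons (.rf (nat_lit 928) (nat_lit 14303893635)) .nil)))) (.cons (.kr (nat_lit 18446744073709551616) (nat_lit 309485009821345068724781056) (nat_lit 8) (nat_lit 0)) (.cons (.rf (nat_lit 928) (nat_lit 14303893635)) .nil))))),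
 (.br (nat_lit 11) (nat_lit 0) (.cons (.rf (nat_lit 1533) (nat_lit 14242959524133701664)) (.cons (.rf (nat_lit 1534) (nat_lit 14242959524133701664)) (.cons (.br (nat_lit 1) (nat_lit 0) (.cons (.br (nat_lit 7) (nat_lit 0) (.cons (.ev (nat_lit 79538856468424100063014289665) (nat_lit 1)) (.cons (.rf (nat_lit 928) (nat_lit 14303893635)) .nil))) (.cons (.kr (nat_lit 1208925819614629191483392) (nat_lit 4722366764344621924352) (nat_lit 3) (nat_lit 0)) (.cons (.rf (nat_lit 928) (nat_lit 14303893635)) .nil)))) (.cons (.rf (nat_lit 928) (nat_lit 14303893635)) .nil))))),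
 (.br (nat_lit 8) (nat_lit 1) (.cons (.rf (nat_lit 1521) (nat_lit 14242959524133701664)) (.cons (.rf (nat_lit 1530) (nat_lit 14242959524133701664)) (.cons (.br (nat_lit 11) (nat_lit 0) (.cons (.rf (nat_lit 1533) (nat_lit 14242959524133701664)) (.cons (.rf (nat_lit 1534) (nat_lit 14242959524133701664)) (.cons (.rf (nat_lit 1535) (nat_lit 14242959524133701664)) (.cons (.br (nat_lit 11) (nat_lit 0) (.cons (.rf (nat_lit 1533) (nat_lit 14242959524133701664)) (.cons (.kr (nat_lit 18446744073709551616) (nat_lit 309485009821345068724781056) (nat_lit 8) (nat_lit 0)) (.cons (.rf (nat_lit 1535) (nat_lit 14242959524133701664)) (.cons (.rf (nat_lit 928) (nat_lit 14303893635)) .nil))))) (.cons (.rf (nat_lit 928) (nat_lit 14303893635)) .nil)))))) .nil)))),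
 (.br (nat_lit 11) (nat_lit 0) (.cons (.ev (nat_lit 310693954087704871137443841) (nat_lit 1)) (.cons (.rf (nat_lit 928) (nat_lit 14303893635)) .nil))),
 (.br (nat_lit 11) (nat_lit 0) (.cons (.ev (nat_lit 310693954087704871137443841) (nat_lit 1)) (.cons (.rf (nat_lit 928) (nat_lit 14303893635)) .nil))),
 (.br (nat_lit 11) (nat_lit 0) (.cons (.rf (nat_lit 1502) (nat_lit 13124971631095253024)) (.cons (.br (nat_lit 7) (nat_lit 0) (.cons (.ev (nat_lit 79538861172344120329631695105) (nat_lit 1)) (.cons (.rf (nat_lit 928) (nat_lit 14303893635)) .nil))) (.cons (.rf (nat_lit 928) (nat_lit 14303893635)) .nil)))),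
 (.br (nat_lit 7) (nat_lit 0) (.cons (.ev (nat_lit 1208944338697776193863681) (nat_lit 1)) (.cons (.br (nat_lit 11) (nat_lit 0) (.cons (.ev (nat_lit 79228162532783140360803057921) (nat_lit 1)) (.cons (.rf (nat_lit 928) (nat_lit 14303893635)) .nil))) (.cons (.rf (nat_lit 928) (nat_lit 14303893635)) .nil)))),
 (.br (nat_lit 11) (nat_lit 0) (.cons (.rf (nat_lit 1304) (nat_lit 12721758630253501824)) (.cons (.br (nat_lit 7) (nat_lit 0) (.cons (.ev (nat_lit 79538861172344120329631695105) (nat_lit 1)) (.cons (.rf (nat_lit 928) (nat_lit 14303893635)) .nil))) (.cons (.rf (nat_lit 928) (nat_lit 14303893635)) .nil)))),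
 (.br (nat_lit 11) (nat_lit 0) (.cons (.rf (nat_lit 1304) (nat_lit 12721758630253501824)) (.cons (.br (nat_lit 7) (nat_lit 0) (.cons (.ev (nat_lit 79538861172344120329631695105) (nat_lit 1)) (.cons (.rf (nat_lit 928) (nat_lit 14303893635)) .nil))) (.cons (.rf (nat_lit 928) (nat_lit 14303893635)) .nil)))),
 (.br (nat_lit 6) (nat_lit 1) (.cons (.rf (nat_lit 1367) (nat_lit 14241659903536203808)) (.cons (.br (nat_lit 10) (nat_lit 1) (.cons (.br (nat_lit 11) (nat_lit 0) (.cons (.br (nat_lit 11) (nat_lit 0) (.cons (.rf (nat_lit 1502) (nat_lit 13124971631095253024)) (.cons (.rf (nat_lit 1537) (nat_lit 14242959524133701664)) (.cons (.rf (nat_lit 928) (nat_lit 14303893635)) .nil)))) (.cons (.br (nat_lit 11) (nat_lit 0) (.cons (.rf (nat_lit 1502) (nat_lit 13124971631095253024)) (.cons (.rf (nat_lit 1538) (nat_lit 14242959524133701664)) (.cons (.rf (nat_lit 928) (nat_lit 14303893635)) .nil)))) (.cons (.br (nat_lit 11) (nat_lit 0) (.cons (.rf (nat_lit 1537) (nat_lit 14242959524133701664))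 (.cons (.rf (nat_lit 1538) (nat_lit 14242959524133701664)) (.cons (.rf (nat_lit 928) (nat_lit 14303893635)) .nil)))) (.cons (.rf (nat_lit 928) (nat_lit 14303893635)) .nil))))) (.cons (.kr (nat_lit 1208925819614629191483392) (nat_lit 79228162514264619068520660992) (nat_lit 3) (nat_lit 0)) (.cons (.br (nat_lit 11) (nat_lit 0) (.cons (.br (nat_lit 11) (nat_lit 0) (.cons (.rf (nat_lit 1502) (nat_lit 13124971631095253024)) (.cons (.rf (nat_lit 1361) (nat_lit 14241659834682514496)) (.cons (.rf (nat_lit 928) (nat_lit 14303893635)) .nil)))) (.cons (.rf (nat_lit 1539) (nat_lit 14242959524133701664)) (.cons (.br (nat_lit 11) (nat_lit 0) (.cons (.rf (nat_lit 1361) (nat_lit 14241659834682514496)) (.cons (.rf (nat_lit 1539) (nat_lit 14242959524133701664)) (.cons (.rf (nat_lit 928) (nat_lit 14303893635)) .nil)))) (.cons (.rf (nat_lit 928) (nat_lit 14303893635)) .nil))))) .nil)))) (.cons (.br (nat_lit 10) (nat_lit 1) (.cons (.br (nat_lit 7) (nat_lit 0) (.cons (.rf (nat_lit 1540) (nat_lit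 14242959524133701664)) (.cons (.br (nat_lit 7) (nat_lit 0) (.cons (.ev (nat_lit 1208944338697776193863681) (nat_lit 1)) (.cons (.ev (nat_lit 4740885567111897809153) (nat_lit 1)) (.cons (.rf (nat_lit 928) (nat_lit 14303893635)) .nil)))) (.cons (.br (nat_lit 7) (nat_lit 0) (.cons (.rf (nat_lit 1540) (nat_lit 14242959524133701664)) (.cons (.ev (nat_lit 4740885567111897809153) (nat_lit 1)) (.cons (.rf (nat_lit 928) (nat_lit 14303893635)) .nil)))) (.cons (.rf (nat_lit 928) (nat_lit 14303893635)) .nil))))) (.cons (.br (nat_lit 11) (nat_lit 0) (.cons (.rf (nat_lit 1541) (nat_lit 14242959524133701664)) (.cons (.rf (nat_lit 1542) (nat_lit 14242959524133701664)) (.cons (.br (nat_lit 11) (nat_lit 0) (.cons (.rf (nat_lit 1541) (nat_lit 14242959524133701664)) (.cons (.rf (nat_lit 1542) (nat_lit 14242959524133701664)) (.cons (.rf (nat_lit 928) (nat_lit 14303893635)) .nil)))) (.cons (.rf (nat_lit 928) (nat_lit 14303893635)) .nil))))) (.cons (.kr (nat_lit 1208925819614629191483392) (nat_lit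 79228162514264619068520660992) (nat_lit 3) (nat_lit 0)) .nil)))) .nil)))),
 (.br (nat_lit 11) (nat_lit 0) (.cons (.br (nat_lit 11) (nat_lit 0) (.cons (.kr (nat_lit 1208925819614629191483392) (nat_lit 18446744078004518912) (nat_lit 3) (nat_lit 0)) (.cons (.rf (nat_lit 928) (nat_lit 14303893635)) .nil))) (.cons (.kr (nat_lit 1208925819614629191483392) (nat_lit 18446744078004518912) (nat_lit 3) (nat_lit 0)) (.cons (.rf (nat_lit 928) (nat_lit 14303893635)) .nil)))),
 (.br (nat_lit 11) (nat_lit 0) (.cons (.rf (nat_lit 1502) (nat_lit 13124971631095252032)) (.cons (.br (nat_lit 2) (nat_lit 0) (.cons (.rf (nat_lit 1337) (nat_lit 14242959524033041440)) (.cons (.rf (nat_lit 928) (nat_lit 14303893635)) .nil))) (.cons (.rf (nat_lit 928) (nat_lit 14303893635)) .nil)))),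
 (.br (nat_lit 11) (nat_lit 0) (.cons (.kr (nat_lit 18446744078004518912) (nat_lit 79228162514264619068520660992) (nat_lit 4) (nat_lit 0)) (.cons (.br (nat_lit 1) (nat_lit 0) (.cons (.ev (nat_lit 79538861172272062735593832705) (nat_lit 1)) (.cons (.rf (nat_lit 928) (nat_lit 14303893635)) .nil))) (.cons (.rf (nat_lit 928) (nat_lit 14303893635)) .nil)))),
 (.br (nat_lit 11) (nat_lit 0) (.cons (.kr (nat_lit 18446744078004518912) (nat_lit 79228162514264619068520660992) (nat_lit 4) (nat_lit 0)) (.cons (.rf (nat_lit 1546) (nat_lit 14242959524133701664)) (.cons (.br (nat_lit 11) (nat_lit 0) (.cons (.kr (nat_lit 18446744078004518912) (nat_lit 79228162514264619068520660992) (nat_lit 4) (nat_lit 0)) (.cons (.rf (nat_lit 1546) (nat_lit 14242959524133701664)) (.cons (.rf (nat_lit 928) (nat_lit 14303893635)) .nil)))) (.cons (.rf (nat_lit 928) (nat_lit 14303893635)) .nil))))),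
 (.br (nat_lit 7) (nat_lit 0) (.cons (.br (nat_lit 7) (nat_lit 0) (.cons (.ev (nat_lit 79229371458602754994272796673) (nat_lit 1)) (.cons (.rf (nat_lit 928) (nat_lit 14303893635)) .nil))) (.cons (.br (nat_lit 1) (nat_lit 0) (.cons (.ev (nat_lit 79229376180897180265585115393) (nat_lit 1)) (.cons (.rf (nat_lit 928) (nat_lit 14303893635)) .nil))) (.cons (.rf (nat_lit 928) (nat_lit 14303893635)) .nil)))),
 (.br (nat_lit 11) (nat_lit 0) (.cons (.rf (nat_lit 1548) (nat_lit 14242959524133701664)) (.cons (.rf (nat_lit 1293) (nat_lit 2713710391294268448)) (.cons (.rf (nat_lit 928) (nat_lit 14303893635)) .nil)))),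
 (.br (nat_lit 6) (nat_lit 1) (.cons (.rf (nat_lit 1367) (nat_lit 14241659903536203808)) (.cons (.br (nat_lit 8) (nat_lit 1) (.cons (.br (nat_lit 11) (nat_lit 0) (.cons (.rf (nat_lit 1544) (nat_lit 14242959524133701664)) (.cons (.br (nat_lit 11) (nat_lit 0) (.cons (.rf (nat_lit 1544) (nat_lit 14242959524133701664)) (.cons (.rf (nat_lit 1544) (nat_lit 14236198627140962336)) (.cons (.rf (nat_lit 928) (nat_lit 14303893635)) .nil)))) (.cons (.rf (nat_lit 1544) (nat_lit 14236198627140962336)) (.cons (.rf (nat_lit 928) (nat_lit 14303893635)) .nil))))) (.cons (.rf (nat_lit 1543) (nat_lit 14236198627140961344)) (.cons (.br (nat_lit 2) (nat_lit 0) (.cons (.kr (nat_lit 18446744078004518912) (nat_lit 79228162514264619068520660992) (nat_lit 4) (nat_lit 0)) (.cons (.br (nat_lit 1) (nat_lit 0) (.cons (.ev (nat_lit 282578783371521) (nat_lit 1)) (.cons (.ev (nat_lit 79229371458530696296444985601) (nat_lit 1)) (.cons (.rf (nat_lit 928) (nat_lit 14303893635)) .nil)))) (.cons (.rf (nat_lit 1512)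 (nat_lit 14236198421049641120)) (.cons (.rf (nat_lit 928) (nat_lit 14303893635)) .nil))))) (.cons (.br (nat_lit 11) (nat_lit 0) (.cons (.rf (nat_lit 1502) (nat_lit 13124971631095252032)) (.cons (.rf (nat_lit 1545) (nat_lit 14242959524133701664)) (.cons (.br (nat_lit 11) (nat_lit 0) (.cons (.rf (nat_lit 1502) (nat_lit 13124971631095252032)) (.cons (.rf (nat_lit 1545) (nat_lit 14242959524133701664)) (.cons (.rf (nat_lit 928) (nat_lit 14303893635)) .nil)))) (.cons (.rf (nat_lit 928) (nat_lit 14303893635)) .nil))))) .nil))))) (.cons (.br (nat_lit 2) (nat_lit 0) (.cons (.rf (nat_lit 1547) (nat_lit 14242959524133701664)) (.cons (.rf (nat_lit 1543) (nat_lit 14236198627140961344)) (.cons (.br (nat_lit 11) (nat_lit 0) (.cons (.rf (nat_lit 1548) (nat_lit 14242959524133701664)) (.cons (.rf (nat_lit 1549) (nat_lit 14242959524133701664)) (.cons (.br (nat_lit 11) (nat_lit 0) (.cons (.rf (nat_lit 1548) (nat_lit 14242959524133701664)) (.cons (.rf (nat_lit 1293) (nat_lit 2713710391294268448))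 (.cons (.rf (nat_lit 928) (nat_lit 14303893635)) .nil)))) (.cons (.rf (nat_lit 928) (nat_lit 14303893635)) .nil))))) (.cons (.br (nat_lit 8) (nat_lit 1) (.cons (.rf (nat_lit 1547) (nat_lit 14236198627140962336)) (.cons (.br (nat_lit 7) (nat_lit 0) (.cons (.ev (nat_lit 72339069031415809) (nat_lit 1)) (.cons (.ev (nat_lit 1208925891954797701038081) (nat_lit 1)) (.cons (.rf (nat_lit 928) (nat_lit 14303893635)) .nil)))) (.cons (.br (nat_lit 7) (nat_lit 0) (.cons (.br (nat_lit 7) (nat_lit 0) (.cons (.ev (nat_lit 79228167255149623234743304193) (nat_lit 1)) (.cons (.rf (nat_lit 928) (nat_lit 14303893635)) .nil))) (.cons (.br (nat_lit 7) (nat_lit 0) (.cons (.ev (nat_lit 79228167255149623234743304193) (nat_lit 1)) (.cons (.rf (nat_lit 928) (nat_lit 14303893635)) .nil))) (.cons (.rf (nat_lit 928) (nat_lit 14303893635)) .nil)))) .nil)))) (.cons (.rf (nat_lit 928) (nat_lit 14303893635)) .nil)))))) .nil)))),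
 (.br (nat_lit 1) (nat_lit 0) (.cons (.br (nat_lit 11) (nat_lit 0) (.cons (.kr (nat_lit 310693935640959697916264448) (nat_lit 4740813508418331475968) (nat_lit 3) (nat_lit 0)) (.cons (.rf (nat_lit 928) (nat_lit 14303893635)) .nil))) (.cons (.ev (nat_lit 18447025548686262529) (nat_lit 1)) (.cons (.rf (nat_lit 928) (nat_lit 14303893635)) .nil)))),
 (.br (nat_lit 11) (nat_lit 0) (.cons (.rf (nat_lit 1551) (nat_lit 14242959524133701664)) (.cons (.br (nat_lit 2) (nat_lit 0) (.cons (.ev (nat_lit 1208944266640182156001281) (nat_lit 1)) (.cons (.rf (nat_lit 928) (nat_lit 14303893635)) .nil))) (.cons (.rf (nat_lit 928) (nat_lit 14303893635)) .nil)))),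
 (.br (nat_lit 11) (nat_lit 0) (.cons (.rf (nat_lit 1551) (nat_lit 14242959524133701664)) (.cons (.rf (nat_lit 1552) (nat_lit 14242959524133701664)) (.cons (.br (nat_lit 11) (nat_lit 0) (.cons (.rf (nat_lit 1551) (nat_lit 14242959524133701664)) (.cons (.rf (nat_lit 1552) (nat_lit 14242959524133701664)) (.cons (.rf (nat_lit 928) (nat_lit 14303893635)) .nil)))) (.cons (.rf (nat_lit 928) (nat_lit 14303893635)) .nil)))))]

theorem c51 : chkAll C T R L51 (nat_lit 1525) = true := by decide +kernel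

theorem l51 : (nat_lit 1525) + L51.length = (nat_lit 1554) := by decide +kernel

/-- part of the certificates -/
def L52 : List Prf := [(.br (nat_lit 2) (nat_lit 0) (.cons (.br (nat_lit 7) (nat_lit 0) (.cons (.ev (nat_lit 1208925891954797701038081) (nat_lit 1)) (.cons (.rf (nat_lit 928) (nat_lit 14303893635)) .nil))) (.cons (.kr (nat_lit 1208925819614629191483392) (nat_lit 18446744078004518912) (nat_lit 3) (nat_lit 0)) (.cons (.rf (nat_lit 928) (nat_lit 14303893635)) .nil)))),
 (.br (nat_lit 1) (nat_lit 0) (.cons (.rf (nat_lit 1554) (nat_lit 14242959524133701664)) (.cons (.br (nat_lit 2) (nat_lit 0) (.cons (.rf (nat_lit 1553) (nat_lit 14242959524133701664)) (.cons (.rf (nat_lit 1554) (nat_lit 14236198627140961344)) (.cons (.rf (nat_lit 928) (nat_lit 14303893635)) .nil)))) (.cons (.rf (nat_lit 1553) (nat_lit 14236198627140961344)) (.cons (.rf (nat_lit 928) (nat_lit 14303893635)) .nil))))),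
 (.br (nat_lit 2) (nat_lit 0) (.cons (.rf (nat_lit 1553) (nat_lit 14242959524133701664)) (.cons (.rf (nat_lit 1555) (nat_lit 14242959524133701664)) (.cons (.br (nat_lit 1) (nat_lit 0) (.cons (.br (nat_lit 7) (nat_lit 0) (.cons (.ev (nat_lit 18519084246547628033) (nat_lit 1)) (.cons (.rf (nat_lit 928) (nat_lit 14303893635)) .nil))) (.cons (.rf (nat_lit 1553) (nat_lit 14236198627140962336)) (.cons (.rf (nat_lit 928) (nat_lit 14303893635)) .nil)))) (.cons (.rf (nat_lit 928) (nat_lit 14303893635)) .nil))))),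
 (.br (nat_lit 6) (nat_lit 1) (.cons (.rf (nat_lit 1543) (nat_lit 14242959524133701664)) (.cons (.rf (nat_lit 1550) (nat_lit 14242959524133701664)) (.cons (.br (nat_lit 2) (nat_lit 0) (.cons (.rf (nat_lit 1553) (nat_lit 14242959524133701664)) (.cons (.rf (nat_lit 1555) (nat_lit 14242959524133701664)) (.cons (.rf (nat_lit 1556) (nat_lit 14242959524133701664)) (.cons (.br (nat_lit 2) (nat_lit 0) (.cons (.rf (nat_lit 1553) (nat_lit 14242959524133701664)) (.cons (.rf (nat_lit 1555) (nat_lit 14242959524133701664)) (.cons (.rf (nat_lit 1556) (nat_lit 14242959524133701664)) (.cons (.rf (nat_lit 928) (nat_lit 14303893635)) .nil))))) (.cons (.rf (nat_lit 928) (nat_lit 14303893635)) .nil)))))) .nil)))),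
 (.br (nat_lit 2) (nat_lit 0) (.cons (.kr (nat_lit 18446744078004518912) (nat_lit 4722366764344621924352) (nat_lit 4) (nat_lit 0)) (.cons (.ev (nat_lit 1208925819897207974789121) (nat_lit 1)) (.cons (.rf (nat_lit 928) (nat_lit 14303893635)) .nil)))),
 (.br (nat_lit 2) (nat_lit 0) (.cons (.rf (nat_lit 1524) (nat_lit 14242959524133701664)) (.cons (.rf (nat_lit 1558) (nat_lit 14242959524133701664)) (.cons (.ev (nat_lit 1208925819897207974789121) (nat_lit 1)) (.cons (.rf (nat_lit 928) (nat_lit 14303893635)) .nil))))),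
 (.br (nat_lit 6) (nat_lit 1) (.cons (.rf (nat_lit 1502) (nat_lit 13124971631095253024)) (.cons (.rf (nat_lit 1502) (nat_lit 13124971631095252032)) (.cons (.rf (nat_lit 1559) (nat_lit 14242959524133701664)) (.cons (.rf (nat_lit 1429) (nat_lit 14242959524133701664)) .nil))))),
 (.br (nat_lit 7) (nat_lit 0) (.cons (.br (nat_lit 11) (nat_lit 0) (.cons (.rf (nat_lit 1559) (nat_lit 14242959524133701664)) (.cons (.rf (nat_lit 1560) (nat_lit 14242959524133701664)) (.cons (.br (nat_lit 11) (nat_lit 0) (.cons (.rf (nat_lit 1559) (nat_lit 14242959524133701664)) (.cons (.rf (nat_lit 1560) (nat_lit 14242959524133701664)) (.cons (.rf (nat_lit 928) (nat_lit 14303893635)) .nil)))) (.cons (.rf (nat_lit 928) (nat_lit 14303893635)) .nil))))) (.cons (.br (nat_lit 1) (nat_lit 0) (.cons (.kr (nat_lit 1213648186097498836697088) (nat_lit 158456325028528956662064611328) (nat_lit 3) (nat_lit 0)) (.cons (.br (nat_lit 2) (nat_lit 0) (.cons (.br (nat_lit 11) (nat_lit 0) (.cons (.rf (nat_lit 1502) (nat_lit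 13124971631095252032)) (.cons (.rf (nat_lit 928) (nat_lit 14303893635)) .nil))) (.cons (.rf (nat_lit 1367) (nat_lit 14235994122268968992)) (.cons (.rf (nat_lit 928) (nat_lit 14303893635)) .nil)))) (.cons (.rf (nat_lit 928) (nat_lit 14303893635)) .nil)))) (.cons (.rf (nat_lit 928) (nat_lit 14303893635)) .nil)))),
 (.br (nat_lit 7) (nat_lit 0) (.cons (.rf (nat_lit 1561) (nat_lit 14242959524133701664)) (.cons (.br (nat_lit 2) (nat_lit 0) (.cons (.br (nat_lit 1) (nat_lit 0) (.cons (.rf (nat_lit 1367) (nat_lit 14241659903536203808)) (.cons (.br (nat_lit 2) (nat_lit 0) (.cons (.rf (nat_lit 928) (nat_lit 14303893635)) .nil)) (.cons (.rf (nat_lit 928) (nat_lit 14303893635)) .nil)))) (.cons (.br (nat_lit 11) (nat_lit 0) (.cons (.rf (nat_lit 1524) (nat_lit 14242959524133701664)) (.cons (.rf (nat_lit 928) (nat_lit 14303893635)) .nil))) (.cons (.rf (nat_lit 928) (nat_lit 14303893635)) .nil)))) (.cons (.rf (nat_lit 928) (nat_lit 14303893635)) .nil)))),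
 (.br (nat_lit 7) (nat_lit 0) (.cons (.rf (nat_lit 1561) (nat_lit 14242959524133701664)) (.cons (.rf (nat_lit 1562) (nat_lit 14242959524133701664)) (.cons (.br (nat_lit 7) (nat_lit 0) (.cons (.rf (nat_lit 1561) (nat_lit 14242959524133701664)) (.cons (.rf (nat_lit 1562) (nat_lit 14242959524133701664)) (.cons (.rf (nat_lit 928) (nat_lit 14303893635)) .nil)))) (.cons (.rf (nat_lit 928) (nat_lit 14303893635)) .nil))))),
 (.br (nat_lit 7) (nat_lit 0) (.cons (.br (nat_lit 7) (nat_lit 0) (.cons (.ev (nat_lit 72339069031415809) (nat_lit 1)) (.cons (.rf (nat_lit 928) (nat_lit 14303893635)) .nil))) (.cons (.br (nat_lit 7) (nat_lit 0) (.cons (.ev (nat_lit 72339069031415809) (nat_lit 1)) (.cons (.rf (nat_lit 928) (nat_lit 14303893635)) .nil))) (.cons (.rf (nat_lit 928) (nat_lit 14303893635)) .nil)))),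
 (.br (nat_lit 11) (nat_lit 0) (.cons (.rf (nat_lit 1563) (nat_lit 14242959524133701664)) (.cons (.br (nat_lit 6) (nat_lit 1) (.cons (.kr (nat_lit 1213648186097498836697088) (nat_lit 158456325028528956662064611328) (nat_lit 3) (nat_lit 0)) (.cons (.rf (nat_lit 1564) (nat_lit 14242959524133701664)) (.cons (.br (nat_lit 2) (nat_lit 0) (.cons (.br (nat_lit 2) (nat_lit 0) (.cons (.ev (nat_lit 1208944266640182156001281) (nat_lit 1)) (.cons (.rf (nat_lit 928) (nat_lit 14303893635)) .nil))) (.cons (.br (nat_lit 2) (nat_lit 0) (.cons (.ev (nat_lit 1208944266640182156001281) (nat_lit 1)) (.cons (.rf (nat_lit 928) (nat_lit 14303893635)) .nil))) (.cons (.rf (nat_lit 928) (nat_lit 14303893635)) .nil)))) .nil)))) (.cons (.rf (nat_lit 928) (nat_lit 14303893635)) .nil)))),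
 (.br (nat_lit 11) (nat_lit 0) (.cons (.rf (nat_lit 1563) (nat_lit 14242959524133701664)) (.cons (.rf (nat_lit 1565) (nat_lit 14242959524133701664)) (.cons (.br (nat_lit 11) (nat_lit 0) (.cons (.rf (nat_lit 1563) (nat_lit 14242959524133701664)) (.cons (.rf (nat_lit 1565) (nat_lit 14242959524133701664)) (.cons (.rf (nat_lit 928) (nat_lit 14303893635)) .nil)))) (.cons (.rf (nat_lit 928) (nat_lit 14303893635)) .nil))))),
 (.br (nat_lit 11) (nat_lit 0) (.cons (.rf (nat_lit 1563) (nat_lit 14242959524133701664)) (.cons (.rf (nat_lit 1566) (nat_lit 14242959524133701664)) (.cons (.br (nat_lit 11) (nat_lit 0) (.cons (.rf (nat_lit 1563) (nat_lit 14242959524133701664)) (.cons (.rf (nat_lit 1566) (nat_lit 14242959524133701664)) (.cons (.rf (nat_lit 928) (nat_lit 14303893635)) .nil)))) (.cons (.rf (nat_lit 928) (nat_lit 14303893635)) .nil))))),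
 (.br (nat_lit 12) (nat_lit 0) (.cons (.rf (nat_lit 1429) (nat_lit 14242959524133701664)) (.cons (.rf (nat_lit 1502) (nat_lit 14242959524133701664)) (.cons (.br (nat_lit 5) (nat_lit 0) (.cons (.br (nat_lit 11) (nat_lit 0) (.cons (.rf (nat_lit 1507) (nat_lit 14242959524133701664)) (.cons (.rf (nat_lit 1509) (nat_lit 14242959524133701664)) (.cons (.rf (nat_lit 1510) (nat_lit 14242959524133701664)) (.cons (.br (nat_lit 11) (nat_lit 0) (.cons (.rf (nat_lit 1507) (nat_lit 14242959524133701664)) (.cons (.rf (nat_lit 1509) (nat_lit 14242959524133701664)) (.cons (.rf (nat_lit 1510) (nat_lit 14242959524133701664)) (.cons (.rf (nat_lit 928) (nat_lit 14303893635)) .nil))))) (.cons (.rf (nat_lit 928) (nat_lit 14303893635)) .nil)))))) (.cons (.br (nat_lit 8) (nat_lit 1) (.cons (.rf (nat_lit 1521) (nat_lit 14242959524133701664)) (.cons (.rf (nat_lit 1530) (nat_lit 14242959524133701664)) (.cons (.rf (nat_lit 1536) (nat_lit 14242959524133701664)) (.cons (.br (nat_lit 8) (nat_lit 1) (.cons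 (.rf (nat_lit 1521) (nat_lit 14242959524133701664)) (.cons (.rf (nat_lit 1530) (nat_lit 14242959524133701664)) (.cons (.rf (nat_lit 1536) (nat_lit 14242959524133701664)) .nil)))) .nil))))) (.cons (.br (nat_lit 6) (nat_lit 1) (.cons (.rf (nat_lit 1543) (nat_lit 14242959524133701664)) (.cons (.rf (nat_lit 1550) (nat_lit 14242959524133701664)) (.cons (.rf (nat_lit 1557) (nat_lit 14242959524133701664)) (.cons (.br (nat_lit 6) (nat_lit 1) (.cons (.rf (nat_lit 1543) (nat_lit 14242959524133701664)) (.cons (.rf (nat_lit 1550) (nat_lit 14242959524133701664)) (.cons (.rf (nat_lit 1557) (nat_lit 14242959524133701664)) .nil)))) .nil))))) (.cons (.kr (nat_lit 4722366482869645213696) (nat_lit 79228162514264337593543950336) (nat_lit 9) (nat_lit 0)) (.cons (.br (nat_lit 11) (nat_lit 0) (.cons (.rf (nat_lit 1563) (nat_lit 14242959524133701664)) (.cons (.rf (nat_lit 1566) (nat_lit 14242959524133701664)) (.cons (.rf (nat_lit 1567) (nat_lit 14242959524133701664)) (.cons (.br (nat_lit 11) (nat_lit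 0) (.cons (.rf (nat_lit 1563) (nat_lit 14242959524133701664)) (.cons (.rf (nat_lit 1566) (nat_lit 14242959524133701664)) (.cons (.rf (nat_lit 1567) (nat_lit 14242959524133701664)) (.cons (.rf (nat_lit 928) (nat_lit 14303893635)) .nil))))) (.cons (.rf (nat_lit 928) (nat_lit 14303893635)) .nil)))))) (.cons (.rf (nat_lit 928) (nat_lit 14303893635)) .nil))))))) (.cons (.rf (nat_lit 928) (nat_lit 14303893635)) .nil))))),
 (.br (nat_lit 12) (nat_lit 0) (.cons (.rf (nat_lit 1429) (nat_lit 14242959524133701664)) (.cons (.rf (nat_lit 1502) (nat_lit 14242959524133701664)) (.cons (.rf (nat_lit 1568) (nat_lit 14242959524133701664)) (.cons (.br (nat_lit 12) (nat_lit 0) (.cons (.rf (nat_lit 1429) (nat_lit 14242959524133701664)) (.cons (.rf (nat_lit 1502) (nat_lit 14242959524133701664)) (.cons (.rf (nat_lit 1568) (nat_lit 14242959524133701664)) (.cons (.rf (nat_lit 928) (nat_lit 14303893635)) .nil))))) (.cons (.rf (nat_lit 928) (nat_lit 14303893635)) .nil)))))),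
 (.br (nat_lit 11) (nat_lit 0) (.cons (.br (nat_lit 1) (nat_lit 0) (.cons (.rf (nat_lit 1465) (nat_lit 13123847792773695648)) (.cons (.br (nat_lit 2) (nat_lit 0) (.cons (.rf (nat_lit 1564) (nat_lit 14242959523999484064)) (.cons (.rf (nat_lit 928) (nat_lit 14303893635)) .nil))) (.cons (.rf (nat_lit 928) (nat_lit 14303893635)) .nil)))) (.cons (.br (nat_lit 2) (nat_lit 0) (.cons (.br (nat_lit 2) (nat_lit 0) (.cons (.ev (nat_lit 1213648186378978091663361) (nat_lit 1)) (.cons (.rf (nat_lit 928) (nat_lit 14303893635)) .nil))) (.cons (.br (nat_lit 2) (nat_lit 0) (.cons (.ev (nat_lit 1213648186378978091663361) (nat_lit 1)) (.cons (.rf (nat_lit 928) (nat_lit 14303893635)) .nil))) (.cons (.rf (nat_lit 928) (nat_lit 14303893635)) .nil)))) (.cons (.rf (nat_lit 928) (nat_lit 14303893635)) .nil)))),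
 (.br (nat_lit 11) (nat_lit 0) (.cons (.rf (nat_lit 1570) (nat_lit 14242959524133701664)) (.cons (.br (nat_lit 1) (nat_lit 0) (.cons (.kr (nat_lit 2417851639229258366189568) (nat_lit 79228167236631101938165874688) (nat_lit 3) (nat_lit 0)) (.cons (.br (nat_lit 7) (nat_lit 0) (.cons (.ev (nat_lit 309485028340147840295633153) (nat_lit 1)) (.cons (.rf (nat_lit 928) (nat_lit 14303893635)) .nil))) (.cons (.rf (nat_lit 928) (nat_lit 14303893635)) .nil)))) (.cons (.rf (nat_lit 928) (nat_lit 14303893635)) .nil)))),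
 (.br (nat_lit 11) (nat_lit 0) (.cons (.rf (nat_lit 1570) (nat_lit 14242959524133701664)) (.cons (.rf (nat_lit 1571) (nat_lit 14242959524133701664)) (.cons (.br (nat_lit 11) (nat_lit 0) (.cons (.rf (nat_lit 1570) (nat_lit 14242959524133701664)) (.cons (.rf (nat_lit 1571) (nat_lit 14242959524133701664)) (.cons (.rf (nat_lit 928) (nat_lit 14303893635)) .nil)))) (.cons (.rf (nat_lit 928) (nat_lit 14303893635)) .nil))))),
 (.br (nat_lit 11) (nat_lit 0) (.cons (.rf (nat_lit 1570) (nat_lit 14242959524133701664)) (.cons (.rf (nat_lit 1361) (nat_lit 14242959524133700672)) (.cons (.rf (nat_lit 928) (nat_lit 14303893635)) .nil)))),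
 (.br (nat_lit 11) (nat_lit 0) (.cons (.rf (nat_lit 1570) (nat_lit 14242959524133701664)) (.cons (.rf (nat_lit 1573) (nat_lit 14242959524133701664)) (.cons (.br (nat_lit 11) (nat_lit 0) (.cons (.rf (nat_lit 1570) (nat_lit 14242959524133701664)) (.cons (.rf (nat_lit 1361) (nat_lit 14242959524133700672)) (.cons (.rf (nat_lit 928) (nat_lit 14303893635)) .nil)))) (.cons (.rf (nat_lit 928) (nat_lit 14303893635)) .nil))))),
 (.br (nat_lit 11) (nat_lit 0) (.cons (.rf (nat_lit 1572) (nat_lit 14242959524133701664)) (.cons (.rf (nat_lit 1574) (nat_lit 14242959524133701664)) (.cons (.br (nat_lit 11) (nat_lit 0) (.cons (.rf (nat_lit 1572) (nat_lit 14242959524133701664)) (.cons (.rf (nat_lit 1361) (nat_lit 14242959524133700672)) (.cons (.rf (nat_lit 928) (nat_lit 14303893635)) .nil)))) (.cons (.rf (nat_lit 928) (nat_lit 14303893635)) .nil))))),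
 (.br (nat_lit 11) (nat_lit 0) (.cons (.rf (nat_lit 1569) (nat_lit 13124971631095252032)) (.cons (.br (nat_lit 1) (nat_lit 0) (.cons (.kr (nat_lit 1208925819614629191483392) (nat_lit 18446744078004518912) (nat_lit 3) (nat_lit 0)) (.cons (.rf (nat_lit 928) (nat_lit 14303893635)) .nil))) (.cons (.rf (nat_lit 928) (nat_lit 14303893635)) .nil)))),
 (.br (nat_lit 2) (nat_lit 0) (.cons (.ev (nat_lit 79228162532711081667253567489) (nat_lit 1)) (.cons (.br (nat_lit 7) (nat_lit 0) (.cons (.kr (nat_lit 1208944266358707179225088) (nat_lit 79228167236631101938165874688) (nat_lit 4) (nat_lit 0)) (.cons (.rf (nat_lit 928) (nat_lit 14303893635)) .nil))) (.cons (.rf (nat_lit 928) (nat_lit 14303893635)) .nil)))),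
 (.br (nat_lit 7) (nat_lit 0) (.cons (.rf (nat_lit 1513) (nat_lit 14096625346578351456)) (.cons (.br (nat_lit 2) (nat_lit 0) (.cons (.kr (nat_lit 1208944266358707179225088) (nat_lit 79228167236631101938165874688) (nat_lit 4) (nat_lit 0)) (.cons (.rf (nat_lit 928) (nat_lit 14303893635)) .nil))) (.cons (.rf (nat_lit 928) (nat_lit 14303893635)) .nil)))),
 (.br (nat_lit 6) (nat_lit 1) (.cons (.rf (nat_lit 1367) (nat_lit 14241659903536203808)) (.cons (.br (nat_lit 11) (nat_lit 0) (.cons (.rf (nat_lit 1569) (nat_lit 13124971631095252032)) (.cons (.rf (nat_lit 1576) (nat_lit 14242959524133701664)) (.cons (.br (nat_lit 11) (nat_lit 0) (.cons (.rf (nat_lit 1569) (nat_lit 13124971631095252032)) (.cons (.rf (nat_lit 1576) (nat_lit 14242959524133701664)) (.cons (.rf (nat_lit 928) (nat_lit 14303893635)) .nil)))) (.cons (.rf (nat_lit 928) (nat_lit 14303893635)) .nil))))) (.cons (.br (nat_lit 7) (nat_lit 0) (.cons (.rf (nat_lit 1577) (nat_lit 14242959524133701664)) (.cons (.rf (nat_lit 1578)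 (nat_lit 14242959524133701664)) (.cons (.br (nat_lit 7) (nat_lit 0) (.cons (.rf (nat_lit 1577) (nat_lit 14242959524133701664)) (.cons (.rf (nat_lit 1578) (nat_lit 14242959524133701664)) (.cons (.rf (nat_lit 928) (nat_lit 14303893635)) .nil)))) (.cons (.rf (nat_lit 928) (nat_lit 14303893635)) .nil))))) .nil)))),
 (.br (nat_lit 11) (nat_lit 0) (.cons (.rf (nat_lit 1513) (nat_lit 13916481533282223456)) (.cons (.br (nat_lit 7) (nat_lit 0) (.cons (.rf (nat_lit 928) (nat_lit 14303893635)) .nil)) (.cons (.rf (nat_lit 928) (nat_lit 14303893635)) .nil)))),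
 (.br (nat_lit 2) (nat_lit 0) (.cons (.rf (nat_lit 1579) (nat_lit 14242959524133701664)) (.cons (.br (nat_lit 7) (nat_lit 0) (.cons (.rf (nat_lit 1580) (nat_lit 14242959524133701664)) (.cons (.br (nat_lit 7) (nat_lit 0) (.cons (.rf (nat_lit 1580) (nat_lit 14242959524133701664)) (.cons (.rf (nat_lit 928) (nat_lit 14303893635)) .nil))) (.cons (.rf (nat_lit 928) (nat_lit 14303893635)) .nil)))) (.cons (.br (nat_lit 7) (nat_lit 0) (.cons (.br (nat_lit 7) (nat_lit 0) (.cons (.ev (nat_lit 79229371440156009821068328961) (nat_lit 1)) (.cons (.rf (nat_lit 928) (nat_lit 14303893635)) .nil))) (.cons (.br (nat_lit 7) (nat_lit 0) (.cons (.ev (nat_lit 79229371440156009821068328961) (nat_lit 1)) (.cons (.rf (nat_lit 928) (nat_lit 14303893635)) .nil))) (.cons (.rf (nat_lit 928) (nat_lit 14303893635)) .nil)))) (.cons (.rf (nat_lit 928) (nat_lit 14303893635)) .nil))))),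
 (.br (nat_lit 11) (nat_lit 0) (.cons (.rf (nat_lit 1578) (nat_lit 14242959352335014944)) (.cons (.br (nat_lit 7) (nat_lit 0) (.cons (.rf (nat_lit 928) (nat_lit 14303893635)) .nil)) (.cons (.rf (nat_lit 928) (nat_lit 14303893635)) .nil)))),
 (.br (nat_lit 2) (nat_lit 0) (.cons (.rf (nat_lit 1579) (nat_lit 14242959524133701664)) (.cons (.rf (nat_lit 1581) (nat_lit 14242959524133701664)) (.cons (.br (nat_lit 7) (nat_lit 0) (.cons (.rf (nat_lit 1582) (nat_lit 14242959524133701664)) (.cons (.br (nat_lit 7) (nat_lit 0) (.cons (.rf (nat_lit 1582) (nat_lit 14242959524133701664)) (.cons (.rf (nat_lit 928) (nat_lit 14303893635)) .nil))) (.cons (.rf (nat_lit 928) (nat_lit 14303893635)) .nil)))) (.cons (.rf (nat_lit 928) (nat_lit 14303893635)) .nil)))))]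

theorem c52 : chkAll C T R L52 (nat_lit 1554) = true := by decide +kernel

theorem l52 : (nat_lit 1554) + L52.length = (nat_lit 1584) := by decide +kernel

/-- part of the certificates -/
def L53 : List Prf := [(.br (nat_lit 4) (nat_lit 1) (.cons (.rf (nat_lit 1569) (nat_lit 14240740706452899872)) (.cons (.rf (nat_lit 1569) (nat_lit 14240740706452898880)) (.cons (.br (nat_lit 11) (nat_lit 0) (.cons (.rf (nat_lit 1572) (nat_lit 14242959524133701664)) (.cons (.rf (nat_lit 1574) (nat_lit 14242959524133701664)) (.cons (.rf (nat_lit 1575) (nat_lit 14242959524133701664)) (.cons (.br (nat_lit 11) (nat_lit 0) (.cons (.rf (nat_lit 1572) (nat_lit 14242959524133701664)) (.cons (.rf (nat_lit 1574) (nat_lit 14242959524133701664)) (.cons (.rf (nat_lit 1575) (nat_lit 14242959524133701664)) (.cons (.rf (nat_lit 928) (nat_lit 14303893635)) .nil))))) (.cons (.rf (nat_lit 928) (nat_lit 14303893635)) .nil)))))) (.cons (.br (nat_lit 2) (nat_lit 0) (.cons (.rf (nat_lit 1579) (nat_lit 14242959524133701664))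 (.cons (.rf (nat_lit 1581) (nat_lit 14242959524133701664)) (.cons (.rf (nat_lit 1583) (nat_lit 14242959524133701664)) (.cons (.br (nat_lit 2) (nat_lit 0) (.cons (.rf (nat_lit 1579) (nat_lit 14242959524133701664)) (.cons (.rf (nat_lit 1581) (nat_lit 14242959524133701664)) (.cons (.rf (nat_lit 1583) (nat_lit 14242959524133701664)) (.cons (.rf (nat_lit 928) (nat_lit 14303893635)) .nil))))) (.cons (.rf (nat_lit 928) (nat_lit 14303893635)) .nil)))))) .nil))))),
 (.br (nat_lit 7) (nat_lit 0) (.cons (.rf (nat_lit 1404) (nat_lit 13126032729539971104)) (.cons (.br (nat_lit 1) (nat_lit 0) (.cons (.ev (nat_lit 310693935713018391449043201) (nat_lit 1)) (.cons (.rf (nat_lit 928) (nat_lit 14303893635)) .nil))) (.cons (.rf (nat_lit 928) (nat_lit 14303893635)) .nil)))),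
 (.br (nat_lit 11) (nat_lit 0) (.cons (.br (nat_lit 7) (nat_lit 0) (.cons (.rf (nat_lit 1585) (nat_lit 14242959524133701664)) (.cons (.br (nat_lit 7) (nat_lit 0) (.cons (.rf (nat_lit 1404) (nat_lit 13126032729539971104)) (.cons (.rf (nat_lit 1015) (nat_lit 14025691453288815968)) (.cons (.rf (nat_lit 928) (nat_lit 14303893635)) .nil)))) (.cons (.br (nat_lit 7) (nat_lit 0) (.cons (.rf (nat_lit 1585) (nat_lit 14242959524133701664)) (.cons (.rf (nat_lit 1015) (nat_lit 14025691453288815968)) (.cons (.rf (nat_lit 928) (nat_lit 14303893635)) .nil)))) (.cons (.rf (nat_lit 928) (nat_lit 14303893635)) .nil))))) (.cons (.br (nat_lit 1) (nat_lit 0) (.cons (.kr (nat_lit 1208925819614629191483392) (nat_lit 18446744078004518912) (nat_lit 3) (nat_lit 0)) (.cons (.br (nat_lit 7) (nat_lit 0) (.cons (.br (nat_lit 7) (nat_lit 0) (.cons (.ev (nat_lit 79538861172344120329631695105) (nat_lit 1)) (.cons (.rf (nat_lit 928) (nat_lit 14303893635)) .nil))) (.cons (.br (nat_lit 7) (nat_lit 0) (.cons (.ev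 (nat_lit 79538861172344120329631695105) (nat_lit 1)) (.cons (.rf (nat_lit 928) (nat_lit 14303893635)) .nil))) (.cons (.rf (nat_lit 928) (nat_lit 14303893635)) .nil)))) (.cons (.br (nat_lit 2) (nat_lit 0) (.cons (.br (nat_lit 2) (nat_lit 0) (.cons (.ev (nat_lit 309485028268090246257770753) (nat_lit 1)) (.cons (.rf (nat_lit 928) (nat_lit 14303893635)) .nil))) (.cons (.br (nat_lit 2) (nat_lit 0) (.cons (.ev (nat_lit 309485028268090246257770753) (nat_lit 1)) (.cons (.rf (nat_lit 928) (nat_lit 14303893635)) .nil))) (.cons (.rf (nat_lit 928) (nat_lit 14303893635)) .nil)))) (.cons (.rf (nat_lit 928) (nat_lit 14303893635)) .nil))))) (.cons (.rf (nat_lit 928) (nat_lit 14303893635)) .nil)))),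
 (.br (nat_lit 11) (nat_lit 0) (.cons (.rf (nat_lit 1586) (nat_lit 14242959524133701664)) (.cons (.br (nat_lit 1) (nat_lit 0) (.cons (.kr (nat_lit 1208925819614629191483392) (nat_lit 18446744078004518912) (nat_lit 3) (nat_lit 0)) (.cons (.br (nat_lit 2) (nat_lit 0) (.cons (.br (nat_lit 2) (nat_lit 0) (.cons (.ev (nat_lit 309485028268090246257770753) (nat_lit 1)) (.cons (.rf (nat_lit 928) (nat_lit 14303893635)) .nil))) (.cons (.rf (nat_lit 1367) (nat_lit 14241659903536203808)) (.cons (.rf (nat_lit 928) (nat_lit 14303893635)) .nil)))) (.cons (.rf (nat_lit 928) (nat_lit 14303893635)) .nil)))) (.cons (.rf (nat_lit 928) (nat_lit 14303893635)) .nil)))),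
 (.br (nat_lit 11) (nat_lit 0) (.cons (.rf (nat_lit 1586) (nat_lit 14242959524133701664)) (.cons (.rf (nat_lit 1587) (nat_lit 14242959524133701664)) (.cons (.br (nat_lit 11) (nat_lit 0) (.cons (.rf (nat_lit 1586) (nat_lit 14242959524133701664)) (.cons (.rf (nat_lit 1587) (nat_lit 14242959524133701664)) (.cons (.rf (nat_lit 928) (nat_lit 14303893635)) .nil)))) (.cons (.rf (nat_lit 928) (nat_lit 14303893635)) .nil))))),
 (.br (nat_lit 11) (nat_lit 0) (.cons (.rf (nat_lit 1588) (nat_lit 14242959524133701664)) (.cons (.br (nat_lit 1) (nat_lit 0) (.cons (.br (nat_lit 4) (nat_lit 1) (.cons (.rf (nat_lit 1367) (nat_lit 14240604373447215136)) (.cons (.rf (nat_lit 1569) (nat_lit 13123847930212648992)) .nil))) (.cons (.kr (nat_lit 2417851639229258366189568) (nat_lit 79228167236631101938165874688) (nat_lit 3) (nat_lit 0)) (.cons (.rf (nat_lit 928) (nat_lit 14303893635)) .nil)))) (.cons (.rf (nat_lit 928) (nat_lit 14303893635)) .nil)))),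
 (.br (nat_lit 11) (nat_lit 0) (.cons (.rf (nat_lit 1588) (nat_lit 14242959524133701664)) (.cons (.rf (nat_lit 1589) (nat_lit 14242959524133701664)) (.cons (.br (nat_lit 11) (nat_lit 0) (.cons (.rf (nat_lit 1588) (nat_lit 14242959524133701664)) (.cons (.rf (nat_lit 1589) (nat_lit 14242959524133701664)) (.cons (.rf (nat_lit 928) (nat_lit 14303893635)) .nil)))) (.cons (.rf (nat_lit 928) (nat_lit 14303893635)) .nil))))),
 (.br (nat_lit 11) (nat_lit 0) (.cons (.rf (nat_lit 1588) (nat_lit 14242959524133701664)) (.cons (.rf (nat_lit 1590) (nat_lit 14242959524133701664)) (.cons (.br (nat_lit 11) (nat_lit 0) (.cons (.rf (nat_lit 1588) (nat_lit 14242959524133701664)) (.cons (.rf (nat_lit 1590) (nat_lit 14242959524133701664)) (.cons (.rf (nat_lit 928) (nat_lit 14303893635)) .nil)))) (.cons (.rf (nat_lit 928) (nat_lit 14303893635)) .nil))))),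
 (.br (nat_lit 11) (nat_lit 0) (.cons (.rf (nat_lit 1588) (nat_lit 14242959524133701664)) (.cons (.rf (nat_lit 1590) (nat_lit 14242959524133701664)) (.cons (.rf (nat_lit 1591) (nat_lit 14242959524133701664)) (.cons (.br (nat_lit 11) (nat_lit 0) (.cons (.rf (nat_lit 1588) (nat_lit 14242959524133701664)) (.cons (.rf (nat_lit 1590) (nat_lit 14242959524133701664)) (.cons (.rf (nat_lit 1591) (nat_lit 14242959524133701664)) (.cons (.rf (nat_lit 928) (nat_lit 14303893635)) .nil))))) (.cons (.rf (nat_lit 928) (nat_lit 14303893635)) .nil)))))),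
 (.br (nat_lit 12) (nat_lit 0) (.cons (.rf (nat_lit 1569) (nat_lit 14242959524133701664)) (.cons (.rf (nat_lit 1569) (nat_lit 14242925437127854112)) (.cons (.br (nat_lit 5) (nat_lit 0) (.cons (.rf (nat_lit 1584) (nat_lit 14242959524133701664)) (.cons (.rf (nat_lit 1584) (nat_lit 14242925437127854112)) (.cons (.rf (nat_lit 1592) (nat_lit 14242959524133701664)) (.cons (.rf (nat_lit 1592) (nat_lit 14242925437127854112)) (.cons (.kr (nat_lit 1208925819614629174706176) (nat_lit 79228162514264337593543950336) (nat_lit 10) (nat_lit 0)) (.cons (.rf (nat_lit 928) (nat_lit 14303893635)) .nil))))))) (.cons (.rf (nat_lit 928) (nat_lit 14303893635)) .nil))))),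
 (.br (nat_lit 12) (nat_lit 0) (.cons (.rf (nat_lit 1569) (nat_lit 14242959524133701664)) (.cons (.rf (nat_lit 1569) (nat_lit 14242925437127854112)) (.cons (.rf (nat_lit 1593) (nat_lit 14242959524133701664)) (.cons (.br (nat_lit 12) (nat_lit 0) (.cons (.rf (nat_lit 1569) (nat_lit 14242959524133701664)) (.cons (.rf (nat_lit 1569) (nat_lit 14242925437127854112)) (.cons (.rf (nat_lit 1593) (nat_lit 14242959524133701664)) (.cons (.rf (nat_lit 928) (nat_lit 14303893635)) .nil))))) (.cons (.rf (nat_lit 928) (nat_lit 14303893635)) .nil)))))),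
 (.br (nat_lit 12) (nat_lit 0) (.cons (.rf (nat_lit 1569) (nat_lit 14242959524133701664)) (.cons (.rf (nat_lit 1569) (nat_lit 14242925437127854112)) (.cons (.rf (nat_lit 1594) (nat_lit 14242959524133701664)) (.cons (.rf (nat_lit 1594) (nat_lit 14242925437127854112)) (.cons (.br (nat_lit 12) (nat_lit 0) (.cons (.rf (nat_lit 1569) (nat_lit 14242959524133701664)) (.cons (.rf (nat_lit 1569) (nat_lit 14242925437127854112)) (.cons (.rf (nat_lit 1594) (nat_lit 14242959524133701664)) (.cons (.rf (nat_lit 1594) (nat_lit 14242925437127854112)) (.cons (.rf (nat_lit 928) (nat_lit 14303893635)) .nil)))))) (.cons (.rf (nat_lit 928) (nat_lit 14303893635)) .nil))))))),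
 (.br (nat_lit 1) (nat_lit 0) (.cons (.rf (nat_lit 1367) (nat_lit 14241659903536203808)) (.cons (.rf (nat_lit 1595) (nat_lit 13119101346028718112)) (.cons (.rf (nat_lit 1595) (nat_lit 14238244822568962080)) (.cons (.rf (nat_lit 1367) (nat_lit 14234968276848674848)) (.cons (.rf (nat_lit 928) (nat_lit 14303893635)) .nil)))))),
 (.br (nat_lit 2) (nat_lit 0) (.cons (.rf (nat_lit 1595) (nat_lit 13119101346028717120)) (.cons (.rf (nat_lit 1595) (nat_lit 14238244822568961088)) (.cons (.rf (nat_lit 1596) (nat_lit 14242959524133701664)) (.cons (.rf (nat_lit 928) (nat_lit 14303893635)) .nil))))),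
 (.br (nat_lit 5) (nat_lit 0) (.cons (.rf (nat_lit 1597) (nat_lit 14242959524133701664)) (.cons (.br (nat_lit 5) (nat_lit 0) (.cons (.rf (nat_lit 1597) (nat_lit 14242959524133701664)) (.cons (.rf (nat_lit 928) (nat_lit 14303893635)) .nil))) (.cons (.rf (nat_lit 928) (nat_lit 14303893635)) .nil)))),
 (.br (nat_lit 7) (nat_lit 0) (.cons (.rf (nat_lit 1598) (nat_lit 14242959524133701664)) (.cons (.br (nat_lit 1) (nat_lit 0) (.cons (.br (nat_lit 2) (nat_lit 0) (.cons (.ev (nat_lit 79228167255077846016187171073) (nat_lit 1)) (.cons (.rf (nat_lit 1595) (nat_lit 13118075500608422976)) (.cons (.rf (nat_lit 928) (nat_lit 14303893635)) .nil)))) (.cons (.rf (nat_lit 1595) (nat_lit 13121352046328711200)) (.cons (.rf (nat_lit 1595) (nat_lit 13118075500608423968)) (.cons (.rf (nat_lit 928) (nat_lit 14303893635)) .nil))))) (.cons (.rf (nat_lit 928) (nat_lit 14303893635)) .nil)))),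
 (.br (nat_lit 7) (nat_lit 0) (.cons (.rf (nat_lit 1598) (nat_lit 14242959524133701664)) (.cons (.rf (nat_lit 1599) (nat_lit 14242959524133701664)) (.cons (.br (nat_lit 7) (nat_lit 0) (.cons (.rf (nat_lit 1598) (nat_lit 14242959524133701664)) (.cons (.rf (nat_lit 1599) (nat_lit 14242959524133701664)) (.cons (.rf (nat_lit 928) (nat_lit 14303893635)) .nil)))) (.cons (.rf (nat_lit 928) (nat_lit 14303893635)) .nil))))),
 (.br (nat_lit 6) (nat_lit 0) (.cons (.kr (nat_lit 4294967296) (nat_lit 1208925819614629174706176) (nat_lit 4) (nat_lit 0)) (.cons (.kr (nat_lit 18446745173221179392) (nat_lit 1208925891672223212634112) (nat_lit 5) (nat_lit 0)) (.cons (.br (nat_lit 6) (nat_lit 0) (.cons (.kr (nat_lit 4294967296) (nat_lit 1208925819614629174706176) (nat_lit 4) (nat_lit 0)) (.cons (.kr (nat_lit 18446745173221179392) (nat_lit 1208925891672223212634112) (nat_lit 5) (nat_lit 0)) (.cons (.rf (nat_lit 928) (nat_lit 13195515011)) .nil)))) (.cons (.rf (nat_lit 928) (nat_lit 13195515011))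 .nil))))),
 (.br (nat_lit 2) (nat_lit 0) (.cons (.rf (nat_lit 1600) (nat_lit 14242959524133701664)) (.cons (.br (nat_lit 9) (nat_lit 1) (.cons (.rf (nat_lit 1367) (nat_lit 14238244822568962080)) (.cons (.rf (nat_lit 1595) (nat_lit 14238244822568961088)) (.cons (.rf (nat_lit 1595) (nat_lit 13121352046328710208)) (.cons (.rf (nat_lit 1601) (nat_lit 445092485128095776)) .nil))))) (.cons (.br (nat_lit 10) (nat_lit 1) (.cons (.rf (nat_lit 1367) (nat_lit 14234968276848674848)) (.cons (.rf (nat_lit 1595) (nat_lit 14234968276848673856)) (.cons (.rf (nat_lit 1595) (nat_lit 13118075500608422976)) (.cons (.br (nat_lit 5) (nat_lit 0) (.cons (.br (nat_lit 7) (nat_lit 0) (.cons (.br (nat_lit 1) (nat_lit 0) (.cons (.ev (nat_lit 79228167236630820467500974081) (nat_lit 1)) (.cons (.rf (nat_lit 928) (nat_lit 14303893635)) .nil))) (.cons (.rf (nat_lit 928) (nat_lit 14303893635)) .nil))) (.cons (.br (nat_lit 9) (nat_lit 1) (.cons (.ev (nat_lit 310698676454186645565997313) (nat_lit 1)) (.cons (.rf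 (nat_lit 1395) (nat_lit 13121522326755903648)) .nil))) (.cons (.rf (nat_lit 928) (nat_lit 14303893635)) .nil)))) .nil))))) (.cons (.rf (nat_lit 928) (nat_lit 14303893635)) .nil))))),
 (.br (nat_lit 9) (nat_lit 1) (.cons (.rf (nat_lit 1367) (nat_lit 14238244822568962080)) (.cons (.rf (nat_lit 1595) (nat_lit 14238244822568961088)) (.cons (.rf (nat_lit 1595) (nat_lit 13121352046328710208)) (.cons (.br (nat_lit 2) (nat_lit 0) (.cons (.rf (nat_lit 1600) (nat_lit 14242959524133701664)) (.cons (.rf (nat_lit 1601) (nat_lit 445092485128095776)) (.cons (.br (nat_lit 10) (nat_lit 1) (.cons (.rf (nat_lit 1367) (nat_lit 14234968276848674848)) (.cons (.rf (nat_lit 1595) (nat_lit 14234968276848673856)) (.cons (.rf (nat_lit 1595) (nat_lit 13118075500608422976)) .nil)))) (.cons (.rf (nat_lit 928) (nat_lit 14303893635)) .nil))))) .nil))))),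
 (.br (nat_lit 2) (nat_lit 0) (.cons (.rf (nat_lit 1600) (nat_lit 14242959524133701664)) (.cons (.rf (nat_lit 1602) (nat_lit 14242959524133701664)) (.cons (.rf (nat_lit 1603) (nat_lit 14242959524133701664)) (.cons (.br (nat_lit 2) (nat_lit 0) (.cons (.rf (nat_lit 1600) (nat_lit 14242959524133701664)) (.cons (.rf (nat_lit 1602) (nat_lit 14242959524133701664)) (.cons (.rf (nat_lit 1603) (nat_lit 14242959524133701664)) (.cons (.rf (nat_lit 928) (nat_lit 14303893635)) .nil))))) (.cons (.rf (nat_lit 928) (nat_lit 14303893635)) .nil)))))),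
 (.br (nat_lit 10) (nat_lit 1) (.cons (.rf (nat_lit 1367) (nat_lit 14234968276848674848)) (.cons (.rf (nat_lit 1595) (nat_lit 14234968276848673856)) (.cons (.rf (nat_lit 1595) (nat_lit 13118075500608422976)) .nil)))),
 (.br (nat_lit 2) (nat_lit 0) (.cons (.rf (nat_lit 1595) (nat_lit 14238244822568961088)) (.cons (.rf (nat_lit 1605) (nat_lit 14242959524133701664)) (.cons (.rf (nat_lit 928) (nat_lit 14303893635)) .nil)))),
 (.br (nat_lit 10) (nat_lit 1) (.cons (.rf (nat_lit 1367) (nat_lit 14234968276848674848)) (.cons (.rf (nat_lit 1595) (nat_lit 14234968276848674848)) (.cons (.rf (nat_lit 1595) (nat_lit 13118075500608423968)) .nil)))),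
 (.br (nat_lit 5) (nat_lit 0) (.cons (.br (nat_lit 7) (nat_lit 0) (.cons (.rf (nat_lit 1597) (nat_lit 14242925437127854112)) (.cons (.rf (nat_lit 928) (nat_lit 14303893635)) .nil))) (.cons (.ev (nat_lit 79537652246452448110714028033) (nat_lit 1)) (.cons (.rf (nat_lit 928) (nat_lit 14303893635)) .nil)))),
 (.br (nat_lit 2) (nat_lit 0) (.cons (.rf (nat_lit 1608) (nat_lit 14242959524133701664)) (.cons (.br (nat_lit 7) (nat_lit 0) (.cons (.rf (nat_lit 1103) (nat_lit 13118075397462099168)) (.cons (.rf (nat_lit 928) (nat_lit 14303893635)) .nil))) (.cons (.rf (nat_lit 928) (nat_lit 14303893635)) .nil)))),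
 (.br (nat_lit 10) (nat_lit 1) (.cons (.rf (nat_lit 1595) (nat_lit 14234968276848674848)) (.cons (.rf (nat_lit 1595) (nat_lit 14234968276848673856)) (.cons (.br (nat_lit 2) (nat_lit 0) (.cons (.rf (nat_lit 1608) (nat_lit 14242959524133701664)) (.cons (.rf (nat_lit 1609) (nat_lit 14242959524133701664)) (.cons (.br (nat_lit 2) (nat_lit 0) (.cons (.rf (nat_lit 1608) (nat_lit 14242959524133701664)) (.cons (.rf (nat_lit 1609) (nat_lit 14242959524133701664)) (.cons (.rf (nat_lit 928) (nat_lit 14303893635)) .nil)))) (.cons (.rf (nat_lit 928) (nat_lit 14303893635)) .nil))))) .nil)))),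
 (.br (nat_lit 9) (nat_lit 1) (.cons (.rf (nat_lit 1367) (nat_lit 14238244822568962080)) (.cons (.rf (nat_lit 1595) (nat_lit 14238244822568962080)) (.cons (.rf (nat_lit 1595) (nat_lit 13121352046328711200)) .nil)))),
 (.br (nat_lit 5) (nat_lit 0) (.cons (.rf (nat_lit 1597) (nat_lit 14242925437127854112)) (.cons (.br (nat_lit 1) (nat_lit 0) (.cons (.ev (nat_lit 79229376162450716567340581121) (nat_lit 1)) (.cons (.rf (nat_lit 928) (nat_lit 14303893635)) .nil))) (.cons (.rf (nat_lit 928) (nat_lit 14303893635)) .nil)))),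
 (.br (nat_lit 2) (nat_lit 0) (.cons (.rf (nat_lit 1612) (nat_lit 14242959524133701664)) (.cons (.br (nat_lit 1) (nat_lit 0) (.cons (.kr (nat_lit 9463180272762970177536) (nat_lit 159076503973990979958007136256) (nat_lit 3) (nat_lit 0)) (.cons (.rf (nat_lit 928) (nat_lit 14303893635)) .nil))) (.cons (.rf (nat_lit 928) (nat_lit 14303893635)) .nil)))),
 (.br (nat_lit 9) (nat_lit 1) (.cons (.rf (nat_lit 1595) (nat_lit 14238244822568962080)) (.cons (.rf (nat_lit 1595) (nat_lit 14238244822568961088)) (.cons (.br (nat_lit 2) (nat_lit 0) (.cons (.rf (nat_lit 1612) (nat_lit 14242959524133701664)) (.cons (.rf (nat_lit 1613) (nat_lit 14242959524133701664)) (.cons (.br (nat_lit 2) (nat_lit 0) (.cons (.rf (nat_lit 1612) (nat_lit 14242959524133701664)) (.cons (.rf (nat_lit 1613) (nat_lit 14242959524133701664)) (.cons (.rf (nat_lit 928) (nat_lit 14303893635)) .nil)))) (.cons (.rf (nat_lit 928) (nat_lit 14303893635)) .nil))))) .nil))))]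

theorem c53 : chkAll C T R L53 (nat_lit 1584) = true := by decide +kernel

theorem l53 : (nat_lit 1584) + L53.length = (nat_lit 1615) := by decide +kernel

/-- part of the certificates -/
def L54 : List Prf := [(.br (nat_lit 11) (nat_lit 0) (.cons (.rf (nat_lit 1604) (nat_lit 14242959524133701664)) (.cons (.br (nat_lit 2) (nat_lit 0) (.cons (.br (nat_lit 5) (nat_lit 0) (.cons (.rf (nat_lit 1606) (nat_lit 14242959524133701664)) (.cons (.br (nat_lit 5) (nat_lit 0) (.cons (.rf (nat_lit 1606) (nat_lit 14242959524133701664)) (.cons (.rf (nat_lit 928) (nat_lit 14303893635)) .nil))) (.cons (.rf (nat_lit 928) (nat_lit 14303893635)) .nil)))) (.cons (.br (nat_lit 9) (nat_lit 1) (.cons (.rf (nat_lit 1367) (nat_lit 14238244822568962080)) (.cons (.rf (nat_lit 1595) (nat_lit 14238244822568961088)) (.cons (.rf (nat_lit 1595) (nat_lit 13121352046328710208)) .nil)))) (.cons (.rf (nat_lit 1605) (nat_lit 14242959524133701664)) (.cons (.rf (nat_lit 928) (nat_lit 14303893635)) .nil))))) (.cons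 (.br (nat_lit 10) (nat_lit 1) (.cons (.rf (nat_lit 1607) (nat_lit 14242959524133701664)) (.cons (.rf (nat_lit 1607) (nat_lit 14242959524133700672)) (.cons (.rf (nat_lit 1610) (nat_lit 14242959524133701664)) (.cons (.br (nat_lit 10) (nat_lit 1) (.cons (.rf (nat_lit 1595) (nat_lit 13118075500608423968)) (.cons (.rf (nat_lit 1595) (nat_lit 13118075500608422976)) (.cons (.rf (nat_lit 1610) (nat_lit 14242959524133701664)) .nil)))) .nil))))) (.cons (.br (nat_lit 9) (nat_lit 1) (.cons (.rf (nat_lit 1611) (nat_lit 14242959524133701664)) (.cons (.rf (nat_lit 1611) (nat_lit 14242959524133700672)) (.cons (.rf (nat_lit 1614) (nat_lit 14242959524133701664)) (.cons (.br (nat_lit 9) (nat_lit 1) (.cons (.rf (nat_lit 1595) (nat_lit 13121352046328711200)) (.cons (.rf (nat_lit 1595) (nat_lit 13121352046328710208)) (.cons (.rf (nat_lit 1614) (nat_lit 14242959524133701664)) .nil)))) .nil))))) (.cons (.rf (nat_lit 928) (nat_lit 14303893635)) .nil)))))),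
 (.br (nat_lit 10) (nat_lit 1) (.cons (.rf (nat_lit 1275) (nat_lit 13118075569126577216)) (.cons (.rf (nat_lit 1275) (nat_lit 13118075397327885536)) .nil))),
 (.br (nat_lit 7) (nat_lit 0) (.cons (.br (nat_lit 2) (nat_lit 0) (.cons (.rf (nat_lit 1596) (nat_lit 13118075500608422976)) (.cons (.rf (nat_lit 928) (nat_lit 14303893635)) .nil))) (.cons (.br (nat_lit 2) (nat_lit 0) (.cons (.rf (nat_lit 1596) (nat_lit 13124971631095252032)) (.cons (.rf (nat_lit 1595) (nat_lit 13118075500608422976)) (.cons (.rf (nat_lit 928) (nat_lit 14303893635)) .nil)))) (.cons (.rf (nat_lit 928) (nat_lit 14303893635)) .nil)))),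
 (.br (nat_lit 10) (nat_lit 1) (.cons (.rf (nat_lit 1434) (nat_lit 14234968276848673856)) (.cons (.rf (nat_lit 1434) (nat_lit 14234968105049982176)) .nil))),
 (.br (nat_lit 2) (nat_lit 0) (.cons (.rf (nat_lit 1615) (nat_lit 13124767127295951936)) (.cons (.rf (nat_lit 1607) (nat_lit 13124767127295951936)) (.cons (.br (nat_lit 1) (nat_lit 0) (.cons (.rf (nat_lit 1615) (nat_lit 13124767127295952928)) (.cons (.rf (nat_lit 1607) (nat_lit 13124767127295952928)) (.cons (.rf (nat_lit 928) (nat_lit 14303893635)) .nil)))) (.cons (.rf (nat_lit 928) (nat_lit 14303893635)) .nil))))),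
 (.br (nat_lit 11) (nat_lit 0) (.cons (.rf (nat_lit 1604) (nat_lit 14242959524133701664)) (.cons (.rf (nat_lit 1615) (nat_lit 14242959524133701664)) (.cons (.br (nat_lit 1) (nat_lit 0) (.cons (.ev (nat_lit 79537647524085682666580476161) (nat_lit 1)) (.cons (.br (nat_lit 10) (nat_lit 1) (.cons (.rf (nat_lit 1616) (nat_lit 14242959524033041440)) (.cons (.rf (nat_lit 1616) (nat_lit 14242959524133701664)) (.cons (.rf (nat_lit 1616) (nat_lit 14242959455481333792)) .nil)))) (.cons (.br (nat_lit 5) (nat_lit 0) (.cons (.rf (nat_lit 1617) (nat_lit 14242959524133701664)) (.cons (.br (nat_lit 5) (nat_lit 0) (.cons (.rf (nat_lit 1617) (nat_lit 14242959524133701664)) (.cons (.rf (nat_lit 1618) (nat_lit 14242959524133701664)) (.cons (.rf (nat_lit 928) (nat_lit 14303893635)) .nil)))) (.cons (.rf (nat_lit 1618) (nat_lit 14242959524133701664)) (.cons (.rf (nat_lit 928) (nat_lit 14303893635)) .nil))))) (.cons (.br (nat_lit 10) (nat_lit 1) (.cons (.rf (nat_lit 1367) (nat_lit 14234968276848674848))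 (.cons (.rf (nat_lit 1595) (nat_lit 14234968276848674848)) (.cons (.rf (nat_lit 1595) (nat_lit 13118075500608423968)) .nil)))) (.cons (.rf (nat_lit 928) (nat_lit 14303893635)) .nil)))))) (.cons (.br (nat_lit 2) (nat_lit 0) (.cons (.rf (nat_lit 1619) (nat_lit 14242959524133701664)) (.cons (.rf (nat_lit 1615) (nat_lit 13124767127295951936)) (.cons (.rf (nat_lit 1607) (nat_lit 13124767127295951936)) (.cons (.br (nat_lit 2) (nat_lit 0) (.cons (.rf (nat_lit 1619) (nat_lit 14242959524133701664)) (.cons (.rf (nat_lit 1615) (nat_lit 13124767127295951936)) (.cons (.rf (nat_lit 1607) (nat_lit 13124767127295951936)) (.cons (.rf (nat_lit 928) (nat_lit 14303893635)) .nil))))) (.cons (.rf (nat_lit 928) (nat_lit 14303893635)) .nil)))))) (.cons (.rf (nat_lit 928) (nat_lit 14303893635)) .nil)))))),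
 (.br (nat_lit 5) (nat_lit 0) (.cons (.ev (nat_lit 309489732187827938369995009) (nat_lit 1)) (.cons (.br (nat_lit 2) (nat_lit 0) (.cons (.ev (nat_lit 159076513474064740868430102530) (nat_lit 2)) (.cons (.rf (nat_lit 928) (nat_lit 14303893635)) .nil))) (.cons (.rf (nat_lit 928) (nat_lit 14303893635)) .nil)))),
 (.br (nat_lit 5) (nat_lit 0) (.cons (.rf (nat_lit 1621) (nat_lit 14242959524133701664)) (.cons (.ev (nat_lit 309489732187827938369995009) (nat_lit 1)) (.cons (.br (nat_lit 5) (nat_lit 0) (.cons (.rf (nat_lit 1621) (nat_lit 14242959524133701664)) (.cons (.ev (nat_lit 309489732187827938369995009) (nat_lit 1)) (.cons (.rf (nat_lit 928) (nat_lit 14303893635)) .nil)))) (.cons (.rf (nat_lit 928) (nat_lit 14303893635)) .nil))))),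
 (.br (nat_lit 1) (nat_lit 0) (.cons (.br (nat_lit 5) (nat_lit 0) (.cons (.rf (nat_lit 928) (nat_lit 14303893635)) .nil)) (.cons (.rf (nat_lit 928) (nat_lit 14303893635)) .nil))),
 (.br (nat_lit 7) (nat_lit 0) (.cons (.br (nat_lit 7) (nat_lit 0) (.cons (.kr (nat_lit 4722366764344621924352) (nat_lit 79537647524085682662268731392) (nat_lit 6) (nat_lit 0)) (.cons (.rf (nat_lit 1623) (nat_lit 14242959524133701664)) (.cons (.rf (nat_lit 928) (nat_lit 14303893635)) .nil)))) (.cons (.kr (nat_lit 4722366764344621924352) (nat_lit 79537647524085682662268731392) (nat_lit 6) (nat_lit 0)) (.cons (.br (nat_lit 7) (nat_lit 0) (.cons (.rf (nat_lit 1623) (nat_lit 14242959524133701664)) (.cons (.kr (nat_lit 4722366764344621924352) (nat_lit 79537647524085682662268731392) (nat_lit 6) (nat_lit 0)) (.cons (.rf (nat_lit 928) (nat_lit 14303893635)) .nil)))) (.cons (.rf (nat_lit 928) (nat_lit 14303893635)) .nil))))),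
 (.br (nat_lit 5) (nat_lit 0) (.cons (.kr (nat_lit 4722366764344621924352) (nat_lit 79537647524085682662268731392) (nat_lit 6) (nat_lit 0)) (.cons (.rf (nat_lit 1623) (nat_lit 14242959455481333792)) (.cons (.rf (nat_lit 928) (nat_lit 14303893635)) .nil)))),
 (.br (nat_lit 7) (nat_lit 0) (.cons (.rf (nat_lit 1625) (nat_lit 14242959524133701664)) (.cons (.rf (nat_lit 1624) (nat_lit 13123711597206963264)) (.cons (.br (nat_lit 5) (nat_lit 0) (.cons (.rf (nat_lit 1624) (nat_lit 14242959524133701664)) (.cons (.rf (nat_lit 1625) (nat_lit 13123711597206963264)) (.cons (.rf (nat_lit 928) (nat_lit 14303893635)) .nil)))) (.cons (.rf (nat_lit 928) (nat_lit 14303893635)) .nil))))),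
 (.br (nat_lit 7) (nat_lit 0) (.cons (.kr (nat_lit 4722366764344621924352) (nat_lit 79537647524085682662268731392) (nat_lit 6) (nat_lit 0)) (.cons (.br (nat_lit 7) (nat_lit 0) (.cons (.kr (nat_lit 4722366764344621924352) (nat_lit 79537647524085682662268731392) (nat_lit 6) (nat_lit 0)) (.cons (.rf (nat_lit 1623) (nat_lit 13123711665859331136)) (.cons (.rf (nat_lit 928) (nat_lit 14303893635)) .nil)))) (.cons (.rf (nat_lit 1625) (nat_lit 13123711597206963264)) (.cons (.rf (nat_lit 928) (nat_lit 14303893635)) .nil))))),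
 (.br (nat_lit 7) (nat_lit 0) (.cons (.rf (nat_lit 1623) (nat_lit 14242959352402121760)) (.cons (.rf (nat_lit 1623) (nat_lit 13123711494127748256)) (.cons (.rf (nat_lit 928) (nat_lit 14303893635)) .nil)))),
 (.br (nat_lit 7) (nat_lit 0) (.cons (.br (nat_lit 2) (nat_lit 0) (.cons (.br (nat_lit 1) (nat_lit 0) (.cons (.rf (nat_lit 928) (nat_lit 14303893635)) .nil)) (.cons (.rf (nat_lit 928) (nat_lit 14303893635)) .nil))) (.cons (.br (nat_lit 2) (nat_lit 0) (.cons (.ev (nat_lit 1213648186378978091663361) (nat_lit 1)) (.cons (.rf (nat_lit 928) (nat_lit 14303893635)) .nil))) (.cons (.rf (nat_lit 928) (nat_lit 14303893635)) .nil)))),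
 (.br (nat_lit 2) (nat_lit 0) (.cons (.rf (nat_lit 1629) (nat_lit 14242959524133701664)) (.cons (.br (nat_lit 7) (nat_lit 0) (.cons (.br (nat_lit 7) (nat_lit 0) (.cons (.rf (nat_lit 928) (nat_lit 14303893635)) .nil)) (.cons (.rf (nat_lit 928) (nat_lit 14303893635)) .nil))) (.cons (.rf (nat_lit 928) (nat_lit 14303893635)) .nil)))),
 (.br (nat_lit 1) (nat_lit 0) (.cons (.br (nat_lit 5) (nat_lit 0) (.cons (.ev (nat_lit 79228167255077846016187171073) (nat_lit 1)) (.cons (.ev (nat_lit 310693935640959697899487489) (nat_lit 1)) (.cons (.rf (nat_lit 928) (nat_lit 14303893635)) .nil)))) (.cons (.br (nat_lit 2) (nat_lit 0) (.cons (.br (nat_lit 2) (nat_lit 0) (.cons (.ev (nat_lit 310693954087985246585815041) (nat_lit 1)) (.cons (.rf (nat_lit 928) (nat_lit 14303893635)) .nil))) (.cons (.br (nat_lit 5) (nat_lit 0) (.cons (.rf (nat_lit 1392) (nat_lit 14026786742221244448)) (.cons (.rf (nat_lit 928) (nat_lit 14303893635)) .nil))) (.cons (.rf (nat_lit 928) (nat_lit 14303893635)) .nil)))) (.cons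 (.ev (nat_lit 1208925819896108463161601) (nat_lit 1)) (.cons (.rf (nat_lit 928) (nat_lit 14303893635)) .nil))))),
 (.br (nat_lit 5) (nat_lit 0) (.cons (.rf (nat_lit 1631) (nat_lit 14242959524133701664)) (.cons (.br (nat_lit 7) (nat_lit 0) (.cons (.kr (nat_lit 4722366764344621924352) (nat_lit 79537647524085682662268731392) (nat_lit 6) (nat_lit 0)) (.cons (.br (nat_lit 1) (nat_lit 0) (.cons (.ev (nat_lit 1213666705181745367482625) (nat_lit 1)) (.cons (.rf (nat_lit 928) (nat_lit 14303893635)) .nil))) (.cons (.rf (nat_lit 928) (nat_lit 14303893635)) .nil)))) (.cons (.rf (nat_lit 1628) (nat_lit 14242959352402121760)) (.cons (.rf (nat_lit 928) (nat_lit 14303893635)) .nil))))),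
 (.br (nat_lit 5) (nat_lit 0) (.cons (.rf (nat_lit 1631) (nat_lit 14242959524133701664)) (.cons (.rf (nat_lit 1632) (nat_lit 14242959524133701664)) (.cons (.br (nat_lit 1) (nat_lit 0) (.cons (.br (nat_lit 7) (nat_lit 0) (.cons (.ev (nat_lit 1213666705181745367482625) (nat_lit 1)) (.cons (.rf (nat_lit 928) (nat_lit 14303893635)) .nil))) (.cons (.ev (nat_lit 310693935640959697899487489) (nat_lit 1)) (.cons (.rf (nat_lit 928) (nat_lit 14303893635)) .nil)))) (.cons (.rf (nat_lit 928) (nat_lit 14303893635)) .nil))))),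
 (.br (nat_lit 11) (nat_lit 0) (.cons (.rf (nat_lit 1604) (nat_lit 14242959524133701664)) (.cons (.rf (nat_lit 1615) (nat_lit 14242959524133701664)) (.cons (.rf (nat_lit 1620) (nat_lit 14242959524133701664)) (.cons (.br (nat_lit 4) (nat_lit 1) (.cons (.br (nat_lit 6) (nat_lit 1) (.cons (.rf (nat_lit 1622) (nat_lit 14242959524133701664)) (.cons (.br (nat_lit 9) (nat_lit 1) (.cons (.rf (nat_lit 1622) (nat_lit 13123711597206964256)) (.cons (.ev (nat_lit 309489732187827938369995009) (nat_lit 1)) (.cons (.kr (nat_lit 4722366764344621924352) (nat_lit 79537647524085682662268731392) (nat_lit 6) (nat_lit 0)) .nil)))) (.cons (.ev (nat_lit 79228162514264619068520661249) (nat_lit 1)) .nil)))) (.cons (.br (nat_lit 5) (nat_lit 0) (.cons (.rf (nat_lit 1624) (nat_lit 14242959524133701664)) (.cons (.rf (nat_lit 1626) (nat_lit 14242959524133701664)) (.cons (.rf (nat_lit 1627) (nat_lit 14242959524133701664)) (.cons (.br (nat_lit 5) (nat_lit 0) (.cons (.rf (nat_lit 1624) (nat_lit 14242959524133701664))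 (.cons (.rf (nat_lit 1628) (nat_lit 14242959524033041440)) (.cons (.rf (nat_lit 1627) (nat_lit 14242959524133701664)) (.cons (.rf (nat_lit 928) (nat_lit 14303893635)) .nil))))) (.cons (.rf (nat_lit 928) (nat_lit 14303893635)) .nil)))))) (.cons (.br (nat_lit 8) (nat_lit 1) (.cons (.ev (nat_lit 309485028268089146746077441) (nat_lit 1)) (.cons (.br (nat_lit 2) (nat_lit 0) (.cons (.br (nat_lit 1) (nat_lit 0) (.cons (.kr (nat_lit 79228162514264337593543950592) (nat_lit 4295032832) (nat_lit 1) (nat_lit 0)) (.cons (.br (nat_lit 5) (nat_lit 0) (.cons (.ev (nat_lit 79538861172271780165400396033) (nat_lit 1)) (.cons (.rf (nat_lit 928) (nat_lit 14303893635)) .nil))) (.cons (.rf (nat_lit 928) (nat_lit 14303893635)) .nil)))) (.cons (.rf (nat_lit 1155) (nat_lit 14242959455481333792)) (.cons (.rf (nat_lit 1628) (nat_lit 14242959524133701664)) (.cons (.rf (nat_lit 928) (nat_lit 14303893635)) .nil))))) (.cons (.br (nat_lit 2) (nat_lit 0) (.cons (.rf (nat_lit 1629) (nat_lit 14242959524133701664))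 (.cons (.rf (nat_lit 1630) (nat_lit 14242959524133701664)) (.cons (.br (nat_lit 2) (nat_lit 0) (.cons (.rf (nat_lit 1629) (nat_lit 14242959524133701664)) (.cons (.rf (nat_lit 1630) (nat_lit 14242959524133701664)) (.cons (.rf (nat_lit 928) (nat_lit 14303893635)) .nil)))) (.cons (.rf (nat_lit 928) (nat_lit 14303893635)) .nil))))) (.cons (.br (nat_lit 7) (nat_lit 0) (.cons (.br (nat_lit 5) (nat_lit 0) (.cons (.kr (nat_lit 4722366764344621924352) (nat_lit 79537647524085682662268731392) (nat_lit 6) (nat_lit 0)) (.cons (.br (nat_lit 1) (nat_lit 0) (.cons (.ev (nat_lit 1213666705181745367482625) (nat_lit 1)) (.cons (.rf (nat_lit 928) (nat_lit 14303893635)) .nil))) (.cons (.rf (nat_lit 928) (nat_lit 14303893635)) .nil)))) (.cons (.br (nat_lit 1) (nat_lit 0) (.cons (.br (nat_lit 5) (nat_lit 0) (.cons (.ev (nat_lit 1213666705181745367482625) (nat_lit 1)) (.cons (.rf (nat_lit 928) (nat_lit 14303893635)) .nil))) (.cons (.ev (nat_lit 79537652264898909605623496961) (nat_lit 1)) (.cons (.rf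 (nat_lit 928) (nat_lit 14303893635)) .nil)))) (.cons (.rf (nat_lit 1628) (nat_lit 14242959352335014944)) (.cons (.rf (nat_lit 928) (nat_lit 14303893635)) .nil))))) .nil))))) (.cons (.br (nat_lit 5) (nat_lit 0) (.cons (.rf (nat_lit 1631) (nat_lit 14242959524133701664)) (.cons (.rf (nat_lit 1632) (nat_lit 14242959524133701664)) (.cons (.rf (nat_lit 1633) (nat_lit 14242959524133701664)) (.cons (.br (nat_lit 5) (nat_lit 0) (.cons (.rf (nat_lit 1631) (nat_lit 14242959524133701664)) (.cons (.rf (nat_lit 1628) (nat_lit 14242959352402121760)) (.cons (.rf (nat_lit 1633) (nat_lit 14242959524133701664)) (.cons (.rf (nat_lit 928) (nat_lit 14303893635)) .nil))))) (.cons (.rf (nat_lit 928) (nat_lit 14303893635)) .nil)))))) .nil))))) (.cons (.rf (nat_lit 928) (nat_lit 14303893635)) .nil)))))),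
 (.br (nat_lit 11) (nat_lit 0) (.cons (.rf (nat_lit 1604) (nat_lit 14242959524133701664)) (.cons (.rf (nat_lit 1615) (nat_lit 14242959524133701664)) (.cons (.rf (nat_lit 1620) (nat_lit 14242959524133701664)) (.cons (.rf (nat_lit 1634) (nat_lit 14242959524133701664)) (.cons (.br (nat_lit 11) (nat_lit 0) (.cons (.rf (nat_lit 1604) (nat_lit 14242959524133701664)) (.cons (.rf (nat_lit 1615) (nat_lit 14242959524133701664)) (.cons (.rf (nat_lit 1620) (nat_lit 14242959524133701664)) (.cons (.rf (nat_lit 1634) (nat_lit 14242959524133701664)) (.cons (.rf (nat_lit 928) (nat_lit 14303893635)) .nil)))))) (.cons (.rf (nat_lit 928) (nat_lit 14303893635)) .nil))))))),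
 (.br (nat_lit 11) (nat_lit 0) (.cons (.rf (nat_lit 1635) (nat_lit 13123847930212648000)) (.cons (.rf (nat_lit 1635) (nat_lit 13123711597206963264)) (.cons (.rf (nat_lit 928) (nat_lit 14303893635)) .nil)))),
 (.br (nat_lit 8) (nat_lit 1) (.cons (.rf (nat_lit 1595) (nat_lit 13119101346028718112)) (.cons (.rf (nat_lit 1595) (nat_lit 13119101346028717120)) (.cons (.br (nat_lit 11) (nat_lit 0) (.cons (.rf (nat_lit 1636) (nat_lit 14242959524133701664)) (.cons (.br (nat_lit 11) (nat_lit 0) (.cons (.rf (nat_lit 1635) (nat_lit 13123711597206963264)) (.cons (.rf (nat_lit 928) (nat_lit 14303893635)) .nil))) (.cons (.rf (nat_lit 928) (nat_lit 14303893635)) .nil)))) (.cons (.br (nat_lit 7) (nat_lit 0) (.cons (.br (nat_lit 9) (nat_lit 1) (.cons (.rf (nat_lit 1595) (nat_lit 13121352046328711200)) (.cons (.rf (nat_lit 1595) (nat_lit 13121352046328710208)) (.cons (.br (nat_lit 1) (nat_lit 0) (.cons (.ev (nat_lit 1213648186380077603225601) (nat_lit 1)) (.cons (.rf (nat_lit 928) (nat_lit 14303893635))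 .nil))) (.cons (.kr (nat_lit 4722366764344621924352) (nat_lit 79537647524085682662268731392) (nat_lit 6) (nat_lit 0)) .nil))))) (.cons (.br (nat_lit 1) (nat_lit 0) (.cons (.br (nat_lit 5) (nat_lit 0) (.cons (.ev (nat_lit 1213648186380077603225601) (nat_lit 1)) (.cons (.rf (nat_lit 928) (nat_lit 14303893635)) .nil))) (.cons (.rf (nat_lit 928) (nat_lit 14303893635)) .nil))) (.cons (.rf (nat_lit 928) (nat_lit 14303893635)) .nil)))) .nil))))),
 (.br (nat_lit 7) (nat_lit 0) (.cons (.rf (nat_lit 1637) (nat_lit 14242959524133701664)) (.cons (.br (nat_lit 1) (nat_lit 0) (.cons (.br (nat_lit 2) (nat_lit 0) (.cons (.rf (nat_lit 1367) (nat_lit 14235994122268968992)) (.cons (.ev (nat_lit 79229376162522492686418641153) (nat_lit 1)) (.cons (.rf (nat_lit 928) (nat_lit 14303893635)) .nil)))) (.cons (.rf (nat_lit 1595) (nat_lit 13121352046328711200)) (.cons (.rf (nat_lit 928) (nat_lit 14303893635)) .nil)))) (.cons (.rf (nat_lit 928) (nat_lit 14303893635)) .nil)))),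
 (.br (nat_lit 7) (nat_lit 0) (.cons (.rf (nat_lit 1637) (nat_lit 14242959524133701664)) (.cons (.rf (nat_lit 1638) (nat_lit 14242959524133701664)) (.cons (.br (nat_lit 7) (nat_lit 0) (.cons (.rf (nat_lit 1637) (nat_lit 14242959524133701664)) (.cons (.rf (nat_lit 1638) (nat_lit 14242959524133701664)) (.cons (.rf (nat_lit 928) (nat_lit 14303893635)) .nil)))) (.cons (.rf (nat_lit 928) (nat_lit 14303893635)) .nil))))),
 (.br (nat_lit 11) (nat_lit 0) (.cons (.rf (nat_lit 1635) (nat_lit 13123847930212648000)) (.cons (.br (nat_lit 7) (nat_lit 0) (.cons (.rf (nat_lit 1597) (nat_lit 14242925437127854112)) (.cons (.rf (nat_lit 928) (nat_lit 14303893635)) .nil))) (.cons (.rf (nat_lit 928) (nat_lit 14303893635)) .nil))))]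

theorem c54 : chkAll C T R L54 (nat_lit 1615) = true := by decide +kernel

theorem l54 : (nat_lit 1615) + L54.length = (nat_lit 1641) := by decide +kernel

/-- part of the certificates -/
def L55 : List Prf := [(.br (nat_lit 11) (nat_lit 0) (.cons (.kr (nat_lit 281474976710656) (nat_lit 309485009821345068724781056) (nat_lit 6) (nat_lit 0)) (.cons (.br (nat_lit 7) (nat_lit 0) (.cons (.rf (nat_lit 1639) (nat_lit 13123711597206963264)) (.cons (.rf (nat_lit 928) (nat_lit 14303893635)) .nil))) (.cons (.rf (nat_lit 928) (nat_lit 14303893635)) .nil)))),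
 (.br (nat_lit 7) (nat_lit 0) (.cons (.rf (nat_lit 1641) (nat_lit 14242959524133701664)) (.cons (.br (nat_lit 7) (nat_lit 0) (.cons (.rf (nat_lit 1641) (nat_lit 14242959524133701664)) (.cons (.rf (nat_lit 928) (nat_lit 14303893635)) .nil))) (.cons (.rf (nat_lit 928) (nat_lit 14303893635)) .nil)))),
 (.br (nat_lit 8) (nat_lit 1) (.cons (.rf (nat_lit 1595) (nat_lit 14235994122268968992)) (.cons (.rf (nat_lit 1595) (nat_lit 14235994122268968000)) (.cons (.br (nat_lit 11) (nat_lit 0) (.cons (.rf (nat_lit 1640) (nat_lit 14242959524133701664)) (.cons (.rf (nat_lit 1636) (nat_lit 14242959524133701664)) (.cons (.br (nat_lit 11) (nat_lit 0) (.cons (.rf (nat_lit 1640) (nat_lit 14242959524133701664)) (.cons (.rf (nat_lit 1635) (nat_lit 13123711597206963264)) (.cons (.rf (nat_lit 928) (nat_lit 14303893635)) .nil)))) (.cons (.rf (nat_lit 928) (nat_lit 14303893635)) .nil))))) (.cons (.br (nat_lit 5) (nat_lit 0) (.cons (.rf (nat_lit 1639) (nat_lit 14242959524133701664)) (.cons (.br (nat_lit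 1) (nat_lit 0) (.cons (.br (nat_lit 7) (nat_lit 0) (.cons (.rf (nat_lit 1636) (nat_lit 14242925437127853120)) (.cons (.br (nat_lit 2) (nat_lit 0) (.cons (.rf (nat_lit 1595) (nat_lit 14238244822568961088)) (.cons (.rf (nat_lit 928) (nat_lit 14303893635)) .nil))) (.cons (.rf (nat_lit 928) (nat_lit 14303893635)) .nil)))) (.cons (.rf (nat_lit 1595) (nat_lit 14238244822568962080)) (.cons (.br (nat_lit 11) (nat_lit 0) (.cons (.ev (nat_lit 309485028268089142434332929) (nat_lit 1)) (.cons (.br (nat_lit 7) (nat_lit 0) (.cons (.kr (nat_lit 4722366764344621924352) (nat_lit 79537647524085682662268731392) (nat_lit 6) (nat_lit 0)) (.cons (.rf (nat_lit 928) (nat_lit 14303893635)) .nil))) (.cons (.rf (nat_lit 928) (nat_lit 14303893635)) .nil)))) (.cons (.rf (nat_lit 928) (nat_lit 14303893635)) .nil))))) (.cons (.rf (nat_lit 1642) (nat_lit 14242959524133701664)) (.cons (.rf (nat_lit 928) (nat_lit 14303893635)) .nil))))) .nil))))),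
 (.br (nat_lit 5) (nat_lit 0) (.cons (.rf (nat_lit 1639) (nat_lit 14242959524133701664)) (.cons (.rf (nat_lit 1643) (nat_lit 14242959524133701664)) (.cons (.br (nat_lit 2) (nat_lit 0) (.cons (.rf (nat_lit 1643) (nat_lit 14242925437127854112)) (.cons (.br (nat_lit 8) (nat_lit 1) (.cons (.rf (nat_lit 1367) (nat_lit 14235994122268968992)) (.cons (.rf (nat_lit 1595) (nat_lit 13119101346028717120)) (.cons (.br (nat_lit 1) (nat_lit 0) (.cons (.rf (nat_lit 1639) (nat_lit 14235994122268968000)) (.cons (.rf (nat_lit 1595) (nat_lit 14238244822568962080)) (.cons (.rf (nat_lit 928) (nat_lit 14303893635)) .nil)))) .nil)))) (.cons (.rf (nat_lit 1595) (nat_lit 14238244822568961088)) (.cons (.rf (nat_lit 928) (nat_lit 14303893635)) .nil))))) (.cons (.rf (nat_lit 928) (nat_lit 14303893635)) .nil))))),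
 (.br (nat_lit 5) (nat_lit 0) (.cons (.rf (nat_lit 1639) (nat_lit 14242959524133701664)) (.cons (.rf (nat_lit 1643) (nat_lit 14242959524133701664)) (.cons (.rf (nat_lit 1644) (nat_lit 14242959524133701664)) (.cons (.br (nat_lit 5) (nat_lit 0) (.cons (.rf (nat_lit 1639) (nat_lit 14242959524133701664)) (.cons (.rf (nat_lit 1643) (nat_lit 14242959524133701664)) (.cons (.rf (nat_lit 1644) (nat_lit 14242959524133701664)) (.cons (.rf (nat_lit 928) (nat_lit 14303893635)) .nil))))) (.cons (.rf (nat_lit 928) (nat_lit 14303893635)) .nil)))))),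
 (.br (nat_lit 9) (nat_lit 1) (.cons (.rf (nat_lit 1595) (nat_lit 14238244822568961088)) (.cons (.rf (nat_lit 1595) (nat_lit 13121352046328710208)) (.cons (.rf (nat_lit 1645) (nat_lit 14238244822568961088)) .nil)))),
 (.br (nat_lit 8) (nat_lit 1) (.cons (.rf (nat_lit 1367) (nat_lit 14235994122268968992)) (.cons (.rf (nat_lit 1595) (nat_lit 14235994122268968000)) (.cons (.rf (nat_lit 1595) (nat_lit 13119101346028717120)) (.cons (.br (nat_lit 1) (nat_lit 0) (.cons (.br (nat_lit 2) (nat_lit 0) (.cons (.rf (nat_lit 1645) (nat_lit 14242925437127854112)) (.cons (.rf (nat_lit 1646) (nat_lit 14242959524133701664)) (.cons (.kr (nat_lit 1208925819614629191483392) (nat_lit 18446744078004518912) (nat_lit 3) (nat_lit 0)) (.cons (.rf (nat_lit 928) (nat_lit 14303893635)) .nil))))) (.cons (.rf (nat_lit 1645) (nat_lit 14235994122268968000)) (.cons (.br (nat_lit 2) (nat_lit 0) (.cons (.rf (nat_lit 1645) (nat_lit 14242959524133701664)) (.cons (.rf (nat_lit 1645) (nat_lit 14242925437127854112))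 (.cons (.rf (nat_lit 1367) (nat_lit 14238244822568962080)) (.cons (.rf (nat_lit 1646) (nat_lit 14236198627140961344)) (.cons (.rf (nat_lit 928) (nat_lit 14303893635)) .nil)))))) (.cons (.rf (nat_lit 1645) (nat_lit 14236198627140961344)) (.cons (.rf (nat_lit 928) (nat_lit 14303893635)) .nil)))))) .nil))))),
 (.br (nat_lit 12) (nat_lit 0) (.cons (.rf (nat_lit 1635) (nat_lit 14242959524133701664)) (.cons (.rf (nat_lit 1635) (nat_lit 14242925437127854112)) (.cons (.br (nat_lit 2) (nat_lit 0) (.cons (.rf (nat_lit 1645) (nat_lit 14242959524133701664)) (.cons (.rf (nat_lit 1645) (nat_lit 14242925437127854112)) (.cons (.rf (nat_lit 1647) (nat_lit 14242959524133701664)) (.cons (.rf (nat_lit 1647) (nat_lit 14242925437127854112)) (.cons (.br (nat_lit 2) (nat_lit 0) (.cons (.rf (nat_lit 1645) (nat_lit 14242959524133701664)) (.cons (.rf (nat_lit 1645) (nat_lit 14242925437127854112)) (.cons (.rf (nat_lit 1647) (nat_lit 14242959524133701664)) (.cons (.rf (nat_lit 1647) (nat_lit 14242925437127854112))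 (.cons (.rf (nat_lit 928) (nat_lit 14303893635)) .nil)))))) (.cons (.rf (nat_lit 928) (nat_lit 14303893635)) .nil))))))) (.cons (.rf (nat_lit 928) (nat_lit 14303893635)) .nil))))),
 (.br (nat_lit 1) (nat_lit 0) (.cons (.br (nat_lit 2) (nat_lit 0) (.cons (.br (nat_lit 5) (nat_lit 0) (.cons (.ev (nat_lit 79538856449905579865931776001) (nat_lit 1)) (.cons (.rf (nat_lit 928) (nat_lit 14303893635)) .nil))) (.cons (.rf (nat_lit 928) (nat_lit 14303893635)) .nil))) (.cons (.ev (nat_lit 4722366482873940181249) (nat_lit 1)) (.cons (.rf (nat_lit 928) (nat_lit 14303893635)) .nil)))),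
 (.br (nat_lit 1) (nat_lit 0) (.cons (.br (nat_lit 10) (nat_lit 1) (.cons (.kr (nat_lit 79228162514264337593543950592) (nat_lit 4295032832) (nat_lit 1) (nat_lit 0)) (.cons (.zr (nat_lit 80466102590443208214918987776) (nat_lit 14167100293042455707905) (nat_lit 5) (nat_lit 6)) (.cons (.zr (nat_lit 79847132570944631066522025984) (nat_lit 14167100293033865773313) (nat_lit 5) (nat_lit 6)) .nil)))) (.cons (.rf (nat_lit 928) (nat_lit 14303893635)) .nil))),
 (.br (nat_lit 2) (nat_lit 0) (.cons (.rf (nat_lit 1650) (nat_lit 14242959524133701664)) (.cons (.br (nat_lit 2) (nat_lit 0) (.cons (.rf (nat_lit 1650) (nat_lit 14242959524133701664)) (.cons (.rf (nat_lit 928) (nat_lit 14303893635)) .nil))) (.cons (.rf (nat_lit 928) (nat_lit 14303893635)) .nil)))),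
 (.br (nat_lit 2) (nat_lit 0) (.cons (.rf (nat_lit 1595) (nat_lit 14240604373447214144)) (.cons (.br (nat_lit 2) (nat_lit 0) (.cons (.rf (nat_lit 1595) (nat_lit 14240604373447214144)) (.cons (.rf (nat_lit 1595) (nat_lit 13119101346028717120)) (.cons (.rf (nat_lit 1595) (nat_lit 13118075500608422976)) (.cons (.rf (nat_lit 928) (nat_lit 14303893635)) .nil))))) (.cons (.rf (nat_lit 1595) (nat_lit 13119101346028717120)) (.cons (.rf (nat_lit 1595) (nat_lit 13118075500608422976)) (.cons (.rf (nat_lit 928) (nat_lit 14303893635)) .nil)))))),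
 (.br (nat_lit 1) (nat_lit 0) (.cons (.rf (nat_lit 1648) (nat_lit 13119101346028718112)) (.cons (.br (nat_lit 2) (nat_lit 0) (.cons (.kr (nat_lit 79228162532711081667270279424) (nat_lit 4722366764348916957184) (nat_lit 1) (nat_lit 0)) (.cons (.rf (nat_lit 1648) (nat_lit 14234968276848673856)) (.cons (.rf (nat_lit 928) (nat_lit 14303893635)) .nil)))) (.cons (.rf (nat_lit 1648) (nat_lit 14234968276848674848)) (.cons (.rf (nat_lit 928) (nat_lit 14303893635)) .nil))))),
 (.br (nat_lit 11) (nat_lit 0) (.cons (.br (nat_lit 7) (nat_lit 0) (.cons (.kr (nat_lit 281474976710656) (nat_lit 309485009821345068724781056) (nat_lit 6) (nat_lit 0)) (.cons (.rf (nat_lit 1649) (nat_lit 14242959524133701664)) (.cons (.br (nat_lit 7) (nat_lit 0) (.cons (.kr (nat_lit 281474976710656) (nat_lit 309485009821345068724781056) (nat_lit 6) (nat_lit 0)) (.cons (.rf (nat_lit 1649) (nat_lit 14242959524133701664)) (.cons (.rf (nat_lit 928) (nat_lit 14303893635)) .nil)))) (.cons (.rf (nat_lit 928) (nat_lit 14303893635))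 .nil))))) (.cons (.br (nat_lit 7) (nat_lit 0) (.cons (.rf (nat_lit 1651) (nat_lit 14242959524133701664)) (.cons (.br (nat_lit 7) (nat_lit 0) (.cons (.rf (nat_lit 1651) (nat_lit 14242959524133701664)) (.cons (.rf (nat_lit 1652) (nat_lit 14242959524133701664)) (.cons (.rf (nat_lit 928) (nat_lit 14303893635)) .nil)))) (.cons (.br (nat_lit 7) (nat_lit 0) (.cons (.rf (nat_lit 1651) (nat_lit 14242959524133701664)) (.cons (.rf (nat_lit 1652) (nat_lit 14242959524133701664)) (.cons (.rf (nat_lit 928) (nat_lit 14303893635)) .nil)))) (.cons (.rf (nat_lit 928) (nat_lit 14303893635)) .nil))))) (.cons (.br (nat_lit 2) (nat_lit 0) (.cons (.rf (nat_lit 1653) (nat_lit 14242959524133701664)) (.cons (.rf (nat_lit 1648) (nat_lit 13119101346028717120)) (.cons (.br (nat_lit 2) (nat_lit 0) (.cons (.rf (nat_lit 1653) (nat_lit 14242959524133701664)) (.cons (.rf (nat_lit 1648) (nat_lit 13119101346028717120)) (.cons (.rf (nat_lit 1648) (nat_lit 14234968276848673856)) (.cons (.rf (nat_lit 928) (nat_lit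 14303893635)) .nil))))) (.cons (.rf (nat_lit 1648) (nat_lit 14234968276848673856)) (.cons (.rf (nat_lit 928) (nat_lit 14303893635)) .nil)))))) (.cons (.rf (nat_lit 928) (nat_lit 14303893635)) .nil))))),
 (.br (nat_lit 6) (nat_lit 1) (.cons (.rf (nat_lit 1367) (nat_lit 14241659903536203808)) (.cons (.rf (nat_lit 1595) (nat_lit 14241659903536202816)) (.cons (.rf (nat_lit 1595) (nat_lit 13124767127295951936)) .nil)))),
 (.br (nat_lit 11) (nat_lit 0) (.cons (.rf (nat_lit 1654) (nat_lit 14242959524133701664)) (.cons (.br (nat_lit 2) (nat_lit 0) (.cons (.rf (nat_lit 1415) (nat_lit 13124971631095252032)) (.cons (.br (nat_lit 10) (nat_lit 1) (.cons (.rf (nat_lit 1367) (nat_lit 14234968276848674848)) (.cons (.ev (nat_lit 79538861190718525334326607873) (nat_lit 1)) (.cons (.rf (nat_lit 1595) (nat_lit 13118075500608422976)) .nil)))) (.cons (.rf (nat_lit 928) (nat_lit 14303893635)) .nil)))) (.cons (.br (nat_lit 2) (nat_lit 0) (.cons (.rf (nat_lit 1655) (nat_lit 14242959524133701664)) (.cons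 (.br (nat_lit 2) (nat_lit 0) (.cons (.rf (nat_lit 1655) (nat_lit 14242959524133701664)) (.cons (.ev (nat_lit 310698658007442571839733761) (nat_lit 1)) (.cons (.rf (nat_lit 928) (nat_lit 14303893635)) .nil)))) (.cons (.rf (nat_lit 1648) (nat_lit 14234968276848673856)) (.cons (.rf (nat_lit 928) (nat_lit 14303893635)) .nil))))) (.cons (.rf (nat_lit 928) (nat_lit 14303893635)) .nil))))),
 (.br (nat_lit 11) (nat_lit 0) (.cons (.rf (nat_lit 1654) (nat_lit 14242959524133701664)) (.cons (.rf (nat_lit 1656) (nat_lit 14242959524133701664)) (.cons (.br (nat_lit 1) (nat_lit 0) (.cons (.rf (nat_lit 1611) (nat_lit 14234968276848674848)) (.cons (.ev (nat_lit 309485028268089146746077441) (nat_lit 1)) (.cons (.rf (nat_lit 1648) (nat_lit 14234968276848674848)) (.cons (.rf (nat_lit 928) (nat_lit 14303893635)) .nil))))) (.cons (.rf (nat_lit 928) (nat_lit 14303893635)) .nil))))),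
 (.br (nat_lit 11) (nat_lit 0) (.cons (.rf (nat_lit 1654) (nat_lit 14242959524133701664)) (.cons (.rf (nat_lit 1656) (nat_lit 14242959524133701664)) (.cons (.rf (nat_lit 1657) (nat_lit 14242959524133701664)) (.cons (.br (nat_lit 11) (nat_lit 0) (.cons (.rf (nat_lit 1654) (nat_lit 14242959524133701664)) (.cons (.rf (nat_lit 1656) (nat_lit 14242959524133701664)) (.cons (.rf (nat_lit 1657) (nat_lit 14242959524133701664)) (.cons (.rf (nat_lit 928) (nat_lit 14303893635)) .nil))))) (.cons (.rf (nat_lit 928) (nat_lit 14303893635)) .nil)))))),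
 (.br (nat_lit 11) (nat_lit 0) (.cons (.kr (nat_lit 4722366764344621924352) (nat_lit 309485028268089142434332672) (nat_lit 6) (nat_lit 0)) (.cons (.br (nat_lit 2) (nat_lit 0) (.cons (.rf (nat_lit 1648) (nat_lit 13121352046328710208)) (.cons (.rf (nat_lit 1648) (nat_lit 14234968276848673856)) (.cons (.rf (nat_lit 928) (nat_lit 14303893635)) .nil)))) (.cons (.rf (nat_lit 928) (nat_lit 14303893635)) .nil)))),
 (.br (nat_lit 2) (nat_lit 0) (.cons (.rf (nat_lit 1648) (nat_lit 13123711597206963264)) (.cons (.br (nat_lit 1) (nat_lit 0) (.cons (.rf (nat_lit 1648) (nat_lit 13123711597206964256)) (.cons (.rf (nat_lit 1367) (nat_lit 14234968276848674848)) (.cons (.rf (nat_lit 928) (nat_lit 14303893635)) .nil)))) (.cons (.rf (nat_lit 928) (nat_lit 14303893635)) .nil)))),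
 (.br (nat_lit 2) (nat_lit 0) (.cons (.br (nat_lit 10) (nat_lit 1) (.cons (.ev (nat_lit 1208944266359802395885569) (nat_lit 1)) (.cons (.rf (nat_lit 1648) (nat_lit 14234968276848673856)) .nil))) (.cons (.rf (nat_lit 928) (nat_lit 14303893635)) .nil))),
 (.br (nat_lit 11) (nat_lit 0) (.cons (.rf (nat_lit 1305) (nat_lit 13124767024015414496)) (.cons (.br (nat_lit 2) (nat_lit 0) (.cons (.br (nat_lit 1) (nat_lit 0) (.cons (.rf (nat_lit 928) (nat_lit 14303893635)) .nil)) (.cons (.rf (nat_lit 928) (nat_lit 14303893635)) .nil))) (.cons (.rf (nat_lit 928) (nat_lit 14303893635)) .nil)))),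
 (.br (nat_lit 11) (nat_lit 0) (.cons (.rf (nat_lit 1371) (nat_lit 13124971528016037024)) (.cons (.br (nat_lit 1) (nat_lit 0) (.cons (.ev (nat_lit 79538856468424100063014289665) (nat_lit 1)) (.cons (.rf (nat_lit 928) (nat_lit 14303893635)) .nil))) (.cons (.rf (nat_lit 928) (nat_lit 14303893635)) .nil)))),
 (.br (nat_lit 1) (nat_lit 0) (.cons (.br (nat_lit 11) (nat_lit 0) (.cons (.ev (nat_lit 79538856468424100063014289665) (nat_lit 1)) (.cons (.rf (nat_lit 928) (nat_lit 14303893635)) .nil))) (.cons (.rf (nat_lit 1052) (nat_lit 14234899934323475616)) (.cons (.rf (nat_lit 928) (nat_lit 14303893635)) .nil)))),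
 (.br (nat_lit 5) (nat_lit 0) (.cons (.rf (nat_lit 1658) (nat_lit 14242959524133701664)) (.cons (.br (nat_lit 11) (nat_lit 0) (.cons (.rf (nat_lit 1659) (nat_lit 14242959524133701664)) (.cons (.rf (nat_lit 1660) (nat_lit 14242959524133701664)) (.cons (.br (nat_lit 11) (nat_lit 0) (.cons (.rf (nat_lit 1659) (nat_lit 14242959524133701664)) (.cons (.rf (nat_lit 1660) (nat_lit 14242959524133701664)) (.cons (.rf (nat_lit 928) (nat_lit 14303893635)) .nil)))) (.cons (.rf (nat_lit 928) (nat_lit 14303893635)) .nil))))) (.cons (.br (nat_lit 7) (nat_lit 0) (.cons (.rf (nat_lit 1024) (nat_lit 14241864235402597600)) (.cons (.br (nat_lit 11) (nat_lit 0) (.cons (.rf (nat_lit 1661) (nat_lit 14242959524133701664)) (.cons (.br (nat_lit 11) (nat_lit 0) (.cons (.rf (nat_lit 1661) (nat_lit 14242959524133701664)) (.cons (.rf (nat_lit 928) (nat_lit 14303893635)) .nil))) (.cons (.rf (nat_lit 928) (nat_lit 14303893635)) .nil)))) (.cons (.br (nat_lit 10) (nat_lit 1) (.cons (.rf (nat_lit 1595) (nat_lit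 13118075500608423968)) (.cons (.rf (nat_lit 1595) (nat_lit 13118075500608422976)) (.cons (.rf (nat_lit 1662) (nat_lit 14242959524133701664)) .nil)))) (.cons (.rf (nat_lit 928) (nat_lit 14303893635)) .nil))))) (.cons (.br (nat_lit 10) (nat_lit 1) (.cons (.rf (nat_lit 1595) (nat_lit 14234968276848674848)) (.cons (.rf (nat_lit 1595) (nat_lit 14234968276848673856)) (.cons (.br (nat_lit 11) (nat_lit 0) (.cons (.rf (nat_lit 1663) (nat_lit 14242959524133701664)) (.cons (.rf (nat_lit 1664) (nat_lit 14242959524133701664)) (.cons (.br (nat_lit 11) (nat_lit 0) (.cons (.rf (nat_lit 1663) (nat_lit 14242959524133701664)) (.cons (.rf (nat_lit 1664) (nat_lit 14242959524133701664)) (.cons (.rf (nat_lit 928) (nat_lit 14303893635)) .nil)))) (.cons (.rf (nat_lit 928) (nat_lit 14303893635)) .nil))))) (.cons (.br (nat_lit 7) (nat_lit 0) (.cons (.br (nat_lit 1) (nat_lit 0) (.cons (.ev (nat_lit 18518802767275884801) (nat_lit 1)) (.cons (.br (nat_lit 11) (nat_lit 0) (.cons (.ev (nat_lit 310693935640959697899487489)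 (nat_lit 1)) (.cons (.rf (nat_lit 928) (nat_lit 14303893635)) .nil))) (.cons (.rf (nat_lit 928) (nat_lit 14303893635)) .nil)))) (.cons (.br (nat_lit 11) (nat_lit 0) (.cons (.rf (nat_lit 1305) (nat_lit 13124767024015416480)) (.cons (.br (nat_lit 2) (nat_lit 0) (.cons (.rf (nat_lit 1648) (nat_lit 13123711597206963264)) (.cons (.rf (nat_lit 928) (nat_lit 14303893635)) .nil))) (.cons (.rf (nat_lit 928) (nat_lit 14303893635)) .nil)))) (.cons (.rf (nat_lit 1662) (nat_lit 14242959455481333792)) (.cons (.rf (nat_lit 928) (nat_lit 14303893635)) .nil))))) .nil))))) (.cons (.rf (nat_lit 928) (nat_lit 14303893635)) .nil)))))),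
 (.br (nat_lit 7) (nat_lit 0) (.cons (.kr (nat_lit 36965545745751998464) (nat_lit 9444733248313778765824) (nat_lit 4) (nat_lit 0)) (.cons (.br (nat_lit 2) (nat_lit 0) (.cons (.br (nat_lit 2) (nat_lit 0) (.cons (.rf (nat_lit 1595) (nat_lit 13118075500608422976)) (.cons (.rf (nat_lit 928) (nat_lit 14303893635)) .nil))) (.cons (.rf (nat_lit 1595) (nat_lit 13118075500608422976)) (.cons (.rf (nat_lit 928) (nat_lit 14303893635)) .nil)))) (.cons (.rf (nat_lit 928) (nat_lit 14303893635)) .nil))))]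

theorem c55 : chkAll C T R L55 (nat_lit 1641) = true := by decide +kernel

theorem l55 : (nat_lit 1641) + L55.length = (nat_lit 1667) := by decide +kernel

/-- part of the certificates -/
def L56 : List Prf := [(.br (nat_lit 11) (nat_lit 0) (.cons (.br (nat_lit 2) (nat_lit 0) (.cons (.br (nat_lit 10) (nat_lit 1) (.cons (.rf (nat_lit 1367) (nat_lit 14234968276848674848)) (.cons (.rf (nat_lit 1595) (nat_lit 13118075500608422976)) .nil))) (.cons (.rf (nat_lit 928) (nat_lit 14303893635)) .nil))) (.cons (.kr (nat_lit 4722366764344621924352) (nat_lit 79537647524085682662268731392) (nat_lit 6) (nat_lit 0)) (.cons (.rf (nat_lit 928) (nat_lit 14303893635)) .nil)))),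
 (.br (nat_lit 1) (nat_lit 0) (.cons (.br (nat_lit 11) (nat_lit 0) (.cons (.ev (nat_lit 1213666632841572546248961) (nat_lit 1)) (.cons (.rf (nat_lit 928) (nat_lit 14303893635)) .nil))) (.cons (.rf (nat_lit 928) (nat_lit 14303893635)) .nil))),
 (.br (nat_lit 7) (nat_lit 0) (.cons (.rf (nat_lit 1668) (nat_lit 14242959524133701664)) (.cons (.br (nat_lit 7) (nat_lit 0) (.cons (.rf (nat_lit 1668) (nat_lit 14242959524133701664)) (.cons (.rf (nat_lit 928) (nat_lit 14303893635)) .nil))) (.cons (.rf (nat_lit 928) (nat_lit 14303893635)) .nil)))),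
 (.br (nat_lit 2) (nat_lit 0) (.cons (.rf (nat_lit 1669) (nat_lit 14242959524133701664)) (.cons (.br (nat_lit 10) (nat_lit 1) (.cons (.rf (nat_lit 1367) (nat_lit 14234968276848674848)) (.cons (.rf (nat_lit 1595) (nat_lit 13118075500608422976)) (.cons (.ev (nat_lit 309485009821626543701557249) (nat_lit 1)) .nil)))) (.cons (.rf (nat_lit 928) (nat_lit 14303893635)) .nil)))),
 (.br (nat_lit 11) (nat_lit 0) (.cons (.br (nat_lit 2) (nat_lit 0) (.cons (.rf (nat_lit 1601) (nat_lit 84803449721565216)) (.cons (.rf (nat_lit 928) (nat_lit 14303893635)) .nil))) (.cons (.ev (nat_lit 79537652246452448110714028033) (nat_lit 1)) (.cons (.rf (nat_lit 928) (nat_lit 14303893635)) .nil)))),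
 (.br (nat_lit 11) (nat_lit 0) (.cons (.br (nat_lit 2) (nat_lit 0) (.cons (.rf (nat_lit 1404) (nat_lit 14234968105117090976)) (.cons (.rf (nat_lit 928) (nat_lit 14303893635)) .nil))) (.cons (.rf (nat_lit 1665) (nat_lit 13119101346028717120)) (.cons (.rf (nat_lit 928) (nat_lit 14303893635)) .nil)))),
 (.br (nat_lit 6) (nat_lit 1) (.cons (.rf (nat_lit 1595) (nat_lit 14241659903536203808)) (.cons (.rf (nat_lit 1595) (nat_lit 14241659903536202816)) (.cons (.rf (nat_lit 1665) (nat_lit 14242959524133701664)) (.cons (.br (nat_lit 5) (nat_lit 0) (.cons (.rf (nat_lit 1658) (nat_lit 14242959524133701664)) (.cons (.br (nat_lit 7) (nat_lit 0) (.cons (.rf (nat_lit 1666) (nat_lit 14242959524133701664)) (.cons (.rf (nat_lit 1667) (nat_lit 14242959524133701664)) (.cons (.br (nat_lit 7) (nat_lit 0) (.cons (.rf (nat_lit 1666) (nat_lit 14242959524133701664)) (.cons (.rf (nat_lit 1667) (nat_lit 14242959524133701664)) (.cons (.rf (nat_lit 928) (nat_lit 14303893635)) .nil)))) (.cons (.rf (nat_lit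 928) (nat_lit 14303893635)) .nil))))) (.cons (.br (nat_lit 2) (nat_lit 0) (.cons (.rf (nat_lit 1669) (nat_lit 14242959524133701664)) (.cons (.rf (nat_lit 1670) (nat_lit 14242959524133701664)) (.cons (.br (nat_lit 2) (nat_lit 0) (.cons (.rf (nat_lit 1669) (nat_lit 14242959524133701664)) (.cons (.rf (nat_lit 1670) (nat_lit 14242959524133701664)) (.cons (.rf (nat_lit 928) (nat_lit 14303893635)) .nil)))) (.cons (.rf (nat_lit 928) (nat_lit 14303893635)) .nil))))) (.cons (.br (nat_lit 10) (nat_lit 1) (.cons (.rf (nat_lit 1595) (nat_lit 14234968276848674848)) (.cons (.rf (nat_lit 1595) (nat_lit 14234968276848673856)) (.cons (.br (nat_lit 2) (nat_lit 0) (.cons (.rf (nat_lit 1671) (nat_lit 14242959524133701664)) (.cons (.rf (nat_lit 1672) (nat_lit 14242959524133701664)) (.cons (.br (nat_lit 2) (nat_lit 0) (.cons (.rf (nat_lit 1671) (nat_lit 14242959524133701664)) (.cons (.rf (nat_lit 1672) (nat_lit 14242959524133701664)) (.cons (.rf (nat_lit 928) (nat_lit 14303893635)) .nil)))) (.cons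 (.rf (nat_lit 928) (nat_lit 14303893635)) .nil))))) (.cons (.br (nat_lit 8) (nat_lit 1) (.cons (.rf (nat_lit 1648) (nat_lit 13119101346028718112)) (.cons (.rf (nat_lit 1648) (nat_lit 13119101346028717120)) (.cons (.br (nat_lit 1) (nat_lit 0) (.cons (.ev (nat_lit 79229371458530977771404919041) (nat_lit 1)) (.cons (.br (nat_lit 7) (nat_lit 0) (.cons (.ev (nat_lit 1213666705181745367482625) (nat_lit 1)) (.cons (.rf (nat_lit 928) (nat_lit 14303893635)) .nil))) (.cons (.rf (nat_lit 928) (nat_lit 14303893635)) .nil)))) .nil)))) .nil))))) (.cons (.rf (nat_lit 928) (nat_lit 14303893635)) .nil)))))) .nil))))),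
 (.br (nat_lit 7) (nat_lit 0) (.cons (.kr (nat_lit 4722366764344621924352) (nat_lit 79537647524085682662268731392) (nat_lit 6) (nat_lit 0)) (.cons (.br (nat_lit 7) (nat_lit 0) (.cons (.kr (nat_lit 4722366764344621924352) (nat_lit 79537647524085682662268731392) (nat_lit 6) (nat_lit 0)) (.cons (.rf (nat_lit 928) (nat_lit 14303893635)) .nil))) (.cons (.rf (nat_lit 928) (nat_lit 14303893635)) .nil)))),
 (.br (nat_lit 11) (nat_lit 0) (.cons (.br (nat_lit 11) (nat_lit 0) (.cons (.rf (nat_lit 1674) (nat_lit 14242959524133701664)) (.cons (.rf (nat_lit 928) (nat_lit 14303893635)) .nil))) (.cons (.br (nat_lit 11) (nat_lit 0) (.cons (.rf (nat_lit 1674) (nat_lit 14242959524133701664)) (.cons (.rf (nat_lit 928) (nat_lit 14303893635)) .nil))) (.cons (.rf (nat_lit 928) (nat_lit 14303893635)) .nil)))),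
 (.br (nat_lit 10) (nat_lit 1) (.cons (.rf (nat_lit 1367) (nat_lit 14234968276848674848)) (.cons (.rf (nat_lit 1595) (nat_lit 14234968276848673856)) (.cons (.rf (nat_lit 1595) (nat_lit 13118075500608422976)) (.cons (.rf (nat_lit 1648) (nat_lit 14234968276848673856)) .nil))))),
 (.br (nat_lit 11) (nat_lit 0) (.cons (.br (nat_lit 11) (nat_lit 0) (.cons (.rf (nat_lit 1648) (nat_lit 13123711597206963264)) (.cons (.rf (nat_lit 928) (nat_lit 14303893635)) .nil))) (.cons (.rf (nat_lit 1648) (nat_lit 13123711597206963264)) (.cons (.rf (nat_lit 928) (nat_lit 14303893635)) .nil)))),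
 (.br (nat_lit 6) (nat_lit 1) (.cons (.rf (nat_lit 1367) (nat_lit 14241659903536203808)) (.cons (.rf (nat_lit 1595) (nat_lit 13124767127295951936)) (.cons (.ev (nat_lit 79229371440084234797223772161) (nat_lit 1)) .nil)))),
 (.br (nat_lit 11) (nat_lit 0) (.cons (.br (nat_lit 7) (nat_lit 0) (.cons (.br (nat_lit 7) (nat_lit 0) (.cons (.rf (nat_lit 1673) (nat_lit 13123711597206963264)) (.cons (.rf (nat_lit 928) (nat_lit 14303893635)) .nil))) (.cons (.rf (nat_lit 1673) (nat_lit 13123711597206963264)) (.cons (.rf (nat_lit 928) (nat_lit 14303893635)) .nil)))) (.cons (.rf (nat_lit 1648) (nat_lit 13123711597206963264)) (.cons (.rf (nat_lit 928) (nat_lit 14303893635)) .nil)))),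
 (.br (nat_lit 6) (nat_lit 1) (.cons (.rf (nat_lit 1367) (nat_lit 14241659903536203808)) (.cons (.ev (nat_lit 79229371440084234797223772161) (nat_lit 1)) (.cons (.br (nat_lit 7) (nat_lit 0) (.cons (.rf (nat_lit 1161) (nat_lit 13119305747620175008)) (.cons (.br (nat_lit 1) (nat_lit 0) (.cons (.rf (nat_lit 1673) (nat_lit 13123711597206964256)) (.cons (.rf (nat_lit 928) (nat_lit 14303893635)) .nil))) (.cons (.rf (nat_lit 928) (nat_lit 14303893635)) .nil)))) .nil)))),
 (.br (nat_lit 5) (nat_lit 0) (.cons (.rf (nat_lit 1658) (nat_lit 14242959524133701664)) (.cons (.rf (nat_lit 1673) (nat_lit 14242959524133701664)) (.cons (.br (nat_lit 2) (nat_lit 0) (.cons (.rf (nat_lit 1675) (nat_lit 14242959524133701664)) (.cons (.br (nat_lit 6) (nat_lit 1) (.cons (.rf (nat_lit 1367) (nat_lit 14241659903536203808)) (.cons (.rf (nat_lit 1595) (nat_lit 13124767127295951936)) (.cons (.br (nat_lit 7) (nat_lit 0) (.cons (.rf (nat_lit 1444) (nat_lit 14242959524133701664)) (.cons (.br (nat_lit 2) (nat_lit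 0) (.cons (.rf (nat_lit 1675) (nat_lit 14242959524133701664)) (.cons (.rf (nat_lit 1595) (nat_lit 13118075500608422976)) (.cons (.rf (nat_lit 928) (nat_lit 14303893635)) .nil)))) (.cons (.rf (nat_lit 928) (nat_lit 14303893635)) .nil)))) .nil)))) (.cons (.rf (nat_lit 1676) (nat_lit 14242959524133701664)) (.cons (.rf (nat_lit 928) (nat_lit 14303893635)) .nil))))) (.cons (.br (nat_lit 10) (nat_lit 1) (.cons (.rf (nat_lit 1595) (nat_lit 14234968276848674848)) (.cons (.rf (nat_lit 1595) (nat_lit 14234968276848673856)) (.cons (.br (nat_lit 2) (nat_lit 0) (.cons (.rf (nat_lit 1677) (nat_lit 14242959524133701664)) (.cons (.rf (nat_lit 1678) (nat_lit 14242959524133701664)) (.cons (.br (nat_lit 2) (nat_lit 0) (.cons (.rf (nat_lit 1677) (nat_lit 14242959524133701664)) (.cons (.rf (nat_lit 1678) (nat_lit 14242959524133701664)) (.cons (.rf (nat_lit 928) (nat_lit 14303893635)) .nil)))) (.cons (.rf (nat_lit 928) (nat_lit 14303893635)) .nil))))) (.cons (.br (nat_lit 2) (nat_lit 0) (.cons (.rf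 (nat_lit 1679) (nat_lit 14242959524133701664)) (.cons (.rf (nat_lit 1680) (nat_lit 14242959524133701664)) (.cons (.br (nat_lit 2) (nat_lit 0) (.cons (.rf (nat_lit 1679) (nat_lit 14242959524133701664)) (.cons (.rf (nat_lit 1680) (nat_lit 14242959524133701664)) (.cons (.rf (nat_lit 928) (nat_lit 14303893635)) .nil)))) (.cons (.rf (nat_lit 928) (nat_lit 14303893635)) .nil))))) .nil))))) (.cons (.rf (nat_lit 928) (nat_lit 14303893635)) .nil)))))),
 (.br (nat_lit 2) (nat_lit 0) (.cons (.rf (nat_lit 1595) (nat_lit 13124767127295951936)) (.cons (.rf (nat_lit 1595) (nat_lit 14238244822568961088)) (.cons (.rf (nat_lit 1595) (nat_lit 14234968276848673856)) (.cons (.rf (nat_lit 928) (nat_lit 14303893635)) .nil))))),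
 (.br (nat_lit 1) (nat_lit 0) (.cons (.rf (nat_lit 1595) (nat_lit 13124767127295952928)) (.cons (.rf (nat_lit 1682) (nat_lit 14242959524133701664)) (.cons (.rf (nat_lit 1595) (nat_lit 14238244822568962080)) (.cons (.rf (nat_lit 1595) (nat_lit 14234968276848674848)) (.cons (.rf (nat_lit 928) (nat_lit 14303893635)) .nil)))))),
 (.br (nat_lit 7) (nat_lit 0) (.cons (.rf (nat_lit 1683) (nat_lit 14242959524133701664)) (.cons (.ev (nat_lit 79229376180969236764423094273) (nat_lit 1)) (.cons (.rf (nat_lit 928) (nat_lit 14303893635)) .nil)))),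
 (.br (nat_lit 6) (nat_lit 1) (.cons (.rf (nat_lit 1367) (nat_lit 14241659903536203808)) (.cons (.rf (nat_lit 1595) (nat_lit 13124767127295951936)) (.cons (.br (nat_lit 7) (nat_lit 0) (.cons (.rf (nat_lit 1444) (nat_lit 14242959524133701664)) (.cons (.br (nat_lit 2) (nat_lit 0) (.cons (.ev (nat_lit 72340172821299201) (nat_lit 1)) (.cons (.rf (nat_lit 928) (nat_lit 14303893635)) .nil))) (.cons (.rf (nat_lit 928) (nat_lit 14303893635)) .nil)))) .nil)))),
 (.br (nat_lit 7) (nat_lit 0) (.cons (.rf (nat_lit 1683) (nat_lit 14242959524133701664)) (.cons (.br (nat_lit 7) (nat_lit 0) (.cons (.rf (nat_lit 1683) (nat_lit 14242959524133701664)) (.cons (.rf (nat_lit 928) (nat_lit 14303893635)) .nil))) (.cons (.rf (nat_lit 928) (nat_lit 14303893635)) .nil)))),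
 (.br (nat_lit 11) (nat_lit 0) (.cons (.rf (nat_lit 1607) (nat_lit 13121522464194856000)) (.cons (.br (nat_lit 4) (nat_lit 1) (.cons (.ev (nat_lit 309489732187827942681739521) (nat_lit 1)) (.cons (.rf (nat_lit 1686) (nat_lit 14242959524133701664)) (.cons (.rf (nat_lit 1444) (nat_lit 14242959524133701664)) .nil)))) (.cons (.rf (nat_lit 1676) (nat_lit 13121522464194856992)) (.cons (.rf (nat_lit 928) (nat_lit 14303893635)) .nil))))),
 (.br (nat_lit 5) (nat_lit 0) (.cons (.rf (nat_lit 1658) (nat_lit 14242959524133701664)) (.cons (.rf (nat_lit 1673) (nat_lit 14242959524133701664)) (.cons (.rf (nat_lit 1681) (nat_lit 14242959524133701664)) (.cons (.br (nat_lit 10) (nat_lit 1) (.cons (.rf (nat_lit 1595) (nat_lit 14234968276848674848)) (.cons (.rf (nat_lit 1595) (nat_lit 14234968276848673856)) (.cons (.br (nat_lit 2) (nat_lit 0) (.cons (.rf (nat_lit 1684) (nat_lit 14242959524133701664)) (.cons (.rf (nat_lit 1685) (nat_lit 14242959524133701664)) (.cons (.br (nat_lit 2) (nat_lit 0) (.cons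 (.rf (nat_lit 1684) (nat_lit 14242959524133701664)) (.cons (.rf (nat_lit 1685) (nat_lit 14242959524133701664)) (.cons (.rf (nat_lit 928) (nat_lit 14303893635)) .nil)))) (.cons (.rf (nat_lit 928) (nat_lit 14303893635)) .nil))))) (.cons (.br (nat_lit 2) (nat_lit 0) (.cons (.rf (nat_lit 1686) (nat_lit 14242959524133701664)) (.cons (.rf (nat_lit 1687) (nat_lit 14242959524133701664)) (.cons (.br (nat_lit 2) (nat_lit 0) (.cons (.rf (nat_lit 1686) (nat_lit 14242959524133701664)) (.cons (.rf (nat_lit 1687) (nat_lit 14242959524133701664)) (.cons (.rf (nat_lit 928) (nat_lit 14303893635)) .nil)))) (.cons (.rf (nat_lit 928) (nat_lit 14303893635)) .nil))))) .nil))))) (.cons (.rf (nat_lit 928) (nat_lit 14303893635)) .nil)))))),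
 (.br (nat_lit 6) (nat_lit 1) (.cons (.rf (nat_lit 1367) (nat_lit 14241659903536203808)) (.cons (.rf (nat_lit 1595) (nat_lit 14241659903536202816)) (.cons (.rf (nat_lit 1595) (nat_lit 13124767127295951936)) (.cons (.br (nat_lit 5) (nat_lit 0) (.cons (.rf (nat_lit 1673) (nat_lit 14241864407335502912)) (.cons (.rf (nat_lit 1681) (nat_lit 14241864407335502912)) (.cons (.rf (nat_lit 1658) (nat_lit 14241864407335502912)) (.cons (.br (nat_lit 5) (nat_lit 0) (.cons (.rf (nat_lit 1673) (nat_lit 14241864407335502912)) (.cons (.rf (nat_lit 1681) (nat_lit 14241864407335502912)) (.cons (.rf (nat_lit 1658) (nat_lit 14241864407335502912)) (.cons (.rf (nat_lit 1688) (nat_lit 14241864407335502912)) (.cons (.rf (nat_lit 928) (nat_lit 14303893635)) .nil)))))) (.cons (.rf (nat_lit 1688) (nat_lit 14241864407335502912)) (.cons (.rf (nat_lit 928) (nat_lit 14303893635)) .nil))))))) .nil))))),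
 (.br (nat_lit 2) (nat_lit 0) (.cons (.rf (nat_lit 1689) (nat_lit 14242959524133701664)) (.cons (.br (nat_lit 7) (nat_lit 0) (.cons (.rf (nat_lit 1558) (nat_lit 13121351943249495200)) (.cons (.rf (nat_lit 928) (nat_lit 14303893635)) .nil))) (.cons (.rf (nat_lit 928) (nat_lit 14303893635)) .nil)))),
 (.br (nat_lit 2) (nat_lit 0) (.cons (.rf (nat_lit 1689) (nat_lit 14242959524133701664)) (.cons (.rf (nat_lit 1690) (nat_lit 14242959524133701664)) (.cons (.br (nat_lit 2) (nat_lit 0) (.cons (.rf (nat_lit 1689) (nat_lit 14242959524133701664)) (.cons (.rf (nat_lit 1690) (nat_lit 14242959524133701664)) (.cons (.rf (nat_lit 928) (nat_lit 14303893635)) .nil)))) (.cons (.rf (nat_lit 928) (nat_lit 14303893635)) .nil))))),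
 (.br (nat_lit 11) (nat_lit 0) (.cons (.rf (nat_lit 1691) (nat_lit 14242959524133701664)) (.cons (.br (nat_lit 6) (nat_lit 1) (.cons (.rf (nat_lit 1689) (nat_lit 14242959524133700672)) (.cons (.rf (nat_lit 1689) (nat_lit 14242959524133701664)) (.cons (.br (nat_lit 10) (nat_lit 1) (.cons (.ev (nat_lit 1213666632841572546248961) (nat_lit 1)) (.cons (.br (nat_lit 7) (nat_lit 0) (.cons (.rf (nat_lit 1578) (nat_lit 13121351908889757856)) (.cons (.rf (nat_lit 928) (nat_lit 14303893635)) .nil))) (.cons (.rf (nat_lit 1652) (nat_lit 14242925437127854112)) .nil)))) (.cons (.kr (nat_lit 281474976710656) (nat_lit 309485009821345068724781056) (nat_lit 6) (nat_lit 0)) .nil))))) (.cons (.br (nat_lit 2) (nat_lit 0) (.cons (.rf (nat_lit 1689) (nat_lit 13121522464194856992)) (.cons (.rf (nat_lit 1689) (nat_lit 14242959524133701664)) (.cons (.rf (nat_lit 1648) (nat_lit 13119101346028717120)) (.cons (.rf (nat_lit 928) (nat_lit 14303893635)) .nil))))) (.cons (.rf (nat_lit 928) (nat_lit 14303893635))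 .nil))))),
 (.br (nat_lit 1) (nat_lit 0) (.cons (.br (nat_lit 11) (nat_lit 0) (.cons (.rf (nat_lit 1692) (nat_lit 14242959524133701664)) (.cons (.ev (nat_lit 79538856468352041369464733953) (nat_lit 1)) (.cons (.rf (nat_lit 928) (nat_lit 14303893635)) .nil)))) (.cons (.rf (nat_lit 1689) (nat_lit 14242959524133700672)) (.cons (.ev (nat_lit 1213666632841572546248961) (nat_lit 1)) (.cons (.rf (nat_lit 928) (nat_lit 14303893635)) .nil))))),
 (.br (nat_lit 2) (nat_lit 0) (.cons (.rf (nat_lit 1648) (nat_lit 13123711597206963264)) (.cons (.rf (nat_lit 1689) (nat_lit 14242959524133701664)) (.cons (.rf (nat_lit 1648) (nat_lit 14238244822568961088)) (.cons (.br (nat_lit 1) (nat_lit 0) (.cons (.rf (nat_lit 1648) (nat_lit 13123711597206964256)) (.cons (.rf (nat_lit 1689) (nat_lit 14242959524133700672)) (.cons (.rf (nat_lit 1648) (nat_lit 14238244822568962080)) (.cons (.rf (nat_lit 928) (nat_lit 14303893635)) .nil))))) (.cons (.rf (nat_lit 928) (nat_lit 14303893635)) .nil)))))),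
 (.br (nat_lit 2) (nat_lit 0) (.cons (.rf (nat_lit 1648) (nat_lit 13123711597206963264)) (.cons (.rf (nat_lit 1689) (nat_lit 14242959524133701664)) (.cons (.rf (nat_lit 1694) (nat_lit 14242959524133701664)) (.cons (.rf (nat_lit 1648) (nat_lit 14238244822568961088)) (.cons (.br (nat_lit 2) (nat_lit 0) (.cons (.rf (nat_lit 1648) (nat_lit 13123711597206963264)) (.cons (.rf (nat_lit 1689) (nat_lit 14242959524133701664)) (.cons (.rf (nat_lit 1694) (nat_lit 14242959524133701664)) (.cons (.rf (nat_lit 1648) (nat_lit 14238244822568961088)) (.cons (.rf (nat_lit 928) (nat_lit 14303893635)) .nil)))))) (.cons (.rf (nat_lit 928) (nat_lit 14303893635)) .nil)))))))]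

theorem c56 : chkAll C T R L56 (nat_lit 1667) = true := by decide +kernel

theorem l56 : (nat_lit 1667) + L56.length = (nat_lit 1696) := by decide +kernel

/-- part of the certificates -/
def L57 : List Prf := [(.br (nat_lit 9) (nat_lit 1) (.cons (.rf (nat_lit 1595) (nat_lit 14238244822568962080)) (.cons (.rf (nat_lit 1595) (nat_lit 14238244822568961088)) (.cons (.br (nat_lit 11) (nat_lit 0) (.cons (.rf (nat_lit 1691) (nat_lit 14242959524133701664)) (.cons (.rf (nat_lit 1692) (nat_lit 14242959524133701664)) (.cons (.rf (nat_lit 1693) (nat_lit 14242959524133701664)) (.cons (.br (nat_lit 11) (nat_lit 0) (.cons (.rf (nat_lit 1691) (nat_lit 14242959524133701664)) (.cons (.rf (nat_lit 1692) (nat_lit 14242959524133701664)) (.cons (.rf (nat_lit 1693) (nat_lit 14242959524133701664)) (.cons (.rf (nat_lit 928) (nat_lit 14303893635)) .nil))))) (.cons (.rf (nat_lit 928) (nat_lit 14303893635)) .nil)))))) (.cons (.rf (nat_lit 1695) (nat_lit 14242959524133701664)) .nil))))),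
 (.br (nat_lit 12) (nat_lit 0) (.cons (.rf (nat_lit 1648) (nat_lit 14242959524133701664)) (.cons (.rf (nat_lit 1689) (nat_lit 14241864407335502912)) (.cons (.br (nat_lit 9) (nat_lit 1) (.cons (.rf (nat_lit 1676) (nat_lit 14241864407335502912)) (.cons (.rf (nat_lit 1676) (nat_lit 14241864407335503904)) (.cons (.rf (nat_lit 1696) (nat_lit 14242959524133701664)) (.cons (.br (nat_lit 9) (nat_lit 1) (.cons (.rf (nat_lit 1595) (nat_lit 13121352046328711200)) (.cons (.rf (nat_lit 1595) (nat_lit 13121352046328710208)) (.cons (.rf (nat_lit 1696) (nat_lit 14242959524133701664)) (.cons (.rf (nat_lit 1695) (nat_lit 14242959524133701664)) .nil))))) (.cons (.rf (nat_lit 1695) (nat_lit 14242959524133701664)) .nil)))))) (.cons (.rf (nat_lit 928) (nat_lit 14303893635)) .nil))))),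
 (.br (nat_lit 8) (nat_lit 1) (.cons (.rf (nat_lit 1367) (nat_lit 14235994122268968992)) (.cons (.rf (nat_lit 1595) (nat_lit 13119101346028717120)) (.cons (.br (nat_lit 1) (nat_lit 0) (.cons (.rf (nat_lit 1015) (nat_lit 14026786570288334176)) (.cons (.br (nat_lit 7) (nat_lit 0) (.cons (.ev (nat_lit 4722366482873940181249) (nat_lit 1)) (.cons (.rf (nat_lit 928) (nat_lit 14303893635)) .nil))) (.cons (.rf (nat_lit 928) (nat_lit 14303893635)) .nil)))) .nil)))),
 (.br (nat_lit 11) (nat_lit 0) (.cons (.rf (nat_lit 1689) (nat_lit 13118075500608423968)) (.cons (.kr (nat_lit 281474976710656) (nat_lit 309485009821345068724781056) (nat_lit 6) (nat_lit 0)) (.cons (.rf (nat_lit 1689) (nat_lit 13123711597206964256)) (.cons (.rf (nat_lit 928) (nat_lit 14303893635)) .nil))))),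
 (.br (nat_lit 11) (nat_lit 0) (.cons (.rf (nat_lit 1699) (nat_lit 14242959524133701664)) (.cons (.rf (nat_lit 1697) (nat_lit 13121522464194856000)) (.cons (.rf (nat_lit 928) (nat_lit 14303893635)) .nil)))),
 (.br (nat_lit 11) (nat_lit 0) (.cons (.br (nat_lit 9) (nat_lit 1) (.cons (.rf (nat_lit 1601) (nat_lit 444874816322012224)) (.cons (.kr (nat_lit 18446744078004518912) (nat_lit 4722366764344621924352) (nat_lit 4) (nat_lit 0)) (.cons (.kr (nat_lit 4722366764344621924352) (nat_lit 79537647524085682662268731392) (nat_lit 6) (nat_lit 0)) .nil)))) (.cons (.rf (nat_lit 1689) (nat_lit 13118007329814808608)) (.cons (.rf (nat_lit 1676) (nat_lit 13123711597206964256)) (.cons (.rf (nat_lit 928) (nat_lit 14303893635)) .nil))))),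
 (.br (nat_lit 11) (nat_lit 0) (.cons (.br (nat_lit 7) (nat_lit 0) (.cons (.kr (nat_lit 281474976710656) (nat_lit 309485009821345068724781056) (nat_lit 6) (nat_lit 0)) (.cons (.kr (nat_lit 18446744078004518912) (nat_lit 79537647524085682662268731392) (nat_lit 4) (nat_lit 0)) (.cons (.br (nat_lit 7) (nat_lit 0) (.cons (.kr (nat_lit 281474976710656) (nat_lit 309485009821345068724781056) (nat_lit 6) (nat_lit 0)) (.cons (.kr (nat_lit 18446744078004518912) (nat_lit 79537647524085682662268731392) (nat_lit 4) (nat_lit 0)) (.cons (.rf (nat_lit 928) (nat_lit 14303893635)) .nil)))) (.cons (.rf (nat_lit 928) (nat_lit 14303893635)) .nil))))) (.cons (.rf (nat_lit 1697) (nat_lit 13121522464194856000)) (.cons (.rf (nat_lit 928) (nat_lit 14303893635)) .nil)))),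
 (.br (nat_lit 11) (nat_lit 0) (.cons (.rf (nat_lit 1697) (nat_lit 13118007329814807616)) (.cons (.rf (nat_lit 928) (nat_lit 14303893635)) .nil))),
 (.br (nat_lit 6) (nat_lit 1) (.cons (.rf (nat_lit 1367) (nat_lit 14241659903536203808)) (.cons (.rf (nat_lit 1595) (nat_lit 13124767127295951936)) (.cons (.br (nat_lit 2) (nat_lit 0) (.cons (.rf (nat_lit 1702) (nat_lit 14242959524133701664)) (.cons (.rf (nat_lit 1703) (nat_lit 14242959524133701664)) (.cons (.rf (nat_lit 928) (nat_lit 14303893635)) .nil)))) .nil)))),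
 (.br (nat_lit 11) (nat_lit 0) (.cons (.rf (nat_lit 1702) (nat_lit 14242959524133701664)) (.cons (.rf (nat_lit 1697) (nat_lit 13121522464194856000)) (.cons (.rf (nat_lit 928) (nat_lit 14303893635)) .nil)))),
 (.br (nat_lit 6) (nat_lit 1) (.cons (.rf (nat_lit 1595) (nat_lit 13124767127295952928)) (.cons (.rf (nat_lit 1595) (nat_lit 13124767127295951936)) (.cons (.kr (nat_lit 281474976710656) (nat_lit 309485009821345068724781056) (nat_lit 6) (nat_lit 0)) .nil)))),
 (.br (nat_lit 11) (nat_lit 0) (.cons (.kr (nat_lit 4740813226947649732608) (nat_lit 158765810038350020255812681728) (nat_lit 4) (nat_lit 0)) (.cons (.br (nat_lit 6) (nat_lit 1) (.cons (.rf (nat_lit 1676) (nat_lit 13121522464194856000)) (.cons (.rf (nat_lit 1676) (nat_lit 13121522464194856992)) (.cons (.rf (nat_lit 1706) (nat_lit 14242959524133701664)) .nil)))) (.cons (.rf (nat_lit 928) (nat_lit 14303893635)) .nil)))),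
 (.br (nat_lit 8) (nat_lit 1) (.cons (.rf (nat_lit 1367) (nat_lit 14235994122268968992)) (.cons (.rf (nat_lit 1595) (nat_lit 14235994122268968000)) (.cons (.rf (nat_lit 1595) (nat_lit 13119101346028717120)) (.cons (.kr (nat_lit 18446744078004518912) (nat_lit 79228162514264619068520660992) (nat_lit 4) (nat_lit 0)) .nil))))),
 (.br (nat_lit 2) (nat_lit 0) (.cons (.br (nat_lit 2) (nat_lit 0) (.cons (.rf (nat_lit 1708) (nat_lit 14242959524133701664)) (.cons (.rf (nat_lit 1702) (nat_lit 14242959524133701664)) (.cons (.rf (nat_lit 928) (nat_lit 14303893635)) .nil)))) (.cons (.br (nat_lit 2) (nat_lit 0) (.cons (.rf (nat_lit 1708) (nat_lit 14242959524133701664)) (.cons (.rf (nat_lit 1702) (nat_lit 14242959524133701664)) (.cons (.rf (nat_lit 928) (nat_lit 14303893635)) .nil)))) (.cons (.rf (nat_lit 1702) (nat_lit 14242959524133701664)) (.cons (.rf (nat_lit 928) (nat_lit 14303893635)) .nil))))),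
 (.br (nat_lit 11) (nat_lit 0) (.cons (.rf (nat_lit 1709) (nat_lit 14242959524133701664)) (.cons (.br (nat_lit 1) (nat_lit 0) (.cons (.br (nat_lit 6) (nat_lit 1) (.cons (.rf (nat_lit 1367) (nat_lit 14241659903536203808)) (.cons (.rf (nat_lit 1595) (nat_lit 13124767127295952928)) .nil))) (.cons (.kr (nat_lit 1208925819614629191483392) (nat_lit 18446744078004518912) (nat_lit 3) (nat_lit 0)) (.cons (.rf (nat_lit 928) (nat_lit 14303893635)) .nil)))) (.cons (.rf (nat_lit 928) (nat_lit 14303893635)) .nil)))),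
 (.br (nat_lit 8) (nat_lit 1) (.cons (.rf (nat_lit 1367) (nat_lit 14235994122268968992)) (.cons (.rf (nat_lit 1595) (nat_lit 14235994122268968000)) (.cons (.rf (nat_lit 1595) (nat_lit 13119101346028717120)) (.cons (.br (nat_lit 5) (nat_lit 0) (.cons (.br (nat_lit 3) (nat_lit 1) (.cons (.rf (nat_lit 1595) (nat_lit 14242959524133701664)) (.cons (.rf (nat_lit 1595) (nat_lit 14242959524133700672)) (.cons (.br (nat_lit 1) (nat_lit 0) (.cons (.br (nat_lit 1) (nat_lit 0) (.cons (.rf (nat_lit 1704) (nat_lit 14236198627140961344)) (.cons (.rf (nat_lit 1705) (nat_lit 14236198627140961344)) (.cons (.rf (nat_lit 928) (nat_lit 14303893635)) .nil)))) (.cons (.rf (nat_lit 1704) (nat_lit 14236198627140961344)) (.cons (.rf (nat_lit 1705) (nat_lit 14236198627140961344)) (.cons (.rf (nat_lit 928) (nat_lit 14303893635)) .nil))))) (.cons (.br (nat_lit 7) (nat_lit 0) (.cons (.br (nat_lit 7) (nat_lit 0) (.cons (.rf (nat_lit 1706) (nat_lit 14236198627140962336)) (.cons (.rf (nat_lit 1707) (nat_lit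 14236198627140962336)) (.cons (.rf (nat_lit 928) (nat_lit 14303893635)) .nil)))) (.cons (.rf (nat_lit 1706) (nat_lit 14236198627140962336)) (.cons (.rf (nat_lit 1707) (nat_lit 14236198627140962336)) (.cons (.rf (nat_lit 928) (nat_lit 14303893635)) .nil))))) .nil))))) (.cons (.br (nat_lit 11) (nat_lit 0) (.cons (.rf (nat_lit 1710) (nat_lit 14236198627140961344)) (.cons (.rf (nat_lit 1709) (nat_lit 14236198627140961344)) (.cons (.br (nat_lit 11) (nat_lit 0) (.cons (.rf (nat_lit 1710) (nat_lit 14236198627140961344)) (.cons (.rf (nat_lit 1709) (nat_lit 14236198627140961344)) (.cons (.rf (nat_lit 928) (nat_lit 14303893635)) .nil)))) (.cons (.rf (nat_lit 928) (nat_lit 14303893635)) .nil))))) (.cons (.br (nat_lit 6) (nat_lit 1) (.cons (.rf (nat_lit 1595) (nat_lit 14241659903536203808)) (.cons (.rf (nat_lit 1595) (nat_lit 14241659903536202816)) (.cons (.br (nat_lit 1) (nat_lit 0) (.cons (.rf (nat_lit 1698) (nat_lit 14236198627140961344)) (.cons (.br (nat_lit 1) (nat_lit 0) (.cons (.rf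 (nat_lit 1698) (nat_lit 14236198627140961344)) (.cons (.rf (nat_lit 1700) (nat_lit 14236198627140961344)) (.cons (.rf (nat_lit 928) (nat_lit 14303893635)) .nil)))) (.cons (.rf (nat_lit 1700) (nat_lit 14236198627140961344)) (.cons (.rf (nat_lit 928) (nat_lit 14303893635)) .nil))))) (.cons (.br (nat_lit 1) (nat_lit 0) (.cons (.rf (nat_lit 1701) (nat_lit 14236198627140961344)) (.cons (.br (nat_lit 1) (nat_lit 0) (.cons (.rf (nat_lit 1701) (nat_lit 14236198627140961344)) (.cons (.rf (nat_lit 1702) (nat_lit 14236198627140961344)) (.cons (.rf (nat_lit 928) (nat_lit 14303893635)) .nil)))) (.cons (.rf (nat_lit 1702) (nat_lit 14236198627140961344)) (.cons (.rf (nat_lit 928) (nat_lit 14303893635)) .nil))))) .nil))))) (.cons (.kr (nat_lit 4722366482869645213696) (nat_lit 79228162514264337593543950336) (nat_lit 9) (nat_lit 0)) (.cons (.rf (nat_lit 928) (nat_lit 14303893635)) .nil)))))) .nil))))),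
 (.br (nat_lit 11) (nat_lit 0) (.cons (.ev (nat_lit 79537652246452448110714028033) (nat_lit 1)) (.cons (.rf (nat_lit 1689) (nat_lit 13121522464194856992)) (.cons (.rf (nat_lit 928) (nat_lit 14303893635)) .nil)))),
 (.br (nat_lit 7) (nat_lit 0) (.cons (.ev (nat_lit 4740885284541704437761) (nat_lit 1)) (.cons (.br (nat_lit 1) (nat_lit 0) (.cons (.kr (nat_lit 79230580365903566851910140160) (nat_lit 4740885284545982627840) (nat_lit 1) (nat_lit 0)) (.cons (.rf (nat_lit 928) (nat_lit 14303893635)) .nil))) (.cons (.rf (nat_lit 928) (nat_lit 14303893635)) .nil)))),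
 (.br (nat_lit 6) (nat_lit 1) (.cons (.rf (nat_lit 1595) (nat_lit 14241659903536203808)) (.cons (.rf (nat_lit 1595) (nat_lit 14241659903536202816)) (.cons (.br (nat_lit 5) (nat_lit 0) (.cons (.rf (nat_lit 1711) (nat_lit 14236198627140961344)) (.cons (.br (nat_lit 8) (nat_lit 1) (.cons (.rf (nat_lit 1595) (nat_lit 14235994122268968992)) (.cons (.rf (nat_lit 1595) (nat_lit 14235994122268968000)) (.cons (.br (nat_lit 10) (nat_lit 1) (.cons (.rf (nat_lit 1526) (nat_lit 14236198421049641120)) (.cons (.rf (nat_lit 1526) (nat_lit 14236198455409378464)) (.cons (.br (nat_lit 2) (nat_lit 0) (.cons (.rf (nat_lit 1697) (nat_lit 13123711597206963264)) (.cons (.rf (nat_lit 1697) (nat_lit 13121522464194856000)) (.cons (.rf (nat_lit 928) (nat_lit 14303893635)) .nil)))) .nil)))) (.cons (.br (nat_lit 2) (nat_lit 0) (.cons (.br (nat_lit 2) (nat_lit 0) (.cons (.rf (nat_lit 1699) (nat_lit 14242959524133701664)) (.cons (.rf (nat_lit 1513) (nat_lit 13911939247811861856)) (.cons (.rf (nat_lit 928)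 (nat_lit 14303893635)) .nil)))) (.cons (.rf (nat_lit 1699) (nat_lit 14242959524133701664)) (.cons (.rf (nat_lit 1578) (nat_lit 14241864235536811232)) (.cons (.rf (nat_lit 928) (nat_lit 14303893635)) .nil))))) .nil))))) (.cons (.kr (nat_lit 4722366482869645213696) (nat_lit 79228162514264337593543950336) (nat_lit 9) (nat_lit 0)) (.cons (.br (nat_lit 11) (nat_lit 0) (.cons (.br (nat_lit 2) (nat_lit 0) (.cons (.rf (nat_lit 1711) (nat_lit 14242959524133701664)) (.cons (.br (nat_lit 1) (nat_lit 0) (.cons (.rf (nat_lit 1711) (nat_lit 14242959524133700672)) (.cons (.rf (nat_lit 928) (nat_lit 14303893635)) .nil))) (.cons (.rf (nat_lit 928) (nat_lit 14303893635)) .nil)))) (.cons (.br (nat_lit 2) (nat_lit 0) (.cons (.br (nat_lit 9) (nat_lit 1) (.cons (.rf (nat_lit 1699) (nat_lit 14242959524133700672)) (.cons (.rf (nat_lit 1699) (nat_lit 14242959524133701664)) (.cons (.rf (nat_lit 1036) (nat_lit 14241864235402599584)) (.cons (.rf (nat_lit 1648) (nat_lit 13123711597206963264)) .nil)))))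 (.cons (.rf (nat_lit 1711) (nat_lit 14242959524133701664)) (.cons (.rf (nat_lit 1699) (nat_lit 14242959524133701664)) (.cons (.rf (nat_lit 928) (nat_lit 14303893635)) .nil))))) (.cons (.br (nat_lit 2) (nat_lit 0) (.cons (.rf (nat_lit 1648) (nat_lit 13123711597206963264)) (.cons (.rf (nat_lit 1711) (nat_lit 14242959524133701664)) (.cons (.rf (nat_lit 928) (nat_lit 14303893635)) .nil)))) (.cons (.rf (nat_lit 928) (nat_lit 14303893635)) .nil))))) (.cons (.rf (nat_lit 928) (nat_lit 14303893635)) .nil)))))) (.cons (.br (nat_lit 5) (nat_lit 0) (.cons (.rf (nat_lit 1711) (nat_lit 14236198627140961344)) (.cons (.br (nat_lit 8) (nat_lit 1) (.cons (.rf (nat_lit 1595) (nat_lit 14235994122268968992)) (.cons (.rf (nat_lit 1595) (nat_lit 14235994122268968000)) (.cons (.br (nat_lit 2) (nat_lit 0) (.cons (.rf (nat_lit 1712) (nat_lit 14242959524133701664)) (.cons (.rf (nat_lit 1713) (nat_lit 14242959524133701664)) (.cons (.br (nat_lit 2) (nat_lit 0) (.cons (.rf (nat_lit 1712) (nat_lit 14242959524133701664))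 (.cons (.rf (nat_lit 1713) (nat_lit 14242959524133701664)) (.cons (.rf (nat_lit 928) (nat_lit 14303893635)) .nil)))) (.cons (.rf (nat_lit 928) (nat_lit 14303893635)) .nil))))) (.cons (.br (nat_lit 7) (nat_lit 0) (.cons (.kr (nat_lit 18446744078004518912) (nat_lit 79537647524085682662268731392) (nat_lit 4) (nat_lit 0)) (.cons (.kr (nat_lit 4722366764344621924352) (nat_lit 79537647524085682662268731392) (nat_lit 6) (nat_lit 0)) (.cons (.br (nat_lit 1) (nat_lit 0) (.cons (.kr (nat_lit 1208925819896104168194048) (nat_lit 309485028268089146729299968) (nat_lit 3) (nat_lit 0)) (.cons (.kr (nat_lit 1208925819614629191483392) (nat_lit 309489732187827938369994752) (nat_lit 3) (nat_lit 0)) (.cons (.rf (nat_lit 928) (nat_lit 14303893635)) .nil)))) (.cons (.rf (nat_lit 928) (nat_lit 14303893635)) .nil))))) .nil))))) (.cons (.kr (nat_lit 4722366482869645213696) (nat_lit 79228162514264337593543950336) (nat_lit 9) (nat_lit 0)) (.cons (.br (nat_lit 1) (nat_lit 0) (.cons (.br (nat_lit 2) (nat_lit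 0) (.cons (.rf (nat_lit 1711) (nat_lit 14242959524133701664)) (.cons (.br (nat_lit 2) (nat_lit 0) (.cons (.rf (nat_lit 1711) (nat_lit 14242959524133701664)) (.cons (.rf (nat_lit 928) (nat_lit 14303893635)) .nil))) (.cons (.rf (nat_lit 928) (nat_lit 14303893635)) .nil)))) (.cons (.rf (nat_lit 1711) (nat_lit 14242959524133700672)) (.cons (.kr (nat_lit 1208925819614629191483392) (nat_lit 4722366764344621924352) (nat_lit 3) (nat_lit 0)) (.cons (.rf (nat_lit 928) (nat_lit 14303893635)) .nil))))) (.cons (.rf (nat_lit 928) (nat_lit 14303893635)) .nil)))))) .nil))))),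
 (.br (nat_lit 11) (nat_lit 0) (.cons (.br (nat_lit 11) (nat_lit 0) (.cons (.rf (nat_lit 1648) (nat_lit 13123711597206963264)) (.cons (.rf (nat_lit 928) (nat_lit 14303893635)) .nil))) (.cons (.rf (nat_lit 1648) (nat_lit 13123711597206963264)) (.cons (.rf (nat_lit 928) (nat_lit 14303893635)) .nil)))),
 (.br (nat_lit 2) (nat_lit 0) (.cons (.rf (nat_lit 1715) (nat_lit 14242959524133701664)) (.cons (.br (nat_lit 7) (nat_lit 0) (.cons (.ev (nat_lit 4740885284541704437761) (nat_lit 1)) (.cons (.rf (nat_lit 1595) (nat_lit 13124767127295951936)) (.cons (.rf (nat_lit 928) (nat_lit 14303893635)) .nil)))) (.cons (.rf (nat_lit 928) (nat_lit 14303893635)) .nil)))),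
 (.br (nat_lit 4) (nat_lit 1) (.cons (.kr (nat_lit 1208925819614629191483392) (nat_lit 18446744078004518912) (nat_lit 3) (nat_lit 0)) (.cons (.rf (nat_lit 1642) (nat_lit 14242959524133701664)) (.cons (.br (nat_lit 1) (nat_lit 0) (.cons (.rf (nat_lit 1367) (nat_lit 14241659903536203808)) (.cons (.rf (nat_lit 1682) (nat_lit 14242925437127854112)) (.cons (.rf (nat_lit 928) (nat_lit 14303893635)) .nil)))) (.cons (.rf (nat_lit 1676) (nat_lit 13121352046328711200)) .nil))))),
 (.br (nat_lit 5) (nat_lit 0) (.cons (.rf (nat_lit 1711) (nat_lit 14236198627140961344)) (.cons (.rf (nat_lit 1714) (nat_lit 14242959524133701664)) (.cons (.kr (nat_lit 4722366482869645213696) (nat_lit 79228162514264337593543950336) (nat_lit 9) (nat_lit 0)) (.cons (.br (nat_lit 8) (nat_lit 1) (.cons (.rf (nat_lit 1595) (nat_lit 14235994122268968992)) (.cons (.rf (nat_lit 1595) (nat_lit 14235994122268968000)) (.cons (.br (nat_lit 2) (nat_lit 0) (.cons (.rf (nat_lit 1715) (nat_lit 14242959524133701664)) (.cons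 (.rf (nat_lit 1716) (nat_lit 14242959524133701664)) (.cons (.br (nat_lit 2) (nat_lit 0) (.cons (.rf (nat_lit 1715) (nat_lit 14242959524133701664)) (.cons (.rf (nat_lit 1716) (nat_lit 14242959524133701664)) (.cons (.rf (nat_lit 928) (nat_lit 14303893635)) .nil)))) (.cons (.rf (nat_lit 928) (nat_lit 14303893635)) .nil))))) (.cons (.br (nat_lit 2) (nat_lit 0) (.cons (.rf (nat_lit 1642) (nat_lit 14242959524133701664)) (.cons (.rf (nat_lit 1717) (nat_lit 14242959524133701664)) (.cons (.br (nat_lit 2) (nat_lit 0) (.cons (.rf (nat_lit 1642) (nat_lit 14242959524133701664)) (.cons (.rf (nat_lit 1717) (nat_lit 14242959524133701664)) (.cons (.rf (nat_lit 928) (nat_lit 14303893635)) .nil)))) (.cons (.rf (nat_lit 928) (nat_lit 14303893635)) .nil))))) .nil))))) (.cons (.rf (nat_lit 928) (nat_lit 14303893635)) .nil)))))),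
 (.br (nat_lit 12) (nat_lit 0) (.cons (.rf (nat_lit 1648) (nat_lit 14242959524133701664)) (.cons (.rf (nat_lit 1689) (nat_lit 14241864407335502912)) (.cons (.br (nat_lit 5) (nat_lit 0) (.cons (.rf (nat_lit 1711) (nat_lit 14236198627140961344)) (.cons (.rf (nat_lit 1714) (nat_lit 14242959524133701664)) (.cons (.rf (nat_lit 1718) (nat_lit 14242959524133701664)) (.cons (.kr (nat_lit 4722366482869645213696) (nat_lit 79228162514264337593543950336) (nat_lit 9) (nat_lit 0)) (.cons (.br (nat_lit 5) (nat_lit 0) (.cons (.rf (nat_lit 1711) (nat_lit 14236198627140961344)) (.cons (.rf (nat_lit 1714) (nat_lit 14242959524133701664)) (.cons (.rf (nat_lit 1718) (nat_lit 14242959524133701664)) (.cons (.kr (nat_lit 4722366482869645213696) (nat_lit 79228162514264337593543950336) (nat_lit 9) (nat_lit 0)) (.cons (.rf (nat_lit 928) (nat_lit 14303893635)) .nil)))))) (.cons (.rf (nat_lit 928) (nat_lit 14303893635)) .nil))))))) (.cons (.rf (nat_lit 928) (nat_lit 14303893635)) .nil)))))]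

theorem c57 : chkAll C T R L57 (nat_lit 1696) = true := by decide +kernel

theorem l57 : (nat_lit 1696) + L57.length = (nat_lit 1720) := by decide +kernel

/-- part of the certificates -/
def L58 : List Prf := [(.br (nat_lit 12) (nat_lit 0) (.cons (.rf (nat_lit 1648) (nat_lit 14242959524133701664)) (.cons (.rf (nat_lit 1697) (nat_lit 14242959524133701664)) (.cons (.rf (nat_lit 1719) (nat_lit 14242959524133701664)) (.cons (.br (nat_lit 12) (nat_lit 0) (.cons (.rf (nat_lit 1648) (nat_lit 14242959524133701664)) (.cons (.rf (nat_lit 1697) (nat_lit 14242959524133701664)) (.cons (.rf (nat_lit 1719) (nat_lit 14242959524133701664)) (.cons (.rf (nat_lit 928) (nat_lit 14303893635)) .nil))))) (.cons (.rf (nat_lit 928) (nat_lit 14303893635)) .nil)))))),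
 (.br (nat_lit 11) (nat_lit 0) (.cons (.rf (nat_lit 1720) (nat_lit 13118075500608423968)) (.cons (.rf (nat_lit 1720) (nat_lit 13118007329814808608)) (.cons (.rf (nat_lit 928) (nat_lit 14303893635)) .nil)))),
 (.br (nat_lit 11) (nat_lit 0) (.cons (.rf (nat_lit 1721) (nat_lit 14242959524133700672)) (.cons (.rf (nat_lit 1720) (nat_lit 13118075500608422976)) (.cons (.rf (nat_lit 1720) (nat_lit 13118007329814807616)) (.cons (.rf (nat_lit 928) (nat_lit 14303893635)) .nil))))),
 (.br (nat_lit 4) (nat_lit 1) (.cons (.rf (nat_lit 1595) (nat_lit 14240604373447215136)) (.cons (.rf (nat_lit 1595) (nat_lit 14240604373447214144)) (.cons (.br (nat_lit 5) (nat_lit 0) (.cons (.br (nat_lit 6) (nat_lit 1) (.cons (.rf (nat_lit 1595) (nat_lit 14241659903536203808)) (.cons (.rf (nat_lit 1595) (nat_lit 14241659903536202816)) (.cons (.br (nat_lit 10) (nat_lit 1) (.cons (.ev (nat_lit 1208925891954802012717313) (nat_lit 1)) (.cons (.rf (nat_lit 1722) (nat_lit 14242959524133701664)) (.cons (.br (nat_lit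 2) (nat_lit 0) (.cons (.rf (nat_lit 1720) (nat_lit 13119305850900710464)) (.cons (.rf (nat_lit 1720) (nat_lit 13121522464194856000)) (.cons (.rf (nat_lit 928) (nat_lit 14303893635)) .nil)))) .nil)))) (.cons (.br (nat_lit 1) (nat_lit 0) (.cons (.rf (nat_lit 1720) (nat_lit 13119101346028718112)) (.cons (.kr (nat_lit 79228162514264337593560727552) (nat_lit 4722366764344621924352) (nat_lit 3) (nat_lit 0)) (.cons (.rf (nat_lit 1722) (nat_lit 14242959524133700672)) (.cons (.rf (nat_lit 928) (nat_lit 14303893635)) .nil))))) .nil))))) (.cons (.br (nat_lit 2) (nat_lit 0) (.cons (.rf (nat_lit 1711) (nat_lit 14240740706452899872)) (.cons (.br (nat_lit 11) (nat_lit 0) (.cons (.rf (nat_lit 1703) (nat_lit 14241864407335503904)) (.cons (.rf (nat_lit 1720) (nat_lit 13121522464194856000)) (.cons (.rf (nat_lit 928) (nat_lit 14303893635)) .nil)))) (.cons (.rf (nat_lit 1722) (nat_lit 14242959524133701664)) (.cons (.rf (nat_lit 928) (nat_lit 14303893635)) .nil))))) (.cons (.br (nat_lit 1) (nat_lit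 0) (.cons (.rf (nat_lit 1708) (nat_lit 14240740706452898880)) (.cons (.br (nat_lit 11) (nat_lit 0) (.cons (.rf (nat_lit 1720) (nat_lit 13119101346028718112)) (.cons (.rf (nat_lit 1720) (nat_lit 13119305850900711456)) (.cons (.rf (nat_lit 928) (nat_lit 14303893635)) .nil)))) (.cons (.rf (nat_lit 1722) (nat_lit 14242959524133700672)) (.cons (.rf (nat_lit 928) (nat_lit 14303893635)) .nil))))) (.cons (.kr (nat_lit 1208925819614629174706176) (nat_lit 79228162514264337593543950336) (nat_lit 10) (nat_lit 0)) (.cons (.rf (nat_lit 928) (nat_lit 14303893635)) .nil)))))) (.cons (.br (nat_lit 1) (nat_lit 0) (.cons (.br (nat_lit 5) (nat_lit 0) (.cons (.rf (nat_lit 1595) (nat_lit 14241659903536203808)) (.cons (.rf (nat_lit 1711) (nat_lit 14240740706452898880)) (.cons (.rf (nat_lit 1708) (nat_lit 14240740706452898880)) (.cons (.kr (nat_lit 1208925819614629174706176) (nat_lit 79228162514264337593543950336) (nat_lit 10) (nat_lit 0)) (.cons (.rf (nat_lit 928) (nat_lit 14303893635)) .nil))))))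 (.cons (.kr (nat_lit 79228162514264337593560727552) (nat_lit 18446744078004518912) (nat_lit 3) (nat_lit 0)) (.cons (.rf (nat_lit 1720) (nat_lit 13121352046328711200)) (.cons (.br (nat_lit 11) (nat_lit 0) (.cons (.br (nat_lit 2) (nat_lit 0) (.cons (.rf (nat_lit 1720) (nat_lit 14241864407335502912)) (.cons (.rf (nat_lit 1720) (nat_lit 13119101346028717120)) (.cons (.rf (nat_lit 1720) (nat_lit 13121352046328710208)) (.cons (.rf (nat_lit 928) (nat_lit 14303893635)) .nil))))) (.cons (.rf (nat_lit 1720) (nat_lit 13118075500608423968)) (.cons (.rf (nat_lit 1720) (nat_lit 13118007329814808608)) (.cons (.rf (nat_lit 928) (nat_lit 14303893635)) .nil))))) (.cons (.rf (nat_lit 928) (nat_lit 14303893635)) .nil)))))) .nil))))),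
 (.br (nat_lit 5) (nat_lit 0) (.cons (.rf (nat_lit 1723) (nat_lit 14242959524133701664)) (.cons (.rf (nat_lit 1723) (nat_lit 14242925437127854112)) (.cons (.br (nat_lit 2) (nat_lit 0) (.cons (.rf (nat_lit 1711) (nat_lit 14241864407335503904)) (.cons (.rf (nat_lit 1711) (nat_lit 14240740706452899872)) (.cons (.br (nat_lit 1) (nat_lit 0) (.cons (.rf (nat_lit 1711) (nat_lit 14241864407335502912)) (.cons (.rf (nat_lit 1711) (nat_lit 14240740706452898880)) (.cons (.rf (nat_lit 928) (nat_lit 14303893635)) .nil)))) (.cons (.rf (nat_lit 928) (nat_lit 14303893635)) .nil))))) (.cons (.kr (nat_lit 1208925819614629174706176) (nat_lit 79228162514264337593543950336) (nat_lit 10) (nat_lit 0)) (.cons (.rf (nat_lit 928) (nat_lit 14303893635)) .nil)))))),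
 (.br (nat_lit 12) (nat_lit 0) (.cons (.rf (nat_lit 1720) (nat_lit 14242959524133701664)) (.cons (.rf (nat_lit 1720) (nat_lit 14242925437127854112)) (.cons (.br (nat_lit 5) (nat_lit 0) (.cons (.rf (nat_lit 1723) (nat_lit 14242959524133701664)) (.cons (.rf (nat_lit 1723) (nat_lit 14242925437127854112)) (.cons (.rf (nat_lit 1724) (nat_lit 14242959524133701664)) (.cons (.rf (nat_lit 1724) (nat_lit 14242925437127854112)) (.cons (.kr (nat_lit 1208925819614629174706176) (nat_lit 79228162514264337593543950336) (nat_lit 10) (nat_lit 0)) (.cons (.rf (nat_lit 928) (nat_lit 14303893635)) .nil))))))) (.cons (.rf (nat_lit 928) (nat_lit 14303893635)) .nil))))),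
 (.br (nat_lit 12) (nat_lit 0) (.cons (.rf (nat_lit 1720) (nat_lit 14242959524133701664)) (.cons (.rf (nat_lit 1720) (nat_lit 14242925437127854112)) (.cons (.rf (nat_lit 1725) (nat_lit 14242959524133701664)) (.cons (.br (nat_lit 12) (nat_lit 0) (.cons (.rf (nat_lit 1720) (nat_lit 14242959524133701664)) (.cons (.rf (nat_lit 1720) (nat_lit 14242925437127854112)) (.cons (.rf (nat_lit 1725) (nat_lit 14242959524133701664)) (.cons (.rf (nat_lit 928) (nat_lit 14303893635)) .nil))))) (.cons (.rf (nat_lit 928) (nat_lit 14303893635)) .nil)))))),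
 (.br (nat_lit 12) (nat_lit 0) (.cons (.rf (nat_lit 1720) (nat_lit 14242959524133701664)) (.cons (.rf (nat_lit 1720) (nat_lit 14242925437127854112)) (.cons (.rf (nat_lit 1726) (nat_lit 14242959524133701664)) (.cons (.rf (nat_lit 1726) (nat_lit 14242925437127854112)) (.cons (.br (nat_lit 12) (nat_lit 0) (.cons (.rf (nat_lit 1720) (nat_lit 14242959524133701664)) (.cons (.rf (nat_lit 1720) (nat_lit 14242925437127854112)) (.cons (.rf (nat_lit 1726) (nat_lit 14242959524133701664)) (.cons (.rf (nat_lit 1726) (nat_lit 14242925437127854112)) (.cons (.rf (nat_lit 928) (nat_lit 14303893635)) .nil)))))) (.cons (.rf (nat_lit 928) (nat_lit 14303893635)) .nil))))))),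
 (.br (nat_lit 7) (nat_lit 1) (.cons (.br (nat_lit 3) (nat_lit 1) (.cons (.rf (nat_lit 1045) (nat_lit 11584701642934304)) (.cons (.rf (nat_lit 1147) (nat_lit 11584701642934304)) (.cons (.rf (nat_lit 1147) (nat_lit 11584632990566432)) (.cons (.br (nat_lit 11) (nat_lit 1) (.cons (.br (nat_lit 12) (nat_lit 0) (.cons (.rf (nat_lit 1208) (nat_lit 14242959524133701664)) (.cons (.rf (nat_lit 1208) (nat_lit 14242925437127854112)) (.cons (.rf (nat_lit 1212) (nat_lit 14242959524133701664)) (.cons (.rf (nat_lit 1212) (nat_lit 14242925437127854112)) (.cons (.br (nat_lit 12) (nat_lit 0) (.cons (.rf (nat_lit 1208) (nat_lit 14242959524133701664)) (.cons (.rf (nat_lit 1208) (nat_lit 14242925437127854112)) (.cons (.rf (nat_lit 1212) (nat_lit 14242959524133701664)) (.cons (.rf (nat_lit 1212) (nat_lit 14242925437127854112)) (.cons (.rf (nat_lit 928) (nat_lit 14303893635)) .nil)))))) (.cons (.rf (nat_lit 928) (nat_lit 14303893635)) .nil))))))) .nil)) .nil))))) (.cons (.br (nat_lit 5) (nat_lit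 1) (.cons (.br (nat_lit 3) (nat_lit 1) (.cons (.rf (nat_lit 1367) (nat_lit 14242959524133701664)) (.cons (.rf (nat_lit 1595) (nat_lit 14242959524133701664)) (.cons (.rf (nat_lit 1595) (nat_lit 13126066747893450784)) (.cons (.rf (nat_lit 1727) (nat_lit 14242959524133701664)) (.cons (.rf (nat_lit 1727) (nat_lit 13126066747893450784)) .nil)))))) .nil)) .nil))),
 (.br (nat_lit 7) (nat_lit 0) (.cons (.rf (nat_lit 1728) (nat_lit 11584632789240032)) (.cons (.rf (nat_lit 1728) (nat_lit 9229482102753504)) (.cons (.rf (nat_lit 1728) (nat_lit 10285012191742176)) (.cons (.rf (nat_lit 1728) (nat_lit 4619230924507360)) (.cons (.rf (nat_lit 1728) (nat_lit 6869931224500448)) (.cons (.rf (nat_lit 1728) (nat_lit 3593385504213216)) (.cons (.rf (nat_lit 928) (nat_lit 12156409987)) .nil)))))))),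
 (.br (nat_lit 8) (nat_lit 1) (.cons (.br (nat_lit 10) (nat_lit 1) (.cons (.kr (nat_lit 18518801667747479808) (nat_lit 79228162514264338693055643648) (nat_lit 1) (nat_lit 0)) (.cons (.br (nat_lit 13) (nat_lit 0) (.cons (.kr (nat_lit 18446744073709551616) (nat_lit 20282409603651670423947251286016) (nat_lit 8) (nat_lit 0)) .nil)) .nil))) .nil)),
 (.br (nat_lit 12) (nat_lit 0) (.cons (.ev (nat_lit 309485028268371721217638401) (nat_lit 1)) (.cons (.br (nat_lit 13) (nat_lit 0) (.cons (.ev (nat_lit 310693935641242276682858753) (nat_lit 1)) .nil)) .nil))),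
 (.br (nat_lit 13) (nat_lit 0) (.cons (.rf (nat_lit 1731) (nat_lit 493858305440582043680)) (.cons (.br (nat_lit 13) (nat_lit 0) (.cons (.rf (nat_lit 1731) (nat_lit 493858305440582043680)) .nil)) .nil))),
 (.br (nat_lit 6) (nat_lit 1) (.cons (.br (nat_lit 8) (nat_lit 1) (.cons (.kr (nat_lit 20282409603651742481541289214208) (nat_lit 79228162514264338693055643648) (nat_lit 1) (nat_lit 0)) .nil)) .nil)),
 (.br (nat_lit 12) (nat_lit 0) (.cons (.rf (nat_lit 1732) (nat_lit 493858305440582043680)) (.cons (.br (nat_lit 10) (nat_lit 1) (.cons (.rf (nat_lit 1733) (nat_lit 493858305440582043680)) (.cons (.br (nat_lit 8) (nat_lit 1) (.cons (.rf (nat_lit 1733) (nat_lit 493857146555326367776)) (.cons (.kr (nat_lit 18446744073709551872) (nat_lit 1208925819614629174771712) (nat_lit 1) (nat_lit 0)) .nil))) .nil))) .nil))),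
 (.br (nat_lit 9) (nat_lit 1) (.cons (.br (nat_lit 12) (nat_lit 1) (.cons (.br (nat_lit 4) (nat_lit 1) (.cons (.br (nat_lit 8) (nat_lit 1) (.cons (.rf (nat_lit 1730) (nat_lit 493858305440582043680)) (.cons (.br (nat_lit 8) (nat_lit 1) (.cons (.rf (nat_lit 1730) (nat_lit 493858305440582043680)) .nil)) .nil))) (.cons (.ev (nat_lit 4722366482873940181249) (nat_lit 1)) (.cons (.br (nat_lit 12) (nat_lit 0) (.cons (.rf (nat_lit 1732) (nat_lit 493858305440582043680)) (.cons (.rf (nat_lit 1734) (nat_lit 493858305440582043680)) (.cons (.br (nat_lit 12) (nat_lit 0) (.cons (.rf (nat_lit 1732) (nat_lit 493858305440582043680)) (.cons (.rf (nat_lit 1734) (nat_lit 493858305440582043680)) .nil))) .nil)))) .nil)))) .nil)) .nil)),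
 (.br (nat_lit 10) (nat_lit 1) (.cons (.kr (nat_lit 79228162514264338693055578112) (nat_lit 4722438540463683141632) (nat_lit 5) (nat_lit 0)) (.cons (.br (nat_lit 13) (nat_lit 0) (.cons (.br (nat_lit 12) (nat_lit 0) (.cons (.kr (nat_lit 20361637766165934762640306864384) (nat_lit 9444805023333328420864) (nat_lit 1) (nat_lit 0)) .nil)) (.cons (.br (nat_lit 4) (nat_lit 1) (.cons (.kr (nat_lit 20361637766165934762640306864384) (nat_lit 9444805023333328420864) (nat_lit 1) (nat_lit 0)) .nil)) .nil))) .nil))),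
 (.br (nat_lit 4) (nat_lit 1) (.cons (.br (nat_lit 13) (nat_lit 0) (.cons (.kr (nat_lit 20282409603651742481541289214208) (nat_lit 79228162514264338693055643648) (nat_lit 1) (nat_lit 0)) .nil)) (.cons (.br (nat_lit 7) (nat_lit 0) (.cons (.kr (nat_lit 20282409603651742481541289214208) (nat_lit 79228162514264338693055643648) (nat_lit 1) (nat_lit 0)) .nil)) .nil))),
 (.br (nat_lit 10) (nat_lit 1) (.cons (.rf (nat_lit 1736) (nat_lit 493858305440582043680)) (.cons (.rf (nat_lit 1737) (nat_lit 493858305440582043680)) .nil))),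
 (.br (nat_lit 10) (nat_lit 1) (.cons (.rf (nat_lit 1736) (nat_lit 493858305440582043680)) (.cons (.br (nat_lit 10) (nat_lit 1) (.cons (.kr (nat_lit 18446744073709551872) (nat_lit 1208925819614629174771712) (nat_lit 1) (nat_lit 0)) (.cons (.rf (nat_lit 1737) (nat_lit 493858305440582043680)) .nil))) (.cons (.rf (nat_lit 1738) (nat_lit 493858305440582043680)) .nil)))),
 (.br (nat_lit 8) (nat_lit 1) (.cons (.rf (nat_lit 1739) (nat_lit 493858305440582043680)) (.cons (.rf (nat_lit 1739) (nat_lit 458117738797769787424)) .nil))),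
 (.br (nat_lit 10) (nat_lit 1) (.cons (.rf (nat_lit 1737) (nat_lit 493857146555326367776)) (.cons (.rf (nat_lit 1737) (nat_lit 458116579912514111520)) .nil))),
 (.br (nat_lit 7) (nat_lit 0) (.cons (.br (nat_lit 7) (nat_lit 0) (.cons (.kr (nat_lit 72057594037928192) (nat_lit 1099511693312) (nat_lit 1) (nat_lit 0)) (.cons (.rf (nat_lit 1741) (nat_lit 455779244691257657376)) .nil))) (.cons (.br (nat_lit 7) (nat_lit 0) (.cons (.kr (nat_lit 72057594037928192) (nat_lit 1099511693312) (nat_lit 1) (nat_lit 0)) (.cons (.rf (nat_lit 1741) (nat_lit 455779244691257657376)) .nil))) (.cons (.rf (nat_lit 1741) (nat_lit 455779244691257657376)) .nil)))),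
 (.br (nat_lit 8) (nat_lit 1) (.cons (.rf (nat_lit 1740) (nat_lit 493858305440582043680)) (.cons (.rf (nat_lit 1742) (nat_lit 15433035725666355232)) .nil))),
 (.br (nat_lit 9) (nat_lit 1) (.cons (.rf (nat_lit 1735) (nat_lit 407901468851537952)) (.cons (.br (nat_lit 12) (nat_lit 1) (.cons (.br (nat_lit 9) (nat_lit 1) (.cons (.rf (nat_lit 1735) (nat_lit 407901468851537952)) (.cons (.br (nat_lit 8) (nat_lit 1) (.cons (.rf (nat_lit 1740) (nat_lit 493858305440582043680)) (.cons (.rf (nat_lit 1743) (nat_lit 493858305440582043680)) (.cons (.rf (nat_lit 1743) (nat_lit 458117738797769787424)) .nil)))) .nil))) .nil)) .nil))),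
 (.br (nat_lit 7) (nat_lit 0) (.cons (.br (nat_lit 10) (nat_lit 1) (.cons (.zr (nat_lit 37109660929533018624) (nat_lit 20282719088661492051594792927233) (nat_lit 5) (nat_lit 0)) (.cons (.zr (nat_lit 79228162514408452781620003072) (nat_lit 309485009821626548030013441) (nat_lit 5) (nat_lit 0)) .nil))) (.cons (.br (nat_lit 12) (nat_lit 0) (.cons (.zr (nat_lit 20361637766166078876728871289088) (nat_lit 309485028268370621739565057) (nat_lit 5) (nat_lit 0)) (.cons (.zr (nat_lit 40644047369817749300676122575104) (nat_lit 309485046715114695449116673) (nat_lit 5) (nat_lit 0)) .nil))) .nil))),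
 (.br (nat_lit 5) (nat_lit 0) (.cons (.kr (nat_lit 20282409603651742481541289214208) (nat_lit 79228162514264338693055643648) (nat_lit 1) (nat_lit 0)) .nil)),
 (.br (nat_lit 12) (nat_lit 0) (.cons (.rf (nat_lit 1745) (nat_lit 493858305440582043680)) (.cons (.br (nat_lit 7) (nat_lit 0) (.cons (.ev (nat_lit 79228162532783139265603174401) (nat_lit 1)) (.cons (.rf (nat_lit 1746) (nat_lit 493858305440582043680)) .nil))) .nil))),
 (.br (nat_lit 13) (nat_lit 0) (.cons (.br (nat_lit 12) (nat_lit 0) (.cons (.rf (nat_lit 1745) (nat_lit 493858305440582043680)) (.cons (.rf (nat_lit 1747) (nat_lit 493858305440582043680)) (.cons (.br (nat_lit 12) (nat_lit 0) (.cons (.rf (nat_lit 1745) (nat_lit 493858305440582043680)) (.cons (.rf (nat_lit 1747) (nat_lit 493858305440582043680)) .nil))) .nil)))) (.cons (.br (nat_lit 12) (nat_lit 0) (.cons (.kr (nat_lit 18446744073709551616) (nat_lit 20282409603651670423947251286016) (nat_lit 8) (nat_lit 0)) (.cons (.br (nat_lit 12) (nat_lit 0) (.cons (.kr (nat_lit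 18446744073709551616) (nat_lit 20282409603651670423947251286016) (nat_lit 8) (nat_lit 0)) (.cons (.kr (nat_lit 20282409603651670423947251286272) (nat_lit 1208925819614629174771712) (nat_lit 1) (nat_lit 0)) .nil))) (.cons (.kr (nat_lit 20282409603651670423947251286272) (nat_lit 1208925819614629174771712) (nat_lit 1) (nat_lit 0)) .nil)))) .nil))),
 (.br (nat_lit 12) (nat_lit 0) (.cons (.br (nat_lit 7) (nat_lit 0) (.cons (.rf (nat_lit 1746) (nat_lit 493856055839791613984)) (.cons (.ev (nat_lit 79229371440156009821068394753) (nat_lit 1)) .nil))) (.cons (.br (nat_lit 8) (nat_lit 1) (.cons (.zr (nat_lit 40564820416229160464722750930944) (nat_lit 158765810038350301735084360193) (nat_lit 5) (nat_lit 6)) (.cons (.zr (nat_lit 40644047369817749300676122444544) (nat_lit 311902861460855806379425793) (nat_lit 5) (nat_lit 0)) .nil))) .nil))),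
 (.br (nat_lit 12) (nat_lit 0) (.cons (.rf (nat_lit 1749) (nat_lit 493858305440582043680)) (.cons (.br (nat_lit 8) (nat_lit 1) (.cons (.zr (nat_lit 237684487542793014979705438208) (nat_lit 20282720297587311665124422516737) (nat_lit 5) (nat_lit 4)) (.cons (.zr (nat_lit 20361637766166078876728871223808) (nat_lit 310693935641241177204719617) (nat_lit 5) (nat_lit 0)) .nil))) .nil)))]

theorem c58 : chkAll C T R L58 (nat_lit 1720) = true := by decide +kernel

theorem l58 : (nat_lit 1720) + L58.length = (nat_lit 1751) := by decide +kernel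

end Pool.Agent.H93.Neg.Q14_6_0_0_7_1
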