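import Pool.Agent.H93.Neg.TabQ14_6_0_0_7_1

/-!
Certificates.
-/

set_option autoImplicit false
set_option maxRecDepth 100000
set_option linter.all false

namespace Pool.Agent.H93.Neg.Q14_6_0_0_7_1

/-- part of the certificates -/
def L59 : List Prf := [(.br (nat_lit 13) (nat_lit 0) (.cons (.rf (nat_lit 1748) (nat_lit 493858305440582043680)) (.cons (.br (nat_lit 12) (nat_lit 0) (.cons (.rf (nat_lit 1749) (nat_lit 493858305440582043680)) (.cons (.rf (nat_lit 1750) (nat_lit 493858305440582043680)) (.cons (.br (nat_lit 12) (nat_lit 0) (.cons (.rf (nat_lit 1749) (nat_lit 493858305440582043680)) (.cons (.rf (nat_lit 1750) (nat_lit 493858305440582043680)) .nil))) .nil)))) .nil))),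
 (.br (nat_lit 13) (nat_lit 0) (.cons (.rf (nat_lit 1748) (nat_lit 493858305440582043680)) (.cons (.rf (nat_lit 1751) (nat_lit 493858305440582043680)) (.cons (.br (nat_lit 13) (nat_lit 0) (.cons (.rf (nat_lit 1748) (nat_lit 493858305440582043680)) (.cons (.rf (nat_lit 1751) (nat_lit 493858305440582043680)) .nil))) .nil)))),
 (.br (nat_lit 12) (nat_lit 0) (.cons (.br (nat_lit 9) (nat_lit 1) (.cons (.kr (nat_lit 36965545741457031424) (nat_lit 20361637766165934762640306929664) (nat_lit 1) (nat_lit 0)) .nil)) (.cons (.rf (nat_lit 1742) (nat_lit 15433035725672646688)) .nil))),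
 (.br (nat_lit 13) (nat_lit 0) (.cons (.rf (nat_lit 1752) (nat_lit 493858305440582043680)) (.cons (.br (nat_lit 8) (nat_lit 1) (.cons (.br (nat_lit 10) (nat_lit 1) (.cons (.br (nat_lit 9) (nat_lit 1) (.cons (.br (nat_lit 12) (nat_lit 0) (.cons (.ev (nat_lit 20284268955174576237688062608388) (nat_lit 3)) .nil)) .nil)) (.cons (.rf (nat_lit 1738) (nat_lit 493857210327004973088)) .nil))) (.cons (.br (nat_lit 6) (nat_lit 1) (.cons (.ev (nat_lit 20282409603670117169124784275713) (nat_lit 1)) (.cons (.br (nat_lit 12) (nat_lit 0) (.cons (.kr (nat_lit 79228162514264337593543950592) (nat_lit 4722366482869645279232) (nat_lit 1) (nat_lit 0)) (.cons (.ev (nat_lit 20361638975110273177842029232385) (nat_lit 1)) .nil))) .nil))) (.cons (.br (nat_lit 10) (nat_lit 1) (.cons (.rf (nat_lit 1753) (nat_lit 493858305440582043680)) (.cons (.br (nat_lit 5) (nat_lit 0) (.cons (.ev (nat_lit 20282410812577490039680249364481) (nat_lit 1)) (.cons (.ev (nat_lit 1208944266359806707630081) (nat_lit 1)) .nil))) (.cons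 (.kr (nat_lit 18446744073709551872) (nat_lit 1208925819614629174771712) (nat_lit 1) (nat_lit 0)) .nil)))) .nil)))) .nil))),
 (.br (nat_lit 13) (nat_lit 0) (.cons (.rf (nat_lit 1752) (nat_lit 493858305440582043680)) (.cons (.rf (nat_lit 1754) (nat_lit 493858305440582043680)) (.cons (.br (nat_lit 13) (nat_lit 0) (.cons (.rf (nat_lit 1752) (nat_lit 493858305440582043680)) (.cons (.rf (nat_lit 1754) (nat_lit 493858305440582043680)) .nil))) .nil)))),
 (.br (nat_lit 13) (nat_lit 0) (.cons (.rf (nat_lit 1752) (nat_lit 493858305440582043680)) (.cons (.rf (nat_lit 1755) (nat_lit 493858305440582043680)) (.cons (.br (nat_lit 13) (nat_lit 0) (.cons (.rf (nat_lit 1752) (nat_lit 493858305440582043680)) (.cons (.rf (nat_lit 1755) (nat_lit 493858305440582043680)) .nil))) .nil)))),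
 (.br (nat_lit 4) (nat_lit 1) (.cons (.rf (nat_lit 1744) (nat_lit 407901468851537952)) (.cons (.br (nat_lit 12) (nat_lit 1) (.cons (.br (nat_lit 13) (nat_lit 0) (.cons (.rf (nat_lit 1752) (nat_lit 493858305440582043680)) (.cons (.rf (nat_lit 1755) (nat_lit 493858305440582043680)) (.cons (.rf (nat_lit 1756) (nat_lit 493858305440582043680)) (.cons (.br (nat_lit 13) (nat_lit 0) (.cons (.rf (nat_lit 1752) (nat_lit 493858305440582043680)) (.cons (.rf (nat_lit 1755) (nat_lit 493858305440582043680)) (.cons (.rf (nat_lit 1756) (nat_lit 493858305440582043680)) .nil)))) .nil))))) .nil)) .nil))),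
 (.br (nat_lit 13) (nat_lit 0) (.cons (.br (nat_lit 10) (nat_lit 1) (.cons (.ev (nat_lit 79229371458530696300723175681) (nat_lit 1)) .nil)) .nil)),
 (.br (nat_lit 11) (nat_lit 0) (.cons (.br (nat_lit 12) (nat_lit 0) (.cons (.kr (nat_lit 309485009893402662762709248) (nat_lit 79228162514264338693055643648) (nat_lit 1) (nat_lit 0)) .nil)) .nil)),
 (.br (nat_lit 8) (nat_lit 1) (.cons (.kr (nat_lit 79228162514336395187581878528) (nat_lit 20282409603651670425046762979328) (nat_lit 1) (nat_lit 0)) .nil)),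
 (.br (nat_lit 8) (nat_lit 1) (.cons (.br (nat_lit 10) (nat_lit 1) (.cons (.ev (nat_lit 1208944266359806707630081) (nat_lit 1)) .nil)) (.cons (.br (nat_lit 12) (nat_lit 0) (.cons (.zr (nat_lit 237684487543009185562745700864) (nat_lit 309489769081597565077553153) (nat_lit 5) (nat_lit 0)) (.cons (.ev (nat_lit 1208944266359806707630081) (nat_lit 1)) .nil))) .nil))),
 (.br (nat_lit 7) (nat_lit 0) (.cons (.br (nat_lit 9) (nat_lit 1) (.cons (.kr (nat_lit 4722366482869645279232) (nat_lit 1099528404992) (nat_lit 2) (nat_lit 0)) (.cons (.br (nat_lit 13) (nat_lit 0) (.cons (.rf (nat_lit 1758) (nat_lit 493858305440582043680)) (.cons (.br (nat_lit 13) (nat_lit 0) (.cons (.rf (nat_lit 1758) (nat_lit 493858305440582043680)) .nil)) .nil))) (.cons (.br (nat_lit 5) (nat_lit 0) (.cons (.rf (nat_lit 1759) (nat_lit 15433035725666355232)) (.cons (.br (nat_lit 10) (nat_lit 1) (.cons (.rf (nat_lit 1760) (nat_lit 493858305440582043680)) (.cons (.br (nat_lit 12) (nat_lit 0) (.cons (.ev (nat_lit 20679795609854594200486325715716)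 (nat_lit 3)) .nil)) .nil))) .nil))) .nil)))) (.cons (.br (nat_lit 9) (nat_lit 1) (.cons (.rf (nat_lit 1761) (nat_lit 493858305440582043680)) (.cons (.br (nat_lit 9) (nat_lit 1) (.cons (.rf (nat_lit 1761) (nat_lit 493858305440582043680)) (.cons (.kr (nat_lit 79228162514264337593543950592) (nat_lit 4722366482869645279232) (nat_lit 1) (nat_lit 0)) .nil))) (.cons (.br (nat_lit 9) (nat_lit 1) (.cons (.rf (nat_lit 1761) (nat_lit 493858305440582043680)) (.cons (.kr (nat_lit 79228162514264337593543950592) (nat_lit 4722366482869645279232) (nat_lit 1) (nat_lit 0)) .nil))) .nil)))) .nil))),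
 (.br (nat_lit 7) (nat_lit 0) (.cons (.rf (nat_lit 1762) (nat_lit 493858305440582043680)) (.cons (.br (nat_lit 5) (nat_lit 0) (.cons (.br (nat_lit 10) (nat_lit 1) (.cons (.br (nat_lit 9) (nat_lit 1) (.cons (.br (nat_lit 13) (nat_lit 0) (.cons (.ev (nat_lit 20679790774225102718264464836356) (nat_lit 3)) .nil)) .nil)) (.cons (.br (nat_lit 8) (nat_lit 1) (.cons (.rf (nat_lit 1760) (nat_lit 493856089924652075040)) (.cons (.ev (nat_lit 20282410812596008841347980132353) (nat_lit 1)) .nil))) .nil))) (.cons (.kr (nat_lit 4722366482869645279232) (nat_lit 1099528404992) (nat_lit 2) (nat_lit 0)) (.cons (.br (nat_lit 13) (nat_lit 0) (.cons (.br (nat_lit 8) (nat_lit 1) (.cons (.rf (nat_lit 1742) (nat_lit 15432996143254046752)) .nil)) (.cons (.rf (nat_lit 1759) (nat_lit 15433037924689610784)) .nil))) .nil)))) .nil))),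
 (.br (nat_lit 7) (nat_lit 0) (.cons (.rf (nat_lit 1762) (nat_lit 493858305440582043680)) (.cons (.rf (nat_lit 1763) (nat_lit 493858305440582043680)) (.cons (.br (nat_lit 7) (nat_lit 0) (.cons (.rf (nat_lit 1762) (nat_lit 493858305440582043680)) (.cons (.rf (nat_lit 1763) (nat_lit 493858305440582043680)) .nil))) .nil)))),
 (.br (nat_lit 9) (nat_lit 1) (.cons (.br (nat_lit 13) (nat_lit 0) (.cons (.kr (nat_lit 20361637766165934762640306864384) (nat_lit 9444805023333328420864) (nat_lit 1) (nat_lit 0)) .nil)) .nil)),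
 (.br (nat_lit 7) (nat_lit 0) (.cons (.rf (nat_lit 1765) (nat_lit 493858305440582043680)) (.cons (.ev (nat_lit 79537647524158021735578403073) (nat_lit 1)) .nil))),
 (.br (nat_lit 13) (nat_lit 0) (.cons (.rf (nat_lit 1742) (nat_lit 15432996143254046752)) (.cons (.rf (nat_lit 1742) (nat_lit 15433031327626135584)) (.cons (.br (nat_lit 13) (nat_lit 0) (.cons (.rf (nat_lit 1742) (nat_lit 15432996143254046752)) (.cons (.rf (nat_lit 1742) (nat_lit 15433031327626135584)) .nil))) .nil)))),
 (.br (nat_lit 10) (nat_lit 1) (.cons (.rf (nat_lit 1767) (nat_lit 493858305440582043680)) (.cons (.rf (nat_lit 1767) (nat_lit 493678161392203564096)) (.cons (.br (nat_lit 10) (nat_lit 1) (.cons (.rf (nat_lit 1767) (nat_lit 493858305440582043680)) (.cons (.rf (nat_lit 1767) (nat_lit 493678161392203564096)) .nil))) .nil)))),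
 (.br (nat_lit 6) (nat_lit 1) (.cons (.br (nat_lit 12) (nat_lit 0) (.cons (.br (nat_lit 10) (nat_lit 1) (.cons (.rf (nat_lit 1766) (nat_lit 493858305440582043680)) (.cons (.br (nat_lit 10) (nat_lit 1) (.cons (.rf (nat_lit 1766) (nat_lit 493858305440582043680)) .nil)) .nil))) (.cons (.ev (nat_lit 79537647524085965241052037121) (nat_lit 1)) .nil))) (.cons (.br (nat_lit 12) (nat_lit 0) (.cons (.rf (nat_lit 1768) (nat_lit 493858305440582043680)) (.cons (.rf (nat_lit 1768) (nat_lit 493857214725047289888)) .nil))) (.cons (.rf (nat_lit 1764) (nat_lit 493858305440582043680)) (.cons (.rf (nat_lit 1764) (nat_lit 458117738797769787424)) .nil))))),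
 (.br (nat_lit 12) (nat_lit 0) (.cons (.rf (nat_lit 1764) (nat_lit 493858305440582043680)) (.cons (.rf (nat_lit 1769) (nat_lit 493858305440582043680)) (.cons (.br (nat_lit 6) (nat_lit 1) (.cons (.br (nat_lit 8) (nat_lit 1) (.cons (.br (nat_lit 7) (nat_lit 0) (.cons (.ev (nat_lit 79537647524158021735578403073) (nat_lit 1)) (.cons (.rf (nat_lit 1765) (nat_lit 493856055839791613984)) .nil))) (.cons (.rf (nat_lit 1769) (nat_lit 458117738797769787424)) .nil))) (.cons (.rf (nat_lit 1768) (nat_lit 493856089924652075040)) (.cons (.rf (nat_lit 1764) (nat_lit 458117738797769787424)) .nil)))) .nil)))),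
 (.br (nat_lit 4) (nat_lit 1) (.cons (.rf (nat_lit 1744) (nat_lit 407901468851537952)) (.cons (.rf (nat_lit 1757) (nat_lit 407901468851537952)) (.cons (.br (nat_lit 12) (nat_lit 1) (.cons (.br (nat_lit 4) (nat_lit 1) (.cons (.rf (nat_lit 1744) (nat_lit 407901468851537952)) (.cons (.rf (nat_lit 1757) (nat_lit 407901468851537952)) (.cons (.br (nat_lit 12) (nat_lit 0) (.cons (.rf (nat_lit 1764) (nat_lit 493858305440582043680)) (.cons (.rf (nat_lit 1769) (nat_lit 493858305440582043680)) (.cons (.rf (nat_lit 1770) (nat_lit 493858305440582043680)) (.cons (.br (nat_lit 12) (nat_lit 0) (.cons (.rf (nat_lit 1764) (nat_lit 493858305440582043680)) (.cons (.rf (nat_lit 1769) (nat_lit 493858305440582043680)) (.cons (.rf (nat_lit 1770) (nat_lit 493858305440582043680)) .nil)))) .nil))))) .nil)))) .nil)) .nil)))),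
 (.br (nat_lit 12) (nat_lit 0) (.cons (.rf (nat_lit 1742) (nat_lit 15433066514141513760)) (.cons (.rf (nat_lit 1742) (nat_lit 15433072011699652640)) .nil))),
 (.br (nat_lit 6) (nat_lit 0) (.cons (.br (nat_lit 8) (nat_lit 1) (.cons (.kr (nat_lit 281474976710912) (nat_lit 4295032832) (nat_lit 1) (nat_lit 0)) (.cons (.br (nat_lit 9) (nat_lit 1) (.cons (.br (nat_lit 10) (nat_lit 0) (.cons (.br (nat_lit 10) (nat_lit 0) (.cons (.br (nat_lit 10) (nat_lit 0) (.cons (.br (nat_lit 9) (nat_lit 0) (.cons (.rf (nat_lit 1772) (nat_lit 379576227758677858432)) (.cons (.rf (nat_lit 1772) (nat_lit 379577353658583652480)) (.cons (.rf (nat_lit 1772) (nat_lit 379578444374118406272)) .nil)))) .nil)) .nil)) .nil)) .nil)) .nil))) .nil)),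
 (.br (nat_lit 9) (nat_lit 1) (.cons (.rf (nat_lit 1733) (nat_lit 458116436980299565088)) (.cons (.br (nat_lit 8) (nat_lit 1) (.cons (.rf (nat_lit 1733) (nat_lit 458115312179904350240)) (.cons (.rf (nat_lit 1742) (nat_lit 15433035729963419680)) .nil))) .nil))),
 (.br (nat_lit 4) (nat_lit 1) (.cons (.rf (nat_lit 1774) (nat_lit 493858305440582043680)) (.cons (.br (nat_lit 7) (nat_lit 0) (.cons (.rf (nat_lit 1774) (nat_lit 493858301042539726880)) (.cons (.rf (nat_lit 1774) (nat_lit 493858265858168686624)) (.cons (.rf (nat_lit 1768) (nat_lit 458113235202437384224)) .nil)))) .nil))),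
 (.br (nat_lit 10) (nat_lit 1) (.cons (.rf (nat_lit 1775) (nat_lit 493858305440582043680)) (.cons (.br (nat_lit 8) (nat_lit 1) (.cons (.br (nat_lit 9) (nat_lit 1) (.cons (.ev (nat_lit 309489750634572012096389121) (nat_lit 1)) (.cons (.kr (nat_lit 20282409603651670423947251286272) (nat_lit 4722366482869645279232) (nat_lit 1) (nat_lit 0)) .nil))) (.cons (.br (nat_lit 9) (nat_lit 1) (.cons (.ev (nat_lit 40565132323831651284299701813250) (nat_lit 2)) (.cons (.ev (nat_lit 20282410817299928861614597472513) (nat_lit 1)) .nil))) (.cons (.kr (nat_lit 18446744073709551616) (nat_lit 79228162514264337593543950336) (nat_lit 8) (nat_lit 0)) .nil)))) .nil))),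
 (.br (nat_lit 9) (nat_lit 1) (.cons (.rf (nat_lit 1774) (nat_lit 493857214725047289888)) (.cons (.br (nat_lit 12) (nat_lit 0) (.cons (.br (nat_lit 2) (nat_lit 0) (.cons (.zr (nat_lit 37109660929532887808) (nat_lit 310698658007724046833156097) (nat_lit 5) (nat_lit 0)) .nil)) (.cons (.ev (nat_lit 20361637770888301525885417160961) (nat_lit 1)) .nil))) .nil))),
 (.br (nat_lit 2) (nat_lit 0) (.cons (.rf (nat_lit 1774) (nat_lit 493857210327004973088)) (.cons (.br (nat_lit 7) (nat_lit 0) (.cons (.br (nat_lit 9) (nat_lit 1) (.cons (.ev (nat_lit 20362569852732261727943440662530) (nat_lit 2)) .nil)) .nil)) .nil))),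
 (.br (nat_lit 7) (nat_lit 0) (.cons (.rf (nat_lit 1778) (nat_lit 493858305440582043680)) (.cons (.br (nat_lit 9) (nat_lit 1) (.cons (.zr (nat_lit 309489732187829037881623040) (nat_lit 72057594054770689) (nat_lit 5) (nat_lit 11)) (.cons (.br (nat_lit 2) (nat_lit 0) (.cons (.ev (nat_lit 20520713089585415814219835704580) (nat_lit 3)) .nil)) .nil))) .nil))),
 (.br (nat_lit 13) (nat_lit 0) (.cons (.br (nat_lit 10) (nat_lit 1) (.cons (.rf (nat_lit 1775) (nat_lit 493858305440582043680)) (.cons (.rf (nat_lit 1776) (nat_lit 493858305440582043680)) (.cons (.br (nat_lit 10) (nat_lit 1) (.cons (.rf (nat_lit 1775) (nat_lit 493858305440582043680)) (.cons (.rf (nat_lit 1776) (nat_lit 493858305440582043680)) .nil))) .nil)))) (.cons (.br (nat_lit 4) (nat_lit 1) (.cons (.ev (nat_lit 20282719088661492051594759372801) (nat_lit 1)) (.cons (.br (nat_lit 9) (nat_lit 1) (.cons (.rf (nat_lit 1774) (nat_lit 493857214725047289888)) (.cons (.rf (nat_lit 1777) (nat_lit 493858305440582043680)) (.cons (.br (nat_lit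 9) (nat_lit 1) (.cons (.rf (nat_lit 1774) (nat_lit 493857214725047289888)) (.cons (.rf (nat_lit 1777) (nat_lit 493858305440582043680)) .nil))) .nil)))) (.cons (.br (nat_lit 7) (nat_lit 0) (.cons (.rf (nat_lit 1778) (nat_lit 493858305440582043680)) (.cons (.rf (nat_lit 1779) (nat_lit 493858305440582043680)) (.cons (.br (nat_lit 7) (nat_lit 0) (.cons (.rf (nat_lit 1778) (nat_lit 493858305440582043680)) (.cons (.rf (nat_lit 1779) (nat_lit 493858305440582043680)) .nil))) .nil)))) .nil)))) .nil))),
 (.br (nat_lit 7) (nat_lit 0) (.cons (.rf (nat_lit 1774) (nat_lit 493856089924652075040)) (.cons (.br (nat_lit 12) (nat_lit 0) (.cons (.rf (nat_lit 1768) (nat_lit 458113271484173617184)) (.cons (.rf (nat_lit 1768) (nat_lit 458113265986620721184)) (.cons (.rf (nat_lit 1768) (nat_lit 458113230802249680928)) .nil)))) (.cons (.rf (nat_lit 1774) (nat_lit 493856084427099179040)) (.cons (.rf (nat_lit 1774) (nat_lit 493856049242728138784)) .nil))))),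
 (.br (nat_lit 8) (nat_lit 1) (.cons (.rf (nat_lit 1781) (nat_lit 493858305440582043680)) (.cons (.br (nat_lit 4) (nat_lit 1) (.cons (.br (nat_lit 12) (nat_lit 0) (.cons (.ev (nat_lit 20282409608392483932365582762241) (nat_lit 1)) (.cons (.ev (nat_lit 310693935641242276682858753) (nat_lit 1)) .nil))) (.cons (.ev (nat_lit 20282409603670189225619310510081) (nat_lit 1)) (.cons (.br (nat_lit 10) (nat_lit 1) (.cons (.ev (nat_lit 18447025548686327809) (nat_lit 1)) (.cons (.br (nat_lit 2) (nat_lit 0) (.cons (.ev (nat_lit 158767023742093370481356964354) (nat_lit 2)) .nil)) .nil))) .nil)))) .nil)))]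

theorem c59 : chkAll C T R L59 (nat_lit 1751) = true := by decide +kernel

theorem l59 : (nat_lit 1751) + L59.length = (nat_lit 1783) := by decide +kernel

/-- part of the certificates -/
def L60 : List Prf := [(.br (nat_lit 13) (nat_lit 0) (.cons (.rf (nat_lit 1780) (nat_lit 493858305440582043680)) (.cons (.br (nat_lit 8) (nat_lit 1) (.cons (.rf (nat_lit 1781) (nat_lit 493858305440582043680)) (.cons (.rf (nat_lit 1782) (nat_lit 493858305440582043680)) (.cons (.br (nat_lit 8) (nat_lit 1) (.cons (.rf (nat_lit 1781) (nat_lit 493858305440582043680)) (.cons (.rf (nat_lit 1782) (nat_lit 493858305440582043680)) .nil))) .nil)))) .nil))),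
 (.br (nat_lit 13) (nat_lit 0) (.cons (.rf (nat_lit 1780) (nat_lit 493858305440582043680)) (.cons (.rf (nat_lit 1783) (nat_lit 493858305440582043680)) (.cons (.br (nat_lit 13) (nat_lit 0) (.cons (.rf (nat_lit 1780) (nat_lit 493858305440582043680)) (.cons (.rf (nat_lit 1783) (nat_lit 493858305440582043680)) .nil))) .nil)))),
 (.br (nat_lit 4) (nat_lit 1) (.cons (.rf (nat_lit 1781) (nat_lit 493858301042539726880)) (.cons (.br (nat_lit 10) (nat_lit 1) (.cons (.br (nat_lit 12) (nat_lit 0) (.cons (.br (nat_lit 7) (nat_lit 0) (.cons (.zr (nat_lit 37109660929532887808) (nat_lit 310698658007724046833156097) (nat_lit 5) (nat_lit 0)) .nil)) (.cons (.br (nat_lit 7) (nat_lit 0) (.cons (.ev (nat_lit 4740885284541704503553) (nat_lit 1)) .nil)) .nil))) (.cons (.ev (nat_lit 20282410812577490039680249364481) (nat_lit 1)) (.cons (.br (nat_lit 2) (nat_lit 0) (.cons (.br (nat_lit 9) (nat_lit 1) (.cons (.ev (nat_lit 309489750634572012096389121) (nat_lit 1)) .nil)) (.cons (.kr (nat_lit 20282409603651670423947251286272)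 (nat_lit 1208925819614629174771712) (nat_lit 1) (nat_lit 0)) .nil))) .nil)))) .nil))),
 (.br (nat_lit 13) (nat_lit 0) (.cons (.rf (nat_lit 1784) (nat_lit 493858305440582043680)) (.cons (.br (nat_lit 4) (nat_lit 1) (.cons (.rf (nat_lit 1781) (nat_lit 493858301042539726880)) (.cons (.rf (nat_lit 1785) (nat_lit 493858305440582043680)) (.cons (.br (nat_lit 4) (nat_lit 1) (.cons (.rf (nat_lit 1781) (nat_lit 493858301042539726880)) (.cons (.rf (nat_lit 1785) (nat_lit 493858305440582043680)) .nil))) .nil)))) .nil))),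
 (.br (nat_lit 13) (nat_lit 0) (.cons (.rf (nat_lit 1784) (nat_lit 493858305440582043680)) (.cons (.rf (nat_lit 1786) (nat_lit 493858305440582043680)) (.cons (.br (nat_lit 13) (nat_lit 0) (.cons (.rf (nat_lit 1784) (nat_lit 493858305440582043680)) (.cons (.rf (nat_lit 1786) (nat_lit 493858305440582043680)) .nil))) .nil)))),
 (.br (nat_lit 13) (nat_lit 0) (.cons (.rf (nat_lit 1784) (nat_lit 493858305440582043680)) (.cons (.rf (nat_lit 1787) (nat_lit 493858305440582043680)) (.cons (.br (nat_lit 13) (nat_lit 0) (.cons (.rf (nat_lit 1784) (nat_lit 493858305440582043680)) (.cons (.rf (nat_lit 1787) (nat_lit 493858305440582043680)) .nil))) .nil)))),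
 (.br (nat_lit 6) (nat_lit 1) (.cons (.rf (nat_lit 1771) (nat_lit 407901468851537952)) (.cons (.rf (nat_lit 1773) (nat_lit 385679984672)) (.cons (.br (nat_lit 12) (nat_lit 1) (.cons (.br (nat_lit 13) (nat_lit 0) (.cons (.rf (nat_lit 1784) (nat_lit 493858305440582043680)) (.cons (.rf (nat_lit 1787) (nat_lit 493858305440582043680)) (.cons (.rf (nat_lit 1788) (nat_lit 493858305440582043680)) (.cons (.br (nat_lit 13) (nat_lit 0) (.cons (.rf (nat_lit 1784) (nat_lit 493858305440582043680)) (.cons (.rf (nat_lit 1787) (nat_lit 493858305440582043680)) (.cons (.rf (nat_lit 1788) (nat_lit 493858305440582043680)) .nil)))) .nil))))) .nil)) .nil)))),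
 (.br (nat_lit 10) (nat_lit 1) (.cons (.br (nat_lit 9) (nat_lit 1) (.cons (.br (nat_lit 8) (nat_lit 1) (.cons (.ev (nat_lit 4740885566012386246913) (nat_lit 1)) .nil)) (.cons (.br (nat_lit 8) (nat_lit 1) (.cons (.br (nat_lit 4) (nat_lit 1) (.cons (.zr (nat_lit 9444949138521404407808) (nat_lit 310693954087985250897494017) (nat_lit 5) (nat_lit 0)) .nil)) (.cons (.ev (nat_lit 20361948464842388949281561116673) (nat_lit 1)) .nil))) .nil))) (.cons (.rf (nat_lit 1781) (nat_lit 493821118789166662720)) (.cons (.br (nat_lit 9) (nat_lit 1) (.cons (.ev (nat_lit 20282720302309677867614307614721) (nat_lit 1)) (.cons (.br (nat_lit 4) (nat_lit 1) (.cons (.ev (nat_lit 4722366482873940181249) (nat_lit 1)) (.cons (.br (nat_lit 5) (nat_lit 0) (.cons (.ev (nat_lit 159077712918330242878899552770) (nat_lit 2)) .nil)) .nil))) (.cons (.br (nat_lit 5) (nat_lit 0) (.cons (.rf (nat_lit 1738) (nat_lit 493856051446040070176)) (.cons (.ev (nat_lit 20361948464842388949281561116673) (nat_lit 1)) .nil))) .nil)))) .nil)))),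
 (.br (nat_lit 10) (nat_lit 1) (.cons (.rf (nat_lit 1790) (nat_lit 493858305440582043680)) (.cons (.rf (nat_lit 1773) (nat_lit 385814202400)) (.cons (.br (nat_lit 12) (nat_lit 0) (.cons (.br (nat_lit 7) (nat_lit 0) (.cons (.br (nat_lit 2) (nat_lit 0) (.cons (.ev (nat_lit 158769441556694994205188162050) (nat_lit 2)) .nil)) (.cons (.br (nat_lit 8) (nat_lit 1) (.cons (.ev (nat_lit 309489750634572012096389121) (nat_lit 1)) .nil)) .nil))) (.cons (.kr (nat_lit 18446744073709551616) (nat_lit 79228162514264337593543950336) (nat_lit 8) (nat_lit 0)) (.cons (.br (nat_lit 8) (nat_lit 1) (.cons (.kr (nat_lit 20282409603651670423947251286272) (nat_lit 4722366482869645279232) (nat_lit 1) (nat_lit 0)) (.cons (.ev (nat_lit 20282410817299928861614597472513) (nat_lit 1)) .nil))) .nil)))) .nil)))),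
 (.br (nat_lit 12) (nat_lit 0) (.cons (.kr (nat_lit 20282409603651742481541289214208) (nat_lit 79228162514264338693055643648) (nat_lit 1) (nat_lit 0)) .nil)),
 (.br (nat_lit 2) (nat_lit 0) (.cons (.rf (nat_lit 1792) (nat_lit 493858305440582043680)) (.cons (.rf (nat_lit 1792) (nat_lit 493858129518726842400)) .nil))),
 (.br (nat_lit 10) (nat_lit 1) (.cons (.rf (nat_lit 1781) (nat_lit 493821118789166662720)) (.cons (.rf (nat_lit 1773) (nat_lit 385814202400)) (.cons (.br (nat_lit 8) (nat_lit 1) (.cons (.br (nat_lit 4) (nat_lit 1) (.cons (.zr (nat_lit 40564819207303557020676616421888) (nat_lit 310693954087985250897494017) (nat_lit 5) (nat_lit 0)) (.cons (.rf (nat_lit 1746) (nat_lit 493858130620382808096)) .nil))) (.cons (.rf (nat_lit 1793) (nat_lit 493858305440582043680)) (.cons (.kr (nat_lit 18446744073709551616) (nat_lit 79228162514264337593543950336) (nat_lit 8) (nat_lit 0)) .nil)))) .nil)))),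
 (.br (nat_lit 12) (nat_lit 0) (.cons (.ev (nat_lit 79537652264898910705135190273) (nat_lit 1)) (.cons (.ev (nat_lit 20361637770888301525885417160961) (nat_lit 1)) .nil))),
 (.br (nat_lit 12) (nat_lit 0) (.cons (.rf (nat_lit 1746) (nat_lit 493857005819987593248)) (.cons (.rf (nat_lit 1746) (nat_lit 493857210329150359584)) .nil))),
 (.br (nat_lit 9) (nat_lit 1) (.cons (.rf (nat_lit 1781) (nat_lit 493786215892054541376)) (.cons (.rf (nat_lit 1793) (nat_lit 493857214725047289888)) .nil))),
 (.br (nat_lit 13) (nat_lit 0) (.cons (.br (nat_lit 10) (nat_lit 1) (.cons (.rf (nat_lit 1790) (nat_lit 493858305440582043680)) (.cons (.rf (nat_lit 1791) (nat_lit 493858305440582043680)) (.cons (.rf (nat_lit 1794) (nat_lit 493858305440582043680)) (.cons (.br (nat_lit 10) (nat_lit 1) (.cons (.rf (nat_lit 1790) (nat_lit 493858305440582043680)) (.cons (.rf (nat_lit 1791) (nat_lit 493858305440582043680)) (.cons (.rf (nat_lit 1794) (nat_lit 493858305440582043680)) .nil)))) .nil))))) (.cons (.br (nat_lit 8)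 (nat_lit 1) (.cons (.br (nat_lit 9) (nat_lit 1) (.cons (.br (nat_lit 9) (nat_lit 1) (.cons (.kr (nat_lit 4722438540463683141888) (nat_lit 2199040032768) (nat_lit 1) (nat_lit 0)) (.cons (.rf (nat_lit 1795) (nat_lit 493858305440582043680)) .nil))) (.cons (.br (nat_lit 9) (nat_lit 1) (.cons (.kr (nat_lit 4722438540463683141888) (nat_lit 2199040032768) (nat_lit 1) (nat_lit 0)) (.cons (.rf (nat_lit 1796) (nat_lit 493858305440582043680)) .nil))) (.cons (.br (nat_lit 9) (nat_lit 1) (.cons (.rf (nat_lit 1795) (nat_lit 493858305440582043680)) (.cons (.rf (nat_lit 1796) (nat_lit 493858305440582043680)) .nil))) .nil)))) (.cons (.br (nat_lit 7) (nat_lit 0) (.cons (.br (nat_lit 2) (nat_lit 0) (.cons (.br (nat_lit 10) (nat_lit 1) (.cons (.rf (nat_lit 1736) (nat_lit 458113265987693414432)) .nil)) (.cons (.rf (nat_lit 161) (nat_lit 15213487371895020576)) .nil))) (.cons (.rf (nat_lit 1797) (nat_lit 493858305440582043680)) (.cons (.ev (nat_lit 20282410812577490321150931107841) (nat_lit 1)) .nil)))) (.cons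 (.ev (nat_lit 20282409603670189507089992253441) (nat_lit 1)) (.cons (.br (nat_lit 12) (nat_lit 0) (.cons (.br (nat_lit 7) (nat_lit 0) (.cons (.br (nat_lit 2) (nat_lit 0) (.cons (.zr (nat_lit 79537652246452165531914141696) (nat_lit 20282409603651670423947268063745) (nat_lit 5) (nat_lit 9)) (.cons (.zr (nat_lit 20440865928680343214322415174144) (nat_lit 310693954087985250914271233) (nat_lit 5) (nat_lit 0)) .nil))) (.cons (.br (nat_lit 5) (nat_lit 0) (.cons (.br (nat_lit 2) (nat_lit 0) (.cons (.ev (nat_lit 79537652264898910705135190273) (nat_lit 1)) .nil)) .nil)) .nil))) (.cons (.br (nat_lit 4) (nat_lit 1) (.cons (.br (nat_lit 7) (nat_lit 0) (.cons (.zr (nat_lit 18590859261785604352) (nat_lit 309485009821626548030013441) (nat_lit 5) (nat_lit 0)) (.cons (.zr (nat_lit 158456325028672790375163953408) (nat_lit 309485028268370621739565057) (nat_lit 5) (nat_lit 0)) .nil))) (.cons (.br (nat_lit 10) (nat_lit 1) (.cons (.rf (nat_lit 1781) (nat_lit 458116579910368725024)) (.cons (.br (nat_lit 2) (nat_lit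 0) (.cons (.zr (nat_lit 36893491445954183168) (nat_lit 310698658007724046833156097) (nat_lit 5) (nat_lit 0)) .nil)) .nil))) (.cons (.br (nat_lit 5) (nat_lit 0) (.cons (.br (nat_lit 10) (nat_lit 1) (.cons (.ev (nat_lit 310698676526244235292246273) (nat_lit 1)) .nil)) (.cons (.br (nat_lit 9) (nat_lit 1) (.cons (.ev (nat_lit 79538861172343837755126644993) (nat_lit 1)) .nil)) .nil))) .nil)))) (.cons (.kr (nat_lit 18446744073709551616) (nat_lit 79228162514264337593543950336) (nat_lit 8) (nat_lit 0)) .nil)))) .nil))))) .nil))),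
 (.br (nat_lit 12) (nat_lit 0) (.cons (.br (nat_lit 8) (nat_lit 1) (.cons (.br (nat_lit 10) (nat_lit 1) (.cons (.br (nat_lit 9) (nat_lit 1) (.cons (.ev (nat_lit 20520096527935930579808225133828) (nat_lit 3)) .nil)) (.cons (.ev (nat_lit 79229371440156291291750138113) (nat_lit 1)) .nil))) (.cons (.br (nat_lit 2) (nat_lit 0) (.cons (.br (nat_lit 7) (nat_lit 0) (.cons (.ev (nat_lit 158767023742093370481356964354) (nat_lit 2)) .nil)) (.cons (.ev (nat_lit 18447025548686327809) (nat_lit 1)) .nil))) (.cons (.kr (nat_lit 18446744078004518912) (nat_lit 20282409603651670705422227996672) (nat_lit 4) (nat_lit 0)) .nil)))) (.cons (.br (nat_lit 2) (nat_lit 0) (.cons (.br (nat_lit 10) (nat_lit 1) (.cons (.rf (nat_lit 1742) (nat_lit 15433031329773619232)) (.cons (.br (nat_lit 5) (nat_lit 0) (.cons (.zr (nat_lit 9444949138521404407808) (nat_lit 310693954087985250897494017) (nat_lit 5) (nat_lit 0)) .nil)) .nil))) (.cons (.kr (nat_lit 20282409603651670423947251286272) (nat_lit 4722366482869645279232) (nat_lit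 1) (nat_lit 0)) .nil))) (.cons (.br (nat_lit 5) (nat_lit 0) (.cons (.br (nat_lit 2) (nat_lit 0) (.cons (.ev (nat_lit 20361947251194202851782741196801) (nat_lit 1)) (.cons (.rf (nat_lit 1742) (nat_lit 15433066515217352736)) .nil))) (.cons (.kr (nat_lit 20282409608374037188291873210624) (nat_lit 1208925819615732998078464) (nat_lit 1) (nat_lit 0)) .nil))) .nil)))),
 (.br (nat_lit 2) (nat_lit 0) (.cons (.kr (nat_lit 79228162514264337593543950592) (nat_lit 18446744073709617152) (nat_lit 1) (nat_lit 0)) (.cons (.rf (nat_lit 1738) (nat_lit 455774703715751135264)) .nil))),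
 (.br (nat_lit 12) (nat_lit 0) (.cons (.rf (nat_lit 1799) (nat_lit 493858305440582043680)) (.cons (.br (nat_lit 5) (nat_lit 0) (.cons (.rf (nat_lit 1800) (nat_lit 15433072009550071840)) (.cons (.ev (nat_lit 20282409608392483932365582762241) (nat_lit 1)) (.cons (.br (nat_lit 8) (nat_lit 1) (.cons (.ev (nat_lit 79538856468352042464664682753) (nat_lit 1)) (.cons (.rf (nat_lit 1797) (nat_lit 493857146555326367776)) .nil))) .nil)))) (.cons (.br (nat_lit 5) (nat_lit 0) (.cons (.br (nat_lit 7) (nat_lit 0) (.cons (.rf (nat_lit 1797) (nat_lit 493858265858168686624)) (.cons (.ev (nat_lit 4722366482873940181249) (nat_lit 1)) .nil))) (.cons (.br (nat_lit 9) (nat_lit 1) (.cons (.rf (nat_lit 1738) (nat_lit 493851583029715240992)) (.cons (.kr (nat_lit 79228167255077564536898715904) (nat_lit 2417851711286852404117504) (nat_lit 1) (nat_lit 0)) .nil))) (.cons (.br (nat_lit 7) (nat_lit 0) (.cons (.ev (nat_lit 4722366482873940181249) (nat_lit 1)) (.cons (.kr (nat_lit 4740813226943354765568) (nat_lit 1208925819615728703111168)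 (nat_lit 1) (nat_lit 0)) .nil))) .nil)))) .nil)))),
 (.br (nat_lit 12) (nat_lit 0) (.cons (.rf (nat_lit 1799) (nat_lit 493858305440582043680)) (.cons (.rf (nat_lit 1801) (nat_lit 493858305440582043680)) (.cons (.br (nat_lit 5) (nat_lit 0) (.cons (.rf (nat_lit 1800) (nat_lit 15433072009550071840)) (.cons (.br (nat_lit 2) (nat_lit 0) (.cons (.zr (nat_lit 237684487542793014979705438208) (nat_lit 20282720297587311665124422516737) (nat_lit 5) (nat_lit 6)) (.cons (.ev (nat_lit 79538856468352042464664682753) (nat_lit 1)) .nil))) .nil))) .nil)))),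
 (.br (nat_lit 13) (nat_lit 0) (.cons (.rf (nat_lit 1798) (nat_lit 493858305440582043680)) (.cons (.br (nat_lit 12) (nat_lit 0) (.cons (.rf (nat_lit 1799) (nat_lit 493858305440582043680)) (.cons (.rf (nat_lit 1801) (nat_lit 493858305440582043680)) (.cons (.rf (nat_lit 1802) (nat_lit 493858305440582043680)) (.cons (.br (nat_lit 12) (nat_lit 0) (.cons (.rf (nat_lit 1799) (nat_lit 493858305440582043680)) (.cons (.rf (nat_lit 1801) (nat_lit 493858305440582043680)) (.cons (.rf (nat_lit 1802) (nat_lit 493858305440582043680)) .nil)))) .nil))))) .nil))),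
 (.br (nat_lit 13) (nat_lit 0) (.cons (.rf (nat_lit 1798) (nat_lit 493858305440582043680)) (.cons (.rf (nat_lit 1803) (nat_lit 493858305440582043680)) (.cons (.br (nat_lit 13) (nat_lit 0) (.cons (.rf (nat_lit 1798) (nat_lit 493858305440582043680)) (.cons (.rf (nat_lit 1803) (nat_lit 493858305440582043680)) .nil))) .nil)))),
 (.br (nat_lit 9) (nat_lit 1) (.cons (.kr (nat_lit 20361637766166006819134833164544) (nat_lit 36893489246930796544) (nat_lit 1) (nat_lit 0)) .nil)),
 (.br (nat_lit 4) (nat_lit 1) (.cons (.br (nat_lit 9) (nat_lit 1) (.cons (.zr (nat_lit 20282409603651814540234838900992) (nat_lit 309489732188109417658449921) (nat_lit 5) (nat_lit 0)) (.cons (.br (nat_lit 8) (nat_lit 1) (.cons (.br (nat_lit 10) (nat_lit 1) (.cons (.ev (nat_lit 1208944338697771915739393) (nat_lit 1)) .nil)) (.cons (.br (nat_lit 7) (nat_lit 0) (.cons (.ev (nat_lit 79229376180897461740578603265) (nat_lit 1)) .nil)) .nil))) .nil))) (.cons (.rf (nat_lit 1781) (nat_lit 493606107091336004672)) (.cons (.br (nat_lit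 12) (nat_lit 0) (.cons (.br (nat_lit 7) (nat_lit 0) (.cons (.ev (nat_lit 79228167236703159532220645633) (nat_lit 1)) (.cons (.rf (nat_lit 1805) (nat_lit 493858305440582043680)) .nil))) (.cons (.ev (nat_lit 20282719093383858533364909801473) (nat_lit 1)) (.cons (.br (nat_lit 8) (nat_lit 1) (.cons (.rf (nat_lit 1800) (nat_lit 15433037924693805088)) (.cons (.ev (nat_lit 1208944338697771915739393) (nat_lit 1)) .nil))) .nil)))) .nil)))),
 (.br (nat_lit 9) (nat_lit 1) (.cons (.br (nat_lit 12) (nat_lit 0) (.cons (.kr (nat_lit 20361637766166006819134833164544) (nat_lit 36893489246930796544) (nat_lit 1) (nat_lit 0)) .nil)) (.cons (.rf (nat_lit 1800) (nat_lit 14316038568768800800)) .nil))),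
 (.br (nat_lit 4) (nat_lit 1) (.cons (.rf (nat_lit 1806) (nat_lit 493858305440582043680)) (.cons (.rf (nat_lit 1773) (nat_lit 385612875808)) (.cons (.br (nat_lit 7) (nat_lit 0) (.cons (.br (nat_lit 9) (nat_lit 1) (.cons (.br (nat_lit 10) (nat_lit 1) (.cons (.ev (nat_lit 79848350978608566711905158660) (nat_lit 3)) .nil)) (.cons (.rf (nat_lit 1800) (nat_lit 14316038566621317152)) .nil))) (.cons (.br (nat_lit 8) (nat_lit 1) (.cons (.ev (nat_lit 309489750634572012096389121) (nat_lit 1)) (.cons (.ev (nat_lit 20361637770906748271058655117313) (nat_lit 1)) .nil))) (.cons (.rf (nat_lit 1807) (nat_lit 493858305440582043680)) .nil)))) .nil)))),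
 (.br (nat_lit 5) (nat_lit 0) (.cons (.rf (nat_lit 1773) (nat_lit 385612875808)) (.cons (.rf (nat_lit 1797) (nat_lit 493858129518726842400)) (.cons (.rf (nat_lit 1797) (nat_lit 493858130618237421600)) (.cons (.rf (nat_lit 1797) (nat_lit 493857005817842206752)) .nil)))))]

theorem c60 : chkAll C T R L60 (nat_lit 1783) = true := by decide +kernel

theorem l60 : (nat_lit 1783) + L60.length = (nat_lit 1810) := by decide +kernel

/-- part of the certificates -/
def L61 : List Prf := [(.br (nat_lit 13) (nat_lit 0) (.cons (.rf (nat_lit 1804) (nat_lit 493858305440582043680)) (.cons (.br (nat_lit 4) (nat_lit 1) (.cons (.rf (nat_lit 1806) (nat_lit 493858305440582043680)) (.cons (.rf (nat_lit 1808) (nat_lit 493858305440582043680)) (.cons (.rf (nat_lit 1809) (nat_lit 493858305440582043680)) (.cons (.br (nat_lit 4) (nat_lit 1) (.cons (.rf (nat_lit 1806) (nat_lit 493858305440582043680)) (.cons (.rf (nat_lit 1808) (nat_lit 493858305440582043680)) (.cons (.rf (nat_lit 1809) (nat_lit 493858305440582043680))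 .nil)))) .nil))))) .nil))),
 (.br (nat_lit 13) (nat_lit 0) (.cons (.rf (nat_lit 1804) (nat_lit 493858305440582043680)) (.cons (.rf (nat_lit 1810) (nat_lit 493858305440582043680)) (.cons (.br (nat_lit 13) (nat_lit 0) (.cons (.rf (nat_lit 1804) (nat_lit 493858305440582043680)) (.cons (.rf (nat_lit 1810) (nat_lit 493858305440582043680)) .nil))) .nil)))),
 (.br (nat_lit 13) (nat_lit 0) (.cons (.rf (nat_lit 1804) (nat_lit 493858305440582043680)) (.cons (.rf (nat_lit 1811) (nat_lit 493858305440582043680)) (.cons (.br (nat_lit 13) (nat_lit 0) (.cons (.rf (nat_lit 1804) (nat_lit 493858305440582043680)) (.cons (.rf (nat_lit 1811) (nat_lit 493858305440582043680)) .nil))) .nil)))),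
 (.br (nat_lit 6) (nat_lit 1) (.cons (.rf (nat_lit 1771) (nat_lit 407901468851537952)) (.cons (.rf (nat_lit 1773) (nat_lit 385679984672)) (.cons (.br (nat_lit 12) (nat_lit 1) (.cons (.br (nat_lit 13) (nat_lit 0) (.cons (.rf (nat_lit 1804) (nat_lit 493858305440582043680)) (.cons (.rf (nat_lit 1811) (nat_lit 493858305440582043680)) (.cons (.rf (nat_lit 1812) (nat_lit 493858305440582043680)) (.cons (.br (nat_lit 13) (nat_lit 0) (.cons (.rf (nat_lit 1804) (nat_lit 493858305440582043680)) (.cons (.rf (nat_lit 1811) (nat_lit 493858305440582043680)) (.cons (.rf (nat_lit 1812) (nat_lit 493858305440582043680)) .nil)))) .nil))))) .nil)) .nil)))),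
 (.br (nat_lit 5) (nat_lit 0) (.cons (.rf (nat_lit 1742) (nat_lit 13052773373594142752)) .nil)),
 (.br (nat_lit 10) (nat_lit 1) (.cons (.br (nat_lit 4) (nat_lit 1) (.cons (.rf (nat_lit 1813) (nat_lit 372964484733568064)) (.cons (.br (nat_lit 12) (nat_lit 0) (.cons (.kr (nat_lit 79228162514264337593543950336) (nat_lit 20282409603651670423947251286016) (nat_lit 12) (nat_lit 0)) (.cons (.ev (nat_lit 20361948460101575722338206417153) (nat_lit 1)) .nil))) .nil))) (.cons (.rf (nat_lit 1768) (nat_lit 458116573319741409312)) (.cons (.br (nat_lit 12) (nat_lit 0) (.cons (.rf (nat_lit 1814) (nat_lit 482283430470584352)) (.cons (.kr (nat_lit 18446744073709551616) (nat_lit 79228162514264337593543950336) (nat_lit 8) (nat_lit 0)) (.cons (.br (nat_lit 9) (nat_lit 1) (.cons (.rf (nat_lit 1781) (nat_lit 493855950289896572960)) (.cons (.br (nat_lit 7) (nat_lit 0) (.cons (.ev (nat_lit 79228167236702878061538902273) (nat_lit 1)) (.cons (.br (nat_lit 4) (nat_lit 1) (.cons (.ev (nat_lit 158767019019726321371830092290)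 (nat_lit 2)) .nil)) .nil))) .nil))) .nil)))) .nil)))),
 (.br (nat_lit 9) (nat_lit 1) (.cons (.rf (nat_lit 1768) (nat_lit 458117699218574510112)) (.cons (.br (nat_lit 4) (nat_lit 1) (.cons (.ev (nat_lit 79229376162450716567340646401) (nat_lit 1)) (.cons (.br (nat_lit 8) (nat_lit 1) (.cons (.ev (nat_lit 313125973043120673808056834) (nat_lit 2)) .nil)) .nil))) .nil))),
 (.br (nat_lit 10) (nat_lit 1) (.cons (.rf (nat_lit 1815) (nat_lit 493858305440582043680)) (.cons (.rf (nat_lit 1773) (nat_lit 385814202400)) (.cons (.br (nat_lit 9) (nat_lit 1) (.cons (.rf (nat_lit 1781) (nat_lit 493855949191458687008)) (.cons (.rf (nat_lit 1816) (nat_lit 493858305440582043680)) (.cons (.br (nat_lit 9) (nat_lit 1) (.cons (.rf (nat_lit 1781) (nat_lit 493855949191458687008)) (.cons (.rf (nat_lit 1816) (nat_lit 493858305440582043680)) .nil))) .nil)))) .nil)))),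
 (.br (nat_lit 10) (nat_lit 1) (.cons (.rf (nat_lit 1768) (nat_lit 458116573319741409312)) (.cons (.rf (nat_lit 1773) (nat_lit 385814202400)) (.cons (.br (nat_lit 7) (nat_lit 0) (.cons (.br (nat_lit 2) (nat_lit 0) (.cons (.br (nat_lit 5) (nat_lit 0) (.cons (.br (nat_lit 12) (nat_lit 0) (.cons (.ev (nat_lit 313125973043120673808056834) (nat_lit 2)) .nil)) .nil)) (.cons (.ev (nat_lit 20282410812577562096174775730433) (nat_lit 1)) .nil))) (.cons (.br (nat_lit 2) (nat_lit 0) (.cons (.br (nat_lit 5) (nat_lit 0) (.cons (.br (nat_lit 9) (nat_lit 1) (.cons (.ev (nat_lit 79229376162450716567340646401) (nat_lit 1)) .nil)) .nil)) (.cons (.br (nat_lit 12) (nat_lit 0) (.cons (.ev (nat_lit 20361638975110273177842029232385) (nat_lit 1)) (.cons (.br (nat_lit 5) (nat_lit 0) (.cons (.ev (nat_lit 20837009159177164857611626152708) (nat_lit 3)) .nil)) .nil))) .nil))) (.cons (.rf (nat_lit 1809) (nat_lit 493855943693905791008)) .nil)))) .nil)))),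
 (.br (nat_lit 10) (nat_lit 1) (.cons (.rf (nat_lit 1815) (nat_lit 493858305440582043680)) (.cons (.rf (nat_lit 1817) (nat_lit 493858305440582043680)) (.cons (.rf (nat_lit 1818) (nat_lit 493858305440582043680)) (.cons (.br (nat_lit 10) (nat_lit 1) (.cons (.rf (nat_lit 1815) (nat_lit 493858305440582043680)) (.cons (.rf (nat_lit 1817) (nat_lit 493858305440582043680)) (.cons (.rf (nat_lit 1818) (nat_lit 493858305440582043680)) .nil)))) .nil))))),
 (.br (nat_lit 5) (nat_lit 0) (.cons (.br (nat_lit 7) (nat_lit 0) (.cons (.rf (nat_lit 1773) (nat_lit 385747093536)) (.cons (.kr (nat_lit 20282409603651670425051057881088) (nat_lit 4722438821938659852288) (nat_lit 4) (nat_lit 0)) (.cons (.br (nat_lit 10) (nat_lit 1) (.cons (.rf (nat_lit 1789) (nat_lit 372964416081200192)) (.cons (.br (nat_lit 12) (nat_lit 0) (.cons (.br (nat_lit 2) (nat_lit 0) (.cons (.ev (nat_lit 79537652264970967199661424641) (nat_lit 1)) .nil)) (.cons (.ev (nat_lit 79229371440083953326542028801) (nat_lit 1)) .nil))) .nil))) .nil))))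 (.cons (.ev (nat_lit 4722366482873940181249) (nat_lit 1)) (.cons (.br (nat_lit 10) (nat_lit 1) (.cons (.rf (nat_lit 1813) (nat_lit 372964484733568064)) (.cons (.rf (nat_lit 1773) (nat_lit 385814202400)) (.cons (.br (nat_lit 2) (nat_lit 0) (.cons (.rf (nat_lit 1781) (nat_lit 493857073991853901856)) (.cons (.br (nat_lit 7) (nat_lit 0) (.cons (.br (nat_lit 12) (nat_lit 0) (.cons (.ev (nat_lit 20837625720826649529081739543300) (nat_lit 3)) .nil)) .nil)) .nil))) .nil)))) .nil)))),
 (.br (nat_lit 8) (nat_lit 1) (.cons (.rf (nat_lit 1768) (nat_lit 458117734401872857120)) (.cons (.rf (nat_lit 1773) (nat_lit 385747093536)) (.cons (.br (nat_lit 7) (nat_lit 0) (.cons (.rf (nat_lit 1820) (nat_lit 493858305440582043680)) (.cons (.br (nat_lit 5) (nat_lit 0) (.cons (.ev (nat_lit 4722366482873940181249) (nat_lit 1)) (.cons (.br (nat_lit 2) (nat_lit 0) (.cons (.br (nat_lit 12) (nat_lit 0) (.cons (.ev (nat_lit 80156627006908648874091675650) (nat_lit 2)) .nil)) (.cons (.ev (nat_lit 310693935713017291937415169)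 (nat_lit 1)) .nil))) .nil))) (.cons (.rf (nat_lit 1809) (nat_lit 493857069591666198560)) .nil)))) .nil)))),
 (.br (nat_lit 7) (nat_lit 0) (.cons (.rf (nat_lit 1820) (nat_lit 493858305440582043680)) (.cons (.rf (nat_lit 1821) (nat_lit 493858305440582043680)) (.cons (.br (nat_lit 10) (nat_lit 1) (.cons (.rf (nat_lit 1768) (nat_lit 458115482604206655520)) (.cons (.rf (nat_lit 1773) (nat_lit 385814202400)) (.cons (.ev (nat_lit 1213648258436567851335681) (nat_lit 1)) .nil)))) .nil)))),
 (.br (nat_lit 8) (nat_lit 1) (.cons (.br (nat_lit 4) (nat_lit 1) (.cons (.br (nat_lit 10) (nat_lit 1) (.cons (.ev (nat_lit 1208944266359806707630081) (nat_lit 1)) .nil)) (.cons (.rf (nat_lit 1819) (nat_lit 458117738797769787424)) .nil))) .nil)),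
 (.br (nat_lit 9) (nat_lit 1) (.cons (.br (nat_lit 8) (nat_lit 1) (.cons (.rf (nat_lit 1823) (nat_lit 493858305440582043680)) (.cons (.br (nat_lit 8) (nat_lit 1) (.cons (.rf (nat_lit 1823) (nat_lit 493858305440582043680)) .nil)) .nil))) (.cons (.rf (nat_lit 1768) (nat_lit 458115517787505002528)) (.cons (.br (nat_lit 12) (nat_lit 0) (.cons (.rf (nat_lit 1814) (nat_lit 482282330958956576)) (.cons (.br (nat_lit 8) (nat_lit 1) (.cons (.rf (nat_lit 1781) (nat_lit 493858200989124888608)) (.cons (.br (nat_lit 5) (nat_lit 0) (.cons (.br (nat_lit 10) (nat_lit 1) (.cons (.ev (nat_lit 1208925891673327019294721) (nat_lit 1)) .nil)) (.cons (.br (nat_lit 4) (nat_lit 1) (.cons (.ev (nat_lit 1208925891673327019294721) (nat_lit 1)) .nil)) .nil))) .nil))) (.cons (.rf (nat_lit 1814) (nat_lit 482282335256021024)) .nil)))) .nil)))),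
 (.br (nat_lit 8) (nat_lit 1) (.cons (.rf (nat_lit 1768) (nat_lit 458116643686338103328)) (.cons (.br (nat_lit 10) (nat_lit 1) (.cons (.br (nat_lit 7) (nat_lit 0) (.cons (.ev (nat_lit 159077717622393531722524263170) (nat_lit 2)) .nil)) (.cons (.br (nat_lit 4) (nat_lit 1) (.cons (.ev (nat_lit 80159035413959025382203130370) (nat_lit 2)) .nil)) .nil))) .nil))),
 (.br (nat_lit 9) (nat_lit 1) (.cons (.rf (nat_lit 1824) (nat_lit 493858305440582043680)) (.cons (.rf (nat_lit 1773) (nat_lit 385780647968)) (.cons (.br (nat_lit 8) (nat_lit 1) (.cons (.rf (nat_lit 1781) (nat_lit 493858199890687002656)) (.cons (.rf (nat_lit 1825) (nat_lit 493858305440582043680)) (.cons (.br (nat_lit 8) (nat_lit 1) (.cons (.rf (nat_lit 1781) (nat_lit 493858199890687002656)) (.cons (.rf (nat_lit 1825) (nat_lit 493858305440582043680)) .nil))) .nil)))) .nil)))),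
 (.br (nat_lit 9) (nat_lit 1) (.cons (.rf (nat_lit 1768) (nat_lit 458115517787505002528)) (.cons (.rf (nat_lit 1773) (nat_lit 385780647968)) (.cons (.br (nat_lit 7) (nat_lit 0) (.cons (.br (nat_lit 5) (nat_lit 0) (.cons (.br (nat_lit 2) (nat_lit 0) (.cons (.br (nat_lit 10) (nat_lit 1) (.cons (.ev (nat_lit 79538856468352042464664682753) (nat_lit 1)) .nil)) (.cons (.br (nat_lit 12) (nat_lit 0) (.cons (.ev (nat_lit 79538856468352042464664682753) (nat_lit 1)) .nil)) .nil))) (.cons (.ev (nat_lit 20282409608374036907920719872001) (nat_lit 1)) .nil))) (.cons (.rf (nat_lit 1809) (nat_lit 493858195492644685856)) (.cons (.ev (nat_lit 1213648258436567851335681) (nat_lit 1)) .nil)))) .nil)))),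
 (.br (nat_lit 13) (nat_lit 0) (.cons (.rf (nat_lit 1819) (nat_lit 493858305440582043680)) (.cons (.br (nat_lit 7) (nat_lit 0) (.cons (.rf (nat_lit 1820) (nat_lit 493858305440582043680)) (.cons (.rf (nat_lit 1821) (nat_lit 493858305440582043680)) (.cons (.rf (nat_lit 1822) (nat_lit 493858305440582043680)) (.cons (.br (nat_lit 7) (nat_lit 0) (.cons (.rf (nat_lit 1820) (nat_lit 493858305440582043680)) (.cons (.rf (nat_lit 1821) (nat_lit 493858305440582043680)) (.cons (.rf (nat_lit 1822) (nat_lit 493858305440582043680)) .nil)))) .nil))))) (.cons (.br (nat_lit 9) (nat_lit 1) (.cons (.rf (nat_lit 1824) (nat_lit 493858305440582043680)) (.cons (.rf (nat_lit 1826) (nat_lit 493858305440582043680)) (.cons (.rf (nat_lit 1827) (nat_lit 493858305440582043680)) (.cons (.br (nat_lit 9) (nat_lit 1) (.cons (.rf (nat_lit 1824) (nat_lit 493858305440582043680)) (.cons (.rf (nat_lit 1826) (nat_lit 493858305440582043680)) (.cons (.rf (nat_lit 1827) (nat_lit 493858305440582043680)) .nil)))) .nil))))) .nil)))),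
 (.br (nat_lit 12) (nat_lit 0) (.cons (.rf (nat_lit 1828) (nat_lit 458117738797769787424)) (.cons (.kr (nat_lit 79228162514264337593543950336) (nat_lit 20282409603651670423947251286016) (nat_lit 12) (nat_lit 0)) (.cons (.br (nat_lit 2) (nat_lit 0) (.cons (.br (nat_lit 5) (nat_lit 0) (.cons (.br (nat_lit 8) (nat_lit 1) (.cons (.br (nat_lit 7) (nat_lit 0) (.cons (.ev (nat_lit 79229376180969518235104837633) (nat_lit 1)) .nil)) .nil)) (.cons (.rf (nat_lit 1742) (nat_lit 15433033524499810336)) (.cons (.rf (nat_lit 1742) (nat_lit 15433033524501907488)) .nil)))) (.cons (.rf (nat_lit 1814) (nat_lit 447378337558530080)) (.cons (.rf (nat_lit 1814) (nat_lit 482283433693906976)) .nil)))) .nil)))),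
 (.br (nat_lit 12) (nat_lit 0) (.cons (.rf (nat_lit 1828) (nat_lit 458117738797769787424)) (.cons (.kr (nat_lit 18446744073709551616) (nat_lit 20282409603651670423947251286016) (nat_lit 8) (nat_lit 0)) (.cons (.br (nat_lit 2) (nat_lit 0) (.cons (.br (nat_lit 4) (nat_lit 1) (.cons (.ev (nat_lit 20282719088661492051594759372801) (nat_lit 1)) (.cons (.rf (nat_lit 1768) (nat_lit 493856089922506688544)) .nil))) (.cons (.rf (nat_lit 1814) (nat_lit 447378338632271904)) (.cons (.rf (nat_lit 1814) (nat_lit 482282335256021024)) .nil)))) .nil)))),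
 (.br (nat_lit 13) (nat_lit 0) (.cons (.rf (nat_lit 1828) (nat_lit 493858305440582043680)) (.cons (.br (nat_lit 12) (nat_lit 0) (.cons (.rf (nat_lit 1828) (nat_lit 458117738797769787424)) (.cons (.br (nat_lit 12) (nat_lit 0) (.cons (.rf (nat_lit 1828) (nat_lit 458117738797769787424)) (.cons (.kr (nat_lit 79228162514264337593543950336) (nat_lit 20282409603651670423947251286016) (nat_lit 12) (nat_lit 0)) (.cons (.kr (nat_lit 18446744073709551616) (nat_lit 79228162514264337593543950336) (nat_lit 8) (nat_lit 0)) .nil)))) (.cons (.rf (nat_lit 1829) (nat_lit 493858305440582043680)) (.cons (.br (nat_lit 12) (nat_lit 0) (.cons (.rf (nat_lit 1828) (nat_lit 458117738797769787424)) (.cons (.kr (nat_lit 18446744073709551616) (nat_lit 79228162514264337593543950336) (nat_lit 8) (nat_lit 0)) (.cons (.rf (nat_lit 1829) (nat_lit 493858305440582043680)) .nil)))) .nil))))) (.cons (.br (nat_lit 12) (nat_lit 0) (.cons (.rf (nat_lit 1828) (nat_lit 458117738797769787424)) (.cons (.kr (nat_lit 18446744073709551616)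 (nat_lit 20282409603651670423947251286016) (nat_lit 8) (nat_lit 0)) (.cons (.rf (nat_lit 1830) (nat_lit 493858305440582043680)) (.cons (.br (nat_lit 12) (nat_lit 0) (.cons (.rf (nat_lit 1828) (nat_lit 458117738797769787424)) (.cons (.kr (nat_lit 18446744073709551616) (nat_lit 20282409603651670423947251286016) (nat_lit 8) (nat_lit 0)) (.cons (.rf (nat_lit 1830) (nat_lit 493858305440582043680)) .nil)))) .nil))))) .nil)))),
 (.br (nat_lit 13) (nat_lit 0) (.cons (.rf (nat_lit 1828) (nat_lit 493858305440582043680)) (.cons (.rf (nat_lit 1831) (nat_lit 493858305440582043680)) (.cons (.br (nat_lit 12) (nat_lit 0) (.cons (.rf (nat_lit 1828) (nat_lit 458117738797769787424)) (.cons (.rf (nat_lit 1831) (nat_lit 458117738797769787424)) (.cons (.br (nat_lit 12) (nat_lit 0) (.cons (.rf (nat_lit 1828) (nat_lit 458117738797769787424)) (.cons (.rf (nat_lit 1831) (nat_lit 458117738797769787424)) (.cons (.kr (nat_lit 79228162514264337593543950336) (nat_lit 20282409603651670423947251286016) (nat_lit 12) (nat_lit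 0)) .nil)))) (.cons (.br (nat_lit 12) (nat_lit 0) (.cons (.rf (nat_lit 1828) (nat_lit 458117738797769787424)) (.cons (.rf (nat_lit 1831) (nat_lit 458117738797769787424)) (.cons (.kr (nat_lit 79228162514264337593543950336) (nat_lit 20282409603651670423947251286016) (nat_lit 12) (nat_lit 0)) .nil)))) .nil))))) .nil)))),
 (.br (nat_lit 6) (nat_lit 1) (.cons (.rf (nat_lit 1771) (nat_lit 407901468851537952)) (.cons (.rf (nat_lit 1789) (nat_lit 407901468851537952)) (.cons (.rf (nat_lit 1813) (nat_lit 407901468851537952)) (.cons (.br (nat_lit 12) (nat_lit 1) (.cons (.br (nat_lit 6) (nat_lit 1) (.cons (.rf (nat_lit 1771) (nat_lit 407901468851537952)) (.cons (.rf (nat_lit 1789) (nat_lit 407901468851537952)) (.cons (.rf (nat_lit 1813) (nat_lit 407901468851537952)) (.cons (.br (nat_lit 13) (nat_lit 0) (.cons (.rf (nat_lit 1828) (nat_lit 493858305440582043680)) (.cons (.rf (nat_lit 1831) (nat_lit 493858305440582043680)) (.cons (.rf (nat_lit 1832) (nat_lit 493858305440582043680)) (.cons (.br (nat_lit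 13) (nat_lit 0) (.cons (.rf (nat_lit 1828) (nat_lit 493858305440582043680)) (.cons (.rf (nat_lit 1831) (nat_lit 493858305440582043680)) (.cons (.rf (nat_lit 1832) (nat_lit 493858305440582043680)) .nil)))) .nil))))) .nil))))) .nil)) .nil))))),
 (.br (nat_lit 8) (nat_lit 1) (.cons (.ev (nat_lit 310693935640960797411115009) (nat_lit 1)) (.cons (.br (nat_lit 9) (nat_lit 1) (.cons (.ev (nat_lit 310693935713017291937415169) (nat_lit 1)) (.cons (.br (nat_lit 5) (nat_lit 0) (.cons (.ev (nat_lit 20361637766184381505618799755521) (nat_lit 1)) (.cons (.ev (nat_lit 18447025548686327809) (nat_lit 1)) .nil))) .nil))) (.cons (.br (nat_lit 9) (nat_lit 1) (.cons (.br (nat_lit 5) (nat_lit 0) (.cons (.kr (nat_lit 20282409608374036906816896565248) (nat_lit 79228162514264338693072355328) (nat_lit 2) (nat_lit 0)) (.cons (.kr (nat_lit 4759259971017064317184) (nat_lit 158456325028528676286616305664) (nat_lit 1) (nat_lit 0)) .nil))) .nil)) .nil))))]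

theorem c61 : chkAll C T R L61 (nat_lit 1810) = true := by decide +kernel

theorem l61 : (nat_lit 1810) + L61.length = (nat_lit 1835) := by decide +kernel

/-- part of the certificates -/
def L62 : List Prf := [(.br (nat_lit 10) (nat_lit 1) (.cons (.rf (nat_lit 1833) (nat_lit 372964484733568064)) (.cons (.rf (nat_lit 1833) (nat_lit 372964416081200192)) (.cons (.br (nat_lit 9) (nat_lit 1) (.cons (.rf (nat_lit 1834) (nat_lit 493858305440582043680)) (.cons (.rf (nat_lit 1834) (nat_lit 493858305371929675808)) (.cons (.br (nat_lit 9) (nat_lit 1) (.cons (.rf (nat_lit 1834) (nat_lit 493858305440582043680)) (.cons (.rf (nat_lit 1834) (nat_lit 493858305371929675808)) .nil))) .nil)))) .nil)))),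
 (.br (nat_lit 9) (nat_lit 1) (.cons (.kr (nat_lit 20282409603651742481541289214208) (nat_lit 79228162514264338693055643648) (nat_lit 1) (nat_lit 0)) .nil)),
 (.br (nat_lit 11) (nat_lit 0) (.cons (.kr (nat_lit 79228162514264337593543950592) (nat_lit 309485009821345068724846592) (nat_lit 1) (nat_lit 0)) (.cons (.br (nat_lit 6) (nat_lit 1) (.cons (.rf (nat_lit 1836) (nat_lit 455774881829118642208)) (.cons (.rf (nat_lit 1836) (nat_lit 455774881760466274336)) .nil))) .nil))),
 (.br (nat_lit 2) (nat_lit 0) (.cons (.rf (nat_lit 1837) (nat_lit 15433068713162672160)) (.cons (.rf (nat_lit 1837) (nat_lit 15433070910038444064)) (.cons (.br (nat_lit 9) (nat_lit 1) (.cons (.rf (nat_lit 1773) (nat_lit 317094724672)) (.cons (.rf (nat_lit 1773) (nat_lit 314949338176)) (.cons (.ev (nat_lit 20361948464823942204108356780033) (nat_lit 1)) .nil)))) .nil)))),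
 (.br (nat_lit 2) (nat_lit 0) (.cons (.rf (nat_lit 1837) (nat_lit 15433066514141513760)) (.cons (.rf (nat_lit 1837) (nat_lit 15433070907893057568)) (.cons (.br (nat_lit 9) (nat_lit 1) (.cons (.rf (nat_lit 1773) (nat_lit 317094724672)) (.cons (.rf (nat_lit 1773) (nat_lit 314949338176)) (.cons (.br (nat_lit 7) (nat_lit 0) (.cons (.ev (nat_lit 309489732259885532407922689) (nat_lit 1)) (.cons (.ev (nat_lit 20361947255898194647073203224833) (nat_lit 1)) .nil))) .nil)))) .nil)))),
 (.br (nat_lit 9) (nat_lit 1) (.cons (.rf (nat_lit 1805) (nat_lit 493781568260706239552)) .nil)),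
 (.br (nat_lit 5) (nat_lit 0) (.cons (.ev (nat_lit 20282410812577490039680249430273) (nat_lit 1)) (.cons (.br (nat_lit 8) (nat_lit 1) (.cons (.br (nat_lit 9) (nat_lit 1) (.cons (.ev (nat_lit 40565129906016905543188771700994) (nat_lit 2)) (.cons (.ev (nat_lit 79538861190718524234815045633) (nat_lit 1)) .nil))) (.cons (.rf (nat_lit 1840) (nat_lit 493858305440582043680)) .nil))) (.cons (.br (nat_lit 4) (nat_lit 1) (.cons (.br (nat_lit 12) (nat_lit 0) (.cons (.br (nat_lit 9) (nat_lit 1) (.cons (.ev (nat_lit 20837009159177164857611626415876) (nat_lit 3)) .nil)) (.cons (.ev (nat_lit 20361637766184381505618799755521) (nat_lit 1)) .nil))) (.cons (.br (nat_lit 6) (nat_lit 1) (.cons (.br (nat_lit 7) (nat_lit 0) (.cons (.ev (nat_lit 158767023741949253094257787650) (nat_lit 2)) .nil)) .nil)) .nil))) (.cons (.rf (nat_lit 1781) (nat_lit 493783893796444013632)) .nil))))),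
 (.br (nat_lit 8) (nat_lit 1) (.cons (.br (nat_lit 4) (nat_lit 1) (.cons (.kr (nat_lit 20282409603651670425046762914048) (nat_lit 79228162514336395187581943808) (nat_lit 1) (nat_lit 0)) .nil)) .nil)),
 (.br (nat_lit 2) (nat_lit 0) (.cons (.rf (nat_lit 1842) (nat_lit 493858305438436657184)) (.cons (.rf (nat_lit 1842) (nat_lit 493858305440582043680)) (.cons (.rf (nat_lit 1842) (nat_lit 493858303243706271776)) .nil)))),
 (.br (nat_lit 9) (nat_lit 1) (.cons (.rf (nat_lit 1781) (nat_lit 493783893796444013632)) (.cons (.br (nat_lit 12) (nat_lit 0) (.cons (.rf (nat_lit 1839) (nat_lit 493857212523880744992)) (.cons (.rf (nat_lit 1839) (nat_lit 493857210327004973088)) (.cons (.br (nat_lit 7) (nat_lit 0) (.cons (.kr (nat_lit 20282409603651670425046762913792) (nat_lit 18518801667747479552) (nat_lit 5) (nat_lit 0)) (.cons (.kr (nat_lit 4759259971017064317184) (nat_lit 158456325028600732781142605824) (nat_lit 1) (nat_lit 0)) .nil))) .nil)))) (.cons (.rf (nat_lit 1843) (nat_lit 493858305440582043680))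 .nil)))),
 (.br (nat_lit 9) (nat_lit 1) (.cons (.rf (nat_lit 1841) (nat_lit 493858305440582043680)) (.cons (.rf (nat_lit 1844) (nat_lit 493858305440582043680)) (.cons (.br (nat_lit 6) (nat_lit 1) (.cons (.br (nat_lit 8) (nat_lit 1) (.cons (.br (nat_lit 7) (nat_lit 0) (.cons (.ev (nat_lit 18518802771554140161) (nat_lit 1)) .nil)) (.cons (.br (nat_lit 4) (nat_lit 1) (.cons (.ev (nat_lit 18518802771554140161) (nat_lit 1)) .nil)) .nil))) (.cons (.br (nat_lit 7) (nat_lit 0) (.cons (.ev (nat_lit 79229371440156291291750072321) (nat_lit 1)) (.cons (.br (nat_lit 4) (nat_lit 1) (.cons (.zr (nat_lit 79537647524301855448711036928) (nat_lit 1213666633123047506313217) (nat_lit 5) (nat_lit 9)) .nil)) .nil))) (.cons (.br (nat_lit 5) (nat_lit 0) (.cons (.br (nat_lit 8) (nat_lit 1) (.cons (.ev (nat_lit 21155793226440167381276601680136) (nat_lit 4)) .nil)) (.cons (.ev (nat_lit 79228167236631103037694279681) (nat_lit 1)) .nil))) .nil)))) .nil)))),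
 (.br (nat_lit 10) (nat_lit 1) (.cons (.rf (nat_lit 1833) (nat_lit 372964484733568064)) (.cons (.br (nat_lit 12) (nat_lit 0) (.cons (.rf (nat_lit 1838) (nat_lit 493858305440582043680)) (.cons (.rf (nat_lit 1839) (nat_lit 493858305440582043680)) (.cons (.rf (nat_lit 1839) (nat_lit 493858303243706271776)) (.cons (.br (nat_lit 12) (nat_lit 0) (.cons (.rf (nat_lit 1838) (nat_lit 493858305440582043680)) (.cons (.rf (nat_lit 1839) (nat_lit 493858305440582043680)) (.cons (.rf (nat_lit 1839) (nat_lit 493858303243706271776)) .nil)))) .nil))))) (.cons (.br (nat_lit 9) (nat_lit 1) (.cons (.rf (nat_lit 1841) (nat_lit 493858305440582043680)) (.cons (.rf (nat_lit 1844) (nat_lit 493858305440582043680)) (.cons (.rf (nat_lit 1845) (nat_lit 493858305440582043680)) (.cons (.br (nat_lit 9) (nat_lit 1) (.cons (.rf (nat_lit 1841) (nat_lit 493858305440582043680)) (.cons (.rf (nat_lit 1843) (nat_lit 493858305440582043680)) (.cons (.rf (nat_lit 1845) (nat_lit 493858305440582043680)) .nil)))) .nil))))) .nil)))),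
 (.br (nat_lit 10) (nat_lit 1) (.cons (.kr (nat_lit 256) (nat_lit 65536) (nat_lit 1) (nat_lit 0)) (.cons (.rf (nat_lit 1833) (nat_lit 372964484733568064)) (.cons (.rf (nat_lit 1833) (nat_lit 372964416081200192)) (.cons (.br (nat_lit 11) (nat_lit 1) (.cons (.rf (nat_lit 1835) (nat_lit 493823368456464073792)) (.cons (.rf (nat_lit 1846) (nat_lit 493823368456464073792)) (.cons (.rf (nat_lit 1846) (nat_lit 493823368387811705920)) (.cons (.br (nat_lit 11) (nat_lit 1) (.cons (.rf (nat_lit 1835) (nat_lit 493823368456464073792)) (.cons (.rf (nat_lit 1846) (nat_lit 493823368456464073792)) (.cons (.rf (nat_lit 1846) (nat_lit 493823368387811705920)) .nil)))) .nil))))) .nil))))),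
 (.br (nat_lit 7) (nat_lit 0) (.cons (.ev (nat_lit 4722366482873940181249) (nat_lit 1)) (.cons (.ev (nat_lit 1213648186380073325035521) (nat_lit 1)) .nil))),
 (.br (nat_lit 2) (nat_lit 0) (.cons (.rf (nat_lit 1837) (nat_lit 15433068714236413984)) (.cons (.br (nat_lit 8) (nat_lit 1) (.cons (.rf (nat_lit 1773) (nat_lit 282734986304)) (.cons (.rf (nat_lit 1773) (nat_lit 280589599808)) (.cons (.br (nat_lit 5) (nat_lit 0) (.cons (.br (nat_lit 9) (nat_lit 1) (.cons (.ev (nat_lit 1213648258436567851335681) (nat_lit 1)) .nil)) (.cons (.rf (nat_lit 1848) (nat_lit 493858305440582043680)) .nil))) .nil)))) (.cons (.rf (nat_lit 1837) (nat_lit 15433072009550071840)) .nil)))),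
 (.br (nat_lit 2) (nat_lit 0) (.cons (.rf (nat_lit 1837) (nat_lit 15433066515215255584)) (.cons (.br (nat_lit 8) (nat_lit 1) (.cons (.rf (nat_lit 1773) (nat_lit 282734986304)) (.cons (.rf (nat_lit 1773) (nat_lit 280589599808)) (.cons (.br (nat_lit 5) (nat_lit 0) (.cons (.rf (nat_lit 1839) (nat_lit 457857655747363806368)) (.cons (.rf (nat_lit 1848) (nat_lit 493858305440582043680)) .nil))) .nil)))) (.cons (.rf (nat_lit 1837) (nat_lit 15433072007404685344)) .nil)))),
 (.br (nat_lit 12) (nat_lit 0) (.cons (.rf (nat_lit 1849) (nat_lit 493858305440582043680)) (.cons (.rf (nat_lit 1850) (nat_lit 493858305440582043680)) (.cons (.br (nat_lit 6) (nat_lit 1) (.cons (.kr (nat_lit 20282409603651670423947251286272) (nat_lit 4722366482869645279232) (nat_lit 1) (nat_lit 0)) (.cons (.kr (nat_lit 40564820416229160462523677278464) (nat_lit 79228167236630821562717569024) (nat_lit 1) (nat_lit 0)) (.cons (.kr (nat_lit 40564820416229160462523677278464) (nat_lit 79228167236702878057243869184) (nat_lit 1) (nat_lit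 0)) .nil)))) .nil)))),
 (.br (nat_lit 7) (nat_lit 0) (.cons (.kr (nat_lit 20361637766166006819134833164544) (nat_lit 9444732966838802120704) (nat_lit 1) (nat_lit 0)) .nil)),
 (.br (nat_lit 5) (nat_lit 0) (.cons (.ev (nat_lit 20282410812577490039680249430273) (nat_lit 1)) (.cons (.br (nat_lit 8) (nat_lit 1) (.cons (.br (nat_lit 9) (nat_lit 1) (.cons (.ev (nat_lit 20282719093402377053553368760321) (nat_lit 1)) (.cons (.rf (nat_lit 1852) (nat_lit 493858305440582043680)) .nil))) (.cons (.br (nat_lit 9) (nat_lit 1) (.cons (.ev (nat_lit 79538861190718524234815045633) (nat_lit 1)) .nil)) .nil))) (.cons (.rf (nat_lit 1781) (nat_lit 493748990899331892288)) (.cons (.br (nat_lit 4) (nat_lit 1) (.cons (.ev (nat_lit 4722366482873940181249) (nat_lit 1)) (.cons (.br (nat_lit 8) (nat_lit 1) (.cons (.br (nat_lit 6) (nat_lit 1) (.cons (.ev (nat_lit 20521951010808878121941073200388) (nat_lit 3)) .nil)) .nil)) .nil))) .nil))))),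
 (.br (nat_lit 12) (nat_lit 0) (.cons (.rf (nat_lit 1837) (nat_lit 15433001640805894176)) (.cons (.rf (nat_lit 1837) (nat_lit 15433001638660507680)) .nil))),
 (.br (nat_lit 8) (nat_lit 1) (.cons (.rf (nat_lit 1781) (nat_lit 493748990899331892288)) (.cons (.br (nat_lit 2) (nat_lit 0) (.cons (.rf (nat_lit 1854) (nat_lit 493858129521944922144)) (.cons (.rf (nat_lit 1854) (nat_lit 493858199890687002656)) (.cons (.rf (nat_lit 1854) (nat_lit 493858305440582043680)) .nil)))) (.cons (.rf (nat_lit 1843) (nat_lit 493858271355721582624)) .nil)))),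
 (.br (nat_lit 8) (nat_lit 1) (.cons (.rf (nat_lit 1853) (nat_lit 493858305440582043680)) (.cons (.rf (nat_lit 1855) (nat_lit 493858305440582043680)) (.cons (.br (nat_lit 9) (nat_lit 1) (.cons (.br (nat_lit 5) (nat_lit 0) (.cons (.br (nat_lit 6) (nat_lit 1) (.cons (.zr (nat_lit 1208962713384260160455424) (nat_lit 158765814760860618313550528513) (nat_lit 5) (nat_lit 3)) .nil)) (.cons (.ev (nat_lit 20282410812577490321150931173633) (nat_lit 1)) .nil))) (.cons (.br (nat_lit 7) (nat_lit 0) (.cons (.ev (nat_lit 4722366482873940181249) (nat_lit 1)) (.cons (.ev (nat_lit 20282409603670117450595465953281) (nat_lit 1)) .nil))) (.cons (.br (nat_lit 4) (nat_lit 1) (.cons (.br (nat_lit 6) (nat_lit 1) (.cons (.ev (nat_lit 158767033131485819230318887170) (nat_lit 2)) .nil)) (.cons (.ev (nat_lit 4722366482873940181249) (nat_lit 1)) .nil))) .nil)))) .nil)))),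
 (.br (nat_lit 10) (nat_lit 1) (.cons (.rf (nat_lit 1833) (nat_lit 372964484733568064)) (.cons (.br (nat_lit 12) (nat_lit 0) (.cons (.rf (nat_lit 1849) (nat_lit 493858305440582043680)) (.cons (.rf (nat_lit 1850) (nat_lit 493858305440582043680)) (.cons (.rf (nat_lit 1851) (nat_lit 493858305440582043680)) (.cons (.br (nat_lit 12) (nat_lit 0) (.cons (.kr (nat_lit 4722366482869645213696) (nat_lit 79228162514264337593543950336) (nat_lit 9) (nat_lit 0)) (.cons (.rf (nat_lit 1850) (nat_lit 493858305440582043680)) (.cons (.rf (nat_lit 1851) (nat_lit 493858305440582043680)) .nil)))) .nil))))) (.cons (.br (nat_lit 8) (nat_lit 1) (.cons (.rf (nat_lit 1853) (nat_lit 493858305440582043680)) (.cons (.rf (nat_lit 1855) (nat_lit 493858305440582043680)) (.cons (.rf (nat_lit 1856) (nat_lit 493858305440582043680)) (.cons (.br (nat_lit 8) (nat_lit 1) (.cons (.rf (nat_lit 1853) (nat_lit 493858305440582043680)) (.cons (.rf (nat_lit 1855) (nat_lit 493858305440582043680)) (.cons (.rf (nat_lit 1856) (nat_lit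 493858305440582043680)) .nil)))) .nil))))) .nil)))),
 (.br (nat_lit 7) (nat_lit 0) (.cons (.br (nat_lit 6) (nat_lit 1) (.cons (.kr (nat_lit 20282409603688635969688708382976) (nat_lit 79228162514264340892112388096) (nat_lit 1) (nat_lit 0)) .nil)) (.cons (.ev (nat_lit 1208925891954797700972801) (nat_lit 1)) .nil))),
 (.br (nat_lit 8) (nat_lit 1) (.cons (.br (nat_lit 9) (nat_lit 1) (.cons (.rf (nat_lit 1773) (nat_lit 317027615808)) (.cons (.rf (nat_lit 1773) (nat_lit 314882229312)) (.cons (.br (nat_lit 10) (nat_lit 1) (.cons (.rf (nat_lit 1858) (nat_lit 493858305440582043680)) (.cons (.rf (nat_lit 1858) (nat_lit 493858305371929675808)) (.cons (.ev (nat_lit 79538861190718524234815045633) (nat_lit 1)) .nil)))) .nil)))) (.cons (.br (nat_lit 10) (nat_lit 1) (.cons (.br (nat_lit 4) (nat_lit 1) (.cons (.br (nat_lit 9) (nat_lit 1) (.cons (.ev (nat_lit 1208925891673327019229441) (nat_lit 1)) (.cons (.br (nat_lit 6) (nat_lit 1) (.cons (.ev (nat_lit 20837011576955160099846026102020) (nat_lit 3)) .nil))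 .nil))) (.cons (.br (nat_lit 6) (nat_lit 1) (.cons (.br (nat_lit 7) (nat_lit 0) (.cons (.ev (nat_lit 158769441556839111592287338754) (nat_lit 2)) .nil)) .nil)) .nil))) (.cons (.br (nat_lit 5) (nat_lit 0) (.cons (.br (nat_lit 6) (nat_lit 1) (.cons (.br (nat_lit 9) (nat_lit 1) (.cons (.ev (nat_lit 21158269172669048936064599919368) (nat_lit 4)) .nil)) (.cons (.ev (nat_lit 20361638975091754376174264975361) (nat_lit 1)) .nil))) (.cons (.br (nat_lit 9) (nat_lit 1) (.cons (.ev (nat_lit 40565132323831507166912602768130) (nat_lit 2)) (.cons (.ev (nat_lit 20361947255898122590578676924673) (nat_lit 1)) .nil))) (.cons (.rf (nat_lit 1781) (nat_lit 493786145594110215232)) .nil)))) (.cons (.kr (nat_lit 1208925819614629174706176) (nat_lit 79228162514264337593543950336) (nat_lit 10) (nat_lit 0)) .nil)))) .nil))),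
 (.br (nat_lit 8) (nat_lit 1) (.cons (.rf (nat_lit 1859) (nat_lit 493858305440582043680)) (.cons (.rf (nat_lit 1859) (nat_lit 493858305371929675808)) (.cons (.br (nat_lit 8) (nat_lit 1) (.cons (.rf (nat_lit 1859) (nat_lit 493858305440582043680)) (.cons (.rf (nat_lit 1859) (nat_lit 493858305371929675808)) .nil))) .nil)))),
 (.br (nat_lit 8) (nat_lit 1) (.cons (.rf (nat_lit 1773) (nat_lit 282701431872)) (.cons (.rf (nat_lit 1773) (nat_lit 280556045376)) (.cons (.ev (nat_lit 309489750634572012096389121) (nat_lit 1)) .nil)))),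
 (.br (nat_lit 8) (nat_lit 1) (.cons (.rf (nat_lit 1781) (nat_lit 493750116798164993088)) (.cons (.ev (nat_lit 309489750634572012096389121) (nat_lit 1)) (.cons (.br (nat_lit 6) (nat_lit 1) (.cons (.ev (nat_lit 309485028268090241946026241) (nat_lit 1)) (.cons (.br (nat_lit 10) (nat_lit 1) (.cons (.br (nat_lit 7) (nat_lit 0) (.cons (.ev (nat_lit 158769436834255892999181500930) (nat_lit 2)) .nil)) (.cons (.br (nat_lit 5) (nat_lit 0) (.cons (.ev (nat_lit 79229385607399575821398180610) (nat_lit 2)) .nil)) .nil))) .nil))) .nil)))),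
 (.br (nat_lit 8) (nat_lit 1) (.cons (.ev (nat_lit 309489750634572012096389121) (nat_lit 1)) (.cons (.rf (nat_lit 1855) (nat_lit 493857214725047289888)) (.cons (.br (nat_lit 7) (nat_lit 0) (.cons (.br (nat_lit 5) (nat_lit 0) (.cons (.br (nat_lit 2) (nat_lit 0) (.cons (.ev (nat_lit 318155430651548072761108792068) (nat_lit 3)) .nil)) (.cons (.ev (nat_lit 1208925891673327019229441) (nat_lit 1)) .nil))) (.cons (.br (nat_lit 10) (nat_lit 1) (.cons (.br (nat_lit 5) (nat_lit 0) (.cons (.ev (nat_lit 20837628129233844590316360107268) (nat_lit 3)) .nil)) (.cons (.br (nat_lit 2) (nat_lit 0) (.cons (.ev (nat_lit 20282721506624100825594023183620) (nat_lit 3)) .nil)) .nil))) (.cons (.br (nat_lit 5) (nat_lit 0) (.cons (.ev (nat_lit 1208925891673327019229441) (nat_lit 1)) (.cons (.br (nat_lit 2) (nat_lit 0) (.cons (.ev (nat_lit 80159035395584338902548218370) (nat_lit 2)) .nil)) .nil))) .nil)))) .nil))))]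

theorem c62 : chkAll C T R L62 (nat_lit 1835) = true := by decide +kernel

theorem l62 : (nat_lit 1835) + L62.length = (nat_lit 1864) := by decide +kernel

/-- part of the certificates -/
def L63 : List Prf := [(.br (nat_lit 9) (nat_lit 1) (.cons (.rf (nat_lit 1860) (nat_lit 493858305440582043680)) (.cons (.br (nat_lit 12) (nat_lit 0) (.cons (.br (nat_lit 2) (nat_lit 0) (.cons (.rf (nat_lit 1837) (nat_lit 15433033530938066976)) (.cons (.rf (nat_lit 1861) (nat_lit 493858305440582043680)) (.cons (.rf (nat_lit 1837) (nat_lit 15433037924689610784)) .nil)))) (.cons (.br (nat_lit 2) (nat_lit 0) (.cons (.rf (nat_lit 1837) (nat_lit 15433031331916908576)) (.cons (.rf (nat_lit 1861) (nat_lit 493858305440582043680)) (.cons (.rf (nat_lit 1837) (nat_lit 15433037922544224288)) .nil)))) (.cons (.br (nat_lit 8) (nat_lit 1) (.cons (.ev (nat_lit 309489750634572012096389121) (nat_lit 1)) (.cons (.rf (nat_lit 1855) (nat_lit 493856089924652075040)) (.cons (.rf (nat_lit 1855) (nat_lit 493856089855999707168))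 .nil)))) (.cons (.br (nat_lit 2) (nat_lit 0) (.cons (.rf (nat_lit 1837) (nat_lit 15433031327626135584)) (.cons (.rf (nat_lit 1837) (nat_lit 15433033524501907488)) (.cons (.rf (nat_lit 1861) (nat_lit 493858305440582043680)) .nil)))) .nil))))) (.cons (.br (nat_lit 8) (nat_lit 1) (.cons (.rf (nat_lit 1862) (nat_lit 493858305440582043680)) (.cons (.rf (nat_lit 1855) (nat_lit 493857214725047289888)) (.cons (.rf (nat_lit 1863) (nat_lit 493858305440582043680)) (.cons (.br (nat_lit 8) (nat_lit 1) (.cons (.rf (nat_lit 1862) (nat_lit 493858305440582043680)) (.cons (.rf (nat_lit 1855) (nat_lit 493857214725047289888)) (.cons (.rf (nat_lit 1863) (nat_lit 493858305440582043680)) .nil)))) .nil))))) .nil)))),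
 (.br (nat_lit 13) (nat_lit 0) (.cons (.rf (nat_lit 1847) (nat_lit 493823368456464073792)) (.cons (.br (nat_lit 10) (nat_lit 1) (.cons (.rf (nat_lit 1847) (nat_lit 493858305440582043680)) (.cons (.rf (nat_lit 1857) (nat_lit 493858305440582043680)) (.cons (.rf (nat_lit 1857) (nat_lit 493858305371929675808)) (.cons (.br (nat_lit 10) (nat_lit 1) (.cons (.rf (nat_lit 1847) (nat_lit 493858305440582043680)) (.cons (.rf (nat_lit 1857) (nat_lit 493858305440582043680)) (.cons (.rf (nat_lit 1857) (nat_lit 493858305371929675808)) .nil)))) .nil))))) (.cons (.br (nat_lit 9) (nat_lit 1) (.cons (.rf (nat_lit 1860) (nat_lit 493858305440582043680)) (.cons (.rf (nat_lit 1864) (nat_lit 493858305440582043680)) (.cons (.rf (nat_lit 1864) (nat_lit 493858305371929675808)) (.cons (.br (nat_lit 9) (nat_lit 1) (.cons (.rf (nat_lit 1860) (nat_lit 493858305440582043680)) (.cons (.rf (nat_lit 1864) (nat_lit 493858305440582043680)) (.cons (.rf (nat_lit 1864) (nat_lit 493858305371929675808)) .nil)))) .nil))))) .nil)))),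
 (.br (nat_lit 4) (nat_lit 1) (.cons (.ev (nat_lit 4722366482873940181249) (nat_lit 1)) (.cons (.ev (nat_lit 20282719088661492051594759438593) (nat_lit 1)) .nil))),
 (.br (nat_lit 9) (nat_lit 1) (.cons (.kr (nat_lit 20361637766166006819134833164544) (nat_lit 9444732966838802120704) (nat_lit 1) (nat_lit 0)) .nil)),
 (.br (nat_lit 5) (nat_lit 0) (.cons (.rf (nat_lit 1781) (nat_lit 493677003674038142016)) (.cons (.br (nat_lit 7) (nat_lit 0) (.cons (.rf (nat_lit 1867) (nat_lit 493858305440582043680)) (.cons (.ev (nat_lit 18518802771554140161) (nat_lit 1)) .nil))) (.cons (.ev (nat_lit 4722366482873940181249) (nat_lit 1)) .nil)))),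
 (.br (nat_lit 10) (nat_lit 1) (.cons (.br (nat_lit 6) (nat_lit 1) (.cons (.rf (nat_lit 1773) (nat_lit 214015509568)) (.cons (.rf (nat_lit 1773) (nat_lit 211870123072)) (.cons (.br (nat_lit 9) (nat_lit 1) (.cons (.rf (nat_lit 1866) (nat_lit 493858305440582043680)) (.cons (.rf (nat_lit 1866) (nat_lit 493858305371929675808)) (.cons (.br (nat_lit 8) (nat_lit 1) (.cons (.kr (nat_lit 79228162514264338693072355584) (nat_lit 1213648186097498820050944) (nat_lit 1) (nat_lit 0)) (.cons (.kr (nat_lit 79228162514336395187598655744) (nat_lit 1213648186097498820050944) (nat_lit 1) (nat_lit 0)) .nil))) .nil)))) .nil)))) (.cons (.br (nat_lit 4) (nat_lit 1) (.cons (.ev (nat_lit 20282410812577490039680249430273) (nat_lit 1)) (.cons (.rf (nat_lit 1868) (nat_lit 493858305440582043680)) (.cons (.br (nat_lit 6) (nat_lit 1) (.cons (.rf (nat_lit 1781) (nat_lit 493677003674038142016)) (.cons (.br (nat_lit 5) (nat_lit 0) (.cons (.ev (nat_lit 20361638975110201121347502866433) (nat_lit 1)) (.cons (.br (nat_lit 8)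 (nat_lit 1) (.cons (.ev (nat_lit 20679790774224814492286359766276) (nat_lit 3)) .nil)) .nil))) .nil))) .nil)))) .nil))),
 (.br (nat_lit 10) (nat_lit 1) (.cons (.rf (nat_lit 1869) (nat_lit 493858305440582043680)) (.cons (.rf (nat_lit 1869) (nat_lit 493858305371929675808)) (.cons (.br (nat_lit 10) (nat_lit 1) (.cons (.rf (nat_lit 1869) (nat_lit 493858305440582043680)) (.cons (.rf (nat_lit 1869) (nat_lit 493858305371929675808)) .nil))) .nil)))),
 (.br (nat_lit 7) (nat_lit 0) (.cons (.ev (nat_lit 4722366482873940181249) (nat_lit 1)) (.cons (.ev (nat_lit 4740813509517859946753) (nat_lit 1)) .nil))),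
 (.br (nat_lit 2) (nat_lit 0) (.cons (.rf (nat_lit 1837) (nat_lit 15432930175771314208)) (.cons (.rf (nat_lit 1837) (nat_lit 15432931274209200160)) (.cons (.br (nat_lit 10) (nat_lit 1) (.cons (.rf (nat_lit 1773) (nat_lit 351320245312)) (.cons (.rf (nat_lit 1773) (nat_lit 349174858816)) (.cons (.br (nat_lit 5) (nat_lit 0) (.cons (.br (nat_lit 7) (nat_lit 0) (.cons (.ev (nat_lit 4740885566012386246913) (nat_lit 1)) .nil)) (.cons (.rf (nat_lit 1871) (nat_lit 493858305440582043680)) .nil))) .nil)))) .nil)))),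
 (.br (nat_lit 2) (nat_lit 0) (.cons (.rf (nat_lit 1837) (nat_lit 15432925777728997408)) (.cons (.rf (nat_lit 1837) (nat_lit 15432931269918427168)) (.cons (.br (nat_lit 10) (nat_lit 1) (.cons (.rf (nat_lit 1773) (nat_lit 351320245312)) (.cons (.rf (nat_lit 1773) (nat_lit 349174858816)) (.cons (.br (nat_lit 9) (nat_lit 1) (.cons (.rf (nat_lit 1871) (nat_lit 493858305440582043680)) (.cons (.rf (nat_lit 1871) (nat_lit 493858305371929675808)) .nil))) .nil)))) .nil)))),
 (.br (nat_lit 2) (nat_lit 0) (.cons (.rf (nat_lit 1837) (nat_lit 15432925776656304160)) (.cons (.kr (nat_lit 20282409603651670423947251286272) (nat_lit 4722366482869645279232) (nat_lit 1) (nat_lit 0)) (.cons (.br (nat_lit 12) (nat_lit 0) (.cons (.kr (nat_lit 4722366482869645213696) (nat_lit 79228162514264337593543950336) (nat_lit 9) (nat_lit 0)) (.cons (.rf (nat_lit 1873) (nat_lit 493858305440582043680)) (.cons (.br (nat_lit 5) (nat_lit 0) (.cons (.br (nat_lit 7) (nat_lit 0) (.cons (.zr (nat_lit 9444949138521404407808) (nat_lit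 310693954087985250897494017) (nat_lit 5) (nat_lit 0)) .nil)) (.cons (.br (nat_lit 7) (nat_lit 0) (.cons (.zr (nat_lit 9444732969037825507328) (nat_lit 310693954087985250897494017) (nat_lit 5) (nat_lit 0)) .nil)) .nil))) .nil)))) .nil)))),
 (.br (nat_lit 10) (nat_lit 1) (.cons (.rf (nat_lit 1833) (nat_lit 372964484733568064)) (.cons (.rf (nat_lit 1833) (nat_lit 372964416081200192)) (.cons (.br (nat_lit 4) (nat_lit 1) (.cons (.ev (nat_lit 20361948460101575722338206417153) (nat_lit 1)) (.cons (.rf (nat_lit 1868) (nat_lit 493853801845249640480)) .nil))) .nil)))),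
 (.br (nat_lit 4) (nat_lit 1) (.cons (.ev (nat_lit 4722366482873940181249) (nat_lit 1)) .nil)),
 (.br (nat_lit 8) (nat_lit 1) (.cons (.ev (nat_lit 18518802771554140161) (nat_lit 1)) (.cons (.kr (nat_lit 18446744073709551616) (nat_lit 79228162514264337593543950336) (nat_lit 8) (nat_lit 0)) .nil))),
 (.br (nat_lit 10) (nat_lit 1) (.cons (.rf (nat_lit 1833) (nat_lit 372964416081200192)) (.cons (.rf (nat_lit 1855) (nat_lit 493853804042125412384)) (.cons (.br (nat_lit 2) (nat_lit 0) (.cons (.br (nat_lit 5) (nat_lit 0) (.cons (.ev (nat_lit 40646216182848675422798772176388) (nat_lit 3)) (.cons (.ev (nat_lit 40644975834291802751595423334914) (nat_lit 2)) .nil))) (.cons (.br (nat_lit 7) (nat_lit 0) (.cons (.br (nat_lit 5) (nat_lit 0) (.cons (.ev (nat_lit 4722366482873940181249) (nat_lit 1)) .nil)) (.cons (.rf (nat_lit 1876) (nat_lit 493858305440582043680)) .nil))) (.cons (.br (nat_lit 4) (nat_lit 1) (.cons (.rf (nat_lit 1877) (nat_lit 493858305440582043680)) (.cons (.rf (nat_lit 1877) (nat_lit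 493853801776597272608)) .nil))) .nil)))) .nil)))),
 (.br (nat_lit 6) (nat_lit 1) (.cons (.rf (nat_lit 1870) (nat_lit 493858305440582043680)) (.cons (.br (nat_lit 12) (nat_lit 0) (.cons (.rf (nat_lit 1872) (nat_lit 493858305440582043680)) (.cons (.rf (nat_lit 1873) (nat_lit 493858305440582043680)) (.cons (.rf (nat_lit 1874) (nat_lit 493858305440582043680)) (.cons (.br (nat_lit 12) (nat_lit 0) (.cons (.rf (nat_lit 1872) (nat_lit 493858305440582043680)) (.cons (.rf (nat_lit 1873) (nat_lit 493858305440582043680)) (.cons (.rf (nat_lit 1874) (nat_lit 493858305440582043680)) .nil)))) .nil))))) (.cons (.br (nat_lit 10) (nat_lit 1) (.cons (.rf (nat_lit 1875) (nat_lit 493858305440582043680)) (.cons (.rf (nat_lit 1855) (nat_lit 493853804042125412384)) (.cons (.rf (nat_lit 1878) (nat_lit 493858305440582043680)) (.cons (.br (nat_lit 10) (nat_lit 1) (.cons (.rf (nat_lit 1875) (nat_lit 493858305440582043680)) (.cons (.rf (nat_lit 1855) (nat_lit 493858303243706271776)) (.cons (.rf (nat_lit 1878) (nat_lit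 493858305440582043680)) .nil)))) .nil))))) .nil)))),
 (.br (nat_lit 12) (nat_lit 0) (.cons (.rf (nat_lit 1865) (nat_lit 458005178319826623648)) (.cons (.kr (nat_lit 79228162514264338693072355584) (nat_lit 1213648186097498820050944) (nat_lit 1) (nat_lit 0)) .nil))),
 (.br (nat_lit 9) (nat_lit 1) (.cons (.br (nat_lit 6) (nat_lit 1) (.cons (.kr (nat_lit 1099528405248) (nat_lit 4722366482869645344768) (nat_lit 1) (nat_lit 0)) (.cons (.kr (nat_lit 72057594054705408) (nat_lit 4722366482869645344768) (nat_lit 1) (nat_lit 0)) (.cons (.br (nat_lit 8) (nat_lit 1) (.cons (.rf (nat_lit 1880) (nat_lit 493858305440582043680)) (.cons (.rf (nat_lit 1880) (nat_lit 493858305371929675808)) (.cons (.br (nat_lit 10) (nat_lit 1) (.cons (.kr (nat_lit 4740813226943354830848) (nat_lit 79228162514264338693072355328) (nat_lit 2) (nat_lit 0)) (.cons (.kr (nat_lit 4740813226943354830848) (nat_lit 79228162514336395187598655488) (nat_lit 2) (nat_lit 0)) .nil))) .nil)))) .nil)))) (.cons (.br (nat_lit 6) (nat_lit 1)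 (.cons (.rf (nat_lit 1781) (nat_lit 493678129572871242816)) (.cons (.br (nat_lit 4) (nat_lit 1) (.cons (.zr (nat_lit 20282409603651670426146274738432) (nat_lit 309485009821626548030013441) (nat_lit 5) (nat_lit 0)) (.cons (.br (nat_lit 12) (nat_lit 0) (.cons (.ev (nat_lit 309485028340428215744004353) (nat_lit 1)) (.cons (.ev (nat_lit 310693935713298771209093121) (nat_lit 1)) .nil))) (.cons (.br (nat_lit 8) (nat_lit 1) (.cons (.br (nat_lit 7) (nat_lit 0) (.cons (.ev (nat_lit 79229371458530696300723240961) (nat_lit 1)) .nil)) (.cons (.br (nat_lit 10) (nat_lit 1) (.cons (.ev (nat_lit 79229371458530696300723240961) (nat_lit 1)) .nil)) .nil))) .nil)))) (.cons (.br (nat_lit 4) (nat_lit 1) (.cons (.ev (nat_lit 79228167236630821567012536321) (nat_lit 1)) (.cons (.br (nat_lit 5) (nat_lit 0) (.cons (.ev (nat_lit 20361637766184381505618799755521) (nat_lit 1)) (.cons (.ev (nat_lit 20361638975091754376174264975361) (nat_lit 1)) .nil))) .nil))) .nil)))) .nil))),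
 (.br (nat_lit 9) (nat_lit 1) (.cons (.rf (nat_lit 1881) (nat_lit 493858305440582043680)) (.cons (.rf (nat_lit 1881) (nat_lit 493858305371929675808)) (.cons (.br (nat_lit 9) (nat_lit 1) (.cons (.rf (nat_lit 1881) (nat_lit 493858305440582043680)) (.cons (.rf (nat_lit 1881) (nat_lit 493858305371929675808)) .nil))) .nil)))),
 (.br (nat_lit 8) (nat_lit 1) (.cons (.kr (nat_lit 20361637766165934762640306864384) (nat_lit 2417851711286852387405824) (nat_lit 1) (nat_lit 0)) .nil)),
 (.br (nat_lit 9) (nat_lit 1) (.cons (.rf (nat_lit 1773) (nat_lit 316960506944)) (.cons (.rf (nat_lit 1773) (nat_lit 314815120448)) (.cons (.br (nat_lit 12) (nat_lit 0) (.cons (.ev (nat_lit 20282719093383858533364909801473) (nat_lit 1)) (.cons (.br (nat_lit 5) (nat_lit 0) (.cons (.ev (nat_lit 79537652264898910705135190273) (nat_lit 1)) (.cons (.ev (nat_lit 20282719093402304997058842460161) (nat_lit 1)) .nil))) (.cons (.br (nat_lit 7) (nat_lit 0) (.cons (.rf (nat_lit 1883) (nat_lit 493858305440582043680)) (.cons (.br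 (nat_lit 5) (nat_lit 0) (.cons (.zr (nat_lit 2417851639232556884492288) (nat_lit 309489750634853491368001537) (nat_lit 5) (nat_lit 0)) .nil)) .nil))) .nil)))) .nil)))),
 (.br (nat_lit 9) (nat_lit 1) (.cons (.rf (nat_lit 1833) (nat_lit 336795847770709152)) (.cons (.kr (nat_lit 1099511627776) (nat_lit 72057594037927936) (nat_lit 5) (nat_lit 0)) (.cons (.rf (nat_lit 1855) (nat_lit 493787403263479585952)) .nil)))),
 (.br (nat_lit 2) (nat_lit 0) (.cons (.rf (nat_lit 1840) (nat_lit 455771504132619339808)) .nil)),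
 (.br (nat_lit 6) (nat_lit 1) (.cons (.rf (nat_lit 1882) (nat_lit 493858305440582043680)) (.cons (.br (nat_lit 9) (nat_lit 1) (.cons (.rf (nat_lit 1884) (nat_lit 493858305440582043680)) (.cons (.rf (nat_lit 1885) (nat_lit 493858305440582043680)) (.cons (.rf (nat_lit 1885) (nat_lit 493858305371929675808)) (.cons (.br (nat_lit 2) (nat_lit 0) (.cons (.rf (nat_lit 1854) (nat_lit 493857001424090662944)) (.cons (.rf (nat_lit 1854) (nat_lit 493857142161574823968)) (.cons (.rf (nat_lit 1884) (nat_lit 493858305440582043680)) (.cons (.rf (nat_lit 1854) (nat_lit 493857212528171517984)) .nil))))) .nil))))) (.cons (.br (nat_lit 5) (nat_lit 0) (.cons (.br (nat_lit 10) (nat_lit 1) (.cons (.ev (nat_lit 310693935641242276682792961) (nat_lit 1)) (.cons (.br (nat_lit 2) (nat_lit 0) (.cons (.br (nat_lit 12) (nat_lit 0) (.cons (.br (nat_lit 9) (nat_lit 1) (.cons (.ev (nat_lit 20837014023140710000344141595908) (nat_lit 3)) .nil)) .nil)) (.cons (.br (nat_lit 7) (nat_lit 0) (.cons (.ev (nat_lit 18518802771554140161)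 (nat_lit 1)) (.cons (.ev (nat_lit 20282720302309749924108833980673) (nat_lit 1)) .nil))) .nil))) (.cons (.br (nat_lit 8) (nat_lit 1) (.cons (.ev (nat_lit 79538856468352323943936360705) (nat_lit 1)) (.cons (.br (nat_lit 7) (nat_lit 0) (.cons (.br (nat_lit 2) (nat_lit 0) (.cons (.zr (nat_lit 2417851639232556884492288) (nat_lit 309489750634853491368001537) (nat_lit 5) (nat_lit 0)) .nil)) .nil)) .nil))) .nil)))) (.cons (.ev (nat_lit 20282409603670117450595465953281) (nat_lit 1)) (.cons (.rf (nat_lit 1855) (nat_lit 493853838126985873440)) (.cons (.br (nat_lit 4) (nat_lit 1) (.cons (.br (nat_lit 8) (nat_lit 1) (.cons (.br (nat_lit 7) (nat_lit 0) (.cons (.br (nat_lit 9) (nat_lit 1) (.cons (.ev (nat_lit 158767033131341706241266286850) (nat_lit 2)) .nil)) .nil)) (.cons (.ev (nat_lit 79538856468352323943936360705) (nat_lit 1)) .nil))) (.cons (.br (nat_lit 12) (nat_lit 0) (.cons (.rf (nat_lit 1886) (nat_lit 15433070910038444064)) (.cons (.br (nat_lit 9) (nat_lit 1) (.cons (.ev (nat_lit 20282719093383858533364909801473)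 (nat_lit 1)) (.cons (.ev (nat_lit 79228167236702878061538836481) (nat_lit 1)) .nil))) .nil))) (.cons (.ev (nat_lit 79229371440084234797223772161) (nat_lit 1)) .nil)))) .nil))))) .nil)))),
 (.br (nat_lit 13) (nat_lit 0) (.cons (.rf (nat_lit 1847) (nat_lit 493823368456464073792)) (.cons (.br (nat_lit 6) (nat_lit 1) (.cons (.rf (nat_lit 1870) (nat_lit 493858305440582043680)) (.cons (.rf (nat_lit 1879) (nat_lit 493858305440582043680)) (.cons (.rf (nat_lit 1879) (nat_lit 493858305371929675808)) (.cons (.br (nat_lit 6) (nat_lit 1) (.cons (.rf (nat_lit 1870) (nat_lit 493858305440582043680)) (.cons (.rf (nat_lit 1879) (nat_lit 493858305440582043680)) (.cons (.rf (nat_lit 1879) (nat_lit 493858305371929675808)) .nil)))) .nil))))) (.cons (.br (nat_lit 6) (nat_lit 1) (.cons (.rf (nat_lit 1882) (nat_lit 493858305440582043680)) (.cons (.rf (nat_lit 1887) (nat_lit 493858305440582043680)) (.cons (.rf (nat_lit 1887) (nat_lit 493858305371929675808)) (.cons (.br (nat_lit 6) (nat_lit 1) (.cons (.rf (nat_lit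 1882) (nat_lit 493858305440582043680)) (.cons (.rf (nat_lit 1887) (nat_lit 493858305440582043680)) (.cons (.rf (nat_lit 1887) (nat_lit 493858305371929675808)) .nil)))) .nil))))) .nil))))]

theorem c63 : chkAll C T R L63 (nat_lit 1864) = true := by decide +kernel

theorem l63 : (nat_lit 1864) + L63.length = (nat_lit 1889) := by decide +kernel

/-- part of the certificates -/
def L64 : List Prf := [(.br (nat_lit 10) (nat_lit 1) (.cons (.rf (nat_lit 1883) (nat_lit 493857139889610524704)) (.cons (.rf (nat_lit 1883) (nat_lit 493857139958262892576)) .nil))),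
 (.br (nat_lit 9) (nat_lit 1) (.cons (.ev (nat_lit 4722366482873940181249) (nat_lit 1)) .nil)),
 (.br (nat_lit 5) (nat_lit 0) (.cons (.rf (nat_lit 1890) (nat_lit 493858305440582043680)) (.cons (.rf (nat_lit 1876) (nat_lit 493853801776597272608)) .nil))),
 (.br (nat_lit 6) (nat_lit 1) (.cons (.br (nat_lit 8) (nat_lit 1) (.cons (.rf (nat_lit 1773) (nat_lit 282600768576)) (.cons (.rf (nat_lit 1773) (nat_lit 280455382080)) (.cons (.br (nat_lit 9) (nat_lit 1) (.cons (.ev (nat_lit 309485028268090241946026241) (nat_lit 1)) (.cons (.ev (nat_lit 309485028340146736472326401) (nat_lit 1)) (.cons (.rf (nat_lit 1889) (nat_lit 493858305440582043680)) .nil)))) .nil)))) (.cons (.br (nat_lit 8) (nat_lit 1) (.cons (.rf (nat_lit 1781) (nat_lit 493750222348060034112)) (.cons (.br (nat_lit 12) (nat_lit 0) (.cons (.br (nat_lit 5) (nat_lit 0) (.cons (.br (nat_lit 10) (nat_lit 1) (.cons (.ev (nat_lit 20520096527935930579808225003268) (nat_lit 3)) .nil)) (.cons (.ev (nat_lit 79229371440084234797223772161) (nat_lit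 1)) .nil))) (.cons (.br (nat_lit 10) (nat_lit 1) (.cons (.rf (nat_lit 1852) (nat_lit 493853801845249640480)) (.cons (.ev (nat_lit 79538856468424098959190982913) (nat_lit 1)) .nil))) (.cons (.rf (nat_lit 1891) (nat_lit 493858305440582043680)) .nil)))) (.cons (.br (nat_lit 4) (nat_lit 1) (.cons (.br (nat_lit 9) (nat_lit 1) (.cons (.ev (nat_lit 4722366482873940181249) (nat_lit 1)) .nil)) (.cons (.ev (nat_lit 79537647542532708215266803713) (nat_lit 1)) .nil))) .nil)))) .nil))),
 (.br (nat_lit 6) (nat_lit 1) (.cons (.rf (nat_lit 1892) (nat_lit 493858305440582043680)) (.cons (.rf (nat_lit 1892) (nat_lit 493858305371929675808)) (.cons (.br (nat_lit 6) (nat_lit 1) (.cons (.rf (nat_lit 1892) (nat_lit 493858305440582043680)) (.cons (.rf (nat_lit 1892) (nat_lit 493858305371929675808)) .nil))) .nil)))),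
 (.br (nat_lit 2) (nat_lit 0) (.cons (.br (nat_lit 6) (nat_lit 1) (.cons (.rf (nat_lit 1773) (nat_lit 213948400704)) (.cons (.rf (nat_lit 1773) (nat_lit 211803014208)) (.cons (.br (nat_lit 10) (nat_lit 1) (.cons (.ev (nat_lit 79537647524085965241052037121) (nat_lit 1)) (.cons (.ev (nat_lit 79537647524158021735578337281) (nat_lit 1)) .nil))) .nil)))) (.cons (.rf (nat_lit 1837) (nat_lit 15433001645100861472)) (.cons (.rf (nat_lit 1837) (nat_lit 15433002743538747424)) .nil)))),
 (.br (nat_lit 4) (nat_lit 1) (.cons (.rf (nat_lit 1854) (nat_lit 493853625923394439200)) (.cons (.rf (nat_lit 1888) (nat_lit 457864203343396871328)) (.cons (.rf (nat_lit 1888) (nat_lit 457864203343396869344)) (.cons (.rf (nat_lit 1894) (nat_lit 493858305440582043680)) .nil))))),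
 (.br (nat_lit 2) (nat_lit 0) (.cons (.rf (nat_lit 1837) (nat_lit 14242884726208694304)) (.cons (.kr (nat_lit 79228162514264337593543950592) (nat_lit 18446744073709617152) (nat_lit 1) (nat_lit 0)) (.cons (.br (nat_lit 13) (nat_lit 1) (.cons (.rf (nat_lit 1773) (nat_lit 453359273024)) (.cons (.rf (nat_lit 1773) (nat_lit 452286579776)) (.cons (.rf (nat_lit 1889) (nat_lit 455774711371530340384)) .nil)))) .nil)))),
 (.br (nat_lit 7) (nat_lit 0) (.cons (.ev (nat_lit 4722366482873940181249) (nat_lit 1)) (.cons (.br (nat_lit 12) (nat_lit 0) (.cons (.br (nat_lit 6) (nat_lit 1) (.cons (.ev (nat_lit 20679795609854305974508220121348) (nat_lit 3)) .nil)) (.cons (.br (nat_lit 2) (nat_lit 0) (.cons (.zr (nat_lit 158456325028672791474675580928) (nat_lit 1213666633123047539736577) (nat_lit 5) (nat_lit 0)) .nil)) .nil))) .nil))),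
 (.br (nat_lit 6) (nat_lit 1) (.cons (.br (nat_lit 9) (nat_lit 1) (.cons (.ev (nat_lit 20282409608374037189391401681153) (nat_lit 1)) (.cons (.zr (nat_lit 237684487542793014979705438208) (nat_lit 310698658007724046816444417) (nat_lit 5) (nat_lit 6)) .nil))) .nil)),
 (.br (nat_lit 8) (nat_lit 1) (.cons (.rf (nat_lit 1893) (nat_lit 493858305440582043680)) (.cons (.br (nat_lit 12) (nat_lit 0) (.cons (.rf (nat_lit 1894) (nat_lit 493858305440582043680)) (.cons (.rf (nat_lit 1895) (nat_lit 493858305440582043680)) (.cons (.rf (nat_lit 1896) (nat_lit 15433072044983552032)) (.cons (.br (nat_lit 12) (nat_lit 0) (.cons (.rf (nat_lit 1894) (nat_lit 493858305440582043680)) (.cons (.rf (nat_lit 1895) (nat_lit 493858305440582043680)) (.cons (.rf (nat_lit 1896) (nat_lit 15433072044983552032)) .nil)))) .nil))))) (.cons (.br (nat_lit 5) (nat_lit 0) (.cons (.ev (nat_lit 20282409603670117169124784209921) (nat_lit 1)) (.cons (.rf (nat_lit 1855) (nat_lit 493856086629338417184)) (.cons (.br (nat_lit 7) (nat_lit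 0) (.cons (.ev (nat_lit 4722366482873940181249) (nat_lit 1)) (.cons (.rf (nat_lit 1897) (nat_lit 493858305440582043680)) (.cons (.br (nat_lit 7) (nat_lit 0) (.cons (.ev (nat_lit 4722366482873940181249) (nat_lit 1)) (.cons (.rf (nat_lit 1897) (nat_lit 493858305440582043680)) .nil))) .nil)))) (.cons (.br (nat_lit 4) (nat_lit 1) (.cons (.br (nat_lit 7) (nat_lit 0) (.cons (.rf (nat_lit 1898) (nat_lit 493858305440582043680)) (.cons (.br (nat_lit 7) (nat_lit 0) (.cons (.rf (nat_lit 1898) (nat_lit 493858305440582043680)) .nil)) .nil))) (.cons (.br (nat_lit 7) (nat_lit 0) (.cons (.br (nat_lit 6) (nat_lit 1) (.cons (.rf (nat_lit 1867) (nat_lit 493856055839791613984)) (.cons (.br (nat_lit 2) (nat_lit 0) (.cons (.zr (nat_lit 1208962713384260160455424) (nat_lit 158765814760716505324497928193) (nat_lit 5) (nat_lit 3)) .nil)) .nil))) (.cons (.ev (nat_lit 1208925891673327019229441) (nat_lit 1)) .nil))) (.cons (.ev (nat_lit 20361638975110201121347502866433) (nat_lit 1)) .nil)))) .nil))))) .nil)))),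
 (.br (nat_lit 13) (nat_lit 0) (.cons (.rf (nat_lit 1865) (nat_lit 493858305440582043680)) (.cons (.rf (nat_lit 1888) (nat_lit 493858305440582043680)) (.cons (.br (nat_lit 8) (nat_lit 1) (.cons (.rf (nat_lit 1893) (nat_lit 493858305440582043680)) (.cons (.rf (nat_lit 1899) (nat_lit 493858305440582043680)) (.cons (.rf (nat_lit 1899) (nat_lit 493858305371929675808)) (.cons (.br (nat_lit 8) (nat_lit 1) (.cons (.rf (nat_lit 1893) (nat_lit 493858305440582043680)) (.cons (.rf (nat_lit 1899) (nat_lit 493858305440582043680)) (.cons (.rf (nat_lit 1899) (nat_lit 493858305371929675808)) .nil)))) .nil))))) .nil)))),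
 (.br (nat_lit 13) (nat_lit 0) (.cons (.rf (nat_lit 1865) (nat_lit 493858305440582043680)) (.cons (.rf (nat_lit 1888) (nat_lit 493858305440582043680)) (.cons (.rf (nat_lit 1900) (nat_lit 493858305440582043680)) (.cons (.br (nat_lit 13) (nat_lit 0) (.cons (.rf (nat_lit 1865) (nat_lit 493858305440582043680)) (.cons (.rf (nat_lit 1888) (nat_lit 493858305440582043680)) (.cons (.rf (nat_lit 1900) (nat_lit 493858305440582043680)) .nil)))) .nil))))),
 (.br (nat_lit 6) (nat_lit 1) (.cons (.ev (nat_lit 1213648186380073325035521) (nat_lit 1)) (.cons (.ev (nat_lit 20282719088661492051594759438593) (nat_lit 1)) .nil))),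
 (.br (nat_lit 2) (nat_lit 0) (.cons (.br (nat_lit 9) (nat_lit 1) (.cons (.rf (nat_lit 1902) (nat_lit 493858305440582043680)) (.cons (.rf (nat_lit 1902) (nat_lit 493858305371929675808)) (.cons (.kr (nat_lit 4722366482869645213696) (nat_lit 79228162514264337593543950336) (nat_lit 9) (nat_lit 0)) .nil)))) (.cons (.rf (nat_lit 1854) (nat_lit 493851446690273396768)) (.cons (.rf (nat_lit 1854) (nat_lit 493851517059015477280)) (.cons (.rf (nat_lit 1854) (nat_lit 493851552242313824288)) .nil))))),
 (.br (nat_lit 4) (nat_lit 1) (.cons (.rf (nat_lit 1773) (nat_lit 145296032832)) (.cons (.rf (nat_lit 1773) (nat_lit 143150646336)) (.cons (.rf (nat_lit 1903) (nat_lit 493858305440582043680)) .nil)))),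
 (.br (nat_lit 4) (nat_lit 1) (.cons (.rf (nat_lit 1781) (nat_lit 493604946080002311232)) (.cons (.br (nat_lit 5) (nat_lit 0) (.cons (.br (nat_lit 9) (nat_lit 1) (.cons (.zr (nat_lit 81129638414606897872969165833472) (nat_lit 929668677650977142893182979) (nat_lit 15) (nat_lit 0)) (.cons (.br (nat_lit 7) (nat_lit 0) (.cons (.ev (nat_lit 79228167255077846011875491841) (nat_lit 1)) .nil)) .nil))) (.cons (.br (nat_lit 9) (nat_lit 1) (.cons (.br (nat_lit 12) (nat_lit 0) (.cons (.ev (nat_lit 79537657024159446875504836610) (nat_lit 2)) .nil)) (.cons (.br (nat_lit 6) (nat_lit 1) (.cons (.ev (nat_lit 79228167255077846011875491841) (nat_lit 1)) .nil)) .nil))) (.cons (.br (nat_lit 6) (nat_lit 1) (.cons (.ev (nat_lit 20282719088661492051594759438593) (nat_lit 1)) (.cons (.ev (nat_lit 1213648186380073325035521) (nat_lit 1)) .nil))) .nil)))) (.cons (.br (nat_lit 9) (nat_lit 1) (.cons (.br (nat_lit 6) (nat_lit 1) (.cons (.ev (nat_lit 20283339272329321119615100846850) (nat_lit 2)) .nil)) (.cons (.br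 (nat_lit 7) (nat_lit 0) (.cons (.br (nat_lit 8) (nat_lit 1) (.cons (.ev (nat_lit 20838868496495426958935088760068) (nat_lit 3)) .nil)) (.cons (.br (nat_lit 5) (nat_lit 0) (.cons (.zr (nat_lit 79229376162522492686435483648) (nat_lit 309485028268370621706011137) (nat_lit 5) (nat_lit 4)) .nil)) .nil))) .nil))) .nil)))),
 (.br (nat_lit 4) (nat_lit 1) (.cons (.rf (nat_lit 1905) (nat_lit 493858305440582043680)) (.cons (.rf (nat_lit 1855) (nat_lit 493858301044685113376)) (.cons (.br (nat_lit 6) (nat_lit 1) (.cons (.ev (nat_lit 20361638975091754376174264975361) (nat_lit 1)) (.cons (.br (nat_lit 7) (nat_lit 0) (.cons (.ev (nat_lit 20282409603670117169124784209921) (nat_lit 1)) (.cons (.ev (nat_lit 79228167236630821567012536321) (nat_lit 1)) .nil))) (.cons (.br (nat_lit 9) (nat_lit 1) (.cons (.br (nat_lit 8) (nat_lit 1) (.cons (.zr (nat_lit 928469233529029565157081088) (nat_lit 316913858982877246478360772866) (nat_lit 10) (nat_lit 9)) .nil)) (.cons (.br (nat_lit 8) (nat_lit 1) (.cons (.ev (nat_lit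 20837009168547966736265948628228) (nat_lit 3)) .nil)) .nil))) .nil)))) .nil)))),
 (.br (nat_lit 10) (nat_lit 1) (.cons (.rf (nat_lit 1833) (nat_lit 372964484733568064)) (.cons (.br (nat_lit 12) (nat_lit 0) (.cons (.rf (nat_lit 1903) (nat_lit 493858305440582043680)) (.cons (.br (nat_lit 2) (nat_lit 0) (.cons (.rf (nat_lit 1904) (nat_lit 493858305440582043680)) (.cons (.rf (nat_lit 1837) (nat_lit 15433070913261766688)) (.cons (.rf (nat_lit 1837) (nat_lit 15433072011699652640)) .nil)))) (.cons (.br (nat_lit 2) (nat_lit 0) (.cons (.rf (nat_lit 1904) (nat_lit 493858305440582043680)) (.cons (.rf (nat_lit 1837) (nat_lit 15433068714240608288)) (.cons (.rf (nat_lit 1837) (nat_lit 15433072009554266144)) .nil)))) (.cons (.br (nat_lit 2) (nat_lit 0) (.cons (.rf (nat_lit 1904) (nat_lit 493858305440582043680)) (.cons (.rf (nat_lit 1837) (nat_lit 15433068713167915040)) (.cons (.rf (nat_lit 1837) (nat_lit 15433070910043686944)) .nil)))) .nil))))) (.cons (.br (nat_lit 4) (nat_lit 1) (.cons (.rf (nat_lit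 1905) (nat_lit 493858305440582043680)) (.cons (.rf (nat_lit 1855) (nat_lit 493858301044685113376)) (.cons (.rf (nat_lit 1906) (nat_lit 493858305440582043680)) (.cons (.br (nat_lit 4) (nat_lit 1) (.cons (.rf (nat_lit 1905) (nat_lit 493858305440582043680)) (.cons (.rf (nat_lit 1855) (nat_lit 493858301044685113376)) (.cons (.rf (nat_lit 1906) (nat_lit 493858305440582043680)) .nil)))) .nil))))) .nil)))),
 (.br (nat_lit 11) (nat_lit 0) (.cons (.rf (nat_lit 1837) (nat_lit 14242923209078966304)) (.cons (.rf (nat_lit 1837) (nat_lit 14242923204788193312)) (.cons (.rf (nat_lit 1854) (nat_lit 455779174291342460960)) .nil)))),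
 (.br (nat_lit 9) (nat_lit 1) (.cons (.rf (nat_lit 1908) (nat_lit 15433072045018155040)) (.cons (.br (nat_lit 4) (nat_lit 1) (.cons (.rf (nat_lit 1855) (nat_lit 493857210329150359584)) (.cons (.br (nat_lit 4) (nat_lit 1) (.cons (.rf (nat_lit 1908) (nat_lit 15433066547460016160)) (.cons (.ev (nat_lit 4722366482873940181249) (nat_lit 1)) .nil))) (.cons (.br (nat_lit 4) (nat_lit 1) (.cons (.rf (nat_lit 1855) (nat_lit 493857210329150359584)) (.cons (.ev (nat_lit 4722366482873940181249) (nat_lit 1)) .nil))) .nil)))) .nil))),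
 (.br (nat_lit 9) (nat_lit 1) (.cons (.rf (nat_lit 1909) (nat_lit 493858305440582043680)) (.cons (.rf (nat_lit 1909) (nat_lit 493858305371929675808)) (.cons (.br (nat_lit 9) (nat_lit 1) (.cons (.rf (nat_lit 1909) (nat_lit 493858305440582043680)) (.cons (.rf (nat_lit 1909) (nat_lit 493858305371929675808)) .nil))) .nil)))),
 (.br (nat_lit 9) (nat_lit 1) (.cons (.rf (nat_lit 1901) (nat_lit 458005178319826623648)) (.cons (.br (nat_lit 4) (nat_lit 1) (.cons (.br (nat_lit 12) (nat_lit 0) (.cons (.br (nat_lit 7) (nat_lit 0) (.cons (.ev (nat_lit 79540065431209823383616421890) (nat_lit 2)) .nil)) (.cons (.br (nat_lit 7) (nat_lit 0) (.cons (.ev (nat_lit 310693935713298771209093121) (nat_lit 1)) .nil)) .nil))) (.cons (.br (nat_lit 10) (nat_lit 1) (.cons (.br (nat_lit 7) (nat_lit 0) (.cons (.ev (nat_lit 20362261581444486640166647170820) (nat_lit 3)) .nil)) .nil)) .nil))) .nil))),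
 (.br (nat_lit 9) (nat_lit 1) (.cons (.rf (nat_lit 1901) (nat_lit 458005178319826623648)) (.cons (.br (nat_lit 7) (nat_lit 0) (.cons (.rf (nat_lit 1781) (nat_lit 493606071910183044160)) (.cons (.br (nat_lit 10) (nat_lit 1) (.cons (.kr (nat_lit 4777706715090773868800) (nat_lit 20282412021503381710799655403520) (nat_lit 1) (nat_lit 0)) (.cons (.kr (nat_lit 20282409608392483650890606051584) (nat_lit 2417851711286852404117504) (nat_lit 1) (nat_lit 0)) .nil))) (.cons (.br (nat_lit 6) (nat_lit 1) (.cons (.ev (nat_lit 20282410817318375604588812173313) (nat_lit 1)) (.cons (.ev (nat_lit 1213648258436567851335681) (nat_lit 1)) .nil))) .nil)))) .nil))),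
 (.br (nat_lit 4) (nat_lit 1) (.cons (.rf (nat_lit 1896) (nat_lit 15432932269572065312)) (.cons (.ev (nat_lit 79228162532711082771076940033) (nat_lit 1)) .nil))),
 (.br (nat_lit 6) (nat_lit 1) (.cons (.br (nat_lit 10) (nat_lit 1) (.cons (.br (nat_lit 4) (nat_lit 1) (.cons (.br (nat_lit 9) (nat_lit 1) (.cons (.ev (nat_lit 20838863679682047342601585100036) (nat_lit 3)) .nil)) .nil)) (.cons (.rf (nat_lit 1913) (nat_lit 493858305440582043680)) .nil))) (.cons (.br (nat_lit 12) (nat_lit 0) (.cons (.br (nat_lit 9) (nat_lit 1) (.cons (.br (nat_lit 7) (nat_lit 0) (.cons (.ev (nat_lit 20838863679682047342601585100036) (nat_lit 3)) .nil)) .nil)) (.cons (.ev (nat_lit 20361947255898122590578676924673) (nat_lit 1)) (.cons (.rf (nat_lit 1913) (nat_lit 493858305440582043680)) .nil)))) .nil))),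
 (.br (nat_lit 9) (nat_lit 1) (.cons (.rf (nat_lit 1867) (nat_lit 493851582961062873120)) (.cons (.br (nat_lit 10) (nat_lit 1) (.cons (.kr (nat_lit 79228162551157826840474681600) (nat_lit 20282412021503381710799638691840) (nat_lit 1) (nat_lit 0)) .nil)) .nil))),
 (.br (nat_lit 4) (nat_lit 1) (.cons (.rf (nat_lit 1914) (nat_lit 493858305440582043680)) (.cons (.br (nat_lit 7) (nat_lit 0) (.cons (.rf (nat_lit 1915) (nat_lit 493858305440582043680)) (.cons (.rf (nat_lit 1781) (nat_lit 493786215889909154880)) (.cons (.br (nat_lit 9) (nat_lit 1) (.cons (.ev (nat_lit 20282719093402377053553368760321) (nat_lit 1)) (.cons (.ev (nat_lit 309489732259885532407922689) (nat_lit 1)) .nil))) .nil)))) .nil))),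
 (.br (nat_lit 2) (nat_lit 0) (.cons (.br (nat_lit 9) (nat_lit 1) (.cons (.rf (nat_lit 1911) (nat_lit 493858305440582043680)) (.cons (.rf (nat_lit 1912) (nat_lit 493858305440582043680)) (.cons (.br (nat_lit 9) (nat_lit 1) (.cons (.rf (nat_lit 1911) (nat_lit 493858305440582043680)) (.cons (.rf (nat_lit 1912) (nat_lit 493858305440582043680)) .nil))) .nil)))) (.cons (.rf (nat_lit 1910) (nat_lit 493858303243706271776)) (.cons (.br (nat_lit 4) (nat_lit 1) (.cons (.rf (nat_lit 1914) (nat_lit 493858305440582043680)) (.cons (.rf (nat_lit 1916) (nat_lit 493858305440582043680)) (.cons (.br (nat_lit 4) (nat_lit 1) (.cons (.rf (nat_lit 1914) (nat_lit 493858305440582043680)) (.cons (.rf (nat_lit 1916) (nat_lit 493858305440582043680)) .nil))) .nil)))) (.cons (.rf (nat_lit 1910) (nat_lit 493856055839791613984)) .nil)))))]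

theorem c64 : chkAll C T R L64 (nat_lit 1889) = true := by decide +kernel

theorem l64 : (nat_lit 1889) + L64.length = (nat_lit 1918) := by decide +kernel

/-- part of the certificates -/
def L65 : List Prf := [(.br (nat_lit 13) (nat_lit 0) (.cons (.rf (nat_lit 1901) (nat_lit 493858305440582043680)) (.cons (.br (nat_lit 10) (nat_lit 1) (.cons (.br (nat_lit 10) (nat_lit 1) (.cons (.rf (nat_lit 1833) (nat_lit 372964484733568064)) (.cons (.rf (nat_lit 1833) (nat_lit 372964416081200192)) (.cons (.rf (nat_lit 1901) (nat_lit 493823368456464073792)) .nil)))) (.cons (.rf (nat_lit 1907) (nat_lit 493858305440582043680)) (.cons (.rf (nat_lit 1907) (nat_lit 493858305371929675808)) (.cons (.br (nat_lit 10) (nat_lit 1) (.cons (.rf (nat_lit 1901) (nat_lit 493823368456464073792)) (.cons (.rf (nat_lit 1907) (nat_lit 493858305440582043680)) (.cons (.rf (nat_lit 1907) (nat_lit 493858305371929675808)) .nil)))) .nil))))) (.cons (.br (nat_lit 8) (nat_lit 1) (.cons (.rf (nat_lit 1910) (nat_lit 493858305440582043680))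 (.cons (.rf (nat_lit 1917) (nat_lit 493858305440582043680)) (.cons (.rf (nat_lit 1917) (nat_lit 493858305371929675808)) (.cons (.kr (nat_lit 18446744073709551616) (nat_lit 20282409603651670423947251286016) (nat_lit 8) (nat_lit 0)) .nil))))) .nil)))),
 (.br (nat_lit 4) (nat_lit 1) (.cons (.br (nat_lit 8) (nat_lit 1) (.cons (.rf (nat_lit 1773) (nat_lit 282533659712)) (.cons (.rf (nat_lit 1773) (nat_lit 280388273216)) (.cons (.br (nat_lit 12) (nat_lit 0) (.cons (.ev (nat_lit 79537647542532708215266803713) (nat_lit 1)) (.cons (.br (nat_lit 10) (nat_lit 1) (.cons (.rf (nat_lit 1901) (nat_lit 458079526195509206176)) (.cons (.rf (nat_lit 1901) (nat_lit 458079526195509204192)) .nil))) (.cons (.kr (nat_lit 1208925819614629174706176) (nat_lit 79228162514264337593543950336) (nat_lit 10) (nat_lit 0)) .nil)))) .nil)))) (.cons (.br (nat_lit 9) (nat_lit 1) (.cons (.br (nat_lit 10) (nat_lit 1) (.cons (.br (nat_lit 6) (nat_lit 1) (.cons (.br (nat_lit 8) (nat_lit 1) (.cons (.ev (nat_lit 20838863660866080152643644489988)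 (nat_lit 3)) .nil)) (.cons (.br (nat_lit 7) (nat_lit 0) (.cons (.ev (nat_lit 313125973043120673808122114) (nat_lit 2)) .nil)) .nil))) (.cons (.br (nat_lit 6) (nat_lit 1) (.cons (.ev (nat_lit 20361637770888301525885417226241) (nat_lit 1)) .nil)) .nil))) (.cons (.br (nat_lit 8) (nat_lit 1) (.cons (.rf (nat_lit 1781) (nat_lit 493750222345914647616)) (.cons (.br (nat_lit 5) (nat_lit 0) (.cons (.ev (nat_lit 4722438823038171480321) (nat_lit 1)) (.cons (.br (nat_lit 12) (nat_lit 0) (.cons (.ev (nat_lit 313125973043120673808122114) (nat_lit 2)) .nil)) .nil))) (.cons (.br (nat_lit 6) (nat_lit 1) (.cons (.br (nat_lit 10) (nat_lit 1) (.cons (.ev (nat_lit 158767028427422248916012302850) (nat_lit 2)) .nil)) (.cons (.ev (nat_lit 309485028340146736472326401) (nat_lit 1)) .nil))) .nil)))) (.cons (.kr (nat_lit 4722366482869645213696) (nat_lit 79228162514264337593543950336) (nat_lit 9) (nat_lit 0)) .nil)))) .nil))),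
 (.br (nat_lit 4) (nat_lit 1) (.cons (.rf (nat_lit 1919) (nat_lit 493858305440582043680)) (.cons (.rf (nat_lit 1919) (nat_lit 493858305371929675808)) (.cons (.br (nat_lit 4) (nat_lit 1) (.cons (.rf (nat_lit 1919) (nat_lit 493858305440582043680)) (.cons (.rf (nat_lit 1919) (nat_lit 493858305371929675808)) .nil))) .nil)))),
 (.br (nat_lit 10) (nat_lit 1) (.cons (.br (nat_lit 6) (nat_lit 1) (.cons (.br (nat_lit 9) (nat_lit 1) (.cons (.ev (nat_lit 20282410817318303548094285873153) (nat_lit 1)) (.cons (.ev (nat_lit 20282410817299856802921047982081) (nat_lit 1)) .nil))) (.cons (.br (nat_lit 9) (nat_lit 1) (.cons (.ev (nat_lit 20282410817299856802921047982081) (nat_lit 1)) .nil)) .nil))) (.cons (.br (nat_lit 4) (nat_lit 1) (.cons (.rf (nat_lit 1781) (nat_lit 493606107162133759040)) (.cons (.br (nat_lit 12) (nat_lit 0) (.cons (.br (nat_lit 9) (nat_lit 1) (.cons (.ev (nat_lit 79229376162522775260890136833) (nat_lit 1)) .nil)) (.cons (.br (nat_lit 6) (nat_lit 1) (.cons (.ev (nat_lit 79229376162522775260890136833)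 (nat_lit 1)) .nil)) .nil))) (.cons (.br (nat_lit 7) (nat_lit 0) (.cons (.br (nat_lit 5) (nat_lit 0) (.cons (.ev (nat_lit 20678552853001208062779976647940) (nat_lit 3)) .nil)) (.cons (.kr (nat_lit 4740813226943354830848) (nat_lit 79228162514336395187598655488) (nat_lit 2) (nat_lit 0)) .nil))) .nil)))) (.cons (.kr (nat_lit 1208925819614629174706176) (nat_lit 79228162514264337593543950336) (nat_lit 10) (nat_lit 0)) .nil)))),
 (.br (nat_lit 8) (nat_lit 1) (.cons (.rf (nat_lit 1920) (nat_lit 493858305440582043680)) (.cons (.br (nat_lit 2) (nat_lit 0) (.cons (.br (nat_lit 4) (nat_lit 1) (.cons (.rf (nat_lit 1773) (nat_lit 145228923968)) (.cons (.rf (nat_lit 1773) (nat_lit 143083537472)) (.cons (.br (nat_lit 10) (nat_lit 1) (.cons (.kr (nat_lit 18446744073709617152) (nat_lit 1099528404992) (nat_lit 2) (nat_lit 0)) (.cons (.kr (nat_lit 18446744073709617152) (nat_lit 72057594054705152) (nat_lit 2) (nat_lit 0)) (.cons (.br (nat_lit 9) (nat_lit 1) (.cons (.rf (nat_lit 1901) (nat_lit 458038990503550393504))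 (.cons (.rf (nat_lit 1901) (nat_lit 458038990503550391520)) .nil))) .nil)))) .nil)))) (.cons (.rf (nat_lit 1908) (nat_lit 15433070876887713824)) (.cons (.rf (nat_lit 1908) (nat_lit 15433070979866265632)) (.cons (.rf (nat_lit 1908) (nat_lit 15433035829853915168)) .nil))))) (.cons (.br (nat_lit 4) (nat_lit 1) (.cons (.rf (nat_lit 1921) (nat_lit 493858305440582043680)) (.cons (.rf (nat_lit 1855) (nat_lit 493856084430317258784)) (.cons (.br (nat_lit 4) (nat_lit 1) (.cons (.rf (nat_lit 1921) (nat_lit 493858305440582043680)) (.cons (.rf (nat_lit 1855) (nat_lit 493856084430317258784)) (.cons (.ev (nat_lit 20361637766184381505618799755521) (nat_lit 1)) .nil)))) (.cons (.br (nat_lit 4) (nat_lit 1) (.cons (.rf (nat_lit 1921) (nat_lit 493858305440582043680)) (.cons (.rf (nat_lit 1855) (nat_lit 493856084430317258784)) (.cons (.ev (nat_lit 20361637766184381505618799755521) (nat_lit 1)) .nil)))) .nil))))) .nil)))),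
 (.br (nat_lit 13) (nat_lit 0) (.cons (.rf (nat_lit 1901) (nat_lit 493858305440582043680)) (.cons (.rf (nat_lit 1918) (nat_lit 493858305440582043680)) (.cons (.br (nat_lit 8) (nat_lit 1) (.cons (.rf (nat_lit 1920) (nat_lit 493858305440582043680)) (.cons (.rf (nat_lit 1922) (nat_lit 493858305440582043680)) (.cons (.rf (nat_lit 1922) (nat_lit 493858305371929675808)) (.cons (.br (nat_lit 8) (nat_lit 1) (.cons (.rf (nat_lit 1920) (nat_lit 493858305440582043680)) (.cons (.rf (nat_lit 1922) (nat_lit 493858305440582043680)) (.cons (.rf (nat_lit 1922) (nat_lit 493858305371929675808)) .nil)))) .nil))))) .nil)))),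
 (.br (nat_lit 13) (nat_lit 0) (.cons (.rf (nat_lit 1901) (nat_lit 493858305440582043680)) (.cons (.rf (nat_lit 1918) (nat_lit 493858305440582043680)) (.cons (.rf (nat_lit 1923) (nat_lit 493858305440582043680)) (.cons (.br (nat_lit 13) (nat_lit 0) (.cons (.rf (nat_lit 1901) (nat_lit 493858305440582043680)) (.cons (.rf (nat_lit 1918) (nat_lit 493858305440582043680)) (.cons (.rf (nat_lit 1923) (nat_lit 493858305440582043680)) .nil)))) .nil))))),
 (.br (nat_lit 4) (nat_lit 1) (.cons (.br (nat_lit 6) (nat_lit 1) (.cons (.rf (nat_lit 1773) (nat_lit 213814182976)) (.cons (.rf (nat_lit 1773) (nat_lit 211668796480)) (.cons (.br (nat_lit 12) (nat_lit 0) (.cons (.rf (nat_lit 1896) (nat_lit 15427406124132959296)) (.cons (.ev (nat_lit 20361947251175756388088808538113) (nat_lit 1)) (.cons (.rf (nat_lit 1896) (nat_lit 15433037822688331808)) .nil)))) .nil)))) (.cons (.br (nat_lit 6) (nat_lit 1) (.cons (.rf (nat_lit 1781) (nat_lit 493678164751878816832)) (.cons (.br (nat_lit 12) (nat_lit 0) (.cons (.br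 (nat_lit 10) (nat_lit 1) (.cons (.ev (nat_lit 20361638975110201121347502866433) (nat_lit 1)) (.cons (.rf (nat_lit 1800) (nat_lit 15427406155338581056)) .nil))) (.cons (.kr (nat_lit 4722366482869645213696) (nat_lit 79228162514264337593543950336) (nat_lit 9) (nat_lit 0)) (.cons (.br (nat_lit 5) (nat_lit 0) (.cons (.ev (nat_lit 20361638975110201121347502866433) (nat_lit 1)) (.cons (.rf (nat_lit 1852) (nat_lit 493851583029715240992)) .nil))) .nil)))) (.cons (.br (nat_lit 9) (nat_lit 1) (.cons (.br (nat_lit 8) (nat_lit 1) (.cons (.br (nat_lit 10) (nat_lit 1) (.cons (.ev (nat_lit 20838863660866080152643644489988) (nat_lit 3)) .nil)) .nil)) (.cons (.br (nat_lit 5) (nat_lit 0) (.cons (.br (nat_lit 7) (nat_lit 0) (.cons (.ev (nat_lit 20838863679682047342601585100036) (nat_lit 3)) .nil)) (.cons (.br (nat_lit 8) (nat_lit 1) (.cons (.ev (nat_lit 20838866078680825893754574931716) (nat_lit 3)) .nil)) .nil))) .nil))) .nil)))) .nil))),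
 (.br (nat_lit 4) (nat_lit 1) (.cons (.rf (nat_lit 1925) (nat_lit 493858305440582043680)) (.cons (.rf (nat_lit 1925) (nat_lit 493858305371929675808)) (.cons (.br (nat_lit 4) (nat_lit 1) (.cons (.rf (nat_lit 1925) (nat_lit 493858305440582043680)) (.cons (.rf (nat_lit 1925) (nat_lit 493858305371929675808)) .nil))) .nil)))),
 (.br (nat_lit 4) (nat_lit 1) (.cons (.rf (nat_lit 1781) (nat_lit 493606107159988372544)) (.cons (.br (nat_lit 12) (nat_lit 0) (.cons (.br (nat_lit 5) (nat_lit 0) (.cons (.ev (nat_lit 79228167236631103037694279681) (nat_lit 1)) (.cons (.rf (nat_lit 1840) (nat_lit 493853625923394439200)) .nil))) (.cons (.ev (nat_lit 20282719093383858533364909801473) (nat_lit 1)) (.cons (.br (nat_lit 8) (nat_lit 1) (.cons (.ev (nat_lit 1208944266641277389439233) (nat_lit 1)) (.cons (.rf (nat_lit 1753) (nat_lit 493603854197377303616)) .nil))) .nil)))) (.cons (.br (nat_lit 7) (nat_lit 0) (.cons (.ev (nat_lit 79537647542532708215266803713) (nat_lit 1)) (.cons (.ev (nat_lit 20282719093383858533364909801473)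 (nat_lit 1)) (.cons (.br (nat_lit 7) (nat_lit 0) (.cons (.ev (nat_lit 79537647542532708215266803713) (nat_lit 1)) (.cons (.ev (nat_lit 20282719093383858533364909801473) (nat_lit 1)) .nil))) .nil)))) .nil)))),
 (.br (nat_lit 4) (nat_lit 1) (.cons (.rf (nat_lit 1927) (nat_lit 493858305440582043680)) (.cons (.rf (nat_lit 1855) (nat_lit 493853832630505670688)) (.cons (.br (nat_lit 10) (nat_lit 1) (.cons (.rf (nat_lit 1901) (nat_lit 458082801813651817536)) (.cons (.ev (nat_lit 79229371440084234797223772161) (nat_lit 1)) (.cons (.br (nat_lit 5) (nat_lit 0) (.cons (.br (nat_lit 2) (nat_lit 0) (.cons (.zr (nat_lit 237686905394648977771048861696) (nat_lit 309489805974804250404848385) (nat_lit 5) (nat_lit 0)) .nil)) (.cons (.br (nat_lit 8) (nat_lit 1) (.cons (.ev (nat_lit 20520725150509268387380475265288) (nat_lit 4)) .nil)) .nil))) .nil)))) .nil)))),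
 (.br (nat_lit 6) (nat_lit 1) (.cons (.rf (nat_lit 1926) (nat_lit 493858305440582043680)) (.cons (.br (nat_lit 2) (nat_lit 0) (.cons (.br (nat_lit 4) (nat_lit 1) (.cons (.rf (nat_lit 1773) (nat_lit 145161815104)) (.cons (.rf (nat_lit 1773) (nat_lit 143016428608)) (.cons (.br (nat_lit 12) (nat_lit 0) (.cons (.br (nat_lit 9) (nat_lit 1) (.cons (.rf (nat_lit 1924) (nat_lit 458046633211015142560)) (.cons (.rf (nat_lit 1924) (nat_lit 458046633211015140576)) .nil))) (.cons (.ev (nat_lit 20282719093383858533364909801473) (nat_lit 1)) (.cons (.rf (nat_lit 1896) (nat_lit 15433037891407808544)) .nil)))) .nil)))) (.cons (.rf (nat_lit 1908) (nat_lit 15433068746583935008)) (.cons (.rf (nat_lit 1908) (nat_lit 15433068780910118944)) (.cons (.rf (nat_lit 1908) (nat_lit 15433033630897768480)) .nil))))) (.cons (.br (nat_lit 4) (nat_lit 1) (.cons (.rf (nat_lit 1927) (nat_lit 493858305440582043680)) (.cons (.rf (nat_lit 1855) (nat_lit 493853832630505670688)) (.cons (.rf (nat_lit 1928) (nat_lit 493858305440582043680))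 (.cons (.br (nat_lit 4) (nat_lit 1) (.cons (.rf (nat_lit 1927) (nat_lit 493858305440582043680)) (.cons (.rf (nat_lit 1855) (nat_lit 493853832630505670688)) (.cons (.rf (nat_lit 1928) (nat_lit 493858305440582043680)) .nil)))) .nil))))) .nil)))),
 (.br (nat_lit 13) (nat_lit 0) (.cons (.rf (nat_lit 1901) (nat_lit 493858305440582043680)) (.cons (.rf (nat_lit 1924) (nat_lit 493858305440582043680)) (.cons (.br (nat_lit 6) (nat_lit 1) (.cons (.rf (nat_lit 1926) (nat_lit 493858305440582043680)) (.cons (.rf (nat_lit 1929) (nat_lit 493858305440582043680)) (.cons (.rf (nat_lit 1929) (nat_lit 493858305371929675808)) (.cons (.br (nat_lit 6) (nat_lit 1) (.cons (.rf (nat_lit 1926) (nat_lit 493858305440582043680)) (.cons (.rf (nat_lit 1929) (nat_lit 493858305440582043680)) (.cons (.rf (nat_lit 1929) (nat_lit 493858305371929675808)) .nil)))) .nil))))) .nil)))),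
 (.br (nat_lit 13) (nat_lit 0) (.cons (.rf (nat_lit 1901) (nat_lit 493858305440582043680)) (.cons (.rf (nat_lit 1924) (nat_lit 493858305440582043680)) (.cons (.rf (nat_lit 1930) (nat_lit 493858305440582043680)) (.cons (.br (nat_lit 13) (nat_lit 0) (.cons (.rf (nat_lit 1901) (nat_lit 493858305440582043680)) (.cons (.rf (nat_lit 1924) (nat_lit 493858305440582043680)) (.cons (.rf (nat_lit 1930) (nat_lit 493858305440582043680)) .nil)))) .nil))))),
 (.br (nat_lit 13) (nat_lit 0) (.cons (.rf (nat_lit 1901) (nat_lit 493858305440582043680)) (.cons (.rf (nat_lit 1924) (nat_lit 493858305440582043680)) (.cons (.rf (nat_lit 1931) (nat_lit 493858305440582043680)) (.cons (.br (nat_lit 13) (nat_lit 0) (.cons (.rf (nat_lit 1901) (nat_lit 493858305440582043680)) (.cons (.rf (nat_lit 1924) (nat_lit 493858305440582043680)) (.cons (.rf (nat_lit 1931) (nat_lit 493858305440582043680)) .nil)))) .nil))))),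
 (.br (nat_lit 11) (nat_lit 1) (.cons (.kr (nat_lit 256) (nat_lit 65536) (nat_lit 1) (nat_lit 0)) (.cons (.rf (nat_lit 1833) (nat_lit 407901468851537952)) (.cons (.rf (nat_lit 1833) (nat_lit 407901400199170080)) (.cons (.br (nat_lit 12) (nat_lit 1) (.cons (.br (nat_lit 13) (nat_lit 0) (.cons (.rf (nat_lit 1901) (nat_lit 493858305440582043680)) (.cons (.rf (nat_lit 1924) (nat_lit 493858305440582043680)) (.cons (.rf (nat_lit 1931) (nat_lit 493858305440582043680)) (.cons (.rf (nat_lit 1932) (nat_lit 493858305440582043680)) (.cons (.br (nat_lit 13) (nat_lit 0) (.cons (.rf (nat_lit 1901) (nat_lit 493858305440582043680)) (.cons (.rf (nat_lit 1924) (nat_lit 493858305440582043680)) (.cons (.rf (nat_lit 1931) (nat_lit 493858305440582043680)) (.cons (.rf (nat_lit 1932) (nat_lit 493858305440582043680)) .nil))))) .nil)))))) .nil)) .nil))))),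
 (.br (nat_lit 13) (nat_lit 0) (.cons (.br (nat_lit 12) (nat_lit 0) (.cons (.br (nat_lit 1) (nat_lit 0) (.cons (.br (nat_lit 2) (nat_lit 0) (.cons (.ev (nat_lit 309489750634572012096323841) (nat_lit 1)) .nil)) (.cons (.br (nat_lit 2) (nat_lit 0) (.cons (.ev (nat_lit 309489750634572012096389121) (nat_lit 1)) .nil)) .nil))) (.cons (.rf (nat_lit 1896) (nat_lit 15431909683893738656)) (.cons (.ev (nat_lit 20282720302309749924113145659393) (nat_lit 1)) .nil)))) .nil)),
 (.br (nat_lit 13) (nat_lit 0) (.cons (.rf (nat_lit 1934) (nat_lit 493858305440582043680)) (.cons (.br (nat_lit 13) (nat_lit 0) (.cons (.rf (nat_lit 1934) (nat_lit 493858305440582043680)) .nil)) .nil))),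
 (.br (nat_lit 13) (nat_lit 0) (.cons (.rf (nat_lit 1935) (nat_lit 493858305440582043680)) (.cons (.br (nat_lit 13) (nat_lit 0) (.cons (.rf (nat_lit 1935) (nat_lit 493858305440582043680)) .nil)) .nil))),
 (.br (nat_lit 9) (nat_lit 0) (.cons (.br (nat_lit 9) (nat_lit 0) (.cons (.rf (nat_lit 1908) (nat_lit 10741510865314649280)) .nil)) .nil)),
 (.br (nat_lit 4) (nat_lit 1) (.cons (.rf (nat_lit 1773) (nat_lit 143184201760)) (.cons (.rf (nat_lit 1773) (nat_lit 143184200768)) (.cons (.br (nat_lit 13) (nat_lit 0) (.cons (.rf (nat_lit 1935) (nat_lit 493858305440582043680)) (.cons (.rf (nat_lit 1936) (nat_lit 493858305440582043680)) (.cons (.br (nat_lit 13) (nat_lit 0) (.cons (.rf (nat_lit 1935) (nat_lit 493858305440582043680)) (.cons (.rf (nat_lit 1936) (nat_lit 493858305440582043680)) .nil))) .nil)))) (.cons (.rf (nat_lit 1937) (nat_lit 15071357167568928)) .nil))))),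
 (.br (nat_lit 9) (nat_lit 1) (.cons (.br (nat_lit 6) (nat_lit 1) (.cons (.ev (nat_lit 79228167236631103041972469761) (nat_lit 1)) .nil)) (.cons (.br (nat_lit 1) (nat_lit 0) (.cons (.ev (nat_lit 79537652246452447011202465793) (nat_lit 1)) .nil)) .nil))),
 (.br (nat_lit 13) (nat_lit 0) (.cons (.br (nat_lit 2) (nat_lit 0) (.cons (.rf (nat_lit 1939) (nat_lit 493858305440582043680)) (.cons (.br (nat_lit 1) (nat_lit 0) (.cons (.rf (nat_lit 1939) (nat_lit 493858305440582042688)) (.cons (.rf (nat_lit 1938) (nat_lit 457824828698171645088)) .nil))) (.cons (.br (nat_lit 1) (nat_lit 0) (.cons (.rf (nat_lit 1939) (nat_lit 493858305440582042688)) (.cons (.rf (nat_lit 1938) (nat_lit 457824828732497829024)) .nil))) .nil)))) .nil))]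

theorem c65 : chkAll C T R L65 (nat_lit 1918) = true := by decide +kernel

theorem l65 : (nat_lit 1918) + L65.length = (nat_lit 1941) := by decide +kernel

/-- part of the certificates -/
def L66 : List Prf := [(.br (nat_lit 13) (nat_lit 0) (.cons (.rf (nat_lit 1940) (nat_lit 493858305440582043680)) (.cons (.br (nat_lit 13) (nat_lit 0) (.cons (.rf (nat_lit 1940) (nat_lit 493858305440582043680)) .nil)) .nil))),
 (.br (nat_lit 13) (nat_lit 0) (.cons (.rf (nat_lit 1941) (nat_lit 493858305440582043680)) (.cons (.br (nat_lit 13) (nat_lit 0) (.cons (.rf (nat_lit 1941) (nat_lit 493858305440582043680)) .nil)) .nil))),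
 (.br (nat_lit 13) (nat_lit 0) (.cons (.br (nat_lit 12) (nat_lit 0) (.cons (.ev (nat_lit 20282720302309749924113145659393) (nat_lit 1)) (.cons (.br (nat_lit 1) (nat_lit 0) (.cons (.ev (nat_lit 79229376162450716567340581121) (nat_lit 1)) (.cons (.ev (nat_lit 20282410817299928861614597472513) (nat_lit 1)) .nil))) (.cons (.rf (nat_lit 1896) (nat_lit 15431733762033294496)) .nil)))) .nil)),
 (.br (nat_lit 13) (nat_lit 0) (.cons (.rf (nat_lit 1943) (nat_lit 493858305440582043680)) (.cons (.br (nat_lit 13) (nat_lit 0) (.cons (.rf (nat_lit 1943) (nat_lit 493858305440582043680)) .nil)) .nil))),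
 (.br (nat_lit 13) (nat_lit 0) (.cons (.rf (nat_lit 1944) (nat_lit 493858305440582043680)) (.cons (.br (nat_lit 13) (nat_lit 0) (.cons (.rf (nat_lit 1944) (nat_lit 493858305440582043680)) .nil)) .nil))),
 (.br (nat_lit 10) (nat_lit 1) (.cons (.rf (nat_lit 1773) (nat_lit 351488018464)) (.cons (.rf (nat_lit 1773) (nat_lit 351488017472)) (.cons (.kr (nat_lit 1099511627776) (nat_lit 72057594037927936) (nat_lit 5) (nat_lit 0)) (.cons (.br (nat_lit 12) (nat_lit 1) (.cons (.br (nat_lit 7) (nat_lit 0) (.cons (.rf (nat_lit 1938) (nat_lit 493858305440582043680)) (.cons (.rf (nat_lit 1933) (nat_lit 219836433285092576)) (.cons (.br (nat_lit 8) (nat_lit 1) (.cons (.rf (nat_lit 1773) (nat_lit 280623155232)) (.cons (.rf (nat_lit 1773) (nat_lit 280623154240)) (.cons (.br (nat_lit 13) (nat_lit 0) (.cons (.rf (nat_lit 1941) (nat_lit 493858305440582043680)) (.cons (.rf (nat_lit 1942) (nat_lit 493858305440582043680)) (.cons (.br (nat_lit 13) (nat_lit 0) (.cons (.rf (nat_lit 1941) (nat_lit 493858305440582043680))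 (.cons (.rf (nat_lit 1942) (nat_lit 493858305440582043680)) .nil))) .nil)))) (.cons (.rf (nat_lit 1937) (nat_lit 15071357171763232)) .nil))))) (.cons (.br (nat_lit 9) (nat_lit 1) (.cons (.rf (nat_lit 1773) (nat_lit 314982893600)) (.cons (.rf (nat_lit 1773) (nat_lit 314982892608)) (.cons (.br (nat_lit 13) (nat_lit 0) (.cons (.rf (nat_lit 1944) (nat_lit 493858305440582043680)) (.cons (.rf (nat_lit 1945) (nat_lit 493858305440582043680)) (.cons (.br (nat_lit 13) (nat_lit 0) (.cons (.rf (nat_lit 1944) (nat_lit 493858305440582043680)) (.cons (.rf (nat_lit 1945) (nat_lit 493858305440582043680)) .nil))) .nil)))) (.cons (.rf (nat_lit 1937) (nat_lit 15071357172811808)) .nil))))) .nil))))) .nil)) .nil))))),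
 (.br (nat_lit 4) (nat_lit 0) (.cons (.br (nat_lit 6) (nat_lit 0) (.cons (.kr (nat_lit 4294967296) (nat_lit 281474976710656) (nat_lit 4) (nat_lit 0)) (.cons (.br (nat_lit 2) (nat_lit 0) (.cons (.rf (nat_lit 1773) (nat_lit 384672302144)) (.cons (.rf (nat_lit 1773) (nat_lit 416886654016)) (.cons (.br (nat_lit 1) (nat_lit 0) (.cons (.rf (nat_lit 1773) (nat_lit 384672303136)) (.cons (.rf (nat_lit 1773) (nat_lit 416886655008)) (.cons (.kr (nat_lit 256) (nat_lit 65536) (nat_lit 1) (nat_lit 0)) .nil)))) .nil)))) .nil))) .nil)),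
 (.br (nat_lit 6) (nat_lit 1) (.cons (.rf (nat_lit 1946) (nat_lit 114991403579579552)) (.cons (.rf (nat_lit 1946) (nat_lit 114991369253395616)) (.cons (.rf (nat_lit 1933) (nat_lit 219836433285094560)) (.cons (.rf (nat_lit 1933) (nat_lit 219836433285092576)) (.cons (.rf (nat_lit 1947) (nat_lit 15071357202171936)) .nil)))))),
 (.br (nat_lit 10) (nat_lit 1) (.cons (.rf (nat_lit 1933) (nat_lit 372964484733569056)) (.cons (.rf (nat_lit 1933) (nat_lit 372964484733568064)) (.cons (.rf (nat_lit 1946) (nat_lit 407901468851537952)) (.cons (.rf (nat_lit 1946) (nat_lit 407901400199170080)) (.cons (.br (nat_lit 10) (nat_lit 1) (.cons (.rf (nat_lit 1933) (nat_lit 372964484733569056)) (.cons (.rf (nat_lit 1933) (nat_lit 372964484733568064)) (.cons (.rf (nat_lit 1946) (nat_lit 407901468851537952)) (.cons (.rf (nat_lit 1946) (nat_lit 407901400199170080)) (.cons (.br (nat_lit 6) (nat_lit 1) (.cons (.rf (nat_lit 1946) (nat_lit 114991403579579552)) (.cons (.rf (nat_lit 1946) (nat_lit 114991369253395616))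 (.cons (.rf (nat_lit 1933) (nat_lit 219836433285094560)) (.cons (.rf (nat_lit 1933) (nat_lit 219836433285092576)) (.cons (.rf (nat_lit 1948) (nat_lit 493858305440582043680)) (.cons (.rf (nat_lit 1948) (nat_lit 458117738797769787424)) .nil))))))) .nil)))))) .nil)))))),
 (.br (nat_lit 11) (nat_lit 0) (.cons (.kr (nat_lit 79228162514264338693055578112) (nat_lit 309485009893402662762708992) (nat_lit 5) (nat_lit 0)) (.cons (.br (nat_lit 1) (nat_lit 0) (.cons (.rf (nat_lit 1855) (nat_lit 419889069635925018656)) (.cons (.rf (nat_lit 1855) (nat_lit 455883919297733560352)) .nil))) .nil))),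
 (.br (nat_lit 6) (nat_lit 1) (.cons (.kr (nat_lit 20283028573671313115184212476160) (nat_lit 79230580365975624445931356160) (nat_lit 1) (nat_lit 0)) .nil)),
 (.br (nat_lit 7) (nat_lit 0) (.cons (.rf (nat_lit 1950) (nat_lit 15433068713162672160)) (.cons (.rf (nat_lit 1950) (nat_lit 15433070910038444064)) (.cons (.br (nat_lit 9) (nat_lit 1) (.cons (.rf (nat_lit 1809) (nat_lit 493783886032290285600)) (.cons (.rf (nat_lit 1809) (nat_lit 493783886032290284608)) (.cons (.br (nat_lit 8) (nat_lit 1) (.cons (.rf (nat_lit 1951) (nat_lit 493858305440582043680)) (.cons (.rf (nat_lit 1951) (nat_lit 493858305440582042688)) .nil))) .nil)))) .nil)))),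
 (.br (nat_lit 7) (nat_lit 0) (.cons (.rf (nat_lit 1950) (nat_lit 15433070910038444064)) (.cons (.rf (nat_lit 1950) (nat_lit 15433070907893057568)) (.cons (.br (nat_lit 9) (nat_lit 1) (.cons (.rf (nat_lit 1809) (nat_lit 493783886032290285600)) (.cons (.rf (nat_lit 1809) (nat_lit 493783886032290284608)) (.cons (.br (nat_lit 1) (nat_lit 0) (.cons (.br (nat_lit 6) (nat_lit 1) (.cons (.ev (nat_lit 72339073309671681) (nat_lit 1)) .nil)) (.cons (.br (nat_lit 2) (nat_lit 0) (.cons (.ev (nat_lit 72339073309671681) (nat_lit 1)) .nil)) .nil))) .nil)))) .nil)))),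
 (.br (nat_lit 7) (nat_lit 0) (.cons (.rf (nat_lit 1952) (nat_lit 493858305440582043680)) (.cons (.rf (nat_lit 1952) (nat_lit 493858305438436657184)) (.cons (.rf (nat_lit 1953) (nat_lit 493858305440582043680)) (.cons (.br (nat_lit 7) (nat_lit 0) (.cons (.rf (nat_lit 1952) (nat_lit 493858305440582043680)) (.cons (.rf (nat_lit 1952) (nat_lit 493858305438436657184)) (.cons (.rf (nat_lit 1953) (nat_lit 493858305440582043680)) .nil)))) .nil))))),
 (.br (nat_lit 13) (nat_lit 0) (.cons (.rf (nat_lit 1954) (nat_lit 493858305440582043680)) (.cons (.rf (nat_lit 1954) (nat_lit 493823368456464074784)) .nil))),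
 (.br (nat_lit 6) (nat_lit 1) (.cons (.kr (nat_lit 256) (nat_lit 65536) (nat_lit 1) (nat_lit 0)) (.cons (.rf (nat_lit 1809) (nat_lit 493676995908811720736)) (.cons (.rf (nat_lit 1855) (nat_lit 493678164756169590816)) .nil)))),
 (.br (nat_lit 9) (nat_lit 1) (.cons (.kr (nat_lit 309485009821345068724781312) (nat_lit 1208925819614629174771712) (nat_lit 1) (nat_lit 0)) .nil)),
 (.br (nat_lit 6) (nat_lit 1) (.cons (.rf (nat_lit 1956) (nat_lit 493858305440582043680)) (.cons (.rf (nat_lit 1956) (nat_lit 493858305440582042688)) (.cons (.br (nat_lit 4) (nat_lit 1) (.cons (.ev (nat_lit 20361947251175756388084496728321) (nat_lit 1)) (.cons (.ev (nat_lit 20361947251175756388084496793601) (nat_lit 1)) (.cons (.br (nat_lit 1) (nat_lit 0) (.cons (.rf (nat_lit 1957) (nat_lit 493858305440582043680)) (.cons (.rf (nat_lit 1957) (nat_lit 493823368458609461280)) .nil))) .nil)))) .nil)))),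
 (.br (nat_lit 13) (nat_lit 0) (.cons (.rf (nat_lit 1955) (nat_lit 493858305440582043680)) (.cons (.br (nat_lit 6) (nat_lit 1) (.cons (.rf (nat_lit 1956) (nat_lit 493858305440582043680)) (.cons (.rf (nat_lit 1956) (nat_lit 493858305440582042688)) (.cons (.rf (nat_lit 1958) (nat_lit 493858305440582043680)) (.cons (.br (nat_lit 6) (nat_lit 1) (.cons (.rf (nat_lit 1956) (nat_lit 493858305440582043680)) (.cons (.rf (nat_lit 1956) (nat_lit 493858305440582042688)) (.cons (.rf (nat_lit 1958) (nat_lit 493858305440582043680)) .nil)))) .nil))))) .nil))),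
 (.br (nat_lit 13) (nat_lit 0) (.cons (.rf (nat_lit 1955) (nat_lit 493858305440582043680)) (.cons (.rf (nat_lit 1959) (nat_lit 493858305440582043680)) (.cons (.br (nat_lit 13) (nat_lit 0) (.cons (.rf (nat_lit 1955) (nat_lit 493858305440582043680)) (.cons (.rf (nat_lit 1959) (nat_lit 493858305440582043680)) .nil))) .nil)))),
 (.br (nat_lit 13) (nat_lit 0) (.cons (.rf (nat_lit 1960) (nat_lit 493858305440582043680)) (.cons (.rf (nat_lit 1960) (nat_lit 493823368456464074784)) (.cons (.br (nat_lit 13) (nat_lit 0) (.cons (.rf (nat_lit 1960) (nat_lit 493858305440582043680)) (.cons (.rf (nat_lit 1960) (nat_lit 493823368456464074784)) .nil))) .nil)))),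
 (.br (nat_lit 4) (nat_lit 1) (.cons (.br (nat_lit 8) (nat_lit 1) (.cons (.br (nat_lit 13) (nat_lit 0) (.cons (.ev (nat_lit 4740813509522138071041) (nat_lit 1)) .nil)) .nil)) (.cons (.br (nat_lit 8) (nat_lit 1) (.cons (.br (nat_lit 13) (nat_lit 0) (.cons (.ev (nat_lit 4740813509522138071041) (nat_lit 1)) .nil)) (.cons (.br (nat_lit 12) (nat_lit 0) (.cons (.ev (nat_lit 4740813509522138071041) (nat_lit 1)) .nil)) .nil))) .nil))),
 (.br (nat_lit 8) (nat_lit 1) (.cons (.rf (nat_lit 1962) (nat_lit 493858305440582043680)) (.cons (.br (nat_lit 13) (nat_lit 0) (.cons (.br (nat_lit 2) (nat_lit 0) (.cons (.ev (nat_lit 4740813509522138071041) (nat_lit 1)) .nil)) (.cons (.kr (nat_lit 18446744073709551616) (nat_lit 20282409603651670423947251286016) (nat_lit 8) (nat_lit 0)) .nil))) .nil))),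
 (.br (nat_lit 2) (nat_lit 0) (.cons (.ev (nat_lit 309485009893403766569369601) (nat_lit 1)) (.cons (.br (nat_lit 13) (nat_lit 0) (.cons (.br (nat_lit 8) (nat_lit 1) (.cons (.ev (nat_lit 4740813509522138071041) (nat_lit 1)) .nil)) (.cons (.rf (nat_lit 1962) (nat_lit 458082801813651817536)) .nil))) .nil))),
 (.br (nat_lit 12) (nat_lit 0) (.cons (.rf (nat_lit 1964) (nat_lit 493858305440582043680)) (.cons (.br (nat_lit 13) (nat_lit 0) (.cons (.br (nat_lit 2) (nat_lit 0) (.cons (.ev (nat_lit 4740813509522138071041) (nat_lit 1)) .nil)) (.cons (.br (nat_lit 4) (nat_lit 1) (.cons (.ev (nat_lit 4740813509522138071041) (nat_lit 1)) .nil)) .nil))) .nil))),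
 (.br (nat_lit 9) (nat_lit 1) (.cons (.kr (nat_lit 256) (nat_lit 65536) (nat_lit 1) (nat_lit 0)) (.cons (.br (nat_lit 8) (nat_lit 1) (.cons (.rf (nat_lit 1962) (nat_lit 493858305440582043680)) (.cons (.rf (nat_lit 1963) (nat_lit 493858305440582043680)) (.cons (.br (nat_lit 8) (nat_lit 1) (.cons (.rf (nat_lit 1962) (nat_lit 493858305440582043680)) (.cons (.rf (nat_lit 1963) (nat_lit 493858305440582043680)) .nil))) .nil)))) (.cons (.br (nat_lit 12) (nat_lit 0) (.cons (.rf (nat_lit 1964) (nat_lit 493858305440582043680)) (.cons (.rf (nat_lit 1965) (nat_lit 493858305440582043680)) (.cons (.br (nat_lit 12) (nat_lit 0) (.cons (.rf (nat_lit 1964) (nat_lit 493858305440582043680)) (.cons (.rf (nat_lit 1965) (nat_lit 493858305440582043680)) .nil))) .nil)))) .nil)))),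
 (.br (nat_lit 2) (nat_lit 0) (.cons (.ev (nat_lit 4740813509522138071041) (nat_lit 1)) .nil)),
 (.br (nat_lit 8) (nat_lit 1) (.cons (.rf (nat_lit 1966) (nat_lit 458082801813651818528)) (.cons (.rf (nat_lit 1966) (nat_lit 458082801813651817536)) (.cons (.br (nat_lit 4) (nat_lit 1) (.cons (.rf (nat_lit 1967) (nat_lit 493858305440582043680)) (.cons (.rf (nat_lit 1967) (nat_lit 493858305440582042688)) .nil))) .nil)))),
 (.br (nat_lit 9) (nat_lit 1) (.cons (.rf (nat_lit 1966) (nat_lit 493858305440582043680)) (.cons (.rf (nat_lit 1966) (nat_lit 493858305440582042688)) (.cons (.br (nat_lit 8) (nat_lit 1) (.cons (.rf (nat_lit 1966) (nat_lit 458082801813651818528)) (.cons (.rf (nat_lit 1966) (nat_lit 458082801813651817536)) (.cons (.rf (nat_lit 1968) (nat_lit 493858305440582043680)) (.cons (.br (nat_lit 8) (nat_lit 1) (.cons (.rf (nat_lit 1963) (nat_lit 458082801813651818528)) (.cons (.rf (nat_lit 1963) (nat_lit 458082801813651817536)) (.cons (.rf (nat_lit 1968) (nat_lit 493858305440582043680))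 .nil)))) .nil))))) .nil)))),
 (.br (nat_lit 13) (nat_lit 0) (.cons (.br (nat_lit 9) (nat_lit 1) (.cons (.ev (nat_lit 4740813509522138071041) (nat_lit 1)) .nil)) (.cons (.br (nat_lit 12) (nat_lit 0) (.cons (.ev (nat_lit 4740813509522138071041) (nat_lit 1)) .nil)) .nil))),
 (.br (nat_lit 2) (nat_lit 0) (.cons (.ev (nat_lit 309485009893403766569369601) (nat_lit 1)) (.cons (.rf (nat_lit 1970) (nat_lit 493858305440582043680)) .nil))),
 (.br (nat_lit 12) (nat_lit 0) (.cons (.rf (nat_lit 1971) (nat_lit 493858305440582043680)) (.cons (.br (nat_lit 4) (nat_lit 1) (.cons (.br (nat_lit 9) (nat_lit 1) (.cons (.ev (nat_lit 4740813509522138071041) (nat_lit 1)) .nil)) (.cons (.ev (nat_lit 79228162532711082771076874241) (nat_lit 1)) .nil))) .nil))),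
 (.br (nat_lit 6) (nat_lit 1) (.cons (.kr (nat_lit 256) (nat_lit 65536) (nat_lit 1) (nat_lit 0)) (.cons (.br (nat_lit 4) (nat_lit 1) (.cons (.ev (nat_lit 309485009893685241562857473) (nat_lit 1)) (.cons (.br (nat_lit 2) (nat_lit 0) (.cons (.ev (nat_lit 309485009893403766569369601) (nat_lit 1)) (.cons (.br (nat_lit 9) (nat_lit 1) (.cons (.br (nat_lit 8) (nat_lit 1) (.cons (.ev (nat_lit 4740813509522138071041) (nat_lit 1)) .nil)) .nil)) .nil))) (.cons (.br (nat_lit 13) (nat_lit 0) (.cons (.ev (nat_lit 20282720297605830185317209997313) (nat_lit 1)) (.cons (.br (nat_lit 9) (nat_lit 1) (.cons (.ev (nat_lit 1208925891673327019294721) (nat_lit 1)) (.cons (.br (nat_lit 8) (nat_lit 1) (.cons (.ev (nat_lit 4740813509522138071041) (nat_lit 1)) .nil)) .nil))) .nil))) .nil)))) (.cons (.br (nat_lit 12) (nat_lit 0) (.cons (.rf (nat_lit 1971) (nat_lit 493858305440582043680)) (.cons (.rf (nat_lit 1972) (nat_lit 493858305440582043680)) (.cons (.br (nat_lit 12) (nat_lit 0) (.cons (.rf (nat_lit 1971) (nat_lit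 493858305440582043680)) (.cons (.rf (nat_lit 1972) (nat_lit 493858305440582043680)) .nil))) .nil)))) .nil))))]

theorem c66 : chkAll C T R L66 (nat_lit 1941) = true := by decide +kernel

theorem l66 : (nat_lit 1941) + L66.length = (nat_lit 1974) := by decide +kernel

/-- part of the certificates -/
def L67 : List Prf := [(.br (nat_lit 4) (nat_lit 1) (.cons (.ev (nat_lit 4740813509522138071041) (nat_lit 1)) (.cons (.zr (nat_lit 20520713061214178184467960562176) (nat_lit 14167100295232905805825) (nat_lit 5) (nat_lit 9)) .nil))),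
 (.br (nat_lit 6) (nat_lit 1) (.cons (.rf (nat_lit 1973) (nat_lit 493858305440582043680)) (.cons (.rf (nat_lit 1973) (nat_lit 493858305440582042688)) (.cons (.br (nat_lit 12) (nat_lit 0) (.cons (.br (nat_lit 1) (nat_lit 0) (.cons (.ev (nat_lit 309485009893403766569304321) (nat_lit 1)) (.cons (.br (nat_lit 9) (nat_lit 1) (.cons (.kr (nat_lit 256) (nat_lit 65536) (nat_lit 1) (nat_lit 0)) (.cons (.ev (nat_lit 20361947251175756106613814984961) (nat_lit 1)) .nil))) .nil))) (.cons (.br (nat_lit 13) (nat_lit 0) (.cons (.br (nat_lit 9) (nat_lit 1) (.cons (.ev (nat_lit 1208925891673327019229441) (nat_lit 1)) (.cons (.ev (nat_lit 1208925891673327019294721) (nat_lit 1)) .nil))) (.cons (.br (nat_lit 2) (nat_lit 0) (.cons (.br (nat_lit 1) (nat_lit 0) (.cons (.ev (nat_lit 4740813509522138071041) (nat_lit 1)) .nil)) (.cons (.br (nat_lit 1) (nat_lit 0) (.cons (.ev (nat_lit 4740813509522138071041) (nat_lit 1)) .nil)) .nil))) .nil))) (.cons (.br (nat_lit 13) (nat_lit 0) (.cons (.ev (nat_lit 20361948460101576003813199839233)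 (nat_lit 1)) (.cons (.br (nat_lit 1) (nat_lit 0) (.cons (.br (nat_lit 9) (nat_lit 1) (.cons (.ev (nat_lit 4740813509522138071041) (nat_lit 1)) .nil)) (.cons (.br (nat_lit 4) (nat_lit 1) (.cons (.ev (nat_lit 4740813509522138071041) (nat_lit 1)) .nil)) .nil))) (.cons (.br (nat_lit 8) (nat_lit 1) (.cons (.rf (nat_lit 1974) (nat_lit 493858305440582043680)) (.cons (.rf (nat_lit 1974) (nat_lit 493858305440582042688)) .nil))) .nil)))) .nil)))) .nil)))),
 (.br (nat_lit 4) (nat_lit 1) (.cons (.br (nat_lit 6) (nat_lit 1) (.cons (.br (nat_lit 6) (nat_lit 1) (.cons (.ev (nat_lit 310693935713298766930903041) (nat_lit 1)) .nil)) (.cons (.br (nat_lit 6) (nat_lit 1) (.cons (.ev (nat_lit 310693935713298766930903041) (nat_lit 1)) .nil)) .nil))) (.cons (.br (nat_lit 2) (nat_lit 0) (.cons (.br (nat_lit 6) (nat_lit 1) (.cons (.br (nat_lit 9) (nat_lit 1) (.cons (.br (nat_lit 8) (nat_lit 1) (.cons (.ev (nat_lit 4740813509522138071041) (nat_lit 1)) .nil)) .nil)) (.cons (.br (nat_lit 9) (nat_lit 1) (.cons (.br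 (nat_lit 13) (nat_lit 0) (.cons (.ev (nat_lit 4740813509522138071041) (nat_lit 1)) .nil)) (.cons (.br (nat_lit 8) (nat_lit 1) (.cons (.ev (nat_lit 4740813509522138071041) (nat_lit 1)) .nil)) .nil))) .nil))) (.cons (.kr (nat_lit 256) (nat_lit 65536) (nat_lit 1) (nat_lit 0)) (.cons (.ev (nat_lit 309485009893403766569369601) (nat_lit 1)) .nil)))) (.cons (.ev (nat_lit 1208925891673327019229441) (nat_lit 1)) .nil)))),
 (.br (nat_lit 6) (nat_lit 1) (.cons (.kr (nat_lit 256) (nat_lit 65536) (nat_lit 1) (nat_lit 0)) (.cons (.br (nat_lit 9) (nat_lit 1) (.cons (.ev (nat_lit 4740813509522138071041) (nat_lit 1)) .nil)) .nil))),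
 (.br (nat_lit 2) (nat_lit 0) (.cons (.br (nat_lit 12) (nat_lit 0) (.cons (.ev (nat_lit 4740813509522138071041) (nat_lit 1)) .nil)) .nil)),
 (.br (nat_lit 8) (nat_lit 1) (.cons (.rf (nat_lit 1976) (nat_lit 493858305440582043680)) (.cons (.rf (nat_lit 1976) (nat_lit 493858305440582042688)) (.cons (.br (nat_lit 13) (nat_lit 0) (.cons (.br (nat_lit 1) (nat_lit 0) (.cons (.rf (nat_lit 1977) (nat_lit 493858305440582043680)) (.cons (.br (nat_lit 2) (nat_lit 0) (.cons (.rf (nat_lit 1977) (nat_lit 493858305440582042688)) .nil)) .nil))) (.cons (.kr (nat_lit 18446744073709551616) (nat_lit 20282409603651670423947251286016) (nat_lit 8) (nat_lit 0)) (.cons (.br (nat_lit 1) (nat_lit 0) (.cons (.rf (nat_lit 1978) (nat_lit 493858305440582043680)) (.cons (.br (nat_lit 4) (nat_lit 1) (.cons (.rf (nat_lit 1978) (nat_lit 493858305440582042688)) (.cons (.ev (nat_lit 79537647542532426740273250561) (nat_lit 1)) .nil))) .nil))) .nil)))) .nil)))),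
 (.br (nat_lit 7) (nat_lit 0) (.cons (.br (nat_lit 9) (nat_lit 1) (.cons (.rf (nat_lit 1966) (nat_lit 493858305440582043680)) (.cons (.rf (nat_lit 1966) (nat_lit 493858305440582042688)) (.cons (.rf (nat_lit 1969) (nat_lit 493858305440582043680)) (.cons (.br (nat_lit 9) (nat_lit 1) (.cons (.rf (nat_lit 1966) (nat_lit 493858305440582043680)) (.cons (.rf (nat_lit 1966) (nat_lit 493858305440582042688)) (.cons (.rf (nat_lit 1969) (nat_lit 493858305440582043680)) .nil)))) .nil))))) (.cons (.br (nat_lit 6) (nat_lit 1) (.cons (.rf (nat_lit 1973) (nat_lit 493858305440582043680)) (.cons (.rf (nat_lit 1973) (nat_lit 493858305440582042688)) (.cons (.rf (nat_lit 1975) (nat_lit 493858305440582043680)) (.cons (.br (nat_lit 6) (nat_lit 1) (.cons (.rf (nat_lit 1973) (nat_lit 493858305440582043680)) (.cons (.rf (nat_lit 1973) (nat_lit 493858305440582042688)) (.cons (.rf (nat_lit 1975) (nat_lit 493858305440582043680)) .nil)))) .nil))))) (.cons (.br (nat_lit 8) (nat_lit 1) (.cons (.rf (nat_lit 1976) (nat_lit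 493858305440582043680)) (.cons (.rf (nat_lit 1976) (nat_lit 493858305440582042688)) (.cons (.rf (nat_lit 1979) (nat_lit 493858305440582043680)) (.cons (.br (nat_lit 8) (nat_lit 1) (.cons (.rf (nat_lit 1976) (nat_lit 493858305440582043680)) (.cons (.rf (nat_lit 1976) (nat_lit 493858305440582042688)) (.cons (.rf (nat_lit 1979) (nat_lit 493858305440582043680)) .nil)))) .nil))))) .nil)))),
 (.br (nat_lit 2) (nat_lit 0) (.cons (.ev (nat_lit 4740813509522138071041) (nat_lit 1)) .nil)),
 (.br (nat_lit 13) (nat_lit 0) (.cons (.br (nat_lit 12) (nat_lit 0) (.cons (.ev (nat_lit 20361948460101575722342518095873) (nat_lit 1)) (.cons (.rf (nat_lit 1981) (nat_lit 493858305440582043680)) .nil))) (.cons (.br (nat_lit 4) (nat_lit 1) (.cons (.br (nat_lit 8) (nat_lit 1) (.cons (.ev (nat_lit 4740813509522138071041) (nat_lit 1)) .nil)) (.cons (.br (nat_lit 2) (nat_lit 0) (.cons (.ev (nat_lit 4740813509522138071041) (nat_lit 1)) .nil)) .nil))) .nil))),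
 (.br (nat_lit 2) (nat_lit 0) (.cons (.kr (nat_lit 309485028268089142434398208) (nat_lit 20282409603651670425046779691008) (nat_lit 2) (nat_lit 0)) (.cons (.kr (nat_lit 256) (nat_lit 65536) (nat_lit 1) (nat_lit 0)) .nil))),
 (.br (nat_lit 4) (nat_lit 1) (.cons (.br (nat_lit 8) (nat_lit 1) (.cons (.ev (nat_lit 4740813509522138071041) (nat_lit 1)) .nil)) (.cons (.br (nat_lit 8) (nat_lit 1) (.cons (.ev (nat_lit 4740813509522138071041) (nat_lit 1)) .nil)) .nil))),
 (.br (nat_lit 12) (nat_lit 0) (.cons (.br (nat_lit 4) (nat_lit 1) (.cons (.br (nat_lit 13) (nat_lit 0) (.cons (.ev (nat_lit 4740813509522138071041) (nat_lit 1)) .nil)) (.cons (.ev (nat_lit 20361948460101575722342518095873) (nat_lit 1)) .nil))) (.cons (.rf (nat_lit 1984) (nat_lit 493858305440582043680)) .nil))),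
 (.br (nat_lit 6) (nat_lit 1) (.cons (.kr (nat_lit 256) (nat_lit 65536) (nat_lit 1) (nat_lit 0)) (.cons (.br (nat_lit 13) (nat_lit 0) (.cons (.rf (nat_lit 1982) (nat_lit 493858305440582043680)) (.cons (.br (nat_lit 13) (nat_lit 0) (.cons (.rf (nat_lit 1982) (nat_lit 493858305440582043680)) (.cons (.rf (nat_lit 1983) (nat_lit 493858305440582043680)) .nil))) (.cons (.br (nat_lit 13) (nat_lit 0) (.cons (.rf (nat_lit 1982) (nat_lit 493858305440582043680)) (.cons (.rf (nat_lit 1983) (nat_lit 493858305440582043680)) .nil))) .nil)))) (.cons (.br (nat_lit 12) (nat_lit 0) (.cons (.rf (nat_lit 1985) (nat_lit 493858305440582043680)) (.cons (.br (nat_lit 12) (nat_lit 0) (.cons (.rf (nat_lit 1985) (nat_lit 493858305440582043680)) (.cons (.kr (nat_lit 1213648186097498819920128) (nat_lit 79228162514264338693072355328) (nat_lit 1) (nat_lit 0)) .nil))) (.cons (.br (nat_lit 12) (nat_lit 0) (.cons (.rf (nat_lit 1984) (nat_lit 493858305440582043680)) (.cons (.kr (nat_lit 1213648186097498819920128) (nat_lit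 79228162514264338693072355328) (nat_lit 1) (nat_lit 0)) .nil))) .nil)))) .nil)))),
 (.br (nat_lit 9) (nat_lit 1) (.cons (.ev (nat_lit 4740813509522138071041) (nat_lit 1)) (.cons (.kr (nat_lit 79228162532711081671548469248) (nat_lit 20282409608374037188291873210368) (nat_lit 4) (nat_lit 0)) .nil))),
 (.br (nat_lit 4) (nat_lit 1) (.cons (.rf (nat_lit 1986) (nat_lit 458082801813651818528)) (.cons (.rf (nat_lit 1986) (nat_lit 458082801813651817536)) (.cons (.br (nat_lit 2) (nat_lit 0) (.cons (.rf (nat_lit 1987) (nat_lit 493858305440582043680)) (.cons (.rf (nat_lit 1987) (nat_lit 458082801813651818528)) .nil))) .nil)))),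
 (.br (nat_lit 6) (nat_lit 1) (.cons (.rf (nat_lit 1986) (nat_lit 493858305440582043680)) (.cons (.rf (nat_lit 1986) (nat_lit 493858305440582042688)) (.cons (.br (nat_lit 4) (nat_lit 1) (.cons (.rf (nat_lit 1986) (nat_lit 458082801813651818528)) (.cons (.rf (nat_lit 1986) (nat_lit 458082801813651817536)) (.cons (.rf (nat_lit 1988) (nat_lit 493858305440582043680)) (.cons (.br (nat_lit 4) (nat_lit 1) (.cons (.rf (nat_lit 1986) (nat_lit 458082801813651818528)) (.cons (.rf (nat_lit 1986) (nat_lit 458082801813651817536)) (.cons (.rf (nat_lit 1988) (nat_lit 493858305440582043680)) .nil)))) .nil))))) .nil)))),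
 (.br (nat_lit 7) (nat_lit 0) (.cons (.rf (nat_lit 1980) (nat_lit 493858305440582043680)) (.cons (.rf (nat_lit 1980) (nat_lit 458082801813651818528)) (.cons (.br (nat_lit 6) (nat_lit 1) (.cons (.rf (nat_lit 1986) (nat_lit 493858305440582043680)) (.cons (.rf (nat_lit 1986) (nat_lit 493858305440582042688)) (.cons (.rf (nat_lit 1989) (nat_lit 493858305440582043680)) (.cons (.br (nat_lit 6) (nat_lit 1) (.cons (.rf (nat_lit 1986) (nat_lit 493858305440582043680)) (.cons (.rf (nat_lit 1986) (nat_lit 493858305440582042688)) (.cons (.rf (nat_lit 1989) (nat_lit 493858305440582043680)) .nil)))) .nil))))) .nil)))),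
 (.br (nat_lit 10) (nat_lit 1) (.cons (.rf (nat_lit 1933) (nat_lit 372964484733569056)) (.cons (.rf (nat_lit 1933) (nat_lit 372964484733568064)) (.cons (.rf (nat_lit 1949) (nat_lit 372964484733569056)) (.cons (.br (nat_lit 13) (nat_lit 0) (.cons (.rf (nat_lit 1960) (nat_lit 493858305440582043680)) (.cons (.rf (nat_lit 1960) (nat_lit 493823368456464074784)) (.cons (.rf (nat_lit 1961) (nat_lit 493858305440582043680)) (.cons (.rf (nat_lit 1961) (nat_lit 493823368456464074784)) .nil))))) (.cons (.br (nat_lit 7) (nat_lit 0) (.cons (.rf (nat_lit 1980) (nat_lit 493858305440582043680)) (.cons (.rf (nat_lit 1980) (nat_lit 458082801813651818528)) (.cons (.rf (nat_lit 1990) (nat_lit 493858305440582043680)) (.cons (.rf (nat_lit 1990) (nat_lit 458082801813651818528)) .nil))))) .nil)))))),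
 (.br (nat_lit 12) (nat_lit 0) (.cons (.br (nat_lit 9) (nat_lit 1) (.cons (.ev (nat_lit 20361638975110273177842029232385) (nat_lit 1)) (.cons (.ev (nat_lit 1208944266359806707630081) (nat_lit 1)) .nil))) (.cons (.br (nat_lit 9) (nat_lit 1) (.cons (.br (nat_lit 8) (nat_lit 1) (.cons (.zr (nat_lit 9444949701471374409728) (nat_lit 310693954087703775904137217) (nat_lit 5) (nat_lit 4)) .nil)) (.cons (.ev (nat_lit 20282720302309677867618619359233) (nat_lit 1)) .nil))) .nil))),
 (.br (nat_lit 1) (nat_lit 0) (.cons (.rf (nat_lit 1992) (nat_lit 493858305440582042688)) (.cons (.br (nat_lit 12) (nat_lit 0) (.cons (.br (nat_lit 5) (nat_lit 0) (.cons (.ev (nat_lit 310708158297379571501236738) (nat_lit 2)) .nil)) (.cons (.ev (nat_lit 79538861190718524234814980353) (nat_lit 1)) .nil))) .nil))),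
 (.br (nat_lit 12) (nat_lit 0) (.cons (.rf (nat_lit 1886) (nat_lit 14308296834457633856)) (.cons (.br (nat_lit 1) (nat_lit 0) (.cons (.rf (nat_lit 1915) (nat_lit 457864379437190054976)) (.cons (.ev (nat_lit 1213648258436572129525761) (nat_lit 1)) .nil))) .nil))),
 (.br (nat_lit 1) (nat_lit 0) (.cons (.rf (nat_lit 1994) (nat_lit 493858305440582042688)) (.cons (.br (nat_lit 9) (nat_lit 1) (.cons (.br (nat_lit 12) (nat_lit 0) (.cons (.ev (nat_lit 310708158297661042182914818) (nat_lit 2)) .nil)) (.cons (.ev (nat_lit 79538861190718524234814980353) (nat_lit 1)) .nil))) .nil))),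
 (.br (nat_lit 12) (nat_lit 0) (.cons (.br (nat_lit 5) (nat_lit 0) (.cons (.br (nat_lit 2) (nat_lit 0) (.cons (.ev (nat_lit 79228167255077846016187171073) (nat_lit 1)) .nil)) .nil)) (.cons (.kr (nat_lit 309485028268089142434332928) (nat_lit 79228162514336395187598655488) (nat_lit 1) (nat_lit 0)) .nil))),
 (.br (nat_lit 2) (nat_lit 0) (.cons (.rf (nat_lit 1996) (nat_lit 493858305440582042688)) (.cons (.br (nat_lit 12) (nat_lit 0) (.cons (.ev (nat_lit 20282720297587311383649445740801) (nat_lit 1)) (.cons (.br (nat_lit 4) (nat_lit 1) (.cons (.ev (nat_lit 309489732260167011679666433) (nat_lit 1)) .nil)) .nil))) .nil))),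
 (.br (nat_lit 8) (nat_lit 1) (.cons (.br (nat_lit 12) (nat_lit 0) (.cons (.ev (nat_lit 310708158297379571501236738) (nat_lit 2)) .nil)) (.cons (.br (nat_lit 6) (nat_lit 1) (.cons (.zr (nat_lit 36893491445953987328) (nat_lit 310698658007724046833156097) (nat_lit 5) (nat_lit 0)) .nil)) .nil))),
 (.br (nat_lit 9) (nat_lit 1) (.cons (.ev (nat_lit 20282409608392555991063444127745) (nat_lit 1)) (.cons (.ev (nat_lit 79537652246524505700440211713) (nat_lit 1)) .nil))),
 (.br (nat_lit 8) (nat_lit 1) (.cons (.ev (nat_lit 79228167255077846016187171073) (nat_lit 1)) .nil)),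
 (.br (nat_lit 7) (nat_lit 0) (.cons (.br (nat_lit 2) (nat_lit 0) (.cons (.rf (nat_lit 1992) (nat_lit 493858305440582043680)) (.cons (.rf (nat_lit 1993) (nat_lit 493858305440582043680)) (.cons (.br (nat_lit 1) (nat_lit 0) (.cons (.rf (nat_lit 1992) (nat_lit 493858305440582042688)) (.cons (.rf (nat_lit 1993) (nat_lit 493858305440582042688)) (.cons (.kr (nat_lit 256) (nat_lit 65536) (nat_lit 1) (nat_lit 0)) .nil)))) .nil)))) (.cons (.br (nat_lit 2) (nat_lit 0) (.cons (.rf (nat_lit 1994) (nat_lit 493858305440582043680)) (.cons (.rf (nat_lit 1995) (nat_lit 493858305440582043680)) (.cons (.br (nat_lit 1) (nat_lit 0) (.cons (.rf (nat_lit 1994) (nat_lit 493858305440582042688)) (.cons (.rf (nat_lit 1995) (nat_lit 493858305440582042688)) (.cons (.kr (nat_lit 256) (nat_lit 65536) (nat_lit 1) (nat_lit 0)) .nil)))) .nil)))) (.cons (.br (nat_lit 1) (nat_lit 0) (.cons (.rf (nat_lit 1996) (nat_lit 493858305440582043680)) (.cons (.rf (nat_lit 1997) (nat_lit 493858305440582043680)) (.cons (.br (nat_lit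 2) (nat_lit 0) (.cons (.rf (nat_lit 1996) (nat_lit 493858305440582042688)) (.cons (.rf (nat_lit 1997) (nat_lit 493858305440582042688)) (.cons (.kr (nat_lit 256) (nat_lit 65536) (nat_lit 1) (nat_lit 0)) .nil)))) .nil)))) (.cons (.br (nat_lit 5) (nat_lit 0) (.cons (.br (nat_lit 9) (nat_lit 1) (.cons (.rf (nat_lit 1998) (nat_lit 493858305440582043680)) (.cons (.rf (nat_lit 1998) (nat_lit 493858305440582042688)) (.cons (.br (nat_lit 1) (nat_lit 0) (.cons (.br (nat_lit 2) (nat_lit 0) (.cons (.ev (nat_lit 310703435931174873952485890) (nat_lit 2)) .nil)) (.cons (.br (nat_lit 2) (nat_lit 0) (.cons (.ev (nat_lit 310703435931174873952551170) (nat_lit 2)) .nil)) .nil))) .nil)))) (.cons (.br (nat_lit 12) (nat_lit 0) (.cons (.br (nat_lit 2) (nat_lit 0) (.cons (.br (nat_lit 1) (nat_lit 0) (.cons (.ev (nat_lit 310708158297661042182914818) (nat_lit 2)) .nil)) (.cons (.br (nat_lit 8) (nat_lit 1) (.cons (.ev (nat_lit 310708158297661042183045378) (nat_lit 2)) .nil)) .nil))) (.cons (.ev (nat_lit 20361947251194275189752260984833)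 (nat_lit 1)) (.cons (.ev (nat_lit 79538861172344119230120067073) (nat_lit 1)) .nil)))) (.cons (.br (nat_lit 12) (nat_lit 0) (.cons (.ev (nat_lit 309485028268090246257704961) (nat_lit 1)) (.cons (.br (nat_lit 4) (nat_lit 1) (.cons (.rf (nat_lit 1999) (nat_lit 493858305440582043680)) (.cons (.rf (nat_lit 1999) (nat_lit 493858305440582042688)) .nil))) (.cons (.br (nat_lit 2) (nat_lit 0) (.cons (.br (nat_lit 1) (nat_lit 0) (.cons (.zr (nat_lit 9481626453886726504448) (nat_lit 310693935641241177171165697) (nat_lit 5) (nat_lit 4)) .nil)) (.cons (.br (nat_lit 1) (nat_lit 0) (.cons (.zr (nat_lit 9481626453886726308608) (nat_lit 310693935641241177171296257) (nat_lit 5) (nat_lit 4)) .nil)) .nil))) .nil)))) (.cons (.br (nat_lit 12) (nat_lit 0) (.cons (.ev (nat_lit 20282720302309677867618619359233) (nat_lit 1)) (.cons (.br (nat_lit 4) (nat_lit 1) (.cons (.rf (nat_lit 2000) (nat_lit 493858305440582043680)) (.cons (.rf (nat_lit 2000) (nat_lit 493858305440582042688)) .nil))) (.cons (.rf (nat_lit 1896)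 (nat_lit 15431733762033226976)) .nil)))) .nil))))) .nil)))))]

theorem c67 : chkAll C T R L67 (nat_lit 1974) = true := by decide +kernel

theorem l67 : (nat_lit 1974) + L67.length = (nat_lit 2002) := by decide +kernel

/-- part of the certificates -/
def L68 : List Prf := [(.br (nat_lit 13) (nat_lit 0) (.cons (.rf (nat_lit 2001) (nat_lit 493858305440582043680)) (.cons (.rf (nat_lit 2001) (nat_lit 493823368387811706912)) .nil))),
 (.br (nat_lit 5) (nat_lit 0) (.cons (.br (nat_lit 7) (nat_lit 0) (.cons (.rf (nat_lit 1933) (nat_lit 406806180120435872)) (.cons (.br (nat_lit 6) (nat_lit 1) (.cons (.zr (nat_lit 20282409603651742482640800973312) (nat_lit 1208925819896108479938561) (nat_lit 5) (nat_lit 0)) (.cons (.br (nat_lit 9) (nat_lit 1) (.cons (.ev (nat_lit 79228167255077846016187171073) (nat_lit 1)) .nil)) .nil))) (.cons (.br (nat_lit 2) (nat_lit 0) (.cons (.br (nat_lit 12) (nat_lit 0) (.cons (.ev (nat_lit 309485028268371721217704193) (nat_lit 1)) .nil)) (.cons (.br (nat_lit 6) (nat_lit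 1) (.cons (.ev (nat_lit 79228167255077846016187171073) (nat_lit 1)) .nil)) .nil))) .nil)))) (.cons (.br (nat_lit 7) (nat_lit 0) (.cons (.br (nat_lit 6) (nat_lit 1) (.cons (.br (nat_lit 12) (nat_lit 0) (.cons (.ev (nat_lit 1213648258436572129525761) (nat_lit 1)) .nil)) (.cons (.ev (nat_lit 20361947251175756388084496728321) (nat_lit 1)) .nil))) (.cons (.br (nat_lit 12) (nat_lit 0) (.cons (.br (nat_lit 6) (nat_lit 1) (.cons (.ev (nat_lit 79228167255077846016187171073) (nat_lit 1)) .nil)) .nil)) .nil))) (.cons (.br (nat_lit 12) (nat_lit 0) (.cons (.br (nat_lit 6) (nat_lit 1) (.cons (.br (nat_lit 7) (nat_lit 0) (.cons (.ev (nat_lit 79228167255077846016187171073) (nat_lit 1)) .nil)) (.cons (.ev (nat_lit 79538861172344119230120067073) (nat_lit 1)) .nil))) (.cons (.br (nat_lit 6) (nat_lit 1) (.cons (.kr (nat_lit 1213648186097498819985408) (nat_lit 79228162514264338693072355328) (nat_lit 2) (nat_lit 0)) (.cons (.kr (nat_lit 1213685079585646239023360) (nat_lit 20440865928680271156728393891840)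 (nat_lit 1) (nat_lit 0)) .nil))) .nil))) .nil)))),
 (.br (nat_lit 2) (nat_lit 0) (.cons (.rf (nat_lit 2003) (nat_lit 493858305440582042688)) (.cons (.kr (nat_lit 256) (nat_lit 65536) (nat_lit 1) (nat_lit 0)) (.cons (.br (nat_lit 12) (nat_lit 0) (.cons (.br (nat_lit 7) (nat_lit 0) (.cons (.br (nat_lit 9) (nat_lit 1) (.cons (.ev (nat_lit 79228167255077846016187171073) (nat_lit 1)) .nil)) (.cons (.br (nat_lit 5) (nat_lit 0) (.cons (.ev (nat_lit 79228167255077846016187171073) (nat_lit 1)) .nil)) .nil))) (.cons (.br (nat_lit 5) (nat_lit 0) (.cons (.ev (nat_lit 309485028268371721217638401) (nat_lit 1)) (.cons (.kr (nat_lit 1213648186097498819920384) (nat_lit 79228162514264338693072420864) (nat_lit 1) (nat_lit 0)) .nil))) (.cons (.br (nat_lit 4) (nat_lit 1) (.cons (.rf (nat_lit 1886) (nat_lit 14312836784472556608)) (.cons (.ev (nat_lit 1213648258155097169658113) (nat_lit 1)) .nil))) .nil)))) (.cons (.br (nat_lit 4) (nat_lit 1) (.cons (.br (nat_lit 6) (nat_lit 1) (.cons (.rf (nat_lit 1807) (nat_lit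 493671371907908339744)) (.cons (.ev (nat_lit 20361947255898122872057948536833) (nat_lit 1)) .nil))) (.cons (.br (nat_lit 12) (nat_lit 0) (.cons (.br (nat_lit 8) (nat_lit 1) (.cons (.zr (nat_lit 9444949701471374409728) (nat_lit 310693954087703775904006657) (nat_lit 5) (nat_lit 4)) .nil)) (.cons (.ev (nat_lit 20361638975110273177842029166593) (nat_lit 1)) .nil))) (.cons (.ev (nat_lit 20282720297587311383649445806081) (nat_lit 1)) .nil)))) .nil))))),
 (.br (nat_lit 2) (nat_lit 0) (.cons (.rf (nat_lit 2003) (nat_lit 493858305440582042688)) (.cons (.rf (nat_lit 2004) (nat_lit 493858305440582042688)) (.cons (.br (nat_lit 12) (nat_lit 0) (.cons (.ev (nat_lit 20282720297587311383649445806081) (nat_lit 1)) (.cons (.br (nat_lit 6) (nat_lit 1) (.cons (.br (nat_lit 7) (nat_lit 0) (.cons (.ev (nat_lit 20999181778991737119490003503368) (nat_lit 4)) .nil)) (.cons (.br (nat_lit 4) (nat_lit 1) (.cons (.ev (nat_lit 20996715570319723275973602377992) (nat_lit 4)) .nil)) .nil))) .nil))) .nil)))),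
 (.br (nat_lit 13) (nat_lit 0) (.cons (.rf (nat_lit 2002) (nat_lit 493858305440582043680)) (.cons (.br (nat_lit 1) (nat_lit 0) (.cons (.rf (nat_lit 2003) (nat_lit 493858305440582043680)) (.cons (.rf (nat_lit 2004) (nat_lit 493858305440582043680)) (.cons (.rf (nat_lit 2005) (nat_lit 493858305440582043680)) (.cons (.br (nat_lit 2) (nat_lit 0) (.cons (.rf (nat_lit 2003) (nat_lit 493858305440582042688)) (.cons (.rf (nat_lit 2004) (nat_lit 493858305440582042688)) (.cons (.rf (nat_lit 2005) (nat_lit 493858305440582042688)) .nil)))) .nil))))) .nil))),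
 (.br (nat_lit 13) (nat_lit 0) (.cons (.rf (nat_lit 2002) (nat_lit 493858305440582043680)) (.cons (.rf (nat_lit 2006) (nat_lit 493858305440582043680)) (.cons (.br (nat_lit 13) (nat_lit 0) (.cons (.rf (nat_lit 2002) (nat_lit 493858305440582043680)) (.cons (.rf (nat_lit 2006) (nat_lit 493858305440582043680)) .nil))) .nil)))),
 (.br (nat_lit 13) (nat_lit 0) (.cons (.rf (nat_lit 2007) (nat_lit 493858305440582043680)) (.cons (.rf (nat_lit 2007) (nat_lit 493823368387811706912)) (.cons (.br (nat_lit 13) (nat_lit 0) (.cons (.rf (nat_lit 2007) (nat_lit 493858305440582043680)) (.cons (.rf (nat_lit 2007) (nat_lit 493823368387811706912)) .nil))) .nil)))),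
 (.br (nat_lit 2) (nat_lit 0) (.cons (.br (nat_lit 1) (nat_lit 0) (.cons (.kr (nat_lit 256) (nat_lit 65536) (nat_lit 1) (nat_lit 0)) .nil)) .nil)),
 (.br (nat_lit 12) (nat_lit 0) (.cons (.br (nat_lit 7) (nat_lit 0) (.cons (.rf (nat_lit 2009) (nat_lit 15433070910038444064)) (.cons (.ev (nat_lit 79537647524158021731300147201) (nat_lit 1)) .nil))) (.cons (.br (nat_lit 7) (nat_lit 0) (.cons (.ev (nat_lit 79537647524158021731300147201) (nat_lit 1)) (.cons (.rf (nat_lit 2009) (nat_lit 15433072009550071840)) .nil))) .nil))),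
 (.br (nat_lit 8) (nat_lit 1) (.cons (.br (nat_lit 9) (nat_lit 1) (.cons (.zr (nat_lit 36893491454560698368) (nat_lit 310698658007724042521412097) (nat_lit 5) (nat_lit 6)) .nil)) (.cons (.br (nat_lit 9) (nat_lit 1) (.cons (.ev (nat_lit 20678555261371220840359230113028) (nat_lit 3)) .nil)) .nil))),
 (.br (nat_lit 12) (nat_lit 0) (.cons (.rf (nat_lit 2010) (nat_lit 493858305440582043680)) (.cons (.br (nat_lit 4) (nat_lit 1) (.cons (.rf (nat_lit 2011) (nat_lit 493858305440582043680)) (.cons (.rf (nat_lit 2011) (nat_lit 493858305440582042688)) (.cons (.ev (nat_lit 79537647524158021731300147201) (nat_lit 1)) .nil)))) .nil))),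
 (.br (nat_lit 2) (nat_lit 0) (.cons (.br (nat_lit 8) (nat_lit 1) (.cons (.ev (nat_lit 79229371458530977775716663553) (nat_lit 1)) .nil)) (.cons (.br (nat_lit 12) (nat_lit 0) (.cons (.ev (nat_lit 20678555280297435577457643553540) (nat_lit 3)) .nil)) .nil))),
 (.br (nat_lit 9) (nat_lit 1) (.cons (.rf (nat_lit 1956) (nat_lit 493751377938002053152)) (.cons (.rf (nat_lit 1956) (nat_lit 493751377938002052160)) (.cons (.br (nat_lit 6) (nat_lit 1) (.cons (.rf (nat_lit 2013) (nat_lit 493858305440582043680)) (.cons (.rf (nat_lit 2013) (nat_lit 493858305440582042688)) (.cons (.ev (nat_lit 1213648258436567851335681) (nat_lit 1)) .nil)))) .nil)))),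
 (.br (nat_lit 6) (nat_lit 1) (.cons (.br (nat_lit 9) (nat_lit 1) (.cons (.ev (nat_lit 79229376162522775265201881345) (nat_lit 1)) .nil)) (.cons (.br (nat_lit 2) (nat_lit 0) (.cons (.ev (nat_lit 20678555261482045419989462614788) (nat_lit 3)) .nil)) .nil))),
 (.br (nat_lit 8) (nat_lit 1) (.cons (.rf (nat_lit 1956) (nat_lit 493787406733947275296)) (.cons (.rf (nat_lit 1956) (nat_lit 493787406733947274304)) (.cons (.br (nat_lit 4) (nat_lit 1) (.cons (.rf (nat_lit 2015) (nat_lit 493858305440582043680)) (.cons (.rf (nat_lit 2015) (nat_lit 493858305440582042688)) (.cons (.ev (nat_lit 1208944266359806707630081) (nat_lit 1)) .nil)))) .nil)))),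
 (.br (nat_lit 5) (nat_lit 0) (.cons (.ev (nat_lit 20282719088661491770119799439361) (nat_lit 1)) (.cons (.br (nat_lit 12) (nat_lit 0) (.cons (.rf (nat_lit 2010) (nat_lit 493858305440582043680)) (.cons (.rf (nat_lit 2012) (nat_lit 493858305440582043680)) (.cons (.br (nat_lit 12) (nat_lit 0) (.cons (.rf (nat_lit 2010) (nat_lit 493858305440582043680)) (.cons (.rf (nat_lit 2012) (nat_lit 493858305440582043680)) .nil))) .nil)))) (.cons (.br (nat_lit 9) (nat_lit 1) (.cons (.rf (nat_lit 1956) (nat_lit 493751377938002053152)) (.cons (.rf (nat_lit 1956) (nat_lit 493751377938002052160)) (.cons (.rf (nat_lit 2014) (nat_lit 493858305440582043680)) (.cons (.br (nat_lit 9) (nat_lit 1) (.cons (.rf (nat_lit 1956) (nat_lit 493751377938002053152)) (.cons (.rf (nat_lit 1956) (nat_lit 493751377938002052160)) (.cons (.rf (nat_lit 2014) (nat_lit 493858305440582043680)) .nil)))) .nil))))) (.cons (.br (nat_lit 8) (nat_lit 1) (.cons (.rf (nat_lit 1956) (nat_lit 493787406733947275296)) (.cons (.rf (nat_lit 1956)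 (nat_lit 493787406733947274304)) (.cons (.rf (nat_lit 2016) (nat_lit 493858305440582043680)) (.cons (.br (nat_lit 8) (nat_lit 1) (.cons (.rf (nat_lit 1956) (nat_lit 493787406733947275296)) (.cons (.rf (nat_lit 1956) (nat_lit 493787406733947274304)) (.cons (.rf (nat_lit 2016) (nat_lit 493858305440582043680)) .nil)))) .nil))))) .nil))))),
 (.br (nat_lit 8) (nat_lit 1) (.cons (.ev (nat_lit 20678555280297435577457643553540) (nat_lit 3)) .nil)),
 (.br (nat_lit 9) (nat_lit 1) (.cons (.rf (nat_lit 1956) (nat_lit 493679322542987380768)) (.cons (.rf (nat_lit 1956) (nat_lit 493679322542987379776)) (.cons (.br (nat_lit 6) (nat_lit 1) (.cons (.rf (nat_lit 2018) (nat_lit 493858305440582043680)) (.cons (.rf (nat_lit 2018) (nat_lit 493858305440582042688)) .nil))) .nil)))),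
 (.br (nat_lit 5) (nat_lit 0) (.cons (.br (nat_lit 9) (nat_lit 1) (.cons (.rf (nat_lit 1956) (nat_lit 493679322542987380768)) (.cons (.rf (nat_lit 1956) (nat_lit 493679322542987379776)) (.cons (.rf (nat_lit 2019) (nat_lit 493858305440582043680)) (.cons (.br (nat_lit 9) (nat_lit 1) (.cons (.rf (nat_lit 1956) (nat_lit 493679322542987380768)) (.cons (.rf (nat_lit 1956) (nat_lit 493679322542987379776)) (.cons (.rf (nat_lit 2019) (nat_lit 493858305440582043680)) .nil)))) .nil))))) (.cons (.ev (nat_lit 309485028268090246257704961) (nat_lit 1)) (.cons (.br (nat_lit 6) (nat_lit 1) (.cons (.rf (nat_lit 1956) (nat_lit 493787408930823047200)) (.cons (.rf (nat_lit 1956) (nat_lit 493787408930823046208)) (.cons (.br (nat_lit 6) (nat_lit 1) (.cons (.rf (nat_lit 1956) (nat_lit 493787408930823047200)) (.cons (.rf (nat_lit 1956) (nat_lit 493787408930823046208)) (.cons (.ev (nat_lit 79229371440156291291750072321) (nat_lit 1)) .nil)))) (.cons (.rf (nat_lit 2017) (nat_lit 458082801744999450656)) .nil)))))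 .nil)))),
 (.br (nat_lit 7) (nat_lit 0) (.cons (.rf (nat_lit 1886) (nat_lit 13119205798563644480)) (.cons (.rf (nat_lit 1956) (nat_lit 420142295953449256000)) .nil))),
 (.br (nat_lit 1) (nat_lit 0) (.cons (.kr (nat_lit 18446744073709551872) (nat_lit 79228162514264337593544015872) (nat_lit 1) (nat_lit 0)) (.cons (.br (nat_lit 7) (nat_lit 0) (.cons (.rf (nat_lit 1956) (nat_lit 419992551275502864416)) (.cons (.rf (nat_lit 1753) (nat_lit 455882651492180658208)) .nil))) .nil))),
 (.br (nat_lit 2) (nat_lit 0) (.cons (.rf (nat_lit 2021) (nat_lit 14242959524133701664)) (.cons (.rf (nat_lit 2022) (nat_lit 14242959524133701664)) (.cons (.br (nat_lit 1) (nat_lit 0) (.cons (.rf (nat_lit 2021) (nat_lit 14242959524133700672)) (.cons (.rf (nat_lit 2022) (nat_lit 14242959524133700672)) (.cons (.kr (nat_lit 256) (nat_lit 65536) (nat_lit 1) (nat_lit 0)) .nil)))) .nil)))),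
 (.br (nat_lit 4) (nat_lit 1) (.cons (.br (nat_lit 6) (nat_lit 1) (.cons (.ev (nat_lit 79229371458530977775716663553) (nat_lit 1)) (.cons (.ev (nat_lit 20361947251175756388084496793601) (nat_lit 1)) .nil))) (.cons (.br (nat_lit 7) (nat_lit 0) (.cons (.br (nat_lit 9) (nat_lit 1) (.cons (.ev (nat_lit 20678560144520104334175169481992) (nat_lit 4)) .nil)) (.cons (.ev (nat_lit 1208925891673327019229441) (nat_lit 1)) .nil))) (.cons (.rf (nat_lit 1956) (nat_lit 458075026003062786080)) .nil)))),
 (.br (nat_lit 6) (nat_lit 1) (.cons (.zr (nat_lit 9481626453886726504448) (nat_lit 310693935641241177171165697) (nat_lit 5) (nat_lit 4)) .nil)),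
 (.br (nat_lit 12) (nat_lit 0) (.cons (.rf (nat_lit 2017) (nat_lit 458082801744999450656)) (.cons (.rf (nat_lit 2023) (nat_lit 15433070910038444064)) (.cons (.br (nat_lit 8) (nat_lit 1) (.cons (.rf (nat_lit 2024) (nat_lit 493858305440582043680)) (.cons (.rf (nat_lit 2024) (nat_lit 493858305440582042688)) (.cons (.br (nat_lit 9) (nat_lit 1) (.cons (.rf (nat_lit 2024) (nat_lit 458082801744999450656)) (.cons (.rf (nat_lit 2024) (nat_lit 458082801744999449664)) (.cons (.br (nat_lit 2) (nat_lit 0) (.cons (.rf (nat_lit 2025) (nat_lit 493858305440582043680)) (.cons (.rf (nat_lit 2025) (nat_lit 458082801744999450656)) .nil))) .nil)))) (.cons (.br (nat_lit 9) (nat_lit 1) (.cons (.rf (nat_lit 2024) (nat_lit 458082801744999450656)) (.cons (.rf (nat_lit 2024) (nat_lit 458082801744999449664)) (.cons (.rf (nat_lit 1950) (nat_lit 15433037922546321440)) .nil)))) .nil))))) .nil)))),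
 (.br (nat_lit 2) (nat_lit 0) (.cons (.kr (nat_lit 18446744073709551872) (nat_lit 79228162514264337593544015872) (nat_lit 1) (nat_lit 0)) (.cons (.rf (nat_lit 1956) (nat_lit 455631751810977465408)) .nil))),
 (.br (nat_lit 6) (nat_lit 1) (.cons (.kr (nat_lit 18446744073709551872) (nat_lit 20282409603651670423947251351552) (nat_lit 1) (nat_lit 0)) (.cons (.rf (nat_lit 2027) (nat_lit 15433070910038444064)) (.cons (.rf (nat_lit 1956) (nat_lit 457937666210135115808)) .nil)))),
 (.br (nat_lit 4) (nat_lit 1) (.cons (.kr (nat_lit 20282409603651670423947251286272) (nat_lit 18446744073709617152) (nat_lit 1) (nat_lit 0)) (.cons (.br (nat_lit 6) (nat_lit 1) (.cons (.kr (nat_lit 256) (nat_lit 65536) (nat_lit 1) (nat_lit 0)) (.cons (.rf (nat_lit 1800) (nat_lit 15427230240994330656)) .nil))) (.cons (.rf (nat_lit 1956) (nat_lit 458075026000917399584)) .nil)))),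
 (.br (nat_lit 12) (nat_lit 0) (.cons (.rf (nat_lit 2020) (nat_lit 493858305440582043680)) (.cons (.rf (nat_lit 2023) (nat_lit 15433070910038444064)) (.cons (.br (nat_lit 1) (nat_lit 0) (.cons (.rf (nat_lit 2028) (nat_lit 493858305440582043680)) (.cons (.rf (nat_lit 2029) (nat_lit 493858305440582043680)) (.cons (.br (nat_lit 2) (nat_lit 0) (.cons (.rf (nat_lit 2028) (nat_lit 493858305440582042688)) (.cons (.rf (nat_lit 2029) (nat_lit 493858305440582042688)) .nil))) .nil)))) .nil)))),
 (.br (nat_lit 6) (nat_lit 1) (.cons (.rf (nat_lit 1956) (nat_lit 458045751503823669280)) (.cons (.rf (nat_lit 1956) (nat_lit 458045751503823668288)) (.cons (.ev (nat_lit 79537647524158021731300147201) (nat_lit 1)) .nil)))),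
 (.br (nat_lit 12) (nat_lit 0) (.cons (.rf (nat_lit 2017) (nat_lit 458082801744999450656)) (.cons (.br (nat_lit 7) (nat_lit 0) (.cons (.br (nat_lit 9) (nat_lit 1) (.cons (.rf (nat_lit 1956) (nat_lit 457937665115988002848)) (.cons (.rf (nat_lit 1956) (nat_lit 457937665115988001856)) (.cons (.br (nat_lit 1) (nat_lit 0) (.cons (.br (nat_lit 2) (nat_lit 0) (.cons (.ev (nat_lit 20679788384633442499215843853060) (nat_lit 3)) .nil)) (.cons (.br (nat_lit 2) (nat_lit 0) (.cons (.ev (nat_lit 20679788384633442499215843591940) (nat_lit 3)) .nil)) .nil))) .nil)))) (.cons (.ev (nat_lit 20361638975110273177842029166593) (nat_lit 1)) (.cons (.br (nat_lit 6) (nat_lit 1) (.cons (.rf (nat_lit 1956) (nat_lit 458080654400935790624)) (.cons (.rf (nat_lit 1956) (nat_lit 458080654400935789632)) (.cons (.rf (nat_lit 2031) (nat_lit 493858305440582043680)) .nil)))) .nil)))) (.cons (.kr (nat_lit 4722366482869645213696) (nat_lit 79228162514264337593543950336) (nat_lit 9) (nat_lit 0)) .nil))))]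

theorem c68 : chkAll C T R L68 (nat_lit 2002) = true := by decide +kernel

theorem l68 : (nat_lit 2002) + L68.length = (nat_lit 2033) := by decide +kernel

/-- part of the certificates -/
def L69 : List Prf := [(.br (nat_lit 7) (nat_lit 0) (.cons (.ev (nat_lit 20361947251175756388084496728321) (nat_lit 1)) (.cons (.br (nat_lit 5) (nat_lit 0) (.cons (.br (nat_lit 9) (nat_lit 1) (.cons (.ev (nat_lit 79229376162522775265201881345) (nat_lit 1)) .nil)) (.cons (.br (nat_lit 6) (nat_lit 1) (.cons (.zr (nat_lit 9481626453886726308608) (nat_lit 310693935641241177171296257) (nat_lit 5) (nat_lit 4)) .nil)) .nil))) (.cons (.rf (nat_lit 1956) (nat_lit 458080654398790404128)) .nil)))),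
 (.br (nat_lit 8) (nat_lit 1) (.cons (.ev (nat_lit 20678560144520104334175169481992) (nat_lit 4)) .nil)),
 (.br (nat_lit 12) (nat_lit 0) (.cons (.rf (nat_lit 2017) (nat_lit 458082801744999450656)) (.cons (.br (nat_lit 4) (nat_lit 1) (.cons (.rf (nat_lit 2033) (nat_lit 493858305440582043680)) (.cons (.rf (nat_lit 2033) (nat_lit 493858305440582042688)) (.cons (.br (nat_lit 6) (nat_lit 1) (.cons (.ev (nat_lit 20361638975091754376174264910081) (nat_lit 1)) (.cons (.ev (nat_lit 20361638975091754376174264975361) (nat_lit 1)) (.cons (.br (nat_lit 9) (nat_lit 1) (.cons (.rf (nat_lit 2034) (nat_lit 493858305440582043680)) (.cons (.rf (nat_lit 2034) (nat_lit 493858305440582042688)) .nil))) .nil)))) (.cons (.br (nat_lit 6) (nat_lit 1) (.cons (.rf (nat_lit 2033) (nat_lit 458082801744999450656)) (.cons (.rf (nat_lit 2033) (nat_lit 458082801744999449664)) (.cons (.rf (nat_lit 1950) (nat_lit 15432932374794569760)) .nil)))) .nil))))) (.cons (.rf (nat_lit 2023) (nat_lit 14315088515629680672)) .nil)))),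
 (.br (nat_lit 10) (nat_lit 0) (.cons (.kr (nat_lit 72057594037927936) (nat_lit 1208925819614629174706176) (nat_lit 7) (nat_lit 0)) (.cons (.rf (nat_lit 2023) (nat_lit 11934863544769677344)) .nil))),
 (.br (nat_lit 13) (nat_lit 0) (.cons (.rf (nat_lit 2017) (nat_lit 493858305440582043680)) (.cons (.br (nat_lit 12) (nat_lit 0) (.cons (.rf (nat_lit 2020) (nat_lit 493858305440582043680)) (.cons (.rf (nat_lit 2026) (nat_lit 493858305440582043680)) (.cons (.rf (nat_lit 2030) (nat_lit 493858305440582043680)) (.cons (.br (nat_lit 12) (nat_lit 0) (.cons (.rf (nat_lit 2020) (nat_lit 493858305440582043680)) (.cons (.rf (nat_lit 2026) (nat_lit 493858305440582043680)) (.cons (.rf (nat_lit 2030) (nat_lit 493858305440582043680)) .nil)))) .nil))))) (.cons (.br (nat_lit 12) (nat_lit 0) (.cons (.rf (nat_lit 2032) (nat_lit 493858305440582043680)) (.cons (.rf (nat_lit 2035) (nat_lit 493858305440582043680)) (.cons (.br (nat_lit 12) (nat_lit 0) (.cons (.rf (nat_lit 2032) (nat_lit 493858305440582043680)) (.cons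 (.rf (nat_lit 2035) (nat_lit 493858305440582043680)) (.cons (.rf (nat_lit 2036) (nat_lit 482283500263802912)) .nil)))) (.cons (.rf (nat_lit 2036) (nat_lit 482283500263802912)) .nil))))) .nil)))),
 (.br (nat_lit 9) (nat_lit 1) (.cons (.ev (nat_lit 20678560144520102082409715008776) (nat_lit 4)) .nil)),
 (.br (nat_lit 9) (nat_lit 1) (.cons (.kr (nat_lit 9444805586283281776896) (nat_lit 20361637766165934762640340484096) (nat_lit 1) (nat_lit 0)) .nil)),
 (.br (nat_lit 5) (nat_lit 0) (.cons (.br (nat_lit 8) (nat_lit 1) (.cons (.rf (nat_lit 2038) (nat_lit 493858305440582043680)) (.cons (.rf (nat_lit 2038) (nat_lit 493858305440582042688)) .nil))) (.cons (.br (nat_lit 6) (nat_lit 1) (.cons (.rf (nat_lit 2039) (nat_lit 493858305440582043680)) (.cons (.rf (nat_lit 2039) (nat_lit 493858305440582042688)) .nil))) (.cons (.ev (nat_lit 20282410812577490039680249364481) (nat_lit 1)) .nil)))),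
 (.br (nat_lit 2) (nat_lit 0) (.cons (.ev (nat_lit 1213648258436572129525761) (nat_lit 1)) .nil)),
 (.br (nat_lit 4) (nat_lit 1) (.cons (.rf (nat_lit 2041) (nat_lit 493858305440582043680)) (.cons (.rf (nat_lit 2041) (nat_lit 493858305440582042688)) .nil))),
 (.br (nat_lit 6) (nat_lit 1) (.cons (.kr (nat_lit 9481626453886709596416) (nat_lit 20361637766166006820234378346496) (nat_lit 1) (nat_lit 0)) .nil)),
 (.br (nat_lit 12) (nat_lit 0) (.cons (.rf (nat_lit 2037) (nat_lit 458082801744999450656)) (.cons (.kr (nat_lit 18446744073709551616) (nat_lit 20282409603651670423947251286016) (nat_lit 8) (nat_lit 0)) (.cons (.br (nat_lit 7) (nat_lit 0) (.cons (.rf (nat_lit 2040) (nat_lit 493858305440582043680)) (.cons (.br (nat_lit 8) (nat_lit 1) (.cons (.rf (nat_lit 1956) (nat_lit 458077277802874374176)) (.cons (.rf (nat_lit 1956) (nat_lit 458077277802874373184)) (.cons (.rf (nat_lit 2042) (nat_lit 493858305440582043680)) .nil)))) (.cons (.br (nat_lit 5) (nat_lit 0) (.cons (.rf (nat_lit 1950) (nat_lit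 15432862002833360928)) (.cons (.ev (nat_lit 79537647524158021731300147201) (nat_lit 1)) (.cons (.rf (nat_lit 1950) (nat_lit 15433037924693805088)) .nil)))) (.cons (.br (nat_lit 5) (nat_lit 0) (.cons (.rf (nat_lit 2042) (nat_lit 458082801744999450656)) (.cons (.rf (nat_lit 2040) (nat_lit 458082801744999450656)) (.cons (.br (nat_lit 2) (nat_lit 0) (.cons (.rf (nat_lit 2043) (nat_lit 493858305440582043680)) (.cons (.rf (nat_lit 2043) (nat_lit 458082801744999450656)) .nil))) .nil)))) .nil))))) .nil)))),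
 (.br (nat_lit 8) (nat_lit 1) (.cons (.br (nat_lit 6) (nat_lit 1) (.cons (.ev (nat_lit 20282719088661492051590481248513) (nat_lit 1)) (.cons (.ev (nat_lit 20361638975110273459316989100033) (nat_lit 1)) .nil))) (.cons (.rf (nat_lit 1956) (nat_lit 493856089922506688544)) (.cons (.br (nat_lit 6) (nat_lit 1) (.cons (.br (nat_lit 5) (nat_lit 0) (.cons (.zr (nat_lit 9481626453886726308608) (nat_lit 310693935641241177171296257) (nat_lit 5) (nat_lit 4)) .nil)) (.cons (.br (nat_lit 2) (nat_lit 0) (.cons (.ev (nat_lit 20678555261371220840359229849860) (nat_lit 3)) .nil)) .nil))) .nil)))),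
 (.br (nat_lit 9) (nat_lit 1) (.cons (.ev (nat_lit 20678560144520102082409715269896) (nat_lit 4)) .nil)),
 (.br (nat_lit 12) (nat_lit 0) (.cons (.rf (nat_lit 2037) (nat_lit 458082801744999450656)) (.cons (.br (nat_lit 4) (nat_lit 1) (.cons (.rf (nat_lit 2045) (nat_lit 493858305440582043680)) (.cons (.rf (nat_lit 2045) (nat_lit 493858305440582042688)) (.cons (.br (nat_lit 6) (nat_lit 1) (.cons (.rf (nat_lit 2045) (nat_lit 458082801744999450656)) (.cons (.rf (nat_lit 2045) (nat_lit 458082801744999449664)) (.cons (.rf (nat_lit 1950) (nat_lit 15432862006052489248)) .nil)))) (.cons (.br (nat_lit 6) (nat_lit 1) (.cons (.rf (nat_lit 2045) (nat_lit 458082801744999450656)) (.cons (.rf (nat_lit 2045) (nat_lit 458082801744999449664)) (.cons (.br (nat_lit 1) (nat_lit 0) (.cons (.rf (nat_lit 2046) (nat_lit 493858305440582043680)) (.cons (.rf (nat_lit 2046) (nat_lit 458082801744999450656)) .nil))) .nil)))) .nil))))) (.cons (.kr (nat_lit 4722366482869645213696) (nat_lit 79228162514264337593543950336)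 (nat_lit 9) (nat_lit 0)) .nil)))),
 (.br (nat_lit 4) (nat_lit 1) (.cons (.rf (nat_lit 1800) (nat_lit 13119241017228363808)) (.cons (.rf (nat_lit 1800) (nat_lit 13119241017228362816)) (.cons (.kr (nat_lit 79537647524085683761780359168) (nat_lit 36893769622395813888) (nat_lit 5) (nat_lit 0)) .nil)))),
 (.br (nat_lit 12) (nat_lit 0) (.cons (.rf (nat_lit 2047) (nat_lit 493858305440582043680)) (.cons (.rf (nat_lit 2037) (nat_lit 458082801744999450656)) (.cons (.br (nat_lit 8) (nat_lit 1) (.cons (.rf (nat_lit 2028) (nat_lit 458082731376257370144)) (.cons (.rf (nat_lit 2028) (nat_lit 458082731376257369152)) (.cons (.br (nat_lit 4) (nat_lit 1) (.cons (.rf (nat_lit 1956) (nat_lit 493856089922506688544)) (.cons (.rf (nat_lit 1956) (nat_lit 493856089922506687552)) (.cons (.rf (nat_lit 2031) (nat_lit 458082801744999450656)) .nil)))) (.cons (.br (nat_lit 5) (nat_lit 0) (.cons (.rf (nat_lit 2048) (nat_lit 15433072044983552032)) (.cons (.ev (nat_lit 309489732260167007401410561) (nat_lit 1)) .nil)))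 .nil))))) .nil)))),
 (.br (nat_lit 13) (nat_lit 0) (.cons (.rf (nat_lit 2037) (nat_lit 493858305440582043680)) (.cons (.br (nat_lit 12) (nat_lit 0) (.cons (.rf (nat_lit 2044) (nat_lit 493858305440582043680)) (.cons (.rf (nat_lit 2037) (nat_lit 458082801744999450656)) (.cons (.kr (nat_lit 18446744073709551616) (nat_lit 20282409603651670423947251286016) (nat_lit 8) (nat_lit 0)) (.cons (.br (nat_lit 12) (nat_lit 0) (.cons (.rf (nat_lit 2044) (nat_lit 493858305440582043680)) (.cons (.rf (nat_lit 2037) (nat_lit 458082801744999450656)) (.cons (.kr (nat_lit 18446744073709551616) (nat_lit 20282409603651670423947251286016) (nat_lit 8) (nat_lit 0)) .nil)))) .nil))))) (.cons (.br (nat_lit 12) (nat_lit 0) (.cons (.rf (nat_lit 2047) (nat_lit 493858305440582043680)) (.cons (.rf (nat_lit 2037) (nat_lit 458082801744999450656)) (.cons (.rf (nat_lit 2049) (nat_lit 493858305440582043680)) (.cons (.br (nat_lit 12) (nat_lit 0) (.cons (.kr (nat_lit 4722366482869645213696) (nat_lit 79228162514264337593543950336)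 (nat_lit 9) (nat_lit 0)) (.cons (.rf (nat_lit 2037) (nat_lit 458082801744999450656)) (.cons (.rf (nat_lit 2049) (nat_lit 493858305440582043680)) .nil)))) .nil))))) .nil)))),
 (.br (nat_lit 5) (nat_lit 0) (.cons (.rf (nat_lit 1800) (nat_lit 13119241017228362816)) (.cons (.rf (nat_lit 1956) (nat_lit 455883953346089944128)) .nil))),
 (.br (nat_lit 12) (nat_lit 0) (.cons (.rf (nat_lit 2050) (nat_lit 458082801744999450656)) (.cons (.rf (nat_lit 2036) (nat_lit 447346481853204512)) (.cons (.br (nat_lit 2) (nat_lit 0) (.cons (.rf (nat_lit 2051) (nat_lit 15433072044983552032)) (.cons (.rf (nat_lit 2051) (nat_lit 14315087554630748192)) .nil))) .nil)))),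
 (.br (nat_lit 13) (nat_lit 0) (.cons (.rf (nat_lit 2037) (nat_lit 493858305440582043680)) (.cons (.rf (nat_lit 2050) (nat_lit 493858305440582043680)) (.cons (.br (nat_lit 12) (nat_lit 0) (.cons (.rf (nat_lit 2050) (nat_lit 458082801744999450656)) (.cons (.rf (nat_lit 2037) (nat_lit 458082801744999450656)) (.cons (.rf (nat_lit 2052) (nat_lit 493858305440582043680)) (.cons (.br (nat_lit 12) (nat_lit 0) (.cons (.kr (nat_lit 4722366482869645213696) (nat_lit 79228162514264337593543950336) (nat_lit 9) (nat_lit 0)) (.cons (.rf (nat_lit 2037) (nat_lit 458082801744999450656)) (.cons (.rf (nat_lit 2052) (nat_lit 493858305440582043680)) .nil)))) .nil))))) .nil)))),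
 (.br (nat_lit 10) (nat_lit 1) (.cons (.rf (nat_lit 1933) (nat_lit 372964484733569056)) (.cons (.rf (nat_lit 1933) (nat_lit 372964484733568064)) (.cons (.rf (nat_lit 1949) (nat_lit 372964484733569056)) (.cons (.br (nat_lit 13) (nat_lit 0) (.cons (.rf (nat_lit 2007) (nat_lit 493858305440582043680)) (.cons (.rf (nat_lit 2007) (nat_lit 493823368387811706912)) (.cons (.rf (nat_lit 2008) (nat_lit 493858305440582043680)) (.cons (.rf (nat_lit 2008) (nat_lit 493823368387811706912)) .nil))))) (.cons (.br (nat_lit 13) (nat_lit 0) (.cons (.rf (nat_lit 2037) (nat_lit 493858305440582043680)) (.cons (.rf (nat_lit 2050) (nat_lit 493858305440582043680)) (.cons (.rf (nat_lit 2053) (nat_lit 493858305440582043680)) (.cons (.br (nat_lit 13) (nat_lit 0) (.cons (.rf (nat_lit 2037) (nat_lit 493858305440582043680)) (.cons (.rf (nat_lit 2050) (nat_lit 493858305440582043680)) (.cons (.rf (nat_lit 2053) (nat_lit 493858305440582043680)) .nil)))) .nil))))) .nil)))))),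
 (.br (nat_lit 8) (nat_lit 1) (.cons (.rf (nat_lit 1742) (nat_lit 15430814714333071392)) (.cons (.zr (nat_lit 3626777458847186092556288) (nat_lit 20282719088680010570688018514177) (nat_lit 5) (nat_lit 11)) .nil))),
 (.br (nat_lit 6) (nat_lit 1) (.cons (.rf (nat_lit 1768) (nat_lit 493749165717385742368)) (.cons (.rf (nat_lit 1956) (nat_lit 458041250105367037984)) .nil))),
 (.br (nat_lit 7) (nat_lit 0) (.cons (.br (nat_lit 5) (nat_lit 0) (.cons (.rf (nat_lit 1947) (nat_lit 15065859576924192)) (.cons (.rf (nat_lit 1947) (nat_lit 15068058600179744)) (.cons (.br (nat_lit 9) (nat_lit 1) (.cons (.rf (nat_lit 2056) (nat_lit 493858271355721582624)) (.cons (.rf (nat_lit 2056) (nat_lit 493858271355721581632)) (.cons (.br (nat_lit 1) (nat_lit 0) (.cons (.br (nat_lit 2) (nat_lit 0) (.cons (.ev (nat_lit 79228162532711364246036807681) (nat_lit 1)) .nil)) (.cons (.br (nat_lit 6) (nat_lit 1) (.cons (.ev (nat_lit 79228162532711364246036807681) (nat_lit 1)) .nil)) .nil))) .nil)))) .nil)))) (.cons (.br (nat_lit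 5) (nat_lit 0) (.cons (.rf (nat_lit 1947) (nat_lit 15065859576924192)) (.cons (.br (nat_lit 8) (nat_lit 1) (.cons (.rf (nat_lit 2056) (nat_lit 493858305440582043680)) (.cons (.rf (nat_lit 2056) (nat_lit 493858305440582042688)) (.cons (.ev (nat_lit 309485028268090246257704961) (nat_lit 1)) .nil)))) (.cons (.rf (nat_lit 1947) (nat_lit 15069158111807520)) .nil)))) .nil))),
 (.br (nat_lit 7) (nat_lit 0) (.cons (.rf (nat_lit 2057) (nat_lit 493858305440582043680)) (.cons (.br (nat_lit 5) (nat_lit 0) (.cons (.br (nat_lit 6) (nat_lit 1) (.cons (.rf (nat_lit 2056) (nat_lit 493858303243706271776)) (.cons (.rf (nat_lit 2056) (nat_lit 493858303243706270784)) (.cons (.ev (nat_lit 79537647524158021731300147201) (nat_lit 1)) .nil)))) (.cons (.rf (nat_lit 1947) (nat_lit 15068058600179744)) (.cons (.rf (nat_lit 1947) (nat_lit 15069158111807520)) .nil)))) .nil))),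
 (.br (nat_lit 7) (nat_lit 0) (.cons (.rf (nat_lit 2057) (nat_lit 493858305440582043680)) (.cons (.rf (nat_lit 2058) (nat_lit 493858305440582043680)) (.cons (.br (nat_lit 7) (nat_lit 0) (.cons (.rf (nat_lit 2057) (nat_lit 493858305440582043680)) (.cons (.rf (nat_lit 2058) (nat_lit 493858305440582043680)) .nil))) .nil)))),
 (.br (nat_lit 5) (nat_lit 0) (.cons (.br (nat_lit 7) (nat_lit 0) (.cons (.rf (nat_lit 2009) (nat_lit 15432996143254046752)) (.cons (.ev (nat_lit 310693935713298766930903041) (nat_lit 1)) .nil))) (.cons (.rf (nat_lit 2036) (nat_lit 447268487332726816)) (.cons (.br (nat_lit 7) (nat_lit 0) (.cons (.rf (nat_lit 2036) (nat_lit 482279136581224480)) (.cons (.ev (nat_lit 1208944266359806707630081) (nat_lit 1)) (.cons (.rf (nat_lit 1896) (nat_lit 15432932229709601952)) .nil)))) .nil)))),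
 (.br (nat_lit 7) (nat_lit 0) (.cons (.rf (nat_lit 2060) (nat_lit 493858305440582043680)) (.cons (.rf (nat_lit 2036) (nat_lit 482279136581224480)) (.cons (.br (nat_lit 6) (nat_lit 1) (.cons (.rf (nat_lit 1956) (nat_lit 458043501903033239584)) (.cons (.rf (nat_lit 1956) (nat_lit 458043501903033238592)) (.cons (.ev (nat_lit 79537647524158021731300147201) (nat_lit 1)) .nil)))) .nil)))),
 (.br (nat_lit 5) (nat_lit 0) (.cons (.br (nat_lit 8) (nat_lit 1) (.cons (.rf (nat_lit 1738) (nat_lit 493749123935951225920)) (.cons (.ev (nat_lit 309485028268090246257704961) (nat_lit 1)) .nil))) (.cons (.br (nat_lit 2) (nat_lit 0) (.cons (.br (nat_lit 7) (nat_lit 0) (.cons (.ev (nat_lit 79228162532711364246036807681) (nat_lit 1)) .nil)) .nil)) .nil)))]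

theorem c69 : chkAll C T R L69 (nat_lit 2033) = true := by decide +kernel

theorem l69 : (nat_lit 2033) + L69.length = (nat_lit 2063) := by decide +kernel

/-- part of the certificates -/
def L70 : List Prf := [(.br (nat_lit 7) (nat_lit 0) (.cons (.rf (nat_lit 2062) (nat_lit 493858305440582043680)) (.cons (.br (nat_lit 7) (nat_lit 0) (.cons (.rf (nat_lit 2062) (nat_lit 493858305440582043680)) (.cons (.rf (nat_lit 1956) (nat_lit 458008599005921118240)) .nil))) (.cons (.br (nat_lit 7) (nat_lit 0) (.cons (.rf (nat_lit 2062) (nat_lit 493858305440582043680)) (.cons (.rf (nat_lit 1956) (nat_lit 458008599005921118240)) .nil))) .nil)))),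
 (.br (nat_lit 5) (nat_lit 0) (.cons (.rf (nat_lit 1956) (nat_lit 493851586327174285344)) (.cons (.rf (nat_lit 1800) (nat_lit 14312591595528095776)) (.cons (.ev (nat_lit 20361637770888301525885417160961) (nat_lit 1)) .nil)))),
 (.br (nat_lit 13) (nat_lit 0) (.cons (.rf (nat_lit 2059) (nat_lit 493858305440582043680)) (.cons (.br (nat_lit 7) (nat_lit 0) (.cons (.rf (nat_lit 2060) (nat_lit 493858305440582043680)) (.cons (.rf (nat_lit 2036) (nat_lit 482279136581224480)) (.cons (.rf (nat_lit 2061) (nat_lit 493858305440582043680)) (.cons (.br (nat_lit 7) (nat_lit 0) (.cons (.rf (nat_lit 2060) (nat_lit 493858305440582043680)) (.cons (.rf (nat_lit 2036) (nat_lit 482279136581224480)) (.cons (.rf (nat_lit 2061) (nat_lit 493858305440582043680)) .nil)))) .nil))))) (.cons (.br (nat_lit 6) (nat_lit 1) (.cons (.rf (nat_lit 2063) (nat_lit 493858305440582043680)) (.cons (.rf (nat_lit 2063) (nat_lit 493858305440582042688)) (.cons (.ev (nat_lit 20361948460101576003813199839233) (nat_lit 1)) (.cons (.br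 (nat_lit 1) (nat_lit 0) (.cons (.rf (nat_lit 2028) (nat_lit 457938722845100181536)) (.cons (.rf (nat_lit 2064) (nat_lit 493858305440582043680)) (.cons (.br (nat_lit 2) (nat_lit 0) (.cons (.rf (nat_lit 2028) (nat_lit 457938722845100180544)) (.cons (.rf (nat_lit 2064) (nat_lit 493858305440582042688)) .nil))) .nil)))) .nil))))) .nil)))),
 (.br (nat_lit 8) (nat_lit 1) (.cons (.kr (nat_lit 1208944266358707179225088) (nat_lit 20361637766165935043015771947008) (nat_lit 4) (nat_lit 0)) (.cons (.ev (nat_lit 79228162532711364246036807681) (nat_lit 1)) .nil))),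
 (.br (nat_lit 7) (nat_lit 0) (.cons (.br (nat_lit 5) (nat_lit 0) (.cons (.rf (nat_lit 1933) (nat_lit 406806180120435872)) (.cons (.rf (nat_lit 2036) (nat_lit 447268487332726816)) (.cons (.br (nat_lit 6) (nat_lit 1) (.cons (.rf (nat_lit 2066) (nat_lit 493858305440582043680)) (.cons (.rf (nat_lit 2066) (nat_lit 493858305440582042688)) .nil))) .nil)))) (.cons (.ev (nat_lit 20361638975110273177842029166593) (nat_lit 1)) (.cons (.rf (nat_lit 2036) (nat_lit 482282435116107808)) .nil)))),
 (.br (nat_lit 4) (nat_lit 1) (.cons (.ev (nat_lit 79228162532711364246036807681) (nat_lit 1)) .nil)),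
 (.br (nat_lit 9) (nat_lit 1) (.cons (.rf (nat_lit 1956) (nat_lit 457935415515197573152)) (.cons (.rf (nat_lit 1956) (nat_lit 457935415515197572160)) (.cons (.br (nat_lit 6) (nat_lit 1) (.cons (.rf (nat_lit 2068) (nat_lit 493858305440582043680)) (.cons (.rf (nat_lit 2068) (nat_lit 493858305440582042688)) .nil))) .nil)))),
 (.br (nat_lit 13) (nat_lit 0) (.cons (.rf (nat_lit 2059) (nat_lit 493858305440582043680)) (.cons (.rf (nat_lit 2065) (nat_lit 493858305440582043680)) (.cons (.br (nat_lit 7) (nat_lit 0) (.cons (.rf (nat_lit 2067) (nat_lit 493858305440582043680)) (.cons (.br (nat_lit 7) (nat_lit 0) (.cons (.rf (nat_lit 2067) (nat_lit 493858305440582043680)) (.cons (.rf (nat_lit 2069) (nat_lit 493858305440582043680)) (.cons (.rf (nat_lit 2036) (nat_lit 482282435116107808)) .nil)))) (.cons (.br (nat_lit 7) (nat_lit 0) (.cons (.ev (nat_lit 20361638975110273177842029166593) (nat_lit 1)) (.cons (.rf (nat_lit 2069) (nat_lit 493858305440582043680)) (.cons (.rf (nat_lit 2036) (nat_lit 482282435116107808))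 .nil)))) (.cons (.rf (nat_lit 2036) (nat_lit 482282435116107808)) .nil))))) .nil)))),
 (.br (nat_lit 5) (nat_lit 0) (.cons (.rf (nat_lit 2048) (nat_lit 14242784668503083040)) (.cons (.br (nat_lit 12) (nat_lit 0) (.cons (.rf (nat_lit 2036) (nat_lit 445087021900335136)) (.cons (.rf (nat_lit 2009) (nat_lit 14242781410771437600)) .nil))) .nil))),
 (.br (nat_lit 13) (nat_lit 0) (.cons (.rf (nat_lit 2036) (nat_lit 482276937557968928)) (.cons (.br (nat_lit 5) (nat_lit 0) (.cons (.rf (nat_lit 1896) (nat_lit 15433037782825704608)) (.cons (.rf (nat_lit 2036) (nat_lit 447270686355982368)) (.cons (.br (nat_lit 1) (nat_lit 0) (.cons (.br (nat_lit 2) (nat_lit 0) (.cons (.ev (nat_lit 1208944266641281667629313) (nat_lit 1)) .nil)) (.cons (.br (nat_lit 4) (nat_lit 1) (.cons (.ev (nat_lit 1208944266641281667629313) (nat_lit 1)) .nil)) .nil))) .nil)))) .nil))),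
 (.br (nat_lit 8) (nat_lit 1) (.cons (.rf (nat_lit 1956) (nat_lit 493853838126985873440)) (.cons (.rf (nat_lit 1956) (nat_lit 493853838126985872448)) .nil))),
 (.br (nat_lit 9) (nat_lit 1) (.cons (.rf (nat_lit 1956) (nat_lit 458002969509610227744)) (.cons (.rf (nat_lit 1956) (nat_lit 458002969509610226752)) (.cons (.rf (nat_lit 2073) (nat_lit 493858305440582043680)) .nil)))),
 (.br (nat_lit 13) (nat_lit 0) (.cons (.rf (nat_lit 2073) (nat_lit 493858305440582043680)) (.cons (.rf (nat_lit 2073) (nat_lit 493858301042539726880)) .nil))),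
 (.br (nat_lit 13) (nat_lit 0) (.cons (.rf (nat_lit 2074) (nat_lit 493858305440582043680)) (.cons (.rf (nat_lit 2074) (nat_lit 493858301042539726880)) (.cons (.rf (nat_lit 2075) (nat_lit 493858305440582043680)) .nil)))),
 (.br (nat_lit 13) (nat_lit 0) (.cons (.br (nat_lit 2) (nat_lit 0) (.cons (.ev (nat_lit 1208944266641281667629313) (nat_lit 1)) .nil)) (.cons (.br (nat_lit 6) (nat_lit 1) (.cons (.ev (nat_lit 79228162532711364246036873473) (nat_lit 1)) .nil)) .nil))),
 (.br (nat_lit 6) (nat_lit 1) (.cons (.rf (nat_lit 2027) (nat_lit 14308334219995220000)) (.cons (.rf (nat_lit 2027) (nat_lit 14308334219995219008)) .nil))),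
 (.br (nat_lit 13) (nat_lit 0) (.cons (.rf (nat_lit 2036) (nat_lit 482276937557968928)) (.cons (.rf (nat_lit 2036) (nat_lit 482282435116107808)) .nil))),
 (.br (nat_lit 8) (nat_lit 1) (.cons (.kr (nat_lit 1208925819614629174706432) (nat_lit 79228162514264337593544015872) (nat_lit 1) (nat_lit 0)) (.cons (.br (nat_lit 8) (nat_lit 1) (.cons (.kr (nat_lit 1208925819614629174706432) (nat_lit 79228162514264337593544015872) (nat_lit 1) (nat_lit 0)) (.cons (.rf (nat_lit 2079) (nat_lit 493858305440582043680)) .nil))) (.cons (.rf (nat_lit 2079) (nat_lit 493858305440582043680)) .nil)))),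
 (.br (nat_lit 7) (nat_lit 0) (.cons (.br (nat_lit 13) (nat_lit 0) (.cons (.rf (nat_lit 2071) (nat_lit 15433070910038444064)) (.cons (.rf (nat_lit 2072) (nat_lit 493858305440582043680)) (.cons (.br (nat_lit 13) (nat_lit 0) (.cons (.rf (nat_lit 2071) (nat_lit 15433070910038444064)) (.cons (.rf (nat_lit 2072) (nat_lit 493858305440582043680)) .nil))) .nil)))) (.cons (.br (nat_lit 5) (nat_lit 0) (.cons (.rf (nat_lit 1933) (nat_lit 299712654500566240)) (.cons (.rf (nat_lit 2076) (nat_lit 493858305440582043680)) (.cons (.rf (nat_lit 1933) (nat_lit 154366014478619872)) (.cons (.br (nat_lit 9) (nat_lit 1) (.cons (.rf (nat_lit 2056) (nat_lit 493853767753953019936)) (.cons (.rf (nat_lit 2056) (nat_lit 493853767753953018944)) (.cons (.br (nat_lit 4) (nat_lit 1) (.cons (.rf (nat_lit 2077) (nat_lit 493858305440582043680)) (.cons (.rf (nat_lit 2077) (nat_lit 493858305440582042688)) (.cons (.rf (nat_lit 2078) (nat_lit 493858305440582043680)) .nil)))) .nil)))) .nil))))) (.cons (.br (nat_lit 6) (nat_lit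 1) (.cons (.rf (nat_lit 2080) (nat_lit 493858305440582043680)) (.cons (.rf (nat_lit 2080) (nat_lit 493858305440582042688)) (.cons (.rf (nat_lit 2076) (nat_lit 493678127375995471904)) (.cons (.br (nat_lit 5) (nat_lit 0) (.cons (.rf (nat_lit 1947) (nat_lit 15063660620777504)) (.cons (.br (nat_lit 8) (nat_lit 1) (.cons (.rf (nat_lit 2056) (nat_lit 493858305438436657184)) (.cons (.rf (nat_lit 2056) (nat_lit 493858305438436656192)) (.cons (.ev (nat_lit 20282720297605830466787891740673) (nat_lit 1)) .nil)))) (.cons (.rf (nat_lit 1947) (nat_lit 15069158178916384)) .nil)))) .nil))))) .nil)))),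
 (.br (nat_lit 2) (nat_lit 0) (.cons (.ev (nat_lit 1208944266641281667629313) (nat_lit 1)) .nil)),
 (.br (nat_lit 13) (nat_lit 0) (.cons (.ev (nat_lit 20282409603670189507089992253441) (nat_lit 1)) (.cons (.br (nat_lit 5) (nat_lit 0) (.cons (.ev (nat_lit 310693935713017296249159681) (nat_lit 1)) (.cons (.ev (nat_lit 20282720297605830466787891740673) (nat_lit 1)) (.cons (.br (nat_lit 8) (nat_lit 1) (.cons (.rf (nat_lit 2082) (nat_lit 493858305440582043680)) (.cons (.rf (nat_lit 2082) (nat_lit 493858305440582042688)) .nil))) .nil)))) .nil))),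
 (.br (nat_lit 5) (nat_lit 0) (.cons (.ev (nat_lit 309485028268371716939448321) (nat_lit 1)) (.cons (.br (nat_lit 12) (nat_lit 0) (.cons (.ev (nat_lit 79228162532783420736284917761) (nat_lit 1)) (.cons (.rf (nat_lit 2009) (nat_lit 14242922148259792928)) .nil))) .nil))),
 (.br (nat_lit 13) (nat_lit 0) (.cons (.br (nat_lit 5) (nat_lit 0) (.cons (.ev (nat_lit 20361948460101575722342518095873) (nat_lit 1)) (.cons (.rf (nat_lit 2036) (nat_lit 447270686355982368)) (.cons (.rf (nat_lit 1933) (nat_lit 225296610169754848)) .nil)))) (.cons (.rf (nat_lit 2071) (nat_lit 15433070910043686944)) .nil))),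
 (.br (nat_lit 7) (nat_lit 0) (.cons (.rf (nat_lit 2081) (nat_lit 493858305440582043680)) (.cons (.br (nat_lit 13) (nat_lit 0) (.cons (.rf (nat_lit 2083) (nat_lit 493858305440582043680)) (.cons (.rf (nat_lit 2084) (nat_lit 15433070910038444064)) (.cons (.br (nat_lit 13) (nat_lit 0) (.cons (.rf (nat_lit 2083) (nat_lit 493858305440582043680)) (.cons (.rf (nat_lit 2084) (nat_lit 15433070910038444064)) .nil))) .nil)))) (.cons (.br (nat_lit 13) (nat_lit 0) (.cons (.rf (nat_lit 2085) (nat_lit 493858305440582043680)) (.cons (.br (nat_lit 13) (nat_lit 0) (.cons (.rf (nat_lit 2085) (nat_lit 493858305440582043680)) (.cons (.rf (nat_lit 2036) (nat_lit 482282435116107808)) .nil))) (.cons (.rf (nat_lit 2071) (nat_lit 15433070910043686944)) .nil)))) .nil)))),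
 (.br (nat_lit 7) (nat_lit 0) (.cons (.rf (nat_lit 2081) (nat_lit 493858305440582043680)) (.cons (.rf (nat_lit 2086) (nat_lit 493858305440582043680)) (.cons (.br (nat_lit 5) (nat_lit 0) (.cons (.br (nat_lit 4) (nat_lit 1) (.cons (.rf (nat_lit 2056) (nat_lit 493853797445061937184)) (.cons (.rf (nat_lit 2056) (nat_lit 493853797445061936192)) (.cons (.br (nat_lit 13) (nat_lit 0) (.cons (.ev (nat_lit 20282719088661491770119799439361) (nat_lit 1)) (.cons (.ev (nat_lit 20361948460101575722342518095873) (nat_lit 1)) (.cons (.rf (nat_lit 2078) (nat_lit 493858129518726842400)) .nil)))) .nil)))) (.cons (.br (nat_lit 13) (nat_lit 0) (.cons (.rf (nat_lit 2075) (nat_lit 493858130618237421600)) (.cons (.rf (nat_lit 2036) (nat_lit 447270684275607584)) (.cons (.rf (nat_lit 2074) (nat_lit 493858129518726842400)) .nil)))) (.cons (.rf (nat_lit 1933) (nat_lit 329153174632142048)) (.cons (.rf (nat_lit 1933) (nat_lit 295340990908372192)) .nil))))) .nil)))),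
 (.br (nat_lit 8) (nat_lit 1) (.cons (.rf (nat_lit 1956) (nat_lit 493857212528171517984)) (.cons (.rf (nat_lit 1956) (nat_lit 493857212528171516992)) (.cons (.rf (nat_lit 2073) (nat_lit 493858199890687002656)) .nil)))),
 (.br (nat_lit 7) (nat_lit 0) (.cons (.rf (nat_lit 2036) (nat_lit 482276937557968928)) (.cons (.rf (nat_lit 2036) (nat_lit 447273984890865696)) .nil))),
 (.br (nat_lit 5) (nat_lit 0) (.cons (.br (nat_lit 7) (nat_lit 0) (.cons (.ev (nat_lit 310693935713017296249159681) (nat_lit 1)) (.cons (.ev (nat_lit 79537647524157740260618403841) (nat_lit 1)) .nil))) (.cons (.rf (nat_lit 1933) (nat_lit 406806180120435872)) (.cons (.rf (nat_lit 2089) (nat_lit 493858305440582043680)) (.cons (.rf (nat_lit 2088) (nat_lit 493858303243706271776)) .nil))))),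
 (.br (nat_lit 2) (nat_lit 0) (.cons (.ev (nat_lit 20282719088661492051594759372801) (nat_lit 1)) (.cons (.kr (nat_lit 20282409608374037188291873210624) (nat_lit 1208925891672223246188544) (nat_lit 1) (nat_lit 0)) .nil))),
 (.br (nat_lit 7) (nat_lit 0) (.cons (.rf (nat_lit 2036) (nat_lit 482276937557968928)) (.cons (.rf (nat_lit 2090) (nat_lit 493858305440582043680)) (.cons (.br (nat_lit 5) (nat_lit 0) (.cons (.rf (nat_lit 2009) (nat_lit 15433001638664701984)) (.cons (.br (nat_lit 6) (nat_lit 1) (.cons (.rf (nat_lit 2091) (nat_lit 493858305440582043680)) (.cons (.rf (nat_lit 2091) (nat_lit 493858305440582042688)) .nil))) .nil))) .nil)))),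
 (.br (nat_lit 1) (nat_lit 0) (.cons (.rf (nat_lit 2051) (nat_lit 14242784736147768384)) (.cons (.br (nat_lit 7) (nat_lit 1) (.cons (.rf (nat_lit 2051) (nat_lit 14242784736147769376)) (.cons (.rf (nat_lit 1956) (nat_lit 455667780573636692000)) (.cons (.rf (nat_lit 1956) (nat_lit 419920494780945106976)) .nil)))) .nil))),
 (.br (nat_lit 7) (nat_lit 0) (.cons (.rf (nat_lit 2093) (nat_lit 15433072044983552032)) (.cons (.br (nat_lit 5) (nat_lit 0) (.cons (.ev (nat_lit 310693935713017296249159681) (nat_lit 1)) (.cons (.rf (nat_lit 1947) (nat_lit 15065859744696352)) (.cons (.rf (nat_lit 1947) (nat_lit 15068058767951904)) .nil)))) .nil))),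
 (.br (nat_lit 13) (nat_lit 0) (.cons (.br (nat_lit 5) (nat_lit 0) (.cons (.ev (nat_lit 20282719088661491770119799439361) (nat_lit 1)) (.cons (.ev (nat_lit 20361948460101576003813199839233) (nat_lit 1)) (.cons (.br (nat_lit 9) (nat_lit 1) (.cons (.rf (nat_lit 1956) (nat_lit 493751377938002053152)) (.cons (.rf (nat_lit 1956) (nat_lit 493751377938002052160)) (.cons (.br (nat_lit 7) (nat_lit 0) (.cons (.rf (nat_lit 2071) (nat_lit 15433070913259669536)) (.cons (.rf (nat_lit 2071) (nat_lit 15433070913261766688)) (.cons (.rf (nat_lit 1933) (nat_lit 329153174632142048)) .nil)))) .nil)))) (.cons (.rf (nat_lit 2088) (nat_lit 493858305440582043680)) .nil))))) (.cons (.br (nat_lit 7) (nat_lit 0) (.cons (.rf (nat_lit 2036) (nat_lit 482276937557968928)) (.cons (.rf (nat_lit 2090) (nat_lit 493858305440582043680)) (.cons (.rf (nat_lit 2092) (nat_lit 493858305440582043680)) (.cons (.br (nat_lit 7) (nat_lit 0) (.cons (.rf (nat_lit 2036) (nat_lit 482276937557968928)) (.cons (.rf (nat_lit 2090) (nat_lit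 493858305440582043680)) (.cons (.rf (nat_lit 2092) (nat_lit 493858305440582043680)) .nil)))) .nil))))) (.cons (.br (nat_lit 7) (nat_lit 0) (.cons (.rf (nat_lit 2093) (nat_lit 15433072044983552032)) (.cons (.rf (nat_lit 2094) (nat_lit 493858305440582043680)) (.cons (.br (nat_lit 7) (nat_lit 0) (.cons (.rf (nat_lit 2093) (nat_lit 15433072044983552032)) (.cons (.rf (nat_lit 2094) (nat_lit 493858305440582043680)) .nil))) .nil)))) .nil))))]

theorem c70 : chkAll C T R L70 (nat_lit 2063) = true := by decide +kernel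

theorem l70 : (nat_lit 2063) + L70.length = (nat_lit 2096) := by decide +kernel

/-- part of the certificates -/
def L71 : List Prf := [(.br (nat_lit 5) (nat_lit 0) (.cons (.rf (nat_lit 1896) (nat_lit 15432932229709438112)) (.cons (.br (nat_lit 7) (nat_lit 0) (.cons (.ev (nat_lit 79537647524158021731300147201) (nat_lit 1)) (.cons (.ev (nat_lit 310693935713298766930903041) (nat_lit 1)) .nil))) (.cons (.rf (nat_lit 2089) (nat_lit 493858305438436657184)) (.cons (.rf (nat_lit 2088) (nat_lit 493858301044685113376)) .nil))))),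
 (.br (nat_lit 7) (nat_lit 0) (.cons (.rf (nat_lit 2096) (nat_lit 493858305440582043680)) (.cons (.rf (nat_lit 2036) (nat_lit 482279136581224480)) (.cons (.br (nat_lit 5) (nat_lit 0) (.cons (.br (nat_lit 2) (nat_lit 0) (.cons (.br (nat_lit 1) (nat_lit 0) (.cons (.ev (nat_lit 79537647524158021735578403073) (nat_lit 1)) .nil)) (.cons (.br (nat_lit 4) (nat_lit 1) (.cons (.ev (nat_lit 79537647524158021735578403073) (nat_lit 1)) .nil)) .nil))) (.cons (.rf (nat_lit 2009) (nat_lit 15433001640812185632)) .nil))) .nil)))),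
 (.br (nat_lit 5) (nat_lit 0) (.cons (.rf (nat_lit 1947) (nat_lit 15063660721440800)) (.cons (.ev (nat_lit 79537647524158021731300147201) (nat_lit 1)) (.cons (.rf (nat_lit 1947) (nat_lit 15068058767951904)) .nil)))),
 (.br (nat_lit 13) (nat_lit 0) (.cons (.rf (nat_lit 2095) (nat_lit 493858305440582043680)) (.cons (.br (nat_lit 7) (nat_lit 0) (.cons (.rf (nat_lit 2096) (nat_lit 493858305440582043680)) (.cons (.rf (nat_lit 2036) (nat_lit 482279136581224480)) (.cons (.rf (nat_lit 2097) (nat_lit 493858305440582043680)) (.cons (.br (nat_lit 7) (nat_lit 0) (.cons (.rf (nat_lit 2096) (nat_lit 493858305440582043680)) (.cons (.rf (nat_lit 2036) (nat_lit 482279136581224480)) (.cons (.rf (nat_lit 2097) (nat_lit 493858305440582043680)) .nil)))) .nil))))) (.cons (.br (nat_lit 7) (nat_lit 0) (.cons (.br (nat_lit 7) (nat_lit 0) (.cons (.rf (nat_lit 2093) (nat_lit 15433037822686234656)) (.cons (.rf (nat_lit 2098) (nat_lit 493858305440582043680)) .nil))) (.cons (.rf (nat_lit 2093) (nat_lit 15433037822686234656))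 (.cons (.br (nat_lit 7) (nat_lit 0) (.cons (.rf (nat_lit 2098) (nat_lit 493858305440582043680)) (.cons (.rf (nat_lit 2093) (nat_lit 15433037822686234656)) .nil))) .nil)))) .nil)))),
 (.br (nat_lit 2) (nat_lit 0) (.cons (.ev (nat_lit 79229371440156291296028262401) (nat_lit 1)) .nil)),
 (.br (nat_lit 7) (nat_lit 0) (.cons (.br (nat_lit 5) (nat_lit 0) (.cons (.rf (nat_lit 1947) (nat_lit 15063660721440800)) (.cons (.rf (nat_lit 1947) (nat_lit 15065859744696352)) (.cons (.br (nat_lit 4) (nat_lit 1) (.cons (.rf (nat_lit 2100) (nat_lit 493858305440582043680)) (.cons (.rf (nat_lit 2100) (nat_lit 493858305440582042688)) .nil))) .nil)))) (.cons (.rf (nat_lit 2093) (nat_lit 15433037822688331808)) .nil))),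
 (.br (nat_lit 13) (nat_lit 0) (.cons (.rf (nat_lit 2095) (nat_lit 493858305440582043680)) (.cons (.rf (nat_lit 2099) (nat_lit 493858305440582043680)) (.cons (.br (nat_lit 7) (nat_lit 0) (.cons (.rf (nat_lit 2101) (nat_lit 493858305440582043680)) (.cons (.br (nat_lit 7) (nat_lit 0) (.cons (.rf (nat_lit 2101) (nat_lit 493858305440582043680)) (.cons (.rf (nat_lit 2093) (nat_lit 15433037822688331808)) .nil))) (.cons (.rf (nat_lit 2093) (nat_lit 15433037822688331808)) .nil)))) .nil)))),
 (.br (nat_lit 10) (nat_lit 1) (.cons (.rf (nat_lit 1933) (nat_lit 372964484733569056)) (.cons (.rf (nat_lit 1933) (nat_lit 372964484733568064)) (.cons (.rf (nat_lit 1991) (nat_lit 493858305440582043680)) (.cons (.rf (nat_lit 2054) (nat_lit 493858305440582043680)) (.cons (.br (nat_lit 12) (nat_lit 0) (.cons (.br (nat_lit 13) (nat_lit 0) (.cons (.rf (nat_lit 2059) (nat_lit 493858305440582043680)) (.cons (.rf (nat_lit 2065) (nat_lit 493858305440582043680)) (.cons (.rf (nat_lit 2070) (nat_lit 493858305440582043680))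 (.cons (.br (nat_lit 13) (nat_lit 0) (.cons (.rf (nat_lit 2059) (nat_lit 493858305440582043680)) (.cons (.rf (nat_lit 2065) (nat_lit 493858305440582043680)) (.cons (.rf (nat_lit 2070) (nat_lit 493858305440582043680)) .nil)))) .nil))))) (.cons (.br (nat_lit 7) (nat_lit 0) (.cons (.rf (nat_lit 2081) (nat_lit 493858305440582043680)) (.cons (.rf (nat_lit 2086) (nat_lit 493858305440582043680)) (.cons (.rf (nat_lit 2087) (nat_lit 493858305440582043680)) (.cons (.br (nat_lit 7) (nat_lit 0) (.cons (.rf (nat_lit 2081) (nat_lit 493858305440582043680)) (.cons (.rf (nat_lit 2086) (nat_lit 493858305440582043680)) (.cons (.rf (nat_lit 2087) (nat_lit 493858305440582043680)) .nil)))) .nil))))) (.cons (.kr (nat_lit 1208925819614629174706176) (nat_lit 79228162514264337593543950336) (nat_lit 10) (nat_lit 0)) (.cons (.br (nat_lit 13) (nat_lit 0) (.cons (.rf (nat_lit 2095) (nat_lit 493858305440582043680)) (.cons (.rf (nat_lit 2099) (nat_lit 493858305440582043680)) (.cons (.rf (nat_lit 2102) (nat_lit 493858305440582043680))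 (.cons (.br (nat_lit 13) (nat_lit 0) (.cons (.rf (nat_lit 2095) (nat_lit 493858305440582043680)) (.cons (.rf (nat_lit 2099) (nat_lit 493858305440582043680)) (.cons (.rf (nat_lit 2102) (nat_lit 493858305440582043680)) .nil)))) .nil))))) .nil))))) .nil)))))),
 (.br (nat_lit 11) (nat_lit 1) (.cons (.rf (nat_lit 1933) (nat_lit 407901468851537952)) (.cons (.rf (nat_lit 1933) (nat_lit 407901468851536960)) (.cons (.rf (nat_lit 1949) (nat_lit 407901468851537952)) (.cons (.br (nat_lit 12) (nat_lit 1) (.cons (.br (nat_lit 10) (nat_lit 1) (.cons (.rf (nat_lit 1933) (nat_lit 372964484733569056)) (.cons (.rf (nat_lit 1933) (nat_lit 372964484733568064)) (.cons (.rf (nat_lit 1991) (nat_lit 493858305440582043680)) (.cons (.rf (nat_lit 2054) (nat_lit 493858305440582043680)) (.cons (.rf (nat_lit 2103) (nat_lit 493858305440582043680)) (.cons (.br (nat_lit 10) (nat_lit 1) (.cons (.rf (nat_lit 1933) (nat_lit 372964484733569056)) (.cons (.rf (nat_lit 1933) (nat_lit 372964484733568064)) (.cons (.rf (nat_lit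 1991) (nat_lit 493858305440582043680)) (.cons (.rf (nat_lit 2054) (nat_lit 493858305440582043680)) (.cons (.rf (nat_lit 2103) (nat_lit 493858305440582043680)) .nil)))))) .nil))))))) .nil)) .nil))))),
 (.br (nat_lit 2) (nat_lit 0) (.cons (.kr (nat_lit 309485009821345068724781312) (nat_lit 4722366482869645279232) (nat_lit 1) (nat_lit 0)) (.cons (.kr (nat_lit 1208925819614629174706432) (nat_lit 4722366482869645279232) (nat_lit 1) (nat_lit 0)) (.cons (.kr (nat_lit 18446744073709551872) (nat_lit 4722366482869645279232) (nat_lit 1) (nat_lit 0)) (.cons (.kr (nat_lit 256) (nat_lit 65536) (nat_lit 1) (nat_lit 0)) .nil))))),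
 (.br (nat_lit 9) (nat_lit 1) (.cons (.rf (nat_lit 2105) (nat_lit 482283501371099168)) (.cons (.rf (nat_lit 2105) (nat_lit 482283501371098176)) (.cons (.rf (nat_lit 1947) (nat_lit 15069192672872480)) .nil)))),
 (.br (nat_lit 10) (nat_lit 1) (.cons (.rf (nat_lit 1933) (nat_lit 372964484733569056)) (.cons (.rf (nat_lit 1933) (nat_lit 372964484733568064)) (.cons (.rf (nat_lit 2104) (nat_lit 372964484733569056)) (.cons (.rf (nat_lit 2104) (nat_lit 372964416081201184)) (.cons (.br (nat_lit 13) (nat_lit 0) (.cons (.br (nat_lit 12) (nat_lit 0) (.cons (.kr (nat_lit 79228162514264337593543950336) (nat_lit 20282409603651670423947251286016) (nat_lit 12) (nat_lit 0)) (.cons (.br (nat_lit 9) (nat_lit 1) (.cons (.rf (nat_lit 2105) (nat_lit 482283501371099168)) (.cons (.rf (nat_lit 2105) (nat_lit 482283501371098176)) (.cons (.rf (nat_lit 2106) (nat_lit 493858305440582043680)) (.cons (.rf (nat_lit 2106) (nat_lit 493858305371929675808)) .nil))))) (.cons (.kr (nat_lit 1208925819614629174706176) (nat_lit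 79228162514264337593543950336) (nat_lit 10) (nat_lit 0)) (.cons (.kr (nat_lit 309485009821345068724781056) (nat_lit 79228162514264337593543950336) (nat_lit 11) (nat_lit 0)) .nil))))) (.cons (.br (nat_lit 12) (nat_lit 0) (.cons (.br (nat_lit 9) (nat_lit 1) (.cons (.rf (nat_lit 2105) (nat_lit 482283501306087456)) (.cons (.rf (nat_lit 2105) (nat_lit 482283501306086464)) (.cons (.rf (nat_lit 2106) (nat_lit 493858305438436657184)) (.cons (.rf (nat_lit 2106) (nat_lit 493858305369784289312)) .nil))))) (.cons (.kr (nat_lit 79228162514264337593543950336) (nat_lit 20282409603651670423947251286016) (nat_lit 12) (nat_lit 0)) (.cons (.kr (nat_lit 1208925819614629174706176) (nat_lit 79228162514264337593543950336) (nat_lit 10) (nat_lit 0)) (.cons (.kr (nat_lit 309485009821345068724781056) (nat_lit 79228162514264337593543950336) (nat_lit 11) (nat_lit 0)) .nil))))) (.cons (.kr (nat_lit 1208925819614629174706176) (nat_lit 20282409603651670423947251286016) (nat_lit 10) (nat_lit 0)) (.cons (.kr (nat_lit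 309485009821345068724781056) (nat_lit 20282409603651670423947251286016) (nat_lit 11) (nat_lit 0)) .nil))))) .nil)))))),
 (.br (nat_lit 11) (nat_lit 1) (.cons (.rf (nat_lit 1933) (nat_lit 407901468851537952)) (.cons (.rf (nat_lit 1933) (nat_lit 407901468851536960)) (.cons (.rf (nat_lit 2104) (nat_lit 407901468851537952)) (.cons (.rf (nat_lit 2104) (nat_lit 407901400199170080)) (.cons (.br (nat_lit 12) (nat_lit 1) (.cons (.br (nat_lit 11) (nat_lit 1) (.cons (.rf (nat_lit 1933) (nat_lit 407901468851537952)) (.cons (.rf (nat_lit 1933) (nat_lit 407901468851536960)) (.cons (.rf (nat_lit 2104) (nat_lit 407901468851537952)) (.cons (.rf (nat_lit 2104) (nat_lit 407901400199170080)) (.cons (.br (nat_lit 10) (nat_lit 1) (.cons (.rf (nat_lit 1933) (nat_lit 372964484733569056)) (.cons (.rf (nat_lit 1933) (nat_lit 372964484733568064)) (.cons (.rf (nat_lit 2104) (nat_lit 372964484733569056)) (.cons (.rf (nat_lit 2104) (nat_lit 372964416081201184)) (.cons (.rf (nat_lit 2107) (nat_lit 493858305440582043680))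 (.cons (.rf (nat_lit 2107) (nat_lit 458117738797769787424)) .nil))))))) .nil)))))) .nil)) .nil)))))),
 (.br (nat_lit 4) (nat_lit 1) (.cons (.br (nat_lit 8) (nat_lit 1) (.cons (.kr (nat_lit 79228162514336395187581878528) (nat_lit 20282409603651670425046762979328) (nat_lit 1) (nat_lit 0)) .nil)) .nil)),
 (.br (nat_lit 2) (nat_lit 0) (.cons (.br (nat_lit 8) (nat_lit 1) (.cons (.kr (nat_lit 1099511628032) (nat_lit 4295032832) (nat_lit 1) (nat_lit 0)) (.cons (.br (nat_lit 9) (nat_lit 1) (.cons (.br (nat_lit 10) (nat_lit 0) (.cons (.br (nat_lit 10) (nat_lit 0) (.cons (.br (nat_lit 10) (nat_lit 0) (.cons (.br (nat_lit 5) (nat_lit 0) (.cons (.rf (nat_lit 2109) (nat_lit 379715598662628378656)) (.cons (.rf (nat_lit 2109) (nat_lit 379751627459646294048)) (.cons (.rf (nat_lit 2109) (nat_lit 379787655157153630240)) .nil)))) .nil)) .nil)) .nil)) .nil)) .nil))) .nil)),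
 (.br (nat_lit 8) (nat_lit 1) (.cons (.kr (nat_lit 79228162514336395187581878528) (nat_lit 20282409603651670425046762979328) (nat_lit 1) (nat_lit 0)) .nil)),
 (.br (nat_lit 7) (nat_lit 0) (.cons (.rf (nat_lit 2111) (nat_lit 493858305440582043680)) (.cons (.rf (nat_lit 2111) (nat_lit 493858303243706271776)) .nil))),
 (.br (nat_lit 11) (nat_lit 1) (.cons (.rf (nat_lit 2110) (nat_lit 387861022752)) (.cons (.br (nat_lit 4) (nat_lit 1) (.cons (.rf (nat_lit 2112) (nat_lit 493858305440582043680)) (.cons (.kr (nat_lit 79228162514264337593543950592) (nat_lit 4295032832) (nat_lit 1) (nat_lit 0)) .nil))) .nil))),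
 (.br (nat_lit 12) (nat_lit 0) (.cons (.kr (nat_lit 20361637766165934762640306864384) (nat_lit 72057602627928064) (nat_lit 1) (nat_lit 0)) .nil)),
 (.br (nat_lit 11) (nat_lit 1) (.cons (.rf (nat_lit 2110) (nat_lit 387861022752)) (.cons (.br (nat_lit 7) (nat_lit 0) (.cons (.br (nat_lit 6) (nat_lit 1) (.cons (.br (nat_lit 8) (nat_lit 1) (.cons (.zr (nat_lit 37109660929532887808) (nat_lit 310698658007724046833156097) (nat_lit 5) (nat_lit 0)) .nil)) (.cons (.br (nat_lit 2) (nat_lit 0) (.cons (.ev (nat_lit 20838247118032416297546512795396) (nat_lit 3)) .nil)) .nil))) (.cons (.br (nat_lit 8) (nat_lit 1) (.cons (.rf (nat_lit 2114) (nat_lit 493858305440582043680)) (.cons (.br (nat_lit 4) (nat_lit 1) (.cons (.ev (nat_lit 21313006785170719946729867772680) (nat_lit 4)) .nil)) .nil))) (.cons (.br (nat_lit 2) (nat_lit 0) (.cons (.br (nat_lit 6) (nat_lit 1) (.cons (.ev (nat_lit 20837014023177891716677345804548) (nat_lit 3)) .nil)) (.cons (.rf (nat_lit 2114) (nat_lit 493858303243706271776)) .nil)))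 .nil)))) .nil))),
 (.br (nat_lit 12) (nat_lit 0) (.cons (.br (nat_lit 2) (nat_lit 0) (.cons (.ev (nat_lit 20679169395798121416844604802820) (nat_lit 3)) .nil)) (.cons (.br (nat_lit 6) (nat_lit 1) (.cons (.ev (nat_lit 20838870923829123863926345368836) (nat_lit 3)) .nil)) .nil))),
 (.br (nat_lit 8) (nat_lit 1) (.cons (.rf (nat_lit 2113) (nat_lit 493820028142284277792)) (.cons (.br (nat_lit 10) (nat_lit 1) (.cons (.rf (nat_lit 2110) (nat_lit 353501284384)) (.cons (.br (nat_lit 7) (nat_lit 0) (.cons (.rf (nat_lit 2116) (nat_lit 493858305440582043680)) (.cons (.br (nat_lit 2) (nat_lit 0) (.cons (.rf (nat_lit 2116) (nat_lit 493675700581900262560)) (.cons (.rf (nat_lit 2114) (nat_lit 493750222348060035104)) .nil))) (.cons (.br (nat_lit 2) (nat_lit 0) (.cons (.rf (nat_lit 2116) (nat_lit 493675700581900262560)) (.cons (.rf (nat_lit 2114) (nat_lit 493750216855870605344)) .nil))) .nil)))) .nil))) .nil))),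
 (.br (nat_lit 13) (nat_lit 0) (.cons (.br (nat_lit 11) (nat_lit 1) (.cons (.rf (nat_lit 2113) (nat_lit 493858305440582043680)) (.cons (.rf (nat_lit 2115) (nat_lit 493858305440582043680)) (.cons (.br (nat_lit 11) (nat_lit 1) (.cons (.rf (nat_lit 2113) (nat_lit 493858305440582043680)) (.cons (.rf (nat_lit 2115) (nat_lit 493858305440582043680)) .nil))) .nil)))) (.cons (.br (nat_lit 8) (nat_lit 1) (.cons (.rf (nat_lit 2113) (nat_lit 493750222348060035104)) (.cons (.rf (nat_lit 2117) (nat_lit 493675700581900262560)) (.cons (.rf (nat_lit 2117) (nat_lit 493858305440582043680)) .nil)))) .nil))),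
 (.br (nat_lit 8) (nat_lit 1) (.cons (.kr (nat_lit 20361637766165934762640306864384) (nat_lit 72057602627928064) (nat_lit 1) (nat_lit 0)) .nil)),
 (.br (nat_lit 6) (nat_lit 1) (.cons (.rf (nat_lit 2110) (nat_lit 216062330912)) (.cons (.br (nat_lit 12) (nat_lit 0) (.cons (.br (nat_lit 7) (nat_lit 0) (.cons (.rf (nat_lit 2119) (nat_lit 493750222348060035104)) (.cons (.rf (nat_lit 2119) (nat_lit 493858305440582043680)) .nil))) (.cons (.kr (nat_lit 18446744073709551616) (nat_lit 79228162514264337593543950336) (nat_lit 8) (nat_lit 0)) (.cons (.br (nat_lit 4) (nat_lit 1) (.cons (.br (nat_lit 7) (nat_lit 0) (.cons (.ev (nat_lit 20678555280260831445577693071108) (nat_lit 3)) .nil)) (.cons (.br (nat_lit 2) (nat_lit 0) (.cons (.ev (nat_lit 20837632964900084321796713940228) (nat_lit 3)) .nil)) .nil))) .nil)))) .nil))),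
 (.br (nat_lit 13) (nat_lit 0) (.cons (.rf (nat_lit 2118) (nat_lit 493858305440582043680)) (.cons (.br (nat_lit 6) (nat_lit 1) (.cons (.rf (nat_lit 2113) (nat_lit 493678164756169590816)) (.cons (.rf (nat_lit 2120) (nat_lit 493858305440582043680)) (.cons (.br (nat_lit 6) (nat_lit 1) (.cons (.rf (nat_lit 2113) (nat_lit 493817776344618076192)) (.cons (.rf (nat_lit 2120) (nat_lit 493858305440582043680)) .nil))) .nil)))) .nil))),
 (.br (nat_lit 13) (nat_lit 0) (.cons (.rf (nat_lit 2118) (nat_lit 493858305440582043680)) (.cons (.rf (nat_lit 2121) (nat_lit 493858305440582043680)) (.cons (.br (nat_lit 13) (nat_lit 0) (.cons (.rf (nat_lit 2118) (nat_lit 493858305440582043680)) (.cons (.rf (nat_lit 2121) (nat_lit 493858305440582043680)) .nil))) .nil)))),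
 (.br (nat_lit 4) (nat_lit 1) (.cons (.rf (nat_lit 2110) (nat_lit 147342854176)) (.cons (.br (nat_lit 7) (nat_lit 0) (.cons (.rf (nat_lit 2112) (nat_lit 493815524544806488096)) (.cons (.rf (nat_lit 2112) (nat_lit 493815524542661101600)) (.cons (.rf (nat_lit 2112) (nat_lit 493815521244129364000)) .nil)))) .nil))),
 (.br (nat_lit 6) (nat_lit 1) (.cons (.kr (nat_lit 36965545741457031424) (nat_lit 20361637766165934762640306929664) (nat_lit 1) (nat_lit 0)) .nil))]

theorem c71 : chkAll C T R L71 (nat_lit 2096) = true := by decide +kernel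

theorem l71 : (nat_lit 2096) + L71.length = (nat_lit 2125) := by decide +kernel

/-- part of the certificates -/
def L72 : List Prf := [(.br (nat_lit 4) (nat_lit 1) (.cons (.rf (nat_lit 2110) (nat_lit 147342854176)) (.cons (.br (nat_lit 8) (nat_lit 1) (.cons (.rf (nat_lit 2122) (nat_lit 457935134111020910624)) (.cons (.rf (nat_lit 2122) (nat_lit 457935133939088006304)) (.cons (.br (nat_lit 7) (nat_lit 0) (.cons (.br (nat_lit 11) (nat_lit 1) (.cons (.ev (nat_lit 20997327277155394243245420118792) (nat_lit 4)) .nil)) (.cons (.rf (nat_lit 2124) (nat_lit 493858305440582043680)) .nil))) .nil)))) .nil))),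
 (.br (nat_lit 13) (nat_lit 0) (.cons (.rf (nat_lit 2122) (nat_lit 493858305440582043680)) (.cons (.br (nat_lit 4) (nat_lit 1) (.cons (.rf (nat_lit 2123) (nat_lit 493858305440582043680)) (.cons (.rf (nat_lit 2125) (nat_lit 493858305440582043680)) (.cons (.br (nat_lit 4) (nat_lit 1) (.cons (.rf (nat_lit 2123) (nat_lit 493858305440582043680)) (.cons (.rf (nat_lit 2125) (nat_lit 493858305440582043680)) .nil))) .nil)))) .nil))),
 (.br (nat_lit 13) (nat_lit 0) (.cons (.rf (nat_lit 2122) (nat_lit 493858305440582043680)) (.cons (.rf (nat_lit 2126) (nat_lit 493858305440582043680)) (.cons (.br (nat_lit 13) (nat_lit 0) (.cons (.rf (nat_lit 2122) (nat_lit 493858305440582043680)) (.cons (.rf (nat_lit 2126) (nat_lit 493858305440582043680)) .nil))) .nil)))),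
 (.br (nat_lit 13) (nat_lit 0) (.cons (.rf (nat_lit 2122) (nat_lit 493858305440582043680)) (.cons (.rf (nat_lit 2127) (nat_lit 493858305440582043680)) (.cons (.br (nat_lit 13) (nat_lit 0) (.cons (.rf (nat_lit 2122) (nat_lit 493858305440582043680)) (.cons (.rf (nat_lit 2127) (nat_lit 493858305440582043680)) .nil))) .nil)))),
 (.br (nat_lit 10) (nat_lit 1) (.cons (.rf (nat_lit 2110) (nat_lit 353501284384)) (.cons (.br (nat_lit 12) (nat_lit 1) (.cons (.br (nat_lit 13) (nat_lit 0) (.cons (.rf (nat_lit 2122) (nat_lit 493858305440582043680)) (.cons (.rf (nat_lit 2127) (nat_lit 493858305440582043680)) (.cons (.rf (nat_lit 2128) (nat_lit 493858305440582043680)) (.cons (.br (nat_lit 13) (nat_lit 0) (.cons (.rf (nat_lit 2122) (nat_lit 493858305440582043680)) (.cons (.rf (nat_lit 2127) (nat_lit 493858305440582043680)) (.cons (.rf (nat_lit 2128) (nat_lit 493858305440582043680)) .nil)))) .nil))))) .nil)) .nil))),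
 (.br (nat_lit 8) (nat_lit 1) (.cons (.rf (nat_lit 2129) (nat_lit 225296782102661152)) (.cons (.rf (nat_lit 2129) (nat_lit 225296610169756832)) (.cons (.br (nat_lit 13) (nat_lit 0) (.cons (.br (nat_lit 12) (nat_lit 0) (.cons (.kr (nat_lit 79228162514264337593543950336) (nat_lit 20282409603651670423947251286016) (nat_lit 12) (nat_lit 0)) (.cons (.kr (nat_lit 18446744073709551616) (nat_lit 79228162514264337593543950336) (nat_lit 8) (nat_lit 0)) (.cons (.kr (nat_lit 1208925819614629174706176) (nat_lit 79228162514264337593543950336) (nat_lit 10) (nat_lit 0)) .nil)))) (.cons (.kr (nat_lit 18446744073709551616) (nat_lit 20282409603651670423947251286016) (nat_lit 8) (nat_lit 0)) (.cons (.kr (nat_lit 1208925819614629174706176) (nat_lit 20282409603651670423947251286016) (nat_lit 10) (nat_lit 0)) .nil)))) .nil)))),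
 (.br (nat_lit 13) (nat_lit 0) (.cons (.kr (nat_lit 281474976710656) (nat_lit 20282409603651670423947251286016) (nat_lit 6) (nat_lit 0)) (.cons (.kr (nat_lit 18446744073709551616) (nat_lit 20282409603651670423947251286016) (nat_lit 8) (nat_lit 0)) (.cons (.kr (nat_lit 79228162514264337593543950336) (nat_lit 20282409603651670423947251286016) (nat_lit 12) (nat_lit 0)) .nil)))),
 (.br (nat_lit 8) (nat_lit 1) (.cons (.br (nat_lit 10) (nat_lit 1) (.cons (.br (nat_lit 11) (nat_lit 1) (.cons (.ev (nat_lit 40644977038513702343754662347010) (nat_lit 2)) .nil)) .nil)) (.cons (.rf (nat_lit 2131) (nat_lit 493858305440582043680)) .nil))),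
 (.br (nat_lit 8) (nat_lit 1) (.cons (.br (nat_lit 11) (nat_lit 1) (.cons (.br (nat_lit 10) (nat_lit 1) (.cons (.ev (nat_lit 40644360486382808547103596347394) (nat_lit 2)) .nil)) .nil)) (.cons (.rf (nat_lit 2131) (nat_lit 493858305440582043680)) .nil))),
 (.br (nat_lit 12) (nat_lit 0) (.cons (.br (nat_lit 13) (nat_lit 0) (.cons (.kr (nat_lit 18446744073709551616) (nat_lit 79228162514264337593543950336) (nat_lit 8) (nat_lit 0)) (.cons (.ev (nat_lit 79229376162450435092380647681) (nat_lit 1)) (.cons (.br (nat_lit 13) (nat_lit 0) (.cons (.kr (nat_lit 18446744073709551616) (nat_lit 79228162514264337593543950336) (nat_lit 8) (nat_lit 0)) (.cons (.ev (nat_lit 79229376162450435092380647681) (nat_lit 1)) .nil))) .nil)))) (.cons (.br (nat_lit 10) (nat_lit 1) (.cons (.rf (nat_lit 2132) (nat_lit 493858305440582043680)) (.cons (.rf (nat_lit 2133) (nat_lit 493858305440582043680)) (.cons (.br (nat_lit 10) (nat_lit 1) (.cons (.rf (nat_lit 2132) (nat_lit 493858305440582043680)) (.cons (.rf (nat_lit 2133)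 (nat_lit 493858305440582043680)) .nil))) .nil)))) .nil))),
 (.br (nat_lit 12) (nat_lit 0) (.cons (.rf (nat_lit 2134) (nat_lit 493858305440582043680)) (.cons (.br (nat_lit 13) (nat_lit 0) (.cons (.rf (nat_lit 2134) (nat_lit 458117738797769787424)) (.cons (.br (nat_lit 8) (nat_lit 1) (.cons (.ev (nat_lit 79229371440083953326542094593) (nat_lit 1)) (.cons (.ev (nat_lit 79229371440156009821068328961) (nat_lit 1)) (.cons (.ev (nat_lit 20282410817299856521446087983361) (nat_lit 1)) .nil)))) (.cons (.br (nat_lit 13) (nat_lit 0) (.cons (.rf (nat_lit 2134) (nat_lit 458117738797769787424)) (.cons (.kr (nat_lit 79228162514264337593543950336) (nat_lit 20282409603651670423947251286016) (nat_lit 12) (nat_lit 0)) .nil))) .nil)))) .nil))),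
 (.br (nat_lit 6) (nat_lit 1) (.cons (.ev (nat_lit 1103823438081) (nat_lit 1)) (.cons (.ev (nat_lit 72057598349672449) (nat_lit 1)) (.cons (.br (nat_lit 6) (nat_lit 1) (.cons (.ev (nat_lit 1103823438081) (nat_lit 1)) (.cons (.ev (nat_lit 72057598349672449) (nat_lit 1)) (.cons (.br (nat_lit 13) (nat_lit 1) (.cons (.br (nat_lit 12) (nat_lit 0) (.cons (.rf (nat_lit 2134) (nat_lit 493858305440582043680)) (.cons (.rf (nat_lit 2135) (nat_lit 493858305440582043680)) (.cons (.br (nat_lit 12) (nat_lit 0) (.cons (.rf (nat_lit 2134) (nat_lit 493858305440582043680)) (.cons (.rf (nat_lit 2135) (nat_lit 493858305440582043680)) .nil))) .nil)))) .nil)) .nil)))) .nil)))),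
 (.br (nat_lit 11) (nat_lit 1) (.cons (.kr (nat_lit 20361637766165934762640306864384) (nat_lit 72620543991414784) (nat_lit 1) (nat_lit 0)) .nil)),
 (.br (nat_lit 12) (nat_lit 0) (.cons (.kr (nat_lit 18446744073709551616) (nat_lit 20282409603651670423947251286016) (nat_lit 8) (nat_lit 0)) (.cons (.ev (nat_lit 20282410817299856521446087983361) (nat_lit 1)) (.cons (.br (nat_lit 10) (nat_lit 1) (.cons (.br (nat_lit 7) (nat_lit 0) (.cons (.ev (nat_lit 79228167255149622135231676673) (nat_lit 1)) (.cons (.br (nat_lit 5) (nat_lit 0) (.cons (.zr (nat_lit 216735732067401728) (nat_lit 310698676454186645565997057) (nat_lit 5) (nat_lit 0)) .nil)) .nil))) (.cons (.br (nat_lit 7) (nat_lit 0) (.cons (.br (nat_lit 2) (nat_lit 0) (.cons (.ev (nat_lit 20838863670274207299869327425796) (nat_lit 3)) .nil)) (.cons (.ev (nat_lit 20282410812577562096174775664641) (nat_lit 1)) .nil))) (.cons (.br (nat_lit 8) (nat_lit 1) (.cons (.br (nat_lit 11) (nat_lit 1) (.cons (.ev (nat_lit 20679174231501542866831383265540)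 (nat_lit 3)) .nil)) (.cons (.rf (nat_lit 2137) (nat_lit 493858305440582043680)) .nil))) .nil)))) .nil)))),
 (.br (nat_lit 10) (nat_lit 1) (.cons (.kr (nat_lit 20361637766165934762640306864384) (nat_lit 72620543991414784) (nat_lit 1) (nat_lit 0)) .nil)),
 (.br (nat_lit 7) (nat_lit 0) (.cons (.br (nat_lit 2) (nat_lit 0) (.cons (.kr (nat_lit 79228162551157826840474681600) (nat_lit 20282409603651743044491242700800) (nat_lit 1) (nat_lit 0)) .nil)) .nil)),
 (.br (nat_lit 12) (nat_lit 0) (.cons (.br (nat_lit 5) (nat_lit 0) (.cons (.br (nat_lit 7) (nat_lit 0) (.cons (.rf (nat_lit 2108) (nat_lit 112811073094360224)) (.cons (.rf (nat_lit 2139) (nat_lit 493858305440582043680)) .nil))) (.cons (.rf (nat_lit 2140) (nat_lit 493858305440582043680)) .nil))) (.cons (.br (nat_lit 10) (nat_lit 1) (.cons (.br (nat_lit 7) (nat_lit 0) (.cons (.br (nat_lit 11) (nat_lit 1) (.cons (.ev (nat_lit 20837630575419681588702274193156) (nat_lit 3)) .nil)) (.cons (.br (nat_lit 5) (nat_lit 0) (.cons (.zr (nat_lit 216735732067401728)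 (nat_lit 310698676454186645565997057) (nat_lit 5) (nat_lit 0)) .nil)) .nil))) (.cons (.br (nat_lit 8) (nat_lit 1) (.cons (.br (nat_lit 11) (nat_lit 1) (.cons (.ev (nat_lit 20680412180874737756924746859268) (nat_lit 3)) .nil)) (.cons (.ev (nat_lit 20282409608392483651994412646401) (nat_lit 1)) .nil))) (.cons (.br (nat_lit 2) (nat_lit 0) (.cons (.ev (nat_lit 79229376180969236760111349761) (nat_lit 1)) (.cons (.br (nat_lit 5) (nat_lit 0) (.cons (.zr (nat_lit 216735732067401728) (nat_lit 310698676454186645565997057) (nat_lit 5) (nat_lit 0)) .nil)) .nil))) .nil)))) (.cons (.br (nat_lit 5) (nat_lit 0) (.cons (.ev (nat_lit 20282719088679938795668485701633) (nat_lit 1)) (.cons (.br (nat_lit 7) (nat_lit 0) (.cons (.ev (nat_lit 309489732260168106913038593) (nat_lit 1)) (.cons (.rf (nat_lit 2108) (nat_lit 112811073094360224)) .nil))) .nil))) .nil)))),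
 (.br (nat_lit 5) (nat_lit 0) (.cons (.br (nat_lit 7) (nat_lit 0) (.cons (.ev (nat_lit 310693935641241177171230721) (nat_lit 1)) .nil)) (.cons (.br (nat_lit 7) (nat_lit 0) (.cons (.ev (nat_lit 310693935641241177171230721) (nat_lit 1)) .nil)) .nil))),
 (.br (nat_lit 12) (nat_lit 0) (.cons (.rf (nat_lit 2141) (nat_lit 493858305440582043680)) (.cons (.br (nat_lit 6) (nat_lit 1) (.cons (.rf (nat_lit 2142) (nat_lit 493858305440582043680)) (.cons (.br (nat_lit 7) (nat_lit 0) (.cons (.br (nat_lit 11) (nat_lit 1) (.cons (.ev (nat_lit 310698658152404392509243650) (nat_lit 2)) .nil)) (.cons (.br (nat_lit 2) (nat_lit 0) (.cons (.ev (nat_lit 79538870635667947534059307010) (nat_lit 2)) .nil)) .nil))) (.cons (.br (nat_lit 10) (nat_lit 1) (.cons (.br (nat_lit 5) (nat_lit 0) (.cons (.ev (nat_lit 79538870635667947534059307010) (nat_lit 2)) .nil)) (.cons (.br (nat_lit 2) (nat_lit 0) (.cons (.ev (nat_lit 158767033168307533466273252098) (nat_lit 2)) .nil)) .nil))) .nil)))) (.cons (.br (nat_lit 5) (nat_lit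 0) (.cons (.br (nat_lit 7) (nat_lit 0) (.cons (.br (nat_lit 10) (nat_lit 1) (.cons (.ev (nat_lit 80160249062217464149077787138) (nat_lit 2)) .nil)) .nil)) (.cons (.br (nat_lit 7) (nat_lit 0) (.cons (.br (nat_lit 10) (nat_lit 1) (.cons (.ev (nat_lit 80160249062217464149077787138) (nat_lit 2)) .nil)) (.cons (.rf (nat_lit 2108) (nat_lit 112811073094360224)) .nil))) .nil))) .nil)))),
 (.br (nat_lit 12) (nat_lit 0) (.cons (.rf (nat_lit 2141) (nat_lit 493858305440582043680)) (.cons (.rf (nat_lit 2143) (nat_lit 493858305440582043680)) (.cons (.br (nat_lit 10) (nat_lit 1) (.cons (.br (nat_lit 7) (nat_lit 0) (.cons (.br (nat_lit 5) (nat_lit 0) (.cons (.ev (nat_lit 79541288487307176800998785538) (nat_lit 2)) .nil)) (.cons (.br (nat_lit 6) (nat_lit 1) (.cons (.ev (nat_lit 79541288487307176800998785538) (nat_lit 2)) .nil)) .nil))) (.cons (.br (nat_lit 8) (nat_lit 1) (.cons (.ev (nat_lit 79229371458530697395956613121) (nat_lit 1)) (.cons (.ev (nat_lit 20282409608392483651994412646401) (nat_lit 1))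 .nil))) (.cons (.br (nat_lit 6) (nat_lit 1) (.cons (.br (nat_lit 5) (nat_lit 0) (.cons (.zr (nat_lit 618970019642693435984642048) (nat_lit 1213666633123051817926657) (nat_lit 5) (nat_lit 0)) .nil)) (.cons (.zr (nat_lit 20282719093384002367077992103936) (nat_lit 158457533954348290915774234625) (nat_lit 5) (nat_lit 9)) .nil))) .nil)))) .nil)))),
 (.br (nat_lit 13) (nat_lit 0) (.cons (.br (nat_lit 12) (nat_lit 0) (.cons (.rf (nat_lit 2138) (nat_lit 493858305440582043680)) (.cons (.kr (nat_lit 18446744073709551616) (nat_lit 20282409603651670423947251286016) (nat_lit 8) (nat_lit 0)) (.cons (.ev (nat_lit 20282410817299856521446087983361) (nat_lit 1)) (.cons (.br (nat_lit 12) (nat_lit 0) (.cons (.rf (nat_lit 2138) (nat_lit 493858305440582043680)) (.cons (.kr (nat_lit 18446744073709551616) (nat_lit 20282409603651670423947251286016) (nat_lit 8) (nat_lit 0)) (.cons (.ev (nat_lit 20282410817299856521446087983361) (nat_lit 1)) .nil)))) .nil))))) (.cons (.br (nat_lit 12) (nat_lit 0) (.cons (.rf (nat_lit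 2141) (nat_lit 493858305440582043680)) (.cons (.rf (nat_lit 2143) (nat_lit 493858305440582043680)) (.cons (.rf (nat_lit 2144) (nat_lit 493858305440582043680)) (.cons (.br (nat_lit 12) (nat_lit 0) (.cons (.rf (nat_lit 2141) (nat_lit 493858305440582043680)) (.cons (.rf (nat_lit 2143) (nat_lit 493858305440582043680)) (.cons (.rf (nat_lit 2144) (nat_lit 493858305440582043680)) .nil)))) .nil))))) .nil))),
 (.br (nat_lit 13) (nat_lit 0) (.cons (.rf (nat_lit 2145) (nat_lit 493858305440582043680)) (.cons (.br (nat_lit 13) (nat_lit 0) (.cons (.rf (nat_lit 2145) (nat_lit 493858305440582043680)) (.cons (.rf (nat_lit 2145) (nat_lit 493675700685180799008)) .nil))) (.cons (.br (nat_lit 13) (nat_lit 0) (.cons (.rf (nat_lit 2145) (nat_lit 493858305440582043680)) (.cons (.rf (nat_lit 2145) (nat_lit 493675700685180799008)) .nil))) .nil)))),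
 (.br (nat_lit 13) (nat_lit 0) (.cons (.rf (nat_lit 2146) (nat_lit 493858305440582043680)) (.cons (.br (nat_lit 13) (nat_lit 0) (.cons (.rf (nat_lit 2146) (nat_lit 493858305440582043680)) (.cons (.rf (nat_lit 2146) (nat_lit 493675700685180799008)) .nil))) (.cons (.rf (nat_lit 2146) (nat_lit 493675700685180799008)) .nil)))),
 (.br (nat_lit 4) (nat_lit 1) (.cons (.rf (nat_lit 2136) (nat_lit 407901468851537952)) (.cons (.rf (nat_lit 2136) (nat_lit 225296713450293280)) (.cons (.br (nat_lit 12) (nat_lit 1) (.cons (.br (nat_lit 13) (nat_lit 0) (.cons (.rf (nat_lit 2146) (nat_lit 493858305440582043680)) (.cons (.rf (nat_lit 2147) (nat_lit 493858305440582043680)) (.cons (.rf (nat_lit 2147) (nat_lit 493675700685180799008)) (.cons (.rf (nat_lit 2146) (nat_lit 493675700685180799008)) .nil))))) .nil)) .nil)))),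
 (.br (nat_lit 12) (nat_lit 0) (.cons (.kr (nat_lit 18446744073709551616) (nat_lit 20282409603651670423947251286016) (nat_lit 8) (nat_lit 0)) (.cons (.ev (nat_lit 20282410817299856521446087983361) (nat_lit 1)) (.cons (.br (nat_lit 11) (nat_lit 1) (.cons (.br (nat_lit 7) (nat_lit 0) (.cons (.ev (nat_lit 309489750634854586567884801) (nat_lit 1)) (.cons (.br (nat_lit 8) (nat_lit 1) (.cons (.ev (nat_lit 20837011605325964252653388497668) (nat_lit 3)) .nil)) .nil))) (.cons (.ev (nat_lit 20282719088661564109188797300993) (nat_lit 1)) .nil))) .nil)))),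
 (.br (nat_lit 10) (nat_lit 1) (.cons (.br (nat_lit 8) (nat_lit 1) (.cons (.ev (nat_lit 1213648186098598331613441) (nat_lit 1)) (.cons (.br (nat_lit 11) (nat_lit 1) (.cons (.br (nat_lit 6) (nat_lit 1) (.cons (.zr (nat_lit 237684487543009748512699252736) (nat_lit 310698731794418866694651905) (nat_lit 5) (nat_lit 0)) .nil)) (.cons (.br (nat_lit 2) (nat_lit 0) (.cons (.ev (nat_lit 79538861227612856820082868994) (nat_lit 2)) .nil)) .nil))) .nil))) (.cons (.br (nat_lit 12) (nat_lit 0) (.cons (.br (nat_lit 11) (nat_lit 1) (.cons (.ev (nat_lit 20361947251175756389188320100353) (nat_lit 1)) (.cons (.br (nat_lit 8) (nat_lit 1) (.cons (.ev (nat_lit 20520098955269195132655297300228) (nat_lit 3)) .nil)) .nil))) (.cons (.br (nat_lit 6) (nat_lit 1) (.cons (.br (nat_lit 11) (nat_lit 1) (.cons (.ev (nat_lit 158767033131485541053893705730) (nat_lit 2)) .nil)) (.cons (.br (nat_lit 2) (nat_lit 0) (.cons (.ev (nat_lit 310693935713299870720721153) (nat_lit 1)) .nil)) .nil))) (.cons (.br (nat_lit 2) (nat_lit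 0) (.cons (.br (nat_lit 8) (nat_lit 1) (.cons (.ev (nat_lit 20837632964863191959540611875588) (nat_lit 3)) .nil)) (.cons (.br (nat_lit 7) (nat_lit 0) (.cons (.ev (nat_lit 20520713070769592746047040717060) (nat_lit 3)) .nil)) .nil))) .nil)))) .nil))),
 (.br (nat_lit 10) (nat_lit 1) (.cons (.rf (nat_lit 2150) (nat_lit 493858305440582043680)) (.cons (.br (nat_lit 6) (nat_lit 1) (.cons (.br (nat_lit 11) (nat_lit 1) (.cons (.br (nat_lit 8) (nat_lit 1) (.cons (.ev (nat_lit 80160258543771296383694471938) (nat_lit 2)) .nil)) (.cons (.zr (nat_lit 61005685135983684063316429243136) (nat_lit 929668677650695659259428865) (nat_lit 5) (nat_lit 0)) .nil))) (.cons (.ev (nat_lit 20361638975091754376174264910081) (nat_lit 1)) .nil))) .nil))),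
 (.br (nat_lit 13) (nat_lit 0) (.cons (.br (nat_lit 12) (nat_lit 0) (.cons (.rf (nat_lit 2149) (nat_lit 493858305440582043680)) (.cons (.kr (nat_lit 18446744073709551616) (nat_lit 20282409603651670423947251286016) (nat_lit 8) (nat_lit 0)) (.cons (.ev (nat_lit 20282410817299856521446087983361) (nat_lit 1)) (.cons (.br (nat_lit 12) (nat_lit 0) (.cons (.rf (nat_lit 2149) (nat_lit 493858305440582043680)) (.cons (.kr (nat_lit 18446744073709551616) (nat_lit 20282409603651670423947251286016) (nat_lit 8) (nat_lit 0)) (.cons (.ev (nat_lit 20282410817299856521446087983361) (nat_lit 1)) .nil)))) .nil))))) (.cons (.br (nat_lit 10) (nat_lit 1) (.cons (.rf (nat_lit 2150) (nat_lit 493858305440582043680)) (.cons (.rf (nat_lit 2151) (nat_lit 493858305440582043680)) (.cons (.br (nat_lit 10) (nat_lit 1) (.cons (.rf (nat_lit 2150) (nat_lit 493858305440582043680)) (.cons (.rf (nat_lit 2151) (nat_lit 493858305440582043680)) .nil))) .nil)))) .nil)))]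

theorem c72 : chkAll C T R L72 (nat_lit 2125) = true := by decide +kernel

theorem l72 : (nat_lit 2125) + L72.length = (nat_lit 2153) := by decide +kernel

/-- part of the certificates -/
def L73 : List Prf := [(.br (nat_lit 12) (nat_lit 0) (.cons (.kr (nat_lit 20361637766166006819134833164544) (nat_lit 618970019642691236961255424) (nat_lit 1) (nat_lit 0)) .nil)),
 (.br (nat_lit 10) (nat_lit 1) (.cons (.kr (nat_lit 20361637766166006819134833164544) (nat_lit 618970019642691236961255424) (nat_lit 1) (nat_lit 0)) .nil)),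
 (.br (nat_lit 8) (nat_lit 1) (.cons (.br (nat_lit 10) (nat_lit 1) (.cons (.ev (nat_lit 20282410812577562096174775664641) (nat_lit 1)) (.cons (.br (nat_lit 2) (nat_lit 0) (.cons (.rf (nat_lit 2153) (nat_lit 493858305440582043680)) (.cons (.br (nat_lit 6) (nat_lit 1) (.cons (.ev (nat_lit 79541288524129169196198199554) (nat_lit 2)) .nil)) .nil))) .nil))) (.cons (.br (nat_lit 11) (nat_lit 1) (.cons (.br (nat_lit 6) (nat_lit 1) (.cons (.ev (nat_lit 40565128706498780725818744242690) (nat_lit 2)) (.cons (.ev (nat_lit 20361947251175756389188320100353) (nat_lit 1)) .nil))) (.cons (.br (nat_lit 6) (nat_lit 1) (.cons (.ev (nat_lit 309485028340429315255566593) (nat_lit 1)) (.cons (.ev (nat_lit 309489750634854586567884801) (nat_lit 1)) .nil))) (.cons (.br (nat_lit 6) (nat_lit 1) (.cons (.rf (nat_lit 2154) (nat_lit 493858305440582043680)) (.cons (.ev (nat_lit 309489750634854586567884801) (nat_lit 1)) .nil))) .nil)))) .nil))),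
 (.br (nat_lit 10) (nat_lit 1) (.cons (.ev (nat_lit 20282410812577562096174775664641) (nat_lit 1)) (.cons (.br (nat_lit 8) (nat_lit 1) (.cons (.rf (nat_lit 2155) (nat_lit 493858305440582043680)) (.cons (.br (nat_lit 11) (nat_lit 1) (.cons (.br (nat_lit 2) (nat_lit 0) (.cons (.ev (nat_lit 79541288524129169196198199554) (nat_lit 2)) .nil)) .nil)) .nil))) .nil))),
 (.br (nat_lit 13) (nat_lit 0) (.cons (.rf (nat_lit 2152) (nat_lit 493858305440582043680)) (.cons (.br (nat_lit 8) (nat_lit 1) (.cons (.rf (nat_lit 2155) (nat_lit 493858305440582043680)) (.cons (.rf (nat_lit 2156) (nat_lit 493858305440582043680)) (.cons (.br (nat_lit 8) (nat_lit 1) (.cons (.rf (nat_lit 2155) (nat_lit 493858305440582043680)) (.cons (.rf (nat_lit 2156) (nat_lit 493858305440582043680)) .nil))) .nil)))) .nil))),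
 (.br (nat_lit 13) (nat_lit 0) (.cons (.rf (nat_lit 2152) (nat_lit 493858305440582043680)) (.cons (.rf (nat_lit 2157) (nat_lit 493858305440582043680)) (.cons (.br (nat_lit 13) (nat_lit 0) (.cons (.rf (nat_lit 2152) (nat_lit 493858305440582043680)) (.cons (.rf (nat_lit 2157) (nat_lit 493858305440582043680)) .nil))) .nil)))),
 (.br (nat_lit 12) (nat_lit 0) (.cons (.ev (nat_lit 20282409608392483650890622828801) (nat_lit 1)) (.cons (.kr (nat_lit 1208925819614629174706176) (nat_lit 20282409603651670423947251286016) (nat_lit 10) (nat_lit 0)) (.cons (.br (nat_lit 6) (nat_lit 1) (.cons (.br (nat_lit 8) (nat_lit 1) (.cons (.rf (nat_lit 2154) (nat_lit 493858303243706271776)) (.cons (.ev (nat_lit 309489750634854586567884801) (nat_lit 1)) .nil))) (.cons (.ev (nat_lit 20282719088661564109188797300993) (nat_lit 1)) .nil))) .nil)))),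
 (.br (nat_lit 13) (nat_lit 0) (.cons (.rf (nat_lit 2158) (nat_lit 493858305440582043680)) (.cons (.br (nat_lit 12) (nat_lit 0) (.cons (.rf (nat_lit 2159) (nat_lit 493858305440582043680)) (.cons (.ev (nat_lit 20282409608392483650890622828801) (nat_lit 1)) (.cons (.kr (nat_lit 1208925819614629174706176) (nat_lit 20282409603651670423947251286016) (nat_lit 10) (nat_lit 0)) (.cons (.br (nat_lit 12) (nat_lit 0) (.cons (.rf (nat_lit 2159) (nat_lit 493858305440582043680)) (.cons (.ev (nat_lit 20282409608392483650890622828801) (nat_lit 1)) (.cons (.kr (nat_lit 1208925819614629174706176) (nat_lit 20282409603651670423947251286016) (nat_lit 10) (nat_lit 0)) .nil)))) .nil))))) .nil))),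
 (.br (nat_lit 13) (nat_lit 0) (.cons (.rf (nat_lit 2158) (nat_lit 493858305440582043680)) (.cons (.rf (nat_lit 2160) (nat_lit 493858305440582043680)) (.cons (.br (nat_lit 13) (nat_lit 0) (.cons (.rf (nat_lit 2158) (nat_lit 493858305440582043680)) (.cons (.rf (nat_lit 2160) (nat_lit 493858305440582043680)) .nil))) .nil)))),
 (.br (nat_lit 13) (nat_lit 0) (.cons (.rf (nat_lit 2158) (nat_lit 493858305440582043680)) (.cons (.rf (nat_lit 2161) (nat_lit 493858305440582043680)) (.cons (.br (nat_lit 13) (nat_lit 0) (.cons (.rf (nat_lit 2158) (nat_lit 493858305440582043680)) (.cons (.rf (nat_lit 2161) (nat_lit 493858305440582043680)) .nil))) .nil)))),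
 (.br (nat_lit 4) (nat_lit 1) (.cons (.rf (nat_lit 2148) (nat_lit 407901468851537952)) (.cons (.rf (nat_lit 2108) (nat_lit 299712654500568224)) (.cons (.br (nat_lit 12) (nat_lit 1) (.cons (.br (nat_lit 13) (nat_lit 0) (.cons (.rf (nat_lit 2158) (nat_lit 493858305440582043680)) (.cons (.rf (nat_lit 2161) (nat_lit 493858305440582043680)) (.cons (.rf (nat_lit 2162) (nat_lit 493858305440582043680)) (.cons (.br (nat_lit 13) (nat_lit 0) (.cons (.rf (nat_lit 2158) (nat_lit 493858305440582043680)) (.cons (.rf (nat_lit 2161) (nat_lit 493858305440582043680)) (.cons (.rf (nat_lit 2162) (nat_lit 493858305440582043680)) .nil)))) .nil))))) .nil)) .nil)))),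
 (.br (nat_lit 10) (nat_lit 1) (.cons (.ev (nat_lit 80160249099110952287906824194) (nat_lit 2)) .nil)),
 (.br (nat_lit 11) (nat_lit 1) (.cons (.ev (nat_lit 4722438541563211612161) (nat_lit 1)) (.cons (.br (nat_lit 5) (nat_lit 0) (.cons (.br (nat_lit 10) (nat_lit 1) (.cons (.ev (nat_lit 79537647524085965236773912833) (nat_lit 1)) (.cons (.ev (nat_lit 20282719088661492051590481248513) (nat_lit 1)) .nil))) (.cons (.br (nat_lit 6) (nat_lit 1) (.cons (.rf (nat_lit 2164) (nat_lit 493858305440582043680)) (.cons (.rf (nat_lit 2164) (nat_lit 458117738797769787424)) .nil))) .nil))) .nil))),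
 (.br (nat_lit 11) (nat_lit 1) (.cons (.rf (nat_lit 2108) (nat_lit 114991403579579552)) (.cons (.br (nat_lit 13) (nat_lit 0) (.cons (.br (nat_lit 10) (nat_lit 1) (.cons (.ev (nat_lit 158767033149932285123308486914) (nat_lit 2)) .nil)) (.cons (.br (nat_lit 6) (nat_lit 1) (.cons (.ev (nat_lit 79538870635667947534059307010) (nat_lit 2)) .nil)) .nil))) .nil))),
 (.br (nat_lit 11) (nat_lit 1) (.cons (.rf (nat_lit 2108) (nat_lit 114991403579579552)) (.cons (.br (nat_lit 6) (nat_lit 1) (.cons (.br (nat_lit 13) (nat_lit 0) (.cons (.ev (nat_lit 79538870635667947534059307010) (nat_lit 2)) .nil)) (.cons (.br (nat_lit 5) (nat_lit 0) (.cons (.ev (nat_lit 158767033149932285123308486914) (nat_lit 2)) .nil)) .nil))) .nil))),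
 (.br (nat_lit 12) (nat_lit 0) (.cons (.kr (nat_lit 79228162514264337593543950592) (nat_lit 4295032832) (nat_lit 1) (nat_lit 0)) (.cons (.br (nat_lit 11) (nat_lit 1) (.cons (.rf (nat_lit 2166) (nat_lit 493858305440582043680)) (.cons (.rf (nat_lit 2167) (nat_lit 493858305440582043680)) (.cons (.br (nat_lit 11) (nat_lit 1) (.cons (.rf (nat_lit 2166) (nat_lit 493858305440582043680)) (.cons (.rf (nat_lit 2167) (nat_lit 493858305440582043680)) .nil))) .nil)))) (.cons (.ev (nat_lit 79228167236630820467500974081) (nat_lit 1)) .nil)))),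
 (.br (nat_lit 8) (nat_lit 1) (.cons (.br (nat_lit 11) (nat_lit 1) (.cons (.ev (nat_lit 20361948464879283280763039121410) (nat_lit 2)) .nil)) (.cons (.br (nat_lit 11) (nat_lit 1) (.cons (.ev (nat_lit 20520404799352544921680793960450) (nat_lit 2)) .nil)) .nil))),
 (.br (nat_lit 13) (nat_lit 0) (.cons (.rf (nat_lit 2169) (nat_lit 493858305440582043680)) (.cons (.br (nat_lit 7) (nat_lit 0) (.cons (.br (nat_lit 5) (nat_lit 0) (.cons (.ev (nat_lit 80160249099110952287906824194) (nat_lit 2)) .nil)) (.cons (.br (nat_lit 8) (nat_lit 1) (.cons (.ev (nat_lit 80160249099110952287906824194) (nat_lit 2)) .nil)) .nil))) .nil))),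
 (.br (nat_lit 12) (nat_lit 0) (.cons (.br (nat_lit 11) (nat_lit 1) (.cons (.br (nat_lit 7) (nat_lit 0) (.cons (.ev (nat_lit 79228167236702879161050464513) (nat_lit 1)) (.cons (.ev (nat_lit 4722438541563211612161) (nat_lit 1)) (.cons (.rf (nat_lit 2108) (nat_lit 114991403579579552)) .nil)))) (.cons (.br (nat_lit 5) (nat_lit 0) (.cons (.ev (nat_lit 79228167236702879161050464513) (nat_lit 1)) (.cons (.ev (nat_lit 4722438541563211612161) (nat_lit 1)) (.cons (.rf (nat_lit 2108) (nat_lit 114991403579579552)) .nil)))) (.cons (.br (nat_lit 13) (nat_lit 0) (.cons (.ev (nat_lit 20361637770888301244410457227521) (nat_lit 1)) (.cons (.ev (nat_lit 20282409608374036906821208309761) (nat_lit 1)) .nil))) .nil)))) (.cons (.kr (nat_lit 79228162514264337593543950592) (nat_lit 4295032832) (nat_lit 1) (nat_lit 0)) (.cons (.br (nat_lit 13) (nat_lit 0) (.cons (.rf (nat_lit 2170) (nat_lit 493858305440582043680)) (.cons (.br (nat_lit 13) (nat_lit 0) (.cons (.rf (nat_lit 2169) (nat_lit 493858305440582043680))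 (.cons (.ev (nat_lit 20282409608374036906821208309761) (nat_lit 1)) .nil))) (.cons (.br (nat_lit 13) (nat_lit 0) (.cons (.rf (nat_lit 2170) (nat_lit 493858305440582043680)) (.cons (.ev (nat_lit 20282409608374036906821208309761) (nat_lit 1)) .nil))) .nil)))) .nil)))),
 (.br (nat_lit 6) (nat_lit 1) (.cons (.br (nat_lit 8) (nat_lit 1) (.cons (.br (nat_lit 11) (nat_lit 1) (.cons (.ev (nat_lit 79228167236702879161050464513) (nat_lit 1)) (.cons (.br (nat_lit 11) (nat_lit 1) (.cons (.ev (nat_lit 79537647524085965236773912833) (nat_lit 1)) .nil)) .nil))) (.cons (.br (nat_lit 7) (nat_lit 0) (.cons (.ev (nat_lit 1213666632842676336066561) (nat_lit 1)) (.cons (.br (nat_lit 13) (nat_lit 0) (.cons (.br (nat_lit 12) (nat_lit 0) (.cons (.ev (nat_lit 79538861227612856820082868994) (nat_lit 2)) .nil)) (.cons (.br (nat_lit 10) (nat_lit 1) (.cons (.ev (nat_lit 79538870635667947534059307010) (nat_lit 2)) .nil)) .nil))) .nil))) .nil))) (.cons (.br (nat_lit 8) (nat_lit 1) (.cons (.br (nat_lit 11) (nat_lit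 1) (.cons (.ev (nat_lit 79228167236702879161050464513) (nat_lit 1)) (.cons (.br (nat_lit 11) (nat_lit 1) (.cons (.ev (nat_lit 309489732188110517153366273) (nat_lit 1)) .nil)) .nil))) (.cons (.br (nat_lit 5) (nat_lit 0) (.cons (.br (nat_lit 13) (nat_lit 0) (.cons (.br (nat_lit 11) (nat_lit 1) (.cons (.ev (nat_lit 477225904070945580898888778500) (nat_lit 3)) .nil)) .nil)) (.cons (.br (nat_lit 13) (nat_lit 0) (.cons (.br (nat_lit 12) (nat_lit 0) (.cons (.ev (nat_lit 79538870672489939946438853378) (nat_lit 2)) .nil)) (.cons (.br (nat_lit 10) (nat_lit 1) (.cons (.ev (nat_lit 79538870635667947534059307010) (nat_lit 2)) .nil)) .nil))) .nil))) .nil))) (.cons (.rf (nat_lit 2171) (nat_lit 493858305440582043680)) (.cons (.rf (nat_lit 2171) (nat_lit 458117738797769787424)) .nil))))),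
 (.br (nat_lit 8) (nat_lit 1) (.cons (.ev (nat_lit 1208944266358702884323329) (nat_lit 1)) (.cons (.br (nat_lit 13) (nat_lit 0) (.cons (.br (nat_lit 12) (nat_lit 0) (.cons (.ev (nat_lit 310708121259492557711409410) (nat_lit 2)) .nil)) (.cons (.br (nat_lit 6) (nat_lit 1) (.cons (.ev (nat_lit 310708121259492557711409410) (nat_lit 2)) .nil)) .nil))) .nil))),
 (.br (nat_lit 8) (nat_lit 1) (.cons (.ev (nat_lit 1208944266358702884323329) (nat_lit 1)) (.cons (.br (nat_lit 13) (nat_lit 0) (.cons (.br (nat_lit 11) (nat_lit 1) (.cons (.ev (nat_lit 79541279042502715318112157954) (nat_lit 2)) .nil)) (.cons (.br (nat_lit 7) (nat_lit 0) (.cons (.ev (nat_lit 79538870672489939946438853378) (nat_lit 2)) .nil)) .nil))) .nil))),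
 (.br (nat_lit 8) (nat_lit 1) (.cons (.rf (nat_lit 2173) (nat_lit 493858305440582043680)) (.cons (.rf (nat_lit 2174) (nat_lit 493858305440582043680)) (.cons (.br (nat_lit 8) (nat_lit 1) (.cons (.rf (nat_lit 2173) (nat_lit 493858305440582043680)) (.cons (.rf (nat_lit 2174) (nat_lit 493858305440582043680)) .nil))) .nil)))),
 (.br (nat_lit 10) (nat_lit 1) (.cons (.ev (nat_lit 4722438541563211612161) (nat_lit 1)) (.cons (.rf (nat_lit 2175) (nat_lit 493858305440582043680)) (.cons (.rf (nat_lit 2175) (nat_lit 458117738797769787424)) .nil)))),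
 (.br (nat_lit 8) (nat_lit 1) (.cons (.ev (nat_lit 1208944266358702884323329) (nat_lit 1)) (.cons (.br (nat_lit 11) (nat_lit 1) (.cons (.br (nat_lit 13) (nat_lit 0) (.cons (.ev (nat_lit 20520407217167290662791724269570) (nat_lit 2)) .nil)) (.cons (.br (nat_lit 12) (nat_lit 0) (.cons (.ev (nat_lit 20520404789907811955941536956930) (nat_lit 2)) .nil)) .nil))) .nil))),
 (.br (nat_lit 8) (nat_lit 1) (.cons (.ev (nat_lit 1208944266358702884323329) (nat_lit 1)) (.cons (.br (nat_lit 13) (nat_lit 0) (.cons (.br (nat_lit 5) (nat_lit 0) (.cons (.ev (nat_lit 79541288487235681057369162498) (nat_lit 2)) .nil)) (.cons (.br (nat_lit 6) (nat_lit 1) (.cons (.ev (nat_lit 79538861227756974207181848834) (nat_lit 2)) .nil)) .nil))) .nil))),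
 (.br (nat_lit 8) (nat_lit 1) (.cons (.rf (nat_lit 2177) (nat_lit 493858305440582043680)) (.cons (.rf (nat_lit 2178) (nat_lit 493858305440582043680)) (.cons (.br (nat_lit 8) (nat_lit 1) (.cons (.rf (nat_lit 2177) (nat_lit 493858305440582043680)) (.cons (.rf (nat_lit 2178) (nat_lit 493858305440582043680)) .nil))) .nil)))),
 (.br (nat_lit 10) (nat_lit 1) (.cons (.ev (nat_lit 4722438541563211612161) (nat_lit 1)) (.cons (.rf (nat_lit 2179) (nat_lit 493858305440582043680)) (.cons (.rf (nat_lit 2179) (nat_lit 458117738797769787424)) .nil)))),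
 (.br (nat_lit 8) (nat_lit 1) (.cons (.rf (nat_lit 2180) (nat_lit 493675700685180799008)) (.cons (.rf (nat_lit 2176) (nat_lit 493675700685180799008)) (.cons (.ev (nat_lit 1213666632841572546248961) (nat_lit 1)) .nil)))),
 (.br (nat_lit 10) (nat_lit 1) (.cons (.rf (nat_lit 2176) (nat_lit 493858305440582043680)) (.cons (.rf (nat_lit 2180) (nat_lit 493858305440582043680)) (.cons (.br (nat_lit 8) (nat_lit 1) (.cons (.rf (nat_lit 2180) (nat_lit 493675700685180799008)) (.cons (.rf (nat_lit 2176) (nat_lit 493675700685180799008)) (.cons (.rf (nat_lit 2181) (nat_lit 493858305440582043680)) (.cons (.rf (nat_lit 2181) (nat_lit 458117738797769787424)) .nil))))) .nil)))),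
 (.br (nat_lit 2) (nat_lit 0) (.cons (.br (nat_lit 8) (nat_lit 1) (.cons (.rf (nat_lit 2163) (nat_lit 154365980152437920)) (.cons (.br (nat_lit 11) (nat_lit 1) (.cons (.ev (nat_lit 4722438541563211612161) (nat_lit 1)) (.cons (.rf (nat_lit 2165) (nat_lit 493858305440582043680)) (.cons (.rf (nat_lit 2165) (nat_lit 458117738797769787424)) .nil)))) (.cons (.rf (nat_lit 2168) (nat_lit 493858305440582043680)) (.cons (.rf (nat_lit 2168) (nat_lit 458117738797769787424)) .nil))))) (.cons (.br (nat_lit 12) (nat_lit 0) (.cons (.rf (nat_lit 2171) (nat_lit 493858305440582043680)) (.cons (.rf (nat_lit 2172) (nat_lit 493858305440582043680)) (.cons (.br (nat_lit 12) (nat_lit 0) (.cons (.kr (nat_lit 79228162514264337593543950592) (nat_lit 4295032832) (nat_lit 1) (nat_lit 0)) (.cons (.rf (nat_lit 2172) (nat_lit 493858305440582043680)) (.cons (.ev (nat_lit 79228167236630820467500974081) (nat_lit 1)) .nil)))) (.cons (.br (nat_lit 12) (nat_lit 0) (.cons (.rf (nat_lit 2171) (nat_lit 493858305440582043680))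 (.cons (.rf (nat_lit 2172) (nat_lit 493858305440582043680)) (.cons (.ev (nat_lit 79228167236630820467500974081) (nat_lit 1)) .nil)))) .nil))))) (.cons (.br (nat_lit 10) (nat_lit 1) (.cons (.rf (nat_lit 2176) (nat_lit 493858305440582043680)) (.cons (.rf (nat_lit 2180) (nat_lit 493858305440582043680)) (.cons (.rf (nat_lit 2182) (nat_lit 493858305440582043680)) (.cons (.rf (nat_lit 2182) (nat_lit 458117738797769787424)) .nil))))) .nil))))]

theorem c73 : chkAll C T R L73 (nat_lit 2153) = true := by decide +kernel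

theorem l73 : (nat_lit 2153) + L73.length = (nat_lit 2184) := by decide +kernel

/-- part of the certificates -/
def L74 : List Prf := [(.br (nat_lit 8) (nat_lit 1) (.cons (.br (nat_lit 13) (nat_lit 0) (.cons (.ev (nat_lit 20521023759927454083129033228290) (nat_lit 2)) .nil)) .nil)),
 (.br (nat_lit 10) (nat_lit 1) (.cons (.rf (nat_lit 2148) (nat_lit 295340990908372192)) (.cons (.br (nat_lit 6) (nat_lit 1) (.cons (.rf (nat_lit 2184) (nat_lit 493858305440582043680)) (.cons (.br (nat_lit 6) (nat_lit 1) (.cons (.rf (nat_lit 2184) (nat_lit 493858305440582043680)) .nil)) .nil))) (.cons (.br (nat_lit 13) (nat_lit 0) (.cons (.br (nat_lit 12) (nat_lit 0) (.cons (.br (nat_lit 7) (nat_lit 0) (.cons (.ev (nat_lit 79538870672489939946438853378) (nat_lit 2)) .nil)) (.cons (.br (nat_lit 7) (nat_lit 0) (.cons (.ev (nat_lit 310708121403609944810390274) (nat_lit 2)) .nil)) .nil))) (.cons (.ev (nat_lit 1213666632841572546248961) (nat_lit 1)) .nil))) .nil)))),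
 (.br (nat_lit 11) (nat_lit 1) (.cons (.rf (nat_lit 2108) (nat_lit 114991403579579552)) (.cons (.rf (nat_lit 2185) (nat_lit 493858305440582043680)) (.cons (.rf (nat_lit 2185) (nat_lit 458117738797769787424)) .nil)))),
 (.br (nat_lit 6) (nat_lit 1) (.cons (.ev (nat_lit 309485009893685237251112961) (nat_lit 1)) (.cons (.br (nat_lit 10) (nat_lit 1) (.cons (.br (nat_lit 8) (nat_lit 1) (.cons (.ev (nat_lit 310708121403609944810390274) (nat_lit 2)) .nil)) (.cons (.br (nat_lit 8) (nat_lit 1) (.cons (.ev (nat_lit 310708121403609944810390274) (nat_lit 2)) .nil)) .nil))) .nil))),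
 (.br (nat_lit 6) (nat_lit 1) (.cons (.ev (nat_lit 309485009893685237251112961) (nat_lit 1)) (.cons (.br (nat_lit 13) (nat_lit 0) (.cons (.br (nat_lit 5) (nat_lit 0) (.cons (.ev (nat_lit 79541279042502715318112157954) (nat_lit 2)) .nil)) (.cons (.br (nat_lit 8) (nat_lit 1) (.cons (.ev (nat_lit 80160258506877808244865171714) (nat_lit 2)) .nil)) .nil))) .nil))),
 (.br (nat_lit 6) (nat_lit 1) (.cons (.rf (nat_lit 2187) (nat_lit 493858305440582043680)) (.cons (.rf (nat_lit 2188) (nat_lit 493858305440582043680)) (.cons (.br (nat_lit 6) (nat_lit 1) (.cons (.rf (nat_lit 2187) (nat_lit 493858305440582043680)) (.cons (.rf (nat_lit 2188) (nat_lit 493858305440582043680)) .nil))) .nil)))),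
 (.br (nat_lit 11) (nat_lit 1) (.cons (.rf (nat_lit 2108) (nat_lit 114991403579579552)) (.cons (.rf (nat_lit 2189) (nat_lit 493858305440582043680)) (.cons (.rf (nat_lit 2189) (nat_lit 458117738797769787424)) .nil)))),
 (.br (nat_lit 6) (nat_lit 1) (.cons (.rf (nat_lit 2190) (nat_lit 493675700685180799008)) (.cons (.rf (nat_lit 2186) (nat_lit 493675700685180799008)) (.cons (.ev (nat_lit 309489732188109413363548161) (nat_lit 1)) .nil)))),
 (.br (nat_lit 11) (nat_lit 1) (.cons (.rf (nat_lit 2186) (nat_lit 493858305440582043680)) (.cons (.rf (nat_lit 2190) (nat_lit 493858305440582043680)) (.cons (.br (nat_lit 6) (nat_lit 1) (.cons (.rf (nat_lit 2190) (nat_lit 493675700685180799008)) (.cons (.rf (nat_lit 2186) (nat_lit 493675700685180799008)) (.cons (.rf (nat_lit 2191) (nat_lit 493858305440582043680)) (.cons (.rf (nat_lit 2191) (nat_lit 458117738797769787424)) .nil))))) .nil)))),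
 (.br (nat_lit 2) (nat_lit 0) (.cons (.rf (nat_lit 2183) (nat_lit 493858305440582043680)) (.cons (.br (nat_lit 11) (nat_lit 1) (.cons (.rf (nat_lit 2186) (nat_lit 493858305440582043680)) (.cons (.rf (nat_lit 2190) (nat_lit 493858305440582043680)) (.cons (.rf (nat_lit 2192) (nat_lit 493858305440582043680)) (.cons (.rf (nat_lit 2192) (nat_lit 458117738797769787424)) .nil))))) (.cons (.rf (nat_lit 2183) (nat_lit 493675700685180799008)) .nil)))),
 (.br (nat_lit 4) (nat_lit 1) (.cons (.rf (nat_lit 2148) (nat_lit 407901468851537952)) (.cons (.rf (nat_lit 2163) (nat_lit 407901468851537952)) (.cons (.rf (nat_lit 2163) (nat_lit 225296713450293280)) (.cons (.br (nat_lit 4) (nat_lit 1) (.cons (.rf (nat_lit 2148) (nat_lit 407901468851537952)) (.cons (.rf (nat_lit 2163) (nat_lit 407901468851537952)) (.cons (.rf (nat_lit 2163) (nat_lit 225296713450293280)) (.cons (.br (nat_lit 12) (nat_lit 1) (.cons (.br (nat_lit 2) (nat_lit 0) (.cons (.rf (nat_lit 2183) (nat_lit 493858305440582043680)) (.cons (.rf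 (nat_lit 2193) (nat_lit 493858305440582043680)) (.cons (.rf (nat_lit 2193) (nat_lit 493675700685180799008)) (.cons (.rf (nat_lit 2183) (nat_lit 493675700685180799008)) .nil))))) .nil)) .nil))))) .nil))))),
 (.br (nat_lit 11) (nat_lit 1) (.cons (.br (nat_lit 6) (nat_lit 1) (.cons (.ev (nat_lit 20282719093383858534460109619201) (nat_lit 1)) (.cons (.br (nat_lit 4) (nat_lit 1) (.cons (.rf (nat_lit 2153) (nat_lit 493745753758729608352)) (.cons (.br (nat_lit 7) (nat_lit 0) (.cons (.ev (nat_lit 80160249062216901190534431234) (nat_lit 2)) .nil)) .nil))) .nil))) (.cons (.br (nat_lit 6) (nat_lit 1) (.cons (.br (nat_lit 12) (nat_lit 0) (.cons (.rf (nat_lit 2137) (nat_lit 458010814416425163936)) (.cons (.br (nat_lit 4) (nat_lit 1) (.cons (.ev (nat_lit 80160249099110389346543337474) (nat_lit 2)) .nil)) .nil))) (.cons (.ev (nat_lit 20282719093383858534460109619201) (nat_lit 1)) .nil))) .nil))),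
 (.br (nat_lit 8) (nat_lit 1) (.cons (.kr (nat_lit 36965545741457031424) (nat_lit 20361637766165934762640306929664) (nat_lit 1) (nat_lit 0)) .nil)),
 (.br (nat_lit 8) (nat_lit 1) (.cons (.kr (nat_lit 20361637766165934762640306864384) (nat_lit 72057602627928064) (nat_lit 1) (nat_lit 0)) .nil)),
 (.br (nat_lit 4) (nat_lit 1) (.cons (.rf (nat_lit 2196) (nat_lit 493858305440582043680)) (.cons (.rf (nat_lit 2197) (nat_lit 493858305440582043680)) .nil))),
 (.br (nat_lit 11) (nat_lit 1) (.cons (.rf (nat_lit 2195) (nat_lit 493858305440582043680)) (.cons (.br (nat_lit 2) (nat_lit 0) (.cons (.br (nat_lit 6) (nat_lit 1) (.cons (.br (nat_lit 12) (nat_lit 0) (.cons (.ev (nat_lit 4740885567111897809153) (nat_lit 1)) .nil)) (.cons (.br (nat_lit 8) (nat_lit 1) (.cons (.ev (nat_lit 20679790783669547458008369661188) (nat_lit 3)) .nil)) .nil))) (.cons (.rf (nat_lit 2198) (nat_lit 493858305440582043680)) (.cons (.br (nat_lit 7) (nat_lit 0) (.cons (.br (nat_lit 12) (nat_lit 0) (.cons (.ev (nat_lit 4722438823042483290113)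 (nat_lit 1)) .nil)) (.cons (.zr (nat_lit 20282409608374181024203995676928) (nat_lit 620178945462586241634533377) (nat_lit 5) (nat_lit 0)) .nil))) .nil)))) .nil))),
 (.br (nat_lit 11) (nat_lit 1) (.cons (.br (nat_lit 6) (nat_lit 1) (.cons (.br (nat_lit 12) (nat_lit 0) (.cons (.ev (nat_lit 1213648258436572129525761) (nat_lit 1)) (.cons (.ev (nat_lit 4740885567111897809153) (nat_lit 1)) .nil))) (.cons (.br (nat_lit 8) (nat_lit 1) (.cons (.br (nat_lit 4) (nat_lit 1) (.cons (.ev (nat_lit 80160249062216901190534431234) (nat_lit 2)) .nil)) (.cons (.br (nat_lit 4) (nat_lit 1) (.cons (.zr (nat_lit 237684487543009748512699252736) (nat_lit 310698731794418866694651905) (nat_lit 5) (nat_lit 0)) .nil)) .nil))) .nil))) (.cons (.rf (nat_lit 2110) (nat_lit 115065816128)) (.cons (.br (nat_lit 4) (nat_lit 1) (.cons (.br (nat_lit 7) (nat_lit 0) (.cons (.br (nat_lit 12) (nat_lit 0) (.cons (.ev (nat_lit 80160249099110389346543337474) (nat_lit 2)) .nil)) (.cons (.br (nat_lit 6) (nat_lit 1) (.cons (.ev (nat_lit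 20838870923791799714657888962308) (nat_lit 3)) .nil)) .nil))) (.cons (.ev (nat_lit 309489732259885532407922689) (nat_lit 1)) (.cons (.ev (nat_lit 20361948464823942204108356714753) (nat_lit 1)) .nil)))) .nil)))),
 (.br (nat_lit 11) (nat_lit 1) (.cons (.rf (nat_lit 2200) (nat_lit 493858305440582043680)) (.cons (.rf (nat_lit 2108) (nat_lit 114991403579579552)) (.cons (.br (nat_lit 2) (nat_lit 0) (.cons (.br (nat_lit 6) (nat_lit 1) (.cons (.br (nat_lit 8) (nat_lit 1) (.cons (.ev (nat_lit 4740885567111897809153) (nat_lit 1)) .nil)) (.cons (.br (nat_lit 7) (nat_lit 0) (.cons (.ev (nat_lit 1213666705180641544175873) (nat_lit 1)) .nil)) .nil))) (.cons (.ev (nat_lit 20282719088661492051590481248513) (nat_lit 1)) (.cons (.br (nat_lit 4) (nat_lit 1) (.cons (.br (nat_lit 6) (nat_lit 1) (.cons (.ev (nat_lit 4722438823042483290113) (nat_lit 1)) .nil)) (.cons (.br (nat_lit 6) (nat_lit 1) (.cons (.ev (nat_lit 1213648258436572129525761) (nat_lit 1)) .nil)) .nil))) .nil)))) .nil)))),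
 (.br (nat_lit 5) (nat_lit 0) (.cons (.kr (nat_lit 20282409603651742481541289214208) (nat_lit 79228162514264338693055643648) (nat_lit 1) (nat_lit 0)) .nil)),
 (.br (nat_lit 12) (nat_lit 0) (.cons (.rf (nat_lit 2202) (nat_lit 493858305440582043680)) (.cons (.rf (nat_lit 2202) (nat_lit 493858301042539726880)) .nil))),
 (.br (nat_lit 2) (nat_lit 0) (.cons (.rf (nat_lit 2203) (nat_lit 493858305438436657184)) (.cons (.rf (nat_lit 2203) (nat_lit 493858305440582043680)) (.cons (.rf (nat_lit 2203) (nat_lit 493858303243706271776)) .nil)))),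
 (.br (nat_lit 11) (nat_lit 1) (.cons (.rf (nat_lit 2200) (nat_lit 493858305440582043680)) (.cons (.rf (nat_lit 2201) (nat_lit 493858305440582043680)) (.cons (.br (nat_lit 11) (nat_lit 1) (.cons (.rf (nat_lit 2110) (nat_lit 115065816128)) (.cons (.rf (nat_lit 2108) (nat_lit 114991403579579552)) (.cons (.rf (nat_lit 2204) (nat_lit 493858305440582043680)) .nil)))) (.cons (.br (nat_lit 11) (nat_lit 1) (.cons (.rf (nat_lit 2200) (nat_lit 493858305440582043680)) (.cons (.rf (nat_lit 2201) (nat_lit 493858305440582043680)) (.cons (.rf (nat_lit 2204) (nat_lit 493858305440582043680)) .nil)))) .nil))))),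
 (.br (nat_lit 11) (nat_lit 1) (.cons (.kr (nat_lit 36965545741457031424) (nat_lit 20361637766165934762640306929664) (nat_lit 1) (nat_lit 0)) .nil)),
 (.br (nat_lit 4) (nat_lit 1) (.cons (.ev (nat_lit 20282410812577490039680249430273) (nat_lit 1)) (.cons (.br (nat_lit 8) (nat_lit 1) (.cons (.br (nat_lit 6) (nat_lit 1) (.cons (.br (nat_lit 11) (nat_lit 1) (.cons (.zr (nat_lit 237686905394648414821095047936) (nat_lit 1237944780098888697542344705) (nat_lit 5) (nat_lit 0)) .nil)) (.cons (.br (nat_lit 11) (nat_lit 1) (.cons (.ev (nat_lit 79538870635668510492602662914) (nat_lit 2)) .nil)) .nil))) (.cons (.br (nat_lit 11) (nat_lit 1) (.cons (.br (nat_lit 6) (nat_lit 1) (.cons (.ev (nat_lit 79538870635668510492602662914) (nat_lit 2)) .nil)) (.cons (.ev (nat_lit 79538861190718524234814980353) (nat_lit 1)) .nil))) (.cons (.br (nat_lit 6) (nat_lit 1) (.cons (.rf (nat_lit 2206) (nat_lit 493858305440582043680)) (.cons (.ev (nat_lit 79228167236631101938182717441) (nat_lit 1)) .nil))) .nil)))) (.cons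 (.br (nat_lit 11) (nat_lit 1) (.cons (.br (nat_lit 7) (nat_lit 0) (.cons (.zr (nat_lit 61005685135983539950327376642816) (nat_lit 310698658008005530399801345) (nat_lit 5) (nat_lit 0)) (.cons (.zr (nat_lit 61164141461012068625514464543488) (nat_lit 310698694900930736455417857) (nat_lit 5) (nat_lit 0)) .nil))) (.cons (.br (nat_lit 8) (nat_lit 1) (.cons (.br (nat_lit 7) (nat_lit 0) (.cons (.ev (nat_lit 80160258506949866929858281474) (nat_lit 2)) .nil)) (.cons (.rf (nat_lit 2205) (nat_lit 457929673727877158112)) .nil))) .nil))) .nil)))),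
 (.br (nat_lit 11) (nat_lit 1) (.cons (.rf (nat_lit 2207) (nat_lit 493858305440582043680)) (.cons (.rf (nat_lit 2108) (nat_lit 114991403579579552)) (.cons (.br (nat_lit 6) (nat_lit 1) (.cons (.ev (nat_lit 20282719088661492051590481248513) (nat_lit 1)) (.cons (.br (nat_lit 4) (nat_lit 1) (.cons (.br (nat_lit 8) (nat_lit 1) (.cons (.zr (nat_lit 237684487543009748512699252736) (nat_lit 310698731794418866694651905) (nat_lit 5) (nat_lit 0)) .nil)) (.cons (.ev (nat_lit 20282409608374109246985439543553) (nat_lit 1)) .nil))) .nil))) .nil)))),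
 (.br (nat_lit 11) (nat_lit 1) (.cons (.rf (nat_lit 2207) (nat_lit 493858305440582043680)) (.cons (.rf (nat_lit 2108) (nat_lit 114991403579579552)) (.cons (.br (nat_lit 6) (nat_lit 1) (.cons (.br (nat_lit 7) (nat_lit 0) (.cons (.ev (nat_lit 20361947255898194928552474836993) (nat_lit 1)) (.cons (.ev (nat_lit 20361947255916641672621889487105) (nat_lit 1)) .nil))) (.cons (.br (nat_lit 2) (nat_lit 0) (.cons (.br (nat_lit 7) (nat_lit 0) (.cons (.zr (nat_lit 9444733531987778928640) (nat_lit 310693954087703775971115009) (nat_lit 5) (nat_lit 0)) .nil)) (.cons (.ev (nat_lit 79538861190718524234814980353) (nat_lit 1)) .nil))) (.cons (.ev (nat_lit 20361638979814192916633653084161) (nat_lit 1)) .nil)))) .nil)))),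
 (.br (nat_lit 10) (nat_lit 1) (.cons (.br (nat_lit 11) (nat_lit 1) (.cons (.rf (nat_lit 2195) (nat_lit 493858305440582043680)) (.cons (.rf (nat_lit 2199) (nat_lit 493858305440582043680)) (.cons (.br (nat_lit 11) (nat_lit 1) (.cons (.rf (nat_lit 2195) (nat_lit 493858305440582043680)) (.cons (.rf (nat_lit 2199) (nat_lit 493858305440582043680)) .nil))) .nil)))) (.cons (.rf (nat_lit 2205) (nat_lit 493858305440582043680)) (.cons (.br (nat_lit 11) (nat_lit 1) (.cons (.rf (nat_lit 2207) (nat_lit 493858305440582043680)) (.cons (.rf (nat_lit 2208) (nat_lit 493858305440582043680)) (.cons (.rf (nat_lit 2209) (nat_lit 493858305440582043680)) (.cons (.br (nat_lit 11) (nat_lit 1) (.cons (.rf (nat_lit 2207) (nat_lit 493858305440582043680)) (.cons (.rf (nat_lit 2208) (nat_lit 493858305440582043680)) (.cons (.rf (nat_lit 2209) (nat_lit 493858305440582043680)) .nil)))) .nil))))) .nil)))),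
 (.br (nat_lit 11) (nat_lit 1) (.cons (.br (nat_lit 7) (nat_lit 0) (.cons (.br (nat_lit 12) (nat_lit 0) (.cons (.ev (nat_lit 79228167236702879161050464513) (nat_lit 1)) (.cons (.zr (nat_lit 79228162532927255548878914048) (nat_lit 311902861460574335680905217) (nat_lit 5) (nat_lit 0)) .nil))) (.cons (.ev (nat_lit 20282719093383858534460109619201) (nat_lit 1)) (.cons (.br (nat_lit 4) (nat_lit 1) (.cons (.ev (nat_lit 20282410812577490039680249430273) (nat_lit 1)) (.cons (.ev (nat_lit 20361947255916569334656681377793) (nat_lit 1)) .nil))) .nil)))) (.cons (.br (nat_lit 4) (nat_lit 1) (.cons (.ev (nat_lit 20282410812577490039680249430273) (nat_lit 1)) (.cons (.br (nat_lit 2) (nat_lit 0) (.cons (.br (nat_lit 7) (nat_lit 0) (.cons (.zr (nat_lit 1218370553146621248405504) (nat_lit 158765810056940879517614866433) (nat_lit 5) (nat_lit 3)) .nil)) (.cons (.ev (nat_lit 20282409608374036906821208309761) (nat_lit 1)) .nil))) .nil))) .nil))),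
 (.br (nat_lit 4) (nat_lit 1) (.cons (.br (nat_lit 6) (nat_lit 1) (.cons (.ev (nat_lit 310693935641241177171230721) (nat_lit 1)) .nil)) .nil)),
 (.br (nat_lit 11) (nat_lit 1) (.cons (.rf (nat_lit 2211) (nat_lit 493858305440582043680)) (.cons (.br (nat_lit 8) (nat_lit 1) (.cons (.br (nat_lit 2) (nat_lit 0) (.cons (.kr (nat_lit 79537647524085682662285574144) (nat_lit 9463179710912511606784) (nat_lit 2) (nat_lit 0)) (.cons (.br (nat_lit 7) (nat_lit 0) (.cons (.ev (nat_lit 309489732188110517153366273) (nat_lit 1)) .nil)) .nil))) (.cons (.rf (nat_lit 2212) (nat_lit 493858305440582043680)) .nil))) .nil))),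
 (.br (nat_lit 10) (nat_lit 1) (.cons (.rf (nat_lit 2210) (nat_lit 493858305440582043680)) (.cons (.rf (nat_lit 2108) (nat_lit 112811073094360224)) (.cons (.br (nat_lit 11) (nat_lit 1) (.cons (.rf (nat_lit 2211) (nat_lit 493858305440582043680)) (.cons (.rf (nat_lit 2213) (nat_lit 493858305440582043680)) (.cons (.br (nat_lit 11) (nat_lit 1) (.cons (.rf (nat_lit 2211) (nat_lit 493858305440582043680)) (.cons (.rf (nat_lit 2213) (nat_lit 493858305440582043680)) .nil))) .nil)))) .nil))))]

theorem c74 : chkAll C T R L74 (nat_lit 2184) = true := by decide +kernel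

theorem l74 : (nat_lit 2184) + L74.length = (nat_lit 2215) := by decide +kernel

/-- part of the certificates -/
def L75 : List Prf := [(.br (nat_lit 2) (nat_lit 0) (.cons (.rf (nat_lit 2197) (nat_lit 493823402543469922336)) (.cons (.rf (nat_lit 2197) (nat_lit 493823400346594150432)) .nil))),
 (.br (nat_lit 11) (nat_lit 1) (.cons (.br (nat_lit 12) (nat_lit 0) (.cons (.rf (nat_lit 2215) (nat_lit 493858305440582043680)) (.cons (.br (nat_lit 7) (nat_lit 0) (.cons (.ev (nat_lit 79228167236702879161050464513) (nat_lit 1)) (.cons (.br (nat_lit 4) (nat_lit 1) (.cons (.ev (nat_lit 20837009159177164857611626152708) (nat_lit 3)) .nil)) .nil))) (.cons (.ev (nat_lit 20361947251175756107709048422401) (nat_lit 1)) .nil)))) (.cons (.rf (nat_lit 2204) (nat_lit 493823402543469922336)) (.cons (.br (nat_lit 8) (nat_lit 1) (.cons (.ev (nat_lit 79538861190718524234814980353) (nat_lit 1)) (.cons (.br (nat_lit 6) (nat_lit 1) (.cons (.ev (nat_lit 20361947255898122590578676924673) (nat_lit 1)) (.cons (.zr (nat_lit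 158457533954348290915824566528) (nat_lit 14204064994350392672257) (nat_lit 5) (nat_lit 3)) .nil))) (.cons (.br (nat_lit 2) (nat_lit 0) (.cons (.ev (nat_lit 20361638979832639660711657668865) (nat_lit 1)) (.cons (.br (nat_lit 5) (nat_lit 0) (.cons (.zr (nat_lit 1218370769316104827305984) (nat_lit 158765810056796766528562266113) (nat_lit 5) (nat_lit 8)) .nil)) .nil))) .nil)))) .nil)))),
 (.br (nat_lit 6) (nat_lit 1) (.cons (.kr (nat_lit 20282409603688563913194182017280) (nat_lit 79228162514336958137535365120) (nat_lit 1) (nat_lit 0)) .nil)),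
 (.br (nat_lit 11) (nat_lit 1) (.cons (.rf (nat_lit 2216) (nat_lit 493858305440582043680)) (.cons (.rf (nat_lit 2108) (nat_lit 114991403579579552)) (.cons (.br (nat_lit 8) (nat_lit 1) (.cons (.br (nat_lit 4) (nat_lit 1) (.cons (.br (nat_lit 7) (nat_lit 0) (.cons (.ev (nat_lit 1213648258436572129525761) (nat_lit 1)) .nil)) (.cons (.rf (nat_lit 2217) (nat_lit 493858305440582043680)) .nil))) (.cons (.br (nat_lit 6) (nat_lit 1) (.cons (.br (nat_lit 2) (nat_lit 0) (.cons (.ev (nat_lit 310693935641241177171230721) (nat_lit 1)) .nil)) .nil)) .nil))) .nil)))),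
 (.br (nat_lit 8) (nat_lit 1) (.cons (.br (nat_lit 6) (nat_lit 1) (.cons (.kr (nat_lit 20282409603651742481541289214208) (nat_lit 79228162514264338693055643648) (nat_lit 1) (nat_lit 0)) .nil)) (.cons (.br (nat_lit 2) (nat_lit 0) (.cons (.kr (nat_lit 20282409603651742481541289214208) (nat_lit 79228162514264338693055643648) (nat_lit 1) (nat_lit 0)) .nil)) .nil))),
 (.br (nat_lit 2) (nat_lit 0) (.cons (.rf (nat_lit 2219) (nat_lit 493858305440582043680)) (.cons (.rf (nat_lit 2219) (nat_lit 493858305438436657184)) (.cons (.rf (nat_lit 2219) (nat_lit 493858303239415498784)) .nil)))),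
 (.br (nat_lit 10) (nat_lit 1) (.cons (.rf (nat_lit 2210) (nat_lit 493858305440582043680)) (.cons (.rf (nat_lit 2108) (nat_lit 112811073094360224)) (.cons (.br (nat_lit 11) (nat_lit 1) (.cons (.rf (nat_lit 2216) (nat_lit 493858305440582043680)) (.cons (.rf (nat_lit 2218) (nat_lit 493858305440582043680)) (.cons (.br (nat_lit 11) (nat_lit 1) (.cons (.rf (nat_lit 2204) (nat_lit 493823402543469922336)) (.cons (.rf (nat_lit 2108) (nat_lit 114991403579579552)) (.cons (.rf (nat_lit 2220) (nat_lit 493858305440582043680)) .nil)))) (.cons (.br (nat_lit 11) (nat_lit 1) (.cons (.rf (nat_lit 2216) (nat_lit 493858305440582043680)) (.cons (.rf (nat_lit 2218) (nat_lit 493858305440582043680)) (.cons (.rf (nat_lit 2220) (nat_lit 493858305440582043680)) .nil)))) .nil))))) .nil)))),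
 (.br (nat_lit 10) (nat_lit 1) (.cons (.rf (nat_lit 2210) (nat_lit 493858305440582043680)) (.cons (.rf (nat_lit 2214) (nat_lit 493858305440582043680)) (.cons (.rf (nat_lit 2221) (nat_lit 493858305440582043680)) (.cons (.br (nat_lit 10) (nat_lit 1) (.cons (.rf (nat_lit 2210) (nat_lit 493858305440582043680)) (.cons (.rf (nat_lit 2214) (nat_lit 493858305440582043680)) (.cons (.rf (nat_lit 2221) (nat_lit 493858305440582043680)) .nil)))) .nil))))),
 (.br (nat_lit 12) (nat_lit 0) (.cons (.br (nat_lit 7) (nat_lit 0) (.cons (.br (nat_lit 5) (nat_lit 0) (.cons (.br (nat_lit 11) (nat_lit 1) (.cons (.ev (nat_lit 79541288487307739742362272258) (nat_lit 2)) .nil)) .nil)) (.cons (.br (nat_lit 11) (nat_lit 1) (.cons (.rf (nat_lit 2110) (nat_lit 115065750592)) (.cons (.rf (nat_lit 2108) (nat_lit 114991403579579552)) .nil))) .nil))) (.cons (.br (nat_lit 7) (nat_lit 0) (.cons (.ev (nat_lit 79229376162450716571652325633) (nat_lit 1)) (.cons (.br (nat_lit 11) (nat_lit 1) (.cons (.rf (nat_lit 2110) (nat_lit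 115065750592)) (.cons (.rf (nat_lit 2108) (nat_lit 114991403579579552)) .nil))) .nil))) (.cons (.br (nat_lit 11) (nat_lit 1) (.cons (.ev (nat_lit 79537652264898909609935306753) (nat_lit 1)) (.cons (.br (nat_lit 2) (nat_lit 0) (.cons (.ev (nat_lit 20282719088661492051590481248513) (nat_lit 1)) (.cons (.ev (nat_lit 20361948460101575722342518161665) (nat_lit 1)) .nil))) (.cons (.rf (nat_lit 2204) (nat_lit 493856055839791613984)) .nil)))) .nil)))),
 (.br (nat_lit 12) (nat_lit 0) (.cons (.rf (nat_lit 2223) (nat_lit 493858305440582043680)) (.cons (.br (nat_lit 7) (nat_lit 0) (.cons (.br (nat_lit 5) (nat_lit 0) (.cons (.br (nat_lit 11) (nat_lit 1) (.cons (.ev (nat_lit 79538870635668510492602662914) (nat_lit 2)) .nil)) .nil)) (.cons (.br (nat_lit 11) (nat_lit 1) (.cons (.rf (nat_lit 2110) (nat_lit 115065750592)) (.cons (.rf (nat_lit 2108) (nat_lit 114991403579579552)) .nil))) .nil))) (.cons (.br (nat_lit 11) (nat_lit 1) (.cons (.ev (nat_lit 79847142015534326042666926850) (nat_lit 2)) (.cons (.br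 (nat_lit 2) (nat_lit 0) (.cons (.br (nat_lit 7) (nat_lit 0) (.cons (.ev (nat_lit 21158259482372452995686564301576) (nat_lit 4)) .nil)) (.cons (.br (nat_lit 4) (nat_lit 1) (.cons (.ev (nat_lit 20524438980256471862411789010696) (nat_lit 4)) .nil)) .nil))) (.cons (.rf (nat_lit 2204) (nat_lit 493856055839791613984)) .nil)))) .nil)))),
 (.br (nat_lit 12) (nat_lit 0) (.cons (.rf (nat_lit 2223) (nat_lit 493858305440582043680)) (.cons (.rf (nat_lit 2224) (nat_lit 493858305440582043680)) (.cons (.br (nat_lit 11) (nat_lit 1) (.cons (.ev (nat_lit 79538861190718524234814980353) (nat_lit 1)) (.cons (.br (nat_lit 2) (nat_lit 0) (.cons (.ev (nat_lit 20361948460101575722342518161665) (nat_lit 1)) (.cons (.ev (nat_lit 20282719088661492051590481248513) (nat_lit 1)) .nil))) (.cons (.rf (nat_lit 2204) (nat_lit 493856055839791613984)) .nil)))) .nil)))),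
 (.br (nat_lit 12) (nat_lit 0) (.cons (.br (nat_lit 7) (nat_lit 0) (.cons (.br (nat_lit 2) (nat_lit 0) (.cons (.br (nat_lit 11) (nat_lit 1) (.cons (.ev (nat_lit 20837625739642472036486525419780) (nat_lit 3)) .nil)) .nil)) (.cons (.br (nat_lit 11) (nat_lit 1) (.cons (.br (nat_lit 5) (nat_lit 0) (.cons (.ev (nat_lit 20837009187511363752604704506628) (nat_lit 3)) .nil)) (.cons (.rf (nat_lit 2108) (nat_lit 114991403579579552)) .nil))) .nil))) (.cons (.br (nat_lit 2) (nat_lit 0) (.cons (.br (nat_lit 7) (nat_lit 0) (.cons (.br (nat_lit 11) (nat_lit 1) (.cons (.ev (nat_lit 20837628138641684630849594918148) (nat_lit 3)) .nil)) .nil)) (.cons (.br (nat_lit 11) (nat_lit 1) (.cons (.rf (nat_lit 2137) (nat_lit 457936257604571733152)) (.cons (.rf (nat_lit 2222) (nat_lit 457824828698171643104)) .nil))) .nil))) (.cons (.br (nat_lit 6) (nat_lit 1) (.cons (.br (nat_lit 11) (nat_lit 1) (.cons (.ev (nat_lit 20282719088661492051590481248513) (nat_lit 1)) (.cons (.ev (nat_lit 20361947255898194928552474836993)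 (nat_lit 1)) .nil))) (.cons (.kr (nat_lit 79228162514264337593560727552) (nat_lit 4722366764344621924352) (nat_lit 3) (nat_lit 0)) (.cons (.br (nat_lit 5) (nat_lit 0) (.cons (.br (nat_lit 11) (nat_lit 1) (.cons (.ev (nat_lit 80160249099110389346543337474) (nat_lit 2)) .nil)) (.cons (.br (nat_lit 10) (nat_lit 1) (.cons (.ev (nat_lit 21155778766516816795944563707656) (nat_lit 4)) .nil)) .nil))) .nil)))) .nil)))),
 (.br (nat_lit 4) (nat_lit 1) (.cons (.kr (nat_lit 20361637766165934762640306864384) (nat_lit 72057602627928064) (nat_lit 1) (nat_lit 0)) .nil)),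
 (.br (nat_lit 7) (nat_lit 0) (.cons (.rf (nat_lit 2226) (nat_lit 493858305440582043680)) (.cons (.br (nat_lit 2) (nat_lit 0) (.cons (.br (nat_lit 5) (nat_lit 0) (.cons (.br (nat_lit 12) (nat_lit 0) (.cons (.ev (nat_lit 20521951029587663026010263324420) (nat_lit 3)) .nil)) .nil)) (.cons (.br (nat_lit 11) (nat_lit 1) (.cons (.rf (nat_lit 2227) (nat_lit 493858305440582043680)) (.cons (.br (nat_lit 4) (nat_lit 1) (.cons (.ev (nat_lit 80160249099110389346543337474) (nat_lit 2)) .nil)) .nil))) .nil))) (.cons (.br (nat_lit 5) (nat_lit 0) (.cons (.br (nat_lit 12) (nat_lit 0) (.cons (.br (nat_lit 2) (nat_lit 0) (.cons (.ev (nat_lit 79538861190935544753278812674) (nat_lit 2)) .nil)) (.cons (.br (nat_lit 2) (nat_lit 0) (.cons (.ev (nat_lit 21155778766516816795944563707656) (nat_lit 4)) .nil)) .nil))) (.cons (.br (nat_lit 12) (nat_lit 0) (.cons (.br (nat_lit 11) (nat_lit 1) (.cons (.ev (nat_lit 79541279042574774003038158850) (nat_lit 2)) .nil)) (.cons (.br (nat_lit 4) (nat_lit 1) (.cons (.ev (nat_lit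 20680412180875025991698944820996) (nat_lit 3)) .nil)) .nil))) (.cons (.rf (nat_lit 2108) (nat_lit 114991403579579552)) .nil)))) .nil)))),
 (.br (nat_lit 7) (nat_lit 0) (.cons (.rf (nat_lit 2226) (nat_lit 493858305440582043680)) (.cons (.rf (nat_lit 2228) (nat_lit 493858305440582043680)) (.cons (.br (nat_lit 11) (nat_lit 1) (.cons (.br (nat_lit 5) (nat_lit 0) (.cons (.br (nat_lit 6) (nat_lit 1) (.cons (.ev (nat_lit 20837006769659724523354945159428) (nat_lit 3)) .nil)) (.cons (.br (nat_lit 4) (nat_lit 1) (.cons (.ev (nat_lit 79541279042574774003038158850) (nat_lit 2)) .nil)) .nil))) (.cons (.rf (nat_lit 2108) (nat_lit 114991403579579552)) (.cons (.br (nat_lit 5) (nat_lit 0) (.cons (.ev (nat_lit 79228162532783139265603174401) (nat_lit 1)) (.cons (.kr (nat_lit 79228162514264337593560727552) (nat_lit 4722366764344621924352) (nat_lit 3) (nat_lit 0)) .nil))) .nil)))) .nil)))),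
 (.br (nat_lit 8) (nat_lit 1) (.cons (.rf (nat_lit 2194) (nat_lit 372964312800664736)) (.cons (.br (nat_lit 12) (nat_lit 0) (.cons (.rf (nat_lit 2223) (nat_lit 493858305440582043680)) (.cons (.rf (nat_lit 2224) (nat_lit 493858305440582043680)) (.cons (.rf (nat_lit 2225) (nat_lit 493858305440582043680)) (.cons (.br (nat_lit 12) (nat_lit 0) (.cons (.rf (nat_lit 2223) (nat_lit 493858305440582043680)) (.cons (.rf (nat_lit 2224) (nat_lit 493858305440582043680)) (.cons (.rf (nat_lit 2225) (nat_lit 493858305440582043680)) .nil)))) .nil))))) (.cons (.br (nat_lit 7) (nat_lit 0) (.cons (.rf (nat_lit 2226) (nat_lit 493858305440582043680)) (.cons (.rf (nat_lit 2228) (nat_lit 493858305440582043680)) (.cons (.rf (nat_lit 2229) (nat_lit 493858305440582043680)) (.cons (.br (nat_lit 7) (nat_lit 0) (.cons (.rf (nat_lit 2226) (nat_lit 493858305440582043680)) (.cons (.rf (nat_lit 2228) (nat_lit 493858305440582043680)) (.cons (.rf (nat_lit 2229) (nat_lit 493858305440582043680)) .nil)))) .nil))))) .nil)))),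
 (.br (nat_lit 11) (nat_lit 1) (.cons (.br (nat_lit 7) (nat_lit 0) (.cons (.br (nat_lit 6) (nat_lit 1) (.cons (.ev (nat_lit 20282719093383930309483954241793) (nat_lit 1)) (.cons (.ev (nat_lit 79228167236702879161050464513) (nat_lit 1)) .nil))) (.cons (.ev (nat_lit 20282719093383858534460109619201) (nat_lit 1)) (.cons (.br (nat_lit 6) (nat_lit 1) (.cons (.br (nat_lit 12) (nat_lit 0) (.cons (.ev (nat_lit 18519083147036000513) (nat_lit 1)) .nil)) (.cons (.br (nat_lit 2) (nat_lit 0) (.cons (.ev (nat_lit 309485028268370621706076161) (nat_lit 1)) .nil)) .nil))) .nil)))) (.cons (.br (nat_lit 6) (nat_lit 1) (.cons (.ev (nat_lit 20361947255898122590578676924673) (nat_lit 1)) (.cons (.br (nat_lit 4) (nat_lit 1) (.cons (.ev (nat_lit 309485028268370621706076161) (nat_lit 1)) (.cons (.ev (nat_lit 79228167236702879161050464513) (nat_lit 1)) .nil))) .nil))) .nil))),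
 (.br (nat_lit 11) (nat_lit 1) (.cons (.rf (nat_lit 2231) (nat_lit 493858305440582043680)) (.cons (.br (nat_lit 6) (nat_lit 1) (.cons (.br (nat_lit 4) (nat_lit 1) (.cons (.ev (nat_lit 20282409603670117169124784275713) (nat_lit 1)) (.cons (.ev (nat_lit 20361947255898194928552474836993) (nat_lit 1)) .nil))) (.cons (.ev (nat_lit 309485028340147835983888641) (nat_lit 1)) .nil))) .nil))),
 (.br (nat_lit 8) (nat_lit 1) (.cons (.rf (nat_lit 2194) (nat_lit 372964312800664736)) (.cons (.rf (nat_lit 2108) (nat_lit 154366014478621856)) (.cons (.br (nat_lit 11) (nat_lit 1) (.cons (.rf (nat_lit 2231) (nat_lit 493858305440582043680)) (.cons (.rf (nat_lit 2232) (nat_lit 493858305440582043680)) (.cons (.br (nat_lit 11) (nat_lit 1) (.cons (.rf (nat_lit 2231) (nat_lit 493858305440582043680)) (.cons (.rf (nat_lit 2232) (nat_lit 493858305440582043680)) .nil))) .nil)))) .nil)))),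
 (.br (nat_lit 11) (nat_lit 1) (.cons (.br (nat_lit 12) (nat_lit 0) (.cons (.rf (nat_lit 2215) (nat_lit 493856055839791613984)) (.cons (.br (nat_lit 4) (nat_lit 1) (.cons (.ev (nat_lit 309485028268370621706076161) (nat_lit 1)) (.cons (.ev (nat_lit 79228167236702879161050464513) (nat_lit 1)) .nil))) (.cons (.br (nat_lit 2) (nat_lit 0) (.cons (.rf (nat_lit 2222) (nat_lit 457824828904430732352)) (.cons (.br (nat_lit 4) (nat_lit 1) (.cons (.ev (nat_lit 620188408859033985741815810) (nat_lit 2)) .nil)) .nil))) .nil)))) (.cons (.rf (nat_lit 2204) (nat_lit 493751347148455249952)) (.cons (.br (nat_lit 6) (nat_lit 1) (.cons (.br (nat_lit 5) (nat_lit 0) (.cons (.br (nat_lit 10) (nat_lit 1) (.cons (.ev (nat_lit 20679788384596692563298057520900) (nat_lit 3)) .nil)) (.cons (.br (nat_lit 7) (nat_lit 0) (.cons (.ev (nat_lit 21475172094503290513505466911496) (nat_lit 4)) .nil)) .nil))) (.cons (.kr (nat_lit 79228162514264337593560727552) (nat_lit 4722366764344621924352) (nat_lit 3) (nat_lit 0)) (.cons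 (.br (nat_lit 4) (nat_lit 1) (.cons (.ev (nat_lit 79537652264898909609935306753) (nat_lit 1)) (.cons (.ev (nat_lit 72340172821233921) (nat_lit 1)) .nil))) .nil)))) .nil)))),
 (.br (nat_lit 11) (nat_lit 1) (.cons (.rf (nat_lit 2234) (nat_lit 493858305440582043680)) (.cons (.rf (nat_lit 2108) (nat_lit 114991403579579552)) (.cons (.br (nat_lit 6) (nat_lit 1) (.cons (.br (nat_lit 7) (nat_lit 0) (.cons (.br (nat_lit 10) (nat_lit 1) (.cons (.ev (nat_lit 21475181803836931958637819790088) (nat_lit 4)) .nil)) (.cons (.br (nat_lit 2) (nat_lit 0) (.cons (.ev (nat_lit 20520098945787425693861352376068) (nat_lit 3)) .nil)) .nil))) (.cons (.ev (nat_lit 309485028340147835983888641) (nat_lit 1)) .nil))) .nil)))),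
 (.br (nat_lit 8) (nat_lit 1) (.cons (.rf (nat_lit 2230) (nat_lit 493858305440582043680)) (.cons (.rf (nat_lit 2108) (nat_lit 154366014478621856)) (.cons (.br (nat_lit 11) (nat_lit 1) (.cons (.rf (nat_lit 2234) (nat_lit 493858305440582043680)) (.cons (.rf (nat_lit 2235) (nat_lit 493858305440582043680)) (.cons (.br (nat_lit 11) (nat_lit 1) (.cons (.rf (nat_lit 2204) (nat_lit 493751347148455249952)) (.cons (.rf (nat_lit 2108) (nat_lit 114991403579579552)) (.cons (.rf (nat_lit 2220) (nat_lit 493856055839791613984)) .nil)))) (.cons (.br (nat_lit 11) (nat_lit 1) (.cons (.rf (nat_lit 2234) (nat_lit 493858305440582043680)) (.cons (.rf (nat_lit 2235) (nat_lit 493858305440582043680)) (.cons (.rf (nat_lit 2220) (nat_lit 493856055839791613984)) .nil)))) .nil))))) .nil)))),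
 (.br (nat_lit 8) (nat_lit 1) (.cons (.rf (nat_lit 2230) (nat_lit 493858305440582043680)) (.cons (.rf (nat_lit 2233) (nat_lit 493858305440582043680)) (.cons (.rf (nat_lit 2236) (nat_lit 493858305440582043680)) (.cons (.br (nat_lit 8) (nat_lit 1) (.cons (.rf (nat_lit 2230) (nat_lit 493858305440582043680)) (.cons (.rf (nat_lit 2233) (nat_lit 493858305440582043680)) (.cons (.rf (nat_lit 2236) (nat_lit 493858305440582043680)) .nil)))) .nil))))),
 (.br (nat_lit 8) (nat_lit 1) (.cons (.rf (nat_lit 2227) (nat_lit 493823402543469922336)) .nil)),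
 (.br (nat_lit 11) (nat_lit 1) (.cons (.br (nat_lit 6) (nat_lit 1) (.cons (.rf (nat_lit 2238) (nat_lit 493858305440582043680)) (.cons (.ev (nat_lit 309489732188109413363548161) (nat_lit 1)) .nil))) (.cons (.br (nat_lit 6) (nat_lit 1) (.cons (.ev (nat_lit 309489732188109413363548161) (nat_lit 1)) (.cons (.br (nat_lit 4) (nat_lit 1) (.cons (.br (nat_lit 8) (nat_lit 1) (.cons (.ev (nat_lit 80160249098966834900807844354) (nat_lit 2)) .nil)) .nil)) .nil))) .nil)))]

theorem c75 : chkAll C T R L75 (nat_lit 2215) = true := by decide +kernel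

theorem l75 : (nat_lit 2215) + L75.length = (nat_lit 2240) := by decide +kernel

/-- part of the certificates -/
def L76 : List Prf := [(.br (nat_lit 8) (nat_lit 1) (.cons (.rf (nat_lit 2239) (nat_lit 493858305440582043680)) (.cons (.br (nat_lit 4) (nat_lit 1) (.cons (.ev (nat_lit 20282410812595936782654430511361) (nat_lit 1)) (.cons (.br (nat_lit 6) (nat_lit 1) (.cons (.ev (nat_lit 20282410812596009122818661875713) (nat_lit 1)) (.cons (.ev (nat_lit 20361637770888301525889728905473) (nat_lit 1)) .nil))) (.cons (.rf (nat_lit 2215) (nat_lit 493820028142284277792)) .nil)))) .nil))),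
 (.br (nat_lit 8) (nat_lit 1) (.cons (.rf (nat_lit 2110) (nat_lit 113992008768)) (.cons (.rf (nat_lit 2108) (nat_lit 154366014478621856)) (.cons (.rf (nat_lit 2204) (nat_lit 493750222348060035104)) .nil)))),
 (.br (nat_lit 7) (nat_lit 0) (.cons (.ev (nat_lit 1213648258436572129525761) (nat_lit 1)) (.cons (.rf (nat_lit 2241) (nat_lit 493858305440582043680)) (.cons (.br (nat_lit 2) (nat_lit 0) (.cons (.br (nat_lit 5) (nat_lit 0) (.cons (.br (nat_lit 12) (nat_lit 0) (.cons (.ev (nat_lit 79228162532711364241758683393) (nat_lit 1)) .nil)) .nil)) (.cons (.ev (nat_lit 310698658079500165877661953) (nat_lit 1)) .nil))) .nil)))),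
 (.br (nat_lit 8) (nat_lit 1) (.cons (.ev (nat_lit 1213666632841572546248961) (nat_lit 1)) (.cons (.rf (nat_lit 2237) (nat_lit 493823368284531170464)) (.cons (.rf (nat_lit 2204) (nat_lit 493750222348060035104)) .nil)))),
 (.br (nat_lit 12) (nat_lit 0) (.cons (.rf (nat_lit 2242) (nat_lit 493858305440582043680)) (.cons (.rf (nat_lit 2243) (nat_lit 493858305440582043680)) (.cons (.br (nat_lit 7) (nat_lit 0) (.cons (.br (nat_lit 2) (nat_lit 0) (.cons (.br (nat_lit 5) (nat_lit 0) (.cons (.ev (nat_lit 80160249098966834900807844354) (nat_lit 2)) .nil)) .nil)) (.cons (.rf (nat_lit 2241) (nat_lit 493858305440582043680)) .nil))) .nil)))),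
 (.br (nat_lit 8) (nat_lit 1) (.cons (.rf (nat_lit 2108) (nat_lit 154366014478621856)) (.cons (.br (nat_lit 7) (nat_lit 0) (.cons (.br (nat_lit 5) (nat_lit 0) (.cons (.ev (nat_lit 72340172821233921) (nat_lit 1)) .nil)) (.cons (.ev (nat_lit 79228167236631101938182717441) (nat_lit 1)) .nil))) .nil))),
 (.br (nat_lit 12) (nat_lit 0) (.cons (.ev (nat_lit 20361947251175756106613814984961) (nat_lit 1)) (.cons (.br (nat_lit 6) (nat_lit 1) (.cons (.br (nat_lit 8) (nat_lit 1) (.cons (.ev (nat_lit 79229376180897460641066975233) (nat_lit 1)) .nil)) (.cons (.br (nat_lit 8) (nat_lit 1) (.cons (.ev (nat_lit 20441798015227936049609257976578) (nat_lit 2)) .nil)) .nil))) .nil))),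
 (.br (nat_lit 7) (nat_lit 0) (.cons (.rf (nat_lit 2246) (nat_lit 493858305440582043680)) (.cons (.br (nat_lit 4) (nat_lit 1) (.cons (.br (nat_lit 8) (nat_lit 1) (.cons (.ev (nat_lit 20522572389605374726011031720720) (nat_lit 5)) .nil)) (.cons (.ev (nat_lit 310693935713017296249159681) (nat_lit 1)) .nil))) .nil))),
 (.br (nat_lit 8) (nat_lit 1) (.cons (.rf (nat_lit 2194) (nat_lit 372964312800664736)) (.cons (.rf (nat_lit 2108) (nat_lit 154366014478621856)) .nil))),
 (.br (nat_lit 10) (nat_lit 1) (.cons (.br (nat_lit 8) (nat_lit 1) (.cons (.rf (nat_lit 2239) (nat_lit 493858305440582043680)) (.cons (.rf (nat_lit 2240) (nat_lit 493858305440582043680)) (.cons (.br (nat_lit 8) (nat_lit 1) (.cons (.rf (nat_lit 2239) (nat_lit 493858305440582043680)) (.cons (.rf (nat_lit 2240) (nat_lit 493858305440582043680)) .nil))) .nil)))) (.cons (.br (nat_lit 12) (nat_lit 0) (.cons (.rf (nat_lit 2242) (nat_lit 493858305440582043680)) (.cons (.rf (nat_lit 2244) (nat_lit 493858305440582043680)) (.cons (.rf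 (nat_lit 2243) (nat_lit 493858305440582043680)) (.cons (.br (nat_lit 12) (nat_lit 0) (.cons (.rf (nat_lit 2242) (nat_lit 493858305440582043680)) (.cons (.rf (nat_lit 2244) (nat_lit 493858305440582043680)) (.cons (.rf (nat_lit 2243) (nat_lit 493858305440582043680)) .nil)))) .nil))))) (.cons (.br (nat_lit 11) (nat_lit 1) (.cons (.br (nat_lit 8) (nat_lit 1) (.cons (.br (nat_lit 8) (nat_lit 1) (.cons (.rf (nat_lit 2108) (nat_lit 154366014478621856)) (.cons (.rf (nat_lit 2237) (nat_lit 493823368284531170464)) .nil))) (.cons (.rf (nat_lit 2245) (nat_lit 493858305440582043680)) (.cons (.br (nat_lit 8) (nat_lit 1) (.cons (.rf (nat_lit 2237) (nat_lit 493823368284531170464)) (.cons (.rf (nat_lit 2245) (nat_lit 493858305440582043680)) .nil))) .nil)))) (.cons (.br (nat_lit 7) (nat_lit 0) (.cons (.rf (nat_lit 2246) (nat_lit 493858305440582043680)) (.cons (.rf (nat_lit 2247) (nat_lit 493858305440582043680)) (.cons (.br (nat_lit 7) (nat_lit 0) (.cons (.rf (nat_lit 2246) (nat_lit 493858305440582043680))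 (.cons (.rf (nat_lit 2247) (nat_lit 493858305440582043680)) .nil))) .nil)))) (.cons (.br (nat_lit 12) (nat_lit 0) (.cons (.br (nat_lit 5) (nat_lit 0) (.cons (.ev (nat_lit 20361638975091754658748770025473) (nat_lit 1)) (.cons (.rf (nat_lit 2248) (nat_lit 493858305440582043680)) .nil))) (.cons (.ev (nat_lit 79537652246452165531930722561) (nat_lit 1)) (.cons (.br (nat_lit 6) (nat_lit 1) (.cons (.br (nat_lit 8) (nat_lit 1) (.cons (.rf (nat_lit 2237) (nat_lit 493823368284531170464)) (.cons (.ev (nat_lit 79229376180897460641066975233) (nat_lit 1)) .nil))) (.cons (.br (nat_lit 7) (nat_lit 0) (.cons (.br (nat_lit 8) (nat_lit 1) (.cons (.ev (nat_lit 80160249098966834900807844354) (nat_lit 2)) .nil)) (.cons (.br (nat_lit 4) (nat_lit 1) (.cons (.zr (nat_lit 9444733531987778928640) (nat_lit 310693954087703775971115009) (nat_lit 5) (nat_lit 0)) .nil)) .nil))) (.cons (.ev (nat_lit 20361638979814192916633653084161) (nat_lit 1)) .nil)))) .nil)))) (.cons (.kr (nat_lit 309485009821345068724781056) (nat_lit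 79228162514264337593543950336) (nat_lit 11) (nat_lit 0)) .nil))))) .nil)))),
 (.br (nat_lit 2) (nat_lit 0) (.cons (.br (nat_lit 12) (nat_lit 0) (.cons (.br (nat_lit 8) (nat_lit 1) (.cons (.ev (nat_lit 1208944266358702884323329) (nat_lit 1)) .nil)) .nil)) (.cons (.br (nat_lit 6) (nat_lit 1) (.cons (.br (nat_lit 12) (nat_lit 0) (.cons (.ev (nat_lit 20996710734432121489700271098632) (nat_lit 4)) .nil)) (.cons (.br (nat_lit 8) (nat_lit 1) (.cons (.zr (nat_lit 618979464592394907342077952) (nat_lit 4835721725202607605022721) (nat_lit 5) (nat_lit 0)) .nil)) .nil))) .nil))),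
 (.br (nat_lit 7) (nat_lit 0) (.cons (.rf (nat_lit 2250) (nat_lit 493858305440582043680)) (.cons (.br (nat_lit 12) (nat_lit 0) (.cons (.ev (nat_lit 310693935713017296249159681) (nat_lit 1)) (.cons (.ev (nat_lit 20283340486033063059154324685570) (nat_lit 2)) .nil))) .nil))),
 (.br (nat_lit 10) (nat_lit 1) (.cons (.rf (nat_lit 2249) (nat_lit 493858305440582043680)) (.cons (.rf (nat_lit 2108) (nat_lit 112811073094360224)) (.cons (.br (nat_lit 11) (nat_lit 1) (.cons (.br (nat_lit 7) (nat_lit 0) (.cons (.rf (nat_lit 2250) (nat_lit 493858305440582043680)) (.cons (.rf (nat_lit 2251) (nat_lit 493858305440582043680)) (.cons (.br (nat_lit 7) (nat_lit 0) (.cons (.rf (nat_lit 2250) (nat_lit 493858305440582043680)) (.cons (.rf (nat_lit 2251) (nat_lit 493858305440582043680)) .nil))) .nil)))) (.cons (.br (nat_lit 6) (nat_lit 1) (.cons (.br (nat_lit 12) (nat_lit 0) (.cons (.br (nat_lit 7) (nat_lit 0) (.cons (.br (nat_lit 8) (nat_lit 1) (.cons (.ev (nat_lit 79537652264898910705135190273) (nat_lit 1))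 .nil)) .nil)) (.cons (.br (nat_lit 8) (nat_lit 1) (.cons (.br (nat_lit 4) (nat_lit 1) (.cons (.zr (nat_lit 1218370553146621248405504) (nat_lit 158765810056940879517614866433) (nat_lit 5) (nat_lit 3)) .nil)) (.cons (.br (nat_lit 2) (nat_lit 0) (.cons (.ev (nat_lit 313125991345748459913216770) (nat_lit 2)) .nil)) .nil))) .nil))) (.cons (.br (nat_lit 2) (nat_lit 0) (.cons (.br (nat_lit 8) (nat_lit 1) (.cons (.ev (nat_lit 20282410812577490039680249430273) (nat_lit 1)) (.cons (.ev (nat_lit 79229371440156009821068328961) (nat_lit 1)) .nil))) (.cons (.br (nat_lit 2) (nat_lit 0) (.cons (.ev (nat_lit 20282410812577490039680249430273) (nat_lit 1)) .nil)) .nil))) (.cons (.ev (nat_lit 79537652246452165531930722561) (nat_lit 1)) .nil)))) (.cons (.kr (nat_lit 309485009821345068724781056) (nat_lit 79228162514264337593543950336) (nat_lit 11) (nat_lit 0)) .nil)))) .nil)))),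
 (.br (nat_lit 8) (nat_lit 1) (.cons (.rf (nat_lit 2204) (nat_lit 493820028142284277792)) (.cons (.kr (nat_lit 72057598332895232) (nat_lit 79228162514264338693055578112) (nat_lit 4) (nat_lit 0)) .nil))),
 (.br (nat_lit 10) (nat_lit 1) (.cons (.rf (nat_lit 2249) (nat_lit 493858305440582043680)) (.cons (.rf (nat_lit 2108) (nat_lit 112811073094360224)) (.cons (.br (nat_lit 12) (nat_lit 0) (.cons (.br (nat_lit 8) (nat_lit 1) (.cons (.br (nat_lit 8) (nat_lit 1) (.cons (.rf (nat_lit 2194) (nat_lit 372964312800664736)) (.cons (.rf (nat_lit 2204) (nat_lit 493820028142284277792)) .nil))) (.cons (.rf (nat_lit 2248) (nat_lit 493858305440582043680)) (.cons (.rf (nat_lit 2253) (nat_lit 493858305440582043680)) .nil)))) (.cons (.br (nat_lit 7) (nat_lit 0) (.cons (.br (nat_lit 11) (nat_lit 1) (.cons (.br (nat_lit 5) (nat_lit 0) (.cons (.br (nat_lit 2) (nat_lit 0) (.cons (.ev (nat_lit 310698713564411624597553410) (nat_lit 2)) .nil)) .nil)) (.cons (.ev (nat_lit 79228167236702879161050464513) (nat_lit 1))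 .nil))) (.cons (.br (nat_lit 8) (nat_lit 1) (.cons (.rf (nat_lit 2204) (nat_lit 493820028142284277792)) (.cons (.rf (nat_lit 2108) (nat_lit 154366014478621856)) .nil))) (.cons (.ev (nat_lit 79537652246452165531930722561) (nat_lit 1)) .nil)))) (.cons (.br (nat_lit 8) (nat_lit 1) (.cons (.br (nat_lit 2) (nat_lit 0) (.cons (.br (nat_lit 6) (nat_lit 1) (.cons (.ev (nat_lit 79228162532711364241758683393) (nat_lit 1)) (.cons (.ev (nat_lit 1213648258436572129525761) (nat_lit 1)) .nil))) (.cons (.br (nat_lit 11) (nat_lit 1) (.cons (.ev (nat_lit 40644356869031419469512199701250) (nat_lit 2)) (.cons (.br (nat_lit 5) (nat_lit 0) (.cons (.zr (nat_lit 1218370769316104827305984) (nat_lit 158765810056796766528562266113) (nat_lit 5) (nat_lit 11)) .nil)) .nil))) (.cons (.br (nat_lit 7) (nat_lit 0) (.cons (.ev (nat_lit 20362569857436037350460412330754) (nat_lit 2)) (.cons (.br (nat_lit 5) (nat_lit 0) (.cons (.ev (nat_lit 20838244690846724566973849600260) (nat_lit 3)) .nil)) .nil))) .nil)))) (.cons (.rf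 (nat_lit 2237) (nat_lit 493823368284531170464)) (.cons (.rf (nat_lit 2220) (nat_lit 493820028142284277792)) .nil)))) (.cons (.kr (nat_lit 309485009821345068724781056) (nat_lit 79228162514264337593543950336) (nat_lit 11) (nat_lit 0)) .nil))))) .nil)))),
 (.br (nat_lit 13) (nat_lit 0) (.cons (.rf (nat_lit 2222) (nat_lit 493858305440582043680)) (.cons (.rf (nat_lit 2237) (nat_lit 493858305440582043680)) (.cons (.br (nat_lit 10) (nat_lit 1) (.cons (.rf (nat_lit 2249) (nat_lit 493858305440582043680)) (.cons (.rf (nat_lit 2252) (nat_lit 493858305440582043680)) (.cons (.rf (nat_lit 2254) (nat_lit 493858305440582043680)) (.cons (.br (nat_lit 10) (nat_lit 1) (.cons (.rf (nat_lit 2249) (nat_lit 493858305440582043680)) (.cons (.rf (nat_lit 2252) (nat_lit 493858305440582043680)) (.cons (.rf (nat_lit 2254) (nat_lit 493858305440582043680)) .nil)))) .nil))))) .nil)))),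
 (.br (nat_lit 10) (nat_lit 1) (.cons (.kr (nat_lit 36965545741457031424) (nat_lit 20361637766165934762640306929664) (nat_lit 1) (nat_lit 0)) .nil)),
 (.br (nat_lit 8) (nat_lit 1) (.cons (.br (nat_lit 10) (nat_lit 1) (.cons (.rf (nat_lit 2238) (nat_lit 493817776344618076192)) (.cons (.ev (nat_lit 1213666632841572546248961) (nat_lit 1)) .nil))) (.cons (.br (nat_lit 11) (nat_lit 1) (.cons (.br (nat_lit 7) (nat_lit 0) (.cons (.rf (nat_lit 2256) (nat_lit 493858305440582043680)) (.cons (.ev (nat_lit 1213666632841572546248961) (nat_lit 1)) .nil))) (.cons (.ev (nat_lit 20361947255898122590578676924673) (nat_lit 1)) .nil))) .nil))),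
 (.br (nat_lit 11) (nat_lit 1) (.cons (.rf (nat_lit 2257) (nat_lit 493858305440582043680)) (.cons (.br (nat_lit 10) (nat_lit 1) (.cons (.rf (nat_lit 2198) (nat_lit 493853801845249640480)) (.cons (.br (nat_lit 8) (nat_lit 1) (.cons (.zr (nat_lit 20282409608374181024203995676928) (nat_lit 620178945462586241634533377) (nat_lit 5) (nat_lit 0)) (.cons (.ev (nat_lit 1213666632841572546248961) (nat_lit 1)) .nil))) (.cons (.br (nat_lit 2) (nat_lit 0) (.cons (.ev (nat_lit 310693935641241177171230721) (nat_lit 1)) (.cons (.br (nat_lit 4) (nat_lit 1) (.cons (.ev (nat_lit 79538861190718525338604797953) (nat_lit 1)) .nil)) .nil))) .nil)))) .nil))),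
 (.br (nat_lit 11) (nat_lit 1) (.cons (.rf (nat_lit 2110) (nat_lit 115065685056)) (.cons (.rf (nat_lit 2108) (nat_lit 114991403579579552)) (.cons (.rf (nat_lit 2204) (nat_lit 493853804042125412384)) .nil)))),
 (.br (nat_lit 7) (nat_lit 0) (.cons (.br (nat_lit 2) (nat_lit 0) (.cons (.br (nat_lit 12) (nat_lit 0) (.cons (.br (nat_lit 5) (nat_lit 0) (.cons (.ev (nat_lit 310693935713017296249159681) (nat_lit 1)) .nil)) .nil)) (.cons (.ev (nat_lit 20282409608392555989959620755713) (nat_lit 1)) .nil))) (.cons (.ev (nat_lit 1213648258436572129525761) (nat_lit 1)) (.cons (.rf (nat_lit 2259) (nat_lit 493858305440582043680)) .nil)))),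
 (.br (nat_lit 5) (nat_lit 0) (.cons (.br (nat_lit 11) (nat_lit 1) (.cons (.ev (nat_lit 310693954159761365663809793) (nat_lit 1)) .nil)) .nil)),
 (.br (nat_lit 7) (nat_lit 0) (.cons (.br (nat_lit 2) (nat_lit 0) (.cons (.rf (nat_lit 2261) (nat_lit 493858305440582043680)) (.cons (.br (nat_lit 5) (nat_lit 0) (.cons (.br (nat_lit 11) (nat_lit 1) (.cons (.ev (nat_lit 20838863670310956107662581236996) (nat_lit 3)) .nil)) (.cons (.rf (nat_lit 2153) (nat_lit 493820092839395171488)) .nil))) .nil))) (.cons (.ev (nat_lit 1213666632841572546248961) (nat_lit 1)) (.cons (.rf (nat_lit 2259) (nat_lit 493858305440582043680)) .nil)))),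
 (.br (nat_lit 12) (nat_lit 0) (.cons (.rf (nat_lit 2260) (nat_lit 493858305440582043680)) (.cons (.rf (nat_lit 2262) (nat_lit 493858305440582043680)) (.cons (.br (nat_lit 7) (nat_lit 0) (.cons (.br (nat_lit 11) (nat_lit 1) (.cons (.br (nat_lit 5) (nat_lit 0) (.cons (.zr (nat_lit 2417851855402040463196928) (nat_lit 309489750634853491368001537) (nat_lit 5) (nat_lit 0)) .nil)) (.cons (.br (nat_lit 2) (nat_lit 0) (.cons (.zr (nat_lit 2417851855402040463196928) (nat_lit 309489750634853491368001537) (nat_lit 5) (nat_lit 0)) .nil)) .nil))) (.cons (.ev (nat_lit 1213666632841572546248961) (nat_lit 1)) (.cons (.rf (nat_lit 2204) (nat_lit 493853804042125412384)) .nil)))) .nil)))),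
 (.br (nat_lit 12) (nat_lit 0) (.cons (.kr (nat_lit 36965545741457031424) (nat_lit 20361637766165934762640306929664) (nat_lit 1) (nat_lit 0)) .nil)),
 (.br (nat_lit 11) (nat_lit 1) (.cons (.rf (nat_lit 2264) (nat_lit 493858305440582043680)) (.cons (.ev (nat_lit 20361637770888301526984928788481) (nat_lit 1)) .nil))),
 (.br (nat_lit 7) (nat_lit 0) (.cons (.br (nat_lit 12) (nat_lit 0) (.cons (.ev (nat_lit 1213666632841572546248961) (nat_lit 1)) (.cons (.br (nat_lit 11) (nat_lit 1) (.cons (.ev (nat_lit 4722438821938659918081) (nat_lit 1)) (.cons (.br (nat_lit 2) (nat_lit 0) (.cons (.ev (nat_lit 79538856468352042468976427265) (nat_lit 1)) .nil)) .nil))) .nil))) (.cons (.br (nat_lit 8) (nat_lit 1) (.cons (.ev (nat_lit 20282409603688636814117950325506) (nat_lit 2)) (.cons (.br (nat_lit 11) (nat_lit 1) (.cons (.ev (nat_lit 1208944266358702884323329) (nat_lit 1)) (.cons (.ev (nat_lit 79229371458530978875228291073) (nat_lit 1)) .nil))) (.cons (.ev (nat_lit 1213666632841572546248961) (nat_lit 1))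 .nil)))) (.cons (.br (nat_lit 5) (nat_lit 0) (.cons (.br (nat_lit 10) (nat_lit 1) (.cons (.br (nat_lit 12) (nat_lit 0) (.cons (.ev (nat_lit 20520098955342839126241923368196) (nat_lit 3)) .nil)) (.cons (.br (nat_lit 11) (nat_lit 1) (.cons (.ev (nat_lit 20837628129196951662919871300868) (nat_lit 3)) .nil)) .nil))) (.cons (.rf (nat_lit 2265) (nat_lit 493858305440582043680)) (.cons (.rf (nat_lit 2108) (nat_lit 114991403579579552)) .nil)))) .nil))))]

theorem c76 : chkAll C T R L76 (nat_lit 2240) = true := by decide +kernel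

theorem l76 : (nat_lit 2240) + L76.length = (nat_lit 2267) := by decide +kernel

/-- part of the certificates -/
def L77 : List Prf := [(.br (nat_lit 7) (nat_lit 0) (.cons (.rf (nat_lit 2266) (nat_lit 493858305440582043680)) (.cons (.br (nat_lit 2) (nat_lit 0) (.cons (.br (nat_lit 5) (nat_lit 0) (.cons (.br (nat_lit 12) (nat_lit 0) (.cons (.ev (nat_lit 310693935641241177171230721) (nat_lit 1)) .nil)) .nil)) (.cons (.br (nat_lit 11) (nat_lit 1) (.cons (.rf (nat_lit 2238) (nat_lit 493823400346594150432)) (.cons (.br (nat_lit 5) (nat_lit 0) (.cons (.ev (nat_lit 20838870923791799714657888962308) (nat_lit 3)) .nil)) .nil))) .nil))) (.cons (.br (nat_lit 5) (nat_lit 0) (.cons (.br (nat_lit 12) (nat_lit 0) (.cons (.ev (nat_lit 1213666632841572546248961) (nat_lit 1)) (.cons (.br (nat_lit 2) (nat_lit 0) (.cons (.ev (nat_lit 20520098955269052149964264767748) (nat_lit 3)) .nil)) .nil))) (.cons (.ev (nat_lit 20282410812577562377645457408001) (nat_lit 1)) (.cons (.rf (nat_lit 2108) (nat_lit 114991403579579552))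 .nil)))) .nil)))),
 (.br (nat_lit 7) (nat_lit 0) (.cons (.rf (nat_lit 2266) (nat_lit 493858305440582043680)) (.cons (.rf (nat_lit 2267) (nat_lit 493858305440582043680)) (.cons (.br (nat_lit 11) (nat_lit 1) (.cons (.ev (nat_lit 20282720302309749924108833914881) (nat_lit 1)) (.cons (.rf (nat_lit 2108) (nat_lit 114991403579579552)) (.cons (.br (nat_lit 2) (nat_lit 0) (.cons (.ev (nat_lit 20282719093383858533364909736193) (nat_lit 1)) (.cons (.ev (nat_lit 20441794383728326614146340619010) (nat_lit 2)) .nil))) .nil)))) .nil)))),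
 (.br (nat_lit 6) (nat_lit 1) (.cons (.br (nat_lit 11) (nat_lit 1) (.cons (.rf (nat_lit 2257) (nat_lit 493858305440582043680)) (.cons (.rf (nat_lit 2258) (nat_lit 493858305440582043680)) (.cons (.br (nat_lit 11) (nat_lit 1) (.cons (.rf (nat_lit 2257) (nat_lit 493858305440582043680)) (.cons (.rf (nat_lit 2258) (nat_lit 493858305440582043680)) .nil))) .nil)))) (.cons (.br (nat_lit 12) (nat_lit 0) (.cons (.rf (nat_lit 2260) (nat_lit 493858305440582043680)) (.cons (.rf (nat_lit 2262) (nat_lit 493858305440582043680)) (.cons (.rf (nat_lit 2263) (nat_lit 493858305440582043680)) (.cons (.br (nat_lit 12) (nat_lit 0) (.cons (.rf (nat_lit 2260) (nat_lit 493858305440582043680)) (.cons (.rf (nat_lit 2262) (nat_lit 493858305440582043680)) (.cons (.rf (nat_lit 2263) (nat_lit 493858305440582043680)) .nil)))) .nil))))) (.cons (.br (nat_lit 7) (nat_lit 0) (.cons (.rf (nat_lit 2266) (nat_lit 493858305440582043680)) (.cons (.rf (nat_lit 2267) (nat_lit 493858305440582043680)) (.cons (.rf (nat_lit 2268) (nat_lit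 493858305440582043680)) (.cons (.br (nat_lit 7) (nat_lit 0) (.cons (.rf (nat_lit 2266) (nat_lit 493858305440582043680)) (.cons (.rf (nat_lit 2267) (nat_lit 493858305440582043680)) (.cons (.rf (nat_lit 2268) (nat_lit 493858305440582043680)) .nil)))) .nil))))) .nil)))),
 (.br (nat_lit 11) (nat_lit 1) (.cons (.br (nat_lit 10) (nat_lit 1) (.cons (.br (nat_lit 7) (nat_lit 0) (.cons (.zr (nat_lit 1213648258718051401400320) (nat_lit 60847538295964832618010007044609) (nat_lit 5) (nat_lit 11)) (.cons (.ev (nat_lit 20282410812577562377645457408001) (nat_lit 1)) .nil))) (.cons (.ev (nat_lit 20282720302309749924108833914881) (nat_lit 1)) (.cons (.br (nat_lit 2) (nat_lit 0) (.cons (.rf (nat_lit 2255) (nat_lit 457824828835778364480)) (.cons (.rf (nat_lit 2255) (nat_lit 457929673865483879488)) .nil))) .nil)))) (.cons (.br (nat_lit 8) (nat_lit 1) (.cons (.ev (nat_lit 20361947255898122590578676924673) (nat_lit 1)) (.cons (.br (nat_lit 4) (nat_lit 1) (.cons (.ev (nat_lit 309485028268370621706076161) (nat_lit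 1)) (.cons (.zr (nat_lit 40644047369817677246380619334144) (nat_lit 309485028268652100994465793) (nat_lit 5) (nat_lit 0)) .nil))) .nil))) .nil))),
 (.br (nat_lit 11) (nat_lit 1) (.cons (.rf (nat_lit 2270) (nat_lit 493858305440582043680)) (.cons (.br (nat_lit 8) (nat_lit 1) (.cons (.br (nat_lit 2) (nat_lit 0) (.cons (.kr (nat_lit 79537647524085682662285574144) (nat_lit 9463179710912511606784) (nat_lit 2) (nat_lit 0)) (.cons (.br (nat_lit 4) (nat_lit 1) (.cons (.ev (nat_lit 79229376180969237863934722305) (nat_lit 1)) .nil)) .nil))) (.cons (.br (nat_lit 10) (nat_lit 1) (.cons (.ev (nat_lit 20282410812577562377645457408001) (nat_lit 1)) .nil)) .nil))) .nil))),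
 (.br (nat_lit 6) (nat_lit 1) (.cons (.rf (nat_lit 2269) (nat_lit 493858305440582043680)) (.cons (.rf (nat_lit 2108) (nat_lit 336795882096893088)) (.cons (.br (nat_lit 11) (nat_lit 1) (.cons (.rf (nat_lit 2270) (nat_lit 493858305440582043680)) (.cons (.rf (nat_lit 2271) (nat_lit 493858305440582043680)) (.cons (.br (nat_lit 11) (nat_lit 1) (.cons (.rf (nat_lit 2270) (nat_lit 493858305440582043680)) (.cons (.rf (nat_lit 2271) (nat_lit 493858305440582043680)) .nil))) .nil)))) .nil)))),
 (.br (nat_lit 11) (nat_lit 1) (.cons (.br (nat_lit 8) (nat_lit 1) (.cons (.rf (nat_lit 2198) (nat_lit 493679289556564805664)) (.cons (.br (nat_lit 12) (nat_lit 0) (.cons (.zr (nat_lit 282578800083200) (nat_lit 79228167236702878057227091969) (nat_lit 5) (nat_lit 3)) (.cons (.ev (nat_lit 1213666632841572546248961) (nat_lit 1)) .nil))) (.cons (.ev (nat_lit 20361947251175756107709048422401) (nat_lit 1)) .nil)))) (.cons (.rf (nat_lit 2204) (nat_lit 493679289556564805664)) (.cons (.br (nat_lit 2) (nat_lit 0) (.cons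 (.ev (nat_lit 20282719093383858533364909736193) (nat_lit 1)) (.cons (.br (nat_lit 10) (nat_lit 1) (.cons (.br (nat_lit 4) (nat_lit 1) (.cons (.ev (nat_lit 20678550472928647637446108841736) (nat_lit 4)) .nil)) (.cons (.br (nat_lit 4) (nat_lit 1) (.cons (.ev (nat_lit 20678560144335204554445146230536) (nat_lit 4)) .nil)) .nil))) (.cons (.br (nat_lit 5) (nat_lit 0) (.cons (.br (nat_lit 7) (nat_lit 0) (.cons (.ev (nat_lit 20837632964937123609592578769668) (nat_lit 3)) .nil)) (.cons (.br (nat_lit 4) (nat_lit 1) (.cons (.ev (nat_lit 79229371458530978875228291073) (nat_lit 1)) .nil)) .nil))) .nil)))) .nil)))),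
 (.br (nat_lit 11) (nat_lit 1) (.cons (.rf (nat_lit 2273) (nat_lit 493858305440582043680)) (.cons (.rf (nat_lit 2108) (nat_lit 114991403579579552)) (.cons (.br (nat_lit 4) (nat_lit 1) (.cons (.br (nat_lit 7) (nat_lit 0) (.cons (.br (nat_lit 10) (nat_lit 1) (.cons (.ev (nat_lit 20520101363712994323553732331268) (nat_lit 3)) .nil)) (.cons (.ev (nat_lit 1213648258436572129525761) (nat_lit 1)) .nil))) (.cons (.br (nat_lit 10) (nat_lit 1) (.cons (.br (nat_lit 8) (nat_lit 1) (.cons (.ev (nat_lit 79229376180969237863934722305) (nat_lit 1)) .nil)) .nil)) .nil))) .nil)))),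
 (.br (nat_lit 6) (nat_lit 1) (.cons (.rf (nat_lit 2269) (nat_lit 493858305440582043680)) (.cons (.rf (nat_lit 2108) (nat_lit 336795882096893088)) (.cons (.br (nat_lit 11) (nat_lit 1) (.cons (.rf (nat_lit 2273) (nat_lit 493858305440582043680)) (.cons (.rf (nat_lit 2274) (nat_lit 493858305440582043680)) (.cons (.br (nat_lit 11) (nat_lit 1) (.cons (.rf (nat_lit 2204) (nat_lit 493679289556564805664)) (.cons (.rf (nat_lit 2108) (nat_lit 114991403579579552)) (.cons (.rf (nat_lit 2220) (nat_lit 493853804042125412384)) .nil)))) (.cons (.br (nat_lit 11) (nat_lit 1) (.cons (.rf (nat_lit 2273) (nat_lit 493858305440582043680)) (.cons (.rf (nat_lit 2274) (nat_lit 493858305440582043680)) (.cons (.rf (nat_lit 2220) (nat_lit 493853804042125412384)) .nil)))) .nil))))) .nil)))),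
 (.br (nat_lit 6) (nat_lit 1) (.cons (.rf (nat_lit 2194) (nat_lit 112811245027263552)) (.cons (.br (nat_lit 4) (nat_lit 1) (.cons (.br (nat_lit 12) (nat_lit 0) (.cons (.br (nat_lit 11) (nat_lit 1) (.cons (.ev (nat_lit 158769451038320602576062578690) (nat_lit 2)) .nil)) (.cons (.ev (nat_lit 79229371440084233701990400001) (nat_lit 1)) .nil))) (.cons (.br (nat_lit 11) (nat_lit 1) (.cons (.br (nat_lit 8) (nat_lit 1) (.cons (.ev (nat_lit 20678557698112614233671234421508) (nat_lit 3)) .nil)) (.cons (.ev (nat_lit 309489732259886636231295233) (nat_lit 1)) .nil))) (.cons (.rf (nat_lit 2215) (nat_lit 493817776344618076192)) .nil)))) .nil))),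
 (.br (nat_lit 6) (nat_lit 1) (.cons (.rf (nat_lit 2194) (nat_lit 406806352053339200)) (.cons (.rf (nat_lit 2110) (nat_lit 113991943232)) (.cons (.rf (nat_lit 2255) (nat_lit 493563215148105401408)) .nil)))),
 (.br (nat_lit 2) (nat_lit 0) (.cons (.rf (nat_lit 2277) (nat_lit 493858305440582043680)) (.cons (.br (nat_lit 7) (nat_lit 0) (.cons (.br (nat_lit 6) (nat_lit 1) (.cons (.rf (nat_lit 2108) (nat_lit 336795882096893088)) (.cons (.rf (nat_lit 2204) (nat_lit 493678164756169590816)) .nil))) (.cons (.ev (nat_lit 310698658079500165877661953) (nat_lit 1)) .nil))) (.cons (.br (nat_lit 5) (nat_lit 0) (.cons (.br (nat_lit 7) (nat_lit 0) (.cons (.rf (nat_lit 2108) (nat_lit 336795882096893088)) (.cons (.ev (nat_lit 1213666632842676336066561) (nat_lit 1)) .nil))) (.cons (.br (nat_lit 12) (nat_lit 0) (.cons (.rf (nat_lit 2204) (nat_lit 458001842506968663104)) .nil)) .nil))) .nil)))),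
 (.br (nat_lit 6) (nat_lit 1) (.cons (.rf (nat_lit 2255) (nat_lit 493563215148105401408)) (.cons (.br (nat_lit 12) (nat_lit 0) (.cons (.rf (nat_lit 2278) (nat_lit 493858305440582043680)) (.cons (.br (nat_lit 4) (nat_lit 1) (.cons (.ev (nat_lit 79228162514264620172344033281) (nat_lit 1)) (.cons (.ev (nat_lit 1213666632842676336066561) (nat_lit 1)) .nil))) (.cons (.br (nat_lit 4) (nat_lit 1) (.cons (.ev (nat_lit 79229371440084233701990400001) (nat_lit 1)) (.cons (.ev (nat_lit 309489732259886636231295233) (nat_lit 1)) .nil))) .nil)))) (.cons (.rf (nat_lit 2204) (nat_lit 493678164756169590816)) .nil)))),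
 (.br (nat_lit 5) (nat_lit 0) (.cons (.br (nat_lit 13) (nat_lit 1) (.cons (.kr (nat_lit 79228162514264619068520661248) (nat_lit 309485009821346168236474368) (nat_lit 1) (nat_lit 0)) .nil)) .nil)),
 (.br (nat_lit 12) (nat_lit 0) (.cons (.rf (nat_lit 2278) (nat_lit 493858305440582043680)) (.cons (.rf (nat_lit 2279) (nat_lit 493858305440582043680)) (.cons (.br (nat_lit 2) (nat_lit 0) (.cons (.rf (nat_lit 2280) (nat_lit 15433072044983552032)) (.cons (.rf (nat_lit 2277) (nat_lit 493858305440582043680)) .nil))) .nil)))),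
 (.br (nat_lit 7) (nat_lit 0) (.cons (.br (nat_lit 6) (nat_lit 1) (.cons (.ev (nat_lit 79229376180897460641066975233) (nat_lit 1)) .nil)) .nil)),
 (.br (nat_lit 10) (nat_lit 1) (.cons (.br (nat_lit 6) (nat_lit 1) (.cons (.br (nat_lit 6) (nat_lit 1) (.cons (.rf (nat_lit 2194) (nat_lit 112811245027263552)) (.cons (.rf (nat_lit 2255) (nat_lit 493563215216757769280)) .nil))) (.cons (.rf (nat_lit 2276) (nat_lit 493858305440582043680)) (.cons (.br (nat_lit 6) (nat_lit 1) (.cons (.rf (nat_lit 2255) (nat_lit 493563215216757769280)) (.cons (.rf (nat_lit 2276) (nat_lit 493858305440582043680)) .nil))) .nil)))) (.cons (.br (nat_lit 12) (nat_lit 0) (.cons (.rf (nat_lit 2278) (nat_lit 493858305440582043680)) (.cons (.rf (nat_lit 2279) (nat_lit 493858305440582043680)) (.cons (.rf (nat_lit 2281) (nat_lit 493858305440582043680)) (.cons (.br (nat_lit 12) (nat_lit 0) (.cons (.rf (nat_lit 2278) (nat_lit 493858305440582043680)) (.cons (.rf (nat_lit 2279) (nat_lit 493858305440582043680)) (.cons (.rf (nat_lit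 2281) (nat_lit 493858305440582043680)) .nil)))) .nil))))) (.cons (.br (nat_lit 11) (nat_lit 1) (.cons (.br (nat_lit 8) (nat_lit 1) (.cons (.ev (nat_lit 20282410812595936783749663948801) (nat_lit 1)) (.cons (.br (nat_lit 5) (nat_lit 0) (.cons (.br (nat_lit 12) (nat_lit 0) (.cons (.br (nat_lit 7) (nat_lit 0) (.cons (.ev (nat_lit 309489750634854586567884801) (nat_lit 1)) .nil)) .nil)) (.cons (.br (nat_lit 7) (nat_lit 0) (.cons (.ev (nat_lit 1213666632842676336066561) (nat_lit 1)) (.cons (.rf (nat_lit 2108) (nat_lit 336795882096893088)) .nil))) .nil))) (.cons (.br (nat_lit 7) (nat_lit 0) (.cons (.br (nat_lit 5) (nat_lit 0) (.cons (.br (nat_lit 7) (nat_lit 0) (.cons (.ev (nat_lit 20679795609891198336747075601668) (nat_lit 3)) .nil)) .nil)) (.cons (.br (nat_lit 6) (nat_lit 1) (.cons (.rf (nat_lit 2108) (nat_lit 336795882096893088)) .nil)) .nil))) .nil)))) (.cons (.br (nat_lit 8) (nat_lit 1) (.cons (.br (nat_lit 7) (nat_lit 0) (.cons (.rf (nat_lit 2282) (nat_lit 493858305440582043680)) (.cons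 (.br (nat_lit 7) (nat_lit 0) (.cons (.rf (nat_lit 2282) (nat_lit 493858305440582043680)) .nil)) .nil))) (.cons (.br (nat_lit 7) (nat_lit 0) (.cons (.br (nat_lit 2) (nat_lit 0) (.cons (.br (nat_lit 12) (nat_lit 0) (.cons (.ev (nat_lit 20837014013770197480173390463236) (nat_lit 3)) .nil)) .nil)) (.cons (.ev (nat_lit 309485028340147835983888641) (nat_lit 1)) .nil))) (.cons (.ev (nat_lit 20361948460120022466411932680193) (nat_lit 1)) .nil)))) (.cons (.br (nat_lit 5) (nat_lit 0) (.cons (.br (nat_lit 12) (nat_lit 0) (.cons (.ev (nat_lit 79537652246452165531930722561) (nat_lit 1)) (.cons (.ev (nat_lit 20361947251175756106613814984961) (nat_lit 1)) .nil))) (.cons (.br (nat_lit 6) (nat_lit 1) (.cons (.br (nat_lit 4) (nat_lit 1) (.cons (.rf (nat_lit 2238) (nat_lit 493850460422974669888)) (.cons (.rf (nat_lit 2137) (nat_lit 458009547779035208864)) .nil))) (.cons (.rf (nat_lit 2108) (nat_lit 336795882096893088)) (.cons (.ev (nat_lit 79537652246452165531930722561) (nat_lit 1)) .nil)))) (.cons (.ev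 (nat_lit 20282410812595936783749663948801) (nat_lit 1)) .nil)))) (.cons (.kr (nat_lit 309485009821345068724781056) (nat_lit 79228162514264337593543950336) (nat_lit 11) (nat_lit 0)) .nil))))) .nil)))),
 (.br (nat_lit 12) (nat_lit 0) (.cons (.ev (nat_lit 20361948460101575722342518161665) (nat_lit 1)) (.cons (.ev (nat_lit 20361637770888301526984928788481) (nat_lit 1)) (.cons (.br (nat_lit 6) (nat_lit 1) (.cons (.br (nat_lit 7) (nat_lit 0) (.cons (.ev (nat_lit 79228167236631103041972535553) (nat_lit 1)) .nil)) .nil)) .nil)))),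
 (.br (nat_lit 6) (nat_lit 1) (.cons (.rf (nat_lit 2284) (nat_lit 493858305440582043680)) (.cons (.br (nat_lit 4) (nat_lit 1) (.cons (.br (nat_lit 7) (nat_lit 0) (.cons (.ev (nat_lit 21472705923720601888505603362056) (nat_lit 4)) .nil)) (.cons (.br (nat_lit 2) (nat_lit 0) (.cons (.ev (nat_lit 20838863670311100788008156463876) (nat_lit 3)) .nil)) .nil))) .nil))),
 (.br (nat_lit 2) (nat_lit 0) (.cons (.ev (nat_lit 20282410812577490039680249430273) (nat_lit 1)) (.cons (.br (nat_lit 7) (nat_lit 0) (.cons (.ev (nat_lit 20282719093383930310579187679233) (nat_lit 1)) (.cons (.br (nat_lit 12) (nat_lit 0) (.cons (.ev (nat_lit 309489732188110517153366273) (nat_lit 1)) .nil)) .nil))) .nil))),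
 (.br (nat_lit 10) (nat_lit 1) (.cons (.rf (nat_lit 2283) (nat_lit 493858305440582043680)) (.cons (.rf (nat_lit 2108) (nat_lit 112811073094360224)) (.cons (.br (nat_lit 11) (nat_lit 1) (.cons (.br (nat_lit 6) (nat_lit 1) (.cons (.rf (nat_lit 2284) (nat_lit 493858305440582043680)) (.cons (.rf (nat_lit 2285) (nat_lit 493858305440582043680)) (.cons (.br (nat_lit 6) (nat_lit 1) (.cons (.ev (nat_lit 20361637770888301526984928788481) (nat_lit 1)) (.cons (.rf (nat_lit 2285) (nat_lit 493858305440582043680)) .nil))) .nil)))) (.cons (.br (nat_lit 6) (nat_lit 1) (.cons (.rf (nat_lit 2286) (nat_lit 493858305440582043680)) (.cons (.br (nat_lit 6) (nat_lit 1) (.cons (.rf (nat_lit 2286) (nat_lit 493858305440582043680)) (.cons (.ev (nat_lit 79537652246452165531930722561) (nat_lit 1)) .nil))) (.cons (.ev (nat_lit 79537652246452165531930722561) (nat_lit 1)) .nil)))) (.cons (.kr (nat_lit 309485009821345068724781056) (nat_lit 79228162514264337593543950336) (nat_lit 11) (nat_lit 0)) .nil)))) .nil)))),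
 (.br (nat_lit 6) (nat_lit 1) (.cons (.rf (nat_lit 2215) (nat_lit 493678164756169590816)) (.cons (.rf (nat_lit 2204) (nat_lit 493817776344618076192)) .nil))),
 (.br (nat_lit 6) (nat_lit 1) (.cons (.rf (nat_lit 2288) (nat_lit 493858305440582043680)) (.cons (.br (nat_lit 6) (nat_lit 1) (.cons (.rf (nat_lit 2288) (nat_lit 493858305440582043680)) (.cons (.kr (nat_lit 72057598332895232) (nat_lit 79228162514264338693055578112) (nat_lit 4) (nat_lit 0)) .nil))) (.cons (.rf (nat_lit 2253) (nat_lit 493858303243706271776)) .nil)))),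
 (.br (nat_lit 11) (nat_lit 1) (.cons (.ev (nat_lit 310693935641241177171230721) (nat_lit 1)) .nil))]

theorem c77 : chkAll C T R L77 (nat_lit 2267) = true := by decide +kernel

theorem l77 : (nat_lit 2267) + L77.length = (nat_lit 2291) := by decide +kernel

/-- part of the certificates -/
def L78 : List Prf := [(.br (nat_lit 4) (nat_lit 1) (.cons (.ev (nat_lit 1213666632842676336066561) (nat_lit 1)) .nil)),
 (.br (nat_lit 2) (nat_lit 0) (.cons (.br (nat_lit 6) (nat_lit 0) (.cons (.kr (nat_lit 79228162514264619068520661248) (nat_lit 309485009821346168236474368) (nat_lit 1) (nat_lit 0)) .nil)) .nil)),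
 (.br (nat_lit 5) (nat_lit 0) (.cons (.br (nat_lit 7) (nat_lit 0) (.cons (.rf (nat_lit 2108) (nat_lit 336795882096893088)) (.cons (.br (nat_lit 6) (nat_lit 1) (.cons (.ev (nat_lit 20520101363676101959107163391748) (nat_lit 3)) .nil)) .nil))) (.cons (.rf (nat_lit 2292) (nat_lit 15433072044983552032)) .nil))),
 (.br (nat_lit 6) (nat_lit 1) (.cons (.br (nat_lit 2) (nat_lit 0) (.cons (.rf (nat_lit 2293) (nat_lit 493858305440582043680)) (.cons (.br (nat_lit 4) (nat_lit 1) (.cons (.ev (nat_lit 20837011605400184706992183771396) (nat_lit 3)) .nil)) .nil))) (.cons (.rf (nat_lit 2204) (nat_lit 493817776344618076192)) .nil))),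
 (.br (nat_lit 10) (nat_lit 1) (.cons (.rf (nat_lit 2283) (nat_lit 493858305440582043680)) (.cons (.rf (nat_lit 2108) (nat_lit 112811073094360224)) (.cons (.br (nat_lit 12) (nat_lit 0) (.cons (.rf (nat_lit 2289) (nat_lit 493858305440582043680)) (.cons (.br (nat_lit 7) (nat_lit 0) (.cons (.br (nat_lit 11) (nat_lit 1) (.cons (.br (nat_lit 8) (nat_lit 1) (.cons (.ev (nat_lit 20361638979832639660711657668865) (nat_lit 1)) (.cons (.br (nat_lit 6) (nat_lit 1) (.cons (.ev (nat_lit 20837011605400184706992183771396) (nat_lit 3)) .nil)) .nil))) (.cons (.ev (nat_lit 79228167236702879161050464513) (nat_lit 1)) .nil))) (.cons (.rf (nat_lit 2220) (nat_lit 493817776344618076192)) (.cons (.br (nat_lit 6) (nat_lit 1) (.cons (.br (nat_lit 4) (nat_lit 1) (.cons (.rf (nat_lit 2290) (nat_lit 493858305440582043680)) (.cons (.ev (nat_lit 40644049787687692006543620834050) (nat_lit 2)) .nil))) (.cons (.rf (nat_lit 2291) (nat_lit 493858305440582043680)) .nil))) (.cons (.ev (nat_lit 79537652246452165531930722561)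 (nat_lit 1)) .nil))))) (.cons (.br (nat_lit 2) (nat_lit 0) (.cons (.rf (nat_lit 2293) (nat_lit 493858305440582043680)) (.cons (.rf (nat_lit 2294) (nat_lit 493858305440582043680)) (.cons (.br (nat_lit 2) (nat_lit 0) (.cons (.rf (nat_lit 2293) (nat_lit 493858305440582043680)) (.cons (.rf (nat_lit 2294) (nat_lit 493858305440582043680)) .nil))) .nil)))) (.cons (.kr (nat_lit 309485009821345068724781056) (nat_lit 79228162514264337593543950336) (nat_lit 11) (nat_lit 0)) .nil))))) .nil)))),
 (.br (nat_lit 13) (nat_lit 0) (.cons (.rf (nat_lit 2255) (nat_lit 493858305440582043680)) (.cons (.br (nat_lit 6) (nat_lit 1) (.cons (.rf (nat_lit 2269) (nat_lit 493858305440582043680)) (.cons (.rf (nat_lit 2272) (nat_lit 493858305440582043680)) (.cons (.rf (nat_lit 2275) (nat_lit 493858305440582043680)) (.cons (.br (nat_lit 6) (nat_lit 1) (.cons (.rf (nat_lit 2269) (nat_lit 493858305440582043680)) (.cons (.rf (nat_lit 2272) (nat_lit 493858305440582043680)) (.cons (.rf (nat_lit 2275) (nat_lit 493858305440582043680))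 .nil)))) .nil))))) (.cons (.br (nat_lit 10) (nat_lit 1) (.cons (.rf (nat_lit 2283) (nat_lit 493858305440582043680)) (.cons (.rf (nat_lit 2287) (nat_lit 493858305440582043680)) (.cons (.rf (nat_lit 2295) (nat_lit 493858305440582043680)) (.cons (.br (nat_lit 10) (nat_lit 1) (.cons (.rf (nat_lit 2283) (nat_lit 493858305440582043680)) (.cons (.rf (nat_lit 2287) (nat_lit 493858305440582043680)) (.cons (.rf (nat_lit 2295) (nat_lit 493858305440582043680)) .nil)))) .nil))))) .nil)))),
 (.br (nat_lit 11) (nat_lit 1) (.cons (.br (nat_lit 10) (nat_lit 1) (.cons (.rf (nat_lit 2238) (nat_lit 493853801845249640480)) (.cons (.br (nat_lit 7) (nat_lit 0) (.cons (.br (nat_lit 8) (nat_lit 1) (.cons (.ev (nat_lit 79541279079468262159047328258) (nat_lit 2)) .nil)) (.cons (.br (nat_lit 4) (nat_lit 1) (.cons (.ev (nat_lit 80160258506949866929858281474) (nat_lit 2)) .nil)) .nil))) .nil))) (.cons (.ev (nat_lit 20282719088661492051590481248513) (nat_lit 1)) .nil))),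
 (.br (nat_lit 8) (nat_lit 1) (.cons (.rf (nat_lit 2297) (nat_lit 493858305440582043680)) (.cons (.br (nat_lit 4) (nat_lit 1) (.cons (.br (nat_lit 7) (nat_lit 0) (.cons (.ev (nat_lit 1213666632842676336066561) (nat_lit 1)) (.cons (.ev (nat_lit 40565128697053976264335857615106) (nat_lit 2)) .nil))) (.cons (.ev (nat_lit 72339069031415809) (nat_lit 1)) (.cons (.rf (nat_lit 2289) (nat_lit 493856055839791613984)) .nil)))) .nil))),
 (.br (nat_lit 8) (nat_lit 1) (.cons (.rf (nat_lit 2194) (nat_lit 372964312800664736)) (.cons (.rf (nat_lit 2110) (nat_lit 111844459584)) (.cons (.br (nat_lit 5) (nat_lit 0) (.cons (.br (nat_lit 10) (nat_lit 1) (.cons (.rf (nat_lit 2264) (nat_lit 493570043113162081344)) (.cons (.br (nat_lit 11) (nat_lit 1) (.cons (.ev (nat_lit 79541279079468262159047328258) (nat_lit 2)) .nil)) .nil))) (.cons (.ev (nat_lit 20282410812595936783749663948801) (nat_lit 1)) (.cons (.br (nat_lit 4) (nat_lit 1) (.cons (.zr (nat_lit 18518803871065833728) (nat_lit 309489732188672363316903937)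 (nat_lit 5) (nat_lit 0)) (.cons (.ev (nat_lit 79537647542532427835506688001) (nat_lit 1)) .nil))) .nil)))) .nil)))),
 (.br (nat_lit 11) (nat_lit 1) (.cons (.kr (nat_lit 2417851711286852387340544) (nat_lit 20361637766165934762640306929664) (nat_lit 1) (nat_lit 0)) .nil)),
 (.br (nat_lit 8) (nat_lit 1) (.cons (.rf (nat_lit 2194) (nat_lit 372964312800664736)) (.cons (.rf (nat_lit 2108) (nat_lit 154366014478621856)) (.cons (.br (nat_lit 10) (nat_lit 1) (.cons (.br (nat_lit 4) (nat_lit 1) (.cons (.ev (nat_lit 20282409608374036906821208309761) (nat_lit 1)) (.cons (.rf (nat_lit 2296) (nat_lit 458116643612319220800)) .nil))) (.cons (.br (nat_lit 12) (nat_lit 0) (.cons (.ev (nat_lit 1213648258436572129525761) (nat_lit 1)) (.cons (.br (nat_lit 2) (nat_lit 0) (.cons (.zr (nat_lit 618970019642693435984642048) (nat_lit 1213666633123051817926657) (nat_lit 5) (nat_lit 0)) .nil)) .nil))) (.cons (.br (nat_lit 7) (nat_lit 0) (.cons (.rf (nat_lit 2300) (nat_lit 493858305440582043680)) (.cons (.br (nat_lit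 2) (nat_lit 0) (.cons (.ev (nat_lit 158768232667696246092847972610) (nat_lit 2)) .nil)) .nil))) .nil)))) .nil)))),
 (.br (nat_lit 2) (nat_lit 0) (.cons (.br (nat_lit 7) (nat_lit 0) (.cons (.br (nat_lit 10) (nat_lit 1) (.cons (.br (nat_lit 12) (nat_lit 0) (.cons (.ev (nat_lit 80157840655310637680098935298) (nat_lit 2)) .nil)) (.cons (.br (nat_lit 11) (nat_lit 1) (.cons (.ev (nat_lit 21472696271167194999256588945672) (nat_lit 4)) .nil)) .nil))) (.cons (.br (nat_lit 5) (nat_lit 0) (.cons (.rf (nat_lit 2194) (nat_lit 372964312800664736)) (.cons (.br (nat_lit 8) (nat_lit 1) (.cons (.ev (nat_lit 80157831210577671940774821890) (nat_lit 2)) .nil)) .nil))) (.cons (.ev (nat_lit 4722438821938659918081) (nat_lit 1)) .nil)))) (.cons (.ev (nat_lit 20282409608374036906821208309761) (nat_lit 1)) (.cons (.br (nat_lit 7) (nat_lit 0) (.cons (.ev (nat_lit 4722438821938659918081) (nat_lit 1)) (.cons (.br (nat_lit 5) (nat_lit 0) (.cons (.br (nat_lit 12) (nat_lit 0) (.cons (.ev (nat_lit 158769451038320602576062578690)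 (nat_lit 2)) .nil)) .nil)) .nil))) .nil)))),
 (.br (nat_lit 7) (nat_lit 0) (.cons (.rf (nat_lit 2302) (nat_lit 493858305440582043680)) (.cons (.br (nat_lit 5) (nat_lit 0) (.cons (.br (nat_lit 12) (nat_lit 0) (.cons (.br (nat_lit 11) (nat_lit 1) (.cons (.ev (nat_lit 20284580862776560116433961748228) (nat_lit 3)) .nil)) (.cons (.rf (nat_lit 2206) (nat_lit 458009479614677752992)) .nil))) (.cons (.rf (nat_lit 2108) (nat_lit 154366014478621856)) (.cons (.br (nat_lit 2) (nat_lit 0) (.cons (.br (nat_lit 8) (nat_lit 1) (.cons (.ev (nat_lit 22421596701352532994512796851984) (nat_lit 5)) .nil)) (.cons (.br (nat_lit 12) (nat_lit 0) (.cons (.ev (nat_lit 79538870672561998631431963138) (nat_lit 2)) .nil)) .nil))) .nil)))) (.cons (.br (nat_lit 12) (nat_lit 0) (.cons (.br (nat_lit 5) (nat_lit 0) (.cons (.rf (nat_lit 2108) (nat_lit 154366014478621856)) (.cons (.br (nat_lit 8) (nat_lit 1) (.cons (.ev (nat_lit 79538870672561998631431963138) (nat_lit 2)) .nil)) .nil))) (.cons (.br (nat_lit 10) (nat_lit 1)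 (.cons (.br (nat_lit 5) (nat_lit 0) (.cons (.ev (nat_lit 1208944338698875705491713) (nat_lit 1)) .nil)) (.cons (.ev (nat_lit 20361637770888301526984928788481) (nat_lit 1)) .nil))) (.cons (.ev (nat_lit 79537652246452165531930722561) (nat_lit 1)) .nil)))) .nil)))),
 (.br (nat_lit 7) (nat_lit 0) (.cons (.rf (nat_lit 2302) (nat_lit 493858305440582043680)) (.cons (.rf (nat_lit 2303) (nat_lit 493858305440582043680)) (.cons (.br (nat_lit 2) (nat_lit 0) (.cons (.br (nat_lit 12) (nat_lit 0) (.cons (.br (nat_lit 8) (nat_lit 1) (.cons (.ev (nat_lit 20837630575419538599405481821956) (nat_lit 3)) .nil)) .nil)) (.cons (.br (nat_lit 5) (nat_lit 0) (.cons (.br (nat_lit 12) (nat_lit 0) (.cons (.ev (nat_lit 80157831210577671940774821890) (nat_lit 2)) .nil)) (.cons (.zr (nat_lit 40565128692313234252756288733184) (nat_lit 3631518272352305872371713) (nat_lit 5) (nat_lit 0)) .nil))) .nil))) .nil)))),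
 (.br (nat_lit 6) (nat_lit 1) (.cons (.br (nat_lit 8) (nat_lit 1) (.cons (.rf (nat_lit 2297) (nat_lit 493858305440582043680)) (.cons (.rf (nat_lit 2298) (nat_lit 493858305440582043680)) (.cons (.br (nat_lit 8) (nat_lit 1) (.cons (.rf (nat_lit 2297) (nat_lit 493858305440582043680)) (.cons (.rf (nat_lit 2298) (nat_lit 493858305440582043680)) .nil))) .nil)))) (.cons (.br (nat_lit 8) (nat_lit 1) (.cons (.rf (nat_lit 2299) (nat_lit 493858305440582043680)) (.cons (.rf (nat_lit 2301) (nat_lit 493858305440582043680)) (.cons (.br (nat_lit 8) (nat_lit 1) (.cons (.rf (nat_lit 2110) (nat_lit 111844459584)) (.cons (.rf (nat_lit 2108) (nat_lit 154366014478621856)) (.cons (.rf (nat_lit 2204) (nat_lit 493745718752727631904)) .nil)))) (.cons (.br (nat_lit 8) (nat_lit 1) (.cons (.rf (nat_lit 2299) (nat_lit 493858305440582043680)) (.cons (.rf (nat_lit 2301) (nat_lit 493858305440582043680)) (.cons (.rf (nat_lit 2204) (nat_lit 493745718752727631904)) .nil)))) .nil))))) (.cons (.br (nat_lit 7) (nat_lit 0)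 (.cons (.rf (nat_lit 2302) (nat_lit 493858305440582043680)) (.cons (.rf (nat_lit 2303) (nat_lit 493858305440582043680)) (.cons (.rf (nat_lit 2304) (nat_lit 493858305440582043680)) (.cons (.br (nat_lit 7) (nat_lit 0) (.cons (.rf (nat_lit 2302) (nat_lit 493858305440582043680)) (.cons (.rf (nat_lit 2303) (nat_lit 493858305440582043680)) (.cons (.rf (nat_lit 2304) (nat_lit 493858305440582043680)) .nil)))) .nil))))) .nil)))),
 (.br (nat_lit 12) (nat_lit 0) (.cons (.kr (nat_lit 20361637766166006819134833164544) (nat_lit 618970019642691236961255424) (nat_lit 1) (nat_lit 0)) .nil)),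
 (.br (nat_lit 8) (nat_lit 1) (.cons (.br (nat_lit 7) (nat_lit 0) (.cons (.br (nat_lit 10) (nat_lit 1) (.cons (.ev (nat_lit 1223111582264880380641794) (nat_lit 2)) (.cons (.ev (nat_lit 1213666632842676336066561) (nat_lit 1)) .nil))) (.cons (.br (nat_lit 4) (nat_lit 1) (.cons (.rf (nat_lit 2306) (nat_lit 493858305440582043680)) (.cons (.ev (nat_lit 1213666632842676336066561) (nat_lit 1)) .nil))) (.cons (.br (nat_lit 12) (nat_lit 0) (.cons (.br (nat_lit 2) (nat_lit 0) (.cons (.ev (nat_lit 1208925891953702501155073) (nat_lit 1)) .nil)) (.cons (.ev (nat_lit 79537652246452165531930722561) (nat_lit 1)) .nil))) .nil)))) (.cons (.br (nat_lit 4) (nat_lit 1) (.cons (.ev (nat_lit 79228162514264620172344033281) (nat_lit 1)) (.cons (.br (nat_lit 10) (nat_lit 1) (.cons (.br (nat_lit 7) (nat_lit 0) (.cons (.ev (nat_lit 20678550435149568837928263943428) (nat_lit 3)) .nil)) (.cons (.ev (nat_lit 1213666632842676336066561) (nat_lit 1)) .nil))) .nil))) .nil))),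
 (.br (nat_lit 10) (nat_lit 1) (.cons (.ev (nat_lit 1213666632842676336066561) (nat_lit 1)) .nil)),
 (.br (nat_lit 8) (nat_lit 1) (.cons (.rf (nat_lit 2307) (nat_lit 493858305440582043680)) (.cons (.br (nat_lit 4) (nat_lit 1) (.cons (.ev (nat_lit 79228162514264620172344033281) (nat_lit 1)) (.cons (.rf (nat_lit 2308) (nat_lit 493858305440582043680)) .nil))) .nil))),
 (.br (nat_lit 6) (nat_lit 1) (.cons (.rf (nat_lit 2305) (nat_lit 493858305440582043680)) (.cons (.rf (nat_lit 2108) (nat_lit 336795882096893088)) (.cons (.br (nat_lit 8) (nat_lit 1) (.cons (.rf (nat_lit 2307) (nat_lit 493858305440582043680)) (.cons (.rf (nat_lit 2309) (nat_lit 493858305440582043680)) (.cons (.br (nat_lit 8) (nat_lit 1) (.cons (.rf (nat_lit 2307) (nat_lit 493858305440582043680)) (.cons (.rf (nat_lit 2309) (nat_lit 493858305440582043680)) .nil))) .nil)))) .nil)))),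
 (.br (nat_lit 8) (nat_lit 1) (.cons (.rf (nat_lit 2194) (nat_lit 372964312800664736)) (.cons (.kr (nat_lit 1208925819614629174706176) (nat_lit 20282409603651670423947251286016) (nat_lit 10) (nat_lit 0)) .nil))),
 (.br (nat_lit 6) (nat_lit 1) (.cons (.rf (nat_lit 2305) (nat_lit 493858305440582043680)) (.cons (.rf (nat_lit 2108) (nat_lit 336795882096893088)) (.cons (.br (nat_lit 12) (nat_lit 0) (.cons (.rf (nat_lit 2289) (nat_lit 493853804042125412384)) (.cons (.br (nat_lit 8) (nat_lit 1) (.cons (.br (nat_lit 10) (nat_lit 1) (.cons (.br (nat_lit 4) (nat_lit 1) (.cons (.br (nat_lit 11) (nat_lit 1) (.cons (.ev (nat_lit 20521951029624701198909961601796) (nat_lit 3)) .nil)) (.cons (.br (nat_lit 11) (nat_lit 1) (.cons (.ev (nat_lit 80159040117734650085296505090) (nat_lit 2)) .nil)) .nil))) (.cons (.ev (nat_lit 20282410812595936783749663948801) (nat_lit 1)) (.cons (.br (nat_lit 4) (nat_lit 1) (.cons (.ev (nat_lit 1213648258436572129525761) (nat_lit 1)) (.cons (.ev (nat_lit 79228162532783139265603174401)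 (nat_lit 1)) .nil))) .nil)))) (.cons (.br (nat_lit 10) (nat_lit 1) (.cons (.br (nat_lit 11) (nat_lit 1) (.cons (.br (nat_lit 4) (nat_lit 1) (.cons (.ev (nat_lit 20838863679755833755937880081156) (nat_lit 3)) .nil)) (.cons (.ev (nat_lit 20362569852713670870876416901890) (nat_lit 2)) .nil))) (.cons (.br (nat_lit 2) (nat_lit 0) (.cons (.ev (nat_lit 1213648258436572129525761) (nat_lit 1)) (.cons (.ev (nat_lit 20521023769372187333641784787714) (nat_lit 2)) .nil))) .nil))) (.cons (.rf (nat_lit 2220) (nat_lit 493745718752727631904)) .nil)))) (.cons (.br (nat_lit 7) (nat_lit 0) (.cons (.br (nat_lit 2) (nat_lit 0) (.cons (.rf (nat_lit 2311) (nat_lit 493858305440582043680)) (.cons (.br (nat_lit 2) (nat_lit 0) (.cons (.rf (nat_lit 2311) (nat_lit 493858305440582043680)) .nil)) .nil))) (.cons (.br (nat_lit 8) (nat_lit 1) (.cons (.rf (nat_lit 2204) (nat_lit 493675912958503389216)) (.cons (.rf (nat_lit 2108) (nat_lit 154366014478621856)) .nil))) (.cons (.ev (nat_lit 79537652246452165531930722561) (nat_lit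 1)) .nil)))) (.cons (.br (nat_lit 8) (nat_lit 1) (.cons (.br (nat_lit 8) (nat_lit 1) (.cons (.rf (nat_lit 2194) (nat_lit 372964312800664736)) (.cons (.rf (nat_lit 2204) (nat_lit 493675912958503389216)) .nil))) (.cons (.br (nat_lit 8) (nat_lit 1) (.cons (.rf (nat_lit 2194) (nat_lit 372964312800664736)) (.cons (.rf (nat_lit 2108) (nat_lit 154366014478621856)) .nil))) (.cons (.br (nat_lit 8) (nat_lit 1) (.cons (.rf (nat_lit 2204) (nat_lit 493675912958503389216)) (.cons (.rf (nat_lit 2108) (nat_lit 154366014478621856)) .nil))) .nil)))) .nil))))) .nil)))),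
 (.br (nat_lit 13) (nat_lit 0) (.cons (.rf (nat_lit 2255) (nat_lit 493858305440582043680)) (.cons (.rf (nat_lit 2296) (nat_lit 493858305440582043680)) (.cons (.br (nat_lit 6) (nat_lit 1) (.cons (.rf (nat_lit 2305) (nat_lit 493858305440582043680)) (.cons (.rf (nat_lit 2310) (nat_lit 493858305440582043680)) (.cons (.rf (nat_lit 2312) (nat_lit 493858305440582043680)) (.cons (.br (nat_lit 6) (nat_lit 1) (.cons (.rf (nat_lit 2305) (nat_lit 493858305440582043680)) (.cons (.rf (nat_lit 2310) (nat_lit 493858305440582043680)) (.cons (.rf (nat_lit 2312) (nat_lit 493858305440582043680)) .nil)))) .nil))))) .nil)))),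
 (.br (nat_lit 13) (nat_lit 0) (.cons (.rf (nat_lit 2255) (nat_lit 493858305440582043680)) (.cons (.rf (nat_lit 2296) (nat_lit 493858305440582043680)) (.cons (.rf (nat_lit 2313) (nat_lit 493858305440582043680)) (.cons (.br (nat_lit 13) (nat_lit 0) (.cons (.rf (nat_lit 2255) (nat_lit 493858305440582043680)) (.cons (.rf (nat_lit 2296) (nat_lit 493858305440582043680)) (.cons (.rf (nat_lit 2313) (nat_lit 493858305440582043680)) .nil)))) .nil)))))]

theorem c78 : chkAll C T R L78 (nat_lit 2291) = true := by decide +kernel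

theorem l78 : (nat_lit 2291) + L78.length = (nat_lit 2315) := by decide +kernel

/-- part of the certificates -/
def L79 : List Prf := [(.br (nat_lit 10) (nat_lit 0) (.cons (.br (nat_lit 10) (nat_lit 0) (.cons (.rf (nat_lit 2204) (nat_lit 381944915666906776640)) .nil)) .nil)),
 (.br (nat_lit 12) (nat_lit 0) (.cons (.rf (nat_lit 2280) (nat_lit 15431734970128893984)) (.cons (.br (nat_lit 7) (nat_lit 0) (.cons (.rf (nat_lit 2300) (nat_lit 458117633035178480864)) (.cons (.rf (nat_lit 2315) (nat_lit 447376203023778880)) .nil))) .nil))),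
 (.br (nat_lit 11) (nat_lit 1) (.cons (.kr (nat_lit 20282412021503381710799638626560) (nat_lit 79228162551157826840474746880) (nat_lit 1) (nat_lit 0)) .nil)),
 (.br (nat_lit 4) (nat_lit 1) (.cons (.br (nat_lit 10) (nat_lit 1) (.cons (.rf (nat_lit 2315) (nat_lit 482247182020347936)) (.cons (.ev (nat_lit 20282410817299856521446087983361) (nat_lit 1)) (.cons (.rf (nat_lit 2316) (nat_lit 493858305440582043680)) .nil)))) (.cons (.rf (nat_lit 2108) (nat_lit 299712654500568224)) (.cons (.br (nat_lit 7) (nat_lit 0) (.cons (.br (nat_lit 12) (nat_lit 0) (.cons (.br (nat_lit 5) (nat_lit 0) (.cons (.br (nat_lit 2) (nat_lit 0) (.cons (.zr (nat_lit 2417851855402040463196928) (nat_lit 309489750634853491368001537) (nat_lit 5) (nat_lit 0)) .nil)) .nil)) (.cons (.br (nat_lit 2) (nat_lit 0) (.cons (.rf (nat_lit 2317) (nat_lit 493858305440582043680)) (.cons (.ev (nat_lit 79537652264898909609935306753) (nat_lit 1)) .nil))) .nil))) (.cons (.ev (nat_lit 20282410817299856521446087983361) (nat_lit 1)) (.cons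 (.br (nat_lit 11) (nat_lit 1) (.cons (.rf (nat_lit 2315) (nat_lit 447129912419386432)) (.cons (.rf (nat_lit 2108) (nat_lit 114991403579579552)) (.cons (.rf (nat_lit 2220) (nat_lit 493851552242313824288)) .nil)))) .nil)))) .nil)))),
 (.br (nat_lit 7) (nat_lit 0) (.cons (.rf (nat_lit 2318) (nat_lit 493858305440582043680)) (.cons (.ev (nat_lit 20282410817299856521446087983361) (nat_lit 1)) (.cons (.br (nat_lit 5) (nat_lit 0) (.cons (.br (nat_lit 11) (nat_lit 1) (.cons (.ev (nat_lit 20282719093383858534460109619201) (nat_lit 1)) (.cons (.ev (nat_lit 309489750634854586567884801) (nat_lit 1)) .nil))) (.cons (.ev (nat_lit 20282409608374109246985439543553) (nat_lit 1)) (.cons (.rf (nat_lit 2108) (nat_lit 114991403579579552)) .nil)))) .nil)))),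
 (.br (nat_lit 12) (nat_lit 0) (.cons (.rf (nat_lit 2289) (nat_lit 458045641454751161504)) (.cons (.br (nat_lit 6) (nat_lit 1) (.cons (.rf (nat_lit 2220) (nat_lit 458077174346574568608)) (.cons (.br (nat_lit 11) (nat_lit 1) (.cons (.ev (nat_lit 79537647542532427835506688001) (nat_lit 1)) (.cons (.br (nat_lit 4) (nat_lit 1) (.cons (.ev (nat_lit 20837011586436642442959885762820) (nat_lit 3)) .nil)) .nil))) .nil))) .nil))),
 (.br (nat_lit 11) (nat_lit 1) (.cons (.br (nat_lit 6) (nat_lit 1) (.cons (.rf (nat_lit 2315) (nat_lit 482171247005894688)) (.cons (.br (nat_lit 4) (nat_lit 1) (.cons (.ev (nat_lit 20837628129196662311059038863620) (nat_lit 3)) .nil)) .nil))) .nil)),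
 (.br (nat_lit 4) (nat_lit 1) (.cons (.br (nat_lit 2) (nat_lit 0) (.cons (.rf (nat_lit 2315) (nat_lit 482176744556693536)) (.cons (.br (nat_lit 7) (nat_lit 0) (.cons (.zr (nat_lit 2417851855402040463196928) (nat_lit 309489750634853491368001537) (nat_lit 5) (nat_lit 0)) .nil)) .nil))) .nil)),
 (.br (nat_lit 10) (nat_lit 1) (.cons (.br (nat_lit 12) (nat_lit 0) (.cons (.rf (nat_lit 2320) (nat_lit 493858305440582043680)) (.cons (.rf (nat_lit 2314) (nat_lit 458082801641718914208)) (.cons (.br (nat_lit 12) (nat_lit 0) (.cons (.rf (nat_lit 2320) (nat_lit 493858305440582043680)) (.cons (.rf (nat_lit 2289) (nat_lit 458117704538831035552)) .nil))) .nil)))) (.cons (.ev (nat_lit 20282410817299856521446087983361) (nat_lit 1)) (.cons (.br (nat_lit 12) (nat_lit 0) (.cons (.br (nat_lit 11) (nat_lit 1) (.cons (.rf (nat_lit 2321) (nat_lit 493858305440582043680)) (.cons (.br (nat_lit 11) (nat_lit 1) (.cons (.rf (nat_lit 2321) (nat_lit 493858305440582043680)) .nil)) .nil))) (.cons (.rf (nat_lit 2314) (nat_lit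 458082801641718914208)) (.cons (.br (nat_lit 4) (nat_lit 1) (.cons (.rf (nat_lit 2322) (nat_lit 493858305440582043680)) (.cons (.br (nat_lit 4) (nat_lit 1) (.cons (.rf (nat_lit 2322) (nat_lit 493858305440582043680)) .nil)) .nil))) .nil)))) .nil)))),
 (.br (nat_lit 7) (nat_lit 0) (.cons (.br (nat_lit 11) (nat_lit 1) (.cons (.ev (nat_lit 309489750634854586567884801) (nat_lit 1)) .nil)) (.cons (.br (nat_lit 2) (nat_lit 0) (.cons (.ev (nat_lit 309489750634854586567884801) (nat_lit 1)) .nil)) .nil))),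
 (.br (nat_lit 12) (nat_lit 0) (.cons (.br (nat_lit 7) (nat_lit 0) (.cons (.br (nat_lit 5) (nat_lit 0) (.cons (.br (nat_lit 2) (nat_lit 0) (.cons (.ev (nat_lit 20679169395798409651618803286788) (nat_lit 3)) .nil)) .nil)) (.cons (.br (nat_lit 11) (nat_lit 1) (.cons (.ev (nat_lit 20361947255916641672621889487105) (nat_lit 1)) (.cons (.rf (nat_lit 2108) (nat_lit 114991403579579552)) .nil))) .nil))) (.cons (.br (nat_lit 4) (nat_lit 1) (.cons (.br (nat_lit 5) (nat_lit 0) (.cons (.br (nat_lit 7) (nat_lit 0) (.cons (.zr (nat_lit 9444733531987778928640) (nat_lit 310693954087703775971115009) (nat_lit 5) (nat_lit 0)) .nil)) (.cons (.ev (nat_lit 4722366483973451808769) (nat_lit 1)) .nil))) (.cons (.rf (nat_lit 2324) (nat_lit 493858305440582043680)) (.cons (.br (nat_lit 5) (nat_lit 0) (.cons (.ev (nat_lit 1213666632842676336066561) (nat_lit 1)) (.cons (.br (nat_lit 6) (nat_lit 1) (.cons (.ev (nat_lit 21475181803800038470498990752008) (nat_lit 4)) .nil)) .nil))) .nil)))) .nil))),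
 (.br (nat_lit 12) (nat_lit 0) (.cons (.rf (nat_lit 2325) (nat_lit 493858305440582043680)) (.cons (.br (nat_lit 7) (nat_lit 0) (.cons (.br (nat_lit 4) (nat_lit 1) (.cons (.ev (nat_lit 79228167255149622135231676673) (nat_lit 1)) (.cons (.rf (nat_lit 2108) (nat_lit 299712654500568224)) .nil))) (.cons (.br (nat_lit 5) (nat_lit 0) (.cons (.br (nat_lit 4) (nat_lit 1) (.cons (.ev (nat_lit 20520098955269052149964264767748) (nat_lit 3)) .nil)) .nil)) .nil))) .nil))),
 (.br (nat_lit 4) (nat_lit 1) (.cons (.br (nat_lit 2) (nat_lit 0) (.cons (.rf (nat_lit 2315) (nat_lit 482247113300871200)) (.cons (.br (nat_lit 6) (nat_lit 1) (.cons (.br (nat_lit 11) (nat_lit 1) (.cons (.ev (nat_lit 20837009187511650857080882004740) (nat_lit 3)) .nil)) .nil)) .nil))) (.cons (.br (nat_lit 2) (nat_lit 0) (.cons (.br (nat_lit 7) (nat_lit 0) (.cons (.br (nat_lit 11) (nat_lit 1) (.cons (.ev (nat_lit 310693935641241177171230721) (nat_lit 1)) .nil)) .nil)) (.cons (.br (nat_lit 11) (nat_lit 1) (.cons (.rf (nat_lit 2323)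 (nat_lit 493565395478590620736)) (.cons (.br (nat_lit 6) (nat_lit 1) (.cons (.ev (nat_lit 20838863670274207299869327425796) (nat_lit 3)) .nil)) .nil))) .nil))) .nil))),
 (.br (nat_lit 4) (nat_lit 1) (.cons (.rf (nat_lit 2327) (nat_lit 493858305440582043680)) (.cons (.br (nat_lit 11) (nat_lit 1) (.cons (.br (nat_lit 2) (nat_lit 0) (.cons (.ev (nat_lit 1208944266358702884323329) (nat_lit 1)) .nil)) (.cons (.ev (nat_lit 20361638975110273178937229050113) (nat_lit 1)) .nil))) .nil))),
 (.br (nat_lit 8) (nat_lit 1) (.cons (.br (nat_lit 7) (nat_lit 0) (.cons (.rf (nat_lit 2318) (nat_lit 493858305440582043680)) (.cons (.rf (nat_lit 2319) (nat_lit 493858305440582043680)) (.cons (.ev (nat_lit 20282410817299856521446087983361) (nat_lit 1)) (.cons (.br (nat_lit 7) (nat_lit 0) (.cons (.rf (nat_lit 2318) (nat_lit 493858305440582043680)) (.cons (.rf (nat_lit 2319) (nat_lit 493858305440582043680)) (.cons (.ev (nat_lit 20282410817299856521446087983361) (nat_lit 1)) .nil)))) .nil))))) (.cons (.rf (nat_lit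 2323) (nat_lit 493858305440582043680)) (.cons (.br (nat_lit 10) (nat_lit 1) (.cons (.br (nat_lit 12) (nat_lit 0) (.cons (.rf (nat_lit 2325) (nat_lit 493858305440582043680)) (.cons (.rf (nat_lit 2326) (nat_lit 493858305440582043680)) (.cons (.br (nat_lit 12) (nat_lit 0) (.cons (.rf (nat_lit 2325) (nat_lit 493858305440582043680)) (.cons (.rf (nat_lit 2326) (nat_lit 493858305440582043680)) .nil))) .nil)))) (.cons (.br (nat_lit 4) (nat_lit 1) (.cons (.rf (nat_lit 2327) (nat_lit 493858305440582043680)) (.cons (.rf (nat_lit 2328) (nat_lit 493858305440582043680)) (.cons (.br (nat_lit 4) (nat_lit 1) (.cons (.rf (nat_lit 2327) (nat_lit 493858305440582043680)) (.cons (.rf (nat_lit 2328) (nat_lit 493858305440582043680)) .nil))) .nil)))) (.cons (.ev (nat_lit 20282410817299856521446087983361) (nat_lit 1)) (.cons (.ev (nat_lit 1213666632841572546248961) (nat_lit 1)) .nil))))) (.cons (.kr (nat_lit 18446744073709551616) (nat_lit 20282409603651670423947251286016) (nat_lit 8) (nat_lit 0)) .nil))))),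
 (.br (nat_lit 10) (nat_lit 1) (.cons (.br (nat_lit 11) (nat_lit 1) (.cons (.ev (nat_lit 20282719093383930310579187679233) (nat_lit 1)) (.cons (.kr (nat_lit 309485009821345068724781056) (nat_lit 79228162514264337593543950336) (nat_lit 11) (nat_lit 0)) .nil))) .nil)),
 (.br (nat_lit 10) (nat_lit 1) (.cons (.rf (nat_lit 2108) (nat_lit 112811073094360224)) (.cons (.br (nat_lit 6) (nat_lit 1) (.cons (.br (nat_lit 7) (nat_lit 0) (.cons (.ev (nat_lit 79538856468424380434184404993) (nat_lit 1)) .nil)) .nil)) .nil))),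
 (.br (nat_lit 10) (nat_lit 1) (.cons (.rf (nat_lit 2108) (nat_lit 112811073094360224)) (.cons (.br (nat_lit 7) (nat_lit 0) (.cons (.br (nat_lit 5) (nat_lit 0) (.cons (.ev (nat_lit 20520098936379873322961928783108) (nat_lit 3)) .nil)) (.cons (.br (nat_lit 6) (nat_lit 1) (.cons (.ev (nat_lit 20520098936379873322961928783108) (nat_lit 3)) .nil)) .nil))) .nil))),
 (.br (nat_lit 10) (nat_lit 1) (.cons (.rf (nat_lit 2108) (nat_lit 112811073094360224)) (.cons (.ev (nat_lit 310693935641241177171230721) (nat_lit 1)) .nil))),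
 (.br (nat_lit 8) (nat_lit 1) (.cons (.br (nat_lit 10) (nat_lit 1) (.cons (.zr (nat_lit 9444733531987778928640) (nat_lit 310693954087703775971115009) (nat_lit 5) (nat_lit 0)) .nil)) .nil)),
 (.br (nat_lit 4) (nat_lit 1) (.cons (.br (nat_lit 2) (nat_lit 0) (.cons (.ev (nat_lit 1103823438081) (nat_lit 1)) (.cons (.br (nat_lit 10) (nat_lit 1) (.cons (.rf (nat_lit 2330) (nat_lit 493858305440582043680)) (.cons (.br (nat_lit 10) (nat_lit 1) (.cons (.rf (nat_lit 2330) (nat_lit 493858305440582043680)) .nil)) .nil))) (.cons (.br (nat_lit 11) (nat_lit 1) (.cons (.br (nat_lit 8) (nat_lit 1) (.cons (.ev (nat_lit 309485028340146740784005121) (nat_lit 1)) (.cons (.br (nat_lit 12) (nat_lit 0) (.cons (.rf (nat_lit 2140) (nat_lit 458045505109945851040)) (.cons (.br (nat_lit 7) (nat_lit 0) (.cons (.ev (nat_lit 79538870672561998631431963138) (nat_lit 2)) .nil)) .nil))) .nil))) (.cons (.br (nat_lit 12) (nat_lit 0) (.cons (.ev (nat_lit 79537647524085683766092169473) (nat_lit 1)) (.cons (.br (nat_lit 10) (nat_lit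 1) (.cons (.br (nat_lit 7) (nat_lit 0) (.cons (.ev (nat_lit 80160249099110389346543337474) (nat_lit 2)) .nil)) .nil)) (.cons (.kr (nat_lit 309485009821345068724781056) (nat_lit 79228162514264337593543950336) (nat_lit 11) (nat_lit 0)) .nil)))) .nil))) (.cons (.rf (nat_lit 2314) (nat_lit 458079526367442109504)) .nil))))) (.cons (.br (nat_lit 11) (nat_lit 1) (.cons (.rf (nat_lit 2314) (nat_lit 458079526298789741632)) (.cons (.br (nat_lit 2) (nat_lit 0) (.cons (.rf (nat_lit 2315) (nat_lit 482282297672960032)) (.cons (.rf (nat_lit 2315) (nat_lit 482282366392436768)) (.cons (.br (nat_lit 10) (nat_lit 1) (.cons (.rf (nat_lit 2110) (nat_lit 113991877696)) (.cons (.br (nat_lit 12) (nat_lit 0) (.cons (.br (nat_lit 7) (nat_lit 0) (.cons (.ev (nat_lit 21312392679189277996420032299272) (nat_lit 4)) .nil)) (.cons (.br (nat_lit 6) (nat_lit 1) (.cons (.ev (nat_lit 79538870672561998631431963138) (nat_lit 2)) .nil)) .nil))) .nil))) .nil)))) (.cons (.rf (nat_lit 2314) (nat_lit 458079526161183020256)) (.cons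 (.br (nat_lit 12) (nat_lit 0) (.cons (.br (nat_lit 8) (nat_lit 1) (.cons (.rf (nat_lit 2280) (nat_lit 15432860870035736608)) (.cons (.rf (nat_lit 2314) (nat_lit 458082801641718914208)) (.cons (.ev (nat_lit 20361947255916569333552891560193) (nat_lit 1)) .nil)))) (.cons (.br (nat_lit 6) (nat_lit 1) (.cons (.rf (nat_lit 2280) (nat_lit 15432860938753116192)) (.cons (.kr (nat_lit 79228162514264337593560727552) (nat_lit 4722366764344621924352) (nat_lit 3) (nat_lit 0)) (.cons (.br (nat_lit 2) (nat_lit 0) (.cons (.br (nat_lit 5) (nat_lit 0) (.cons (.ev (nat_lit 80160249099110389346543337474) (nat_lit 2)) .nil)) .nil)) .nil)))) (.cons (.kr (nat_lit 309485009821345068724781056) (nat_lit 79228162514264337593543950336) (nat_lit 11) (nat_lit 0)) .nil)))) .nil))))) (.cons (.br (nat_lit 11) (nat_lit 1) (.cons (.br (nat_lit 10) (nat_lit 1) (.cons (.rf (nat_lit 2331) (nat_lit 493858305440582043680)) (.cons (.rf (nat_lit 2332) (nat_lit 493858305440582043680)) (.cons (.br (nat_lit 10) (nat_lit 1) (.cons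 (.rf (nat_lit 2331) (nat_lit 493858305440582043680)) (.cons (.rf (nat_lit 2332) (nat_lit 493858305440582043680)) .nil))) .nil)))) (.cons (.ev (nat_lit 4722366483973451808769) (nat_lit 1)) (.cons (.br (nat_lit 2) (nat_lit 0) (.cons (.br (nat_lit 5) (nat_lit 0) (.cons (.br (nat_lit 12) (nat_lit 0) (.cons (.br (nat_lit 7) (nat_lit 0) (.cons (.ev (nat_lit 79229376162450716571652325633) (nat_lit 1)) .nil)) .nil)) (.cons (.rf (nat_lit 2333) (nat_lit 493858305440582043680)) .nil))) (.cons (.br (nat_lit 5) (nat_lit 0) (.cons (.br (nat_lit 7) (nat_lit 0) (.cons (.br (nat_lit 12) (nat_lit 0) (.cons (.ev (nat_lit 20680407326355779221722444792580) (nat_lit 3)) .nil)) .nil)) (.cons (.br (nat_lit 6) (nat_lit 1) (.cons (.ev (nat_lit 20282409603688780368563685818626) (nat_lit 2)) (.cons (.ev (nat_lit 40645904279950321083225924372228) (nat_lit 3)) .nil))) .nil))) (.cons (.br (nat_lit 12) (nat_lit 0) (.cons (.br (nat_lit 5) (nat_lit 0) (.cons (.rf (nat_lit 2314) (nat_lit 458082801641718914208)) (.cons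 (.br (nat_lit 7) (nat_lit 0) (.cons (.ev (nat_lit 79541279079468262159047328258) (nat_lit 2)) .nil)) .nil))) (.cons (.br (nat_lit 6) (nat_lit 1) (.cons (.br (nat_lit 10) (nat_lit 1) (.cons (.zr (nat_lit 9444733531987778928640) (nat_lit 310693954087703775971115009) (nat_lit 5) (nat_lit 0)) .nil)) (.cons (.ev (nat_lit 79228167255149622135231676673) (nat_lit 1)) .nil))) (.cons (.br (nat_lit 6) (nat_lit 1) (.cons (.br (nat_lit 7) (nat_lit 0) (.cons (.zr (nat_lit 9444733531987778928640) (nat_lit 310693954087703775971115009) (nat_lit 5) (nat_lit 0)) .nil)) (.cons (.ev (nat_lit 79229376162450716571652325633) (nat_lit 1)) .nil))) .nil)))) .nil)))) (.cons (.br (nat_lit 5) (nat_lit 0) (.cons (.br (nat_lit 10) (nat_lit 1) (.cons (.rf (nat_lit 2334) (nat_lit 493858305440582043680)) (.cons (.br (nat_lit 10) (nat_lit 1) (.cons (.rf (nat_lit 2334) (nat_lit 493858305440582043680)) .nil)) .nil))) (.cons (.rf (nat_lit 2329) (nat_lit 458082801641718914208)) (.cons (.br (nat_lit 10) (nat_lit 1) (.cons (.br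 (nat_lit 6) (nat_lit 1) (.cons (.br (nat_lit 8) (nat_lit 1) (.cons (.zr (nat_lit 618970019859425869516963840) (nat_lit 1213721973073797969870849) (nat_lit 5) (nat_lit 0)) .nil)) .nil)) (.cons (.rf (nat_lit 2108) (nat_lit 112811073094360224)) .nil))) .nil)))) .nil))))) .nil)))),
 (.br (nat_lit 10) (nat_lit 1) (.cons (.br (nat_lit 12) (nat_lit 0) (.cons (.br (nat_lit 11) (nat_lit 1) (.cons (.ev (nat_lit 79537647524085683766092169473) (nat_lit 1)) (.cons (.ev (nat_lit 20361947255898194929647708274945) (nat_lit 1)) .nil))) (.cons (.br (nat_lit 2) (nat_lit 0) (.cons (.ev (nat_lit 79228162514264620172344033281) (nat_lit 1)) (.cons (.ev (nat_lit 79538856449905297295738405121) (nat_lit 1)) .nil))) (.cons (.br (nat_lit 6) (nat_lit 1) (.cons (.ev (nat_lit 79229371440084233701990400001) (nat_lit 1)) (.cons (.ev (nat_lit 20361947255898194929647708274945) (nat_lit 1)) .nil))) .nil)))) (.cons (.br (nat_lit 8) (nat_lit 1) (.cons (.ev (nat_lit 1213648186098598331613441) (nat_lit 1)) (.cons (.br (nat_lit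 2) (nat_lit 0) (.cons (.ev (nat_lit 20361638975110201401722951237633) (nat_lit 1)) (.cons (.rf (nat_lit 2217) (nat_lit 493786071752758107296)) .nil))) .nil))) .nil))),
 (.br (nat_lit 10) (nat_lit 1) (.cons (.rf (nat_lit 2336) (nat_lit 493858305440582043680)) (.cons (.br (nat_lit 8) (nat_lit 1) (.cons (.br (nat_lit 7) (nat_lit 0) (.cons (.br (nat_lit 2) (nat_lit 0) (.cons (.ev (nat_lit 79537652264971249774166540545) (nat_lit 1)) .nil)) (.cons (.rf (nat_lit 2217) (nat_lit 493606103861456635936)) .nil))) (.cons (.br (nat_lit 11) (nat_lit 1) (.cons (.ev (nat_lit 20282719088661563826614325739521) (nat_lit 1)) .nil)) .nil))) .nil))),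
 (.br (nat_lit 4) (nat_lit 1) (.cons (.rf (nat_lit 2335) (nat_lit 493858305440582043680)) (.cons (.rf (nat_lit 2108) (nat_lit 299712654500568224)) (.cons (.br (nat_lit 10) (nat_lit 1) (.cons (.rf (nat_lit 2336) (nat_lit 493858305440582043680)) (.cons (.rf (nat_lit 2337) (nat_lit 493858305440582043680)) (.cons (.br (nat_lit 10) (nat_lit 1) (.cons (.rf (nat_lit 2336) (nat_lit 493858305440582043680)) (.cons (.rf (nat_lit 2337) (nat_lit 493858305440582043680)) .nil))) .nil)))) .nil))))]

theorem c79 : chkAll C T R L79 (nat_lit 2315) = true := by decide +kernel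

theorem l79 : (nat_lit 2315) + L79.length = (nat_lit 2339) := by decide +kernel

/-- part of the certificates -/
def L80 : List Prf := [(.br (nat_lit 2) (nat_lit 0) (.cons (.br (nat_lit 12) (nat_lit 0) (.cons (.br (nat_lit 11) (nat_lit 1) (.cons (.rf (nat_lit 2220) (nat_lit 458005221206141279392)) (.cons (.ev (nat_lit 20361947255898194928552474836993) (nat_lit 1)) .nil))) (.cons (.kr (nat_lit 20282409603670117168020960837888) (nat_lit 309485009821626543701557248) (nat_lit 1) (nat_lit 0)) .nil))) (.cons (.br (nat_lit 10) (nat_lit 1) (.cons (.br (nat_lit 11) (nat_lit 1) (.cons (.rf (nat_lit 2196) (nat_lit 493606103861456635936)) (.cons (.ev (nat_lit 79229371440084233701990400001) (nat_lit 1)) .nil))) (.cons (.rf (nat_lit 2315) (nat_lit 447129912419353664)) (.cons (.ev (nat_lit 79229376162450716571652325633) (nat_lit 1)) .nil)))) (.cons (.br (nat_lit 7) (nat_lit 0) (.cons (.br (nat_lit 12) (nat_lit 0) (.cons (.br (nat_lit 10) (nat_lit 1) (.cons (.ev (nat_lit 20837625730234489008872633730820)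 (nat_lit 3)) .nil)) .nil)) (.cons (.br (nat_lit 10) (nat_lit 1) (.cons (.rf (nat_lit 2108) (nat_lit 112811073094360224)) (.cons (.rf (nat_lit 2220) (nat_lit 493815524544806488096)) .nil))) .nil))) .nil)))),
 (.br (nat_lit 6) (nat_lit 1) (.cons (.br (nat_lit 12) (nat_lit 0) (.cons (.ev (nat_lit 309489732188109413363548161) (nat_lit 1)) .nil)) (.cons (.br (nat_lit 7) (nat_lit 0) (.cons (.ev (nat_lit 309489732188109413363548161) (nat_lit 1)) .nil)) .nil))),
 (.br (nat_lit 2) (nat_lit 0) (.cons (.rf (nat_lit 2339) (nat_lit 493858305440582043680)) (.cons (.br (nat_lit 10) (nat_lit 1) (.cons (.rf (nat_lit 2340) (nat_lit 493858305440582043680)) (.cons (.rf (nat_lit 2315) (nat_lit 447129912419353664)) (.cons (.br (nat_lit 7) (nat_lit 0) (.cons (.br (nat_lit 5) (nat_lit 0) (.cons (.zr (nat_lit 237686905394648977771048469248) (nat_lit 309489805974804250404847617) (nat_lit 5) (nat_lit 0)) .nil)) (.cons (.br (nat_lit 5) (nat_lit 0) (.cons (.ev (nat_lit 20679788356373174132721466803460) (nat_lit 3))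 .nil)) .nil))) .nil)))) (.cons (.br (nat_lit 7) (nat_lit 0) (.cons (.ev (nat_lit 20282719093402305277434324385793) (nat_lit 1)) (.cons (.br (nat_lit 10) (nat_lit 1) (.cons (.rf (nat_lit 2108) (nat_lit 112811073094360224)) (.cons (.rf (nat_lit 2220) (nat_lit 493815524544806488096)) .nil))) .nil))) .nil)))),
 (.br (nat_lit 2) (nat_lit 0) (.cons (.rf (nat_lit 2339) (nat_lit 493858305440582043680)) (.cons (.rf (nat_lit 2341) (nat_lit 493858305440582043680)) (.cons (.br (nat_lit 10) (nat_lit 1) (.cons (.br (nat_lit 7) (nat_lit 0) (.cons (.ev (nat_lit 20282720297587383442342995361793) (nat_lit 1)) (.cons (.br (nat_lit 12) (nat_lit 0) (.cons (.ev (nat_lit 20520713061288255085503582635268) (nat_lit 3)) .nil)) .nil))) (.cons (.rf (nat_lit 2315) (nat_lit 447129912419353664)) (.cons (.br (nat_lit 5) (nat_lit 0) (.cons (.br (nat_lit 8) (nat_lit 1) (.cons (.ev (nat_lit 20837625720789756040942910113540) (nat_lit 3)) .nil)) (.cons (.br (nat_lit 6) (nat_lit 1) (.cons (.ev (nat_lit 79537647542604765809304731905)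 (nat_lit 1)) .nil)) .nil))) .nil)))) .nil)))),
 (.br (nat_lit 4) (nat_lit 1) (.cons (.rf (nat_lit 2335) (nat_lit 493858305440582043680)) (.cons (.rf (nat_lit 2108) (nat_lit 299712654500568224)) (.cons (.br (nat_lit 2) (nat_lit 0) (.cons (.rf (nat_lit 2339) (nat_lit 493858305440582043680)) (.cons (.rf (nat_lit 2341) (nat_lit 493858305440582043680)) (.cons (.rf (nat_lit 2342) (nat_lit 493858305440582043680)) (.cons (.br (nat_lit 2) (nat_lit 0) (.cons (.rf (nat_lit 2339) (nat_lit 493858305440582043680)) (.cons (.rf (nat_lit 2341) (nat_lit 493858305440582043680)) (.cons (.rf (nat_lit 2342) (nat_lit 493858305440582043680)) .nil)))) .nil))))) .nil)))),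
 (.br (nat_lit 13) (nat_lit 0) (.cons (.rf (nat_lit 2314) (nat_lit 493858305440582043680)) (.cons (.rf (nat_lit 2329) (nat_lit 493858305440582043680)) (.cons (.br (nat_lit 4) (nat_lit 1) (.cons (.rf (nat_lit 2335) (nat_lit 493858305440582043680)) (.cons (.rf (nat_lit 2338) (nat_lit 493858305440582043680)) (.cons (.rf (nat_lit 2343) (nat_lit 493858305440582043680)) (.cons (.br (nat_lit 4) (nat_lit 1) (.cons (.rf (nat_lit 2335) (nat_lit 493858305440582043680)) (.cons (.rf (nat_lit 2338) (nat_lit 493858305440582043680)) (.cons (.rf (nat_lit 2343) (nat_lit 493858305440582043680)) .nil)))) .nil))))) .nil)))),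
 (.br (nat_lit 8) (nat_lit 1) (.cons (.rf (nat_lit 2333) (nat_lit 493675700753833166880)) (.cons (.br (nat_lit 8) (nat_lit 1) (.cons (.rf (nat_lit 2108) (nat_lit 154366014478621856)) (.cons (.ev (nat_lit 79228167236631101938182717441) (nat_lit 1)) .nil))) (.cons (.ev (nat_lit 79228167236631101938182717441) (nat_lit 1)) .nil)))),
 (.br (nat_lit 6) (nat_lit 1) (.cons (.rf (nat_lit 2333) (nat_lit 493675700685180799008)) (.cons (.rf (nat_lit 2345) (nat_lit 493858305440582043680)) (.cons (.br (nat_lit 7) (nat_lit 0) (.cons (.ev (nat_lit 20282409608374109245890206105601) (nat_lit 1)) .nil)) .nil)))),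
 (.br (nat_lit 8) (nat_lit 1) (.cons (.rf (nat_lit 2194) (nat_lit 372964312800664736)) (.cons (.rf (nat_lit 2108) (nat_lit 154366014478621856)) (.cons (.rf (nat_lit 2314) (nat_lit 493823368284531170464)) .nil)))),
 (.br (nat_lit 10) (nat_lit 1) (.cons (.ev (nat_lit 20361948460101575722342518161665) (nat_lit 1)) (.cons (.br (nat_lit 7) (nat_lit 0) (.cons (.ev (nat_lit 1213648258436572129525761) (nat_lit 1)) (.cons (.br (nat_lit 5) (nat_lit 0) (.cons (.zr (nat_lit 618970019642693435984642048) (nat_lit 1213666633123051817926657) (nat_lit 5) (nat_lit 0)) .nil)) .nil))) .nil))),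
 (.br (nat_lit 4) (nat_lit 1) (.cons (.br (nat_lit 6) (nat_lit 1) (.cons (.ev (nat_lit 1103823438081) (nat_lit 1)) (.cons (.br (nat_lit 2) (nat_lit 0) (.cons (.br (nat_lit 8) (nat_lit 1) (.cons (.ev (nat_lit 20282409608392555989959620755713) (nat_lit 1)) (.cons (.br (nat_lit 12) (nat_lit 0) (.cons (.ev (nat_lit 79228162532711363146525245441) (nat_lit 1)) (.cons (.br (nat_lit 10) (nat_lit 1) (.cons (.ev (nat_lit 80160249099110389346543337474) (nat_lit 2)) .nil)) .nil))) .nil))) (.cons (.br (nat_lit 11) (nat_lit 1) (.cons (.ev (nat_lit 20283340490700089874964719731458) (nat_lit 2)) (.cons (.br (nat_lit 7) (nat_lit 0) (.cons (.br (nat_lit 12) (nat_lit 0) (.cons (.ev (nat_lit 159076518159610075759182348290) (nat_lit 2)) .nil)) .nil)) .nil))) (.cons (.rf (nat_lit 2314) (nat_lit 458079526367442109504)) .nil)))) (.cons (.br (nat_lit 11) (nat_lit 1) (.cons (.rf (nat_lit 2314) (nat_lit 458079526367442109504)) (.cons (.br (nat_lit 12) (nat_lit 0) (.cons (.br (nat_lit 2) (nat_lit 0) (.cons (.br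 (nat_lit 10) (nat_lit 1) (.cons (.zr (nat_lit 618970019859425869516963840) (nat_lit 4840444091685464365334529) (nat_lit 5) (nat_lit 0)) .nil)) (.cons (.br (nat_lit 8) (nat_lit 1) (.cons (.ev (nat_lit 1208944338698875705491713) (nat_lit 1)) .nil)) .nil))) (.cons (.ev (nat_lit 79537652246452165531930722561) (nat_lit 1)) .nil))) (.cons (.br (nat_lit 10) (nat_lit 1) (.cons (.ev (nat_lit 79537647524085683766092169473) (nat_lit 1)) (.cons (.br (nat_lit 7) (nat_lit 0) (.cons (.br (nat_lit 2) (nat_lit 0) (.cons (.ev (nat_lit 79541288487307739742362272258) (nat_lit 2)) .nil)) .nil)) .nil))) .nil)))) .nil)))) (.cons (.br (nat_lit 11) (nat_lit 1) (.cons (.rf (nat_lit 2314) (nat_lit 458079526298789741632)) (.cons (.br (nat_lit 2) (nat_lit 0) (.cons (.rf (nat_lit 2315) (nat_lit 482282297672960032)) (.cons (.br (nat_lit 8) (nat_lit 1) (.cons (.rf (nat_lit 2110) (nat_lit 111844394048)) (.cons (.br (nat_lit 7) (nat_lit 0) (.cons (.rf (nat_lit 2264) (nat_lit 493607231962528974880)) (.cons (.br (nat_lit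 6) (nat_lit 1) (.cons (.ev (nat_lit 21313630638117449460891236892936) (nat_lit 4)) .nil)) .nil))) .nil))) (.cons (.rf (nat_lit 2315) (nat_lit 482282435111913504)) .nil)))) (.cons (.rf (nat_lit 2314) (nat_lit 458079526161183020256)) (.cons (.br (nat_lit 12) (nat_lit 0) (.cons (.br (nat_lit 2) (nat_lit 0) (.cons (.br (nat_lit 8) (nat_lit 1) (.cons (.rf (nat_lit 2194) (nat_lit 372964312800664736)) (.cons (.rf (nat_lit 2110) (nat_lit 111844394048)) .nil))) (.cons (.rf (nat_lit 2280) (nat_lit 15432860870037833760)) .nil))) (.cons (.br (nat_lit 6) (nat_lit 1) (.cons (.rf (nat_lit 2316) (nat_lit 458082731380547126336)) (.cons (.kr (nat_lit 79228162514264337593560727552) (nat_lit 4722366764344621924352) (nat_lit 3) (nat_lit 0)) (.cons (.rf (nat_lit 2344) (nat_lit 458009549949092631776)) .nil)))) (.cons (.kr (nat_lit 309485009821345068724781056) (nat_lit 79228162514264337593543950336) (nat_lit 11) (nat_lit 0)) .nil)))) .nil))))) (.cons (.br (nat_lit 11) (nat_lit 1) (.cons (.br (nat_lit 7) (nat_lit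 0) (.cons (.rf (nat_lit 2345) (nat_lit 493858305440582043680)) (.cons (.rf (nat_lit 2346) (nat_lit 493858305440582043680)) (.cons (.br (nat_lit 7) (nat_lit 0) (.cons (.ev (nat_lit 1213648258436572129525761) (nat_lit 1)) (.cons (.rf (nat_lit 2346) (nat_lit 493858305440582043680)) .nil))) .nil)))) (.cons (.ev (nat_lit 4722366483973451808769) (nat_lit 1)) (.cons (.br (nat_lit 5) (nat_lit 0) (.cons (.br (nat_lit 12) (nat_lit 0) (.cons (.br (nat_lit 10) (nat_lit 1) (.cons (.br (nat_lit 8) (nat_lit 1) (.cons (.zr (nat_lit 9444733531987778928640) (nat_lit 310693954087703775971115009) (nat_lit 5) (nat_lit 0)) .nil)) (.cons (.br (nat_lit 2) (nat_lit 0) (.cons (.ev (nat_lit 79541279042574774003038158850) (nat_lit 2)) .nil)) .nil))) (.cons (.br (nat_lit 7) (nat_lit 0) (.cons (.br (nat_lit 8) (nat_lit 1) (.cons (.ev (nat_lit 80160258506949866929858281474) (nat_lit 2)) .nil)) .nil)) .nil))) (.cons (.rf (nat_lit 2347) (nat_lit 493858305440582043680)) (.cons (.br (nat_lit 2) (nat_lit 0) (.cons (.br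 (nat_lit 7) (nat_lit 0) (.cons (.br (nat_lit 8) (nat_lit 1) (.cons (.ev (nat_lit 20837014023251534575585018185476) (nat_lit 3)) .nil)) .nil)) (.cons (.br (nat_lit 8) (nat_lit 1) (.cons (.ev (nat_lit 40565129915461493547128951341314) (nat_lit 2)) (.cons (.br (nat_lit 6) (nat_lit 1) (.cons (.ev (nat_lit 79541279042574774003038158850) (nat_lit 2)) .nil)) .nil))) .nil))) .nil)))) (.cons (.br (nat_lit 8) (nat_lit 1) (.cons (.rf (nat_lit 2348) (nat_lit 493858305440582043680)) (.cons (.rf (nat_lit 2347) (nat_lit 493858305440582043680)) (.cons (.br (nat_lit 8) (nat_lit 1) (.cons (.rf (nat_lit 2348) (nat_lit 493858305440582043680)) (.cons (.rf (nat_lit 2108) (nat_lit 154366014478621856)) .nil))) .nil)))) .nil))))) .nil)))),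
 (.br (nat_lit 2) (nat_lit 0) (.cons (.ev (nat_lit 310693935713017296249159681) (nat_lit 1)) .nil)),
 (.br (nat_lit 2) (nat_lit 0) (.cons (.zr (nat_lit 618979464592394907342077952) (nat_lit 4835721725202607605022721) (nat_lit 5) (nat_lit 0)) .nil)),
 (.br (nat_lit 8) (nat_lit 1) (.cons (.br (nat_lit 7) (nat_lit 0) (.cons (.br (nat_lit 12) (nat_lit 0) (.cons (.rf (nat_lit 2350) (nat_lit 493858305440582043680)) (.cons (.ev (nat_lit 309489750634854586567884801) (nat_lit 1)) .nil))) (.cons (.br (nat_lit 6) (nat_lit 1) (.cons (.kr (nat_lit 1208925819614633469739008) (nat_lit 4722438821938659852288) (nat_lit 2) (nat_lit 0)) (.cons (.rf (nat_lit 2351) (nat_lit 493858305440582043680)) .nil))) (.cons (.br (nat_lit 12) (nat_lit 0) (.cons (.ev (nat_lit 309489750634854586567884801) (nat_lit 1)) (.cons (.rf (nat_lit 2314) (nat_lit 458038990469224207584)) .nil))) .nil)))) (.cons (.br (nat_lit 6) (nat_lit 1) (.cons (.ev (nat_lit 79228162514264620172344033281) (nat_lit 1)) (.cons (.br (nat_lit 7) (nat_lit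 0) (.cons (.br (nat_lit 11) (nat_lit 1) (.cons (.ev (nat_lit 20996715570135399948199789793032) (nat_lit 4)) .nil)) (.cons (.ev (nat_lit 309489750634854586567884801) (nat_lit 1)) .nil))) .nil))) .nil))),
 (.br (nat_lit 11) (nat_lit 1) (.cons (.ev (nat_lit 309489750634854586567884801) (nat_lit 1)) .nil)),
 (.br (nat_lit 8) (nat_lit 1) (.cons (.rf (nat_lit 2352) (nat_lit 493858305440582043680)) (.cons (.br (nat_lit 6) (nat_lit 1) (.cons (.ev (nat_lit 79228162514264620172344033281) (nat_lit 1)) (.cons (.rf (nat_lit 2353) (nat_lit 493858305440582043680)) .nil))) .nil))),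
 (.br (nat_lit 4) (nat_lit 1) (.cons (.rf (nat_lit 2349) (nat_lit 493858305440582043680)) (.cons (.rf (nat_lit 2108) (nat_lit 299712654500568224)) (.cons (.br (nat_lit 8) (nat_lit 1) (.cons (.rf (nat_lit 2352) (nat_lit 493858305440582043680)) (.cons (.rf (nat_lit 2354) (nat_lit 493858305440582043680)) (.cons (.br (nat_lit 8) (nat_lit 1) (.cons (.rf (nat_lit 2352) (nat_lit 493858305440582043680)) (.cons (.rf (nat_lit 2354) (nat_lit 493858305440582043680)) .nil))) .nil)))) .nil)))),
 (.br (nat_lit 8) (nat_lit 1) (.cons (.rf (nat_lit 2194) (nat_lit 372964312800664736)) (.cons (.rf (nat_lit 2315) (nat_lit 447129912419288128)) (.cons (.br (nat_lit 5) (nat_lit 0) (.cons (.br (nat_lit 10) (nat_lit 1) (.cons (.ev (nat_lit 79228162532711364241758683393) (nat_lit 1)) (.cons (.br (nat_lit 11) (nat_lit 1) (.cons (.ev (nat_lit 158769436834472347251976962050) (nat_lit 2)) .nil)) .nil))) (.cons (.br (nat_lit 6) (nat_lit 1) (.cons (.br (nat_lit 11) (nat_lit 1) (.cons (.ev (nat_lit 309489732188110517153366273)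 (nat_lit 1)) .nil)) (.cons (.br (nat_lit 2) (nat_lit 0) (.cons (.ev (nat_lit 20838247108698363796223609471748) (nat_lit 3)) .nil)) .nil))) (.cons (.ev (nat_lit 79537647542532427835506688001) (nat_lit 1)) .nil)))) .nil)))),
 (.br (nat_lit 4) (nat_lit 1) (.cons (.rf (nat_lit 2349) (nat_lit 493858305440582043680)) (.cons (.rf (nat_lit 2108) (nat_lit 299712654500568224)) (.cons (.br (nat_lit 8) (nat_lit 1) (.cons (.rf (nat_lit 2356) (nat_lit 493858305440582043680)) (.cons (.rf (nat_lit 2347) (nat_lit 493858305440582043680)) (.cons (.br (nat_lit 8) (nat_lit 1) (.cons (.rf (nat_lit 2315) (nat_lit 447129912419288128)) (.cons (.rf (nat_lit 2108) (nat_lit 154366014478621856)) (.cons (.rf (nat_lit 2220) (nat_lit 493743466952916043808)) .nil)))) (.cons (.br (nat_lit 8) (nat_lit 1) (.cons (.rf (nat_lit 2356) (nat_lit 493858305440582043680)) (.cons (.rf (nat_lit 2314) (nat_lit 493823368284531170464)) (.cons (.rf (nat_lit 2220) (nat_lit 493743466952916043808)) .nil)))) .nil))))) .nil)))),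
 (.br (nat_lit 13) (nat_lit 0) (.cons (.rf (nat_lit 2314) (nat_lit 493858305440582043680)) (.cons (.rf (nat_lit 2344) (nat_lit 493858305440582043680)) (.cons (.br (nat_lit 4) (nat_lit 1) (.cons (.rf (nat_lit 2349) (nat_lit 493858305440582043680)) (.cons (.rf (nat_lit 2355) (nat_lit 493858305440582043680)) (.cons (.rf (nat_lit 2357) (nat_lit 493858305440582043680)) (.cons (.br (nat_lit 4) (nat_lit 1) (.cons (.rf (nat_lit 2349) (nat_lit 493858305440582043680)) (.cons (.rf (nat_lit 2355) (nat_lit 493858305440582043680)) (.cons (.rf (nat_lit 2357) (nat_lit 493858305440582043680)) .nil)))) .nil))))) .nil)))),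
 (.br (nat_lit 13) (nat_lit 0) (.cons (.rf (nat_lit 2314) (nat_lit 493858305440582043680)) (.cons (.rf (nat_lit 2344) (nat_lit 493858305440582043680)) (.cons (.rf (nat_lit 2358) (nat_lit 493858305440582043680)) (.cons (.br (nat_lit 13) (nat_lit 0) (.cons (.rf (nat_lit 2314) (nat_lit 493858305440582043680)) (.cons (.rf (nat_lit 2344) (nat_lit 493858305440582043680)) (.cons (.rf (nat_lit 2358) (nat_lit 493858305440582043680)) .nil)))) .nil))))),
 (.br (nat_lit 10) (nat_lit 1) (.cons (.kr (nat_lit 79230580365975624445931290880) (nat_lit 20283028573671313115184212541440) (nat_lit 1) (nat_lit 0)) .nil)),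
 (.br (nat_lit 5) (nat_lit 0) (.cons (.br (nat_lit 7) (nat_lit 0) (.cons (.rf (nat_lit 2108) (nat_lit 336795882096893088)) (.cons (.ev (nat_lit 1213666632842676336066561) (nat_lit 1)) .nil))) (.cons (.rf (nat_lit 2292) (nat_lit 15431735141927585824)) .nil))),
 (.br (nat_lit 6) (nat_lit 1) (.cons (.rf (nat_lit 2316) (nat_lit 458082801744996402240)) (.cons (.rf (nat_lit 2108) (nat_lit 336795882096893088)) .nil))),
 (.br (nat_lit 12) (nat_lit 0) (.cons (.br (nat_lit 11) (nat_lit 1) (.cons (.br (nat_lit 10) (nat_lit 1) (.cons (.rf (nat_lit 2220) (nat_lit 458115523109906914464)) (.cons (.br (nat_lit 7) (nat_lit 0) (.cons (.ev (nat_lit 20361638979832639660711657668865) (nat_lit 1)) (.cons (.br (nat_lit 5) (nat_lit 0) (.cons (.ev (nat_lit 20838868506014379246507675158276) (nat_lit 3)) .nil)) .nil))) .nil))) (.cons (.br (nat_lit 10) (nat_lit 1) (.cons (.rf (nat_lit 2220) (nat_lit 458079529497260039328)) (.cons (.br (nat_lit 2) (nat_lit 0) (.cons (.ev (nat_lit 4722366483973451808769) (nat_lit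 1)) (.cons (.br (nat_lit 7) (nat_lit 0) (.cons (.zr (nat_lit 237686905394648977771048469248) (nat_lit 309489805974804250404847617) (nat_lit 5) (nat_lit 0)) .nil)) .nil))) .nil))) (.cons (.br (nat_lit 4) (nat_lit 1) (.cons (.br (nat_lit 5) (nat_lit 0) (.cons (.rf (nat_lit 2360) (nat_lit 493858305440582043680)) (.cons (.br (nat_lit 7) (nat_lit 0) (.cons (.ev (nat_lit 20838863670237169135765722170628) (nat_lit 3)) .nil)) .nil))) (.cons (.br (nat_lit 6) (nat_lit 1) (.cons (.rf (nat_lit 2360) (nat_lit 493858305438436657184)) (.cons (.ev (nat_lit 309489750634854586567884801) (nat_lit 1)) .nil))) (.cons (.br (nat_lit 2) (nat_lit 0) (.cons (.ev (nat_lit 4722438821938659918081) (nat_lit 1)) (.cons (.rf (nat_lit 2317) (nat_lit 493675911860065503264)) .nil))) .nil)))) .nil)))) (.cons (.kr (nat_lit 1208925819614629174706176) (nat_lit 20282409603651670423947251286016) (nat_lit 10) (nat_lit 0)) (.cons (.br (nat_lit 7) (nat_lit 0) (.cons (.rf (nat_lit 2361) (nat_lit 493858305440582043680)) (.cons (.rf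 (nat_lit 2362) (nat_lit 493858305440582043680)) (.cons (.br (nat_lit 7) (nat_lit 0) (.cons (.rf (nat_lit 2361) (nat_lit 493858305440582043680)) (.cons (.rf (nat_lit 2362) (nat_lit 493858305440582043680)) .nil))) .nil)))) .nil))))]

theorem c80 : chkAll C T R L80 (nat_lit 2339) = true := by decide +kernel

theorem l80 : (nat_lit 2339) + L80.length = (nat_lit 2364) := by decide +kernel

/-- part of the certificates -/
def L81 : List Prf := [(.br (nat_lit 4) (nat_lit 1) (.cons (.rf (nat_lit 2316) (nat_lit 458082801747143820352)) (.cons (.rf (nat_lit 2108) (nat_lit 299712654500568224)) .nil))),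
 (.br (nat_lit 5) (nat_lit 0) (.cons (.br (nat_lit 7) (nat_lit 0) (.cons (.rf (nat_lit 2108) (nat_lit 299712654500568224)) (.cons (.ev (nat_lit 20282720302328124893162993876993) (nat_lit 1)) .nil))) (.cons (.rf (nat_lit 2292) (nat_lit 15431805510671763488)) .nil))),
 (.br (nat_lit 12) (nat_lit 0) (.cons (.rf (nat_lit 2363) (nat_lit 493858305440582043680)) (.cons (.kr (nat_lit 1208925819614629174706176) (nat_lit 20282409603651670423947251286016) (nat_lit 10) (nat_lit 0)) (.cons (.br (nat_lit 7) (nat_lit 0) (.cons (.rf (nat_lit 2364) (nat_lit 493858305440582043680)) (.cons (.rf (nat_lit 2365) (nat_lit 493858305440582043680)) (.cons (.br (nat_lit 7) (nat_lit 0) (.cons (.rf (nat_lit 2364) (nat_lit 493858305440582043680)) (.cons (.rf (nat_lit 2365) (nat_lit 493858305440582043680)) .nil))) .nil)))) .nil)))),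
 (.br (nat_lit 6) (nat_lit 1) (.cons (.rf (nat_lit 2314) (nat_lit 458116643680971588672)) (.cons (.rf (nat_lit 2108) (nat_lit 336795882096893088)) (.cons (.kr (nat_lit 18446744073709551616) (nat_lit 20282409603651670423947251286016) (nat_lit 8) (nat_lit 0)) .nil)))),
 (.br (nat_lit 4) (nat_lit 1) (.cons (.rf (nat_lit 2316) (nat_lit 493675911860065503264)) (.cons (.rf (nat_lit 2108) (nat_lit 299712654500568224)) (.cons (.br (nat_lit 5) (nat_lit 0) (.cons (.rf (nat_lit 2367) (nat_lit 493858305440582043680)) (.cons (.rf (nat_lit 2292) (nat_lit 15432860938757310496)) .nil))) .nil)))),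
 (.br (nat_lit 7) (nat_lit 0) (.cons (.rf (nat_lit 2368) (nat_lit 493858305440582043680)) (.cons (.br (nat_lit 5) (nat_lit 0) (.cons (.br (nat_lit 12) (nat_lit 0) (.cons (.rf (nat_lit 2367) (nat_lit 493858305371929675808)) (.cons (.ev (nat_lit 20282720302328124893162993876993) (nat_lit 1)) .nil))) (.cons (.rf (nat_lit 2108) (nat_lit 336795882096893088)) .nil))) .nil))),
 (.br (nat_lit 2) (nat_lit 0) (.cons (.rf (nat_lit 2110) (nat_lit 109696910400)) (.cons (.rf (nat_lit 2315) (nat_lit 482247182022445088)) (.cons (.rf (nat_lit 2315) (nat_lit 482247285101660192)) .nil)))),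
 (.br (nat_lit 6) (nat_lit 1) (.cons (.rf (nat_lit 2370) (nat_lit 493858305440582043680)) (.cons (.br (nat_lit 2) (nat_lit 0) (.cons (.rf (nat_lit 2315) (nat_lit 447202480186590272)) (.cons (.rf (nat_lit 2292) (nat_lit 15431805407595694112)) .nil))) .nil))),
 (.br (nat_lit 7) (nat_lit 0) (.cons (.rf (nat_lit 2371) (nat_lit 493858305440582043680)) (.cons (.br (nat_lit 2) (nat_lit 0) (.cons (.rf (nat_lit 2314) (nat_lit 458079526161183020256)) (.cons (.br (nat_lit 6) (nat_lit 1) (.cons (.rf (nat_lit 2265) (nat_lit 493606103861456635936)) .nil)) .nil))) .nil))),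
 (.br (nat_lit 2) (nat_lit 0) (.cons (.br (nat_lit 12) (nat_lit 0) (.cons (.ev (nat_lit 20837630547011408052169969172740) (nat_lit 3)) .nil)) .nil)),
 (.br (nat_lit 7) (nat_lit 0) (.cons (.rf (nat_lit 2371) (nat_lit 493858305440582043680)) (.cons (.br (nat_lit 4) (nat_lit 1) (.cons (.rf (nat_lit 2373) (nat_lit 493858305440582043680)) (.cons (.br (nat_lit 4) (nat_lit 1) (.cons (.rf (nat_lit 2373) (nat_lit 493858305440582043680)) .nil)) .nil))) .nil))),
 (.br (nat_lit 13) (nat_lit 0) (.cons (.rf (nat_lit 2314) (nat_lit 493858305440582043680)) (.cons (.rf (nat_lit 2359) (nat_lit 493858305440582043680)) (.cons (.br (nat_lit 8) (nat_lit 1) (.cons (.br (nat_lit 12) (nat_lit 0) (.cons (.rf (nat_lit 2363) (nat_lit 493858305440582043680)) (.cons (.rf (nat_lit 2366) (nat_lit 493858305440582043680)) (.cons (.kr (nat_lit 1208925819614629174706176) (nat_lit 20282409603651670423947251286016) (nat_lit 10) (nat_lit 0)) (.cons (.br (nat_lit 12) (nat_lit 0) (.cons (.rf (nat_lit 2363) (nat_lit 493858305440582043680))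 (.cons (.rf (nat_lit 2366) (nat_lit 493858305440582043680)) (.cons (.kr (nat_lit 1208925819614629174706176) (nat_lit 20282409603651670423947251286016) (nat_lit 10) (nat_lit 0)) .nil)))) .nil))))) (.cons (.br (nat_lit 12) (nat_lit 0) (.cons (.rf (nat_lit 2359) (nat_lit 458082801641718914208)) (.cons (.rf (nat_lit 2314) (nat_lit 458082801641718914208)) (.cons (.kr (nat_lit 1208925819614629174706176) (nat_lit 20282409603651670423947251286016) (nat_lit 10) (nat_lit 0)) (.cons (.br (nat_lit 12) (nat_lit 0) (.cons (.rf (nat_lit 2359) (nat_lit 458082801641718914208)) (.cons (.rf (nat_lit 2314) (nat_lit 458082801641718914208)) (.cons (.kr (nat_lit 1208925819614629174706176) (nat_lit 20282409603651670423947251286016) (nat_lit 10) (nat_lit 0)) .nil)))) .nil))))) (.cons (.ev (nat_lit 20282409608392483650890622828801) (nat_lit 1)) (.cons (.br (nat_lit 10) (nat_lit 1) (.cons (.br (nat_lit 7) (nat_lit 0) (.cons (.rf (nat_lit 2368) (nat_lit 493858305440582043680)) (.cons (.rf (nat_lit 2369) (nat_lit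 493858305440582043680)) (.cons (.br (nat_lit 7) (nat_lit 0) (.cons (.rf (nat_lit 2368) (nat_lit 493858305440582043680)) (.cons (.rf (nat_lit 2369) (nat_lit 493858305440582043680)) .nil))) .nil)))) (.cons (.br (nat_lit 7) (nat_lit 0) (.cons (.rf (nat_lit 2372) (nat_lit 493858305440582043680)) (.cons (.rf (nat_lit 2374) (nat_lit 493858305440582043680)) (.cons (.br (nat_lit 7) (nat_lit 0) (.cons (.rf (nat_lit 2372) (nat_lit 493858305440582043680)) (.cons (.rf (nat_lit 2374) (nat_lit 493858305440582043680)) .nil))) .nil)))) (.cons (.ev (nat_lit 1213666632841572546248961) (nat_lit 1)) (.cons (.kr (nat_lit 1208925819614629174706176) (nat_lit 20282409603651670423947251286016) (nat_lit 10) (nat_lit 0)) .nil))))) .nil))))) .nil)))),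
 (.br (nat_lit 13) (nat_lit 0) (.cons (.rf (nat_lit 2314) (nat_lit 493858305440582043680)) (.cons (.rf (nat_lit 2359) (nat_lit 493858305440582043680)) (.cons (.rf (nat_lit 2375) (nat_lit 493858305440582043680)) (.cons (.br (nat_lit 13) (nat_lit 0) (.cons (.rf (nat_lit 2314) (nat_lit 493858305440582043680)) (.cons (.rf (nat_lit 2359) (nat_lit 493858305440582043680)) (.cons (.rf (nat_lit 2375) (nat_lit 493858305440582043680)) .nil)))) .nil))))),
 (.br (nat_lit 13) (nat_lit 0) (.cons (.rf (nat_lit 2314) (nat_lit 493858305440582043680)) (.cons (.rf (nat_lit 2359) (nat_lit 493858305440582043680)) (.cons (.rf (nat_lit 2376) (nat_lit 493858305440582043680)) (.cons (.br (nat_lit 13) (nat_lit 0) (.cons (.rf (nat_lit 2314) (nat_lit 493858305440582043680)) (.cons (.rf (nat_lit 2359) (nat_lit 493858305440582043680)) (.cons (.rf (nat_lit 2376) (nat_lit 493858305440582043680)) .nil)))) .nil))))),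
 (.br (nat_lit 9) (nat_lit 1) (.cons (.rf (nat_lit 2108) (nat_lit 225296782102661152)) (.cons (.br (nat_lit 10) (nat_lit 1) (.cons (.rf (nat_lit 2129) (nat_lit 407901468851537952)) (.cons (.rf (nat_lit 2129) (nat_lit 407901296918633632)) (.cons (.br (nat_lit 10) (nat_lit 1) (.cons (.rf (nat_lit 2129) (nat_lit 407901468851537952)) (.cons (.rf (nat_lit 2129) (nat_lit 407901296918633632)) (.cons (.br (nat_lit 13) (nat_lit 1) (.cons (.br (nat_lit 8) (nat_lit 1) (.cons (.rf (nat_lit 2129) (nat_lit 225296782102661152)) (.cons (.rf (nat_lit 2129) (nat_lit 225296610169756832)) (.cons (.rf (nat_lit 2130) (nat_lit 493858305440582043680)) (.cons (.rf (nat_lit 2130) (nat_lit 458117738797769787424)) .nil))))) .nil)) .nil)))) .nil)))) (.cons (.rf (nat_lit 2194) (nat_lit 407901468851537952)) (.cons (.br (nat_lit 12) (nat_lit 1) (.cons (.br (nat_lit 13) (nat_lit 0) (.cons (.rf (nat_lit 2314) (nat_lit 493858305440582043680)) (.cons (.rf (nat_lit 2359) (nat_lit 493858305440582043680)) (.cons (.rf (nat_lit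 2376) (nat_lit 493858305440582043680)) (.cons (.rf (nat_lit 2377) (nat_lit 493858305440582043680)) (.cons (.br (nat_lit 13) (nat_lit 0) (.cons (.rf (nat_lit 2314) (nat_lit 493858305440582043680)) (.cons (.rf (nat_lit 2359) (nat_lit 493858305440582043680)) (.cons (.rf (nat_lit 2376) (nat_lit 493858305440582043680)) (.cons (.rf (nat_lit 2377) (nat_lit 493858305440582043680)) .nil))))) .nil)))))) .nil)) .nil))))),
 (.br (nat_lit 11) (nat_lit 1) (.cons (.br (nat_lit 6) (nat_lit 1) (.cons (.rf (nat_lit 2315) (nat_lit 447205746448369696)) (.cons (.br (nat_lit 4) (nat_lit 1) (.cons (.br (nat_lit 10) (nat_lit 1) (.cons (.ev (nat_lit 79229371440156010920579956993) (nat_lit 1)) .nil)) (.cons (.zr (nat_lit 40564819207303484964182090121728) (nat_lit 309489750634572016408068097) (nat_lit 5) (nat_lit 0)) .nil))) .nil))) .nil)),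
 (.br (nat_lit 10) (nat_lit 0) (.cons (.rf (nat_lit 2315) (nat_lit 335811953512515616)) .nil)),
 (.br (nat_lit 13) (nat_lit 0) (.cons (.br (nat_lit 1) (nat_lit 0) (.cons (.rf (nat_lit 2380) (nat_lit 13972703462851648)) (.cons (.br (nat_lit 6) (nat_lit 1) (.cons (.br (nat_lit 11) (nat_lit 1) (.cons (.zr (nat_lit 237684487579902673718754673408) (nat_lit 310712825108017076403961857) (nat_lit 5) (nat_lit 0)) .nil)) .nil)) .nil))) (.cons (.ev (nat_lit 20282410812595936783749663948801) (nat_lit 1)) .nil))),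
 (.br (nat_lit 13) (nat_lit 0) (.cons (.rf (nat_lit 2381) (nat_lit 493858305440582043680)) (.cons (.br (nat_lit 11) (nat_lit 1) (.cons (.ev (nat_lit 20282410817318375324213330313473) (nat_lit 1)) (.cons (.br (nat_lit 1) (nat_lit 0) (.cons (.br (nat_lit 6) (nat_lit 1) (.cons (.ev (nat_lit 79541288524057110502648709634) (nat_lit 2)) .nil)) (.cons (.br (nat_lit 4) (nat_lit 1) (.cons (.ev (nat_lit 309489732188110517153366273) (nat_lit 1)) .nil)) .nil))) .nil))) .nil))),
 (.br (nat_lit 13) (nat_lit 0) (.cons (.br (nat_lit 1) (nat_lit 0) (.cons (.rf (nat_lit 2306) (nat_lit 493823361790742135872)) (.cons (.ev (nat_lit 20282410812577490038580737802241) (nat_lit 1)) .nil))) .nil)),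
 (.br (nat_lit 12) (nat_lit 0) (.cons (.br (nat_lit 6) (nat_lit 1) (.cons (.rf (nat_lit 2264) (nat_lit 457827082698079114464)) (.cons (.br (nat_lit 10) (nat_lit 1) (.cons (.zr (nat_lit 237684496987742714251989484288) (nat_lit 310694009427936009934340097) (nat_lit 5) (nat_lit 0)) .nil)) .nil))) .nil)),
 (.br (nat_lit 5) (nat_lit 0) (.cons (.rf (nat_lit 2108) (nat_lit 299712654500568224)) (.cons (.br (nat_lit 1) (nat_lit 0) (.cons (.ev (nat_lit 72058697861300481) (nat_lit 1)) (.cons (.kr (nat_lit 72339069014638848) (nat_lit 1099528470528) (nat_lit 1) (nat_lit 0)) (.cons (.br (nat_lit 11) (nat_lit 1) (.cons (.rf (nat_lit 2379) (nat_lit 493858305440582043680)) (.cons (.br (nat_lit 11) (nat_lit 1) (.cons (.rf (nat_lit 2379) (nat_lit 493858305440582043680)) .nil)) .nil))) (.cons (.br (nat_lit 11) (nat_lit 1) (.cons (.ev (nat_lit 309485028268090241946026241) (nat_lit 1)) (.cons (.br (nat_lit 4) (nat_lit 1) (.cons (.br (nat_lit 6) (nat_lit 1) (.cons (.ev (nat_lit 4722438821942971662593) (nat_lit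 1)) (.cons (.br (nat_lit 13) (nat_lit 0) (.cons (.br (nat_lit 12) (nat_lit 0) (.cons (.ev (nat_lit 158768242112501833467017953794) (nat_lit 2)) .nil)) .nil)) .nil))) (.cons (.rf (nat_lit 2380) (nat_lit 13972708831560768)) .nil))) .nil))) .nil))))) (.cons (.br (nat_lit 10) (nat_lit 1) (.cons (.rf (nat_lit 2110) (nat_lit 320215287840)) (.cons (.rf (nat_lit 2380) (nat_lit 15070224438102048)) (.cons (.br (nat_lit 13) (nat_lit 0) (.cons (.rf (nat_lit 2381) (nat_lit 493858305440582043680)) (.cons (.rf (nat_lit 2382) (nat_lit 493858305440582043680)) (.cons (.br (nat_lit 13) (nat_lit 0) (.cons (.ev (nat_lit 20282410812595936783749663948801) (nat_lit 1)) (.cons (.rf (nat_lit 2382) (nat_lit 493858305440582043680)) .nil))) .nil)))) .nil)))) (.cons (.br (nat_lit 11) (nat_lit 1) (.cons (.rf (nat_lit 2110) (nat_lit 321289029664)) (.cons (.rf (nat_lit 2380) (nat_lit 15071323949729824)) (.cons (.br (nat_lit 4) (nat_lit 1) (.cons (.ev (nat_lit 4722366483973451808769) (nat_lit 1)) (.cons (.br (nat_lit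 13) (nat_lit 0) (.cons (.rf (nat_lit 2383) (nat_lit 493858305440582043680)) (.cons (.br (nat_lit 13) (nat_lit 0) (.cons (.rf (nat_lit 2383) (nat_lit 493858305440582043680)) .nil)) .nil))) (.cons (.br (nat_lit 12) (nat_lit 0) (.cons (.rf (nat_lit 2384) (nat_lit 493858305440582043680)) (.cons (.br (nat_lit 12) (nat_lit 0) (.cons (.rf (nat_lit 2384) (nat_lit 493858305440582043680)) .nil)) .nil))) .nil)))) .nil)))) .nil))))),
 (.br (nat_lit 10) (nat_lit 1) (.cons (.rf (nat_lit 2385) (nat_lit 493675700685180798016)) (.cons (.br (nat_lit 11) (nat_lit 1) (.cons (.ev (nat_lit 20282410822281271749263846214920) (nat_lit 4)) (.cons (.kr (nat_lit 1208925819614629174706176) (nat_lit 79228162514264337593543950336) (nat_lit 10) (nat_lit 0)) .nil))) .nil))),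
 (.br (nat_lit 12) (nat_lit 0) (.cons (.rf (nat_lit 2386) (nat_lit 493858305440582043680)) (.cons (.br (nat_lit 12) (nat_lit 0) (.cons (.rf (nat_lit 2386) (nat_lit 493858305440582043680)) .nil)) .nil))),
 (.br (nat_lit 12) (nat_lit 0) (.cons (.ev (nat_lit 79229376180897179166073487361) (nat_lit 1)) (.cons (.br (nat_lit 6) (nat_lit 1) (.cons (.ev (nat_lit 79229371458602753890482979073) (nat_lit 1)) (.cons (.br (nat_lit 1) (nat_lit 0) (.cons (.rf (nat_lit 2385) (nat_lit 457935133904761820384)) (.cons (.ev (nat_lit 158769451001427962143535465218) (nat_lit 2)) .nil))) .nil))) .nil))),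
 (.br (nat_lit 4) (nat_lit 1) (.cons (.br (nat_lit 6) (nat_lit 1) (.cons (.kr (nat_lit 309485009821626543701491968) (nat_lit 18446745177516146688) (nat_lit 1) (nat_lit 0)) (.cons (.rf (nat_lit 2380) (nat_lit 13974900338623552)) .nil))) (.cons (.br (nat_lit 13) (nat_lit 0) (.cons (.ev (nat_lit 20283028583153011628868278288386) (nat_lit 2)) (.cons (.br (nat_lit 10) (nat_lit 1) (.cons (.br (nat_lit 12) (nat_lit 0) (.cons (.zr (nat_lit 2417888748893495007117312) (nat_lit 1237944761652989044467957761) (nat_lit 5) (nat_lit 0)) .nil)) (.cons (.br (nat_lit 1) (nat_lit 0) (.cons (.ev (nat_lit 80157840692060008440385372674) (nat_lit 2)) .nil)) .nil))) .nil))) .nil))),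
 (.br (nat_lit 1) (nat_lit 0) (.cons (.rf (nat_lit 2380) (nat_lit 12812721882137664)) (.cons (.br (nat_lit 13) (nat_lit 1) (.cons (.rf (nat_lit 2264) (nat_lit 455703951201180682272)) .nil)) .nil))),
 (.br (nat_lit 13) (nat_lit 0) (.cons (.br (nat_lit 6) (nat_lit 1) (.cons (.br (nat_lit 10) (nat_lit 1) (.cons (.br (nat_lit 4) (nat_lit 1) (.cons (.ev (nat_lit 80160249062216901199157920258) (nat_lit 2)) .nil)) .nil)) (.cons (.ev (nat_lit 20282719093383930590954635985153) (nat_lit 1)) .nil))) .nil)),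
 (.br (nat_lit 13) (nat_lit 0) (.cons (.rf (nat_lit 2391) (nat_lit 493858305440582043680)) (.cons (.br (nat_lit 13) (nat_lit 0) (.cons (.rf (nat_lit 2391) (nat_lit 493858305440582043680)) .nil)) .nil))),
 (.br (nat_lit 13) (nat_lit 0) (.cons (.rf (nat_lit 2392) (nat_lit 493858305440582043680)) (.cons (.br (nat_lit 13) (nat_lit 0) (.cons (.rf (nat_lit 2392) (nat_lit 493858305440582043680)) .nil)) .nil))),
 (.br (nat_lit 13) (nat_lit 0) (.cons (.br (nat_lit 12) (nat_lit 0) (.cons (.br (nat_lit 5) (nat_lit 0) (.cons (.br (nat_lit 10) (nat_lit 1) (.cons (.zr (nat_lit 2417888748893495007117312) (nat_lit 1237944761652989044467957761) (nat_lit 5) (nat_lit 0)) .nil)) (.cons (.ev (nat_lit 1208944338416301233930241) (nat_lit 1)) .nil))) (.cons (.br (nat_lit 4) (nat_lit 1) (.cons (.ev (nat_lit 20361947251175756388088808472833) (nat_lit 1)) (.cons (.ev (nat_lit 20282409608392555709588450639873) (nat_lit 1)) .nil))) (.cons (.kr (nat_lit 1208925819614629174706176) (nat_lit 79228162514264337593543950336)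 (nat_lit 10) (nat_lit 0)) .nil)))) .nil))]

theorem c81 : chkAll C T R L81 (nat_lit 2364) = true := by decide +kernel

theorem l81 : (nat_lit 2364) + L81.length = (nat_lit 2395) := by decide +kernel

/-- part of the certificates -/
def L82 : List Prf := [(.br (nat_lit 13) (nat_lit 0) (.cons (.rf (nat_lit 2394) (nat_lit 493858305440582043680)) (.cons (.br (nat_lit 13) (nat_lit 0) (.cons (.rf (nat_lit 2394) (nat_lit 493858305440582043680)) .nil)) .nil))),
 (.br (nat_lit 13) (nat_lit 0) (.cons (.rf (nat_lit 2395) (nat_lit 493858305440582043680)) (.cons (.br (nat_lit 13) (nat_lit 0) (.cons (.rf (nat_lit 2395) (nat_lit 493858305440582043680)) .nil)) .nil))),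
 (.br (nat_lit 1) (nat_lit 0) (.cons (.rf (nat_lit 2380) (nat_lit 13980397896762432)) (.cons (.br (nat_lit 13) (nat_lit 0) (.cons (.rf (nat_lit 2380) (nat_lit 13980400044246080)) (.cons (.br (nat_lit 6) (nat_lit 1) (.cons (.rf (nat_lit 2110) (nat_lit 315920320544)) (.cons (.ev (nat_lit 20282719088661492050490969620481) (nat_lit 1)) .nil))) .nil))) (.cons (.br (nat_lit 10) (nat_lit 1) (.cons (.rf (nat_lit 2110) (nat_lit 320215287840)) (.cons (.br (nat_lit 4) (nat_lit 1) (.cons (.rf (nat_lit 2385) (nat_lit 493675700685180798016)) (.cons (.ev (nat_lit 79230589847530020751521547010) (nat_lit 2)) .nil))) (.cons (.rf (nat_lit 2380) (nat_lit 13980404339213376)) .nil)))) .nil)))),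
 (.br (nat_lit 13) (nat_lit 0) (.cons (.rf (nat_lit 2397) (nat_lit 493858305440582043680)) (.cons (.br (nat_lit 10) (nat_lit 1) (.cons (.rf (nat_lit 2380) (nat_lit 13980404339213376)) (.cons (.ev (nat_lit 310693935640959697899552769) (nat_lit 1)) (.cons (.br (nat_lit 1) (nat_lit 0) (.cons (.br (nat_lit 12) (nat_lit 0) (.cons (.br (nat_lit 6) (nat_lit 1) (.cons (.ev (nat_lit 79541288524057110502648709634) (nat_lit 2)) .nil)) (.cons (.rf (nat_lit 2370) (nat_lit 458079526161177941216)) .nil))) (.cons (.rf (nat_lit 2380) (nat_lit 13980400044246080)) .nil))) .nil)))) .nil))),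
 (.br (nat_lit 8) (nat_lit 1) (.cons (.rf (nat_lit 2108) (nat_lit 154366186411526176)) (.cons (.rf (nat_lit 2378) (nat_lit 372964312800664736)) (.cons (.rf (nat_lit 2110) (nat_lit 112918266944)) (.cons (.br (nat_lit 12) (nat_lit 1) (.cons (.br (nat_lit 7) (nat_lit 0) (.cons (.rf (nat_lit 2385) (nat_lit 493858305440582043680)) (.cons (.br (nat_lit 5) (nat_lit 0) (.cons (.br (nat_lit 4) (nat_lit 1) (.cons (.rf (nat_lit 2110) (nat_lit 313772836896)) (.cons (.rf (nat_lit 2380) (nat_lit 15063627368335392)) (.cons (.br (nat_lit 13) (nat_lit 0) (.cons (.rf (nat_lit 2387) (nat_lit 493858305440582043680)) (.cons (.br (nat_lit 13) (nat_lit 0) (.cons (.rf (nat_lit 2387) (nat_lit 493858305440582043680)) (.cons (.ev (nat_lit 20282409608392555709588450639873) (nat_lit 1)) .nil))) (.cons (.br (nat_lit 13) (nat_lit 0) (.cons (.rf (nat_lit 2387) (nat_lit 493858305440582043680)) (.cons (.ev (nat_lit 20282409608392555709588450639873) (nat_lit 1)) .nil))) .nil)))) .nil)))) (.cons (.rf (nat_lit 2108) (nat_lit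 336795882096893088)) (.cons (.br (nat_lit 10) (nat_lit 1) (.cons (.rf (nat_lit 2110) (nat_lit 320215287840)) (.cons (.rf (nat_lit 2380) (nat_lit 15070224438102048)) (.cons (.br (nat_lit 4) (nat_lit 1) (.cons (.rf (nat_lit 2385) (nat_lit 457935133904761820384)) (.cons (.rf (nat_lit 2388) (nat_lit 493858305440582043680)) (.cons (.br (nat_lit 4) (nat_lit 1) (.cons (.rf (nat_lit 2385) (nat_lit 457935133904761820384)) (.cons (.rf (nat_lit 2388) (nat_lit 493858305440582043680)) .nil))) .nil)))) .nil)))) (.cons (.br (nat_lit 11) (nat_lit 1) (.cons (.rf (nat_lit 2110) (nat_lit 321289029664)) (.cons (.rf (nat_lit 2380) (nat_lit 15071323949729824)) (.cons (.br (nat_lit 13) (nat_lit 0) (.cons (.rf (nat_lit 2389) (nat_lit 493858305440582043680)) (.cons (.br (nat_lit 13) (nat_lit 0) (.cons (.rf (nat_lit 2389) (nat_lit 493858305440582043680)) (.cons (.rf (nat_lit 2390) (nat_lit 15433072045018155040)) .nil))) (.cons (.br (nat_lit 13) (nat_lit 0) (.cons (.rf (nat_lit 2389) (nat_lit 493858305440582043680))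 (.cons (.rf (nat_lit 2390) (nat_lit 15433072045018155040)) .nil))) .nil)))) .nil)))) .nil))))) (.cons (.rf (nat_lit 2378) (nat_lit 295340956582188256)) (.cons (.br (nat_lit 11) (nat_lit 1) (.cons (.br (nat_lit 13) (nat_lit 0) (.cons (.rf (nat_lit 2392) (nat_lit 493858305440582043680)) (.cons (.rf (nat_lit 2393) (nat_lit 493858305440582043680)) (.cons (.br (nat_lit 13) (nat_lit 0) (.cons (.rf (nat_lit 2392) (nat_lit 493858305440582043680)) (.cons (.rf (nat_lit 2393) (nat_lit 493858305440582043680)) .nil))) .nil)))) (.cons (.rf (nat_lit 2108) (nat_lit 114991403579579552)) (.cons (.br (nat_lit 13) (nat_lit 0) (.cons (.rf (nat_lit 2395) (nat_lit 493858305440582043680)) (.cons (.rf (nat_lit 2396) (nat_lit 493858305440582043680)) (.cons (.br (nat_lit 13) (nat_lit 0) (.cons (.rf (nat_lit 2395) (nat_lit 493858305440582043680)) (.cons (.rf (nat_lit 2396) (nat_lit 493858305440582043680)) .nil))) .nil)))) (.cons (.br (nat_lit 13) (nat_lit 0) (.cons (.rf (nat_lit 2397) (nat_lit 493858305440582043680))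 (.cons (.rf (nat_lit 2398) (nat_lit 493858305440582043680)) (.cons (.br (nat_lit 13) (nat_lit 0) (.cons (.rf (nat_lit 2397) (nat_lit 493858305440582043680)) (.cons (.rf (nat_lit 2398) (nat_lit 493858305440582043680)) .nil))) .nil)))) .nil))))) .nil))))) .nil)) .nil))))),
 (.br (nat_lit 10) (nat_lit 1) (.cons (.rf (nat_lit 2399) (nat_lit 225296713450292288)) (.cons (.rf (nat_lit 2378) (nat_lit 295341094188909632)) (.cons (.rf (nat_lit 2399) (nat_lit 225296575843570912)) (.cons (.rf (nat_lit 2378) (nat_lit 295340956582188256)) (.cons (.br (nat_lit 13) (nat_lit 0) (.cons (.rf (nat_lit 2131) (nat_lit 457866454144835061792)) (.cons (.kr (nat_lit 18446744073709551616) (nat_lit 20282409603651670423947251286016) (nat_lit 8) (nat_lit 0)) (.cons (.kr (nat_lit 1208925819614629174706176) (nat_lit 20282409603651670423947251286016) (nat_lit 10) (nat_lit 0)) .nil)))) .nil)))))),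
 (.br (nat_lit 8) (nat_lit 1) (.cons (.rf (nat_lit 2378) (nat_lit 372964484733569056)) (.cons (.rf (nat_lit 2399) (nat_lit 407901468851537952)) (.cons (.rf (nat_lit 2378) (nat_lit 372964312800664736)) (.cons (.rf (nat_lit 2399) (nat_lit 407901296918633632)) (.cons (.br (nat_lit 8) (nat_lit 1) (.cons (.rf (nat_lit 2378) (nat_lit 372964484733569056)) (.cons (.rf (nat_lit 2399) (nat_lit 407901468851537952)) (.cons (.rf (nat_lit 2378) (nat_lit 372964312800664736)) (.cons (.rf (nat_lit 2399) (nat_lit 407901296918633632)) (.cons (.br (nat_lit 12) (nat_lit 1) (.cons (.br (nat_lit 10) (nat_lit 1) (.cons (.rf (nat_lit 2399) (nat_lit 225296713450292288)) (.cons (.rf (nat_lit 2378) (nat_lit 295341094188909632)) (.cons (.rf (nat_lit 2399) (nat_lit 225296575843570912)) (.cons (.rf (nat_lit 2378) (nat_lit 295340956582188256)) (.cons (.rf (nat_lit 2400) (nat_lit 493858305440582043680)) (.cons (.rf (nat_lit 2400) (nat_lit 458117738797769787424)) .nil))))))) .nil)) .nil)))))) .nil)))))),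
 (.br (nat_lit 11) (nat_lit 1) (.cons (.rf (nat_lit 2123) (nat_lit 493821218911233869856)) (.cons (.rf (nat_lit 2108) (nat_lit 114991403579579552)) (.cons (.rf (nat_lit 2220) (nat_lit 493784068442564959392)) .nil)))),
 (.br (nat_lit 5) (nat_lit 0) (.cons (.br (nat_lit 7) (nat_lit 0) (.cons (.ev (nat_lit 20282410817299856804024871288833) (nat_lit 1)) (.cons (.br (nat_lit 11) (nat_lit 1) (.cons (.rf (nat_lit 2378) (nat_lit 114991403579577568)) (.cons (.br (nat_lit 1) (nat_lit 0) (.cons (.ev (nat_lit 20678555251963669590944486850820) (nat_lit 3)) .nil)) .nil))) .nil))) (.cons (.br (nat_lit 7) (nat_lit 0) (.cons (.br (nat_lit 1) (nat_lit 0) (.cons (.br (nat_lit 12) (nat_lit 0) (.cons (.zr (nat_lit 237684487579902673718754673408) (nat_lit 310712825108017076403961857) (nat_lit 5) (nat_lit 0)) .nil)) .nil)) (.cons (.ev (nat_lit 1208925891673327019294721) (nat_lit 1)) .nil))) (.cons (.rf (nat_lit 2402) (nat_lit 493858305440582043680)) .nil)))),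
 (.br (nat_lit 7) (nat_lit 0) (.cons (.rf (nat_lit 2403) (nat_lit 493858305440582043680)) (.cons (.br (nat_lit 5) (nat_lit 0) (.cons (.br (nat_lit 1) (nat_lit 0) (.cons (.br (nat_lit 11) (nat_lit 1) (.cons (.ev (nat_lit 20837009159103520870596266493700) (nat_lit 3)) .nil)) .nil)) (.cons (.rf (nat_lit 2402) (nat_lit 493858305440582043680)) .nil))) (.cons (.br (nat_lit 11) (nat_lit 1) (.cons (.br (nat_lit 5) (nat_lit 0) (.cons (.br (nat_lit 12) (nat_lit 0) (.cons (.ev (nat_lit 79538861190935544753278812674) (nat_lit 2)) .nil)) (.cons (.br (nat_lit 12) (nat_lit 0) (.cons (.ev (nat_lit 79541279042574774003038158850) (nat_lit 2)) .nil)) .nil))) (.cons (.rf (nat_lit 2108) (nat_lit 114991403579579552)) (.cons (.br (nat_lit 4) (nat_lit 1) (.cons (.br (nat_lit 5) (nat_lit 0) (.cons (.ev (nat_lit 20521953419216071489919197184260) (nat_lit 3)) .nil)) (.cons (.br (nat_lit 10) (nat_lit 1) (.cons (.ev (nat_lit 20521953419216071489919197184260) (nat_lit 3)) .nil)) .nil))) .nil)))) .nil)))),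
 (.br (nat_lit 7) (nat_lit 0) (.cons (.rf (nat_lit 2403) (nat_lit 493858305440582043680)) (.cons (.rf (nat_lit 2404) (nat_lit 493858305440582043680)) (.cons (.br (nat_lit 5) (nat_lit 0) (.cons (.ev (nat_lit 1208925891673327019294721) (nat_lit 1)) (.cons (.br (nat_lit 4) (nat_lit 1) (.cons (.br (nat_lit 11) (nat_lit 1) (.cons (.zr (nat_lit 309485046931287481824313344) (nat_lit 158457538676714774884947853313) (nat_lit 5) (nat_lit 10)) .nil)) (.cons (.br (nat_lit 11) (nat_lit 1) (.cons (.ev (nat_lit 79541279042574774003038158850) (nat_lit 2)) .nil)) .nil))) (.cons (.rf (nat_lit 2108) (nat_lit 114991403579579552)) .nil)))) .nil)))),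
 (.br (nat_lit 7) (nat_lit 0) (.cons (.rf (nat_lit 2403) (nat_lit 493858305440582043680)) (.cons (.rf (nat_lit 2404) (nat_lit 493858305440582043680)) (.cons (.rf (nat_lit 2405) (nat_lit 493858305440582043680)) (.cons (.br (nat_lit 7) (nat_lit 0) (.cons (.rf (nat_lit 2403) (nat_lit 493858305440582043680)) (.cons (.rf (nat_lit 2404) (nat_lit 493858305440582043680)) (.cons (.rf (nat_lit 2405) (nat_lit 493858305440582043680)) .nil)))) .nil))))),
 (.br (nat_lit 13) (nat_lit 0) (.cons (.rf (nat_lit 2406) (nat_lit 493858305440582043680)) (.cons (.rf (nat_lit 2406) (nat_lit 493823368456464074784)) .nil))),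
 (.br (nat_lit 7) (nat_lit 0) (.cons (.zr (nat_lit 60847228810955155387029829910784) (nat_lit 311912324640284140090949633) (nat_lit 5) (nat_lit 0)) .nil)),
 (.br (nat_lit 7) (nat_lit 0) (.cons (.br (nat_lit 6) (nat_lit 1) (.cons (.rf (nat_lit 2378) (nat_lit 336795882096891104)) (.cons (.br (nat_lit 1) (nat_lit 0) (.cons (.ev (nat_lit 20362880542019683475655301071108) (nat_lit 3)) .nil)) .nil))) (.cons (.ev (nat_lit 310693935640959697899552769) (nat_lit 1)) .nil))),
 (.br (nat_lit 13) (nat_lit 0) (.cons (.rf (nat_lit 2407) (nat_lit 493858305440582043680)) (.cons (.br (nat_lit 5) (nat_lit 0) (.cons (.br (nat_lit 1) (nat_lit 0) (.cons (.br (nat_lit 11) (nat_lit 1) (.cons (.br (nat_lit 7) (nat_lit 0) (.cons (.br (nat_lit 12) (nat_lit 0) (.cons (.ev (nat_lit 80157840692060008440385372674) (nat_lit 2)) .nil)) (.cons (.ev (nat_lit 1208925891673327019294721) (nat_lit 1)) .nil))) (.cons (.ev (nat_lit 79228167236630821567012602113) (nat_lit 1)) .nil))) (.cons (.br (nat_lit 6) (nat_lit 1) (.cons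 (.rf (nat_lit 2408) (nat_lit 493858305440582043680)) (.cons (.br (nat_lit 6) (nat_lit 1) (.cons (.rf (nat_lit 2408) (nat_lit 493858305440582043680)) .nil)) .nil))) (.cons (.ev (nat_lit 20282409603670117169124784275713) (nat_lit 1)) .nil)))) (.cons (.br (nat_lit 6) (nat_lit 1) (.cons (.rf (nat_lit 2123) (nat_lit 493857076184438900768)) (.cons (.rf (nat_lit 2108) (nat_lit 336795882096893088)) (.cons (.rf (nat_lit 2220) (nat_lit 493783893624511110304)) .nil)))) (.cons (.ev (nat_lit 20282410812595936783749663948801) (nat_lit 1)) (.cons (.br (nat_lit 7) (nat_lit 0) (.cons (.rf (nat_lit 2409) (nat_lit 493858305440582043680)) (.cons (.br (nat_lit 7) (nat_lit 0) (.cons (.rf (nat_lit 2409) (nat_lit 493858305440582043680)) (.cons (.ev (nat_lit 310693935640959697899552769) (nat_lit 1)) .nil))) (.cons (.ev (nat_lit 310693935640959697899552769) (nat_lit 1)) .nil)))) .nil))))) .nil))),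
 (.br (nat_lit 13) (nat_lit 0) (.cons (.rf (nat_lit 2407) (nat_lit 493858305440582043680)) (.cons (.rf (nat_lit 2410) (nat_lit 493858305440582043680)) (.cons (.br (nat_lit 13) (nat_lit 0) (.cons (.rf (nat_lit 2407) (nat_lit 493858305440582043680)) (.cons (.rf (nat_lit 2410) (nat_lit 493858305440582043680)) .nil))) .nil)))),
 (.br (nat_lit 13) (nat_lit 0) (.cons (.rf (nat_lit 2411) (nat_lit 493858305440582043680)) (.cons (.rf (nat_lit 2411) (nat_lit 493823368456464074784)) (.cons (.br (nat_lit 13) (nat_lit 0) (.cons (.rf (nat_lit 2411) (nat_lit 493858305440582043680)) (.cons (.rf (nat_lit 2411) (nat_lit 493823368456464074784)) .nil))) .nil)))),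
 (.br (nat_lit 10) (nat_lit 1) (.cons (.rf (nat_lit 2108) (nat_lit 112811073094360224)) (.cons (.br (nat_lit 6) (nat_lit 1) (.cons (.br (nat_lit 7) (nat_lit 0) (.cons (.br (nat_lit 13) (nat_lit 0) (.cons (.ev (nat_lit 21312390261336630528201976646408) (nat_lit 4)) .nil)) (.cons (.ev (nat_lit 80160249043770437488011837954) (nat_lit 2)) .nil))) (.cons (.br (nat_lit 11) (nat_lit 1) (.cons (.br (nat_lit 4) (nat_lit 1) (.cons (.ev (nat_lit 309485028340428215743938561) (nat_lit 1)) .nil)) .nil)) .nil))) .nil))),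
 (.br (nat_lit 10) (nat_lit 1) (.cons (.rf (nat_lit 2108) (nat_lit 112811073094360224)) (.cons (.br (nat_lit 5) (nat_lit 0) (.cons (.br (nat_lit 13) (nat_lit 0) (.cons (.br (nat_lit 7) (nat_lit 0) (.cons (.ev (nat_lit 309494509894825607927169282) (nat_lit 2)) .nil)) (.cons (.br (nat_lit 7) (nat_lit 0) (.cons (.ev (nat_lit 309494509894825607927169282) (nat_lit 2)) .nil)) .nil))) (.cons (.br (nat_lit 11) (nat_lit 1) (.cons (.ev (nat_lit 79538861172271781260600344833) (nat_lit 1)) (.cons (.ev (nat_lit 309485028268090241946026241) (nat_lit 1)) .nil))) (.cons (.br (nat_lit 4) (nat_lit 1) (.cons (.ev (nat_lit 80159035413958464631306518530) (nat_lit 2)) (.cons (.br (nat_lit 7) (nat_lit 0) (.cons (.ev (nat_lit 158767033131413762735792521730) (nat_lit 2)) .nil)) .nil))) .nil)))) .nil))),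
 (.br (nat_lit 10) (nat_lit 1) (.cons (.rf (nat_lit 2413) (nat_lit 493858305440582043680)) (.cons (.rf (nat_lit 2414) (nat_lit 493858305440582043680)) (.cons (.br (nat_lit 10) (nat_lit 1) (.cons (.rf (nat_lit 2413) (nat_lit 493858305440582043680)) (.cons (.rf (nat_lit 2414) (nat_lit 493858305440582043680)) .nil))) .nil)))),
 (.br (nat_lit 11) (nat_lit 1) (.cons (.rf (nat_lit 2415) (nat_lit 493858305440582043680)) (.cons (.ev (nat_lit 79537652264898909605623562241) (nat_lit 1)) (.cons (.br (nat_lit 1) (nat_lit 0) (.cons (.ev (nat_lit 4722366483973451808769) (nat_lit 1)) (.cons (.br (nat_lit 10) (nat_lit 1) (.cons (.br (nat_lit 10) (nat_lit 1) (.cons (.ev (nat_lit 310693935640959697899552769) (nat_lit 1)) .nil)) (.cons (.br (nat_lit 10) (nat_lit 1) (.cons (.ev (nat_lit 310693935640959697899552769) (nat_lit 1)) .nil)) .nil))) (.cons (.br (nat_lit 6) (nat_lit 1) (.cons (.br (nat_lit 10) (nat_lit 1) (.cons (.rf (nat_lit 2378) (nat_lit 112811073094358240)) (.cons (.br (nat_lit 4) (nat_lit 1)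 (.cons (.ev (nat_lit 20361637785166585563927057334532) (nat_lit 3)) .nil)) .nil))) (.cons (.br (nat_lit 4) (nat_lit 1) (.cons (.br (nat_lit 10) (nat_lit 1) (.cons (.ev (nat_lit 79229371458530697400234803201) (nat_lit 1)) .nil)) .nil)) .nil))) .nil)))) .nil)))),
 (.br (nat_lit 11) (nat_lit 1) (.cons (.rf (nat_lit 2415) (nat_lit 493858305440582043680)) (.cons (.ev (nat_lit 79537652264898909605623562241) (nat_lit 1)) (.cons (.br (nat_lit 7) (nat_lit 0) (.cons (.br (nat_lit 1) (nat_lit 0) (.cons (.ev (nat_lit 4722438821938659918081) (nat_lit 1)) (.cons (.br (nat_lit 6) (nat_lit 1) (.cons (.zr (nat_lit 158456325028672791474675450368) (nat_lit 309489750634572016408068097) (nat_lit 5) (nat_lit 0)) (.cons (.br (nat_lit 5) (nat_lit 0) (.cons (.ev (nat_lit 20363494685743888310742127412996) (nat_lit 3)) .nil)) .nil))) .nil))) (.cons (.br (nat_lit 13) (nat_lit 0) (.cons (.br (nat_lit 5) (nat_lit 0) (.cons (.br (nat_lit 10) (nat_lit 1) (.cons (.ev (nat_lit 79538870617221481641069838850) (nat_lit 2))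 .nil)) .nil)) (.cons (.br (nat_lit 10) (nat_lit 1) (.cons (.ev (nat_lit 1208944338416296922185729) (nat_lit 1)) (.cons (.ev (nat_lit 310693935640959697899552769) (nat_lit 1)) .nil))) .nil))) (.cons (.br (nat_lit 5) (nat_lit 0) (.cons (.br (nat_lit 13) (nat_lit 0) (.cons (.br (nat_lit 1) (nat_lit 0) (.cons (.ev (nat_lit 20680412171430148912979191988996) (nat_lit 3)) .nil)) (.cons (.ev (nat_lit 20361638979832639661811169296385) (nat_lit 1)) .nil))) (.cons (.br (nat_lit 4) (nat_lit 1) (.cons (.ev (nat_lit 309489750634853487056257281) (nat_lit 1)) (.cons (.br (nat_lit 1) (nat_lit 0) (.cons (.ev (nat_lit 310698658079500165877661953) (nat_lit 1)) .nil)) .nil))) (.cons (.rf (nat_lit 2108) (nat_lit 112811073094360224)) .nil)))) .nil)))) .nil))))]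

theorem c82 : chkAll C T R L82 (nat_lit 2395) = true := by decide +kernel

theorem l82 : (nat_lit 2395) + L82.length = (nat_lit 2418) := by decide +kernel

/-- part of the certificates -/
def L83 : List Prf := [(.br (nat_lit 11) (nat_lit 1) (.cons (.rf (nat_lit 2415) (nat_lit 493858305440582043680)) (.cons (.rf (nat_lit 2416) (nat_lit 493858305440582043680)) (.cons (.rf (nat_lit 2417) (nat_lit 493858305440582043680)) (.cons (.br (nat_lit 11) (nat_lit 1) (.cons (.rf (nat_lit 2415) (nat_lit 493858305440582043680)) (.cons (.rf (nat_lit 2416) (nat_lit 493858305440582043680)) (.cons (.rf (nat_lit 2417) (nat_lit 493858305440582043680)) .nil)))) .nil))))),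
 (.br (nat_lit 6) (nat_lit 1) (.cons (.ev (nat_lit 18447026648197890049) (nat_lit 1)) (.cons (.br (nat_lit 11) (nat_lit 1) (.cons (.ev (nat_lit 20361637794574425604460292145412) (nat_lit 3)) .nil)) .nil))),
 (.br (nat_lit 13) (nat_lit 0) (.cons (.br (nat_lit 7) (nat_lit 0) (.cons (.br (nat_lit 5) (nat_lit 0) (.cons (.br (nat_lit 11) (nat_lit 1) (.cons (.ev (nat_lit 20361637785166585563927057334532) (nat_lit 3)) .nil)) .nil)) (.cons (.br (nat_lit 11) (nat_lit 1) (.cons (.rf (nat_lit 2378) (nat_lit 114991403579577568)) (.cons (.rf (nat_lit 2108) (nat_lit 114991403579579552)) .nil))) .nil))) (.cons (.br (nat_lit 5) (nat_lit 0) (.cons (.br (nat_lit 1) (nat_lit 0) (.cons (.br (nat_lit 11) (nat_lit 1) (.cons (.ev (nat_lit 21949941565458594612049422784784) (nat_lit 5)) .nil)) (.cons (.ev (nat_lit 309485028268090241946026241) (nat_lit 1)) .nil))) (.cons (.rf (nat_lit 2419) (nat_lit 493858305440582043680)) (.cons (.br (nat_lit 7) (nat_lit 0) (.cons (.rf (nat_lit 2419) (nat_lit 458082801813651818528))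 (.cons (.ev (nat_lit 20361948464842388948182049554433) (nat_lit 1)) .nil))) .nil)))) .nil))),
 (.br (nat_lit 13) (nat_lit 0) (.cons (.rf (nat_lit 2420) (nat_lit 493858305440582043680)) (.cons (.br (nat_lit 13) (nat_lit 0) (.cons (.rf (nat_lit 2420) (nat_lit 493858305440582043680)) (.cons (.kr (nat_lit 1208925819614629174706176) (nat_lit 20282409603651670423947251286016) (nat_lit 10) (nat_lit 0)) .nil))) (.cons (.br (nat_lit 13) (nat_lit 0) (.cons (.rf (nat_lit 2420) (nat_lit 493858305440582043680)) (.cons (.kr (nat_lit 1208925819614629174706176) (nat_lit 20282409603651670423947251286016) (nat_lit 10) (nat_lit 0)) .nil))) .nil)))),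
 (.br (nat_lit 7) (nat_lit 0) (.cons (.rf (nat_lit 2421) (nat_lit 493858305440582043680)) (.cons (.br (nat_lit 6) (nat_lit 1) (.cons (.rf (nat_lit 2378) (nat_lit 406806180120433888)) (.cons (.rf (nat_lit 2108) (nat_lit 336795882096893088)) (.cons (.br (nat_lit 13) (nat_lit 0) (.cons (.rf (nat_lit 2418) (nat_lit 458082801813651818528)) (.cons (.rf (nat_lit 2421) (nat_lit 458082801813651818528)) .nil))) .nil)))) (.cons (.br (nat_lit 6) (nat_lit 1) (.cons (.br (nat_lit 11) (nat_lit 1) (.cons (.rf (nat_lit 2108) (nat_lit 114991403579579552)) (.cons (.br (nat_lit 13) (nat_lit 0) (.cons (.ev (nat_lit 20361947255898194928552474836993) (nat_lit 1)) (.cons (.kr (nat_lit 1208925819614629174706176) (nat_lit 20282409603651670423947251286016) (nat_lit 10) (nat_lit 0)) .nil))) .nil))) (.cons (.rf (nat_lit 2108) (nat_lit 336795882096893088)) (.cons (.br (nat_lit 11) (nat_lit 1) (.cons (.ev (nat_lit 79537652246524504600928649473) (nat_lit 1)) (.cons (.rf (nat_lit 2108) (nat_lit 114991403579579552)) (.cons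 (.rf (nat_lit 2421) (nat_lit 458082801813651818528)) .nil)))) .nil)))) .nil)))),
 (.br (nat_lit 7) (nat_lit 0) (.cons (.rf (nat_lit 2421) (nat_lit 493858305440582043680)) (.cons (.rf (nat_lit 2422) (nat_lit 493858305440582043680)) (.cons (.br (nat_lit 5) (nat_lit 0) (.cons (.ev (nat_lit 1208925891673327019294721) (nat_lit 1)) (.cons (.br (nat_lit 11) (nat_lit 1) (.cons (.br (nat_lit 4) (nat_lit 1) (.cons (.br (nat_lit 6) (nat_lit 1) (.cons (.ev (nat_lit 20679795609854594200486325454596) (nat_lit 3)) .nil)) .nil)) (.cons (.br (nat_lit 6) (nat_lit 1) (.cons (.br (nat_lit 4) (nat_lit 1) (.cons (.ev (nat_lit 20838251934882978762675770820356) (nat_lit 3)) .nil)) (.cons (.ev (nat_lit 309485009893685237251112961) (nat_lit 1)) .nil))) .nil))) (.cons (.rf (nat_lit 2108) (nat_lit 114991403579579552)) .nil)))) .nil)))),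
 (.br (nat_lit 7) (nat_lit 0) (.cons (.rf (nat_lit 2421) (nat_lit 493858305440582043680)) (.cons (.rf (nat_lit 2422) (nat_lit 493858305440582043680)) (.cons (.rf (nat_lit 2423) (nat_lit 493858305440582043680)) (.cons (.br (nat_lit 7) (nat_lit 0) (.cons (.rf (nat_lit 2421) (nat_lit 493858305440582043680)) (.cons (.rf (nat_lit 2422) (nat_lit 493858305440582043680)) (.cons (.rf (nat_lit 2423) (nat_lit 493858305440582043680)) .nil)))) .nil))))),
 (.br (nat_lit 6) (nat_lit 1) (.cons (.br (nat_lit 10) (nat_lit 1) (.cons (.ev (nat_lit 1223129812833964312756482) (nat_lit 2)) (.cons (.ev (nat_lit 1213648258436572129525761) (nat_lit 1)) .nil))) (.cons (.ev (nat_lit 20361637770906748269963421745153) (nat_lit 1)) .nil))),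
 (.br (nat_lit 5) (nat_lit 0) (.cons (.ev (nat_lit 1208925891673327019294721) (nat_lit 1)) (.cons (.ev (nat_lit 20283032205171283403753444671490) (nat_lit 2)) .nil))),
 (.br (nat_lit 7) (nat_lit 0) (.cons (.rf (nat_lit 2425) (nat_lit 493858305440582043680)) (.cons (.br (nat_lit 1) (nat_lit 0) (.cons (.rf (nat_lit 2426) (nat_lit 493858305440582043680)) .nil)) .nil))),
 (.br (nat_lit 7) (nat_lit 0) (.cons (.br (nat_lit 1) (nat_lit 0) (.cons (.rf (nat_lit 2378) (nat_lit 406806180120433888)) (.cons (.rf (nat_lit 2378) (nat_lit 112811073094358240)) .nil))) .nil)),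
 (.br (nat_lit 13) (nat_lit 0) (.cons (.rf (nat_lit 2418) (nat_lit 458082801813651818528)) (.cons (.br (nat_lit 7) (nat_lit 0) (.cons (.rf (nat_lit 2425) (nat_lit 493858305440582043680)) (.cons (.rf (nat_lit 2427) (nat_lit 493858305440582043680)) (.cons (.br (nat_lit 7) (nat_lit 0) (.cons (.rf (nat_lit 2425) (nat_lit 493858305440582043680)) (.cons (.rf (nat_lit 2427) (nat_lit 493858305440582043680)) .nil))) .nil)))) (.cons (.br (nat_lit 7) (nat_lit 0) (.cons (.rf (nat_lit 2428) (nat_lit 493858305440582043680)) (.cons (.br (nat_lit 7) (nat_lit 0) (.cons (.rf (nat_lit 2428) (nat_lit 493858305440582043680)) .nil)) .nil))) .nil)))),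
 (.br (nat_lit 11) (nat_lit 1) (.cons (.ev (nat_lit 4722366483973451808769) (nat_lit 1)) (.cons (.br (nat_lit 5) (nat_lit 0) (.cons (.ev (nat_lit 309489750634853487056257281) (nat_lit 1)) (.cons (.ev (nat_lit 20361948464842388948182049554433) (nat_lit 1)) .nil))) .nil))),
 (.br (nat_lit 10) (nat_lit 1) (.cons (.ev (nat_lit 20361638975110201121343191187713) (nat_lit 1)) (.cons (.br (nat_lit 11) (nat_lit 1) (.cons (.br (nat_lit 7) (nat_lit 0) (.cons (.ev (nat_lit 309494509894825607927169282) (nat_lit 2)) .nil)) (.cons (.ev (nat_lit 20361638979832639661811169296385) (nat_lit 1)) .nil))) .nil))),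
 (.br (nat_lit 13) (nat_lit 0) (.cons (.rf (nat_lit 2418) (nat_lit 458082801813651818528)) (.cons (.br (nat_lit 4) (nat_lit 1) (.cons (.rf (nat_lit 2430) (nat_lit 493858305440582043680)) (.cons (.rf (nat_lit 2431) (nat_lit 493858305440582043680)) (.cons (.br (nat_lit 6) (nat_lit 1) (.cons (.rf (nat_lit 2430) (nat_lit 458082801813651818528)) (.cons (.rf (nat_lit 2431) (nat_lit 458082801813651818528)) (.cons (.br (nat_lit 10) (nat_lit 1) (.cons (.br (nat_lit 5) (nat_lit 0) (.cons (.ev (nat_lit 20361637785166585563927057334532) (nat_lit 3)) .nil)) (.cons (.br (nat_lit 1) (nat_lit 0) (.cons (.ev (nat_lit 20361637794574425604460292145412) (nat_lit 3)) .nil)) .nil))) .nil)))) .nil)))) (.cons (.rf (nat_lit 2424) (nat_lit 458082801813651818528)) .nil)))),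
 (.br (nat_lit 5) (nat_lit 0) (.cons (.br (nat_lit 7) (nat_lit 0) (.cons (.ev (nat_lit 20282409608392555991059132383233) (nat_lit 1)) (.cons (.br (nat_lit 1) (nat_lit 0) (.cons (.zr (nat_lit 237684487543009748512699056896) (nat_lit 310698676454186645616328705) (nat_lit 5) (nat_lit 0)) .nil)) .nil))) (.cons (.br (nat_lit 6) (nat_lit 1) (.cons (.ev (nat_lit 1213666632841576824439041) (nat_lit 1)) (.cons (.ev (nat_lit 20361638979832639661811169296385) (nat_lit 1)) .nil))) .nil))),
 (.br (nat_lit 7) (nat_lit 0) (.cons (.rf (nat_lit 2433) (nat_lit 493858305440582043680)) (.cons (.br (nat_lit 6) (nat_lit 1) (.cons (.rf (nat_lit 2378) (nat_lit 406806180120433888)) (.cons (.ev (nat_lit 20361947255916641673721401114625) (nat_lit 1)) .nil))) .nil))),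
 (.br (nat_lit 13) (nat_lit 0) (.cons (.rf (nat_lit 2429) (nat_lit 493858305440582043680)) (.cons (.rf (nat_lit 2432) (nat_lit 493858305440582043680)) (.cons (.br (nat_lit 7) (nat_lit 0) (.cons (.rf (nat_lit 2433) (nat_lit 493858305440582043680)) (.cons (.rf (nat_lit 2434) (nat_lit 493858305440582043680)) (.cons (.br (nat_lit 7) (nat_lit 0) (.cons (.rf (nat_lit 2433) (nat_lit 493858305440582043680)) (.cons (.rf (nat_lit 2434) (nat_lit 493858305440582043680)) .nil))) .nil)))) .nil)))),
 (.br (nat_lit 12) (nat_lit 0) (.cons (.rf (nat_lit 2418) (nat_lit 493858305440582043680)) (.cons (.rf (nat_lit 2424) (nat_lit 493858305440582043680)) (.cons (.br (nat_lit 13) (nat_lit 0) (.cons (.rf (nat_lit 2429) (nat_lit 493858305440582043680)) (.cons (.rf (nat_lit 2432) (nat_lit 493858305440582043680)) (.cons (.rf (nat_lit 2435) (nat_lit 493858305440582043680)) (.cons (.br (nat_lit 13) (nat_lit 0) (.cons (.rf (nat_lit 2429) (nat_lit 493858305440582043680)) (.cons (.rf (nat_lit 2424) (nat_lit 458082801813651818528))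 (.cons (.rf (nat_lit 2435) (nat_lit 493858305440582043680)) .nil)))) .nil))))) .nil)))),
 (.br (nat_lit 1) (nat_lit 0) (.cons (.br (nat_lit 11) (nat_lit 1) (.cons (.ev (nat_lit 20361637770888301526984928788481) (nat_lit 1)) (.cons (.ev (nat_lit 4722438821938659918081) (nat_lit 1)) .nil))) (.cons (.br (nat_lit 11) (nat_lit 1) (.cons (.br (nat_lit 7) (nat_lit 0) (.cons (.ev (nat_lit 158767033131413762735792521730) (nat_lit 2)) .nil)) (.cons (.ev (nat_lit 20282719093383930309483954241793) (nat_lit 1)) .nil))) .nil))),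
 (.br (nat_lit 7) (nat_lit 0) (.cons (.rf (nat_lit 2437) (nat_lit 493858305440582043680)) (.cons (.br (nat_lit 5) (nat_lit 0) (.cons (.br (nat_lit 1) (nat_lit 0) (.cons (.ev (nat_lit 79537661728150677016956502786) (nat_lit 2)) .nil)) (.cons (.rf (nat_lit 2108) (nat_lit 114991403579579552)) .nil))) .nil))),
 (.br (nat_lit 10) (nat_lit 1) (.cons (.ev (nat_lit 20361637770888301526984928788481) (nat_lit 1)) (.cons (.br (nat_lit 5) (nat_lit 0) (.cons (.ev (nat_lit 1213666632841576824439041) (nat_lit 1)) (.cons (.ev (nat_lit 20361948464842388948182049554433) (nat_lit 1)) .nil))) .nil))),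
 (.br (nat_lit 1) (nat_lit 0) (.cons (.rf (nat_lit 2439) (nat_lit 458082801813651818528)) (.cons (.br (nat_lit 11) (nat_lit 1) (.cons (.br (nat_lit 4) (nat_lit 1) (.cons (.ev (nat_lit 20682264302601916632299670800136) (nat_lit 4)) .nil)) .nil)) (.cons (.ev (nat_lit 309485028268090241946026241) (nat_lit 1)) .nil)))),
 (.br (nat_lit 11) (nat_lit 1) (.cons (.ev (nat_lit 158767028427350192421486133250) (nat_lit 2)) (.cons (.ev (nat_lit 20361948464842388948182049554433) (nat_lit 1)) .nil))),
 (.br (nat_lit 13) (nat_lit 0) (.cons (.rf (nat_lit 2436) (nat_lit 458082801813651818528)) (.cons (.br (nat_lit 7) (nat_lit 0) (.cons (.rf (nat_lit 2437) (nat_lit 493858305440582043680)) (.cons (.rf (nat_lit 2438) (nat_lit 493858305440582043680)) (.cons (.br (nat_lit 7) (nat_lit 0) (.cons (.rf (nat_lit 2437) (nat_lit 493858305440582043680)) (.cons (.rf (nat_lit 2438) (nat_lit 493858305440582043680)) .nil))) .nil)))) (.cons (.br (nat_lit 6) (nat_lit 1) (.cons (.rf (nat_lit 2439) (nat_lit 493858305440582043680))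 (.cons (.rf (nat_lit 2440) (nat_lit 493858305440582043680)) (.cons (.br (nat_lit 4) (nat_lit 1) (.cons (.rf (nat_lit 2439) (nat_lit 458082801813651818528)) (.cons (.rf (nat_lit 2440) (nat_lit 458082801813651818528)) (.cons (.br (nat_lit 5) (nat_lit 0) (.cons (.rf (nat_lit 2441) (nat_lit 493858305440582043680)) (.cons (.rf (nat_lit 2441) (nat_lit 458082801813651818528)) .nil))) .nil)))) .nil)))) .nil)))),
 (.br (nat_lit 13) (nat_lit 0) (.cons (.rf (nat_lit 2442) (nat_lit 493858305440582043680)) (.cons (.rf (nat_lit 2436) (nat_lit 458082801813651818528)) (.cons (.br (nat_lit 13) (nat_lit 0) (.cons (.rf (nat_lit 2442) (nat_lit 493858305440582043680)) (.cons (.rf (nat_lit 2436) (nat_lit 458082801813651818528)) (.cons (.kr (nat_lit 1208925819614629174706176) (nat_lit 20282409603651670423947251286016) (nat_lit 10) (nat_lit 0)) .nil)))) (.cons (.br (nat_lit 13) (nat_lit 0) (.cons (.rf (nat_lit 2442) (nat_lit 493858305440582043680)) (.cons (.rf (nat_lit 2436) (nat_lit 458082801813651818528))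 (.cons (.kr (nat_lit 1208925819614629174706176) (nat_lit 20282409603651670423947251286016) (nat_lit 10) (nat_lit 0)) .nil)))) .nil))))),
 (.br (nat_lit 11) (nat_lit 1) (.cons (.ev (nat_lit 20361637766184381506718311383041) (nat_lit 1)) (.cons (.br (nat_lit 10) (nat_lit 1) (.cons (.ev (nat_lit 20361948464842388948182049554433) (nat_lit 1)) (.cons (.rf (nat_lit 2426) (nat_lit 458082801813651818528)) .nil))) .nil))),
 (.br (nat_lit 10) (nat_lit 1) (.cons (.ev (nat_lit 20361638975110201121343191187713) (nat_lit 1)) (.cons (.br (nat_lit 11) (nat_lit 1) (.cons (.br (nat_lit 7) (nat_lit 0) (.cons (.ev (nat_lit 309494509894825607927169282) (nat_lit 2)) .nil)) (.cons (.ev (nat_lit 1208925891673327019294721) (nat_lit 1)) .nil))) .nil))),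
 (.br (nat_lit 1) (nat_lit 0) (.cons (.ev (nat_lit 20520404785148624042527050302210) (nat_lit 2)) .nil)),
 (.br (nat_lit 13) (nat_lit 0) (.cons (.rf (nat_lit 2436) (nat_lit 458082801813651818528)) (.cons (.br (nat_lit 4) (nat_lit 1) (.cons (.rf (nat_lit 2444) (nat_lit 493858305440582043680)) (.cons (.rf (nat_lit 2445) (nat_lit 493858305440582043680)) (.cons (.br (nat_lit 6) (nat_lit 1) (.cons (.rf (nat_lit 2444) (nat_lit 458082801813651818528)) (.cons (.rf (nat_lit 2445) (nat_lit 458082801813651818528)) (.cons (.br (nat_lit 5) (nat_lit 0) (.cons (.rf (nat_lit 2446) (nat_lit 493858305440582043680)) (.cons (.rf (nat_lit 2446) (nat_lit 458082801813651818528)) .nil))) .nil)))) .nil)))) (.cons (.rf (nat_lit 2443) (nat_lit 458082801813651818528)) .nil)))),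
 (.br (nat_lit 4) (nat_lit 1) (.cons (.br (nat_lit 6) (nat_lit 1) (.cons (.br (nat_lit 10) (nat_lit 1) (.cons (.ev (nat_lit 79538861190790864403324534785) (nat_lit 1)) .nil)) (.cons (.rf (nat_lit 2378) (nat_lit 299712654500566240)) .nil))) (.cons (.rf (nat_lit 2108) (nat_lit 299712654500568224)) .nil)))]

theorem c83 : chkAll C T R L83 (nat_lit 2418) = true := by decide +kernel

theorem l83 : (nat_lit 2418) + L83.length = (nat_lit 2449) := by decide +kernel

/-- part of the certificates -/
def L84 : List Prf := [(.br (nat_lit 7) (nat_lit 0) (.cons (.rf (nat_lit 2448) (nat_lit 493858305440582043680)) (.cons (.br (nat_lit 5) (nat_lit 0) (.cons (.br (nat_lit 4) (nat_lit 1) (.cons (.zr (nat_lit 618970019642693436018196480) (nat_lit 1213666633123064686051329) (nat_lit 5) (nat_lit 0)) .nil)) .nil)) .nil))),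
 (.br (nat_lit 13) (nat_lit 0) (.cons (.rf (nat_lit 2447) (nat_lit 493858305440582043680)) (.cons (.rf (nat_lit 2436) (nat_lit 458082801813651818528)) (.cons (.br (nat_lit 7) (nat_lit 0) (.cons (.rf (nat_lit 2448) (nat_lit 493858305440582043680)) (.cons (.rf (nat_lit 2449) (nat_lit 493858305440582043680)) (.cons (.br (nat_lit 7) (nat_lit 0) (.cons (.rf (nat_lit 2448) (nat_lit 493858305440582043680)) (.cons (.rf (nat_lit 2449) (nat_lit 493858305440582043680)) .nil))) .nil)))) .nil)))),
 (.br (nat_lit 12) (nat_lit 0) (.cons (.rf (nat_lit 2436) (nat_lit 493858305440582043680)) (.cons (.rf (nat_lit 2443) (nat_lit 493858305440582043680)) (.cons (.br (nat_lit 13) (nat_lit 0) (.cons (.rf (nat_lit 2447) (nat_lit 493858305440582043680)) (.cons (.rf (nat_lit 2436) (nat_lit 458082801813651818528)) (.cons (.rf (nat_lit 2450) (nat_lit 493858305440582043680)) (.cons (.br (nat_lit 13) (nat_lit 0) (.cons (.rf (nat_lit 2443) (nat_lit 458082801813651818528)) (.cons (.rf (nat_lit 2436) (nat_lit 458082801813651818528))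 (.cons (.rf (nat_lit 2450) (nat_lit 493858305440582043680)) .nil)))) .nil))))) .nil)))),
 (.br (nat_lit 12) (nat_lit 0) (.cons (.rf (nat_lit 2436) (nat_lit 493858305440582043680)) (.cons (.rf (nat_lit 2451) (nat_lit 493858305440582043680)) (.cons (.br (nat_lit 13) (nat_lit 0) (.cons (.rf (nat_lit 2451) (nat_lit 458082801813651818528)) (.cons (.rf (nat_lit 2436) (nat_lit 458082801813651818528)) (.cons (.br (nat_lit 13) (nat_lit 0) (.cons (.rf (nat_lit 2451) (nat_lit 458082801813651818528)) (.cons (.rf (nat_lit 2436) (nat_lit 458082801813651818528)) (.cons (.kr (nat_lit 1208925819614629174706176) (nat_lit 20282409603651670423947251286016) (nat_lit 10) (nat_lit 0)) .nil)))) (.cons (.kr (nat_lit 309485009821345068724781056) (nat_lit 79228162514264337593543950336) (nat_lit 11) (nat_lit 0)) .nil))))) .nil)))),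
 (.br (nat_lit 8) (nat_lit 1) (.cons (.rf (nat_lit 2108) (nat_lit 154366186411526176)) (.cons (.rf (nat_lit 2378) (nat_lit 372964312800664736)) (.cons (.rf (nat_lit 2401) (nat_lit 372964484733569056)) (.cons (.br (nat_lit 13) (nat_lit 0) (.cons (.rf (nat_lit 2411) (nat_lit 493858305440582043680)) (.cons (.rf (nat_lit 2411) (nat_lit 493823368456464074784)) (.cons (.rf (nat_lit 2412) (nat_lit 493858305440582043680)) (.cons (.rf (nat_lit 2412) (nat_lit 493823368456464074784)) .nil))))) (.cons (.br (nat_lit 12) (nat_lit 0) (.cons (.rf (nat_lit 2436) (nat_lit 493858305440582043680)) (.cons (.rf (nat_lit 2451) (nat_lit 493858305440582043680)) (.cons (.rf (nat_lit 2452) (nat_lit 493858305440582043680)) (.cons (.br (nat_lit 12) (nat_lit 0) (.cons (.rf (nat_lit 2436) (nat_lit 493858305440582043680)) (.cons (.rf (nat_lit 2451) (nat_lit 493858305440582043680)) (.cons (.rf (nat_lit 2452) (nat_lit 493858305440582043680)) .nil)))) .nil))))) .nil)))))),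
 (.br (nat_lit 7) (nat_lit 0) (.cons (.br (nat_lit 5) (nat_lit 0) (.cons (.br (nat_lit 1) (nat_lit 0) (.cons (.ev (nat_lit 1213666632842676336066561) (nat_lit 1)) (.cons (.br (nat_lit 10) (nat_lit 1) (.cons (.ev (nat_lit 20282410812596009121723461992705) (nat_lit 1)) (.cons (.ev (nat_lit 79229371440156292395539890433) (nat_lit 1)) .nil))) .nil))) (.cons (.br (nat_lit 2) (nat_lit 0) (.cons (.br (nat_lit 1) (nat_lit 0) (.cons (.ev (nat_lit 20282409617818914553997062832386) (nat_lit 2)) .nil)) (.cons (.ev (nat_lit 1208925891673327019294721) (nat_lit 1)) .nil))) (.cons (.br (nat_lit 1) (nat_lit 0) (.cons (.br (nat_lit 2) (nat_lit 0) (.cons (.ev (nat_lit 20282410817299856802925359661313) (nat_lit 1)) (.cons (.rf (nat_lit 2453) (nat_lit 493670240370689416352)) .nil))) (.cons (.ev (nat_lit 20282409608411074513463828021506) (nat_lit 2)) (.cons (.rf (nat_lit 2453) (nat_lit 493670240405015600288)) .nil)))) .nil)))) (.cons (.br (nat_lit 1) (nat_lit 0) (.cons (.br (nat_lit 5) (nat_lit 0) (.cons (.br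 (nat_lit 12) (nat_lit 0) (.cons (.br (nat_lit 11) (nat_lit 1) (.cons (.ev (nat_lit 20837628129233844590316360107268) (nat_lit 3)) .nil)) .nil)) (.cons (.br (nat_lit 12) (nat_lit 0) (.cons (.ev (nat_lit 20361638975110273178941540794625) (nat_lit 1)) (.cons (.br (nat_lit 10) (nat_lit 1) (.cons (.ev (nat_lit 20837628129233844590316360107268) (nat_lit 3)) .nil)) .nil))) .nil))) (.cons (.br (nat_lit 5) (nat_lit 0) (.cons (.br (nat_lit 2) (nat_lit 0) (.cons (.br (nat_lit 12) (nat_lit 0) (.cons (.ev (nat_lit 20837628129233844590316360107268) (nat_lit 3)) .nil)) .nil)) (.cons (.br (nat_lit 4) (nat_lit 1) (.cons (.br (nat_lit 12) (nat_lit 0) (.cons (.ev (nat_lit 20837628129233844590316360107268) (nat_lit 3)) .nil)) (.cons (.ev (nat_lit 20361638975110273178941540794625) (nat_lit 1)) .nil))) .nil))) (.cons (.br (nat_lit 11) (nat_lit 1) (.cons (.rf (nat_lit 2108) (nat_lit 114991575512483872)) (.cons (.br (nat_lit 10) (nat_lit 1) (.cons (.br (nat_lit 12) (nat_lit 0) (.cons (.ev (nat_lit 20678552853074993913174908405508)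 (nat_lit 3)) .nil)) (.cons (.br (nat_lit 4) (nat_lit 1) (.cons (.ev (nat_lit 20837628138641684630849594918148) (nat_lit 3)) .nil)) .nil))) (.cons (.br (nat_lit 2) (nat_lit 0) (.cons (.br (nat_lit 10) (nat_lit 1) (.cons (.ev (nat_lit 20837628129233844590316360107268) (nat_lit 3)) .nil)) (.cons (.br (nat_lit 4) (nat_lit 1) (.cons (.ev (nat_lit 20837628129233844590316360107268) (nat_lit 3)) .nil)) .nil))) .nil)))) .nil)))) (.cons (.br (nat_lit 2) (nat_lit 0) (.cons (.br (nat_lit 1) (nat_lit 0) (.cons (.ev (nat_lit 20282410817299856802925359661313) (nat_lit 1)) (.cons (.br (nat_lit 5) (nat_lit 0) (.cons (.ev (nat_lit 20282410812596009121723461992705) (nat_lit 1)) (.cons (.ev (nat_lit 20283338068144530343960481104130) (nat_lit 2)) .nil))) .nil))) (.cons (.br (nat_lit 1) (nat_lit 0) (.cons (.br (nat_lit 12) (nat_lit 0) (.cons (.br (nat_lit 5) (nat_lit 0) (.cons (.ev (nat_lit 317226980233482391846069339908) (nat_lit 3)) .nil)) .nil)) (.cons (.br (nat_lit 11) (nat_lit 1) (.cons (.br (nat_lit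 4) (nat_lit 1) (.cons (.ev (nat_lit 79849550440958828279536615426) (nat_lit 2)) .nil)) (.cons (.br (nat_lit 5) (nat_lit 0) (.cons (.ev (nat_lit 21470839361071082399986094902536) (nat_lit 4)) .nil)) .nil))) .nil))) (.cons (.br (nat_lit 11) (nat_lit 1) (.cons (.rf (nat_lit 2108) (nat_lit 114991575512483872)) (.cons (.br (nat_lit 4) (nat_lit 1) (.cons (.br (nat_lit 12) (nat_lit 0) (.cons (.ev (nat_lit 311902916945206514085397250) (nat_lit 2)) .nil)) (.cons (.ev (nat_lit 79538861172271780161088716801) (nat_lit 1)) .nil))) (.cons (.br (nat_lit 4) (nat_lit 1) (.cons (.ev (nat_lit 20361638979832639660711657668865) (nat_lit 1)) (.cons (.ev (nat_lit 1208925891673327019294721) (nat_lit 1)) .nil))) .nil)))) .nil)))) (.cons (.br (nat_lit 11) (nat_lit 1) (.cons (.rf (nat_lit 2378) (nat_lit 219836433285092576)) (.cons (.rf (nat_lit 2378) (nat_lit 219836398958908640)) (.cons (.rf (nat_lit 2108) (nat_lit 114991403579579552)) (.cons (.br (nat_lit 1) (nat_lit 0) (.cons (.br (nat_lit 2) (nat_lit 0) (.cons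 (.br (nat_lit 10) (nat_lit 1) (.cons (.ev (nat_lit 21471458312238730789771706303240) (nat_lit 4)) .nil)) (.cons (.ev (nat_lit 1208925891672227507667201) (nat_lit 1)) .nil))) (.cons (.br (nat_lit 2) (nat_lit 0) (.cons (.br (nat_lit 5) (nat_lit 0) (.cons (.ev (nat_lit 1213666632841576824439041) (nat_lit 1)) .nil)) (.cons (.br (nat_lit 4) (nat_lit 1) (.cons (.ev (nat_lit 1213666632841576824439041) (nat_lit 1)) .nil)) .nil))) (.cons (.br (nat_lit 2) (nat_lit 0) (.cons (.ev (nat_lit 1208925891672227507667201) (nat_lit 1)) (.cons (.br (nat_lit 5) (nat_lit 0) (.cons (.ev (nat_lit 21472696271314479606556699330312) (nat_lit 4)) .nil)) .nil))) .nil)))) .nil))))) .nil))))),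
 (.br (nat_lit 13) (nat_lit 0) (.cons (.rf (nat_lit 2454) (nat_lit 493858305440582043680)) (.cons (.rf (nat_lit 2454) (nat_lit 493823368284531170464)) .nil))),
 (.br (nat_lit 13) (nat_lit 0) (.cons (.rf (nat_lit 2455) (nat_lit 493858305440582043680)) (.cons (.br (nat_lit 1) (nat_lit 0) (.cons (.br (nat_lit 12) (nat_lit 0) (.cons (.br (nat_lit 5) (nat_lit 0) (.cons (.br (nat_lit 10) (nat_lit 1) (.cons (.ev (nat_lit 20361638975091754377273776537601) (nat_lit 1)) (.cons (.ev (nat_lit 1213666632842676336066561) (nat_lit 1)) .nil))) (.cons (.ev (nat_lit 79229376162450436191892275201) (nat_lit 1)) (.cons (.br (nat_lit 2) (nat_lit 0) (.cons (.ev (nat_lit 40723585045768123774921244672260) (nat_lit 3)) (.cons (.rf (nat_lit 2217) (nat_lit 457865607415453555872)) .nil))) .nil)))) (.cons (.br (nat_lit 2) (nat_lit 0) (.cons (.br (nat_lit 7) (nat_lit 0) (.cons (.br (nat_lit 5) (nat_lit 0) (.cons (.ev (nat_lit 309489787673021984429769474) (nat_lit 2)) .nil)) (.cons (.br (nat_lit 5) (nat_lit 0) (.cons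 (.ev (nat_lit 158765814779308209015542186754) (nat_lit 2)) .nil)) .nil))) (.cons (.ev (nat_lit 1208944266358707196067841) (nat_lit 1)) .nil))) (.cons (.br (nat_lit 2) (nat_lit 0) (.cons (.br (nat_lit 7) (nat_lit 0) (.cons (.rf (nat_lit 2316) (nat_lit 458082661080458430496)) (.cons (.ev (nat_lit 20361638979832639660711657668865) (nat_lit 1)) .nil))) (.cons (.br (nat_lit 7) (nat_lit 0) (.cons (.br (nat_lit 5) (nat_lit 0) (.cons (.zr (nat_lit 618970019858862919563346688) (nat_lit 1213666633123051817926657) (nat_lit 5) (nat_lit 0)) .nil)) .nil)) .nil))) .nil)))) (.cons (.br (nat_lit 6) (nat_lit 1) (.cons (.rf (nat_lit 2108) (nat_lit 336796054029797408)) (.cons (.br (nat_lit 12) (nat_lit 0) (.cons (.br (nat_lit 10) (nat_lit 1) (.cons (.br (nat_lit 11) (nat_lit 1) (.cons (.ev (nat_lit 20837009178103378475398713509636) (nat_lit 3)) .nil)) (.cons (.br (nat_lit 11) (nat_lit 1) (.cons (.ev (nat_lit 79848355626898430038118630146) (nat_lit 2)) .nil)) .nil))) (.cons (.kr (nat_lit 1208925819614629191483392)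 (nat_lit 20282409603651670705422227996672) (nat_lit 3) (nat_lit 0)) (.cons (.br (nat_lit 7) (nat_lit 0) (.cons (.rf (nat_lit 2124) (nat_lit 493604875711260231712)) (.cons (.br (nat_lit 4) (nat_lit 1) (.cons (.zr (nat_lit 237684487543009185562779190016) (nat_lit 310698676455312545456062465) (nat_lit 5) (nat_lit 0)) .nil)) .nil))) .nil)))) (.cons (.br (nat_lit 4) (nat_lit 1) (.cons (.br (nat_lit 5) (nat_lit 0) (.cons (.ev (nat_lit 1213666632841576824439041) (nat_lit 1)) (.cons (.ev (nat_lit 309489787673021984429769474) (nat_lit 2)) .nil))) (.cons (.ev (nat_lit 72340168543043841) (nat_lit 1)) (.cons (.br (nat_lit 11) (nat_lit 1) (.cons (.br (nat_lit 10) (nat_lit 1) (.cons (.ev (nat_lit 159076518141090711150021182210) (nat_lit 2)) .nil)) (.cons (.br (nat_lit 2) (nat_lit 0) (.cons (.ev (nat_lit 20520096528046609350985463039748) (nat_lit 3)) .nil)) .nil))) .nil)))) (.cons (.br (nat_lit 4) (nat_lit 1) (.cons (.ev (nat_lit 20282409608392483932369894506753) (nat_lit 1)) (.cons (.br (nat_lit 10)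 (nat_lit 1) (.cons (.ev (nat_lit 1213666632841576824439041) (nat_lit 1)) (.cons (.ev (nat_lit 20361638975091754376174264910081) (nat_lit 1)) .nil))) (.cons (.ev (nat_lit 79228162514264619072832405761) (nat_lit 1)) .nil)))) .nil))))) (.cons (.ev (nat_lit 20282410812595936782650152321281) (nat_lit 1)) (.cons (.br (nat_lit 12) (nat_lit 0) (.cons (.ev (nat_lit 79537647542532426735995060481) (nat_lit 1)) (.cons (.br (nat_lit 5) (nat_lit 0) (.cons (.br (nat_lit 2) (nat_lit 0) (.cons (.kr (nat_lit 18446744078004519168) (nat_lit 309485009821627643213119488) (nat_lit 1) (nat_lit 0)) (.cons (.rf (nat_lit 2217) (nat_lit 458117562703981681824)) .nil))) (.cons (.br (nat_lit 4) (nat_lit 1) (.cons (.ev (nat_lit 79228162514264620172344033281) (nat_lit 1)) (.cons (.ev (nat_lit 20282409608392483933469406134273) (nat_lit 1)) .nil))) (.cons (.ev (nat_lit 79229376162450436191892275201) (nat_lit 1)) .nil)))) (.cons (.br (nat_lit 7) (nat_lit 0) (.cons (.br (nat_lit 2) (nat_lit 0) (.cons (.br (nat_lit 5) (nat_lit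 0) (.cons (.ev (nat_lit 72339069031415809) (nat_lit 1)) .nil)) .nil)) (.cons (.br (nat_lit 6) (nat_lit 1) (.cons (.rf (nat_lit 2316) (nat_lit 493750222277259232320)) (.cons (.rf (nat_lit 2108) (nat_lit 336795882096893088)) .nil))) .nil))) .nil)))) .nil))))) .nil))),
 (.br (nat_lit 13) (nat_lit 0) (.cons (.rf (nat_lit 2455) (nat_lit 493858305440582043680)) (.cons (.rf (nat_lit 2456) (nat_lit 493858305440582043680)) (.cons (.br (nat_lit 13) (nat_lit 0) (.cons (.rf (nat_lit 2455) (nat_lit 493858305440582043680)) (.cons (.rf (nat_lit 2456) (nat_lit 493858305440582043680)) .nil))) .nil)))),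
 (.br (nat_lit 13) (nat_lit 0) (.cons (.rf (nat_lit 2457) (nat_lit 493858305440582043680)) (.cons (.rf (nat_lit 2457) (nat_lit 493823368284531170464)) (.cons (.br (nat_lit 13) (nat_lit 0) (.cons (.rf (nat_lit 2457) (nat_lit 493858305440582043680)) (.cons (.rf (nat_lit 2457) (nat_lit 493823368284531170464)) .nil))) .nil)))),
 (.br (nat_lit 2) (nat_lit 0) (.cons (.rf (nat_lit 2453) (nat_lit 493598220365233195040)) (.cons (.rf (nat_lit 2453) (nat_lit 493858305440582043680)) (.cons (.rf (nat_lit 2123) (nat_lit 493749126132826998816)) .nil)))),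
 (.br (nat_lit 1) (nat_lit 0) (.cons (.br (nat_lit 5) (nat_lit 0) (.cons (.br (nat_lit 10) (nat_lit 1) (.cons (.ev (nat_lit 1213666632841576824439041) (nat_lit 1)) (.cons (.kr (nat_lit 1208925819614633469673728) (nat_lit 4722366765444133552128) (nat_lit 1) (nat_lit 0)) (.cons (.rf (nat_lit 2292) (nat_lit 14314979632776054816)) .nil)))) (.cons (.br (nat_lit 11) (nat_lit 1) (.cons (.br (nat_lit 7) (nat_lit 0) (.cons (.br (nat_lit 10) (nat_lit 1) (.cons (.ev (nat_lit 79229371440084233697712209921) (nat_lit 1)) .nil)) .nil)) (.cons (.rf (nat_lit 2108) (nat_lit 114991403579579552)) (.cons (.rf (nat_lit 2292) (nat_lit 14316105532682897440)) .nil)))) .nil))) (.cons (.br (nat_lit 5) (nat_lit 0) (.cons (.ev (nat_lit 18447025548686262529) (nat_lit 1)) (.cons (.rf (nat_lit 2459) (nat_lit 493858305440582043680)) (.cons (.br (nat_lit 2) (nat_lit 0) (.cons (.br (nat_lit 7) (nat_lit 0) (.cons (.rf (nat_lit 2453) (nat_lit 493598220296580827168)) (.cons (.ev (nat_lit 20282719093383858533360597991681)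 (nat_lit 1)) .nil))) (.cons (.rf (nat_lit 2108) (nat_lit 112811245027264544)) (.cons (.br (nat_lit 7) (nat_lit 0) (.cons (.ev (nat_lit 309489750706630709924134913) (nat_lit 1)) (.cons (.br (nat_lit 6) (nat_lit 1) (.cons (.ev (nat_lit 79541279042430656624562668034) (nat_lit 2)) .nil)) .nil))) .nil)))) .nil)))) (.cons (.br (nat_lit 7) (nat_lit 0) (.cons (.br (nat_lit 12) (nat_lit 0) (.cons (.kr (nat_lit 18446744078004518912) (nat_lit 79228162514264619068520660992) (nat_lit 4) (nat_lit 0)) (.cons (.br (nat_lit 2) (nat_lit 0) (.cons (.br (nat_lit 5) (nat_lit 0) (.cons (.zr (nat_lit 37109660938122822400) (nat_lit 310698658008568467468320769) (nat_lit 5) (nat_lit 0)) .nil)) .nil)) .nil))) (.cons (.br (nat_lit 10) (nat_lit 1) (.cons (.rf (nat_lit 2378) (nat_lit 147816324850320448)) (.cons (.rf (nat_lit 2108) (nat_lit 112811073094360224)) (.cons (.br (nat_lit 2) (nat_lit 0) (.cons (.br (nat_lit 11) (nat_lit 1) (.cons (.ev (nat_lit 20838251934919727574884183901956) (nat_lit 3)) .nil)) (.cons (.ev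 (nat_lit 20282720302309677866519107796993) (nat_lit 1)) .nil))) .nil)))) (.cons (.rf (nat_lit 2378) (nat_lit 219836433285092576)) .nil)))) .nil)))),
 (.br (nat_lit 4) (nat_lit 1) (.cons (.kr (nat_lit 79228171959069360926872305920) (nat_lit 20283028573671313115184212541440) (nat_lit 1) (nat_lit 0)) .nil)),
 (.br (nat_lit 12) (nat_lit 0) (.cons (.rf (nat_lit 2460) (nat_lit 493858305440582043680)) (.cons (.br (nat_lit 7) (nat_lit 0) (.cons (.br (nat_lit 1) (nat_lit 0) (.cons (.br (nat_lit 5) (nat_lit 0) (.cons (.br (nat_lit 2) (nat_lit 0) (.cons (.ev (nat_lit 79541279042430656624562668034) (nat_lit 2)) .nil)) .nil)) (.cons (.br (nat_lit 11) (nat_lit 1) (.cons (.rf (nat_lit 2108) (nat_lit 114991575512483872)) (.cons (.rf (nat_lit 2123) (nat_lit 458079529497260039328)) .nil))) .nil))) (.cons (.br (nat_lit 2) (nat_lit 0) (.cons (.br (nat_lit 5) (nat_lit 0) (.cons (.br (nat_lit 11) (nat_lit 1) (.cons (.ev (nat_lit 20837009159177164857611626152708) (nat_lit 3)) .nil)) .nil)) (.cons (.br (nat_lit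 11) (nat_lit 1) (.cons (.ev (nat_lit 310693954160042840623743233) (nat_lit 1)) (.cons (.ev (nat_lit 20361947255916641673721401114625) (nat_lit 1)) .nil))) .nil))) (.cons (.br (nat_lit 11) (nat_lit 1) (.cons (.rf (nat_lit 2378) (nat_lit 219836433285092576)) (.cons (.kr (nat_lit 4740813226943354765312) (nat_lit 20282719088661491769015976067072) (nat_lit 8) (nat_lit 0)) (.cons (.rf (nat_lit 2108) (nat_lit 114991403579579552)) .nil)))) .nil)))) (.cons (.br (nat_lit 1) (nat_lit 0) (.cons (.br (nat_lit 5) (nat_lit 0) (.cons (.br (nat_lit 10) (nat_lit 1) (.cons (.rf (nat_lit 2378) (nat_lit 147816393502688320)) (.cons (.rf (nat_lit 2108) (nat_lit 112811073094360224)) .nil))) (.cons (.rf (nat_lit 2292) (nat_lit 14316103402379118624)) .nil))) (.cons (.br (nat_lit 10) (nat_lit 1) (.cons (.rf (nat_lit 2108) (nat_lit 112811245027264544)) (.cons (.br (nat_lit 2) (nat_lit 0) (.cons (.br (nat_lit 7) (nat_lit 0) (.cons (.ev (nat_lit 20678552843630549182226962383108) (nat_lit 3)) .nil)) (.cons (.rf (nat_lit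 2123) (nat_lit 493751377932638586912)) .nil))) (.cons (.br (nat_lit 2) (nat_lit 0) (.cons (.ev (nat_lit 1213666705180641544175873) (nat_lit 1)) (.cons (.rf (nat_lit 2461) (nat_lit 493858305440582043680)) .nil))) .nil)))) (.cons (.br (nat_lit 5) (nat_lit 0) (.cons (.br (nat_lit 2) (nat_lit 0) (.cons (.br (nat_lit 7) (nat_lit 0) (.cons (.zr (nat_lit 9481842626668823315200) (nat_lit 314320713100085064712060929) (nat_lit 5) (nat_lit 0)) .nil)) .nil)) (.cons (.ev (nat_lit 20282719093383858534460109619201) (nat_lit 1)) .nil))) .nil)))) .nil)))),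
 (.br (nat_lit 12) (nat_lit 0) (.cons (.rf (nat_lit 2460) (nat_lit 493858305440582043680)) (.cons (.rf (nat_lit 2462) (nat_lit 493858305440582043680)) (.cons (.br (nat_lit 1) (nat_lit 0) (.cons (.br (nat_lit 6) (nat_lit 1) (.cons (.br (nat_lit 11) (nat_lit 1) (.cons (.ev (nat_lit 309489750634853487056257281) (nat_lit 1)) (.cons (.ev (nat_lit 79537647524085682666580541441) (nat_lit 1)) .nil))) (.cons (.br (nat_lit 7) (nat_lit 0) (.cons (.ev (nat_lit 1213666632842676336066561) (nat_lit 1)) (.cons (.br (nat_lit 2) (nat_lit 0) (.cons (.ev (nat_lit 20837014004325031608101762434308) (nat_lit 3)) .nil)) .nil))) (.cons (.rf (nat_lit 2220) (nat_lit 458004976188060174368)) .nil)))) (.cons (.br (nat_lit 4) (nat_lit 1) (.cons (.br (nat_lit 10) (nat_lit 1) (.cons (.ev (nat_lit 1213666632841576824439041) (nat_lit 1)) (.cons (.ev (nat_lit 79229371440084233697712209921) (nat_lit 1)) .nil))) (.cons (.br (nat_lit 2) (nat_lit 0) (.cons (.ev (nat_lit 1213666632841576824439041) (nat_lit 1)) (.cons (.zr (nat_lit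 309489732188674562323382528) (nat_lit 40564819207321787591968229031937) (nat_lit 5) (nat_lit 3)) .nil))) (.cons (.rf (nat_lit 2220) (nat_lit 458002794756990666784)) .nil)))) (.cons (.br (nat_lit 6) (nat_lit 1) (.cons (.br (nat_lit 5) (nat_lit 0) (.cons (.ev (nat_lit 79228167236630821567012602113) (nat_lit 1)) (.cons (.ev (nat_lit 20282719088661492051590481248513) (nat_lit 1)) .nil))) (.cons (.ev (nat_lit 18447025548686262529) (nat_lit 1)) (.cons (.br (nat_lit 11) (nat_lit 1) (.cons (.br (nat_lit 5) (nat_lit 0) (.cons (.zr (nat_lit 237684496987742151302036062976) (nat_lit 1239148983552020457071837185) (nat_lit 5) (nat_lit 0)) .nil)) (.cons (.ev (nat_lit 20282410812577562378744969036033) (nat_lit 1)) .nil))) .nil)))) (.cons (.br (nat_lit 5) (nat_lit 0) (.cons (.ev (nat_lit 20361637766184381505618799755521) (nat_lit 1)) (.cons (.br (nat_lit 4) (nat_lit 1) (.cons (.ev (nat_lit 20282409608374037189391401681153) (nat_lit 1)) (.cons (.br (nat_lit 2) (nat_lit 0) (.cons (.ev (nat_lit 20838247108661037399579189248260)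 (nat_lit 3)) .nil)) .nil))) (.cons (.br (nat_lit 4) (nat_lit 1) (.cons (.ev (nat_lit 20282410812577490039680249430273) (nat_lit 1)) (.cons (.ev (nat_lit 20282719088661563827713837367553) (nat_lit 1)) .nil))) .nil)))) .nil))))) .nil))))]

theorem c84 : chkAll C T R L84 (nat_lit 2449) = true := by decide +kernel

theorem l84 : (nat_lit 2449) + L84.length = (nat_lit 2464) := by decide +kernel

/-- part of the certificates -/
def L85 : List Prf := [(.br (nat_lit 12) (nat_lit 0) (.cons (.rf (nat_lit 2460) (nat_lit 493858305440582043680)) (.cons (.rf (nat_lit 2462) (nat_lit 493858305440582043680)) (.cons (.rf (nat_lit 2463) (nat_lit 493858305440582043680)) (.cons (.br (nat_lit 12) (nat_lit 0) (.cons (.rf (nat_lit 2460) (nat_lit 493858305440582043680)) (.cons (.rf (nat_lit 2462) (nat_lit 493858305440582043680)) (.cons (.rf (nat_lit 2463) (nat_lit 493858305440582043680)) .nil)))) .nil))))),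
 (.br (nat_lit 12) (nat_lit 0) (.cons (.rf (nat_lit 2464) (nat_lit 458082801641718914208)) (.cons (.br (nat_lit 7) (nat_lit 0) (.cons (.br (nat_lit 5) (nat_lit 0) (.cons (.rf (nat_lit 2108) (nat_lit 336795882096893088)) (.cons (.br (nat_lit 2) (nat_lit 0) (.cons (.rf (nat_lit 2370) (nat_lit 493820020373836727360)) (.cons (.ev (nat_lit 309489750706630709924134913) (nat_lit 1)) .nil))) .nil))) (.cons (.br (nat_lit 11) (nat_lit 1) (.cons (.rf (nat_lit 2378) (nat_lit 219836433285092576)) (.cons (.rf (nat_lit 2378) (nat_lit 219836398958908640)) (.cons (.rf (nat_lit 2108) (nat_lit 114991403579579552)) .nil)))) .nil))) (.cons (.br (nat_lit 5) (nat_lit 0) (.cons (.br (nat_lit 6) (nat_lit 1) (.cons (.br (nat_lit 10) (nat_lit 1) (.cons (.br (nat_lit 7) (nat_lit 0) (.cons (.ev (nat_lit 20837011605326396600399391949060) (nat_lit 3)) .nil)) (.cons (.rf (nat_lit 2123) (nat_lit 458117634170088955040)) .nil))) (.cons (.br (nat_lit 7) (nat_lit 0) (.cons (.rf (nat_lit 2461) (nat_lit 458005184916896193696))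 (.cons (.ev (nat_lit 20282409608392555991059132383233) (nat_lit 1)) .nil))) (.cons (.rf (nat_lit 2108) (nat_lit 336795882096893088)) .nil)))) (.cons (.br (nat_lit 1) (nat_lit 0) (.cons (.ev (nat_lit 79229371458530696300723175681) (nat_lit 1)) (.cons (.br (nat_lit 2) (nat_lit 0) (.cons (.br (nat_lit 7) (nat_lit 0) (.cons (.zr (nat_lit 9481842626677413249792) (nat_lit 237995181478435098378454958081) (nat_lit 5) (nat_lit 0)) .nil)) .nil)) .nil))) (.cons (.br (nat_lit 1) (nat_lit 0) (.cons (.br (nat_lit 2) (nat_lit 0) (.cons (.rf (nat_lit 2108) (nat_lit 336796054029797408)) (.cons (.ev (nat_lit 20361948460101575722342518161665) (nat_lit 1)) .nil))) (.cons (.rf (nat_lit 2292) (nat_lit 14316109930729408544)) .nil))) .nil)))) .nil)))),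
 (.br (nat_lit 5) (nat_lit 0) (.cons (.br (nat_lit 13) (nat_lit 1) (.cons (.kr (nat_lit 309485009893402662762709248) (nat_lit 79228162514264338693055643648) (nat_lit 1) (nat_lit 0)) .nil)) .nil)),
 (.br (nat_lit 1) (nat_lit 0) (.cons (.br (nat_lit 2) (nat_lit 0) (.cons (.br (nat_lit 7) (nat_lit 0) (.cons (.ev (nat_lit 317225771400183604260710514948) (nat_lit 3)) .nil)) (.cons (.ev (nat_lit 79537652264899191080617050113) (nat_lit 1)) .nil))) (.cons (.br (nat_lit 11) (nat_lit 1) (.cons (.br (nat_lit 7) (nat_lit 0) (.cons (.ev (nat_lit 79849555163469144870837420290) (nat_lit 2)) .nil)) (.cons (.br (nat_lit 2) (nat_lit 0) (.cons (.ev (nat_lit 79538861172272061636082204673) (nat_lit 1)) .nil)) .nil))) (.cons (.ev (nat_lit 20361637766184381505618799755521) (nat_lit 1)) .nil)))),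
 (.br (nat_lit 10) (nat_lit 1) (.cons (.zr (nat_lit 20440865928680199101333362639104) (nat_lit 618974760455917089411039233) (nat_lit 5) (nat_lit 0)) (.cons (.ev (nat_lit 40644051001317646685035969905410) (nat_lit 2)) .nil))),
 (.br (nat_lit 11) (nat_lit 1) (.cons (.br (nat_lit 4) (nat_lit 1) (.cons (.rf (nat_lit 2468) (nat_lit 493858305440582043680)) (.cons (.ev (nat_lit 20282719088661563827713837367553) (nat_lit 1)) .nil))) (.cons (.rf (nat_lit 2220) (nat_lit 493857076016796769440)) (.cons (.br (nat_lit 10) (nat_lit 1) (.cons (.br (nat_lit 4) (nat_lit 1) (.cons (.ev (nat_lit 1208925891672227507667201) (nat_lit 1)) .nil)) (.cons (.ev (nat_lit 309485009893685237251112961) (nat_lit 1)) .nil))) .nil)))),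
 (.br (nat_lit 12) (nat_lit 0) (.cons (.rf (nat_lit 2464) (nat_lit 458082801641718914208)) (.cons (.br (nat_lit 7) (nat_lit 0) (.cons (.br (nat_lit 2) (nat_lit 0) (.cons (.rf (nat_lit 2466) (nat_lit 15431909825759512608)) (.cons (.br (nat_lit 1) (nat_lit 0) (.cons (.ev (nat_lit 4722438821938659918081) (nat_lit 1)) (.cons (.rf (nat_lit 2108) (nat_lit 114991575512483872)) .nil))) .nil))) (.cons (.br (nat_lit 1) (nat_lit 0) (.cons (.br (nat_lit 2) (nat_lit 0) (.cons (.br (nat_lit 11) (nat_lit 1) (.cons (.ev (nat_lit 1213703671011156529709570) (nat_lit 2)) .nil)) .nil)) (.cons (.br (nat_lit 11) (nat_lit 1) (.cons (.rf (nat_lit 2108) (nat_lit 114991575512483872)) (.cons (.br (nat_lit 2) (nat_lit 0) (.cons (.ev (nat_lit 79847146719669395403416011010) (nat_lit 2)) .nil)) .nil))) .nil))) (.cons (.br (nat_lit 11) (nat_lit 1) (.cons (.rf (nat_lit 2378) (nat_lit 219836433285092576)) (.cons (.rf (nat_lit 2378) (nat_lit 219836398958908640)) (.cons (.rf (nat_lit 2108) (nat_lit 114991403579579552))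 .nil)))) .nil)))) (.cons (.br (nat_lit 5) (nat_lit 0) (.cons (.rf (nat_lit 2467) (nat_lit 493858305440582043680)) (.cons (.rf (nat_lit 2469) (nat_lit 493858305440582043680)) (.cons (.br (nat_lit 6) (nat_lit 1) (.cons (.ev (nat_lit 20361637770888301526984928788481) (nat_lit 1)) (.cons (.br (nat_lit 4) (nat_lit 1) (.cons (.ev (nat_lit 79229371440084234797223837953) (nat_lit 1)) (.cons (.br (nat_lit 11) (nat_lit 1) (.cons (.ev (nat_lit 21796424864068889841765341532944) (nat_lit 5)) .nil)) .nil))) (.cons (.rf (nat_lit 2468) (nat_lit 458082801641718914208)) .nil)))) (.cons (.br (nat_lit 1) (nat_lit 0) (.cons (.rf (nat_lit 2469) (nat_lit 458082801641718914208)) (.cons (.rf (nat_lit 2467) (nat_lit 458082801641718914208)) (.cons (.br (nat_lit 2) (nat_lit 0) (.cons (.br (nat_lit 7) (nat_lit 0) (.cons (.ev (nat_lit 79230613441275985597575726340) (nat_lit 3)) .nil)) (.cons (.rf (nat_lit 2220) (nat_lit 493781816644898757792)) .nil))) .nil)))) .nil))))) .nil)))),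
 (.br (nat_lit 1) (nat_lit 0) (.cons (.br (nat_lit 13) (nat_lit 1) (.cons (.kr (nat_lit 79537647524085964137245442304) (nat_lit 9444732966838802120704) (nat_lit 1) (nat_lit 0)) .nil)) .nil)),
 (.br (nat_lit 12) (nat_lit 0) (.cons (.rf (nat_lit 2465) (nat_lit 493858305440582043680)) (.cons (.rf (nat_lit 2470) (nat_lit 493858305440582043680)) (.cons (.br (nat_lit 2) (nat_lit 0) (.cons (.br (nat_lit 7) (nat_lit 0) (.cons (.br (nat_lit 1) (nat_lit 0) (.cons (.ev (nat_lit 1213666705180641544175873) (nat_lit 1)) (.cons (.zr (nat_lit 929663955427765036309872640) (nat_lit 40644047374558418412431418065409) (nat_lit 5) (nat_lit 9)) .nil))) (.cons (.rf (nat_lit 2471) (nat_lit 15433072044983552032)) .nil))) (.cons (.br (nat_lit 1) (nat_lit 0) (.cons (.br (nat_lit 5) (nat_lit 0) (.cons (.ev (nat_lit 79229371440084234797223837953) (nat_lit 1)) (.cons (.rf (nat_lit 2292) (nat_lit 14316103539818072096)) .nil))) (.cons (.rf (nat_lit 2108) (nat_lit 336796054029797408)) (.cons (.br (nat_lit 6) (nat_lit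 1) (.cons (.ev (nat_lit 20361638979832567884588301418753) (nat_lit 1)) (.cons (.rf (nat_lit 2390) (nat_lit 14316176033623153824)) .nil))) .nil)))) (.cons (.br (nat_lit 7) (nat_lit 0) (.cons (.rf (nat_lit 2466) (nat_lit 15431980197724915744)) (.cons (.br (nat_lit 6) (nat_lit 1) (.cons (.ev (nat_lit 20282409608392555989959620755713) (nat_lit 1)) (.cons (.zr (nat_lit 40564819207303412908787075514368) (nat_lit 79228167255078127486868914177) (nat_lit 5) (nat_lit 0)) .nil))) .nil))) .nil)))) .nil)))),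
 (.br (nat_lit 12) (nat_lit 0) (.cons (.rf (nat_lit 2465) (nat_lit 493858305440582043680)) (.cons (.rf (nat_lit 2470) (nat_lit 493858305440582043680)) (.cons (.rf (nat_lit 2472) (nat_lit 493858305440582043680)) (.cons (.br (nat_lit 12) (nat_lit 0) (.cons (.rf (nat_lit 2465) (nat_lit 493858305440582043680)) (.cons (.rf (nat_lit 2470) (nat_lit 493858305440582043680)) (.cons (.rf (nat_lit 2472) (nat_lit 493858305440582043680)) .nil)))) .nil))))),
 (.br (nat_lit 12) (nat_lit 0) (.cons (.rf (nat_lit 2464) (nat_lit 458082801641718914208)) (.cons (.br (nat_lit 1) (nat_lit 0) (.cons (.br (nat_lit 11) (nat_lit 1) (.cons (.br (nat_lit 5) (nat_lit 0) (.cons (.br (nat_lit 10) (nat_lit 1) (.cons (.ev (nat_lit 20838244709662115296179487311108) (nat_lit 3)) .nil)) (.cons (.ev (nat_lit 20361948460101575722342518161665) (nat_lit 1)) .nil))) (.cons (.ev (nat_lit 20282719088679938513093980586241) (nat_lit 1)) (.cons (.br (nat_lit 6) (nat_lit 1) (.cons (.rf (nat_lit 2108) (nat_lit 336796054029797408)) (.cons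 (.rf (nat_lit 2123) (nat_lit 458082731272976833696)) .nil))) .nil)))) (.cons (.br (nat_lit 2) (nat_lit 0) (.cons (.br (nat_lit 6) (nat_lit 1) (.cons (.br (nat_lit 11) (nat_lit 1) (.cons (.ev (nat_lit 20837630547011407489211492925700) (nat_lit 3)) .nil)) (.cons (.br (nat_lit 5) (nat_lit 0) (.cons (.zr (nat_lit 9481842626677413249792) (nat_lit 237995181478435098378454958081) (nat_lit 5) (nat_lit 0)) .nil)) .nil))) (.cons (.ev (nat_lit 1208944266358707196067841) (nat_lit 1)) .nil))) (.cons (.br (nat_lit 5) (nat_lit 0) (.cons (.br (nat_lit 6) (nat_lit 1) (.cons (.ev (nat_lit 79228167255077846011875426561) (nat_lit 1)) (.cons (.rf (nat_lit 2108) (nat_lit 336795882096893088)) .nil))) (.cons (.rf (nat_lit 2292) (nat_lit 14314985130334193696)) .nil))) .nil)))) (.cons (.br (nat_lit 7) (nat_lit 0) (.cons (.br (nat_lit 5) (nat_lit 0) (.cons (.rf (nat_lit 2108) (nat_lit 336795882096893088)) (.cons (.br (nat_lit 1) (nat_lit 0) (.cons (.ev (nat_lit 79228167255077847111387054081) (nat_lit 1)) (.cons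 (.rf (nat_lit 2123) (nat_lit 458115523107761527968)) .nil))) .nil))) (.cons (.br (nat_lit 10) (nat_lit 1) (.cons (.br (nat_lit 6) (nat_lit 1) (.cons (.ev (nat_lit 20361948460101575721243006533633) (nat_lit 1)) (.cons (.ev (nat_lit 1213666632842676336066561) (nat_lit 1)) .nil))) (.cons (.rf (nat_lit 2378) (nat_lit 147816324850320448)) (.cons (.rf (nat_lit 2108) (nat_lit 112811073094360224)) .nil)))) .nil))) .nil)))),
 (.br (nat_lit 11) (nat_lit 1) (.cons (.rf (nat_lit 2220) (nat_lit 458002969578262595616)) (.cons (.br (nat_lit 1) (nat_lit 0) (.cons (.ev (nat_lit 4722438821938659918081) (nat_lit 1)) (.cons (.ev (nat_lit 20361638979832639660711657668865) (nat_lit 1)) .nil))) (.cons (.br (nat_lit 1) (nat_lit 0) (.cons (.br (nat_lit 10) (nat_lit 1) (.cons (.ev (nat_lit 20838247127477004585139083346180) (nat_lit 3)) .nil)) (.cons (.br (nat_lit 6) (nat_lit 1) (.cons (.ev (nat_lit 21791492390279549050683242384144) (nat_lit 5)) .nil)) .nil))) .nil)))),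
 (.br (nat_lit 5) (nat_lit 0) (.cons (.ev (nat_lit 20282409608374108964415246172161) (nat_lit 1)) (.cons (.br (nat_lit 11) (nat_lit 1) (.cons (.ev (nat_lit 121774926156575050193244119892228) (nat_lit 3)) (.cons (.br (nat_lit 1) (nat_lit 0) (.cons (.ev (nat_lit 79537652264970968303484797185) (nat_lit 1)) .nil)) .nil))) (.cons (.br (nat_lit 4) (nat_lit 1) (.cons (.br (nat_lit 10) (nat_lit 1) (.cons (.zr (nat_lit 311902861677028592754622464) (nat_lit 158456329769341904329482698753) (nat_lit 5) (nat_lit 8)) .nil)) (.cons (.br (nat_lit 10) (nat_lit 1) (.cons (.zr (nat_lit 311902861677028592754622464) (nat_lit 158456329769341904329482698753) (nat_lit 5) (nat_lit 8)) .nil)) .nil))) .nil)))),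
 (.br (nat_lit 12) (nat_lit 0) (.cons (.rf (nat_lit 2464) (nat_lit 458082801641718914208)) (.cons (.br (nat_lit 7) (nat_lit 0) (.cons (.rf (nat_lit 2475) (nat_lit 493858305440582043680)) (.cons (.rf (nat_lit 2476) (nat_lit 493858305440582043680)) (.cons (.br (nat_lit 2) (nat_lit 0) (.cons (.rf (nat_lit 2476) (nat_lit 458082801641718914208)) (.cons (.rf (nat_lit 2475) (nat_lit 458082801641718914208)) (.cons (.br (nat_lit 4) (nat_lit 1) (.cons (.ev (nat_lit 20282719093402304995963642642433) (nat_lit 1)) (.cons (.br (nat_lit 6) (nat_lit 1) (.cons (.ev (nat_lit 20837011605326109495940327211268) (nat_lit 3)) .nil)) .nil))) .nil)))) (.cons (.br (nat_lit 4) (nat_lit 1) (.cons (.rf (nat_lit 2220) (nat_lit 458115313278342236192)) (.cons (.rf (nat_lit 2476) (nat_lit 458082801641718914208)) (.cons (.br (nat_lit 2) (nat_lit 0) (.cons (.rf (nat_lit 2475) (nat_lit 458082801641718914208)) (.cons (.ev (nat_lit 79229371440156009821068328961) (nat_lit 1)) .nil))) .nil)))) .nil))))) (.cons (.rf (nat_lit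 2473) (nat_lit 458082801641718914208)) .nil)))),
 (.br (nat_lit 13) (nat_lit 0) (.cons (.rf (nat_lit 2464) (nat_lit 493858305440582043680)) (.cons (.rf (nat_lit 2473) (nat_lit 493858305440582043680)) (.cons (.br (nat_lit 12) (nat_lit 0) (.cons (.rf (nat_lit 2474) (nat_lit 493858305440582043680)) (.cons (.rf (nat_lit 2477) (nat_lit 493858305440582043680)) (.cons (.br (nat_lit 12) (nat_lit 0) (.cons (.rf (nat_lit 2474) (nat_lit 493858305440582043680)) (.cons (.rf (nat_lit 2477) (nat_lit 493858305440582043680)) (.cons (.kr (nat_lit 309485009821345068724781056) (nat_lit 79228162514264337593543950336) (nat_lit 11) (nat_lit 0)) .nil)))) (.cons (.br (nat_lit 12) (nat_lit 0) (.cons (.rf (nat_lit 2474) (nat_lit 493858305440582043680)) (.cons (.rf (nat_lit 2473) (nat_lit 458082801641718914208)) (.cons (.kr (nat_lit 309485009821345068724781056) (nat_lit 79228162514264337593543950336) (nat_lit 11) (nat_lit 0)) .nil)))) .nil))))) .nil)))),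
 (.br (nat_lit 11) (nat_lit 1) (.cons (.br (nat_lit 7) (nat_lit 0) (.cons (.ev (nat_lit 309489750634854586567884801) (nat_lit 1)) (.cons (.zr (nat_lit 1208944266359815280787968) (nat_lit 158456329751039273244825747457) (nat_lit 5) (nat_lit 3)) .nil))) (.cons (.rf (nat_lit 2220) (nat_lit 493857005648054688928)) (.cons (.ev (nat_lit 79537652264970967203973169153) (nat_lit 1)) .nil)))),
 (.br (nat_lit 1) (nat_lit 0) (.cons (.br (nat_lit 11) (nat_lit 1) (.cons (.ev (nat_lit 309489750634853487056257281) (nat_lit 1)) (.cons (.br (nat_lit 2) (nat_lit 0) (.cons (.ev (nat_lit 20837011605326396600399391949060) (nat_lit 3)) .nil)) .nil))) (.cons (.ev (nat_lit 18447025548686262529) (nat_lit 1)) (.cons (.br (nat_lit 2) (nat_lit 0) (.cons (.br (nat_lit 10) (nat_lit 1) (.cons (.zr (nat_lit 237684487579902673710164738816) (nat_lit 314325435466567934357274625) (nat_lit 5) (nat_lit 0)) .nil)) (.cons (.ev (nat_lit 20282409608374037189391401681153) (nat_lit 1)) .nil))) .nil)))),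
 (.br (nat_lit 12) (nat_lit 0) (.cons (.rf (nat_lit 2478) (nat_lit 458082801641718914208)) (.cons (.br (nat_lit 1) (nat_lit 0) (.cons (.br (nat_lit 2) (nat_lit 0) (.cons (.ev (nat_lit 20282409603670117168025272647681) (nat_lit 1)) (.cons (.ev (nat_lit 1208944266358707196067841) (nat_lit 1)) .nil))) (.cons (.br (nat_lit 5) (nat_lit 0) (.cons (.rf (nat_lit 2292) (nat_lit 14308224439493429280)) (.cons (.br (nat_lit 7) (nat_lit 0) (.cons (.br (nat_lit 11) (nat_lit 1) (.cons (.ev (nat_lit 1213703526330828066979842) (nat_lit 2)) .nil)) (.cons (.rf (nat_lit 2108) (nat_lit 114991403579579552)) .nil))) .nil))) (.cons (.br (nat_lit 11) (nat_lit 1) (.cons (.rf (nat_lit 2108) (nat_lit 114991575512483872)) (.cons (.rf (nat_lit 2459) (nat_lit 457929673762203344032)) (.cons (.rf (nat_lit 2378) (nat_lit 219836433285092576)) .nil)))) .nil)))) (.cons (.br (nat_lit 5) (nat_lit 0) (.cons (.rf (nat_lit 2479) (nat_lit 493858305440582043680)) (.cons (.rf (nat_lit 2480) (nat_lit 493858305440582043680)) (.cons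 (.br (nat_lit 1) (nat_lit 0) (.cons (.rf (nat_lit 2480) (nat_lit 458082801641718914208)) (.cons (.rf (nat_lit 2479) (nat_lit 458082801641718914208)) (.cons (.br (nat_lit 4) (nat_lit 1) (.cons (.br (nat_lit 6) (nat_lit 1) (.cons (.zr (nat_lit 237684487579902673718754673408) (nat_lit 310712825108017076403961857) (nat_lit 5) (nat_lit 0)) .nil)) (.cons (.br (nat_lit 6) (nat_lit 1) (.cons (.zr (nat_lit 620178945679040502986440704) (nat_lit 158456329769341904329482698753) (nat_lit 5) (nat_lit 8)) .nil)) .nil))) .nil)))) (.cons (.br (nat_lit 1) (nat_lit 0) (.cons (.ev (nat_lit 4722366483973451808769) (nat_lit 1)) (.cons (.rf (nat_lit 2479) (nat_lit 458082801641718914208)) (.cons (.br (nat_lit 2) (nat_lit 0) (.cons (.rf (nat_lit 2220) (nat_lit 493779564845087169696)) (.cons (.br (nat_lit 4) (nat_lit 1) (.cons (.ev (nat_lit 79847156201152857794309784324) (nat_lit 3)) .nil)) .nil))) .nil)))) .nil))))) .nil)))),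
 (.br (nat_lit 12) (nat_lit 0) (.cons (.rf (nat_lit 2481) (nat_lit 493858305440582043680)) (.cons (.rf (nat_lit 2478) (nat_lit 458082801641718914208)) (.cons (.br (nat_lit 2) (nat_lit 0) (.cons (.br (nat_lit 1) (nat_lit 0) (.cons (.rf (nat_lit 2108) (nat_lit 299712826433472544)) (.cons (.br (nat_lit 11) (nat_lit 1) (.cons (.rf (nat_lit 2292) (nat_lit 14316105738841327648)) (.cons (.ev (nat_lit 310693935641241172893040641) (nat_lit 1)) .nil))) (.cons (.br (nat_lit 4) (nat_lit 1) (.cons (.ev (nat_lit 20282410812577490039680249430273) (nat_lit 1)) (.cons (.rf (nat_lit 2390) (nat_lit 14316173834599898272)) .nil))) .nil)))) (.cons (.br (nat_lit 7) (nat_lit 0) (.cons (.br (nat_lit 5) (nat_lit 0) (.cons (.zr (nat_lit 79228162514336398486116892672) (nat_lit 4740813226951961477121) (nat_lit 5) (nat_lit 0)) (.cons (.ev (nat_lit 79537647524158021731300147201) (nat_lit 1)) .nil))) (.cons (.rf (nat_lit 2471) (nat_lit 15433072044985649184)) .nil))) (.cons (.br (nat_lit 7) (nat_lit 0) (.cons (.br (nat_lit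 5) (nat_lit 0) (.cons (.zr (nat_lit 40644047369817677246380619464704) (nat_lit 2422592452456210310889473) (nat_lit 5) (nat_lit 0)) (.cons (.ev (nat_lit 79537647524158021731300147201) (nat_lit 1)) .nil))) (.cons (.rf (nat_lit 2466) (nat_lit 15431980197727012896)) .nil))) .nil)))) .nil))))]

theorem c85 : chkAll C T R L85 (nat_lit 2464) = true := by decide +kernel

theorem l85 : (nat_lit 2464) + L85.length = (nat_lit 2483) := by decide +kernel

/-- part of the certificates -/
def L86 : List Prf := [(.br (nat_lit 12) (nat_lit 0) (.cons (.rf (nat_lit 2481) (nat_lit 493858305440582043680)) (.cons (.rf (nat_lit 2478) (nat_lit 458082801641718914208)) (.cons (.rf (nat_lit 2482) (nat_lit 493858305440582043680)) (.cons (.br (nat_lit 12) (nat_lit 0) (.cons (.rf (nat_lit 2481) (nat_lit 493858305440582043680)) (.cons (.rf (nat_lit 2478) (nat_lit 458082801641718914208)) (.cons (.rf (nat_lit 2482) (nat_lit 493858305440582043680)) .nil)))) .nil))))),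
 (.br (nat_lit 6) (nat_lit 1) (.cons (.br (nat_lit 5) (nat_lit 0) (.cons (.ev (nat_lit 20361947251175756389184008355841) (nat_lit 1)) (.cons (.ev (nat_lit 20757785846551508439857652762116) (nat_lit 3)) .nil))) (.cons (.br (nat_lit 7) (nat_lit 0) (.cons (.br (nat_lit 2) (nat_lit 0) (.cons (.ev (nat_lit 79849555163325594823148176130) (nat_lit 2)) .nil)) (.cons (.br (nat_lit 2) (nat_lit 0) (.cons (.ev (nat_lit 79538861172343838858949951745) (nat_lit 1)) .nil)) .nil))) (.cons (.rf (nat_lit 2220) (nat_lit 458005221378074183712)) .nil)))),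
 (.br (nat_lit 4) (nat_lit 1) (.cons (.ev (nat_lit 4722366483973451808769) (nat_lit 1)) (.cons (.br (nat_lit 6) (nat_lit 1) (.cons (.ev (nat_lit 79537647524085683766092169473) (nat_lit 1)) (.cons (.br (nat_lit 1) (nat_lit 0) (.cons (.zr (nat_lit 237684496987742714251989484288) (nat_lit 310694009427936009934340097) (nat_lit 5) (nat_lit 0)) .nil)) .nil))) (.cons (.br (nat_lit 2) (nat_lit 0) (.cons (.zr (nat_lit 237684487542865073673204793344) (nat_lit 618974760455917089411039233) (nat_lit 5) (nat_lit 0)) (.cons (.br (nat_lit 6) (nat_lit 1) (.cons (.ev (nat_lit 20680412180912063027686440109316) (nat_lit 3)) .nil)) .nil))) .nil)))),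
 (.br (nat_lit 12) (nat_lit 0) (.cons (.rf (nat_lit 2478) (nat_lit 458082801641718914208)) (.cons (.br (nat_lit 11) (nat_lit 1) (.cons (.rf (nat_lit 2484) (nat_lit 493858305440582043680)) (.cons (.br (nat_lit 10) (nat_lit 1) (.cons (.rf (nat_lit 2485) (nat_lit 458082801641718914208)) (.cons (.rf (nat_lit 2484) (nat_lit 458082801641718914208)) (.cons (.br (nat_lit 4) (nat_lit 1) (.cons (.br (nat_lit 6) (nat_lit 1) (.cons (.ev (nat_lit 317225771399896493204575487748) (nat_lit 3)) .nil)) (.cons (.ev (nat_lit 1208925891673327019294721) (nat_lit 1)) .nil))) .nil)))) (.cons (.rf (nat_lit 2485) (nat_lit 493858305440582043680)) (.cons (.br (nat_lit 10) (nat_lit 1) (.cons (.rf (nat_lit 2485) (nat_lit 458082801641718914208)) (.cons (.br (nat_lit 5) (nat_lit 0) (.cons (.rf (nat_lit 2220) (nat_lit 493820977950547352736)) (.cons (.ev (nat_lit 309485009893685237251112961) (nat_lit 1)) .nil))) (.cons (.rf (nat_lit 2484) (nat_lit 458082801641718914208)) .nil)))) .nil))))) (.cons (.rf (nat_lit 2483) (nat_lit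 458082801641718914208)) .nil)))),
 (.br (nat_lit 12) (nat_lit 0) (.cons (.rf (nat_lit 2483) (nat_lit 458082801641718914208)) (.cons (.rf (nat_lit 2478) (nat_lit 458082801641718914208)) (.cons (.kr (nat_lit 309485009821345068724781056) (nat_lit 79228162514264337593543950336) (nat_lit 11) (nat_lit 0)) .nil)))),
 (.br (nat_lit 13) (nat_lit 0) (.cons (.rf (nat_lit 2478) (nat_lit 493858305440582043680)) (.cons (.rf (nat_lit 2483) (nat_lit 493858305440582043680)) (.cons (.br (nat_lit 12) (nat_lit 0) (.cons (.rf (nat_lit 2486) (nat_lit 493858305440582043680)) (.cons (.rf (nat_lit 2478) (nat_lit 458082801641718914208)) (.cons (.br (nat_lit 12) (nat_lit 0) (.cons (.rf (nat_lit 2486) (nat_lit 493858305440582043680)) (.cons (.rf (nat_lit 2478) (nat_lit 458082801641718914208)) (.cons (.kr (nat_lit 309485009821345068724781056) (nat_lit 79228162514264337593543950336) (nat_lit 11) (nat_lit 0)) .nil)))) (.cons (.rf (nat_lit 2487) (nat_lit 493858305440582043680)) .nil))))) .nil)))),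
 (.br (nat_lit 12) (nat_lit 0) (.cons (.rf (nat_lit 2488) (nat_lit 458082801641718914208)) (.cons (.rf (nat_lit 2478) (nat_lit 458082801641718914208)) (.cons (.rf (nat_lit 2487) (nat_lit 458082801641718914208)) (.cons (.br (nat_lit 13) (nat_lit 0) (.cons (.rf (nat_lit 2478) (nat_lit 493858305440582043680)) (.cons (.rf (nat_lit 2488) (nat_lit 493858305440582043680)) (.cons (.rf (nat_lit 2487) (nat_lit 493858305440582043680)) .nil)))) .nil))))),
 (.br (nat_lit 8) (nat_lit 1) (.cons (.rf (nat_lit 2378) (nat_lit 372964484733569056)) (.cons (.rf (nat_lit 2401) (nat_lit 372964484733569056)) (.cons (.rf (nat_lit 2108) (nat_lit 154366014478621856)) (.cons (.br (nat_lit 13) (nat_lit 0) (.cons (.rf (nat_lit 2457) (nat_lit 493858305440582043680)) (.cons (.rf (nat_lit 2457) (nat_lit 493823368284531170464)) (.cons (.rf (nat_lit 2458) (nat_lit 493858305440582043680)) (.cons (.rf (nat_lit 2458) (nat_lit 493823368284531170464)) .nil))))) (.cons (.br (nat_lit 13) (nat_lit 0) (.cons (.rf (nat_lit 2478)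 (nat_lit 493858305440582043680)) (.cons (.rf (nat_lit 2488) (nat_lit 493858305440582043680)) (.cons (.rf (nat_lit 2489) (nat_lit 493858305440582043680)) (.cons (.br (nat_lit 13) (nat_lit 0) (.cons (.rf (nat_lit 2478) (nat_lit 493858305440582043680)) (.cons (.rf (nat_lit 2488) (nat_lit 493858305440582043680)) (.cons (.rf (nat_lit 2489) (nat_lit 493858305440582043680)) .nil)))) .nil))))) .nil)))))),
 (.br (nat_lit 11) (nat_lit 1) (.cons (.rf (nat_lit 2110) (nat_lit 149490337824)) (.cons (.rf (nat_lit 2380) (nat_lit 15071153224779808)) (.cons (.br (nat_lit 12) (nat_lit 0) (.cons (.br (nat_lit 1) (nat_lit 0) (.cons (.rf (nat_lit 2490) (nat_lit 493750116729511609408)) (.cons (.rf (nat_lit 2256) (nat_lit 457861103820121152672)) .nil))) (.cons (.rf (nat_lit 2316) (nat_lit 457935415411917036704)) .nil))) .nil)))),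
 (.br (nat_lit 12) (nat_lit 0) (.cons (.kr (nat_lit 72057594037927936) (nat_lit 79228162514264337593543950336) (nat_lit 7) (nat_lit 0)) (.cons (.rf (nat_lit 2123) (nat_lit 455881737833345550368)) .nil))),
 (.br (nat_lit 5) (nat_lit 0) (.cons (.rf (nat_lit 2108) (nat_lit 299712654500568224)) (.cons (.br (nat_lit 7) (nat_lit 0) (.cons (.rf (nat_lit 2108) (nat_lit 336795882096893088)) (.cons (.br (nat_lit 10) (nat_lit 1) (.cons (.rf (nat_lit 2490) (nat_lit 493598220296580827168)) (.cons (.rf (nat_lit 2378) (nat_lit 147816324850320448)) (.cons (.br (nat_lit 6) (nat_lit 1) (.cons (.rf (nat_lit 2453) (nat_lit 493857210151850941600)) (.cons (.rf (nat_lit 2453) (nat_lit 493857210117524757664)) (.cons (.br (nat_lit 13) (nat_lit 0) (.cons (.br (nat_lit 2) (nat_lit 0) (.cons (.br (nat_lit 1) (nat_lit 0) (.cons (.ev (nat_lit 79538856449977354889776398593) (nat_lit 1)) .nil)) .nil)) (.cons (.br (nat_lit 1) (nat_lit 0) (.cons (.br (nat_lit 2) (nat_lit 0) (.cons (.ev (nat_lit 310708102885370123209868034)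 (nat_lit 2)) .nil)) (.cons (.br (nat_lit 4) (nat_lit 1) (.cons (.ev (nat_lit 310708102885370123209868034) (nat_lit 2)) .nil)) .nil))) .nil))) .nil)))) (.cons (.br (nat_lit 1) (nat_lit 0) (.cons (.ev (nat_lit 1213666632842676336066561) (nat_lit 1)) (.cons (.rf (nat_lit 2453) (nat_lit 458116643509038685344)) (.cons (.br (nat_lit 11) (nat_lit 1) (.cons (.zr (nat_lit 18590859261785604352) (nat_lit 620183667828787636286259201) (nat_lit 5) (nat_lit 0)) (.cons (.ev (nat_lit 309489732259885532407922689) (nat_lit 1)) (.cons (.br (nat_lit 2) (nat_lit 0) (.cons (.rf (nat_lit 2380) (nat_lit 13979305901163584)) (.cons (.rf (nat_lit 2453) (nat_lit 458116643474712501408)) .nil))) .nil)))) .nil)))) .nil))))) (.cons (.br (nat_lit 1) (nat_lit 0) (.cons (.rf (nat_lit 2378) (nat_lit 369688866590954720)) (.cons (.br (nat_lit 2) (nat_lit 0) (.cons (.rf (nat_lit 2110) (nat_lit 144121628704)) (.cons (.br (nat_lit 10) (nat_lit 1) (.cons (.rf (nat_lit 2490) (nat_lit 493857210323783845920)) (.cons (.rf (nat_lit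 2490) (nat_lit 458116643680971589664)) .nil))) (.cons (.rf (nat_lit 2110) (nat_lit 384639797280)) .nil)))) (.cons (.br (nat_lit 2) (nat_lit 0) (.cons (.rf (nat_lit 2378) (nat_lit 369688832264770784)) (.cons (.br (nat_lit 10) (nat_lit 1) (.cons (.rf (nat_lit 2490) (nat_lit 493857210323783844928)) (.cons (.rf (nat_lit 2490) (nat_lit 458116643680971588672)) .nil))) (.cons (.rf (nat_lit 2108) (nat_lit 112811245027264544)) (.cons (.rf (nat_lit 2378) (nat_lit 114991369253393632)) .nil))))) (.cons (.rf (nat_lit 2378) (nat_lit 114991403579577568)) .nil))))) .nil)))) (.cons (.br (nat_lit 7) (nat_lit 0) (.cons (.br (nat_lit 1) (nat_lit 0) (.cons (.rf (nat_lit 2378) (nat_lit 299712654500566240)) (.cons (.rf (nat_lit 2378) (nat_lit 336795882096891104)) (.cons (.rf (nat_lit 2490) (nat_lit 493598220365233195040)) (.cons (.br (nat_lit 2) (nat_lit 0) (.cons (.rf (nat_lit 2378) (nat_lit 299712620174382304)) (.cons (.rf (nat_lit 2378) (nat_lit 336795847770707168)) (.cons (.rf (nat_lit 2378) (nat_lit 147816393502688320))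 (.cons (.rf (nat_lit 2108) (nat_lit 114991575512483872)) .nil))))) .nil))))) (.cons (.rf (nat_lit 2108) (nat_lit 112811073094360224)) (.cons (.br (nat_lit 2) (nat_lit 0) (.cons (.rf (nat_lit 2378) (nat_lit 369688832264770784)) (.cons (.br (nat_lit 1) (nat_lit 0) (.cons (.ev (nat_lit 4311810049) (nat_lit 1)) (.cons (.rf (nat_lit 2108) (nat_lit 336796054029797408)) (.cons (.rf (nat_lit 2453) (nat_lit 493598220365233195040)) (.cons (.ev (nat_lit 309485009893403762291179521) (nat_lit 1)) .nil))))) (.cons (.rf (nat_lit 2378) (nat_lit 147816393502688320)) (.cons (.rf (nat_lit 2378) (nat_lit 114991369253393632)) .nil))))) .nil)))) (.cons (.br (nat_lit 7) (nat_lit 0) (.cons (.br (nat_lit 6) (nat_lit 1) (.cons (.rf (nat_lit 2378) (nat_lit 336795882096891104)) (.cons (.rf (nat_lit 2378) (nat_lit 336795847770707168)) (.cons (.br (nat_lit 4) (nat_lit 1) (.cons (.rf (nat_lit 2378) (nat_lit 299712654500566240)) (.cons (.rf (nat_lit 2378) (nat_lit 299712620174382304)) (.cons (.br (nat_lit 13) (nat_lit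 0) (.cons (.br (nat_lit 2) (nat_lit 0) (.cons (.br (nat_lit 11) (nat_lit 1) (.cons (.ev (nat_lit 20679171813797336289767318161160) (nat_lit 4)) .nil)) (.cons (.ev (nat_lit 20361947251175756107709048422401) (nat_lit 1)) .nil))) (.cons (.br (nat_lit 1) (nat_lit 0) (.cons (.br (nat_lit 10) (nat_lit 1) (.cons (.ev (nat_lit 1213648186378973813473281) (nat_lit 1)) .nil)) .nil)) .nil))) .nil)))) (.cons (.br (nat_lit 2) (nat_lit 0) (.cons (.rf (nat_lit 2378) (nat_lit 299712620174382304)) (.cons (.br (nat_lit 10) (nat_lit 1) (.cons (.rf (nat_lit 2108) (nat_lit 112811245027264544)) (.cons (.br (nat_lit 4) (nat_lit 1) (.cons (.rf (nat_lit 2378) (nat_lit 299712654500566240)) (.cons (.rf (nat_lit 2466) (nat_lit 15429691014515886112)) .nil))) (.cons (.kr (nat_lit 18446744073709551616) (nat_lit 20282409603651670423947251286016) (nat_lit 8) (nat_lit 0)) .nil)))) (.cons (.br (nat_lit 10) (nat_lit 1) (.cons (.ev (nat_lit 309485009893402662779552001) (nat_lit 1)) (.cons (.ev (nat_lit 79537652246524505700440276993)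 (nat_lit 1)) (.cons (.kr (nat_lit 18446744073709551616) (nat_lit 20282409603651670423947251286016) (nat_lit 8) (nat_lit 0)) .nil)))) .nil)))) .nil))))) (.cons (.br (nat_lit 2) (nat_lit 0) (.cons (.rf (nat_lit 2491) (nat_lit 493858305440582043680)) (.cons (.br (nat_lit 1) (nat_lit 0) (.cons (.ev (nat_lit 4311810049) (nat_lit 1)) (.cons (.rf (nat_lit 2108) (nat_lit 336796054029797408)) (.cons (.rf (nat_lit 2453) (nat_lit 493598220296580827168)) (.cons (.br (nat_lit 10) (nat_lit 1) (.cons (.br (nat_lit 4) (nat_lit 1) (.cons (.br (nat_lit 13) (nat_lit 0) (.cons (.ev (nat_lit 21313006785170431703159576792840) (nat_lit 4)) .nil)) .nil)) (.cons (.rf (nat_lit 2492) (nat_lit 15433072045018155040)) .nil))) .nil))))) (.cons (.rf (nat_lit 2378) (nat_lit 147816324850320448)) (.cons (.br (nat_lit 1) (nat_lit 0) (.cons (.rf (nat_lit 2401) (nat_lit 369688969871493152)) (.cons (.ev (nat_lit 309485009893402662779552001) (nat_lit 1)) (.cons (.br (nat_lit 12) (nat_lit 0) (.cons (.ev (nat_lit 79537647542532427835506688001)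 (nat_lit 1)) (.cons (.br (nat_lit 13) (nat_lit 0) (.cons (.rf (nat_lit 2153) (nat_lit 457935135139732719648)) (.cons (.rf (nat_lit 2491) (nat_lit 493598220296580827168)) .nil))) .nil))) .nil)))) .nil))))) (.cons (.rf (nat_lit 2108) (nat_lit 114991403579579552)) .nil)))) .nil))))),
 (.br (nat_lit 10) (nat_lit 1) (.cons (.rf (nat_lit 2108) (nat_lit 112811245027264544)) (.cons (.br (nat_lit 6) (nat_lit 1) (.cons (.rf (nat_lit 2490) (nat_lit 493857210255131477056)) (.cons (.br (nat_lit 2) (nat_lit 0) (.cons (.rf (nat_lit 2453) (nat_lit 458009549949092633760)) (.cons (.rf (nat_lit 2390) (nat_lit 14314985193810795680)) .nil))) .nil))) (.cons (.br (nat_lit 6) (nat_lit 1) (.cons (.rf (nat_lit 2490) (nat_lit 458116643612319220800)) (.cons (.br (nat_lit 13) (nat_lit 0) (.cons (.kr (nat_lit 60847228810955155668509101392128) (nat_lit 1213703526333018483458048) (nat_lit 1) (nat_lit 0)) (.cons (.ev (nat_lit 20282720302328124893162993876993) (nat_lit 1)) .nil))) (.cons (.kr (nat_lit 18446744073709551616)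 (nat_lit 20282409603651670423947251286016) (nat_lit 8) (nat_lit 0)) .nil)))) .nil)))),
 (.br (nat_lit 10) (nat_lit 1) (.cons (.rf (nat_lit 2108) (nat_lit 112811245027264544)) (.cons (.br (nat_lit 4) (nat_lit 1) (.cons (.kr (nat_lit 79228162514264337593560727552) (nat_lit 18446744078004518912) (nat_lit 3) (nat_lit 0)) (.cons (.ev (nat_lit 79229371440156009821068328961) (nat_lit 1)) .nil))) (.cons (.br (nat_lit 6) (nat_lit 1) (.cons (.rf (nat_lit 2490) (nat_lit 458116643612319221792)) (.cons (.br (nat_lit 1) (nat_lit 0) (.cons (.rf (nat_lit 2453) (nat_lit 493750116626231073952)) (.cons (.ev (nat_lit 309485009893403762291179521) (nat_lit 1)) .nil))) (.cons (.kr (nat_lit 18446744073709551616) (nat_lit 20282409603651670423947251286016) (nat_lit 8) (nat_lit 0)) .nil)))) .nil)))),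
 (.br (nat_lit 10) (nat_lit 1) (.cons (.rf (nat_lit 2494) (nat_lit 493858305440582043680)) (.cons (.rf (nat_lit 2495) (nat_lit 493858305440582043680)) (.cons (.br (nat_lit 4) (nat_lit 1) (.cons (.kr (nat_lit 79228162514264337593560727552) (nat_lit 18446744078004518912) (nat_lit 3) (nat_lit 0)) (.cons (.ev (nat_lit 79229371440156009821068328961) (nat_lit 1)) (.cons (.br (nat_lit 6) (nat_lit 1) (.cons (.rf (nat_lit 2139) (nat_lit 493607020787647318048)) (.cons (.rf (nat_lit 2493) (nat_lit 458046633176688956640)) .nil))) .nil)))) .nil)))),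
 (.br (nat_lit 7) (nat_lit 0) (.cons (.rf (nat_lit 2493) (nat_lit 493858305440582043680)) (.cons (.br (nat_lit 10) (nat_lit 1) (.cons (.rf (nat_lit 2378) (nat_lit 112811073094358240)) (.cons (.rf (nat_lit 2378) (nat_lit 147816324850320448)) (.cons (.rf (nat_lit 2108) (nat_lit 112811073094360224)) (.cons (.br (nat_lit 6) (nat_lit 1) (.cons (.rf (nat_lit 2378) (nat_lit 406806180120433888)) (.cons (.rf (nat_lit 2378) (nat_lit 406806145794249952)) (.cons (.ev (nat_lit 79229376180969518235104837633) (nat_lit 1)) (.cons (.br (nat_lit 1) (nat_lit 0) (.cons (.br (nat_lit 4) (nat_lit 1) (.cons (.rf (nat_lit 2108) (nat_lit 299712826433472544)) (.cons (.kr (nat_lit 79228162514264337593560727552) (nat_lit 18446744078004518912) (nat_lit 3) (nat_lit 0)) (.cons (.ev (nat_lit 1213648258436572129525761) (nat_lit 1)) .nil)))) (.cons (.br (nat_lit 2) (nat_lit 0) (.cons (.br (nat_lit 4) (nat_lit 1) (.cons (.rf (nat_lit 2490) (nat_lit 458009549949092633760)) (.cons (.rf (nat_lit 2471) (nat_lit 15431875707613055008))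 .nil))) (.cons (.rf (nat_lit 2108) (nat_lit 114991575512483872)) .nil))) .nil))) .nil))))) (.cons (.br (nat_lit 6) (nat_lit 1) (.cons (.rf (nat_lit 2378) (nat_lit 406806180120433888)) (.cons (.rf (nat_lit 2378) (nat_lit 406806145794249952)) (.cons (.rf (nat_lit 2108) (nat_lit 336795882096893088)) (.cons (.br (nat_lit 1) (nat_lit 0) (.cons (.br (nat_lit 4) (nat_lit 1) (.cons (.rf (nat_lit 2108) (nat_lit 299712826433472544)) (.cons (.br (nat_lit 2) (nat_lit 0) (.cons (.rf (nat_lit 2490) (nat_lit 493750116626231073952)) .nil)) (.cons (.ev (nat_lit 1213648258436572129525761) (nat_lit 1)) .nil)))) (.cons (.br (nat_lit 2) (nat_lit 0) (.cons (.br (nat_lit 13) (nat_lit 0) (.cons (.rf (nat_lit 2471) (nat_lit 15427372245424637984)) (.cons (.ev (nat_lit 79538861190790863303812907265) (nat_lit 1)) .nil))) (.cons (.rf (nat_lit 2108) (nat_lit 114991575512483872)) .nil))) .nil))) (.cons (.kr (nat_lit 18446744073709551616) (nat_lit 20282409603651670423947251286016) (nat_lit 8) (nat_lit 0)) .nil))))))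 .nil)))))) (.cons (.br (nat_lit 5) (nat_lit 0) (.cons (.br (nat_lit 10) (nat_lit 1) (.cons (.rf (nat_lit 2494) (nat_lit 493858305440582043680)) (.cons (.rf (nat_lit 2495) (nat_lit 493858305440582043680)) (.cons (.rf (nat_lit 2496) (nat_lit 493858305440582043680)) (.cons (.br (nat_lit 10) (nat_lit 1) (.cons (.rf (nat_lit 2494) (nat_lit 493858305440582043680)) (.cons (.rf (nat_lit 2495) (nat_lit 493858305440582043680)) (.cons (.rf (nat_lit 2496) (nat_lit 493858305440582043680)) .nil)))) .nil))))) (.cons (.rf (nat_lit 2108) (nat_lit 336795882096893088)) (.cons (.br (nat_lit 10) (nat_lit 1) (.cons (.rf (nat_lit 2490) (nat_lit 493598220365233195040)) (.cons (.rf (nat_lit 2378) (nat_lit 147816393502688320)) (.cons (.br (nat_lit 2) (nat_lit 0) (.cons (.br (nat_lit 1) (nat_lit 0) (.cons (.rf (nat_lit 2108) (nat_lit 299712826433472544)) (.cons (.rf (nat_lit 2490) (nat_lit 493857210151850939616)) (.cons (.ev (nat_lit 309485009893403762291179521) (nat_lit 1)) .nil)))) (.cons (.rf (nat_lit 2380)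 (nat_lit 15070122432628768)) (.cons (.rf (nat_lit 2380) (nat_lit 15070294231320608)) .nil)))) (.cons (.br (nat_lit 6) (nat_lit 1) (.cons (.br (nat_lit 2) (nat_lit 0) (.cons (.rf (nat_lit 2490) (nat_lit 458116643509038683360)) (.cons (.ev (nat_lit 1213666704899166584242433) (nat_lit 1)) .nil))) (.cons (.br (nat_lit 1) (nat_lit 0) (.cons (.rf (nat_lit 2490) (nat_lit 458116643474712499424)) (.cons (.ev (nat_lit 1213666704899166584242433) (nat_lit 1)) .nil))) (.cons (.ev (nat_lit 79229376162450436191892275201) (nat_lit 1)) (.cons (.kr (nat_lit 18446744073709551616) (nat_lit 20282409603651670423947251286016) (nat_lit 8) (nat_lit 0)) .nil))))) .nil))))) (.cons (.rf (nat_lit 2108) (nat_lit 114991403579579552)) .nil))))) .nil))))]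

theorem c86 : chkAll C T R L86 (nat_lit 2483) = true := by decide +kernel

theorem l86 : (nat_lit 2483) + L86.length = (nat_lit 2498) := by decide +kernel

/-- part of the certificates -/
def L87 : List Prf := [(.br (nat_lit 13) (nat_lit 0) (.cons (.ev (nat_lit 79228167236703159532220579841) (nat_lit 1)) (.cons (.br (nat_lit 2) (nat_lit 0) (.cons (.br (nat_lit 6) (nat_lit 1) (.cons (.ev (nat_lit 20838251934882977636775796868868) (nat_lit 3)) .nil)) (.cons (.ev (nat_lit 20361947255916641673721401114625) (nat_lit 1)) .nil))) .nil))),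
 (.br (nat_lit 7) (nat_lit 0) (.cons (.rf (nat_lit 2493) (nat_lit 493858305440582043680)) (.cons (.rf (nat_lit 2497) (nat_lit 493858305440582043680)) (.cons (.br (nat_lit 5) (nat_lit 0) (.cons (.br (nat_lit 2) (nat_lit 0) (.cons (.br (nat_lit 1) (nat_lit 0) (.cons (.ev (nat_lit 1103823438081) (nat_lit 1)) (.cons (.br (nat_lit 11) (nat_lit 1) (.cons (.ev (nat_lit 79228162532783139265603174401) (nat_lit 1)) (.cons (.br (nat_lit 6) (nat_lit 1) (.cons (.rf (nat_lit 2153) (nat_lit 457935127443158665248)) (.cons (.rf (nat_lit 2153) (nat_lit 493675700547579157664)) .nil))) .nil))) (.cons (.rf (nat_lit 2401) (nat_lit 114991506860116000)) .nil)))) (.cons (.br (nat_lit 1) (nat_lit 0) (.cons (.br (nat_lit 13) (nat_lit 0) (.cons (.rf (nat_lit 2490) (nat_lit 458009550155351722016)) (.cons (.rf (nat_lit 2492) (nat_lit 15425190745670256672)) (.cons (.rf (nat_lit 2490) (nat_lit 458079526195509206176)) .nil)))) (.cons (.rf (nat_lit 2108) (nat_lit 336796054029797408)) (.cons (.rf (nat_lit 2453) (nat_lit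 493598220296580827168)) (.cons (.ev (nat_lit 309485009893403762291179521) (nat_lit 1)) .nil))))) (.cons (.rf (nat_lit 2378) (nat_lit 147816324850320448)) (.cons (.br (nat_lit 4) (nat_lit 1) (.cons (.rf (nat_lit 2110) (nat_lit 382492313632)) (.cons (.rf (nat_lit 2380) (nat_lit 15063697161553952)) (.cons (.br (nat_lit 1) (nat_lit 0) (.cons (.br (nat_lit 13) (nat_lit 0) (.cons (.zr (nat_lit 20282409603670117170219984290048) (nat_lit 309494454554873757985406977) (nat_lit 5) (nat_lit 0)) (.cons (.br (nat_lit 6) (nat_lit 1) (.cons (.zr (nat_lit 36893491445954183168) (nat_lit 310698658007724046833156097) (nat_lit 5) (nat_lit 0)) .nil)) .nil))) (.cons (.rf (nat_lit 2497) (nat_lit 457824828698171643104)) .nil))) .nil)))) .nil))))) (.cons (.br (nat_lit 10) (nat_lit 1) (.cons (.rf (nat_lit 2490) (nat_lit 493598220296580827168)) (.cons (.rf (nat_lit 2378) (nat_lit 147816324850320448)) (.cons (.br (nat_lit 13) (nat_lit 0) (.cons (.rf (nat_lit 2498) (nat_lit 493858305440582043680)) (.cons (.ev (nat_lit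 79228167236703159532220579841) (nat_lit 1)) (.cons (.br (nat_lit 13) (nat_lit 0) (.cons (.rf (nat_lit 2498) (nat_lit 493858305440582043680)) (.cons (.ev (nat_lit 79228167236703159532220579841) (nat_lit 1)) .nil))) .nil)))) (.cons (.br (nat_lit 13) (nat_lit 0) (.cons (.br (nat_lit 11) (nat_lit 1) (.cons (.ev (nat_lit 20282720302309749924108833914881) (nat_lit 1)) (.cons (.rf (nat_lit 2370) (nat_lit 493750214579607405632)) (.cons (.br (nat_lit 2) (nat_lit 0) (.cons (.ev (nat_lit 20283032205171282559328497762306) (nat_lit 2)) (.cons (.ev (nat_lit 40565439400434493461631410044930) (nat_lit 2)) .nil))) .nil)))) (.cons (.kr (nat_lit 18446744073709551616) (nat_lit 20282409603651670423947251286016) (nat_lit 8) (nat_lit 0)) (.cons (.br (nat_lit 2) (nat_lit 0) (.cons (.br (nat_lit 4) (nat_lit 1) (.cons (.zr (nat_lit 40564819207303340850093526024448) (nat_lit 1213666632841581136183297) (nat_lit 5) (nat_lit 0)) (.cons (.rf (nat_lit 2466) (nat_lit 15429661322339518496)) .nil))) (.cons (.br (nat_lit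 4) (nat_lit 1) (.cons (.ev (nat_lit 309489750634853487056257281) (nat_lit 1)) (.cons (.ev (nat_lit 20361948460101648060307726139393) (nat_lit 1)) .nil))) .nil))) .nil)))) .nil))))) (.cons (.rf (nat_lit 2108) (nat_lit 112811073094360224)) (.cons (.rf (nat_lit 2108) (nat_lit 114991403579579552)) .nil))))) .nil)))),
 (.br (nat_lit 8) (nat_lit 1) (.cons (.rf (nat_lit 2378) (nat_lit 372964484733569056)) (.cons (.rf (nat_lit 2453) (nat_lit 493858305440582043680)) (.cons (.rf (nat_lit 2378) (nat_lit 372964312800664736)) (.cons (.rf (nat_lit 2490) (nat_lit 493858305440582043680)) (.cons (.br (nat_lit 7) (nat_lit 0) (.cons (.rf (nat_lit 2493) (nat_lit 493858305440582043680)) (.cons (.rf (nat_lit 2497) (nat_lit 493858305440582043680)) (.cons (.rf (nat_lit 2499) (nat_lit 493858305440582043680)) (.cons (.br (nat_lit 7) (nat_lit 0) (.cons (.rf (nat_lit 2493) (nat_lit 493858305440582043680)) (.cons (.rf (nat_lit 2497) (nat_lit 493858305440582043680)) (.cons (.rf (nat_lit 2499) (nat_lit 493858305440582043680))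 .nil)))) .nil))))) .nil)))))),
 (.br (nat_lit 9) (nat_lit 1) (.cons (.rf (nat_lit 2108) (nat_lit 225296782102661152)) (.cons (.rf (nat_lit 2378) (nat_lit 407901296918633632)) (.cons (.rf (nat_lit 2401) (nat_lit 407901468851537952)) (.cons (.br (nat_lit 12) (nat_lit 1) (.cons (.br (nat_lit 8) (nat_lit 1) (.cons (.rf (nat_lit 2378) (nat_lit 372964484733569056)) (.cons (.rf (nat_lit 2453) (nat_lit 493858305440582043680)) (.cons (.rf (nat_lit 2378) (nat_lit 372964312800664736)) (.cons (.rf (nat_lit 2490) (nat_lit 493858305440582043680)) (.cons (.rf (nat_lit 2500) (nat_lit 493858305440582043680)) (.cons (.br (nat_lit 8) (nat_lit 1) (.cons (.rf (nat_lit 2378) (nat_lit 372964484733569056)) (.cons (.rf (nat_lit 2453) (nat_lit 493858305440582043680)) (.cons (.rf (nat_lit 2378) (nat_lit 372964312800664736)) (.cons (.rf (nat_lit 2490) (nat_lit 493858305440582043680)) (.cons (.rf (nat_lit 2500) (nat_lit 493858305440582043680)) .nil)))))) .nil))))))) .nil)) .nil))))),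
 (.br (nat_lit 1) (nat_lit 0) (.cons (.rf (nat_lit 2108) (nat_lit 299712826433472544)) (.cons (.rf (nat_lit 2108) (nat_lit 336796054029797408)) (.cons (.rf (nat_lit 2501) (nat_lit 112811176374896672)) (.cons (.br (nat_lit 7) (nat_lit 0) (.cons (.rf (nat_lit 2378) (nat_lit 299712757781103680)) (.cons (.rf (nat_lit 2378) (nat_lit 336795985377428544)) (.cons (.rf (nat_lit 2501) (nat_lit 114991506860116000)) .nil)))) .nil))))),
 (.br (nat_lit 7) (nat_lit 0) (.cons (.rf (nat_lit 2378) (nat_lit 369688969871492160)) (.cons (.br (nat_lit 5) (nat_lit 0) (.cons (.rf (nat_lit 2378) (nat_lit 369689038523860032)) (.cons (.rf (nat_lit 2108) (nat_lit 336795882096893088)) (.cons (.rf (nat_lit 2108) (nat_lit 112811073094360224)) (.cons (.rf (nat_lit 2378) (nat_lit 114991575512482880)) .nil))))) (.cons (.rf (nat_lit 2378) (nat_lit 114991506860115008)) .nil)))),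
 (.br (nat_lit 2) (nat_lit 0) (.cons (.br (nat_lit 7) (nat_lit 0) (.cons (.rf (nat_lit 2378) (nat_lit 299712757781103680)) (.cons (.rf (nat_lit 2378) (nat_lit 336795985377428544)) (.cons (.rf (nat_lit 2502) (nat_lit 493858305440582043680)) (.cons (.rf (nat_lit 2502) (nat_lit 493823368456464074784)) .nil))))) (.cons (.br (nat_lit 1) (nat_lit 0) (.cons (.rf (nat_lit 2108) (nat_lit 299712826433472544)) (.cons (.br (nat_lit 7) (nat_lit 0) (.cons (.rf (nat_lit 2501) (nat_lit 299712757781103680)) (.cons (.rf (nat_lit 2501) (nat_lit 336795985377429536)) (.cons (.rf (nat_lit 2501) (nat_lit 112811176374895680)) (.cons (.br (nat_lit 7) (nat_lit 0) (.cons (.rf (nat_lit 2378) (nat_lit 369688832264770784)) (.cons (.rf (nat_lit 2501) (nat_lit 336795985377429536)) (.cons (.rf (nat_lit 2501) (nat_lit 112811176374895680)) .nil)))) .nil))))) (.cons (.rf (nat_lit 2108) (nat_lit 112811245027264544)) (.cons (.br (nat_lit 7) (nat_lit 0) (.cons (.rf (nat_lit 2501) (nat_lit 369688969871492160)) (.cons (.br (nat_lit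 7) (nat_lit 0) (.cons (.rf (nat_lit 2378) (nat_lit 299712620174382304)) (.cons (.rf (nat_lit 2378) (nat_lit 112811038768174304)) (.cons (.rf (nat_lit 2501) (nat_lit 114991506860116000)) .nil)))) (.cons (.br (nat_lit 7) (nat_lit 0) (.cons (.rf (nat_lit 2110) (nat_lit 113991877696)) (.cons (.rf (nat_lit 2378) (nat_lit 112811038768174304)) (.cons (.rf (nat_lit 2501) (nat_lit 114991506860116000)) .nil)))) (.cons (.rf (nat_lit 2501) (nat_lit 114991506860116000)) .nil))))) .nil))))) (.cons (.br (nat_lit 7) (nat_lit 0) (.cons (.rf (nat_lit 2378) (nat_lit 369688969871492160)) (.cons (.rf (nat_lit 2503) (nat_lit 493858305440582043680)) (.cons (.br (nat_lit 7) (nat_lit 0) (.cons (.rf (nat_lit 2378) (nat_lit 369688969871492160)) (.cons (.rf (nat_lit 2503) (nat_lit 493858305440582043680)) (.cons (.rf (nat_lit 2378) (nat_lit 114991506860115008)) .nil)))) (.cons (.rf (nat_lit 2378) (nat_lit 114991506860115008)) .nil))))) .nil)))),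
 (.br (nat_lit 7) (nat_lit 0) (.cons (.rf (nat_lit 2504) (nat_lit 493858305268649139360)) (.cons (.rf (nat_lit 2378) (nat_lit 112811038768174304)) (.cons (.rf (nat_lit 2110) (nat_lit 115065816128)) .nil)))),
 (.br (nat_lit 2) (nat_lit 0) (.cons (.rf (nat_lit 2504) (nat_lit 493858305440582043680)) (.cons (.rf (nat_lit 2504) (nat_lit 493823368456464074784)) (.cons (.br (nat_lit 7) (nat_lit 0) (.cons (.rf (nat_lit 2504) (nat_lit 493858305268649139360)) (.cons (.rf (nat_lit 2504) (nat_lit 493823368284531170464)) (.cons (.rf (nat_lit 2505) (nat_lit 493858305440582043680)) (.cons (.rf (nat_lit 2505) (nat_lit 493823368456464074784)) .nil))))) .nil)))),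
 (.br (nat_lit 8) (nat_lit 1) (.cons (.rf (nat_lit 2378) (nat_lit 372964484733569056)) (.cons (.rf (nat_lit 2501) (nat_lit 372964484733569056)) (.cons (.rf (nat_lit 2378) (nat_lit 372964312800664736)) (.cons (.rf (nat_lit 2501) (nat_lit 372964312800664736)) (.cons (.br (nat_lit 2) (nat_lit 0) (.cons (.rf (nat_lit 2504) (nat_lit 493858305440582043680)) (.cons (.rf (nat_lit 2504) (nat_lit 493823368456464074784)) (.cons (.rf (nat_lit 2506) (nat_lit 493858305440582043680)) (.cons (.rf (nat_lit 2506) (nat_lit 493823368456464074784)) .nil))))) .nil)))))),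
 (.br (nat_lit 9) (nat_lit 1) (.cons (.rf (nat_lit 2378) (nat_lit 407901468851537952)) (.cons (.rf (nat_lit 2501) (nat_lit 407901468851537952)) (.cons (.rf (nat_lit 2378) (nat_lit 407901296918633632)) (.cons (.rf (nat_lit 2501) (nat_lit 407901296918633632)) (.cons (.br (nat_lit 9) (nat_lit 1) (.cons (.rf (nat_lit 2378) (nat_lit 407901468851537952)) (.cons (.rf (nat_lit 2501) (nat_lit 407901468851537952)) (.cons (.rf (nat_lit 2378) (nat_lit 407901296918633632)) (.cons (.rf (nat_lit 2501) (nat_lit 407901296918633632)) (.cons (.br (nat_lit 8) (nat_lit 1) (.cons (.rf (nat_lit 2378) (nat_lit 372964484733569056)) (.cons (.rf (nat_lit 2501) (nat_lit 372964484733569056)) (.cons (.rf (nat_lit 2378) (nat_lit 372964312800664736)) (.cons (.rf (nat_lit 2501) (nat_lit 372964312800664736)) (.cons (.rf (nat_lit 2507) (nat_lit 493858305440582043680)) (.cons (.rf (nat_lit 2507) (nat_lit 458117738797769787424)) .nil))))))) .nil)))))) .nil)))))),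
 (.br (nat_lit 10) (nat_lit 1) (.cons (.rf (nat_lit 2508) (nat_lit 112811245027264544)) (.cons (.rf (nat_lit 2508) (nat_lit 112811245027263552)) (.cons (.rf (nat_lit 2108) (nat_lit 112811073094360224)) .nil)))),
 (.br (nat_lit 10) (nat_lit 1) (.cons (.rf (nat_lit 2509) (nat_lit 493858305268649139360)) (.cons (.rf (nat_lit 2509) (nat_lit 493858305234322955424)) (.cons (.rf (nat_lit 2509) (nat_lit 493858305440582043680)) (.cons (.rf (nat_lit 2509) (nat_lit 493858305371929675808)) .nil))))),
 (.br (nat_lit 9) (nat_lit 1) (.cons (.rf (nat_lit 2508) (nat_lit 225296782102661152)) (.cons (.rf (nat_lit 2508) (nat_lit 225296782102660160)) (.cons (.rf (nat_lit 2108) (nat_lit 225296610169756832)) (.cons (.rf (nat_lit 2510) (nat_lit 493858305440582043680)) .nil))))),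
 (.br (nat_lit 9) (nat_lit 1) (.cons (.rf (nat_lit 2511) (nat_lit 493858305268649139360)) (.cons (.rf (nat_lit 2511) (nat_lit 493858305234322955424)) (.cons (.rf (nat_lit 2511) (nat_lit 493858305440582043680)) (.cons (.rf (nat_lit 2511) (nat_lit 493858305371929675808)) (.cons (.rf (nat_lit 2510) (nat_lit 493858305440582043680)) .nil)))))),
 (.br (nat_lit 11) (nat_lit 1) (.cons (.rf (nat_lit 2108) (nat_lit 114991575512483872)) (.cons (.rf (nat_lit 2508) (nat_lit 114991575512483872)) (.cons (.rf (nat_lit 2508) (nat_lit 114991506860116000)) (.cons (.rf (nat_lit 2512) (nat_lit 493858305440582043680)) .nil))))),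
 (.br (nat_lit 11) (nat_lit 1) (.cons (.rf (nat_lit 2513) (nat_lit 493858305440582043680)) (.cons (.rf (nat_lit 2513) (nat_lit 493858305440582042688)) (.cons (.rf (nat_lit 2513) (nat_lit 493858305268649139360)) (.cons (.rf (nat_lit 2513) (nat_lit 493858305268649137376)) (.cons (.rf (nat_lit 2512) (nat_lit 493858305440582043680)) .nil)))))),
 (.br (nat_lit 11) (nat_lit 1) (.cons (.rf (nat_lit 2508) (nat_lit 114991575512483872)) (.cons (.rf (nat_lit 2508) (nat_lit 114991575512482880)) (.cons (.rf (nat_lit 2108) (nat_lit 114991403579579552)) .nil)))),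
 (.br (nat_lit 11) (nat_lit 1) (.cons (.rf (nat_lit 2515) (nat_lit 493858305268649139360)) (.cons (.rf (nat_lit 2515) (nat_lit 493858305234322955424)) (.cons (.rf (nat_lit 2515) (nat_lit 493858305440582043680)) (.cons (.rf (nat_lit 2515) (nat_lit 493858305371929675808)) .nil))))),
 (.br (nat_lit 8) (nat_lit 1) (.cons (.rf (nat_lit 2108) (nat_lit 154366186411526176)) (.cons (.rf (nat_lit 2508) (nat_lit 154366186411526176)) (.cons (.rf (nat_lit 2508) (nat_lit 154366117759158304)) (.cons (.br (nat_lit 12) (nat_lit 0) (.cons (.rf (nat_lit 2514) (nat_lit 458116643680971589664)) (.cons (.kr (nat_lit 281474976710656) (nat_lit 79228162514264337593543950336) (nat_lit 6) (nat_lit 0)) (.cons (.rf (nat_lit 2516) (nat_lit 493858305440582043680)) (.cons (.rf (nat_lit 2514) (nat_lit 458046633382948046880)) (.cons (.rf (nat_lit 2516) (nat_lit 458046633382948046880)) .nil)))))) .nil))))),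
 (.br (nat_lit 8) (nat_lit 1) (.cons (.rf (nat_lit 2517) (nat_lit 493858305440582043680)) (.cons (.rf (nat_lit 2517) (nat_lit 493858305440582042688)) (.cons (.rf (nat_lit 2517) (nat_lit 493858305268649139360)) (.cons (.rf (nat_lit 2517) (nat_lit 493858305268649137376)) (.cons (.rf (nat_lit 2517) (nat_lit 493779557318295554080)) .nil)))))),
 (.br (nat_lit 13) (nat_lit 0) (.cons (.rf (nat_lit 2514) (nat_lit 493858305440582043680)) (.cons (.rf (nat_lit 2514) (nat_lit 493823368456464074784)) (.cons (.rf (nat_lit 2518) (nat_lit 493858305440582043680)) (.cons (.rf (nat_lit 2518) (nat_lit 493823368456464074784)) .nil))))),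
 (.br (nat_lit 6) (nat_lit 1) (.cons (.rf (nat_lit 2508) (nat_lit 336796054029797408)) (.cons (.rf (nat_lit 2508) (nat_lit 336796054029796416)) (.cons (.rf (nat_lit 2108) (nat_lit 336795882096893088)) (.cons (.rf (nat_lit 2514) (nat_lit 458038990675483297824)) (.cons (.rf (nat_lit 2514) (nat_lit 493858305440582043680)) .nil)))))),
 (.br (nat_lit 6) (nat_lit 1) (.cons (.rf (nat_lit 2520) (nat_lit 493858305268649139360)) (.cons (.rf (nat_lit 2520) (nat_lit 493858305234322955424)) (.cons (.rf (nat_lit 2520) (nat_lit 493858305440582043680)) (.cons (.rf (nat_lit 2520) (nat_lit 493858305371929675808)) (.cons (.rf (nat_lit 2514) (nat_lit 458038990675483297824)) (.cons (.rf (nat_lit 2514) (nat_lit 493858305440582043680)) .nil))))))),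
 (.br (nat_lit 10) (nat_lit 1) (.cons (.rf (nat_lit 2108) (nat_lit 112811245027264544)) (.cons (.rf (nat_lit 2508) (nat_lit 112811245027264544)) (.cons (.rf (nat_lit 2508) (nat_lit 112811176374896672)) (.cons (.rf (nat_lit 2521) (nat_lit 493858305440582043680)) .nil))))),
 (.br (nat_lit 10) (nat_lit 1) (.cons (.rf (nat_lit 2522) (nat_lit 493858305440582043680)) (.cons (.rf (nat_lit 2522) (nat_lit 493858305440582042688)) (.cons (.rf (nat_lit 2522) (nat_lit 493858305268649139360)) (.cons (.rf (nat_lit 2522) (nat_lit 493858305268649137376)) (.cons (.rf (nat_lit 2521) (nat_lit 493858305440582043680)) .nil)))))),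
 (.br (nat_lit 6) (nat_lit 1) (.cons (.rf (nat_lit 2508) (nat_lit 336795985377429536)) (.cons (.rf (nat_lit 2508) (nat_lit 336795985377428544)) (.cons (.rf (nat_lit 2108) (nat_lit 336795882096893088)) .nil))))]

theorem c87 : chkAll C T R L87 (nat_lit 2498) = true := by decide +kernel

theorem l87 : (nat_lit 2498) + L87.length = (nat_lit 2525) := by decide +kernel

/-- part of the certificates -/
def L88 : List Prf := [(.br (nat_lit 6) (nat_lit 1) (.cons (.rf (nat_lit 2524) (nat_lit 493858305234322955424)) (.cons (.rf (nat_lit 2524) (nat_lit 493858305268649139360)) (.cons (.rf (nat_lit 2524) (nat_lit 493858305371929675808)) (.cons (.rf (nat_lit 2524) (nat_lit 493858305440582043680)) .nil))))),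
 (.br (nat_lit 4) (nat_lit 1) (.cons (.rf (nat_lit 2519) (nat_lit 458009550155351722016)) (.cons (.rf (nat_lit 2519) (nat_lit 458009550155351721024)) (.cons (.rf (nat_lit 2519) (nat_lit 458009549983418817696)) (.cons (.rf (nat_lit 2519) (nat_lit 458009549983418815712)) (.cons (.kr (nat_lit 4294967296) (nat_lit 79228162514264337593543950336) (nat_lit 4) (nat_lit 0)) .nil)))))),
 (.br (nat_lit 10) (nat_lit 1) (.cons (.rf (nat_lit 2108) (nat_lit 112811245027264544)) (.cons (.rf (nat_lit 2508) (nat_lit 112811245027264544)) (.cons (.rf (nat_lit 2508) (nat_lit 112811176374896672)) .nil)))),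
 (.br (nat_lit 10) (nat_lit 1) (.cons (.rf (nat_lit 2527) (nat_lit 493858305440582043680)) (.cons (.rf (nat_lit 2527) (nat_lit 493858305440582042688)) (.cons (.rf (nat_lit 2527) (nat_lit 493858305268649139360)) (.cons (.rf (nat_lit 2527) (nat_lit 493858305268649137376)) .nil))))),
 (.br (nat_lit 6) (nat_lit 1) (.cons (.rf (nat_lit 2508) (nat_lit 336795985377429536)) (.cons (.rf (nat_lit 2508) (nat_lit 336795985377428544)) (.cons (.rf (nat_lit 2108) (nat_lit 336795882096893088)) .nil)))),
 (.br (nat_lit 9) (nat_lit 1) (.cons (.rf (nat_lit 2108) (nat_lit 225296782102661152)) (.cons (.rf (nat_lit 2508) (nat_lit 225296782102661152)) (.cons (.rf (nat_lit 2508) (nat_lit 225296713450293280)) .nil)))),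
 (.br (nat_lit 12) (nat_lit 0) (.cons (.rf (nat_lit 2528) (nat_lit 493858305440582043680)) (.cons (.br (nat_lit 6) (nat_lit 1) (.cons (.rf (nat_lit 2529) (nat_lit 493858305234322955424)) (.cons (.rf (nat_lit 2529) (nat_lit 493858305268649139360)) (.cons (.rf (nat_lit 2529) (nat_lit 493858305371929675808)) (.cons (.rf (nat_lit 2529) (nat_lit 493858305440582043680)) .nil))))) (.cons (.kr (nat_lit 4294967296) (nat_lit 79228162514264337593543950336) (nat_lit 4) (nat_lit 0)) (.cons (.rf (nat_lit 2521) (nat_lit 493858305440582043680)) (.cons (.br (nat_lit 9) (nat_lit 1) (.cons (.rf (nat_lit 2530) (nat_lit 493858305440582043680)) (.cons (.rf (nat_lit 2530) (nat_lit 493858305440582042688)) (.cons (.rf (nat_lit 2530) (nat_lit 493858305268649139360)) (.cons (.rf (nat_lit 2530) (nat_lit 493858305268649137376)) .nil))))) .nil)))))),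
 (.br (nat_lit 12) (nat_lit 0) (.cons (.rf (nat_lit 2528) (nat_lit 493858305440582043680)) (.cons (.rf (nat_lit 2528) (nat_lit 493857210323783845920)) (.cons (.rf (nat_lit 2514) (nat_lit 458079526367442110496)) (.cons (.rf (nat_lit 2514) (nat_lit 458038990675483297824)) (.cons (.rf (nat_lit 2523) (nat_lit 458009550155351722016)) .nil)))))),
 (.br (nat_lit 9) (nat_lit 1) (.cons (.rf (nat_lit 2108) (nat_lit 225296782102661152)) (.cons (.rf (nat_lit 2508) (nat_lit 225296782102661152)) (.cons (.rf (nat_lit 2508) (nat_lit 225296713450293280)) .nil)))),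
 (.br (nat_lit 12) (nat_lit 0) (.cons (.rf (nat_lit 2531) (nat_lit 493858305440582043680)) (.cons (.rf (nat_lit 2532) (nat_lit 493858305440582043680)) (.cons (.rf (nat_lit 2526) (nat_lit 493858305440582043680)) (.cons (.rf (nat_lit 2521) (nat_lit 493858305440582043680)) (.cons (.br (nat_lit 9) (nat_lit 1) (.cons (.rf (nat_lit 2533) (nat_lit 493858305440582043680)) (.cons (.rf (nat_lit 2533) (nat_lit 493858305440582042688)) (.cons (.rf (nat_lit 2533) (nat_lit 493858305268649139360)) (.cons (.rf (nat_lit 2533) (nat_lit 493858305268649137376)) .nil))))) .nil)))))),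
 (.br (nat_lit 12) (nat_lit 0) (.cons (.rf (nat_lit 2531) (nat_lit 493858305440582043680)) (.cons (.rf (nat_lit 2532) (nat_lit 493858305440582043680)) (.cons (.rf (nat_lit 2534) (nat_lit 493858305440582043680)) (.cons (.rf (nat_lit 2526) (nat_lit 493858305440582043680)) (.cons (.rf (nat_lit 2521) (nat_lit 493858305440582043680)) (.cons (.br (nat_lit 12) (nat_lit 0) (.cons (.rf (nat_lit 2531) (nat_lit 493858305440582043680)) (.cons (.rf (nat_lit 2523) (nat_lit 458009550155351722016)) (.cons (.rf (nat_lit 2534) (nat_lit 493858305440582043680)) (.cons (.rf (nat_lit 2514) (nat_lit 458009550155351722016)) (.cons (.rf (nat_lit 2521) (nat_lit 493858305440582043680)) .nil)))))) .nil))))))),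
 (.br (nat_lit 13) (nat_lit 0) (.cons (.rf (nat_lit 2514) (nat_lit 493858305440582043680)) (.cons (.rf (nat_lit 2523) (nat_lit 493858305440582043680)) (.cons (.br (nat_lit 12) (nat_lit 0) (.cons (.br (nat_lit 12) (nat_lit 0) (.cons (.rf (nat_lit 2523) (nat_lit 493857210323783845920)) (.cons (.rf (nat_lit 2525) (nat_lit 493858305440582043680)) (.cons (.kr (nat_lit 4294967296) (nat_lit 79228162514264337593543950336) (nat_lit 4) (nat_lit 0)) (.cons (.rf (nat_lit 2521) (nat_lit 493858305440582043680)) (.cons (.rf (nat_lit 2521) (nat_lit 458009550155351722016)) .nil)))))) (.cons (.rf (nat_lit 2523) (nat_lit 493857210323783845920)) (.cons (.br (nat_lit 12) (nat_lit 0) (.cons (.rf (nat_lit 2525) (nat_lit 493858305440582043680)) (.cons (.rf (nat_lit 2523) (nat_lit 493857210323783845920)) (.cons (.rf (nat_lit 2521) (nat_lit 493675700753833166880)) (.cons (.rf (nat_lit 2521) (nat_lit 493858305440582043680)) (.cons (.rf (nat_lit 2521) (nat_lit 458009550155351722016)) .nil)))))) (.cons (.rf (nat_lit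 2526) (nat_lit 493858305440582043680)) (.cons (.rf (nat_lit 2521) (nat_lit 493858305440582043680)) (.cons (.rf (nat_lit 2521) (nat_lit 458009550155351722016)) .nil))))))) (.cons (.rf (nat_lit 2535) (nat_lit 493858305440582043680)) .nil))))),
 (.br (nat_lit 11) (nat_lit 1) (.cons (.rf (nat_lit 2108) (nat_lit 114991575512483872)) (.cons (.rf (nat_lit 2508) (nat_lit 114991575512483872)) (.cons (.rf (nat_lit 2508) (nat_lit 114991506860116000)) .nil)))),
 (.br (nat_lit 11) (nat_lit 1) (.cons (.rf (nat_lit 2108) (nat_lit 114991575512483872)) (.cons (.rf (nat_lit 2508) (nat_lit 114991575512483872)) (.cons (.rf (nat_lit 2508) (nat_lit 114991506860116000)) .nil)))),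
 (.br (nat_lit 12) (nat_lit 0) (.cons (.br (nat_lit 11) (nat_lit 1) (.cons (.rf (nat_lit 2537) (nat_lit 493858305440582043680)) (.cons (.rf (nat_lit 2537) (nat_lit 493858305440582042688)) (.cons (.rf (nat_lit 2537) (nat_lit 493858305268649139360)) (.cons (.rf (nat_lit 2537) (nat_lit 493858305268649137376)) .nil))))) (.cons (.br (nat_lit 11) (nat_lit 1) (.cons (.rf (nat_lit 2538) (nat_lit 493858305440582043680)) (.cons (.rf (nat_lit 2538) (nat_lit 493858305440582042688)) (.cons (.rf (nat_lit 2538) (nat_lit 493858305268649139360)) (.cons (.rf (nat_lit 2538) (nat_lit 493858305268649137376)) .nil))))) (.cons (.kr (nat_lit 4294967296) (nat_lit 79228162514264337593543950336) (nat_lit 4) (nat_lit 0)) (.cons (.rf (nat_lit 2523) (nat_lit 457935134111020910624)) (.cons (.rf (nat_lit 2514) (nat_lit 458005178491759527968)) .nil)))))),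
 (.br (nat_lit 11) (nat_lit 1) (.cons (.rf (nat_lit 2108) (nat_lit 114991575512483872)) (.cons (.rf (nat_lit 2508) (nat_lit 114991575512483872)) (.cons (.rf (nat_lit 2508) (nat_lit 114991506860116000)) .nil)))),
 (.br (nat_lit 11) (nat_lit 1) (.cons (.rf (nat_lit 2108) (nat_lit 114991575512483872)) (.cons (.rf (nat_lit 2508) (nat_lit 114991575512483872)) (.cons (.rf (nat_lit 2508) (nat_lit 114991506860116000)) .nil)))),
 (.br (nat_lit 12) (nat_lit 0) (.cons (.rf (nat_lit 2539) (nat_lit 493858305440582043680)) (.cons (.br (nat_lit 11) (nat_lit 1) (.cons (.rf (nat_lit 2540) (nat_lit 493858305440582043680)) (.cons (.rf (nat_lit 2540) (nat_lit 493858305440582042688)) (.cons (.rf (nat_lit 2540) (nat_lit 493858305268649139360)) (.cons (.rf (nat_lit 2540) (nat_lit 493858305268649137376)) .nil))))) (.cons (.rf (nat_lit 2514) (nat_lit 458079526367442110496)) (.cons (.br (nat_lit 11) (nat_lit 1) (.cons (.rf (nat_lit 2541) (nat_lit 493858305440582043680)) (.cons (.rf (nat_lit 2541) (nat_lit 493858305440582042688))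 (.cons (.rf (nat_lit 2541) (nat_lit 493858305268649139360)) (.cons (.rf (nat_lit 2541) (nat_lit 493858305268649137376)) .nil))))) (.cons (.rf (nat_lit 2514) (nat_lit 493670240576948504608)) .nil)))))),
 (.br (nat_lit 6) (nat_lit 1) (.cons (.rf (nat_lit 2108) (nat_lit 336796054029797408)) (.cons (.rf (nat_lit 2508) (nat_lit 336796054029797408)) (.cons (.rf (nat_lit 2508) (nat_lit 336795985377429536)) .nil)))),
 (.br (nat_lit 12) (nat_lit 0) (.cons (.rf (nat_lit 2539) (nat_lit 493858305440582043680)) (.cons (.rf (nat_lit 2542) (nat_lit 493858305440582043680)) (.cons (.rf (nat_lit 2521) (nat_lit 493675700753833166880)) (.cons (.br (nat_lit 6) (nat_lit 1) (.cons (.rf (nat_lit 2543) (nat_lit 493858305440582043680)) (.cons (.rf (nat_lit 2543) (nat_lit 493858305440582042688)) (.cons (.rf (nat_lit 2543) (nat_lit 493858305268649139360)) (.cons (.rf (nat_lit 2543) (nat_lit 493858305268649137376)) .nil))))) (.cons (.rf (nat_lit 2514) (nat_lit 493670240576948504608)) .nil)))))),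
 (.br (nat_lit 12) (nat_lit 0) (.cons (.rf (nat_lit 2539) (nat_lit 493858305440582043680)) (.cons (.rf (nat_lit 2542) (nat_lit 493858305440582043680)) (.cons (.rf (nat_lit 2544) (nat_lit 493858305440582043680)) (.cons (.rf (nat_lit 2526) (nat_lit 493858305440582043680)) (.cons (.br (nat_lit 12) (nat_lit 0) (.cons (.rf (nat_lit 2523) (nat_lit 457935134111020910624)) (.cons (.rf (nat_lit 2542) (nat_lit 458009550155351722016)) (.cons (.rf (nat_lit 2544) (nat_lit 493858305440582043680)) (.cons (.rf (nat_lit 2526) (nat_lit 493858305440582043680)) (.cons (.rf (nat_lit 2514) (nat_lit 493670240576948504608)) .nil)))))) (.cons (.rf (nat_lit 2514) (nat_lit 493670240576948504608)) .nil))))))),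
 (.br (nat_lit 10) (nat_lit 1) (.cons (.rf (nat_lit 2508) (nat_lit 112811245027264544)) (.cons (.rf (nat_lit 2508) (nat_lit 112811245027263552)) (.cons (.rf (nat_lit 2108) (nat_lit 112811073094360224)) .nil)))),
 (.br (nat_lit 8) (nat_lit 1) (.cons (.rf (nat_lit 2508) (nat_lit 154366117759158304)) (.cons (.rf (nat_lit 2508) (nat_lit 154366117759157312)) (.cons (.rf (nat_lit 2108) (nat_lit 154366014478621856)) .nil)))),
 (.br (nat_lit 12) (nat_lit 0) (.cons (.br (nat_lit 8) (nat_lit 1) (.cons (.rf (nat_lit 2547) (nat_lit 493858305234322955424)) (.cons (.rf (nat_lit 2547) (nat_lit 493858305268649139360)) (.cons (.rf (nat_lit 2547) (nat_lit 493858305371929675808)) (.cons (.rf (nat_lit 2547) (nat_lit 493858305440582043680)) .nil))))) (.cons (.rf (nat_lit 2545) (nat_lit 457935134111020910624)) (.cons (.kr (nat_lit 4294967296) (nat_lit 79228162514264337593543950336) (nat_lit 4) (nat_lit 0)) (.cons (.rf (nat_lit 2523) (nat_lit 457935134111020910624)) (.cons (.rf (nat_lit 2514) (nat_lit 458005178491759527968))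 .nil)))))),
 (.br (nat_lit 12) (nat_lit 0) (.cons (.rf (nat_lit 2548) (nat_lit 493858305440582043680)) (.cons (.br (nat_lit 10) (nat_lit 1) (.cons (.rf (nat_lit 2546) (nat_lit 493858305268649139360)) (.cons (.rf (nat_lit 2546) (nat_lit 493858305234322955424)) (.cons (.rf (nat_lit 2546) (nat_lit 493858305440582043680)) (.cons (.rf (nat_lit 2546) (nat_lit 493858305371929675808)) .nil))))) (.cons (.kr (nat_lit 4722366482869645213696) (nat_lit 20282409603651670423947251286016) (nat_lit 9) (nat_lit 0)) (.cons (.rf (nat_lit 2545) (nat_lit 458009550155351722016)) (.cons (.rf (nat_lit 2523) (nat_lit 458009550155351722016)) .nil)))))),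
 (.br (nat_lit 12) (nat_lit 0) (.cons (.rf (nat_lit 2548) (nat_lit 493858305440582043680)) (.cons (.rf (nat_lit 2549) (nat_lit 493858305440582043680)) (.cons (.br (nat_lit 12) (nat_lit 0) (.cons (.rf (nat_lit 2545) (nat_lit 457935134111020910624)) (.cons (.rf (nat_lit 2549) (nat_lit 458009550155351722016)) (.cons (.rf (nat_lit 2545) (nat_lit 457929673934136248352)) (.cons (.rf (nat_lit 2532) (nat_lit 458009550155351722016)) .nil))))) (.cons (.br (nat_lit 12) (nat_lit 0) (.cons (.rf (nat_lit 2523) (nat_lit 457935134111020910624)) (.cons (.rf (nat_lit 2545) (nat_lit 458009550155351722016)) (.cons (.rf (nat_lit 2545) (nat_lit 457929673934136248352)) (.cons (.rf (nat_lit 2523) (nat_lit 458005178491759527968)) .nil))))) (.cons (.rf (nat_lit 2536) (nat_lit 458005178491759526976)) .nil)))))),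
 (.br (nat_lit 9) (nat_lit 1) (.cons (.rf (nat_lit 2550) (nat_lit 493858305440582042688)) (.cons (.rf (nat_lit 2550) (nat_lit 493858305440582043680)) (.cons (.rf (nat_lit 2550) (nat_lit 493858305268649137376)) (.cons (.rf (nat_lit 2550) (nat_lit 493858305268649139360)) (.cons (.kr (nat_lit 4722366482869645213696) (nat_lit 20282409603651670423947251286016) (nat_lit 9) (nat_lit 0)) .nil)))))),
 (.br (nat_lit 13) (nat_lit 0) (.cons (.rf (nat_lit 2514) (nat_lit 493823368456464074784)) (.cons (.rf (nat_lit 2523) (nat_lit 493858305440582043680)) (.cons (.rf (nat_lit 2545) (nat_lit 493858305440582043680)) (.cons (.rf (nat_lit 2551) (nat_lit 493858305440582043680)) .nil))))),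
 (.br (nat_lit 9) (nat_lit 1) (.cons (.rf (nat_lit 2108) (nat_lit 225296782102661152)) (.cons (.rf (nat_lit 2508) (nat_lit 225296782102661152)) (.cons (.rf (nat_lit 2508) (nat_lit 225296713450293280)) (.cons (.kr (nat_lit 4294967296) (nat_lit 79228162514264337593543950336) (nat_lit 4) (nat_lit 0)) .nil))))),
 (.br (nat_lit 9) (nat_lit 1) (.cons (.rf (nat_lit 2553) (nat_lit 493858305440582043680)) (.cons (.rf (nat_lit 2553) (nat_lit 493858305440582042688)) (.cons (.rf (nat_lit 2553) (nat_lit 493858305268649139360)) (.cons (.rf (nat_lit 2553) (nat_lit 493858305268649137376)) (.cons (.kr (nat_lit 4294967296) (nat_lit 79228162514264337593543950336) (nat_lit 4) (nat_lit 0)) .nil)))))),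
 (.br (nat_lit 12) (nat_lit 0) (.cons (.rf (nat_lit 2554) (nat_lit 493858305440582043680)) (.cons (.br (nat_lit 4) (nat_lit 1) (.cons (.rf (nat_lit 2552) (nat_lit 458009550155351722016)) (.cons (.rf (nat_lit 2552) (nat_lit 458009550155351721024)) (.cons (.rf (nat_lit 2552) (nat_lit 458009549983418817696)) (.cons (.rf (nat_lit 2552) (nat_lit 458009549983418815712)) (.cons (.rf (nat_lit 2554) (nat_lit 493858305440582043680)) .nil)))))) (.cons (.rf (nat_lit 2545) (nat_lit 493779557318295554080)) (.cons (.rf (nat_lit 2514) (nat_lit 493675700753833166880)) (.cons (.br (nat_lit 12) (nat_lit 0) (.cons (.rf (nat_lit 2525) (nat_lit 457929673934136248352)) (.cons (.rf (nat_lit 2545) (nat_lit 458009550155351722016)) (.cons (.rf (nat_lit 2545) (nat_lit 457929673934136248352)) (.cons (.rf (nat_lit 2514) (nat_lit 493675700753833166880)) (.cons (.rf (nat_lit 2521) (nat_lit 458009550155351722016)) .nil)))))) (.cons (.rf (nat_lit 2521) (nat_lit 458009550155351722016)) .nil)))))))]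

theorem c88 : chkAll C T R L88 (nat_lit 2525) = true := by decide +kernel

theorem l88 : (nat_lit 2525) + L88.length = (nat_lit 2556) := by decide +kernel

end Pool.Agent.H93.Neg.Q14_6_0_0_7_1
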