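import Pool.Agent.H93.Neg.TabQ14_6_0_0_7_1

/-!
Certificates.
-/

set_option autoImplicit false
set_option maxRecDepth 100000
set_option linter.all false

namespace Pool.Agent.H93.Neg.Q14_6_0_0_7_1

/-- part of the certificates -/
def L118 : List Prf := [(.br (nat_lit 13) (nat_lit 0) (.cons (.rf (nat_lit 2870) (nat_lit 458117738729117419552)) (.cons (.rf (nat_lit 3179) (nat_lit 458117738729117419552)) (.cons (.br (nat_lit 13) (nat_lit 0) (.cons (.rf (nat_lit 2870) (nat_lit 458117738729117419552)) (.cons (.rf (nat_lit 3179) (nat_lit 458117738729117419552)) (.cons (.rf (nat_lit 2915) (nat_lit 482214265390991392)) .nil)))) (.cons (.br (nat_lit 13) (nat_lit 0) (.cons (.rf (nat_lit 2870) (nat_lit 458117738729117419552)) (.cons (.rf (nat_lit 3179) (nat_lit 458117738729117419552)) (.cons (.rf (nat_lit 2915) (nat_lit 482214265390991392)) .nil)))) .nil))))),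
 (.br (nat_lit 13) (nat_lit 0) (.cons (.rf (nat_lit 2870) (nat_lit 458117738729117419552)) (.cons (.rf (nat_lit 3315) (nat_lit 458082801744999450656)) (.cons (.br (nat_lit 5) (nat_lit 0) (.cons (.ev (nat_lit 20361637766165934762644618608641) (nat_lit 1)) (.cons (.rf (nat_lit 2652) (nat_lit 14308264952910153760)) (.cons (.br (nat_lit 6) (nat_lit 1) (.cons (.rf (nat_lit 3024) (nat_lit 493751241598560208928)) (.cons (.rf (nat_lit 3024) (nat_lit 493751241598560207936)) (.cons (.ev (nat_lit 20361948460101648060307726139393) (nat_lit 1)) .nil)))) .nil)))) .nil)))),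
 (.br (nat_lit 13) (nat_lit 0) (.cons (.rf (nat_lit 2870) (nat_lit 458117738729117419552)) (.cons (.rf (nat_lit 3315) (nat_lit 458082801744999450656)) (.cons (.rf (nat_lit 3338) (nat_lit 493858305440582043680)) (.cons (.br (nat_lit 13) (nat_lit 0) (.cons (.rf (nat_lit 2870) (nat_lit 458117738729117419552)) (.cons (.rf (nat_lit 3315) (nat_lit 458082801744999450656)) (.cons (.rf (nat_lit 3338) (nat_lit 493858305440582043680)) .nil)))) .nil))))),
 (.br (nat_lit 4) (nat_lit 1) (.cons (.ev (nat_lit 72339073309671681) (nat_lit 1)) (.cons (.ev (nat_lit 20361638975110273177842029166593) (nat_lit 1)) .nil))),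
 (.br (nat_lit 13) (nat_lit 0) (.cons (.rf (nat_lit 3179) (nat_lit 458117738729117419552)) (.cons (.rf (nat_lit 3315) (nat_lit 458082801744999450656)) (.cons (.br (nat_lit 5) (nat_lit 0) (.cons (.br (nat_lit 7) (nat_lit 0) (.cons (.ev (nat_lit 72057598349672449) (nat_lit 1)) (.cons (.rf (nat_lit 3209) (nat_lit 15429485405847783456)) .nil))) (.cons (.br (nat_lit 8) (nat_lit 1) (.cons (.rf (nat_lit 3024) (nat_lit 493679254373266458656)) (.cons (.rf (nat_lit 3024) (nat_lit 493679254373266457664)) (.cons (.br (nat_lit 6) (nat_lit 1) (.cons (.rf (nat_lit 3340) (nat_lit 493858305440582043680)) (.cons (.rf (nat_lit 3340) (nat_lit 493858305440582042688)) .nil))) .nil)))) (.cons (.rf (nat_lit 2652) (nat_lit 14308264952912250912)) .nil)))) .nil)))),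
 (.br (nat_lit 13) (nat_lit 0) (.cons (.rf (nat_lit 3179) (nat_lit 458117738729117419552)) (.cons (.rf (nat_lit 3315) (nat_lit 458082801744999450656)) (.cons (.rf (nat_lit 3341) (nat_lit 493858305440582043680)) (.cons (.br (nat_lit 13) (nat_lit 0) (.cons (.rf (nat_lit 3179) (nat_lit 458117738729117419552)) (.cons (.rf (nat_lit 3315) (nat_lit 458082801744999450656)) (.cons (.rf (nat_lit 3341) (nat_lit 493858305440582043680)) .nil)))) .nil))))),
 (.br (nat_lit 13) (nat_lit 0) (.cons (.rf (nat_lit 3337) (nat_lit 493858305440582043680)) (.cons (.rf (nat_lit 3339) (nat_lit 493858305440582043680)) (.cons (.rf (nat_lit 3342) (nat_lit 493858305440582043680)) (.cons (.br (nat_lit 13) (nat_lit 0) (.cons (.rf (nat_lit 2915) (nat_lit 482214265390991392)) (.cons (.rf (nat_lit 3339) (nat_lit 493858305440582043680)) (.cons (.rf (nat_lit 3342) (nat_lit 493858305440582043680)) .nil)))) .nil))))),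
 (.br (nat_lit 5) (nat_lit 0) (.cons (.br (nat_lit 6) (nat_lit 1) (.cons (.kr (nat_lit 1099528405248) (nat_lit 4722366482869645344768) (nat_lit 1) (nat_lit 0)) (.cons (.rf (nat_lit 2680) (nat_lit 15427409522525833248)) .nil))) (.cons (.rf (nat_lit 3149) (nat_lit 15433035829819312160)) .nil))),
 (.br (nat_lit 7) (nat_lit 0) (.cons (.rf (nat_lit 2674) (nat_lit 458113061409878280224)) (.cons (.br (nat_lit 5) (nat_lit 0) (.cons (.br (nat_lit 6) (nat_lit 1) (.cons (.ev (nat_lit 79537647524158021735578337281) (nat_lit 1)) .nil)) (.cons (.ev (nat_lit 20361638975110201402818184609793) (nat_lit 1)) .nil))) .nil))),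
 (.br (nat_lit 7) (nat_lit 0) (.cons (.rf (nat_lit 3344) (nat_lit 493858305440582043680)) (.cons (.rf (nat_lit 3345) (nat_lit 493858305440582043680)) (.cons (.br (nat_lit 7) (nat_lit 0) (.cons (.rf (nat_lit 3344) (nat_lit 493858305440582043680)) (.cons (.rf (nat_lit 3345) (nat_lit 493858305440582043680)) .nil))) .nil)))),
 (.br (nat_lit 7) (nat_lit 0) (.cons (.br (nat_lit 10) (nat_lit 1) (.cons (.rf (nat_lit 2674) (nat_lit 458077033712370944032)) (.cons (.rf (nat_lit 2674) (nat_lit 458077033712370943040)) (.cons (.br (nat_lit 2) (nat_lit 0) (.cons (.br (nat_lit 1) (nat_lit 0) (.cons (.ev (nat_lit 79228167255077846016187236353) (nat_lit 1)) .nil)) (.cons (.br (nat_lit 6) (nat_lit 1) (.cons (.ev (nat_lit 79228167255077846016187171073) (nat_lit 1)) .nil)) .nil))) .nil)))) (.cons (.br (nat_lit 6) (nat_lit 1) (.cons (.ev (nat_lit 20361637766184381505618799755521) (nat_lit 1)) (.cons (.ev (nat_lit 20361637766184381505618799820801) (nat_lit 1)) (.cons (.br (nat_lit 10) (nat_lit 1) (.cons (.ev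 (nat_lit 18518802771554074881) (nat_lit 1)) (.cons (.ev (nat_lit 18518802771554140161) (nat_lit 1)) .nil))) .nil)))) (.cons (.kr (nat_lit 1213648186097498819919872) (nat_lit 20361637766165934761540795236352) (nat_lit 9) (nat_lit 0)) .nil)))),
 (.br (nat_lit 7) (nat_lit 0) (.cons (.rf (nat_lit 3347) (nat_lit 493858305440582043680)) (.cons (.br (nat_lit 5) (nat_lit 0) (.cons (.rf (nat_lit 3174) (nat_lit 15425154564837443616)) (.cons (.rf (nat_lit 3135) (nat_lit 493857069591666198560)) (.cons (.br (nat_lit 1) (nat_lit 0) (.cons (.br (nat_lit 6) (nat_lit 1) (.cons (.ev (nat_lit 79228167255077846016187236353) (nat_lit 1)) .nil)) (.cons (.br (nat_lit 2) (nat_lit 0) (.cons (.ev (nat_lit 79228167255077846016187171073) (nat_lit 1)) .nil)) .nil))) .nil)))) (.cons (.kr (nat_lit 1213648186097498819919872) (nat_lit 20361637766165934761540795236352) (nat_lit 9) (nat_lit 0)) .nil)))),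
 (.br (nat_lit 13) (nat_lit 0) (.cons (.rf (nat_lit 3179) (nat_lit 458117738729117419552)) (.cons (.rf (nat_lit 3179) (nat_lit 458082801744999450656)) (.cons (.br (nat_lit 11) (nat_lit 1) (.cons (.rf (nat_lit 3346) (nat_lit 493858305440582043680)) (.cons (.rf (nat_lit 3346) (nat_lit 493858305440582042688)) (.cons (.rf (nat_lit 3150) (nat_lit 15433001743885109280)) (.cons (.br (nat_lit 7) (nat_lit 0) (.cons (.rf (nat_lit 3149) (nat_lit 14312831391133435936)) (.cons (.br (nat_lit 4) (nat_lit 1) (.cons (.rf (nat_lit 2674) (nat_lit 457861106121350154272)) (.cons (.rf (nat_lit 2674) (nat_lit 457861106121350153280)) (.cons (.br (nat_lit 2) (nat_lit 0) (.cons (.ev (nat_lit 79537652246524224229758533633) (nat_lit 1)) (.cons (.ev (nat_lit 20282719093383858251889916313601) (nat_lit 1)) .nil))) .nil)))) (.cons (.br (nat_lit 5) (nat_lit 0) (.cons (.rf (nat_lit 2009) (nat_lit 15433031261121251360)) (.cons (.br (nat_lit 1) (nat_lit 0) (.cons (.br (nat_lit 2) (nat_lit 0) (.cons (.ev (nat_lit 79537652246524505704752021505)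 (nat_lit 1)) .nil)) (.cons (.br (nat_lit 2) (nat_lit 0) (.cons (.ev (nat_lit 79537652246524505704751956225) (nat_lit 1)) .nil)) .nil))) .nil))) .nil)))) .nil))))) (.cons (.br (nat_lit 7) (nat_lit 0) (.cons (.rf (nat_lit 3347) (nat_lit 493858305440582043680)) (.cons (.rf (nat_lit 3348) (nat_lit 493858305440582043680)) (.cons (.br (nat_lit 7) (nat_lit 0) (.cons (.rf (nat_lit 3347) (nat_lit 493858305440582043680)) (.cons (.rf (nat_lit 3348) (nat_lit 493858305440582043680)) (.cons (.kr (nat_lit 1213648186097498819919872) (nat_lit 20361637766165934761540795236352) (nat_lit 9) (nat_lit 0)) .nil)))) (.cons (.kr (nat_lit 1213648186097498819919872) (nat_lit 20361637766165934761540795236352) (nat_lit 9) (nat_lit 0)) .nil))))) .nil))))),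
 (.br (nat_lit 7) (nat_lit 0) (.cons (.ev (nat_lit 310693935713017296249159681) (nat_lit 1)) (.cons (.ev (nat_lit 72057598349672449) (nat_lit 1)) .nil))),
 (.br (nat_lit 5) (nat_lit 0) (.cons (.rf (nat_lit 3350) (nat_lit 493858305440582043680)) (.cons (.rf (nat_lit 2652) (nat_lit 14308159399797032992)) (.cons (.rf (nat_lit 2942) (nat_lit 457930911914501703712)) .nil)))),
 (.br (nat_lit 13) (nat_lit 0) (.cons (.rf (nat_lit 3315) (nat_lit 458117738729117419552)) (.cons (.rf (nat_lit 3179) (nat_lit 458082801744999450656)) (.cons (.rf (nat_lit 3349) (nat_lit 493858305440582043680)) (.cons (.br (nat_lit 7) (nat_lit 0) (.cons (.rf (nat_lit 2943) (nat_lit 482214265390991392)) (.cons (.rf (nat_lit 3351) (nat_lit 493858305440582043680)) (.cons (.br (nat_lit 7) (nat_lit 0) (.cons (.rf (nat_lit 2943) (nat_lit 482214265390991392)) (.cons (.rf (nat_lit 3351) (nat_lit 493858305440582043680)) .nil))) .nil)))) .nil))))),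
 (.br (nat_lit 9) (nat_lit 1) (.cons (.rf (nat_lit 3336) (nat_lit 493858305440582043680)) (.cons (.rf (nat_lit 3336) (nat_lit 493858305440582042688)) (.cons (.br (nat_lit 13) (nat_lit 0) (.cons (.rf (nat_lit 3337) (nat_lit 493858305440582043680)) (.cons (.rf (nat_lit 3339) (nat_lit 493858305440582043680)) (.cons (.rf (nat_lit 3342) (nat_lit 493858305440582043680)) (.cons (.rf (nat_lit 3343) (nat_lit 493858305440582043680)) (.cons (.br (nat_lit 13) (nat_lit 0) (.cons (.rf (nat_lit 3337) (nat_lit 493858305440582043680)) (.cons (.rf (nat_lit 3339) (nat_lit 493858305440582043680)) (.cons (.rf (nat_lit 3342) (nat_lit 493858305440582043680)) (.cons (.rf (nat_lit 3343) (nat_lit 493858305440582043680)) .nil))))) .nil)))))) (.cons (.br (nat_lit 13) (nat_lit 0) (.cons (.rf (nat_lit 3315) (nat_lit 458117738729117419552)) (.cons (.rf (nat_lit 3179) (nat_lit 458082801744999450656)) (.cons (.rf (nat_lit 3349) (nat_lit 493858305440582043680)) (.cons (.rf (nat_lit 3352) (nat_lit 493858305440582043680))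 (.cons (.br (nat_lit 13) (nat_lit 0) (.cons (.kr (nat_lit 4722366482869645213696) (nat_lit 20282409603651670423947251286016) (nat_lit 9) (nat_lit 0)) (.cons (.rf (nat_lit 3179) (nat_lit 458082801744999450656)) (.cons (.rf (nat_lit 3349) (nat_lit 493858305440582043680)) (.cons (.rf (nat_lit 3352) (nat_lit 493858305440582043680)) .nil))))) .nil)))))) .nil))))),
 (.br (nat_lit 2) (nat_lit 0) (.cons (.ev (nat_lit 79229371458603036469266284545) (nat_lit 1)) (.cons (.ev (nat_lit 309485028268371721217704193) (nat_lit 1)) .nil))),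
 (.br (nat_lit 7) (nat_lit 0) (.cons (.ev (nat_lit 72057598349672449) (nat_lit 1)) (.cons (.br (nat_lit 5) (nat_lit 0) (.cons (.br (nat_lit 1) (nat_lit 0) (.cons (.rf (nat_lit 3354) (nat_lit 493858305440582043680)) (.cons (.br (nat_lit 6) (nat_lit 1) (.cons (.ev (nat_lit 309485028268371721217704193) (nat_lit 1)) .nil)) .nil))) (.cons (.br (nat_lit 2) (nat_lit 0) (.cons (.br (nat_lit 1) (nat_lit 0) (.cons (.ev (nat_lit 309485028268371721217638401) (nat_lit 1)) .nil)) .nil)) .nil))) (.cons (.rf (nat_lit 3174) (nat_lit 14313957291039229984)) .nil)))),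
 (.br (nat_lit 7) (nat_lit 0) (.cons (.rf (nat_lit 3263) (nat_lit 15431877906636310560)) (.cons (.ev (nat_lit 20361638979832567884588301418753) (nat_lit 1)) .nil))),
 (.br (nat_lit 6) (nat_lit 1) (.cons (.ev (nat_lit 20361637766165935044119578542081) (nat_lit 1)) (.cons (.br (nat_lit 2) (nat_lit 0) (.cons (.kr (nat_lit 20282412021503381710799672180992) (nat_lit 79228162551157826849064681472) (nat_lit 1) (nat_lit 0)) .nil)) .nil))),
 (.br (nat_lit 5) (nat_lit 0) (.cons (.rf (nat_lit 3355) (nat_lit 493858305440582043680)) (.cons (.br (nat_lit 11) (nat_lit 1) (.cons (.rf (nat_lit 3356) (nat_lit 493858305440582043680)) (.cons (.rf (nat_lit 3356) (nat_lit 493858305440582042688)) (.cons (.kr (nat_lit 309485009821346168236408832) (nat_lit 18518801667747479552) (nat_lit 5) (nat_lit 0)) .nil)))) (.cons (.br (nat_lit 4) (nat_lit 1) (.cons (.rf (nat_lit 3357) (nat_lit 493858305440582043680)) (.cons (.rf (nat_lit 3357) (nat_lit 493858305440582042688)) (.cons (.br (nat_lit 2) (nat_lit 0) (.cons (.br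 (nat_lit 8) (nat_lit 1) (.cons (.ev (nat_lit 79228167255077846016187236353) (nat_lit 1)) .nil)) (.cons (.br (nat_lit 6) (nat_lit 1) (.cons (.ev (nat_lit 79228167255077846016187171073) (nat_lit 1)) .nil)) .nil))) .nil)))) .nil)))),
 (.br (nat_lit 2) (nat_lit 0) (.cons (.ev (nat_lit 79228167255077846016187171073) (nat_lit 1)) .nil)),
 (.br (nat_lit 5) (nat_lit 0) (.cons (.rf (nat_lit 3172) (nat_lit 493856055839791613984)) (.cons (.rf (nat_lit 3358) (nat_lit 493858305440582043680)) (.cons (.br (nat_lit 7) (nat_lit 0) (.cons (.ev (nat_lit 309485028268090246257704961) (nat_lit 1)) (.cons (.br (nat_lit 6) (nat_lit 1) (.cons (.rf (nat_lit 3359) (nat_lit 493858305440582043680)) (.cons (.rf (nat_lit 3359) (nat_lit 493858305440582042688)) .nil))) .nil))) .nil)))),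
 (.br (nat_lit 7) (nat_lit 0) (.cons (.rf (nat_lit 3354) (nat_lit 493858305440582043680)) (.cons (.rf (nat_lit 3066) (nat_lit 493858305440582042688)) .nil))),
 (.br (nat_lit 5) (nat_lit 0) (.cons (.br (nat_lit 6) (nat_lit 1) (.cons (.rf (nat_lit 3361) (nat_lit 493858305440582043680)) (.cons (.rf (nat_lit 3361) (nat_lit 493858305440582042688)) (.cons (.ev (nat_lit 72057598349672449) (nat_lit 1)) .nil)))) (.cons (.rf (nat_lit 3172) (nat_lit 493820028142284277792)) (.cons (.kr (nat_lit 1213648186097498819919872) (nat_lit 20361637766165934761540795236352) (nat_lit 9) (nat_lit 0)) .nil)))),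
 (.br (nat_lit 10) (nat_lit 1) (.cons (.ev (nat_lit 79229371440156291296028262401) (nat_lit 1)) .nil)),
 (.br (nat_lit 7) (nat_lit 0) (.cons (.rf (nat_lit 3363) (nat_lit 493858305440582043680)) (.cons (.br (nat_lit 1) (nat_lit 0) (.cons (.ev (nat_lit 79229371458603036469266284545) (nat_lit 1)) .nil)) .nil))),
 (.br (nat_lit 1) (nat_lit 0) (.cons (.rf (nat_lit 3364) (nat_lit 493858305440582042688)) (.cons (.br (nat_lit 7) (nat_lit 0) (.cons (.ev (nat_lit 79229371458603036469266219265) (nat_lit 1)) .nil)) .nil))),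
 (.br (nat_lit 5) (nat_lit 0) (.cons (.rf (nat_lit 3362) (nat_lit 493858305440582043680)) (.cons (.br (nat_lit 2) (nat_lit 0) (.cons (.rf (nat_lit 3364) (nat_lit 493858305440582043680)) (.cons (.rf (nat_lit 3365) (nat_lit 493858305440582043680)) (.cons (.br (nat_lit 1) (nat_lit 0) (.cons (.rf (nat_lit 3364) (nat_lit 493858305440582042688)) (.cons (.rf (nat_lit 3365) (nat_lit 493858305440582042688)) .nil))) .nil)))) (.cons (.kr (nat_lit 1213648186097498819919872) (nat_lit 20361637766165934761540795236352) (nat_lit 9) (nat_lit 0)) .nil))))]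

theorem c118 : chkAll C T R L118 (nat_lit 3337) = true := by decide +kernel

theorem l118 : (nat_lit 3337) + L118.length = (nat_lit 3367) := by decide +kernel

/-- part of the certificates -/
def L119 : List Prf := [(.br (nat_lit 13) (nat_lit 0) (.cons (.rf (nat_lit 3179) (nat_lit 458117738729117419552)) (.cons (.rf (nat_lit 3179) (nat_lit 458082801744999450656)) (.cons (.br (nat_lit 5) (nat_lit 0) (.cons (.rf (nat_lit 3355) (nat_lit 493858305440582043680)) (.cons (.rf (nat_lit 3358) (nat_lit 493858305440582043680)) (.cons (.rf (nat_lit 3360) (nat_lit 493858305440582043680)) (.cons (.br (nat_lit 5) (nat_lit 0) (.cons (.rf (nat_lit 3355) (nat_lit 493858305440582043680)) (.cons (.rf (nat_lit 3358) (nat_lit 493858305440582043680)) (.cons (.rf (nat_lit 3360) (nat_lit 493858305440582043680)) .nil)))) .nil))))) (.cons (.br (nat_lit 5) (nat_lit 0) (.cons (.rf (nat_lit 3362) (nat_lit 493858305440582043680)) (.cons (.rf (nat_lit 3366) (nat_lit 493858305440582043680)) (.cons (.br (nat_lit 5)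 (nat_lit 0) (.cons (.rf (nat_lit 3172) (nat_lit 493820028142284277792)) (.cons (.rf (nat_lit 3366) (nat_lit 493858305440582043680)) (.cons (.kr (nat_lit 1213648186097498819919872) (nat_lit 20361637766165934761540795236352) (nat_lit 9) (nat_lit 0)) .nil)))) (.cons (.kr (nat_lit 1213648186097498819919872) (nat_lit 20361637766165934761540795236352) (nat_lit 9) (nat_lit 0)) .nil))))) .nil))))),
 (.br (nat_lit 5) (nat_lit 0) (.cons (.ev (nat_lit 79537647524085683766092103681) (nat_lit 1)) (.cons (.br (nat_lit 7) (nat_lit 0) (.cons (.ev (nat_lit 72057598349672449) (nat_lit 1)) (.cons (.rf (nat_lit 3209) (nat_lit 14240534009004263456)) .nil))) .nil))),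
 (.br (nat_lit 5) (nat_lit 0) (.cons (.ev (nat_lit 20361637766165934762644618608641) (nat_lit 1)) (.cons (.br (nat_lit 7) (nat_lit 0) (.cons (.br (nat_lit 2) (nat_lit 0) (.cons (.br (nat_lit 8) (nat_lit 1) (.cons (.zr (nat_lit 238303457562435706216616297216) (nat_lit 4840444091966939342045185) (nat_lit 5) (nat_lit 0)) .nil)) (.cons (.br (nat_lit 1) (nat_lit 0) (.cons (.zr (nat_lit 238303457562435706216616493056) (nat_lit 4840444091966939342045185) (nat_lit 5) (nat_lit 0)) .nil)) .nil))) (.cons (.rf (nat_lit 3309) (nat_lit 458079524102987679776)) (.cons (.br (nat_lit 2) (nat_lit 0) (.cons (.br (nat_lit 6) (nat_lit 1) (.cons (.ev (nat_lit 72339073309671681) (nat_lit 1)) .nil)) (.cons (.br (nat_lit 4) (nat_lit 1) (.cons (.ev (nat_lit 72339073309671681) (nat_lit 1)) .nil)) .nil))) .nil)))) .nil))),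
 (.br (nat_lit 13) (nat_lit 0) (.cons (.rf (nat_lit 3315) (nat_lit 458117738729117419552)) (.cons (.rf (nat_lit 3179) (nat_lit 458082801744999450656)) (.cons (.rf (nat_lit 3367) (nat_lit 493858305440582043680)) (.cons (.br (nat_lit 5) (nat_lit 0) (.cons (.rf (nat_lit 3368) (nat_lit 15433072009550071840)) (.cons (.rf (nat_lit 3369) (nat_lit 493858305440582043680)) (.cons (.br (nat_lit 5) (nat_lit 0) (.cons (.rf (nat_lit 3368) (nat_lit 15433072009550071840)) (.cons (.rf (nat_lit 3369) (nat_lit 493858305440582043680)) .nil))) .nil)))) .nil))))),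
 (.br (nat_lit 9) (nat_lit 1) (.cons (.rf (nat_lit 3336) (nat_lit 493858305440582043680)) (.cons (.rf (nat_lit 3336) (nat_lit 493858305440582042688)) (.cons (.rf (nat_lit 3353) (nat_lit 493858305440582043680)) (.cons (.br (nat_lit 13) (nat_lit 0) (.cons (.rf (nat_lit 3315) (nat_lit 458117738729117419552)) (.cons (.rf (nat_lit 3179) (nat_lit 458082801744999450656)) (.cons (.rf (nat_lit 3367) (nat_lit 493858305440582043680)) (.cons (.rf (nat_lit 3370) (nat_lit 493858305440582043680)) (.cons (.br (nat_lit 13) (nat_lit 0) (.cons (.rf (nat_lit 3315) (nat_lit 458117738729117419552)) (.cons (.rf (nat_lit 3179) (nat_lit 458082801744999450656)) (.cons (.rf (nat_lit 3367) (nat_lit 493858305440582043680)) (.cons (.rf (nat_lit 3370) (nat_lit 493858305440582043680)) .nil))))) .nil)))))) .nil))))),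
 (.br (nat_lit 12) (nat_lit 0) (.cons (.rf (nat_lit 2870) (nat_lit 493858305440582043680)) (.cons (.rf (nat_lit 3179) (nat_lit 493858305440582043680)) (.cons (.rf (nat_lit 3315) (nat_lit 493858305440582043680)) (.cons (.br (nat_lit 9) (nat_lit 1) (.cons (.rf (nat_lit 3336) (nat_lit 493858305440582043680)) (.cons (.rf (nat_lit 3336) (nat_lit 493858305440582042688)) (.cons (.rf (nat_lit 3353) (nat_lit 493858305440582043680)) (.cons (.rf (nat_lit 3371) (nat_lit 493858305440582043680)) (.cons (.br (nat_lit 9) (nat_lit 1) (.cons (.rf (nat_lit 3336) (nat_lit 493858305440582043680)) (.cons (.rf (nat_lit 3336) (nat_lit 493858305440582042688)) (.cons (.rf (nat_lit 3353) (nat_lit 493858305440582043680)) (.cons (.rf (nat_lit 3371) (nat_lit 493858305440582043680)) .nil))))) .nil)))))) .nil))))),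
 (.br (nat_lit 12) (nat_lit 0) (.cons (.rf (nat_lit 2870) (nat_lit 493858305440582043680)) (.cons (.rf (nat_lit 3179) (nat_lit 493858305440582043680)) (.cons (.rf (nat_lit 3315) (nat_lit 493858305440582043680)) (.cons (.rf (nat_lit 3372) (nat_lit 493858305440582043680)) (.cons (.br (nat_lit 12) (nat_lit 0) (.cons (.rf (nat_lit 2870) (nat_lit 493858305440582043680)) (.cons (.rf (nat_lit 3179) (nat_lit 493858305440582043680)) (.cons (.rf (nat_lit 3315) (nat_lit 493858305440582043680)) (.cons (.rf (nat_lit 3372) (nat_lit 493858305440582043680)) .nil))))) .nil)))))),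
 (.br (nat_lit 5) (nat_lit 0) (.cons (.br (nat_lit 4) (nat_lit 0) (.cons (.rf (nat_lit 2915) (nat_lit 370817139564709920)) (.cons (.br (nat_lit 4) (nat_lit 0) (.cons (.rf (nat_lit 2915) (nat_lit 370817139564709920)) (.cons (.br (nat_lit 5) (nat_lit 0) (.cons (.rf (nat_lit 2915) (nat_lit 370852323936798752)) (.cons (.rf (nat_lit 2915) (nat_lit 370887508308887584)) .nil))) .nil))) .nil))) .nil)),
 (.br (nat_lit 5) (nat_lit 0) (.cons (.rf (nat_lit 3024) (nat_lit 457938756925669869600)) (.cons (.rf (nat_lit 3024) (nat_lit 457866699333779425312)) (.cons (.rf (nat_lit 3265) (nat_lit 493787406729656502304)) .nil)))),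
 (.br (nat_lit 2) (nat_lit 0) (.cons (.ev (nat_lit 309485028340428215744004353) (nat_lit 1)) (.cons (.ev (nat_lit 20282719093402377053553368826113) (nat_lit 1)) (.cons (.zr (nat_lit 60847228810955227444623867904000) (nat_lit 310693972534447853925302529) (nat_lit 5) (nat_lit 0)) .nil)))),
 (.br (nat_lit 2) (nat_lit 0) (.cons (.zr (nat_lit 60847228810955227444623867773184) (nat_lit 1218388999605921463140353) (nat_lit 5) (nat_lit 0)) (.cons (.ev (nat_lit 20282719093383930592058459357185) (nat_lit 1)) .nil))),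
 (.br (nat_lit 10) (nat_lit 1) (.cons (.rf (nat_lit 3375) (nat_lit 493858305440582043680)) (.cons (.rf (nat_lit 3375) (nat_lit 493858305440582042688)) (.cons (.br (nat_lit 5) (nat_lit 0) (.cons (.br (nat_lit 11) (nat_lit 1) (.cons (.rf (nat_lit 3376) (nat_lit 493858305440582043680)) (.cons (.rf (nat_lit 3376) (nat_lit 493858305440582042688)) .nil))) (.cons (.br (nat_lit 4) (nat_lit 1) (.cons (.rf (nat_lit 3377) (nat_lit 493858305440582043680)) (.cons (.rf (nat_lit 3377) (nat_lit 493858305440582042688)) .nil))) (.cons (.br (nat_lit 1) (nat_lit 0) (.cons (.br (nat_lit 6) (nat_lit 1) (.cons (.ev (nat_lit 79537652246452447011202400513) (nat_lit 1)) .nil)) (.cons (.br (nat_lit 2) (nat_lit 0) (.cons (.ev (nat_lit 79537652246452447011202465793) (nat_lit 1)) .nil)) .nil))) .nil)))) .nil)))),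
 (.br (nat_lit 5) (nat_lit 0) (.cons (.rf (nat_lit 2652) (nat_lit 14242783568992503840)) (.cons (.rf (nat_lit 2943) (nat_lit 445091350154676256)) (.cons (.rf (nat_lit 2942) (nat_lit 455883917062208325664)) .nil)))),
 (.br (nat_lit 6) (nat_lit 1) (.cons (.ev (nat_lit 79229371458603036469266219265) (nat_lit 1)) (.cons (.ev (nat_lit 1208925891954797700972801) (nat_lit 1)) .nil))),
 (.br (nat_lit 4) (nat_lit 1) (.cons (.rf (nat_lit 3380) (nat_lit 493858305440582043680)) (.cons (.rf (nat_lit 3380) (nat_lit 493858305440582042688)) .nil))),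
 (.br (nat_lit 7) (nat_lit 0) (.cons (.rf (nat_lit 3378) (nat_lit 493858305440582043680)) (.cons (.rf (nat_lit 3379) (nat_lit 15433072044983552032)) (.cons (.br (nat_lit 5) (nat_lit 0) (.cons (.br (nat_lit 5) (nat_lit 0) (.cons (.rf (nat_lit 3378) (nat_lit 458082801744999450656)) (.cons (.rf (nat_lit 3209) (nat_lit 15433072007406782496)) .nil))) (.cons (.br (nat_lit 5) (nat_lit 0) (.cons (.rf (nat_lit 3378) (nat_lit 458082801744999450656)) (.cons (.rf (nat_lit 3381) (nat_lit 493858305440582043680)) .nil))) (.cons (.br (nat_lit 5) (nat_lit 0) (.cons (.rf (nat_lit 3209) (nat_lit 15433072007406782496)) (.cons (.rf (nat_lit 3381) (nat_lit 493858305440582043680)) .nil))) .nil)))) .nil)))),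
 (.br (nat_lit 2) (nat_lit 0) (.cons (.ev (nat_lit 20282410812595937064129424064513) (nat_lit 1)) .nil)),
 (.br (nat_lit 5) (nat_lit 0) (.cons (.rf (nat_lit 3382) (nat_lit 458082801744999450656)) (.cons (.br (nat_lit 4) (nat_lit 1) (.cons (.rf (nat_lit 3383) (nat_lit 493858305440582043680)) (.cons (.rf (nat_lit 3383) (nat_lit 493858305440582042688)) .nil))) .nil))),
 (.br (nat_lit 7) (nat_lit 0) (.cons (.rf (nat_lit 3382) (nat_lit 493858305440582043680)) (.cons (.rf (nat_lit 3379) (nat_lit 15433072044985649184)) (.cons (.br (nat_lit 5) (nat_lit 0) (.cons (.rf (nat_lit 3384) (nat_lit 493858305440582043680)) (.cons (.rf (nat_lit 3382) (nat_lit 458082801744999450656)) (.cons (.br (nat_lit 5) (nat_lit 0) (.cons (.rf (nat_lit 3384) (nat_lit 493858305440582043680)) (.cons (.rf (nat_lit 3209) (nat_lit 15433072009554266144)) .nil))) .nil)))) .nil)))),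
 (.br (nat_lit 5) (nat_lit 0) (.cons (.rf (nat_lit 3385) (nat_lit 458082801744999450656)) (.cons (.rf (nat_lit 3382) (nat_lit 458082801744999450656)) (.cons (.rf (nat_lit 2943) (nat_lit 482282366398728224)) .nil)))),
 (.br (nat_lit 13) (nat_lit 0) (.cons (.rf (nat_lit 3373) (nat_lit 458117738729117419552)) (.cons (.rf (nat_lit 3373) (nat_lit 458082801744999450656)) (.cons (.rf (nat_lit 3374) (nat_lit 15070224438102048)) (.cons (.br (nat_lit 7) (nat_lit 0) (.cons (.rf (nat_lit 3382) (nat_lit 493858305440582043680)) (.cons (.rf (nat_lit 3385) (nat_lit 493858305440582043680)) (.cons (.rf (nat_lit 3386) (nat_lit 493858305440582043680)) (.cons (.br (nat_lit 7) (nat_lit 0) (.cons (.rf (nat_lit 3382) (nat_lit 493858305440582043680)) (.cons (.rf (nat_lit 3385) (nat_lit 493858305440582043680)) (.cons (.rf (nat_lit 3386) (nat_lit 493858305440582043680)) .nil)))) .nil))))) .nil))))),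
 (.br (nat_lit 5) (nat_lit 0) (.cons (.br (nat_lit 11) (nat_lit 1) (.cons (.br (nat_lit 7) (nat_lit 0) (.cons (.kr (nat_lit 79230580365903567951404990720) (nat_lit 20282409603688635969688708382720) (nat_lit 1) (nat_lit 0)) .nil)) .nil)) (.cons (.rf (nat_lit 3379) (nat_lit 14313963819385325600)) .nil))),
 (.br (nat_lit 2) (nat_lit 0) (.cons (.br (nat_lit 9) (nat_lit 1) (.cons (.br (nat_lit 11) (nat_lit 1) (.cons (.br (nat_lit 6) (nat_lit 1) (.cons (.br (nat_lit 7) (nat_lit 0) (.cons (.ev (nat_lit 310693935713298771209093121) (nat_lit 1)) .nil)) .nil)) (.cons (.br (nat_lit 6) (nat_lit 1) (.cons (.br (nat_lit 4) (nat_lit 1) (.cons (.ev (nat_lit 309485028340428215743938561) (nat_lit 1)) .nil)) (.cons (.br (nat_lit 5) (nat_lit 0) (.cons (.ev (nat_lit 309485028340428215744004353) (nat_lit 1)) .nil)) .nil))) .nil))) (.cons (.br (nat_lit 11) (nat_lit 1) (.cons (.rf (nat_lit 2943) (nat_lit 482283465909307424)) (.cons (.kr (nat_lit 4722366482869645213952) (nat_lit 72057594054705152) (nat_lit 1)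 (nat_lit 0)) .nil))) .nil))) (.cons (.kr (nat_lit 256) (nat_lit 65536) (nat_lit 1) (nat_lit 0)) (.cons (.br (nat_lit 4) (nat_lit 1) (.cons (.rf (nat_lit 3388) (nat_lit 493858305440582043680)) (.cons (.br (nat_lit 4) (nat_lit 1) (.cons (.rf (nat_lit 3388) (nat_lit 493858305440582043680)) .nil)) .nil))) (.cons (.kr (nat_lit 1208925819614629174706432) (nat_lit 18446744073709617152) (nat_lit 1) (nat_lit 0)) .nil))))),
 (.br (nat_lit 4) (nat_lit 1) (.cons (.ev (nat_lit 310693935713298771209093121) (nat_lit 1)) (.cons (.ev (nat_lit 4722366482873940181249) (nat_lit 1)) (.cons (.ev (nat_lit 1103823372289) (nat_lit 1)) .nil)))),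
 (.br (nat_lit 6) (nat_lit 1) (.cons (.rf (nat_lit 3389) (nat_lit 493858305440582043680)) (.cons (.rf (nat_lit 3389) (nat_lit 493858305440582042688)) (.cons (.br (nat_lit 5) (nat_lit 0) (.cons (.br (nat_lit 11) (nat_lit 1) (.cons (.rf (nat_lit 3024) (nat_lit 493606175329709295648)) (.cons (.rf (nat_lit 3024) (nat_lit 493606175329709294656)) (.cons (.ev (nat_lit 20361947251194203133257734684673) (nat_lit 1)) .nil)))) (.cons (.br (nat_lit 7) (nat_lit 0) (.cons (.br (nat_lit 11) (nat_lit 1) (.cons (.rf (nat_lit 3390) (nat_lit 493858305440582043680)) (.cons (.rf (nat_lit 3390) (nat_lit 493858305440582042688)) .nil))) (.cons (.rf (nat_lit 3209) (nat_lit 15433037924693805088)) .nil))) (.cons (.rf (nat_lit 3379) (nat_lit 14313963819387422752)) .nil)))) .nil)))),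
 (.br (nat_lit 13) (nat_lit 0) (.cons (.rf (nat_lit 3373) (nat_lit 458117738729117419552)) (.cons (.rf (nat_lit 3373) (nat_lit 458082801744999450656)) (.cons (.rf (nat_lit 3374) (nat_lit 15070224438102048)) (.cons (.br (nat_lit 6) (nat_lit 1) (.cons (.rf (nat_lit 3389) (nat_lit 493858305440582043680)) (.cons (.rf (nat_lit 3389) (nat_lit 493858305440582042688)) (.cons (.rf (nat_lit 3391) (nat_lit 493858305440582043680)) (.cons (.br (nat_lit 6) (nat_lit 1) (.cons (.rf (nat_lit 3389) (nat_lit 493858305440582043680)) (.cons (.rf (nat_lit 3389) (nat_lit 493858305440582042688)) (.cons (.rf (nat_lit 3391) (nat_lit 493858305440582043680)) .nil)))) .nil))))) .nil))))),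
 (.br (nat_lit 13) (nat_lit 0) (.cons (.rf (nat_lit 3373) (nat_lit 458117738729117419552)) (.cons (.rf (nat_lit 3373) (nat_lit 458082801744999450656)) (.cons (.rf (nat_lit 3387) (nat_lit 493858305440582043680)) (.cons (.rf (nat_lit 3392) (nat_lit 493858305440582043680)) (.cons (.br (nat_lit 13) (nat_lit 0) (.cons (.rf (nat_lit 3373) (nat_lit 458117738729117419552)) (.cons (.rf (nat_lit 3373) (nat_lit 458082801744999450656)) (.cons (.rf (nat_lit 3387) (nat_lit 493858305440582043680)) (.cons (.rf (nat_lit 3392) (nat_lit 493858305440582043680)) .nil))))) .nil)))))),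
 (.br (nat_lit 4) (nat_lit 1) (.cons (.kr (nat_lit 20361637766165934761540812013568) (nat_lit 309485028268089146729299968) (nat_lit 3) (nat_lit 0)) (.cons (.ev (nat_lit 79537652246452165536208912641) (nat_lit 1)) .nil))),
 (.br (nat_lit 6) (nat_lit 1) (.cons (.ev (nat_lit 4722438823042483290113) (nat_lit 1)) (.cons (.ev (nat_lit 20361637766184453845783031054593) (nat_lit 1)) .nil))),
 (.br (nat_lit 6) (nat_lit 1) (.cons (.kr (nat_lit 256) (nat_lit 65536) (nat_lit 1) (nat_lit 0)) (.cons (.br (nat_lit 7) (nat_lit 0) (.cons (.br (nat_lit 11) (nat_lit 1) (.cons (.ev (nat_lit 310693935713298771209093121) (nat_lit 1)) .nil)) (.cons (.br (nat_lit 2) (nat_lit 0) (.cons (.ev (nat_lit 79537652246452447011202465793) (nat_lit 1)) .nil)) .nil))) .nil)))]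

theorem c119 : chkAll C T R L119 (nat_lit 3367) = true := by decide +kernel

theorem l119 : (nat_lit 3367) + L119.length = (nat_lit 3397) := by decide +kernel

/-- part of the certificates -/
def L120 : List Prf := [(.br (nat_lit 5) (nat_lit 0) (.cons (.br (nat_lit 11) (nat_lit 1) (.cons (.rf (nat_lit 3375) (nat_lit 458010814521851086880)) (.cons (.rf (nat_lit 3375) (nat_lit 458010814521851085888)) (.cons (.br (nat_lit 8) (nat_lit 1) (.cons (.rf (nat_lit 3394) (nat_lit 493858305440582043680)) (.cons (.rf (nat_lit 3394) (nat_lit 493858305440582042688)) (.cons (.br (nat_lit 4) (nat_lit 1) (.cons (.rf (nat_lit 3395) (nat_lit 493858305440582043680)) (.cons (.rf (nat_lit 3395) (nat_lit 493858305440582042688)) .nil))) .nil)))) .nil)))) (.cons (.br (nat_lit 6) (nat_lit 1) (.cons (.rf (nat_lit 3396) (nat_lit 493858305440582043680)) (.cons (.rf (nat_lit 3396) (nat_lit 493858305440582042688)) (.cons (.br (nat_lit 6) (nat_lit 1) (.cons (.rf (nat_lit 3396) (nat_lit 493858305440582043680)) (.cons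 (.rf (nat_lit 3396) (nat_lit 493858305440582042688)) .nil))) .nil)))) (.cons (.kr (nat_lit 309485009821345068724781056) (nat_lit 20282409603651670423947251286016) (nat_lit 11) (nat_lit 0)) .nil)))),
 (.br (nat_lit 2) (nat_lit 0) (.cons (.ev (nat_lit 79537652246452447011202400513) (nat_lit 1)) .nil)),
 (.br (nat_lit 4) (nat_lit 1) (.cons (.rf (nat_lit 3398) (nat_lit 493858305440582043680)) (.cons (.rf (nat_lit 3398) (nat_lit 493858305440582042688)) .nil))),
 (.br (nat_lit 5) (nat_lit 0) (.cons (.rf (nat_lit 3397) (nat_lit 493858305440582043680)) (.cons (.br (nat_lit 7) (nat_lit 0) (.cons (.br (nat_lit 7) (nat_lit 0) (.cons (.ev (nat_lit 20361638975110273459312710909953) (nat_lit 1)) (.cons (.rf (nat_lit 3399) (nat_lit 493858305440582043680)) .nil))) (.cons (.br (nat_lit 4) (nat_lit 1) (.cons (.ev (nat_lit 20282409608392483932365582762241) (nat_lit 1)) (.cons (.ev (nat_lit 20282409608392483932365582827521) (nat_lit 1)) (.cons (.ev (nat_lit 20361638975110273459312710909953) (nat_lit 1))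 .nil)))) (.cons (.br (nat_lit 7) (nat_lit 0) (.cons (.rf (nat_lit 3399) (nat_lit 493858305440582043680)) (.cons (.rf (nat_lit 3209) (nat_lit 15433002740322764832)) .nil))) .nil)))) (.cons (.kr (nat_lit 309485009821345068724781056) (nat_lit 20282409603651670423947251286016) (nat_lit 11) (nat_lit 0)) .nil)))),
 (.br (nat_lit 13) (nat_lit 0) (.cons (.rf (nat_lit 3373) (nat_lit 458117738729117419552)) (.cons (.rf (nat_lit 3373) (nat_lit 458082801744999450656)) (.cons (.rf (nat_lit 3374) (nat_lit 15070224438102048)) (.cons (.br (nat_lit 5) (nat_lit 0) (.cons (.rf (nat_lit 3397) (nat_lit 493858305440582043680)) (.cons (.rf (nat_lit 3400) (nat_lit 493858305440582043680)) (.cons (.br (nat_lit 5) (nat_lit 0) (.cons (.rf (nat_lit 3397) (nat_lit 493858305440582043680)) (.cons (.rf (nat_lit 3400) (nat_lit 493858305440582043680)) (.cons (.kr (nat_lit 309485009821345068724781056) (nat_lit 20282409603651670423947251286016) (nat_lit 11) (nat_lit 0)) .nil)))) (.cons (.kr (nat_lit 309485009821345068724781056)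 (nat_lit 20282409603651670423947251286016) (nat_lit 11) (nat_lit 0)) .nil))))) .nil))))),
 (.br (nat_lit 13) (nat_lit 0) (.cons (.rf (nat_lit 3373) (nat_lit 458117738729117419552)) (.cons (.rf (nat_lit 3373) (nat_lit 458082801744999450656)) (.cons (.rf (nat_lit 3393) (nat_lit 493858305440582043680)) (.cons (.rf (nat_lit 3401) (nat_lit 493858305440582043680)) (.cons (.br (nat_lit 13) (nat_lit 0) (.cons (.rf (nat_lit 3373) (nat_lit 458117738729117419552)) (.cons (.rf (nat_lit 3373) (nat_lit 458082801744999450656)) (.cons (.rf (nat_lit 3393) (nat_lit 493858305440582043680)) (.cons (.rf (nat_lit 3401) (nat_lit 493858305440582043680)) .nil))))) .nil)))))),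
 (.br (nat_lit 13) (nat_lit 0) (.cons (.rf (nat_lit 3373) (nat_lit 458117738729117419552)) (.cons (.rf (nat_lit 3373) (nat_lit 458082801744999450656)) (.cons (.rf (nat_lit 3393) (nat_lit 493858305440582043680)) (.cons (.rf (nat_lit 3402) (nat_lit 493858305440582043680)) (.cons (.br (nat_lit 13) (nat_lit 0) (.cons (.rf (nat_lit 3373) (nat_lit 458117738729117419552)) (.cons (.rf (nat_lit 3373) (nat_lit 458082801744999450656)) (.cons (.rf (nat_lit 3393) (nat_lit 493858305440582043680)) (.cons (.rf (nat_lit 3402) (nat_lit 493858305440582043680)) .nil))))) .nil)))))),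
 (.br (nat_lit 13) (nat_lit 0) (.cons (.rf (nat_lit 3373) (nat_lit 458117738729117419552)) (.cons (.rf (nat_lit 3373) (nat_lit 458082801744999450656)) (.cons (.rf (nat_lit 3393) (nat_lit 493858305440582043680)) (.cons (.rf (nat_lit 3402) (nat_lit 493858305440582043680)) (.cons (.rf (nat_lit 3403) (nat_lit 493858305440582043680)) (.cons (.br (nat_lit 13) (nat_lit 0) (.cons (.rf (nat_lit 3373) (nat_lit 458117738729117419552)) (.cons (.rf (nat_lit 3373) (nat_lit 458082801744999450656)) (.cons (.rf (nat_lit 3393) (nat_lit 493858305440582043680)) (.cons (.rf (nat_lit 3402) (nat_lit 493858305440582043680)) (.cons (.rf (nat_lit 3403) (nat_lit 493858305440582043680)) .nil)))))) .nil))))))),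
 (.br (nat_lit 12) (nat_lit 0) (.cons (.rf (nat_lit 3373) (nat_lit 493858305440582043680)) (.cons (.rf (nat_lit 3373) (nat_lit 493823368456464074784)) (.cons (.rf (nat_lit 3404) (nat_lit 493858305440582043680)) (.cons (.rf (nat_lit 3404) (nat_lit 493823368456464074784)) .nil))))),
 (.br (nat_lit 13) (nat_lit 0) (.cons (.rf (nat_lit 3373) (nat_lit 458117738729117419552)) (.cons (.rf (nat_lit 3373) (nat_lit 458082801744999450656)) (.cons (.rf (nat_lit 3405) (nat_lit 458117738729117419552)) (.cons (.rf (nat_lit 3374) (nat_lit 15071358309468192)) .nil))))),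
 (.br (nat_lit 13) (nat_lit 0) (.cons (.rf (nat_lit 3373) (nat_lit 458117738729117419552)) (.cons (.rf (nat_lit 3373) (nat_lit 458082801744999450656)) (.cons (.rf (nat_lit 3405) (nat_lit 458117738729117419552)) (.cons (.rf (nat_lit 3406) (nat_lit 493858305440582043680)) (.cons (.br (nat_lit 13) (nat_lit 0) (.cons (.rf (nat_lit 3373) (nat_lit 458117738729117419552)) (.cons (.rf (nat_lit 3373) (nat_lit 458082801744999450656)) (.cons (.rf (nat_lit 3405) (nat_lit 458117738729117419552)) (.cons (.rf (nat_lit 3374) (nat_lit 15071358309468192)) .nil))))) .nil)))))),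
 (.br (nat_lit 7) (nat_lit 0) (.cons (.br (nat_lit 6) (nat_lit 1) (.cons (.ev (nat_lit 20282410812577562377649735598081) (nat_lit 1)) (.cons (.rf (nat_lit 3313) (nat_lit 15433037924693805088)) .nil))) (.cons (.rf (nat_lit 3379) (nat_lit 15430752144168421408)) (.cons (.br (nat_lit 5) (nat_lit 0) (.cons (.br (nat_lit 6) (nat_lit 1) (.cons (.zr (nat_lit 40564820416229304577711753330944) (nat_lit 928455029464316685479575553) (nat_lit 5) (nat_lit 0)) .nil)) (.cons (.kr (nat_lit 309489750634572012079546624) (nat_lit 20282410812577562096170480697344) (nat_lit 1) (nat_lit 0)) .nil))) .nil)))),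
 (.br (nat_lit 4) (nat_lit 1) (.cons (.rf (nat_lit 3408) (nat_lit 493858305440582043680)) (.cons (.rf (nat_lit 3408) (nat_lit 493858305440582042688)) (.cons (.rf (nat_lit 3313) (nat_lit 15433037922546321440)) .nil)))),
 (.br (nat_lit 6) (nat_lit 1) (.cons (.kr (nat_lit 309489750634572012079546624) (nat_lit 20282410812577562096170480697344) (nat_lit 1) (nat_lit 0)) (.cons (.kr (nat_lit 309489750634572012079611904) (nat_lit 20282410812577562096170480697344) (nat_lit 2) (nat_lit 0)) (.cons (.kr (nat_lit 79847132533907028830505140224) (nat_lit 20282412021503381710799638626304) (nat_lit 5) (nat_lit 0)) .nil)))),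
 (.br (nat_lit 7) (nat_lit 0) (.cons (.rf (nat_lit 3409) (nat_lit 493858305440582043680)) (.cons (.rf (nat_lit 3379) (nat_lit 15430752144170518560)) (.cons (.br (nat_lit 5) (nat_lit 0) (.cons (.br (nat_lit 5) (nat_lit 0) (.cons (.rf (nat_lit 3313) (nat_lit 15433037924693805088)) (.cons (.rf (nat_lit 3410) (nat_lit 493858305440582043680)) .nil))) (.cons (.rf (nat_lit 3313) (nat_lit 15433037924693805088)) (.cons (.rf (nat_lit 3410) (nat_lit 493858305440582043680)) .nil)))) .nil)))),
 (.br (nat_lit 5) (nat_lit 0) (.cons (.rf (nat_lit 3411) (nat_lit 458082801744999450656)) (.cons (.rf (nat_lit 3409) (nat_lit 458082801744999450656)) (.cons (.rf (nat_lit 2943) (nat_lit 482214265395185696)) .nil)))),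
 (.br (nat_lit 13) (nat_lit 0) (.cons (.rf (nat_lit 3373) (nat_lit 458117738729117419552)) (.cons (.rf (nat_lit 3373) (nat_lit 458082801744999450656)) (.cons (.rf (nat_lit 3405) (nat_lit 458117738729117419552)) (.cons (.br (nat_lit 12) (nat_lit 0) (.cons (.rf (nat_lit 3373) (nat_lit 493858305440582043680)) (.cons (.rf (nat_lit 3373) (nat_lit 493823368456464074784)) (.cons (.rf (nat_lit 3405) (nat_lit 493858305440582043680)) (.cons (.br (nat_lit 7) (nat_lit 0) (.cons (.rf (nat_lit 3409) (nat_lit 493858305440582043680)) (.cons (.rf (nat_lit 3411) (nat_lit 493858305440582043680)) (.cons (.rf (nat_lit 3412) (nat_lit 493858305440582043680)) (.cons (.br (nat_lit 7) (nat_lit 0) (.cons (.rf (nat_lit 3409) (nat_lit 493858305440582043680)) (.cons (.rf (nat_lit 3411) (nat_lit 493858305440582043680)) (.cons (.rf (nat_lit 3412) (nat_lit 493858305440582043680)) .nil)))) .nil))))) .nil))))) .nil))))),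
 (.br (nat_lit 13) (nat_lit 0) (.cons (.rf (nat_lit 3373) (nat_lit 458117738729117419552)) (.cons (.rf (nat_lit 3373) (nat_lit 458082801744999450656)) (.cons (.rf (nat_lit 3405) (nat_lit 458117738729117419552)) (.cons (.rf (nat_lit 3413) (nat_lit 458082801744999450656)) (.cons (.rf (nat_lit 3413) (nat_lit 493858305440582043680)) .nil)))))),
 (.br (nat_lit 13) (nat_lit 0) (.cons (.rf (nat_lit 3373) (nat_lit 458117738729117419552)) (.cons (.rf (nat_lit 3373) (nat_lit 458082801744999450656)) (.cons (.rf (nat_lit 3407) (nat_lit 493858305440582043680)) (.cons (.rf (nat_lit 3413) (nat_lit 458082801744999450656)) (.cons (.br (nat_lit 13) (nat_lit 0) (.cons (.rf (nat_lit 3373) (nat_lit 458117738729117419552)) (.cons (.rf (nat_lit 3373) (nat_lit 458082801744999450656)) (.cons (.rf (nat_lit 3374) (nat_lit 15071358309468192)) (.cons (.rf (nat_lit 3413) (nat_lit 493858305440582043680)) .nil))))) .nil)))))),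
 (.br (nat_lit 12) (nat_lit 0) (.cons (.rf (nat_lit 3373) (nat_lit 493858305440582043680)) (.cons (.rf (nat_lit 3373) (nat_lit 493823368456464074784)) (.cons (.rf (nat_lit 3405) (nat_lit 493858305440582043680)) (.cons (.br (nat_lit 13) (nat_lit 0) (.cons (.rf (nat_lit 3373) (nat_lit 458117738729117419552)) (.cons (.rf (nat_lit 3373) (nat_lit 458082801744999450656)) (.cons (.rf (nat_lit 3407) (nat_lit 493858305440582043680)) (.cons (.rf (nat_lit 3414) (nat_lit 493858305440582043680)) (.cons (.rf (nat_lit 3415) (nat_lit 493858305440582043680)) (.cons (.br (nat_lit 13) (nat_lit 0) (.cons (.rf (nat_lit 3373) (nat_lit 458117738729117419552)) (.cons (.rf (nat_lit 3373) (nat_lit 458082801744999450656)) (.cons (.rf (nat_lit 3407) (nat_lit 493858305440582043680)) (.cons (.rf (nat_lit 3413) (nat_lit 493858305440582043680)) (.cons (.rf (nat_lit 3415) (nat_lit 493858305440582043680)) .nil)))))) .nil))))))) .nil))))),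
 (.br (nat_lit 12) (nat_lit 0) (.cons (.rf (nat_lit 3373) (nat_lit 493858305440582043680)) (.cons (.rf (nat_lit 3373) (nat_lit 493823368456464074784)) (.cons (.rf (nat_lit 3405) (nat_lit 493858305440582043680)) (.cons (.rf (nat_lit 3416) (nat_lit 493858305440582043680)) (.cons (.br (nat_lit 12) (nat_lit 0) (.cons (.rf (nat_lit 3373) (nat_lit 493858305440582043680)) (.cons (.rf (nat_lit 3373) (nat_lit 493823368456464074784)) (.cons (.rf (nat_lit 3405) (nat_lit 493858305440582043680)) (.cons (.rf (nat_lit 3416) (nat_lit 493858305440582043680)) .nil))))) .nil)))))),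
 (.br (nat_lit 12) (nat_lit 0) (.cons (.rf (nat_lit 3373) (nat_lit 493858305440582043680)) (.cons (.rf (nat_lit 3373) (nat_lit 493823368456464074784)) (.cons (.rf (nat_lit 3417) (nat_lit 493858305440582043680)) (.cons (.rf (nat_lit 3417) (nat_lit 493823368456464074784)) (.cons (.br (nat_lit 12) (nat_lit 0) (.cons (.rf (nat_lit 3373) (nat_lit 493858305440582043680)) (.cons (.rf (nat_lit 3373) (nat_lit 493823368456464074784)) (.cons (.rf (nat_lit 3417) (nat_lit 493858305440582043680)) (.cons (.rf (nat_lit 3417) (nat_lit 493823368456464074784)) .nil))))) .nil)))))),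
 (.br (nat_lit 12) (nat_lit 0) (.cons (.rf (nat_lit 3373) (nat_lit 493858305440582043680)) (.cons (.rf (nat_lit 3373) (nat_lit 493823368456464074784)) (.cons (.rf (nat_lit 3417) (nat_lit 493858305440582043680)) (.cons (.rf (nat_lit 3417) (nat_lit 493823368456464074784)) (.cons (.rf (nat_lit 3418) (nat_lit 493858305440582043680)) (.cons (.rf (nat_lit 3418) (nat_lit 493823368456464074784)) .nil))))))),
 (.br (nat_lit 8) (nat_lit 1) (.cons (.br (nat_lit 4) (nat_lit 1) (.cons (.br (nat_lit 13) (nat_lit 0) (.cons (.kr (nat_lit 20282409603651742481541289214208) (nat_lit 79228162514264338693055643648) (nat_lit 1) (nat_lit 0)) .nil)) .nil)) .nil)),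
 (.br (nat_lit 6) (nat_lit 1) (.cons (.rf (nat_lit 3420) (nat_lit 493858305440582043680)) (.cons (.br (nat_lit 4) (nat_lit 1) (.cons (.rf (nat_lit 3420) (nat_lit 493858305438436657184)) (.cons (.br (nat_lit 8) (nat_lit 1) (.cons (.rf (nat_lit 3420) (nat_lit 493858303243706271776)) (.cons (.rf (nat_lit 651) (nat_lit 493748990830679525408)) .nil))) .nil))) .nil))),
 (.br (nat_lit 9) (nat_lit 1) (.cons (.rf (nat_lit 3421) (nat_lit 493858305440582043680)) (.cons (.br (nat_lit 6) (nat_lit 1) (.cons (.br (nat_lit 8) (nat_lit 1) (.cons (.ev (nat_lit 79538856468424381533696033025) (nat_lit 1)) .nil)) (.cons (.ev (nat_lit 1213648258436567851335681) (nat_lit 1)) .nil))) .nil))),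
 (.br (nat_lit 7) (nat_lit 0) (.cons (.kr (nat_lit 20282409603651742481541289214208) (nat_lit 79228162514264338693055643648) (nat_lit 1) (nat_lit 0)) .nil)),
 (.br (nat_lit 13) (nat_lit 0) (.cons (.rf (nat_lit 3423) (nat_lit 493858305440582043680)) (.cons (.rf (nat_lit 3423) (nat_lit 493858303243706271776)) .nil))),
 (.br (nat_lit 9) (nat_lit 1) (.cons (.rf (nat_lit 3421) (nat_lit 493857214725047289888)) (.cons (.br (nat_lit 7) (nat_lit 0) (.cons (.rf (nat_lit 3424) (nat_lit 493858305440582043680)) (.cons (.rf (nat_lit 3424) (nat_lit 493858305438436657184)) (.cons (.rf (nat_lit 3424) (nat_lit 493858303239415498784)) .nil)))) .nil))),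
 (.br (nat_lit 9) (nat_lit 1) (.cons (.rf (nat_lit 3421) (nat_lit 493857214725047289888)) (.cons (.br (nat_lit 8) (nat_lit 1) (.cons (.br (nat_lit 4) (nat_lit 1) (.cons (.br (nat_lit 13) (nat_lit 0) (.cons (.zr (nat_lit 9481626457185244610560) (nat_lit 314320713100085064712060929) (nat_lit 5) (nat_lit 0)) .nil)) (.cons (.br (nat_lit 6) (nat_lit 1) (.cons (.zr (nat_lit 9481626457185244610560) (nat_lit 314320713100085064712060929) (nat_lit 5) (nat_lit 0)) .nil)) .nil))) (.cons (.br (nat_lit 2) (nat_lit 0) (.cons (.ev (nat_lit 1208925891673327019294721) (nat_lit 1)) (.cons (.ev (nat_lit 309485009893684137739485441) (nat_lit 1)) .nil))) (.cons (.br (nat_lit 2) (nat_lit 0) (.cons (.ev (nat_lit 20361637766165934762644618674433) (nat_lit 1)) (.cons (.ev (nat_lit 20361948460101576002713688276993) (nat_lit 1)) .nil))) .nil)))) .nil)))]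

theorem c120 : chkAll C T R L120 (nat_lit 3397) = true := by decide +kernel

theorem l120 : (nat_lit 3397) + L120.length = (nat_lit 3427) := by decide +kernel

/-- part of the certificates -/
def L121 : List Prf := [(.br (nat_lit 10) (nat_lit 1) (.cons (.br (nat_lit 9) (nat_lit 1) (.cons (.rf (nat_lit 3421) (nat_lit 493858305440582043680)) (.cons (.rf (nat_lit 3422) (nat_lit 493858305440582043680)) (.cons (.br (nat_lit 9) (nat_lit 1) (.cons (.rf (nat_lit 3421) (nat_lit 493858305440582043680)) (.cons (.rf (nat_lit 3422) (nat_lit 493858305440582043680)) .nil))) .nil)))) (.cons (.br (nat_lit 9) (nat_lit 1) (.cons (.rf (nat_lit 3425) (nat_lit 493858305440582043680)) (.cons (.rf (nat_lit 3426) (nat_lit 493858305440582043680)) (.cons (.br (nat_lit 9) (nat_lit 1) (.cons (.rf (nat_lit 3425) (nat_lit 493858305440582043680)) (.cons (.rf (nat_lit 3426) (nat_lit 493858305440582043680)) .nil))) .nil)))) .nil))),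
 (.br (nat_lit 9) (nat_lit 1) (.cons (.br (nat_lit 4) (nat_lit 1) (.cons (.ev (nat_lit 309485009893402667057742081) (nat_lit 1)) (.cons (.br (nat_lit 6) (nat_lit 1) (.cons (.br (nat_lit 8) (nat_lit 1) (.cons (.ev (nat_lit 20837009187437720898120748302596) (nat_lit 3)) .nil)) (.cons (.ev (nat_lit 1213648258436567851335681) (nat_lit 1)) .nil))) .nil))) (.cons (.br (nat_lit 4) (nat_lit 1) (.cons (.br (nat_lit 7) (nat_lit 0) (.cons (.ev (nat_lit 158767023686680516629643854594) (nat_lit 2)) (.cons (.br (nat_lit 13) (nat_lit 0) (.cons (.zr (nat_lit 36893491445954183168) (nat_lit 310698658007724046833156097) (nat_lit 5) (nat_lit 0)) .nil)) .nil))) (.cons (.br (nat_lit 2) (nat_lit 0) (.cons (.ev (nat_lit 159077717622177078560684179970) (nat_lit 2)) (.cons (.ev (nat_lit 1208925891673327019294721) (nat_lit 1)) .nil))) (.cons (.br (nat_lit 6) (nat_lit 1) (.cons (.ev (nat_lit 20361947251175756389184008355841) (nat_lit 1)) (.cons (.br (nat_lit 8) (nat_lit 1) (.cons (.ev (nat_lit 79228167255149904705425047553)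 (nat_lit 1)) .nil)) .nil))) .nil)))) .nil))),
 (.br (nat_lit 9) (nat_lit 1) (.cons (.rf (nat_lit 3428) (nat_lit 493858305440582043680)) (.cons (.br (nat_lit 6) (nat_lit 1) (.cons (.ev (nat_lit 1213648258436567851335681) (nat_lit 1)) (.cons (.br (nat_lit 4) (nat_lit 1) (.cons (.br (nat_lit 2) (nat_lit 0) (.cons (.ev (nat_lit 20838251944290817116575247828228) (nat_lit 3)) .nil)) .nil)) .nil))) .nil))),
 (.br (nat_lit 10) (nat_lit 1) (.cons (.rf (nat_lit 3427) (nat_lit 493858305440582043680)) (.cons (.br (nat_lit 9) (nat_lit 1) (.cons (.rf (nat_lit 3428) (nat_lit 493858305440582043680)) (.cons (.rf (nat_lit 3429) (nat_lit 493858305440582043680)) (.cons (.br (nat_lit 9) (nat_lit 1) (.cons (.rf (nat_lit 3428) (nat_lit 493858305440582043680)) (.cons (.rf (nat_lit 3429) (nat_lit 493858305440582043680)) .nil))) .nil)))) .nil))),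
 (.br (nat_lit 6) (nat_lit 1) (.cons (.br (nat_lit 13) (nat_lit 0) (.cons (.kr (nat_lit 79228162551157826840474681600) (nat_lit 20282409603651743044491242700800) (nat_lit 1) (nat_lit 0)) .nil)) .nil)),
 (.br (nat_lit 4) (nat_lit 1) (.cons (.kr (nat_lit 79228162551157826840474681600) (nat_lit 20282409603651743044491242700800) (nat_lit 1) (nat_lit 0)) .nil)),
 (.br (nat_lit 8) (nat_lit 1) (.cons (.br (nat_lit 6) (nat_lit 1) (.cons (.br (nat_lit 10) (nat_lit 1) (.cons (.br (nat_lit 13) (nat_lit 0) (.cons (.ev (nat_lit 20838247099216594355256444650756) (nat_lit 3)) .nil)) .nil)) .nil)) (.cons (.br (nat_lit 10) (nat_lit 1) (.cons (.rf (nat_lit 3431) (nat_lit 493858305440582043680)) (.cons (.br (nat_lit 6) (nat_lit 1) (.cons (.br (nat_lit 4) (nat_lit 1) (.cons (.ev (nat_lit 20362256764557031252030390469380) (nat_lit 3)) .nil)) (.cons (.rf (nat_lit 3432) (nat_lit 493858305440582043680)) .nil))) .nil))) .nil))),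
 (.br (nat_lit 4) (nat_lit 1) (.cons (.ev (nat_lit 79228167236630821567012602113) (nat_lit 1)) .nil)),
 (.br (nat_lit 13) (nat_lit 0) (.cons (.kr (nat_lit 79228162551157826840474681600) (nat_lit 20282409603651743044491242700800) (nat_lit 1) (nat_lit 0)) .nil)),
 (.br (nat_lit 10) (nat_lit 1) (.cons (.rf (nat_lit 3433) (nat_lit 493858305440582043680)) (.cons (.br (nat_lit 8) (nat_lit 1) (.cons (.rf (nat_lit 3434) (nat_lit 493858305440582043680)) (.cons (.br (nat_lit 2) (nat_lit 0) (.cons (.rf (nat_lit 3435) (nat_lit 493858305440582043680)) (.cons (.br (nat_lit 4) (nat_lit 1) (.cons (.ev (nat_lit 18519083147036000513) (nat_lit 1)) .nil)) .nil))) .nil))) .nil))),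
 (.br (nat_lit 4) (nat_lit 1) (.cons (.br (nat_lit 10) (nat_lit 1) (.cons (.ev (nat_lit 79229371440083953326542094593) (nat_lit 1)) .nil)) (.cons (.br (nat_lit 8) (nat_lit 1) (.cons (.br (nat_lit 10) (nat_lit 1) (.cons (.ev (nat_lit 79230594570040622107760525570) (nat_lit 2)) .nil)) (.cons (.br (nat_lit 6) (nat_lit 1) (.cons (.ev (nat_lit 4740813509517859946753) (nat_lit 1)) (.cons (.ev (nat_lit 20282719093383930590954635985153) (nat_lit 1)) .nil))) .nil))) .nil))),
 (.br (nat_lit 6) (nat_lit 1) (.cons (.br (nat_lit 8) (nat_lit 1) (.cons (.br (nat_lit 10) (nat_lit 1) (.cons (.ev (nat_lit 1213666705464315594539266) (nat_lit 2)) .nil)) .nil)) (.cons (.ev (nat_lit 79537652246452448106402283521) (nat_lit 1)) .nil))),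
 (.br (nat_lit 7) (nat_lit 0) (.cons (.br (nat_lit 5) (nat_lit 0) (.cons (.br (nat_lit 2) (nat_lit 0) (.cons (.br (nat_lit 10) (nat_lit 1) (.cons (.ev (nat_lit 158769446316026462065343397890) (nat_lit 2)) .nil)) .nil)) (.cons (.ev (nat_lit 79537652246452448106402283521) (nat_lit 1)) .nil))) (.cons (.br (nat_lit 13) (nat_lit 0) (.cons (.br (nat_lit 2) (nat_lit 0) (.cons (.br (nat_lit 10) (nat_lit 1) (.cons (.ev (nat_lit 1208944266359806707695873) (nat_lit 1)) .nil)) .nil)) (.cons (.br (nat_lit 6) (nat_lit 1) (.cons (.ev (nat_lit 20282409608392483932365582762241) (nat_lit 1)) (.cons (.ev (nat_lit 20361637770906820327553181417473) (nat_lit 1)) .nil))) .nil))) (.cons (.br (nat_lit 2) (nat_lit 0) (.cons (.br (nat_lit 8) (nat_lit 1) (.cons (.br (nat_lit 10) (nat_lit 1) (.cons (.ev (nat_lit 20678552843519726287031195993860) (nat_lit 3)) .nil)) (.cons (.ev (nat_lit 18519083147036000513) (nat_lit 1)) .nil))) (.cons (.br (nat_lit 10) (nat_lit 1) (.cons (.br (nat_lit 13) (nat_lit 0) (.cons (.ev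 (nat_lit 310693990982039651116712450) (nat_lit 2)) .nil)) (.cons (.br (nat_lit 5) (nat_lit 0) (.cons (.ev (nat_lit 620178982572813419622302210) (nat_lit 2)) .nil)) .nil))) (.cons (.br (nat_lit 8) (nat_lit 1) (.cons (.br (nat_lit 13) (nat_lit 0) (.cons (.ev (nat_lit 158767019019654830026246914050) (nat_lit 2)) .nil)) (.cons (.ev (nat_lit 20282720297587383441243483734273) (nat_lit 1)) .nil))) .nil)))) .nil)))),
 (.br (nat_lit 13) (nat_lit 0) (.cons (.rf (nat_lit 3439) (nat_lit 493858305440582043680)) (.cons (.br (nat_lit 5) (nat_lit 0) (.cons (.ev (nat_lit 309489750634854586567884801) (nat_lit 1)) (.cons (.br (nat_lit 4) (nat_lit 1) (.cons (.br (nat_lit 7) (nat_lit 0) (.cons (.ev (nat_lit 158769441538176191450847576834) (nat_lit 2)) .nil)) (.cons (.br (nat_lit 2) (nat_lit 0) (.cons (.ev (nat_lit 1208944266359806707695873) (nat_lit 1)) .nil)) .nil))) .nil))) (.cons (.br (nat_lit 10) (nat_lit 1) (.cons (.br (nat_lit 4) (nat_lit 1) (.cons (.ev (nat_lit 79229371440083953326542094593) (nat_lit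 1)) (.cons (.br (nat_lit 5) (nat_lit 0) (.cons (.ev (nat_lit 20837625730271381934061543424260) (nat_lit 3)) .nil)) .nil))) (.cons (.br (nat_lit 2) (nat_lit 0) (.cons (.ev (nat_lit 79229371440083953326542094593) (nat_lit 1)) (.cons (.ev (nat_lit 79229376180897179166073487361) (nat_lit 1)) .nil))) (.cons (.br (nat_lit 2) (nat_lit 0) (.cons (.ev (nat_lit 79229376162522492686418641153) (nat_lit 1)) (.cons (.br (nat_lit 5) (nat_lit 0) (.cons (.ev (nat_lit 79228167292043113589775532546) (nat_lit 2)) .nil)) .nil))) .nil)))) .nil)))),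
 (.br (nat_lit 13) (nat_lit 0) (.cons (.rf (nat_lit 3439) (nat_lit 493858305440582043680)) (.cons (.rf (nat_lit 3440) (nat_lit 493858305440582043680)) (.cons (.br (nat_lit 4) (nat_lit 1) (.cons (.ev (nat_lit 20521022560391026920547304866306) (nat_lit 2)) (.cons (.br (nat_lit 2) (nat_lit 0) (.cons (.ev (nat_lit 20282719088661492051594759438593) (nat_lit 1)) (.cons (.ev (nat_lit 79229371440083953326542094593) (nat_lit 1)) .nil))) (.cons (.br (nat_lit 2) (nat_lit 0) (.cons (.ev (nat_lit 79228162514336676666870399233) (nat_lit 1)) (.cons (.ev (nat_lit 20282720297587383441243483734273) (nat_lit 1)) .nil))) .nil)))) .nil)))),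
 (.br (nat_lit 9) (nat_lit 1) (.cons (.br (nat_lit 10) (nat_lit 1) (.cons (.rf (nat_lit 3433) (nat_lit 493858305440582043680)) (.cons (.rf (nat_lit 3436) (nat_lit 493858305440582043680)) (.cons (.br (nat_lit 10) (nat_lit 1) (.cons (.rf (nat_lit 3433) (nat_lit 493858305440582043680)) (.cons (.rf (nat_lit 3436) (nat_lit 493858305440582043680)) .nil))) .nil)))) (.cons (.br (nat_lit 10) (nat_lit 1) (.cons (.rf (nat_lit 3437) (nat_lit 493858305440582043680)) (.cons (.rf (nat_lit 3438) (nat_lit 493858305440582043680)) (.cons (.br (nat_lit 10) (nat_lit 1) (.cons (.rf (nat_lit 3437) (nat_lit 493858305440582043680)) (.cons (.rf (nat_lit 3438) (nat_lit 493858305440582043680)) .nil))) .nil)))) (.cons (.br (nat_lit 13) (nat_lit 0) (.cons (.rf (nat_lit 3439) (nat_lit 493858305440582043680)) (.cons (.rf (nat_lit 3440) (nat_lit 493858305440582043680)) (.cons (.rf (nat_lit 3441) (nat_lit 493858305440582043680)) (.cons (.br (nat_lit 13) (nat_lit 0) (.cons (.rf (nat_lit 3439) (nat_lit 493858305440582043680))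 (.cons (.rf (nat_lit 3440) (nat_lit 493858305440582043680)) (.cons (.rf (nat_lit 3441) (nat_lit 493858305440582043680)) .nil)))) .nil))))) .nil)))),
 (.br (nat_lit 10) (nat_lit 1) (.cons (.br (nat_lit 8) (nat_lit 1) (.cons (.br (nat_lit 4) (nat_lit 1) (.cons (.br (nat_lit 6) (nat_lit 1) (.cons (.zr (nat_lit 2422574222166385118674944) (nat_lit 158765810056796766532840456193) (nat_lit 5) (nat_lit 11)) .nil)) .nil)) (.cons (.kr (nat_lit 4740813226943354765568) (nat_lit 1208925891672223229411328) (nat_lit 1) (nat_lit 0)) .nil))) .nil)),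
 (.br (nat_lit 6) (nat_lit 1) (.cons (.kr (nat_lit 79228162551157826840474681600) (nat_lit 20282409603651743044491242700800) (nat_lit 1) (nat_lit 0)) .nil)),
 (.br (nat_lit 10) (nat_lit 1) (.cons (.br (nat_lit 8) (nat_lit 1) (.cons (.br (nat_lit 4) (nat_lit 1) (.cons (.ev (nat_lit 79229371458602754994272796673) (nat_lit 1)) .nil)) (.cons (.br (nat_lit 2) (nat_lit 0) (.cons (.rf (nat_lit 3444) (nat_lit 493858305440582043680)) (.cons (.br (nat_lit 4) (nat_lit 1) (.cons (.ev (nat_lit 1213648186378978091663361) (nat_lit 1)) .nil)) .nil))) .nil))) (.cons (.br (nat_lit 7) (nat_lit 0) (.cons (.br (nat_lit 2) (nat_lit 0) (.cons (.ev (nat_lit 1213648186378978091663361) (nat_lit 1)) (.cons (.ev (nat_lit 18518801667764322561) (nat_lit 1)) .nil))) (.cons (.ev (nat_lit 79538861172343837755126579201) (nat_lit 1)) (.cons (.br (nat_lit 2) (nat_lit 0) (.cons (.ev (nat_lit 1208925891673327019294721) (nat_lit 1)) (.cons (.ev (nat_lit 4740813509517859946753) (nat_lit 1)) .nil))) .nil)))) .nil))),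
 (.br (nat_lit 8) (nat_lit 1) (.cons (.ev (nat_lit 20361637766184381506714033192961) (nat_lit 1)) .nil)),
 (.br (nat_lit 10) (nat_lit 1) (.cons (.rf (nat_lit 3445) (nat_lit 493858305440582043680)) (.cons (.br (nat_lit 6) (nat_lit 1) (.cons (.br (nat_lit 4) (nat_lit 1) (.cons (.ev (nat_lit 79228167236631103037694345473) (nat_lit 1)) (.cons (.br (nat_lit 2) (nat_lit 0) (.cons (.zr (nat_lit 237684487579686504226585838336) (nat_lit 310698658008568471763288065) (nat_lit 5) (nat_lit 0)) .nil)) .nil))) (.cons (.rf (nat_lit 3446) (nat_lit 493858305440582043680)) .nil))) .nil))),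
 (.br (nat_lit 9) (nat_lit 1) (.cons (.rf (nat_lit 3442) (nat_lit 493858305440582043680)) (.cons (.br (nat_lit 10) (nat_lit 1) (.cons (.rf (nat_lit 3443) (nat_lit 493858305440582043680)) (.cons (.br (nat_lit 10) (nat_lit 1) (.cons (.rf (nat_lit 3443) (nat_lit 493858305440582043680)) .nil)) .nil))) (.cons (.br (nat_lit 10) (nat_lit 1) (.cons (.rf (nat_lit 3445) (nat_lit 493858305440582043680)) (.cons (.rf (nat_lit 3447) (nat_lit 493858305440582043680)) (.cons (.br (nat_lit 10) (nat_lit 1) (.cons (.rf (nat_lit 3445) (nat_lit 493858305440582043680)) (.cons (.rf (nat_lit 3447) (nat_lit 493858305440582043680)) .nil))) .nil)))) .nil)))),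
 (.br (nat_lit 10) (nat_lit 1) (.cons (.br (nat_lit 6) (nat_lit 1) (.cons (.ev (nat_lit 79537652246452448106402283521) (nat_lit 1)) (.cons (.br (nat_lit 8) (nat_lit 1) (.cons (.ev (nat_lit 79538856468424381533696033025) (nat_lit 1)) (.cons (.ev (nat_lit 40564820430414922830187476287746) (nat_lit 2)) .nil))) .nil))) (.cons (.br (nat_lit 8) (nat_lit 1) (.cons (.br (nat_lit 5) (nat_lit 0) (.cons (.ev (nat_lit 4740813228047178203393) (nat_lit 1)) (.cons (.ev (nat_lit 79229371440084234797223837953) (nat_lit 1)) .nil))) (.cons (.kr (nat_lit 4740813226943354765568) (nat_lit 1208925891672223229411328) (nat_lit 1) (nat_lit 0)) (.cons (.br (nat_lit 4) (nat_lit 1) (.cons (.ev (nat_lit 79229376162522492686418641153) (nat_lit 1)) (.cons (.br (nat_lit 2) (nat_lit 0) (.cons (.ev (nat_lit 1213648186378978091663361) (nat_lit 1)) .nil)) .nil))) .nil)))) .nil))),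
 (.br (nat_lit 6) (nat_lit 1) (.cons (.ev (nat_lit 79537652246452448106402283521) (nat_lit 1)) (.cons (.br (nat_lit 10) (nat_lit 1) (.cons (.rf (nat_lit 3449) (nat_lit 493858305440582043680)) (.cons (.br (nat_lit 8) (nat_lit 1) (.cons (.br (nat_lit 4) (nat_lit 1) (.cons (.ev (nat_lit 1213666704901374231052546) (nat_lit 2)) .nil)) .nil)) .nil))) .nil))),
 (.br (nat_lit 9) (nat_lit 1) (.cons (.rf (nat_lit 3442) (nat_lit 493858305440582043680)) (.cons (.rf (nat_lit 3448) (nat_lit 493858305440582043680)) (.cons (.br (nat_lit 10) (nat_lit 1) (.cons (.rf (nat_lit 3449) (nat_lit 493858305440582043680)) (.cons (.rf (nat_lit 3450) (nat_lit 493858305440582043680)) (.cons (.br (nat_lit 10) (nat_lit 1) (.cons (.rf (nat_lit 3449) (nat_lit 493858305440582043680)) (.cons (.rf (nat_lit 3450) (nat_lit 493858305440582043680)) .nil))) .nil)))) .nil)))),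
 (.br (nat_lit 6) (nat_lit 1) (.cons (.kr (nat_lit 79228162551157826840474681600) (nat_lit 20282409603651743044491242700800) (nat_lit 1) (nat_lit 0)) .nil)),
 (.br (nat_lit 10) (nat_lit 1) (.cons (.br (nat_lit 8) (nat_lit 1) (.cons (.br (nat_lit 4) (nat_lit 1) (.cons (.br (nat_lit 6) (nat_lit 1) (.cons (.ev (nat_lit 20679169414614088602387386664708) (nat_lit 3)) .nil)) .nil)) (.cons (.br (nat_lit 13) (nat_lit 0) (.cons (.br (nat_lit 6) (nat_lit 1) (.cons (.ev (nat_lit 20837014013696265262782013048068) (nat_lit 3)) .nil)) (.cons (.br (nat_lit 4) (nat_lit 1) (.cons (.zr (nat_lit 237684487579686504226585838336) (nat_lit 310698658008568471763288065) (nat_lit 5) (nat_lit 0)) .nil)) .nil))) .nil))) (.cons (.br (nat_lit 8) (nat_lit 1) (.cons (.br (nat_lit 13) (nat_lit 0) (.cons (.rf (nat_lit 3452) (nat_lit 493858305440582043680)) (.cons (.br (nat_lit 4) (nat_lit 1) (.cons (.ev (nat_lit 20362256764630818228308049069828) (nat_lit 3)) .nil)) .nil))) (.cons (.br (nat_lit 4) (nat_lit 1) (.cons (.br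 (nat_lit 6) (nat_lit 1) (.cons (.ev (nat_lit 20838251934919872809375029593348) (nat_lit 3)) .nil)) .nil)) .nil))) .nil))),
 (.br (nat_lit 10) (nat_lit 1) (.cons (.rf (nat_lit 3453) (nat_lit 493858305440582043680)) (.cons (.br (nat_lit 6) (nat_lit 1) (.cons (.br (nat_lit 8) (nat_lit 1) (.cons (.ev (nat_lit 79228162532783420736284917761) (nat_lit 1)) (.cons (.br (nat_lit 4) (nat_lit 1) (.cons (.zr (nat_lit 238303457562652441948683501568) (nat_lit 1213721973073810854772737) (nat_lit 5) (nat_lit 0)) .nil)) .nil))) (.cons (.br (nat_lit 4) (nat_lit 1) (.cons (.ev (nat_lit 310698658152404392509243650) (nat_lit 2)) (.cons (.ev (nat_lit 20282409608374108964415246172161) (nat_lit 1)) .nil))) (.cons (.br (nat_lit 7) (nat_lit 0) (.cons (.zr (nat_lit 237684487542865073673204662784) (nat_lit 1213648186660457380052993) (nat_lit 5) (nat_lit 0)) (.cons (.br (nat_lit 4) (nat_lit 1) (.cons (.ev (nat_lit 20837625739605723789427055462148) (nat_lit 3)) .nil)) .nil))) .nil)))) .nil)))]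

theorem c121 : chkAll C T R L121 (nat_lit 3427) = true := by decide +kernel

theorem l121 : (nat_lit 3427) + L121.length = (nat_lit 3455) := by decide +kernel

/-- part of the certificates -/
def L122 : List Prf := [(.br (nat_lit 10) (nat_lit 1) (.cons (.br (nat_lit 6) (nat_lit 1) (.cons (.ev (nat_lit 79537652246452448106402283521) (nat_lit 1)) (.cons (.br (nat_lit 8) (nat_lit 1) (.cons (.br (nat_lit 13) (nat_lit 0) (.cons (.ev (nat_lit 1208944266359806707695873) (nat_lit 1)) .nil)) (.cons (.br (nat_lit 7) (nat_lit 0) (.cons (.ev (nat_lit 1208944266359806707695873) (nat_lit 1)) .nil)) .nil))) .nil))) (.cons (.br (nat_lit 8) (nat_lit 1) (.cons (.br (nat_lit 4) (nat_lit 1) (.cons (.br (nat_lit 6) (nat_lit 1) (.cons (.ev (nat_lit 20837625730271381934061543424260) (nat_lit 3)) .nil)) .nil)) (.cons (.br (nat_lit 6) (nat_lit 1) (.cons (.ev (nat_lit 4740813509517859946753) (nat_lit 1)) (.cons (.ev (nat_lit 20361947255916641672621889487105) (nat_lit 1)) .nil))) .nil))) (.cons (.br (nat_lit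 5) (nat_lit 0) (.cons (.ev (nat_lit 79229371440083953326542094593) (nat_lit 1)) (.cons (.br (nat_lit 13) (nat_lit 0) (.cons (.ev (nat_lit 79538856449905298395250032641) (nat_lit 1)) (.cons (.ev (nat_lit 4740813509517859946753) (nat_lit 1)) .nil))) (.cons (.br (nat_lit 13) (nat_lit 0) (.cons (.br (nat_lit 6) (nat_lit 1) (.cons (.ev (nat_lit 20837625730271381934061543424260) (nat_lit 3)) .nil)) (.cons (.ev (nat_lit 40565129910739055290326366355970) (nat_lit 2)) .nil))) .nil)))) .nil)))),
 (.br (nat_lit 10) (nat_lit 1) (.cons (.rf (nat_lit 3455) (nat_lit 493858305440582043680)) (.cons (.br (nat_lit 8) (nat_lit 1) (.cons (.ev (nat_lit 79229376180897179166073487361) (nat_lit 1)) (.cons (.br (nat_lit 4) (nat_lit 1) (.cons (.br (nat_lit 13) (nat_lit 0) (.cons (.ev (nat_lit 158769441538176191450847576834) (nat_lit 2)) .nil)) (.cons (.br (nat_lit 6) (nat_lit 1) (.cons (.zr (nat_lit 311902861460855810641035264) (nat_lit 4777706715090790646273) (nat_lit 5) (nat_lit 9)) .nil)) .nil))) .nil))) (.cons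 (.br (nat_lit 4) (nat_lit 1) (.cons (.ev (nat_lit 79229371440083953326542094593) (nat_lit 1)) (.cons (.br (nat_lit 2) (nat_lit 0) (.cons (.zr (nat_lit 79229371440156010916268343808) (nat_lit 618974742009735957064974337) (nat_lit 5) (nat_lit 0)) (.cons (.br (nat_lit 13) (nat_lit 0) (.cons (.ev (nat_lit 310693990982039651116712450) (nat_lit 2)) .nil)) .nil))) (.cons (.br (nat_lit 7) (nat_lit 0) (.cons (.ev (nat_lit 79537652246452448106402283521) (nat_lit 1)) (.cons (.br (nat_lit 2) (nat_lit 0) (.cons (.zr (nat_lit 2417888532717414358647552) (nat_lit 1237944761652989044467957761) (nat_lit 5) (nat_lit 0)) .nil)) .nil))) .nil)))) .nil)))),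
 (.br (nat_lit 10) (nat_lit 1) (.cons (.rf (nat_lit 3455) (nat_lit 493858305440582043680)) (.cons (.rf (nat_lit 3456) (nat_lit 493858305440582043680)) (.cons (.br (nat_lit 13) (nat_lit 0) (.cons (.br (nat_lit 2) (nat_lit 0) (.cons (.br (nat_lit 5) (nat_lit 0) (.cons (.zr (nat_lit 2417888532717414358647552) (nat_lit 1237944761652989044467957761) (nat_lit 5) (nat_lit 0)) .nil)) (.cons (.br (nat_lit 6) (nat_lit 1) (.cons (.ev (nat_lit 21473929375613737718314334618888) (nat_lit 4)) .nil)) .nil))) (.cons (.ev (nat_lit 1213648258436567851335681) (nat_lit 1)) (.cons (.br (nat_lit 4) (nat_lit 1) (.cons (.br (nat_lit 6) (nat_lit 1) (.cons (.ev (nat_lit 158769441538176191450847576834) (nat_lit 2)) .nil)) (.cons (.br (nat_lit 6) (nat_lit 1) (.cons (.zr (nat_lit 311902861460855810641035264) (nat_lit 4777706715090790646273) (nat_lit 5) (nat_lit 9)) .nil)) .nil))) .nil)))) .nil)))),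
 (.br (nat_lit 4) (nat_lit 1) (.cons (.br (nat_lit 10) (nat_lit 1) (.cons (.br (nat_lit 6) (nat_lit 1) (.cons (.br (nat_lit 13) (nat_lit 0) (.cons (.ev (nat_lit 309489750634854586567884801) (nat_lit 1)) .nil)) (.cons (.rf (nat_lit 2922) (nat_lit 457857653653567244512)) .nil))) (.cons (.ev (nat_lit 79229371440083953326542094593) (nat_lit 1)) .nil))) (.cons (.br (nat_lit 10) (nat_lit 1) (.cons (.br (nat_lit 13) (nat_lit 0) (.cons (.ev (nat_lit 79537652246452448106402283521) (nat_lit 1)) (.cons (.ev (nat_lit 1208944266359806707695873) (nat_lit 1)) .nil))) (.cons (.br (nat_lit 5) (nat_lit 0) (.cons (.ev (nat_lit 79538856449905298395250032641) (nat_lit 1)) (.cons (.br (nat_lit 13) (nat_lit 0) (.cons (.ev (nat_lit 79230585125308217110844014850) (nat_lit 2)) .nil)) .nil))) (.cons (.br (nat_lit 5) (nat_lit 0) (.cons (.br (nat_lit 7) (nat_lit 0) (.cons (.ev (nat_lit 4740813509517859946753) (nat_lit 1)) .nil)) (.cons (.ev (nat_lit 40644047374576865157608934211842) (nat_lit 2)) .nil))) .nil))))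 (.cons (.br (nat_lit 6) (nat_lit 1) (.cons (.br (nat_lit 8) (nat_lit 1) (.cons (.ev (nat_lit 4740813509517859946753) (nat_lit 1)) .nil)) (.cons (.br (nat_lit 5) (nat_lit 0) (.cons (.br (nat_lit 10) (nat_lit 1) (.cons (.ev (nat_lit 20520096509120250498707395773700) (nat_lit 3)) .nil)) (.cons (.br (nat_lit 8) (nat_lit 1) (.cons (.ev (nat_lit 1208944266359806707695873) (nat_lit 1)) .nil)) .nil))) .nil))) .nil)))),
 (.br (nat_lit 6) (nat_lit 1) (.cons (.br (nat_lit 10) (nat_lit 1) (.cons (.br (nat_lit 7) (nat_lit 0) (.cons (.ev (nat_lit 79228167236703160636010397953) (nat_lit 1)) (.cons (.ev (nat_lit 79228162532783420736284917761) (nat_lit 1)) .nil))) (.cons (.ev (nat_lit 20361637766165935044115300417793) (nat_lit 1)) .nil))) (.cons (.br (nat_lit 2) (nat_lit 0) (.cons (.br (nat_lit 10) (nat_lit 1) (.cons (.br (nat_lit 8) (nat_lit 1) (.cons (.ev (nat_lit 20678552834112030926843670627588) (nat_lit 3)) .nil)) (.cons (.ev (nat_lit 79229371440083953326542094593) (nat_lit 1)) .nil))) (.cons (.br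 (nat_lit 10) (nat_lit 1) (.cons (.br (nat_lit 13) (nat_lit 0) (.cons (.ev (nat_lit 20361645029239878491080550188804) (nat_lit 3)) .nil)) (.cons (.ev (nat_lit 79229376180897179166073487361) (nat_lit 1)) .nil))) (.cons (.rf (nat_lit 3458) (nat_lit 493858305440582043680)) .nil)))) (.cons (.ev (nat_lit 79537652246452448106402283521) (nat_lit 1)) .nil)))),
 (.br (nat_lit 10) (nat_lit 1) (.cons (.rf (nat_lit 3458) (nat_lit 493858305440582043680)) (.cons (.rf (nat_lit 3459) (nat_lit 493858305440582043680)) (.cons (.br (nat_lit 8) (nat_lit 1) (.cons (.ev (nat_lit 20282410812577490038576426057729) (nat_lit 1)) (.cons (.br (nat_lit 4) (nat_lit 1) (.cons (.ev (nat_lit 20440865928735539334666937959170) (nat_lit 2)) (.cons (.ev (nat_lit 40644047374576865157608934211842) (nat_lit 2)) .nil))) (.cons (.br (nat_lit 6) (nat_lit 1) (.cons (.ev (nat_lit 79228162532783420736284917761) (nat_lit 1)) (.cons (.ev (nat_lit 20282409608374109245885927915521) (nat_lit 1)) .nil))) .nil)))) .nil)))),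
 (.br (nat_lit 9) (nat_lit 1) (.cons (.br (nat_lit 10) (nat_lit 1) (.cons (.rf (nat_lit 3453) (nat_lit 493858305440582043680)) (.cons (.rf (nat_lit 3454) (nat_lit 493858305440582043680)) (.cons (.br (nat_lit 10) (nat_lit 1) (.cons (.rf (nat_lit 3453) (nat_lit 493858305440582043680)) (.cons (.rf (nat_lit 3454) (nat_lit 493858305440582043680)) .nil))) .nil)))) (.cons (.br (nat_lit 10) (nat_lit 1) (.cons (.rf (nat_lit 3455) (nat_lit 493858305440582043680)) (.cons (.rf (nat_lit 3456) (nat_lit 493858305440582043680)) (.cons (.rf (nat_lit 3457) (nat_lit 493858305440582043680)) (.cons (.br (nat_lit 10) (nat_lit 1) (.cons (.rf (nat_lit 3455) (nat_lit 493858305440582043680)) (.cons (.rf (nat_lit 3456) (nat_lit 493858305440582043680)) (.cons (.rf (nat_lit 3457) (nat_lit 493858305440582043680)) .nil)))) .nil))))) (.cons (.br (nat_lit 10) (nat_lit 1) (.cons (.rf (nat_lit 3458) (nat_lit 493858305440582043680)) (.cons (.rf (nat_lit 3459) (nat_lit 493858305440582043680)) (.cons (.rf (nat_lit 3460)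 (nat_lit 493858305440582043680)) (.cons (.br (nat_lit 10) (nat_lit 1) (.cons (.rf (nat_lit 3458) (nat_lit 493858305440582043680)) (.cons (.rf (nat_lit 3459) (nat_lit 493858305440582043680)) (.cons (.rf (nat_lit 3460) (nat_lit 493858305440582043680)) .nil)))) .nil))))) .nil)))),
 (.br (nat_lit 6) (nat_lit 1) (.cons (.br (nat_lit 8) (nat_lit 1) (.cons (.kr (nat_lit 79228162551157826840474681600) (nat_lit 20282409603651743044491242700800) (nat_lit 1) (nat_lit 0)) .nil)) .nil)),
 (.br (nat_lit 10) (nat_lit 1) (.cons (.br (nat_lit 4) (nat_lit 1) (.cons (.rf (nat_lit 3462) (nat_lit 493858305440582043680)) (.cons (.br (nat_lit 8) (nat_lit 1) (.cons (.ev (nat_lit 310698658079500165877661953) (nat_lit 1)) (.cons (.br (nat_lit 2) (nat_lit 0) (.cons (.ev (nat_lit 4740813509517859946753) (nat_lit 1)) .nil)) .nil))) .nil))) (.cons (.br (nat_lit 13) (nat_lit 0) (.cons (.br (nat_lit 2) (nat_lit 0) (.cons (.ev (nat_lit 1213648186378978091663361) (nat_lit 1)) (.cons (.ev (nat_lit 20361638975110201120243679559681)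 (nat_lit 1)) .nil))) (.cons (.ev (nat_lit 20282719093383858251885638058241) (nat_lit 1)) (.cons (.br (nat_lit 2) (nat_lit 0) (.cons (.ev (nat_lit 20361637766165934762644618674433) (nat_lit 1)) (.cons (.ev (nat_lit 4740813509517859946753) (nat_lit 1)) .nil))) .nil)))) .nil))),
 (.br (nat_lit 2) (nat_lit 0) (.cons (.kr (nat_lit 79228162551157826840474681600) (nat_lit 20282409603651743044491242700800) (nat_lit 1) (nat_lit 0)) .nil)),
 (.br (nat_lit 10) (nat_lit 1) (.cons (.rf (nat_lit 3463) (nat_lit 493858305440582043680)) (.cons (.br (nat_lit 6) (nat_lit 1) (.cons (.br (nat_lit 4) (nat_lit 1) (.cons (.br (nat_lit 13) (nat_lit 0) (.cons (.ev (nat_lit 79229376180897460645345165313) (nat_lit 1)) .nil)) (.cons (.rf (nat_lit 3464) (nat_lit 493858305440582043680)) .nil))) (.cons (.ev (nat_lit 20282719093383858251885638058241) (nat_lit 1)) .nil))) .nil))),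
 (.br (nat_lit 7) (nat_lit 0) (.cons (.br (nat_lit 12) (nat_lit 0) (.cons (.kr (nat_lit 80156617543728373899229921536) (nat_lit 9444805586283281842176) (nat_lit 1) (nat_lit 0)) .nil)) .nil)),
 (.br (nat_lit 10) (nat_lit 1) (.cons (.kr (nat_lit 20520094091194463437827394765056) (nat_lit 9444805586283281842176) (nat_lit 1) (nat_lit 0)) .nil)),
 (.br (nat_lit 2) (nat_lit 0) (.cons (.br (nat_lit 13) (nat_lit 0) (.cons (.br (nat_lit 7) (nat_lit 0) (.cons (.zr (nat_lit 238303457562652441948683501568) (nat_lit 1213721973073810854772737) (nat_lit 5) (nat_lit 0)) .nil)) (.cons (.ev (nat_lit 1213648186378978091663361) (nat_lit 1)) .nil))) (.cons (.br (nat_lit 7) (nat_lit 0) (.cons (.rf (nat_lit 3467) (nat_lit 493858305440582043680)) (.cons (.br (nat_lit 6) (nat_lit 1) (.cons (.zr (nat_lit 237684487542865073673204662784) (nat_lit 1213648186660457380052993) (nat_lit 5) (nat_lit 0)) .nil)) .nil))) .nil))),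
 (.br (nat_lit 8) (nat_lit 1) (.cons (.br (nat_lit 2) (nat_lit 0) (.cons (.kr (nat_lit 79228162551157826840474681600) (nat_lit 20282409603651743044491242700800) (nat_lit 1) (nat_lit 0)) .nil)) .nil)),
 (.br (nat_lit 9) (nat_lit 1) (.cons (.rf (nat_lit 3461) (nat_lit 493858305440582043680)) (.cons (.br (nat_lit 10) (nat_lit 1) (.cons (.rf (nat_lit 3463) (nat_lit 493858305440582043680)) (.cons (.rf (nat_lit 3465) (nat_lit 493858305440582043680)) (.cons (.br (nat_lit 10) (nat_lit 1) (.cons (.rf (nat_lit 3463) (nat_lit 493858305440582043680)) (.cons (.rf (nat_lit 3465) (nat_lit 493858305440582043680)) .nil))) .nil)))) (.cons (.br (nat_lit 4) (nat_lit 1) (.cons (.br (nat_lit 6) (nat_lit 1) (.cons (.ev (nat_lit 79228167236631103037694345473) (nat_lit 1)) (.cons (.br (nat_lit 2) (nat_lit 0) (.cons (.rf (nat_lit 3466) (nat_lit 15433035725666355232)) (.cons (.br (nat_lit 7) (nat_lit 0) (.cons (.kr (nat_lit 158456325046975420360309080320) (nat_lit 4722439103413636628480) (nat_lit 1) (nat_lit 0))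 (.cons (.ev (nat_lit 310698658079781636559405313) (nat_lit 1)) .nil))) .nil))) (.cons (.br (nat_lit 7) (nat_lit 0) (.cons (.br (nat_lit 7) (nat_lit 0) (.cons (.br (nat_lit 10) (nat_lit 1) (.cons (.ev (nat_lit 79229371440156292395539890433) (nat_lit 1)) .nil)) .nil)) (.cons (.br (nat_lit 10) (nat_lit 1) (.cons (.ev (nat_lit 20282410812577490320055697735681) (nat_lit 1)) .nil)) .nil))) .nil)))) (.cons (.br (nat_lit 10) (nat_lit 1) (.cons (.rf (nat_lit 3468) (nat_lit 493858305440582043680)) (.cons (.br (nat_lit 10) (nat_lit 1) (.cons (.rf (nat_lit 3468) (nat_lit 493858305440582043680)) (.cons (.rf (nat_lit 3469) (nat_lit 493858305440582043680)) .nil))) (.cons (.br (nat_lit 10) (nat_lit 1) (.cons (.rf (nat_lit 3468) (nat_lit 493858305440582043680)) (.cons (.rf (nat_lit 3469) (nat_lit 493858305440582043680)) .nil))) .nil)))) (.cons (.kr (nat_lit 4722366482869645213696) (nat_lit 20282409603651670423947251286016) (nat_lit 9) (nat_lit 0)) .nil)))) .nil)))),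
 (.br (nat_lit 7) (nat_lit 0) (.cons (.ev (nat_lit 72057598349672449) (nat_lit 1)) (.cons (.br (nat_lit 5) (nat_lit 0) (.cons (.ev (nat_lit 79228167236702879156738720001) (nat_lit 1)) (.cons (.br (nat_lit 6) (nat_lit 1) (.cons (.br (nat_lit 13) (nat_lit 0) (.cons (.ev (nat_lit 79229376180897460645345165313) (nat_lit 1)) .nil)) (.cons (.br (nat_lit 2) (nat_lit 0) (.cons (.ev (nat_lit 20837642645715204678909850225928) (nat_lit 4)) .nil)) .nil))) .nil))) (.cons (.br (nat_lit 5) (nat_lit 0) (.cons (.br (nat_lit 13) (nat_lit 0) (.cons (.br (nat_lit 10) (nat_lit 1) (.cons (.zr (nat_lit 238303457562436269166569914368) (nat_lit 1213721973073798020202497) (nat_lit 5) (nat_lit 0)) .nil)) (.cons (.br (nat_lit 2) (nat_lit 0) (.cons (.ev (nat_lit 1208944266641277389439233) (nat_lit 1)) .nil)) .nil))) (.cons (.ev (nat_lit 79228167236630823774659281666) (nat_lit 2)) (.cons (.br (nat_lit 6) (nat_lit 1) (.cons (.br (nat_lit 8) (nat_lit 1) (.cons (.ev (nat_lit 79229376180897460645345165313) (nat_lit 1))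 .nil)) (.cons (.br (nat_lit 2) (nat_lit 0) (.cons (.ev (nat_lit 20999808002455474604414314679048) (nat_lit 4)) .nil)) .nil))) .nil)))) .nil)))),
 (.br (nat_lit 2) (nat_lit 0) (.cons (.rf (nat_lit 3471) (nat_lit 493858305440582043680)) (.cons (.br (nat_lit 5) (nat_lit 0) (.cons (.br (nat_lit 13) (nat_lit 0) (.cons (.br (nat_lit 10) (nat_lit 1) (.cons (.ev (nat_lit 1213648258436567851335681) (nat_lit 1)) .nil)) .nil)) (.cons (.br (nat_lit 10) (nat_lit 1) (.cons (.br (nat_lit 13) (nat_lit 0) (.cons (.ev (nat_lit 158769441538175347021622477570) (nat_lit 2)) .nil)) (.cons (.ev (nat_lit 79229371440084234797223837953) (nat_lit 1)) .nil))) .nil))) (.cons (.br (nat_lit 5) (nat_lit 0) (.cons (.br (nat_lit 13) (nat_lit 0) (.cons (.ev (nat_lit 309489750634854586567884801) (nat_lit 1)) (.cons (.ev (nat_lit 1213648186378978091663361) (nat_lit 1)) .nil))) (.cons (.br (nat_lit 10) (nat_lit 1) (.cons (.br (nat_lit 4) (nat_lit 1) (.cons (.ev (nat_lit 79229371440156292395539890433) (nat_lit 1)) .nil))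 (.cons (.kr (nat_lit 4740813226943354765312) (nat_lit 20361637766165934761540795236352) (nat_lit 8) (nat_lit 0)) .nil))) (.cons (.br (nat_lit 4) (nat_lit 1) (.cons (.br (nat_lit 13) (nat_lit 0) (.cons (.zr (nat_lit 238303457562652441948683501568) (nat_lit 1213721973073810854772737) (nat_lit 5) (nat_lit 0)) .nil)) (.cons (.ev (nat_lit 1213648186378978091663361) (nat_lit 1)) .nil))) .nil)))) .nil)))),
 (.br (nat_lit 2) (nat_lit 0) (.cons (.rf (nat_lit 3471) (nat_lit 493858305440582043680)) (.cons (.rf (nat_lit 3472) (nat_lit 493858305440582043680)) (.cons (.br (nat_lit 4) (nat_lit 1) (.cons (.ev (nat_lit 4740813228047178203393) (nat_lit 1)) (.cons (.br (nat_lit 13) (nat_lit 0) (.cons (.br (nat_lit 5) (nat_lit 0) (.cons (.ev (nat_lit 20837632964826442579984232417028) (nat_lit 3)) .nil)) (.cons (.br (nat_lit 6) (nat_lit 1) (.cons (.ev (nat_lit 79229371440084234797223837953) (nat_lit 1)) .nil)) .nil))) (.cons (.br (nat_lit 6) (nat_lit 1) (.cons (.ev (nat_lit 158765810038350864693678244610)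 (nat_lit 2)) (.cons (.ev (nat_lit 20441794397876762864428737691906) (nat_lit 2)) .nil))) .nil)))) .nil)))),
 (.br (nat_lit 9) (nat_lit 1) (.cons (.rf (nat_lit 3461) (nat_lit 493858305440582043680)) (.cons (.rf (nat_lit 3470) (nat_lit 493858305440582043680)) (.cons (.br (nat_lit 2) (nat_lit 0) (.cons (.rf (nat_lit 3471) (nat_lit 493858305440582043680)) (.cons (.rf (nat_lit 3472) (nat_lit 493858305440582043680)) (.cons (.rf (nat_lit 3473) (nat_lit 493858305440582043680)) (.cons (.br (nat_lit 2) (nat_lit 0) (.cons (.rf (nat_lit 3471) (nat_lit 493858305440582043680)) (.cons (.rf (nat_lit 3472) (nat_lit 493858305440582043680)) (.cons (.rf (nat_lit 3473) (nat_lit 493858305440582043680)) .nil)))) .nil))))) .nil)))),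
 (.br (nat_lit 11) (nat_lit 1) (.cons (.rf (nat_lit 3419) (nat_lit 493565395547242989600)) (.cons (.br (nat_lit 10) (nat_lit 1) (.cons (.rf (nat_lit 3427) (nat_lit 493858305440582043680)) (.cons (.rf (nat_lit 3430) (nat_lit 493858305440582043680)) (.cons (.br (nat_lit 10) (nat_lit 1) (.cons (.rf (nat_lit 3427) (nat_lit 493858305440582043680)) (.cons (.rf (nat_lit 3430) (nat_lit 493858305440582043680)) .nil))) .nil)))) (.cons (.br (nat_lit 9) (nat_lit 1) (.cons (.rf (nat_lit 3442) (nat_lit 493858305440582043680)) (.cons (.rf (nat_lit 3448) (nat_lit 493858305440582043680)) (.cons (.rf (nat_lit 3451) (nat_lit 493858305440582043680)) (.cons (.br (nat_lit 9) (nat_lit 1) (.cons (.rf (nat_lit 3442) (nat_lit 493858305440582043680)) (.cons (.rf (nat_lit 3448) (nat_lit 493858305440582043680)) (.cons (.rf (nat_lit 3451) (nat_lit 493858305440582043680)) .nil)))) .nil))))) (.cons (.br (nat_lit 9) (nat_lit 1) (.cons (.rf (nat_lit 3461) (nat_lit 493858305440582043680)) (.cons (.rf (nat_lit 3470) (nat_lit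 493858305440582043680)) (.cons (.rf (nat_lit 3474) (nat_lit 493858305440582043680)) (.cons (.br (nat_lit 9) (nat_lit 1) (.cons (.rf (nat_lit 3461) (nat_lit 493858305440582043680)) (.cons (.rf (nat_lit 3470) (nat_lit 493858305440582043680)) (.cons (.rf (nat_lit 3474) (nat_lit 493858305440582043680)) .nil)))) .nil))))) .nil)))))]

theorem c122 : chkAll C T R L122 (nat_lit 3455) = true := by decide +kernel

theorem l122 : (nat_lit 3455) + L122.length = (nat_lit 3476) := by decide +kernel

/-- part of the certificates -/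
def L123 : List Prf := [(.br (nat_lit 8) (nat_lit 1) (.cons (.br (nat_lit 10) (nat_lit 1) (.cons (.br (nat_lit 4) (nat_lit 1) (.cons (.br (nat_lit 6) (nat_lit 1) (.cons (.ev (nat_lit 20838247099142806248663652828420) (nat_lit 3)) .nil)) .nil)) .nil)) (.cons (.br (nat_lit 10) (nat_lit 1) (.cons (.rf (nat_lit 3431) (nat_lit 493786318215288293408)) (.cons (.br (nat_lit 6) (nat_lit 1) (.cons (.br (nat_lit 4) (nat_lit 1) (.cons (.ev (nat_lit 20680407335763906925300977960708) (nat_lit 3)) .nil)) (.cons (.rf (nat_lit 3432) (nat_lit 493786318215288293408)) .nil))) .nil))) .nil))),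
 (.br (nat_lit 10) (nat_lit 1) (.cons (.rf (nat_lit 3476) (nat_lit 493858305440582043680)) (.cons (.br (nat_lit 8) (nat_lit 1) (.cons (.ev (nat_lit 79229376180897180265585115393) (nat_lit 1)) (.cons (.br (nat_lit 4) (nat_lit 1) (.cons (.rf (nat_lit 3435) (nat_lit 493786318215288293408)) (.cons (.br (nat_lit 6) (nat_lit 1) (.cons (.ev (nat_lit 79537652246524505704752021505) (nat_lit 1)) .nil)) .nil))) .nil))) .nil))),
 (.br (nat_lit 8) (nat_lit 1) (.cons (.br (nat_lit 13) (nat_lit 0) (.cons (.kr (nat_lit 79228162551157826840474681600) (nat_lit 20282409603651743044491242700800) (nat_lit 1) (nat_lit 0)) .nil)) .nil)),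
 (.br (nat_lit 8) (nat_lit 1) (.cons (.kr (nat_lit 79228162551157826840474681600) (nat_lit 20282409603651743044491242700800) (nat_lit 1) (nat_lit 0)) .nil)),
 (.br (nat_lit 10) (nat_lit 1) (.cons (.br (nat_lit 4) (nat_lit 1) (.cons (.rf (nat_lit 3478) (nat_lit 493858305440582043680)) (.cons (.br (nat_lit 13) (nat_lit 0) (.cons (.br (nat_lit 8) (nat_lit 1) (.cons (.ev (nat_lit 20363494685780637677104367339268) (nat_lit 3)) .nil)) (.cons (.br (nat_lit 6) (nat_lit 1) (.cons (.ev (nat_lit 20837014013696265258383966535940) (nat_lit 3)) .nil)) .nil))) .nil))) (.cons (.br (nat_lit 6) (nat_lit 1) (.cons (.br (nat_lit 13) (nat_lit 0) (.cons (.rf (nat_lit 3479) (nat_lit 493858305440582043680)) (.cons (.br (nat_lit 7) (nat_lit 0) (.cons (.ev (nat_lit 20838251934919872813773076103428) (nat_lit 3)) .nil)) .nil))) (.cons (.br (nat_lit 8) (nat_lit 1) (.cons (.br (nat_lit 7) (nat_lit 0) (.cons (.ev (nat_lit 20680407335763908051183704934148) (nat_lit 3)) .nil)) .nil)) .nil))) .nil))),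
 (.br (nat_lit 10) (nat_lit 1) (.cons (.rf (nat_lit 3480) (nat_lit 493858305440582043680)) (.cons (.br (nat_lit 6) (nat_lit 1) (.cons (.br (nat_lit 7) (nat_lit 0) (.cons (.zr (nat_lit 237684487542865072573693035264) (nat_lit 1213648186660457380052993) (nat_lit 5) (nat_lit 0)) (.cons (.ev (nat_lit 79228162532783420736284917761) (nat_lit 1)) .nil))) (.cons (.br (nat_lit 4) (nat_lit 1) (.cons (.ev (nat_lit 158767023686680516629643854594) (nat_lit 2)) (.cons (.ev (nat_lit 20282409608374108965514757800193) (nat_lit 1)) .nil))) (.cons (.br (nat_lit 2) (nat_lit 0) (.cons (.br (nat_lit 7) (nat_lit 0) (.cons (.ev (nat_lit 20521951010772272864144036136708) (nat_lit 3)) .nil)) (.cons (.br (nat_lit 7) (nat_lit 0) (.cons (.zr (nat_lit 238303457562652438650148619008) (nat_lit 1213721973073810854772737) (nat_lit 5) (nat_lit 0)) .nil)) .nil))) .nil)))) .nil))),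
 (.br (nat_lit 9) (nat_lit 1) (.cons (.rf (nat_lit 3419) (nat_lit 493675700753833166880)) (.cons (.br (nat_lit 10) (nat_lit 1) (.cons (.rf (nat_lit 3476) (nat_lit 493858305440582043680)) (.cons (.rf (nat_lit 3477) (nat_lit 493858305440582043680)) (.cons (.br (nat_lit 10) (nat_lit 1) (.cons (.rf (nat_lit 3476) (nat_lit 493858305440582043680)) (.cons (.rf (nat_lit 3477) (nat_lit 493858305440582043680)) .nil))) .nil)))) (.cons (.br (nat_lit 10) (nat_lit 1) (.cons (.rf (nat_lit 3480) (nat_lit 493858305440582043680)) (.cons (.rf (nat_lit 3481) (nat_lit 493858305440582043680)) (.cons (.br (nat_lit 10) (nat_lit 1) (.cons (.rf (nat_lit 3480) (nat_lit 493858305440582043680)) (.cons (.rf (nat_lit 3481) (nat_lit 493858305440582043680)) .nil))) .nil)))) .nil)))),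
 (.br (nat_lit 4) (nat_lit 1) (.cons (.br (nat_lit 8) (nat_lit 1) (.cons (.br (nat_lit 10) (nat_lit 1) (.cons (.ev (nat_lit 1208944266358707196067841) (nat_lit 1)) .nil)) .nil)) (.cons (.br (nat_lit 7) (nat_lit 0) (.cons (.br (nat_lit 13) (nat_lit 0) (.cons (.ev (nat_lit 1208944266358707196067841) (nat_lit 1)) .nil)) (.cons (.br (nat_lit 8) (nat_lit 1) (.cons (.ev (nat_lit 1208944266358707196067841) (nat_lit 1)) .nil)) .nil))) .nil))),
 (.br (nat_lit 6) (nat_lit 1) (.cons (.ev (nat_lit 79537652246452447006890656001) (nat_lit 1)) (.cons (.rf (nat_lit 3483) (nat_lit 493858305440582043680)) .nil))),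
 (.br (nat_lit 4) (nat_lit 1) (.cons (.ev (nat_lit 309485009893402667057742081) (nat_lit 1)) (.cons (.br (nat_lit 10) (nat_lit 1) (.cons (.rf (nat_lit 3484) (nat_lit 14242959524133701664)) (.cons (.br (nat_lit 13) (nat_lit 0) (.cons (.ev (nat_lit 1213648258436567851335681) (nat_lit 1)) (.cons (.br (nat_lit 1) (nat_lit 0) (.cons (.zr (nat_lit 79849550385546538472909570816) (nat_lit 9518519942034145542145) (nat_lit 5) (nat_lit 3)) .nil)) .nil))) .nil))) .nil))),
 (.br (nat_lit 6) (nat_lit 1) (.cons (.br (nat_lit 8) (nat_lit 1) (.cons (.br (nat_lit 4) (nat_lit 1) (.cons (.br (nat_lit 13) (nat_lit 0) (.cons (.ev (nat_lit 1208944266358707196067841) (nat_lit 1)) .nil)) .nil)) (.cons (.br (nat_lit 4) (nat_lit 1) (.cons (.br (nat_lit 13) (nat_lit 0) (.cons (.ev (nat_lit 1208944266358707196067841) (nat_lit 1)) .nil)) (.cons (.br (nat_lit 7) (nat_lit 0) (.cons (.ev (nat_lit 1208944266358707196067841) (nat_lit 1)) .nil)) .nil))) .nil))) (.cons (.ev (nat_lit 79537652246452447006890656001) (nat_lit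 1)) .nil))),
 (.br (nat_lit 10) (nat_lit 1) (.cons (.rf (nat_lit 3486) (nat_lit 493858305440582043680)) (.cons (.br (nat_lit 8) (nat_lit 1) (.cons (.br (nat_lit 13) (nat_lit 0) (.cons (.ev (nat_lit 1208944266358707196067841) (nat_lit 1)) (.cons (.br (nat_lit 4) (nat_lit 1) (.cons (.ev (nat_lit 20838866088052060113575212024068) (nat_lit 3)) .nil)) .nil))) (.cons (.br (nat_lit 6) (nat_lit 1) (.cons (.ev (nat_lit 309485009893684137739485441) (nat_lit 1)) (.cons (.ev (nat_lit 20361947255916641673721401114625) (nat_lit 1)) .nil))) (.cons (.ev (nat_lit 20282410812577490038576426057729) (nat_lit 1)) .nil)))) .nil))),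
 (.br (nat_lit 9) (nat_lit 1) (.cons (.rf (nat_lit 3419) (nat_lit 493675700753833166880)) (.cons (.br (nat_lit 10) (nat_lit 1) (.cons (.rf (nat_lit 3484) (nat_lit 14242959524133701664)) (.cons (.rf (nat_lit 3485) (nat_lit 493858305440582043680)) (.cons (.br (nat_lit 10) (nat_lit 1) (.cons (.rf (nat_lit 3484) (nat_lit 14242959524133701664)) (.cons (.rf (nat_lit 3485) (nat_lit 493858305440582043680)) .nil))) .nil)))) (.cons (.br (nat_lit 10) (nat_lit 1) (.cons (.rf (nat_lit 3486) (nat_lit 493858305440582043680)) (.cons (.rf (nat_lit 3487) (nat_lit 493858305440582043680)) (.cons (.br (nat_lit 10) (nat_lit 1) (.cons (.rf (nat_lit 3486) (nat_lit 493858305440582043680)) (.cons (.rf (nat_lit 3487) (nat_lit 493858305440582043680)) .nil))) .nil)))) .nil)))),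
 (.br (nat_lit 13) (nat_lit 0) (.cons (.br (nat_lit 7) (nat_lit 0) (.cons (.br (nat_lit 1) (nat_lit 0) (.cons (.br (nat_lit 10) (nat_lit 1) (.cons (.ev (nat_lit 20838863660829474899253344142596) (nat_lit 3)) .nil)) .nil)) (.cons (.br (nat_lit 10) (nat_lit 1) (.cons (.ev (nat_lit 20361948464823942205212146532353) (nat_lit 1)) (.cons (.ev (nat_lit 1213648258436567851335681) (nat_lit 1)) .nil))) .nil))) (.cons (.br (nat_lit 2) (nat_lit 0) (.cons (.br (nat_lit 7) (nat_lit 0) (.cons (.br (nat_lit 10) (nat_lit 1) (.cons (.ev (nat_lit 22738514092998735723611170478864) (nat_lit 5)) .nil)) .nil)) (.cons (.br (nat_lit 1) (nat_lit 0) (.cons (.br (nat_lit 7) (nat_lit 0) (.cons (.ev (nat_lit 22738499642557301520282436442896) (nat_lit 5)) .nil)) (.cons (.rf (nat_lit 3419) (nat_lit 493563215216757770272)) .nil))) .nil))) (.cons (.br (nat_lit 2) (nat_lit 0) (.cons (.br (nat_lit 10) (nat_lit 1) (.cons (.ev (nat_lit 1213648186380077603291393) (nat_lit 1)) (.cons (.ev (nat_lit 1213648258436567851335681)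 (nat_lit 1)) .nil))) (.cons (.br (nat_lit 1) (nat_lit 0) (.cons (.ev (nat_lit 20361947251175756389184008355841) (nat_lit 1)) (.cons (.br (nat_lit 7) (nat_lit 0) (.cons (.ev (nat_lit 20838866069162448375859705743108) (nat_lit 3)) .nil)) .nil))) (.cons (.ev (nat_lit 20282409608374036906816896565249) (nat_lit 1)) .nil)))) .nil)))),
 (.br (nat_lit 13) (nat_lit 0) (.cons (.rf (nat_lit 3489) (nat_lit 493858305440582043680)) (.cons (.br (nat_lit 1) (nat_lit 0) (.cons (.br (nat_lit 7) (nat_lit 0) (.cons (.br (nat_lit 2) (nat_lit 0) (.cons (.ev (nat_lit 1213648258436567851335681) (nat_lit 1)) .nil)) .nil)) (.cons (.br (nat_lit 2) (nat_lit 0) (.cons (.br (nat_lit 10) (nat_lit 1) (.cons (.ev (nat_lit 21473934211316725122900297449736) (nat_lit 4)) .nil)) (.cons (.ev (nat_lit 20361948460120022465312421052673) (nat_lit 1)) .nil))) .nil))) (.cons (.br (nat_lit 8) (nat_lit 1) (.cons (.br (nat_lit 2) (nat_lit 0) (.cons (.ev (nat_lit 79228167236630823774659281666) (nat_lit 2)) (.cons (.ev (nat_lit 20361948460120022465312421052673)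 (nat_lit 1)) .nil))) (.cons (.br (nat_lit 4) (nat_lit 1) (.cons (.ev (nat_lit 309489750634853487056257281) (nat_lit 1)) (.cons (.br (nat_lit 10) (nat_lit 1) (.cons (.zr (nat_lit 238303457562652438650148619008) (nat_lit 1213721973073810854772737) (nat_lit 5) (nat_lit 0)) .nil)) .nil))) (.cons (.br (nat_lit 4) (nat_lit 1) (.cons (.br (nat_lit 10) (nat_lit 1) (.cons (.ev (nat_lit 20838868496458677025216326337796) (nat_lit 3)) .nil)) (.cons (.br (nat_lit 1) (nat_lit 0) (.cons (.ev (nat_lit 20838863660829474899253344142596) (nat_lit 3)) .nil)) .nil))) .nil)))) .nil)))),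
 (.br (nat_lit 13) (nat_lit 0) (.cons (.rf (nat_lit 3489) (nat_lit 493858305440582043680)) (.cons (.rf (nat_lit 3490) (nat_lit 493858305440582043680)) (.cons (.br (nat_lit 1) (nat_lit 0) (.cons (.ev (nat_lit 20441484898718288535548833300482) (nat_lit 2)) (.cons (.br (nat_lit 4) (nat_lit 1) (.cons (.br (nat_lit 10) (nat_lit 1) (.cons (.ev (nat_lit 79229376180897461744856793345) (nat_lit 1)) .nil)) (.cons (.br (nat_lit 10) (nat_lit 1) (.cons (.ev (nat_lit 20678552853001208630127943157508) (nat_lit 3)) .nil)) .nil))) (.cons (.br (nat_lit 2) (nat_lit 0) (.cons (.ev (nat_lit 20361637766165934762644618674433) (nat_lit 1)) (.cons (.br (nat_lit 7) (nat_lit 0) (.cons (.ev (nat_lit 20678557669815020031283334153988) (nat_lit 3)) .nil)) .nil))) .nil)))) .nil)))),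
 (.br (nat_lit 9) (nat_lit 1) (.cons (.rf (nat_lit 3482) (nat_lit 493858305440582043680)) (.cons (.rf (nat_lit 3488) (nat_lit 493858305440582043680)) (.cons (.br (nat_lit 13) (nat_lit 0) (.cons (.rf (nat_lit 3489) (nat_lit 493858305440582043680)) (.cons (.rf (nat_lit 3490) (nat_lit 493858305440582043680)) (.cons (.rf (nat_lit 3491) (nat_lit 493858305440582043680)) (.cons (.br (nat_lit 13) (nat_lit 0) (.cons (.rf (nat_lit 3489) (nat_lit 493858305440582043680)) (.cons (.rf (nat_lit 3490) (nat_lit 493858305440582043680)) (.cons (.rf (nat_lit 3491) (nat_lit 493858305440582043680)) .nil)))) .nil))))) .nil)))),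
 (.br (nat_lit 9) (nat_lit 1) (.cons (.br (nat_lit 13) (nat_lit 0) (.cons (.kr (nat_lit 20282409603651742481541289214208) (nat_lit 79228162514264338693055643648) (nat_lit 1) (nat_lit 0)) .nil)) (.cons (.br (nat_lit 10) (nat_lit 1) (.cons (.kr (nat_lit 20282409603651742481541289214208) (nat_lit 79228162514264338693055643648) (nat_lit 1) (nat_lit 0)) .nil)) .nil))),
 (.br (nat_lit 7) (nat_lit 0) (.cons (.kr (nat_lit 20282412021503381710799638626560) (nat_lit 79847132533907028830505205760) (nat_lit 1) (nat_lit 0)) .nil)),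
 (.br (nat_lit 2) (nat_lit 0) (.cons (.br (nat_lit 1) (nat_lit 0) (.cons (.br (nat_lit 13) (nat_lit 0) (.cons (.ev (nat_lit 79228167236630820467500974081) (nat_lit 1)) (.cons (.br (nat_lit 9) (nat_lit 1) (.cons (.ev (nat_lit 20361637770906748271062933373185) (nat_lit 1)) (.cons (.ev (nat_lit 20282719093383930590954635985153) (nat_lit 1)) .nil))) .nil))) (.cons (.br (nat_lit 13) (nat_lit 0) (.cons (.br (nat_lit 5) (nat_lit 0) (.cons (.br (nat_lit 7) (nat_lit 0) (.cons (.ev (nat_lit 20678552862519870991903217615620) (nat_lit 3)) .nil)) (.cons (.br (nat_lit 9) (nat_lit 1) (.cons (.ev (nat_lit 20679790783669403336223224169220) (nat_lit 3)) .nil)) .nil))) (.cons (.br (nat_lit 5) (nat_lit 0) (.cons (.br (nat_lit 9) (nat_lit 1) (.cons (.ev (nat_lit 20679790783669403336223224169220) (nat_lit 3)) .nil)) .nil)) .nil))) .nil))) (.cons (.br (nat_lit 1) (nat_lit 0) (.cons (.br (nat_lit 5) (nat_lit 0) (.cons (.ev (nat_lit 79228167236630821567012602113) (nat_lit 1)) (.cons (.rf (nat_lit 3493) (nat_lit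 493858305440582043680)) .nil))) (.cons (.rf (nat_lit 3419) (nat_lit 493675700753833166880)) (.cons (.br (nat_lit 10) (nat_lit 1) (.cons (.rf (nat_lit 3421) (nat_lit 493823402543469922336)) (.cons (.br (nat_lit 13) (nat_lit 0) (.cons (.ev (nat_lit 1208944266358707196067841) (nat_lit 1)) (.cons (.ev (nat_lit 79538861172271780165400461313) (nat_lit 1)) .nil))) (.cons (.br (nat_lit 7) (nat_lit 0) (.cons (.ev (nat_lit 1208944266358707196067841) (nat_lit 1)) (.cons (.ev (nat_lit 79538861172271780165400461313) (nat_lit 1)) .nil))) .nil)))) .nil)))) (.cons (.br (nat_lit 1) (nat_lit 0) (.cons (.br (nat_lit 5) (nat_lit 0) (.cons (.rf (nat_lit 3493) (nat_lit 493857214725047289888)) (.cons (.br (nat_lit 13) (nat_lit 0) (.cons (.br (nat_lit 9) (nat_lit 1) (.cons (.ev (nat_lit 475370207733990858058576757252) (nat_lit 3)) .nil)) .nil)) .nil))) (.cons (.br (nat_lit 9) (nat_lit 1) (.cons (.rf (nat_lit 3421) (nat_lit 493787408930823047200)) (.cons (.br (nat_lit 13) (nat_lit 0) (.cons (.ev (nat_lit 20282719093383930590954635985153)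 (nat_lit 1)) (.cons (.br (nat_lit 5) (nat_lit 0) (.cons (.ev (nat_lit 20837013994880587429100197839108) (nat_lit 3)) .nil)) .nil))) (.cons (.br (nat_lit 5) (nat_lit 0) (.cons (.rf (nat_lit 3494) (nat_lit 493858305440582043680)) (.cons (.br (nat_lit 7) (nat_lit 0) (.cons (.ev (nat_lit 1208944266359806707695873) (nat_lit 1)) .nil)) .nil))) .nil)))) (.cons (.rf (nat_lit 3419) (nat_lit 493563215216757770272)) .nil)))) .nil)))),
 (.br (nat_lit 2) (nat_lit 0) (.cons (.kr (nat_lit 20282409603651742481541289214208) (nat_lit 79228162514264338693055643648) (nat_lit 1) (nat_lit 0)) .nil)),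
 (.br (nat_lit 1) (nat_lit 0) (.cons (.rf (nat_lit 3493) (nat_lit 493857212528171517984)) (.cons (.rf (nat_lit 3421) (nat_lit 493787408930823047200)) .nil))),
 (.br (nat_lit 13) (nat_lit 0) (.cons (.rf (nat_lit 3495) (nat_lit 493858305440582043680)) (.cons (.br (nat_lit 7) (nat_lit 0) (.cons (.br (nat_lit 5) (nat_lit 0) (.cons (.br (nat_lit 10) (nat_lit 1) (.cons (.zr (nat_lit 20440865928680343216521438298624) (nat_lit 309489750635134966344712193) (nat_lit 5) (nat_lit 0)) (.cons (.zr (nat_lit 316912650057057354772222443520) (nat_lit 20282719093402305558913595998209) (nat_lit 5) (nat_lit 0)) .nil))) (.cons (.br (nat_lit 1) (nat_lit 0) (.cons (.ev (nat_lit 79537652246452448106402283521) (nat_lit 1)) (.cons (.rf (nat_lit 3496) (nat_lit 493858305440582043680)) .nil))) .nil))) (.cons (.br (nat_lit 5) (nat_lit 0) (.cons (.br (nat_lit 1) (nat_lit 0) (.cons (.br (nat_lit 2) (nat_lit 0) (.cons (.ev (nat_lit 1213666632842676336066561) (nat_lit 1)) .nil)) .nil)) (.cons (.br (nat_lit 6) (nat_lit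 1) (.cons (.ev (nat_lit 79537652246452448106402283521) (nat_lit 1)) (.cons (.ev (nat_lit 20361637766184381788193304870913) (nat_lit 1)) .nil))) .nil))) (.cons (.br (nat_lit 9) (nat_lit 1) (.cons (.br (nat_lit 2) (nat_lit 0) (.cons (.ev (nat_lit 18519083147036000513) (nat_lit 1)) (.cons (.ev (nat_lit 20361638979832639660711657668865) (nat_lit 1)) .nil))) (.cons (.br (nat_lit 5) (nat_lit 0) (.cons (.ev (nat_lit 4759404652462235254786) (nat_lit 2)) (.cons (.zr (nat_lit 40960960019874806657647368208384) (nat_lit 314325490806518693410897922) (nat_lit 10) (nat_lit 0)) .nil))) (.cons (.br (nat_lit 10) (nat_lit 1) (.cons (.br (nat_lit 2) (nat_lit 0) (.cons (.ev (nat_lit 79540065394315774480988963330) (nat_lit 2)) .nil)) (.cons (.rf (nat_lit 3496) (nat_lit 457830528702977737792)) .nil))) .nil)))) .nil)))) (.cons (.br (nat_lit 2) (nat_lit 0) (.cons (.ev (nat_lit 20282719088661492050495247810561) (nat_lit 1)) (.cons (.br (nat_lit 9) (nat_lit 1) (.cons (.rf (nat_lit 3419) (nat_lit 493675700753833166880))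 (.cons (.br (nat_lit 6) (nat_lit 1) (.cons (.ev (nat_lit 20361637770906748271062933373185) (nat_lit 1)) (.cons (.ev (nat_lit 20282719093383930592054147612673) (nat_lit 1)) .nil))) (.cons (.br (nat_lit 10) (nat_lit 1) (.cons (.ev (nat_lit 79538861172271780165400461313) (nat_lit 1)) (.cons (.zr (nat_lit 20361637770888373305303013392384) (nat_lit 621387871281919404405686273) (nat_lit 5) (nat_lit 0)) .nil))) .nil)))) (.cons (.br (nat_lit 5) (nat_lit 0) (.cons (.br (nat_lit 7) (nat_lit 0) (.cons (.br (nat_lit 1) (nat_lit 0) (.cons (.ev (nat_lit 1213666632842676336066561) (nat_lit 1)) .nil)) .nil)) (.cons (.rf (nat_lit 3497) (nat_lit 493858305440582043680)) .nil))) .nil)))) .nil))))]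

theorem c123 : chkAll C T R L123 (nat_lit 3476) = true := by decide +kernel

theorem l123 : (nat_lit 3476) + L123.length = (nat_lit 3499) := by decide +kernel

/-- part of the certificates -/
def L124 : List Prf := [(.br (nat_lit 5) (nat_lit 0) (.cons (.kr (nat_lit 20282409603651742481541289214208) (nat_lit 79228162514264338693055643648) (nat_lit 1) (nat_lit 0)) .nil)),
 (.br (nat_lit 13) (nat_lit 0) (.cons (.rf (nat_lit 3495) (nat_lit 493858305440582043680)) (.cons (.rf (nat_lit 3498) (nat_lit 493858305440582043680)) (.cons (.br (nat_lit 2) (nat_lit 0) (.cons (.rf (nat_lit 3475) (nat_lit 457929673865483879488)) (.cons (.br (nat_lit 9) (nat_lit 1) (.cons (.ev (nat_lit 79228167236630820467500974081) (nat_lit 1)) (.cons (.br (nat_lit 1) (nat_lit 0) (.cons (.ev (nat_lit 20361637770906748271062933373185) (nat_lit 1)) (.cons (.ev (nat_lit 20282720302309677867614307680513) (nat_lit 1)) .nil))) (.cons (.br (nat_lit 1) (nat_lit 0) (.cons (.ev (nat_lit 20282719093383930590954635985153) (nat_lit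 1)) (.cons (.ev (nat_lit 20361638979832639660711657668865) (nat_lit 1)) .nil))) .nil)))) (.cons (.br (nat_lit 8) (nat_lit 1) (.cons (.br (nat_lit 6) (nat_lit 1) (.cons (.ev (nat_lit 20361637766184381787093793243393) (nat_lit 1)) (.cons (.rf (nat_lit 3499) (nat_lit 493858305440582043680)) .nil))) (.cons (.br (nat_lit 6) (nat_lit 1) (.cons (.ev (nat_lit 20361637770906748271062933373185) (nat_lit 1)) (.cons (.ev (nat_lit 20361637766184453845783031119873) (nat_lit 1)) .nil))) (.cons (.br (nat_lit 10) (nat_lit 1) (.cons (.ev (nat_lit 1208944266358707196067841) (nat_lit 1)) (.cons (.zr (nat_lit 20440865928680271160026912129024) (nat_lit 311902879907318409390456833) (nat_lit 5) (nat_lit 0)) .nil))) .nil)))) (.cons (.br (nat_lit 7) (nat_lit 0) (.cons (.br (nat_lit 8) (nat_lit 1) (.cons (.rf (nat_lit 3499) (nat_lit 493857214725047289888)) (.cons (.br (nat_lit 1) (nat_lit 0) (.cons (.ev (nat_lit 20679169395798408525701716574980) (nat_lit 3)) .nil)) .nil))) (.cons (.br (nat_lit 1) (nat_lit 0) (.cons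 (.rf (nat_lit 3499) (nat_lit 493857212528171517984)) (.cons (.ev (nat_lit 20361638979832639660711657668865) (nat_lit 1)) .nil))) (.cons (.ev (nat_lit 20282409608374036906816896565249) (nat_lit 1)) .nil)))) .nil))))) .nil)))),
 (.br (nat_lit 13) (nat_lit 0) (.cons (.rf (nat_lit 3495) (nat_lit 493858305440582043680)) (.cons (.rf (nat_lit 3498) (nat_lit 493858305440582043680)) (.cons (.rf (nat_lit 3500) (nat_lit 493858305440582043680)) (.cons (.br (nat_lit 13) (nat_lit 0) (.cons (.rf (nat_lit 3495) (nat_lit 493858305440582043680)) (.cons (.rf (nat_lit 3498) (nat_lit 493858305440582043680)) (.cons (.rf (nat_lit 3500) (nat_lit 493858305440582043680)) .nil)))) .nil))))),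
 (.br (nat_lit 2) (nat_lit 0) (.cons (.br (nat_lit 1) (nat_lit 0) (.cons (.kr (nat_lit 79228162514336395187581878528) (nat_lit 309485009821346168236474368) (nat_lit 1) (nat_lit 0)) .nil)) .nil)),
 (.br (nat_lit 13) (nat_lit 0) (.cons (.rf (nat_lit 3501) (nat_lit 493858305440582043680)) (.cons (.br (nat_lit 5) (nat_lit 0) (.cons (.br (nat_lit 1) (nat_lit 0) (.cons (.ev (nat_lit 309489750634854586567884801) (nat_lit 1)) (.cons (.br (nat_lit 10) (nat_lit 1) (.cons (.rf (nat_lit 3419) (nat_lit 493563215216757770272)) (.cons (.br (nat_lit 2) (nat_lit 0) (.cons (.ev (nat_lit 83253918679851804188085453320) (nat_lit 4)) .nil)) .nil))) .nil))) (.cons (.br (nat_lit 7) (nat_lit 0) (.cons (.rf (nat_lit 3502) (nat_lit 15433035725666355232)) (.cons (.br (nat_lit 10) (nat_lit 1) (.cons (.ev (nat_lit 20282410817299856521446087983361) (nat_lit 1)) (.cons (.rf (nat_lit 3496) (nat_lit 457830458334235657280)) .nil))) .nil))) (.cons (.br (nat_lit 9) (nat_lit 1) (.cons (.br (nat_lit 4) (nat_lit 1) (.cons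 (.br (nat_lit 7) (nat_lit 0) (.cons (.ev (nat_lit 158769441538176191450847576834) (nat_lit 2)) .nil)) (.cons (.br (nat_lit 2) (nat_lit 0) (.cons (.ev (nat_lit 1208944266359806707695873) (nat_lit 1)) .nil)) .nil))) (.cons (.rf (nat_lit 3497) (nat_lit 493857214722901903392)) (.cons (.br (nat_lit 10) (nat_lit 1) (.cons (.ev (nat_lit 20282410817299856521446087983361) (nat_lit 1)) (.cons (.ev (nat_lit 40564820430396476367588743512066) (nat_lit 2)) .nil))) .nil)))) .nil)))) (.cons (.br (nat_lit 2) (nat_lit 0) (.cons (.ev (nat_lit 20282719088661492050495247810561) (nat_lit 1)) (.cons (.br (nat_lit 1) (nat_lit 0) (.cons (.br (nat_lit 7) (nat_lit 0) (.cons (.rf (nat_lit 3421) (nat_lit 458109683709082108992)) (.cons (.ev (nat_lit 1208944266358707196067841) (nat_lit 1)) .nil))) (.cons (.rf (nat_lit 3419) (nat_lit 493675700753833166880)) (.cons (.br (nat_lit 4) (nat_lit 1) (.cons (.rf (nat_lit 3494) (nat_lit 493857210329150359584)) (.cons (.ev (nat_lit 1208944266358707196067841) (nat_lit 1)) .nil)))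 .nil)))) (.cons (.br (nat_lit 5) (nat_lit 0) (.cons (.br (nat_lit 9) (nat_lit 1) (.cons (.ev (nat_lit 79229371440083953326542094593) (nat_lit 1)) (.cons (.ev (nat_lit 20282410812577562096174775664641) (nat_lit 1)) .nil))) (.cons (.rf (nat_lit 3497) (nat_lit 493858305438436657184)) .nil))) .nil)))) .nil)))),
 (.br (nat_lit 10) (nat_lit 1) (.cons (.kr (nat_lit 79230580365975624445931291392) (nat_lit 20282409603651670425055353044992) (nat_lit 1) (nat_lit 0)) .nil)),
 (.br (nat_lit 1) (nat_lit 0) (.cons (.rf (nat_lit 3499) (nat_lit 493858301044685113376)) (.cons (.br (nat_lit 5) (nat_lit 0) (.cons (.kr (nat_lit 20361637766166006819134833164544) (nat_lit 36893489246930796544) (nat_lit 1) (nat_lit 0)) .nil)) .nil))),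
 (.br (nat_lit 7) (nat_lit 0) (.cons (.kr (nat_lit 20361637766166006819134833164544) (nat_lit 36893489246930796544) (nat_lit 1) (nat_lit 0)) .nil)),
 (.br (nat_lit 1) (nat_lit 0) (.cons (.rf (nat_lit 3499) (nat_lit 457827082833538417728)) (.cons (.rf (nat_lit 3499) (nat_lit 457822719971399402560)) .nil))),
 (.br (nat_lit 13) (nat_lit 0) (.cons (.rf (nat_lit 3501) (nat_lit 493858305440582043680)) (.cons (.rf (nat_lit 3503) (nat_lit 493858305440582043680)) (.cons (.br (nat_lit 9) (nat_lit 1) (.cons (.br (nat_lit 7) (nat_lit 0) (.cons (.br (nat_lit 2) (nat_lit 0) (.cons (.rf (nat_lit 3504) (nat_lit 493858305440582043680)) (.cons (.br (nat_lit 8) (nat_lit 1) (.cons (.ev (nat_lit 20679174231501686979820435735300) (nat_lit 3)) .nil)) .nil))) (.cons (.br (nat_lit 4) (nat_lit 1) (.cons (.br (nat_lit 10) (nat_lit 1) (.cons (.ev (nat_lit 79229371440083953326542094593) (nat_lit 1)) .nil)) (.cons (.br (nat_lit 2) (nat_lit 0) (.cons (.ev (nat_lit 79229371440083953326542094593) (nat_lit 1)) .nil))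 .nil))) (.cons (.br (nat_lit 2) (nat_lit 0) (.cons (.br (nat_lit 8) (nat_lit 1) (.cons (.ev (nat_lit 4740885566016664371201) (nat_lit 1)) .nil)) (.cons (.zr (nat_lit 3626832871133702707479040) (nat_lit 79847132533907872155923775489) (nat_lit 5) (nat_lit 10)) .nil))) .nil)))) (.cons (.br (nat_lit 7) (nat_lit 0) (.cons (.br (nat_lit 1) (nat_lit 0) (.cons (.rf (nat_lit 3507) (nat_lit 457827082830320337984)) (.cons (.ev (nat_lit 79538861172271780165400461313) (nat_lit 1)) .nil))) (.cons (.rf (nat_lit 3505) (nat_lit 493858305440582043680)) (.cons (.rf (nat_lit 2682) (nat_lit 493858305440481383456)) .nil)))) (.cons (.br (nat_lit 2) (nat_lit 0) (.cons (.br (nat_lit 1) (nat_lit 0) (.cons (.ev (nat_lit 20361637770906748271062933373185) (nat_lit 1)) (.cons (.rf (nat_lit 3506) (nat_lit 493858305440582043680)) .nil))) (.cons (.ev (nat_lit 20361637766184381506714033192961) (nat_lit 1)) (.cons (.rf (nat_lit 3507) (nat_lit 493858305440582043680)) .nil)))) (.cons (.br (nat_lit 5) (nat_lit 0) (.cons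 (.br (nat_lit 8) (nat_lit 1) (.cons (.ev (nat_lit 20440865933458122269594616857090) (nat_lit 2)) (.cons (.ev (nat_lit 20361637770906820046082499674113) (nat_lit 1)) .nil))) (.cons (.br (nat_lit 2) (nat_lit 0) (.cons (.ev (nat_lit 20361637770906820046082499674113) (nat_lit 1)) (.cons (.ev (nat_lit 20282410817299856522545599610881) (nat_lit 1)) .nil))) (.cons (.br (nat_lit 8) (nat_lit 1) (.cons (.zr (nat_lit 80156617617515354592114638848) (nat_lit 20282410812577634998189448757506) (nat_lit 10) (nat_lit 10)) (.cons (.br (nat_lit 1) (nat_lit 0) (.cons (.ev (nat_lit 309485028268089146746142721) (nat_lit 1)) .nil)) .nil))) .nil)))) .nil))))) .nil)))),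
 (.br (nat_lit 13) (nat_lit 0) (.cons (.rf (nat_lit 3501) (nat_lit 493858305440582043680)) (.cons (.rf (nat_lit 3503) (nat_lit 493858305440582043680)) (.cons (.rf (nat_lit 3508) (nat_lit 493858305440582043680)) (.cons (.br (nat_lit 13) (nat_lit 0) (.cons (.rf (nat_lit 3501) (nat_lit 493858305440582043680)) (.cons (.rf (nat_lit 3503) (nat_lit 493858305440582043680)) (.cons (.rf (nat_lit 3508) (nat_lit 493858305440582043680)) .nil)))) .nil))))),
 (.br (nat_lit 4) (nat_lit 1) (.cons (.br (nat_lit 9) (nat_lit 1) (.cons (.ev (nat_lit 20282720302309677867614307680513) (nat_lit 1)) (.cons (.ev (nat_lit 20361638979832639660711657668865) (nat_lit 1)) .nil))) (.cons (.br (nat_lit 6) (nat_lit 1) (.cons (.br (nat_lit 9) (nat_lit 1) (.cons (.ev (nat_lit 20521953447513666820449145258760) (nat_lit 4)) .nil)) (.cons (.br (nat_lit 9) (nat_lit 1) (.cons (.ev (nat_lit 83258754383129136822259418632) (nat_lit 4)) .nil)) .nil))) (.cons (.br (nat_lit 2) (nat_lit 0) (.cons (.ev (nat_lit 20441794383765075987105650311426)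 (nat_lit 2)) (.cons (.ev (nat_lit 1208944266358707196067841) (nat_lit 1)) .nil))) .nil)))),
 (.br (nat_lit 5) (nat_lit 0) (.cons (.br (nat_lit 9) (nat_lit 1) (.cons (.ev (nat_lit 79229371440083953326542094593) (nat_lit 1)) (.cons (.br (nat_lit 6) (nat_lit 1) (.cons (.ev (nat_lit 79231794032537256160772752130) (nat_lit 2)) .nil)) .nil))) (.cons (.br (nat_lit 4) (nat_lit 1) (.cons (.ev (nat_lit 79228162514264619068520661249) (nat_lit 1)) (.cons (.br (nat_lit 9) (nat_lit 1) (.cons (.ev (nat_lit 1213666632842676336066561) (nat_lit 1)) .nil)) .nil))) (.cons (.rf (nat_lit 3507) (nat_lit 493858303243706271776)) .nil)))),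
 (.br (nat_lit 13) (nat_lit 0) (.cons (.rf (nat_lit 3501) (nat_lit 493858305440582043680)) (.cons (.rf (nat_lit 3509) (nat_lit 493858305440582043680)) (.cons (.br (nat_lit 10) (nat_lit 1) (.cons (.rf (nat_lit 3510) (nat_lit 493858305440582043680)) (.cons (.rf (nat_lit 3511) (nat_lit 493858305440582043680)) (.cons (.br (nat_lit 2) (nat_lit 0) (.cons (.br (nat_lit 1) (nat_lit 0) (.cons (.rf (nat_lit 3511) (nat_lit 457824828835778364480)) (.cons (.ev (nat_lit 79229371440083953326542094593) (nat_lit 1)) .nil))) (.cons (.rf (nat_lit 3510) (nat_lit 457824828835778364480)) (.cons (.rf (nat_lit 3507) (nat_lit 493857212528171517984)) .nil)))) (.cons (.br (nat_lit 6) (nat_lit 1) (.cons (.rf (nat_lit 3511) (nat_lit 457824828835778364480)) (.cons (.rf (nat_lit 3510) (nat_lit 457824828835778364480)) (.cons (.ev (nat_lit 20361947251194275189752260984833) (nat_lit 1)) .nil)))) .nil))))) .nil)))),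
 (.br (nat_lit 13) (nat_lit 0) (.cons (.rf (nat_lit 3501) (nat_lit 493858305440582043680)) (.cons (.rf (nat_lit 3509) (nat_lit 493858305440582043680)) (.cons (.rf (nat_lit 3512) (nat_lit 493858305440582043680)) (.cons (.br (nat_lit 13) (nat_lit 0) (.cons (.rf (nat_lit 3501) (nat_lit 493858305440582043680)) (.cons (.rf (nat_lit 3509) (nat_lit 493858305440582043680)) (.cons (.rf (nat_lit 3512) (nat_lit 493858305440582043680)) .nil)))) .nil))))),
 (.br (nat_lit 13) (nat_lit 0) (.cons (.rf (nat_lit 3501) (nat_lit 493858305440582043680)) (.cons (.rf (nat_lit 3509) (nat_lit 493858305440582043680)) (.cons (.rf (nat_lit 3513) (nat_lit 493858305440582043680)) (.cons (.br (nat_lit 13) (nat_lit 0) (.cons (.rf (nat_lit 3501) (nat_lit 493858305440582043680)) (.cons (.rf (nat_lit 3509) (nat_lit 493858305440582043680)) (.cons (.rf (nat_lit 3513) (nat_lit 493858305440582043680)) .nil)))) .nil))))),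
 (.br (nat_lit 13) (nat_lit 0) (.cons (.rf (nat_lit 3501) (nat_lit 493858305440582043680)) (.cons (.rf (nat_lit 3509) (nat_lit 493858305440582043680)) (.cons (.rf (nat_lit 3513) (nat_lit 493858305440582043680)) (.cons (.rf (nat_lit 3514) (nat_lit 493858305440582043680)) (.cons (.br (nat_lit 13) (nat_lit 0) (.cons (.rf (nat_lit 3501) (nat_lit 493858305440582043680)) (.cons (.rf (nat_lit 3509) (nat_lit 493858305440582043680)) (.cons (.rf (nat_lit 3513) (nat_lit 493858305440582043680)) (.cons (.rf (nat_lit 3514) (nat_lit 493858305440582043680)) .nil))))) .nil)))))),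
 (.br (nat_lit 8) (nat_lit 1) (.cons (.kr (nat_lit 20361637766166006819134833164544) (nat_lit 36893489246930796544) (nat_lit 1) (nat_lit 0)) .nil)),
 (.br (nat_lit 10) (nat_lit 1) (.cons (.rf (nat_lit 3421) (nat_lit 493786318215288293408)) (.cons (.br (nat_lit 6) (nat_lit 1) (.cons (.br (nat_lit 13) (nat_lit 0) (.cons (.ev (nat_lit 20361947255898122870954158784513) (nat_lit 1)) (.cons (.br (nat_lit 7) (nat_lit 0) (.cons (.zr (nat_lit 79228162514408454980643127552) (nat_lit 309485028268089151041044481) (nat_lit 5) (nat_lit 0)) .nil)) .nil))) (.cons (.br (nat_lit 2) (nat_lit 0) (.cons (.ev (nat_lit 310698658152404392509243650) (nat_lit 2)) (.cons (.ev (nat_lit 79228167255149903605913420033) (nat_lit 1)) .nil))) (.cons (.br (nat_lit 4) (nat_lit 1) (.cons (.rf (nat_lit 3516) (nat_lit 493858305440582043680)) (.cons (.ev (nat_lit 20361638975091754376174264910081) (nat_lit 1)) .nil))) .nil)))) .nil))),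
 (.br (nat_lit 5) (nat_lit 0) (.cons (.kr (nat_lit 20282412021503381710799638626560) (nat_lit 79847132533907028830505205760) (nat_lit 1) (nat_lit 0)) .nil)),
 (.br (nat_lit 6) (nat_lit 1) (.cons (.ev (nat_lit 79537647524085965236773912833) (nat_lit 1)) (.cons (.br (nat_lit 10) (nat_lit 1) (.cons (.ev (nat_lit 79537652246452448106402283521) (nat_lit 1)) (.cons (.br (nat_lit 4) (nat_lit 1) (.cons (.ev (nat_lit 79229371440083953326542094593) (nat_lit 1)) (.cons (.rf (nat_lit 3518) (nat_lit 493858305440582043680)) .nil))) .nil))) (.cons (.br (nat_lit 10) (nat_lit 1) (.cons (.br (nat_lit 4) (nat_lit 1) (.cons (.br (nat_lit 13) (nat_lit 0) (.cons (.ev (nat_lit 1208944266359806707695873) (nat_lit 1)) .nil)) (.cons (.br (nat_lit 8) (nat_lit 1) (.cons (.ev (nat_lit 1208944266359806707695873) (nat_lit 1)) .nil)) .nil))) (.cons (.br (nat_lit 13) (nat_lit 0) (.cons (.br (nat_lit 5) (nat_lit 0) (.cons (.ev (nat_lit 20362261581444630755346167039748) (nat_lit 3)) .nil)) (.cons (.ev (nat_lit 20361947255916641672621889487105)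 (nat_lit 1)) .nil))) (.cons (.br (nat_lit 4) (nat_lit 1) (.cons (.ev (nat_lit 79229371440083953326542094593) (nat_lit 1)) (.cons (.rf (nat_lit 3518) (nat_lit 493858305438436657184)) .nil))) .nil)))) .nil)))),
 (.br (nat_lit 6) (nat_lit 1) (.cons (.br (nat_lit 8) (nat_lit 1) (.cons (.ev (nat_lit 309485009893685237251112961) (nat_lit 1)) (.cons (.br (nat_lit 13) (nat_lit 0) (.cons (.br (nat_lit 10) (nat_lit 1) (.cons (.zr (nat_lit 2422574005993611561467904) (nat_lit 158765810056796764329539011073) (nat_lit 5) (nat_lit 11)) .nil)) (.cons (.kr (nat_lit 1208925819614629174706176) (nat_lit 20282409603651670423947251286016) (nat_lit 10) (nat_lit 0)) .nil))) .nil))) (.cons (.ev (nat_lit 79537652246452448106402283521) (nat_lit 1)) (.cons (.br (nat_lit 2) (nat_lit 0) (.cons (.br (nat_lit 10) (nat_lit 1) (.cons (.ev (nat_lit 158769441538176191450847576834) (nat_lit 2)) (.cons (.ev (nat_lit 79229371440083953326542094593) (nat_lit 1)) .nil))) (.cons (.br (nat_lit 7) (nat_lit 0) (.cons (.ev (nat_lit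 79228167236630820467500974081) (nat_lit 1)) (.cons (.br (nat_lit 4) (nat_lit 1) (.cons (.zr (nat_lit 238303457562651875700228947968) (nat_lit 1227889072803881865445377) (nat_lit 5) (nat_lit 0)) .nil)) .nil))) (.cons (.rf (nat_lit 3519) (nat_lit 493858305440582043680)) .nil)))) .nil)))),
 (.br (nat_lit 10) (nat_lit 1) (.cons (.rf (nat_lit 3519) (nat_lit 493858305440582043680)) (.cons (.rf (nat_lit 3520) (nat_lit 493858305440582043680)) (.cons (.br (nat_lit 6) (nat_lit 1) (.cons (.br (nat_lit 4) (nat_lit 1) (.cons (.br (nat_lit 13) (nat_lit 0) (.cons (.zr (nat_lit 2422574005993611561467904) (nat_lit 158765810056796764329539011073) (nat_lit 5) (nat_lit 11)) .nil)) (.cons (.ev (nat_lit 20361947251175756388084496728321) (nat_lit 1)) .nil))) (.cons (.br (nat_lit 2) (nat_lit 0) (.cons (.ev (nat_lit 158769441538176191450847576834) (nat_lit 2)) (.cons (.br (nat_lit 4) (nat_lit 1) (.cons (.zr (nat_lit 238303457562651875700228947968) (nat_lit 1227889072803881865445377) (nat_lit 5) (nat_lit 0))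 .nil)) .nil))) (.cons (.br (nat_lit 2) (nat_lit 0) (.cons (.br (nat_lit 8) (nat_lit 1) (.cons (.ev (nat_lit 79228167255149622135231676673) (nat_lit 1)) .nil)) (.cons (.br (nat_lit 5) (nat_lit 0) (.cons (.zr (nat_lit 238303457562651875700228947968) (nat_lit 1227889072803881865445377) (nat_lit 5) (nat_lit 0)) .nil)) .nil))) .nil)))) .nil)))),
 (.br (nat_lit 2) (nat_lit 0) (.cons (.kr (nat_lit 2417851711286852387340544) (nat_lit 20361637766165934762640306929664) (nat_lit 1) (nat_lit 0)) .nil))]

theorem c124 : chkAll C T R L124 (nat_lit 3499) = true := by decide +kernel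

theorem l124 : (nat_lit 3499) + L124.length = (nat_lit 3523) := by decide +kernel

/-- part of the certificates -/
def L125 : List Prf := [(.br (nat_lit 5) (nat_lit 0) (.cons (.br (nat_lit 2) (nat_lit 0) (.cons (.br (nat_lit 13) (nat_lit 0) (.cons (.br (nat_lit 7) (nat_lit 0) (.cons (.zr (nat_lit 238303457562652438650148619008) (nat_lit 1213721973073810854772737) (nat_lit 5) (nat_lit 0)) .nil)) .nil)) (.cons (.ev (nat_lit 79537647524085965236773912833) (nat_lit 1)) .nil))) (.cons (.br (nat_lit 2) (nat_lit 0) (.cons (.br (nat_lit 13) (nat_lit 0) (.cons (.br (nat_lit 7) (nat_lit 0) (.cons (.zr (nat_lit 79228162514336397386605265152) (nat_lit 1213648186660448790118401) (nat_lit 5) (nat_lit 0)) .nil)) .nil)) (.cons (.br (nat_lit 6) (nat_lit 1) (.cons (.br (nat_lit 13) (nat_lit 0) (.cons (.zr (nat_lit 238303457562435706216616493056) (nat_lit 4840444091966939342045185) (nat_lit 5) (nat_lit 0)) .nil)) (.cons (.br (nat_lit 10) (nat_lit 1) (.cons (.ev (nat_lit 20838247118032273306059253547268)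 (nat_lit 3)) .nil)) .nil))) .nil))) (.cons (.br (nat_lit 13) (nat_lit 0) (.cons (.ev (nat_lit 79537652246452448106402283521) (nat_lit 1)) (.cons (.br (nat_lit 2) (nat_lit 0) (.cons (.br (nat_lit 7) (nat_lit 0) (.cons (.ev (nat_lit 20520717906399517132402249368836) (nat_lit 3)) .nil)) (.cons (.ev (nat_lit 1208944266359806707695873) (nat_lit 1)) .nil))) (.cons (.br (nat_lit 6) (nat_lit 1) (.cons (.ev (nat_lit 20361637766165935044115300417793) (nat_lit 1)) (.cons (.rf (nat_lit 3522) (nat_lit 493858305440582043680)) .nil))) .nil)))) .nil)))),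
 (.br (nat_lit 7) (nat_lit 0) (.cons (.rf (nat_lit 3523) (nat_lit 493858305440582043680)) (.cons (.br (nat_lit 5) (nat_lit 0) (.cons (.br (nat_lit 13) (nat_lit 0) (.cons (.br (nat_lit 2) (nat_lit 0) (.cons (.ev (nat_lit 79229371440083953326542094593) (nat_lit 1)) .nil)) .nil)) (.cons (.br (nat_lit 10) (nat_lit 1) (.cons (.br (nat_lit 13) (nat_lit 0) (.cons (.ev (nat_lit 1208944266359806707695873) (nat_lit 1)) .nil)) (.cons (.br (nat_lit 4) (nat_lit 1) (.cons (.ev (nat_lit 79229371440083953326542094593) (nat_lit 1)) .nil)) .nil))) .nil))) (.cons (.br (nat_lit 5) (nat_lit 0) (.cons (.br (nat_lit 13) (nat_lit 0) (.cons (.ev (nat_lit 309489750634854586567884801) (nat_lit 1)) (.cons (.br (nat_lit 8) (nat_lit 1) (.cons (.ev (nat_lit 159077712918474355876575576834) (nat_lit 2)) .nil)) .nil))) (.cons (.br (nat_lit 10) (nat_lit 1) (.cons (.br (nat_lit 4) (nat_lit 1) (.cons (.ev (nat_lit 20837014013696265258383966535940) (nat_lit 3)) .nil)) (.cons (.br (nat_lit 4) (nat_lit 1) (.cons (.ev (nat_lit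 2417870158877562985644290) (nat_lit 2)) .nil)) .nil))) (.cons (.br (nat_lit 13) (nat_lit 0) (.cons (.ev (nat_lit 20282409608374108965514757800193) (nat_lit 1)) (.cons (.br (nat_lit 4) (nat_lit 1) (.cons (.ev (nat_lit 20520096509083500562806722593540) (nat_lit 3)) .nil)) .nil))) .nil)))) .nil)))),
 (.br (nat_lit 7) (nat_lit 0) (.cons (.rf (nat_lit 3523) (nat_lit 493858305440582043680)) (.cons (.rf (nat_lit 3524) (nat_lit 493858305440582043680)) (.cons (.br (nat_lit 6) (nat_lit 1) (.cons (.ev (nat_lit 79228162532783420736284917761) (nat_lit 1)) (.cons (.br (nat_lit 2) (nat_lit 0) (.cons (.ev (nat_lit 309485028268371716939514113) (nat_lit 1)) (.cons (.ev (nat_lit 79537647524085965236773912833) (nat_lit 1)) .nil))) (.cons (.br (nat_lit 10) (nat_lit 1) (.cons (.ev (nat_lit 20361947255916641672621889487105) (nat_lit 1)) (.cons (.ev (nat_lit 79537652246452448106402283521) (nat_lit 1)) .nil))) .nil)))) .nil)))),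
 (.br (nat_lit 9) (nat_lit 1) (.cons (.rf (nat_lit 3419) (nat_lit 493675700753833166880)) (.cons (.br (nat_lit 10) (nat_lit 1) (.cons (.rf (nat_lit 3425) (nat_lit 493787408930823047200)) (.cons (.rf (nat_lit 3517) (nat_lit 493858305440582043680)) (.cons (.br (nat_lit 10) (nat_lit 1) (.cons (.rf (nat_lit 3425) (nat_lit 493787408930823047200)) (.cons (.rf (nat_lit 3517) (nat_lit 493858305440582043680)) .nil))) .nil)))) (.cons (.br (nat_lit 10) (nat_lit 1) (.cons (.rf (nat_lit 3519) (nat_lit 493858305440582043680)) (.cons (.rf (nat_lit 3520) (nat_lit 493858305440582043680)) (.cons (.rf (nat_lit 3521) (nat_lit 493858305440582043680)) (.cons (.br (nat_lit 10) (nat_lit 1) (.cons (.rf (nat_lit 3519) (nat_lit 493858305440582043680)) (.cons (.rf (nat_lit 3520) (nat_lit 493858305440582043680)) (.cons (.rf (nat_lit 3521) (nat_lit 493858305440582043680)) .nil)))) .nil))))) (.cons (.br (nat_lit 7) (nat_lit 0) (.cons (.rf (nat_lit 3523) (nat_lit 493858305440582043680)) (.cons (.rf (nat_lit 3524) (nat_lit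 493858305440582043680)) (.cons (.rf (nat_lit 3525) (nat_lit 493858305440582043680)) (.cons (.br (nat_lit 7) (nat_lit 0) (.cons (.rf (nat_lit 3523) (nat_lit 493858305440582043680)) (.cons (.rf (nat_lit 3524) (nat_lit 493858305440582043680)) (.cons (.rf (nat_lit 3525) (nat_lit 493858305440582043680)) .nil)))) .nil))))) .nil))))),
 (.br (nat_lit 4) (nat_lit 1) (.cons (.ev (nat_lit 1208944266358707196067841) (nat_lit 1)) .nil)),
 (.br (nat_lit 8) (nat_lit 1) (.cons (.br (nat_lit 10) (nat_lit 1) (.cons (.br (nat_lit 13) (nat_lit 0) (.cons (.ev (nat_lit 1208944266358707196067841) (nat_lit 1)) .nil)) .nil)) (.cons (.br (nat_lit 10) (nat_lit 1) (.cons (.rf (nat_lit 3527) (nat_lit 493858305440582043680)) (.cons (.br (nat_lit 4) (nat_lit 1) (.cons (.ev (nat_lit 1208944266358707196067841) (nat_lit 1)) .nil)) .nil))) .nil))),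
 (.br (nat_lit 6) (nat_lit 1) (.cons (.rf (nat_lit 3528) (nat_lit 493858305440582043680)) (.cons (.ev (nat_lit 79537652246452447006890656001) (nat_lit 1)) .nil))),
 (.br (nat_lit 10) (nat_lit 1) (.cons (.rf (nat_lit 3529) (nat_lit 493858305440582043680)) (.cons (.br (nat_lit 8) (nat_lit 1) (.cons (.br (nat_lit 4) (nat_lit 1) (.cons (.br (nat_lit 6) (nat_lit 1) (.cons (.ev (nat_lit 20679176649316290294618853278468) (nat_lit 3)) .nil)) (.cons (.ev (nat_lit 1208944266358707196067841) (nat_lit 1)) .nil))) (.cons (.br (nat_lit 6) (nat_lit 1) (.cons (.ev (nat_lit 79228167255149903605913420033) (nat_lit 1)) (.cons (.ev (nat_lit 20361947255916641673721401114625) (nat_lit 1)) .nil))) (.cons (.kr (nat_lit 1213666632841572529471488) (nat_lit 20361947251175756106609520017408) (nat_lit 8) (nat_lit 0)) .nil)))) .nil))),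
 (.br (nat_lit 1) (nat_lit 0) (.cons (.rf (nat_lit 2351) (nat_lit 458005178285500437728)) (.cons (.ev (nat_lit 1208944266358707196067841) (nat_lit 1)) .nil))),
 (.br (nat_lit 13) (nat_lit 0) (.cons (.br (nat_lit 5) (nat_lit 0) (.cons (.br (nat_lit 1) (nat_lit 0) (.cons (.br (nat_lit 10) (nat_lit 1) (.cons (.ev (nat_lit 79538861172271780165400461313) (nat_lit 1)) .nil)) .nil)) (.cons (.rf (nat_lit 3497) (nat_lit 493787406733947275296)) .nil))) (.cons (.kr (nat_lit 4740813226943354765312) (nat_lit 79537647524085682662268731392) (nat_lit 8) (nat_lit 0)) (.cons (.br (nat_lit 10) (nat_lit 1) (.cons (.br (nat_lit 7) (nat_lit 0) (.cons (.br (nat_lit 8) (nat_lit 1) (.cons (.ev (nat_lit 18447025548686262529) (nat_lit 1)) .nil)) (.cons (.ev (nat_lit 1208944266358707196067841) (nat_lit 1)) .nil))) (.cons (.rf (nat_lit 3507) (nat_lit 493787408928677660704)) (.cons (.rf (nat_lit 3531) (nat_lit 493858305440582043680)) .nil)))) .nil)))),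
 (.br (nat_lit 13) (nat_lit 0) (.cons (.rf (nat_lit 3532) (nat_lit 493858305440582043680)) (.cons (.kr (nat_lit 4740813226943354765312) (nat_lit 79537647524085682662268731392) (nat_lit 8) (nat_lit 0)) (.cons (.br (nat_lit 7) (nat_lit 0) (.cons (.br (nat_lit 10) (nat_lit 1) (.cons (.ev (nat_lit 79538861172271780165400461313) (nat_lit 1)) (.cons (.zr (nat_lit 79228167236702881355762106368) (nat_lit 620178945462304775230980097) (nat_lit 5) (nat_lit 0)) .nil))) (.cons (.rf (nat_lit 3505) (nat_lit 493786318215288293408)) (.cons (.ev (nat_lit 1213648258436567851335681) (nat_lit 1)) .nil)))) .nil)))),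
 (.br (nat_lit 10) (nat_lit 1) (.cons (.rf (nat_lit 3425) (nat_lit 493823402543469922336)) (.cons (.br (nat_lit 8) (nat_lit 1) (.cons (.kr (nat_lit 20282409603651742481541289214208) (nat_lit 79228162514264338693055643648) (nat_lit 1) (nat_lit 0)) .nil)) .nil))),
 (.br (nat_lit 13) (nat_lit 0) (.cons (.kr (nat_lit 20282409603651742481541289214208) (nat_lit 79228162514264338693055643648) (nat_lit 1) (nat_lit 0)) .nil)),
 (.br (nat_lit 1) (nat_lit 0) (.cons (.rf (nat_lit 3535) (nat_lit 493858303243706271776)) (.cons (.rf (nat_lit 3535) (nat_lit 493858305440582043680)) .nil))),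
 (.br (nat_lit 7) (nat_lit 0) (.cons (.br (nat_lit 5) (nat_lit 0) (.cons (.br (nat_lit 10) (nat_lit 1) (.cons (.ev (nat_lit 18447025548686262529) (nat_lit 1)) (.cons (.ev (nat_lit 20361637766184453845783031119873) (nat_lit 1)) .nil))) (.cons (.rf (nat_lit 3534) (nat_lit 493858305440582043680)) .nil))) (.cons (.kr (nat_lit 4740813226943354765312) (nat_lit 79537647524085682662268731392) (nat_lit 8) (nat_lit 0)) (.cons (.br (nat_lit 10) (nat_lit 1) (.cons (.ev (nat_lit 79538861172271780165400461313) (nat_lit 1)) (.cons (.rf (nat_lit 3536) (nat_lit 493858305440582043680)) (.cons (.br (nat_lit 5) (nat_lit 0) (.cons (.ev (nat_lit 159077717622177080759707435010) (nat_lit 2)) (.cons (.ev (nat_lit 1208925891673327019294721) (nat_lit 1)) .nil))) .nil)))) .nil)))),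
 (.br (nat_lit 7) (nat_lit 0) (.cons (.rf (nat_lit 3537) (nat_lit 493858305440582043680)) (.cons (.kr (nat_lit 4740813226943354765312) (nat_lit 79537647524085682662268731392) (nat_lit 8) (nat_lit 0)) (.cons (.br (nat_lit 10) (nat_lit 1) (.cons (.br (nat_lit 8) (nat_lit 1) (.cons (.ev (nat_lit 18447025548686262529) (nat_lit 1)) (.cons (.rf (nat_lit 3475) (nat_lit 457822648505293146144)) .nil))) (.cons (.rf (nat_lit 3536) (nat_lit 493858305438436657184)) (.cons (.br (nat_lit 8) (nat_lit 1) (.cons (.br (nat_lit 4) (nat_lit 1) (.cons (.zr (nat_lit 238303457562435706216616493056) (nat_lit 1227833732571660753567745) (nat_lit 5) (nat_lit 0)) .nil)) (.cons (.ev (nat_lit 20361947255916641673721401114625) (nat_lit 1)) .nil))) .nil)))) .nil)))),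
 (.br (nat_lit 9) (nat_lit 1) (.cons (.rf (nat_lit 3419) (nat_lit 493675700753833166880)) (.cons (.br (nat_lit 10) (nat_lit 1) (.cons (.rf (nat_lit 3529) (nat_lit 493858305440582043680)) (.cons (.rf (nat_lit 3530) (nat_lit 493858305440582043680)) (.cons (.br (nat_lit 10) (nat_lit 1) (.cons (.rf (nat_lit 3529) (nat_lit 493858305440582043680)) (.cons (.rf (nat_lit 3530) (nat_lit 493858305440582043680)) .nil))) .nil)))) (.cons (.br (nat_lit 13) (nat_lit 0) (.cons (.rf (nat_lit 3532) (nat_lit 493858305440582043680)) (.cons (.rf (nat_lit 3533) (nat_lit 493858305440582043680)) (.cons (.kr (nat_lit 4740813226943354765312) (nat_lit 79537647524085682662268731392) (nat_lit 8) (nat_lit 0)) (.cons (.br (nat_lit 13) (nat_lit 0) (.cons (.rf (nat_lit 3532) (nat_lit 493858305440582043680)) (.cons (.rf (nat_lit 3533) (nat_lit 493858305440582043680)) (.cons (.kr (nat_lit 4740813226943354765312) (nat_lit 79537647524085682662268731392) (nat_lit 8) (nat_lit 0)) .nil)))) .nil))))) (.cons (.br (nat_lit 7)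 (nat_lit 0) (.cons (.rf (nat_lit 3537) (nat_lit 493858305440582043680)) (.cons (.rf (nat_lit 3538) (nat_lit 493858305440582043680)) (.cons (.kr (nat_lit 4740813226943354765312) (nat_lit 79537647524085682662268731392) (nat_lit 8) (nat_lit 0)) (.cons (.br (nat_lit 7) (nat_lit 0) (.cons (.rf (nat_lit 3537) (nat_lit 493858305440582043680)) (.cons (.rf (nat_lit 3538) (nat_lit 493858305440582043680)) (.cons (.kr (nat_lit 4740813226943354765312) (nat_lit 79537647524085682662268731392) (nat_lit 8) (nat_lit 0)) .nil)))) .nil))))) .nil))))),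
 (.br (nat_lit 7) (nat_lit 0) (.cons (.kr (nat_lit 20361637766166006819134833164544) (nat_lit 36893489246930796544) (nat_lit 1) (nat_lit 0)) .nil)),
 (.br (nat_lit 10) (nat_lit 1) (.cons (.rf (nat_lit 2725) (nat_lit 493855843634047682592)) (.cons (.br (nat_lit 4) (nat_lit 1) (.cons (.ev (nat_lit 309485009893403766569369601) (nat_lit 1)) (.cons (.br (nat_lit 13) (nat_lit 0) (.cons (.ev (nat_lit 20361948464823942205212146532353) (nat_lit 1)) (.cons (.br (nat_lit 6) (nat_lit 1) (.cons (.ev (nat_lit 4740813509517859946753) (nat_lit 1)) .nil)) .nil))) .nil))) (.cons (.br (nat_lit 6) (nat_lit 1) (.cons (.br (nat_lit 8) (nat_lit 1) (.cons (.br (nat_lit 13) (nat_lit 0) (.cons (.ev (nat_lit 80159035450851950575390752770) (nat_lit 2)) .nil)) (.cons (.ev (nat_lit 4740813509517859946753) (nat_lit 1)) .nil))) (.cons (.br (nat_lit 2) (nat_lit 0) (.cons (.ev (nat_lit 72057598349672449) (nat_lit 1)) (.cons (.br (nat_lit 4) (nat_lit 1) (.cons (.ev (nat_lit 20837632983752658447397913036036) (nat_lit 3))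 .nil)) .nil))) (.cons (.br (nat_lit 2) (nat_lit 0) (.cons (.rf (nat_lit 3540) (nat_lit 493858305440582043680)) (.cons (.br (nat_lit 7) (nat_lit 0) (.cons (.zr (nat_lit 9444733528693538816768) (nat_lit 310693954231818959701671937) (nat_lit 5) (nat_lit 3)) .nil)) .nil))) .nil)))) .nil)))),
 (.br (nat_lit 8) (nat_lit 1) (.cons (.br (nat_lit 13) (nat_lit 0) (.cons (.kr (nat_lit 20282409603651742481541289214208) (nat_lit 79228162514264338693055643648) (nat_lit 1) (nat_lit 0)) .nil)) .nil)),
 (.br (nat_lit 4) (nat_lit 1) (.cons (.rf (nat_lit 3542) (nat_lit 493858305440582043680)) (.cons (.br (nat_lit 8) (nat_lit 1) (.cons (.rf (nat_lit 3542) (nat_lit 493858303239415498784)) (.cons (.rf (nat_lit 3497) (nat_lit 493823402543469922336)) .nil))) .nil))),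
 (.br (nat_lit 7) (nat_lit 0) (.cons (.rf (nat_lit 3536) (nat_lit 493857214725047289888)) (.cons (.rf (nat_lit 3536) (nat_lit 493857214722901903392)) (.cons (.rf (nat_lit 3536) (nat_lit 493857212523880744992)) .nil)))),
 (.br (nat_lit 1) (nat_lit 0) (.cons (.br (nat_lit 2) (nat_lit 0) (.cons (.ev (nat_lit 20282409608392483933465094389761) (nat_lit 1)) .nil)) (.cons (.br (nat_lit 6) (nat_lit 1) (.cons (.ev (nat_lit 20282409608392483933465094389761) (nat_lit 1)) .nil)) .nil))),
 (.br (nat_lit 10) (nat_lit 1) (.cons (.rf (nat_lit 3541) (nat_lit 493858305440582043680)) (.cons (.rf (nat_lit 3543) (nat_lit 493858305440582043680)) (.cons (.br (nat_lit 4) (nat_lit 1) (.cons (.br (nat_lit 2) (nat_lit 0) (.cons (.br (nat_lit 13) (nat_lit 0) (.cons (.ev (nat_lit 309489750634853487056257281) (nat_lit 1)) .nil)) (.cons (.br (nat_lit 6) (nat_lit 1) (.cons (.ev (nat_lit 309489750634853487056257281) (nat_lit 1)) .nil)) .nil))) (.cons (.ev (nat_lit 309485009893403766569369601) (nat_lit 1)) (.cons (.rf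 (nat_lit 3545) (nat_lit 493858305440582043680)) .nil)))) .nil)))),
 (.br (nat_lit 13) (nat_lit 0) (.cons (.kr (nat_lit 20282409603651742481541289214208) (nat_lit 79228162514264338693055643648) (nat_lit 1) (nat_lit 0)) .nil)),
 (.br (nat_lit 8) (nat_lit 1) (.cons (.br (nat_lit 10) (nat_lit 1) (.cons (.kr (nat_lit 4740813226943354765568) (nat_lit 309485009893402662779486208) (nat_lit 1) (nat_lit 0)) (.cons (.kr (nat_lit 4740813226943354765312) (nat_lit 20361637766165934761540795236352) (nat_lit 8) (nat_lit 0)) .nil))) (.cons (.br (nat_lit 10) (nat_lit 1) (.cons (.rf (nat_lit 3475) (nat_lit 457822648505293146144)) .nil)) .nil))),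
 (.br (nat_lit 10) (nat_lit 1) (.cons (.rf (nat_lit 3548) (nat_lit 493858305440582043680)) (.cons (.br (nat_lit 7) (nat_lit 0) (.cons (.br (nat_lit 8) (nat_lit 1) (.cons (.zr (nat_lit 9444949138521404211968) (nat_lit 310693954087985250897494017) (nat_lit 5) (nat_lit 0)) .nil)) (.cons (.kr (nat_lit 4740813226943354765312) (nat_lit 20361637766165934761540795236352) (nat_lit 8) (nat_lit 0)) .nil))) .nil))),
 (.br (nat_lit 7) (nat_lit 0) (.cons (.br (nat_lit 13) (nat_lit 0) (.cons (.kr (nat_lit 20282409603651742481541289214208) (nat_lit 79228162514264338693055643648) (nat_lit 1) (nat_lit 0)) .nil)) (.cons (.rf (nat_lit 3547) (nat_lit 493858303239415498784)) .nil))),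
 (.br (nat_lit 9) (nat_lit 1) (.cons (.rf (nat_lit 3526) (nat_lit 493858305440582043680)) (.cons (.rf (nat_lit 3539) (nat_lit 493858305440582043680)) (.cons (.br (nat_lit 10) (nat_lit 1) (.cons (.rf (nat_lit 3541) (nat_lit 493858305440582043680)) (.cons (.br (nat_lit 10) (nat_lit 1) (.cons (.rf (nat_lit 2725) (nat_lit 493855843634047682592)) (.cons (.rf (nat_lit 3543) (nat_lit 493858305440582043680)) (.cons (.rf (nat_lit 3544) (nat_lit 493858305440582043680)) .nil)))) (.cons (.rf (nat_lit 3546) (nat_lit 493858305440582043680)) (.cons (.br (nat_lit 10) (nat_lit 1) (.cons (.rf (nat_lit 3541) (nat_lit 493858305440582043680)) (.cons (.rf (nat_lit 3544) (nat_lit 493858305440582043680)) (.cons (.rf (nat_lit 3546) (nat_lit 493858305440582043680)) .nil)))) .nil))))) (.cons (.br (nat_lit 4) (nat_lit 1) (.cons (.br (nat_lit 6) (nat_lit 1) (.cons (.ev (nat_lit 79228167236631103037694345473) (nat_lit 1)) (.cons (.br (nat_lit 2) (nat_lit 0) (.cons (.ev (nat_lit 309489750634853487056257281) (nat_lit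 1)) (.cons (.rf (nat_lit 3550) (nat_lit 493858301044685113376)) .nil))) (.cons (.br (nat_lit 10) (nat_lit 1) (.cons (.br (nat_lit 7) (nat_lit 0) (.cons (.kr (nat_lit 20282409608410930394964315603456) (nat_lit 158765810038350021355341152256) (nat_lit 1) (nat_lit 0)) (.cons (.zr (nat_lit 158765819483082985995119886592) (nat_lit 40564820416229160744002948956161) (nat_lit 5) (nat_lit 4)) .nil))) (.cons (.br (nat_lit 7) (nat_lit 0) (.cons (.kr (nat_lit 4759259971017064317184) (nat_lit 79537647524157740256323436544) (nat_lit 1) (nat_lit 0)) .nil)) .nil))) .nil)))) (.cons (.br (nat_lit 10) (nat_lit 1) (.cons (.rf (nat_lit 3548) (nat_lit 493858305440582043680)) (.cons (.rf (nat_lit 3549) (nat_lit 493858305440582043680)) (.cons (.br (nat_lit 10) (nat_lit 1) (.cons (.rf (nat_lit 3548) (nat_lit 493858305440582043680)) (.cons (.rf (nat_lit 3549) (nat_lit 493858305440582043680)) .nil))) .nil)))) (.cons (.br (nat_lit 2) (nat_lit 0) (.cons (.br (nat_lit 7) (nat_lit 0) (.cons (.ev (nat_lit 72339069031415809)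 (nat_lit 1)) (.cons (.br (nat_lit 10) (nat_lit 1) (.cons (.ev (nat_lit 79537652246452447006890656001) (nat_lit 1)) (.cons (.ev (nat_lit 20441177845708759123178467426306) (nat_lit 2)) .nil))) .nil))) (.cons (.br (nat_lit 7) (nat_lit 0) (.cons (.ev (nat_lit 79537647542604766904504614913) (nat_lit 1)) (.cons (.br (nat_lit 13) (nat_lit 0) (.cons (.br (nat_lit 1) (nat_lit 0) (.cons (.zr (nat_lit 618970019858866218131980288) (nat_lit 1227833732571660736791297) (nat_lit 5) (nat_lit 0)) .nil)) (.cons (.ev (nat_lit 1208925891673327019294721) (nat_lit 1)) .nil))) .nil))) (.cons (.br (nat_lit 1) (nat_lit 0) (.cons (.rf (nat_lit 3550) (nat_lit 493858303243706271776)) (.cons (.rf (nat_lit 3550) (nat_lit 493858305440582043680)) (.cons (.rf (nat_lit 2725) (nat_lit 493855843634047682592)) .nil)))) .nil)))) (.cons (.kr (nat_lit 4722366482869645213696) (nat_lit 20282409603651670423947251286016) (nat_lit 9) (nat_lit 0)) .nil))))) .nil)))))]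

theorem c125 : chkAll C T R L125 (nat_lit 3523) = true := by decide +kernel

theorem l125 : (nat_lit 3523) + L125.length = (nat_lit 3552) := by decide +kernel

/-- part of the certificates -/
def L126 : List Prf := [(.br (nat_lit 9) (nat_lit 1) (.cons (.rf (nat_lit 3526) (nat_lit 493858305440582043680)) (.cons (.rf (nat_lit 3539) (nat_lit 493858305440582043680)) (.cons (.rf (nat_lit 3551) (nat_lit 493858305440582043680)) (.cons (.br (nat_lit 2) (nat_lit 0) (.cons (.br (nat_lit 7) (nat_lit 0) (.cons (.ev (nat_lit 72057598349672449) (nat_lit 1)) (.cons (.br (nat_lit 5) (nat_lit 0) (.cons (.br (nat_lit 10) (nat_lit 1) (.cons (.ev (nat_lit 18447025548686262529) (nat_lit 1)) (.cons (.ev (nat_lit 20361637766184453845783031119873) (nat_lit 1)) .nil))) (.cons (.br (nat_lit 10) (nat_lit 1) (.cons (.ev (nat_lit 1208925891672227507667201) (nat_lit 1)) (.cons (.ev (nat_lit 20282720297587383442342995361793) (nat_lit 1)) .nil))) .nil))) (.cons (.br (nat_lit 13) (nat_lit 0) (.cons (.br (nat_lit 8)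 (nat_lit 1) (.cons (.br (nat_lit 10) (nat_lit 1) (.cons (.ev (nat_lit 20999798331195912918588023046920) (nat_lit 4)) .nil)) (.cons (.ev (nat_lit 20361637770906820046082499674113) (nat_lit 1)) .nil))) (.cons (.br (nat_lit 1) (nat_lit 0) (.cons (.br (nat_lit 10) (nat_lit 1) (.cons (.ev (nat_lit 20837006769696905118177531330820) (nat_lit 3)) .nil)) (.cons (.rf (nat_lit 3475) (nat_lit 457822648505293146144)) .nil))) (.cons (.br (nat_lit 5) (nat_lit 0) (.cons (.ev (nat_lit 20282720302309750205583827402753) (nat_lit 1)) (.cons (.kr (nat_lit 4740813226943354765312) (nat_lit 20361637766165934761540795236352) (nat_lit 8) (nat_lit 0)) .nil))) .nil)))) .nil)))) (.cons (.br (nat_lit 1) (nat_lit 0) (.cons (.br (nat_lit 5) (nat_lit 0) (.cons (.ev (nat_lit 309489750634853487056257281) (nat_lit 1)) (.cons (.br (nat_lit 8) (nat_lit 1) (.cons (.ev (nat_lit 309485009893685237251112961) (nat_lit 1)) (.cons (.br (nat_lit 7) (nat_lit 0) (.cons (.ev (nat_lit 20837006769696905118177531330820) (nat_lit 3)) .nil))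 .nil))) .nil))) (.cons (.br (nat_lit 13) (nat_lit 0) (.cons (.br (nat_lit 7) (nat_lit 0) (.cons (.br (nat_lit 5) (nat_lit 0) (.cons (.ev (nat_lit 79231798754902891302708511490) (nat_lit 2)) .nil)) .nil)) (.cons (.br (nat_lit 10) (nat_lit 1) (.cons (.ev (nat_lit 79229371440084234797223837953) (nat_lit 1)) (.cons (.ev (nat_lit 1213648258436567851335681) (nat_lit 1)) .nil))) .nil))) (.cons (.br (nat_lit 4) (nat_lit 1) (.cons (.br (nat_lit 8) (nat_lit 1) (.cons (.ev (nat_lit 79537647542604766904504614913) (nat_lit 1)) (.cons (.br (nat_lit 10) (nat_lit 1) (.cons (.ev (nat_lit 20680407326282425149543640269572) (nat_lit 3)) .nil)) .nil))) (.cons (.br (nat_lit 5) (nat_lit 0) (.cons (.kr (nat_lit 14185618813226636542208) (nat_lit 159075295048171366432639090688) (nat_lit 1) (nat_lit 0)) (.cons (.ev (nat_lit 310693935713299866442531073) (nat_lit 1)) .nil))) (.cons (.ev (nat_lit 20361947251175756388084496728321) (nat_lit 1)) .nil)))) .nil)))) (.cons (.kr (nat_lit 4740813226943354765312) (nat_lit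 79537647524085682662268731392) (nat_lit 8) (nat_lit 0)) (.cons (.br (nat_lit 10) (nat_lit 1) (.cons (.rf (nat_lit 3419) (nat_lit 493563215216757770272)) (.cons (.br (nat_lit 7) (nat_lit 0) (.cons (.br (nat_lit 13) (nat_lit 0) (.cons (.br (nat_lit 8) (nat_lit 1) (.cons (.ev (nat_lit 20678557679259897668546404484868) (nat_lit 3)) .nil)) (.cons (.zr (nat_lit 40961578989894377286892244828160) (nat_lit 3641018345268799904677889) (nat_lit 5) (nat_lit 0)) .nil))) (.cons (.br (nat_lit 1) (nat_lit 0) (.cons (.br (nat_lit 13) (nat_lit 0) (.cons (.zr (nat_lit 2427333481855927172727552) (nat_lit 238922427582078674534819430401) (nat_lit 5) (nat_lit 0)) .nil)) (.cons (.br (nat_lit 4) (nat_lit 1) (.cons (.ev (nat_lit 158458742898831106079084118530) (nat_lit 2)) .nil)) .nil))) (.cons (.br (nat_lit 4) (nat_lit 1) (.cons (.ev (nat_lit 1208925891672227507667201) (nat_lit 1)) (.cons (.ev (nat_lit 20282720297587383442342995361793) (nat_lit 1)) .nil))) .nil)))) (.cons (.br (nat_lit 13) (nat_lit 0) (.cons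 (.br (nat_lit 1) (nat_lit 0) (.cons (.ev (nat_lit 20361948464823942204112634904833) (nat_lit 1)) (.cons (.br (nat_lit 6) (nat_lit 1) (.cons (.ev (nat_lit 79228167255078408974764278530) (nat_lit 2)) .nil)) .nil))) (.cons (.ev (nat_lit 1213648258436567851335681) (nat_lit 1)) (.cons (.rf (nat_lit 3515) (nat_lit 457822648505293145152)) .nil)))) (.cons (.br (nat_lit 8) (nat_lit 1) (.cons (.br (nat_lit 5) (nat_lit 0) (.cons (.ev (nat_lit 79537647524085683766092169473) (nat_lit 1)) (.cons (.ev (nat_lit 79229371440084234797223837953) (nat_lit 1)) .nil))) (.cons (.kr (nat_lit 4740813226943354765312) (nat_lit 20361637766165934761540795236352) (nat_lit 8) (nat_lit 0)) (.cons (.br (nat_lit 5) (nat_lit 0) (.cons (.ev (nat_lit 20282720297587383442342995361793) (nat_lit 1)) (.cons (.ev (nat_lit 20282409603651742764115777617921) (nat_lit 1)) .nil))) .nil)))) .nil))))) .nil))))) .nil))))),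
 (.br (nat_lit 11) (nat_lit 1) (.cons (.rf (nat_lit 3419) (nat_lit 493565395547242989600)) (.cons (.br (nat_lit 9) (nat_lit 1) (.cons (.rf (nat_lit 3482) (nat_lit 493858305440582043680)) (.cons (.rf (nat_lit 3488) (nat_lit 493858305440582043680)) (.cons (.rf (nat_lit 3492) (nat_lit 493858305440582043680)) (.cons (.br (nat_lit 9) (nat_lit 1) (.cons (.rf (nat_lit 3482) (nat_lit 493858305440582043680)) (.cons (.rf (nat_lit 3488) (nat_lit 493858305440582043680)) (.cons (.rf (nat_lit 3492) (nat_lit 493858305440582043680)) .nil)))) .nil))))) (.cons (.rf (nat_lit 3515) (nat_lit 493858305440582043680)) (.cons (.br (nat_lit 9) (nat_lit 1) (.cons (.rf (nat_lit 3526) (nat_lit 493858305440582043680)) (.cons (.rf (nat_lit 3539) (nat_lit 493858305440582043680)) (.cons (.rf (nat_lit 3551) (nat_lit 493858305440582043680)) (.cons (.rf (nat_lit 3552) (nat_lit 493858305440582043680)) (.cons (.br (nat_lit 9) (nat_lit 1) (.cons (.rf (nat_lit 3526) (nat_lit 493858305440582043680)) (.cons (.rf (nat_lit 3539)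 (nat_lit 493858305440582043680)) (.cons (.rf (nat_lit 3551) (nat_lit 493858305440582043680)) (.cons (.rf (nat_lit 3552) (nat_lit 493858305440582043680)) .nil))))) .nil)))))) .nil))))),
 (.br (nat_lit 4) (nat_lit 1) (.cons (.kr (nat_lit 79228162551157826840474681600) (nat_lit 20282409603651743044491242700800) (nat_lit 1) (nat_lit 0)) .nil)),
 (.br (nat_lit 10) (nat_lit 1) (.cons (.br (nat_lit 8) (nat_lit 1) (.cons (.kr (nat_lit 1208925891672223229411328) (nat_lit 4740813228042866393088) (nat_lit 3) (nat_lit 0)) (.cons (.br (nat_lit 13) (nat_lit 0) (.cons (.br (nat_lit 6) (nat_lit 1) (.cons (.zr (nat_lit 2422574222166385118674944) (nat_lit 158765810056796764333817201153) (nat_lit 5) (nat_lit 11)) .nil)) (.cons (.rf (nat_lit 3554) (nat_lit 493858305440582043680)) .nil))) .nil))) .nil)),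
 (.br (nat_lit 10) (nat_lit 1) (.cons (.br (nat_lit 4) (nat_lit 1) (.cons (.rf (nat_lit 3462) (nat_lit 493786318215288293408)) (.cons (.br (nat_lit 13) (nat_lit 0) (.cons (.ev (nat_lit 20361948464823942205212146532353) (nat_lit 1)) (.cons (.br (nat_lit 2) (nat_lit 0) (.cons (.ev (nat_lit 79538856468352322844424732673) (nat_lit 1)) .nil)) .nil))) .nil))) (.cons (.br (nat_lit 6) (nat_lit 1) (.cons (.br (nat_lit 13) (nat_lit 0) (.cons (.br (nat_lit 7) (nat_lit 0) (.cons (.ev (nat_lit 79538856468352322844424732673) (nat_lit 1)) .nil)) (.cons (.br (nat_lit 4) (nat_lit 1) (.cons (.ev (nat_lit 79538856468352322844424732673) (nat_lit 1)) .nil)) .nil))) (.cons (.ev (nat_lit 79538861172343837755126579201) (nat_lit 1)) (.cons (.ev (nat_lit 20282719093383858251885638058241) (nat_lit 1)) .nil)))) .nil))),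
 (.br (nat_lit 10) (nat_lit 1) (.cons (.rf (nat_lit 3556) (nat_lit 493858305440582043680)) (.cons (.br (nat_lit 6) (nat_lit 1) (.cons (.br (nat_lit 13) (nat_lit 0) (.cons (.rf (nat_lit 3464) (nat_lit 493786318215288293408)) (.cons (.ev (nat_lit 20361947251194275189752260984833) (nat_lit 1)) .nil))) (.cons (.ev (nat_lit 20282719093383858251885638058241) (nat_lit 1)) .nil))) .nil))),
 (.br (nat_lit 9) (nat_lit 1) (.cons (.rf (nat_lit 3419) (nat_lit 493675700753833166880)) (.cons (.br (nat_lit 10) (nat_lit 1) (.cons (.rf (nat_lit 3555) (nat_lit 493858305440582043680)) (.cons (.br (nat_lit 10) (nat_lit 1) (.cons (.rf (nat_lit 3555) (nat_lit 493858305440582043680)) .nil)) .nil))) (.cons (.br (nat_lit 10) (nat_lit 1) (.cons (.rf (nat_lit 3556) (nat_lit 493858305440582043680)) (.cons (.rf (nat_lit 3557) (nat_lit 493858305440582043680)) (.cons (.br (nat_lit 10) (nat_lit 1) (.cons (.rf (nat_lit 3556) (nat_lit 493858305440582043680)) (.cons (.rf (nat_lit 3557) (nat_lit 493858305440582043680))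 .nil))) .nil)))) .nil)))),
 (.br (nat_lit 6) (nat_lit 1) (.cons (.ev (nat_lit 79537652246452447006890656001) (nat_lit 1)) (.cons (.br (nat_lit 10) (nat_lit 1) (.cons (.rf (nat_lit 795) (nat_lit 15069059359246368)) (.cons (.br (nat_lit 13) (nat_lit 0) (.cons (.br (nat_lit 8) (nat_lit 1) (.cons (.ev (nat_lit 159695507142938868070140216836) (nat_lit 3)) .nil)) (.cons (.ev (nat_lit 79538856468424381533696033025) (nat_lit 1)) .nil))) .nil))) .nil))),
 (.br (nat_lit 8) (nat_lit 1) (.cons (.ev (nat_lit 310693954159762465175437313) (nat_lit 1)) .nil)),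
 (.br (nat_lit 10) (nat_lit 1) (.cons (.rf (nat_lit 2725) (nat_lit 493783788239033010208)) (.cons (.br (nat_lit 4) (nat_lit 1) (.cons (.rf (nat_lit 3560) (nat_lit 493858305440582043680)) (.cons (.br (nat_lit 8) (nat_lit 1) (.cons (.ev (nat_lit 310698658079500165877661953) (nat_lit 1)) (.cons (.br (nat_lit 6) (nat_lit 1) (.cons (.ev (nat_lit 477228307755847331779889659908) (nat_lit 3)) .nil)) .nil))) .nil))) (.cons (.br (nat_lit 6) (nat_lit 1) (.cons (.br (nat_lit 7) (nat_lit 0) (.cons (.br (nat_lit 13) (nat_lit 0) (.cons (.ev (nat_lit 20678557669815020031283334153988) (nat_lit 3)) .nil)) (.cons (.br (nat_lit 4) (nat_lit 1) (.cons (.ev (nat_lit 158458747639571993957752700930) (nat_lit 2)) .nil)) .nil))) (.cons (.ev (nat_lit 79538861172343837755126579201) (nat_lit 1)) (.cons (.br (nat_lit 4) (nat_lit 1) (.cons (.rf (nat_lit 3540) (nat_lit 493786318215288293408)) (.cons (.br (nat_lit 8) (nat_lit 1) (.cons (.ev (nat_lit 21316089564936811252943342734088) (nat_lit 4)) .nil)) .nil))) .nil))))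 .nil)))),
 (.br (nat_lit 10) (nat_lit 1) (.cons (.rf (nat_lit 3561) (nat_lit 493858305440582043680)) (.cons (.rf (nat_lit 3543) (nat_lit 493786318215288293408)) (.cons (.br (nat_lit 6) (nat_lit 1) (.cons (.br (nat_lit 4) (nat_lit 1) (.cons (.ev (nat_lit 79537647524158021735578337281) (nat_lit 1)) (.cons (.ev (nat_lit 79538856449905297295738405121) (nat_lit 1)) .nil))) (.cons (.br (nat_lit 13) (nat_lit 0) (.cons (.br (nat_lit 8) (nat_lit 1) (.cons (.ev (nat_lit 477228307755847331779889659908) (nat_lit 3)) .nil)) (.cons (.ev (nat_lit 20361947255916641673721401114625) (nat_lit 1)) .nil))) (.cons (.br (nat_lit 8) (nat_lit 1) (.cons (.ev (nat_lit 20361948460120022465312421052673) (nat_lit 1)) (.cons (.ev (nat_lit 20361947255916641673721401114625) (nat_lit 1)) .nil))) .nil)))) .nil)))),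
 (.br (nat_lit 9) (nat_lit 1) (.cons (.rf (nat_lit 3419) (nat_lit 493675700753833166880)) (.cons (.br (nat_lit 10) (nat_lit 1) (.cons (.rf (nat_lit 3559) (nat_lit 493858305440582043680)) (.cons (.br (nat_lit 10) (nat_lit 1) (.cons (.rf (nat_lit 795) (nat_lit 15069059359246368)) (.cons (.rf (nat_lit 3543) (nat_lit 493821221112400414752)) .nil))) (.cons (.br (nat_lit 10) (nat_lit 1) (.cons (.rf (nat_lit 3559) (nat_lit 493858305440582043680)) (.cons (.rf (nat_lit 3543) (nat_lit 493821221112400414752)) .nil))) .nil)))) (.cons (.br (nat_lit 10) (nat_lit 1) (.cons (.rf (nat_lit 3561) (nat_lit 493858305440582043680)) (.cons (.br (nat_lit 10) (nat_lit 1) (.cons (.rf (nat_lit 2725) (nat_lit 493783788239033010208)) (.cons (.rf (nat_lit 3543) (nat_lit 493786318215288293408)) (.cons (.rf (nat_lit 3544) (nat_lit 493821221112400414752)) .nil)))) (.cons (.rf (nat_lit 3562) (nat_lit 493858305440582043680)) (.cons (.br (nat_lit 10) (nat_lit 1) (.cons (.rf (nat_lit 3561) (nat_lit 493858305440582043680))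 (.cons (.rf (nat_lit 3544) (nat_lit 493821221112400414752)) (.cons (.rf (nat_lit 3562) (nat_lit 493858305440582043680)) .nil)))) .nil))))) .nil)))),
 (.br (nat_lit 6) (nat_lit 1) (.cons (.br (nat_lit 10) (nat_lit 1) (.cons (.rf (nat_lit 3419) (nat_lit 493563215216757770272)) (.cons (.br (nat_lit 8) (nat_lit 1) (.cons (.ev (nat_lit 79538856468424381533696033025) (nat_lit 1)) (.cons (.br (nat_lit 2) (nat_lit 0) (.cons (.ev (nat_lit 620183686492268550198263810) (nat_lit 2)) .nil)) .nil))) .nil))) (.cons (.ev (nat_lit 79537652246452447006890656001) (nat_lit 1)) .nil))),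
 (.br (nat_lit 10) (nat_lit 1) (.cons (.rf (nat_lit 3419) (nat_lit 493563215216757770272)) (.cons (.br (nat_lit 8) (nat_lit 1) (.cons (.br (nat_lit 4) (nat_lit 1) (.cons (.ev (nat_lit 79228167236630823774659281666) (nat_lit 2)) (.cons (.ev (nat_lit 79231798755119064089100288770) (nat_lit 2)) .nil))) (.cons (.br (nat_lit 13) (nat_lit 0) (.cons (.br (nat_lit 1) (nat_lit 0) (.cons (.zr (nat_lit 9481626457185244610560) (nat_lit 314320713100085064712060929) (nat_lit 5) (nat_lit 0)) .nil)) (.cons (.br (nat_lit 4) (nat_lit 1) (.cons (.zr (nat_lit 9481626457185244610560) (nat_lit 314320713100085064712060929) (nat_lit 5) (nat_lit 0)) .nil)) .nil))) (.cons (.br (nat_lit 4) (nat_lit 1) (.cons (.br (nat_lit 2) (nat_lit 0) (.cons (.ev (nat_lit 20282409632078535954458900299780) (nat_lit 3)) .nil)) (.cons (.br (nat_lit 1) (nat_lit 0) (.cons (.ev (nat_lit 20837006769696905118177531330820) (nat_lit 3)) .nil)) .nil))) .nil)))) .nil))),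
 (.br (nat_lit 9) (nat_lit 1) (.cons (.rf (nat_lit 3558) (nat_lit 493858305440582043680)) (.cons (.rf (nat_lit 3563) (nat_lit 493858305440582043680)) (.cons (.br (nat_lit 10) (nat_lit 1) (.cons (.rf (nat_lit 3564) (nat_lit 493858305440582043680)) (.cons (.rf (nat_lit 3565) (nat_lit 493858305440582043680)) (.cons (.br (nat_lit 10) (nat_lit 1) (.cons (.rf (nat_lit 3564) (nat_lit 493858305440582043680)) (.cons (.rf (nat_lit 3565) (nat_lit 493858305440582043680)) .nil))) .nil)))) .nil)))),
 (.br (nat_lit 7) (nat_lit 0) (.cons (.kr (nat_lit 79228162551157826840474681600) (nat_lit 20282409603651743044491242700800) (nat_lit 1) (nat_lit 0)) .nil)),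
 (.br (nat_lit 2) (nat_lit 0) (.cons (.br (nat_lit 6) (nat_lit 1) (.cons (.ev (nat_lit 72057598349672449) (nat_lit 1)) (.cons (.br (nat_lit 13) (nat_lit 0) (.cons (.rf (nat_lit 3567) (nat_lit 493858305440582043680)) (.cons (.ev (nat_lit 20361638975091754376174264910081) (nat_lit 1)) .nil))) .nil))) (.cons (.ev (nat_lit 79537647524085965236773912833) (nat_lit 1)) (.cons (.br (nat_lit 4) (nat_lit 1) (.cons (.ev (nat_lit 18518801667764322561) (nat_lit 1)) (.cons (.br (nat_lit 10) (nat_lit 1) (.cons (.ev (nat_lit 79229371458602754994272796673) (nat_lit 1)) (.cons (.ev (nat_lit 20361638975110201120243679559681) (nat_lit 1)) .nil))) .nil))) .nil)))),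
 (.br (nat_lit 10) (nat_lit 1) (.cons (.rf (nat_lit 3568) (nat_lit 493858305440582043680)) (.cons (.br (nat_lit 6) (nat_lit 1) (.cons (.br (nat_lit 4) (nat_lit 1) (.cons (.ev (nat_lit 310693935641241177171230721) (nat_lit 1)) (.cons (.rf (nat_lit 3553) (nat_lit 457935134042368542752)) .nil))) (.cons (.rf (nat_lit 3446) (nat_lit 493786318215288293408)) .nil))) .nil))),
 (.br (nat_lit 6) (nat_lit 1) (.cons (.ev (nat_lit 79537647524085965236773912833) (nat_lit 1)) (.cons (.br (nat_lit 8) (nat_lit 1) (.cons (.kr (nat_lit 238303457562435704017593041152) (nat_lit 60847228810955083892385745272832) (nat_lit 1) (nat_lit 0)) .nil)) .nil))),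
 (.br (nat_lit 10) (nat_lit 1) (.cons (.br (nat_lit 13) (nat_lit 0) (.cons (.rf (nat_lit 3570) (nat_lit 493858305440582043680)) (.cons (.br (nat_lit 2) (nat_lit 0) (.cons (.ev (nat_lit 20282410812577490320055697735681) (nat_lit 1)) (.cons (.br (nat_lit 7) (nat_lit 0) (.cons (.ev (nat_lit 317229388695657107060525630980) (nat_lit 3)) .nil)) .nil))) (.cons (.rf (nat_lit 3553) (nat_lit 457822648505293145152)) .nil)))) (.cons (.kr (nat_lit 309485009821345068724781056) (nat_lit 20282409603651670423947251286016) (nat_lit 11) (nat_lit 0)) .nil))),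
 (.br (nat_lit 9) (nat_lit 1) (.cons (.rf (nat_lit 3419) (nat_lit 493675700753833166880)) (.cons (.br (nat_lit 10) (nat_lit 1) (.cons (.rf (nat_lit 3568) (nat_lit 493858305440582043680)) (.cons (.rf (nat_lit 3569) (nat_lit 493858305440582043680)) (.cons (.br (nat_lit 10) (nat_lit 1) (.cons (.rf (nat_lit 3568) (nat_lit 493858305440582043680)) (.cons (.rf (nat_lit 3569) (nat_lit 493858305440582043680)) .nil))) .nil)))) (.cons (.br (nat_lit 10) (nat_lit 1) (.cons (.rf (nat_lit 3571) (nat_lit 493858305440582043680)) (.cons (.br (nat_lit 10) (nat_lit 1) (.cons (.rf (nat_lit 3571) (nat_lit 493858305440582043680)) (.cons (.kr (nat_lit 309485009821345068724781056) (nat_lit 20282409603651670423947251286016) (nat_lit 11) (nat_lit 0)) .nil))) (.cons (.kr (nat_lit 309485009821345068724781056) (nat_lit 20282409603651670423947251286016) (nat_lit 11) (nat_lit 0)) .nil)))) .nil)))),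
 (.br (nat_lit 13) (nat_lit 0) (.cons (.br (nat_lit 7) (nat_lit 0) (.cons (.rf (nat_lit 3502) (nat_lit 15430852093430302752)) (.cons (.br (nat_lit 2) (nat_lit 0) (.cons (.br (nat_lit 10) (nat_lit 1) (.cons (.ev (nat_lit 20362256755149335326667984405252) (nat_lit 3)) .nil)) (.cons (.rf (nat_lit 3496) (nat_lit 457829470974939268160)) .nil))) .nil))) (.cons (.br (nat_lit 7) (nat_lit 0) (.cons (.rf (nat_lit 3502) (nat_lit 15430854292451461152)) (.cons (.br (nat_lit 6) (nat_lit 1) (.cons (.rf (nat_lit 3497) (nat_lit 457825039943079330880)) (.cons (.ev (nat_lit 20282719088661564108085007482881) (nat_lit 1)) .nil))) .nil))) (.cons (.br (nat_lit 10) (nat_lit 1) (.cons (.rf (nat_lit 3570) (nat_lit 493857214725047289888)) (.cons (.rf (nat_lit 3507) (nat_lit 493786318213142906912)) (.cons (.br (nat_lit 6) (nat_lit 1) (.cons (.ev (nat_lit 20361948460101647779932244279553) (nat_lit 1)) (.cons (.rf (nat_lit 3475) (nat_lit 457935134042368541760)) .nil))) .nil)))) .nil))))]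

theorem c126 : chkAll C T R L126 (nat_lit 3552) = true := by decide +kernel

theorem l126 : (nat_lit 3552) + L126.length = (nat_lit 3574) := by decide +kernel

/-- part of the certificates -/
def L127 : List Prf := [(.br (nat_lit 13) (nat_lit 0) (.cons (.rf (nat_lit 3573) (nat_lit 493858305440582043680)) (.cons (.br (nat_lit 7) (nat_lit 0) (.cons (.kr (nat_lit 20282409603670117168025255804928) (nat_lit 79537647524085964137245442048) (nat_lit 4) (nat_lit 0)) (.cons (.br (nat_lit 4) (nat_lit 1) (.cons (.rf (nat_lit 3497) (nat_lit 457822788143267742784)) (.cons (.ev (nat_lit 79228167255149623234743304193) (nat_lit 1)) .nil))) .nil))) (.cons (.br (nat_lit 2) (nat_lit 0) (.cons (.br (nat_lit 10) (nat_lit 1) (.cons (.rf (nat_lit 3506) (nat_lit 493786318215288293408)) (.cons (.ev (nat_lit 1213648258436567851335681) (nat_lit 1)) .nil))) (.cons (.ev (nat_lit 20361637766184381506714033192961) (nat_lit 1)) (.cons (.rf (nat_lit 3507) (nat_lit 493786318215288293408)) .nil)))) .nil)))),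
 (.br (nat_lit 13) (nat_lit 0) (.cons (.rf (nat_lit 3573) (nat_lit 493858305440582043680)) (.cons (.rf (nat_lit 3574) (nat_lit 493858305440582043680)) (.cons (.br (nat_lit 2) (nat_lit 0) (.cons (.br (nat_lit 10) (nat_lit 1) (.cons (.ev (nat_lit 20361637766165934762644618674433) (nat_lit 1)) (.cons (.ev (nat_lit 79228167255149623234743304193) (nat_lit 1)) .nil))) (.cons (.br (nat_lit 4) (nat_lit 1) (.cons (.ev (nat_lit 309489750634853487056257281) (nat_lit 1)) (.cons (.ev (nat_lit 20282719088661564108085007482881) (nat_lit 1)) .nil))) (.cons (.kr (nat_lit 20282409608392483650890606051328) (nat_lit 79538856449905297291443437568) (nat_lit 8) (nat_lit 0)) .nil)))) .nil)))),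
 (.br (nat_lit 10) (nat_lit 1) (.cons (.rf (nat_lit 2725) (nat_lit 493783788239033010208)) (.cons (.br (nat_lit 8) (nat_lit 1) (.cons (.br (nat_lit 7) (nat_lit 0) (.cons (.ev (nat_lit 158765819520192648028442591746) (nat_lit 2)) (.cons (.ev (nat_lit 79228167255149904705425047553) (nat_lit 1)) .nil))) (.cons (.kr (nat_lit 158765810038350020255812681984) (nat_lit 4740885284537409470464) (nat_lit 1) (nat_lit 0)) (.cons (.rf (nat_lit 3475) (nat_lit 457822648505293146144)) .nil)))) (.cons (.kr (nat_lit 309485009821345068724781056) (nat_lit 20282409603651670423947251286016) (nat_lit 11) (nat_lit 0)) .nil)))),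
 (.br (nat_lit 13) (nat_lit 0) (.cons (.rf (nat_lit 3507) (nat_lit 493821221110255028256)) (.cons (.rf (nat_lit 3507) (nat_lit 493821221112400414752)) (.cons (.rf (nat_lit 3507) (nat_lit 493821218915524642848)) .nil)))),
 (.br (nat_lit 9) (nat_lit 1) (.cons (.rf (nat_lit 3419) (nat_lit 493675700753833166880)) (.cons (.br (nat_lit 13) (nat_lit 0) (.cons (.rf (nat_lit 3573) (nat_lit 493858305440582043680)) (.cons (.rf (nat_lit 3574) (nat_lit 493858305440582043680)) (.cons (.rf (nat_lit 3575) (nat_lit 493858305440582043680)) (.cons (.br (nat_lit 13) (nat_lit 0) (.cons (.rf (nat_lit 3573) (nat_lit 493858305440582043680)) (.cons (.rf (nat_lit 3574) (nat_lit 493858305440582043680)) (.cons (.rf (nat_lit 3575) (nat_lit 493858305440582043680)) .nil)))) .nil))))) (.cons (.br (nat_lit 10) (nat_lit 1) (.cons (.rf (nat_lit 3576) (nat_lit 493858305440582043680)) (.cons (.br (nat_lit 10) (nat_lit 1) (.cons (.rf (nat_lit 2725) (nat_lit 493783788239033010208)) (.cons (.rf (nat_lit 3577) (nat_lit 493858305440582043680))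 (.cons (.kr (nat_lit 309485009821345068724781056) (nat_lit 20282409603651670423947251286016) (nat_lit 11) (nat_lit 0)) .nil)))) (.cons (.br (nat_lit 10) (nat_lit 1) (.cons (.rf (nat_lit 3576) (nat_lit 493858305440582043680)) (.cons (.rf (nat_lit 3577) (nat_lit 493858305440582043680)) (.cons (.kr (nat_lit 309485009821345068724781056) (nat_lit 20282409603651670423947251286016) (nat_lit 11) (nat_lit 0)) .nil)))) (.cons (.kr (nat_lit 309485009821345068724781056) (nat_lit 20282409603651670423947251286016) (nat_lit 11) (nat_lit 0)) .nil))))) .nil)))),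
 (.br (nat_lit 10) (nat_lit 1) (.cons (.rf (nat_lit 3419) (nat_lit 493563215216757770272)) (.cons (.br (nat_lit 8) (nat_lit 1) (.cons (.br (nat_lit 4) (nat_lit 1) (.cons (.ev (nat_lit 79537647524085683766092169473) (nat_lit 1)) (.cons (.rf (nat_lit 3228) (nat_lit 493563215216757769280)) .nil))) (.cons (.rf (nat_lit 3475) (nat_lit 457822648505293146144)) .nil))) (.cons (.kr (nat_lit 309485009821345068724781056) (nat_lit 20282409603651670423947251286016) (nat_lit 11) (nat_lit 0)) .nil)))),
 (.br (nat_lit 10) (nat_lit 1) (.cons (.rf (nat_lit 3419) (nat_lit 493563215216757770272)) (.cons (.br (nat_lit 13) (nat_lit 0) (.cons (.br (nat_lit 2) (nat_lit 0) (.cons (.ev (nat_lit 20282410812577490320055697735681) (nat_lit 1)) (.cons (.ev (nat_lit 79229371458602754994272796673) (nat_lit 1)) .nil))) (.cons (.ev (nat_lit 1213648258436567851335681) (nat_lit 1)) (.cons (.rf (nat_lit 3553) (nat_lit 457822648505293145152)) .nil)))) (.cons (.kr (nat_lit 309485009821345068724781056) (nat_lit 20282409603651670423947251286016)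 (nat_lit 11) (nat_lit 0)) .nil)))),
 (.br (nat_lit 9) (nat_lit 1) (.cons (.rf (nat_lit 3572) (nat_lit 493858305440582043680)) (.cons (.rf (nat_lit 3578) (nat_lit 493858305440582043680)) (.cons (.br (nat_lit 10) (nat_lit 1) (.cons (.rf (nat_lit 3579) (nat_lit 493858305440582043680)) (.cons (.rf (nat_lit 3580) (nat_lit 493858305440582043680)) (.cons (.br (nat_lit 10) (nat_lit 1) (.cons (.rf (nat_lit 3579) (nat_lit 493858305440582043680)) (.cons (.rf (nat_lit 3580) (nat_lit 493858305440582043680)) (.cons (.kr (nat_lit 309485009821345068724781056) (nat_lit 20282409603651670423947251286016) (nat_lit 11) (nat_lit 0)) .nil)))) (.cons (.kr (nat_lit 309485009821345068724781056) (nat_lit 20282409603651670423947251286016) (nat_lit 11) (nat_lit 0)) .nil))))) .nil)))),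
 (.br (nat_lit 11) (nat_lit 1) (.cons (.rf (nat_lit 3475) (nat_lit 493858305440582043680)) (.cons (.rf (nat_lit 3553) (nat_lit 493858305440582043680)) (.cons (.br (nat_lit 9) (nat_lit 1) (.cons (.rf (nat_lit 3558) (nat_lit 493858305440582043680)) (.cons (.rf (nat_lit 3563) (nat_lit 493858305440582043680)) (.cons (.rf (nat_lit 3566) (nat_lit 493858305440582043680)) (.cons (.br (nat_lit 9) (nat_lit 1) (.cons (.rf (nat_lit 3558) (nat_lit 493858305440582043680)) (.cons (.rf (nat_lit 3563) (nat_lit 493858305440582043680)) (.cons (.rf (nat_lit 3566) (nat_lit 493858305440582043680)) .nil)))) .nil))))) (.cons (.br (nat_lit 9) (nat_lit 1) (.cons (.rf (nat_lit 3572) (nat_lit 493858305440582043680)) (.cons (.rf (nat_lit 3578) (nat_lit 493858305440582043680)) (.cons (.rf (nat_lit 3581) (nat_lit 493858305440582043680)) (.cons (.br (nat_lit 9) (nat_lit 1) (.cons (.rf (nat_lit 3572) (nat_lit 493858305440582043680)) (.cons (.rf (nat_lit 3578) (nat_lit 493858305440582043680)) (.cons (.rf (nat_lit 3581)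 (nat_lit 493858305440582043680)) .nil)))) .nil))))) .nil))))),
 (.br (nat_lit 13) (nat_lit 0) (.cons (.br (nat_lit 2) (nat_lit 0) (.cons (.br (nat_lit 1) (nat_lit 0) (.cons (.rf (nat_lit 3419) (nat_lit 493675700753833166880)) (.cons (.br (nat_lit 5) (nat_lit 0) (.cons (.zr (nat_lit 309485009821909118206607616) (nat_lit 4759259971017064382465) (nat_lit 5) (nat_lit 3)) (.cons (.ev (nat_lit 20361638975091754658744458280961) (nat_lit 1)) .nil))) .nil))) (.cons (.br (nat_lit 1) (nat_lit 0) (.cons (.br (nat_lit 9) (nat_lit 1) (.cons (.ev (nat_lit 20361637770906748271062933373185) (nat_lit 1)) (.cons (.ev (nat_lit 20282719093383930590954635985153) (nat_lit 1)) .nil))) (.cons (.rf (nat_lit 3419) (nat_lit 493563215216757770272)) .nil))) .nil))) (.cons (.br (nat_lit 5) (nat_lit 0) (.cons (.br (nat_lit 7) (nat_lit 0) (.cons (.kr (nat_lit 9463179709812999979008) (nat_lit 20361947251175756106609520017408) (nat_lit 8) (nat_lit 0)) (.cons (.br (nat_lit 9) (nat_lit 1) (.cons (.ev (nat_lit 4740885566016664371201)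 (nat_lit 1)) (.cons (.ev (nat_lit 20362566230695616675044441325570) (nat_lit 2)) .nil))) .nil))) (.cons (.kr (nat_lit 4722366482869645213696) (nat_lit 20282409603651670423947251286016) (nat_lit 9) (nat_lit 0)) (.cons (.br (nat_lit 8) (nat_lit 1) (.cons (.br (nat_lit 9) (nat_lit 1) (.cons (.ev (nat_lit 79228162532711364246036873473) (nat_lit 1)) (.cons (.br (nat_lit 2) (nat_lit 0) (.cons (.ev (nat_lit 1213648186378978091663361) (nat_lit 1)) .nil)) .nil))) (.cons (.br (nat_lit 9) (nat_lit 1) (.cons (.ev (nat_lit 309489732188110517153366273) (nat_lit 1)) (.cons (.ev (nat_lit 79228167255149904705425047553) (nat_lit 1)) .nil))) (.cons (.br (nat_lit 2) (nat_lit 0) (.cons (.ev (nat_lit 79228167255149904705425047553) (nat_lit 1)) (.cons (.ev (nat_lit 79538856468352322844424732673) (nat_lit 1)) .nil))) .nil)))) .nil)))) (.cons (.br (nat_lit 1) (nat_lit 0) (.cons (.br (nat_lit 7) (nat_lit 0) (.cons (.ev (nat_lit 20282409603670189507094270443521) (nat_lit 1)) (.cons (.br (nat_lit 2) (nat_lit 0)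 (.cons (.br (nat_lit 9) (nat_lit 1) (.cons (.ev (nat_lit 20678557669777982421333556265732) (nat_lit 3)) .nil)) .nil)) .nil))) (.cons (.br (nat_lit 9) (nat_lit 1) (.cons (.rf (nat_lit 3419) (nat_lit 493675700753833166880)) (.cons (.br (nat_lit 8) (nat_lit 1) (.cons (.br (nat_lit 10) (nat_lit 1) (.cons (.ev (nat_lit 20679790774113989343091756565252) (nat_lit 3)) .nil)) (.cons (.ev (nat_lit 20282409608392483933465094389761) (nat_lit 1)) .nil))) (.cons (.rf (nat_lit 3553) (nat_lit 457935134042368542752)) .nil)))) (.cons (.br (nat_lit 7) (nat_lit 0) (.cons (.ev (nat_lit 20282720297605830466792169930753) (nat_lit 1)) (.cons (.br (nat_lit 9) (nat_lit 1) (.cons (.rf (nat_lit 3475) (nat_lit 457935134042368541760)) (.cons (.br (nat_lit 8) (nat_lit 1) (.cons (.ev (nat_lit 21157016668961491949935523726600) (nat_lit 4)) .nil)) .nil))) .nil))) .nil)))) .nil)))),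
 (.br (nat_lit 2) (nat_lit 0) (.cons (.rf (nat_lit 3583) (nat_lit 493858305440582043680)) (.cons (.br (nat_lit 1) (nat_lit 0) (.cons (.br (nat_lit 5) (nat_lit 0) (.cons (.br (nat_lit 13) (nat_lit 0) (.cons (.rf (nat_lit 3528) (nat_lit 457935134111020909632)) .nil)) (.cons (.ev (nat_lit 79228162532711364246036873473) (nat_lit 1)) .nil))) (.cons (.rf (nat_lit 3419) (nat_lit 493675700753833166880)) (.cons (.br (nat_lit 9) (nat_lit 1) (.cons (.br (nat_lit 10) (nat_lit 1) (.cons (.ev (nat_lit 310698658079500165877661953) (nat_lit 1)) (.cons (.ev (nat_lit 20282720302309677867614307680513) (nat_lit 1)) .nil))) (.cons (.br (nat_lit 10) (nat_lit 1) (.cons (.br (nat_lit 13) (nat_lit 0) (.cons (.ev (nat_lit 79234230829416120595918554116) (nat_lit 3)) .nil)) (.cons (.br (nat_lit 6) (nat_lit 1) (.cons (.ev (nat_lit 79543701653258929612431296260) (nat_lit 3)) .nil)) .nil))) (.cons (.br (nat_lit 5) (nat_lit 0) (.cons (.ev (nat_lit 79537661709632438294867345922) (nat_lit 2)) (.cons (.ev (nat_lit 20282720302309677867614307680513)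 (nat_lit 1)) .nil))) .nil)))) .nil)))) (.cons (.br (nat_lit 13) (nat_lit 0) (.cons (.ev (nat_lit 20282719088661492050495247810561) (nat_lit 1)) (.cons (.br (nat_lit 5) (nat_lit 0) (.cons (.br (nat_lit 1) (nat_lit 0) (.cons (.ev (nat_lit 20361637770906748271062933373185) (nat_lit 1)) (.cons (.rf (nat_lit 3419) (nat_lit 493563215216757770272)) .nil))) (.cons (.kr (nat_lit 4722366482869645213696) (nat_lit 20282409603651670423947251286016) (nat_lit 9) (nat_lit 0)) (.cons (.br (nat_lit 9) (nat_lit 1) (.cons (.ev (nat_lit 20282720302309677867614307680513) (nat_lit 1)) (.cons (.ev (nat_lit 20361638979832639661811169296385) (nat_lit 1)) .nil))) .nil)))) (.cons (.ev (nat_lit 20361638975110201120243679559681) (nat_lit 1)) .nil)))) .nil)))),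
 (.br (nat_lit 2) (nat_lit 0) (.cons (.rf (nat_lit 3583) (nat_lit 493858305440582043680)) (.cons (.rf (nat_lit 3584) (nat_lit 493858305440582043680)) (.cons (.br (nat_lit 1) (nat_lit 0) (.cons (.br (nat_lit 13) (nat_lit 0) (.cons (.ev (nat_lit 20282719088679938513093980586241) (nat_lit 1)) (.cons (.br (nat_lit 5) (nat_lit 0) (.cons (.ev (nat_lit 309489732188110517153366273) (nat_lit 1)) (.cons (.rf (nat_lit 2340) (nat_lit 457857653722420937792)) .nil))) (.cons (.br (nat_lit 9) (nat_lit 1) (.cons (.rf (nat_lit 3545) (nat_lit 493858305268783356960)) (.cons (.rf (nat_lit 3553) (nat_lit 457935134042368541760)) .nil))) .nil)))) (.cons (.br (nat_lit 5) (nat_lit 0) (.cons (.br (nat_lit 13) (nat_lit 0) (.cons (.ev (nat_lit 20361637770906748271062933373185) (nat_lit 1)) (.cons (.br (nat_lit 9) (nat_lit 1) (.cons (.zr (nat_lit 2422592668628983851515904) (nat_lit 158765810038350301735084490753) (nat_lit 5) (nat_lit 11)) .nil)) .nil))) (.cons (.br (nat_lit 13) (nat_lit 0) (.cons (.ev (nat_lit 20361637770906748271062933373185)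 (nat_lit 1)) (.cons (.rf (nat_lit 3545) (nat_lit 493858305268783356960)) .nil))) (.cons (.br (nat_lit 9) (nat_lit 1) (.cons (.br (nat_lit 13) (nat_lit 0) (.cons (.ev (nat_lit 20679788356299387721584195471108) (nat_lit 3)) .nil)) (.cons (.ev (nat_lit 20361638975110201121343191187713) (nat_lit 1)) .nil))) .nil)))) (.cons (.rf (nat_lit 3419) (nat_lit 493675700753833166880)) (.cons (.rf (nat_lit 3419) (nat_lit 493563215216757770272)) .nil))))) .nil)))),
 (.br (nat_lit 2) (nat_lit 0) (.cons (.rf (nat_lit 3583) (nat_lit 493858305440582043680)) (.cons (.rf (nat_lit 3584) (nat_lit 493858305440582043680)) (.cons (.rf (nat_lit 3585) (nat_lit 493858305440582043680)) (.cons (.br (nat_lit 2) (nat_lit 0) (.cons (.rf (nat_lit 3583) (nat_lit 493858305440582043680)) (.cons (.rf (nat_lit 3584) (nat_lit 493858305440582043680)) (.cons (.rf (nat_lit 3585) (nat_lit 493858305440582043680)) .nil)))) .nil))))),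
 (.br (nat_lit 1) (nat_lit 0) (.cons (.br (nat_lit 9) (nat_lit 1) (.cons (.rf (nat_lit 3419) (nat_lit 493675700753833166880)) (.cons (.rf (nat_lit 3350) (nat_lit 493675700753732506656)) (.cons (.br (nat_lit 5) (nat_lit 0) (.cons (.br (nat_lit 10) (nat_lit 1) (.cons (.ev (nat_lit 20520720314806422839542654895876) (nat_lit 3)) .nil)) .nil)) .nil)))) (.cons (.br (nat_lit 2) (nat_lit 0) (.cons (.br (nat_lit 9) (nat_lit 1) (.cons (.kr (nat_lit 20282409603651670423951546253312) (nat_lit 4722366764344621924352) (nat_lit 4) (nat_lit 0)) (.cons (.ev (nat_lit 20282409608392483650894901018881) (nat_lit 1)) .nil))) (.cons (.rf (nat_lit 3419) (nat_lit 493563215216757770272)) .nil))) .nil))),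
 (.br (nat_lit 2) (nat_lit 0) (.cons (.rf (nat_lit 3587) (nat_lit 493858305440582043680)) (.cons (.br (nat_lit 1) (nat_lit 0) (.cons (.br (nat_lit 5) (nat_lit 0) (.cons (.ev (nat_lit 20361637770906748271062933373185) (nat_lit 1)) (.cons (.br (nat_lit 9) (nat_lit 1) (.cons (.ev (nat_lit 20520720314806422839542654895876) (nat_lit 3)) .nil)) .nil))) (.cons (.kr (nat_lit 18446744073709551872) (nat_lit 281474976776192) (nat_lit 1) (nat_lit 0)) (.cons (.rf (nat_lit 3419) (nat_lit 493563215216757770272)) .nil)))) .nil))),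
 (.br (nat_lit 2) (nat_lit 0) (.cons (.br (nat_lit 7) (nat_lit 0) (.cons (.br (nat_lit 5) (nat_lit 0) (.cons (.br (nat_lit 1) (nat_lit 0) (.cons (.ev (nat_lit 1208925891672227507667201) (nat_lit 1)) .nil)) .nil)) (.cons (.br (nat_lit 10) (nat_lit 1) (.cons (.ev (nat_lit 20282720297605830185312898252801) (nat_lit 1)) (.cons (.br (nat_lit 9) (nat_lit 1) (.cons (.ev (nat_lit 20682895352398561929979178584328) (nat_lit 4)) .nil)) .nil))) .nil))) (.cons (.br (nat_lit 1) (nat_lit 0) (.cons (.br (nat_lit 5) (nat_lit 0) (.cons (.br (nat_lit 7) (nat_lit 0) (.cons (.ev (nat_lit 20680407326281992241029493228292) (nat_lit 3)) .nil)) .nil)) (.cons (.br (nat_lit 10) (nat_lit 1) (.cons (.ev (nat_lit 20361638975091754377273776537601) (nat_lit 1)) (.cons (.ev (nat_lit 20361638979814192916633653084161) (nat_lit 1)) .nil))) .nil))) (.cons (.br (nat_lit 10) (nat_lit 1) (.cons (.rf (nat_lit 3419) (nat_lit 493563215216757770272)) (.cons (.br (nat_lit 1) (nat_lit 0) (.cons (.br (nat_lit 7) (nat_lit 0) (.cons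 (.ev (nat_lit 21473934192279686364749193741576) (nat_lit 4)) .nil)) (.cons (.br (nat_lit 7) (nat_lit 0) (.cons (.ev (nat_lit 20837642645715204678909850225928) (nat_lit 4)) .nil)) .nil))) (.cons (.ev (nat_lit 20282410812577490320055697735681) (nat_lit 1)) .nil)))) .nil)))),
 (.br (nat_lit 2) (nat_lit 0) (.cons (.rf (nat_lit 3589) (nat_lit 493858305440582043680)) (.cons (.br (nat_lit 7) (nat_lit 0) (.cons (.br (nat_lit 1) (nat_lit 0) (.cons (.br (nat_lit 5) (nat_lit 0) (.cons (.ev (nat_lit 79540079598308707947348361730) (nat_lit 2)) .nil)) .nil)) (.cons (.br (nat_lit 1) (nat_lit 0) (.cons (.br (nat_lit 10) (nat_lit 1) (.cons (.ev (nat_lit 79540079598308707947348361730) (nat_lit 2)) .nil)) (.cons (.ev (nat_lit 20361638979814192916633653084161) (nat_lit 1)) .nil))) .nil))) (.cons (.br (nat_lit 1) (nat_lit 0) (.cons (.br (nat_lit 5) (nat_lit 0) (.cons (.ev (nat_lit 20361637770906748271062933373185) (nat_lit 1)) (.cons (.ev (nat_lit 20361638975091754377273776537601) (nat_lit 1)) .nil))) (.cons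 (.br (nat_lit 4) (nat_lit 1) (.cons (.ev (nat_lit 309489750634854586567884801) (nat_lit 1)) (.cons (.br (nat_lit 5) (nat_lit 0) (.cons (.ev (nat_lit 20520720314769529914345188820228) (nat_lit 3)) .nil)) .nil))) (.cons (.rf (nat_lit 3419) (nat_lit 493563215216757770272)) .nil)))) .nil)))),
 (.br (nat_lit 2) (nat_lit 0) (.cons (.rf (nat_lit 3589) (nat_lit 493858305440582043680)) (.cons (.rf (nat_lit 3590) (nat_lit 493858305440582043680)) (.cons (.br (nat_lit 10) (nat_lit 1) (.cons (.rf (nat_lit 3419) (nat_lit 493563215216757770272)) (.cons (.br (nat_lit 4) (nat_lit 1) (.cons (.ev (nat_lit 20361638975091754377273776537601) (nat_lit 1)) (.cons (.br (nat_lit 8) (nat_lit 1) (.cons (.ev (nat_lit 20996715522948629161830387486472) (nat_lit 4)) .nil)) .nil))) (.cons (.rf (nat_lit 2686) (nat_lit 493858305440481383456)) .nil)))) .nil)))),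
 (.br (nat_lit 5) (nat_lit 0) (.cons (.br (nat_lit 2) (nat_lit 0) (.cons (.br (nat_lit 9) (nat_lit 1) (.cons (.rf (nat_lit 3419) (nat_lit 493675700753833166880)) (.cons (.br (nat_lit 1) (nat_lit 0) (.cons (.ev (nat_lit 1213648186098598331613441) (nat_lit 1)) .nil)) .nil))) (.cons (.ev (nat_lit 79228162532711081667253567489) (nat_lit 1)) .nil))) (.cons (.br (nat_lit 1) (nat_lit 0) (.cons (.br (nat_lit 9) (nat_lit 1) (.cons (.br (nat_lit 10) (nat_lit 1) (.cons (.ev (nat_lit 20680407326281992241029493228292) (nat_lit 3)) .nil)) (.cons (.br (nat_lit 2) (nat_lit 0) (.cons (.zr (nat_lit 2422574222166385118674944) (nat_lit 158765810056796766532840456193) (nat_lit 5) (nat_lit 11)) .nil)) .nil))) (.cons (.br (nat_lit 2) (nat_lit 0) (.cons (.br (nat_lit 7) (nat_lit 0) (.cons (.ev (nat_lit 20679174221945985319271292928772) (nat_lit 3)) .nil)) (.cons (.ev (nat_lit 20361638975091754376174264910081) (nat_lit 1)) .nil))) (.cons (.br (nat_lit 9) (nat_lit 1) (.cons (.br (nat_lit 8) (nat_lit 1) (.cons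 (.ev (nat_lit 20520713089548811123788011865348) (nat_lit 3)) .nil)) (.cons (.ev (nat_lit 79537652246452447006890656001) (nat_lit 1)) .nil))) .nil)))) (.cons (.br (nat_lit 1) (nat_lit 0) (.cons (.br (nat_lit 2) (nat_lit 0) (.cons (.br (nat_lit 9) (nat_lit 1) (.cons (.ev (nat_lit 317222144604207079116343804420) (nat_lit 3)) .nil)) .nil)) (.cons (.br (nat_lit 2) (nat_lit 0) (.cons (.br (nat_lit 9) (nat_lit 1) (.cons (.zr (nat_lit 618970019858862919597096960) (nat_lit 1227833732571660736790529) (nat_lit 5) (nat_lit 0)) .nil)) (.cons (.ev (nat_lit 309489732187829037881688321) (nat_lit 1)) .nil))) .nil))) .nil))))]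

theorem c127 : chkAll C T R L127 (nat_lit 3574) = true := by decide +kernel

theorem l127 : (nat_lit 3574) + L127.length = (nat_lit 3593) := by decide +kernel

/-- part of the certificates -/
def L128 : List Prf := [(.br (nat_lit 2) (nat_lit 0) (.cons (.rf (nat_lit 3592) (nat_lit 493858305440582043680)) (.cons (.br (nat_lit 5) (nat_lit 0) (.cons (.br (nat_lit 1) (nat_lit 0) (.cons (.rf (nat_lit 3419) (nat_lit 493675700753833166880)) (.cons (.br (nat_lit 7) (nat_lit 0) (.cons (.ev (nat_lit 1213648186098598331613441) (nat_lit 1)) .nil)) .nil))) (.cons (.br (nat_lit 10) (nat_lit 1) (.cons (.br (nat_lit 7) (nat_lit 0) (.cons (.zr (nat_lit 79228162514408454980643127552) (nat_lit 1213648186378982386565121) (nat_lit 5) (nat_lit 0)) .nil)) (.cons (.ev (nat_lit 20361947255916641673721401114625) (nat_lit 1)) .nil))) (.cons (.ev (nat_lit 310693935640959697899552769) (nat_lit 1)) .nil)))) (.cons (.br (nat_lit 5) (nat_lit 0) (.cons (.br (nat_lit 1) (nat_lit 0) (.cons (.br (nat_lit 7) (nat_lit 0)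 (.cons (.ev (nat_lit 1213648186098598331613441) (nat_lit 1)) .nil)) .nil)) (.cons (.br (nat_lit 9) (nat_lit 1) (.cons (.br (nat_lit 4) (nat_lit 1) (.cons (.zr (nat_lit 79228162514408454980643127552) (nat_lit 1213648186378982386565121) (nat_lit 5) (nat_lit 0)) .nil)) (.cons (.br (nat_lit 1) (nat_lit 0) (.cons (.zr (nat_lit 2422574222166385118674944) (nat_lit 158765810056796766532840456193) (nat_lit 5) (nat_lit 11)) .nil)) .nil))) .nil))) .nil)))),
 (.br (nat_lit 2) (nat_lit 0) (.cons (.rf (nat_lit 3592) (nat_lit 493858305440582043680)) (.cons (.rf (nat_lit 3593) (nat_lit 493858305440582043680)) (.cons (.br (nat_lit 9) (nat_lit 1) (.cons (.rf (nat_lit 3419) (nat_lit 493675700753833166880)) (.cons (.br (nat_lit 4) (nat_lit 1) (.cons (.br (nat_lit 7) (nat_lit 0) (.cons (.ev (nat_lit 20837625739679655450457025873156) (nat_lit 3)) .nil)) (.cons (.ev (nat_lit 309485009893403766569369601) (nat_lit 1)) .nil))) (.cons (.br (nat_lit 1) (nat_lit 0) (.cons (.br (nat_lit 5) (nat_lit 0) (.cons (.ev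 (nat_lit 79228167255149622135231676673) (nat_lit 1)) .nil)) (.cons (.br (nat_lit 4) (nat_lit 1) (.cons (.zr (nat_lit 2422592668628983851515904) (nat_lit 158765810038350301735084490753) (nat_lit 5) (nat_lit 11)) .nil)) .nil))) .nil)))) .nil)))),
 (.br (nat_lit 13) (nat_lit 0) (.cons (.rf (nat_lit 3586) (nat_lit 493858305440582043680)) (.cons (.br (nat_lit 2) (nat_lit 0) (.cons (.rf (nat_lit 3587) (nat_lit 493858305440582043680)) (.cons (.rf (nat_lit 3588) (nat_lit 493858305440582043680)) (.cons (.br (nat_lit 2) (nat_lit 0) (.cons (.rf (nat_lit 3587) (nat_lit 493858305440582043680)) (.cons (.rf (nat_lit 3588) (nat_lit 493858305440582043680)) .nil))) .nil)))) (.cons (.br (nat_lit 2) (nat_lit 0) (.cons (.rf (nat_lit 3589) (nat_lit 493858305440582043680)) (.cons (.rf (nat_lit 3590) (nat_lit 493858305440582043680)) (.cons (.rf (nat_lit 3591) (nat_lit 493858305440582043680)) (.cons (.br (nat_lit 2) (nat_lit 0) (.cons (.rf (nat_lit 3589) (nat_lit 493858305440582043680)) (.cons (.rf (nat_lit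 3590) (nat_lit 493858305440582043680)) (.cons (.rf (nat_lit 3591) (nat_lit 493858305440582043680)) .nil)))) .nil))))) (.cons (.br (nat_lit 2) (nat_lit 0) (.cons (.rf (nat_lit 3592) (nat_lit 493858305440582043680)) (.cons (.rf (nat_lit 3593) (nat_lit 493858305440582043680)) (.cons (.rf (nat_lit 3594) (nat_lit 493858305440582043680)) (.cons (.br (nat_lit 2) (nat_lit 0) (.cons (.rf (nat_lit 3592) (nat_lit 493858305440582043680)) (.cons (.rf (nat_lit 3593) (nat_lit 493858305440582043680)) (.cons (.rf (nat_lit 3594) (nat_lit 493858305440582043680)) .nil)))) .nil))))) .nil))))),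
 (.br (nat_lit 6) (nat_lit 1) (.cons (.ev (nat_lit 79538856468352322844424667393) (nat_lit 1)) (.cons (.br (nat_lit 9) (nat_lit 1) (.cons (.ev (nat_lit 20361638979832639661811169231105) (nat_lit 1)) (.cons (.ev (nat_lit 20282409608374037188296168243201) (nat_lit 1)) .nil))) .nil))),
 (.br (nat_lit 10) (nat_lit 1) (.cons (.rf (nat_lit 3419) (nat_lit 493563215216757770272)) (.cons (.br (nat_lit 4) (nat_lit 1) (.cons (.br (nat_lit 2) (nat_lit 0) (.cons (.br (nat_lit 9) (nat_lit 1) (.cons (.ev (nat_lit 20679788365707083079572697580292) (nat_lit 3)) .nil)) (.cons (.ev (nat_lit 20282720302309677867614307680513) (nat_lit 1)) .nil))) (.cons (.rf (nat_lit 3596) (nat_lit 493858305440582043680)) .nil))) (.cons (.rf (nat_lit 3475) (nat_lit 457822648505293146144)) .nil)))),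
 (.br (nat_lit 10) (nat_lit 1) (.cons (.rf (nat_lit 3419) (nat_lit 493563215216757770272)) (.cons (.br (nat_lit 7) (nat_lit 0) (.cons (.rf (nat_lit 3596) (nat_lit 493858305440582042688)) (.cons (.br (nat_lit 1) (nat_lit 0) (.cons (.br (nat_lit 9) (nat_lit 1) (.cons (.ev (nat_lit 21471463148015365576665002476296) (nat_lit 4)) .nil)) (.cons (.ev (nat_lit 79538861172343837755126579201) (nat_lit 1)) .nil))) (.cons (.br (nat_lit 2) (nat_lit 0) (.cons (.ev (nat_lit 20361638979832639661811169296385) (nat_lit 1)) (.cons (.br (nat_lit 1) (nat_lit 0) (.cons (.ev (nat_lit 20678550444557263630776379310852) (nat_lit 3)) .nil)) .nil))) .nil)))) (.cons (.rf (nat_lit 3553) (nat_lit 457822648505293145152)) .nil)))),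
 (.br (nat_lit 10) (nat_lit 1) (.cons (.rf (nat_lit 3597) (nat_lit 493858305440582043680)) (.cons (.rf (nat_lit 3598) (nat_lit 493858305440582043680)) (.cons (.br (nat_lit 4) (nat_lit 1) (.cons (.br (nat_lit 9) (nat_lit 1) (.cons (.ev (nat_lit 40644666344578277277562906345730) (nat_lit 2)) .nil)) (.cons (.br (nat_lit 9) (nat_lit 1) (.cons (.br (nat_lit 2) (nat_lit 0) (.cons (.ev (nat_lit 20680424307949769760474126159112) (nat_lit 4)) .nil)) (.cons (.ev (nat_lit 20361638979832639661811169296385) (nat_lit 1)) .nil))) .nil))) .nil)))),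
 (.br (nat_lit 2) (nat_lit 0) (.cons (.ev (nat_lit 20282720302309677867614307680513) (nat_lit 1)) (.cons (.zr (nat_lit 309485009821909118206607616) (nat_lit 4759259971017064382465) (nat_lit 5) (nat_lit 3)) .nil))),
 (.br (nat_lit 9) (nat_lit 1) (.cons (.rf (nat_lit 3600) (nat_lit 493858305440582043680)) (.cons (.br (nat_lit 5) (nat_lit 0) (.cons (.br (nat_lit 6) (nat_lit 1) (.cons (.ev (nat_lit 20521963119067797690037725365000) (nat_lit 4)) .nil)) (.cons (.br (nat_lit 4) (nat_lit 1) (.cons (.ev (nat_lit 79541274319992118359852319490) (nat_lit 2)) .nil)) .nil))) .nil))),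
 (.br (nat_lit 9) (nat_lit 1) (.cons (.rf (nat_lit 3600) (nat_lit 493858305440582043680)) (.cons (.br (nat_lit 6) (nat_lit 1) (.cons (.br (nat_lit 4) (nat_lit 1) (.cons (.ev (nat_lit 20282719088661492050495247810561) (nat_lit 1)) .nil)) .nil)) .nil))),
 (.br (nat_lit 9) (nat_lit 1) (.cons (.rf (nat_lit 3419) (nat_lit 493675700753833166880)) (.cons (.br (nat_lit 6) (nat_lit 1) (.cons (.br (nat_lit 4) (nat_lit 1) (.cons (.ev (nat_lit 79537647524158022835089965313) (nat_lit 1)) .nil)) .nil)) .nil))),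
 (.br (nat_lit 9) (nat_lit 1) (.cons (.rf (nat_lit 3419) (nat_lit 493675700753833166880)) (.cons (.br (nat_lit 2) (nat_lit 0) (.cons (.ev (nat_lit 20361638979832639661811169296385) (nat_lit 1)) (.cons (.ev (nat_lit 20361947255916641673721401114625) (nat_lit 1)) .nil))) .nil))),
 (.br (nat_lit 13) (nat_lit 0) (.cons (.rf (nat_lit 3586) (nat_lit 493858305440582043680)) (.cons (.rf (nat_lit 3595) (nat_lit 493858305440582043680)) (.cons (.br (nat_lit 10) (nat_lit 1) (.cons (.rf (nat_lit 3597) (nat_lit 493858305440582043680)) (.cons (.rf (nat_lit 3598) (nat_lit 493858305440582043680)) (.cons (.rf (nat_lit 3599) (nat_lit 493858305440582043680)) (.cons (.br (nat_lit 10) (nat_lit 1) (.cons (.rf (nat_lit 3475) (nat_lit 457822648505293146144)) (.cons (.rf (nat_lit 3553) (nat_lit 457822648505293145152)) (.cons (.rf (nat_lit 3599) (nat_lit 493858305440582043680)) .nil)))) .nil))))) (.cons (.br (nat_lit 10) (nat_lit 1) (.cons (.br (nat_lit 9) (nat_lit 1) (.cons (.rf (nat_lit 3601) (nat_lit 493858305440582043680))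 (.cons (.rf (nat_lit 3602) (nat_lit 493858305440582043680)) (.cons (.br (nat_lit 9) (nat_lit 1) (.cons (.rf (nat_lit 3601) (nat_lit 493858305440582043680)) (.cons (.rf (nat_lit 3602) (nat_lit 493858305440582043680)) .nil))) .nil)))) (.cons (.br (nat_lit 5) (nat_lit 0) (.cons (.br (nat_lit 7) (nat_lit 0) (.cons (.br (nat_lit 1) (nat_lit 0) (.cons (.br (nat_lit 2) (nat_lit 0) (.cons (.ev (nat_lit 309489732187829037881688321) (nat_lit 1)) .nil)) .nil)) (.cons (.br (nat_lit 2) (nat_lit 0) (.cons (.br (nat_lit 9) (nat_lit 1) (.cons (.zr (nat_lit 2422574222166385118674944) (nat_lit 158765810056796764333817201153) (nat_lit 5) (nat_lit 11)) .nil)) (.cons (.ev (nat_lit 20361638979832639661811169296385) (nat_lit 1)) .nil))) .nil))) (.cons (.br (nat_lit 1) (nat_lit 0) (.cons (.ev (nat_lit 79228162514264619068520661249) (nat_lit 1)) (.cons (.br (nat_lit 9) (nat_lit 1) (.cons (.rf (nat_lit 3419) (nat_lit 493675700753833166880)) (.cons (.br (nat_lit 2) (nat_lit 0) (.cons (.zr (nat_lit 9444733531987778928640)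 (nat_lit 310693954087703775971115009) (nat_lit 5) (nat_lit 0)) .nil)) .nil))) .nil))) (.cons (.br (nat_lit 6) (nat_lit 1) (.cons (.br (nat_lit 7) (nat_lit 0) (.cons (.ev (nat_lit 20282720297605830466792169930753) (nat_lit 1)) (.cons (.br (nat_lit 4) (nat_lit 1) (.cons (.ev (nat_lit 1213666632841576824439041) (nat_lit 1)) .nil)) .nil))) (.cons (.br (nat_lit 4) (nat_lit 1) (.cons (.ev (nat_lit 20361638975091754657644946653441) (nat_lit 1)) (.cons (.br (nat_lit 9) (nat_lit 1) (.cons (.ev (nat_lit 79228167236703159536498769921) (nat_lit 1)) .nil)) .nil))) (.cons (.br (nat_lit 9) (nat_lit 1) (.cons (.ev (nat_lit 79538861172343837755126579201) (nat_lit 1)) (.cons (.ev (nat_lit 20361948474324160082405811683330) (nat_lit 2)) .nil))) .nil)))) .nil)))) (.cons (.kr (nat_lit 1208925819614629174706176) (nat_lit 20282409603651670423947251286016) (nat_lit 10) (nat_lit 0)) (.cons (.br (nat_lit 9) (nat_lit 1) (.cons (.rf (nat_lit 3603) (nat_lit 493858305440582043680)) (.cons (.rf (nat_lit 3604) (nat_lit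 493858305440582043680)) (.cons (.br (nat_lit 9) (nat_lit 1) (.cons (.rf (nat_lit 3603) (nat_lit 493858305440582043680)) (.cons (.rf (nat_lit 3604) (nat_lit 493858305440582043680)) .nil))) .nil)))) .nil))))) .nil))))),
 (.br (nat_lit 10) (nat_lit 1) (.cons (.ev (nat_lit 79229376180897460645345165313) (nat_lit 1)) (.cons (.ev (nat_lit 310693935641241177171230721) (nat_lit 1)) (.cons (.ev (nat_lit 20282410812577490320055697735681) (nat_lit 1)) .nil)))),
 (.br (nat_lit 7) (nat_lit 0) (.cons (.br (nat_lit 9) (nat_lit 1) (.cons (.ev (nat_lit 79537652246452447006890656001) (nat_lit 1)) .nil)) (.cons (.br (nat_lit 6) (nat_lit 1) (.cons (.ev (nat_lit 79537652246452447006890656001) (nat_lit 1)) .nil)) .nil))),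
 (.br (nat_lit 10) (nat_lit 1) (.cons (.ev (nat_lit 79229376180897460645345165313) (nat_lit 1)) (.cons (.ev (nat_lit 310693935641241177171230721) (nat_lit 1)) (.cons (.ev (nat_lit 20282410812577490320055697735681) (nat_lit 1)) .nil)))),
 (.br (nat_lit 10) (nat_lit 1) (.cons (.ev (nat_lit 20361638979832639661811169231105) (nat_lit 1)) (.cons (.ev (nat_lit 79538856468352322844424732673) (nat_lit 1)) .nil))),
 (.br (nat_lit 13) (nat_lit 0) (.cons (.rf (nat_lit 3586) (nat_lit 493858305440582043680)) (.cons (.rf (nat_lit 3595) (nat_lit 493858305440582043680)) (.cons (.rf (nat_lit 3605) (nat_lit 493858305440582043680)) (.cons (.br (nat_lit 8) (nat_lit 1) (.cons (.br (nat_lit 9) (nat_lit 1) (.cons (.br (nat_lit 7) (nat_lit 0) (.cons (.br (nat_lit 6) (nat_lit 1) (.cons (.br (nat_lit 5) (nat_lit 0) (.cons (.ev (nat_lit 20284266513710671116024611603972) (nat_lit 3)) .nil)) (.cons (.br (nat_lit 10) (nat_lit 1) (.cons (.ev (nat_lit 20679176639798058589558046918404) (nat_lit 3)) .nil)) .nil))) (.cons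 (.br (nat_lit 2) (nat_lit 0) (.cons (.br (nat_lit 5) (nat_lit 0) (.cons (.ev (nat_lit 318770769041877375592848949764) (nat_lit 3)) .nil)) (.cons (.br (nat_lit 5) (nat_lit 0) (.cons (.ev (nat_lit 20679176639798058589558046918404) (nat_lit 3)) .nil)) .nil))) (.cons (.br (nat_lit 6) (nat_lit 1) (.cons (.br (nat_lit 4) (nat_lit 1) (.cons (.ev (nat_lit 317222135067384795177773172228) (nat_lit 3)) .nil)) (.cons (.br (nat_lit 2) (nat_lit 0) (.cons (.ev (nat_lit 318770769041877375592848949764) (nat_lit 3)) .nil)) .nil))) .nil)))) (.cons (.br (nat_lit 6) (nat_lit 1) (.cons (.br (nat_lit 4) (nat_lit 1) (.cons (.rf (nat_lit 3606) (nat_lit 493858305440582043680)) (.cons (.br (nat_lit 2) (nat_lit 0) (.cons (.ev (nat_lit 1213648186378978091663361) (nat_lit 1)) .nil)) .nil))) (.cons (.ev (nat_lit 20361947255898194648172714787073) (nat_lit 1)) .nil))) (.cons (.br (nat_lit 6) (nat_lit 1) (.cons (.br (nat_lit 2) (nat_lit 0) (.cons (.br (nat_lit 5) (nat_lit 0) (.cons (.ev (nat_lit 310693935641241177171230721)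 (nat_lit 1)) .nil)) (.cons (.br (nat_lit 5) (nat_lit 0) (.cons (.ev (nat_lit 1213648186378978091663361) (nat_lit 1)) .nil)) .nil))) (.cons (.ev (nat_lit 79228167236702879156738720001) (nat_lit 1)) .nil))) .nil)))) (.cons (.br (nat_lit 10) (nat_lit 1) (.cons (.br (nat_lit 2) (nat_lit 0) (.cons (.rf (nat_lit 3607) (nat_lit 493858305440582043680)) (.cons (.ev (nat_lit 20282719088679938794564662329601) (nat_lit 1)) (.cons (.br (nat_lit 6) (nat_lit 1) (.cons (.ev (nat_lit 79537661709632438294867345922) (nat_lit 2)) (.cons (.ev (nat_lit 40644975839032615976326819480066) (nat_lit 2)) .nil))) .nil)))) (.cons (.br (nat_lit 5) (nat_lit 0) (.cons (.br (nat_lit 7) (nat_lit 0) (.cons (.br (nat_lit 1) (nat_lit 0) (.cons (.ev (nat_lit 20680409744207851361711178318596) (nat_lit 3)) .nil)) (.cons (.ev (nat_lit 20361638979832639661811169296385) (nat_lit 1)) .nil))) (.cons (.br (nat_lit 1) (nat_lit 0) (.cons (.ev (nat_lit 79228162514264619068520661249) (nat_lit 1)) (.cons (.br (nat_lit 4) (nat_lit 1) (.cons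 (.ev (nat_lit 20679176639798058589558046918404) (nat_lit 3)) .nil)) .nil))) (.cons (.br (nat_lit 7) (nat_lit 0) (.cons (.ev (nat_lit 20361638979832639661811169296385) (nat_lit 1)) (.cons (.ev (nat_lit 309485009893685237251112961) (nat_lit 1)) .nil))) .nil)))) (.cons (.br (nat_lit 9) (nat_lit 1) (.cons (.br (nat_lit 7) (nat_lit 0) (.cons (.br (nat_lit 6) (nat_lit 1) (.cons (.ev (nat_lit 20283035827226736901577442066948) (nat_lit 3)) .nil)) (.cons (.br (nat_lit 2) (nat_lit 0) (.cons (.ev (nat_lit 160314444013349263355714600964) (nat_lit 3)) .nil)) .nil))) (.cons (.ev (nat_lit 310693935640959697899552769) (nat_lit 1)) (.cons (.br (nat_lit 2) (nat_lit 0) (.cons (.ev (nat_lit 20361638979832639661811169296385) (nat_lit 1)) (.cons (.ev (nat_lit 79228167255149904705425047553) (nat_lit 1)) .nil))) .nil)))) (.cons (.br (nat_lit 9) (nat_lit 1) (.cons (.br (nat_lit 2) (nat_lit 0) (.cons (.br (nat_lit 6) (nat_lit 1) (.cons (.ev (nat_lit 318151799022379365809698899460) (nat_lit 3)) .nil)) (.cons (.br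 (nat_lit 5) (nat_lit 0) (.cons (.ev (nat_lit 317224552918878781140459586052) (nat_lit 3)) .nil)) .nil))) (.cons (.ev (nat_lit 20282410812577490038576426057729) (nat_lit 1)) (.cons (.br (nat_lit 2) (nat_lit 0) (.cons (.ev (nat_lit 20361638979832639661811169296385) (nat_lit 1)) (.cons (.ev (nat_lit 20361947255916641673721401114625) (nat_lit 1)) .nil))) .nil)))) .nil))))) (.cons (.br (nat_lit 9) (nat_lit 1) (.cons (.br (nat_lit 6) (nat_lit 1) (.cons (.br (nat_lit 4) (nat_lit 1) (.cons (.rf (nat_lit 3608) (nat_lit 493858305440582043680)) (.cons (.rf (nat_lit 3609) (nat_lit 493858305440582043680)) .nil))) (.cons (.ev (nat_lit 20282409603670189226714510393601) (nat_lit 1)) .nil))) (.cons (.br (nat_lit 4) (nat_lit 1) (.cons (.br (nat_lit 6) (nat_lit 1) (.cons (.ev (nat_lit 309489750634853487056257281) (nat_lit 1)) (.cons (.ev (nat_lit 20361947251175756388084496728321) (nat_lit 1)) .nil))) (.cons (.br (nat_lit 7) (nat_lit 0) (.cons (.ev (nat_lit 20361637766184453845783031119873) (nat_lit 1))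 (.cons (.ev (nat_lit 20361638979832639661811169296385) (nat_lit 1)) .nil))) (.cons (.br (nat_lit 6) (nat_lit 1) (.cons (.rf (nat_lit 3609) (nat_lit 493858305440582042688)) (.cons (.ev (nat_lit 4722438823038171545601) (nat_lit 1)) .nil))) .nil)))) (.cons (.kr (nat_lit 4740813226943354765312) (nat_lit 20361637766165934761540795236352) (nat_lit 8) (nat_lit 0)) .nil)))) (.cons (.br (nat_lit 9) (nat_lit 1) (.cons (.br (nat_lit 10) (nat_lit 1) (.cons (.br (nat_lit 2) (nat_lit 0) (.cons (.ev (nat_lit 20361947251194202850683229634561) (nat_lit 1)) (.cons (.br (nat_lit 5) (nat_lit 0) (.cons (.ev (nat_lit 79538856468352322844424732673) (nat_lit 1)) .nil)) .nil))) (.cons (.rf (nat_lit 2212) (nat_lit 458117738797769787424)) .nil))) (.cons (.br (nat_lit 4) (nat_lit 1) (.cons (.br (nat_lit 6) (nat_lit 1) (.cons (.ev (nat_lit 20282409608392483932365582762241) (nat_lit 1)) (.cons (.ev (nat_lit 79228162514264619068520661249) (nat_lit 1)) .nil))) (.cons (.br (nat_lit 5) (nat_lit 0) (.cons (.ev (nat_lit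 20361637766184453845783031119873) (nat_lit 1)) (.cons (.ev (nat_lit 20361638979832639661811169296385) (nat_lit 1)) .nil))) (.cons (.br (nat_lit 2) (nat_lit 0) (.cons (.ev (nat_lit 4722438823038171545601) (nat_lit 1)) (.cons (.ev (nat_lit 20361638979832639661811169296385) (nat_lit 1)) .nil))) .nil)))) (.cons (.kr (nat_lit 4740813226943354765312) (nat_lit 20361637766165934761540795236352) (nat_lit 8) (nat_lit 0)) .nil)))) .nil))))) .nil))))),
 (.br (nat_lit 11) (nat_lit 1) (.cons (.rf (nat_lit 3475) (nat_lit 493858305440582043680)) (.cons (.rf (nat_lit 3553) (nat_lit 493858305440582043680)) (.cons (.rf (nat_lit 3582) (nat_lit 493858305440582043680)) (.cons (.br (nat_lit 13) (nat_lit 0) (.cons (.rf (nat_lit 3586) (nat_lit 493858305440582043680)) (.cons (.rf (nat_lit 3595) (nat_lit 493858305440582043680)) (.cons (.rf (nat_lit 3605) (nat_lit 493858305440582043680)) (.cons (.rf (nat_lit 3610) (nat_lit 493858305440582043680)) (.cons (.br (nat_lit 13) (nat_lit 0) (.cons (.rf (nat_lit 3586) (nat_lit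 493858305440582043680)) (.cons (.rf (nat_lit 3595) (nat_lit 493858305440582043680)) (.cons (.rf (nat_lit 3605) (nat_lit 493858305440582043680)) (.cons (.rf (nat_lit 3610) (nat_lit 493858305440582043680)) .nil))))) .nil)))))) .nil)))))]

theorem c128 : chkAll C T R L128 (nat_lit 3593) = true := by decide +kernel

theorem l128 : (nat_lit 3593) + L128.length = (nat_lit 3612) := by decide +kernel

/-- part of the certificates -/
def L129 : List Prf := [(.br (nat_lit 11) (nat_lit 1) (.cons (.rf (nat_lit 3475) (nat_lit 493858305440582043680)) (.cons (.rf (nat_lit 3553) (nat_lit 493858305440582043680)) (.cons (.rf (nat_lit 3582) (nat_lit 493858305440582043680)) (.cons (.rf (nat_lit 3611) (nat_lit 493858305440582043680)) (.cons (.br (nat_lit 11) (nat_lit 1) (.cons (.rf (nat_lit 3475) (nat_lit 493858305440582043680)) (.cons (.rf (nat_lit 3553) (nat_lit 493858305440582043680)) (.cons (.rf (nat_lit 3582) (nat_lit 493858305440582043680)) (.cons (.rf (nat_lit 3611) (nat_lit 493858305440582043680))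 .nil))))) .nil)))))),
 (.br (nat_lit 9) (nat_lit 1) (.cons (.rf (nat_lit 3421) (nat_lit 493857146555326367776)) (.cons (.br (nat_lit 10) (nat_lit 1) (.cons (.ev (nat_lit 310693935713017291937415169) (nat_lit 1)) (.cons (.br (nat_lit 2) (nat_lit 0) (.cons (.br (nat_lit 13) (nat_lit 0) (.cons (.kr (nat_lit 20282412021503381710799672180992) (nat_lit 79847132533907591780458627072) (nat_lit 1) (nat_lit 0)) .nil)) (.cons (.ev (nat_lit 79538856468424381533696033025) (nat_lit 1)) .nil))) .nil))) .nil))),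
 (.br (nat_lit 9) (nat_lit 1) (.cons (.rf (nat_lit 3421) (nat_lit 493857146555326367776)) (.cons (.br (nat_lit 13) (nat_lit 0) (.cons (.br (nat_lit 6) (nat_lit 1) (.cons (.ev (nat_lit 20361947251175756389184008355841) (nat_lit 1)) (.cons (.ev (nat_lit 40644666349300571985400133845250) (nat_lit 2)) .nil))) (.cons (.br (nat_lit 10) (nat_lit 1) (.cons (.br (nat_lit 4) (nat_lit 1) (.cons (.ev (nat_lit 80156627006908083725148553730) (nat_lit 2)) .nil)) (.cons (.br (nat_lit 2) (nat_lit 0) (.cons (.ev (nat_lit 79849555126503601332715323650) (nat_lit 2)) .nil)) .nil))) (.cons (.ev (nat_lit 20282409608392483651990134456321) (nat_lit 1)) .nil)))) .nil))),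
 (.br (nat_lit 8) (nat_lit 1) (.cons (.br (nat_lit 9) (nat_lit 1) (.cons (.rf (nat_lit 3421) (nat_lit 493856055839791613984)) (.cons (.rf (nat_lit 3613) (nat_lit 493858305440582043680)) (.cons (.br (nat_lit 9) (nat_lit 1) (.cons (.rf (nat_lit 3421) (nat_lit 493856055839791613984)) (.cons (.rf (nat_lit 3613) (nat_lit 493858305440582043680)) .nil))) .nil)))) (.cons (.br (nat_lit 9) (nat_lit 1) (.cons (.rf (nat_lit 3425) (nat_lit 493856055839791613984)) (.cons (.rf (nat_lit 3614) (nat_lit 493858305440582043680)) (.cons (.br (nat_lit 9) (nat_lit 1) (.cons (.rf (nat_lit 3425) (nat_lit 493857146555326367776)) (.cons (.rf (nat_lit 3614) (nat_lit 493858305440582043680)) .nil))) .nil)))) .nil))),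
 (.br (nat_lit 6) (nat_lit 1) (.cons (.br (nat_lit 9) (nat_lit 1) (.cons (.ev (nat_lit 79228167255149622130953486593) (nat_lit 1)) .nil)) (.cons (.br (nat_lit 13) (nat_lit 0) (.cons (.ev (nat_lit 20282719093402304997058842525953) (nat_lit 1)) (.cons (.ev (nat_lit 20282720297605758409193853878273) (nat_lit 1)) .nil))) .nil))),
 (.br (nat_lit 9) (nat_lit 1) (.cons (.rf (nat_lit 3616) (nat_lit 493858305440582043680)) (.cons (.br (nat_lit 2) (nat_lit 0) (.cons (.ev (nat_lit 79228172014337820336114893570) (nat_lit 2)) (.cons (.ev (nat_lit 310693935713017291937415169) (nat_lit 1)) .nil))) .nil))),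
 (.br (nat_lit 9) (nat_lit 1) (.cons (.br (nat_lit 2) (nat_lit 0) (.cons (.ev (nat_lit 79228172014337820336114893570) (nat_lit 2)) (.cons (.ev (nat_lit 310693935713017291937415169) (nat_lit 1)) .nil))) (.cons (.ev (nat_lit 20282719088679938513089702396161) (nat_lit 1)) .nil))),
 (.br (nat_lit 8) (nat_lit 1) (.cons (.rf (nat_lit 3615) (nat_lit 493858305440582043680)) (.cons (.br (nat_lit 4) (nat_lit 1) (.cons (.br (nat_lit 9) (nat_lit 1) (.cons (.rf (nat_lit 3616) (nat_lit 493858305440582043680)) (.cons (.rf (nat_lit 3617) (nat_lit 493858305440582043680)) (.cons (.br (nat_lit 9) (nat_lit 1) (.cons (.rf (nat_lit 3616) (nat_lit 493858305440582043680)) (.cons (.rf (nat_lit 3617) (nat_lit 493858305440582043680)) .nil))) .nil)))) (.cons (.ev (nat_lit 79228162532783140360803057921) (nat_lit 1)) (.cons (.br (nat_lit 9) (nat_lit 1) (.cons (.rf (nat_lit 3618) (nat_lit 493858305440582043680)) (.cons (.br (nat_lit 9) (nat_lit 1) (.cons (.rf (nat_lit 3618) (nat_lit 493858305440582043680)) (.cons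 (.ev (nat_lit 20282719088679938513089702396161) (nat_lit 1)) .nil))) (.cons (.ev (nat_lit 20282719088679938513089702396161) (nat_lit 1)) .nil)))) .nil)))) .nil))),
 (.br (nat_lit 8) (nat_lit 1) (.cons (.rf (nat_lit 3615) (nat_lit 493858305440582043680)) (.cons (.rf (nat_lit 3619) (nat_lit 493858305440582043680)) (.cons (.br (nat_lit 8) (nat_lit 1) (.cons (.rf (nat_lit 3615) (nat_lit 493858305440582043680)) (.cons (.rf (nat_lit 3619) (nat_lit 493858305440582043680)) .nil))) .nil)))),
 (.br (nat_lit 10) (nat_lit 1) (.cons (.br (nat_lit 8) (nat_lit 1) (.cons (.br (nat_lit 4) (nat_lit 1) (.cons (.br (nat_lit 6) (nat_lit 1) (.cons (.ev (nat_lit 20678557688741236461629688186116) (nat_lit 3)) .nil)) .nil)) .nil)) (.cons (.br (nat_lit 6) (nat_lit 1) (.cons (.br (nat_lit 4) (nat_lit 1) (.cons (.br (nat_lit 13) (nat_lit 0) (.cons (.ev (nat_lit 20678552852964171022402991882500) (nat_lit 3)) .nil)) .nil)) (.cons (.br (nat_lit 8) (nat_lit 1) (.cons (.br (nat_lit 4) (nat_lit 1) (.cons (.ev (nat_lit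 21314856432230577195457264158472) (nat_lit 4)) .nil)) (.cons (.br (nat_lit 7) (nat_lit 0) (.cons (.ev (nat_lit 20678557688741236461629688186116) (nat_lit 3)) .nil)) .nil))) .nil))) .nil))),
 (.br (nat_lit 8) (nat_lit 1) (.cons (.rf (nat_lit 3621) (nat_lit 493858305440582043680)) (.cons (.br (nat_lit 10) (nat_lit 1) (.cons (.rf (nat_lit 3434) (nat_lit 493856055839791613984)) (.cons (.br (nat_lit 13) (nat_lit 0) (.cons (.ev (nat_lit 20361947255916569334656681377793) (nat_lit 1)) (.cons (.ev (nat_lit 20361948460101648061407237767425) (nat_lit 1)) .nil))) .nil))) .nil))),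
 (.br (nat_lit 10) (nat_lit 1) (.cons (.br (nat_lit 4) (nat_lit 1) (.cons (.br (nat_lit 8) (nat_lit 1) (.cons (.ev (nat_lit 79230594570040622107760525570) (nat_lit 2)) .nil)) .nil)) (.cons (.br (nat_lit 4) (nat_lit 1) (.cons (.ev (nat_lit 79848346182237243716474700290) (nat_lit 2)) (.cons (.br (nat_lit 13) (nat_lit 0) (.cons (.ev (nat_lit 20282719093383930590954635985153) (nat_lit 1)) (.cons (.ev (nat_lit 20361947251194274908277267496961) (nat_lit 1)) .nil))) .nil))) .nil))),
 (.br (nat_lit 6) (nat_lit 1) (.cons (.br (nat_lit 10) (nat_lit 1) (.cons (.br (nat_lit 8) (nat_lit 1) (.cons (.br (nat_lit 4) (nat_lit 1) (.cons (.ev (nat_lit 158457548139967103051505992450) (nat_lit 2)) .nil)) .nil)) .nil)) (.cons (.ev (nat_lit 79537652246452448106402283521) (nat_lit 1)) .nil))),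
 (.br (nat_lit 4) (nat_lit 1) (.cons (.br (nat_lit 10) (nat_lit 1) (.cons (.br (nat_lit 8) (nat_lit 1) (.cons (.ev (nat_lit 79848346219130729664836862466) (nat_lit 2)) .nil)) (.cons (.br (nat_lit 8) (nat_lit 1) (.cons (.br (nat_lit 6) (nat_lit 1) (.cons (.ev (nat_lit 158765810056941164303994585346) (nat_lit 2)) .nil)) (.cons (.rf (nat_lit 3612) (nat_lit 457824828835778365472)) .nil))) .nil))) (.cons (.br (nat_lit 10) (nat_lit 1) (.cons (.ev (nat_lit 79230594533147131761351852290) (nat_lit 2)) (.cons (.br (nat_lit 8) (nat_lit 1) (.cons (.ev (nat_lit 1208944266359806707695873) (nat_lit 1)) (.cons (.ev (nat_lit 20361947251194274908277267496961) (nat_lit 1)) .nil))) .nil))) (.cons (.br (nat_lit 10) (nat_lit 1) (.cons (.br (nat_lit 7) (nat_lit 0) (.cons (.br (nat_lit 8) (nat_lit 1) (.cons (.ev (nat_lit 158769446316026462065343397890) (nat_lit 2)) .nil)) (.cons (.br (nat_lit 6) (nat_lit 1) (.cons (.ev (nat_lit 158769446279133534677478080514) (nat_lit 2)) .nil)) .nil))) (.cons (.br (nat_lit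 8) (nat_lit 1) (.cons (.ev (nat_lit 1208944266359806707695873) (nat_lit 1)) (.cons (.ev (nat_lit 20361947251194274908277267496961) (nat_lit 1)) .nil))) (.cons (.rf (nat_lit 3612) (nat_lit 457929673865483880480)) .nil)))) .nil)))),
 (.br (nat_lit 8) (nat_lit 1) (.cons (.rf (nat_lit 3625) (nat_lit 493858305440582043680)) (.cons (.br (nat_lit 10) (nat_lit 1) (.cons (.br (nat_lit 4) (nat_lit 1) (.cons (.br (nat_lit 13) (nat_lit 0) (.cons (.ev (nat_lit 313121250460744302280770050) (nat_lit 2)) .nil)) .nil)) (.cons (.br (nat_lit 13) (nat_lit 0) (.cons (.ev (nat_lit 20361947255916569334656681377793) (nat_lit 1)) (.cons (.ev (nat_lit 20361948460101648061407237767425) (nat_lit 1)) .nil))) .nil))) (.cons (.br (nat_lit 13) (nat_lit 0) (.cons (.ev (nat_lit 20282719088679938513089702396161) (nat_lit 1)) (.cons (.br (nat_lit 10) (nat_lit 1) (.cons (.ev (nat_lit 79229376180897179166073487361) (nat_lit 1)) (.cons (.br (nat_lit 4) (nat_lit 1) (.cons (.ev (nat_lit 79850773515358811673424232450) (nat_lit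 2)) .nil)) .nil))) (.cons (.rf (nat_lit 3612) (nat_lit 457824828835778365472)) .nil)))) .nil)))),
 (.br (nat_lit 8) (nat_lit 1) (.cons (.rf (nat_lit 3625) (nat_lit 493858305440582043680)) (.cons (.rf (nat_lit 3626) (nat_lit 493858305440582043680)) (.cons (.br (nat_lit 5) (nat_lit 0) (.cons (.ev (nat_lit 79228162532783140360803057921) (nat_lit 1)) (.cons (.br (nat_lit 2) (nat_lit 0) (.cons (.ev (nat_lit 79537647524158021735578337281) (nat_lit 1)) (.cons (.br (nat_lit 4) (nat_lit 1) (.cons (.ev (nat_lit 20837006760252172154628741465348) (nat_lit 3)) .nil)) .nil))) (.cons (.br (nat_lit 2) (nat_lit 0) (.cons (.br (nat_lit 13) (nat_lit 0) (.cons (.ev (nat_lit 21316710980995579419357802989320) (nat_lit 4)) .nil)) (.cons (.ev (nat_lit 79849555126504445744760553730) (nat_lit 2)) .nil))) .nil)))) .nil)))),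
 (.br (nat_lit 9) (nat_lit 1) (.cons (.br (nat_lit 8) (nat_lit 1) (.cons (.rf (nat_lit 3621) (nat_lit 493858305440582043680)) (.cons (.rf (nat_lit 3622) (nat_lit 493858305440582043680)) (.cons (.br (nat_lit 8) (nat_lit 1) (.cons (.rf (nat_lit 3621) (nat_lit 493858305440582043680)) (.cons (.rf (nat_lit 3622) (nat_lit 493858305440582043680)) .nil))) .nil)))) (.cons (.br (nat_lit 8) (nat_lit 1) (.cons (.rf (nat_lit 3623) (nat_lit 493858305440582043680)) (.cons (.rf (nat_lit 3624) (nat_lit 493858305440582043680)) (.cons (.br (nat_lit 8) (nat_lit 1) (.cons (.rf (nat_lit 3623) (nat_lit 493858305440582043680)) (.cons (.rf (nat_lit 3624) (nat_lit 493858305440582043680)) .nil))) .nil)))) (.cons (.br (nat_lit 8) (nat_lit 1) (.cons (.rf (nat_lit 3625) (nat_lit 493858305440582043680)) (.cons (.rf (nat_lit 3626) (nat_lit 493858305440582043680)) (.cons (.rf (nat_lit 3627) (nat_lit 493858305440582043680)) (.cons (.br (nat_lit 8) (nat_lit 1) (.cons (.rf (nat_lit 3625) (nat_lit 493858305440582043680))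 (.cons (.rf (nat_lit 3626) (nat_lit 493858305440582043680)) (.cons (.rf (nat_lit 3627) (nat_lit 493858305440582043680)) .nil)))) .nil))))) .nil)))),
 (.br (nat_lit 8) (nat_lit 1) (.cons (.br (nat_lit 6) (nat_lit 1) (.cons (.ev (nat_lit 309485028268090241946026241) (nat_lit 1)) (.cons (.br (nat_lit 4) (nat_lit 1) (.cons (.br (nat_lit 13) (nat_lit 0) (.cons (.ev (nat_lit 1213703598387322593214722) (nat_lit 2)) .nil)) (.cons (.br (nat_lit 10) (nat_lit 1) (.cons (.ev (nat_lit 20521953419105246916877343851780) (nat_lit 3)) .nil)) .nil))) .nil))) .nil)),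
 (.br (nat_lit 8) (nat_lit 1) (.cons (.br (nat_lit 6) (nat_lit 1) (.cons (.br (nat_lit 4) (nat_lit 1) (.cons (.rf (nat_lit 3527) (nat_lit 493670240508296136736)) .nil)) (.cons (.br (nat_lit 10) (nat_lit 1) (.cons (.br (nat_lit 4) (nat_lit 1) (.cons (.ev (nat_lit 79229371458602754994272796673) (nat_lit 1)) .nil)) (.cons (.ev (nat_lit 20361947255916569616127363121153) (nat_lit 1)) .nil))) .nil))) (.cons (.br (nat_lit 10) (nat_lit 1) (.cons (.br (nat_lit 7) (nat_lit 0) (.cons (.br (nat_lit 6) (nat_lit 1) (.cons (.ev (nat_lit 20837632964863190831441748886788) (nat_lit 3)) .nil)) (.cons (.ev (nat_lit 79229371440156291291750072321) (nat_lit 1)) .nil))) (.cons (.br (nat_lit 2) (nat_lit 0) (.cons (.ev (nat_lit 159076508733323009664326107906) (nat_lit 2)) (.cons (.ev (nat_lit 309485028268090241946026241) (nat_lit 1)) .nil))) (.cons (.rf (nat_lit 3612) (nat_lit 457824828835778365472)) .nil)))) .nil))),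
 (.br (nat_lit 8) (nat_lit 1) (.cons (.rf (nat_lit 3630) (nat_lit 493858305440582043680)) (.cons (.br (nat_lit 10) (nat_lit 1) (.cons (.br (nat_lit 6) (nat_lit 1) (.cons (.br (nat_lit 4) (nat_lit 1) (.cons (.ev (nat_lit 21475172132540911949384841626888) (nat_lit 4)) .nil)) (.cons (.br (nat_lit 2) (nat_lit 0) (.cons (.ev (nat_lit 20838863660865934352986608568068) (nat_lit 3)) .nil)) .nil))) (.cons (.rf (nat_lit 3612) (nat_lit 457824828835778365472)) .nil))) .nil))),
 (.br (nat_lit 9) (nat_lit 1) (.cons (.rf (nat_lit 3628) (nat_lit 493858305440582043680)) (.cons (.br (nat_lit 8) (nat_lit 1) (.cons (.rf (nat_lit 3629) (nat_lit 493858305440582043680)) (.cons (.br (nat_lit 8) (nat_lit 1) (.cons (.rf (nat_lit 3629) (nat_lit 493858305440582043680)) .nil)) .nil))) (.cons (.br (nat_lit 8) (nat_lit 1) (.cons (.rf (nat_lit 3630) (nat_lit 493858305440582043680)) (.cons (.rf (nat_lit 3631) (nat_lit 493858305440582043680)) (.cons (.br (nat_lit 8) (nat_lit 1) (.cons (.rf (nat_lit 3630) (nat_lit 493858305440582043680))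 (.cons (.rf (nat_lit 3631) (nat_lit 493858305440582043680)) .nil))) .nil)))) .nil)))),
 (.br (nat_lit 8) (nat_lit 1) (.cons (.br (nat_lit 6) (nat_lit 1) (.cons (.ev (nat_lit 79537652246452448106402283521) (nat_lit 1)) (.cons (.br (nat_lit 10) (nat_lit 1) (.cons (.ev (nat_lit 79538856468424381533696033025) (nat_lit 1)) (.cons (.ev (nat_lit 40564820430414922830187476287746) (nat_lit 2)) .nil))) .nil))) (.cons (.br (nat_lit 10) (nat_lit 1) (.cons (.br (nat_lit 4) (nat_lit 1) (.cons (.ev (nat_lit 794150690592065673936842852360) (nat_lit 4)) (.cons (.ev (nat_lit 20282720302309749924108833914881) (nat_lit 1)) .nil))) (.cons (.ev (nat_lit 158457548176860030439438418690) (nat_lit 2)) (.cons (.rf (nat_lit 3612) (nat_lit 457824828835778365472)) .nil)))) .nil))),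
 (.br (nat_lit 8) (nat_lit 1) (.cons (.rf (nat_lit 3633) (nat_lit 493858305440582043680)) (.cons (.br (nat_lit 4) (nat_lit 1) (.cons (.br (nat_lit 2) (nat_lit 0) (.cons (.ev (nat_lit 79537652246452448106402283521) (nat_lit 1)) (.cons (.ev (nat_lit 1213666704901374231052546) (nat_lit 2)) .nil))) (.cons (.ev (nat_lit 20282719088679938513089702396161) (nat_lit 1)) .nil))) .nil))),
 (.br (nat_lit 9) (nat_lit 1) (.cons (.rf (nat_lit 3628) (nat_lit 493858305440582043680)) (.cons (.rf (nat_lit 3632) (nat_lit 493858305440582043680)) (.cons (.br (nat_lit 8) (nat_lit 1) (.cons (.rf (nat_lit 3633) (nat_lit 493858305440582043680)) (.cons (.rf (nat_lit 3634) (nat_lit 493858305440582043680)) (.cons (.br (nat_lit 8) (nat_lit 1) (.cons (.rf (nat_lit 3633) (nat_lit 493858305440582043680)) (.cons (.rf (nat_lit 3634) (nat_lit 493858305440582043680)) .nil))) .nil)))) .nil)))),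
 (.br (nat_lit 9) (nat_lit 1) (.cons (.rf (nat_lit 3628) (nat_lit 493858305440582043680)) (.cons (.rf (nat_lit 3632) (nat_lit 493858305440582043680)) (.cons (.rf (nat_lit 3635) (nat_lit 493858305440582043680)) (.cons (.br (nat_lit 9) (nat_lit 1) (.cons (.rf (nat_lit 3628) (nat_lit 493858305440582043680)) (.cons (.rf (nat_lit 3632) (nat_lit 493858305440582043680)) (.cons (.rf (nat_lit 3635) (nat_lit 493858305440582043680)) .nil)))) .nil))))),
 (.br (nat_lit 10) (nat_lit 1) (.cons (.br (nat_lit 6) (nat_lit 1) (.cons (.br (nat_lit 8) (nat_lit 1) (.cons (.br (nat_lit 13) (nat_lit 0) (.cons (.ev (nat_lit 20997953453580074510333851929352) (nat_lit 4)) .nil)) .nil)) (.cons (.br (nat_lit 4) (nat_lit 1) (.cons (.br (nat_lit 8) (nat_lit 1) (.cons (.ev (nat_lit 21473929318760583687607677157640) (nat_lit 4)) .nil)) (.cons (.br (nat_lit 7) (nat_lit 0) (.cons (.ev (nat_lit 20362878124056931999323273756932) (nat_lit 3)) .nil)) .nil))) .nil))) (.cons (.br (nat_lit 4) (nat_lit 1) (.cons (.br (nat_lit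 8) (nat_lit 1) (.cons (.br (nat_lit 6) (nat_lit 1) (.cons (.ev (nat_lit 20362878124056931999323273756932) (nat_lit 3)) .nil)) (.cons (.br (nat_lit 7) (nat_lit 0) (.cons (.ev (nat_lit 20995472775724731106831238369032) (nat_lit 4)) .nil)) .nil))) (.cons (.br (nat_lit 6) (nat_lit 1) (.cons (.br (nat_lit 7) (nat_lit 0) (.cons (.ev (nat_lit 20678552852964171022402991882500) (nat_lit 3)) .nil)) .nil)) .nil))) .nil)))]

theorem c129 : chkAll C T R L129 (nat_lit 3612) = true := by decide +kernel

theorem l129 : (nat_lit 3612) + L129.length = (nat_lit 3638) := by decide +kernel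

/-- part of the certificates -/
def L130 : List Prf := [(.br (nat_lit 8) (nat_lit 1) (.cons (.rf (nat_lit 3637) (nat_lit 493858305440582043680)) (.cons (.br (nat_lit 7) (nat_lit 0) (.cons (.br (nat_lit 6) (nat_lit 1) (.cons (.ev (nat_lit 72339069031415809) (nat_lit 1)) (.cons (.br (nat_lit 2) (nat_lit 0) (.cons (.ev (nat_lit 20682890459915913613304733829896) (nat_lit 4)) .nil)) .nil))) (.cons (.br (nat_lit 13) (nat_lit 0) (.cons (.ev (nat_lit 20282409608374108964415246172161) (nat_lit 1)) (.cons (.ev (nat_lit 20361948460101648061407237767425) (nat_lit 1)) .nil))) (.cons (.ev (nat_lit 79537652264970967199661424641) (nat_lit 1)) .nil)))) .nil))),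
 (.br (nat_lit 8) (nat_lit 1) (.cons (.rf (nat_lit 3636) (nat_lit 493779557318295553088)) (.cons (.br (nat_lit 6) (nat_lit 1) (.cons (.ev (nat_lit 309485028268090241946026241) (nat_lit 1)) (.cons (.br (nat_lit 13) (nat_lit 0) (.cons (.rf (nat_lit 3620) (nat_lit 458005178423107159104)) (.cons (.ev (nat_lit 20759022596462711375024980625156) (nat_lit 3)) .nil))) .nil))) (.cons (.br (nat_lit 5) (nat_lit 0) (.cons (.br (nat_lit 6) (nat_lit 1) (.cons (.br (nat_lit 13) (nat_lit 0) (.cons (.ev (nat_lit 80474579275606354790183010820) (nat_lit 3)) .nil)) (.cons (.br (nat_lit 10) (nat_lit 1) (.cons (.ev (nat_lit 317224552974292478330509985028) (nat_lit 3)) .nil)) .nil))) (.cons (.br (nat_lit 10) (nat_lit 1) (.cons (.br (nat_lit 4) (nat_lit 1) (.cons (.ev (nat_lit 79229376162450717671163953153) (nat_lit 1)) .nil)) (.cons (.br (nat_lit 4) (nat_lit 1) (.cons (.ev (nat_lit 79229376162450717671163953153) (nat_lit 1)) .nil)) .nil))) (.cons (.br (nat_lit 4) (nat_lit 1) (.cons (.br (nat_lit 13) (nat_lit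 0) (.cons (.zr (nat_lit 237684496987526544768410779648) (nat_lit 310694009427936009934340097) (nat_lit 5) (nat_lit 0)) .nil)) (.cons (.br (nat_lit 6) (nat_lit 1) (.cons (.ev (nat_lit 21313628220265668944414520836872) (nat_lit 4)) .nil)) .nil))) .nil)))) .nil)))),
 (.br (nat_lit 6) (nat_lit 1) (.cons (.kr (nat_lit 36965545741457031424) (nat_lit 20361637766165934762640306929664) (nat_lit 1) (nat_lit 0)) .nil)),
 (.br (nat_lit 8) (nat_lit 1) (.cons (.rf (nat_lit 3636) (nat_lit 493779557318295553088)) (.cons (.br (nat_lit 10) (nat_lit 1) (.cons (.ev (nat_lit 79229376180897179166073487361) (nat_lit 1)) (.cons (.br (nat_lit 4) (nat_lit 1) (.cons (.ev (nat_lit 79850773515358811673424232450) (nat_lit 2)) (.cons (.rf (nat_lit 3612) (nat_lit 457935134042368541760)) .nil))) .nil))) (.cons (.br (nat_lit 7) (nat_lit 0) (.cons (.br (nat_lit 10) (nat_lit 1) (.cons (.rf (nat_lit 3640) (nat_lit 493858305440582043680)) (.cons (.zr (nat_lit 20361637766166150935422420648448) (nat_lit 2422574005712136601337857)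 (nat_lit 5) (nat_lit 0)) .nil))) (.cons (.ev (nat_lit 79537652246452448106402283521) (nat_lit 1)) (.cons (.br (nat_lit 13) (nat_lit 0) (.cons (.br (nat_lit 6) (nat_lit 1) (.cons (.zr (nat_lit 2417888532717414358647552) (nat_lit 1237944761652989044467957761) (nat_lit 5) (nat_lit 0)) .nil)) (.cons (.ev (nat_lit 20361948460101648061407237767425) (nat_lit 1)) .nil))) .nil)))) .nil)))),
 (.br (nat_lit 8) (nat_lit 1) (.cons (.rf (nat_lit 3639) (nat_lit 493858305440582043680)) (.cons (.rf (nat_lit 3641) (nat_lit 493858305440582043680)) (.cons (.br (nat_lit 4) (nat_lit 1) (.cons (.br (nat_lit 10) (nat_lit 1) (.cons (.ev (nat_lit 79538861172343838858949951745) (nat_lit 1)) (.cons (.ev (nat_lit 20282410817299856521450366173441) (nat_lit 1)) .nil))) (.cons (.br (nat_lit 2) (nat_lit 0) (.cons (.br (nat_lit 10) (nat_lit 1) (.cons (.zr (nat_lit 309485046715114699710530304) (nat_lit 3631499825326757186240513) (nat_lit 5) (nat_lit 3)) .nil)) (.cons (.ev (nat_lit 79537652301864455355670659586) (nat_lit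 2)) .nil))) (.cons (.br (nat_lit 2) (nat_lit 0) (.cons (.br (nat_lit 10) (nat_lit 1) (.cons (.zr (nat_lit 2417888532717414358647552) (nat_lit 1237944761652989044467957761) (nat_lit 5) (nat_lit 0)) .nil)) (.cons (.br (nat_lit 6) (nat_lit 1) (.cons (.zr (nat_lit 2417851855405339031633920) (nat_lit 309489750635697916281356289) (nat_lit 5) (nat_lit 0)) .nil)) .nil))) .nil)))) .nil)))),
 (.br (nat_lit 5) (nat_lit 0) (.cons (.br (nat_lit 7) (nat_lit 0) (.cons (.br (nat_lit 8) (nat_lit 1) (.cons (.ev (nat_lit 309485028268090241946026241) (nat_lit 1)) (.cons (.ev (nat_lit 20361637766184381505618799755521) (nat_lit 1)) .nil))) (.cons (.ev (nat_lit 79229376162450717671163953153) (nat_lit 1)) .nil))) (.cons (.br (nat_lit 13) (nat_lit 0) (.cons (.ev (nat_lit 79537652246452448106402283521) (nat_lit 1)) (.cons (.br (nat_lit 2) (nat_lit 0) (.cons (.ev (nat_lit 20282409608374037188296168243201) (nat_lit 1)) (.cons (.ev (nat_lit 79229376180897179166073487361) (nat_lit 1)) .nil))) (.cons (.br (nat_lit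 2) (nat_lit 0) (.cons (.ev (nat_lit 20361637766165935044115300417793) (nat_lit 1)) (.cons (.ev (nat_lit 1208944266359806707695873) (nat_lit 1)) .nil))) .nil)))) (.cons (.br (nat_lit 2) (nat_lit 0) (.cons (.br (nat_lit 8) (nat_lit 1) (.cons (.ev (nat_lit 72339069031415809) (nat_lit 1)) (.cons (.ev (nat_lit 20282409608374037188296168243201) (nat_lit 1)) .nil))) (.cons (.br (nat_lit 6) (nat_lit 1) (.cons (.br (nat_lit 8) (nat_lit 1) (.cons (.zr (nat_lit 237684496987526544768410779648) (nat_lit 310694009427936009934340097) (nat_lit 5) (nat_lit 0)) .nil)) (.cons (.br (nat_lit 8) (nat_lit 1) (.cons (.ev (nat_lit 20678560144483353837540712319752) (nat_lit 4)) .nil)) .nil))) .nil))) .nil)))),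
 (.br (nat_lit 7) (nat_lit 0) (.cons (.rf (nat_lit 3643) (nat_lit 493858305440582043680)) (.cons (.br (nat_lit 8) (nat_lit 1) (.cons (.br (nat_lit 10) (nat_lit 1) (.cons (.br (nat_lit 13) (nat_lit 0) (.cons (.zr (nat_lit 237684496987526544768410779648) (nat_lit 310694009427936009934340097) (nat_lit 5) (nat_lit 0)) .nil)) (.cons (.br (nat_lit 5) (nat_lit 0) (.cons (.ev (nat_lit 792603265726850216680172816136) (nat_lit 4)) .nil)) .nil))) (.cons (.br (nat_lit 10) (nat_lit 1) (.cons (.br (nat_lit 4) (nat_lit 1) (.cons (.zr (nat_lit 36893769630985749248) (nat_lit 310698658151557755637334017) (nat_lit 5) (nat_lit 3)) .nil)) (.cons (.ev (nat_lit 20361948460101648061407237767425) (nat_lit 1)) .nil))) (.cons (.br (nat_lit 4) (nat_lit 1) (.cons (.ev (nat_lit 79228167255149622130953486593) (nat_lit 1)) (.cons (.br (nat_lit 2) (nat_lit 0) (.cons (.zr (nat_lit 36893769630985749248) (nat_lit 310698658151557755637334017) (nat_lit 5) (nat_lit 3)) .nil)) .nil))) .nil)))) (.cons (.br (nat_lit 13) (nat_lit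 0) (.cons (.br (nat_lit 5) (nat_lit 0) (.cons (.br (nat_lit 8) (nat_lit 1) (.cons (.ev (nat_lit 1208944266359806707695873) (nat_lit 1)) .nil)) .nil)) (.cons (.kr (nat_lit 20440865928680199099134339186944) (nat_lit 1213648258155092874625024) (nat_lit 1) (nat_lit 0)) .nil))) .nil)))),
 (.br (nat_lit 8) (nat_lit 1) (.cons (.kr (nat_lit 20361637766166006819134833164544) (nat_lit 2417851639230357861105664) (nat_lit 1) (nat_lit 0)) .nil)),
 (.br (nat_lit 7) (nat_lit 0) (.cons (.rf (nat_lit 3643) (nat_lit 493858305440582043680)) (.cons (.rf (nat_lit 3644) (nat_lit 493858305440582043680)) (.cons (.br (nat_lit 5) (nat_lit 0) (.cons (.br (nat_lit 2) (nat_lit 0) (.cons (.rf (nat_lit 3645) (nat_lit 493858305440582043680)) (.cons (.kr (nat_lit 79229371440083953322230349824) (nat_lit 4722510598057737846784) (nat_lit 2) (nat_lit 0)) .nil))) (.cons (.br (nat_lit 2) (nat_lit 0) (.cons (.rf (nat_lit 3645) (nat_lit 493858305438436657184)) (.cons (.ev (nat_lit 309485028268090241946026241) (nat_lit 1)) .nil)))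 (.cons (.ev (nat_lit 79537652264970967199661424641) (nat_lit 1)) .nil)))) .nil)))),
 (.br (nat_lit 9) (nat_lit 1) (.cons (.br (nat_lit 8) (nat_lit 1) (.cons (.rf (nat_lit 3637) (nat_lit 493858305440582043680)) (.cons (.rf (nat_lit 3638) (nat_lit 493858305440582043680)) (.cons (.br (nat_lit 8) (nat_lit 1) (.cons (.rf (nat_lit 3637) (nat_lit 493858305440582043680)) (.cons (.rf (nat_lit 3638) (nat_lit 493858305440582043680)) .nil))) .nil)))) (.cons (.br (nat_lit 8) (nat_lit 1) (.cons (.rf (nat_lit 3639) (nat_lit 493858305440582043680)) (.cons (.rf (nat_lit 3641) (nat_lit 493858305440582043680)) (.cons (.rf (nat_lit 3642) (nat_lit 493858305440582043680)) (.cons (.br (nat_lit 8) (nat_lit 1) (.cons (.rf (nat_lit 3639) (nat_lit 493858305440582043680)) (.cons (.rf (nat_lit 3641) (nat_lit 493858305440582043680)) (.cons (.rf (nat_lit 3642) (nat_lit 493858305440582043680)) .nil)))) .nil))))) (.cons (.br (nat_lit 7) (nat_lit 0) (.cons (.rf (nat_lit 3643) (nat_lit 493858305440582043680)) (.cons (.rf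 (nat_lit 3644) (nat_lit 493858305440582043680)) (.cons (.rf (nat_lit 3646) (nat_lit 493858305440582043680)) (.cons (.br (nat_lit 7) (nat_lit 0) (.cons (.rf (nat_lit 3643) (nat_lit 493858305440582043680)) (.cons (.rf (nat_lit 3644) (nat_lit 493858305440582043680)) (.cons (.rf (nat_lit 3646) (nat_lit 493858305440582043680)) .nil)))) .nil))))) .nil)))),
 (.br (nat_lit 8) (nat_lit 1) (.cons (.br (nat_lit 2) (nat_lit 0) (.cons (.ev (nat_lit 79537652246524224225480343553) (nat_lit 1)) (.cons (.ev (nat_lit 309485028268090241946026241) (nat_lit 1)) (.cons (.br (nat_lit 4) (nat_lit 1) (.cons (.br (nat_lit 13) (nat_lit 0) (.cons (.ev (nat_lit 1208925891953702501155073) (nat_lit 1)) .nil)) .nil)) .nil)))) (.cons (.br (nat_lit 7) (nat_lit 0) (.cons (.br (nat_lit 13) (nat_lit 0) (.cons (.kr (nat_lit 20282409603651670423951546253312) (nat_lit 4722366764344621924352) (nat_lit 4) (nat_lit 0)) (.cons (.ev (nat_lit 20361948460101647779936556024065) (nat_lit 1)) .nil))) (.cons (.br (nat_lit 2) (nat_lit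 0) (.cons (.ev (nat_lit 72057598349672449) (nat_lit 1)) (.cons (.ev (nat_lit 1208944338417396433813761) (nat_lit 1)) .nil))) (.cons (.br (nat_lit 4) (nat_lit 1) (.cons (.br (nat_lit 13) (nat_lit 0) (.cons (.ev (nat_lit 21473929318760583687607677157640) (nat_lit 4)) .nil)) (.cons (.ev (nat_lit 20361948460101647779936556024065) (nat_lit 1)) .nil))) .nil)))) .nil))),
 (.br (nat_lit 8) (nat_lit 1) (.cons (.rf (nat_lit 3648) (nat_lit 493858305440582043680)) (.cons (.br (nat_lit 6) (nat_lit 1) (.cons (.br (nat_lit 13) (nat_lit 0) (.cons (.br (nat_lit 10) (nat_lit 1) (.cons (.ev (nat_lit 21158269153742837572302153124104) (nat_lit 4)) .nil)) (.cons (.br (nat_lit 4) (nat_lit 1) (.cons (.ev (nat_lit 20837625720826938328987767997188) (nat_lit 3)) .nil)) .nil))) (.cons (.br (nat_lit 10) (nat_lit 1) (.cons (.br (nat_lit 4) (nat_lit 1) (.cons (.ev (nat_lit 20997327248931155221275123846920) (nat_lit 4)) .nil)) .nil)) .nil))) .nil))),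
 (.br (nat_lit 8) (nat_lit 1) (.cons (.br (nat_lit 7) (nat_lit 0) (.cons (.br (nat_lit 13) (nat_lit 0) (.cons (.ev (nat_lit 313111787497206176211468290) (nat_lit 2)) .nil)) (.cons (.ev (nat_lit 79537652264970967199661424641) (nat_lit 1)) .nil))) (.cons (.ev (nat_lit 20361637766184381505618799755521) (nat_lit 1)) .nil))),
 (.br (nat_lit 2) (nat_lit 0) (.cons (.kr (nat_lit 20361637766166006819134833164544) (nat_lit 2417851639230357861105664) (nat_lit 1) (nat_lit 0)) .nil)),
 (.br (nat_lit 10) (nat_lit 1) (.cons (.ev (nat_lit 20361638975091754377269498347521) (nat_lit 1)) (.cons (.rf (nat_lit 3651) (nat_lit 493858305440582043680)) .nil))),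
 (.br (nat_lit 7) (nat_lit 0) (.cons (.ev (nat_lit 72339069031415809) (nat_lit 1)) (.cons (.br (nat_lit 2) (nat_lit 0) (.cons (.br (nat_lit 13) (nat_lit 0) (.cons (.zr (nat_lit 79228162514336397386605265152) (nat_lit 309485028268370621722787841) (nat_lit 5) (nat_lit 0)) .nil)) .nil)) .nil))),
 (.br (nat_lit 2) (nat_lit 0) (.cons (.rf (nat_lit 3653) (nat_lit 493858305440582043680)) (.cons (.br (nat_lit 6) (nat_lit 1) (.cons (.ev (nat_lit 1208925891672223229477121) (nat_lit 1)) (.cons (.br (nat_lit 7) (nat_lit 0) (.cons (.ev (nat_lit 1208944338698875705491713) (nat_lit 1)) .nil)) .nil))) .nil))),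
 (.br (nat_lit 9) (nat_lit 1) (.cons (.rf (nat_lit 3647) (nat_lit 493858305440582043680)) (.cons (.br (nat_lit 8) (nat_lit 1) (.cons (.rf (nat_lit 3648) (nat_lit 493858305440582043680)) (.cons (.rf (nat_lit 3649) (nat_lit 493858305440582043680)) (.cons (.br (nat_lit 8) (nat_lit 1) (.cons (.rf (nat_lit 3648) (nat_lit 493858305440582043680)) (.cons (.rf (nat_lit 3649) (nat_lit 493858305440582043680)) .nil))) .nil)))) (.cons (.br (nat_lit 4) (nat_lit 1) (.cons (.br (nat_lit 8) (nat_lit 1) (.cons (.rf (nat_lit 3650) (nat_lit 493858305440582043680)) (.cons (.br (nat_lit 8) (nat_lit 1) (.cons (.rf (nat_lit 3650) (nat_lit 493858305440582043680)) (.cons (.rf (nat_lit 3652) (nat_lit 493858305440582043680)) .nil))) (.cons (.br (nat_lit 8) (nat_lit 1) (.cons (.ev (nat_lit 20361637766184381505618799755521) (nat_lit 1)) (.cons (.rf (nat_lit 3652) (nat_lit 493858305440582043680)) .nil))) .nil)))) (.cons (.br (nat_lit 2) (nat_lit 0) (.cons (.rf (nat_lit 3653) (nat_lit 493858305440582043680)) (.cons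 (.rf (nat_lit 3654) (nat_lit 493858305440582043680)) (.cons (.br (nat_lit 2) (nat_lit 0) (.cons (.rf (nat_lit 3653) (nat_lit 493858305440582043680)) (.cons (.rf (nat_lit 3654) (nat_lit 493858305440582043680)) .nil))) .nil)))) (.cons (.kr (nat_lit 4722366482869645213696) (nat_lit 20282409603651670423947251286016) (nat_lit 9) (nat_lit 0)) .nil)))) .nil)))),
 (.br (nat_lit 5) (nat_lit 0) (.cons (.br (nat_lit 7) (nat_lit 0) (.cons (.br (nat_lit 13) (nat_lit 0) (.cons (.br (nat_lit 2) (nat_lit 0) (.cons (.zr (nat_lit 2417851855405339031633920) (nat_lit 309489750635697916281356289) (nat_lit 5) (nat_lit 0)) .nil)) (.cons (.br (nat_lit 2) (nat_lit 0) (.cons (.ev (nat_lit 1208944266641277389439233) (nat_lit 1)) .nil)) .nil))) (.cons (.ev (nat_lit 79229376162450717671163953153) (nat_lit 1)) .nil))) (.cons (.br (nat_lit 7) (nat_lit 0) (.cons (.ev (nat_lit 72057598349672449) (nat_lit 1)) (.cons (.br (nat_lit 13) (nat_lit 0) (.cons (.br (nat_lit 2) (nat_lit 0) (.cons (.ev (nat_lit 20680407345245679189831215809796)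 (nat_lit 3)) .nil)) (.cons (.br (nat_lit 6) (nat_lit 1) (.cons (.ev (nat_lit 1208944266641277389439233) (nat_lit 1)) .nil)) .nil))) (.cons (.br (nat_lit 13) (nat_lit 0) (.cons (.br (nat_lit 2) (nat_lit 0) (.cons (.ev (nat_lit 20837630575308858695722778034948) (nat_lit 3)) .nil)) (.cons (.br (nat_lit 6) (nat_lit 1) (.cons (.ev (nat_lit 1208944266641277389439233) (nat_lit 1)) .nil)) .nil))) .nil)))) (.cons (.ev (nat_lit 79228167236630823774659281666) (nat_lit 2)) .nil)))),
 (.br (nat_lit 10) (nat_lit 1) (.cons (.ev (nat_lit 20282720302309677866519107796993) (nat_lit 1)) (.cons (.ev (nat_lit 310693935640959702211297281) (nat_lit 1)) .nil))),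
 (.br (nat_lit 2) (nat_lit 0) (.cons (.rf (nat_lit 3656) (nat_lit 493858305440582043680)) (.cons (.br (nat_lit 13) (nat_lit 0) (.cons (.rf (nat_lit 3657) (nat_lit 493858305440582043680)) (.cons (.br (nat_lit 10) (nat_lit 1) (.cons (.ev (nat_lit 20282409608392483651990134456321) (nat_lit 1)) (.cons (.br (nat_lit 4) (nat_lit 1) (.cons (.ev (nat_lit 20520094100750381277790148297988) (nat_lit 3)) .nil)) .nil))) (.cons (.br (nat_lit 4) (nat_lit 1) (.cons (.br (nat_lit 8) (nat_lit 1) (.cons (.ev (nat_lit 20521334477530917618467671180040) (nat_lit 4)) .nil)) (.cons (.ev (nat_lit 310693935640959702211297281) (nat_lit 1)) .nil))) .nil)))) (.cons (.br (nat_lit 5) (nat_lit 0) (.cons (.br (nat_lit 7) (nat_lit 0) (.cons (.br (nat_lit 8) (nat_lit 1) (.cons (.ev (nat_lit 20520094100749948932217230525700) (nat_lit 3)) .nil)) .nil)) (.cons (.br (nat_lit 4) (nat_lit 1) (.cons (.br (nat_lit 8) (nat_lit 1) (.cons (.zr (nat_lit 37109660929532887808) (nat_lit 310698658007724046833156097) (nat_lit 5) (nat_lit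 0)) .nil)) (.cons (.br (nat_lit 8) (nat_lit 1) (.cons (.ev (nat_lit 20680407345245679189831215809796) (nat_lit 3)) .nil)) .nil))) .nil))) .nil)))),
 (.br (nat_lit 2) (nat_lit 0) (.cons (.rf (nat_lit 3656) (nat_lit 493858305440582043680)) (.cons (.rf (nat_lit 3658) (nat_lit 493858305440582043680)) (.cons (.br (nat_lit 5) (nat_lit 0) (.cons (.br (nat_lit 8) (nat_lit 1) (.cons (.br (nat_lit 13) (nat_lit 0) (.cons (.ev (nat_lit 158768227927027136528002384130) (nat_lit 2)) .nil)) (.cons (.br (nat_lit 6) (nat_lit 1) (.cons (.ev (nat_lit 158456325047120100705968390146) (nat_lit 2)) .nil)) .nil))) (.cons (.br (nat_lit 7) (nat_lit 0) (.cons (.ev (nat_lit 79229376162450717671163953153) (nat_lit 1)) (.cons (.br (nat_lit 13) (nat_lit 0) (.cons (.zr (nat_lit 2417851855405339031633920) (nat_lit 309489750635697916281356289) (nat_lit 5) (nat_lit 0)) .nil)) .nil))) (.cons (.br (nat_lit 13) (nat_lit 0) (.cons (.br (nat_lit 6) (nat_lit 1) (.cons (.zr (nat_lit 79228162514408454980643127552) (nat_lit 309485028268652096682721281)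 (nat_lit 5) (nat_lit 0)) .nil)) (.cons (.ev (nat_lit 20361948460120022465312421052673) (nat_lit 1)) .nil))) .nil)))) .nil)))),
 (.br (nat_lit 9) (nat_lit 1) (.cons (.rf (nat_lit 3647) (nat_lit 493858305440582043680)) (.cons (.rf (nat_lit 3655) (nat_lit 493858305440582043680)) (.cons (.br (nat_lit 2) (nat_lit 0) (.cons (.rf (nat_lit 3656) (nat_lit 493858305440582043680)) (.cons (.rf (nat_lit 3658) (nat_lit 493858305440582043680)) (.cons (.rf (nat_lit 3659) (nat_lit 493858305440582043680)) (.cons (.br (nat_lit 2) (nat_lit 0) (.cons (.rf (nat_lit 3656) (nat_lit 493858305440582043680)) (.cons (.rf (nat_lit 3658) (nat_lit 493858305440582043680)) (.cons (.rf (nat_lit 3659) (nat_lit 493858305440582043680)) .nil)))) .nil))))) .nil))))]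

theorem c130 : chkAll C T R L130 (nat_lit 3638) = true := by decide +kernel

theorem l130 : (nat_lit 3638) + L130.length = (nat_lit 3661) := by decide +kernel

/-- part of the certificates -/
def L131 : List Prf := [(.br (nat_lit 11) (nat_lit 1) (.cons (.rf (nat_lit 3419) (nat_lit 493565395547242989600)) (.cons (.rf (nat_lit 3620) (nat_lit 493858305440582043680)) (.cons (.rf (nat_lit 3636) (nat_lit 493858305440582043680)) (.cons (.br (nat_lit 9) (nat_lit 1) (.cons (.rf (nat_lit 3647) (nat_lit 493858305440582043680)) (.cons (.rf (nat_lit 3655) (nat_lit 493858305440582043680)) (.cons (.rf (nat_lit 3660) (nat_lit 493858305440582043680)) (.cons (.br (nat_lit 9) (nat_lit 1) (.cons (.rf (nat_lit 3647) (nat_lit 493858305440582043680)) (.cons (.rf (nat_lit 3655) (nat_lit 493858305440582043680)) (.cons (.rf (nat_lit 3660) (nat_lit 493858305440582043680)) .nil)))) .nil))))) .nil))))),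
 (.br (nat_lit 4) (nat_lit 1) (.cons (.zr (nat_lit 20282719093384002367073697136896) (nat_lit 158456325028528676286599593985) (nat_lit 5) (nat_lit 9)) .nil)),
 (.br (nat_lit 10) (nat_lit 1) (.cons (.br (nat_lit 6) (nat_lit 1) (.cons (.br (nat_lit 4) (nat_lit 1) (.cons (.br (nat_lit 8) (nat_lit 1) (.cons (.ev (nat_lit 20679795609817268929733188584708) (nat_lit 3)) .nil)) .nil)) .nil)) (.cons (.br (nat_lit 8) (nat_lit 1) (.cons (.br (nat_lit 6) (nat_lit 1) (.cons (.br (nat_lit 13) (nat_lit 0) (.cons (.ev (nat_lit 20681040803523017151180763238152) (nat_lit 4)) .nil)) .nil)) (.cons (.br (nat_lit 6) (nat_lit 1) (.cons (.rf (nat_lit 3662) (nat_lit 493858305440582043680)) (.cons (.br (nat_lit 4) (nat_lit 1) (.cons (.ev (nat_lit 20679795609817268929733188584708) (nat_lit 3)) .nil)) .nil))) .nil))) .nil))),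
 (.br (nat_lit 8) (nat_lit 1) (.cons (.rf (nat_lit 3663) (nat_lit 493858305440582043680)) (.cons (.br (nat_lit 10) (nat_lit 1) (.cons (.ev (nat_lit 79229376180897180265585115393) (nat_lit 1)) (.cons (.br (nat_lit 13) (nat_lit 0) (.cons (.br (nat_lit 6) (nat_lit 1) (.cons (.ev (nat_lit 79537652246524505704752021505) (nat_lit 1)) .nil)) (.cons (.br (nat_lit 2) (nat_lit 0) (.cons (.ev (nat_lit 309485028268370621706076161) (nat_lit 1)) .nil)) .nil))) .nil))) .nil))),
 (.br (nat_lit 4) (nat_lit 1) (.cons (.br (nat_lit 10) (nat_lit 1) (.cons (.br (nat_lit 8) (nat_lit 1) (.cons (.br (nat_lit 6) (nat_lit 1) (.cons (.ev (nat_lit 21471453476608518733808490316040) (nat_lit 4)) .nil)) .nil)) (.cons (.br (nat_lit 6) (nat_lit 1) (.cons (.br (nat_lit 8) (nat_lit 1) (.cons (.ev (nat_lit 20681035967892950347266083980040) (nat_lit 4)) .nil)) (.cons (.br (nat_lit 7) (nat_lit 0) (.cons (.ev (nat_lit 20679790774187777451892127498500) (nat_lit 3)) .nil)) .nil))) .nil))) (.cons (.br (nat_lit 8) (nat_lit 1)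 (.cons (.br (nat_lit 10) (nat_lit 1) (.cons (.br (nat_lit 13) (nat_lit 0) (.cons (.ev (nat_lit 20679790774187777451892127498500) (nat_lit 3)) .nil)) (.cons (.br (nat_lit 7) (nat_lit 0) (.cons (.ev (nat_lit 20679795609817268929733188584708) (nat_lit 3)) .nil)) .nil))) (.cons (.br (nat_lit 10) (nat_lit 1) (.cons (.br (nat_lit 6) (nat_lit 1) (.cons (.ev (nat_lit 20681031132189671888766565289736) (nat_lit 4)) .nil)) .nil)) .nil))) .nil))),
 (.br (nat_lit 8) (nat_lit 1) (.cons (.rf (nat_lit 3665) (nat_lit 493858305440582043680)) (.cons (.br (nat_lit 7) (nat_lit 0) (.cons (.br (nat_lit 2) (nat_lit 0) (.cons (.ev (nat_lit 72339069031415809) (nat_lit 1)) (.cons (.br (nat_lit 13) (nat_lit 0) (.cons (.zr (nat_lit 618970019859425869516963840) (nat_lit 4840444091685464365334529) (nat_lit 5) (nat_lit 0)) .nil)) .nil))) (.cons (.br (nat_lit 13) (nat_lit 0) (.cons (.ev (nat_lit 20282409608374108965514757800193) (nat_lit 1)) (.cons (.ev (nat_lit 20361948460101648060307726139393) (nat_lit 1)) .nil)))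 (.cons (.ev (nat_lit 79537652264970967199661424641) (nat_lit 1)) .nil)))) .nil))),
 (.br (nat_lit 9) (nat_lit 1) (.cons (.rf (nat_lit 3419) (nat_lit 493675700753833166880)) (.cons (.br (nat_lit 8) (nat_lit 1) (.cons (.rf (nat_lit 3663) (nat_lit 493858305440582043680)) (.cons (.rf (nat_lit 3664) (nat_lit 493858305440582043680)) (.cons (.br (nat_lit 8) (nat_lit 1) (.cons (.rf (nat_lit 3663) (nat_lit 493858305440582043680)) (.cons (.rf (nat_lit 3664) (nat_lit 493858305440582043680)) .nil))) .nil)))) (.cons (.br (nat_lit 8) (nat_lit 1) (.cons (.rf (nat_lit 3665) (nat_lit 493858305440582043680)) (.cons (.rf (nat_lit 3666) (nat_lit 493858305440582043680)) (.cons (.br (nat_lit 8) (nat_lit 1) (.cons (.rf (nat_lit 3665) (nat_lit 493858305440582043680)) (.cons (.rf (nat_lit 3666) (nat_lit 493858305440582043680)) .nil))) .nil)))) .nil)))),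
 (.br (nat_lit 8) (nat_lit 1) (.cons (.br (nat_lit 10) (nat_lit 1) (.cons (.ev (nat_lit 1208944266358707196067841) (nat_lit 1)) .nil)) .nil)),
 (.br (nat_lit 6) (nat_lit 1) (.cons (.ev (nat_lit 79537652246452447006890656001) (nat_lit 1)) (.cons (.br (nat_lit 4) (nat_lit 1) (.cons (.rf (nat_lit 3668) (nat_lit 14242959524133701664)) (.cons (.br (nat_lit 10) (nat_lit 1) (.cons (.zr (nat_lit 79228167236703722482174066688) (nat_lit 2417851639229271234314497) (nat_lit 5) (nat_lit 6)) (.cons (.zr (nat_lit 20361637766165935605965725499392) (nat_lit 2417851639229266939347201) (nat_lit 5) (nat_lit 6)) .nil))) .nil))) .nil))),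
 (.br (nat_lit 10) (nat_lit 1) (.cons (.ev (nat_lit 310693935713017291937415169) (nat_lit 1)) (.cons (.br (nat_lit 8) (nat_lit 1) (.cons (.rf (nat_lit 3669) (nat_lit 493858305440582043680)) (.cons (.br (nat_lit 4) (nat_lit 1) (.cons (.ev (nat_lit 1208944266358707196067841) (nat_lit 1)) (.cons (.br (nat_lit 1) (nat_lit 0) (.cons (.zr (nat_lit 2417851855402040496751360) (nat_lit 309489750635697916281356289) (nat_lit 5) (nat_lit 0)) .nil)) .nil))) .nil))) .nil))),
 (.br (nat_lit 6) (nat_lit 1) (.cons (.br (nat_lit 8) (nat_lit 1) (.cons (.br (nat_lit 4) (nat_lit 1) (.cons (.br (nat_lit 10) (nat_lit 1) (.cons (.ev (nat_lit 1208944266358707196067841) (nat_lit 1)) .nil)) .nil)) (.cons (.br (nat_lit 7) (nat_lit 0) (.cons (.br (nat_lit 13) (nat_lit 0) (.cons (.ev (nat_lit 1208944266358707196067841) (nat_lit 1)) .nil)) (.cons (.br (nat_lit 4) (nat_lit 1) (.cons (.ev (nat_lit 1208944266358707196067841) (nat_lit 1)) .nil)) .nil))) .nil))) (.cons (.ev (nat_lit 79537652246452447006890656001) (nat_lit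 1)) .nil))),
 (.br (nat_lit 8) (nat_lit 1) (.cons (.rf (nat_lit 3671) (nat_lit 493858305440582043680)) (.cons (.br (nat_lit 10) (nat_lit 1) (.cons (.br (nat_lit 4) (nat_lit 1) (.cons (.br (nat_lit 6) (nat_lit 1) (.cons (.ev (nat_lit 79230585125308219309867270914) (nat_lit 2)) .nil)) (.cons (.ev (nat_lit 1208944266358707196067841) (nat_lit 1)) .nil))) (.cons (.br (nat_lit 6) (nat_lit 1) (.cons (.ev (nat_lit 309485009893684137739485441) (nat_lit 1)) (.cons (.ev (nat_lit 20361948460101648060307726139393) (nat_lit 1)) .nil))) (.cons (.ev (nat_lit 20282409608392483651990134456321) (nat_lit 1)) .nil)))) .nil))),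
 (.br (nat_lit 9) (nat_lit 1) (.cons (.rf (nat_lit 3419) (nat_lit 493675700753833166880)) (.cons (.br (nat_lit 8) (nat_lit 1) (.cons (.rf (nat_lit 3669) (nat_lit 493858305440582043680)) (.cons (.rf (nat_lit 3670) (nat_lit 493858305440582043680)) (.cons (.br (nat_lit 8) (nat_lit 1) (.cons (.rf (nat_lit 3669) (nat_lit 493858305440582043680)) (.cons (.rf (nat_lit 3670) (nat_lit 493858305440582043680)) .nil))) .nil)))) (.cons (.br (nat_lit 8) (nat_lit 1) (.cons (.rf (nat_lit 3671) (nat_lit 493858305440582043680)) (.cons (.rf (nat_lit 3672) (nat_lit 493858305440582043680)) (.cons (.br (nat_lit 8) (nat_lit 1) (.cons (.rf (nat_lit 3671) (nat_lit 493858305440582043680)) (.cons (.rf (nat_lit 3672) (nat_lit 493858305440582043680)) .nil))) .nil)))) .nil)))),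
 (.br (nat_lit 7) (nat_lit 0) (.cons (.br (nat_lit 1) (nat_lit 0) (.cons (.br (nat_lit 10) (nat_lit 1) (.cons (.ev (nat_lit 80159049562684070085972329218) (nat_lit 2)) (.cons (.ev (nat_lit 40644978247421147837044552106754) (nat_lit 2)) .nil))) (.cons (.ev (nat_lit 79228167236702879156738720001) (nat_lit 1)) .nil))) (.cons (.br (nat_lit 1) (nat_lit 0) (.cons (.br (nat_lit 8) (nat_lit 1) (.cons (.br (nat_lit 10) (nat_lit 1) (.cons (.zr (nat_lit 2417851855402040496751360) (nat_lit 309489750635697916281356289) (nat_lit 5) (nat_lit 0)) .nil)) (.cons (.ev (nat_lit 20361947251175756389184008355841) (nat_lit 1)) .nil))) (.cons (.br (nat_lit 10) (nat_lit 1) (.cons (.br (nat_lit 13) (nat_lit 0) (.cons (.ev (nat_lit 1208925891953702501155073) (nat_lit 1)) .nil)) (.cons (.br (nat_lit 2) (nat_lit 0) (.cons (.ev (nat_lit 20284267736803589903285387003140) (nat_lit 3)) .nil)) .nil))) (.cons (.ev (nat_lit 310693935713017291937415169) (nat_lit 1)) .nil)))) (.cons (.br (nat_lit 13) (nat_lit 0) (.cons (.br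 (nat_lit 8) (nat_lit 1) (.cons (.ev (nat_lit 20283339272329320559963715666690) (nat_lit 2)) (.cons (.ev (nat_lit 40644979456346967170198750298114) (nat_lit 2)) .nil))) (.cons (.ev (nat_lit 20361948460101647778837044396033) (nat_lit 1)) .nil))) .nil)))),
 (.br (nat_lit 13) (nat_lit 0) (.cons (.rf (nat_lit 3674) (nat_lit 493858305440582043680)) (.cons (.br (nat_lit 8) (nat_lit 1) (.cons (.br (nat_lit 10) (nat_lit 1) (.cons (.ev (nat_lit 20361948460120022465312421052673) (nat_lit 1)) (.cons (.br (nat_lit 2) (nat_lit 0) (.cons (.ev (nat_lit 20998574860267035939050040264456) (nat_lit 4)) .nil)) .nil))) (.cons (.br (nat_lit 7) (nat_lit 0) (.cons (.br (nat_lit 1) (nat_lit 0) (.cons (.ev (nat_lit 20837625739642760834210643248388) (nat_lit 3)) .nil)) (.cons (.br (nat_lit 4) (nat_lit 1) (.cons (.ev (nat_lit 20521951010698630572584330134788) (nat_lit 3)) .nil)) .nil))) (.cons (.ev (nat_lit 20282719093402377335028362248193) (nat_lit 1)) .nil)))) (.cons (.br (nat_lit 1) (nat_lit 0) (.cons (.ev (nat_lit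 20282410817299856802921047916801) (nat_lit 1)) (.cons (.br (nat_lit 8) (nat_lit 1) (.cons (.rf (nat_lit 3419) (nat_lit 493604770158142031904)) (.cons (.br (nat_lit 2) (nat_lit 0) (.cons (.ev (nat_lit 20680407345245679187632192554756) (nat_lit 3)) .nil)) .nil))) .nil))) .nil)))),
 (.br (nat_lit 13) (nat_lit 0) (.cons (.rf (nat_lit 3674) (nat_lit 493858305440582043680)) (.cons (.rf (nat_lit 3675) (nat_lit 493858305440582043680)) (.cons (.br (nat_lit 4) (nat_lit 1) (.cons (.br (nat_lit 2) (nat_lit 0) (.cons (.ev (nat_lit 20282719093383858533364909736193) (nat_lit 1)) (.cons (.ev (nat_lit 20282409608392483651990134456321) (nat_lit 1)) .nil))) (.cons (.br (nat_lit 7) (nat_lit 0) (.cons (.ev (nat_lit 72057598349672449) (nat_lit 1)) (.cons (.br (nat_lit 6) (nat_lit 1) (.cons (.zr (nat_lit 2417851855402040496751360) (nat_lit 309489750635697916281356289) (nat_lit 5) (nat_lit 0)) .nil)) .nil))) (.cons (.ev (nat_lit 20361948460101647778837044396033) (nat_lit 1)) .nil)))) .nil)))),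
 (.br (nat_lit 9) (nat_lit 1) (.cons (.rf (nat_lit 3667) (nat_lit 493858305440582043680)) (.cons (.rf (nat_lit 3673) (nat_lit 493858305440582043680)) (.cons (.br (nat_lit 13) (nat_lit 0) (.cons (.rf (nat_lit 3674) (nat_lit 493858305440582043680)) (.cons (.rf (nat_lit 3675) (nat_lit 493858305440582043680)) (.cons (.rf (nat_lit 3676) (nat_lit 493858305440582043680)) (.cons (.br (nat_lit 13) (nat_lit 0) (.cons (.rf (nat_lit 3674) (nat_lit 493858305440582043680)) (.cons (.rf (nat_lit 3675) (nat_lit 493858305440582043680)) (.cons (.rf (nat_lit 3676) (nat_lit 493858305440582043680)) .nil)))) .nil))))) .nil)))),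
 (.br (nat_lit 5) (nat_lit 0) (.cons (.br (nat_lit 2) (nat_lit 0) (.cons (.br (nat_lit 1) (nat_lit 0) (.cons (.br (nat_lit 7) (nat_lit 0) (.cons (.ev (nat_lit 79537652246452448106402283521) (nat_lit 1)) (.cons (.ev (nat_lit 1208944266359806707695873) (nat_lit 1)) .nil))) (.cons (.br (nat_lit 7) (nat_lit 0) (.cons (.br (nat_lit 9) (nat_lit 1) (.cons (.zr (nat_lit 9481842626668823315200) (nat_lit 1239148965105276383362285569) (nat_lit 5) (nat_lit 0)) .nil)) .nil)) .nil))) (.cons (.br (nat_lit 1) (nat_lit 0) (.cons (.rf (nat_lit 3421) (nat_lit 493751347148455249952)) (.cons (.rf (nat_lit 2725) (nat_lit 493858094334349707296)) (.cons (.rf (nat_lit 3493) (nat_lit 493856055839791613984)) .nil)))) (.cons (.br (nat_lit 1) (nat_lit 0) (.cons (.br (nat_lit 13) (nat_lit 0) (.cons (.br (nat_lit 7) (nat_lit 0) (.cons (.ev (nat_lit 80156627006908085924171808770) (nat_lit 2)) .nil)) .nil)) (.cons (.br (nat_lit 9) (nat_lit 1) (.cons (.ev (nat_lit 79537652246452448106402283521) (nat_lit 1)) (.cons (.ev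 (nat_lit 79228167236630820467500974081) (nat_lit 1)) .nil))) .nil))) .nil)))) (.cons (.br (nat_lit 1) (nat_lit 0) (.cons (.br (nat_lit 8) (nat_lit 1) (.cons (.rf (nat_lit 2725) (nat_lit 493858095433861302304)) (.cons (.br (nat_lit 13) (nat_lit 0) (.cons (.br (nat_lit 10) (nat_lit 1) (.cons (.ev (nat_lit 20361645029202550966294216640260) (nat_lit 3)) .nil)) (.cons (.ev (nat_lit 20361638975110273178941540794625) (nat_lit 1)) .nil))) (.cons (.br (nat_lit 7) (nat_lit 0) (.cons (.br (nat_lit 2) (nat_lit 0) (.cons (.ev (nat_lit 20361645029202550966294216640260) (nat_lit 3)) .nil)) (.cons (.ev (nat_lit 20361638975110273178941540794625) (nat_lit 1)) .nil))) .nil)))) (.cons (.br (nat_lit 13) (nat_lit 0) (.cons (.br (nat_lit 7) (nat_lit 0) (.cons (.ev (nat_lit 309485028340146740784005121) (nat_lit 1)) (.cons (.rf (nat_lit 3496) (nat_lit 493857142161574823968)) .nil))) (.cons (.rf (nat_lit 651) (nat_lit 493819920326861096992)) .nil))) (.cons (.br (nat_lit 2) (nat_lit 0) (.cons (.rf (nat_lit 3493)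 (nat_lit 493857146555326367776)) (.cons (.ev (nat_lit 79228167236630821567012602113) (nat_lit 1)) .nil))) .nil)))) (.cons (.br (nat_lit 2) (nat_lit 0) (.cons (.br (nat_lit 1) (nat_lit 0) (.cons (.rf (nat_lit 3419) (nat_lit 493604770158142031904)) (.cons (.br (nat_lit 9) (nat_lit 1) (.cons (.br (nat_lit 8) (nat_lit 1) (.cons (.ev (nat_lit 20680412162095951166204685910788) (nat_lit 3)) .nil)) (.cons (.br (nat_lit 8) (nat_lit 1) (.cons (.ev (nat_lit 20999186558063081171348305151752) (nat_lit 4)) .nil)) .nil))) .nil))) (.cons (.ev (nat_lit 79229371440084233701990400001) (nat_lit 1)) .nil))) .nil)))),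
 (.br (nat_lit 6) (nat_lit 1) (.cons (.rf (nat_lit 3493) (nat_lit 493856051446040070176)) (.cons (.rf (nat_lit 3502) (nat_lit 15433002738172135456)) .nil))),
 (.br (nat_lit 13) (nat_lit 0) (.cons (.rf (nat_lit 3678) (nat_lit 493858305440582043680)) (.cons (.br (nat_lit 8) (nat_lit 1) (.cons (.br (nat_lit 7) (nat_lit 0) (.cons (.br (nat_lit 2) (nat_lit 0) (.cons (.ev (nat_lit 309489750634572012096323841) (nat_lit 1)) (.cons (.ev (nat_lit 79229371440156291291750072321) (nat_lit 1)) .nil))) (.cons (.br (nat_lit 2) (nat_lit 0) (.cons (.br (nat_lit 5) (nat_lit 0) (.cons (.ev (nat_lit 79230580384422650007502520322) (nat_lit 2)) .nil)) (.cons (.ev (nat_lit 20361638979832639660711657668865) (nat_lit 1)) .nil))) (.cons (.ev (nat_lit 20361947251194274908277267496961) (nat_lit 1)) .nil)))) (.cons (.br (nat_lit 9) (nat_lit 1) (.cons (.br (nat_lit 7) (nat_lit 0) (.cons (.br (nat_lit 5) (nat_lit 0) (.cons (.ev (nat_lit 20679174222056666916210492900100) (nat_lit 3)) .nil)) (.cons (.ev (nat_lit 20361638979832639660711657668865)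 (nat_lit 1)) .nil))) (.cons (.rf (nat_lit 3577) (nat_lit 493787340761102125088)) (.cons (.ev (nat_lit 20282409608374036906816896565249) (nat_lit 1)) .nil)))) (.cons (.br (nat_lit 2) (nat_lit 0) (.cons (.br (nat_lit 1) (nat_lit 0) (.cons (.br (nat_lit 7) (nat_lit 0) (.cons (.ev (nat_lit 20837625739679366087601077682948) (nat_lit 3)) .nil)) (.cons (.br (nat_lit 9) (nat_lit 1) (.cons (.ev (nat_lit 79538861172271781260600344833) (nat_lit 1)) .nil)) .nil))) (.cons (.rf (nat_lit 3577) (nat_lit 493751347148455249952)) (.cons (.br (nat_lit 7) (nat_lit 0) (.cons (.ev (nat_lit 79538856449977355989288026113) (nat_lit 1)) (.cons (.br (nat_lit 6) (nat_lit 1) (.cons (.ev (nat_lit 79537652246452448106402283521) (nat_lit 1)) .nil)) .nil))) .nil)))) (.cons (.ev (nat_lit 309485028340146740784005121) (nat_lit 1)) .nil))))) (.cons (.br (nat_lit 2) (nat_lit 0) (.cons (.ev (nat_lit 20282719088661492050495247810561) (nat_lit 1)) (.cons (.br (nat_lit 5) (nat_lit 0) (.cons (.br (nat_lit 7) (nat_lit 0) (.cons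 (.br (nat_lit 9) (nat_lit 1) (.cons (.ev (nat_lit 1213666632842676336066561) (nat_lit 1)) .nil)) .nil)) (.cons (.rf (nat_lit 3497) (nat_lit 493856055839791613984)) .nil))) (.cons (.br (nat_lit 8) (nat_lit 1) (.cons (.br (nat_lit 6) (nat_lit 1) (.cons (.ev (nat_lit 309485028268090241946026241) (nat_lit 1)) (.cons (.br (nat_lit 9) (nat_lit 1) (.cons (.ev (nat_lit 79537652246452447006890656001) (nat_lit 1)) .nil)) .nil))) (.cons (.rf (nat_lit 3679) (nat_lit 493858305440582043680)) (.cons (.ev (nat_lit 309485028340146740784005121) (nat_lit 1)) .nil)))) .nil)))) .nil)))),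
 (.br (nat_lit 13) (nat_lit 0) (.cons (.rf (nat_lit 3678) (nat_lit 493858305440582043680)) (.cons (.rf (nat_lit 3680) (nat_lit 493858305440582043680)) (.cons (.br (nat_lit 13) (nat_lit 0) (.cons (.rf (nat_lit 3678) (nat_lit 493858305440582043680)) (.cons (.rf (nat_lit 3680) (nat_lit 493858305440582043680)) (.cons (.rf (nat_lit 3612) (nat_lit 457929673865483879488)) .nil)))) (.cons (.br (nat_lit 13) (nat_lit 0) (.cons (.rf (nat_lit 3678) (nat_lit 493858305440582043680)) (.cons (.rf (nat_lit 3680) (nat_lit 493858305440582043680)) (.cons (.rf (nat_lit 3612) (nat_lit 457929673865483879488)) .nil)))) .nil)))))]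

theorem c131 : chkAll C T R L131 (nat_lit 3661) = true := by decide +kernel

theorem l131 : (nat_lit 3661) + L131.length = (nat_lit 3682) := by decide +kernel

/-- part of the certificates -/
def L132 : List Prf := [(.br (nat_lit 2) (nat_lit 0) (.cons (.rf (nat_lit 3577) (nat_lit 493751347148455249952)) (.cons (.br (nat_lit 1) (nat_lit 0) (.cons (.kr (nat_lit 36965545741457031424) (nat_lit 20361637766165934762640306929664) (nat_lit 1) (nat_lit 0)) .nil)) .nil))),
 (.br (nat_lit 13) (nat_lit 0) (.cons (.rf (nat_lit 3681) (nat_lit 493858305440582043680)) (.cons (.br (nat_lit 8) (nat_lit 1) (.cons (.br (nat_lit 2) (nat_lit 0) (.cons (.br (nat_lit 5) (nat_lit 0) (.cons (.br (nat_lit 10) (nat_lit 1) (.cons (.ev (nat_lit 20837625739679367220080874423556) (nat_lit 3)) .nil)) (.cons (.br (nat_lit 7) (nat_lit 0) (.cons (.ev (nat_lit 620193149527302424175378690) (nat_lit 2)) .nil)) .nil))) (.cons (.ev (nat_lit 309489750634572012096323841) (nat_lit 1)) (.cons (.ev (nat_lit 20282720297587311665120127484161)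 (nat_lit 1)) .nil)))) (.cons (.br (nat_lit 9) (nat_lit 1) (.cons (.br (nat_lit 5) (nat_lit 0) (.cons (.br (nat_lit 10) (nat_lit 1) (.cons (.ev (nat_lit 21471453476608518733808490316040) (nat_lit 4)) .nil)) (.cons (.br (nat_lit 7) (nat_lit 0) (.cons (.ev (nat_lit 21471453476608518733808490316040) (nat_lit 4)) .nil)) .nil))) (.cons (.rf (nat_lit 3577) (nat_lit 493787340761102125088)) (.cons (.br (nat_lit 10) (nat_lit 1) (.cons (.br (nat_lit 5) (nat_lit 0) (.cons (.ev (nat_lit 20837006769660011069279249302788) (nat_lit 3)) .nil)) (.cons (.ev (nat_lit 20520095314324275990312469397506) (nat_lit 2)) .nil))) .nil)))) (.cons (.br (nat_lit 4) (nat_lit 1) (.cons (.rf (nat_lit 3505) (nat_lit 457829332431110767680)) (.cons (.ev (nat_lit 309485028268370621706076161) (nat_lit 1)) (.cons (.rf (nat_lit 3682) (nat_lit 493858305440582043680)) .nil)))) (.cons (.br (nat_lit 10) (nat_lit 1) (.cons (.br (nat_lit 4) (nat_lit 1) (.cons (.br (nat_lit 9) (nat_lit 1) (.cons (.ev (nat_lit 79538861172343838858949951745)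 (nat_lit 1)) .nil)) (.cons (.br (nat_lit 9) (nat_lit 1) (.cons (.ev (nat_lit 20679174222057099820326728173316) (nat_lit 3)) .nil)) .nil))) (.cons (.br (nat_lit 9) (nat_lit 1) (.cons (.br (nat_lit 4) (nat_lit 1) (.cons (.ev (nat_lit 20838244709699154025432169383684) (nat_lit 3)) .nil)) (.cons (.br (nat_lit 4) (nat_lit 1) (.cons (.ev (nat_lit 20837006750770113357402564003588) (nat_lit 3)) .nil)) .nil))) (.cons (.br (nat_lit 4) (nat_lit 1) (.cons (.br (nat_lit 2) (nat_lit 0) (.cons (.ev (nat_lit 21313616131081835098300460631816) (nat_lit 4)) .nil)) (.cons (.br (nat_lit 9) (nat_lit 1) (.cons (.ev (nat_lit 79538861172343838858949951745) (nat_lit 1)) .nil)) .nil))) .nil)))) .nil))))) (.cons (.br (nat_lit 5) (nat_lit 0) (.cons (.br (nat_lit 2) (nat_lit 0) (.cons (.br (nat_lit 1) (nat_lit 0) (.cons (.br (nat_lit 7) (nat_lit 0) (.cons (.ev (nat_lit 20680414579947590395454445257988) (nat_lit 3)) .nil)) .nil)) (.cons (.ev (nat_lit 79229371440084233701990400001) (nat_lit 1)) .nil))) (.cons (.kr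 (nat_lit 18446744073709551616) (nat_lit 20282409603651670423947251286016) (nat_lit 8) (nat_lit 0)) (.cons (.br (nat_lit 2) (nat_lit 0) (.cons (.ev (nat_lit 20282719088661492050495247810561) (nat_lit 1)) (.cons (.rf (nat_lit 3497) (nat_lit 493856055837646227488)) (.cons (.br (nat_lit 8) (nat_lit 1) (.cons (.br (nat_lit 7) (nat_lit 0) (.cons (.ev (nat_lit 1208944266358707196067841) (nat_lit 1)) .nil)) (.cons (.br (nat_lit 1) (nat_lit 0) (.cons (.ev (nat_lit 1208944266358707196067841) (nat_lit 1)) .nil)) .nil))) .nil)))) .nil)))) .nil)))),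
 (.br (nat_lit 7) (nat_lit 0) (.cons (.br (nat_lit 8) (nat_lit 1) (.cons (.br (nat_lit 5) (nat_lit 0) (.cons (.ev (nat_lit 309489750706911081094250753) (nat_lit 1)) .nil)) (.cons (.br (nat_lit 9) (nat_lit 1) (.cons (.ev (nat_lit 21313001977876151302129023255816) (nat_lit 4)) .nil)) .nil))) (.cons (.br (nat_lit 1) (nat_lit 0) (.cons (.br (nat_lit 8) (nat_lit 1) (.cons (.ev (nat_lit 20998574879377863938490002246408) (nat_lit 4)) .nil)) .nil)) .nil))),
 (.br (nat_lit 13) (nat_lit 0) (.cons (.rf (nat_lit 3681) (nat_lit 493858305440582043680)) (.cons (.rf (nat_lit 3683) (nat_lit 493858305440582043680)) (.cons (.br (nat_lit 2) (nat_lit 0) (.cons (.rf (nat_lit 3684) (nat_lit 493858305440582043680)) (.cons (.br (nat_lit 1) (nat_lit 0) (.cons (.br (nat_lit 9) (nat_lit 1) (.cons (.zr (nat_lit 1240357890924895406355644672) (nat_lit 81288094753802309819589323849730) (nat_lit 10) (nat_lit 3)) (.cons (.ev (nat_lit 20282410817299856802921047916801) (nat_lit 1)) .nil))) (.cons (.rf (nat_lit 3419) (nat_lit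 493604770158142031904)) (.cons (.rf (nat_lit 3684) (nat_lit 457824828835778364480)) .nil)))) (.cons (.br (nat_lit 5) (nat_lit 0) (.cons (.ev (nat_lit 79229371440084233701990400001) (nat_lit 1)) (.cons (.rf (nat_lit 3497) (nat_lit 493857146553180981280)) .nil))) .nil)))) .nil)))),
 (.br (nat_lit 13) (nat_lit 0) (.cons (.rf (nat_lit 3681) (nat_lit 493858305440582043680)) (.cons (.rf (nat_lit 3683) (nat_lit 493858305440582043680)) (.cons (.rf (nat_lit 3685) (nat_lit 493858305440582043680)) (.cons (.br (nat_lit 13) (nat_lit 0) (.cons (.rf (nat_lit 3681) (nat_lit 493858305440582043680)) (.cons (.rf (nat_lit 3683) (nat_lit 493858305440582043680)) (.cons (.rf (nat_lit 3685) (nat_lit 493858305440582043680)) .nil)))) .nil))))),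
 (.br (nat_lit 13) (nat_lit 0) (.cons (.rf (nat_lit 3681) (nat_lit 493858305440582043680)) (.cons (.rf (nat_lit 3686) (nat_lit 493858305440582043680)) (.cons (.br (nat_lit 13) (nat_lit 0) (.cons (.rf (nat_lit 3681) (nat_lit 493858305440582043680)) (.cons (.rf (nat_lit 3686) (nat_lit 493858305440582043680)) (.cons (.rf (nat_lit 3612) (nat_lit 457824828835778364480)) .nil)))) (.cons (.br (nat_lit 13) (nat_lit 0) (.cons (.rf (nat_lit 3681) (nat_lit 493858305440582043680)) (.cons (.rf (nat_lit 3686) (nat_lit 493858305440582043680)) (.cons (.rf (nat_lit 3612) (nat_lit 457824828835778364480)) .nil)))) .nil))))),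
 (.br (nat_lit 13) (nat_lit 0) (.cons (.rf (nat_lit 3612) (nat_lit 457929673865483879488)) (.cons (.rf (nat_lit 3686) (nat_lit 457824828835778364480)) (.cons (.rf (nat_lit 3612) (nat_lit 457824828835778364480)) .nil)))),
 (.br (nat_lit 2) (nat_lit 0) (.cons (.br (nat_lit 13) (nat_lit 1) (.cons (.kr (nat_lit 79228162514336395187581878528) (nat_lit 309485009821346168236474368) (nat_lit 1) (nat_lit 0)) .nil)) .nil)),
 (.br (nat_lit 7) (nat_lit 0) (.cons (.rf (nat_lit 3534) (nat_lit 493857146555326367776)) (.cons (.rf (nat_lit 3544) (nat_lit 493856055839791613984)) (.cons (.rf (nat_lit 3534) (nat_lit 493857139962553665568)) .nil)))),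
 (.br (nat_lit 2) (nat_lit 0) (.cons (.br (nat_lit 13) (nat_lit 1) (.cons (.kr (nat_lit 79228162514336395187581878528) (nat_lit 309485009821346168236474368) (nat_lit 1) (nat_lit 0)) .nil)) .nil)),
 (.br (nat_lit 5) (nat_lit 0) (.cons (.br (nat_lit 1) (nat_lit 0) (.cons (.br (nat_lit 2) (nat_lit 0) (.cons (.rf (nat_lit 3425) (nat_lit 493751347148455249952)) (.cons (.br (nat_lit 7) (nat_lit 0) (.cons (.zr (nat_lit 79228162514408454980643127552) (nat_lit 309485028268652096682721281) (nat_lit 5) (nat_lit 0)) .nil)) .nil))) (.cons (.br (nat_lit 9) (nat_lit 1) (.cons (.rf (nat_lit 2725) (nat_lit 493858094334349707296)) (.cons (.ev (nat_lit 79537652246452448106402283521) (nat_lit 1)) (.cons (.br (nat_lit 2) (nat_lit 0) (.cons (.br (nat_lit 10) (nat_lit 1) (.cons (.ev (nat_lit 1208944266359806707695873) (nat_lit 1)) .nil)) (.cons (.ev (nat_lit 79228167236630820467500974081) (nat_lit 1)) .nil))) .nil)))) (.cons (.br (nat_lit 7) (nat_lit 0) (.cons (.rf (nat_lit 3689) (nat_lit 15433070910038444064))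 (.cons (.br (nat_lit 2) (nat_lit 0) (.cons (.br (nat_lit 9) (nat_lit 1) (.cons (.ev (nat_lit 20361640212388739560757891891972) (nat_lit 3)) .nil)) (.cons (.br (nat_lit 13) (nat_lit 0) (.cons (.zr (nat_lit 237684487542793016079166930944) (nat_lit 310698676454468120542707713) (nat_lit 5) (nat_lit 0)) .nil)) .nil))) .nil))) .nil)))) (.cons (.br (nat_lit 13) (nat_lit 0) (.cons (.br (nat_lit 8) (nat_lit 1) (.cons (.br (nat_lit 10) (nat_lit 1) (.cons (.br (nat_lit 7) (nat_lit 0) (.cons (.ev (nat_lit 20838870904902476770294257353988) (nat_lit 3)) .nil)) (.cons (.ev (nat_lit 20361638975110273178941540794625) (nat_lit 1)) .nil))) (.cons (.rf (nat_lit 3690) (nat_lit 493858305440582043680)) (.cons (.ev (nat_lit 20282719088679938514189214023681) (nat_lit 1)) .nil)))) (.cons (.kr (nat_lit 4722366482869645213696) (nat_lit 20282409603651670423947251286016) (nat_lit 9) (nat_lit 0)) (.cons (.br (nat_lit 7) (nat_lit 0) (.cons (.br (nat_lit 8) (nat_lit 1) (.cons (.ev (nat_lit 20361638975110273178941540794625)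 (nat_lit 1)) (.cons (.rf (nat_lit 3497) (nat_lit 493751347148455249952)) .nil))) (.cons (.rf (nat_lit 3691) (nat_lit 15433072009550071840)) .nil))) .nil)))) (.cons (.br (nat_lit 2) (nat_lit 0) (.cons (.br (nat_lit 1) (nat_lit 0) (.cons (.rf (nat_lit 3419) (nat_lit 493604770158142031904)) (.cons (.br (nat_lit 8) (nat_lit 1) (.cons (.br (nat_lit 9) (nat_lit 1) (.cons (.ev (nat_lit 20680412162095951166204685910788) (nat_lit 3)) .nil)) (.cons (.br (nat_lit 9) (nat_lit 1) (.cons (.ev (nat_lit 20996710677763722569313014714120) (nat_lit 4)) .nil)) .nil))) .nil))) (.cons (.br (nat_lit 1) (nat_lit 0) (.cons (.br (nat_lit 8) (nat_lit 1) (.cons (.br (nat_lit 9) (nat_lit 1) (.cons (.ev (nat_lit 309489750634572012096323841) (nat_lit 1)) .nil)) (.cons (.br (nat_lit 9) (nat_lit 1) (.cons (.ev (nat_lit 309489750634572012096323841) (nat_lit 1)) .nil)) .nil))) (.cons (.rf (nat_lit 3419) (nat_lit 493675700753833166880)) .nil))) .nil))) .nil)))),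
 (.br (nat_lit 7) (nat_lit 0) (.cons (.rf (nat_lit 3692) (nat_lit 493858305440582043680)) (.cons (.br (nat_lit 10) (nat_lit 1) (.cons (.br (nat_lit 2) (nat_lit 0) (.cons (.br (nat_lit 13) (nat_lit 0) (.cons (.ev (nat_lit 79537647542604484330033053953) (nat_lit 1)) (.cons (.br (nat_lit 5) (nat_lit 0) (.cons (.zr (nat_lit 618970038305606997601419264) (nat_lit 158457538676715056359907786753) (nat_lit 5) (nat_lit 9)) .nil)) .nil))) (.cons (.br (nat_lit 9) (nat_lit 1) (.cons (.rf (nat_lit 3543) (nat_lit 493856055839791613984)) (.cons (.br (nat_lit 6) (nat_lit 1) (.cons (.ev (nat_lit 20837013994917624476074118284548) (nat_lit 3)) .nil)) .nil))) (.cons (.br (nat_lit 13) (nat_lit 0) (.cons (.zr (nat_lit 60847228810955155387029829780224) (nat_lit 620183667829069111279747073) (nat_lit 5) (nat_lit 0)) (.cons (.ev (nat_lit 1208944266358707196067841) (nat_lit 1)) .nil))) .nil)))) (.cons (.br (nat_lit 9) (nat_lit 1) (.cons (.br (nat_lit 13) (nat_lit 0) (.cons (.br (nat_lit 5) (nat_lit 0) (.cons (.zr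 (nat_lit 618970038305606997601419264) (nat_lit 158457538676715056359907786753) (nat_lit 5) (nat_lit 9)) .nil)) (.cons (.br (nat_lit 6) (nat_lit 1) (.cons (.zr (nat_lit 2417851855405339031633920) (nat_lit 309489750635697916281356289) (nat_lit 5) (nat_lit 0)) .nil)) .nil))) (.cons (.br (nat_lit 13) (nat_lit 0) (.cons (.ev (nat_lit 20361638975091754658748770025473) (nat_lit 1)) (.cons (.ev (nat_lit 20282719088679938514189214023681) (nat_lit 1)) .nil))) (.cons (.br (nat_lit 6) (nat_lit 1) (.cons (.br (nat_lit 8) (nat_lit 1) (.cons (.zr (nat_lit 618970038305606997601419264) (nat_lit 158457538676715056359907786753) (nat_lit 5) (nat_lit 9)) .nil)) (.cons (.br (nat_lit 1) (nat_lit 0) (.cons (.zr (nat_lit 2417851855405339031633920) (nat_lit 309489750635697916281356289) (nat_lit 5) (nat_lit 0)) .nil)) .nil))) .nil)))) (.cons (.br (nat_lit 6) (nat_lit 1) (.cons (.br (nat_lit 9) (nat_lit 1) (.cons (.br (nat_lit 8) (nat_lit 1) (.cons (.zr (nat_lit 2417888532717414358647552) (nat_lit 1237944761652989044467957761)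 (nat_lit 5) (nat_lit 0)) .nil)) (.cons (.ev (nat_lit 20361638975091754657649258397953) (nat_lit 1)) .nil))) (.cons (.ev (nat_lit 309485009893685237251112961) (nat_lit 1)) (.cons (.br (nat_lit 2) (nat_lit 0) (.cons (.br (nat_lit 1) (nat_lit 0) (.cons (.ev (nat_lit 20679174222056666916210492900100) (nat_lit 3)) .nil)) (.cons (.ev (nat_lit 79229371440084233701990400001) (nat_lit 1)) .nil))) .nil)))) (.cons (.br (nat_lit 1) (nat_lit 0) (.cons (.kr (nat_lit 1208925819614629191483392) (nat_lit 20282409603651670705422227996672) (nat_lit 3) (nat_lit 0)) (.cons (.ev (nat_lit 20361947251194274908277267496961) (nat_lit 1)) (.cons (.rf (nat_lit 3612) (nat_lit 457935134042368542752)) .nil)))) .nil))))) (.cons (.br (nat_lit 5) (nat_lit 0) (.cons (.br (nat_lit 13) (nat_lit 0) (.cons (.br (nat_lit 2) (nat_lit 0) (.cons (.br (nat_lit 1) (nat_lit 0) (.cons (.zr (nat_lit 9444949141819939094528) (nat_lit 310693954087985250897494017) (nat_lit 5) (nat_lit 0)) .nil)) .nil)) (.cons (.ev (nat_lit 20282719088661564108085007482881)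 (nat_lit 1)) .nil))) (.cons (.br (nat_lit 6) (nat_lit 1) (.cons (.rf (nat_lit 3689) (nat_lit 15432930176845056032)) (.cons (.br (nat_lit 1) (nat_lit 0) (.cons (.br (nat_lit 13) (nat_lit 0) (.cons (.ev (nat_lit 79537652264970967199661424641) (nat_lit 1)) .nil)) .nil)) (.cons (.rf (nat_lit 3691) (nat_lit 15432930176845056032)) .nil)))) (.cons (.br (nat_lit 13) (nat_lit 0) (.cons (.br (nat_lit 2) (nat_lit 0) (.cons (.rf (nat_lit 3497) (nat_lit 493751342754703706144)) (.cons (.ev (nat_lit 20282719093383930592054147612673) (nat_lit 1)) .nil))) (.cons (.ev (nat_lit 20282719088679938514189214023681) (nat_lit 1)) (.cons (.kr (nat_lit 4722366482869645213696) (nat_lit 20282409603651670423947251286016) (nat_lit 9) (nat_lit 0)) .nil)))) .nil)))) .nil)))),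
 (.br (nat_lit 7) (nat_lit 0) (.cons (.rf (nat_lit 3692) (nat_lit 493858305440582043680)) (.cons (.rf (nat_lit 3693) (nat_lit 493858305440582043680)) (.cons (.br (nat_lit 5) (nat_lit 0) (.cons (.br (nat_lit 2) (nat_lit 0) (.cons (.br (nat_lit 8) (nat_lit 1) (.cons (.rf (nat_lit 3419) (nat_lit 493604770158142031904)) (.cons (.ev (nat_lit 20282719088661564108085007482881) (nat_lit 1)) .nil))) (.cons (.ev (nat_lit 79229376162450717671163953153) (nat_lit 1)) .nil))) (.cons (.br (nat_lit 6) (nat_lit 1) (.cons (.br (nat_lit 13) (nat_lit 0) (.cons (.kr (nat_lit 1208944266358707179225344) (nat_lit 79537647524085965236757069824) (nat_lit 1) (nat_lit 0)) (.cons (.ev (nat_lit 79229376162450716571652325633) (nat_lit 1)) .nil))) (.cons (.ev (nat_lit 309485009893685237251112961) (nat_lit 1)) (.cons (.br (nat_lit 2) (nat_lit 0) (.cons (.ev (nat_lit 20361638975110273177842029166593) (nat_lit 1)) (.cons (.zr (nat_lit 20282409608374181866429919264768) (nat_lit 2417851639230370745942017) (nat_lit 5) (nat_lit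 6)) .nil))) .nil)))) (.cons (.br (nat_lit 1) (nat_lit 0) (.cons (.rf (nat_lit 3689) (nat_lit 15432931276356683808)) (.cons (.br (nat_lit 13) (nat_lit 0) (.cons (.rf (nat_lit 3691) (nat_lit 15432931276356683808)) (.cons (.br (nat_lit 6) (nat_lit 1) (.cons (.ev (nat_lit 20996089299447421173826622652680) (nat_lit 4)) .nil)) .nil))) .nil))) .nil)))) .nil)))),
 (.br (nat_lit 7) (nat_lit 0) (.cons (.rf (nat_lit 3692) (nat_lit 493858305440582043680)) (.cons (.rf (nat_lit 3693) (nat_lit 493858305440582043680)) (.cons (.rf (nat_lit 3694) (nat_lit 493858305440582043680)) (.cons (.br (nat_lit 7) (nat_lit 0) (.cons (.rf (nat_lit 3692) (nat_lit 493858305440582043680)) (.cons (.rf (nat_lit 3693) (nat_lit 493858305440582043680)) (.cons (.rf (nat_lit 3694) (nat_lit 493858305440582043680)) .nil)))) .nil))))),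
 (.br (nat_lit 9) (nat_lit 1) (.cons (.rf (nat_lit 3419) (nat_lit 493675700753833166880)) (.cons (.br (nat_lit 8) (nat_lit 1) (.cons (.rf (nat_lit 3425) (nat_lit 493787340761102125088)) (.cons (.br (nat_lit 10) (nat_lit 1) (.cons (.ev (nat_lit 20282409603670117168020960903169) (nat_lit 1)) (.cons (.ev (nat_lit 79537652264970967199661424641) (nat_lit 1)) .nil))) .nil))) (.cons (.br (nat_lit 8) (nat_lit 1) (.cons (.br (nat_lit 4) (nat_lit 1) (.cons (.br (nat_lit 7) (nat_lit 0) (.cons (.ev (nat_lit 20680414579947590395454445257988) (nat_lit 3)) .nil)) (.cons (.br (nat_lit 10) (nat_lit 1) (.cons (.ev (nat_lit 20680412162095951166204685910788) (nat_lit 3)) .nil)) .nil))) (.cons (.br (nat_lit 7) (nat_lit 0) (.cons (.ev (nat_lit 20282409608374108965514757800193) (nat_lit 1)) (.cons (.br (nat_lit 2) (nat_lit 0) (.cons (.ev (nat_lit 20838870904976551416205727172356) (nat_lit 3)) .nil)) .nil))) (.cons (.br (nat_lit 2) (nat_lit 0) (.cons (.br (nat_lit 5) (nat_lit 0) (.cons (.ev (nat_lit 79231789328832844613936021506)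 (nat_lit 2)) .nil)) (.cons (.ev (nat_lit 20282409603670117168020960903169) (nat_lit 1)) .nil))) .nil)))) .nil)))),
 (.br (nat_lit 9) (nat_lit 1) (.cons (.rf (nat_lit 3419) (nat_lit 493675700753833166880)) (.cons (.br (nat_lit 8) (nat_lit 1) (.cons (.ev (nat_lit 79537652246452447006890656001) (nat_lit 1)) (.cons (.br (nat_lit 4) (nat_lit 1) (.cons (.ev (nat_lit 309485028268371721217704193) (nat_lit 1)) (.cons (.br (nat_lit 10) (nat_lit 1) (.cons (.ev (nat_lit 20838863660866367254903686366468) (nat_lit 3)) .nil)) .nil))) .nil))) (.cons (.br (nat_lit 8) (nat_lit 1) (.cons (.ev (nat_lit 309489750634572012096323841) (nat_lit 1)) (.cons (.rf (nat_lit 3577) (nat_lit 493749165717385742368)) (.cons (.br (nat_lit 4) (nat_lit 1) (.cons (.br (nat_lit 5) (nat_lit 0) (.cons (.ev (nat_lit 20838870904902477335434644095748) (nat_lit 3)) .nil)) (.cons (.kr (nat_lit 18446744078004584448) (nat_lit 309485009893402662779486208) (nat_lit 2) (nat_lit 0)) .nil))) .nil)))) .nil)))),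
 (.br (nat_lit 9) (nat_lit 1) (.cons (.rf (nat_lit 3696) (nat_lit 493858305440582043680)) (.cons (.rf (nat_lit 3697) (nat_lit 493858305440582043680)) (.cons (.br (nat_lit 8) (nat_lit 1) (.cons (.br (nat_lit 4) (nat_lit 1) (.cons (.ev (nat_lit 20361947251175756106613814984961) (nat_lit 1)) (.cons (.kr (nat_lit 20282409603651670423951546253312) (nat_lit 4722366764344621924352) (nat_lit 4) (nat_lit 0)) .nil))) (.cons (.rf (nat_lit 3544) (nat_lit 493856055839791613984)) (.cons (.br (nat_lit 1) (nat_lit 0) (.cons (.ev (nat_lit 79228162532783140360803057921) (nat_lit 1)) (.cons (.br (nat_lit 4) (nat_lit 1) (.cons (.ev (nat_lit 20679169386279888581494334359300) (nat_lit 3)) .nil)) .nil))) .nil)))) .nil)))),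
 (.br (nat_lit 8) (nat_lit 1) (.cons (.rf (nat_lit 3419) (nat_lit 493604770158142031904)) (.cons (.br (nat_lit 9) (nat_lit 1) (.cons (.rf (nat_lit 3425) (nat_lit 493751347148455249952)) (.cons (.br (nat_lit 2) (nat_lit 0) (.cons (.br (nat_lit 7) (nat_lit 0) (.cons (.ev (nat_lit 20681662229173229257826296073992) (nat_lit 4)) .nil)) (.cons (.br (nat_lit 7) (nat_lit 0) (.cons (.ev (nat_lit 80156627006908085924171808770) (nat_lit 2)) .nil)) .nil))) .nil))) (.cons (.br (nat_lit 9) (nat_lit 1) (.cons (.ev (nat_lit 309489750634572012096323841) (nat_lit 1)) (.cons (.br (nat_lit 10) (nat_lit 1) (.cons (.ev (nat_lit 20443039591507859144644424564740) (nat_lit 3)) (.cons (.ev (nat_lit 79537652264970967199661424641) (nat_lit 1)) .nil))) (.cons (.br (nat_lit 5) (nat_lit 0) (.cons (.br (nat_lit 10) (nat_lit 1) (.cons (.ev (nat_lit 79229371458602753894761169153) (nat_lit 1)) .nil)) (.cons (.br (nat_lit 2) (nat_lit 0) (.cons (.zr (nat_lit 618970038305606997601419264) (nat_lit 158457538676715054160884531713)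 (nat_lit 5) (nat_lit 9)) .nil)) .nil))) .nil)))) .nil))))]

theorem c132 : chkAll C T R L132 (nat_lit 3682) = true := by decide +kernel

theorem l132 : (nat_lit 3682) + L132.length = (nat_lit 3700) := by decide +kernel

/-- part of the certificates -/
def L133 : List Prf := [(.br (nat_lit 8) (nat_lit 1) (.cons (.rf (nat_lit 3419) (nat_lit 493604770158142031904)) (.cons (.br (nat_lit 9) (nat_lit 1) (.cons (.ev (nat_lit 79537652246452448106402283521) (nat_lit 1)) (.cons (.br (nat_lit 10) (nat_lit 1) (.cons (.br (nat_lit 7) (nat_lit 0) (.cons (.ev (nat_lit 80160244358297724249352307458) (nat_lit 2)) .nil)) (.cons (.ev (nat_lit 20361638979814120859039615221761) (nat_lit 1)) .nil))) .nil))) (.cons (.br (nat_lit 5) (nat_lit 0) (.cons (.br (nat_lit 10) (nat_lit 1) (.cons (.ev (nat_lit 20282410812595936783753942138881) (nat_lit 1)) (.cons (.br (nat_lit 1) (nat_lit 0) (.cons (.ev (nat_lit 20997938946543450780624042266376) (nat_lit 4)) .nil)) .nil))) (.cons (.rf (nat_lit 3577) (nat_lit 493784068614497863712))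 (.cons (.br (nat_lit 4) (nat_lit 1) (.cons (.ev (nat_lit 20361638975091754657649258397953) (nat_lit 1)) (.cons (.br (nat_lit 9) (nat_lit 1) (.cons (.ev (nat_lit 20997948617950007697623080699656) (nat_lit 4)) .nil)) .nil))) .nil)))) .nil)))),
 (.br (nat_lit 8) (nat_lit 1) (.cons (.rf (nat_lit 3699) (nat_lit 493858305440582043680)) (.cons (.rf (nat_lit 3700) (nat_lit 493858305440582043680)) (.cons (.br (nat_lit 2) (nat_lit 0) (.cons (.ev (nat_lit 309485028268370621706076161) (nat_lit 1)) (.cons (.rf (nat_lit 3544) (nat_lit 493857146555326367776)) (.cons (.br (nat_lit 9) (nat_lit 1) (.cons (.ev (nat_lit 79537652246452448106402283521) (nat_lit 1)) (.cons (.zr (nat_lit 928455029680207988321681408) (nat_lit 79229376162450717666852274177) (nat_lit 5) (nat_lit 9)) .nil))) .nil)))) .nil)))),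
 (.br (nat_lit 1) (nat_lit 0) (.cons (.br (nat_lit 2) (nat_lit 0) (.cons (.rf (nat_lit 3419) (nat_lit 493604770158142031904)) (.cons (.br (nat_lit 8) (nat_lit 1) (.cons (.rf (nat_lit 3425) (nat_lit 493751347148455249952)) (.cons (.rf (nat_lit 3612) (nat_lit 457864203446677407776)) .nil))) .nil))) (.cons (.br (nat_lit 2) (nat_lit 0) (.cons (.br (nat_lit 8) (nat_lit 1) (.cons (.ev (nat_lit 1208944266359806707695873) (nat_lit 1)) (.cons (.rf (nat_lit 3493) (nat_lit 457822756256356762688)) .nil))) (.cons (.kr (nat_lit 20282409608374036906816896499968) (nat_lit 309485009821345068741623808) (nat_lit 1) (nat_lit 0)) .nil))) .nil))),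
 (.br (nat_lit 8) (nat_lit 1) (.cons (.rf (nat_lit 3612) (nat_lit 457864203446677407776)) (.cons (.rf (nat_lit 3612) (nat_lit 457864203446677406784)) (.cons (.br (nat_lit 7) (nat_lit 0) (.cons (.rf (nat_lit 3691) (nat_lit 15433070907893057568)) (.cons (.br (nat_lit 2) (nat_lit 0) (.cons (.ev (nat_lit 309485028268370621706076161) (nat_lit 1)) (.cons (.rf (nat_lit 3543) (nat_lit 493857146555326367776)) .nil))) .nil))) .nil)))),
 (.br (nat_lit 13) (nat_lit 0) (.cons (.rf (nat_lit 3695) (nat_lit 493858305440582043680)) (.cons (.br (nat_lit 9) (nat_lit 1) (.cons (.rf (nat_lit 3696) (nat_lit 493858305440582043680)) (.cons (.rf (nat_lit 3697) (nat_lit 493858305440582043680)) (.cons (.rf (nat_lit 3698) (nat_lit 493858305440582043680)) (.cons (.br (nat_lit 9) (nat_lit 1) (.cons (.rf (nat_lit 3696) (nat_lit 493858305440582043680)) (.cons (.rf (nat_lit 3697) (nat_lit 493858305440582043680)) (.cons (.rf (nat_lit 3698) (nat_lit 493858305440582043680)) .nil)))) .nil))))) (.cons (.br (nat_lit 8) (nat_lit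 1) (.cons (.rf (nat_lit 3699) (nat_lit 493858305440582043680)) (.cons (.rf (nat_lit 3700) (nat_lit 493858305440582043680)) (.cons (.rf (nat_lit 3701) (nat_lit 493858305440582043680)) (.cons (.br (nat_lit 8) (nat_lit 1) (.cons (.rf (nat_lit 3699) (nat_lit 493858305440582043680)) (.cons (.rf (nat_lit 3700) (nat_lit 493858305440582043680)) (.cons (.rf (nat_lit 3701) (nat_lit 493858305440582043680)) .nil)))) .nil))))) (.cons (.br (nat_lit 7) (nat_lit 0) (.cons (.rf (nat_lit 3702) (nat_lit 493858305440582043680)) (.cons (.rf (nat_lit 3703) (nat_lit 493858305440582043680)) (.cons (.br (nat_lit 7) (nat_lit 0) (.cons (.rf (nat_lit 3702) (nat_lit 493858305440582043680)) (.cons (.rf (nat_lit 3703) (nat_lit 493858305440582043680)) .nil))) .nil)))) .nil))))),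
 (.br (nat_lit 8) (nat_lit 1) (.cons (.kr (nat_lit 9444805023333328355584) (nat_lit 20361637766165934762640306929664) (nat_lit 1) (nat_lit 0)) .nil)),
 (.br (nat_lit 1) (nat_lit 0) (.cons (.br (nat_lit 7) (nat_lit 0) (.cons (.kr (nat_lit 9444805023333328355584) (nat_lit 20361637766165934762640306929664) (nat_lit 1) (nat_lit 0)) .nil)) (.cons (.rf (nat_lit 3705) (nat_lit 493853801845249640480)) .nil))),
 (.br (nat_lit 9) (nat_lit 1) (.cons (.kr (nat_lit 20520094091194463437827394765056) (nat_lit 36965545750047031296) (nat_lit 1) (nat_lit 0)) .nil)),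
 (.br (nat_lit 2) (nat_lit 0) (.cons (.ev (nat_lit 18447026648197890049) (nat_lit 1)) (.cons (.ev (nat_lit 20282409608392483651990134456321) (nat_lit 1)) .nil))),
 (.br (nat_lit 9) (nat_lit 1) (.cons (.kr (nat_lit 20282409603651742481541289214208) (nat_lit 79228162514264338693055643648) (nat_lit 1) (nat_lit 0)) .nil)),
 (.br (nat_lit 5) (nat_lit 0) (.cons (.rf (nat_lit 3709) (nat_lit 493858305440582043680)) (.cons (.rf (nat_lit 3709) (nat_lit 493858271355721582624)) .nil))),
 (.br (nat_lit 9) (nat_lit 1) (.cons (.rf (nat_lit 3419) (nat_lit 493675700753833166880)) (.cons (.br (nat_lit 8) (nat_lit 1) (.cons (.rf (nat_lit 3425) (nat_lit 493787340761102125088)) (.cons (.ev (nat_lit 20282409608392483650890622828801) (nat_lit 1)) .nil))) (.cons (.br (nat_lit 5) (nat_lit 0) (.cons (.br (nat_lit 7) (nat_lit 0) (.cons (.br (nat_lit 8) (nat_lit 1) (.cons (.ev (nat_lit 20996701006357165652313977325320) (nat_lit 4)) .nil)) (.cons (.ev (nat_lit 79228162532783140360803057921) (nat_lit 1)) .nil)))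 (.cons (.br (nat_lit 8) (nat_lit 1) (.cons (.ev (nat_lit 79537647524085965236773912833) (nat_lit 1)) (.cons (.br (nat_lit 4) (nat_lit 1) (.cons (.ev (nat_lit 309485028268370621706076161) (nat_lit 1)) .nil)) .nil))) (.cons (.ev (nat_lit 20282409608392483650890622828801) (nat_lit 1)) .nil)))) .nil)))),
 (.br (nat_lit 9) (nat_lit 1) (.cons (.rf (nat_lit 3419) (nat_lit 493675700753833166880)) (.cons (.br (nat_lit 6) (nat_lit 1) (.cons (.ev (nat_lit 20361637770888301526984928788481) (nat_lit 1)) (.cons (.br (nat_lit 4) (nat_lit 1) (.cons (.br (nat_lit 7) (nat_lit 0) (.cons (.ev (nat_lit 1208944266358707196067841) (nat_lit 1)) .nil)) (.cons (.br (nat_lit 1) (nat_lit 0) (.cons (.ev (nat_lit 1208944266358707196067841) (nat_lit 1)) .nil)) .nil))) .nil))) (.cons (.br (nat_lit 8) (nat_lit 1) (.cons (.ev (nat_lit 309489750634572012096323841) (nat_lit 1)) (.cons (.rf (nat_lit 3577) (nat_lit 493749165717385742368)) (.cons (.br (nat_lit 4) (nat_lit 1) (.cons (.ev (nat_lit 1208944266358707196067841)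 (nat_lit 1)) (.cons (.kr (nat_lit 18446744078004584448) (nat_lit 309485009893402662779486208) (nat_lit 2) (nat_lit 0)) .nil))) .nil)))) .nil)))),
 (.br (nat_lit 9) (nat_lit 1) (.cons (.rf (nat_lit 3711) (nat_lit 493858305440582043680)) (.cons (.rf (nat_lit 3712) (nat_lit 493858305440582043680)) (.cons (.br (nat_lit 2) (nat_lit 0) (.cons (.br (nat_lit 8) (nat_lit 1) (.cons (.ev (nat_lit 20361637766165934762644618674433) (nat_lit 1)) (.cons (.br (nat_lit 6) (nat_lit 1) (.cons (.zr (nat_lit 2417851855402040496751360) (nat_lit 309489750635697916281356289) (nat_lit 5) (nat_lit 0)) .nil)) .nil))) (.cons (.br (nat_lit 7) (nat_lit 0) (.cons (.br (nat_lit 8) (nat_lit 1) (.cons (.zr (nat_lit 158456325028600734980149150208) (nat_lit 309485028268370626017755137) (nat_lit 5) (nat_lit 0)) .nil)) (.cons (.ev (nat_lit 20282409603670117168020960903169) (nat_lit 1)) .nil))) (.cons (.rf (nat_lit 3544) (nat_lit 493856055839791613984)) .nil)))) .nil)))),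
 (.br (nat_lit 13) (nat_lit 0) (.cons (.rf (nat_lit 3695) (nat_lit 493858305440582043680)) (.cons (.rf (nat_lit 3704) (nat_lit 493858305440582043680)) (.cons (.br (nat_lit 4) (nat_lit 1) (.cons (.br (nat_lit 6) (nat_lit 1) (.cons (.ev (nat_lit 20361947251175756388084496728321) (nat_lit 1)) (.cons (.br (nat_lit 10) (nat_lit 1) (.cons (.br (nat_lit 9) (nat_lit 1) (.cons (.br (nat_lit 7) (nat_lit 0) (.cons (.zr (nat_lit 2417851855405339031633920) (nat_lit 309489750635697916281356289) (nat_lit 5) (nat_lit 0)) .nil)) .nil)) (.cons (.br (nat_lit 8) (nat_lit 1) (.cons (.ev (nat_lit 1208944266641277389439233) (nat_lit 1)) (.cons (.br (nat_lit 9) (nat_lit 1) (.cons (.ev (nat_lit 476606919957918921595660993540) (nat_lit 3)) .nil)) .nil))) .nil))) (.cons (.br (nat_lit 9) (nat_lit 1) (.cons (.br (nat_lit 8) (nat_lit 1) (.cons (.rf (nat_lit 3690) (nat_lit 493858271355721582624)) (.cons (.ev (nat_lit 79228167255149622130953486593) (nat_lit 1)) .nil))) (.cons (.br (nat_lit 2) (nat_lit 0) (.cons (.rf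 (nat_lit 3690) (nat_lit 493858305440582043680)) (.cons (.ev (nat_lit 20361638975091754377269498347521) (nat_lit 1)) .nil))) (.cons (.br (nat_lit 8) (nat_lit 1) (.cons (.ev (nat_lit 79228167255149622130953486593) (nat_lit 1)) (.cons (.ev (nat_lit 309489750634573111607951361) (nat_lit 1)) .nil))) .nil)))) .nil)))) (.cons (.br (nat_lit 6) (nat_lit 1) (.cons (.br (nat_lit 10) (nat_lit 1) (.cons (.ev (nat_lit 20440869555457657946333333422850) (nat_lit 2)) (.cons (.br (nat_lit 9) (nat_lit 1) (.cons (.rf (nat_lit 3706) (nat_lit 493853801845249640480)) (.cons (.br (nat_lit 5) (nat_lit 0) (.cons (.ev (nat_lit 309489750634573111607951361) (nat_lit 1)) .nil)) .nil))) .nil))) (.cons (.br (nat_lit 8) (nat_lit 1) (.cons (.br (nat_lit 9) (nat_lit 1) (.cons (.br (nat_lit 7) (nat_lit 0) (.cons (.ev (nat_lit 79229376162450717671163953153) (nat_lit 1)) .nil)) .nil)) (.cons (.ev (nat_lit 309485028268370621706076161) (nat_lit 1)) .nil))) (.cons (.br (nat_lit 5) (nat_lit 0) (.cons (.ev (nat_lit 309485028268370621706076161)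 (nat_lit 1)) (.cons (.rf (nat_lit 3706) (nat_lit 493858305440582043680)) (.cons (.br (nat_lit 7) (nat_lit 0) (.cons (.ev (nat_lit 40644358063753318203883824087042) (nat_lit 2)) (.cons (.ev (nat_lit 72057598349672449) (nat_lit 1)) .nil))) .nil)))) .nil)))) (.cons (.br (nat_lit 8) (nat_lit 1) (.cons (.br (nat_lit 10) (nat_lit 1) (.cons (.br (nat_lit 9) (nat_lit 1) (.cons (.br (nat_lit 6) (nat_lit 1) (.cons (.ev (nat_lit 79540070098164299012599972610) (nat_lit 2)) .nil)) .nil)) (.cons (.br (nat_lit 7) (nat_lit 0) (.cons (.ev (nat_lit 20282410812577562378749247226113) (nat_lit 1)) (.cons (.ev (nat_lit 1213648258156192369475841) (nat_lit 1)) .nil))) .nil))) (.cons (.br (nat_lit 10) (nat_lit 1) (.cons (.br (nat_lit 6) (nat_lit 1) (.cons (.br (nat_lit 7) (nat_lit 0) (.cons (.ev (nat_lit 4722438823038171545601) (nat_lit 1)) .nil)) .nil)) (.cons (.br (nat_lit 9) (nat_lit 1) (.cons (.br (nat_lit 6) (nat_lit 1) (.cons (.ev (nat_lit 20679171804205027686960733552900) (nat_lit 3)) .nil)) (.cons (.ev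 (nat_lit 40644979465828737176323548577794) (nat_lit 2)) .nil))) .nil))) (.cons (.ev (nat_lit 20282719088679938514189214023681) (nat_lit 1)) .nil)))) (.cons (.br (nat_lit 10) (nat_lit 1) (.cons (.br (nat_lit 2) (nat_lit 0) (.cons (.br (nat_lit 8) (nat_lit 1) (.cons (.br (nat_lit 9) (nat_lit 1) (.cons (.ev (nat_lit 309489750634573111607951361) (nat_lit 1)) .nil)) (.cons (.ev (nat_lit 72339069031415809) (nat_lit 1)) .nil))) (.cons (.br (nat_lit 9) (nat_lit 1) (.cons (.rf (nat_lit 3690) (nat_lit 493858305438436657184)) (.cons (.br (nat_lit 6) (nat_lit 1) (.cons (.zr (nat_lit 9444733528693538816768) (nat_lit 310693954231818959701671937) (nat_lit 5) (nat_lit 3)) .nil)) .nil))) (.cons (.br (nat_lit 8) (nat_lit 1) (.cons (.rf (nat_lit 3690) (nat_lit 493858271353576196128)) (.cons (.kr (nat_lit 20361637770888301244410440450304) (nat_lit 618970019714747731504267264) (nat_lit 1) (nat_lit 0)) .nil))) .nil)))) (.cons (.br (nat_lit 5) (nat_lit 0) (.cons (.br (nat_lit 7) (nat_lit 0) (.cons (.br (nat_lit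 1) (nat_lit 0) (.cons (.zr (nat_lit 618970019859425869516963840) (nat_lit 4840444091685464365334529) (nat_lit 5) (nat_lit 0)) .nil)) (.cons (.ev (nat_lit 79229376162450717671163953153) (nat_lit 1)) .nil))) (.cons (.br (nat_lit 7) (nat_lit 0) (.cons (.rf (nat_lit 3707) (nat_lit 493858305440582043680)) (.cons (.ev (nat_lit 309489750634573111607951361) (nat_lit 1)) .nil))) (.cons (.ev (nat_lit 20361638975091754377269498347521) (nat_lit 1)) .nil)))) (.cons (.br (nat_lit 6) (nat_lit 1) (.cons (.br (nat_lit 8) (nat_lit 1) (.cons (.br (nat_lit 9) (nat_lit 1) (.cons (.ev (nat_lit 79228167255149622130953486593) (nat_lit 1)) .nil)) (.cons (.rf (nat_lit 3708) (nat_lit 493858305440582043680)) .nil))) (.cons (.br (nat_lit 7) (nat_lit 0) (.cons (.ev (nat_lit 72339069031415809) (nat_lit 1)) (.cons (.ev (nat_lit 40644358063753318485354505830402) (nat_lit 2)) .nil))) (.cons (.br (nat_lit 8) (nat_lit 1) (.cons (.ev (nat_lit 20282410812577562378749247226113) (nat_lit 1)) (.cons (.br (nat_lit 1) (nat_lit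 0) (.cons (.ev (nat_lit 20679174222056666916210492900100) (nat_lit 3)) .nil)) .nil))) .nil)))) (.cons (.br (nat_lit 6) (nat_lit 1) (.cons (.rf (nat_lit 3710) (nat_lit 493858305440582043680)) (.cons (.br (nat_lit 5) (nat_lit 0) (.cons (.rf (nat_lit 3707) (nat_lit 493853801845249640480)) (.cons (.ev (nat_lit 20282719093383930592054147612673) (nat_lit 1)) .nil))) (.cons (.ev (nat_lit 20282719088661564108085007482881) (nat_lit 1)) .nil)))) .nil))))) .nil))))) (.cons (.br (nat_lit 9) (nat_lit 1) (.cons (.rf (nat_lit 3711) (nat_lit 493858305440582043680)) (.cons (.rf (nat_lit 3712) (nat_lit 493858305440582043680)) (.cons (.rf (nat_lit 3713) (nat_lit 493858305440582043680)) (.cons (.br (nat_lit 9) (nat_lit 1) (.cons (.rf (nat_lit 3711) (nat_lit 493858305440582043680)) (.cons (.rf (nat_lit 3712) (nat_lit 493858305440582043680)) (.cons (.rf (nat_lit 3713) (nat_lit 493858305440582043680)) .nil)))) .nil))))) .nil))))),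
 (.br (nat_lit 8) (nat_lit 1) (.cons (.kr (nat_lit 20282409603651742481541289214208) (nat_lit 79228162514264338693055643648) (nat_lit 1) (nat_lit 0)) .nil)),
 (.br (nat_lit 8) (nat_lit 1) (.cons (.rf (nat_lit 3577) (nat_lit 457857553600355763264)) (.cons (.rf (nat_lit 3689) (nat_lit 15432930170408896544)) .nil))),
 (.br (nat_lit 7) (nat_lit 0) (.cons (.br (nat_lit 1) (nat_lit 0) (.cons (.br (nat_lit 2) (nat_lit 0) (.cons (.rf (nat_lit 3419) (nat_lit 493604770158142031904)) (.cons (.rf (nat_lit 3715) (nat_lit 493858305440582043680)) .nil))) (.cons (.br (nat_lit 2) (nat_lit 0) (.cons (.br (nat_lit 5) (nat_lit 0) (.cons (.ev (nat_lit 1208944266359806707695873) (nat_lit 1)) .nil)) .nil)) .nil))) (.cons (.br (nat_lit 6) (nat_lit 1) (.cons (.rf (nat_lit 3716) (nat_lit 493858305440582043680)) (.cons (.ev (nat_lit 72339069031415809) (nat_lit 1)) (.cons (.ev (nat_lit 20282719088661564108085007482881) (nat_lit 1)) .nil)))) (.cons (.br (nat_lit 1) (nat_lit 0) (.cons (.ev (nat_lit 79229376162450716571652325633)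 (nat_lit 1)) (.cons (.br (nat_lit 8) (nat_lit 1) (.cons (.ev (nat_lit 309489750634572012096323841) (nat_lit 1)) (.cons (.ev (nat_lit 20282409608392483650890622828801) (nat_lit 1)) .nil))) .nil))) .nil)))),
 (.br (nat_lit 7) (nat_lit 0) (.cons (.rf (nat_lit 3717) (nat_lit 493858305440582043680)) (.cons (.br (nat_lit 4) (nat_lit 1) (.cons (.rf (nat_lit 3716) (nat_lit 493858305438436657184)) (.cons (.br (nat_lit 9) (nat_lit 1) (.cons (.br (nat_lit 8) (nat_lit 1) (.cons (.ev (nat_lit 20837009178103810816539090813700) (nat_lit 3)) .nil)) (.cons (.br (nat_lit 1) (nat_lit 0) (.cons (.ev (nat_lit 79228167255149623230465114113) (nat_lit 1)) .nil)) .nil))) (.cons (.br (nat_lit 8) (nat_lit 1) (.cons (.br (nat_lit 9) (nat_lit 1) (.cons (.ev (nat_lit 309489750634572012096323841) (nat_lit 1)) .nil)) (.cons (.br (nat_lit 1) (nat_lit 0) (.cons (.ev (nat_lit 20680414579947590395454445257988) (nat_lit 3)) .nil)) .nil))) .nil)))) (.cons (.br (nat_lit 1) (nat_lit 0) (.cons (.br (nat_lit 2) (nat_lit 0) (.cons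 (.br (nat_lit 5) (nat_lit 0) (.cons (.ev (nat_lit 79228162532783420740563107841) (nat_lit 1)) .nil)) .nil)) (.cons (.ev (nat_lit 20361637770888301525885417160961) (nat_lit 1)) .nil))) .nil)))),
 (.br (nat_lit 7) (nat_lit 0) (.cons (.rf (nat_lit 3717) (nat_lit 493858305440582043680)) (.cons (.rf (nat_lit 3718) (nat_lit 493858305440582043680)) (.cons (.br (nat_lit 8) (nat_lit 1) (.cons (.br (nat_lit 4) (nat_lit 1) (.cons (.br (nat_lit 5) (nat_lit 0) (.cons (.zr (nat_lit 618970038305606997601419264) (nat_lit 158457538676715054160884531713) (nat_lit 5) (nat_lit 9)) .nil)) (.cons (.br (nat_lit 2) (nat_lit 0) (.cons (.zr (nat_lit 36893491454544117760) (nat_lit 310698658007724042588520449) (nat_lit 5) (nat_lit 0)) .nil)) .nil))) (.cons (.br (nat_lit 6) (nat_lit 1) (.cons (.br (nat_lit 5) (nat_lit 0) (.cons (.zr (nat_lit 2417851855402040496751360) (nat_lit 309489750635697916281356289) (nat_lit 5) (nat_lit 0)) .nil)) (.cons (.ev (nat_lit 20361638975110273459312710909953) (nat_lit 1)) .nil)))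 (.cons (.br (nat_lit 6) (nat_lit 1) (.cons (.br (nat_lit 2) (nat_lit 0) (.cons (.zr (nat_lit 2417851855402040496751360) (nat_lit 309489750635697916281356289) (nat_lit 5) (nat_lit 0)) .nil)) (.cons (.ev (nat_lit 20361638975110273459312710909953) (nat_lit 1)) .nil))) .nil)))) .nil)))),
 (.br (nat_lit 13) (nat_lit 0) (.cons (.rf (nat_lit 3695) (nat_lit 493858305440582043680)) (.cons (.rf (nat_lit 3704) (nat_lit 493858305440582043680)) (.cons (.rf (nat_lit 3714) (nat_lit 493858305440582043680)) (.cons (.br (nat_lit 7) (nat_lit 0) (.cons (.rf (nat_lit 3717) (nat_lit 493858305440582043680)) (.cons (.rf (nat_lit 3718) (nat_lit 493858305440582043680)) (.cons (.rf (nat_lit 3719) (nat_lit 493858305440582043680)) (.cons (.br (nat_lit 7) (nat_lit 0) (.cons (.rf (nat_lit 3717) (nat_lit 493858305440582043680)) (.cons (.rf (nat_lit 3718) (nat_lit 493858305440582043680)) (.cons (.rf (nat_lit 3719) (nat_lit 493858305440582043680)) .nil)))) .nil))))) .nil)))))]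

theorem c133 : chkAll C T R L133 (nat_lit 3700) = true := by decide +kernel

theorem l133 : (nat_lit 3700) + L133.length = (nat_lit 3721) := by decide +kernel

/-- part of the certificates -/
def L134 : List Prf := [(.br (nat_lit 11) (nat_lit 1) (.cons (.rf (nat_lit 3419) (nat_lit 493565395547242989600)) (.cons (.br (nat_lit 9) (nat_lit 1) (.cons (.rf (nat_lit 3667) (nat_lit 493858305440582043680)) (.cons (.rf (nat_lit 3673) (nat_lit 493858305440582043680)) (.cons (.rf (nat_lit 3677) (nat_lit 493858305440582043680)) (.cons (.br (nat_lit 9) (nat_lit 1) (.cons (.rf (nat_lit 3667) (nat_lit 493858305440582043680)) (.cons (.rf (nat_lit 3673) (nat_lit 493858305440582043680)) (.cons (.rf (nat_lit 3677) (nat_lit 493858305440582043680)) .nil)))) .nil))))) (.cons (.br (nat_lit 13) (nat_lit 0) (.cons (.rf (nat_lit 3681) (nat_lit 493858305440582043680)) (.cons (.rf (nat_lit 3688) (nat_lit 457824828835778364480)) (.cons (.rf (nat_lit 3687) (nat_lit 493858305440582043680)) (.cons (.br (nat_lit 13)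 (nat_lit 0) (.cons (.rf (nat_lit 3681) (nat_lit 493858305440582043680)) (.cons (.rf (nat_lit 3688) (nat_lit 457824828835778364480)) (.cons (.rf (nat_lit 3687) (nat_lit 493858305440582043680)) (.cons (.rf (nat_lit 3688) (nat_lit 493858305440582043680)) .nil))))) (.cons (.br (nat_lit 13) (nat_lit 0) (.cons (.rf (nat_lit 3681) (nat_lit 493858305440582043680)) (.cons (.rf (nat_lit 3688) (nat_lit 457824828835778364480)) (.cons (.rf (nat_lit 3687) (nat_lit 493858305440582043680)) (.cons (.rf (nat_lit 3688) (nat_lit 493858305440582043680)) .nil))))) .nil)))))) (.cons (.br (nat_lit 13) (nat_lit 0) (.cons (.rf (nat_lit 3695) (nat_lit 493858305440582043680)) (.cons (.rf (nat_lit 3704) (nat_lit 493858305440582043680)) (.cons (.rf (nat_lit 3714) (nat_lit 493858305440582043680)) (.cons (.rf (nat_lit 3720) (nat_lit 493858305440582043680)) (.cons (.br (nat_lit 13) (nat_lit 0) (.cons (.rf (nat_lit 3695) (nat_lit 493858305440582043680)) (.cons (.rf (nat_lit 3704) (nat_lit 493858305440582043680)) (.cons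 (.rf (nat_lit 3714) (nat_lit 493858305440582043680)) (.cons (.rf (nat_lit 3720) (nat_lit 493858305440582043680)) .nil))))) .nil)))))) .nil))))),
 (.br (nat_lit 8) (nat_lit 1) (.cons (.br (nat_lit 10) (nat_lit 1) (.cons (.ev (nat_lit 1223148475469340881191426) (nat_lit 2)) (.cons (.br (nat_lit 6) (nat_lit 1) (.cons (.br (nat_lit 13) (nat_lit 0) (.cons (.zr (nat_lit 618970038233549407841746944) (nat_lit 158457538676715056359907786753) (nat_lit 5) (nat_lit 9)) .nil)) (.cons (.br (nat_lit 4) (nat_lit 1) (.cons (.ev (nat_lit 20520715479066249764796753052420) (nat_lit 3)) .nil)) .nil))) .nil))) .nil)),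
 (.br (nat_lit 8) (nat_lit 1) (.cons (.br (nat_lit 4) (nat_lit 1) (.cons (.ev (nat_lit 79537652246524224225480343553) (nat_lit 1)) (.cons (.br (nat_lit 13) (nat_lit 0) (.cons (.br (nat_lit 10) (nat_lit 1) (.cons (.ev (nat_lit 1208925891953702501155073) (nat_lit 1)) .nil)) (.cons (.br (nat_lit 6) (nat_lit 1) (.cons (.ev (nat_lit 79538856468352322844424732673) (nat_lit 1)) .nil)) .nil))) .nil))) (.cons (.br (nat_lit 10) (nat_lit 1) (.cons (.br (nat_lit 6) (nat_lit 1) (.cons (.ev (nat_lit 79229371440156291291750072321) (nat_lit 1)) (.cons (.br (nat_lit 4) (nat_lit 1) (.cons (.ev (nat_lit 21157031194776325251086886178056) (nat_lit 4)) .nil)) .nil))) (.cons (.br (nat_lit 4) (nat_lit 1) (.cons (.br (nat_lit 6) (nat_lit 1) (.cons (.zr (nat_lit 620178945462867716577886208) (nat_lit 4740957342135742365697) (nat_lit 5) (nat_lit 8)) .nil)) (.cons (.br (nat_lit 6) (nat_lit 1) (.cons (.ev (nat_lit 79538856468352322844424732673) (nat_lit 1)) .nil)) .nil))) (.cons (.br (nat_lit 7) (nat_lit 0) (.cons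 (.br (nat_lit 6) (nat_lit 1) (.cons (.ev (nat_lit 79538856468352322844424732673) (nat_lit 1)) .nil)) (.cons (.br (nat_lit 2) (nat_lit 0) (.cons (.ev (nat_lit 79228162532783421840074735873) (nat_lit 1)) .nil)) .nil))) .nil)))) .nil))),
 (.br (nat_lit 8) (nat_lit 1) (.cons (.rf (nat_lit 3723) (nat_lit 493858305440582043680)) (.cons (.br (nat_lit 6) (nat_lit 1) (.cons (.br (nat_lit 2) (nat_lit 0) (.cons (.br (nat_lit 10) (nat_lit 1) (.cons (.ev (nat_lit 20520098945787280454989572932868) (nat_lit 3)) .nil)) (.cons (.br (nat_lit 13) (nat_lit 0) (.cons (.ev (nat_lit 20679181503835103043401309686536) (nat_lit 4)) .nil)) .nil))) (.cons (.br (nat_lit 4) (nat_lit 1) (.cons (.br (nat_lit 10) (nat_lit 1) (.cons (.ev (nat_lit 20838863679681901538563749644036) (nat_lit 3)) .nil)) .nil)) .nil))) .nil))),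
 (.br (nat_lit 9) (nat_lit 1) (.cons (.rf (nat_lit 3419) (nat_lit 493675700753833166880)) (.cons (.br (nat_lit 8) (nat_lit 1) (.cons (.rf (nat_lit 3722) (nat_lit 493858305440582043680)) (.cons (.br (nat_lit 8) (nat_lit 1) (.cons (.rf (nat_lit 3722) (nat_lit 493858305440582043680)) .nil)) .nil))) (.cons (.br (nat_lit 8) (nat_lit 1) (.cons (.rf (nat_lit 3723) (nat_lit 493858305440582043680)) (.cons (.rf (nat_lit 3724) (nat_lit 493858305440582043680)) (.cons (.br (nat_lit 8) (nat_lit 1) (.cons (.rf (nat_lit 3723) (nat_lit 493858305440582043680)) (.cons (.rf (nat_lit 3724) (nat_lit 493858305440582043680)) .nil))) .nil)))) .nil)))),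
 (.br (nat_lit 6) (nat_lit 1) (.cons (.ev (nat_lit 79537652246452447006890656001) (nat_lit 1)) (.cons (.br (nat_lit 8) (nat_lit 1) (.cons (.rf (nat_lit 795) (nat_lit 15069059359180832)) (.cons (.br (nat_lit 10) (nat_lit 1) (.cons (.br (nat_lit 13) (nat_lit 0) (.cons (.ev (nat_lit 318151822726734579725517325316) (nat_lit 3)) .nil)) (.cons (.ev (nat_lit 79538856468424381533696033025) (nat_lit 1)) .nil))) .nil))) .nil))),
 (.br (nat_lit 8) (nat_lit 1) (.cons (.rf (nat_lit 2725) (nat_lit 493786040038846629920)) (.cons (.br (nat_lit 10) (nat_lit 1) (.cons (.br (nat_lit 6) (nat_lit 1) (.cons (.br (nat_lit 13) (nat_lit 0) (.cons (.ev (nat_lit 1208925891953702501155073) (nat_lit 1)) .nil)) .nil)) (.cons (.br (nat_lit 4) (nat_lit 1) (.cons (.br (nat_lit 13) (nat_lit 0) (.cons (.zr (nat_lit 618970038089997165407698944) (nat_lit 158457538676714772685924598273) (nat_lit 5) (nat_lit 9)) .nil)) (.cons (.br (nat_lit 2) (nat_lit 0) (.cons (.ev (nat_lit 477228307755847331779889659908) (nat_lit 3)) .nil))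 .nil))) .nil))) (.cons (.br (nat_lit 2) (nat_lit 0) (.cons (.br (nat_lit 10) (nat_lit 1) (.cons (.ev (nat_lit 310693954159762465175437313) (nat_lit 1)) (.cons (.br (nat_lit 6) (nat_lit 1) (.cons (.ev (nat_lit 20837014023177747597099779949828) (nat_lit 3)) .nil)) .nil))) (.cons (.br (nat_lit 10) (nat_lit 1) (.cons (.br (nat_lit 13) (nat_lit 0) (.cons (.ev (nat_lit 158458747639571993957752700930) (nat_lit 2)) .nil)) (.cons (.br (nat_lit 7) (nat_lit 0) (.cons (.ev (nat_lit 621392593793081511625555970) (nat_lit 2)) .nil)) .nil))) (.cons (.br (nat_lit 6) (nat_lit 1) (.cons (.ev (nat_lit 79229371440156291291750072321) (nat_lit 1)) (.cons (.br (nat_lit 4) (nat_lit 1) (.cons (.ev (nat_lit 20996705889468578060343693215496) (nat_lit 4)) .nil)) .nil))) .nil)))) .nil)))),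
 (.br (nat_lit 8) (nat_lit 1) (.cons (.rf (nat_lit 3727) (nat_lit 493858305440582043680)) (.cons (.rf (nat_lit 3543) (nat_lit 493784068614497863712)) (.cons (.br (nat_lit 4) (nat_lit 1) (.cons (.ev (nat_lit 79228162532783140360803057921) (nat_lit 1)) (.cons (.br (nat_lit 1) (nat_lit 0) (.cons (.ev (nat_lit 79228167255149622130953486593) (nat_lit 1)) (.cons (.br (nat_lit 13) (nat_lit 0) (.cons (.ev (nat_lit 20679169386279745029256312719108) (nat_lit 3)) .nil)) .nil))) (.cons (.br (nat_lit 1) (nat_lit 0) (.cons (.br (nat_lit 10) (nat_lit 1) (.cons (.ev (nat_lit 79229376162450716571652325633) (nat_lit 1)) .nil)) (.cons (.br (nat_lit 6) (nat_lit 1) (.cons (.ev (nat_lit 477228307755847331779889659908) (nat_lit 3)) .nil)) .nil))) .nil)))) .nil)))),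
 (.br (nat_lit 9) (nat_lit 1) (.cons (.rf (nat_lit 3419) (nat_lit 493675700753833166880)) (.cons (.br (nat_lit 8) (nat_lit 1) (.cons (.rf (nat_lit 3726) (nat_lit 493858305440582043680)) (.cons (.br (nat_lit 8) (nat_lit 1) (.cons (.rf (nat_lit 795) (nat_lit 15069059359180832)) (.cons (.rf (nat_lit 3543) (nat_lit 493749165717385742368)) .nil))) (.cons (.br (nat_lit 8) (nat_lit 1) (.cons (.rf (nat_lit 3726) (nat_lit 493858305440582043680)) (.cons (.rf (nat_lit 3543) (nat_lit 493749165717385742368)) .nil))) .nil)))) (.cons (.br (nat_lit 8) (nat_lit 1) (.cons (.rf (nat_lit 3727) (nat_lit 493858305440582043680)) (.cons (.br (nat_lit 8) (nat_lit 1) (.cons (.rf (nat_lit 2725) (nat_lit 493786040038846629920)) (.cons (.rf (nat_lit 3543) (nat_lit 493784068614497863712)) (.cons (.rf (nat_lit 3544) (nat_lit 493784068614497863712)) .nil)))) (.cons (.rf (nat_lit 3728) (nat_lit 493858305440582043680)) (.cons (.br (nat_lit 8) (nat_lit 1) (.cons (.rf (nat_lit 3727) (nat_lit 493858305440582043680)) (.cons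 (.rf (nat_lit 3544) (nat_lit 493784068614497863712)) (.cons (.rf (nat_lit 3728) (nat_lit 493858305440582043680)) .nil)))) .nil))))) .nil)))),
 (.br (nat_lit 8) (nat_lit 1) (.cons (.rf (nat_lit 3419) (nat_lit 493604770158142031904)) (.cons (.br (nat_lit 6) (nat_lit 1) (.cons (.br (nat_lit 10) (nat_lit 1) (.cons (.ev (nat_lit 79538856468424381533696033025) (nat_lit 1)) (.cons (.br (nat_lit 2) (nat_lit 0) (.cons (.ev (nat_lit 620183686492268550198263810) (nat_lit 2)) .nil)) .nil))) (.cons (.ev (nat_lit 79537652246452447006890656001) (nat_lit 1)) .nil))) .nil))),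
 (.br (nat_lit 8) (nat_lit 1) (.cons (.rf (nat_lit 3419) (nat_lit 493604770158142031904)) (.cons (.br (nat_lit 13) (nat_lit 0) (.cons (.br (nat_lit 10) (nat_lit 1) (.cons (.br (nat_lit 2) (nat_lit 0) (.cons (.zr (nat_lit 618970038233549407841746944) (nat_lit 158457538676715056359907786753) (nat_lit 5) (nat_lit 9)) .nil)) (.cons (.ev (nat_lit 40644360486327468030100399915010) (nat_lit 2)) .nil))) (.cons (.br (nat_lit 2) (nat_lit 0) (.cons (.br (nat_lit 1) (nat_lit 0) (.cons (.ev (nat_lit 79228167236630823774659281666) (nat_lit 2)) .nil)) (.cons (.br (nat_lit 1) (nat_lit 0) (.cons (.ev (nat_lit 80156627043801574071557227010) (nat_lit 2)) .nil)) .nil))) (.cons (.ev (nat_lit 20282409608392483651990134456321) (nat_lit 1)) .nil)))) .nil))),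
 (.br (nat_lit 9) (nat_lit 1) (.cons (.rf (nat_lit 3725) (nat_lit 493858305440582043680)) (.cons (.rf (nat_lit 3729) (nat_lit 493858305440582043680)) (.cons (.br (nat_lit 8) (nat_lit 1) (.cons (.rf (nat_lit 3730) (nat_lit 493858305440582043680)) (.cons (.rf (nat_lit 3731) (nat_lit 493858305440582043680)) (.cons (.br (nat_lit 8) (nat_lit 1) (.cons (.rf (nat_lit 3730) (nat_lit 493858305440582043680)) (.cons (.rf (nat_lit 3731) (nat_lit 493858305440582043680)) .nil))) .nil)))) .nil)))),
 (.br (nat_lit 6) (nat_lit 1) (.cons (.ev (nat_lit 79537647524085965236773912833) (nat_lit 1)) (.cons (.br (nat_lit 2) (nat_lit 0) (.cons (.ev (nat_lit 72057598349672449) (nat_lit 1)) (.cons (.br (nat_lit 8) (nat_lit 1) (.cons (.ev (nat_lit 1208944338417396433813761) (nat_lit 1)) .nil)) .nil))) (.cons (.br (nat_lit 8) (nat_lit 1) (.cons (.br (nat_lit 13) (nat_lit 0) (.cons (.rf (nat_lit 3721) (nat_lit 458005178423107160096)) (.cons (.ev (nat_lit 20361947255916569616127363121153) (nat_lit 1)) .nil))) (.cons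 (.br (nat_lit 10) (nat_lit 1) (.cons (.ev (nat_lit 20361641397665760091596533007106) (nat_lit 2)) (.cons (.br (nat_lit 4) (nat_lit 1) (.cons (.ev (nat_lit 20838870904976551416205727172356) (nat_lit 3)) .nil)) .nil))) .nil))) .nil)))),
 (.br (nat_lit 8) (nat_lit 1) (.cons (.rf (nat_lit 3733) (nat_lit 493858305440582043680)) (.cons (.br (nat_lit 6) (nat_lit 1) (.cons (.br (nat_lit 13) (nat_lit 0) (.cons (.rf (nat_lit 3721) (nat_lit 457935134042368542752)) (.cons (.br (nat_lit 2) (nat_lit 0) (.cons (.ev (nat_lit 20520094110157788968352418824452) (nat_lit 3)) .nil)) .nil))) (.cons (.br (nat_lit 10) (nat_lit 1) (.cons (.ev (nat_lit 20361641397665760091596533007106) (nat_lit 2)) .nil)) .nil))) .nil))),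
 (.br (nat_lit 8) (nat_lit 1) (.cons (.br (nat_lit 4) (nat_lit 1) (.cons (.br (nat_lit 6) (nat_lit 1) (.cons (.ev (nat_lit 1208944338698875705491713) (nat_lit 1)) .nil)) (.cons (.br (nat_lit 6) (nat_lit 1) (.cons (.ev (nat_lit 159076518141306885023090278914) (nat_lit 2)) .nil)) .nil))) (.cons (.br (nat_lit 6) (nat_lit 1) (.cons (.ev (nat_lit 20282410812595937064125112254721) (nat_lit 1)) .nil)) .nil))),
 (.br (nat_lit 8) (nat_lit 1) (.cons (.rf (nat_lit 3735) (nat_lit 493858305440582043680)) (.cons (.br (nat_lit 6) (nat_lit 1) (.cons (.ev (nat_lit 20282410812595937064125112254721) (nat_lit 1)) (.cons (.br (nat_lit 2) (nat_lit 0) (.cons (.ev (nat_lit 79228162514336676666870399233) (nat_lit 1)) .nil)) .nil))) .nil))),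
 (.br (nat_lit 7) (nat_lit 0) (.cons (.br (nat_lit 8) (nat_lit 1) (.cons (.ev (nat_lit 79228162514336676666870399233) (nat_lit 1)) (.cons (.ev (nat_lit 20282409603651670706526051368961) (nat_lit 1)) .nil))) (.cons (.br (nat_lit 2) (nat_lit 0) (.cons (.br (nat_lit 13) (nat_lit 0) (.cons (.ev (nat_lit 20521332031233822566771052446980) (nat_lit 3)) .nil)) (.cons (.ev (nat_lit 79537652264970967199661424641) (nat_lit 1)) .nil))) .nil))),
 (.br (nat_lit 9) (nat_lit 1) (.cons (.rf (nat_lit 3419) (nat_lit 493675700753833166880)) (.cons (.br (nat_lit 8) (nat_lit 1) (.cons (.rf (nat_lit 3733) (nat_lit 493858305440582043680)) (.cons (.rf (nat_lit 3734) (nat_lit 493858305440582043680)) (.cons (.br (nat_lit 8) (nat_lit 1) (.cons (.rf (nat_lit 3733) (nat_lit 493858305440582043680)) (.cons (.rf (nat_lit 3734) (nat_lit 493858305440582043680)) .nil))) .nil)))) (.cons (.br (nat_lit 10) (nat_lit 1) (.cons (.br (nat_lit 8) (nat_lit 1) (.cons (.rf (nat_lit 3735) (nat_lit 493858305440582043680)) (.cons (.rf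 (nat_lit 3736) (nat_lit 493858305440582043680)) (.cons (.br (nat_lit 8) (nat_lit 1) (.cons (.rf (nat_lit 3735) (nat_lit 493858305440582043680)) (.cons (.rf (nat_lit 3736) (nat_lit 493858305440582043680)) .nil))) .nil)))) (.cons (.br (nat_lit 2) (nat_lit 0) (.cons (.rf (nat_lit 3737) (nat_lit 493858305440582043680)) (.cons (.br (nat_lit 2) (nat_lit 0) (.cons (.rf (nat_lit 3737) (nat_lit 493858305440582043680)) (.cons (.ev (nat_lit 79537647524085965236773912833) (nat_lit 1)) .nil))) (.cons (.br (nat_lit 2) (nat_lit 0) (.cons (.rf (nat_lit 3737) (nat_lit 493858305440582043680)) (.cons (.ev (nat_lit 79537647524085965236773912833) (nat_lit 1)) .nil))) .nil)))) (.cons (.kr (nat_lit 309485009821345068724781056) (nat_lit 20282409603651670423947251286016) (nat_lit 11) (nat_lit 0)) .nil)))) .nil)))),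
 (.br (nat_lit 13) (nat_lit 0) (.cons (.br (nat_lit 8) (nat_lit 1) (.cons (.rf (nat_lit 3721) (nat_lit 458005178423107159104)) (.cons (.rf (nat_lit 3679) (nat_lit 493781712365374507040)) (.cons (.br (nat_lit 1) (nat_lit 0) (.cons (.rf (nat_lit 3721) (nat_lit 458005178423107159104)) (.cons (.rf (nat_lit 3497) (nat_lit 457829470974939268160)) .nil))) .nil)))) (.cons (.br (nat_lit 6) (nat_lit 1) (.cons (.rf (nat_lit 3721) (nat_lit 457935134042368541760)) (.cons (.rf (nat_lit 3661) (nat_lit 457935134042368541760)) (.cons (.br (nat_lit 2) (nat_lit 0) (.cons (.rf (nat_lit 3577) (nat_lit 493857146555326367776)) (.cons (.br (nat_lit 1) (nat_lit 0) (.cons (.zr (nat_lit 238303457562435984393058255104) (nat_lit 1213666776956764917071873) (nat_lit 5) (nat_lit 10)) .nil)) .nil))) .nil)))) (.cons (.rf (nat_lit 3612) (nat_lit 457935134042368541760)) .nil)))),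
 (.br (nat_lit 13) (nat_lit 0) (.cons (.rf (nat_lit 3739) (nat_lit 493858305440582043680)) (.cons (.br (nat_lit 2) (nat_lit 0) (.cons (.br (nat_lit 10) (nat_lit 1) (.cons (.ev (nat_lit 20282720302309677866519107796993) (nat_lit 1)) (.cons (.br (nat_lit 1) (nat_lit 0) (.cons (.zr (nat_lit 238303457580882446996085932800) (nat_lit 1213648186941923766960129) (nat_lit 5) (nat_lit 10)) .nil)) .nil))) (.cons (.rf (nat_lit 3577) (nat_lit 493857146555326367776)) (.cons (.br (nat_lit 7) (nat_lit 0) (.cons (.br (nat_lit 8) (nat_lit 1) (.cons (.ev (nat_lit 79537647542604766908816359425) (nat_lit 1)) .nil)) (.cons (.br (nat_lit 1) (nat_lit 0) (.cons (.ev (nat_lit 20837632983752944991114638066436) (nat_lit 3)) .nil)) .nil))) .nil)))) (.cons (.br (nat_lit 2) (nat_lit 0) (.cons (.br (nat_lit 1) (nat_lit 0) (.cons (.br (nat_lit 7) (nat_lit 0) (.cons (.ev (nat_lit 309489750706911081094250753) (nat_lit 1)) .nil)) .nil)) (.cons (.rf (nat_lit 3679) (nat_lit 493786215958561523744)) .nil))) .nil)))),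
 (.br (nat_lit 13) (nat_lit 0) (.cons (.rf (nat_lit 3739) (nat_lit 493858305440582043680)) (.cons (.rf (nat_lit 3740) (nat_lit 493858305440582043680)) (.cons (.br (nat_lit 8) (nat_lit 1) (.cons (.br (nat_lit 2) (nat_lit 0) (.cons (.ev (nat_lit 20361637766165934762644618674433) (nat_lit 1)) (.cons (.ev (nat_lit 79537647524085965236773912833) (nat_lit 1)) .nil))) (.cons (.rf (nat_lit 3577) (nat_lit 493857146555326367776)) (.cons (.br (nat_lit 6) (nat_lit 1) (.cons (.br (nat_lit 2) (nat_lit 0) (.cons (.zr (nat_lit 2417851855402040496751360) (nat_lit 309489750635697916281356289) (nat_lit 5) (nat_lit 0)) .nil)) (.cons (.br (nat_lit 1) (nat_lit 0) (.cons (.zr (nat_lit 79228162514408453881131500032) (nat_lit 4740813508426921410561) (nat_lit 5) (nat_lit 0)) .nil)) .nil))) .nil)))) .nil))))]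

theorem c134 : chkAll C T R L134 (nat_lit 3721) = true := by decide +kernel

theorem l134 : (nat_lit 3721) + L134.length = (nat_lit 3742) := by decide +kernel

/-- part of the certificates -/
def L135 : List Prf := [(.br (nat_lit 2) (nat_lit 0) (.cons (.br (nat_lit 8) (nat_lit 1) (.cons (.rf (nat_lit 2725) (nat_lit 493786040038846629920)) (.cons (.rf (nat_lit 3577) (nat_lit 493856055839791613984)) .nil))) (.cons (.br (nat_lit 1) (nat_lit 0) (.cons (.br (nat_lit 8) (nat_lit 1) (.cons (.ev (nat_lit 79537647542604485429544681473) (nat_lit 1)) .nil)) .nil)) .nil))),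
 (.br (nat_lit 8) (nat_lit 1) (.cons (.ev (nat_lit 20282719088679938513089702396161) (nat_lit 1)) (.cons (.rf (nat_lit 3577) (nat_lit 493856055839791613984)) .nil))),
 (.br (nat_lit 8) (nat_lit 1) (.cons (.rf (nat_lit 2725) (nat_lit 493786040038846629920)) (.cons (.br (nat_lit 7) (nat_lit 0) (.cons (.ev (nat_lit 79537661728294792200754037506) (nat_lit 2)) (.cons (.ev (nat_lit 79537652264970967199661424641) (nat_lit 1)) .nil))) .nil))),
 (.br (nat_lit 4) (nat_lit 1) (.cons (.rf (nat_lit 3706) (nat_lit 493781814613519730720)) .nil)),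
 (.br (nat_lit 9) (nat_lit 1) (.cons (.rf (nat_lit 3419) (nat_lit 493675700753833166880)) (.cons (.br (nat_lit 13) (nat_lit 0) (.cons (.rf (nat_lit 3739) (nat_lit 493858305440582043680)) (.cons (.rf (nat_lit 3740) (nat_lit 493858305440582043680)) (.cons (.rf (nat_lit 3741) (nat_lit 493858305440582043680)) (.cons (.br (nat_lit 13) (nat_lit 0) (.cons (.rf (nat_lit 3612) (nat_lit 457935134042368541760)) (.cons (.rf (nat_lit 3740) (nat_lit 493858305440582043680)) (.cons (.rf (nat_lit 3741) (nat_lit 493858305440582043680)) .nil)))) .nil))))) (.cons (.br (nat_lit 13) (nat_lit 0) (.cons (.br (nat_lit 7) (nat_lit 0) (.cons (.rf (nat_lit 3742) (nat_lit 493858305440582043680)) (.cons (.rf (nat_lit 3743) (nat_lit 493858305440582043680)) (.cons (.br (nat_lit 7) (nat_lit 0) (.cons (.rf (nat_lit 3742) (nat_lit 493858305440582043680)) (.cons (.rf (nat_lit 3743) (nat_lit 493858305440582043680)) .nil))) .nil)))) (.cons (.br (nat_lit 8) (nat_lit 1) (.cons (.rf (nat_lit 3744) (nat_lit 493858305440582043680))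 (.cons (.br (nat_lit 8) (nat_lit 1) (.cons (.rf (nat_lit 2725) (nat_lit 493786040038846629920)) (.cons (.rf (nat_lit 3577) (nat_lit 493856055839791613984)) .nil))) (.cons (.br (nat_lit 8) (nat_lit 1) (.cons (.rf (nat_lit 3744) (nat_lit 493858305440582043680)) (.cons (.rf (nat_lit 3577) (nat_lit 493856055839791613984)) .nil))) .nil)))) (.cons (.br (nat_lit 6) (nat_lit 1) (.cons (.br (nat_lit 10) (nat_lit 1) (.cons (.rf (nat_lit 3745) (nat_lit 493858305440582043680)) (.cons (.br (nat_lit 7) (nat_lit 0) (.cons (.rf (nat_lit 3710) (nat_lit 493786318215288293408)) (.cons (.ev (nat_lit 20282720297605830186412409880833) (nat_lit 1)) .nil))) .nil))) (.cons (.br (nat_lit 1) (nat_lit 0) (.cons (.br (nat_lit 10) (nat_lit 1) (.cons (.br (nat_lit 7) (nat_lit 0) (.cons (.ev (nat_lit 1111687085221377496631552182792) (nat_lit 4)) .nil)) .nil)) (.cons (.ev (nat_lit 79537652246452447006890656001) (nat_lit 1)) (.cons (.ev (nat_lit 20361637770888301525885417160961) (nat_lit 1)) .nil)))) (.cons (.br (nat_lit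 2) (nat_lit 0) (.cons (.ev (nat_lit 20282409603651670706526051368961) (nat_lit 1)) (.cons (.rf (nat_lit 3690) (nat_lit 493786318215288293408)) (.cons (.rf (nat_lit 3706) (nat_lit 493779562815853529120)) .nil)))) .nil)))) (.cons (.kr (nat_lit 309485009821345068724781056) (nat_lit 20282409603651670423947251286016) (nat_lit 11) (nat_lit 0)) .nil))))) .nil)))),
 (.br (nat_lit 8) (nat_lit 1) (.cons (.rf (nat_lit 3419) (nat_lit 493604770158142031904)) (.cons (.br (nat_lit 10) (nat_lit 1) (.cons (.ev (nat_lit 79538861172343838858949951745) (nat_lit 1)) (.cons (.ev (nat_lit 79229371458602754994272796673) (nat_lit 1)) .nil))) .nil))),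
 (.br (nat_lit 9) (nat_lit 1) (.cons (.ev (nat_lit 309485028268092453904450306) (nat_lit 2)) (.cons (.ev (nat_lit 1208944266358702884323329) (nat_lit 1)) (.cons (.ev (nat_lit 79229371440156009821068328961) (nat_lit 1)) .nil)))),
 (.br (nat_lit 8) (nat_lit 1) (.cons (.rf (nat_lit 3419) (nat_lit 493604770158142031904)) (.cons (.br (nat_lit 4) (nat_lit 1) (.cons (.br (nat_lit 2) (nat_lit 0) (.cons (.ev (nat_lit 80156627043801574071557227010) (nat_lit 2)) .nil)) (.cons (.rf (nat_lit 3748) (nat_lit 15433072009550071840)) .nil))) .nil))),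
 (.br (nat_lit 9) (nat_lit 1) (.cons (.rf (nat_lit 3738) (nat_lit 493858305440582043680)) (.cons (.rf (nat_lit 3746) (nat_lit 493858305440582043680)) (.cons (.br (nat_lit 13) (nat_lit 0) (.cons (.br (nat_lit 8) (nat_lit 1) (.cons (.br (nat_lit 8) (nat_lit 1) (.cons (.rf (nat_lit 3419) (nat_lit 493604770158142031904)) (.cons (.ev (nat_lit 20282719088679938513089702396161) (nat_lit 1)) .nil))) (.cons (.rf (nat_lit 3747) (nat_lit 493858305440582043680)) (.cons (.br (nat_lit 8) (nat_lit 1) (.cons (.ev (nat_lit 20282719088679938513089702396161) (nat_lit 1)) (.cons (.rf (nat_lit 3747) (nat_lit 493858305440582043680)) .nil))) .nil)))) (.cons (.br (nat_lit 2) (nat_lit 0) (.cons (.rf (nat_lit 3748) (nat_lit 15433072009550071840)) (.cons (.rf (nat_lit 3749) (nat_lit 493858305440582043680)) (.cons (.br (nat_lit 2) (nat_lit 0) (.cons (.ev (nat_lit 309489732187827938370060289) (nat_lit 1)) (.cons (.rf (nat_lit 3749) (nat_lit 493858305440582043680)) .nil))) .nil)))) (.cons (.br (nat_lit 4) (nat_lit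 1) (.cons (.br (nat_lit 10) (nat_lit 1) (.cons (.br (nat_lit 6) (nat_lit 1) (.cons (.br (nat_lit 8) (nat_lit 1) (.cons (.ev (nat_lit 20679793220373902676239034287876) (nat_lit 3)) .nil)) (.cons (.br (nat_lit 8) (nat_lit 1) (.cons (.ev (nat_lit 79847141978640837895214137602) (nat_lit 2)) .nil)) .nil))) (.cons (.br (nat_lit 8) (nat_lit 1) (.cons (.br (nat_lit 2) (nat_lit 0) (.cons (.ev (nat_lit 20520717906436122396744749220100) (nat_lit 3)) .nil)) .nil)) .nil))) (.cons (.br (nat_lit 1) (nat_lit 0) (.cons (.br (nat_lit 2) (nat_lit 0) (.cons (.ev (nat_lit 20282409608374036906816896565249) (nat_lit 1)) (.cons (.ev (nat_lit 309489732187827938370060289) (nat_lit 1)) .nil))) (.cons (.ev (nat_lit 20362566225917765282928084910850) (nat_lit 2)) (.cons (.ev (nat_lit 79228167236630823774659281666) (nat_lit 2)) .nil)))) (.cons (.br (nat_lit 6) (nat_lit 1) (.cons (.br (nat_lit 10) (nat_lit 1) (.cons (.br (nat_lit 2) (nat_lit 0) (.cons (.ev (nat_lit 80160249098965990484484424194) (nat_lit 2)) .nil))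 .nil)) (.cons (.ev (nat_lit 20282409603651670706526051368961) (nat_lit 1)) .nil))) .nil)))) (.cons (.kr (nat_lit 309485009821345068724781056) (nat_lit 20282409603651670423947251286016) (nat_lit 11) (nat_lit 0)) .nil))))) .nil)))),
 (.br (nat_lit 11) (nat_lit 1) (.cons (.rf (nat_lit 3661) (nat_lit 493858305440582043680)) (.cons (.rf (nat_lit 3721) (nat_lit 493858305440582043680)) (.cons (.br (nat_lit 9) (nat_lit 1) (.cons (.rf (nat_lit 3725) (nat_lit 493858305440582043680)) (.cons (.rf (nat_lit 3729) (nat_lit 493858305440582043680)) (.cons (.rf (nat_lit 3732) (nat_lit 493858305440582043680)) (.cons (.br (nat_lit 9) (nat_lit 1) (.cons (.rf (nat_lit 3725) (nat_lit 493858305440582043680)) (.cons (.rf (nat_lit 3729) (nat_lit 493858305440582043680)) (.cons (.rf (nat_lit 3732) (nat_lit 493858305440582043680)) .nil)))) .nil))))) (.cons (.br (nat_lit 9) (nat_lit 1) (.cons (.rf (nat_lit 3738) (nat_lit 493858305440582043680)) (.cons (.rf (nat_lit 3746) (nat_lit 493858305440582043680)) (.cons (.rf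 (nat_lit 3750) (nat_lit 493858305440582043680)) (.cons (.br (nat_lit 9) (nat_lit 1) (.cons (.rf (nat_lit 3738) (nat_lit 493858305440582043680)) (.cons (.rf (nat_lit 3746) (nat_lit 493858305440582043680)) (.cons (.rf (nat_lit 3750) (nat_lit 493858305440582043680)) .nil)))) .nil))))) .nil))))),
 (.br (nat_lit 8) (nat_lit 1) (.cons (.br (nat_lit 4) (nat_lit 1) (.cons (.br (nat_lit 10) (nat_lit 1) (.cons (.br (nat_lit 6) (nat_lit 1) (.cons (.ev (nat_lit 20837625711382205926224234479876) (nat_lit 3)) .nil)) .nil)) (.cons (.ev (nat_lit 309485028340146740784005121) (nat_lit 1)) .nil))) (.cons (.br (nat_lit 13) (nat_lit 0) (.cons (.ev (nat_lit 20282719088679938514189214023681) (nat_lit 1)) (.cons (.br (nat_lit 7) (nat_lit 0) (.cons (.br (nat_lit 10) (nat_lit 1) (.cons (.ev (nat_lit 20679788384596836680702269785348) (nat_lit 3)) .nil)) (.cons (.br (nat_lit 4) (nat_lit 1) (.cons (.ev (nat_lit 20680407326355779221722444792580) (nat_lit 3)) .nil)) .nil))) (.cons (.br (nat_lit 6) (nat_lit 1) (.cons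 (.ev (nat_lit 20361637770888301526984928788481) (nat_lit 1)) (.cons (.br (nat_lit 4) (nat_lit 1) (.cons (.ev (nat_lit 20838863670237169135765722170628) (nat_lit 3)) .nil)) .nil))) .nil)))) .nil))),
 (.br (nat_lit 8) (nat_lit 1) (.cons (.rf (nat_lit 3752) (nat_lit 493858305440582043680)) (.cons (.br (nat_lit 10) (nat_lit 1) (.cons (.br (nat_lit 2) (nat_lit 0) (.cons (.ev (nat_lit 309485028340146740784005121) (nat_lit 1)) (.cons (.ev (nat_lit 79230589829083561438421713666) (nat_lit 2)) .nil))) (.cons (.ev (nat_lit 20282409608392483650890622828801) (nat_lit 1)) .nil))) .nil))),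
 (.br (nat_lit 8) (nat_lit 1) (.cons (.rf (nat_lit 3721) (nat_lit 493779557318295553088)) (.cons (.br (nat_lit 6) (nat_lit 1) (.cons (.br (nat_lit 4) (nat_lit 1) (.cons (.ev (nat_lit 79228162532711082771076940033) (nat_lit 1)) (.cons (.rf (nat_lit 3721) (nat_lit 457935134042368542752)) .nil))) (.cons (.br (nat_lit 10) (nat_lit 1) (.cons (.ev (nat_lit 1208944338417396433813761) (nat_lit 1)) (.cons (.br (nat_lit 4) (nat_lit 1) (.cons (.zr (nat_lit 618970019858862919597096960) (nat_lit 1227833732571660736790529) (nat_lit 5) (nat_lit 0)) .nil)) .nil))) (.cons (.kr (nat_lit 20361637766165934761540795236608) (nat_lit 18518801667764256768) (nat_lit 1) (nat_lit 0)) .nil)))) .nil))),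
 (.br (nat_lit 8) (nat_lit 1) (.cons (.rf (nat_lit 3721) (nat_lit 493779557318295553088)) (.cons (.br (nat_lit 10) (nat_lit 1) (.cons (.br (nat_lit 2) (nat_lit 0) (.cons (.br (nat_lit 6) (nat_lit 1) (.cons (.ev (nat_lit 20521958254845418863558608225028) (nat_lit 3)) .nil)) (.cons (.ev (nat_lit 79537652246452448106402283521) (nat_lit 1)) .nil))) (.cons (.ev (nat_lit 20282409608392483650890622828801) (nat_lit 1)) .nil))) .nil))),
 (.br (nat_lit 13) (nat_lit 0) (.cons (.br (nat_lit 7) (nat_lit 0) (.cons (.br (nat_lit 5) (nat_lit 0) (.cons (.ev (nat_lit 20441484912867085635656173486850) (nat_lit 2)) (.cons (.br (nat_lit 2) (nat_lit 0) (.cons (.ev (nat_lit 20680412180874737756924746859268) (nat_lit 3)) .nil)) .nil))) (.cons (.br (nat_lit 5) (nat_lit 0) (.cons (.br (nat_lit 8) (nat_lit 1) (.cons (.ev (nat_lit 79230594570113523027233931778) (nat_lit 2)) .nil)) .nil)) .nil))) (.cons (.br (nat_lit 7) (nat_lit 0) (.cons (.br (nat_lit 10) (nat_lit 1) (.cons (.ev (nat_lit 79229371440156291291750072321)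 (nat_lit 1)) (.cons (.br (nat_lit 2) (nat_lit 0) (.cons (.ev (nat_lit 20363494676224936016555224008452) (nat_lit 3)) .nil)) .nil))) (.cons (.ev (nat_lit 309485028340146740784005121) (nat_lit 1)) (.cons (.br (nat_lit 8) (nat_lit 1) (.cons (.br (nat_lit 6) (nat_lit 1) (.cons (.zr (nat_lit 620178945462867716577886208) (nat_lit 4740957342135742365697) (nat_lit 5) (nat_lit 8)) .nil)) (.cons (.ev (nat_lit 20282409603670189225619310510081) (nat_lit 1)) .nil))) .nil)))) (.cons (.br (nat_lit 5) (nat_lit 0) (.cons (.br (nat_lit 2) (nat_lit 0) (.cons (.br (nat_lit 7) (nat_lit 0) (.cons (.ev (nat_lit 20679169386242996221428699169540) (nat_lit 3)) .nil)) .nil)) (.cons (.br (nat_lit 2) (nat_lit 0) (.cons (.br (nat_lit 7) (nat_lit 0) (.cons (.ev (nat_lit 158768232667696809034211459330) (nat_lit 2)) .nil)) (.cons (.rf (nat_lit 3721) (nat_lit 493779557318295553088)) .nil))) .nil))) .nil)))),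
 (.br (nat_lit 2) (nat_lit 0) (.cons (.rf (nat_lit 3756) (nat_lit 493858305440582043680)) (.cons (.br (nat_lit 8) (nat_lit 1) (.cons (.rf (nat_lit 3721) (nat_lit 493779557318295553088)) (.cons (.br (nat_lit 4) (nat_lit 1) (.cons (.br (nat_lit 13) (nat_lit 0) (.cons (.ev (nat_lit 79538856468352322844424732673) (nat_lit 1)) .nil)) (.cons (.ev (nat_lit 309485028340146740784005121) (nat_lit 1)) .nil))) (.cons (.br (nat_lit 7) (nat_lit 0) (.cons (.br (nat_lit 10) (nat_lit 1) (.cons (.ev (nat_lit 79538856468352322844424732673) (nat_lit 1)) .nil)) (.cons (.ev (nat_lit 79537647542604484330033053953) (nat_lit 1)) .nil))) .nil)))) (.cons (.br (nat_lit 7) (nat_lit 0) (.cons (.kr (nat_lit 79228162514264337593543950592) (nat_lit 4295032832) (nat_lit 1) (nat_lit 0)) (.cons (.br (nat_lit 13) (nat_lit 0) (.cons (.ev (nat_lit 20361947255898194928552474836993) (nat_lit 1)) (.cons (.ev (nat_lit 20282410812595937064125112254721) (nat_lit 1)) .nil))) .nil))) .nil)))),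
 (.br (nat_lit 2) (nat_lit 0) (.cons (.rf (nat_lit 3756) (nat_lit 493858305440582043680)) (.cons (.rf (nat_lit 3757) (nat_lit 493858305440582043680)) (.cons (.br (nat_lit 8) (nat_lit 1) (.cons (.rf (nat_lit 3721) (nat_lit 493779557318295553088)) (.cons (.br (nat_lit 13) (nat_lit 0) (.cons (.ev (nat_lit 309485028340146740784005121) (nat_lit 1)) (.cons (.zr (nat_lit 160004959003455015159920394240) (nat_lit 18944950560362762076418) (nat_lit 10) (nat_lit 10)) .nil))) (.cons (.ev (nat_lit 20282719088661491769015976132609) (nat_lit 1)) .nil)))) .nil)))),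
 (.br (nat_lit 9) (nat_lit 1) (.cons (.rf (nat_lit 3419) (nat_lit 493675700753833166880)) (.cons (.br (nat_lit 8) (nat_lit 1) (.cons (.rf (nat_lit 3752) (nat_lit 493858305440582043680)) (.cons (.rf (nat_lit 3753) (nat_lit 493858305440582043680)) (.cons (.br (nat_lit 8) (nat_lit 1) (.cons (.rf (nat_lit 3752) (nat_lit 493858305440582043680)) (.cons (.rf (nat_lit 3753) (nat_lit 493858305440582043680)) .nil))) .nil)))) (.cons (.br (nat_lit 8) (nat_lit 1) (.cons (.rf (nat_lit 3754) (nat_lit 493858305440582043680)) (.cons (.rf (nat_lit 3755) (nat_lit 493858305440582043680)) (.cons (.br (nat_lit 8) (nat_lit 1) (.cons (.rf (nat_lit 3754) (nat_lit 493858305440582043680)) (.cons (.rf (nat_lit 3755) (nat_lit 493858305440582043680)) .nil))) .nil)))) (.cons (.br (nat_lit 2) (nat_lit 0) (.cons (.rf (nat_lit 3756) (nat_lit 493858305440582043680)) (.cons (.rf (nat_lit 3757) (nat_lit 493858305440582043680)) (.cons (.rf (nat_lit 3758) (nat_lit 493858305440582043680)) (.cons (.br (nat_lit 2) (nat_lit 0)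 (.cons (.rf (nat_lit 3756) (nat_lit 493858305440582043680)) (.cons (.rf (nat_lit 3757) (nat_lit 493858305440582043680)) (.cons (.rf (nat_lit 3758) (nat_lit 493858305440582043680)) .nil)))) .nil))))) .nil))))),
 (.br (nat_lit 13) (nat_lit 0) (.cons (.br (nat_lit 2) (nat_lit 0) (.cons (.br (nat_lit 8) (nat_lit 1) (.cons (.rf (nat_lit 3419) (nat_lit 493604770158142031904)) (.cons (.ev (nat_lit 309485028340146740784005121) (nat_lit 1)) .nil))) (.cons (.ev (nat_lit 20361638975091754658748770025473) (nat_lit 1)) .nil))) (.cons (.br (nat_lit 8) (nat_lit 1) (.cons (.br (nat_lit 7) (nat_lit 0) (.cons (.br (nat_lit 2) (nat_lit 0) (.cons (.ev (nat_lit 79229371440156291291750072321) (nat_lit 1)) .nil)) (.cons (.br (nat_lit 6) (nat_lit 1) (.cons (.ev (nat_lit 79538856468352323943936360705) (nat_lit 1)) .nil)) .nil))) (.cons (.ev (nat_lit 20282719088679938514189214023681) (nat_lit 1)) (.cons (.br (nat_lit 10) (nat_lit 1) (.cons (.br (nat_lit 2) (nat_lit 0) (.cons (.ev (nat_lit 20837630547011407489211492925700)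 (nat_lit 3)) .nil)) (.cons (.ev (nat_lit 20361638979832639661811169296385) (nat_lit 1)) .nil))) .nil)))) (.cons (.br (nat_lit 1) (nat_lit 0) (.cons (.kr (nat_lit 1208925819614629191483392) (nat_lit 20282409603651670705422227996672) (nat_lit 3) (nat_lit 0)) (.cons (.br (nat_lit 8) (nat_lit 1) (.cons (.rf (nat_lit 3419) (nat_lit 493604770158142031904)) (.cons (.br (nat_lit 2) (nat_lit 0) (.cons (.ev (nat_lit 79538856468352323943936360705) (nat_lit 1)) .nil)) .nil))) .nil))) .nil)))),
 (.br (nat_lit 13) (nat_lit 0) (.cons (.rf (nat_lit 3760) (nat_lit 493858305440582043680)) (.cons (.br (nat_lit 4) (nat_lit 1) (.cons (.br (nat_lit 7) (nat_lit 0) (.cons (.ev (nat_lit 20282719093402377335028362248193) (nat_lit 1)) (.cons (.br (nat_lit 2) (nat_lit 0) (.cons (.ev (nat_lit 20520713089622598095684736713988) (nat_lit 3)) .nil)) .nil))) (.cons (.kr (nat_lit 20282409603651670423951546253312) (nat_lit 4722366764344621924352) (nat_lit 4) (nat_lit 0)) (.cons (.br (nat_lit 1) (nat_lit 0) (.cons (.ev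 (nat_lit 20361947251175756106613814984961) (nat_lit 1)) (.cons (.br (nat_lit 8) (nat_lit 1) (.cons (.ev (nat_lit 20838863660866367254903686366468) (nat_lit 3)) .nil)) .nil))) .nil)))) (.cons (.br (nat_lit 1) (nat_lit 0) (.cons (.br (nat_lit 2) (nat_lit 0) (.cons (.br (nat_lit 8) (nat_lit 1) (.cons (.ev (nat_lit 79228167255149904709736792065) (nat_lit 1)) .nil)) .nil)) (.cons (.br (nat_lit 8) (nat_lit 1) (.cons (.rf (nat_lit 3419) (nat_lit 493604770158142031904)) (.cons (.rf (nat_lit 3612) (nat_lit 457864203446677407776)) .nil))) .nil))) .nil)))),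
 (.br (nat_lit 7) (nat_lit 0) (.cons (.kr (nat_lit 20282410812577490038576442834944) (nat_lit 4759332028611102244864) (nat_lit 2) (nat_lit 0)) (.cons (.ev (nat_lit 20282720297605830466792169930753) (nat_lit 1)) .nil)))]

theorem c135 : chkAll C T R L135 (nat_lit 3742) = true := by decide +kernel

theorem l135 : (nat_lit 3742) + L135.length = (nat_lit 3763) := by decide +kernel

/-- part of the certificates -/
def L136 : List Prf := [(.br (nat_lit 13) (nat_lit 0) (.cons (.rf (nat_lit 3760) (nat_lit 493858305440582043680)) (.cons (.rf (nat_lit 3761) (nat_lit 493858305440582043680)) (.cons (.br (nat_lit 1) (nat_lit 0) (.cons (.br (nat_lit 2) (nat_lit 0) (.cons (.br (nat_lit 8) (nat_lit 1) (.cons (.ev (nat_lit 20837006750696614611466697638660) (nat_lit 3)) .nil)) (.cons (.ev (nat_lit 20282719088661491769015976132609) (nat_lit 1)) .nil))) (.cons (.ev (nat_lit 20361637770888301526984928788481) (nat_lit 1)) (.cons (.br (nat_lit 6) (nat_lit 1) (.cons (.rf (nat_lit 3762) (nat_lit 493858305440582043680))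 (.cons (.br (nat_lit 4) (nat_lit 1) (.cons (.zr (nat_lit 158456325028600734980149150208) (nat_lit 309485028268370626017755137) (nat_lit 5) (nat_lit 0)) .nil)) .nil))) .nil)))) .nil)))),
 (.br (nat_lit 13) (nat_lit 0) (.cons (.br (nat_lit 8) (nat_lit 1) (.cons (.rf (nat_lit 3721) (nat_lit 458005178423107159104)) (.cons (.rf (nat_lit 3661) (nat_lit 458005178423107159104)) (.cons (.br (nat_lit 8) (nat_lit 1) (.cons (.rf (nat_lit 3721) (nat_lit 493779557318295554080)) (.cons (.ev (nat_lit 40565128692368574484990352621570) (nat_lit 2)) .nil))) .nil)))) (.cons (.br (nat_lit 6) (nat_lit 1) (.cons (.rf (nat_lit 3721) (nat_lit 457935134042368541760)) (.cons (.rf (nat_lit 3661) (nat_lit 457935134042368541760)) (.cons (.br (nat_lit 2) (nat_lit 0) (.cons (.br (nat_lit 1) (nat_lit 0) (.cons (.zr (nat_lit 2427314963055358953652224) (nat_lit 158765810038350301735084490753) (nat_lit 5) (nat_lit 11)) .nil)) (.cons (.br (nat_lit 8) (nat_lit 1) (.cons (.ev (nat_lit 81400602267740571413768046340) (nat_lit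 3)) .nil)) .nil))) .nil)))) (.cons (.rf (nat_lit 3612) (nat_lit 457935134042368541760)) .nil)))),
 (.br (nat_lit 8) (nat_lit 1) (.cons (.rf (nat_lit 3721) (nat_lit 493779557318295554080)) (.cons (.rf (nat_lit 3661) (nat_lit 493779557318295553088)) (.cons (.kr (nat_lit 18446744073709551616) (nat_lit 20282409603651670423947251286016) (nat_lit 8) (nat_lit 0)) .nil)))),
 (.br (nat_lit 13) (nat_lit 0) (.cons (.rf (nat_lit 3764) (nat_lit 493858305440582043680)) (.cons (.br (nat_lit 5) (nat_lit 0) (.cons (.br (nat_lit 8) (nat_lit 1) (.cons (.ev (nat_lit 20282719088679938794568974074113) (nat_lit 1)) (.cons (.ev (nat_lit 40565128692368574484990352621570) (nat_lit 2)) .nil))) (.cons (.br (nat_lit 1) (nat_lit 0) (.cons (.rf (nat_lit 3505) (nat_lit 457829332431112799296)) (.cons (.ev (nat_lit 20361948460101648061407237767425) (nat_lit 1)) .nil))) (.cons (.br (nat_lit 1) (nat_lit 0) (.cons (.br (nat_lit 8) (nat_lit 1) (.cons (.ev (nat_lit 20520720314806421709244634432260) (nat_lit 3)) .nil)) (.cons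 (.br (nat_lit 4) (nat_lit 1) (.cons (.zr (nat_lit 9481842629967358197760) (nat_lit 1239148965105276383362285569) (nat_lit 5) (nat_lit 0)) .nil)) .nil))) .nil)))) (.cons (.br (nat_lit 5) (nat_lit 0) (.cons (.br (nat_lit 2) (nat_lit 0) (.cons (.br (nat_lit 1) (nat_lit 0) (.cons (.zr (nat_lit 37109664228067770368) (nat_lit 310698658007724046833156097) (nat_lit 5) (nat_lit 0)) .nil)) .nil)) (.cons (.rf (nat_lit 3765) (nat_lit 493858305440582043680)) .nil))) .nil)))),
 (.br (nat_lit 13) (nat_lit 0) (.cons (.rf (nat_lit 3764) (nat_lit 493858305440582043680)) (.cons (.rf (nat_lit 3766) (nat_lit 493858305440582043680)) (.cons (.br (nat_lit 5) (nat_lit 0) (.cons (.ev (nat_lit 20361948464823942205207868342273) (nat_lit 1)) (.cons (.br (nat_lit 8) (nat_lit 1) (.cons (.br (nat_lit 4) (nat_lit 1) (.cons (.ev (nat_lit 81400602267740571413768046340) (nat_lit 3)) .nil)) (.cons (.ev (nat_lit 20282719088661491769015976132609) (nat_lit 1)) .nil))) (.cons (.br (nat_lit 4) (nat_lit 1) (.cons (.rf (nat_lit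 3505) (nat_lit 457824828835780396096)) (.cons (.ev (nat_lit 20282409603670189225619310510081) (nat_lit 1)) .nil))) .nil)))) .nil)))),
 (.br (nat_lit 1) (nat_lit 0) (.cons (.br (nat_lit 8) (nat_lit 1) (.cons (.ev (nat_lit 309489750634572012096323841) (nat_lit 1)) .nil)) .nil)),
 (.br (nat_lit 7) (nat_lit 0) (.cons (.kr (nat_lit 20361637766166006819134833164544) (nat_lit 2417851639230357861105664) (nat_lit 1) (nat_lit 0)) .nil)),
 (.br (nat_lit 9) (nat_lit 1) (.cons (.rf (nat_lit 3419) (nat_lit 493675700753833166880)) (.cons (.br (nat_lit 13) (nat_lit 0) (.cons (.rf (nat_lit 3760) (nat_lit 493858305440582043680)) (.cons (.rf (nat_lit 3761) (nat_lit 493858305440582043680)) (.cons (.rf (nat_lit 3763) (nat_lit 493858305440582043680)) (.cons (.br (nat_lit 13) (nat_lit 0) (.cons (.rf (nat_lit 3760) (nat_lit 493858305440582043680)) (.cons (.rf (nat_lit 3761) (nat_lit 493858305440582043680)) (.cons (.rf (nat_lit 3763) (nat_lit 493858305440582043680)) .nil)))) .nil))))) (.cons (.br (nat_lit 13)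 (nat_lit 0) (.cons (.rf (nat_lit 3764) (nat_lit 493858305440582043680)) (.cons (.rf (nat_lit 3766) (nat_lit 493858305440582043680)) (.cons (.rf (nat_lit 3767) (nat_lit 493858305440582043680)) (.cons (.br (nat_lit 13) (nat_lit 0) (.cons (.rf (nat_lit 3612) (nat_lit 457935134042368541760)) (.cons (.rf (nat_lit 3766) (nat_lit 493858305440582043680)) (.cons (.rf (nat_lit 3767) (nat_lit 493858305440582043680)) .nil)))) .nil))))) (.cons (.br (nat_lit 13) (nat_lit 0) (.cons (.br (nat_lit 5) (nat_lit 0) (.cons (.br (nat_lit 7) (nat_lit 0) (.cons (.br (nat_lit 2) (nat_lit 0) (.cons (.ev (nat_lit 309485028340146740784005121) (nat_lit 1)) (.cons (.br (nat_lit 1) (nat_lit 0) (.cons (.ev (nat_lit 20680414589281644027032185013508) (nat_lit 3)) .nil)) .nil))) (.cons (.rf (nat_lit 3768) (nat_lit 493858305440582043680)) .nil))) (.cons (.br (nat_lit 8) (nat_lit 1) (.cons (.ev (nat_lit 20282719088679938513089702396161) (nat_lit 1)) (.cons (.rf (nat_lit 3661) (nat_lit 493779557318295553088)) (.cons (.ev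 (nat_lit 20282719093402377053557680504833) (nat_lit 1)) .nil)))) (.cons (.br (nat_lit 7) (nat_lit 0) (.cons (.ev (nat_lit 20361638979814193198108646572033) (nat_lit 1)) (.cons (.br (nat_lit 2) (nat_lit 0) (.cons (.br (nat_lit 8) (nat_lit 1) (.cons (.ev (nat_lit 20520715479139748510698259678980) (nat_lit 3)) .nil)) (.cons (.ev (nat_lit 309485028340146740784005121) (nat_lit 1)) .nil))) .nil))) .nil)))) (.cons (.br (nat_lit 5) (nat_lit 0) (.cons (.br (nat_lit 2) (nat_lit 0) (.cons (.br (nat_lit 8) (nat_lit 1) (.cons (.ev (nat_lit 309489750634572012096323841) (nat_lit 1)) (.cons (.br (nat_lit 10) (nat_lit 1) (.cons (.ev (nat_lit 79229371458602753894761169153) (nat_lit 1)) .nil)) .nil))) (.cons (.br (nat_lit 7) (nat_lit 0) (.cons (.br (nat_lit 8) (nat_lit 1) (.cons (.ev (nat_lit 79229371458602753894761169153) (nat_lit 1)) .nil)) .nil)) .nil))) (.cons (.br (nat_lit 8) (nat_lit 1) (.cons (.rf (nat_lit 3721) (nat_lit 493779557318295554080)) (.cons (.rf (nat_lit 3661) (nat_lit 493779557318295553088))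 (.cons (.br (nat_lit 10) (nat_lit 1) (.cons (.ev (nat_lit 20361948460101648061407237767425) (nat_lit 1)) (.cons (.br (nat_lit 4) (nat_lit 1) (.cons (.ev (nat_lit 20837011576991910596514842608900) (nat_lit 3)) .nil)) .nil))) .nil)))) (.cons (.br (nat_lit 1) (nat_lit 0) (.cons (.ev (nat_lit 20361638975091754657649258397953) (nat_lit 1)) (.cons (.br (nat_lit 2) (nat_lit 0) (.cons (.ev (nat_lit 20283032209893504927014395707650) (nat_lit 2)) (.cons (.ev (nat_lit 309489750634572012096323841) (nat_lit 1)) .nil))) .nil))) .nil)))) (.cons (.br (nat_lit 5) (nat_lit 0) (.cons (.br (nat_lit 8) (nat_lit 1) (.cons (.br (nat_lit 2) (nat_lit 0) (.cons (.rf (nat_lit 3769) (nat_lit 493858305440582043680)) (.cons (.br (nat_lit 7) (nat_lit 0) (.cons (.ev (nat_lit 79229371440156291291750072321) (nat_lit 1)) .nil)) .nil))) (.cons (.ev (nat_lit 20282719088679938514189214023681) (nat_lit 1)) (.cons (.br (nat_lit 2) (nat_lit 0) (.cons (.ev (nat_lit 4722438823038171545601) (nat_lit 1)) (.cons (.ev (nat_lit 20361638979832639661811169296385)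 (nat_lit 1)) .nil))) .nil)))) (.cons (.br (nat_lit 7) (nat_lit 0) (.cons (.br (nat_lit 10) (nat_lit 1) (.cons (.br (nat_lit 8) (nat_lit 1) (.cons (.ev (nat_lit 20838863660866367254903686366468) (nat_lit 3)) .nil)) (.cons (.br (nat_lit 1) (nat_lit 0) (.cons (.ev (nat_lit 20679171813539080183859787530500) (nat_lit 3)) .nil)) .nil))) (.cons (.br (nat_lit 2) (nat_lit 0) (.cons (.ev (nat_lit 309485028340146740784005121) (nat_lit 1)) (.cons (.ev (nat_lit 40644358077975758168383559958530) (nat_lit 2)) .nil))) (.cons (.br (nat_lit 8) (nat_lit 1) (.cons (.br (nat_lit 2) (nat_lit 0) (.cons (.zr (nat_lit 2417851639232556884492288) (nat_lit 309489750634853491368001537) (nat_lit 5) (nat_lit 0)) .nil)) (.cons (.ev (nat_lit 20361948464842388948182049554433) (nat_lit 1)) .nil))) .nil)))) (.cons (.ev (nat_lit 309489750634573111607951361) (nat_lit 1)) (.cons (.br (nat_lit 8) (nat_lit 1) (.cons (.br (nat_lit 7) (nat_lit 0) (.cons (.br (nat_lit 2) (nat_lit 0) (.cons (.ev (nat_lit 79228167236703160636010397953)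 (nat_lit 1)) .nil)) (.cons (.zr (nat_lit 61084913298497948400909973193472) (nat_lit 311912324641128565021081601) (nat_lit 5) (nat_lit 0)) .nil))) (.cons (.br (nat_lit 7) (nat_lit 0) (.cons (.ev (nat_lit 20361638979832639661811169296385) (nat_lit 1)) (.cons (.ev (nat_lit 309485009893685237251112961) (nat_lit 1)) .nil))) (.cons (.ev (nat_lit 20282409608392483651990134456321) (nat_lit 1)) .nil)))) .nil))))) (.cons (.br (nat_lit 5) (nat_lit 0) (.cons (.br (nat_lit 1) (nat_lit 0) (.cons (.br (nat_lit 2) (nat_lit 0) (.cons (.br (nat_lit 8) (nat_lit 1) (.cons (.ev (nat_lit 1213666632841576824439041) (nat_lit 1)) .nil)) .nil)) (.cons (.br (nat_lit 2) (nat_lit 0) (.cons (.ev (nat_lit 20361637770888301525885417160961) (nat_lit 1)) (.cons (.ev (nat_lit 309489750634572012096323841) (nat_lit 1)) .nil))) .nil))) (.cons (.br (nat_lit 2) (nat_lit 0) (.cons (.br (nat_lit 7) (nat_lit 0) (.cons (.br (nat_lit 8) (nat_lit 1) (.cons (.zr (nat_lit 618970038089997165407698944) (nat_lit 158457538676714772685924598273)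 (nat_lit 5) (nat_lit 9)) .nil)) .nil)) (.cons (.br (nat_lit 1) (nat_lit 0) (.cons (.br (nat_lit 7) (nat_lit 0) (.cons (.zr (nat_lit 618970038089997165407503104) (nat_lit 158457538676714772685924728833) (nat_lit 5) (nat_lit 3)) .nil)) (.cons (.ev (nat_lit 309489750634572012096323841) (nat_lit 1)) .nil))) .nil))) (.cons (.br (nat_lit 8) (nat_lit 1) (.cons (.rf (nat_lit 3721) (nat_lit 493779557318295554080)) (.cons (.rf (nat_lit 3661) (nat_lit 493779557318295553088)) (.cons (.br (nat_lit 4) (nat_lit 1) (.cons (.br (nat_lit 2) (nat_lit 0) (.cons (.ev (nat_lit 158768232667696809034211459330) (nat_lit 2)) .nil)) (.cons (.ev (nat_lit 79538856468352041365153054721) (nat_lit 1)) .nil))) .nil)))) .nil)))) .nil))))) .nil))))),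
 (.br (nat_lit 6) (nat_lit 1) (.cons (.br (nat_lit 8) (nat_lit 1) (.cons (.rf (nat_lit 3419) (nat_lit 493604770158142031904)) (.cons (.br (nat_lit 2) (nat_lit 0) (.cons (.ev (nat_lit 79537647524158022835089965313) (nat_lit 1)) (.cons (.br (nat_lit 13) (nat_lit 0) (.cons (.ev (nat_lit 20524439036814618723228358479112) (nat_lit 4)) .nil)) .nil))) .nil))) (.cons (.ev (nat_lit 79537652246452447006890656001) (nat_lit 1)) .nil))),
 (.br (nat_lit 8) (nat_lit 1) (.cons (.rf (nat_lit 3419) (nat_lit 493604770158142031904)) (.cons (.br (nat_lit 13) (nat_lit 0) (.cons (.ev (nat_lit 20282719088679938514189214023681) (nat_lit 1)) (.cons (.br (nat_lit 10) (nat_lit 1) (.cons (.br (nat_lit 2) (nat_lit 0) (.cons (.ev (nat_lit 20679169386279888581494334359300) (nat_lit 3)) .nil)) (.cons (.br (nat_lit 4) (nat_lit 1) (.cons (.ev (nat_lit 20679788384596836680702269785348) (nat_lit 3)) .nil)) .nil))) (.cons (.br (nat_lit 4) (nat_lit 1) (.cons (.ev (nat_lit 20361948460101647779936556024065) (nat_lit 1)) (.cons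 (.ev (nat_lit 20361638979832639661811169296385) (nat_lit 1)) .nil))) .nil)))) .nil))),
 (.br (nat_lit 8) (nat_lit 1) (.cons (.rf (nat_lit 3419) (nat_lit 493604770158142031904)) (.cons (.br (nat_lit 2) (nat_lit 0) (.cons (.br (nat_lit 1) (nat_lit 0) (.cons (.ev (nat_lit 20837625711382205926224234479876) (nat_lit 3)) .nil)) (.cons (.br (nat_lit 4) (nat_lit 1) (.cons (.ev (nat_lit 20838244709699154025432169383684) (nat_lit 3)) .nil)) .nil))) .nil))),
 (.br (nat_lit 4) (nat_lit 1) (.cons (.kr (nat_lit 60926456973469347667029335736576) (nat_lit 2427296372196097151533056) (nat_lit 1) (nat_lit 0)) .nil)),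
 (.br (nat_lit 8) (nat_lit 1) (.cons (.rf (nat_lit 3419) (nat_lit 493604770158142031904)) (.cons (.br (nat_lit 4) (nat_lit 1) (.cons (.ev (nat_lit 20361948460101647779936556024065) (nat_lit 1)) (.cons (.ev (nat_lit 20361638979832639661811169296385) (nat_lit 1)) .nil))) .nil))),
 (.br (nat_lit 9) (nat_lit 1) (.cons (.rf (nat_lit 3759) (nat_lit 493858305440582043680)) (.cons (.rf (nat_lit 3770) (nat_lit 493858305440582043680)) (.cons (.br (nat_lit 8) (nat_lit 1) (.cons (.rf (nat_lit 3771) (nat_lit 493858305440582043680)) (.cons (.rf (nat_lit 3772) (nat_lit 493858305440582043680)) (.cons (.br (nat_lit 8) (nat_lit 1) (.cons (.rf (nat_lit 3771) (nat_lit 493858305440582043680)) (.cons (.rf (nat_lit 3772) (nat_lit 493858305440582043680)) .nil))) .nil)))) (.cons (.br (nat_lit 13) (nat_lit 0) (.cons (.kr (nat_lit 4722366482869645213696) (nat_lit 20282409603651670423947251286016) (nat_lit 9) (nat_lit 0)) (.cons (.br (nat_lit 8) (nat_lit 1) (.cons (.br (nat_lit 8) (nat_lit 1) (.cons (.rf (nat_lit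 3419) (nat_lit 493604770158142031904)) (.cons (.ev (nat_lit 20361947255898194648172714787073) (nat_lit 1)) .nil))) (.cons (.rf (nat_lit 3773) (nat_lit 493858305440582043680)) (.cons (.br (nat_lit 8) (nat_lit 1) (.cons (.ev (nat_lit 20361947255898194648172714787073) (nat_lit 1)) (.cons (.rf (nat_lit 3773) (nat_lit 493858305440582043680)) .nil))) .nil)))) (.cons (.br (nat_lit 10) (nat_lit 1) (.cons (.br (nat_lit 6) (nat_lit 1) (.cons (.br (nat_lit 2) (nat_lit 0) (.cons (.br (nat_lit 8) (nat_lit 1) (.cons (.ev (nat_lit 309485028340146740784005121) (nat_lit 1)) .nil)) (.cons (.br (nat_lit 7) (nat_lit 0) (.cons (.ev (nat_lit 79537652264898910709446934785) (nat_lit 1)) .nil)) .nil))) (.cons (.br (nat_lit 4) (nat_lit 1) (.cons (.br (nat_lit 8) (nat_lit 1) (.cons (.ev (nat_lit 79847141978640837895214137602) (nat_lit 2)) .nil)) .nil)) .nil))) (.cons (.ev (nat_lit 20361638975091754377269498347521) (nat_lit 1)) (.cons (.br (nat_lit 8) (nat_lit 1) (.cons (.br (nat_lit 2) (nat_lit 0) (.cons (.rf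 (nat_lit 3651) (nat_lit 493750222348060035104)) (.cons (.rf (nat_lit 3651) (nat_lit 493750222345914648608)) .nil))) (.cons (.br (nat_lit 2) (nat_lit 0) (.cons (.ev (nat_lit 20361638979832639661811169296385) (nat_lit 1)) (.cons (.rf (nat_lit 3774) (nat_lit 493858305440582043680)) .nil))) .nil))) .nil)))) (.cons (.br (nat_lit 8) (nat_lit 1) (.cons (.br (nat_lit 8) (nat_lit 1) (.cons (.rf (nat_lit 3419) (nat_lit 493604770158142031904)) (.cons (.ev (nat_lit 20282409608392483650890622828801) (nat_lit 1)) .nil))) (.cons (.rf (nat_lit 3775) (nat_lit 493858305440582043680)) (.cons (.br (nat_lit 8) (nat_lit 1) (.cons (.ev (nat_lit 20282409608392483650890622828801) (nat_lit 1)) (.cons (.rf (nat_lit 3775) (nat_lit 493858305440582043680)) .nil))) .nil)))) .nil))))) .nil))))),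
 (.br (nat_lit 6) (nat_lit 1) (.cons (.br (nat_lit 8) (nat_lit 1) (.cons (.rf (nat_lit 3419) (nat_lit 493604770158142031904)) (.cons (.br (nat_lit 10) (nat_lit 1) (.cons (.ev (nat_lit 79537647542604485429544681473) (nat_lit 1)) (.cons (.ev (nat_lit 20282409608392483650890622828801) (nat_lit 1)) .nil))) (.cons (.br (nat_lit 10) (nat_lit 1) (.cons (.br (nat_lit 5) (nat_lit 0) (.cons (.ev (nat_lit 1213648186098602643357953) (nat_lit 1)) .nil)) (.cons (.br (nat_lit 4) (nat_lit 1) (.cons (.ev (nat_lit 1213648186098602643357953) (nat_lit 1)) .nil)) .nil))) .nil)))) (.cons (.ev (nat_lit 79537652246452447006890656001) (nat_lit 1)) (.cons (.br (nat_lit 8) (nat_lit 1) (.cons (.rf (nat_lit 3419) (nat_lit 493604770158142031904)) (.cons (.br (nat_lit 4) (nat_lit 1) (.cons (.br (nat_lit 2) (nat_lit 0) (.cons (.ev (nat_lit 21155778747590309883413420247304) (nat_lit 4)) .nil)) .nil)) .nil))) .nil)))),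
 (.br (nat_lit 10) (nat_lit 1) (.cons (.ev (nat_lit 20361948460101647779936556024065) (nat_lit 1)) (.cons (.ev (nat_lit 20361638979832639661811169296385) (nat_lit 1)) .nil))),
 (.br (nat_lit 8) (nat_lit 1) (.cons (.rf (nat_lit 3419) (nat_lit 493604770158142031904)) (.cons (.br (nat_lit 13) (nat_lit 0) (.cons (.rf (nat_lit 3778) (nat_lit 493858305440582043680)) (.cons (.ev (nat_lit 20282719093402377335028362248193) (nat_lit 1)) (.cons (.rf (nat_lit 3778) (nat_lit 493779557318295553088)) .nil)))) (.cons (.br (nat_lit 2) (nat_lit 0) (.cons (.ev (nat_lit 20282409608374036906816896565249) (nat_lit 1)) (.cons (.br (nat_lit 4) (nat_lit 1) (.cons (.ev (nat_lit 79228167255149622130953486593) (nat_lit 1)) (.cons (.ev (nat_lit 20282719088679938514189214023681) (nat_lit 1)) .nil))) (.cons (.ev (nat_lit 20282719088661491769015976132609) (nat_lit 1)) .nil)))) .nil)))),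
 (.br (nat_lit 8) (nat_lit 1) (.cons (.rf (nat_lit 3777) (nat_lit 493858305440582043680)) (.cons (.rf (nat_lit 3779) (nat_lit 493858305440582043680)) (.cons (.br (nat_lit 10) (nat_lit 1) (.cons (.br (nat_lit 4) (nat_lit 1) (.cons (.br (nat_lit 6) (nat_lit 1) (.cons (.zr (nat_lit 9481842626668823315200) (nat_lit 1239148965105276383362285569) (nat_lit 5) (nat_lit 0)) .nil)) .nil)) (.cons (.br (nat_lit 2) (nat_lit 0) (.cons (.ev (nat_lit 20361638979832639661811169296385) (nat_lit 1)) (.cons (.br (nat_lit 1) (nat_lit 0) (.cons (.zr (nat_lit 37109660929532887808) (nat_lit 310698658007724046833156097) (nat_lit 5) (nat_lit 0)) .nil)) .nil))) .nil))) .nil)))),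
 (.br (nat_lit 9) (nat_lit 1) (.cons (.rf (nat_lit 3759) (nat_lit 493858305440582043680)) (.cons (.rf (nat_lit 3770) (nat_lit 493858305440582043680)) (.cons (.rf (nat_lit 3776) (nat_lit 493858305440582043680)) (.cons (.br (nat_lit 8) (nat_lit 1) (.cons (.rf (nat_lit 3777) (nat_lit 493858305440582043680)) (.cons (.rf (nat_lit 3779) (nat_lit 493858305440582043680)) (.cons (.rf (nat_lit 3780) (nat_lit 493858305440582043680)) (.cons (.br (nat_lit 8) (nat_lit 1) (.cons (.rf (nat_lit 3777) (nat_lit 493858305440582043680)) (.cons (.rf (nat_lit 3779) (nat_lit 493858305440582043680)) (.cons (.rf (nat_lit 3780) (nat_lit 493858305440582043680)) .nil)))) .nil))))) .nil)))))]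

theorem c136 : chkAll C T R L136 (nat_lit 3763) = true := by decide +kernel

theorem l136 : (nat_lit 3763) + L136.length = (nat_lit 3782) := by decide +kernel

/-- part of the certificates -/
def L137 : List Prf := [(.br (nat_lit 11) (nat_lit 1) (.cons (.rf (nat_lit 3661) (nat_lit 493858305440582043680)) (.cons (.rf (nat_lit 3721) (nat_lit 493858305440582043680)) (.cons (.rf (nat_lit 3751) (nat_lit 493858305440582043680)) (.cons (.br (nat_lit 9) (nat_lit 1) (.cons (.rf (nat_lit 3759) (nat_lit 493858305440582043680)) (.cons (.rf (nat_lit 3770) (nat_lit 493858305440582043680)) (.cons (.rf (nat_lit 3776) (nat_lit 493858305440582043680)) (.cons (.rf (nat_lit 3781) (nat_lit 493858305440582043680)) (.cons (.br (nat_lit 9) (nat_lit 1) (.cons (.rf (nat_lit 3759) (nat_lit 493858305440582043680)) (.cons (.rf (nat_lit 3770) (nat_lit 493858305440582043680)) (.cons (.rf (nat_lit 3776) (nat_lit 493858305440582043680)) (.cons (.rf (nat_lit 3781) (nat_lit 493858305440582043680)) .nil))))) .nil))))))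 .nil))))),
 (.br (nat_lit 11) (nat_lit 1) (.cons (.rf (nat_lit 3661) (nat_lit 493858305440582043680)) (.cons (.rf (nat_lit 3721) (nat_lit 493858305440582043680)) (.cons (.rf (nat_lit 3751) (nat_lit 493858305440582043680)) (.cons (.rf (nat_lit 3782) (nat_lit 493858305440582043680)) (.cons (.br (nat_lit 11) (nat_lit 1) (.cons (.rf (nat_lit 3661) (nat_lit 493858305440582043680)) (.cons (.rf (nat_lit 3721) (nat_lit 493858305440582043680)) (.cons (.rf (nat_lit 3751) (nat_lit 493858305440582043680)) (.cons (.rf (nat_lit 3782) (nat_lit 493858305440582043680)) .nil))))) .nil)))))),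
 (.br (nat_lit 12) (nat_lit 0) (.cons (.rf (nat_lit 3612) (nat_lit 493858305440582043680)) (.cons (.rf (nat_lit 3612) (nat_lit 493823368456464074784)) (.cons (.rf (nat_lit 3783) (nat_lit 493858305440582043680)) (.cons (.rf (nat_lit 3783) (nat_lit 493823368456464074784)) .nil))))),
 (.br (nat_lit 10) (nat_lit 1) (.cons (.rf (nat_lit 3421) (nat_lit 493679323641425266720)) (.cons (.br (nat_lit 9) (nat_lit 1) (.cons (.br (nat_lit 4) (nat_lit 1) (.cons (.br (nat_lit 13) (nat_lit 0) (.cons (.ev (nat_lit 4740885566016664371201) (nat_lit 1)) .nil)) .nil)) (.cons (.rf (nat_lit 3784) (nat_lit 457824828835778364480)) .nil))) .nil))),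
 (.br (nat_lit 10) (nat_lit 1) (.cons (.rf (nat_lit 3421) (nat_lit 493678232925890512928)) (.cons (.br (nat_lit 7) (nat_lit 0) (.cons (.br (nat_lit 2) (nat_lit 0) (.cons (.ev (nat_lit 79228162532783139265603174401) (nat_lit 1)) (.cons (.ev (nat_lit 309489732259886631919550721) (nat_lit 1)) .nil))) (.cons (.br (nat_lit 2) (nat_lit 0) (.cons (.ev (nat_lit 79228162532783420740563107841) (nat_lit 1)) (.cons (.ev (nat_lit 309489732260168106913038593) (nat_lit 1)) .nil))) (.cons (.ev (nat_lit 1213648258437667362963713) (nat_lit 1)) .nil)))) .nil))),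
 (.br (nat_lit 11) (nat_lit 1) (.cons (.br (nat_lit 10) (nat_lit 1) (.cons (.rf (nat_lit 3421) (nat_lit 493679323641425266720)) (.cons (.rf (nat_lit 3785) (nat_lit 493858305440582043680)) (.cons (.br (nat_lit 10) (nat_lit 1) (.cons (.rf (nat_lit 3421) (nat_lit 493679323641425266720)) (.cons (.rf (nat_lit 3785) (nat_lit 493858305440582043680)) .nil))) .nil)))) (.cons (.br (nat_lit 10) (nat_lit 1) (.cons (.rf (nat_lit 3425) (nat_lit 493679323641425266720)) (.cons (.rf (nat_lit 3786) (nat_lit 493858305440582043680)) (.cons (.br (nat_lit 10) (nat_lit 1) (.cons (.rf (nat_lit 3425) (nat_lit 493679323641425266720)) (.cons (.rf (nat_lit 3786) (nat_lit 493858305440582043680)) .nil))) .nil)))) .nil))),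
 (.br (nat_lit 10) (nat_lit 1) (.cons (.ev (nat_lit 79537647524158022830811775233) (nat_lit 1)) (.cons (.br (nat_lit 8) (nat_lit 1) (.cons (.br (nat_lit 4) (nat_lit 1) (.cons (.ev (nat_lit 310693991125590794039395074) (nat_lit 2)) (.cons (.zr (nat_lit 158458742880168187019925716992) (nat_lit 20282719088679938513093980586241) (nat_lit 5) (nat_lit 8)) .nil))) (.cons (.br (nat_lit 4) (nat_lit 1) (.cons (.ev (nat_lit 310693991125872268999328514) (nat_lit 2)) (.cons (.br (nat_lit 2) (nat_lit 0) (.cons (.zr (nat_lit 79228162514408454980659970048) (nat_lit 309489750635134966327934977) (nat_lit 5) (nat_lit 0)) .nil)) .nil))) (.cons (.br (nat_lit 4) (nat_lit 1) (.cons (.zr (nat_lit 158458742880167905544999337984) (nat_lit 20282719088679939076043934007553) (nat_lit 5) (nat_lit 4)) (.cons (.br (nat_lit 9) (nat_lit 1) (.cons (.zr (nat_lit 79228162514408454980643192832) (nat_lit 309489750634572016391290881) (nat_lit 5) (nat_lit 0)) .nil)) .nil))) .nil)))) .nil))),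
 (.br (nat_lit 11) (nat_lit 1) (.cons (.rf (nat_lit 3787) (nat_lit 493858305440582043680)) (.cons (.br (nat_lit 10) (nat_lit 1) (.cons (.rf (nat_lit 3788) (nat_lit 493858305440582043680)) (.cons (.ev (nat_lit 79537647524158022830811775233) (nat_lit 1)) (.cons (.br (nat_lit 10) (nat_lit 1) (.cons (.rf (nat_lit 3788) (nat_lit 493858305440582043680)) (.cons (.ev (nat_lit 79537647524158022830811775233) (nat_lit 1)) .nil))) .nil)))) .nil))),
 (.br (nat_lit 10) (nat_lit 1) (.cons (.br (nat_lit 4) (nat_lit 1) (.cons (.br (nat_lit 13) (nat_lit 0) (.cons (.ev (nat_lit 20521953447439734044471400268548) (nat_lit 3)) .nil)) .nil)) .nil)),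
 (.br (nat_lit 9) (nat_lit 1) (.cons (.ev (nat_lit 1213666632842672057876481) (nat_lit 1)) (.cons (.ev (nat_lit 20361638979814193198112924762113) (nat_lit 1)) .nil))),
 (.br (nat_lit 10) (nat_lit 1) (.cons (.br (nat_lit 4) (nat_lit 1) (.cons (.rf (nat_lit 3791) (nat_lit 493858305440582043680)) .nil)) .nil)),
 (.br (nat_lit 9) (nat_lit 1) (.cons (.br (nat_lit 4) (nat_lit 1) (.cons (.ev (nat_lit 79537647524085965241052102913) (nat_lit 1)) .nil)) (.cons (.br (nat_lit 10) (nat_lit 1) (.cons (.rf (nat_lit 3431) (nat_lit 493679323637134493728)) (.cons (.rf (nat_lit 3784) (nat_lit 457824828835778364480)) .nil))) .nil))),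
 (.br (nat_lit 10) (nat_lit 1) (.cons (.rf (nat_lit 3793) (nat_lit 493858305440582043680)) (.cons (.br (nat_lit 9) (nat_lit 1) (.cons (.br (nat_lit 4) (nat_lit 1) (.cons (.ev (nat_lit 79537647524085965241052102913) (nat_lit 1)) .nil)) (.cons (.rf (nat_lit 3784) (nat_lit 457824828835778364480)) .nil))) .nil))),
 (.br (nat_lit 7) (nat_lit 0) (.cons (.br (nat_lit 13) (nat_lit 0) (.cons (.kr (nat_lit 20282409603670117168020960837888) (nat_lit 309485009893402662779486208) (nat_lit 1) (nat_lit 0)) (.cons (.br (nat_lit 2) (nat_lit 0) (.cons (.br (nat_lit 5) (nat_lit 0) (.cons (.ev (nat_lit 79538861172271780161088716801) (nat_lit 1)) .nil)) (.cons (.rf (nat_lit 3791) (nat_lit 493858305440582043680)) .nil))) .nil))) (.cons (.br (nat_lit 5) (nat_lit 0) (.cons (.ev (nat_lit 309489750634573111607951361) (nat_lit 1)) (.cons (.br (nat_lit 10) (nat_lit 1) (.cons (.br (nat_lit 13) (nat_lit 0) (.cons (.ev (nat_lit 159076518178128877435469562114) (nat_lit 2)) .nil)) (.cons (.ev (nat_lit 1213648258437667362963713)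 (nat_lit 1)) .nil))) .nil))) (.cons (.br (nat_lit 10) (nat_lit 1) (.cons (.br (nat_lit 8) (nat_lit 1) (.cons (.ev (nat_lit 79229371440084234801502028033) (nat_lit 1)) (.cons (.rf (nat_lit 3784) (nat_lit 457822648505293145152)) .nil))) (.cons (.br (nat_lit 9) (nat_lit 1) (.cons (.kr (nat_lit 1208925819614633469673728) (nat_lit 4722366765444133552128) (nat_lit 1) (nat_lit 0)) (.cons (.rf (nat_lit 3554) (nat_lit 493823298087721994272)) .nil))) (.cons (.kr (nat_lit 1208925819614629191483392) (nat_lit 20282409603651670705422227996672) (nat_lit 3) (nat_lit 0)) .nil)))) .nil)))),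
 (.br (nat_lit 13) (nat_lit 0) (.cons (.rf (nat_lit 3795) (nat_lit 493858305440582043680)) (.cons (.br (nat_lit 5) (nat_lit 0) (.cons (.ev (nat_lit 309489750634854586567884801) (nat_lit 1)) (.cons (.br (nat_lit 10) (nat_lit 1) (.cons (.br (nat_lit 4) (nat_lit 1) (.cons (.ev (nat_lit 620183667973748353082065666) (nat_lit 2)) .nil)) (.cons (.zr (nat_lit 3640944558292496459760128) (nat_lit 158765810056796765429050638337) (nat_lit 5) (nat_lit 11)) .nil))) .nil))) (.cons (.br (nat_lit 10) (nat_lit 1) (.cons (.br (nat_lit 4) (nat_lit 1) (.cons (.ev (nat_lit 79229371440083953326542094593) (nat_lit 1)) (.cons (.ev (nat_lit 20282719088661564108089285672961) (nat_lit 1)) .nil))) (.cons (.kr (nat_lit 1208925819614629174706176) (nat_lit 20282409603651670423947251286016) (nat_lit 10) (nat_lit 0)) (.cons (.br (nat_lit 9) (nat_lit 1) (.cons (.ev (nat_lit 20361947255898122589479165296641) (nat_lit 1)) (.cons (.ev (nat_lit 1213648258437667362963713) (nat_lit 1)) .nil))) .nil)))) .nil)))),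
 (.br (nat_lit 13) (nat_lit 0) (.cons (.rf (nat_lit 3795) (nat_lit 493858305440582043680)) (.cons (.rf (nat_lit 3796) (nat_lit 493858305440582043680)) (.cons (.br (nat_lit 4) (nat_lit 1) (.cons (.br (nat_lit 10) (nat_lit 1) (.cons (.ev (nat_lit 79229371440083953326542094593) (nat_lit 1)) (.cons (.br (nat_lit 8) (nat_lit 1) (.cons (.zr (nat_lit 618970019859429168051847168) (nat_lit 4840444091685464365335297) (nat_lit 5) (nat_lit 0)) .nil)) .nil))) (.cons (.br (nat_lit 10) (nat_lit 1) (.cons (.ev (nat_lit 79229371440083953326542094593) (nat_lit 1)) (.cons (.br (nat_lit 8) (nat_lit 1) (.cons (.zr (nat_lit 618970019859429168051847168) (nat_lit 4840444091685464365335297) (nat_lit 5) (nat_lit 0)) .nil)) .nil))) (.cons (.br (nat_lit 10) (nat_lit 1) (.cons (.ev (nat_lit 20282410812577562377649735598081) (nat_lit 1)) (.cons (.ev (nat_lit 310693935713298771209093121) (nat_lit 1)) .nil))) .nil)))) .nil)))),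
 (.br (nat_lit 11) (nat_lit 1) (.cons (.br (nat_lit 8) (nat_lit 1) (.cons (.br (nat_lit 10) (nat_lit 1) (.cons (.rf (nat_lit 3790) (nat_lit 493858305440582043680)) (.cons (.br (nat_lit 10) (nat_lit 1) (.cons (.rf (nat_lit 3790) (nat_lit 493858305440582043680)) .nil)) .nil))) (.cons (.br (nat_lit 10) (nat_lit 1) (.cons (.rf (nat_lit 3792) (nat_lit 493858305440582043680)) (.cons (.br (nat_lit 10) (nat_lit 1) (.cons (.rf (nat_lit 3792) (nat_lit 493858305440582043680)) .nil)) .nil))) (.cons (.ev (nat_lit 79537647542532427835506688001) (nat_lit 1)) .nil)))) (.cons (.br (nat_lit 10) (nat_lit 1) (.cons (.rf (nat_lit 3793) (nat_lit 493858305440582043680)) (.cons (.rf (nat_lit 3794) (nat_lit 493858305440582043680)) (.cons (.br (nat_lit 10) (nat_lit 1) (.cons (.rf (nat_lit 3793) (nat_lit 493858305440582043680)) (.cons (.rf (nat_lit 3794) (nat_lit 493858305440582043680)) .nil))) .nil)))) (.cons (.br (nat_lit 13) (nat_lit 0) (.cons (.rf (nat_lit 3795) (nat_lit 493858305440582043680)) (.cons (.rf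 (nat_lit 3796) (nat_lit 493858305440582043680)) (.cons (.rf (nat_lit 3797) (nat_lit 493858305440582043680)) (.cons (.br (nat_lit 13) (nat_lit 0) (.cons (.rf (nat_lit 3795) (nat_lit 493858305440582043680)) (.cons (.rf (nat_lit 3796) (nat_lit 493858305440582043680)) (.cons (.rf (nat_lit 3797) (nat_lit 493858305440582043680)) .nil)))) .nil))))) .nil)))),
 (.br (nat_lit 10) (nat_lit 1) (.cons (.br (nat_lit 9) (nat_lit 1) (.cons (.br (nat_lit 4) (nat_lit 1) (.cons (.br (nat_lit 8) (nat_lit 1) (.cons (.ev (nat_lit 318151822671104705338194068740) (nat_lit 3)) .nil)) .nil)) (.cons (.br (nat_lit 4) (nat_lit 1) (.cons (.zr (nat_lit 237684487542793014979655172864) (nat_lit 1213648186660457380052993) (nat_lit 5) (nat_lit 0)) (.cons (.br (nat_lit 2) (nat_lit 0) (.cons (.ev (nat_lit 158769436834256452646288425730) (nat_lit 2)) .nil)) .nil))) .nil))) .nil)),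
 (.br (nat_lit 10) (nat_lit 1) (.cons (.ev (nat_lit 79537647524158022830811775233) (nat_lit 1)) (.cons (.br (nat_lit 2) (nat_lit 0) (.cons (.br (nat_lit 8) (nat_lit 1) (.cons (.kr (nat_lit 237684487579686502027562582784) (nat_lit 309485010038080809381986304) (nat_lit 1) (nat_lit 0)) (.cons (.ev (nat_lit 20361637766165934762644618674433) (nat_lit 1)) .nil))) (.cons (.ev (nat_lit 79537647542532427835506688001) (nat_lit 1)) (.cons (.br (nat_lit 7) (nat_lit 0) (.cons (.ev (nat_lit 310693935713298771209093121) (nat_lit 1)) (.cons (.ev (nat_lit 310693954160042840623743233) (nat_lit 1)) .nil))) .nil)))) .nil))),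
 (.br (nat_lit 11) (nat_lit 1) (.cons (.rf (nat_lit 3798) (nat_lit 493858305440582043680)) (.cons (.br (nat_lit 10) (nat_lit 1) (.cons (.rf (nat_lit 3799) (nat_lit 493858305440582043680)) (.cons (.br (nat_lit 10) (nat_lit 1) (.cons (.rf (nat_lit 3799) (nat_lit 493858305440582043680)) .nil)) .nil))) (.cons (.br (nat_lit 10) (nat_lit 1) (.cons (.rf (nat_lit 3800) (nat_lit 493858305440582043680)) (.cons (.ev (nat_lit 79537647524158022830811775233) (nat_lit 1)) (.cons (.br (nat_lit 10) (nat_lit 1) (.cons (.rf (nat_lit 3800) (nat_lit 493858305440582043680)) (.cons (.ev (nat_lit 79537647524158022830811775233) (nat_lit 1)) .nil))) .nil)))) .nil)))),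
 (.br (nat_lit 8) (nat_lit 1) (.cons (.kr (nat_lit 79228171958997304432346005760) (nat_lit 20282409603651742481549879214080) (nat_lit 1) (nat_lit 0)) .nil)),
 (.br (nat_lit 10) (nat_lit 1) (.cons (.br (nat_lit 4) (nat_lit 1) (.cons (.br (nat_lit 8) (nat_lit 1) (.cons (.ev (nat_lit 79229371458603036469266284545) (nat_lit 1)) .nil)) (.cons (.br (nat_lit 13) (nat_lit 0) (.cons (.ev (nat_lit 20282719088679938513093980586241) (nat_lit 1)) (.cons (.rf (nat_lit 3802) (nat_lit 493858305440582043680)) .nil))) .nil))) (.cons (.br (nat_lit 2) (nat_lit 0) (.cons (.br (nat_lit 5) (nat_lit 0) (.cons (.ev (nat_lit 79231789347135472408664867330) (nat_lit 2)) (.cons (.ev (nat_lit 309489732187829042193432833) (nat_lit 1)) .nil))) (.cons (.br (nat_lit 5) (nat_lit 0) (.cons (.ev (nat_lit 158769436834256452646288425730) (nat_lit 2)) (.cons (.ev (nat_lit 79228167255149903605913420033) (nat_lit 1)) .nil))) (.cons (.br (nat_lit 5) (nat_lit 0) (.cons (.ev (nat_lit 309489732187829042193432833) (nat_lit 1)) (.cons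 (.ev (nat_lit 309489750634573111607951361) (nat_lit 1)) .nil))) .nil)))) .nil))),
 (.br (nat_lit 10) (nat_lit 1) (.cons (.rf (nat_lit 3803) (nat_lit 493858305440582043680)) (.cons (.br (nat_lit 13) (nat_lit 0) (.cons (.ev (nat_lit 20361948460101647779932244279553) (nat_lit 1)) (.cons (.kr (nat_lit 1208925819614629174706176) (nat_lit 20282409603651670423947251286016) (nat_lit 10) (nat_lit 0)) (.cons (.ev (nat_lit 20361637766166007101709338280193) (nat_lit 1)) .nil)))) .nil))),
 (.br (nat_lit 11) (nat_lit 1) (.cons (.rf (nat_lit 3798) (nat_lit 493858305440582043680)) (.cons (.rf (nat_lit 3801) (nat_lit 493858305440582043680)) (.cons (.br (nat_lit 10) (nat_lit 1) (.cons (.rf (nat_lit 3803) (nat_lit 493858305440582043680)) (.cons (.rf (nat_lit 3804) (nat_lit 493858305440582043680)) (.cons (.br (nat_lit 10) (nat_lit 1) (.cons (.rf (nat_lit 3803) (nat_lit 493858305440582043680)) (.cons (.rf (nat_lit 3804) (nat_lit 493858305440582043680)) .nil))) .nil)))) .nil)))),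
 (.br (nat_lit 11) (nat_lit 1) (.cons (.rf (nat_lit 3798) (nat_lit 493858305440582043680)) (.cons (.rf (nat_lit 3801) (nat_lit 493858305440582043680)) (.cons (.rf (nat_lit 3805) (nat_lit 493858305440582043680)) (.cons (.br (nat_lit 11) (nat_lit 1) (.cons (.rf (nat_lit 3798) (nat_lit 493858305440582043680)) (.cons (.rf (nat_lit 3801) (nat_lit 493858305440582043680)) (.cons (.rf (nat_lit 3805) (nat_lit 493858305440582043680)) .nil)))) .nil))))),
 (.br (nat_lit 11) (nat_lit 1) (.cons (.br (nat_lit 8) (nat_lit 1) (.cons (.rf (nat_lit 3478) (nat_lit 493823298087721994272)) (.cons (.br (nat_lit 9) (nat_lit 1) (.cons (.br (nat_lit 4) (nat_lit 1) (.cons (.ev (nat_lit 79537656987410073920473334274) (nat_lit 2)) .nil)) (.cons (.ev (nat_lit 40644356854882767326827415536130) (nat_lit 2)) .nil))) .nil))) (.cons (.br (nat_lit 4) (nat_lit 1) (.cons (.br (nat_lit 8) (nat_lit 1) (.cons (.br (nat_lit 9) (nat_lit 1) (.cons (.ev (nat_lit 79537657024303562059302371330) (nat_lit 2)) .nil)) (.cons (.zr (nat_lit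 60847228810955011271854638956544) (nat_lit 158765810056796765429050638593) (nat_lit 5) (nat_lit 11)) .nil))) (.cons (.br (nat_lit 8) (nat_lit 1) (.cons (.ev (nat_lit 40644356854845873838688586235906) (nat_lit 2)) .nil)) .nil))) .nil))),
 (.br (nat_lit 11) (nat_lit 1) (.cons (.rf (nat_lit 3807) (nat_lit 493858305440582043680)) (.cons (.br (nat_lit 4) (nat_lit 1) (.cons (.br (nat_lit 7) (nat_lit 0) (.cons (.br (nat_lit 13) (nat_lit 0) (.cons (.zr (nat_lit 237684492265159497849300321280) (nat_lit 309485028268652105289433089) (nat_lit 5) (nat_lit 0)) .nil)) (.cons (.br (nat_lit 8) (nat_lit 1) (.cons (.ev (nat_lit 20521958273808959997310132225796) (nat_lit 3)) .nil)) .nil))) (.cons (.br (nat_lit 2) (nat_lit 0) (.cons (.ev (nat_lit 158767019019654265972537229570) (nat_lit 2)) (.cons (.br (nat_lit 13) (nat_lit 0) (.cons (.ev (nat_lit 20521958254845419985043288688388) (nat_lit 3)) .nil)) .nil))) (.cons (.br (nat_lit 8) (nat_lit 1) (.cons (.br (nat_lit 7) (nat_lit 0) (.cons (.ev (nat_lit 158765814779307928644372070914)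 (nat_lit 2)) .nil)) (.cons (.zr (nat_lit 237685696468613191459271606272) (nat_lit 309485028268089151041044481) (nat_lit 5) (nat_lit 8)) .nil))) .nil)))) .nil)))]

theorem c137 : chkAll C T R L137 (nat_lit 3782) = true := by decide +kernel

theorem l137 : (nat_lit 3782) + L137.length = (nat_lit 3809) := by decide +kernel

/-- part of the certificates -/
def L138 : List Prf := [(.br (nat_lit 11) (nat_lit 1) (.cons (.rf (nat_lit 3806) (nat_lit 493565395547242988608)) (.cons (.br (nat_lit 8) (nat_lit 1) (.cons (.br (nat_lit 9) (nat_lit 1) (.cons (.ev (nat_lit 309489750634573111607951361) (nat_lit 1)) .nil)) (.cons (.br (nat_lit 9) (nat_lit 1) (.cons (.ev (nat_lit 1213666632842672057876481) (nat_lit 1)) (.cons (.ev (nat_lit 20361947255916641672621889487105) (nat_lit 1)) .nil))) .nil))) (.cons (.br (nat_lit 13) (nat_lit 0) (.cons (.br (nat_lit 9) (nat_lit 1) (.cons (.ev (nat_lit 79537647524085965241052102913) (nat_lit 1)) (.cons (.br (nat_lit 5) (nat_lit 0) (.cons (.ev (nat_lit 309489750634573111607951361)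 (nat_lit 1)) .nil)) .nil))) (.cons (.rf (nat_lit 3784) (nat_lit 457822648505293145152)) (.cons (.br (nat_lit 7) (nat_lit 0) (.cons (.ev (nat_lit 20282410812577562377649735598081) (nat_lit 1)) (.cons (.ev (nat_lit 20361947255916641672621889487105) (nat_lit 1)) .nil))) .nil)))) .nil)))),
 (.br (nat_lit 11) (nat_lit 1) (.cons (.rf (nat_lit 3806) (nat_lit 493565395547242988608)) (.cons (.br (nat_lit 9) (nat_lit 1) (.cons (.ev (nat_lit 4722438540463699984641) (nat_lit 1)) (.cons (.br (nat_lit 4) (nat_lit 1) (.cons (.ev (nat_lit 310698658079781636559405313) (nat_lit 1)) (.cons (.br (nat_lit 2) (nat_lit 0) (.cons (.ev (nat_lit 158769436834256452646288425730) (nat_lit 2)) .nil)) .nil))) .nil))) (.cons (.br (nat_lit 13) (nat_lit 0) (.cons (.br (nat_lit 8) (nat_lit 1) (.cons (.ev (nat_lit 79537647542532427835506688001) (nat_lit 1)) (.cons (.ev (nat_lit 20522262904170481676587433460228) (nat_lit 3)) .nil))) (.cons (.rf (nat_lit 3784) (nat_lit 457822648505293145152)) (.cons (.ev (nat_lit 20282720297587311666219639111681)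 (nat_lit 1)) .nil)))) .nil)))),
 (.br (nat_lit 11) (nat_lit 1) (.cons (.rf (nat_lit 3809) (nat_lit 493858305440582043680)) (.cons (.rf (nat_lit 3810) (nat_lit 493858305440582043680)) (.cons (.br (nat_lit 9) (nat_lit 1) (.cons (.ev (nat_lit 4722438540463699984641) (nat_lit 1)) (.cons (.br (nat_lit 8) (nat_lit 1) (.cons (.br (nat_lit 4) (nat_lit 1) (.cons (.ev (nat_lit 4740885566016664371201) (nat_lit 1)) .nil)) (.cons (.ev (nat_lit 1213666632842672057876481) (nat_lit 1)) .nil))) (.cons (.br (nat_lit 4) (nat_lit 1) (.cons (.br (nat_lit 5) (nat_lit 0) (.cons (.ev (nat_lit 4740885566016664371201) (nat_lit 1)) .nil)) (.cons (.ev (nat_lit 20361638979814192916637964828673) (nat_lit 1)) .nil))) .nil)))) .nil)))),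
 (.br (nat_lit 4) (nat_lit 1) (.cons (.ev (nat_lit 79229371440083953326542094593) (nat_lit 1)) (.cons (.br (nat_lit 5) (nat_lit 0) (.cons (.br (nat_lit 11) (nat_lit 1) (.cons (.br (nat_lit 9) (nat_lit 1) (.cons (.ev (nat_lit 309489750634573111607951361) (nat_lit 1)) .nil)) (.cons (.br (nat_lit 7) (nat_lit 0) (.cons (.ev (nat_lit 309489750634573111607951361) (nat_lit 1)) .nil)) .nil))) (.cons (.br (nat_lit 7) (nat_lit 0) (.cons (.ev (nat_lit 1213666632842672057876481) (nat_lit 1)) (.cons (.ev (nat_lit 79537647524085965241052102913) (nat_lit 1)) .nil))) (.cons (.br (nat_lit 13) (nat_lit 0) (.cons (.ev (nat_lit 79537647542532427835506688001) (nat_lit 1)) (.cons (.ev (nat_lit 1213648186380077603291393) (nat_lit 1)) .nil))) .nil)))) (.cons (.br (nat_lit 8) (nat_lit 1) (.cons (.ev (nat_lit 79229371440084234801502028033) (nat_lit 1)) (.cons (.br (nat_lit 9) (nat_lit 1) (.cons (.ev (nat_lit 1213666632842672057876481) (nat_lit 1)) (.cons (.ev (nat_lit 20361638979814193198112924762113) (nat_lit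 1)) .nil))) .nil))) .nil)))),
 (.br (nat_lit 11) (nat_lit 1) (.cons (.rf (nat_lit 3812) (nat_lit 493858305440582043680)) (.cons (.br (nat_lit 7) (nat_lit 0) (.cons (.br (nat_lit 2) (nat_lit 0) (.cons (.br (nat_lit 9) (nat_lit 1) (.cons (.ev (nat_lit 20520101354231513671505902241028) (nat_lit 3)) .nil)) (.cons (.ev (nat_lit 79229376162522493790208458753) (nat_lit 1)) .nil))) (.cons (.br (nat_lit 9) (nat_lit 1) (.cons (.ev (nat_lit 79229376180969237859622977793) (nat_lit 1)) (.cons (.br (nat_lit 4) (nat_lit 1) (.cons (.ev (nat_lit 20520101354231513671505902241028) (nat_lit 3)) .nil)) .nil))) (.cons (.br (nat_lit 4) (nat_lit 1) (.cons (.ev (nat_lit 79229376162522493790208458753) (nat_lit 1)) (.cons (.ev (nat_lit 20282410812577562377649735598081) (nat_lit 1)) .nil))) .nil)))) (.cons (.br (nat_lit 8) (nat_lit 1) (.cons (.ev (nat_lit 79537647542532427835506688001) (nat_lit 1)) (.cons (.br (nat_lit 4) (nat_lit 1) (.cons (.ev (nat_lit 20361638975091754376174264910081) (nat_lit 1)) (.cons (.rf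 (nat_lit 3522) (nat_lit 493823298092012767264)) .nil))) .nil))) .nil)))),
 (.br (nat_lit 11) (nat_lit 1) (.cons (.rf (nat_lit 3812) (nat_lit 493858305440582043680)) (.cons (.rf (nat_lit 3813) (nat_lit 493858305440582043680)) (.cons (.br (nat_lit 4) (nat_lit 1) (.cons (.ev (nat_lit 20361638975091754376174264910081) (nat_lit 1)) (.cons (.br (nat_lit 9) (nat_lit 1) (.cons (.ev (nat_lit 309489732187829042193432833) (nat_lit 1)) (.cons (.ev (nat_lit 20361638979814192916637964828673) (nat_lit 1)) .nil))) (.cons (.br (nat_lit 9) (nat_lit 1) (.cons (.br (nat_lit 5) (nat_lit 0) (.cons (.ev (nat_lit 309489750634573111607951361) (nat_lit 1)) .nil)) (.cons (.br (nat_lit 8) (nat_lit 1) (.cons (.zr (nat_lit 79228162514408454980643127552) (nat_lit 1213648186378982386565121) (nat_lit 5) (nat_lit 0)) .nil)) .nil))) .nil)))) .nil)))),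
 (.br (nat_lit 10) (nat_lit 1) (.cons (.br (nat_lit 11) (nat_lit 1) (.cons (.rf (nat_lit 3807) (nat_lit 493858305440582043680)) (.cons (.rf (nat_lit 3808) (nat_lit 493858305440582043680)) (.cons (.br (nat_lit 11) (nat_lit 1) (.cons (.rf (nat_lit 3807) (nat_lit 493858305440582043680)) (.cons (.rf (nat_lit 3808) (nat_lit 493858305440582043680)) .nil))) .nil)))) (.cons (.br (nat_lit 11) (nat_lit 1) (.cons (.rf (nat_lit 3809) (nat_lit 493858305440582043680)) (.cons (.rf (nat_lit 3810) (nat_lit 493858305440582043680)) (.cons (.rf (nat_lit 3811) (nat_lit 493858305440582043680)) (.cons (.br (nat_lit 11) (nat_lit 1) (.cons (.rf (nat_lit 3809) (nat_lit 493858305440582043680)) (.cons (.rf (nat_lit 3810) (nat_lit 493858305440582043680)) (.cons (.rf (nat_lit 3811) (nat_lit 493858305440582043680)) .nil)))) .nil))))) (.cons (.br (nat_lit 11) (nat_lit 1) (.cons (.rf (nat_lit 3812) (nat_lit 493858305440582043680)) (.cons (.rf (nat_lit 3813) (nat_lit 493858305440582043680)) (.cons (.rf (nat_lit 3814)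 (nat_lit 493858305440582043680)) (.cons (.br (nat_lit 11) (nat_lit 1) (.cons (.rf (nat_lit 3812) (nat_lit 493858305440582043680)) (.cons (.rf (nat_lit 3813) (nat_lit 493858305440582043680)) (.cons (.rf (nat_lit 3814) (nat_lit 493858305440582043680)) .nil)))) .nil))))) .nil)))),
 (.br (nat_lit 4) (nat_lit 1) (.cons (.ev (nat_lit 20282409603670117169124784275713) (nat_lit 1)) .nil)),
 (.br (nat_lit 11) (nat_lit 1) (.cons (.br (nat_lit 9) (nat_lit 1) (.cons (.ev (nat_lit 79538861172271780161088716801) (nat_lit 1)) (.cons (.br (nat_lit 8) (nat_lit 1) (.cons (.rf (nat_lit 3462) (nat_lit 493679323637134493728)) (.cons (.ev (nat_lit 20282409608374109246985439543553) (nat_lit 1)) .nil))) .nil))) (.cons (.br (nat_lit 13) (nat_lit 0) (.cons (.br (nat_lit 8) (nat_lit 1) (.cons (.br (nat_lit 9) (nat_lit 1) (.cons (.ev (nat_lit 79537652264970968299173052673) (nat_lit 1)) .nil)) (.cons (.ev (nat_lit 20282719088661564108089285672961) (nat_lit 1)) .nil))) (.cons (.br (nat_lit 4) (nat_lit 1) (.cons (.br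 (nat_lit 9) (nat_lit 1) (.cons (.ev (nat_lit 159076508733395911687589069570) (nat_lit 2)) .nil)) (.cons (.br (nat_lit 9) (nat_lit 1) (.cons (.ev (nat_lit 159076518141090711150021182210) (nat_lit 2)) .nil)) .nil))) (.cons (.br (nat_lit 8) (nat_lit 1) (.cons (.rf (nat_lit 3816) (nat_lit 493858305440582043680)) (.cons (.ev (nat_lit 20282409608374109246985439543553) (nat_lit 1)) .nil))) .nil)))) .nil))),
 (.br (nat_lit 4) (nat_lit 1) (.cons (.rf (nat_lit 3464) (nat_lit 493679323637134493728)) .nil)),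
 (.br (nat_lit 11) (nat_lit 1) (.cons (.rf (nat_lit 3817) (nat_lit 493858305440582043680)) (.cons (.br (nat_lit 8) (nat_lit 1) (.cons (.br (nat_lit 9) (nat_lit 1) (.cons (.br (nat_lit 4) (nat_lit 1) (.cons (.ev (nat_lit 309489732188110517153366273) (nat_lit 1)) .nil)) (.cons (.br (nat_lit 2) (nat_lit 0) (.cons (.ev (nat_lit 1213648186098602643357953) (nat_lit 1)) .nil)) .nil))) (.cons (.rf (nat_lit 3818) (nat_lit 493858305440582043680)) .nil))) .nil))),
 (.br (nat_lit 11) (nat_lit 1) (.cons (.br (nat_lit 4) (nat_lit 1) (.cons (.ev (nat_lit 79229371440083953326542094593) (nat_lit 1)) (.cons (.br (nat_lit 2) (nat_lit 0) (.cons (.ev (nat_lit 79538856449977636360458141953) (nat_lit 1)) (.cons (.ev (nat_lit 79537647524085965241052102913) (nat_lit 1)) .nil))) (.cons (.br (nat_lit 9) (nat_lit 1) (.cons (.kr (nat_lit 1208925819614633469673728) (nat_lit 4722366765444133552128) (nat_lit 1) (nat_lit 0)) (.cons (.ev (nat_lit 20282410817299856802925359661313) (nat_lit 1)) .nil))) .nil)))) (.cons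 (.br (nat_lit 2) (nat_lit 0) (.cons (.ev (nat_lit 79229371440083953326542094593) (nat_lit 1)) (.cons (.br (nat_lit 7) (nat_lit 0) (.cons (.zr (nat_lit 40802503694846133863973669437696) (nat_lit 313111805727214513541873665) (nat_lit 5) (nat_lit 0)) (.cons (.zr (nat_lit 81367322902149474708569636996096) (nat_lit 309494473001338555741569025) (nat_lit 5) (nat_lit 6)) .nil))) (.cons (.ev (nat_lit 79538861172271780161088716801) (nat_lit 1)) .nil)))) .nil))),
 (.br (nat_lit 11) (nat_lit 1) (.cons (.rf (nat_lit 3820) (nat_lit 493858305440582043680)) (.cons (.br (nat_lit 8) (nat_lit 1) (.cons (.br (nat_lit 4) (nat_lit 1) (.cons (.br (nat_lit 9) (nat_lit 1) (.cons (.ev (nat_lit 1213648186098602643357953) (nat_lit 1)) .nil)) (.cons (.ev (nat_lit 20361948460101647779932244279553) (nat_lit 1)) .nil))) (.cons (.rf (nat_lit 3469) (nat_lit 493679323637134493728)) .nil))) .nil))),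
 (.br (nat_lit 10) (nat_lit 1) (.cons (.rf (nat_lit 3815) (nat_lit 493858305440582043680)) (.cons (.br (nat_lit 11) (nat_lit 1) (.cons (.rf (nat_lit 3817) (nat_lit 493858305440582043680)) (.cons (.rf (nat_lit 3819) (nat_lit 493858305440582043680)) (.cons (.br (nat_lit 11) (nat_lit 1) (.cons (.rf (nat_lit 3817) (nat_lit 493858305440582043680)) (.cons (.rf (nat_lit 3819) (nat_lit 493858305440582043680)) .nil))) .nil)))) (.cons (.br (nat_lit 11) (nat_lit 1) (.cons (.rf (nat_lit 3820) (nat_lit 493858305440582043680)) (.cons (.rf (nat_lit 3821) (nat_lit 493858305440582043680)) (.cons (.br (nat_lit 11) (nat_lit 1) (.cons (.rf (nat_lit 3820) (nat_lit 493858305440582043680)) (.cons (.rf (nat_lit 3821) (nat_lit 493858305440582043680)) .nil))) .nil)))) .nil)))),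
 (.br (nat_lit 13) (nat_lit 0) (.cons (.br (nat_lit 2) (nat_lit 0) (.cons (.ev (nat_lit 20282410817299856521450366173441) (nat_lit 1)) (.cons (.br (nat_lit 5) (nat_lit 0) (.cons (.ev (nat_lit 20361637770906748271062933373185) (nat_lit 1)) (.cons (.ev (nat_lit 79537647542532427835506688001) (nat_lit 1)) .nil))) .nil))) (.cons (.br (nat_lit 2) (nat_lit 0) (.cons (.br (nat_lit 7) (nat_lit 0) (.cons (.br (nat_lit 11) (nat_lit 1) (.cons (.ev (nat_lit 20998570033971451728040768899336) (nat_lit 4)) .nil)) .nil)) (.cons (.ev (nat_lit 79228167236631101938182717441) (nat_lit 1)) .nil))) (.cons (.br (nat_lit 11) (nat_lit 1) (.cons (.br (nat_lit 9) (nat_lit 1) (.cons (.rf (nat_lit 3769) (nat_lit 493820093011328075808)) (.cons (.br (nat_lit 5) (nat_lit 0) (.cons (.ev (nat_lit 309489750634573111607951361) (nat_lit 1)) .nil)) .nil))) (.cons (.br (nat_lit 8) (nat_lit 1) (.cons (.ev (nat_lit 79537647542532427835506688001) (nat_lit 1)) (.cons (.rf (nat_lit 3651) (nat_lit 493675982226662197280)) .nil)))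 (.cons (.br (nat_lit 9) (nat_lit 1) (.cons (.br (nat_lit 5) (nat_lit 0) (.cons (.ev (nat_lit 309489750634573111607951361) (nat_lit 1)) .nil)) (.cons (.br (nat_lit 8) (nat_lit 1) (.cons (.ev (nat_lit 1213666632842672057876481) (nat_lit 1)) .nil)) .nil))) .nil)))) .nil)))),
 (.br (nat_lit 2) (nat_lit 0) (.cons (.rf (nat_lit 3823) (nat_lit 493858305440582043680)) (.cons (.br (nat_lit 7) (nat_lit 0) (.cons (.ev (nat_lit 79228162532783139265603174401) (nat_lit 1)) (.cons (.br (nat_lit 4) (nat_lit 1) (.cons (.br (nat_lit 13) (nat_lit 0) (.cons (.ev (nat_lit 311912343303202099704103426) (nat_lit 2)) .nil)) (.cons (.br (nat_lit 11) (nat_lit 1) (.cons (.ev (nat_lit 20996084482486326302257520904456) (nat_lit 4)) .nil)) .nil))) .nil))) (.cons (.br (nat_lit 4) (nat_lit 1) (.cons (.br (nat_lit 9) (nat_lit 1) (.cons (.br (nat_lit 13) (nat_lit 0) (.cons (.ev (nat_lit 79848346219202787263152914946) (nat_lit 2)) .nil)) (.cons (.ev (nat_lit 20361637770906748271062933373185) (nat_lit 1)) .nil))) (.cons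 (.ev (nat_lit 79228162532783139265603174401) (nat_lit 1)) (.cons (.br (nat_lit 9) (nat_lit 1) (.cons (.ev (nat_lit 1213666632842672057876481) (nat_lit 1)) (.cons (.br (nat_lit 5) (nat_lit 0) (.cons (.ev (nat_lit 20837637828900524632739106457864) (nat_lit 4)) .nil)) .nil))) .nil)))) .nil)))),
 (.br (nat_lit 5) (nat_lit 0) (.cons (.ev (nat_lit 4740885566016664371201) (nat_lit 1)) .nil)),
 (.br (nat_lit 4) (nat_lit 1) (.cons (.rf (nat_lit 3769) (nat_lit 493820093016691542048)) (.cons (.ev (nat_lit 20361638975091754376174264910081) (nat_lit 1)) .nil))),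
 (.br (nat_lit 2) (nat_lit 0) (.cons (.rf (nat_lit 3823) (nat_lit 493858305440582043680)) (.cons (.rf (nat_lit 3824) (nat_lit 493858305440582043680)) (.cons (.br (nat_lit 11) (nat_lit 1) (.cons (.br (nat_lit 13) (nat_lit 0) (.cons (.br (nat_lit 7) (nat_lit 0) (.cons (.ev (nat_lit 158457538695306198204821996034) (nat_lit 2)) .nil)) (.cons (.ev (nat_lit 79537647542532427835506688001) (nat_lit 1)) .nil))) (.cons (.br (nat_lit 13) (nat_lit 0) (.cons (.rf (nat_lit 3825) (nat_lit 493858305440582043680)) (.cons (.br (nat_lit 4) (nat_lit 1) (.cons (.ev (nat_lit 4740885566016664371201) (nat_lit 1)) .nil)) .nil))) (.cons (.rf (nat_lit 3826) (nat_lit 493858305440582043680)) .nil)))) .nil)))),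
 (.br (nat_lit 10) (nat_lit 1) (.cons (.rf (nat_lit 3815) (nat_lit 493858305440582043680)) (.cons (.rf (nat_lit 3822) (nat_lit 493858305440582043680)) (.cons (.br (nat_lit 2) (nat_lit 0) (.cons (.rf (nat_lit 3823) (nat_lit 493858305440582043680)) (.cons (.rf (nat_lit 3824) (nat_lit 493858305440582043680)) (.cons (.rf (nat_lit 3827) (nat_lit 493858305440582043680)) (.cons (.br (nat_lit 2) (nat_lit 0) (.cons (.rf (nat_lit 3823) (nat_lit 493858305440582043680)) (.cons (.rf (nat_lit 3824) (nat_lit 493858305440582043680)) (.cons (.rf (nat_lit 3827) (nat_lit 493858305440582043680)) .nil)))) .nil))))) .nil)))),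
 (.br (nat_lit 6) (nat_lit 1) (.cons (.rf (nat_lit 3419) (nat_lit 493787200025760303136)) (.cons (.br (nat_lit 11) (nat_lit 1) (.cons (.rf (nat_lit 3787) (nat_lit 493858305440582043680)) (.cons (.rf (nat_lit 3789) (nat_lit 493858305440582043680)) (.cons (.br (nat_lit 11) (nat_lit 1) (.cons (.rf (nat_lit 3787) (nat_lit 493858305440582043680)) (.cons (.rf (nat_lit 3789) (nat_lit 493858305440582043680)) .nil))) .nil)))) (.cons (.rf (nat_lit 3806) (nat_lit 493858305440582043680)) (.cons (.br (nat_lit 10) (nat_lit 1) (.cons (.rf (nat_lit 3815) (nat_lit 493858305440582043680)) (.cons (.rf (nat_lit 3822) (nat_lit 493858305440582043680)) (.cons (.rf (nat_lit 3828) (nat_lit 493858305440582043680)) (.cons (.br (nat_lit 10) (nat_lit 1) (.cons (.rf (nat_lit 3815) (nat_lit 493858305440582043680)) (.cons (.rf (nat_lit 3822) (nat_lit 493858305440582043680)) (.cons (.rf (nat_lit 3828) (nat_lit 493858305440582043680)) .nil)))) .nil))))) .nil))))),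
 (.br (nat_lit 9) (nat_lit 1) (.cons (.rf (nat_lit 3431) (nat_lit 493823298087721994272)) .nil)),
 (.br (nat_lit 11) (nat_lit 1) (.cons (.rf (nat_lit 3830) (nat_lit 493858305440582043680)) (.cons (.br (nat_lit 8) (nat_lit 1) (.cons (.br (nat_lit 13) (nat_lit 0) (.cons (.zr (nat_lit 158456325028672792574187077888) (nat_lit 1208962713384260160454657) (nat_lit 5) (nat_lit 0)) (.cons (.zr (nat_lit 79537647560979171909216370688) (nat_lit 1218370624919437479772417) (nat_lit 5) (nat_lit 6)) .nil))) (.cons (.rf (nat_lit 3784) (nat_lit 457822648505293146144)) .nil))) .nil))),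
 (.br (nat_lit 9) (nat_lit 1) (.cons (.ev (nat_lit 4722438540463699984641) (nat_lit 1)) (.cons (.br (nat_lit 11) (nat_lit 1) (.cons (.rf (nat_lit 3830) (nat_lit 493858305440582043680)) (.cons (.br (nat_lit 8) (nat_lit 1) (.cons (.rf (nat_lit 3435) (nat_lit 493823298087721994272)) (.cons (.ev (nat_lit 20361948464823942486682828275713) (nat_lit 1)) .nil))) .nil))) .nil)))]

theorem c138 : chkAll C T R L138 (nat_lit 3809) = true := by decide +kernel

theorem l138 : (nat_lit 3809) + L138.length = (nat_lit 3833) := by decide +kernel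

/-- part of the certificates -/
def L139 : List Prf := [(.br (nat_lit 11) (nat_lit 1) (.cons (.br (nat_lit 9) (nat_lit 1) (.cons (.br (nat_lit 4) (nat_lit 1) (.cons (.br (nat_lit 13) (nat_lit 0) (.cons (.ev (nat_lit 79540074839048740228869193730) (nat_lit 2)) .nil)) .nil)) (.cons (.rf (nat_lit 3784) (nat_lit 457824828835778364480)) .nil))) (.cons (.br (nat_lit 8) (nat_lit 1) (.cons (.br (nat_lit 13) (nat_lit 0) (.cons (.ev (nat_lit 40644359272697512504996982358530) (nat_lit 2)) (.cons (.ev (nat_lit 40644978252161888163064122114050) (nat_lit 2)) .nil))) (.cons (.br (nat_lit 7) (nat_lit 0) (.cons (.zr (nat_lit 60847228810955011271854638956544) (nat_lit 158765810056796765429050638593) (nat_lit 5) (nat_lit 11)) (.cons (.zr (nat_lit 20520095300120283332832034619392) (nat_lit 309494473001054881741537281) (nat_lit 5) (nat_lit 8)) .nil))) .nil))) .nil))),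
 (.br (nat_lit 11) (nat_lit 1) (.cons (.rf (nat_lit 3833) (nat_lit 493858305440582043680)) (.cons (.br (nat_lit 13) (nat_lit 0) (.cons (.br (nat_lit 9) (nat_lit 1) (.cons (.br (nat_lit 7) (nat_lit 0) (.cons (.zr (nat_lit 237684492265159500048323576320) (nat_lit 309485028268652105289433089) (nat_lit 5) (nat_lit 0)) .nil)) (.cons (.br (nat_lit 8) (nat_lit 1) (.cons (.ev (nat_lit 311917047150885504970457090) (nat_lit 2)) .nil)) .nil))) (.cons (.br (nat_lit 2) (nat_lit 0) (.cons (.br (nat_lit 9) (nat_lit 1) (.cons (.ev (nat_lit 20837628148049667656298822566148) (nat_lit 3)) .nil)) (.cons (.br (nat_lit 4) (nat_lit 1) (.cons (.ev (nat_lit 20837628129233699349219888268548) (nat_lit 3)) .nil)) .nil))) (.cons (.br (nat_lit 4) (nat_lit 1) (.cons (.br (nat_lit 7) (nat_lit 0) (.cons (.zr (nat_lit 237685696468613190359759978752) (nat_lit 309485028268089151041044481) (nat_lit 5) (nat_lit 8)) .nil)) (.cons (.br (nat_lit 8) (nat_lit 1) (.cons (.ev (nat_lit 310693991125590794039395074) (nat_lit 2)) .nil))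 .nil))) .nil)))) .nil))),
 (.br (nat_lit 10) (nat_lit 1) (.cons (.rf (nat_lit 3419) (nat_lit 493563215216757770272)) (.cons (.br (nat_lit 11) (nat_lit 1) (.cons (.rf (nat_lit 3831) (nat_lit 493858305440582043680)) (.cons (.rf (nat_lit 3832) (nat_lit 493858305440582043680)) (.cons (.br (nat_lit 11) (nat_lit 1) (.cons (.rf (nat_lit 3831) (nat_lit 493858305440582043680)) (.cons (.rf (nat_lit 3832) (nat_lit 493858305440582043680)) .nil))) .nil)))) (.cons (.br (nat_lit 11) (nat_lit 1) (.cons (.rf (nat_lit 3833) (nat_lit 493858305440582043680)) (.cons (.rf (nat_lit 3834) (nat_lit 493858305440582043680)) (.cons (.br (nat_lit 11) (nat_lit 1) (.cons (.rf (nat_lit 3833) (nat_lit 493858305440582043680)) (.cons (.rf (nat_lit 3834) (nat_lit 493858305440582043680)) .nil))) .nil)))) .nil)))),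
 (.br (nat_lit 9) (nat_lit 1) (.cons (.br (nat_lit 11) (nat_lit 1) (.cons (.br (nat_lit 8) (nat_lit 1) (.cons (.ev (nat_lit 79537647542532426735995060481) (nat_lit 1)) .nil)) .nil)) (.cons (.br (nat_lit 4) (nat_lit 1) (.cons (.br (nat_lit 8) (nat_lit 1) (.cons (.br (nat_lit 11) (nat_lit 1) (.cons (.ev (nat_lit 79537647542532426735995060481) (nat_lit 1)) .nil)) .nil)) (.cons (.ev (nat_lit 1213648186378978091663361) (nat_lit 1)) .nil))) .nil))),
 (.br (nat_lit 11) (nat_lit 1) (.cons (.rf (nat_lit 3836) (nat_lit 14242959524133701664)) (.cons (.br (nat_lit 8) (nat_lit 1) (.cons (.rf (nat_lit 3012) (nat_lit 493857210323649631296)) (.cons (.rf (nat_lit 3784) (nat_lit 457822648505293145152)) .nil))) .nil))),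
 (.br (nat_lit 4) (nat_lit 1) (.cons (.ev (nat_lit 4722366482873940181249) (nat_lit 1)) (.cons (.ev (nat_lit 1213648186378978091663361) (nat_lit 1)) .nil))),
 (.br (nat_lit 11) (nat_lit 1) (.cons (.br (nat_lit 9) (nat_lit 1) (.cons (.rf (nat_lit 3838) (nat_lit 493858305440582043680)) (.cons (.rf (nat_lit 3784) (nat_lit 457824828835778365472)) .nil))) (.cons (.br (nat_lit 8) (nat_lit 1) (.cons (.br (nat_lit 13) (nat_lit 0) (.cons (.br (nat_lit 7) (nat_lit 0) (.cons (.ev (nat_lit 1213648186378978091663361) (nat_lit 1)) .nil)) (.cons (.br (nat_lit 7) (nat_lit 0) (.cons (.ev (nat_lit 1213648186378978091663361) (nat_lit 1)) .nil)) .nil))) (.cons (.ev (nat_lit 79537647542532426735995060481) (nat_lit 1)) .nil))) .nil))),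
 (.br (nat_lit 11) (nat_lit 1) (.cons (.rf (nat_lit 3839) (nat_lit 493858305440582043680)) (.cons (.br (nat_lit 4) (nat_lit 1) (.cons (.br (nat_lit 9) (nat_lit 1) (.cons (.ev (nat_lit 1208925891954802012782593) (nat_lit 1)) (.cons (.br (nat_lit 7) (nat_lit 0) (.cons (.ev (nat_lit 20837625739679655450457025873156) (nat_lit 3)) .nil)) .nil))) (.cons (.ev (nat_lit 309485009893403766569369601) (nat_lit 1)) (.cons (.br (nat_lit 7) (nat_lit 0) (.cons (.ev (nat_lit 20361947251194202850683229634561) (nat_lit 1)) (.cons (.ev (nat_lit 1213648186378978091663361) (nat_lit 1)) .nil))) .nil)))) .nil))),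
 (.br (nat_lit 10) (nat_lit 1) (.cons (.rf (nat_lit 3419) (nat_lit 493563215216757770272)) (.cons (.br (nat_lit 11) (nat_lit 1) (.cons (.rf (nat_lit 3836) (nat_lit 14242959524133701664)) (.cons (.rf (nat_lit 3837) (nat_lit 493858305440582043680)) (.cons (.br (nat_lit 11) (nat_lit 1) (.cons (.rf (nat_lit 3836) (nat_lit 14242959524133701664)) (.cons (.rf (nat_lit 3837) (nat_lit 493858305440582043680)) .nil))) .nil)))) (.cons (.br (nat_lit 11) (nat_lit 1) (.cons (.rf (nat_lit 3839) (nat_lit 493858305440582043680)) (.cons (.rf (nat_lit 3840) (nat_lit 493858305440582043680)) (.cons (.br (nat_lit 11) (nat_lit 1) (.cons (.rf (nat_lit 3839) (nat_lit 493858305440582043680)) (.cons (.rf (nat_lit 3840) (nat_lit 493858305440582043680)) .nil))) .nil)))) .nil)))),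
 (.br (nat_lit 11) (nat_lit 1) (.cons (.rf (nat_lit 3419) (nat_lit 493565395547242989600)) (.cons (.br (nat_lit 9) (nat_lit 1) (.cons (.ev (nat_lit 79538861172271781260600344833) (nat_lit 1)) (.cons (.rf (nat_lit 3784) (nat_lit 457824828835778365472)) .nil))) (.cons (.br (nat_lit 8) (nat_lit 1) (.cons (.br (nat_lit 4) (nat_lit 1) (.cons (.ev (nat_lit 79228162532783139265603174401) (nat_lit 1)) (.cons (.br (nat_lit 7) (nat_lit 0) (.cons (.ev (nat_lit 20837625720753007233115430781700) (nat_lit 3)) .nil)) .nil))) (.cons (.br (nat_lit 9) (nat_lit 1) (.cons (.br (nat_lit 13) (nat_lit 0) (.cons (.ev (nat_lit 475989168216883882593800618500) (nat_lit 3)) .nil)) (.cons (.ev (nat_lit 20282409608374109245885927915521) (nat_lit 1)) .nil))) (.cons (.ev (nat_lit 79537647542532426735995060481) (nat_lit 1)) .nil)))) .nil)))),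
 (.br (nat_lit 11) (nat_lit 1) (.cons (.rf (nat_lit 3419) (nat_lit 493565395547242989600)) (.cons (.br (nat_lit 9) (nat_lit 1) (.cons (.ev (nat_lit 79538861172271781260600344833) (nat_lit 1)) (.cons (.rf (nat_lit 3784) (nat_lit 457824828835778364480)) .nil))) (.cons (.br (nat_lit 13) (nat_lit 0) (.cons (.br (nat_lit 9) (nat_lit 1) (.cons (.br (nat_lit 8) (nat_lit 1) (.cons (.ev (nat_lit 80775616026986530470443156996) (nat_lit 3)) .nil)) (.cons (.br (nat_lit 8) (nat_lit 1) (.cons (.ev (nat_lit 20837625720753007233115430781700) (nat_lit 3)) .nil)) .nil))) (.cons (.br (nat_lit 1) (nat_lit 0) (.cons (.rf (nat_lit 3657) (nat_lit 493857210323783844928)) (.cons (.ev (nat_lit 1213666632841572546248961) (nat_lit 1)) .nil))) (.cons (.br (nat_lit 1) (nat_lit 0) (.cons (.ev (nat_lit 79228167236631103037694345473) (nat_lit 1)) (.cons (.br (nat_lit 7) (nat_lit 0) (.cons (.ev (nat_lit 20362259182371633445309767812868) (nat_lit 3)) .nil)) .nil))) .nil)))) .nil)))),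
 (.br (nat_lit 11) (nat_lit 1) (.cons (.rf (nat_lit 3842) (nat_lit 493858305440582043680)) (.cons (.rf (nat_lit 3843) (nat_lit 493858305440582043680)) (.cons (.br (nat_lit 9) (nat_lit 1) (.cons (.br (nat_lit 13) (nat_lit 0) (.cons (.br (nat_lit 8) (nat_lit 1) (.cons (.ev (nat_lit 20837625720753007233115430781700) (nat_lit 3)) .nil)) (.cons (.ev (nat_lit 1213666632841572546248961) (nat_lit 1)) .nil))) (.cons (.br (nat_lit 8) (nat_lit 1) (.cons (.br (nat_lit 13) (nat_lit 0) (.cons (.ev (nat_lit 20837625720753007233115430781700) (nat_lit 3)) .nil)) (.cons (.ev (nat_lit 20361947255916641673721401114625) (nat_lit 1)) .nil))) (.cons (.br (nat_lit 8) (nat_lit 1) (.cons (.ev (nat_lit 309489750634572012096323841) (nat_lit 1)) (.cons (.ev (nat_lit 20361947255916641673721401114625) (nat_lit 1)) .nil))) .nil)))) .nil)))),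
 (.br (nat_lit 10) (nat_lit 1) (.cons (.rf (nat_lit 3835) (nat_lit 493858305440582043680)) (.cons (.rf (nat_lit 3841) (nat_lit 493858305440582043680)) (.cons (.br (nat_lit 11) (nat_lit 1) (.cons (.rf (nat_lit 3842) (nat_lit 493858305440582043680)) (.cons (.rf (nat_lit 3843) (nat_lit 493858305440582043680)) (.cons (.rf (nat_lit 3844) (nat_lit 493858305440582043680)) (.cons (.br (nat_lit 11) (nat_lit 1) (.cons (.rf (nat_lit 3842) (nat_lit 493858305440582043680)) (.cons (.rf (nat_lit 3843) (nat_lit 493858305440582043680)) (.cons (.rf (nat_lit 3844) (nat_lit 493858305440582043680)) .nil)))) .nil))))) .nil)))),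
 (.br (nat_lit 1) (nat_lit 0) (.cons (.ev (nat_lit 4740813509517859946753) (nat_lit 1)) (.cons (.rf (nat_lit 3419) (nat_lit 493565395547242989600)) .nil))),
 (.br (nat_lit 2) (nat_lit 0) (.cons (.br (nat_lit 1) (nat_lit 0) (.cons (.zr (nat_lit 72621643536532736) (nat_lit 79537647524085682662269059074) (nat_lit 10) (nat_lit 3)) .nil)) .nil)),
 (.br (nat_lit 1) (nat_lit 0) (.cons (.br (nat_lit 7) (nat_lit 0) (.cons (.zr (nat_lit 309485009821628742741524736) (nat_lit 158456325028600732781125894145) (nat_lit 5) (nat_lit 3)) .nil)) .nil)),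
 (.br (nat_lit 5) (nat_lit 0) (.cons (.br (nat_lit 13) (nat_lit 0) (.cons (.br (nat_lit 2) (nat_lit 0) (.cons (.ev (nat_lit 1213648186378978091663361) (nat_lit 1)) (.cons (.rf (nat_lit 3846) (nat_lit 493858305440582043680)) .nil))) (.cons (.br (nat_lit 11) (nat_lit 1) (.cons (.ev (nat_lit 79537647542532426735995060481) (nat_lit 1)) (.cons (.rf (nat_lit 3846) (nat_lit 493858305440582043680)) (.cons (.rf (nat_lit 3847) (nat_lit 15433035725666355232)) .nil)))) .nil))) (.cons (.br (nat_lit 2) (nat_lit 0) (.cons (.br (nat_lit 13) (nat_lit 0) (.cons (.rf (nat_lit 3848) (nat_lit 15431909825759512608)) (.cons (.br (nat_lit 11) (nat_lit 1) (.cons (.ev (nat_lit 79537647542532426735995060481) (nat_lit 1)) (.cons (.br (nat_lit 10) (nat_lit 1) (.cons (.ev (nat_lit 79537661746525366795213340930) (nat_lit 2)) .nil)) .nil))) .nil))) (.cons (.br (nat_lit 13) (nat_lit 0) (.cons (.ev (nat_lit 1213648186378978091663361) (nat_lit 1)) (.cons (.br (nat_lit 11) (nat_lit 1) (.cons (.ev (nat_lit 79537647542532426735995060481)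 (nat_lit 1)) (.cons (.br (nat_lit 1) (nat_lit 0) (.cons (.ev (nat_lit 20680424260836351359640945756936) (nat_lit 4)) .nil)) .nil))) .nil))) (.cons (.br (nat_lit 1) (nat_lit 0) (.cons (.rf (nat_lit 3493) (nat_lit 493678232925890512928)) (.cons (.rf (nat_lit 3421) (nat_lit 493817844514338998304)) (.cons (.rf (nat_lit 2725) (nat_lit 493676826650518849568)) .nil)))) .nil)))) (.cons (.br (nat_lit 2) (nat_lit 0) (.cons (.br (nat_lit 13) (nat_lit 0) (.cons (.br (nat_lit 10) (nat_lit 1) (.cons (.br (nat_lit 7) (nat_lit 0) (.cons (.ev (nat_lit 20362256773965017674936121363720) (nat_lit 4)) .nil)) (.cons (.ev (nat_lit 20361638975091754658748770025473) (nat_lit 1)) .nil))) (.cons (.rf (nat_lit 3848) (nat_lit 15433035725666355232)) .nil))) (.cons (.br (nat_lit 1) (nat_lit 0) (.cons (.rf (nat_lit 3493) (nat_lit 493679323641425266720)) (.cons (.rf (nat_lit 2725) (nat_lit 493676827750030444576)) (.cons (.rf (nat_lit 3421) (nat_lit 493853838126985873440)) .nil)))) (.cons (.ev (nat_lit 79537647542532427835506688001)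 (nat_lit 1)) .nil)))) .nil)))),
 (.br (nat_lit 2) (nat_lit 0) (.cons (.br (nat_lit 5) (nat_lit 0) (.cons (.ev (nat_lit 1213648186378978091663361) (nat_lit 1)) .nil)) .nil)),
 (.br (nat_lit 13) (nat_lit 0) (.cons (.rf (nat_lit 3849) (nat_lit 493858305440582043680)) (.cons (.br (nat_lit 5) (nat_lit 0) (.cons (.br (nat_lit 7) (nat_lit 0) (.cons (.br (nat_lit 2) (nat_lit 0) (.cons (.br (nat_lit 11) (nat_lit 1) (.cons (.ev (nat_lit 20837014023178035264508765078788) (nat_lit 3)) .nil)) .nil)) (.cons (.br (nat_lit 11) (nat_lit 1) (.cons (.rf (nat_lit 3784) (nat_lit 457824828835778365472)) (.cons (.ev (nat_lit 309489750634573111607951361) (nat_lit 1)) .nil))) .nil))) (.cons (.br (nat_lit 7) (nat_lit 0) (.cons (.rf (nat_lit 3502) (nat_lit 15427442507872569376)) (.cons (.br (nat_lit 1) (nat_lit 0) (.cons (.rf (nat_lit 3497) (nat_lit 457827328025702892608)) (.cons (.rf (nat_lit 3784) (nat_lit 457824828835778365472)) .nil))) .nil))) (.cons (.br (nat_lit 10) (nat_lit 1) (.cons (.br (nat_lit 8) (nat_lit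 1) (.cons (.br (nat_lit 7) (nat_lit 0) (.cons (.ev (nat_lit 158769436834256452646288425730) (nat_lit 2)) .nil)) (.cons (.ev (nat_lit 20361638979814193198112924762113) (nat_lit 1)) .nil))) (.cons (.rf (nat_lit 3497) (nat_lit 493678232925890512928)) (.cons (.br (nat_lit 8) (nat_lit 1) (.cons (.br (nat_lit 2) (nat_lit 0) (.cons (.ev (nat_lit 20521953428623767984828592882436) (nat_lit 3)) .nil)) (.cons (.ev (nat_lit 79228167255149904705425047553) (nat_lit 1)) .nil))) .nil)))) .nil)))) (.cons (.br (nat_lit 7) (nat_lit 0) (.cons (.br (nat_lit 11) (nat_lit 1) (.cons (.rf (nat_lit 3850) (nat_lit 493858305440582043680)) (.cons (.kr (nat_lit 20282409603670117168025255870464) (nat_lit 309489732259885532424699904) (nat_lit 2) (nat_lit 0)) (.cons (.rf (nat_lit 3502) (nat_lit 15427477692244658208)) .nil)))) (.cons (.br (nat_lit 1) (nat_lit 0) (.cons (.rf (nat_lit 3497) (nat_lit 457827292842404545600)) (.cons (.ev (nat_lit 20282410812577562377649735598081) (nat_lit 1)) (.cons (.br (nat_lit 5) (nat_lit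 0) (.cons (.br (nat_lit 10) (nat_lit 1) (.cons (.ev (nat_lit 20521958273956679753929222590216) (nat_lit 4)) .nil)) (.cons (.ev (nat_lit 79538861172343838858949951745) (nat_lit 1)) .nil))) .nil)))) (.cons (.br (nat_lit 10) (nat_lit 1) (.cons (.br (nat_lit 2) (nat_lit 0) (.cons (.ev (nat_lit 309485009893684142051229953) (nat_lit 1)) (.cons (.rf (nat_lit 3419) (nat_lit 493563215216757770272)) .nil))) (.cons (.rf (nat_lit 2637) (nat_lit 458009549983621157920)) (.cons (.ev (nat_lit 20361947251175756389188320100353) (nat_lit 1)) .nil)))) .nil)))) .nil)))),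
 (.br (nat_lit 13) (nat_lit 0) (.cons (.rf (nat_lit 3849) (nat_lit 493858305440582043680)) (.cons (.rf (nat_lit 3851) (nat_lit 493858305440582043680)) (.cons (.br (nat_lit 1) (nat_lit 0) (.cons (.br (nat_lit 9) (nat_lit 1) (.cons (.br (nat_lit 7) (nat_lit 0) (.cons (.br (nat_lit 11) (nat_lit 1) (.cons (.ev (nat_lit 310693954160042840623743233) (nat_lit 1)) .nil)) (.cons (.br (nat_lit 5) (nat_lit 0) (.cons (.ev (nat_lit 21787781035162201741623344696592) (nat_lit 5)) .nil)) .nil))) (.cons (.ev (nat_lit 20282409608392483933465094389761) (nat_lit 1)) (.cons (.rf (nat_lit 3577) (nat_lit 458037767954189452352)) .nil)))) (.cons (.br (nat_lit 7) (nat_lit 0) (.cons (.rf (nat_lit 3577) (nat_lit 458001774341542577216)) (.cons (.br (nat_lit 8) (nat_lit 1) (.cons (.br (nat_lit 5) (nat_lit 0) (.cons (.ev (nat_lit 79537647542532427835506688001) (nat_lit 1)) .nil)) (.cons (.ev (nat_lit 20361638975091754658748770025473) (nat_lit 1)) .nil))) (.cons (.br (nat_lit 10) (nat_lit 1) (.cons (.br (nat_lit 5)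 (nat_lit 0) (.cons (.zr (nat_lit 237686905394648414821128602368) (nat_lit 309503917735146525216997377) (nat_lit 5) (nat_lit 0)) .nil)) (.cons (.br (nat_lit 2) (nat_lit 0) (.cons (.ev (nat_lit 79850773478466167950918353410) (nat_lit 2)) .nil)) .nil))) .nil)))) (.cons (.br (nat_lit 2) (nat_lit 0) (.cons (.br (nat_lit 11) (nat_lit 1) (.cons (.ev (nat_lit 79537647542532427835506688001) (nat_lit 1)) (.cons (.ev (nat_lit 309485009893684142051229953) (nat_lit 1)) .nil))) (.cons (.br (nat_lit 8) (nat_lit 1) (.cons (.br (nat_lit 11) (nat_lit 1) (.cons (.ev (nat_lit 309489750634573111607951361) (nat_lit 1)) .nil)) (.cons (.br (nat_lit 5) (nat_lit 0) (.cons (.ev (nat_lit 310693954160042840623743233) (nat_lit 1)) .nil)) .nil))) (.cons (.br (nat_lit 8) (nat_lit 1) (.cons (.br (nat_lit 7) (nat_lit 0) (.cons (.ev (nat_lit 309489750634573111607951361) (nat_lit 1)) .nil)) (.cons (.ev (nat_lit 20282720297587383441243483734273) (nat_lit 1)) .nil))) .nil)))) (.cons (.br (nat_lit 2) (nat_lit 0) (.cons (.br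 (nat_lit 10) (nat_lit 1) (.cons (.rf (nat_lit 3506) (nat_lit 493679323637134493728)) (.cons (.br (nat_lit 9) (nat_lit 1) (.cons (.ev (nat_lit 1213666632842672057876481) (nat_lit 1)) .nil)) .nil))) (.cons (.br (nat_lit 10) (nat_lit 1) (.cons (.br (nat_lit 8) (nat_lit 1) (.cons (.ev (nat_lit 159077712918258186384373383170) (nat_lit 2)) .nil)) (.cons (.ev (nat_lit 1208925891953702501155073) (nat_lit 1)) .nil))) (.cons (.br (nat_lit 7) (nat_lit 0) (.cons (.ev (nat_lit 79538856468352322840146542593) (nat_lit 1)) (.cons (.rf (nat_lit 3505) (nat_lit 493679323637134493728)) .nil))) .nil)))) .nil))))) .nil)))),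
 (.br (nat_lit 13) (nat_lit 0) (.cons (.rf (nat_lit 3849) (nat_lit 493858305440582043680)) (.cons (.rf (nat_lit 3851) (nat_lit 493858305440582043680)) (.cons (.rf (nat_lit 3852) (nat_lit 493858305440582043680)) (.cons (.br (nat_lit 13) (nat_lit 0) (.cons (.rf (nat_lit 3849) (nat_lit 493858305440582043680)) (.cons (.rf (nat_lit 3851) (nat_lit 493858305440582043680)) (.cons (.rf (nat_lit 3852) (nat_lit 493858305440582043680)) .nil)))) .nil)))))]

theorem c139 : chkAll C T R L139 (nat_lit 3833) = true := by decide +kernel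

theorem l139 : (nat_lit 3833) + L139.length = (nat_lit 3854) := by decide +kernel

/-- part of the certificates -/
def L140 : List Prf := [(.br (nat_lit 13) (nat_lit 0) (.cons (.rf (nat_lit 3853) (nat_lit 493858305440582043680)) (.cons (.br (nat_lit 7) (nat_lit 0) (.cons (.br (nat_lit 1) (nat_lit 0) (.cons (.br (nat_lit 5) (nat_lit 0) (.cons (.br (nat_lit 11) (nat_lit 1) (.cons (.ev (nat_lit 79537647542532427835506688001) (nat_lit 1)) .nil)) .nil)) (.cons (.rf (nat_lit 3679) (nat_lit 457828448428055790656)) .nil))) (.cons (.br (nat_lit 1) (nat_lit 0) (.cons (.ev (nat_lit 20282412031003527529308360802306) (nat_lit 2)) (.cons (.br (nat_lit 11) (nat_lit 1) (.cons (.rf (nat_lit 3419) (nat_lit 493565395547242989600)) (.cons (.br (nat_lit 2) (nat_lit 0) (.cons (.ev (nat_lit 309485009893402667057742081) (nat_lit 1)) .nil)) .nil))) .nil))) (.cons (.br (nat_lit 1) (nat_lit 0) (.cons (.rf (nat_lit 3497) (nat_lit 457822824426079716416)) (.cons (.br (nat_lit 2) (nat_lit 0) (.cons (.br (nat_lit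 5) (nat_lit 0) (.cons (.ev (nat_lit 20361642630277561071489799096068) (nat_lit 3)) .nil)) (.cons (.ev (nat_lit 20361948464842461005776087416833) (nat_lit 1)) .nil))) (.cons (.rf (nat_lit 3784) (nat_lit 457824828835778365472)) .nil)))) .nil)))) (.cons (.br (nat_lit 1) (nat_lit 0) (.cons (.br (nat_lit 7) (nat_lit 0) (.cons (.rf (nat_lit 3497) (nat_lit 457822789242781369408)) (.cons (.br (nat_lit 5) (nat_lit 0) (.cons (.br (nat_lit 10) (nat_lit 1) (.cons (.ev (nat_lit 21949948686899519345552242579216) (nat_lit 5)) .nil)) .nil)) .nil))) (.cons (.br (nat_lit 10) (nat_lit 1) (.cons (.rf (nat_lit 3419) (nat_lit 493563215216757770272)) (.cons (.br (nat_lit 11) (nat_lit 1) (.cons (.rf (nat_lit 3421) (nat_lit 493817844514338998304)) (.cons (.br (nat_lit 2) (nat_lit 0) (.cons (.ev (nat_lit 80159049617807849140932182274) (nat_lit 2)) .nil)) .nil))) (.cons (.rf (nat_lit 3784) (nat_lit 457822648505293146144)) .nil)))) (.cons (.ev (nat_lit 79537647542532426735995060481) (nat_lit 1)) .nil)))) .nil)))),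
 (.br (nat_lit 13) (nat_lit 0) (.cons (.rf (nat_lit 3853) (nat_lit 493858305440582043680)) (.cons (.rf (nat_lit 3854) (nat_lit 493858305440582043680)) (.cons (.br (nat_lit 11) (nat_lit 1) (.cons (.ev (nat_lit 79537647542532426735995060481) (nat_lit 1)) (.cons (.br (nat_lit 10) (nat_lit 1) (.cons (.br (nat_lit 9) (nat_lit 1) (.cons (.ev (nat_lit 4740813509517859946753) (nat_lit 1)) (.cons (.ev (nat_lit 20361948464842461005776087416833) (nat_lit 1)) .nil))) (.cons (.kr (nat_lit 1208925819614629174706176) (nat_lit 20282409603651670423947251286016) (nat_lit 10) (nat_lit 0)) (.cons (.br (nat_lit 9) (nat_lit 1) (.cons (.ev (nat_lit 1213666632841572546248961) (nat_lit 1)) (.cons (.ev (nat_lit 20361947255916641673721401114625) (nat_lit 1)) .nil))) .nil)))) (.cons (.br (nat_lit 10) (nat_lit 1) (.cons (.br (nat_lit 4) (nat_lit 1) (.cons (.ev (nat_lit 20361637766165934762644618674433) (nat_lit 1)) (.cons (.ev (nat_lit 310693935713298771209093121) (nat_lit 1)) .nil))) (.cons (.rf (nat_lit 3577)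 (nat_lit 493853838126985873440)) (.cons (.br (nat_lit 9) (nat_lit 1) (.cons (.ev (nat_lit 1213666632841572546248961) (nat_lit 1)) (.cons (.ev (nat_lit 20361947255916641673721401114625) (nat_lit 1)) .nil))) .nil)))) (.cons (.br (nat_lit 10) (nat_lit 1) (.cons (.br (nat_lit 2) (nat_lit 0) (.cons (.br (nat_lit 9) (nat_lit 1) (.cons (.ev (nat_lit 309489732187829042193432833) (nat_lit 1)) .nil)) (.cons (.zr (nat_lit 40723276741257689419185741955072) (nat_lit 618974760455917080821104641) (nat_lit 5) (nat_lit 8)) .nil))) (.cons (.br (nat_lit 9) (nat_lit 1) (.cons (.br (nat_lit 4) (nat_lit 1) (.cons (.zr (nat_lit 237686905394648414821128602368) (nat_lit 309503917735146525216997377) (nat_lit 5) (nat_lit 0)) .nil)) (.cons (.br (nat_lit 1) (nat_lit 0) (.cons (.ev (nat_lit 20838868496458677585967222949636) (nat_lit 3)) .nil)) .nil))) (.cons (.kr (nat_lit 1208925819614629174706176) (nat_lit 20282409603651670423947251286016) (nat_lit 10) (nat_lit 0)) .nil)))) .nil))))) .nil)))),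
 (.br (nat_lit 13) (nat_lit 0) (.cons (.rf (nat_lit 3853) (nat_lit 493858305440582043680)) (.cons (.rf (nat_lit 3854) (nat_lit 493858305440582043680)) (.cons (.rf (nat_lit 3855) (nat_lit 493858305440582043680)) (.cons (.br (nat_lit 13) (nat_lit 0) (.cons (.rf (nat_lit 3853) (nat_lit 493858305440582043680)) (.cons (.rf (nat_lit 3854) (nat_lit 493858305440582043680)) (.cons (.rf (nat_lit 3855) (nat_lit 493858305440582043680)) .nil)))) .nil))))),
 (.br (nat_lit 7) (nat_lit 0) (.cons (.ev (nat_lit 79538856449977354885498142721) (nat_lit 1)) (.cons (.ev (nat_lit 20282410812577562377649735598081) (nat_lit 1)) (.cons (.ev (nat_lit 20361948464842461005776087416833) (nat_lit 1)) .nil)))),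
 (.br (nat_lit 13) (nat_lit 0) (.cons (.rf (nat_lit 3853) (nat_lit 493858305440582043680)) (.cons (.rf (nat_lit 3856) (nat_lit 493858305440582043680)) (.cons (.br (nat_lit 11) (nat_lit 1) (.cons (.br (nat_lit 4) (nat_lit 1) (.cons (.br (nat_lit 10) (nat_lit 1) (.cons (.ev (nat_lit 79229371440083953326542094593) (nat_lit 1)) (.cons (.br (nat_lit 8) (nat_lit 1) (.cons (.ev (nat_lit 21472691425981854933179339442952) (nat_lit 4)) .nil)) .nil))) (.cons (.br (nat_lit 10) (nat_lit 1) (.cons (.ev (nat_lit 1213648186378978091663361) (nat_lit 1)) (.cons (.br (nat_lit 2) (nat_lit 0) (.cons (.ev (nat_lit 20837628157457217781995502241028) (nat_lit 3)) .nil)) .nil))) (.cons (.br (nat_lit 10) (nat_lit 1) (.cons (.br (nat_lit 8) (nat_lit 1) (.cons (.ev (nat_lit 21158254618298511687017183120136) (nat_lit 4)) .nil)) (.cons (.ev (nat_lit 310693935713298771209093121) (nat_lit 1)) .nil))) .nil)))) (.cons (.br (nat_lit 10) (nat_lit 1) (.cons (.rf (nat_lit 3857) (nat_lit 493858305440582043680)) (.cons (.rf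 (nat_lit 3577) (nat_lit 493817844514338998304)) (.cons (.br (nat_lit 5) (nat_lit 0) (.cons (.ev (nat_lit 20282409603651742482645095874561) (nat_lit 1)) (.cons (.ev (nat_lit 20361947255916641673721401114625) (nat_lit 1)) .nil))) .nil)))) (.cons (.kr (nat_lit 309485009821345068724781056) (nat_lit 20282409603651670423947251286016) (nat_lit 11) (nat_lit 0)) (.cons (.br (nat_lit 8) (nat_lit 1) (.cons (.ev (nat_lit 309489750634572012096323841) (nat_lit 1)) (.cons (.br (nat_lit 5) (nat_lit 0) (.cons (.br (nat_lit 10) (nat_lit 1) (.cons (.ev (nat_lit 158769436834256452646288425730) (nat_lit 2)) .nil)) (.cons (.ev (nat_lit 79228167255149904705425047553) (nat_lit 1)) .nil))) (.cons (.br (nat_lit 4) (nat_lit 1) (.cons (.br (nat_lit 2) (nat_lit 0) (.cons (.ev (nat_lit 20678550425741872910366834624260) (nat_lit 3)) .nil)) (.cons (.zr (nat_lit 20361637766166078878932189446144) (nat_lit 14185546755632615391233) (nat_lit 5) (nat_lit 0)) .nil))) .nil)))) .nil))))) .nil)))),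
 (.br (nat_lit 13) (nat_lit 0) (.cons (.rf (nat_lit 3853) (nat_lit 493858305440582043680)) (.cons (.rf (nat_lit 3856) (nat_lit 493858305440582043680)) (.cons (.rf (nat_lit 3858) (nat_lit 493858305440582043680)) (.cons (.br (nat_lit 13) (nat_lit 0) (.cons (.rf (nat_lit 3853) (nat_lit 493858305440582043680)) (.cons (.rf (nat_lit 3856) (nat_lit 493858305440582043680)) (.cons (.rf (nat_lit 3858) (nat_lit 493858305440582043680)) .nil)))) .nil))))),
 (.br (nat_lit 13) (nat_lit 0) (.cons (.rf (nat_lit 3853) (nat_lit 493858305440582043680)) (.cons (.rf (nat_lit 3856) (nat_lit 493858305440582043680)) (.cons (.rf (nat_lit 3859) (nat_lit 493858305440582043680)) (.cons (.br (nat_lit 13) (nat_lit 0) (.cons (.rf (nat_lit 3853) (nat_lit 493858305440582043680)) (.cons (.rf (nat_lit 3856) (nat_lit 493858305440582043680)) (.cons (.rf (nat_lit 3859) (nat_lit 493858305440582043680)) .nil)))) .nil))))),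
 (.br (nat_lit 13) (nat_lit 0) (.cons (.rf (nat_lit 3853) (nat_lit 493858305440582043680)) (.cons (.rf (nat_lit 3856) (nat_lit 493858305440582043680)) (.cons (.rf (nat_lit 3859) (nat_lit 493858305440582043680)) (.cons (.rf (nat_lit 3860) (nat_lit 493858305440582043680)) (.cons (.br (nat_lit 13) (nat_lit 0) (.cons (.rf (nat_lit 3853) (nat_lit 493858305440582043680)) (.cons (.rf (nat_lit 3856) (nat_lit 493858305440582043680)) (.cons (.rf (nat_lit 3859) (nat_lit 493858305440582043680)) (.cons (.rf (nat_lit 3860) (nat_lit 493858305440582043680)) .nil))))) .nil)))))),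
 (.br (nat_lit 13) (nat_lit 0) (.cons (.br (nat_lit 10) (nat_lit 1) (.cons (.rf (nat_lit 3689) (nat_lit 15427232505447680032)) (.cons (.rf (nat_lit 3550) (nat_lit 493679318144945063968)) .nil))) (.cons (.rf (nat_lit 3550) (nat_lit 493679318144945063968)) (.cons (.rf (nat_lit 3690) (nat_lit 493857212528171517984)) .nil)))),
 (.br (nat_lit 8) (nat_lit 1) (.cons (.rf (nat_lit 3862) (nat_lit 493858305440582043680)) (.cons (.br (nat_lit 9) (nat_lit 1) (.cons (.rf (nat_lit 3862) (nat_lit 493858271355721582624)) (.cons (.br (nat_lit 11) (nat_lit 1) (.cons (.rf (nat_lit 3493) (nat_lit 493858195492644685856)) .nil)) .nil))) .nil))),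
 (.br (nat_lit 10) (nat_lit 1) (.cons (.rf (nat_lit 3863) (nat_lit 493858305440582043680)) (.cons (.br (nat_lit 7) (nat_lit 0) (.cons (.br (nat_lit 13) (nat_lit 0) (.cons (.br (nat_lit 5) (nat_lit 0) (.cons (.ev (nat_lit 309489750634853487056257281) (nat_lit 1)) .nil)) (.cons (.br (nat_lit 5) (nat_lit 0) (.cons (.ev (nat_lit 309489750634853487056257281) (nat_lit 1)) .nil)) .nil))) (.cons (.ev (nat_lit 1213648258436567851335681) (nat_lit 1)) (.cons (.br (nat_lit 13) (nat_lit 0) (.cons (.ev (nat_lit 20282720297587383441243483734273) (nat_lit 1)) (.cons (.ev (nat_lit 158768237334794272860409037570) (nat_lit 2)) .nil))) .nil)))) .nil))),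
 (.br (nat_lit 10) (nat_lit 1) (.cons (.rf (nat_lit 3863) (nat_lit 493858305440582043680)) (.cons (.rf (nat_lit 3864) (nat_lit 493858305440582043680)) (.cons (.br (nat_lit 10) (nat_lit 1) (.cons (.rf (nat_lit 3863) (nat_lit 493858305440582043680)) (.cons (.rf (nat_lit 3864) (nat_lit 493858305440582043680)) .nil))) .nil)))),
 (.br (nat_lit 10) (nat_lit 1) (.cons (.rf (nat_lit 3863) (nat_lit 493823402543469922336)) (.cons (.br (nat_lit 2) (nat_lit 0) (.cons (.br (nat_lit 9) (nat_lit 1) (.cons (.ev (nat_lit 1213648258436567851335681) (nat_lit 1)) (.cons (.br (nat_lit 7) (nat_lit 0) (.cons (.ev (nat_lit 309489750634853487056257281) (nat_lit 1)) .nil)) .nil))) (.cons (.br (nat_lit 8) (nat_lit 1) (.cons (.br (nat_lit 13) (nat_lit 0) (.cons (.ev (nat_lit 309489750634853487056257281) (nat_lit 1)) .nil)) (.cons (.br (nat_lit 11) (nat_lit 1) (.cons (.ev (nat_lit 309489750634853487056257281) (nat_lit 1)) .nil)) .nil))) (.cons (.rf (nat_lit 3865) (nat_lit 493858305440582043680)) .nil)))) .nil))),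
 (.br (nat_lit 10) (nat_lit 1) (.cons (.rf (nat_lit 3863) (nat_lit 493823402543469922336)) (.cons (.rf (nat_lit 3866) (nat_lit 493858305440582043680)) (.cons (.br (nat_lit 10) (nat_lit 1) (.cons (.rf (nat_lit 3863) (nat_lit 493823402543469922336)) (.cons (.rf (nat_lit 3866) (nat_lit 493858305440582043680)) .nil))) .nil)))),
 (.br (nat_lit 5) (nat_lit 0) (.cons (.br (nat_lit 13) (nat_lit 1) (.cons (.kr (nat_lit 79537647524157740256306659584) (nat_lit 9444732966838802120704) (nat_lit 1) (nat_lit 0)) .nil)) .nil)),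
 (.br (nat_lit 8) (nat_lit 1) (.cons (.kr (nat_lit 20361637766166006819134833164544) (nat_lit 9444732966838802120704) (nat_lit 1) (nat_lit 0)) .nil)),
 (.br (nat_lit 11) (nat_lit 1) (.cons (.rf (nat_lit 3865) (nat_lit 493858305440582043680)) (.cons (.rf (nat_lit 3867) (nat_lit 493858305440582043680)) (.cons (.br (nat_lit 7) (nat_lit 0) (.cons (.br (nat_lit 13) (nat_lit 0) (.cons (.zr (nat_lit 158456334473261640926411883008) (nat_lit 20282409603651742763029150826497) (nat_lit 5) (nat_lit 4)) (.cons (.br (nat_lit 9) (nat_lit 1) (.cons (.ev (nat_lit 20282719088661491769015976132609) (nat_lit 1)) (.cons (.br (nat_lit 2) (nat_lit 0) (.cons (.ev (nat_lit 1213666632842672057876481) (nat_lit 1)) .nil)) .nil))) .nil))) (.cons (.br (nat_lit 2) (nat_lit 0) (.cons (.rf (nat_lit 3868) (nat_lit 15433035725666355232)) (.cons (.br (nat_lit 13) (nat_lit 0) (.cons (.br (nat_lit 5) (nat_lit 0) (.cons (.ev (nat_lit 79541279042574774007316348930) (nat_lit 2)) .nil)) (.cons (.rf (nat_lit 3869) (nat_lit 493858305440582043680))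 .nil))) .nil))) (.cons (.ev (nat_lit 79537647524158021731300147201) (nat_lit 1)) .nil)))) .nil)))),
 (.br (nat_lit 11) (nat_lit 1) (.cons (.br (nat_lit 8) (nat_lit 1) (.cons (.ev (nat_lit 79228162532783421840074735873) (nat_lit 1)) (.cons (.br (nat_lit 13) (nat_lit 0) (.cons (.br (nat_lit 10) (nat_lit 1) (.cons (.ev (nat_lit 310698658079781636559405313) (nat_lit 1)) .nil)) (.cons (.br (nat_lit 7) (nat_lit 0) (.cons (.zr (nat_lit 158456325028600734980149215488) (nat_lit 1218370552861847753588737) (nat_lit 5) (nat_lit 0)) .nil)) .nil))) .nil))) (.cons (.br (nat_lit 9) (nat_lit 1) (.cons (.br (nat_lit 8) (nat_lit 1) (.cons (.br (nat_lit 10) (nat_lit 1) (.cons (.zr (nat_lit 79228162514336397386605265152) (nat_lit 1213648186378978108375041) (nat_lit 5) (nat_lit 0)) .nil)) (.cons (.br (nat_lit 7) (nat_lit 0) (.cons (.zr (nat_lit 2417851855405347588210688) (nat_lit 309503917734302096008676097) (nat_lit 5) (nat_lit 0)) .nil)) .nil))) (.cons (.br (nat_lit 10) (nat_lit 1) (.cons (.ev (nat_lit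 20282720297587311666219639111681) (nat_lit 1)) .nil)) .nil))) .nil))),
 (.br (nat_lit 11) (nat_lit 1) (.cons (.rf (nat_lit 3871) (nat_lit 493858305440582043680)) (.cons (.br (nat_lit 7) (nat_lit 0) (.cons (.br (nat_lit 9) (nat_lit 1) (.cons (.ev (nat_lit 309489732187829042193432833) (nat_lit 1)) (.cons (.br (nat_lit 10) (nat_lit 1) (.cons (.ev (nat_lit 20837625711382205926224234479876) (nat_lit 3)) .nil)) .nil))) (.cons (.br (nat_lit 10) (nat_lit 1) (.cons (.br (nat_lit 8) (nat_lit 1) (.cons (.zr (nat_lit 79228162514408454980643192832) (nat_lit 309489750634572016391290881) (nat_lit 5) (nat_lit 0)) .nil)) (.cons (.br (nat_lit 5) (nat_lit 0) (.cons (.zr (nat_lit 72059793061314816) (nat_lit 1208925819896108463161345) (nat_lit 5) (nat_lit 0)) .nil)) .nil))) (.cons (.ev (nat_lit 79537647524158021731300147201) (nat_lit 1)) .nil)))) .nil))),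
 (.br (nat_lit 11) (nat_lit 1) (.cons (.rf (nat_lit 3871) (nat_lit 493858305440582043680)) (.cons (.rf (nat_lit 3872) (nat_lit 493858305440582043680)) (.cons (.br (nat_lit 11) (nat_lit 1) (.cons (.rf (nat_lit 3871) (nat_lit 493858305440582043680)) (.cons (.rf (nat_lit 3872) (nat_lit 493858305440582043680)) .nil))) .nil)))),
 (.br (nat_lit 8) (nat_lit 1) (.cons (.br (nat_lit 11) (nat_lit 1) (.cons (.br (nat_lit 9) (nat_lit 1) (.cons (.ev (nat_lit 20679174231390863532712781874948) (nat_lit 3)) .nil)) .nil)) (.cons (.br (nat_lit 11) (nat_lit 1) (.cons (.br (nat_lit 13) (nat_lit 0) (.cons (.ev (nat_lit 21788383118035760580675943467792) (nat_lit 5)) .nil)) (.cons (.ev (nat_lit 79537647542532426735995060481) (nat_lit 1)) .nil))) .nil))),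
 (.br (nat_lit 11) (nat_lit 1) (.cons (.ev (nat_lit 79229371440083953326542094593) (nat_lit 1)) (.cons (.br (nat_lit 9) (nat_lit 1) (.cons (.br (nat_lit 8) (nat_lit 1) (.cons (.ev (nat_lit 20520720314769528225521098360068) (nat_lit 3)) .nil)) (.cons (.ev (nat_lit 20361638979814192916637964828673) (nat_lit 1)) .nil))) .nil))),
 (.br (nat_lit 10) (nat_lit 1) (.cons (.rf (nat_lit 3873) (nat_lit 493858305440582043680)) (.cons (.br (nat_lit 11) (nat_lit 1) (.cons (.rf (nat_lit 3874) (nat_lit 493858305440582043680)) (.cons (.br (nat_lit 11) (nat_lit 1) (.cons (.rf (nat_lit 3874) (nat_lit 493858305440582043680)) (.cons (.ev (nat_lit 79537647524158021731300147201) (nat_lit 1)) .nil))) (.cons (.br (nat_lit 11) (nat_lit 1) (.cons (.rf (nat_lit 3874) (nat_lit 493858305440582043680)) (.cons (.ev (nat_lit 79537647524158021731300147201) (nat_lit 1)) .nil))) .nil)))) (.cons (.br (nat_lit 11) (nat_lit 1) (.cons (.ev (nat_lit 79229371440083953326542094593) (nat_lit 1)) (.cons (.rf (nat_lit 3875) (nat_lit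 493858305440582043680)) (.cons (.br (nat_lit 11) (nat_lit 1) (.cons (.ev (nat_lit 79229371440083953326542094593) (nat_lit 1)) (.cons (.rf (nat_lit 3875) (nat_lit 493858305440582043680)) .nil))) .nil)))) .nil)))),
 (.br (nat_lit 10) (nat_lit 1) (.cons (.rf (nat_lit 3873) (nat_lit 493858305440582043680)) (.cons (.rf (nat_lit 3876) (nat_lit 493858305440582043680)) (.cons (.br (nat_lit 7) (nat_lit 0) (.cons (.br (nat_lit 13) (nat_lit 0) (.cons (.ev (nat_lit 20282409603670117449500232581121) (nat_lit 1)) (.cons (.br (nat_lit 11) (nat_lit 1) (.cons (.br (nat_lit 5) (nat_lit 0) (.cons (.zr (nat_lit 72059793061314816) (nat_lit 309485009821626548013236225) (nat_lit 5) (nat_lit 0)) .nil)) (.cons (.rf (nat_lit 3774) (nat_lit 493820093011328075808)) .nil))) .nil))) (.cons (.ev (nat_lit 1213648258436567851335681) (nat_lit 1)) (.cons (.br (nat_lit 11) (nat_lit 1) (.cons (.br (nat_lit 9) (nat_lit 1) (.cons (.ev (nat_lit 79538856449905298395250032641) (nat_lit 1)) (.cons (.rf (nat_lit 3784) (nat_lit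 457824828835778365472)) .nil))) (.cons (.br (nat_lit 1) (nat_lit 0) (.cons (.br (nat_lit 9) (nat_lit 1) (.cons (.ev (nat_lit 79228167292043393960945648386) (nat_lit 2)) .nil)) (.cons (.br (nat_lit 8) (nat_lit 1) (.cons (.ev (nat_lit 1213666632841572546248961) (nat_lit 1)) .nil)) .nil))) (.cons (.ev (nat_lit 79537647524158021731300147201) (nat_lit 1)) .nil)))) .nil)))) .nil))))]

theorem c140 : chkAll C T R L140 (nat_lit 3854) = true := by decide +kernel

theorem l140 : (nat_lit 3854) + L140.length = (nat_lit 3878) := by decide +kernel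

/-- part of the certificates -/
def L141 : List Prf := [(.br (nat_lit 1) (nat_lit 0) (.cons (.br (nat_lit 2) (nat_lit 0) (.cons (.br (nat_lit 5) (nat_lit 0) (.cons (.br (nat_lit 13) (nat_lit 0) (.cons (.br (nat_lit 11) (nat_lit 1) (.cons (.ev (nat_lit 20837632983752656760721239114500) (nat_lit 3)) .nil)) .nil)) (.cons (.rf (nat_lit 3863) (nat_lit 493823362961056565280)) .nil))) (.cons (.br (nat_lit 5) (nat_lit 0) (.cons (.rf (nat_lit 3863) (nat_lit 493858265858168686624)) (.cons (.ev (nat_lit 79537647542532427835506688001) (nat_lit 1)) .nil))) .nil))) (.cons (.br (nat_lit 2) (nat_lit 0) (.cons (.br (nat_lit 5) (nat_lit 0) (.cons (.br (nat_lit 7) (nat_lit 0) (.cons (.br (nat_lit 11) (nat_lit 1) (.cons (.zr (nat_lit 79228162514408454980643192832) (nat_lit 309489750634572016391290881) (nat_lit 5) (nat_lit 0)) .nil)) .nil)) (.cons (.br (nat_lit 7) (nat_lit 0) (.cons (.br (nat_lit 13) (nat_lit 0) (.cons (.ev (nat_lit 158765819483299722830977040386) (nat_lit 2)) .nil)) (.cons (.br (nat_lit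 10) (nat_lit 1) (.cons (.ev (nat_lit 20997336929783161745987261629192) (nat_lit 4)) .nil)) .nil))) .nil))) (.cons (.rf (nat_lit 3419) (nat_lit 493563215216757770272)) (.cons (.br (nat_lit 5) (nat_lit 0) (.cons (.br (nat_lit 10) (nat_lit 1) (.cons (.br (nat_lit 13) (nat_lit 0) (.cons (.ev (nat_lit 79538856449905298395250032641) (nat_lit 1)) .nil)) (.cons (.br (nat_lit 11) (nat_lit 1) (.cons (.ev (nat_lit 79538856449905298395250032641) (nat_lit 1)) .nil)) .nil))) (.cons (.rf (nat_lit 3425) (nat_lit 493817844514338998304)) (.cons (.ev (nat_lit 79537647542532427835506688001) (nat_lit 1)) .nil)))) .nil)))) (.cons (.br (nat_lit 5) (nat_lit 0) (.cons (.ev (nat_lit 4722366482873940181249) (nat_lit 1)) (.cons (.br (nat_lit 11) (nat_lit 1) (.cons (.rf (nat_lit 2725) (nat_lit 493676826650518849568)) (.cons (.br (nat_lit 2) (nat_lit 0) (.cons (.ev (nat_lit 79537647524085965241052102913) (nat_lit 1)) (.cons (.rf (nat_lit 3662) (nat_lit 493820093011328075808)) .nil))) (.cons (.ev (nat_lit 79537647542532426735995060481)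 (nat_lit 1)) .nil)))) (.cons (.br (nat_lit 2) (nat_lit 0) (.cons (.br (nat_lit 10) (nat_lit 1) (.cons (.ev (nat_lit 309489732259885532407922689) (nat_lit 1)) (.cons (.ev (nat_lit 20361947255898122590578676924673) (nat_lit 1)) .nil))) (.cons (.rf (nat_lit 3425) (nat_lit 493853838126985873440)) .nil))) .nil)))) .nil)))),
 (.br (nat_lit 11) (nat_lit 1) (.cons (.rf (nat_lit 3863) (nat_lit 493858301042539726880)) (.cons (.rf (nat_lit 3716) (nat_lit 493677074040634837024)) .nil))),
 (.br (nat_lit 13) (nat_lit 0) (.cons (.rf (nat_lit 3878) (nat_lit 493858305440582043680)) (.cons (.br (nat_lit 5) (nat_lit 0) (.cons (.br (nat_lit 7) (nat_lit 0) (.cons (.br (nat_lit 1) (nat_lit 0) (.cons (.zr (nat_lit 61084913298497804284622385709568) (nat_lit 1213666705180641560887297) (nat_lit 5) (nat_lit 9)) .nil)) (.cons (.br (nat_lit 11) (nat_lit 1) (.cons (.rf (nat_lit 3784) (nat_lit 457824828835778365472)) (.cons (.ev (nat_lit 309489750634573111607951361) (nat_lit 1)) .nil))) .nil))) (.cons (.br (nat_lit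 1) (nat_lit 0) (.cons (.rf (nat_lit 3879) (nat_lit 493858305440582043680)) (.cons (.br (nat_lit 11) (nat_lit 1) (.cons (.rf (nat_lit 2725) (nat_lit 493676826650518849568)) (.cons (.ev (nat_lit 20282720297587311666219639111681) (nat_lit 1)) .nil))) .nil))) (.cons (.br (nat_lit 2) (nat_lit 0) (.cons (.br (nat_lit 11) (nat_lit 1) (.cons (.ev (nat_lit 20282409603670117169124784275713) (nat_lit 1)) (.cons (.br (nat_lit 10) (nat_lit 1) (.cons (.ev (nat_lit 20678557679260042346684400076548) (nat_lit 3)) .nil)) .nil))) (.cons (.rf (nat_lit 3690) (nat_lit 493821218911233869856)) (.cons (.br (nat_lit 10) (nat_lit 1) (.cons (.ev (nat_lit 1213648186380077603291393) (nat_lit 1)) (.cons (.br (nat_lit 1) (nat_lit 0) (.cons (.ev (nat_lit 20520725207252320112060245017352) (nat_lit 4)) .nil)) .nil))) .nil)))) .nil)))) (.cons (.br (nat_lit 7) (nat_lit 0) (.cons (.br (nat_lit 1) (nat_lit 0) (.cons (.br (nat_lit 2) (nat_lit 0) (.cons (.rf (nat_lit 3419) (nat_lit 493563215216757770272)) (.cons (.rf (nat_lit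 3715) (nat_lit 493857076188729673760)) .nil))) (.cons (.br (nat_lit 5) (nat_lit 0) (.cons (.br (nat_lit 10) (nat_lit 1) (.cons (.ev (nat_lit 1213648186378978091663361) (nat_lit 1)) .nil)) .nil)) .nil))) (.cons (.br (nat_lit 1) (nat_lit 0) (.cons (.rf (nat_lit 3716) (nat_lit 493677108125495298080)) (.cons (.ev (nat_lit 20282410812577562377649735598081) (nat_lit 1)) (.cons (.br (nat_lit 2) (nat_lit 0) (.cons (.ev (nat_lit 79228162532783139265603174401) (nat_lit 1)) (.cons (.br (nat_lit 8) (nat_lit 1) (.cons (.ev (nat_lit 20521963109659959347142055234312) (nat_lit 4)) .nil)) .nil))) .nil)))) (.cons (.br (nat_lit 2) (nat_lit 0) (.cons (.br (nat_lit 5) (nat_lit 0) (.cons (.br (nat_lit 10) (nat_lit 1) (.cons (.ev (nat_lit 158767019019654265972537229570) (nat_lit 2)) .nil)) .nil)) (.cons (.ev (nat_lit 20282719088661491769015976132609) (nat_lit 1)) .nil))) .nil)))) .nil)))),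
 (.br (nat_lit 10) (nat_lit 1) (.cons (.kr (nat_lit 20361637766166006819134833164544) (nat_lit 9444732966838802120704) (nat_lit 1) (nat_lit 0)) .nil)),
 (.br (nat_lit 13) (nat_lit 0) (.cons (.rf (nat_lit 3878) (nat_lit 493858305440582043680)) (.cons (.rf (nat_lit 3880) (nat_lit 493858305440582043680)) (.cons (.br (nat_lit 5) (nat_lit 0) (.cons (.br (nat_lit 11) (nat_lit 1) (.cons (.br (nat_lit 7) (nat_lit 0) (.cons (.rf (nat_lit 3881) (nat_lit 493858305440582043680)) (.cons (.br (nat_lit 9) (nat_lit 1) (.cons (.ev (nat_lit 20678552843593223907067222622980) (nat_lit 3)) .nil)) .nil))) (.cons (.br (nat_lit 9) (nat_lit 1) (.cons (.br (nat_lit 7) (nat_lit 0) (.cons (.ev (nat_lit 20837625711345023077394120246020) (nat_lit 3)) .nil)) (.cons (.ev (nat_lit 309489750634573111607951361) (nat_lit 1)) .nil))) (.cons (.ev (nat_lit 20282409603670189507089992253441) (nat_lit 1)) .nil)))) (.cons (.br (nat_lit 8) (nat_lit 1) (.cons (.br (nat_lit 10) (nat_lit 1) (.cons (.ev (nat_lit 1213648186378978091663361)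 (nat_lit 1)) (.cons (.br (nat_lit 2) (nat_lit 0) (.cons (.ev (nat_lit 79848355626898714824515125250) (nat_lit 2)) .nil)) .nil))) (.cons (.br (nat_lit 1) (nat_lit 0) (.cons (.br (nat_lit 11) (nat_lit 1) (.cons (.zr (nat_lit 79228162514408454980643127552) (nat_lit 1213648186378982386565121) (nat_lit 5) (nat_lit 0)) .nil)) (.cons (.ev (nat_lit 4722366482873940181249) (nat_lit 1)) .nil))) (.cons (.ev (nat_lit 20361637770906820327553181417473) (nat_lit 1)) .nil)))) (.cons (.br (nat_lit 2) (nat_lit 0) (.cons (.br (nat_lit 11) (nat_lit 1) (.cons (.zr (nat_lit 40564821625154980077161441985024) (nat_lit 79537647542532710409995026433) (nat_lit 5) (nat_lit 11)) (.cons (.ev (nat_lit 20282720297587383442342995361793) (nat_lit 1)) .nil))) (.cons (.br (nat_lit 7) (nat_lit 0) (.cons (.br (nat_lit 1) (nat_lit 0) (.cons (.zr (nat_lit 2417851855402049053327360) (nat_lit 237993977293427866267704885249) (nat_lit 5) (nat_lit 0)) .nil)) (.cons (.ev (nat_lit 20282719088661491769015976132609) (nat_lit 1)) .nil)))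 (.cons (.rf (nat_lit 3690) (nat_lit 493857212523880744992)) .nil)))) (.cons (.br (nat_lit 2) (nat_lit 0) (.cons (.ev (nat_lit 79537647542532427835506688001) (nat_lit 1)) (.cons (.br (nat_lit 7) (nat_lit 0) (.cons (.ev (nat_lit 4722438823038171545601) (nat_lit 1)) (.cons (.ev (nat_lit 158765819483299722830977040386) (nat_lit 2)) .nil))) (.cons (.rf (nat_lit 3690) (nat_lit 493821218911233869856)) .nil)))) .nil))))) .nil)))),
 (.br (nat_lit 1) (nat_lit 0) (.cons (.br (nat_lit 13) (nat_lit 0) (.cons (.br (nat_lit 7) (nat_lit 0) (.cons (.br (nat_lit 2) (nat_lit 0) (.cons (.br (nat_lit 5) (nat_lit 0) (.cons (.ev (nat_lit 80157831228952639891111411970) (nat_lit 2)) .nil)) .nil)) (.cons (.rf (nat_lit 3716) (nat_lit 493671444542178560032)) .nil))) (.cons (.br (nat_lit 5) (nat_lit 0) (.cons (.br (nat_lit 7) (nat_lit 0) (.cons (.rf (nat_lit 3689) (nat_lit 15427408427302881312)) (.cons (.br (nat_lit 10) (nat_lit 1) (.cons (.ev (nat_lit 20837632983715763272582410076420) (nat_lit 3)) .nil)) .nil)))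 (.cons (.rf (nat_lit 3879) (nat_lit 493823227721125300256)) .nil))) .nil))) (.cons (.br (nat_lit 2) (nat_lit 0) (.cons (.br (nat_lit 13) (nat_lit 0) (.cons (.br (nat_lit 5) (nat_lit 0) (.cons (.br (nat_lit 7) (nat_lit 0) (.cons (.ev (nat_lit 20363501996114634749657255446280) (nat_lit 4)) .nil)) .nil)) (.cons (.br (nat_lit 5) (nat_lit 0) (.cons (.br (nat_lit 7) (nat_lit 0) (.cons (.ev (nat_lit 21313011658616039579370064907016) (nat_lit 4)) .nil)) (.cons (.ev (nat_lit 20361947260638936379372473418242) (nat_lit 2)) .nil))) .nil))) (.cons (.rf (nat_lit 3419) (nat_lit 493563215216757770272)) (.cons (.br (nat_lit 5) (nat_lit 0) (.cons (.ev (nat_lit 4740813509517859946753) (nat_lit 1)) (.cons (.rf (nat_lit 3425) (nat_lit 493817844514338998304)) (.cons (.br (nat_lit 10) (nat_lit 1) (.cons (.rf (nat_lit 3861) (nat_lit 493565395547242988608)) (.cons (.br (nat_lit 9) (nat_lit 1) (.cons (.ev (nat_lit 1213648186380077603291393) (nat_lit 1)) .nil)) .nil))) .nil)))) .nil)))) (.cons (.br (nat_lit 11)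 (nat_lit 1) (.cons (.rf (nat_lit 3419) (nat_lit 493565395547242989600)) (.cons (.br (nat_lit 2) (nat_lit 0) (.cons (.br (nat_lit 10) (nat_lit 1) (.cons (.ev (nat_lit 309489732260168106913038593) (nat_lit 1)) (.cons (.ev (nat_lit 20361947255898122870954158784513) (nat_lit 1)) .nil))) (.cons (.rf (nat_lit 3425) (nat_lit 493853838126985873440)) .nil))) (.cons (.ev (nat_lit 79537647542532426735995060481) (nat_lit 1)) (.cons (.br (nat_lit 7) (nat_lit 0) (.cons (.br (nat_lit 2) (nat_lit 0) (.cons (.br (nat_lit 10) (nat_lit 1) (.cons (.ev (nat_lit 1213648186378978091663361) (nat_lit 1)) .nil)) .nil)) (.cons (.ev (nat_lit 20282719088661564108089285672961) (nat_lit 1)) .nil))) .nil))))) .nil)))),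
 (.br (nat_lit 8) (nat_lit 1) (.cons (.rf (nat_lit 3689) (nat_lit 15427373244004534304)) (.cons (.br (nat_lit 1) (nat_lit 0) (.cons (.kr (nat_lit 20361637766166006819134833164544) (nat_lit 9444732966838802120704) (nat_lit 1) (nat_lit 0)) .nil)) .nil))),
 (.br (nat_lit 5) (nat_lit 0) (.cons (.kr (nat_lit 20361637766166006819134833164544) (nat_lit 9444732966838802120704) (nat_lit 1) (nat_lit 0)) .nil)),
 (.br (nat_lit 5) (nat_lit 0) (.cons (.br (nat_lit 13) (nat_lit 1) (.cons (.kr (nat_lit 79537647524157740256306659584) (nat_lit 9444732966838802120704) (nat_lit 1) (nat_lit 0)) .nil)) .nil)),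
 (.br (nat_lit 11) (nat_lit 1) (.cons (.br (nat_lit 8) (nat_lit 1) (.cons (.kr (nat_lit 20361637766166006819134833164544) (nat_lit 9444732966838802120704) (nat_lit 1) (nat_lit 0)) .nil)) (.cons (.rf (nat_lit 3544) (nat_lit 493817844514338998304)) .nil))),
 (.br (nat_lit 10) (nat_lit 1) (.cons (.rf (nat_lit 3863) (nat_lit 493858301042539726880)) (.cons (.rf (nat_lit 3863) (nat_lit 457828413241534284864)) .nil))),
 (.br (nat_lit 7) (nat_lit 0) (.cons (.rf (nat_lit 3883) (nat_lit 493858305440582043680)) (.cons (.br (nat_lit 13) (nat_lit 0) (.cons (.br (nat_lit 5) (nat_lit 0) (.cons (.rf (nat_lit 3691) (nat_lit 15427373244004534304)) (.cons (.br (nat_lit 2) (nat_lit 0) (.cons (.zr (nat_lit 20282409617818914832169209692160) (nat_lit 158458742880167905557833842689) (nat_lit 5) (nat_lit 6)) (.cons (.ev (nat_lit 79537647542532427835506688001) (nat_lit 1)) .nil))) .nil))) (.cons (.ev (nat_lit 1213648258436567851335681) (nat_lit 1)) (.cons (.br (nat_lit 10) (nat_lit 1) (.cons (.br (nat_lit 2)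 (nat_lit 0) (.cons (.br (nat_lit 11) (nat_lit 1) (.cons (.ev (nat_lit 79537647542532427835506688001) (nat_lit 1)) .nil)) (.cons (.br (nat_lit 5) (nat_lit 0) (.cons (.ev (nat_lit 309489750634573111607951361) (nat_lit 1)) .nil)) .nil))) (.cons (.rf (nat_lit 3505) (nat_lit 493823298087721994272)) (.cons (.rf (nat_lit 3884) (nat_lit 493858305440582043680)) .nil)))) .nil)))) (.cons (.br (nat_lit 2) (nat_lit 0) (.cons (.br (nat_lit 13) (nat_lit 0) (.cons (.br (nat_lit 1) (nat_lit 0) (.cons (.ev (nat_lit 20282410812577562377649735598081) (nat_lit 1)) (.cons (.rf (nat_lit 3885) (nat_lit 493858305440582043680)) .nil))) (.cons (.rf (nat_lit 3886) (nat_lit 15433035725666355232)) .nil))) (.cons (.br (nat_lit 10) (nat_lit 1) (.cons (.rf (nat_lit 3419) (nat_lit 493563215216757770272)) (.cons (.ev (nat_lit 1213648186378978091663361) (nat_lit 1)) (.cons (.rf (nat_lit 3887) (nat_lit 493858305440582043680)) .nil)))) (.cons (.br (nat_lit 1) (nat_lit 0) (.cons (.rf (nat_lit 3888) (nat_lit 493858305440582043680))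 (.cons (.br (nat_lit 10) (nat_lit 1) (.cons (.rf (nat_lit 3421) (nat_lit 493823298092012767264)) (.cons (.ev (nat_lit 20282410812577562377649735598081) (nat_lit 1)) .nil))) .nil))) .nil)))) .nil)))),
 (.br (nat_lit 5) (nat_lit 0) (.cons (.ev (nat_lit 4740885566016664371201) (nat_lit 1)) .nil)),
 (.br (nat_lit 7) (nat_lit 0) (.cons (.rf (nat_lit 3883) (nat_lit 493858305440582043680)) (.cons (.rf (nat_lit 3889) (nat_lit 493858305440582043680)) (.cons (.br (nat_lit 11) (nat_lit 1) (.cons (.br (nat_lit 8) (nat_lit 1) (.cons (.br (nat_lit 5) (nat_lit 0) (.cons (.br (nat_lit 10) (nat_lit 1) (.cons (.ev (nat_lit 1213666632842672057876481) (nat_lit 1)) .nil)) (.cons (.rf (nat_lit 3560) (nat_lit 493823368456464074784)) .nil))) (.cons (.br (nat_lit 9) (nat_lit 1) (.cons (.ev (nat_lit 79847137311830761128356479490) (nat_lit 2)) (.cons (.br (nat_lit 10) (nat_lit 1) (.cons (.ev (nat_lit 21473934182835244448568228253448) (nat_lit 4)) .nil)) .nil))) (.cons (.ev (nat_lit 20362256736241134701110729114370)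 (nat_lit 2)) .nil)))) (.cons (.br (nat_lit 10) (nat_lit 1) (.cons (.br (nat_lit 5) (nat_lit 0) (.cons (.br (nat_lit 9) (nat_lit 1) (.cons (.ev (nat_lit 309489750634573111607951361) (nat_lit 1)) .nil)) (.cons (.ev (nat_lit 79538856449905298395250032641) (nat_lit 1)) .nil))) (.cons (.rf (nat_lit 3543) (nat_lit 493679323641425266720)) (.cons (.br (nat_lit 8) (nat_lit 1) (.cons (.rf (nat_lit 3890) (nat_lit 493858305440582043680)) (.cons (.rf (nat_lit 3890) (nat_lit 493858305440447826080)) .nil))) .nil)))) (.cons (.br (nat_lit 10) (nat_lit 1) (.cons (.br (nat_lit 2) (nat_lit 0) (.cons (.ev (nat_lit 158769436834256452646288425730) (nat_lit 2)) (.cons (.ev (nat_lit 4722438540463699984641) (nat_lit 1)) .nil))) (.cons (.rf (nat_lit 3543) (nat_lit 493678232925890512928)) (.cons (.br (nat_lit 1) (nat_lit 0) (.cons (.br (nat_lit 2) (nat_lit 0) (.cons (.ev (nat_lit 20361640212425632492569674188548) (nat_lit 3)) .nil)) (.cons (.ev (nat_lit 79538856449905297295738405121) (nat_lit 1)) .nil))) .nil))))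 (.cons (.ev (nat_lit 79537647524158021731300147201) (nat_lit 1)) .nil))))) .nil)))),
 (.br (nat_lit 6) (nat_lit 1) (.cons (.rf (nat_lit 3419) (nat_lit 493787200025760303136)) (.cons (.br (nat_lit 10) (nat_lit 1) (.cons (.rf (nat_lit 3835) (nat_lit 493858305440582043680)) (.cons (.rf (nat_lit 3841) (nat_lit 493858305440582043680)) (.cons (.rf (nat_lit 3845) (nat_lit 493858305440582043680)) (.cons (.br (nat_lit 10) (nat_lit 1) (.cons (.rf (nat_lit 3835) (nat_lit 493858305440582043680)) (.cons (.rf (nat_lit 3841) (nat_lit 493858305440582043680)) (.cons (.rf (nat_lit 3845) (nat_lit 493858305440582043680)) .nil)))) .nil))))) (.cons (.rf (nat_lit 3861) (nat_lit 493858305440582043680)) (.cons (.br (nat_lit 4) (nat_lit 1) (.cons (.br (nat_lit 11) (nat_lit 1) (.cons (.rf (nat_lit 3865) (nat_lit 493858305440582043680)) (.cons (.rf (nat_lit 3867) (nat_lit 493858305440582043680)) (.cons (.rf (nat_lit 3870) (nat_lit 493858305440582043680)) (.cons (.br (nat_lit 11) (nat_lit 1) (.cons (.rf (nat_lit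 3865) (nat_lit 493858305440582043680)) (.cons (.rf (nat_lit 3867) (nat_lit 493858305440582043680)) (.cons (.rf (nat_lit 3870) (nat_lit 493858305440582043680)) .nil)))) .nil))))) (.cons (.br (nat_lit 10) (nat_lit 1) (.cons (.rf (nat_lit 3873) (nat_lit 493858305440582043680)) (.cons (.rf (nat_lit 3876) (nat_lit 493858305440582043680)) (.cons (.rf (nat_lit 3877) (nat_lit 493858305440582043680)) (.cons (.br (nat_lit 10) (nat_lit 1) (.cons (.rf (nat_lit 3873) (nat_lit 493858305440582043680)) (.cons (.rf (nat_lit 3876) (nat_lit 493858305440582043680)) (.cons (.rf (nat_lit 3877) (nat_lit 493858305440582043680)) .nil)))) .nil))))) (.cons (.ev (nat_lit 79228162514264620172344033281) (nat_lit 1)) (.cons (.br (nat_lit 13) (nat_lit 0) (.cons (.rf (nat_lit 3878) (nat_lit 493858305440582043680)) (.cons (.rf (nat_lit 3880) (nat_lit 493858305440582043680)) (.cons (.rf (nat_lit 3882) (nat_lit 493858305440582043680)) (.cons (.br (nat_lit 13) (nat_lit 0) (.cons (.rf (nat_lit 3878) (nat_lit 493858305440582043680))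 (.cons (.rf (nat_lit 3880) (nat_lit 493858305440582043680)) (.cons (.rf (nat_lit 3882) (nat_lit 493858305440582043680)) .nil)))) .nil))))) (.cons (.br (nat_lit 7) (nat_lit 0) (.cons (.rf (nat_lit 3883) (nat_lit 493858305440582043680)) (.cons (.rf (nat_lit 3889) (nat_lit 493858305440582043680)) (.cons (.rf (nat_lit 3891) (nat_lit 493858305440582043680)) (.cons (.br (nat_lit 7) (nat_lit 0) (.cons (.rf (nat_lit 3883) (nat_lit 493858305440582043680)) (.cons (.rf (nat_lit 3889) (nat_lit 493858305440582043680)) (.cons (.rf (nat_lit 3891) (nat_lit 493858305440582043680)) .nil)))) .nil))))) .nil)))))) .nil))))),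
 (.br (nat_lit 10) (nat_lit 1) (.cons (.br (nat_lit 9) (nat_lit 1) (.cons (.br (nat_lit 8) (nat_lit 1) (.cons (.ev (nat_lit 4740813509517859946753) (nat_lit 1)) .nil)) (.cons (.rf (nat_lit 3784) (nat_lit 457824828835778365472)) .nil))) .nil)),
 (.br (nat_lit 10) (nat_lit 1) (.cons (.ev (nat_lit 79537647524158022830811775233) (nat_lit 1)) (.cons (.br (nat_lit 13) (nat_lit 0) (.cons (.br (nat_lit 9) (nat_lit 1) (.cons (.zr (nat_lit 20520094091194463440026418086400) (nat_lit 310698658008005526104834049) (nat_lit 5) (nat_lit 0)) (.cons (.rf (nat_lit 3884) (nat_lit 493853801845249640480)) .nil))) (.cons (.ev (nat_lit 79537647542532426735995060481) (nat_lit 1)) (.cons (.rf (nat_lit 2905) (nat_lit 493858305440582042688)) .nil)))) .nil)))]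

theorem c141 : chkAll C T R L141 (nat_lit 3878) = true := by decide +kernel

theorem l141 : (nat_lit 3878) + L141.length = (nat_lit 3895) := by decide +kernel

/-- part of the certificates -/
def L142 : List Prf := [(.br (nat_lit 11) (nat_lit 1) (.cons (.rf (nat_lit 3419) (nat_lit 493565395547242989600)) (.cons (.br (nat_lit 10) (nat_lit 1) (.cons (.rf (nat_lit 3893) (nat_lit 493858305440582043680)) (.cons (.br (nat_lit 10) (nat_lit 1) (.cons (.rf (nat_lit 3893) (nat_lit 493858305440582043680)) .nil)) .nil))) (.cons (.br (nat_lit 10) (nat_lit 1) (.cons (.rf (nat_lit 3894) (nat_lit 493858305440582043680)) (.cons (.ev (nat_lit 79537647524158022830811775233) (nat_lit 1)) (.cons (.br (nat_lit 10) (nat_lit 1) (.cons (.rf (nat_lit 3894) (nat_lit 493858305440582043680)) (.cons (.ev (nat_lit 79537647524158022830811775233) (nat_lit 1)) .nil))) .nil)))) .nil)))),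
 (.br (nat_lit 10) (nat_lit 1) (.cons (.rf (nat_lit 795) (nat_lit 15071253013792800)) (.cons (.br (nat_lit 8) (nat_lit 1) (.cons (.rf (nat_lit 3462) (nat_lit 493823298087721994272)) (.cons (.br (nat_lit 9) (nat_lit 1) (.cons (.ev (nat_lit 4740813509517859946753) (nat_lit 1)) (.cons (.ev (nat_lit 20361948464842461005776087416833) (nat_lit 1)) .nil))) .nil))) .nil))),
 (.br (nat_lit 9) (nat_lit 1) (.cons (.br (nat_lit 4) (nat_lit 1) (.cons (.kr (nat_lit 79228171958997304432346005760) (nat_lit 20282409603651742481549879214080) (nat_lit 1) (nat_lit 0)) .nil)) .nil)),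
 (.br (nat_lit 10) (nat_lit 1) (.cons (.rf (nat_lit 2725) (nat_lit 493856966237567125536)) (.cons (.br (nat_lit 8) (nat_lit 1) (.cons (.rf (nat_lit 3897) (nat_lit 493858305440582043680)) (.cons (.rf (nat_lit 3784) (nat_lit 457822648505293146144)) .nil))) (.cons (.br (nat_lit 7) (nat_lit 0) (.cons (.ev (nat_lit 310693935713298771209093121) (nat_lit 1)) (.cons (.br (nat_lit 13) (nat_lit 0) (.cons (.ev (nat_lit 20361638975110273178941540794625) (nat_lit 1)) (.cons (.ev (nat_lit 20361948464842461005776087416833) (nat_lit 1)) .nil))) (.cons (.ev (nat_lit 1213648258437667362963713) (nat_lit 1)) .nil)))) .nil)))),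
 (.br (nat_lit 10) (nat_lit 1) (.cons (.rf (nat_lit 3898) (nat_lit 493858305440582043680)) (.cons (.rf (nat_lit 3543) (nat_lit 493858200989124888608)) (.cons (.br (nat_lit 4) (nat_lit 1) (.cons (.br (nat_lit 13) (nat_lit 0) (.cons (.ev (nat_lit 20361638975110273178941540794625) (nat_lit 1)) (.cons (.br (nat_lit 2) (nat_lit 0) (.cons (.ev (nat_lit 309489750634853487056257281) (nat_lit 1)) .nil)) .nil))) (.cons (.ev (nat_lit 309485009893403766569369601) (nat_lit 1)) (.cons (.br (nat_lit 1) (nat_lit 0) (.cons (.ev (nat_lit 20361638975110273178941540794625) (nat_lit 1)) (.cons (.ev (nat_lit 1213648258437667362963713) (nat_lit 1)) .nil))) .nil)))) .nil)))),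
 (.br (nat_lit 11) (nat_lit 1) (.cons (.rf (nat_lit 3419) (nat_lit 493565395547242989600)) (.cons (.br (nat_lit 10) (nat_lit 1) (.cons (.rf (nat_lit 3896) (nat_lit 493858305440582043680)) (.cons (.br (nat_lit 10) (nat_lit 1) (.cons (.rf (nat_lit 795) (nat_lit 15071253013792800)) (.cons (.rf (nat_lit 3543) (nat_lit 493823298092012767264)) .nil))) (.cons (.br (nat_lit 10) (nat_lit 1) (.cons (.rf (nat_lit 3896) (nat_lit 493858305440582043680)) (.cons (.rf (nat_lit 3543) (nat_lit 493823298092012767264)) .nil))) .nil)))) (.cons (.br (nat_lit 10) (nat_lit 1) (.cons (.rf (nat_lit 3898) (nat_lit 493858305440582043680)) (.cons (.br (nat_lit 10) (nat_lit 1) (.cons (.rf (nat_lit 2725) (nat_lit 493856966237567125536)) (.cons (.rf (nat_lit 3543) (nat_lit 493858200989124888608)) (.cons (.rf (nat_lit 3544) (nat_lit 493858200989124888608)) .nil)))) (.cons (.rf (nat_lit 3899) (nat_lit 493858305440582043680)) (.cons (.br (nat_lit 10) (nat_lit 1) (.cons (.rf (nat_lit 3898) (nat_lit 493858305440582043680))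 (.cons (.rf (nat_lit 3544) (nat_lit 493858200989124888608)) (.cons (.rf (nat_lit 3899) (nat_lit 493858305440582043680)) .nil)))) .nil))))) .nil)))),
 (.br (nat_lit 10) (nat_lit 1) (.cons (.rf (nat_lit 3419) (nat_lit 493563215216757770272)) (.cons (.br (nat_lit 8) (nat_lit 1) (.cons (.br (nat_lit 13) (nat_lit 0) (.cons (.br (nat_lit 2) (nat_lit 0) (.cons (.ev (nat_lit 79229376180897179170385231873) (nat_lit 1)) .nil)) (.cons (.br (nat_lit 2) (nat_lit 0) (.cons (.ev (nat_lit 79537652264899191084895240193) (nat_lit 1)) .nil)) .nil))) (.cons (.rf (nat_lit 3818) (nat_lit 493853801845249640480)) .nil))) .nil))),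
 (.br (nat_lit 10) (nat_lit 1) (.cons (.rf (nat_lit 3419) (nat_lit 493563215216757770272)) (.cons (.br (nat_lit 1) (nat_lit 0) (.cons (.br (nat_lit 8) (nat_lit 1) (.cons (.ev (nat_lit 309485009893685241562857473) (nat_lit 1)) (.cons (.br (nat_lit 9) (nat_lit 1) (.cons (.ev (nat_lit 20363501939298373652952847418628) (nat_lit 3)) .nil)) .nil))) (.cons (.br (nat_lit 9) (nat_lit 1) (.cons (.br (nat_lit 13) (nat_lit 0) (.cons (.ev (nat_lit 79231798792013117385496199938) (nat_lit 2)) .nil)) (.cons (.ev (nat_lit 309489750634572012096323841) (nat_lit 1)) .nil))) (.cons (.br (nat_lit 8) (nat_lit 1) (.cons (.br (nat_lit 4) (nat_lit 1) (.cons (.ev (nat_lit 79848355626970490939314864130) (nat_lit 2)) .nil)) (.cons (.br (nat_lit 4) (nat_lit 1) (.cons (.zr (nat_lit 9444733531987778928640) (nat_lit 310693954087703775971115009) (nat_lit 5) (nat_lit 0)) .nil)) .nil))) .nil)))) .nil))),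
 (.br (nat_lit 11) (nat_lit 1) (.cons (.rf (nat_lit 3895) (nat_lit 493858305440582043680)) (.cons (.rf (nat_lit 3900) (nat_lit 493858305440582043680)) (.cons (.br (nat_lit 10) (nat_lit 1) (.cons (.rf (nat_lit 3901) (nat_lit 493858305440582043680)) (.cons (.rf (nat_lit 3902) (nat_lit 493858305440582043680)) (.cons (.br (nat_lit 10) (nat_lit 1) (.cons (.rf (nat_lit 3901) (nat_lit 493858305440582043680)) (.cons (.rf (nat_lit 3902) (nat_lit 493858305440582043680)) .nil))) .nil)))) .nil)))),
 (.br (nat_lit 4) (nat_lit 1) (.cons (.ev (nat_lit 18518801667764322561) (nat_lit 1)) (.cons (.br (nat_lit 7) (nat_lit 0) (.cons (.zr (nat_lit 79228162514336398486116892672) (nat_lit 309485028268652096682721281) (nat_lit 5) (nat_lit 0)) (.cons (.ev (nat_lit 79229371458602754994272796673) (nat_lit 1)) .nil))) .nil))),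
 (.br (nat_lit 10) (nat_lit 1) (.cons (.rf (nat_lit 3904) (nat_lit 493858305440582043680)) (.cons (.br (nat_lit 4) (nat_lit 1) (.cons (.ev (nat_lit 18518801667764322561) (nat_lit 1)) (.cons (.ev (nat_lit 20361948460120022747886892613633) (nat_lit 1)) .nil))) .nil))),
 (.br (nat_lit 13) (nat_lit 0) (.cons (.br (nat_lit 7) (nat_lit 0) (.cons (.br (nat_lit 2) (nat_lit 0) (.cons (.ev (nat_lit 79850764070626408884087095810) (nat_lit 2)) .nil)) .nil)) (.cons (.br (nat_lit 9) (nat_lit 1) (.cons (.rf (nat_lit 3887) (nat_lit 457828279096822827040)) (.cons (.zr (nat_lit 40802503694846206199744149062144) (nat_lit 309494473001057085042982913) (nat_lit 5) (nat_lit 8)) .nil))) .nil))),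
 (.br (nat_lit 2) (nat_lit 0) (.cons (.rf (nat_lit 3906) (nat_lit 493858305440582043680)) (.cons (.br (nat_lit 13) (nat_lit 0) (.cons (.br (nat_lit 7) (nat_lit 0) (.cons (.ev (nat_lit 20837009178066629663190300428036) (nat_lit 3)) .nil)) (.cons (.rf (nat_lit 3885) (nat_lit 457822649602657323040)) .nil))) .nil))),
 (.br (nat_lit 7) (nat_lit 0) (.cons (.kr (nat_lit 309485009821346168236408832) (nat_lit 72339069014638592) (nat_lit 5) (nat_lit 0)) (.cons (.br (nat_lit 4) (nat_lit 1) (.cons (.br (nat_lit 13) (nat_lit 1) (.cons (.kr (nat_lit 80156617543728373899229921536) (nat_lit 9444805586283281842176) (nat_lit 1) (nat_lit 0)) .nil)) (.cons (.br (nat_lit 2) (nat_lit 0) (.cons (.kr (nat_lit 79537647524157740256306659584) (nat_lit 9444732966838802120704) (nat_lit 1) (nat_lit 0)) .nil)) .nil))) .nil))),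
 (.br (nat_lit 13) (nat_lit 0) (.cons (.br (nat_lit 2) (nat_lit 0) (.cons (.br (nat_lit 7) (nat_lit 0) (.cons (.ev (nat_lit 79850764070626408884087095810) (nat_lit 2)) .nil)) .nil)) (.cons (.br (nat_lit 7) (nat_lit 0) (.cons (.zr (nat_lit 40564819216748146152702807638528) (nat_lit 79537647542532428939296505857) (nat_lit 5) (nat_lit 11)) (.cons (.br (nat_lit 9) (nat_lit 1) (.cons (.ev (nat_lit 79229376180897460645345165313) (nat_lit 1)) .nil)) .nil))) .nil))),
 (.br (nat_lit 11) (nat_lit 1) (.cons (.rf (nat_lit 3419) (nat_lit 493565395547242989600)) (.cons (.br (nat_lit 8) (nat_lit 1) (.cons (.br (nat_lit 10) (nat_lit 1) (.cons (.rf (nat_lit 3904) (nat_lit 493858305440582043680)) (.cons (.rf (nat_lit 3905) (nat_lit 493858305440582043680)) (.cons (.br (nat_lit 10) (nat_lit 1) (.cons (.rf (nat_lit 3904) (nat_lit 493858305440582043680)) (.cons (.rf (nat_lit 3905) (nat_lit 493858305440582043680)) .nil))) .nil)))) (.cons (.ev (nat_lit 79537647542532426735995060481) (nat_lit 1)) (.cons (.br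 (nat_lit 2) (nat_lit 0) (.cons (.rf (nat_lit 3906) (nat_lit 493858305440582043680)) (.cons (.rf (nat_lit 3907) (nat_lit 493858305440582043680)) (.cons (.br (nat_lit 2) (nat_lit 0) (.cons (.rf (nat_lit 3906) (nat_lit 493858305440582043680)) (.cons (.rf (nat_lit 3907) (nat_lit 493858305440582043680)) .nil))) .nil)))) .nil)))) (.cons (.br (nat_lit 8) (nat_lit 1) (.cons (.br (nat_lit 7) (nat_lit 0) (.cons (.br (nat_lit 7) (nat_lit 0) (.cons (.kr (nat_lit 79228162514264338693055578112) (nat_lit 72339069014638592) (nat_lit 5) (nat_lit 0)) (.cons (.ev (nat_lit 79228162532783139265603174401) (nat_lit 1)) .nil))) (.cons (.rf (nat_lit 3908) (nat_lit 15433035725666355232)) (.cons (.br (nat_lit 7) (nat_lit 0) (.cons (.ev (nat_lit 79228162532783139265603174401) (nat_lit 1)) (.cons (.rf (nat_lit 3908) (nat_lit 15433035725666355232)) .nil))) .nil)))) (.cons (.br (nat_lit 2) (nat_lit 0) (.cons (.rf (nat_lit 3909) (nat_lit 493858305440582043680)) (.cons (.br (nat_lit 2) (nat_lit 0) (.cons (.rf (nat_lit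 3909) (nat_lit 493858305440582043680)) (.cons (.ev (nat_lit 4740813509517859946753) (nat_lit 1)) .nil))) (.cons (.br (nat_lit 2) (nat_lit 0) (.cons (.rf (nat_lit 3909) (nat_lit 493858305440582043680)) (.cons (.ev (nat_lit 4740813509517859946753) (nat_lit 1)) .nil))) .nil)))) (.cons (.ev (nat_lit 79537647542532426735995060481) (nat_lit 1)) .nil)))) .nil)))),
 (.br (nat_lit 10) (nat_lit 1) (.cons (.kr (nat_lit 281474976776192) (nat_lit 1208925819615728686333952) (nat_lit 2) (nat_lit 0)) (.cons (.br (nat_lit 9) (nat_lit 1) (.cons (.br (nat_lit 8) (nat_lit 1) (.cons (.br (nat_lit 13) (nat_lit 0) (.cons (.ev (nat_lit 1208944266358707196067841) (nat_lit 1)) .nil)) .nil)) (.cons (.br (nat_lit 8) (nat_lit 1) (.cons (.rf (nat_lit 3444) (nat_lit 493823298087721994272)) (.cons (.rf (nat_lit 3892) (nat_lit 457822648505293146144)) .nil))) .nil))) (.cons (.br (nat_lit 9) (nat_lit 1) (.cons (.br (nat_lit 7) (nat_lit 0) (.cons (.br (nat_lit 8) (nat_lit 1) (.cons (.ev (nat_lit 1208944266358707196067841)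 (nat_lit 1)) .nil)) (.cons (.ev (nat_lit 4740813509517859946753) (nat_lit 1)) .nil))) (.cons (.br (nat_lit 13) (nat_lit 0) (.cons (.br (nat_lit 2) (nat_lit 0) (.cons (.ev (nat_lit 309489750706630709924134913) (nat_lit 1)) .nil)) (.cons (.br (nat_lit 2) (nat_lit 0) (.cons (.ev (nat_lit 309485028268370621706076161) (nat_lit 1)) .nil)) .nil))) (.cons (.rf (nat_lit 3784) (nat_lit 457824828835778364480)) .nil)))) .nil)))),
 (.br (nat_lit 13) (nat_lit 0) (.cons (.rf (nat_lit 3679) (nat_lit 493856086629338417184)) (.cons (.rf (nat_lit 3679) (nat_lit 493857212528171517984)) .nil))),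
 (.br (nat_lit 10) (nat_lit 1) (.cons (.kr (nat_lit 281474976776192) (nat_lit 1208925819615728686333952) (nat_lit 2) (nat_lit 0)) (.cons (.br (nat_lit 4) (nat_lit 1) (.cons (.kr (nat_lit 309485009893965612716130560) (nat_lit 2417851639231461667635200) (nat_lit 1) (nat_lit 0)) (.cons (.rf (nat_lit 3912) (nat_lit 493858305440582043680)) .nil))) (.cons (.rf (nat_lit 3577) (nat_lit 493679323641425266720)) .nil)))),
 (.br (nat_lit 10) (nat_lit 1) (.cons (.rf (nat_lit 3911) (nat_lit 493858305440582043680)) (.cons (.rf (nat_lit 3913) (nat_lit 493858305440582043680)) (.cons (.br (nat_lit 13) (nat_lit 0) (.cons (.br (nat_lit 9) (nat_lit 1) (.cons (.br (nat_lit 8) (nat_lit 1) (.cons (.ev (nat_lit 4740885566016664371201) (nat_lit 1)) .nil)) (.cons (.rf (nat_lit 3825) (nat_lit 493858305440447826080)) .nil))) (.cons (.ev (nat_lit 20361948460120022466411932680193) (nat_lit 1)) (.cons (.rf (nat_lit 3784) (nat_lit 457824828835778364480)) .nil)))) .nil)))),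
 (.br (nat_lit 7) (nat_lit 0) (.cons (.br (nat_lit 1) (nat_lit 0) (.cons (.br (nat_lit 10) (nat_lit 1) (.cons (.zr (nat_lit 316912650057057354772222509056) (nat_lit 618974760528537629107421185) (nat_lit 5) (nat_lit 0)) (.cons (.zr (nat_lit 60926456973469419725722885292800) (nat_lit 618974760456480035069493249) (nat_lit 5) (nat_lit 0)) .nil))) (.cons (.br (nat_lit 9) (nat_lit 1) (.cons (.ev (nat_lit 4740813509517859946753) (nat_lit 1)) (.cons (.zr (nat_lit 40644047369817749302875145634304) (nat_lit 309489750635134966344712193) (nat_lit 5) (nat_lit 0)) .nil))) .nil))) (.cons (.kr (nat_lit 79228162514264338693055578112) (nat_lit 72339069014638592) (nat_lit 5) (nat_lit 0)) (.cons (.br (nat_lit 2) (nat_lit 0) (.cons (.ev (nat_lit 79228162532783139265603174401) (nat_lit 1)) (.cons (.br (nat_lit 1) (nat_lit 0) (.cons (.br (nat_lit 13) (nat_lit 0) (.cons (.zr (nat_lit 216735732067401728) (nat_lit 310698676454186645565997057) (nat_lit 5) (nat_lit 0)) .nil)) (.cons (.kr (nat_lit 158457538676714775984442704128)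 (nat_lit 144959617301086208) (nat_lit 1) (nat_lit 0)) .nil))) (.cons (.rf (nat_lit 3577) (nat_lit 493678232925890512928)) .nil)))) .nil)))),
 (.br (nat_lit 2) (nat_lit 0) (.cons (.ev (nat_lit 309485028268370621706076161) (nat_lit 1)) (.cons (.br (nat_lit 1) (nat_lit 0) (.cons (.ev (nat_lit 309489750634853487056257281) (nat_lit 1)) (.cons (.ev (nat_lit 4740813509517859946753) (nat_lit 1)) .nil))) (.cons (.br (nat_lit 10) (nat_lit 1) (.cons (.kr (nat_lit 281474976776192) (nat_lit 1208925819615728686333952) (nat_lit 2) (nat_lit 0)) (.cons (.rf (nat_lit 3577) (nat_lit 493678232925890512928)) (.cons (.rf (nat_lit 3690) (nat_lit 493857076188729673760)) .nil)))) .nil)))),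
 (.br (nat_lit 1) (nat_lit 0) (.cons (.kr (nat_lit 20361637766165934762640306864384) (nat_lit 72620543991414784) (nat_lit 1) (nat_lit 0)) .nil)),
 (.br (nat_lit 7) (nat_lit 0) (.cons (.kr (nat_lit 79228162514264338693055578112) (nat_lit 72339069014638592) (nat_lit 5) (nat_lit 0)) (.cons (.rf (nat_lit 3916) (nat_lit 493858305440582043680)) (.cons (.br (nat_lit 10) (nat_lit 1) (.cons (.br (nat_lit 8) (nat_lit 1) (.cons (.ev (nat_lit 79537652264970968299173052673) (nat_lit 1)) (.cons (.zr (nat_lit 61084913298497804284622385709568) (nat_lit 309494473001055981253165057) (nat_lit 5) (nat_lit 8)) .nil))) (.cons (.rf (nat_lit 3577) (nat_lit 493678232925890512928)) (.cons (.br (nat_lit 2) (nat_lit 0) (.cons (.rf (nat_lit 3917) (nat_lit 493858305440582043680)) (.cons (.ev (nat_lit 20361947255916641673721401114625) (nat_lit 1)) .nil))) .nil)))) .nil)))),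
 (.br (nat_lit 11) (nat_lit 1) (.cons (.rf (nat_lit 3419) (nat_lit 493565395547242989600)) (.cons (.br (nat_lit 10) (nat_lit 1) (.cons (.rf (nat_lit 3911) (nat_lit 493858305440582043680)) (.cons (.rf (nat_lit 3913) (nat_lit 493858305440582043680)) (.cons (.rf (nat_lit 3914) (nat_lit 493858305440582043680)) (.cons (.br (nat_lit 10) (nat_lit 1) (.cons (.rf (nat_lit 3911) (nat_lit 493858305440582043680)) (.cons (.rf (nat_lit 3577) (nat_lit 493679323641425266720)) (.cons (.rf (nat_lit 3914) (nat_lit 493858305440582043680)) .nil)))) .nil))))) (.cons (.br (nat_lit 7) (nat_lit 0) (.cons (.rf (nat_lit 3915) (nat_lit 493858305440582043680)) (.cons (.rf (nat_lit 3916) (nat_lit 493858305440582043680)) (.cons (.rf (nat_lit 3918) (nat_lit 493858305440582043680)) (.cons (.br (nat_lit 7) (nat_lit 0) (.cons (.rf (nat_lit 3915) (nat_lit 493858305440582043680)) (.cons (.rf (nat_lit 3916) (nat_lit 493858305440582043680)) (.cons (.rf (nat_lit 3918) (nat_lit 493858305440582043680)) .nil)))) .nil))))) .nil)))),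
 (.br (nat_lit 10) (nat_lit 1) (.cons (.rf (nat_lit 3419) (nat_lit 493563215216757770272)) (.cons (.br (nat_lit 8) (nat_lit 1) (.cons (.br (nat_lit 4) (nat_lit 1) (.cons (.ev (nat_lit 79538856468352042464664682753) (nat_lit 1)) (.cons (.ev (nat_lit 20282409603670189507089992253441) (nat_lit 1)) .nil))) (.cons (.rf (nat_lit 3784) (nat_lit 457822648505293146144)) .nil))) (.cons (.br (nat_lit 8) (nat_lit 1) (.cons (.br (nat_lit 4) (nat_lit 1) (.cons (.br (nat_lit 7) (nat_lit 0) (.cons (.ev (nat_lit 79537652264899191084895240193) (nat_lit 1)) .nil)) (.cons (.ev (nat_lit 20282409603670189507089992253441) (nat_lit 1)) .nil))) (.cons (.rf (nat_lit 3469) (nat_lit 493823298087721994272)) .nil))) .nil))))]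

theorem c142 : chkAll C T R L142 (nat_lit 3895) = true := by decide +kernel

theorem l142 : (nat_lit 3895) + L142.length = (nat_lit 3921) := by decide +kernel

/-- part of the certificates -/
def L143 : List Prf := [(.br (nat_lit 10) (nat_lit 1) (.cons (.rf (nat_lit 3419) (nat_lit 493563215216757770272)) (.cons (.br (nat_lit 8) (nat_lit 1) (.cons (.br (nat_lit 9) (nat_lit 1) (.cons (.br (nat_lit 13) (nat_lit 0) (.cons (.ev (nat_lit 4740885566016664371201) (nat_lit 1)) .nil)) (.cons (.ev (nat_lit 309489750634572012096323841) (nat_lit 1)) .nil))) (.cons (.br (nat_lit 9) (nat_lit 1) (.cons (.ev (nat_lit 1213666632841572546248961) (nat_lit 1)) (.cons (.rf (nat_lit 3829) (nat_lit 457857653653768569920)) .nil))) (.cons (.rf (nat_lit 3784) (nat_lit 457822648505293145152)) .nil)))) (.cons (.br (nat_lit 1) (nat_lit 0) (.cons (.kr (nat_lit 20282409603651670705422227996928) (nat_lit 1208925819615728703111168) (nat_lit 1) (nat_lit 0)) (.cons (.br (nat_lit 7) (nat_lit 0) (.cons (.br (nat_lit 9)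 (nat_lit 1) (.cons (.zr (nat_lit 216735732067401728) (nat_lit 310698676454186645565997057) (nat_lit 5) (nat_lit 0)) .nil)) (.cons (.kr (nat_lit 20282409608374036906816896499968) (nat_lit 1208925891672223229411328) (nat_lit 1) (nat_lit 0)) .nil))) (.cons (.br (nat_lit 8) (nat_lit 1) (.cons (.ev (nat_lit 79228162532711364241758683393) (nat_lit 1)) (.cons (.ev (nat_lit 309485028340147835983888641) (nat_lit 1)) .nil))) .nil)))) .nil)))),
 (.br (nat_lit 4) (nat_lit 1) (.cons (.kr (nat_lit 20361637766165934762640306864384) (nat_lit 72620543991414784) (nat_lit 1) (nat_lit 0)) .nil)),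
 (.br (nat_lit 10) (nat_lit 1) (.cons (.rf (nat_lit 3920) (nat_lit 493858305440582043680)) (.cons (.rf (nat_lit 3921) (nat_lit 493858305440582043680)) (.cons (.br (nat_lit 9) (nat_lit 1) (.cons (.br (nat_lit 4) (nat_lit 1) (.cons (.br (nat_lit 8) (nat_lit 1) (.cons (.zr (nat_lit 618970019859425869516963840) (nat_lit 4840444091685464365334529) (nat_lit 5) (nat_lit 0)) .nil)) .nil)) (.cons (.br (nat_lit 8) (nat_lit 1) (.cons (.rf (nat_lit 3922) (nat_lit 493858305440582043680)) (.cons (.ev (nat_lit 20361947255916641673721401114625) (nat_lit 1)) .nil))) .nil))) .nil)))),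
 (.br (nat_lit 11) (nat_lit 1) (.cons (.rf (nat_lit 3910) (nat_lit 493858305440582043680)) (.cons (.rf (nat_lit 3919) (nat_lit 493858305440582043680)) (.cons (.br (nat_lit 10) (nat_lit 1) (.cons (.rf (nat_lit 3920) (nat_lit 493858305440582043680)) (.cons (.rf (nat_lit 3921) (nat_lit 493858305440582043680)) (.cons (.rf (nat_lit 3923) (nat_lit 493858305440582043680)) (.cons (.br (nat_lit 10) (nat_lit 1) (.cons (.rf (nat_lit 3920) (nat_lit 493858305440582043680)) (.cons (.rf (nat_lit 3921) (nat_lit 493858305440582043680)) (.cons (.rf (nat_lit 3923) (nat_lit 493858305440582043680)) .nil)))) .nil))))) .nil)))),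
 (.br (nat_lit 6) (nat_lit 1) (.cons (.rf (nat_lit 3829) (nat_lit 493858305440582043680)) (.cons (.rf (nat_lit 3892) (nat_lit 493858305440582043680)) (.cons (.br (nat_lit 11) (nat_lit 1) (.cons (.rf (nat_lit 3895) (nat_lit 493858305440582043680)) (.cons (.rf (nat_lit 3900) (nat_lit 493858305440582043680)) (.cons (.rf (nat_lit 3903) (nat_lit 493858305440582043680)) (.cons (.br (nat_lit 11) (nat_lit 1) (.cons (.rf (nat_lit 3895) (nat_lit 493858305440582043680)) (.cons (.rf (nat_lit 3900) (nat_lit 493858305440582043680)) (.cons (.rf (nat_lit 3903) (nat_lit 493858305440582043680)) .nil)))) .nil))))) (.cons (.br (nat_lit 11) (nat_lit 1) (.cons (.rf (nat_lit 3910) (nat_lit 493858305440582043680)) (.cons (.rf (nat_lit 3919) (nat_lit 493858305440582043680)) (.cons (.rf (nat_lit 3924) (nat_lit 493858305440582043680)) (.cons (.br (nat_lit 11) (nat_lit 1) (.cons (.rf (nat_lit 3910) (nat_lit 493858305440582043680)) (.cons (.rf (nat_lit 3919) (nat_lit 493858305440582043680)) (.cons (.rf (nat_lit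 3924) (nat_lit 493858305440582043680)) .nil)))) .nil))))) .nil))))),
 (.br (nat_lit 7) (nat_lit 0) (.cons (.ev (nat_lit 310693935713298771209093121) (nat_lit 1)) (.cons (.ev (nat_lit 79537652264970968299173052673) (nat_lit 1)) .nil))),
 (.br (nat_lit 5) (nat_lit 0) (.cons (.br (nat_lit 2) (nat_lit 0) (.cons (.br (nat_lit 1) (nat_lit 0) (.cons (.rf (nat_lit 3419) (nat_lit 493563215216757770272)) (.cons (.br (nat_lit 10) (nat_lit 1) (.cons (.br (nat_lit 13) (nat_lit 0) (.cons (.ev (nat_lit 20838863670200131530231237772548) (nat_lit 3)) .nil)) (.cons (.br (nat_lit 7) (nat_lit 0) (.cons (.zr (nat_lit 237686905394648418119663484928) (nat_lit 309503917735146525216997377) (nat_lit 5) (nat_lit 0)) .nil)) .nil))) .nil))) (.cons (.ev (nat_lit 79228167236630820463189229569) (nat_lit 1)) .nil))) (.cons (.br (nat_lit 2) (nat_lit 0) (.cons (.br (nat_lit 7) (nat_lit 0) (.cons (.br (nat_lit 1) (nat_lit 0) (.cons (.br (nat_lit 11) (nat_lit 1) (.cons (.ev (nat_lit 20362878133502097306245958665988) (nat_lit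 3)) .nil)) .nil)) (.cons (.br (nat_lit 1) (nat_lit 0) (.cons (.ev (nat_lit 1208944338416296922185729) (nat_lit 1)) (.cons (.ev (nat_lit 475678488559093764334083572740) (nat_lit 3)) .nil))) .nil))) (.cons (.br (nat_lit 7) (nat_lit 0) (.cons (.br (nat_lit 13) (nat_lit 0) (.cons (.br (nat_lit 11) (nat_lit 1) (.cons (.ev (nat_lit 20678557698112613670738561532676) (nat_lit 3)) .nil)) .nil)) (.cons (.br (nat_lit 9) (nat_lit 1) (.cons (.br (nat_lit 11) (nat_lit 1) (.cons (.ev (nat_lit 21471467945903105784198268649736) (nat_lit 4)) .nil)) (.cons (.br (nat_lit 1) (nat_lit 0) (.cons (.ev (nat_lit 20283044304004062276106173153800) (nat_lit 4)) .nil)) .nil))) .nil))) (.cons (.br (nat_lit 1) (nat_lit 0) (.cons (.br (nat_lit 7) (nat_lit 0) (.cons (.br (nat_lit 11) (nat_lit 1) (.cons (.ev (nat_lit 20838249526475928944719532720388) (nat_lit 3)) .nil)) (.cons (.br (nat_lit 10) (nat_lit 1) (.cons (.ev (nat_lit 20678555289742747264562492017416) (nat_lit 4)) .nil)) .nil))) (.cons (.br (nat_lit 13) (nat_lit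 0) (.cons (.ev (nat_lit 20361638975110201121343191187713) (nat_lit 1)) (.cons (.rf (nat_lit 3926) (nat_lit 493858305440582043680)) .nil))) (.cons (.ev (nat_lit 79537647542532426735995060481) (nat_lit 1)) .nil)))) .nil)))) (.cons (.br (nat_lit 13) (nat_lit 0) (.cons (.br (nat_lit 7) (nat_lit 0) (.cons (.br (nat_lit 2) (nat_lit 0) (.cons (.ev (nat_lit 79229371458602754994272796673) (nat_lit 1)) (.cons (.br (nat_lit 1) (nat_lit 0) (.cons (.ev (nat_lit 20521951001253896480970902799108) (nat_lit 3)) .nil)) .nil))) (.cons (.ev (nat_lit 20361947251194274908281579241473) (nat_lit 1)) .nil))) (.cons (.br (nat_lit 7) (nat_lit 0) (.cons (.br (nat_lit 11) (nat_lit 1) (.cons (.ev (nat_lit 79537652264970967199661424641) (nat_lit 1)) (.cons (.br (nat_lit 1) (nat_lit 0) (.cons (.ev (nat_lit 20521963156736338458065777133832) (nat_lit 4)) .nil)) .nil))) (.cons (.br (nat_lit 11) (nat_lit 1) (.cons (.br (nat_lit 9) (nat_lit 1) (.cons (.ev (nat_lit 20838247099216594357446777307908) (nat_lit 3)) .nil)) (.cons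 (.br (nat_lit 9) (nat_lit 1) (.cons (.ev (nat_lit 80157840636647439336363655426) (nat_lit 2)) .nil)) .nil))) (.cons (.br (nat_lit 9) (nat_lit 1) (.cons (.br (nat_lit 2) (nat_lit 0) (.cons (.ev (nat_lit 20838249526475928944719532720388) (nat_lit 3)) .nil)) (.cons (.br (nat_lit 10) (nat_lit 1) (.cons (.ev (nat_lit 79229376180897179170385231873) (nat_lit 1)) .nil)) .nil))) .nil)))) (.cons (.ev (nat_lit 79537647542532427835506688001) (nat_lit 1)) .nil)))) .nil)))),
 (.br (nat_lit 2) (nat_lit 0) (.cons (.rf (nat_lit 3927) (nat_lit 493858305440582043680)) (.cons (.br (nat_lit 1) (nat_lit 0) (.cons (.br (nat_lit 13) (nat_lit 0) (.cons (.br (nat_lit 7) (nat_lit 0) (.cons (.br (nat_lit 5) (nat_lit 0) (.cons (.ev (nat_lit 79850768811655244572992209154) (nat_lit 2)) .nil)) .nil)) (.cons (.br (nat_lit 5) (nat_lit 0) (.cons (.ev (nat_lit 20361638975110201121343191187713) (nat_lit 1)) (.cons (.ev (nat_lit 20361947255916569334656681377793) (nat_lit 1)) .nil))) .nil))) (.cons (.rf (nat_lit 3419) (nat_lit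 493563215216757770272)) (.cons (.br (nat_lit 10) (nat_lit 1) (.cons (.br (nat_lit 8) (nat_lit 1) (.cons (.ev (nat_lit 1208944266359806707695873) (nat_lit 1)) (.cons (.br (nat_lit 11) (nat_lit 1) (.cons (.ev (nat_lit 20837009178066629663190300428036) (nat_lit 3)) .nil)) .nil))) (.cons (.ev (nat_lit 4722438540463699984641) (nat_lit 1)) (.cons (.br (nat_lit 7) (nat_lit 0) (.cons (.ev (nat_lit 20282410817318303265519780823041) (nat_lit 1)) (.cons (.br (nat_lit 8) (nat_lit 1) (.cons (.ev (nat_lit 20678557698185969422945229275908) (nat_lit 3)) .nil)) .nil))) .nil)))) .nil)))) (.cons (.br (nat_lit 1) (nat_lit 0) (.cons (.br (nat_lit 7) (nat_lit 0) (.cons (.br (nat_lit 10) (nat_lit 1) (.cons (.br (nat_lit 13) (nat_lit 0) (.cons (.ev (nat_lit 79850759329813180849810768130) (nat_lit 2)) .nil)) (.cons (.ev (nat_lit 1208944266358707196067841) (nat_lit 1)) .nil))) (.cons (.ev (nat_lit 309489750634572012096323841) (nat_lit 1)) .nil))) (.cons (.br (nat_lit 5) (nat_lit 0) (.cons (.br (nat_lit 10) (nat_lit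 1) (.cons (.ev (nat_lit 4722438540463699984641) (nat_lit 1)) (.cons (.br (nat_lit 7) (nat_lit 0) (.cons (.ev (nat_lit 20520101363639352027595980341508) (nat_lit 3)) .nil)) .nil))) (.cons (.br (nat_lit 7) (nat_lit 0) (.cons (.ev (nat_lit 79229376180969236760111349761) (nat_lit 1)) (.cons (.ev (nat_lit 79538861172343838858949951745) (nat_lit 1)) .nil))) (.cons (.rf (nat_lit 3892) (nat_lit 493565395547242988608)) .nil)))) (.cons (.rf (nat_lit 3419) (nat_lit 493565395547242989600)) .nil)))) .nil)))),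
 (.br (nat_lit 2) (nat_lit 0) (.cons (.rf (nat_lit 3927) (nat_lit 493858305440582043680)) (.cons (.rf (nat_lit 3928) (nat_lit 493858305440582043680)) (.cons (.br (nat_lit 11) (nat_lit 1) (.cons (.rf (nat_lit 3419) (nat_lit 493565395547242989600)) (.cons (.rf (nat_lit 3829) (nat_lit 493565395547242988608)) (.cons (.br (nat_lit 10) (nat_lit 1) (.cons (.rf (nat_lit 3419) (nat_lit 493563215216757770272)) (.cons (.br (nat_lit 1) (nat_lit 0) (.cons (.ev (nat_lit 1208944338416296922185729) (nat_lit 1)) (.cons (.br (nat_lit 8) (nat_lit 1) (.cons (.ev (nat_lit 79537656987410073920473334274) (nat_lit 2)) .nil)) .nil))) (.cons (.br (nat_lit 1) (nat_lit 0) (.cons (.br (nat_lit 9) (nat_lit 1) (.cons (.zr (nat_lit 237686905394648418119663484928) (nat_lit 309503917735146525216997377) (nat_lit 5) (nat_lit 0)) .nil)) (.cons (.br (nat_lit 8) (nat_lit 1) (.cons (.ev (nat_lit 20678555299187480232492215634696) (nat_lit 4)) .nil)) .nil))) .nil)))) (.cons (.br (nat_lit 1) (nat_lit 0) (.cons (.br (nat_lit 9)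 (nat_lit 1) (.cons (.br (nat_lit 7) (nat_lit 0) (.cons (.ev (nat_lit 20678552862482833958140549464836) (nat_lit 3)) .nil)) (.cons (.br (nat_lit 5) (nat_lit 0) (.cons (.ev (nat_lit 20678557698112613670738561532676) (nat_lit 3)) .nil)) .nil))) (.cons (.br (nat_lit 8) (nat_lit 1) (.cons (.br (nat_lit 7) (nat_lit 0) (.cons (.ev (nat_lit 20838249535920661912649256337668) (nat_lit 3)) .nil)) (.cons (.kr (nat_lit 20282409603670117168020960837888) (nat_lit 309485009893402662779486208) (nat_lit 1) (nat_lit 0)) .nil))) (.cons (.rf (nat_lit 3419) (nat_lit 493563215216757770272)) .nil)))) .nil))))) .nil)))),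
 (.br (nat_lit 2) (nat_lit 0) (.cons (.rf (nat_lit 3927) (nat_lit 493858305440582043680)) (.cons (.rf (nat_lit 3928) (nat_lit 493858305440582043680)) (.cons (.rf (nat_lit 3929) (nat_lit 493858305440582043680)) (.cons (.br (nat_lit 2) (nat_lit 0) (.cons (.rf (nat_lit 3927) (nat_lit 493858305440582043680)) (.cons (.rf (nat_lit 3928) (nat_lit 493858305440582043680)) (.cons (.rf (nat_lit 3929) (nat_lit 493858305440582043680)) .nil)))) .nil))))),
 (.br (nat_lit 2) (nat_lit 0) (.cons (.br (nat_lit 1) (nat_lit 0) (.cons (.rf (nat_lit 3419) (nat_lit 493563215216757770272)) (.cons (.br (nat_lit 11) (nat_lit 1) (.cons (.rf (nat_lit 3892) (nat_lit 493565395547242989600)) (.cons (.br (nat_lit 5) (nat_lit 0) (.cons (.ev (nat_lit 20681659830100235312286988043016) (nat_lit 4)) .nil)) .nil))) .nil))) (.cons (.br (nat_lit 5) (nat_lit 0) (.cons (.br (nat_lit 1) (nat_lit 0) (.cons (.br (nat_lit 11) (nat_lit 1) (.cons (.ev (nat_lit 79538861172343838858949951745) (nat_lit 1)) .nil)) (.cons (.rf (nat_lit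 3419) (nat_lit 493565395547242989600)) .nil))) (.cons (.ev (nat_lit 309485028268370621706076161) (nat_lit 1)) .nil))) .nil))),
 (.br (nat_lit 2) (nat_lit 0) (.cons (.rf (nat_lit 3931) (nat_lit 493858305440582043680)) (.cons (.br (nat_lit 1) (nat_lit 0) (.cons (.br (nat_lit 11) (nat_lit 1) (.cons (.ev (nat_lit 79537647542532427835506688001) (nat_lit 1)) (.cons (.ev (nat_lit 20443032333212633753503815173380) (nat_lit 3)) .nil))) (.cons (.rf (nat_lit 3419) (nat_lit 493563215216757770272)) (.cons (.rf (nat_lit 3419) (nat_lit 493565395547242989600)) .nil)))) .nil))),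
 (.br (nat_lit 11) (nat_lit 1) (.cons (.rf (nat_lit 3419) (nat_lit 493565395547242989600)) (.cons (.br (nat_lit 4) (nat_lit 1) (.cons (.br (nat_lit 2) (nat_lit 0) (.cons (.zr (nat_lit 2417851855402049053327360) (nat_lit 309503917734302096008675329) (nat_lit 5) (nat_lit 0)) .nil)) .nil)) .nil))),
 (.br (nat_lit 11) (nat_lit 1) (.cons (.rf (nat_lit 3419) (nat_lit 493565395547242989600)) (.cons (.br (nat_lit 2) (nat_lit 0) (.cons (.br (nat_lit 1) (nat_lit 0) (.cons (.ev (nat_lit 20678555261482188409286254855428) (nat_lit 3)) .nil)) (.cons (.br (nat_lit 1) (nat_lit 0) (.cons (.zr (nat_lit 158456325028600734980149215488) (nat_lit 310698658007724051111346177) (nat_lit 5) (nat_lit 0)) .nil)) .nil))) .nil))),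
 (.br (nat_lit 7) (nat_lit 0) (.cons (.ev (nat_lit 72057598349672449) (nat_lit 1)) (.cons (.br (nat_lit 10) (nat_lit 1) (.cons (.rf (nat_lit 3784) (nat_lit 457822648505293146144)) (.cons (.rf (nat_lit 3784) (nat_lit 457822648505293145152)) .nil))) .nil))),
 (.br (nat_lit 10) (nat_lit 1) (.cons (.rf (nat_lit 3419) (nat_lit 493563215216757770272)) (.cons (.rf (nat_lit 3784) (nat_lit 457822648505293145152)) .nil))),
 (.br (nat_lit 10) (nat_lit 1) (.cons (.rf (nat_lit 3419) (nat_lit 493563215216757770272)) (.cons (.br (nat_lit 4) (nat_lit 1) (.cons (.br (nat_lit 9) (nat_lit 1) (.cons (.ev (nat_lit 79538861172343838858949951745) (nat_lit 1)) .nil)) .nil)) .nil))),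
 (.br (nat_lit 10) (nat_lit 1) (.cons (.rf (nat_lit 3419) (nat_lit 493563215216757770272)) (.cons (.br (nat_lit 1) (nat_lit 0) (.cons (.br (nat_lit 2) (nat_lit 0) (.cons (.ev (nat_lit 21634269197772209409948191104784) (nat_lit 5)) .nil)) (.cons (.br (nat_lit 2) (nat_lit 0) (.cons (.ev (nat_lit 20837632983752656760721239114500) (nat_lit 3)) .nil)) .nil))) .nil))),
 (.br (nat_lit 13) (nat_lit 0) (.cons (.rf (nat_lit 3930) (nat_lit 493858305440582043680)) (.cons (.br (nat_lit 2) (nat_lit 0) (.cons (.rf (nat_lit 3931) (nat_lit 493858305440582043680)) (.cons (.rf (nat_lit 3932) (nat_lit 493858305440582043680)) (.cons (.br (nat_lit 2) (nat_lit 0) (.cons (.rf (nat_lit 3931) (nat_lit 493858305440582043680)) (.cons (.rf (nat_lit 3932) (nat_lit 493858305440582043680)) .nil))) .nil)))) (.cons (.br (nat_lit 10) (nat_lit 1) (.cons (.ev (nat_lit 20282409603651670705422227996929) (nat_lit 1)) (.cons (.br (nat_lit 2) (nat_lit 0) (.cons (.br (nat_lit 7) (nat_lit 0) (.cons (.ev (nat_lit 72057598349672449)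 (nat_lit 1)) (.cons (.br (nat_lit 11) (nat_lit 1) (.cons (.br (nat_lit 5) (nat_lit 0) (.cons (.zr (nat_lit 237686905394648418119663484928) (nat_lit 309503917735146525216997377) (nat_lit 5) (nat_lit 0)) .nil)) (.cons (.br (nat_lit 9) (nat_lit 1) (.cons (.ev (nat_lit 20838244709736190502867657097476) (nat_lit 3)) .nil)) .nil))) .nil))) (.cons (.br (nat_lit 5) (nat_lit 0) (.cons (.br (nat_lit 7) (nat_lit 0) (.cons (.br (nat_lit 1) (nat_lit 0) (.cons (.ev (nat_lit 20838863679645152165604305732868) (nat_lit 3)) .nil)) .nil)) (.cons (.br (nat_lit 11) (nat_lit 1) (.cons (.rf (nat_lit 3892) (nat_lit 493565395547242989600)) (.cons (.br (nat_lit 4) (nat_lit 1) (.cons (.zr (nat_lit 158456325028600734980149215488) (nat_lit 310698658007724051111346177) (nat_lit 5) (nat_lit 0)) .nil)) .nil))) .nil))) (.cons (.br (nat_lit 11) (nat_lit 1) (.cons (.rf (nat_lit 3419) (nat_lit 493565395547242989600)) (.cons (.ev (nat_lit 79537647542532427835506688001) (nat_lit 1)) (.cons (.br (nat_lit 1) (nat_lit 0) (.cons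 (.zr (nat_lit 3626777602959079911784448) (nat_lit 309485065161577289853436417) (nat_lit 5) (nat_lit 11)) (.cons (.br (nat_lit 4) (nat_lit 1) (.cons (.ev (nat_lit 79850764052179944090609255170) (nat_lit 2)) .nil)) .nil))) .nil)))) .nil)))) (.cons (.br (nat_lit 11) (nat_lit 1) (.cons (.rf (nat_lit 3933) (nat_lit 493858305440582043680)) (.cons (.rf (nat_lit 3934) (nat_lit 493858305440582043680)) (.cons (.br (nat_lit 11) (nat_lit 1) (.cons (.rf (nat_lit 3933) (nat_lit 493858305440582043680)) (.cons (.rf (nat_lit 3934) (nat_lit 493858305440582043680)) .nil))) .nil)))) (.cons (.br (nat_lit 1) (nat_lit 0) (.cons (.br (nat_lit 11) (nat_lit 1) (.cons (.br (nat_lit 2) (nat_lit 0) (.cons (.ev (nat_lit 1208944266358707196067841) (nat_lit 1)) .nil)) (.cons (.ev (nat_lit 20361638975110273178941540794625) (nat_lit 1)) .nil))) (.cons (.ev (nat_lit 1213666632841572546248961) (nat_lit 1)) (.cons (.br (nat_lit 11) (nat_lit 1) (.cons (.rf (nat_lit 3419) (nat_lit 493565395547242989600)) (.cons (.br (nat_lit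 9) (nat_lit 1) (.cons (.br (nat_lit 2) (nat_lit 0) (.cons (.ev (nat_lit 20520096527935929451700671547140) (nat_lit 3)) .nil)) .nil)) .nil))) .nil)))) .nil))))) (.cons (.br (nat_lit 11) (nat_lit 1) (.cons (.ev (nat_lit 79537647542532426735995060481) (nat_lit 1)) (.cons (.br (nat_lit 1) (nat_lit 0) (.cons (.br (nat_lit 7) (nat_lit 0) (.cons (.ev (nat_lit 20361947251194275189756539174913) (nat_lit 1)) (.cons (.br (nat_lit 10) (nat_lit 1) (.cons (.rf (nat_lit 3784) (nat_lit 457822648505293145152)) (.cons (.br (nat_lit 2) (nat_lit 0) (.cons (.ev (nat_lit 313125954524036440162107650) (nat_lit 2)) .nil)) .nil))) .nil))) (.cons (.br (nat_lit 5) (nat_lit 0) (.cons (.ev (nat_lit 309489750634854586567884801) (nat_lit 1)) (.cons (.br (nat_lit 7) (nat_lit 0) (.cons (.br (nat_lit 10) (nat_lit 1) (.cons (.ev (nat_lit 1208944266359806707695873) (nat_lit 1)) .nil)) (.cons (.br (nat_lit 2) (nat_lit 0) (.cons (.ev (nat_lit 313125954524036440162107650) (nat_lit 2)) .nil)) .nil))) .nil))) (.cons (.br (nat_lit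 10) (nat_lit 1) (.cons (.rf (nat_lit 3419) (nat_lit 493563215216757770272)) (.cons (.br (nat_lit 4) (nat_lit 1) (.cons (.ev (nat_lit 20361637766165934762644618674433) (nat_lit 1)) (.cons (.ev (nat_lit 310693935713298771209093121) (nat_lit 1)) .nil))) (.cons (.rf (nat_lit 3784) (nat_lit 457822648505293146144)) .nil)))) .nil)))) (.cons (.br (nat_lit 2) (nat_lit 0) (.cons (.rf (nat_lit 3935) (nat_lit 493858305440582043680)) (.cons (.br (nat_lit 2) (nat_lit 0) (.cons (.rf (nat_lit 3935) (nat_lit 493858305440582043680)) (.cons (.rf (nat_lit 3936) (nat_lit 493858305440582043680)) .nil))) (.cons (.rf (nat_lit 3936) (nat_lit 493858305440582043680)) .nil)))) (.cons (.br (nat_lit 10) (nat_lit 1) (.cons (.rf (nat_lit 3937) (nat_lit 493858305440582043680)) (.cons (.rf (nat_lit 3938) (nat_lit 493858305440582043680)) (.cons (.br (nat_lit 10) (nat_lit 1) (.cons (.rf (nat_lit 3937) (nat_lit 493858305440582043680)) (.cons (.rf (nat_lit 3938) (nat_lit 493858305440582043680)) .nil))) .nil)))) .nil)))))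 .nil)))))]

theorem c143 : chkAll C T R L143 (nat_lit 3921) = true := by decide +kernel

theorem l143 : (nat_lit 3921) + L143.length = (nat_lit 3940) := by decide +kernel

/-- part of the certificates -/
def L144 : List Prf := [(.br (nat_lit 11) (nat_lit 1) (.cons (.rf (nat_lit 3419) (nat_lit 493565395547242989600)) (.cons (.br (nat_lit 10) (nat_lit 1) (.cons (.rf (nat_lit 3892) (nat_lit 493565395547242988608)) (.cons (.rf (nat_lit 3829) (nat_lit 493565395547242988608)) (.cons (.rf (nat_lit 3930) (nat_lit 493565395547242988608)) .nil)))) (.cons (.rf (nat_lit 3784) (nat_lit 457824828835778364480)) .nil)))),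
 (.br (nat_lit 8) (nat_lit 1) (.cons (.ev (nat_lit 79537652264899191084895174913) (nat_lit 1)) (.cons (.kr (nat_lit 309494473001336356701536256) (nat_lit 20361640184017646048397477543936) (nat_lit 2) (nat_lit 0)) .nil))),
 (.br (nat_lit 11) (nat_lit 1) (.cons (.rf (nat_lit 3940) (nat_lit 493858305440582042688)) (.cons (.rf (nat_lit 3940) (nat_lit 493858305440582043680)) (.cons (.br (nat_lit 4) (nat_lit 1) (.cons (.br (nat_lit 10) (nat_lit 1) (.cons (.rf (nat_lit 3941) (nat_lit 493858305440582043680)) .nil)) (.cons (.br (nat_lit 1) (nat_lit 0) (.cons (.br (nat_lit 2) (nat_lit 0) (.cons (.ev (nat_lit 20837011586510429419254791341316) (nat_lit 3)) .nil)) (.cons (.rf (nat_lit 3941) (nat_lit 493858305440582042688)) .nil))) .nil))) .nil)))),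
 (.br (nat_lit 2) (nat_lit 0) (.cons (.br (nat_lit 5) (nat_lit 0) (.cons (.br (nat_lit 1) (nat_lit 0) (.cons (.ev (nat_lit 20361638975110201121343191187713) (nat_lit 1)) (.cons (.br (nat_lit 7) (nat_lit 0) (.cons (.ev (nat_lit 20999798293416983307430675548936) (nat_lit 4)) .nil)) .nil))) (.cons (.ev (nat_lit 79537647542532427835506688001) (nat_lit 1)) .nil))) (.cons (.br (nat_lit 10) (nat_lit 1) (.cons (.rf (nat_lit 3419) (nat_lit 493563215216757770272)) (.cons (.br (nat_lit 11) (nat_lit 1) (.cons (.br (nat_lit 7) (nat_lit 0) (.cons (.ev (nat_lit 20838868515421931056690561877764) (nat_lit 3)) .nil)) (.cons (.ev (nat_lit 79849559830423622703122546690) (nat_lit 2)) .nil))) (.cons (.br (nat_lit 8) (nat_lit 1) (.cons (.rf (nat_lit 3892) (nat_lit 457857653653768569920)) (.cons (.br (nat_lit 11) (nat_lit 1) (.cons (.ev (nat_lit 21158264327484002718841915902728) (nat_lit 4)) .nil)) .nil))) .nil)))) (.cons (.br (nat_lit 5) (nat_lit 0) (.cons (.ev (nat_lit 309485028268370621706076161) (nat_lit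 1)) (.cons (.br (nat_lit 10) (nat_lit 1) (.cons (.ev (nat_lit 20361948460101575721243006533633) (nat_lit 1)) (.cons (.br (nat_lit 8) (nat_lit 1) (.cons (.ev (nat_lit 20999798293416983307430675548936) (nat_lit 4)) .nil)) .nil))) .nil))) .nil)))),
 (.br (nat_lit 2) (nat_lit 0) (.cons (.rf (nat_lit 3943) (nat_lit 493858305440582043680)) (.cons (.br (nat_lit 10) (nat_lit 1) (.cons (.rf (nat_lit 3419) (nat_lit 493563215216757770272)) (.cons (.br (nat_lit 7) (nat_lit 0) (.cons (.br (nat_lit 1) (nat_lit 0) (.cons (.ev (nat_lit 310693935713298771209093121) (nat_lit 1)) .nil)) (.cons (.br (nat_lit 1) (nat_lit 0) (.cons (.ev (nat_lit 79537652264899192184406868225) (nat_lit 1)) .nil)) .nil))) (.cons (.rf (nat_lit 3829) (nat_lit 457857653653768569920)) .nil)))) (.cons (.br (nat_lit 5) (nat_lit 0) (.cons (.br (nat_lit 1) (nat_lit 0) (.cons (.br (nat_lit 7) (nat_lit 0) (.cons (.ev (nat_lit 79229371458602753894761169153) (nat_lit 1)) .nil)) .nil)) (.cons (.br (nat_lit 10) (nat_lit 1) (.cons (.rf (nat_lit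 3926) (nat_lit 493858305440582043680)) (.cons (.br (nat_lit 4) (nat_lit 1) (.cons (.ev (nat_lit 20838249526475928944719532720388) (nat_lit 3)) .nil)) .nil))) .nil))) .nil)))),
 (.br (nat_lit 2) (nat_lit 0) (.cons (.rf (nat_lit 3943) (nat_lit 493858305440582043680)) (.cons (.rf (nat_lit 3944) (nat_lit 493858305440582043680)) (.cons (.br (nat_lit 10) (nat_lit 1) (.cons (.rf (nat_lit 3419) (nat_lit 493563215216757770272)) (.cons (.br (nat_lit 4) (nat_lit 1) (.cons (.br (nat_lit 7) (nat_lit 0) (.cons (.ev (nat_lit 80161462821155239255035282948) (nat_lit 3)) .nil)) (.cons (.br (nat_lit 1) (nat_lit 0) (.cons (.ev (nat_lit 20838244690846725132122926941956) (nat_lit 3)) .nil)) .nil))) (.cons (.br (nat_lit 4) (nat_lit 1) (.cons (.br (nat_lit 8) (nat_lit 1) (.cons (.ev (nat_lit 79540070153576024778284729090) (nat_lit 2)) .nil)) (.cons (.ev (nat_lit 310698658079782736071032833) (nat_lit 1)) .nil))) .nil)))) .nil)))),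
 (.br (nat_lit 13) (nat_lit 0) (.cons (.rf (nat_lit 3930) (nat_lit 493858305440582043680)) (.cons (.rf (nat_lit 3939) (nat_lit 493858305440582043680)) (.cons (.br (nat_lit 11) (nat_lit 1) (.cons (.rf (nat_lit 3940) (nat_lit 493858305440582042688)) (.cons (.rf (nat_lit 3940) (nat_lit 493858305440582043680)) (.cons (.rf (nat_lit 3942) (nat_lit 493858305440582043680)) (.cons (.br (nat_lit 11) (nat_lit 1) (.cons (.rf (nat_lit 3784) (nat_lit 457824828835778365472)) (.cons (.rf (nat_lit 3784) (nat_lit 457824828835778364480)) (.cons (.rf (nat_lit 3942) (nat_lit 493858305440582043680)) .nil)))) .nil))))) (.cons (.br (nat_lit 2) (nat_lit 0) (.cons (.rf (nat_lit 3943) (nat_lit 493858305440582043680)) (.cons (.rf (nat_lit 3944) (nat_lit 493858305440582043680)) (.cons (.rf (nat_lit 3945) (nat_lit 493858305440582043680)) (.cons (.br (nat_lit 2) (nat_lit 0) (.cons (.rf (nat_lit 3943) (nat_lit 493858305440582043680)) (.cons (.rf (nat_lit 3944) (nat_lit 493858305440582043680)) (.cons (.rf (nat_lit 3945)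 (nat_lit 493858305440582043680)) .nil)))) .nil))))) .nil))))),
 (.br (nat_lit 10) (nat_lit 1) (.cons (.ev (nat_lit 1213666632842672057876481) (nat_lit 1)) .nil)),
 (.br (nat_lit 2) (nat_lit 0) (.cons (.ev (nat_lit 1213666632842672057876481) (nat_lit 1)) .nil)),
 (.br (nat_lit 9) (nat_lit 1) (.cons (.kr (nat_lit 20361637766166006819134833164544) (nat_lit 36893489246930796544) (nat_lit 1) (nat_lit 0)) .nil)),
 (.br (nat_lit 11) (nat_lit 1) (.cons (.ev (nat_lit 20520094100750238284078062436612) (nat_lit 3)) .nil)),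
 (.br (nat_lit 13) (nat_lit 0) (.cons (.rf (nat_lit 3930) (nat_lit 493858305440582043680)) (.cons (.rf (nat_lit 3939) (nat_lit 493858305440582043680)) (.cons (.rf (nat_lit 3946) (nat_lit 493858305440582043680)) (.cons (.br (nat_lit 4) (nat_lit 1) (.cons (.br (nat_lit 8) (nat_lit 1) (.cons (.br (nat_lit 11) (nat_lit 1) (.cons (.br (nat_lit 5) (nat_lit 0) (.cons (.ev (nat_lit 309489750634853487056257281) (nat_lit 1)) (.cons (.rf (nat_lit 3745) (nat_lit 493820093011328075808)) .nil))) (.cons (.ev (nat_lit 79537647542532427835506688001) (nat_lit 1)) (.cons (.br (nat_lit 5) (nat_lit 0) (.cons (.br (nat_lit 10) (nat_lit 1) (.cons (.zr (nat_lit 237686905394648418119663484928) (nat_lit 309503917735146525216997377) (nat_lit 5) (nat_lit 0)) .nil)) (.cons (.ev (nat_lit 20361948460101647779932244279553) (nat_lit 1)) .nil))) .nil)))) (.cons (.br (nat_lit 10) (nat_lit 1) (.cons (.br (nat_lit 2) (nat_lit 0) (.cons (.br (nat_lit 11) (nat_lit 1) (.cons (.ev (nat_lit 309489750634573111607951361) (nat_lit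 1)) .nil)) (.cons (.br (nat_lit 7) (nat_lit 0) (.cons (.ev (nat_lit 309489750634573111607951361) (nat_lit 1)) .nil)) .nil))) (.cons (.br (nat_lit 11) (nat_lit 1) (.cons (.br (nat_lit 2) (nat_lit 0) (.cons (.ev (nat_lit 309489750634853487056257281) (nat_lit 1)) .nil)) .nil)) .nil))) (.cons (.br (nat_lit 9) (nat_lit 1) (.cons (.br (nat_lit 10) (nat_lit 1) (.cons (.br (nat_lit 5) (nat_lit 0) (.cons (.zr (nat_lit 618970019858862919563346688) (nat_lit 1213666633123051817926657) (nat_lit 5) (nat_lit 0)) .nil)) (.cons (.br (nat_lit 2) (nat_lit 0) (.cons (.ev (nat_lit 79538861172271780161088716801) (nat_lit 1)) .nil)) .nil))) (.cons (.rf (nat_lit 3947) (nat_lit 493858305440582043680)) .nil))) .nil)))) (.cons (.br (nat_lit 7) (nat_lit 0) (.cons (.br (nat_lit 11) (nat_lit 1) (.cons (.br (nat_lit 9) (nat_lit 1) (.cons (.br (nat_lit 5) (nat_lit 0) (.cons (.ev (nat_lit 79229376180897460645345165313) (nat_lit 1)) .nil)) (.cons (.rf (nat_lit 3948) (nat_lit 493858305440582043680)) .nil))) (.cons (.br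 (nat_lit 10) (nat_lit 1) (.cons (.rf (nat_lit 3949) (nat_lit 493858305440582043680)) (.cons (.ev (nat_lit 20282720297587383442342995361793) (nat_lit 1)) .nil))) (.cons (.br (nat_lit 10) (nat_lit 1) (.cons (.rf (nat_lit 3651) (nat_lit 493820093016691542048)) (.cons (.ev (nat_lit 20282720297587383442342995361793) (nat_lit 1)) .nil))) .nil)))) (.cons (.ev (nat_lit 72057598349672449) (nat_lit 1)) (.cons (.br (nat_lit 2) (nat_lit 0) (.cons (.br (nat_lit 5) (nat_lit 0) (.cons (.ev (nat_lit 1213666632842672057876481) (nat_lit 1)) (.cons (.ev (nat_lit 79537647542532427835506688001) (nat_lit 1)) .nil))) (.cons (.br (nat_lit 5) (nat_lit 0) (.cons (.ev (nat_lit 79229376180897460645345165313) (nat_lit 1)) (.cons (.ev (nat_lit 20282720302309750205583827402753) (nat_lit 1)) .nil))) (.cons (.br (nat_lit 5) (nat_lit 0) (.cons (.ev (nat_lit 309485028268370621706076161) (nat_lit 1)) (.cons (.ev (nat_lit 20282720302309750205583827402753) (nat_lit 1)) .nil))) .nil)))) (.cons (.br (nat_lit 5) (nat_lit 0)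 (.cons (.br (nat_lit 9) (nat_lit 1) (.cons (.br (nat_lit 2) (nat_lit 0) (.cons (.ev (nat_lit 20838868487014088170266964592388) (nat_lit 3)) .nil)) (.cons (.ev (nat_lit 309489750634573111607951361) (nat_lit 1)) .nil))) (.cons (.br (nat_lit 2) (nat_lit 0) (.cons (.ev (nat_lit 79537652264899191084895240193) (nat_lit 1)) (.cons (.br (nat_lit 8) (nat_lit 1) (.cons (.zr (nat_lit 237686905394648418119663484928) (nat_lit 309503917735146525216997377) (nat_lit 5) (nat_lit 0)) .nil)) .nil))) (.cons (.br (nat_lit 8) (nat_lit 1) (.cons (.br (nat_lit 9) (nat_lit 1) (.cons (.zr (nat_lit 2417851855402049053327360) (nat_lit 309503917734302096008675329) (nat_lit 5) (nat_lit 0)) .nil)) (.cons (.br (nat_lit 1) (nat_lit 0) (.cons (.ev (nat_lit 20363494676298722997248176097028) (nat_lit 3)) .nil)) .nil))) .nil)))) .nil))))) (.cons (.br (nat_lit 8) (nat_lit 1) (.cons (.ev (nat_lit 79228162514264337597838917889) (nat_lit 1)) (.cons (.br (nat_lit 2) (nat_lit 0) (.cons (.br (nat_lit 10) (nat_lit 1) (.cons (.rf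 (nat_lit 3950) (nat_lit 493858305440582043680)) (.cons (.br (nat_lit 1) (nat_lit 0) (.cons (.ev (nat_lit 20837006769696473335571914621188) (nat_lit 3)) .nil)) .nil))) (.cons (.br (nat_lit 9) (nat_lit 1) (.cons (.br (nat_lit 11) (nat_lit 1) (.cons (.ev (nat_lit 20679176639834952071091115591428) (nat_lit 3)) .nil)) (.cons (.ev (nat_lit 20361637770888373303108285038593) (nat_lit 1)) .nil))) (.cons (.br (nat_lit 7) (nat_lit 0) (.cons (.ev (nat_lit 4722438823038171545601) (nat_lit 1)) (.cons (.br (nat_lit 9) (nat_lit 1) (.cons (.ev (nat_lit 20679176639908305019577525798148) (nat_lit 3)) .nil)) .nil))) .nil)))) (.cons (.br (nat_lit 11) (nat_lit 1) (.cons (.br (nat_lit 9) (nat_lit 1) (.cons (.br (nat_lit 10) (nat_lit 1) (.cons (.ev (nat_lit 20837011605400183013761490420996) (nat_lit 3)) .nil)) .nil)) (.cons (.br (nat_lit 2) (nat_lit 0) (.cons (.br (nat_lit 10) (nat_lit 1) (.cons (.zr (nat_lit 36893491445954183168) (nat_lit 310698658007724046833156097) (nat_lit 5) (nat_lit 0)) .nil)) (.cons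 (.ev (nat_lit 20282720297587383442342995361793) (nat_lit 1)) .nil))) .nil))) .nil)))) (.cons (.br (nat_lit 11) (nat_lit 1) (.cons (.br (nat_lit 9) (nat_lit 1) (.cons (.br (nat_lit 8) (nat_lit 1) (.cons (.br (nat_lit 10) (nat_lit 1) (.cons (.zr (nat_lit 2417851855402049053327360) (nat_lit 237993977293427866267704885249) (nat_lit 5) (nat_lit 0)) .nil)) (.cons (.br (nat_lit 2) (nat_lit 0) (.cons (.ev (nat_lit 20837006750733363421476087465220) (nat_lit 3)) .nil)) .nil))) (.cons (.ev (nat_lit 4722366482873940181249) (nat_lit 1)) .nil))) (.cons (.br (nat_lit 10) (nat_lit 1) (.cons (.br (nat_lit 5) (nat_lit 0) (.cons (.br (nat_lit 9) (nat_lit 1) (.cons (.ev (nat_lit 20837006750733363421476087465220) (nat_lit 3)) .nil)) (.cons (.ev (nat_lit 20282409608374108965510446055681) (nat_lit 1)) .nil))) (.cons (.ev (nat_lit 20361637766165935043020066979841) (nat_lit 1)) (.cons (.br (nat_lit 2) (nat_lit 0) (.cons (.rf (nat_lit 3706) (nat_lit 493857212523880744992)) (.cons (.ev (nat_lit 79538861172271780161088716801)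 (nat_lit 1)) .nil))) .nil)))) (.cons (.br (nat_lit 8) (nat_lit 1) (.cons (.br (nat_lit 9) (nat_lit 1) (.cons (.br (nat_lit 10) (nat_lit 1) (.cons (.zr (nat_lit 618970019858862919563346688) (nat_lit 1213666633123051817926657) (nat_lit 5) (nat_lit 0)) .nil)) .nil)) (.cons (.ev (nat_lit 79537647542532427835506688001) (nat_lit 1)) .nil))) .nil)))) .nil))))) .nil))))),
 (.br (nat_lit 6) (nat_lit 1) (.cons (.rf (nat_lit 3829) (nat_lit 493858305440582043680)) (.cons (.rf (nat_lit 3892) (nat_lit 493858305440582043680)) (.cons (.rf (nat_lit 3925) (nat_lit 493858305440582043680)) (.cons (.br (nat_lit 13) (nat_lit 0) (.cons (.rf (nat_lit 3930) (nat_lit 493858305440582043680)) (.cons (.rf (nat_lit 3939) (nat_lit 493858305440582043680)) (.cons (.rf (nat_lit 3946) (nat_lit 493858305440582043680)) (.cons (.rf (nat_lit 3951) (nat_lit 493858305440582043680)) (.cons (.br (nat_lit 13) (nat_lit 0) (.cons (.rf (nat_lit 3930) (nat_lit 493858305440582043680)) (.cons (.rf (nat_lit 3939) (nat_lit 493858305440582043680))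 (.cons (.rf (nat_lit 3946) (nat_lit 493858305440582043680)) (.cons (.rf (nat_lit 3951) (nat_lit 493858305440582043680)) .nil))))) .nil)))))) .nil))))),
 (.br (nat_lit 6) (nat_lit 1) (.cons (.rf (nat_lit 3829) (nat_lit 493858305440582043680)) (.cons (.rf (nat_lit 3892) (nat_lit 493858305440582043680)) (.cons (.rf (nat_lit 3925) (nat_lit 493858305440582043680)) (.cons (.rf (nat_lit 3952) (nat_lit 493858305440582043680)) (.cons (.br (nat_lit 6) (nat_lit 1) (.cons (.rf (nat_lit 3829) (nat_lit 493858305440582043680)) (.cons (.rf (nat_lit 3892) (nat_lit 493858305440582043680)) (.cons (.rf (nat_lit 3925) (nat_lit 493858305440582043680)) (.cons (.rf (nat_lit 3952) (nat_lit 493858305440582043680)) .nil))))) .nil)))))),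
 (.br (nat_lit 9) (nat_lit 1) (.cons (.br (nat_lit 4) (nat_lit 1) (.cons (.ev (nat_lit 79537647524085965241052102913) (nat_lit 1)) .nil)) (.cons (.br (nat_lit 10) (nat_lit 1) (.cons (.br (nat_lit 8) (nat_lit 1) (.cons (.br (nat_lit 13) (nat_lit 0) (.cons (.ev (nat_lit 79542483282848496310540108292) (nat_lit 3)) .nil)) .nil)) (.cons (.rf (nat_lit 3784) (nat_lit 457824828835778364480)) .nil))) .nil))),
 (.br (nat_lit 9) (nat_lit 1) (.cons (.rf (nat_lit 3954) (nat_lit 493858305440582043680)) (.cons (.br (nat_lit 10) (nat_lit 1) (.cons (.br (nat_lit 8) (nat_lit 1) (.cons (.ev (nat_lit 79537647542677108172592840706) (nat_lit 2)) .nil)) (.cons (.rf (nat_lit 3784) (nat_lit 457824828835778364480)) .nil))) .nil))),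
 (.br (nat_lit 4) (nat_lit 1) (.cons (.br (nat_lit 10) (nat_lit 1) (.cons (.br (nat_lit 9) (nat_lit 1) (.cons (.ev (nat_lit 310703380518886154002498306) (nat_lit 2)) .nil)) (.cons (.br (nat_lit 13) (nat_lit 0) (.cons (.br (nat_lit 7) (nat_lit 0) (.cons (.ev (nat_lit 79849555163397651317674672130) (nat_lit 2)) .nil)) (.cons (.zr (nat_lit 158456329750895159156278362112) (nat_lit 20282410812577490320055697670401) (nat_lit 5) (nat_lit 4)) .nil))) .nil))) (.cons (.br (nat_lit 9) (nat_lit 1) (.cons (.ev (nat_lit 79537647524085965241052102913) (nat_lit 1)) (.cons (.br (nat_lit 5) (nat_lit 0) (.cons (.br (nat_lit 10) (nat_lit 1) (.cons (.zr (nat_lit 79537647524229800049367973888) (nat_lit 1218388999605921446363137) (nat_lit 5) (nat_lit 0)) .nil)) (.cons (.ev (nat_lit 620183667973748353082065666) (nat_lit 2)) .nil))) .nil))) (.cons (.br (nat_lit 7) (nat_lit 0) (.cons (.br (nat_lit 13) (nat_lit 0) (.cons (.kr (nat_lit 20282409603670117168020960837888) (nat_lit 309485009893402662779486208) (nat_lit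 1) (nat_lit 0)) (.cons (.br (nat_lit 5) (nat_lit 0) (.cons (.ev (nat_lit 1213666632842672057876481) (nat_lit 1)) .nil)) .nil))) (.cons (.rf (nat_lit 3784) (nat_lit 457935134042368541760)) (.cons (.br (nat_lit 5) (nat_lit 0) (.cons (.zr (nat_lit 79228162514408454980643192832) (nat_lit 310693954087985250880716801) (nat_lit 5) (nat_lit 0)) (.cons (.br (nat_lit 13) (nat_lit 0) (.cons (.ev (nat_lit 1213666632842672057876481) (nat_lit 1)) .nil)) .nil))) .nil)))) .nil)))),
 (.br (nat_lit 9) (nat_lit 1) (.cons (.rf (nat_lit 3956) (nat_lit 493858305440582043680)) (.cons (.br (nat_lit 4) (nat_lit 1) (.cons (.ev (nat_lit 72057598349672449) (nat_lit 1)) (.cons (.br (nat_lit 8) (nat_lit 1) (.cons (.br (nat_lit 10) (nat_lit 1) (.cons (.ev (nat_lit 1213666632842672057876481) (nat_lit 1)) .nil)) (.cons (.br (nat_lit 10) (nat_lit 1) (.cons (.ev (nat_lit 1213666632842672057876481) (nat_lit 1)) .nil)) .nil))) .nil))) (.cons (.br (nat_lit 7) (nat_lit 0) (.cons (.br (nat_lit 10) (nat_lit 1) (.cons (.ev (nat_lit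 79538861172271780161088716801) (nat_lit 1)) (.cons (.br (nat_lit 8) (nat_lit 1) (.cons (.zr (nat_lit 618970019858866218131980288) (nat_lit 1227833732571660736791297) (nat_lit 5) (nat_lit 0)) .nil)) .nil))) (.cons (.kr (nat_lit 4740813226943354765568) (nat_lit 309485009893402662779486208) (nat_lit 1) (nat_lit 0)) (.cons (.ev (nat_lit 1213648258437667362963713) (nat_lit 1)) .nil)))) .nil)))),
 (.br (nat_lit 9) (nat_lit 1) (.cons (.rf (nat_lit 3956) (nat_lit 493858305440582043680)) (.cons (.rf (nat_lit 3957) (nat_lit 493858305440582043680)) (.cons (.br (nat_lit 2) (nat_lit 0) (.cons (.ev (nat_lit 72057598349672449) (nat_lit 1)) (.cons (.br (nat_lit 5) (nat_lit 0) (.cons (.ev (nat_lit 79537647524085683766092169473) (nat_lit 1)) (.cons (.ev (nat_lit 1213648258437667362963713) (nat_lit 1)) .nil))) (.cons (.br (nat_lit 13) (nat_lit 0) (.cons (.ev (nat_lit 20361948460101575721238694789121) (nat_lit 1)) (.cons (.ev (nat_lit 20441487321273848345824730415106) (nat_lit 2)) .nil))) .nil)))) .nil))))]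

theorem c144 : chkAll C T R L144 (nat_lit 3940) = true := by decide +kernel

theorem l144 : (nat_lit 3940) + L144.length = (nat_lit 3959) := by decide +kernel

/-- part of the certificates -/
def L145 : List Prf := [(.br (nat_lit 11) (nat_lit 1) (.cons (.rf (nat_lit 3953) (nat_lit 493670240576948503616)) (.cons (.br (nat_lit 9) (nat_lit 1) (.cons (.rf (nat_lit 3954) (nat_lit 493858305440582043680)) (.cons (.rf (nat_lit 3955) (nat_lit 493858305440582043680)) (.cons (.br (nat_lit 9) (nat_lit 1) (.cons (.rf (nat_lit 3954) (nat_lit 493858305440582043680)) (.cons (.rf (nat_lit 3955) (nat_lit 493858305440582043680)) .nil))) .nil)))) (.cons (.br (nat_lit 9) (nat_lit 1) (.cons (.rf (nat_lit 3956) (nat_lit 493858305440582043680)) (.cons (.rf (nat_lit 3957) (nat_lit 493858305440582043680)) (.cons (.rf (nat_lit 3958) (nat_lit 493858305440582043680)) (.cons (.br (nat_lit 9) (nat_lit 1) (.cons (.rf (nat_lit 3956) (nat_lit 493858305440582043680)) (.cons (.rf (nat_lit 3957) (nat_lit 493858305440582043680))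 (.cons (.rf (nat_lit 3958) (nat_lit 493858305440582043680)) .nil)))) .nil))))) .nil)))),
 (.br (nat_lit 9) (nat_lit 1) (.cons (.br (nat_lit 4) (nat_lit 1) (.cons (.br (nat_lit 10) (nat_lit 1) (.cons (.br (nat_lit 8) (nat_lit 1) (.cons (.ev (nat_lit 158768232667840363479947215618) (nat_lit 2)) .nil)) .nil)) (.cons (.br (nat_lit 13) (nat_lit 0) (.cons (.br (nat_lit 2) (nat_lit 0) (.cons (.ev (nat_lit 318151822745181042324250100996) (nat_lit 3)) .nil)) (.cons (.br (nat_lit 8) (nat_lit 1) (.cons (.ev (nat_lit 21790220694356656848693936594192) (nat_lit 5)) .nil)) .nil))) .nil))) .nil)),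
 (.br (nat_lit 9) (nat_lit 1) (.cons (.ev (nat_lit 79537647524158022830811775233) (nat_lit 1)) (.cons (.br (nat_lit 13) (nat_lit 0) (.cons (.br (nat_lit 10) (nat_lit 1) (.cons (.zr (nat_lit 158456334473261642025923575808) (nat_lit 620178945462586245895946497) (nat_lit 5) (nat_lit 4)) (.cons (.br (nat_lit 2) (nat_lit 0) (.cons (.zr (nat_lit 79228162514408454980643192832) (nat_lit 310693954087985250880716801) (nat_lit 5) (nat_lit 0)) .nil)) .nil))) (.cons (.br (nat_lit 4) (nat_lit 1) (.cons (.ev (nat_lit 40644975834291802469020884665090) (nat_lit 2)) (.cons (.ev (nat_lit 20362566235362642924597757870850) (nat_lit 2)) .nil))) (.cons (.kr (nat_lit 309485009821345068724781056) (nat_lit 20282409603651670423947251286016) (nat_lit 11) (nat_lit 0)) .nil)))) .nil))),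
 (.br (nat_lit 11) (nat_lit 1) (.cons (.rf (nat_lit 3953) (nat_lit 493670240576948503616)) (.cons (.br (nat_lit 9) (nat_lit 1) (.cons (.rf (nat_lit 3960) (nat_lit 493858305440582043680)) (.cons (.br (nat_lit 9) (nat_lit 1) (.cons (.rf (nat_lit 3960) (nat_lit 493858305440582043680)) .nil)) .nil))) (.cons (.br (nat_lit 9) (nat_lit 1) (.cons (.rf (nat_lit 3961) (nat_lit 493858305440582043680)) (.cons (.ev (nat_lit 79537647524158022830811775233) (nat_lit 1)) (.cons (.br (nat_lit 9) (nat_lit 1) (.cons (.rf (nat_lit 3961) (nat_lit 493858305440582043680)) (.cons (.ev (nat_lit 79537647524158022830811775233) (nat_lit 1)) .nil))) .nil)))) .nil)))),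
 (.br (nat_lit 9) (nat_lit 1) (.cons (.br (nat_lit 4) (nat_lit 1) (.cons (.br (nat_lit 8) (nat_lit 1) (.cons (.zr (nat_lit 158456325028600734980149150208) (nat_lit 309485028268370626017755137) (nat_lit 5) (nat_lit 0)) .nil)) (.cons (.br (nat_lit 8) (nat_lit 1) (.cons (.ev (nat_lit 79228167255149904709736792065) (nat_lit 1)) (.cons (.ev (nat_lit 20282719088679938513093980586241) (nat_lit 1)) .nil))) .nil))) (.cons (.br (nat_lit 13) (nat_lit 0) (.cons (.br (nat_lit 8) (nat_lit 1) (.cons (.br (nat_lit 10) (nat_lit 1) (.cons (.zr (nat_lit 79228162514408454980643192832) (nat_lit 310693954087985250880716801) (nat_lit 5) (nat_lit 0)) .nil)) (.cons (.br (nat_lit 2) (nat_lit 0) (.cons (.zr (nat_lit 79228162514408454980643192832) (nat_lit 310693954087985250880716801) (nat_lit 5) (nat_lit 0)) .nil)) .nil))) (.cons (.br (nat_lit 5) (nat_lit 0) (.cons (.br (nat_lit 10) (nat_lit 1) (.cons (.ev (nat_lit 158767018964314034859459739906) (nat_lit 2)) .nil)) (.cons (.br (nat_lit 4) (nat_lit 1) (.cons (.ev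 (nat_lit 79850759311582046603966480386) (nat_lit 2)) .nil)) .nil))) (.cons (.br (nat_lit 4) (nat_lit 1) (.cons (.br (nat_lit 8) (nat_lit 1) (.cons (.ev (nat_lit 309489787673021984429769474) (nat_lit 2)) .nil)) (.cons (.br (nat_lit 2) (nat_lit 0) (.cons (.ev (nat_lit 79847137274792876322146222082) (nat_lit 2)) .nil)) .nil))) .nil)))) .nil))),
 (.br (nat_lit 9) (nat_lit 1) (.cons (.rf (nat_lit 3963) (nat_lit 493858305440582043680)) (.cons (.br (nat_lit 13) (nat_lit 0) (.cons (.kr (nat_lit 4722366482869645213696) (nat_lit 20282409603651670423947251286016) (nat_lit 9) (nat_lit 0)) (.cons (.ev (nat_lit 20361947255898194648172714787073) (nat_lit 1)) (.cons (.ev (nat_lit 20361637766166007101709338280193) (nat_lit 1)) .nil)))) .nil))),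
 (.br (nat_lit 11) (nat_lit 1) (.cons (.rf (nat_lit 3959) (nat_lit 493858305440582043680)) (.cons (.rf (nat_lit 3962) (nat_lit 493858305440582043680)) (.cons (.br (nat_lit 9) (nat_lit 1) (.cons (.rf (nat_lit 3963) (nat_lit 493858305440582043680)) (.cons (.rf (nat_lit 3964) (nat_lit 493858305440582043680)) (.cons (.br (nat_lit 9) (nat_lit 1) (.cons (.rf (nat_lit 3963) (nat_lit 493858305440582043680)) (.cons (.rf (nat_lit 3964) (nat_lit 493858305440582043680)) .nil))) .nil)))) .nil)))),
 (.br (nat_lit 11) (nat_lit 1) (.cons (.rf (nat_lit 3959) (nat_lit 493858305440582043680)) (.cons (.rf (nat_lit 3962) (nat_lit 493858305440582043680)) (.cons (.rf (nat_lit 3965) (nat_lit 493858305440582043680)) (.cons (.br (nat_lit 11) (nat_lit 1) (.cons (.rf (nat_lit 3959) (nat_lit 493858305440582043680)) (.cons (.rf (nat_lit 3962) (nat_lit 493858305440582043680)) (.cons (.rf (nat_lit 3965) (nat_lit 493858305440582043680)) .nil)))) .nil))))),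
 (.br (nat_lit 7) (nat_lit 0) (.cons (.ev (nat_lit 1213666632842672057876481) (nat_lit 1)) (.cons (.ev (nat_lit 79537647524085965241052102913) (nat_lit 1)) .nil))),
 (.br (nat_lit 11) (nat_lit 1) (.cons (.rf (nat_lit 3966) (nat_lit 493675700753833165888)) (.cons (.br (nat_lit 4) (nat_lit 1) (.cons (.br (nat_lit 13) (nat_lit 0) (.cons (.rf (nat_lit 3967) (nat_lit 493858305440582043680)) (.cons (.rf (nat_lit 3967) (nat_lit 493675700753833165888)) .nil))) (.cons (.ev (nat_lit 79537647524085965241052102913) (nat_lit 1)) .nil))) .nil))),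
 (.br (nat_lit 11) (nat_lit 1) (.cons (.rf (nat_lit 3966) (nat_lit 493675700753833165888)) (.cons (.br (nat_lit 7) (nat_lit 0) (.cons (.br (nat_lit 2) (nat_lit 0) (.cons (.br (nat_lit 13) (nat_lit 0) (.cons (.zr (nat_lit 79228162514408454980643127552) (nat_lit 1213648186378982386565121) (nat_lit 5) (nat_lit 0)) .nil)) (.cons (.ev (nat_lit 309485009893403766569369601) (nat_lit 1)) .nil))) (.cons (.ev (nat_lit 309485028340147835983888641) (nat_lit 1)) (.cons (.br (nat_lit 8) (nat_lit 1) (.cons (.ev (nat_lit 4740885567111897809153) (nat_lit 1)) (.cons (.ev (nat_lit 1213666632842672057876481) (nat_lit 1)) .nil))) .nil)))) .nil))),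
 (.br (nat_lit 11) (nat_lit 1) (.cons (.rf (nat_lit 3953) (nat_lit 493670240576948503616)) (.cons (.br (nat_lit 4) (nat_lit 1) (.cons (.br (nat_lit 8) (nat_lit 1) (.cons (.ev (nat_lit 79847137274864933911906156546) (nat_lit 2)) .nil)) (.cons (.br (nat_lit 13) (nat_lit 0) (.cons (.br (nat_lit 5) (nat_lit 0) (.cons (.ev (nat_lit 79537656987410071712826589186) (nat_lit 2)) .nil)) (.cons (.br (nat_lit 8) (nat_lit 1) (.cons (.ev (nat_lit 20837628138641394709433216468740) (nat_lit 3)) .nil)) .nil))) .nil))) (.cons (.br (nat_lit 4) (nat_lit 1) (.cons (.br (nat_lit 8) (nat_lit 1) (.cons (.zr (nat_lit 144117387115954432) (nat_lit 4722367045828188569601) (nat_lit 5) (nat_lit 0)) (.cons (.br (nat_lit 10) (nat_lit 1) (.cons (.ev (nat_lit 79230585143754963379281788930) (nat_lit 2)) .nil)) .nil))) (.cons (.br (nat_lit 13) (nat_lit 0) (.cons (.zr (nat_lit 40723894502351800443595191747328) (nat_lit 14240886424912380624897) (nat_lit 5) (nat_lit 0)) (.cons (.br (nat_lit 5) (nat_lit 0) (.cons (.ev (nat_lit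 20837628138641394709433216468740) (nat_lit 3)) .nil)) .nil))) (.cons (.rf (nat_lit 3784) (nat_lit 457935134042368541760)) .nil)))) .nil)))),
 (.br (nat_lit 13) (nat_lit 0) (.cons (.ev (nat_lit 1208944338416301233930241) (nat_lit 1)) .nil)),
 (.br (nat_lit 13) (nat_lit 0) (.cons (.ev (nat_lit 1208944338416301233930241) (nat_lit 1)) .nil)),
 (.br (nat_lit 11) (nat_lit 1) (.cons (.rf (nat_lit 3953) (nat_lit 493670240576948503616)) (.cons (.br (nat_lit 8) (nat_lit 1) (.cons (.br (nat_lit 10) (nat_lit 1) (.cons (.rf (nat_lit 3971) (nat_lit 493858305440582043680)) .nil)) (.cons (.br (nat_lit 10) (nat_lit 1) (.cons (.rf (nat_lit 3972) (nat_lit 493858305440582043680)) (.cons (.ev (nat_lit 79538856468424381533696033025) (nat_lit 1)) .nil))) .nil))) (.cons (.br (nat_lit 13) (nat_lit 0) (.cons (.ev (nat_lit 20361947251175756388088808472833) (nat_lit 1)) (.cons (.br (nat_lit 2) (nat_lit 0) (.cons (.ev (nat_lit 40644047374595312464628335968770) (nat_lit 2)) (.cons (.ev (nat_lit 20361947251194203132158223122433)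 (nat_lit 1)) .nil))) (.cons (.br (nat_lit 2) (nat_lit 0) (.cons (.rf (nat_lit 3506) (nat_lit 493781814619955890208)) (.cons (.rf (nat_lit 3037) (nat_lit 493858305440481383456)) .nil))) .nil)))) .nil)))),
 (.br (nat_lit 11) (nat_lit 1) (.cons (.rf (nat_lit 3970) (nat_lit 493858305440582043680)) (.cons (.rf (nat_lit 3973) (nat_lit 493858305440582043680)) (.cons (.br (nat_lit 4) (nat_lit 1) (.cons (.br (nat_lit 10) (nat_lit 1) (.cons (.ev (nat_lit 310698658079781636559405313) (nat_lit 1)) (.cons (.br (nat_lit 5) (nat_lit 0) (.cons (.ev (nat_lit 20520101363749889500559567945988) (nat_lit 3)) .nil)) .nil))) (.cons (.br (nat_lit 10) (nat_lit 1) (.cons (.br (nat_lit 8) (nat_lit 1) (.cons (.ev (nat_lit 21471458312164800261290386329352) (nat_lit 4)) .nil)) (.cons (.ev (nat_lit 20361948464823942205207868342273) (nat_lit 1)) .nil))) (.cons (.rf (nat_lit 3784) (nat_lit 457935134042368541760)) .nil)))) .nil)))),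
 (.br (nat_lit 11) (nat_lit 1) (.cons (.rf (nat_lit 3953) (nat_lit 493670240576948503616)) (.cons (.br (nat_lit 13) (nat_lit 0) (.cons (.br (nat_lit 8) (nat_lit 1) (.cons (.br (nat_lit 10) (nat_lit 1) (.cons (.ev (nat_lit 20837628138641394709433216468740) (nat_lit 3)) .nil)) (.cons (.br (nat_lit 10) (nat_lit 1) (.cons (.ev (nat_lit 620193149600204447438340354) (nat_lit 2)) .nil)) .nil))) (.cons (.br (nat_lit 10) (nat_lit 1) (.cons (.br (nat_lit 4) (nat_lit 1) (.cons (.ev (nat_lit 81394576528253393761907180036) (nat_lit 3)) .nil)) (.cons (.br (nat_lit 4) (nat_lit 1) (.cons (.ev (nat_lit 313121269051603559771013890) (nat_lit 2)) .nil)) .nil))) (.cons (.rf (nat_lit 3784) (nat_lit 457824828835778364480)) .nil)))) (.cons (.br (nat_lit 8) (nat_lit 1) (.cons (.br (nat_lit 10) (nat_lit 1) (.cons (.br (nat_lit 4) (nat_lit 1) (.cons (.ev (nat_lit 20837628138641394709433216468740) (nat_lit 3)) .nil)) .nil)) (.cons (.br (nat_lit 4) (nat_lit 1) (.cons (.kr (nat_lit 40802503694846133860675134423552)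 (nat_lit 4777706716190302339072) (nat_lit 1) (nat_lit 0)) (.cons (.kr (nat_lit 20440865928680199099134339186944) (nat_lit 309485028340146736489037824) (nat_lit 1) (nat_lit 0)) .nil))) .nil))) .nil)))),
 (.br (nat_lit 11) (nat_lit 1) (.cons (.rf (nat_lit 3953) (nat_lit 493670240576948503616)) (.cons (.br (nat_lit 8) (nat_lit 1) (.cons (.br (nat_lit 4) (nat_lit 1) (.cons (.br (nat_lit 10) (nat_lit 1) (.cons (.ev (nat_lit 20521334458641306443676280619268) (nat_lit 3)) .nil)) (.cons (.br (nat_lit 7) (nat_lit 0) (.cons (.ev (nat_lit 79538865931747925064073347586) (nat_lit 2)) .nil)) .nil))) (.cons (.br (nat_lit 13) (nat_lit 0) (.cons (.br (nat_lit 2) (nat_lit 0) (.cons (.ev (nat_lit 20679790793077675728952115660036) (nat_lit 3)) .nil)) (.cons (.rf (nat_lit 3884) (nat_lit 493679247776202983456)) .nil))) (.cons (.br (nat_lit 2) (nat_lit 0) (.cons (.br (nat_lit 7) (nat_lit 0) (.cons (.ev (nat_lit 79540074857496326524140258050) (nat_lit 2)) .nil)) (.cons (.br (nat_lit 7) (nat_lit 0) (.cons (.ev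 (nat_lit 22744686972125898688151880794384) (nat_lit 5)) .nil)) .nil))) .nil)))) (.cons (.br (nat_lit 4) (nat_lit 1) (.cons (.br (nat_lit 7) (nat_lit 0) (.cons (.kr (nat_lit 40802503694846133860675134423552) (nat_lit 4777706716190302339072) (nat_lit 1) (nat_lit 0)) (.cons (.zr (nat_lit 61005685135983539947028841759488) (nat_lit 310693935641242276682858497) (nat_lit 5) (nat_lit 6)) .nil))) (.cons (.br (nat_lit 8) (nat_lit 1) (.cons (.ev (nat_lit 20361947251212649596960290964226) (nat_lit 2)) (.cons (.kr (nat_lit 40802503694846133860675134423296) (nat_lit 309489769153373679843803136) (nat_lit 1) (nat_lit 0)) .nil))) .nil))) .nil)))),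
 (.br (nat_lit 11) (nat_lit 1) (.cons (.rf (nat_lit 3975) (nat_lit 493858305440582043680)) (.cons (.rf (nat_lit 3976) (nat_lit 493858305440582043680)) (.cons (.br (nat_lit 5) (nat_lit 0) (.cons (.br (nat_lit 7) (nat_lit 0) (.cons (.br (nat_lit 2) (nat_lit 0) (.cons (.zr (nat_lit 18590861460808794112) (nat_lit 79538856449905578770715115521) (nat_lit 5) (nat_lit 0)) .nil)) (.cons (.br (nat_lit 8) (nat_lit 1) (.cons (.ev (nat_lit 311912343303202099704103426) (nat_lit 2)) .nil)) .nil))) (.cons (.br (nat_lit 4) (nat_lit 1) (.cons (.br (nat_lit 10) (nat_lit 1) (.cons (.ev (nat_lit 20837628138641394709433216468740) (nat_lit 3)) .nil)) (.cons (.br (nat_lit 10) (nat_lit 1) (.cons (.ev (nat_lit 20837628138641394709433216468740) (nat_lit 3)) .nil)) .nil))) (.cons (.br (nat_lit 2) (nat_lit 0) (.cons (.br (nat_lit 8) (nat_lit 1) (.cons (.zr (nat_lit 18590861460808794112) (nat_lit 79538856449905578770715115521) (nat_lit 5) (nat_lit 0)) .nil)) (.cons (.br (nat_lit 7) (nat_lit 0) (.cons (.ev (nat_lit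 158768232630802478669458768130) (nat_lit 2)) .nil)) .nil))) .nil)))) .nil)))),
 (.br (nat_lit 9) (nat_lit 1) (.cons (.br (nat_lit 11) (nat_lit 1) (.cons (.rf (nat_lit 3968) (nat_lit 493858305440582043680)) (.cons (.rf (nat_lit 3969) (nat_lit 493858305440582043680)) (.cons (.br (nat_lit 11) (nat_lit 1) (.cons (.rf (nat_lit 3968) (nat_lit 493858305440582043680)) (.cons (.rf (nat_lit 3969) (nat_lit 493858305440582043680)) .nil))) .nil)))) (.cons (.br (nat_lit 11) (nat_lit 1) (.cons (.rf (nat_lit 3970) (nat_lit 493858305440582043680)) (.cons (.rf (nat_lit 3973) (nat_lit 493858305440582043680)) (.cons (.rf (nat_lit 3974) (nat_lit 493858305440582043680)) (.cons (.br (nat_lit 11) (nat_lit 1) (.cons (.rf (nat_lit 3970) (nat_lit 493858305440582043680)) (.cons (.rf (nat_lit 3973) (nat_lit 493858305440582043680)) (.cons (.rf (nat_lit 3974) (nat_lit 493858305440582043680)) .nil)))) .nil))))) (.cons (.br (nat_lit 11) (nat_lit 1) (.cons (.rf (nat_lit 3975) (nat_lit 493858305440582043680)) (.cons (.rf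 (nat_lit 3976) (nat_lit 493858305440582043680)) (.cons (.rf (nat_lit 3977) (nat_lit 493858305440582043680)) (.cons (.br (nat_lit 11) (nat_lit 1) (.cons (.rf (nat_lit 3975) (nat_lit 493858305440582043680)) (.cons (.rf (nat_lit 3976) (nat_lit 493858305440582043680)) (.cons (.rf (nat_lit 3977) (nat_lit 493858305440582043680)) .nil)))) .nil))))) .nil)))),
 (.br (nat_lit 13) (nat_lit 0) (.cons (.ev (nat_lit 1208944338416301233930241) (nat_lit 1)) .nil)),
 (.br (nat_lit 11) (nat_lit 1) (.cons (.br (nat_lit 10) (nat_lit 1) (.cons (.ev (nat_lit 79538861172271780161088716801) (nat_lit 1)) (.cons (.br (nat_lit 4) (nat_lit 1) (.cons (.rf (nat_lit 3979) (nat_lit 493858305440582043680)) (.cons (.ev (nat_lit 20282410817299856802925359661313) (nat_lit 1)) .nil))) .nil))) (.cons (.br (nat_lit 7) (nat_lit 0) (.cons (.br (nat_lit 8) (nat_lit 1) (.cons (.ev (nat_lit 4722438823042483290113) (nat_lit 1)) (.cons (.br (nat_lit 10) (nat_lit 1) (.cons (.ev (nat_lit 1213666632842672057876481) (nat_lit 1)) .nil))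 .nil))) (.cons (.br (nat_lit 13) (nat_lit 0) (.cons (.br (nat_lit 2) (nat_lit 0) (.cons (.ev (nat_lit 80156617599213284266994631170) (nat_lit 2)) .nil)) (.cons (.rf (nat_lit 3884) (nat_lit 493676995978536781856)) .nil))) (.cons (.br (nat_lit 2) (nat_lit 0) (.cons (.ev (nat_lit 309485009893403766569369601) (nat_lit 1)) (.cons (.br (nat_lit 13) (nat_lit 0) (.cons (.ev (nat_lit 20680409772616124898252173674760) (nat_lit 4)) .nil)) .nil))) .nil)))) .nil))),
 (.br (nat_lit 11) (nat_lit 1) (.cons (.rf (nat_lit 3980) (nat_lit 493858305440582043680)) (.cons (.br (nat_lit 10) (nat_lit 1) (.cons (.br (nat_lit 8) (nat_lit 1) (.cons (.br (nat_lit 13) (nat_lit 0) (.cons (.ev (nat_lit 21155778785369819904794809796872) (nat_lit 4)) .nil)) (.cons (.ev (nat_lit 1213666632842672057876481) (nat_lit 1)) .nil))) (.cons (.br (nat_lit 8) (nat_lit 1) (.cons (.ev (nat_lit 1213666632842672057876481) (nat_lit 1)) .nil)) .nil))) .nil)))]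

theorem c145 : chkAll C T R L145 (nat_lit 3959) = true := by decide +kernel

theorem l145 : (nat_lit 3959) + L145.length = (nat_lit 3982) := by decide +kernel

/-- part of the certificates -/
def L146 : List Prf := [(.br (nat_lit 2) (nat_lit 0) (.cons (.ev (nat_lit 1213666632842672057876481) (nat_lit 1)) .nil)),
 (.br (nat_lit 11) (nat_lit 1) (.cons (.br (nat_lit 13) (nat_lit 0) (.cons (.br (nat_lit 10) (nat_lit 1) (.cons (.rf (nat_lit 3982) (nat_lit 493858305268783356960)) (.cons (.rf (nat_lit 3982) (nat_lit 493858305440582043680)) .nil))) (.cons (.br (nat_lit 2) (nat_lit 0) (.cons (.ev (nat_lit 20361637770906748269959143555073) (nat_lit 1)) (.cons (.ev (nat_lit 40644356854882767326827415536130) (nat_lit 2)) .nil))) (.cons (.rf (nat_lit 3784) (nat_lit 457824828835778364480)) .nil)))) (.cons (.br (nat_lit 10) (nat_lit 1) (.cons (.ev (nat_lit 79538861172271780161088716801) (nat_lit 1)) (.cons (.br (nat_lit 2) (nat_lit 0) (.cons (.zr (nat_lit 40723275532331869526380125552640) (nat_lit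 310708102740689786123583489) (nat_lit 5) (nat_lit 0)) (.cons (.ev (nat_lit 1213666632842672057876481) (nat_lit 1)) .nil))) .nil))) .nil))),
 (.br (nat_lit 8) (nat_lit 1) (.cons (.br (nat_lit 10) (nat_lit 1) (.cons (.ev (nat_lit 20361638975091754377269498347521) (nat_lit 1)) (.cons (.ev (nat_lit 1213666632842672057876481) (nat_lit 1)) .nil))) (.cons (.kr (nat_lit 4740813226943354765312) (nat_lit 20361637766165934761540795236352) (nat_lit 8) (nat_lit 0)) .nil))),
 (.br (nat_lit 9) (nat_lit 1) (.cons (.rf (nat_lit 3978) (nat_lit 493858305440582043680)) (.cons (.br (nat_lit 11) (nat_lit 1) (.cons (.rf (nat_lit 3980) (nat_lit 493858305440582043680)) (.cons (.rf (nat_lit 3981) (nat_lit 493858305440582043680)) (.cons (.br (nat_lit 11) (nat_lit 1) (.cons (.rf (nat_lit 3980) (nat_lit 493858305440582043680)) (.cons (.rf (nat_lit 3981) (nat_lit 493858305440582043680)) .nil))) .nil)))) (.cons (.br (nat_lit 11) (nat_lit 1) (.cons (.rf (nat_lit 3983) (nat_lit 493858305440582043680)) (.cons (.br (nat_lit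 11) (nat_lit 1) (.cons (.rf (nat_lit 3983) (nat_lit 493858305440582043680)) (.cons (.rf (nat_lit 3984) (nat_lit 493858305440582043680)) .nil))) (.cons (.rf (nat_lit 3984) (nat_lit 493858305440582043680)) .nil)))) .nil)))),
 (.br (nat_lit 11) (nat_lit 1) (.cons (.rf (nat_lit 3953) (nat_lit 493670240576948503616)) (.cons (.br (nat_lit 13) (nat_lit 0) (.cons (.br (nat_lit 8) (nat_lit 1) (.cons (.br (nat_lit 5) (nat_lit 0) (.cons (.zr (nat_lit 37109664228101521408) (nat_lit 314325435466567934340498177) (nat_lit 5) (nat_lit 0)) .nil)) (.cons (.br (nat_lit 2) (nat_lit 0) (.cons (.ev (nat_lit 20837628138641394709433216468740) (nat_lit 3)) .nil)) .nil))) (.cons (.br (nat_lit 5) (nat_lit 0) (.cons (.br (nat_lit 2) (nat_lit 0) (.cons (.ev (nat_lit 21155793292664123846956071325448) (nat_lit 4)) .nil)) (.cons (.ev (nat_lit 20282410812577562097269975548161) (nat_lit 1)) .nil))) (.cons (.rf (nat_lit 3784) (nat_lit 457824828835778364480)) .nil)))) (.cons (.br (nat_lit 5) (nat_lit 0) (.cons (.br (nat_lit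 8) (nat_lit 1) (.cons (.ev (nat_lit 79537647524085683766092169473) (nat_lit 1)) (.cons (.br (nat_lit 2) (nat_lit 0) (.cons (.ev (nat_lit 79538856468424100058702545153) (nat_lit 1)) .nil)) .nil))) (.cons (.kr (nat_lit 4740813226943354765312) (nat_lit 20361637766165934761540795236352) (nat_lit 8) (nat_lit 0)) (.cons (.br (nat_lit 8) (nat_lit 1) (.cons (.rf (nat_lit 3816) (nat_lit 493858305440582043680)) (.cons (.ev (nat_lit 20282410812577562097269975548161) (nat_lit 1)) .nil))) .nil)))) .nil)))),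
 (.br (nat_lit 11) (nat_lit 1) (.cons (.rf (nat_lit 3953) (nat_lit 493670240576948503616)) (.cons (.br (nat_lit 4) (nat_lit 1) (.cons (.br (nat_lit 10) (nat_lit 1) (.cons (.br (nat_lit 8) (nat_lit 1) (.cons (.ev (nat_lit 81394576509374585594534297860) (nat_lit 3)) .nil)) (.cons (.ev (nat_lit 40644978252143441698270644011266) (nat_lit 2)) .nil))) (.cons (.br (nat_lit 10) (nat_lit 1) (.cons (.br (nat_lit 2) (nat_lit 0) (.cons (.ev (nat_lit 79538856468424381533696033025) (nat_lit 1)) .nil)) .nil)) .nil))) (.cons (.br (nat_lit 8) (nat_lit 1) (.cons (.br (nat_lit 4) (nat_lit 1) (.cons (.ev (nat_lit 79537647524085683766092169473) (nat_lit 1)) (.cons (.ev (nat_lit 79228162532783139265603174401) (nat_lit 1)) .nil))) (.cons (.ev (nat_lit 20361947255898194648172714787073) (nat_lit 1)) .nil))) .nil)))),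
 (.br (nat_lit 11) (nat_lit 1) (.cons (.rf (nat_lit 3986) (nat_lit 493858305440582043680)) (.cons (.rf (nat_lit 3987) (nat_lit 493858305440582043680)) (.cons (.br (nat_lit 8) (nat_lit 1) (.cons (.br (nat_lit 2) (nat_lit 0) (.cons (.br (nat_lit 5) (nat_lit 0) (.cons (.ev (nat_lit 1213648186098602643357953) (nat_lit 1)) .nil)) (.cons (.br (nat_lit 4) (nat_lit 1) (.cons (.ev (nat_lit 1213648186098602643357953) (nat_lit 1)) .nil)) .nil))) (.cons (.kr (nat_lit 4740813226943354765312) (nat_lit 20361637766165934761540795236352) (nat_lit 8) (nat_lit 0)) .nil))) .nil)))),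
 (.br (nat_lit 9) (nat_lit 1) (.cons (.rf (nat_lit 3978) (nat_lit 493858305440582043680)) (.cons (.rf (nat_lit 3985) (nat_lit 493858305440582043680)) (.cons (.br (nat_lit 11) (nat_lit 1) (.cons (.rf (nat_lit 3986) (nat_lit 493858305440582043680)) (.cons (.rf (nat_lit 3987) (nat_lit 493858305440582043680)) (.cons (.rf (nat_lit 3988) (nat_lit 493858305440582043680)) (.cons (.br (nat_lit 11) (nat_lit 1) (.cons (.rf (nat_lit 3986) (nat_lit 493858305440582043680)) (.cons (.rf (nat_lit 3987) (nat_lit 493858305440582043680)) (.cons (.rf (nat_lit 3988) (nat_lit 493858305440582043680)) .nil)))) .nil))))) .nil)))),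
 (.br (nat_lit 6) (nat_lit 1) (.cons (.rf (nat_lit 3419) (nat_lit 493787200025760303136)) (.cons (.rf (nat_lit 3953) (nat_lit 493857210323783845920)) (.cons (.rf (nat_lit 3966) (nat_lit 493858305440582043680)) (.cons (.br (nat_lit 9) (nat_lit 1) (.cons (.rf (nat_lit 3978) (nat_lit 493858305440582043680)) (.cons (.rf (nat_lit 3985) (nat_lit 493858305440582043680)) (.cons (.rf (nat_lit 3989) (nat_lit 493858305440582043680)) (.cons (.br (nat_lit 9) (nat_lit 1) (.cons (.rf (nat_lit 3978) (nat_lit 493858305440582043680)) (.cons (.rf (nat_lit 3985) (nat_lit 493858305440582043680)) (.cons (.rf (nat_lit 3989) (nat_lit 493858305440582043680)) .nil)))) .nil))))) .nil))))),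
 (.br (nat_lit 11) (nat_lit 1) (.cons (.rf (nat_lit 3419) (nat_lit 493565395547242989600)) (.cons (.rf (nat_lit 3953) (nat_lit 493670240576948503616)) (.cons (.rf (nat_lit 3953) (nat_lit 457824828835778364480)) .nil)))),
 (.br (nat_lit 13) (nat_lit 0) (.cons (.br (nat_lit 2) (nat_lit 0) (.cons (.br (nat_lit 5) (nat_lit 0) (.cons (.br (nat_lit 7) (nat_lit 0) (.cons (.br (nat_lit 11) (nat_lit 1) (.cons (.ev (nat_lit 20680424307911868024613421256456) (nat_lit 4)) .nil)) .nil)) (.cons (.rf (nat_lit 3497) (nat_lit 493677105928619526176)) .nil))) (.cons (.br (nat_lit 5) (nat_lit 0) (.cons (.ev (nat_lit 1213648186378978091663361) (nat_lit 1)) (.cons (.br (nat_lit 11) (nat_lit 1) (.cons (.ev (nat_lit 20282720297605758409193853878273) (nat_lit 1)) (.cons (.br (nat_lit 9) (nat_lit 1) (.cons (.ev (nat_lit 20362256774113165827716688448776) (nat_lit 4)) .nil)) .nil))) .nil))) (.cons (.rf (nat_lit 3991) (nat_lit 493858305440582043680)) .nil)))) (.cons (.rf (nat_lit 3953) (nat_lit 458116643612319220800))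 (.cons (.br (nat_lit 5) (nat_lit 0) (.cons (.br (nat_lit 2) (nat_lit 0) (.cons (.br (nat_lit 10) (nat_lit 1) (.cons (.ev (nat_lit 20837010386918446970968429889028) (nat_lit 3)) (.cons (.ev (nat_lit 1213666632842672057876481) (nat_lit 1)) .nil))) (.cons (.br (nat_lit 9) (nat_lit 1) (.cons (.br (nat_lit 7) (nat_lit 0) (.cons (.ev (nat_lit 20837011605363145414815518885636) (nat_lit 3)) .nil)) (.cons (.ev (nat_lit 1213666632842672057876481) (nat_lit 1)) .nil))) (.cons (.rf (nat_lit 3497) (nat_lit 493679287359689033760)) .nil)))) (.cons (.br (nat_lit 7) (nat_lit 0) (.cons (.br (nat_lit 9) (nat_lit 1) (.cons (.rf (nat_lit 3784) (nat_lit 457935134042368542752)) (.cons (.rf (nat_lit 3784) (nat_lit 457935134042368541760)) .nil))) (.cons (.rf (nat_lit 3847) (nat_lit 15433070910038444064)) .nil))) (.cons (.br (nat_lit 2) (nat_lit 0) (.cons (.rf (nat_lit 3679) (nat_lit 493675912958503389216)) (.cons (.rf (nat_lit 3848) (nat_lit 15433070910038444064)) .nil))) .nil)))) .nil)))),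
 (.br (nat_lit 11) (nat_lit 1) (.cons (.rf (nat_lit 3419) (nat_lit 493565395547242989600)) (.cons (.rf (nat_lit 3953) (nat_lit 493670240576948504608)) (.cons (.rf (nat_lit 3784) (nat_lit 457824828835778365472)) .nil)))),
 (.br (nat_lit 13) (nat_lit 0) (.cons (.rf (nat_lit 3992) (nat_lit 493858305440582043680)) (.cons (.br (nat_lit 1) (nat_lit 0) (.cons (.br (nat_lit 7) (nat_lit 0) (.cons (.br (nat_lit 5) (nat_lit 0) (.cons (.br (nat_lit 11) (nat_lit 1) (.cons (.ev (nat_lit 20838870914384102663421447046916) (nat_lit 3)) .nil)) .nil)) (.cons (.rf (nat_lit 3497) (nat_lit 457827329124140778560)) .nil))) (.cons (.br (nat_lit 7) (nat_lit 0) (.cons (.ev (nat_lit 1213666632841572546248961) (nat_lit 1)) (.cons (.br (nat_lit 11) (nat_lit 1) (.cons (.ev (nat_lit 79537652246452447011202400513) (nat_lit 1)) (.cons (.br (nat_lit 2) (nat_lit 0) (.cons (.ev (nat_lit 20678557669851770523528301053700) (nat_lit 3)) .nil)) .nil))) .nil))) (.cons (.rf (nat_lit 3993) (nat_lit 493858305440582043680)) .nil))))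 (.cons (.br (nat_lit 10) (nat_lit 1) (.cons (.br (nat_lit 8) (nat_lit 1) (.cons (.br (nat_lit 7) (nat_lit 0) (.cons (.br (nat_lit 5) (nat_lit 0) (.cons (.ev (nat_lit 79538861172343838858949951745) (nat_lit 1)) .nil)) (.cons (.ev (nat_lit 309485009893684142051229953) (nat_lit 1)) .nil))) (.cons (.br (nat_lit 2) (nat_lit 0) (.cons (.br (nat_lit 11) (nat_lit 1) (.cons (.ev (nat_lit 1237333878390169442190084) (nat_lit 3)) .nil)) (.cons (.br (nat_lit 9) (nat_lit 1) (.cons (.ev (nat_lit 309489732260168111191228673) (nat_lit 1)) .nil)) .nil))) (.cons (.rf (nat_lit 3577) (nat_lit 458001809524840924224)) .nil)))) (.cons (.ev (nat_lit 20282410812577490320055697735681) (nat_lit 1)) (.cons (.br (nat_lit 7) (nat_lit 0) (.cons (.br (nat_lit 9) (nat_lit 1) (.cons (.ev (nat_lit 20361638975110273178937229050113) (nat_lit 1)) (.cons (.ev (nat_lit 40564821625173427103805361684482) (nat_lit 2)) .nil))) (.cons (.br (nat_lit 11) (nat_lit 1) (.cons (.ev (nat_lit 79538861172343838858949951745) (nat_lit 1))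 (.cons (.ev (nat_lit 20361947255898122870958436974593) (nat_lit 1)) .nil))) (.cons (.br (nat_lit 1) (nat_lit 0) (.cons (.br (nat_lit 9) (nat_lit 1) (.cons (.ev (nat_lit 21787764175981816518996194299152) (nat_lit 5)) .nil)) (.cons (.ev (nat_lit 79538861172343838858949951745) (nat_lit 1)) .nil))) .nil)))) (.cons (.br (nat_lit 9) (nat_lit 1) (.cons (.br (nat_lit 5) (nat_lit 0) (.cons (.ev (nat_lit 20361638975110273178937229050113) (nat_lit 1)) (.cons (.ev (nat_lit 79538861172343838858949951745) (nat_lit 1)) .nil))) (.cons (.br (nat_lit 5) (nat_lit 0) (.cons (.br (nat_lit 11) (nat_lit 1) (.cons (.ev (nat_lit 20520717915917604172502086911236) (nat_lit 3)) .nil)) (.cons (.rf (nat_lit 3577) (nat_lit 493853804042125412384)) .nil))) (.cons (.kr (nat_lit 4722366482869645213696) (nat_lit 20282409603651670423947251286016) (nat_lit 9) (nat_lit 0)) .nil)))) .nil))))) .nil)))),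
 (.br (nat_lit 9) (nat_lit 1) (.cons (.ev (nat_lit 1213666632842672057876481) (nat_lit 1)) .nil)),
 (.br (nat_lit 13) (nat_lit 0) (.cons (.rf (nat_lit 3953) (nat_lit 458116643612319220800)) (.cons (.rf (nat_lit 3994) (nat_lit 493858305440582043680)) (.cons (.br (nat_lit 7) (nat_lit 0) (.cons (.br (nat_lit 1) (nat_lit 0) (.cons (.rf (nat_lit 3679) (nat_lit 457829508358334514240)) (.cons (.br (nat_lit 2) (nat_lit 0) (.cons (.rf (nat_lit 3995) (nat_lit 493858305440582043680)) .nil)) .nil))) (.cons (.br (nat_lit 1) (nat_lit 0) (.cons (.rf (nat_lit 3497) (nat_lit 457827258757544084544)) (.cons (.rf (nat_lit 3784) (nat_lit 457935134042368542752)) (.cons (.br (nat_lit 2) (nat_lit 0) (.cons (.rf (nat_lit 3995) (nat_lit 493858305268783356960)) (.cons (.rf (nat_lit 3784) (nat_lit 457935134042368541760)) .nil))) .nil)))) (.cons (.br (nat_lit 1) (nat_lit 0) (.cons (.br (nat_lit 2) (nat_lit 0) (.cons (.br (nat_lit 9) (nat_lit 1) (.cons (.ev (nat_lit 20361640202980899524614147213060) (nat_lit 3))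 .nil)) .nil)) (.cons (.br (nat_lit 9) (nat_lit 1) (.cons (.ev (nat_lit 79537652246452447011202400513) (nat_lit 1)) (.cons (.br (nat_lit 2) (nat_lit 0) (.cons (.ev (nat_lit 80469743498540640728512659460) (nat_lit 3)) .nil)) .nil))) .nil))) .nil)))) .nil)))),
 (.br (nat_lit 13) (nat_lit 0) (.cons (.rf (nat_lit 3992) (nat_lit 493858305440582043680)) (.cons (.rf (nat_lit 3994) (nat_lit 493858305440582043680)) (.cons (.rf (nat_lit 3996) (nat_lit 493858305440582043680)) (.cons (.br (nat_lit 13) (nat_lit 0) (.cons (.rf (nat_lit 3992) (nat_lit 493858305440582043680)) (.cons (.rf (nat_lit 3994) (nat_lit 493858305440582043680)) (.cons (.rf (nat_lit 3996) (nat_lit 493858305440582043680)) .nil)))) .nil))))),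
 (.br (nat_lit 11) (nat_lit 1) (.cons (.rf (nat_lit 3419) (nat_lit 493565395547242989600)) (.cons (.rf (nat_lit 3953) (nat_lit 493670240576948503616)) (.cons (.rf (nat_lit 3784) (nat_lit 457824828835778364480)) .nil)))),
 (.br (nat_lit 13) (nat_lit 0) (.cons (.rf (nat_lit 3997) (nat_lit 493858305440582043680)) (.cons (.br (nat_lit 2) (nat_lit 0) (.cons (.br (nat_lit 7) (nat_lit 0) (.cons (.ev (nat_lit 72057598349672449) (nat_lit 1)) (.cons (.br (nat_lit 11) (nat_lit 1) (.cons (.rf (nat_lit 3784) (nat_lit 457824828835778365472)) (.cons (.br (nat_lit 1) (nat_lit 0) (.cons (.ev (nat_lit 158768232667840363479947215618) (nat_lit 2)) .nil)) .nil))) .nil))) (.cons (.br (nat_lit 5) (nat_lit 0) (.cons (.br (nat_lit 7) (nat_lit 0) (.cons (.br (nat_lit 11) (nat_lit 1) (.cons (.ev (nat_lit 158765810056941164303994585346) (nat_lit 2)) .nil)) .nil)) (.cons (.rf (nat_lit 3497) (nat_lit 493677108121204525088)) .nil))) (.cons (.rf (nat_lit 3998) (nat_lit 493858305440582043680)) .nil)))) (.cons (.br (nat_lit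 9) (nat_lit 1) (.cons (.br (nat_lit 10) (nat_lit 1) (.cons (.ev (nat_lit 20282410812595937064125112254721) (nat_lit 1)) (.cons (.br (nat_lit 4) (nat_lit 1) (.cons (.br (nat_lit 7) (nat_lit 0) (.cons (.ev (nat_lit 79537652246452447011202400513) (nat_lit 1)) .nil)) (.cons (.br (nat_lit 2) (nat_lit 0) (.cons (.ev (nat_lit 79537652246452447011202400513) (nat_lit 1)) .nil)) .nil))) (.cons (.ev (nat_lit 1213666632841572546248961) (nat_lit 1)) .nil)))) (.cons (.br (nat_lit 11) (nat_lit 1) (.cons (.br (nat_lit 7) (nat_lit 0) (.cons (.ev (nat_lit 20520713070714395779095743955714) (nat_lit 2)) (.cons (.rf (nat_lit 3505) (nat_lit 493679289556564805664)) .nil))) (.cons (.rf (nat_lit 3577) (nat_lit 493853804042125412384)) (.cons (.br (nat_lit 10) (nat_lit 1) (.cons (.br (nat_lit 5) (nat_lit 0) (.cons (.ev (nat_lit 477227122478537164281117542148) (nat_lit 3)) .nil)) (.cons (.br (nat_lit 1) (nat_lit 0) (.cons (.ev (nat_lit 79230594588559985625966707458) (nat_lit 2)) .nil)) .nil))) .nil)))) (.cons (.br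 (nat_lit 10) (nat_lit 1) (.cons (.br (nat_lit 7) (nat_lit 0) (.cons (.rf (nat_lit 3577) (nat_lit 457857694336769262656)) (.cons (.br (nat_lit 2) (nat_lit 0) (.cons (.ev (nat_lit 158457543436047645730530263810) (nat_lit 2)) .nil)) .nil))) (.cons (.br (nat_lit 7) (nat_lit 0) (.cons (.br (nat_lit 1) (nat_lit 0) (.cons (.ev (nat_lit 618970038234394927988539906) (nat_lit 2)) .nil)) (.cons (.br (nat_lit 4) (nat_lit 1) (.cons (.ev (nat_lit 22268065483370928967258765334288) (nat_lit 5)) .nil)) .nil))) (.cons (.zr (nat_lit 3626777459128661052489728) (nat_lit 60926456973469419724623373664257) (nat_lit 5) (nat_lit 3)) .nil)))) (.cons (.br (nat_lit 4) (nat_lit 1) (.cons (.ev (nat_lit 20282409608374109245890206105601) (nat_lit 1)) (.cons (.ev (nat_lit 72057598349672449) (nat_lit 1)) (.cons (.br (nat_lit 10) (nat_lit 1) (.cons (.br (nat_lit 2) (nat_lit 0) (.cons (.ev (nat_lit 310698676454187740765946113) (nat_lit 1)) .nil)) (.cons (.br (nat_lit 11) (nat_lit 1) (.cons (.ev (nat_lit 310698676454187740765946113)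 (nat_lit 1)) .nil)) .nil))) .nil)))) .nil))))) .nil)))),
 (.br (nat_lit 13) (nat_lit 0) (.cons (.rf (nat_lit 3953) (nat_lit 458116643612319220800)) (.cons (.rf (nat_lit 3999) (nat_lit 493858305440582043680)) (.cons (.br (nat_lit 2) (nat_lit 0) (.cons (.br (nat_lit 7) (nat_lit 0) (.cons (.ev (nat_lit 72057598349672449) (nat_lit 1)) (.cons (.br (nat_lit 1) (nat_lit 0) (.cons (.br (nat_lit 5) (nat_lit 0) (.cons (.ev (nat_lit 20837011605363145414815518885636) (nat_lit 3)) .nil)) .nil)) .nil))) (.cons (.br (nat_lit 9) (nat_lit 1) (.cons (.rf (nat_lit 3419) (nat_lit 493675700753833166880)) (.cons (.br (nat_lit 4) (nat_lit 1) (.cons (.br (nat_lit 7) (nat_lit 0) (.cons (.zr (nat_lit 158457533954420349609323921664) (nat_lit 309489769081597569355743233) (nat_lit 5) (nat_lit 0)) .nil)) (.cons (.br (nat_lit 1) (nat_lit 0) (.cons (.ev (nat_lit 79537647524085965241052102913) (nat_lit 1)) .nil)) .nil))) (.cons (.br (nat_lit 11) (nat_lit 1) (.cons (.br (nat_lit 5) (nat_lit 0) (.cons (.ev (nat_lit 79848346182237804467371311106)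 (nat_lit 2)) .nil)) (.cons (.rf (nat_lit 3679) (nat_lit 493786145589819443232)) .nil))) .nil)))) (.cons (.br (nat_lit 5) (nat_lit 0) (.cons (.rf (nat_lit 3850) (nat_lit 493857210255131477056)) (.cons (.rf (nat_lit 3497) (nat_lit 493679289552274032672)) .nil))) .nil)))) .nil))))]

theorem c146 : chkAll C T R L146 (nat_lit 3982) = true := by decide +kernel

theorem l146 : (nat_lit 3982) + L146.length = (nat_lit 4001) := by decide +kernel

/-- part of the certificates -/
def L147 : List Prf := [(.br (nat_lit 13) (nat_lit 0) (.cons (.rf (nat_lit 3997) (nat_lit 493858305440582043680)) (.cons (.rf (nat_lit 3999) (nat_lit 493858305440582043680)) (.cons (.rf (nat_lit 4000) (nat_lit 493858305440582043680)) (.cons (.br (nat_lit 13) (nat_lit 0) (.cons (.rf (nat_lit 3997) (nat_lit 493858305440582043680)) (.cons (.rf (nat_lit 3999) (nat_lit 493858305440582043680)) (.cons (.rf (nat_lit 4000) (nat_lit 493858305440582043680)) .nil)))) .nil))))),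
 (.br (nat_lit 13) (nat_lit 0) (.cons (.rf (nat_lit 3997) (nat_lit 493858305440582043680)) (.cons (.rf (nat_lit 4001) (nat_lit 493858305440582043680)) (.cons (.br (nat_lit 2) (nat_lit 0) (.cons (.ev (nat_lit 20282410812577490320055697735681) (nat_lit 1)) (.cons (.br (nat_lit 11) (nat_lit 1) (.cons (.br (nat_lit 7) (nat_lit 0) (.cons (.ev (nat_lit 310693935640959702211297281) (nat_lit 1)) (.cons (.br (nat_lit 4) (nat_lit 1) (.cons (.ev (nat_lit 20520720324288048165347546825988) (nat_lit 3)) .nil)) .nil))) (.cons (.kr (nat_lit 309485009821345068724781056) (nat_lit 20282409603651670423947251286016) (nat_lit 11) (nat_lit 0)) (.cons (.br (nat_lit 4) (nat_lit 1) (.cons (.ev (nat_lit 310693935640959702211297281) (nat_lit 1)) (.cons (.br (nat_lit 9) (nat_lit 1) (.cons (.ev (nat_lit 20678557669851770523528301053700) (nat_lit 3)) .nil)) .nil))) .nil)))) (.cons (.br (nat_lit 11) (nat_lit 1) (.cons (.br (nat_lit 8) (nat_lit 1) (.cons (.br (nat_lit 4) (nat_lit 1) (.cons (.zr (nat_lit 79537647542676544123077394944)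 (nat_lit 3626777459125366829350913) (nat_lit 5) (nat_lit 0)) .nil)) (.cons (.br (nat_lit 5) (nat_lit 0) (.cons (.ev (nat_lit 311912324785247064500077314) (nat_lit 2)) .nil)) .nil))) (.cons (.kr (nat_lit 309485009821345068724781056) (nat_lit 20282409603651670423947251286016) (nat_lit 11) (nat_lit 0)) (.cons (.br (nat_lit 4) (nat_lit 1) (.cons (.br (nat_lit 5) (nat_lit 0) (.cons (.ev (nat_lit 309489787673021984429769474) (nat_lit 2)) .nil)) (.cons (.br (nat_lit 8) (nat_lit 1) (.cons (.zr (nat_lit 237684492265159495650310684672) (nat_lit 309485046715114695415562241) (nat_lit 5) (nat_lit 4)) .nil)) .nil))) .nil)))) (.cons (.br (nat_lit 5) (nat_lit 0) (.cons (.br (nat_lit 9) (nat_lit 1) (.cons (.br (nat_lit 7) (nat_lit 0) (.cons (.ev (nat_lit 1213666632841572546248961) (nat_lit 1)) .nil)) (.cons (.ev (nat_lit 20282719088661563826614325739521) (nat_lit 1)) .nil))) (.cons (.br (nat_lit 7) (nat_lit 0) (.cons (.br (nat_lit 9) (nat_lit 1) (.cons (.ev (nat_lit 79537652246452447011202400513) (nat_lit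 1)) .nil)) (.cons (.ev (nat_lit 20361638975110273459312710909953) (nat_lit 1)) .nil))) (.cons (.rf (nat_lit 3577) (nat_lit 493781816816831662112)) .nil)))) .nil))))) .nil)))),
 (.br (nat_lit 13) (nat_lit 0) (.cons (.rf (nat_lit 3997) (nat_lit 493858305440582043680)) (.cons (.rf (nat_lit 4001) (nat_lit 493858305440582043680)) (.cons (.rf (nat_lit 4002) (nat_lit 493858305440582043680)) (.cons (.br (nat_lit 13) (nat_lit 0) (.cons (.rf (nat_lit 3997) (nat_lit 493858305440582043680)) (.cons (.rf (nat_lit 4001) (nat_lit 493858305440582043680)) (.cons (.rf (nat_lit 4002) (nat_lit 493858305440582043680)) .nil)))) .nil))))),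
 (.br (nat_lit 13) (nat_lit 0) (.cons (.rf (nat_lit 3997) (nat_lit 493858305440582043680)) (.cons (.rf (nat_lit 4001) (nat_lit 493858305440582043680)) (.cons (.rf (nat_lit 4003) (nat_lit 493858305440582043680)) (.cons (.br (nat_lit 13) (nat_lit 0) (.cons (.rf (nat_lit 3997) (nat_lit 493858305440582043680)) (.cons (.rf (nat_lit 4001) (nat_lit 493858305440582043680)) (.cons (.rf (nat_lit 4003) (nat_lit 493858305440582043680)) .nil)))) .nil))))),
 (.br (nat_lit 13) (nat_lit 0) (.cons (.rf (nat_lit 3997) (nat_lit 493858305440582043680)) (.cons (.rf (nat_lit 4001) (nat_lit 493858305440582043680)) (.cons (.rf (nat_lit 4003) (nat_lit 493858305440582043680)) (.cons (.rf (nat_lit 4004) (nat_lit 493858305440582043680)) (.cons (.br (nat_lit 13) (nat_lit 0) (.cons (.rf (nat_lit 3997) (nat_lit 493858305440582043680)) (.cons (.rf (nat_lit 4001) (nat_lit 493858305440582043680)) (.cons (.rf (nat_lit 4003) (nat_lit 493858305440582043680)) (.cons (.rf (nat_lit 4004) (nat_lit 493858305440582043680)) .nil)))))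 .nil)))))),
 (.br (nat_lit 4) (nat_lit 1) (.cons (.kr (nat_lit 20361637766166006819134833164544) (nat_lit 2417851639230357861105664) (nat_lit 1) (nat_lit 0)) .nil)),
 (.br (nat_lit 11) (nat_lit 1) (.cons (.rf (nat_lit 3421) (nat_lit 493787270394505431072)) (.cons (.br (nat_lit 10) (nat_lit 1) (.cons (.br (nat_lit 8) (nat_lit 1) (.cons (.br (nat_lit 4) (nat_lit 1) (.cons (.ev (nat_lit 20838244709699152332158425694980) (nat_lit 3)) .nil)) (.cons (.br (nat_lit 4) (nat_lit 1) (.cons (.ev (nat_lit 20838244709625365355880767620868) (nat_lit 3)) .nil)) .nil))) (.cons (.br (nat_lit 13) (nat_lit 0) (.cons (.kr (nat_lit 20282410812577490038576425992448) (nat_lit 4722438821938659852288) (nat_lit 1) (nat_lit 0)) (.cons (.rf (nat_lit 4006) (nat_lit 493858305440582043680)) .nil))) (.cons (.br (nat_lit 8) (nat_lit 1) (.cons (.br (nat_lit 7) (nat_lit 0) (.cons (.zr (nat_lit 79228162514408454980643127552) (nat_lit 1213648186378982386565121) (nat_lit 5) (nat_lit 0)) .nil)) (.cons (.br (nat_lit 4) (nat_lit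 1) (.cons (.ev (nat_lit 20837006750696615170027261593348) (nat_lit 3)) .nil)) .nil))) .nil)))) .nil))),
 (.br (nat_lit 13) (nat_lit 0) (.cons (.br (nat_lit 5) (nat_lit 0) (.cons (.br (nat_lit 7) (nat_lit 0) (.cons (.br (nat_lit 2) (nat_lit 0) (.cons (.ev (nat_lit 79537652246452447011202400513) (nat_lit 1)) .nil)) .nil)) (.cons (.br (nat_lit 2) (nat_lit 0) (.cons (.ev (nat_lit 20361638975110201121347502932225) (nat_lit 1)) (.cons (.ev (nat_lit 79537647524085964141540474881) (nat_lit 1)) .nil))) .nil))) (.cons (.br (nat_lit 7) (nat_lit 0) (.cons (.br (nat_lit 5) (nat_lit 0) (.cons (.br (nat_lit 2) (nat_lit 0) (.cons (.ev (nat_lit 79537647524085964141540474881) (nat_lit 1)) .nil)) .nil)) (.cons (.br (nat_lit 2) (nat_lit 0) (.cons (.ev (nat_lit 1208944338416301233930241) (nat_lit 1)) (.cons (.ev (nat_lit 79537652246452447011202400513) (nat_lit 1)) .nil))) .nil))) (.cons (.rf (nat_lit 3784) (nat_lit 457935134042368542752)) .nil)))),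
 (.br (nat_lit 11) (nat_lit 1) (.cons (.ev (nat_lit 79537647524085964141540474881) (nat_lit 1)) (.cons (.ev (nat_lit 79537647524158021731300147201) (nat_lit 1)) .nil))),
 (.br (nat_lit 13) (nat_lit 0) (.cons (.rf (nat_lit 4008) (nat_lit 493858305440582043680)) (.cons (.ev (nat_lit 1213666632841572546248961) (nat_lit 1)) (.cons (.br (nat_lit 4) (nat_lit 1) (.cons (.rf (nat_lit 2142) (nat_lit 493858305440582043680)) (.cons (.rf (nat_lit 4009) (nat_lit 493858305440582043680)) (.cons (.br (nat_lit 2) (nat_lit 0) (.cons (.br (nat_lit 11) (nat_lit 1) (.cons (.ev (nat_lit 79850764033804414294142615810) (nat_lit 2)) .nil)) (.cons (.ev (nat_lit 79537652246452447011202400513) (nat_lit 1)) .nil))) .nil)))) .nil)))),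
 (.br (nat_lit 13) (nat_lit 0) (.cons (.rf (nat_lit 4008) (nat_lit 493858305440582043680)) (.cons (.ev (nat_lit 1213666632841572546248961) (nat_lit 1)) (.cons (.br (nat_lit 7) (nat_lit 0) (.cons (.br (nat_lit 2) (nat_lit 0) (.cons (.ev (nat_lit 79228162532783139265603174401) (nat_lit 1)) (.cons (.ev (nat_lit 79537652246452447011202400513) (nat_lit 1)) .nil))) (.cons (.br (nat_lit 5) (nat_lit 0) (.cons (.rf (nat_lit 4009) (nat_lit 493858305440582043680)) (.cons (.br (nat_lit 4) (nat_lit 1) (.cons (.zr (nat_lit 79228162514336397386605265152) (nat_lit 1213648186378978108375041) (nat_lit 5) (nat_lit 0)) .nil)) .nil))) (.cons (.ev (nat_lit 79537647524158021731300147201) (nat_lit 1)) .nil)))) .nil)))),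
 (.br (nat_lit 11) (nat_lit 1) (.cons (.rf (nat_lit 3953) (nat_lit 493670240576948503616)) (.cons (.br (nat_lit 7) (nat_lit 0) (.cons (.ev (nat_lit 79537652246452447011202400513) (nat_lit 1)) (.cons (.br (nat_lit 10) (nat_lit 1) (.cons (.ev (nat_lit 1208944266358702884323329) (nat_lit 1)) (.cons (.ev (nat_lit 1213666632841572546248961) (nat_lit 1)) .nil))) (.cons (.rf (nat_lit 3838) (nat_lit 493857210323783844928)) .nil)))) (.cons (.br (nat_lit 4) (nat_lit 1) (.cons (.ev (nat_lit 79537647524085964141540474881) (nat_lit 1)) (.cons (.br (nat_lit 5) (nat_lit 0) (.cons (.br (nat_lit 7) (nat_lit 0) (.cons (.ev (nat_lit 1208944266358702884323329) (nat_lit 1)) .nil)) (.cons (.br (nat_lit 7) (nat_lit 0) (.cons (.ev (nat_lit 1208944266358702884323329) (nat_lit 1)) .nil)) .nil))) .nil))) .nil)))),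
 (.br (nat_lit 11) (nat_lit 1) (.cons (.rf (nat_lit 3953) (nat_lit 493670240576948503616)) (.cons (.br (nat_lit 13) (nat_lit 0) (.cons (.br (nat_lit 10) (nat_lit 1) (.cons (.br (nat_lit 7) (nat_lit 0) (.cons (.ev (nat_lit 20998574869747796575908388342536) (nat_lit 4)) .nil)) (.cons (.br (nat_lit 2) (nat_lit 0) (.cons (.ev (nat_lit 80776796563339636200297465348) (nat_lit 3)) .nil)) .nil))) (.cons (.br (nat_lit 10) (nat_lit 1) (.cons (.br (nat_lit 7) (nat_lit 0) (.cons (.ev (nat_lit 20998574869747796575908388342536) (nat_lit 4)) .nil)) (.cons (.ev (nat_lit 1213666632841572546248961) (nat_lit 1)) .nil))) (.cons (.ev (nat_lit 20282719093383858251885638058241) (nat_lit 1)) .nil)))) (.cons (.br (nat_lit 10) (nat_lit 1) (.cons (.br (nat_lit 8) (nat_lit 1) (.cons (.br (nat_lit 4) (nat_lit 1) (.cons (.ev (nat_lit 1208944338698875705491713) (nat_lit 1)) .nil)) .nil)) (.cons (.br (nat_lit 4) (nat_lit 1) (.cons (.ev (nat_lit 310693935641241177171230721) (nat_lit 1)) (.cons (.br (nat_lit 2) (nat_lit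 0) (.cons (.ev (nat_lit 317229388695657107060525630980) (nat_lit 3)) .nil)) .nil))) .nil))) .nil)))),
 (.br (nat_lit 5) (nat_lit 0) (.cons (.ev (nat_lit 79228162532711081667253567489) (nat_lit 1)) (.cons (.ev (nat_lit 310693935641241177171230721) (nat_lit 1)) .nil))),
 (.br (nat_lit 11) (nat_lit 1) (.cons (.rf (nat_lit 4012) (nat_lit 493858305440582043680)) (.cons (.rf (nat_lit 4013) (nat_lit 493858305440582043680)) (.cons (.br (nat_lit 2) (nat_lit 0) (.cons (.rf (nat_lit 4014) (nat_lit 493858305440582043680)) (.cons (.br (nat_lit 5) (nat_lit 0) (.cons (.kr (nat_lit 20361637766165934761540795236608) (nat_lit 309485009821345073019813888) (nat_lit 1) (nat_lit 0)) (.cons (.br (nat_lit 4) (nat_lit 1) (.cons (.ev (nat_lit 20679171804168277746644901102340) (nat_lit 3)) .nil)) .nil))) (.cons (.ev (nat_lit 20282719088661491769015976132609) (nat_lit 1)) .nil)))) .nil)))),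
 (.br (nat_lit 9) (nat_lit 1) (.cons (.rf (nat_lit 3419) (nat_lit 493675700753833166880)) (.cons (.br (nat_lit 11) (nat_lit 1) (.cons (.rf (nat_lit 3425) (nat_lit 493781816816831662112)) (.cons (.rf (nat_lit 4007) (nat_lit 493858305440582043680)) (.cons (.br (nat_lit 11) (nat_lit 1) (.cons (.rf (nat_lit 3425) (nat_lit 493787270394505431072)) (.cons (.rf (nat_lit 4007) (nat_lit 493858305440582043680)) .nil))) .nil)))) (.cons (.br (nat_lit 13) (nat_lit 0) (.cons (.rf (nat_lit 4008) (nat_lit 493858305440582043680)) (.cons (.rf (nat_lit 4010) (nat_lit 493858305440582043680)) (.cons (.rf (nat_lit 4011) (nat_lit 493858305440582043680)) (.cons (.br (nat_lit 13) (nat_lit 0) (.cons (.rf (nat_lit 3784) (nat_lit 457935134042368542752)) (.cons (.rf (nat_lit 4010) (nat_lit 493858305440582043680)) (.cons (.rf (nat_lit 4011) (nat_lit 493858305440582043680)) .nil)))) .nil))))) (.cons (.br (nat_lit 11) (nat_lit 1) (.cons (.rf (nat_lit 4012) (nat_lit 493858305440582043680)) (.cons (.rf (nat_lit 4013)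 (nat_lit 493858305440582043680)) (.cons (.rf (nat_lit 4015) (nat_lit 493858305440582043680)) (.cons (.br (nat_lit 11) (nat_lit 1) (.cons (.rf (nat_lit 4012) (nat_lit 493858305440582043680)) (.cons (.rf (nat_lit 4013) (nat_lit 493858305440582043680)) (.cons (.rf (nat_lit 4015) (nat_lit 493858305440582043680)) .nil)))) .nil))))) .nil))))),
 (.br (nat_lit 10) (nat_lit 1) (.cons (.ev (nat_lit 1213666632842672057876481) (nat_lit 1)) .nil)),
 (.br (nat_lit 11) (nat_lit 1) (.cons (.rf (nat_lit 4005) (nat_lit 493675700753833165888)) (.cons (.br (nat_lit 4) (nat_lit 1) (.cons (.br (nat_lit 7) (nat_lit 0) (.cons (.rf (nat_lit 4017) (nat_lit 493858305440582043680)) (.cons (.rf (nat_lit 4017) (nat_lit 493675700753833165888)) .nil))) (.cons (.ev (nat_lit 79537647524085965241052102913) (nat_lit 1)) .nil))) .nil))),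
 (.br (nat_lit 11) (nat_lit 1) (.cons (.rf (nat_lit 4005) (nat_lit 493675700753833165888)) (.cons (.br (nat_lit 10) (nat_lit 1) (.cons (.br (nat_lit 7) (nat_lit 0) (.cons (.br (nat_lit 13) (nat_lit 0) (.cons (.ev (nat_lit 20999803138307025167365455151880) (nat_lit 4)) .nil)) (.cons (.br (nat_lit 13) (nat_lit 0) (.cons (.ev (nat_lit 21314235110582817698590816669448) (nat_lit 4)) .nil)) .nil))) (.cons (.br (nat_lit 8) (nat_lit 1) (.cons (.br (nat_lit 4) (nat_lit 1) (.cons (.ev (nat_lit 20838868496532463994922583787268) (nat_lit 3)) .nil)) (.cons (.ev (nat_lit 1213666632842672057876481) (nat_lit 1)) .nil))) (.cons (.ev (nat_lit 20282719088661491769015976132609) (nat_lit 1)) .nil)))) .nil))),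
 (.br (nat_lit 13) (nat_lit 0) (.cons (.br (nat_lit 5) (nat_lit 0) (.cons (.br (nat_lit 1) (nat_lit 0) (.cons (.br (nat_lit 7) (nat_lit 0) (.cons (.ev (nat_lit 20680424307911868024613421256456) (nat_lit 4)) .nil)) .nil)) (.cons (.rf (nat_lit 3497) (nat_lit 493781814619955890208)) .nil))) (.cons (.br (nat_lit 5) (nat_lit 0) (.cons (.br (nat_lit 7) (nat_lit 0) (.cons (.br (nat_lit 11) (nat_lit 1) (.cons (.ev (nat_lit 20687851891738299950954681927440) (nat_lit 5)) .nil)) .nil)) (.cons (.rf (nat_lit 3497) (nat_lit 493781816816831662112)) .nil))) (.cons (.rf (nat_lit 3784) (nat_lit 457935134042368541760)) .nil)))),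
 (.br (nat_lit 13) (nat_lit 0) (.cons (.rf (nat_lit 4020) (nat_lit 493858305440582043680)) (.cons (.br (nat_lit 5) (nat_lit 0) (.cons (.br (nat_lit 1) (nat_lit 0) (.cons (.br (nat_lit 7) (nat_lit 0) (.cons (.ev (nat_lit 79850764070770521873139826690) (nat_lit 2)) .nil)) .nil)) (.cons (.rf (nat_lit 3497) (nat_lit 493781816812540889120)) .nil))) (.cons (.br (nat_lit 7) (nat_lit 0) (.cons (.br (nat_lit 10) (nat_lit 1) (.cons (.rf (nat_lit 3863) (nat_lit 457822823326566089792)) (.cons (.br (nat_lit 1) (nat_lit 0) (.cons (.ev (nat_lit 80157840636792117474426355970) (nat_lit 2)) .nil)) .nil))) (.cons (.rf (nat_lit 3505) (nat_lit 493787270394505431072)) (.cons (.ev (nat_lit 79537647524158021731300147201) (nat_lit 1)) .nil)))) .nil)))),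
 (.br (nat_lit 13) (nat_lit 0) (.cons (.rf (nat_lit 4020) (nat_lit 493858305440582043680)) (.cons (.rf (nat_lit 4021) (nat_lit 493858305440582043680)) (.cons (.br (nat_lit 11) (nat_lit 1) (.cons (.br (nat_lit 8) (nat_lit 1) (.cons (.zr (nat_lit 40723275532331869525280613925120) (nat_lit 618974778903224104484077569) (nat_lit 5) (nat_lit 0)) (.cons (.br (nat_lit 5) (nat_lit 0) (.cons (.ev (nat_lit 79850764070769961122243215874) (nat_lit 2)) .nil)) .nil))) (.cons (.rf (nat_lit 3577) (nat_lit 493857076188729673760)) (.cons (.ev (nat_lit 79537647524158021731300147201) (nat_lit 1)) .nil)))) .nil)))),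
 (.br (nat_lit 4) (nat_lit 1) (.cons (.ev (nat_lit 20361947255898122870958436909313) (nat_lit 1)) (.cons (.br (nat_lit 10) (nat_lit 1) (.cons (.ev (nat_lit 4740813508422626443521) (nat_lit 1)) (.cons (.zr (nat_lit 1208925963732016273948672) (nat_lit 79537647542532708215249960961) (nat_lit 5) (nat_lit 0)) .nil))) .nil))),
 (.br (nat_lit 11) (nat_lit 1) (.cons (.rf (nat_lit 3425) (nat_lit 493857076188729673760)) (.cons (.br (nat_lit 10) (nat_lit 1) (.cons (.br (nat_lit 13) (nat_lit 0) (.cons (.br (nat_lit 7) (nat_lit 0) (.cons (.zr (nat_lit 79228162514408454980643192832) (nat_lit 310693954087985250880716801) (nat_lit 5) (nat_lit 0)) .nil)) (.cons (.br (nat_lit 4) (nat_lit 1) (.cons (.ev (nat_lit 21316715778919064714717104768776) (nat_lit 4)) .nil)) .nil))) (.cons (.br (nat_lit 13) (nat_lit 0) (.cons (.br (nat_lit 5) (nat_lit 0) (.cons (.zr (nat_lit 79228162514408454980643192832) (nat_lit 310693954087985250880716801) (nat_lit 5) (nat_lit 0)) .nil)) (.cons (.rf (nat_lit 3887) (nat_lit 493857210327004973088))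 .nil))) (.cons (.rf (nat_lit 3784) (nat_lit 457824828835778365472)) .nil)))) (.cons (.br (nat_lit 8) (nat_lit 1) (.cons (.rf (nat_lit 4023) (nat_lit 493858305440582043680)) (.cons (.br (nat_lit 5) (nat_lit 0) (.cons (.zr (nat_lit 61005685135983539947028841759488) (nat_lit 309485028268371721217703937) (nat_lit 5) (nat_lit 11)) (.cons (.br (nat_lit 4) (nat_lit 1) (.cons (.ev (nat_lit 2417870230934057511879170) (nat_lit 2)) .nil)) .nil))) .nil))) .nil))))]

theorem c147 : chkAll C T R L147 (nat_lit 4001) = true := by decide +kernel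

theorem l147 : (nat_lit 4001) + L147.length = (nat_lit 4025) := by decide +kernel

end Pool.Agent.H93.Neg.Q14_6_0_0_7_1
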