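import Pool.Agent.H93.Neg.TabQ14_6_0_0_7_1

/-!
Certificates.
-/

set_option autoImplicit false
set_option maxRecDepth 100000
set_option linter.all false

namespace Pool.Agent.H93.Neg.Q14_6_0_0_7_1

/-- part of the certificates -/
def L148 : List Prf := [(.br (nat_lit 7) (nat_lit 0) (.cons (.rf (nat_lit 3690) (nat_lit 493786316014121748512)) (.cons (.rf (nat_lit 3690) (nat_lit 493786316018412521504)) (.cons (.rf (nat_lit 3690) (nat_lit 493784064220746319904)) (.cons (.rf (nat_lit 3544) (nat_lit 493781816816831662112)) .nil))))),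
 (.br (nat_lit 8) (nat_lit 1) (.cons (.kr (nat_lit 20361637766166006819134833164544) (nat_lit 2417851639230357861105664) (nat_lit 1) (nat_lit 0)) .nil)),
 (.br (nat_lit 1) (nat_lit 0) (.cons (.kr (nat_lit 60926456973469275609435297809152) (nat_lit 9444805024432873603072) (nat_lit 1) (nat_lit 0)) .nil)),
 (.br (nat_lit 11) (nat_lit 1) (.cons (.rf (nat_lit 4024) (nat_lit 493858305440582043680)) (.cons (.rf (nat_lit 4025) (nat_lit 493858305440582043680)) (.cons (.br (nat_lit 5) (nat_lit 0) (.cons (.br (nat_lit 7) (nat_lit 0) (.cons (.br (nat_lit 1) (nat_lit 0) (.cons (.ev (nat_lit 20520713070732843936054763652868) (nat_lit 3)) .nil)) (.cons (.rf (nat_lit 4026) (nat_lit 493858305440582043680)) .nil))) (.cons (.br (nat_lit 7) (nat_lit 0) (.cons (.br (nat_lit 1) (nat_lit 0) (.cons (.zr (nat_lit 237684487543657717103227307520) (nat_lit 317966398473293380206985223) (nat_lit 35) (nat_lit 0)) .nil)) (.cons (.rf (nat_lit 4027) (nat_lit 493858305440582043680)) .nil))) (.cons (.br (nat_lit 7) (nat_lit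 0) (.cons (.br (nat_lit 8) (nat_lit 1) (.cons (.ev (nat_lit 20680409763023242082120723007236) (nat_lit 3)) .nil)) (.cons (.rf (nat_lit 4027) (nat_lit 493856055839791613984)) .nil))) .nil)))) .nil)))),
 (.br (nat_lit 9) (nat_lit 1) (.cons (.rf (nat_lit 3419) (nat_lit 493675700753833166880)) (.cons (.br (nat_lit 11) (nat_lit 1) (.cons (.rf (nat_lit 4018) (nat_lit 493858305440582043680)) (.cons (.rf (nat_lit 4019) (nat_lit 493858305440582043680)) (.cons (.br (nat_lit 11) (nat_lit 1) (.cons (.rf (nat_lit 4018) (nat_lit 493858305440582043680)) (.cons (.rf (nat_lit 4019) (nat_lit 493858305440582043680)) .nil))) .nil)))) (.cons (.br (nat_lit 13) (nat_lit 0) (.cons (.rf (nat_lit 4020) (nat_lit 493858305440582043680)) (.cons (.rf (nat_lit 4021) (nat_lit 493858305440582043680)) (.cons (.rf (nat_lit 4022) (nat_lit 493858305440582043680)) (.cons (.br (nat_lit 13) (nat_lit 0) (.cons (.rf (nat_lit 3784) (nat_lit 457935134042368541760)) (.cons (.rf (nat_lit 4021) (nat_lit 493858305440582043680)) (.cons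 (.rf (nat_lit 4022) (nat_lit 493858305440582043680)) .nil)))) .nil))))) (.cons (.br (nat_lit 11) (nat_lit 1) (.cons (.rf (nat_lit 4024) (nat_lit 493858305440582043680)) (.cons (.rf (nat_lit 4025) (nat_lit 493858305440582043680)) (.cons (.rf (nat_lit 4028) (nat_lit 493858305440582043680)) (.cons (.br (nat_lit 11) (nat_lit 1) (.cons (.rf (nat_lit 4024) (nat_lit 493858305440582043680)) (.cons (.rf (nat_lit 4025) (nat_lit 493858305440582043680)) (.cons (.rf (nat_lit 4028) (nat_lit 493858305440582043680)) .nil)))) .nil))))) .nil))))),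
 (.br (nat_lit 1) (nat_lit 0) (.cons (.rf (nat_lit 3863) (nat_lit 493857214725047289888)) (.cons (.rf (nat_lit 3863) (nat_lit 493857210327004973088)) (.cons (.rf (nat_lit 3863) (nat_lit 493857139958262892576)) (.cons (.rf (nat_lit 2725) (nat_lit 493677951450914064416)) .nil))))),
 (.br (nat_lit 2) (nat_lit 0) (.cons (.br (nat_lit 13) (nat_lit 0) (.cons (.ev (nat_lit 1213666632842672057876481) (nat_lit 1)) (.cons (.br (nat_lit 10) (nat_lit 1) (.cons (.ev (nat_lit 121773694261145912017076657521668) (nat_lit 3)) (.cons (.br (nat_lit 11) (nat_lit 1) (.cons (.ev (nat_lit 310693935640959702211297281) (nat_lit 1)) .nil)) .nil))) .nil))) (.cons (.ev (nat_lit 1213648186378978091663361) (nat_lit 1)) (.cons (.rf (nat_lit 4030) (nat_lit 493858305440582043680)) .nil)))),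
 (.br (nat_lit 13) (nat_lit 0) (.cons (.rf (nat_lit 3884) (nat_lit 493857210327004973088)) .nil)),
 (.br (nat_lit 2) (nat_lit 0) (.cons (.br (nat_lit 7) (nat_lit 0) (.cons (.rf (nat_lit 4032) (nat_lit 493858305440582043680)) (.cons (.rf (nat_lit 3017) (nat_lit 493858305440481379488)) .nil))) (.cons (.ev (nat_lit 1213666632842672057876481) (nat_lit 1)) (.cons (.rf (nat_lit 4030) (nat_lit 493858305440582043680)) .nil)))),
 (.br (nat_lit 2) (nat_lit 0) (.cons (.br (nat_lit 7) (nat_lit 0) (.cons (.br (nat_lit 1) (nat_lit 0) (.cons (.br (nat_lit 11) (nat_lit 1) (.cons (.ev (nat_lit 79537652246524224225480343553) (nat_lit 1)) .nil)) .nil)) (.cons (.rf (nat_lit 3017) (nat_lit 493858305440481379488)) .nil))) (.cons (.ev (nat_lit 1213666632842672057876481) (nat_lit 1)) (.cons (.rf (nat_lit 4030) (nat_lit 493858305440582043680)) .nil)))),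
 (.br (nat_lit 4) (nat_lit 1) (.cons (.kr (nat_lit 20361637766166006819134833164544) (nat_lit 2417851639230357861105664) (nat_lit 1) (nat_lit 0)) .nil)),
 (.br (nat_lit 11) (nat_lit 1) (.cons (.rf (nat_lit 2725) (nat_lit 493677951450914064416)) (.cons (.br (nat_lit 10) (nat_lit 1) (.cons (.br (nat_lit 7) (nat_lit 0) (.cons (.ev (nat_lit 1213648186378978091663361) (nat_lit 1)) (.cons (.ev (nat_lit 1213666632842672057876481) (nat_lit 1)) .nil))) (.cons (.br (nat_lit 8) (nat_lit 1) (.cons (.ev (nat_lit 1213666632842672057876481) (nat_lit 1)) (.cons (.rf (nat_lit 4035) (nat_lit 493858305440582043680)) .nil))) (.cons (.rf (nat_lit 3784) (nat_lit 457824828835778365472)) .nil)))) (.cons (.br (nat_lit 10) (nat_lit 1) (.cons (.ev (nat_lit 20361638975091754377269498347521) (nat_lit 1)) (.cons (.br (nat_lit 2) (nat_lit 0) (.cons (.zr (nat_lit 2417851639232556884492288) (nat_lit 20361947251175756388088808472577) (nat_lit 5) (nat_lit 0)) (.cons (.ev (nat_lit 1213666632842672057876481) (nat_lit 1))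 .nil))) .nil))) .nil)))),
 (.br (nat_lit 1) (nat_lit 0) (.cons (.kr (nat_lit 20361637766166006819134833164544) (nat_lit 2417851639230357861105664) (nat_lit 1) (nat_lit 0)) .nil)),
 (.br (nat_lit 11) (nat_lit 1) (.cons (.rf (nat_lit 4036) (nat_lit 493858305440582043680)) (.cons (.rf (nat_lit 3577) (nat_lit 493787270394505431072)) (.cons (.br (nat_lit 7) (nat_lit 0) (.cons (.ev (nat_lit 79537652246452448110714028033) (nat_lit 1)) (.cons (.kr (nat_lit 4740813226943354765312) (nat_lit 20361637766165934761540795236352) (nat_lit 8) (nat_lit 0)) (.cons (.br (nat_lit 2) (nat_lit 0) (.cons (.rf (nat_lit 4037) (nat_lit 493858305440582043680)) (.cons (.ev (nat_lit 1213666632842672057876481) (nat_lit 1)) .nil))) .nil)))) .nil)))),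
 (.br (nat_lit 9) (nat_lit 1) (.cons (.rf (nat_lit 4016) (nat_lit 493858305440582043680)) (.cons (.rf (nat_lit 4029) (nat_lit 493858305440582043680)) (.cons (.br (nat_lit 13) (nat_lit 0) (.cons (.rf (nat_lit 4031) (nat_lit 493858305440582043680)) (.cons (.rf (nat_lit 4033) (nat_lit 493858305440582043680)) (.cons (.rf (nat_lit 4034) (nat_lit 493858305440582043680)) (.cons (.br (nat_lit 13) (nat_lit 0) (.cons (.rf (nat_lit 4031) (nat_lit 493858305440582043680)) (.cons (.rf (nat_lit 4033) (nat_lit 493858305440582043680)) (.cons (.rf (nat_lit 4034) (nat_lit 493858305440582043680)) .nil)))) .nil))))) (.cons (.br (nat_lit 11) (nat_lit 1) (.cons (.rf (nat_lit 4036) (nat_lit 493858305440582043680)) (.cons (.br (nat_lit 11) (nat_lit 1) (.cons (.rf (nat_lit 2725) (nat_lit 493677951450914064416)) (.cons (.rf (nat_lit 3577) (nat_lit 493787270394505431072)) (.cons (.rf (nat_lit 4025) (nat_lit 493786318215288293408)) .nil)))) (.cons (.rf (nat_lit 4038) (nat_lit 493858305440582043680)) (.cons (.br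 (nat_lit 11) (nat_lit 1) (.cons (.rf (nat_lit 4036) (nat_lit 493858305440582043680)) (.cons (.rf (nat_lit 4025) (nat_lit 493786318215288293408)) (.cons (.rf (nat_lit 4038) (nat_lit 493858305440582043680)) .nil)))) .nil))))) .nil))))),
 (.br (nat_lit 13) (nat_lit 0) (.cons (.ev (nat_lit 20282409603670117449500232581121) (nat_lit 1)) (.cons (.ev (nat_lit 20282409608374036906816896565249) (nat_lit 1)) .nil))),
 (.br (nat_lit 9) (nat_lit 1) (.cons (.rf (nat_lit 4016) (nat_lit 493858305440582043680)) (.cons (.rf (nat_lit 4029) (nat_lit 493858305440582043680)) (.cons (.rf (nat_lit 4039) (nat_lit 493858305440582043680)) (.cons (.br (nat_lit 7) (nat_lit 0) (.cons (.br (nat_lit 2) (nat_lit 0) (.cons (.ev (nat_lit 79228162532783139265603174401) (nat_lit 1)) (.cons (.br (nat_lit 5) (nat_lit 0) (.cons (.br (nat_lit 11) (nat_lit 1) (.cons (.ev (nat_lit 316919908463686592283569225988) (nat_lit 3)) (.cons (.kr (nat_lit 4740813226943354765312) (nat_lit 20361637766165934761540795236352) (nat_lit 8) (nat_lit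 0)) .nil))) (.cons (.br (nat_lit 11) (nat_lit 1) (.cons (.ev (nat_lit 310693935713299866442531073) (nat_lit 1)) (.cons (.br (nat_lit 8) (nat_lit 1) (.cons (.ev (nat_lit 20678552862409191097025163233028) (nat_lit 3)) .nil)) .nil))) .nil))) (.cons (.br (nat_lit 11) (nat_lit 1) (.cons (.rf (nat_lit 3419) (nat_lit 493565395547242989600)) (.cons (.rf (nat_lit 3953) (nat_lit 493670240576948503616)) (.cons (.br (nat_lit 8) (nat_lit 1) (.cons (.br (nat_lit 5) (nat_lit 0) (.cons (.ev (nat_lit 20837625730160990267352060856068) (nat_lit 3)) .nil)) (.cons (.kr (nat_lit 4740813226943354765312) (nat_lit 20361637766165934761540795236352) (nat_lit 8) (nat_lit 0)) .nil))) .nil)))) .nil)))) (.cons (.br (nat_lit 5) (nat_lit 0) (.cons (.br (nat_lit 2) (nat_lit 0) (.cons (.ev (nat_lit 1213648186378978091663361) (nat_lit 1)) (.cons (.br (nat_lit 11) (nat_lit 1) (.cons (.ev (nat_lit 792591176358623537152033489416) (nat_lit 4)) (.cons (.ev (nat_lit 79537647524085964141540474881) (nat_lit 1)) .nil))) .nil)))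 (.cons (.br (nat_lit 11) (nat_lit 1) (.cons (.ev (nat_lit 79228167236702879156738720001) (nat_lit 1)) (.cons (.ev (nat_lit 1208944266358702884323329) (nat_lit 1)) (.cons (.br (nat_lit 1) (nat_lit 0) (.cons (.ev (nat_lit 20361638975110273178937229050113) (nat_lit 1)) (.cons (.ev (nat_lit 79228167236702879156738720001) (nat_lit 1)) .nil))) .nil)))) (.cons (.br (nat_lit 2) (nat_lit 0) (.cons (.rf (nat_lit 4040) (nat_lit 493858305440582043680)) (.cons (.rf (nat_lit 2972) (nat_lit 15433037822688430112)) (.cons (.rf (nat_lit 3953) (nat_lit 493670240576948503616)) .nil)))) .nil)))) (.cons (.ev (nat_lit 1213648258436567851335681) (nat_lit 1)) (.cons (.br (nat_lit 11) (nat_lit 1) (.cons (.br (nat_lit 13) (nat_lit 0) (.cons (.br (nat_lit 10) (nat_lit 1) (.cons (.br (nat_lit 8) (nat_lit 1) (.cons (.zr (nat_lit 2417851855405339031830528) (nat_lit 309489805975085712479879937) (nat_lit 5) (nat_lit 0)) .nil)) (.cons (.br (nat_lit 8) (nat_lit 1) (.cons (.ev (nat_lit 158768237390135068018572722690) (nat_lit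 2)) .nil)) .nil))) (.cons (.br (nat_lit 4) (nat_lit 1) (.cons (.br (nat_lit 10) (nat_lit 1) (.cons (.ev (nat_lit 21314239936620002269046453636872) (nat_lit 4)) .nil)) (.cons (.br (nat_lit 10) (nat_lit 1) (.cons (.ev (nat_lit 1213648186378978091663361) (nat_lit 1)) .nil)) .nil))) (.cons (.rf (nat_lit 3784) (nat_lit 457824828835778365472)) .nil)))) (.cons (.br (nat_lit 13) (nat_lit 0) (.cons (.ev (nat_lit 20282409608374036906816896565249) (nat_lit 1)) (.cons (.br (nat_lit 4) (nat_lit 1) (.cons (.br (nat_lit 5) (nat_lit 0) (.cons (.ev (nat_lit 79231794032537256160772752130) (nat_lit 2)) .nil)) (.cons (.br (nat_lit 10) (nat_lit 1) (.cons (.ev (nat_lit 79231794032537256160772752130) (nat_lit 2)) .nil)) .nil))) (.cons (.rf (nat_lit 3784) (nat_lit 457824828835778364480)) .nil)))) (.cons (.br (nat_lit 10) (nat_lit 1) (.cons (.br (nat_lit 8) (nat_lit 1) (.cons (.br (nat_lit 13) (nat_lit 0) (.cons (.ev (nat_lit 20837625711345167192573639590660) (nat_lit 3)) .nil)) (.cons (.br (nat_lit 4) (nat_lit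 1) (.cons (.ev (nat_lit 20679176658909318358461227796232) (nat_lit 4)) .nil)) .nil))) (.cons (.br (nat_lit 13) (nat_lit 0) (.cons (.ev (nat_lit 40644360486327468030100399915010) (nat_lit 2)) (.cons (.ev (nat_lit 79537652264898909605623562241) (nat_lit 1)) .nil))) (.cons (.br (nat_lit 4) (nat_lit 1) (.cons (.br (nat_lit 2) (nat_lit 0) (.cons (.ev (nat_lit 20680414589392756832640656672516) (nat_lit 3)) .nil)) (.cons (.ev (nat_lit 310693935641241177171230721) (nat_lit 1)) .nil))) .nil)))) (.cons (.ev (nat_lit 79537647524158021731300147201) (nat_lit 1)) .nil))))) .nil))))) .nil))))),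
 (.br (nat_lit 6) (nat_lit 1) (.cons (.rf (nat_lit 3419) (nat_lit 493787200025760303136)) (.cons (.rf (nat_lit 3953) (nat_lit 493857210323783844928)) (.cons (.rf (nat_lit 4005) (nat_lit 493858305440582043680)) (.cons (.br (nat_lit 9) (nat_lit 1) (.cons (.rf (nat_lit 4016) (nat_lit 493858305440582043680)) (.cons (.rf (nat_lit 4029) (nat_lit 493858305440582043680)) (.cons (.rf (nat_lit 4039) (nat_lit 493858305440582043680)) (.cons (.rf (nat_lit 4041) (nat_lit 493858305440582043680)) (.cons (.br (nat_lit 9) (nat_lit 1) (.cons (.rf (nat_lit 4016) (nat_lit 493858305440582043680)) (.cons (.rf (nat_lit 4029) (nat_lit 493858305440582043680)) (.cons (.rf (nat_lit 4039) (nat_lit 493858305440582043680)) (.cons (.rf (nat_lit 4041) (nat_lit 493858305440582043680)) .nil))))) .nil)))))) .nil))))),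
 (.br (nat_lit 8) (nat_lit 1) (.cons (.br (nat_lit 11) (nat_lit 1) (.cons (.ev (nat_lit 310693935713018391449043201) (nat_lit 1)) .nil)) (.cons (.br (nat_lit 4) (nat_lit 1) (.cons (.br (nat_lit 11) (nat_lit 1) (.cons (.ev (nat_lit 20838863670311100227257259852036) (nat_lit 3)) .nil)) (.cons (.rf (nat_lit 3991) (nat_lit 493858305440582043680)) .nil))) .nil))),
 (.br (nat_lit 11) (nat_lit 1) (.cons (.rf (nat_lit 4043) (nat_lit 493858305440582043680)) (.cons (.br (nat_lit 8) (nat_lit 1) (.cons (.br (nat_lit 4) (nat_lit 1) (.cons (.ev (nat_lit 79229376180897179170385231873) (nat_lit 1)) .nil)) (.cons (.br (nat_lit 2) (nat_lit 0) (.cons (.ev (nat_lit 20997322394228015223963839696136) (nat_lit 4)) .nil)) .nil))) .nil))),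
 (.br (nat_lit 9) (nat_lit 1) (.cons (.rf (nat_lit 3419) (nat_lit 493675700753833166880)) (.cons (.br (nat_lit 4) (nat_lit 1) (.cons (.ev (nat_lit 72057598349672449) (nat_lit 1)) (.cons (.br (nat_lit 11) (nat_lit 1) (.cons (.br (nat_lit 11) (nat_lit 1) (.cons (.rf (nat_lit 3784) (nat_lit 457935134042368542752)) .nil)) (.cons (.rf (nat_lit 3784) (nat_lit 457935134042368542752)) .nil))) .nil))) (.cons (.br (nat_lit 10) (nat_lit 1) (.cons (.br (nat_lit 11) (nat_lit 1) (.cons (.rf (nat_lit 4043) (nat_lit 493858305440582043680)) (.cons (.rf (nat_lit 4044) (nat_lit 493858305440582043680)) (.cons (.br (nat_lit 11) (nat_lit 1) (.cons (.rf (nat_lit 4043) (nat_lit 493858305440582043680)) (.cons (.rf (nat_lit 4044) (nat_lit 493858305440582043680)) .nil))) .nil)))) (.cons (.ev (nat_lit 1213648258437667362963713) (nat_lit 1)) (.cons (.br (nat_lit 13) (nat_lit 0) (.cons (.ev (nat_lit 20282410817299856802925359661313) (nat_lit 1)) (.cons (.br (nat_lit 2) (nat_lit 0) (.cons (.br (nat_lit 2) (nat_lit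 0) (.cons (.rf (nat_lit 3998) (nat_lit 493858305440582043680)) .nil)) (.cons (.rf (nat_lit 3998) (nat_lit 493858305440582043680)) .nil))) (.cons (.br (nat_lit 8) (nat_lit 1) (.cons (.br (nat_lit 4) (nat_lit 1) (.cons (.br (nat_lit 11) (nat_lit 1) (.cons (.ev (nat_lit 20996094144632906492004285089032) (nat_lit 4)) .nil)) (.cons (.ev (nat_lit 20361637770888301525889728905473) (nat_lit 1)) .nil))) (.cons (.ev (nat_lit 1213666632841572546248961) (nat_lit 1)) .nil))) .nil)))) .nil)))) .nil)))),
 (.br (nat_lit 11) (nat_lit 1) (.cons (.br (nat_lit 11) (nat_lit 1) (.cons (.rf (nat_lit 3863) (nat_lit 493781779436657543200)) .nil)) (.cons (.br (nat_lit 11) (nat_lit 1) (.cons (.rf (nat_lit 3863) (nat_lit 493781779436657543200)) .nil)) .nil))),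
 (.br (nat_lit 11) (nat_lit 1) (.cons (.rf (nat_lit 3419) (nat_lit 493565395547242989600)) (.cons (.ev (nat_lit 79537647524158022830811775233) (nat_lit 1)) .nil))),
 (.br (nat_lit 13) (nat_lit 0) (.cons (.br (nat_lit 11) (nat_lit 1) (.cons (.rf (nat_lit 3991) (nat_lit 493858305440582042688)) (.cons (.rf (nat_lit 3991) (nat_lit 493858305440582043680)) (.cons (.br (nat_lit 11) (nat_lit 1) (.cons (.rf (nat_lit 3953) (nat_lit 457824828835778365472)) (.cons (.rf (nat_lit 4046) (nat_lit 458079242628011230272)) .nil))) .nil)))) (.cons (.br (nat_lit 11) (nat_lit 1) (.cons (.rf (nat_lit 3993) (nat_lit 493858305440582043680)) (.cons (.rf (nat_lit 3993) (nat_lit 493858305440582042688)) (.cons (.br (nat_lit 11) (nat_lit 1) (.cons (.rf (nat_lit 3784) (nat_lit 457824828835778365472)) (.cons (.rf (nat_lit 4046) (nat_lit 458009436833786987584)) .nil))) .nil)))) (.cons (.br (nat_lit 2) (nat_lit 0) (.cons (.br (nat_lit 7) (nat_lit 0) (.cons (.br (nat_lit 11) (nat_lit 1) (.cons (.ev (nat_lit 20679174250391298156793602310916)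 (nat_lit 3)) .nil)) (.cons (.br (nat_lit 1) (nat_lit 0) (.cons (.ev (nat_lit 80467344536223790693441798660) (nat_lit 3)) .nil)) .nil))) (.cons (.br (nat_lit 7) (nat_lit 0) (.cons (.ev (nat_lit 20282412026281017216032775012354) (nat_lit 2)) (.cons (.br (nat_lit 8) (nat_lit 1) (.cons (.ev (nat_lit 20841958586782291455980516739344) (nat_lit 5)) .nil)) .nil))) (.cons (.rf (nat_lit 4025) (nat_lit 493678231827452626976)) .nil)))) .nil))))]

theorem c148 : chkAll C T R L148 (nat_lit 4025) = true := by decide +kernel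

theorem l148 : (nat_lit 4025) + L148.length = (nat_lit 4049) := by decide +kernel

/-- part of the certificates -/
def L149 : List Prf := [(.br (nat_lit 13) (nat_lit 0) (.cons (.rf (nat_lit 4048) (nat_lit 493858305440582043680)) (.cons (.br (nat_lit 11) (nat_lit 1) (.cons (.rf (nat_lit 3998) (nat_lit 493858305440582042688)) (.cons (.rf (nat_lit 3998) (nat_lit 493858305440582043680)) (.cons (.br (nat_lit 11) (nat_lit 1) (.cons (.rf (nat_lit 3784) (nat_lit 457824828835778365472)) (.cons (.rf (nat_lit 4046) (nat_lit 457865326043757642816)) .nil))) .nil)))) (.cons (.br (nat_lit 2) (nat_lit 0) (.cons (.br (nat_lit 7) (nat_lit 0) (.cons (.rf (nat_lit 3884) (nat_lit 493853832630505670688)) (.cons (.br (nat_lit 1) (nat_lit 0) (.cons (.ev (nat_lit 20838866069273272957680405119748) (nat_lit 3)) .nil)) .nil))) (.cons (.br (nat_lit 4) (nat_lit 1) (.cons (.ev (nat_lit 20282412026281016934557747970050) (nat_lit 2)) (.cons (.br (nat_lit 1) (nat_lit 0) (.cons (.ev (nat_lit 20521953419142140405050532628228)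 (nat_lit 3)) .nil)) .nil))) (.cons (.rf (nat_lit 4025) (nat_lit 493678231827452626976)) .nil)))) .nil)))),
 (.br (nat_lit 13) (nat_lit 0) (.cons (.rf (nat_lit 4048) (nat_lit 493858305440582043680)) (.cons (.rf (nat_lit 4049) (nat_lit 493858305440582043680)) (.cons (.br (nat_lit 2) (nat_lit 0) (.cons (.br (nat_lit 1) (nat_lit 0) (.cons (.br (nat_lit 11) (nat_lit 1) (.cons (.ev (nat_lit 20680412161985560060220297118468) (nat_lit 3)) .nil)) (.cons (.ev (nat_lit 40644978252143441700469667267330) (nat_lit 2)) .nil))) (.cons (.br (nat_lit 7) (nat_lit 0) (.cons (.br (nat_lit 11) (nat_lit 1) (.cons (.ev (nat_lit 22110866469566612476540904081680) (nat_lit 5)) .nil)) (.cons (.br (nat_lit 1) (nat_lit 0) (.cons (.ev (nat_lit 21316725431546979703758296255752) (nat_lit 4)) .nil)) .nil))) (.cons (.rf (nat_lit 4025) (nat_lit 493678231827452626976)) .nil)))) .nil)))),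
 (.br (nat_lit 9) (nat_lit 1) (.cons (.rf (nat_lit 3419) (nat_lit 493675700753833166880)) (.cons (.br (nat_lit 1) (nat_lit 0) (.cons (.rf (nat_lit 4046) (nat_lit 493858305440582043680)) (.cons (.rf (nat_lit 4046) (nat_lit 493858301042539726880)) (.cons (.rf (nat_lit 4046) (nat_lit 493856049242728138784)) (.cons (.rf (nat_lit 4047) (nat_lit 493858305440582043680)) .nil))))) (.cons (.br (nat_lit 13) (nat_lit 0) (.cons (.rf (nat_lit 4048) (nat_lit 493858305440582043680)) (.cons (.rf (nat_lit 4049) (nat_lit 493858305440582043680)) (.cons (.rf (nat_lit 4050) (nat_lit 493858305440582043680)) (.cons (.br (nat_lit 13) (nat_lit 0) (.cons (.rf (nat_lit 4048) (nat_lit 493858305440582043680)) (.cons (.rf (nat_lit 4049) (nat_lit 493858305440582043680)) (.cons (.rf (nat_lit 4050) (nat_lit 493858305440582043680)) .nil)))) .nil))))) .nil)))),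
 (.br (nat_lit 11) (nat_lit 1) (.cons (.rf (nat_lit 3419) (nat_lit 493565395547242989600)) (.cons (.br (nat_lit 2) (nat_lit 0) (.cons (.ev (nat_lit 72057598349672449) (nat_lit 1)) (.cons (.br (nat_lit 10) (nat_lit 1) (.cons (.ev (nat_lit 1213648258437667362963713) (nat_lit 1)) (.cons (.ev (nat_lit 20361638975110273459312710909953) (nat_lit 1)) .nil))) (.cons (.br (nat_lit 8) (nat_lit 1) (.cons (.ev (nat_lit 310693935713018391449043201) (nat_lit 1)) (.cons (.br (nat_lit 1) (nat_lit 0) (.cons (.ev (nat_lit 21471453476682880484222208901896) (nat_lit 4)) .nil)) .nil))) .nil)))) .nil))),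
 (.br (nat_lit 9) (nat_lit 1) (.cons (.rf (nat_lit 4045) (nat_lit 493858305440582043680)) (.cons (.rf (nat_lit 4051) (nat_lit 493858305440582043680)) (.cons (.br (nat_lit 11) (nat_lit 1) (.cons (.rf (nat_lit 4047) (nat_lit 493858305440582043680)) (.cons (.rf (nat_lit 4052) (nat_lit 493858305440582043680)) (.cons (.br (nat_lit 11) (nat_lit 1) (.cons (.ev (nat_lit 79537647524158022830811775233) (nat_lit 1)) (.cons (.rf (nat_lit 4052) (nat_lit 493858305440582043680)) .nil))) .nil)))) .nil)))),
 (.br (nat_lit 9) (nat_lit 1) (.cons (.br (nat_lit 8) (nat_lit 1) (.cons (.rf (nat_lit 3972) (nat_lit 493858305440447826080)) .nil)) (.cons (.br (nat_lit 13) (nat_lit 0) (.cons (.br (nat_lit 8) (nat_lit 1) (.cons (.zr (nat_lit 79228162514408454980643192832) (nat_lit 310693954087985250880716801) (nat_lit 5) (nat_lit 0)) .nil)) (.cons (.rf (nat_lit 4042) (nat_lit 457824828835778365472)) .nil))) .nil))),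
 (.br (nat_lit 8) (nat_lit 1) (.cons (.ev (nat_lit 79538856468424381533696033025) (nat_lit 1)) (.cons (.br (nat_lit 9) (nat_lit 1) (.cons (.rf (nat_lit 3972) (nat_lit 493858305440447826080)) (.cons (.rf (nat_lit 4042) (nat_lit 457824828835778365472)) .nil))) .nil))),
 (.br (nat_lit 9) (nat_lit 1) (.cons (.br (nat_lit 8) (nat_lit 1) (.cons (.rf (nat_lit 3971) (nat_lit 493858305440447826080)) (.cons (.ev (nat_lit 79538856468424381533696033025) (nat_lit 1)) .nil))) (.cons (.rf (nat_lit 3784) (nat_lit 457824828835778365472)) .nil))),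
 (.br (nat_lit 8) (nat_lit 1) (.cons (.ev (nat_lit 79228162532783139265603174401) (nat_lit 1)) (.cons (.ev (nat_lit 309485028340429310977376513) (nat_lit 1)) .nil))),
 (.br (nat_lit 9) (nat_lit 1) (.cons (.br (nat_lit 4) (nat_lit 1) (.cons (.br (nat_lit 8) (nat_lit 1) (.cons (.br (nat_lit 13) (nat_lit 0) (.cons (.ev (nat_lit 79850764070769961122243215874) (nat_lit 2)) .nil)) (.cons (.rf (nat_lit 3506) (nat_lit 493787270394505431072)) .nil))) (.cons (.rf (nat_lit 4057) (nat_lit 493858305440582043680)) (.cons (.rf (nat_lit 3784) (nat_lit 457935134042368541760)) .nil)))) (.cons (.br (nat_lit 4) (nat_lit 1) (.cons (.br (nat_lit 7) (nat_lit 0) (.cons (.zr (nat_lit 61005685135983539947028841759488) (nat_lit 309485028268371721217703937) (nat_lit 5) (nat_lit 11)) (.cons (.kr (nat_lit 40802503694846133860675134423552) (nat_lit 3631499825327856697802752) (nat_lit 1) (nat_lit 0)) .nil))) (.cons (.br (nat_lit 2) (nat_lit 0) (.cons (.zr (nat_lit 316912668946523284051847086080) (nat_lit 20283028573708207446665640018178)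 (nat_lit 10) (nat_lit 4)) (.cons (.br (nat_lit 8) (nat_lit 1) (.cons (.ev (nat_lit 158458747639500216734884954370) (nat_lit 2)) .nil)) .nil))) .nil))) .nil))),
 (.br (nat_lit 9) (nat_lit 1) (.cons (.rf (nat_lit 4058) (nat_lit 493858305440582043680)) (.cons (.br (nat_lit 4) (nat_lit 1) (.cons (.br (nat_lit 8) (nat_lit 1) (.cons (.br (nat_lit 10) (nat_lit 1) (.cons (.ev (nat_lit 1208944266641277389439233) (nat_lit 1)) .nil)) (.cons (.br (nat_lit 10) (nat_lit 1) (.cons (.ev (nat_lit 79229376180897460645345165313) (nat_lit 1)) .nil)) .nil))) (.cons (.rf (nat_lit 4057) (nat_lit 493858305440582043680)) .nil))) .nil))),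
 (.br (nat_lit 11) (nat_lit 1) (.cons (.rf (nat_lit 3419) (nat_lit 493565395547242989600)) (.cons (.br (nat_lit 10) (nat_lit 1) (.cons (.br (nat_lit 9) (nat_lit 1) (.cons (.rf (nat_lit 4054) (nat_lit 493858305440582043680)) (.cons (.rf (nat_lit 4055) (nat_lit 493858305440582043680)) (.cons (.br (nat_lit 9) (nat_lit 1) (.cons (.rf (nat_lit 4054) (nat_lit 493858305440582043680)) (.cons (.rf (nat_lit 4055) (nat_lit 493858305440582043680)) .nil))) .nil)))) (.cons (.kr (nat_lit 1208925819615728686333952) (nat_lit 72339069014638592) (nat_lit 5) (nat_lit 0)) (.cons (.br (nat_lit 9) (nat_lit 1) (.cons (.rf (nat_lit 4056) (nat_lit 493858305440582043680)) (.cons (.br (nat_lit 9) (nat_lit 1) (.cons (.rf (nat_lit 4056) (nat_lit 493858305440582043680)) (.cons (.rf (nat_lit 3784) (nat_lit 457824828835778365472)) .nil))) (.cons (.rf (nat_lit 3784) (nat_lit 457824828835778365472)) .nil)))) .nil)))) (.cons (.br (nat_lit 9) (nat_lit 1) (.cons (.rf (nat_lit 4058) (nat_lit 493858305440582043680)) (.cons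 (.rf (nat_lit 4059) (nat_lit 493858305440582043680)) (.cons (.br (nat_lit 9) (nat_lit 1) (.cons (.rf (nat_lit 4058) (nat_lit 493858305440582043680)) (.cons (.rf (nat_lit 4059) (nat_lit 493858305440582043680)) .nil))) .nil)))) .nil)))),
 (.br (nat_lit 13) (nat_lit 0) (.cons (.br (nat_lit 2) (nat_lit 0) (.cons (.rf (nat_lit 3577) (nat_lit 493679289556564805664)) (.cons (.ev (nat_lit 310693954159762469453627393) (nat_lit 1)) .nil))) (.cons (.rf (nat_lit 3502) (nat_lit 15432932373720827936)) .nil))),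
 (.br (nat_lit 13) (nat_lit 0) (.cons (.br (nat_lit 9) (nat_lit 1) (.cons (.zr (nat_lit 20440865928680271160026911998464) (nat_lit 309485028268652100994465793) (nat_lit 5) (nat_lit 0)) (.cons (.rf (nat_lit 3577) (nat_lit 493679289556564805664)) .nil))) (.cons (.rf (nat_lit 3502) (nat_lit 15432932369430054944)) .nil))),
 (.br (nat_lit 9) (nat_lit 1) (.cons (.rf (nat_lit 2725) (nat_lit 493858092137473935392)) (.cons (.br (nat_lit 4) (nat_lit 1) (.cons (.br (nat_lit 13) (nat_lit 0) (.cons (.rf (nat_lit 3885) (nat_lit 457829406096241231904)) (.cons (.rf (nat_lit 2142) (nat_lit 493675700685180799008)) .nil))) (.cons (.br (nat_lit 2) (nat_lit 0) (.cons (.ev (nat_lit 79228162532783139265603174401) (nat_lit 1)) (.cons (.kr (nat_lit 79229376162450437291387126016) (nat_lit 72620548286447616) (nat_lit 1) (nat_lit 0)) .nil))) (.cons (.rf (nat_lit 3784) (nat_lit 457935134042368542752)) .nil)))) (.cons (.br (nat_lit 8) (nat_lit 1) (.cons (.br (nat_lit 4) (nat_lit 1) (.cons (.br (nat_lit 7) (nat_lit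 0) (.cons (.ev (nat_lit 20283030991596741296568486003460) (nat_lit 3)) .nil)) .nil)) (.cons (.br (nat_lit 2) (nat_lit 0) (.cons (.ev (nat_lit 309485028268370621706076161) (nat_lit 1)) (.cons (.ev (nat_lit 20282720297605758127718860390401) (nat_lit 1)) .nil))) .nil))) .nil)))),
 (.br (nat_lit 9) (nat_lit 1) (.cons (.rf (nat_lit 4063) (nat_lit 493858305440582043680)) (.cons (.rf (nat_lit 3577) (nat_lit 493677108125495298080)) (.cons (.br (nat_lit 4) (nat_lit 1) (.cons (.br (nat_lit 7) (nat_lit 0) (.cons (.br (nat_lit 2) (nat_lit 0) (.cons (.ev (nat_lit 79538856468424100058702545153) (nat_lit 1)) .nil)) (.cons (.br (nat_lit 8) (nat_lit 1) (.cons (.ev (nat_lit 1208944266641277389439233) (nat_lit 1)) .nil)) .nil))) (.cons (.br (nat_lit 7) (nat_lit 0) (.cons (.ev (nat_lit 309485028268370621706076161) (nat_lit 1)) (.cons (.rf (nat_lit 3917) (nat_lit 493857214725047289888)) .nil))) (.cons (.br (nat_lit 2) (nat_lit 0) (.cons (.ev (nat_lit 79228162532783139265603174401) (nat_lit 1)) (.cons (.rf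 (nat_lit 3917) (nat_lit 493857003618821048352)) .nil))) .nil)))) .nil)))),
 (.br (nat_lit 11) (nat_lit 1) (.cons (.rf (nat_lit 3419) (nat_lit 493565395547242989600)) (.cons (.br (nat_lit 7) (nat_lit 0) (.cons (.br (nat_lit 13) (nat_lit 0) (.cons (.rf (nat_lit 4061) (nat_lit 493858305440582043680)) (.cons (.br (nat_lit 13) (nat_lit 0) (.cons (.rf (nat_lit 4061) (nat_lit 493858305440582043680)) (.cons (.rf (nat_lit 3784) (nat_lit 457824828835778364480)) .nil))) (.cons (.br (nat_lit 13) (nat_lit 0) (.cons (.rf (nat_lit 3502) (nat_lit 15432932373720827936)) (.cons (.rf (nat_lit 3784) (nat_lit 457824828835778364480)) .nil))) .nil)))) (.cons (.br (nat_lit 13) (nat_lit 0) (.cons (.rf (nat_lit 4062) (nat_lit 493858305440582043680)) (.cons (.br (nat_lit 13) (nat_lit 0) (.cons (.rf (nat_lit 4062) (nat_lit 493858305440582043680)) (.cons (.rf (nat_lit 3784) (nat_lit 457824828835778364480)) .nil))) (.cons (.br (nat_lit 13) (nat_lit 0) (.cons (.rf (nat_lit 3502) (nat_lit 15432932369430054944)) (.cons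 (.rf (nat_lit 3784) (nat_lit 457824828835778364480)) .nil))) .nil)))) (.cons (.br (nat_lit 10) (nat_lit 1) (.cons (.br (nat_lit 4) (nat_lit 1) (.cons (.br (nat_lit 8) (nat_lit 1) (.cons (.ev (nat_lit 309485028268370621706076161) (nat_lit 1)) .nil)) (.cons (.br (nat_lit 9) (nat_lit 1) (.cons (.rf (nat_lit 3912) (nat_lit 493857214725047289888)) (.cons (.br (nat_lit 8) (nat_lit 1) (.cons (.ev (nat_lit 20837625711345167192573639590660) (nat_lit 3)) .nil)) .nil))) .nil))) (.cons (.br (nat_lit 8) (nat_lit 1) (.cons (.br (nat_lit 9) (nat_lit 1) (.cons (.br (nat_lit 13) (nat_lit 0) (.cons (.ev (nat_lit 1223130029007850283532290) (nat_lit 2)) .nil)) .nil)) (.cons (.br (nat_lit 13) (nat_lit 0) (.cons (.ev (nat_lit 1208944338416301233930241) (nat_lit 1)) (.cons (.rf (nat_lit 3990) (nat_lit 457824828835778364480)) .nil))) .nil))) (.cons (.br (nat_lit 9) (nat_lit 1) (.cons (.br (nat_lit 4) (nat_lit 1) (.cons (.rf (nat_lit 3979) (nat_lit 493858305440447826080)) (.cons (.br (nat_lit 2) (nat_lit 0)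 (.cons (.ev (nat_lit 1208944338416301233930241) (nat_lit 1)) .nil)) .nil))) (.cons (.rf (nat_lit 3912) (nat_lit 493857139958262892576)) (.cons (.rf (nat_lit 3784) (nat_lit 457824828835778364480)) .nil)))) .nil)))) (.cons (.kr (nat_lit 1208925819615728686333952) (nat_lit 72339069014638592) (nat_lit 5) (nat_lit 0)) .nil))))) (.cons (.br (nat_lit 9) (nat_lit 1) (.cons (.rf (nat_lit 4063) (nat_lit 493858305440582043680)) (.cons (.br (nat_lit 9) (nat_lit 1) (.cons (.rf (nat_lit 2725) (nat_lit 493858092137473935392)) (.cons (.rf (nat_lit 3577) (nat_lit 493677108125495298080)) (.cons (.rf (nat_lit 4025) (nat_lit 493678231827452626976)) .nil)))) (.cons (.rf (nat_lit 4064) (nat_lit 493858305440582043680)) (.cons (.br (nat_lit 9) (nat_lit 1) (.cons (.rf (nat_lit 4063) (nat_lit 493858305440582043680)) (.cons (.rf (nat_lit 4025) (nat_lit 493678231827452626976)) (.cons (.rf (nat_lit 4064) (nat_lit 493858305440582043680)) .nil)))) .nil))))) .nil)))),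
 (.br (nat_lit 13) (nat_lit 0) (.cons (.br (nat_lit 2) (nat_lit 0) (.cons (.ev (nat_lit 20440865938161898176876459982850) (nat_lit 2)) (.cons (.ev (nat_lit 20441487316625484733877154349060) (nat_lit 3)) .nil))) (.cons (.ev (nat_lit 20282409603670189507089992253441) (nat_lit 1)) .nil))),
 (.br (nat_lit 2) (nat_lit 0) (.cons (.rf (nat_lit 4066) (nat_lit 493858305440582043680)) (.cons (.br (nat_lit 9) (nat_lit 1) (.cons (.rf (nat_lit 3419) (nat_lit 493675700753833166880)) (.cons (.rf (nat_lit 3917) (nat_lit 493787197824596805664)) .nil))) .nil))),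
 (.br (nat_lit 9) (nat_lit 1) (.cons (.ev (nat_lit 309485028340147835983888641) (nat_lit 1)) (.cons (.br (nat_lit 2) (nat_lit 0) (.cons (.br (nat_lit 10) (nat_lit 1) (.cons (.ev (nat_lit 20520713070732843936054763652868) (nat_lit 3)) .nil)) (.cons (.br (nat_lit 1) (nat_lit 0) (.cons (.zr (nat_lit 79228162514408454980643192832) (nat_lit 310693954087985250880716801) (nat_lit 5) (nat_lit 0)) .nil)) .nil))) .nil))),
 (.br (nat_lit 11) (nat_lit 1) (.cons (.rf (nat_lit 4060) (nat_lit 493858305440582043680)) (.cons (.rf (nat_lit 4065) (nat_lit 493858305440582043680)) (.cons (.br (nat_lit 7) (nat_lit 0) (.cons (.br (nat_lit 2) (nat_lit 0) (.cons (.rf (nat_lit 4066) (nat_lit 493858305440582043680)) (.cons (.rf (nat_lit 4067) (nat_lit 493858305440582043680)) (.cons (.br (nat_lit 2) (nat_lit 0) (.cons (.rf (nat_lit 4066) (nat_lit 493858305440582043680)) (.cons (.rf (nat_lit 4067) (nat_lit 493858305440582043680)) .nil))) .nil)))) (.cons (.br (nat_lit 9) (nat_lit 1) (.cons (.ev (nat_lit 309485028340147835983888641)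 (nat_lit 1)) (.cons (.rf (nat_lit 4068) (nat_lit 493858305440582043680)) (.cons (.br (nat_lit 9) (nat_lit 1) (.cons (.ev (nat_lit 309485028340147835983888641) (nat_lit 1)) (.cons (.rf (nat_lit 4068) (nat_lit 493858305440582043680)) .nil))) .nil)))) (.cons (.br (nat_lit 8) (nat_lit 1) (.cons (.br (nat_lit 10) (nat_lit 1) (.cons (.br (nat_lit 13) (nat_lit 0) (.cons (.br (nat_lit 2) (nat_lit 0) (.cons (.ev (nat_lit 20997938955951287443474870636296) (nat_lit 4)) .nil)) (.cons (.rf (nat_lit 3922) (nat_lit 493857214725047289888)) .nil))) (.cons (.br (nat_lit 9) (nat_lit 1) (.cons (.br (nat_lit 2) (nat_lit 0) (.cons (.ev (nat_lit 79850764070769961122243215874) (nat_lit 2)) .nil)) .nil)) .nil))) (.cons (.br (nat_lit 13) (nat_lit 0) (.cons (.br (nat_lit 9) (nat_lit 1) (.cons (.rf (nat_lit 3784) (nat_lit 457935134042368542752)) (.cons (.rf (nat_lit 3784) (nat_lit 457935134042368541760)) .nil))) (.cons (.ev (nat_lit 20282719093402377335028362248193) (nat_lit 1)) (.cons (.br (nat_lit 2) (nat_lit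 0) (.cons (.br (nat_lit 1) (nat_lit 0) (.cons (.zr (nat_lit 618970019858862919597096960) (nat_lit 1227833732571660736790529) (nat_lit 5) (nat_lit 0)) .nil)) (.cons (.br (nat_lit 1) (nat_lit 0) (.cons (.ev (nat_lit 79228167255149904709736792065) (nat_lit 1)) .nil)) .nil))) .nil)))) (.cons (.br (nat_lit 9) (nat_lit 1) (.cons (.br (nat_lit 10) (nat_lit 1) (.cons (.br (nat_lit 2) (nat_lit 0) (.cons (.zr (nat_lit 216735732067401728) (nat_lit 310698676454186645565997057) (nat_lit 5) (nat_lit 0)) .nil)) .nil)) (.cons (.br (nat_lit 2) (nat_lit 0) (.cons (.ev (nat_lit 79228167255149623234743304193) (nat_lit 1)) (.cons (.br (nat_lit 4) (nat_lit 1) (.cons (.ev (nat_lit 20679788365780871181793245726468) (nat_lit 3)) .nil)) .nil))) .nil))) .nil)))) (.cons (.kr (nat_lit 1208925819615728686333952) (nat_lit 72339069014638592) (nat_lit 5) (nat_lit 0)) .nil))))) .nil))))]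

theorem c149 : chkAll C T R L149 (nat_lit 4049) = true := by decide +kernel

theorem l149 : (nat_lit 4049) + L149.length = (nat_lit 4070) := by decide +kernel

/-- part of the certificates -/
def L150 : List Prf := [(.br (nat_lit 6) (nat_lit 1) (.cons (.rf (nat_lit 3953) (nat_lit 493857210323783845920)) (.cons (.rf (nat_lit 3953) (nat_lit 493857210323783844928)) (.cons (.br (nat_lit 9) (nat_lit 1) (.cons (.rf (nat_lit 4045) (nat_lit 493858305440582043680)) (.cons (.rf (nat_lit 4051) (nat_lit 493858305440582043680)) (.cons (.rf (nat_lit 4053) (nat_lit 493858305440582043680)) (.cons (.br (nat_lit 9) (nat_lit 1) (.cons (.rf (nat_lit 4045) (nat_lit 493858305440582043680)) (.cons (.rf (nat_lit 4051) (nat_lit 493858305440582043680)) (.cons (.rf (nat_lit 4053) (nat_lit 493858305440582043680)) .nil)))) .nil))))) (.cons (.br (nat_lit 11) (nat_lit 1) (.cons (.rf (nat_lit 4060) (nat_lit 493858305440582043680)) (.cons (.rf (nat_lit 4065) (nat_lit 493858305440582043680)) (.cons (.rf (nat_lit 4069)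 (nat_lit 493858305440582043680)) (.cons (.br (nat_lit 11) (nat_lit 1) (.cons (.rf (nat_lit 4060) (nat_lit 493858305440582043680)) (.cons (.rf (nat_lit 4065) (nat_lit 493858305440582043680)) (.cons (.rf (nat_lit 4069) (nat_lit 493858305440582043680)) .nil)))) .nil))))) .nil))))),
 (.br (nat_lit 8) (nat_lit 1) (.cons (.kr (nat_lit 60926456973469275609435297809152) (nat_lit 9444805024432873603072) (nat_lit 1) (nat_lit 0)) .nil)),
 (.br (nat_lit 9) (nat_lit 1) (.cons (.rf (nat_lit 4042) (nat_lit 493675700753833165888)) (.cons (.br (nat_lit 13) (nat_lit 0) (.cons (.br (nat_lit 5) (nat_lit 0) (.cons (.zr (nat_lit 40802503694846133860675151200512) (nat_lit 309485046715114695415562241) (nat_lit 5) (nat_lit 4)) (.cons (.rf (nat_lit 4071) (nat_lit 493858305440582043680)) .nil))) (.cons (.br (nat_lit 10) (nat_lit 1) (.cons (.rf (nat_lit 4042) (nat_lit 457824828835778365472)) (.cons (.br (nat_lit 2) (nat_lit 0) (.cons (.ev (nat_lit 317532885671424958872572267016) (nat_lit 4)) .nil)) .nil))) (.cons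 (.rf (nat_lit 3784) (nat_lit 457824828835778365472)) .nil)))) .nil))),
 (.br (nat_lit 9) (nat_lit 1) (.cons (.rf (nat_lit 4042) (nat_lit 493675700753833165888)) (.cons (.br (nat_lit 10) (nat_lit 1) (.cons (.br (nat_lit 8) (nat_lit 1) (.cons (.ev (nat_lit 79860454348418692701690596104) (nat_lit 4)) (.cons (.rf (nat_lit 4042) (nat_lit 457824828835778365472)) .nil))) (.cons (.rf (nat_lit 3784) (nat_lit 457824828835778365472)) .nil))) .nil))),
 (.br (nat_lit 5) (nat_lit 0) (.cons (.br (nat_lit 2) (nat_lit 0) (.cons (.rf (nat_lit 4042) (nat_lit 493675700753833165888)) (.cons (.br (nat_lit 7) (nat_lit 0) (.cons (.ev (nat_lit 21155778785369819904794809796872) (nat_lit 4)) .nil)) .nil))) (.cons (.br (nat_lit 2) (nat_lit 0) (.cons (.br (nat_lit 7) (nat_lit 0) (.cons (.ev (nat_lit 79541279060949176804431627010) (nat_lit 2)) .nil)) .nil)) .nil))),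
 (.br (nat_lit 9) (nat_lit 1) (.cons (.rf (nat_lit 4042) (nat_lit 493675700753833165888)) (.cons (.rf (nat_lit 3784) (nat_lit 457935134042368541760)) .nil))),
 (.br (nat_lit 4) (nat_lit 1) (.cons (.ev (nat_lit 72057598349672449) (nat_lit 1)) (.cons (.ev (nat_lit 20441175418412459547620995498242) (nat_lit 2)) .nil))),
 (.br (nat_lit 11) (nat_lit 1) (.cons (.rf (nat_lit 3419) (nat_lit 493565395547242989600)) (.cons (.rf (nat_lit 3953) (nat_lit 493670240576948504608)) (.cons (.br (nat_lit 9) (nat_lit 1) (.cons (.rf (nat_lit 4072) (nat_lit 493858305440582043680)) (.cons (.rf (nat_lit 4073) (nat_lit 493858305440582043680)) (.cons (.br (nat_lit 9) (nat_lit 1) (.cons (.rf (nat_lit 4072) (nat_lit 493858305440582043680)) (.cons (.rf (nat_lit 4073) (nat_lit 493858305440582043680)) .nil))) .nil)))) (.cons (.br (nat_lit 13) (nat_lit 0) (.cons (.br (nat_lit 2) (nat_lit 0) (.cons (.rf (nat_lit 4074) (nat_lit 493858305440582043680)) (.cons (.rf (nat_lit 4075) (nat_lit 493858305440582043680)) (.cons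 (.br (nat_lit 2) (nat_lit 0) (.cons (.rf (nat_lit 4074) (nat_lit 493858305440582043680)) (.cons (.rf (nat_lit 4075) (nat_lit 493858305440582043680)) .nil))) .nil)))) (.cons (.ev (nat_lit 20282409603651670705422227996929) (nat_lit 1)) (.cons (.br (nat_lit 8) (nat_lit 1) (.cons (.br (nat_lit 7) (nat_lit 0) (.cons (.br (nat_lit 2) (nat_lit 0) (.cons (.br (nat_lit 10) (nat_lit 1) (.cons (.ev (nat_lit 20678560144335777624320904203016) (nat_lit 4)) .nil)) (.cons (.ev (nat_lit 1208925891672223229477121) (nat_lit 1)) .nil))) (.cons (.br (nat_lit 4) (nat_lit 1) (.cons (.ev (nat_lit 72057598349672449) (nat_lit 1)) (.cons (.ev (nat_lit 20361637770906820046082499674113) (nat_lit 1)) .nil))) (.cons (.br (nat_lit 9) (nat_lit 1) (.cons (.br (nat_lit 5) (nat_lit 0) (.cons (.zr (nat_lit 1208925963732016273948672) (nat_lit 79537647542532708215249960961) (nat_lit 5) (nat_lit 0)) .nil)) (.cons (.ev (nat_lit 1213666632842672057876481) (nat_lit 1)) .nil))) .nil)))) (.cons (.br (nat_lit 9) (nat_lit 1) (.cons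 (.br (nat_lit 4) (nat_lit 1) (.cons (.br (nat_lit 10) (nat_lit 1) (.cons (.zr (nat_lit 1208925963732016273948672) (nat_lit 79537647542532708215249960961) (nat_lit 5) (nat_lit 0)) .nil)) (.cons (.br (nat_lit 10) (nat_lit 1) (.cons (.zr (nat_lit 237684496987525978519939055872) (nat_lit 311902861460855806345871361) (nat_lit 5) (nat_lit 4)) .nil)) .nil))) (.cons (.kr (nat_lit 4740813226943354765312) (nat_lit 20361637766165934761540795236352) (nat_lit 8) (nat_lit 0)) .nil))) (.cons (.br (nat_lit 9) (nat_lit 1) (.cons (.br (nat_lit 10) (nat_lit 1) (.cons (.br (nat_lit 5) (nat_lit 0) (.cons (.ev (nat_lit 79230585143682623215050555650) (nat_lit 2)) .nil)) (.cons (.br (nat_lit 4) (nat_lit 1) (.cons (.ev (nat_lit 79230580366048527577346277890) (nat_lit 2)) .nil)) .nil))) (.cons (.kr (nat_lit 4740813226943354765312) (nat_lit 20361637766165934761540795236352) (nat_lit 8) (nat_lit 0)) .nil))) .nil)))) (.cons (.br (nat_lit 9) (nat_lit 1) (.cons (.br (nat_lit 9) (nat_lit 1) (.cons (.rf (nat_lit 4042)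 (nat_lit 493675700753833165888)) (.cons (.rf (nat_lit 4076) (nat_lit 493858305440582043680)) .nil))) (.cons (.br (nat_lit 9) (nat_lit 1) (.cons (.rf (nat_lit 4042) (nat_lit 493675700753833165888)) (.cons (.ev (nat_lit 20282719093383858251885638058241) (nat_lit 1)) .nil))) (.cons (.br (nat_lit 9) (nat_lit 1) (.cons (.rf (nat_lit 4076) (nat_lit 493858305440582043680)) (.cons (.ev (nat_lit 20282719093383858251885638058241) (nat_lit 1)) .nil))) .nil)))) .nil))))) .nil))))),
 (.br (nat_lit 9) (nat_lit 1) (.cons (.rf (nat_lit 3419) (nat_lit 493675700753833166880)) (.cons (.rf (nat_lit 4042) (nat_lit 493675700753833166880)) (.cons (.br (nat_lit 13) (nat_lit 0) (.cons (.br (nat_lit 5) (nat_lit 0) (.cons (.br (nat_lit 10) (nat_lit 1) (.cons (.ev (nat_lit 21946222815375031830466105646864) (nat_lit 5)) .nil)) (.cons (.br (nat_lit 8) (nat_lit 1) (.cons (.ev (nat_lit 620188427161663970870427650) (nat_lit 2)) .nil)) .nil))) (.cons (.ev (nat_lit 20282409603651670705422227996929) (nat_lit 1)) (.cons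 (.rf (nat_lit 3784) (nat_lit 457824828835778364480)) .nil)))) .nil)))),
 (.br (nat_lit 9) (nat_lit 1) (.cons (.rf (nat_lit 3419) (nat_lit 493675700753833166880)) (.cons (.rf (nat_lit 3990) (nat_lit 493675700753833165888)) (.cons (.br (nat_lit 10) (nat_lit 1) (.cons (.br (nat_lit 8) (nat_lit 1) (.cons (.br (nat_lit 13) (nat_lit 0) (.cons (.ev (nat_lit 21787773847831095280604481657104) (nat_lit 5)) .nil)) (.cons (.rf (nat_lit 4042) (nat_lit 457824828835778364480)) .nil))) (.cons (.br (nat_lit 4) (nat_lit 1) (.cons (.ev (nat_lit 158765814760789124773272683266) (nat_lit 2)) (.cons (.ev (nat_lit 40723895730167015342791018807300) (nat_lit 3)) .nil))) (.cons (.rf (nat_lit 3784) (nat_lit 457824828835778364480)) .nil)))) .nil)))),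
 (.br (nat_lit 9) (nat_lit 1) (.cons (.rf (nat_lit 4042) (nat_lit 493675700753833166880)) (.cons (.rf (nat_lit 3990) (nat_lit 493675700753833165888)) (.cons (.br (nat_lit 13) (nat_lit 0) (.cons (.ev (nat_lit 79537652246452448110714028033) (nat_lit 1)) (.cons (.br (nat_lit 10) (nat_lit 1) (.cons (.rf (nat_lit 4042) (nat_lit 457824828835778364480)) (.cons (.rf (nat_lit 3990) (nat_lit 457824828835778364480)) .nil))) (.cons (.rf (nat_lit 3784) (nat_lit 457824828835778364480)) .nil)))) .nil)))),
 (.br (nat_lit 11) (nat_lit 1) (.cons (.rf (nat_lit 3419) (nat_lit 493565395547242989600)) (.cons (.rf (nat_lit 3953) (nat_lit 493670240576948503616)) (.cons (.br (nat_lit 9) (nat_lit 1) (.cons (.rf (nat_lit 4078) (nat_lit 493858305440582043680)) (.cons (.rf (nat_lit 4079) (nat_lit 493858305440582043680)) (.cons (.rf (nat_lit 4080) (nat_lit 493858305440582043680)) (.cons (.br (nat_lit 9) (nat_lit 1) (.cons (.rf (nat_lit 4078) (nat_lit 493858305440582043680)) (.cons (.rf (nat_lit 4079) (nat_lit 493858305440582043680))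 (.cons (.rf (nat_lit 4080) (nat_lit 493858305440582043680)) .nil)))) .nil))))) (.cons (.br (nat_lit 5) (nat_lit 0) (.cons (.br (nat_lit 13) (nat_lit 0) (.cons (.br (nat_lit 2) (nat_lit 0) (.cons (.br (nat_lit 1) (nat_lit 0) (.cons (.ev (nat_lit 20361947255898122589483477041153) (nat_lit 1)) (.cons (.br (nat_lit 9) (nat_lit 1) (.cons (.ev (nat_lit 79849555163397651317674672130) (nat_lit 2)) .nil)) .nil))) (.cons (.br (nat_lit 1) (nat_lit 0) (.cons (.br (nat_lit 9) (nat_lit 1) (.cons (.ev (nat_lit 79537652246525067559472071426) (nat_lit 2)) .nil)) .nil)) .nil))) (.cons (.br (nat_lit 2) (nat_lit 0) (.cons (.br (nat_lit 7) (nat_lit 0) (.cons (.ev (nat_lit 20361637770906820046082499674113) (nat_lit 1)) (.cons (.br (nat_lit 9) (nat_lit 1) (.cons (.ev (nat_lit 20679171804168277746644901102340) (nat_lit 3)) .nil)) .nil))) (.cons (.br (nat_lit 10) (nat_lit 1) (.cons (.zr (nat_lit 158456329750895159156278362112) (nat_lit 20282410812577490320055697670401) (nat_lit 5) (nat_lit 4)) (.cons (.br (nat_lit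 1) (nat_lit 0) (.cons (.ev (nat_lit 20680414579837342843933038936836) (nat_lit 3)) .nil)) .nil))) (.cons (.br (nat_lit 7) (nat_lit 0) (.cons (.ev (nat_lit 20282720297605758127718860390401) (nat_lit 1)) (.cons (.br (nat_lit 1) (nat_lit 0) (.cons (.ev (nat_lit 20838249545328644377330206180100) (nat_lit 3)) .nil)) .nil))) .nil)))) (.cons (.br (nat_lit 1) (nat_lit 0) (.cons (.br (nat_lit 7) (nat_lit 0) (.cons (.br (nat_lit 2) (nat_lit 0) (.cons (.ev (nat_lit 310698658079782736071032833) (nat_lit 1)) .nil)) .nil)) (.cons (.br (nat_lit 2) (nat_lit 0) (.cons (.br (nat_lit 7) (nat_lit 0) (.cons (.zr (nat_lit 238303457562651875700228947968) (nat_lit 1227889072803881865445377) (nat_lit 5) (nat_lit 0)) .nil)) (.cons (.kr (nat_lit 20282409608374036906816896499968) (nat_lit 309485009821345068741623808) (nat_lit 1) (nat_lit 0)) .nil))) .nil))) .nil)))) (.cons (.br (nat_lit 2) (nat_lit 0) (.cons (.ev (nat_lit 309485028268370621706076161) (nat_lit 1)) (.cons (.br (nat_lit 9) (nat_lit 1) (.cons (.rf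 (nat_lit 3419) (nat_lit 493675700753833166880)) (.cons (.br (nat_lit 4) (nat_lit 1) (.cons (.ev (nat_lit 79228167255149622135231676673) (nat_lit 1)) (.cons (.ev (nat_lit 20361947255898122870958436974593) (nat_lit 1)) .nil))) (.cons (.br (nat_lit 4) (nat_lit 1) (.cons (.br (nat_lit 10) (nat_lit 1) (.cons (.zr (nat_lit 79228162514408454980643192832) (nat_lit 310693954087985250880716801) (nat_lit 5) (nat_lit 0)) .nil)) (.cons (.br (nat_lit 1) (nat_lit 0) (.cons (.zr (nat_lit 79537647524229800049367973888) (nat_lit 1218388999605921446363137) (nat_lit 5) (nat_lit 0)) .nil)) .nil))) .nil)))) (.cons (.br (nat_lit 7) (nat_lit 0) (.cons (.br (nat_lit 9) (nat_lit 1) (.cons (.ev (nat_lit 72340172821233921) (nat_lit 1)) (.cons (.ev (nat_lit 20361637766165935043020066979841) (nat_lit 1)) .nil))) (.cons (.br (nat_lit 9) (nat_lit 1) (.cons (.ev (nat_lit 79540079579934865884016935170) (nat_lit 2)) (.cons (.kr (nat_lit 4740813226943354765312) (nat_lit 20361637766165934761540795236352) (nat_lit 8) (nat_lit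 0)) .nil))) .nil))) .nil)))) (.cons (.br (nat_lit 9) (nat_lit 1) (.cons (.rf (nat_lit 4042) (nat_lit 493675700753833166880)) (.cons (.rf (nat_lit 3990) (nat_lit 493675700753833165888)) (.cons (.br (nat_lit 13) (nat_lit 0) (.cons (.ev (nat_lit 79537652246452448110714028033) (nat_lit 1)) (.cons (.rf (nat_lit 2874) (nat_lit 493670240576948504608)) (.cons (.rf (nat_lit 2873) (nat_lit 493670240576948504608)) .nil)))) (.cons (.br (nat_lit 7) (nat_lit 0) (.cons (.ev (nat_lit 79537652246452448110714028033) (nat_lit 1)) (.cons (.kr (nat_lit 4740813226943354765312) (nat_lit 20361637766165934761540795236352) (nat_lit 8) (nat_lit 0)) (.cons (.br (nat_lit 2) (nat_lit 0) (.cons (.rf (nat_lit 3706) (nat_lit 493856051446040070176)) (.cons (.ev (nat_lit 1213666632842672057876481) (nat_lit 1)) .nil))) .nil)))) .nil))))) (.cons (.br (nat_lit 2) (nat_lit 0) (.cons (.ev (nat_lit 79229371440083952222718722049) (nat_lit 1)) (.cons (.br (nat_lit 7) (nat_lit 0) (.cons (.br (nat_lit 13) (nat_lit 0) (.cons (.br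 (nat_lit 9) (nat_lit 1) (.cons (.ev (nat_lit 20679171804168277746644901102340) (nat_lit 3)) .nil)) .nil)) (.cons (.br (nat_lit 13) (nat_lit 0) (.cons (.br (nat_lit 9) (nat_lit 1) (.cons (.zr (nat_lit 238303457562651875700228947968) (nat_lit 1227889072803881865445377) (nat_lit 5) (nat_lit 0)) .nil)) (.cons (.ev (nat_lit 20282720302309750205583827402753) (nat_lit 1)) .nil))) .nil))) (.cons (.br (nat_lit 9) (nat_lit 1) (.cons (.rf (nat_lit 3419) (nat_lit 493675700753833166880)) (.cons (.br (nat_lit 4) (nat_lit 1) (.cons (.br (nat_lit 13) (nat_lit 0) (.cons (.zr (nat_lit 9481626457185244610560) (nat_lit 1239148965105276383362285569) (nat_lit 5) (nat_lit 0)) .nil)) (.cons (.ev (nat_lit 20361947255898122870958436974593) (nat_lit 1)) .nil))) (.cons (.br (nat_lit 8) (nat_lit 1) (.cons (.br (nat_lit 7) (nat_lit 0) (.cons (.ev (nat_lit 20680414579837342843933038936836) (nat_lit 3)) .nil)) (.cons (.kr (nat_lit 9500073199059930775552) (nat_lit 80156617543872487987810926592) (nat_lit 2) (nat_lit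 0)) .nil))) .nil)))) .nil)))) .nil))))) .nil))))),
 (.br (nat_lit 9) (nat_lit 1) (.cons (.rf (nat_lit 3419) (nat_lit 493675700753833166880)) (.cons (.br (nat_lit 13) (nat_lit 0) (.cons (.br (nat_lit 8) (nat_lit 1) (.cons (.br (nat_lit 2) (nat_lit 0) (.cons (.ev (nat_lit 79229376180897179170385231873) (nat_lit 1)) .nil)) .nil)) (.cons (.ev (nat_lit 20282409603651670705422227996929) (nat_lit 1)) (.cons (.ev (nat_lit 20282719093383858251885638058241) (nat_lit 1)) .nil)))) .nil))),
 (.br (nat_lit 9) (nat_lit 1) (.cons (.rf (nat_lit 3419) (nat_lit 493675700753833166880)) (.cons (.br (nat_lit 10) (nat_lit 1) (.cons (.br (nat_lit 2) (nat_lit 0) (.cons (.br (nat_lit 13) (nat_lit 0) (.cons (.ev (nat_lit 20680414636505885325328606367496) (nat_lit 4)) .nil)) (.cons (.br (nat_lit 4) (nat_lit 1) (.cons (.ev (nat_lit 20680409763023387899344141222664) (nat_lit 4)) .nil)) .nil))) (.cons (.br (nat_lit 4) (nat_lit 1) (.cons (.br (nat_lit 13) (nat_lit 0) (.cons (.ev (nat_lit 79847137274792875222634594562)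 (nat_lit 2)) .nil)) (.cons (.br (nat_lit 8) (nat_lit 1) (.cons (.ev (nat_lit 20845672406900144219105492800784) (nat_lit 5)) .nil)) .nil))) (.cons (.br (nat_lit 4) (nat_lit 1) (.cons (.br (nat_lit 2) (nat_lit 0) (.cons (.ev (nat_lit 309494509894825607927169282) (nat_lit 2)) .nil)) (.cons (.zr (nat_lit 237684496987525979619450683392) (nat_lit 311902861460855806345871361) (nat_lit 5) (nat_lit 4)) .nil))) .nil)))) .nil))),
 (.br (nat_lit 7) (nat_lit 0) (.cons (.br (nat_lit 1) (nat_lit 0) (.cons (.br (nat_lit 2) (nat_lit 0) (.cons (.rf (nat_lit 3419) (nat_lit 493675700753833166880)) (.cons (.ev (nat_lit 79229371440156292395539890433) (nat_lit 1)) .nil))) (.cons (.zr (nat_lit 79537647560979170809687835136) (nat_lit 1208925891953702484312065) (nat_lit 5) (nat_lit 10)) .nil))) (.cons (.ev (nat_lit 72057598349672449) (nat_lit 1)) (.cons (.br (nat_lit 2) (nat_lit 0) (.cons (.br (nat_lit 13) (nat_lit 0) (.cons (.br (nat_lit 9) (nat_lit 1) (.cons (.ev (nat_lit 20679171804168277746644901102340) (nat_lit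 3)) .nil)) .nil)) (.cons (.br (nat_lit 1) (nat_lit 0) (.cons (.br (nat_lit 9) (nat_lit 1) (.cons (.ev (nat_lit 20679176658687236286245249681156) (nat_lit 3)) .nil)) (.cons (.ev (nat_lit 79538861172343838858949951745) (nat_lit 1)) .nil))) .nil))) .nil)))),
 (.br (nat_lit 2) (nat_lit 0) (.cons (.rf (nat_lit 4084) (nat_lit 493858305440582043680)) (.cons (.br (nat_lit 1) (nat_lit 0) (.cons (.br (nat_lit 7) (nat_lit 0) (.cons (.zr (nat_lit 79228162514408453881131500032) (nat_lit 4740813508426921410561) (nat_lit 5) (nat_lit 0)) (.cons (.zr (nat_lit 79228162514408454980643192832) (nat_lit 310693954087985250880716801) (nat_lit 5) (nat_lit 0)) .nil))) (.cons (.rf (nat_lit 3419) (nat_lit 493675700753833166880)) (.cons (.br (nat_lit 7) (nat_lit 0) (.cons (.ev (nat_lit 79847132570800518081764459266) (nat_lit 2)) (.cons (.br (nat_lit 13) (nat_lit 0) (.cons (.ev (nat_lit 20679793220300117388802579694344) (nat_lit 4)) .nil)) .nil))) .nil)))) (.cons (.br (nat_lit 7) (nat_lit 0) (.cons (.br (nat_lit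 9) (nat_lit 1) (.cons (.kr (nat_lit 79228162514264337593543950592) (nat_lit 4295032832) (nat_lit 1) (nat_lit 0)) (.cons (.ev (nat_lit 20441487316625484733877154349060) (nat_lit 3)) .nil))) (.cons (.br (nat_lit 9) (nat_lit 1) (.cons (.ev (nat_lit 1213666632841572546248961) (nat_lit 1)) (.cons (.ev (nat_lit 20282720302309750205583827402753) (nat_lit 1)) .nil))) .nil))) .nil)))),
 (.br (nat_lit 2) (nat_lit 0) (.cons (.rf (nat_lit 4084) (nat_lit 493858305440582043680)) (.cons (.rf (nat_lit 4085) (nat_lit 493858305440582043680)) (.cons (.br (nat_lit 9) (nat_lit 1) (.cons (.rf (nat_lit 3419) (nat_lit 493675700753833166880)) (.cons (.br (nat_lit 4) (nat_lit 1) (.cons (.br (nat_lit 8) (nat_lit 1) (.cons (.ev (nat_lit 310693954159761369941999873) (nat_lit 1)) .nil)) (.cons (.rf (nat_lit 3784) (nat_lit 457935134042368541760)) .nil))) (.cons (.br (nat_lit 8) (nat_lit 1) (.cons (.rf (nat_lit 3745) (nat_lit 493858303243706271776)) (.cons (.kr (nat_lit 61005685135983539948128353452032) (nat_lit 928459751974633263912189952)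 (nat_lit 2) (nat_lit 0)) .nil))) .nil)))) .nil))))]

theorem c150 : chkAll C T R L150 (nat_lit 4070) = true := by decide +kernel

theorem l150 : (nat_lit 4070) + L150.length = (nat_lit 4087) := by decide +kernel

/-- part of the certificates -/
def L151 : List Prf := [(.br (nat_lit 11) (nat_lit 1) (.cons (.rf (nat_lit 3953) (nat_lit 493670240576948504608)) (.cons (.rf (nat_lit 3953) (nat_lit 493670240576948503616)) (.cons (.br (nat_lit 9) (nat_lit 1) (.cons (.rf (nat_lit 4082) (nat_lit 493858305440582043680)) (.cons (.rf (nat_lit 4083) (nat_lit 493858305440582043680)) (.cons (.br (nat_lit 9) (nat_lit 1) (.cons (.rf (nat_lit 4082) (nat_lit 493858305440582043680)) (.cons (.rf (nat_lit 4083) (nat_lit 493858305440582043680)) .nil))) .nil)))) (.cons (.br (nat_lit 2) (nat_lit 0) (.cons (.rf (nat_lit 4084) (nat_lit 493858305440582043680)) (.cons (.rf (nat_lit 4085) (nat_lit 493858305440582043680)) (.cons (.rf (nat_lit 4086) (nat_lit 493858305440582043680)) (.cons (.br (nat_lit 2) (nat_lit 0)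 (.cons (.rf (nat_lit 4084) (nat_lit 493858305440582043680)) (.cons (.rf (nat_lit 4085) (nat_lit 493858305440582043680)) (.cons (.rf (nat_lit 4086) (nat_lit 493858305440582043680)) .nil)))) .nil))))) .nil))))),
 (.br (nat_lit 4) (nat_lit 1) (.cons (.ev (nat_lit 79847141978640841206650700290) (nat_lit 2)) (.cons (.br (nat_lit 8) (nat_lit 1) (.cons (.ev (nat_lit 20520720343213975808939230432520) (nat_lit 4)) .nil)) .nil))),
 (.br (nat_lit 9) (nat_lit 1) (.cons (.rf (nat_lit 3419) (nat_lit 493675700753833166880)) (.cons (.br (nat_lit 10) (nat_lit 1) (.cons (.rf (nat_lit 4088) (nat_lit 493858305440582043680)) (.cons (.br (nat_lit 2) (nat_lit 0) (.cons (.ev (nat_lit 20441175418412459547620995498242) (nat_lit 2)) (.cons (.rf (nat_lit 4088) (nat_lit 493675700753833166880)) .nil))) .nil))) (.cons (.br (nat_lit 8) (nat_lit 1) (.cons (.br (nat_lit 2) (nat_lit 0) (.cons (.br (nat_lit 10) (nat_lit 1) (.cons (.ev (nat_lit 20363494676298722997248176097028) (nat_lit 3)) .nil)) (.cons (.br (nat_lit 4)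 (nat_lit 1) (.cons (.ev (nat_lit 20680414579837055735041567950596) (nat_lit 3)) .nil)) .nil))) (.cons (.br (nat_lit 10) (nat_lit 1) (.cons (.br (nat_lit 4) (nat_lit 1) (.cons (.ev (nat_lit 79229371440156292395539890433) (nat_lit 1)) .nil)) .nil)) .nil))) .nil)))),
 (.br (nat_lit 8) (nat_lit 1) (.cons (.ev (nat_lit 79228167255149904709736792065) (nat_lit 1)) (.cons (.br (nat_lit 10) (nat_lit 1) (.cons (.ev (nat_lit 21952424604608288339548097552144) (nat_lit 5)) .nil)) .nil))),
 (.br (nat_lit 9) (nat_lit 1) (.cons (.rf (nat_lit 3419) (nat_lit 493675700753833166880)) (.cons (.br (nat_lit 4) (nat_lit 1) (.cons (.rf (nat_lit 4090) (nat_lit 493858305440582043680)) (.cons (.rf (nat_lit 4090) (nat_lit 493675700753833165888)) (.cons (.ev (nat_lit 79537652246452448110714028033) (nat_lit 1)) .nil)))) (.cons (.br (nat_lit 10) (nat_lit 1) (.cons (.br (nat_lit 8) (nat_lit 1) (.cons (.br (nat_lit 5) (nat_lit 0) (.cons (.ev (nat_lit 79228167292187789520191750146) (nat_lit 2)) .nil)) (.cons (.br (nat_lit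 2) (nat_lit 0) (.cons (.zr (nat_lit 4796298418777506316544) (nat_lit 158768227889989252821286912002) (nat_lit 10) (nat_lit 6)) .nil)) .nil))) (.cons (.br (nat_lit 4) (nat_lit 1) (.cons (.br (nat_lit 5) (nat_lit 0) (.cons (.zr (nat_lit 79228162514408454980643192832) (nat_lit 310693954087985250880716801) (nat_lit 5) (nat_lit 0)) .nil)) (.cons (.br (nat_lit 8) (nat_lit 1) (.cons (.ev (nat_lit 20680414579837055735041567950596) (nat_lit 3)) .nil)) .nil))) (.cons (.br (nat_lit 2) (nat_lit 0) (.cons (.ev (nat_lit 79847141978640839007627444226) (nat_lit 2)) (.cons (.br (nat_lit 1) (nat_lit 0) (.cons (.zr (nat_lit 79228162514408454980643192832) (nat_lit 310693954087985250880716801) (nat_lit 5) (nat_lit 0)) .nil)) .nil))) .nil)))) .nil)))),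
 (.br (nat_lit 9) (nat_lit 1) (.cons (.rf (nat_lit 4089) (nat_lit 493858305440582043680)) (.cons (.rf (nat_lit 4091) (nat_lit 493858305440582043680)) (.cons (.br (nat_lit 2) (nat_lit 0) (.cons (.ev (nat_lit 79537652246452448110714028033) (nat_lit 1)) (.cons (.br (nat_lit 2) (nat_lit 0) (.cons (.ev (nat_lit 79537652246452448110714028033) (nat_lit 1)) (.cons (.ev (nat_lit 20361638975091754377269498347521) (nat_lit 1)) .nil))) (.cons (.ev (nat_lit 20361638975091754377269498347521) (nat_lit 1)) .nil)))) .nil)))),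
 (.br (nat_lit 11) (nat_lit 1) (.cons (.rf (nat_lit 4077) (nat_lit 493858305440582043680)) (.cons (.rf (nat_lit 4081) (nat_lit 493858305440582043680)) (.cons (.rf (nat_lit 4087) (nat_lit 493858305440582043680)) (.cons (.br (nat_lit 9) (nat_lit 1) (.cons (.rf (nat_lit 4089) (nat_lit 493858305440582043680)) (.cons (.rf (nat_lit 4091) (nat_lit 493858305440582043680)) (.cons (.rf (nat_lit 4092) (nat_lit 493858305440582043680)) (.cons (.br (nat_lit 9) (nat_lit 1) (.cons (.rf (nat_lit 4089) (nat_lit 493858305440582043680)) (.cons (.rf (nat_lit 4091) (nat_lit 493858305440582043680)) (.cons (.rf (nat_lit 4092) (nat_lit 493858305440582043680)) .nil)))) .nil))))) .nil))))),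
 (.br (nat_lit 6) (nat_lit 1) (.cons (.rf (nat_lit 3990) (nat_lit 493858305440582043680)) (.cons (.rf (nat_lit 4042) (nat_lit 493858305440582043680)) (.cons (.rf (nat_lit 4070) (nat_lit 493858305440582043680)) (.cons (.br (nat_lit 11) (nat_lit 1) (.cons (.rf (nat_lit 4077) (nat_lit 493858305440582043680)) (.cons (.rf (nat_lit 4081) (nat_lit 493858305440582043680)) (.cons (.rf (nat_lit 4087) (nat_lit 493858305440582043680)) (.cons (.rf (nat_lit 4093) (nat_lit 493858305440582043680)) (.cons (.br (nat_lit 11) (nat_lit 1) (.cons (.rf (nat_lit 4077) (nat_lit 493858305440582043680)) (.cons (.rf (nat_lit 4081) (nat_lit 493858305440582043680)) (.cons (.rf (nat_lit 4087) (nat_lit 493858305440582043680)) (.cons (.rf (nat_lit 4093) (nat_lit 493858305440582043680)) .nil))))) .nil)))))) .nil))))),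
 (.br (nat_lit 6) (nat_lit 1) (.cons (.rf (nat_lit 3990) (nat_lit 493858305440582043680)) (.cons (.rf (nat_lit 4042) (nat_lit 493858305440582043680)) (.cons (.rf (nat_lit 4070) (nat_lit 493858305440582043680)) (.cons (.rf (nat_lit 4094) (nat_lit 493858305440582043680)) (.cons (.br (nat_lit 6) (nat_lit 1) (.cons (.rf (nat_lit 3990) (nat_lit 493858305440582043680)) (.cons (.rf (nat_lit 4042) (nat_lit 493858305440582043680)) (.cons (.rf (nat_lit 4070) (nat_lit 493858305440582043680)) (.cons (.rf (nat_lit 4094) (nat_lit 493858305440582043680)) .nil))))) .nil)))))),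
 (.br (nat_lit 10) (nat_lit 1) (.cons (.zr (nat_lit 14167172350627903766528) (nat_lit 79230580365903566851926917377) (nat_lit 5) (nat_lit 9)) (.cons (.br (nat_lit 11) (nat_lit 1) (.cons (.br (nat_lit 8) (nat_lit 1) (.cons (.br (nat_lit 4) (nat_lit 1) (.cons (.ev (nat_lit 20837011595955307626082097760004) (nat_lit 3)) .nil)) .nil)) (.cons (.br (nat_lit 13) (nat_lit 0) (.cons (.rf (nat_lit 3784) (nat_lit 457935134042368541760)) (.cons (.br (nat_lit 4) (nat_lit 1) (.cons (.ev (nat_lit 79228167255149623234743304193) (nat_lit 1)) .nil)) .nil))) .nil))) .nil))),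
 (.br (nat_lit 10) (nat_lit 1) (.cons (.rf (nat_lit 3421) (nat_lit 493678164756169590816)) (.cons (.br (nat_lit 4) (nat_lit 1) (.cons (.br (nat_lit 11) (nat_lit 1) (.cons (.ev (nat_lit 79229376162522492686418641153) (nat_lit 1)) (.cons (.ev (nat_lit 20282410812577490320051419545601) (nat_lit 1)) .nil))) (.cons (.ev (nat_lit 79229371440156010916268212481) (nat_lit 1)) (.cons (.ev (nat_lit 20282410817299856804020559544321) (nat_lit 1)) .nil)))) .nil))),
 (.br (nat_lit 9) (nat_lit 1) (.cons (.br (nat_lit 10) (nat_lit 1) (.cons (.rf (nat_lit 3421) (nat_lit 493677074040634837024)) (.cons (.rf (nat_lit 4096) (nat_lit 493858305440582043680)) (.cons (.br (nat_lit 10) (nat_lit 1) (.cons (.rf (nat_lit 3421) (nat_lit 493677074040634837024)) (.cons (.rf (nat_lit 4096) (nat_lit 493858305440582043680)) .nil))) .nil)))) (.cons (.br (nat_lit 10) (nat_lit 1) (.cons (.rf (nat_lit 3425) (nat_lit 493677074040634837024)) (.cons (.rf (nat_lit 4097) (nat_lit 493858305440582043680)) (.cons (.br (nat_lit 10)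 (nat_lit 1) (.cons (.rf (nat_lit 3425) (nat_lit 493678164756169590816)) (.cons (.rf (nat_lit 4097) (nat_lit 493858305440582043680)) .nil))) .nil)))) .nil))),
 (.br (nat_lit 10) (nat_lit 1) (.cons (.rf (nat_lit 4098) (nat_lit 493857210323783845920)) (.cons (.br (nat_lit 9) (nat_lit 1) (.cons (.rf (nat_lit 4098) (nat_lit 493858305440582043680)) (.cons (.br (nat_lit 11) (nat_lit 1) (.cons (.br (nat_lit 4) (nat_lit 1) (.cons (.ev (nat_lit 309485009893402662779552001) (nat_lit 1)) (.cons (.ev (nat_lit 20361947251175756389184008355841) (nat_lit 1)) .nil))) (.cons (.br (nat_lit 8) (nat_lit 1) (.cons (.br (nat_lit 2) (nat_lit 0) (.cons (.ev (nat_lit 20837006741288775133874826314500) (nat_lit 3)) .nil)) .nil)) .nil))) .nil))) .nil))),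
 (.br (nat_lit 9) (nat_lit 1) (.cons (.rf (nat_lit 4098) (nat_lit 493858305440582043680)) (.cons (.br (nat_lit 10) (nat_lit 1) (.cons (.rf (nat_lit 4098) (nat_lit 493857210323783845920)) (.cons (.rf (nat_lit 4099) (nat_lit 493857210323783845920)) (.cons (.rf (nat_lit 4099) (nat_lit 493858305440582043680)) .nil)))) .nil))),
 (.br (nat_lit 10) (nat_lit 1) (.cons (.ev (nat_lit 79229371440083953326542094593) (nat_lit 1)) (.cons (.ev (nat_lit 79229371440156010916268212481) (nat_lit 1)) .nil))),
 (.br (nat_lit 13) (nat_lit 0) (.cons (.rf (nat_lit 4095) (nat_lit 458116643612319221792)) (.cons (.br (nat_lit 10) (nat_lit 1) (.cons (.ev (nat_lit 1213648186378973813473281) (nat_lit 1)) (.cons (.br (nat_lit 8) (nat_lit 1) (.cons (.br (nat_lit 7) (nat_lit 0) (.cons (.ev (nat_lit 158769436871293494127063400450) (nat_lit 2)) .nil)) (.cons (.ev (nat_lit 79229371440156292391261700353) (nat_lit 1)) .nil))) (.cons (.br (nat_lit 5) (nat_lit 0) (.cons (.br (nat_lit 11) (nat_lit 1) (.cons (.ev (nat_lit 20678555252037313014992545973508)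 (nat_lit 3)) .nil)) (.cons (.br (nat_lit 8) (nat_lit 1) (.cons (.ev (nat_lit 20521953447439734044471400268548) (nat_lit 3)) .nil)) .nil))) .nil)))) (.cons (.br (nat_lit 7) (nat_lit 0) (.cons (.br (nat_lit 2) (nat_lit 0) (.cons (.br (nat_lit 5) (nat_lit 0) (.cons (.ev (nat_lit 1213666632841576824439041) (nat_lit 1)) .nil)) .nil)) (.cons (.ev (nat_lit 20361947255898194928552474836993) (nat_lit 1)) .nil))) .nil)))),
 (.br (nat_lit 13) (nat_lit 0) (.cons (.rf (nat_lit 4095) (nat_lit 458116643612319221792)) (.cons (.br (nat_lit 2) (nat_lit 0) (.cons (.br (nat_lit 10) (nat_lit 1) (.cons (.ev (nat_lit 79229371440083953326542094593) (nat_lit 1)) (.cons (.rf (nat_lit 3152) (nat_lit 493858305440481383456)) .nil))) (.cons (.ev (nat_lit 1213648186378973813473281) (nat_lit 1)) (.cons (.ev (nat_lit 20361947255898122589479165296641) (nat_lit 1)) .nil)))) (.cons (.br (nat_lit 5) (nat_lit 0) (.cons (.ev (nat_lit 309489750634854586567884801) (nat_lit 1)) (.cons (.br (nat_lit 2) (nat_lit 0) (.cons (.br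 (nat_lit 7) (nat_lit 0) (.cons (.ev (nat_lit 1213666632841576824439041) (nat_lit 1)) .nil)) (.cons (.rf (nat_lit 3784) (nat_lit 493563215216757769280)) .nil))) .nil))) .nil)))),
 (.br (nat_lit 13) (nat_lit 0) (.cons (.rf (nat_lit 4102) (nat_lit 493858305440582043680)) (.cons (.rf (nat_lit 4103) (nat_lit 493858305440582043680)) (.cons (.br (nat_lit 4) (nat_lit 1) (.cons (.br (nat_lit 5) (nat_lit 0) (.cons (.br (nat_lit 7) (nat_lit 0) (.cons (.ev (nat_lit 1213666632841576824439041) (nat_lit 1)) .nil)) (.cons (.ev (nat_lit 79229371440083953326542094593) (nat_lit 1)) .nil))) (.cons (.rf (nat_lit 4101) (nat_lit 493858305440582043680)) (.cons (.br (nat_lit 8) (nat_lit 1) (.cons (.br (nat_lit 10) (nat_lit 1) (.cons (.ev (nat_lit 1213666632841576824439041) (nat_lit 1)) .nil)) (.cons (.ev (nat_lit 79228176681508465444332241666) (nat_lit 2)) .nil))) .nil)))) .nil)))),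
 (.br (nat_lit 9) (nat_lit 1) (.cons (.rf (nat_lit 3784) (nat_lit 493675700753833165888)) (.cons (.br (nat_lit 4) (nat_lit 1) (.cons (.ev (nat_lit 72057598349672449) (nat_lit 1)) (.cons (.br (nat_lit 10) (nat_lit 1) (.cons (.rf (nat_lit 3668) (nat_lit 14060354768732456000)) (.cons (.rf (nat_lit 4101) (nat_lit 493858305440582043680)) .nil))) (.cons (.br (nat_lit 13) (nat_lit 0) (.cons (.br (nat_lit 13) (nat_lit 0) (.cons (.rf (nat_lit 3953) (nat_lit 458116643612319221792)) (.cons (.rf (nat_lit 3784) (nat_lit 457935134042368541760)) .nil))) (.cons (.br (nat_lit 13) (nat_lit 0) (.cons (.rf (nat_lit 3953) (nat_lit 458116643612319221792)) (.cons (.rf (nat_lit 3784) (nat_lit 457935134042368541760)) .nil))) (.cons (.rf (nat_lit 3784) (nat_lit 457935134042368541760)) .nil)))) .nil)))) (.cons (.br (nat_lit 13) (nat_lit 0) (.cons (.rf (nat_lit 4102) (nat_lit 493858305440582043680)) (.cons (.rf (nat_lit 4103) (nat_lit 493858305440582043680)) (.cons (.rf (nat_lit 4104) (nat_lit 493858305440582043680))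 (.cons (.br (nat_lit 13) (nat_lit 0) (.cons (.rf (nat_lit 4102) (nat_lit 493858305440582043680)) (.cons (.rf (nat_lit 4103) (nat_lit 493858305440582043680)) (.cons (.rf (nat_lit 4104) (nat_lit 493858305440582043680)) .nil)))) .nil))))) .nil)))),
 (.br (nat_lit 10) (nat_lit 1) (.cons (.br (nat_lit 8) (nat_lit 1) (.cons (.ev (nat_lit 1213666632841576824439041) (nat_lit 1)) (.cons (.kr (nat_lit 4740813226943354765568) (nat_lit 1208925891672223229411328) (nat_lit 1) (nat_lit 0)) .nil))) .nil)),
 (.br (nat_lit 8) (nat_lit 1) (.cons (.rf (nat_lit 449) (nat_lit 14170970027775493344)) (.cons (.br (nat_lit 13) (nat_lit 0) (.cons (.br (nat_lit 10) (nat_lit 1) (.cons (.ev (nat_lit 1213648258436572129525761) (nat_lit 1)) .nil)) .nil)) .nil))),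
 (.br (nat_lit 9) (nat_lit 1) (.cons (.rf (nat_lit 3784) (nat_lit 493675700753833165888)) (.cons (.br (nat_lit 4) (nat_lit 1) (.cons (.ev (nat_lit 72057598349672449) (nat_lit 1)) (.cons (.br (nat_lit 10) (nat_lit 1) (.cons (.rf (nat_lit 4106) (nat_lit 493858305440582043680)) (.cons (.br (nat_lit 10) (nat_lit 1) (.cons (.rf (nat_lit 4106) (nat_lit 493858305440582043680)) .nil)) .nil))) .nil))) (.cons (.br (nat_lit 4) (nat_lit 1) (.cons (.br (nat_lit 2) (nat_lit 0) (.cons (.ev (nat_lit 281474993553409) (nat_lit 1)) (.cons (.br (nat_lit 11) (nat_lit 1) (.cons (.ev (nat_lit 309489732187829042193432833) (nat_lit 1)) (.cons (.br (nat_lit 13) (nat_lit 0) (.cons (.br (nat_lit 7) (nat_lit 0) (.cons (.ev (nat_lit 1213666632841576824439041) (nat_lit 1)) .nil)) (.cons (.br (nat_lit 7) (nat_lit 0) (.cons (.ev (nat_lit 1213666632841576824439041) (nat_lit 1)) .nil)) .nil))) .nil))) (.cons (.rf (nat_lit 4107) (nat_lit 493858305440582043680)) .nil)))) (.cons (.ev (nat_lit 79228167236703160631732207873)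 (nat_lit 1)) (.cons (.br (nat_lit 13) (nat_lit 0) (.cons (.rf (nat_lit 4095) (nat_lit 458116643612319221792)) (.cons (.br (nat_lit 8) (nat_lit 1) (.cons (.br (nat_lit 11) (nat_lit 1) (.cons (.br (nat_lit 10) (nat_lit 1) (.cons (.ev (nat_lit 20838870933199782744487916668676) (nat_lit 3)) .nil)) (.cons (.br (nat_lit 10) (nat_lit 1) (.cons (.ev (nat_lit 20838870933273856825258999743236) (nat_lit 3)) .nil)) .nil))) (.cons (.br (nat_lit 10) (nat_lit 1) (.cons (.br (nat_lit 2) (nat_lit 0) (.cons (.ev (nat_lit 310693935713018391449043201) (nat_lit 1)) .nil)) .nil)) .nil))) (.cons (.kr (nat_lit 4722366482869645213696) (nat_lit 20282409603651670423947251286016) (nat_lit 9) (nat_lit 0)) .nil)))) .nil)))) .nil)))),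
 (.br (nat_lit 9) (nat_lit 1) (.cons (.rf (nat_lit 4105) (nat_lit 493858305440582043680)) (.cons (.rf (nat_lit 4108) (nat_lit 493858305440582043680)) (.cons (.br (nat_lit 8) (nat_lit 1) (.cons (.br (nat_lit 4) (nat_lit 1) (.cons (.ev (nat_lit 281474993553409) (nat_lit 1)) (.cons (.br (nat_lit 11) (nat_lit 1) (.cons (.ev (nat_lit 79537647542532426740273250561) (nat_lit 1)) (.cons (.br (nat_lit 13) (nat_lit 0) (.cons (.br (nat_lit 2) (nat_lit 0) (.cons (.ev (nat_lit 1213666632841576824439041) (nat_lit 1)) .nil)) .nil)) .nil))) (.cons (.br (nat_lit 13) (nat_lit 0) (.cons (.br (nat_lit 2) (nat_lit 0) (.cons (.br (nat_lit 11) (nat_lit 1) (.cons (.zr (nat_lit 9481626457185244610560) (nat_lit 314320713100085064712060929) (nat_lit 5) (nat_lit 0)) .nil)) (.cons (.br (nat_lit 5) (nat_lit 0) (.cons (.ev (nat_lit 477227108330172413036606783748) (nat_lit 3)) .nil)) .nil))) (.cons (.br (nat_lit 2) (nat_lit 0) (.cons (.br (nat_lit 5) (nat_lit 0) (.cons (.ev (nat_lit 1213666632841576824439041) (nat_lit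 1)) .nil)) .nil)) .nil))) .nil)))) (.cons (.ev (nat_lit 79228167236702879156738720001) (nat_lit 1)) (.cons (.br (nat_lit 4) (nat_lit 1) (.cons (.ev (nat_lit 72057598349672449) (nat_lit 1)) (.cons (.br (nat_lit 11) (nat_lit 1) (.cons (.br (nat_lit 13) (nat_lit 0) (.cons (.br (nat_lit 2) (nat_lit 0) (.cons (.zr (nat_lit 2417851855402049053327360) (nat_lit 1237944780098888693247377409) (nat_lit 5) (nat_lit 0)) .nil)) .nil)) (.cons (.ev (nat_lit 79537647542532426740273250561) (nat_lit 1)) .nil))) (.cons (.rf (nat_lit 4095) (nat_lit 458116643612319221792)) .nil)))) .nil)))) .nil))))]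

theorem c151 : chkAll C T R L151 (nat_lit 4087) = true := by decide +kernel

theorem l151 : (nat_lit 4087) + L151.length = (nat_lit 4110) := by decide +kernel

/-- part of the certificates -/
def L152 : List Prf := [(.br (nat_lit 9) (nat_lit 1) (.cons (.rf (nat_lit 3784) (nat_lit 493675700753833165888)) (.cons (.br (nat_lit 11) (nat_lit 1) (.cons (.br (nat_lit 8) (nat_lit 1) (.cons (.br (nat_lit 4) (nat_lit 1) (.cons (.ev (nat_lit 79537647542532426740273250561) (nat_lit 1)) .nil)) .nil)) (.cons (.ev (nat_lit 79537647524085964137262284801) (nat_lit 1)) .nil))) (.cons (.ev (nat_lit 1213648186378973813473281) (nat_lit 1)) .nil)))),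
 (.br (nat_lit 9) (nat_lit 1) (.cons (.rf (nat_lit 3784) (nat_lit 493675700753833165888)) (.cons (.br (nat_lit 11) (nat_lit 1) (.cons (.br (nat_lit 4) (nat_lit 1) (.cons (.ev (nat_lit 79538856449977355989288026113) (nat_lit 1)) .nil)) (.cons (.br (nat_lit 8) (nat_lit 1) (.cons (.br (nat_lit 13) (nat_lit 0) (.cons (.ev (nat_lit 20680409753726947205980130184456) (nat_lit 4)) .nil)) (.cons (.rf (nat_lit 3784) (nat_lit 457822648505293145152)) .nil))) .nil))) (.cons (.br (nat_lit 13) (nat_lit 0) (.cons (.br (nat_lit 8) (nat_lit 1) (.cons (.ev (nat_lit 1213666632841576824439041) (nat_lit 1)) (.cons (.rf (nat_lit 3682) (nat_lit 493823298087721994272)) .nil))) (.cons (.rf (nat_lit 3953) (nat_lit 457822648505293145152)) (.cons (.rf (nat_lit 3953) (nat_lit 457857653653768569920)) .nil)))) .nil)))),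
 (.br (nat_lit 9) (nat_lit 1) (.cons (.rf (nat_lit 4110) (nat_lit 493858305440582043680)) (.cons (.rf (nat_lit 4111) (nat_lit 493858305440582043680)) (.cons (.br (nat_lit 13) (nat_lit 0) (.cons (.br (nat_lit 8) (nat_lit 1) (.cons (.br (nat_lit 11) (nat_lit 1) (.cons (.ev (nat_lit 79538856468424381533696033025) (nat_lit 1)) .nil)) (.cons (.br (nat_lit 11) (nat_lit 1) (.cons (.ev (nat_lit 309489750634573111607951361) (nat_lit 1)) .nil)) .nil))) (.cons (.rf (nat_lit 3953) (nat_lit 457822648505293145152)) (.cons (.rf (nat_lit 3953) (nat_lit 457857653653768569920)) .nil)))) .nil)))),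
 (.br (nat_lit 9) (nat_lit 1) (.cons (.ev (nat_lit 1213648186378973813473281) (nat_lit 1)) (.cons (.br (nat_lit 8) (nat_lit 1) (.cons (.ev (nat_lit 1213666632841576824439041) (nat_lit 1)) (.cons (.br (nat_lit 2) (nat_lit 0) (.cons (.zr (nat_lit 618970019858866218131783680) (nat_lit 1213666633123064686051329) (nat_lit 5) (nat_lit 0)) .nil)) .nil))) .nil))),
 (.br (nat_lit 7) (nat_lit 0) (.cons (.ev (nat_lit 79537647542532426740273250561) (nat_lit 1)) (.cons (.br (nat_lit 2) (nat_lit 0) (.cons (.br (nat_lit 13) (nat_lit 0) (.cons (.zr (nat_lit 9481626457185244610560) (nat_lit 314320713100085064712060929) (nat_lit 5) (nat_lit 0)) .nil)) (.cons (.ev (nat_lit 1213648186378973813473281) (nat_lit 1)) .nil))) .nil))),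
 (.br (nat_lit 7) (nat_lit 0) (.cons (.ev (nat_lit 79537647542532426740273250561) (nat_lit 1)) (.cons (.br (nat_lit 2) (nat_lit 0) (.cons (.ev (nat_lit 1208925891673327019294721) (nat_lit 1)) (.cons (.ev (nat_lit 1213648186378973813473281) (nat_lit 1)) .nil))) .nil))),
 (.br (nat_lit 10) (nat_lit 1) (.cons (.rf (nat_lit 3784) (nat_lit 493563215216757769280)) (.cons (.br (nat_lit 9) (nat_lit 1) (.cons (.rf (nat_lit 4110) (nat_lit 493858305440582043680)) (.cons (.rf (nat_lit 4111) (nat_lit 493858305440582043680)) (.cons (.rf (nat_lit 4112) (nat_lit 493858305440582043680)) (.cons (.br (nat_lit 9) (nat_lit 1) (.cons (.ev (nat_lit 1213648186378973813473281) (nat_lit 1)) (.cons (.rf (nat_lit 4111) (nat_lit 493858305440582043680)) (.cons (.rf (nat_lit 4112) (nat_lit 493858305440582043680)) .nil)))) .nil))))) (.cons (.br (nat_lit 5) (nat_lit 0) (.cons (.br (nat_lit 9) (nat_lit 1) (.cons (.ev (nat_lit 79229371440083953326542094593) (nat_lit 1)) (.cons (.rf (nat_lit 4113) (nat_lit 493858305440582043680))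 (.cons (.br (nat_lit 9) (nat_lit 1) (.cons (.ev (nat_lit 79229371440083953326542094593) (nat_lit 1)) (.cons (.rf (nat_lit 4113) (nat_lit 493858305440582043680)) .nil))) .nil)))) (.cons (.ev (nat_lit 79229371458530697395956613121) (nat_lit 1)) (.cons (.br (nat_lit 9) (nat_lit 1) (.cons (.rf (nat_lit 3784) (nat_lit 493675700753833165888)) (.cons (.br (nat_lit 4) (nat_lit 1) (.cons (.br (nat_lit 13) (nat_lit 0) (.cons (.ev (nat_lit 1213666632841576824439041) (nat_lit 1)) (.cons (.ev (nat_lit 309489732187829042193432833) (nat_lit 1)) .nil))) (.cons (.br (nat_lit 2) (nat_lit 0) (.cons (.br (nat_lit 11) (nat_lit 1) (.cons (.ev (nat_lit 20837625739605867904615131186948) (nat_lit 3)) .nil)) (.cons (.ev (nat_lit 309485009893402662779552001) (nat_lit 1)) .nil))) (.cons (.ev (nat_lit 20282410817299856804020559544321) (nat_lit 1)) .nil)))) (.cons (.br (nat_lit 8) (nat_lit 1) (.cons (.rf (nat_lit 2291) (nat_lit 458117738625836883104)) (.cons (.kr (nat_lit 4740813226943354765312) (nat_lit 20361637766165934761540795236352)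 (nat_lit 8) (nat_lit 0)) .nil))) .nil)))) (.cons (.br (nat_lit 7) (nat_lit 0) (.cons (.rf (nat_lit 4114) (nat_lit 493858305440582043680)) (.cons (.rf (nat_lit 4115) (nat_lit 493858305440582043680)) (.cons (.br (nat_lit 7) (nat_lit 0) (.cons (.rf (nat_lit 4114) (nat_lit 493858305440582043680)) (.cons (.rf (nat_lit 4115) (nat_lit 493858305440582043680)) .nil))) .nil)))) .nil))))) .nil)))),
 (.br (nat_lit 9) (nat_lit 1) (.cons (.br (nat_lit 4) (nat_lit 1) (.cons (.br (nat_lit 8) (nat_lit 1) (.cons (.ev (nat_lit 79228176699955209513747021826) (nat_lit 2)) .nil)) (.cons (.br (nat_lit 11) (nat_lit 1) (.cons (.br (nat_lit 8) (nat_lit 1) (.cons (.zr (nat_lit 311902861460855810640839424) (nat_lit 4777706715090790776833) (nat_lit 5) (nat_lit 3)) .nil)) (.cons (.ev (nat_lit 20361947255898194928552474836993) (nat_lit 1)) .nil))) .nil))) (.cons (.br (nat_lit 13) (nat_lit 0) (.cons (.ev (nat_lit 20282410817299856804020559544321) (nat_lit 1)) (.cons (.br (nat_lit 2) (nat_lit 0) (.cons (.ev (nat_lit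 1213666632841576824439041) (nat_lit 1)) (.cons (.ev (nat_lit 20361947251175756107709048422401) (nat_lit 1)) .nil))) (.cons (.br (nat_lit 7) (nat_lit 0) (.cons (.ev (nat_lit 20361947255898194928552474836993) (nat_lit 1)) (.cons (.ev (nat_lit 20441492175922005311508199769860) (nat_lit 3)) .nil))) .nil)))) .nil))),
 (.br (nat_lit 9) (nat_lit 1) (.cons (.rf (nat_lit 4117) (nat_lit 493858305440582043680)) (.cons (.br (nat_lit 4) (nat_lit 1) (.cons (.br (nat_lit 2) (nat_lit 0) (.cons (.ev (nat_lit 158457538732199403773457662210) (nat_lit 2)) (.cons (.ev (nat_lit 309485009893402662779552001) (nat_lit 1)) .nil))) (.cons (.br (nat_lit 11) (nat_lit 1) (.cons (.br (nat_lit 8) (nat_lit 1) (.cons (.ev (nat_lit 79230589829155615738203144706) (nat_lit 2)) .nil)) .nil)) .nil))) .nil))),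
 (.br (nat_lit 4) (nat_lit 1) (.cons (.ev (nat_lit 79229371440083953326542094593) (nat_lit 1)) (.cons (.br (nat_lit 2) (nat_lit 0) (.cons (.br (nat_lit 9) (nat_lit 1) (.cons (.rf (nat_lit 3640) (nat_lit 493675911860065503264)) (.cons (.ev (nat_lit 1213666632841576824439041) (nat_lit 1)) .nil))) (.cons (.br (nat_lit 13) (nat_lit 0) (.cons (.kr (nat_lit 2417870085973336353931520) (nat_lit 20361947251175756389184008355840) (nat_lit 1) (nat_lit 0)) (.cons (.ev (nat_lit 20282719093383858251889916248321) (nat_lit 1)) .nil))) .nil))) (.cons (.br (nat_lit 9) (nat_lit 1) (.cons (.br (nat_lit 2) (nat_lit 0) (.cons (.ev (nat_lit 1213666632841576824439041) (nat_lit 1)) (.cons (.br (nat_lit 8) (nat_lit 1) (.cons (.zr (nat_lit 2417888532717414358647552) (nat_lit 1237944761652989044467957761) (nat_lit 5) (nat_lit 0)) .nil)) .nil))) .nil)) .nil)))),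
 (.br (nat_lit 8) (nat_lit 1) (.cons (.br (nat_lit 11) (nat_lit 1) (.cons (.kr (nat_lit 2417851711286852387340544) (nat_lit 20361637766165934762640306929664) (nat_lit 1) (nat_lit 0)) .nil)) .nil)),
 (.br (nat_lit 9) (nat_lit 1) (.cons (.rf (nat_lit 4119) (nat_lit 493858305440582043680)) (.cons (.br (nat_lit 4) (nat_lit 1) (.cons (.br (nat_lit 2) (nat_lit 0) (.cons (.ev (nat_lit 1213666632841576824439041) (nat_lit 1)) (.cons (.ev (nat_lit 20282719093383858251889916248321) (nat_lit 1)) .nil))) (.cons (.rf (nat_lit 4120) (nat_lit 493858305440582043680)) .nil))) .nil))),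
 (.br (nat_lit 10) (nat_lit 1) (.cons (.rf (nat_lit 3784) (nat_lit 493563215216757769280)) (.cons (.br (nat_lit 9) (nat_lit 1) (.cons (.rf (nat_lit 4117) (nat_lit 493858305440582043680)) (.cons (.rf (nat_lit 4118) (nat_lit 493858305440582043680)) (.cons (.br (nat_lit 9) (nat_lit 1) (.cons (.rf (nat_lit 4117) (nat_lit 493858305440582043680)) (.cons (.rf (nat_lit 4118) (nat_lit 493858305440582043680)) .nil))) .nil)))) (.cons (.br (nat_lit 9) (nat_lit 1) (.cons (.rf (nat_lit 4119) (nat_lit 493858305440582043680)) (.cons (.rf (nat_lit 4121) (nat_lit 493858305440582043680)) (.cons (.br (nat_lit 9) (nat_lit 1) (.cons (.rf (nat_lit 4119) (nat_lit 493858305440582043680)) (.cons (.rf (nat_lit 4121) (nat_lit 493858305440582043680)) .nil))) .nil)))) .nil)))),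
 (.br (nat_lit 9) (nat_lit 1) (.cons (.rf (nat_lit 3784) (nat_lit 493675700753833165888)) (.cons (.br (nat_lit 8) (nat_lit 1) (.cons (.br (nat_lit 13) (nat_lit 0) (.cons (.br (nat_lit 11) (nat_lit 1) (.cons (.ev (nat_lit 21471458293459802896422970524936) (nat_lit 4)) .nil)) (.cons (.br (nat_lit 4) (nat_lit 1) (.cons (.ev (nat_lit 20998572423598996617916438217480) (nat_lit 4)) .nil)) .nil))) (.cons (.br (nat_lit 13) (nat_lit 0) (.cons (.br (nat_lit 2) (nat_lit 0) (.cons (.zr (nat_lit 2417888532717414358647552) (nat_lit 1237944761652989044467957761) (nat_lit 5) (nat_lit 0)) .nil)) (.cons (.ev (nat_lit 309489750634573111607951361) (nat_lit 1)) .nil))) (.cons (.br (nat_lit 5) (nat_lit 0) (.cons (.br (nat_lit 11) (nat_lit 1) (.cons (.zr (nat_lit 311902861460855810640839424) (nat_lit 4777706715090790776833) (nat_lit 5) (nat_lit 3)) .nil)) (.cons (.ev (nat_lit 79538856468424381533696033025) (nat_lit 1)) .nil))) .nil)))) (.cons (.br (nat_lit 5) (nat_lit 0) (.cons (.br (nat_lit 2) (nat_lit 0)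 (.cons (.ev (nat_lit 1213666632841576824439041) (nat_lit 1)) (.cons (.rf (nat_lit 3769) (nat_lit 493820022650094848032)) .nil))) (.cons (.ev (nat_lit 20282410817299856522545599610881) (nat_lit 1)) (.cons (.br (nat_lit 4) (nat_lit 1) (.cons (.rf (nat_lit 3769) (nat_lit 493820022642585995296)) (.cons (.ev (nat_lit 20361638975091754376174264910081) (nat_lit 1)) .nil))) .nil)))) .nil)))),
 (.br (nat_lit 9) (nat_lit 1) (.cons (.rf (nat_lit 3784) (nat_lit 493675700753833165888)) (.cons (.br (nat_lit 4) (nat_lit 1) (.cons (.br (nat_lit 2) (nat_lit 0) (.cons (.ev (nat_lit 158457538695305915634628625154) (nat_lit 2)) (.cons (.ev (nat_lit 309485009893402662779552001) (nat_lit 1)) .nil))) (.cons (.br (nat_lit 8) (nat_lit 1) (.cons (.br (nat_lit 2) (nat_lit 0) (.cons (.ev (nat_lit 79230589829155615738203144706) (nat_lit 2)) .nil)) .nil)) .nil))) (.cons (.br (nat_lit 8) (nat_lit 1) (.cons (.br (nat_lit 4) (nat_lit 1) (.cons (.ev (nat_lit 1213666632841576824439041) (nat_lit 1)) (.cons (.ev (nat_lit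 20361638975091754376174264910081) (nat_lit 1)) .nil))) (.cons (.kr (nat_lit 4740813226943354765312) (nat_lit 20361637766165934761540795236352) (nat_lit 8) (nat_lit 0)) .nil))) .nil)))),
 (.br (nat_lit 9) (nat_lit 1) (.cons (.rf (nat_lit 4123) (nat_lit 493858305440582043680)) (.cons (.rf (nat_lit 4124) (nat_lit 493858305440582043680)) (.cons (.br (nat_lit 8) (nat_lit 1) (.cons (.br (nat_lit 5) (nat_lit 0) (.cons (.br (nat_lit 11) (nat_lit 1) (.cons (.ev (nat_lit 79537647542532426740273250561) (nat_lit 1)) .nil)) (.cons (.br (nat_lit 4) (nat_lit 1) (.cons (.ev (nat_lit 79537647542532426740273250561) (nat_lit 1)) .nil)) .nil))) (.cons (.kr (nat_lit 4740813226943354765312) (nat_lit 20361637766165934761540795236352) (nat_lit 8) (nat_lit 0)) .nil))) .nil)))),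
 (.br (nat_lit 10) (nat_lit 1) (.cons (.rf (nat_lit 4116) (nat_lit 493858305440582043680)) (.cons (.rf (nat_lit 4122) (nat_lit 493858305440582043680)) (.cons (.br (nat_lit 9) (nat_lit 1) (.cons (.rf (nat_lit 4123) (nat_lit 493858305440582043680)) (.cons (.rf (nat_lit 4124) (nat_lit 493858305440582043680)) (.cons (.rf (nat_lit 4125) (nat_lit 493858305440582043680)) (.cons (.br (nat_lit 9) (nat_lit 1) (.cons (.rf (nat_lit 4123) (nat_lit 493858305440582043680)) (.cons (.rf (nat_lit 4124) (nat_lit 493858305440582043680)) (.cons (.rf (nat_lit 4125) (nat_lit 493858305440582043680)) .nil)))) .nil))))) .nil)))),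
 (.br (nat_lit 6) (nat_lit 1) (.cons (.rf (nat_lit 3419) (nat_lit 493787200025760303136)) (.cons (.br (nat_lit 9) (nat_lit 1) (.cons (.rf (nat_lit 4098) (nat_lit 493858305440582043680)) (.cons (.rf (nat_lit 4100) (nat_lit 493858305440582043680)) (.cons (.br (nat_lit 9) (nat_lit 1) (.cons (.rf (nat_lit 4098) (nat_lit 493858305440582043680)) (.cons (.rf (nat_lit 4100) (nat_lit 493858305440582043680)) .nil))) .nil)))) (.cons (.br (nat_lit 9) (nat_lit 1) (.cons (.rf (nat_lit 4105) (nat_lit 493858305440582043680)) (.cons (.rf (nat_lit 4108) (nat_lit 493858305440582043680)) (.cons (.rf (nat_lit 4109) (nat_lit 493858305440582043680)) (.cons (.br (nat_lit 9) (nat_lit 1) (.cons (.rf (nat_lit 4105) (nat_lit 493858305440582043680)) (.cons (.rf (nat_lit 4108) (nat_lit 493858305440582043680)) (.cons (.rf (nat_lit 4109) (nat_lit 493858305440582043680)) .nil)))) .nil))))) (.cons (.br (nat_lit 10) (nat_lit 1) (.cons (.rf (nat_lit 4116) (nat_lit 493858305440582043680)) (.cons (.rf (nat_lit 4122) (nat_lit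 493858305440582043680)) (.cons (.rf (nat_lit 4126) (nat_lit 493858305440582043680)) (.cons (.br (nat_lit 10) (nat_lit 1) (.cons (.rf (nat_lit 4116) (nat_lit 493858305440582043680)) (.cons (.rf (nat_lit 4122) (nat_lit 493858305440582043680)) (.cons (.rf (nat_lit 4126) (nat_lit 493858305440582043680)) .nil)))) .nil))))) .nil))))),
 (.br (nat_lit 11) (nat_lit 1) (.cons (.br (nat_lit 8) (nat_lit 1) (.cons (.br (nat_lit 10) (nat_lit 1) (.cons (.br (nat_lit 13) (nat_lit 0) (.cons (.ev (nat_lit 1213666632842676336066561) (nat_lit 1)) .nil)) .nil)) .nil)) (.cons (.ev (nat_lit 79537647524085965236773912833) (nat_lit 1)) .nil))),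
 (.br (nat_lit 10) (nat_lit 1) (.cons (.rf (nat_lit 4128) (nat_lit 493858305440582043680)) (.cons (.br (nat_lit 4) (nat_lit 1) (.cons (.br (nat_lit 11) (nat_lit 1) (.cons (.ev (nat_lit 310693935641241177171230721) (nat_lit 1)) .nil)) (.cons (.br (nat_lit 13) (nat_lit 0) (.cons (.rf (nat_lit 4095) (nat_lit 457935134042368542752)) (.cons (.rf (nat_lit 3784) (nat_lit 457935134042368542752)) .nil))) .nil))) .nil))),
 (.br (nat_lit 10) (nat_lit 1) (.cons (.rf (nat_lit 4128) (nat_lit 493858305440582043680)) (.cons (.rf (nat_lit 4129) (nat_lit 493858305440582043680)) (.cons (.br (nat_lit 10) (nat_lit 1) (.cons (.rf (nat_lit 4128) (nat_lit 493858305440582043680)) (.cons (.rf (nat_lit 4129) (nat_lit 493858305440582043680)) .nil))) .nil)))),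
 (.br (nat_lit 8) (nat_lit 1) (.cons (.ev (nat_lit 309485028340428215743938561) (nat_lit 1)) (.cons (.ev (nat_lit 1213666632842676336066561) (nat_lit 1)) .nil))),
 (.br (nat_lit 11) (nat_lit 1) (.cons (.br (nat_lit 10) (nat_lit 1) (.cons (.rf (nat_lit 4130) (nat_lit 493857210323783844928)) (.cons (.br (nat_lit 7) (nat_lit 0) (.cons (.rf (nat_lit 4131) (nat_lit 493858305440582043680)) (.cons (.rf (nat_lit 4131) (nat_lit 493857210323783844928)) .nil))) .nil))) (.cons (.ev (nat_lit 79537647524085965236773912833) (nat_lit 1)) .nil))),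
 (.br (nat_lit 10) (nat_lit 1) (.cons (.rf (nat_lit 4130) (nat_lit 493857210323783844928)) (.cons (.br (nat_lit 4) (nat_lit 1) (.cons (.br (nat_lit 13) (nat_lit 0) (.cons (.ev (nat_lit 1213666632842676336066561) (nat_lit 1)) (.cons (.ev (nat_lit 310693935641241177171230721) (nat_lit 1)) .nil))) (.cons (.br (nat_lit 11) (nat_lit 1) (.cons (.ev (nat_lit 309485009893402662779552001) (nat_lit 1)) (.cons (.br (nat_lit 2) (nat_lit 0) (.cons (.zr (nat_lit 618970019859425869516963840) (nat_lit 1213721973073797969870849) (nat_lit 5) (nat_lit 0)) .nil)) .nil))) (.cons (.ev (nat_lit 20282410817299856804020559544321) (nat_lit 1)) .nil)))) .nil))),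
 (.br (nat_lit 9) (nat_lit 1) (.cons (.rf (nat_lit 3419) (nat_lit 493675700753833166880)) (.cons (.rf (nat_lit 4130) (nat_lit 493858305440582043680)) (.cons (.br (nat_lit 10) (nat_lit 1) (.cons (.rf (nat_lit 4132) (nat_lit 493858305440582043680)) (.cons (.rf (nat_lit 4133) (nat_lit 493858305440582043680)) (.cons (.br (nat_lit 10) (nat_lit 1) (.cons (.rf (nat_lit 4132) (nat_lit 493858305440582043680)) (.cons (.rf (nat_lit 4133) (nat_lit 493858305440582043680)) .nil))) .nil)))) .nil))))]

theorem c152 : chkAll C T R L152 (nat_lit 4110) = true := by decide +kernel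

theorem l152 : (nat_lit 4110) + L152.length = (nat_lit 4135) := by decide +kernel

/-- part of the certificates -/
def L153 : List Prf := [(.br (nat_lit 10) (nat_lit 1) (.cons (.br (nat_lit 8) (nat_lit 1) (.cons (.br (nat_lit 4) (nat_lit 1) (.cons (.ev (nat_lit 1213666632842676336066561) (nat_lit 1)) .nil)) .nil)) .nil)),
 (.br (nat_lit 11) (nat_lit 1) (.cons (.rf (nat_lit 4135) (nat_lit 493858305440582043680)) (.cons (.ev (nat_lit 79537647524085965236773912833) (nat_lit 1)) .nil))),
 (.br (nat_lit 10) (nat_lit 1) (.cons (.rf (nat_lit 4136) (nat_lit 493858305440582043680)) (.cons (.br (nat_lit 8) (nat_lit 1) (.cons (.br (nat_lit 11) (nat_lit 1) (.cons (.br (nat_lit 13) (nat_lit 0) (.cons (.ev (nat_lit 79849564552645708901158879490) (nat_lit 2)) .nil)) .nil)) (.cons (.br (nat_lit 13) (nat_lit 0) (.cons (.rf (nat_lit 4095) (nat_lit 457935134042368541760)) (.cons (.ev (nat_lit 20361947255916641673721401114625) (nat_lit 1)) .nil))) .nil))) .nil))),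
 (.br (nat_lit 10) (nat_lit 1) (.cons (.rf (nat_lit 4136) (nat_lit 493858305440582043680)) (.cons (.rf (nat_lit 4137) (nat_lit 493858305440582043680)) (.cons (.br (nat_lit 10) (nat_lit 1) (.cons (.rf (nat_lit 4136) (nat_lit 493858305440582043680)) (.cons (.rf (nat_lit 4137) (nat_lit 493858305440582043680)) .nil))) .nil)))),
 (.br (nat_lit 4) (nat_lit 1) (.cons (.ev (nat_lit 1213666632842676336066561) (nat_lit 1)) .nil)),
 (.br (nat_lit 10) (nat_lit 1) (.cons (.rf (nat_lit 4138) (nat_lit 493857210323783844928)) (.cons (.br (nat_lit 11) (nat_lit 1) (.cons (.br (nat_lit 8) (nat_lit 1) (.cons (.br (nat_lit 4) (nat_lit 1) (.cons (.ev (nat_lit 1213666632842676336066561) (nat_lit 1)) .nil)) (.cons (.rf (nat_lit 4139) (nat_lit 493858305440582043680)) .nil))) (.cons (.ev (nat_lit 79537647524085965236773912833) (nat_lit 1)) .nil))) .nil))),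
 (.br (nat_lit 10) (nat_lit 1) (.cons (.rf (nat_lit 4138) (nat_lit 493857210323783844928)) (.cons (.br (nat_lit 8) (nat_lit 1) (.cons (.br (nat_lit 4) (nat_lit 1) (.cons (.br (nat_lit 11) (nat_lit 1) (.cons (.ev (nat_lit 20838866069162594186494745051396) (nat_lit 3)) .nil)) (.cons (.ev (nat_lit 1213666632842676336066561) (nat_lit 1)) .nil))) (.cons (.br (nat_lit 11) (nat_lit 1) (.cons (.ev (nat_lit 309485009893684137739485441) (nat_lit 1)) (.cons (.ev (nat_lit 20361947255916641673721401114625) (nat_lit 1)) .nil))) (.cons (.ev (nat_lit 20282410817299856522545599610881) (nat_lit 1)) .nil)))) .nil))),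
 (.br (nat_lit 9) (nat_lit 1) (.cons (.rf (nat_lit 3419) (nat_lit 493675700753833166880)) (.cons (.rf (nat_lit 4138) (nat_lit 493858305440582043680)) (.cons (.br (nat_lit 10) (nat_lit 1) (.cons (.rf (nat_lit 4140) (nat_lit 493858305440582043680)) (.cons (.rf (nat_lit 4141) (nat_lit 493858305440582043680)) (.cons (.br (nat_lit 10) (nat_lit 1) (.cons (.rf (nat_lit 4140) (nat_lit 493858305440582043680)) (.cons (.rf (nat_lit 4141) (nat_lit 493858305440582043680)) .nil))) .nil)))) .nil)))),
 (.br (nat_lit 11) (nat_lit 1) (.cons (.ev (nat_lit 20361947251175756389184008355841) (nat_lit 1)) (.cons (.br (nat_lit 1) (nat_lit 0) (.cons (.ev (nat_lit 79537647542532427839784878081) (nat_lit 1)) .nil)) .nil))),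
 (.br (nat_lit 10) (nat_lit 1) (.cons (.rf (nat_lit 4142) (nat_lit 493857210323783844928)) (.cons (.rf (nat_lit 4134) (nat_lit 493857210323783844928)) (.cons (.br (nat_lit 9) (nat_lit 1) (.cons (.rf (nat_lit 4134) (nat_lit 493858305440582043680)) (.cons (.rf (nat_lit 4142) (nat_lit 493858305440582043680)) (.cons (.br (nat_lit 13) (nat_lit 0) (.cons (.rf (nat_lit 4143) (nat_lit 493858305440582043680)) (.cons (.rf (nat_lit 4143) (nat_lit 493857210323783844928)) (.cons (.ev (nat_lit 20282720302309750205583827402753) (nat_lit 1)) .nil)))) .nil)))) .nil)))),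
 (.br (nat_lit 9) (nat_lit 1) (.cons (.rf (nat_lit 4134) (nat_lit 493858305440582043680)) (.cons (.rf (nat_lit 4142) (nat_lit 493858305440582043680)) (.cons (.br (nat_lit 10) (nat_lit 1) (.cons (.rf (nat_lit 4142) (nat_lit 493857210323783844928)) (.cons (.rf (nat_lit 4134) (nat_lit 493857210323783844928)) (.cons (.rf (nat_lit 4144) (nat_lit 493857210323783844928)) (.cons (.rf (nat_lit 4144) (nat_lit 493858305440582043680)) .nil))))) .nil)))),
 (.br (nat_lit 2) (nat_lit 0) (.cons (.br (nat_lit 13) (nat_lit 1) (.cons (.kr (nat_lit 79228162514336395187581878528) (nat_lit 309485009821346168236474368) (nat_lit 1) (nat_lit 0)) .nil)) .nil)),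
 (.br (nat_lit 13) (nat_lit 0) (.cons (.rf (nat_lit 4095) (nat_lit 458116643612319220800)) (.cons (.rf (nat_lit 3953) (nat_lit 458116643612319220800)) (.cons (.br (nat_lit 7) (nat_lit 0) (.cons (.br (nat_lit 9) (nat_lit 1) (.cons (.rf (nat_lit 3784) (nat_lit 457935134042368542752)) (.cons (.rf (nat_lit 651) (nat_lit 493858271352500454464)) (.cons (.rf (nat_lit 4146) (nat_lit 15433035725666355232)) .nil)))) (.cons (.br (nat_lit 10) (nat_lit 1) (.cons (.rf (nat_lit 3784) (nat_lit 457822648505293146144)) (.cons (.rf (nat_lit 651) (nat_lit 493857146552105239616)) (.cons (.rf (nat_lit 4146) (nat_lit 15433070910038444064)) .nil)))) .nil))) .nil)))),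
 (.br (nat_lit 13) (nat_lit 0) (.cons (.rf (nat_lit 4095) (nat_lit 458116643612319220800)) (.cons (.br (nat_lit 2) (nat_lit 0) (.cons (.br (nat_lit 9) (nat_lit 1) (.cons (.ev (nat_lit 79228167236630820467500974081) (nat_lit 1)) (.cons (.br (nat_lit 7) (nat_lit 0) (.cons (.br (nat_lit 11) (nat_lit 1) (.cons (.ev (nat_lit 310693935640959702211297281) (nat_lit 1)) .nil)) (.cons (.br (nat_lit 1) (nat_lit 0) (.cons (.ev (nat_lit 310693935640959702211297281) (nat_lit 1)) .nil)) .nil))) (.cons (.br (nat_lit 5) (nat_lit 0) (.cons (.br (nat_lit 11) (nat_lit 1) (.cons (.ev (nat_lit 79538856468424381533696033025) (nat_lit 1)) .nil)) (.cons (.br (nat_lit 1) (nat_lit 0) (.cons (.ev (nat_lit 79538856468424381533696033025) (nat_lit 1)) .nil)) .nil))) .nil)))) (.cons (.br (nat_lit 5) (nat_lit 0) (.cons (.br (nat_lit 7) (nat_lit 0) (.cons (.ev (nat_lit 20361638975091754658748770025473) (nat_lit 1)) (.cons (.ev (nat_lit 309489750634573111607951361) (nat_lit 1)) .nil))) (.cons (.rf (nat_lit 3577) (nat_lit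 493817776344618076192)) (.cons (.br (nat_lit 10) (nat_lit 1) (.cons (.br (nat_lit 8) (nat_lit 1) (.cons (.ev (nat_lit 158458747639571993957752700930) (nat_lit 2)) .nil)) (.cons (.br (nat_lit 1) (nat_lit 0) (.cons (.ev (nat_lit 477228307755847331779889659908) (nat_lit 3)) .nil)) .nil))) .nil)))) (.cons (.br (nat_lit 5) (nat_lit 0) (.cons (.ev (nat_lit 79229371458530697395956613121) (nat_lit 1)) (.cons (.rf (nat_lit 3577) (nat_lit 493781782731971201056)) (.cons (.br (nat_lit 1) (nat_lit 0) (.cons (.br (nat_lit 7) (nat_lit 0) (.cons (.ev (nat_lit 20838870914384102663421447046916) (nat_lit 3)) .nil)) (.cons (.br (nat_lit 7) (nat_lit 0) (.cons (.ev (nat_lit 20522579642790634695809928072456) (nat_lit 4)) .nil)) .nil))) .nil)))) (.cons (.br (nat_lit 8) (nat_lit 1) (.cons (.br (nat_lit 5) (nat_lit 0) (.cons (.rf (nat_lit 3505) (nat_lit 457830600165870994496)) (.cons (.br (nat_lit 7) (nat_lit 0) (.cons (.ev (nat_lit 21790247281317427603357467874576) (nat_lit 5)) .nil)) .nil))) (.cons (.br (nat_lit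 7) (nat_lit 0) (.cons (.ev (nat_lit 309489750634573111607951361) (nat_lit 1)) (.cons (.ev (nat_lit 20361638975091754658748770025473) (nat_lit 1)) .nil))) (.cons (.br (nat_lit 5) (nat_lit 0) (.cons (.rf (nat_lit 3682) (nat_lit 493679323637134493728)) (.cons (.br (nat_lit 1) (nat_lit 0) (.cons (.ev (nat_lit 20837630575308857569822938301188) (nat_lit 3)) .nil)) .nil))) .nil)))) .nil))))) (.cons (.br (nat_lit 5) (nat_lit 0) (.cons (.br (nat_lit 2) (nat_lit 0) (.cons (.br (nat_lit 1) (nat_lit 0) (.cons (.br (nat_lit 7) (nat_lit 0) (.cons (.ev (nat_lit 79229371440084234801502028033) (nat_lit 1)) .nil)) .nil)) (.cons (.br (nat_lit 1) (nat_lit 0) (.cons (.ev (nat_lit 309489732188110517153366273) (nat_lit 1)) (.cons (.rf (nat_lit 3419) (nat_lit 493563215216757770272)) .nil))) .nil))) (.cons (.kr (nat_lit 4722366482869645213696) (nat_lit 20282409603651670423947251286016) (nat_lit 9) (nat_lit 0)) (.cons (.br (nat_lit 10) (nat_lit 1) (.cons (.rf (nat_lit 3784) (nat_lit 493563215216757770272)) (.cons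 (.rf (nat_lit 3784) (nat_lit 493563215216757769280)) (.cons (.br (nat_lit 9) (nat_lit 1) (.cons (.ev (nat_lit 1213648258436572129525761) (nat_lit 1)) (.cons (.rf (nat_lit 4046) (nat_lit 458010562737988633664)) .nil))) .nil)))) .nil)))) .nil)))),
 (.br (nat_lit 9) (nat_lit 1) (.cons (.rf (nat_lit 3419) (nat_lit 493675700753833166880)) (.cons (.rf (nat_lit 3784) (nat_lit 493675700753833166880)) (.cons (.rf (nat_lit 3784) (nat_lit 457935134042368542752)) .nil)))),
 (.br (nat_lit 13) (nat_lit 0) (.cons (.rf (nat_lit 3953) (nat_lit 458116643612319220800)) (.cons (.rf (nat_lit 4148) (nat_lit 493858305440582043680)) (.cons (.br (nat_lit 1) (nat_lit 0) (.cons (.br (nat_lit 7) (nat_lit 0) (.cons (.rf (nat_lit 3497) (nat_lit 457827259855981970496)) (.cons (.br (nat_lit 5) (nat_lit 0) (.cons (.br (nat_lit 9) (nat_lit 1) (.cons (.ev (nat_lit 79228167236630821567012602113) (nat_lit 1)) .nil)) .nil)) .nil))) (.cons (.rf (nat_lit 4149) (nat_lit 493858305440582043680)) (.cons (.br (nat_lit 2) (nat_lit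 0) (.cons (.br (nat_lit 7) (nat_lit 0) (.cons (.br (nat_lit 9) (nat_lit 1) (.cons (.ev (nat_lit 20679790793188930969729357516552) (nat_lit 4)) .nil)) .nil)) (.cons (.rf (nat_lit 4149) (nat_lit 493858305440582042688)) .nil))) .nil)))) .nil)))),
 (.br (nat_lit 13) (nat_lit 0) (.cons (.rf (nat_lit 4147) (nat_lit 493858305440582043680)) (.cons (.rf (nat_lit 4148) (nat_lit 493858305440582043680)) (.cons (.rf (nat_lit 4150) (nat_lit 493858305440582043680)) (.cons (.br (nat_lit 13) (nat_lit 0) (.cons (.rf (nat_lit 4147) (nat_lit 493858305440582043680)) (.cons (.rf (nat_lit 4148) (nat_lit 493858305440582043680)) (.cons (.rf (nat_lit 4150) (nat_lit 493858305440582043680)) .nil)))) .nil))))),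
 (.br (nat_lit 5) (nat_lit 0) (.cons (.kr (nat_lit 2417851711286852387340544) (nat_lit 20361637766165934762640306929664) (nat_lit 1) (nat_lit 0)) .nil)),
 (.br (nat_lit 1) (nat_lit 0) (.cons (.ev (nat_lit 79229371458530978870916546561) (nat_lit 1)) (.cons (.ev (nat_lit 1213648258436572129525761) (nat_lit 1)) (.cons (.ev (nat_lit 79537647524158021735578337281) (nat_lit 1)) .nil)))),
 (.br (nat_lit 10) (nat_lit 1) (.cons (.rf (nat_lit 3784) (nat_lit 493563215216757770272)) (.cons (.rf (nat_lit 3784) (nat_lit 493563215216757769280)) (.cons (.br (nat_lit 4) (nat_lit 1) (.cons (.rf (nat_lit 4046) (nat_lit 493787268197629659168)) (.cons (.br (nat_lit 9) (nat_lit 1) (.cons (.ev (nat_lit 20996705908173430195058146739976) (nat_lit 4)) .nil)) .nil))) .nil)))),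
 (.br (nat_lit 13) (nat_lit 0) (.cons (.rf (nat_lit 4095) (nat_lit 458116643612319220800)) (.cons (.br (nat_lit 7) (nat_lit 0) (.cons (.br (nat_lit 10) (nat_lit 1) (.cons (.br (nat_lit 5) (nat_lit 0) (.cons (.br (nat_lit 2) (nat_lit 0) (.cons (.ev (nat_lit 20520720314843315762541097190148) (nat_lit 3)) .nil)) (.cons (.br (nat_lit 9) (nat_lit 1) (.cons (.ev (nat_lit 618974779047340400695246850) (nat_lit 2)) .nil)) .nil))) (.cons (.br (nat_lit 1) (nat_lit 0) (.cons (.br (nat_lit 5) (nat_lit 0) (.cons (.ev (nat_lit 20522579642864421672087586144520) (nat_lit 4)) .nil)) (.cons (.rf (nat_lit 3863) (nat_lit 457822752958899749952)) .nil))) (.cons (.rf (nat_lit 3682) (nat_lit 493679289556564805664)) .nil)))) (.cons (.br (nat_lit 2) (nat_lit 0) (.cons (.ev (nat_lit 72057598349672449) (nat_lit 1)) (.cons (.br (nat_lit 1) (nat_lit 0) (.cons (.br (nat_lit 5) (nat_lit 0) (.cons (.ev (nat_lit 79230589829299452758477308674) (nat_lit 2)) .nil)) (.cons (.ev (nat_lit 20361948464842461005776087416833) (nat_lit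 1)) .nil))) (.cons (.br (nat_lit 1) (nat_lit 0) (.cons (.rf (nat_lit 4152) (nat_lit 493858305440582043680)) (.cons (.ev (nat_lit 20361948464842461005776087416833) (nat_lit 1)) .nil))) .nil)))) (.cons (.br (nat_lit 5) (nat_lit 0) (.cons (.rf (nat_lit 4153) (nat_lit 493858305440582043680)) (.cons (.ev (nat_lit 20282410817318375604588812173313) (nat_lit 1)) (.cons (.ev (nat_lit 20361947251194275189752260984833) (nat_lit 1)) .nil)))) (.cons (.br (nat_lit 4) (nat_lit 1) (.cons (.rf (nat_lit 3577) (nat_lit 458109683710157849664)) (.cons (.br (nat_lit 5) (nat_lit 0) (.cons (.ev (nat_lit 20361947255898194647077514903553) (nat_lit 1)) (.cons (.ev (nat_lit 20282410812577562096174775664641) (nat_lit 1)) .nil))) (.cons (.br (nat_lit 2) (nat_lit 0) (.cons (.ev (nat_lit 20361947255898194647077514903553) (nat_lit 1)) (.cons (.ev (nat_lit 20282410812577562096174775664641) (nat_lit 1)) .nil))) .nil)))) .nil))))) (.cons (.br (nat_lit 10) (nat_lit 1) (.cons (.rf (nat_lit 4149) (nat_lit 493857210323783845920))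 (.cons (.rf (nat_lit 4149) (nat_lit 493857210323783844928)) (.cons (.rf (nat_lit 4154) (nat_lit 493858305440582043680)) (.cons (.br (nat_lit 10) (nat_lit 1) (.cons (.rf (nat_lit 3784) (nat_lit 457822648505293146144)) (.cons (.rf (nat_lit 3784) (nat_lit 457822648505293145152)) (.cons (.rf (nat_lit 4154) (nat_lit 493858305440582043680)) .nil)))) .nil))))) .nil)))),
 (.br (nat_lit 13) (nat_lit 0) (.cons (.rf (nat_lit 3953) (nat_lit 458116643612319220800)) (.cons (.rf (nat_lit 4155) (nat_lit 493858305440582043680)) (.cons (.br (nat_lit 2) (nat_lit 0) (.cons (.ev (nat_lit 20282719088661492050495247810561) (nat_lit 1)) (.cons (.br (nat_lit 5) (nat_lit 0) (.cons (.br (nat_lit 9) (nat_lit 1) (.cons (.rf (nat_lit 3419) (nat_lit 493675700753833166880)) (.cons (.ev (nat_lit 20361947255898194647077514903553) (nat_lit 1)) .nil))) (.cons (.rf (nat_lit 3784) (nat_lit 493675700753833165888)) (.cons (.kr (nat_lit 1208925819614629174706176) (nat_lit 20282409603651670423947251286016) (nat_lit 10) (nat_lit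 0)) .nil)))) (.cons (.br (nat_lit 5) (nat_lit 0) (.cons (.br (nat_lit 9) (nat_lit 1) (.cons (.ev (nat_lit 79229371440083953326542094593) (nat_lit 1)) (.cons (.ev (nat_lit 20282410812577562096174775664641) (nat_lit 1)) .nil))) (.cons (.rf (nat_lit 3497) (nat_lit 493678164751878817824)) .nil))) .nil)))) .nil)))),
 (.br (nat_lit 13) (nat_lit 0) (.cons (.rf (nat_lit 4151) (nat_lit 493858305440582043680)) (.cons (.rf (nat_lit 4155) (nat_lit 493858305440582043680)) (.cons (.rf (nat_lit 4156) (nat_lit 493858305440582043680)) (.cons (.br (nat_lit 13) (nat_lit 0) (.cons (.rf (nat_lit 4151) (nat_lit 493858305440582043680)) (.cons (.rf (nat_lit 4155) (nat_lit 493858305440582043680)) (.cons (.rf (nat_lit 4156) (nat_lit 493858305440582043680)) .nil)))) .nil))))),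
 (.br (nat_lit 13) (nat_lit 0) (.cons (.rf (nat_lit 4151) (nat_lit 493858305440582043680)) (.cons (.rf (nat_lit 4157) (nat_lit 493858305440582043680)) (.cons (.br (nat_lit 9) (nat_lit 1) (.cons (.br (nat_lit 5) (nat_lit 0) (.cons (.br (nat_lit 10) (nat_lit 1) (.cons (.ev (nat_lit 79229371440083953326542094593) (nat_lit 1)) (.cons (.ev (nat_lit 1213648258436572129525761) (nat_lit 1)) .nil))) (.cons (.br (nat_lit 10) (nat_lit 1) (.cons (.ev (nat_lit 79229371458530697395956613121) (nat_lit 1)) (.cons (.ev (nat_lit 20282720302328124610588522316033) (nat_lit 1)) .nil))) (.cons (.br (nat_lit 4) (nat_lit 1) (.cons (.ev (nat_lit 310693935641241177171230721) (nat_lit 1)) (.cons (.rf (nat_lit 3682) (nat_lit 493675911860065503264)) .nil))) .nil)))) (.cons (.br (nat_lit 5) (nat_lit 0) (.cons (.br (nat_lit 10) (nat_lit 1) (.cons (.br (nat_lit 7) (nat_lit 0) (.cons (.ev (nat_lit 79229371458530978870916546561) (nat_lit 1)) .nil)) (.cons (.rf (nat_lit 4153) (nat_lit 493858305440582043680)) .nil))) (.cons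 (.br (nat_lit 7) (nat_lit 0) (.cons (.br (nat_lit 1) (nat_lit 0) (.cons (.ev (nat_lit 79229371440084234801502028033) (nat_lit 1)) .nil)) (.cons (.ev (nat_lit 20361947255916641673721401114625) (nat_lit 1)) .nil))) (.cons (.rf (nat_lit 3577) (nat_lit 493817776344618076192)) .nil)))) (.cons (.br (nat_lit 8) (nat_lit 1) (.cons (.rf (nat_lit 3505) (nat_lit 457822718874039288896)) (.cons (.ev (nat_lit 20361637766184381506714033192961) (nat_lit 1)) (.cons (.rf (nat_lit 3682) (nat_lit 493671442345302788128)) .nil)))) (.cons (.br (nat_lit 4) (nat_lit 1) (.cons (.br (nat_lit 2) (nat_lit 0) (.cons (.rf (nat_lit 4152) (nat_lit 493750222348060035104)) (.cons (.br (nat_lit 8) (nat_lit 1) (.cons (.ev (nat_lit 79229371458530697395956613121) (nat_lit 1)) .nil)) .nil))) (.cons (.ev (nat_lit 72057598349672449) (nat_lit 1)) (.cons (.br (nat_lit 8) (nat_lit 1) (.cons (.ev (nat_lit 309489750634572012096323841) (nat_lit 1)) (.cons (.ev (nat_lit 79537647542604766904504614913) (nat_lit 1)) .nil))) .nil)))) .nil)))))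 .nil))))]

theorem c153 : chkAll C T R L153 (nat_lit 4135) = true := by decide +kernel

theorem l153 : (nat_lit 4135) + L153.length = (nat_lit 4159) := by decide +kernel

/-- part of the certificates -/
def L154 : List Prf := [(.br (nat_lit 13) (nat_lit 0) (.cons (.rf (nat_lit 4151) (nat_lit 493858305440582043680)) (.cons (.rf (nat_lit 4157) (nat_lit 493858305440582043680)) (.cons (.rf (nat_lit 4158) (nat_lit 493858305440582043680)) (.cons (.br (nat_lit 13) (nat_lit 0) (.cons (.rf (nat_lit 4151) (nat_lit 493858305440582043680)) (.cons (.rf (nat_lit 4157) (nat_lit 493858305440582043680)) (.cons (.rf (nat_lit 4158) (nat_lit 493858305440582043680)) .nil)))) .nil))))),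
 (.br (nat_lit 13) (nat_lit 0) (.cons (.rf (nat_lit 4151) (nat_lit 493858305440582043680)) (.cons (.rf (nat_lit 4157) (nat_lit 493858305440582043680)) (.cons (.rf (nat_lit 4159) (nat_lit 493858305440582043680)) (.cons (.br (nat_lit 13) (nat_lit 0) (.cons (.rf (nat_lit 4151) (nat_lit 493858305440582043680)) (.cons (.rf (nat_lit 4157) (nat_lit 493858305440582043680)) (.cons (.rf (nat_lit 4159) (nat_lit 493858305440582043680)) .nil)))) .nil))))),
 (.br (nat_lit 2) (nat_lit 0) (.cons (.br (nat_lit 1) (nat_lit 0) (.cons (.kr (nat_lit 79228162514336395187581878528) (nat_lit 309485009821346168236474368) (nat_lit 1) (nat_lit 0)) .nil)) .nil)),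
 (.br (nat_lit 13) (nat_lit 0) (.cons (.br (nat_lit 7) (nat_lit 0) (.cons (.ev (nat_lit 79228167236703159532220579841) (nat_lit 1)) (.cons (.br (nat_lit 1) (nat_lit 0) (.cons (.br (nat_lit 2) (nat_lit 0) (.cons (.rf (nat_lit 3953) (nat_lit 457822648505293145152)) (.cons (.ev (nat_lit 309485009893402662779552001) (nat_lit 1)) .nil))) (.cons (.rf (nat_lit 3953) (nat_lit 457822648505293146144)) (.cons (.rf (nat_lit 3716) (nat_lit 493675911860065503264)) .nil)))) (.cons (.br (nat_lit 5) (nat_lit 0) (.cons (.rf (nat_lit 4161) (nat_lit 15433035725666355232)) (.cons (.br (nat_lit 2) (nat_lit 0) (.cons (.rf (nat_lit 4025) (nat_lit 493823402543469922336)) (.cons (.rf (nat_lit 3784) (nat_lit 493563215216757769280)) .nil))) .nil))) .nil)))) (.cons (.br (nat_lit 7) (nat_lit 0) (.cons (.br (nat_lit 1) (nat_lit 0) (.cons (.br (nat_lit 10) (nat_lit 1) (.cons (.br (nat_lit 11) (nat_lit 1) (.cons (.ev (nat_lit 20837014013695977034596327949060) (nat_lit 3)) .nil)) (.cons (.ev (nat_lit 20282410817299856521446087983361)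 (nat_lit 1)) .nil))) (.cons (.br (nat_lit 2) (nat_lit 0) (.cons (.br (nat_lit 11) (nat_lit 1) (.cons (.ev (nat_lit 80157835932872095008785695490) (nat_lit 2)) .nil)) (.cons (.ev (nat_lit 309485009893402662779552001) (nat_lit 1)) .nil))) (.cons (.rf (nat_lit 3716) (nat_lit 493675945944925964320)) .nil)))) (.cons (.br (nat_lit 2) (nat_lit 0) (.cons (.br (nat_lit 9) (nat_lit 1) (.cons (.rf (nat_lit 3419) (nat_lit 493675700753833166880)) (.cons (.rf (nat_lit 3784) (nat_lit 493675700753833165888)) .nil))) (.cons (.ev (nat_lit 20282410812577490038576426057729) (nat_lit 1)) .nil))) (.cons (.br (nat_lit 5) (nat_lit 0) (.cons (.br (nat_lit 9) (nat_lit 1) (.cons (.rf (nat_lit 3784) (nat_lit 493675700753833166880)) (.cons (.rf (nat_lit 3784) (nat_lit 493675700753833165888)) .nil))) (.cons (.rf (nat_lit 4161) (nat_lit 15433070910038444064)) .nil))) .nil)))) (.cons (.br (nat_lit 1) (nat_lit 0) (.cons (.br (nat_lit 2) (nat_lit 0) (.cons (.rf (nat_lit 3419) (nat_lit 493675700753833166880)) (.cons (.br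 (nat_lit 10) (nat_lit 1) (.cons (.rf (nat_lit 3784) (nat_lit 493563215216757769280)) (.cons (.rf (nat_lit 3784) (nat_lit 457822648505293145152)) .nil))) .nil))) (.cons (.br (nat_lit 10) (nat_lit 1) (.cons (.rf (nat_lit 3419) (nat_lit 493563215216757770272)) (.cons (.rf (nat_lit 3784) (nat_lit 493563215216757770272)) (.cons (.rf (nat_lit 3784) (nat_lit 457822648505293146144)) .nil)))) .nil))) .nil)))),
 (.br (nat_lit 13) (nat_lit 0) (.cons (.rf (nat_lit 4162) (nat_lit 493858305440582043680)) (.cons (.br (nat_lit 7) (nat_lit 0) (.cons (.br (nat_lit 9) (nat_lit 1) (.cons (.br (nat_lit 2) (nat_lit 0) (.cons (.br (nat_lit 5) (nat_lit 0) (.cons (.ev (nat_lit 20521334449159248776713629665028) (nat_lit 3)) .nil)) (.cons (.br (nat_lit 10) (nat_lit 1) (.cons (.zr (nat_lit 2417851855402049053327360) (nat_lit 237993977293427866267704885249) (nat_lit 5) (nat_lit 0)) .nil)) .nil))) (.cons (.br (nat_lit 11) (nat_lit 1) (.cons (.rf (nat_lit 3710) (nat_lit 493675945944925964320)) (.cons (.ev (nat_lit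 40565438182045350022009715752962) (nat_lit 2)) .nil))) (.cons (.kr (nat_lit 4740813226943354765312) (nat_lit 20361637766165934761540795236352) (nat_lit 8) (nat_lit 0)) .nil)))) (.cons (.ev (nat_lit 79228167236703159532220579841) (nat_lit 1)) (.cons (.br (nat_lit 9) (nat_lit 1) (.cons (.br (nat_lit 11) (nat_lit 1) (.cons (.ev (nat_lit 309485009893402662779552001) (nat_lit 1)) (.cons (.br (nat_lit 8) (nat_lit 1) (.cons (.zr (nat_lit 618970019859425869516963840) (nat_lit 1213721973073797969870849) (nat_lit 5) (nat_lit 0)) .nil)) .nil))) (.cons (.br (nat_lit 8) (nat_lit 1) (.cons (.ev (nat_lit 20520096523213274735139176317186) (nat_lit 2)) (.cons (.ev (nat_lit 20282410817299856522545599610881) (nat_lit 1)) .nil))) (.cons (.br (nat_lit 1) (nat_lit 0) (.cons (.br (nat_lit 11) (nat_lit 1) (.cons (.ev (nat_lit 21156395280832390224091808466696) (nat_lit 4)) .nil)) (.cons (.br (nat_lit 2) (nat_lit 0) (.cons (.ev (nat_lit 20520096518602022193673531752708) (nat_lit 3)) .nil)) .nil))) .nil)))) (.cons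 (.br (nat_lit 8) (nat_lit 1) (.cons (.rf (nat_lit 3710) (nat_lit 493679323641425266720)) (.cons (.br (nat_lit 10) (nat_lit 1) (.cons (.br (nat_lit 9) (nat_lit 1) (.cons (.ev (nat_lit 20679169395761659152768210239748) (nat_lit 3)) .nil)) (.cons (.rf (nat_lit 3707) (nat_lit 493675911860065503264)) .nil))) (.cons (.br (nat_lit 2) (nat_lit 0) (.cons (.ev (nat_lit 309489750634573111607951361) (nat_lit 1)) (.cons (.ev (nat_lit 79229371458530697395956613121) (nat_lit 1)) .nil))) .nil)))) .nil))))) (.cons (.br (nat_lit 7) (nat_lit 0) (.cons (.br (nat_lit 5) (nat_lit 0) (.cons (.rf (nat_lit 4161) (nat_lit 15429661324480710688)) (.cons (.br (nat_lit 2) (nat_lit 0) (.cons (.rf (nat_lit 4025) (nat_lit 493823402543469922336)) (.cons (.rf (nat_lit 3784) (nat_lit 493563215216757769280)) .nil))) .nil))) (.cons (.ev (nat_lit 79228167236703159532220579841) (nat_lit 1)) (.cons (.br (nat_lit 1) (nat_lit 0) (.cons (.rf (nat_lit 3716) (nat_lit 493679289556564805664)) (.cons (.ev (nat_lit 20361947255898194928552474836993)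 (nat_lit 1)) (.cons (.ev (nat_lit 20282410812577562377649735598081) (nat_lit 1)) .nil)))) .nil)))) .nil)))),
 (.br (nat_lit 13) (nat_lit 0) (.cons (.rf (nat_lit 4162) (nat_lit 493858305440582043680)) (.cons (.rf (nat_lit 4163) (nat_lit 493858305440582043680)) (.cons (.br (nat_lit 2) (nat_lit 0) (.cons (.br (nat_lit 7) (nat_lit 0) (.cons (.br (nat_lit 1) (nat_lit 0) (.cons (.ev (nat_lit 79228167236630820467500974081) (nat_lit 1)) (.cons (.ev (nat_lit 310693935640959702211297281) (nat_lit 1)) .nil))) (.cons (.ev (nat_lit 20282410812577490038576426057729) (nat_lit 1)) .nil))) (.cons (.br (nat_lit 9) (nat_lit 1) (.cons (.rf (nat_lit 3419) (nat_lit 493675700753833166880)) (.cons (.rf (nat_lit 3784) (nat_lit 493675700753833165888)) (.cons (.br (nat_lit 8) (nat_lit 1) (.cons (.rf (nat_lit 3863) (nat_lit 457822825523441861696)) (.cons (.ev (nat_lit 309489750634573111607951361) (nat_lit 1)) .nil))) .nil)))) (.cons (.br (nat_lit 5) (nat_lit 0) (.cons (.ev (nat_lit 79229371458530697395956613121)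 (nat_lit 1)) (.cons (.rf (nat_lit 4025) (nat_lit 493787408930823047200)) .nil))) .nil)))) .nil)))),
 (.br (nat_lit 13) (nat_lit 0) (.cons (.rf (nat_lit 4162) (nat_lit 493858305440582043680)) (.cons (.rf (nat_lit 4163) (nat_lit 493858305440582043680)) (.cons (.rf (nat_lit 4164) (nat_lit 493858305440582043680)) (.cons (.br (nat_lit 13) (nat_lit 0) (.cons (.rf (nat_lit 4162) (nat_lit 493858305440582043680)) (.cons (.rf (nat_lit 4163) (nat_lit 493858305440582043680)) (.cons (.rf (nat_lit 4164) (nat_lit 493858305440582043680)) .nil)))) .nil))))),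
 (.br (nat_lit 2) (nat_lit 0) (.cons (.br (nat_lit 1) (nat_lit 0) (.cons (.br (nat_lit 13) (nat_lit 0) (.cons (.br (nat_lit 11) (nat_lit 1) (.cons (.ev (nat_lit 80157826525032619624494006530) (nat_lit 2)) .nil)) (.cons (.rf (nat_lit 3784) (nat_lit 457935134042368541760)) .nil))) (.cons (.rf (nat_lit 3888) (nat_lit 493786215960706910240)) .nil))) (.cons (.br (nat_lit 10) (nat_lit 1) (.cons (.rf (nat_lit 3419) (nat_lit 493563215216757770272)) (.cons (.rf (nat_lit 3784) (nat_lit 493563215216757769280)) (.cons (.br (nat_lit 5) (nat_lit 0) (.cons (.rf (nat_lit 4025) (nat_lit 493787408930823047200)) (.cons (.br (nat_lit 1) (nat_lit 0) (.cons (.ev (nat_lit 20837014013695977034596327949060) (nat_lit 3)) .nil)) .nil))) .nil)))) (.cons (.br (nat_lit 13) (nat_lit 0) (.cons (.ev (nat_lit 20282409608374036906816896565249) (nat_lit 1)) (.cons (.br (nat_lit 9) (nat_lit 1) (.cons (.ev (nat_lit 20361947251175756388084496728321) (nat_lit 1)) (.cons (.br (nat_lit 10) (nat_lit 1) (.cons (.ev (nat_lit 79229376162522774161378574593)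 (nat_lit 1)) .nil)) .nil))) .nil))) .nil)))),
 (.br (nat_lit 4) (nat_lit 1) (.cons (.br (nat_lit 2) (nat_lit 0) (.cons (.br (nat_lit 10) (nat_lit 1) (.cons (.rf (nat_lit 3784) (nat_lit 493563215216757769280)) (.cons (.ev (nat_lit 20282410817299856802921047916801) (nat_lit 1)) .nil))) (.cons (.br (nat_lit 10) (nat_lit 1) (.cons (.ev (nat_lit 309485009893685237251112961) (nat_lit 1)) (.cons (.ev (nat_lit 20361947251175756388084496728321) (nat_lit 1)) .nil))) .nil))) (.cons (.rf (nat_lit 4040) (nat_lit 493858305440582043680)) (.cons (.br (nat_lit 13) (nat_lit 0) (.cons (.br (nat_lit 1) (nat_lit 0) (.cons (.br (nat_lit 11) (nat_lit 1) (.cons (.zr (nat_lit 618970019858866218131783680) (nat_lit 1213666633123064686051329) (nat_lit 5) (nat_lit 0)) .nil)) (.cons (.br (nat_lit 10) (nat_lit 1) (.cons (.ev (nat_lit 20520096518491341168506147504388) (nat_lit 3)) .nil)) .nil))) (.cons (.br (nat_lit 2) (nat_lit 0) (.cons (.br (nat_lit 10) (nat_lit 1) (.cons (.ev (nat_lit 79229371458602753894761169153)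 (nat_lit 1)) .nil)) .nil)) .nil))) (.cons (.rf (nat_lit 4166) (nat_lit 493858305440582043680)) .nil))))),
 (.br (nat_lit 4) (nat_lit 1) (.cons (.br (nat_lit 5) (nat_lit 0) (.cons (.ev (nat_lit 20282410812577562096174775664641) (nat_lit 1)) .nil)) (.cons (.br (nat_lit 10) (nat_lit 1) (.cons (.ev (nat_lit 20282410812577562096174775664641) (nat_lit 1)) .nil)) .nil))),
 (.br (nat_lit 13) (nat_lit 0) (.cons (.rf (nat_lit 4166) (nat_lit 493858305440582043680)) (.cons (.rf (nat_lit 4167) (nat_lit 493858305440582043680)) (.cons (.br (nat_lit 1) (nat_lit 0) (.cons (.kr (nat_lit 309485009821345068741558272) (nat_lit 20282409603651670423951546253312) (nat_lit 3) (nat_lit 0)) (.cons (.rf (nat_lit 4168) (nat_lit 493858305440582043680)) (.cons (.br (nat_lit 4) (nat_lit 1) (.cons (.br (nat_lit 9) (nat_lit 1) (.cons (.ev (nat_lit 309489732187829042193432833) (nat_lit 1)) .nil)) (.cons (.br (nat_lit 2) (nat_lit 0) (.cons (.ev (nat_lit 309489732187829042193432833) (nat_lit 1)) .nil)) .nil))) .nil))))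 .nil)))),
 (.br (nat_lit 13) (nat_lit 0) (.cons (.br (nat_lit 1) (nat_lit 0) (.cons (.br (nat_lit 5) (nat_lit 0) (.cons (.ev (nat_lit 20282410817299856804020559544321) (nat_lit 1)) (.cons (.br (nat_lit 2) (nat_lit 0) (.cons (.ev (nat_lit 21312997151506203082352333359880) (nat_lit 4)) .nil)) .nil))) (.cons (.br (nat_lit 2) (nat_lit 0) (.cons (.kr (nat_lit 20361637766165934761540795236608) (nat_lit 4722438540463699918848) (nat_lit 1) (nat_lit 0)) (.cons (.ev (nat_lit 20361947251175756388084496728321) (nat_lit 1)) .nil))) (.cons (.rf (nat_lit 3716) (nat_lit 493671408260442327072)) .nil)))) (.cons (.ev (nat_lit 79229371440156291291750072321) (nat_lit 1)) (.cons (.br (nat_lit 5) (nat_lit 0) (.cons (.br (nat_lit 9) (nat_lit 1) (.cons (.rf (nat_lit 3784) (nat_lit 493675700753833166880)) (.cons (.rf (nat_lit 3784) (nat_lit 493675700753833165888)) .nil))) (.cons (.rf (nat_lit 3691) (nat_lit 15427478796047058976)) .nil))) .nil)))),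
 (.br (nat_lit 13) (nat_lit 0) (.cons (.rf (nat_lit 4170) (nat_lit 493858305440582043680)) (.cons (.ev (nat_lit 79229371440156291291750072321) (nat_lit 1)) (.cons (.br (nat_lit 10) (nat_lit 1) (.cons (.rf (nat_lit 3953) (nat_lit 457857653653768570912)) (.cons (.rf (nat_lit 3953) (nat_lit 457857653653768569920)) (.cons (.br (nat_lit 2) (nat_lit 0) (.cons (.ev (nat_lit 310693935641241177171230721) (nat_lit 1)) (.cons (.rf (nat_lit 4025) (nat_lit 493823402543469922336)) .nil))) .nil)))) .nil)))),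
 (.br (nat_lit 7) (nat_lit 0) (.cons (.rf (nat_lit 4165) (nat_lit 493858305440582043680)) (.cons (.br (nat_lit 13) (nat_lit 0) (.cons (.rf (nat_lit 4166) (nat_lit 493858305440582043680)) (.cons (.rf (nat_lit 4167) (nat_lit 493858305440582043680)) (.cons (.rf (nat_lit 4169) (nat_lit 493858305440582043680)) (.cons (.br (nat_lit 13) (nat_lit 0) (.cons (.rf (nat_lit 4166) (nat_lit 493858305440582043680)) (.cons (.rf (nat_lit 4167) (nat_lit 493858305440582043680)) (.cons (.rf (nat_lit 4169) (nat_lit 493858305440582043680)) .nil)))) .nil))))) (.cons (.br (nat_lit 13) (nat_lit 0) (.cons (.rf (nat_lit 4170) (nat_lit 493858305440582043680)) (.cons (.rf (nat_lit 4171) (nat_lit 493858305440582043680)) (.cons (.ev (nat_lit 79229371440156291291750072321) (nat_lit 1)) (.cons (.br (nat_lit 13) (nat_lit 0) (.cons (.rf (nat_lit 4170) (nat_lit 493858305440582043680)) (.cons (.rf (nat_lit 4171) (nat_lit 493858305440582043680)) (.cons (.ev (nat_lit 79229371440156291291750072321) (nat_lit 1)) .nil)))) .nil)))))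 (.cons (.br (nat_lit 2) (nat_lit 0) (.cons (.ev (nat_lit 309485028340146740784005121) (nat_lit 1)) (.cons (.br (nat_lit 9) (nat_lit 1) (.cons (.rf (nat_lit 3419) (nat_lit 493675700753833166880)) (.cons (.rf (nat_lit 3784) (nat_lit 493675700753833165888)) (.cons (.br (nat_lit 5) (nat_lit 0) (.cons (.br (nat_lit 10) (nat_lit 1) (.cons (.ev (nat_lit 309489732187829042193432833) (nat_lit 1)) (.cons (.ev (nat_lit 20361947255898194647077514903553) (nat_lit 1)) .nil))) (.cons (.rf (nat_lit 4025) (nat_lit 493823402543469922336)) .nil))) .nil)))) (.cons (.br (nat_lit 10) (nat_lit 1) (.cons (.rf (nat_lit 3419) (nat_lit 493563215216757770272)) (.cons (.rf (nat_lit 3784) (nat_lit 493563215216757769280)) (.cons (.br (nat_lit 5) (nat_lit 0) (.cons (.br (nat_lit 9) (nat_lit 1) (.cons (.ev (nat_lit 79229371440083953326542094593) (nat_lit 1)) (.cons (.ev (nat_lit 20282410812577562096174775664641) (nat_lit 1)) .nil))) (.cons (.rf (nat_lit 4025) (nat_lit 493787408930823047200)) .nil))) .nil)))) .nil))))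 .nil))))),
 (.br (nat_lit 2) (nat_lit 0) (.cons (.br (nat_lit 13) (nat_lit 0) (.cons (.br (nat_lit 1) (nat_lit 0) (.cons (.br (nat_lit 10) (nat_lit 1) (.cons (.ev (nat_lit 79229376162522774161378574593) (nat_lit 1)) .nil)) .nil)) (.cons (.br (nat_lit 10) (nat_lit 1) (.cons (.ev (nat_lit 310693935640959702211297281) (nat_lit 1)) (.cons (.br (nat_lit 9) (nat_lit 1) (.cons (.zr (nat_lit 309494491447802253969195008) (nat_lit 1208925964011296539017217) (nat_lit 5) (nat_lit 10)) .nil)) .nil))) .nil))) (.cons (.br (nat_lit 1) (nat_lit 0) (.cons (.kr (nat_lit 79537647524085682662268796928) (nat_lit 4740885284537392693248) (nat_lit 2) (nat_lit 0)) (.cons (.br (nat_lit 13) (nat_lit 0) (.cons (.rf (nat_lit 3493) (nat_lit 457830667240369062976)) (.cons (.ev (nat_lit 20282410812577562377649735598081) (nat_lit 1)) .nil))) .nil))) (.cons (.br (nat_lit 10) (nat_lit 1) (.cons (.rf (nat_lit 3419) (nat_lit 493563215216757770272)) (.cons (.rf (nat_lit 3784) (nat_lit 493563215216757769280)) (.cons (.br (nat_lit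 5) (nat_lit 0) (.cons (.ev (nat_lit 79229371458530697395956613121) (nat_lit 1)) (.cons (.rf (nat_lit 4025) (nat_lit 493787408930823047200)) .nil))) .nil)))) .nil)))),
 (.br (nat_lit 13) (nat_lit 0) (.cons (.rf (nat_lit 4173) (nat_lit 493858305440582043680)) (.cons (.br (nat_lit 2) (nat_lit 0) (.cons (.br (nat_lit 5) (nat_lit 0) (.cons (.br (nat_lit 10) (nat_lit 1) (.cons (.ev (nat_lit 79229376162522493785930268673) (nat_lit 1)) .nil)) .nil)) (.cons (.br (nat_lit 10) (nat_lit 1) (.cons (.rf (nat_lit 3419) (nat_lit 493563215216757770272)) (.cons (.ev (nat_lit 20282410812596009122818661875713) (nat_lit 1)) .nil))) .nil))) (.cons (.br (nat_lit 1) (nat_lit 0) (.cons (.rf (nat_lit 3716) (nat_lit 493675945937417111584)) (.cons (.rf (nat_lit 4168) (nat_lit 493750222348060035104)) (.cons (.br (nat_lit 4) (nat_lit 1) (.cons (.br (nat_lit 5) (nat_lit 0) (.cons (.zr (nat_lit 309494491447798955434312448) (nat_lit 1208925964011296539017217) (nat_lit 5) (nat_lit 10)) .nil)) (.cons (.ev (nat_lit 79229371458530978870916546561)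 (nat_lit 1)) .nil))) .nil)))) .nil)))),
 (.br (nat_lit 13) (nat_lit 0) (.cons (.rf (nat_lit 4173) (nat_lit 493858305440582043680)) (.cons (.rf (nat_lit 4174) (nat_lit 493858305440582043680)) (.cons (.br (nat_lit 8) (nat_lit 1) (.cons (.br (nat_lit 4) (nat_lit 1) (.cons (.rf (nat_lit 2290) (nat_lit 493823368456464074784)) (.cons (.br (nat_lit 10) (nat_lit 1) (.cons (.ev (nat_lit 20837011605289502551501109921028) (nat_lit 3)) .nil)) .nil))) (.cons (.br (nat_lit 10) (nat_lit 1) (.cons (.rf (nat_lit 3949) (nat_lit 493677988835387082784)) (.cons (.ev (nat_lit 20282410812596009122818661875713) (nat_lit 1)) .nil))) (.cons (.kr (nat_lit 4740813226943354765312) (nat_lit 20361637766165934761540795236352) (nat_lit 8) (nat_lit 0)) .nil)))) .nil)))),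
 (.br (nat_lit 7) (nat_lit 0) (.cons (.rf (nat_lit 4165) (nat_lit 493858305440582043680)) (.cons (.rf (nat_lit 4172) (nat_lit 493858305440582043680)) (.cons (.br (nat_lit 10) (nat_lit 1) (.cons (.br (nat_lit 11) (nat_lit 1) (.cons (.br (nat_lit 8) (nat_lit 1) (.cons (.ev (nat_lit 309485009893685237251112961) (nat_lit 1)) (.cons (.br (nat_lit 9) (nat_lit 1) (.cons (.br (nat_lit 13) (nat_lit 0) (.cons (.ev (nat_lit 20521332040752773167718571901188) (nat_lit 3)) .nil)) (.cons (.rf (nat_lit 3953) (nat_lit 457822648505293146144)) .nil))) .nil))) (.cons (.br (nat_lit 4) (nat_lit 1) (.cons (.br (nat_lit 9) (nat_lit 1) (.cons (.br (nat_lit 13) (nat_lit 0) (.cons (.ev (nat_lit 20680407345171602850646136522500) (nat_lit 3)) .nil)) .nil)) (.cons (.br (nat_lit 8) (nat_lit 1) (.cons (.br (nat_lit 9) (nat_lit 1) (.cons (.ev (nat_lit 20837014013806802177176614535428) (nat_lit 3)) .nil)) (.cons (.ev (nat_lit 81210415211225144542588160704772) (nat_lit 3)) .nil))) .nil))) (.cons (.br (nat_lit 13) (nat_lit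 0) (.cons (.br (nat_lit 2) (nat_lit 0) (.cons (.ev (nat_lit 310693935640959702211297281) (nat_lit 1)) (.cons (.rf (nat_lit 3784) (nat_lit 457935134042368541760)) .nil))) (.cons (.rf (nat_lit 3784) (nat_lit 457822648505293146144)) (.cons (.rf (nat_lit 3953) (nat_lit 457857653653768570912)) .nil)))) .nil)))) (.cons (.br (nat_lit 9) (nat_lit 1) (.cons (.br (nat_lit 11) (nat_lit 1) (.cons (.br (nat_lit 8) (nat_lit 1) (.cons (.br (nat_lit 4) (nat_lit 1) (.cons (.ev (nat_lit 21470846586513019134563600893192) (nat_lit 4)) .nil)) .nil)) (.cons (.br (nat_lit 13) (nat_lit 0) (.cons (.ev (nat_lit 20361947255898194928552474836993) (nat_lit 1)) (.cons (.ev (nat_lit 20361947255916641672621889487105) (nat_lit 1)) .nil))) .nil))) (.cons (.rf (nat_lit 3543) (nat_lit 493678164756169590816)) (.cons (.br (nat_lit 13) (nat_lit 0) (.cons (.br (nat_lit 5) (nat_lit 0) (.cons (.ev (nat_lit 20282409603670189507089992253441) (nat_lit 1)) (.cons (.br (nat_lit 1) (nat_lit 0) (.cons (.ev (nat_lit 20837014013806802177176614535428)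 (nat_lit 3)) .nil)) .nil))) (.cons (.rf (nat_lit 3953) (nat_lit 457822648505293145152)) (.cons (.rf (nat_lit 3953) (nat_lit 457857653653768569920)) .nil)))) .nil)))) (.cons (.br (nat_lit 9) (nat_lit 1) (.cons (.br (nat_lit 8) (nat_lit 1) (.cons (.br (nat_lit 4) (nat_lit 1) (.cons (.br (nat_lit 13) (nat_lit 0) (.cons (.ev (nat_lit 309489732188110517153366273) (nat_lit 1)) .nil)) .nil)) (.cons (.br (nat_lit 13) (nat_lit 0) (.cons (.br (nat_lit 2) (nat_lit 0) (.cons (.ev (nat_lit 20837009178066917893566451877636) (nat_lit 3)) .nil)) (.cons (.br (nat_lit 4) (nat_lit 1) (.cons (.ev (nat_lit 310693935641241177171230721) (nat_lit 1)) .nil)) .nil))) .nil))) (.cons (.rf (nat_lit 3543) (nat_lit 493677074040634837024)) (.cons (.br (nat_lit 8) (nat_lit 1) (.cons (.ev (nat_lit 79228167236702879156738720001) (nat_lit 1)) (.cons (.br (nat_lit 4) (nat_lit 1) (.cons (.ev (nat_lit 158457538732199403773457662210) (nat_lit 2)) (.cons (.br (nat_lit 11) (nat_lit 1) (.cons (.ev (nat_lit 20680407345171602857243206287620)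 (nat_lit 3)) .nil)) .nil))) (.cons (.br (nat_lit 2) (nat_lit 0) (.cons (.br (nat_lit 11) (nat_lit 1) (.cons (.ev (nat_lit 20837014013806802170579544770308) (nat_lit 3)) .nil)) (.cons (.ev (nat_lit 20361947251175756107709048422401) (nat_lit 1)) .nil))) .nil)))) .nil)))) (.cons (.br (nat_lit 11) (nat_lit 1) (.cons (.br (nat_lit 8) (nat_lit 1) (.cons (.br (nat_lit 4) (nat_lit 1) (.cons (.br (nat_lit 13) (nat_lit 0) (.cons (.ev (nat_lit 20520096518491197053292268421380) (nat_lit 3)) .nil)) (.cons (.ev (nat_lit 310693935640959702211297281) (nat_lit 1)) .nil))) (.cons (.br (nat_lit 13) (nat_lit 0) (.cons (.br (nat_lit 9) (nat_lit 1) (.cons (.zr (nat_lit 2417888532717414358647552) (nat_lit 1237944761652989044467957761) (nat_lit 5) (nat_lit 0)) .nil)) (.cons (.kr (nat_lit 4740813226943354765312) (nat_lit 20361637766165934761540795236352) (nat_lit 8) (nat_lit 0)) .nil))) (.cons (.br (nat_lit 5) (nat_lit 0) (.cons (.br (nat_lit 2) (nat_lit 0) (.cons (.zr (nat_lit 311902861460855810641035264) (nat_lit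 4777706715090790646273) (nat_lit 5) (nat_lit 9)) .nil)) (.cons (.ev (nat_lit 20282410817318375604588812173313) (nat_lit 1)) .nil))) .nil)))) (.cons (.br (nat_lit 8) (nat_lit 1) (.cons (.br (nat_lit 4) (nat_lit 1) (.cons (.br (nat_lit 13) (nat_lit 0) (.cons (.ev (nat_lit 20837011605289214321142071231748) (nat_lit 3)) .nil)) (.cons (.br (nat_lit 9) (nat_lit 1) (.cons (.ev (nat_lit 20837011605289215442643998671108) (nat_lit 3)) .nil)) .nil))) (.cons (.ev (nat_lit 309485009893685237251112961) (nat_lit 1)) (.cons (.ev (nat_lit 20282410812577490038576426057729) (nat_lit 1)) .nil)))) (.cons (.br (nat_lit 2) (nat_lit 0) (.cons (.ev (nat_lit 310693935641241177171230721) (nat_lit 1)) (.cons (.br (nat_lit 9) (nat_lit 1) (.cons (.ev (nat_lit 79229376180897180265585115393) (nat_lit 1)) (.cons (.ev (nat_lit 20361947255916641673721401114625) (nat_lit 1)) .nil))) (.cons (.br (nat_lit 8) (nat_lit 1) (.cons (.ev (nat_lit 79229376180897180265585115393) (nat_lit 1)) (.cons (.ev (nat_lit 20361947255916641673721401114625)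 (nat_lit 1)) .nil))) .nil)))) (.cons (.br (nat_lit 4) (nat_lit 1) (.cons (.kr (nat_lit 309485009821345068741558272) (nat_lit 20282409603651670423951546253312) (nat_lit 3) (nat_lit 0)) (.cons (.br (nat_lit 8) (nat_lit 1) (.cons (.br (nat_lit 9) (nat_lit 1) (.cons (.ev (nat_lit 158457538695305915634628625154) (nat_lit 2)) .nil)) (.cons (.br (nat_lit 9) (nat_lit 1) (.cons (.ev (nat_lit 79228167255149622135231676673) (nat_lit 1)) .nil)) .nil))) (.cons (.br (nat_lit 8) (nat_lit 1) (.cons (.br (nat_lit 2) (nat_lit 0) (.cons (.ev (nat_lit 20680412162022308307271210697988) (nat_lit 3)) .nil)) (.cons (.ev (nat_lit 20282410812577490038576426057729) (nat_lit 1)) .nil))) .nil)))) .nil))))) .nil))))) (.cons (.br (nat_lit 13) (nat_lit 0) (.cons (.rf (nat_lit 4173) (nat_lit 493858305440582043680)) (.cons (.rf (nat_lit 4174) (nat_lit 493858305440582043680)) (.cons (.rf (nat_lit 4175) (nat_lit 493858305440582043680)) (.cons (.br (nat_lit 13) (nat_lit 0) (.cons (.rf (nat_lit 4173) (nat_lit 493858305440582043680))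 (.cons (.rf (nat_lit 4174) (nat_lit 493858305440582043680)) (.cons (.rf (nat_lit 4175) (nat_lit 493858305440582043680)) .nil)))) .nil))))) .nil)))))]

theorem c154 : chkAll C T R L154 (nat_lit 4159) = true := by decide +kernel

theorem l154 : (nat_lit 4159) + L154.length = (nat_lit 4177) := by decide +kernel

/-- part of the certificates -/
def L155 : List Prf := [(.br (nat_lit 5) (nat_lit 0) (.cons (.br (nat_lit 2) (nat_lit 0) (.cons (.br (nat_lit 9) (nat_lit 1) (.cons (.rf (nat_lit 3419) (nat_lit 493675700753833166880)) (.cons (.ev (nat_lit 309489750634573111607951361) (nat_lit 1)) .nil))) (.cons (.br (nat_lit 13) (nat_lit 0) (.cons (.br (nat_lit 1) (nat_lit 0) (.cons (.ev (nat_lit 309489732188110517153366273) (nat_lit 1)) .nil)) .nil)) .nil))) (.cons (.br (nat_lit 9) (nat_lit 1) (.cons (.rf (nat_lit 3784) (nat_lit 493675700753833166880)) (.cons (.rf (nat_lit 3784) (nat_lit 493675700753833165888)) (.cons (.br (nat_lit 1) (nat_lit 0) (.cons (.rf (nat_lit 3716) (nat_lit 493671408257224247328))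 (.cons (.br (nat_lit 2) (nat_lit 0) (.cons (.ev (nat_lit 20837014013733302300959974686980) (nat_lit 3)) .nil)) .nil))) .nil)))) (.cons (.kr (nat_lit 1208925891672227507601408) (nat_lit 79537647524085683761780359168) (nat_lit 4) (nat_lit 0)) .nil)))),
 (.br (nat_lit 13) (nat_lit 0) (.cons (.rf (nat_lit 4177) (nat_lit 493858305440582043680)) (.cons (.br (nat_lit 1) (nat_lit 0) (.cons (.rf (nat_lit 3716) (nat_lit 493675911852556650528)) (.cons (.br (nat_lit 10) (nat_lit 1) (.cons (.ev (nat_lit 20361947255916641672621889487105) (nat_lit 1)) (.cons (.br (nat_lit 2) (nat_lit 0) (.cons (.ev (nat_lit 20837014013733302298760951431940) (nat_lit 3)) .nil)) .nil))) (.cons (.rf (nat_lit 3953) (nat_lit 457822648505293146144)) .nil)))) (.cons (.br (nat_lit 1) (nat_lit 0) (.cons (.br (nat_lit 2) (nat_lit 0) (.cons (.br (nat_lit 5) (nat_lit 0) (.cons (.ev (nat_lit 309489750634853487056257281) (nat_lit 1)) .nil)) .nil)) (.cons (.br (nat_lit 9) (nat_lit 1) (.cons (.rf (nat_lit 3419) (nat_lit 493675700753833166880))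 (.cons (.ev (nat_lit 20282410817299856521446087983361) (nat_lit 1)) .nil))) .nil))) .nil)))),
 (.br (nat_lit 9) (nat_lit 1) (.cons (.ev (nat_lit 309489750634853487056257281) (nat_lit 1)) .nil)),
 (.br (nat_lit 2) (nat_lit 0) (.cons (.rf (nat_lit 3949) (nat_lit 493677003674038143008)) (.cons (.rf (nat_lit 3949) (nat_lit 493676862936553981984)) .nil))),
 (.br (nat_lit 13) (nat_lit 0) (.cons (.rf (nat_lit 4177) (nat_lit 493858305440582043680)) (.cons (.rf (nat_lit 4178) (nat_lit 493858305440582043680)) (.cons (.br (nat_lit 1) (nat_lit 0) (.cons (.br (nat_lit 2) (nat_lit 0) (.cons (.rf (nat_lit 4179) (nat_lit 493858305440582043680)) (.cons (.ev (nat_lit 79229376162522492686418641153) (nat_lit 1)) .nil))) (.cons (.br (nat_lit 2) (nat_lit 0) (.cons (.br (nat_lit 5) (nat_lit 0) (.cons (.ev (nat_lit 79228167236631101942460907521) (nat_lit 1)) .nil)) (.cons (.br (nat_lit 4) (nat_lit 1) (.cons (.zr (nat_lit 311902861460574335664324608) (nat_lit 4740957623606424109057) (nat_lit 5) (nat_lit 9))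 .nil)) .nil))) (.cons (.rf (nat_lit 4180) (nat_lit 493858305440582043680)) .nil)))) .nil)))),
 (.br (nat_lit 7) (nat_lit 0) (.cons (.rf (nat_lit 4165) (nat_lit 493858305440582043680)) (.cons (.rf (nat_lit 4172) (nat_lit 493858305440582043680)) (.cons (.rf (nat_lit 4176) (nat_lit 493858305440582043680)) (.cons (.br (nat_lit 13) (nat_lit 0) (.cons (.rf (nat_lit 4177) (nat_lit 493858305440582043680)) (.cons (.rf (nat_lit 4178) (nat_lit 493858305440582043680)) (.cons (.rf (nat_lit 4181) (nat_lit 493858305440582043680)) (.cons (.br (nat_lit 13) (nat_lit 0) (.cons (.rf (nat_lit 4177) (nat_lit 493858305440582043680)) (.cons (.rf (nat_lit 4178) (nat_lit 493858305440582043680)) (.cons (.rf (nat_lit 4181) (nat_lit 493858305440582043680)) .nil)))) .nil))))) .nil))))),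
 (.br (nat_lit 6) (nat_lit 1) (.cons (.rf (nat_lit 3419) (nat_lit 493787200025760303136)) (.cons (.br (nat_lit 9) (nat_lit 1) (.cons (.rf (nat_lit 4134) (nat_lit 493858305440582043680)) (.cons (.rf (nat_lit 4142) (nat_lit 493858305440582043680)) (.cons (.rf (nat_lit 4145) (nat_lit 493858305440582043680)) (.cons (.br (nat_lit 9) (nat_lit 1) (.cons (.rf (nat_lit 4134) (nat_lit 493858305440582043680)) (.cons (.rf (nat_lit 4142) (nat_lit 493858305440582043680)) (.cons (.rf (nat_lit 4145) (nat_lit 493858305440582043680)) .nil)))) .nil))))) (.cons (.br (nat_lit 13) (nat_lit 0) (.cons (.rf (nat_lit 4151) (nat_lit 493858305440582043680)) (.cons (.rf (nat_lit 4157) (nat_lit 493858305440582043680)) (.cons (.rf (nat_lit 4159) (nat_lit 493858305440582043680)) (.cons (.rf (nat_lit 4160) (nat_lit 493858305440582043680)) (.cons (.br (nat_lit 13) (nat_lit 0) (.cons (.rf (nat_lit 4151) (nat_lit 493858305440582043680)) (.cons (.rf (nat_lit 4157) (nat_lit 493858305440582043680)) (.cons (.rf (nat_lit 4159)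 (nat_lit 493858305440582043680)) (.cons (.rf (nat_lit 4160) (nat_lit 493858305440582043680)) .nil))))) .nil)))))) (.cons (.br (nat_lit 7) (nat_lit 0) (.cons (.rf (nat_lit 4165) (nat_lit 493858305440582043680)) (.cons (.rf (nat_lit 4172) (nat_lit 493858305440582043680)) (.cons (.rf (nat_lit 4176) (nat_lit 493858305440582043680)) (.cons (.rf (nat_lit 4182) (nat_lit 493858305440582043680)) (.cons (.br (nat_lit 7) (nat_lit 0) (.cons (.rf (nat_lit 4165) (nat_lit 493858305440582043680)) (.cons (.rf (nat_lit 4172) (nat_lit 493858305440582043680)) (.cons (.rf (nat_lit 4176) (nat_lit 493858305440582043680)) (.cons (.rf (nat_lit 4182) (nat_lit 493858305440582043680)) .nil))))) .nil)))))) .nil))))),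
 (.br (nat_lit 4) (nat_lit 1) (.cons (.ev (nat_lit 72057598349672449) (nat_lit 1)) (.cons (.br (nat_lit 11) (nat_lit 1) (.cons (.br (nat_lit 13) (nat_lit 0) (.cons (.br (nat_lit 13) (nat_lit 0) (.cons (.rf (nat_lit 4095) (nat_lit 457935134042368542752)) .nil)) (.cons (.br (nat_lit 13) (nat_lit 0) (.cons (.rf (nat_lit 4095) (nat_lit 457935134042368542752)) .nil)) .nil))) (.cons (.rf (nat_lit 3784) (nat_lit 457935134042368542752)) .nil))) .nil))),
 (.br (nat_lit 8) (nat_lit 1) (.cons (.ev (nat_lit 1213666632842676336066561) (nat_lit 1)) .nil)),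
 (.br (nat_lit 9) (nat_lit 1) (.cons (.rf (nat_lit 3419) (nat_lit 493675700753833166880)) (.cons (.rf (nat_lit 4184) (nat_lit 493858305440582043680)) (.cons (.br (nat_lit 4) (nat_lit 1) (.cons (.br (nat_lit 2) (nat_lit 0) (.cons (.br (nat_lit 11) (nat_lit 1) (.cons (.rf (nat_lit 449) (nat_lit 14170864337220375776)) (.cons (.br (nat_lit 13) (nat_lit 0) (.cons (.br (nat_lit 7) (nat_lit 0) (.cons (.ev (nat_lit 1213648258436572129525761) (nat_lit 1)) .nil)) .nil)) .nil))) (.cons (.br (nat_lit 8) (nat_lit 1) (.cons (.br (nat_lit 10) (nat_lit 1) (.cons (.br (nat_lit 11) (nat_lit 1) (.cons (.zr (nat_lit 618970038089997161112731648) (nat_lit 1213648330212691207520257) (nat_lit 5) (nat_lit 10)) .nil)) .nil)) (.cons (.br (nat_lit 11) (nat_lit 1) (.cons (.br (nat_lit 10) (nat_lit 1) (.cons (.ev (nat_lit 20998574898119032528904862631176) (nat_lit 4)) .nil)) (.cons (.rf (nat_lit 4149) (nat_lit 493857210323783844928)) .nil))) .nil))) (.cons (.rf (nat_lit 4107) (nat_lit 493858305440447826080)) .nil))))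 (.cons (.ev (nat_lit 79228167236703160631732207873) (nat_lit 1)) (.cons (.br (nat_lit 10) (nat_lit 1) (.cons (.br (nat_lit 10) (nat_lit 1) (.cons (.ev (nat_lit 1213648258436572129525761) (nat_lit 1)) (.cons (.ev (nat_lit 20282410817299856804020559544321) (nat_lit 1)) .nil))) (.cons (.br (nat_lit 10) (nat_lit 1) (.cons (.ev (nat_lit 1213648258436572129525761) (nat_lit 1)) (.cons (.rf (nat_lit 4185) (nat_lit 493858305440582043680)) .nil))) (.cons (.br (nat_lit 10) (nat_lit 1) (.cons (.ev (nat_lit 20282410817299856804020559544321) (nat_lit 1)) (.cons (.rf (nat_lit 4185) (nat_lit 493858305440582043680)) .nil))) .nil)))) .nil)))) .nil)))),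
 (.br (nat_lit 2) (nat_lit 0) (.cons (.rf (nat_lit 3863) (nat_lit 455879410203775567904)) .nil)),
 (.br (nat_lit 13) (nat_lit 0) (.cons (.br (nat_lit 11) (nat_lit 1) (.cons (.rf (nat_lit 4187) (nat_lit 15433035725666355232)) (.cons (.ev (nat_lit 159075299807431339648777125890) (nat_lit 2)) (.cons (.rf (nat_lit 3691) (nat_lit 15430746547826034720)) .nil)))) (.cons (.br (nat_lit 10) (nat_lit 1) (.cons (.ev (nat_lit 20282410817299856804020559544321) (nat_lit 1)) (.cons (.rf (nat_lit 4025) (nat_lit 493679322542987380768)) (.cons (.br (nat_lit 2) (nat_lit 0) (.cons (.br (nat_lit 11) (nat_lit 1) (.cons (.ev (nat_lit 79537647542532427839784878081) (nat_lit 1)) .nil)) (.cons (.ev (nat_lit 2422574150393573165563906) (nat_lit 2)) .nil))) .nil)))) (.cons (.br (nat_lit 7) (nat_lit 0) (.cons (.rf (nat_lit 3691) (nat_lit 15430852097721075744)) (.cons (.br (nat_lit 10) (nat_lit 1) (.cons (.ev (nat_lit 1213648258436572129525761) (nat_lit 1)) (.cons (.rf (nat_lit 4046) (nat_lit 458010562733693797440))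 .nil))) .nil))) .nil)))),
 (.br (nat_lit 13) (nat_lit 0) (.cons (.rf (nat_lit 4188) (nat_lit 493858305440582043680)) (.cons (.br (nat_lit 2) (nat_lit 0) (.cons (.br (nat_lit 11) (nat_lit 1) (.cons (.ev (nat_lit 79537647542532427839784878081) (nat_lit 1)) (.cons (.br (nat_lit 1) (nat_lit 0) (.cons (.ev (nat_lit 20520098936453660294832984491268) (nat_lit 3)) .nil)) .nil))) (.cons (.rf (nat_lit 4025) (nat_lit 493679322542987380768)) (.cons (.ev (nat_lit 20361947251175756107709048422401) (nat_lit 1)) .nil)))) (.cons (.br (nat_lit 1) (nat_lit 0) (.cons (.rf (nat_lit 4187) (nat_lit 15425157724857534496)) (.cons (.rf (nat_lit 4149) (nat_lit 493857210323783845920)) .nil))) .nil)))),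
 (.br (nat_lit 13) (nat_lit 0) (.cons (.rf (nat_lit 4188) (nat_lit 493858305440582043680)) (.cons (.rf (nat_lit 4189) (nat_lit 493858305440582043680)) (.cons (.br (nat_lit 2) (nat_lit 0) (.cons (.br (nat_lit 1) (nat_lit 0) (.cons (.ev (nat_lit 79537647542532427839784878081) (nat_lit 1)) (.cons (.ev (nat_lit 20282410812577490320051419545601) (nat_lit 1)) .nil))) (.cons (.br (nat_lit 1) (nat_lit 0) (.cons (.ev (nat_lit 309489750634853487056257281) (nat_lit 1)) (.cons (.br (nat_lit 4) (nat_lit 1) (.cons (.ev (nat_lit 21313623356117799917555209405192) (nat_lit 4)) .nil)) .nil))) (.cons (.rf (nat_lit 4025) (nat_lit 493679322542987380768)) .nil)))) .nil)))),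
 (.br (nat_lit 9) (nat_lit 1) (.cons (.rf (nat_lit 3419) (nat_lit 493675700753833166880)) (.cons (.br (nat_lit 4) (nat_lit 1) (.cons (.rf (nat_lit 4046) (nat_lit 493823402543469922336)) (.cons (.ev (nat_lit 72057598349672449) (nat_lit 1)) (.cons (.br (nat_lit 1) (nat_lit 0) (.cons (.rf (nat_lit 4046) (nat_lit 493823398145427605536)) (.cons (.br (nat_lit 11) (nat_lit 1) (.cons (.rf (nat_lit 4135) (nat_lit 493858305268783356960)) (.cons (.rf (nat_lit 3784) (nat_lit 457935134042368541760)) .nil))) (.cons (.rf (nat_lit 4046) (nat_lit 493820020445710223392)) .nil)))) .nil)))) (.cons (.br (nat_lit 13) (nat_lit 0) (.cons (.rf (nat_lit 4188) (nat_lit 493858305440582043680)) (.cons (.rf (nat_lit 4189) (nat_lit 493858305440582043680)) (.cons (.rf (nat_lit 4190) (nat_lit 493858305440582043680)) (.cons (.br (nat_lit 13) (nat_lit 0) (.cons (.rf (nat_lit 4188) (nat_lit 493858305440582043680)) (.cons (.rf (nat_lit 4189) (nat_lit 493858305440582043680)) (.cons (.rf (nat_lit 4190) (nat_lit 493858305440582043680))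 .nil)))) .nil))))) .nil)))),
 (.br (nat_lit 10) (nat_lit 1) (.cons (.br (nat_lit 8) (nat_lit 1) (.cons (.br (nat_lit 13) (nat_lit 0) (.cons (.ev (nat_lit 79537647542532427839784878081) (nat_lit 1)) .nil)) (.cons (.ev (nat_lit 1213666632842676336066561) (nat_lit 1)) .nil))) .nil)),
 (.br (nat_lit 9) (nat_lit 1) (.cons (.rf (nat_lit 4184) (nat_lit 493858305440582043680)) (.cons (.rf (nat_lit 4191) (nat_lit 493858305440582043680)) (.cons (.br (nat_lit 4) (nat_lit 1) (.cons (.br (nat_lit 10) (nat_lit 1) (.cons (.rf (nat_lit 4192) (nat_lit 493858305440582043680)) (.cons (.br (nat_lit 10) (nat_lit 1) (.cons (.rf (nat_lit 4192) (nat_lit 493858305440582043680)) .nil)) .nil))) (.cons (.ev (nat_lit 72057598349672449) (nat_lit 1)) (.cons (.br (nat_lit 1) (nat_lit 0) (.cons (.ev (nat_lit 79228167236702879156738720001) (nat_lit 1)) (.cons (.br (nat_lit 10) (nat_lit 1) (.cons (.rf (nat_lit 3419) (nat_lit 493563215216757770272)) (.cons (.rf (nat_lit 4139) (nat_lit 493857210151985153248)) .nil))) (.cons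 (.br (nat_lit 2) (nat_lit 0) (.cons (.ev (nat_lit 79537647542532427839784878081) (nat_lit 1)) (.cons (.br (nat_lit 2) (nat_lit 0) (.cons (.ev (nat_lit 79537647542532427839784878081) (nat_lit 1)) .nil)) .nil))) .nil)))) .nil)))) .nil)))),
 (.br (nat_lit 9) (nat_lit 1) (.cons (.br (nat_lit 11) (nat_lit 1) (.cons (.br (nat_lit 8) (nat_lit 1) (.cons (.br (nat_lit 4) (nat_lit 1) (.cons (.ev (nat_lit 1208944266358707196067841) (nat_lit 1)) .nil)) .nil)) (.cons (.br (nat_lit 13) (nat_lit 0) (.cons (.rf (nat_lit 3784) (nat_lit 457935134042368541760)) (.cons (.rf (nat_lit 3784) (nat_lit 457822648505293146144)) .nil))) .nil))) (.cons (.br (nat_lit 13) (nat_lit 0) (.cons (.br (nat_lit 7) (nat_lit 0) (.cons (.kr (nat_lit 20361637766165934761540795236608) (nat_lit 4722438540463699918848) (nat_lit 1) (nat_lit 0)) (.cons (.br (nat_lit 8) (nat_lit 1) (.cons (.ev (nat_lit 79537652264970968299173052673) (nat_lit 1)) .nil)) .nil))) (.cons (.rf (nat_lit 3953) (nat_lit 457822648505293146144)) (.cons (.rf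 (nat_lit 3953) (nat_lit 457857653653768570912)) .nil)))) .nil))),
 (.br (nat_lit 9) (nat_lit 1) (.cons (.rf (nat_lit 4194) (nat_lit 493858305440582043680)) (.cons (.br (nat_lit 13) (nat_lit 0) (.cons (.br (nat_lit 8) (nat_lit 1) (.cons (.ev (nat_lit 20282409603670189507089992253441) (nat_lit 1)) .nil)) (.cons (.rf (nat_lit 3953) (nat_lit 457822648505293146144)) (.cons (.rf (nat_lit 3953) (nat_lit 457857653653768570912)) .nil)))) .nil))),
 (.br (nat_lit 11) (nat_lit 1) (.cons (.ev (nat_lit 20282720297605758409193853878273) (nat_lit 1)) .nil)),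
 (.br (nat_lit 9) (nat_lit 1) (.cons (.br (nat_lit 2) (nat_lit 0) (.cons (.br (nat_lit 8) (nat_lit 1) (.cons (.br (nat_lit 13) (nat_lit 0) (.cons (.zr (nat_lit 238303457562436265868035031808) (nat_lit 4840444091685477250236417) (nat_lit 5) (nat_lit 0)) .nil)) (.cons (.rf (nat_lit 4196) (nat_lit 493858305440582043680)) .nil))) (.cons (.br (nat_lit 13) (nat_lit 0) (.cons (.zr (nat_lit 20440865928680199102432874201344) (nat_lit 1213666633404526794637313) (nat_lit 5) (nat_lit 0)) (.cons (.ev (nat_lit 20361637766184381506714033192961) (nat_lit 1)) .nil))) (.cons (.br (nat_lit 4) (nat_lit 1) (.cons (.br (nat_lit 8) (nat_lit 1) (.cons (.ev (nat_lit 1208944266358707196067841) (nat_lit 1)) .nil)) (.cons (.rf (nat_lit 4127) (nat_lit 457935134042368541760)) .nil))) .nil)))) (.cons (.br (nat_lit 11) (nat_lit 1) (.cons (.br (nat_lit 4) (nat_lit 1) (.cons (.br (nat_lit 8) (nat_lit 1) (.cons (.ev (nat_lit 159075299807431339648777125890) (nat_lit 2)) .nil)) .nil)) (.cons (.br (nat_lit 4) (nat_lit 1)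 (.cons (.br (nat_lit 8) (nat_lit 1) (.cons (.ev (nat_lit 309485028340146740784005121) (nat_lit 1)) .nil)) (.cons (.kr (nat_lit 79228162514264338693055578112) (nat_lit 72339069014638592) (nat_lit 5) (nat_lit 0)) .nil))) .nil))) .nil))),
 (.br (nat_lit 9) (nat_lit 1) (.cons (.rf (nat_lit 4197) (nat_lit 493858305440582043680)) (.cons (.br (nat_lit 8) (nat_lit 1) (.cons (.br (nat_lit 7) (nat_lit 0) (.cons (.ev (nat_lit 20282409603670189507089992253441) (nat_lit 1)) (.cons (.rf (nat_lit 3651) (nat_lit 493823298087721994272)) .nil))) (.cons (.br (nat_lit 11) (nat_lit 1) (.cons (.br (nat_lit 4) (nat_lit 1) (.cons (.ev (nat_lit 20837625720790189518995625148676) (nat_lit 3)) .nil)) .nil)) .nil))) .nil))),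
 (.br (nat_lit 10) (nat_lit 1) (.cons (.rf (nat_lit 3419) (nat_lit 493563215216757770272)) (.cons (.br (nat_lit 9) (nat_lit 1) (.cons (.rf (nat_lit 4194) (nat_lit 493858305440582043680)) (.cons (.rf (nat_lit 4195) (nat_lit 493858305440582043680)) (.cons (.br (nat_lit 9) (nat_lit 1) (.cons (.rf (nat_lit 4194) (nat_lit 493858305440582043680)) (.cons (.rf (nat_lit 4195) (nat_lit 493858305440582043680)) .nil))) .nil)))) (.cons (.br (nat_lit 9) (nat_lit 1) (.cons (.rf (nat_lit 4197) (nat_lit 493858305440582043680)) (.cons (.rf (nat_lit 4198) (nat_lit 493858305440582043680)) (.cons (.br (nat_lit 9) (nat_lit 1) (.cons (.rf (nat_lit 4197) (nat_lit 493858305440582043680)) (.cons (.rf (nat_lit 4198) (nat_lit 493858305440582043680)) .nil))) .nil)))) .nil))))]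

theorem c155 : chkAll C T R L155 (nat_lit 4177) = true := by decide +kernel

theorem l155 : (nat_lit 4177) + L155.length = (nat_lit 4200) := by decide +kernel

/-- part of the certificates -/
def L156 : List Prf := [(.br (nat_lit 9) (nat_lit 1) (.cons (.rf (nat_lit 2725) (nat_lit 493823189240361814048)) (.cons (.br (nat_lit 8) (nat_lit 1) (.cons (.br (nat_lit 4) (nat_lit 1) (.cons (.ev (nat_lit 79229371458602754994272796673) (nat_lit 1)) .nil)) (.cons (.br (nat_lit 13) (nat_lit 0) (.cons (.br (nat_lit 2) (nat_lit 0) (.cons (.ev (nat_lit 20837009178066917893566451877636) (nat_lit 3)) .nil)) (.cons (.rf (nat_lit 3784) (nat_lit 457822648505293145152)) .nil))) .nil))) (.cons (.br (nat_lit 13) (nat_lit 0) (.cons (.br (nat_lit 8) (nat_lit 1) (.cons (.zr (nat_lit 20440865928680199102432874201344) (nat_lit 1213666633404526794637313) (nat_lit 5) (nat_lit 0)) (.cons (.br (nat_lit 2) (nat_lit 0) (.cons (.ev (nat_lit 79538856468352322844424732673) (nat_lit 1)) .nil)) .nil))) (.cons (.rf (nat_lit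 3953) (nat_lit 457822648505293145152)) (.cons (.rf (nat_lit 3953) (nat_lit 457857653653768569920)) .nil)))) .nil)))),
 (.br (nat_lit 9) (nat_lit 1) (.cons (.rf (nat_lit 2725) (nat_lit 493823189240361814048)) (.cons (.br (nat_lit 13) (nat_lit 0) (.cons (.rf (nat_lit 3912) (nat_lit 493821221112400414752)) (.cons (.rf (nat_lit 3912) (nat_lit 493821216714358097952)) (.cons (.rf (nat_lit 3912) (nat_lit 493821111161244977184)) .nil)))) (.cons (.rf (nat_lit 3577) (nat_lit 493678164756169590816)) .nil)))),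
 (.br (nat_lit 9) (nat_lit 1) (.cons (.rf (nat_lit 4200) (nat_lit 493858305440582043680)) (.cons (.rf (nat_lit 4201) (nat_lit 493858305440582043680)) (.cons (.br (nat_lit 13) (nat_lit 0) (.cons (.br (nat_lit 2) (nat_lit 0) (.cons (.ev (nat_lit 79229371458602754994272796673) (nat_lit 1)) (.cons (.br (nat_lit 8) (nat_lit 1) (.cons (.ev (nat_lit 79537647542532427839784878081) (nat_lit 1)) .nil)) .nil))) (.cons (.rf (nat_lit 3953) (nat_lit 457822648505293145152)) (.cons (.rf (nat_lit 3953) (nat_lit 457857653653768569920)) .nil)))) .nil)))),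
 (.br (nat_lit 9) (nat_lit 1) (.cons (.rf (nat_lit 2725) (nat_lit 493823189240361814048)) (.cons (.br (nat_lit 2) (nat_lit 0) (.cons (.br (nat_lit 13) (nat_lit 0) (.cons (.rf (nat_lit 3885) (nat_lit 457830530896636446752)) (.cons (.br (nat_lit 7) (nat_lit 0) (.cons (.zr (nat_lit 2417851855683515473461248) (nat_lit 309489750634574215397769217) (nat_lit 5) (nat_lit 8)) .nil)) .nil))) (.cons (.br (nat_lit 13) (nat_lit 0) (.cons (.ev (nat_lit 20361638975110201120243679559681) (nat_lit 1)) (.cons (.ev (nat_lit 20361637766184381506714033192961) (nat_lit 1)) .nil))) (.cons (.br (nat_lit 13) (nat_lit 0) (.cons (.rf (nat_lit 4183) (nat_lit 457935134042368542752)) (.cons (.rf (nat_lit 3885) (nat_lit 457822649604804741152)) .nil))) .nil)))) (.cons (.br (nat_lit 4) (nat_lit 1) (.cons (.br (nat_lit 11) (nat_lit 1) (.cons (.br (nat_lit 8) (nat_lit 1) (.cons (.ev (nat_lit 309485028340146740784005121) (nat_lit 1)) .nil)) .nil)) (.cons (.br (nat_lit 7) (nat_lit 0) (.cons (.br (nat_lit 11) (nat_lit 1)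 (.cons (.ev (nat_lit 79538856468352322844424732673) (nat_lit 1)) .nil)) (.cons (.kr (nat_lit 79228162514264338693055578112) (nat_lit 72339069014638592) (nat_lit 5) (nat_lit 0)) .nil))) .nil))) .nil)))),
 (.br (nat_lit 9) (nat_lit 1) (.cons (.rf (nat_lit 4203) (nat_lit 493858305440582043680)) (.cons (.rf (nat_lit 3577) (nat_lit 493677074040634837024)) (.cons (.br (nat_lit 4) (nat_lit 1) (.cons (.br (nat_lit 8) (nat_lit 1) (.cons (.ev (nat_lit 79229371458530977771404919041) (nat_lit 1)) (.cons (.br (nat_lit 2) (nat_lit 0) (.cons (.zr (nat_lit 2417851855683515473461248) (nat_lit 309489750634574215397769217) (nat_lit 5) (nat_lit 8)) .nil)) .nil))) (.cons (.br (nat_lit 11) (nat_lit 1) (.cons (.br (nat_lit 7) (nat_lit 0) (.cons (.zr (nat_lit 2417851855683515473461248) (nat_lit 309489750634574215397769217) (nat_lit 5) (nat_lit 8)) .nil)) (.cons (.rf (nat_lit 3917) (nat_lit 493821221112400414752)) .nil))) (.cons (.br (nat_lit 2) (nat_lit 0) (.cons (.ev (nat_lit 20282409603670189507089992253441)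 (nat_lit 1)) (.cons (.rf (nat_lit 3917) (nat_lit 493820974821803132960)) .nil))) .nil)))) .nil)))),
 (.br (nat_lit 10) (nat_lit 1) (.cons (.rf (nat_lit 3419) (nat_lit 493563215216757770272)) (.cons (.br (nat_lit 9) (nat_lit 1) (.cons (.rf (nat_lit 4200) (nat_lit 493858305440582043680)) (.cons (.rf (nat_lit 4201) (nat_lit 493858305440582043680)) (.cons (.rf (nat_lit 4202) (nat_lit 493858305440582043680)) (.cons (.br (nat_lit 9) (nat_lit 1) (.cons (.rf (nat_lit 4200) (nat_lit 493858305440582043680)) (.cons (.rf (nat_lit 3577) (nat_lit 493678164756169590816)) (.cons (.rf (nat_lit 4202) (nat_lit 493858305440582043680)) .nil)))) .nil))))) (.cons (.br (nat_lit 9) (nat_lit 1) (.cons (.rf (nat_lit 4203) (nat_lit 493858305440582043680)) (.cons (.br (nat_lit 1) (nat_lit 0) (.cons (.rf (nat_lit 3863) (nat_lit 493781814619955890208)) (.cons (.rf (nat_lit 3863) (nat_lit 493781810221913573408)) (.cons (.rf (nat_lit 2725) (nat_lit 493823189240361814048)) (.cons (.rf (nat_lit 3863) (nat_lit 493781704668800452640))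 .nil))))) (.cons (.rf (nat_lit 4204) (nat_lit 493858305440582043680)) (.cons (.br (nat_lit 9) (nat_lit 1) (.cons (.rf (nat_lit 4203) (nat_lit 493858305440582043680)) (.cons (.rf (nat_lit 4025) (nat_lit 493679322542987380768)) (.cons (.rf (nat_lit 4204) (nat_lit 493858305440582043680)) .nil)))) .nil))))) .nil)))),
 (.br (nat_lit 2) (nat_lit 0) (.cons (.br (nat_lit 13) (nat_lit 0) (.cons (.br (nat_lit 7) (nat_lit 0) (.cons (.br (nat_lit 11) (nat_lit 1) (.cons (.ev (nat_lit 20520096537454161726291488998660) (nat_lit 3)) .nil)) (.cons (.br (nat_lit 9) (nat_lit 1) (.cons (.zr (nat_lit 618970019642693435984642048) (nat_lit 1213666633123051817926657) (nat_lit 5) (nat_lit 0)) .nil)) .nil))) (.cons (.ev (nat_lit 20361637766184381506714033192961) (nat_lit 1)) .nil))) (.cons (.br (nat_lit 1) (nat_lit 0) (.cons (.br (nat_lit 11) (nat_lit 1) (.cons (.br (nat_lit 9) (nat_lit 1) (.cons (.zr (nat_lit 216735732067401728) (nat_lit 310698676454186645565997057) (nat_lit 5) (nat_lit 0)) .nil)) (.cons (.ev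 (nat_lit 79537647542532427839784878081) (nat_lit 1)) .nil))) (.cons (.rf (nat_lit 3419) (nat_lit 493675700753833166880)) (.cons (.br (nat_lit 13) (nat_lit 0) (.cons (.ev (nat_lit 79537647542532427839784878081) (nat_lit 1)) (.cons (.br (nat_lit 8) (nat_lit 1) (.cons (.ev (nat_lit 79229376180897461740578603265) (nat_lit 1)) .nil)) .nil))) .nil)))) (.cons (.br (nat_lit 1) (nat_lit 0) (.cons (.br (nat_lit 7) (nat_lit 0) (.cons (.br (nat_lit 9) (nat_lit 1) (.cons (.zr (nat_lit 216735732067401728) (nat_lit 310698676454186645565997057) (nat_lit 5) (nat_lit 0)) .nil)) .nil)) (.cons (.br (nat_lit 8) (nat_lit 1) (.cons (.ev (nat_lit 309485028268371716939514113) (nat_lit 1)) (.cons (.br (nat_lit 9) (nat_lit 1) (.cons (.zr (nat_lit 216735732067401728) (nat_lit 310698676454186645565997057) (nat_lit 5) (nat_lit 0)) .nil)) .nil))) .nil))) .nil)))),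
 (.br (nat_lit 2) (nat_lit 0) (.cons (.rf (nat_lit 4206) (nat_lit 493858305440582043680)) (.cons (.br (nat_lit 9) (nat_lit 1) (.cons (.rf (nat_lit 3419) (nat_lit 493675700753833166880)) (.cons (.br (nat_lit 4) (nat_lit 1) (.cons (.ev (nat_lit 18518801667764322561) (nat_lit 1)) (.cons (.br (nat_lit 11) (nat_lit 1) (.cons (.ev (nat_lit 79537647542532427839784878081) (nat_lit 1)) .nil)) .nil))) (.cons (.br (nat_lit 7) (nat_lit 0) (.cons (.ev (nat_lit 20440865938161898176876459982850) (nat_lit 2)) (.cons (.ev (nat_lit 20361947255916641673721401114625) (nat_lit 1)) .nil))) .nil)))) (.cons (.br (nat_lit 7) (nat_lit 0) (.cons (.br (nat_lit 9) (nat_lit 1) (.cons (.kr (nat_lit 79228162514264337593543950592) (nat_lit 4295032832) (nat_lit 1) (nat_lit 0)) (.cons (.ev (nat_lit 20758399966682831444925435215876) (nat_lit 3)) .nil))) (.cons (.br (nat_lit 9) (nat_lit 1) (.cons (.ev (nat_lit 79229376180897180265585115393) (nat_lit 1)) (.cons (.ev (nat_lit 20361947255916641673721401114625) (nat_lit 1))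 .nil))) .nil))) .nil)))),
 (.br (nat_lit 7) (nat_lit 0) (.cons (.kr (nat_lit 20361637766165934762640306864384) (nat_lit 72620543991414784) (nat_lit 1) (nat_lit 0)) .nil)),
 (.br (nat_lit 2) (nat_lit 0) (.cons (.rf (nat_lit 4206) (nat_lit 493858305440582043680)) (.cons (.rf (nat_lit 4207) (nat_lit 493858305440582043680)) (.cons (.br (nat_lit 1) (nat_lit 0) (.cons (.br (nat_lit 8) (nat_lit 1) (.cons (.ev (nat_lit 309485028268371716939514113) (nat_lit 1)) (.cons (.ev (nat_lit 1208944266358707196067841) (nat_lit 1)) .nil))) (.cons (.br (nat_lit 13) (nat_lit 0) (.cons (.ev (nat_lit 1208944266358707196067841) (nat_lit 1)) (.cons (.rf (nat_lit 4208) (nat_lit 493858305440582043680)) .nil))) (.cons (.rf (nat_lit 3419) (nat_lit 493675700753833166880)) .nil)))) .nil)))),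
 (.br (nat_lit 10) (nat_lit 1) (.cons (.rf (nat_lit 4199) (nat_lit 493858305440582043680)) (.cons (.rf (nat_lit 4205) (nat_lit 493858305440582043680)) (.cons (.br (nat_lit 2) (nat_lit 0) (.cons (.rf (nat_lit 4206) (nat_lit 493858305440582043680)) (.cons (.rf (nat_lit 4207) (nat_lit 493858305440582043680)) (.cons (.rf (nat_lit 4209) (nat_lit 493858305440582043680)) (.cons (.br (nat_lit 2) (nat_lit 0) (.cons (.rf (nat_lit 4206) (nat_lit 493858305440582043680)) (.cons (.rf (nat_lit 4207) (nat_lit 493858305440582043680)) (.cons (.rf (nat_lit 4209) (nat_lit 493858305440582043680)) .nil)))) .nil))))) .nil)))),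
 (.br (nat_lit 6) (nat_lit 1) (.cons (.rf (nat_lit 4127) (nat_lit 493858305440582043680)) (.cons (.rf (nat_lit 4183) (nat_lit 493858305440582043680)) (.cons (.br (nat_lit 9) (nat_lit 1) (.cons (.rf (nat_lit 4186) (nat_lit 493858305440582043680)) (.cons (.rf (nat_lit 4191) (nat_lit 493858305440582043680)) (.cons (.rf (nat_lit 4193) (nat_lit 493858305440582043680)) (.cons (.br (nat_lit 9) (nat_lit 1) (.cons (.rf (nat_lit 4186) (nat_lit 493858305440582043680)) (.cons (.rf (nat_lit 4191) (nat_lit 493858305440582043680)) (.cons (.rf (nat_lit 4193) (nat_lit 493858305440582043680)) .nil)))) .nil))))) (.cons (.br (nat_lit 10) (nat_lit 1) (.cons (.rf (nat_lit 4199) (nat_lit 493858305440582043680)) (.cons (.rf (nat_lit 4205) (nat_lit 493858305440582043680)) (.cons (.rf (nat_lit 4210) (nat_lit 493858305440582043680)) (.cons (.br (nat_lit 10) (nat_lit 1) (.cons (.rf (nat_lit 4199) (nat_lit 493858305440582043680)) (.cons (.rf (nat_lit 4205) (nat_lit 493858305440582043680)) (.cons (.rf (nat_lit 4210)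 (nat_lit 493858305440582043680)) .nil)))) .nil))))) .nil))))),
 (.br (nat_lit 9) (nat_lit 1) (.cons (.rf (nat_lit 3784) (nat_lit 493675700753833165888)) (.cons (.br (nat_lit 13) (nat_lit 0) (.cons (.br (nat_lit 2) (nat_lit 0) (.cons (.ev (nat_lit 79230585143611126367631115010) (nat_lit 2)) (.cons (.br (nat_lit 8) (nat_lit 1) (.cons (.ev (nat_lit 20520720314769239995119143552260) (nat_lit 3)) .nil)) .nil))) (.cons (.rf (nat_lit 3953) (nat_lit 457822648505293146144)) (.cons (.ev (nat_lit 20361638979814192916633653084161) (nat_lit 1)) .nil)))) .nil))),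
 (.br (nat_lit 9) (nat_lit 1) (.cons (.rf (nat_lit 3784) (nat_lit 493675700753833165888)) (.cons (.br (nat_lit 8) (nat_lit 1) (.cons (.br (nat_lit 11) (nat_lit 1) (.cons (.br (nat_lit 4) (nat_lit 1) (.cons (.ev (nat_lit 20678552862519870991903217615620) (nat_lit 3)) .nil)) (.cons (.rf (nat_lit 3953) (nat_lit 457857653653768570912)) .nil))) (.cons (.ev (nat_lit 20282410817299856521446087983361) (nat_lit 1)) .nil))) .nil))),
 (.br (nat_lit 9) (nat_lit 1) (.cons (.br (nat_lit 13) (nat_lit 0) (.cons (.br (nat_lit 2) (nat_lit 0) (.cons (.ev (nat_lit 21473934173390223252392656964872) (nat_lit 4)) .nil)) (.cons (.ev (nat_lit 309489750634573111607951361) (nat_lit 1)) .nil))) (.cons (.br (nat_lit 11) (nat_lit 1) (.cons (.ev (nat_lit 20361947251175756107709048422401) (nat_lit 1)) (.cons (.ev (nat_lit 309489750634573111607951361) (nat_lit 1)) .nil))) .nil))),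
 (.br (nat_lit 10) (nat_lit 1) (.cons (.rf (nat_lit 3419) (nat_lit 493563215216757770272)) (.cons (.rf (nat_lit 3784) (nat_lit 493563215216757770272)) (.cons (.br (nat_lit 9) (nat_lit 1) (.cons (.rf (nat_lit 4212) (nat_lit 493858305440582043680)) (.cons (.rf (nat_lit 4213) (nat_lit 493858305440582043680)) (.cons (.br (nat_lit 9) (nat_lit 1) (.cons (.rf (nat_lit 4212) (nat_lit 493858305440582043680)) (.cons (.rf (nat_lit 4213) (nat_lit 493858305440582043680)) .nil))) .nil)))) (.cons (.br (nat_lit 8) (nat_lit 1) (.cons (.br (nat_lit 13) (nat_lit 0) (.cons (.br (nat_lit 2) (nat_lit 0) (.cons (.br (nat_lit 5) (nat_lit 0) (.cons (.ev (nat_lit 20282410817299856804020559544321) (nat_lit 1)) (.cons (.br (nat_lit 9) (nat_lit 1) (.cons (.ev (nat_lit 80157854932875506056714913028) (nat_lit 3)) .nil)) .nil))) (.cons (.br (nat_lit 5) (nat_lit 0) (.cons (.br (nat_lit 7) (nat_lit 0) (.cons (.ev (nat_lit 20679790802559157502493183116036) (nat_lit 3)) .nil)) .nil)) .nil))) (.cons (.br (nat_lit 7) (nat_lit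 0) (.cons (.br (nat_lit 2) (nat_lit 0) (.cons (.br (nat_lit 5) (nat_lit 0) (.cons (.ev (nat_lit 79847146756347555193634751234) (nat_lit 2)) .nil)) (.cons (.br (nat_lit 5) (nat_lit 0) (.cons (.ev (nat_lit 20680407326392960942445005439748) (nat_lit 3)) .nil)) .nil))) (.cons (.br (nat_lit 4) (nat_lit 1) (.cons (.ev (nat_lit 72057598349672449) (nat_lit 1)) (.cons (.ev (nat_lit 20361637770906820046082499674113) (nat_lit 1)) .nil))) (.cons (.br (nat_lit 9) (nat_lit 1) (.cons (.zr (nat_lit 61084913298497948399810461631232) (nat_lit 929668714543902327423631361) (nat_lit 5) (nat_lit 0)) (.cons (.br (nat_lit 2) (nat_lit 0) (.cons (.ev (nat_lit 20680407345208351662854549604100) (nat_lit 3)) .nil)) .nil))) .nil)))) (.cons (.br (nat_lit 5) (nat_lit 0) (.cons (.br (nat_lit 7) (nat_lit 0) (.cons (.br (nat_lit 2) (nat_lit 0) (.cons (.ev (nat_lit 1213648186098598331613441) (nat_lit 1)) .nil)) .nil)) (.cons (.br (nat_lit 2) (nat_lit 0) (.cons (.ev (nat_lit 20361637766165934762644618674433) (nat_lit 1))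 (.cons (.rf (nat_lit 3784) (nat_lit 493675700753833165888)) .nil))) .nil))) .nil)))) (.cons (.br (nat_lit 9) (nat_lit 1) (.cons (.rf (nat_lit 4214) (nat_lit 493858305440582043680)) (.cons (.br (nat_lit 9) (nat_lit 1) (.cons (.rf (nat_lit 4214) (nat_lit 493858305440582043680)) (.cons (.kr (nat_lit 4740813226943354765312) (nat_lit 20361637766165934761540795236352) (nat_lit 8) (nat_lit 0)) .nil))) (.cons (.br (nat_lit 9) (nat_lit 1) (.cons (.rf (nat_lit 4214) (nat_lit 493858305440582043680)) (.cons (.kr (nat_lit 4740813226943354765312) (nat_lit 20361637766165934761540795236352) (nat_lit 8) (nat_lit 0)) .nil))) .nil)))) (.cons (.br (nat_lit 9) (nat_lit 1) (.cons (.br (nat_lit 9) (nat_lit 1) (.cons (.rf (nat_lit 3784) (nat_lit 493675700753833165888)) (.cons (.rf (nat_lit 4180) (nat_lit 493745753936025978912)) .nil))) (.cons (.br (nat_lit 9) (nat_lit 1) (.cons (.rf (nat_lit 3784) (nat_lit 493675700753833165888)) (.cons (.kr (nat_lit 4740813226943354765312) (nat_lit 20361637766165934761540795236352)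 (nat_lit 8) (nat_lit 0)) .nil))) (.cons (.br (nat_lit 9) (nat_lit 1) (.cons (.rf (nat_lit 4180) (nat_lit 493745753936025978912)) (.cons (.kr (nat_lit 4740813226943354765312) (nat_lit 20361637766165934761540795236352) (nat_lit 8) (nat_lit 0)) .nil))) .nil)))) (.cons (.ev (nat_lit 20282409603651670705422227996929) (nat_lit 1)) .nil))))) .nil))))),
 (.br (nat_lit 9) (nat_lit 1) (.cons (.rf (nat_lit 3419) (nat_lit 493675700753833166880)) (.cons (.rf (nat_lit 3784) (nat_lit 493675700753833166880)) (.cons (.br (nat_lit 13) (nat_lit 0) (.cons (.br (nat_lit 11) (nat_lit 1) (.cons (.br (nat_lit 5) (nat_lit 0) (.cons (.ev (nat_lit 79538856468352322844424732673) (nat_lit 1)) .nil)) (.cons (.br (nat_lit 2) (nat_lit 0) (.cons (.ev (nat_lit 309489750706629610412507393) (nat_lit 1)) .nil)) .nil))) (.cons (.ev (nat_lit 20282409603651670705422227996929) (nat_lit 1)) (.cons (.ev (nat_lit 20361638979814192916633653084161) (nat_lit 1)) .nil)))) .nil)))),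
 (.br (nat_lit 9) (nat_lit 1) (.cons (.rf (nat_lit 3419) (nat_lit 493675700753833166880)) (.cons (.rf (nat_lit 3784) (nat_lit 493675700753833165888)) (.cons (.br (nat_lit 13) (nat_lit 0) (.cons (.br (nat_lit 5) (nat_lit 0) (.cons (.br (nat_lit 11) (nat_lit 1) (.cons (.ev (nat_lit 313121250460744302280770050) (nat_lit 2)) .nil)) (.cons (.br (nat_lit 8) (nat_lit 1) (.cons (.ev (nat_lit 309489750706629610412507393) (nat_lit 1)) .nil)) .nil))) (.cons (.rf (nat_lit 3953) (nat_lit 457822648505293145152)) (.cons (.rf (nat_lit 3953) (nat_lit 457857653653768569920)) .nil)))) .nil)))),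
 (.br (nat_lit 9) (nat_lit 1) (.cons (.rf (nat_lit 3784) (nat_lit 493675700753833166880)) (.cons (.rf (nat_lit 3784) (nat_lit 493675700753833165888)) (.cons (.br (nat_lit 13) (nat_lit 0) (.cons (.br (nat_lit 8) (nat_lit 1) (.cons (.rf (nat_lit 3505) (nat_lit 457830600165866931264)) (.cons (.ev (nat_lit 79229371458602754994272796673) (nat_lit 1)) .nil))) (.cons (.rf (nat_lit 3953) (nat_lit 457822648505293145152)) (.cons (.rf (nat_lit 3953) (nat_lit 457857653653768569920)) .nil)))) .nil))))]

theorem c156 : chkAll C T R L156 (nat_lit 4200) = true := by decide +kernel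

theorem l156 : (nat_lit 4200) + L156.length = (nat_lit 4219) := by decide +kernel

/-- part of the certificates -/
def L157 : List Prf := [(.br (nat_lit 10) (nat_lit 1) (.cons (.rf (nat_lit 3419) (nat_lit 493563215216757770272)) (.cons (.rf (nat_lit 3784) (nat_lit 493563215216757769280)) (.cons (.br (nat_lit 9) (nat_lit 1) (.cons (.rf (nat_lit 4216) (nat_lit 493858305440582043680)) (.cons (.rf (nat_lit 4217) (nat_lit 493858305440582043680)) (.cons (.rf (nat_lit 4218) (nat_lit 493858305440582043680)) (.cons (.br (nat_lit 9) (nat_lit 1) (.cons (.rf (nat_lit 4216) (nat_lit 493858305440582043680)) (.cons (.rf (nat_lit 4217) (nat_lit 493858305440582043680)) (.cons (.rf (nat_lit 4218) (nat_lit 493858305440582043680)) .nil)))) .nil))))) (.cons (.br (nat_lit 5) (nat_lit 0) (.cons (.br (nat_lit 13) (nat_lit 0) (.cons (.br (nat_lit 2) (nat_lit 0) (.cons (.br (nat_lit 1) (nat_lit 0) (.cons (.ev (nat_lit 1213648186378973813473281) (nat_lit 1)) (.cons (.rf (nat_lit 3762) (nat_lit 493675700753833165888))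 .nil))) (.cons (.br (nat_lit 7) (nat_lit 0) (.cons (.br (nat_lit 1) (nat_lit 0) (.cons (.zr (nat_lit 2417851855402049053327360) (nat_lit 1237944780098888693247377409) (nat_lit 5) (nat_lit 0)) .nil)) .nil)) .nil))) (.cons (.br (nat_lit 7) (nat_lit 0) (.cons (.br (nat_lit 2) (nat_lit 0) (.cons (.ev (nat_lit 79230585143610848191206064130) (nat_lit 2)) (.cons (.ev (nat_lit 79538856468352322844424732673) (nat_lit 1)) .nil))) (.cons (.br (nat_lit 8) (nat_lit 1) (.cons (.br (nat_lit 2) (nat_lit 0) (.cons (.zr (nat_lit 2417851855402049053327360) (nat_lit 1237944780098888693247377409) (nat_lit 5) (nat_lit 0)) .nil)) (.cons (.ev (nat_lit 20361637770906820046082499674113) (nat_lit 1)) .nil))) (.cons (.br (nat_lit 1) (nat_lit 0) (.cons (.br (nat_lit 9) (nat_lit 1) (.cons (.ev (nat_lit 20680414579837342843933038936836) (nat_lit 3)) .nil)) (.cons (.br (nat_lit 2) (nat_lit 0) (.cons (.ev (nat_lit 20680414579837342843933038936836) (nat_lit 3)) .nil)) .nil))) .nil)))) (.cons (.br (nat_lit 1) (nat_lit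 0) (.cons (.br (nat_lit 7) (nat_lit 0) (.cons (.br (nat_lit 2) (nat_lit 0) (.cons (.zr (nat_lit 2422592668628983851515904) (nat_lit 158765810038350301735084490753) (nat_lit 5) (nat_lit 6)) .nil)) .nil)) (.cons (.br (nat_lit 9) (nat_lit 1) (.cons (.ev (nat_lit 1213648186378973813473281) (nat_lit 1)) (.cons (.ev (nat_lit 20361638979814192916633653084161) (nat_lit 1)) .nil))) .nil))) .nil)))) (.cons (.ev (nat_lit 79229371458530697395956613121) (nat_lit 1)) (.cons (.br (nat_lit 9) (nat_lit 1) (.cons (.rf (nat_lit 3784) (nat_lit 493675700753833166880)) (.cons (.rf (nat_lit 3784) (nat_lit 493675700753833165888)) (.cons (.br (nat_lit 2) (nat_lit 0) (.cons (.ev (nat_lit 72057598349672449) (nat_lit 1)) (.cons (.br (nat_lit 13) (nat_lit 0) (.cons (.ev (nat_lit 20361638975110201120243679559681) (nat_lit 1)) (.cons (.br (nat_lit 1) (nat_lit 0) (.cons (.ev (nat_lit 79537675932431851863341729028) (nat_lit 3)) .nil)) .nil))) (.cons (.br (nat_lit 1) (nat_lit 0) (.cons (.ev (nat_lit 309485009893402662779552001)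 (nat_lit 1)) (.cons (.br (nat_lit 13) (nat_lit 0) (.cons (.ev (nat_lit 79850768811655244572992209154) (nat_lit 2)) .nil)) .nil))) .nil)))) (.cons (.br (nat_lit 8) (nat_lit 1) (.cons (.br (nat_lit 4) (nat_lit 1) (.cons (.br (nat_lit 7) (nat_lit 0) (.cons (.ev (nat_lit 20837016478771428589862910362376) (nat_lit 4)) .nil)) (.cons (.ev (nat_lit 72340172821233921) (nat_lit 1)) .nil))) (.cons (.br (nat_lit 7) (nat_lit 0) (.cons (.br (nat_lit 11) (nat_lit 1) (.cons (.ev (nat_lit 20520096537417412914083075917060) (nat_lit 3)) .nil)) (.cons (.ev (nat_lit 309485009893685237251112961) (nat_lit 1)) .nil))) (.cons (.kr (nat_lit 4740813226943354765312) (nat_lit 20361637766165934761540795236352) (nat_lit 8) (nat_lit 0)) .nil)))) .nil))))) (.cons (.br (nat_lit 1) (nat_lit 0) (.cons (.br (nat_lit 13) (nat_lit 0) (.cons (.ev (nat_lit 20361948460120022466416210870273) (nat_lit 1)) (.cons (.br (nat_lit 9) (nat_lit 1) (.cons (.ev (nat_lit 20282410817299856802921047916801) (nat_lit 1)) (.cons (.br (nat_lit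 2) (nat_lit 0) (.cons (.zr (nat_lit 9481626457185244610560) (nat_lit 314320713100085064712060929) (nat_lit 5) (nat_lit 0)) .nil)) .nil))) .nil))) (.cons (.br (nat_lit 7) (nat_lit 0) (.cons (.br (nat_lit 13) (nat_lit 0) (.cons (.br (nat_lit 2) (nat_lit 0) (.cons (.ev (nat_lit 20679171822983957827745730462468) (nat_lit 3)) .nil)) .nil)) (.cons (.br (nat_lit 4) (nat_lit 1) (.cons (.ev (nat_lit 72057598349672449) (nat_lit 1)) (.cons (.br (nat_lit 9) (nat_lit 1) (.cons (.zr (nat_lit 2422592668628983851515904) (nat_lit 158765810038350301735084490753) (nat_lit 5) (nat_lit 6)) .nil)) .nil))) .nil))) (.cons (.br (nat_lit 9) (nat_lit 1) (.cons (.ev (nat_lit 1213648186378973813473281) (nat_lit 1)) (.cons (.br (nat_lit 2) (nat_lit 0) (.cons (.ev (nat_lit 72057598349672449) (nat_lit 1)) (.cons (.ev (nat_lit 1208944338417396433813761) (nat_lit 1)) .nil))) (.cons (.br (nat_lit 4) (nat_lit 1) (.cons (.br (nat_lit 8) (nat_lit 1) (.cons (.zr (nat_lit 618970038089997161112731648) (nat_lit 1213648330212691207520257)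 (nat_lit 5) (nat_lit 10)) .nil)) (.cons (.br (nat_lit 8) (nat_lit 1) (.cons (.ev (nat_lit 20680414579837342843933038936836) (nat_lit 3)) .nil)) .nil))) .nil)))) .nil)))) .nil))))) .nil))))),
 (.br (nat_lit 9) (nat_lit 1) (.cons (.rf (nat_lit 3419) (nat_lit 493675700753833166880)) (.cons (.br (nat_lit 4) (nat_lit 1) (.cons (.ev (nat_lit 1213648258436572129525761) (nat_lit 1)) (.cons (.br (nat_lit 8) (nat_lit 1) (.cons (.br (nat_lit 11) (nat_lit 1) (.cons (.ev (nat_lit 20837625730197596083675168179460) (nat_lit 3)) .nil)) .nil)) .nil))) .nil))),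
 (.br (nat_lit 9) (nat_lit 1) (.cons (.rf (nat_lit 3419) (nat_lit 493675700753833166880)) (.cons (.br (nat_lit 4) (nat_lit 1) (.cons (.ev (nat_lit 1213648258436572129525761) (nat_lit 1)) (.cons (.br (nat_lit 1) (nat_lit 0) (.cons (.br (nat_lit 13) (nat_lit 0) (.cons (.ev (nat_lit 20838866069236091236966400852740) (nat_lit 3)) .nil)) (.cons (.br (nat_lit 8) (nat_lit 1) (.cons (.ev (nat_lit 22264361306363627592161012946192) (nat_lit 5)) .nil)) .nil))) (.cons (.br (nat_lit 11) (nat_lit 1) (.cons (.br (nat_lit 8) (nat_lit 1) (.cons (.ev (nat_lit 158769446279133534677478080514) (nat_lit 2)) .nil)) (.cons (.br (nat_lit 8) (nat_lit 1) (.cons (.ev (nat_lit 79537652264898909609935306753) (nat_lit 1)) .nil)) .nil))) .nil)))) .nil))),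
 (.br (nat_lit 9) (nat_lit 1) (.cons (.rf (nat_lit 3419) (nat_lit 493675700753833166880)) (.cons (.br (nat_lit 4) (nat_lit 1) (.cons (.ev (nat_lit 72057598349672449) (nat_lit 1)) (.cons (.br (nat_lit 11) (nat_lit 1) (.cons (.rf (nat_lit 4183) (nat_lit 457935134042368542752)) .nil)) .nil))) (.cons (.br (nat_lit 4) (nat_lit 1) (.cons (.br (nat_lit 8) (nat_lit 1) (.cons (.br (nat_lit 11) (nat_lit 1) (.cons (.ev (nat_lit 158457534009761424064966230530) (nat_lit 2)) .nil)) (.cons (.br (nat_lit 11) (nat_lit 1) (.cons (.ev (nat_lit 20679174221982879939932834825988) (nat_lit 3)) .nil)) .nil))) (.cons (.kr (nat_lit 2417851711286856682307584) (nat_lit 20440865928680199100233850814464) (nat_lit 4) (nat_lit 0)) .nil))) .nil)))),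
 (.br (nat_lit 9) (nat_lit 1) (.cons (.rf (nat_lit 3419) (nat_lit 493675700753833166880)) (.cons (.br (nat_lit 2) (nat_lit 0) (.cons (.ev (nat_lit 72057598349672449) (nat_lit 1)) (.cons (.br (nat_lit 4) (nat_lit 1) (.cons (.zr (nat_lit 79228162514408453881131500032) (nat_lit 4740813508426921410561) (nat_lit 5) (nat_lit 0)) (.cons (.br (nat_lit 11) (nat_lit 1) (.cons (.ev (nat_lit 80157826488139694418472076034) (nat_lit 2)) .nil)) .nil))) (.cons (.br (nat_lit 8) (nat_lit 1) (.cons (.ev (nat_lit 309489750634572012096323841) (nat_lit 1)) (.cons (.br (nat_lit 4) (nat_lit 1) (.cons (.zr (nat_lit 2417851855402040463196928) (nat_lit 309489750634853491368001537) (nat_lit 5) (nat_lit 0)) .nil)) .nil))) .nil)))) (.cons (.br (nat_lit 7) (nat_lit 0) (.cons (.kr (nat_lit 2417851711286856682307584) (nat_lit 20440865928680199100233850814464) (nat_lit 4) (nat_lit 0)) (.cons (.br (nat_lit 2) (nat_lit 0) (.cons (.ev (nat_lit 40644049792446951693886651695106) (nat_lit 2)) (.cons (.ev (nat_lit 20282410812596009122818661875713)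 (nat_lit 1)) .nil))) (.cons (.br (nat_lit 2) (nat_lit 0) (.cons (.br (nat_lit 1) (nat_lit 0) (.cons (.zr (nat_lit 1208925963730916762386432) (nat_lit 309494473001054881741537281) (nat_lit 5) (nat_lit 0)) .nil)) (.cons (.ev (nat_lit 309485009893685237251112961) (nat_lit 1)) .nil))) .nil)))) .nil)))),
 (.br (nat_lit 11) (nat_lit 1) (.cons (.br (nat_lit 2) (nat_lit 0) (.cons (.kr (nat_lit 2417851711286852387340544) (nat_lit 20361637766165934762640306929664) (nat_lit 1) (nat_lit 0)) .nil)) .nil)),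
 (.br (nat_lit 9) (nat_lit 1) (.cons (.rf (nat_lit 4222) (nat_lit 493858305440582043680)) (.cons (.rf (nat_lit 4223) (nat_lit 493858305440582043680)) (.cons (.br (nat_lit 4) (nat_lit 1) (.cons (.rf (nat_lit 4224) (nat_lit 493858305440582043680)) (.cons (.ev (nat_lit 72057598349672449) (nat_lit 1)) .nil))) .nil)))),
 (.br (nat_lit 10) (nat_lit 1) (.cons (.rf (nat_lit 3784) (nat_lit 493563215216757770272)) (.cons (.rf (nat_lit 3784) (nat_lit 493563215216757769280)) (.cons (.br (nat_lit 9) (nat_lit 1) (.cons (.rf (nat_lit 4220) (nat_lit 493858305440582043680)) (.cons (.rf (nat_lit 4221) (nat_lit 493858305440582043680)) (.cons (.br (nat_lit 9) (nat_lit 1) (.cons (.rf (nat_lit 4220) (nat_lit 493858305440582043680)) (.cons (.rf (nat_lit 4221) (nat_lit 493858305440582043680)) .nil))) .nil)))) (.cons (.br (nat_lit 9) (nat_lit 1) (.cons (.rf (nat_lit 4222) (nat_lit 493858305440582043680)) (.cons (.rf (nat_lit 4223) (nat_lit 493858305440582043680)) (.cons (.rf (nat_lit 4225) (nat_lit 493858305440582043680))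 (.cons (.br (nat_lit 9) (nat_lit 1) (.cons (.rf (nat_lit 4222) (nat_lit 493858305440582043680)) (.cons (.rf (nat_lit 4223) (nat_lit 493858305440582043680)) (.cons (.rf (nat_lit 4225) (nat_lit 493858305440582043680)) .nil)))) .nil))))) .nil))))),
 (.br (nat_lit 1) (nat_lit 0) (.cons (.br (nat_lit 5) (nat_lit 0) (.cons (.br (nat_lit 9) (nat_lit 1) (.cons (.rf (nat_lit 3784) (nat_lit 493675700753833165888)) (.cons (.rf (nat_lit 4224) (nat_lit 493857210327004973088)) .nil))) (.cons (.br (nat_lit 9) (nat_lit 1) (.cons (.ev (nat_lit 79228162514264622379990843906) (nat_lit 2)) (.cons (.ev (nat_lit 20441487316551698037940517077250) (nat_lit 2)) .nil))) .nil))) (.cons (.br (nat_lit 9) (nat_lit 1) (.cons (.rf (nat_lit 3419) (nat_lit 493675700753833166880)) (.cons (.ev (nat_lit 1213648258436572129525761) (nat_lit 1)) (.cons (.br (nat_lit 11) (nat_lit 1) (.cons (.ev (nat_lit 309485009893402662779552001) (nat_lit 1)) (.cons (.ev (nat_lit 20441175413690165123453540107010) (nat_lit 2)) .nil))) .nil))))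 (.cons (.br (nat_lit 5) (nat_lit 0) (.cons (.br (nat_lit 13) (nat_lit 0) (.cons (.br (nat_lit 2) (nat_lit 0) (.cons (.ev (nat_lit 79229376162522492686418641153) (nat_lit 1)) .nil)) .nil)) (.cons (.br (nat_lit 2) (nat_lit 0) (.cons (.br (nat_lit 13) (nat_lit 0) (.cons (.ev (nat_lit 20837009178066485552391580091140) (nat_lit 3)) .nil)) (.cons (.rf (nat_lit 3784) (nat_lit 493675700753833165888)) .nil))) .nil))) .nil)))),
 (.br (nat_lit 2) (nat_lit 0) (.cons (.rf (nat_lit 4227) (nat_lit 493858305440582043680)) (.cons (.br (nat_lit 9) (nat_lit 1) (.cons (.rf (nat_lit 3419) (nat_lit 493675700753833166880)) (.cons (.rf (nat_lit 3784) (nat_lit 493675700753833165888)) (.cons (.br (nat_lit 5) (nat_lit 0) (.cons (.ev (nat_lit 40644047384003223439067559624706) (nat_lit 2)) (.cons (.ev (nat_lit 20361947255916641673721401114625) (nat_lit 1)) .nil))) .nil)))) (.cons (.br (nat_lit 1) (nat_lit 0) (.cons (.br (nat_lit 5) (nat_lit 0) (.cons (.br (nat_lit 13) (nat_lit 0) (.cons (.ev (nat_lit 309489750634853487056257281)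 (nat_lit 1)) .nil)) .nil)) (.cons (.br (nat_lit 9) (nat_lit 1) (.cons (.ev (nat_lit 79538861209165271607076193026) (nat_lit 2)) (.cons (.br (nat_lit 4) (nat_lit 1) (.cons (.ev (nat_lit 20679171804168567107336186300164) (nat_lit 3)) .nil)) .nil))) .nil))) .nil)))),
 (.br (nat_lit 2) (nat_lit 0) (.cons (.rf (nat_lit 4227) (nat_lit 493858305440582043680)) (.cons (.rf (nat_lit 4228) (nat_lit 493858305440582043680)) (.cons (.br (nat_lit 9) (nat_lit 1) (.cons (.rf (nat_lit 3419) (nat_lit 493675700753833166880)) (.cons (.rf (nat_lit 3784) (nat_lit 493675700753833165888)) (.cons (.br (nat_lit 5) (nat_lit 0) (.cons (.br (nat_lit 1) (nat_lit 0) (.cons (.ev (nat_lit 20680414579837055735041567950596) (nat_lit 3)) .nil)) (.cons (.ev (nat_lit 20361947251175756107709048422401) (nat_lit 1)) .nil))) .nil)))) .nil)))),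
 (.br (nat_lit 10) (nat_lit 1) (.cons (.rf (nat_lit 4215) (nat_lit 493858305440582043680)) (.cons (.rf (nat_lit 4219) (nat_lit 493858305440582043680)) (.cons (.rf (nat_lit 4226) (nat_lit 493858305440582043680)) (.cons (.br (nat_lit 2) (nat_lit 0) (.cons (.rf (nat_lit 4227) (nat_lit 493858305440582043680)) (.cons (.rf (nat_lit 4228) (nat_lit 493858305440582043680)) (.cons (.rf (nat_lit 4229) (nat_lit 493858305440582043680)) (.cons (.br (nat_lit 2) (nat_lit 0) (.cons (.rf (nat_lit 4227) (nat_lit 493858305440582043680)) (.cons (.rf (nat_lit 4228) (nat_lit 493858305440582043680)) (.cons (.rf (nat_lit 4229) (nat_lit 493858305440582043680)) .nil)))) .nil))))) .nil))))),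
 (.br (nat_lit 6) (nat_lit 1) (.cons (.rf (nat_lit 4127) (nat_lit 493858305440582043680)) (.cons (.rf (nat_lit 4183) (nat_lit 493858305440582043680)) (.cons (.rf (nat_lit 4211) (nat_lit 493858305440582043680)) (.cons (.br (nat_lit 10) (nat_lit 1) (.cons (.rf (nat_lit 4215) (nat_lit 493858305440582043680)) (.cons (.rf (nat_lit 4219) (nat_lit 493858305440582043680)) (.cons (.rf (nat_lit 4226) (nat_lit 493858305440582043680)) (.cons (.rf (nat_lit 4230) (nat_lit 493858305440582043680)) (.cons (.br (nat_lit 10) (nat_lit 1) (.cons (.rf (nat_lit 4215) (nat_lit 493858305440582043680)) (.cons (.rf (nat_lit 4219) (nat_lit 493858305440582043680)) (.cons (.rf (nat_lit 4226) (nat_lit 493858305440582043680)) (.cons (.rf (nat_lit 4230) (nat_lit 493858305440582043680)) .nil))))) .nil)))))) .nil))))),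
 (.br (nat_lit 12) (nat_lit 0) (.cons (.rf (nat_lit 3784) (nat_lit 493858305440582043680)) (.cons (.rf (nat_lit 3953) (nat_lit 493858305440582043680)) (.cons (.rf (nat_lit 4095) (nat_lit 493858305440582043680)) (.cons (.br (nat_lit 6) (nat_lit 1) (.cons (.rf (nat_lit 4127) (nat_lit 493858305440582043680)) (.cons (.rf (nat_lit 4183) (nat_lit 493858305440582043680)) (.cons (.rf (nat_lit 4211) (nat_lit 493858305440582043680)) (.cons (.rf (nat_lit 4231) (nat_lit 493858305440582043680)) (.cons (.br (nat_lit 6) (nat_lit 1) (.cons (.rf (nat_lit 4127) (nat_lit 493858305440582043680)) (.cons (.rf (nat_lit 4183) (nat_lit 493858305440582043680)) (.cons (.rf (nat_lit 4211) (nat_lit 493858305440582043680)) (.cons (.rf (nat_lit 4231) (nat_lit 493858305440582043680)) .nil))))) .nil)))))) .nil))))),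
 (.br (nat_lit 10) (nat_lit 1) (.cons (.ev (nat_lit 1208944338416296922185729) (nat_lit 1)) (.cons (.br (nat_lit 11) (nat_lit 1) (.cons (.rf (nat_lit 3421) (nat_lit 493751241598560208928)) (.cons (.br (nat_lit 4) (nat_lit 1) (.cons (.ev (nat_lit 79229371440156292395539890433) (nat_lit 1)) (.cons (.br (nat_lit 9) (nat_lit 1) (.cons (.kr (nat_lit 20282409603688635969697298252032) (nat_lit 79230580365903567951438610432) (nat_lit 1) (nat_lit 0)) .nil)) .nil))) .nil))) .nil))),
 (.br (nat_lit 11) (nat_lit 1) (.cons (.rf (nat_lit 3421) (nat_lit 493751241598560208928)) (.cons (.br (nat_lit 4) (nat_lit 1) (.cons (.br (nat_lit 7) (nat_lit 0) (.cons (.ev (nat_lit 79228167255149622135231676673) (nat_lit 1)) (.cons (.ev (nat_lit 79229371458603036469266284545) (nat_lit 1)) .nil))) (.cons (.ev (nat_lit 309485028340428215743938561) (nat_lit 1)) (.cons (.br (nat_lit 2) (nat_lit 0) (.cons (.br (nat_lit 7) (nat_lit 0) (.cons (.ev (nat_lit 79540079579862808289979072770) (nat_lit 2)) .nil)) (.cons (.rf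 (nat_lit 3516) (nat_lit 493679253268392413216)) .nil))) .nil)))) .nil))),
 (.br (nat_lit 6) (nat_lit 1) (.cons (.br (nat_lit 11) (nat_lit 1) (.cons (.rf (nat_lit 3421) (nat_lit 493745788020886439968)) (.cons (.rf (nat_lit 4233) (nat_lit 493858305440582043680)) (.cons (.br (nat_lit 11) (nat_lit 1) (.cons (.rf (nat_lit 3421) (nat_lit 493745788020886439968)) (.cons (.rf (nat_lit 4233) (nat_lit 493858305440582043680)) .nil))) .nil)))) (.cons (.br (nat_lit 11) (nat_lit 1) (.cons (.rf (nat_lit 3425) (nat_lit 493745788020886439968)) (.cons (.rf (nat_lit 4234) (nat_lit 493858305440582043680)) (.cons (.br (nat_lit 11) (nat_lit 1) (.cons (.rf (nat_lit 3425) (nat_lit 493751241598560208928)) (.cons (.rf (nat_lit 4234) (nat_lit 493858305440582043680)) .nil))) .nil)))) .nil))),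
 (.br (nat_lit 7) (nat_lit 0) (.cons (.br (nat_lit 2) (nat_lit 0) (.cons (.br (nat_lit 13) (nat_lit 0) (.cons (.ev (nat_lit 20681662191394299646668947523336) (nat_lit 4)) .nil)) .nil)) (.cons (.br (nat_lit 2) (nat_lit 0) (.cons (.ev (nat_lit 1208925891672223229477121) (nat_lit 1)) (.cons (.br (nat_lit 13) (nat_lit 0) (.cons (.ev (nat_lit 20998574898267328744068677046024) (nat_lit 4)) .nil)) .nil))) .nil))),
 (.br (nat_lit 13) (nat_lit 0) (.cons (.rf (nat_lit 3350) (nat_lit 493779557318194893856)) (.cons (.ev (nat_lit 20361638975091754377269498347521) (nat_lit 1)) .nil)))]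

theorem c157 : chkAll C T R L157 (nat_lit 4219) = true := by decide +kernel

theorem l157 : (nat_lit 4219) + L157.length = (nat_lit 4238) := by decide +kernel

/-- part of the certificates -/
def L158 : List Prf := [(.br (nat_lit 6) (nat_lit 1) (.cons (.rf (nat_lit 4235) (nat_lit 493858305440582043680)) (.cons (.br (nat_lit 9) (nat_lit 1) (.cons (.br (nat_lit 7) (nat_lit 0) (.cons (.br (nat_lit 2) (nat_lit 0) (.cons (.ev (nat_lit 79228162514336677762070282241) (nat_lit 1)) (.cons (.ev (nat_lit 79228167255149622135231676673) (nat_lit 1)) .nil))) (.cons (.ev (nat_lit 79229376180969236760111349761) (nat_lit 1)) (.cons (.br (nat_lit 10) (nat_lit 1) (.cons (.ev (nat_lit 1208944338416296922185729) (nat_lit 1)) (.cons (.br (nat_lit 4) (nat_lit 1) (.cons (.br (nat_lit 11) (nat_lit 1) (.cons (.ev (nat_lit 20679169405132173918150261670660) (nat_lit 3)) .nil)) (.cons (.ev (nat_lit 79229371440156292395539890433) (nat_lit 1)) .nil))) .nil))) .nil)))) (.cons (.ev (nat_lit 79228162532783421835796545793)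 (nat_lit 1)) (.cons (.br (nat_lit 2) (nat_lit 0) (.cons (.rf (nat_lit 4236) (nat_lit 493858305440582043680)) (.cons (.rf (nat_lit 4237) (nat_lit 493858305440582043680)) (.cons (.br (nat_lit 2) (nat_lit 0) (.cons (.rf (nat_lit 4236) (nat_lit 493858305440582043680)) (.cons (.rf (nat_lit 4237) (nat_lit 493858305440582043680)) .nil))) .nil)))) .nil)))) .nil))),
 (.br (nat_lit 9) (nat_lit 1) (.cons (.br (nat_lit 13) (nat_lit 0) (.cons (.kr (nat_lit 79228171958997304432346005760) (nat_lit 20282409603651742481549879214080) (nat_lit 1) (nat_lit 0)) .nil)) .nil)),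
 (.br (nat_lit 11) (nat_lit 1) (.cons (.rf (nat_lit 3830) (nat_lit 493856055839791613984)) (.cons (.br (nat_lit 10) (nat_lit 1) (.cons (.rf (nat_lit 4239) (nat_lit 493858305440582043680)) (.cons (.br (nat_lit 7) (nat_lit 0) (.cons (.br (nat_lit 13) (nat_lit 0) (.cons (.ev (nat_lit 20838866078607182471879735969028) (nat_lit 3)) .nil)) (.cons (.br (nat_lit 13) (nat_lit 0) (.cons (.ev (nat_lit 20361637766276976082409411248900) (nat_lit 3)) .nil)) .nil))) .nil))) .nil))),
 (.br (nat_lit 11) (nat_lit 1) (.cons (.rf (nat_lit 3830) (nat_lit 493856055839791613984)) (.cons (.br (nat_lit 9) (nat_lit 1) (.cons (.ev (nat_lit 4722438540463699984641) (nat_lit 1)) (.cons (.br (nat_lit 13) (nat_lit 0) (.cons (.rf (nat_lit 3802) (nat_lit 493853804042125412384)) (.cons (.br (nat_lit 2) (nat_lit 0) (.cons (.ev (nat_lit 310693935641241177171230721) (nat_lit 1)) .nil)) .nil))) .nil))) .nil))),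
 (.br (nat_lit 11) (nat_lit 1) (.cons (.rf (nat_lit 3784) (nat_lit 493565395547242988608)) (.cons (.br (nat_lit 9) (nat_lit 1) (.cons (.ev (nat_lit 309485028268090241946026241) (nat_lit 1)) (.cons (.br (nat_lit 4) (nat_lit 1) (.cons (.br (nat_lit 10) (nat_lit 1) (.cons (.zr (nat_lit 36893491454544117760) (nat_lit 310698658007724042588520449) (nat_lit 5) (nat_lit 0)) .nil)) (.cons (.br (nat_lit 5) (nat_lit 0) (.cons (.ev (nat_lit 79538861172271781264912089345) (nat_lit 1)) .nil)) .nil))) .nil))) .nil))),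
 (.br (nat_lit 9) (nat_lit 1) (.cons (.br (nat_lit 10) (nat_lit 1) (.cons (.br (nat_lit 11) (nat_lit 1) (.cons (.br (nat_lit 4) (nat_lit 1) (.cons (.ev (nat_lit 20361640184091721823511785177860) (nat_lit 3)) .nil)) .nil)) .nil)) (.cons (.ev (nat_lit 79228167255077847111387054081) (nat_lit 1)) .nil))),
 (.br (nat_lit 13) (nat_lit 0) (.cons (.br (nat_lit 5) (nat_lit 0) (.cons (.ev (nat_lit 18447026648197890049) (nat_lit 1)) (.cons (.br (nat_lit 11) (nat_lit 1) (.cons (.rf (nat_lit 3784) (nat_lit 493565395547242988608)) (.cons (.br (nat_lit 2) (nat_lit 0) (.cons (.ev (nat_lit 158767028464243677283238347010) (nat_lit 2)) .nil)) .nil))) .nil))) (.cons (.rf (nat_lit 3784) (nat_lit 457864203446677407776)) (.cons (.rf (nat_lit 4232) (nat_lit 457864203446677407776)) .nil)))),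
 (.br (nat_lit 6) (nat_lit 1) (.cons (.br (nat_lit 11) (nat_lit 1) (.cons (.rf (nat_lit 4240) (nat_lit 493858305440582043680)) (.cons (.rf (nat_lit 4241) (nat_lit 493858305440582043680)) (.cons (.br (nat_lit 11) (nat_lit 1) (.cons (.rf (nat_lit 4240) (nat_lit 493858305440582043680)) (.cons (.rf (nat_lit 4241) (nat_lit 493858305440582043680)) .nil))) .nil)))) (.cons (.br (nat_lit 11) (nat_lit 1) (.cons (.rf (nat_lit 4242) (nat_lit 493858305440582043680)) (.cons (.rf (nat_lit 4243) (nat_lit 493858305440582043680)) (.cons (.br (nat_lit 11) (nat_lit 1) (.cons (.rf (nat_lit 4242) (nat_lit 493858305440582043680)) (.cons (.rf (nat_lit 4243) (nat_lit 493858305440582043680)) .nil))) .nil)))) (.cons (.br (nat_lit 13) (nat_lit 0) (.cons (.rf (nat_lit 4244) (nat_lit 493858305440582043680)) (.cons (.br (nat_lit 13) (nat_lit 0) (.cons (.rf (nat_lit 4244) (nat_lit 493858305440582043680)) (.cons (.rf (nat_lit 3784) (nat_lit 457864203446677407776)) (.cons (.rf (nat_lit 4232) (nat_lit 457864203446677407776))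 .nil)))) (.cons (.rf (nat_lit 3784) (nat_lit 457864203446677407776)) (.cons (.rf (nat_lit 4232) (nat_lit 457864203446677407776)) .nil))))) .nil)))),
 (.br (nat_lit 9) (nat_lit 1) (.cons (.ev (nat_lit 4722438540463699984641) (nat_lit 1)) (.cons (.br (nat_lit 11) (nat_lit 1) (.cons (.br (nat_lit 13) (nat_lit 0) (.cons (.rf (nat_lit 3554) (nat_lit 493679253268392413216)) (.cons (.br (nat_lit 4) (nat_lit 1) (.cons (.zr (nat_lit 618970038305606997601419264) (nat_lit 158457538676715054160884531713) (nat_lit 5) (nat_lit 6)) .nil)) .nil))) .nil)) .nil))),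
 (.br (nat_lit 13) (nat_lit 0) (.cons (.br (nat_lit 10) (nat_lit 1) (.cons (.br (nat_lit 2) (nat_lit 0) (.cons (.rf (nat_lit 3567) (nat_lit 493679253268392413216)) .nil)) (.cons (.kr (nat_lit 20282410812577490038580720959488) (nat_lit 79228167236631101938165874688) (nat_lit 4) (nat_lit 0)) .nil))) (.cons (.rf (nat_lit 3784) (nat_lit 457864203446677407776)) (.cons (.rf (nat_lit 4232) (nat_lit 457864203446677407776)) .nil)))),
 (.br (nat_lit 6) (nat_lit 1) (.cons (.rf (nat_lit 4245) (nat_lit 493858305440582043680)) (.cons (.br (nat_lit 11) (nat_lit 1) (.cons (.rf (nat_lit 4246) (nat_lit 493858305440582043680)) (.cons (.br (nat_lit 11) (nat_lit 1) (.cons (.rf (nat_lit 4246) (nat_lit 493858305440582043680)) .nil)) .nil))) (.cons (.br (nat_lit 13) (nat_lit 0) (.cons (.rf (nat_lit 4247) (nat_lit 493858305440582043680)) (.cons (.br (nat_lit 13) (nat_lit 0) (.cons (.rf (nat_lit 4247) (nat_lit 493858305440582043680)) (.cons (.rf (nat_lit 3784) (nat_lit 457864203446677407776)) (.cons (.rf (nat_lit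 4232) (nat_lit 457864203446677407776)) .nil)))) (.cons (.rf (nat_lit 3784) (nat_lit 457864203446677407776)) (.cons (.rf (nat_lit 4232) (nat_lit 457864203446677407776)) .nil))))) .nil)))),
 (.br (nat_lit 13) (nat_lit 0) (.cons (.br (nat_lit 10) (nat_lit 1) (.cons (.br (nat_lit 2) (nat_lit 0) (.cons (.br (nat_lit 11) (nat_lit 1) (.cons (.ev (nat_lit 20521951020143362412432304047876) (nat_lit 3)) .nil)) .nil)) (.cons (.ev (nat_lit 20520097722694433162360013193730) (nat_lit 2)) .nil))) (.cons (.rf (nat_lit 3784) (nat_lit 457864203446677407776)) (.cons (.rf (nat_lit 4232) (nat_lit 457864203446677407776)) .nil)))),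
 (.br (nat_lit 6) (nat_lit 1) (.cons (.rf (nat_lit 4245) (nat_lit 493858305440582043680)) (.cons (.rf (nat_lit 4248) (nat_lit 493858305440582043680)) (.cons (.br (nat_lit 13) (nat_lit 0) (.cons (.rf (nat_lit 4249) (nat_lit 493858305440582043680)) (.cons (.br (nat_lit 13) (nat_lit 0) (.cons (.rf (nat_lit 4249) (nat_lit 493858305440582043680)) (.cons (.rf (nat_lit 3784) (nat_lit 457864203446677407776)) (.cons (.rf (nat_lit 4232) (nat_lit 457864203446677407776)) .nil)))) (.cons (.rf (nat_lit 3784) (nat_lit 457864203446677407776)) (.cons (.rf (nat_lit 4232) (nat_lit 457864203446677407776)) .nil))))) .nil)))),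
 (.br (nat_lit 13) (nat_lit 0) (.cons (.br (nat_lit 7) (nat_lit 0) (.cons (.br (nat_lit 5) (nat_lit 0) (.cons (.ev (nat_lit 20282409608374108965510446055681) (nat_lit 1)) (.cons (.br (nat_lit 2) (nat_lit 0) (.cons (.zr (nat_lit 237684496987526544768410779648) (nat_lit 1239148983551738994980028417) (nat_lit 5) (nat_lit 0)) .nil)) .nil))) (.cons (.br (nat_lit 5) (nat_lit 0) (.cons (.ev (nat_lit 20361637766184381787093793243393) (nat_lit 1)) (.cons (.ev (nat_lit 20282720302309749924113145659393) (nat_lit 1)) .nil))) (.cons (.ev (nat_lit 20361947251194274908277267496961) (nat_lit 1)) .nil)))) (.cons (.rf (nat_lit 4232) (nat_lit 457824828835778364480)) (.cons (.rf (nat_lit 4232) (nat_lit 457929673865483879488)) .nil)))),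
 (.br (nat_lit 4) (nat_lit 1) (.cons (.ev (nat_lit 20361638975110273459316989100033) (nat_lit 1)) (.cons (.ev (nat_lit 20520096509083140553000055996930) (nat_lit 2)) .nil))),
 (.br (nat_lit 5) (nat_lit 0) (.cons (.kr (nat_lit 20282409613096403390786053341440) (nat_lit 79228162514336958137535365120) (nat_lit 1) (nat_lit 0)) .nil)),
 (.br (nat_lit 13) (nat_lit 0) (.cons (.rf (nat_lit 4251) (nat_lit 493858305440582043680)) (.cons (.rf (nat_lit 4232) (nat_lit 457824828835778364480)) (.cons (.br (nat_lit 7) (nat_lit 0) (.cons (.ev (nat_lit 20361947251194274908277267496961) (nat_lit 1)) (.cons (.rf (nat_lit 4252) (nat_lit 493858305440582043680)) (.cons (.br (nat_lit 2) (nat_lit 0) (.cons (.rf (nat_lit 4253) (nat_lit 493858305440582043680)) (.cons (.br (nat_lit 4) (nat_lit 1) (.cons (.ev (nat_lit 20520715488510838615347934070020) (nat_lit 3)) .nil)) .nil))) .nil)))) .nil)))),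
 (.br (nat_lit 7) (nat_lit 0) (.cons (.rf (nat_lit 3479) (nat_lit 493679253268392413216)) (.cons (.rf (nat_lit 3452) (nat_lit 493751240493686163488)) .nil))),
 (.br (nat_lit 6) (nat_lit 1) (.cons (.br (nat_lit 10) (nat_lit 1) (.cons (.br (nat_lit 13) (nat_lit 0) (.cons (.br (nat_lit 9) (nat_lit 1) (.cons (.ev (nat_lit 20837628157457363018702618165508) (nat_lit 3)) .nil)) (.cons (.br (nat_lit 4) (nat_lit 1) (.cons (.ev (nat_lit 20361642620869720472404690928388) (nat_lit 3)) .nil)) .nil))) (.cons (.rf (nat_lit 4255) (nat_lit 493858305440582043680)) .nil))) (.cons (.br (nat_lit 4) (nat_lit 1) (.cons (.br (nat_lit 9) (nat_lit 1) (.cons (.br (nat_lit 10) (nat_lit 1) (.cons (.ev (nat_lit 20678550416260246456505861604100) (nat_lit 3)) .nil)) (.cons (.br (nat_lit 7) (nat_lit 0) (.cons (.ev (nat_lit 20679788356299531832382781063940) (nat_lit 3)) .nil)) .nil))) (.cons (.br (nat_lit 5) (nat_lit 0) (.cons (.br (nat_lit 10) (nat_lit 1) (.cons (.ev (nat_lit 79229376162450717671163953153) (nat_lit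 1)) .nil)) (.cons (.ev (nat_lit 18447026648197890049) (nat_lit 1)) .nil))) (.cons (.rf (nat_lit 4232) (nat_lit 458116643612319220800)) .nil)))) (.cons (.br (nat_lit 4) (nat_lit 1) (.cons (.br (nat_lit 9) (nat_lit 1) (.cons (.br (nat_lit 7) (nat_lit 0) (.cons (.ev (nat_lit 20837628157457361897200690726148) (nat_lit 3)) .nil)) .nil)) (.cons (.br (nat_lit 10) (nat_lit 1) (.cons (.br (nat_lit 7) (nat_lit 0) (.cons (.ev (nat_lit 79538861172271781264912089345) (nat_lit 1)) .nil)) (.cons (.br (nat_lit 9) (nat_lit 1) (.cons (.ev (nat_lit 79229376162450717671163953153) (nat_lit 1)) .nil)) .nil))) .nil))) .nil)))),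
 (.br (nat_lit 2) (nat_lit 0) (.cons (.kr (nat_lit 20361637766165934762640306864384) (nat_lit 72620543991414784) (nat_lit 1) (nat_lit 0)) .nil)),
 (.br (nat_lit 7) (nat_lit 0) (.cons (.rf (nat_lit 4257) (nat_lit 493858305440582043680)) (.cons (.rf (nat_lit 4257) (nat_lit 493858129518726842400)) .nil))),
 (.br (nat_lit 6) (nat_lit 1) (.cons (.rf (nat_lit 4256) (nat_lit 493858305440582043680)) (.cons (.br (nat_lit 4) (nat_lit 1) (.cons (.br (nat_lit 10) (nat_lit 1) (.cons (.ev (nat_lit 309485009893403766569369601) (nat_lit 1)) (.cons (.ev (nat_lit 20361637766165934762644618674433) (nat_lit 1)) .nil))) (.cons (.br (nat_lit 10) (nat_lit 1) (.cons (.ev (nat_lit 1208925891672223229477121) (nat_lit 1)) (.cons (.ev (nat_lit 20361638975110273178941540794625) (nat_lit 1)) .nil))) (.cons (.br (nat_lit 10) (nat_lit 1) (.cons (.ev (nat_lit 20361948460101575721238694789121) (nat_lit 1)) (.cons (.ev (nat_lit 20361638975110273178941540794625) (nat_lit 1)) .nil))) .nil)))) (.cons (.br (nat_lit 10) (nat_lit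 1) (.cons (.br (nat_lit 7) (nat_lit 0) (.cons (.zr (nat_lit 40802503694846133863973669307136) (nat_lit 310693954088548205145882625) (nat_lit 5) (nat_lit 0)) (.cons (.zr (nat_lit 81367322902149474708569636995840) (nat_lit 310703398820671709939499009) (nat_lit 5) (nat_lit 8)) .nil))) (.cons (.rf (nat_lit 4258) (nat_lit 493858305440582043680)) .nil))) .nil)))),
 (.br (nat_lit 6) (nat_lit 1) (.cons (.rf (nat_lit 4256) (nat_lit 493858305440582043680)) (.cons (.rf (nat_lit 4259) (nat_lit 493858305440582043680)) (.cons (.br (nat_lit 5) (nat_lit 0) (.cons (.br (nat_lit 9) (nat_lit 1) (.cons (.br (nat_lit 7) (nat_lit 0) (.cons (.ev (nat_lit 21471458312164512030888565739272) (nat_lit 4)) .nil)) (.cons (.ev (nat_lit 20282409617818914271431147651586) (nat_lit 2)) .nil))) (.cons (.br (nat_lit 2) (nat_lit 0) (.cons (.br (nat_lit 7) (nat_lit 0) (.cons (.ev (nat_lit 79229376162450717671163953153) (nat_lit 1)) .nil)) (.cons (.ev (nat_lit 79228167236630820463189229569) (nat_lit 1)) .nil))) (.cons (.br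 (nat_lit 2) (nat_lit 0) (.cons (.ev (nat_lit 20361637766165934762644618674433) (nat_lit 1)) (.cons (.br (nat_lit 4) (nat_lit 1) (.cons (.zr (nat_lit 237684496987526544768410779648) (nat_lit 1239148983551738994980028417) (nat_lit 5) (nat_lit 0)) .nil)) .nil))) .nil)))) .nil)))),
 (.br (nat_lit 11) (nat_lit 1) (.cons (.rf (nat_lit 3784) (nat_lit 493565395547242988608)) (.cons (.br (nat_lit 13) (nat_lit 0) (.cons (.rf (nat_lit 4251) (nat_lit 493858305440582043680)) (.cons (.rf (nat_lit 4254) (nat_lit 493858305440582043680)) (.cons (.rf (nat_lit 4232) (nat_lit 457824828835778364480)) (.cons (.br (nat_lit 13) (nat_lit 0) (.cons (.rf (nat_lit 4232) (nat_lit 457929673865483879488)) (.cons (.rf (nat_lit 4254) (nat_lit 493858305440582043680)) (.cons (.rf (nat_lit 3784) (nat_lit 457824828835778364480)) .nil)))) .nil))))) (.cons (.br (nat_lit 6) (nat_lit 1) (.cons (.rf (nat_lit 4256) (nat_lit 493858305440582043680)) (.cons (.rf (nat_lit 4259) (nat_lit 493858305440582043680)) (.cons (.rf (nat_lit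 4260) (nat_lit 493858305440582043680)) (.cons (.br (nat_lit 6) (nat_lit 1) (.cons (.rf (nat_lit 4256) (nat_lit 493858305440582043680)) (.cons (.rf (nat_lit 4259) (nat_lit 493858305440582043680)) (.cons (.rf (nat_lit 4260) (nat_lit 493858305440582043680)) .nil)))) .nil))))) .nil)))),
 (.br (nat_lit 6) (nat_lit 1) (.cons (.br (nat_lit 4) (nat_lit 1) (.cons (.br (nat_lit 10) (nat_lit 1) (.cons (.br (nat_lit 9) (nat_lit 1) (.cons (.ev (nat_lit 20682883244361866299591266209032) (nat_lit 4)) .nil)) .nil)) (.cons (.rf (nat_lit 4232) (nat_lit 458116643612319220800)) .nil))) (.cons (.br (nat_lit 4) (nat_lit 1) (.cons (.br (nat_lit 13) (nat_lit 0) (.cons (.ev (nat_lit 79228167255077847111387054081) (nat_lit 1)) (.cons (.ev (nat_lit 310693935641241177171230721) (nat_lit 1)) .nil))) (.cons (.ev (nat_lit 309485028340428215743938561) (nat_lit 1)) (.cons (.br (nat_lit 2) (nat_lit 0) (.cons (.zr (nat_lit 20520094091194463440026418151680) (nat_lit 618974760456198564387749889) (nat_lit 5) (nat_lit 0))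 (.cons (.br (nat_lit 9) (nat_lit 1) (.cons (.ev (nat_lit 79538861172271781264912089345) (nat_lit 1)) .nil)) .nil))) .nil)))) .nil))),
 (.br (nat_lit 6) (nat_lit 1) (.cons (.rf (nat_lit 4262) (nat_lit 493858305440582043680)) (.cons (.br (nat_lit 10) (nat_lit 1) (.cons (.br (nat_lit 2) (nat_lit 0) (.cons (.ev (nat_lit 1208925891672223229477121) (nat_lit 1)) (.cons (.br (nat_lit 4) (nat_lit 1) (.cons (.ev (nat_lit 79229376180897179170385231873) (nat_lit 1)) .nil)) .nil))) (.cons (.rf (nat_lit 4252) (nat_lit 493858305440582043680)) .nil))) .nil)))]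

theorem c158 : chkAll C T R L158 (nat_lit 4238) = true := by decide +kernel

theorem l158 : (nat_lit 4238) + L158.length = (nat_lit 4264) := by decide +kernel

/-- part of the certificates -/
def L159 : List Prf := [(.br (nat_lit 2) (nat_lit 0) (.cons (.rf (nat_lit 3640) (nat_lit 493748990899331893280)) (.cons (.rf (nat_lit 3640) (nat_lit 493750116798164994080)) .nil))),
 (.br (nat_lit 6) (nat_lit 1) (.cons (.br (nat_lit 7) (nat_lit 0) (.cons (.rf (nat_lit 4264) (nat_lit 493858305440582043680)) (.cons (.ev (nat_lit 79228167255077847111387054081) (nat_lit 1)) (.cons (.br (nat_lit 9) (nat_lit 1) (.cons (.ev (nat_lit 310693954160042840623743233) (nat_lit 1)) (.cons (.br (nat_lit 2) (nat_lit 0) (.cons (.ev (nat_lit 20837630575382932778675771606276) (nat_lit 3)) .nil)) .nil))) .nil)))) (.cons (.br (nat_lit 4) (nat_lit 1) (.cons (.br (nat_lit 10) (nat_lit 1) (.cons (.ev (nat_lit 310693935641241177171230721) (nat_lit 1)) .nil)) (.cons (.br (nat_lit 7) (nat_lit 0) (.cons (.br (nat_lit 10) (nat_lit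 1) (.cons (.ev (nat_lit 79538861172271781264912089345) (nat_lit 1)) .nil)) (.cons (.kr (nat_lit 309485009893402667057676288) (nat_lit 158456325028528676286599528448) (nat_lit 4) (nat_lit 0)) .nil))) .nil))) .nil))),
 (.br (nat_lit 6) (nat_lit 1) (.cons (.rf (nat_lit 4265) (nat_lit 493858305440582043680)) (.cons (.br (nat_lit 4) (nat_lit 1) (.cons (.br (nat_lit 9) (nat_lit 1) (.cons (.br (nat_lit 7) (nat_lit 0) (.cons (.ev (nat_lit 20284270173545127692169606595076) (nat_lit 3)) .nil)) (.cons (.ev (nat_lit 72057598349672449) (nat_lit 1)) .nil))) (.cons (.rf (nat_lit 4120) (nat_lit 493823298092012767264)) .nil))) .nil))),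
 (.br (nat_lit 11) (nat_lit 1) (.cons (.rf (nat_lit 3784) (nat_lit 493565395547242988608)) (.cons (.br (nat_lit 6) (nat_lit 1) (.cons (.rf (nat_lit 4262) (nat_lit 493858305440582043680)) (.cons (.rf (nat_lit 4263) (nat_lit 493858305440582043680)) (.cons (.br (nat_lit 6) (nat_lit 1) (.cons (.rf (nat_lit 4262) (nat_lit 493858305440582043680)) (.cons (.rf (nat_lit 4263) (nat_lit 493858305440582043680)) .nil))) .nil)))) (.cons (.br (nat_lit 6) (nat_lit 1) (.cons (.rf (nat_lit 4265) (nat_lit 493858305440582043680)) (.cons (.rf (nat_lit 4266) (nat_lit 493858305440582043680)) (.cons (.br (nat_lit 6) (nat_lit 1) (.cons (.rf (nat_lit 4265) (nat_lit 493858305440582043680)) (.cons (.rf (nat_lit 4266) (nat_lit 493858305440582043680)) .nil))) .nil)))) .nil)))),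
 (.br (nat_lit 2) (nat_lit 0) (.cons (.br (nat_lit 9) (nat_lit 1) (.cons (.br (nat_lit 10) (nat_lit 1) (.cons (.zr (nat_lit 79228162514336397386605265152) (nat_lit 309485028268089151041044481) (nat_lit 5) (nat_lit 0)) (.cons (.ev (nat_lit 20282720302328124610588522316033) (nat_lit 1)) .nil))) (.cons (.br (nat_lit 5) (nat_lit 0) (.cons (.br (nat_lit 10) (nat_lit 1) (.cons (.ev (nat_lit 310693935641241177171230721) (nat_lit 1)) .nil)) (.cons (.br (nat_lit 13) (nat_lit 0) (.cons (.ev (nat_lit 310693935641241177171230721) (nat_lit 1)) .nil)) .nil))) (.cons (.br (nat_lit 7) (nat_lit 0) (.cons (.ev (nat_lit 20361637766184453844683519492353) (nat_lit 1)) (.cons (.br (nat_lit 5) (nat_lit 0) (.cons (.zr (nat_lit 237684496987742714251989484288) (nat_lit 314320731546547676329803777) (nat_lit 5) (nat_lit 0)) .nil)) .nil))) .nil)))) (.cons (.br (nat_lit 10) (nat_lit 1) (.cons (.br (nat_lit 7) (nat_lit 0) (.cons (.br (nat_lit 13) (nat_lit 0) (.cons (.ev (nat_lit 20837009168548109162587017774340) (nat_lit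 3)) .nil)) (.cons (.ev (nat_lit 18447026648197890049) (nat_lit 1)) .nil))) (.cons (.br (nat_lit 13) (nat_lit 0) (.cons (.zr (nat_lit 40644047369817821358270160437504) (nat_lit 311912324640284140090949633) (nat_lit 5) (nat_lit 0)) (.cons (.rf (nat_lit 4180) (nat_lit 493823368458609461280)) .nil))) (.cons (.br (nat_lit 5) (nat_lit 0) (.cons (.br (nat_lit 7) (nat_lit 0) (.cons (.ev (nat_lit 20678552834074992197608235533060) (nat_lit 3)) .nil)) (.cons (.br (nat_lit 7) (nat_lit 0) (.cons (.ev (nat_lit 309485028340428215743938561) (nat_lit 1)) .nil)) .nil))) .nil)))) (.cons (.br (nat_lit 4) (nat_lit 1) (.cons (.br (nat_lit 9) (nat_lit 1) (.cons (.br (nat_lit 6) (nat_lit 1) (.cons (.ev (nat_lit 20837628157457361897200690726148) (nat_lit 3)) .nil)) (.cons (.br (nat_lit 7) (nat_lit 0) (.cons (.ev (nat_lit 20841351630313673890932717849352) (nat_lit 4)) .nil)) .nil))) (.cons (.ev (nat_lit 1208925891672223229477121) (nat_lit 1)) (.cons (.br (nat_lit 6) (nat_lit 1) (.cons (.br (nat_lit 9) (nat_lit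 1) (.cons (.ev (nat_lit 20837628157457363018702618165508) (nat_lit 3)) .nil)) (.cons (.ev (nat_lit 309485009893684142051229953) (nat_lit 1)) .nil))) .nil)))) .nil)))),
 (.br (nat_lit 9) (nat_lit 1) (.cons (.br (nat_lit 7) (nat_lit 0) (.cons (.kr (nat_lit 20361637766165934762640306864384) (nat_lit 72620543991414784) (nat_lit 1) (nat_lit 0)) .nil)) (.cons (.br (nat_lit 4) (nat_lit 1) (.cons (.kr (nat_lit 20361637766165934762640306864384) (nat_lit 72620543991414784) (nat_lit 1) (nat_lit 0)) .nil)) .nil))),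
 (.br (nat_lit 6) (nat_lit 1) (.cons (.rf (nat_lit 4268) (nat_lit 493858305440582043680)) (.cons (.br (nat_lit 10) (nat_lit 1) (.cons (.br (nat_lit 13) (nat_lit 0) (.cons (.br (nat_lit 2) (nat_lit 0) (.cons (.ev (nat_lit 79229376180897179170385231873) (nat_lit 1)) .nil)) (.cons (.ev (nat_lit 20361638975091754377269498347521) (nat_lit 1)) .nil))) (.cons (.rf (nat_lit 3818) (nat_lit 493853804042125412384)) .nil))) (.cons (.br (nat_lit 10) (nat_lit 1) (.cons (.rf (nat_lit 4269) (nat_lit 493858305440582043680)) (.cons (.kr (nat_lit 1208925819615728686333952) (nat_lit 72339069014638592) (nat_lit 5) (nat_lit 0)) .nil))) .nil)))),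
 (.br (nat_lit 6) (nat_lit 1) (.cons (.rf (nat_lit 4268) (nat_lit 493858305440582043680)) (.cons (.rf (nat_lit 4270) (nat_lit 493858305440582043680)) (.cons (.br (nat_lit 9) (nat_lit 1) (.cons (.br (nat_lit 10) (nat_lit 1) (.cons (.br (nat_lit 4) (nat_lit 1) (.cons (.ev (nat_lit 21154545680996918368989115909896) (nat_lit 4)) .nil)) (.cons (.br (nat_lit 2) (nat_lit 0) (.cons (.ev (nat_lit 317532847892059052713617392132) (nat_lit 3)) .nil)) .nil))) (.cons (.br (nat_lit 10) (nat_lit 1) (.cons (.ev (nat_lit 20361638975091754377269498347521) (nat_lit 1)) .nil)) .nil))) .nil)))),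
 (.br (nat_lit 11) (nat_lit 1) (.cons (.rf (nat_lit 4261) (nat_lit 493858305440582043680)) (.cons (.rf (nat_lit 4267) (nat_lit 493858305440582043680)) (.cons (.br (nat_lit 6) (nat_lit 1) (.cons (.rf (nat_lit 4268) (nat_lit 493858305440582043680)) (.cons (.rf (nat_lit 4270) (nat_lit 493858305440582043680)) (.cons (.rf (nat_lit 4271) (nat_lit 493858305440582043680)) (.cons (.br (nat_lit 6) (nat_lit 1) (.cons (.rf (nat_lit 4268) (nat_lit 493858305440582043680)) (.cons (.rf (nat_lit 4270) (nat_lit 493858305440582043680)) (.cons (.rf (nat_lit 4271) (nat_lit 493858305440582043680)) .nil)))) .nil))))) .nil)))),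
 (.br (nat_lit 8) (nat_lit 1) (.cons (.rf (nat_lit 3419) (nat_lit 493604770158142031904)) (.cons (.br (nat_lit 6) (nat_lit 1) (.cons (.rf (nat_lit 4235) (nat_lit 493858305440582043680)) (.cons (.rf (nat_lit 4238) (nat_lit 493858305440582043680)) (.cons (.br (nat_lit 6) (nat_lit 1) (.cons (.rf (nat_lit 4235) (nat_lit 493858305440582043680)) (.cons (.rf (nat_lit 4238) (nat_lit 493858305440582043680)) .nil))) .nil)))) (.cons (.br (nat_lit 6) (nat_lit 1) (.cons (.rf (nat_lit 4245) (nat_lit 493858305440582043680)) (.cons (.rf (nat_lit 4248) (nat_lit 493858305440582043680)) (.cons (.rf (nat_lit 4250) (nat_lit 493858305440582043680)) (.cons (.br (nat_lit 6) (nat_lit 1) (.cons (.rf (nat_lit 4245) (nat_lit 493858305440582043680)) (.cons (.rf (nat_lit 4248) (nat_lit 493858305440582043680)) (.cons (.rf (nat_lit 4250) (nat_lit 493858305440582043680)) .nil)))) .nil))))) (.cons (.br (nat_lit 11) (nat_lit 1) (.cons (.rf (nat_lit 4261) (nat_lit 493858305440582043680)) (.cons (.rf (nat_lit 4267) (nat_lit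 493858305440582043680)) (.cons (.rf (nat_lit 4272) (nat_lit 493858305440582043680)) (.cons (.br (nat_lit 11) (nat_lit 1) (.cons (.rf (nat_lit 4261) (nat_lit 493858305440582043680)) (.cons (.rf (nat_lit 4267) (nat_lit 493858305440582043680)) (.cons (.rf (nat_lit 4272) (nat_lit 493858305440582043680)) .nil)))) .nil))))) .nil))))),
 (.br (nat_lit 10) (nat_lit 1) (.cons (.br (nat_lit 9) (nat_lit 1) (.cons (.br (nat_lit 6) (nat_lit 1) (.cons (.ev (nat_lit 79228167255077846011875426561) (nat_lit 1)) .nil)) .nil)) (.cons (.br (nat_lit 13) (nat_lit 0) (.cons (.ev (nat_lit 310693935640959702211297281) (nat_lit 1)) (.cons (.br (nat_lit 13) (nat_lit 0) (.cons (.ev (nat_lit 310693935640959702211297281) (nat_lit 1)) (.cons (.ev (nat_lit 79228167255077846011875426561) (nat_lit 1)) .nil))) (.cons (.rf (nat_lit 3784) (nat_lit 457824828835778365472)) .nil)))) .nil))),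
 (.br (nat_lit 13) (nat_lit 0) (.cons (.rf (nat_lit 4232) (nat_lit 457929673865483880480)) (.cons (.kr (nat_lit 18446744073709551616) (nat_lit 20282409603651670423947251286016) (nat_lit 8) (nat_lit 0)) (.cons (.rf (nat_lit 3784) (nat_lit 457824828835778365472)) .nil)))),
 (.br (nat_lit 6) (nat_lit 1) (.cons (.rf (nat_lit 4274) (nat_lit 493858305440582043680)) (.cons (.br (nat_lit 10) (nat_lit 1) (.cons (.br (nat_lit 9) (nat_lit 1) (.cons (.br (nat_lit 13) (nat_lit 0) (.cons (.ev (nat_lit 81088723128724486249702559496) (nat_lit 4)) .nil)) .nil)) (.cons (.rf (nat_lit 4275) (nat_lit 493858305440582043680)) .nil))) .nil))),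
 (.br (nat_lit 4) (nat_lit 1) (.cons (.br (nat_lit 10) (nat_lit 1) (.cons (.br (nat_lit 6) (nat_lit 1) (.cons (.br (nat_lit 9) (nat_lit 1) (.cons (.ev (nat_lit 79228167255077846011875426561) (nat_lit 1)) .nil)) .nil)) (.cons (.ev (nat_lit 310693935640959702211297281) (nat_lit 1)) .nil))) (.cons (.br (nat_lit 10) (nat_lit 1) (.cons (.ev (nat_lit 310693935640959702211297281) (nat_lit 1)) (.cons (.br (nat_lit 6) (nat_lit 1) (.cons (.br (nat_lit 7) (nat_lit 0) (.cons (.ev (nat_lit 79228167255077846011875426561) (nat_lit 1)) .nil)) .nil)) .nil))) .nil))),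
 (.br (nat_lit 6) (nat_lit 1) (.cons (.rf (nat_lit 4277) (nat_lit 493858305440582043680)) (.cons (.br (nat_lit 7) (nat_lit 0) (.cons (.br (nat_lit 10) (nat_lit 1) (.cons (.ev (nat_lit 1208925891672223229477121) (nat_lit 1)) (.cons (.ev (nat_lit 20361638975110273177842029166593) (nat_lit 1)) .nil))) (.cons (.br (nat_lit 2) (nat_lit 0) (.cons (.ev (nat_lit 72057598349672449) (nat_lit 1)) (.cons (.br (nat_lit 4) (nat_lit 1) (.cons (.ev (nat_lit 79849564571309466891933843714) (nat_lit 2)) .nil)) .nil))) (.cons (.br (nat_lit 13) (nat_lit 0) (.cons (.ev (nat_lit 20361638975110273177842029166593) (nat_lit 1)) (.cons (.br (nat_lit 4) (nat_lit 1) (.cons (.ev (nat_lit 20838868515421931056690561877764) (nat_lit 3)) .nil)) .nil))) .nil)))) .nil))),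
 (.br (nat_lit 11) (nat_lit 1) (.cons (.rf (nat_lit 3419) (nat_lit 493565395547242989600)) (.cons (.br (nat_lit 6) (nat_lit 1) (.cons (.rf (nat_lit 4274) (nat_lit 493858305440582043680)) (.cons (.rf (nat_lit 4276) (nat_lit 493858305440582043680)) (.cons (.br (nat_lit 6) (nat_lit 1) (.cons (.rf (nat_lit 4274) (nat_lit 493858305440582043680)) (.cons (.rf (nat_lit 4276) (nat_lit 493858305440582043680)) .nil))) .nil)))) (.cons (.br (nat_lit 6) (nat_lit 1) (.cons (.rf (nat_lit 4277) (nat_lit 493858305440582043680)) (.cons (.rf (nat_lit 4278) (nat_lit 493858305440582043680)) (.cons (.br (nat_lit 6) (nat_lit 1) (.cons (.rf (nat_lit 4277) (nat_lit 493858305440582043680)) (.cons (.rf (nat_lit 4278) (nat_lit 493858305440582043680)) .nil))) .nil)))) .nil)))),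
 (.br (nat_lit 13) (nat_lit 0) (.cons (.rf (nat_lit 4232) (nat_lit 457929673865483879488)) (.cons (.kr (nat_lit 18446744073709551616) (nat_lit 20282409603651670423947251286016) (nat_lit 8) (nat_lit 0)) (.cons (.rf (nat_lit 3784) (nat_lit 457824828835778364480)) .nil)))),
 (.br (nat_lit 6) (nat_lit 1) (.cons (.rf (nat_lit 3830) (nat_lit 493853804042125412384)) (.cons (.br (nat_lit 10) (nat_lit 1) (.cons (.rf (nat_lit 3478) (nat_lit 493751240493686163488)) (.cons (.rf (nat_lit 4280) (nat_lit 493858305440582043680)) .nil))) .nil))),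
 (.br (nat_lit 6) (nat_lit 1) (.cons (.rf (nat_lit 3830) (nat_lit 493853804042125412384)) (.cons (.br (nat_lit 10) (nat_lit 1) (.cons (.ev (nat_lit 1208944338416296922185729) (nat_lit 1)) (.cons (.rf (nat_lit 4280) (nat_lit 493858305440582043680)) .nil))) .nil))),
 (.br (nat_lit 10) (nat_lit 1) (.cons (.br (nat_lit 6) (nat_lit 1) (.cons (.rf (nat_lit 4239) (nat_lit 493858303243706271776)) (.cons (.br (nat_lit 7) (nat_lit 0) (.cons (.br (nat_lit 13) (nat_lit 0) (.cons (.ev (nat_lit 20678555270852991972401115235076) (nat_lit 3)) .nil)) (.cons (.br (nat_lit 13) (nat_lit 0) (.cons (.ev (nat_lit 20837628157457363023100664677636) (nat_lit 3)) .nil)) .nil))) .nil))) (.cons (.br (nat_lit 6) (nat_lit 1) (.cons (.br (nat_lit 4) (nat_lit 1) (.cons (.br (nat_lit 13) (nat_lit 0) (.cons (.ev (nat_lit 20838866097496648398977449919748) (nat_lit 3)) .nil)) (.cons (.br (nat_lit 7) (nat_lit 0) (.cons (.ev (nat_lit 20678550435149713513867236280068) (nat_lit 3)) .nil)) .nil))) (.cons (.rf (nat_lit 4255)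 (nat_lit 493858303243706271776)) .nil))) .nil))),
 (.br (nat_lit 6) (nat_lit 1) (.cons (.rf (nat_lit 4283) (nat_lit 493858305440582043680)) (.cons (.br (nat_lit 10) (nat_lit 1) (.cons (.br (nat_lit 7) (nat_lit 0) (.cons (.br (nat_lit 13) (nat_lit 0) (.cons (.ev (nat_lit 20838868515385037568543176459524) (nat_lit 3)) .nil)) (.cons (.br (nat_lit 13) (nat_lit 0) (.cons (.ev (nat_lit 159077722363207321615832580354) (nat_lit 2)) .nil)) .nil))) (.cons (.ev (nat_lit 1208925891954797701038081) (nat_lit 1)) (.cons (.rf (nat_lit 3545) (nat_lit 493679253096593726496)) .nil)))) .nil))),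
 (.br (nat_lit 11) (nat_lit 1) (.cons (.rf (nat_lit 3419) (nat_lit 493565395547242989600)) (.cons (.br (nat_lit 6) (nat_lit 1) (.cons (.rf (nat_lit 4281) (nat_lit 493858305440582043680)) (.cons (.rf (nat_lit 4282) (nat_lit 493858305440582043680)) (.cons (.br (nat_lit 6) (nat_lit 1) (.cons (.rf (nat_lit 4281) (nat_lit 493858305440582043680)) (.cons (.rf (nat_lit 4282) (nat_lit 493858305440582043680)) .nil))) .nil)))) (.cons (.br (nat_lit 6) (nat_lit 1) (.cons (.rf (nat_lit 4283) (nat_lit 493858305440582043680)) (.cons (.rf (nat_lit 4284) (nat_lit 493858305440582043680)) (.cons (.br (nat_lit 6) (nat_lit 1) (.cons (.rf (nat_lit 4283) (nat_lit 493858305440582043680)) (.cons (.rf (nat_lit 4284) (nat_lit 493858305440582043680)) .nil))) .nil)))) .nil)))),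
 (.br (nat_lit 6) (nat_lit 1) (.cons (.rf (nat_lit 3419) (nat_lit 493787200025760303136)) (.cons (.br (nat_lit 4) (nat_lit 1) (.cons (.ev (nat_lit 281474993553409) (nat_lit 1)) (.cons (.br (nat_lit 9) (nat_lit 1) (.cons (.ev (nat_lit 79228167255149904709736792065) (nat_lit 1)) (.cons (.rf (nat_lit 3802) (nat_lit 493856055839791613984)) .nil))) .nil))) (.cons (.br (nat_lit 4) (nat_lit 1) (.cons (.br (nat_lit 13) (nat_lit 0) (.cons (.zr (nat_lit 20440865928680199101333362508544) (nat_lit 309485028268652100994465793) (nat_lit 5) (nat_lit 0)) (.cons (.ev (nat_lit 310693935641242276682858753) (nat_lit 1)) .nil))) (.cons (.ev (nat_lit 309485028340428215743938561) (nat_lit 1)) (.cons (.br (nat_lit 2) (nat_lit 0) (.cons (.br (nat_lit 7) (nat_lit 0) (.cons (.zr (nat_lit 237684496987742717550524366848) (nat_lit 314320731546547676329803777) (nat_lit 5) (nat_lit 0)) .nil)) (.cons (.br (nat_lit 9) (nat_lit 1) (.cons (.ev (nat_lit 20837628157457363023100664677636) (nat_lit 3)) .nil)) .nil))) .nil))))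 .nil)))),
 (.br (nat_lit 1) (nat_lit 0) (.cons (.ev (nat_lit 20282409608392483651994412646401) (nat_lit 1)) .nil)),
 (.br (nat_lit 6) (nat_lit 1) (.cons (.rf (nat_lit 3419) (nat_lit 493787200025760303136)) (.cons (.br (nat_lit 10) (nat_lit 1) (.cons (.ev (nat_lit 18447025548686262529) (nat_lit 1)) (.cons (.br (nat_lit 4) (nat_lit 1) (.cons (.ev (nat_lit 310693935640959702211297281) (nat_lit 1)) (.cons (.br (nat_lit 1) (nat_lit 0) (.cons (.ev (nat_lit 309494509966602826516987906) (nat_lit 2)) .nil)) .nil))) .nil))) (.cons (.br (nat_lit 10) (nat_lit 1) (.cons (.br (nat_lit 13) (nat_lit 0) (.cons (.ev (nat_lit 310693935640959702211297281) (nat_lit 1)) (.cons (.br (nat_lit 4) (nat_lit 1) (.cons (.ev (nat_lit 20520101373157583171923137069828) (nat_lit 3)) .nil)) .nil))) (.cons (.br (nat_lit 4) (nat_lit 1) (.cons (.br (nat_lit 13) (nat_lit 0) (.cons (.ev (nat_lit 20520101373157583171923137069828) (nat_lit 3)) .nil)) (.cons (.br (nat_lit 1) (nat_lit 0) (.cons (.zr (nat_lit 237684496987742717550524366848)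 (nat_lit 314320731546547676329803777) (nat_lit 5) (nat_lit 0)) .nil)) .nil))) (.cons (.br (nat_lit 4) (nat_lit 1) (.cons (.ev (nat_lit 310693935641242276682858753) (nat_lit 1)) (.cons (.rf (nat_lit 4287) (nat_lit 493858305440582043680)) .nil))) .nil)))) .nil))))]

theorem c159 : chkAll C T R L159 (nat_lit 4264) = true := by decide +kernel

theorem l159 : (nat_lit 4264) + L159.length = (nat_lit 4289) := by decide +kernel

/-- part of the certificates -/
def L160 : List Prf := [(.br (nat_lit 6) (nat_lit 1) (.cons (.rf (nat_lit 4286) (nat_lit 493858305440582043680)) (.cons (.rf (nat_lit 4288) (nat_lit 493858305440582043680)) (.cons (.br (nat_lit 10) (nat_lit 1) (.cons (.ev (nat_lit 1208944338416296922185729) (nat_lit 1)) (.cons (.br (nat_lit 4) (nat_lit 1) (.cons (.ev (nat_lit 1208925891672223229477121) (nat_lit 1)) (.cons (.br (nat_lit 9) (nat_lit 1) (.cons (.ev (nat_lit 21473943863760606155905549140232) (nat_lit 4)) .nil)) .nil))) (.cons (.br (nat_lit 2) (nat_lit 0) (.cons (.br (nat_lit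 9) (nat_lit 1) (.cons (.ev (nat_lit 20362256755148902422551883876100) (nat_lit 3)) .nil)) (.cons (.br (nat_lit 4) (nat_lit 1) (.cons (.ev (nat_lit 79228167255149904709736792065) (nat_lit 1)) .nil)) .nil))) .nil)))) .nil)))),
 (.br (nat_lit 11) (nat_lit 1) (.cons (.rf (nat_lit 4279) (nat_lit 493858305440582043680)) (.cons (.rf (nat_lit 4285) (nat_lit 493858305440582043680)) (.cons (.br (nat_lit 6) (nat_lit 1) (.cons (.rf (nat_lit 4286) (nat_lit 493858305440582043680)) (.cons (.rf (nat_lit 4288) (nat_lit 493858305440582043680)) (.cons (.rf (nat_lit 4289) (nat_lit 493858305440582043680)) (.cons (.br (nat_lit 6) (nat_lit 1) (.cons (.rf (nat_lit 4286) (nat_lit 493858305440582043680)) (.cons (.rf (nat_lit 4288) (nat_lit 493858305440582043680)) (.cons (.rf (nat_lit 4289) (nat_lit 493858305440582043680)) .nil)))) .nil))))) .nil)))),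
 (.br (nat_lit 11) (nat_lit 1) (.cons (.rf (nat_lit 3419) (nat_lit 493565395547242989600)) (.cons (.rf (nat_lit 3784) (nat_lit 493565395547242988608)) (.cons (.rf (nat_lit 4273) (nat_lit 457824828835778364480)) .nil)))),
 (.br (nat_lit 13) (nat_lit 0) (.cons (.br (nat_lit 2) (nat_lit 0) (.cons (.kr (nat_lit 18446744078004518912) (nat_lit 79228162514264619068520660992) (nat_lit 4) (nat_lit 0)) (.cons (.br (nat_lit 1) (nat_lit 0) (.cons (.br (nat_lit 5) (nat_lit 0) (.cons (.br (nat_lit 11) (nat_lit 1) (.cons (.ev (nat_lit 158767028464243677283238347010) (nat_lit 2)) .nil)) .nil)) (.cons (.ev (nat_lit 20282410812595936782654430511361) (nat_lit 1)) .nil))) (.cons (.rf (nat_lit 4291) (nat_lit 493858305440582043680)) .nil)))) (.cons (.rf (nat_lit 3784) (nat_lit 457864203446677406784)) (.cons (.rf (nat_lit 4232) (nat_lit 457864203446677406784)) .nil)))),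
 (.br (nat_lit 13) (nat_lit 0) (.cons (.rf (nat_lit 4292) (nat_lit 493858305440582043680)) (.cons (.br (nat_lit 2) (nat_lit 0) (.cons (.br (nat_lit 6) (nat_lit 1) (.cons (.rf (nat_lit 3374) (nat_lit 15070220143233056)) (.cons (.br (nat_lit 1) (nat_lit 0) (.cons (.br (nat_lit 11) (nat_lit 1) (.cons (.ev (nat_lit 310693935640959702211297281) (nat_lit 1)) .nil)) .nil)) (.cons (.rf (nat_lit 651) (nat_lit 493823402540248794176)) .nil)))) (.cons (.br (nat_lit 11) (nat_lit 1) (.cons (.rf (nat_lit 3374) (nat_lit 15070220143396896)) (.cons (.rf (nat_lit 3784) (nat_lit 493565395547242988608)) (.cons (.rf (nat_lit 651) (nat_lit 493817776339249529920)) .nil)))) .nil))) (.cons (.br (nat_lit 7) (nat_lit 0) (.cons (.br (nat_lit 10) (nat_lit 1) (.cons (.rf (nat_lit 3497) (nat_lit 457829403904729941056)) (.cons (.br (nat_lit 11) (nat_lit 1) (.cons (.br (nat_lit 5) (nat_lit 0) (.cons (.ev (nat_lit 79537647524158022830811775233) (nat_lit 1)) .nil)) (.cons (.ev (nat_lit 79229371458602754994272796673) (nat_lit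 1)) .nil))) (.cons (.br (nat_lit 2) (nat_lit 0) (.cons (.br (nat_lit 11) (nat_lit 1) (.cons (.zr (nat_lit 237684496987526544768410779648) (nat_lit 310694009427936009934340097) (nat_lit 5) (nat_lit 0)) .nil)) (.cons (.ev (nat_lit 20282720302309749924113145659393) (nat_lit 1)) .nil))) .nil)))) (.cons (.br (nat_lit 5) (nat_lit 0) (.cons (.br (nat_lit 1) (nat_lit 0) (.cons (.rf (nat_lit 3679) (nat_lit 457936259942275351616)) (.cons (.ev (nat_lit 20361948460101647779936556024065) (nat_lit 1)) .nil))) (.cons (.rf (nat_lit 3502) (nat_lit 15429729492060440608)) .nil))) (.cons (.ev (nat_lit 309485028340146740784005121) (nat_lit 1)) .nil)))) .nil)))),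
 (.br (nat_lit 9) (nat_lit 1) (.cons (.rf (nat_lit 3497) (nat_lit 457828279104334726208)) (.cons (.br (nat_lit 6) (nat_lit 1) (.cons (.br (nat_lit 5) (nat_lit 0) (.cons (.ev (nat_lit 79537647524158022830811775233) (nat_lit 1)) .nil)) (.cons (.ev (nat_lit 20361637770888301245509968855041) (nat_lit 1)) .nil))) (.cons (.ev (nat_lit 1213666632842672057876481) (nat_lit 1)) .nil)))),
 (.br (nat_lit 13) (nat_lit 0) (.cons (.rf (nat_lit 3784) (nat_lit 457864203446677406784)) (.cons (.rf (nat_lit 4293) (nat_lit 493858305440582043680)) (.cons (.br (nat_lit 7) (nat_lit 0) (.cons (.rf (nat_lit 4294) (nat_lit 493858305440582043680)) (.cons (.br (nat_lit 5) (nat_lit 0) (.cons (.rf (nat_lit 4294) (nat_lit 458038990606830928960)) (.cons (.rf (nat_lit 3502) (nat_lit 15429730591571019808)) .nil))) (.cons (.ev (nat_lit 309485028340146740784005121) (nat_lit 1)) .nil)))) .nil)))),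
 (.br (nat_lit 13) (nat_lit 0) (.cons (.rf (nat_lit 4292) (nat_lit 493858305440582043680)) (.cons (.rf (nat_lit 4293) (nat_lit 493858305440582043680)) (.cons (.rf (nat_lit 4295) (nat_lit 493858305440582043680)) (.cons (.br (nat_lit 13) (nat_lit 0) (.cons (.rf (nat_lit 4232) (nat_lit 457864203446677406784)) (.cons (.rf (nat_lit 4293) (nat_lit 493858305440582043680)) (.cons (.rf (nat_lit 4295) (nat_lit 493858305440582043680)) .nil)))) .nil))))),
 (.br (nat_lit 13) (nat_lit 0) (.cons (.rf (nat_lit 4296) (nat_lit 493858305440582043680)) (.cons (.br (nat_lit 13) (nat_lit 0) (.cons (.rf (nat_lit 4296) (nat_lit 493858305440582043680)) (.cons (.rf (nat_lit 3784) (nat_lit 457864203446677406784)) (.cons (.rf (nat_lit 4232) (nat_lit 457864203446677406784)) .nil)))) (.cons (.rf (nat_lit 3784) (nat_lit 457864203446677406784)) (.cons (.rf (nat_lit 4232) (nat_lit 457864203446677406784)) .nil))))),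
 (.br (nat_lit 13) (nat_lit 0) (.cons (.rf (nat_lit 4296) (nat_lit 493858305440582043680)) (.cons (.rf (nat_lit 3784) (nat_lit 457864203446677406784)) (.cons (.br (nat_lit 5) (nat_lit 0) (.cons (.br (nat_lit 7) (nat_lit 0) (.cons (.br (nat_lit 2) (nat_lit 0) (.cons (.br (nat_lit 11) (nat_lit 1) (.cons (.ev (nat_lit 79538856468352322840146542593) (nat_lit 1)) .nil)) (.cons (.ev (nat_lit 81208873863825095174891734761476) (nat_lit 3)) .nil))) (.cons (.br (nat_lit 2) (nat_lit 0) (.cons (.br (nat_lit 1) (nat_lit 0) (.cons (.ev (nat_lit 79538856468352322840146542593) (nat_lit 1)) .nil)) .nil)) .nil))) (.cons (.br (nat_lit 11) (nat_lit 1) (.cons (.br (nat_lit 7) (nat_lit 0) (.cons (.ev (nat_lit 20361948460101647779936556024065) (nat_lit 1)) (.cons (.ev (nat_lit 79537647524158022830811775233) (nat_lit 1)) .nil))) (.cons (.rf (nat_lit 3497) (nat_lit 493751241593196742688)) (.cons (.br (nat_lit 1) (nat_lit 0) (.cons (.ev (nat_lit 20361948460101647779936556024065) (nat_lit 1)) (.cons (.ev (nat_lit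 79537647524158022830811775233) (nat_lit 1)) .nil))) .nil)))) (.cons (.kr (nat_lit 309485009821345068724781056) (nat_lit 20282409603651670423947251286016) (nat_lit 11) (nat_lit 0)) .nil)))) .nil)))),
 (.br (nat_lit 13) (nat_lit 0) (.cons (.rf (nat_lit 4296) (nat_lit 493858305440582043680)) (.cons (.rf (nat_lit 4297) (nat_lit 493858305440582043680)) (.cons (.rf (nat_lit 4298) (nat_lit 493858305440582043680)) (.cons (.br (nat_lit 13) (nat_lit 0) (.cons (.rf (nat_lit 4296) (nat_lit 493858305440582043680)) (.cons (.rf (nat_lit 4232) (nat_lit 457864203446677406784)) (.cons (.rf (nat_lit 4298) (nat_lit 493858305440582043680)) .nil)))) .nil))))),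
 (.br (nat_lit 13) (nat_lit 0) (.cons (.rf (nat_lit 4296) (nat_lit 493858305440582043680)) (.cons (.rf (nat_lit 3784) (nat_lit 457864203446677406784)) (.cons (.rf (nat_lit 4299) (nat_lit 493858305440582043680)) (.cons (.br (nat_lit 13) (nat_lit 0) (.cons (.rf (nat_lit 4296) (nat_lit 493858305440582043680)) (.cons (.rf (nat_lit 3784) (nat_lit 457864203446677406784)) (.cons (.rf (nat_lit 4299) (nat_lit 493858305440582043680)) .nil)))) .nil))))),
 (.br (nat_lit 11) (nat_lit 1) (.cons (.rf (nat_lit 3421) (nat_lit 493679254373266458656)) (.cons (.br (nat_lit 7) (nat_lit 0) (.cons (.ev (nat_lit 309485028340428215743938561) (nat_lit 1)) (.cons (.br (nat_lit 4) (nat_lit 1) (.cons (.ev (nat_lit 79228167255149623234743304193) (nat_lit 1)) (.cons (.rf (nat_lit 4006) (nat_lit 493857069591666198560)) .nil))) (.cons (.br (nat_lit 4) (nat_lit 1) (.cons (.ev (nat_lit 79229371458603036469266284545) (nat_lit 1)) (.cons (.br (nat_lit 2) (nat_lit 0) (.cons (.zr (nat_lit 2417851639232556918046720) (nat_lit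 309489750635697916281356289) (nat_lit 5) (nat_lit 0)) .nil)) .nil))) .nil)))) .nil))),
 (.br (nat_lit 9) (nat_lit 1) (.cons (.ev (nat_lit 79228167292115731921875697666) (nat_lit 2)) (.cons (.br (nat_lit 11) (nat_lit 1) (.cons (.rf (nat_lit 4232) (nat_lit 457824828835778364480)) (.cons (.br (nat_lit 10) (nat_lit 1) (.cons (.ev (nat_lit 317225761881665348877418759428) (nat_lit 3)) .nil)) .nil))) .nil))),
 (.br (nat_lit 13) (nat_lit 0) (.cons (.br (nat_lit 5) (nat_lit 0) (.cons (.br (nat_lit 7) (nat_lit 0) (.cons (.br (nat_lit 2) (nat_lit 0) (.cons (.ev (nat_lit 79538861172271781264912089345) (nat_lit 1)) .nil)) .nil)) (.cons (.ev (nat_lit 79228167255077847111387054081) (nat_lit 1)) .nil))) (.cons (.br (nat_lit 5) (nat_lit 0) (.cons (.br (nat_lit 2) (nat_lit 0) (.cons (.br (nat_lit 11) (nat_lit 1) (.cons (.ev (nat_lit 79537647524085965241052102913) (nat_lit 1)) .nil)) .nil)) (.cons (.br (nat_lit 11) (nat_lit 1) (.cons (.ev (nat_lit 310693935640960801722925313) (nat_lit 1)) (.cons (.ev (nat_lit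 309485028340428215743938561) (nat_lit 1)) .nil))) .nil))) (.cons (.br (nat_lit 7) (nat_lit 0) (.cons (.br (nat_lit 10) (nat_lit 1) (.cons (.br (nat_lit 11) (nat_lit 1) (.cons (.ev (nat_lit 79538861172271781264912089345) (nat_lit 1)) .nil)) (.cons (.br (nat_lit 2) (nat_lit 0) (.cons (.ev (nat_lit 79538861172271781264912089345) (nat_lit 1)) .nil)) .nil))) (.cons (.br (nat_lit 5) (nat_lit 0) (.cons (.ev (nat_lit 1213666632842672057876481) (nat_lit 1)) (.cons (.kr (nat_lit 309485009893402667057676288) (nat_lit 158456325028528676286599528448) (nat_lit 4) (nat_lit 0)) .nil))) (.cons (.br (nat_lit 2) (nat_lit 0) (.cons (.br (nat_lit 5) (nat_lit 0) (.cons (.ev (nat_lit 20837009168548109162587017774340) (nat_lit 3)) .nil)) (.cons (.ev (nat_lit 1208925891672223229477121) (nat_lit 1)) .nil))) .nil)))) .nil)))),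
 (.br (nat_lit 7) (nat_lit 0) (.cons (.rf (nat_lit 4303) (nat_lit 493858305440582043680)) (.cons (.br (nat_lit 13) (nat_lit 0) (.cons (.br (nat_lit 5) (nat_lit 0) (.cons (.br (nat_lit 11) (nat_lit 1) (.cons (.ev (nat_lit 310693935640960801722925313) (nat_lit 1)) .nil)) .nil)) (.cons (.kr (nat_lit 20440865928680199099134339186944) (nat_lit 4740885284537409470464) (nat_lit 1) (nat_lit 0)) .nil))) (.cons (.br (nat_lit 13) (nat_lit 0) (.cons (.br (nat_lit 2) (nat_lit 0) (.cons (.br (nat_lit 11) (nat_lit 1) (.cons (.ev (nat_lit 79538861172271781264912089345) (nat_lit 1)) .nil)) (.cons (.br (nat_lit 10) (nat_lit 1) (.cons (.ev (nat_lit 79538861172271781264912089345) (nat_lit 1)) .nil)) .nil))) (.cons (.kr (nat_lit 20282409608374036906816896499968) (nat_lit 18518801667764256768) (nat_lit 1) (nat_lit 0)) (.cons (.kr (nat_lit 20361637766165934761540795236608) (nat_lit 18518801667764256768) (nat_lit 1) (nat_lit 0)) .nil)))) .nil)))),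
 (.br (nat_lit 7) (nat_lit 0) (.cons (.rf (nat_lit 4303) (nat_lit 493858305440582043680)) (.cons (.rf (nat_lit 4304) (nat_lit 493858305440582043680)) (.cons (.br (nat_lit 5) (nat_lit 0) (.cons (.br (nat_lit 11) (nat_lit 1) (.cons (.br (nat_lit 13) (nat_lit 0) (.cons (.ev (nat_lit 313121269051603559771013890) (nat_lit 2)) .nil)) (.cons (.br (nat_lit 2) (nat_lit 0) (.cons (.ev (nat_lit 311912343303202099704103426) (nat_lit 2)) .nil)) .nil))) (.cons (.ev (nat_lit 1213666632842672057876481) (nat_lit 1)) (.cons (.br (nat_lit 9) (nat_lit 1) (.cons (.ev (nat_lit 79229376180969237859622977793) (nat_lit 1)) (.cons (.ev (nat_lit 79228167255077847111387054081) (nat_lit 1)) .nil))) .nil)))) .nil)))),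
 (.br (nat_lit 6) (nat_lit 1) (.cons (.rf (nat_lit 3419) (nat_lit 493787200025760303136)) (.cons (.br (nat_lit 11) (nat_lit 1) (.cons (.rf (nat_lit 3425) (nat_lit 493675982226662197280)) (.cons (.rf (nat_lit 4301) (nat_lit 493858305440582043680)) (.cons (.br (nat_lit 11) (nat_lit 1) (.cons (.rf (nat_lit 3425) (nat_lit 493679254373266458656)) (.cons (.rf (nat_lit 4301) (nat_lit 493858305440582043680)) .nil))) .nil)))) (.cons (.br (nat_lit 4) (nat_lit 1) (.cons (.ev (nat_lit 281474993553409) (nat_lit 1)) (.cons (.br (nat_lit 11) (nat_lit 1) (.cons (.rf (nat_lit 4302) (nat_lit 493858305440582043680)) (.cons (.br (nat_lit 11) (nat_lit 1) (.cons (.rf (nat_lit 4302) (nat_lit 493858305440582043680)) (.cons (.ev (nat_lit 79537647524157741355818287361) (nat_lit 1)) .nil))) (.cons (.br (nat_lit 11) (nat_lit 1) (.cons (.rf (nat_lit 4302) (nat_lit 493858305440582043680)) (.cons (.ev (nat_lit 79537647524157741355818287361) (nat_lit 1)) .nil))) .nil)))) (.cons (.br (nat_lit 10) (nat_lit 1) (.cons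 (.br (nat_lit 9) (nat_lit 1) (.cons (.rf (nat_lit 161) (nat_lit 14128189206188623904)) (.cons (.br (nat_lit 5) (nat_lit 0) (.cons (.br (nat_lit 11) (nat_lit 1) (.cons (.zr (nat_lit 618970019858862928153477120) (nat_lit 237685701209426135828154810369) (nat_lit 5) (nat_lit 0)) .nil)) .nil)) .nil))) (.cons (.ev (nat_lit 18447026648197890049) (nat_lit 1)) (.cons (.br (nat_lit 2) (nat_lit 0) (.cons (.br (nat_lit 11) (nat_lit 1) (.cons (.ev (nat_lit 79228167255149623234743304193) (nat_lit 1)) (.cons (.ev (nat_lit 20282409608392483650894901018881) (nat_lit 1)) .nil))) (.cons (.br (nat_lit 11) (nat_lit 1) (.cons (.ev (nat_lit 310693935640960801722925313) (nat_lit 1)) (.cons (.ev (nat_lit 20282719088661564108089285672961) (nat_lit 1)) .nil))) .nil))) .nil)))) (.cons (.rf (nat_lit 4232) (nat_lit 458116643612319221792)) .nil))))) (.cons (.br (nat_lit 7) (nat_lit 0) (.cons (.rf (nat_lit 4303) (nat_lit 493858305440582043680)) (.cons (.rf (nat_lit 4304) (nat_lit 493858305440582043680)) (.cons (.rf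 (nat_lit 4305) (nat_lit 493858305440582043680)) (.cons (.br (nat_lit 7) (nat_lit 0) (.cons (.rf (nat_lit 4303) (nat_lit 493858305440582043680)) (.cons (.rf (nat_lit 4304) (nat_lit 493858305440582043680)) (.cons (.rf (nat_lit 4305) (nat_lit 493858305440582043680)) .nil)))) .nil))))) .nil))))),
 (.br (nat_lit 9) (nat_lit 1) (.cons (.br (nat_lit 4) (nat_lit 1) (.cons (.br (nat_lit 11) (nat_lit 1) (.cons (.br (nat_lit 10) (nat_lit 1) (.cons (.ev (nat_lit 310693935640959702211297281) (nat_lit 1)) .nil)) .nil)) (.cons (.br (nat_lit 13) (nat_lit 0) (.cons (.rf (nat_lit 3993) (nat_lit 458117738729117419552)) (.cons (.br (nat_lit 7) (nat_lit 0) (.cons (.ev (nat_lit 310693935640959702211297281) (nat_lit 1)) .nil)) .nil))) .nil))) (.cons (.ev (nat_lit 79228167255077846011875426561) (nat_lit 1)) .nil))),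
 (.br (nat_lit 11) (nat_lit 1) (.cons (.rf (nat_lit 4307) (nat_lit 493858305440582043680)) (.cons (.br (nat_lit 9) (nat_lit 1) (.cons (.br (nat_lit 10) (nat_lit 1) (.cons (.ev (nat_lit 4740885567111897809153) (nat_lit 1)) (.cons (.ev (nat_lit 20361637770888301526984928788481) (nat_lit 1)) .nil))) (.cons (.br (nat_lit 4) (nat_lit 1) (.cons (.br (nat_lit 13) (nat_lit 0) (.cons (.ev (nat_lit 310693935640959702211297281) (nat_lit 1)) .nil)) (.cons (.br (nat_lit 1) (nat_lit 0) (.cons (.ev (nat_lit 310693935640959702211297281) (nat_lit 1)) .nil)) .nil))) (.cons (.br (nat_lit 1) (nat_lit 0) (.cons (.br (nat_lit 10) (nat_lit 1) (.cons (.ev (nat_lit 313121269051605758794268930) (nat_lit 2)) .nil)) (.cons (.br (nat_lit 4) (nat_lit 1) (.cons (.ev (nat_lit 20837014023140854671885201638148) (nat_lit 3)) .nil)) .nil))) .nil)))) .nil))),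
 (.br (nat_lit 13) (nat_lit 0) (.cons (.rf (nat_lit 4232) (nat_lit 458116643612319220800)) (.cons (.br (nat_lit 5) (nat_lit 0) (.cons (.br (nat_lit 1) (nat_lit 0) (.cons (.br (nat_lit 11) (nat_lit 1) (.cons (.ev (nat_lit 79538856468352322840146542593) (nat_lit 1)) .nil)) .nil)) (.cons (.rf (nat_lit 3497) (nat_lit 493675982221298731040)) .nil))) (.cons (.br (nat_lit 11) (nat_lit 1) (.cons (.br (nat_lit 7) (nat_lit 0) (.cons (.br (nat_lit 5) (nat_lit 0) (.cons (.zr (nat_lit 237684496987526544768410779648) (nat_lit 310694009427936009934340097) (nat_lit 5) (nat_lit 0)) .nil)) (.cons (.ev (nat_lit 79538856468352322840146542593) (nat_lit 1)) .nil))) (.cons (.rf (nat_lit 3577) (nat_lit 493853768858827065376)) (.cons (.rf (nat_lit 3217) (nat_lit 493858305440481383456)) .nil)))) .nil)))),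
 (.br (nat_lit 13) (nat_lit 0) (.cons (.rf (nat_lit 4232) (nat_lit 458116643612319220800)) (.cons (.rf (nat_lit 4309) (nat_lit 493858305440582043680)) (.cons (.br (nat_lit 5) (nat_lit 0) (.cons (.br (nat_lit 7) (nat_lit 0) (.cons (.ev (nat_lit 20361637770888373303108285038593) (nat_lit 1)) (.cons (.ev (nat_lit 40565128692331680994643876577282) (nat_lit 2)) .nil))) (.cons (.br (nat_lit 4) (nat_lit 1) (.cons (.br (nat_lit 7) (nat_lit 0) (.cons (.ev (nat_lit 310693935640959702211297281) (nat_lit 1)) .nil)) (.cons (.ev (nat_lit 79229376162450717671163953153) (nat_lit 1)) .nil))) (.cons (.rf (nat_lit 3577) (nat_lit 493853768858827065376)) .nil)))) .nil))))]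

theorem c160 : chkAll C T R L160 (nat_lit 4289) = true := by decide +kernel

theorem l160 : (nat_lit 4289) + L160.length = (nat_lit 4311) := by decide +kernel

/-- part of the certificates -/
def L161 : List Prf := [(.br (nat_lit 11) (nat_lit 1) (.cons (.rf (nat_lit 3425) (nat_lit 493855950289896572960)) (.cons (.br (nat_lit 7) (nat_lit 0) (.cons (.kr (nat_lit 18446744078004518912) (nat_lit 79228162514264619068520660992) (nat_lit 4) (nat_lit 0)) (.cons (.br (nat_lit 4) (nat_lit 1) (.cons (.ev (nat_lit 4722366482873940181249) (nat_lit 1)) (.cons (.rf (nat_lit 3887) (nat_lit 493856055839791613984)) .nil))) (.cons (.ev (nat_lit 79538856468352322840146542593) (nat_lit 1)) .nil)))) (.cons (.br (nat_lit 4) (nat_lit 1) (.cons (.br (nat_lit 9) (nat_lit 1) (.cons (.ev (nat_lit 4722366482873940181249) (nat_lit 1)) .nil)) (.cons (.kr (nat_lit 18446744078004518912) (nat_lit 79228162514264619068520660992) (nat_lit 4) (nat_lit 0)) .nil))) .nil)))),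
 (.br (nat_lit 11) (nat_lit 1) (.cons (.rf (nat_lit 4311) (nat_lit 493858305440582043680)) (.cons (.rf (nat_lit 4025) (nat_lit 493858271355721582624)) (.cons (.br (nat_lit 7) (nat_lit 0) (.cons (.kr (nat_lit 18446744078004518912) (nat_lit 79228162514264619068520660992) (nat_lit 4) (nat_lit 0)) (.cons (.br (nat_lit 5) (nat_lit 0) (.cons (.ev (nat_lit 20282409603651742482645095874561) (nat_lit 1)) (.cons (.rf (nat_lit 4026) (nat_lit 493857139958262892576)) .nil))) (.cons (.br (nat_lit 5) (nat_lit 0) (.cons (.ev (nat_lit 121853230685577293967061384822788) (nat_lit 3)) (.cons (.ev (nat_lit 1213666632842672057876481) (nat_lit 1)) .nil))) .nil)))) .nil)))),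
 (.br (nat_lit 6) (nat_lit 1) (.cons (.rf (nat_lit 3419) (nat_lit 493787200025760303136)) (.cons (.br (nat_lit 11) (nat_lit 1) (.cons (.rf (nat_lit 4307) (nat_lit 493858305440582043680)) (.cons (.rf (nat_lit 4308) (nat_lit 493858305440582043680)) (.cons (.br (nat_lit 11) (nat_lit 1) (.cons (.rf (nat_lit 4307) (nat_lit 493858305440582043680)) (.cons (.rf (nat_lit 4308) (nat_lit 493858305440582043680)) .nil))) .nil)))) (.cons (.br (nat_lit 13) (nat_lit 0) (.cons (.rf (nat_lit 4232) (nat_lit 458116643612319220800)) (.cons (.rf (nat_lit 4309) (nat_lit 493858305440582043680)) (.cons (.rf (nat_lit 4310) (nat_lit 493858305440582043680)) (.cons (.br (nat_lit 13) (nat_lit 0) (.cons (.rf (nat_lit 4232) (nat_lit 458116643612319220800)) (.cons (.rf (nat_lit 4309) (nat_lit 493858305440582043680)) (.cons (.rf (nat_lit 4310) (nat_lit 493858305440582043680)) .nil)))) .nil))))) (.cons (.br (nat_lit 11) (nat_lit 1) (.cons (.rf (nat_lit 4311) (nat_lit 493858305440582043680)) (.cons (.rf (nat_lit 4025)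 (nat_lit 493858271355721582624)) (.cons (.rf (nat_lit 4312) (nat_lit 493858305440582043680)) (.cons (.br (nat_lit 11) (nat_lit 1) (.cons (.rf (nat_lit 4311) (nat_lit 493858305440582043680)) (.cons (.rf (nat_lit 4025) (nat_lit 493858271355721582624)) (.cons (.rf (nat_lit 4312) (nat_lit 493858305440582043680)) .nil)))) .nil))))) .nil))))),
 (.br (nat_lit 11) (nat_lit 1) (.cons (.rf (nat_lit 2725) (nat_lit 493750005747490850848)) (.cons (.br (nat_lit 9) (nat_lit 1) (.cons (.ev (nat_lit 309485028268090241946026241) (nat_lit 1)) (.cons (.rf (nat_lit 4232) (nat_lit 457824828835778365472)) .nil))) (.cons (.br (nat_lit 4) (nat_lit 1) (.cons (.br (nat_lit 7) (nat_lit 0) (.cons (.ev (nat_lit 72057598349672449) (nat_lit 1)) (.cons (.br (nat_lit 9) (nat_lit 1) (.cons (.ev (nat_lit 20679174231501832225332201064196) (nat_lit 3)) .nil)) .nil))) (.cons (.br (nat_lit 2) (nat_lit 0) (.cons (.br (nat_lit 13) (nat_lit 0) (.cons (.ev (nat_lit 20520096547010583399856760489224) (nat_lit 4)) .nil)) (.cons (.ev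 (nat_lit 1208925891672223229477121) (nat_lit 1)) .nil))) (.cons (.br (nat_lit 9) (nat_lit 1) (.cons (.br (nat_lit 7) (nat_lit 0) (.cons (.ev (nat_lit 20522584478493767902260908985096) (nat_lit 4)) .nil)) (.cons (.rf (nat_lit 3884) (nat_lit 493853804042125412384)) .nil))) .nil)))) .nil)))),
 (.br (nat_lit 11) (nat_lit 1) (.cons (.rf (nat_lit 4314) (nat_lit 493858305440582043680)) (.cons (.rf (nat_lit 3543) (nat_lit 493751241598560208928)) (.cons (.br (nat_lit 4) (nat_lit 1) (.cons (.ev (nat_lit 79537647524157741355818287361) (nat_lit 1)) (.cons (.br (nat_lit 10) (nat_lit 1) (.cons (.ev (nat_lit 79229371440156291296028262401) (nat_lit 1)) (.cons (.br (nat_lit 1) (nat_lit 0) (.cons (.ev (nat_lit 20680407326355779221722444792580) (nat_lit 3)) .nil)) .nil))) (.cons (.br (nat_lit 1) (nat_lit 0) (.cons (.br (nat_lit 10) (nat_lit 1) (.cons (.ev (nat_lit 20520103781601383497569112361736) (nat_lit 4)) .nil)) (.cons (.br (nat_lit 2) (nat_lit 0) (.cons (.ev (nat_lit 22583757194019159425084457419024)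 (nat_lit 5)) .nil)) .nil))) .nil)))) .nil)))),
 (.br (nat_lit 7) (nat_lit 0) (.cons (.ev (nat_lit 79228167255149623234743304193) (nat_lit 1)) (.cons (.kr (nat_lit 1208925819615728686333952) (nat_lit 72339069014638592) (nat_lit 5) (nat_lit 0)) .nil))),
 (.br (nat_lit 11) (nat_lit 1) (.cons (.br (nat_lit 7) (nat_lit 0) (.cons (.kr (nat_lit 20361637766166006819134833164544) (nat_lit 9444732966838802120704) (nat_lit 1) (nat_lit 0)) .nil)) .nil)),
 (.br (nat_lit 2) (nat_lit 0) (.cons (.br (nat_lit 11) (nat_lit 1) (.cons (.rf (nat_lit 4316) (nat_lit 493858305440582043680)) (.cons (.ev (nat_lit 20361637766184381505618799755521) (nat_lit 1)) .nil))) (.cons (.ev (nat_lit 79228167255077846011875426561) (nat_lit 1)) (.cons (.br (nat_lit 4) (nat_lit 1) (.cons (.br (nat_lit 11) (nat_lit 1) (.cons (.ev (nat_lit 309485028340428215743938561) (nat_lit 1)) (.cons (.zr (nat_lit 40564819207303340851197332619264) (nat_lit 310693954088548196555948033) (nat_lit 5) (nat_lit 0)) .nil))) (.cons (.rf (nat_lit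 4317) (nat_lit 493858305440582043680)) .nil))) (.cons (.rf (nat_lit 2725) (nat_lit 493750005747490850848)) .nil))))),
 (.br (nat_lit 7) (nat_lit 0) (.cons (.kr (nat_lit 79228162514336958137535299840) (nat_lit 20282409603651670425055352913920) (nat_lit 1) (nat_lit 0)) .nil)),
 (.br (nat_lit 11) (nat_lit 1) (.cons (.rf (nat_lit 4318) (nat_lit 493858305440582043680)) (.cons (.rf (nat_lit 3577) (nat_lit 493679254373266458656)) (.cons (.br (nat_lit 10) (nat_lit 1) (.cons (.br (nat_lit 4) (nat_lit 1) (.cons (.rf (nat_lit 4316) (nat_lit 493858305440582043680)) (.cons (.br (nat_lit 2) (nat_lit 0) (.cons (.ev (nat_lit 79228167255149623234743304193) (nat_lit 1)) .nil)) .nil))) (.cons (.br (nat_lit 9) (nat_lit 1) (.cons (.rf (nat_lit 4319) (nat_lit 493858305440582043680)) (.cons (.rf (nat_lit 4037) (nat_lit 493857069591666198560)) .nil))) (.cons (.kr (nat_lit 1208925819615728686333952) (nat_lit 72339069014638592) (nat_lit 5) (nat_lit 0)) .nil)))) .nil)))),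
 (.br (nat_lit 6) (nat_lit 1) (.cons (.rf (nat_lit 4306) (nat_lit 493858305440582043680)) (.cons (.rf (nat_lit 4313) (nat_lit 493858305440582043680)) (.cons (.br (nat_lit 11) (nat_lit 1) (.cons (.rf (nat_lit 4314) (nat_lit 493858305440582043680)) (.cons (.br (nat_lit 1) (nat_lit 0) (.cons (.rf (nat_lit 3863) (nat_lit 493853838126985873440)) (.cons (.rf (nat_lit 3863) (nat_lit 493853832629432977440)) (.cons (.rf (nat_lit 3863) (nat_lit 493853797445061937184)) (.cons (.rf (nat_lit 2725) (nat_lit 493750005747490850848)) .nil))))) (.cons (.rf (nat_lit 4315) (nat_lit 493858305440582043680)) (.cons (.br (nat_lit 11) (nat_lit 1) (.cons (.rf (nat_lit 4314) (nat_lit 493858305440582043680)) (.cons (.rf (nat_lit 4025) (nat_lit 493678232925890512928)) (.cons (.rf (nat_lit 4315) (nat_lit 493858305440582043680)) .nil)))) .nil))))) (.cons (.br (nat_lit 11) (nat_lit 1) (.cons (.rf (nat_lit 4318) (nat_lit 493858305440582043680)) (.cons (.br (nat_lit 11) (nat_lit 1) (.cons (.rf (nat_lit 2725) (nat_lit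 493750005747490850848)) (.cons (.rf (nat_lit 3577) (nat_lit 493679254373266458656)) (.cons (.rf (nat_lit 4025) (nat_lit 493678232925890512928)) .nil)))) (.cons (.rf (nat_lit 4320) (nat_lit 493858305440582043680)) (.cons (.br (nat_lit 11) (nat_lit 1) (.cons (.rf (nat_lit 4318) (nat_lit 493858305440582043680)) (.cons (.rf (nat_lit 4025) (nat_lit 493678232925890512928)) (.cons (.rf (nat_lit 4320) (nat_lit 493858305440582043680)) .nil)))) .nil))))) .nil))))),
 (.br (nat_lit 9) (nat_lit 1) (.cons (.kr (nat_lit 20520094091194463437827394765056) (nat_lit 618970019714747740077490176) (nat_lit 1) (nat_lit 0)) .nil)),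
 (.br (nat_lit 4) (nat_lit 1) (.cons (.ev (nat_lit 20361638975110273459316989100033) (nat_lit 1)) (.cons (.ev (nat_lit 40644047379280929857125960777730) (nat_lit 2)) .nil))),
 (.br (nat_lit 6) (nat_lit 1) (.cons (.rf (nat_lit 4306) (nat_lit 493858305440582043680)) (.cons (.rf (nat_lit 4313) (nat_lit 493858305440582043680)) (.cons (.rf (nat_lit 4321) (nat_lit 493858305440582043680)) (.cons (.br (nat_lit 7) (nat_lit 0) (.cons (.br (nat_lit 5) (nat_lit 0) (.cons (.br (nat_lit 11) (nat_lit 1) (.cons (.ev (nat_lit 4722366482873940181249) (nat_lit 1)) (.cons (.br (nat_lit 13) (nat_lit 0) (.cons (.ev (nat_lit 20361637770888373303108285038593) (nat_lit 1)) (.cons (.kr (nat_lit 20282409603651670423951546253312) (nat_lit 4722366764344621924352) (nat_lit 4) (nat_lit 0)) .nil))) (.cons (.kr (nat_lit 20282409603651670423951546253312) (nat_lit 4722366764344621924352) (nat_lit 4) (nat_lit 0)) .nil)))) (.cons (.br (nat_lit 2) (nat_lit 0) (.cons (.ev (nat_lit 79228162514336677762070282241) (nat_lit 1))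 (.cons (.br (nat_lit 13) (nat_lit 0) (.cons (.zr (nat_lit 20282409603651814541334350528512) (nat_lit 1213666633123047522959361) (nat_lit 5) (nat_lit 0)) (.cons (.ev (nat_lit 159076504029404114193825726466) (nat_lit 2)) .nil))) .nil))) (.cons (.br (nat_lit 11) (nat_lit 1) (.cons (.rf (nat_lit 3784) (nat_lit 493565395547242989600)) (.cons (.rf (nat_lit 3784) (nat_lit 493565395547242988608)) (.cons (.br (nat_lit 2) (nat_lit 0) (.cons (.ev (nat_lit 79228167255149623234743304193) (nat_lit 1)) (.cons (.rf (nat_lit 4322) (nat_lit 493858305440582043680)) .nil))) .nil)))) .nil)))) (.cons (.ev (nat_lit 79228162532783420736284917761) (nat_lit 1)) (.cons (.br (nat_lit 5) (nat_lit 0) (.cons (.br (nat_lit 2) (nat_lit 0) (.cons (.ev (nat_lit 79228162514336677762070282241) (nat_lit 1)) (.cons (.br (nat_lit 11) (nat_lit 1) (.cons (.ev (nat_lit 79228162532711082771076940033) (nat_lit 1)) (.cons (.ev (nat_lit 20520096509064694372975794782210) (nat_lit 2)) .nil))) .nil))) (.cons (.ev (nat_lit 1213666632842672057876481)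 (nat_lit 1)) (.cons (.br (nat_lit 11) (nat_lit 1) (.cons (.rf (nat_lit 3784) (nat_lit 493565395547242989600)) (.cons (.rf (nat_lit 3784) (nat_lit 493565395547242988608)) (.cons (.br (nat_lit 9) (nat_lit 1) (.cons (.zr (nat_lit 61005994620993361292097566540544) (nat_lit 1213685079587845279055873) (nat_lit 5) (nat_lit 9)) (.cons (.ev (nat_lit 20362260377148654830615963762690) (nat_lit 2)) .nil))) .nil)))) .nil)))) (.cons (.br (nat_lit 5) (nat_lit 0) (.cons (.br (nat_lit 10) (nat_lit 1) (.cons (.ev (nat_lit 79228162514264337597838917889) (nat_lit 1)) (.cons (.ev (nat_lit 158458742898759327765328232450) (nat_lit 2)) (.cons (.br (nat_lit 9) (nat_lit 1) (.cons (.ev (nat_lit 20361640193462307238026330243586) (nat_lit 2)) (.cons (.ev (nat_lit 20361637775647706177252419043330) (nat_lit 2)) .nil))) .nil)))) (.cons (.br (nat_lit 13) (nat_lit 0) (.cons (.br (nat_lit 10) (nat_lit 1) (.cons (.br (nat_lit 11) (nat_lit 1) (.cons (.ev (nat_lit 79850759329885238448126820610) (nat_lit 2)) .nil)) (.cons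 (.br (nat_lit 11) (nat_lit 1) (.cons (.ev (nat_lit 20838870904865583847270011699460) (nat_lit 3)) .nil)) .nil))) (.cons (.rf (nat_lit 4323) (nat_lit 493858305440582043680)) (.cons (.br (nat_lit 2) (nat_lit 0) (.cons (.kr (nat_lit 40644047369817605185492341489664) (nat_lit 9463179991287976689664) (nat_lit 4) (nat_lit 0)) (.cons (.ev (nat_lit 20361638975091754377269498347521) (nat_lit 1)) .nil))) .nil)))) (.cons (.br (nat_lit 9) (nat_lit 1) (.cons (.br (nat_lit 2) (nat_lit 0) (.cons (.br (nat_lit 11) (nat_lit 1) (.cons (.ev (nat_lit 79850759311582046603966480386) (nat_lit 2)) .nil)) (.cons (.ev (nat_lit 620188427161663970870427650) (nat_lit 2)) .nil))) (.cons (.br (nat_lit 11) (nat_lit 1) (.cons (.ev (nat_lit 160314453458225787921641112580) (nat_lit 3)) (.cons (.ev (nat_lit 159076513455834452146977374210) (nat_lit 2)) .nil))) (.cons (.br (nat_lit 2) (nat_lit 0) (.cons (.zr (nat_lit 20282409603651814541334350528512) (nat_lit 1213666633123047522959361) (nat_lit 5) (nat_lit 0)) (.cons (.ev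 (nat_lit 317532838447326086948557291524) (nat_lit 3)) .nil))) .nil)))) (.cons (.br (nat_lit 2) (nat_lit 0) (.cons (.br (nat_lit 10) (nat_lit 1) (.cons (.br (nat_lit 13) (nat_lit 0) (.cons (.ev (nat_lit 21473934164093063108953612027656) (nat_lit 4)) .nil)) (.cons (.br (nat_lit 9) (nat_lit 1) (.cons (.ev (nat_lit 79230589829083558152788509186) (nat_lit 2)) .nil)) .nil))) (.cons (.br (nat_lit 10) (nat_lit 1) (.cons (.br (nat_lit 13) (nat_lit 0) (.cons (.zr (nat_lit 237684487542865073673204793344) (nat_lit 620183667829069119836127233) (nat_lit 5) (nat_lit 0)) .nil)) (.cons (.br (nat_lit 1) (nat_lit 0) (.cons (.ev (nat_lit 1208944266641281667629313) (nat_lit 1)) .nil)) .nil))) (.cons (.br (nat_lit 1) (nat_lit 0) (.cons (.ev (nat_lit 1208925891672223229477121) (nat_lit 1)) (.cons (.br (nat_lit 4) (nat_lit 1) (.cons (.ev (nat_lit 20680414598763702256944755836676) (nat_lit 3)) .nil)) .nil))) .nil)))) .nil))))) .nil))))) .nil))))),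
 (.br (nat_lit 8) (nat_lit 1) (.cons (.rf (nat_lit 3419) (nat_lit 493604770158142031904)) (.cons (.br (nat_lit 11) (nat_lit 1) (.cons (.rf (nat_lit 4279) (nat_lit 493858305440582043680)) (.cons (.rf (nat_lit 4285) (nat_lit 493858305440582043680)) (.cons (.rf (nat_lit 4290) (nat_lit 493858305440582043680)) (.cons (.br (nat_lit 11) (nat_lit 1) (.cons (.rf (nat_lit 4279) (nat_lit 493858305440582043680)) (.cons (.rf (nat_lit 4285) (nat_lit 493858305440582043680)) (.cons (.rf (nat_lit 4290) (nat_lit 493858305440582043680)) .nil)))) .nil))))) (.cons (.br (nat_lit 13) (nat_lit 0) (.cons (.rf (nat_lit 4296) (nat_lit 493858305440582043680)) (.cons (.rf (nat_lit 4297) (nat_lit 493858305440582043680)) (.cons (.rf (nat_lit 4299) (nat_lit 493858305440582043680)) (.cons (.rf (nat_lit 4300) (nat_lit 493858305440582043680)) (.cons (.br (nat_lit 13) (nat_lit 0) (.cons (.rf (nat_lit 4296) (nat_lit 493858305440582043680)) (.cons (.rf (nat_lit 4232) (nat_lit 457864203446677406784)) (.cons (.rf (nat_lit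 4299) (nat_lit 493858305440582043680)) (.cons (.rf (nat_lit 4300) (nat_lit 493858305440582043680)) .nil))))) .nil)))))) (.cons (.br (nat_lit 6) (nat_lit 1) (.cons (.rf (nat_lit 4306) (nat_lit 493858305440582043680)) (.cons (.rf (nat_lit 4313) (nat_lit 493858305440582043680)) (.cons (.rf (nat_lit 4321) (nat_lit 493858305440582043680)) (.cons (.rf (nat_lit 4324) (nat_lit 493858305440582043680)) (.cons (.br (nat_lit 6) (nat_lit 1) (.cons (.rf (nat_lit 4306) (nat_lit 493858305440582043680)) (.cons (.rf (nat_lit 4313) (nat_lit 493858305440582043680)) (.cons (.rf (nat_lit 4321) (nat_lit 493858305440582043680)) (.cons (.rf (nat_lit 4324) (nat_lit 493858305440582043680)) .nil))))) .nil)))))) .nil))))),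
 (.br (nat_lit 6) (nat_lit 1) (.cons (.br (nat_lit 10) (nat_lit 1) (.cons (.ev (nat_lit 1208925891954797701038081) (nat_lit 1)) (.cons (.rf (nat_lit 4275) (nat_lit 493858305440582043680)) .nil))) .nil)),
 (.br (nat_lit 6) (nat_lit 1) (.cons (.br (nat_lit 9) (nat_lit 1) (.cons (.ev (nat_lit 79228167255077846011875426561) (nat_lit 1)) (.cons (.br (nat_lit 13) (nat_lit 0) (.cons (.br (nat_lit 10) (nat_lit 1) (.cons (.ev (nat_lit 79229371440156292395539890433) (nat_lit 1)) .nil)) (.cons (.br (nat_lit 4) (nat_lit 1) (.cons (.ev (nat_lit 79229371440156292395539890433) (nat_lit 1)) .nil)) .nil))) .nil))) (.cons (.br (nat_lit 7) (nat_lit 0) (.cons (.br (nat_lit 2) (nat_lit 0) (.cons (.br (nat_lit 13) (nat_lit 0) (.cons (.ev (nat_lit 21153921846977126399849609102600) (nat_lit 4)) .nil)) (.cons (.ev (nat_lit 1208925891672223229477121) (nat_lit 1)) .nil))) (.cons (.br (nat_lit 4) (nat_lit 1) (.cons (.br (nat_lit 13) (nat_lit 0) (.cons (.ev (nat_lit 20837006760141060466141263495940) (nat_lit 3))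 .nil)) (.cons (.rf (nat_lit 3884) (nat_lit 493856055839791613984)) .nil))) (.cons (.br (nat_lit 13) (nat_lit 0) (.cons (.ev (nat_lit 20282719088661564108089285672961) (nat_lit 1)) (.cons (.br (nat_lit 2) (nat_lit 0) (.cons (.zr (nat_lit 1218407446068515884237568) (nat_lit 309485009965741736089092097) (nat_lit 5) (nat_lit 11)) .nil)) .nil))) .nil)))) .nil))),
 (.br (nat_lit 6) (nat_lit 1) (.cons (.rf (nat_lit 4327) (nat_lit 493858305440582043680)) (.cons (.br (nat_lit 9) (nat_lit 1) (.cons (.br (nat_lit 10) (nat_lit 1) (.cons (.br (nat_lit 4) (nat_lit 1) (.cons (.ev (nat_lit 20679169395724334440532586988292) (nat_lit 3)) .nil)) (.cons (.br (nat_lit 2) (nat_lit 0) (.cons (.ev (nat_lit 21154538399144121054412179178760) (nat_lit 4)) .nil)) .nil))) (.cons (.ev (nat_lit 79228167255077846011875426561) (nat_lit 1)) .nil))) .nil))),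
 (.br (nat_lit 11) (nat_lit 1) (.cons (.rf (nat_lit 3419) (nat_lit 493565395547242989600)) (.cons (.br (nat_lit 6) (nat_lit 1) (.cons (.rf (nat_lit 4326) (nat_lit 493858305440582043680)) (.cons (.br (nat_lit 6) (nat_lit 1) (.cons (.rf (nat_lit 4326) (nat_lit 493858305440582043680)) .nil)) .nil))) (.cons (.br (nat_lit 6) (nat_lit 1) (.cons (.rf (nat_lit 4327) (nat_lit 493858305440582043680)) (.cons (.rf (nat_lit 4328) (nat_lit 493858305440582043680)) (.cons (.br (nat_lit 6) (nat_lit 1) (.cons (.rf (nat_lit 4327) (nat_lit 493858305440582043680)) (.cons (.rf (nat_lit 4328) (nat_lit 493858305440582043680)) .nil))) .nil)))) .nil))))]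

theorem c161 : chkAll C T R L161 (nat_lit 4311) = true := by decide +kernel

theorem l161 : (nat_lit 4311) + L161.length = (nat_lit 4330) := by decide +kernel

/-- part of the certificates -/
def L162 : List Prf := [(.br (nat_lit 6) (nat_lit 1) (.cons (.rf (nat_lit 2725) (nat_lit 493858094337570834464)) (.cons (.br (nat_lit 10) (nat_lit 1) (.cons (.rf (nat_lit 3897) (nat_lit 493853804042125412384)) (.cons (.br (nat_lit 13) (nat_lit 0) (.cons (.br (nat_lit 9) (nat_lit 1) (.cons (.zr (nat_lit 618970038305606997601419264) (nat_lit 158457538676715056359907786753) (nat_lit 5) (nat_lit 6)) .nil)) (.cons (.kr (nat_lit 4740813226943354765568) (nat_lit 309485009893402662779486208) (nat_lit 1) (nat_lit 0)) .nil))) .nil))) (.cons (.br (nat_lit 9) (nat_lit 1) (.cons (.br (nat_lit 13) (nat_lit 0) (.cons (.ev (nat_lit 79537647524085965241052102913) (nat_lit 1)) (.cons (.ev (nat_lit 79229371440084233697712209921) (nat_lit 1)) .nil))) (.cons (.ev (nat_lit 79228162532783421835796545793) (nat_lit 1))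 (.cons (.br (nat_lit 2) (nat_lit 0) (.cons (.ev (nat_lit 20361947251175756106613814984961) (nat_lit 1)) (.cons (.ev (nat_lit 20361638975091754377269498347521) (nat_lit 1)) .nil))) .nil)))) .nil)))),
 (.br (nat_lit 6) (nat_lit 1) (.cons (.rf (nat_lit 4330) (nat_lit 493858305440582043680)) (.cons (.rf (nat_lit 3543) (nat_lit 493853768858827065376)) (.cons (.br (nat_lit 9) (nat_lit 1) (.cons (.br (nat_lit 2) (nat_lit 0) (.cons (.ev (nat_lit 79228167255149622135231676673) (nat_lit 1)) (.cons (.br (nat_lit 4) (nat_lit 1) (.cons (.zr (nat_lit 618970038305606997601419264) (nat_lit 158457538676715056359907786753) (nat_lit 5) (nat_lit 6)) .nil)) .nil))) (.cons (.br (nat_lit 1) (nat_lit 0) (.cons (.ev (nat_lit 79228167255149622135231676673) (nat_lit 1)) (.cons (.br (nat_lit 13) (nat_lit 0) (.cons (.zr (nat_lit 618970038305606997601419264) (nat_lit 158457538676715056359907786753) (nat_lit 5) (nat_lit 6)) .nil)) .nil))) (.cons (.br (nat_lit 2) (nat_lit 0) (.cons (.ev (nat_lit 20361637770906820046082499674113)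 (nat_lit 1)) (.cons (.ev (nat_lit 20361638975091754377269498347521) (nat_lit 1)) .nil))) .nil)))) .nil)))),
 (.br (nat_lit 11) (nat_lit 1) (.cons (.rf (nat_lit 3419) (nat_lit 493565395547242989600)) (.cons (.br (nat_lit 1) (nat_lit 0) (.cons (.rf (nat_lit 4046) (nat_lit 493678232925890512928)) (.cons (.br (nat_lit 6) (nat_lit 1) (.cons (.rf (nat_lit 795) (nat_lit 15071255161145376)) (.cons (.br (nat_lit 10) (nat_lit 1) (.cons (.rf (nat_lit 3462) (nat_lit 493679253268392413216)) (.cons (.rf (nat_lit 4280) (nat_lit 493858305440582043680)) .nil))) .nil))) (.cons (.rf (nat_lit 4046) (nat_lit 493678227428337616928)) (.cons (.rf (nat_lit 4046) (nat_lit 493677101528431822880)) .nil))))) (.cons (.br (nat_lit 6) (nat_lit 1) (.cons (.rf (nat_lit 4330) (nat_lit 493858305440582043680)) (.cons (.br (nat_lit 6) (nat_lit 1) (.cons (.rf (nat_lit 2725) (nat_lit 493858094337570834464)) (.cons (.rf (nat_lit 3543) (nat_lit 493853768858827065376)) (.cons (.rf (nat_lit 4025) (nat_lit 493750290517780957216))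 .nil)))) (.cons (.rf (nat_lit 4331) (nat_lit 493858305440582043680)) (.cons (.br (nat_lit 6) (nat_lit 1) (.cons (.rf (nat_lit 4330) (nat_lit 493858305440582043680)) (.cons (.rf (nat_lit 4025) (nat_lit 493750290517780957216)) (.cons (.rf (nat_lit 4331) (nat_lit 493858305440582043680)) .nil)))) .nil))))) .nil)))),
 (.br (nat_lit 6) (nat_lit 1) (.cons (.br (nat_lit 10) (nat_lit 1) (.cons (.ev (nat_lit 1208925891672223229477121) (nat_lit 1)) (.cons (.rf (nat_lit 3818) (nat_lit 493856055839791613984)) .nil))) (.cons (.ev (nat_lit 79537647524158021731300147201) (nat_lit 1)) .nil))),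
 (.br (nat_lit 13) (nat_lit 0) (.cons (.rf (nat_lit 4333) (nat_lit 493858305440582043680)) (.cons (.br (nat_lit 6) (nat_lit 1) (.cons (.ev (nat_lit 20282720297605830186412409880833) (nat_lit 1)) (.cons (.ev (nat_lit 79538856468352041365153054721) (nat_lit 1)) .nil))) .nil))),
 (.br (nat_lit 9) (nat_lit 1) (.cons (.ev (nat_lit 20361947255898194928552474836993) (nat_lit 1)) .nil)),
 (.br (nat_lit 11) (nat_lit 1) (.cons (.rf (nat_lit 4329) (nat_lit 493858305440582043680)) (.cons (.rf (nat_lit 4332) (nat_lit 493858305440582043680)) (.cons (.br (nat_lit 4) (nat_lit 1) (.cons (.ev (nat_lit 79537647524157741355818287361) (nat_lit 1)) (.cons (.br (nat_lit 13) (nat_lit 0) (.cons (.rf (nat_lit 4333) (nat_lit 493858305440582043680)) (.cons (.rf (nat_lit 4334) (nat_lit 493858305440582043680)) (.cons (.br (nat_lit 13) (nat_lit 0) (.cons (.rf (nat_lit 4333) (nat_lit 493858305440582043680)) (.cons (.rf (nat_lit 4334) (nat_lit 493858305440582043680)) .nil))) .nil)))) (.cons (.br (nat_lit 6) (nat_lit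 1) (.cons (.br (nat_lit 6) (nat_lit 1) (.cons (.rf (nat_lit 3419) (nat_lit 493787200025760303136)) (.cons (.rf (nat_lit 4335) (nat_lit 493858305440582043680)) .nil))) (.cons (.br (nat_lit 6) (nat_lit 1) (.cons (.rf (nat_lit 3419) (nat_lit 493787200025760303136)) (.cons (.ev (nat_lit 79537647524158021731300147201) (nat_lit 1)) .nil))) (.cons (.br (nat_lit 6) (nat_lit 1) (.cons (.rf (nat_lit 4335) (nat_lit 493858305440582043680)) (.cons (.ev (nat_lit 79537647524158021731300147201) (nat_lit 1)) .nil))) .nil)))) .nil)))) .nil)))),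
 (.br (nat_lit 11) (nat_lit 1) (.cons (.br (nat_lit 10) (nat_lit 1) (.cons (.ev (nat_lit 79537647542604765804992987393) (nat_lit 1)) (.cons (.ev (nat_lit 20282719088661564108089285672961) (nat_lit 1)) .nil))) .nil)),
 (.br (nat_lit 2) (nat_lit 0) (.cons (.rf (nat_lit 3466) (nat_lit 15427372139130488864)) (.cons (.br (nat_lit 7) (nat_lit 0) (.cons (.kr (nat_lit 158456329750895159156244742400) (nat_lit 18518801676337479680) (nat_lit 1) (nat_lit 0)) (.cons (.ev (nat_lit 309485028340428215743938561) (nat_lit 1)) .nil))) .nil))),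
 (.br (nat_lit 7) (nat_lit 0) (.cons (.rf (nat_lit 4338) (nat_lit 493858305440582043680)) (.cons (.br (nat_lit 13) (nat_lit 0) (.cons (.br (nat_lit 11) (nat_lit 1) (.cons (.ev (nat_lit 79538856449977355989288026113) (nat_lit 1)) .nil)) (.cons (.kr (nat_lit 4740813226943354765312) (nat_lit 20361637766165934761540795236352) (nat_lit 8) (nat_lit 0)) .nil))) .nil))),
 (.br (nat_lit 13) (nat_lit 0) (.cons (.br (nat_lit 2) (nat_lit 0) (.cons (.br (nat_lit 11) (nat_lit 1) (.cons (.zr (nat_lit 933309622208426301015982592) (nat_lit 316912650094023740553447866370) (nat_lit 10) (nat_lit 11)) .nil)) .nil)) (.cons (.br (nat_lit 7) (nat_lit 0) (.cons (.kr (nat_lit 4740813226943354765312) (nat_lit 20361637766165934761540795236352) (nat_lit 8) (nat_lit 0)) (.cons (.rf (nat_lit 3469) (nat_lit 493679253268392413216)) .nil))) .nil))),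
 (.br (nat_lit 2) (nat_lit 0) (.cons (.rf (nat_lit 4340) (nat_lit 493858305440582043680)) (.cons (.br (nat_lit 7) (nat_lit 0) (.cons (.rf (nat_lit 3467) (nat_lit 493679253268392413216)) (.cons (.br (nat_lit 4) (nat_lit 1) (.cons (.zr (nat_lit 237684496987742717550524366848) (nat_lit 314320731546547676329803777) (nat_lit 5) (nat_lit 0)) .nil)) .nil))) .nil))),
 (.br (nat_lit 6) (nat_lit 1) (.cons (.rf (nat_lit 3419) (nat_lit 493787200025760303136)) (.cons (.br (nat_lit 4) (nat_lit 1) (.cons (.br (nat_lit 9) (nat_lit 1) (.cons (.br (nat_lit 7) (nat_lit 0) (.cons (.rf (nat_lit 449) (nat_lit 14135996761919259872)) (.cons (.br (nat_lit 11) (nat_lit 1) (.cons (.br (nat_lit 10) (nat_lit 1) (.cons (.zr (nat_lit 237684496987525981818457162496) (nat_lit 310693954087985263782395905) (nat_lit 5) (nat_lit 0)) .nil)) .nil)) .nil))) (.cons (.ev (nat_lit 72057598349672449) (nat_lit 1)) (.cons (.br (nat_lit 13) (nat_lit 0) (.cons (.rf (nat_lit 4325) (nat_lit 458116643612319221792)) (.cons (.br (nat_lit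 2) (nat_lit 0) (.cons (.ev (nat_lit 20282410812595937064129423999233) (nat_lit 1)) (.cons (.ev (nat_lit 20282719088679938795664173957121) (nat_lit 1)) .nil))) .nil))) .nil)))) (.cons (.br (nat_lit 11) (nat_lit 1) (.cons (.rf (nat_lit 4337) (nat_lit 493858305440582043680)) (.cons (.br (nat_lit 11) (nat_lit 1) (.cons (.rf (nat_lit 4337) (nat_lit 493858305440582043680)) .nil)) .nil))) (.cons (.rf (nat_lit 4232) (nat_lit 458116643612319221792)) .nil)))) (.cons (.br (nat_lit 10) (nat_lit 1) (.cons (.br (nat_lit 7) (nat_lit 0) (.cons (.rf (nat_lit 4338) (nat_lit 493858305440582043680)) (.cons (.rf (nat_lit 4339) (nat_lit 493858305440582043680)) (.cons (.br (nat_lit 7) (nat_lit 0) (.cons (.rf (nat_lit 4338) (nat_lit 493858305440582043680)) (.cons (.rf (nat_lit 4339) (nat_lit 493858305440582043680)) .nil))) .nil)))) (.cons (.br (nat_lit 2) (nat_lit 0) (.cons (.rf (nat_lit 4340) (nat_lit 493858305440582043680)) (.cons (.rf (nat_lit 4341) (nat_lit 493858305440582043680)) (.cons (.br (nat_lit 2)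 (nat_lit 0) (.cons (.rf (nat_lit 4340) (nat_lit 493858305440582043680)) (.cons (.rf (nat_lit 4341) (nat_lit 493858305440582043680)) .nil))) .nil)))) (.cons (.kr (nat_lit 18446744073709551616) (nat_lit 20282409603651670423947251286016) (nat_lit 8) (nat_lit 0)) .nil)))) .nil)))),
 (.br (nat_lit 13) (nat_lit 0) (.cons (.rf (nat_lit 4232) (nat_lit 458116643612319220800)) (.cons (.br (nat_lit 4) (nat_lit 1) (.cons (.rf (nat_lit 4325) (nat_lit 458116643612319220800)) (.cons (.rf (nat_lit 4273) (nat_lit 458116643612319220800)) (.cons (.rf (nat_lit 3502) (nat_lit 15427373244004534304)) .nil)))) (.cons (.br (nat_lit 11) (nat_lit 1) (.cons (.ev (nat_lit 20282719088679938795664173957121) (nat_lit 1)) (.cons (.rf (nat_lit 3577) (nat_lit 493745788020886439968)) (.cons (.br (nat_lit 1) (nat_lit 0) (.cons (.br (nat_lit 10) (nat_lit 1) (.cons (.ev (nat_lit 20678555280260830319686409717508) (nat_lit 3)) .nil)) (.cons (.br (nat_lit 2) (nat_lit 0) (.cons (.ev (nat_lit 317532847892059053813129019652) (nat_lit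 3)) .nil)) .nil))) .nil)))) .nil)))),
 (.br (nat_lit 13) (nat_lit 0) (.cons (.rf (nat_lit 4232) (nat_lit 458116643612319220800)) (.cons (.rf (nat_lit 4343) (nat_lit 493858305440582043680)) (.cons (.br (nat_lit 2) (nat_lit 0) (.cons (.br (nat_lit 9) (nat_lit 1) (.cons (.br (nat_lit 7) (nat_lit 0) (.cons (.ev (nat_lit 20678557679296934150397185164548) (nat_lit 3)) .nil)) (.cons (.ev (nat_lit 72057598349672449) (nat_lit 1)) .nil))) (.cons (.br (nat_lit 11) (nat_lit 1) (.cons (.br (nat_lit 4) (nat_lit 1) (.cons (.ev (nat_lit 79537647524085965241052102913) (nat_lit 1)) .nil)) (.cons (.br (nat_lit 1) (nat_lit 0) (.cons (.zr (nat_lit 237686905394432245337549897728) (nat_lit 309489805975085725364781057) (nat_lit 5) (nat_lit 0)) .nil)) .nil))) (.cons (.rf (nat_lit 3577) (nat_lit 493745788020886439968)) .nil)))) .nil)))),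
 (.br (nat_lit 9) (nat_lit 1) (.cons (.ev (nat_lit 20361637770888301525885417160961) (nat_lit 1)) (.cons (.kr (nat_lit 4740813226943354765312) (nat_lit 20361637766165934761540795236352) (nat_lit 8) (nat_lit 0)) .nil))),
 (.br (nat_lit 13) (nat_lit 0) (.cons (.br (nat_lit 7) (nat_lit 0) (.cons (.br (nat_lit 11) (nat_lit 1) (.cons (.ev (nat_lit 309485028340428215743938561) (nat_lit 1)) .nil)) .nil)) (.cons (.rf (nat_lit 3706) (nat_lit 493677003667601983520)) .nil))),
 (.br (nat_lit 13) (nat_lit 0) (.cons (.br (nat_lit 1) (nat_lit 0) (.cons (.rf (nat_lit 4317) (nat_lit 493858303243706271776)) .nil)) (.cons (.kr (nat_lit 4740813226943354765312) (nat_lit 20361637766165934761540795236352) (nat_lit 8) (nat_lit 0)) .nil))),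
 (.br (nat_lit 6) (nat_lit 1) (.cons (.rf (nat_lit 3419) (nat_lit 493787200025760303136)) (.cons (.br (nat_lit 13) (nat_lit 0) (.cons (.rf (nat_lit 4232) (nat_lit 458116643612319220800)) (.cons (.rf (nat_lit 4343) (nat_lit 493858305440582043680)) (.cons (.rf (nat_lit 4344) (nat_lit 493858305440582043680)) (.cons (.br (nat_lit 13) (nat_lit 0) (.cons (.rf (nat_lit 4232) (nat_lit 458116643612319220800)) (.cons (.rf (nat_lit 4343) (nat_lit 493858305440582043680)) (.cons (.rf (nat_lit 4344) (nat_lit 493858305440582043680)) .nil)))) .nil))))) (.cons (.br (nat_lit 10) (nat_lit 1) (.cons (.br (nat_lit 11) (nat_lit 1) (.cons (.rf (nat_lit 3863) (nat_lit 493856049242728138784)) (.cons (.br (nat_lit 11) (nat_lit 1) (.cons (.rf (nat_lit 3863) (nat_lit 493856049242728138784)) (.cons (.rf (nat_lit 4345) (nat_lit 493858305440582043680)) .nil))) (.cons (.rf (nat_lit 4345) (nat_lit 493858305440582043680)) .nil)))) (.cons (.br (nat_lit 7) (nat_lit 0) (.cons (.rf (nat_lit 4346) (nat_lit 493858305440582043680))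 (.cons (.rf (nat_lit 4347) (nat_lit 493858305440582043680)) (.cons (.br (nat_lit 7) (nat_lit 0) (.cons (.rf (nat_lit 4346) (nat_lit 493858305440582043680)) (.cons (.rf (nat_lit 4347) (nat_lit 493858305440582043680)) .nil))) .nil)))) (.cons (.br (nat_lit 7) (nat_lit 0) (.cons (.br (nat_lit 13) (nat_lit 0) (.cons (.rf (nat_lit 4161) (nat_lit 15431875740899051552)) (.cons (.br (nat_lit 9) (nat_lit 1) (.cons (.rf (nat_lit 3710) (nat_lit 493678231827452626976)) (.cons (.ev (nat_lit 20282409608392555991059132383233) (nat_lit 1)) .nil))) .nil))) (.cons (.br (nat_lit 13) (nat_lit 0) (.cons (.rf (nat_lit 4161) (nat_lit 15431870243346155552)) (.cons (.kr (nat_lit 4740813226943354765312) (nat_lit 20361637766165934761540795236352) (nat_lit 8) (nat_lit 0)) .nil))) (.cons (.br (nat_lit 2) (nat_lit 0) (.cons (.br (nat_lit 13) (nat_lit 0) (.cons (.zr (nat_lit 20282409603651814541334350528512) (nat_lit 1213666633123047522959361) (nat_lit 5) (nat_lit 0)) (.cons (.ev (nat_lit 79538856468352041365153054721)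 (nat_lit 1)) .nil))) (.cons (.br (nat_lit 1) (nat_lit 0) (.cons (.br (nat_lit 13) (nat_lit 0) (.cons (.ev (nat_lit 20520715507474091518706193858820) (nat_lit 3)) .nil)) (.cons (.ev (nat_lit 79228167255077846011875426561) (nat_lit 1)) .nil))) (.cons (.rf (nat_lit 3577) (nat_lit 493751241598560208928)) .nil)))) .nil)))) (.cons (.kr (nat_lit 18446744073709551616) (nat_lit 20282409603651670423947251286016) (nat_lit 8) (nat_lit 0)) .nil))))) .nil)))),
 (.br (nat_lit 2) (nat_lit 0) (.cons (.ev (nat_lit 79228162514336677762070282241) (nat_lit 1)) (.cons (.br (nat_lit 11) (nat_lit 1) (.cons (.ev (nat_lit 79228162532711082771076940033) (nat_lit 1)) (.cons (.br (nat_lit 1) (nat_lit 0) (.cons (.ev (nat_lit 20837628129123164691023146452228) (nat_lit 3)) .nil)) .nil))) .nil))),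
 (.br (nat_lit 2) (nat_lit 0) (.cons (.ev (nat_lit 79228162514336677762070282241) (nat_lit 1)) (.cons (.br (nat_lit 11) (nat_lit 1) (.cons (.rf (nat_lit 3419) (nat_lit 493565395547242989600)) (.cons (.br (nat_lit 4) (nat_lit 1) (.cons (.ev (nat_lit 20838870904902477335417531335428) (nat_lit 3)) .nil)) .nil))) .nil))),
 (.br (nat_lit 6) (nat_lit 1) (.cons (.rf (nat_lit 4342) (nat_lit 493858305440582043680)) (.cons (.rf (nat_lit 4348) (nat_lit 493858305440582043680)) (.cons (.br (nat_lit 10) (nat_lit 1) (.cons (.ev (nat_lit 18447025548686262529) (nat_lit 1)) (.cons (.br (nat_lit 13) (nat_lit 0) (.cons (.br (nat_lit 1) (nat_lit 0) (.cons (.ev (nat_lit 20361641397665760373084394619650) (nat_lit 2)) (.cons (.br (nat_lit 7) (nat_lit 0) (.cons (.ev (nat_lit 79228167255077846011875426561) (nat_lit 1)) (.cons (.br (nat_lit 2) (nat_lit 0) (.cons (.ev (nat_lit 20679169395724334440532586988292) (nat_lit 3)) .nil)) .nil))) .nil))) (.cons (.br (nat_lit 1) (nat_lit 0) (.cons (.br (nat_lit 11) (nat_lit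 1) (.cons (.ev (nat_lit 20520095304879543867911482508034) (nat_lit 2)) (.cons (.ev (nat_lit 20520097732176059615138654716674) (nat_lit 2)) .nil))) (.cons (.br (nat_lit 7) (nat_lit 0) (.cons (.zr (nat_lit 20440865928680343216521438298624) (nat_lit 1213666633123056112893953) (nat_lit 5) (nat_lit 0)) (.cons (.rf (nat_lit 4232) (nat_lit 457824828835778365472)) .nil))) .nil))) (.cons (.br (nat_lit 9) (nat_lit 1) (.cons (.br (nat_lit 7) (nat_lit 0) (.cons (.ev (nat_lit 72340172821233921) (nat_lit 1)) (.cons (.br (nat_lit 4) (nat_lit 1) (.cons (.ev (nat_lit 20838870904902477335417531335428) (nat_lit 3)) .nil)) .nil))) (.cons (.br (nat_lit 11) (nat_lit 1) (.cons (.ev (nat_lit 20282409603651670705422227996929) (nat_lit 1)) (.cons (.br (nat_lit 1) (nat_lit 0) (.cons (.ev (nat_lit 20838870904902477335417531335428) (nat_lit 3)) .nil)) .nil))) (.cons (.kr (nat_lit 4740813226943354765312) (nat_lit 20361637766165934761540795236352) (nat_lit 8) (nat_lit 0)) .nil)))) .nil)))) (.cons (.br (nat_lit 2)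 (nat_lit 0) (.cons (.rf (nat_lit 4349) (nat_lit 493858305440582043680)) (.cons (.rf (nat_lit 4350) (nat_lit 493858305440582043680)) (.cons (.br (nat_lit 2) (nat_lit 0) (.cons (.rf (nat_lit 4349) (nat_lit 493858305440582043680)) (.cons (.rf (nat_lit 4350) (nat_lit 493858305440582043680)) .nil))) .nil)))) (.cons (.kr (nat_lit 18446744073709551616) (nat_lit 20282409603651670423947251286016) (nat_lit 8) (nat_lit 0)) .nil))))) .nil)))),
 (.br (nat_lit 8) (nat_lit 1) (.cons (.rf (nat_lit 4273) (nat_lit 493858305440582043680)) (.cons (.rf (nat_lit 4325) (nat_lit 493858305440582043680)) (.cons (.br (nat_lit 11) (nat_lit 1) (.cons (.rf (nat_lit 4329) (nat_lit 493858305440582043680)) (.cons (.rf (nat_lit 4332) (nat_lit 493858305440582043680)) (.cons (.rf (nat_lit 4336) (nat_lit 493858305440582043680)) (.cons (.br (nat_lit 11) (nat_lit 1) (.cons (.rf (nat_lit 4329) (nat_lit 493858305440582043680)) (.cons (.rf (nat_lit 4332) (nat_lit 493858305440582043680)) (.cons (.rf (nat_lit 4336) (nat_lit 493858305440582043680))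 .nil)))) .nil))))) (.cons (.br (nat_lit 6) (nat_lit 1) (.cons (.rf (nat_lit 4342) (nat_lit 493858305440582043680)) (.cons (.rf (nat_lit 4348) (nat_lit 493858305440582043680)) (.cons (.rf (nat_lit 4351) (nat_lit 493858305440582043680)) (.cons (.br (nat_lit 6) (nat_lit 1) (.cons (.rf (nat_lit 4342) (nat_lit 493858305440582043680)) (.cons (.rf (nat_lit 4348) (nat_lit 493858305440582043680)) (.cons (.rf (nat_lit 4351) (nat_lit 493858305440582043680)) .nil)))) .nil))))) .nil)))))]

theorem c162 : chkAll C T R L162 (nat_lit 4330) = true := by decide +kernel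

theorem l162 : (nat_lit 4330) + L162.length = (nat_lit 4353) := by decide +kernel

/-- part of the certificates -/
def L163 : List Prf := [(.br (nat_lit 13) (nat_lit 0) (.cons (.br (nat_lit 10) (nat_lit 1) (.cons (.br (nat_lit 5) (nat_lit 0) (.cons (.ev (nat_lit 310693954160042840623743233) (nat_lit 1)) .nil)) (.cons (.br (nat_lit 2) (nat_lit 0) (.cons (.ev (nat_lit 20838247118142809096735791579908) (nat_lit 3)) .nil)) .nil))) (.cons (.rf (nat_lit 4232) (nat_lit 457929673865483880480)) .nil))),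
 (.br (nat_lit 13) (nat_lit 0) (.cons (.rf (nat_lit 4353) (nat_lit 493858305440582043680)) (.cons (.br (nat_lit 2) (nat_lit 0) (.cons (.ev (nat_lit 20282409608392483650894901018881) (nat_lit 1)) (.cons (.ev (nat_lit 20361637770888301525885417160961) (nat_lit 1)) .nil))) .nil))),
 (.br (nat_lit 2) (nat_lit 0) (.cons (.br (nat_lit 13) (nat_lit 0) (.cons (.kr (nat_lit 18446744078004518912) (nat_lit 79228162514264619068520660992) (nat_lit 4) (nat_lit 0)) (.cons (.br (nat_lit 5) (nat_lit 0) (.cons (.br (nat_lit 7) (nat_lit 0) (.cons (.zr (nat_lit 237684496987742714251989484288) (nat_lit 314320731546547676329803777) (nat_lit 5) (nat_lit 0)) .nil)) (.cons (.br (nat_lit 6) (nat_lit 1) (.cons (.ev (nat_lit 20678550435149424716160231211780) (nat_lit 3)) .nil)) .nil))) (.cons (.br (nat_lit 5) (nat_lit 0) (.cons (.br (nat_lit 9) (nat_lit 1) (.cons (.ev (nat_lit 20361637785166153216163806905092) (nat_lit 3)) .nil)) (.cons (.br (nat_lit 6) (nat_lit 1) (.cons (.zr (nat_lit 237686905394432808287469764608)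 (nat_lit 309489805974804250404847617) (nat_lit 5) (nat_lit 0)) .nil)) .nil))) .nil)))) (.cons (.br (nat_lit 13) (nat_lit 0) (.cons (.br (nat_lit 7) (nat_lit 0) (.cons (.rf (nat_lit 4232) (nat_lit 458116643612319220800)) (.cons (.br (nat_lit 6) (nat_lit 1) (.cons (.ev (nat_lit 159076508714948325392318005250) (nat_lit 2)) .nil)) .nil))) (.cons (.rf (nat_lit 3826) (nat_lit 493675911860065503264)) (.cons (.br (nat_lit 5) (nat_lit 0) (.cons (.ev (nat_lit 20361948464823942205212146532353) (nat_lit 1)) (.cons (.ev (nat_lit 79229371440084234797223837953) (nat_lit 1)) .nil))) .nil)))) (.cons (.br (nat_lit 7) (nat_lit 0) (.cons (.ev (nat_lit 1208925891672223229477121) (nat_lit 1)) (.cons (.br (nat_lit 13) (nat_lit 0) (.cons (.rf (nat_lit 4232) (nat_lit 458116643612319220800)) (.cons (.ev (nat_lit 20361948464842461005776087416833) (nat_lit 1)) .nil))) (.cons (.br (nat_lit 4) (nat_lit 1) (.cons (.ev (nat_lit 4722366482873940181249) (nat_lit 1)) (.cons (.br (nat_lit 6) (nat_lit 1) (.cons (.ev (nat_lit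 310698658080065314887958786) (nat_lit 2)) .nil)) .nil))) .nil)))) .nil)))),
 (.br (nat_lit 6) (nat_lit 1) (.cons (.rf (nat_lit 4355) (nat_lit 493858305440582043680)) (.cons (.ev (nat_lit 79537647524158022830811775233) (nat_lit 1)) (.cons (.br (nat_lit 7) (nat_lit 0) (.cons (.ev (nat_lit 20361637766184381505618799755521) (nat_lit 1)) (.cons (.ev (nat_lit 79228167255077846011875426561) (nat_lit 1)) (.cons (.br (nat_lit 2) (nat_lit 0) (.cons (.zr (nat_lit 40802504903771953475304309129984) (nat_lit 309485028412204339116900353) (nat_lit 5) (nat_lit 11)) (.cons (.zr (nat_lit 237685696468613471834736689920) (nat_lit 20282719098124815594017068679169) (nat_lit 5) (nat_lit 3)) .nil))) .nil)))) .nil)))),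
 (.br (nat_lit 11) (nat_lit 1) (.cons (.rf (nat_lit 3419) (nat_lit 493565395547242989600)) (.cons (.rf (nat_lit 3784) (nat_lit 493565395547242989600)) (.cons (.br (nat_lit 9) (nat_lit 1) (.cons (.br (nat_lit 13) (nat_lit 0) (.cons (.rf (nat_lit 4353) (nat_lit 493858305440582043680)) (.cons (.rf (nat_lit 4354) (nat_lit 493858305440582043680)) (.cons (.br (nat_lit 13) (nat_lit 0) (.cons (.rf (nat_lit 4232) (nat_lit 457929673865483880480)) (.cons (.rf (nat_lit 4354) (nat_lit 493858305440582043680)) .nil))) .nil)))) (.cons (.br (nat_lit 10) (nat_lit 1) (.cons (.ev (nat_lit 1213666632842672057876481) (nat_lit 1)) (.cons (.br (nat_lit 4) (nat_lit 1) (.cons (.br (nat_lit 2) (nat_lit 0) (.cons (.br (nat_lit 13) (nat_lit 0) (.cons (.ev (nat_lit 20282409622670624701864575436548) (nat_lit 3)) .nil)) .nil)) (.cons (.rf (nat_lit 4232) (nat_lit 457929673865483880480)) .nil))) .nil))) (.cons (.rf (nat_lit 4232) (nat_lit 457824828835778365472)) .nil)))) (.cons (.br (nat_lit 6) (nat_lit 1) (.cons (.rf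 (nat_lit 4355) (nat_lit 493858305440582043680)) (.cons (.rf (nat_lit 4356) (nat_lit 493858305440582043680)) (.cons (.br (nat_lit 6) (nat_lit 1) (.cons (.rf (nat_lit 4355) (nat_lit 493858305440582043680)) (.cons (.ev (nat_lit 79537647524158022830811775233) (nat_lit 1)) (.cons (.ev (nat_lit 20282409603651670705422227996929) (nat_lit 1)) .nil)))) (.cons (.br (nat_lit 6) (nat_lit 1) (.cons (.rf (nat_lit 4355) (nat_lit 493858305440582043680)) (.cons (.rf (nat_lit 4356) (nat_lit 493858305440582043680)) (.cons (.ev (nat_lit 20282409603651670705422227996929) (nat_lit 1)) .nil)))) .nil))))) .nil))))),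
 (.br (nat_lit 13) (nat_lit 0) (.cons (.ev (nat_lit 309485028340146740784005121) (nat_lit 1)) (.cons (.rf (nat_lit 4232) (nat_lit 457824828835778364480)) (.cons (.br (nat_lit 1) (nat_lit 0) (.cons (.br (nat_lit 9) (nat_lit 1) (.cons (.ev (nat_lit 1208944266358707196067841) (nat_lit 1)) (.cons (.br (nat_lit 6) (nat_lit 1) (.cons (.ev (nat_lit 80160258506806312488400978434) (nat_lit 2)) .nil)) .nil))) (.cons (.br (nat_lit 5) (nat_lit 0) (.cons (.ev (nat_lit 20282410812577562378744969036033) (nat_lit 1)) (.cons (.br (nat_lit 2) (nat_lit 0) (.cons (.ev (nat_lit 158767023686752293839609922050) (nat_lit 2)) .nil)) .nil))) (.cons (.ev (nat_lit 1213666632841572546248961) (nat_lit 1)) .nil)))) .nil)))),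
 (.br (nat_lit 7) (nat_lit 0) (.cons (.kr (nat_lit 20282409603651742481541322768640) (nat_lit 79228162514264901643009064960) (nat_lit 1) (nat_lit 0)) .nil)),
 (.br (nat_lit 11) (nat_lit 1) (.cons (.rf (nat_lit 3419) (nat_lit 493565395547242989600)) (.cons (.rf (nat_lit 3784) (nat_lit 493565395547242988608)) (.cons (.br (nat_lit 13) (nat_lit 0) (.cons (.ev (nat_lit 309485028340146740784005121) (nat_lit 1)) (.cons (.rf (nat_lit 4358) (nat_lit 493858305440582043680)) (.cons (.rf (nat_lit 4232) (nat_lit 457824828835778364480)) (.cons (.br (nat_lit 13) (nat_lit 0) (.cons (.ev (nat_lit 309485028340146740784005121) (nat_lit 1)) (.cons (.rf (nat_lit 4358) (nat_lit 493858305440582043680)) (.cons (.rf (nat_lit 3784) (nat_lit 457824828835778364480)) .nil)))) .nil))))) (.cons (.br (nat_lit 5) (nat_lit 0) (.cons (.br (nat_lit 13) (nat_lit 0) (.cons (.br (nat_lit 10) (nat_lit 1) (.cons (.ev (nat_lit 79228162514264337597838917889) (nat_lit 1)) (.cons (.ev (nat_lit 20282409603670117168020960903169)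 (nat_lit 1)) (.cons (.ev (nat_lit 20282719088661563826614325739521) (nat_lit 1)) .nil)))) (.cons (.ev (nat_lit 20282719088679938514189214023681) (nat_lit 1)) (.cons (.br (nat_lit 6) (nat_lit 1) (.cons (.br (nat_lit 7) (nat_lit 0) (.cons (.ev (nat_lit 20282719088661563826614325739521) (nat_lit 1)) (.cons (.ev (nat_lit 79228162532783140360803057921) (nat_lit 1)) .nil))) (.cons (.ev (nat_lit 20282409603670117168020960903169) (nat_lit 1)) (.cons (.ev (nat_lit 20282719088661563826614325739521) (nat_lit 1)) .nil)))) .nil)))) (.cons (.br (nat_lit 4) (nat_lit 1) (.cons (.br (nat_lit 7) (nat_lit 0) (.cons (.br (nat_lit 10) (nat_lit 1) (.cons (.ev (nat_lit 1208925891672223229477121) (nat_lit 1)) (.cons (.ev (nat_lit 20361638975110273178941540794625) (nat_lit 1)) .nil))) (.cons (.ev (nat_lit 79228162532783140360803057921) (nat_lit 1)) (.cons (.br (nat_lit 6) (nat_lit 1) (.cons (.ev (nat_lit 309485009893685241562857473) (nat_lit 1)) (.cons (.ev (nat_lit 20361947251194275189752260984833) (nat_lit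 1)) .nil))) .nil)))) (.cons (.br (nat_lit 13) (nat_lit 0) (.cons (.br (nat_lit 1) (nat_lit 0) (.cons (.ev (nat_lit 309485028268371716939514113) (nat_lit 1)) (.cons (.ev (nat_lit 18447025548686262529) (nat_lit 1)) .nil))) (.cons (.br (nat_lit 1) (nat_lit 0) (.cons (.rf (nat_lit 4359) (nat_lit 493858305440582043680)) (.cons (.ev (nat_lit 310698676454187740765946113) (nat_lit 1)) .nil))) (.cons (.br (nat_lit 1) (nat_lit 0) (.cons (.rf (nat_lit 4359) (nat_lit 493857214725047289888)) (.cons (.ev (nat_lit 1213666632841572546248961) (nat_lit 1)) .nil))) .nil)))) (.cons (.br (nat_lit 9) (nat_lit 1) (.cons (.ev (nat_lit 79228162532783140360803057921) (nat_lit 1)) (.cons (.br (nat_lit 6) (nat_lit 1) (.cons (.ev (nat_lit 4722438821938659918081) (nat_lit 1)) (.cons (.ev (nat_lit 20361637766184453845783031119873) (nat_lit 1)) .nil))) (.cons (.br (nat_lit 2) (nat_lit 0) (.cons (.br (nat_lit 1) (nat_lit 0) (.cons (.ev (nat_lit 20838863660866367254903686366468) (nat_lit 3)) .nil)) (.cons (.ev (nat_lit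 20361638975091754377269498347521) (nat_lit 1)) .nil))) .nil)))) (.cons (.br (nat_lit 2) (nat_lit 0) (.cons (.br (nat_lit 1) (nat_lit 0) (.cons (.br (nat_lit 10) (nat_lit 1) (.cons (.ev (nat_lit 20679788365781013608131427632900) (nat_lit 3)) .nil)) (.cons (.ev (nat_lit 20282720297624204872904966471682) (nat_lit 2)) .nil))) (.cons (.br (nat_lit 1) (nat_lit 0) (.cons (.ev (nat_lit 20361947255898122870954158784513) (nat_lit 1)) (.cons (.ev (nat_lit 1208944266358707196067841) (nat_lit 1)) .nil))) (.cons (.ev (nat_lit 20361948460101575721238694789121) (nat_lit 1)) .nil)))) .nil))))) (.cons (.br (nat_lit 13) (nat_lit 0) (.cons (.ev (nat_lit 20282719088679938514189214023681) (nat_lit 1)) (.cons (.kr (nat_lit 4740813226943354765312) (nat_lit 20361637766165934761540795236352) (nat_lit 8) (nat_lit 0)) (.cons (.br (nat_lit 2) (nat_lit 0) (.cons (.br (nat_lit 6) (nat_lit 1) (.cons (.ev (nat_lit 20679478876103949844012989613060) (nat_lit 3)) (.cons (.ev (nat_lit 20680716834959202409847715987460) (nat_lit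 3)) .nil))) (.cons (.ev (nat_lit 20282409603670117168020960903169) (nat_lit 1)) .nil))) .nil)))) (.cons (.br (nat_lit 13) (nat_lit 0) (.cons (.br (nat_lit 1) (nat_lit 0) (.cons (.br (nat_lit 6) (nat_lit 1) (.cons (.ev (nat_lit 18447026648197890049) (nat_lit 1)) (.cons (.rf (nat_lit 4232) (nat_lit 458116643612319221792)) .nil))) (.cons (.ev (nat_lit 20361948464823942205212146532353) (nat_lit 1)) .nil))) (.cons (.br (nat_lit 7) (nat_lit 0) (.cons (.br (nat_lit 2) (nat_lit 0) (.cons (.ev (nat_lit 159076504029404114193825726466) (nat_lit 2)) (.cons (.br (nat_lit 6) (nat_lit 1) (.cons (.zr (nat_lit 9481626457185244610560) (nat_lit 1239148965105276383362285569) (nat_lit 5) (nat_lit 0)) .nil)) .nil))) (.cons (.br (nat_lit 2) (nat_lit 0) (.cons (.ev (nat_lit 79850759348475532552396013570) (nat_lit 2)) (.cons (.br (nat_lit 4) (nat_lit 1) (.cons (.zr (nat_lit 9481626457185244610560) (nat_lit 1239148965105276383362285569) (nat_lit 5) (nat_lit 0)) .nil)) .nil))) (.cons (.br (nat_lit 2) (nat_lit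 0) (.cons (.ev (nat_lit 40644358063753318203883824087042) (nat_lit 2)) (.cons (.ev (nat_lit 40723586226322923055169178435586) (nat_lit 2)) .nil))) .nil)))) (.cons (.br (nat_lit 7) (nat_lit 0) (.cons (.br (nat_lit 1) (nat_lit 0) (.cons (.rf (nat_lit 3708) (nat_lit 493858305440582043680)) .nil)) (.cons (.br (nat_lit 4) (nat_lit 1) (.cons (.ev (nat_lit 1213648258156196681220353) (nat_lit 1)) (.cons (.ev (nat_lit 79850759348475532552396013570) (nat_lit 2)) .nil))) .nil))) .nil)))) .nil))))) .nil))))),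
 (.br (nat_lit 6) (nat_lit 1) (.cons (.rf (nat_lit 3419) (nat_lit 493787200025760303136)) (.cons (.br (nat_lit 9) (nat_lit 1) (.cons (.br (nat_lit 13) (nat_lit 0) (.cons (.br (nat_lit 2) (nat_lit 0) (.cons (.zr (nat_lit 37109660938156572672) (nat_lit 237995186200801581248083394561) (nat_lit 5) (nat_lit 0)) .nil)) (.cons (.br (nat_lit 2) (nat_lit 0) (.cons (.ev (nat_lit 158768232667696809042767839490) (nat_lit 2)) .nil)) .nil))) (.cons (.br (nat_lit 10) (nat_lit 1) (.cons (.ev (nat_lit 20361638975091754377269498347521) (nat_lit 1)) .nil)) .nil))) .nil))),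
 (.br (nat_lit 6) (nat_lit 1) (.cons (.rf (nat_lit 3419) (nat_lit 493787200025760303136)) (.cons (.br (nat_lit 2) (nat_lit 0) (.cons (.kr (nat_lit 18446744078004518912) (nat_lit 79228162514264619068520660992) (nat_lit 4) (nat_lit 0)) (.cons (.br (nat_lit 1) (nat_lit 0) (.cons (.br (nat_lit 10) (nat_lit 1) (.cons (.ev (nat_lit 158768232667696809042767839490) (nat_lit 2)) .nil)) (.cons (.br (nat_lit 13) (nat_lit 0) (.cons (.ev (nat_lit 20678552852964603367984331817220) (nat_lit 3)) .nil)) .nil))) (.cons (.br (nat_lit 9) (nat_lit 1) (.cons (.br (nat_lit 4) (nat_lit 1) (.cons (.ev (nat_lit 79229376162450716571652325633) (nat_lit 1)) .nil)) (.cons (.ev (nat_lit 20361638975091754377269498347521) (nat_lit 1)) .nil))) .nil)))) .nil))),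
 (.br (nat_lit 7) (nat_lit 0) (.cons (.br (nat_lit 10) (nat_lit 1) (.cons (.br (nat_lit 2) (nat_lit 0) (.cons (.br (nat_lit 13) (nat_lit 0) (.cons (.ev (nat_lit 20678550444557264756693466022660) (nat_lit 3)) .nil)) (.cons (.ev (nat_lit 79228167255149623234743304193) (nat_lit 1)) .nil))) (.cons (.br (nat_lit 1) (nat_lit 0) (.cons (.ev (nat_lit 79537647524158022830811775233) (nat_lit 1)) (.cons (.br (nat_lit 6) (nat_lit 1) (.cons (.zr (nat_lit 618970019859425869516963840) (nat_lit 1213721973073797969870849) (nat_lit 5) (nat_lit 0)) .nil)) .nil))) (.cons (.ev (nat_lit 20282719088661563826614325739521) (nat_lit 1)) .nil)))) (.cons (.br (nat_lit 13) (nat_lit 0) (.cons (.br (nat_lit 2) (nat_lit 0) (.cons (.kr (nat_lit 18446744078004518912) (nat_lit 79228162514264619068520660992) (nat_lit 4) (nat_lit 0)) (.cons (.ev (nat_lit 40723586240434681990086303678466) (nat_lit 2)) .nil))) (.cons (.br (nat_lit 2) (nat_lit 0) (.cons (.br (nat_lit 6) (nat_lit 1) (.cons (.ev (nat_lit 79228167255077847111387054081)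 (nat_lit 1)) .nil)) .nil)) .nil))) (.cons (.br (nat_lit 6) (nat_lit 1) (.cons (.br (nat_lit 2) (nat_lit 0) (.cons (.ev (nat_lit 79538856468352041365153054721) (nat_lit 1)) (.cons (.ev (nat_lit 79537647524085683766092169473) (nat_lit 1)) .nil))) (.cons (.ev (nat_lit 79538856468352041365153054721) (nat_lit 1)) (.cons (.ev (nat_lit 20282719088661563826614325739521) (nat_lit 1)) .nil)))) .nil)))),
 (.br (nat_lit 13) (nat_lit 0) (.cons (.kr (nat_lit 618970019714747731487490304) (nat_lit 20361637766165934762640306929664) (nat_lit 1) (nat_lit 0)) .nil)),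
 (.br (nat_lit 2) (nat_lit 0) (.cons (.rf (nat_lit 4363) (nat_lit 493858305440582043680)) (.cons (.br (nat_lit 6) (nat_lit 1) (.cons (.rf (nat_lit 3419) (nat_lit 493787200025760303136)) (.cons (.br (nat_lit 4) (nat_lit 1) (.cons (.rf (nat_lit 4364) (nat_lit 493858305440582043680)) (.cons (.rf (nat_lit 4232) (nat_lit 458116643612319220800)) .nil))) (.cons (.br (nat_lit 1) (nat_lit 0) (.cons (.ev (nat_lit 309485028268371716939514113) (nat_lit 1)) (.cons (.ev (nat_lit 20361637770888301525885417160961) (nat_lit 1)) .nil))) .nil)))) (.cons (.br (nat_lit 6) (nat_lit 1) (.cons (.rf (nat_lit 3419) (nat_lit 493787200025760303136)) (.cons (.br (nat_lit 1) (nat_lit 0) (.cons (.rf (nat_lit 4364) (nat_lit 493857214725047289888)) (.cons (.ev (nat_lit 79228167255077847111387054081) (nat_lit 1)) .nil))) (.cons (.br (nat_lit 7) (nat_lit 0) (.cons (.rf (nat_lit 4322) (nat_lit 493858303243706271776)) (.cons (.ev (nat_lit 40644979456365558312030712102914) (nat_lit 2)) .nil))) .nil)))) .nil)))),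
 (.br (nat_lit 2) (nat_lit 0) (.cons (.rf (nat_lit 4363) (nat_lit 493858305440582043680)) (.cons (.rf (nat_lit 4365) (nat_lit 493858305440582043680)) (.cons (.br (nat_lit 1) (nat_lit 0) (.cons (.br (nat_lit 13) (nat_lit 0) (.cons (.br (nat_lit 7) (nat_lit 0) (.cons (.zr (nat_lit 618970019858862919563346688) (nat_lit 1213666633123051817926657) (nat_lit 5) (nat_lit 0)) .nil)) .nil)) (.cons (.br (nat_lit 13) (nat_lit 0) (.cons (.kr (nat_lit 20361947251175756106609520017920) (nat_lit 4740813228042883235840) (nat_lit 1) (nat_lit 0)) (.cons (.br (nat_lit 7) (nat_lit 0) (.cons (.zr (nat_lit 618970019858862919563346688) (nat_lit 1213666633123051817926657) (nat_lit 5) (nat_lit 0)) .nil)) .nil))) .nil))) .nil)))),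
 (.br (nat_lit 11) (nat_lit 1) (.cons (.rf (nat_lit 3784) (nat_lit 493565395547242989600)) (.cons (.rf (nat_lit 3784) (nat_lit 493565395547242988608)) (.cons (.br (nat_lit 6) (nat_lit 1) (.cons (.rf (nat_lit 4361) (nat_lit 493858305440582043680)) (.cons (.rf (nat_lit 4362) (nat_lit 493858305440582043680)) (.cons (.br (nat_lit 6) (nat_lit 1) (.cons (.rf (nat_lit 4361) (nat_lit 493858305440582043680)) (.cons (.rf (nat_lit 4362) (nat_lit 493858305440582043680)) .nil))) .nil)))) (.cons (.br (nat_lit 2) (nat_lit 0) (.cons (.rf (nat_lit 4363) (nat_lit 493858305440582043680)) (.cons (.rf (nat_lit 4365) (nat_lit 493858305440582043680)) (.cons (.rf (nat_lit 4366) (nat_lit 493858305440582043680)) (.cons (.br (nat_lit 2) (nat_lit 0) (.cons (.rf (nat_lit 4363) (nat_lit 493858305440582043680)) (.cons (.rf (nat_lit 4365) (nat_lit 493858305440582043680)) (.cons (.rf (nat_lit 4366) (nat_lit 493858305440582043680)) .nil)))) .nil))))) .nil))))),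
 (.br (nat_lit 6) (nat_lit 1) (.cons (.rf (nat_lit 3419) (nat_lit 493787200025760303136)) (.cons (.br (nat_lit 4) (nat_lit 1) (.cons (.br (nat_lit 10) (nat_lit 1) (.cons (.ev (nat_lit 1208925891672223229477121) (nat_lit 1)) (.cons (.br (nat_lit 9) (nat_lit 1) (.cons (.ev (nat_lit 20837006750696614611466697638660) (nat_lit 3)) .nil)) .nil))) (.cons (.ev (nat_lit 309485028340146740784005121) (nat_lit 1)) (.cons (.br (nat_lit 9) (nat_lit 1) (.cons (.br (nat_lit 10) (nat_lit 1) (.cons (.ev (nat_lit 310698658080065314887958786) (nat_lit 2)) .nil)) (.cons (.br (nat_lit 1) (nat_lit 0) (.cons (.ev (nat_lit 20837630547011407489211492925700) (nat_lit 3)) .nil)) .nil))) .nil)))) (.cons (.ev (nat_lit 79537647524158021731300147201) (nat_lit 1)) .nil)))),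
 (.br (nat_lit 2) (nat_lit 0) (.cons (.ev (nat_lit 309485028340146740784005121) (nat_lit 1)) (.cons (.rf (nat_lit 4368) (nat_lit 493858305440582043680)) (.cons (.br (nat_lit 5) (nat_lit 0) (.cons (.br (nat_lit 6) (nat_lit 1) (.cons (.ev (nat_lit 309489732187829042193432833) (nat_lit 1)) (.cons (.ev (nat_lit 20361947255898194647077514903553) (nat_lit 1)) .nil))) (.cons (.br (nat_lit 6) (nat_lit 1) (.cons (.ev (nat_lit 79537647524158022830811775233) (nat_lit 1)) (.cons (.ev (nat_lit 20282719093402377335028362248193) (nat_lit 1)) .nil))) .nil))) .nil)))),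
 (.br (nat_lit 11) (nat_lit 1) (.cons (.rf (nat_lit 4357) (nat_lit 493858305440582043680)) (.cons (.rf (nat_lit 4360) (nat_lit 493858305440582043680)) (.cons (.rf (nat_lit 4367) (nat_lit 493858305440582043680)) (.cons (.br (nat_lit 2) (nat_lit 0) (.cons (.ev (nat_lit 309485028340146740784005121) (nat_lit 1)) (.cons (.rf (nat_lit 4368) (nat_lit 493858305440582043680)) (.cons (.rf (nat_lit 4369) (nat_lit 493858305440582043680)) (.cons (.br (nat_lit 2) (nat_lit 0) (.cons (.ev (nat_lit 309485028340146740784005121) (nat_lit 1)) (.cons (.rf (nat_lit 4368) (nat_lit 493858305440582043680)) (.cons (.rf (nat_lit 4369) (nat_lit 493858305440582043680)) .nil)))) .nil))))) .nil)))))]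

theorem c163 : chkAll C T R L163 (nat_lit 4353) = true := by decide +kernel

theorem l163 : (nat_lit 4353) + L163.length = (nat_lit 4371) := by decide +kernel

/-- part of the certificates -/
def L164 : List Prf := [(.br (nat_lit 8) (nat_lit 1) (.cons (.rf (nat_lit 4273) (nat_lit 493858305440582043680)) (.cons (.rf (nat_lit 4325) (nat_lit 493858305440582043680)) (.cons (.rf (nat_lit 4352) (nat_lit 493858305440582043680)) (.cons (.br (nat_lit 11) (nat_lit 1) (.cons (.rf (nat_lit 4357) (nat_lit 493858305440582043680)) (.cons (.rf (nat_lit 4360) (nat_lit 493858305440582043680)) (.cons (.rf (nat_lit 4367) (nat_lit 493858305440582043680)) (.cons (.rf (nat_lit 4370) (nat_lit 493858305440582043680)) (.cons (.br (nat_lit 11) (nat_lit 1) (.cons (.rf (nat_lit 4357) (nat_lit 493858305440582043680)) (.cons (.rf (nat_lit 4360) (nat_lit 493858305440582043680)) (.cons (.rf (nat_lit 4367) (nat_lit 493858305440582043680)) (.cons (.rf (nat_lit 4370) (nat_lit 493858305440582043680)) .nil))))) .nil))))))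 .nil))))),
 (.br (nat_lit 8) (nat_lit 1) (.cons (.rf (nat_lit 4273) (nat_lit 493858305440582043680)) (.cons (.rf (nat_lit 4325) (nat_lit 493858305440582043680)) (.cons (.rf (nat_lit 4352) (nat_lit 493858305440582043680)) (.cons (.rf (nat_lit 4371) (nat_lit 493858305440582043680)) (.cons (.br (nat_lit 8) (nat_lit 1) (.cons (.rf (nat_lit 4273) (nat_lit 493858305440582043680)) (.cons (.rf (nat_lit 4325) (nat_lit 493858305440582043680)) (.cons (.rf (nat_lit 4352) (nat_lit 493858305440582043680)) (.cons (.rf (nat_lit 4371) (nat_lit 493858305440582043680)) .nil))))) .nil)))))),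
 (.br (nat_lit 8) (nat_lit 1) (.cons (.br (nat_lit 11) (nat_lit 1) (.cons (.ev (nat_lit 309485028340147835983888641) (nat_lit 1)) (.cons (.br (nat_lit 7) (nat_lit 0) (.cons (.br (nat_lit 13) (nat_lit 0) (.cons (.zr (nat_lit 238303457562651875700228752128) (nat_lit 1227833732571673621692417) (nat_lit 5) (nat_lit 0)) .nil)) (.cons (.rf (nat_lit 3784) (nat_lit 457822648505293145152)) .nil))) .nil))) .nil)),
 (.br (nat_lit 8) (nat_lit 1) (.cons (.rf (nat_lit 4373) (nat_lit 493858305440582043680)) (.cons (.br (nat_lit 8) (nat_lit 1) (.cons (.rf (nat_lit 4373) (nat_lit 493858305440582043680)) .nil)) .nil))),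
 (.br (nat_lit 11) (nat_lit 1) (.cons (.ev (nat_lit 79537652246524504600928649473) (nat_lit 1)) (.cons (.br (nat_lit 7) (nat_lit 0) (.cons (.ev (nat_lit 79538861172271780165400461313) (nat_lit 1)) (.cons (.kr (nat_lit 79537647524085682662285574144) (nat_lit 9463179710912511606784) (nat_lit 2) (nat_lit 0)) .nil))) .nil))),
 (.br (nat_lit 8) (nat_lit 1) (.cons (.rf (nat_lit 4375) (nat_lit 493858305440582043680)) (.cons (.br (nat_lit 11) (nat_lit 1) (.cons (.br (nat_lit 4) (nat_lit 1) (.cons (.ev (nat_lit 21472691378758191225941797569800) (nat_lit 4)) .nil)) (.cons (.br (nat_lit 4) (nat_lit 1) (.cons (.ev (nat_lit 310693935641241177171230721) (nat_lit 1)) .nil)) .nil))) .nil))),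
 (.br (nat_lit 10) (nat_lit 1) (.cons (.rf (nat_lit 4374) (nat_lit 493858305440582043680)) (.cons (.br (nat_lit 8) (nat_lit 1) (.cons (.rf (nat_lit 4375) (nat_lit 493858305440582043680)) (.cons (.rf (nat_lit 4376) (nat_lit 493858305440582043680)) (.cons (.br (nat_lit 8) (nat_lit 1) (.cons (.rf (nat_lit 4375) (nat_lit 493858305440582043680)) (.cons (.rf (nat_lit 4376) (nat_lit 493858305440582043680)) .nil))) .nil)))) .nil))),
 (.br (nat_lit 13) (nat_lit 0) (.cons (.rf (nat_lit 4232) (nat_lit 458116643612319220800)) (.cons (.br (nat_lit 2) (nat_lit 0) (.cons (.br (nat_lit 8) (nat_lit 1) (.cons (.ev (nat_lit 79537647542532427835506688001) (nat_lit 1)) (.cons (.rf (nat_lit 3421) (nat_lit 458001774341542577216)) .nil))) (.cons (.kr (nat_lit 79229371440083952222735433728) (nat_lit 20282409608374037188291873210368) (nat_lit 3) (nat_lit 0)) .nil))) .nil))),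
 (.br (nat_lit 13) (nat_lit 0) (.cons (.rf (nat_lit 4232) (nat_lit 458116643612319220800)) (.cons (.rf (nat_lit 4378) (nat_lit 493858305440582043680)) (.cons (.br (nat_lit 13) (nat_lit 0) (.cons (.rf (nat_lit 4232) (nat_lit 458116643612319220800)) (.cons (.rf (nat_lit 4378) (nat_lit 493858305440582043680)) .nil))) .nil)))),
 (.br (nat_lit 13) (nat_lit 0) (.cons (.rf (nat_lit 4232) (nat_lit 458116643612319220800)) (.cons (.br (nat_lit 4) (nat_lit 1) (.cons (.ev (nat_lit 20282719088661492050495247810561) (nat_lit 1)) (.cons (.br (nat_lit 8) (nat_lit 1) (.cons (.ev (nat_lit 20361947255898122589483477041153) (nat_lit 1)) (.cons (.br (nat_lit 2) (nat_lit 0) (.cons (.zr (nat_lit 237686905394648414821128602368) (nat_lit 309503917735146525216997377) (nat_lit 5) (nat_lit 0)) .nil)) .nil))) (.cons (.rf (nat_lit 3577) (nat_lit 457857659153470915648)) .nil)))) .nil))),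
 (.br (nat_lit 13) (nat_lit 0) (.cons (.rf (nat_lit 4232) (nat_lit 458116643612319220800)) (.cons (.rf (nat_lit 4380) (nat_lit 493858305440582043680)) (.cons (.br (nat_lit 13) (nat_lit 0) (.cons (.rf (nat_lit 4232) (nat_lit 458116643612319220800)) (.cons (.rf (nat_lit 4380) (nat_lit 493858305440582043680)) .nil))) .nil)))),
 (.br (nat_lit 13) (nat_lit 0) (.cons (.rf (nat_lit 4379) (nat_lit 493858305440582043680)) (.cons (.rf (nat_lit 4381) (nat_lit 493858305440582043680)) (.cons (.br (nat_lit 13) (nat_lit 0) (.cons (.rf (nat_lit 4379) (nat_lit 493858305440582043680)) (.cons (.rf (nat_lit 4381) (nat_lit 493858305440582043680)) .nil))) .nil)))),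
 (.br (nat_lit 10) (nat_lit 1) (.cons (.ev (nat_lit 79229376162522493790208393473) (nat_lit 1)) (.cons (.ev (nat_lit 20361638975110201401722951237633) (nat_lit 1)) .nil))),
 (.br (nat_lit 13) (nat_lit 0) (.cons (.br (nat_lit 11) (nat_lit 1) (.cons (.br (nat_lit 7) (nat_lit 0) (.cons (.br (nat_lit 10) (nat_lit 1) (.cons (.ev (nat_lit 1208944266358702884323329) (nat_lit 1)) .nil)) (.cons (.ev (nat_lit 309485009893402662779552001) (nat_lit 1)) .nil))) (.cons (.br (nat_lit 7) (nat_lit 0) (.cons (.rf (nat_lit 4383) (nat_lit 493858305440582043680)) (.cons (.br (nat_lit 2) (nat_lit 0) (.cons (.zr (nat_lit 36893491454544117760) (nat_lit 310698658008568467468320769) (nat_lit 5) (nat_lit 0)) .nil)) .nil))) (.cons (.rf (nat_lit 3710) (nat_lit 493679322542987380768)) .nil)))) (.cons (.br (nat_lit 5) (nat_lit 0) (.cons (.rf (nat_lit 3879) (nat_lit 493820096312005199904)) (.cons (.br (nat_lit 8) (nat_lit 1) (.cons (.rf (nat_lit 3863) (nat_lit 493750285020228061216)) (.cons (.br (nat_lit 10) (nat_lit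 1) (.cons (.zr (nat_lit 238303457562651875700228752128) (nat_lit 1227833732571673621692417) (nat_lit 5) (nat_lit 0)) .nil)) .nil))) .nil))) .nil))),
 (.br (nat_lit 13) (nat_lit 0) (.cons (.rf (nat_lit 4384) (nat_lit 493858305440582043680)) (.cons (.br (nat_lit 13) (nat_lit 0) (.cons (.rf (nat_lit 4384) (nat_lit 493858305440582043680)) (.cons (.kr (nat_lit 79537647524085682662285508608) (nat_lit 20282409608374036906821191467008) (nat_lit 3) (nat_lit 0)) .nil))) (.cons (.br (nat_lit 13) (nat_lit 0) (.cons (.rf (nat_lit 4384) (nat_lit 493858305440582043680)) (.cons (.kr (nat_lit 79537647524085682662285508608) (nat_lit 20282409608374036906821191467008) (nat_lit 3) (nat_lit 0)) .nil))) .nil)))),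
 (.br (nat_lit 13) (nat_lit 0) (.cons (.br (nat_lit 2) (nat_lit 0) (.cons (.br (nat_lit 5) (nat_lit 0) (.cons (.ev (nat_lit 79229371440084233701990400001) (nat_lit 1)) .nil)) .nil)) (.cons (.rf (nat_lit 3716) (nat_lit 493671441243646822432)) .nil))),
 (.br (nat_lit 13) (nat_lit 0) (.cons (.rf (nat_lit 4386) (nat_lit 493858305440582043680)) (.cons (.br (nat_lit 10) (nat_lit 1) (.cons (.br (nat_lit 4) (nat_lit 1) (.cons (.ev (nat_lit 79229371440084233701990400001) (nat_lit 1)) .nil)) (.cons (.br (nat_lit 2) (nat_lit 0) (.cons (.ev (nat_lit 310693935641241177171230721) (nat_lit 1)) .nil)) .nil))) .nil))),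
 (.br (nat_lit 7) (nat_lit 0) (.cons (.rf (nat_lit 4385) (nat_lit 493858305440582043680)) (.cons (.br (nat_lit 11) (nat_lit 1) (.cons (.br (nat_lit 10) (nat_lit 1) (.cons (.br (nat_lit 4) (nat_lit 1) (.cons (.kr (nat_lit 1208925819614637764706304) (nat_lit 79228167236631103037677502464) (nat_lit 2) (nat_lit 0)) .nil)) (.cons (.br (nat_lit 13) (nat_lit 0) (.cons (.br (nat_lit 5) (nat_lit 0) (.cons (.ev (nat_lit 20678555261445294916732266546948) (nat_lit 3)) .nil)) (.cons (.ev (nat_lit 20282410812577490038576426057729) (nat_lit 1)) .nil))) .nil))) (.cons (.br (nat_lit 10) (nat_lit 1) (.cons (.br (nat_lit 8) (nat_lit 1) (.cons (.ev (nat_lit 311912361606396130053128450) (nat_lit 2)) .nil)) (.cons (.br (nat_lit 2) (nat_lit 0) (.cons (.ev (nat_lit 310693935641241177171230721) (nat_lit 1)) (.cons (.rf (nat_lit 3784) (nat_lit 457864203446677406784)) .nil))) .nil))) (.cons (.br (nat_lit 2) (nat_lit 0) (.cons (.br (nat_lit 5) (nat_lit 0) (.cons (.ev (nat_lit 79228167255149622135231676673) (nat_lit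 1)) (.cons (.ev (nat_lit 310693935641241177171230721) (nat_lit 1)) .nil))) (.cons (.rf (nat_lit 4232) (nat_lit 457864203446677406784)) (.cons (.rf (nat_lit 4232) (nat_lit 457857653653768569920)) .nil)))) .nil)))) (.cons (.br (nat_lit 13) (nat_lit 0) (.cons (.rf (nat_lit 4386) (nat_lit 493858305440582043680)) (.cons (.rf (nat_lit 4387) (nat_lit 493858305440582043680)) (.cons (.br (nat_lit 13) (nat_lit 0) (.cons (.rf (nat_lit 3716) (nat_lit 493671441243646822432)) (.cons (.rf (nat_lit 4387) (nat_lit 493858305440582043680)) .nil))) .nil)))) .nil)))),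
 (.br (nat_lit 5) (nat_lit 0) (.cons (.br (nat_lit 13) (nat_lit 0) (.cons (.kr (nat_lit 79228162532711081667253501952) (nat_lit 20282719088661491769015976067072) (nat_lit 8) (nat_lit 0)) (.cons (.ev (nat_lit 20282720302309749925212657287425) (nat_lit 1)) .nil))) (.cons (.rf (nat_lit 3689) (nat_lit 15427408430524106784)) .nil))),
 (.br (nat_lit 13) (nat_lit 0) (.cons (.rf (nat_lit 3716) (nat_lit 493671373073925900320)) (.cons (.br (nat_lit 2) (nat_lit 0) (.cons (.zr (nat_lit 40802813179855955205743859204864) (nat_lit 1213648330494166184230913) (nat_lit 5) (nat_lit 9)) (.cons (.rf (nat_lit 3869) (nat_lit 493820090814452303904)) .nil))) .nil))),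
 (.br (nat_lit 7) (nat_lit 0) (.cons (.rf (nat_lit 4385) (nat_lit 493858305440582043680)) (.cons (.rf (nat_lit 4388) (nat_lit 493858305440582043680)) (.cons (.br (nat_lit 13) (nat_lit 0) (.cons (.rf (nat_lit 4389) (nat_lit 493858305440582043680)) (.cons (.rf (nat_lit 4390) (nat_lit 493858305440582043680)) (.cons (.br (nat_lit 13) (nat_lit 0) (.cons (.rf (nat_lit 4389) (nat_lit 493858305440582043680)) (.cons (.rf (nat_lit 4390) (nat_lit 493858305440582043680)) .nil))) .nil)))) .nil)))),
 (.br (nat_lit 6) (nat_lit 1) (.cons (.br (nat_lit 10) (nat_lit 1) (.cons (.rf (nat_lit 4374) (nat_lit 493858305440582043680)) (.cons (.rf (nat_lit 4377) (nat_lit 493858305440582043680)) (.cons (.br (nat_lit 10) (nat_lit 1) (.cons (.rf (nat_lit 4374) (nat_lit 493858305440582043680)) (.cons (.rf (nat_lit 4377) (nat_lit 493858305440582043680)) .nil))) .nil)))) (.cons (.br (nat_lit 13) (nat_lit 0) (.cons (.rf (nat_lit 4379) (nat_lit 493858305440582043680)) (.cons (.rf (nat_lit 4381) (nat_lit 493858305440582043680))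 (.cons (.rf (nat_lit 4382) (nat_lit 493858305440582043680)) (.cons (.br (nat_lit 13) (nat_lit 0) (.cons (.rf (nat_lit 4379) (nat_lit 493858305440582043680)) (.cons (.rf (nat_lit 4381) (nat_lit 493858305440582043680)) (.cons (.rf (nat_lit 4382) (nat_lit 493858305440582043680)) .nil)))) .nil))))) (.cons (.br (nat_lit 7) (nat_lit 0) (.cons (.rf (nat_lit 4385) (nat_lit 493858305440582043680)) (.cons (.rf (nat_lit 4388) (nat_lit 493858305440582043680)) (.cons (.rf (nat_lit 4391) (nat_lit 493858305440582043680)) (.cons (.br (nat_lit 7) (nat_lit 0) (.cons (.rf (nat_lit 4385) (nat_lit 493858305440582043680)) (.cons (.rf (nat_lit 4388) (nat_lit 493858305440582043680)) (.cons (.rf (nat_lit 4391) (nat_lit 493858305440582043680)) .nil)))) .nil))))) .nil)))),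
 (.br (nat_lit 8) (nat_lit 1) (.cons (.rf (nat_lit 4046) (nat_lit 493823362961056565280)) (.cons (.br (nat_lit 10) (nat_lit 1) (.cons (.rf (nat_lit 3863) (nat_lit 493817839016786102304)) (.cons (.br (nat_lit 10) (nat_lit 1) (.cons (.rf (nat_lit 3863) (nat_lit 493817839016786102304)) (.cons (.ev (nat_lit 1213648258437667362963713) (nat_lit 1)) .nil))) (.cons (.br (nat_lit 10) (nat_lit 1) (.cons (.rf (nat_lit 3863) (nat_lit 493817839016786102304)) (.cons (.ev (nat_lit 1213648258437667362963713) (nat_lit 1)) .nil))) .nil)))) .nil))),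
 (.br (nat_lit 10) (nat_lit 1) (.cons (.br (nat_lit 11) (nat_lit 1) (.cons (.ev (nat_lit 79537652246524504600928649473) (nat_lit 1)) (.cons (.br (nat_lit 4) (nat_lit 1) (.cons (.kr (nat_lit 20361637766166006819134866718976) (nat_lit 9444733529788755542016) (nat_lit 1) (nat_lit 0)) .nil)) .nil))) .nil)),
 (.br (nat_lit 8) (nat_lit 1) (.cons (.rf (nat_lit 4046) (nat_lit 493823362961056565280)) (.cons (.br (nat_lit 10) (nat_lit 1) (.cons (.rf (nat_lit 4394) (nat_lit 493858305440582043680)) (.cons (.br (nat_lit 10) (nat_lit 1) (.cons (.rf (nat_lit 4394) (nat_lit 493858305440582043680)) .nil)) .nil))) .nil))),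
 (.br (nat_lit 12) (nat_lit 0) (.cons (.rf (nat_lit 3577) (nat_lit 420027389260592350272)) .nil)),
 (.br (nat_lit 8) (nat_lit 1) (.cons (.rf (nat_lit 4396) (nat_lit 14310304678950470720)) (.cons (.br (nat_lit 7) (nat_lit 0) (.cons (.ev (nat_lit 20282409603670189508193782071553) (nat_lit 1)) (.cons (.ev (nat_lit 309485028340147835983888641) (nat_lit 1)) .nil))) .nil))),
 (.br (nat_lit 10) (nat_lit 1) (.cons (.br (nat_lit 11) (nat_lit 1) (.cons (.kr (nat_lit 79228162514264619068520726528) (nat_lit 1213648186098598331547648) (nat_lit 2) (nat_lit 0)) (.cons (.br (nat_lit 8) (nat_lit 1) (.cons (.br (nat_lit 8) (nat_lit 1) (.cons (.rf (nat_lit 4396) (nat_lit 15433072045018155040)) .nil)) (.cons (.rf (nat_lit 4396) (nat_lit 15433072045018155040)) .nil))) (.cons (.rf (nat_lit 4232) (nat_lit 457857653653768569920)) .nil)))) (.cons (.br (nat_lit 8) (nat_lit 1) (.cons (.rf (nat_lit 3863) (nat_lit 493745781424895658016)) (.cons (.rf (nat_lit 4397) (nat_lit 493858305440582043680)) (.cons (.br (nat_lit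 8) (nat_lit 1) (.cons (.rf (nat_lit 3863) (nat_lit 493817839016786102304)) (.cons (.rf (nat_lit 4397) (nat_lit 493858305440582043680)) .nil))) .nil)))) .nil))),
 (.br (nat_lit 8) (nat_lit 1) (.cons (.rf (nat_lit 3784) (nat_lit 457864203446677406784)) (.cons (.br (nat_lit 11) (nat_lit 1) (.cons (.rf (nat_lit 4319) (nat_lit 493823402543469922336)) (.cons (.br (nat_lit 2) (nat_lit 0) (.cons (.zr (nat_lit 618970019642693435984642048) (nat_lit 1213666633123051817926657) (nat_lit 5) (nat_lit 0)) .nil)) .nil))) .nil)))]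

theorem c164 : chkAll C T R L164 (nat_lit 4371) = true := by decide +kernel

theorem l164 : (nat_lit 4371) + L164.length = (nat_lit 4400) := by decide +kernel

/-- part of the certificates -/
def L165 : List Prf := [(.br (nat_lit 8) (nat_lit 1) (.cons (.rf (nat_lit 3784) (nat_lit 457864203446677406784)) (.cons (.br (nat_lit 11) (nat_lit 1) (.cons (.br (nat_lit 2) (nat_lit 0) (.cons (.ev (nat_lit 309485028268370621706076161) (nat_lit 1)) .nil)) .nil)) .nil))),
 (.br (nat_lit 10) (nat_lit 1) (.cons (.rf (nat_lit 4398) (nat_lit 493858305440582043680)) (.cons (.br (nat_lit 8) (nat_lit 1) (.cons (.rf (nat_lit 4399) (nat_lit 493858305440582043680)) (.cons (.rf (nat_lit 4400) (nat_lit 493858305440582043680)) (.cons (.br (nat_lit 8) (nat_lit 1) (.cons (.rf (nat_lit 4399) (nat_lit 493858305440582043680)) (.cons (.rf (nat_lit 4400) (nat_lit 493858305440582043680)) .nil))) .nil)))) .nil))),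
 (.br (nat_lit 6) (nat_lit 1) (.cons (.rf (nat_lit 4392) (nat_lit 493858305440582043680)) (.cons (.br (nat_lit 8) (nat_lit 1) (.cons (.rf (nat_lit 4393) (nat_lit 493858305440582043680)) (.cons (.rf (nat_lit 4395) (nat_lit 493858305440582043680)) (.cons (.br (nat_lit 8) (nat_lit 1) (.cons (.rf (nat_lit 4393) (nat_lit 493858305440582043680)) (.cons (.rf (nat_lit 4395) (nat_lit 493858305440582043680)) .nil))) .nil)))) (.cons (.br (nat_lit 10) (nat_lit 1) (.cons (.rf (nat_lit 4398) (nat_lit 493858305440582043680)) (.cons (.rf (nat_lit 4401) (nat_lit 493858305440582043680)) (.cons (.br (nat_lit 10) (nat_lit 1) (.cons (.rf (nat_lit 4398) (nat_lit 493858305440582043680)) (.cons (.rf (nat_lit 4401) (nat_lit 493858305440582043680)) .nil))) .nil)))) .nil)))),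
 (.br (nat_lit 2) (nat_lit 0) (.cons (.br (nat_lit 5) (nat_lit 0) (.cons (.br (nat_lit 8) (nat_lit 1) (.cons (.ev (nat_lit 79228167255149622135231676673) (nat_lit 1)) (.cons (.br (nat_lit 10) (nat_lit 1) (.cons (.br (nat_lit 11) (nat_lit 1) (.cons (.ev (nat_lit 20520715479066106210368130319620) (nat_lit 3)) .nil)) (.cons (.kr (nat_lit 18446744073709551616) (nat_lit 20282409603651670423947251286016) (nat_lit 8) (nat_lit 0)) .nil))) .nil))) (.cons (.br (nat_lit 7) (nat_lit 0) (.cons (.br (nat_lit 11) (nat_lit 1) (.cons (.br (nat_lit 13) (nat_lit 0) (.cons (.ev (nat_lit 20520720333695600540662263907076) (nat_lit 3)) .nil)) .nil)) (.cons (.rf (nat_lit 161) (nat_lit 14056025888179461280)) .nil))) (.cons (.ev (nat_lit 79537647524085682662268796929) (nat_lit 1)) .nil)))) (.cons (.br (nat_lit 11) (nat_lit 1) (.cons (.br (nat_lit 4) (nat_lit 1) (.cons (.br (nat_lit 10) (nat_lit 1) (.cons (.br (nat_lit 13) (nat_lit 0) (.cons (.zr (nat_lit 237684487579686504226586034176) (nat_lit 314325435466567934357274625)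 (nat_lit 5) (nat_lit 0)) .nil)) .nil)) (.cons (.br (nat_lit 8) (nat_lit 1) (.cons (.ev (nat_lit 18519083147036000513) (nat_lit 1)) (.cons (.ev (nat_lit 20361947255916569334656681377793) (nat_lit 1)) .nil))) .nil))) (.cons (.br (nat_lit 4) (nat_lit 1) (.cons (.br (nat_lit 8) (nat_lit 1) (.cons (.ev (nat_lit 159075295066618673447728906242) (nat_lit 2)) .nil)) (.cons (.br (nat_lit 13) (nat_lit 0) (.cons (.br (nat_lit 5) (nat_lit 0) (.cons (.ev (nat_lit 80156617599069171269385781250) (nat_lit 2)) .nil)) (.cons (.br (nat_lit 5) (nat_lit 0) (.cons (.ev (nat_lit 20520720361993483540791663463176) (nat_lit 4)) .nil)) .nil))) .nil))) (.cons (.ev (nat_lit 309489732188109413363548161) (nat_lit 1)) .nil)))) (.cons (.br (nat_lit 7) (nat_lit 0) (.cons (.ev (nat_lit 309485009893402662779552001) (nat_lit 1)) (.cons (.br (nat_lit 8) (nat_lit 1) (.cons (.br (nat_lit 4) (nat_lit 1) (.cons (.ev (nat_lit 79228162532711363146525245441) (nat_lit 1)) .nil)) (.cons (.br (nat_lit 4) (nat_lit 1) (.cons (.ev (nat_lit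 79228162532711363146525245441) (nat_lit 1)) (.cons (.br (nat_lit 10) (nat_lit 1) (.cons (.ev (nat_lit 20520101344823674200528347662084) (nat_lit 3)) .nil)) .nil))) .nil))) (.cons (.br (nat_lit 13) (nat_lit 0) (.cons (.br (nat_lit 13) (nat_lit 0) (.cons (.rf (nat_lit 4372) (nat_lit 457822648505293145152)) .nil)) (.cons (.br (nat_lit 13) (nat_lit 0) (.cons (.rf (nat_lit 4372) (nat_lit 457822648505293145152)) .nil)) .nil))) .nil)))) .nil)))),
 (.br (nat_lit 8) (nat_lit 1) (.cons (.br (nat_lit 11) (nat_lit 1) (.cons (.br (nat_lit 13) (nat_lit 0) (.cons (.ev (nat_lit 79537652264898909609935306753) (nat_lit 1)) .nil)) (.cons (.ev (nat_lit 20520101373176319277744709961476) (nat_lit 3)) .nil))) .nil)),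
 (.br (nat_lit 8) (nat_lit 1) (.cons (.ev (nat_lit 79228167255077847111387054081) (nat_lit 1)) (.cons (.br (nat_lit 2) (nat_lit 0) (.cons (.br (nat_lit 7) (nat_lit 0) (.cons (.ev (nat_lit 159075295066618673447728906242) (nat_lit 2)) .nil)) (.cons (.rf (nat_lit 3745) (nat_lit 493823365163295803424)) .nil))) .nil))),
 (.br (nat_lit 8) (nat_lit 1) (.cons (.ev (nat_lit 79228167255077847111387054081) (nat_lit 1)) (.cons (.br (nat_lit 4) (nat_lit 1) (.cons (.br (nat_lit 11) (nat_lit 1) (.cons (.ev (nat_lit 79537647524158022835089965313) (nat_lit 1)) .nil)) .nil)) .nil))),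
 (.br (nat_lit 10) (nat_lit 1) (.cons (.rf (nat_lit 4403) (nat_lit 493858305440582043680)) (.cons (.br (nat_lit 8) (nat_lit 1) (.cons (.rf (nat_lit 4404) (nat_lit 493858305440582043680)) (.cons (.br (nat_lit 8) (nat_lit 1) (.cons (.rf (nat_lit 4404) (nat_lit 493858305440582043680)) .nil)) .nil))) (.cons (.br (nat_lit 8) (nat_lit 1) (.cons (.rf (nat_lit 4405) (nat_lit 493858305440582043680)) (.cons (.rf (nat_lit 4406) (nat_lit 493858305440582043680)) (.cons (.br (nat_lit 8) (nat_lit 1) (.cons (.rf (nat_lit 4405) (nat_lit 493858305440582043680)) (.cons (.rf (nat_lit 4406) (nat_lit 493858305440582043680)) .nil))) .nil)))) .nil)))),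
 (.br (nat_lit 2) (nat_lit 0) (.cons (.br (nat_lit 5) (nat_lit 0) (.cons (.br (nat_lit 11) (nat_lit 1) (.cons (.ev (nat_lit 79537647542532427835506688001) (nat_lit 1)) .nil)) (.cons (.ev (nat_lit 79847132534051988456446427650) (nat_lit 2)) .nil))) (.cons (.br (nat_lit 8) (nat_lit 1) (.cons (.br (nat_lit 13) (nat_lit 0) (.cons (.ev (nat_lit 158458742898686987592473248002) (nat_lit 2)) .nil)) (.cons (.br (nat_lit 5) (nat_lit 0) (.cons (.ev (nat_lit 158458742898686987592473248002) (nat_lit 2)) .nil)) .nil))) .nil))),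
 (.br (nat_lit 10) (nat_lit 1) (.cons (.rf (nat_lit 4403) (nat_lit 493858305440582043680)) (.cons (.rf (nat_lit 4407) (nat_lit 493858305440582043680)) (.cons (.br (nat_lit 8) (nat_lit 1) (.cons (.rf (nat_lit 4408) (nat_lit 493858305440582043680)) (.cons (.br (nat_lit 8) (nat_lit 1) (.cons (.rf (nat_lit 4408) (nat_lit 493858305440582043680)) (.cons (.kr (nat_lit 18446744073709551616) (nat_lit 20282409603651670423947251286016) (nat_lit 8) (nat_lit 0)) .nil))) (.cons (.br (nat_lit 8) (nat_lit 1) (.cons (.rf (nat_lit 4408) (nat_lit 493858305440582043680)) (.cons (.kr (nat_lit 18446744073709551616) (nat_lit 20282409603651670423947251286016) (nat_lit 8) (nat_lit 0)) .nil))) .nil)))) .nil)))),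
 (.br (nat_lit 6) (nat_lit 1) (.cons (.rf (nat_lit 4392) (nat_lit 493858305440582043680)) (.cons (.rf (nat_lit 4402) (nat_lit 493858305440582043680)) (.cons (.br (nat_lit 10) (nat_lit 1) (.cons (.rf (nat_lit 4403) (nat_lit 493858305440582043680)) (.cons (.rf (nat_lit 4407) (nat_lit 493858305440582043680)) (.cons (.rf (nat_lit 4409) (nat_lit 493858305440582043680)) (.cons (.br (nat_lit 10) (nat_lit 1) (.cons (.rf (nat_lit 4403) (nat_lit 493858305440582043680)) (.cons (.rf (nat_lit 4407) (nat_lit 493858305440582043680)) (.cons (.rf (nat_lit 4409) (nat_lit 493858305440582043680)) .nil)))) .nil))))) .nil)))),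
 (.br (nat_lit 6) (nat_lit 1) (.cons (.rf (nat_lit 4392) (nat_lit 493858305440582043680)) (.cons (.rf (nat_lit 4402) (nat_lit 493858305440582043680)) (.cons (.rf (nat_lit 4410) (nat_lit 493858305440582043680)) (.cons (.br (nat_lit 6) (nat_lit 1) (.cons (.rf (nat_lit 4392) (nat_lit 493858305440582043680)) (.cons (.rf (nat_lit 4402) (nat_lit 493858305440582043680)) (.cons (.rf (nat_lit 4410) (nat_lit 493858305440582043680)) .nil)))) .nil))))),
 (.br (nat_lit 2) (nat_lit 0) (.cons (.rf (nat_lit 4411) (nat_lit 493858305440582042688)) (.cons (.ev (nat_lit 79228167255149623234743304193) (nat_lit 1)) (.cons (.rf (nat_lit 4411) (nat_lit 493598220365233194048)) (.cons (.ev (nat_lit 79537652246524505700440276993) (nat_lit 1)) .nil))))),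
 (.br (nat_lit 8) (nat_lit 1) (.cons (.rf (nat_lit 4232) (nat_lit 457864203446677407776)) (.cons (.rf (nat_lit 4232) (nat_lit 457864203446677406784)) (.cons (.ev (nat_lit 309489750634573111607951361) (nat_lit 1)) .nil)))),
 (.br (nat_lit 13) (nat_lit 0) (.cons (.br (nat_lit 5) (nat_lit 0) (.cons (.rf (nat_lit 4412) (nat_lit 493858305440582043680)) (.cons (.br (nat_lit 10) (nat_lit 1) (.cons (.ev (nat_lit 20520403576222732088820270891522) (nat_lit 2)) (.cons (.ev (nat_lit 20521022546279412384492238798850) (nat_lit 2)) .nil))) .nil))) (.cons (.br (nat_lit 8) (nat_lit 1) (.cons (.rf (nat_lit 3784) (nat_lit 457864203446677407776)) (.cons (.rf (nat_lit 3784) (nat_lit 457864203446677406784)) (.cons (.br (nat_lit 11) (nat_lit 1) (.cons (.br (nat_lit 2) (nat_lit 0) (.cons (.ev (nat_lit 20678552862482689842943782617860) (nat_lit 3)) .nil)) (.cons (.br (nat_lit 1) (nat_lit 0) (.cons (.ev (nat_lit 20997327230116051046815687706376) (nat_lit 4)) .nil)) .nil))) .nil)))) (.cons (.rf (nat_lit 4413)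 (nat_lit 493858305440582043680)) .nil)))),
 (.br (nat_lit 6) (nat_lit 1) (.cons (.rf (nat_lit 4232) (nat_lit 458116643612319221792)) (.cons (.rf (nat_lit 4232) (nat_lit 458116643612319220800)) (.cons (.br (nat_lit 2) (nat_lit 0) (.cons (.br (nat_lit 1) (nat_lit 0) (.cons (.ev (nat_lit 79231789328617517364837090050) (nat_lit 2)) (.cons (.ev (nat_lit 79537652246524504600928649473) (nat_lit 1)) .nil))) (.cons (.br (nat_lit 13) (nat_lit 0) (.cons (.br (nat_lit 10) (nat_lit 1) (.cons (.ev (nat_lit 1213666632842676336066561) (nat_lit 1)) .nil)) .nil)) .nil))) (.cons (.rf (nat_lit 4414) (nat_lit 493858305440582043680)) .nil))))),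
 (.br (nat_lit 8) (nat_lit 1) (.cons (.rf (nat_lit 4372) (nat_lit 458038990606830929952)) (.cons (.rf (nat_lit 4372) (nat_lit 458038990606830928960)) (.cons (.ev (nat_lit 309489750634573111607951361) (nat_lit 1)) .nil)))),
 (.br (nat_lit 5) (nat_lit 0) (.cons (.br (nat_lit 8) (nat_lit 1) (.cons (.br (nat_lit 11) (nat_lit 1) (.cons (.ev (nat_lit 79537652246524505700440276993) (nat_lit 1)) (.cons (.ev (nat_lit 20361947255916569334656681377793) (nat_lit 1)) .nil))) (.cons (.br (nat_lit 11) (nat_lit 1) (.cons (.br (nat_lit 13) (nat_lit 0) (.cons (.ev (nat_lit 20837009178066485552391580091140) (nat_lit 3)) .nil)) (.cons (.ev (nat_lit 79537647542532427835506688001) (nat_lit 1)) .nil))) (.cons (.ev (nat_lit 20361637770888301245509968855041) (nat_lit 1)) .nil)))) (.cons (.br (nat_lit 2) (nat_lit 0) (.cons (.br (nat_lit 8) (nat_lit 1) (.cons (.ev (nat_lit 18447026648197890049) (nat_lit 1)) (.cons (.br (nat_lit 1) (nat_lit 0) (.cons (.ev (nat_lit 20361645029239878491080550188804) (nat_lit 3))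 .nil)) .nil))) (.cons (.br (nat_lit 1) (nat_lit 0) (.cons (.br (nat_lit 13) (nat_lit 0) (.cons (.zr (nat_lit 2427296588367788343754752) (nat_lit 238922427600525418604234014721) (nat_lit 5) (nat_lit 0)) .nil)) .nil)) .nil))) (.cons (.br (nat_lit 13) (nat_lit 0) (.cons (.rf (nat_lit 4323) (nat_lit 457822648505293146144)) (.cons (.br (nat_lit 1) (nat_lit 0) (.cons (.br (nat_lit 8) (nat_lit 1) (.cons (.zr (nat_lit 2427296588367779787374592) (nat_lit 237993972626401615623466516481) (nat_lit 5) (nat_lit 0)) .nil)) .nil)) .nil))) .nil)))),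
 (.br (nat_lit 6) (nat_lit 1) (.cons (.rf (nat_lit 4232) (nat_lit 458116643612319221792)) (.cons (.rf (nat_lit 4232) (nat_lit 458116643612319220800)) (.cons (.br (nat_lit 13) (nat_lit 0) (.cons (.br (nat_lit 1) (nat_lit 0) (.cons (.ev (nat_lit 1213666632842676336066561) (nat_lit 1)) (.cons (.ev (nat_lit 20282719093383858534460109619201) (nat_lit 1)) .nil))) (.cons (.br (nat_lit 1) (nat_lit 0) (.cons (.ev (nat_lit 79537647542532426735995060481) (nat_lit 1)) (.cons (.rf (nat_lit 3784) (nat_lit 457822648505293146144)) .nil))) .nil))) (.cons (.rf (nat_lit 4417) (nat_lit 493858305440582043680)) .nil))))),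
 (.br (nat_lit 13) (nat_lit 0) (.cons (.rf (nat_lit 4417) (nat_lit 493858305440582043680)) (.cons (.rf (nat_lit 4418) (nat_lit 493858305440582043680)) (.cons (.br (nat_lit 1) (nat_lit 0) (.cons (.kr (nat_lit 1208925819614629191483392) (nat_lit 20282409603651670705422227996672) (nat_lit 3) (nat_lit 0)) (.cons (.br (nat_lit 2) (nat_lit 0) (.cons (.br (nat_lit 5) (nat_lit 0) (.cons (.ev (nat_lit 310693954160042840623743233) (nat_lit 1)) .nil)) (.cons (.rf (nat_lit 3419) (nat_lit 493604770158142031904)) .nil))) .nil))) .nil)))),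
 (.br (nat_lit 13) (nat_lit 0) (.cons (.br (nat_lit 1) (nat_lit 0) (.cons (.br (nat_lit 2) (nat_lit 0) (.cons (.br (nat_lit 10) (nat_lit 1) (.cons (.zr (nat_lit 237686905394648414829685178368) (nat_lit 1237958947198337302183018497) (nat_lit 5) (nat_lit 0)) .nil)) .nil)) (.cons (.ev (nat_lit 20361947251175756388084496728321) (nat_lit 1)) .nil))) (.cons (.br (nat_lit 1) (nat_lit 0) (.cons (.ev (nat_lit 20361947251175756388084496728321) (nat_lit 1)) (.cons (.br (nat_lit 2) (nat_lit 0) (.cons (.br (nat_lit 8) (nat_lit 1) (.cons (.ev (nat_lit 21472696252425301901073403545352) (nat_lit 4)) .nil)) .nil)) .nil))) .nil))),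
 (.br (nat_lit 6) (nat_lit 1) (.cons (.rf (nat_lit 4232) (nat_lit 458116643612319221792)) (.cons (.rf (nat_lit 4232) (nat_lit 458116643612319220800)) (.cons (.br (nat_lit 13) (nat_lit 0) (.cons (.br (nat_lit 8) (nat_lit 1) (.cons (.br (nat_lit 2) (nat_lit 0) (.cons (.ev (nat_lit 79229371458530697400234803201) (nat_lit 1)) .nil)) (.cons (.br (nat_lit 10) (nat_lit 1) (.cons (.ev (nat_lit 79229371458530697400234803201) (nat_lit 1)) .nil)) .nil))) .nil)) (.cons (.rf (nat_lit 4420) (nat_lit 493858305440582043680)) .nil))))),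
 (.br (nat_lit 7) (nat_lit 0) (.cons (.br (nat_lit 13) (nat_lit 0) (.cons (.rf (nat_lit 4414) (nat_lit 493858305440582043680)) (.cons (.rf (nat_lit 4415) (nat_lit 493858305440582043680)) (.cons (.br (nat_lit 13) (nat_lit 0) (.cons (.rf (nat_lit 4414) (nat_lit 493858305440582043680)) (.cons (.rf (nat_lit 4415) (nat_lit 493858305440582043680)) (.cons (.rf (nat_lit 4416) (nat_lit 493858305440582043680)) .nil)))) (.cons (.br (nat_lit 13) (nat_lit 0) (.cons (.rf (nat_lit 4413) (nat_lit 493858305440582043680)) (.cons (.rf (nat_lit 4415) (nat_lit 493858305440582043680)) (.cons (.rf (nat_lit 4416) (nat_lit 493858305440582043680)) .nil)))) .nil))))) (.cons (.br (nat_lit 13) (nat_lit 0) (.cons (.rf (nat_lit 4417) (nat_lit 493858305440582043680)) (.cons (.rf (nat_lit 4418) (nat_lit 493858305440582043680)) (.cons (.rf (nat_lit 4419) (nat_lit 493858305440582043680)) (.cons (.br (nat_lit 13) (nat_lit 0) (.cons (.rf (nat_lit 4417) (nat_lit 493858305440582043680)) (.cons (.rf (nat_lit 4418) (nat_lit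 493858305440582043680)) (.cons (.rf (nat_lit 4419) (nat_lit 493858305440582043680)) .nil)))) .nil))))) (.cons (.br (nat_lit 13) (nat_lit 0) (.cons (.rf (nat_lit 4420) (nat_lit 493858305440582043680)) (.cons (.rf (nat_lit 4421) (nat_lit 493858305440582043680)) (.cons (.br (nat_lit 13) (nat_lit 0) (.cons (.rf (nat_lit 4420) (nat_lit 493858305440582043680)) (.cons (.rf (nat_lit 4421) (nat_lit 493858305440582043680)) .nil))) .nil)))) .nil)))),
 (.br (nat_lit 13) (nat_lit 0) (.cons (.br (nat_lit 10) (nat_lit 1) (.cons (.rf (nat_lit 4372) (nat_lit 457822648505293146144)) (.cons (.rf (nat_lit 4372) (nat_lit 457822648505293145152)) (.cons (.br (nat_lit 2) (nat_lit 0) (.cons (.br (nat_lit 11) (nat_lit 1) (.cons (.ev (nat_lit 20838251934919727574884183901956) (nat_lit 3)) .nil)) (.cons (.ev (nat_lit 20282410812596008841347980132353) (nat_lit 1)) .nil))) .nil)))) (.cons (.br (nat_lit 8) (nat_lit 1) (.cons (.rf (nat_lit 3784) (nat_lit 457864203446677407776)) (.cons (.rf (nat_lit 3784) (nat_lit 457864203446677406784))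 (.cons (.br (nat_lit 6) (nat_lit 1) (.cons (.ev (nat_lit 79229371458530696300723175681) (nat_lit 1)) (.cons (.br (nat_lit 11) (nat_lit 1) (.cons (.ev (nat_lit 20678552862482689842943782617860) (nat_lit 3)) .nil)) .nil))) .nil)))) (.cons (.rf (nat_lit 4413) (nat_lit 493858305440582043680)) .nil))))]

theorem c165 : chkAll C T R L165 (nat_lit 4400) = true := by decide +kernel

theorem l165 : (nat_lit 4400) + L165.length = (nat_lit 4424) := by decide +kernel

/-- part of the certificates -/
def L166 : List Prf := [(.br (nat_lit 13) (nat_lit 0) (.cons (.rf (nat_lit 4423) (nat_lit 493858305440582043680)) (.cons (.br (nat_lit 5) (nat_lit 0) (.cons (.br (nat_lit 1) (nat_lit 0) (.cons (.br (nat_lit 11) (nat_lit 1) (.cons (.ev (nat_lit 309485009893684137739485441) (nat_lit 1)) .nil)) (.cons (.br (nat_lit 2) (nat_lit 0) (.cons (.ev (nat_lit 309485009893684137739485441) (nat_lit 1)) .nil)) .nil))) (.cons (.br (nat_lit 2) (nat_lit 0) (.cons (.br (nat_lit 1) (nat_lit 0) (.cons (.ev (nat_lit 310693954160042840623743233)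 (nat_lit 1)) .nil)) .nil)) .nil))) (.cons (.br (nat_lit 1) (nat_lit 0) (.cons (.ev (nat_lit 20282719088679938513093980586241) (nat_lit 1)) (.cons (.rf (nat_lit 3784) (nat_lit 457822648505293146144)) .nil))) .nil)))),
 (.br (nat_lit 13) (nat_lit 0) (.cons (.rf (nat_lit 4423) (nat_lit 493858305440582043680)) (.cons (.rf (nat_lit 4424) (nat_lit 493858305440582043680)) (.cons (.rf (nat_lit 4416) (nat_lit 493858305440582043680)) .nil)))),
 (.br (nat_lit 7) (nat_lit 0) (.cons (.rf (nat_lit 4422) (nat_lit 493858305440582043680)) (.cons (.br (nat_lit 13) (nat_lit 0) (.cons (.rf (nat_lit 4423) (nat_lit 493858305440582043680)) (.cons (.rf (nat_lit 4424) (nat_lit 493858305440582043680)) (.cons (.rf (nat_lit 4425) (nat_lit 493858305440582043680)) (.cons (.br (nat_lit 13) (nat_lit 0) (.cons (.rf (nat_lit 4413) (nat_lit 493858305440582043680)) (.cons (.rf (nat_lit 4424) (nat_lit 493858305440582043680)) (.cons (.rf (nat_lit 4416) (nat_lit 493858305440582043680)) .nil)))) .nil))))) (.cons (.br (nat_lit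 1) (nat_lit 0) (.cons (.br (nat_lit 2) (nat_lit 0) (.cons (.rf (nat_lit 3419) (nat_lit 493787200025760303136)) (.cons (.ev (nat_lit 4722438540463699984641) (nat_lit 1)) (.cons (.br (nat_lit 5) (nat_lit 0) (.cons (.ev (nat_lit 79537652246524504600928649473) (nat_lit 1)) (.cons (.br (nat_lit 10) (nat_lit 1) (.cons (.ev (nat_lit 1213666632841576824439041) (nat_lit 1)) .nil)) (.cons (.rf (nat_lit 4411) (nat_lit 493598220365233194048)) .nil)))) .nil)))) (.cons (.ev (nat_lit 79537647542532426735995060481) (nat_lit 1)) (.cons (.br (nat_lit 2) (nat_lit 0) (.cons (.br (nat_lit 8) (nat_lit 1) (.cons (.br (nat_lit 10) (nat_lit 1) (.cons (.br (nat_lit 6) (nat_lit 1) (.cons (.ev (nat_lit 20524434201222164281383482756872) (nat_lit 4)) .nil)) .nil)) (.cons (.br (nat_lit 13) (nat_lit 0) (.cons (.ev (nat_lit 20282719093383858533360597991681) (nat_lit 1)) (.cons (.ev (nat_lit 20361638979832639660711657668865) (nat_lit 1)) .nil))) .nil))) (.cons (.br (nat_lit 5) (nat_lit 0) (.cons (.br (nat_lit 6) (nat_lit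 1) (.cons (.br (nat_lit 10) (nat_lit 1) (.cons (.ev (nat_lit 1223129812833964312756482) (nat_lit 2)) .nil)) .nil)) (.cons (.rf (nat_lit 480) (nat_lit 14202251133760865344)) .nil))) (.cons (.rf (nat_lit 3419) (nat_lit 493563215216757770272)) .nil)))) .nil)))) .nil)))),
 (.br (nat_lit 13) (nat_lit 0) (.cons (.br (nat_lit 10) (nat_lit 1) (.cons (.rf (nat_lit 4372) (nat_lit 457822648505293146144)) (.cons (.rf (nat_lit 4372) (nat_lit 457822648505293145152)) (.cons (.br (nat_lit 8) (nat_lit 1) (.cons (.br (nat_lit 2) (nat_lit 0) (.cons (.zr (nat_lit 311902861460574335664324608) (nat_lit 4740957623606424109057) (nat_lit 5) (nat_lit 9)) .nil)) (.cons (.ev (nat_lit 20361638979832639661811169296385) (nat_lit 1)) .nil))) .nil)))) (.cons (.br (nat_lit 5) (nat_lit 0) (.cons (.rf (nat_lit 3768) (nat_lit 458117738797769787424)) (.cons (.br (nat_lit 2) (nat_lit 0) (.cons (.ev (nat_lit 79537652246524505700440276993) (nat_lit 1)) (.cons (.ev (nat_lit 20361638979832639661811169296385) (nat_lit 1)) .nil)))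 .nil))) .nil))),
 (.br (nat_lit 13) (nat_lit 0) (.cons (.rf (nat_lit 4427) (nat_lit 493858305440582043680)) (.cons (.br (nat_lit 5) (nat_lit 0) (.cons (.br (nat_lit 1) (nat_lit 0) (.cons (.ev (nat_lit 20282719093383858534460109619201) (nat_lit 1)) (.cons (.ev (nat_lit 1213666632842676336066561) (nat_lit 1)) .nil))) (.cons (.ev (nat_lit 309489750634573111607951361) (nat_lit 1)) .nil))) .nil))),
 (.br (nat_lit 7) (nat_lit 0) (.cons (.rf (nat_lit 4422) (nat_lit 493858305440582043680)) (.cons (.rf (nat_lit 4426) (nat_lit 493858305440582043680)) (.cons (.br (nat_lit 13) (nat_lit 0) (.cons (.rf (nat_lit 4427) (nat_lit 493858305440582043680)) (.cons (.rf (nat_lit 4428) (nat_lit 493858305440582043680)) (.cons (.br (nat_lit 13) (nat_lit 0) (.cons (.rf (nat_lit 4427) (nat_lit 493858305440582043680)) (.cons (.rf (nat_lit 4428) (nat_lit 493858305440582043680)) .nil))) .nil)))) .nil)))),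
 (.br (nat_lit 7) (nat_lit 0) (.cons (.rf (nat_lit 4422) (nat_lit 493858305440582043680)) (.cons (.rf (nat_lit 4426) (nat_lit 493858305440582043680)) (.cons (.rf (nat_lit 4429) (nat_lit 493858305440582043680)) (.cons (.br (nat_lit 7) (nat_lit 0) (.cons (.rf (nat_lit 4422) (nat_lit 493858305440582043680)) (.cons (.rf (nat_lit 4426) (nat_lit 493858305440582043680)) (.cons (.rf (nat_lit 4429) (nat_lit 493858305440582043680)) .nil)))) .nil))))),
 (.br (nat_lit 10) (nat_lit 1) (.cons (.ev (nat_lit 1213666632841576824439041) (nat_lit 1)) .nil)),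
 (.br (nat_lit 4) (nat_lit 1) (.cons (.ev (nat_lit 79228162514264337597838917889) (nat_lit 1)) (.cons (.ev (nat_lit 20282409608392483650894901018881) (nat_lit 1)) .nil))),
 (.br (nat_lit 6) (nat_lit 1) (.cons (.ev (nat_lit 309489750634853487056257281) (nat_lit 1)) (.cons (.ev (nat_lit 20282719093383858533360597991681) (nat_lit 1)) .nil))),
 (.br (nat_lit 5) (nat_lit 0) (.cons (.br (nat_lit 7) (nat_lit 0) (.cons (.br (nat_lit 2) (nat_lit 0) (.cons (.ev (nat_lit 20838870923866017347667128419076) (nat_lit 3)) .nil)) .nil)) (.cons (.br (nat_lit 7) (nat_lit 0) (.cons (.rf (nat_lit 4412) (nat_lit 493858305440582043680)) (.cons (.br (nat_lit 2) (nat_lit 0) (.cons (.ev (nat_lit 20520720333769386391057195009796) (nat_lit 3)) .nil)) .nil))) .nil))),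
 (.br (nat_lit 7) (nat_lit 0) (.cons (.rf (nat_lit 4434) (nat_lit 493858305440582043680)) (.cons (.br (nat_lit 2) (nat_lit 0) (.cons (.br (nat_lit 10) (nat_lit 1) (.cons (.ev (nat_lit 20679176649353182100504992483076) (nat_lit 3)) .nil)) (.cons (.ev (nat_lit 20282410812596008840248468504833) (nat_lit 1)) .nil))) .nil))),
 (.br (nat_lit 7) (nat_lit 0) (.cons (.br (nat_lit 5) (nat_lit 0) (.cons (.br (nat_lit 2) (nat_lit 0) (.cons (.ev (nat_lit 79231789328617517364837090050) (nat_lit 2)) .nil)) .nil)) (.cons (.br (nat_lit 2) (nat_lit 0) (.cons (.br (nat_lit 5) (nat_lit 0) (.cons (.ev (nat_lit 1223129812833964312756482) (nat_lit 2)) .nil)) (.cons (.rf (nat_lit 3784) (nat_lit 457822648505293145152)) .nil))) .nil))),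
 (.br (nat_lit 4) (nat_lit 1) (.cons (.br (nat_lit 7) (nat_lit 0) (.cons (.br (nat_lit 10) (nat_lit 1) (.cons (.ev (nat_lit 79231789328617517364837090050) (nat_lit 2)) .nil)) .nil)) (.cons (.ev (nat_lit 309489750634854586567884801) (nat_lit 1)) (.cons (.rf (nat_lit 4436) (nat_lit 493858305440582043680)) .nil)))),
 (.br (nat_lit 13) (nat_lit 0) (.cons (.rf (nat_lit 4430) (nat_lit 493858305440582043680)) (.cons (.br (nat_lit 8) (nat_lit 1) (.cons (.br (nat_lit 10) (nat_lit 1) (.cons (.br (nat_lit 4) (nat_lit 1) (.cons (.br (nat_lit 6) (nat_lit 1) (.cons (.br (nat_lit 11) (nat_lit 1) (.cons (.zr (nat_lit 237686905394648414829685178368) (nat_lit 1237958947198337302183018497) (nat_lit 5) (nat_lit 0)) .nil)) .nil)) (.cons (.br (nat_lit 5) (nat_lit 0) (.cons (.rf (nat_lit 4258) (nat_lit 493815591612871444512)) (.cons (.ev (nat_lit 20521022560391026923854463238914) (nat_lit 2)) .nil))) .nil))) (.cons (.br (nat_lit 6) (nat_lit 1) (.cons (.br (nat_lit 4) (nat_lit 1) (.cons (.br (nat_lit 7) (nat_lit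 0) (.cons (.zr (nat_lit 2417851855402049053327360) (nat_lit 237993977293427866267704885249) (nat_lit 5) (nat_lit 0)) .nil)) .nil)) (.cons (.br (nat_lit 11) (nat_lit 1) (.cons (.br (nat_lit 4) (nat_lit 1) (.cons (.zr (nat_lit 2417851855402049053327360) (nat_lit 237993977293427866267704885249) (nat_lit 5) (nat_lit 0)) .nil)) (.cons (.br (nat_lit 4) (nat_lit 1) (.cons (.zr (nat_lit 2417851855402049053327360) (nat_lit 309503917734302096008675329) (nat_lit 5) (nat_lit 0)) .nil)) .nil))) .nil))) (.cons (.br (nat_lit 6) (nat_lit 1) (.cons (.br (nat_lit 7) (nat_lit 0) (.cons (.br (nat_lit 5) (nat_lit 0) (.cons (.ev (nat_lit 158768242057161318671400894466) (nat_lit 2)) .nil)) (.cons (.br (nat_lit 5) (nat_lit 0) (.cons (.zr (nat_lit 311902861460574335664324608) (nat_lit 4740957623606424109057) (nat_lit 5) (nat_lit 9)) .nil)) .nil))) (.cons (.rf (nat_lit 4269) (nat_lit 493821221112400414752)) (.cons (.br (nat_lit 2) (nat_lit 0) (.cons (.br (nat_lit 11) (nat_lit 1) (.cons (.ev (nat_lit 79540065375797532468921303042)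 (nat_lit 2)) .nil)) (.cons (.br (nat_lit 4) (nat_lit 1) (.cons (.zr (nat_lit 2427296588367788343754752) (nat_lit 238922427600525418604234014721) (nat_lit 5) (nat_lit 0)) .nil)) .nil))) .nil)))) .nil)))) (.cons (.br (nat_lit 6) (nat_lit 1) (.cons (.br (nat_lit 4) (nat_lit 1) (.cons (.rf (nat_lit 4431) (nat_lit 493858305440582043680)) (.cons (.br (nat_lit 10) (nat_lit 1) (.cons (.ev (nat_lit 1213666632841576824439041) (nat_lit 1)) (.cons (.ev (nat_lit 20361638975091754376174264910081) (nat_lit 1)) .nil))) .nil))) (.cons (.br (nat_lit 1) (nat_lit 0) (.cons (.rf (nat_lit 4431) (nat_lit 458082801813651818528)) (.cons (.ev (nat_lit 79228167255077846011875426561) (nat_lit 1)) (.cons (.rf (nat_lit 4432) (nat_lit 493858305440582043680)) .nil)))) (.cons (.br (nat_lit 1) (nat_lit 0) (.cons (.br (nat_lit 11) (nat_lit 1) (.cons (.ev (nat_lit 309489750634853487056257281) (nat_lit 1)) (.cons (.ev (nat_lit 20361947251175756388084496728321) (nat_lit 1)) .nil))) (.cons (.ev (nat_lit 20282409603651670705422227996929)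 (nat_lit 1)) (.cons (.rf (nat_lit 4432) (nat_lit 493858305440582043680)) .nil)))) .nil)))) (.cons (.kr (nat_lit 18446744073709551616) (nat_lit 20282409603651670423947251286016) (nat_lit 8) (nat_lit 0)) (.cons (.br (nat_lit 4) (nat_lit 1) (.cons (.br (nat_lit 11) (nat_lit 1) (.cons (.rf (nat_lit 4433) (nat_lit 493858305440582043680)) (.cons (.br (nat_lit 6) (nat_lit 1) (.cons (.ev (nat_lit 309489750634853487056257281) (nat_lit 1)) (.cons (.ev (nat_lit 79537647542532708210954993921) (nat_lit 1)) .nil))) (.cons (.br (nat_lit 6) (nat_lit 1) (.cons (.ev (nat_lit 20282719093383858533360597991681) (nat_lit 1)) (.cons (.ev (nat_lit 79537647542532708210954993921) (nat_lit 1)) .nil))) .nil)))) (.cons (.br (nat_lit 11) (nat_lit 1) (.cons (.ev (nat_lit 20282409608392483650894901018881) (nat_lit 1)) (.cons (.br (nat_lit 7) (nat_lit 0) (.cons (.ev (nat_lit 79228162514336677762070282241) (nat_lit 1)) (.cons (.ev (nat_lit 79229376162522493790208458753) (nat_lit 1)) .nil))) (.cons (.br (nat_lit 5) (nat_lit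 0) (.cons (.ev (nat_lit 20361637766184453845783031119873) (nat_lit 1)) (.cons (.ev (nat_lit 20361638979832639661811169296385) (nat_lit 1)) .nil))) .nil)))) (.cons (.br (nat_lit 11) (nat_lit 1) (.cons (.ev (nat_lit 79228162514264337597838917889) (nat_lit 1)) (.cons (.br (nat_lit 6) (nat_lit 1) (.cons (.rf (nat_lit 3607) (nat_lit 493745751731641354272)) (.cons (.ev (nat_lit 79228162514336677762070282241) (nat_lit 1)) .nil))) (.cons (.br (nat_lit 2) (nat_lit 0) (.cons (.ev (nat_lit 4722438823038171545601) (nat_lit 1)) (.cons (.ev (nat_lit 20361638979832639661811169296385) (nat_lit 1)) .nil))) .nil)))) (.cons (.br (nat_lit 11) (nat_lit 1) (.cons (.ev (nat_lit 20361637766184381505618799755521) (nat_lit 1)) (.cons (.br (nat_lit 5) (nat_lit 0) (.cons (.ev (nat_lit 20361637766184453845783031119873) (nat_lit 1)) (.cons (.ev (nat_lit 20282410812596008841347980132353) (nat_lit 1)) .nil))) (.cons (.br (nat_lit 6) (nat_lit 1) (.cons (.rf (nat_lit 4383) (nat_lit 493858305440582042688)) (.cons (.ev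 (nat_lit 4722438823038171545601) (nat_lit 1)) .nil))) .nil)))) .nil))))) .nil))))) (.cons (.br (nat_lit 1) (nat_lit 0) (.cons (.br (nat_lit 7) (nat_lit 0) (.cons (.rf (nat_lit 4434) (nat_lit 493858305440582043680)) (.cons (.rf (nat_lit 4435) (nat_lit 493858305440582043680)) (.cons (.br (nat_lit 7) (nat_lit 0) (.cons (.rf (nat_lit 4434) (nat_lit 493858305440582043680)) (.cons (.rf (nat_lit 4435) (nat_lit 493858305440582043680)) .nil))) .nil)))) (.cons (.br (nat_lit 7) (nat_lit 0) (.cons (.rf (nat_lit 4436) (nat_lit 493858305440582043680)) (.cons (.rf (nat_lit 4437) (nat_lit 493858305440582043680)) (.cons (.br (nat_lit 7) (nat_lit 0) (.cons (.rf (nat_lit 4436) (nat_lit 493858305440582043680)) (.cons (.rf (nat_lit 4437) (nat_lit 493858305440582043680)) .nil))) .nil)))) (.cons (.ev (nat_lit 79537647542532426735995060481) (nat_lit 1)) (.cons (.br (nat_lit 10) (nat_lit 1) (.cons (.rf (nat_lit 3419) (nat_lit 493563215216757770272)) (.cons (.rf (nat_lit 4430) (nat_lit 493598220365233195040))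 (.cons (.rf (nat_lit 3784) (nat_lit 457822648505293146144)) .nil)))) .nil))))) .nil)))),
 (.br (nat_lit 7) (nat_lit 0) (.cons (.br (nat_lit 8) (nat_lit 1) (.cons (.ev (nat_lit 20361637766184453844683519492353) (nat_lit 1)) (.cons (.ev (nat_lit 309489750634573111607951361) (nat_lit 1)) .nil))) (.cons (.br (nat_lit 5) (nat_lit 0) (.cons (.br (nat_lit 8) (nat_lit 1) (.cons (.ev (nat_lit 79537647542532427835506688001) (nat_lit 1)) .nil)) .nil)) .nil))),
 (.br (nat_lit 8) (nat_lit 1) (.cons (.rf (nat_lit 3784) (nat_lit 457864203446677407776)) (.cons (.rf (nat_lit 3784) (nat_lit 457864203446677406784)) (.cons (.ev (nat_lit 309489750634573111607951361) (nat_lit 1)) .nil)))),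
 (.br (nat_lit 13) (nat_lit 0) (.cons (.rf (nat_lit 4430) (nat_lit 493858305440582043680)) (.cons (.rf (nat_lit 4438) (nat_lit 493858305440582043680)) (.cons (.br (nat_lit 1) (nat_lit 0) (.cons (.kr (nat_lit 309485009821345068741558272) (nat_lit 20282409603651670423951546253312) (nat_lit 3) (nat_lit 0)) (.cons (.br (nat_lit 7) (nat_lit 0) (.cons (.rf (nat_lit 4439) (nat_lit 493858305440582043680)) (.cons (.rf (nat_lit 4440) (nat_lit 493858305440582043680)) (.cons (.br (nat_lit 7) (nat_lit 0) (.cons (.rf (nat_lit 4439) (nat_lit 493858305440582043680)) (.cons (.rf (nat_lit 4440) (nat_lit 493858305440582043680)) .nil))) .nil)))) (.cons (.br (nat_lit 8) (nat_lit 1) (.cons (.rf (nat_lit 3419) (nat_lit 493604770158142031904)) (.cons (.br (nat_lit 4) (nat_lit 1) (.cons (.ev (nat_lit 20361637766184381506718311383041) (nat_lit 1)) (.cons (.ev (nat_lit 20282409608392483651994412646401) (nat_lit 1)) .nil))) (.cons (.rf (nat_lit 3784) (nat_lit 457864203446677407776)) .nil)))) (.cons (.br (nat_lit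 8) (nat_lit 1) (.cons (.br (nat_lit 8) (nat_lit 1) (.cons (.ev (nat_lit 79537647542532427835506688001) (nat_lit 1)) (.cons (.rf (nat_lit 3784) (nat_lit 457864203446677406784)) .nil))) (.cons (.br (nat_lit 8) (nat_lit 1) (.cons (.ev (nat_lit 79537647542532427835506688001) (nat_lit 1)) (.cons (.ev (nat_lit 309489750634573111607951361) (nat_lit 1)) .nil))) (.cons (.rf (nat_lit 4440) (nat_lit 493858305440582043680)) .nil)))) .nil))))) .nil)))),
 (.br (nat_lit 13) (nat_lit 0) (.cons (.rf (nat_lit 4430) (nat_lit 493858305440582043680)) (.cons (.rf (nat_lit 4438) (nat_lit 493858305440582043680)) (.cons (.rf (nat_lit 4441) (nat_lit 493858305440582043680)) (.cons (.br (nat_lit 13) (nat_lit 0) (.cons (.rf (nat_lit 4430) (nat_lit 493858305440582043680)) (.cons (.rf (nat_lit 4438) (nat_lit 493858305440582043680)) (.cons (.rf (nat_lit 4441) (nat_lit 493858305440582043680)) .nil)))) .nil))))),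
 (.br (nat_lit 2) (nat_lit 0) (.cons (.br (nat_lit 6) (nat_lit 1) (.cons (.br (nat_lit 8) (nat_lit 1) (.cons (.ev (nat_lit 79231789328617517364837090050) (nat_lit 2)) .nil)) (.cons (.br (nat_lit 8) (nat_lit 1) (.cons (.zr (nat_lit 237684487542865072573693100544) (nat_lit 310698658007724051128123393) (nat_lit 5) (nat_lit 0)) .nil)) .nil))) (.cons (.br (nat_lit 7) (nat_lit 0) (.cons (.br (nat_lit 6) (nat_lit 1) (.cons (.ev (nat_lit 1223129812833964312756482) (nat_lit 2)) .nil)) .nil)) .nil))),
 (.br (nat_lit 7) (nat_lit 0) (.cons (.rf (nat_lit 4443) (nat_lit 493858305440582043680)) (.cons (.br (nat_lit 4) (nat_lit 1) (.cons (.br (nat_lit 6) (nat_lit 1) (.cons (.ev (nat_lit 79231789328617517364837090050) (nat_lit 2)) .nil)) (.cons (.br (nat_lit 2) (nat_lit 0) (.cons (.ev (nat_lit 20523820029016045296007816741640) (nat_lit 4)) .nil)) .nil))) .nil))),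
 (.br (nat_lit 6) (nat_lit 1) (.cons (.br (nat_lit 7) (nat_lit 0) (.cons (.ev (nat_lit 79537647542532708210954993921) (nat_lit 1)) .nil)) .nil)),
 (.br (nat_lit 8) (nat_lit 1) (.cons (.ev (nat_lit 1213666632841576824439041) (nat_lit 1)) .nil))]

theorem c166 : chkAll C T R L166 (nat_lit 4424) = true := by decide +kernel

theorem l166 : (nat_lit 4424) + L166.length = (nat_lit 4447) := by decide +kernel

/-- part of the certificates -/
def L167 : List Prf := [(.br (nat_lit 13) (nat_lit 0) (.cons (.rf (nat_lit 4430) (nat_lit 493858305440582043680)) (.cons (.rf (nat_lit 4442) (nat_lit 493858305440582043680)) (.cons (.br (nat_lit 10) (nat_lit 1) (.cons (.br (nat_lit 7) (nat_lit 0) (.cons (.rf (nat_lit 4443) (nat_lit 493858305440582043680)) (.cons (.rf (nat_lit 4444) (nat_lit 493858305440582043680)) (.cons (.br (nat_lit 7) (nat_lit 0) (.cons (.rf (nat_lit 4443) (nat_lit 493858305440582043680)) (.cons (.rf (nat_lit 4444) (nat_lit 493858305440582043680)) .nil))) .nil)))) (.cons (.br (nat_lit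 1) (nat_lit 0) (.cons (.br (nat_lit 6) (nat_lit 1) (.cons (.rf (nat_lit 4445) (nat_lit 493858305440582043680)) (.cons (.br (nat_lit 6) (nat_lit 1) (.cons (.rf (nat_lit 4445) (nat_lit 493858305440582043680)) .nil)) .nil))) (.cons (.br (nat_lit 4) (nat_lit 1) (.cons (.rf (nat_lit 4446) (nat_lit 493858305440582043680)) (.cons (.br (nat_lit 8) (nat_lit 1) (.cons (.ev (nat_lit 1213666632841576824439041) (nat_lit 1)) (.cons (.ev (nat_lit 20361637766184381505618799755521) (nat_lit 1)) .nil))) .nil))) (.cons (.ev (nat_lit 79537647542532426735995060481) (nat_lit 1)) .nil)))) (.cons (.kr (nat_lit 1208925819614629174706176) (nat_lit 20282409603651670423947251286016) (nat_lit 10) (nat_lit 0)) (.cons (.br (nat_lit 1) (nat_lit 0) (.cons (.br (nat_lit 5) (nat_lit 0) (.cons (.br (nat_lit 6) (nat_lit 1) (.cons (.br (nat_lit 7) (nat_lit 0) (.cons (.ev (nat_lit 309489750634853487056257281) (nat_lit 1)) .nil)) (.cons (.br (nat_lit 2) (nat_lit 0) (.cons (.ev (nat_lit 309489750634853487056257281) (nat_lit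 1)) .nil)) .nil))) (.cons (.br (nat_lit 7) (nat_lit 0) (.cons (.br (nat_lit 6) (nat_lit 1) (.cons (.ev (nat_lit 309489750634853487056257281) (nat_lit 1)) .nil)) .nil)) .nil))) (.cons (.br (nat_lit 6) (nat_lit 1) (.cons (.rf (nat_lit 3419) (nat_lit 493787200025760303136)) (.cons (.br (nat_lit 7) (nat_lit 0) (.cons (.br (nat_lit 8) (nat_lit 1) (.cons (.ev (nat_lit 79228167255149623234743304193) (nat_lit 1)) .nil)) (.cons (.br (nat_lit 2) (nat_lit 0) (.cons (.ev (nat_lit 79228167255149623234743304193) (nat_lit 1)) .nil)) .nil))) (.cons (.br (nat_lit 8) (nat_lit 1) (.cons (.br (nat_lit 5) (nat_lit 0) (.cons (.ev (nat_lit 1213666632841576824439041) (nat_lit 1)) .nil)) (.cons (.br (nat_lit 2) (nat_lit 0) (.cons (.ev (nat_lit 1213666632841576824439041) (nat_lit 1)) .nil)) .nil))) .nil)))) (.cons (.ev (nat_lit 79537647542532426735995060481) (nat_lit 1)) .nil)))) .nil))))) .nil)))),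
 (.br (nat_lit 13) (nat_lit 0) (.cons (.rf (nat_lit 4430) (nat_lit 493858305440582043680)) (.cons (.rf (nat_lit 4442) (nat_lit 493858305440582043680)) (.cons (.rf (nat_lit 4447) (nat_lit 493858305440582043680)) (.cons (.br (nat_lit 13) (nat_lit 0) (.cons (.rf (nat_lit 4430) (nat_lit 493858305440582043680)) (.cons (.rf (nat_lit 4442) (nat_lit 493858305440582043680)) (.cons (.rf (nat_lit 4447) (nat_lit 493858305440582043680)) .nil)))) .nil))))),
 (.br (nat_lit 13) (nat_lit 0) (.cons (.rf (nat_lit 4430) (nat_lit 493858305440582043680)) (.cons (.rf (nat_lit 4442) (nat_lit 493858305440582043680)) (.cons (.rf (nat_lit 4448) (nat_lit 493858305440582043680)) (.cons (.br (nat_lit 13) (nat_lit 0) (.cons (.rf (nat_lit 4430) (nat_lit 493858305440582043680)) (.cons (.rf (nat_lit 4442) (nat_lit 493858305440582043680)) (.cons (.rf (nat_lit 4448) (nat_lit 493858305440582043680)) .nil)))) .nil))))),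
 (.br (nat_lit 13) (nat_lit 0) (.cons (.rf (nat_lit 4430) (nat_lit 493858305440582043680)) (.cons (.rf (nat_lit 4442) (nat_lit 493858305440582043680)) (.cons (.rf (nat_lit 4448) (nat_lit 493858305440582043680)) (.cons (.rf (nat_lit 4449) (nat_lit 493858305440582043680)) (.cons (.br (nat_lit 13) (nat_lit 0) (.cons (.rf (nat_lit 4430) (nat_lit 493858305440582043680)) (.cons (.rf (nat_lit 4442) (nat_lit 493858305440582043680)) (.cons (.rf (nat_lit 4448) (nat_lit 493858305440582043680)) (.cons (.rf (nat_lit 4449) (nat_lit 493858305440582043680)) .nil))))) .nil)))))),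
 (.br (nat_lit 4) (nat_lit 1) (.cons (.br (nat_lit 11) (nat_lit 1) (.cons (.ev (nat_lit 310693935640959702211297281) (nat_lit 1)) .nil)) .nil)),
 (.br (nat_lit 13) (nat_lit 0) (.cons (.br (nat_lit 13) (nat_lit 0) (.cons (.rf (nat_lit 4372) (nat_lit 457822648505293146144)) (.cons (.rf (nat_lit 3784) (nat_lit 457822648505293146144)) .nil))) (.cons (.br (nat_lit 13) (nat_lit 0) (.cons (.rf (nat_lit 4372) (nat_lit 457822648505293146144)) (.cons (.rf (nat_lit 3784) (nat_lit 457822648505293146144)) .nil))) (.cons (.rf (nat_lit 3784) (nat_lit 457822648505293146144)) .nil)))),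
 (.br (nat_lit 8) (nat_lit 1) (.cons (.br (nat_lit 6) (nat_lit 1) (.cons (.rf (nat_lit 4451) (nat_lit 14242959524133701664)) (.cons (.br (nat_lit 6) (nat_lit 1) (.cons (.rf (nat_lit 4451) (nat_lit 14242959524133701664)) .nil)) .nil))) (.cons (.rf (nat_lit 4452) (nat_lit 493858305440582043680)) .nil))),
 (.br (nat_lit 13) (nat_lit 0) (.cons (.br (nat_lit 13) (nat_lit 0) (.cons (.rf (nat_lit 3784) (nat_lit 457864203446677406784)) (.cons (.rf (nat_lit 4372) (nat_lit 458038990606830928960)) .nil))) (.cons (.rf (nat_lit 3784) (nat_lit 457864203446677406784)) (.cons (.br (nat_lit 13) (nat_lit 0) (.cons (.rf (nat_lit 4372) (nat_lit 458038990606830928960)) (.cons (.rf (nat_lit 3784) (nat_lit 457864203446677406784)) .nil))) .nil)))),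
 (.br (nat_lit 7) (nat_lit 0) (.cons (.br (nat_lit 13) (nat_lit 0) (.cons (.ev (nat_lit 20282409603651670705422227996929) (nat_lit 1)) (.cons (.ev (nat_lit 20361948460101647779936556024065) (nat_lit 1)) .nil))) (.cons (.br (nat_lit 13) (nat_lit 0) (.cons (.br (nat_lit 2) (nat_lit 0) (.cons (.ev (nat_lit 79228167255077846011875426561) (nat_lit 1)) .nil)) .nil)) .nil))),
 (.br (nat_lit 7) (nat_lit 0) (.cons (.rf (nat_lit 4455) (nat_lit 493858305440582043680)) (.cons (.br (nat_lit 13) (nat_lit 0) (.cons (.ev (nat_lit 20361948460101647779936556024065) (nat_lit 1)) (.cons (.ev (nat_lit 20282409603651670705422227996929) (nat_lit 1)) .nil))) .nil))),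
 (.br (nat_lit 8) (nat_lit 1) (.cons (.rf (nat_lit 4454) (nat_lit 493858305440582043680)) (.cons (.br (nat_lit 7) (nat_lit 0) (.cons (.rf (nat_lit 4455) (nat_lit 493858305440582043680)) (.cons (.rf (nat_lit 4456) (nat_lit 493858305440582043680)) (.cons (.br (nat_lit 7) (nat_lit 0) (.cons (.rf (nat_lit 4455) (nat_lit 493858305440582043680)) (.cons (.rf (nat_lit 4456) (nat_lit 493858305440582043680)) .nil))) .nil)))) .nil))),
 (.br (nat_lit 13) (nat_lit 0) (.cons (.rf (nat_lit 3784) (nat_lit 458046633314295678016)) (.cons (.rf (nat_lit 4232) (nat_lit 458116643612319220800)) (.cons (.rf (nat_lit 4450) (nat_lit 458116643612319220800)) .nil)))),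
 (.br (nat_lit 8) (nat_lit 1) (.cons (.rf (nat_lit 4454) (nat_lit 493858305440582043680)) (.cons (.br (nat_lit 6) (nat_lit 1) (.cons (.br (nat_lit 6) (nat_lit 1) (.cons (.rf (nat_lit 4458) (nat_lit 493858305440582043680)) (.cons (.kr (nat_lit 4740813226943354765312) (nat_lit 20361637766165934761540795236352) (nat_lit 8) (nat_lit 0)) .nil))) (.cons (.br (nat_lit 6) (nat_lit 1) (.cons (.rf (nat_lit 4458) (nat_lit 493858305440582043680)) (.cons (.ev (nat_lit 79228167255077846011875426561) (nat_lit 1)) .nil))) (.cons (.kr (nat_lit 4740813226943354765312) (nat_lit 20361637766165934761540795236352) (nat_lit 8) (nat_lit 0)) .nil)))) .nil))),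
 (.br (nat_lit 10) (nat_lit 1) (.cons (.rf (nat_lit 3419) (nat_lit 493563215216757770272)) (.cons (.br (nat_lit 8) (nat_lit 1) (.cons (.rf (nat_lit 4453) (nat_lit 493858305440582043680)) (.cons (.br (nat_lit 8) (nat_lit 1) (.cons (.rf (nat_lit 4453) (nat_lit 493858305440582043680)) (.cons (.rf (nat_lit 4452) (nat_lit 493858305440582043680)) .nil))) (.cons (.rf (nat_lit 4452) (nat_lit 493858305440582043680)) .nil)))) (.cons (.br (nat_lit 8) (nat_lit 1) (.cons (.rf (nat_lit 4457) (nat_lit 493858305440582043680)) (.cons (.rf (nat_lit 4459) (nat_lit 493858305440582043680)) (.cons (.br (nat_lit 8) (nat_lit 1) (.cons (.rf (nat_lit 4457) (nat_lit 493858305440582043680)) (.cons (.rf (nat_lit 4459) (nat_lit 493858305440582043680)) .nil))) .nil)))) .nil)))),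
 (.br (nat_lit 13) (nat_lit 0) (.cons (.kr (nat_lit 16777216) (nat_lit 20282409603651670423947251286016) (nat_lit 3) (nat_lit 0)) (.cons (.rf (nat_lit 4372) (nat_lit 457822648505293145152)) (.cons (.rf (nat_lit 4232) (nat_lit 457857653653768569920)) .nil)))),
 (.br (nat_lit 13) (nat_lit 0) (.cons (.rf (nat_lit 4461) (nat_lit 493858305440582043680)) (.cons (.br (nat_lit 13) (nat_lit 0) (.cons (.rf (nat_lit 4372) (nat_lit 457822648505293145152)) (.cons (.rf (nat_lit 3784) (nat_lit 457822648505293145152)) .nil))) (.cons (.rf (nat_lit 4280) (nat_lit 493823368456464074784)) .nil)))),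
 (.br (nat_lit 13) (nat_lit 0) (.cons (.rf (nat_lit 4461) (nat_lit 493858305440582043680)) (.cons (.br (nat_lit 13) (nat_lit 0) (.cons (.rf (nat_lit 4372) (nat_lit 457822648505293145152)) (.cons (.rf (nat_lit 3784) (nat_lit 457822648505293145152)) .nil))) (.cons (.rf (nat_lit 4232) (nat_lit 457857653653768569920)) .nil)))),
 (.br (nat_lit 13) (nat_lit 0) (.cons (.rf (nat_lit 4462) (nat_lit 493858305440582043680)) (.cons (.rf (nat_lit 4463) (nat_lit 493858305440582043680)) (.cons (.br (nat_lit 13) (nat_lit 0) (.cons (.rf (nat_lit 4462) (nat_lit 493858305440582043680)) (.cons (.rf (nat_lit 4463) (nat_lit 493858305440582043680)) (.cons (.rf (nat_lit 3784) (nat_lit 457822648505293145152)) .nil)))) (.cons (.br (nat_lit 13) (nat_lit 0) (.cons (.rf (nat_lit 4280) (nat_lit 493823368456464074784)) (.cons (.rf (nat_lit 4232) (nat_lit 457857653653768569920)) (.cons (.rf (nat_lit 3784) (nat_lit 457822648505293145152)) .nil)))) .nil))))),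
 (.br (nat_lit 8) (nat_lit 1) (.cons (.rf (nat_lit 3784) (nat_lit 457864203446677407776)) (.cons (.rf (nat_lit 3784) (nat_lit 457864203446677406784)) (.cons (.kr (nat_lit 4740813226943354765312) (nat_lit 20361637766165934761540795236352) (nat_lit 8) (nat_lit 0)) .nil)))),
 (.br (nat_lit 6) (nat_lit 1) (.cons (.rf (nat_lit 3419) (nat_lit 493787200025760303136)) (.cons (.br (nat_lit 8) (nat_lit 1) (.cons (.br (nat_lit 8) (nat_lit 1) (.cons (.rf (nat_lit 4454) (nat_lit 493858305440582043680)) (.cons (.rf (nat_lit 4458) (nat_lit 493858305440582042688)) .nil))) (.cons (.br (nat_lit 8) (nat_lit 1) (.cons (.rf (nat_lit 4454) (nat_lit 493858305440582043680)) (.cons (.rf (nat_lit 4458) (nat_lit 493858305440582042688)) .nil))) (.cons (.rf (nat_lit 4458) (nat_lit 493858305440582042688)) .nil)))) (.cons (.br (nat_lit 8) (nat_lit 1) (.cons (.br (nat_lit 8) (nat_lit 1) (.cons (.rf (nat_lit 3784) (nat_lit 457864203446677406784)) (.cons (.rf (nat_lit 4433) (nat_lit 458082801744999450656)) .nil))) (.cons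 (.rf (nat_lit 4465) (nat_lit 493858305440582043680)) (.cons (.br (nat_lit 8) (nat_lit 1) (.cons (.rf (nat_lit 4433) (nat_lit 458082801744999450656)) (.cons (.kr (nat_lit 4740813226943354765312) (nat_lit 20361637766165934761540795236352) (nat_lit 8) (nat_lit 0)) .nil))) .nil)))) .nil)))),
 (.br (nat_lit 6) (nat_lit 1) (.cons (.rf (nat_lit 3419) (nat_lit 493787200025760303136)) (.cons (.br (nat_lit 13) (nat_lit 0) (.cons (.ev (nat_lit 1213648186378978091663361) (nat_lit 1)) (.cons (.br (nat_lit 13) (nat_lit 0) (.cons (.ev (nat_lit 1213648186378978091663361) (nat_lit 1)) (.cons (.rf (nat_lit 4411) (nat_lit 458116643612319220800)) .nil))) (.cons (.br (nat_lit 13) (nat_lit 0) (.cons (.ev (nat_lit 1213648186378978091663361) (nat_lit 1)) (.cons (.rf (nat_lit 4411) (nat_lit 458116643612319220800)) .nil))) .nil)))) (.cons (.br (nat_lit 7) (nat_lit 0) (.cons (.ev (nat_lit 1213648186378978091663361) (nat_lit 1)) (.cons (.rf (nat_lit 4465) (nat_lit 493858305440582043680)) (.cons (.br (nat_lit 7)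 (nat_lit 0) (.cons (.ev (nat_lit 1213648186378978091663361) (nat_lit 1)) (.cons (.rf (nat_lit 4465) (nat_lit 493858305440582043680)) .nil))) .nil)))) .nil)))),
 (.br (nat_lit 2) (nat_lit 0) (.cons (.ev (nat_lit 309489732187827938370060289) (nat_lit 1)) (.cons (.ev (nat_lit 309485009893685237251112961) (nat_lit 1)) .nil))),
 (.br (nat_lit 6) (nat_lit 1) (.cons (.rf (nat_lit 4466) (nat_lit 493858305440582043680)) (.cons (.rf (nat_lit 4467) (nat_lit 493858305440582043680)) (.cons (.br (nat_lit 7) (nat_lit 0) (.cons (.br (nat_lit 1) (nat_lit 0) (.cons (.ev (nat_lit 72340172821233921) (nat_lit 1)) (.cons (.ev (nat_lit 4722366482873940181249) (nat_lit 1)) .nil))) (.cons (.rf (nat_lit 4465) (nat_lit 493858305440582043680)) (.cons (.rf (nat_lit 4468) (nat_lit 493858305440582043680)) .nil)))) .nil)))),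
 (.br (nat_lit 10) (nat_lit 1) (.cons (.rf (nat_lit 3419) (nat_lit 493563215216757770272)) (.cons (.rf (nat_lit 4464) (nat_lit 493858305440582043680)) (.cons (.br (nat_lit 6) (nat_lit 1) (.cons (.rf (nat_lit 4466) (nat_lit 493858305440582043680)) (.cons (.rf (nat_lit 4467) (nat_lit 493858305440582043680)) (.cons (.rf (nat_lit 4469) (nat_lit 493858305440582043680)) (.cons (.br (nat_lit 6) (nat_lit 1) (.cons (.rf (nat_lit 4466) (nat_lit 493858305440582043680)) (.cons (.rf (nat_lit 4467) (nat_lit 493858305440582043680)) (.cons (.rf (nat_lit 4469) (nat_lit 493858305440582043680)) .nil)))) .nil))))) .nil)))),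
 (.br (nat_lit 2) (nat_lit 0) (.cons (.rf (nat_lit 3419) (nat_lit 493604770158142031904)) (.cons (.br (nat_lit 6) (nat_lit 1) (.cons (.ev (nat_lit 79537647524158022835089965313) (nat_lit 1)) (.cons (.ev (nat_lit 20361947251175756388084496728321) (nat_lit 1)) .nil))) .nil))),
 (.br (nat_lit 4) (nat_lit 1) (.cons (.br (nat_lit 8) (nat_lit 1) (.cons (.rf (nat_lit 3419) (nat_lit 493604770158142031904)) (.cons (.br (nat_lit 6) (nat_lit 1) (.cons (.br (nat_lit 6) (nat_lit 1) (.cons (.ev (nat_lit 158457538695305915634628625154) (nat_lit 2)) .nil)) (.cons (.rf (nat_lit 3784) (nat_lit 457864203446677407776)) .nil))) (.cons (.br (nat_lit 13) (nat_lit 0) (.cons (.br (nat_lit 6) (nat_lit 1) (.cons (.br (nat_lit 7) (nat_lit 0) (.cons (.ev (nat_lit 79538861172272061640360394753) (nat_lit 1)) .nil)) (.cons (.br (nat_lit 2) (nat_lit 0) (.cons (.ev (nat_lit 79537647524158022835089965313) (nat_lit 1)) .nil)) .nil))) (.cons (.ev (nat_lit 79537647542532426735995060481) (nat_lit 1)) .nil))) .nil)))) (.cons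 (.ev (nat_lit 79229371440156010916268212481) (nat_lit 1)) (.cons (.br (nat_lit 2) (nat_lit 0) (.cons (.rf (nat_lit 4471) (nat_lit 493858305440582043680)) (.cons (.rf (nat_lit 3419) (nat_lit 493604770158142031904)) (.cons (.br (nat_lit 2) (nat_lit 0) (.cons (.rf (nat_lit 4471) (nat_lit 493858305440582043680)) (.cons (.ev (nat_lit 79537647542532426735995060481) (nat_lit 1)) .nil))) .nil)))) .nil)))),
 (.br (nat_lit 8) (nat_lit 1) (.cons (.rf (nat_lit 3419) (nat_lit 493604770158142031904)) (.cons (.rf (nat_lit 4454) (nat_lit 493858305440582043680)) (.cons (.br (nat_lit 13) (nat_lit 0) (.cons (.br (nat_lit 2) (nat_lit 0) (.cons (.br (nat_lit 6) (nat_lit 1) (.cons (.ev (nat_lit 20361637770906748269959143555073) (nat_lit 1)) (.cons (.rf (nat_lit 4232) (nat_lit 458116643612319220800)) .nil))) (.cons (.br (nat_lit 1) (nat_lit 0) (.cons (.br (nat_lit 7) (nat_lit 0) (.cons (.ev (nat_lit 1213648258437667362963713) (nat_lit 1)) .nil)) .nil)) .nil))) (.cons (.br (nat_lit 1) (nat_lit 0) (.cons (.rf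 (nat_lit 2324) (nat_lit 493858305268649139360)) (.cons (.br (nat_lit 4) (nat_lit 1) (.cons (.ev (nat_lit 1213666632841576824439041) (nat_lit 1)) (.cons (.ev (nat_lit 20361638975091754376174264910081) (nat_lit 1)) .nil))) (.cons (.br (nat_lit 4) (nat_lit 1) (.cons (.ev (nat_lit 20361637766184381505618799755521) (nat_lit 1)) (.cons (.ev (nat_lit 4722366482873940181249) (nat_lit 1)) .nil))) .nil)))) (.cons (.kr (nat_lit 1213648186097498819919872) (nat_lit 20361637766165934761540795236352) (nat_lit 9) (nat_lit 0)) .nil)))) .nil))))]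

theorem c167 : chkAll C T R L167 (nat_lit 4447) = true := by decide +kernel

theorem l167 : (nat_lit 4447) + L167.length = (nat_lit 4474) := by decide +kernel

/-- part of the certificates -/
def L168 : List Prf := [(.br (nat_lit 8) (nat_lit 1) (.cons (.rf (nat_lit 4472) (nat_lit 493858305440582043680)) (.cons (.rf (nat_lit 4454) (nat_lit 493858305440582043680)) (.cons (.br (nat_lit 13) (nat_lit 0) (.cons (.br (nat_lit 1) (nat_lit 0) (.cons (.ev (nat_lit 20282410817318375324213330313473) (nat_lit 1)) (.cons (.ev (nat_lit 20282409608374108965510446055681) (nat_lit 1)) .nil))) (.cons (.kr (nat_lit 4740813226943354765312) (nat_lit 20361637766165934761540795236352) (nat_lit 8) (nat_lit 0)) (.cons (.kr (nat_lit 1213648186097498819919872) (nat_lit 20361637766165934761540795236352) (nat_lit 9) (nat_lit 0)) .nil)))) .nil)))),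
 (.br (nat_lit 10) (nat_lit 1) (.cons (.rf (nat_lit 4460) (nat_lit 493858305440582043680)) (.cons (.rf (nat_lit 4464) (nat_lit 493858305440582043680)) (.cons (.br (nat_lit 8) (nat_lit 1) (.cons (.rf (nat_lit 4472) (nat_lit 493858305440582043680)) (.cons (.rf (nat_lit 4473) (nat_lit 493858305440582043680)) (.cons (.rf (nat_lit 4474) (nat_lit 493858305440582043680)) (.cons (.br (nat_lit 8) (nat_lit 1) (.cons (.rf (nat_lit 4472) (nat_lit 493858305440582043680)) (.cons (.rf (nat_lit 4473) (nat_lit 493858305440582043680)) (.cons (.rf (nat_lit 4474) (nat_lit 493858305440582043680)) .nil)))) .nil))))) .nil)))),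
 (.br (nat_lit 8) (nat_lit 1) (.cons (.rf (nat_lit 3421) (nat_lit 493675948141801736224)) (.cons (.br (nat_lit 2) (nat_lit 0) (.cons (.rf (nat_lit 4359) (nat_lit 493823402543469922336)) (.cons (.br (nat_lit 7) (nat_lit 0) (.cons (.ev (nat_lit 158457533991242060546760048642) (nat_lit 2)) .nil)) .nil))) .nil))),
 (.br (nat_lit 10) (nat_lit 1) (.cons (.br (nat_lit 8) (nat_lit 1) (.cons (.rf (nat_lit 3421) (nat_lit 493678129572871243808)) (.cons (.br (nat_lit 8) (nat_lit 1) (.cons (.rf (nat_lit 3421) (nat_lit 493678129572871243808)) (.cons (.rf (nat_lit 4232) (nat_lit 457822648505293145152)) .nil))) (.cons (.rf (nat_lit 4232) (nat_lit 457822648505293145152)) .nil)))) (.cons (.br (nat_lit 8) (nat_lit 1) (.cons (.rf (nat_lit 3425) (nat_lit 493678129572871243808)) (.cons (.rf (nat_lit 4476) (nat_lit 493858305440582043680)) (.cons (.br (nat_lit 8) (nat_lit 1) (.cons (.rf (nat_lit 3425) (nat_lit 493678129572871243808)) (.cons (.rf (nat_lit 4476) (nat_lit 493858305440582043680)) .nil))) .nil))))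 .nil))),
 (.br (nat_lit 7) (nat_lit 0) (.cons (.br (nat_lit 11) (nat_lit 1) (.cons (.br (nat_lit 13) (nat_lit 0) (.cons (.ev (nat_lit 20678555251963236117281262469892) (nat_lit 3)) .nil)) (.cons (.br (nat_lit 8) (nat_lit 1) (.cons (.zr (nat_lit 238303457562435706216616493056) (nat_lit 1227833732571660753567745) (nat_lit 5) (nat_lit 0)) .nil)) .nil))) (.cons (.br (nat_lit 13) (nat_lit 0) (.cons (.br (nat_lit 2) (nat_lit 0) (.cons (.zr (nat_lit 618970019642693435984642048) (nat_lit 1213666633123051817926657) (nat_lit 5) (nat_lit 0)) .nil)) .nil)) .nil))),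
 (.br (nat_lit 2) (nat_lit 0) (.cons (.rf (nat_lit 4478) (nat_lit 493858305440582043680)) (.cons (.br (nat_lit 8) (nat_lit 1) (.cons (.br (nat_lit 13) (nat_lit 0) (.cons (.ev (nat_lit 20678555251963236680231182336772) (nat_lit 3)) .nil)) (.cons (.br (nat_lit 7) (nat_lit 0) (.cons (.ev (nat_lit 20678555251963236680231182336772) (nat_lit 3)) .nil)) .nil))) .nil))),
 (.br (nat_lit 10) (nat_lit 1) (.cons (.rf (nat_lit 4477) (nat_lit 493858305440582043680)) (.cons (.br (nat_lit 2) (nat_lit 0) (.cons (.rf (nat_lit 4478) (nat_lit 493858305440582043680)) (.cons (.rf (nat_lit 4479) (nat_lit 493858305440582043680)) (.cons (.br (nat_lit 2) (nat_lit 0) (.cons (.rf (nat_lit 4478) (nat_lit 493858305440582043680)) (.cons (.rf (nat_lit 4479) (nat_lit 493858305440582043680)) .nil))) .nil)))) .nil))),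
 (.br (nat_lit 8) (nat_lit 1) (.cons (.ev (nat_lit 1213666632841576824439041) (nat_lit 1)) .nil)),
 (.br (nat_lit 2) (nat_lit 0) (.cons (.ev (nat_lit 281474993553409) (nat_lit 1)) (.cons (.br (nat_lit 11) (nat_lit 1) (.cons (.ev (nat_lit 79537647524085682662268796929) (nat_lit 1)) (.cons (.br (nat_lit 8) (nat_lit 1) (.cons (.br (nat_lit 10) (nat_lit 1) (.cons (.br (nat_lit 8) (nat_lit 1) (.cons (.ev (nat_lit 79229371458530696300723175681) (nat_lit 1)) .nil)) .nil)) (.cons (.br (nat_lit 10) (nat_lit 1) (.cons (.rf (nat_lit 4396) (nat_lit 15432925844398736448)) (.cons (.rf (nat_lit 4372) (nat_lit 458116643612319221792)) .nil))) .nil))) (.cons (.br (nat_lit 13) (nat_lit 0) (.cons (.br (nat_lit 10) (nat_lit 1) (.cons (.rf (nat_lit 3483) (nat_lit 457822648573945513024)) (.cons (.rf (nat_lit 3784) (nat_lit 457822648505293145152)) .nil))) (.cons (.br (nat_lit 7) (nat_lit 0) (.cons (.rf (nat_lit 4481) (nat_lit 493858305440582043680)) .nil)) .nil))) .nil)))) (.cons (.br (nat_lit 13) (nat_lit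 0) (.cons (.br (nat_lit 13) (nat_lit 0) (.cons (.rf (nat_lit 4372) (nat_lit 458116643612319221792)) .nil)) (.cons (.br (nat_lit 13) (nat_lit 0) (.cons (.rf (nat_lit 4372) (nat_lit 458116643612319221792)) .nil)) .nil))) .nil)))),
 (.br (nat_lit 8) (nat_lit 1) (.cons (.ev (nat_lit 79228167255077847111387054081) (nat_lit 1)) (.cons (.ev (nat_lit 18447026648197890049) (nat_lit 1)) .nil))),
 (.br (nat_lit 10) (nat_lit 1) (.cons (.rf (nat_lit 4483) (nat_lit 493858305440582043680)) (.cons (.br (nat_lit 4) (nat_lit 1) (.cons (.kr (nat_lit 1208925819614633469673728) (nat_lit 309485009821627643213119488) (nat_lit 1) (nat_lit 0)) (.cons (.br (nat_lit 5) (nat_lit 0) (.cons (.ev (nat_lit 20678555251963236680231182336772) (nat_lit 3)) .nil)) .nil))) .nil))),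
 (.br (nat_lit 2) (nat_lit 0) (.cons (.ev (nat_lit 281474993553409) (nat_lit 1)) (.cons (.br (nat_lit 11) (nat_lit 1) (.cons (.br (nat_lit 8) (nat_lit 1) (.cons (.br (nat_lit 4) (nat_lit 1) (.cons (.br (nat_lit 10) (nat_lit 1) (.cons (.zr (nat_lit 9481626457185244610560) (nat_lit 314320713100085064712060929) (nat_lit 5) (nat_lit 0)) .nil)) .nil)) (.cons (.br (nat_lit 13) (nat_lit 0) (.cons (.rf (nat_lit 4232) (nat_lit 458116643612319221792)) (.cons (.rf (nat_lit 4372) (nat_lit 458116643612319221792)) .nil))) .nil))) (.cons (.ev (nat_lit 79537647524085964137262284801) (nat_lit 1)) (.cons (.ev (nat_lit 309489732188109413363548161) (nat_lit 1)) .nil)))) (.cons (.br (nat_lit 10) (nat_lit 1) (.cons (.rf (nat_lit 4483) (nat_lit 493858305440582043680)) (.cons (.rf (nat_lit 4484) (nat_lit 493858305440582043680)) (.cons (.br (nat_lit 10) (nat_lit 1) (.cons (.rf (nat_lit 4483) (nat_lit 493858305440582043680)) (.cons (.rf (nat_lit 4484) (nat_lit 493858305440582043680)) .nil))) .nil)))) .nil)))),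
 (.br (nat_lit 13) (nat_lit 0) (.cons (.rf (nat_lit 4232) (nat_lit 458116643612319221792)) (.cons (.br (nat_lit 5) (nat_lit 0) (.cons (.br (nat_lit 7) (nat_lit 0) (.cons (.ev (nat_lit 309489750634573111607951361) (nat_lit 1)) .nil)) .nil)) .nil))),
 (.br (nat_lit 2) (nat_lit 0) (.cons (.rf (nat_lit 4482) (nat_lit 493858305440582043680)) (.cons (.rf (nat_lit 4485) (nat_lit 493858305440582043680)) (.cons (.br (nat_lit 13) (nat_lit 0) (.cons (.rf (nat_lit 4486) (nat_lit 493858305440582043680)) (.cons (.br (nat_lit 13) (nat_lit 0) (.cons (.rf (nat_lit 4232) (nat_lit 458116643612319221792)) (.cons (.rf (nat_lit 4372) (nat_lit 458116643612319221792)) .nil))) (.cons (.br (nat_lit 13) (nat_lit 0) (.cons (.rf (nat_lit 4486) (nat_lit 493858305440582043680)) (.cons (.rf (nat_lit 4372) (nat_lit 458116643612319221792)) .nil))) .nil)))) .nil)))),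
 (.br (nat_lit 2) (nat_lit 0) (.cons (.br (nat_lit 11) (nat_lit 1) (.cons (.br (nat_lit 8) (nat_lit 1) (.cons (.br (nat_lit 10) (nat_lit 1) (.cons (.zr (nat_lit 9481626457185244610560) (nat_lit 314320713100085064712060929) (nat_lit 5) (nat_lit 0)) .nil)) (.cons (.br (nat_lit 10) (nat_lit 1) (.cons (.zr (nat_lit 475368975122479517007217885184) (nat_lit 314339602566016543292915713) (nat_lit 5) (nat_lit 0)) .nil)) .nil))) (.cons (.ev (nat_lit 309489732188109413363548161) (nat_lit 1)) (.cons (.ev (nat_lit 79537647524085964137262284801) (nat_lit 1)) .nil)))) (.cons (.br (nat_lit 5) (nat_lit 0) (.cons (.br (nat_lit 13) (nat_lit 0) (.cons (.br (nat_lit 7) (nat_lit 0) (.cons (.ev (nat_lit 20678555251963236680231182336772) (nat_lit 3)) .nil)) .nil)) (.cons (.br (nat_lit 8) (nat_lit 1) (.cons (.ev (nat_lit 18447026648197890049) (nat_lit 1)) (.cons (.ev (nat_lit 79228167255077847111387054081) (nat_lit 1)) .nil))) .nil))) .nil))),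
 (.br (nat_lit 2) (nat_lit 0) (.cons (.rf (nat_lit 4488) (nat_lit 493858305440582043680)) (.cons (.br (nat_lit 13) (nat_lit 0) (.cons (.br (nat_lit 7) (nat_lit 0) (.cons (.br (nat_lit 10) (nat_lit 1) (.cons (.ev (nat_lit 79231789328617517364837090050) (nat_lit 2)) .nil)) (.cons (.rf (nat_lit 4232) (nat_lit 457822648505293145152)) .nil))) (.cons (.br (nat_lit 7) (nat_lit 0) (.cons (.br (nat_lit 5) (nat_lit 0) (.cons (.ev (nat_lit 309489750634573111607951361) (nat_lit 1)) .nil)) .nil)) .nil))) .nil))),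
 (.br (nat_lit 2) (nat_lit 0) (.cons (.rf (nat_lit 4488) (nat_lit 493858305440582043680)) (.cons (.rf (nat_lit 4489) (nat_lit 493858305440582043680)) (.cons (.br (nat_lit 2) (nat_lit 0) (.cons (.rf (nat_lit 4488) (nat_lit 493858305440582043680)) (.cons (.rf (nat_lit 4489) (nat_lit 493858305440582043680)) .nil))) .nil)))),
 (.br (nat_lit 2) (nat_lit 0) (.cons (.br (nat_lit 10) (nat_lit 1) (.cons (.br (nat_lit 8) (nat_lit 1) (.cons (.ev (nat_lit 1213666632841576824439041) (nat_lit 1)) .nil)) (.cons (.br (nat_lit 5) (nat_lit 0) (.cons (.ev (nat_lit 1213666632841576824439041) (nat_lit 1)) .nil)) .nil))) (.cons (.ev (nat_lit 309489732188109413363548161) (nat_lit 1)) .nil))),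
 (.br (nat_lit 7) (nat_lit 0) (.cons (.rf (nat_lit 4490) (nat_lit 493858305440582043680)) (.cons (.br (nat_lit 11) (nat_lit 1) (.cons (.br (nat_lit 8) (nat_lit 1) (.cons (.br (nat_lit 10) (nat_lit 1) (.cons (.ev (nat_lit 18447026648197890049) (nat_lit 1)) (.cons (.rf (nat_lit 3784) (nat_lit 457864203446677406784)) .nil))) (.cons (.ev (nat_lit 309489750634573111607951361) (nat_lit 1)) (.cons (.br (nat_lit 5) (nat_lit 0) (.cons (.ev (nat_lit 309489750634854586567884801) (nat_lit 1)) (.cons (.br (nat_lit 2) (nat_lit 0) (.cons (.ev (nat_lit 79231789328617517364837090050) (nat_lit 2)) .nil)) .nil))) .nil)))) (.cons (.br (nat_lit 8) (nat_lit 1) (.cons (.br (nat_lit 2) (nat_lit 0) (.cons (.ev (nat_lit 79228167236631101938182717441) (nat_lit 1)) (.cons (.br (nat_lit 4) (nat_lit 1) (.cons (.zr (nat_lit 237684487579686504226586034176) (nat_lit 314325435466567934357274625) (nat_lit 5) (nat_lit 0)) .nil)) .nil))) (.cons (.ev (nat_lit 20282719088661563827709525623041) (nat_lit 1)) .nil))) (.cons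 (.br (nat_lit 10) (nat_lit 1) (.cons (.rf (nat_lit 4232) (nat_lit 457857653653768569920)) (.cons (.ev (nat_lit 20282409608374109246985439543553) (nat_lit 1)) .nil))) .nil)))) (.cons (.br (nat_lit 10) (nat_lit 1) (.cons (.rf (nat_lit 4491) (nat_lit 493858305440582043680)) (.cons (.br (nat_lit 10) (nat_lit 1) (.cons (.rf (nat_lit 4491) (nat_lit 493858305440582043680)) (.cons (.ev (nat_lit 20282409608374109246985439543553) (nat_lit 1)) .nil))) (.cons (.br (nat_lit 10) (nat_lit 1) (.cons (.rf (nat_lit 4491) (nat_lit 493858305440582043680)) (.cons (.ev (nat_lit 20282409608374109246985439543553) (nat_lit 1)) .nil))) .nil)))) .nil)))),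
 (.br (nat_lit 2) (nat_lit 0) (.cons (.ev (nat_lit 79228167236631101938182717441) (nat_lit 1)) (.cons (.br (nat_lit 13) (nat_lit 0) (.cons (.rf (nat_lit 4232) (nat_lit 457822648505293145152)) .nil)) .nil))),
 (.br (nat_lit 7) (nat_lit 0) (.cons (.rf (nat_lit 4490) (nat_lit 493858305440582043680)) (.cons (.rf (nat_lit 4492) (nat_lit 493858305440582043680)) (.cons (.br (nat_lit 2) (nat_lit 0) (.cons (.rf (nat_lit 4493) (nat_lit 493858305440582043680)) (.cons (.br (nat_lit 2) (nat_lit 0) (.cons (.ev (nat_lit 79228167236631101938182717441) (nat_lit 1)) (.cons (.ev (nat_lit 309489732188109413363548161) (nat_lit 1)) .nil))) (.cons (.br (nat_lit 2) (nat_lit 0) (.cons (.rf (nat_lit 4493) (nat_lit 493858305440582043680)) (.cons (.ev (nat_lit 309489732188109413363548161) (nat_lit 1)) .nil))) .nil)))) .nil)))),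
 (.br (nat_lit 6) (nat_lit 1) (.cons (.rf (nat_lit 3419) (nat_lit 493787200025760303136)) (.cons (.br (nat_lit 10) (nat_lit 1) (.cons (.rf (nat_lit 4477) (nat_lit 493858305440582043680)) (.cons (.rf (nat_lit 4480) (nat_lit 493858305440582043680)) (.cons (.br (nat_lit 10) (nat_lit 1) (.cons (.rf (nat_lit 4477) (nat_lit 493858305440582043680)) (.cons (.rf (nat_lit 4480) (nat_lit 493858305440582043680)) .nil))) .nil)))) (.cons (.br (nat_lit 2) (nat_lit 0) (.cons (.rf (nat_lit 4482) (nat_lit 493858305440582043680)) (.cons (.rf (nat_lit 4485) (nat_lit 493858305440582043680)) (.cons (.rf (nat_lit 4487) (nat_lit 493858305440582043680)) (.cons (.br (nat_lit 2) (nat_lit 0) (.cons (.rf (nat_lit 4482) (nat_lit 493858305440582043680)) (.cons (.rf (nat_lit 4485) (nat_lit 493858305440582043680)) (.cons (.rf (nat_lit 4487) (nat_lit 493858305440582043680)) .nil)))) .nil))))) (.cons (.br (nat_lit 7) (nat_lit 0) (.cons (.rf (nat_lit 4490) (nat_lit 493858305440582043680)) (.cons (.rf (nat_lit 4492) (nat_lit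 493858305440582043680)) (.cons (.rf (nat_lit 4494) (nat_lit 493858305440582043680)) (.cons (.br (nat_lit 7) (nat_lit 0) (.cons (.rf (nat_lit 4490) (nat_lit 493858305440582043680)) (.cons (.rf (nat_lit 4492) (nat_lit 493858305440582043680)) (.cons (.rf (nat_lit 4494) (nat_lit 493858305440582043680)) .nil)))) .nil))))) .nil))))),
 (.br (nat_lit 7) (nat_lit 0) (.cons (.br (nat_lit 11) (nat_lit 1) (.cons (.br (nat_lit 10) (nat_lit 1) (.cons (.ev (nat_lit 1213648186378978091663361) (nat_lit 1)) (.cons (.ev (nat_lit 20361948460101647779936556024065) (nat_lit 1)) .nil))) (.cons (.br (nat_lit 10) (nat_lit 1) (.cons (.br (nat_lit 13) (nat_lit 0) (.cons (.ev (nat_lit 79231789328617517364837090050) (nat_lit 2)) .nil)) (.cons (.br (nat_lit 8) (nat_lit 1) (.cons (.ev (nat_lit 20678555270852702611726942799620) (nat_lit 3)) .nil)) .nil))) (.cons (.ev (nat_lit 20282719088661564108085007482881) (nat_lit 1)) .nil)))) (.cons (.br (nat_lit 1) (nat_lit 0) (.cons (.ev (nat_lit 79537647542532426735995060481)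 (nat_lit 1)) (.cons (.br (nat_lit 10) (nat_lit 1) (.cons (.rf (nat_lit 3419) (nat_lit 493563215216757770272)) (.cons (.ev (nat_lit 20361948460101647779936556024065) (nat_lit 1)) .nil))) .nil))) .nil))),
 (.br (nat_lit 7) (nat_lit 0) (.cons (.rf (nat_lit 4496) (nat_lit 493858305440582043680)) (.cons (.br (nat_lit 2) (nat_lit 0) (.cons (.br (nat_lit 8) (nat_lit 1) (.cons (.rf (nat_lit 3419) (nat_lit 493604770158142031904)) (.cons (.ev (nat_lit 20282409608392555991059132383233) (nat_lit 1)) .nil))) (.cons (.ev (nat_lit 1213648186378978091663361) (nat_lit 1)) .nil))) .nil))),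
 (.br (nat_lit 7) (nat_lit 0) (.cons (.rf (nat_lit 4496) (nat_lit 493858305440582043680)) (.cons (.rf (nat_lit 4497) (nat_lit 493858305440582043680)) (.cons (.br (nat_lit 7) (nat_lit 0) (.cons (.rf (nat_lit 4496) (nat_lit 493858305440582043680)) (.cons (.rf (nat_lit 4497) (nat_lit 493858305440582043680)) .nil))) .nil)))),
 (.br (nat_lit 10) (nat_lit 1) (.cons (.rf (nat_lit 3419) (nat_lit 493563215216757770272)) (.cons (.rf (nat_lit 3784) (nat_lit 457822648505293146144)) .nil))),
 (.br (nat_lit 13) (nat_lit 0) (.cons (.rf (nat_lit 4498) (nat_lit 493858305440582043680)) (.cons (.br (nat_lit 10) (nat_lit 1) (.cons (.br (nat_lit 8) (nat_lit 1) (.cons (.ev (nat_lit 79228167255077846011875426561) (nat_lit 1)) (.cons (.br (nat_lit 4) (nat_lit 1) (.cons (.ev (nat_lit 1213666632842676336066561) (nat_lit 1)) (.cons (.ev (nat_lit 79231789328617517364837090050) (nat_lit 2)) .nil))) .nil))) (.cons (.br (nat_lit 4) (nat_lit 1) (.cons (.br (nat_lit 8) (nat_lit 1) (.cons (.ev (nat_lit 1213666632842676336066561)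 (nat_lit 1)) .nil)) (.cons (.ev (nat_lit 1213648186378978091663361) (nat_lit 1)) .nil))) (.cons (.br (nat_lit 11) (nat_lit 1) (.cons (.br (nat_lit 4) (nat_lit 1) (.cons (.br (nat_lit 8) (nat_lit 1) (.cons (.ev (nat_lit 20678550416333744635059401851652) (nat_lit 3)) .nil)) (.cons (.ev (nat_lit 20282720302309749925212657287425) (nat_lit 1)) .nil))) (.cons (.br (nat_lit 8) (nat_lit 1) (.cons (.br (nat_lit 7) (nat_lit 0) (.cons (.ev (nat_lit 20361642601906179329874186143492) (nat_lit 3)) .nil)) (.cons (.ev (nat_lit 20361947255916641673721401114625) (nat_lit 1)) .nil))) (.cons (.ev (nat_lit 20282409608374109245885927915521) (nat_lit 1)) .nil)))) .nil)))) (.cons (.br (nat_lit 1) (nat_lit 0) (.cons (.br (nat_lit 8) (nat_lit 1) (.cons (.ev (nat_lit 79228167236631103037694345473) (nat_lit 1)) (.cons (.br (nat_lit 7) (nat_lit 0) (.cons (.br (nat_lit 2) (nat_lit 0) (.cons (.ev (nat_lit 79229371458530697400234803201) (nat_lit 1)) .nil)) .nil)) .nil))) (.cons (.ev (nat_lit 79537647542532426735995060481)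 (nat_lit 1)) (.cons (.rf (nat_lit 4499) (nat_lit 493858305440582043680)) .nil)))) .nil))))]

theorem c168 : chkAll C T R L168 (nat_lit 4474) = true := by decide +kernel

theorem l168 : (nat_lit 4474) + L168.length = (nat_lit 4501) := by decide +kernel

/-- part of the certificates -/
def L169 : List Prf := [(.br (nat_lit 2) (nat_lit 0) (.cons (.br (nat_lit 1) (nat_lit 0) (.cons (.rf (nat_lit 3419) (nat_lit 493604770158142031904)) (.cons (.ev (nat_lit 310693935640959702211297281) (nat_lit 1)) .nil))) (.cons (.ev (nat_lit 1213648186378978091663361) (nat_lit 1)) .nil))),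
 (.br (nat_lit 13) (nat_lit 0) (.cons (.rf (nat_lit 4498) (nat_lit 493858305440582043680)) (.cons (.rf (nat_lit 4500) (nat_lit 493858305440582043680)) (.cons (.br (nat_lit 7) (nat_lit 0) (.cons (.rf (nat_lit 4501) (nat_lit 493858305440582043680)) (.cons (.br (nat_lit 8) (nat_lit 1) (.cons (.ev (nat_lit 309489750634572012096323841) (nat_lit 1)) (.cons (.rf (nat_lit 4495) (nat_lit 458038990606830928960)) .nil))) (.cons (.br (nat_lit 7) (nat_lit 0) (.cons (.rf (nat_lit 4501) (nat_lit 493858305440582043680)) (.cons (.ev (nat_lit 20282409608374109245885927915521) (nat_lit 1)) .nil))) .nil)))) .nil)))),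
 (.br (nat_lit 7) (nat_lit 0) (.cons (.br (nat_lit 8) (nat_lit 1) (.cons (.ev (nat_lit 79228167255077847111387054081) (nat_lit 1)) (.cons (.rf (nat_lit 3679) (nat_lit 493748989800894007328)) .nil))) (.cons (.rf (nat_lit 3502) (nat_lit 15427442507875715104)) .nil))),
 (.br (nat_lit 13) (nat_lit 0) (.cons (.rf (nat_lit 4232) (nat_lit 458116643612319220800)) (.cons (.br (nat_lit 5) (nat_lit 0) (.cons (.br (nat_lit 10) (nat_lit 1) (.cons (.br (nat_lit 7) (nat_lit 0) (.cons (.br (nat_lit 11) (nat_lit 1) (.cons (.ev (nat_lit 309489750634573111607951361) (nat_lit 1)) .nil)) (.cons (.ev (nat_lit 20361638979814193198112924762113) (nat_lit 1)) .nil))) (.cons (.rf (nat_lit 3497) (nat_lit 493678127375995471904)) (.cons (.br (nat_lit 11) (nat_lit 1) (.cons (.ev (nat_lit 20361948460101647779936556024065) (nat_lit 1)) (.cons (.br (nat_lit 8) (nat_lit 1) (.cons (.ev (nat_lit 20678555270852702611726942799620) (nat_lit 3)) .nil)) .nil))) .nil)))) (.cons (.rf (nat_lit 4503) (nat_lit 493858305440582043680))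 (.cons (.br (nat_lit 7) (nat_lit 0) (.cons (.br (nat_lit 8) (nat_lit 1) (.cons (.br (nat_lit 10) (nat_lit 1) (.cons (.ev (nat_lit 20678552862482689838545736107780) (nat_lit 3)) .nil)) (.cons (.br (nat_lit 1) (nat_lit 0) (.cons (.zr (nat_lit 237684487579686504235175968768) (nat_lit 310712825108017076403961857) (nat_lit 5) (nat_lit 0)) .nil)) .nil))) (.cons (.br (nat_lit 1) (nat_lit 0) (.cons (.br (nat_lit 2) (nat_lit 0) (.cons (.ev (nat_lit 1208944266359802395951361) (nat_lit 1)) .nil)) .nil)) .nil))) .nil)))) (.cons (.br (nat_lit 5) (nat_lit 0) (.cons (.br (nat_lit 8) (nat_lit 1) (.cons (.rf (nat_lit 651) (nat_lit 493858305371929675808)) (.cons (.ev (nat_lit 79537647542532427835506688001) (nat_lit 1)) (.cons (.rf (nat_lit 4146) (nat_lit 15433001640805894176)) .nil)))) (.cons (.br (nat_lit 10) (nat_lit 1) (.cons (.rf (nat_lit 651) (nat_lit 493856055771139246112)) (.cons (.ev (nat_lit 1213648186378978091663361) (nat_lit 1)) (.cons (.rf (nat_lit 4146) (nat_lit 15433072009550071840)) .nil))))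 .nil))) .nil)))),
 (.br (nat_lit 13) (nat_lit 0) (.cons (.rf (nat_lit 4232) (nat_lit 458116643612319220800)) (.cons (.rf (nat_lit 4372) (nat_lit 458116643612319220800)) (.cons (.br (nat_lit 1) (nat_lit 0) (.cons (.br (nat_lit 7) (nat_lit 0) (.cons (.br (nat_lit 2) (nat_lit 0) (.cons (.br (nat_lit 10) (nat_lit 1) (.cons (.ev (nat_lit 20679788384670335987346116641540) (nat_lit 3)) .nil)) .nil)) (.cons (.rf (nat_lit 3497) (nat_lit 457822791438584448064)) .nil))) (.cons (.ev (nat_lit 79537647542532426735995060481) (nat_lit 1)) (.cons (.br (nat_lit 7) (nat_lit 0) (.cons (.rf (nat_lit 3679) (nat_lit 457830665041350952000)) (.cons (.br (nat_lit 2) (nat_lit 0) (.cons (.br (nat_lit 10) (nat_lit 1) (.cons (.ev (nat_lit 20678550425741584675592636662532) (nat_lit 3)) .nil)) (.cons (.rf (nat_lit 3419) (nat_lit 493563215216757770272)) .nil))) (.cons (.rf (nat_lit 3784) (nat_lit 457822648505293146144)) .nil)))) .nil)))) .nil)))),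
 (.br (nat_lit 1) (nat_lit 0) (.cons (.br (nat_lit 7) (nat_lit 0) (.cons (.kr (nat_lit 20282409613096475447280579641600) (nat_lit 79847132533907028830505205760) (nat_lit 1) (nat_lit 0)) .nil)) (.cons (.br (nat_lit 8) (nat_lit 1) (.cons (.kr (nat_lit 20282409613096475447280579641600) (nat_lit 79847132533907028830505205760) (nat_lit 1) (nat_lit 0)) .nil)) .nil))),
 (.br (nat_lit 13) (nat_lit 0) (.cons (.rf (nat_lit 4504) (nat_lit 493858305440582043680)) (.cons (.rf (nat_lit 4372) (nat_lit 458116643612319220800)) (.cons (.br (nat_lit 5) (nat_lit 0) (.cons (.br (nat_lit 2) (nat_lit 0) (.cons (.br (nat_lit 8) (nat_lit 1) (.cons (.rf (nat_lit 3419) (nat_lit 493604770158142031904)) (.cons (.rf (nat_lit 4495) (nat_lit 458038990606830928960)) .nil))) (.cons (.ev (nat_lit 1213648186378978091663361) (nat_lit 1)) .nil))) (.cons (.br (nat_lit 2) (nat_lit 0) (.cons (.rf (nat_lit 4506) (nat_lit 493858305440582043680)) (.cons (.ev (nat_lit 79537647542532427835506688001) (nat_lit 1)) (.cons (.rf (nat_lit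 3497) (nat_lit 493678129567507777568)) .nil)))) (.cons (.rf (nat_lit 4503) (nat_lit 493606103861456635936)) .nil)))) .nil)))),
 (.br (nat_lit 8) (nat_lit 1) (.cons (.rf (nat_lit 3715) (nat_lit 493748989800894007328)) (.cons (.rf (nat_lit 4161) (nat_lit 15433001640805894176)) .nil))),
 (.br (nat_lit 7) (nat_lit 0) (.cons (.br (nat_lit 1) (nat_lit 0) (.cons (.br (nat_lit 13) (nat_lit 0) (.cons (.rf (nat_lit 3784) (nat_lit 457864203446677407776)) (.cons (.ev (nat_lit 309489750634572012096323841) (nat_lit 1)) .nil))) (.cons (.br (nat_lit 10) (nat_lit 1) (.cons (.rf (nat_lit 3419) (nat_lit 493563215216757770272)) (.cons (.br (nat_lit 8) (nat_lit 1) (.cons (.rf (nat_lit 3421) (nat_lit 493819922592389236768)) (.cons (.br (nat_lit 11) (nat_lit 1) (.cons (.ev (nat_lit 158457533991242060546760048642) (nat_lit 2)) .nil)) .nil))) (.cons (.br (nat_lit 2) (nat_lit 0) (.cons (.rf (nat_lit 3784) (nat_lit 457864203446677406784)) (.cons (.br (nat_lit 8) (nat_lit 1) (.cons (.ev (nat_lit 309489750634573111607951361)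 (nat_lit 1)) .nil)) .nil))) .nil)))) (.cons (.br (nat_lit 5) (nat_lit 0) (.cons (.rf (nat_lit 3689) (nat_lit 15427476592734079008)) (.cons (.br (nat_lit 10) (nat_lit 1) (.cons (.ev (nat_lit 1213648186378978091663361) (nat_lit 1)) (.cons (.rf (nat_lit 3716) (nat_lit 493677070745321179168)) .nil))) .nil))) .nil)))) (.cons (.br (nat_lit 13) (nat_lit 0) (.cons (.br (nat_lit 1) (nat_lit 0) (.cons (.br (nat_lit 10) (nat_lit 1) (.cons (.rf (nat_lit 4232) (nat_lit 457822648505293145152)) (.cons (.ev (nat_lit 79228167255077847111387054081) (nat_lit 1)) .nil))) (.cons (.rf (nat_lit 4232) (nat_lit 457822648505293146144)) (.cons (.rf (nat_lit 3716) (nat_lit 493677002575600257056)) .nil)))) (.cons (.br (nat_lit 5) (nat_lit 0) (.cons (.br (nat_lit 1) (nat_lit 0) (.cons (.br (nat_lit 11) (nat_lit 1) (.cons (.ev (nat_lit 20679788356299243606404676126468) (nat_lit 3)) .nil)) (.cons (.ev (nat_lit 20282720302309749925212657287425) (nat_lit 1)) .nil))) (.cons (.br (nat_lit 2) (nat_lit 0) (.cons (.br (nat_lit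 8) (nat_lit 1) (.cons (.ev (nat_lit 1208944266359802395951361) (nat_lit 1)) .nil)) .nil)) .nil))) (.cons (.br (nat_lit 10) (nat_lit 1) (.cons (.ev (nat_lit 20282410812577562377649735598081) (nat_lit 1)) (.cons (.rf (nat_lit 4232) (nat_lit 457857653653768569920)) (.cons (.rf (nat_lit 3691) (nat_lit 15427478791757334560)) .nil)))) .nil)))) (.cons (.br (nat_lit 13) (nat_lit 0) (.cons (.br (nat_lit 1) (nat_lit 0) (.cons (.ev (nat_lit 309489750634572012096323841) (nat_lit 1)) (.cons (.rf (nat_lit 4508) (nat_lit 493858305440582043680)) .nil))) (.cons (.br (nat_lit 1) (nat_lit 0) (.cons (.rf (nat_lit 4508) (nat_lit 493856055839791613984)) (.cons (.ev (nat_lit 20361638979814193198112924762113) (nat_lit 1)) .nil))) .nil))) .nil)))),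
 (.br (nat_lit 7) (nat_lit 0) (.cons (.rf (nat_lit 4509) (nat_lit 493858305440582043680)) (.cons (.br (nat_lit 10) (nat_lit 1) (.cons (.br (nat_lit 13) (nat_lit 0) (.cons (.br (nat_lit 8) (nat_lit 1) (.cons (.br (nat_lit 5) (nat_lit 0) (.cons (.zr (nat_lit 36893491454544117760) (nat_lit 310698658008568467468320769) (nat_lit 5) (nat_lit 0)) .nil)) (.cons (.rf (nat_lit 3295) (nat_lit 493598220193434502368)) .nil))) (.cons (.rf (nat_lit 4232) (nat_lit 457822648505293146144)) (.cons (.rf (nat_lit 4232) (nat_lit 457857653653768570912)) .nil)))) (.cons (.br (nat_lit 5) (nat_lit 0) (.cons (.ev (nat_lit 1213648186378978091663361) (nat_lit 1)) (.cons (.rf (nat_lit 3543) (nat_lit 493678129572871243808)) (.cons (.br (nat_lit 8) (nat_lit 1) (.cons (.br (nat_lit 13) (nat_lit 0) (.cons (.ev (nat_lit 20678552862482689838545736107780) (nat_lit 3)) .nil)) (.cons (.rf (nat_lit 4232) (nat_lit 457822648505293145152)) .nil))) .nil)))) (.cons (.br (nat_lit 8) (nat_lit 1) (.cons (.ev (nat_lit 18447026648197890049)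 (nat_lit 1)) (.cons (.rf (nat_lit 3543) (nat_lit 493675948141801736224)) (.cons (.br (nat_lit 2) (nat_lit 0) (.cons (.br (nat_lit 1) (nat_lit 0) (.cons (.ev (nat_lit 20678550416333744635059401851652) (nat_lit 3)) .nil)) (.cons (.ev (nat_lit 79229376180897179166073487361) (nat_lit 1)) .nil))) .nil)))) (.cons (.br (nat_lit 8) (nat_lit 1) (.cons (.rf (nat_lit 3784) (nat_lit 457864203446677407776)) (.cons (.rf (nat_lit 3784) (nat_lit 457864203446677406784)) (.cons (.ev (nat_lit 20282410817318375604588812173313) (nat_lit 1)) .nil)))) .nil))))) (.cons (.br (nat_lit 1) (nat_lit 0) (.cons (.br (nat_lit 8) (nat_lit 1) (.cons (.rf (nat_lit 4396) (nat_lit 15432996213075576864)) (.cons (.rf (nat_lit 3689) (nat_lit 15427230309645649952)) (.cons (.br (nat_lit 5) (nat_lit 0) (.cons (.br (nat_lit 2) (nat_lit 0) (.cons (.ev (nat_lit 20838249516994157251952419996420) (nat_lit 3)) .nil)) .nil)) .nil)))) (.cons (.ev (nat_lit 79537647542532426735995060481) (nat_lit 1)) (.cons (.br (nat_lit 2) (nat_lit 0)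 (.cons (.br (nat_lit 5) (nat_lit 0) (.cons (.rf (nat_lit 4032) (nat_lit 493823368458609461280)) (.cons (.br (nat_lit 8) (nat_lit 1) (.cons (.ev (nat_lit 20837006741325380385040434135812) (nat_lit 3)) .nil)) .nil))) (.cons (.br (nat_lit 13) (nat_lit 0) (.cons (.rf (nat_lit 3493) (nat_lit 457830667241442772032)) (.cons (.rf (nat_lit 3784) (nat_lit 457864203446677406784)) .nil))) (.cons (.rf (nat_lit 3419) (nat_lit 493563215216757770272)) .nil)))) .nil)))) .nil)))),
 (.br (nat_lit 8) (nat_lit 1) (.cons (.rf (nat_lit 3493) (nat_lit 457830596872698659904)) (.cons (.rf (nat_lit 3497) (nat_lit 493817738964443957280)) .nil))),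
 (.br (nat_lit 7) (nat_lit 0) (.cons (.rf (nat_lit 4509) (nat_lit 493858305440582043680)) (.cons (.rf (nat_lit 4510) (nat_lit 493858305440582043680)) (.cons (.br (nat_lit 13) (nat_lit 0) (.cons (.br (nat_lit 10) (nat_lit 1) (.cons (.ev (nat_lit 20361638979814193198112924762113) (nat_lit 1)) (.cons (.rf (nat_lit 4511) (nat_lit 493858305440582043680)) (.cons (.rf (nat_lit 3691) (nat_lit 15427408430524106784)) .nil)))) (.cons (.br (nat_lit 1) (nat_lit 0) (.cons (.rf (nat_lit 3716) (nat_lit 493677002568091404320)) (.cons (.ev (nat_lit 309489750634572012096323841) (nat_lit 1)) (.cons (.rf (nat_lit 4232) (nat_lit 457822648505293146144)) .nil)))) (.cons (.br (nat_lit 1) (nat_lit 0) (.cons (.ev (nat_lit 20282720302309750205588105592833) (nat_lit 1)) (.cons (.br (nat_lit 8) (nat_lit 1) (.cons (.rf (nat_lit 3419) (nat_lit 493604770158142031904)) (.cons (.rf (nat_lit 4006) (nat_lit 493823368458609461280)) .nil))) .nil))) .nil)))) .nil)))),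
 (.br (nat_lit 6) (nat_lit 1) (.cons (.rf (nat_lit 3419) (nat_lit 493787200025760303136)) (.cons (.br (nat_lit 13) (nat_lit 0) (.cons (.rf (nat_lit 4498) (nat_lit 493858305440582043680)) (.cons (.rf (nat_lit 4500) (nat_lit 493858305440582043680)) (.cons (.rf (nat_lit 4502) (nat_lit 493858305440582043680)) (.cons (.br (nat_lit 13) (nat_lit 0) (.cons (.rf (nat_lit 4498) (nat_lit 493858305440582043680)) (.cons (.rf (nat_lit 4500) (nat_lit 493858305440582043680)) (.cons (.rf (nat_lit 4502) (nat_lit 493858305440582043680)) .nil)))) .nil))))) (.cons (.br (nat_lit 13) (nat_lit 0) (.cons (.rf (nat_lit 4504) (nat_lit 493858305440582043680)) (.cons (.rf (nat_lit 4505) (nat_lit 493858305440582043680)) (.cons (.rf (nat_lit 4507) (nat_lit 493858305440582043680)) (.cons (.br (nat_lit 13) (nat_lit 0) (.cons (.rf (nat_lit 4504) (nat_lit 493858305440582043680)) (.cons (.rf (nat_lit 4505) (nat_lit 493858305440582043680)) (.cons (.rf (nat_lit 4507) (nat_lit 493858305440582043680)) .nil)))) .nil))))) (.cons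 (.br (nat_lit 7) (nat_lit 0) (.cons (.rf (nat_lit 4509) (nat_lit 493858305440582043680)) (.cons (.rf (nat_lit 4510) (nat_lit 493858305440582043680)) (.cons (.rf (nat_lit 4512) (nat_lit 493858305440582043680)) (.cons (.br (nat_lit 7) (nat_lit 0) (.cons (.rf (nat_lit 4509) (nat_lit 493858305440582043680)) (.cons (.rf (nat_lit 4510) (nat_lit 493858305440582043680)) (.cons (.rf (nat_lit 4512) (nat_lit 493858305440582043680)) .nil)))) .nil))))) .nil))))),
 (.br (nat_lit 10) (nat_lit 1) (.cons (.rf (nat_lit 4232) (nat_lit 457822648505293146144)) (.cons (.rf (nat_lit 4232) (nat_lit 457822648505293145152)) .nil))),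
 (.br (nat_lit 8) (nat_lit 1) (.cons (.rf (nat_lit 3419) (nat_lit 493604770158142031904)) (.cons (.br (nat_lit 13) (nat_lit 0) (.cons (.br (nat_lit 1) (nat_lit 0) (.cons (.ev (nat_lit 1213666632842676336066561) (nat_lit 1)) (.cons (.rf (nat_lit 4046) (nat_lit 493821111161244977184)) .nil))) (.cons (.rf (nat_lit 4146) (nat_lit 15432931274209200160)) .nil))) (.cons (.br (nat_lit 7) (nat_lit 0) (.cons (.rf (nat_lit 4514) (nat_lit 493858305440582043680)) (.cons (.rf (nat_lit 3691) (nat_lit 15429655832291280928)) .nil))) .nil)))),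
 (.br (nat_lit 2) (nat_lit 0) (.cons (.rf (nat_lit 4515) (nat_lit 493858305440582043680)) (.cons (.br (nat_lit 1) (nat_lit 0) (.cons (.br (nat_lit 13) (nat_lit 0) (.cons (.br (nat_lit 7) (nat_lit 0) (.cons (.ev (nat_lit 1213666632842676336066561) (nat_lit 1)) .nil)) (.cons (.br (nat_lit 7) (nat_lit 0) (.cons (.ev (nat_lit 1213666632842676336066561) (nat_lit 1)) .nil)) .nil))) (.cons (.kr (nat_lit 4722366764344621989888) (nat_lit 79229371440083953322230284288) (nat_lit 2) (nat_lit 0)) .nil))) .nil))),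
 (.br (nat_lit 2) (nat_lit 0) (.cons (.rf (nat_lit 4515) (nat_lit 493858305440582043680)) (.cons (.rf (nat_lit 4516) (nat_lit 493858305440582043680)) (.cons (.br (nat_lit 2) (nat_lit 0) (.cons (.rf (nat_lit 4515) (nat_lit 493858305440582043680)) (.cons (.rf (nat_lit 4516) (nat_lit 493858305440582043680)) .nil))) .nil)))),
 (.br (nat_lit 10) (nat_lit 1) (.cons (.br (nat_lit 4) (nat_lit 1) (.cons (.ev (nat_lit 1213666632842676336066561) (nat_lit 1)) .nil)) (.cons (.br (nat_lit 2) (nat_lit 0) (.cons (.ev (nat_lit 1213666632842676336066561) (nat_lit 1)) .nil)) .nil))),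
 (.br (nat_lit 10) (nat_lit 1) (.cons (.rf (nat_lit 4499) (nat_lit 493858305440582043680)) (.cons (.rf (nat_lit 4499) (nat_lit 493858305440582042688)) (.cons (.br (nat_lit 10) (nat_lit 1) (.cons (.rf (nat_lit 3784) (nat_lit 457822648505293146144)) (.cons (.rf (nat_lit 3784) (nat_lit 457822648505293145152)) .nil))) .nil)))),
 (.br (nat_lit 13) (nat_lit 0) (.cons (.rf (nat_lit 4517) (nat_lit 493858305440582043680)) (.cons (.br (nat_lit 8) (nat_lit 1) (.cons (.br (nat_lit 11) (nat_lit 1) (.cons (.rf (nat_lit 4518) (nat_lit 493858305440582043680)) (.cons (.ev (nat_lit 309489750634572012096323841) (nat_lit 1)) .nil))) (.cons (.br (nat_lit 7) (nat_lit 0) (.cons (.br (nat_lit 1) (nat_lit 0) (.cons (.ev (nat_lit 1213666632842676336066561) (nat_lit 1)) (.cons (.rf (nat_lit 3689) (nat_lit 15429726193524508704)) .nil))) (.cons (.ev (nat_lit 20282410817318375604588812173313) (nat_lit 1)) (.cons (.rf (nat_lit 3884) (nat_lit 493817839016786102304)) .nil)))) (.cons (.br (nat_lit 10) (nat_lit 1) (.cons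 (.ev (nat_lit 79228167255077846011875426561) (nat_lit 1)) (.cons (.br (nat_lit 1) (nat_lit 0) (.cons (.ev (nat_lit 1213666632842676336066561) (nat_lit 1)) (.cons (.ev (nat_lit 20361948464842461005776087416833) (nat_lit 1)) .nil))) .nil))) .nil)))) (.cons (.rf (nat_lit 4519) (nat_lit 493858305440582043680)) .nil)))),
 (.br (nat_lit 1) (nat_lit 0) (.cons (.br (nat_lit 8) (nat_lit 1) (.cons (.rf (nat_lit 3419) (nat_lit 493604770158142031904)) (.cons (.ev (nat_lit 309489750634572012096323841) (nat_lit 1)) .nil))) (.cons (.kr (nat_lit 9444733247214267138304) (nat_lit 79229371440083953326525251584) (nat_lit 1) (nat_lit 0)) .nil)))]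

theorem c169 : chkAll C T R L169 (nat_lit 4501) = true := by decide +kernel

theorem l169 : (nat_lit 4501) + L169.length = (nat_lit 4522) := by decide +kernel

/-- part of the certificates -/
def L170 : List Prf := [(.br (nat_lit 2) (nat_lit 0) (.cons (.rf (nat_lit 4521) (nat_lit 493858305440582043680)) (.cons (.br (nat_lit 7) (nat_lit 0) (.cons (.rf (nat_lit 3691) (nat_lit 15431977993338193952)) (.cons (.zr (nat_lit 20520094091194535497620456079360) (nat_lit 618979482822962900419739649) (nat_lit 5) (nat_lit 0)) .nil))) .nil))),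
 (.br (nat_lit 13) (nat_lit 0) (.cons (.rf (nat_lit 4517) (nat_lit 493858305440582043680)) (.cons (.rf (nat_lit 4520) (nat_lit 493858305440582043680)) (.cons (.br (nat_lit 2) (nat_lit 0) (.cons (.rf (nat_lit 4521) (nat_lit 493858305440582043680)) (.cons (.rf (nat_lit 4522) (nat_lit 493858305440582043680)) (.cons (.br (nat_lit 2) (nat_lit 0) (.cons (.rf (nat_lit 4521) (nat_lit 493858305440582043680)) (.cons (.rf (nat_lit 4522) (nat_lit 493858305440582043680)) .nil))) .nil)))) .nil)))),
 (.br (nat_lit 8) (nat_lit 1) (.cons (.ev (nat_lit 79229371458530697400234803201) (nat_lit 1)) .nil)),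
 (.br (nat_lit 10) (nat_lit 1) (.cons (.rf (nat_lit 3419) (nat_lit 493563215216757770272)) (.cons (.br (nat_lit 13) (nat_lit 0) (.cons (.br (nat_lit 2) (nat_lit 0) (.cons (.rf (nat_lit 4524) (nat_lit 493858305440582043680)) (.cons (.br (nat_lit 2) (nat_lit 0) (.cons (.rf (nat_lit 4524) (nat_lit 493858305440582043680)) .nil)) .nil))) (.cons (.rf (nat_lit 4232) (nat_lit 457822648505293146144)) (.cons (.rf (nat_lit 4232) (nat_lit 457857653653768570912)) .nil)))) (.cons (.br (nat_lit 4) (nat_lit 1) (.cons (.kr (nat_lit 4722366764344621924608) (nat_lit 1208925819615732981301248) (nat_lit 1) (nat_lit 0)) (.cons (.br (nat_lit 8) (nat_lit 1) (.cons (.br (nat_lit 8) (nat_lit 1) (.cons (.ev (nat_lit 79229371458530697400234803201) (nat_lit 1)) .nil)) (.cons (.br (nat_lit 8) (nat_lit 1) (.cons (.ev (nat_lit 79229371458530697400234803201) (nat_lit 1)) .nil)) .nil))) .nil))) .nil)))),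
 (.br (nat_lit 8) (nat_lit 1) (.cons (.rf (nat_lit 3784) (nat_lit 457864203446677407776)) (.cons (.rf (nat_lit 3784) (nat_lit 457864203446677406784)) .nil))),
 (.br (nat_lit 10) (nat_lit 1) (.cons (.rf (nat_lit 3419) (nat_lit 493563215216757770272)) (.cons (.br (nat_lit 13) (nat_lit 0) (.cons (.br (nat_lit 2) (nat_lit 0) (.cons (.rf (nat_lit 3679) (nat_lit 493821113365629601824)) (.cons (.br (nat_lit 7) (nat_lit 0) (.cons (.br (nat_lit 8) (nat_lit 1) (.cons (.ev (nat_lit 79229371458530697400234803201) (nat_lit 1)) .nil)) .nil)) .nil))) (.cons (.rf (nat_lit 4232) (nat_lit 457822648505293145152)) (.cons (.rf (nat_lit 4232) (nat_lit 457857653653768569920)) .nil)))) (.cons (.br (nat_lit 7) (nat_lit 0) (.cons (.br (nat_lit 7) (nat_lit 0) (.cons (.rf (nat_lit 4526) (nat_lit 493858305440582043680)) (.cons (.rf (nat_lit 4161) (nat_lit 15432931276356683808)) .nil))) (.cons (.rf (nat_lit 4526) (nat_lit 493858305440582043680)) (.cons (.br (nat_lit 7) (nat_lit 0) (.cons (.rf (nat_lit 4161) (nat_lit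 15432931276356683808)) (.cons (.rf (nat_lit 4526) (nat_lit 493858305440582043680)) .nil))) .nil)))) .nil)))),
 (.br (nat_lit 8) (nat_lit 1) (.cons (.rf (nat_lit 3419) (nat_lit 493604770158142031904)) (.cons (.rf (nat_lit 3784) (nat_lit 457864203446677407776)) .nil))),
 (.br (nat_lit 8) (nat_lit 1) (.cons (.rf (nat_lit 4528) (nat_lit 493858305440582043680)) (.cons (.rf (nat_lit 4528) (nat_lit 493858305440582042688)) (.cons (.rf (nat_lit 4526) (nat_lit 493858305440582043680)) .nil)))),
 (.br (nat_lit 6) (nat_lit 1) (.cons (.rf (nat_lit 4495) (nat_lit 493858305440582043680)) (.cons (.rf (nat_lit 4513) (nat_lit 493858305440582043680)) (.cons (.br (nat_lit 13) (nat_lit 0) (.cons (.rf (nat_lit 4517) (nat_lit 493858305440582043680)) (.cons (.rf (nat_lit 4520) (nat_lit 493858305440582043680)) (.cons (.rf (nat_lit 4523) (nat_lit 493858305440582043680)) (.cons (.br (nat_lit 13) (nat_lit 0) (.cons (.rf (nat_lit 4517) (nat_lit 493858305440582043680)) (.cons (.rf (nat_lit 4519) (nat_lit 493858305440582043680))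 (.cons (.rf (nat_lit 4523) (nat_lit 493858305440582043680)) .nil)))) .nil))))) (.cons (.br (nat_lit 10) (nat_lit 1) (.cons (.rf (nat_lit 4525) (nat_lit 493858305440582043680)) (.cons (.rf (nat_lit 4527) (nat_lit 493858305440582043680)) (.cons (.br (nat_lit 10) (nat_lit 1) (.cons (.rf (nat_lit 4525) (nat_lit 493858305440582043680)) (.cons (.rf (nat_lit 4527) (nat_lit 493858305440582043680)) (.cons (.rf (nat_lit 4529) (nat_lit 493858305440582043680)) .nil)))) (.cons (.rf (nat_lit 4529) (nat_lit 493858305440582043680)) .nil))))) .nil))))),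
 (.br (nat_lit 5) (nat_lit 0) (.cons (.br (nat_lit 13) (nat_lit 0) (.cons (.br (nat_lit 10) (nat_lit 1) (.cons (.ev (nat_lit 18447025548686262529) (nat_lit 1)) (.cons (.br (nat_lit 1) (nat_lit 0) (.cons (.ev (nat_lit 18447025548686262529) (nat_lit 1)) (.cons (.ev (nat_lit 79228162532711082771076940033) (nat_lit 1)) .nil))) (.cons (.ev (nat_lit 20282409603670189225619310510081) (nat_lit 1)) .nil)))) (.cons (.br (nat_lit 7) (nat_lit 0) (.cons (.ev (nat_lit 20361637770906820046082499674113) (nat_lit 1)) (.cons (.br (nat_lit 8) (nat_lit 1) (.cons (.ev (nat_lit 20440868346531910667466014982402) (nat_lit 2)) (.cons (.br (nat_lit 11) (nat_lit 1) (.cons (.ev (nat_lit 20837009178066485552391580091140) (nat_lit 3)) .nil)) .nil))) (.cons (.br (nat_lit 8) (nat_lit 1) (.cons (.br (nat_lit 10) (nat_lit 1) (.cons (.ev (nat_lit 20838866069199056450571139878664) (nat_lit 4)) .nil)) (.cons (.ev (nat_lit 309489750634573111607951361) (nat_lit 1)) .nil))) .nil)))) (.cons (.br (nat_lit 2) (nat_lit 0) (.cons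 (.ev (nat_lit 79537647542532427835506688001) (nat_lit 1)) (.cons (.br (nat_lit 7) (nat_lit 0) (.cons (.ev (nat_lit 20282409608392555991059132383233) (nat_lit 1)) (.cons (.rf (nat_lit 4232) (nat_lit 457857653653768569920)) .nil))) .nil))) .nil)))) (.cons (.br (nat_lit 1) (nat_lit 0) (.cons (.br (nat_lit 2) (nat_lit 0) (.cons (.ev (nat_lit 18447026648197890049) (nat_lit 1)) (.cons (.rf (nat_lit 4513) (nat_lit 493598220365233194048)) (.cons (.br (nat_lit 8) (nat_lit 1) (.cons (.br (nat_lit 10) (nat_lit 1) (.cons (.ev (nat_lit 20996084454262086161035792944904) (nat_lit 4)) .nil)) (.cons (.br (nat_lit 7) (nat_lit 0) (.cons (.ev (nat_lit 20681647740951995122643571509000) (nat_lit 4)) .nil)) .nil))) .nil)))) (.cons (.br (nat_lit 2) (nat_lit 0) (.cons (.rf (nat_lit 4513) (nat_lit 493598220365233195040)) (.cons (.br (nat_lit 7) (nat_lit 0) (.cons (.br (nat_lit 13) (nat_lit 0) (.cons (.ev (nat_lit 21154540779290614271065347654408) (nat_lit 4)) .nil)) .nil)) .nil))) (.cons (.br (nat_lit 7) (nat_lit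 0) (.cons (.br (nat_lit 8) (nat_lit 1) (.cons (.ev (nat_lit 79847156274867784191758893060) (nat_lit 3)) (.cons (.ev (nat_lit 20282719093402377335032640438273) (nat_lit 1)) .nil))) (.cons (.br (nat_lit 2) (nat_lit 0) (.cons (.br (nat_lit 8) (nat_lit 1) (.cons (.ev (nat_lit 1856919522108907224817664004) (nat_lit 3)) .nil)) .nil)) .nil))) .nil)))) (.cons (.br (nat_lit 2) (nat_lit 0) (.cons (.br (nat_lit 1) (nat_lit 0) (.cons (.ev (nat_lit 79228162514264622379990843906) (nat_lit 2)) (.cons (.br (nat_lit 13) (nat_lit 0) (.cons (.br (nat_lit 10) (nat_lit 1) (.cons (.zr (nat_lit 620178945462867720872853504) (nat_lit 158456329769341902130459443713) (nat_lit 5) (nat_lit 8)) .nil)) (.cons (.br (nat_lit 8) (nat_lit 1) (.cons (.zr (nat_lit 620178945462867720872853504) (nat_lit 14185546192682661970433) (nat_lit 5) (nat_lit 8)) .nil)) .nil))) .nil))) (.cons (.ev (nat_lit 79537647524085682662268796929) (nat_lit 1)) .nil))) .nil)))),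
 (.br (nat_lit 13) (nat_lit 0) (.cons (.rf (nat_lit 4232) (nat_lit 457822648505293145152)) (.cons (.rf (nat_lit 4232) (nat_lit 457857653653768569920)) .nil))),
 (.br (nat_lit 2) (nat_lit 0) (.cons (.rf (nat_lit 4531) (nat_lit 493858305440582043680)) (.cons (.br (nat_lit 1) (nat_lit 0) (.cons (.br (nat_lit 10) (nat_lit 1) (.cons (.rf (nat_lit 4495) (nat_lit 493598220365233194048)) (.cons (.rf (nat_lit 4532) (nat_lit 493858305440582043680)) (.cons (.br (nat_lit 7) (nat_lit 0) (.cons (.zr (nat_lit 40723275532332013638269666394880) (nat_lit 9500073197969025794049) (nat_lit 5) (nat_lit 0)) (.cons (.br (nat_lit 5) (nat_lit 0) (.cons (.ev (nat_lit 309489750634573111607951361) (nat_lit 1)) .nil)) .nil))) .nil)))) (.cons (.rf (nat_lit 3419) (nat_lit 493604770158142031904)) (.cons (.rf (nat_lit 3419) (nat_lit 493563215216757770272)) (.cons (.ev (nat_lit 309489732188109413363548161) (nat_lit 1)) .nil))))) (.cons (.br (nat_lit 1) (nat_lit 0) (.cons (.br (nat_lit 8) (nat_lit 1) (.cons (.ev (nat_lit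 309489750634853487056257281) (nat_lit 1)) (.cons (.ev (nat_lit 309485028268089146746142721) (nat_lit 1)) (.cons (.ev (nat_lit 79537652264898909609935306753) (nat_lit 1)) .nil)))) (.cons (.ev (nat_lit 79537647542532426735995060481) (nat_lit 1)) (.cons (.br (nat_lit 5) (nat_lit 0) (.cons (.br (nat_lit 8) (nat_lit 1) (.cons (.ev (nat_lit 4740813228047178203393) (nat_lit 1)) (.cons (.ev (nat_lit 79228162532711082771076940033) (nat_lit 1)) .nil))) (.cons (.br (nat_lit 13) (nat_lit 0) (.cons (.br (nat_lit 10) (nat_lit 1) (.cons (.ev (nat_lit 20678552843556330979653486838532) (nat_lit 3)) .nil)) (.cons (.br (nat_lit 7) (nat_lit 0) (.cons (.ev (nat_lit 20837009159140126689101284311812) (nat_lit 3)) .nil)) .nil))) (.cons (.rf (nat_lit 4513) (nat_lit 493598220365233195040)) .nil)))) .nil)))) .nil)))),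
 (.br (nat_lit 2) (nat_lit 0) (.cons (.rf (nat_lit 4531) (nat_lit 493858305440582043680)) (.cons (.rf (nat_lit 4533) (nat_lit 493858305440582043680)) (.cons (.br (nat_lit 1) (nat_lit 0) (.cons (.br (nat_lit 7) (nat_lit 0) (.cons (.br (nat_lit 8) (nat_lit 1) (.cons (.ev (nat_lit 309489750634573111607951361) (nat_lit 1)) (.cons (.ev (nat_lit 20282719093402377335032640438273) (nat_lit 1)) .nil))) (.cons (.rf (nat_lit 4532) (nat_lit 493858305440582043680)) .nil))) (.cons (.br (nat_lit 10) (nat_lit 1) (.cons (.rf (nat_lit 4513) (nat_lit 493598220365233194048)) (.cons (.br (nat_lit 8) (nat_lit 1) (.cons (.br (nat_lit 4) (nat_lit 1) (.cons (.ev (nat_lit 20678552862445796911149247301380) (nat_lit 3)) .nil)) (.cons (.ev (nat_lit 20361947255916641672621889487105) (nat_lit 1)) .nil))) (.cons (.br (nat_lit 8) (nat_lit 1) (.cons (.br (nat_lit 7) (nat_lit 0) (.cons (.ev (nat_lit 20520096509083069338744288118532) (nat_lit 3)) .nil)) (.cons (.ev (nat_lit 20282719088680010852158700323073) (nat_lit 1))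 .nil))) .nil)))) (.cons (.rf (nat_lit 3419) (nat_lit 493563215216757770272)) .nil)))) .nil)))),
 (.br (nat_lit 6) (nat_lit 1) (.cons (.rf (nat_lit 4495) (nat_lit 493858305440582043680)) (.cons (.rf (nat_lit 4513) (nat_lit 493858305440582043680)) (.cons (.rf (nat_lit 4530) (nat_lit 493858305440582043680)) (.cons (.br (nat_lit 2) (nat_lit 0) (.cons (.rf (nat_lit 4531) (nat_lit 493858305440582043680)) (.cons (.rf (nat_lit 4533) (nat_lit 493858305440582043680)) (.cons (.rf (nat_lit 4534) (nat_lit 493858305440582043680)) (.cons (.br (nat_lit 2) (nat_lit 0) (.cons (.rf (nat_lit 4531) (nat_lit 493858305440582043680)) (.cons (.rf (nat_lit 4533) (nat_lit 493858305440582043680)) (.cons (.rf (nat_lit 4534) (nat_lit 493858305440582043680)) .nil)))) .nil))))) .nil))))),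
 (.br (nat_lit 12) (nat_lit 0) (.cons (.rf (nat_lit 3784) (nat_lit 493858305440582043680)) (.cons (.rf (nat_lit 4232) (nat_lit 493858305440582043680)) (.cons (.rf (nat_lit 4372) (nat_lit 493858305440582043680)) (.cons (.br (nat_lit 9) (nat_lit 1) (.cons (.rf (nat_lit 4411) (nat_lit 493858305440582043680)) (.cons (.rf (nat_lit 4450) (nat_lit 493858305440582043680)) (.cons (.br (nat_lit 10) (nat_lit 1) (.cons (.rf (nat_lit 4460) (nat_lit 493858305440582043680)) (.cons (.rf (nat_lit 4470) (nat_lit 493858305440582043680)) (.cons (.rf (nat_lit 4475) (nat_lit 493858305440582043680)) (.cons (.br (nat_lit 10) (nat_lit 1) (.cons (.rf (nat_lit 4460) (nat_lit 493858305440582043680)) (.cons (.rf (nat_lit 4470) (nat_lit 493858305440582043680)) (.cons (.rf (nat_lit 4475) (nat_lit 493858305440582043680)) .nil)))) .nil))))) (.cons (.kr (nat_lit 4722366482869645213696) (nat_lit 79228162514264337593543950336) (nat_lit 9) (nat_lit 0)) (.cons (.br (nat_lit 6) (nat_lit 1) (.cons (.rf (nat_lit 4495) (nat_lit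 493858305440582043680)) (.cons (.rf (nat_lit 4513) (nat_lit 493858305440582043680)) (.cons (.rf (nat_lit 4530) (nat_lit 493858305440582043680)) (.cons (.rf (nat_lit 4535) (nat_lit 493858305440582043680)) (.cons (.br (nat_lit 6) (nat_lit 1) (.cons (.rf (nat_lit 4495) (nat_lit 493858305440582043680)) (.cons (.rf (nat_lit 4513) (nat_lit 493858305440582043680)) (.cons (.rf (nat_lit 4530) (nat_lit 493858305440582043680)) (.cons (.rf (nat_lit 4535) (nat_lit 493858305440582043680)) .nil))))) .nil)))))) .nil)))))) .nil))))),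
 (.br (nat_lit 9) (nat_lit 1) (.cons (.br (nat_lit 11) (nat_lit 1) (.cons (.ev (nat_lit 79538856449977354885498208513) (nat_lit 1)) (.cons (.br (nat_lit 8) (nat_lit 1) (.cons (.br (nat_lit 13) (nat_lit 0) (.cons (.ev (nat_lit 79229371458602754994272796673) (nat_lit 1)) .nil)) (.cons (.br (nat_lit 4) (nat_lit 1) (.cons (.ev (nat_lit 79229371458603036469266284545) (nat_lit 1)) .nil)) .nil))) .nil))) .nil)),
 (.br (nat_lit 9) (nat_lit 1) (.cons (.rf (nat_lit 4537) (nat_lit 493858305440582043680)) (.cons (.br (nat_lit 9) (nat_lit 1) (.cons (.rf (nat_lit 4537) (nat_lit 493858305440582043680)) .nil)) .nil))),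
 (.br (nat_lit 13) (nat_lit 0) (.cons (.br (nat_lit 11) (nat_lit 1) (.cons (.ev (nat_lit 20361947251175756389184008355841) (nat_lit 1)) (.cons (.ev (nat_lit 20282720297587311384744679178241) (nat_lit 1)) .nil))) (.cons (.ev (nat_lit 20282719088679938513093980586241) (nat_lit 1)) .nil))),
 (.br (nat_lit 13) (nat_lit 0) (.cons (.rf (nat_lit 4539) (nat_lit 493858305440582043680)) (.cons (.br (nat_lit 4) (nat_lit 1) (.cons (.ev (nat_lit 20282410812595937064129423999233) (nat_lit 1)) (.cons (.ev (nat_lit 20361637766184381505618799755521) (nat_lit 1)) .nil))) .nil))),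
 (.br (nat_lit 8) (nat_lit 1) (.cons (.rf (nat_lit 4538) (nat_lit 493858305440582043680)) (.cons (.br (nat_lit 13) (nat_lit 0) (.cons (.rf (nat_lit 4539) (nat_lit 493858305440582043680)) (.cons (.rf (nat_lit 4540) (nat_lit 493858305440582043680)) (.cons (.br (nat_lit 13) (nat_lit 0) (.cons (.ev (nat_lit 20282719088679938513093980586241) (nat_lit 1)) (.cons (.rf (nat_lit 4540) (nat_lit 493858305440582043680)) .nil))) .nil)))) .nil))),
 (.br (nat_lit 9) (nat_lit 1) (.cons (.rf (nat_lit 3421) (nat_lit 493677003674038143008)) (.cons (.br (nat_lit 13) (nat_lit 0) (.cons (.br (nat_lit 11) (nat_lit 1) (.cons (.ev (nat_lit 20678550435149425279093038318340) (nat_lit 3)) .nil)) (.cons (.rf (nat_lit 4536) (nat_lit 458038990606830928960)) .nil))) .nil))),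
 (.br (nat_lit 9) (nat_lit 1) (.cons (.rf (nat_lit 3421) (nat_lit 493677003674038143008)) (.cons (.br (nat_lit 4) (nat_lit 1) (.cons (.rf (nat_lit 3516) (nat_lit 493748990899331893280)) (.cons (.br (nat_lit 11) (nat_lit 1) (.cons (.ev (nat_lit 20678550435149425279093038318340) (nat_lit 3)) .nil)) .nil))) .nil))),
 (.br (nat_lit 8) (nat_lit 1) (.cons (.br (nat_lit 9) (nat_lit 1) (.cons (.rf (nat_lit 3421) (nat_lit 493675912958503389216)) (.cons (.rf (nat_lit 4542) (nat_lit 493858305440582043680)) (.cons (.br (nat_lit 9) (nat_lit 1) (.cons (.rf (nat_lit 3421) (nat_lit 493675912958503389216)) (.cons (.rf (nat_lit 4542) (nat_lit 493858305440582043680)) .nil))) .nil)))) (.cons (.br (nat_lit 9) (nat_lit 1) (.cons (.rf (nat_lit 3425) (nat_lit 493675912958503389216)) (.cons (.rf (nat_lit 4543) (nat_lit 493858305440582043680)) (.cons (.br (nat_lit 9) (nat_lit 1) (.cons (.rf (nat_lit 3425) (nat_lit 493677003674038143008)) (.cons (.rf (nat_lit 4543) (nat_lit 493858305440582043680)) .nil))) .nil))))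 .nil)))]

theorem c170 : chkAll C T R L170 (nat_lit 4522) = true := by decide +kernel

theorem l170 : (nat_lit 4522) + L170.length = (nat_lit 4545) := by decide +kernel

/-- part of the certificates -/
def L171 : List Prf := [(.br (nat_lit 4) (nat_lit 1) (.cons (.rf (nat_lit 4359) (nat_lit 493787408930823047200)) (.cons (.br (nat_lit 11) (nat_lit 1) (.cons (.ev (nat_lit 158456329787789210262257598466) (nat_lit 2)) .nil)) .nil))),
 (.br (nat_lit 9) (nat_lit 1) (.cons (.br (nat_lit 13) (nat_lit 0) (.cons (.rf (nat_lit 4232) (nat_lit 457935134042368541760)) (.cons (.rf (nat_lit 4536) (nat_lit 458005178423107159104)) .nil))) (.cons (.rf (nat_lit 4545) (nat_lit 493858305440582043680)) .nil))),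
 (.br (nat_lit 11) (nat_lit 1) (.cons (.br (nat_lit 2) (nat_lit 0) (.cons (.ev (nat_lit 20678550435149424716143118451460) (nat_lit 3)) .nil)) .nil)),
 (.br (nat_lit 8) (nat_lit 1) (.cons (.rf (nat_lit 4544) (nat_lit 493858305440582043680)) (.cons (.br (nat_lit 9) (nat_lit 1) (.cons (.rf (nat_lit 4546) (nat_lit 493858305440582043680)) (.cons (.br (nat_lit 9) (nat_lit 1) (.cons (.rf (nat_lit 4546) (nat_lit 493858305440582043680)) (.cons (.rf (nat_lit 4547) (nat_lit 493858305440582043680)) .nil))) (.cons (.br (nat_lit 9) (nat_lit 1) (.cons (.rf (nat_lit 4545) (nat_lit 493858305440582043680)) (.cons (.rf (nat_lit 4547) (nat_lit 493858305440582043680)) .nil))) .nil)))) .nil))),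
 (.br (nat_lit 10) (nat_lit 1) (.cons (.ev (nat_lit 79229371458602754994272796673) (nat_lit 1)) (.cons (.br (nat_lit 2) (nat_lit 0) (.cons (.ev (nat_lit 1213666632841576824439041) (nat_lit 1)) (.cons (.ev (nat_lit 310693935713017296249159681) (nat_lit 1)) .nil))) .nil))),
 (.br (nat_lit 13) (nat_lit 0) (.cons (.rf (nat_lit 4232) (nat_lit 458116643612319221792)) (.cons (.rf (nat_lit 4536) (nat_lit 458116643612319221792)) (.cons (.br (nat_lit 10) (nat_lit 1) (.cons (.br (nat_lit 4) (nat_lit 1) (.cons (.ev (nat_lit 20282410812595937064129423999233) (nat_lit 1)) (.cons (.br (nat_lit 9) (nat_lit 1) (.cons (.ev (nat_lit 1213666632841576824439041) (nat_lit 1)) .nil)) .nil))) (.cons (.ev (nat_lit 18447026648197890049) (nat_lit 1)) (.cons (.br (nat_lit 4) (nat_lit 1) (.cons (.ev (nat_lit 281474993553409) (nat_lit 1)) (.cons (.br (nat_lit 2) (nat_lit 0) (.cons (.ev (nat_lit 1213666632841576824439041) (nat_lit 1)) .nil)) .nil))) .nil)))) .nil)))),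
 (.br (nat_lit 8) (nat_lit 1) (.cons (.rf (nat_lit 4536) (nat_lit 493779557318295553088)) (.cons (.br (nat_lit 4) (nat_lit 1) (.cons (.ev (nat_lit 281474993553409) (nat_lit 1)) (.cons (.br (nat_lit 11) (nat_lit 1) (.cons (.ev (nat_lit 79537647524158021735578337281) (nat_lit 1)) (.cons (.br (nat_lit 13) (nat_lit 0) (.cons (.br (nat_lit 13) (nat_lit 0) (.cons (.rf (nat_lit 4536) (nat_lit 458038990606830928960)) .nil)) (.cons (.rf (nat_lit 4536) (nat_lit 458038990606830928960)) .nil))) .nil))) (.cons (.br (nat_lit 9) (nat_lit 1) (.cons (.br (nat_lit 9) (nat_lit 1) (.cons (.rf (nat_lit 3784) (nat_lit 493675700753833165888)) (.cons (.ev (nat_lit 79228167255077846016187171073) (nat_lit 1)) .nil))) (.cons (.rf (nat_lit 4549) (nat_lit 493858305440582043680)) (.cons (.br (nat_lit 9) (nat_lit 1) (.cons (.ev (nat_lit 79228167255077846016187171073) (nat_lit 1)) (.cons (.rf (nat_lit 4549) (nat_lit 493858305440582043680)) .nil))) .nil)))) .nil)))) (.cons (.br (nat_lit 13) (nat_lit 0) (.cons (.rf (nat_lit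 4232) (nat_lit 458116643612319221792)) (.cons (.rf (nat_lit 4550) (nat_lit 493858305440582043680)) (.cons (.rf (nat_lit 4536) (nat_lit 458116643612319221792)) (.cons (.br (nat_lit 13) (nat_lit 0) (.cons (.rf (nat_lit 4232) (nat_lit 458116643612319221792)) (.cons (.rf (nat_lit 4550) (nat_lit 493858305440582043680)) (.cons (.rf (nat_lit 4536) (nat_lit 458116643612319221792)) .nil)))) .nil))))) .nil)))),
 (.br (nat_lit 9) (nat_lit 1) (.cons (.br (nat_lit 10) (nat_lit 1) (.cons (.br (nat_lit 4) (nat_lit 1) (.cons (.ev (nat_lit 18519084246547628033) (nat_lit 1)) .nil)) (.cons (.br (nat_lit 11) (nat_lit 1) (.cons (.br (nat_lit 4) (nat_lit 1) (.cons (.ev (nat_lit 310693935713017296249159681) (nat_lit 1)) .nil)) (.cons (.ev (nat_lit 20361948460101648061407237767425) (nat_lit 1)) .nil))) .nil))) .nil)),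
 (.br (nat_lit 13) (nat_lit 0) (.cons (.rf (nat_lit 4232) (nat_lit 458116643612319221792)) (.cons (.rf (nat_lit 4536) (nat_lit 458116643612319221792)) (.cons (.br (nat_lit 4) (nat_lit 1) (.cons (.rf (nat_lit 4551) (nat_lit 458116643612319221792)) (.cons (.br (nat_lit 9) (nat_lit 1) (.cons (.br (nat_lit 2) (nat_lit 0) (.cons (.ev (nat_lit 1213666632841576824439041) (nat_lit 1)) .nil)) .nil)) .nil))) .nil)))),
 (.br (nat_lit 8) (nat_lit 1) (.cons (.rf (nat_lit 4536) (nat_lit 493779557318295553088)) (.cons (.br (nat_lit 9) (nat_lit 1) (.cons (.rf (nat_lit 4552) (nat_lit 493858305440582043680)) (.cons (.br (nat_lit 9) (nat_lit 1) (.cons (.rf (nat_lit 4552) (nat_lit 493858305440582043680)) .nil)) .nil))) (.cons (.br (nat_lit 13) (nat_lit 0) (.cons (.rf (nat_lit 4232) (nat_lit 458116643612319221792)) (.cons (.rf (nat_lit 4553) (nat_lit 493858305440582043680)) (.cons (.rf (nat_lit 4536) (nat_lit 458116643612319221792)) (.cons (.br (nat_lit 13) (nat_lit 0) (.cons (.rf (nat_lit 4232) (nat_lit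 458116643612319221792)) (.cons (.rf (nat_lit 4553) (nat_lit 493858305440582043680)) (.cons (.rf (nat_lit 4536) (nat_lit 458116643612319221792)) .nil)))) .nil))))) .nil)))),
 (.br (nat_lit 9) (nat_lit 1) (.cons (.ev (nat_lit 1213666632841576824439041) (nat_lit 1)) .nil)),
 (.br (nat_lit 13) (nat_lit 0) (.cons (.rf (nat_lit 4232) (nat_lit 458116643612319221792)) (.cons (.rf (nat_lit 4536) (nat_lit 458116643612319221792)) (.cons (.br (nat_lit 4) (nat_lit 1) (.cons (.rf (nat_lit 4551) (nat_lit 458116643612319221792)) (.cons (.br (nat_lit 10) (nat_lit 1) (.cons (.rf (nat_lit 4555) (nat_lit 493858305440582043680)) .nil)) .nil))) .nil)))),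
 (.br (nat_lit 8) (nat_lit 1) (.cons (.rf (nat_lit 4551) (nat_lit 493858305440582043680)) (.cons (.rf (nat_lit 4554) (nat_lit 493858305440582043680)) (.cons (.br (nat_lit 13) (nat_lit 0) (.cons (.rf (nat_lit 4232) (nat_lit 458116643612319221792)) (.cons (.rf (nat_lit 4556) (nat_lit 493858305440582043680)) (.cons (.rf (nat_lit 4536) (nat_lit 458116643612319221792)) (.cons (.br (nat_lit 13) (nat_lit 0) (.cons (.ev (nat_lit 20282719088679938513093980586241) (nat_lit 1)) (.cons (.rf (nat_lit 4556) (nat_lit 493858305440582043680)) (.cons (.rf (nat_lit 4536) (nat_lit 458116643612319221792)) .nil)))) .nil))))) .nil)))),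
 (.br (nat_lit 11) (nat_lit 1) (.cons (.br (nat_lit 10) (nat_lit 1) (.cons (.ev (nat_lit 310693935640959697899552769) (nat_lit 1)) (.cons (.br (nat_lit 13) (nat_lit 0) (.cons (.rf (nat_lit 4232) (nat_lit 457935134042368541760)) (.cons (.br (nat_lit 4) (nat_lit 1) (.cons (.ev (nat_lit 79228167255077846016187171073) (nat_lit 1)) .nil)) .nil))) .nil))) (.cons (.br (nat_lit 5) (nat_lit 0) (.cons (.br (nat_lit 8) (nat_lit 1) (.cons (.br (nat_lit 13) (nat_lit 0) (.cons (.ev (nat_lit 1213666632841576824439041) (nat_lit 1)) .nil)) .nil)) (.cons (.rf (nat_lit 4536) (nat_lit 493779557318295553088)) (.cons (.ev (nat_lit 310693935640959697899552769) (nat_lit 1)) .nil)))) (.cons (.ev (nat_lit 79537647524085964137262284801) (nat_lit 1)) .nil)))),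
 (.br (nat_lit 13) (nat_lit 0) (.cons (.kr (nat_lit 16777216) (nat_lit 20282409603651670423947251286016) (nat_lit 3) (nat_lit 0)) (.cons (.rf (nat_lit 4232) (nat_lit 457935134042368541760)) (.cons (.ev (nat_lit 20361947255898194928552474836993) (nat_lit 1)) .nil)))),
 (.br (nat_lit 8) (nat_lit 1) (.cons (.rf (nat_lit 4536) (nat_lit 493779557318295553088)) (.cons (.br (nat_lit 4) (nat_lit 1) (.cons (.br (nat_lit 11) (nat_lit 1) (.cons (.br (nat_lit 13) (nat_lit 0) (.cons (.ev (nat_lit 158768242112573892160567443714) (nat_lit 2)) .nil)) .nil)) (.cons (.rf (nat_lit 4559) (nat_lit 493858305440582043680)) .nil))) (.cons (.br (nat_lit 13) (nat_lit 0) (.cons (.rf (nat_lit 3531) (nat_lit 493675700685180798016)) (.cons (.kr (nat_lit 18446744073709551616) (nat_lit 20282409603651670423947251286016) (nat_lit 8) (nat_lit 0)) (.cons (.br (nat_lit 2) (nat_lit 0) (.cons (.rf (nat_lit 2350) (nat_lit 458082801641718914208)) (.cons (.br (nat_lit 7) (nat_lit 0) (.cons (.ev (nat_lit 158767018982761341878861496834)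 (nat_lit 2)) .nil)) .nil))) .nil)))) .nil)))),
 (.br (nat_lit 8) (nat_lit 1) (.cons (.rf (nat_lit 4558) (nat_lit 493858305440582043680)) (.cons (.rf (nat_lit 4560) (nat_lit 493858305440582043680)) (.cons (.br (nat_lit 13) (nat_lit 0) (.cons (.br (nat_lit 5) (nat_lit 0) (.cons (.br (nat_lit 11) (nat_lit 1) (.cons (.zr (nat_lit 2417888532717414358647552) (nat_lit 1237944761652989044467957761) (nat_lit 5) (nat_lit 0)) .nil)) (.cons (.br (nat_lit 2) (nat_lit 0) (.cons (.ev (nat_lit 21475172132319549890202373393672) (nat_lit 4)) .nil)) .nil))) (.cons (.kr (nat_lit 1208944266358702901035008) (nat_lit 20361637766165935043015771947008) (nat_lit 3) (nat_lit 0)) (.cons (.br (nat_lit 4) (nat_lit 1) (.cons (.ev (nat_lit 79228167255077846016187171073) (nat_lit 1)) (.cons (.ev (nat_lit 20361947255898194647077514903553) (nat_lit 1)) .nil))) .nil)))) .nil)))),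
 (.br (nat_lit 10) (nat_lit 1) (.cons (.ev (nat_lit 310693935640959697899552769) (nat_lit 1)) (.cons (.ev (nat_lit 1213666632841576824439041) (nat_lit 1)) .nil))),
 (.br (nat_lit 11) (nat_lit 1) (.cons (.br (nat_lit 10) (nat_lit 1) (.cons (.ev (nat_lit 310693935640959697899552769) (nat_lit 1)) (.cons (.br (nat_lit 8) (nat_lit 1) (.cons (.rf (nat_lit 3784) (nat_lit 457864203446677406784)) .nil)) .nil))) (.cons (.br (nat_lit 5) (nat_lit 0) (.cons (.br (nat_lit 8) (nat_lit 1) (.cons (.rf (nat_lit 4562) (nat_lit 493858305440582043680)) (.cons (.br (nat_lit 7) (nat_lit 0) (.cons (.ev (nat_lit 1213666632841576824439041) (nat_lit 1)) .nil)) .nil))) (.cons (.rf (nat_lit 4536) (nat_lit 493779557318295553088)) (.cons (.ev (nat_lit 310693935640959697899552769) (nat_lit 1)) .nil)))) (.cons (.ev (nat_lit 79537647524085964137262284801) (nat_lit 1)) .nil)))),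
 (.br (nat_lit 8) (nat_lit 1) (.cons (.rf (nat_lit 4536) (nat_lit 493779557318295553088)) (.cons (.br (nat_lit 11) (nat_lit 1) (.cons (.br (nat_lit 7) (nat_lit 0) (.cons (.ev (nat_lit 79537652246524224229758533633) (nat_lit 1)) (.cons (.ev (nat_lit 79538856449977354885498208513) (nat_lit 1)) .nil))) (.cons (.ev (nat_lit 79228162532783421835796545793) (nat_lit 1)) (.cons (.br (nat_lit 7) (nat_lit 0) (.cons (.ev (nat_lit 20361947255898194928552474836993) (nat_lit 1)) (.cons (.ev (nat_lit 20361948460101648061407237767425) (nat_lit 1)) .nil))) .nil)))) (.cons (.br (nat_lit 11) (nat_lit 1) (.cons (.ev (nat_lit 20361947251175756107709048422401) (nat_lit 1)) (.cons (.br (nat_lit 4) (nat_lit 1) (.cons (.rf (nat_lit 2353) (nat_lit 458082801641718914208)) (.cons (.br (nat_lit 2) (nat_lit 0) (.cons (.ev (nat_lit 1213666632841576824439041) (nat_lit 1)) .nil)) .nil))) .nil))) .nil)))),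
 (.br (nat_lit 8) (nat_lit 1) (.cons (.rf (nat_lit 4563) (nat_lit 493858305440582043680)) (.cons (.rf (nat_lit 4564) (nat_lit 493858305440582043680)) (.cons (.br (nat_lit 2) (nat_lit 0) (.cons (.br (nat_lit 5) (nat_lit 0) (.cons (.ev (nat_lit 1213666632841576824439041) (nat_lit 1)) (.cons (.ev (nat_lit 79537647524085682662268796929) (nat_lit 1)) .nil))) (.cons (.ev (nat_lit 20282409603670117168020960903169) (nat_lit 1)) (.cons (.br (nat_lit 10) (nat_lit 1) (.cons (.br (nat_lit 7) (nat_lit 0) (.cons (.ev (nat_lit 79230594533147131761351852290) (nat_lit 2)) .nil)) (.cons (.ev (nat_lit 79538856449977354885498208513) (nat_lit 1)) .nil))) .nil)))) .nil)))),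
 (.br (nat_lit 9) (nat_lit 1) (.cons (.rf (nat_lit 3784) (nat_lit 493675700753833165888)) (.cons (.br (nat_lit 8) (nat_lit 1) (.cons (.rf (nat_lit 4558) (nat_lit 493858305440582043680)) (.cons (.rf (nat_lit 4560) (nat_lit 493858305440582043680)) (.cons (.rf (nat_lit 4561) (nat_lit 493858305440582043680)) (.cons (.br (nat_lit 8) (nat_lit 1) (.cons (.rf (nat_lit 4558) (nat_lit 493858305440582043680)) (.cons (.rf (nat_lit 4560) (nat_lit 493858305440582043680)) (.cons (.rf (nat_lit 4561) (nat_lit 493858305440582043680)) .nil)))) .nil))))) (.cons (.br (nat_lit 8) (nat_lit 1) (.cons (.rf (nat_lit 4563) (nat_lit 493858305440582043680)) (.cons (.rf (nat_lit 4564) (nat_lit 493858305440582043680)) (.cons (.rf (nat_lit 4565) (nat_lit 493858305440582043680)) (.cons (.br (nat_lit 8) (nat_lit 1) (.cons (.rf (nat_lit 4563) (nat_lit 493858305440582043680)) (.cons (.rf (nat_lit 4564) (nat_lit 493858305440582043680)) (.cons (.rf (nat_lit 4565) (nat_lit 493858305440582043680)) .nil)))) .nil))))) .nil)))),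
 (.br (nat_lit 8) (nat_lit 1) (.cons (.br (nat_lit 13) (nat_lit 0) (.cons (.br (nat_lit 13) (nat_lit 0) (.cons (.ev (nat_lit 20282410817299856802925359661313) (nat_lit 1)) (.cons (.rf (nat_lit 4232) (nat_lit 457864203446677406784)) .nil))) (.cons (.rf (nat_lit 3784) (nat_lit 457864203446677406784)) (.cons (.rf (nat_lit 4232) (nat_lit 457864203446677406784)) .nil)))) (.cons (.br (nat_lit 13) (nat_lit 0) (.cons (.br (nat_lit 2) (nat_lit 0) (.cons (.ev (nat_lit 1213666632841576824439041) (nat_lit 1)) (.cons (.rf (nat_lit 4287) (nat_lit 493743493165106889952)) .nil))) (.cons (.br (nat_lit 4) (nat_lit 1) (.cons (.ev (nat_lit 1213666632841576824439041) (nat_lit 1)) (.cons (.ev (nat_lit 20361637770888301525889728905473) (nat_lit 1)) .nil))) (.cons (.br (nat_lit 7) (nat_lit 0) (.cons (.br (nat_lit 10) (nat_lit 1) (.cons (.ev (nat_lit 79538861172271781264912089345) (nat_lit 1)) .nil)) (.cons (.br (nat_lit 4) (nat_lit 1) (.cons (.ev (nat_lit 20680407345208497464693496414468) (nat_lit 3)) .nil))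 .nil))) .nil)))) .nil))),
 (.br (nat_lit 8) (nat_lit 1) (.cons (.rf (nat_lit 4567) (nat_lit 493858305440582043680)) (.cons (.br (nat_lit 10) (nat_lit 1) (.cons (.br (nat_lit 11) (nat_lit 1) (.cons (.br (nat_lit 4) (nat_lit 1) (.cons (.ev (nat_lit 20678557688741668807193915360516) (nat_lit 3)) .nil)) (.cons (.br (nat_lit 2) (nat_lit 0) (.cons (.ev (nat_lit 309489732187829042193432833) (nat_lit 1)) .nil)) .nil))) (.cons (.kr (nat_lit 1208944266358702901035008) (nat_lit 20361637766165935043015771947008) (nat_lit 3) (nat_lit 0)) .nil))) .nil))),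
 (.br (nat_lit 4) (nat_lit 1) (.cons (.br (nat_lit 7) (nat_lit 0) (.cons (.kr (nat_lit 2427296444252591677767936) (nat_lit 20520094091194463437827394830336) (nat_lit 1) (nat_lit 0)) .nil)) .nil)),
 (.br (nat_lit 8) (nat_lit 1) (.cons (.br (nat_lit 10) (nat_lit 1) (.cons (.br (nat_lit 13) (nat_lit 0) (.cons (.ev (nat_lit 1213666632841576824439041) (nat_lit 1)) (.cons (.rf (nat_lit 4232) (nat_lit 457864203446677406784)) .nil))) (.cons (.rf (nat_lit 4264) (nat_lit 493787195627721033760)) (.cons (.rf (nat_lit 3784) (nat_lit 457864203446677406784)) .nil)))) (.cons (.br (nat_lit 2) (nat_lit 0) (.cons (.rf (nat_lit 2308) (nat_lit 458117738625836883104)) (.cons (.ev (nat_lit 20361638975091754377269498347521) (nat_lit 1)) (.cons (.rf (nat_lit 4569) (nat_lit 493858305440582043680)) .nil)))) .nil))),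
 (.br (nat_lit 8) (nat_lit 1) (.cons (.rf (nat_lit 4570) (nat_lit 493858305440582043680)) (.cons (.br (nat_lit 10) (nat_lit 1) (.cons (.ev (nat_lit 20361638975091754377269498347521) (nat_lit 1)) (.cons (.rf (nat_lit 4120) (nat_lit 493857139958262892576)) .nil))) .nil)))]

theorem c171 : chkAll C T R L171 (nat_lit 4545) = true := by decide +kernel

theorem l171 : (nat_lit 4545) + L171.length = (nat_lit 4572) := by decide +kernel

/-- part of the certificates -/
def L172 : List Prf := [(.br (nat_lit 9) (nat_lit 1) (.cons (.rf (nat_lit 3784) (nat_lit 493675700753833165888)) (.cons (.br (nat_lit 8) (nat_lit 1) (.cons (.rf (nat_lit 4567) (nat_lit 493858305440582043680)) (.cons (.rf (nat_lit 4568) (nat_lit 493858305440582043680)) (.cons (.br (nat_lit 8) (nat_lit 1) (.cons (.rf (nat_lit 4567) (nat_lit 493858305440582043680)) (.cons (.rf (nat_lit 4568) (nat_lit 493858305440582043680)) .nil))) .nil)))) (.cons (.br (nat_lit 8) (nat_lit 1) (.cons (.rf (nat_lit 4570) (nat_lit 493858305440582043680))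 (.cons (.rf (nat_lit 4571) (nat_lit 493858305440582043680)) (.cons (.br (nat_lit 8) (nat_lit 1) (.cons (.rf (nat_lit 4570) (nat_lit 493858305440582043680)) (.cons (.rf (nat_lit 4571) (nat_lit 493858305440582043680)) .nil))) .nil)))) .nil)))),
 (.br (nat_lit 2) (nat_lit 0) (.cons (.ev (nat_lit 20679171832428977332786418747140) (nat_lit 3)) .nil)),
 (.br (nat_lit 8) (nat_lit 1) (.cons (.rf (nat_lit 4536) (nat_lit 493779557318295553088)) (.cons (.br (nat_lit 13) (nat_lit 0) (.cons (.br (nat_lit 2) (nat_lit 0) (.cons (.rf (nat_lit 4566) (nat_lit 457864203446677406784)) (.cons (.ev (nat_lit 20361637766184453844683519492353) (nat_lit 1)) .nil))) (.cons (.rf (nat_lit 3784) (nat_lit 457864203446677406784)) (.cons (.rf (nat_lit 4232) (nat_lit 457864203446677406784)) .nil)))) (.cons (.br (nat_lit 10) (nat_lit 1) (.cons (.br (nat_lit 4) (nat_lit 1) (.cons (.ev (nat_lit 1213648186098602643357953) (nat_lit 1)) (.cons (.br (nat_lit 11) (nat_lit 1) (.cons (.ev (nat_lit 20837632983826731969599875777796)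 (nat_lit 3)) .nil)) .nil))) (.cons (.ev (nat_lit 79229371458530697395956613121) (nat_lit 1)) (.cons (.br (nat_lit 11) (nat_lit 1) (.cons (.ev (nat_lit 79538856449977354885498208513) (nat_lit 1)) (.cons (.rf (nat_lit 4573) (nat_lit 493858305440582043680)) .nil))) .nil)))) .nil)))),
 (.br (nat_lit 8) (nat_lit 1) (.cons (.rf (nat_lit 4536) (nat_lit 493779557318295553088)) (.cons (.br (nat_lit 4) (nat_lit 1) (.cons (.br (nat_lit 11) (nat_lit 1) (.cons (.ev (nat_lit 79537652246524224229758533633) (nat_lit 1)) (.cons (.br (nat_lit 10) (nat_lit 1) (.cons (.ev (nat_lit 20838866069199198879125592278276) (nat_lit 3)) .nil)) .nil))) (.cons (.br (nat_lit 10) (nat_lit 1) (.cons (.br (nat_lit 2) (nat_lit 0) (.cons (.ev (nat_lit 20680407345245679189831215809796) (nat_lit 3)) .nil)) .nil)) .nil))) (.cons (.br (nat_lit 11) (nat_lit 1) (.cons (.ev (nat_lit 20361947251175756107709048422401) (nat_lit 1)) (.cons (.br (nat_lit 10) (nat_lit 1) (.cons (.br (nat_lit 4) (nat_lit 1) (.cons (.ev (nat_lit 1213666632841576824439041)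 (nat_lit 1)) .nil)) .nil)) .nil))) .nil)))),
 (.br (nat_lit 8) (nat_lit 1) (.cons (.rf (nat_lit 4574) (nat_lit 493858305440582043680)) (.cons (.rf (nat_lit 4575) (nat_lit 493858305440582043680)) (.cons (.br (nat_lit 10) (nat_lit 1) (.cons (.br (nat_lit 5) (nat_lit 0) (.cons (.br (nat_lit 2) (nat_lit 0) (.cons (.zr (nat_lit 618970019858866218131783680) (nat_lit 1213666633123064686051329) (nat_lit 5) (nat_lit 0)) .nil)) (.cons (.br (nat_lit 2) (nat_lit 0) (.cons (.ev (nat_lit 20520098955342981548190615142660) (nat_lit 3)) .nil)) .nil))) (.cons (.br (nat_lit 4) (nat_lit 1) (.cons (.ev (nat_lit 40644049792391610898719864520962) (nat_lit 2)) .nil)) .nil))) .nil)))),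
 (.br (nat_lit 9) (nat_lit 1) (.cons (.rf (nat_lit 4566) (nat_lit 493858305440582043680)) (.cons (.rf (nat_lit 4572) (nat_lit 493858305440582043680)) (.cons (.br (nat_lit 8) (nat_lit 1) (.cons (.rf (nat_lit 4574) (nat_lit 493858305440582043680)) (.cons (.rf (nat_lit 4575) (nat_lit 493858305440582043680)) (.cons (.rf (nat_lit 4576) (nat_lit 493858305440582043680)) (.cons (.br (nat_lit 8) (nat_lit 1) (.cons (.rf (nat_lit 4574) (nat_lit 493858305440582043680)) (.cons (.rf (nat_lit 4575) (nat_lit 493858305440582043680)) (.cons (.rf (nat_lit 4576) (nat_lit 493858305440582043680)) .nil)))) .nil))))) .nil)))),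
 (.br (nat_lit 6) (nat_lit 1) (.cons (.rf (nat_lit 3419) (nat_lit 493787200025760303136)) (.cons (.br (nat_lit 10) (nat_lit 1) (.cons (.br (nat_lit 8) (nat_lit 1) (.cons (.rf (nat_lit 4538) (nat_lit 493858305440582043680)) (.cons (.rf (nat_lit 4541) (nat_lit 493858305440582043680)) (.cons (.br (nat_lit 8) (nat_lit 1) (.cons (.rf (nat_lit 4538) (nat_lit 493858305440582043680)) (.cons (.rf (nat_lit 4541) (nat_lit 493858305440582043680)) .nil))) .nil)))) (.cons (.kr (nat_lit 1208925819614629191483392) (nat_lit 79228162514264619068520660992) (nat_lit 3) (nat_lit 0)) (.cons (.br (nat_lit 8) (nat_lit 1) (.cons (.rf (nat_lit 4544) (nat_lit 493858305440582043680)) (.cons (.rf (nat_lit 4548) (nat_lit 493858305440582043680)) (.cons (.br (nat_lit 8) (nat_lit 1) (.cons (.rf (nat_lit 4544) (nat_lit 493858305440582043680)) (.cons (.rf (nat_lit 4548) (nat_lit 493858305440582043680)) .nil))) .nil)))) .nil)))) (.cons (.br (nat_lit 8) (nat_lit 1) (.cons (.rf (nat_lit 4551) (nat_lit 493858305440582043680))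 (.cons (.rf (nat_lit 4554) (nat_lit 493858305440582043680)) (.cons (.rf (nat_lit 4557) (nat_lit 493858305440582043680)) (.cons (.br (nat_lit 8) (nat_lit 1) (.cons (.rf (nat_lit 4551) (nat_lit 493858305440582043680)) (.cons (.rf (nat_lit 4554) (nat_lit 493858305440582043680)) (.cons (.rf (nat_lit 4557) (nat_lit 493858305440582043680)) .nil)))) .nil))))) (.cons (.br (nat_lit 9) (nat_lit 1) (.cons (.rf (nat_lit 4566) (nat_lit 493858305440582043680)) (.cons (.rf (nat_lit 4572) (nat_lit 493858305440582043680)) (.cons (.rf (nat_lit 4577) (nat_lit 493858305440582043680)) (.cons (.br (nat_lit 9) (nat_lit 1) (.cons (.rf (nat_lit 4566) (nat_lit 493858305440582043680)) (.cons (.rf (nat_lit 4572) (nat_lit 493858305440582043680)) (.cons (.rf (nat_lit 4577) (nat_lit 493858305440582043680)) .nil)))) .nil))))) .nil))))),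
 (.br (nat_lit 11) (nat_lit 1) (.cons (.br (nat_lit 10) (nat_lit 1) (.cons (.br (nat_lit 4) (nat_lit 1) (.cons (.rf (nat_lit 4232) (nat_lit 457935134042368542752)) .nil)) .nil)) (.cons (.ev (nat_lit 79537647524085965236773912833) (nat_lit 1)) .nil))),
 (.br (nat_lit 8) (nat_lit 1) (.cons (.rf (nat_lit 4579) (nat_lit 493858305440582043680)) (.cons (.br (nat_lit 4) (nat_lit 1) (.cons (.br (nat_lit 11) (nat_lit 1) (.cons (.br (nat_lit 10) (nat_lit 1) (.cons (.ev (nat_lit 20678557688741668804994892105476) (nat_lit 3)) .nil)) .nil)) (.cons (.br (nat_lit 13) (nat_lit 0) (.cons (.rf (nat_lit 4232) (nat_lit 457935134042368542752)) (.cons (.rf (nat_lit 3784) (nat_lit 457935134042368542752)) .nil))) .nil))) .nil))),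
 (.br (nat_lit 10) (nat_lit 1) (.cons (.ev (nat_lit 1213648186380077603225601) (nat_lit 1)) (.cons (.ev (nat_lit 20361638979832639660711657668865) (nat_lit 1)) .nil))),
 (.br (nat_lit 13) (nat_lit 0) (.cons (.ev (nat_lit 1213666632842676336066561) (nat_lit 1)) .nil)),
 (.br (nat_lit 11) (nat_lit 1) (.cons (.br (nat_lit 4) (nat_lit 1) (.cons (.br (nat_lit 8) (nat_lit 1) (.cons (.rf (nat_lit 4581) (nat_lit 493858305440582043680)) .nil)) (.cons (.br (nat_lit 7) (nat_lit 0) (.cons (.rf (nat_lit 4582) (nat_lit 493858305440582043680)) (.cons (.br (nat_lit 8) (nat_lit 1) (.cons (.ev (nat_lit 1213666632842676336066561) (nat_lit 1)) .nil)) .nil))) .nil))) (.cons (.ev (nat_lit 79537647524085965236773912833) (nat_lit 1)) .nil))),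
 (.br (nat_lit 8) (nat_lit 1) (.cons (.rf (nat_lit 4583) (nat_lit 493858305440582043680)) (.cons (.br (nat_lit 7) (nat_lit 0) (.cons (.br (nat_lit 10) (nat_lit 1) (.cons (.br (nat_lit 11) (nat_lit 1) (.cons (.zr (nat_lit 238303457562652438650148619008) (nat_lit 4840444091685477250236417) (nat_lit 5) (nat_lit 0)) .nil)) (.cons (.ev (nat_lit 20520095300175767683548380659970) (nat_lit 2)) .nil))) (.cons (.br (nat_lit 11) (nat_lit 1) (.cons (.ev (nat_lit 79538856449977354885498208513) (nat_lit 1)) (.cons (.ev (nat_lit 20361948460101648060307726139393) (nat_lit 1)) .nil))) (.cons (.ev (nat_lit 309485028340147835983888641) (nat_lit 1)) .nil)))) .nil))),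
 (.br (nat_lit 9) (nat_lit 1) (.cons (.rf (nat_lit 3419) (nat_lit 493675700753833166880)) (.cons (.br (nat_lit 8) (nat_lit 1) (.cons (.rf (nat_lit 4579) (nat_lit 493858305440582043680)) (.cons (.rf (nat_lit 4580) (nat_lit 493858305440582043680)) (.cons (.br (nat_lit 8) (nat_lit 1) (.cons (.rf (nat_lit 4579) (nat_lit 493858305440582043680)) (.cons (.rf (nat_lit 4580) (nat_lit 493858305440582043680)) .nil))) .nil)))) (.cons (.br (nat_lit 8) (nat_lit 1) (.cons (.rf (nat_lit 4583) (nat_lit 493858305440582043680)) (.cons (.rf (nat_lit 4584) (nat_lit 493858305440582043680)) (.cons (.br (nat_lit 8) (nat_lit 1) (.cons (.rf (nat_lit 4583) (nat_lit 493858305440582043680)) (.cons (.rf (nat_lit 4584) (nat_lit 493858305440582043680)) .nil))) .nil)))) .nil)))),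
 (.br (nat_lit 11) (nat_lit 1) (.cons (.br (nat_lit 8) (nat_lit 1) (.cons (.br (nat_lit 4) (nat_lit 1) (.cons (.br (nat_lit 10) (nat_lit 1) (.cons (.ev (nat_lit 1213666632842676336066561) (nat_lit 1)) .nil)) .nil)) .nil)) (.cons (.ev (nat_lit 79537647524085965236773912833) (nat_lit 1)) .nil))),
 (.br (nat_lit 8) (nat_lit 1) (.cons (.rf (nat_lit 4586) (nat_lit 493858305440582043680)) (.cons (.br (nat_lit 4) (nat_lit 1) (.cons (.br (nat_lit 11) (nat_lit 1) (.cons (.br (nat_lit 10) (nat_lit 1) (.cons (.zr (nat_lit 618970019858862919596901120) (nat_lit 1213666633123064686051329) (nat_lit 5) (nat_lit 0)) .nil)) .nil)) (.cons (.br (nat_lit 10) (nat_lit 1) (.cons (.ev (nat_lit 79230585088270615974338756866) (nat_lit 2)) (.cons (.rf (nat_lit 4232) (nat_lit 457935134042368541760)) .nil))) .nil))) .nil))),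
 (.br (nat_lit 7) (nat_lit 0) (.cons (.ev (nat_lit 1213666632842676336066561) (nat_lit 1)) .nil)),
 (.br (nat_lit 11) (nat_lit 1) (.cons (.br (nat_lit 4) (nat_lit 1) (.cons (.br (nat_lit 8) (nat_lit 1) (.cons (.br (nat_lit 13) (nat_lit 0) (.cons (.ev (nat_lit 1213666632842676336066561) (nat_lit 1)) .nil)) .nil)) (.cons (.br (nat_lit 13) (nat_lit 0) (.cons (.rf (nat_lit 4588) (nat_lit 493858305440582043680)) (.cons (.br (nat_lit 8) (nat_lit 1) (.cons (.ev (nat_lit 1213666632842676336066561) (nat_lit 1)) .nil)) .nil))) .nil))) (.cons (.ev (nat_lit 79537647524085965236773912833) (nat_lit 1)) .nil))),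
 (.br (nat_lit 8) (nat_lit 1) (.cons (.rf (nat_lit 4589) (nat_lit 493858305440582043680)) (.cons (.br (nat_lit 10) (nat_lit 1) (.cons (.br (nat_lit 4) (nat_lit 1) (.cons (.ev (nat_lit 79230585088270615974338756866) (nat_lit 2)) (.cons (.ev (nat_lit 1213666632842676336066561) (nat_lit 1)) .nil))) (.cons (.br (nat_lit 11) (nat_lit 1) (.cons (.ev (nat_lit 309485009893684137739485441) (nat_lit 1)) (.cons (.ev (nat_lit 20361948460101648060307726139393) (nat_lit 1)) .nil))) (.cons (.ev (nat_lit 20282409603670117168020960903169) (nat_lit 1)) .nil)))) .nil))),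
 (.br (nat_lit 9) (nat_lit 1) (.cons (.rf (nat_lit 3419) (nat_lit 493675700753833166880)) (.cons (.br (nat_lit 8) (nat_lit 1) (.cons (.rf (nat_lit 4586) (nat_lit 493858305440582043680)) (.cons (.rf (nat_lit 4587) (nat_lit 493858305440582043680)) (.cons (.br (nat_lit 8) (nat_lit 1) (.cons (.rf (nat_lit 4586) (nat_lit 493858305440582043680)) (.cons (.rf (nat_lit 4587) (nat_lit 493858305440582043680)) .nil))) .nil)))) (.cons (.br (nat_lit 8) (nat_lit 1) (.cons (.rf (nat_lit 4589) (nat_lit 493858305440582043680)) (.cons (.rf (nat_lit 4590) (nat_lit 493858305440582043680)) (.cons (.br (nat_lit 8) (nat_lit 1) (.cons (.rf (nat_lit 4589) (nat_lit 493858305440582043680)) (.cons (.rf (nat_lit 4590) (nat_lit 493858305440582043680)) .nil))) .nil)))) .nil)))),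
 (.br (nat_lit 10) (nat_lit 1) (.cons (.ev (nat_lit 18447025548686262529) (nat_lit 1)) (.cons (.ev (nat_lit 79228167236702879156738785281) (nat_lit 1)) (.cons (.rf (nat_lit 4578) (nat_lit 458038990606830928960)) .nil)))),
 (.br (nat_lit 2) (nat_lit 0) (.cons (.br (nat_lit 8) (nat_lit 1) (.cons (.rf (nat_lit 3419) (nat_lit 493604770158142031904)) (.cons (.rf (nat_lit 4592) (nat_lit 493858305440582043680)) (.cons (.br (nat_lit 1) (nat_lit 0) (.cons (.ev (nat_lit 1213666632842676336066561) (nat_lit 1)) (.cons (.ev (nat_lit 20361947251175756389184008355841) (nat_lit 1)) .nil))) .nil)))) (.cons (.ev (nat_lit 1213648186378978091663361) (nat_lit 1)) (.cons (.br (nat_lit 13) (nat_lit 0) (.cons (.br (nat_lit 7) (nat_lit 0) (.cons (.ev (nat_lit 79228167255077847115698798593) (nat_lit 1)) (.cons (.ev (nat_lit 20282720297587311384744679178241) (nat_lit 1)) .nil))) (.cons (.br (nat_lit 1) (nat_lit 0) (.cons (.br (nat_lit 7) (nat_lit 0) (.cons (.ev (nat_lit 158770674094490855821963101700) (nat_lit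 3)) .nil)) .nil)) .nil))) .nil)))),
 (.br (nat_lit 2) (nat_lit 0) (.cons (.br (nat_lit 8) (nat_lit 1) (.cons (.ev (nat_lit 1213666632842676336066561) (nat_lit 1)) .nil)) (.cons (.br (nat_lit 1) (nat_lit 0) (.cons (.ev (nat_lit 1213666632842676336066561) (nat_lit 1)) .nil)) .nil))),
 (.br (nat_lit 13) (nat_lit 0) (.cons (.rf (nat_lit 4593) (nat_lit 493858305440582043680)) (.cons (.br (nat_lit 7) (nat_lit 0) (.cons (.br (nat_lit 1) (nat_lit 0) (.cons (.br (nat_lit 11) (nat_lit 1) (.cons (.ev (nat_lit 20678555252037311891300285874948) (nat_lit 3)) .nil)) (.cons (.zr (nat_lit 20283028578393751936023360700416) (nat_lit 79230580365903566851910139905) (nat_lit 5) (nat_lit 9)) .nil))) (.cons (.br (nat_lit 11) (nat_lit 1) (.cons (.br (nat_lit 4) (nat_lit 1) (.cons (.ev (nat_lit 20361642620795934059076952196868) (nat_lit 3)) .nil)) (.cons (.br (nat_lit 4) (nat_lit 1) (.cons (.ev (nat_lit 79537652246524505704752021505) (nat_lit 1)) .nil)) .nil))) (.cons (.rf (nat_lit 4594) (nat_lit 493858305440582043680))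 .nil)))) (.cons (.br (nat_lit 4) (nat_lit 1) (.cons (.br (nat_lit 2) (nat_lit 0) (.cons (.br (nat_lit 7) (nat_lit 0) (.cons (.ev (nat_lit 159076518196430942271655052034) (nat_lit 2)) .nil)) (.cons (.br (nat_lit 7) (nat_lit 0) (.cons (.zr (nat_lit 618970019858862919596901120) (nat_lit 1213666633123064686051329) (nat_lit 5) (nat_lit 0)) .nil)) .nil))) (.cons (.br (nat_lit 10) (nat_lit 1) (.cons (.br (nat_lit 7) (nat_lit 0) (.cons (.ev (nat_lit 20838866069273272957680405119748) (nat_lit 3)) .nil)) (.cons (.br (nat_lit 8) (nat_lit 1) (.cons (.ev (nat_lit 159076518196430942271655052034) (nat_lit 2)) .nil)) .nil))) (.cons (.br (nat_lit 8) (nat_lit 1) (.cons (.br (nat_lit 10) (nat_lit 1) (.cons (.zr (nat_lit 238303457562652438650148619008) (nat_lit 4840444091685477250236417) (nat_lit 5) (nat_lit 0)) .nil)) (.cons (.br (nat_lit 1) (nat_lit 0) (.cons (.ev (nat_lit 475989187124508048515443852548) (nat_lit 3)) .nil)) .nil))) .nil)))) .nil)))),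
 (.br (nat_lit 13) (nat_lit 0) (.cons (.rf (nat_lit 4593) (nat_lit 493858305440582043680)) (.cons (.rf (nat_lit 4595) (nat_lit 493858305440582043680)) (.cons (.br (nat_lit 7) (nat_lit 0) (.cons (.ev (nat_lit 20282410812577562377645457408001) (nat_lit 1)) (.cons (.br (nat_lit 8) (nat_lit 1) (.cons (.rf (nat_lit 4536) (nat_lit 458038990606830929952)) (.cons (.rf (nat_lit 4536) (nat_lit 458038990606830928960)) .nil))) .nil))) .nil)))),
 (.br (nat_lit 9) (nat_lit 1) (.cons (.rf (nat_lit 4585) (nat_lit 493858305440582043680)) (.cons (.rf (nat_lit 4591) (nat_lit 493858305440582043680)) (.cons (.br (nat_lit 13) (nat_lit 0) (.cons (.rf (nat_lit 4593) (nat_lit 493858305440582043680)) (.cons (.rf (nat_lit 4595) (nat_lit 493858305440582043680)) (.cons (.rf (nat_lit 4596) (nat_lit 493858305440582043680)) (.cons (.br (nat_lit 13) (nat_lit 0) (.cons (.rf (nat_lit 4593) (nat_lit 493858305440582043680)) (.cons (.rf (nat_lit 4595) (nat_lit 493858305440582043680)) (.cons (.rf (nat_lit 4596) (nat_lit 493858305440582043680))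 .nil)))) .nil))))) .nil))))]

theorem c172 : chkAll C T R L172 (nat_lit 4572) = true := by decide +kernel

theorem l172 : (nat_lit 4572) + L172.length = (nat_lit 4598) := by decide +kernel

/-- part of the certificates -/
def L173 : List Prf := [(.br (nat_lit 9) (nat_lit 1) (.cons (.rf (nat_lit 4585) (nat_lit 493858305440582043680)) (.cons (.rf (nat_lit 4591) (nat_lit 493858305440582043680)) (.cons (.rf (nat_lit 4597) (nat_lit 493858305440582043680)) (.cons (.br (nat_lit 9) (nat_lit 1) (.cons (.rf (nat_lit 4585) (nat_lit 493858305440582043680)) (.cons (.rf (nat_lit 4591) (nat_lit 493858305440582043680)) (.cons (.rf (nat_lit 4597) (nat_lit 493858305440582043680)) .nil)))) .nil))))),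
 (.br (nat_lit 13) (nat_lit 0) (.cons (.rf (nat_lit 4232) (nat_lit 458116643612319220800)) (.cons (.br (nat_lit 1) (nat_lit 0) (.cons (.br (nat_lit 8) (nat_lit 1) (.cons (.rf (nat_lit 3419) (nat_lit 493604770158142031904)) (.cons (.rf (nat_lit 4536) (nat_lit 493779557318295554080)) (.cons (.rf (nat_lit 4598) (nat_lit 458038990606830929952)) .nil)))) (.cons (.br (nat_lit 2) (nat_lit 0) (.cons (.br (nat_lit 8) (nat_lit 1) (.cons (.rf (nat_lit 4536) (nat_lit 493779557318295553088)) (.cons (.rf (nat_lit 4578) (nat_lit 458038990606830928960)) .nil))) (.cons (.br (nat_lit 8) (nat_lit 1) (.cons (.ev (nat_lit 20361948460101575722342518161665) (nat_lit 1)) (.cons (.ev (nat_lit 310693935713017296249159681) (nat_lit 1)) .nil))) .nil))) (.cons (.br (nat_lit 7) (nat_lit 0) (.cons (.rf (nat_lit 3497) (nat_lit 457830601270745039936)) (.cons (.br (nat_lit 2) (nat_lit 0) (.cons (.br (nat_lit 8) (nat_lit 1) (.cons (.ev (nat_lit 79538856468424381533696033025) (nat_lit 1)) .nil)) .nil)) .nil))) .nil))))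 (.cons (.br (nat_lit 2) (nat_lit 0) (.cons (.br (nat_lit 5) (nat_lit 0) (.cons (.rf (nat_lit 4536) (nat_lit 493779557318295553088)) (.cons (.kr (nat_lit 4722366482869645213696) (nat_lit 20282409603651670423947251286016) (nat_lit 9) (nat_lit 0)) (.cons (.br (nat_lit 1) (nat_lit 0) (.cons (.ev (nat_lit 20520715479084192944626667159810) (nat_lit 2)) (.cons (.ev (nat_lit 309489732188110517153366273) (nat_lit 1)) .nil))) .nil)))) (.cons (.br (nat_lit 5) (nat_lit 0) (.cons (.rf (nat_lit 3497) (nat_lit 493677003674038143008)) (.cons (.br (nat_lit 8) (nat_lit 1) (.cons (.ev (nat_lit 79538861172271781264912089345) (nat_lit 1)) (.cons (.ev (nat_lit 20282720302309749924113145659393) (nat_lit 1)) .nil))) .nil))) (.cons (.ev (nat_lit 20282410812577490320055697735681) (nat_lit 1)) .nil)))) .nil)))),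
 (.br (nat_lit 13) (nat_lit 0) (.cons (.rf (nat_lit 4232) (nat_lit 458116643612319220800)) (.cons (.rf (nat_lit 4599) (nat_lit 493858305440582043680)) (.cons (.br (nat_lit 9) (nat_lit 1) (.cons (.rf (nat_lit 656) (nat_lit 493820096243352832032)) (.cons (.rf (nat_lit 656) (nat_lit 493820096308784071744)) (.cons (.rf (nat_lit 656) (nat_lit 493820096105913878688)) (.cons (.rf (nat_lit 656) (nat_lit 493820096136985380064)) .nil))))) .nil)))),
 (.br (nat_lit 13) (nat_lit 0) (.cons (.rf (nat_lit 4232) (nat_lit 458116643612319220800)) (.cons (.rf (nat_lit 4599) (nat_lit 493858305440582043680)) (.cons (.rf (nat_lit 4600) (nat_lit 493858305440582043680)) (.cons (.br (nat_lit 13) (nat_lit 0) (.cons (.rf (nat_lit 4232) (nat_lit 458116643612319220800)) (.cons (.rf (nat_lit 4599) (nat_lit 493858305440582043680)) (.cons (.rf (nat_lit 4600) (nat_lit 493858305440582043680)) .nil)))) .nil))))),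
 (.br (nat_lit 7) (nat_lit 0) (.cons (.br (nat_lit 10) (nat_lit 1) (.cons (.rf (nat_lit 4152) (nat_lit 493604946075711539232)) (.cons (.br (nat_lit 1) (nat_lit 0) (.cons (.ev (nat_lit 1213666705180641544175873) (nat_lit 1)) .nil)) .nil))) (.cons (.ev (nat_lit 72057598349672449) (nat_lit 1)) (.cons (.br (nat_lit 5) (nat_lit 0) (.cons (.br (nat_lit 1) (nat_lit 0) (.cons (.ev (nat_lit 20837625739642616156081204036868) (nat_lit 3)) .nil)) (.cons (.kr (nat_lit 1213648186097498819919872) (nat_lit 20361637766165934761540795236352) (nat_lit 9) (nat_lit 0)) .nil))) .nil)))),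
 (.br (nat_lit 5) (nat_lit 0) (.cons (.br (nat_lit 7) (nat_lit 0) (.cons (.rf (nat_lit 3363) (nat_lit 493858305440481383456)) (.cons (.br (nat_lit 1) (nat_lit 0) (.cons (.ev (nat_lit 20837625739642616156081204036868) (nat_lit 3)) .nil)) .nil))) (.cons (.rf (nat_lit 4396) (nat_lit 14313680214007415872)) (.cons (.ev (nat_lit 79229371458530697395956613121) (nat_lit 1)) .nil)))),
 (.br (nat_lit 13) (nat_lit 0) (.cons (.rf (nat_lit 4232) (nat_lit 458116643612319220800)) (.cons (.br (nat_lit 12) (nat_lit 0) (.cons (.rf (nat_lit 4232) (nat_lit 493858305440582043680)) (.cons (.rf (nat_lit 4536) (nat_lit 493858305440582043680)) (.cons (.br (nat_lit 2) (nat_lit 0) (.cons (.rf (nat_lit 4602) (nat_lit 493858305440582043680)) (.cons (.rf (nat_lit 4603) (nat_lit 493858305440582043680)) (.cons (.br (nat_lit 8) (nat_lit 1) (.cons (.rf (nat_lit 4602) (nat_lit 458116643612319220800)) (.cons (.rf (nat_lit 4396) (nat_lit 14312555413612201024)) (.cons (.br (nat_lit 5) (nat_lit 0) (.cons (.zr (nat_lit 20440865928680199102432874266624)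 (nat_lit 309494473001054886053281793) (nat_lit 5) (nat_lit 0)) (.cons (.ev (nat_lit 20282409608392483651990134456321) (nat_lit 1)) .nil))) .nil)))) (.cons (.br (nat_lit 1) (nat_lit 0) (.cons (.rf (nat_lit 4603) (nat_lit 458116643612319220800)) (.cons (.rf (nat_lit 4602) (nat_lit 458116643612319220800)) (.cons (.br (nat_lit 4) (nat_lit 1) (.cons (.br (nat_lit 8) (nat_lit 1) (.cons (.ev (nat_lit 21155159815350176088748729370376) (nat_lit 4)) .nil)) (.cons (.rf (nat_lit 3504) (nat_lit 493675911860065503264)) .nil))) .nil)))) .nil))))) .nil)))) (.cons (.rf (nat_lit 4536) (nat_lit 458116643612319220800)) .nil)))),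
 (.br (nat_lit 13) (nat_lit 0) (.cons (.rf (nat_lit 4232) (nat_lit 458116643612319220800)) (.cons (.rf (nat_lit 4604) (nat_lit 458116643612319220800)) (.cons (.rf (nat_lit 4536) (nat_lit 458116643612319220800)) (.cons (.rf (nat_lit 4604) (nat_lit 493858305440582043680)) .nil))))),
 (.br (nat_lit 13) (nat_lit 0) (.cons (.rf (nat_lit 4601) (nat_lit 493858305440582043680)) (.cons (.rf (nat_lit 4536) (nat_lit 458116643612319220800)) (.cons (.br (nat_lit 2) (nat_lit 0) (.cons (.ev (nat_lit 20282410812577490320055697735681) (nat_lit 1)) (.cons (.br (nat_lit 8) (nat_lit 1) (.cons (.rf (nat_lit 3419) (nat_lit 493604770158142031904)) (.cons (.rf (nat_lit 4536) (nat_lit 493779557318295553088)) (.cons (.rf (nat_lit 4536) (nat_lit 458038990606830928960)) .nil)))) (.cons (.br (nat_lit 5) (nat_lit 0) (.cons (.br (nat_lit 7) (nat_lit 0) (.cons (.br (nat_lit 1) (nat_lit 0) (.cons (.ev (nat_lit 20679795609817556036399833481988) (nat_lit 3)) .nil)) .nil)) (.cons (.rf (nat_lit 3497) (nat_lit 493677003667601983520))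 .nil))) .nil)))) .nil)))),
 (.br (nat_lit 13) (nat_lit 0) (.cons (.rf (nat_lit 4601) (nat_lit 493858305440582043680)) (.cons (.rf (nat_lit 4604) (nat_lit 458116643612319220800)) (.cons (.rf (nat_lit 4606) (nat_lit 493858305440582043680)) (.cons (.br (nat_lit 13) (nat_lit 0) (.cons (.rf (nat_lit 4601) (nat_lit 493858305440582043680)) (.cons (.rf (nat_lit 4604) (nat_lit 493858305440582043680)) (.cons (.rf (nat_lit 4606) (nat_lit 493858305440582043680)) .nil)))) .nil))))),
 (.br (nat_lit 13) (nat_lit 0) (.cons (.rf (nat_lit 4601) (nat_lit 493858305440582043680)) (.cons (.rf (nat_lit 4536) (nat_lit 458116643612319220800)) (.cons (.rf (nat_lit 4607) (nat_lit 493858305440582043680)) (.cons (.br (nat_lit 13) (nat_lit 0) (.cons (.rf (nat_lit 4601) (nat_lit 493858305440582043680)) (.cons (.rf (nat_lit 4536) (nat_lit 458116643612319220800)) (.cons (.rf (nat_lit 4607) (nat_lit 493858305440582043680)) .nil)))) .nil))))),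
 (.br (nat_lit 13) (nat_lit 0) (.cons (.br (nat_lit 10) (nat_lit 1) (.cons (.br (nat_lit 9) (nat_lit 1) (.cons (.br (nat_lit 7) (nat_lit 0) (.cons (.ev (nat_lit 20838247099253343163058120622340) (nat_lit 3)) .nil)) (.cons (.br (nat_lit 11) (nat_lit 1) (.cons (.ev (nat_lit 79849564608202392076497715970) (nat_lit 2)) .nil)) .nil))) (.cons (.ev (nat_lit 18447026648197890049) (nat_lit 1)) (.cons (.br (nat_lit 2) (nat_lit 0) (.cons (.kr (nat_lit 20361637766165934761540795236608) (nat_lit 4722438540463699918848) (nat_lit 1) (nat_lit 0)) (.cons (.ev (nat_lit 20361947251175756388084496728321) (nat_lit 1)) .nil))) .nil)))) (.cons (.rf (nat_lit 3784) (nat_lit 457864203446677407776)) (.cons (.rf (nat_lit 4232) (nat_lit 457864203446677407776)) .nil)))),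
 (.br (nat_lit 9) (nat_lit 1) (.cons (.ev (nat_lit 79228167236630820467500974081) (nat_lit 1)) (.cons (.ev (nat_lit 20282720302309749924113145659393) (nat_lit 1)) .nil))),
 (.br (nat_lit 13) (nat_lit 0) (.cons (.br (nat_lit 9) (nat_lit 1) (.cons (.br (nat_lit 7) (nat_lit 0) (.cons (.kr (nat_lit 20520094091194463436727883137280) (nat_lit 2422574077769722049331200) (nat_lit 1) (nat_lit 0)) (.cons (.br (nat_lit 10) (nat_lit 1) (.cons (.ev (nat_lit 79538861172271781264912089345) (nat_lit 1)) .nil)) .nil))) (.cons (.br (nat_lit 10) (nat_lit 1) (.cons (.ev (nat_lit 1213648186378978091663361) (nat_lit 1)) (.cons (.br (nat_lit 2) (nat_lit 0) (.cons (.ev (nat_lit 79538856449977637459969769473) (nat_lit 1)) .nil)) .nil))) (.cons (.br (nat_lit 11) (nat_lit 1) (.cons (.ev (nat_lit 80156622266239815290993180930) (nat_lit 2)) (.cons (.br (nat_lit 10) (nat_lit 1) (.cons (.zr (nat_lit 238303457562652438650148619008) (nat_lit 4840444091685477250236417) (nat_lit 5) (nat_lit 0)) .nil)) .nil))) .nil))))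 (.cons (.br (nat_lit 7) (nat_lit 0) (.cons (.br (nat_lit 11) (nat_lit 1) (.cons (.br (nat_lit 5) (nat_lit 0) (.cons (.ev (nat_lit 20838863660792147374501370332420) (nat_lit 3)) .nil)) (.cons (.br (nat_lit 2) (nat_lit 0) (.cons (.ev (nat_lit 79538884876482882200402134788) (nat_lit 3)) .nil)) .nil))) (.cons (.br (nat_lit 2) (nat_lit 0) (.cons (.br (nat_lit 9) (nat_lit 1) (.cons (.ev (nat_lit 20838868496569502161190852559108) (nat_lit 3)) .nil)) .nil)) .nil))) (.cons (.br (nat_lit 7) (nat_lit 0) (.cons (.br (nat_lit 2) (nat_lit 0) (.cons (.br (nat_lit 5) (nat_lit 0) (.cons (.ev (nat_lit 79538861172271781264912089345) (nat_lit 1)) .nil)) (.cons (.rf (nat_lit 4610) (nat_lit 493858305440582043680)) .nil))) (.cons (.br (nat_lit 2) (nat_lit 0) (.cons (.br (nat_lit 5) (nat_lit 0) (.cons (.ev (nat_lit 20362878124131007203803863910148) (nat_lit 3)) .nil)) .nil)) .nil))) .nil)))),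
 (.br (nat_lit 9) (nat_lit 1) (.cons (.rf (nat_lit 3505) (nat_lit 493783892698006128672)) (.cons (.rf (nat_lit 3884) (nat_lit 493749123935951226912)) .nil))),
 (.br (nat_lit 7) (nat_lit 0) (.cons (.rf (nat_lit 4611) (nat_lit 493858305440582043680)) (.cons (.br (nat_lit 13) (nat_lit 0) (.cons (.br (nat_lit 9) (nat_lit 1) (.cons (.br (nat_lit 11) (nat_lit 1) (.cons (.ev (nat_lit 79538865950123458176321847554) (nat_lit 2)) .nil)) (.cons (.rf (nat_lit 3545) (nat_lit 493675700547674736864)) .nil))) (.cons (.ev (nat_lit 1213648258436567851335681) (nat_lit 1)) (.cons (.rf (nat_lit 4612) (nat_lit 493858305440582043680)) .nil)))) (.cons (.br (nat_lit 2) (nat_lit 0) (.cons (.br (nat_lit 13) (nat_lit 0) (.cons (.br (nat_lit 5) (nat_lit 0) (.cons (.ev (nat_lit 1213648186098602643357953) (nat_lit 1)) .nil)) (.cons (.br (nat_lit 9) (nat_lit 1) (.cons (.ev (nat_lit 20838868496569502161190852559108) (nat_lit 3)) .nil)) .nil))) (.cons (.br (nat_lit 10) (nat_lit 1) (.cons (.br (nat_lit 4) (nat_lit 1)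 (.cons (.ev (nat_lit 79538861172271781264912089345) (nat_lit 1)) .nil)) (.cons (.br (nat_lit 5) (nat_lit 0) (.cons (.ev (nat_lit 20520717906473158309039984411908) (nat_lit 3)) .nil)) .nil))) (.cons (.ev (nat_lit 79538856449977354885498208513) (nat_lit 1)) .nil)))) .nil)))),
 (.br (nat_lit 13) (nat_lit 0) (.cons (.br (nat_lit 5) (nat_lit 0) (.cons (.br (nat_lit 9) (nat_lit 1) (.cons (.kr (nat_lit 20283028573671385171678738776320) (nat_lit 79230580365903567951405056000) (nat_lit 1) (nat_lit 0)) .nil)) .nil)) (.cons (.br (nat_lit 5) (nat_lit 0) (.cons (.rf (nat_lit 3881) (nat_lit 493749123935951226912)) (.cons (.br (nat_lit 4) (nat_lit 1) (.cons (.kr (nat_lit 20361637766166006819134833164544) (nat_lit 2417851639230357861105664) (nat_lit 1) (nat_lit 0)) .nil)) .nil))) .nil))),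
 (.br (nat_lit 8) (nat_lit 1) (.cons (.rf (nat_lit 3419) (nat_lit 493604770158142031904)) (.cons (.rf (nat_lit 4536) (nat_lit 493779557318295554080)) (.cons (.br (nat_lit 13) (nat_lit 0) (.cons (.rf (nat_lit 4609) (nat_lit 493858305440582043680)) (.cons (.br (nat_lit 13) (nat_lit 0) (.cons (.rf (nat_lit 4609) (nat_lit 493858305440582043680)) (.cons (.rf (nat_lit 3784) (nat_lit 457864203446677407776)) (.cons (.rf (nat_lit 4232) (nat_lit 457864203446677407776)) .nil)))) (.cons (.rf (nat_lit 3784) (nat_lit 457864203446677407776)) (.cons (.rf (nat_lit 4232) (nat_lit 457864203446677407776)) .nil))))) (.cons (.br (nat_lit 7) (nat_lit 0) (.cons (.rf (nat_lit 4611) (nat_lit 493858305440582043680)) (.cons (.rf (nat_lit 4613) (nat_lit 493858305440582043680)) (.cons (.br (nat_lit 7) (nat_lit 0) (.cons (.rf (nat_lit 4611) (nat_lit 493858305440582043680)) (.cons (.rf (nat_lit 4613) (nat_lit 493858305440582043680)) (.cons (.rf (nat_lit 4614) (nat_lit 493858305440582043680)) .nil)))) (.cons (.br (nat_lit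 7) (nat_lit 0) (.cons (.rf (nat_lit 4611) (nat_lit 493858305440582043680)) (.cons (.rf (nat_lit 4613) (nat_lit 493858305440582043680)) (.cons (.rf (nat_lit 4614) (nat_lit 493858305440582043680)) .nil)))) .nil))))) .nil))))),
 (.br (nat_lit 13) (nat_lit 0) (.cons (.br (nat_lit 9) (nat_lit 1) (.cons (.br (nat_lit 11) (nat_lit 1) (.cons (.br (nat_lit 7) (nat_lit 0) (.cons (.zr (nat_lit 36893491454544117760) (nat_lit 310698658008568467468320769) (nat_lit 5) (nat_lit 0)) .nil)) (.cons (.ev (nat_lit 20361947255898194928552474836993) (nat_lit 1)) .nil))) (.cons (.rf (nat_lit 4396) (nat_lit 14313678014984225856)) (.cons (.br (nat_lit 1) (nat_lit 0) (.cons (.br (nat_lit 5) (nat_lit 0) (.cons (.zr (nat_lit 36893491454544117760) (nat_lit 310698658008568467468320769) (nat_lit 5) (nat_lit 0)) .nil)) (.cons (.ev (nat_lit 20282719093402377053553368760321) (nat_lit 1)) .nil))) .nil)))) (.cons (.rf (nat_lit 3784) (nat_lit 457864203446677406784)) (.cons (.rf (nat_lit 4232) (nat_lit 457864203446677406784))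 .nil)))),
 (.br (nat_lit 13) (nat_lit 0) (.cons (.rf (nat_lit 4026) (nat_lit 493787340761102125088)) (.cons (.rf (nat_lit 3887) (nat_lit 493784062017434388512)) .nil))),
 (.br (nat_lit 7) (nat_lit 0) (.cons (.br (nat_lit 9) (nat_lit 1) (.cons (.br (nat_lit 11) (nat_lit 1) (.cons (.ev (nat_lit 20678552834148780299802980321028) (nat_lit 3)) .nil)) (.cons (.ev (nat_lit 1213648258436567851335681) (nat_lit 1)) .nil))) (.cons (.rf (nat_lit 4617) (nat_lit 493858305440582043680)) .nil))),
 (.br (nat_lit 7) (nat_lit 0) (.cons (.rf (nat_lit 4618) (nat_lit 493858305440582043680)) (.cons (.br (nat_lit 13) (nat_lit 0) (.cons (.br (nat_lit 1) (nat_lit 0) (.cons (.zr (nat_lit 618970019642693435984642048) (nat_lit 1213666633123051817926657) (nat_lit 5) (nat_lit 0)) .nil)) .nil)) .nil))),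
 (.br (nat_lit 13) (nat_lit 0) (.cons (.br (nat_lit 1) (nat_lit 0) (.cons (.br (nat_lit 10) (nat_lit 1) (.cons (.zr (nat_lit 36893491454544117760) (nat_lit 310698658008568467468320769) (nat_lit 5) (nat_lit 0)) .nil)) (.cons (.br (nat_lit 9) (nat_lit 1) (.cons (.zr (nat_lit 36893491454544117760) (nat_lit 310698658008568467468320769) (nat_lit 5) (nat_lit 0)) .nil)) .nil))) (.cons (.br (nat_lit 1) (nat_lit 0) (.cons (.br (nat_lit 9) (nat_lit 1) (.cons (.zr (nat_lit 36893491454544117760) (nat_lit 310698658008568467468320769) (nat_lit 5) (nat_lit 0)) .nil)) .nil)) .nil))),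
 (.br (nat_lit 7) (nat_lit 0) (.cons (.rf (nat_lit 4620) (nat_lit 493858305440582043680)) (.cons (.br (nat_lit 13) (nat_lit 0) (.cons (.br (nat_lit 9) (nat_lit 1) (.cons (.ev (nat_lit 20679790774114277577865954526980) (nat_lit 3)) .nil)) (.cons (.ev (nat_lit 1213648258436567851335681) (nat_lit 1)) .nil))) .nil)))]

theorem c173 : chkAll C T R L173 (nat_lit 4598) = true := by decide +kernel

theorem l173 : (nat_lit 4598) + L173.length = (nat_lit 4622) := by decide +kernel

/-- part of the certificates -/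
def L174 : List Prf := [(.br (nat_lit 8) (nat_lit 1) (.cons (.rf (nat_lit 3419) (nat_lit 493604770158142031904)) (.cons (.rf (nat_lit 4536) (nat_lit 493779557318295553088)) (.cons (.br (nat_lit 13) (nat_lit 0) (.cons (.rf (nat_lit 4616) (nat_lit 493858305440582043680)) (.cons (.br (nat_lit 13) (nat_lit 0) (.cons (.rf (nat_lit 4616) (nat_lit 493858305440582043680)) (.cons (.rf (nat_lit 3784) (nat_lit 457864203446677406784)) (.cons (.rf (nat_lit 4232) (nat_lit 457864203446677406784)) .nil)))) (.cons (.rf (nat_lit 3784) (nat_lit 457864203446677406784)) (.cons (.rf (nat_lit 4232) (nat_lit 457864203446677406784)) .nil))))) (.cons (.br (nat_lit 5) (nat_lit 0) (.cons (.br (nat_lit 7) (nat_lit 0) (.cons (.rf (nat_lit 4618) (nat_lit 493858305440582043680)) (.cons (.rf (nat_lit 4619) (nat_lit 493858305440582043680)) (.cons (.br (nat_lit 7) (nat_lit 0) (.cons (.rf (nat_lit 4617) (nat_lit 493858305440582043680)) (.cons (.rf (nat_lit 4619) (nat_lit 493858305440582043680)) .nil))) .nil)))) (.cons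 (.rf (nat_lit 4025) (nat_lit 493787340761102125088)) (.cons (.ev (nat_lit 79229371458530697395956613121) (nat_lit 1)) (.cons (.br (nat_lit 7) (nat_lit 0) (.cons (.rf (nat_lit 4620) (nat_lit 493858305440582043680)) (.cons (.rf (nat_lit 4621) (nat_lit 493858305440582043680)) (.cons (.br (nat_lit 7) (nat_lit 0) (.cons (.rf (nat_lit 4620) (nat_lit 493858305440582043680)) (.cons (.rf (nat_lit 4621) (nat_lit 493858305440582043680)) .nil))) .nil)))) .nil))))) .nil))))),
 (.br (nat_lit 9) (nat_lit 1) (.cons (.rf (nat_lit 2725) (nat_lit 493679076253456697376)) (.cons (.br (nat_lit 4) (nat_lit 1) (.cons (.br (nat_lit 10) (nat_lit 1) (.cons (.br (nat_lit 13) (nat_lit 0) (.cons (.ev (nat_lit 158768242112573892160567443714) (nat_lit 2)) .nil)) .nil)) (.cons (.rf (nat_lit 4559) (nat_lit 493858305440582042688)) .nil))) (.cons (.br (nat_lit 4) (nat_lit 1) (.cons (.br (nat_lit 13) (nat_lit 0) (.cons (.rf (nat_lit 3540) (nat_lit 493677003674038143008)) (.cons (.br (nat_lit 10) (nat_lit 1) (.cons (.ev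 (nat_lit 20838249517068233584523316758276) (nat_lit 3)) .nil)) .nil))) (.cons (.br (nat_lit 11) (nat_lit 1) (.cons (.br (nat_lit 13) (nat_lit 0) (.cons (.ev (nat_lit 20838863660792147374501370332420) (nat_lit 3)) .nil)) (.cons (.ev (nat_lit 20361947255898194928552474836993) (nat_lit 1)) .nil))) (.cons (.rf (nat_lit 3545) (nat_lit 493676827546019432672)) .nil)))) .nil)))),
 (.br (nat_lit 9) (nat_lit 1) (.cons (.rf (nat_lit 4623) (nat_lit 493858305440582043680)) (.cons (.rf (nat_lit 3543) (nat_lit 493677003674038143008)) (.cons (.br (nat_lit 10) (nat_lit 1) (.cons (.ev (nat_lit 79228167236702879156738720001) (nat_lit 1)) (.cons (.br (nat_lit 4) (nat_lit 1) (.cons (.br (nat_lit 11) (nat_lit 1) (.cons (.zr (nat_lit 618970019858862919596901120) (nat_lit 1213666633123064686051329) (nat_lit 5) (nat_lit 0)) .nil)) (.cons (.br (nat_lit 11) (nat_lit 1) (.cons (.ev (nat_lit 158769441575141455708687433986) (nat_lit 2)) .nil)) .nil))) (.cons (.br (nat_lit 2) (nat_lit 0) (.cons (.br (nat_lit 1) (nat_lit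 0) (.cons (.ev (nat_lit 313125954595812550616547586) (nat_lit 2)) .nil)) (.cons (.br (nat_lit 4) (nat_lit 1) (.cons (.ev (nat_lit 20838868496569501035291012825348) (nat_lit 3)) .nil)) .nil))) .nil)))) .nil)))),
 (.br (nat_lit 2) (nat_lit 0) (.cons (.kr (nat_lit 20361637766166006819134833164544) (nat_lit 618970019642691236961255424) (nat_lit 1) (nat_lit 0)) .nil)),
 (.br (nat_lit 9) (nat_lit 1) (.cons (.rf (nat_lit 4396) (nat_lit 14312552115077416000)) (.cons (.br (nat_lit 11) (nat_lit 1) (.cons (.ev (nat_lit 20361947251175756107709048422401) (nat_lit 1)) (.cons (.rf (nat_lit 4625) (nat_lit 493858305440582043680)) .nil))) .nil))),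
 (.br (nat_lit 13) (nat_lit 0) (.cons (.rf (nat_lit 3706) (nat_lit 493679253268392413216)) (.cons (.br (nat_lit 7) (nat_lit 0) (.cons (.rf (nat_lit 4610) (nat_lit 493858305440582043680)) .nil)) .nil))),
 (.br (nat_lit 7) (nat_lit 0) (.cons (.rf (nat_lit 4627) (nat_lit 493858305440582043680)) (.cons (.br (nat_lit 13) (nat_lit 0) (.cons (.br (nat_lit 1) (nat_lit 0) (.cons (.zr (nat_lit 237993972589507845996775736064) (nat_lit 1213648330494166184230913) (nat_lit 5) (nat_lit 10)) .nil)) (.cons (.rf (nat_lit 3706) (nat_lit 493671371976560707616)) .nil))) .nil))),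
 (.br (nat_lit 13) (nat_lit 0) (.cons (.br (nat_lit 9) (nat_lit 1) (.cons (.kr (nat_lit 20361637766166006819134833164544) (nat_lit 618970019642691236961255424) (nat_lit 1) (nat_lit 0)) .nil)) .nil)),
 (.br (nat_lit 8) (nat_lit 1) (.cons (.rf (nat_lit 4536) (nat_lit 493779557318295554080)) (.cons (.rf (nat_lit 4536) (nat_lit 493779557318295553088)) (.cons (.br (nat_lit 9) (nat_lit 1) (.cons (.rf (nat_lit 4623) (nat_lit 493858305440582043680)) (.cons (.br (nat_lit 9) (nat_lit 1) (.cons (.rf (nat_lit 2725) (nat_lit 493679076253456697376)) (.cons (.rf (nat_lit 3543) (nat_lit 493677003674038143008)) (.cons (.rf (nat_lit 4025) (nat_lit 493751347148455249952)) .nil)))) (.cons (.rf (nat_lit 4624) (nat_lit 493858305440582043680)) (.cons (.br (nat_lit 9) (nat_lit 1) (.cons (.rf (nat_lit 4623) (nat_lit 493858305440582043680)) (.cons (.rf (nat_lit 4025) (nat_lit 493751347148455249952)) (.cons (.rf (nat_lit 4624) (nat_lit 493858305440582043680)) .nil)))) .nil))))) (.cons (.br (nat_lit 10) (nat_lit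 1) (.cons (.br (nat_lit 9) (nat_lit 1) (.cons (.rf (nat_lit 3863) (nat_lit 493784062017434388512)) (.cons (.rf (nat_lit 4626) (nat_lit 493858305440582043680)) (.cons (.br (nat_lit 9) (nat_lit 1) (.cons (.rf (nat_lit 3863) (nat_lit 493784062017434388512)) (.cons (.rf (nat_lit 4626) (nat_lit 493858305440582043680)) .nil))) .nil)))) (.cons (.br (nat_lit 7) (nat_lit 0) (.cons (.rf (nat_lit 4627) (nat_lit 493858305440582043680)) (.cons (.rf (nat_lit 4628) (nat_lit 493858305440582043680)) (.cons (.br (nat_lit 7) (nat_lit 0) (.cons (.rf (nat_lit 4627) (nat_lit 493858305440582043680)) (.cons (.rf (nat_lit 4628) (nat_lit 493858305440582043680)) .nil))) .nil)))) (.cons (.br (nat_lit 2) (nat_lit 0) (.cons (.br (nat_lit 7) (nat_lit 0) (.cons (.br (nat_lit 9) (nat_lit 1) (.cons (.br (nat_lit 11) (nat_lit 1) (.cons (.ev (nat_lit 20837006741325669745731718809348) (nat_lit 3)) .nil)) (.cons (.ev (nat_lit 1213648258436567851335681) (nat_lit 1)) .nil))) (.cons (.rf (nat_lit 4629) (nat_lit 493858305440582043680))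 .nil))) (.cons (.br (nat_lit 1) (nat_lit 0) (.cons (.rf (nat_lit 3863) (nat_lit 493784068614497863712)) (.cons (.rf (nat_lit 2725) (nat_lit 493679076253456697376)) (.cons (.rf (nat_lit 3863) (nat_lit 493784026833063348256)) .nil)))) (.cons (.br (nat_lit 9) (nat_lit 1) (.cons (.br (nat_lit 4) (nat_lit 1) (.cons (.ev (nat_lit 309485009893402662779552001) (nat_lit 1)) (.cons (.ev (nat_lit 20361947251175756388084496728321) (nat_lit 1)) .nil))) (.cons (.ev (nat_lit 309485009893685237251112961) (nat_lit 1)) (.cons (.ev (nat_lit 20361947251175756107709048422401) (nat_lit 1)) .nil)))) .nil)))) (.cons (.kr (nat_lit 18446744073709551616) (nat_lit 20282409603651670423947251286016) (nat_lit 8) (nat_lit 0)) .nil))))) .nil))))),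
 (.br (nat_lit 8) (nat_lit 1) (.cons (.rf (nat_lit 4615) (nat_lit 493858305440582043680)) (.cons (.rf (nat_lit 4622) (nat_lit 493858305440582043680)) (.cons (.rf (nat_lit 4630) (nat_lit 493858305440582043680)) (.cons (.br (nat_lit 2) (nat_lit 0) (.cons (.br (nat_lit 7) (nat_lit 0) (.cons (.br (nat_lit 5) (nat_lit 0) (.cons (.br (nat_lit 11) (nat_lit 1) (.cons (.ev (nat_lit 80156631710972501754313244930) (nat_lit 2)) (.cons (.ev (nat_lit 20361947255898194647077514903553) (nat_lit 1)) .nil))) (.cons (.ev (nat_lit 79231789328832844613936021506) (nat_lit 2)) (.cons (.br (nat_lit 9) (nat_lit 1) (.cons (.ev (nat_lit 309489787673021975873389314) (nat_lit 2)) (.cons (.ev (nat_lit 20282719093402377335028362248193) (nat_lit 1)) .nil))) .nil)))) (.cons (.br (nat_lit 13) (nat_lit 0) (.cons (.br (nat_lit 1) (nat_lit 0) (.cons (.br (nat_lit 5) (nat_lit 0) (.cons (.zr (nat_lit 2417888532720712893530112) (nat_lit 237993977274981966618925465601) (nat_lit 5) (nat_lit 0)) .nil)) (.cons (.rf (nat_lit 3868)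 (nat_lit 15429688812278745120)) .nil))) (.cons (.rf (nat_lit 3886) (nat_lit 15429688812278745120)) .nil))) (.cons (.br (nat_lit 5) (nat_lit 0) (.cons (.br (nat_lit 9) (nat_lit 1) (.cons (.ev (nat_lit 309489787673021975873389314) (nat_lit 2)) (.cons (.ev (nat_lit 20361947255898194647077514903553) (nat_lit 1)) .nil))) (.cons (.ev (nat_lit 158457534009761426255433105410) (nat_lit 2)) .nil))) .nil)))) (.cons (.br (nat_lit 9) (nat_lit 1) (.cons (.rf (nat_lit 3419) (nat_lit 493675700753833166880)) (.cons (.rf (nat_lit 3784) (nat_lit 493675700753833165888)) (.cons (.br (nat_lit 5) (nat_lit 0) (.cons (.br (nat_lit 11) (nat_lit 1) (.cons (.br (nat_lit 13) (nat_lit 0) (.cons (.zr (nat_lit 309485046715114699710530304) (nat_lit 3631499825326757186240513) (nat_lit 5) (nat_lit 3)) .nil)) (.cons (.ev (nat_lit 20361947255898194647077514903553) (nat_lit 1)) .nil))) (.cons (.br (nat_lit 1) (nat_lit 0) (.cons (.br (nat_lit 13) (nat_lit 0) (.cons (.zr (nat_lit 618970019858862919596901120) (nat_lit 1213666633123064686051329)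 (nat_lit 5) (nat_lit 0)) .nil)) (.cons (.br (nat_lit 13) (nat_lit 0) (.cons (.zr (nat_lit 2417888532717414358647552) (nat_lit 1237944761652989044467957761) (nat_lit 5) (nat_lit 0)) .nil)) .nil))) (.cons (.br (nat_lit 1) (nat_lit 0) (.cons (.ev (nat_lit 309489787673021975873389314) (nat_lit 2)) (.cons (.ev (nat_lit 79229376180897180265585115393) (nat_lit 1)) .nil))) .nil)))) (.cons (.br (nat_lit 1) (nat_lit 0) (.cons (.br (nat_lit 7) (nat_lit 0) (.cons (.kr (nat_lit 20361637766165934761540795236608) (nat_lit 4722438540463699918848) (nat_lit 1) (nat_lit 0)) (.cons (.br (nat_lit 5) (nat_lit 0) (.cons (.ev (nat_lit 79538856505318433730613936130) (nat_lit 2)) .nil)) .nil))) (.cons (.br (nat_lit 11) (nat_lit 1) (.cons (.ev (nat_lit 121694457626706177699394550301700) (nat_lit 3)) (.cons (.br (nat_lit 5) (nat_lit 0) (.cons (.ev (nat_lit 309489732187829042193432833) (nat_lit 1)) .nil)) .nil))) (.cons (.br (nat_lit 7) (nat_lit 0) (.cons (.ev (nat_lit 20361637766184381505618799755521) (nat_lit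 1)) (.cons (.rf (nat_lit 3869) (nat_lit 493749123935951226912)) .nil))) .nil)))) .nil))))) (.cons (.br (nat_lit 1) (nat_lit 0) (.cons (.br (nat_lit 7) (nat_lit 0) (.cons (.br (nat_lit 5) (nat_lit 0) (.cons (.br (nat_lit 11) (nat_lit 1) (.cons (.zr (nat_lit 618970019858862919596901120) (nat_lit 1213666633123064686051329) (nat_lit 5) (nat_lit 0)) .nil)) (.cons (.br (nat_lit 9) (nat_lit 1) (.cons (.ev (nat_lit 79537652264899192180128678145) (nat_lit 1)) .nil)) .nil))) (.cons (.ev (nat_lit 1208925891672223229477121) (nat_lit 1)) .nil))) (.cons (.br (nat_lit 11) (nat_lit 1) (.cons (.br (nat_lit 7) (nat_lit 0) (.cons (.br (nat_lit 9) (nat_lit 1) (.cons (.zr (nat_lit 238303457562652438650148619008) (nat_lit 4840444091685477250236417) (nat_lit 5) (nat_lit 0)) .nil)) (.cons (.ev (nat_lit 79229376180897180265585115393) (nat_lit 1)) .nil))) (.cons (.ev (nat_lit 79538856449977354885498208513) (nat_lit 1)) (.cons (.br (nat_lit 9) (nat_lit 1) (.cons (.rf (nat_lit 3784) (nat_lit 493675700753833166880))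 (.cons (.br (nat_lit 4) (nat_lit 1) (.cons (.ev (nat_lit 20678552834148636184623460976388) (nat_lit 3)) .nil)) .nil))) .nil)))) (.cons (.br (nat_lit 7) (nat_lit 0) (.cons (.ev (nat_lit 1208925891672223229477121) (nat_lit 1)) (.cons (.br (nat_lit 9) (nat_lit 1) (.cons (.br (nat_lit 13) (nat_lit 0) (.cons (.ev (nat_lit 1213648186378978091663361) (nat_lit 1)) .nil)) (.cons (.br (nat_lit 5) (nat_lit 0) (.cons (.ev (nat_lit 1213648186378978091663361) (nat_lit 1)) .nil)) .nil))) .nil))) .nil)))) (.cons (.br (nat_lit 5) (nat_lit 0) (.cons (.br (nat_lit 7) (nat_lit 0) (.cons (.br (nat_lit 10) (nat_lit 1) (.cons (.br (nat_lit 9) (nat_lit 1) (.cons (.zr (nat_lit 618970019858866218131783680) (nat_lit 1213666633123064686051329) (nat_lit 5) (nat_lit 0)) .nil)) (.cons (.br (nat_lit 1) (nat_lit 0) (.cons (.zr (nat_lit 618970019858866218131783680) (nat_lit 1213666633123064686051329) (nat_lit 5) (nat_lit 0)) .nil)) .nil))) (.cons (.br (nat_lit 9) (nat_lit 1) (.cons (.ev (nat_lit 79538856449977354885498208513)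 (nat_lit 1)) (.cons (.ev (nat_lit 20282720297587311384744679178241) (nat_lit 1)) .nil))) .nil))) (.cons (.br (nat_lit 1) (nat_lit 0) (.cons (.br (nat_lit 7) (nat_lit 0) (.cons (.br (nat_lit 10) (nat_lit 1) (.cons (.ev (nat_lit 80160258506806312488400978434) (nat_lit 2)) .nil)) (.cons (.ev (nat_lit 309485009893685237251112961) (nat_lit 1)) .nil))) (.cons (.rf (nat_lit 3784) (nat_lit 493675700753833166880)) (.cons (.br (nat_lit 13) (nat_lit 0) (.cons (.br (nat_lit 9) (nat_lit 1) (.cons (.ev (nat_lit 79229404570437156354342191620) (nat_lit 3)) .nil)) (.cons (.ev (nat_lit 4740813509517859946753) (nat_lit 1)) .nil))) .nil)))) (.cons (.br (nat_lit 7) (nat_lit 0) (.cons (.ev (nat_lit 159076503992510065304100077570) (nat_lit 2)) (.cons (.ev (nat_lit 309485009893685237251112961) (nat_lit 1)) .nil))) .nil)))) .nil))))) .nil))))),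
 (.br (nat_lit 6) (nat_lit 1) (.cons (.rf (nat_lit 3419) (nat_lit 493787200025760303136)) (.cons (.rf (nat_lit 4598) (nat_lit 493858305440582043680)) (.cons (.br (nat_lit 13) (nat_lit 0) (.cons (.rf (nat_lit 4601) (nat_lit 493858305440582043680)) (.cons (.rf (nat_lit 4605) (nat_lit 493858305440582043680)) (.cons (.rf (nat_lit 4607) (nat_lit 493858305440582043680)) (.cons (.rf (nat_lit 4608) (nat_lit 493858305440582043680)) (.cons (.br (nat_lit 13) (nat_lit 0) (.cons (.rf (nat_lit 4601) (nat_lit 493858305440582043680)) (.cons (.rf (nat_lit 4604) (nat_lit 493858305440582043680)) (.cons (.rf (nat_lit 4607) (nat_lit 493858305440582043680)) (.cons (.rf (nat_lit 4608) (nat_lit 493858305440582043680)) .nil))))) .nil)))))) (.cons (.br (nat_lit 8) (nat_lit 1) (.cons (.rf (nat_lit 4615) (nat_lit 493858305440582043680)) (.cons (.rf (nat_lit 4622) (nat_lit 493858305440582043680)) (.cons (.rf (nat_lit 4630) (nat_lit 493858305440582043680)) (.cons (.rf (nat_lit 4631) (nat_lit 493858305440582043680))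 (.cons (.br (nat_lit 8) (nat_lit 1) (.cons (.rf (nat_lit 4615) (nat_lit 493858305440582043680)) (.cons (.rf (nat_lit 4622) (nat_lit 493858305440582043680)) (.cons (.rf (nat_lit 4630) (nat_lit 493858305440582043680)) (.cons (.rf (nat_lit 4631) (nat_lit 493858305440582043680)) .nil))))) .nil)))))) .nil))))),
 (.br (nat_lit 9) (nat_lit 1) (.cons (.br (nat_lit 11) (nat_lit 1) (.cons (.ev (nat_lit 309499232477199780431266306) (nat_lit 2)) (.cons (.br (nat_lit 13) (nat_lit 0) (.cons (.br (nat_lit 2) (nat_lit 0) (.cons (.ev (nat_lit 310693935713017296249159681) (nat_lit 1)) .nil)) (.cons (.rf (nat_lit 4536) (nat_lit 458038990606830929952)) .nil))) .nil))) .nil)),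
 (.br (nat_lit 9) (nat_lit 1) (.cons (.br (nat_lit 4) (nat_lit 1) (.cons (.ev (nat_lit 72057598349672449) (nat_lit 1)) (.cons (.br (nat_lit 13) (nat_lit 0) (.cons (.ev (nat_lit 1213666632842676336066561) (nat_lit 1)) (.cons (.rf (nat_lit 3784) (nat_lit 457935134042368541760)) .nil))) .nil))) (.cons (.br (nat_lit 4) (nat_lit 1) (.cons (.br (nat_lit 11) (nat_lit 1) (.cons (.ev (nat_lit 79537652246524224229758533633) (nat_lit 1)) (.cons (.rf (nat_lit 3540) (nat_lit 493783892698006128672)) .nil))) (.cons (.br (nat_lit 2) (nat_lit 0) (.cons (.br (nat_lit 11) (nat_lit 1) (.cons (.ev (nat_lit 20997943829507862314718686284552) (nat_lit 4)) .nil)) (.cons (.ev (nat_lit 79537647524157740260618403841) (nat_lit 1)) .nil))) (.cons (.br (nat_lit 7) (nat_lit 0) (.cons (.ev (nat_lit 1213666632842676336066561) (nat_lit 1)) (.cons (.br (nat_lit 10) (nat_lit 1) (.cons (.ev (nat_lit 79538856449977354885498208513) (nat_lit 1)) .nil)) .nil))) .nil)))) .nil))),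
 (.br (nat_lit 4) (nat_lit 1) (.cons (.ev (nat_lit 72057598349672449) (nat_lit 1)) (.cons (.br (nat_lit 9) (nat_lit 1) (.cons (.rf (nat_lit 4634) (nat_lit 493858305440582043680)) (.cons (.br (nat_lit 2) (nat_lit 0) (.cons (.ev (nat_lit 1213666632842676336066561) (nat_lit 1)) (.cons (.rf (nat_lit 4588) (nat_lit 493858305268783356960)) .nil))) .nil))) .nil))),
 (.br (nat_lit 8) (nat_lit 1) (.cons (.rf (nat_lit 3419) (nat_lit 493604770158142031904)) (.cons (.br (nat_lit 9) (nat_lit 1) (.cons (.rf (nat_lit 4633) (nat_lit 493858305440582043680)) (.cons (.br (nat_lit 9) (nat_lit 1) (.cons (.rf (nat_lit 4633) (nat_lit 493858305440582043680)) .nil)) .nil))) (.cons (.br (nat_lit 9) (nat_lit 1) (.cons (.rf (nat_lit 4634) (nat_lit 493858305440582043680)) (.cons (.rf (nat_lit 4635) (nat_lit 493858305440582043680)) (.cons (.br (nat_lit 9) (nat_lit 1) (.cons (.rf (nat_lit 4634) (nat_lit 493858305440582043680)) (.cons (.rf (nat_lit 4635) (nat_lit 493858305440582043680)) .nil))) .nil)))) .nil)))),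
 (.br (nat_lit 4) (nat_lit 1) (.cons (.zr (nat_lit 928455029464598156127961088) (nat_lit 1218370624639066309656577) (nat_lit 5) (nat_lit 10)) (.cons (.ev (nat_lit 310693935713017296249159681) (nat_lit 1)) .nil))),
 (.br (nat_lit 9) (nat_lit 1) (.cons (.rf (nat_lit 2725) (nat_lit 493751131648471369760)) (.cons (.rf (nat_lit 4184) (nat_lit 493858305440582043680)) (.cons (.br (nat_lit 10) (nat_lit 1) (.cons (.br (nat_lit 11) (nat_lit 1) (.cons (.ev (nat_lit 79538856449977354885498208513) (nat_lit 1)) (.cons (.br (nat_lit 4) (nat_lit 1) (.cons (.ev (nat_lit 20680407345282571552078762018564) (nat_lit 3)) .nil)) .nil))) (.cons (.ev (nat_lit 1213648258437667362963713) (nat_lit 1)) (.cons (.br (nat_lit 4) (nat_lit 1) (.cons (.rf (nat_lit 3540) (nat_lit 493748990899331893280)) (.cons (.ev (nat_lit 1213666632842676336066561) (nat_lit 1)) .nil))) .nil)))) .nil))))]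

theorem c174 : chkAll C T R L174 (nat_lit 4622) = true := by decide +kernel

theorem l174 : (nat_lit 4622) + L174.length = (nat_lit 4639) := by decide +kernel

/-- part of the certificates -/
def L175 : List Prf := [(.br (nat_lit 9) (nat_lit 1) (.cons (.rf (nat_lit 4184) (nat_lit 493858305440582043680)) (.cons (.rf (nat_lit 3543) (nat_lit 493748990899331893280)) (.cons (.br (nat_lit 4) (nat_lit 1) (.cons (.br (nat_lit 10) (nat_lit 1) (.cons (.ev (nat_lit 79229371440156291296028262401) (nat_lit 1)) (.cons (.ev (nat_lit 1213666632842676336066561) (nat_lit 1)) .nil))) (.cons (.ev (nat_lit 72057598349672449) (nat_lit 1)) (.cons (.ev (nat_lit 79228167255077847115698798593) (nat_lit 1)) .nil)))) .nil)))),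
 (.br (nat_lit 8) (nat_lit 1) (.cons (.rf (nat_lit 3419) (nat_lit 493604770158142031904)) (.cons (.br (nat_lit 1) (nat_lit 0) (.cons (.rf (nat_lit 4046) (nat_lit 493787340761102125088)) (.cons (.br (nat_lit 9) (nat_lit 1) (.cons (.rf (nat_lit 795) (nat_lit 15067954478876704)) (.cons (.br (nat_lit 11) (nat_lit 1) (.cons (.br (nat_lit 4) (nat_lit 1) (.cons (.rf (nat_lit 4582) (nat_lit 493858305268783356960)) .nil)) (.cons (.br (nat_lit 10) (nat_lit 1) (.cons (.rf (nat_lit 4637) (nat_lit 493858305440582043680)) (.cons (.rf (nat_lit 4536) (nat_lit 458038990606830928960)) .nil))) .nil))) .nil))) (.cons (.rf (nat_lit 4046) (nat_lit 493787334164038649888)) (.cons (.rf (nat_lit 4046) (nat_lit 493786208264132855840)) .nil))))) (.cons (.br (nat_lit 9) (nat_lit 1) (.cons (.rf (nat_lit 4638) (nat_lit 493858305440582043680)) (.cons (.br (nat_lit 9) (nat_lit 1) (.cons (.rf (nat_lit 2725) (nat_lit 493751131648471369760)) (.cons (.rf (nat_lit 3543) (nat_lit 493748990899331893280)) (.cons (.rf (nat_lit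 4025) (nat_lit 493679289556564805664)) .nil)))) (.cons (.rf (nat_lit 4639) (nat_lit 493858305440582043680)) (.cons (.br (nat_lit 9) (nat_lit 1) (.cons (.rf (nat_lit 4638) (nat_lit 493858305440582043680)) (.cons (.rf (nat_lit 4025) (nat_lit 493679289556564805664)) (.cons (.rf (nat_lit 4639) (nat_lit 493858305440582043680)) .nil)))) .nil))))) .nil)))),
 (.br (nat_lit 9) (nat_lit 1) (.cons (.rf (nat_lit 3419) (nat_lit 493675700753833166880)) (.cons (.br (nat_lit 10) (nat_lit 1) (.cons (.br (nat_lit 13) (nat_lit 0) (.cons (.ev (nat_lit 1213666632842676336066561) (nat_lit 1)) (.cons (.rf (nat_lit 4637) (nat_lit 493858305440582043680)) .nil))) (.cons (.br (nat_lit 4) (nat_lit 1) (.cons (.ev (nat_lit 1213666632842676336066561) (nat_lit 1)) .nil)) .nil))) .nil))),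
 (.br (nat_lit 9) (nat_lit 1) (.cons (.rf (nat_lit 3419) (nat_lit 493675700753833166880)) (.cons (.br (nat_lit 4) (nat_lit 1) (.cons (.br (nat_lit 10) (nat_lit 1) (.cons (.br (nat_lit 13) (nat_lit 0) (.cons (.ev (nat_lit 80160249062073348948100121090) (nat_lit 2)) .nil)) (.cons (.ev (nat_lit 1213666632842676336066561) (nat_lit 1)) .nil))) (.cons (.br (nat_lit 11) (nat_lit 1) (.cons (.ev (nat_lit 79537647524158021735578337281) (nat_lit 1)) (.cons (.br (nat_lit 1) (nat_lit 0) (.cons (.ev (nat_lit 79853177200044678961032070660) (nat_lit 3)) .nil)) .nil))) (.cons (.ev (nat_lit 79228167255077847115698798593) (nat_lit 1)) .nil)))) .nil))),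
 (.br (nat_lit 8) (nat_lit 1) (.cons (.rf (nat_lit 4636) (nat_lit 493858305440582043680)) (.cons (.rf (nat_lit 4640) (nat_lit 493858305440582043680)) (.cons (.br (nat_lit 9) (nat_lit 1) (.cons (.rf (nat_lit 4641) (nat_lit 493858305440582043680)) (.cons (.rf (nat_lit 4642) (nat_lit 493858305440582043680)) (.cons (.br (nat_lit 9) (nat_lit 1) (.cons (.rf (nat_lit 4641) (nat_lit 493858305440582043680)) (.cons (.rf (nat_lit 4642) (nat_lit 493858305440582043680)) .nil))) .nil)))) .nil)))),
 (.br (nat_lit 13) (nat_lit 0) (.cons (.br (nat_lit 10) (nat_lit 1) (.cons (.rf (nat_lit 4632) (nat_lit 457864203446677407776)) (.cons (.zr (nat_lit 40564821625155052416221866623488) (nat_lit 79537647542532428939296505857) (nat_lit 5) (nat_lit 8)) .nil))) (.cons (.rf (nat_lit 3784) (nat_lit 457864203446677407776)) .nil))),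
 (.br (nat_lit 7) (nat_lit 0) (.cons (.rf (nat_lit 4258) (nat_lit 493779562815853529120)) (.cons (.rf (nat_lit 4258) (nat_lit 493786318215288293408)) (.cons (.rf (nat_lit 4258) (nat_lit 493787408930823047200)) .nil)))),
 (.br (nat_lit 9) (nat_lit 1) (.cons (.br (nat_lit 7) (nat_lit 0) (.cons (.br (nat_lit 13) (nat_lit 0) (.cons (.ev (nat_lit 20361638975110273178941540794625) (nat_lit 1)) (.cons (.ev (nat_lit 20282719088679938794568974074113) (nat_lit 1)) .nil))) (.cons (.br (nat_lit 13) (nat_lit 0) (.cons (.ev (nat_lit 20361638975110273178941540794625) (nat_lit 1)) (.cons (.rf (nat_lit 3682) (nat_lit 457827082835685835840)) .nil))) (.cons (.br (nat_lit 13) (nat_lit 0) (.cons (.br (nat_lit 2) (nat_lit 0) (.cons (.zr (nat_lit 237993972552614920799310249984) (nat_lit 1213666776956764917071873) (nat_lit 5) (nat_lit 10)) .nil)) (.cons (.ev (nat_lit 79538856468424381533696033025) (nat_lit 1)) .nil))) .nil)))) (.cons (.rf (nat_lit 4645) (nat_lit 493858305440582043680)) .nil))),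
 (.br (nat_lit 2) (nat_lit 0) (.cons (.rf (nat_lit 4269) (nat_lit 493779562815853529120)) (.cons (.rf (nat_lit 4269) (nat_lit 493786318215288293408)) (.cons (.rf (nat_lit 4269) (nat_lit 493787408930823047200)) .nil)))),
 (.br (nat_lit 8) (nat_lit 1) (.cons (.rf (nat_lit 3419) (nat_lit 493604770158142031904)) (.cons (.br (nat_lit 11) (nat_lit 1) (.cons (.br (nat_lit 13) (nat_lit 0) (.cons (.rf (nat_lit 4644) (nat_lit 493858305440582043680)) (.cons (.br (nat_lit 13) (nat_lit 0) (.cons (.rf (nat_lit 4644) (nat_lit 493858305440582043680)) (.cons (.rf (nat_lit 3784) (nat_lit 457864203446677407776)) .nil))) (.cons (.rf (nat_lit 3784) (nat_lit 457864203446677407776)) .nil)))) (.cons (.ev (nat_lit 79228162532783421835796545793) (nat_lit 1)) (.cons (.rf (nat_lit 4232) (nat_lit 457864203446677407776)) .nil)))) (.cons (.br (nat_lit 9) (nat_lit 1) (.cons (.rf (nat_lit 4646) (nat_lit 493858305440582043680)) (.cons (.br (nat_lit 9) (nat_lit 1) (.cons (.rf (nat_lit 4646) (nat_lit 493858305440582043680))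 (.cons (.rf (nat_lit 4647) (nat_lit 493858305440582043680)) .nil))) (.cons (.br (nat_lit 9) (nat_lit 1) (.cons (.rf (nat_lit 4645) (nat_lit 493858305440582043680)) (.cons (.rf (nat_lit 4647) (nat_lit 493858305440582043680)) .nil))) .nil)))) .nil)))),
 (.br (nat_lit 13) (nat_lit 0) (.cons (.br (nat_lit 2) (nat_lit 0) (.cons (.rf (nat_lit 4396) (nat_lit 14310303613798581312)) (.cons (.rf (nat_lit 4578) (nat_lit 457864203446677406784)) (.cons (.br (nat_lit 7) (nat_lit 0) (.cons (.ev (nat_lit 79228167255077847115698798593) (nat_lit 1)) (.cons (.ev (nat_lit 79538856468352322844424732673) (nat_lit 1)) .nil))) .nil)))) (.cons (.rf (nat_lit 3784) (nat_lit 457864203446677406784)) (.cons (.rf (nat_lit 4232) (nat_lit 457864203446677406784)) .nil)))),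
 (.br (nat_lit 9) (nat_lit 1) (.cons (.rf (nat_lit 2725) (nat_lit 493751131648471369760)) (.cons (.br (nat_lit 13) (nat_lit 0) (.cons (.br (nat_lit 2) (nat_lit 0) (.cons (.ev (nat_lit 20361638975110201120243679559681) (nat_lit 1)) (.cons (.rf (nat_lit 4632) (nat_lit 457935134042368542752)) .nil))) (.cons (.br (nat_lit 7) (nat_lit 0) (.cons (.br (nat_lit 11) (nat_lit 1) (.cons (.zr (nat_lit 237684487542793575734880240384) (nat_lit 310698676598301829346885633) (nat_lit 5) (nat_lit 3)) .nil)) (.cons (.rf (nat_lit 4035) (nat_lit 493787270394505431072)) .nil))) (.cons (.br (nat_lit 4) (nat_lit 1) (.cons (.ev (nat_lit 20361637766184381505618799755521) (nat_lit 1)) (.cons (.zr (nat_lit 158456325028529239240847917568) (nat_lit 20282719088680082628277778251777) (nat_lit 5) (nat_lit 3)) .nil))) .nil)))) (.cons (.br (nat_lit 4) (nat_lit 1) (.cons (.zr (nat_lit 20361637766165934764839330251008) (nat_lit 4740813789897619931137) (nat_lit 5) (nat_lit 0)) (.cons (.br (nat_lit 7) (nat_lit 0) (.cons (.br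 (nat_lit 11) (nat_lit 1) (.cons (.ev (nat_lit 79538856468352322844424732673) (nat_lit 1)) .nil)) (.cons (.br (nat_lit 10) (nat_lit 1) (.cons (.ev (nat_lit 79538856468424100058702545153) (nat_lit 1)) .nil)) .nil))) .nil))) .nil)))),
 (.br (nat_lit 9) (nat_lit 1) (.cons (.rf (nat_lit 4650) (nat_lit 493858305440582043680)) (.cons (.rf (nat_lit 4396) (nat_lit 14310302514286986304)) (.cons (.br (nat_lit 7) (nat_lit 0) (.cons (.ev (nat_lit 79228167255077847115698798593) (nat_lit 1)) (.cons (.br (nat_lit 2) (nat_lit 0) (.cons (.ev (nat_lit 18518802771554140161) (nat_lit 1)) (.cons (.br (nat_lit 4) (nat_lit 1) (.cons (.zr (nat_lit 237684487543009748512699252736) (nat_lit 314325453913030533090115585) (nat_lit 5) (nat_lit 0)) .nil)) .nil))) (.cons (.br (nat_lit 10) (nat_lit 1) (.cons (.rf (nat_lit 4625) (nat_lit 493858303243706271776)) (.cons (.ev (nat_lit 20282720297605758127718860390401) (nat_lit 1)) .nil))) .nil)))) .nil)))),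
 (.br (nat_lit 8) (nat_lit 1) (.cons (.rf (nat_lit 3419) (nat_lit 493604770158142031904)) (.cons (.br (nat_lit 13) (nat_lit 0) (.cons (.rf (nat_lit 4649) (nat_lit 493858305440582043680)) (.cons (.br (nat_lit 13) (nat_lit 0) (.cons (.rf (nat_lit 4649) (nat_lit 493858305440582043680)) (.cons (.rf (nat_lit 3784) (nat_lit 457864203446677406784)) (.cons (.rf (nat_lit 4232) (nat_lit 457864203446677406784)) .nil)))) (.cons (.rf (nat_lit 3784) (nat_lit 457864203446677406784)) (.cons (.rf (nat_lit 4232) (nat_lit 457864203446677406784)) .nil))))) (.cons (.br (nat_lit 9) (nat_lit 1) (.cons (.rf (nat_lit 4650) (nat_lit 493858305440582043680)) (.cons (.br (nat_lit 1) (nat_lit 0) (.cons (.rf (nat_lit 3863) (nat_lit 493781816816831662112)) (.cons (.rf (nat_lit 2725) (nat_lit 493751131648471369760)) (.cons (.rf (nat_lit 3863) (nat_lit 493781810219768186912)) (.cons (.rf (nat_lit 3863) (nat_lit 493781775035397146656)) .nil))))) (.cons (.rf (nat_lit 4651) (nat_lit 493858305440582043680)) (.cons (.br (nat_lit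 9) (nat_lit 1) (.cons (.rf (nat_lit 4650) (nat_lit 493858305440582043680)) (.cons (.rf (nat_lit 4025) (nat_lit 493679289556564805664)) (.cons (.rf (nat_lit 4651) (nat_lit 493858305440582043680)) .nil)))) .nil))))) .nil)))),
 (.br (nat_lit 8) (nat_lit 1) (.cons (.rf (nat_lit 4648) (nat_lit 493858305440582043680)) (.cons (.rf (nat_lit 4652) (nat_lit 493858305440582043680)) (.cons (.br (nat_lit 1) (nat_lit 0) (.cons (.br (nat_lit 11) (nat_lit 1) (.cons (.br (nat_lit 2) (nat_lit 0) (.cons (.br (nat_lit 10) (nat_lit 1) (.cons (.zr (nat_lit 79228162514480511475169492992) (nat_lit 311902879907318405078712321) (nat_lit 5) (nat_lit 0)) (.cons (.ev (nat_lit 1208944266358707196067841) (nat_lit 1)) .nil))) (.cons (.br (nat_lit 13) (nat_lit 0) (.cons (.br (nat_lit 7) (nat_lit 0) (.cons (.ev (nat_lit 79537652264899192180128678145) (nat_lit 1)) .nil)) .nil)) .nil))) (.cons (.ev (nat_lit 79228162532783140360803057921) (nat_lit 1)) (.cons (.br (nat_lit 10) (nat_lit 1) (.cons (.br (nat_lit 7) (nat_lit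 0) (.cons (.br (nat_lit 2) (nat_lit 0) (.cons (.zr (nat_lit 618970019858862919596901120) (nat_lit 1213666633123064686051329) (nat_lit 5) (nat_lit 0)) .nil)) .nil)) (.cons (.ev (nat_lit 20361948460120022746791692730625) (nat_lit 1)) .nil))) .nil)))) (.cons (.br (nat_lit 9) (nat_lit 1) (.cons (.rf (nat_lit 3419) (nat_lit 493675700753833166880)) (.cons (.br (nat_lit 10) (nat_lit 1) (.cons (.br (nat_lit 11) (nat_lit 1) (.cons (.ev (nat_lit 79229376180897180265585115393) (nat_lit 1)) (.cons (.kr (nat_lit 20361637766165934761540795236608) (nat_lit 1213648186098598331547648) (nat_lit 1) (nat_lit 0)) .nil))) (.cons (.br (nat_lit 4) (nat_lit 1) (.cons (.br (nat_lit 11) (nat_lit 1) (.cons (.ev (nat_lit 309485028268370621706076161) (nat_lit 1)) .nil)) .nil)) .nil))) (.cons (.br (nat_lit 11) (nat_lit 1) (.cons (.br (nat_lit 4) (nat_lit 1) (.cons (.ev (nat_lit 309485028268370621706076161) (nat_lit 1)) (.cons (.zr (nat_lit 40802503694846205920468195607296) (nat_lit 618974760456480039364460545) (nat_lit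 5) (nat_lit 0)) .nil))) (.cons (.ev (nat_lit 309485028340147835983888641) (nat_lit 1)) .nil))) .nil)))) (.cons (.ev (nat_lit 18447025548686262529) (nat_lit 1)) (.cons (.br (nat_lit 4) (nat_lit 1) (.cons (.br (nat_lit 13) (nat_lit 0) (.cons (.br (nat_lit 7) (nat_lit 0) (.cons (.ev (nat_lit 79228167255077847115698798593) (nat_lit 1)) (.cons (.zr (nat_lit 40644047369817821359369671934464) (nat_lit 311902879907881355032133633) (nat_lit 5) (nat_lit 0)) .nil))) (.cons (.br (nat_lit 9) (nat_lit 1) (.cons (.ev (nat_lit 20282720297605758409193853878273) (nat_lit 1)) (.cons (.ev (nat_lit 79538856468424381533696033025) (nat_lit 1)) .nil))) .nil))) (.cons (.ev (nat_lit 79228162532783140360803057921) (nat_lit 1)) (.cons (.br (nat_lit 7) (nat_lit 0) (.cons (.br (nat_lit 9) (nat_lit 1) (.cons (.ev (nat_lit 79228167255077847115698798593) (nat_lit 1)) .nil)) (.cons (.ev (nat_lit 20361948460120022746791692730625) (nat_lit 1)) .nil))) .nil)))) .nil))))) .nil)))),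
 (.br (nat_lit 6) (nat_lit 1) (.cons (.rf (nat_lit 4578) (nat_lit 493858305440582043680)) (.cons (.rf (nat_lit 4632) (nat_lit 493858305440582043680)) (.cons (.br (nat_lit 8) (nat_lit 1) (.cons (.rf (nat_lit 4636) (nat_lit 493858305440582043680)) (.cons (.rf (nat_lit 4640) (nat_lit 493858305440582043680)) (.cons (.rf (nat_lit 4643) (nat_lit 493858305440582043680)) (.cons (.br (nat_lit 8) (nat_lit 1) (.cons (.rf (nat_lit 4636) (nat_lit 493858305440582043680)) (.cons (.rf (nat_lit 4640) (nat_lit 493858305440582043680)) (.cons (.rf (nat_lit 4643) (nat_lit 493858305440582043680)) .nil)))) .nil))))) (.cons (.br (nat_lit 8) (nat_lit 1) (.cons (.rf (nat_lit 4648) (nat_lit 493858305440582043680)) (.cons (.rf (nat_lit 4652) (nat_lit 493858305440582043680)) (.cons (.rf (nat_lit 4653) (nat_lit 493858305440582043680)) (.cons (.br (nat_lit 8) (nat_lit 1) (.cons (.rf (nat_lit 4648) (nat_lit 493858305440582043680)) (.cons (.rf (nat_lit 4652) (nat_lit 493858305440582043680)) (.cons (.rf (nat_lit 4653)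 (nat_lit 493858305440582043680)) .nil)))) .nil))))) .nil))))),
 (.br (nat_lit 8) (nat_lit 1) (.cons (.rf (nat_lit 3419) (nat_lit 493604770158142031904)) (.cons (.rf (nat_lit 4536) (nat_lit 493779557318295553088)) (.cons (.br (nat_lit 13) (nat_lit 0) (.cons (.br (nat_lit 10) (nat_lit 1) (.cons (.rf (nat_lit 4632) (nat_lit 457864203446677406784)) (.cons (.rf (nat_lit 4578) (nat_lit 457864203446677406784)) (.cons (.br (nat_lit 2) (nat_lit 0) (.cons (.br (nat_lit 1) (nat_lit 0) (.cons (.ev (nat_lit 310693990982039651116712450) (nat_lit 2)) .nil)) (.cons (.ev (nat_lit 79538856468352322844424732673) (nat_lit 1)) .nil))) .nil)))) (.cons (.rf (nat_lit 3784) (nat_lit 457864203446677406784)) (.cons (.rf (nat_lit 4232) (nat_lit 457864203446677406784)) .nil)))) (.cons (.br (nat_lit 2) (nat_lit 0) (.cons (.br (nat_lit 5) (nat_lit 0) (.cons (.rf (nat_lit 3784) (nat_lit 493675700753833165888)) (.cons (.ev (nat_lit 79229371458530697395956613121) (nat_lit 1)) (.cons (.br (nat_lit 10) (nat_lit 1) (.cons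 (.br (nat_lit 9) (nat_lit 1) (.cons (.zr (nat_lit 237684487542865072573693231104) (nat_lit 311912306193821545636298753) (nat_lit 5) (nat_lit 0)) .nil)) (.cons (.ev (nat_lit 310693935640959697899552769) (nat_lit 1)) .nil))) .nil)))) (.cons (.ev (nat_lit 20361638975110201120243679559681) (nat_lit 1)) (.cons (.br (nat_lit 5) (nat_lit 0) (.cons (.br (nat_lit 1) (nat_lit 0) (.cons (.rf (nat_lit 3784) (nat_lit 493675700753833166880)) (.cons (.ev (nat_lit 20282410812595937346712485691906) (nat_lit 2)) .nil))) (.cons (.ev (nat_lit 79229371458530697395956613121) (nat_lit 1)) .nil))) .nil)))) .nil))))),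
 (.br (nat_lit 9) (nat_lit 1) (.cons (.rf (nat_lit 3419) (nat_lit 493675700753833166880)) (.cons (.rf (nat_lit 3784) (nat_lit 493675700753833165888)) (.cons (.br (nat_lit 13) (nat_lit 0) (.cons (.br (nat_lit 2) (nat_lit 0) (.cons (.rf (nat_lit 4655) (nat_lit 493858305440582043680)) (.cons (.br (nat_lit 1) (nat_lit 0) (.cons (.br (nat_lit 11) (nat_lit 1) (.cons (.ev (nat_lit 79543692208814189851280015620) (nat_lit 3)) .nil)) (.cons (.rf (nat_lit 4632) (nat_lit 457935134042368541760)) .nil))) (.cons (.rf (nat_lit 4578) (nat_lit 457935134042368541760)) .nil)))) (.cons (.rf (nat_lit 4232) (nat_lit 457935134042368541760)) (.cons (.rf (nat_lit 3784) (nat_lit 457935134042368541760)) .nil)))) (.cons (.br (nat_lit 2) (nat_lit 0) (.cons (.rf (nat_lit 4655) (nat_lit 493858305440582043680)) (.cons (.br (nat_lit 7) (nat_lit 0) (.cons (.br (nat_lit 8) (nat_lit 1) (.cons (.rf (nat_lit 4632) (nat_lit 457864203446677407776)) (.cons (.br (nat_lit 11) (nat_lit 1) (.cons (.ev (nat_lit 158767019019654830026246914050)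 (nat_lit 2)) .nil)) .nil))) (.cons (.br (nat_lit 8) (nat_lit 1) (.cons (.ev (nat_lit 79538856449977354885498208513) (nat_lit 1)) (.cons (.ev (nat_lit 309485009893685237251112961) (nat_lit 1)) .nil))) .nil))) (.cons (.br (nat_lit 7) (nat_lit 0) (.cons (.br (nat_lit 5) (nat_lit 0) (.cons (.ev (nat_lit 79228162532711363146525245441) (nat_lit 1)) (.cons (.br (nat_lit 1) (nat_lit 0) (.cons (.ev (nat_lit 158768237390279183206648447490) (nat_lit 2)) .nil)) .nil))) (.cons (.br (nat_lit 8) (nat_lit 1) (.cons (.ev (nat_lit 79538856449977354885498208513) (nat_lit 1)) (.cons (.ev (nat_lit 20282720297587311384744679178241) (nat_lit 1)) .nil))) .nil))) .nil)))) .nil)))))]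

theorem c175 : chkAll C T R L175 (nat_lit 4639) = true := by decide +kernel

theorem l175 : (nat_lit 4639) + L175.length = (nat_lit 4657) := by decide +kernel

/-- part of the certificates -/
def L176 : List Prf := [(.br (nat_lit 2) (nat_lit 0) (.cons (.rf (nat_lit 4655) (nat_lit 493858305440582043680)) (.cons (.rf (nat_lit 4656) (nat_lit 493858305440582043680)) (.cons (.br (nat_lit 1) (nat_lit 0) (.cons (.br (nat_lit 5) (nat_lit 0) (.cons (.rf (nat_lit 4536) (nat_lit 493779557318295554080)) (.cons (.br (nat_lit 8) (nat_lit 1) (.cons (.br (nat_lit 9) (nat_lit 1) (.cons (.ev (nat_lit 20679795619298894818445084787460) (nat_lit 3)) .nil)) (.cons (.br (nat_lit 9) (nat_lit 1) (.cons (.ev (nat_lit 20679795619298894818445084787460) (nat_lit 3)) .nil)) .nil))) .nil))) (.cons (.br (nat_lit 5) (nat_lit 0) (.cons (.br (nat_lit 7) (nat_lit 0) (.cons (.br (nat_lit 9) (nat_lit 1) (.cons (.ev (nat_lit 20679169395724334440532586988292) (nat_lit 3)) .nil)) (.cons (.br (nat_lit 8) (nat_lit 1) (.cons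 (.ev (nat_lit 20679169395724334440532586988292) (nat_lit 3)) .nil)) .nil))) (.cons (.rf (nat_lit 3784) (nat_lit 493675700753833166880)) .nil))) .nil))) .nil)))),
 (.br (nat_lit 2) (nat_lit 0) (.cons (.rf (nat_lit 4655) (nat_lit 493858305440582043680)) (.cons (.rf (nat_lit 4656) (nat_lit 493858305440582043680)) (.cons (.rf (nat_lit 4657) (nat_lit 493858305440582043680)) (.cons (.br (nat_lit 2) (nat_lit 0) (.cons (.rf (nat_lit 4655) (nat_lit 493858305440582043680)) (.cons (.rf (nat_lit 4656) (nat_lit 493858305440582043680)) (.cons (.rf (nat_lit 4657) (nat_lit 493858305440582043680)) .nil)))) .nil))))),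
 (.br (nat_lit 1) (nat_lit 0) (.cons (.ev (nat_lit 20361948460101647779932244279553) (nat_lit 1)) (.cons (.ev (nat_lit 20282719088661563827709525623041) (nat_lit 1)) .nil))),
 (.br (nat_lit 11) (nat_lit 1) (.cons (.kr (nat_lit 2427296444252591677767936) (nat_lit 20520094091194463437827394830336) (nat_lit 1) (nat_lit 0)) .nil)),
 (.br (nat_lit 7) (nat_lit 0) (.cons (.ev (nat_lit 20282409603670189225619310510081) (nat_lit 1)) (.cons (.ev (nat_lit 79228162532783420736284917761) (nat_lit 1)) .nil))),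
 (.br (nat_lit 2) (nat_lit 0) (.cons (.rf (nat_lit 4661) (nat_lit 493858305440582043680)) (.cons (.br (nat_lit 8) (nat_lit 1) (.cons (.ev (nat_lit 20520097717990369869122687336450) (nat_lit 2)) (.cons (.ev (nat_lit 79228162532711363146525245441) (nat_lit 1)) .nil))) .nil))),
 (.br (nat_lit 9) (nat_lit 1) (.cons (.rf (nat_lit 3419) (nat_lit 493675700753833166880)) (.cons (.br (nat_lit 4) (nat_lit 1) (.cons (.ev (nat_lit 72057598349672449) (nat_lit 1)) .nil)) .nil))),
 (.br (nat_lit 2) (nat_lit 0) (.cons (.ev (nat_lit 79537647524085682662268796929) (nat_lit 1)) (.cons (.br (nat_lit 1) (nat_lit 0) (.cons (.ev (nat_lit 1208944266641281667629313) (nat_lit 1)) (.cons (.rf (nat_lit 3419) (nat_lit 493675700753833166880)) .nil))) .nil))),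
 (.br (nat_lit 9) (nat_lit 1) (.cons (.rf (nat_lit 3419) (nat_lit 493675700753833166880)) (.cons (.rf (nat_lit 3784) (nat_lit 493675700753833166880)) (.cons (.ev (nat_lit 72057598349672449) (nat_lit 1)) (.cons (.ev (nat_lit 20282409603651670705422227996929) (nat_lit 1)) .nil))))),
 (.br (nat_lit 7) (nat_lit 0) (.cons (.br (nat_lit 1) (nat_lit 0) (.cons (.rf (nat_lit 4665) (nat_lit 493858305440582043680)) (.cons (.br (nat_lit 9) (nat_lit 1) (.cons (.ev (nat_lit 310693935641241172893040641) (nat_lit 1)) (.cons (.ev (nat_lit 20361948460101648061407237767425) (nat_lit 1)) .nil))) .nil))) (.cons (.ev (nat_lit 72057598349672449) (nat_lit 1)) (.cons (.br (nat_lit 1) (nat_lit 0) (.cons (.br (nat_lit 5) (nat_lit 0) (.cons (.br (nat_lit 2) (nat_lit 0) (.cons (.ev (nat_lit 20838868515348431187053879034116) (nat_lit 3)) .nil)) .nil)) (.cons (.rf (nat_lit 4665) (nat_lit 493858305440582043680)) .nil))) .nil)))),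
 (.br (nat_lit 5) (nat_lit 0) (.cons (.br (nat_lit 7) (nat_lit 0) (.cons (.br (nat_lit 9) (nat_lit 1) (.cons (.ev (nat_lit 20361637775666224132283344880386) (nat_lit 2)) (.cons (.rf (nat_lit 4658) (nat_lit 458005178423107159104)) .nil))) (.cons (.br (nat_lit 1) (nat_lit 0) (.cons (.br (nat_lit 2) (nat_lit 0) (.cons (.zr (nat_lit 2427296588371078288506880) (nat_lit 237993972571061383402354638849) (nat_lit 5) (nat_lit 0)) .nil)) .nil)) .nil))) (.cons (.br (nat_lit 9) (nat_lit 1) (.cons (.rf (nat_lit 3784) (nat_lit 493675700753833166880)) (.cons (.rf (nat_lit 3784) (nat_lit 493675700753833165888)) (.cons (.br (nat_lit 1) (nat_lit 0) (.cons (.br (nat_lit 10) (nat_lit 1) (.cons (.ev (nat_lit 21157650183870766582963156881160) (nat_lit 4)) .nil)) (.cons (.zr (nat_lit 310708121259209974582607872) (nat_lit 40802503694846133860675134423041) (nat_lit 5) (nat_lit 9)) .nil))) .nil)))) (.cons (.ev (nat_lit 79229371458530697395956613121) (nat_lit 1)) .nil)))),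
 (.br (nat_lit 9) (nat_lit 1) (.cons (.rf (nat_lit 3419) (nat_lit 493675700753833166880)) (.cons (.rf (nat_lit 3784) (nat_lit 493675700753833165888)) (.cons (.br (nat_lit 4) (nat_lit 1) (.cons (.rf (nat_lit 4632) (nat_lit 458005178423107159104)) (.cons (.ev (nat_lit 72057598349672449) (nat_lit 1)) (.cons (.rf (nat_lit 4658) (nat_lit 458005178423107159104)) .nil)))) .nil)))),
 (.br (nat_lit 13) (nat_lit 0) (.cons (.rf (nat_lit 4658) (nat_lit 493858305440582043680)) (.cons (.br (nat_lit 9) (nat_lit 1) (.cons (.ev (nat_lit 20282409603651670705422227996929) (nat_lit 1)) (.cons (.br (nat_lit 10) (nat_lit 1) (.cons (.br (nat_lit 5) (nat_lit 0) (.cons (.br (nat_lit 8) (nat_lit 1) (.cons (.ev (nat_lit 20282409603670117450595466019073) (nat_lit 1)) (.cons (.ev (nat_lit 20282409603670189508193782071553) (nat_lit 1)) .nil))) (.cons (.ev (nat_lit 18447025548686262529) (nat_lit 1)) (.cons (.br (nat_lit 2) (nat_lit 0) (.cons (.ev (nat_lit 79537647524085682662268796929) (nat_lit 1)) (.cons (.br (nat_lit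 7) (nat_lit 0) (.cons (.ev (nat_lit 20838863679681757984109323550980) (nat_lit 3)) .nil)) .nil))) .nil)))) (.cons (.br (nat_lit 7) (nat_lit 0) (.cons (.br (nat_lit 5) (nat_lit 0) (.cons (.ev (nat_lit 20282412030948258792839401570306) (nat_lit 2)) (.cons (.br (nat_lit 1) (nat_lit 0) (.cons (.ev (nat_lit 20679790783558722311047283540740) (nat_lit 3)) .nil)) .nil))) (.cons (.ev (nat_lit 20282409603670117168020960903169) (nat_lit 1)) (.cons (.br (nat_lit 1) (nat_lit 0) (.cons (.ev (nat_lit 20361947251175756388084496728321) (nat_lit 1)) (.cons (.ev (nat_lit 79538856449977354885498208513) (nat_lit 1)) .nil))) .nil)))) (.cons (.br (nat_lit 8) (nat_lit 1) (.cons (.br (nat_lit 4) (nat_lit 1) (.cons (.kr (nat_lit 20361637766165934761540795236608) (nat_lit 1208925819896104151482368) (nat_lit 1) (nat_lit 0)) (.cons (.br (nat_lit 2) (nat_lit 0) (.cons (.ev (nat_lit 79537647524157740260618403841) (nat_lit 1)) .nil)) .nil))) (.cons (.ev (nat_lit 79229371458530697395956613121) (nat_lit 1)) (.cons (.br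 (nat_lit 2) (nat_lit 0) (.cons (.ev (nat_lit 40644048588188374503800503861250) (nat_lit 2)) (.cons (.ev (nat_lit 40644977043236285001592526143490) (nat_lit 2)) .nil))) .nil)))) (.cons (.br (nat_lit 11) (nat_lit 1) (.cons (.br (nat_lit 2) (nat_lit 0) (.cons (.br (nat_lit 5) (nat_lit 0) (.cons (.ev (nat_lit 79228162532711082771076940033) (nat_lit 1)) .nil)) (.cons (.br (nat_lit 5) (nat_lit 0) (.cons (.ev (nat_lit 79228162532711082771076940033) (nat_lit 1)) .nil)) .nil))) (.cons (.br (nat_lit 5) (nat_lit 0) (.cons (.ev (nat_lit 20282720297587311384744679178241) (nat_lit 1)) (.cons (.ev (nat_lit 20361947251175756107709048422401) (nat_lit 1)) .nil))) (.cons (.rf (nat_lit 4659) (nat_lit 493858305440582043680)) .nil)))) .nil))))) (.cons (.br (nat_lit 10) (nat_lit 1) (.cons (.br (nat_lit 8) (nat_lit 1) (.cons (.br (nat_lit 2) (nat_lit 0) (.cons (.ev (nat_lit 20282409603670117450595466019073) (nat_lit 1)) (.cons (.br (nat_lit 4) (nat_lit 1) (.cons (.ev (nat_lit 79537647524157740260618403841)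 (nat_lit 1)) .nil)) .nil))) (.cons (.rf (nat_lit 4224) (nat_lit 493857139958262892576)) .nil))) (.cons (.ev (nat_lit 20361638975091754377269498347521) (nat_lit 1)) (.cons (.br (nat_lit 8) (nat_lit 1) (.cons (.rf (nat_lit 4120) (nat_lit 493857069591666198560)) (.cons (.br (nat_lit 4) (nat_lit 1) (.cons (.rf (nat_lit 4660) (nat_lit 493858305440582043680)) (.cons (.ev (nat_lit 18518802771554140161) (nat_lit 1)) .nil))) .nil))) .nil)))) (.cons (.br (nat_lit 4) (nat_lit 1) (.cons (.br (nat_lit 11) (nat_lit 1) (.cons (.br (nat_lit 8) (nat_lit 1) (.cons (.br (nat_lit 5) (nat_lit 0) (.cons (.ev (nat_lit 79229371458530697395956613121) (nat_lit 1)) .nil)) (.cons (.ev (nat_lit 20361947251175756107709048422401) (nat_lit 1)) .nil))) (.cons (.br (nat_lit 10) (nat_lit 1) (.cons (.br (nat_lit 8) (nat_lit 1) (.cons (.ev (nat_lit 20838249526512677196168358594308) (nat_lit 3)) .nil)) .nil)) .nil))) (.cons (.ev (nat_lit 72057598349672449) (nat_lit 1)) (.cons (.br (nat_lit 10) (nat_lit 1) (.cons (.br (nat_lit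 8) (nat_lit 1) (.cons (.br (nat_lit 11) (nat_lit 1) (.cons (.ev (nat_lit 20837006769585936988525278986500) (nat_lit 3)) .nil)) .nil)) (.cons (.br (nat_lit 2) (nat_lit 0) (.cons (.ev (nat_lit 158458742898759327765328232450) (nat_lit 2)) (.cons (.ev (nat_lit 79538856449977637459969769473) (nat_lit 1)) .nil))) .nil))) .nil)))) .nil))))) (.cons (.br (nat_lit 5) (nat_lit 0) (.cons (.br (nat_lit 2) (nat_lit 0) (.cons (.rf (nat_lit 4661) (nat_lit 493858305440582043680)) (.cons (.rf (nat_lit 4662) (nat_lit 493858305440582043680)) (.cons (.br (nat_lit 2) (nat_lit 0) (.cons (.rf (nat_lit 4661) (nat_lit 493858305440582043680)) (.cons (.rf (nat_lit 4662) (nat_lit 493858305440582043680)) .nil))) .nil)))) (.cons (.kr (nat_lit 18446744073709551616) (nat_lit 20282409603651670423947251286016) (nat_lit 8) (nat_lit 0)) (.cons (.br (nat_lit 9) (nat_lit 1) (.cons (.rf (nat_lit 3784) (nat_lit 493675700753833166880)) (.cons (.rf (nat_lit 3784) (nat_lit 493675700753833165888)) (.cons (.br (nat_lit 4) (nat_lit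 1) (.cons (.br (nat_lit 8) (nat_lit 1) (.cons (.ev (nat_lit 20361638975110273459316989100033) (nat_lit 1)) .nil)) (.cons (.ev (nat_lit 72057598349672449) (nat_lit 1)) .nil))) .nil)))) (.cons (.br (nat_lit 9) (nat_lit 1) (.cons (.rf (nat_lit 4663) (nat_lit 493858305440582043680)) (.cons (.rf (nat_lit 4664) (nat_lit 493858305440582043680)) (.cons (.br (nat_lit 9) (nat_lit 1) (.cons (.rf (nat_lit 4663) (nat_lit 493858305440582043680)) (.cons (.rf (nat_lit 4664) (nat_lit 493858305440582043680)) .nil))) .nil)))) .nil))))) (.cons (.br (nat_lit 2) (nat_lit 0) (.cons (.rf (nat_lit 4666) (nat_lit 493858305440582043680)) (.cons (.rf (nat_lit 4667) (nat_lit 493858305440582043680)) (.cons (.rf (nat_lit 4668) (nat_lit 493858305440582043680)) (.cons (.br (nat_lit 2) (nat_lit 0) (.cons (.rf (nat_lit 4666) (nat_lit 493858305440582043680)) (.cons (.rf (nat_lit 4667) (nat_lit 493858305440582043680)) (.cons (.rf (nat_lit 4668) (nat_lit 493858305440582043680)) .nil)))) .nil))))) .nil))))),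
 (.br (nat_lit 7) (nat_lit 0) (.cons (.br (nat_lit 8) (nat_lit 1) (.cons (.rf (nat_lit 3784) (nat_lit 457864203446677407776)) (.cons (.rf (nat_lit 3784) (nat_lit 457864203446677406784)) (.cons (.br (nat_lit 1) (nat_lit 0) (.cons (.br (nat_lit 11) (nat_lit 1) (.cons (.ev (nat_lit 20996717959689013748774254609160) (nat_lit 4)) .nil)) (.cons (.ev (nat_lit 20361948460101648061407237767425) (nat_lit 1)) .nil))) .nil)))) (.cons (.ev (nat_lit 72057598349672449) (nat_lit 1)) (.cons (.br (nat_lit 5) (nat_lit 0) (.cons (.br (nat_lit 8) (nat_lit 1) (.cons (.ev (nat_lit 79228162532783421835796545793) (nat_lit 1)) (.cons (.rf (nat_lit 4536) (nat_lit 493779557318295553088)) .nil))) (.cons (.br (nat_lit 1) (nat_lit 0) (.cons (.br (nat_lit 2) (nat_lit 0) (.cons (.ev (nat_lit 81704089946564451469371704840) (nat_lit 4)) .nil)) .nil)) .nil))) .nil)))),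
 (.br (nat_lit 8) (nat_lit 1) (.cons (.rf (nat_lit 3419) (nat_lit 493604770158142031904)) (.cons (.rf (nat_lit 4536) (nat_lit 493779557318295553088)) (.cons (.rf (nat_lit 3784) (nat_lit 457864203446677406784)) .nil)))),
 (.br (nat_lit 2) (nat_lit 0) (.cons (.rf (nat_lit 4670) (nat_lit 493858305440582043680)) (.cons (.rf (nat_lit 4671) (nat_lit 493858305440582043680)) (.cons (.br (nat_lit 1) (nat_lit 0) (.cons (.br (nat_lit 7) (nat_lit 0) (.cons (.br (nat_lit 5) (nat_lit 0) (.cons (.ev (nat_lit 79541283801834741717306245634) (nat_lit 2)) .nil)) .nil)) (.cons (.rf (nat_lit 4671) (nat_lit 493858305440582042688)) .nil))) .nil)))),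
 (.br (nat_lit 7) (nat_lit 0) (.cons (.br (nat_lit 8) (nat_lit 1) (.cons (.rf (nat_lit 4232) (nat_lit 457864203446677407776)) (.cons (.rf (nat_lit 4232) (nat_lit 457864203446677406784)) (.cons (.br (nat_lit 10) (nat_lit 1) (.cons (.ev (nat_lit 20361948460101648061407237767425) (nat_lit 1)) (.cons (.ev (nat_lit 20282410812577490320055697735681) (nat_lit 1)) .nil))) .nil)))) (.cons (.ev (nat_lit 72057598349672449) (nat_lit 1)) (.cons (.br (nat_lit 1) (nat_lit 0) (.cons (.br (nat_lit 8) (nat_lit 1) (.cons (.rf (nat_lit 3419) (nat_lit 493604770158142031904)) (.cons (.ev (nat_lit 20361637766184381506718311383041) (nat_lit 1)) .nil))) (.cons (.br (nat_lit 5) (nat_lit 0) (.cons (.br (nat_lit 8) (nat_lit 1) (.cons (.ev (nat_lit 20838868515421931056690561877764) (nat_lit 3)) .nil)) .nil)) .nil))) .nil)))),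
 (.br (nat_lit 8) (nat_lit 1) (.cons (.rf (nat_lit 3419) (nat_lit 493604770158142031904)) (.cons (.rf (nat_lit 4536) (nat_lit 493779557318295553088)) (.cons (.rf (nat_lit 4232) (nat_lit 457864203446677406784)) .nil)))),
 (.br (nat_lit 2) (nat_lit 0) (.cons (.rf (nat_lit 4673) (nat_lit 493858305440582043680)) (.cons (.rf (nat_lit 4674) (nat_lit 493858305440582043680)) (.cons (.br (nat_lit 1) (nat_lit 0) (.cons (.br (nat_lit 7) (nat_lit 0) (.cons (.br (nat_lit 5) (nat_lit 0) (.cons (.ev (nat_lit 18519084246547628033) (nat_lit 1)) .nil)) .nil)) (.cons (.rf (nat_lit 4674) (nat_lit 493858305440582042688)) .nil))) .nil)))),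
 (.br (nat_lit 13) (nat_lit 0) (.cons (.rf (nat_lit 4658) (nat_lit 493858305440582043680)) (.cons (.rf (nat_lit 4669) (nat_lit 493858305440582043680)) (.cons (.br (nat_lit 2) (nat_lit 0) (.cons (.rf (nat_lit 4670) (nat_lit 493858305440582043680)) (.cons (.rf (nat_lit 4671) (nat_lit 493858305440582043680)) (.cons (.rf (nat_lit 4672) (nat_lit 493858305440582043680)) (.cons (.br (nat_lit 2) (nat_lit 0) (.cons (.rf (nat_lit 4670) (nat_lit 493858305440582043680)) (.cons (.rf (nat_lit 4671) (nat_lit 493858305440582043680)) (.cons (.rf (nat_lit 4672) (nat_lit 493858305440582043680)) .nil)))) .nil))))) (.cons (.br (nat_lit 2) (nat_lit 0) (.cons (.rf (nat_lit 4673) (nat_lit 493858305440582043680)) (.cons (.rf (nat_lit 4674) (nat_lit 493858305440582043680)) (.cons (.rf (nat_lit 4675) (nat_lit 493858305440582043680)) (.cons (.br (nat_lit 2) (nat_lit 0) (.cons (.ev (nat_lit 20282410812577490320055697735681) (nat_lit 1)) (.cons (.rf (nat_lit 4674) (nat_lit 493858305440582043680)) (.cons (.rf (nat_lit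 4675) (nat_lit 493858305440582043680)) .nil)))) .nil))))) .nil))))),
 (.br (nat_lit 13) (nat_lit 0) (.cons (.rf (nat_lit 4658) (nat_lit 493858305440582043680)) (.cons (.rf (nat_lit 4669) (nat_lit 493858305440582043680)) (.cons (.rf (nat_lit 4676) (nat_lit 493858305440582043680)) (.cons (.br (nat_lit 1) (nat_lit 0) (.cons (.kr (nat_lit 309485009821345068741558272) (nat_lit 20282409603651670423951546253312) (nat_lit 3) (nat_lit 0)) (.cons (.rf (nat_lit 4291) (nat_lit 458005178423107159104)) (.cons (.rf (nat_lit 4291) (nat_lit 493779557318295553088)) .nil)))) .nil))))),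
 (.br (nat_lit 6) (nat_lit 1) (.cons (.rf (nat_lit 4578) (nat_lit 493858305440582043680)) (.cons (.rf (nat_lit 4632) (nat_lit 493858305440582043680)) (.cons (.rf (nat_lit 4654) (nat_lit 493858305440582043680)) (.cons (.br (nat_lit 13) (nat_lit 0) (.cons (.rf (nat_lit 4658) (nat_lit 493858305440582043680)) (.cons (.rf (nat_lit 4669) (nat_lit 493858305440582043680)) (.cons (.rf (nat_lit 4676) (nat_lit 493858305440582043680)) (.cons (.rf (nat_lit 4677) (nat_lit 493858305440582043680)) (.cons (.br (nat_lit 13) (nat_lit 0) (.cons (.rf (nat_lit 4658) (nat_lit 493858305440582043680)) (.cons (.rf (nat_lit 4669) (nat_lit 493858305440582043680)) (.cons (.rf (nat_lit 4676) (nat_lit 493858305440582043680)) (.cons (.rf (nat_lit 4677) (nat_lit 493858305440582043680)) .nil))))) .nil)))))) .nil))))),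
 (.br (nat_lit 12) (nat_lit 0) (.cons (.rf (nat_lit 3784) (nat_lit 493858305440582043680)) (.cons (.rf (nat_lit 4232) (nat_lit 493858305440582043680)) (.cons (.rf (nat_lit 4536) (nat_lit 493858305440582043680)) (.cons (.br (nat_lit 6) (nat_lit 1) (.cons (.rf (nat_lit 4578) (nat_lit 493858305440582043680)) (.cons (.rf (nat_lit 4632) (nat_lit 493858305440582043680)) (.cons (.rf (nat_lit 4654) (nat_lit 493858305440582043680)) (.cons (.rf (nat_lit 4678) (nat_lit 493858305440582043680)) (.cons (.br (nat_lit 6) (nat_lit 1) (.cons (.rf (nat_lit 4578) (nat_lit 493858305440582043680)) (.cons (.rf (nat_lit 4632) (nat_lit 493858305440582043680)) (.cons (.rf (nat_lit 4654) (nat_lit 493858305440582043680)) (.cons (.rf (nat_lit 4678) (nat_lit 493858305440582043680)) .nil))))) .nil)))))) .nil)))))]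

theorem c176 : chkAll C T R L176 (nat_lit 4657) = true := by decide +kernel

theorem l176 : (nat_lit 4657) + L176.length = (nat_lit 4680) := by decide +kernel

/-- part of the certificates -/
def L177 : List Prf := [(.br (nat_lit 12) (nat_lit 0) (.cons (.rf (nat_lit 3784) (nat_lit 493858305440582043680)) (.cons (.rf (nat_lit 4232) (nat_lit 493858305440582043680)) (.cons (.rf (nat_lit 4536) (nat_lit 493858305440582043680)) (.cons (.rf (nat_lit 4679) (nat_lit 493858305440582043680)) (.cons (.br (nat_lit 12) (nat_lit 0) (.cons (.rf (nat_lit 3784) (nat_lit 493858305440582043680)) (.cons (.rf (nat_lit 4232) (nat_lit 493858305440582043680)) (.cons (.rf (nat_lit 4536) (nat_lit 493858305440582043680)) (.cons (.rf (nat_lit 4679) (nat_lit 493858305440582043680)) .nil))))) .nil)))))),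
 (.br (nat_lit 2) (nat_lit 0) (.cons (.kr (nat_lit 79228162514264337593560727552) (nat_lit 18446744078004518912) (nat_lit 3) (nat_lit 0)) (.cons (.ev (nat_lit 309489750634853487056257281) (nat_lit 1)) (.cons (.ev (nat_lit 310693935713298771209093121) (nat_lit 1)) .nil)))),
 (.br (nat_lit 13) (nat_lit 0) (.cons (.rf (nat_lit 4680) (nat_lit 458079526298789742624)) (.cons (.br (nat_lit 7) (nat_lit 0) (.cons (.br (nat_lit 11) (nat_lit 1) (.cons (.br (nat_lit 9) (nat_lit 1) (.cons (.ev (nat_lit 309489750634853487056257281) (nat_lit 1)) .nil)) (.cons (.rf (nat_lit 4681) (nat_lit 493858305440582043680)) .nil))) (.cons (.br (nat_lit 5) (nat_lit 0) (.cons (.rf (nat_lit 4555) (nat_lit 493820092941601998880)) (.cons (.br (nat_lit 6) (nat_lit 1) (.cons (.ev (nat_lit 309489750634853487056257281) (nat_lit 1)) .nil)) .nil))) (.cons (.kr (nat_lit 309485009821345068741558272) (nat_lit 20282409603651670423951546253312) (nat_lit 3) (nat_lit 0)) .nil)))) .nil))),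
 (.br (nat_lit 13) (nat_lit 0) (.cons (.rf (nat_lit 4680) (nat_lit 458079526298789742624)) (.cons (.rf (nat_lit 4682) (nat_lit 493858305440582043680)) (.cons (.br (nat_lit 13) (nat_lit 0) (.cons (.rf (nat_lit 4680) (nat_lit 458079526298789742624)) (.cons (.rf (nat_lit 4682) (nat_lit 493858305440582043680)) .nil))) .nil)))),
 (.br (nat_lit 13) (nat_lit 0) (.cons (.rf (nat_lit 4683) (nat_lit 493858305440582043680)) (.cons (.rf (nat_lit 4680) (nat_lit 458079526298789742624)) (.cons (.br (nat_lit 13) (nat_lit 0) (.cons (.rf (nat_lit 4683) (nat_lit 493858305440582043680)) (.cons (.rf (nat_lit 4680) (nat_lit 458079526298789742624)) .nil))) .nil)))),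
 (.br (nat_lit 2) (nat_lit 0) (.cons (.ev (nat_lit 4311810049) (nat_lit 1)) (.cons (.rf (nat_lit 449) (nat_lit 14063972153235342560)) (.cons (.br (nat_lit 11) (nat_lit 1) (.cons (.br (nat_lit 6) (nat_lit 1) (.cons (.ev (nat_lit 309489750634853487056257281) (nat_lit 1)) .nil)) .nil)) .nil)))),
 (.br (nat_lit 11) (nat_lit 1) (.cons (.br (nat_lit 13) (nat_lit 0) (.cons (.rf (nat_lit 4681) (nat_lit 458009550086699354144)) .nil)) .nil)),
 (.br (nat_lit 13) (nat_lit 0) (.cons (.rf (nat_lit 4680) (nat_lit 458079526298789742624)) (.cons (.br (nat_lit 11) (nat_lit 1) (.cons (.br (nat_lit 11) (nat_lit 1) (.cons (.rf (nat_lit 4680) (nat_lit 493565395547242988608)) (.cons (.rf (nat_lit 4680) (nat_lit 457929673865483879488)) .nil))) (.cons (.br (nat_lit 11) (nat_lit 1) (.cons (.rf (nat_lit 4680) (nat_lit 493565395547242988608)) (.cons (.ev (nat_lit 20361637766166006820238656536833) (nat_lit 1)) .nil))) (.cons (.br (nat_lit 11) (nat_lit 1) (.cons (.rf (nat_lit 4680) (nat_lit 457929673865483879488))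 (.cons (.ev (nat_lit 20361637766166006820238656536833) (nat_lit 1)) .nil))) .nil)))) (.cons (.br (nat_lit 10) (nat_lit 1) (.cons (.br (nat_lit 9) (nat_lit 1) (.cons (.br (nat_lit 6) (nat_lit 1) (.cons (.rf (nat_lit 3887) (nat_lit 457829406101609777184)) (.cons (.br (nat_lit 5) (nat_lit 0) (.cons (.ev (nat_lit 310693935713298771209093121) (nat_lit 1)) .nil)) .nil))) (.cons (.br (nat_lit 2) (nat_lit 0) (.cons (.br (nat_lit 11) (nat_lit 1) (.cons (.ev (nat_lit 79537647524158021731300147201) (nat_lit 1)) .nil)) (.cons (.br (nat_lit 6) (nat_lit 1) (.cons (.zr (nat_lit 1218370553143322713718784) (nat_lit 158765810056796764329539011073) (nat_lit 5) (nat_lit 11)) .nil)) .nil))) (.cons (.kr (nat_lit 79228167236630820463189164288) (nat_lit 1208925891672227507601408) (nat_lit 1) (nat_lit 0)) .nil)))) (.cons (.br (nat_lit 7) (nat_lit 0) (.cons (.ev (nat_lit 20282410812577562097269975548161) (nat_lit 1)) (.cons (.br (nat_lit 11) (nat_lit 1) (.cons (.br (nat_lit 2) (nat_lit 0) (.cons (.ev (nat_lit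 79537652246452447011202400513) (nat_lit 1)) .nil)) .nil)) (.cons (.ev (nat_lit 20361637766166006820238656536833) (nat_lit 1)) .nil)))) (.cons (.br (nat_lit 11) (nat_lit 1) (.cons (.br (nat_lit 2) (nat_lit 0) (.cons (.ev (nat_lit 79229371440083952227030466561) (nat_lit 1)) (.cons (.rf (nat_lit 4317) (nat_lit 457830529803567106080)) .nil))) (.cons (.ev (nat_lit 20361637766166006820238656536833) (nat_lit 1)) .nil))) .nil)))) .nil)))),
 (.br (nat_lit 6) (nat_lit 1) (.cons (.rf (nat_lit 4680) (nat_lit 493857210323783844928)) (.cons (.rf (nat_lit 4680) (nat_lit 458116643612319220800)) (.cons (.rf (nat_lit 4680) (nat_lit 493823368456464074784)) .nil)))),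
 (.br (nat_lit 2) (nat_lit 0) (.cons (.ev (nat_lit 4311810049) (nat_lit 1)) (.cons (.ev (nat_lit 1208944266358707196067841) (nat_lit 1)) .nil))),
 (.br (nat_lit 13) (nat_lit 0) (.cons (.rf (nat_lit 4687) (nat_lit 493858305440582043680)) (.cons (.rf (nat_lit 4680) (nat_lit 458079526298789742624)) (.cons (.br (nat_lit 2) (nat_lit 0) (.cons (.rf (nat_lit 4688) (nat_lit 493858305440582043680)) (.cons (.rf (nat_lit 4689) (nat_lit 493858305440582043680)) (.cons (.br (nat_lit 2) (nat_lit 0) (.cons (.rf (nat_lit 4688) (nat_lit 493858305440582043680)) (.cons (.ev (nat_lit 1208944266358707196067841) (nat_lit 1)) .nil))) .nil)))) .nil)))),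
 (.br (nat_lit 13) (nat_lit 0) (.cons (.br (nat_lit 6) (nat_lit 1) (.cons (.br (nat_lit 9) (nat_lit 1) (.cons (.ev (nat_lit 309489750634853487056257281) (nat_lit 1)) (.cons (.ev (nat_lit 79537652246452447011202400513) (nat_lit 1)) .nil))) (.cons (.ev (nat_lit 20361637766184381787093793243393) (nat_lit 1)) (.cons (.ev (nat_lit 20282409603651670705422227996929) (nat_lit 1)) .nil)))) (.cons (.rf (nat_lit 4680) (nat_lit 457824828835778364480)) (.cons (.rf (nat_lit 4680) (nat_lit 457929673865483879488)) .nil)))),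
 (.br (nat_lit 6) (nat_lit 1) (.cons (.rf (nat_lit 4680) (nat_lit 493857210323783844928)) (.cons (.rf (nat_lit 4680) (nat_lit 458116643612319220800)) (.cons (.rf (nat_lit 4680) (nat_lit 493823368456464074784)) .nil)))),
 (.br (nat_lit 10) (nat_lit 1) (.cons (.br (nat_lit 8) (nat_lit 1) (.cons (.ev (nat_lit 1208944266358702884323329) (nat_lit 1)) (.cons (.rf (nat_lit 4692) (nat_lit 493858305440582043680)) .nil))) (.cons (.br (nat_lit 5) (nat_lit 0) (.cons (.rf (nat_lit 4680) (nat_lit 493857210323783844928)) (.cons (.ev (nat_lit 1208944266358702884323329) (nat_lit 1)) (.cons (.br (nat_lit 6) (nat_lit 1) (.cons (.rf (nat_lit 4562) (nat_lit 493820093010254366752)) (.cons (.br (nat_lit 8) (nat_lit 1) (.cons (.ev (nat_lit 309489750634853487056257281) (nat_lit 1)) .nil)) .nil))) .nil)))) (.cons (.ev (nat_lit 79229371440083952227030466561) (nat_lit 1)) .nil)))),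
 (.br (nat_lit 6) (nat_lit 1) (.cons (.rf (nat_lit 4680) (nat_lit 493857210323783844928)) (.cons (.br (nat_lit 13) (nat_lit 0) (.cons (.br (nat_lit 2) (nat_lit 0) (.cons (.ev (nat_lit 309489750634853487056257281) (nat_lit 1)) (.cons (.br (nat_lit 7) (nat_lit 0) (.cons (.ev (nat_lit 20838868487050837547607208035588) (nat_lit 3)) .nil)) .nil))) (.cons (.br (nat_lit 2) (nat_lit 0) (.cons (.ev (nat_lit 309489750634853487056257281) (nat_lit 1)) (.cons (.ev (nat_lit 20361638975091754377269498347521) (nat_lit 1)) .nil))) (.cons (.br (nat_lit 2) (nat_lit 0) (.cons (.ev (nat_lit 1208944266641277389439233) (nat_lit 1)) (.cons (.rf (nat_lit 1978) (nat_lit 493787199819501214880)) .nil))) .nil)))) (.cons (.br (nat_lit 10) (nat_lit 1) (.cons (.br (nat_lit 8) (nat_lit 1) (.cons (.ev (nat_lit 20282410812595936783749663948801) (nat_lit 1)) .nil)) (.cons (.br (nat_lit 2) (nat_lit 0) (.cons (.ev (nat_lit 1208944266641277389439233) (nat_lit 1)) (.cons (.br (nat_lit 7) (nat_lit 0) (.cons (.ev (nat_lit 309489750634853487056257281)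 (nat_lit 1)) .nil)) .nil))) .nil))) .nil)))),
 (.br (nat_lit 6) (nat_lit 1) (.cons (.rf (nat_lit 4693) (nat_lit 493858305440582043680)) (.cons (.rf (nat_lit 4694) (nat_lit 493858305440582043680)) (.cons (.br (nat_lit 2) (nat_lit 0) (.cons (.br (nat_lit 9) (nat_lit 1) (.cons (.ev (nat_lit 309489750634853487056257281) (nat_lit 1)) (.cons (.ev (nat_lit 20282719093402304995959330897921) (nat_lit 1)) .nil))) (.cons (.br (nat_lit 5) (nat_lit 0) (.cons (.ev (nat_lit 309489750634853487056257281) (nat_lit 1)) (.cons (.ev (nat_lit 79229371440083952222718722049) (nat_lit 1)) .nil))) (.cons (.br (nat_lit 5) (nat_lit 0) (.cons (.br (nat_lit 7) (nat_lit 0) (.cons (.ev (nat_lit 309489750634573111607951361) (nat_lit 1)) .nil)) (.cons (.ev (nat_lit 20361638975091754377269498347521) (nat_lit 1)) .nil))) .nil)))) .nil)))),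
 (.br (nat_lit 11) (nat_lit 1) (.cons (.rf (nat_lit 4680) (nat_lit 493565395547242988608)) (.cons (.br (nat_lit 13) (nat_lit 0) (.cons (.rf (nat_lit 4691) (nat_lit 493858305440582043680)) (.cons (.br (nat_lit 13) (nat_lit 0) (.cons (.rf (nat_lit 4691) (nat_lit 493858305440582043680)) (.cons (.rf (nat_lit 4680) (nat_lit 457824828835778364480)) (.cons (.rf (nat_lit 4680) (nat_lit 457929673865483879488)) .nil)))) (.cons (.rf (nat_lit 4680) (nat_lit 457824828835778364480)) (.cons (.rf (nat_lit 4680) (nat_lit 457929673865483879488)) .nil))))) (.cons (.br (nat_lit 6) (nat_lit 1) (.cons (.rf (nat_lit 4693) (nat_lit 493858305440582043680)) (.cons (.rf (nat_lit 4694) (nat_lit 493858305440582043680)) (.cons (.rf (nat_lit 4695) (nat_lit 493858305440582043680)) (.cons (.br (nat_lit 6) (nat_lit 1) (.cons (.rf (nat_lit 4693) (nat_lit 493858305440582043680)) (.cons (.rf (nat_lit 4694) (nat_lit 493858305440582043680)) (.cons (.rf (nat_lit 4695) (nat_lit 493858305440582043680)) .nil)))) .nil))))) .nil)))),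
 (.br (nat_lit 6) (nat_lit 1) (.cons (.br (nat_lit 8) (nat_lit 1) (.cons (.br (nat_lit 9) (nat_lit 1) (.cons (.br (nat_lit 10) (nat_lit 1) (.cons (.ev (nat_lit 21314232664397410230993726539016) (nat_lit 4)) .nil)) .nil)) (.cons (.rf (nat_lit 4680) (nat_lit 458116643612319220800)) .nil))) (.cons (.br (nat_lit 9) (nat_lit 1) (.cons (.br (nat_lit 13) (nat_lit 0) (.cons (.ev (nat_lit 309489750634853487056257281) (nat_lit 1)) (.cons (.br (nat_lit 8) (nat_lit 1) (.cons (.ev (nat_lit 20678557698186113535942838125828) (nat_lit 3)) .nil)) .nil))) (.cons (.br (nat_lit 13) (nat_lit 0) (.cons (.ev (nat_lit 20758707048062947707005849043460) (nat_lit 3)) (.cons (.ev (nat_lit 20282410812577562377649735598081) (nat_lit 1)) .nil))) (.cons (.br (nat_lit 2) (nat_lit 0) (.cons (.ev (nat_lit 309489750634853487056257281) (nat_lit 1)) (.cons (.ev (nat_lit 20361638975091754377269498347521) (nat_lit 1)) .nil))) .nil)))) .nil))),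
 (.br (nat_lit 6) (nat_lit 1) (.cons (.rf (nat_lit 4697) (nat_lit 493858305440582043680)) (.cons (.br (nat_lit 8) (nat_lit 1) (.cons (.br (nat_lit 10) (nat_lit 1) (.cons (.ev (nat_lit 1208925891672223229477121) (nat_lit 1)) (.cons (.ev (nat_lit 20361638975110273459316989100033) (nat_lit 1)) .nil))) (.cons (.ev (nat_lit 20282409603651670705422227996929) (nat_lit 1)) .nil))) .nil))),
 (.br (nat_lit 8) (nat_lit 1) (.cons (.br (nat_lit 9) (nat_lit 1) (.cons (.br (nat_lit 13) (nat_lit 0) (.cons (.ev (nat_lit 309489750634853487056257281) (nat_lit 1)) (.cons (.br (nat_lit 6) (nat_lit 1) (.cons (.ev (nat_lit 20837632983716052065917171990788) (nat_lit 3)) .nil)) .nil))) (.cons (.ev (nat_lit 20361637766184381506714033192961) (nat_lit 1)) .nil))) (.cons (.br (nat_lit 6) (nat_lit 1) (.cons (.rf (nat_lit 4264) (nat_lit 493858301042539726880)) (.cons (.br (nat_lit 2) (nat_lit 0) (.cons (.ev (nat_lit 309489750634853487056257281) (nat_lit 1)) (.cons (.rf (nat_lit 4569) (nat_lit 493820093011328075808))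 .nil))) .nil))) (.cons (.rf (nat_lit 4692) (nat_lit 493858305440582043680)) .nil)))),
 (.br (nat_lit 6) (nat_lit 1) (.cons (.rf (nat_lit 4699) (nat_lit 493858305440582043680)) (.cons (.br (nat_lit 8) (nat_lit 1) (.cons (.br (nat_lit 2) (nat_lit 0) (.cons (.ev (nat_lit 309489750634853487056257281) (nat_lit 1)) (.cons (.br (nat_lit 7) (nat_lit 0) (.cons (.zr (nat_lit 9481626457185244610560) (nat_lit 314320713100085064712060929) (nat_lit 5) (nat_lit 0)) .nil)) .nil))) (.cons (.rf (nat_lit 4120) (nat_lit 493823298087721994272)) .nil))) .nil))),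
 (.br (nat_lit 11) (nat_lit 1) (.cons (.rf (nat_lit 4680) (nat_lit 493565395547242988608)) (.cons (.br (nat_lit 6) (nat_lit 1) (.cons (.rf (nat_lit 4697) (nat_lit 493858305440582043680)) (.cons (.rf (nat_lit 4698) (nat_lit 493858305440582043680)) (.cons (.br (nat_lit 6) (nat_lit 1) (.cons (.rf (nat_lit 4697) (nat_lit 493858305440582043680)) (.cons (.rf (nat_lit 4698) (nat_lit 493858305440582043680)) .nil))) .nil)))) (.cons (.br (nat_lit 6) (nat_lit 1) (.cons (.rf (nat_lit 4699) (nat_lit 493858305440582043680)) (.cons (.rf (nat_lit 4700) (nat_lit 493858305440582043680)) (.cons (.br (nat_lit 6) (nat_lit 1) (.cons (.rf (nat_lit 4699) (nat_lit 493858305440582043680)) (.cons (.rf (nat_lit 4700) (nat_lit 493858305440582043680)) .nil))) .nil)))) .nil)))),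
 (.br (nat_lit 6) (nat_lit 1) (.cons (.rf (nat_lit 4680) (nat_lit 493857210323783844928)) (.cons (.br (nat_lit 13) (nat_lit 0) (.cons (.rf (nat_lit 4680) (nat_lit 458116643612319220800)) (.cons (.br (nat_lit 5) (nat_lit 0) (.cons (.br (nat_lit 10) (nat_lit 1) (.cons (.zr (nat_lit 237684496987525981818490912768) (nat_lit 310694009428217484894273537) (nat_lit 5) (nat_lit 0)) .nil)) (.cons (.ev (nat_lit 79538861172343838858949951745) (nat_lit 1)) .nil))) (.cons (.ev (nat_lit 20361637766166007100614104842241) (nat_lit 1)) .nil)))) (.cons (.br (nat_lit 7) (nat_lit 0) (.cons (.br (nat_lit 10) (nat_lit 1) (.cons (.ev (nat_lit 1208925891672223229477121) (nat_lit 1)) (.cons (.rf (nat_lit 4573) (nat_lit 493820093011328075808)) .nil))) (.cons (.rf (nat_lit 4180) (nat_lit 493787200023617964064)) (.cons (.br (nat_lit 5) (nat_lit 0) (.cons (.ev (nat_lit 20282409603670189507089992253441) (nat_lit 1)) (.cons (.br (nat_lit 8) (nat_lit 1) (.cons (.ev (nat_lit 309489750634853487056257281) (nat_lit 1))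 .nil)) .nil))) .nil)))) .nil)))),
 (.br (nat_lit 5) (nat_lit 0) (.cons (.br (nat_lit 12) (nat_lit 0) (.cons (.kr (nat_lit 79537647524085964137245442304) (nat_lit 36893489246930796544) (nat_lit 1) (nat_lit 0)) .nil)) .nil)),
 (.br (nat_lit 2) (nat_lit 0) (.cons (.rf (nat_lit 4702) (nat_lit 493858305440582043680)) (.cons (.br (nat_lit 7) (nat_lit 0) (.cons (.br (nat_lit 5) (nat_lit 0) (.cons (.br (nat_lit 10) (nat_lit 1) (.cons (.ev (nat_lit 21314235082212155972104656848136) (nat_lit 4)) .nil)) (.cons (.br (nat_lit 13) (nat_lit 0) (.cons (.ev (nat_lit 158457533991458235519340773890) (nat_lit 2)) .nil)) .nil))) (.cons (.ev (nat_lit 79229371458602753890482979073) (nat_lit 1)) .nil))) (.cons (.br (nat_lit 7) (nat_lit 0) (.cons (.ev (nat_lit 1208925891672223229477121) (nat_lit 1)) (.cons (.rf (nat_lit 4703) (nat_lit 15433072044983552032)) .nil))) .nil)))),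
 (.br (nat_lit 2) (nat_lit 0) (.cons (.rf (nat_lit 4702) (nat_lit 493858305440582043680)) (.cons (.rf (nat_lit 4704) (nat_lit 493858305440582043680)) (.cons (.br (nat_lit 5) (nat_lit 0) (.cons (.br (nat_lit 7) (nat_lit 0) (.cons (.br (nat_lit 13) (nat_lit 0) (.cons (.ev (nat_lit 20679176696724999031410531827976) (nat_lit 4)) .nil)) (.cons (.ev (nat_lit 79229371458602753890482979073) (nat_lit 1)) .nil))) (.cons (.ev (nat_lit 309489750634573111607951361) (nat_lit 1)) .nil))) .nil)))),
 (.br (nat_lit 11) (nat_lit 1) (.cons (.rf (nat_lit 4696) (nat_lit 493858305440582043680)) (.cons (.rf (nat_lit 4701) (nat_lit 493858305440582043680)) (.cons (.br (nat_lit 2) (nat_lit 0) (.cons (.rf (nat_lit 4702) (nat_lit 493858305440582043680)) (.cons (.rf (nat_lit 4704) (nat_lit 493858305440582043680)) (.cons (.rf (nat_lit 4705) (nat_lit 493858305440582043680)) (.cons (.br (nat_lit 2) (nat_lit 0) (.cons (.rf (nat_lit 4702) (nat_lit 493858305440582043680)) (.cons (.rf (nat_lit 4704) (nat_lit 493858305440582043680))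 (.cons (.rf (nat_lit 4705) (nat_lit 493858305440582043680)) .nil)))) .nil))))) .nil))))]

theorem c177 : chkAll C T R L177 (nat_lit 4680) = true := by decide +kernel

theorem l177 : (nat_lit 4680) + L177.length = (nat_lit 4707) := by decide +kernel

end Pool.Agent.H93.Neg.Q14_6_0_0_7_1
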