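import Pool.Agent.H93.Neg.TabQ14_6_0_0_7_1

/-!
Certificates.
-/

set_option autoImplicit false
set_option maxRecDepth 100000
set_option linter.all false

namespace Pool.Agent.H93.Neg.Q14_6_0_0_7_1

/-- part of the certificates -/
def L178 : List Prf := [(.br (nat_lit 4) (nat_lit 1) (.cons (.rf (nat_lit 3419) (nat_lit 493750116798163978272)) (.cons (.rf (nat_lit 4680) (nat_lit 493820093010254366752)) (.cons (.br (nat_lit 8) (nat_lit 1) (.cons (.br (nat_lit 13) (nat_lit 0) (.cons (.rf (nat_lit 4683) (nat_lit 493858305440582043680)) (.cons (.rf (nat_lit 4680) (nat_lit 458079526298789742624)) (.cons (.rf (nat_lit 4684) (nat_lit 493858305440582043680)) (.cons (.br (nat_lit 13) (nat_lit 0) (.cons (.rf (nat_lit 4683) (nat_lit 493858305440582043680)) (.cons (.rf (nat_lit 4680) (nat_lit 458079526298789742624)) (.cons (.rf (nat_lit 4684) (nat_lit 493858305440582043680)) .nil)))) .nil))))) (.cons (.kr (nat_lit 79228162514264337593560727552) (nat_lit 18446744078004518912) (nat_lit 3) (nat_lit 0)) (.cons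 (.br (nat_lit 9) (nat_lit 1) (.cons (.br (nat_lit 6) (nat_lit 1) (.cons (.ev (nat_lit 4311810049) (nat_lit 1)) (.cons (.rf (nat_lit 4685) (nat_lit 493858305440582043680)) (.cons (.br (nat_lit 6) (nat_lit 1) (.cons (.ev (nat_lit 4311810049) (nat_lit 1)) (.cons (.rf (nat_lit 4685) (nat_lit 493858305440582043680)) .nil))) .nil)))) (.cons (.br (nat_lit 10) (nat_lit 1) (.cons (.rf (nat_lit 162) (nat_lit 14060635211775969312)) (.cons (.br (nat_lit 11) (nat_lit 1) (.cons (.rf (nat_lit 4686) (nat_lit 493858305440582043680)) (.cons (.br (nat_lit 11) (nat_lit 1) (.cons (.rf (nat_lit 4686) (nat_lit 493858305440582043680)) .nil)) .nil))) .nil))) (.cons (.rf (nat_lit 4680) (nat_lit 458079526298789742624)) .nil)))) (.cons (.br (nat_lit 13) (nat_lit 0) (.cons (.rf (nat_lit 4687) (nat_lit 493858305440582043680)) (.cons (.rf (nat_lit 4680) (nat_lit 458079526298789742624)) (.cons (.rf (nat_lit 4690) (nat_lit 493858305440582043680)) (.cons (.br (nat_lit 13) (nat_lit 0) (.cons (.rf (nat_lit 4687) (nat_lit 493858305440582043680))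 (.cons (.rf (nat_lit 4680) (nat_lit 458079526298789742624)) (.cons (.rf (nat_lit 4690) (nat_lit 493858305440582043680)) .nil)))) .nil))))) .nil))))) (.cons (.br (nat_lit 11) (nat_lit 1) (.cons (.rf (nat_lit 4696) (nat_lit 493858305440582043680)) (.cons (.rf (nat_lit 4701) (nat_lit 493858305440582043680)) (.cons (.rf (nat_lit 4706) (nat_lit 493858305440582043680)) (.cons (.br (nat_lit 11) (nat_lit 1) (.cons (.rf (nat_lit 4696) (nat_lit 493858305440582043680)) (.cons (.rf (nat_lit 4701) (nat_lit 493858305440582043680)) (.cons (.rf (nat_lit 4706) (nat_lit 493858305440582043680)) .nil)))) .nil))))) .nil))))),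
 (.br (nat_lit 11) (nat_lit 1) (.cons (.rf (nat_lit 3419) (nat_lit 493565395547242989600)) (.cons (.rf (nat_lit 4680) (nat_lit 493565395547242988608)) (.cons (.rf (nat_lit 4680) (nat_lit 457929673865483879488)) .nil)))),
 (.br (nat_lit 11) (nat_lit 1) (.cons (.ev (nat_lit 20282719088661492051590481248513) (nat_lit 1)) .nil)),
 (.br (nat_lit 13) (nat_lit 0) (.cons (.rf (nat_lit 4680) (nat_lit 458079526298789741632)) (.cons (.br (nat_lit 2) (nat_lit 0) (.cons (.br (nat_lit 7) (nat_lit 0) (.cons (.rf (nat_lit 4511) (nat_lit 493779530930014226464)) (.cons (.br (nat_lit 11) (nat_lit 1) (.cons (.rf (nat_lit 4680) (nat_lit 457929673865483880480)) (.cons (.rf (nat_lit 4046) (nat_lit 458045470034217796672)) .nil))) .nil))) (.cons (.br (nat_lit 5) (nat_lit 0) (.cons (.ev (nat_lit 20361638979832567604212853112833) (nat_lit 1)) (.cons (.ev (nat_lit 20361637770888301245509968855041) (nat_lit 1)) .nil))) (.cons (.rf (nat_lit 4708) (nat_lit 493858305440582043680)) .nil)))) (.cons (.br (nat_lit 9) (nat_lit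 1) (.cons (.br (nat_lit 10) (nat_lit 1) (.cons (.br (nat_lit 7) (nat_lit 0) (.cons (.ev (nat_lit 18519083147036000513) (nat_lit 1)) (.cons (.br (nat_lit 5) (nat_lit 0) (.cons (.ev (nat_lit 20678555280334617295972624171780) (nat_lit 3)) .nil)) .nil))) (.cons (.br (nat_lit 2) (nat_lit 0) (.cons (.rf (nat_lit 4709) (nat_lit 493858305440582043680)) (.cons (.br (nat_lit 6) (nat_lit 1) (.cons (.ev (nat_lit 20678552843556619779593874900228) (nat_lit 3)) .nil)) .nil))) (.cons (.rf (nat_lit 4396) (nat_lit 15431735038878779424)) .nil)))) (.cons (.rf (nat_lit 4707) (nat_lit 458079526298789741632)) (.cons (.br (nat_lit 6) (nat_lit 1) (.cons (.br (nat_lit 10) (nat_lit 1) (.cons (.br (nat_lit 11) (nat_lit 1) (.cons (.ev (nat_lit 20840118563609599097299008291592) (nat_lit 4)) .nil)) (.cons (.br (nat_lit 11) (nat_lit 1) (.cons (.ev (nat_lit 20679788375188997200894262445828) (nat_lit 3)) .nil)) .nil))) (.cons (.br (nat_lit 10) (nat_lit 1) (.cons (.rf (nat_lit 4709) (nat_lit 493857214725047289888)) (.cons (.rf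 (nat_lit 3505) (nat_lit 493607126409415854112)) .nil))) (.cons (.br (nat_lit 11) (nat_lit 1) (.cons (.ev (nat_lit 20282409603651670705422227996929) (nat_lit 1)) (.cons (.br (nat_lit 1) (nat_lit 0) (.cons (.zr (nat_lit 1218370553143322713522944) (nat_lit 158765810056796764329539141633) (nat_lit 5) (nat_lit 3)) .nil)) .nil))) .nil)))) (.cons (.br (nat_lit 10) (nat_lit 1) (.cons (.rf (nat_lit 4396) (nat_lit 15430610238483564576)) (.cons (.br (nat_lit 1) (nat_lit 0) (.cons (.br (nat_lit 5) (nat_lit 0) (.cons (.ev (nat_lit 309485028340429310977376513) (nat_lit 1)) .nil)) (.cons (.br (nat_lit 6) (nat_lit 1) (.cons (.ev (nat_lit 309485028340429310977376513) (nat_lit 1)) .nil)) .nil))) (.cons (.br (nat_lit 2) (nat_lit 0) (.cons (.br (nat_lit 1) (nat_lit 0) (.cons (.zr (nat_lit 237684496987526544768410779648) (nat_lit 310694009427936009934340097) (nat_lit 5) (nat_lit 0)) .nil)) (.cons (.br (nat_lit 6) (nat_lit 1) (.cons (.ev (nat_lit 159076508733395911687589069570) (nat_lit 2)) .nil)) .nil))) .nil))))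 .nil))))) .nil)))),
 (.br (nat_lit 2) (nat_lit 0) (.cons (.br (nat_lit 11) (nat_lit 1) (.cons (.zr (nat_lit 20440865928680199102432874201344) (nat_lit 310693954088266725874204673) (nat_lit 5) (nat_lit 0)) (.cons (.ev (nat_lit 20282409603670189507089992253441) (nat_lit 1)) .nil))) (.cons (.br (nat_lit 8) (nat_lit 1) (.cons (.br (nat_lit 11) (nat_lit 1) (.cons (.ev (nat_lit 309485028340428215743938561) (nat_lit 1)) .nil)) (.cons (.br (nat_lit 1) (nat_lit 0) (.cons (.ev (nat_lit 20838870914384247339360419381508) (nat_lit 3)) .nil)) .nil))) (.cons (.rf (nat_lit 4396) (nat_lit 14310305778596185152)) .nil)))),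
 (.br (nat_lit 9) (nat_lit 1) (.cons (.ev (nat_lit 20282409608392483651994412646401) (nat_lit 1)) (.cons (.ev (nat_lit 20361637770888301245509968855041) (nat_lit 1)) (.cons (.rf (nat_lit 4711) (nat_lit 458009550086699353152)) .nil)))),
 (.br (nat_lit 11) (nat_lit 1) (.cons (.br (nat_lit 2) (nat_lit 0) (.cons (.br (nat_lit 7) (nat_lit 0) (.cons (.ev (nat_lit 20521953428623911534850478507268) (nat_lit 3)) .nil)) (.cons (.br (nat_lit 6) (nat_lit 1) (.cons (.ev (nat_lit 20520727615806513210498662860552) (nat_lit 4)) .nil)) .nil))) (.cons (.br (nat_lit 6) (nat_lit 1) (.cons (.rf (nat_lit 4152) (nat_lit 457935345140018316352)) (.cons (.br (nat_lit 1) (nat_lit 0) (.cons (.zr (nat_lit 238303457562651875700228752128) (nat_lit 1213721973355285814706177) (nat_lit 5) (nat_lit 0)) .nil)) .nil))) (.cons (.rf (nat_lit 4712) (nat_lit 458009550086699353152)) .nil)))),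
 (.br (nat_lit 13) (nat_lit 0) (.cons (.rf (nat_lit 4710) (nat_lit 493858305440582043680)) (.cons (.rf (nat_lit 4680) (nat_lit 458079526298789741632)) (.cons (.br (nat_lit 5) (nat_lit 0) (.cons (.rf (nat_lit 4711) (nat_lit 493858305440582043680)) (.cons (.rf (nat_lit 4712) (nat_lit 493858305440582043680)) (.cons (.rf (nat_lit 4713) (nat_lit 493858305440582043680)) (.cons (.br (nat_lit 7) (nat_lit 0) (.cons (.rf (nat_lit 4713) (nat_lit 458009550086699353152)) (.cons (.kr (nat_lit 309485028268089142434332672) (nat_lit 20361637766165934761540795236352) (nat_lit 8) (nat_lit 0)) (.cons (.rf (nat_lit 4711) (nat_lit 458009550086699353152)) .nil)))) .nil))))) .nil)))),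
 (.br (nat_lit 13) (nat_lit 0) (.cons (.rf (nat_lit 4710) (nat_lit 493858305440582043680)) (.cons (.rf (nat_lit 4680) (nat_lit 458079526298789741632)) (.cons (.rf (nat_lit 4714) (nat_lit 493858305440582043680)) (.cons (.br (nat_lit 13) (nat_lit 0) (.cons (.rf (nat_lit 4710) (nat_lit 493858305440582043680)) (.cons (.rf (nat_lit 4680) (nat_lit 458079526298789741632)) (.cons (.rf (nat_lit 4714) (nat_lit 493858305440582043680)) .nil)))) .nil))))),
 (.br (nat_lit 6) (nat_lit 1) (.cons (.rf (nat_lit 4680) (nat_lit 458116643612319221792)) (.cons (.rf (nat_lit 4680) (nat_lit 458116643612319220800)) (.cons (.ev (nat_lit 310693935713298771209093121) (nat_lit 1)) (.cons (.ev (nat_lit 20282719088661564108089285672961) (nat_lit 1)) .nil))))),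
 (.br (nat_lit 6) (nat_lit 1) (.cons (.rf (nat_lit 3419) (nat_lit 493787200025760303136)) (.cons (.rf (nat_lit 4680) (nat_lit 493857210323783844928)) (.cons (.rf (nat_lit 4680) (nat_lit 458116643612319220800)) (.cons (.rf (nat_lit 4680) (nat_lit 493823368456464074784)) .nil))))),
 (.br (nat_lit 13) (nat_lit 0) (.cons (.rf (nat_lit 4715) (nat_lit 493858305440582043680)) (.cons (.rf (nat_lit 4680) (nat_lit 458079526298789741632)) (.cons (.br (nat_lit 7) (nat_lit 0) (.cons (.br (nat_lit 1) (nat_lit 0) (.cons (.rf (nat_lit 4680) (nat_lit 458116643612319221792)) (.cons (.rf (nat_lit 3497) (nat_lit 457828279104338789440)) (.cons (.rf (nat_lit 4716) (nat_lit 493858305440582043680)) .nil)))) (.cons (.br (nat_lit 11) (nat_lit 1) (.cons (.br (nat_lit 2) (nat_lit 0) (.cons (.rf (nat_lit 4717) (nat_lit 493858305440582043680)) .nil)) (.cons (.rf (nat_lit 4511) (nat_lit 493779525437824796704)) (.cons (.rf (nat_lit 3502) (nat_lit 15425226996238616608)) .nil)))) (.cons (.br (nat_lit 2) (nat_lit 0) (.cons (.rf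 (nat_lit 4717) (nat_lit 493858305440582043680)) (.cons (.br (nat_lit 6) (nat_lit 1) (.cons (.ev (nat_lit 4722438540463699984641) (nat_lit 1)) (.cons (.ev (nat_lit 79228167255149623234743304193) (nat_lit 1)) .nil))) .nil))) .nil)))) .nil)))),
 (.br (nat_lit 13) (nat_lit 0) (.cons (.rf (nat_lit 4715) (nat_lit 493858305440582043680)) (.cons (.rf (nat_lit 4680) (nat_lit 458079526298789741632)) (.cons (.rf (nat_lit 4718) (nat_lit 493858305440582043680)) (.cons (.br (nat_lit 13) (nat_lit 0) (.cons (.rf (nat_lit 4715) (nat_lit 493858305440582043680)) (.cons (.rf (nat_lit 4680) (nat_lit 458079526298789741632)) (.cons (.rf (nat_lit 4718) (nat_lit 493858305440582043680)) .nil)))) .nil))))),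
 (.br (nat_lit 13) (nat_lit 0) (.cons (.rf (nat_lit 4715) (nat_lit 493858305440582043680)) (.cons (.rf (nat_lit 4719) (nat_lit 493858305440582043680)) (.cons (.rf (nat_lit 4680) (nat_lit 458079526298789741632)) (.cons (.br (nat_lit 13) (nat_lit 0) (.cons (.rf (nat_lit 4715) (nat_lit 493858305440582043680)) (.cons (.rf (nat_lit 4719) (nat_lit 493858305440582043680)) (.cons (.rf (nat_lit 4680) (nat_lit 458079526298789741632)) .nil)))) .nil))))),
 (.br (nat_lit 13) (nat_lit 0) (.cons (.rf (nat_lit 4715) (nat_lit 493858305440582043680)) (.cons (.rf (nat_lit 4719) (nat_lit 493858305440582043680)) (.cons (.rf (nat_lit 4680) (nat_lit 458079526298789741632)) (.cons (.rf (nat_lit 4720) (nat_lit 493858305440582043680)) (.cons (.br (nat_lit 13) (nat_lit 0) (.cons (.rf (nat_lit 4715) (nat_lit 493858305440582043680)) (.cons (.rf (nat_lit 4719) (nat_lit 493858305440582043680)) (.cons (.rf (nat_lit 4680) (nat_lit 458079526298789741632)) (.cons (.rf (nat_lit 4720) (nat_lit 493858305440582043680)) .nil)))))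 .nil)))))),
 (.br (nat_lit 11) (nat_lit 1) (.cons (.rf (nat_lit 4680) (nat_lit 493565395547242988608)) (.cons (.br (nat_lit 13) (nat_lit 0) (.cons (.br (nat_lit 5) (nat_lit 0) (.cons (.br (nat_lit 10) (nat_lit 1) (.cons (.ev (nat_lit 20837632974344963089366360588548) (nat_lit 3)) .nil)) (.cons (.ev (nat_lit 40644356854882767329034995171330) (nat_lit 2)) .nil))) (.cons (.rf (nat_lit 4680) (nat_lit 457824828835778364480)) (.cons (.rf (nat_lit 4680) (nat_lit 457929673865483879488)) .nil)))) (.cons (.br (nat_lit 10) (nat_lit 1) (.cons (.br (nat_lit 7) (nat_lit 0) (.cons (.ev (nat_lit 40644361690586045229017067488260) (nat_lit 3)) (.cons (.zr (nat_lit 61005685135983539947028841759488) (nat_lit 1213648186380077603291137) (nat_lit 5) (nat_lit 6)) .nil))) (.cons (.br (nat_lit 7) (nat_lit 0) (.cons (.rf (nat_lit 4614) (nat_lit 493820093011328075808)) (.cons (.rf (nat_lit 4581) (nat_lit 493820093010254365760)) .nil))) .nil))) .nil)))),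
 (.br (nat_lit 11) (nat_lit 1) (.cons (.rf (nat_lit 4680) (nat_lit 493565395547242988608)) (.cons (.br (nat_lit 7) (nat_lit 0) (.cons (.br (nat_lit 10) (nat_lit 1) (.cons (.ev (nat_lit 1208925891672223229477121) (nat_lit 1)) (.cons (.rf (nat_lit 3884) (nat_lit 493679253268392413216)) .nil))) (.cons (.br (nat_lit 10) (nat_lit 1) (.cons (.br (nat_lit 13) (nat_lit 0) (.cons (.ev (nat_lit 80156631729491304521555706114) (nat_lit 2)) .nil)) (.cons (.ev (nat_lit 20282410812577562377649735598081) (nat_lit 1)) .nil))) (.cons (.br (nat_lit 13) (nat_lit 0) (.cons (.br (nat_lit 2) (nat_lit 0) (.cons (.ev (nat_lit 20837632974344963084985426838788) (nat_lit 3)) .nil)) (.cons (.br (nat_lit 8) (nat_lit 1) (.cons (.ev (nat_lit 20837630556493466282065293017860) (nat_lit 3)) .nil)) .nil))) .nil)))) (.cons (.br (nat_lit 10) (nat_lit 1) (.cons (.ev (nat_lit 20361638975091754376174264910081) (nat_lit 1)) (.cons (.br (nat_lit 7) (nat_lit 0) (.cons (.rf (nat_lit 4614) (nat_lit 493820093011328075808)) (.cons (.br (nat_lit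 2) (nat_lit 0) (.cons (.ev (nat_lit 20679176649316576840517488281348) (nat_lit 3)) .nil)) .nil))) .nil))) .nil)))),
 (.br (nat_lit 11) (nat_lit 1) (.cons (.rf (nat_lit 4722) (nat_lit 493858305440582043680)) (.cons (.rf (nat_lit 4723) (nat_lit 493858305440582043680)) (.cons (.br (nat_lit 10) (nat_lit 1) (.cons (.ev (nat_lit 20361638975091754376174264910081) (nat_lit 1)) (.cons (.br (nat_lit 7) (nat_lit 0) (.cons (.ev (nat_lit 309485028340146740784005121) (nat_lit 1)) (.cons (.ev (nat_lit 20361638979814192916637964828673) (nat_lit 1)) .nil))) (.cons (.br (nat_lit 8) (nat_lit 1) (.cons (.br (nat_lit 5) (nat_lit 0) (.cons (.ev (nat_lit 20837630556493466286446226769668) (nat_lit 3)) .nil)) (.cons (.br (nat_lit 9) (nat_lit 1) (.cons (.ev (nat_lit 309489750634573111607951361) (nat_lit 1)) .nil)) .nil))) .nil)))) .nil)))),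
 (.br (nat_lit 11) (nat_lit 1) (.cons (.rf (nat_lit 3425) (nat_lit 493853628121342904352)) (.cons (.br (nat_lit 13) (nat_lit 0) (.cons (.br (nat_lit 7) (nat_lit 0) (.cons (.br (nat_lit 10) (nat_lit 1) (.cons (.ev (nat_lit 20837632993160640914269329753348) (nat_lit 3)) .nil)) (.cons (.rf (nat_lit 3887) (nat_lit 493853838122695100448)) .nil))) (.cons (.rf (nat_lit 4680) (nat_lit 457824828835778365472)) (.cons (.rf (nat_lit 4680) (nat_lit 457929673865483880480)) .nil)))) (.cons (.br (nat_lit 9) (nat_lit 1) (.cons (.br (nat_lit 10) (nat_lit 1) (.cons (.br (nat_lit 8) (nat_lit 1) (.cons (.zr (nat_lit 2417851639232556884492288) (nat_lit 309489750634853491368001537) (nat_lit 5) (nat_lit 0)) .nil)) .nil)) (.cons (.br (nat_lit 10) (nat_lit 1) (.cons (.br (nat_lit 8) (nat_lit 1) (.cons (.zr (nat_lit 237684496987526544768410779648) (nat_lit 310694009427936009934340097) (nat_lit 5) (nat_lit 0)) .nil)) (.cons (.br (nat_lit 5) (nat_lit 0) (.cons (.ev (nat_lit 1208944266641277389439233) (nat_lit 1)) .nil))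 .nil))) .nil))) .nil)))),
 (.br (nat_lit 11) (nat_lit 1) (.cons (.rf (nat_lit 4725) (nat_lit 493858305440582043680)) (.cons (.rf (nat_lit 4025) (nat_lit 493858200984834115616)) (.cons (.br (nat_lit 8) (nat_lit 1) (.cons (.br (nat_lit 7) (nat_lit 0) (.cons (.br (nat_lit 5) (nat_lit 0) (.cons (.ev (nat_lit 1213648186098602643357953) (nat_lit 1)) .nil)) (.cons (.rf (nat_lit 3869) (nat_lit 493853838122695100448)) .nil))) (.cons (.br (nat_lit 9) (nat_lit 1) (.cons (.ev (nat_lit 79228162532711364241758683393) (nat_lit 1)) (.cons (.br (nat_lit 1) (nat_lit 0) (.cons (.zr (nat_lit 72059793061314816) (nat_lit 1208925819896108463161345) (nat_lit 5) (nat_lit 0)) .nil)) .nil))) (.cons (.ev (nat_lit 309485028340146740784005121) (nat_lit 1)) .nil)))) .nil)))),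
 (.br (nat_lit 8) (nat_lit 1) (.cons (.br (nat_lit 10) (nat_lit 1) (.cons (.rf (nat_lit 4629) (nat_lit 493820093011328075808)) (.cons (.br (nat_lit 7) (nat_lit 0) (.cons (.ev (nat_lit 20838244681364953432767301355268) (nat_lit 3)) .nil)) .nil))) (.cons (.rf (nat_lit 4317) (nat_lit 493857210327004973088)) .nil)))]

theorem c178 : chkAll C T R L178 (nat_lit 4707) = true := by decide +kernel

theorem l178 : (nat_lit 4707) + L178.length = (nat_lit 4728) := by decide +kernel

/-- part of the certificates -/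
def L179 : List Prf := [(.br (nat_lit 7) (nat_lit 0) (.cons (.br (nat_lit 11) (nat_lit 1) (.cons (.rf (nat_lit 4727) (nat_lit 493858305440582043680)) (.cons (.ev (nat_lit 309485028340146740784005121) (nat_lit 1)) .nil))) (.cons (.kr (nat_lit 1208925819615728686333952) (nat_lit 72339069014638592) (nat_lit 5) (nat_lit 0)) .nil))),
 (.br (nat_lit 11) (nat_lit 1) (.cons (.br (nat_lit 7) (nat_lit 0) (.cons (.ev (nat_lit 79229371458602753890482979073) (nat_lit 1)) (.cons (.ev (nat_lit 79229371458602754994272796673) (nat_lit 1)) .nil))) (.cons (.ev (nat_lit 79229371458602754994272796673) (nat_lit 1)) (.cons (.ev (nat_lit 20282410812595936783749663948801) (nat_lit 1)) .nil)))),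
 (.br (nat_lit 13) (nat_lit 0) (.cons (.br (nat_lit 1) (nat_lit 0) (.cons (.kr (nat_lit 20361637766165934762640306864384) (nat_lit 72620543991414784) (nat_lit 1) (nat_lit 0)) .nil)) (.cons (.rf (nat_lit 3917) (nat_lit 493607229761362429984)) .nil))),
 (.br (nat_lit 1) (nat_lit 0) (.cons (.br (nat_lit 2) (nat_lit 0) (.cons (.kr (nat_lit 79537647524157740256306659584) (nat_lit 36893489246930796544) (nat_lit 1) (nat_lit 0)) .nil)) .nil)),
 (.br (nat_lit 6) (nat_lit 1) (.cons (.br (nat_lit 11) (nat_lit 1) (.cons (.rf (nat_lit 4722) (nat_lit 493858305440582043680)) (.cons (.rf (nat_lit 4723) (nat_lit 493858305440582043680)) (.cons (.rf (nat_lit 4724) (nat_lit 493858305440582043680)) (.cons (.br (nat_lit 11) (nat_lit 1) (.cons (.rf (nat_lit 4722) (nat_lit 493858305440582043680)) (.cons (.rf (nat_lit 4723) (nat_lit 493858305440582043680)) (.cons (.rf (nat_lit 4724) (nat_lit 493858305440582043680)) .nil)))) .nil))))) (.cons (.br (nat_lit 11) (nat_lit 1) (.cons (.rf (nat_lit 4725) (nat_lit 493858305440582043680))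 (.cons (.rf (nat_lit 4025) (nat_lit 493858200984834115616)) (.cons (.rf (nat_lit 4726) (nat_lit 493858305440582043680)) (.cons (.br (nat_lit 11) (nat_lit 1) (.cons (.rf (nat_lit 4725) (nat_lit 493858305440582043680)) (.cons (.rf (nat_lit 4025) (nat_lit 493858200984834115616)) (.cons (.rf (nat_lit 4726) (nat_lit 493858305440582043680)) .nil)))) .nil))))) (.cons (.br (nat_lit 2) (nat_lit 0) (.cons (.ev (nat_lit 79228162532711363146525245441) (nat_lit 1)) (.cons (.br (nat_lit 11) (nat_lit 1) (.cons (.rf (nat_lit 4727) (nat_lit 493858305440582043680)) (.cons (.rf (nat_lit 4728) (nat_lit 493858305440582043680)) (.cons (.br (nat_lit 11) (nat_lit 1) (.cons (.rf (nat_lit 4727) (nat_lit 493858305440582043680)) (.cons (.rf (nat_lit 4728) (nat_lit 493858305440582043680)) .nil))) .nil)))) (.cons (.br (nat_lit 7) (nat_lit 0) (.cons (.rf (nat_lit 4729) (nat_lit 493858305440582043680)) (.cons (.br (nat_lit 7) (nat_lit 0) (.cons (.rf (nat_lit 4729) (nat_lit 493858305440582043680)) (.cons (.rf (nat_lit 4730)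 (nat_lit 493858305440582043680)) .nil))) (.cons (.br (nat_lit 7) (nat_lit 0) (.cons (.ev (nat_lit 79229371458602754994272796673) (nat_lit 1)) (.cons (.rf (nat_lit 4730) (nat_lit 493858305440582043680)) .nil))) .nil)))) (.cons (.br (nat_lit 1) (nat_lit 0) (.cons (.rf (nat_lit 3863) (nat_lit 493853838122695100448)) (.cons (.rf (nat_lit 3863) (nat_lit 493853837023184521248)) (.cons (.rf (nat_lit 3863) (nat_lit 493853801838813480992)) (.cons (.rf (nat_lit 2725) (nat_lit 493605890559419189280)) .nil))))) .nil))))) (.cons (.br (nat_lit 5) (nat_lit 0) (.cons (.br (nat_lit 2) (nat_lit 0) (.cons (.br (nat_lit 13) (nat_lit 0) (.cons (.br (nat_lit 1) (nat_lit 0) (.cons (.br (nat_lit 11) (nat_lit 1) (.cons (.ev (nat_lit 20838244700254131138250597140228) (nat_lit 3)) .nil)) .nil)) (.cons (.br (nat_lit 7) (nat_lit 0) (.cons (.ev (nat_lit 20440869555476249650011425538050) (nat_lit 2)) (.cons (.ev (nat_lit 309489750634573111607951361) (nat_lit 1)) .nil))) .nil))) (.cons (.br (nat_lit 7) (nat_lit 0) (.cons (.br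 (nat_lit 11) (nat_lit 1) (.cons (.ev (nat_lit 4740813228047178203393) (nat_lit 1)) (.cons (.ev (nat_lit 20361637770906820046082499674113) (nat_lit 1)) .nil))) (.cons (.br (nat_lit 11) (nat_lit 1) (.cons (.rf (nat_lit 4461) (nat_lit 493823368456464073792)) (.cons (.br (nat_lit 1) (nat_lit 0) (.cons (.ev (nat_lit 20838244681401704498948748018948) (nat_lit 3)) .nil)) .nil))) .nil))) (.cons (.br (nat_lit 11) (nat_lit 1) (.cons (.rf (nat_lit 3419) (nat_lit 493565395547242989600)) (.cons (.rf (nat_lit 4464) (nat_lit 493823368456464074784)) (.cons (.br (nat_lit 7) (nat_lit 0) (.cons (.ev (nat_lit 4722438823038171545601) (nat_lit 1)) (.cons (.ev (nat_lit 20520096509064694372975794782210) (nat_lit 2)) .nil))) .nil)))) .nil)))) (.cons (.br (nat_lit 13) (nat_lit 0) (.cons (.br (nat_lit 7) (nat_lit 0) (.cons (.br (nat_lit 2) (nat_lit 0) (.cons (.br (nat_lit 1) (nat_lit 0) (.cons (.ev (nat_lit 79537652246597127356878487810) (nat_lit 2)) .nil)) .nil)) (.cons (.br (nat_lit 10) (nat_lit 1) (.cons (.br (nat_lit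 11) (nat_lit 1) (.cons (.ev (nat_lit 81088723018112418031956525828) (nat_lit 3)) .nil)) (.cons (.br (nat_lit 11) (nat_lit 1) (.cons (.ev (nat_lit 20837632974270886756795463828740) (nat_lit 3)) .nil)) .nil))) .nil))) (.cons (.br (nat_lit 7) (nat_lit 0) (.cons (.rf (nat_lit 4731) (nat_lit 15431909825759512608)) (.cons (.br (nat_lit 8) (nat_lit 1) (.cons (.ev (nat_lit 20361638975110273459316989100033) (nat_lit 1)) (.cons (.ev (nat_lit 79228167292187789520191750146) (nat_lit 2)) .nil))) .nil))) (.cons (.br (nat_lit 2) (nat_lit 0) (.cons (.br (nat_lit 11) (nat_lit 1) (.cons (.ev (nat_lit 20361637766184381505618799755521) (nat_lit 1)) (.cons (.ev (nat_lit 79228167292187789520191750146) (nat_lit 2)) .nil))) (.cons (.ev (nat_lit 20361638975091754377269498347521) (nat_lit 1)) (.cons (.br (nat_lit 7) (nat_lit 0) (.cons (.rf (nat_lit 4617) (nat_lit 493750116792801527840)) (.cons (.ev (nat_lit 20282719093383930310583465869313) (nat_lit 1)) .nil))) .nil)))) .nil)))) (.cons (.br (nat_lit 13) (nat_lit 0) (.cons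 (.br (nat_lit 2) (nat_lit 0) (.cons (.br (nat_lit 11) (nat_lit 1) (.cons (.kr (nat_lit 20361637766165934761540795236608) (nat_lit 1208925819896104151482368) (nat_lit 1) (nat_lit 0)) (.cons (.kr (nat_lit 1208925891672231802568704) (nat_lit 9444733248313778765824) (nat_lit 4) (nat_lit 0)) .nil))) (.cons (.br (nat_lit 11) (nat_lit 1) (.cons (.rf (nat_lit 3419) (nat_lit 493565395547242989600)) (.cons (.br (nat_lit 9) (nat_lit 1) (.cons (.ev (nat_lit 309499214031018669560103170) (nat_lit 2)) .nil)) .nil))) .nil))) (.cons (.br (nat_lit 2) (nat_lit 0) (.cons (.br (nat_lit 7) (nat_lit 0) (.cons (.br (nat_lit 11) (nat_lit 1) (.cons (.ev (nat_lit 475370184011479106267495269892) (nat_lit 3)) .nil)) .nil)) (.cons (.br (nat_lit 11) (nat_lit 1) (.cons (.rf (nat_lit 3419) (nat_lit 493565395547242989600)) (.cons (.rf (nat_lit 4680) (nat_lit 457824828835778364480)) .nil))) .nil))) (.cons (.br (nat_lit 11) (nat_lit 1) (.cons (.br (nat_lit 2) (nat_lit 0) (.cons (.ev (nat_lit 20361637766184381505618799755521) (nat_lit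 1)) (.cons (.br (nat_lit 8) (nat_lit 1) (.cons (.zr (nat_lit 9444733531987778928640) (nat_lit 310693954087703788805685249) (nat_lit 5) (nat_lit 0)) .nil)) .nil))) (.cons (.br (nat_lit 7) (nat_lit 0) (.cons (.ev (nat_lit 121774000105266802127079016300548) (nat_lit 3)) (.cons (.ev (nat_lit 20361947255898122870958436974593) (nat_lit 1)) .nil))) (.cons (.br (nat_lit 8) (nat_lit 1) (.cons (.zr (nat_lit 61084913298497876344415446893312) (nat_lit 313111805727495988518584321) (nat_lit 5) (nat_lit 0)) (.cons (.ev (nat_lit 40564820416266126290839656202242) (nat_lit 2)) .nil))) .nil)))) .nil)))) (.cons (.br (nat_lit 11) (nat_lit 1) (.cons (.rf (nat_lit 4680) (nat_lit 493565395547242989600)) (.cons (.rf (nat_lit 4680) (nat_lit 493565395547242988608)) (.cons (.br (nat_lit 10) (nat_lit 1) (.cons (.br (nat_lit 9) (nat_lit 1) (.cons (.br (nat_lit 8) (nat_lit 1) (.cons (.ev (nat_lit 20837632974344963084985426838788) (nat_lit 3)) .nil)) (.cons (.br (nat_lit 2) (nat_lit 0) (.cons (.ev (nat_lit 20837630575382643983150542292740)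 (nat_lit 3)) .nil)) .nil))) (.cons (.br (nat_lit 13) (nat_lit 0) (.cons (.br (nat_lit 1) (nat_lit 0) (.cons (.ev (nat_lit 20837632974270886756795463828740) (nat_lit 3)) .nil)) (.cons (.ev (nat_lit 20361638975091754377269498347521) (nat_lit 1)) .nil))) (.cons (.br (nat_lit 8) (nat_lit 1) (.cons (.ev (nat_lit 20361638975110273459316989100033) (nat_lit 1)) (.cons (.br (nat_lit 9) (nat_lit 1) (.cons (.ev (nat_lit 20523203514627264193473364692744) (nat_lit 4)) .nil)) .nil))) .nil)))) (.cons (.br (nat_lit 9) (nat_lit 1) (.cons (.br (nat_lit 7) (nat_lit 0) (.cons (.br (nat_lit 2) (nat_lit 0) (.cons (.ev (nat_lit 79229371458602754994272796673) (nat_lit 1)) .nil)) (.cons (.br (nat_lit 2) (nat_lit 0) (.cons (.ev (nat_lit 79229371458602754994272796673) (nat_lit 1)) .nil)) .nil))) (.cons (.br (nat_lit 7) (nat_lit 0) (.cons (.rf (nat_lit 4037) (nat_lit 493675982221298731040)) (.cons (.ev (nat_lit 20282719093383930310583465869313) (nat_lit 1)) .nil))) (.cons (.br (nat_lit 1) (nat_lit 0) (.cons (.br (nat_lit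 2) (nat_lit 0) (.cons (.ev (nat_lit 20520096537380663547729392370948) (nat_lit 3)) .nil)) (.cons (.ev (nat_lit 20361637770888301525885417160961) (nat_lit 1)) .nil))) .nil)))) .nil))))) .nil))))) .nil))))),
 (.br (nat_lit 11) (nat_lit 1) (.cons (.rf (nat_lit 4680) (nat_lit 493565395547242989600)) (.cons (.rf (nat_lit 4680) (nat_lit 493565395547242988608)) (.cons (.br (nat_lit 10) (nat_lit 1) (.cons (.rf (nat_lit 4187) (nat_lit 15431735008783599648)) (.cons (.br (nat_lit 7) (nat_lit 0) (.cons (.br (nat_lit 6) (nat_lit 1) (.cons (.ev (nat_lit 22424082215392790060292817493776) (nat_lit 5)) .nil)) .nil)) (.cons (.rf (nat_lit 3691) (nat_lit 15425157729152501792)) .nil)))) .nil)))),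
 (.br (nat_lit 11) (nat_lit 1) (.cons (.rf (nat_lit 4680) (nat_lit 493565395547242989600)) (.cons (.rf (nat_lit 4680) (nat_lit 493565395547242988608)) (.cons (.br (nat_lit 9) (nat_lit 1) (.cons (.rf (nat_lit 4187) (nat_lit 15430610208388384800)) (.cons (.br (nat_lit 7) (nat_lit 0) (.cons (.br (nat_lit 1) (nat_lit 0) (.cons (.ev (nat_lit 158765824224040611804879061250) (nat_lit 2)) .nil)) .nil)) (.cons (.rf (nat_lit 3691) (nat_lit 15425192912450848800)) .nil)))) .nil)))),
 (.br (nat_lit 6) (nat_lit 1) (.cons (.rf (nat_lit 4680) (nat_lit 458116643612319221792)) (.cons (.rf (nat_lit 4680) (nat_lit 458116643612319220800)) (.cons (.br (nat_lit 11) (nat_lit 1) (.cons (.br (nat_lit 10) (nat_lit 1) (.cons (.br (nat_lit 7) (nat_lit 0) (.cons (.ev (nat_lit 21157638085094194600977657169672) (nat_lit 4)) .nil)) (.cons (.rf (nat_lit 3884) (nat_lit 493853838122695100448)) .nil))) (.cons (.rf (nat_lit 4025) (nat_lit 493678232921599739936)) (.cons (.br (nat_lit 9) (nat_lit 1) (.cons (.br (nat_lit 10) (nat_lit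 1) (.cons (.zr (nat_lit 9444733531987778928640) (nat_lit 310693954087703775971115009) (nat_lit 5) (nat_lit 0)) .nil)) (.cons (.br (nat_lit 10) (nat_lit 1) (.cons (.ev (nat_lit 21157642901759857840607994777352) (nat_lit 4)) .nil)) .nil))) .nil)))) .nil)))),
 (.br (nat_lit 7) (nat_lit 0) (.cons (.rf (nat_lit 4735) (nat_lit 493858305440582043680)) (.cons (.br (nat_lit 1) (nat_lit 0) (.cons (.rf (nat_lit 4508) (nat_lit 493817741155956262944)) (.cons (.br (nat_lit 5) (nat_lit 0) (.cons (.br (nat_lit 2) (nat_lit 0) (.cons (.ev (nat_lit 20837632974344963084968314078468) (nat_lit 3)) .nil)) .nil)) .nil))) (.cons (.br (nat_lit 5) (nat_lit 0) (.cons (.br (nat_lit 6) (nat_lit 1) (.cons (.rf (nat_lit 4680) (nat_lit 493857210323783845920)) (.cons (.rf (nat_lit 4680) (nat_lit 493857210323783844928)) .nil))) (.cons (.br (nat_lit 2) (nat_lit 0) (.cons (.zr (nat_lit 20361637766166078878927894478848) (nat_lit 310698676454186645565997057) (nat_lit 5) (nat_lit 0)) .nil)) .nil))) .nil)))),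
 (.br (nat_lit 7) (nat_lit 0) (.cons (.rf (nat_lit 4735) (nat_lit 493858305440582043680)) (.cons (.rf (nat_lit 4736) (nat_lit 493858305440582043680)) (.cons (.br (nat_lit 2) (nat_lit 0) (.cons (.br (nat_lit 6) (nat_lit 1) (.cons (.kr (nat_lit 1208925819614629174706432) (nat_lit 72339069014638592) (nat_lit 1) (nat_lit 0)) (.cons (.rf (nat_lit 4680) (nat_lit 493857210323783844928)) .nil))) (.cons (.rf (nat_lit 3886) (nat_lit 15433072007406782496)) .nil))) .nil)))),
 (.br (nat_lit 13) (nat_lit 0) (.cons (.rf (nat_lit 4732) (nat_lit 493858305440582043680)) (.cons (.br (nat_lit 11) (nat_lit 1) (.cons (.rf (nat_lit 3993) (nat_lit 458116643612319221792)) (.cons (.rf (nat_lit 3993) (nat_lit 458116643612319220800)) (.cons (.rf (nat_lit 4733) (nat_lit 493858305440582043680)) (.cons (.br (nat_lit 11) (nat_lit 1) (.cons (.rf (nat_lit 4680) (nat_lit 457824828835778365472)) (.cons (.rf (nat_lit 4680) (nat_lit 457824828835778364480)) (.cons (.rf (nat_lit 4733) (nat_lit 493858305440582043680)) .nil)))) .nil)))))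 (.cons (.br (nat_lit 11) (nat_lit 1) (.cons (.rf (nat_lit 3998) (nat_lit 458117738729117418560)) (.cons (.rf (nat_lit 3998) (nat_lit 458117738729117419552)) (.cons (.rf (nat_lit 4734) (nat_lit 493858305440582043680)) (.cons (.br (nat_lit 11) (nat_lit 1) (.cons (.rf (nat_lit 4680) (nat_lit 457929673865483880480)) (.cons (.rf (nat_lit 4680) (nat_lit 457929673865483879488)) (.cons (.rf (nat_lit 4734) (nat_lit 493858305440582043680)) .nil)))) .nil))))) (.cons (.br (nat_lit 7) (nat_lit 0) (.cons (.rf (nat_lit 4735) (nat_lit 493858305440582043680)) (.cons (.rf (nat_lit 4736) (nat_lit 493858305440582043680)) (.cons (.rf (nat_lit 4737) (nat_lit 493858305440582043680)) (.cons (.br (nat_lit 7) (nat_lit 0) (.cons (.rf (nat_lit 4735) (nat_lit 493858305440582043680)) (.cons (.rf (nat_lit 4736) (nat_lit 493858305440582043680)) (.cons (.rf (nat_lit 4737) (nat_lit 493858305440582043680)) .nil)))) .nil))))) .nil))))),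
 (.br (nat_lit 7) (nat_lit 0) (.cons (.br (nat_lit 6) (nat_lit 1) (.cons (.br (nat_lit 2) (nat_lit 0) (.cons (.br (nat_lit 11) (nat_lit 1) (.cons (.ev (nat_lit 20361642620795934059059839436548) (nat_lit 3)) .nil)) .nil)) (.cons (.rf (nat_lit 4511) (nat_lit 493745753930662512672)) (.cons (.rf (nat_lit 3691) (nat_lit 15425187413820016672)) .nil)))) (.cons (.br (nat_lit 11) (nat_lit 1) (.cons (.rf (nat_lit 4680) (nat_lit 457824828835778365472)) (.cons (.rf (nat_lit 4680) (nat_lit 457824828835778364480)) (.cons (.br (nat_lit 8) (nat_lit 1) (.cons (.rf (nat_lit 4187) (nat_lit 15429484308482590752)) (.cons (.zr (nat_lit 929668677650132704994328576) (nat_lit 40723275532331869523081590472705) (nat_lit 5) (nat_lit 11)) .nil))) .nil)))) .nil))),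
 (.br (nat_lit 7) (nat_lit 0) (.cons (.rf (nat_lit 4739) (nat_lit 493858305440582043680)) (.cons (.br (nat_lit 11) (nat_lit 1) (.cons (.rf (nat_lit 4680) (nat_lit 457824828835778365472)) (.cons (.rf (nat_lit 4680) (nat_lit 457824828835778364480)) (.cons (.rf (nat_lit 3691) (nat_lit 15425192911378155552)) .nil)))) .nil))),
 (.br (nat_lit 7) (nat_lit 0) (.cons (.br (nat_lit 1) (nat_lit 0) (.cons (.br (nat_lit 2) (nat_lit 0) (.cons (.ev (nat_lit 20282410812595936782654430511361) (nat_lit 1)) (.cons (.kr (nat_lit 20282409603670117168020960837888) (nat_lit 309485009893402662779486208) (nat_lit 1) (nat_lit 0)) .nil))) (.cons (.rf (nat_lit 3716) (nat_lit 493605046135562536992)) (.cons (.br (nat_lit 2) (nat_lit 0) (.cons (.br (nat_lit 5) (nat_lit 0) (.cons (.zr (nat_lit 237684496987526544768410779648) (nat_lit 310694009427936009934340097) (nat_lit 5) (nat_lit 0)) .nil)) (.cons (.ev (nat_lit 1208925891672223229477121) (nat_lit 1)) .nil))) .nil)))) (.cons (.br (nat_lit 1) (nat_lit 0) (.cons (.ev (nat_lit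 20282410812577562377649735598081) (nat_lit 1)) (.cons (.rf (nat_lit 3716) (nat_lit 493605046133417150496)) (.cons (.br (nat_lit 6) (nat_lit 1) (.cons (.ev (nat_lit 20282719093383930309483954241793) (nat_lit 1)) (.cons (.br (nat_lit 8) (nat_lit 1) (.cons (.ev (nat_lit 20523201077811936882941817061640) (nat_lit 4)) .nil)) .nil))) .nil)))) (.cons (.br (nat_lit 1) (nat_lit 0) (.cons (.rf (nat_lit 4592) (nat_lit 493820093010254365760)) (.cons (.ev (nat_lit 309489750634572012096323841) (nat_lit 1)) (.cons (.br (nat_lit 2) (nat_lit 0) (.cons (.kr (nat_lit 9444733247214267138304) (nat_lit 1208925891672231802568704) (nat_lit 1) (nat_lit 0)) (.cons (.ev (nat_lit 20282410817318375323113818685441) (nat_lit 1)) .nil))) .nil)))) .nil)))),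
 (.br (nat_lit 7) (nat_lit 0) (.cons (.rf (nat_lit 4741) (nat_lit 493858305440582043680)) (.cons (.br (nat_lit 1) (nat_lit 0) (.cons (.rf (nat_lit 4508) (nat_lit 493817776340327303200)) (.cons (.rf (nat_lit 4614) (nat_lit 493750116792801527840)) .nil))) (.cons (.ev (nat_lit 309485028340146740784005121) (nat_lit 1)) .nil)))),
 (.br (nat_lit 7) (nat_lit 0) (.cons (.rf (nat_lit 4741) (nat_lit 493858305440582043680)) (.cons (.rf (nat_lit 4742) (nat_lit 493858305440582043680)) (.cons (.br (nat_lit 1) (nat_lit 0) (.cons (.br (nat_lit 2) (nat_lit 0) (.cons (.kr (nat_lit 1208925819614629174706432) (nat_lit 72339069014638592) (nat_lit 1) (nat_lit 0)) (.cons (.ev (nat_lit 20282410812595936782654430511361) (nat_lit 1)) .nil))) (.cons (.ev (nat_lit 309489750634572012096323841) (nat_lit 1)) .nil))) .nil)))),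
 (.br (nat_lit 13) (nat_lit 0) (.cons (.rf (nat_lit 4732) (nat_lit 493858305440582043680)) (.cons (.rf (nat_lit 4738) (nat_lit 493858305440582043680)) (.cons (.br (nat_lit 7) (nat_lit 0) (.cons (.rf (nat_lit 4739) (nat_lit 493858305440582043680)) (.cons (.rf (nat_lit 4740) (nat_lit 493858305440582043680)) (.cons (.br (nat_lit 7) (nat_lit 0) (.cons (.rf (nat_lit 4739) (nat_lit 493858305440582043680)) (.cons (.rf (nat_lit 4740) (nat_lit 493858305440582043680)) .nil))) .nil)))) (.cons (.br (nat_lit 7) (nat_lit 0) (.cons (.rf (nat_lit 4741) (nat_lit 493858305440582043680)) (.cons (.rf (nat_lit 4742) (nat_lit 493858305440582043680)) (.cons (.rf (nat_lit 4743) (nat_lit 493858305440582043680)) (.cons (.br (nat_lit 7) (nat_lit 0) (.cons (.rf (nat_lit 4741) (nat_lit 493858305440582043680)) (.cons (.ev (nat_lit 309485028340146740784005121) (nat_lit 1)) (.cons (.rf (nat_lit 4743) (nat_lit 493858305440582043680)) .nil)))) .nil))))) .nil)))))]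

theorem c179 : chkAll C T R L179 (nat_lit 4728) = true := by decide +kernel

theorem l179 : (nat_lit 4728) + L179.length = (nat_lit 4745) := by decide +kernel

/-- part of the certificates -/
def L180 : List Prf := [(.br (nat_lit 6) (nat_lit 1) (.cons (.rf (nat_lit 4707) (nat_lit 458046633314295679008)) (.cons (.rf (nat_lit 4721) (nat_lit 458046633314295678016)) (.cons (.br (nat_lit 11) (nat_lit 1) (.cons (.br (nat_lit 8) (nat_lit 1) (.cons (.ev (nat_lit 1208944266641277389439233) (nat_lit 1)) (.cons (.br (nat_lit 2) (nat_lit 0) (.cons (.ev (nat_lit 20838249516994444914989161973508) (nat_lit 3)) .nil)) .nil))) (.cons (.rf (nat_lit 4025) (nat_lit 493678232921599739936)) (.cons (.br (nat_lit 2) (nat_lit 0) (.cons (.br (nat_lit 9) (nat_lit 1) (.cons (.ev (nat_lit 20998570024563326834796944754952) (nat_lit 4)) .nil)) (.cons (.ev (nat_lit 20282719088661491769015976132609) (nat_lit 1)) .nil))) .nil)))) .nil)))),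
 (.br (nat_lit 7) (nat_lit 0) (.cons (.rf (nat_lit 4745) (nat_lit 493858305440582043680)) (.cons (.br (nat_lit 1) (nat_lit 0) (.cons (.rf (nat_lit 4508) (nat_lit 493781782727680428064)) (.cons (.br (nat_lit 5) (nat_lit 0) (.cons (.br (nat_lit 6) (nat_lit 1) (.cons (.ev (nat_lit 20361642620795934059076952196868) (nat_lit 3)) .nil)) .nil)) .nil))) (.cons (.ev (nat_lit 309485028340146740784005121) (nat_lit 1)) .nil)))),
 (.br (nat_lit 7) (nat_lit 0) (.cons (.rf (nat_lit 4745) (nat_lit 493858305440582043680)) (.cons (.rf (nat_lit 4746) (nat_lit 493858305440582043680)) (.cons (.br (nat_lit 1) (nat_lit 0) (.cons (.br (nat_lit 6) (nat_lit 1) (.cons (.rf (nat_lit 3419) (nat_lit 493787200025760303136)) (.cons (.rf (nat_lit 4680) (nat_lit 493857210323783845920)) .nil))) (.cons (.br (nat_lit 2) (nat_lit 0) (.cons (.br (nat_lit 6) (nat_lit 1) (.cons (.zr (nat_lit 237686905394648414821128798208) (nat_lit 309503973074534321415520257) (nat_lit 5) (nat_lit 0)) .nil)) .nil)) .nil))) .nil)))),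
 (.br (nat_lit 13) (nat_lit 0) (.cons (.rf (nat_lit 4732) (nat_lit 493858305440582043680)) (.cons (.rf (nat_lit 4738) (nat_lit 493858305440582043680)) (.cons (.rf (nat_lit 4744) (nat_lit 493858305440582043680)) (.cons (.br (nat_lit 7) (nat_lit 0) (.cons (.rf (nat_lit 4745) (nat_lit 493858305440582043680)) (.cons (.rf (nat_lit 4746) (nat_lit 493858305440582043680)) (.cons (.rf (nat_lit 4747) (nat_lit 493858305440582043680)) (.cons (.br (nat_lit 7) (nat_lit 0) (.cons (.rf (nat_lit 4745) (nat_lit 493858305440582043680)) (.cons (.ev (nat_lit 309485028340146740784005121) (nat_lit 1)) (.cons (.rf (nat_lit 4747) (nat_lit 493858305440582043680)) .nil)))) .nil))))) .nil))))),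
 (.br (nat_lit 4) (nat_lit 1) (.cons (.rf (nat_lit 3419) (nat_lit 493750116798163978272)) (.cons (.rf (nat_lit 4680) (nat_lit 493820093010254365760)) (.cons (.rf (nat_lit 4721) (nat_lit 493858305440582043680)) (.cons (.br (nat_lit 13) (nat_lit 0) (.cons (.rf (nat_lit 4732) (nat_lit 493858305440582043680)) (.cons (.rf (nat_lit 4738) (nat_lit 493858305440582043680)) (.cons (.rf (nat_lit 4744) (nat_lit 493858305440582043680)) (.cons (.rf (nat_lit 4748) (nat_lit 493858305440582043680)) (.cons (.br (nat_lit 13) (nat_lit 0) (.cons (.rf (nat_lit 4732) (nat_lit 493858305440582043680)) (.cons (.rf (nat_lit 4738) (nat_lit 493858305440582043680)) (.cons (.rf (nat_lit 4744) (nat_lit 493858305440582043680)) (.cons (.rf (nat_lit 4748) (nat_lit 493858305440582043680)) .nil))))) .nil)))))) .nil))))),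
 (.br (nat_lit 13) (nat_lit 0) (.cons (.br (nat_lit 11) (nat_lit 1) (.cons (.rf (nat_lit 4149) (nat_lit 458079526298789742624)) (.cons (.rf (nat_lit 4149) (nat_lit 458079526298789741632)) (.cons (.rf (nat_lit 3765) (nat_lit 457864203446677406784)) .nil)))) (.cons (.br (nat_lit 10) (nat_lit 1) (.cons (.ev (nat_lit 20282410812595936783753942138881) (nat_lit 1)) (.cons (.ev (nat_lit 20361638975091754377269498347521) (nat_lit 1)) (.cons (.br (nat_lit 1) (nat_lit 0) (.cons (.br (nat_lit 2) (nat_lit 0) (.cons (.ev (nat_lit 20679176649464151921231965521160) (nat_lit 4)) .nil)) (.cons (.br (nat_lit 2) (nat_lit 0) (.cons (.ev (nat_lit 20837632974455787108263077938440) (nat_lit 4)) .nil)) .nil))) .nil)))) .nil))),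
 (.br (nat_lit 13) (nat_lit 0) (.cons (.rf (nat_lit 4750) (nat_lit 493858305440582043680)) (.cons (.br (nat_lit 7) (nat_lit 0) (.cons (.br (nat_lit 2) (nat_lit 0) (.cons (.br (nat_lit 11) (nat_lit 1) (.cons (.ev (nat_lit 20679790783632654528438660957956) (nat_lit 3)) .nil)) (.cons (.br (nat_lit 1) (nat_lit 0) (.cons (.ev (nat_lit 20838247108624289715469773375236) (nat_lit 3)) .nil)) .nil))) (.cons (.kr (nat_lit 1208925891672227507601408) (nat_lit 79228167236630821562700791808) (nat_lit 4) (nat_lit 0)) (.cons (.br (nat_lit 6) (nat_lit 1) (.cons (.ev (nat_lit 309485028340428215743938561) (nat_lit 1)) (.cons (.ev (nat_lit 79537647524158021731300147201) (nat_lit 1)) .nil))) .nil)))) .nil))),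
 (.br (nat_lit 13) (nat_lit 0) (.cons (.rf (nat_lit 4750) (nat_lit 493858305440582043680)) (.cons (.rf (nat_lit 4751) (nat_lit 493858305440582043680)) (.cons (.br (nat_lit 13) (nat_lit 0) (.cons (.rf (nat_lit 4750) (nat_lit 493858305440582043680)) (.cons (.rf (nat_lit 4751) (nat_lit 493858305440582043680)) .nil))) .nil)))),
 (.br (nat_lit 13) (nat_lit 0) (.cons (.rf (nat_lit 4752) (nat_lit 493858305440582043680)) (.cons (.br (nat_lit 2) (nat_lit 0) (.cons (.br (nat_lit 1) (nat_lit 0) (.cons (.rf (nat_lit 3419) (nat_lit 493787200025760303136)) (.cons (.br (nat_lit 6) (nat_lit 1) (.cons (.ev (nat_lit 310693935713298771209093121) (nat_lit 1)) .nil)) .nil))) (.cons (.br (nat_lit 1) (nat_lit 0) (.cons (.br (nat_lit 6) (nat_lit 1) (.cons (.ev (nat_lit 310693935713298771209093121) (nat_lit 1)) .nil)) .nil)) .nil))) .nil))),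
 (.br (nat_lit 13) (nat_lit 0) (.cons (.rf (nat_lit 4752) (nat_lit 493858305440582043680)) (.cons (.rf (nat_lit 4753) (nat_lit 493858305440582043680)) (.cons (.br (nat_lit 13) (nat_lit 0) (.cons (.rf (nat_lit 4752) (nat_lit 493858305440582043680)) (.cons (.rf (nat_lit 4753) (nat_lit 493858305440582043680)) .nil))) .nil)))),
 (.br (nat_lit 13) (nat_lit 0) (.cons (.rf (nat_lit 4752) (nat_lit 493858305440582043680)) (.cons (.rf (nat_lit 4754) (nat_lit 493858305440582043680)) (.cons (.br (nat_lit 13) (nat_lit 0) (.cons (.rf (nat_lit 4752) (nat_lit 493858305440582043680)) (.cons (.rf (nat_lit 4754) (nat_lit 493858305440582043680)) .nil))) .nil)))),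
 (.br (nat_lit 2) (nat_lit 0) (.cons (.br (nat_lit 11) (nat_lit 1) (.cons (.br (nat_lit 13) (nat_lit 0) (.cons (.zr (nat_lit 36893491445954183168) (nat_lit 310698658007724046833156097) (nat_lit 5) (nat_lit 0)) .nil)) .nil)) (.cons (.ev (nat_lit 1208925891672223229477121) (nat_lit 1)) .nil))),
 (.br (nat_lit 6) (nat_lit 1) (.cons (.rf (nat_lit 3419) (nat_lit 493787200025760303136)) (.cons (.br (nat_lit 11) (nat_lit 1) (.cons (.rf (nat_lit 4756) (nat_lit 493858305440582043680)) (.cons (.br (nat_lit 11) (nat_lit 1) (.cons (.rf (nat_lit 4756) (nat_lit 493858305440582043680)) .nil)) .nil))) .nil))),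
 (.br (nat_lit 6) (nat_lit 1) (.cons (.rf (nat_lit 3419) (nat_lit 493787200025760303136)) (.cons (.br (nat_lit 13) (nat_lit 0) (.cons (.br (nat_lit 10) (nat_lit 1) (.cons (.rf (nat_lit 3689) (nat_lit 15427437014610446368)) (.cons (.ev (nat_lit 1213648186378978091663361) (nat_lit 1)) (.cons (.rf (nat_lit 3691) (nat_lit 15427437014610446368)) .nil)))) (.cons (.br (nat_lit 1) (nat_lit 0) (.cons (.rf (nat_lit 3689) (nat_lit 15427401830239406112)) (.cons (.br (nat_lit 13) (nat_lit 0) (.cons (.rf (nat_lit 3691) (nat_lit 15427437014610446368)) (.cons (.ev (nat_lit 309485028340147840295633153) (nat_lit 1)) .nil))) .nil))) (.cons (.br (nat_lit 11) (nat_lit 1) (.cons (.ev (nat_lit 309485028340147840295633153) (nat_lit 1)) (.cons (.rf (nat_lit 4025) (nat_lit 493606175329709295648)) .nil))) .nil)))) .nil))),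
 (.br (nat_lit 6) (nat_lit 1) (.cons (.rf (nat_lit 3419) (nat_lit 493787200025760303136)) (.cons (.rf (nat_lit 4680) (nat_lit 458116643612319220800)) (.cons (.br (nat_lit 2) (nat_lit 0) (.cons (.br (nat_lit 7) (nat_lit 0) (.cons (.rf (nat_lit 4032) (nat_lit 493858129518726842400)) (.cons (.br (nat_lit 11) (nat_lit 1) (.cons (.ev (nat_lit 309485028340428215743938561) (nat_lit 1)) (.cons (.ev (nat_lit 79537647524158021731300147201) (nat_lit 1)) .nil))) .nil))) (.cons (.br (nat_lit 1) (nat_lit 0) (.cons (.ev (nat_lit 79229376180897460641066975233) (nat_lit 1)) (.cons (.br (nat_lit 7) (nat_lit 0) (.cons (.br (nat_lit 13) (nat_lit 0) (.cons (.ev (nat_lit 309489750634854586567884801) (nat_lit 1)) .nil)) (.cons (.ev (nat_lit 1208925891954797701038081) (nat_lit 1)) .nil))) .nil))) (.cons (.br (nat_lit 11) (nat_lit 1) (.cons (.rf (nat_lit 2725) (nat_lit 493677945954433861664)) (.cons (.rf (nat_lit 3543) (nat_lit 493679113635782297632)) (.cons (.rf (nat_lit 4025) (nat_lit 493606175329709295648)) .nil))))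 .nil)))) .nil)))),
 (.br (nat_lit 7) (nat_lit 0) (.cons (.ev (nat_lit 79228162514336677762070282241) (nat_lit 1)) (.cons (.br (nat_lit 13) (nat_lit 0) (.cons (.br (nat_lit 6) (nat_lit 1) (.cons (.ev (nat_lit 309489750634854586567884801) (nat_lit 1)) .nil)) .nil)) .nil))),
 (.br (nat_lit 2) (nat_lit 0) (.cons (.rf (nat_lit 4759) (nat_lit 493858305440582043680)) (.cons (.br (nat_lit 13) (nat_lit 0) (.cons (.rf (nat_lit 4760) (nat_lit 493858305440582043680)) (.cons (.br (nat_lit 13) (nat_lit 0) (.cons (.rf (nat_lit 4760) (nat_lit 493858305440582043680)) .nil)) .nil))) (.cons (.br (nat_lit 1) (nat_lit 0) (.cons (.br (nat_lit 6) (nat_lit 1) (.cons (.rf (nat_lit 4680) (nat_lit 458116643612319221792)) (.cons (.br (nat_lit 10) (nat_lit 1) (.cons (.ev (nat_lit 1208925891954802012782593) (nat_lit 1)) (.cons (.rf (nat_lit 4708) (nat_lit 493858305440582043680)) .nil))) .nil))) (.cons (.br (nat_lit 7) (nat_lit 0) (.cons (.br (nat_lit 6) (nat_lit 1) (.cons (.br (nat_lit 11) (nat_lit 1) (.cons (.ev (nat_lit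 310693935713298771209093121) (nat_lit 1)) .nil)) .nil)) (.cons (.rf (nat_lit 4046) (nat_lit 493677105922183366688)) .nil))) (.cons (.rf (nat_lit 3419) (nat_lit 493565395547242989600)) .nil)))) .nil)))),
 (.br (nat_lit 2) (nat_lit 0) (.cons (.rf (nat_lit 4759) (nat_lit 493858305440582043680)) (.cons (.rf (nat_lit 4761) (nat_lit 493858305440582043680)) (.cons (.br (nat_lit 11) (nat_lit 1) (.cons (.rf (nat_lit 3419) (nat_lit 493565395547242989600)) (.cons (.kr (nat_lit 18446744082299551744) (nat_lit 79537647524085683761797136384) (nat_lit 2) (nat_lit 0)) (.cons (.br (nat_lit 13) (nat_lit 0) (.cons (.rf (nat_lit 4594) (nat_lit 493820092838455674080)) (.cons (.br (nat_lit 7) (nat_lit 0) (.cons (.br (nat_lit 1) (nat_lit 0) (.cons (.ev (nat_lit 309489750634854586567884801) (nat_lit 1)) .nil)) .nil)) .nil))) .nil)))) .nil)))),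
 (.br (nat_lit 2) (nat_lit 0) (.cons (.kr (nat_lit 4722366482869645279232) (nat_lit 72057594054705152) (nat_lit 2) (nat_lit 0)) (.cons (.ev (nat_lit 309489750706629610412507393) (nat_lit 1)) (.cons (.ev (nat_lit 1213648186378978091663361) (nat_lit 1)) .nil)))),
 (.br (nat_lit 13) (nat_lit 0) (.cons (.br (nat_lit 9) (nat_lit 1) (.cons (.rf (nat_lit 4749) (nat_lit 457824828835778365472)) (.cons (.br (nat_lit 6) (nat_lit 1) (.cons (.rf (nat_lit 4763) (nat_lit 493858305440582043680)) .nil)) .nil))) (.cons (.rf (nat_lit 4680) (nat_lit 457824828835778365472)) (.cons (.rf (nat_lit 4680) (nat_lit 457929673865483880480)) .nil)))),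
 (.br (nat_lit 6) (nat_lit 1) (.cons (.br (nat_lit 13) (nat_lit 0) (.cons (.rf (nat_lit 4680) (nat_lit 458116643612319220800)) (.cons (.br (nat_lit 2) (nat_lit 0) (.cons (.rf (nat_lit 4196) (nat_lit 493823368456464074784)) (.cons (.ev (nat_lit 1213648186378978091663361) (nat_lit 1)) .nil))) (.cons (.rf (nat_lit 4749) (nat_lit 458046633314295678016)) .nil)))) (.cons (.br (nat_lit 9) (nat_lit 1) (.cons (.br (nat_lit 7) (nat_lit 0) (.cons (.zr (nat_lit 20440865928680199102432874201344) (nat_lit 309489750634853495662968833) (nat_lit 5) (nat_lit 0)) (.cons (.kr (nat_lit 20440865928680199099134339186944) (nat_lit 2417851639229262644445184) (nat_lit 1) (nat_lit 0)) .nil))) (.cons (.br (nat_lit 10) (nat_lit 1) (.cons (.ev (nat_lit 1213648186378978091663361) (nat_lit 1)) (.cons (.br (nat_lit 2) (nat_lit 0) (.cons (.zr (nat_lit 2417851855402049053327360) (nat_lit 237993977293427866267704885249) (nat_lit 5) (nat_lit 0)) .nil)) .nil))) .nil))) .nil))),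
 (.br (nat_lit 6) (nat_lit 1) (.cons (.rf (nat_lit 4765) (nat_lit 493858305440582043680)) (.cons (.br (nat_lit 9) (nat_lit 1) (.cons (.br (nat_lit 10) (nat_lit 1) (.cons (.br (nat_lit 8) (nat_lit 1) (.cons (.ev (nat_lit 79229376180897460645345165313) (nat_lit 1)) .nil)) (.cons (.rf (nat_lit 3908) (nat_lit 15433072007406782496)) .nil))) (.cons (.br (nat_lit 2) (nat_lit 0) (.cons (.ev (nat_lit 20361637770906820046082499674113) (nat_lit 1)) (.cons (.rf (nat_lit 4763) (nat_lit 457824828835778365472)) .nil))) .nil))) .nil))),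
 (.br (nat_lit 11) (nat_lit 1) (.cons (.rf (nat_lit 3419) (nat_lit 493565395547242989600)) (.cons (.br (nat_lit 13) (nat_lit 0) (.cons (.rf (nat_lit 4764) (nat_lit 493858305440582043680)) (.cons (.br (nat_lit 13) (nat_lit 0) (.cons (.rf (nat_lit 4764) (nat_lit 493858305440582043680)) (.cons (.rf (nat_lit 4680) (nat_lit 457824828835778365472)) (.cons (.rf (nat_lit 4680) (nat_lit 457929673865483880480)) .nil)))) (.cons (.rf (nat_lit 4680) (nat_lit 457824828835778365472)) (.cons (.rf (nat_lit 4680) (nat_lit 457929673865483880480)) .nil))))) (.cons (.br (nat_lit 6) (nat_lit 1) (.cons (.rf (nat_lit 4765) (nat_lit 493858305440582043680)) (.cons (.rf (nat_lit 4766) (nat_lit 493858305440582043680)) (.cons (.br (nat_lit 6) (nat_lit 1) (.cons (.rf (nat_lit 4765) (nat_lit 493858305440582043680)) (.cons (.rf (nat_lit 4766) (nat_lit 493858305440582043680)) .nil))) .nil)))) .nil)))),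
 (.br (nat_lit 13) (nat_lit 0) (.cons (.br (nat_lit 2) (nat_lit 0) (.cons (.rf (nat_lit 4396) (nat_lit 14308048481224590400)) (.cons (.rf (nat_lit 4707) (nat_lit 457824828835778364480)) (.cons (.br (nat_lit 9) (nat_lit 1) (.cons (.rf (nat_lit 4749) (nat_lit 457824828835778364480)) (.cons (.br (nat_lit 1) (nat_lit 0) (.cons (.ev (nat_lit 80156627006908648869813485570) (nat_lit 2)) .nil)) .nil))) .nil)))) (.cons (.rf (nat_lit 4680) (nat_lit 457824828835778364480)) (.cons (.rf (nat_lit 4680) (nat_lit 457929673865483879488)) .nil)))),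
 (.br (nat_lit 10) (nat_lit 1) (.cons (.br (nat_lit 8) (nat_lit 1) (.cons (.kr (nat_lit 18446744082299551744) (nat_lit 79537647524085683761797136384) (nat_lit 2) (nat_lit 0)) (.cons (.br (nat_lit 6) (nat_lit 1) (.cons (.rf (nat_lit 4680) (nat_lit 458116643612319221792)) .nil)) .nil))) (.cons (.br (nat_lit 7) (nat_lit 0) (.cons (.br (nat_lit 2) (nat_lit 0) (.cons (.rf (nat_lit 4730) (nat_lit 493675945937417111584)) (.cons (.ev (nat_lit 309489732259886631919550721) (nat_lit 1)) .nil))) (.cons (.kr (nat_lit 72057598332895232) (nat_lit 79228162514264338693055578112) (nat_lit 4) (nat_lit 0)) (.cons (.br (nat_lit 8) (nat_lit 1) (.cons (.ev (nat_lit 79537652264970968299173052673) (nat_lit 1)) (.cons (.zr (nat_lit 60847228810955299502217905570304) (nat_lit 79538861190718524239109947393) (nat_lit 5) (nat_lit 0)) .nil))) .nil)))) (.cons (.kr (nat_lit 20282409603651670423951546253568) (nat_lit 309485009821346168253186048) (nat_lit 1) (nat_lit 0)) .nil)))),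
 (.br (nat_lit 2) (nat_lit 0) (.cons (.rf (nat_lit 4208) (nat_lit 493745786916012394528)) (.cons (.rf (nat_lit 4208) (nat_lit 493817844510048225312)) .nil)))]

theorem c180 : chkAll C T R L180 (nat_lit 4745) = true := by decide +kernel

theorem l180 : (nat_lit 4745) + L180.length = (nat_lit 4771) := by decide +kernel

/-- part of the certificates -/
def L181 : List Prf := [(.br (nat_lit 6) (nat_lit 1) (.cons (.rf (nat_lit 4769) (nat_lit 493858305440582043680)) (.cons (.rf (nat_lit 4396) (nat_lit 14308053978782565440)) (.cons (.br (nat_lit 9) (nat_lit 1) (.cons (.rf (nat_lit 4770) (nat_lit 493858305440582043680)) (.cons (.br (nat_lit 10) (nat_lit 1) (.cons (.kr (nat_lit 20282409603651670423951546253568) (nat_lit 309485009821346168253186048) (nat_lit 1) (nat_lit 0)) (.cons (.ev (nat_lit 20282719093383930310583465869313) (nat_lit 1)) .nil))) (.cons (.ev (nat_lit 79537652246452448110714028033) (nat_lit 1)) .nil)))) .nil)))),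
 (.br (nat_lit 11) (nat_lit 1) (.cons (.rf (nat_lit 3419) (nat_lit 493565395547242989600)) (.cons (.br (nat_lit 13) (nat_lit 0) (.cons (.rf (nat_lit 4768) (nat_lit 493858305440582043680)) (.cons (.br (nat_lit 13) (nat_lit 0) (.cons (.rf (nat_lit 4768) (nat_lit 493858305440582043680)) (.cons (.rf (nat_lit 4680) (nat_lit 457824828835778364480)) (.cons (.rf (nat_lit 4680) (nat_lit 457929673865483879488)) .nil)))) (.cons (.rf (nat_lit 4680) (nat_lit 457824828835778364480)) (.cons (.rf (nat_lit 4680) (nat_lit 457929673865483879488)) .nil))))) (.cons (.br (nat_lit 6) (nat_lit 1) (.cons (.rf (nat_lit 4769) (nat_lit 493858305440582043680)) (.cons (.br (nat_lit 6) (nat_lit 1) (.cons (.rf (nat_lit 2725) (nat_lit 493858089939528517664)) (.cons (.rf (nat_lit 4396) (nat_lit 14308053978782565440)) (.cons (.rf (nat_lit 4025) (nat_lit 493606175329709295648)) .nil)))) (.cons (.rf (nat_lit 4771) (nat_lit 493858305440582043680)) (.cons (.br (nat_lit 6) (nat_lit 1) (.cons (.rf (nat_lit 4769) (nat_lit 493858305440582043680))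 (.cons (.rf (nat_lit 4025) (nat_lit 493606175329709295648)) (.cons (.rf (nat_lit 4771) (nat_lit 493858305440582043680)) .nil)))) .nil))))) .nil)))),
 (.br (nat_lit 6) (nat_lit 1) (.cons (.rf (nat_lit 3419) (nat_lit 493787200025760303136)) (.cons (.br (nat_lit 13) (nat_lit 0) (.cons (.rf (nat_lit 4680) (nat_lit 458116643612319220800)) (.cons (.ev (nat_lit 79537652246452448110714028033) (nat_lit 1)) (.cons (.rf (nat_lit 4749) (nat_lit 458046633314295678016)) .nil)))) (.cons (.br (nat_lit 9) (nat_lit 1) (.cons (.rf (nat_lit 4770) (nat_lit 493678161460855932960)) (.cons (.br (nat_lit 10) (nat_lit 1) (.cons (.ev (nat_lit 20361637770888301525885417160961) (nat_lit 1)) (.cons (.rf (nat_lit 4037) (nat_lit 493858129518726842400)) .nil))) (.cons (.ev (nat_lit 79537652246452448110714028033) (nat_lit 1)) .nil)))) .nil)))),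
 (.br (nat_lit 6) (nat_lit 0) (.cons (.br (nat_lit 12) (nat_lit 0) (.cons (.kr (nat_lit 79537647524085683761780359424) (nat_lit 281483566710784) (nat_lit 1) (nat_lit 0)) .nil)) .nil)),
 (.br (nat_lit 2) (nat_lit 0) (.cons (.rf (nat_lit 4773) (nat_lit 493858305440582043680)) (.cons (.br (nat_lit 13) (nat_lit 0) (.cons (.br (nat_lit 7) (nat_lit 0) (.cons (.ev (nat_lit 79537652246452448110714028033) (nat_lit 1)) (.cons (.ev (nat_lit 20361948464842388948182049554433) (nat_lit 1)) .nil))) (.cons (.br (nat_lit 1) (nat_lit 0) (.cons (.br (nat_lit 6) (nat_lit 1) (.cons (.ev (nat_lit 79228167255149904709736792065) (nat_lit 1)) .nil)) .nil)) .nil))) (.cons (.br (nat_lit 1) (nat_lit 0) (.cons (.br (nat_lit 9) (nat_lit 1) (.cons (.ev (nat_lit 1213648186098602643357953) (nat_lit 1)) (.cons (.br (nat_lit 7) (nat_lit 0) (.cons (.zr (nat_lit 216172790703915008) (nat_lit 310698676454468116247740417) (nat_lit 5) (nat_lit 0)) .nil)) .nil))) (.cons (.rf (nat_lit 4774) (nat_lit 15433072044983552032)) .nil))) .nil)))),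
 (.br (nat_lit 2) (nat_lit 0) (.cons (.rf (nat_lit 4773) (nat_lit 493858305440582043680)) (.cons (.rf (nat_lit 4775) (nat_lit 493858305440582043680)) (.cons (.br (nat_lit 7) (nat_lit 0) (.cons (.br (nat_lit 6) (nat_lit 1) (.cons (.ev (nat_lit 1213648186378973813473281) (nat_lit 1)) (.cons (.ev (nat_lit 79537652246452448110714028033) (nat_lit 1)) .nil))) (.cons (.br (nat_lit 1) (nat_lit 0) (.cons (.br (nat_lit 13) (nat_lit 0) (.cons (.zr (nat_lit 37109660938123018240) (nat_lit 237995186200800736823170039809) (nat_lit 5) (nat_lit 0)) .nil)) .nil)) .nil))) .nil)))),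
 (.br (nat_lit 11) (nat_lit 1) (.cons (.rf (nat_lit 4767) (nat_lit 493858305440582043680)) (.cons (.rf (nat_lit 4772) (nat_lit 493858305440582043680)) (.cons (.br (nat_lit 2) (nat_lit 0) (.cons (.rf (nat_lit 4773) (nat_lit 493858305440582043680)) (.cons (.rf (nat_lit 4775) (nat_lit 493858305440582043680)) (.cons (.rf (nat_lit 4776) (nat_lit 493858305440582043680)) (.cons (.br (nat_lit 2) (nat_lit 0) (.cons (.rf (nat_lit 4773) (nat_lit 493858305440582043680)) (.cons (.rf (nat_lit 4775) (nat_lit 493858305440582043680)) (.cons (.rf (nat_lit 4776) (nat_lit 493858305440582043680)) .nil)))) .nil))))) .nil)))),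
 (.br (nat_lit 4) (nat_lit 1) (.cons (.rf (nat_lit 4680) (nat_lit 493820093010254366752)) (.cons (.rf (nat_lit 4680) (nat_lit 493820093010254365760)) (.cons (.br (nat_lit 8) (nat_lit 1) (.cons (.kr (nat_lit 79228162514264337593560727552) (nat_lit 18446744078004518912) (nat_lit 3) (nat_lit 0)) (.cons (.br (nat_lit 13) (nat_lit 0) (.cons (.rf (nat_lit 4752) (nat_lit 493858305440582043680)) (.cons (.rf (nat_lit 4754) (nat_lit 493858305440582043680)) (.cons (.rf (nat_lit 4755) (nat_lit 493858305440582043680)) (.cons (.br (nat_lit 13) (nat_lit 0) (.cons (.rf (nat_lit 4752) (nat_lit 493858305440582043680)) (.cons (.rf (nat_lit 4754) (nat_lit 493858305440582043680)) (.cons (.rf (nat_lit 4755) (nat_lit 493858305440582043680)) .nil)))) .nil))))) (.cons (.br (nat_lit 6) (nat_lit 1) (.cons (.rf (nat_lit 4757) (nat_lit 493858305440582043680)) (.cons (.rf (nat_lit 4758) (nat_lit 493858305440582043680)) (.cons (.br (nat_lit 6) (nat_lit 1) (.cons (.rf (nat_lit 4757) (nat_lit 493858305440582043680)) (.cons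 (.rf (nat_lit 4758) (nat_lit 493858305440582043680)) .nil))) .nil)))) (.cons (.br (nat_lit 2) (nat_lit 0) (.cons (.rf (nat_lit 4759) (nat_lit 493858305440582043680)) (.cons (.rf (nat_lit 4761) (nat_lit 493858305440582043680)) (.cons (.rf (nat_lit 4762) (nat_lit 493858305440582043680)) (.cons (.br (nat_lit 2) (nat_lit 0) (.cons (.rf (nat_lit 4759) (nat_lit 493858305440582043680)) (.cons (.rf (nat_lit 4761) (nat_lit 493858305440582043680)) (.cons (.rf (nat_lit 4762) (nat_lit 493858305440582043680)) .nil)))) .nil))))) .nil))))) (.cons (.br (nat_lit 11) (nat_lit 1) (.cons (.rf (nat_lit 4767) (nat_lit 493858305440582043680)) (.cons (.rf (nat_lit 4772) (nat_lit 493858305440582043680)) (.cons (.rf (nat_lit 4777) (nat_lit 493858305440582043680)) (.cons (.br (nat_lit 11) (nat_lit 1) (.cons (.rf (nat_lit 4767) (nat_lit 493858305440582043680)) (.cons (.rf (nat_lit 4772) (nat_lit 493858305440582043680)) (.cons (.rf (nat_lit 4777) (nat_lit 493858305440582043680)) .nil)))) .nil))))) .nil))))),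
 (.br (nat_lit 13) (nat_lit 0) (.cons (.br (nat_lit 9) (nat_lit 1) (.cons (.rf (nat_lit 4749) (nat_lit 457824828835778365472)) (.cons (.br (nat_lit 6) (nat_lit 1) (.cons (.br (nat_lit 10) (nat_lit 1) (.cons (.ev (nat_lit 1213648186378978091663361) (nat_lit 1)) .nil)) .nil)) .nil))) (.cons (.rf (nat_lit 4680) (nat_lit 457824828835778365472)) (.cons (.rf (nat_lit 4680) (nat_lit 457929673865483880480)) .nil)))),
 (.br (nat_lit 6) (nat_lit 1) (.cons (.rf (nat_lit 4680) (nat_lit 493857210323783844928)) (.cons (.rf (nat_lit 4749) (nat_lit 458046633314295678016)) (.cons (.rf (nat_lit 4680) (nat_lit 493823368456464074784)) .nil)))),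
 (.br (nat_lit 2) (nat_lit 0) (.cons (.rf (nat_lit 4780) (nat_lit 493858305440582043680)) (.cons (.br (nat_lit 7) (nat_lit 0) (.cons (.br (nat_lit 6) (nat_lit 1) (.cons (.ev (nat_lit 79537647524158022830811775233) (nat_lit 1)) .nil)) .nil)) .nil))),
 (.br (nat_lit 11) (nat_lit 1) (.cons (.rf (nat_lit 3419) (nat_lit 493565395547242989600)) (.cons (.rf (nat_lit 4680) (nat_lit 493565395547242989600)) (.cons (.br (nat_lit 13) (nat_lit 0) (.cons (.rf (nat_lit 4779) (nat_lit 493858305440582043680)) (.cons (.br (nat_lit 13) (nat_lit 0) (.cons (.rf (nat_lit 4779) (nat_lit 493858305440582043680)) (.cons (.rf (nat_lit 4680) (nat_lit 457824828835778365472)) (.cons (.rf (nat_lit 4680) (nat_lit 457929673865483880480)) .nil)))) (.cons (.rf (nat_lit 4680) (nat_lit 457824828835778365472)) (.cons (.rf (nat_lit 4680) (nat_lit 457929673865483880480)) .nil))))) (.cons (.br (nat_lit 13) (nat_lit 0) (.cons (.br (nat_lit 8) (nat_lit 1) (.cons (.br (nat_lit 2) (nat_lit 0) (.cons (.br (nat_lit 9) (nat_lit 1) (.cons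 (.br (nat_lit 7) (nat_lit 0) (.cons (.zr (nat_lit 2417888532720712893530112) (nat_lit 237993977274981966618925465601) (nat_lit 5) (nat_lit 0)) .nil)) (.cons (.rf (nat_lit 4180) (nat_lit 493779565014874687520)) .nil))) (.cons (.br (nat_lit 10) (nat_lit 1) (.cons (.rf (nat_lit 3950) (nat_lit 493679253268392413216)) (.cons (.ev (nat_lit 79229371458602753890482979073) (nat_lit 1)) .nil))) (.cons (.br (nat_lit 9) (nat_lit 1) (.cons (.ev (nat_lit 20361638975091754377269498347521) (nat_lit 1)) (.cons (.rf (nat_lit 4703) (nat_lit 15425190745642993696)) .nil))) .nil)))) (.cons (.br (nat_lit 10) (nat_lit 1) (.cons (.br (nat_lit 6) (nat_lit 1) (.cons (.rf (nat_lit 3769) (nat_lit 493604875711260231712)) (.cons (.br (nat_lit 9) (nat_lit 1) (.cons (.ev (nat_lit 79229376180897460645345165313) (nat_lit 1)) .nil)) .nil))) (.cons (.ev (nat_lit 20282409603670189226714510393601) (nat_lit 1)) .nil))) (.cons (.ev (nat_lit 20361637766184381505618799755521) (nat_lit 1)) .nil)))) (.cons (.br (nat_lit 6) (nat_lit 1)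 (.cons (.br (nat_lit 6) (nat_lit 1) (.cons (.rf (nat_lit 4680) (nat_lit 493857210323783844928)) (.cons (.rf (nat_lit 4680) (nat_lit 458116643612319220800)) .nil))) (.cons (.br (nat_lit 6) (nat_lit 1) (.cons (.rf (nat_lit 4680) (nat_lit 493857210323783844928)) (.cons (.ev (nat_lit 79537647524158022830811775233) (nat_lit 1)) .nil))) (.cons (.br (nat_lit 6) (nat_lit 1) (.cons (.rf (nat_lit 4680) (nat_lit 458116643612319220800)) (.cons (.ev (nat_lit 79537647524158022830811775233) (nat_lit 1)) .nil))) .nil)))) (.cons (.ev (nat_lit 20282409603651670423951546253569) (nat_lit 1)) (.cons (.br (nat_lit 2) (nat_lit 0) (.cons (.rf (nat_lit 4780) (nat_lit 493858305440582043680)) (.cons (.rf (nat_lit 4781) (nat_lit 493858305440582043680)) (.cons (.br (nat_lit 2) (nat_lit 0) (.cons (.rf (nat_lit 4780) (nat_lit 493858305440582043680)) (.cons (.rf (nat_lit 4781) (nat_lit 493858305440582043680)) .nil))) .nil)))) .nil))))) .nil))))),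
 (.br (nat_lit 13) (nat_lit 0) (.cons (.br (nat_lit 9) (nat_lit 1) (.cons (.rf (nat_lit 4749) (nat_lit 457824828835778364480)) (.cons (.rf (nat_lit 4707) (nat_lit 457824828835778364480)) (.cons (.br (nat_lit 2) (nat_lit 0) (.cons (.br (nat_lit 1) (nat_lit 0) (.cons (.ev (nat_lit 79848355645417232809706128130) (nat_lit 2)) .nil)) (.cons (.br (nat_lit 1) (nat_lit 0) (.cons (.ev (nat_lit 20523191425331884063646779510536) (nat_lit 4)) .nil)) .nil))) .nil)))) (.cons (.rf (nat_lit 4680) (nat_lit 457824828835778364480)) (.cons (.rf (nat_lit 4680) (nat_lit 457929673865483879488)) .nil)))),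
 (.br (nat_lit 1) (nat_lit 0) (.cons (.ev (nat_lit 309485028268089146746142721) (nat_lit 1)) (.cons (.ev (nat_lit 4722438823042483290113) (nat_lit 1)) (.cons (.ev (nat_lit 310693935713298771209093121) (nat_lit 1)) .nil)))),
 (.br (nat_lit 11) (nat_lit 1) (.cons (.rf (nat_lit 3419) (nat_lit 493565395547242989600)) (.cons (.rf (nat_lit 4680) (nat_lit 493565395547242988608)) (.cons (.br (nat_lit 13) (nat_lit 0) (.cons (.rf (nat_lit 4783) (nat_lit 493858305440582043680)) (.cons (.br (nat_lit 13) (nat_lit 0) (.cons (.rf (nat_lit 4783) (nat_lit 493858305440582043680)) (.cons (.rf (nat_lit 4680) (nat_lit 457824828835778364480)) (.cons (.rf (nat_lit 4680) (nat_lit 457929673865483879488)) .nil)))) (.cons (.rf (nat_lit 4680) (nat_lit 457824828835778364480)) (.cons (.rf (nat_lit 4680) (nat_lit 457929673865483879488)) .nil))))) (.cons (.br (nat_lit 7) (nat_lit 0) (.cons (.br (nat_lit 13) (nat_lit 0) (.cons (.br (nat_lit 5) (nat_lit 0) (.cons (.br (nat_lit 2) (nat_lit 0) (.cons (.br (nat_lit 10) (nat_lit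 1) (.cons (.zr (nat_lit 238303457562651878998763634688) (nat_lit 1213721973355285814706177) (nat_lit 5) (nat_lit 0)) .nil)) (.cons (.br (nat_lit 9) (nat_lit 1) (.cons (.zr (nat_lit 238303457562651878998763634688) (nat_lit 1213721973355285814706177) (nat_lit 5) (nat_lit 0)) .nil)) .nil))) (.cons (.br (nat_lit 2) (nat_lit 0) (.cons (.ev (nat_lit 20283338068144386511333975261186) (nat_lit 2)) (.cons (.ev (nat_lit 20361638975091754377269498347521) (nat_lit 1)) .nil))) (.cons (.br (nat_lit 8) (nat_lit 1) (.cons (.ev (nat_lit 20282410812577562097269975548161) (nat_lit 1)) (.cons (.br (nat_lit 1) (nat_lit 0) (.cons (.ev (nat_lit 20679174222056665790327765926660) (nat_lit 3)) .nil)) .nil))) .nil)))) (.cons (.br (nat_lit 6) (nat_lit 1) (.cons (.rf (nat_lit 4680) (nat_lit 458116643612319221792)) (.cons (.rf (nat_lit 4680) (nat_lit 458116643612319220800)) (.cons (.br (nat_lit 1) (nat_lit 0) (.cons (.br (nat_lit 10) (nat_lit 1) (.cons (.ev (nat_lit 21475181803910573135292801811208) (nat_lit 4)) .nil)) (.cons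 (.ev (nat_lit 310693935713298771209093121) (nat_lit 1)) .nil))) .nil)))) (.cons (.br (nat_lit 2) (nat_lit 0) (.cons (.br (nat_lit 1) (nat_lit 0) (.cons (.ev (nat_lit 4722438821942971662593) (nat_lit 1)) (.cons (.br (nat_lit 5) (nat_lit 0) (.cons (.zr (nat_lit 238303457562651878998763634688) (nat_lit 1213721973355285814706177) (nat_lit 5) (nat_lit 0)) .nil)) .nil))) (.cons (.br (nat_lit 5) (nat_lit 0) (.cons (.rf (nat_lit 4784) (nat_lit 493858305440582043680)) (.cons (.br (nat_lit 6) (nat_lit 1) (.cons (.ev (nat_lit 310693935713298771209093121) (nat_lit 1)) .nil)) .nil))) (.cons (.br (nat_lit 6) (nat_lit 1) (.cons (.br (nat_lit 5) (nat_lit 0) (.cons (.zr (nat_lit 238303457562651878998763634688) (nat_lit 1213721973355285814706177) (nat_lit 5) (nat_lit 0)) .nil)) (.cons (.ev (nat_lit 20361638975091754377269498347521) (nat_lit 1)) .nil))) .nil)))) (.cons (.br (nat_lit 6) (nat_lit 1) (.cons (.rf (nat_lit 4707) (nat_lit 458046633314295679008)) (.cons (.rf (nat_lit 4749) (nat_lit 458046633314295678016))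 (.cons (.br (nat_lit 8) (nat_lit 1) (.cons (.ev (nat_lit 20361638975110273178941540794625) (nat_lit 1)) (.cons (.rf (nat_lit 4784) (nat_lit 493858305440582043680)) .nil))) .nil)))) .nil))))) (.cons (.br (nat_lit 13) (nat_lit 0) (.cons (.br (nat_lit 5) (nat_lit 0) (.cons (.br (nat_lit 2) (nat_lit 0) (.cons (.ev (nat_lit 20361637770906820327553181417473) (nat_lit 1)) (.cons (.ev (nat_lit 20282410812595936783749663948801) (nat_lit 1)) .nil))) (.cons (.br (nat_lit 2) (nat_lit 0) (.cons (.ev (nat_lit 20361637770906820327553181417473) (nat_lit 1)) (.cons (.ev (nat_lit 20361638975091754377269498347521) (nat_lit 1)) .nil))) (.cons (.rf (nat_lit 4659) (nat_lit 493820093011328075808)) .nil)))) (.cons (.br (nat_lit 1) (nat_lit 0) (.cons (.br (nat_lit 5) (nat_lit 0) (.cons (.rf (nat_lit 4680) (nat_lit 493857210323783845920)) (.cons (.ev (nat_lit 20361638975110273178937229050113) (nat_lit 1)) .nil))) (.cons (.br (nat_lit 5) (nat_lit 0) (.cons (.br (nat_lit 6) (nat_lit 1) (.cons (.ev (nat_lit 79228167236631103037694345473)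 (nat_lit 1)) .nil)) .nil)) .nil))) (.cons (.br (nat_lit 1) (nat_lit 0) (.cons (.br (nat_lit 6) (nat_lit 1) (.cons (.rf (nat_lit 3419) (nat_lit 493787200025760303136)) (.cons (.rf (nat_lit 4680) (nat_lit 493857210323783845920)) .nil))) (.cons (.br (nat_lit 5) (nat_lit 0) (.cons (.br (nat_lit 2) (nat_lit 0) (.cons (.ev (nat_lit 4722438821938659918081) (nat_lit 1)) .nil)) .nil)) .nil))) .nil)))) (.cons (.br (nat_lit 5) (nat_lit 0) (.cons (.br (nat_lit 6) (nat_lit 1) (.cons (.rf (nat_lit 4680) (nat_lit 493857210323783845920)) (.cons (.rf (nat_lit 4680) (nat_lit 493857210323783844928)) (.cons (.br (nat_lit 8) (nat_lit 1) (.cons (.rf (nat_lit 4770) (nat_lit 493858271353576196128)) (.cons (.ev (nat_lit 20282719093402304995959330897921) (nat_lit 1)) .nil))) .nil)))) (.cons (.ev (nat_lit 309489750634573111607951361) (nat_lit 1)) (.cons (.br (nat_lit 2) (nat_lit 0) (.cons (.br (nat_lit 6) (nat_lit 1) (.cons (.kr (nat_lit 1208925819614633469673728) (nat_lit 4722366765444133552128) (nat_lit 1) (nat_lit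 0)) (.cons (.br (nat_lit 8) (nat_lit 1) (.cons (.zr (nat_lit 2422574005712136584757248) (nat_lit 309485028412485805503676417) (nat_lit 5) (nat_lit 11)) .nil)) .nil))) (.cons (.br (nat_lit 6) (nat_lit 1) (.cons (.ev (nat_lit 79537652264970968299173052673) (nat_lit 1)) (.cons (.ev (nat_lit 20282719093402304995959330897921) (nat_lit 1)) .nil))) .nil))) .nil)))) (.cons (.br (nat_lit 5) (nat_lit 0) (.cons (.br (nat_lit 6) (nat_lit 1) (.cons (.rf (nat_lit 4680) (nat_lit 493857210323783845920)) (.cons (.rf (nat_lit 4680) (nat_lit 493857210323783844928)) (.cons (.br (nat_lit 2) (nat_lit 0) (.cons (.ev (nat_lit 20282410812595936783749663948801) (nat_lit 1)) (.cons (.rf (nat_lit 4730) (nat_lit 493605013145921882144)) .nil))) .nil)))) (.cons (.rf (nat_lit 4468) (nat_lit 493823368456464074784)) (.cons (.br (nat_lit 2) (nat_lit 0) (.cons (.br (nat_lit 1) (nat_lit 0) (.cons (.rf (nat_lit 3419) (nat_lit 493787200025760303136)) (.cons (.br (nat_lit 13) (nat_lit 0) (.cons (.ev (nat_lit 20838244700180632950875294729988)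 (nat_lit 3)) .nil)) .nil))) (.cons (.ev (nat_lit 1208925891673327019294721) (nat_lit 1)) .nil))) .nil)))) .nil))))) .nil)))))]

theorem c181 : chkAll C T R L181 (nat_lit 4771) = true := by decide +kernel

theorem l181 : (nat_lit 4771) + L181.length = (nat_lit 4786) := by decide +kernel

/-- part of the certificates -/
def L182 : List Prf := [(.br (nat_lit 6) (nat_lit 1) (.cons (.rf (nat_lit 3419) (nat_lit 493787200025760303136)) (.cons (.br (nat_lit 9) (nat_lit 1) (.cons (.br (nat_lit 8) (nat_lit 1) (.cons (.ev (nat_lit 309485028340428215743938561) (nat_lit 1)) (.cons (.br (nat_lit 10) (nat_lit 1) (.cons (.ev (nat_lit 20679795609854305407143007160068) (nat_lit 3)) .nil)) .nil))) (.cons (.ev (nat_lit 20282409603651670423951546253569) (nat_lit 1)) .nil))) .nil))),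
 (.br (nat_lit 6) (nat_lit 1) (.cons (.rf (nat_lit 3419) (nat_lit 493787200025760303136)) (.cons (.br (nat_lit 1) (nat_lit 0) (.cons (.ev (nat_lit 309485028340428215743938561) (nat_lit 1)) (.cons (.br (nat_lit 8) (nat_lit 1) (.cons (.br (nat_lit 13) (nat_lit 0) (.cons (.zr (nat_lit 36893491454544117760) (nat_lit 310698658008568467468320769) (nat_lit 5) (nat_lit 0)) .nil)) (.cons (.br (nat_lit 10) (nat_lit 1) (.cons (.ev (nat_lit 79229376180897460641066975233) (nat_lit 1)) .nil)) .nil))) (.cons (.br (nat_lit 2) (nat_lit 0) (.cons (.br (nat_lit 9) (nat_lit 1) (.cons (.zr (nat_lit 36893491454544117760) (nat_lit 310698658008568467468320769) (nat_lit 5) (nat_lit 0)) .nil)) (.cons (.br (nat_lit 13) (nat_lit 0) (.cons (.ev (nat_lit 20997322450933161828374544452360) (nat_lit 4)) .nil)) .nil))) .nil)))) .nil))),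
 (.br (nat_lit 6) (nat_lit 1) (.cons (.rf (nat_lit 3419) (nat_lit 493787200025760303136)) (.cons (.ev (nat_lit 79537647524158022830811775233) (nat_lit 1)) (.cons (.br (nat_lit 8) (nat_lit 1) (.cons (.br (nat_lit 7) (nat_lit 0) (.cons (.br (nat_lit 10) (nat_lit 1) (.cons (.zr (nat_lit 9481626457185244610560) (nat_lit 314320713100085064712060929) (nat_lit 5) (nat_lit 0)) .nil)) (.cons (.ev (nat_lit 20361638975091754376174264910081) (nat_lit 1)) .nil))) (.cons (.rf (nat_lit 4120) (nat_lit 493823227721125300256)) .nil))) .nil)))),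
 (.br (nat_lit 6) (nat_lit 1) (.cons (.rf (nat_lit 3419) (nat_lit 493787200025760303136)) (.cons (.br (nat_lit 10) (nat_lit 1) (.cons (.ev (nat_lit 310693935713298771209093121) (nat_lit 1)) (.cons (.br (nat_lit 8) (nat_lit 1) (.cons (.rf (nat_lit 4364) (nat_lit 493857210327004973088)) (.cons (.rf (nat_lit 4680) (nat_lit 458116643612319220800)) .nil))) (.cons (.rf (nat_lit 4749) (nat_lit 458046633314295678016)) .nil)))) (.cons (.br (nat_lit 8) (nat_lit 1) (.cons (.br (nat_lit 9) (nat_lit 1) (.cons (.br (nat_lit 10) (nat_lit 1) (.cons (.ev (nat_lit 20361645019720925070976560072452) (nat_lit 3)) .nil)) (.cons (.ev (nat_lit 79537652246452165536208912641) (nat_lit 1)) .nil))) (.cons (.br (nat_lit 7) (nat_lit 0) (.cons (.br (nat_lit 10) (nat_lit 1) (.cons (.zr (nat_lit 36893491454544117760) (nat_lit 310698658008568467468320769) (nat_lit 5) (nat_lit 0)) .nil)) (.cons (.br (nat_lit 1) (nat_lit 0) (.cons (.zr (nat_lit 36893491454544117760) (nat_lit 310698658008568467468320769) (nat_lit 5) (nat_lit 0))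 .nil)) .nil))) (.cons (.br (nat_lit 9) (nat_lit 1) (.cons (.rf (nat_lit 4660) (nat_lit 493820093011328075808)) (.cons (.ev (nat_lit 4722438823038171545601) (nat_lit 1)) .nil))) .nil)))) .nil)))),
 (.br (nat_lit 6) (nat_lit 1) (.cons (.ev (nat_lit 79537647524158022830811775233) (nat_lit 1)) (.cons (.rf (nat_lit 4789) (nat_lit 493858305440582043680)) (.cons (.br (nat_lit 8) (nat_lit 1) (.cons (.rf (nat_lit 4224) (nat_lit 493823298087721994272)) (.cons (.br (nat_lit 10) (nat_lit 1) (.cons (.br (nat_lit 9) (nat_lit 1) (.cons (.ev (nat_lit 20837006741325668622039458710788) (nat_lit 3)) .nil)) (.cons (.ev (nat_lit 79229371458602754994272796673) (nat_lit 1)) .nil))) .nil))) .nil)))),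
 (.br (nat_lit 11) (nat_lit 1) (.cons (.rf (nat_lit 4680) (nat_lit 493565395547242989600)) (.cons (.rf (nat_lit 4680) (nat_lit 493565395547242988608)) (.cons (.br (nat_lit 6) (nat_lit 1) (.cons (.rf (nat_lit 4786) (nat_lit 493858305440582043680)) (.cons (.rf (nat_lit 4787) (nat_lit 493858305440582043680)) (.cons (.br (nat_lit 6) (nat_lit 1) (.cons (.rf (nat_lit 4786) (nat_lit 493858305440582043680)) (.cons (.rf (nat_lit 4787) (nat_lit 493858305440582043680)) .nil))) .nil)))) (.cons (.br (nat_lit 6) (nat_lit 1) (.cons (.rf (nat_lit 4788) (nat_lit 493858305440582043680)) (.cons (.rf (nat_lit 4789) (nat_lit 493858305440582043680)) (.cons (.rf (nat_lit 4790) (nat_lit 493858305440582043680)) (.cons (.br (nat_lit 6) (nat_lit 1) (.cons (.rf (nat_lit 4788) (nat_lit 493858305440582043680)) (.cons (.rf (nat_lit 4789) (nat_lit 493858305440582043680)) (.cons (.rf (nat_lit 4790) (nat_lit 493858305440582043680)) .nil)))) .nil))))) .nil))))),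
 (.br (nat_lit 6) (nat_lit 1) (.cons (.rf (nat_lit 3419) (nat_lit 493787200025760303136)) (.cons (.ev (nat_lit 79537647524158022830811775233) (nat_lit 1)) (.cons (.br (nat_lit 10) (nat_lit 1) (.cons (.br (nat_lit 8) (nat_lit 1) (.cons (.ev (nat_lit 1208925891672223229477121) (nat_lit 1)) (.cons (.br (nat_lit 2) (nat_lit 0) (.cons (.ev (nat_lit 309489750634573111607951361) (nat_lit 1)) .nil)) .nil))) (.cons (.br (nat_lit 9) (nat_lit 1) (.cons (.br (nat_lit 2) (nat_lit 0) (.cons (.ev (nat_lit 158768232667695964617820930306) (nat_lit 2)) .nil)) .nil)) .nil))) .nil)))),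
 (.br (nat_lit 6) (nat_lit 1) (.cons (.ev (nat_lit 79537647524158022830811775233) (nat_lit 1)) (.cons (.rf (nat_lit 4680) (nat_lit 493857210323783844928)) (.cons (.br (nat_lit 9) (nat_lit 1) (.cons (.br (nat_lit 10) (nat_lit 1) (.cons (.br (nat_lit 2) (nat_lit 0) (.cons (.ev (nat_lit 79229371458602754994272796673) (nat_lit 1)) .nil)) .nil)) (.cons (.br (nat_lit 1) (nat_lit 0) (.cons (.rf (nat_lit 3922) (nat_lit 493851550041147279392)) (.cons (.br (nat_lit 2) (nat_lit 0) (.cons (.ev (nat_lit 20837625730234489576212043727620) (nat_lit 3)) .nil)) .nil))) .nil))) .nil)))),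
 (.br (nat_lit 11) (nat_lit 1) (.cons (.rf (nat_lit 4782) (nat_lit 493858305440582043680)) (.cons (.rf (nat_lit 4785) (nat_lit 493858305440582043680)) (.cons (.rf (nat_lit 4791) (nat_lit 493858305440582043680)) (.cons (.br (nat_lit 6) (nat_lit 1) (.cons (.rf (nat_lit 4792) (nat_lit 493858305440582043680)) (.cons (.br (nat_lit 6) (nat_lit 1) (.cons (.rf (nat_lit 3419) (nat_lit 493787200025760303136)) (.cons (.rf (nat_lit 4680) (nat_lit 493857210323783844928)) (.cons (.ev (nat_lit 79537647524158021731300147201) (nat_lit 1)) .nil)))) (.cons (.rf (nat_lit 4793) (nat_lit 493858305440582043680)) (.cons (.br (nat_lit 6) (nat_lit 1) (.cons (.rf (nat_lit 4792) (nat_lit 493858305440582043680)) (.cons (.ev (nat_lit 79537647524158021731300147201) (nat_lit 1)) (.cons (.rf (nat_lit 4793) (nat_lit 493858305440582043680)) .nil)))) .nil))))) .nil))))),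
 (.br (nat_lit 4) (nat_lit 1) (.cons (.rf (nat_lit 4707) (nat_lit 493858305440582043680)) (.cons (.rf (nat_lit 4749) (nat_lit 493858305440582043680)) (.cons (.rf (nat_lit 4778) (nat_lit 493858305440582043680)) (.cons (.br (nat_lit 11) (nat_lit 1) (.cons (.rf (nat_lit 4782) (nat_lit 493858305440582043680)) (.cons (.rf (nat_lit 4785) (nat_lit 493858305440582043680)) (.cons (.rf (nat_lit 4791) (nat_lit 493858305440582043680)) (.cons (.rf (nat_lit 4794) (nat_lit 493858305440582043680)) (.cons (.br (nat_lit 11) (nat_lit 1) (.cons (.rf (nat_lit 4782) (nat_lit 493858305440582043680)) (.cons (.rf (nat_lit 4785) (nat_lit 493858305440582043680)) (.cons (.rf (nat_lit 4791) (nat_lit 493858305440582043680)) (.cons (.rf (nat_lit 4794) (nat_lit 493858305440582043680)) .nil))))) .nil)))))) .nil))))),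
 (.br (nat_lit 4) (nat_lit 1) (.cons (.rf (nat_lit 4707) (nat_lit 493858305440582043680)) (.cons (.rf (nat_lit 4749) (nat_lit 493858305440582043680)) (.cons (.rf (nat_lit 4778) (nat_lit 493858305440582043680)) (.cons (.rf (nat_lit 4795) (nat_lit 493858305440582043680)) (.cons (.br (nat_lit 4) (nat_lit 1) (.cons (.rf (nat_lit 4707) (nat_lit 493858305440582043680)) (.cons (.rf (nat_lit 4749) (nat_lit 493858305440582043680)) (.cons (.rf (nat_lit 4778) (nat_lit 493858305440582043680)) (.cons (.rf (nat_lit 4795) (nat_lit 493858305440582043680)) .nil))))) .nil)))))),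
 (.br (nat_lit 12) (nat_lit 0) (.cons (.rf (nat_lit 4680) (nat_lit 493858305440582043680)) (.cons (.rf (nat_lit 4680) (nat_lit 493823368456464074784)) (.cons (.rf (nat_lit 4796) (nat_lit 493858305440582043680)) (.cons (.rf (nat_lit 4796) (nat_lit 493823368456464074784)) .nil))))),
 (.br (nat_lit 13) (nat_lit 0) (.cons (.rf (nat_lit 4680) (nat_lit 458116643612319220800)) (.cons (.br (nat_lit 8) (nat_lit 1) (.cons (.br (nat_lit 7) (nat_lit 0) (.cons (.ev (nat_lit 18518801667764322561) (nat_lit 1)) (.cons (.br (nat_lit 5) (nat_lit 0) (.cons (.ev (nat_lit 79538861172343838858949951745) (nat_lit 1)) .nil)) .nil))) (.cons (.br (nat_lit 2) (nat_lit 0) (.cons (.br (nat_lit 9) (nat_lit 1) (.cons (.ev (nat_lit 309489732260168111191228673) (nat_lit 1)) .nil)) (.cons (.br (nat_lit 7) (nat_lit 0) (.cons (.zr (nat_lit 237684487542865072573693165824) (nat_lit 311902879907881355032133633) (nat_lit 5) (nat_lit 0)) .nil)) .nil))) (.cons (.rf (nat_lit 4396) (nat_lit 15429554741613529120)) .nil)))) .nil))),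
 (.br (nat_lit 13) (nat_lit 0) (.cons (.rf (nat_lit 4680) (nat_lit 458116643612319220800)) (.cons (.rf (nat_lit 4798) (nat_lit 493858305440582043680)) (.cons (.br (nat_lit 13) (nat_lit 0) (.cons (.rf (nat_lit 4680) (nat_lit 458116643612319220800)) (.cons (.rf (nat_lit 4798) (nat_lit 493858305440582043680)) .nil))) .nil)))),
 (.br (nat_lit 13) (nat_lit 0) (.cons (.rf (nat_lit 4799) (nat_lit 493858305440582043680)) (.cons (.rf (nat_lit 4680) (nat_lit 458116643612319220800)) (.cons (.br (nat_lit 13) (nat_lit 0) (.cons (.rf (nat_lit 4799) (nat_lit 493858305440582043680)) (.cons (.rf (nat_lit 4680) (nat_lit 458116643612319220800)) .nil))) .nil)))),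
 (.br (nat_lit 2) (nat_lit 0) (.cons (.br (nat_lit 5) (nat_lit 0) (.cons (.rf (nat_lit 4680) (nat_lit 493745745134571783232)) (.cons (.br (nat_lit 13) (nat_lit 0) (.cons (.ev (nat_lit 158456329787788647312270622722) (nat_lit 2)) .nil)) .nil))) (.cons (.br (nat_lit 5) (nat_lit 0) (.cons (.br (nat_lit 9) (nat_lit 1) (.cons (.ev (nat_lit 159075299900025915352711103748) (nat_lit 3)) .nil)) .nil)) .nil))),
 (.br (nat_lit 9) (nat_lit 1) (.cons (.rf (nat_lit 4680) (nat_lit 493745745134571783232)) (.cons (.br (nat_lit 8) (nat_lit 1) (.cons (.ev (nat_lit 309489750634573111607951361) (nat_lit 1)) (.cons (.rf (nat_lit 3716) (nat_lit 493675905261929334816)) .nil))) .nil))),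
 (.br (nat_lit 4) (nat_lit 1) (.cons (.rf (nat_lit 3863) (nat_lit 493605048330292922400)) (.cons (.br (nat_lit 2) (nat_lit 0) (.cons (.br (nat_lit 9) (nat_lit 1) (.cons (.ev (nat_lit 79228167255077565636427120641) (nat_lit 1)) .nil)) (.cons (.rf (nat_lit 4680) (nat_lit 493745745134571783232)) .nil))) .nil))),
 (.br (nat_lit 7) (nat_lit 0) (.cons (.br (nat_lit 13) (nat_lit 0) (.cons (.rf (nat_lit 4801) (nat_lit 493858305440582043680)) (.cons (.br (nat_lit 13) (nat_lit 0) (.cons (.rf (nat_lit 4801) (nat_lit 493858305440582043680)) (.cons (.rf (nat_lit 3716) (nat_lit 493679282961646716960)) .nil))) (.cons (.br (nat_lit 4) (nat_lit 1) (.cons (.rf (nat_lit 4396) (nat_lit 15429484441655937056)) (.cons (.rf (nat_lit 3689) (nat_lit 15427437014612543520)) (.cons (.rf (nat_lit 4801) (nat_lit 493858305440582043680)) .nil)))) .nil)))) (.cons (.br (nat_lit 11) (nat_lit 1) (.cons (.ev (nat_lit 309485009893402662779552001) (nat_lit 1)) (.cons (.br (nat_lit 8) (nat_lit 1) (.cons (.br (nat_lit 9) (nat_lit 1)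 (.cons (.br (nat_lit 4) (nat_lit 1) (.cons (.zr (nat_lit 36893491454544117760) (nat_lit 310698658008568467468320769) (nat_lit 5) (nat_lit 0)) .nil)) .nil)) (.cons (.br (nat_lit 13) (nat_lit 0) (.cons (.br (nat_lit 9) (nat_lit 1) (.cons (.ev (nat_lit 79229376162450436196170465281) (nat_lit 1)) .nil)) (.cons (.br (nat_lit 4) (nat_lit 1) (.cons (.ev (nat_lit 79229376162450436196170465281) (nat_lit 1)) .nil)) .nil))) .nil))) (.cons (.br (nat_lit 2) (nat_lit 0) (.cons (.rf (nat_lit 4797) (nat_lit 458009550086699353152)) (.cons (.br (nat_lit 13) (nat_lit 0) (.cons (.ev (nat_lit 310693935640959702211297281) (nat_lit 1)) (.cons (.rf (nat_lit 3857) (nat_lit 458079526298789741632)) .nil))) (.cons (.rf (nat_lit 4680) (nat_lit 458005178423107159104)) .nil)))) .nil)))) (.cons (.br (nat_lit 9) (nat_lit 1) (.cons (.rf (nat_lit 4802) (nat_lit 493858305440582043680)) (.cons (.rf (nat_lit 4803) (nat_lit 493858305440582043680)) (.cons (.br (nat_lit 9) (nat_lit 1) (.cons (.rf (nat_lit 4802) (nat_lit 493858305440582043680))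 (.cons (.rf (nat_lit 4803) (nat_lit 493858305440582043680)) .nil))) .nil)))) .nil)))),
 (.br (nat_lit 13) (nat_lit 0) (.cons (.br (nat_lit 11) (nat_lit 1) (.cons (.ev (nat_lit 20282409608374036906816896565249) (nat_lit 1)) (.cons (.br (nat_lit 2) (nat_lit 0) (.cons (.ev (nat_lit 79537647524085964141540474881) (nat_lit 1)) .nil)) .nil))) (.cons (.rf (nat_lit 3716) (nat_lit 493679112537344411680)) .nil))),
 (.br (nat_lit 7) (nat_lit 0) (.cons (.rf (nat_lit 4804) (nat_lit 493858305440582043680)) (.cons (.br (nat_lit 13) (nat_lit 0) (.cons (.rf (nat_lit 4805) (nat_lit 493858305440582043680)) (.cons (.br (nat_lit 13) (nat_lit 0) (.cons (.rf (nat_lit 4805) (nat_lit 493858305440582043680)) (.cons (.ev (nat_lit 158769446279060913025384972546) (nat_lit 2)) .nil))) (.cons (.br (nat_lit 9) (nat_lit 1) (.cons (.rf (nat_lit 4396) (nat_lit 15429660363516381216)) (.cons (.rf (nat_lit 3689) (nat_lit 15427442512170682400)) (.cons (.ev (nat_lit 158769446279060913025384972546) (nat_lit 2)) .nil)))) .nil)))) (.cons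 (.br (nat_lit 13) (nat_lit 0) (.cons (.br (nat_lit 13) (nat_lit 0) (.cons (.rf (nat_lit 3710) (nat_lit 493679282961646716960)) .nil)) (.cons (.br (nat_lit 13) (nat_lit 0) (.cons (.rf (nat_lit 3710) (nat_lit 493679282961646716960)) .nil)) .nil))) .nil)))),
 (.br (nat_lit 9) (nat_lit 1) (.cons (.rf (nat_lit 3863) (nat_lit 493605048330292922400)) (.cons (.br (nat_lit 8) (nat_lit 1) (.cons (.kr (nat_lit 4740885284537392693504) (nat_lit 618970019642691236961255424) (nat_lit 1) (nat_lit 0)) (.cons (.ev (nat_lit 20282720302328196949657520242945) (nat_lit 1)) .nil))) .nil))),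
 (.br (nat_lit 2) (nat_lit 0) (.cons (.rf (nat_lit 4807) (nat_lit 493858305440582043680)) (.cons (.br (nat_lit 9) (nat_lit 1) (.cons (.rf (nat_lit 3868) (nat_lit 15430854294603139104)) .nil)) (.cons (.rf (nat_lit 3863) (nat_lit 493779562815853529120)) .nil)))),
 (.br (nat_lit 7) (nat_lit 0) (.cons (.rf (nat_lit 4804) (nat_lit 493858305440582043680)) (.cons (.rf (nat_lit 4806) (nat_lit 493858305440582043680)) (.cons (.br (nat_lit 4) (nat_lit 1) (.cons (.rf (nat_lit 4807) (nat_lit 493858305440582043680)) (.cons (.rf (nat_lit 4808) (nat_lit 493858305440582043680)) (.cons (.br (nat_lit 4) (nat_lit 1) (.cons (.rf (nat_lit 4807) (nat_lit 493858305440582043680)) (.cons (.rf (nat_lit 4808) (nat_lit 493858305440582043680)) .nil))) .nil)))) .nil)))),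
 (.br (nat_lit 6) (nat_lit 1) (.cons (.rf (nat_lit 4680) (nat_lit 493857210323783844928)) (.cons (.br (nat_lit 13) (nat_lit 0) (.cons (.rf (nat_lit 4799) (nat_lit 493858305440582043680)) (.cons (.rf (nat_lit 4680) (nat_lit 458116643612319220800)) (.cons (.rf (nat_lit 4800) (nat_lit 493858305440582043680)) (.cons (.br (nat_lit 13) (nat_lit 0) (.cons (.rf (nat_lit 4799) (nat_lit 493858305440582043680)) (.cons (.rf (nat_lit 4680) (nat_lit 458116643612319220800)) (.cons (.rf (nat_lit 4800) (nat_lit 493858305440582043680)) .nil)))) .nil))))) (.cons (.br (nat_lit 7) (nat_lit 0) (.cons (.rf (nat_lit 4804) (nat_lit 493858305440582043680)) (.cons (.rf (nat_lit 4806) (nat_lit 493858305440582043680)) (.cons (.rf (nat_lit 4809) (nat_lit 493858305440582043680)) (.cons (.br (nat_lit 7) (nat_lit 0) (.cons (.rf (nat_lit 4804) (nat_lit 493858305440582043680)) (.cons (.rf (nat_lit 4806) (nat_lit 493858305440582043680)) (.cons (.rf (nat_lit 4809) (nat_lit 493858305440582043680)) .nil)))) .nil))))) .nil))))]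

theorem c182 : chkAll C T R L182 (nat_lit 4786) = true := by decide +kernel

theorem l182 : (nat_lit 4786) + L182.length = (nat_lit 4811) := by decide +kernel

/-- part of the certificates -/
def L183 : List Prf := [(.br (nat_lit 4) (nat_lit 1) (.cons (.rf (nat_lit 4046) (nat_lit 493787197824596805664)) (.cons (.br (nat_lit 9) (nat_lit 1) (.cons (.rf (nat_lit 3863) (nat_lit 493781814613519730720)) (.cons (.br (nat_lit 9) (nat_lit 1) (.cons (.rf (nat_lit 3863) (nat_lit 493781814613519730720)) (.cons (.ev (nat_lit 1213648258437667362963713) (nat_lit 1)) .nil))) (.cons (.br (nat_lit 9) (nat_lit 1) (.cons (.rf (nat_lit 3863) (nat_lit 493781814613519730720)) (.cons (.ev (nat_lit 1213648258437667362963713) (nat_lit 1)) .nil))) .nil)))) .nil))),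
 (.br (nat_lit 11) (nat_lit 1) (.cons (.ev (nat_lit 309485009893402662779552001) (nat_lit 1)) (.cons (.br (nat_lit 9) (nat_lit 1) (.cons (.br (nat_lit 2) (nat_lit 0) (.cons (.zr (nat_lit 80466102553549999343453536256) (nat_lit 4840444091687663371812865) (nat_lit 5) (nat_lit 9)) .nil)) .nil)) .nil))),
 (.br (nat_lit 4) (nat_lit 1) (.cons (.rf (nat_lit 4046) (nat_lit 493787197824596805664)) (.cons (.br (nat_lit 9) (nat_lit 1) (.cons (.rf (nat_lit 4812) (nat_lit 493858305440582043680)) (.cons (.br (nat_lit 9) (nat_lit 1) (.cons (.rf (nat_lit 4812) (nat_lit 493858305440582043680)) .nil)) .nil))) .nil))),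
 (.br (nat_lit 8) (nat_lit 1) (.cons (.ev (nat_lit 79538856468352322844424732673) (nat_lit 1)) (.cons (.ev (nat_lit 309485028268370621706076161) (nat_lit 1)) .nil))),
 (.br (nat_lit 9) (nat_lit 1) (.cons (.rf (nat_lit 4396) (nat_lit 14310298116374692928)) (.cons (.br (nat_lit 11) (nat_lit 1) (.cons (.rf (nat_lit 4814) (nat_lit 493858305440582043680)) (.cons (.rf (nat_lit 4625) (nat_lit 493858303239415498784)) .nil))) .nil))),
 (.br (nat_lit 4) (nat_lit 1) (.cons (.br (nat_lit 13) (nat_lit 0) (.cons (.br (nat_lit 11) (nat_lit 1) (.cons (.ev (nat_lit 309485028268370621706076161) (nat_lit 1)) (.cons (.kr (nat_lit 309485009893965612716130560) (nat_lit 79229371440083954426036879360) (nat_lit 1) (nat_lit 0)) (.cons (.rf (nat_lit 4797) (nat_lit 458009550086699353152)) .nil)))) (.cons (.rf (nat_lit 4680) (nat_lit 458079526298789741632)) (.cons (.rf (nat_lit 4797) (nat_lit 458009550086699353152)) .nil)))) (.cons (.br (nat_lit 9) (nat_lit 1) (.cons (.rf (nat_lit 3863) (nat_lit 493781814613519730720))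 (.cons (.rf (nat_lit 4815) (nat_lit 493858305440582043680)) (.cons (.br (nat_lit 9) (nat_lit 1) (.cons (.rf (nat_lit 3863) (nat_lit 493781814613519730720)) (.cons (.rf (nat_lit 4815) (nat_lit 493858305440582043680)) .nil))) .nil)))) .nil))),
 (.br (nat_lit 9) (nat_lit 1) (.cons (.rf (nat_lit 4680) (nat_lit 457935134042368541760)) (.cons (.br (nat_lit 11) (nat_lit 1) (.cons (.br (nat_lit 7) (nat_lit 0) (.cons (.ev (nat_lit 158456329787788647312270622722) (nat_lit 2)) .nil)) (.cons (.br (nat_lit 2) (nat_lit 0) (.cons (.ev (nat_lit 79537652264970968299173052673) (nat_lit 1)) .nil)) .nil))) .nil))),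
 (.br (nat_lit 9) (nat_lit 1) (.cons (.rf (nat_lit 4680) (nat_lit 457935134042368541760)) (.cons (.br (nat_lit 8) (nat_lit 1) (.cons (.br (nat_lit 2) (nat_lit 0) (.cons (.zr (nat_lit 9444949701471357633280) (nat_lit 310693954087703788805685249) (nat_lit 5) (nat_lit 0)) .nil)) .nil)) .nil))),
 (.br (nat_lit 4) (nat_lit 1) (.cons (.rf (nat_lit 4816) (nat_lit 493858305440582043680)) (.cons (.br (nat_lit 9) (nat_lit 1) (.cons (.rf (nat_lit 4817) (nat_lit 493858305440582043680)) (.cons (.rf (nat_lit 4818) (nat_lit 493858305440582043680)) (.cons (.br (nat_lit 9) (nat_lit 1) (.cons (.rf (nat_lit 4817) (nat_lit 493858305440582043680)) (.cons (.rf (nat_lit 4818) (nat_lit 493858305440582043680)) .nil))) .nil)))) .nil))),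
 (.br (nat_lit 6) (nat_lit 1) (.cons (.rf (nat_lit 4680) (nat_lit 493857210323783844928)) (.cons (.br (nat_lit 4) (nat_lit 1) (.cons (.rf (nat_lit 4811) (nat_lit 493858305440582043680)) (.cons (.rf (nat_lit 4813) (nat_lit 493858305440582043680)) (.cons (.br (nat_lit 4) (nat_lit 1) (.cons (.rf (nat_lit 4811) (nat_lit 493858305440582043680)) (.cons (.rf (nat_lit 4813) (nat_lit 493858305440582043680)) .nil))) .nil)))) (.cons (.br (nat_lit 4) (nat_lit 1) (.cons (.rf (nat_lit 4816) (nat_lit 493858305440582043680)) (.cons (.rf (nat_lit 4819) (nat_lit 493858305440582043680)) (.cons (.br (nat_lit 4) (nat_lit 1) (.cons (.rf (nat_lit 4816) (nat_lit 493858305440582043680)) (.cons (.rf (nat_lit 4819) (nat_lit 493858305440582043680)) .nil))) .nil)))) .nil)))),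
 (.br (nat_lit 9) (nat_lit 1) (.cons (.br (nat_lit 11) (nat_lit 1) (.cons (.br (nat_lit 4) (nat_lit 1) (.cons (.ev (nat_lit 20520713070733130477555352143620) (nat_lit 3)) .nil)) .nil)) (.cons (.ev (nat_lit 79228167255077565636427120641) (nat_lit 1)) .nil))),
 (.br (nat_lit 9) (nat_lit 1) (.cons (.rf (nat_lit 4821) (nat_lit 493858305440582043680)) (.cons (.br (nat_lit 13) (nat_lit 0) (.cons (.ev (nat_lit 20520094095916902258670854734082) (nat_lit 2)) (.cons (.ev (nat_lit 20282720302328196949657520242945) (nat_lit 1)) .nil))) .nil))),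
 (.br (nat_lit 9) (nat_lit 1) (.cons (.ev (nat_lit 309485009893402662779552001) (nat_lit 1)) (.cons (.br (nat_lit 7) (nat_lit 0) (.cons (.ev (nat_lit 79538861172343838858949951745) (nat_lit 1)) (.cons (.kr (nat_lit 4722438540463683141888) (nat_lit 18446745173221244928) (nat_lit 1) (nat_lit 0)) .nil))) .nil))),
 (.br (nat_lit 2) (nat_lit 0) (.cons (.br (nat_lit 9) (nat_lit 1) (.cons (.rf (nat_lit 4821) (nat_lit 493858305440582043680)) (.cons (.rf (nat_lit 4822) (nat_lit 493858305440582043680)) (.cons (.br (nat_lit 9) (nat_lit 1) (.cons (.ev (nat_lit 79228167255077565636427120641) (nat_lit 1)) (.cons (.rf (nat_lit 4822) (nat_lit 493858305440582043680)) .nil))) .nil)))) (.cons (.br (nat_lit 9) (nat_lit 1) (.cons (.rf (nat_lit 4680) (nat_lit 493745745134571783232)) (.cons (.br (nat_lit 13) (nat_lit 0) (.cons (.rf (nat_lit 4680) (nat_lit 457935134042368541760)) (.cons (.br (nat_lit 13) (nat_lit 0) (.cons (.rf (nat_lit 4680) (nat_lit 457935134042368541760)) (.cons (.ev (nat_lit 310693935641241172893040641)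 (nat_lit 1)) .nil))) (.cons (.ev (nat_lit 310693935641241172893040641) (nat_lit 1)) .nil)))) (.cons (.br (nat_lit 13) (nat_lit 0) (.cons (.br (nat_lit 8) (nat_lit 1) (.cons (.br (nat_lit 11) (nat_lit 1) (.cons (.ev (nat_lit 309489750634573111607951361) (nat_lit 1)) .nil)) (.cons (.rf (nat_lit 3869) (nat_lit 493677003667601983520)) .nil))) (.cons (.br (nat_lit 7) (nat_lit 0) (.cons (.ev (nat_lit 18519083147036000513) (nat_lit 1)) (.cons (.ev (nat_lit 20282720302328196949657520242945) (nat_lit 1)) .nil))) (.cons (.ev (nat_lit 310693935641241172893040641) (nat_lit 1)) .nil)))) .nil)))) (.cons (.br (nat_lit 9) (nat_lit 1) (.cons (.rf (nat_lit 4823) (nat_lit 493858305440582043680)) (.cons (.ev (nat_lit 309485009893402662779552001) (nat_lit 1)) (.cons (.br (nat_lit 9) (nat_lit 1) (.cons (.rf (nat_lit 4823) (nat_lit 493858305440582043680)) (.cons (.ev (nat_lit 309485009893402662779552001) (nat_lit 1)) .nil))) .nil)))) .nil)))),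
 (.br (nat_lit 2) (nat_lit 0) (.cons (.ev (nat_lit 79229371458602753894761169153) (nat_lit 1)) (.cons (.ev (nat_lit 309485009893402662779552001) (nat_lit 1)) .nil))),
 (.br (nat_lit 10) (nat_lit 1) (.cons (.ev (nat_lit 79538861190790581828836196353) (nat_lit 1)) (.cons (.ev (nat_lit 310693935640959697899552769) (nat_lit 1)) (.cons (.ev (nat_lit 79229371458602753890466201601) (nat_lit 1)) .nil)))),
 (.br (nat_lit 9) (nat_lit 1) (.cons (.rf (nat_lit 4680) (nat_lit 457935134042368541760)) (.cons (.br (nat_lit 8) (nat_lit 1) (.cons (.rf (nat_lit 4826) (nat_lit 15433072045018187808)) (.cons (.rf (nat_lit 4625) (nat_lit 493750109101590939680)) .nil))) .nil))),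
 (.br (nat_lit 9) (nat_lit 1) (.cons (.rf (nat_lit 4680) (nat_lit 457935134042368541760)) (.cons (.br (nat_lit 8) (nat_lit 1) (.cons (.ev (nat_lit 158456334491780724073414263042) (nat_lit 2)) .nil)) .nil))),
 (.br (nat_lit 4) (nat_lit 1) (.cons (.rf (nat_lit 4824) (nat_lit 493858305440582043680)) (.cons (.br (nat_lit 9) (nat_lit 1) (.cons (.rf (nat_lit 4825) (nat_lit 493858305440582043680)) (.cons (.br (nat_lit 9) (nat_lit 1) (.cons (.rf (nat_lit 4825) (nat_lit 493858305440582043680)) .nil)) .nil))) (.cons (.br (nat_lit 9) (nat_lit 1) (.cons (.rf (nat_lit 4827) (nat_lit 493858305440582043680)) (.cons (.rf (nat_lit 4828) (nat_lit 493858305440582043680)) (.cons (.br (nat_lit 9) (nat_lit 1) (.cons (.rf (nat_lit 4827) (nat_lit 493858305440582043680)) (.cons (.rf (nat_lit 4828) (nat_lit 493858305440582043680)) .nil))) .nil)))) .nil)))),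
 (.br (nat_lit 2) (nat_lit 0) (.cons (.br (nat_lit 9) (nat_lit 1) (.cons (.rf (nat_lit 4680) (nat_lit 493745745134571783232)) (.cons (.rf (nat_lit 4826) (nat_lit 15433072045018187808)) .nil))) (.cons (.br (nat_lit 13) (nat_lit 0) (.cons (.br (nat_lit 9) (nat_lit 1) (.cons (.ev (nat_lit 79228167255077565636427120641) (nat_lit 1)) .nil)) .nil)) .nil))),
 (.br (nat_lit 4) (nat_lit 1) (.cons (.rf (nat_lit 4824) (nat_lit 493858305440582043680)) (.cons (.rf (nat_lit 4829) (nat_lit 493858305440582043680)) (.cons (.br (nat_lit 2) (nat_lit 0) (.cons (.rf (nat_lit 4830) (nat_lit 493858305440582043680)) (.cons (.br (nat_lit 2) (nat_lit 0) (.cons (.rf (nat_lit 4830) (nat_lit 493858305440582043680)) (.cons (.ev (nat_lit 309485009893402662779552001) (nat_lit 1)) .nil))) (.cons (.br (nat_lit 2) (nat_lit 0) (.cons (.rf (nat_lit 4830) (nat_lit 493858305440582043680)) (.cons (.ev (nat_lit 309485009893402662779552001) (nat_lit 1)) .nil))) .nil)))) .nil)))),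
 (.br (nat_lit 6) (nat_lit 1) (.cons (.rf (nat_lit 4810) (nat_lit 493858305440582043680)) (.cons (.rf (nat_lit 4820) (nat_lit 493858305440582043680)) (.cons (.br (nat_lit 4) (nat_lit 1) (.cons (.rf (nat_lit 4824) (nat_lit 493858305440582043680)) (.cons (.rf (nat_lit 4829) (nat_lit 493858305440582043680)) (.cons (.rf (nat_lit 4831) (nat_lit 493858305440582043680)) (.cons (.br (nat_lit 4) (nat_lit 1) (.cons (.rf (nat_lit 4824) (nat_lit 493858305440582043680)) (.cons (.rf (nat_lit 4829) (nat_lit 493858305440582043680)) (.cons (.rf (nat_lit 4831) (nat_lit 493858305440582043680)) .nil)))) .nil))))) .nil)))),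
 (.br (nat_lit 6) (nat_lit 1) (.cons (.rf (nat_lit 4810) (nat_lit 493858305440582043680)) (.cons (.rf (nat_lit 4820) (nat_lit 493858305440582043680)) (.cons (.rf (nat_lit 4832) (nat_lit 493858305440582043680)) (.cons (.br (nat_lit 6) (nat_lit 1) (.cons (.rf (nat_lit 4810) (nat_lit 493858305440582043680)) (.cons (.rf (nat_lit 4820) (nat_lit 493858305440582043680)) (.cons (.rf (nat_lit 4832) (nat_lit 493858305440582043680)) .nil)))) .nil))))),
 (.br (nat_lit 9) (nat_lit 1) (.cons (.rf (nat_lit 4680) (nat_lit 457935134042368542752)) (.cons (.rf (nat_lit 4680) (nat_lit 457935134042368541760)) (.cons (.ev (nat_lit 1213666632842672057876481) (nat_lit 1)) .nil)))),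
 (.br (nat_lit 9) (nat_lit 1) (.cons (.rf (nat_lit 3419) (nat_lit 493675700753833166880)) (.cons (.rf (nat_lit 4680) (nat_lit 493745745134571784224)) (.cons (.rf (nat_lit 4680) (nat_lit 457935134042368542752)) (.cons (.ev (nat_lit 79228167255077564536915493121) (nat_lit 1)) .nil))))),
 (.br (nat_lit 1) (nat_lit 0) (.cons (.br (nat_lit 7) (nat_lit 0) (.cons (.rf (nat_lit 4834) (nat_lit 493858305440582043680)) (.cons (.ev (nat_lit 20361947251175756106613814984961) (nat_lit 1)) .nil))) (.cons (.rf (nat_lit 4835) (nat_lit 493858305440582043680)) (.cons (.br (nat_lit 7) (nat_lit 0) (.cons (.br (nat_lit 2) (nat_lit 0) (.cons (.br (nat_lit 5) (nat_lit 0) (.cons (.ev (nat_lit 79228167255077565636427120641) (nat_lit 1)) .nil)) .nil)) (.cons (.rf (nat_lit 4834) (nat_lit 493858305440582043680)) .nil))) .nil)))),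
 (.br (nat_lit 7) (nat_lit 0) (.cons (.rf (nat_lit 4836) (nat_lit 493858305440582043680)) (.cons (.rf (nat_lit 4834) (nat_lit 493858305440582043680)) (.cons (.br (nat_lit 1) (nat_lit 0) (.cons (.ev (nat_lit 20282409603651670705422227996929) (nat_lit 1)) (.cons (.rf (nat_lit 4835) (nat_lit 493858305440582043680)) .nil))) .nil)))),
 (.br (nat_lit 6) (nat_lit 1) (.cons (.rf (nat_lit 4647) (nat_lit 493858200984834115616)) .nil)),
 (.br (nat_lit 9) (nat_lit 1) (.cons (.rf (nat_lit 3419) (nat_lit 493675700753833166880)) (.cons (.rf (nat_lit 4680) (nat_lit 493745745134571784224)) (.cons (.rf (nat_lit 4680) (nat_lit 457935134042368542752)) .nil)))),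
 (.br (nat_lit 9) (nat_lit 1) (.cons (.rf (nat_lit 4680) (nat_lit 493745745134571784224)) (.cons (.rf (nat_lit 4680) (nat_lit 493745745134571783232)) (.cons (.br (nat_lit 1) (nat_lit 0) (.cons (.br (nat_lit 8) (nat_lit 1) (.cons (.br (nat_lit 7) (nat_lit 0) (.cons (.ev (nat_lit 79538861190718805709774913793) (nat_lit 1)) .nil)) (.cons (.br (nat_lit 6) (nat_lit 1) (.cons (.ev (nat_lit 79538861190718805709774913793) (nat_lit 1)) .nil)) .nil))) (.cons (.br (nat_lit 4) (nat_lit 1) (.cons (.br (nat_lit 8) (nat_lit 1) (.cons (.ev (nat_lit 21472705933092123780167632619272) (nat_lit 4)) .nil)) (.cons (.br (nat_lit 2) (nat_lit 0) (.cons (.ev (nat_lit 20997324868748341608314621855496) (nat_lit 4)) .nil)) .nil))) (.cons (.br (nat_lit 4) (nat_lit 1) (.cons (.ev (nat_lit 20362568643806298000325229937410) (nat_lit 2)) (.cons (.ev (nat_lit 20283341690217853277360860693250) (nat_lit 2)) .nil))) .nil)))) .nil)))),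
 (.br (nat_lit 13) (nat_lit 0) (.cons (.br (nat_lit 7) (nat_lit 0) (.cons (.rf (nat_lit 4836) (nat_lit 493858305440582043680)) (.cons (.rf (nat_lit 4837) (nat_lit 493858305440582043680)) (.cons (.rf (nat_lit 4834) (nat_lit 493858305440582043680)) (.cons (.br (nat_lit 7) (nat_lit 0) (.cons (.rf (nat_lit 4836) (nat_lit 493858305440582043680)) (.cons (.rf (nat_lit 4837) (nat_lit 493858305440582043680)) (.cons (.rf (nat_lit 4834) (nat_lit 493858305440582043680)) .nil)))) .nil))))) (.cons (.br (nat_lit 9) (nat_lit 1) (.cons (.br (nat_lit 8) (nat_lit 1) (.cons (.br (nat_lit 4) (nat_lit 1) (.cons (.rf (nat_lit 4838) (nat_lit 493858305440582043680)) (.cons (.br (nat_lit 7) (nat_lit 0) (.cons (.br (nat_lit 11) (nat_lit 1) (.cons (.zr (nat_lit 621387871498655127866376192) (nat_lit 237684492338946471949427015681) (nat_lit 5) (nat_lit 0)) .nil)) (.cons (.br (nat_lit 6) (nat_lit 1) (.cons (.zr (nat_lit 618970019859425869516963840) (nat_lit 237685701209425854357473067009) (nat_lit 5) (nat_lit 0)) .nil)) .nil)))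 .nil))) (.cons (.br (nat_lit 11) (nat_lit 1) (.cons (.ev (nat_lit 20361947251175756107709048422401) (nat_lit 1)) (.cons (.ev (nat_lit 20282720297587311384744679178241) (nat_lit 1)) .nil))) (.cons (.br (nat_lit 5) (nat_lit 0) (.cons (.br (nat_lit 2) (nat_lit 0) (.cons (.rf (nat_lit 4645) (nat_lit 493858200984834115616)) (.cons (.rf (nat_lit 4838) (nat_lit 493751347148455249952)) .nil))) (.cons (.br (nat_lit 7) (nat_lit 0) (.cons (.br (nat_lit 11) (nat_lit 1) (.cons (.zr (nat_lit 618970019859425869516963840) (nat_lit 4840444091685464365334529) (nat_lit 5) (nat_lit 0)) .nil)) (.cons (.br (nat_lit 2) (nat_lit 0) (.cons (.zr (nat_lit 618970019859425869516963840) (nat_lit 237685701209425854357473067009) (nat_lit 5) (nat_lit 0)) .nil)) .nil))) (.cons (.br (nat_lit 7) (nat_lit 0) (.cons (.br (nat_lit 2) (nat_lit 0) (.cons (.zr (nat_lit 238303457562652438650148814848) (nat_lit 4840499431917685493989377) (nat_lit 5) (nat_lit 0)) .nil)) (.cons (.br (nat_lit 4) (nat_lit 1) (.cons (.zr (nat_lit 618970038089997161112731648)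 (nat_lit 1213648330212691207520257) (nat_lit 5) (nat_lit 10)) .nil)) .nil))) .nil)))) .nil)))) (.cons (.br (nat_lit 8) (nat_lit 1) (.cons (.br (nat_lit 4) (nat_lit 1) (.cons (.br (nat_lit 6) (nat_lit 1) (.cons (.br (nat_lit 11) (nat_lit 1) (.cons (.zr (nat_lit 237684487543009185571335766016) (nat_lit 1239153705918503322422083585) (nat_lit 5) (nat_lit 0)) .nil)) .nil)) (.cons (.br (nat_lit 5) (nat_lit 0) (.cons (.rf (nat_lit 4770) (nat_lit 493787340758956738592)) (.cons (.ev (nat_lit 20521024968797933187373522223874) (nat_lit 2)) .nil))) .nil))) (.cons (.kr (nat_lit 4740813226943354765312) (nat_lit 20282410812577490038576425992192) (nat_lit 8) (nat_lit 0)) (.cons (.br (nat_lit 11) (nat_lit 1) (.cons (.br (nat_lit 4) (nat_lit 1) (.cons (.ev (nat_lit 79229376162450435096658837761) (nat_lit 1)) (.cons (.ev (nat_lit 20361637766184381505618799755521) (nat_lit 1)) .nil))) (.cons (.br (nat_lit 7) (nat_lit 0) (.cons (.ev (nat_lit 79228162514336396291388538881) (nat_lit 1)) (.cons (.ev (nat_lit 20282720302328196950757031870465)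 (nat_lit 1)) .nil))) (.cons (.br (nat_lit 5) (nat_lit 0) (.cons (.ev (nat_lit 20361638979832639661811169296385) (nat_lit 1)) (.cons (.ev (nat_lit 20282720302328196950757031870465) (nat_lit 1)) .nil))) .nil)))) .nil)))) (.cons (.ev (nat_lit 20361638975091754377269498347521) (nat_lit 1)) (.cons (.br (nat_lit 8) (nat_lit 1) (.cons (.br (nat_lit 11) (nat_lit 1) (.cons (.br (nat_lit 5) (nat_lit 0) (.cons (.br (nat_lit 6) (nat_lit 1) (.cons (.zr (nat_lit 2417851855402049053327360) (nat_lit 1237944780098888693247377409) (nat_lit 5) (nat_lit 0)) .nil)) (.cons (.rf (nat_lit 4774) (nat_lit 15430854398751901728)) .nil))) (.cons (.br (nat_lit 4) (nat_lit 1) (.cons (.ev (nat_lit 20362566225917765282928084910850) (nat_lit 2)) (.cons (.ev (nat_lit 20441798015209488464409152979714) (nat_lit 2)) .nil))) (.cons (.br (nat_lit 2) (nat_lit 0) (.cons (.br (nat_lit 6) (nat_lit 1) (.cons (.zr (nat_lit 216735732067401728) (nat_lit 310698676454186645565997057) (nat_lit 5) (nat_lit 0)) .nil)) (.cons (.br (nat_lit 5) (nat_lit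 0) (.cons (.zr (nat_lit 237993972552614357857946763264) (nat_lit 1213666777238235598815233) (nat_lit 5) (nat_lit 10)) .nil)) .nil))) .nil)))) (.cons (.br (nat_lit 5) (nat_lit 0) (.cons (.br (nat_lit 6) (nat_lit 1) (.cons (.ev (nat_lit 1213666632841576824439041) (nat_lit 1)) (.cons (.ev (nat_lit 20361637770888373303108285038593) (nat_lit 1)) .nil))) (.cons (.br (nat_lit 7) (nat_lit 0) (.cons (.ev (nat_lit 79229371458602754994272796673) (nat_lit 1)) (.cons (.ev (nat_lit 20282720302328196950757031870465) (nat_lit 1)) .nil))) (.cons (.br (nat_lit 7) (nat_lit 0) (.cons (.ev (nat_lit 79228162514336396291388538881) (nat_lit 1)) (.cons (.ev (nat_lit 20282720302328196950757031870465) (nat_lit 1)) .nil))) .nil)))) (.cons (.kr (nat_lit 4740813226943354765312) (nat_lit 20361637766165934761540795236352) (nat_lit 8) (nat_lit 0)) (.cons (.br (nat_lit 2) (nat_lit 0) (.cons (.br (nat_lit 1) (nat_lit 0) (.cons (.ev (nat_lit 20361638975091754376174264910081) (nat_lit 1)) (.cons (.ev (nat_lit 20282410812595936782654430511361)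 (nat_lit 1)) .nil))) (.cons (.br (nat_lit 5) (nat_lit 0) (.cons (.ev (nat_lit 20361637770888373303108285038593) (nat_lit 1)) (.cons (.ev (nat_lit 20282720302328196950757031870465) (nat_lit 1)) .nil))) (.cons (.br (nat_lit 5) (nat_lit 0) (.cons (.ev (nat_lit 20282409608392555709588450639873) (nat_lit 1)) (.cons (.ev (nat_lit 20282720302328196950757031870465) (nat_lit 1)) .nil))) .nil)))) .nil))))) .nil))))) (.cons (.br (nat_lit 9) (nat_lit 1) (.cons (.rf (nat_lit 4839) (nat_lit 493858305440582043680)) (.cons (.rf (nat_lit 4839) (nat_lit 493858305440582042688)) (.cons (.rf (nat_lit 4840) (nat_lit 493858305440582043680)) (.cons (.br (nat_lit 9) (nat_lit 1) (.cons (.rf (nat_lit 4680) (nat_lit 457935134042368542752)) (.cons (.rf (nat_lit 4680) (nat_lit 457935134042368541760)) (.cons (.rf (nat_lit 4840) (nat_lit 493858305440582043680)) .nil)))) .nil))))) .nil))))]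

theorem c183 : chkAll C T R L183 (nat_lit 4811) = true := by decide +kernel

theorem l183 : (nat_lit 4811) + L183.length = (nat_lit 4842) := by decide +kernel

/-- part of the certificates -/
def L184 : List Prf := [(.br (nat_lit 1) (nat_lit 0) (.cons (.ev (nat_lit 79228167255077565640705310721) (nat_lit 1)) (.cons (.rf (nat_lit 4680) (nat_lit 493857210323783845920)) (.cons (.br (nat_lit 6) (nat_lit 1) (.cons (.br (nat_lit 4) (nat_lit 1) (.cons (.ev (nat_lit 20841341996686624184911642038024) (nat_lit 4)) .nil)) .nil)) .nil)))),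
 (.br (nat_lit 6) (nat_lit 1) (.cons (.rf (nat_lit 3419) (nat_lit 493787200025760303136)) (.cons (.rf (nat_lit 4680) (nat_lit 493857210323783845920)) (.cons (.rf (nat_lit 4680) (nat_lit 458116643612319221792)) (.cons (.rf (nat_lit 4680) (nat_lit 493823368456464074784)) .nil))))),
 (.br (nat_lit 1) (nat_lit 0) (.cons (.rf (nat_lit 4843) (nat_lit 493858305440582043680)) (.cons (.ev (nat_lit 4722366482873940181249) (nat_lit 1)) .nil))),
 (.br (nat_lit 6) (nat_lit 1) (.cons (.rf (nat_lit 4680) (nat_lit 458116643612319221792)) (.cons (.rf (nat_lit 4680) (nat_lit 458116643612319220800)) (.cons (.rf (nat_lit 4680) (nat_lit 493823368456464074784)) .nil)))),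
 (.br (nat_lit 13) (nat_lit 0) (.cons (.rf (nat_lit 4841) (nat_lit 493858305440582043680)) (.cons (.br (nat_lit 9) (nat_lit 1) (.cons (.ev (nat_lit 79228167255077564536915493121) (nat_lit 1)) (.cons (.br (nat_lit 6) (nat_lit 1) (.cons (.rf (nat_lit 4843) (nat_lit 493858305440582043680)) (.cons (.rf (nat_lit 4842) (nat_lit 493858305440582043680)) (.cons (.br (nat_lit 6) (nat_lit 1) (.cons (.rf (nat_lit 4680) (nat_lit 458116643612319221792)) (.cons (.rf (nat_lit 4842) (nat_lit 493858305440582043680)) .nil))) .nil)))) (.cons (.br (nat_lit 7) (nat_lit 0) (.cons (.rf (nat_lit 4844) (nat_lit 493858305440582043680)) (.cons (.rf (nat_lit 4845) (nat_lit 493858305440582043680)) (.cons (.br (nat_lit 7) (nat_lit 0) (.cons (.rf (nat_lit 4844) (nat_lit 493858305440582043680)) (.cons (.rf (nat_lit 4845) (nat_lit 493858305440582043680)) .nil))) .nil)))) (.cons (.br (nat_lit 1) (nat_lit 0) (.cons (.br (nat_lit 5) (nat_lit 0) (.cons (.ev (nat_lit 1213666632842676336066561) (nat_lit 1)) (.cons (.br (nat_lit 2)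 (nat_lit 0) (.cons (.br (nat_lit 7) (nat_lit 0) (.cons (.ev (nat_lit 79538861190718805709774913793) (nat_lit 1)) .nil)) .nil)) .nil))) (.cons (.rf (nat_lit 4843) (nat_lit 493858305440582043680)) (.cons (.br (nat_lit 5) (nat_lit 0) (.cons (.ev (nat_lit 4722366482873940181249) (nat_lit 1)) (.cons (.br (nat_lit 2) (nat_lit 0) (.cons (.br (nat_lit 7) (nat_lit 0) (.cons (.ev (nat_lit 20841341996686624184911642038024) (nat_lit 4)) .nil)) (.cons (.rf (nat_lit 4680) (nat_lit 493857210323783844928)) .nil))) .nil))) .nil)))) .nil))))) (.cons (.br (nat_lit 9) (nat_lit 1) (.cons (.rf (nat_lit 4835) (nat_lit 493858305440582043680)) (.cons (.br (nat_lit 9) (nat_lit 1) (.cons (.rf (nat_lit 3419) (nat_lit 493675700753833166880)) (.cons (.ev (nat_lit 79228167255077565636427120641) (nat_lit 1)) (.cons (.rf (nat_lit 4680) (nat_lit 457935134042368541760)) .nil)))) (.cons (.ev (nat_lit 20361948460120022466411932680193) (nat_lit 1)) (.cons (.br (nat_lit 9) (nat_lit 1) (.cons (.rf (nat_lit 4680) (nat_lit 457935134042368542752))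 (.cons (.rf (nat_lit 4680) (nat_lit 457935134042368541760)) (.cons (.ev (nat_lit 1213666632842672057876481) (nat_lit 1)) .nil)))) .nil))))) .nil)))),
 (.br (nat_lit 6) (nat_lit 1) (.cons (.rf (nat_lit 3419) (nat_lit 493787200025760303136)) (.cons (.br (nat_lit 2) (nat_lit 0) (.cons (.br (nat_lit 9) (nat_lit 1) (.cons (.ev (nat_lit 1213666632841576824439041) (nat_lit 1)) .nil)) (.cons (.rf (nat_lit 4446) (nat_lit 458117738797769787424)) .nil))) .nil))),
 (.br (nat_lit 6) (nat_lit 1) (.cons (.rf (nat_lit 3419) (nat_lit 493787200025760303136)) (.cons (.br (nat_lit 9) (nat_lit 1) (.cons (.rf (nat_lit 4253) (nat_lit 457830460532188185664)) (.cons (.br (nat_lit 1) (nat_lit 0) (.cons (.ev (nat_lit 309489750634572012096323841) (nat_lit 1)) .nil)) .nil))) .nil))),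
 (.br (nat_lit 1) (nat_lit 0) (.cons (.br (nat_lit 2) (nat_lit 0) (.cons (.rf (nat_lit 3419) (nat_lit 493787200025760303136)) (.cons (.ev (nat_lit 1213666632841576824439041) (nat_lit 1)) .nil))) (.cons (.br (nat_lit 7) (nat_lit 0) (.cons (.br (nat_lit 2) (nat_lit 0) (.cons (.ev (nat_lit 21155159815423963065026387446536) (nat_lit 4)) .nil)) .nil)) .nil))),
 (.br (nat_lit 7) (nat_lit 0) (.cons (.rf (nat_lit 4849) (nat_lit 493858305440582043680)) (.cons (.br (nat_lit 2) (nat_lit 0) (.cons (.ev (nat_lit 20361638979832639661811169296385) (nat_lit 1)) (.cons (.ev (nat_lit 20282720302328196950757031870465) (nat_lit 1)) .nil))) .nil))),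
 (.br (nat_lit 13) (nat_lit 0) (.cons (.rf (nat_lit 4841) (nat_lit 493858305440582043680)) (.cons (.rf (nat_lit 4846) (nat_lit 493858305440582043680)) (.cons (.br (nat_lit 5) (nat_lit 0) (.cons (.br (nat_lit 6) (nat_lit 1) (.cons (.rf (nat_lit 4847) (nat_lit 493858305440582043680)) (.cons (.rf (nat_lit 4848) (nat_lit 493858305440582043680)) (.cons (.br (nat_lit 6) (nat_lit 1) (.cons (.rf (nat_lit 4847) (nat_lit 493858305440582043680)) (.cons (.rf (nat_lit 4848) (nat_lit 493858305440582043680)) .nil))) .nil)))) (.cons (.br (nat_lit 6) (nat_lit 1) (.cons (.rf (nat_lit 4680) (nat_lit 493857210323783845920)) (.cons (.rf (nat_lit 4680) (nat_lit 493857210323783844928)) (.cons (.br (nat_lit 7) (nat_lit 0) (.cons (.br (nat_lit 8) (nat_lit 1) (.cons (.br (nat_lit 2) (nat_lit 0) (.cons (.ev (nat_lit 79538861190718524234814980353) (nat_lit 1)) .nil)) (.cons (.br (nat_lit 9) (nat_lit 1) (.cons (.zr (nat_lit 621387871498655127866376192) (nat_lit 237684492338946471949427015681) (nat_lit 5) (nat_lit 0)) .nil))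 .nil))) (.cons (.br (nat_lit 9) (nat_lit 1) (.cons (.br (nat_lit 4) (nat_lit 1) (.cons (.zr (nat_lit 618970038089997161112731648) (nat_lit 1213648330212691207520257) (nat_lit 5) (nat_lit 10)) .nil)) (.cons (.ev (nat_lit 20282720302328196950757031870465) (nat_lit 1)) .nil))) (.cons (.br (nat_lit 8) (nat_lit 1) (.cons (.ev (nat_lit 309489750634572012096323841) (nat_lit 1)) (.cons (.ev (nat_lit 20282720302328196950757031870465) (nat_lit 1)) .nil))) .nil)))) .nil)))) (.cons (.br (nat_lit 7) (nat_lit 0) (.cons (.rf (nat_lit 4849) (nat_lit 493858305440582043680)) (.cons (.rf (nat_lit 4850) (nat_lit 493858305440582043680)) (.cons (.br (nat_lit 7) (nat_lit 0) (.cons (.rf (nat_lit 4849) (nat_lit 493858305440582043680)) (.cons (.rf (nat_lit 4850) (nat_lit 493858305440582043680)) .nil))) .nil)))) (.cons (.kr (nat_lit 4722366482869645213696) (nat_lit 20282409603651670423947251286016) (nat_lit 9) (nat_lit 0)) .nil))))) .nil)))),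
 (.br (nat_lit 13) (nat_lit 0) (.cons (.rf (nat_lit 4841) (nat_lit 493858305440582043680)) (.cons (.rf (nat_lit 4846) (nat_lit 493858305440582043680)) (.cons (.rf (nat_lit 4851) (nat_lit 493858305440582043680)) (.cons (.br (nat_lit 13) (nat_lit 0) (.cons (.rf (nat_lit 4841) (nat_lit 493858305440582043680)) (.cons (.rf (nat_lit 4846) (nat_lit 493858305440582043680)) (.cons (.rf (nat_lit 4851) (nat_lit 493858305440582043680)) .nil)))) .nil))))),
 (.br (nat_lit 4) (nat_lit 1) (.cons (.rf (nat_lit 4680) (nat_lit 458079526298789741632)) (.cons (.ev (nat_lit 20282409603651670705426539741441) (nat_lit 1)) (.cons (.rf (nat_lit 4680) (nat_lit 493858305440582043680)) .nil)))),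
 (.br (nat_lit 7) (nat_lit 0) (.cons (.rf (nat_lit 4853) (nat_lit 493858305440582043680)) (.cons (.br (nat_lit 4) (nat_lit 1) (.cons (.ev (nat_lit 79538856449977354885498208513) (nat_lit 1)) (.cons (.ev (nat_lit 79538861190718806809286541313) (nat_lit 1)) .nil))) .nil))),
 (.br (nat_lit 7) (nat_lit 0) (.cons (.br (nat_lit 9) (nat_lit 1) (.cons (.ev (nat_lit 309489750634854586567884801) (nat_lit 1)) .nil)) (.cons (.br (nat_lit 2) (nat_lit 0) (.cons (.ev (nat_lit 309489750634854586567884801) (nat_lit 1)) .nil)) .nil))),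
 (.br (nat_lit 4) (nat_lit 1) (.cons (.rf (nat_lit 4680) (nat_lit 458079526298789741632)) (.cons (.rf (nat_lit 4855) (nat_lit 493858305440582043680)) .nil))),
 (.br (nat_lit 7) (nat_lit 0) (.cons (.rf (nat_lit 4856) (nat_lit 493858305440582043680)) (.cons (.br (nat_lit 4) (nat_lit 1) (.cons (.ev (nat_lit 20282720302328196949657520242945) (nat_lit 1)) (.cons (.ev (nat_lit 79538861190718806809286541313) (nat_lit 1)) .nil))) .nil))),
 (.br (nat_lit 4) (nat_lit 1) (.cons (.rf (nat_lit 4797) (nat_lit 458009550086699354144)) (.cons (.rf (nat_lit 4797) (nat_lit 458009550086699353152)) (.cons (.br (nat_lit 7) (nat_lit 0) (.cons (.br (nat_lit 2) (nat_lit 0) (.cons (.br (nat_lit 1) (nat_lit 0) (.cons (.ev (nat_lit 309489750634854586567884801) (nat_lit 1)) .nil)) .nil)) (.cons (.br (nat_lit 9) (nat_lit 1) (.cons (.rf (nat_lit 4680) (nat_lit 458005178423107160096)) (.cons (.rf (nat_lit 4680) (nat_lit 458005178423107159104)) .nil))) .nil))) .nil)))),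
 (.br (nat_lit 9) (nat_lit 1) (.cons (.rf (nat_lit 4680) (nat_lit 458005178423107160096)) (.cons (.rf (nat_lit 4680) (nat_lit 458005178423107159104)) (.cons (.ev (nat_lit 1213666632842672057876481) (nat_lit 1)) .nil)))),
 (.br (nat_lit 13) (nat_lit 0) (.cons (.rf (nat_lit 4852) (nat_lit 493858305440582043680)) (.cons (.br (nat_lit 1) (nat_lit 0) (.cons (.br (nat_lit 4) (nat_lit 1) (.cons (.rf (nat_lit 3419) (nat_lit 493750116798163978272)) (.cons (.br (nat_lit 11) (nat_lit 1) (.cons (.ev (nat_lit 20361947251175756107709048422401) (nat_lit 1)) (.cons (.ev (nat_lit 20282720297587311384744679178241) (nat_lit 1)) .nil))) (.cons (.rf (nat_lit 4680) (nat_lit 458079526298789742624)) .nil)))) (.cons (.br (nat_lit 7) (nat_lit 0) (.cons (.rf (nat_lit 4853) (nat_lit 493858305440582043680)) (.cons (.rf (nat_lit 4854) (nat_lit 493858305440582043680)) (.cons (.br (nat_lit 7) (nat_lit 0) (.cons (.rf (nat_lit 4853) (nat_lit 493858305440582043680)) (.cons (.rf (nat_lit 4854) (nat_lit 493858305440582043680))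 .nil))) .nil)))) (.cons (.ev (nat_lit 79228167255077564536915493121) (nat_lit 1)) (.cons (.br (nat_lit 7) (nat_lit 0) (.cons (.rf (nat_lit 4856) (nat_lit 493858305440582043680)) (.cons (.rf (nat_lit 4857) (nat_lit 493858305440582043680)) (.cons (.br (nat_lit 7) (nat_lit 0) (.cons (.rf (nat_lit 4856) (nat_lit 493858305440582043680)) (.cons (.rf (nat_lit 4857) (nat_lit 493858305440582043680)) .nil))) .nil)))) .nil))))) (.cons (.br (nat_lit 7) (nat_lit 0) (.cons (.rf (nat_lit 4858) (nat_lit 493858305440582043680)) (.cons (.br (nat_lit 7) (nat_lit 0) (.cons (.rf (nat_lit 4858) (nat_lit 493858305440582043680)) (.cons (.rf (nat_lit 4859) (nat_lit 493858305440582043680)) .nil))) (.cons (.rf (nat_lit 4859) (nat_lit 493858305440582043680)) .nil)))) .nil)))),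
 (.br (nat_lit 4) (nat_lit 1) (.cons (.rf (nat_lit 4860) (nat_lit 493750116798163978272)) (.cons (.rf (nat_lit 4833) (nat_lit 493750116798163977280)) (.cons (.br (nat_lit 8) (nat_lit 1) (.cons (.ev (nat_lit 20282410812595936783753942138881) (nat_lit 1)) (.cons (.br (nat_lit 7) (nat_lit 0) (.cons (.br (nat_lit 9) (nat_lit 1) (.cons (.ev (nat_lit 309489750634854586567884801) (nat_lit 1)) .nil)) (.cons (.br (nat_lit 6) (nat_lit 1) (.cons (.ev (nat_lit 309489750634854586567884801) (nat_lit 1)) .nil)) .nil))) (.cons (.rf (nat_lit 4855) (nat_lit 493750116592005548256)) .nil)))) .nil)))),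
 (.br (nat_lit 13) (nat_lit 0) (.cons (.rf (nat_lit 4852) (nat_lit 493858305440582043680)) (.cons (.rf (nat_lit 4860) (nat_lit 493858305440582043680)) (.cons (.br (nat_lit 4) (nat_lit 1) (.cons (.br (nat_lit 4) (nat_lit 1) (.cons (.rf (nat_lit 3419) (nat_lit 493750116798163978272)) (.cons (.rf (nat_lit 4860) (nat_lit 493750116798163978272)) (.cons (.rf (nat_lit 4680) (nat_lit 458079526298789742624)) .nil)))) (.cons (.br (nat_lit 4) (nat_lit 1) (.cons (.rf (nat_lit 3419) (nat_lit 493750116798163978272)) (.cons (.rf (nat_lit 4833) (nat_lit 493750116798163977280)) (.cons (.rf (nat_lit 4680) (nat_lit 458079526298789741632)) .nil)))) (.cons (.rf (nat_lit 4861) (nat_lit 493858305440582043680)) (.cons (.br (nat_lit 4) (nat_lit 1) (.cons (.rf (nat_lit 4680) (nat_lit 458079526298789742624)) (.cons (.rf (nat_lit 4680) (nat_lit 458079526298789741632)) (.cons (.rf (nat_lit 4861) (nat_lit 493858305440582043680)) .nil)))) .nil))))) .nil)))),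
 (.br (nat_lit 13) (nat_lit 0) (.cons (.rf (nat_lit 4852) (nat_lit 493858305440582043680)) (.cons (.rf (nat_lit 4860) (nat_lit 493858305440582043680)) (.cons (.rf (nat_lit 4862) (nat_lit 493858305440582043680)) (.cons (.br (nat_lit 13) (nat_lit 0) (.cons (.rf (nat_lit 4852) (nat_lit 493858305440582043680)) (.cons (.rf (nat_lit 4860) (nat_lit 493858305440582043680)) (.cons (.rf (nat_lit 4862) (nat_lit 493858305440582043680)) .nil)))) .nil))))),
 (.br (nat_lit 13) (nat_lit 0) (.cons (.rf (nat_lit 4852) (nat_lit 493858305440582043680)) (.cons (.rf (nat_lit 4863) (nat_lit 493858305440582043680)) (.cons (.br (nat_lit 1) (nat_lit 0) (.cons (.br (nat_lit 4) (nat_lit 1) (.cons (.rf (nat_lit 3419) (nat_lit 493750116798163978272)) (.cons (.ev (nat_lit 20361948460120022466411932680193) (nat_lit 1)) (.cons (.rf (nat_lit 4680) (nat_lit 458079526298789742624)) .nil)))) (.cons (.br (nat_lit 6) (nat_lit 1) (.cons (.rf (nat_lit 3419) (nat_lit 493787200025760303136)) (.cons (.rf (nat_lit 4680) (nat_lit 493857210323783845920))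 (.cons (.rf (nat_lit 4680) (nat_lit 458116643612319221792)) .nil)))) (.cons (.ev (nat_lit 79228167255077564536915493121) (nat_lit 1)) .nil)))) .nil)))),
 (.br (nat_lit 13) (nat_lit 0) (.cons (.rf (nat_lit 4852) (nat_lit 493858305440582043680)) (.cons (.rf (nat_lit 4863) (nat_lit 493858305440582043680)) (.cons (.rf (nat_lit 4864) (nat_lit 493858305440582043680)) (.cons (.br (nat_lit 13) (nat_lit 0) (.cons (.rf (nat_lit 4852) (nat_lit 493858305440582043680)) (.cons (.rf (nat_lit 4863) (nat_lit 493858305440582043680)) (.cons (.rf (nat_lit 4864) (nat_lit 493858305440582043680)) .nil)))) .nil))))),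
 (.br (nat_lit 13) (nat_lit 0) (.cons (.rf (nat_lit 4852) (nat_lit 493858305440582043680)) (.cons (.rf (nat_lit 4863) (nat_lit 493858305440582043680)) (.cons (.rf (nat_lit 4865) (nat_lit 493858305440582043680)) (.cons (.br (nat_lit 13) (nat_lit 0) (.cons (.rf (nat_lit 4852) (nat_lit 493858305440582043680)) (.cons (.rf (nat_lit 4863) (nat_lit 493858305440582043680)) (.cons (.rf (nat_lit 4865) (nat_lit 493858305440582043680)) .nil)))) .nil))))),
 (.br (nat_lit 13) (nat_lit 0) (.cons (.rf (nat_lit 4852) (nat_lit 493858305440582043680)) (.cons (.rf (nat_lit 4863) (nat_lit 493858305440582043680)) (.cons (.rf (nat_lit 4865) (nat_lit 493858305440582043680)) (.cons (.rf (nat_lit 4866) (nat_lit 493858305440582043680)) (.cons (.br (nat_lit 13) (nat_lit 0) (.cons (.rf (nat_lit 4852) (nat_lit 493858305440582043680)) (.cons (.rf (nat_lit 4863) (nat_lit 493858305440582043680)) (.cons (.rf (nat_lit 4865) (nat_lit 493858305440582043680)) (.cons (.rf (nat_lit 4866) (nat_lit 493858305440582043680)) .nil)))))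 .nil))))))]

theorem c184 : chkAll C T R L184 (nat_lit 4842) = true := by decide +kernel

theorem l184 : (nat_lit 4842) + L184.length = (nat_lit 4868) := by decide +kernel

/-- part of the certificates -/
def L185 : List Prf := [(.br (nat_lit 13) (nat_lit 0) (.cons (.rf (nat_lit 4680) (nat_lit 457935134042368542752)) (.cons (.br (nat_lit 13) (nat_lit 0) (.cons (.rf (nat_lit 4680) (nat_lit 457935134042368542752)) (.cons (.rf (nat_lit 4680) (nat_lit 458005178423107160096)) .nil))) (.cons (.rf (nat_lit 4680) (nat_lit 458005178423107160096)) .nil)))),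
 (.br (nat_lit 4) (nat_lit 1) (.cons (.rf (nat_lit 4680) (nat_lit 458079526298789741632)) (.cons (.br (nat_lit 13) (nat_lit 0) (.cons (.br (nat_lit 2) (nat_lit 0) (.cons (.br (nat_lit 11) (nat_lit 1) (.cons (.ev (nat_lit 80776796489263299231354193412) (nat_lit 3)) .nil)) (.cons (.br (nat_lit 7) (nat_lit 0) (.cons (.ev (nat_lit 20679176639871845565835704992516) (nat_lit 3)) .nil)) .nil))) (.cons (.br (nat_lit 6) (nat_lit 1) (.cons (.ev (nat_lit 20282720302309677866519107796993) (nat_lit 1)) (.cons (.ev (nat_lit 79538861172343838858949951745) (nat_lit 1)) .nil))) .nil))) .nil))),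
 (.br (nat_lit 7) (nat_lit 0) (.cons (.rf (nat_lit 4869) (nat_lit 493858305440582043680)) (.cons (.br (nat_lit 6) (nat_lit 1) (.cons (.ev (nat_lit 79229376180969519334616465665) (nat_lit 1)) (.cons (.br (nat_lit 2) (nat_lit 0) (.cons (.br (nat_lit 4) (nat_lit 1) (.cons (.ev (nat_lit 475370184011479106267495269892) (nat_lit 3)) .nil)) .nil)) .nil))) .nil))),
 (.br (nat_lit 4) (nat_lit 1) (.cons (.rf (nat_lit 4680) (nat_lit 458079526298789741632)) (.cons (.br (nat_lit 13) (nat_lit 0) (.cons (.br (nat_lit 2) (nat_lit 0) (.cons (.rf (nat_lit 3606) (nat_lit 458082801744999450656)) (.cons (.br (nat_lit 7) (nat_lit 0) (.cons (.ev (nat_lit 79538856468352322844424732673) (nat_lit 1)) .nil)) .nil))) (.cons (.br (nat_lit 7) (nat_lit 0) (.cons (.br (nat_lit 6) (nat_lit 1) (.cons (.ev (nat_lit 310693935641241177171230721) (nat_lit 1)) .nil)) .nil)) .nil))) .nil))),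
 (.br (nat_lit 4) (nat_lit 1) (.cons (.rf (nat_lit 4680) (nat_lit 458079526298789741632)) (.cons (.br (nat_lit 6) (nat_lit 1) (.cons (.rf (nat_lit 4468) (nat_lit 493745751731641354272)) (.cons (.ev (nat_lit 20361638975110273178937229050113) (nat_lit 1)) .nil))) .nil))),
 (.br (nat_lit 9) (nat_lit 1) (.cons (.rf (nat_lit 3419) (nat_lit 493675700753833166880)) (.cons (.br (nat_lit 13) (nat_lit 0) (.cons (.rf (nat_lit 4680) (nat_lit 457935134042368542752)) (.cons (.rf (nat_lit 4868) (nat_lit 493858305440582043680)) (.cons (.br (nat_lit 13) (nat_lit 0) (.cons (.rf (nat_lit 4680) (nat_lit 457935134042368542752)) (.cons (.rf (nat_lit 4868) (nat_lit 493858305440582043680)) (.cons (.rf (nat_lit 4680) (nat_lit 458005178423107160096)) .nil)))) (.cons (.rf (nat_lit 4680) (nat_lit 458005178423107160096)) .nil))))) (.cons (.br (nat_lit 8) (nat_lit 1) (.cons (.br (nat_lit 7) (nat_lit 0) (.cons (.rf (nat_lit 4869) (nat_lit 493858305440582043680)) (.cons (.rf (nat_lit 4870) (nat_lit 493858305440582043680))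 (.cons (.br (nat_lit 7) (nat_lit 0) (.cons (.rf (nat_lit 4869) (nat_lit 493858305440582043680)) (.cons (.rf (nat_lit 4870) (nat_lit 493858305440582043680)) .nil))) .nil)))) (.cons (.br (nat_lit 4) (nat_lit 1) (.cons (.rf (nat_lit 4871) (nat_lit 493858305440582043680)) (.cons (.rf (nat_lit 4872) (nat_lit 493858305440582043680)) (.cons (.br (nat_lit 4) (nat_lit 1) (.cons (.rf (nat_lit 4871) (nat_lit 493858305440582043680)) (.cons (.rf (nat_lit 4872) (nat_lit 493858305440582043680)) .nil))) .nil)))) (.cons (.ev (nat_lit 79228167255077564536915493121) (nat_lit 1)) .nil)))) .nil)))),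
 (.br (nat_lit 13) (nat_lit 0) (.cons (.rf (nat_lit 4680) (nat_lit 457935134042368541760)) (.cons (.br (nat_lit 13) (nat_lit 0) (.cons (.rf (nat_lit 4680) (nat_lit 457935134042368541760)) (.cons (.rf (nat_lit 4680) (nat_lit 458005178423107159104)) .nil))) (.cons (.rf (nat_lit 4680) (nat_lit 458005178423107159104)) .nil)))),
 (.br (nat_lit 13) (nat_lit 0) (.cons (.rf (nat_lit 4680) (nat_lit 458046633314295678016)) (.cons (.rf (nat_lit 4680) (nat_lit 458116643612319220800)) (.cons (.rf (nat_lit 4833) (nat_lit 458116643612319220800)) .nil)))),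
 (.br (nat_lit 6) (nat_lit 1) (.cons (.rf (nat_lit 4875) (nat_lit 493858305440582043680)) (.cons (.br (nat_lit 7) (nat_lit 0) (.cons (.br (nat_lit 2) (nat_lit 0) (.cons (.ev (nat_lit 79538861190718805709774913793) (nat_lit 1)) .nil)) (.cons (.ev (nat_lit 20361948460101647779932244279553) (nat_lit 1)) .nil))) .nil))),
 (.br (nat_lit 7) (nat_lit 0) (.cons (.rf (nat_lit 4876) (nat_lit 493858305440582043680)) (.cons (.br (nat_lit 13) (nat_lit 0) (.cons (.br (nat_lit 6) (nat_lit 1) (.cons (.ev (nat_lit 79538861190718805709774913793) (nat_lit 1)) .nil)) .nil)) .nil))),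
 (.br (nat_lit 4) (nat_lit 1) (.cons (.rf (nat_lit 3419) (nat_lit 493750116798163978272)) (.cons (.rf (nat_lit 4680) (nat_lit 458079526298789742624)) (.cons (.br (nat_lit 7) (nat_lit 0) (.cons (.rf (nat_lit 4876) (nat_lit 493858305440582043680)) (.cons (.rf (nat_lit 4877) (nat_lit 493858305440582043680)) (.cons (.br (nat_lit 7) (nat_lit 0) (.cons (.rf (nat_lit 4876) (nat_lit 493858305440582043680)) (.cons (.rf (nat_lit 4877) (nat_lit 493858305440582043680)) .nil))) .nil)))) .nil)))),
 (.br (nat_lit 4) (nat_lit 1) (.cons (.rf (nat_lit 3419) (nat_lit 493750116798163978272)) (.cons (.rf (nat_lit 4680) (nat_lit 458079526298789741632)) (.cons (.br (nat_lit 11) (nat_lit 1) (.cons (.ev (nat_lit 79229376162450435096658837761) (nat_lit 1)) (.cons (.br (nat_lit 1) (nat_lit 0) (.cons (.br (nat_lit 7) (nat_lit 0) (.cons (.ev (nat_lit 79537647524085964137262284801) (nat_lit 1)) (.cons (.ev (nat_lit 1213666632841576824439041) (nat_lit 1)) .nil))) (.cons (.br (nat_lit 13) (nat_lit 0) (.cons (.br (nat_lit 6)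 (nat_lit 1) (.cons (.ev (nat_lit 317532829002593121217856931332) (nat_lit 3)) .nil)) .nil)) .nil))) (.cons (.br (nat_lit 1) (nat_lit 0) (.cons (.br (nat_lit 7) (nat_lit 0) (.cons (.rf (nat_lit 4867) (nat_lit 458116643612319221792)) (.cons (.ev (nat_lit 1213666632841576824439041) (nat_lit 1)) .nil))) (.cons (.ev (nat_lit 20361948460120022465312421052673) (nat_lit 1)) .nil))) .nil)))) .nil)))),
 (.br (nat_lit 4) (nat_lit 1) (.cons (.rf (nat_lit 4680) (nat_lit 458079526298789742624)) (.cons (.rf (nat_lit 4680) (nat_lit 458079526298789741632)) (.cons (.br (nat_lit 7) (nat_lit 0) (.cons (.br (nat_lit 2) (nat_lit 0) (.cons (.rf (nat_lit 4875) (nat_lit 493858305440582043680)) (.cons (.br (nat_lit 6) (nat_lit 1) (.cons (.ev (nat_lit 1213666632841576824439041) (nat_lit 1)) (.cons (.ev (nat_lit 20440869569643348253100197675010) (nat_lit 2)) .nil))) (.cons (.br (nat_lit 1) (nat_lit 0) (.cons (.ev (nat_lit 309489732259886631919550721) (nat_lit 1)) (.cons (.br (nat_lit 13) (nat_lit 0) (.cons (.ev (nat_lit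 20680409744133777276542048731908) (nat_lit 3)) .nil)) .nil))) .nil)))) (.cons (.br (nat_lit 2) (nat_lit 0) (.cons (.ev (nat_lit 18518802771554140161) (nat_lit 1)) (.cons (.ev (nat_lit 79228162514336396291388538881) (nat_lit 1)) .nil))) (.cons (.br (nat_lit 2) (nat_lit 0) (.cons (.br (nat_lit 13) (nat_lit 0) (.cons (.ev (nat_lit 121775853388419362011113582886916) (nat_lit 3)) (.cons (.zr (nat_lit 20361637766166078878927894478848) (nat_lit 310698676454186645565997057) (nat_lit 5) (nat_lit 0)) .nil))) (.cons (.ev (nat_lit 310693935640959697899552769) (nat_lit 1)) .nil))) .nil)))) .nil)))),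
 (.br (nat_lit 9) (nat_lit 1) (.cons (.rf (nat_lit 3419) (nat_lit 493675700753833166880)) (.cons (.br (nat_lit 13) (nat_lit 0) (.cons (.rf (nat_lit 4680) (nat_lit 457935134042368541760)) (.cons (.rf (nat_lit 4874) (nat_lit 493858305440582043680)) (.cons (.br (nat_lit 13) (nat_lit 0) (.cons (.rf (nat_lit 4680) (nat_lit 457935134042368541760)) (.cons (.rf (nat_lit 4874) (nat_lit 493858305440582043680)) (.cons (.rf (nat_lit 4680) (nat_lit 458005178423107159104)) .nil)))) (.cons (.rf (nat_lit 4680) (nat_lit 458005178423107159104)) .nil))))) (.cons (.br (nat_lit 4) (nat_lit 1) (.cons (.rf (nat_lit 4878) (nat_lit 493858305440582043680)) (.cons (.rf (nat_lit 4879) (nat_lit 493858305440582043680)) (.cons (.rf (nat_lit 4880) (nat_lit 493858305440582043680)) (.cons (.br (nat_lit 4) (nat_lit 1) (.cons (.rf (nat_lit 4878) (nat_lit 493858305440582043680)) (.cons (.rf (nat_lit 4879) (nat_lit 493858305440582043680)) (.cons (.rf (nat_lit 4880) (nat_lit 493858305440582043680)) .nil)))) .nil))))) .nil)))),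
 (.br (nat_lit 4) (nat_lit 1) (.cons (.rf (nat_lit 3419) (nat_lit 493750116798163978272)) (.cons (.rf (nat_lit 4680) (nat_lit 458079526298789742624)) (.cons (.br (nat_lit 13) (nat_lit 0) (.cons (.br (nat_lit 8) (nat_lit 1) (.cons (.br (nat_lit 6) (nat_lit 1) (.cons (.br (nat_lit 11) (nat_lit 1) (.cons (.ev (nat_lit 79538861190718805709774913793) (nat_lit 1)) .nil)) (.cons (.br (nat_lit 2) (nat_lit 0) (.cons (.ev (nat_lit 79538861190718805709774913793) (nat_lit 1)) .nil)) .nil))) (.cons (.ev (nat_lit 79228167236702879156738720001) (nat_lit 1)) .nil))) (.cons (.br (nat_lit 7) (nat_lit 0) (.cons (.rf (nat_lit 4853) (nat_lit 493823368456464074784)) (.cons (.ev (nat_lit 310698676526245339115553025) (nat_lit 1)) .nil))) (.cons (.kr (nat_lit 1213648186097498819919872) (nat_lit 20361637766165934761540795236352) (nat_lit 9) (nat_lit 0)) .nil)))) .nil)))),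
 (.br (nat_lit 4) (nat_lit 1) (.cons (.rf (nat_lit 3419) (nat_lit 493750116798163978272)) (.cons (.rf (nat_lit 4680) (nat_lit 458079526298789741632)) (.cons (.br (nat_lit 13) (nat_lit 0) (.cons (.br (nat_lit 7) (nat_lit 0) (.cons (.br (nat_lit 2) (nat_lit 0) (.cons (.ev (nat_lit 18518802771554140161) (nat_lit 1)) (.cons (.ev (nat_lit 20361947255898122870958436974593) (nat_lit 1)) .nil))) (.cons (.kr (nat_lit 1213666632841572529471488) (nat_lit 20440865928680199099134339186688) (nat_lit 8) (nat_lit 0)) (.cons (.br (nat_lit 2) (nat_lit 0) (.cons (.ev (nat_lit 310693935641241177171230721) (nat_lit 1)) (.cons (.ev (nat_lit 20361638979832639661811169296385) (nat_lit 1)) .nil))) .nil)))) (.cons (.br (nat_lit 1) (nat_lit 0) (.cons (.rf (nat_lit 4843) (nat_lit 493858305440582043680)) (.cons (.ev (nat_lit 20361948460120022465312421052673) (nat_lit 1)) .nil))) (.cons (.kr (nat_lit 1213648186097498819919872) (nat_lit 20361637766165934761540795236352) (nat_lit 9) (nat_lit 0)) .nil)))) .nil)))),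
 (.br (nat_lit 4) (nat_lit 1) (.cons (.rf (nat_lit 4680) (nat_lit 458079526298789742624)) (.cons (.rf (nat_lit 4680) (nat_lit 458079526298789741632)) (.cons (.br (nat_lit 11) (nat_lit 1) (.cons (.ev (nat_lit 79229376162450435096658837761) (nat_lit 1)) (.cons (.br (nat_lit 2) (nat_lit 0) (.cons (.br (nat_lit 8) (nat_lit 1) (.cons (.ev (nat_lit 79228167236702879156738720001) (nat_lit 1)) (.cons (.zr (nat_lit 20361637766166078878927894478848) (nat_lit 310698676454186645565997057) (nat_lit 5) (nat_lit 0)) .nil))) (.cons (.ev (nat_lit 79228162514336396291388538881) (nat_lit 1)) .nil))) (.cons (.kr (nat_lit 1213648186097498819919872) (nat_lit 20361637766165934761540795236352) (nat_lit 9) (nat_lit 0)) .nil)))) .nil)))),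
 (.br (nat_lit 9) (nat_lit 1) (.cons (.rf (nat_lit 4873) (nat_lit 493858305440582043680)) (.cons (.rf (nat_lit 4881) (nat_lit 493858305440582043680)) (.cons (.br (nat_lit 4) (nat_lit 1) (.cons (.rf (nat_lit 4882) (nat_lit 493858305440582043680)) (.cons (.rf (nat_lit 4883) (nat_lit 493858305440582043680)) (.cons (.rf (nat_lit 4884) (nat_lit 493858305440582043680)) (.cons (.br (nat_lit 4) (nat_lit 1) (.cons (.rf (nat_lit 4882) (nat_lit 493858305440582043680)) (.cons (.rf (nat_lit 4883) (nat_lit 493858305440582043680)) (.cons (.rf (nat_lit 4884) (nat_lit 493858305440582043680)) .nil)))) .nil))))) .nil)))),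
 (.br (nat_lit 8) (nat_lit 1) (.cons (.br (nat_lit 9) (nat_lit 1) (.cons (.rf (nat_lit 4481) (nat_lit 493857210255131478048)) (.cons (.ev (nat_lit 79538861190718806809286541313) (nat_lit 1)) .nil))) (.cons (.ev (nat_lit 20361948460101648061407237767425) (nat_lit 1)) .nil))),
 (.br (nat_lit 13) (nat_lit 0) (.cons (.rf (nat_lit 4797) (nat_lit 458046633314295679008)) (.cons (.rf (nat_lit 4680) (nat_lit 458116643612319221792)) (.cons (.br (nat_lit 4) (nat_lit 1) (.cons (.rf (nat_lit 4689) (nat_lit 493787199957107935264)) (.cons (.rf (nat_lit 4886) (nat_lit 493858305440582043680)) (.cons (.br (nat_lit 5) (nat_lit 0) (.cons (.rf (nat_lit 4886) (nat_lit 493858305440582043680)) (.cons (.ev (nat_lit 20361948460101648061407237767425) (nat_lit 1)) (.cons (.ev (nat_lit 20361637766166007101709338280193) (nat_lit 1)) .nil)))) .nil)))) .nil)))),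
 (.br (nat_lit 13) (nat_lit 0) (.cons (.br (nat_lit 9) (nat_lit 1) (.cons (.rf (nat_lit 4506) (nat_lit 493745751731641354272)) (.cons (.rf (nat_lit 4506) (nat_lit 458082801743925740608)) .nil))) (.cons (.rf (nat_lit 4680) (nat_lit 458079526298789741632)) .nil))),
 (.br (nat_lit 7) (nat_lit 0) (.cons (.rf (nat_lit 4888) (nat_lit 493858305440582043680)) (.cons (.br (nat_lit 13) (nat_lit 0) (.cons (.rf (nat_lit 4612) (nat_lit 493820022642585995296)) (.cons (.ev (nat_lit 20282720302328196949657520242945) (nat_lit 1)) .nil))) .nil))),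
 (.br (nat_lit 2) (nat_lit 0) (.cons (.ev (nat_lit 79229371440084233697712209921) (nat_lit 1)) (.cons (.br (nat_lit 11) (nat_lit 1) (.cons (.br (nat_lit 4) (nat_lit 1) (.cons (.br (nat_lit 13) (nat_lit 0) (.cons (.br (nat_lit 9) (nat_lit 1) (.cons (.zr (nat_lit 237684487579686504226586034176) (nat_lit 314325435466567934357274625) (nat_lit 5) (nat_lit 0)) .nil)) (.cons (.rf (nat_lit 4680) (nat_lit 458079526298789741632)) .nil))) (.cons (.br (nat_lit 9) (nat_lit 1) (.cons (.rf (nat_lit 4680) (nat_lit 457935134042368541760)) .nil)) .nil))) (.cons (.ev (nat_lit 310693935641241172893040641) (nat_lit 1)) (.cons (.ev (nat_lit 79537647524085964137262284801) (nat_lit 1)) .nil)))) (.cons (.br (nat_lit 7) (nat_lit 0) (.cons (.rf (nat_lit 4888) (nat_lit 493858305440582043680)) (.cons (.rf (nat_lit 4889) (nat_lit 493858305440582043680)) (.cons (.br (nat_lit 7) (nat_lit 0) (.cons (.rf (nat_lit 4888) (nat_lit 493858305440582043680)) (.cons (.rf (nat_lit 4889) (nat_lit 493858305440582043680)) .nil))) .nil))))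 .nil)))),
 (.br (nat_lit 5) (nat_lit 0) (.cons (.br (nat_lit 2) (nat_lit 0) (.cons (.ev (nat_lit 79229371440084233697712209921) (nat_lit 1)) (.cons (.br (nat_lit 4) (nat_lit 1) (.cons (.br (nat_lit 9) (nat_lit 1) (.cons (.ev (nat_lit 79228167255077564541193683201) (nat_lit 1)) (.cons (.ev (nat_lit 1213666632841576824439041) (nat_lit 1)) .nil))) (.cons (.br (nat_lit 9) (nat_lit 1) (.cons (.ev (nat_lit 1213666632841576824439041) (nat_lit 1)) .nil)) .nil))) (.cons (.br (nat_lit 4) (nat_lit 1) (.cons (.kr (nat_lit 2417851639229262644379904) (nat_lit 79537647524085965236757069824) (nat_lit 1) (nat_lit 0)) (.cons (.kr (nat_lit 1208925819614633469673728) (nat_lit 309485009821627643213119488) (nat_lit 1) (nat_lit 0)) .nil))) .nil)))) (.cons (.rf (nat_lit 4716) (nat_lit 458009550086699353152)) (.cons (.br (nat_lit 2) (nat_lit 0) (.cons (.ev (nat_lit 79229371440084233697712209921) (nat_lit 1)) (.cons (.ev (nat_lit 79537647524085682662268796929) (nat_lit 1)) .nil))) .nil)))),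
 (.br (nat_lit 4) (nat_lit 1) (.cons (.br (nat_lit 9) (nat_lit 1) (.cons (.zr (nat_lit 20361637766166006820234344923648) (nat_lit 618974742009735957064974337) (nat_lit 5) (nat_lit 0)) .nil)) .nil)),
 (.br (nat_lit 2) (nat_lit 0) (.cons (.rf (nat_lit 4890) (nat_lit 493858305440582043680)) (.cons (.rf (nat_lit 4891) (nat_lit 493858305440582043680)) (.cons (.br (nat_lit 5) (nat_lit 0) (.cons (.br (nat_lit 4) (nat_lit 1) (.cons (.kr (nat_lit 2417851639229262644379904) (nat_lit 79537647524085965236757069824) (nat_lit 1) (nat_lit 0)) (.cons (.kr (nat_lit 1208925819614633469673728) (nat_lit 309485009821627643213119488) (nat_lit 1) (nat_lit 0)) .nil))) (.cons (.br (nat_lit 4) (nat_lit 1) (.cons (.rf (nat_lit 4892) (nat_lit 493858305440582043680)) (.cons (.br (nat_lit 7) (nat_lit 0) (.cons (.rf (nat_lit 4892) (nat_lit 493858305440582043680)) (.cons (.rf (nat_lit 4680) (nat_lit 457935134042368541760)) .nil))) .nil))) (.cons (.rf (nat_lit 4680) (nat_lit 493745745134571783232)) .nil)))) .nil))))]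

theorem c185 : chkAll C T R L185 (nat_lit 4868) = true := by decide +kernel

theorem l185 : (nat_lit 4868) + L185.length = (nat_lit 4894) := by decide +kernel

/-- part of the certificates -/
def L186 : List Prf := [(.br (nat_lit 6) (nat_lit 1) (.cons (.rf (nat_lit 3419) (nat_lit 493787200025760303136)) (.cons (.rf (nat_lit 4680) (nat_lit 493857210323783845920)) (.cons (.br (nat_lit 13) (nat_lit 0) (.cons (.rf (nat_lit 4797) (nat_lit 458046633314295679008)) (.cons (.rf (nat_lit 4680) (nat_lit 458116643612319221792)) (.cons (.rf (nat_lit 4887) (nat_lit 493858305440582043680)) (.cons (.br (nat_lit 13) (nat_lit 0) (.cons (.rf (nat_lit 4797) (nat_lit 458046633314295679008)) (.cons (.rf (nat_lit 4680) (nat_lit 458116643612319221792)) (.cons (.rf (nat_lit 4887) (nat_lit 493858305440582043680)) .nil)))) .nil))))) (.cons (.br (nat_lit 2) (nat_lit 0) (.cons (.rf (nat_lit 4890) (nat_lit 493858305440582043680)) (.cons (.rf (nat_lit 4891) (nat_lit 493858305440582043680)) (.cons (.rf (nat_lit 4893) (nat_lit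 493858305440582043680)) (.cons (.br (nat_lit 2) (nat_lit 0) (.cons (.rf (nat_lit 4890) (nat_lit 493858305440582043680)) (.cons (.rf (nat_lit 4891) (nat_lit 493858305440582043680)) (.cons (.rf (nat_lit 4893) (nat_lit 493858305440582043680)) .nil)))) .nil))))) .nil))))),
 (.br (nat_lit 4) (nat_lit 1) (.cons (.rf (nat_lit 3419) (nat_lit 493750116798163978272)) (.cons (.ev (nat_lit 310693935641241177171230721) (nat_lit 1)) (.cons (.rf (nat_lit 4680) (nat_lit 458079526298789741632)) (.cons (.ev (nat_lit 20282410812577490320055697735681) (nat_lit 1)) .nil))))),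
 (.br (nat_lit 13) (nat_lit 0) (.cons (.rf (nat_lit 4797) (nat_lit 458046633314295678016)) (.cons (.rf (nat_lit 4680) (nat_lit 458116643612319220800)) (.cons (.br (nat_lit 2) (nat_lit 0) (.cons (.rf (nat_lit 4895) (nat_lit 493858305440582043680)) (.cons (.rf (nat_lit 4894) (nat_lit 458046633314295678016)) (.cons (.br (nat_lit 5) (nat_lit 0) (.cons (.rf (nat_lit 3497) (nat_lit 493676862934408595488)) (.cons (.ev (nat_lit 79538861190718525334326607873) (nat_lit 1)) .nil))) .nil)))) .nil)))),
 (.br (nat_lit 13) (nat_lit 0) (.cons (.rf (nat_lit 4680) (nat_lit 458009550086699353152)) (.cons (.rf (nat_lit 4680) (nat_lit 458079526298789741632)) (.cons (.rf (nat_lit 4797) (nat_lit 458009550086699353152)) .nil)))),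
 (.br (nat_lit 7) (nat_lit 0) (.cons (.br (nat_lit 2) (nat_lit 0) (.cons (.rf (nat_lit 4897) (nat_lit 493858305440582043680)) (.cons (.br (nat_lit 1) (nat_lit 0) (.cons (.ev (nat_lit 4311810049) (nat_lit 1)) (.cons (.rf (nat_lit 3419) (nat_lit 493675700753833166880)) (.cons (.br (nat_lit 9) (nat_lit 1) (.cons (.ev (nat_lit 1213666632842672057876481) (nat_lit 1)) (.cons (.zr (nat_lit 40564820416229304577711753200384) (nat_lit 79847137256274073550608924673) (nat_lit 5) (nat_lit 0)) .nil))) .nil)))) (.cons (.br (nat_lit 1) (nat_lit 0) (.cons (.rf (nat_lit 4897) (nat_lit 493858305440582042688)) (.cons (.br (nat_lit 9) (nat_lit 1) (.cons (.rf (nat_lit 4680) (nat_lit 493745745134571784224)) (.cons (.ev (nat_lit 1213666632841572546248961) (nat_lit 1)) .nil))) .nil))) .nil)))) (.cons (.br (nat_lit 11) (nat_lit 1) (.cons (.br (nat_lit 5) (nat_lit 0) (.cons (.br (nat_lit 9) (nat_lit 1) (.cons (.zr (nat_lit 158456325028528677386111353088) (nat_lit 618974742009735957064974337) (nat_lit 5) (nat_lit 0)) (.cons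 (.ev (nat_lit 79229376162450435096658837761) (nat_lit 1)) .nil))) (.cons (.br (nat_lit 13) (nat_lit 0) (.cons (.br (nat_lit 2) (nat_lit 0) (.cons (.zr (nat_lit 309485046715114699710530304) (nat_lit 3631499825326757186240513) (nat_lit 5) (nat_lit 3)) .nil)) (.cons (.ev (nat_lit 20282409603670189507089992253441) (nat_lit 1)) .nil))) (.cons (.br (nat_lit 13) (nat_lit 0) (.cons (.ev (nat_lit 79229376162450435096658837761) (nat_lit 1)) (.cons (.rf (nat_lit 4187) (nat_lit 15432932374798764064)) .nil))) .nil)))) (.cons (.br (nat_lit 8) (nat_lit 1) (.cons (.br (nat_lit 13) (nat_lit 0) (.cons (.ev (nat_lit 20282720297605830185312898252801) (nat_lit 1)) (.cons (.br (nat_lit 4) (nat_lit 1) (.cons (.zr (nat_lit 36893491454544117760) (nat_lit 310698658007724042588520449) (nat_lit 5) (nat_lit 0)) .nil)) .nil))) (.cons (.ev (nat_lit 79228162532711081667253567489) (nat_lit 1)) (.cons (.br (nat_lit 9) (nat_lit 1) (.cons (.ev (nat_lit 1213666632841572546248961) (nat_lit 1)) (.cons (.ev (nat_lit 20361947255916641673721401114625)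 (nat_lit 1)) .nil))) .nil)))) (.cons (.br (nat_lit 8) (nat_lit 1) (.cons (.br (nat_lit 2) (nat_lit 0) (.cons (.ev (nat_lit 310693935641241177171230721) (nat_lit 1)) (.cons (.kr (nat_lit 79229371440083952222735499264) (nat_lit 4759259972116575944704) (nat_lit 2) (nat_lit 0)) .nil))) (.cons (.br (nat_lit 9) (nat_lit 1) (.cons (.br (nat_lit 4) (nat_lit 1) (.cons (.zr (nat_lit 36893491454544117760) (nat_lit 310698658008568467468320769) (nat_lit 5) (nat_lit 0)) .nil)) (.cons (.ev (nat_lit 20361947255916641673721401114625) (nat_lit 1)) .nil))) (.cons (.ev (nat_lit 20282720297605830466787891740673) (nat_lit 1)) .nil)))) (.cons (.br (nat_lit 9) (nat_lit 1) (.cons (.rf (nat_lit 4680) (nat_lit 458005178423107160096)) (.cons (.rf (nat_lit 4680) (nat_lit 458005178423107159104)) (.cons (.br (nat_lit 4) (nat_lit 1) (.cons (.ev (nat_lit 20361637766166007100614104842241) (nat_lit 1)) (.cons (.rf (nat_lit 4046) (nat_lit 458010569333981447232)) .nil))) .nil)))) .nil))))) (.cons (.br (nat_lit 1) (nat_lit 0) (.cons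 (.br (nat_lit 13) (nat_lit 0) (.cons (.ev (nat_lit 20282719088661564108089285672961) (nat_lit 1)) (.cons (.ev (nat_lit 20361637766166007100614104842241) (nat_lit 1)) .nil))) (.cons (.br (nat_lit 13) (nat_lit 0) (.cons (.br (nat_lit 2) (nat_lit 0) (.cons (.br (nat_lit 5) (nat_lit 0) (.cons (.ev (nat_lit 20837006741251593408762775537412) (nat_lit 3)) .nil)) .nil)) (.cons (.rf (nat_lit 3716) (nat_lit 493678157059595536416)) .nil))) (.cons (.br (nat_lit 9) (nat_lit 1) (.cons (.rf (nat_lit 3419) (nat_lit 493675700753833166880)) (.cons (.rf (nat_lit 4680) (nat_lit 493745745134571784224)) (.cons (.rf (nat_lit 4612) (nat_lit 493823227721125300256)) .nil)))) .nil)))) .nil)))),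
 (.br (nat_lit 7) (nat_lit 0) (.cons (.rf (nat_lit 4898) (nat_lit 493858305440582043680)) (.cons (.br (nat_lit 9) (nat_lit 1) (.cons (.ev (nat_lit 79228167255077564536915493121) (nat_lit 1)) (.cons (.rf (nat_lit 4897) (nat_lit 493565395547242989600)) (.cons (.br (nat_lit 11) (nat_lit 1) (.cons (.rf (nat_lit 3689) (nat_lit 15427477696541722656)) (.cons (.br (nat_lit 4) (nat_lit 1) (.cons (.ev (nat_lit 79538861190718805709774913793) (nat_lit 1)) (.cons (.ev (nat_lit 20282720302328196950757031870465) (nat_lit 1)) .nil))) (.cons (.rf (nat_lit 3691) (nat_lit 15427477696541722656)) .nil)))) (.cons (.br (nat_lit 2) (nat_lit 0) (.cons (.br (nat_lit 1) (nat_lit 0) (.cons (.ev (nat_lit 20361637770888373302008773411073) (nat_lit 1)) (.cons (.ev (nat_lit 20282720302328196949657520242945) (nat_lit 1)) .nil))) (.cons (.br (nat_lit 5) (nat_lit 0) (.cons (.br (nat_lit 4) (nat_lit 1) (.cons (.zr (nat_lit 36893491454544117760) (nat_lit 310698658007724042588520449) (nat_lit 5) (nat_lit 0)) .nil)) .nil)) .nil)))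 .nil))))) (.cons (.br (nat_lit 5) (nat_lit 0) (.cons (.br (nat_lit 4) (nat_lit 1) (.cons (.br (nat_lit 9) (nat_lit 1) (.cons (.rf (nat_lit 3425) (nat_lit 493601603564655970336)) (.cons (.rf (nat_lit 4508) (nat_lit 493851586325028898848)) .nil))) (.cons (.ev (nat_lit 310693935641241177171230721) (nat_lit 1)) (.cons (.rf (nat_lit 4161) (nat_lit 15432862002833360928)) .nil)))) (.cons (.br (nat_lit 9) (nat_lit 1) (.cons (.rf (nat_lit 4680) (nat_lit 493745745134571784224)) (.cons (.ev (nat_lit 1213666632842672057876481) (nat_lit 1)) (.cons (.rf (nat_lit 4161) (nat_lit 15433037924693805088)) .nil)))) .nil))) .nil)))),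
 (.br (nat_lit 7) (nat_lit 0) (.cons (.rf (nat_lit 4898) (nat_lit 493858305440582043680)) (.cons (.rf (nat_lit 4899) (nat_lit 493858305440582043680)) (.cons (.br (nat_lit 5) (nat_lit 0) (.cons (.br (nat_lit 4) (nat_lit 1) (.cons (.br (nat_lit 9) (nat_lit 1) (.cons (.rf (nat_lit 3421) (nat_lit 493604875711260231712)) (.cons (.rf (nat_lit 4006) (nat_lit 493787200023617964064)) .nil))) (.cons (.ev (nat_lit 310693935641241177171230721) (nat_lit 1)) (.cons (.br (nat_lit 9) (nat_lit 1) (.cons (.rf (nat_lit 4680) (nat_lit 457935134042368542752)) (.cons (.rf (nat_lit 4396) (nat_lit 14308048515584263232)) .nil))) .nil)))) (.cons (.br (nat_lit 13) (nat_lit 0) (.cons (.br (nat_lit 4) (nat_lit 1) (.cons (.ev (nat_lit 20282410812577562377649735598081) (nat_lit 1)) (.cons (.rf (nat_lit 3887) (nat_lit 493781814613519730720)) .nil))) (.cons (.rf (nat_lit 4731) (nat_lit 15431877943145629728)) .nil))) (.cons (.br (nat_lit 8) (nat_lit 1) (.cons (.rf (nat_lit 3689) (nat_lit 15427372146646681632)) (.cons (.ev (nat_lit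 1213666632842672057876481) (nat_lit 1)) (.cons (.rf (nat_lit 3691) (nat_lit 15427442515388762144)) .nil)))) .nil)))) .nil)))),
 (.br (nat_lit 9) (nat_lit 1) (.cons (.ev (nat_lit 1213666632842676336066561) (nat_lit 1)) .nil)),
 (.br (nat_lit 4) (nat_lit 1) (.cons (.rf (nat_lit 3419) (nat_lit 493750116798163978272)) (.cons (.br (nat_lit 9) (nat_lit 1) (.cons (.br (nat_lit 13) (nat_lit 0) (.cons (.rf (nat_lit 4689) (nat_lit 493858305440582043680)) (.cons (.rf (nat_lit 4680) (nat_lit 458079526298789742624)) (.cons (.rf (nat_lit 4717) (nat_lit 458009550086699354144)) .nil)))) (.cons (.rf (nat_lit 4680) (nat_lit 458079526298789742624)) .nil))) (.cons (.br (nat_lit 13) (nat_lit 0) (.cons (.br (nat_lit 9) (nat_lit 1) (.cons (.rf (nat_lit 4901) (nat_lit 493858305440582043680)) (.cons (.ev (nat_lit 20282409603670189226718822138113) (nat_lit 1)) .nil))) (.cons (.br (nat_lit 8) (nat_lit 1) (.cons (.br (nat_lit 11) (nat_lit 1) (.cons (.ev (nat_lit 1208944266641277389439233) (nat_lit 1)) (.cons (.br (nat_lit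 9) (nat_lit 1) (.cons (.ev (nat_lit 79538861190718805709774913793) (nat_lit 1)) .nil)) .nil))) (.cons (.ev (nat_lit 20361638975110273178941540794625) (nat_lit 1)) .nil))) (.cons (.rf (nat_lit 4519) (nat_lit 493857210323783845920)) .nil)))) .nil)))),
 (.br (nat_lit 4) (nat_lit 1) (.cons (.rf (nat_lit 3419) (nat_lit 493750116798163978272)) (.cons (.br (nat_lit 1) (nat_lit 0) (.cons (.rf (nat_lit 4046) (nat_lit 493787200023617964064)) (.cons (.br (nat_lit 13) (nat_lit 0) (.cons (.rf (nat_lit 4895) (nat_lit 458079526298789741632)) (.cons (.rf (nat_lit 4680) (nat_lit 458079526298789741632)) (.cons (.rf (nat_lit 4717) (nat_lit 458009550086699353152)) .nil)))) (.cons (.rf (nat_lit 4046) (nat_lit 493786071924691011616)) .nil)))) (.cons (.br (nat_lit 13) (nat_lit 0) (.cons (.br (nat_lit 7) (nat_lit 0) (.cons (.rf (nat_lit 4514) (nat_lit 493857210323783845920)) (.cons (.rf (nat_lit 3691) (nat_lit 15425187417040193568)) .nil))) (.cons (.br (nat_lit 2) (nat_lit 0) (.cons (.br (nat_lit 9) (nat_lit 1) (.cons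 (.rf (nat_lit 3540) (nat_lit 493604875711260231712)) (.cons (.ev (nat_lit 20361638975110273459312710909953) (nat_lit 1)) .nil))) (.cons (.rf (nat_lit 4025) (nat_lit 493679289552274032672)) (.cons (.br (nat_lit 8) (nat_lit 1) (.cons (.br (nat_lit 7) (nat_lit 0) (.cons (.ev (nat_lit 1213666632842676336066561) (nat_lit 1)) .nil)) (.cons (.ev (nat_lit 79538856468352322844424732673) (nat_lit 1)) .nil))) .nil)))) (.cons (.rf (nat_lit 4519) (nat_lit 493857210323783845920)) .nil)))) .nil)))),
 (.br (nat_lit 4) (nat_lit 1) (.cons (.rf (nat_lit 4902) (nat_lit 493858305440582043680)) (.cons (.rf (nat_lit 4903) (nat_lit 493858305440582043680)) (.cons (.br (nat_lit 11) (nat_lit 1) (.cons (.br (nat_lit 2) (nat_lit 0) (.cons (.br (nat_lit 9) (nat_lit 1) (.cons (.ev (nat_lit 79538856468352042464664682753) (nat_lit 1)) (.cons (.ev (nat_lit 20282720297605830185312898252801) (nat_lit 1)) .nil))) (.cons (.br (nat_lit 2) (nat_lit 0) (.cons (.ev (nat_lit 79538856468352042464664682753) (nat_lit 1)) .nil)) .nil)))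 (.cons (.br (nat_lit 13) (nat_lit 0) (.cons (.br (nat_lit 1) (nat_lit 0) (.cons (.rf (nat_lit 4835) (nat_lit 493858305440582043680)) .nil)) (.cons (.rf (nat_lit 4518) (nat_lit 493857210117625415904)) .nil))) (.cons (.rf (nat_lit 4519) (nat_lit 493857210323783845920)) .nil)))) .nil)))),
 (.br (nat_lit 13) (nat_lit 0) (.cons (.rf (nat_lit 4680) (nat_lit 458009550086699354144)) (.cons (.rf (nat_lit 4894) (nat_lit 458079526298789742624)) (.cons (.rf (nat_lit 4680) (nat_lit 458079526298789742624)) (.cons (.rf (nat_lit 4797) (nat_lit 458009550086699354144)) .nil))))),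
 (.br (nat_lit 9) (nat_lit 1) (.cons (.rf (nat_lit 4680) (nat_lit 457935134042368542752)) (.cons (.rf (nat_lit 4680) (nat_lit 457935134042368541760)) .nil))),
 (.br (nat_lit 13) (nat_lit 0) (.cons (.rf (nat_lit 4680) (nat_lit 458009550086699353152)) (.cons (.br (nat_lit 3) (nat_lit 1) (.cons (.rf (nat_lit 3419) (nat_lit 493858305440582043680)) (.cons (.br (nat_lit 12) (nat_lit 0) (.cons (.rf (nat_lit 4680) (nat_lit 493823368456464074784)) (.cons (.rf (nat_lit 4797) (nat_lit 493858305440582043680)) (.cons (.br (nat_lit 12) (nat_lit 0) (.cons (.rf (nat_lit 4680) (nat_lit 493823368456464074784)) (.cons (.rf (nat_lit 4797) (nat_lit 493858305440582043680)) (.cons (.rf (nat_lit 4896) (nat_lit 458079526298789741632)) .nil)))) (.cons (.rf (nat_lit 4896) (nat_lit 458079526298789741632)) .nil))))) (.cons (.rf (nat_lit 4680) (nat_lit 458082801744999450656)) (.cons (.br (nat_lit 5) (nat_lit 0) (.cons (.rf (nat_lit 4899) (nat_lit 458079526298789741632)) (.cons (.rf (nat_lit 4898) (nat_lit 458079526298789741632))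 (.cons (.br (nat_lit 5) (nat_lit 0) (.cons (.rf (nat_lit 4899) (nat_lit 458079526298789741632)) (.cons (.rf (nat_lit 4898) (nat_lit 458079526298789741632)) (.cons (.rf (nat_lit 4900) (nat_lit 458079526298789741632)) .nil)))) (.cons (.rf (nat_lit 4900) (nat_lit 458079526298789741632)) .nil))))) .nil))))) (.cons (.rf (nat_lit 4680) (nat_lit 458079526298789741632)) (.cons (.rf (nat_lit 4797) (nat_lit 458009550086699353152)) .nil))))),
 (.br (nat_lit 9) (nat_lit 1) (.cons (.rf (nat_lit 3419) (nat_lit 493675700753833166880)) (.cons (.rf (nat_lit 4680) (nat_lit 493745745134571784224)) (.cons (.rf (nat_lit 4680) (nat_lit 457935134042368542752)) .nil)))),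
 (.br (nat_lit 9) (nat_lit 1) (.cons (.rf (nat_lit 4908) (nat_lit 493858305440582043680)) (.cons (.rf (nat_lit 4908) (nat_lit 493858305440582042688)) (.cons (.rf (nat_lit 4906) (nat_lit 493858305440582043680)) .nil)))),
 (.br (nat_lit 6) (nat_lit 1) (.cons (.rf (nat_lit 4680) (nat_lit 493857210323783845920)) (.cons (.rf (nat_lit 4680) (nat_lit 493857210323783844928)) (.cons (.br (nat_lit 4) (nat_lit 1) (.cons (.rf (nat_lit 4902) (nat_lit 493858305440582043680)) (.cons (.rf (nat_lit 4903) (nat_lit 493858305440582043680)) (.cons (.rf (nat_lit 4904) (nat_lit 493858305440582043680)) (.cons (.br (nat_lit 4) (nat_lit 1) (.cons (.rf (nat_lit 4902) (nat_lit 493858305440582043680)) (.cons (.rf (nat_lit 4903) (nat_lit 493858305440582043680)) (.cons (.rf (nat_lit 4904) (nat_lit 493858305440582043680)) .nil)))) .nil))))) (.cons (.br (nat_lit 4) (nat_lit 1) (.cons (.br (nat_lit 4) (nat_lit 1) (.cons (.rf (nat_lit 3419) (nat_lit 493750116798163978272)) (.cons (.rf (nat_lit 4905) (nat_lit 493858305440582043680))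 (.cons (.rf (nat_lit 4909) (nat_lit 493858305440582043680)) .nil)))) (.cons (.br (nat_lit 4) (nat_lit 1) (.cons (.rf (nat_lit 3419) (nat_lit 493750116798163978272)) (.cons (.rf (nat_lit 4907) (nat_lit 493858305440582043680)) (.cons (.rf (nat_lit 4909) (nat_lit 493858305440582043680)) .nil)))) (.cons (.br (nat_lit 4) (nat_lit 1) (.cons (.rf (nat_lit 4905) (nat_lit 493858305440582043680)) (.cons (.rf (nat_lit 4907) (nat_lit 493858305440582043680)) (.cons (.rf (nat_lit 4909) (nat_lit 493858305440582043680)) .nil)))) (.cons (.rf (nat_lit 4909) (nat_lit 493858305440582043680)) .nil))))) .nil))))),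
 (.br (nat_lit 9) (nat_lit 1) (.cons (.rf (nat_lit 4907) (nat_lit 457935134042368542752)) (.cons (.rf (nat_lit 4905) (nat_lit 457935134042368541760)) (.cons (.br (nat_lit 1) (nat_lit 0) (.cons (.br (nat_lit 2) (nat_lit 0) (.cons (.ev (nat_lit 79538861190718806809286541313) (nat_lit 1)) .nil)) (.cons (.br (nat_lit 8) (nat_lit 1) (.cons (.ev (nat_lit 79538861190718806809286541313) (nat_lit 1)) .nil)) .nil))) .nil)))),
 (.br (nat_lit 9) (nat_lit 1) (.cons (.rf (nat_lit 4680) (nat_lit 493745745134571784224)) (.cons (.rf (nat_lit 4680) (nat_lit 493745745134571783232)) (.cons (.br (nat_lit 8) (nat_lit 1) (.cons (.ev (nat_lit 20361638975110273459316989100033) (nat_lit 1)) (.cons (.ev (nat_lit 1213666632842672057876481) (nat_lit 1)) .nil))) .nil)))),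
 (.br (nat_lit 4) (nat_lit 1) (.cons (.rf (nat_lit 3419) (nat_lit 493750116798163978272)) (.cons (.br (nat_lit 9) (nat_lit 1) (.cons (.rf (nat_lit 4907) (nat_lit 457935134042368542752)) (.cons (.rf (nat_lit 4905) (nat_lit 457935134042368541760)) (.cons (.rf (nat_lit 4911) (nat_lit 493858305440582043680)) (.cons (.br (nat_lit 9) (nat_lit 1) (.cons (.rf (nat_lit 4907) (nat_lit 457935134042368542752)) (.cons (.rf (nat_lit 4905) (nat_lit 457935134042368541760)) (.cons (.rf (nat_lit 4911) (nat_lit 493858305440582043680)) .nil)))) .nil))))) (.cons (.rf (nat_lit 4907) (nat_lit 493858305440582043680)) (.cons (.br (nat_lit 9) (nat_lit 1) (.cons (.rf (nat_lit 4908) (nat_lit 493858305440582043680)) (.cons (.rf (nat_lit 4908) (nat_lit 493858305440582042688)) (.cons (.rf (nat_lit 4912) (nat_lit 493858305440582043680)) (.cons (.br (nat_lit 9) (nat_lit 1) (.cons (.rf (nat_lit 4680) (nat_lit 457935134042368542752)) (.cons (.rf (nat_lit 4680) (nat_lit 457935134042368541760)) (.cons (.rf (nat_lit 4912) (nat_lit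 493858305440582043680)) .nil)))) .nil))))) .nil)))))]

theorem c186 : chkAll C T R L186 (nat_lit 4894) = true := by decide +kernel

theorem l186 : (nat_lit 4894) + L186.length = (nat_lit 4914) := by decide +kernel

/-- part of the certificates -/
def L187 : List Prf := [(.br (nat_lit 2) (nat_lit 0) (.cons (.rf (nat_lit 4913) (nat_lit 493858305440582043680)) (.cons (.br (nat_lit 5) (nat_lit 0) (.cons (.br (nat_lit 1) (nat_lit 0) (.cons (.rf (nat_lit 4907) (nat_lit 457935134042368541760)) (.cons (.ev (nat_lit 79228167255077564536915493121) (nat_lit 1)) (.cons (.br (nat_lit 9) (nat_lit 1) (.cons (.rf (nat_lit 4907) (nat_lit 493565395547242989600)) (.cons (.br (nat_lit 7) (nat_lit 0) (.cons (.ev (nat_lit 309494509894825607927169282) (nat_lit 2)) .nil)) .nil))) .nil)))) (.cons (.rf (nat_lit 4680) (nat_lit 493745745134571783232)) (.cons (.ev (nat_lit 79537647524085682662268796929) (nat_lit 1)) .nil)))) (.cons (.br (nat_lit 5) (nat_lit 0) (.cons (.br (nat_lit 7) (nat_lit 0) (.cons (.br (nat_lit 1)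 (nat_lit 0) (.cons (.br (nat_lit 13) (nat_lit 0) (.cons (.ev (nat_lit 20837630565900874542174687396100) (nat_lit 3)) .nil)) .nil)) (.cons (.br (nat_lit 1) (nat_lit 0) (.cons (.br (nat_lit 13) (nat_lit 0) (.cons (.ev (nat_lit 20521951010808877569986269611784) (nat_lit 4)) .nil)) (.cons (.rf (nat_lit 4907) (nat_lit 493565395547242988608)) .nil))) .nil))) (.cons (.rf (nat_lit 4716) (nat_lit 458009550086699353152)) .nil))) .nil)))),
 (.br (nat_lit 2) (nat_lit 0) (.cons (.rf (nat_lit 4913) (nat_lit 493858305440582043680)) (.cons (.rf (nat_lit 4914) (nat_lit 493858305440582043680)) (.cons (.br (nat_lit 9) (nat_lit 1) (.cons (.rf (nat_lit 3419) (nat_lit 493675700753833166880)) (.cons (.rf (nat_lit 4680) (nat_lit 493745745134571783232)) (.cons (.rf (nat_lit 4905) (nat_lit 493565395547242988608)) (.cons (.br (nat_lit 7) (nat_lit 0) (.cons (.br (nat_lit 8) (nat_lit 1) (.cons (.ev (nat_lit 79538861190718524234814980353) (nat_lit 1)) (.cons (.ev (nat_lit 20361947255916641673721401114625) (nat_lit 1)) .nil)))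 (.cons (.rf (nat_lit 3886) (nat_lit 15427374343522453536)) .nil))) .nil))))) .nil)))),
 (.br (nat_lit 6) (nat_lit 1) (.cons (.rf (nat_lit 4905) (nat_lit 458046633314295679008)) (.cons (.rf (nat_lit 4907) (nat_lit 458046633314295678016)) (.cons (.rf (nat_lit 4910) (nat_lit 493858305440582043680)) (.cons (.br (nat_lit 2) (nat_lit 0) (.cons (.rf (nat_lit 4913) (nat_lit 493858305440582043680)) (.cons (.rf (nat_lit 4914) (nat_lit 493858305440582043680)) (.cons (.rf (nat_lit 4915) (nat_lit 493858305440582043680)) (.cons (.br (nat_lit 2) (nat_lit 0) (.cons (.rf (nat_lit 4913) (nat_lit 493858305440582043680)) (.cons (.rf (nat_lit 4914) (nat_lit 493858305440582043680)) (.cons (.rf (nat_lit 4915) (nat_lit 493858305440582043680)) .nil)))) .nil))))) .nil))))),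
 (.br (nat_lit 12) (nat_lit 0) (.cons (.rf (nat_lit 4680) (nat_lit 493858305440582043680)) (.cons (.rf (nat_lit 4680) (nat_lit 493823368456464074784)) (.cons (.rf (nat_lit 4797) (nat_lit 493858305440582043680)) (.cons (.br (nat_lit 10) (nat_lit 1) (.cons (.rf (nat_lit 4833) (nat_lit 493858305440582043680)) (.cons (.rf (nat_lit 4867) (nat_lit 493858305440582043680)) (.cons (.br (nat_lit 9) (nat_lit 1) (.cons (.rf (nat_lit 4873) (nat_lit 493858305440582043680)) (.cons (.rf (nat_lit 4881) (nat_lit 493858305440582043680)) (.cons (.rf (nat_lit 4885) (nat_lit 493858305440582043680)) (.cons (.br (nat_lit 9) (nat_lit 1) (.cons (.rf (nat_lit 4873) (nat_lit 493858305440582043680)) (.cons (.rf (nat_lit 4881) (nat_lit 493858305440582043680)) (.cons (.rf (nat_lit 4885) (nat_lit 493858305440582043680)) .nil)))) .nil))))) (.cons (.kr (nat_lit 1208925819614629174706176) (nat_lit 79228162514264337593543950336) (nat_lit 10) (nat_lit 0)) (.cons (.br (nat_lit 6) (nat_lit 1) (.cons (.rf (nat_lit 4905) (nat_lit 458046633314295679008))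 (.cons (.rf (nat_lit 4907) (nat_lit 458046633314295678016)) (.cons (.rf (nat_lit 4910) (nat_lit 493858305440582043680)) (.cons (.rf (nat_lit 4916) (nat_lit 493858305440582043680)) (.cons (.br (nat_lit 6) (nat_lit 1) (.cons (.rf (nat_lit 4905) (nat_lit 458046633314295679008)) (.cons (.rf (nat_lit 4907) (nat_lit 458046633314295678016)) (.cons (.rf (nat_lit 4910) (nat_lit 493858305440582043680)) (.cons (.rf (nat_lit 4916) (nat_lit 493858305440582043680)) .nil))))) .nil)))))) .nil)))))) .nil))))),
 (.br (nat_lit 12) (nat_lit 0) (.cons (.rf (nat_lit 4680) (nat_lit 493858305440582043680)) (.cons (.rf (nat_lit 4680) (nat_lit 493823368456464074784)) (.cons (.rf (nat_lit 4797) (nat_lit 493858305440582043680)) (.cons (.rf (nat_lit 4917) (nat_lit 493858305440582043680)) (.cons (.br (nat_lit 12) (nat_lit 0) (.cons (.rf (nat_lit 4680) (nat_lit 493858305440582043680)) (.cons (.rf (nat_lit 4680) (nat_lit 493823368456464074784)) (.cons (.rf (nat_lit 4797) (nat_lit 493858305440582043680)) (.cons (.rf (nat_lit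 4917) (nat_lit 493858305440582043680)) .nil))))) .nil)))))),
 (.br (nat_lit 12) (nat_lit 0) (.cons (.rf (nat_lit 4680) (nat_lit 493858305440582043680)) (.cons (.rf (nat_lit 4680) (nat_lit 493823368456464074784)) (.cons (.rf (nat_lit 4918) (nat_lit 493858305440582043680)) (.cons (.rf (nat_lit 4918) (nat_lit 493823368456464074784)) (.cons (.br (nat_lit 12) (nat_lit 0) (.cons (.rf (nat_lit 4680) (nat_lit 493858305440582043680)) (.cons (.rf (nat_lit 4680) (nat_lit 493823368456464074784)) (.cons (.rf (nat_lit 4918) (nat_lit 493858305440582043680)) (.cons (.rf (nat_lit 4918) (nat_lit 493823368456464074784)) .nil))))) .nil)))))),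
 (.br (nat_lit 12) (nat_lit 0) (.cons (.rf (nat_lit 4680) (nat_lit 493858305440582043680)) (.cons (.rf (nat_lit 4680) (nat_lit 493823368456464074784)) (.cons (.rf (nat_lit 4918) (nat_lit 493858305440582043680)) (.cons (.rf (nat_lit 4918) (nat_lit 493823368456464074784)) (.cons (.rf (nat_lit 4919) (nat_lit 493858305440582043680)) (.cons (.rf (nat_lit 4919) (nat_lit 493823368456464074784)) .nil))))))),
 (.br (nat_lit 5) (nat_lit 0) (.cons (.kr (nat_lit 36965545741457031424) (nat_lit 20361637766165934762640306929664) (nat_lit 1) (nat_lit 0)) .nil)),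
 (.br (nat_lit 9) (nat_lit 1) (.cons (.rf (nat_lit 4920) (nat_lit 493675700753833165888)) (.cons (.br (nat_lit 4) (nat_lit 1) (.cons (.br (nat_lit 8) (nat_lit 1) (.cons (.ev (nat_lit 79538856468352041369464733953) (nat_lit 1)) (.cons (.ev (nat_lit 20282409603670117168020960903169) (nat_lit 1)) .nil))) (.cons (.br (nat_lit 2) (nat_lit 0) (.cons (.br (nat_lit 8) (nat_lit 1) (.cons (.ev (nat_lit 20678552853075138595710950376708) (nat_lit 3)) .nil)) (.cons (.ev (nat_lit 79538856468352041369464733953) (nat_lit 1)) .nil))) (.cons (.br (nat_lit 2) (nat_lit 0) (.cons (.rf (nat_lit 4921) (nat_lit 493858305440582043680)) (.cons (.br (nat_lit 5) (nat_lit 0) (.cons (.ev (nat_lit 79229371458530977771404984321) (nat_lit 1)) .nil)) .nil))) .nil)))) .nil))),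
 (.br (nat_lit 10) (nat_lit 1) (.cons (.rf (nat_lit 4920) (nat_lit 493563215216757769280)) (.cons (.rf (nat_lit 4920) (nat_lit 457822648505293145152)) (.cons (.br (nat_lit 9) (nat_lit 1) (.cons (.br (nat_lit 9) (nat_lit 1) (.cons (.rf (nat_lit 4920) (nat_lit 493675700753833165888)) (.cons (.rf (nat_lit 4920) (nat_lit 457935134042368541760)) .nil))) (.cons (.rf (nat_lit 4922) (nat_lit 493858305440582043680)) (.cons (.br (nat_lit 9) (nat_lit 1) (.cons (.rf (nat_lit 4920) (nat_lit 457935134042368541760)) (.cons (.rf (nat_lit 4922) (nat_lit 493858305440582043680)) .nil))) .nil)))) .nil)))),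
 (.br (nat_lit 9) (nat_lit 1) (.cons (.rf (nat_lit 4920) (nat_lit 493675700753833165888)) (.cons (.rf (nat_lit 4920) (nat_lit 457935134042368541760)) (.cons (.br (nat_lit 8) (nat_lit 1) (.cons (.br (nat_lit 4) (nat_lit 1) (.cons (.br (nat_lit 7) (nat_lit 0) (.cons (.ev (nat_lit 79538856468352323943936360705) (nat_lit 1)) .nil)) (.cons (.br (nat_lit 5) (nat_lit 0) (.cons (.ev (nat_lit 20838251963180284167348109508868) (nat_lit 3)) .nil)) .nil))) (.cons (.br (nat_lit 6) (nat_lit 1) (.cons (.br (nat_lit 4) (nat_lit 1) (.cons (.ev (nat_lit 20838247127476717478455326082308) (nat_lit 3)) .nil)) (.cons (.br (nat_lit 4) (nat_lit 1) (.cons (.ev (nat_lit 79538856468352323943936360705) (nat_lit 1)) .nil)) .nil))) (.cons (.br (nat_lit 6) (nat_lit 1) (.cons (.br (nat_lit 4) (nat_lit 1) (.cons (.ev (nat_lit 20682885652804803053385618097416) (nat_lit 4)) .nil)) (.cons (.br (nat_lit 2) (nat_lit 0) (.cons (.ev (nat_lit 20837013994880442190228418134788) (nat_lit 3)) .nil)) .nil))) .nil)))) .nil)))),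
 (.br (nat_lit 4) (nat_lit 1) (.cons (.br (nat_lit 6) (nat_lit 1) (.cons (.kr (nat_lit 20282409603651742481541289214208) (nat_lit 79228162514264338693055643648) (nat_lit 1) (nat_lit 0)) .nil)) (.cons (.br (nat_lit 6) (nat_lit 1) (.cons (.kr (nat_lit 20282409603651742481541289214208) (nat_lit 79228162514264338693055643648) (nat_lit 1) (nat_lit 0)) .nil)) .nil))),
 (.br (nat_lit 2) (nat_lit 0) (.cons (.rf (nat_lit 4925) (nat_lit 493858301044685113376)) (.cons (.rf (nat_lit 4925) (nat_lit 493858303243706271776)) (.cons (.rf (nat_lit 4925) (nat_lit 493858305440582043680)) .nil)))),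
 (.br (nat_lit 9) (nat_lit 1) (.cons (.rf (nat_lit 4920) (nat_lit 493675700753833165888)) (.cons (.rf (nat_lit 4926) (nat_lit 493858305440582043680)) (.cons (.br (nat_lit 6) (nat_lit 1) (.cons (.ev (nat_lit 1213648186380073325035521) (nat_lit 1)) (.cons (.kr (nat_lit 4722366764344621924352) (nat_lit 20361637766165934761540795236352) (nat_lit 6) (nat_lit 0)) .nil))) .nil)))),
 (.br (nat_lit 4) (nat_lit 1) (.cons (.br (nat_lit 5) (nat_lit 0) (.cons (.kr (nat_lit 20282409603651742481541289214208) (nat_lit 79228162514264338693055643648) (nat_lit 1) (nat_lit 0)) .nil)) (.cons (.br (nat_lit 8) (nat_lit 1) (.cons (.kr (nat_lit 20282409603651742481541289214208) (nat_lit 79228162514264338693055643648) (nat_lit 1) (nat_lit 0)) .nil)) .nil))),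
 (.br (nat_lit 9) (nat_lit 1) (.cons (.rf (nat_lit 4920) (nat_lit 457935134042368541760)) (.cons (.rf (nat_lit 4926) (nat_lit 493858305440582043680)) (.cons (.br (nat_lit 6) (nat_lit 1) (.cons (.rf (nat_lit 4928) (nat_lit 493858305440582043680)) (.cons (.kr (nat_lit 4722366764344621924352) (nat_lit 20361637766165934761540795236352) (nat_lit 6) (nat_lit 0)) .nil))) .nil)))),
 (.br (nat_lit 9) (nat_lit 1) (.cons (.rf (nat_lit 4920) (nat_lit 493675700753833165888)) (.cons (.rf (nat_lit 4920) (nat_lit 457935134042368541760)) .nil))),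
 (.br (nat_lit 9) (nat_lit 1) (.cons (.rf (nat_lit 4920) (nat_lit 493675700753833165888)) (.cons (.br (nat_lit 6) (nat_lit 1) (.cons (.ev (nat_lit 1213648186380073325035521) (nat_lit 1)) (.cons (.br (nat_lit 8) (nat_lit 1) (.cons (.br (nat_lit 4) (nat_lit 1) (.cons (.ev (nat_lit 79538856468352041369464733953) (nat_lit 1)) .nil)) .nil)) .nil))) .nil))),
 (.br (nat_lit 10) (nat_lit 1) (.cons (.rf (nat_lit 4920) (nat_lit 493563215216757769280)) (.cons (.br (nat_lit 9) (nat_lit 1) (.cons (.rf (nat_lit 4924) (nat_lit 493858305440582043680)) (.cons (.rf (nat_lit 4927) (nat_lit 493858305440582043680)) (.cons (.rf (nat_lit 4929) (nat_lit 493858305440582043680)) (.cons (.br (nat_lit 9) (nat_lit 1) (.cons (.rf (nat_lit 4924) (nat_lit 493858305440582043680)) (.cons (.rf (nat_lit 4927) (nat_lit 493858305440582043680)) (.cons (.rf (nat_lit 4929) (nat_lit 493858305440582043680)) .nil)))) .nil))))) (.cons (.br (nat_lit 9) (nat_lit 1) (.cons (.rf (nat_lit 4930) (nat_lit 493858305440582043680)) (.cons (.rf (nat_lit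 4931) (nat_lit 493858305440582043680)) (.cons (.br (nat_lit 9) (nat_lit 1) (.cons (.rf (nat_lit 4920) (nat_lit 457935134042368541760)) (.cons (.rf (nat_lit 4931) (nat_lit 493858305440582043680)) .nil))) .nil)))) .nil)))),
 (.br (nat_lit 2) (nat_lit 0) (.cons (.rf (nat_lit 4928) (nat_lit 493857214722901903392)) (.cons (.rf (nat_lit 4928) (nat_lit 493857214725047289888)) (.cons (.rf (nat_lit 4928) (nat_lit 493857212528171517984)) .nil)))),
 (.br (nat_lit 10) (nat_lit 1) (.cons (.rf (nat_lit 4920) (nat_lit 457822648505293145152)) (.cons (.rf (nat_lit 4932) (nat_lit 493858305440582043680)) (.cons (.br (nat_lit 9) (nat_lit 1) (.cons (.rf (nat_lit 4930) (nat_lit 493858305440582043680)) (.cons (.br (nat_lit 9) (nat_lit 1) (.cons (.rf (nat_lit 4920) (nat_lit 493675700753833165888)) (.cons (.rf (nat_lit 4933) (nat_lit 493858305440582043680)) .nil))) (.cons (.br (nat_lit 9) (nat_lit 1) (.cons (.rf (nat_lit 4920) (nat_lit 457935134042368541760)) (.cons (.rf (nat_lit 4933) (nat_lit 493858305440582043680))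 .nil))) .nil)))) .nil)))),
 (.br (nat_lit 11) (nat_lit 1) (.cons (.rf (nat_lit 3419) (nat_lit 493565395547242989600)) (.cons (.rf (nat_lit 4920) (nat_lit 493565395547242989600)) (.cons (.rf (nat_lit 4920) (nat_lit 457824828835778365472)) (.cons (.br (nat_lit 10) (nat_lit 1) (.cons (.rf (nat_lit 4923) (nat_lit 493858305440582043680)) (.cons (.rf (nat_lit 4932) (nat_lit 493858305440582043680)) (.cons (.rf (nat_lit 4934) (nat_lit 493858305440582043680)) (.cons (.br (nat_lit 10) (nat_lit 1) (.cons (.rf (nat_lit 4923) (nat_lit 493858305440582043680)) (.cons (.rf (nat_lit 4932) (nat_lit 493858305440582043680)) (.cons (.rf (nat_lit 4934) (nat_lit 493858305440582043680)) .nil)))) .nil))))) .nil))))),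
 (.br (nat_lit 2) (nat_lit 0) (.cons (.rf (nat_lit 3419) (nat_lit 493858305440582043680)) (.cons (.rf (nat_lit 4920) (nat_lit 493750116798163977280)) (.cons (.rf (nat_lit 4920) (nat_lit 458046633314295678016)) (.cons (.rf (nat_lit 4920) (nat_lit 493604770158142030912)) (.cons (.rf (nat_lit 3419) (nat_lit 493675700753833166880)) (.cons (.rf (nat_lit 4920) (nat_lit 457822648505293145152)) .nil))))))),
 (.br (nat_lit 7) (nat_lit 0) (.cons (.rf (nat_lit 4920) (nat_lit 458117738729117419552)) (.cons (.rf (nat_lit 4920) (nat_lit 457935134042368542752)) (.cons (.rf (nat_lit 4936) (nat_lit 493858305440582043680)) (.cons (.rf (nat_lit 4920) (nat_lit 457824828835778364480)) .nil))))),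
 (.br (nat_lit 5) (nat_lit 0) (.cons (.br (nat_lit 1) (nat_lit 0) (.cons (.rf (nat_lit 4937) (nat_lit 493858305440582043680)) (.cons (.ev (nat_lit 18447025548686262529) (nat_lit 1)) .nil))) (.cons (.br (nat_lit 9) (nat_lit 1) (.cons (.rf (nat_lit 4920) (nat_lit 493675700753833166880)) (.cons (.rf (nat_lit 4920) (nat_lit 493675700753833165888)) (.cons (.br (nat_lit 12) (nat_lit 0) (.cons (.ev (nat_lit 79537647542532427835506688001) (nat_lit 1)) (.cons (.br (nat_lit 8) (nat_lit 1) (.cons (.br (nat_lit 10) (nat_lit 1) (.cons (.zr (nat_lit 2417851855402049053327360) (nat_lit 1237944780098888693247377409) (nat_lit 5) (nat_lit 0)) .nil)) (.cons (.br (nat_lit 10) (nat_lit 1) (.cons (.zr (nat_lit 237684487579902673718754869248) (nat_lit 1239153687472603673642663937) (nat_lit 5) (nat_lit 0)) .nil)) .nil))) .nil))) (.cons (.kr (nat_lit 4722366764344621924352) (nat_lit 20361637766165934761540795236352) (nat_lit 6) (nat_lit 0)) .nil))))) (.cons (.br (nat_lit 2) (nat_lit 0) (.cons (.br (nat_lit 12) (nat_lit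 0) (.cons (.kr (nat_lit 309485009821626543701491712) (nat_lit 79228162532711081667253501952) (nat_lit 6) (nat_lit 0)) (.cons (.br (nat_lit 7) (nat_lit 0) (.cons (.br (nat_lit 9) (nat_lit 1) (.cons (.zr (nat_lit 237684487579902673718754869248) (nat_lit 1239153687472603673642663937) (nat_lit 5) (nat_lit 0)) .nil)) .nil)) .nil))) (.cons (.br (nat_lit 9) (nat_lit 1) (.cons (.rf (nat_lit 3419) (nat_lit 493675700753833166880)) (.cons (.rf (nat_lit 4920) (nat_lit 457935134042368541760)) (.cons (.br (nat_lit 1) (nat_lit 0) (.cons (.br (nat_lit 7) (nat_lit 0) (.cons (.ev (nat_lit 79538856468352323943936360705) (nat_lit 1)) .nil)) (.cons (.ev (nat_lit 20282719093383858533360597991681) (nat_lit 1)) .nil))) .nil)))) (.cons (.rf (nat_lit 4920) (nat_lit 493563215216757769280)) .nil)))) .nil)))),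
 (.br (nat_lit 9) (nat_lit 1) (.cons (.kr (nat_lit 20361637766165934762640306864384) (nat_lit 72057602627928064) (nat_lit 1) (nat_lit 0)) .nil))]

theorem c187 : chkAll C T R L187 (nat_lit 4914) = true := by decide +kernel

theorem l187 : (nat_lit 4914) + L187.length = (nat_lit 4940) := by decide +kernel

/-- part of the certificates -/
def L188 : List Prf := [(.br (nat_lit 7) (nat_lit 0) (.cons (.rf (nat_lit 4938) (nat_lit 493858305440582043680)) (.cons (.br (nat_lit 2) (nat_lit 0) (.cons (.br (nat_lit 1) (nat_lit 0) (.cons (.rf (nat_lit 4920) (nat_lit 457935134042368542752)) (.cons (.br (nat_lit 9) (nat_lit 1) (.cons (.br (nat_lit 12) (nat_lit 0) (.cons (.ev (nat_lit 79231794051127552468343521794) (nat_lit 2)) .nil)) (.cons (.ev (nat_lit 20282719093383858533360597991681) (nat_lit 1)) .nil))) .nil))) (.cons (.rf (nat_lit 4920) (nat_lit 457935134042368541760)) (.cons (.br (nat_lit 10) (nat_lit 1) (.cons (.rf (nat_lit 3419) (nat_lit 493563215216757770272)) (.cons (.rf (nat_lit 4920) (nat_lit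 493563215216757769280)) (.cons (.br (nat_lit 1) (nat_lit 0) (.cons (.ev (nat_lit 79538856449905578770731958273) (nat_lit 1)) (.cons (.ev (nat_lit 20282410817318375323113818685441) (nat_lit 1)) .nil))) .nil)))) .nil)))) (.cons (.br (nat_lit 10) (nat_lit 1) (.cons (.rf (nat_lit 4920) (nat_lit 457822648505293146144)) (.cons (.rf (nat_lit 4920) (nat_lit 457822648505293145152)) (.cons (.br (nat_lit 12) (nat_lit 0) (.cons (.ev (nat_lit 20361947251175756389188320100353) (nat_lit 1)) (.cons (.br (nat_lit 6) (nat_lit 1) (.cons (.br (nat_lit 9) (nat_lit 1) (.cons (.ev (nat_lit 20679176658724416320334186612484) (nat_lit 3)) .nil)) (.cons (.rf (nat_lit 4939) (nat_lit 493858305440582043680)) .nil))) .nil))) (.cons (.br (nat_lit 5) (nat_lit 0) (.cons (.br (nat_lit 9) (nat_lit 1) (.cons (.zr (nat_lit 1208925891675521747517952) (nat_lit 20282719088679938513093997363201) (nat_lit 5) (nat_lit 0)) (.cons (.zr (nat_lit 20440868346531838329492200357888) (nat_lit 309485028412204334821933057) (nat_lit 5) (nat_lit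 11)) .nil))) (.cons (.br (nat_lit 6) (nat_lit 1) (.cons (.zr (nat_lit 79228162514336398486116762112) (nat_lit 309485028268089151041044481) (nat_lit 5) (nat_lit 0)) (.cons (.zr (nat_lit 79228162514480511475169492992) (nat_lit 311902879907318400800522241) (nat_lit 5) (nat_lit 0)) .nil))) .nil))) .nil))))) .nil)))),
 (.br (nat_lit 8) (nat_lit 1) (.cons (.kr (nat_lit 2417851639230357861040384) (nat_lit 20361637766166006819134833229824) (nat_lit 1) (nat_lit 0)) .nil)),
 (.br (nat_lit 7) (nat_lit 0) (.cons (.rf (nat_lit 4938) (nat_lit 493858305440582043680)) (.cons (.rf (nat_lit 4940) (nat_lit 493858305440582043680)) (.cons (.br (nat_lit 10) (nat_lit 1) (.cons (.rf (nat_lit 4920) (nat_lit 457822648505293146144)) (.cons (.rf (nat_lit 4920) (nat_lit 457822648505293145152)) (.cons (.br (nat_lit 9) (nat_lit 1) (.cons (.rf (nat_lit 4920) (nat_lit 457935134042368542752)) (.cons (.rf (nat_lit 4920) (nat_lit 457935134042368541760)) (.cons (.br (nat_lit 6) (nat_lit 1) (.cons (.ev (nat_lit 20282409603651742764120089297153)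 (nat_lit 1)) (.cons (.br (nat_lit 1) (nat_lit 0) (.cons (.ev (nat_lit 20520096509120394611713695221508) (nat_lit 3)) .nil)) .nil))) .nil)))) (.cons (.br (nat_lit 9) (nat_lit 1) (.cons (.rf (nat_lit 4920) (nat_lit 457935134042368542752)) (.cons (.rf (nat_lit 4920) (nat_lit 457935134042368541760)) (.cons (.br (nat_lit 1) (nat_lit 0) (.cons (.rf (nat_lit 4941) (nat_lit 493858305440582043680)) (.cons (.ev (nat_lit 18518802767275884801) (nat_lit 1)) .nil))) .nil)))) .nil))))) .nil)))),
 (.br (nat_lit 7) (nat_lit 0) (.cons (.rf (nat_lit 4938) (nat_lit 493858305440582043680)) (.cons (.rf (nat_lit 4940) (nat_lit 493858305440582043680)) (.cons (.rf (nat_lit 4942) (nat_lit 493858305440582043680)) (.cons (.br (nat_lit 7) (nat_lit 0) (.cons (.rf (nat_lit 4938) (nat_lit 493858305440582043680)) (.cons (.rf (nat_lit 4940) (nat_lit 493858305440582043680)) (.cons (.rf (nat_lit 4942) (nat_lit 493858305440582043680)) .nil)))) .nil))))),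
 (.br (nat_lit 1) (nat_lit 0) (.cons (.br (nat_lit 9) (nat_lit 1) (.cons (.kr (nat_lit 20282409603651670423947251351552) (nat_lit 4722366483969156841472) (nat_lit 2) (nat_lit 0)) (.cons (.rf (nat_lit 4920) (nat_lit 457935134042368542752)) (.cons (.br (nat_lit 2) (nat_lit 0) (.cons (.br (nat_lit 7) (nat_lit 0) (.cons (.ev (nat_lit 79229371458530978875228291073) (nat_lit 1)) .nil)) .nil)) .nil)))) (.cons (.br (nat_lit 10) (nat_lit 1) (.cons (.rf (nat_lit 3419) (nat_lit 493563215216757770272)) (.cons (.rf (nat_lit 4920) (nat_lit 457822648505293146144)) (.cons (.br (nat_lit 9) (nat_lit 1) (.cons (.ev (nat_lit 1208944266358707196067841) (nat_lit 1)) (.cons (.ev (nat_lit 20361638975110273178941540794625) (nat_lit 1)) .nil))) .nil)))) .nil))),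
 (.br (nat_lit 9) (nat_lit 1) (.cons (.rf (nat_lit 4920) (nat_lit 457935134042368542752)) (.cons (.rf (nat_lit 4920) (nat_lit 457935134042368541760)) (.cons (.kr (nat_lit 4722366764344621924352) (nat_lit 20361637766165934761540795236352) (nat_lit 6) (nat_lit 0)) .nil)))),
 (.br (nat_lit 7) (nat_lit 0) (.cons (.kr (nat_lit 20361637766165934762640306864384) (nat_lit 72620543991414784) (nat_lit 1) (nat_lit 0)) .nil)),
 (.br (nat_lit 8) (nat_lit 1) (.cons (.rf (nat_lit 4946) (nat_lit 493858305440582043680)) (.cons (.ev (nat_lit 20361637766184453845783031119873) (nat_lit 1)) .nil))),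
 (.br (nat_lit 10) (nat_lit 1) (.cons (.rf (nat_lit 4920) (nat_lit 457822648505293146144)) (.cons (.rf (nat_lit 4920) (nat_lit 457822648505293145152)) .nil))),
 (.br (nat_lit 7) (nat_lit 0) (.cons (.br (nat_lit 13) (nat_lit 1) (.cons (.kr (nat_lit 79537647524085683761780359424) (nat_lit 72620543991414784) (nat_lit 1) (nat_lit 0)) .nil)) .nil)),
 (.br (nat_lit 1) (nat_lit 0) (.cons (.kr (nat_lit 20361637766165934762640306864384) (nat_lit 72620543991414784) (nat_lit 1) (nat_lit 0)) .nil)),
 (.br (nat_lit 9) (nat_lit 1) (.cons (.rf (nat_lit 3419) (nat_lit 493675700753833166880)) (.cons (.rf (nat_lit 4920) (nat_lit 493675700753833165888)) (.cons (.rf (nat_lit 4920) (nat_lit 457935134042368541760)) .nil)))),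
 (.br (nat_lit 5) (nat_lit 0) (.cons (.rf (nat_lit 4943) (nat_lit 493858305440582043680)) (.cons (.br (nat_lit 7) (nat_lit 0) (.cons (.rf (nat_lit 4944) (nat_lit 493858305440582043680)) (.cons (.rf (nat_lit 4945) (nat_lit 493858305440582043680)) (.cons (.br (nat_lit 7) (nat_lit 0) (.cons (.rf (nat_lit 4944) (nat_lit 493858305440582043680)) (.cons (.rf (nat_lit 4945) (nat_lit 493858305440582043680)) .nil))) .nil)))) (.cons (.br (nat_lit 9) (nat_lit 1) (.cons (.rf (nat_lit 4920) (nat_lit 493675700753833166880)) (.cons (.rf (nat_lit 4920) (nat_lit 493675700753833165888)) (.cons (.br (nat_lit 12) (nat_lit 0) (.cons (.br (nat_lit 7) (nat_lit 0) (.cons (.br (nat_lit 10) (nat_lit 1) (.cons (.ev (nat_lit 18447025548686262529) (nat_lit 1)) (.cons (.ev (nat_lit 20361637766184453845783031119873) (nat_lit 1)) .nil))) (.cons (.br (nat_lit 10) (nat_lit 1) (.cons (.rf (nat_lit 4920) (nat_lit 457822648505293146144)) (.cons (.ev (nat_lit 20282720302309749925208345608193) (nat_lit 1)) .nil))) .nil))) (.cons (.br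 (nat_lit 10) (nat_lit 1) (.cons (.rf (nat_lit 4671) (nat_lit 457935134042368541760)) (.cons (.rf (nat_lit 4671) (nat_lit 457935134042368542752)) (.cons (.br (nat_lit 10) (nat_lit 1) (.cons (.rf (nat_lit 4920) (nat_lit 457822648505293146144)) (.cons (.ev (nat_lit 20282720302309749925208345608193) (nat_lit 1)) .nil))) .nil)))) (.cons (.br (nat_lit 4) (nat_lit 1) (.cons (.br (nat_lit 10) (nat_lit 1) (.cons (.ev (nat_lit 79538856449905578770731958273) (nat_lit 1)) (.cons (.rf (nat_lit 4941) (nat_lit 493858305438436657184)) .nil))) (.cons (.rf (nat_lit 4947) (nat_lit 493858305440582043680)) (.cons (.br (nat_lit 8) (nat_lit 1) (.cons (.br (nat_lit 2) (nat_lit 0) (.cons (.zr (nat_lit 216735732067401728) (nat_lit 310698676454186645565997057) (nat_lit 5) (nat_lit 0)) .nil)) (.cons (.br (nat_lit 10) (nat_lit 1) (.cons (.ev (nat_lit 20838866088162739454307996074756) (nat_lit 3)) .nil)) .nil))) .nil)))) .nil)))) (.cons (.br (nat_lit 8) (nat_lit 1) (.cons (.br (nat_lit 7) (nat_lit 0) (.cons (.br (nat_lit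 2) (nat_lit 0) (.cons (.ev (nat_lit 79228172014337535558274842882) (nat_lit 2)) .nil)) (.cons (.rf (nat_lit 4948) (nat_lit 493858305440582043680)) .nil))) (.cons (.kr (nat_lit 4740813226943354765312) (nat_lit 20282719088661491769015976067072) (nat_lit 8) (nat_lit 0)) (.cons (.br (nat_lit 1) (nat_lit 0) (.cons (.ev (nat_lit 79228167236630820463189164289) (nat_lit 1)) (.cons (.ev (nat_lit 18447025548686262529) (nat_lit 1)) .nil))) .nil)))) .nil))))) (.cons (.br (nat_lit 10) (nat_lit 1) (.cons (.rf (nat_lit 4920) (nat_lit 493563215216757770272)) (.cons (.rf (nat_lit 4920) (nat_lit 493563215216757769280)) (.cons (.br (nat_lit 12) (nat_lit 0) (.cons (.ev (nat_lit 20361947251175756389188320100353) (nat_lit 1)) (.cons (.br (nat_lit 2) (nat_lit 0) (.cons (.rf (nat_lit 4949) (nat_lit 15433070910038444064)) (.cons (.br (nat_lit 9) (nat_lit 1) (.cons (.rf (nat_lit 3419) (nat_lit 493675700753833166880)) (.cons (.ev (nat_lit 20361947255916641673721401114625) (nat_lit 1)) .nil))) .nil))) (.cons (.br (nat_lit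 7) (nat_lit 0) (.cons (.br (nat_lit 9) (nat_lit 1) (.cons (.ev (nat_lit 79228167236702879161050464513) (nat_lit 1)) (.cons (.rf (nat_lit 4950) (nat_lit 493858305440582043680)) .nil))) (.cons (.br (nat_lit 2) (nat_lit 0) (.cons (.br (nat_lit 9) (nat_lit 1) (.cons (.ev (nat_lit 20837013994880442190228418134788) (nat_lit 3)) .nil)) (.cons (.ev (nat_lit 20361947255916641673721401114625) (nat_lit 1)) .nil))) (.cons (.kr (nat_lit 4722366764344621924352) (nat_lit 20361637766165934761540795236352) (nat_lit 6) (nat_lit 0)) .nil)))) .nil)))) (.cons (.br (nat_lit 8) (nat_lit 1) (.cons (.ev (nat_lit 79229371440083952222718656769) (nat_lit 1)) (.cons (.br (nat_lit 7) (nat_lit 0) (.cons (.br (nat_lit 1) (nat_lit 0) (.cons (.rf (nat_lit 4951) (nat_lit 493858305440582042688)) .nil)) (.cons (.br (nat_lit 9) (nat_lit 1) (.cons (.ev (nat_lit 20282409608392483933465094455553) (nat_lit 1)) .nil)) .nil))) (.cons (.br (nat_lit 2) (nat_lit 0) (.cons (.br (nat_lit 7) (nat_lit 0) (.cons (.rf (nat_lit 4936) (nat_lit 457824828835778364480))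 .nil)) (.cons (.rf (nat_lit 4951) (nat_lit 493858305440582043680)) .nil))) .nil)))) .nil))))) .nil))))),
 (.br (nat_lit 7) (nat_lit 0) (.cons (.br (nat_lit 10) (nat_lit 1) (.cons (.zr (nat_lit 9444949701471357633280) (nat_lit 310693954087703775971115009) (nat_lit 5) (nat_lit 0)) .nil)) .nil)),
 (.br (nat_lit 12) (nat_lit 0) (.cons (.br (nat_lit 7) (nat_lit 0) (.cons (.kr (nat_lit 9444732966838802055424) (nat_lit 20361637766166006819134833229824) (nat_lit 1) (nat_lit 0)) .nil)) .nil)),
 (.br (nat_lit 9) (nat_lit 1) (.cons (.rf (nat_lit 3419) (nat_lit 493675700753833166880)) (.cons (.rf (nat_lit 4920) (nat_lit 493675700753833165888)) (.cons (.rf (nat_lit 4920) (nat_lit 457935134042368541760)) (.cons (.kr (nat_lit 4740813226943354765312) (nat_lit 20282719088661491769015976067072) (nat_lit 8) (nat_lit 0)) .nil))))),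
 (.br (nat_lit 5) (nat_lit 0) (.cons (.rf (nat_lit 4943) (nat_lit 493858305440582043680)) (.cons (.rf (nat_lit 4952) (nat_lit 493858305440582043680)) (.cons (.br (nat_lit 9) (nat_lit 1) (.cons (.rf (nat_lit 4920) (nat_lit 493675700753833166880)) (.cons (.rf (nat_lit 4920) (nat_lit 493675700753833165888)) (.cons (.br (nat_lit 1) (nat_lit 0) (.cons (.br (nat_lit 7) (nat_lit 0) (.cons (.ev (nat_lit 20282409603651670705422227996929) (nat_lit 1)) (.cons (.br (nat_lit 10) (nat_lit 1) (.cons (.ev (nat_lit 1208925819615732981367041) (nat_lit 1)) (.cons (.br (nat_lit 2) (nat_lit 0) (.cons (.ev (nat_lit 20838880604754633070808763663112) (nat_lit 4)) .nil)) .nil))) .nil))) (.cons (.br (nat_lit 12) (nat_lit 0) (.cons (.br (nat_lit 7) (nat_lit 0) (.cons (.br (nat_lit 10) (nat_lit 1) (.cons (.ev (nat_lit 79538856449977355989288026113) (nat_lit 1)) .nil)) .nil)) (.cons (.br (nat_lit 2) (nat_lit 0) (.cons (.br (nat_lit 7) (nat_lit 0) (.cons (.ev (nat_lit 79538856449977355989288026113) (nat_lit 1)) .nil)) (.cons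 (.br (nat_lit 7) (nat_lit 0) (.cons (.ev (nat_lit 79538856449977355989288026113) (nat_lit 1)) .nil)) .nil))) .nil))) (.cons (.br (nat_lit 6) (nat_lit 1) (.cons (.br (nat_lit 10) (nat_lit 1) (.cons (.rf (nat_lit 4920) (nat_lit 457822648505293146144)) (.cons (.br (nat_lit 7) (nat_lit 0) (.cons (.ev (nat_lit 20998560343933684418045371026696) (nat_lit 4)) .nil)) .nil))) (.cons (.ev (nat_lit 18447025548686262529) (nat_lit 1)) (.cons (.rf (nat_lit 4674) (nat_lit 457935134042368541760)) .nil)))) .nil)))) (.cons (.br (nat_lit 1) (nat_lit 0) (.cons (.ev (nat_lit 79228167236630820463189164289) (nat_lit 1)) (.cons (.br (nat_lit 7) (nat_lit 0) (.cons (.rf (nat_lit 4953) (nat_lit 493858305440582043680)) (.cons (.br (nat_lit 7) (nat_lit 0) (.cons (.rf (nat_lit 4953) (nat_lit 493858305440582043680)) .nil)) .nil))) (.cons (.ev (nat_lit 20361637770906747988484150001921) (nat_lit 1)) .nil)))) .nil))))) (.cons (.br (nat_lit 10) (nat_lit 1) (.cons (.rf (nat_lit 4920) (nat_lit 493563215216757770272)) (.cons (.rf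 (nat_lit 4920) (nat_lit 493563215216757769280)) (.cons (.br (nat_lit 2) (nat_lit 0) (.cons (.br (nat_lit 1) (nat_lit 0) (.cons (.rf (nat_lit 4954) (nat_lit 493858305440582043680)) (.cons (.br (nat_lit 9) (nat_lit 1) (.cons (.rf (nat_lit 4920) (nat_lit 457935134042368542752)) (.cons (.br (nat_lit 6) (nat_lit 1) (.cons (.ev (nat_lit 1213648258436572129525761) (nat_lit 1)) .nil)) .nil))) .nil))) (.cons (.br (nat_lit 12) (nat_lit 0) (.cons (.br (nat_lit 1) (nat_lit 0) (.cons (.br (nat_lit 7) (nat_lit 0) (.cons (.ev (nat_lit 79228167255149903605913354241) (nat_lit 1)) .nil)) .nil)) (.cons (.br (nat_lit 9) (nat_lit 1) (.cons (.br (nat_lit 4) (nat_lit 1) (.cons (.ev (nat_lit 20679176639834663279981314114308) (nat_lit 3)) .nil)) (.cons (.ev (nat_lit 20361947255916641673721401114625) (nat_lit 1)) .nil))) .nil))) (.cons (.rf (nat_lit 4955) (nat_lit 493858305440582043680)) .nil)))) (.cons (.br (nat_lit 9) (nat_lit 1) (.cons (.rf (nat_lit 4951) (nat_lit 493858305440582042688)) (.cons (.rf (nat_lit 4951)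 (nat_lit 493858305440582043680)) (.cons (.br (nat_lit 9) (nat_lit 1) (.cons (.rf (nat_lit 4920) (nat_lit 457935134042368542752)) (.cons (.rf (nat_lit 4920) (nat_lit 457935134042368541760)) .nil))) .nil)))) .nil))))) .nil))))),
 (.br (nat_lit 5) (nat_lit 0) (.cons (.rf (nat_lit 4943) (nat_lit 493858305440582043680)) (.cons (.rf (nat_lit 4952) (nat_lit 493858305440582043680)) (.cons (.rf (nat_lit 4956) (nat_lit 493858305440582043680)) (.cons (.br (nat_lit 9) (nat_lit 1) (.cons (.rf (nat_lit 4920) (nat_lit 493675700753833166880)) (.cons (.rf (nat_lit 4920) (nat_lit 493675700753833165888)) (.cons (.br (nat_lit 10) (nat_lit 1) (.cons (.rf (nat_lit 4920) (nat_lit 493563215216757770272)) (.cons (.rf (nat_lit 4920) (nat_lit 493563215216757769280)) (.cons (.br (nat_lit 4) (nat_lit 1) (.cons (.br (nat_lit 12) (nat_lit 0) (.cons (.br (nat_lit 8) (nat_lit 1) (.cons (.ev (nat_lit 309489750634853487056257281) (nat_lit 1)) .nil)) (.cons (.br (nat_lit 2) (nat_lit 0) (.cons (.ev (nat_lit 309489750634853487056257281)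 (nat_lit 1)) .nil)) .nil))) (.cons (.br (nat_lit 1) (nat_lit 0) (.cons (.br (nat_lit 8) (nat_lit 1) (.cons (.ev (nat_lit 20838247099253342034959257502980) (nat_lit 3)) .nil)) (.cons (.br (nat_lit 6) (nat_lit 1) (.cons (.ev (nat_lit 20682890478916204685147263667976) (nat_lit 4)) .nil)) .nil))) (.cons (.br (nat_lit 8) (nat_lit 1) (.cons (.br (nat_lit 6) (nat_lit 1) (.cons (.ev (nat_lit 79228167255149903605913354241) (nat_lit 1)) .nil)) (.cons (.br (nat_lit 6) (nat_lit 1) (.cons (.ev (nat_lit 79228167255149903605913354241) (nat_lit 1)) .nil)) .nil))) .nil)))) (.cons (.br (nat_lit 1) (nat_lit 0) (.cons (.br (nat_lit 7) (nat_lit 0) (.cons (.ev (nat_lit 20282409603651670705422227996929) (nat_lit 1)) (.cons (.rf (nat_lit 3948) (nat_lit 493745744928413354208)) .nil))) (.cons (.br (nat_lit 2) (nat_lit 0) (.cons (.br (nat_lit 7) (nat_lit 0) (.cons (.ev (nat_lit 20838251934882834647496251606276) (nat_lit 3)) .nil)) (.cons (.ev (nat_lit 20282409608392483933465094455553) (nat_lit 1)) .nil))) (.cons (.ev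 (nat_lit 79229371440083952222718656769) (nat_lit 1)) .nil)))) .nil))))) (.cons (.br (nat_lit 10) (nat_lit 1) (.cons (.rf (nat_lit 4920) (nat_lit 493563215216757770272)) (.cons (.ev (nat_lit 20361638975091754377269498347521) (nat_lit 1)) (.cons (.br (nat_lit 6) (nat_lit 1) (.cons (.br (nat_lit 7) (nat_lit 0) (.cons (.zr (nat_lit 14167316184341002846976) (nat_lit 20283029782597132728718237630465) (nat_lit 5) (nat_lit 0)) (.cons (.ev (nat_lit 79538861190718525334326607873) (nat_lit 1)) .nil))) (.cons (.ev (nat_lit 1213648186380073325035521) (nat_lit 1)) (.cons (.kr (nat_lit 4722366764344621924352) (nat_lit 20361637766165934761540795236352) (nat_lit 6) (nat_lit 0)) .nil)))) .nil)))) .nil))))) .nil))))),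
 (.br (nat_lit 11) (nat_lit 1) (.cons (.rf (nat_lit 3419) (nat_lit 493565395547242989600)) (.cons (.rf (nat_lit 4920) (nat_lit 493565395547242988608)) (.cons (.rf (nat_lit 4920) (nat_lit 457824828835778364480)) (.cons (.br (nat_lit 5) (nat_lit 0) (.cons (.rf (nat_lit 4943) (nat_lit 493858305440582043680)) (.cons (.rf (nat_lit 4952) (nat_lit 493858305440582043680)) (.cons (.rf (nat_lit 4956) (nat_lit 493858305440582043680)) (.cons (.rf (nat_lit 4957) (nat_lit 493858305440582043680)) (.cons (.br (nat_lit 5) (nat_lit 0) (.cons (.rf (nat_lit 4943) (nat_lit 493858305440582043680)) (.cons (.rf (nat_lit 4952) (nat_lit 493858305440582043680)) (.cons (.rf (nat_lit 4956) (nat_lit 493858305440582043680)) (.cons (.rf (nat_lit 4957) (nat_lit 493858305440582043680)) .nil))))) .nil)))))) .nil))))),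
 (.br (nat_lit 9) (nat_lit 1) (.cons (.rf (nat_lit 4920) (nat_lit 457935134042368541760)) (.cons (.rf (nat_lit 4926) (nat_lit 493823402543469922336)) (.cons (.rf (nat_lit 4933) (nat_lit 493821221112400414752)) .nil))))]

theorem c188 : chkAll C T R L188 (nat_lit 4940) = true := by decide +kernel

theorem l188 : (nat_lit 4940) + L188.length = (nat_lit 4960) := by decide +kernel

/-- part of the certificates -/
def L189 : List Prf := [(.br (nat_lit 7) (nat_lit 0) (.cons (.br (nat_lit 5) (nat_lit 0) (.cons (.ev (nat_lit 18447025548686262529) (nat_lit 1)) (.cons (.br (nat_lit 9) (nat_lit 1) (.cons (.rf (nat_lit 4920) (nat_lit 493675700753833165888)) (.cons (.br (nat_lit 2) (nat_lit 0) (.cons (.ev (nat_lit 20838249535994303082732837995268) (nat_lit 3)) .nil)) .nil))) .nil))) (.cons (.ev (nat_lit 309485028340146740784005121) (nat_lit 1)) (.cons (.rf (nat_lit 4959) (nat_lit 493858305440582043680)) .nil)))),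
 (.br (nat_lit 2) (nat_lit 0) (.cons (.rf (nat_lit 4960) (nat_lit 493858305440582043680)) (.cons (.br (nat_lit 7) (nat_lit 0) (.cons (.br (nat_lit 12) (nat_lit 0) (.cons (.br (nat_lit 9) (nat_lit 1) (.cons (.ev (nat_lit 79229376162450435092380712961) (nat_lit 1)) .nil)) .nil)) (.cons (.rf (nat_lit 4959) (nat_lit 493858305440582043680)) .nil))) (.cons (.br (nat_lit 9) (nat_lit 1) (.cons (.ev (nat_lit 20282719093383858533360597991681) (nat_lit 1)) (.cons (.rf (nat_lit 4920) (nat_lit 457935134042368541760)) (.cons (.br (nat_lit 5) (nat_lit 0) (.cons (.br (nat_lit 8) (nat_lit 1) (.cons (.ev (nat_lit 20362268835073766645737641019656) (nat_lit 4)) .nil)) (.cons (.br (nat_lit 7) (nat_lit 0) (.cons (.ev (nat_lit 20362259201371780415158495544584) (nat_lit 4)) .nil)) .nil))) .nil)))) .nil)))),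
 (.br (nat_lit 2) (nat_lit 0) (.cons (.rf (nat_lit 4960) (nat_lit 493858305440582043680)) (.cons (.rf (nat_lit 4961) (nat_lit 493858305440582043680)) (.cons (.br (nat_lit 9) (nat_lit 1) (.cons (.rf (nat_lit 4920) (nat_lit 493675700753833165888)) (.cons (.rf (nat_lit 4920) (nat_lit 457935134042368541760)) (.cons (.br (nat_lit 5) (nat_lit 0) (.cons (.br (nat_lit 6) (nat_lit 1) (.cons (.ev (nat_lit 20678557679333396984029260351236) (nat_lit 3)) .nil)) (.cons (.ev (nat_lit 20282720302309677867614307614721) (nat_lit 1)) .nil))) .nil)))) .nil)))),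
 (.br (nat_lit 10) (nat_lit 1) (.cons (.rf (nat_lit 3419) (nat_lit 493563215216757770272)) (.cons (.rf (nat_lit 4920) (nat_lit 493563215216757770272)) (.cons (.rf (nat_lit 4920) (nat_lit 457822648505293146144)) (.cons (.br (nat_lit 2) (nat_lit 0) (.cons (.rf (nat_lit 4960) (nat_lit 493858305440582043680)) (.cons (.rf (nat_lit 4961) (nat_lit 493858305440582043680)) (.cons (.rf (nat_lit 4962) (nat_lit 493858305440582043680)) (.cons (.br (nat_lit 2) (nat_lit 0) (.cons (.rf (nat_lit 4960) (nat_lit 493858305440582043680)) (.cons (.rf (nat_lit 4961) (nat_lit 493858305440582043680)) (.cons (.rf (nat_lit 4962) (nat_lit 493858305440582043680)) .nil)))) .nil))))) .nil))))),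
 (.br (nat_lit 7) (nat_lit 0) (.cons (.br (nat_lit 5) (nat_lit 0) (.cons (.kr (nat_lit 20283028573671385171678738776320) (nat_lit 79228171958997304432346071040) (nat_lit 1) (nat_lit 0)) .nil)) .nil)),
 (.br (nat_lit 9) (nat_lit 1) (.cons (.rf (nat_lit 3419) (nat_lit 493675700753833166880)) (.cons (.rf (nat_lit 4920) (nat_lit 493675700753833165888)) (.cons (.rf (nat_lit 4920) (nat_lit 457935134042368541760)) .nil)))),
 (.br (nat_lit 9) (nat_lit 1) (.cons (.rf (nat_lit 3419) (nat_lit 493675700753833166880)) (.cons (.rf (nat_lit 4920) (nat_lit 493675700753833166880)) (.cons (.rf (nat_lit 4920) (nat_lit 457935134042368542752)) .nil)))),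
 (.br (nat_lit 2) (nat_lit 0) (.cons (.rf (nat_lit 4946) (nat_lit 493821221112400414752)) (.cons (.br (nat_lit 7) (nat_lit 0) (.cons (.kr (nat_lit 20361637766165934762640306864384) (nat_lit 72620543991414784) (nat_lit 1) (nat_lit 0)) .nil)) .nil))),
 (.br (nat_lit 4) (nat_lit 1) (.cons (.kr (nat_lit 20361637766165934762640306864384) (nat_lit 72057602627928064) (nat_lit 1) (nat_lit 0)) .nil)),
 (.br (nat_lit 10) (nat_lit 1) (.cons (.rf (nat_lit 3419) (nat_lit 493563215216757770272)) (.cons (.rf (nat_lit 4920) (nat_lit 493563215216757769280)) (.cons (.rf (nat_lit 4920) (nat_lit 457822648505293145152)) (.cons (.br (nat_lit 12) (nat_lit 0) (.cons (.br (nat_lit 5) (nat_lit 0) (.cons (.br (nat_lit 2) (nat_lit 0) (.cons (.br (nat_lit 1) (nat_lit 0) (.cons (.br (nat_lit 9) (nat_lit 1) (.cons (.ev (nat_lit 79228167255149903605913354241) (nat_lit 1)) .nil)) .nil)) (.cons (.br (nat_lit 9) (nat_lit 1) (.cons (.rf (nat_lit 3419) (nat_lit 493675700753833166880)) (.cons (.rf (nat_lit 4920) (nat_lit 457935134042368541760))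 .nil))) .nil))) (.cons (.br (nat_lit 6) (nat_lit 1) (.cons (.ev (nat_lit 79228162532711363142246990081) (nat_lit 1)) (.cons (.ev (nat_lit 20282720297605758409198132068353) (nat_lit 1)) (.cons (.br (nat_lit 1) (nat_lit 0) (.cons (.br (nat_lit 2) (nat_lit 0) (.cons (.ev (nat_lit 20838247118105916169347859416836) (nat_lit 3)) .nil)) .nil)) .nil)))) (.cons (.br (nat_lit 9) (nat_lit 1) (.cons (.rf (nat_lit 4920) (nat_lit 493675700753833166880)) (.cons (.rf (nat_lit 4920) (nat_lit 493675700753833165888)) (.cons (.ev (nat_lit 20282720302309749924113145659393) (nat_lit 1)) .nil)))) .nil)))) (.cons (.br (nat_lit 2) (nat_lit 0) (.cons (.br (nat_lit 7) (nat_lit 0) (.cons (.ev (nat_lit 309485028340146740784005121) (nat_lit 1)) (.cons (.br (nat_lit 1) (nat_lit 0) (.cons (.br (nat_lit 5) (nat_lit 0) (.cons (.ev (nat_lit 309489750706630705645879553) (nat_lit 1)) .nil)) (.cons (.rf (nat_lit 4920) (nat_lit 457935134042368542752)) .nil))) .nil))) (.cons (.br (nat_lit 1) (nat_lit 0) (.cons (.rf (nat_lit 4964)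 (nat_lit 493858305440582043680)) (.cons (.rf (nat_lit 4958) (nat_lit 458038990606830928960)) .nil))) (.cons (.rf (nat_lit 4965) (nat_lit 493858305440582043680)) .nil)))) (.cons (.br (nat_lit 1) (nat_lit 0) (.cons (.br (nat_lit 7) (nat_lit 0) (.cons (.ev (nat_lit 20282409603651670705422227996929) (nat_lit 1)) (.cons (.br (nat_lit 2) (nat_lit 0) (.cons (.rf (nat_lit 4964) (nat_lit 493858303243706271776)) (.cons (.rf (nat_lit 4920) (nat_lit 457935134042368541760)) .nil))) .nil))) (.cons (.br (nat_lit 2) (nat_lit 0) (.cons (.br (nat_lit 7) (nat_lit 0) (.cons (.br (nat_lit 9) (nat_lit 1) (.cons (.ev (nat_lit 1213666632841576824439041) (nat_lit 1)) .nil)) .nil)) (.cons (.rf (nat_lit 4958) (nat_lit 458046633314295679008)) .nil))) (.cons (.rf (nat_lit 4966) (nat_lit 493858305440582043680)) .nil)))) (.cons (.br (nat_lit 8) (nat_lit 1) (.cons (.br (nat_lit 5) (nat_lit 0) (.cons (.ev (nat_lit 79228162532711081671565246721) (nat_lit 1)) (.cons (.rf (nat_lit 4967) (nat_lit 493858305440582043680)) (.cons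 (.br (nat_lit 2) (nat_lit 0) (.cons (.br (nat_lit 7) (nat_lit 0) (.cons (.ev (nat_lit 20678550416260246454281168814852) (nat_lit 3)) .nil)) (.cons (.rf (nat_lit 2290) (nat_lit 493604770089489664032)) .nil))) .nil)))) (.cons (.br (nat_lit 1) (nat_lit 0) (.cons (.br (nat_lit 6) (nat_lit 1) (.cons (.ev (nat_lit 79228162514264619072832471041) (nat_lit 1)) (.cons (.ev (nat_lit 20282409603651670705422227996929) (nat_lit 1)) .nil))) (.cons (.br (nat_lit 5) (nat_lit 0) (.cons (.ev (nat_lit 309485028268371721217638401) (nat_lit 1)) (.cons (.rf (nat_lit 4179) (nat_lit 493787199957107935264)) .nil))) (.cons (.br (nat_lit 7) (nat_lit 0) (.cons (.ev (nat_lit 79538861172343837755126644993) (nat_lit 1)) (.cons (.rf (nat_lit 4968) (nat_lit 493858305440582043680)) .nil))) .nil)))) (.cons (.br (nat_lit 6) (nat_lit 1) (.cons (.br (nat_lit 9) (nat_lit 1) (.cons (.br (nat_lit 4) (nat_lit 1) (.cons (.ev (nat_lit 1213666632841576824439041) (nat_lit 1)) .nil)) (.cons (.br (nat_lit 4) (nat_lit 1) (.cons (.ev (nat_lit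 1213666632841576824439041) (nat_lit 1)) .nil)) .nil))) (.cons (.rf (nat_lit 4967) (nat_lit 493850421944358601792)) (.cons (.br (nat_lit 4) (nat_lit 1) (.cons (.ev (nat_lit 20282409603651670705422227996929) (nat_lit 1)) (.cons (.br (nat_lit 9) (nat_lit 1) (.cons (.ev (nat_lit 1213648258156196681285633) (nat_lit 1)) .nil)) .nil))) .nil)))) (.cons (.br (nat_lit 4) (nat_lit 1) (.cons (.br (nat_lit 5) (nat_lit 0) (.cons (.br (nat_lit 9) (nat_lit 1) (.cons (.ev (nat_lit 20837014004325031608101762434308) (nat_lit 3)) .nil)) (.cons (.ev (nat_lit 79538861190718525334326607873) (nat_lit 1)) .nil))) (.cons (.ev (nat_lit 309485028340146740784005121) (nat_lit 1)) (.cons (.br (nat_lit 2) (nat_lit 0) (.cons (.rf (nat_lit 4939) (nat_lit 493823402543469922336)) (.cons (.ev (nat_lit 20361638979832639661811169296385) (nat_lit 1)) .nil))) .nil)))) .nil))))) .nil))))) .nil))))),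
 (.br (nat_lit 12) (nat_lit 0) (.cons (.kr (nat_lit 20283028573671385171678738776320) (nat_lit 79230580365903567951405056000) (nat_lit 1) (nat_lit 0)) .nil)),
 (.br (nat_lit 9) (nat_lit 1) (.cons (.rf (nat_lit 3419) (nat_lit 493675700753833166880)) (.cons (.br (nat_lit 8) (nat_lit 1) (.cons (.br (nat_lit 2) (nat_lit 0) (.cons (.rf (nat_lit 4970) (nat_lit 493858305440582043680)) (.cons (.rf (nat_lit 4970) (nat_lit 493858305438436657184)) .nil))) (.cons (.br (nat_lit 12) (nat_lit 0) (.cons (.ev (nat_lit 20361638979832639661811169296385) (nat_lit 1)) (.cons (.ev (nat_lit 20361947255916641673721401114625) (nat_lit 1)) .nil))) (.cons (.ev (nat_lit 79228167255077565636427120641) (nat_lit 1)) .nil)))) .nil))),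
 (.br (nat_lit 1) (nat_lit 0) (.cons (.ev (nat_lit 20282719088661492051594759372801) (nat_lit 1)) (.cons (.br (nat_lit 2) (nat_lit 0) (.cons (.br (nat_lit 12) (nat_lit 0) (.cons (.br (nat_lit 9) (nat_lit 1) (.cons (.ev (nat_lit 79538861172271781264912089345) (nat_lit 1)) .nil)) .nil)) (.cons (.br (nat_lit 9) (nat_lit 1) (.cons (.rf (nat_lit 4920) (nat_lit 457935134042368541760)) (.cons (.br (nat_lit 6) (nat_lit 1) (.cons (.zr (nat_lit 2417851855402049053327360) (nat_lit 309503917734302096008675329) (nat_lit 5) (nat_lit 0)) .nil)) .nil))) .nil))) (.cons (.br (nat_lit 9) (nat_lit 1) (.cons (.rf (nat_lit 3419) (nat_lit 493675700753833166880)) (.cons (.rf (nat_lit 4920) (nat_lit 457935134042368542752)) (.cons (.br (nat_lit 7) (nat_lit 0) (.cons (.br (nat_lit 8) (nat_lit 1) (.cons (.ev (nat_lit 79537675914058286889758163460) (nat_lit 3)) .nil)) (.cons (.ev (nat_lit 309485028340146740784005121) (nat_lit 1)) .nil))) .nil)))) .nil)))),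
 (.br (nat_lit 9) (nat_lit 1) (.cons (.rf (nat_lit 4920) (nat_lit 493675700753833165888)) (.cons (.rf (nat_lit 4920) (nat_lit 457935134042368541760)) (.cons (.ev (nat_lit 20361637766184381505614521630721) (nat_lit 1)) .nil)))),
 (.br (nat_lit 1) (nat_lit 0) (.cons (.ev (nat_lit 20282719088661492051594759372801) (nat_lit 1)) (.cons (.br (nat_lit 2) (nat_lit 0) (.cons (.rf (nat_lit 4972) (nat_lit 493858305440582043680)) (.cons (.rf (nat_lit 4973) (nat_lit 493858305440582043680)) .nil))) (.cons (.br (nat_lit 9) (nat_lit 1) (.cons (.rf (nat_lit 3419) (nat_lit 493675700753833166880)) (.cons (.rf (nat_lit 4920) (nat_lit 457935134042368542752)) (.cons (.br (nat_lit 2) (nat_lit 0) (.cons (.rf (nat_lit 4972) (nat_lit 493858305440582043680)) (.cons (.ev (nat_lit 79229376162450435092380712961) (nat_lit 1)) .nil))) .nil)))) .nil)))),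
 (.br (nat_lit 2) (nat_lit 0) (.cons (.rf (nat_lit 4972) (nat_lit 493858305440582043680)) (.cons (.rf (nat_lit 4974) (nat_lit 493858305440582043680)) (.cons (.br (nat_lit 9) (nat_lit 1) (.cons (.rf (nat_lit 3419) (nat_lit 493675700753833166880)) (.cons (.rf (nat_lit 4920) (nat_lit 457935134042368541760)) (.cons (.br (nat_lit 7) (nat_lit 0) (.cons (.ev (nat_lit 20361638979832639661811169296385) (nat_lit 1)) (.cons (.ev (nat_lit 79228162514336677762070282241) (nat_lit 1)) .nil))) .nil)))) .nil)))),
 (.br (nat_lit 10) (nat_lit 1) (.cons (.rf (nat_lit 4920) (nat_lit 493563215216757770272)) (.cons (.rf (nat_lit 4920) (nat_lit 493563215216757769280)) (.cons (.br (nat_lit 9) (nat_lit 1) (.cons (.br (nat_lit 9) (nat_lit 1) (.cons (.rf (nat_lit 3419) (nat_lit 493675700753833166880)) (.cons (.rf (nat_lit 4926) (nat_lit 493787408930823047200)) .nil))) (.cons (.rf (nat_lit 4971) (nat_lit 493858305440582043680)) (.cons (.br (nat_lit 9) (nat_lit 1) (.cons (.rf (nat_lit 4926) (nat_lit 493787408930823047200))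 (.cons (.rf (nat_lit 4971) (nat_lit 493858305440582043680)) .nil))) .nil)))) (.cons (.br (nat_lit 2) (nat_lit 0) (.cons (.rf (nat_lit 4972) (nat_lit 493858305440582043680)) (.cons (.rf (nat_lit 4974) (nat_lit 493858305440582043680)) (.cons (.rf (nat_lit 4975) (nat_lit 493858305440582043680)) (.cons (.br (nat_lit 2) (nat_lit 0) (.cons (.rf (nat_lit 4972) (nat_lit 493858305440582043680)) (.cons (.rf (nat_lit 4974) (nat_lit 493858305440582043680)) (.cons (.rf (nat_lit 4975) (nat_lit 493858305440582043680)) .nil)))) .nil))))) .nil))))),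
 (.br (nat_lit 9) (nat_lit 1) (.cons (.rf (nat_lit 4966) (nat_lit 493858305440582043680)) (.cons (.rf (nat_lit 4966) (nat_lit 493858305440582042688)) (.cons (.br (nat_lit 9) (nat_lit 1) (.cons (.rf (nat_lit 4920) (nat_lit 493675700753833166880)) (.cons (.rf (nat_lit 4920) (nat_lit 493675700753833165888)) .nil))) .nil)))),
 (.br (nat_lit 12) (nat_lit 0) (.cons (.br (nat_lit 9) (nat_lit 1) (.cons (.rf (nat_lit 4965) (nat_lit 493858305440582042688)) (.cons (.rf (nat_lit 4965) (nat_lit 493858305440582043680)) (.cons (.kr (nat_lit 79229371440083953322230284288) (nat_lit 309485009893684137739419648) (nat_lit 5) (nat_lit 0)) .nil)))) (.cons (.rf (nat_lit 4977) (nat_lit 493858305440582043680)) (.cons (.br (nat_lit 9) (nat_lit 1) (.cons (.rf (nat_lit 4933) (nat_lit 493786318215288293408)) (.cons (.br (nat_lit 5) (nat_lit 0) (.cons (.rf (nat_lit 4947) (nat_lit 493786318215288293408)) (.cons (.ev (nat_lit 20361638979832639661811169296385) (nat_lit 1)) .nil))) (.cons (.br (nat_lit 8) (nat_lit 1) (.cons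 (.br (nat_lit 6) (nat_lit 1) (.cons (.ev (nat_lit 79537647542604765804992921601) (nat_lit 1)) .nil)) (.cons (.ev (nat_lit 79538861190718525334326607873) (nat_lit 1)) .nil))) .nil)))) .nil)))),
 (.br (nat_lit 9) (nat_lit 1) (.cons (.rf (nat_lit 3419) (nat_lit 493675700753833166880)) (.cons (.rf (nat_lit 4920) (nat_lit 493675700753833166880)) (.cons (.rf (nat_lit 4920) (nat_lit 457935134042368542752)) .nil)))),
 (.br (nat_lit 12) (nat_lit 0) (.cons (.br (nat_lit 1) (nat_lit 0) (.cons (.br (nat_lit 2) (nat_lit 0) (.cons (.rf (nat_lit 4979) (nat_lit 493858305440582042688)) .nil)) (.cons (.rf (nat_lit 4979) (nat_lit 493858305440582043680)) .nil))) (.cons (.rf (nat_lit 4977) (nat_lit 493858305440582043680)) (.cons (.br (nat_lit 1) (nat_lit 0) (.cons (.br (nat_lit 9) (nat_lit 1) (.cons (.br (nat_lit 5) (nat_lit 0) (.cons (.ev (nat_lit 21475181784947320775110499961608) (nat_lit 4)) .nil)) (.cons (.br (nat_lit 2) (nat_lit 0) (.cons (.ev (nat_lit 79538861190718525334326607873) (nat_lit 1)) .nil)) .nil)))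 (.cons (.ev (nat_lit 79537647542604765804992921601) (nat_lit 1)) (.cons (.rf (nat_lit 4933) (nat_lit 493786318215288293408)) .nil)))) .nil)))),
 (.br (nat_lit 2) (nat_lit 0) (.cons (.rf (nat_lit 4978) (nat_lit 493858305440582043680)) (.cons (.rf (nat_lit 4980) (nat_lit 493858305440582043680)) (.cons (.br (nat_lit 12) (nat_lit 0) (.cons (.rf (nat_lit 4979) (nat_lit 493858305440582042688)) (.cons (.rf (nat_lit 4935) (nat_lit 458038990606830928960)) (.cons (.ev (nat_lit 20282410817318303265519780823041) (nat_lit 1)) .nil)))) .nil)))),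
 (.br (nat_lit 10) (nat_lit 1) (.cons (.rf (nat_lit 4920) (nat_lit 457822648505293146144)) (.cons (.rf (nat_lit 4920) (nat_lit 457822648505293145152)) (.cons (.rf (nat_lit 4976) (nat_lit 493858305440582043680)) (.cons (.br (nat_lit 2) (nat_lit 0) (.cons (.rf (nat_lit 4978) (nat_lit 493858305440582043680)) (.cons (.rf (nat_lit 4980) (nat_lit 493858305440582043680)) (.cons (.rf (nat_lit 4981) (nat_lit 493858305440582043680)) (.cons (.br (nat_lit 2) (nat_lit 0) (.cons (.rf (nat_lit 4978) (nat_lit 493858305440582043680)) (.cons (.rf (nat_lit 4980) (nat_lit 493858305440582043680)) (.cons (.rf (nat_lit 4981) (nat_lit 493858305440582043680)) .nil)))) .nil))))) .nil))))),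
 (.br (nat_lit 5) (nat_lit 0) (.cons (.br (nat_lit 12) (nat_lit 0) (.cons (.br (nat_lit 1) (nat_lit 0) (.cons (.br (nat_lit 7) (nat_lit 0) (.cons (.rf (nat_lit 4936) (nat_lit 457935134042368542752)) .nil)) (.cons (.ev (nat_lit 79537647524085682662268731649) (nat_lit 1)) .nil))) (.cons (.br (nat_lit 2) (nat_lit 0) (.cons (.rf (nat_lit 4951) (nat_lit 493858305440582043680)) (.cons (.ev (nat_lit 20282720297605758409198132068353) (nat_lit 1)) .nil))) .nil))) (.cons (.br (nat_lit 1) (nat_lit 0) (.cons (.br (nat_lit 2) (nat_lit 0) (.cons (.rf (nat_lit 4920) (nat_lit 493675700753833165888)) (.cons (.br (nat_lit 7) (nat_lit 0) (.cons (.ev (nat_lit 20282409608392483933465094455553) (nat_lit 1)) (.cons (.rf (nat_lit 4920) (nat_lit 457822648505293145152)) .nil))) .nil))) (.cons (.rf (nat_lit 4920) (nat_lit 493675700753833166880)) (.cons (.br (nat_lit 12) (nat_lit 0) (.cons (.rf (nat_lit 4671) (nat_lit 457935134042368541760)) (.cons (.ev (nat_lit 79537647524085682662268731649) (nat_lit 1)) (.cons (.br (nat_lit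 2) (nat_lit 0) (.cons (.ev (nat_lit 20520403576222732370308132700930) (nat_lit 2)) (.cons (.rf (nat_lit 4920) (nat_lit 493675700753833165888)) .nil))) .nil)))) .nil)))) (.cons (.br (nat_lit 1) (nat_lit 0) (.cons (.br (nat_lit 2) (nat_lit 0) (.cons (.br (nat_lit 7) (nat_lit 0) (.cons (.rf (nat_lit 4920) (nat_lit 457935134042368541760)) (.cons (.br (nat_lit 9) (nat_lit 1) (.cons (.ev (nat_lit 79849555144806511693292176130) (nat_lit 2)) .nil)) .nil))) (.cons (.rf (nat_lit 4920) (nat_lit 493563215216757769280)) .nil))) (.cons (.br (nat_lit 9) (nat_lit 1) (.cons (.rf (nat_lit 3419) (nat_lit 493675700753833166880)) (.cons (.rf (nat_lit 4920) (nat_lit 457935134042368542752)) (.cons (.br (nat_lit 2) (nat_lit 0) (.cons (.kr (nat_lit 20361637766184381505614504788224) (nat_lit 309485009821626547996524544) (nat_lit 1) (nat_lit 0)) (.cons (.rf (nat_lit 4920) (nat_lit 493563215216757769280)) .nil))) .nil)))) (.cons (.rf (nat_lit 4920) (nat_lit 493563215216757770272)) .nil)))) .nil))))]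

theorem c189 : chkAll C T R L189 (nat_lit 4960) = true := by decide +kernel

theorem l189 : (nat_lit 4960) + L189.length = (nat_lit 4984) := by decide +kernel

/-- part of the certificates -/
def L190 : List Prf := [(.br (nat_lit 2) (nat_lit 0) (.cons (.rf (nat_lit 4983) (nat_lit 493858305440582043680)) (.cons (.br (nat_lit 9) (nat_lit 1) (.cons (.rf (nat_lit 3419) (nat_lit 493675700753833166880)) (.cons (.rf (nat_lit 4920) (nat_lit 493675700753833165888)) (.cons (.rf (nat_lit 4920) (nat_lit 457935134042368541760)) (.cons (.br (nat_lit 1) (nat_lit 0) (.cons (.br (nat_lit 5) (nat_lit 0) (.cons (.br (nat_lit 10) (nat_lit 1) (.cons (.ev (nat_lit 20283345335866620100884195311620) (nat_lit 3)) .nil)) .nil)) (.cons (.ev (nat_lit 79537647524085682662268731649) (nat_lit 1)) .nil))) .nil))))) (.cons (.br (nat_lit 10) (nat_lit 1) (.cons (.rf (nat_lit 3419) (nat_lit 493563215216757770272)) (.cons (.rf (nat_lit 4920) (nat_lit 493563215216757769280)) (.cons (.rf (nat_lit 4920) (nat_lit 457822648505293145152))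 (.cons (.br (nat_lit 5) (nat_lit 0) (.cons (.ev (nat_lit 79229371458530977771404984321) (nat_lit 1)) (.cons (.br (nat_lit 7) (nat_lit 0) (.cons (.ev (nat_lit 20282719088661563827709525688321) (nat_lit 1)) (.cons (.br (nat_lit 6) (nat_lit 1) (.cons (.ev (nat_lit 79228167255149903605913354241) (nat_lit 1)) .nil)) .nil))) .nil))) .nil))))) .nil)))),
 (.br (nat_lit 10) (nat_lit 1) (.cons (.ev (nat_lit 79537647524085682662268731649) (nat_lit 1)) (.cons (.rf (nat_lit 4920) (nat_lit 493563215216757769280)) (.cons (.rf (nat_lit 4920) (nat_lit 457822648505293145152)) .nil)))),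
 (.br (nat_lit 9) (nat_lit 1) (.cons (.rf (nat_lit 3419) (nat_lit 493675700753833166880)) (.cons (.rf (nat_lit 4920) (nat_lit 493675700753833165888)) (.cons (.rf (nat_lit 4920) (nat_lit 457935134042368541760)) (.cons (.br (nat_lit 2) (nat_lit 0) (.cons (.rf (nat_lit 4983) (nat_lit 493858305440582043680)) (.cons (.rf (nat_lit 4984) (nat_lit 493858305440582043680)) (.cons (.rf (nat_lit 4985) (nat_lit 493858305440582043680)) .nil)))) .nil))))),
 (.br (nat_lit 2) (nat_lit 0) (.cons (.rf (nat_lit 4983) (nat_lit 493858305440582043680)) (.cons (.rf (nat_lit 4984) (nat_lit 493858305440582043680)) (.cons (.rf (nat_lit 4986) (nat_lit 493858305440582043680)) (.cons (.br (nat_lit 2) (nat_lit 0) (.cons (.rf (nat_lit 4983) (nat_lit 493858305440582043680)) (.cons (.rf (nat_lit 4984) (nat_lit 493858305440582043680)) (.cons (.rf (nat_lit 4986) (nat_lit 493858305440582043680)) .nil)))) .nil))))),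
 (.br (nat_lit 2) (nat_lit 0) (.cons (.br (nat_lit 10) (nat_lit 1) (.cons (.ev (nat_lit 310698658007443671351361793) (nat_lit 1)) .nil)) .nil)),
 (.br (nat_lit 2) (nat_lit 0) (.cons (.ev (nat_lit 20282409603651670705422228062209) (nat_lit 1)) (.cons (.br (nat_lit 5) (nat_lit 0) (.cons (.rf (nat_lit 4920) (nat_lit 493858305440582043680)) (.cons (.rf (nat_lit 4920) (nat_lit 493675700753833165888)) (.cons (.ev (nat_lit 20282720297605830466792169930753) (nat_lit 1)) .nil)))) (.cons (.rf (nat_lit 4920) (nat_lit 457822648505293145152)) .nil)))),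
 (.br (nat_lit 7) (nat_lit 0) (.cons (.rf (nat_lit 4987) (nat_lit 493858305440582043680)) (.cons (.br (nat_lit 1) (nat_lit 0) (.cons (.ev (nat_lit 20282409603651670705422227996929) (nat_lit 1)) (.cons (.br (nat_lit 5) (nat_lit 0) (.cons (.ev (nat_lit 20282719088680010853258211885313) (nat_lit 1)) (.cons (.rf (nat_lit 4920) (nat_lit 493675700753833166880)) (.cons (.br (nat_lit 9) (nat_lit 1) (.cons (.rf (nat_lit 3419) (nat_lit 493675700753833166880)) (.cons (.ev (nat_lit 79228162532783140360803057921) (nat_lit 1)) .nil))) .nil)))) (.cons (.br (nat_lit 10) (nat_lit 1) (.cons (.rf (nat_lit 3419) (nat_lit 493563215216757770272)) (.cons (.rf (nat_lit 4920) (nat_lit 493563215216757770272)) (.cons (.br (nat_lit 9) (nat_lit 1) (.cons (.rf (nat_lit 4951) (nat_lit 493858305440582043680)) (.cons (.ev (nat_lit 40723587435211849465324934005250) (nat_lit 2)) .nil))) .nil)))) .nil)))) (.cons (.br (nat_lit 9) (nat_lit 1) (.cons (.rf (nat_lit 4920) (nat_lit 457935134042368542752)) (.cons (.rf (nat_lit 4920)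 (nat_lit 457935134042368541760)) (.cons (.br (nat_lit 4) (nat_lit 1) (.cons (.ev (nat_lit 20282409603651670705422227996929) (nat_lit 1)) (.cons (.br (nat_lit 12) (nat_lit 0) (.cons (.br (nat_lit 10) (nat_lit 1) (.cons (.ev (nat_lit 20995772565696996638306340962824) (nat_lit 4)) (.cons (.ev (nat_lit 20996391526235013437507034546184) (nat_lit 4)) .nil))) (.cons (.br (nat_lit 1) (nat_lit 0) (.cons (.br (nat_lit 10) (nat_lit 1) (.cons (.ev (nat_lit 20678550416260246454281168814852) (nat_lit 3)) .nil)) (.cons (.br (nat_lit 2) (nat_lit 0) (.cons (.ev (nat_lit 20838251953735261847540440565508) (nat_lit 3)) .nil)) .nil))) .nil))) (.cons (.br (nat_lit 2) (nat_lit 0) (.cons (.rf (nat_lit 4988) (nat_lit 493858305440582043680)) (.cons (.br (nat_lit 2) (nat_lit 0) (.cons (.rf (nat_lit 4988) (nat_lit 493858305440582043680)) .nil)) .nil))) .nil)))) (.cons (.br (nat_lit 10) (nat_lit 1) (.cons (.ev (nat_lit 79537647524085682662268731649) (nat_lit 1)) (.cons (.rf (nat_lit 4985) (nat_lit 493858305440582043680))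 (.cons (.rf (nat_lit 4948) (nat_lit 458009550086699354144)) .nil)))) .nil))))) (.cons (.br (nat_lit 1) (nat_lit 0) (.cons (.ev (nat_lit 20282409603651670705422227996929) (nat_lit 1)) (.cons (.br (nat_lit 2) (nat_lit 0) (.cons (.rf (nat_lit 4989) (nat_lit 493858305440582043680)) (.cons (.br (nat_lit 2) (nat_lit 0) (.cons (.rf (nat_lit 4989) (nat_lit 493858305440582043680)) (.cons (.rf (nat_lit 4920) (nat_lit 457822648505293145152)) .nil))) (.cons (.rf (nat_lit 4920) (nat_lit 457822648505293145152)) .nil)))) (.cons (.br (nat_lit 9) (nat_lit 1) (.cons (.rf (nat_lit 3419) (nat_lit 493675700753833166880)) (.cons (.rf (nat_lit 4920) (nat_lit 493675700753833166880)) (.cons (.br (nat_lit 8) (nat_lit 1) (.cons (.br (nat_lit 2) (nat_lit 0) (.cons (.rf (nat_lit 4935) (nat_lit 458009550086699353152)) (.cons (.rf (nat_lit 4920) (nat_lit 457822648505293145152)) .nil))) (.cons (.kr (nat_lit 309485009821626543701491712) (nat_lit 79228162532711081667253501952) (nat_lit 6) (nat_lit 0)) .nil))) .nil)))) (.cons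 (.rf (nat_lit 4920) (nat_lit 457822648505293146144)) .nil))))) .nil))))),
 (.br (nat_lit 2) (nat_lit 0) (.cons (.br (nat_lit 1) (nat_lit 0) (.cons (.br (nat_lit 12) (nat_lit 0) (.cons (.ev (nat_lit 79231794088309833959114735620) (nat_lit 3)) .nil)) .nil)) (.cons (.ev (nat_lit 20282409603670117168020960903169) (nat_lit 1)) .nil))),
 (.br (nat_lit 2) (nat_lit 0) (.cons (.rf (nat_lit 4991) (nat_lit 493858305440582043680)) (.cons (.br (nat_lit 12) (nat_lit 0) (.cons (.zr (nat_lit 14167171787682262024192) (nat_lit 40802503694846133860675134423041) (nat_lit 5) (nat_lit 9)) (.cons (.zr (nat_lit 61084913298497948400909973389312) (nat_lit 620183723169301332408401921) (nat_lit 5) (nat_lit 0)) .nil))) .nil))),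
 (.br (nat_lit 12) (nat_lit 0) (.cons (.br (nat_lit 9) (nat_lit 1) (.cons (.ev (nat_lit 20361947255916641673721401049345) (nat_lit 1)) (.cons (.ev (nat_lit 40644358077939008794333294952450) (nat_lit 2)) .nil))) .nil)),
 (.br (nat_lit 1) (nat_lit 0) (.cons (.rf (nat_lit 4993) (nat_lit 493858305440582043680)) (.cons (.br (nat_lit 9) (nat_lit 1) (.cons (.rf (nat_lit 3419) (nat_lit 493675700753833166880)) (.cons (.br (nat_lit 2) (nat_lit 0) (.cons (.ev (nat_lit 79231794050984000221631021570) (nat_lit 2)) .nil)) .nil))) .nil))),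
 (.br (nat_lit 9) (nat_lit 1) (.cons (.rf (nat_lit 4951) (nat_lit 493858305440582042688)) (.cons (.rf (nat_lit 4951) (nat_lit 493858305440582043680)) (.cons (.br (nat_lit 9) (nat_lit 1) (.cons (.rf (nat_lit 4920) (nat_lit 493675700753833166880)) (.cons (.rf (nat_lit 4920) (nat_lit 493675700753833165888)) .nil))) .nil)))),
 (.br (nat_lit 7) (nat_lit 0) (.cons (.rf (nat_lit 4987) (nat_lit 493858305440582043680)) (.cons (.rf (nat_lit 4990) (nat_lit 493858305440582043680)) (.cons (.br (nat_lit 9) (nat_lit 1) (.cons (.rf (nat_lit 4920) (nat_lit 457935134042368542752)) (.cons (.rf (nat_lit 4920) (nat_lit 457935134042368541760)) (.cons (.br (nat_lit 2) (nat_lit 0) (.cons (.rf (nat_lit 4991) (nat_lit 493858305440582043680)) (.cons (.rf (nat_lit 4992) (nat_lit 493858305440582043680)) (.cons (.br (nat_lit 2) (nat_lit 0) (.cons (.ev (nat_lit 20282409603670117168020960903169) (nat_lit 1)) (.cons (.rf (nat_lit 4992) (nat_lit 493858305440582043680)) .nil))) .nil)))) (.cons (.br (nat_lit 10) (nat_lit 1) (.cons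 (.ev (nat_lit 79537647524085682662268731649) (nat_lit 1)) (.cons (.rf (nat_lit 4985) (nat_lit 493858305440582043680)) (.cons (.br (nat_lit 1) (nat_lit 0) (.cons (.ev (nat_lit 20441175418467727159293837836802) (nat_lit 2)) (.cons (.ev (nat_lit 79228162532783140360803057921) (nat_lit 1)) (.cons (.ev (nat_lit 79537647524085682662268731649) (nat_lit 1)) .nil)))) .nil)))) .nil))))) (.cons (.br (nat_lit 10) (nat_lit 1) (.cons (.rf (nat_lit 4920) (nat_lit 457822648505293146144)) (.cons (.rf (nat_lit 4920) (nat_lit 457822648505293145152)) (.cons (.br (nat_lit 2) (nat_lit 0) (.cons (.rf (nat_lit 4994) (nat_lit 493858305440582043680)) (.cons (.br (nat_lit 1) (nat_lit 0) (.cons (.rf (nat_lit 4993) (nat_lit 493858305440582042688)) (.cons (.br (nat_lit 4) (nat_lit 1) (.cons (.rf (nat_lit 4994) (nat_lit 493858305440582043680)) (.cons (.ev (nat_lit 20282410812596008841347980067073) (nat_lit 1)) .nil))) .nil))) (.cons (.br (nat_lit 9) (nat_lit 1) (.cons (.rf (nat_lit 3419) (nat_lit 493675700753833166880)) (.cons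 (.rf (nat_lit 4993) (nat_lit 458009550086699353152)) .nil))) .nil)))) (.cons (.rf (nat_lit 4995) (nat_lit 493858305440582043680)) .nil))))) .nil))))),
 (.br (nat_lit 4) (nat_lit 1) (.cons (.rf (nat_lit 4958) (nat_lit 458009550086699354144)) (.cons (.rf (nat_lit 4935) (nat_lit 458009550086699353152)) .nil))),
 (.br (nat_lit 7) (nat_lit 0) (.cons (.rf (nat_lit 4987) (nat_lit 493858305440582043680)) (.cons (.rf (nat_lit 4990) (nat_lit 493858305440582043680)) (.cons (.rf (nat_lit 4996) (nat_lit 493858305440582043680)) (.cons (.br (nat_lit 10) (nat_lit 1) (.cons (.rf (nat_lit 4920) (nat_lit 457822648505293146144)) (.cons (.rf (nat_lit 4920) (nat_lit 457822648505293145152)) (.cons (.br (nat_lit 9) (nat_lit 1) (.cons (.rf (nat_lit 4920) (nat_lit 457935134042368542752)) (.cons (.rf (nat_lit 4920) (nat_lit 457935134042368541760)) (.cons (.br (nat_lit 8) (nat_lit 1) (.cons (.rf (nat_lit 4997) (nat_lit 493858305440582042688)) (.cons (.rf (nat_lit 4997) (nat_lit 493858305440582043680)) .nil))) .nil))))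 (.cons (.br (nat_lit 9) (nat_lit 1) (.cons (.ev (nat_lit 79537647524085682662268731649) (nat_lit 1)) (.cons (.rf (nat_lit 4920) (nat_lit 457935134042368541760)) (.cons (.br (nat_lit 8) (nat_lit 1) (.cons (.br (nat_lit 6) (nat_lit 1) (.cons (.br (nat_lit 2) (nat_lit 0) (.cons (.ev (nat_lit 310693935641241177171230721) (nat_lit 1)) .nil)) .nil)) (.cons (.br (nat_lit 2) (nat_lit 0) (.cons (.br (nat_lit 6) (nat_lit 1) (.cons (.ev (nat_lit 20679169386280034383333280908548) (nat_lit 3)) .nil)) (.cons (.br (nat_lit 4) (nat_lit 1) (.cons (.ev (nat_lit 20520715479103144937404542289668) (nat_lit 3)) .nil)) .nil))) .nil))) .nil)))) .nil))))) .nil))))),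
 (.br (nat_lit 11) (nat_lit 1) (.cons (.rf (nat_lit 4920) (nat_lit 493565395547242989600)) (.cons (.rf (nat_lit 4920) (nat_lit 493565395547242988608)) (.cons (.br (nat_lit 10) (nat_lit 1) (.cons (.rf (nat_lit 4963) (nat_lit 493858305440582043680)) (.cons (.rf (nat_lit 4969) (nat_lit 493858305440582043680)) (.cons (.rf (nat_lit 4976) (nat_lit 493858305440582043680)) (.cons (.rf (nat_lit 4982) (nat_lit 493858305440582043680)) (.cons (.br (nat_lit 10) (nat_lit 1) (.cons (.rf (nat_lit 4963) (nat_lit 493858305440582043680)) (.cons (.rf (nat_lit 4969) (nat_lit 493858305440582043680)) (.cons (.rf (nat_lit 4976) (nat_lit 493858305440582043680)) (.cons (.rf (nat_lit 4982) (nat_lit 493858305440582043680)) .nil))))) .nil)))))) (.cons (.br (nat_lit 7) (nat_lit 0) (.cons (.rf (nat_lit 4987) (nat_lit 493858305440582043680)) (.cons (.rf (nat_lit 4990) (nat_lit 493858305440582043680)) (.cons (.rf (nat_lit 4996) (nat_lit 493858305440582043680)) (.cons (.rf (nat_lit 4998) (nat_lit 493858305440582043680)) (.cons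 (.br (nat_lit 7) (nat_lit 0) (.cons (.rf (nat_lit 4987) (nat_lit 493858305440582043680)) (.cons (.rf (nat_lit 4990) (nat_lit 493858305440582043680)) (.cons (.rf (nat_lit 4996) (nat_lit 493858305440582043680)) (.cons (.rf (nat_lit 4998) (nat_lit 493858305440582043680)) .nil))))) .nil)))))) .nil))))),
 (.br (nat_lit 10) (nat_lit 1) (.cons (.rf (nat_lit 3419) (nat_lit 493563215216757770272)) (.cons (.rf (nat_lit 4920) (nat_lit 493563215216757770272)) (.cons (.rf (nat_lit 4920) (nat_lit 457822648505293146144)) (.cons (.br (nat_lit 9) (nat_lit 1) (.cons (.rf (nat_lit 4951) (nat_lit 493858305440582043680)) (.cons (.br (nat_lit 9) (nat_lit 1) (.cons (.rf (nat_lit 4920) (nat_lit 493675700753833165888)) (.cons (.rf (nat_lit 4933) (nat_lit 493823402543469922336)) .nil))) (.cons (.br (nat_lit 9) (nat_lit 1) (.cons (.rf (nat_lit 4920) (nat_lit 457935134042368541760)) (.cons (.rf (nat_lit 4933) (nat_lit 493823402543469922336)) .nil))) .nil)))) .nil))))),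
 (.br (nat_lit 9) (nat_lit 1) (.cons (.rf (nat_lit 4920) (nat_lit 493675700753833166880)) (.cons (.rf (nat_lit 4920) (nat_lit 493675700753833165888)) (.cons (.br (nat_lit 5) (nat_lit 0) (.cons (.ev (nat_lit 20282720302309749924113145659393) (nat_lit 1)) (.cons (.br (nat_lit 8) (nat_lit 1) (.cons (.rf (nat_lit 4967) (nat_lit 493786318215288293408)) (.cons (.ev (nat_lit 79229371458530977771404984321) (nat_lit 1)) .nil))) (.cons (.br (nat_lit 2) (nat_lit 0) (.cons (.ev (nat_lit 79538856449977355989288026113) (nat_lit 1)) (.cons (.rf (nat_lit 4967) (nat_lit 493778434719064851520)) .nil))) .nil)))) .nil)))),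
 (.br (nat_lit 10) (nat_lit 1) (.cons (.rf (nat_lit 3419) (nat_lit 493563215216757770272)) (.cons (.rf (nat_lit 4920) (nat_lit 493563215216757769280)) (.cons (.rf (nat_lit 4920) (nat_lit 457822648505293145152)) (.cons (.br (nat_lit 9) (nat_lit 1) (.cons (.rf (nat_lit 4951) (nat_lit 493858305440582042688)) (.cons (.rf (nat_lit 4951) (nat_lit 493858305440582043680)) (.cons (.rf (nat_lit 5001) (nat_lit 493858305440582043680)) (.cons (.br (nat_lit 9) (nat_lit 1) (.cons (.rf (nat_lit 4920) (nat_lit 457935134042368542752)) (.cons (.rf (nat_lit 4920) (nat_lit 457935134042368541760)) (.cons (.rf (nat_lit 5001) (nat_lit 493858305440582043680)) .nil)))) .nil))))) .nil))))),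
 (.br (nat_lit 9) (nat_lit 1) (.cons (.rf (nat_lit 3419) (nat_lit 493675700753833166880)) (.cons (.rf (nat_lit 4920) (nat_lit 493675700753833165888)) (.cons (.br (nat_lit 4) (nat_lit 1) (.cons (.br (nat_lit 2) (nat_lit 0) (.cons (.br (nat_lit 5) (nat_lit 0) (.cons (.ev (nat_lit 309489750634853487056257281) (nat_lit 1)) .nil)) (.cons (.rf (nat_lit 4958) (nat_lit 458009550086699354144)) .nil))) (.cons (.br (nat_lit 1) (nat_lit 0) (.cons (.br (nat_lit 5) (nat_lit 0) (.cons (.zr (nat_lit 237993972589507845996775931904) (nat_lit 1213648330494166184230913) (nat_lit 5) (nat_lit 9)) .nil)) (.cons (.rf (nat_lit 4958) (nat_lit 458009550086699353152)) .nil))) (.cons (.kr (nat_lit 72057598332895232) (nat_lit 79228162514264338693055578112) (nat_lit 4) (nat_lit 0)) .nil)))) .nil)))),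
 (.br (nat_lit 9) (nat_lit 1) (.cons (.rf (nat_lit 4920) (nat_lit 493675700753833166880)) (.cons (.rf (nat_lit 4920) (nat_lit 493675700753833165888)) (.cons (.br (nat_lit 2) (nat_lit 0) (.cons (.br (nat_lit 8) (nat_lit 1) (.cons (.rf (nat_lit 4958) (nat_lit 458009550086699353152)) (.cons (.ev (nat_lit 79538861190718525334326607873) (nat_lit 1)) .nil))) (.cons (.ev (nat_lit 1213648186380073325035521) (nat_lit 1)) (.cons (.ev (nat_lit 79538861190718525334326607873) (nat_lit 1)) .nil)))) .nil)))),
 (.br (nat_lit 9) (nat_lit 1) (.cons (.rf (nat_lit 4920) (nat_lit 493675700753833166880)) (.cons (.rf (nat_lit 4920) (nat_lit 493675700753833165888)) (.cons (.br (nat_lit 4) (nat_lit 1) (.cons (.rf (nat_lit 3947) (nat_lit 493745744928413354208)) (.cons (.ev (nat_lit 20282720302309749924113145659393) (nat_lit 1)) .nil))) .nil))))]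

theorem c190 : chkAll C T R L190 (nat_lit 4984) = true := by decide +kernel

theorem l190 : (nat_lit 4984) + L190.length = (nat_lit 5006) := by decide +kernel

/-- part of the certificates -/
def L191 : List Prf := [(.br (nat_lit 10) (nat_lit 1) (.cons (.rf (nat_lit 4920) (nat_lit 493563215216757770272)) (.cons (.rf (nat_lit 4920) (nat_lit 493563215216757769280)) (.cons (.br (nat_lit 9) (nat_lit 1) (.cons (.br (nat_lit 9) (nat_lit 1) (.cons (.rf (nat_lit 3419) (nat_lit 493675700753833166880)) (.cons (.rf (nat_lit 4920) (nat_lit 493675700753833166880)) (.cons (.rf (nat_lit 4933) (nat_lit 493787408930823047200)) .nil)))) (.cons (.rf (nat_lit 5003) (nat_lit 493858305440582043680)) (.cons (.rf (nat_lit 5004) (nat_lit 493858305440582043680)) (.cons (.br (nat_lit 9) (nat_lit 1) (.cons (.rf (nat_lit 4933) (nat_lit 493787408930823047200)) (.cons (.rf (nat_lit 5003) (nat_lit 493858305440582043680)) (.cons (.rf (nat_lit 5004) (nat_lit 493858305440582043680)) .nil)))) .nil))))) (.cons (.br (nat_lit 9)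 (nat_lit 1) (.cons (.rf (nat_lit 4951) (nat_lit 493858305440582042688)) (.cons (.rf (nat_lit 4951) (nat_lit 493858305440582043680)) (.cons (.rf (nat_lit 5005) (nat_lit 493858305440582043680)) (.cons (.br (nat_lit 9) (nat_lit 1) (.cons (.rf (nat_lit 4920) (nat_lit 457935134042368542752)) (.cons (.rf (nat_lit 4920) (nat_lit 457935134042368541760)) (.cons (.rf (nat_lit 5005) (nat_lit 493858305440582043680)) .nil)))) .nil))))) .nil))))),
 (.br (nat_lit 9) (nat_lit 1) (.cons (.rf (nat_lit 4951) (nat_lit 493858305440582042688)) (.cons (.rf (nat_lit 4951) (nat_lit 493858305440582043680)) (.cons (.br (nat_lit 9) (nat_lit 1) (.cons (.rf (nat_lit 4920) (nat_lit 493675700753833166880)) (.cons (.rf (nat_lit 4920) (nat_lit 493675700753833165888)) .nil))) .nil)))),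
 (.br (nat_lit 11) (nat_lit 1) (.cons (.rf (nat_lit 4920) (nat_lit 457824828835778365472)) (.cons (.rf (nat_lit 4920) (nat_lit 457824828835778364480)) (.cons (.rf (nat_lit 4999) (nat_lit 493858305440582043680)) (.cons (.br (nat_lit 10) (nat_lit 1) (.cons (.rf (nat_lit 5000) (nat_lit 493858305440582043680)) (.cons (.rf (nat_lit 5002) (nat_lit 493858305440582043680)) (.cons (.rf (nat_lit 5006) (nat_lit 493858305440582043680)) (.cons (.br (nat_lit 10) (nat_lit 1) (.cons (.rf (nat_lit 4920) (nat_lit 457822648505293146144)) (.cons (.rf (nat_lit 4920) (nat_lit 457822648505293145152)) (.cons (.rf (nat_lit 5006) (nat_lit 493858305440582043680)) (.cons (.rf (nat_lit 5007) (nat_lit 493858305440582043680)) .nil))))) (.cons (.br (nat_lit 10) (nat_lit 1) (.cons (.rf (nat_lit 5000) (nat_lit 493858305440582043680)) (.cons (.rf (nat_lit 5002) (nat_lit 493858305440582043680)) (.cons (.rf (nat_lit 5006) (nat_lit 493858305440582043680)) (.cons (.rf (nat_lit 5007) (nat_lit 493858305440582043680)) .nil))))) .nil))))))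 .nil))))),
 (.br (nat_lit 11) (nat_lit 1) (.cons (.rf (nat_lit 4935) (nat_lit 493858305440582043680)) (.cons (.rf (nat_lit 4958) (nat_lit 493858305440582043680)) (.cons (.rf (nat_lit 4999) (nat_lit 493858305440582043680)) (.cons (.rf (nat_lit 5008) (nat_lit 493858305440582043680)) (.cons (.br (nat_lit 11) (nat_lit 1) (.cons (.rf (nat_lit 4935) (nat_lit 493858305440582043680)) (.cons (.rf (nat_lit 4958) (nat_lit 493858305440582043680)) (.cons (.rf (nat_lit 4999) (nat_lit 493858305440582043680)) (.cons (.rf (nat_lit 5008) (nat_lit 493858305440582043680)) .nil))))) .nil)))))),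
 (.br (nat_lit 8) (nat_lit 1) (.cons (.rf (nat_lit 4920) (nat_lit 493604770158142030912)) (.cons (.rf (nat_lit 4920) (nat_lit 457864203446677406784)) .nil))),
 (.br (nat_lit 8) (nat_lit 1) (.cons (.rf (nat_lit 4920) (nat_lit 493604770158142030912)) (.cons (.br (nat_lit 2) (nat_lit 0) (.cons (.ev (nat_lit 20282409608392483651990134522113) (nat_lit 1)) (.cons (.br (nat_lit 7) (nat_lit 0) (.cons (.ev (nat_lit 79538856468352323943936360705) (nat_lit 1)) .nil)) .nil))) .nil))),
 (.br (nat_lit 8) (nat_lit 1) (.cons (.rf (nat_lit 4920) (nat_lit 493604770158142030912)) (.cons (.br (nat_lit 5) (nat_lit 0) (.cons (.br (nat_lit 2) (nat_lit 0) (.cons (.ev (nat_lit 79229371458530978875228291073) (nat_lit 1)) .nil)) (.cons (.ev (nat_lit 20282719093402304997058842460161) (nat_lit 1)) .nil))) .nil))),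
 (.br (nat_lit 9) (nat_lit 1) (.cons (.rf (nat_lit 4920) (nat_lit 493675700753833165888)) (.cons (.rf (nat_lit 4920) (nat_lit 457935134042368541760)) (.cons (.br (nat_lit 4) (nat_lit 1) (.cons (.ev (nat_lit 20361947255898122589483476975873) (nat_lit 1)) (.cons (.br (nat_lit 8) (nat_lit 1) (.cons (.rf (nat_lit 5010) (nat_lit 493858305440582043680)) (.cons (.rf (nat_lit 5011) (nat_lit 493858305440582043680)) (.cons (.br (nat_lit 8) (nat_lit 1) (.cons (.rf (nat_lit 4920) (nat_lit 457864203446677406784)) (.cons (.rf (nat_lit 5011) (nat_lit 493858305440582043680)) .nil))) .nil)))) (.cons (.br (nat_lit 8) (nat_lit 1) (.cons (.rf (nat_lit 5010) (nat_lit 493858305440582043680)) (.cons (.rf (nat_lit 5012) (nat_lit 493858305440582043680)) (.cons (.br (nat_lit 8) (nat_lit 1) (.cons (.rf (nat_lit 4920) (nat_lit 457864203446677406784)) (.cons (.rf (nat_lit 5012) (nat_lit 493858305440582043680)) .nil))) .nil)))) .nil)))) .nil)))),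
 (.br (nat_lit 8) (nat_lit 1) (.cons (.rf (nat_lit 4920) (nat_lit 457864203446677406784)) (.cons (.rf (nat_lit 4926) (nat_lit 493857146555326367776)) (.cons (.rf (nat_lit 4933) (nat_lit 493856055839791613984)) .nil)))),
 (.br (nat_lit 7) (nat_lit 0) (.cons (.br (nat_lit 12) (nat_lit 0) (.cons (.br (nat_lit 10) (nat_lit 1) (.cons (.br (nat_lit 5) (nat_lit 0) (.cons (.ev (nat_lit 20845055882991683469088310625552) (nat_lit 5)) .nil)) (.cons (.br (nat_lit 8) (nat_lit 1) (.cons (.ev (nat_lit 21155778747701422706665550710536) (nat_lit 4)) .nil)) .nil))) (.cons (.br (nat_lit 2) (nat_lit 0) (.cons (.rf (nat_lit 3940) (nat_lit 493745745134571784224)) .nil)) .nil))) (.cons (.rf (nat_lit 5014) (nat_lit 493858305440582043680)) (.cons (.br (nat_lit 2) (nat_lit 0) (.cons (.ev (nat_lit 1213648258436567851335681) (nat_lit 1)) (.cons (.br (nat_lit 8) (nat_lit 1) (.cons (.rf (nat_lit 4920) (nat_lit 493604770158142030912)) (.cons (.ev (nat_lit 79228167255149622130953420801) (nat_lit 1)) .nil))) .nil))) .nil)))),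
 (.br (nat_lit 7) (nat_lit 0) (.cons (.br (nat_lit 12) (nat_lit 0) (.cons (.br (nat_lit 10) (nat_lit 1) (.cons (.br (nat_lit 8) (nat_lit 1) (.cons (.ev (nat_lit 20680407354653230432648889304836) (nat_lit 3)) .nil)) (.cons (.ev (nat_lit 20361948460101647779936556024065) (nat_lit 1)) .nil))) (.cons (.br (nat_lit 2) (nat_lit 0) (.cons (.rf (nat_lit 3940) (nat_lit 493745745134571784224)) .nil)) .nil))) (.cons (.rf (nat_lit 5014) (nat_lit 493858305440582043680)) (.cons (.ev (nat_lit 1213648258436567851335681) (nat_lit 1)) .nil)))),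
 (.br (nat_lit 8) (nat_lit 1) (.cons (.rf (nat_lit 4920) (nat_lit 493604770158142030912)) (.cons (.rf (nat_lit 4920) (nat_lit 457864203446677406784)) (.cons (.br (nat_lit 2) (nat_lit 0) (.cons (.rf (nat_lit 5015) (nat_lit 493858305440582043680)) (.cons (.rf (nat_lit 5016) (nat_lit 493858305440582043680)) (.cons (.br (nat_lit 5) (nat_lit 0) (.cons (.br (nat_lit 6) (nat_lit 1) (.cons (.ev (nat_lit 20679174250317223510873576244996) (nat_lit 3)) .nil)) (.cons (.br (nat_lit 7) (nat_lit 0) (.cons (.ev (nat_lit 20680412190356507765265681023748) (nat_lit 3)) .nil)) .nil))) .nil)))) .nil)))),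
 (.br (nat_lit 2) (nat_lit 0) (.cons (.rf (nat_lit 5010) (nat_lit 493858305440582043680)) (.cons (.br (nat_lit 5) (nat_lit 0) (.cons (.br (nat_lit 7) (nat_lit 0) (.cons (.zr (nat_lit 237686905394432245337549897728) (nat_lit 1237944780099733122455699457) (nat_lit 5) (nat_lit 0)) .nil)) .nil)) .nil))),
 (.br (nat_lit 9) (nat_lit 1) (.cons (.rf (nat_lit 4920) (nat_lit 493675700753833165888)) (.cons (.br (nat_lit 2) (nat_lit 0) (.cons (.rf (nat_lit 5015) (nat_lit 493858305440582043680)) (.cons (.rf (nat_lit 5016) (nat_lit 493858305440582043680)) (.cons (.rf (nat_lit 5017) (nat_lit 493858305440582043680)) (.cons (.br (nat_lit 2) (nat_lit 0) (.cons (.rf (nat_lit 5015) (nat_lit 493858305440582043680)) (.cons (.rf (nat_lit 5016) (nat_lit 493858305440582043680)) (.cons (.rf (nat_lit 5017) (nat_lit 493858305440582043680)) .nil)))) .nil))))) (.cons (.br (nat_lit 4) (nat_lit 1) (.cons (.rf (nat_lit 5009) (nat_lit 458009550086699353152)) (.cons (.ev (nat_lit 20361947255898122589483476975873) (nat_lit 1))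 (.cons (.br (nat_lit 2) (nat_lit 0) (.cons (.rf (nat_lit 5018) (nat_lit 493858305440582043680)) (.cons (.rf (nat_lit 5010) (nat_lit 493858305440582043680)) (.cons (.br (nat_lit 2) (nat_lit 0) (.cons (.rf (nat_lit 5018) (nat_lit 493858305440582043680)) (.cons (.rf (nat_lit 5010) (nat_lit 493858305440582043680)) .nil))) .nil)))) .nil)))) .nil)))),
 (.br (nat_lit 7) (nat_lit 0) (.cons (.br (nat_lit 5) (nat_lit 0) (.cons (.kr (nat_lit 79228162514336395187581878528) (nat_lit 309485009821346168236474368) (nat_lit 1) (nat_lit 0)) .nil)) .nil)),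
 (.br (nat_lit 9) (nat_lit 1) (.cons (.rf (nat_lit 4920) (nat_lit 457935134042368541760)) (.cons (.rf (nat_lit 5019) (nat_lit 493858305440582043680)) (.cons (.br (nat_lit 4) (nat_lit 1) (.cons (.rf (nat_lit 5009) (nat_lit 458009550086699353152)) (.cons (.br (nat_lit 2) (nat_lit 0) (.cons (.br (nat_lit 2) (nat_lit 0) (.cons (.rf (nat_lit 5010) (nat_lit 493858305440582043680)) (.cons (.rf (nat_lit 5020) (nat_lit 15433072009550071840)) .nil))) (.cons (.rf (nat_lit 5010) (nat_lit 493858305440582043680)) (.cons (.br (nat_lit 2) (nat_lit 0) (.cons (.rf (nat_lit 5020) (nat_lit 15433072009550071840)) (.cons (.rf (nat_lit 5010) (nat_lit 493858305440582043680)) .nil))) .nil)))) (.cons (.ev (nat_lit 20361947255898122589483476975873) (nat_lit 1)) .nil)))) .nil)))),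
 (.br (nat_lit 11) (nat_lit 1) (.cons (.rf (nat_lit 3419) (nat_lit 493565395547242989600)) (.cons (.rf (nat_lit 4920) (nat_lit 493565395547242989600)) (.cons (.rf (nat_lit 4920) (nat_lit 457824828835778365472)) (.cons (.br (nat_lit 9) (nat_lit 1) (.cons (.rf (nat_lit 5013) (nat_lit 493858305440582043680)) (.cons (.rf (nat_lit 5019) (nat_lit 493858305440582043680)) (.cons (.rf (nat_lit 5021) (nat_lit 493858305440582043680)) (.cons (.br (nat_lit 9) (nat_lit 1) (.cons (.rf (nat_lit 5013) (nat_lit 493858305440582043680)) (.cons (.rf (nat_lit 5019) (nat_lit 493858305440582043680)) (.cons (.rf (nat_lit 5021) (nat_lit 493858305440582043680)) .nil)))) .nil))))) .nil))))),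
 (.br (nat_lit 9) (nat_lit 1) (.cons (.rf (nat_lit 3419) (nat_lit 493675700753833166880)) (.cons (.rf (nat_lit 4920) (nat_lit 493675700753833165888)) (.cons (.rf (nat_lit 4920) (nat_lit 457935134042368541760)) .nil)))),
 (.br (nat_lit 8) (nat_lit 1) (.cons (.rf (nat_lit 3419) (nat_lit 493604770158142031904)) (.cons (.rf (nat_lit 4920) (nat_lit 493604770158142031904)) (.cons (.rf (nat_lit 4920) (nat_lit 457864203446677407776)) .nil)))),
 (.br (nat_lit 9) (nat_lit 1) (.cons (.rf (nat_lit 3419) (nat_lit 493675700753833166880)) (.cons (.rf (nat_lit 4920) (nat_lit 493675700753833165888)) (.cons (.rf (nat_lit 4920) (nat_lit 457935134042368541760)) .nil)))),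
 (.br (nat_lit 12) (nat_lit 0) (.cons (.br (nat_lit 2) (nat_lit 0) (.cons (.br (nat_lit 5) (nat_lit 0) (.cons (.br (nat_lit 9) (nat_lit 1) (.cons (.ev (nat_lit 20361947255898122590578676924673) (nat_lit 1)) (.cons (.br (nat_lit 10) (nat_lit 1) (.cons (.ev (nat_lit 21475179348132141542398679646472) (nat_lit 4)) .nil)) .nil))) (.cons (.br (nat_lit 7) (nat_lit 0) (.cons (.br (nat_lit 1) (nat_lit 0) (.cons (.ev (nat_lit 79228167255077565640705310721) (nat_lit 1)) .nil)) .nil)) .nil))) (.cons (.rf (nat_lit 5023) (nat_lit 493858305440582043680)) (.cons (.br (nat_lit 1) (nat_lit 0) (.cons (.br (nat_lit 7) (nat_lit 0) (.cons (.br (nat_lit 9) (nat_lit 1) (.cons (.zr (nat_lit 216735732067401728) (nat_lit 310698676454186645565997057) (nat_lit 5) (nat_lit 0)) .nil)) .nil)) (.cons (.rf (nat_lit 5023) (nat_lit 493858305440582042688)) .nil))) .nil)))) (.cons (.br (nat_lit 1) (nat_lit 0) (.cons (.rf (nat_lit 5024) (nat_lit 493858305440582043680)) (.cons (.br (nat_lit 2) (nat_lit 0) (.cons (.rf (nat_lit 5024)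 (nat_lit 493858305440582042688)) (.cons (.ev (nat_lit 79538861172272061636082139393) (nat_lit 1)) .nil))) (.cons (.br (nat_lit 2) (nat_lit 0) (.cons (.rf (nat_lit 5024) (nat_lit 493858305440582042688)) (.cons (.br (nat_lit 5) (nat_lit 0) (.cons (.br (nat_lit 8) (nat_lit 1) (.cons (.ev (nat_lit 79537647542604484330032988161) (nat_lit 1)) .nil)) .nil)) .nil))) .nil)))) (.cons (.br (nat_lit 7) (nat_lit 0) (.cons (.br (nat_lit 2) (nat_lit 0) (.cons (.rf (nat_lit 4920) (nat_lit 457864203446677406784)) (.cons (.rf (nat_lit 5025) (nat_lit 493858305440582043680)) .nil))) (.cons (.ev (nat_lit 310693935713298766930903041) (nat_lit 1)) .nil))) .nil)))),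
 (.br (nat_lit 5) (nat_lit 0) (.cons (.rf (nat_lit 5026) (nat_lit 493858305440582043680)) (.cons (.br (nat_lit 1) (nat_lit 0) (.cons (.br (nat_lit 2) (nat_lit 0) (.cons (.rf (nat_lit 4920) (nat_lit 493604770158142030912)) (.cons (.rf (nat_lit 4920) (nat_lit 493675700753833165888)) (.cons (.br (nat_lit 7) (nat_lit 0) (.cons (.ev (nat_lit 20282719088679938514189214089473) (nat_lit 1)) (.cons (.br (nat_lit 12) (nat_lit 0) (.cons (.ev (nat_lit 20680407354653230432648889304836) (nat_lit 3)) .nil)) .nil))) .nil)))) (.cons (.rf (nat_lit 4920) (nat_lit 493604770158142031904)) (.cons (.rf (nat_lit 4920) (nat_lit 493675700753833166880)) (.cons (.br (nat_lit 2) (nat_lit 0) (.cons (.br (nat_lit 7) (nat_lit 0) (.cons (.ev (nat_lit 20282719088679938514189214089473) (nat_lit 1)) (.cons (.br (nat_lit 8) (nat_lit 1) (.cons (.ev (nat_lit 79229371495496245336470585346) (nat_lit 2)) .nil)) .nil))) (.cons (.ev (nat_lit 20282410812595936783753942204673) (nat_lit 1)) (.cons (.rf (nat_lit 4920) (nat_lit 493675700753833165888))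 .nil)))) .nil))))) (.cons (.br (nat_lit 1) (nat_lit 0) (.cons (.br (nat_lit 2) (nat_lit 0) (.cons (.rf (nat_lit 4920) (nat_lit 493604770158142030912)) (.cons (.br (nat_lit 7) (nat_lit 0) (.cons (.ev (nat_lit 20282719088679938514189214089473) (nat_lit 1)) (.cons (.rf (nat_lit 4920) (nat_lit 457935134042368541760)) .nil))) .nil))) (.cons (.rf (nat_lit 4920) (nat_lit 493604770158142031904)) (.cons (.br (nat_lit 8) (nat_lit 1) (.cons (.rf (nat_lit 4920) (nat_lit 493604770158142030912)) (.cons (.br (nat_lit 2) (nat_lit 0) (.cons (.ev (nat_lit 20282719088679938514189214089473) (nat_lit 1)) (.cons (.rf (nat_lit 3419) (nat_lit 493675700753833166880)) .nil))) (.cons (.rf (nat_lit 5023) (nat_lit 493858305440582042688)) .nil)))) .nil)))) .nil)))),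
 (.br (nat_lit 5) (nat_lit 0) (.cons (.rf (nat_lit 5026) (nat_lit 493858305440582043680)) (.cons (.rf (nat_lit 5027) (nat_lit 493858305440582043680)) (.cons (.br (nat_lit 1) (nat_lit 0) (.cons (.br (nat_lit 12) (nat_lit 0) (.cons (.br (nat_lit 7) (nat_lit 0) (.cons (.ev (nat_lit 18518802771554074881) (nat_lit 1)) (.cons (.rf (nat_lit 4939) (nat_lit 493568909582111441984)) .nil))) (.cons (.ev (nat_lit 20282410817299856802925359661313) (nat_lit 1)) .nil))) (.cons (.br (nat_lit 8) (nat_lit 1) (.cons (.ev (nat_lit 20282410812595936783753942204673) (nat_lit 1)) (.cons (.rf (nat_lit 4920) (nat_lit 457864203446677407776)) (.cons (.br (nat_lit 2) (nat_lit 0) (.cons (.br (nat_lit 9) (nat_lit 1) (.cons (.ev (nat_lit 20520717944141123733411058221320) (nat_lit 4)) .nil)) (.cons (.ev (nat_lit 1208944266358707196067841) (nat_lit 1)) .nil))) .nil)))) (.cons (.rf (nat_lit 4920) (nat_lit 493675700753833166880)) .nil)))) .nil))))]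

theorem c191 : chkAll C T R L191 (nat_lit 5006) = true := by decide +kernel

theorem l191 : (nat_lit 5006) + L191.length = (nat_lit 5029) := by decide +kernel

/-- part of the certificates -/
def L192 : List Prf := [(.br (nat_lit 5) (nat_lit 0) (.cons (.rf (nat_lit 5026) (nat_lit 493858305440582043680)) (.cons (.rf (nat_lit 5027) (nat_lit 493858305440582043680)) (.cons (.rf (nat_lit 5028) (nat_lit 493858305440582043680)) (.cons (.br (nat_lit 5) (nat_lit 0) (.cons (.rf (nat_lit 5026) (nat_lit 493858305440582043680)) (.cons (.rf (nat_lit 5027) (nat_lit 493858305440582043680)) (.cons (.rf (nat_lit 5028) (nat_lit 493858305440582043680)) .nil)))) .nil))))),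
 (.br (nat_lit 9) (nat_lit 1) (.cons (.rf (nat_lit 5023) (nat_lit 493858305440582042688)) (.cons (.rf (nat_lit 5023) (nat_lit 493858305440582043680)) (.cons (.br (nat_lit 9) (nat_lit 1) (.cons (.rf (nat_lit 4920) (nat_lit 493675700753833166880)) (.cons (.rf (nat_lit 4920) (nat_lit 493675700753833165888)) .nil))) .nil)))),
 (.br (nat_lit 12) (nat_lit 0) (.cons (.rf (nat_lit 4939) (nat_lit 493568911778987213888)) .nil)),
 (.br (nat_lit 8) (nat_lit 1) (.cons (.rf (nat_lit 5024) (nat_lit 493858305440582043680)) (.cons (.rf (nat_lit 5024) (nat_lit 493858305440582042688)) (.cons (.br (nat_lit 8) (nat_lit 1) (.cons (.rf (nat_lit 4920) (nat_lit 493604770158142031904)) (.cons (.rf (nat_lit 4920) (nat_lit 493604770158142030912)) .nil))) .nil)))),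
 (.br (nat_lit 12) (nat_lit 0) (.cons (.br (nat_lit 9) (nat_lit 1) (.cons (.rf (nat_lit 5023) (nat_lit 493858305440582042688)) (.cons (.rf (nat_lit 5023) (nat_lit 493858305440582043680)) (.cons (.br (nat_lit 1) (nat_lit 0) (.cons (.ev (nat_lit 20361638975110273178941540794625) (nat_lit 1)) (.cons (.rf (nat_lit 4920) (nat_lit 493675700753833166880)) .nil))) .nil)))) (.cons (.rf (nat_lit 5032) (nat_lit 493858305440582043680)) .nil))),
 (.br (nat_lit 9) (nat_lit 1) (.cons (.rf (nat_lit 4920) (nat_lit 493675700753833166880)) (.cons (.rf (nat_lit 4920) (nat_lit 493675700753833165888)) (.cons (.rf (nat_lit 5032) (nat_lit 493858305440582043680)) .nil)))),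
 (.br (nat_lit 7) (nat_lit 0) (.cons (.rf (nat_lit 5029) (nat_lit 493858305440582043680)) (.cons (.br (nat_lit 8) (nat_lit 1) (.cons (.rf (nat_lit 4920) (nat_lit 457864203446677407776)) (.cons (.rf (nat_lit 4920) (nat_lit 457864203446677406784)) (.cons (.br (nat_lit 1) (nat_lit 0) (.cons (.br (nat_lit 5) (nat_lit 0) (.cons (.br (nat_lit 9) (nat_lit 1) (.cons (.rf (nat_lit 4920) (nat_lit 493675700753833165888)) (.cons (.ev (nat_lit 79228167236630820463189164289) (nat_lit 1)) .nil))) (.cons (.ev (nat_lit 20282720297605830466792169930753) (nat_lit 1)) .nil))) (.cons (.br (nat_lit 9) (nat_lit 1) (.cons (.rf (nat_lit 3419) (nat_lit 493675700753833166880)) (.cons (.rf (nat_lit 4920) (nat_lit 493675700753833166880)) (.cons (.br (nat_lit 10) (nat_lit 1) (.cons (.zr (nat_lit 40723276741257905310492879028736) (nat_lit 928459770278106574476017665) (nat_lit 5) (nat_lit 0)) (.cons (.ev (nat_lit 20282719093402304997058842460161) (nat_lit 1)) .nil))) .nil)))) (.cons (.br (nat_lit 5) (nat_lit 0) (.cons (.ev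 (nat_lit 20282720297605830466792169930753) (nat_lit 1)) (.cons (.br (nat_lit 4) (nat_lit 1) (.cons (.br (nat_lit 9) (nat_lit 1) (.cons (.ev (nat_lit 20679169395687872172075258414340) (nat_lit 3)) .nil)) (.cons (.ev (nat_lit 20361638975110273178941540794625) (nat_lit 1)) .nil))) .nil))) .nil)))) (.cons (.rf (nat_lit 5030) (nat_lit 493858305440582043680)) .nil))))) (.cons (.br (nat_lit 9) (nat_lit 1) (.cons (.rf (nat_lit 4920) (nat_lit 457935134042368542752)) (.cons (.rf (nat_lit 4920) (nat_lit 457935134042368541760)) (.cons (.br (nat_lit 5) (nat_lit 0) (.cons (.br (nat_lit 2) (nat_lit 0) (.cons (.br (nat_lit 8) (nat_lit 1) (.cons (.ev (nat_lit 309489750634572012096323841) (nat_lit 1)) (.cons (.br (nat_lit 1) (nat_lit 0) (.cons (.ev (nat_lit 20679790802485081169905173595908) (nat_lit 3)) .nil)) .nil))) (.cons (.kr (nat_lit 1208925891672227507601408) (nat_lit 309485009821627643213119488) (nat_lit 4) (nat_lit 0)) .nil))) (.cons (.br (nat_lit 8) (nat_lit 1) (.cons (.rf (nat_lit 4920) (nat_lit 493604770158142031904))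 (.cons (.rf (nat_lit 4920) (nat_lit 493604770158142030912)) (.cons (.br (nat_lit 4) (nat_lit 1) (.cons (.br (nat_lit 10) (nat_lit 1) (.cons (.ev (nat_lit 79540079542824926782370677250) (nat_lit 2)) .nil)) (.cons (.ev (nat_lit 309485028268370621706076161) (nat_lit 1)) .nil))) .nil)))) (.cons (.br (nat_lit 1) (nat_lit 0) (.cons (.rf (nat_lit 5031) (nat_lit 493858305440582043680)) (.cons (.br (nat_lit 2) (nat_lit 0) (.cons (.ev (nat_lit 20282720297587383442342995296513) (nat_lit 1)) (.cons (.ev (nat_lit 309489750634572012096323841) (nat_lit 1)) .nil))) .nil))) .nil)))) (.cons (.br (nat_lit 8) (nat_lit 1) (.cons (.rf (nat_lit 5024) (nat_lit 493858305440582043680)) (.cons (.rf (nat_lit 5024) (nat_lit 493858305440582042688)) (.cons (.br (nat_lit 8) (nat_lit 1) (.cons (.rf (nat_lit 4920) (nat_lit 493604770158142031904)) (.cons (.rf (nat_lit 4920) (nat_lit 493604770158142030912)) .nil))) .nil)))) .nil))))) (.cons (.br (nat_lit 5) (nat_lit 0) (.cons (.rf (nat_lit 5033) (nat_lit 493858305440582043680))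 (.cons (.br (nat_lit 5) (nat_lit 0) (.cons (.rf (nat_lit 5033) (nat_lit 493858305440582043680)) (.cons (.rf (nat_lit 5034) (nat_lit 493858305440582043680)) .nil))) (.cons (.rf (nat_lit 5034) (nat_lit 493858305440582043680)) .nil)))) .nil))))),
 (.br (nat_lit 9) (nat_lit 1) (.cons (.rf (nat_lit 3419) (nat_lit 493675700753833166880)) (.cons (.rf (nat_lit 4920) (nat_lit 493675700753833165888)) (.cons (.ev (nat_lit 79228167255149622130953420801) (nat_lit 1)) .nil)))),
 (.br (nat_lit 9) (nat_lit 1) (.cons (.rf (nat_lit 5023) (nat_lit 493858305440582042688)) (.cons (.rf (nat_lit 5023) (nat_lit 493858305440582043680)) (.cons (.br (nat_lit 9) (nat_lit 1) (.cons (.rf (nat_lit 4920) (nat_lit 493675700753833166880)) (.cons (.rf (nat_lit 4920) (nat_lit 493675700753833165888)) .nil))) .nil)))),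
 (.br (nat_lit 7) (nat_lit 0) (.cons (.rf (nat_lit 5029) (nat_lit 493858305440582043680)) (.cons (.rf (nat_lit 5035) (nat_lit 493858305440582043680)) (.cons (.br (nat_lit 9) (nat_lit 1) (.cons (.rf (nat_lit 4920) (nat_lit 457935134042368542752)) (.cons (.rf (nat_lit 4920) (nat_lit 457935134042368541760)) (.cons (.br (nat_lit 8) (nat_lit 1) (.cons (.rf (nat_lit 4920) (nat_lit 457864203446677407776)) (.cons (.rf (nat_lit 4920) (nat_lit 457864203446677406784)) (.cons (.br (nat_lit 12) (nat_lit 0) (.cons (.ev (nat_lit 79537647542604484330032988161) (nat_lit 1)) (.cons (.br (nat_lit 2) (nat_lit 0) (.cons (.ev (nat_lit 309485028268370621706076161) (nat_lit 1)) (.cons (.kr (nat_lit 4722367045819598700544) (nat_lit 79229371440083953322247061504) (nat_lit 2) (nat_lit 0)) .nil))) (.cons (.br (nat_lit 6) (nat_lit 1) (.cons (.br (nat_lit 4) (nat_lit 1) (.cons (.ev (nat_lit 79231798736672882965327511810) (nat_lit 2)) .nil)) (.cons (.ev (nat_lit 20361947255916569615027851558913) (nat_lit 1)) .nil))) .nil))))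 (.cons (.br (nat_lit 4) (nat_lit 1) (.cons (.br (nat_lit 10) (nat_lit 1) (.cons (.ev (nat_lit 20441488530236632661770431889666) (nat_lit 2)) (.cons (.br (nat_lit 2) (nat_lit 0) (.cons (.ev (nat_lit 20838880604753912488271314617096) (nat_lit 4)) .nil)) .nil))) (.cons (.br (nat_lit 5) (nat_lit 0) (.cons (.ev (nat_lit 309485028268370621706076161) (nat_lit 1)) (.cons (.ev (nat_lit 79538856449905297295738470401) (nat_lit 1)) .nil))) (.cons (.kr (nat_lit 18446745173221179392) (nat_lit 20282409603651742481541289213952) (nat_lit 5) (nat_lit 0)) .nil)))) .nil))))) (.cons (.br (nat_lit 4) (nat_lit 1) (.cons (.rf (nat_lit 5009) (nat_lit 458009550086699354144)) (.cons (.rf (nat_lit 5009) (nat_lit 458009550086699353152)) (.cons (.br (nat_lit 8) (nat_lit 1) (.cons (.rf (nat_lit 4920) (nat_lit 457864203446677407776)) (.cons (.rf (nat_lit 4920) (nat_lit 457864203446677406784)) (.cons (.br (nat_lit 6) (nat_lit 1) (.cons (.br (nat_lit 2) (nat_lit 0) (.cons (.ev (nat_lit 79229371458603035365442846721) (nat_lit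 1)) .nil)) (.cons (.br (nat_lit 10) (nat_lit 1) (.cons (.ev (nat_lit 79229371458603035365442846721) (nat_lit 1)) .nil)) .nil))) .nil)))) .nil)))) .nil))))) (.cons (.br (nat_lit 8) (nat_lit 1) (.cons (.rf (nat_lit 4920) (nat_lit 457864203446677407776)) (.cons (.rf (nat_lit 4920) (nat_lit 457864203446677406784)) (.cons (.br (nat_lit 2) (nat_lit 0) (.cons (.br (nat_lit 12) (nat_lit 0) (.cons (.ev (nat_lit 309485028268370621706076161) (nat_lit 1)) (.cons (.rf (nat_lit 5009) (nat_lit 458009550086699353152)) .nil))) (.cons (.br (nat_lit 5) (nat_lit 0) (.cons (.rf (nat_lit 5031) (nat_lit 493563285584426140736)) (.cons (.br (nat_lit 9) (nat_lit 1) (.cons (.rf (nat_lit 4920) (nat_lit 493675700753833166880)) (.cons (.ev (nat_lit 20282409608374108965510446120961) (nat_lit 1)) .nil))) .nil))) (.cons (.rf (nat_lit 5036) (nat_lit 493858305440582043680)) .nil)))) (.cons (.rf (nat_lit 5037) (nat_lit 493858305440582043680)) .nil))))) .nil))))),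
 (.br (nat_lit 7) (nat_lit 0) (.cons (.rf (nat_lit 5029) (nat_lit 493858305440582043680)) (.cons (.rf (nat_lit 5035) (nat_lit 493858305440582043680)) (.cons (.rf (nat_lit 5038) (nat_lit 493858305440582043680)) (.cons (.br (nat_lit 9) (nat_lit 1) (.cons (.rf (nat_lit 4920) (nat_lit 457935134042368542752)) (.cons (.rf (nat_lit 4920) (nat_lit 457935134042368541760)) (.cons (.br (nat_lit 2) (nat_lit 0) (.cons (.br (nat_lit 5) (nat_lit 0) (.cons (.rf (nat_lit 5031) (nat_lit 493565571469098189888)) (.cons (.br (nat_lit 8) (nat_lit 1) (.cons (.rf (nat_lit 4920) (nat_lit 493604770158142031904)) (.cons (.br (nat_lit 1) (nat_lit 0) (.cons (.zr (nat_lit 2417851639232556917850880) (nat_lit 309489750635697916281356289) (nat_lit 5) (nat_lit 0)) .nil)) .nil))) .nil))) (.cons (.ev (nat_lit 1213648258436567851335681) (nat_lit 1)) (.cons (.br (nat_lit 8) (nat_lit 1) (.cons (.ev (nat_lit 309489750634572012096323841) (nat_lit 1)) (.cons (.rf (nat_lit 4920) (nat_lit 493604770158142030912)) (.cons (.ev (nat_lit 79228167255149622130953420801)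 (nat_lit 1)) .nil)))) .nil)))) (.cons (.br (nat_lit 8) (nat_lit 1) (.cons (.rf (nat_lit 5024) (nat_lit 493858305440582043680)) (.cons (.rf (nat_lit 5024) (nat_lit 493858305440582042688)) (.cons (.br (nat_lit 8) (nat_lit 1) (.cons (.rf (nat_lit 4920) (nat_lit 493604770158142031904)) (.cons (.rf (nat_lit 4920) (nat_lit 493604770158142030912)) .nil))) .nil)))) .nil))))) .nil))))),
 (.br (nat_lit 11) (nat_lit 1) (.cons (.rf (nat_lit 3419) (nat_lit 493565395547242989600)) (.cons (.rf (nat_lit 4920) (nat_lit 493565395547242988608)) (.cons (.rf (nat_lit 4920) (nat_lit 457824828835778364480)) (.cons (.br (nat_lit 7) (nat_lit 0) (.cons (.rf (nat_lit 5029) (nat_lit 493858305440582043680)) (.cons (.rf (nat_lit 5035) (nat_lit 493858305440582043680)) (.cons (.rf (nat_lit 5038) (nat_lit 493858305440582043680)) (.cons (.rf (nat_lit 5039) (nat_lit 493858305440582043680)) (.cons (.br (nat_lit 7) (nat_lit 0) (.cons (.rf (nat_lit 5029) (nat_lit 493858305440582043680)) (.cons (.rf (nat_lit 5035) (nat_lit 493858305440582043680))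 (.cons (.rf (nat_lit 5038) (nat_lit 493858305440582043680)) (.cons (.rf (nat_lit 5039) (nat_lit 493858305440582043680)) .nil))))) .nil)))))) .nil))))),
 (.br (nat_lit 5) (nat_lit 0) (.cons (.br (nat_lit 7) (nat_lit 0) (.cons (.kr (nat_lit 79228162514336395187581878528) (nat_lit 309485009821346168236474368) (nat_lit 1) (nat_lit 0)) .nil)) .nil)),
 (.br (nat_lit 12) (nat_lit 0) (.cons (.rf (nat_lit 5009) (nat_lit 458079526298789741632)) (.cons (.br (nat_lit 8) (nat_lit 1) (.cons (.rf (nat_lit 5040) (nat_lit 493779557318295553088)) (.cons (.ev (nat_lit 309485028268090246257704961) (nat_lit 1)) (.cons (.rf (nat_lit 4933) (nat_lit 493784068614497863712)) .nil)))) (.cons (.br (nat_lit 2) (nat_lit 0) (.cons (.rf (nat_lit 5041) (nat_lit 15433072009550071840)) (.cons (.rf (nat_lit 5022) (nat_lit 458009550086699353152)) .nil))) .nil)))),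
 (.br (nat_lit 8) (nat_lit 1) (.cons (.rf (nat_lit 4920) (nat_lit 493604770158142030912)) (.cons (.rf (nat_lit 4920) (nat_lit 457864203446677406784)) (.cons (.rf (nat_lit 5040) (nat_lit 493779557318295553088)) .nil)))),
 (.br (nat_lit 2) (nat_lit 0) (.cons (.rf (nat_lit 5042) (nat_lit 493858305440582043680)) (.cons (.rf (nat_lit 5043) (nat_lit 493858305440582043680)) (.cons (.br (nat_lit 12) (nat_lit 0) (.cons (.rf (nat_lit 5041) (nat_lit 15432860907614603296)) (.cons (.br (nat_lit 5) (nat_lit 0) (.cons (.zr (nat_lit 158456325028528678485622915328) (nat_lit 310698658007724046833156097) (nat_lit 5) (nat_lit 0)) (.cons (.br (nat_lit 7) (nat_lit 0) (.cons (.ev (nat_lit 636937141306320401247509088008) (nat_lit 4)) .nil)) .nil))) .nil))) .nil)))),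
 (.br (nat_lit 9) (nat_lit 1) (.cons (.rf (nat_lit 3419) (nat_lit 493675700753833166880)) (.cons (.rf (nat_lit 4920) (nat_lit 493675700753833166880)) (.cons (.rf (nat_lit 4920) (nat_lit 457935134042368542752)) (.cons (.br (nat_lit 2) (nat_lit 0) (.cons (.rf (nat_lit 5042) (nat_lit 493858305440582043680)) (.cons (.rf (nat_lit 5044) (nat_lit 493858305440582043680)) (.cons (.rf (nat_lit 5043) (nat_lit 493858305440582043680)) (.cons (.br (nat_lit 2) (nat_lit 0) (.cons (.rf (nat_lit 5042) (nat_lit 493858305440582043680)) (.cons (.rf (nat_lit 5044) (nat_lit 493858305440582043680)) (.cons (.rf (nat_lit 5043) (nat_lit 493858305440582043680)) .nil)))) .nil))))) .nil))))),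
 (.br (nat_lit 9) (nat_lit 1) (.cons (.rf (nat_lit 3419) (nat_lit 493675700753833166880)) (.cons (.rf (nat_lit 4920) (nat_lit 493675700753833165888)) (.cons (.rf (nat_lit 4920) (nat_lit 457935134042368541760)) (.cons (.br (nat_lit 5) (nat_lit 0) (.cons (.br (nat_lit 7) (nat_lit 0) (.cons (.br (nat_lit 2) (nat_lit 0) (.cons (.br (nat_lit 8) (nat_lit 1) (.cons (.ev (nat_lit 309489750634572012096323841) (nat_lit 1)) (.cons (.rf (nat_lit 5022) (nat_lit 493779557318295553088)) .nil))) (.cons (.br (nat_lit 8) (nat_lit 1) (.cons (.ev (nat_lit 20282410817299928580143915729153) (nat_lit 1)) (.cons (.ev (nat_lit 79229376162450435096658903041) (nat_lit 1)) .nil))) .nil))) (.cons (.br (nat_lit 8) (nat_lit 1) (.cons (.rf (nat_lit 4920) (nat_lit 457864203446677407776)) (.cons (.rf (nat_lit 4920) (nat_lit 457864203446677406784)) (.cons (.kr (nat_lit 18446744078004518912) (nat_lit 20361637766165934761540795236352) (nat_lit 4) (nat_lit 0)) .nil)))) (.cons (.br (nat_lit 1) (nat_lit 0) (.cons (.br (nat_lit 2)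 (nat_lit 0) (.cons (.rf (nat_lit 1970) (nat_lit 493565395375310083296)) .nil)) (.cons (.br (nat_lit 8) (nat_lit 1) (.cons (.ev (nat_lit 309489750634572012096323841) (nat_lit 1)) (.cons (.rf (nat_lit 5040) (nat_lit 493779557318295554080)) .nil))) .nil))) .nil)))) (.cons (.br (nat_lit 12) (nat_lit 0) (.cons (.br (nat_lit 7) (nat_lit 0) (.cons (.br (nat_lit 8) (nat_lit 1) (.cons (.rf (nat_lit 4920) (nat_lit 457864203446677407776)) (.cons (.rf (nat_lit 4920) (nat_lit 457864203446677406784)) .nil))) (.cons (.ev (nat_lit 20282409608374108964415246172161) (nat_lit 1)) .nil))) (.cons (.br (nat_lit 8) (nat_lit 1) (.cons (.rf (nat_lit 5040) (nat_lit 493779557318295554080)) (.cons (.rf (nat_lit 5022) (nat_lit 493779557318295553088)) (.cons (.br (nat_lit 2) (nat_lit 0) (.cons (.br (nat_lit 10) (nat_lit 1) (.cons (.ev (nat_lit 20837637810011922831638150840584) (nat_lit 4)) .nil)) (.cons (.ev (nat_lit 20282410817318303265519780823041) (nat_lit 1)) .nil))) .nil)))) (.cons (.br (nat_lit 1) (nat_lit 0) (.cons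 (.ev (nat_lit 20361637766165934761545106981121) (nat_lit 1)) (.cons (.br (nat_lit 8) (nat_lit 1) (.cons (.ev (nat_lit 309489750634572012096323841) (nat_lit 1)) (.cons (.rf (nat_lit 4920) (nat_lit 457864203446677407776)) .nil))) .nil))) .nil)))) (.cons (.br (nat_lit 8) (nat_lit 1) (.cons (.rf (nat_lit 4920) (nat_lit 493604770158142031904)) (.cons (.rf (nat_lit 4920) (nat_lit 493604770158142030912)) (.cons (.br (nat_lit 10) (nat_lit 1) (.cons (.br (nat_lit 12) (nat_lit 0) (.cons (.br (nat_lit 2) (nat_lit 0) (.cons (.ev (nat_lit 20680414646171403874104865654536) (nat_lit 4)) .nil)) (.cons (.ev (nat_lit 20361948460101648061407237767425) (nat_lit 1)) .nil))) (.cons (.br (nat_lit 4) (nat_lit 1) (.cons (.br (nat_lit 6) (nat_lit 1) (.cons (.ev (nat_lit 20837011577065984681683972326148) (nat_lit 3)) .nil)) (.cons (.ev (nat_lit 20361638979832639661811169296385) (nat_lit 1)) .nil))) (.cons (.ev (nat_lit 79228167255149622130953420801) (nat_lit 1)) .nil)))) (.cons (.br (nat_lit 4) (nat_lit 1) (.cons (.br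 (nat_lit 2) (nat_lit 0) (.cons (.ev (nat_lit 20282719088661492051594759372801) (nat_lit 1)) (.cons (.rf (nat_lit 5040) (nat_lit 458079526298789742624)) .nil))) (.cons (.ev (nat_lit 309485028268090246257704961) (nat_lit 1)) (.cons (.kr (nat_lit 18446744078004518912) (nat_lit 20361637766165934761540795236352) (nat_lit 4) (nat_lit 0)) .nil)))) .nil))))) (.cons (.br (nat_lit 12) (nat_lit 0) (.cons (.rf (nat_lit 4529) (nat_lit 493565395547242989600)) (.cons (.kr (nat_lit 309485009821626543701491712) (nat_lit 79229371440083952222718656512) (nat_lit 6) (nat_lit 0)) (.cons (.br (nat_lit 8) (nat_lit 1) (.cons (.rf (nat_lit 5040) (nat_lit 493779557318295554080)) (.cons (.rf (nat_lit 5022) (nat_lit 493779557318295553088)) (.cons (.br (nat_lit 4) (nat_lit 1) (.cons (.br (nat_lit 2) (nat_lit 0) (.cons (.ev (nat_lit 21475181784946600210165236960008) (nat_lit 4)) .nil)) (.cons (.ev (nat_lit 20361638979832639661811169296385) (nat_lit 1)) .nil))) .nil)))) .nil)))) .nil))))) .nil)))))]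

theorem c192 : chkAll C T R L192 (nat_lit 5029) = true := by decide +kernel

theorem l192 : (nat_lit 5029) + L192.length = (nat_lit 5047) := by decide +kernel

/-- part of the certificates -/
def L193 : List Prf := [(.br (nat_lit 8) (nat_lit 1) (.cons (.rf (nat_lit 3419) (nat_lit 493604770158142031904)) (.cons (.br (nat_lit 12) (nat_lit 0) (.cons (.ev (nat_lit 79537647542604484330032988161) (nat_lit 1)) (.cons (.br (nat_lit 4) (nat_lit 1) (.cons (.br (nat_lit 2) (nat_lit 0) (.cons (.ev (nat_lit 79229371440084234801502028033) (nat_lit 1)) .nil)) (.cons (.br (nat_lit 1) (nat_lit 0) (.cons (.ev (nat_lit 79229371440084234801502028033) (nat_lit 1)) .nil)) .nil))) (.cons (.ev (nat_lit 79228167255149622130953420801) (nat_lit 1)) .nil)))) .nil))),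
 (.br (nat_lit 12) (nat_lit 0) (.cons (.rf (nat_lit 5009) (nat_lit 458079526298789741632)) (.cons (.br (nat_lit 10) (nat_lit 1) (.cons (.rf (nat_lit 5040) (nat_lit 458079526298789741632)) (.cons (.rf (nat_lit 5022) (nat_lit 458079526298789741632)) (.cons (.br (nat_lit 8) (nat_lit 1) (.cons (.ev (nat_lit 20283338068144530341761457849090) (nat_lit 2)) (.cons (.ev (nat_lit 20361638979832639661811169296385) (nat_lit 1)) .nil))) .nil)))) (.cons (.br (nat_lit 8) (nat_lit 1) (.cons (.rf (nat_lit 5040) (nat_lit 458009550086699353152)) (.cons (.rf (nat_lit 5022) (nat_lit 458009550086699353152)) (.cons (.br (nat_lit 8) (nat_lit 1) (.cons (.rf (nat_lit 4920) (nat_lit 457864203446677407776)) (.cons (.ev (nat_lit 79228167255149622130953420801) (nat_lit 1)) .nil))) .nil)))) .nil)))),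
 (.br (nat_lit 12) (nat_lit 0) (.cons (.ev (nat_lit 79229376162450716567340646401) (nat_lit 1)) (.cons (.rf (nat_lit 5045) (nat_lit 458116643612319220800)) .nil))),
 (.br (nat_lit 2) (nat_lit 0) (.cons (.rf (nat_lit 5048) (nat_lit 493858305440582043680)) (.cons (.br (nat_lit 8) (nat_lit 1) (.cons (.rf (nat_lit 3419) (nat_lit 493604770158142031904)) (.cons (.rf (nat_lit 4920) (nat_lit 457864203446677406784)) (.cons (.br (nat_lit 7) (nat_lit 0) (.cons (.ev (nat_lit 79537647542604484330032988161) (nat_lit 1)) (.cons (.br (nat_lit 1) (nat_lit 0) (.cons (.ev (nat_lit 80157831247326762317056770050) (nat_lit 2)) .nil)) .nil))) .nil)))) (.cons (.rf (nat_lit 5049) (nat_lit 493858305440582043680)) .nil)))),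
 (.br (nat_lit 8) (nat_lit 1) (.cons (.rf (nat_lit 3419) (nat_lit 493604770158142031904)) (.cons (.rf (nat_lit 4920) (nat_lit 457864203446677406784)) (.cons (.br (nat_lit 4) (nat_lit 1) (.cons (.br (nat_lit 2) (nat_lit 0) (.cons (.rf (nat_lit 5050) (nat_lit 493858305440582043680)) (.cons (.rf (nat_lit 5040) (nat_lit 458079526298789742624)) .nil))) (.cons (.rf (nat_lit 5048) (nat_lit 493858305440582043680)) (.cons (.ev (nat_lit 79537647542604484330032988161) (nat_lit 1)) .nil)))) .nil)))),
 (.br (nat_lit 9) (nat_lit 1) (.cons (.rf (nat_lit 4920) (nat_lit 493675700753833166880)) (.cons (.rf (nat_lit 4920) (nat_lit 493675700753833165888)) (.cons (.br (nat_lit 8) (nat_lit 1) (.cons (.br (nat_lit 8) (nat_lit 1) (.cons (.rf (nat_lit 3419) (nat_lit 493604770158142031904)) (.cons (.rf (nat_lit 4926) (nat_lit 493751347148455249952)) .nil))) (.cons (.rf (nat_lit 5047) (nat_lit 493858305440582043680)) (.cons (.br (nat_lit 8) (nat_lit 1) (.cons (.rf (nat_lit 4926) (nat_lit 493751347148455249952)) (.cons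 (.rf (nat_lit 5047) (nat_lit 493858305440582043680)) .nil))) .nil)))) (.cons (.br (nat_lit 2) (nat_lit 0) (.cons (.rf (nat_lit 5048) (nat_lit 493858305440582043680)) (.cons (.rf (nat_lit 5050) (nat_lit 493858305440582043680)) (.cons (.rf (nat_lit 5051) (nat_lit 493858305440582043680)) (.cons (.br (nat_lit 2) (nat_lit 0) (.cons (.rf (nat_lit 5048) (nat_lit 493858305440582043680)) (.cons (.rf (nat_lit 5049) (nat_lit 493858305440582043680)) (.cons (.rf (nat_lit 5051) (nat_lit 493858305440582043680)) .nil)))) .nil))))) .nil))))),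
 (.br (nat_lit 2) (nat_lit 0) (.cons (.kr (nat_lit 20282412021503525825987714482432) (nat_lit 79228171958997306631369326592) (nat_lit 1) (nat_lit 0)) .nil)),
 (.br (nat_lit 8) (nat_lit 1) (.cons (.rf (nat_lit 3419) (nat_lit 493604770158142031904)) (.cons (.rf (nat_lit 4920) (nat_lit 493604770158142030912)) (.cons (.br (nat_lit 5) (nat_lit 0) (.cons (.br (nat_lit 10) (nat_lit 1) (.cons (.br (nat_lit 2) (nat_lit 0) (.cons (.ev (nat_lit 21471463110125461080464651780360) (nat_lit 4)) .nil)) (.cons (.ev (nat_lit 20361638979832639661811169296385) (nat_lit 1)) .nil))) (.cons (.kr (nat_lit 79228162514264338693055578112) (nat_lit 72339069014638592) (nat_lit 5) (nat_lit 0)) (.cons (.br (nat_lit 4) (nat_lit 1) (.cons (.rf (nat_lit 5053) (nat_lit 493858305440582043680)) (.cons (.ev (nat_lit 20361638979832639661811169296385) (nat_lit 1)) .nil))) .nil)))) .nil)))),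
 (.br (nat_lit 2) (nat_lit 0) (.cons (.ev (nat_lit 309485028268090246257704961) (nat_lit 1)) (.cons (.ev (nat_lit 20282719088661492051594759372801) (nat_lit 1)) (.cons (.rf (nat_lit 5040) (nat_lit 458079526298789742624)) .nil)))),
 (.br (nat_lit 8) (nat_lit 1) (.cons (.rf (nat_lit 4920) (nat_lit 493604770158142031904)) (.cons (.rf (nat_lit 4920) (nat_lit 493604770158142030912)) (.cons (.br (nat_lit 4) (nat_lit 1) (.cons (.rf (nat_lit 5055) (nat_lit 493858305440582043680)) (.cons (.rf (nat_lit 5055) (nat_lit 493858305440582042688)) .nil))) .nil)))),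
 (.br (nat_lit 9) (nat_lit 1) (.cons (.rf (nat_lit 4920) (nat_lit 457935134042368542752)) (.cons (.rf (nat_lit 4920) (nat_lit 457935134042368541760)) (.cons (.rf (nat_lit 5052) (nat_lit 493858305440582043680)) (.cons (.br (nat_lit 8) (nat_lit 1) (.cons (.br (nat_lit 8) (nat_lit 1) (.cons (.rf (nat_lit 3419) (nat_lit 493604770158142031904)) (.cons (.rf (nat_lit 4920) (nat_lit 493604770158142031904)) (.cons (.rf (nat_lit 4933) (nat_lit 493749165717385742368)) .nil)))) (.cons (.rf (nat_lit 5054) (nat_lit 493858305440582043680)) (.cons (.rf (nat_lit 5056) (nat_lit 493858305440582043680)) (.cons (.br (nat_lit 8) (nat_lit 1) (.cons (.rf (nat_lit 4933) (nat_lit 493749165717385742368)) (.cons (.rf (nat_lit 5054) (nat_lit 493858305440582043680)) (.cons (.rf (nat_lit 5056) (nat_lit 493858305440582043680)) .nil)))) .nil))))) .nil))))),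
 (.br (nat_lit 9) (nat_lit 1) (.cons (.rf (nat_lit 5045) (nat_lit 493858305440582043680)) (.cons (.rf (nat_lit 5046) (nat_lit 493858305440582043680)) (.cons (.rf (nat_lit 5052) (nat_lit 493858305440582043680)) (.cons (.rf (nat_lit 5057) (nat_lit 493858305440582043680)) (.cons (.br (nat_lit 9) (nat_lit 1) (.cons (.rf (nat_lit 5045) (nat_lit 493858305440582043680)) (.cons (.rf (nat_lit 5046) (nat_lit 493858305440582043680)) (.cons (.rf (nat_lit 5052) (nat_lit 493858305440582043680)) (.cons (.rf (nat_lit 5057) (nat_lit 493858305440582043680)) .nil))))) .nil)))))),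
 (.br (nat_lit 8) (nat_lit 1) (.cons (.rf (nat_lit 3419) (nat_lit 493604770158142031904)) (.cons (.rf (nat_lit 4920) (nat_lit 493604770158142030912)) (.cons (.rf (nat_lit 4920) (nat_lit 457864203446677406784)) (.cons (.br (nat_lit 9) (nat_lit 1) (.cons (.rf (nat_lit 5040) (nat_lit 493779557318295553088)) (.cons (.rf (nat_lit 5022) (nat_lit 493779557318295553088)) (.cons (.br (nat_lit 9) (nat_lit 1) (.cons (.rf (nat_lit 4920) (nat_lit 493675700753833166880)) (.cons (.rf (nat_lit 4920) (nat_lit 493675700753833165888)) (.cons (.rf (nat_lit 5058) (nat_lit 493779557318295553088)) .nil)))) (.cons (.br (nat_lit 9) (nat_lit 1) (.cons (.rf (nat_lit 4920) (nat_lit 457935134042368542752)) (.cons (.rf (nat_lit 4920) (nat_lit 457935134042368541760)) (.cons (.rf (nat_lit 5058) (nat_lit 493779557318295553088)) .nil)))) .nil))))) .nil))))),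
 (.br (nat_lit 2) (nat_lit 0) (.cons (.ev (nat_lit 309485028268090246257704961) (nat_lit 1)) (.cons (.br (nat_lit 7) (nat_lit 0) (.cons (.ev (nat_lit 20282719088661563827709525688321) (nat_lit 1)) (.cons (.rf (nat_lit 4920) (nat_lit 457935134042368541760)) (.cons (.rf (nat_lit 5036) (nat_lit 493858305440582043680)) .nil)))) (.cons (.br (nat_lit 1) (nat_lit 0) (.cons (.br (nat_lit 12) (nat_lit 0) (.cons (.rf (nat_lit 5009) (nat_lit 458009550086699354144)) .nil)) (.cons (.br (nat_lit 9) (nat_lit 1) (.cons (.rf (nat_lit 4920) (nat_lit 457935134042368542752)) (.cons (.ev (nat_lit 79538861172272061636082139393) (nat_lit 1)) .nil))) .nil))) .nil)))),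
 (.br (nat_lit 9) (nat_lit 1) (.cons (.rf (nat_lit 3419) (nat_lit 493675700753833166880)) (.cons (.rf (nat_lit 4920) (nat_lit 457935134042368541760)) (.cons (.br (nat_lit 1) (nat_lit 0) (.cons (.rf (nat_lit 5009) (nat_lit 458009550086699354144)) (.cons (.br (nat_lit 2) (nat_lit 0) (.cons (.ev (nat_lit 309485028268090246257704961) (nat_lit 1)) (.cons (.br (nat_lit 7) (nat_lit 0) (.cons (.ev (nat_lit 79229376162522775265201946625) (nat_lit 1)) .nil)) .nil))) (.cons (.ev (nat_lit 79537647524085682662268731649) (nat_lit 1)) .nil)))) .nil)))),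
 (.br (nat_lit 8) (nat_lit 1) (.cons (.rf (nat_lit 4920) (nat_lit 493604770158142031904)) (.cons (.rf (nat_lit 4920) (nat_lit 493604770158142030912)) (.cons (.br (nat_lit 2) (nat_lit 0) (.cons (.ev (nat_lit 309485028268090246257704961) (nat_lit 1)) (.cons (.rf (nat_lit 5060) (nat_lit 493858305440582043680)) (.cons (.rf (nat_lit 5061) (nat_lit 493858305440582043680)) (.cons (.br (nat_lit 2) (nat_lit 0) (.cons (.ev (nat_lit 309485028268090246257704961) (nat_lit 1)) (.cons (.rf (nat_lit 5060) (nat_lit 493858305440582043680)) (.cons (.rf (nat_lit 5061) (nat_lit 493858305440582043680)) .nil)))) .nil))))) (.cons (.br (nat_lit 9) (nat_lit 1) (.cons (.rf (nat_lit 5023) (nat_lit 493858305440582042688)) (.cons (.rf (nat_lit 5023) (nat_lit 493858305440582043680)) (.cons (.br (nat_lit 9) (nat_lit 1) (.cons (.rf (nat_lit 4920) (nat_lit 457935134042368542752)) (.cons (.rf (nat_lit 4920) (nat_lit 457935134042368541760)) .nil))) .nil)))) .nil))))),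
 (.br (nat_lit 8) (nat_lit 1) (.cons (.rf (nat_lit 4920) (nat_lit 457864203446677407776)) (.cons (.rf (nat_lit 4920) (nat_lit 457864203446677406784)) (.cons (.rf (nat_lit 5062) (nat_lit 493858305440582043680)) (.cons (.br (nat_lit 6) (nat_lit 1) (.cons (.rf (nat_lit 5059) (nat_lit 457857653653768569920)) (.cons (.rf (nat_lit 5059) (nat_lit 457857653653768570912)) (.cons (.br (nat_lit 9) (nat_lit 1) (.cons (.rf (nat_lit 5023) (nat_lit 493858305440582042688)) (.cons (.rf (nat_lit 5023) (nat_lit 493858305440582043680)) (.cons (.br (nat_lit 9) (nat_lit 1) (.cons (.rf (nat_lit 4920) (nat_lit 457935134042368542752)) (.cons (.rf (nat_lit 4920) (nat_lit 457935134042368541760)) .nil))) .nil)))) (.cons (.rf (nat_lit 5030) (nat_lit 493858305440582043680)) .nil))))) .nil))))),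
 (.br (nat_lit 11) (nat_lit 1) (.cons (.rf (nat_lit 4920) (nat_lit 493565395547242989600)) (.cons (.rf (nat_lit 4920) (nat_lit 493565395547242988608)) (.cons (.rf (nat_lit 5058) (nat_lit 493858305440582043680)) (.cons (.br (nat_lit 8) (nat_lit 1) (.cons (.rf (nat_lit 5059) (nat_lit 493858305440582042688)) (.cons (.rf (nat_lit 5059) (nat_lit 493858305440582043680)) (.cons (.rf (nat_lit 5062) (nat_lit 493858305440582043680)) (.cons (.rf (nat_lit 5063) (nat_lit 493858305440582043680)) (.cons (.br (nat_lit 8) (nat_lit 1) (.cons (.rf (nat_lit 5059) (nat_lit 493858305440582042688)) (.cons (.rf (nat_lit 5059) (nat_lit 493858305440582043680)) (.cons (.rf (nat_lit 5062) (nat_lit 493858305440582043680)) (.cons (.rf (nat_lit 5063) (nat_lit 493858305440582043680)) .nil))))) .nil)))))) .nil))))),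
 (.br (nat_lit 9) (nat_lit 1) (.cons (.rf (nat_lit 5025) (nat_lit 493858305440582042688)) (.cons (.rf (nat_lit 5025) (nat_lit 493858305440582043680)) (.cons (.br (nat_lit 9) (nat_lit 1) (.cons (.rf (nat_lit 4920) (nat_lit 493675700753833166880)) (.cons (.rf (nat_lit 4920) (nat_lit 493675700753833165888)) .nil))) .nil)))),
 (.br (nat_lit 12) (nat_lit 0) (.cons (.br (nat_lit 5) (nat_lit 0) (.cons (.br (nat_lit 9) (nat_lit 1) (.cons (.zr (nat_lit 40644047369817749302875162411520) (nat_lit 309494473001899310949859329) (nat_lit 5) (nat_lit 0)) (.cons (.rf (nat_lit 4920) (nat_lit 493675700753833165888)) .nil))) (.cons (.br (nat_lit 9) (nat_lit 1) (.cons (.zr (nat_lit 40644047369817749302875145634304) (nat_lit 311902879907599880072200193) (nat_lit 5) (nat_lit 0)) (.cons (.zr (nat_lit 237688114320251856668156100608) (nat_lit 309485028268371721234415617) (nat_lit 5) (nat_lit 11)) .nil))) .nil))) (.cons (.rf (nat_lit 5009) (nat_lit 458009550086699353152)) (.cons (.rf (nat_lit 5065) (nat_lit 493858305440582043680))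 .nil)))),
 (.br (nat_lit 9) (nat_lit 1) (.cons (.rf (nat_lit 3419) (nat_lit 493675700753833166880)) (.cons (.rf (nat_lit 4920) (nat_lit 493675700753833166880)) (.cons (.rf (nat_lit 4920) (nat_lit 457935134042368542752)) .nil)))),
 (.br (nat_lit 4) (nat_lit 1) (.cons (.rf (nat_lit 5009) (nat_lit 458009550086699354144)) (.cons (.rf (nat_lit 5009) (nat_lit 458009550086699353152)) (.cons (.kr (nat_lit 72057598332895232) (nat_lit 79228162514264338693055578112) (nat_lit 4) (nat_lit 0)) .nil)))),
 (.br (nat_lit 12) (nat_lit 0) (.cons (.br (nat_lit 1) (nat_lit 0) (.cons (.rf (nat_lit 5067) (nat_lit 493858305440582043680)) (.cons (.br (nat_lit 2) (nat_lit 0) (.cons (.rf (nat_lit 5067) (nat_lit 493858305440582042688)) .nil)) .nil))) (.cons (.rf (nat_lit 5068) (nat_lit 493858305440582043680)) (.cons (.rf (nat_lit 5065) (nat_lit 493858305440582043680)) .nil)))),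
 (.br (nat_lit 9) (nat_lit 1) (.cons (.rf (nat_lit 3419) (nat_lit 493675700753833166880)) (.cons (.rf (nat_lit 4920) (nat_lit 493675700753833165888)) (.cons (.rf (nat_lit 5068) (nat_lit 493858305440582043680)) .nil)))),
 (.br (nat_lit 8) (nat_lit 1) (.cons (.rf (nat_lit 4920) (nat_lit 493604770158142031904)) (.cons (.rf (nat_lit 4920) (nat_lit 493604770158142030912)) (.cons (.br (nat_lit 2) (nat_lit 0) (.cons (.rf (nat_lit 5066) (nat_lit 493858305440582043680)) (.cons (.rf (nat_lit 5069) (nat_lit 493858305440582043680)) (.cons (.rf (nat_lit 5070) (nat_lit 493858305440582043680)) (.cons (.br (nat_lit 2) (nat_lit 0) (.cons (.rf (nat_lit 5066) (nat_lit 493858305440582043680)) (.cons (.rf (nat_lit 5069) (nat_lit 493858305440582043680)) (.cons (.rf (nat_lit 5070) (nat_lit 493858305440582043680)) .nil)))) .nil))))) (.cons (.br (nat_lit 6) (nat_lit 1) (.cons (.rf (nat_lit 5059) (nat_lit 457857653653768569920)) (.cons (.rf (nat_lit 5059) (nat_lit 457857653653768570912)) (.cons (.rf (nat_lit 5030) (nat_lit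 457857653653768570912)) (.cons (.br (nat_lit 9) (nat_lit 1) (.cons (.rf (nat_lit 5023) (nat_lit 493858305440582042688)) (.cons (.rf (nat_lit 5023) (nat_lit 493858305440582043680)) (.cons (.br (nat_lit 9) (nat_lit 1) (.cons (.rf (nat_lit 4920) (nat_lit 493675700753833166880)) (.cons (.rf (nat_lit 4920) (nat_lit 493675700753833165888)) .nil))) .nil)))) .nil))))) .nil))))),
 (.br (nat_lit 8) (nat_lit 1) (.cons (.rf (nat_lit 4920) (nat_lit 457864203446677407776)) (.cons (.rf (nat_lit 4920) (nat_lit 457864203446677406784)) (.cons (.rf (nat_lit 5071) (nat_lit 493858305440582043680)) (.cons (.br (nat_lit 9) (nat_lit 1) (.cons (.rf (nat_lit 5023) (nat_lit 493858305440582042688)) (.cons (.rf (nat_lit 5023) (nat_lit 493858305440582043680)) (.cons (.br (nat_lit 9) (nat_lit 1) (.cons (.rf (nat_lit 4920) (nat_lit 493675700753833166880)) (.cons (.rf (nat_lit 4920) (nat_lit 493675700753833165888)) .nil))) .nil)))) .nil)))))]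

theorem c193 : chkAll C T R L193 (nat_lit 5047) = true := by decide +kernel

theorem l193 : (nat_lit 5047) + L193.length = (nat_lit 5073) := by decide +kernel

/-- part of the certificates -/
def L194 : List Prf := [(.br (nat_lit 11) (nat_lit 1) (.cons (.rf (nat_lit 4920) (nat_lit 457824828835778365472)) (.cons (.rf (nat_lit 4920) (nat_lit 457824828835778364480)) (.cons (.rf (nat_lit 5064) (nat_lit 493858305440582043680)) (.cons (.br (nat_lit 8) (nat_lit 1) (.cons (.rf (nat_lit 5059) (nat_lit 493858305440582042688)) (.cons (.rf (nat_lit 5059) (nat_lit 493858305440582043680)) (.cons (.rf (nat_lit 5071) (nat_lit 493858305440582043680)) (.cons (.rf (nat_lit 5072) (nat_lit 493858305440582043680)) (.cons (.br (nat_lit 8) (nat_lit 1) (.cons (.rf (nat_lit 5059) (nat_lit 493858305440582042688)) (.cons (.rf (nat_lit 5059) (nat_lit 493858305440582043680)) (.cons (.rf (nat_lit 5071) (nat_lit 493858305440582043680)) (.cons (.rf (nat_lit 5072) (nat_lit 493858305440582043680)) .nil))))) .nil)))))) .nil))))),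
 (.br (nat_lit 11) (nat_lit 1) (.cons (.rf (nat_lit 5022) (nat_lit 493858305440582043680)) (.cons (.rf (nat_lit 5040) (nat_lit 493858305440582043680)) (.cons (.rf (nat_lit 5064) (nat_lit 493858305440582043680)) (.cons (.rf (nat_lit 5073) (nat_lit 493858305440582043680)) (.cons (.br (nat_lit 11) (nat_lit 1) (.cons (.rf (nat_lit 5022) (nat_lit 493858305440582043680)) (.cons (.rf (nat_lit 5040) (nat_lit 493858305440582043680)) (.cons (.rf (nat_lit 5064) (nat_lit 493858305440582043680)) (.cons (.rf (nat_lit 5073) (nat_lit 493858305440582043680)) .nil))))) .nil)))))),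
 (.br (nat_lit 13) (nat_lit 0) (.cons (.rf (nat_lit 5009) (nat_lit 493858305440582043680)) (.cons (.rf (nat_lit 5009) (nat_lit 493823368456464074784)) (.cons (.rf (nat_lit 5074) (nat_lit 493858305440582043680)) (.cons (.rf (nat_lit 5074) (nat_lit 493823368456464074784)) .nil))))),
 (.br (nat_lit 7) (nat_lit 0) (.cons (.ev (nat_lit 4722366482873940181249) (nat_lit 1)) (.cons (.br (nat_lit 2) (nat_lit 0) (.cons (.rf (nat_lit 4920) (nat_lit 458046633314295678016)) (.cons (.br (nat_lit 6) (nat_lit 1) (.cons (.zr (nat_lit 20282409603651814540234838835712) (nat_lit 309489750634853487073034241) (nat_lit 5) (nat_lit 0)) (.cons (.rf (nat_lit 5020) (nat_lit 15433033528790583328)) .nil))) (.cons (.rf (nat_lit 4920) (nat_lit 457822648505293145152)) .nil)))) .nil))),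
 (.br (nat_lit 7) (nat_lit 0) (.cons (.rf (nat_lit 5076) (nat_lit 493858305440582043680)) (.cons (.ev (nat_lit 4722366482873940181249) (nat_lit 1)) (.cons (.br (nat_lit 7) (nat_lit 0) (.cons (.rf (nat_lit 5076) (nat_lit 493858305440582043680)) (.cons (.ev (nat_lit 4722366482873940181249) (nat_lit 1)) .nil))) .nil)))),
 (.br (nat_lit 9) (nat_lit 1) (.cons (.ev (nat_lit 79537652264899191080616984833) (nat_lit 1)) (.cons (.kr (nat_lit 4722366764344621924352) (nat_lit 20361637766165934761540795236352) (nat_lit 6) (nat_lit 0)) .nil))),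
 (.br (nat_lit 5) (nat_lit 0) (.cons (.rf (nat_lit 5077) (nat_lit 493858305440582043680)) (.cons (.rf (nat_lit 5077) (nat_lit 493565395547242989600)) (.cons (.br (nat_lit 10) (nat_lit 1) (.cons (.rf (nat_lit 4920) (nat_lit 493563215216757769280)) (.cons (.br (nat_lit 6) (nat_lit 1) (.cons (.rf (nat_lit 4920) (nat_lit 493787200025760302144)) (.cons (.rf (nat_lit 4926) (nat_lit 493858200989124888608)) (.cons (.rf (nat_lit 5078) (nat_lit 493858305440582043680)) .nil)))) (.cons (.rf (nat_lit 5078) (nat_lit 493565395547242989600)) .nil)))) .nil)))),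
 (.br (nat_lit 2) (nat_lit 0) (.cons (.rf (nat_lit 4920) (nat_lit 493787200025760302144)) (.cons (.br (nat_lit 10) (nat_lit 1) (.cons (.rf (nat_lit 4920) (nat_lit 457822648505293145152)) (.cons (.ev (nat_lit 20361638979814120859039615156481) (nat_lit 1)) .nil))) .nil))),
 (.br (nat_lit 2) (nat_lit 0) (.cons (.br (nat_lit 12) (nat_lit 0) (.cons (.ev (nat_lit 79537652264899191080616984833) (nat_lit 1)) .nil)) .nil)),
 (.br (nat_lit 5) (nat_lit 0) (.cons (.br (nat_lit 2) (nat_lit 0) (.cons (.rf (nat_lit 4920) (nat_lit 493787200025760302144)) (.cons (.rf (nat_lit 5080) (nat_lit 493858305440582043680)) (.cons (.br (nat_lit 2) (nat_lit 0) (.cons (.rf (nat_lit 4920) (nat_lit 493787200025760302144)) (.cons (.rf (nat_lit 5080) (nat_lit 493858305440582043680)) .nil))) .nil)))) (.cons (.ev (nat_lit 4722366482873940181249) (nat_lit 1)) (.cons (.br (nat_lit 10) (nat_lit 1) (.cons (.rf (nat_lit 4920) (nat_lit 493563215216757769280)) (.cons (.br (nat_lit 6) (nat_lit 1) (.cons (.rf (nat_lit 5081) (nat_lit 493858305440582043680))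 (.cons (.br (nat_lit 6) (nat_lit 1) (.cons (.rf (nat_lit 5081) (nat_lit 493858305440582043680)) .nil)) .nil))) (.cons (.kr (nat_lit 1208925819614633469673472) (nat_lit 20361637766165934761540795236352) (nat_lit 4) (nat_lit 0)) .nil)))) .nil)))),
 (.br (nat_lit 2) (nat_lit 0) (.cons (.rf (nat_lit 4920) (nat_lit 458046633314295678016)) (.cons (.br (nat_lit 12) (nat_lit 0) (.cons (.rf (nat_lit 5020) (nat_lit 15433033524499810336)) (.cons (.rf (nat_lit 5020) (nat_lit 15433037922546321440)) .nil))) (.cons (.rf (nat_lit 4920) (nat_lit 457822648505293145152)) .nil)))),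
 (.br (nat_lit 7) (nat_lit 0) (.cons (.rf (nat_lit 5082) (nat_lit 493858305440582043680)) (.cons (.rf (nat_lit 5082) (nat_lit 493565395547242989600)) (.cons (.br (nat_lit 2) (nat_lit 0) (.cons (.rf (nat_lit 5083) (nat_lit 493858305440582043680)) (.cons (.rf (nat_lit 4920) (nat_lit 458046633314295678016)) (.cons (.rf (nat_lit 5083) (nat_lit 493565395547242989600)) (.cons (.rf (nat_lit 4920) (nat_lit 457822648505293145152)) .nil))))) .nil)))),
 (.br (nat_lit 10) (nat_lit 1) (.cons (.rf (nat_lit 4920) (nat_lit 493563215216757769280)) (.cons (.rf (nat_lit 4920) (nat_lit 457822648505293145152)) .nil))),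
 (.br (nat_lit 10) (nat_lit 1) (.cons (.rf (nat_lit 4920) (nat_lit 493563215216757769280)) (.cons (.br (nat_lit 6) (nat_lit 1) (.cons (.rf (nat_lit 5085) (nat_lit 493565395547242989600)) (.cons (.br (nat_lit 6) (nat_lit 1) (.cons (.rf (nat_lit 4920) (nat_lit 493787200025760302144)) (.cons (.rf (nat_lit 4926) (nat_lit 493858200989124888608)) .nil))) (.cons (.br (nat_lit 6) (nat_lit 1) (.cons (.rf (nat_lit 4920) (nat_lit 458046633314295678016)) (.cons (.rf (nat_lit 4926) (nat_lit 493858200989124888608)) .nil))) .nil)))) .nil))),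
 (.br (nat_lit 11) (nat_lit 1) (.cons (.rf (nat_lit 3419) (nat_lit 493565395547242989600)) (.cons (.rf (nat_lit 4920) (nat_lit 493565395547242989600)) (.cons (.rf (nat_lit 4920) (nat_lit 457824828835778365472)) (.cons (.br (nat_lit 8) (nat_lit 1) (.cons (.br (nat_lit 5) (nat_lit 0) (.cons (.rf (nat_lit 5077) (nat_lit 493858305440582043680)) (.cons (.rf (nat_lit 5079) (nat_lit 493858305440582043680)) (.cons (.rf (nat_lit 5077) (nat_lit 493565395547242989600)) (.cons (.rf (nat_lit 5079) (nat_lit 493565395547242989600)) .nil))))) (.cons (.br (nat_lit 7) (nat_lit 0) (.cons (.rf (nat_lit 5082) (nat_lit 493858305440582043680)) (.cons (.rf (nat_lit 5084) (nat_lit 493858305440582043680)) (.cons (.rf (nat_lit 5082) (nat_lit 493565395547242989600)) (.cons (.rf (nat_lit 5084) (nat_lit 493565395547242989600)) .nil))))) (.cons (.ev (nat_lit 20282719088679938513089702396161) (nat_lit 1)) (.cons (.br (nat_lit 10) (nat_lit 1) (.cons (.rf (nat_lit 5085) (nat_lit 493858305440582043680)) (.cons (.rf (nat_lit 5086)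 (nat_lit 493858305440582043680)) (.cons (.br (nat_lit 10) (nat_lit 1) (.cons (.rf (nat_lit 4920) (nat_lit 457822648505293145152)) (.cons (.rf (nat_lit 5086) (nat_lit 493858305440582043680)) .nil))) .nil)))) .nil))))) .nil))))),
 (.br (nat_lit 6) (nat_lit 1) (.cons (.rf (nat_lit 4920) (nat_lit 458046633314295679008)) (.cons (.rf (nat_lit 4920) (nat_lit 458046633314295678016)) (.cons (.br (nat_lit 2) (nat_lit 0) (.cons (.br (nat_lit 9) (nat_lit 1) (.cons (.rf (nat_lit 4954) (nat_lit 493853832630505670688)) (.cons (.ev (nat_lit 20282409608374036906816896565249) (nat_lit 1)) (.cons (.rf (nat_lit 4949) (nat_lit 15432931269918427168)) .nil)))) (.cons (.br (nat_lit 12) (nat_lit 0) (.cons (.br (nat_lit 7) (nat_lit 0) (.cons (.br (nat_lit 10) (nat_lit 1) (.cons (.ev (nat_lit 1208944266358707196067841) (nat_lit 1)) .nil)) .nil)) (.cons (.ev (nat_lit 79537652246452165536208977921) (nat_lit 1)) .nil))) (.cons (.br (nat_lit 10) (nat_lit 1) (.cons (.rf (nat_lit 3419) (nat_lit 493563215216757770272)) (.cons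 (.rf (nat_lit 4920) (nat_lit 457822648505293145152)) (.cons (.br (nat_lit 7) (nat_lit 0) (.cons (.rf (nat_lit 4950) (nat_lit 493853838122695100448)) (.cons (.br (nat_lit 1) (nat_lit 0) (.cons (.zr (nat_lit 2417851855402049053327360) (nat_lit 1237944780098888693247377409) (nat_lit 5) (nat_lit 0)) .nil)) .nil))) .nil)))) .nil)))) (.cons (.br (nat_lit 5) (nat_lit 0) (.cons (.br (nat_lit 1) (nat_lit 0) (.cons (.rf (nat_lit 4937) (nat_lit 493858305440582043680)) (.cons (.br (nat_lit 10) (nat_lit 1) (.cons (.kr (nat_lit 20361637766165934761540795236608) (nat_lit 281479271743488) (nat_lit 1) (nat_lit 0)) (.cons (.rf (nat_lit 4920) (nat_lit 457822648505293146144)) .nil))) .nil))) (.cons (.kr (nat_lit 4722366764344621924352) (nat_lit 20361637766165934761540795236352) (nat_lit 6) (nat_lit 0)) (.cons (.br (nat_lit 10) (nat_lit 1) (.cons (.rf (nat_lit 4920) (nat_lit 493563215216757770272)) (.cons (.rf (nat_lit 4920) (nat_lit 493563215216757769280)) (.cons (.br (nat_lit 9) (nat_lit 1) (.cons (.rf (nat_lit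 4967) (nat_lit 493823298087721994272)) (.cons (.rf (nat_lit 4941) (nat_lit 493565606652396536896)) .nil))) .nil)))) .nil)))) .nil))))),
 (.br (nat_lit 7) (nat_lit 0) (.cons (.rf (nat_lit 5088) (nat_lit 493858305440582043680)) (.cons (.br (nat_lit 2) (nat_lit 0) (.cons (.br (nat_lit 1) (nat_lit 0) (.cons (.rf (nat_lit 3419) (nat_lit 493787200025760303136)) (.cons (.br (nat_lit 5) (nat_lit 0) (.cons (.ev (nat_lit 20282409608392555989963932500225) (nat_lit 1)) (.cons (.ev (nat_lit 310693935713017291937415169) (nat_lit 1)) .nil))) .nil))) (.cons (.br (nat_lit 10) (nat_lit 1) (.cons (.rf (nat_lit 3419) (nat_lit 493563215216757770272)) (.cons (.ev (nat_lit 20282410817318375323118130429953) (nat_lit 1)) (.cons (.br (nat_lit 5) (nat_lit 0) (.cons (.br (nat_lit 1) (nat_lit 0) (.cons (.ev (nat_lit 309485009893684137739485441) (nat_lit 1)) .nil)) .nil)) .nil)))) .nil))) (.cons (.br (nat_lit 10) (nat_lit 1) (.cons (.rf (nat_lit 4920) (nat_lit 457822648505293146144)) (.cons (.rf (nat_lit 4920) (nat_lit 457822648505293145152))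 (.cons (.br (nat_lit 2) (nat_lit 0) (.cons (.br (nat_lit 12) (nat_lit 0) (.cons (.rf (nat_lit 4950) (nat_lit 493858200984834115616)) (.cons (.zr (nat_lit 40802503694846205921567707365376) (nat_lit 311912324640284148680884225) (nat_lit 5) (nat_lit 0)) .nil))) (.cons (.br (nat_lit 12) (nat_lit 0) (.cons (.br (nat_lit 6) (nat_lit 1) (.cons (.ev (nat_lit 79229376199488886159947399170) (nat_lit 2)) .nil)) .nil)) .nil))) (.cons (.kr (nat_lit 1208925819614633469673472) (nat_lit 20361637766165934761540795236352) (nat_lit 4) (nat_lit 0)) .nil))))) .nil)))),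
 (.br (nat_lit 7) (nat_lit 0) (.cons (.rf (nat_lit 5088) (nat_lit 493858305440582043680)) (.cons (.rf (nat_lit 5089) (nat_lit 493858305440582043680)) (.cons (.br (nat_lit 10) (nat_lit 1) (.cons (.rf (nat_lit 4920) (nat_lit 457822648505293146144)) (.cons (.rf (nat_lit 4920) (nat_lit 457822648505293145152)) (.cons (.br (nat_lit 2) (nat_lit 0) (.cons (.br (nat_lit 6) (nat_lit 1) (.cons (.rf (nat_lit 3419) (nat_lit 493787200025760303136)) (.cons (.rf (nat_lit 4023) (nat_lit 457822648505293146144)) .nil))) (.cons (.ev (nat_lit 20282409608374036906816896565249) (nat_lit 1)) .nil))) (.cons (.kr (nat_lit 1208925819614633469673472) (nat_lit 20361637766165934761540795236352) (nat_lit 4) (nat_lit 0)) .nil))))) .nil)))),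
 (.br (nat_lit 7) (nat_lit 0) (.cons (.rf (nat_lit 5088) (nat_lit 493858305440582043680)) (.cons (.rf (nat_lit 5089) (nat_lit 493858305440582043680)) (.cons (.rf (nat_lit 5090) (nat_lit 493858305440582043680)) (.cons (.br (nat_lit 7) (nat_lit 0) (.cons (.rf (nat_lit 5088) (nat_lit 493858305440582043680)) (.cons (.rf (nat_lit 5089) (nat_lit 493858305440582043680)) (.cons (.rf (nat_lit 5090) (nat_lit 493858305440582043680)) .nil)))) .nil))))),
 (.br (nat_lit 10) (nat_lit 1) (.cons (.rf (nat_lit 4920) (nat_lit 457822648505293146144)) (.cons (.rf (nat_lit 4920) (nat_lit 457822648505293145152)) .nil))),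
 (.br (nat_lit 4) (nat_lit 1) (.cons (.br (nat_lit 12) (nat_lit 0) (.cons (.ev (nat_lit 20682890478916204685147263667976) (nat_lit 4)) .nil)) (.cons (.ev (nat_lit 20361638975110273178941540794625) (nat_lit 1)) .nil))),
 (.br (nat_lit 6) (nat_lit 1) (.cons (.rf (nat_lit 4920) (nat_lit 493787200025760303136)) (.cons (.rf (nat_lit 4920) (nat_lit 493787200025760302144)) (.cons (.br (nat_lit 8) (nat_lit 1) (.cons (.rf (nat_lit 5093) (nat_lit 493858305440582043680)) (.cons (.rf (nat_lit 5093) (nat_lit 493565395547242988608)) (.cons (.ev (nat_lit 20282720297605830466787891740673) (nat_lit 1)) .nil)))) (.cons (.br (nat_lit 8) (nat_lit 1) (.cons (.br (nat_lit 7) (nat_lit 0) (.cons (.ev (nat_lit 20282409603651670423951546253569) (nat_lit 1)) (.cons (.kr (nat_lit 4722366764344621924352) (nat_lit 20361637766165934761540795236352) (nat_lit 6) (nat_lit 0)) .nil))) (.cons (.ev (nat_lit 79228162514264619068520726529) (nat_lit 1)) (.cons (.br (nat_lit 2) (nat_lit 0) (.cons (.ev (nat_lit 309485028268370621706076161)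 (nat_lit 1)) (.cons (.ev (nat_lit 20361947255916641673721401114625) (nat_lit 1)) .nil))) .nil)))) .nil))))),
 (.br (nat_lit 5) (nat_lit 0) (.cons (.rf (nat_lit 5091) (nat_lit 493858305440582043680)) (.cons (.br (nat_lit 6) (nat_lit 1) (.cons (.rf (nat_lit 4920) (nat_lit 493787200025760303136)) (.cons (.rf (nat_lit 4920) (nat_lit 493787200025760302144)) (.cons (.br (nat_lit 2) (nat_lit 0) (.cons (.br (nat_lit 12) (nat_lit 0) (.cons (.rf (nat_lit 5075) (nat_lit 458009550086699353152)) (.cons (.br (nat_lit 7) (nat_lit 0) (.cons (.br (nat_lit 1) (nat_lit 0) (.cons (.ev (nat_lit 159077712918330242878899618050) (nat_lit 2)) .nil)) (.cons (.ev (nat_lit 79538856449977355989288026113) (nat_lit 1)) .nil))) .nil))) (.cons (.br (nat_lit 12) (nat_lit 0) (.cons (.rf (nat_lit 5075) (nat_lit 457935134042368541760)) (.cons (.br (nat_lit 10) (nat_lit 1) (.cons (.br (nat_lit 4) (nat_lit 1) (.cons (.ev (nat_lit 1208944266358707196067841) (nat_lit 1)) .nil)) (.cons (.ev (nat_lit 20282720302309677866514796052481)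 (nat_lit 1)) .nil))) .nil))) (.cons (.br (nat_lit 10) (nat_lit 1) (.cons (.rf (nat_lit 3419) (nat_lit 493563215216757770272)) (.cons (.rf (nat_lit 4920) (nat_lit 457822648505293145152)) (.cons (.br (nat_lit 7) (nat_lit 0) (.cons (.ev (nat_lit 79538856449977355989288026113) (nat_lit 1)) (.cons (.br (nat_lit 4) (nat_lit 1) (.cons (.ev (nat_lit 80159044877138455910659653890) (nat_lit 2)) .nil)) .nil))) .nil)))) .nil)))) (.cons (.br (nat_lit 7) (nat_lit 0) (.cons (.br (nat_lit 7) (nat_lit 0) (.cons (.kr (nat_lit 4722366764344621924352) (nat_lit 20361637766165934761540795236352) (nat_lit 6) (nat_lit 0)) (.cons (.rf (nat_lit 5092) (nat_lit 493858305440582043680)) .nil))) (.cons (.kr (nat_lit 4722366764344621924352) (nat_lit 20361637766165934761540795236352) (nat_lit 6) (nat_lit 0)) (.cons (.rf (nat_lit 5092) (nat_lit 493858305440582043680)) .nil)))) .nil))))) (.cons (.rf (nat_lit 5091) (nat_lit 493565395547242988608)) (.cons (.br (nat_lit 10) (nat_lit 1) (.cons (.rf (nat_lit 4920) (nat_lit 493563215216757770272))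 (.cons (.rf (nat_lit 4920) (nat_lit 493563215216757769280)) (.cons (.rf (nat_lit 5094) (nat_lit 493858305440582043680)) (.cons (.br (nat_lit 6) (nat_lit 1) (.cons (.rf (nat_lit 4920) (nat_lit 493787200025760303136)) (.cons (.rf (nat_lit 4920) (nat_lit 493787200025760302144)) (.cons (.rf (nat_lit 5094) (nat_lit 493565395547242988608)) .nil)))) .nil))))) .nil)))))]

theorem c194 : chkAll C T R L194 (nat_lit 5073) = true := by decide +kernel

theorem l194 : (nat_lit 5073) + L194.length = (nat_lit 5096) := by decide +kernel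

/-- part of the certificates -/
def L195 : List Prf := [(.br (nat_lit 11) (nat_lit 1) (.cons (.rf (nat_lit 3419) (nat_lit 493565395547242989600)) (.cons (.rf (nat_lit 4920) (nat_lit 493565395547242988608)) (.cons (.rf (nat_lit 4920) (nat_lit 457824828835778364480)) (.cons (.br (nat_lit 5) (nat_lit 0) (.cons (.rf (nat_lit 5091) (nat_lit 493858305440582043680)) (.cons (.rf (nat_lit 5095) (nat_lit 493858305440582043680)) (.cons (.br (nat_lit 5) (nat_lit 0) (.cons (.rf (nat_lit 5091) (nat_lit 493858305440582043680)) (.cons (.rf (nat_lit 5095) (nat_lit 493858305440582043680)) (.cons (.rf (nat_lit 5091) (nat_lit 493565395547242988608)) (.cons (.rf (nat_lit 5095) (nat_lit 493565395547242988608)) .nil))))) (.cons (.rf (nat_lit 5091) (nat_lit 493565395547242988608)) (.cons (.rf (nat_lit 5095) (nat_lit 493565395547242988608)) .nil)))))) .nil))))),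
 (.br (nat_lit 12) (nat_lit 0) (.cons (.br (nat_lit 7) (nat_lit 0) (.cons (.kr (nat_lit 281474976710656) (nat_lit 79228162514264337593543950336) (nat_lit 6) (nat_lit 0)) (.cons (.br (nat_lit 2) (nat_lit 0) (.cons (.br (nat_lit 10) (nat_lit 1) (.cons (.ev (nat_lit 79537647524158021731300212993) (nat_lit 1)) (.cons (.ev (nat_lit 20282719088661492051590481182721) (nat_lit 1)) .nil))) (.cons (.br (nat_lit 10) (nat_lit 1) (.cons (.rf (nat_lit 3419) (nat_lit 493563215216757770272)) (.cons (.rf (nat_lit 4920) (nat_lit 493563215216757769280)) .nil))) .nil))) (.cons (.br (nat_lit 10) (nat_lit 1) (.cons (.rf (nat_lit 4920) (nat_lit 457822648505293146144)) (.cons (.rf (nat_lit 4920) (nat_lit 457822648505293145152)) (.cons (.br (nat_lit 1) (nat_lit 0) (.cons (.rf (nat_lit 4926) (nat_lit 493679323641425266720)) (.cons (.ev (nat_lit 1213666632841572546248961) (nat_lit 1)) .nil))) .nil)))) .nil)))) (.cons (.rf (nat_lit 5075) (nat_lit 458009550086699353152)) (.cons (.br (nat_lit 8) (nat_lit 1) (.cons (.rf (nat_lit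 5075) (nat_lit 457864203446677407776)) (.cons (.rf (nat_lit 5075) (nat_lit 457864203446677406784)) (.cons (.br (nat_lit 2) (nat_lit 0) (.cons (.br (nat_lit 9) (nat_lit 1) (.cons (.br (nat_lit 10) (nat_lit 1) (.cons (.ev (nat_lit 1213666632841572546248961) (nat_lit 1)) .nil)) (.cons (.ev (nat_lit 72340172821299201) (nat_lit 1)) .nil))) (.cons (.rf (nat_lit 4933) (nat_lit 458043501903032222784)) (.cons (.br (nat_lit 7) (nat_lit 0) (.cons (.br (nat_lit 1) (nat_lit 0) (.cons (.ev (nat_lit 20520096537417700018585056903940) (nat_lit 3)) .nil)) (.cons (.br (nat_lit 6) (nat_lit 1) (.cons (.ev (nat_lit 20520096537491198768901857281796) (nat_lit 3)) .nil)) .nil))) .nil)))) (.cons (.ev (nat_lit 309485028340146740784005121) (nat_lit 1)) .nil))))) .nil)))),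
 (.br (nat_lit 6) (nat_lit 1) (.cons (.rf (nat_lit 3419) (nat_lit 493787200025760303136)) (.cons (.rf (nat_lit 4920) (nat_lit 493787200025760302144)) (.cons (.rf (nat_lit 4920) (nat_lit 458046633314295678016)) .nil)))),
 (.br (nat_lit 12) (nat_lit 0) (.cons (.rf (nat_lit 5097) (nat_lit 493858305440582043680)) (.cons (.rf (nat_lit 5075) (nat_lit 458009550086699353152)) (.cons (.br (nat_lit 2) (nat_lit 0) (.cons (.rf (nat_lit 5098) (nat_lit 493858305440582043680)) (.cons (.br (nat_lit 1) (nat_lit 0) (.cons (.rf (nat_lit 5098) (nat_lit 493858305440582042688)) (.cons (.rf (nat_lit 5041) (nat_lit 15433002743538747424)) .nil))) (.cons (.br (nat_lit 1) (nat_lit 0) (.cons (.rf (nat_lit 5098) (nat_lit 493858305440582042688)) (.cons (.br (nat_lit 6) (nat_lit 1) (.cons (.ev (nat_lit 79228167255077565640705310721) (nat_lit 1)) (.cons (.ev (nat_lit 20282409608392555708488939012353) (nat_lit 1)) .nil))) .nil))) .nil)))) .nil)))),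
 (.br (nat_lit 12) (nat_lit 0) (.cons (.rf (nat_lit 5097) (nat_lit 493858305440582043680)) (.cons (.rf (nat_lit 5099) (nat_lit 493858305440582043680)) (.cons (.rf (nat_lit 5075) (nat_lit 458009550086699353152)) (.cons (.br (nat_lit 12) (nat_lit 0) (.cons (.rf (nat_lit 5097) (nat_lit 493858305440582043680)) (.cons (.rf (nat_lit 5099) (nat_lit 493858305440582043680)) (.cons (.rf (nat_lit 5075) (nat_lit 458009550086699353152)) .nil)))) .nil))))),
 (.br (nat_lit 10) (nat_lit 1) (.cons (.rf (nat_lit 4920) (nat_lit 493563215216757770272)) (.cons (.rf (nat_lit 4920) (nat_lit 457822648505293146144)) (.cons (.rf (nat_lit 5075) (nat_lit 457864203446677406784)) .nil)))),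
 (.br (nat_lit 6) (nat_lit 1) (.cons (.rf (nat_lit 3419) (nat_lit 493787200025760303136)) (.cons (.rf (nat_lit 4920) (nat_lit 493787200025760302144)) (.cons (.rf (nat_lit 4920) (nat_lit 458046633314295678016)) (.cons (.br (nat_lit 2) (nat_lit 0) (.cons (.rf (nat_lit 5100) (nat_lit 493858305440582043680)) (.cons (.br (nat_lit 10) (nat_lit 1) (.cons (.rf (nat_lit 5101) (nat_lit 493858305440582043680)) (.cons (.ev (nat_lit 20282719088661492051590481182721) (nat_lit 1)) (.cons (.br (nat_lit 10) (nat_lit 1) (.cons (.rf (nat_lit 4920) (nat_lit 457822648505293146144)) (.cons (.ev (nat_lit 20282719088661492051590481182721) (nat_lit 1)) (.cons (.rf (nat_lit 5075) (nat_lit 457864203446677406784)) .nil)))) (.cons (.rf (nat_lit 5075) (nat_lit 457864203446677406784)) .nil))))) (.cons (.br (nat_lit 5) (nat_lit 0) (.cons (.br (nat_lit 1) (nat_lit 0) (.cons (.br (nat_lit 10) (nat_lit 1) (.cons (.ev (nat_lit 18518802767275884801) (nat_lit 1)) (.cons (.ev (nat_lit 20361637766184381505614521630721) (nat_lit 1))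 .nil))) (.cons (.br (nat_lit 7) (nat_lit 0) (.cons (.br (nat_lit 10) (nat_lit 1) (.cons (.ev (nat_lit 20363511629668758819226445087496) (nat_lit 4)) .nil)) (.cons (.rf (nat_lit 4920) (nat_lit 457822648505293146144)) .nil))) .nil))) (.cons (.br (nat_lit 1) (nat_lit 0) (.cons (.br (nat_lit 12) (nat_lit 0) (.cons (.ev (nat_lit 40644356864309053829972217692930) (nat_lit 2)) .nil)) (.cons (.br (nat_lit 10) (nat_lit 1) (.cons (.rf (nat_lit 4920) (nat_lit 457822648505293146144)) (.cons (.br (nat_lit 4) (nat_lit 1) (.cons (.ev (nat_lit 20363501996114346523679150245640) (nat_lit 4)) .nil)) .nil))) .nil))) (.cons (.ev (nat_lit 20282719088661492051590481182721) (nat_lit 1)) .nil)))) (.cons (.br (nat_lit 10) (nat_lit 1) (.cons (.rf (nat_lit 3419) (nat_lit 493563215216757770272)) (.cons (.ev (nat_lit 20282719088661492051590481182721) (nat_lit 1)) (.cons (.rf (nat_lit 4920) (nat_lit 457822648505293145152)) (.cons (.br (nat_lit 1) (nat_lit 0) (.cons (.br (nat_lit 9) (nat_lit 1) (.cons (.br (nat_lit 7) (nat_lit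 0) (.cons (.ev (nat_lit 79538861190718525338604797953) (nat_lit 1)) .nil)) (.cons (.rf (nat_lit 4968) (nat_lit 493850454930785240128)) .nil))) (.cons (.rf (nat_lit 5075) (nat_lit 457864203446677407776)) (.cons (.br (nat_lit 7) (nat_lit 0) (.cons (.rf (nat_lit 4968) (nat_lit 493850460422974669888)) (.cons (.rf (nat_lit 4921) (nat_lit 493814461318138364992)) .nil))) .nil)))) .nil))))) .nil))))) .nil))))),
 (.br (nat_lit 1) (nat_lit 0) (.cons (.br (nat_lit 12) (nat_lit 0) (.cons (.rf (nat_lit 5041) (nat_lit 15432857608008075296)) (.cons (.rf (nat_lit 5096) (nat_lit 457935134042368541760)) .nil))) (.cons (.br (nat_lit 10) (nat_lit 1) (.cons (.rf (nat_lit 4920) (nat_lit 493563215216757770272)) (.cons (.ev (nat_lit 310698658079500165877661953) (nat_lit 1)) (.cons (.rf (nat_lit 5041) (nat_lit 15432862006054586400)) .nil)))) .nil))),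
 (.br (nat_lit 6) (nat_lit 1) (.cons (.rf (nat_lit 4920) (nat_lit 493787200025760303136)) (.cons (.br (nat_lit 9) (nat_lit 1) (.cons (.ev (nat_lit 309489732260168106913103873) (nat_lit 1)) (.cons (.br (nat_lit 4) (nat_lit 1) (.cons (.ev (nat_lit 81091117202724804741774443268) (nat_lit 3)) .nil)) .nil))) (.cons (.ev (nat_lit 79228162514264619068520726529) (nat_lit 1)) .nil)))),
 (.br (nat_lit 2) (nat_lit 0) (.cons (.rf (nat_lit 5100) (nat_lit 493858305440582043680)) (.cons (.rf (nat_lit 5102) (nat_lit 493858305440582043680)) (.cons (.br (nat_lit 12) (nat_lit 0) (.cons (.rf (nat_lit 5103) (nat_lit 493858305440582043680)) (.cons (.br (nat_lit 12) (nat_lit 0) (.cons (.rf (nat_lit 5103) (nat_lit 493858305440582043680)) (.cons (.rf (nat_lit 5075) (nat_lit 457864203446677406784)) .nil))) (.cons (.br (nat_lit 12) (nat_lit 0) (.cons (.rf (nat_lit 5103) (nat_lit 493858305440582043680)) (.cons (.rf (nat_lit 5075) (nat_lit 457864203446677406784)) .nil))) .nil)))) (.cons (.br (nat_lit 10) (nat_lit 1) (.cons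 (.rf (nat_lit 3419) (nat_lit 493563215216757770272)) (.cons (.rf (nat_lit 4920) (nat_lit 493563215216757769280)) (.cons (.rf (nat_lit 4920) (nat_lit 457822648505293145152)) (.cons (.br (nat_lit 6) (nat_lit 1) (.cons (.rf (nat_lit 5101) (nat_lit 493565395547242989600)) (.cons (.rf (nat_lit 5104) (nat_lit 493858305440582043680)) (.cons (.br (nat_lit 6) (nat_lit 1) (.cons (.rf (nat_lit 4920) (nat_lit 458046633314295679008)) (.cons (.rf (nat_lit 5104) (nat_lit 493858305440582043680)) (.cons (.rf (nat_lit 5075) (nat_lit 457864203446677406784)) .nil)))) (.cons (.rf (nat_lit 5075) (nat_lit 457864203446677406784)) .nil))))) .nil))))) .nil))))),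
 (.br (nat_lit 2) (nat_lit 0) (.cons (.rf (nat_lit 5100) (nat_lit 493858305440582043680)) (.cons (.rf (nat_lit 5102) (nat_lit 493858305440582043680)) (.cons (.rf (nat_lit 5105) (nat_lit 493858305440582043680)) (.cons (.br (nat_lit 10) (nat_lit 1) (.cons (.rf (nat_lit 3419) (nat_lit 493563215216757770272)) (.cons (.rf (nat_lit 4920) (nat_lit 493563215216757769280)) (.cons (.rf (nat_lit 4920) (nat_lit 457822648505293145152)) (.cons (.br (nat_lit 1) (nat_lit 0) (.cons (.br (nat_lit 7) (nat_lit 0) (.cons (.br (nat_lit 12) (nat_lit 0) (.cons (.ev (nat_lit 20282409603651670705426539741441) (nat_lit 1)) (.cons (.ev (nat_lit 20282409608392555708488939012353) (nat_lit 1)) .nil))) (.cons (.br (nat_lit 12) (nat_lit 0) (.cons (.br (nat_lit 6) (nat_lit 1) (.cons (.ev (nat_lit 79229385625630707855317336322) (nat_lit 2)) .nil)) .nil)) .nil))) (.cons (.br (nat_lit 12) (nat_lit 0) (.cons (.rf (nat_lit 5096) (nat_lit 457935134042368541760)) (.cons (.ev (nat_lit 20361638979814120859039615156481) (nat_lit 1)) (.cons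 (.rf (nat_lit 5098) (nat_lit 493858305440582042688)) .nil)))) (.cons (.br (nat_lit 5) (nat_lit 0) (.cons (.rf (nat_lit 4954) (nat_lit 493571091016400045120)) (.cons (.br (nat_lit 6) (nat_lit 1) (.cons (.br (nat_lit 4) (nat_lit 1) (.cons (.ev (nat_lit 79850759329885238439570375170) (nat_lit 2)) .nil)) (.cons (.rf (nat_lit 5075) (nat_lit 457864203446677407776)) .nil))) .nil))) .nil)))) .nil))))) .nil))))),
 (.br (nat_lit 6) (nat_lit 1) (.cons (.rf (nat_lit 4920) (nat_lit 493787200025760302144)) (.cons (.br (nat_lit 4) (nat_lit 1) (.cons (.br (nat_lit 2) (nat_lit 0) (.cons (.br (nat_lit 7) (nat_lit 0) (.cons (.ev (nat_lit 20841960919741148625700339256592) (nat_lit 5)) .nil)) (.cons (.br (nat_lit 8) (nat_lit 1) (.cons (.ev (nat_lit 79231794050984000230187401730) (nat_lit 2)) .nil)) .nil))) (.cons (.br (nat_lit 8) (nat_lit 1) (.cons (.br (nat_lit 2) (nat_lit 0) (.cons (.ev (nat_lit 79229376180969237863934722305) (nat_lit 1)) .nil)) .nil)) .nil))) .nil))),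
 (.br (nat_lit 10) (nat_lit 1) (.cons (.rf (nat_lit 3419) (nat_lit 493563215216757770272)) (.cons (.rf (nat_lit 4920) (nat_lit 493563215216757770272)) (.cons (.rf (nat_lit 4920) (nat_lit 457822648505293146144)) (.cons (.br (nat_lit 6) (nat_lit 1) (.cons (.br (nat_lit 6) (nat_lit 1) (.cons (.rf (nat_lit 4920) (nat_lit 493787200025760302144)) (.cons (.rf (nat_lit 4920) (nat_lit 458046633314295678016)) .nil))) (.cons (.rf (nat_lit 5107) (nat_lit 493858305440582043680)) (.cons (.br (nat_lit 6) (nat_lit 1) (.cons (.rf (nat_lit 4920) (nat_lit 458046633314295678016)) (.cons (.rf (nat_lit 5107) (nat_lit 493858305440582043680)) .nil))) .nil)))) .nil))))),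
 (.br (nat_lit 6) (nat_lit 1) (.cons (.ev (nat_lit 20441794383709663982064029073410) (nat_lit 2)) (.cons (.br (nat_lit 8) (nat_lit 1) (.cons (.ev (nat_lit 40644666339855694902273710752002) (nat_lit 2)) (.cons (.br (nat_lit 9) (nat_lit 1) (.cons (.zr (nat_lit 309485009965461356312265472) (nat_lit 1213648186378973830184961) (nat_lit 5) (nat_lit 0)) .nil)) .nil))) .nil))),
 (.br (nat_lit 6) (nat_lit 1) (.cons (.rf (nat_lit 3419) (nat_lit 493787200025760303136)) (.cons (.rf (nat_lit 4920) (nat_lit 493787200025760303136)) (.cons (.rf (nat_lit 4920) (nat_lit 458046633314295679008)) .nil)))),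
 (.br (nat_lit 10) (nat_lit 1) (.cons (.rf (nat_lit 3419) (nat_lit 493563215216757770272)) (.cons (.rf (nat_lit 4920) (nat_lit 493563215216757769280)) (.cons (.rf (nat_lit 4920) (nat_lit 457822648505293145152)) (.cons (.br (nat_lit 1) (nat_lit 0) (.cons (.br (nat_lit 6) (nat_lit 1) (.cons (.rf (nat_lit 5101) (nat_lit 458005178423107159104)) (.cons (.rf (nat_lit 5109) (nat_lit 493858305440582043680)) (.cons (.br (nat_lit 6) (nat_lit 1) (.cons (.rf (nat_lit 4920) (nat_lit 458046633314295678016)) (.cons (.rf (nat_lit 5109) (nat_lit 493858305440582043680)) .nil))) .nil)))) (.cons (.rf (nat_lit 5110) (nat_lit 493858305440582043680)) (.cons (.br (nat_lit 7) (nat_lit 0) (.cons (.ev (nat_lit 20282409603651670423951546253569) (nat_lit 1)) (.cons (.rf (nat_lit 4014) (nat_lit 458116643612319220800)) (.cons (.ev (nat_lit 309489750634572012096323841) (nat_lit 1)) .nil)))) (.cons (.ev (nat_lit 79537647524085682662268731649) (nat_lit 1)) .nil))))) .nil))))),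
 (.br (nat_lit 6) (nat_lit 1) (.cons (.rf (nat_lit 3419) (nat_lit 493787200025760303136)) (.cons (.rf (nat_lit 4920) (nat_lit 493787200025760303136)) (.cons (.rf (nat_lit 4920) (nat_lit 458046633314295679008)) .nil)))),
 (.br (nat_lit 12) (nat_lit 0) (.cons (.br (nat_lit 8) (nat_lit 1) (.cons (.rf (nat_lit 5096) (nat_lit 457864203446677407776)) (.cons (.ev (nat_lit 79537647542532426740273315841) (nat_lit 1)) (.cons (.br (nat_lit 9) (nat_lit 1) (.cons (.br (nat_lit 2) (nat_lit 0) (.cons (.ev (nat_lit 79541279042430657711172551170) (nat_lit 2)) .nil)) (.cons (.br (nat_lit 1) (nat_lit 0) (.cons (.ev (nat_lit 79231794050984000230187401730) (nat_lit 2)) .nil)) .nil))) .nil)))) (.cons (.br (nat_lit 1) (nat_lit 0) (.cons (.rf (nat_lit 5112) (nat_lit 493858305440582043680)) (.cons (.ev (nat_lit 1213666632841572546248961) (nat_lit 1)) .nil))) (.cons (.rf (nat_lit 5075) (nat_lit 458009550086699353152)) .nil)))),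
 (.br (nat_lit 6) (nat_lit 1) (.cons (.rf (nat_lit 3419) (nat_lit 493787200025760303136)) (.cons (.ev (nat_lit 20282719088661492051590481182721) (nat_lit 1)) (.cons (.br (nat_lit 4) (nat_lit 1) (.cons (.br (nat_lit 2) (nat_lit 0) (.cons (.rf (nat_lit 5096) (nat_lit 458009550086699354144)) (.cons (.rf (nat_lit 1981) (nat_lit 493563215044824865952)) .nil))) (.cons (.rf (nat_lit 5113) (nat_lit 493858305440582043680)) (.cons (.br (nat_lit 1) (nat_lit 0) (.cons (.ev (nat_lit 20282409603651670423951546253569) (nat_lit 1)) (.cons (.zr (nat_lit 61084913298497948400909973193472) (nat_lit 620183667829350599124582401) (nat_lit 5) (nat_lit 0)) .nil))) .nil)))) .nil)))),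
 (.br (nat_lit 2) (nat_lit 0) (.cons (.rf (nat_lit 5113) (nat_lit 493858305440582043680)) (.cons (.rf (nat_lit 5114) (nat_lit 493858305440582043680)) (.cons (.br (nat_lit 12) (nat_lit 0) (.cons (.rf (nat_lit 5075) (nat_lit 457935134042368541760)) (.cons (.br (nat_lit 4) (nat_lit 1) (.cons (.rf (nat_lit 5096) (nat_lit 458009550086699354144)) (.cons (.rf (nat_lit 5108) (nat_lit 457864203446677406784)) .nil))) .nil))) .nil)))),
 (.br (nat_lit 10) (nat_lit 1) (.cons (.rf (nat_lit 4920) (nat_lit 493563215216757770272)) (.cons (.rf (nat_lit 4920) (nat_lit 493563215216757769280)) (.cons (.br (nat_lit 2) (nat_lit 0) (.cons (.rf (nat_lit 5113) (nat_lit 493858305440582043680)) (.cons (.rf (nat_lit 5114) (nat_lit 493858305440582043680)) (.cons (.rf (nat_lit 5115) (nat_lit 493858305440582043680)) (.cons (.br (nat_lit 2) (nat_lit 0) (.cons (.rf (nat_lit 5113) (nat_lit 493858305440582043680)) (.cons (.rf (nat_lit 5114) (nat_lit 493858305440582043680)) (.cons (.rf (nat_lit 5115) (nat_lit 493858305440582043680))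 .nil)))) .nil))))) (.cons (.br (nat_lit 6) (nat_lit 1) (.cons (.rf (nat_lit 5110) (nat_lit 493858305440582043680)) (.cons (.rf (nat_lit 5110) (nat_lit 493858305440582042688)) (.cons (.br (nat_lit 6) (nat_lit 1) (.cons (.rf (nat_lit 4920) (nat_lit 458046633314295679008)) (.cons (.ev (nat_lit 20282719088661492051590481182721) (nat_lit 1)) .nil))) .nil)))) .nil)))))]

theorem c195 : chkAll C T R L195 (nat_lit 5096) = true := by decide +kernel

theorem l195 : (nat_lit 5096) + L195.length = (nat_lit 5117) := by decide +kernel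

/-- part of the certificates -/
def L196 : List Prf := [(.br (nat_lit 6) (nat_lit 1) (.cons (.rf (nat_lit 4920) (nat_lit 493787200025760303136)) (.cons (.rf (nat_lit 4920) (nat_lit 493787200025760302144)) (.cons (.br (nat_lit 8) (nat_lit 1) (.cons (.br (nat_lit 9) (nat_lit 1) (.cons (.rf (nat_lit 5096) (nat_lit 458038990606830929952)) .nil)) (.cons (.ev (nat_lit 20282720297605830466787891740673) (nat_lit 1)) .nil))) .nil)))),
 (.br (nat_lit 10) (nat_lit 1) (.cons (.rf (nat_lit 4920) (nat_lit 457822648505293146144)) (.cons (.rf (nat_lit 4920) (nat_lit 457822648505293145152)) (.cons (.rf (nat_lit 5116) (nat_lit 493858305440582043680)) (.cons (.br (nat_lit 6) (nat_lit 1) (.cons (.rf (nat_lit 5110) (nat_lit 493858305440582043680)) (.cons (.rf (nat_lit 5110) (nat_lit 493858305440582042688)) (.cons (.rf (nat_lit 5117) (nat_lit 493858305440582043680)) (.cons (.br (nat_lit 6) (nat_lit 1) (.cons (.rf (nat_lit 4920) (nat_lit 458046633314295679008)) (.cons (.rf (nat_lit 4920) (nat_lit 458046633314295678016))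 (.cons (.rf (nat_lit 5117) (nat_lit 493858305440582043680)) .nil)))) .nil))))) .nil))))),
 (.br (nat_lit 11) (nat_lit 1) (.cons (.rf (nat_lit 4920) (nat_lit 493565395547242989600)) (.cons (.rf (nat_lit 4920) (nat_lit 493565395547242988608)) (.cons (.br (nat_lit 2) (nat_lit 0) (.cons (.rf (nat_lit 5100) (nat_lit 493858305440582043680)) (.cons (.rf (nat_lit 5102) (nat_lit 493858305440582043680)) (.cons (.rf (nat_lit 5105) (nat_lit 493858305440582043680)) (.cons (.rf (nat_lit 5106) (nat_lit 493858305440582043680)) (.cons (.br (nat_lit 2) (nat_lit 0) (.cons (.rf (nat_lit 5100) (nat_lit 493858305440582043680)) (.cons (.rf (nat_lit 5102) (nat_lit 493858305440582043680)) (.cons (.rf (nat_lit 5105) (nat_lit 493858305440582043680)) (.cons (.rf (nat_lit 5106) (nat_lit 493858305440582043680)) .nil))))) .nil)))))) (.cons (.br (nat_lit 10) (nat_lit 1) (.cons (.rf (nat_lit 5108) (nat_lit 493858305440582043680)) (.cons (.rf (nat_lit 5111) (nat_lit 493858305440582043680)) (.cons (.rf (nat_lit 5116) (nat_lit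 493858305440582043680)) (.cons (.rf (nat_lit 5118) (nat_lit 493858305440582043680)) (.cons (.br (nat_lit 10) (nat_lit 1) (.cons (.rf (nat_lit 5108) (nat_lit 493858305440582043680)) (.cons (.rf (nat_lit 5111) (nat_lit 493858305440582043680)) (.cons (.rf (nat_lit 5116) (nat_lit 493858305440582043680)) (.cons (.rf (nat_lit 5118) (nat_lit 493858305440582043680)) .nil))))) .nil)))))) .nil))))),
 (.br (nat_lit 10) (nat_lit 1) (.cons (.rf (nat_lit 4920) (nat_lit 493563215216757770272)) (.cons (.rf (nat_lit 4920) (nat_lit 493563215216757769280)) (.cons (.br (nat_lit 9) (nat_lit 1) (.cons (.br (nat_lit 6) (nat_lit 1) (.cons (.zr (nat_lit 238303457580882448091302789120) (nat_lit 1213648402551760222158849) (nat_lit 5) (nat_lit 6)) .nil)) (.cons (.rf (nat_lit 4933) (nat_lit 458043467818171761728)) .nil))) .nil)))),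
 (.br (nat_lit 6) (nat_lit 1) (.cons (.rf (nat_lit 4920) (nat_lit 493787200025760303136)) (.cons (.rf (nat_lit 4920) (nat_lit 493787200025760302144)) (.cons (.br (nat_lit 1) (nat_lit 0) (.cons (.br (nat_lit 5) (nat_lit 0) (.cons (.ev (nat_lit 309489750634572012096323841) (nat_lit 1)) (.cons (.ev (nat_lit 79229371440083952222718656769) (nat_lit 1)) .nil))) (.cons (.br (nat_lit 2) (nat_lit 0) (.cons (.ev (nat_lit 20361637770906747988488461746433) (nat_lit 1)) (.cons (.ev (nat_lit 20282720297587311383649445740801) (nat_lit 1)) .nil))) (.cons (.rf (nat_lit 4933) (nat_lit 493823298092012767264)) .nil)))) .nil)))),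
 (.br (nat_lit 12) (nat_lit 0) (.cons (.br (nat_lit 8) (nat_lit 1) (.cons (.rf (nat_lit 5096) (nat_lit 457864203446677407776)) (.cons (.rf (nat_lit 5087) (nat_lit 458009550086699353152)) (.cons (.br (nat_lit 10) (nat_lit 1) (.cons (.rf (nat_lit 5110) (nat_lit 493565395547242989600)) (.cons (.rf (nat_lit 5110) (nat_lit 493565395547242988608)) (.cons (.rf (nat_lit 5120) (nat_lit 493858305440582043680)) (.cons (.rf (nat_lit 5120) (nat_lit 458009550086699353152)) .nil))))) (.cons (.rf (nat_lit 5119) (nat_lit 458009550086699353152)) .nil))))) (.cons (.br (nat_lit 2) (nat_lit 0) (.cons (.rf (nat_lit 5112) (nat_lit 493858305440582042688)) (.cons (.br (nat_lit 1) (nat_lit 0) (.cons (.rf (nat_lit 5112) (nat_lit 493858305440582043680)) (.cons (.rf (nat_lit 5112) (nat_lit 493565395547242989600)) .nil))) (.cons (.rf (nat_lit 5112) (nat_lit 493565395547242988608)) .nil)))) (.cons (.rf (nat_lit 5075) (nat_lit 458009550086699353152)) (.cons (.br (nat_lit 6) (nat_lit 1) (.cons (.rf (nat_lit 5110) (nat_lit 493858305440582043680))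 (.cons (.rf (nat_lit 5110) (nat_lit 493858305440582042688)) (.cons (.rf (nat_lit 5121) (nat_lit 493858305440582043680)) (.cons (.br (nat_lit 6) (nat_lit 1) (.cons (.rf (nat_lit 4920) (nat_lit 458046633314295679008)) (.cons (.rf (nat_lit 4920) (nat_lit 458046633314295678016)) (.cons (.rf (nat_lit 5121) (nat_lit 493858305440582043680)) .nil)))) .nil))))) .nil))))),
 (.br (nat_lit 10) (nat_lit 1) (.cons (.rf (nat_lit 4920) (nat_lit 493563215216757770272)) (.cons (.rf (nat_lit 4920) (nat_lit 493563215216757769280)) (.cons (.br (nat_lit 9) (nat_lit 1) (.cons (.br (nat_lit 5) (nat_lit 0) (.cons (.rf (nat_lit 4967) (nat_lit 493817844510048225312)) (.cons (.rf (nat_lit 5053) (nat_lit 493820093011328075808)) .nil))) (.cons (.br (nat_lit 4) (nat_lit 1) (.cons (.rf (nat_lit 1981) (nat_lit 493563215044824863968)) (.cons (.ev (nat_lit 20282409608374109246989717798913) (nat_lit 1)) .nil))) (.cons (.ev (nat_lit 1213648186380073325035521) (nat_lit 1)) .nil)))) .nil)))),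
 (.br (nat_lit 6) (nat_lit 1) (.cons (.rf (nat_lit 3419) (nat_lit 493787200025760303136)) (.cons (.rf (nat_lit 4920) (nat_lit 493787200025760302144)) (.cons (.rf (nat_lit 4920) (nat_lit 458046633314295678016)) (.cons (.br (nat_lit 10) (nat_lit 1) (.cons (.rf (nat_lit 5110) (nat_lit 493565395547242989600)) (.cons (.rf (nat_lit 5110) (nat_lit 493565395547242988608)) (.cons (.rf (nat_lit 5123) (nat_lit 493858305440582043680)) (.cons (.br (nat_lit 10) (nat_lit 1) (.cons (.rf (nat_lit 4920) (nat_lit 457822648505293146144)) (.cons (.rf (nat_lit 4920) (nat_lit 457822648505293145152)) (.cons (.rf (nat_lit 5123) (nat_lit 493858305440582043680)) .nil)))) .nil))))) .nil))))),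
 (.br (nat_lit 2) (nat_lit 0) (.cons (.rf (nat_lit 5122) (nat_lit 493858305440582043680)) (.cons (.rf (nat_lit 5124) (nat_lit 493858305440582043680)) (.cons (.br (nat_lit 12) (nat_lit 0) (.cons (.rf (nat_lit 5075) (nat_lit 457935134042368541760)) (.cons (.br (nat_lit 4) (nat_lit 1) (.cons (.rf (nat_lit 5096) (nat_lit 458009550086699354144)) (.cons (.br (nat_lit 1) (nat_lit 0) (.cons (.rf (nat_lit 5020) (nat_lit 15427409526814509088)) (.cons (.rf (nat_lit 5110) (nat_lit 493565395547242989600)) .nil))) (.cons (.rf (nat_lit 5119) (nat_lit 457864203446677406784)) .nil)))) (.cons (.rf (nat_lit 5087) (nat_lit 458038990606830928960)) .nil)))) (.cons (.br (nat_lit 10) (nat_lit 1) (.cons (.rf (nat_lit 3419) (nat_lit 493563215216757770272)) (.cons (.rf (nat_lit 4920) (nat_lit 493563215216757769280)) (.cons (.rf (nat_lit 4920) (nat_lit 457822648505293145152)) (.cons (.br (nat_lit 1) (nat_lit 0) (.cons (.br (nat_lit 9) (nat_lit 1) (.cons (.br (nat_lit 5) (nat_lit 0) (.cons (.br (nat_lit 7) (nat_lit 0) (.cons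 (.ev (nat_lit 79848341496620978243937370370) (nat_lit 2)) .nil)) .nil)) (.cons (.rf (nat_lit 5119) (nat_lit 458038990606830928960)) .nil))) (.cons (.rf (nat_lit 5101) (nat_lit 493565395547242989600)) (.cons (.rf (nat_lit 5096) (nat_lit 458005178423107160096)) .nil)))) .nil))))) .nil))))),
 (.br (nat_lit 2) (nat_lit 0) (.cons (.rf (nat_lit 5122) (nat_lit 493858305440582043680)) (.cons (.rf (nat_lit 5124) (nat_lit 493858305440582043680)) (.cons (.rf (nat_lit 5125) (nat_lit 493858305440582043680)) (.cons (.br (nat_lit 12) (nat_lit 0) (.cons (.rf (nat_lit 5075) (nat_lit 457935134042368541760)) (.cons (.rf (nat_lit 5110) (nat_lit 493565395547242988608)) (.cons (.rf (nat_lit 5112) (nat_lit 493565395547242988608)) (.cons (.br (nat_lit 8) (nat_lit 1) (.cons (.rf (nat_lit 5096) (nat_lit 458038990606830929952)) (.cons (.rf (nat_lit 5125) (nat_lit 458005178423107159104)) (.cons (.rf (nat_lit 5119) (nat_lit 458005178423107159104)) .nil)))) .nil))))) .nil))))),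
 (.br (nat_lit 11) (nat_lit 1) (.cons (.rf (nat_lit 4920) (nat_lit 457824828835778365472)) (.cons (.rf (nat_lit 4920) (nat_lit 457824828835778364480)) (.cons (.rf (nat_lit 5119) (nat_lit 493858305440582043680)) (.cons (.br (nat_lit 2) (nat_lit 0) (.cons (.rf (nat_lit 5122) (nat_lit 493858305440582043680)) (.cons (.rf (nat_lit 5124) (nat_lit 493858305440582043680)) (.cons (.rf (nat_lit 5125) (nat_lit 493858305440582043680)) (.cons (.rf (nat_lit 5126) (nat_lit 493858305440582043680)) (.cons (.br (nat_lit 2) (nat_lit 0) (.cons (.rf (nat_lit 5122) (nat_lit 493858305440582043680)) (.cons (.rf (nat_lit 5124) (nat_lit 493858305440582043680)) (.cons (.rf (nat_lit 5125) (nat_lit 493858305440582043680)) (.cons (.rf (nat_lit 5126) (nat_lit 493858305440582043680)) .nil))))) .nil)))))) .nil))))),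
 (.br (nat_lit 11) (nat_lit 1) (.cons (.rf (nat_lit 5087) (nat_lit 493858305440582043680)) (.cons (.rf (nat_lit 5096) (nat_lit 493858305440582043680)) (.cons (.rf (nat_lit 5119) (nat_lit 493858305440582043680)) (.cons (.rf (nat_lit 5127) (nat_lit 493858305440582043680)) (.cons (.br (nat_lit 11) (nat_lit 1) (.cons (.rf (nat_lit 5087) (nat_lit 493858305440582043680)) (.cons (.rf (nat_lit 5096) (nat_lit 493858305440582043680)) (.cons (.rf (nat_lit 5119) (nat_lit 493858305440582043680)) (.cons (.rf (nat_lit 5127) (nat_lit 493858305440582043680)) .nil))))) .nil)))))),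
 (.br (nat_lit 12) (nat_lit 0) (.cons (.rf (nat_lit 5025) (nat_lit 458079526298789742624)) (.cons (.rf (nat_lit 5059) (nat_lit 458009550086699354144)) (.cons (.rf (nat_lit 5128) (nat_lit 493670240576948503616)) .nil)))),
 (.br (nat_lit 6) (nat_lit 1) (.cons (.rf (nat_lit 4920) (nat_lit 458046633314295678016)) (.cons (.br (nat_lit 2) (nat_lit 0) (.cons (.br (nat_lit 2) (nat_lit 0) (.cons (.kr (nat_lit 20282409603651670423947251286272) (nat_lit 4295032832) (nat_lit 1) (nat_lit 0)) (.cons (.rf (nat_lit 5129) (nat_lit 493858305440582043680)) .nil))) (.cons (.br (nat_lit 2) (nat_lit 0) (.cons (.kr (nat_lit 20282409603651670423947251286272) (nat_lit 4295032832) (nat_lit 1) (nat_lit 0)) (.cons (.rf (nat_lit 5129) (nat_lit 493858305440582043680)) .nil))) (.cons (.rf (nat_lit 5129) (nat_lit 493858305440582043680)) .nil)))) (.cons (.br (nat_lit 2) (nat_lit 0) (.cons (.br (nat_lit 2) (nat_lit 0) (.cons (.kr (nat_lit 20282409603651670423947251286272) (nat_lit 4295032832) (nat_lit 1) (nat_lit 0)) (.cons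 (.rf (nat_lit 4951) (nat_lit 458079526298789742624)) .nil))) (.cons (.br (nat_lit 2) (nat_lit 0) (.cons (.kr (nat_lit 20282409603651670423947251286272) (nat_lit 4295032832) (nat_lit 1) (nat_lit 0)) (.cons (.rf (nat_lit 4951) (nat_lit 458079526298789742624)) .nil))) (.cons (.rf (nat_lit 4951) (nat_lit 458079526298789742624)) .nil)))) .nil)))),
 (.br (nat_lit 12) (nat_lit 0) (.cons (.rf (nat_lit 5128) (nat_lit 493857210323783844928)) (.cons (.rf (nat_lit 4951) (nat_lit 458009550086699354144)) .nil))),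
 (.br (nat_lit 7) (nat_lit 0) (.cons (.rf (nat_lit 5130) (nat_lit 493858305440582043680)) (.cons (.br (nat_lit 2) (nat_lit 0) (.cons (.rf (nat_lit 5131) (nat_lit 493858305440582043680)) (.cons (.rf (nat_lit 5131) (nat_lit 493675700753833166880)) .nil))) (.cons (.rf (nat_lit 5130) (nat_lit 493675700753833166880)) .nil)))),
 (.br (nat_lit 11) (nat_lit 1) (.cons (.rf (nat_lit 4920) (nat_lit 493565395547242988608)) (.cons (.rf (nat_lit 4920) (nat_lit 457824828835778364480)) (.cons (.rf (nat_lit 5128) (nat_lit 493670240576948503616)) .nil)))),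
 (.br (nat_lit 2) (nat_lit 0) (.cons (.rf (nat_lit 5133) (nat_lit 493675700753833166880)) (.cons (.ev (nat_lit 20282410817318303265524092567553) (nat_lit 1)) (.cons (.rf (nat_lit 5133) (nat_lit 493858305440582043680)) .nil)))),
 (.br (nat_lit 10) (nat_lit 1) (.cons (.rf (nat_lit 5041) (nat_lit 14242783571137890336)) .nil)),
 (.br (nat_lit 10) (nat_lit 1) (.cons (.rf (nat_lit 5135) (nat_lit 14242959524133701664)) (.cons (.rf (nat_lit 5135) (nat_lit 13126032593206346816)) .nil))),
 (.br (nat_lit 2) (nat_lit 0) (.cons (.rf (nat_lit 5133) (nat_lit 493675700753833166880)) (.cons (.rf (nat_lit 5136) (nat_lit 15427442545449338912)) (.cons (.rf (nat_lit 5133) (nat_lit 493858305440582043680)) .nil)))),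
 (.br (nat_lit 9) (nat_lit 1) (.cons (.rf (nat_lit 3419) (nat_lit 493675700753833166880)) (.cons (.rf (nat_lit 4920) (nat_lit 493675700753833166880)) (.cons (.rf (nat_lit 4920) (nat_lit 457935134042368542752)) (.cons (.br (nat_lit 4) (nat_lit 1) (.cons (.rf (nat_lit 5075) (nat_lit 458009550086699353152)) (.cons (.br (nat_lit 7) (nat_lit 0) (.cons (.rf (nat_lit 5130) (nat_lit 493858305440582043680)) (.cons (.rf (nat_lit 5132) (nat_lit 493858305440582043680)) (.cons (.rf (nat_lit 5132) (nat_lit 493675700753833166880)) (.cons (.rf (nat_lit 5130) (nat_lit 493675700753833166880)) .nil))))) (.cons (.br (nat_lit 2) (nat_lit 0) (.cons (.rf (nat_lit 5133) (nat_lit 493675700753833166880)) (.cons (.rf (nat_lit 5134) (nat_lit 493858305440582043680)) (.cons (.rf (nat_lit 5134) (nat_lit 493675700753833166880)) (.cons (.rf (nat_lit 5133) (nat_lit 493858305440582043680)) .nil))))) (.cons (.br (nat_lit 2) (nat_lit 0) (.cons (.rf (nat_lit 5133) (nat_lit 493675700753833166880)) (.cons (.rf (nat_lit 5137) (nat_lit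 493858305440582043680)) (.cons (.rf (nat_lit 5137) (nat_lit 493675700753833166880)) (.cons (.rf (nat_lit 5133) (nat_lit 493858305440582043680)) .nil))))) .nil))))) .nil))))),
 (.br (nat_lit 6) (nat_lit 1) (.cons (.rf (nat_lit 4920) (nat_lit 458046633314295679008)) (.cons (.rf (nat_lit 4920) (nat_lit 458046633314295678016)) (.cons (.br (nat_lit 11) (nat_lit 1) (.cons (.rf (nat_lit 5129) (nat_lit 493858305440582042688)) (.cons (.rf (nat_lit 5129) (nat_lit 493858305440582043680)) (.cons (.br (nat_lit 11) (nat_lit 1) (.cons (.rf (nat_lit 4920) (nat_lit 457824828835778365472)) (.cons (.rf (nat_lit 4920) (nat_lit 457824828835778364480)) (.cons (.kr (nat_lit 72057598332895232) (nat_lit 79228162514264338693055578112) (nat_lit 4) (nat_lit 0)) .nil)))) (.cons (.br (nat_lit 11) (nat_lit 1) (.cons (.rf (nat_lit 5128) (nat_lit 493670240576948504608)) (.cons (.rf (nat_lit 5128) (nat_lit 493670240576948503616)) (.cons (.kr (nat_lit 72057598332895232) (nat_lit 79228162514264338693055578112) (nat_lit 4) (nat_lit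 0)) .nil)))) .nil))))) (.cons (.br (nat_lit 11) (nat_lit 1) (.cons (.rf (nat_lit 4951) (nat_lit 458079526298789741632)) (.cons (.rf (nat_lit 4951) (nat_lit 458079526298789742624)) (.cons (.br (nat_lit 11) (nat_lit 1) (.cons (.rf (nat_lit 4920) (nat_lit 493565395547242989600)) (.cons (.rf (nat_lit 4920) (nat_lit 493565395547242988608)) (.cons (.kr (nat_lit 72057598332895232) (nat_lit 79228162514264338693055578112) (nat_lit 4) (nat_lit 0)) .nil)))) (.cons (.br (nat_lit 11) (nat_lit 1) (.cons (.rf (nat_lit 4920) (nat_lit 457824828835778365472)) (.cons (.rf (nat_lit 4920) (nat_lit 457824828835778364480)) (.cons (.kr (nat_lit 72057598332895232) (nat_lit 79228162514264338693055578112) (nat_lit 4) (nat_lit 0)) .nil)))) .nil))))) .nil)))))]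

theorem c196 : chkAll C T R L196 (nat_lit 5117) = true := by decide +kernel

theorem l196 : (nat_lit 5117) + L196.length = (nat_lit 5140) := by decide +kernel

/-- part of the certificates -/
def L197 : List Prf := [(.br (nat_lit 7) (nat_lit 0) (.cons (.rf (nat_lit 5139) (nat_lit 493858305440582043680)) (.cons (.br (nat_lit 1) (nat_lit 0) (.cons (.rf (nat_lit 5131) (nat_lit 493858305440582042688)) (.cons (.rf (nat_lit 5131) (nat_lit 493675700753833165888)) .nil))) (.cons (.rf (nat_lit 5139) (nat_lit 493675700753833166880)) .nil)))),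
 (.br (nat_lit 2) (nat_lit 0) (.cons (.ev (nat_lit 20441794383709663982064029073410) (nat_lit 2)) (.cons (.ev (nat_lit 79538861190718524234815045633) (nat_lit 1)) .nil))),
 (.br (nat_lit 6) (nat_lit 1) (.cons (.rf (nat_lit 4920) (nat_lit 493787200025760303136)) (.cons (.rf (nat_lit 4920) (nat_lit 493787200025760302144)) (.cons (.br (nat_lit 1) (nat_lit 0) (.cons (.br (nat_lit 5) (nat_lit 0) (.cons (.ev (nat_lit 18518802767275884801) (nat_lit 1)) (.cons (.br (nat_lit 11) (nat_lit 1) (.cons (.rf (nat_lit 4920) (nat_lit 493565395547242988608)) (.cons (.rf (nat_lit 5141) (nat_lit 493858305440582043680)) .nil))) .nil))) (.cons (.br (nat_lit 5) (nat_lit 0) (.cons (.br (nat_lit 2) (nat_lit 0) (.cons (.br (nat_lit 11) (nat_lit 1) (.cons (.ev (nat_lit 310693935713298771209093121) (nat_lit 1)) .nil)) .nil)) (.cons (.br (nat_lit 11) (nat_lit 1) (.cons (.ev (nat_lit 309485009893402662779552001) (nat_lit 1)) (.cons (.ev (nat_lit 79537647524085682662268731649) (nat_lit 1)) .nil))) .nil))) (.cons (.br (nat_lit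 12) (nat_lit 0) (.cons (.rf (nat_lit 5025) (nat_lit 458079526298789741632)) (.cons (.rf (nat_lit 5059) (nat_lit 458009550086699353152)) (.cons (.rf (nat_lit 5128) (nat_lit 493670240576948504608)) .nil)))) .nil)))) (.cons (.br (nat_lit 2) (nat_lit 0) (.cons (.ev (nat_lit 79228162514264619068520726529) (nat_lit 1)) (.cons (.br (nat_lit 5) (nat_lit 0) (.cons (.rf (nat_lit 4995) (nat_lit 458079526298789742624)) (.cons (.rf (nat_lit 5141) (nat_lit 493675700753833165888)) .nil))) (.cons (.rf (nat_lit 4951) (nat_lit 458079526298789742624)) .nil)))) .nil))))),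
 (.br (nat_lit 5) (nat_lit 0) (.cons (.rf (nat_lit 5142) (nat_lit 493858305440582043680)) (.cons (.br (nat_lit 12) (nat_lit 0) (.cons (.rf (nat_lit 5007) (nat_lit 458079526298789742624)) (.cons (.rf (nat_lit 5007) (nat_lit 458009550086699354144)) .nil))) (.cons (.rf (nat_lit 5142) (nat_lit 493675700753833165888)) .nil)))),
 (.br (nat_lit 11) (nat_lit 1) (.cons (.rf (nat_lit 3419) (nat_lit 493565395547242989600)) (.cons (.rf (nat_lit 4920) (nat_lit 493565395547242989600)) (.cons (.rf (nat_lit 4920) (nat_lit 457824828835778365472)) .nil)))),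
 (.br (nat_lit 6) (nat_lit 1) (.cons (.rf (nat_lit 4920) (nat_lit 493787200025760303136)) (.cons (.rf (nat_lit 4920) (nat_lit 493787200025760302144)) (.cons (.br (nat_lit 1) (nat_lit 0) (.cons (.rf (nat_lit 716) (nat_lit 493858199822034634784)) (.cons (.rf (nat_lit 716) (nat_lit 493675982158009829408)) .nil))) .nil)))),
 (.br (nat_lit 11) (nat_lit 1) (.cons (.rf (nat_lit 4920) (nat_lit 493565395547242989600)) (.cons (.rf (nat_lit 4920) (nat_lit 493565395547242988608)) (.cons (.br (nat_lit 6) (nat_lit 1) (.cons (.rf (nat_lit 5144) (nat_lit 493675700753833166880)) (.cons (.rf (nat_lit 5144) (nat_lit 493675700753833165888)) (.cons (.rf (nat_lit 5145) (nat_lit 493858305440582043680)) (.cons (.br (nat_lit 6) (nat_lit 1) (.cons (.rf (nat_lit 4920) (nat_lit 458046633314295679008)) (.cons (.rf (nat_lit 4920) (nat_lit 458046633314295678016)) (.cons (.rf (nat_lit 5145) (nat_lit 493858305440582043680)) .nil)))) .nil))))) .nil)))),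
 (.br (nat_lit 9) (nat_lit 1) (.cons (.rf (nat_lit 3419) (nat_lit 493675700753833166880)) (.cons (.rf (nat_lit 4920) (nat_lit 493675700753833165888)) (.cons (.rf (nat_lit 4920) (nat_lit 457935134042368541760)) (.cons (.br (nat_lit 4) (nat_lit 1) (.cons (.rf (nat_lit 5075) (nat_lit 458009550086699354144)) (.cons (.rf (nat_lit 5075) (nat_lit 458009550086699353152)) (.cons (.br (nat_lit 7) (nat_lit 0) (.cons (.rf (nat_lit 5139) (nat_lit 493858305440582043680)) (.cons (.rf (nat_lit 5140) (nat_lit 493858305440582043680)) (.cons (.rf (nat_lit 5140) (nat_lit 493675700753833165888)) (.cons (.rf (nat_lit 5139) (nat_lit 493675700753833166880)) .nil))))) (.cons (.br (nat_lit 5) (nat_lit 0) (.cons (.rf (nat_lit 5142) (nat_lit 493858305440582043680)) (.cons (.rf (nat_lit 5143) (nat_lit 493858305440582043680)) (.cons (.rf (nat_lit 5143) (nat_lit 493675700753833165888)) (.cons (.rf (nat_lit 5142) (nat_lit 493675700753833165888)) .nil))))) (.cons (.br (nat_lit 11) (nat_lit 1) (.cons (.rf (nat_lit 5144) (nat_lit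 493858305440582043680)) (.cons (.rf (nat_lit 5144) (nat_lit 493858305440582042688)) (.cons (.rf (nat_lit 5146) (nat_lit 493858305440582043680)) (.cons (.br (nat_lit 11) (nat_lit 1) (.cons (.rf (nat_lit 4920) (nat_lit 457824828835778365472)) (.cons (.rf (nat_lit 4920) (nat_lit 457824828835778364480)) (.cons (.rf (nat_lit 5146) (nat_lit 493858305440582043680)) .nil)))) .nil))))) .nil)))))) .nil))))),
 (.br (nat_lit 6) (nat_lit 1) (.cons (.rf (nat_lit 3419) (nat_lit 493787200025760303136)) (.cons (.rf (nat_lit 4920) (nat_lit 493787200025760302144)) (.cons (.rf (nat_lit 4920) (nat_lit 458046633314295678016)) (.cons (.rf (nat_lit 5128) (nat_lit 493857210323783844928)) .nil))))),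
 (.br (nat_lit 11) (nat_lit 1) (.cons (.rf (nat_lit 4920) (nat_lit 457824828835778365472)) (.cons (.rf (nat_lit 4920) (nat_lit 457824828835778364480)) (.cons (.br (nat_lit 4) (nat_lit 1) (.cons (.rf (nat_lit 5148) (nat_lit 458005178423107159104)) (.cons (.rf (nat_lit 5148) (nat_lit 458005178423107160096)) .nil))) .nil)))),
 (.br (nat_lit 11) (nat_lit 1) (.cons (.rf (nat_lit 4920) (nat_lit 493565395547242989600)) (.cons (.rf (nat_lit 4920) (nat_lit 493565395547242988608)) (.cons (.br (nat_lit 8) (nat_lit 1) (.cons (.rf (nat_lit 5148) (nat_lit 457857653653768569920)) (.cons (.rf (nat_lit 5148) (nat_lit 457857653653768570912)) .nil))) .nil)))),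
 (.br (nat_lit 6) (nat_lit 1) (.cons (.rf (nat_lit 5148) (nat_lit 493858305440582042688)) (.cons (.rf (nat_lit 5148) (nat_lit 493858305440582043680)) (.cons (.br (nat_lit 11) (nat_lit 1) (.cons (.rf (nat_lit 5148) (nat_lit 493675700753833165888)) (.cons (.rf (nat_lit 5148) (nat_lit 493675700753833166880)) (.cons (.rf (nat_lit 5149) (nat_lit 493858305440582043680)) (.cons (.br (nat_lit 11) (nat_lit 1) (.cons (.rf (nat_lit 5148) (nat_lit 493675700753833165888)) (.cons (.rf (nat_lit 5148) (nat_lit 493675700753833166880)) (.cons (.rf (nat_lit 5149) (nat_lit 493858305440582043680)) .nil)))) .nil))))) (.cons (.br (nat_lit 11) (nat_lit 1) (.cons (.rf (nat_lit 5148) (nat_lit 493675700753833165888)) (.cons (.rf (nat_lit 5148) (nat_lit 493675700753833166880)) (.cons (.rf (nat_lit 5150) (nat_lit 493858305440582043680)) (.cons (.br (nat_lit 11) (nat_lit 1) (.cons (.rf (nat_lit 5148) (nat_lit 493675700753833165888)) (.cons (.rf (nat_lit 5148) (nat_lit 493675700753833166880)) (.cons (.rf (nat_lit 5150) (nat_lit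 493858305440582043680)) .nil)))) .nil))))) .nil))))),
 (.br (nat_lit 6) (nat_lit 1) (.cons (.rf (nat_lit 4920) (nat_lit 493787200025760303136)) (.cons (.rf (nat_lit 4920) (nat_lit 493787200025760302144)) (.cons (.br (nat_lit 11) (nat_lit 1) (.cons (.rf (nat_lit 5148) (nat_lit 493675700753833165888)) (.cons (.rf (nat_lit 5148) (nat_lit 493675700753833166880)) (.cons (.br (nat_lit 11) (nat_lit 1) (.cons (.rf (nat_lit 5148) (nat_lit 493675700753833165888)) (.cons (.rf (nat_lit 5148) (nat_lit 493675700753833166880)) .nil))) .nil)))) (.cons (.rf (nat_lit 5151) (nat_lit 493858305440582043680)) .nil))))),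
 (.br (nat_lit 6) (nat_lit 1) (.cons (.rf (nat_lit 5148) (nat_lit 493858305440582042688)) (.cons (.rf (nat_lit 5148) (nat_lit 493858305440582043680)) (.cons (.rf (nat_lit 5152) (nat_lit 493858305440582043680)) (.cons (.br (nat_lit 6) (nat_lit 1) (.cons (.rf (nat_lit 4920) (nat_lit 458046633314295679008)) (.cons (.rf (nat_lit 4920) (nat_lit 458046633314295678016)) (.cons (.rf (nat_lit 5152) (nat_lit 493858305440582043680)) (.cons (.rf (nat_lit 5151) (nat_lit 493858305440582043680)) .nil))))) (.cons (.rf (nat_lit 5151) (nat_lit 493858305440582043680)) .nil)))))),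
 (.br (nat_lit 1) (nat_lit 0) (.cons (.rf (nat_lit 5075) (nat_lit 458009550086699354144)) (.cons (.rf (nat_lit 5148) (nat_lit 493858305440582042688)) (.cons (.br (nat_lit 2) (nat_lit 0) (.cons (.rf (nat_lit 5075) (nat_lit 458009550086699353152)) (.cons (.rf (nat_lit 5148) (nat_lit 493858305440582043680)) (.cons (.rf (nat_lit 5148) (nat_lit 493675700753833166880)) .nil)))) (.cons (.rf (nat_lit 5148) (nat_lit 493675700753833165888)) .nil))))),
 (.br (nat_lit 9) (nat_lit 1) (.cons (.rf (nat_lit 4920) (nat_lit 493675700753833166880)) (.cons (.rf (nat_lit 4920) (nat_lit 493675700753833165888)) (.cons (.rf (nat_lit 5153) (nat_lit 493858305440582043680)) (.cons (.br (nat_lit 2) (nat_lit 0) (.cons (.rf (nat_lit 5075) (nat_lit 458009550086699353152)) (.cons (.rf (nat_lit 5148) (nat_lit 493858305440582043680)) (.cons (.rf (nat_lit 5154) (nat_lit 493858305440582043680)) (.cons (.br (nat_lit 2) (nat_lit 0) (.cons (.rf (nat_lit 5075) (nat_lit 458009550086699353152)) (.cons (.rf (nat_lit 5148) (nat_lit 493858305440582043680))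 (.cons (.rf (nat_lit 5154) (nat_lit 493858305440582043680)) (.cons (.rf (nat_lit 5148) (nat_lit 493675700753833166880)) .nil))))) (.cons (.rf (nat_lit 5148) (nat_lit 493675700753833166880)) .nil)))))) .nil))))),
 (.br (nat_lit 2) (nat_lit 0) (.cons (.rf (nat_lit 5075) (nat_lit 458009550086699353152)) (.cons (.rf (nat_lit 5148) (nat_lit 493858305440582043680)) (.cons (.br (nat_lit 1) (nat_lit 0) (.cons (.ev (nat_lit 20282410817318303265524092567553) (nat_lit 1)) (.cons (.rf (nat_lit 5148) (nat_lit 493858305440582042688)) (.cons (.rf (nat_lit 5148) (nat_lit 493675700753833165888)) .nil)))) (.cons (.rf (nat_lit 5148) (nat_lit 493675700753833166880)) .nil))))),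
 (.br (nat_lit 9) (nat_lit 1) (.cons (.rf (nat_lit 4920) (nat_lit 457935134042368542752)) (.cons (.rf (nat_lit 4920) (nat_lit 457935134042368541760)) (.cons (.rf (nat_lit 5153) (nat_lit 493858305440582043680)) (.cons (.br (nat_lit 2) (nat_lit 0) (.cons (.rf (nat_lit 5075) (nat_lit 458009550086699353152)) (.cons (.rf (nat_lit 5148) (nat_lit 493858305440582043680)) (.cons (.rf (nat_lit 5156) (nat_lit 493858305440582043680)) (.cons (.br (nat_lit 2) (nat_lit 0) (.cons (.rf (nat_lit 5075) (nat_lit 458009550086699353152)) (.cons (.rf (nat_lit 5148) (nat_lit 493858305440582043680)) (.cons (.rf (nat_lit 5156) (nat_lit 493858305440582043680)) (.cons (.rf (nat_lit 5148) (nat_lit 493675700753833166880)) .nil))))) (.cons (.rf (nat_lit 5148) (nat_lit 493675700753833166880)) .nil)))))) .nil))))),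
 (.br (nat_lit 10) (nat_lit 1) (.cons (.rf (nat_lit 3419) (nat_lit 493563215216757770272)) (.cons (.rf (nat_lit 4920) (nat_lit 493563215216757770272)) (.cons (.rf (nat_lit 4920) (nat_lit 457822648505293146144)) (.cons (.rf (nat_lit 5075) (nat_lit 493563215216757770272)) .nil))))),
 (.br (nat_lit 12) (nat_lit 0) (.cons (.ev (nat_lit 20361948460101647779936556024065) (nat_lit 1)) (.cons (.br (nat_lit 4) (nat_lit 1) (.cons (.ev (nat_lit 20837009178030024970542206353668) (nat_lit 3)) .nil)) .nil))),
 (.br (nat_lit 6) (nat_lit 1) (.cons (.rf (nat_lit 3419) (nat_lit 493787200025760303136)) (.cons (.br (nat_lit 11) (nat_lit 1) (.cons (.rf (nat_lit 5159) (nat_lit 493858305440582043680)) (.cons (.rf (nat_lit 5159) (nat_lit 493857210323783844928)) (.cons (.ev (nat_lit 20282719088661564108085007482881) (nat_lit 1)) .nil)))) .nil))),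
 (.br (nat_lit 6) (nat_lit 1) (.cons (.rf (nat_lit 3419) (nat_lit 493787200025760303136)) (.cons (.br (nat_lit 11) (nat_lit 1) (.cons (.br (nat_lit 8) (nat_lit 1) (.cons (.ev (nat_lit 79537647542604485433822871553) (nat_lit 1)) .nil)) .nil)) .nil))),
 (.br (nat_lit 6) (nat_lit 1) (.cons (.rf (nat_lit 3419) (nat_lit 493787200025760303136)) (.cons (.br (nat_lit 1) (nat_lit 0) (.cons (.br (nat_lit 2) (nat_lit 0) (.cons (.ev (nat_lit 20837011586400037745922435778308) (nat_lit 3)) .nil)) (.cons (.br (nat_lit 2) (nat_lit 0) (.cons (.ev (nat_lit 20838866069272841735817127986948) (nat_lit 3)) .nil)) .nil))) .nil))),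
 (.br (nat_lit 9) (nat_lit 1) (.cons (.rf (nat_lit 4920) (nat_lit 493675700753833166880)) (.cons (.rf (nat_lit 4920) (nat_lit 493675700753833165888)) (.cons (.br (nat_lit 6) (nat_lit 1) (.cons (.br (nat_lit 6) (nat_lit 1) (.cons (.rf (nat_lit 3419) (nat_lit 493787200025760303136)) (.cons (.rf (nat_lit 4926) (nat_lit 493678164756169590816)) .nil))) (.cons (.rf (nat_lit 5160) (nat_lit 493858305440582043680)) (.cons (.br (nat_lit 6) (nat_lit 1) (.cons (.rf (nat_lit 4926) (nat_lit 493678164756169590816)) (.cons (.rf (nat_lit 5160) (nat_lit 493858305440582043680)) .nil))) .nil)))) (.cons (.br (nat_lit 4) (nat_lit 1) (.cons (.rf (nat_lit 5075) (nat_lit 458009550086699354144)) (.cons (.rf (nat_lit 5075) (nat_lit 458009550086699353152)) (.cons (.br (nat_lit 6) (nat_lit 1) (.cons (.rf (nat_lit 5161) (nat_lit 493858305440582043680)) (.cons (.rf (nat_lit 5162) (nat_lit 493858305440582043680)) (.cons (.br (nat_lit 6) (nat_lit 1) (.cons (.rf (nat_lit 5161) (nat_lit 493858305440582043680)) (.cons (.rf (nat_lit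 5162) (nat_lit 493858305440582043680)) .nil))) .nil)))) (.cons (.br (nat_lit 6) (nat_lit 1) (.cons (.rf (nat_lit 4908) (nat_lit 493563215216757770272)) (.cons (.rf (nat_lit 4908) (nat_lit 493563215216757769280)) (.cons (.br (nat_lit 6) (nat_lit 1) (.cons (.rf (nat_lit 4920) (nat_lit 458046633314295679008)) (.cons (.ev (nat_lit 79229376162450717671163953153) (nat_lit 1)) .nil))) .nil)))) .nil))))) .nil))))),
 (.br (nat_lit 6) (nat_lit 1) (.cons (.rf (nat_lit 2680) (nat_lit 14315020345910954016)) (.cons (.ev (nat_lit 1213648258436567851335681) (nat_lit 1)) .nil))),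
 (.br (nat_lit 2) (nat_lit 0) (.cons (.rf (nat_lit 5164) (nat_lit 493858305440582043680)) (.cons (.br (nat_lit 6) (nat_lit 1) (.cons (.zr (nat_lit 40564819207303484964182090056448) (nat_lit 310693954087703775937560577) (nat_lit 5) (nat_lit 0)) (.cons (.zr (nat_lit 237684487542793017178678558720) (nat_lit 20282720297605830185317226774529) (nat_lit 5) (nat_lit 0)) .nil))) .nil)))]

theorem c197 : chkAll C T R L197 (nat_lit 5140) = true := by decide +kernel

theorem l197 : (nat_lit 5140) + L197.length = (nat_lit 5166) := by decide +kernel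

/-- part of the certificates -/
def L198 : List Prf := [(.br (nat_lit 9) (nat_lit 1) (.cons (.rf (nat_lit 4920) (nat_lit 457935134042368542752)) (.cons (.rf (nat_lit 4920) (nat_lit 457935134042368541760)) (.cons (.rf (nat_lit 5163) (nat_lit 493858305440582043680)) (.cons (.br (nat_lit 4) (nat_lit 1) (.cons (.rf (nat_lit 5075) (nat_lit 458009550086699354144)) (.cons (.rf (nat_lit 5075) (nat_lit 458009550086699353152)) (.cons (.br (nat_lit 2) (nat_lit 0) (.cons (.rf (nat_lit 5164) (nat_lit 493858305440582043680)) (.cons (.rf (nat_lit 5165) (nat_lit 493858305440582043680)) (.cons (.br (nat_lit 2) (nat_lit 0) (.cons (.rf (nat_lit 5164) (nat_lit 493858305440582043680)) (.cons (.rf (nat_lit 5165) (nat_lit 493858305440582043680)) .nil))) .nil)))) (.cons (.br (nat_lit 6) (nat_lit 1) (.cons (.rf (nat_lit 4908) (nat_lit 493563215216757770272)) (.cons (.rf (nat_lit 4908) (nat_lit 493563215216757769280)) (.cons (.br (nat_lit 6) (nat_lit 1) (.cons (.rf (nat_lit 4920) (nat_lit 493787200025760303136)) (.cons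 (.rf (nat_lit 4920) (nat_lit 493787200025760302144)) .nil))) .nil)))) .nil))))) .nil))))),
 (.br (nat_lit 6) (nat_lit 1) (.cons (.rf (nat_lit 3419) (nat_lit 493787200025760303136)) (.cons (.rf (nat_lit 4920) (nat_lit 493787200025760303136)) (.cons (.rf (nat_lit 4920) (nat_lit 458046633314295679008)) (.cons (.br (nat_lit 10) (nat_lit 1) (.cons (.rf (nat_lit 5158) (nat_lit 493858305440582043680)) (.cons (.rf (nat_lit 5158) (nat_lit 493858305440582042688)) (.cons (.rf (nat_lit 5163) (nat_lit 493857210323783845920)) (.cons (.rf (nat_lit 5166) (nat_lit 493857210323783845920)) (.cons (.br (nat_lit 10) (nat_lit 1) (.cons (.rf (nat_lit 5075) (nat_lit 493563215216757770272)) (.cons (.rf (nat_lit 5075) (nat_lit 493563215216757769280)) (.cons (.rf (nat_lit 5163) (nat_lit 493857210323783845920)) (.cons (.rf (nat_lit 5166) (nat_lit 493857210323783845920)) .nil))))) .nil)))))) .nil))))),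
 (.br (nat_lit 6) (nat_lit 1) (.cons (.rf (nat_lit 4920) (nat_lit 458046633314295679008)) (.cons (.rf (nat_lit 4920) (nat_lit 458046633314295678016)) (.cons (.br (nat_lit 8) (nat_lit 1) (.cons (.rf (nat_lit 5075) (nat_lit 457864203446677407776)) (.cons (.rf (nat_lit 5075) (nat_lit 457864203446677406784)) .nil))) .nil)))),
 (.br (nat_lit 9) (nat_lit 1) (.cons (.rf (nat_lit 4920) (nat_lit 493675700753833166880)) (.cons (.rf (nat_lit 4920) (nat_lit 493675700753833165888)) (.cons (.br (nat_lit 6) (nat_lit 1) (.cons (.rf (nat_lit 5167) (nat_lit 493858305440582043680)) (.cons (.rf (nat_lit 5167) (nat_lit 493858305440582042688)) (.cons (.rf (nat_lit 5168) (nat_lit 493858305440582043680)) (.cons (.br (nat_lit 6) (nat_lit 1) (.cons (.rf (nat_lit 5167) (nat_lit 493858305440582043680)) (.cons (.rf (nat_lit 5167) (nat_lit 493858305440582042688)) (.cons (.rf (nat_lit 5168) (nat_lit 493858305440582043680)) .nil)))) .nil))))) (.cons (.br (nat_lit 6) (nat_lit 1) (.cons (.rf (nat_lit 5023) (nat_lit 493563215216757769280))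 (.cons (.rf (nat_lit 5023) (nat_lit 493563215216757770272)) (.cons (.rf (nat_lit 5034) (nat_lit 458009550086699354144)) .nil)))) .nil))))),
 (.br (nat_lit 9) (nat_lit 1) (.cons (.rf (nat_lit 4920) (nat_lit 457935134042368542752)) (.cons (.rf (nat_lit 4920) (nat_lit 457935134042368541760)) (.cons (.rf (nat_lit 5169) (nat_lit 493858305440582043680)) (.cons (.br (nat_lit 11) (nat_lit 1) (.cons (.rf (nat_lit 5075) (nat_lit 457824828835778365472)) (.cons (.rf (nat_lit 5075) (nat_lit 457824828835778364480)) (.cons (.rf (nat_lit 5037) (nat_lit 458009550086699354144)) (.cons (.rf (nat_lit 5030) (nat_lit 493563215216757770272)) .nil))))) .nil))))),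
 (.br (nat_lit 9) (nat_lit 1) (.cons (.rf (nat_lit 5158) (nat_lit 493857210323783845920)) (.cons (.rf (nat_lit 5158) (nat_lit 493857210323783844928)) (.cons (.rf (nat_lit 5169) (nat_lit 493858305440582043680)) (.cons (.rf (nat_lit 5170) (nat_lit 493858305440582043680)) (.cons (.br (nat_lit 9) (nat_lit 1) (.cons (.rf (nat_lit 5075) (nat_lit 493675700753833166880)) (.cons (.rf (nat_lit 5075) (nat_lit 493675700753833165888)) (.cons (.rf (nat_lit 5169) (nat_lit 493858305440582043680)) (.cons (.rf (nat_lit 5170) (nat_lit 493858305440582043680)) .nil))))) .nil)))))),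
 (.br (nat_lit 10) (nat_lit 1) (.cons (.rf (nat_lit 4920) (nat_lit 493563215216757770272)) (.cons (.rf (nat_lit 4920) (nat_lit 493563215216757769280)) (.cons (.rf (nat_lit 5167) (nat_lit 493857210323783845920)) (.cons (.rf (nat_lit 5171) (nat_lit 493858305440582043680)) .nil))))),
 (.br (nat_lit 6) (nat_lit 1) (.cons (.rf (nat_lit 4920) (nat_lit 493787200025760303136)) (.cons (.rf (nat_lit 4920) (nat_lit 493787200025760302144)) (.cons (.br (nat_lit 8) (nat_lit 1) (.cons (.rf (nat_lit 5075) (nat_lit 457864203446677407776)) (.cons (.rf (nat_lit 5075) (nat_lit 457864203446677406784)) .nil))) .nil)))),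
 (.br (nat_lit 4) (nat_lit 1) (.cons (.rf (nat_lit 5075) (nat_lit 458009550086699354144)) (.cons (.rf (nat_lit 5075) (nat_lit 458009550086699353152)) (.cons (.kr (nat_lit 1208925819614633469673472) (nat_lit 20361637766165934761540795236352) (nat_lit 4) (nat_lit 0)) (.cons (.rf (nat_lit 5171) (nat_lit 458038990606830929952)) .nil))))),
 (.br (nat_lit 9) (nat_lit 1) (.cons (.rf (nat_lit 4920) (nat_lit 493675700753833166880)) (.cons (.rf (nat_lit 4920) (nat_lit 493675700753833165888)) (.cons (.br (nat_lit 6) (nat_lit 1) (.cons (.rf (nat_lit 5167) (nat_lit 493858305440582043680)) (.cons (.rf (nat_lit 5167) (nat_lit 493858305440582042688)) (.cons (.rf (nat_lit 5173) (nat_lit 493858305440582043680)) (.cons (.br (nat_lit 6) (nat_lit 1) (.cons (.rf (nat_lit 5167) (nat_lit 493858305440582043680)) (.cons (.rf (nat_lit 5167) (nat_lit 493858305440582042688)) (.cons (.rf (nat_lit 5173) (nat_lit 493858305440582043680)) .nil)))) .nil))))) (.cons (.rf (nat_lit 5174) (nat_lit 493858305440582043680)) .nil))))),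
 (.br (nat_lit 9) (nat_lit 1) (.cons (.rf (nat_lit 5158) (nat_lit 493857210323783845920)) (.cons (.rf (nat_lit 5158) (nat_lit 493857210323783844928)) (.cons (.rf (nat_lit 5175) (nat_lit 493858305440582043680)) (.cons (.br (nat_lit 9) (nat_lit 1) (.cons (.rf (nat_lit 4920) (nat_lit 457935134042368542752)) (.cons (.rf (nat_lit 4920) (nat_lit 457935134042368541760)) (.cons (.rf (nat_lit 5175) (nat_lit 493858305440582043680)) (.cons (.rf (nat_lit 5174) (nat_lit 493858305440582043680)) .nil))))) (.cons (.rf (nat_lit 5174) (nat_lit 493858305440582043680)) .nil)))))),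
 (.br (nat_lit 10) (nat_lit 1) (.cons (.rf (nat_lit 5075) (nat_lit 493563215216757770272)) (.cons (.rf (nat_lit 5075) (nat_lit 493563215216757769280)) (.cons (.rf (nat_lit 5171) (nat_lit 493858305440582043680)) (.cons (.rf (nat_lit 5176) (nat_lit 493858305440582043680)) .nil))))),
 (.br (nat_lit 13) (nat_lit 0) (.cons (.rf (nat_lit 5075) (nat_lit 493858305440582043680)) (.cons (.rf (nat_lit 5148) (nat_lit 493857210323783844928)) (.cons (.br (nat_lit 9) (nat_lit 1) (.cons (.rf (nat_lit 5138) (nat_lit 493858305440582043680)) (.cons (.rf (nat_lit 5147) (nat_lit 493858305440582043680)) (.cons (.rf (nat_lit 5155) (nat_lit 493858305440582043680)) (.cons (.rf (nat_lit 5157) (nat_lit 493858305440582043680)) (.cons (.br (nat_lit 9) (nat_lit 1) (.cons (.rf (nat_lit 5138) (nat_lit 493858305440582043680)) (.cons (.rf (nat_lit 5147) (nat_lit 493858305440582043680)) (.cons (.rf (nat_lit 5155) (nat_lit 493858305440582043680)) (.cons (.rf (nat_lit 5157) (nat_lit 493858305440582043680)) .nil))))) .nil))))))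 (.cons (.br (nat_lit 10) (nat_lit 1) (.cons (.rf (nat_lit 5158) (nat_lit 493858305440582043680)) (.cons (.rf (nat_lit 5158) (nat_lit 493858305440582042688)) (.cons (.rf (nat_lit 5172) (nat_lit 493858305440582043680)) (.cons (.br (nat_lit 10) (nat_lit 1) (.cons (.rf (nat_lit 4920) (nat_lit 457822648505293146144)) (.cons (.rf (nat_lit 4920) (nat_lit 457822648505293145152)) (.cons (.rf (nat_lit 5167) (nat_lit 493857210323783845920)) (.cons (.rf (nat_lit 5177) (nat_lit 493858305440582043680)) .nil))))) (.cons (.rf (nat_lit 5177) (nat_lit 493858305440582043680)) .nil)))))) .nil))))),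
 (.br (nat_lit 7) (nat_lit 0) (.cons (.br (nat_lit 2) (nat_lit 0) (.cons (.br (nat_lit 11) (nat_lit 1) (.cons (.ev (nat_lit 309485009893684137739485441) (nat_lit 1)) .nil)) .nil)) (.cons (.br (nat_lit 11) (nat_lit 1) (.cons (.ev (nat_lit 20282719093383930590954635985153) (nat_lit 1)) (.cons (.ev (nat_lit 309485028268371721217638401) (nat_lit 1)) .nil))) .nil))),
 (.br (nat_lit 7) (nat_lit 0) (.cons (.rf (nat_lit 5179) (nat_lit 493858305440582043680)) (.cons (.br (nat_lit 11) (nat_lit 1) (.cons (.ev (nat_lit 20282720297587383441239205544193) (nat_lit 1)) (.cons (.ev (nat_lit 309485028268371721217638401) (nat_lit 1)) .nil))) .nil))),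
 (.br (nat_lit 11) (nat_lit 1) (.cons (.rf (nat_lit 4920) (nat_lit 493565395547242988608)) (.cons (.rf (nat_lit 4920) (nat_lit 457824828835778364480)) .nil))),
 (.br (nat_lit 2) (nat_lit 0) (.cons (.kr (nat_lit 20282409603651743044491242635520) (nat_lit 79228162514264338693089198080) (nat_lit 1) (nat_lit 0)) .nil)),
 (.br (nat_lit 5) (nat_lit 0) (.cons (.rf (nat_lit 5182) (nat_lit 493858305440582043680)) (.cons (.rf (nat_lit 5182) (nat_lit 493857214725047289888)) .nil))),
 (.br (nat_lit 8) (nat_lit 1) (.cons (.rf (nat_lit 4920) (nat_lit 493604770158142030912)) (.cons (.rf (nat_lit 4920) (nat_lit 457864203446677406784)) (.cons (.br (nat_lit 4) (nat_lit 1) (.cons (.ev (nat_lit 20361637766184381787093793308673) (nat_lit 1)) (.cons (.br (nat_lit 7) (nat_lit 0) (.cons (.rf (nat_lit 5179) (nat_lit 493858305440582043680)) (.cons (.rf (nat_lit 5180) (nat_lit 493858305440582043680)) (.cons (.br (nat_lit 7) (nat_lit 0) (.cons (.rf (nat_lit 5179) (nat_lit 493858305440582043680)) (.cons (.rf (nat_lit 5180)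 (nat_lit 493858305440582043680)) .nil))) .nil)))) (.cons (.br (nat_lit 11) (nat_lit 1) (.cons (.rf (nat_lit 5181) (nat_lit 493858305440582043680)) (.cons (.br (nat_lit 11) (nat_lit 1) (.cons (.rf (nat_lit 4920) (nat_lit 493565395547242988608)) (.cons (.rf (nat_lit 5183) (nat_lit 493858305440582043680)) .nil))) (.cons (.br (nat_lit 11) (nat_lit 1) (.cons (.rf (nat_lit 4920) (nat_lit 457824828835778364480)) (.cons (.rf (nat_lit 5183) (nat_lit 493858305440582043680)) .nil))) .nil)))) .nil)))) .nil)))),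
 (.br (nat_lit 11) (nat_lit 1) (.cons (.rf (nat_lit 4920) (nat_lit 493565395547242988608)) (.cons (.rf (nat_lit 4920) (nat_lit 457824828835778364480)) .nil))),
 (.br (nat_lit 12) (nat_lit 0) (.cons (.br (nat_lit 2) (nat_lit 0) (.cons (.rf (nat_lit 5185) (nat_lit 493858305440582043680)) .nil)) (.cons (.rf (nat_lit 5178) (nat_lit 458005178423107159104)) .nil))),
 (.br (nat_lit 2) (nat_lit 0) (.cons (.rf (nat_lit 5186) (nat_lit 493858305440582043680)) (.cons (.br (nat_lit 7) (nat_lit 0) (.cons (.ev (nat_lit 20282409608374036906816896565249) (nat_lit 1)) (.cons (.rf (nat_lit 4920) (nat_lit 457824828835778364480)) .nil))) .nil))),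
 (.br (nat_lit 12) (nat_lit 0) (.cons (.br (nat_lit 2) (nat_lit 0) (.cons (.rf (nat_lit 5185) (nat_lit 493858305440582043680)) .nil)) (.cons (.rf (nat_lit 5178) (nat_lit 458005178423107159104)) .nil))),
 (.br (nat_lit 12) (nat_lit 0) (.cons (.br (nat_lit 2) (nat_lit 0) (.cons (.br (nat_lit 11) (nat_lit 1) (.cons (.ev (nat_lit 20678557698186400084074856513796) (nat_lit 3)) .nil)) .nil)) (.cons (.rf (nat_lit 5178) (nat_lit 457857653653768569920)) .nil))),
 (.br (nat_lit 11) (nat_lit 1) (.cons (.ev (nat_lit 20361947251175756107709048422401) (nat_lit 1)) (.cons (.br (nat_lit 4) (nat_lit 1) (.cons (.ev (nat_lit 309485028268090246257704961) (nat_lit 1)) (.cons (.kr (nat_lit 18446744078004518912) (nat_lit 20361637766165934761540795236352) (nat_lit 4) (nat_lit 0)) .nil))) .nil))),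
 (.br (nat_lit 8) (nat_lit 1) (.cons (.rf (nat_lit 4920) (nat_lit 493604770158142030912)) (.cons (.br (nat_lit 4) (nat_lit 1) (.cons (.br (nat_lit 12) (nat_lit 0) (.cons (.rf (nat_lit 5075) (nat_lit 458009550086699353152)) (.cons (.br (nat_lit 2) (nat_lit 0) (.cons (.rf (nat_lit 5136) (nat_lit 15429655724923389984)) (.cons (.rf (nat_lit 5185) (nat_lit 493858305440582043680)) .nil))) (.cons (.rf (nat_lit 5148) (nat_lit 458005178423107160096)) .nil)))) (.cons (.br (nat_lit 2) (nat_lit 0) (.cons (.rf (nat_lit 5186) (nat_lit 493858305440582043680)) (.cons (.rf (nat_lit 5187) (nat_lit 493858305440582043680)) (.cons (.br (nat_lit 2) (nat_lit 0) (.cons (.rf (nat_lit 5186) (nat_lit 493858305440582043680)) (.cons (.rf (nat_lit 5187) (nat_lit 493858305440582043680)) .nil))) .nil)))) (.cons (.br (nat_lit 2) (nat_lit 0) (.cons (.rf (nat_lit 5188) (nat_lit 493858305440582043680)) (.cons (.rf (nat_lit 5189) (nat_lit 493858305440582043680)) (.cons (.br (nat_lit 2) (nat_lit 0) (.cons (.rf (nat_lit 5188) (nat_lit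 493858305440582043680)) (.cons (.rf (nat_lit 5189) (nat_lit 493858305440582043680)) .nil))) .nil)))) (.cons (.kr (nat_lit 18446744078021296128) (nat_lit 20361637766165935043015771947008) (nat_lit 3) (nat_lit 0)) .nil))))) (.cons (.br (nat_lit 11) (nat_lit 1) (.cons (.rf (nat_lit 5181) (nat_lit 493858305440582043680)) (.cons (.rf (nat_lit 5190) (nat_lit 493858305440582043680)) (.cons (.br (nat_lit 11) (nat_lit 1) (.cons (.rf (nat_lit 4920) (nat_lit 457824828835778364480)) (.cons (.rf (nat_lit 5190) (nat_lit 493858305440582043680)) .nil))) .nil)))) .nil)))),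
 (.br (nat_lit 8) (nat_lit 1) (.cons (.rf (nat_lit 4920) (nat_lit 457864203446677406784)) (.cons (.rf (nat_lit 5191) (nat_lit 493858305440582043680)) (.cons (.br (nat_lit 11) (nat_lit 1) (.cons (.rf (nat_lit 5181) (nat_lit 493858305440582043680)) (.cons (.br (nat_lit 11) (nat_lit 1) (.cons (.rf (nat_lit 4920) (nat_lit 493565395547242988608)) (.cons (.rf (nat_lit 4933) (nat_lit 493675982226662197280)) .nil))) (.cons (.br (nat_lit 11) (nat_lit 1) (.cons (.rf (nat_lit 4920) (nat_lit 457824828835778364480)) (.cons (.rf (nat_lit 4933) (nat_lit 493675982226662197280)) .nil))) .nil)))) .nil)))),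
 (.br (nat_lit 6) (nat_lit 1) (.cons (.rf (nat_lit 3419) (nat_lit 493787200025760303136)) (.cons (.rf (nat_lit 4920) (nat_lit 493787200025760303136)) (.cons (.rf (nat_lit 4920) (nat_lit 458046633314295679008)) (.cons (.br (nat_lit 8) (nat_lit 1) (.cons (.rf (nat_lit 5184) (nat_lit 493858305440582043680)) (.cons (.rf (nat_lit 5191) (nat_lit 493858305440582043680)) (.cons (.rf (nat_lit 5192) (nat_lit 493858305440582043680)) (.cons (.br (nat_lit 8) (nat_lit 1) (.cons (.rf (nat_lit 5184) (nat_lit 493858305440582043680)) (.cons (.rf (nat_lit 5191) (nat_lit 493858305440582043680)) (.cons (.rf (nat_lit 5192) (nat_lit 493858305440582043680)) .nil)))) .nil))))) .nil)))))]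

theorem c198 : chkAll C T R L198 (nat_lit 5166) = true := by decide +kernel

theorem l198 : (nat_lit 5166) + L198.length = (nat_lit 5194) := by decide +kernel

/-- part of the certificates -/
def L199 : List Prf := [(.br (nat_lit 8) (nat_lit 1) (.cons (.ev (nat_lit 309485028268371721217638401) (nat_lit 1)) (.cons (.kr (nat_lit 18446744078004518912) (nat_lit 20282409603651670705422227996672) (nat_lit 4) (nat_lit 0)) (.cons (.kr (nat_lit 18446744078004518912) (nat_lit 20361637766165934761540795236352) (nat_lit 4) (nat_lit 0)) .nil)))),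
 (.br (nat_lit 8) (nat_lit 1) (.cons (.rf (nat_lit 4920) (nat_lit 457864203446677407776)) (.cons (.br (nat_lit 7) (nat_lit 0) (.cons (.br (nat_lit 1) (nat_lit 0) (.cons (.ev (nat_lit 80156626988605736305868013826) (nat_lit 2)) .nil)) .nil)) .nil))),
 (.br (nat_lit 11) (nat_lit 1) (.cons (.rf (nat_lit 4920) (nat_lit 457824828835778365472)) (.cons (.rf (nat_lit 4920) (nat_lit 457824828835778364480)) (.cons (.rf (nat_lit 5194) (nat_lit 493858305440582043680)) .nil)))),
 (.br (nat_lit 11) (nat_lit 1) (.cons (.rf (nat_lit 3419) (nat_lit 493565395547242989600)) (.cons (.rf (nat_lit 4920) (nat_lit 493565395547242988608)) (.cons (.rf (nat_lit 4920) (nat_lit 457824828835778364480)) (.cons (.rf (nat_lit 5075) (nat_lit 493565395547242988608)) .nil))))),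
 (.br (nat_lit 2) (nat_lit 0) (.cons (.rf (nat_lit 4955) (nat_lit 493670240576948504608)) (.cons (.br (nat_lit 12) (nat_lit 0) (.cons (.br (nat_lit 11) (nat_lit 1) (.cons (.ev (nat_lit 79228167236631101942460842241) (nat_lit 1)) (.cons (.br (nat_lit 11) (nat_lit 1) (.cons (.ev (nat_lit 79228167236631101942460842241) (nat_lit 1)) (.cons (.rf (nat_lit 5194) (nat_lit 493858305440582043680)) .nil))) (.cons (.rf (nat_lit 5196) (nat_lit 493858305440582043680)) .nil)))) (.cons (.br (nat_lit 7) (nat_lit 0) (.cons (.rf (nat_lit 5195) (nat_lit 493858305440582043680)) (.cons (.br (nat_lit 7) (nat_lit 0) (.cons (.rf (nat_lit 5195) (nat_lit 493858305440582043680)) .nil)) .nil))) (.cons (.rf (nat_lit 5178) (nat_lit 458005178423107159104)) .nil)))) (.cons (.br (nat_lit 12) (nat_lit 0) (.cons (.br (nat_lit 7) (nat_lit 0) (.cons (.kr (nat_lit 18446744078004518912) (nat_lit 20361637766165934761540795236352) (nat_lit 4) (nat_lit 0)) (.cons (.br (nat_lit 7) (nat_lit 0) (.cons (.kr (nat_lit 18446744078004518912)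 (nat_lit 20361637766165934761540795236352) (nat_lit 4) (nat_lit 0)) (.cons (.rf (nat_lit 5196) (nat_lit 493858305440582043680)) .nil))) (.cons (.rf (nat_lit 5196) (nat_lit 493858305440582043680)) .nil)))) (.cons (.br (nat_lit 7) (nat_lit 0) (.cons (.br (nat_lit 8) (nat_lit 1) (.cons (.rf (nat_lit 4920) (nat_lit 457864203446677407776)) (.cons (.rf (nat_lit 4949) (nat_lit 15427372139130488864)) .nil))) (.cons (.br (nat_lit 11) (nat_lit 1) (.cons (.rf (nat_lit 4920) (nat_lit 457824828835778365472)) (.cons (.rf (nat_lit 4949) (nat_lit 15427477692246755360)) .nil))) .nil))) (.cons (.rf (nat_lit 5178) (nat_lit 457857653653768569920)) .nil)))) (.cons (.rf (nat_lit 5197) (nat_lit 493858305440582043680)) .nil))))),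
 (.br (nat_lit 1) (nat_lit 0) (.cons (.rf (nat_lit 5148) (nat_lit 458005178423107159104)) (.cons (.rf (nat_lit 5178) (nat_lit 458005178423107160096)) (.cons (.rf (nat_lit 5178) (nat_lit 457857653653768570912)) (.cons (.rf (nat_lit 5075) (nat_lit 493565395547242989600)) .nil))))),
 (.br (nat_lit 11) (nat_lit 1) (.cons (.rf (nat_lit 4920) (nat_lit 457824828835778365472)) (.cons (.rf (nat_lit 4920) (nat_lit 457824828835778364480)) (.cons (.ev (nat_lit 20282719088661492051590481182721) (nat_lit 1)) (.cons (.rf (nat_lit 5139) (nat_lit 457857653653768570912)) .nil))))),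
 (.br (nat_lit 8) (nat_lit 1) (.cons (.rf (nat_lit 4920) (nat_lit 493604770158142031904)) (.cons (.rf (nat_lit 4920) (nat_lit 493604770158142030912)) (.cons (.br (nat_lit 11) (nat_lit 1) (.cons (.rf (nat_lit 5197) (nat_lit 493858305440582042688)) (.cons (.rf (nat_lit 5197) (nat_lit 493858305440582043680)) (.cons (.br (nat_lit 11) (nat_lit 1) (.cons (.rf (nat_lit 4920) (nat_lit 493565395547242989600)) (.cons (.rf (nat_lit 4920) (nat_lit 493565395547242988608)) (.cons (.ev (nat_lit 20282719088661492051590481182721) (nat_lit 1)) (.cons (.rf (nat_lit 5199) (nat_lit 493858305440582043680)) .nil))))) (.cons (.rf (nat_lit 5200) (nat_lit 493858305440582043680)) (.cons (.rf (nat_lit 5199) (nat_lit 493858305440582043680)) .nil)))))) (.cons (.br (nat_lit 11) (nat_lit 1) (.cons (.rf (nat_lit 5197) (nat_lit 493858305440582042688)) (.cons (.rf (nat_lit 5197) (nat_lit 493858305440582043680)) (.cons (.br (nat_lit 11) (nat_lit 1) (.cons (.rf (nat_lit 4920) (nat_lit 493565395547242989600)) (.cons (.ev (nat_lit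 20361947251175756107709048422401) (nat_lit 1)) (.cons (.ev (nat_lit 20282719088661492051590481182721) (nat_lit 1)) .nil)))) (.cons (.rf (nat_lit 5200) (nat_lit 493858305440582043680)) .nil))))) .nil))))),
 (.br (nat_lit 2) (nat_lit 0) (.cons (.rf (nat_lit 5148) (nat_lit 458005178423107160096)) (.cons (.rf (nat_lit 5148) (nat_lit 457857653653768570912)) (.cons (.rf (nat_lit 5178) (nat_lit 458005178423107159104)) (.cons (.rf (nat_lit 5178) (nat_lit 457857653653768569920)) .nil))))),
 (.br (nat_lit 5) (nat_lit 0) (.cons (.rf (nat_lit 5198) (nat_lit 493858305440582043680)) (.cons (.rf (nat_lit 5201) (nat_lit 493858305440582043680)) (.cons (.br (nat_lit 11) (nat_lit 1) (.cons (.rf (nat_lit 5197) (nat_lit 493858305440582042688)) (.cons (.rf (nat_lit 5197) (nat_lit 493858305440582043680)) (.cons (.br (nat_lit 11) (nat_lit 1) (.cons (.rf (nat_lit 4920) (nat_lit 457824828835778365472)) (.cons (.rf (nat_lit 4920) (nat_lit 457824828835778364480)) (.cons (.br (nat_lit 1) (nat_lit 0) (.cons (.ev (nat_lit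 79228167236630820467500908801) (nat_lit 1)) (.cons (.rf (nat_lit 5148) (nat_lit 457857653653768569920)) .nil))) .nil)))) (.cons (.br (nat_lit 2) (nat_lit 0) (.cons (.rf (nat_lit 5148) (nat_lit 458005178423107160096)) (.cons (.rf (nat_lit 5148) (nat_lit 457857653653768570912)) (.cons (.rf (nat_lit 5075) (nat_lit 493565395547242988608)) .nil)))) .nil))))) (.cons (.br (nat_lit 11) (nat_lit 1) (.cons (.rf (nat_lit 4920) (nat_lit 493565395547242989600)) (.cons (.rf (nat_lit 4920) (nat_lit 493565395547242988608)) (.cons (.br (nat_lit 2) (nat_lit 0) (.cons (.br (nat_lit 12) (nat_lit 0) (.cons (.br (nat_lit 10) (nat_lit 1) (.cons (.ev (nat_lit 20361637766165935043020066914561) (nat_lit 1)) (.cons (.br (nat_lit 1) (nat_lit 0) (.cons (.ev (nat_lit 80160258543843351782987333634) (nat_lit 2)) .nil)) .nil))) (.cons (.ev (nat_lit 310693935641241177171230721) (nat_lit 1)) .nil))) (.cons (.br (nat_lit 8) (nat_lit 1) (.cons (.rf (nat_lit 3419) (nat_lit 493604770158142031904)) (.cons (.rf (nat_lit 4920) (nat_lit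 457864203446677406784)) (.cons (.br (nat_lit 7) (nat_lit 0) (.cons (.ev (nat_lit 79228162514336396291388538881) (nat_lit 1)) (.cons (.rf (nat_lit 5183) (nat_lit 493856998121263072320)) .nil))) .nil)))) (.cons (.br (nat_lit 1) (nat_lit 0) (.cons (.rf (nat_lit 4954) (nat_lit 493679253268392413216)) (.cons (.br (nat_lit 8) (nat_lit 1) (.cons (.rf (nat_lit 4920) (nat_lit 457864203446677407776)) (.cons (.br (nat_lit 4) (nat_lit 1) (.cons (.ev (nat_lit 158767023705054919430970081282) (nat_lit 2)) .nil)) .nil))) .nil))) .nil)))) (.cons (.rf (nat_lit 5202) (nat_lit 493858305440582043680)) .nil))))) .nil))))),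
 (.br (nat_lit 5) (nat_lit 0) (.cons (.rf (nat_lit 5198) (nat_lit 493858305440582043680)) (.cons (.rf (nat_lit 5201) (nat_lit 493858305440582043680)) (.cons (.rf (nat_lit 5203) (nat_lit 493858305440582043680)) (.cons (.br (nat_lit 11) (nat_lit 1) (.cons (.rf (nat_lit 4920) (nat_lit 493565395547242989600)) (.cons (.rf (nat_lit 4920) (nat_lit 493565395547242988608)) (.cons (.br (nat_lit 1) (nat_lit 0) (.cons (.br (nat_lit 12) (nat_lit 0) (.cons (.br (nat_lit 7) (nat_lit 0) (.cons (.br (nat_lit 2) (nat_lit 0) (.cons (.ev (nat_lit 80156627025355111472824320770) (nat_lit 2)) .nil)) (.cons (.br (nat_lit 2) (nat_lit 0) (.cons (.ev (nat_lit 80156627025355111472824320770) (nat_lit 2)) .nil)) .nil))) (.cons (.rf (nat_lit 5075) (nat_lit 458009550086699354144)) .nil))) (.cons (.br (nat_lit 8) (nat_lit 1) (.cons (.ev (nat_lit 20282720297605758409193853878273) (nat_lit 1)) (.cons (.rf (nat_lit 4920) (nat_lit 457864203446677407776)) (.cons (.br (nat_lit 2) (nat_lit 0) (.cons (.br (nat_lit 9) (nat_lit 1) (.cons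 (.zr (nat_lit 237686905394648414829685178368) (nat_lit 309503917735146520938807297) (nat_lit 5) (nat_lit 0)) .nil)) (.cons (.br (nat_lit 4) (nat_lit 1) (.cons (.zr (nat_lit 2417851855964999006748672) (nat_lit 237993991460527033401663815681) (nat_lit 5) (nat_lit 0)) .nil)) .nil))) .nil)))) (.cons (.br (nat_lit 12) (nat_lit 0) (.cons (.br (nat_lit 7) (nat_lit 0) (.cons (.br (nat_lit 8) (nat_lit 1) (.cons (.ev (nat_lit 310693954160043940135305473) (nat_lit 1)) .nil)) .nil)) (.cons (.rf (nat_lit 4814) (nat_lit 493565395547242988608)) .nil))) .nil)))) (.cons (.rf (nat_lit 5202) (nat_lit 493858305440582043680)) .nil))))) .nil))))),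
 (.br (nat_lit 6) (nat_lit 1) (.cons (.rf (nat_lit 3419) (nat_lit 493787200025760303136)) (.cons (.rf (nat_lit 4920) (nat_lit 493787200025760302144)) (.cons (.rf (nat_lit 4920) (nat_lit 458046633314295678016)) (.cons (.br (nat_lit 5) (nat_lit 0) (.cons (.rf (nat_lit 5198) (nat_lit 493858305440582043680)) (.cons (.rf (nat_lit 5201) (nat_lit 493858305440582043680)) (.cons (.rf (nat_lit 5203) (nat_lit 493858305440582043680)) (.cons (.rf (nat_lit 5204) (nat_lit 493858305440582043680)) (.cons (.br (nat_lit 5) (nat_lit 0) (.cons (.rf (nat_lit 5198) (nat_lit 493858305440582043680)) (.cons (.rf (nat_lit 5201) (nat_lit 493858305440582043680)) (.cons (.rf (nat_lit 5203) (nat_lit 493858305440582043680)) (.cons (.rf (nat_lit 5204) (nat_lit 493858305440582043680)) .nil))))) .nil)))))) .nil))))),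
 (.br (nat_lit 8) (nat_lit 1) (.cons (.rf (nat_lit 3419) (nat_lit 493604770158142031904)) (.cons (.br (nat_lit 9) (nat_lit 1) (.cons (.br (nat_lit 4) (nat_lit 1) (.cons (.br (nat_lit 10) (nat_lit 1) (.cons (.ev (nat_lit 79229371477049500167544242946) (nat_lit 2)) .nil)) (.cons (.ev (nat_lit 20361947255898122870954158719233) (nat_lit 1)) .nil))) (.cons (.br (nat_lit 12) (nat_lit 0) (.cons (.zr (nat_lit 40564819212025924347971208478720) (nat_lit 238303457562435705121399635969) (nat_lit 5) (nat_lit 6)) (.cons (.ev (nat_lit 20361947255916569615027851558913) (nat_lit 1)) .nil))) (.cons (.rf (nat_lit 5177) (nat_lit 457822648505293146144)) .nil)))) .nil))),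
 (.br (nat_lit 8) (nat_lit 1) (.cons (.rf (nat_lit 3419) (nat_lit 493604770158142031904)) (.cons (.rf (nat_lit 4920) (nat_lit 493604770158142030912)) (.cons (.rf (nat_lit 4920) (nat_lit 457864203446677406784)) (.cons (.rf (nat_lit 5177) (nat_lit 458009550086699354144)) .nil))))),
 (.br (nat_lit 2) (nat_lit 0) (.cons (.rf (nat_lit 5178) (nat_lit 458009550086699353152)) (.cons (.rf (nat_lit 5207) (nat_lit 493858305440582043680)) (.cons (.rf (nat_lit 5178) (nat_lit 458005178423107159104)) (.cons (.br (nat_lit 1) (nat_lit 0) (.cons (.rf (nat_lit 5178) (nat_lit 458009550086699354144)) (.cons (.rf (nat_lit 5207) (nat_lit 493858305440582042688)) (.cons (.rf (nat_lit 5178) (nat_lit 458005178423107160096)) (.cons (.rf (nat_lit 5075) (nat_lit 493565395547242989600)) .nil))))) (.cons (.rf (nat_lit 5075) (nat_lit 493565395547242988608)) .nil)))))),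
 (.br (nat_lit 11) (nat_lit 1) (.cons (.rf (nat_lit 4920) (nat_lit 493565395547242989600)) (.cons (.rf (nat_lit 4920) (nat_lit 493565395547242988608)) (.cons (.br (nat_lit 8) (nat_lit 1) (.cons (.br (nat_lit 8) (nat_lit 1) (.cons (.rf (nat_lit 3419) (nat_lit 493604770158142031904)) (.cons (.rf (nat_lit 4926) (nat_lit 493751241598560208928)) .nil))) (.cons (.rf (nat_lit 5206) (nat_lit 493858305440582043680)) (.cons (.br (nat_lit 8) (nat_lit 1) (.cons (.rf (nat_lit 4926) (nat_lit 493751241598560208928)) (.cons (.rf (nat_lit 5206) (nat_lit 493858305440582043680)) .nil))) .nil)))) (.cons (.rf (nat_lit 5208) (nat_lit 493858305440582043680)) .nil))))),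
 (.br (nat_lit 8) (nat_lit 1) (.cons (.rf (nat_lit 3419) (nat_lit 493604770158142031904)) (.cons (.rf (nat_lit 4920) (nat_lit 457864203446677407776)) (.cons (.br (nat_lit 4) (nat_lit 1) (.cons (.br (nat_lit 10) (nat_lit 1) (.cons (.br (nat_lit 7) (nat_lit 0) (.cons (.ev (nat_lit 20680414608171253506350942192388) (nat_lit 3)) .nil)) (.cons (.br (nat_lit 9) (nat_lit 1) (.cons (.ev (nat_lit 317532843169980804622465631748) (nat_lit 3)) .nil)) .nil))) (.cons (.br (nat_lit 10) (nat_lit 1) (.cons (.br (nat_lit 2) (nat_lit 0) (.cons (.ev (nat_lit 79229376180969237863934722305) (nat_lit 1)) .nil)) .nil)) .nil))) .nil)))),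
 (.br (nat_lit 8) (nat_lit 1) (.cons (.rf (nat_lit 3419) (nat_lit 493604770158142031904)) (.cons (.rf (nat_lit 4920) (nat_lit 457864203446677406784)) (.cons (.br (nat_lit 2) (nat_lit 0) (.cons (.br (nat_lit 1) (nat_lit 0) (.cons (.br (nat_lit 7) (nat_lit 0) (.cons (.ev (nat_lit 79849559885692358081126793474) (nat_lit 2)) .nil)) (.cons (.ev (nat_lit 20440865928698646124695910351362) (nat_lit 2)) .nil))) (.cons (.br (nat_lit 7) (nat_lit 0) (.cons (.ev (nat_lit 79228162514336396291388538881) (nat_lit 1)) (.cons (.br (nat_lit 1) (nat_lit 0) (.cons (.ev (nat_lit 20838863670237314376862328227076) (nat_lit 3)) .nil)) .nil))) (.cons (.br (nat_lit 1) (nat_lit 0) (.cons (.br (nat_lit 7) (nat_lit 0) (.cons (.ev (nat_lit 20680414608171253506350942192388) (nat_lit 3)) .nil)) (.cons (.ev (nat_lit 79229376180897460641066909953) (nat_lit 1)) .nil))) .nil)))) .nil)))),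
 (.br (nat_lit 8) (nat_lit 1) (.cons (.rf (nat_lit 4920) (nat_lit 457864203446677407776)) (.cons (.rf (nat_lit 4920) (nat_lit 457864203446677406784)) (.cons (.br (nat_lit 10) (nat_lit 1) (.cons (.ev (nat_lit 18447025548686262529) (nat_lit 1)) (.cons (.br (nat_lit 1) (nat_lit 0) (.cons (.br (nat_lit 9) (nat_lit 1) (.cons (.ev (nat_lit 79229376180969237863934722305) (nat_lit 1)) .nil)) (.cons (.br (nat_lit 4) (nat_lit 1) (.cons (.ev (nat_lit 1213648258156196681285633) (nat_lit 1)) .nil)) .nil))) .nil))) .nil)))),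
 (.br (nat_lit 11) (nat_lit 1) (.cons (.rf (nat_lit 4920) (nat_lit 493565395547242989600)) (.cons (.rf (nat_lit 4920) (nat_lit 493565395547242988608)) (.cons (.br (nat_lit 8) (nat_lit 1) (.cons (.rf (nat_lit 5210) (nat_lit 493858305440582043680)) (.cons (.rf (nat_lit 5211) (nat_lit 493858305440582043680)) (.cons (.rf (nat_lit 5212) (nat_lit 493858305440582043680)) (.cons (.br (nat_lit 8) (nat_lit 1) (.cons (.rf (nat_lit 5210) (nat_lit 493858305440582043680)) (.cons (.rf (nat_lit 5211) (nat_lit 493858305440582043680)) (.cons (.rf (nat_lit 5212) (nat_lit 493858305440582043680)) .nil)))) .nil))))) (.cons (.br (nat_lit 2) (nat_lit 0) (.cons (.rf (nat_lit 5148) (nat_lit 458005178423107160096)) (.cons (.rf (nat_lit 5148) (nat_lit 457857653653768570912)) (.cons (.rf (nat_lit 5178) (nat_lit 458005178423107159104)) (.cons (.rf (nat_lit 5178) (nat_lit 457857653653768569920)) .nil))))) .nil))))),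
 (.br (nat_lit 6) (nat_lit 1) (.cons (.rf (nat_lit 4920) (nat_lit 493787200025760303136)) (.cons (.rf (nat_lit 4920) (nat_lit 493787200025760302144)) (.cons (.br (nat_lit 11) (nat_lit 1) (.cons (.rf (nat_lit 5197) (nat_lit 493858305440582042688)) (.cons (.rf (nat_lit 5197) (nat_lit 493858305440582043680)) (.cons (.rf (nat_lit 5209) (nat_lit 493858305440582043680)) (.cons (.br (nat_lit 11) (nat_lit 1) (.cons (.rf (nat_lit 4920) (nat_lit 457824828835778365472)) (.cons (.rf (nat_lit 4920) (nat_lit 457824828835778364480)) (.cons (.rf (nat_lit 5209) (nat_lit 493858305440582043680)) (.cons (.rf (nat_lit 5208) (nat_lit 493858305440582043680)) .nil))))) (.cons (.rf (nat_lit 5208) (nat_lit 493858305440582043680)) .nil)))))) (.cons (.br (nat_lit 11) (nat_lit 1) (.cons (.rf (nat_lit 5197) (nat_lit 493858305440582042688)) (.cons (.rf (nat_lit 5197) (nat_lit 493858305440582043680)) (.cons (.rf (nat_lit 5213) (nat_lit 493858305440582043680)) (.cons (.br (nat_lit 11) (nat_lit 1) (.cons (.rf (nat_lit 4920)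 (nat_lit 457824828835778365472)) (.cons (.rf (nat_lit 4920) (nat_lit 457824828835778364480)) (.cons (.rf (nat_lit 5213) (nat_lit 493858305440582043680)) (.cons (.br (nat_lit 2) (nat_lit 0) (.cons (.rf (nat_lit 5148) (nat_lit 458005178423107160096)) (.cons (.rf (nat_lit 5148) (nat_lit 457857653653768570912)) (.cons (.rf (nat_lit 5178) (nat_lit 458005178423107159104)) (.cons (.rf (nat_lit 5178) (nat_lit 457857653653768569920)) .nil))))) .nil))))) (.cons (.br (nat_lit 2) (nat_lit 0) (.cons (.rf (nat_lit 5148) (nat_lit 458005178423107160096)) (.cons (.rf (nat_lit 5148) (nat_lit 457857653653768570912)) (.cons (.rf (nat_lit 5178) (nat_lit 458005178423107159104)) (.cons (.rf (nat_lit 5178) (nat_lit 457857653653768569920)) (.cons (.rf (nat_lit 5075) (nat_lit 493565395547242988608)) .nil)))))) .nil)))))) .nil)))))]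

theorem c199 : chkAll C T R L199 (nat_lit 5194) = true := by decide +kernel

theorem l199 : (nat_lit 5194) + L199.length = (nat_lit 5215) := by decide +kernel

/-- part of the certificates -/
def L200 : List Prf := [(.br (nat_lit 8) (nat_lit 1) (.cons (.rf (nat_lit 3419) (nat_lit 493604770158142031904)) (.cons (.rf (nat_lit 4920) (nat_lit 493604770158142031904)) (.cons (.rf (nat_lit 4920) (nat_lit 457864203446677407776)) (.cons (.kr (nat_lit 281474976710656) (nat_lit 79228162514264337593543950336) (nat_lit 6) (nat_lit 0)) .nil))))),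
 (.br (nat_lit 8) (nat_lit 1) (.cons (.rf (nat_lit 5215) (nat_lit 493858305440582043680)) (.cons (.rf (nat_lit 5215) (nat_lit 493858305440582042688)) (.cons (.br (nat_lit 8) (nat_lit 1) (.cons (.rf (nat_lit 4920) (nat_lit 493604770158142031904)) (.cons (.rf (nat_lit 4920) (nat_lit 493604770158142030912)) (.cons (.kr (nat_lit 281474976710656) (nat_lit 79228162514264337593543950336) (nat_lit 6) (nat_lit 0)) .nil)))) (.cons (.kr (nat_lit 281474976710656) (nat_lit 79228162514264337593543950336) (nat_lit 6) (nat_lit 0)) .nil))))),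
 (.br (nat_lit 6) (nat_lit 1) (.cons (.rf (nat_lit 4920) (nat_lit 458046633314295679008)) (.cons (.rf (nat_lit 4920) (nat_lit 458046633314295678016)) (.cons (.rf (nat_lit 5214) (nat_lit 493858305440582043680)) (.cons (.br (nat_lit 11) (nat_lit 1) (.cons (.rf (nat_lit 5197) (nat_lit 493858305440582042688)) (.cons (.rf (nat_lit 5197) (nat_lit 493858305440582043680)) (.cons (.br (nat_lit 11) (nat_lit 1) (.cons (.rf (nat_lit 4920) (nat_lit 493565395547242989600)) (.cons (.rf (nat_lit 4920) (nat_lit 493565395547242988608)) (.cons (.rf (nat_lit 5216) (nat_lit 493858305440582043680)) (.cons (.br (nat_lit 2) (nat_lit 0) (.cons (.rf (nat_lit 5148) (nat_lit 458005178423107160096)) (.cons (.rf (nat_lit 5148) (nat_lit 457857653653768570912)) (.cons (.rf (nat_lit 5178) (nat_lit 458005178423107159104)) (.cons (.rf (nat_lit 5178) (nat_lit 457857653653768569920)) .nil))))) .nil))))) (.cons (.rf (nat_lit 5216) (nat_lit 493858305440582043680)) (.cons (.br (nat_lit 2) (nat_lit 0) (.cons (.rf (nat_lit 5148) (nat_lit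 458005178423107160096)) (.cons (.rf (nat_lit 5148) (nat_lit 457857653653768570912)) (.cons (.rf (nat_lit 5178) (nat_lit 458005178423107159104)) (.cons (.rf (nat_lit 5178) (nat_lit 457857653653768569920)) (.cons (.rf (nat_lit 5075) (nat_lit 493565395547242988608)) .nil)))))) .nil)))))) .nil))))),
 (.br (nat_lit 6) (nat_lit 1) (.cons (.rf (nat_lit 5193) (nat_lit 493858305440582043680)) (.cons (.rf (nat_lit 5205) (nat_lit 493858305440582043680)) (.cons (.rf (nat_lit 5214) (nat_lit 493858305440582043680)) (.cons (.rf (nat_lit 5217) (nat_lit 493858305440582043680)) (.cons (.br (nat_lit 6) (nat_lit 1) (.cons (.rf (nat_lit 5193) (nat_lit 493858305440582043680)) (.cons (.rf (nat_lit 5205) (nat_lit 493858305440582043680)) (.cons (.rf (nat_lit 5214) (nat_lit 493858305440582043680)) (.cons (.rf (nat_lit 5217) (nat_lit 493858305440582043680)) .nil))))) .nil)))))),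
 (.br (nat_lit 8) (nat_lit 1) (.cons (.br (nat_lit 6) (nat_lit 1) (.cons (.br (nat_lit 4) (nat_lit 1) (.cons (.zr (nat_lit 618970019859425869516963840) (nat_lit 4840444091685464365334529) (nat_lit 5) (nat_lit 0)) .nil)) (.cons (.rf (nat_lit 4954) (nat_lit 458043251218676286528)) .nil))) .nil)),
 (.br (nat_lit 10) (nat_lit 1) (.cons (.rf (nat_lit 4920) (nat_lit 493563215216757769280)) (.cons (.rf (nat_lit 4920) (nat_lit 457822648505293145152)) (.cons (.br (nat_lit 12) (nat_lit 0) (.cons (.rf (nat_lit 5148) (nat_lit 457929673865483879488)) (.cons (.br (nat_lit 8) (nat_lit 1) (.cons (.rf (nat_lit 5219) (nat_lit 493858305440582043680)) (.cons (.br (nat_lit 8) (nat_lit 1) (.cons (.rf (nat_lit 5219) (nat_lit 493858305440582043680)) .nil)) .nil))) (.cons (.rf (nat_lit 5218) (nat_lit 457929673865483879488)) .nil)))) .nil)))),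
 (.br (nat_lit 12) (nat_lit 0) (.cons (.br (nat_lit 7) (nat_lit 0) (.cons (.br (nat_lit 2) (nat_lit 0) (.cons (.br (nat_lit 8) (nat_lit 1) (.cons (.ev (nat_lit 79537647542532426740273315841) (nat_lit 1)) .nil)) .nil)) (.cons (.br (nat_lit 8) (nat_lit 1) (.cons (.ev (nat_lit 20282719093402304995963642642433) (nat_lit 1)) (.cons (.ev (nat_lit 1213666704900266095804673) (nat_lit 1)) .nil))) .nil))) (.cons (.rf (nat_lit 5218) (nat_lit 457935134042368542752)) .nil))),
 (.br (nat_lit 12) (nat_lit 0) (.cons (.rf (nat_lit 5221) (nat_lit 493858305440582043680)) (.cons (.br (nat_lit 4) (nat_lit 1) (.cons (.rf (nat_lit 2042) (nat_lit 493563215044824865952)) (.cons (.br (nat_lit 2) (nat_lit 0) (.cons (.rf (nat_lit 4967) (nat_lit 493817738956935104544)) (.cons (.zr (nat_lit 61005685135983539950327376642816) (nat_lit 310698676454186658450898945) (nat_lit 5) (nat_lit 0)) .nil))) (.cons (.br (nat_lit 8) (nat_lit 1) (.cons (.ev (nat_lit 20282719093402304995963642642433) (nat_lit 1)) (.cons (.ev (nat_lit 20521026177779093034210923905794)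 (nat_lit 2)) .nil))) .nil)))) .nil))),
 (.br (nat_lit 7) (nat_lit 0) (.cons (.br (nat_lit 8) (nat_lit 1) (.cons (.ev (nat_lit 158457543417600338706917556226) (nat_lit 2)) .nil)) .nil)),
 (.br (nat_lit 10) (nat_lit 1) (.cons (.rf (nat_lit 4920) (nat_lit 493563215216757769280)) (.cons (.br (nat_lit 12) (nat_lit 0) (.cons (.rf (nat_lit 5221) (nat_lit 493858305440582043680)) (.cons (.rf (nat_lit 5222) (nat_lit 493858305440582043680)) (.cons (.br (nat_lit 12) (nat_lit 0) (.cons (.rf (nat_lit 5218) (nat_lit 457935134042368542752)) (.cons (.rf (nat_lit 5222) (nat_lit 493858305440582043680)) .nil))) .nil)))) (.cons (.br (nat_lit 12) (nat_lit 0) (.cons (.rf (nat_lit 5148) (nat_lit 457929673865483879488)) (.cons (.br (nat_lit 2) (nat_lit 0) (.cons (.rf (nat_lit 5218) (nat_lit 458009550086699353152)) (.cons (.br (nat_lit 7) (nat_lit 0) (.cons (.rf (nat_lit 5223) (nat_lit 493858305440582043680)) (.cons (.br (nat_lit 7) (nat_lit 0) (.cons (.rf (nat_lit 5223) (nat_lit 493858305440582043680)) .nil)) .nil)))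 (.cons (.rf (nat_lit 5197) (nat_lit 458009550086699354144)) .nil)))) (.cons (.rf (nat_lit 5218) (nat_lit 457929673865483879488)) .nil)))) .nil)))),
 (.br (nat_lit 10) (nat_lit 1) (.cons (.rf (nat_lit 4920) (nat_lit 457822648505293145152)) (.cons (.rf (nat_lit 5224) (nat_lit 493858305440582043680)) (.cons (.br (nat_lit 12) (nat_lit 0) (.cons (.rf (nat_lit 5148) (nat_lit 457929673865483879488)) (.cons (.br (nat_lit 2) (nat_lit 0) (.cons (.rf (nat_lit 5218) (nat_lit 458009550086699353152)) (.cons (.br (nat_lit 5) (nat_lit 0) (.cons (.br (nat_lit 5) (nat_lit 0) (.cons (.br (nat_lit 8) (nat_lit 1) (.cons (.zr (nat_lit 216172790703915008) (nat_lit 310698676454468116247740417) (nat_lit 5) (nat_lit 0)) .nil)) .nil)) (.cons (.br (nat_lit 8) (nat_lit 1) (.cons (.rf (nat_lit 4954) (nat_lit 458043255612427830336)) .nil)) .nil))) (.cons (.rf (nat_lit 5197) (nat_lit 458009550086699354144)) .nil)))) (.cons (.rf (nat_lit 5218) (nat_lit 457929673865483879488)) .nil)))) .nil)))),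
 (.br (nat_lit 10) (nat_lit 1) (.cons (.rf (nat_lit 5220) (nat_lit 493858305440582043680)) (.cons (.rf (nat_lit 5224) (nat_lit 493858305440582043680)) (.cons (.rf (nat_lit 5225) (nat_lit 493858305440582043680)) (.cons (.br (nat_lit 10) (nat_lit 1) (.cons (.rf (nat_lit 5220) (nat_lit 493858305440582043680)) (.cons (.rf (nat_lit 5224) (nat_lit 493858305440582043680)) (.cons (.rf (nat_lit 5225) (nat_lit 493858305440582043680)) .nil)))) .nil))))),
 (.br (nat_lit 7) (nat_lit 0) (.cons (.kr (nat_lit 281474976710656) (nat_lit 79228162514264337593543950336) (nat_lit 6) (nat_lit 0)) (.cons (.br (nat_lit 6) (nat_lit 1) (.cons (.br (nat_lit 10) (nat_lit 1) (.cons (.kr (nat_lit 20282409603688563913194182017280) (nat_lit 79847132533979085325031505920) (nat_lit 1) (nat_lit 0)) .nil)) (.cons (.ev (nat_lit 309485009893685237251047681) (nat_lit 1)) .nil))) .nil))),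
 (.br (nat_lit 12) (nat_lit 0) (.cons (.br (nat_lit 7) (nat_lit 0) (.cons (.kr (nat_lit 281474976710656) (nat_lit 79228162514264337593543950336) (nat_lit 6) (nat_lit 0)) (.cons (.rf (nat_lit 5227) (nat_lit 493858305440582043680)) (.cons (.br (nat_lit 7) (nat_lit 0) (.cons (.kr (nat_lit 281474976710656) (nat_lit 79228162514264337593543950336) (nat_lit 6) (nat_lit 0)) (.cons (.rf (nat_lit 5227) (nat_lit 493858305440582043680)) .nil))) .nil)))) (.cons (.rf (nat_lit 5218) (nat_lit 458009550086699353152)) .nil))),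
 (.br (nat_lit 10) (nat_lit 1) (.cons (.ev (nat_lit 79538856449905297295738470401) (nat_lit 1)) (.cons (.rf (nat_lit 5196) (nat_lit 457929673865483879488)) .nil))),
 (.br (nat_lit 12) (nat_lit 0) (.cons (.rf (nat_lit 5228) (nat_lit 493858305440582043680)) (.cons (.br (nat_lit 2) (nat_lit 0) (.cons (.rf (nat_lit 5197) (nat_lit 457929673865483880480)) (.cons (.br (nat_lit 6) (nat_lit 1) (.cons (.rf (nat_lit 5229) (nat_lit 493858305440582043680)) (.cons (.br (nat_lit 6) (nat_lit 1) (.cons (.rf (nat_lit 5229) (nat_lit 493858305440582043680)) .nil)) .nil))) (.cons (.ev (nat_lit 79538856449905297295738470401) (nat_lit 1)) .nil)))) .nil))),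
 (.br (nat_lit 12) (nat_lit 0) (.cons (.rf (nat_lit 5228) (nat_lit 493858305440582043680)) (.cons (.rf (nat_lit 5230) (nat_lit 493858305440582043680)) (.cons (.br (nat_lit 12) (nat_lit 0) (.cons (.rf (nat_lit 5218) (nat_lit 458009550086699353152)) (.cons (.rf (nat_lit 5230) (nat_lit 493858305440582043680)) .nil))) .nil)))),
 (.br (nat_lit 2) (nat_lit 0) (.cons (.rf (nat_lit 4920) (nat_lit 493750116798163977280)) (.cons (.rf (nat_lit 4920) (nat_lit 457864203446677406784)) (.cons (.rf (nat_lit 4920) (nat_lit 457822648505293145152)) (.cons (.rf (nat_lit 4920) (nat_lit 493565395547242988608)) .nil))))),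
 (.br (nat_lit 6) (nat_lit 1) (.cons (.rf (nat_lit 4920) (nat_lit 493787200025760302144)) (.cons (.rf (nat_lit 4920) (nat_lit 458046633314295678016)) (.cons (.br (nat_lit 4) (nat_lit 1) (.cons (.rf (nat_lit 5231) (nat_lit 493858305440582043680)) (.cons (.br (nat_lit 7) (nat_lit 0) (.cons (.br (nat_lit 7) (nat_lit 0) (.cons (.rf (nat_lit 5232) (nat_lit 493858305440582043680)) .nil)) (.cons (.br (nat_lit 7) (nat_lit 0) (.cons (.rf (nat_lit 5232) (nat_lit 493858305440582043680)) .nil)) .nil))) (.cons (.br (nat_lit 5) (nat_lit 0) (.cons (.br (nat_lit 7) (nat_lit 0) (.cons (.br (nat_lit 2) (nat_lit 0) (.cons (.br (nat_lit 10) (nat_lit 1) (.cons (.ev (nat_lit 79229371440156292395539890433) (nat_lit 1)) .nil)) .nil)) (.cons (.rf (nat_lit 4936) (nat_lit 457935134042368542752)) .nil))) (.cons (.br (nat_lit 2) (nat_lit 0) (.cons (.br (nat_lit 7) (nat_lit 0) (.cons (.rf (nat_lit 4920) (nat_lit 457864203446677406784)) (.cons (.br (nat_lit 8) (nat_lit 1) (.cons (.zr (nat_lit 618970019859425869516963840)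 (nat_lit 1213721973073797969870849) (nat_lit 5) (nat_lit 0)) .nil)) .nil))) (.cons (.rf (nat_lit 4920) (nat_lit 493563215216757769280)) .nil))) .nil))) (.cons (.rf (nat_lit 5226) (nat_lit 457935134042368542752)) .nil))))) .nil)))),
 (.br (nat_lit 4) (nat_lit 1) (.cons (.br (nat_lit 7) (nat_lit 0) (.cons (.ev (nat_lit 20282720302309750205588105592833) (nat_lit 1)) .nil)) .nil)),
 (.br (nat_lit 2) (nat_lit 0) (.cons (.rf (nat_lit 5231) (nat_lit 493858305440582043680)) (.cons (.rf (nat_lit 5233) (nat_lit 493858305440582043680)) (.cons (.br (nat_lit 8) (nat_lit 1) (.cons (.rf (nat_lit 4920) (nat_lit 493604770158142030912)) (.cons (.rf (nat_lit 4920) (nat_lit 457864203446677406784)) (.cons (.br (nat_lit 10) (nat_lit 1) (.cons (.rf (nat_lit 4920) (nat_lit 493563215216757769280)) (.cons (.rf (nat_lit 4920) (nat_lit 457822648505293145152)) (.cons (.br (nat_lit 6) (nat_lit 1) (.cons (.rf (nat_lit 5234) (nat_lit 493858305440582043680)) (.cons (.br (nat_lit 6) (nat_lit 1) (.cons (.rf (nat_lit 5234) (nat_lit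 493858305440582043680)) .nil)) .nil))) .nil)))) .nil)))) .nil)))),
 (.br (nat_lit 6) (nat_lit 1) (.cons (.rf (nat_lit 4921) (nat_lit 493814285396281132096)) .nil)),
 (.br (nat_lit 10) (nat_lit 1) (.cons (.rf (nat_lit 4920) (nat_lit 493563215216757769280)) (.cons (.rf (nat_lit 4920) (nat_lit 457822648505293145152)) (.cons (.br (nat_lit 12) (nat_lit 0) (.cons (.rf (nat_lit 5148) (nat_lit 457929673865483879488)) (.cons (.kr (nat_lit 309485009821345068741558272) (nat_lit 79228167236630820463189164032) (nat_lit 3) (nat_lit 0)) (.cons (.br (nat_lit 2) (nat_lit 0) (.cons (.ev (nat_lit 20282719088661491769015976132609) (nat_lit 1)) (.cons (.rf (nat_lit 5197) (nat_lit 457929673865483880480)) (.cons (.br (nat_lit 6) (nat_lit 1) (.cons (.rf (nat_lit 5236) (nat_lit 493858305440582043680)) (.cons (.br (nat_lit 6) (nat_lit 1) (.cons (.rf (nat_lit 5236) (nat_lit 493858305440582043680)) .nil)) .nil))) .nil)))) .nil)))) .nil)))),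
 (.br (nat_lit 6) (nat_lit 1) (.cons (.ev (nat_lit 4722438541563211546881) (nat_lit 1)) (.cons (.br (nat_lit 12) (nat_lit 0) (.cons (.rf (nat_lit 5226) (nat_lit 457935134042368542752)) (.cons (.br (nat_lit 5) (nat_lit 0) (.cons (.rf (nat_lit 4967) (nat_lit 493817738956935104544)) (.cons (.ev (nat_lit 20283341690236300865855222186754) (nat_lit 2)) .nil))) .nil))) .nil))),
 (.br (nat_lit 4) (nat_lit 1) (.cons (.br (nat_lit 2) (nat_lit 0) (.cons (.rf (nat_lit 4920) (nat_lit 493787200025760302144)) (.cons (.br (nat_lit 7) (nat_lit 0) (.cons (.ev (nat_lit 620179000875441205794636290) (nat_lit 2)) .nil)) .nil))) (.cons (.kr (nat_lit 1208925819614633469673472) (nat_lit 20361637766165934761540795236352) (nat_lit 4) (nat_lit 0)) .nil))),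
 (.br (nat_lit 10) (nat_lit 1) (.cons (.rf (nat_lit 4920) (nat_lit 493563215216757769280)) (.cons (.br (nat_lit 6) (nat_lit 1) (.cons (.rf (nat_lit 5238) (nat_lit 493858305440582043680)) (.cons (.ev (nat_lit 4722438541563211546881) (nat_lit 1)) (.cons (.br (nat_lit 6) (nat_lit 1) (.cons (.rf (nat_lit 5238) (nat_lit 493858305440582043680)) (.cons (.ev (nat_lit 4722438541563211546881) (nat_lit 1)) .nil))) .nil)))) (.cons (.br (nat_lit 12) (nat_lit 0) (.cons (.rf (nat_lit 5148) (nat_lit 457929673865483879488)) (.cons (.kr (nat_lit 309485009821345068741558272) (nat_lit 79228167236630820463189164032) (nat_lit 3) (nat_lit 0)) (.cons (.br (nat_lit 6) (nat_lit 1) (.cons (.rf (nat_lit 5197) (nat_lit 457929673865483880480)) (.cons (.rf (nat_lit 5239) (nat_lit 493858305440582043680)) (.cons (.br (nat_lit 6) (nat_lit 1) (.cons (.rf (nat_lit 4920) (nat_lit 458046633314295678016)) (.cons (.rf (nat_lit 5239) (nat_lit 493858305440582043680)) .nil))) .nil)))) .nil)))) .nil)))),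
 (.br (nat_lit 10) (nat_lit 1) (.cons (.rf (nat_lit 4920) (nat_lit 457822648505293145152)) (.cons (.rf (nat_lit 5240) (nat_lit 493858305440582043680)) (.cons (.br (nat_lit 12) (nat_lit 0) (.cons (.rf (nat_lit 5148) (nat_lit 457929673865483879488)) (.cons (.kr (nat_lit 309485009821345068741558272) (nat_lit 79228167236630820463189164032) (nat_lit 3) (nat_lit 0)) (.cons (.br (nat_lit 6) (nat_lit 1) (.cons (.rf (nat_lit 5197) (nat_lit 457929673865483880480)) (.cons (.rf (nat_lit 5196) (nat_lit 457929673865483879488)) .nil))) .nil)))) .nil))))]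

theorem c200 : chkAll C T R L200 (nat_lit 5215) = true := by decide +kernel

theorem l200 : (nat_lit 5215) + L200.length = (nat_lit 5242) := by decide +kernel

/-- part of the certificates -/
def L201 : List Prf := [(.br (nat_lit 11) (nat_lit 1) (.cons (.rf (nat_lit 5226) (nat_lit 493858305440582043680)) (.cons (.br (nat_lit 2) (nat_lit 0) (.cons (.rf (nat_lit 5231) (nat_lit 493858305440582043680)) (.cons (.rf (nat_lit 5233) (nat_lit 493858305440582043680)) (.cons (.rf (nat_lit 5235) (nat_lit 493858305440582043680)) (.cons (.br (nat_lit 2) (nat_lit 0) (.cons (.rf (nat_lit 5231) (nat_lit 493858305440582043680)) (.cons (.rf (nat_lit 5233) (nat_lit 493858305440582043680)) (.cons (.rf (nat_lit 5235) (nat_lit 493858305440582043680)) .nil)))) .nil))))) (.cons (.br (nat_lit 10) (nat_lit 1) (.cons (.rf (nat_lit 5237) (nat_lit 493858305440582043680)) (.cons (.rf (nat_lit 5240) (nat_lit 493858305440582043680)) (.cons (.rf (nat_lit 5241) (nat_lit 493858305440582043680)) (.cons (.br (nat_lit 10) (nat_lit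 1) (.cons (.rf (nat_lit 5237) (nat_lit 493858305440582043680)) (.cons (.rf (nat_lit 5240) (nat_lit 493858305440582043680)) (.cons (.rf (nat_lit 5241) (nat_lit 493858305440582043680)) .nil)))) .nil))))) (.cons (.rf (nat_lit 5178) (nat_lit 458005178423107160096)) .nil))))),
 (.br (nat_lit 8) (nat_lit 1) (.cons (.rf (nat_lit 3419) (nat_lit 493604770158142031904)) (.cons (.rf (nat_lit 4920) (nat_lit 493604770158142031904)) (.cons (.rf (nat_lit 4920) (nat_lit 457864203446677407776)) .nil)))),
 (.br (nat_lit 10) (nat_lit 1) (.cons (.rf (nat_lit 4920) (nat_lit 493563215216757770272)) (.cons (.rf (nat_lit 4920) (nat_lit 493563215216757769280)) (.cons (.br (nat_lit 11) (nat_lit 1) (.cons (.br (nat_lit 6) (nat_lit 1) (.cons (.zr (nat_lit 237686905394432245337516343296) (nat_lit 309489805975085712496656385) (nat_lit 5) (nat_lit 0)) .nil)) (.cons (.rf (nat_lit 4926) (nat_lit 458117701343573738560)) .nil))) .nil)))),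
 (.br (nat_lit 8) (nat_lit 1) (.cons (.rf (nat_lit 4920) (nat_lit 493604770158142031904)) (.cons (.rf (nat_lit 4920) (nat_lit 493604770158142030912)) (.cons (.br (nat_lit 10) (nat_lit 1) (.cons (.rf (nat_lit 5243) (nat_lit 457935134042368542752)) (.cons (.rf (nat_lit 5243) (nat_lit 457935134042368541760)) (.cons (.rf (nat_lit 5244) (nat_lit 493858305440582043680)) (.cons (.br (nat_lit 10) (nat_lit 1) (.cons (.rf (nat_lit 4920) (nat_lit 457822648505293146144)) (.cons (.rf (nat_lit 4920) (nat_lit 457822648505293145152)) (.cons (.rf (nat_lit 5244) (nat_lit 493858305440582043680)) .nil)))) .nil))))) .nil)))),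
 (.br (nat_lit 12) (nat_lit 0) (.cons (.br (nat_lit 8) (nat_lit 1) (.cons (.rf (nat_lit 5243) (nat_lit 493858305440582043680)) (.cons (.rf (nat_lit 5243) (nat_lit 493858305440582042688)) (.cons (.rf (nat_lit 5245) (nat_lit 493858305440582043680)) (.cons (.br (nat_lit 8) (nat_lit 1) (.cons (.rf (nat_lit 4920) (nat_lit 457864203446677407776)) (.cons (.rf (nat_lit 4920) (nat_lit 457864203446677406784)) (.cons (.rf (nat_lit 5245) (nat_lit 493858305440582043680)) .nil)))) .nil))))) (.cons (.rf (nat_lit 5218) (nat_lit 457935134042368541760)) (.cons (.rf (nat_lit 5148) (nat_lit 457929673865483880480)) (.cons (.rf (nat_lit 5075) (nat_lit 457935134042368541760)) .nil))))),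
 (.br (nat_lit 2) (nat_lit 0) (.cons (.rf (nat_lit 5183) (nat_lit 493823402543469922336)) (.cons (.br (nat_lit 5) (nat_lit 0) (.cons (.kr (nat_lit 20282409603651743044491242635520) (nat_lit 79228162514264338693089198080) (nat_lit 1) (nat_lit 0)) .nil)) .nil))),
 (.br (nat_lit 10) (nat_lit 1) (.cons (.rf (nat_lit 4920) (nat_lit 493563215216757769280)) (.cons (.br (nat_lit 7) (nat_lit 0) (.cons (.rf (nat_lit 5247) (nat_lit 493858305440582043680)) (.cons (.rf (nat_lit 4933) (nat_lit 493675948141801736224)) (.cons (.br (nat_lit 2) (nat_lit 0) (.cons (.br (nat_lit 5) (nat_lit 0) (.cons (.ev (nat_lit 79850773478465605000998617090) (nat_lit 2)) .nil)) (.cons (.br (nat_lit 5) (nat_lit 0) (.cons (.ev (nat_lit 79850773478465605000998617090) (nat_lit 2)) .nil)) .nil))) .nil)))) .nil))),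
 (.br (nat_lit 10) (nat_lit 1) (.cons (.rf (nat_lit 4920) (nat_lit 493563215216757770272)) (.cons (.br (nat_lit 1) (nat_lit 0) (.cons (.br (nat_lit 5) (nat_lit 0) (.cons (.rf (nat_lit 1984) (nat_lit 457857653550488034464)) (.cons (.rf (nat_lit 1984) (nat_lit 493563215044824865952)) .nil))) (.cons (.br (nat_lit 11) (nat_lit 1) (.cons (.ev (nat_lit 79537652264899191080616984833) (nat_lit 1)) (.cons (.ev (nat_lit 20282719088679938513089702396161) (nat_lit 1)) .nil))) (.cons (.br (nat_lit 4) (nat_lit 1) (.cons (.ev (nat_lit 79228167236631101942460842241) (nat_lit 1)) (.cons (.ev (nat_lit 20282409603651670423951546253569) (nat_lit 1)) .nil))) .nil)))) .nil))),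
 (.br (nat_lit 10) (nat_lit 1) (.cons (.rf (nat_lit 3419) (nat_lit 493563215216757770272)) (.cons (.rf (nat_lit 4920) (nat_lit 493563215216757769280)) (.cons (.rf (nat_lit 4920) (nat_lit 457822648505293145152)) .nil)))),
 (.br (nat_lit 10) (nat_lit 1) (.cons (.rf (nat_lit 4920) (nat_lit 493563215216757770272)) (.cons (.rf (nat_lit 4920) (nat_lit 493563215216757769280)) (.cons (.br (nat_lit 8) (nat_lit 1) (.cons (.br (nat_lit 11) (nat_lit 1) (.cons (.ev (nat_lit 79537652264899191080616984833) (nat_lit 1)) (.cons (.ev (nat_lit 20282719088679938513089702396161) (nat_lit 1)) .nil))) (.cons (.br (nat_lit 7) (nat_lit 0) (.cons (.ev (nat_lit 79228162514336396291388538881) (nat_lit 1)) (.cons (.ev (nat_lit 20361947255916641673721401114625) (nat_lit 1)) .nil))) (.cons (.br (nat_lit 2) (nat_lit 0) (.cons (.ev (nat_lit 20282409608374109246989717798913) (nat_lit 1)) (.cons (.ev (nat_lit 20361947255916641673721401114625) (nat_lit 1)) .nil))) .nil)))) .nil)))),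
 (.br (nat_lit 8) (nat_lit 1) (.cons (.rf (nat_lit 4920) (nat_lit 493604770158142031904)) (.cons (.rf (nat_lit 4920) (nat_lit 493604770158142030912)) (.cons (.br (nat_lit 1) (nat_lit 0) (.cons (.rf (nat_lit 5218) (nat_lit 458009550086699354144)) (.cons (.br (nat_lit 10) (nat_lit 1) (.cons (.rf (nat_lit 5242) (nat_lit 493598220365233194048)) (.cons (.br (nat_lit 2) (nat_lit 0) (.cons (.rf (nat_lit 5218) (nat_lit 458009550086699353152)) (.cons (.rf (nat_lit 5247) (nat_lit 457935127443157648448)) .nil))) (.cons (.rf (nat_lit 4933) (nat_lit 493678129572871243808)) .nil)))) (.cons (.br (nat_lit 7) (nat_lit 0) (.cons (.br (nat_lit 6) (nat_lit 1) (.cons (.br (nat_lit 5) (nat_lit 0) (.cons (.ev (nat_lit 79849555126503602427948892674) (nat_lit 2)) .nil)) (.cons (.br (nat_lit 11) (nat_lit 1) (.cons (.ev (nat_lit 79849555163252975387258585090) (nat_lit 2)) .nil)) .nil))) (.cons (.rf (nat_lit 4933) (nat_lit 493817741161319729184)) (.cons (.br (nat_lit 4) (nat_lit 1) (.cons (.ev (nat_lit 309485028340146740784005121)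 (nat_lit 1)) (.cons (.ev (nat_lit 20282719093402377053557680504833) (nat_lit 1)) .nil))) .nil)))) (.cons (.rf (nat_lit 4826) (nat_lit 14308256357708661824)) .nil))))) .nil)))),
 (.br (nat_lit 12) (nat_lit 0) (.cons (.rf (nat_lit 5246) (nat_lit 493858305440582043680)) (.cons (.br (nat_lit 6) (nat_lit 1) (.cons (.br (nat_lit 10) (nat_lit 1) (.cons (.rf (nat_lit 5250) (nat_lit 493858305440582043680)) (.cons (.rf (nat_lit 5248) (nat_lit 493858305440582043680)) (.cons (.br (nat_lit 10) (nat_lit 1) (.cons (.rf (nat_lit 4920) (nat_lit 457822648505293145152)) (.cons (.rf (nat_lit 5248) (nat_lit 493858305440582043680)) .nil))) .nil)))) (.cons (.br (nat_lit 10) (nat_lit 1) (.cons (.rf (nat_lit 5250) (nat_lit 493858305440582042688)) (.cons (.rf (nat_lit 5249) (nat_lit 493858305440582043680)) (.cons (.br (nat_lit 10) (nat_lit 1) (.cons (.rf (nat_lit 4920) (nat_lit 457822648505293146144)) (.cons (.rf (nat_lit 5249) (nat_lit 493858305440582043680)) .nil))) .nil)))) (.cons (.br (nat_lit 10) (nat_lit 1) (.cons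 (.rf (nat_lit 5250) (nat_lit 493858305440582042688)) (.cons (.rf (nat_lit 5250) (nat_lit 493858305440582043680)) (.cons (.rf (nat_lit 5251) (nat_lit 493858305440582043680)) (.cons (.br (nat_lit 10) (nat_lit 1) (.cons (.rf (nat_lit 4920) (nat_lit 457822648505293146144)) (.cons (.rf (nat_lit 4920) (nat_lit 457822648505293145152)) (.cons (.rf (nat_lit 5251) (nat_lit 493858305440582043680)) .nil)))) .nil))))) (.cons (.kr (nat_lit 281474976710656) (nat_lit 79228162514264337593543950336) (nat_lit 6) (nat_lit 0)) .nil))))) (.cons (.br (nat_lit 8) (nat_lit 1) (.cons (.rf (nat_lit 5197) (nat_lit 458009550086699353152)) (.cons (.rf (nat_lit 5197) (nat_lit 458009550086699354144)) (.cons (.rf (nat_lit 5252) (nat_lit 493858305440582043680)) (.cons (.br (nat_lit 8) (nat_lit 1) (.cons (.rf (nat_lit 4920) (nat_lit 457864203446677407776)) (.cons (.rf (nat_lit 4920) (nat_lit 457864203446677406784)) (.cons (.rf (nat_lit 5252) (nat_lit 493858305440582043680)) .nil)))) .nil))))) (.cons (.rf (nat_lit 5178) (nat_lit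 458005178423107159104)) .nil))))),
 (.br (nat_lit 6) (nat_lit 1) (.cons (.rf (nat_lit 4920) (nat_lit 493787200025760303136)) (.cons (.rf (nat_lit 4920) (nat_lit 493787200025760302144)) (.cons (.br (nat_lit 10) (nat_lit 1) (.cons (.rf (nat_lit 5253) (nat_lit 493598220365233195040)) (.cons (.rf (nat_lit 5242) (nat_lit 493598220365233194048)) (.cons (.br (nat_lit 11) (nat_lit 1) (.cons (.ev (nat_lit 79229371440083952222718656769) (nat_lit 1)) (.cons (.rf (nat_lit 5218) (nat_lit 457929673865483879488)) (.cons (.br (nat_lit 8) (nat_lit 1) (.cons (.ev (nat_lit 20282719088679938513089702396161) (nat_lit 1)) (.cons (.br (nat_lit 1) (nat_lit 0) (.cons (.zr (nat_lit 237684496987525981818490912768) (nat_lit 310694009428217484894273537) (nat_lit 5) (nat_lit 0)) .nil)) .nil))) .nil)))) (.cons (.rf (nat_lit 5194) (nat_lit 457929673865483880480)) .nil))))) .nil)))),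
 (.br (nat_lit 12) (nat_lit 0) (.cons (.rf (nat_lit 5218) (nat_lit 457935134042368541760)) (.cons (.rf (nat_lit 5253) (nat_lit 493858305440582043680)) (.cons (.br (nat_lit 6) (nat_lit 1) (.cons (.rf (nat_lit 5197) (nat_lit 457929673865483879488)) (.cons (.rf (nat_lit 5197) (nat_lit 457929673865483880480)) (.cons (.rf (nat_lit 5254) (nat_lit 493858305440582043680)) (.cons (.br (nat_lit 6) (nat_lit 1) (.cons (.rf (nat_lit 4920) (nat_lit 458046633314295679008)) (.cons (.rf (nat_lit 4920) (nat_lit 458046633314295678016)) (.cons (.rf (nat_lit 5254) (nat_lit 493858305440582043680)) .nil)))) .nil))))) (.cons (.rf (nat_lit 5178) (nat_lit 458005178423107159104)) .nil))))),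
 (.br (nat_lit 6) (nat_lit 1) (.cons (.rf (nat_lit 4920) (nat_lit 493787200025760302144)) (.cons (.rf (nat_lit 4920) (nat_lit 458046633314295678016)) (.cons (.br (nat_lit 2) (nat_lit 0) (.cons (.rf (nat_lit 5197) (nat_lit 458009550086699354144)) (.cons (.br (nat_lit 5) (nat_lit 0) (.cons (.br (nat_lit 7) (nat_lit 0) (.cons (.ev (nat_lit 20678557679333829329602044430084) (nat_lit 3)) .nil)) .nil)) .nil))) .nil)))),
 (.br (nat_lit 8) (nat_lit 1) (.cons (.rf (nat_lit 4920) (nat_lit 493604770158142030912)) (.cons (.rf (nat_lit 4920) (nat_lit 457864203446677406784)) (.cons (.br (nat_lit 2) (nat_lit 0) (.cons (.rf (nat_lit 5197) (nat_lit 457929673865483880480)) (.cons (.ev (nat_lit 20361948460120022465312421117953) (nat_lit 1)) .nil))) .nil)))),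
 (.br (nat_lit 2) (nat_lit 0) (.cons (.rf (nat_lit 5256) (nat_lit 493858305440582043680)) (.cons (.rf (nat_lit 5257) (nat_lit 493858305440582043680)) (.cons (.br (nat_lit 2) (nat_lit 0) (.cons (.rf (nat_lit 5256) (nat_lit 493858305440582043680)) (.cons (.rf (nat_lit 5257) (nat_lit 493858305440582043680)) .nil))) .nil)))),
 (.br (nat_lit 6) (nat_lit 1) (.cons (.rf (nat_lit 4920) (nat_lit 493787200025760302144)) (.cons (.br (nat_lit 12) (nat_lit 0) (.cons (.br (nat_lit 2) (nat_lit 0) (.cons (.ev (nat_lit 20679169395798554331955956220676) (nat_lit 3)) .nil)) (.cons (.ev (nat_lit 79538861172272061636082139393) (nat_lit 1)) .nil))) (.cons (.rf (nat_lit 5218) (nat_lit 458009550086699353152)) .nil)))),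
 (.br (nat_lit 5) (nat_lit 0) (.cons (.rf (nat_lit 5258) (nat_lit 493858305440582043680)) (.cons (.br (nat_lit 2) (nat_lit 0) (.cons (.rf (nat_lit 5259) (nat_lit 493858305440582043680)) (.cons (.rf (nat_lit 4920) (nat_lit 493787200025760302144)) (.cons (.rf (nat_lit 4920) (nat_lit 493604770158142030912)) (.cons (.rf (nat_lit 5259) (nat_lit 493598220365233195040)) .nil))))) (.cons (.rf (nat_lit 5258) (nat_lit 493598220365233195040)) .nil)))),
 (.br (nat_lit 10) (nat_lit 1) (.cons (.rf (nat_lit 3419) (nat_lit 493563215216757770272)) (.cons (.rf (nat_lit 4920) (nat_lit 493563215216757770272)) (.cons (.rf (nat_lit 4920) (nat_lit 457822648505293146144)) (.cons (.br (nat_lit 5) (nat_lit 0) (.cons (.rf (nat_lit 5258) (nat_lit 493858305440582043680)) (.cons (.rf (nat_lit 5260) (nat_lit 493858305440582043680)) (.cons (.rf (nat_lit 5260) (nat_lit 493598220365233195040)) (.cons (.rf (nat_lit 5258) (nat_lit 493598220365233195040)) .nil))))) .nil))))),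
 (.br (nat_lit 1) (nat_lit 0) (.cons (.br (nat_lit 6) (nat_lit 1) (.cons (.rf (nat_lit 3419) (nat_lit 493787200025760303136)) (.cons (.rf (nat_lit 4920) (nat_lit 493787200025760303136)) (.cons (.rf (nat_lit 4920) (nat_lit 458046633314295679008)) (.cons (.br (nat_lit 2) (nat_lit 0) (.cons (.rf (nat_lit 5197) (nat_lit 458009550086699354144)) (.cons (.br (nat_lit 5) (nat_lit 0) (.cons (.br (nat_lit 7) (nat_lit 0) (.cons (.ev (nat_lit 20678557679333829329602044430084) (nat_lit 3)) .nil)) .nil)) .nil))) .nil))))) (.cons (.br (nat_lit 12) (nat_lit 0) (.cons (.rf (nat_lit 5197) (nat_lit 458009550086699353152)) (.cons (.rf (nat_lit 3606) (nat_lit 493787200025760302144)) (.cons (.rf (nat_lit 5148) (nat_lit 458046633314295678016)) .nil)))) (.cons (.ev (nat_lit 4722366482873940181249) (nat_lit 1)) .nil)))),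
 (.br (nat_lit 5) (nat_lit 0) (.cons (.rf (nat_lit 5262) (nat_lit 493858305440582043680)) (.cons (.br (nat_lit 2) (nat_lit 0) (.cons (.br (nat_lit 12) (nat_lit 0) (.cons (.rf (nat_lit 5218) (nat_lit 458009550086699353152)) (.cons (.br (nat_lit 6) (nat_lit 1) (.cons (.ev (nat_lit 1213666632841576824439041) (nat_lit 1)) (.cons (.ev (nat_lit 79229385607327518231638441986) (nat_lit 2)) .nil))) (.cons (.rf (nat_lit 5178) (nat_lit 458009550086699353152)) .nil)))) (.cons (.rf (nat_lit 4920) (nat_lit 493787200025760302144)) (.cons (.rf (nat_lit 4920) (nat_lit 493604770158142030912)) (.cons (.br (nat_lit 1) (nat_lit 0) (.cons (.br (nat_lit 12) (nat_lit 0) (.cons (.rf (nat_lit 5218) (nat_lit 458009550086699354144)) (.cons (.rf (nat_lit 5218) (nat_lit 457929673865483879488)) .nil))) (.cons (.rf (nat_lit 4920) (nat_lit 493787200025760303136)) (.cons (.rf (nat_lit 4920) (nat_lit 493604770158142031904)) .nil)))) .nil))))) (.cons (.rf (nat_lit 5262) (nat_lit 493598220365233194048)) .nil)))),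
 (.br (nat_lit 10) (nat_lit 1) (.cons (.rf (nat_lit 3419) (nat_lit 493563215216757770272)) (.cons (.rf (nat_lit 4920) (nat_lit 493563215216757769280)) (.cons (.rf (nat_lit 4920) (nat_lit 457822648505293145152)) (.cons (.br (nat_lit 5) (nat_lit 0) (.cons (.rf (nat_lit 5262) (nat_lit 493858305440582043680)) (.cons (.rf (nat_lit 5263) (nat_lit 493858305440582043680)) (.cons (.rf (nat_lit 5263) (nat_lit 493598220365233194048)) (.cons (.rf (nat_lit 5262) (nat_lit 493598220365233194048)) .nil))))) .nil)))))]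

theorem c201 : chkAll C T R L201 (nat_lit 5242) = true := by decide +kernel

theorem l201 : (nat_lit 5242) + L201.length = (nat_lit 5265) := by decide +kernel

/-- part of the certificates -/
def L202 : List Prf := [(.br (nat_lit 8) (nat_lit 1) (.cons (.rf (nat_lit 3419) (nat_lit 493604770158142031904)) (.cons (.ev (nat_lit 1213666704900266095804673) (nat_lit 1)) (.cons (.br (nat_lit 5) (nat_lit 0) (.cons (.br (nat_lit 11) (nat_lit 1) (.cons (.br (nat_lit 12) (nat_lit 0) (.cons (.br (nat_lit 6) (nat_lit 1) (.cons (.ev (nat_lit 309485028340429310977441793) (nat_lit 1)) .nil)) .nil)) (.cons (.ev (nat_lit 79228167236702879156738720001) (nat_lit 1)) .nil))) (.cons (.rf (nat_lit 4465) (nat_lit 457857653653768570912)) (.cons (.ev (nat_lit 309489750634572012096323841) (nat_lit 1)) .nil)))) .nil)))),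
 (.br (nat_lit 8) (nat_lit 1) (.cons (.rf (nat_lit 3419) (nat_lit 493604770158142031904)) (.cons (.rf (nat_lit 4920) (nat_lit 493604770158142030912)) (.cons (.br (nat_lit 5) (nat_lit 0) (.cons (.br (nat_lit 1) (nat_lit 0) (.cons (.br (nat_lit 2) (nat_lit 0) (.cons (.rf (nat_lit 3419) (nat_lit 493787200025760303136)) (.cons (.br (nat_lit 12) (nat_lit 0) (.cons (.ev (nat_lit 79537647542532708215266803713) (nat_lit 1)) .nil)) .nil))) (.cons (.ev (nat_lit 4722366482873940181249) (nat_lit 1)) .nil))) (.cons (.rf (nat_lit 4465) (nat_lit 457857653653768570912)) (.cons (.br (nat_lit 12) (nat_lit 0) (.cons (.kr (nat_lit 1208925819614633469673472) (nat_lit 79537647524085682662268731392) (nat_lit 4) (nat_lit 0)) (.cons (.br (nat_lit 6) (nat_lit 1) (.cons (.ev (nat_lit 79228167236703160631732207873) (nat_lit 1)) (.cons (.ev (nat_lit 20361947255916641673721401114625) (nat_lit 1)) .nil))) .nil))) .nil)))) .nil)))),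
 (.br (nat_lit 2) (nat_lit 0) (.cons (.br (nat_lit 6) (nat_lit 1) (.cons (.rf (nat_lit 3419) (nat_lit 493787200025760303136)) (.cons (.ev (nat_lit 72340172821299201) (nat_lit 1)) .nil))) (.cons (.rf (nat_lit 5049) (nat_lit 493823368456464074784)) .nil))),
 (.br (nat_lit 6) (nat_lit 1) (.cons (.rf (nat_lit 3419) (nat_lit 493787200025760303136)) (.cons (.br (nat_lit 2) (nat_lit 0) (.cons (.ev (nat_lit 72340172821299201) (nat_lit 1)) (.cons (.ev (nat_lit 20361947255916641673721401114625) (nat_lit 1)) .nil))) .nil))),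
 (.br (nat_lit 8) (nat_lit 1) (.cons (.ev (nat_lit 1213666704900266095804673) (nat_lit 1)) (.cons (.rf (nat_lit 4920) (nat_lit 493604770158142030912)) (.cons (.br (nat_lit 2) (nat_lit 0) (.cons (.rf (nat_lit 5267) (nat_lit 493858305440582043680)) (.cons (.rf (nat_lit 5268) (nat_lit 493858305440582043680)) (.cons (.br (nat_lit 2) (nat_lit 0) (.cons (.rf (nat_lit 5049) (nat_lit 493823368456464074784)) (.cons (.rf (nat_lit 5268) (nat_lit 493858305440582043680)) .nil))) .nil)))) .nil)))),
 (.br (nat_lit 12) (nat_lit 0) (.cons (.rf (nat_lit 5218) (nat_lit 458009550086699353152)) (.cons (.br (nat_lit 1) (nat_lit 0) (.cons (.rf (nat_lit 5197) (nat_lit 457929673865483879488)) (.cons (.rf (nat_lit 3608) (nat_lit 493787200025760302144)) (.cons (.ev (nat_lit 79229371440083952222718656769) (nat_lit 1)) .nil)))) (.cons (.rf (nat_lit 5178) (nat_lit 458009550086699353152)) .nil)))),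
 (.br (nat_lit 6) (nat_lit 1) (.cons (.rf (nat_lit 3419) (nat_lit 493787200025760303136)) (.cons (.rf (nat_lit 4920) (nat_lit 493787200025760302144)) (.cons (.rf (nat_lit 4920) (nat_lit 458046633314295678016)) (.cons (.br (nat_lit 2) (nat_lit 0) (.cons (.rf (nat_lit 5218) (nat_lit 458009550086699353152)) (.cons (.rf (nat_lit 5197) (nat_lit 458009550086699354144)) (.cons (.br (nat_lit 1) (nat_lit 0) (.cons (.rf (nat_lit 5218) (nat_lit 458009550086699354144)) (.cons (.rf (nat_lit 5197) (nat_lit 458009550086699353152)) .nil))) .nil)))) .nil))))),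
 (.br (nat_lit 8) (nat_lit 1) (.cons (.rf (nat_lit 3419) (nat_lit 493604770158142031904)) (.cons (.rf (nat_lit 4920) (nat_lit 493604770158142030912)) (.cons (.rf (nat_lit 4920) (nat_lit 457864203446677406784)) (.cons (.br (nat_lit 2) (nat_lit 0) (.cons (.rf (nat_lit 5270) (nat_lit 493858305440582043680)) (.cons (.rf (nat_lit 5197) (nat_lit 457929673865483880480)) (.cons (.rf (nat_lit 5218) (nat_lit 457929673865483879488)) .nil)))) .nil))))),
 (.br (nat_lit 10) (nat_lit 1) (.cons (.rf (nat_lit 4920) (nat_lit 493563215216757770272)) (.cons (.rf (nat_lit 4920) (nat_lit 493563215216757769280)) (.cons (.br (nat_lit 8) (nat_lit 1) (.cons (.rf (nat_lit 5265) (nat_lit 493858305440582043680)) (.cons (.rf (nat_lit 5266) (nat_lit 493858305440582043680)) (.cons (.rf (nat_lit 5269) (nat_lit 493858305440582043680)) (.cons (.br (nat_lit 8) (nat_lit 1) (.cons (.rf (nat_lit 5265) (nat_lit 493858305440582043680)) (.cons (.rf (nat_lit 5266) (nat_lit 493858305440582043680)) (.cons (.rf (nat_lit 5269) (nat_lit 493858305440582043680))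 .nil)))) .nil))))) (.cons (.br (nat_lit 2) (nat_lit 0) (.cons (.rf (nat_lit 5270) (nat_lit 493858305440582043680)) (.cons (.rf (nat_lit 5271) (nat_lit 493858305440582043680)) (.cons (.rf (nat_lit 5272) (nat_lit 493858305440582043680)) (.cons (.br (nat_lit 2) (nat_lit 0) (.cons (.rf (nat_lit 5270) (nat_lit 493858305440582043680)) (.cons (.rf (nat_lit 5271) (nat_lit 493858305440582043680)) (.cons (.rf (nat_lit 5272) (nat_lit 493858305440582043680)) .nil)))) .nil))))) .nil))))),
 (.br (nat_lit 6) (nat_lit 1) (.cons (.rf (nat_lit 5197) (nat_lit 457929673865483879488)) (.cons (.rf (nat_lit 5197) (nat_lit 457929673865483880480)) (.cons (.rf (nat_lit 4465) (nat_lit 457857653653768570912)) .nil)))),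
 (.br (nat_lit 12) (nat_lit 0) (.cons (.rf (nat_lit 5218) (nat_lit 458009550086699353152)) (.cons (.rf (nat_lit 5274) (nat_lit 493858305440582043680)) (.cons (.rf (nat_lit 5178) (nat_lit 458009550086699353152)) .nil)))),
 (.br (nat_lit 4) (nat_lit 1) (.cons (.rf (nat_lit 5275) (nat_lit 493858305440582042688)) (.cons (.rf (nat_lit 5275) (nat_lit 493858305440582043680)) (.cons (.br (nat_lit 1) (nat_lit 0) (.cons (.rf (nat_lit 3419) (nat_lit 493787200025760303136)) (.cons (.br (nat_lit 6) (nat_lit 1) (.cons (.rf (nat_lit 4920) (nat_lit 493787200025760302144)) (.cons (.rf (nat_lit 5197) (nat_lit 458009550086699353152)) .nil))) (.cons (.ev (nat_lit 4722366482873940181249) (nat_lit 1)) .nil)))) (.cons (.rf (nat_lit 5148) (nat_lit 458038990606830929952)) .nil))))),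
 (.br (nat_lit 8) (nat_lit 1) (.cons (.rf (nat_lit 3419) (nat_lit 493604770158142031904)) (.cons (.rf (nat_lit 4920) (nat_lit 493604770158142030912)) (.cons (.rf (nat_lit 5274) (nat_lit 493858305440582043680)) .nil)))),
 (.br (nat_lit 10) (nat_lit 1) (.cons (.rf (nat_lit 4920) (nat_lit 457822648505293146144)) (.cons (.rf (nat_lit 4920) (nat_lit 457822648505293145152)) (.cons (.rf (nat_lit 5273) (nat_lit 493858305440582043680)) (.cons (.br (nat_lit 2) (nat_lit 0) (.cons (.rf (nat_lit 5275) (nat_lit 493858305440582043680)) (.cons (.rf (nat_lit 5276) (nat_lit 493858305440582043680)) (.cons (.rf (nat_lit 5277) (nat_lit 493858305440582043680)) (.cons (.br (nat_lit 2) (nat_lit 0) (.cons (.rf (nat_lit 5275) (nat_lit 493858305440582043680)) (.cons (.rf (nat_lit 5276) (nat_lit 493858305440582043680)) (.cons (.rf (nat_lit 5277) (nat_lit 493858305440582043680)) .nil)))) .nil))))) .nil))))),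
 (.br (nat_lit 10) (nat_lit 1) (.cons (.rf (nat_lit 3419) (nat_lit 493563215216757770272)) (.cons (.ev (nat_lit 1213648186378978091663361) (nat_lit 1)) .nil))),
 (.br (nat_lit 8) (nat_lit 1) (.cons (.rf (nat_lit 4920) (nat_lit 457864203446677407776)) (.cons (.rf (nat_lit 4920) (nat_lit 457864203446677406784)) (.cons (.br (nat_lit 2) (nat_lit 0) (.cons (.rf (nat_lit 5279) (nat_lit 493858305440582043680)) (.cons (.kr (nat_lit 9463179709821589979136) (nat_lit 40644356854827426531656299708416) (nat_lit 2) (nat_lit 0)) .nil))) .nil)))),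
 (.br (nat_lit 10) (nat_lit 1) (.cons (.rf (nat_lit 4920) (nat_lit 457822648505293146144)) (.cons (.ev (nat_lit 1213648186378978091663361) (nat_lit 1)) (.cons (.br (nat_lit 7) (nat_lit 0) (.cons (.rf (nat_lit 5280) (nat_lit 493858305440582043680)) (.cons (.br (nat_lit 1) (nat_lit 0) (.cons (.br (nat_lit 2) (nat_lit 0) (.cons (.zr (nat_lit 216172790703915008) (nat_lit 310698676454468116247740417) (nat_lit 5) (nat_lit 0)) .nil)) .nil)) .nil))) .nil)))),
 (.br (nat_lit 6) (nat_lit 1) (.cons (.rf (nat_lit 3419) (nat_lit 493787200025760303136)) (.cons (.rf (nat_lit 4920) (nat_lit 493787200025760302144)) (.cons (.rf (nat_lit 4920) (nat_lit 458046633314295678016)) (.cons (.br (nat_lit 7) (nat_lit 0) (.cons (.rf (nat_lit 5280) (nat_lit 493858305440582043680)) (.cons (.rf (nat_lit 5281) (nat_lit 493858305440582043680)) (.cons (.br (nat_lit 7) (nat_lit 0) (.cons (.rf (nat_lit 5280) (nat_lit 493858305440582043680)) (.cons (.rf (nat_lit 5281) (nat_lit 493858305440582043680)) .nil))) .nil)))) .nil))))),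
 (.br (nat_lit 8) (nat_lit 1) (.cons (.rf (nat_lit 3419) (nat_lit 493604770158142031904)) (.cons (.rf (nat_lit 4920) (nat_lit 493604770158142030912)) (.cons (.rf (nat_lit 4920) (nat_lit 457864203446677406784)) (.cons (.br (nat_lit 1) (nat_lit 0) (.cons (.rf (nat_lit 5075) (nat_lit 458009550086699354144)) (.cons (.rf (nat_lit 5158) (nat_lit 457824828835778365472)) (.cons (.rf (nat_lit 4908) (nat_lit 458116643612319221792)) (.cons (.rf (nat_lit 5178) (nat_lit 457824828835778365472)) .nil))))) .nil))))),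
 (.br (nat_lit 2) (nat_lit 0) (.cons (.rf (nat_lit 5282) (nat_lit 493858305440582043680)) (.cons (.rf (nat_lit 5283) (nat_lit 493858305440582043680)) (.cons (.br (nat_lit 10) (nat_lit 1) (.cons (.kr (nat_lit 20282409603651670423947251286272) (nat_lit 4295032832) (nat_lit 1) (nat_lit 0)) (.cons (.rf (nat_lit 4920) (nat_lit 493563215216757769280)) (.cons (.rf (nat_lit 4920) (nat_lit 457822648505293145152)) (.cons (.rf (nat_lit 5075) (nat_lit 457824828835778364480)) .nil))))) .nil)))),
 (.br (nat_lit 6) (nat_lit 1) (.cons (.rf (nat_lit 3419) (nat_lit 493787200025760303136)) (.cons (.rf (nat_lit 4920) (nat_lit 493787200025760302144)) (.cons (.rf (nat_lit 4920) (nat_lit 458046633314295678016)) (.cons (.br (nat_lit 8) (nat_lit 1) (.cons (.br (nat_lit 8) (nat_lit 1) (.cons (.rf (nat_lit 3419) (nat_lit 493604770158142031904)) (.cons (.rf (nat_lit 4920) (nat_lit 493604770158142031904)) (.cons (.ev (nat_lit 20282409608374109245885927915521) (nat_lit 1)) .nil)))) (.cons (.rf (nat_lit 5283) (nat_lit 493858305440582043680))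 (.cons (.br (nat_lit 8) (nat_lit 1) (.cons (.rf (nat_lit 4920) (nat_lit 493604770158142031904)) (.cons (.rf (nat_lit 4920) (nat_lit 493604770158142030912)) (.cons (.ev (nat_lit 20282409608374109245885927915521) (nat_lit 1)) .nil)))) (.cons (.ev (nat_lit 20282409608374109245885927915521) (nat_lit 1)) .nil))))) .nil))))),
 (.br (nat_lit 10) (nat_lit 1) (.cons (.rf (nat_lit 3419) (nat_lit 493563215216757770272)) (.cons (.rf (nat_lit 4920) (nat_lit 493563215216757769280)) (.cons (.rf (nat_lit 4920) (nat_lit 457822648505293145152)) (.cons (.br (nat_lit 2) (nat_lit 0) (.cons (.rf (nat_lit 5285) (nat_lit 493858305440582043680)) (.cons (.rf (nat_lit 5283) (nat_lit 493858305440582043680)) (.cons (.rf (nat_lit 5075) (nat_lit 457824828835778364480)) .nil)))) .nil))))),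
 (.br (nat_lit 6) (nat_lit 1) (.cons (.rf (nat_lit 3419) (nat_lit 493787200025760303136)) (.cons (.rf (nat_lit 4920) (nat_lit 493787200025760302144)) (.cons (.rf (nat_lit 4920) (nat_lit 458046633314295678016)) .nil)))),
 (.br (nat_lit 13) (nat_lit 0) (.cons (.rf (nat_lit 5075) (nat_lit 493858305440582043680)) (.cons (.rf (nat_lit 5148) (nat_lit 493857210323783844928)) (.cons (.rf (nat_lit 5218) (nat_lit 493858305440582043680)) (.cons (.br (nat_lit 9) (nat_lit 1) (.cons (.rf (nat_lit 5242) (nat_lit 493858305440582043680)) (.cons (.br (nat_lit 12) (nat_lit 0) (.cons (.rf (nat_lit 5246) (nat_lit 493858305440582043680)) (.cons (.rf (nat_lit 5253) (nat_lit 493858305440582043680)) (.cons (.rf (nat_lit 5255) (nat_lit 493858305440582043680)) (.cons (.br (nat_lit 12) (nat_lit 0) (.cons (.rf (nat_lit 5148) (nat_lit 457929673865483880480)) (.cons (.rf (nat_lit 5253) (nat_lit 493858305440582043680)) (.cons (.rf (nat_lit 5255) (nat_lit 493858305440582043680)) (.cons (.rf (nat_lit 5148) (nat_lit 458009550086699354144))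 .nil))))) (.cons (.rf (nat_lit 5178) (nat_lit 458005178423107159104)) .nil)))))) (.cons (.kr (nat_lit 4722366482869645213696) (nat_lit 20282409603651670423947251286016) (nat_lit 9) (nat_lit 0)) (.cons (.br (nat_lit 10) (nat_lit 1) (.cons (.rf (nat_lit 5261) (nat_lit 493858305440582043680)) (.cons (.rf (nat_lit 5264) (nat_lit 493858305440582043680)) (.cons (.rf (nat_lit 5273) (nat_lit 493858305440582043680)) (.cons (.rf (nat_lit 5278) (nat_lit 493858305440582043680)) (.cons (.br (nat_lit 10) (nat_lit 1) (.cons (.rf (nat_lit 5261) (nat_lit 493858305440582043680)) (.cons (.rf (nat_lit 5264) (nat_lit 493858305440582043680)) (.cons (.rf (nat_lit 5273) (nat_lit 493858305440582043680)) (.cons (.rf (nat_lit 5278) (nat_lit 493858305440582043680)) .nil))))) .nil)))))) (.cons (.br (nat_lit 4) (nat_lit 1) (.cons (.rf (nat_lit 5075) (nat_lit 458009550086699354144)) (.cons (.rf (nat_lit 5075) (nat_lit 458009550086699353152)) (.cons (.br (nat_lit 2) (nat_lit 0) (.cons (.rf (nat_lit 5282) (nat_lit 493858305440582043680))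 (.cons (.rf (nat_lit 5283) (nat_lit 493858305440582043680)) (.cons (.rf (nat_lit 5284) (nat_lit 493858305440582043680)) (.cons (.br (nat_lit 2) (nat_lit 0) (.cons (.rf (nat_lit 5282) (nat_lit 493858305440582043680)) (.cons (.rf (nat_lit 5283) (nat_lit 493858305440582043680)) (.cons (.rf (nat_lit 5284) (nat_lit 493858305440582043680)) .nil)))) .nil))))) (.cons (.br (nat_lit 2) (nat_lit 0) (.cons (.rf (nat_lit 5285) (nat_lit 493858305440582043680)) (.cons (.rf (nat_lit 5283) (nat_lit 493858305440582043680)) (.cons (.rf (nat_lit 5286) (nat_lit 493858305440582043680)) (.cons (.br (nat_lit 2) (nat_lit 0) (.cons (.rf (nat_lit 5285) (nat_lit 493858305440582043680)) (.cons (.rf (nat_lit 5283) (nat_lit 493858305440582043680)) (.cons (.rf (nat_lit 5286) (nat_lit 493858305440582043680)) .nil)))) .nil))))) (.cons (.br (nat_lit 2) (nat_lit 0) (.cons (.rf (nat_lit 5287) (nat_lit 493858305440582043680)) (.cons (.rf (nat_lit 5283) (nat_lit 493858305440582043680)) (.cons (.rf (nat_lit 5287) (nat_lit 457824828835778365472))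 (.cons (.br (nat_lit 1) (nat_lit 0) (.cons (.rf (nat_lit 5287) (nat_lit 493858305440582042688)) (.cons (.rf (nat_lit 5283) (nat_lit 457824828835778364480)) (.cons (.rf (nat_lit 5287) (nat_lit 457824828835778364480)) .nil)))) .nil))))) .nil)))))) .nil)))))) .nil))))),
 (.br (nat_lit 12) (nat_lit 0) (.cons (.rf (nat_lit 5288) (nat_lit 458009550086699353152)) (.cons (.br (nat_lit 2) (nat_lit 0) (.cons (.rf (nat_lit 5197) (nat_lit 457929673865483880480)) (.cons (.rf (nat_lit 5288) (nat_lit 493779557318295553088)) (.cons (.rf (nat_lit 5288) (nat_lit 457929673865483879488)) .nil)))) (.cons (.rf (nat_lit 5178) (nat_lit 458009550086699353152)) .nil))))]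

theorem c202 : chkAll C T R L202 (nat_lit 5265) = true := by decide +kernel

theorem l202 : (nat_lit 5265) + L202.length = (nat_lit 5290) := by decide +kernel

/-- part of the certificates -/
def L203 : List Prf := [(.br (nat_lit 12) (nat_lit 0) (.cons (.rf (nat_lit 5288) (nat_lit 458009550086699353152)) (.cons (.rf (nat_lit 5289) (nat_lit 493858305440582043680)) (.cons (.br (nat_lit 12) (nat_lit 0) (.cons (.rf (nat_lit 5288) (nat_lit 458009550086699353152)) (.cons (.rf (nat_lit 5289) (nat_lit 493858305440582043680)) (.cons (.rf (nat_lit 5178) (nat_lit 458009550086699353152)) .nil)))) (.cons (.rf (nat_lit 5178) (nat_lit 458009550086699353152)) .nil))))),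
 (.br (nat_lit 8) (nat_lit 1) (.cons (.rf (nat_lit 3419) (nat_lit 493604770158142031904)) (.cons (.rf (nat_lit 4920) (nat_lit 493604770158142031904)) (.cons (.rf (nat_lit 4920) (nat_lit 457864203446677407776)) (.cons (.rf (nat_lit 5288) (nat_lit 493779557318295554080)) (.cons (.rf (nat_lit 5288) (nat_lit 493857210323783844928)) .nil)))))),
 (.br (nat_lit 6) (nat_lit 1) (.cons (.rf (nat_lit 3419) (nat_lit 493787200025760303136)) (.cons (.rf (nat_lit 4920) (nat_lit 493787200025760302144)) (.cons (.rf (nat_lit 4920) (nat_lit 458046633314295678016)) (.cons (.br (nat_lit 1) (nat_lit 0) (.cons (.rf (nat_lit 5288) (nat_lit 458009550086699354144)) (.cons (.rf (nat_lit 5291) (nat_lit 493858305440582043680)) (.cons (.br (nat_lit 12) (nat_lit 0) (.cons (.br (nat_lit 2) (nat_lit 0) (.cons (.rf (nat_lit 5291) (nat_lit 457824828835778364480)) (.cons (.br (nat_lit 7) (nat_lit 0) (.cons (.br (nat_lit 8) (nat_lit 1) (.cons (.ev (nat_lit 20283961892867886123296764200708) (nat_lit 3)) .nil)) .nil)) .nil))) (.cons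 (.rf (nat_lit 5288) (nat_lit 457822648505293146144)) (.cons (.rf (nat_lit 5178) (nat_lit 457857653653768570912)) .nil)))) (.cons (.br (nat_lit 5) (nat_lit 0) (.cons (.br (nat_lit 10) (nat_lit 1) (.cons (.rf (nat_lit 4954) (nat_lit 493676995978536781856)) (.cons (.br (nat_lit 2) (nat_lit 0) (.cons (.br (nat_lit 12) (nat_lit 0) (.cons (.zr (nat_lit 237684487579686504226585838336) (nat_lit 310698658008568471763288065) (nat_lit 5) (nat_lit 0)) .nil)) .nil)) (.cons (.ev (nat_lit 79537647524085682666580476161) (nat_lit 1)) .nil)))) (.cons (.br (nat_lit 2) (nat_lit 0) (.cons (.rf (nat_lit 5288) (nat_lit 458009550086699353152)) (.cons (.rf (nat_lit 4920) (nat_lit 493604770158142030912)) (.cons (.br (nat_lit 12) (nat_lit 0) (.cons (.ev (nat_lit 1213648186378978091663361) (nat_lit 1)) (.cons (.rf (nat_lit 5288) (nat_lit 457822648505293145152)) .nil))) .nil)))) (.cons (.ev (nat_lit 1213648186380073325035521) (nat_lit 1)) .nil)))) .nil))))) .nil))))),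
 (.br (nat_lit 8) (nat_lit 1) (.cons (.rf (nat_lit 3419) (nat_lit 493604770158142031904)) (.cons (.rf (nat_lit 4920) (nat_lit 493604770158142030912)) (.cons (.rf (nat_lit 4920) (nat_lit 457864203446677406784)) (.cons (.rf (nat_lit 5288) (nat_lit 493779557318295553088)) .nil))))),
 (.br (nat_lit 2) (nat_lit 0) (.cons (.rf (nat_lit 5290) (nat_lit 493858305440582043680)) (.cons (.rf (nat_lit 5292) (nat_lit 493858305440582043680)) (.cons (.rf (nat_lit 5293) (nat_lit 493858305440582043680)) (.cons (.br (nat_lit 1) (nat_lit 0) (.cons (.br (nat_lit 12) (nat_lit 0) (.cons (.rf (nat_lit 5288) (nat_lit 458009550086699354144)) (.cons (.br (nat_lit 12) (nat_lit 0) (.cons (.rf (nat_lit 5288) (nat_lit 458009550086699354144)) .nil)) .nil))) (.cons (.br (nat_lit 6) (nat_lit 1) (.cons (.rf (nat_lit 4920) (nat_lit 493787200025760303136)) (.cons (.rf (nat_lit 4920) (nat_lit 458046633314295679008)) (.cons (.br (nat_lit 12) (nat_lit 0) (.cons (.rf (nat_lit 5136) (nat_lit 15429726299819706400)) (.cons (.rf (nat_lit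 5288) (nat_lit 457822648505293145152)) .nil))) .nil)))) (.cons (.rf (nat_lit 5293) (nat_lit 493858305440582042688)) .nil)))) .nil))))),
 (.br (nat_lit 6) (nat_lit 1) (.cons (.rf (nat_lit 3419) (nat_lit 493787200025760303136)) (.cons (.br (nat_lit 10) (nat_lit 1) (.cons (.br (nat_lit 11) (nat_lit 1) (.cons (.ev (nat_lit 79848341515067159363432022530) (nat_lit 2)) .nil)) (.cons (.ev (nat_lit 1213648186378978091663361) (nat_lit 1)) .nil))) .nil))),
 (.br (nat_lit 2) (nat_lit 0) (.cons (.rf (nat_lit 5295) (nat_lit 493858305440582043680)) (.cons (.br (nat_lit 1) (nat_lit 0) (.cons (.br (nat_lit 12) (nat_lit 0) (.cons (.zr (nat_lit 237686905394432245337549897728) (nat_lit 1237944780099733122455699457) (nat_lit 5) (nat_lit 0)) .nil)) .nil)) .nil))),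
 (.br (nat_lit 6) (nat_lit 1) (.cons (.rf (nat_lit 3419) (nat_lit 493787200025760303136)) .nil)),
 (.br (nat_lit 8) (nat_lit 1) (.cons (.rf (nat_lit 4920) (nat_lit 493604770158142031904)) (.cons (.rf (nat_lit 4920) (nat_lit 493604770158142030912)) (.cons (.br (nat_lit 4) (nat_lit 1) (.cons (.rf (nat_lit 5075) (nat_lit 458009550086699354144)) (.cons (.rf (nat_lit 5075) (nat_lit 458009550086699353152)) (.cons (.br (nat_lit 2) (nat_lit 0) (.cons (.rf (nat_lit 5295) (nat_lit 493858305440582043680)) (.cons (.rf (nat_lit 5296) (nat_lit 493858305440582043680)) (.cons (.br (nat_lit 2) (nat_lit 0) (.cons (.rf (nat_lit 5295) (nat_lit 493858305440582043680)) (.cons (.rf (nat_lit 5296) (nat_lit 493858305440582043680)) .nil))) .nil)))) (.cons (.br (nat_lit 11) (nat_lit 1) (.cons (.ev (nat_lit 79228167236630820463189164289) (nat_lit 1)) (.cons (.rf (nat_lit 5288) (nat_lit 457824828835778364480)) (.cons (.br (nat_lit 6) (nat_lit 1) (.cons (.rf (nat_lit 5297) (nat_lit 493858305440582042688)) (.cons (.rf (nat_lit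 5297) (nat_lit 493858305440582043680)) .nil))) .nil)))) .nil))))) (.cons (.rf (nat_lit 5177) (nat_lit 457822648505293146144)) .nil))))),
 (.br (nat_lit 9) (nat_lit 1) (.cons (.rf (nat_lit 4920) (nat_lit 493675700753833166880)) (.cons (.rf (nat_lit 4920) (nat_lit 493675700753833165888)) (.cons (.br (nat_lit 2) (nat_lit 0) (.cons (.rf (nat_lit 5290) (nat_lit 493858305440582043680)) (.cons (.rf (nat_lit 5292) (nat_lit 493858305440582043680)) (.cons (.rf (nat_lit 5293) (nat_lit 493858305440582043680)) (.cons (.rf (nat_lit 5294) (nat_lit 493858305440582043680)) (.cons (.br (nat_lit 2) (nat_lit 0) (.cons (.rf (nat_lit 5290) (nat_lit 493858305440582043680)) (.cons (.rf (nat_lit 5292) (nat_lit 493858305440582043680)) (.cons (.rf (nat_lit 5293) (nat_lit 493858305440582043680)) (.cons (.rf (nat_lit 5294) (nat_lit 493858305440582043680)) .nil))))) .nil)))))) (.cons (.br (nat_lit 8) (nat_lit 1) (.cons (.rf (nat_lit 5293) (nat_lit 493858305440582042688)) (.cons (.rf (nat_lit 5293) (nat_lit 493858305440582043680))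 (.cons (.rf (nat_lit 5298) (nat_lit 493858305440582043680)) (.cons (.br (nat_lit 8) (nat_lit 1) (.cons (.rf (nat_lit 4920) (nat_lit 457864203446677407776)) (.cons (.rf (nat_lit 4920) (nat_lit 457864203446677406784)) (.cons (.rf (nat_lit 5298) (nat_lit 493858305440582043680)) (.cons (.rf (nat_lit 5177) (nat_lit 457822648505293146144)) .nil))))) (.cons (.rf (nat_lit 5177) (nat_lit 457822648505293146144)) .nil)))))) .nil))))),
 (.br (nat_lit 6) (nat_lit 1) (.cons (.rf (nat_lit 2680) (nat_lit 14312768546099365920)) (.cons (.br (nat_lit 2) (nat_lit 0) (.cons (.ev (nat_lit 1213648186378978091663361) (nat_lit 1)) (.cons (.br (nat_lit 1) (nat_lit 0) (.cons (.ev (nat_lit 80159035450851950575390752770) (nat_lit 2)) .nil)) .nil))) .nil))),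
 (.br (nat_lit 8) (nat_lit 1) (.cons (.rf (nat_lit 4920) (nat_lit 493604770158142031904)) (.cons (.rf (nat_lit 4920) (nat_lit 493604770158142030912)) (.cons (.br (nat_lit 4) (nat_lit 1) (.cons (.rf (nat_lit 5075) (nat_lit 458009550086699354144)) (.cons (.rf (nat_lit 5075) (nat_lit 458009550086699353152)) (.cons (.br (nat_lit 6) (nat_lit 1) (.cons (.br (nat_lit 6) (nat_lit 1) (.cons (.rf (nat_lit 2680) (nat_lit 14312768546099365920)) (.cons (.rf (nat_lit 4933) (nat_lit 493677003674038143008)) .nil))) (.cons (.rf (nat_lit 5300) (nat_lit 493858305440582043680)) (.cons (.br (nat_lit 6) (nat_lit 1) (.cons (.rf (nat_lit 4933) (nat_lit 493677003674038143008)) (.cons (.rf (nat_lit 5300) (nat_lit 493858305440582043680)) .nil))) .nil)))) (.cons (.br (nat_lit 11) (nat_lit 1) (.cons (.rf (nat_lit 5288) (nat_lit 457824828835778365472)) (.cons (.rf (nat_lit 5288) (nat_lit 457824828835778364480)) (.cons (.br (nat_lit 2) (nat_lit 0) (.cons (.br (nat_lit 2) (nat_lit 0) (.cons (.rf (nat_lit 5279) (nat_lit 457824828835778365472))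 .nil)) (.cons (.br (nat_lit 2) (nat_lit 0) (.cons (.rf (nat_lit 5279) (nat_lit 457824828835778365472)) .nil)) .nil))) .nil)))) .nil))))) (.cons (.rf (nat_lit 5177) (nat_lit 457822648505293146144)) .nil))))),
 (.br (nat_lit 9) (nat_lit 1) (.cons (.rf (nat_lit 4920) (nat_lit 457935134042368542752)) (.cons (.rf (nat_lit 4920) (nat_lit 457935134042368541760)) (.cons (.rf (nat_lit 5299) (nat_lit 493858305440582043680)) (.cons (.br (nat_lit 8) (nat_lit 1) (.cons (.rf (nat_lit 5293) (nat_lit 493858305440582042688)) (.cons (.rf (nat_lit 5293) (nat_lit 493858305440582043680)) (.cons (.rf (nat_lit 5301) (nat_lit 493858305440582043680)) (.cons (.br (nat_lit 8) (nat_lit 1) (.cons (.rf (nat_lit 4920) (nat_lit 457864203446677407776)) (.cons (.rf (nat_lit 4920) (nat_lit 457864203446677406784)) (.cons (.rf (nat_lit 5301) (nat_lit 493858305440582043680)) (.cons (.rf (nat_lit 5177) (nat_lit 457822648505293146144)) .nil))))) (.cons (.rf (nat_lit 5177) (nat_lit 457822648505293146144)) .nil)))))) .nil))))),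
 (.br (nat_lit 13) (nat_lit 0) (.cons (.rf (nat_lit 5075) (nat_lit 493858305440582043680)) (.cons (.rf (nat_lit 5178) (nat_lit 493858305440582043680)) (.cons (.rf (nat_lit 5288) (nat_lit 493858305440582043680)) (.cons (.br (nat_lit 9) (nat_lit 1) (.cons (.rf (nat_lit 5197) (nat_lit 493779557318295553088)) (.cons (.rf (nat_lit 5197) (nat_lit 493779557318295554080)) (.cons (.rf (nat_lit 5299) (nat_lit 493858305440582043680)) (.cons (.rf (nat_lit 5302) (nat_lit 493858305440582043680)) (.cons (.br (nat_lit 9) (nat_lit 1) (.cons (.rf (nat_lit 5075) (nat_lit 493675700753833166880)) (.cons (.rf (nat_lit 5075) (nat_lit 493675700753833165888)) (.cons (.rf (nat_lit 5299) (nat_lit 493858305440582043680)) (.cons (.rf (nat_lit 5302) (nat_lit 493858305440582043680)) .nil))))) .nil)))))) .nil))))),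
 (.br (nat_lit 13) (nat_lit 0) (.cons (.rf (nat_lit 5075) (nat_lit 493858305440582043680)) (.cons (.rf (nat_lit 5178) (nat_lit 493858305440582043680)) (.cons (.rf (nat_lit 5288) (nat_lit 493858305440582043680)) (.cons (.rf (nat_lit 5303) (nat_lit 493858305440582043680)) (.cons (.br (nat_lit 13) (nat_lit 0) (.cons (.rf (nat_lit 5075) (nat_lit 493858305440582043680)) (.cons (.rf (nat_lit 5178) (nat_lit 493858305440582043680)) (.cons (.rf (nat_lit 5288) (nat_lit 493858305440582043680)) (.cons (.rf (nat_lit 5303) (nat_lit 493858305440582043680)) .nil))))) .nil)))))),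
 (.br (nat_lit 4) (nat_lit 1) (.cons (.rf (nat_lit 3419) (nat_lit 493750116798163978272)) (.cons (.rf (nat_lit 5304) (nat_lit 493820093010254365760)) (.cons (.rf (nat_lit 5304) (nat_lit 458009550086699353152)) .nil)))),
 (.br (nat_lit 4) (nat_lit 1) (.cons (.rf (nat_lit 3419) (nat_lit 493750116798163978272)) (.cons (.rf (nat_lit 4920) (nat_lit 493750116798163977280)) (.cons (.rf (nat_lit 4920) (nat_lit 458009550086699353152)) (.cons (.rf (nat_lit 5304) (nat_lit 493820093010254365760)) (.cons (.rf (nat_lit 5304) (nat_lit 458009550086699353152)) .nil)))))),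
 (.br (nat_lit 2) (nat_lit 0) (.cons (.rf (nat_lit 5306) (nat_lit 493858305440582043680)) (.cons (.rf (nat_lit 5306) (nat_lit 493823368456464074784)) (.cons (.br (nat_lit 1) (nat_lit 0) (.cons (.rf (nat_lit 5306) (nat_lit 493858305440582042688)) (.cons (.rf (nat_lit 5306) (nat_lit 493823368456464073792)) (.cons (.rf (nat_lit 5304) (nat_lit 458005178423107160096)) (.cons (.rf (nat_lit 5306) (nat_lit 493670240576948503616)) (.cons (.rf (nat_lit 5304) (nat_lit 493565395547242989600)) .nil)))))) (.cons (.rf (nat_lit 5304) (nat_lit 458005178423107159104)) (.cons (.rf (nat_lit 5306) (nat_lit 493670240576948504608)) (.cons (.rf (nat_lit 5304) (nat_lit 493565395547242988608)) .nil))))))),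
 (.br (nat_lit 11) (nat_lit 1) (.cons (.rf (nat_lit 4920) (nat_lit 493565395547242989600)) (.cons (.rf (nat_lit 4920) (nat_lit 493565395547242988608)) (.cons (.br (nat_lit 4) (nat_lit 1) (.cons (.rf (nat_lit 5306) (nat_lit 493858305440582042688)) (.cons (.rf (nat_lit 5306) (nat_lit 493858305440582043680)) (.cons (.br (nat_lit 4) (nat_lit 1) (.cons (.rf (nat_lit 5304) (nat_lit 493820093010254366752)) (.cons (.rf (nat_lit 5304) (nat_lit 493820093010254365760)) .nil))) .nil)))) (.cons (.rf (nat_lit 5307) (nat_lit 493858305440582043680)) .nil))))),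
 (.br (nat_lit 12) (nat_lit 0) (.cons (.rf (nat_lit 5304) (nat_lit 457935134042368541760)) (.cons (.br (nat_lit 2) (nat_lit 0) (.cons (.rf (nat_lit 5306) (nat_lit 493858305440582043680)) (.cons (.rf (nat_lit 5304) (nat_lit 493857210323783844928)) (.cons (.rf (nat_lit 5304) (nat_lit 457822648505293145152)) (.cons (.rf (nat_lit 5197) (nat_lit 493857210323783845920)) .nil))))) (.cons (.rf (nat_lit 5307) (nat_lit 493823368456464074784)) (.cons (.rf (nat_lit 5304) (nat_lit 458005178423107159104)) .nil))))),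
 (.br (nat_lit 2) (nat_lit 0) (.cons (.rf (nat_lit 5306) (nat_lit 493858305440582043680)) (.cons (.rf (nat_lit 5304) (nat_lit 493857210323783844928)) (.cons (.rf (nat_lit 5304) (nat_lit 457864203446677406784)) (.cons (.rf (nat_lit 5309) (nat_lit 493858305440582043680)) (.cons (.br (nat_lit 2) (nat_lit 0) (.cons (.rf (nat_lit 5306) (nat_lit 493858305440582043680)) (.cons (.rf (nat_lit 5304) (nat_lit 493857210323783844928)) (.cons (.rf (nat_lit 5304) (nat_lit 457864203446677406784)) (.cons (.rf (nat_lit 5309) (nat_lit 493858305440582043680)) (.cons (.rf (nat_lit 5197) (nat_lit 493857210323783845920)) .nil)))))) (.cons (.rf (nat_lit 5197) (nat_lit 493857210323783845920)) .nil))))))),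
 (.br (nat_lit 6) (nat_lit 1) (.cons (.rf (nat_lit 4920) (nat_lit 493787200025760303136)) (.cons (.rf (nat_lit 4920) (nat_lit 493787200025760302144)) (.cons (.br (nat_lit 11) (nat_lit 1) (.cons (.rf (nat_lit 5197) (nat_lit 493857210323783844928)) (.cons (.rf (nat_lit 5197) (nat_lit 493857210323783845920)) (.cons (.rf (nat_lit 5308) (nat_lit 493858305440582043680)) (.cons (.br (nat_lit 11) (nat_lit 1) (.cons (.rf (nat_lit 4920) (nat_lit 457824828835778365472)) (.cons (.rf (nat_lit 4920) (nat_lit 457824828835778364480)) (.cons (.rf (nat_lit 5308) (nat_lit 493858305440582043680)) (.cons (.rf (nat_lit 5307) (nat_lit 493858305440582043680)) .nil))))) (.cons (.rf (nat_lit 5307) (nat_lit 493858305440582043680)) .nil)))))) (.cons (.rf (nat_lit 5310) (nat_lit 493858305440582043680)) .nil))))),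
 (.br (nat_lit 6) (nat_lit 1) (.cons (.rf (nat_lit 5306) (nat_lit 493823368456464073792)) (.cons (.rf (nat_lit 5306) (nat_lit 493823368456464074784)) (.cons (.rf (nat_lit 5311) (nat_lit 493858305440582043680)) (.cons (.br (nat_lit 6) (nat_lit 1) (.cons (.rf (nat_lit 4920) (nat_lit 458046633314295679008)) (.cons (.rf (nat_lit 4920) (nat_lit 458046633314295678016)) (.cons (.rf (nat_lit 5311) (nat_lit 493858305440582043680)) (.cons (.rf (nat_lit 5310) (nat_lit 493858305440582043680)) .nil))))) (.cons (.rf (nat_lit 5310) (nat_lit 493858305440582043680)) .nil))))))]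

theorem c203 : chkAll C T R L203 (nat_lit 5290) = true := by decide +kernel

theorem l203 : (nat_lit 5290) + L203.length = (nat_lit 5313) := by decide +kernel

/-- part of the certificates -/
def L204 : List Prf := [(.br (nat_lit 13) (nat_lit 0) (.cons (.rf (nat_lit 5304) (nat_lit 493858305440582043680)) (.cons (.rf (nat_lit 5304) (nat_lit 493823368456464074784)) (.cons (.rf (nat_lit 5312) (nat_lit 493858305440582043680)) (.cons (.rf (nat_lit 5312) (nat_lit 493823368456464074784)) .nil))))),
 (.br (nat_lit 2) (nat_lit 0) (.cons (.br (nat_lit 9) (nat_lit 1) (.cons (.ev (nat_lit 40644047379280785177875551617282) (nat_lit 2)) (.cons (.br (nat_lit 5) (nat_lit 0) (.cons (.ev (nat_lit 79231798773350483095537582850) (nat_lit 2)) .nil)) .nil))) (.cons (.rf (nat_lit 5304) (nat_lit 493745745134571783232)) (.cons (.rf (nat_lit 5304) (nat_lit 457824828835778364480)) .nil)))),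
 (.br (nat_lit 12) (nat_lit 0) (.cons (.rf (nat_lit 5304) (nat_lit 457822648505293146144)) (.cons (.br (nat_lit 2) (nat_lit 0) (.cons (.rf (nat_lit 5314) (nat_lit 493858305440582043680)) (.cons (.br (nat_lit 2) (nat_lit 0) (.cons (.rf (nat_lit 5314) (nat_lit 493858305440582043680)) (.cons (.rf (nat_lit 5304) (nat_lit 493745745134571783232)) (.cons (.ev (nat_lit 20361948460120022465312421117953) (nat_lit 1)) .nil)))) (.cons (.rf (nat_lit 5304) (nat_lit 493745745134571783232)) (.cons (.rf (nat_lit 5304) (nat_lit 457824828835778364480)) .nil))))) (.cons (.rf (nat_lit 5304) (nat_lit 457857653653768570912)) .nil)))),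
 (.br (nat_lit 12) (nat_lit 0) (.cons (.rf (nat_lit 5304) (nat_lit 457822648505293145152)) (.cons (.br (nat_lit 1) (nat_lit 0) (.cons (.br (nat_lit 2) (nat_lit 0) (.cons (.br (nat_lit 7) (nat_lit 0) (.cons (.rf (nat_lit 4933) (nat_lit 493604875711260231712)) (.cons (.br (nat_lit 5) (nat_lit 0) (.cons (.zr (nat_lit 237686905394432245337549897728) (nat_lit 309489805975085725364781057) (nat_lit 5) (nat_lit 0)) .nil)) .nil))) (.cons (.rf (nat_lit 5304) (nat_lit 493745745134571783232)) (.cons (.rf (nat_lit 5304) (nat_lit 457824828835778364480)) .nil)))) (.cons (.br (nat_lit 2) (nat_lit 0) (.cons (.br (nat_lit 5) (nat_lit 0) (.cons (.br (nat_lit 7) (nat_lit 0) (.cons (.ev (nat_lit 309489750634572012096323841) (nat_lit 1)) .nil)) (.cons (.br (nat_lit 9) (nat_lit 1) (.cons (.ev (nat_lit 309489750634572012096323841) (nat_lit 1)) .nil)) .nil))) (.cons (.rf (nat_lit 5304) (nat_lit 493745745134571783232)) (.cons (.rf (nat_lit 5304) (nat_lit 457824828835778364480)) .nil)))) (.cons (.rf (nat_lit 5304) (nat_lit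 493745745134571784224)) (.cons (.rf (nat_lit 5304) (nat_lit 457824828835778365472)) .nil))))) (.cons (.rf (nat_lit 5304) (nat_lit 457857653653768569920)) .nil)))),
 (.br (nat_lit 12) (nat_lit 0) (.cons (.rf (nat_lit 5316) (nat_lit 493858305440582043680)) (.cons (.rf (nat_lit 5304) (nat_lit 457822648505293145152)) (.cons (.br (nat_lit 12) (nat_lit 0) (.cons (.rf (nat_lit 5316) (nat_lit 493858305440582043680)) (.cons (.rf (nat_lit 5304) (nat_lit 457822648505293145152)) (.cons (.rf (nat_lit 5304) (nat_lit 457857653653768569920)) .nil)))) (.cons (.rf (nat_lit 5304) (nat_lit 457857653653768569920)) .nil))))),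
 (.br (nat_lit 2) (nat_lit 0) (.cons (.rf (nat_lit 5306) (nat_lit 493823368456464074784)) (.cons (.rf (nat_lit 5306) (nat_lit 493820093010254366752)) (.cons (.ev (nat_lit 20282720297605758127723172134913) (nat_lit 1)) .nil)))),
 (.br (nat_lit 4) (nat_lit 1) (.cons (.rf (nat_lit 3419) (nat_lit 493750116798163978272)) (.cons (.rf (nat_lit 4920) (nat_lit 493750116798163978272)) (.cons (.rf (nat_lit 4920) (nat_lit 458009550086699354144)) (.cons (.br (nat_lit 2) (nat_lit 0) (.cons (.rf (nat_lit 5306) (nat_lit 493823368456464074784)) (.cons (.rf (nat_lit 5318) (nat_lit 493858305440582043680)) (.cons (.rf (nat_lit 5306) (nat_lit 493820093010254366752)) (.cons (.rf (nat_lit 5318) (nat_lit 493750116798163978272)) .nil))))) .nil))))),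
 (.br (nat_lit 4) (nat_lit 1) (.cons (.rf (nat_lit 3419) (nat_lit 493750116798163978272)) (.cons (.rf (nat_lit 4920) (nat_lit 493750116798163977280)) (.cons (.br (nat_lit 9) (nat_lit 1) (.cons (.rf (nat_lit 5306) (nat_lit 493820093010254365760)) (.cons (.rf (nat_lit 5306) (nat_lit 493820093010254366752)) (.cons (.br (nat_lit 9) (nat_lit 1) (.cons (.ev (nat_lit 20282409617818986893070405992450) (nat_lit 2)) (.cons (.rf (nat_lit 4920) (nat_lit 493675700753833165888)) (.cons (.br (nat_lit 8) (nat_lit 1) (.cons (.rf (nat_lit 5317) (nat_lit 458038990606830929952)) (.cons (.ev (nat_lit 20282409608374108965510446120961) (nat_lit 1)) .nil))) .nil)))) (.cons (.br (nat_lit 1) (nat_lit 0) (.cons (.rf (nat_lit 5317) (nat_lit 458038990606830929952)) (.cons (.rf (nat_lit 5304) (nat_lit 493745745134571784224)) (.cons (.rf (nat_lit 5304) (nat_lit 457824828835778365472)) .nil)))) .nil))))) .nil)))),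
 (.br (nat_lit 4) (nat_lit 1) (.cons (.rf (nat_lit 4920) (nat_lit 493750116798163978272)) (.cons (.rf (nat_lit 4920) (nat_lit 493750116798163977280)) (.cons (.br (nat_lit 9) (nat_lit 1) (.cons (.rf (nat_lit 5306) (nat_lit 493820093010254365760)) (.cons (.rf (nat_lit 5306) (nat_lit 493820093010254366752)) (.cons (.kr (nat_lit 1208925819614633469673472) (nat_lit 20361637766165934761540795236352) (nat_lit 4) (nat_lit 0)) .nil)))) .nil)))),
 (.br (nat_lit 2) (nat_lit 0) (.cons (.rf (nat_lit 5304) (nat_lit 458038990606830928960)) (.cons (.br (nat_lit 1) (nat_lit 0) (.cons (.rf (nat_lit 3419) (nat_lit 493750116798163978272)) (.cons (.rf (nat_lit 5304) (nat_lit 458038990606830929952)) (.cons (.rf (nat_lit 3419) (nat_lit 493675700753833166880)) (.cons (.rf (nat_lit 5304) (nat_lit 493563215216757770272)) (.cons (.rf (nat_lit 5304) (nat_lit 457929673865483880480)) .nil)))))) (.cons (.rf (nat_lit 5304) (nat_lit 493563215216757769280)) (.cons (.rf (nat_lit 5304) (nat_lit 457929673865483879488)) .nil))))),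
 (.br (nat_lit 10) (nat_lit 1) (.cons (.br (nat_lit 12) (nat_lit 0) (.cons (.rf (nat_lit 5315) (nat_lit 493858305440582043680)) (.cons (.rf (nat_lit 5304) (nat_lit 457822648505293146144)) (.cons (.br (nat_lit 12) (nat_lit 0) (.cons (.rf (nat_lit 5315) (nat_lit 493858305440582043680)) (.cons (.rf (nat_lit 5304) (nat_lit 457822648505293146144)) (.cons (.rf (nat_lit 5304) (nat_lit 457857653653768570912)) .nil)))) (.cons (.rf (nat_lit 5304) (nat_lit 457857653653768570912)) .nil))))) (.cons (.rf (nat_lit 5317) (nat_lit 493858305440582043680)) (.cons (.kr (nat_lit 1208925819614629174706176) (nat_lit 20282409603651670423947251286016) (nat_lit 10) (nat_lit 0)) (.cons (.br (nat_lit 4) (nat_lit 1) (.cons (.rf (nat_lit 5319) (nat_lit 493858305440582043680)) (.cons (.rf (nat_lit 5320) (nat_lit 493858305440582043680)) (.cons (.rf (nat_lit 5321) (nat_lit 493858305440582043680)) (.cons (.br (nat_lit 4) (nat_lit 1) (.cons (.rf (nat_lit 5319) (nat_lit 493858305440582043680)) (.cons (.rf (nat_lit 5320) (nat_lit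 493858305440582043680)) (.cons (.rf (nat_lit 5321) (nat_lit 493858305440582043680)) .nil)))) .nil))))) (.cons (.br (nat_lit 2) (nat_lit 0) (.cons (.rf (nat_lit 5322) (nat_lit 493858305440582043680)) (.cons (.rf (nat_lit 5304) (nat_lit 458038990606830928960)) (.cons (.br (nat_lit 2) (nat_lit 0) (.cons (.rf (nat_lit 5322) (nat_lit 493858305440582043680)) (.cons (.rf (nat_lit 5304) (nat_lit 458038990606830928960)) (.cons (.rf (nat_lit 5304) (nat_lit 457929673865483879488)) .nil)))) (.cons (.rf (nat_lit 5304) (nat_lit 457929673865483879488)) .nil))))) .nil)))))),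
 (.br (nat_lit 4) (nat_lit 1) (.cons (.rf (nat_lit 3419) (nat_lit 493750116798163978272)) (.cons (.rf (nat_lit 4920) (nat_lit 458009550086699353152)) (.cons (.br (nat_lit 9) (nat_lit 1) (.cons (.rf (nat_lit 5306) (nat_lit 493820093010254365760)) (.cons (.rf (nat_lit 5306) (nat_lit 493820093010254366752)) (.cons (.br (nat_lit 9) (nat_lit 1) (.cons (.rf (nat_lit 4920) (nat_lit 457935134042368542752)) (.cons (.rf (nat_lit 4920) (nat_lit 457935134042368541760)) .nil))) .nil)))) .nil)))),
 (.br (nat_lit 9) (nat_lit 1) (.cons (.rf (nat_lit 3419) (nat_lit 493675700753833166880)) (.cons (.rf (nat_lit 4920) (nat_lit 493675700753833165888)) (.cons (.rf (nat_lit 4920) (nat_lit 457935134042368541760)) (.cons (.rf (nat_lit 5304) (nat_lit 493745745134571783232)) .nil))))),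
 (.br (nat_lit 9) (nat_lit 1) (.cons (.rf (nat_lit 5325) (nat_lit 493858305440582042688)) (.cons (.rf (nat_lit 5325) (nat_lit 493858305440582043680)) (.cons (.br (nat_lit 9) (nat_lit 1) (.cons (.rf (nat_lit 4920) (nat_lit 457935134042368542752)) (.cons (.rf (nat_lit 4920) (nat_lit 457935134042368541760)) (.cons (.rf (nat_lit 5313) (nat_lit 457822648505293145152)) .nil)))) (.cons (.rf (nat_lit 5313) (nat_lit 457822648505293145152)) .nil))))),
 (.br (nat_lit 2) (nat_lit 0) (.cons (.rf (nat_lit 5197) (nat_lit 457864203446677407776)) (.cons (.rf (nat_lit 5304) (nat_lit 493857210323783844928)) (.cons (.rf (nat_lit 5304) (nat_lit 457864203446677406784)) (.cons (.rf (nat_lit 5304) (nat_lit 493745745134571783232)) (.cons (.rf (nat_lit 5313) (nat_lit 457822648505293145152)) (.cons (.rf (nat_lit 5304) (nat_lit 457824828835778364480)) .nil))))))),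
 (.br (nat_lit 9) (nat_lit 1) (.cons (.rf (nat_lit 4920) (nat_lit 493675700753833166880)) (.cons (.rf (nat_lit 4920) (nat_lit 493675700753833165888)) (.cons (.br (nat_lit 12) (nat_lit 0) (.cons (.br (nat_lit 4) (nat_lit 1) (.cons (.rf (nat_lit 5323) (nat_lit 493750116798163978272)) (.cons (.rf (nat_lit 5323) (nat_lit 493750116798163977280)) .nil))) (.cons (.br (nat_lit 4) (nat_lit 1) (.cons (.rf (nat_lit 5293) (nat_lit 457929673865483879488)) (.cons (.rf (nat_lit 5293) (nat_lit 457929673865483880480)) .nil))) (.cons (.rf (nat_lit 5153) (nat_lit 457857653653768570912)) .nil)))) (.cons (.rf (nat_lit 5327) (nat_lit 493858305440582043680)) .nil))))),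
 (.br (nat_lit 6) (nat_lit 1) (.cons (.rf (nat_lit 4920) (nat_lit 493787200025760303136)) (.cons (.rf (nat_lit 4920) (nat_lit 493787200025760302144)) (.cons (.rf (nat_lit 5323) (nat_lit 493858305440582043680)) (.cons (.br (nat_lit 8) (nat_lit 1) (.cons (.rf (nat_lit 5304) (nat_lit 457864203446677407776)) (.cons (.rf (nat_lit 5304) (nat_lit 457864203446677406784)) (.cons (.br (nat_lit 2) (nat_lit 0) (.cons (.rf (nat_lit 5324) (nat_lit 493858305440582043680)) (.cons (.rf (nat_lit 5325) (nat_lit 493858305440582043680)) (.cons (.rf (nat_lit 5326) (nat_lit 493858305440582043680)) (.cons (.br (nat_lit 2) (nat_lit 0) (.cons (.rf (nat_lit 5324) (nat_lit 493858305440582043680)) (.cons (.rf (nat_lit 5325) (nat_lit 493858305440582043680)) (.cons (.rf (nat_lit 5326) (nat_lit 493858305440582043680)) .nil)))) .nil))))) (.cons (.br (nat_lit 9) (nat_lit 1) (.cons (.rf (nat_lit 5325) (nat_lit 493858305440582042688)) (.cons (.rf (nat_lit 5325) (nat_lit 493858305440582043680)) (.cons (.rf (nat_lit 5328) (nat_lit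 493858305440582043680)) (.cons (.br (nat_lit 9) (nat_lit 1) (.cons (.rf (nat_lit 4920) (nat_lit 457935134042368542752)) (.cons (.rf (nat_lit 4920) (nat_lit 457935134042368541760)) (.cons (.rf (nat_lit 5328) (nat_lit 493858305440582043680)) (.cons (.rf (nat_lit 5327) (nat_lit 493858305440582043680)) .nil))))) (.cons (.rf (nat_lit 5327) (nat_lit 493858305440582043680)) .nil)))))) (.cons (.br (nat_lit 10) (nat_lit 1) (.cons (.rf (nat_lit 5304) (nat_lit 457822648505293146144)) (.cons (.rf (nat_lit 5304) (nat_lit 457822648505293145152)) (.cons (.kr (nat_lit 1208925819614629174706176) (nat_lit 20282409603651670423947251286016) (nat_lit 10) (nat_lit 0)) (.cons (.kr (nat_lit 1208925819896104151416832) (nat_lit 20361637766165934761540795236352) (nat_lit 6) (nat_lit 0)) .nil))))) .nil)))))) .nil))))),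
 (.br (nat_lit 9) (nat_lit 1) (.cons (.rf (nat_lit 4920) (nat_lit 493675700753833166880)) (.cons (.rf (nat_lit 4920) (nat_lit 493675700753833165888)) (.cons (.br (nat_lit 8) (nat_lit 1) (.cons (.rf (nat_lit 5304) (nat_lit 457864203446677407776)) (.cons (.rf (nat_lit 5304) (nat_lit 457864203446677406784)) (.cons (.br (nat_lit 12) (nat_lit 0) (.cons (.br (nat_lit 4) (nat_lit 1) (.cons (.rf (nat_lit 4933) (nat_lit 493601603564655970336)) (.cons (.rf (nat_lit 5329) (nat_lit 493750116798163977280)) .nil))) (.cons (.br (nat_lit 2) (nat_lit 0) (.cons (.rf (nat_lit 5293) (nat_lit 457929673865483880480)) (.cons (.rf (nat_lit 5304) (nat_lit 457929673865483879488)) .nil))) (.cons (.rf (nat_lit 5153) (nat_lit 457857653653768570912)) .nil)))) (.cons (.kr (nat_lit 281474976710656) (nat_lit 79228162514264337593543950336) (nat_lit 6) (nat_lit 0)) .nil))))) (.cons (.rf (nat_lit 5327) (nat_lit 493858305440582043680)) .nil))))),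
 (.br (nat_lit 6) (nat_lit 1) (.cons (.rf (nat_lit 4920) (nat_lit 458046633314295679008)) (.cons (.rf (nat_lit 4920) (nat_lit 458046633314295678016)) (.cons (.rf (nat_lit 5329) (nat_lit 493858305440582043680)) (.cons (.br (nat_lit 9) (nat_lit 1) (.cons (.rf (nat_lit 5325) (nat_lit 493858305440582042688)) (.cons (.rf (nat_lit 5325) (nat_lit 493858305440582043680)) (.cons (.rf (nat_lit 5330) (nat_lit 493858305440582043680)) (.cons (.br (nat_lit 9) (nat_lit 1) (.cons (.rf (nat_lit 4920) (nat_lit 457935134042368542752)) (.cons (.rf (nat_lit 4920) (nat_lit 457935134042368541760)) (.cons (.rf (nat_lit 5330) (nat_lit 493858305440582043680)) (.cons (.rf (nat_lit 5327) (nat_lit 493858305440582043680)) .nil))))) (.cons (.rf (nat_lit 5327) (nat_lit 493858305440582043680)) .nil)))))) .nil))))),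
 (.br (nat_lit 13) (nat_lit 0) (.cons (.rf (nat_lit 5304) (nat_lit 493858305440582043680)) (.cons (.rf (nat_lit 5304) (nat_lit 493823368456464074784)) (.cons (.rf (nat_lit 5313) (nat_lit 493858305440582043680)) (.cons (.br (nat_lit 6) (nat_lit 1) (.cons (.rf (nat_lit 5306) (nat_lit 493823368456464073792)) (.cons (.rf (nat_lit 5306) (nat_lit 493823368456464074784)) (.cons (.rf (nat_lit 5329) (nat_lit 493858305440582043680)) (.cons (.rf (nat_lit 5331) (nat_lit 493858305440582043680)) (.cons (.br (nat_lit 6) (nat_lit 1) (.cons (.rf (nat_lit 5304) (nat_lit 493857210323783845920)) (.cons (.rf (nat_lit 5304) (nat_lit 493857210323783844928)) (.cons (.rf (nat_lit 5329) (nat_lit 493858305440582043680)) (.cons (.rf (nat_lit 5331) (nat_lit 493858305440582043680)) .nil))))) .nil)))))) .nil))))),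
 (.br (nat_lit 13) (nat_lit 0) (.cons (.rf (nat_lit 5304) (nat_lit 493858305440582043680)) (.cons (.rf (nat_lit 5304) (nat_lit 493823368456464074784)) (.cons (.rf (nat_lit 5313) (nat_lit 493858305440582043680)) (.cons (.rf (nat_lit 5332) (nat_lit 493858305440582043680)) (.cons (.br (nat_lit 13) (nat_lit 0) (.cons (.rf (nat_lit 5304) (nat_lit 493858305440582043680)) (.cons (.rf (nat_lit 5304) (nat_lit 493823368456464074784)) (.cons (.rf (nat_lit 5313) (nat_lit 493858305440582043680)) (.cons (.rf (nat_lit 5332) (nat_lit 493858305440582043680)) .nil))))) .nil)))))),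
 (.br (nat_lit 13) (nat_lit 0) (.cons (.rf (nat_lit 5304) (nat_lit 493858305440582043680)) (.cons (.rf (nat_lit 5304) (nat_lit 493823368456464074784)) (.cons (.rf (nat_lit 5333) (nat_lit 493858305440582043680)) (.cons (.rf (nat_lit 5333) (nat_lit 493823368456464074784)) (.cons (.br (nat_lit 13) (nat_lit 0) (.cons (.rf (nat_lit 5304) (nat_lit 493858305440582043680)) (.cons (.rf (nat_lit 5304) (nat_lit 493823368456464074784)) (.cons (.rf (nat_lit 5333) (nat_lit 493858305440582043680)) (.cons (.rf (nat_lit 5333) (nat_lit 493823368456464074784)) .nil))))) .nil)))))),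
 (.br (nat_lit 13) (nat_lit 0) (.cons (.rf (nat_lit 5304) (nat_lit 493858305440582043680)) (.cons (.rf (nat_lit 5304) (nat_lit 493823368456464074784)) (.cons (.rf (nat_lit 5333) (nat_lit 493858305440582043680)) (.cons (.rf (nat_lit 5333) (nat_lit 493823368456464074784)) (.cons (.rf (nat_lit 5334) (nat_lit 493858305440582043680)) (.cons (.rf (nat_lit 5334) (nat_lit 493823368456464074784)) .nil)))))))]

theorem c204 : chkAll C T R L204 (nat_lit 5313) = true := by decide +kernel

theorem l204 : (nat_lit 5313) + L204.length = (nat_lit 5336) := by decide +kernel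

/-- part of the certificates -/
def L205 : List Prf := [(.br (nat_lit 7) (nat_lit 1) (.cons (.br (nat_lit 3) (nat_lit 1) (.cons (.rf (nat_lit 2108) (nat_lit 407901468851537952)) (.cons (.rf (nat_lit 2508) (nat_lit 407901468851537952)) (.cons (.rf (nat_lit 2508) (nat_lit 407901400199170080)) (.cons (.br (nat_lit 12) (nat_lit 1) (.cons (.br (nat_lit 13) (nat_lit 0) (.cons (.rf (nat_lit 2556) (nat_lit 493858305440582043680)) (.cons (.rf (nat_lit 2556) (nat_lit 493823368456464074784)) (.cons (.rf (nat_lit 2563) (nat_lit 493858305440582043680)) (.cons (.rf (nat_lit 2563) (nat_lit 493823368456464074784)) (.cons (.rf (nat_lit 2564) (nat_lit 493858305440582043680)) (.cons (.rf (nat_lit 2564) (nat_lit 493823368456464074784)) .nil))))))) .nil)) .nil))))) (.cons (.br (nat_lit 5) (nat_lit 1) (.cons (.br (nat_lit 3) (nat_lit 1) (.cons (.rf (nat_lit 3419) (nat_lit 493858305440582043680)) (.cons (.rf (nat_lit 4920) (nat_lit 493858305440582043680)) (.cons (.rf (nat_lit 4920) (nat_lit 458117738729117419552))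 (.cons (.rf (nat_lit 5335) (nat_lit 493858305440582043680)) (.cons (.rf (nat_lit 5335) (nat_lit 458117738729117419552)) .nil)))))) .nil)) .nil))),
 (.br (nat_lit 5) (nat_lit 0) (.cons (.rf (nat_lit 5336) (nat_lit 407901468717320352)) (.cons (.rf (nat_lit 5336) (nat_lit 299712826299254944)) (.cons (.rf (nat_lit 5336) (nat_lit 336796053895579808)) (.cons (.rf (nat_lit 5336) (nat_lit 154366186277308576)) (.cons (.rf (nat_lit 5336) (nat_lit 225296781968443552)) (.cons (.rf (nat_lit 5336) (nat_lit 112811244893046944)) (.cons (.rf (nat_lit 5336) (nat_lit 114991575378266272)) .nil)))))))),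
 (.br (nat_lit 0) (nat_lit 1) (.cons (.br (nat_lit 0) (nat_lit 1) (.cons (.br (nat_lit 1) (nat_lit 0) (.cons (.br (nat_lit 3) (nat_lit 0) (.cons (.br (nat_lit 0) (nat_lit 1) (.cons (.br (nat_lit 3) (nat_lit 0) (.cons (.br (nat_lit 0) (nat_lit 1) (.cons (.br (nat_lit 6) (nat_lit 0) (.cons (.rf (nat_lit 774) (nat_lit 247132686368)) (.cons (.br (nat_lit 4) (nat_lit 0) (.cons (.br (nat_lit 1) (nat_lit 1) (.cons (.rf (nat_lit 813) (nat_lit 9043125044384)) (.cons (.rf (nat_lit 813) (nat_lit 9043225707584)) (.cons (.rf (nat_lit 813) (nat_lit 8974573339712)) (.cons (.br (nat_lit 5) (nat_lit 1) (.cons (.rf (nat_lit 813) (nat_lit 9043225708576)) (.cons (.rf (nat_lit 813) (nat_lit 8871494128672)) (.cons (.br (nat_lit 7) (nat_lit 1) (.cons (.rf (nat_lit 813) (nat_lit 8974573340704)) .nil)) .nil)))) .nil))))) (.cons (.br (nat_lit 8) (nat_lit 0) (.cons (.br (nat_lit 1) (nat_lit 1) (.cons (.rf (nat_lit 926) (nat_lit 325702473843872)) (.cons (.rf (nat_lit 926) (nat_lit 325702574507072)) (.cons (.rf (nat_lit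 926) (nat_lit 325633922139200)) (.cons (.br (nat_lit 2) (nat_lit 1) (.cons (.rf (nat_lit 926) (nat_lit 325702574508064)) (.cons (.rf (nat_lit 926) (nat_lit 325633922140192)) (.cons (.br (nat_lit 7) (nat_lit 1) (.cons (.rf (nat_lit 926) (nat_lit 325530842928160)) .nil)) .nil)))) .nil))))) (.cons (.br (nat_lit 10) (nat_lit 0) (.cons (.br (nat_lit 1) (nat_lit 1) (.cons (.rf (nat_lit 1729) (nat_lit 11584529911350432)) (.cons (.rf (nat_lit 1729) (nat_lit 11584632990565440)) (.cons (.rf (nat_lit 1729) (nat_lit 11584701642933312)) (.cons (.br (nat_lit 7) (nat_lit 1) (.cons (.rf (nat_lit 1729) (nat_lit 11584701642934304)) (.cons (.rf (nat_lit 1729) (nat_lit 11584701542274080)) (.cons (.br (nat_lit 5) (nat_lit 1) (.cons (.rf (nat_lit 1729) (nat_lit 11584632990566432)) .nil)) .nil)))) .nil))))) (.cons (.br (nat_lit 9) (nat_lit 0) (.cons (.br (nat_lit 2) (nat_lit 1) (.cons (.rf (nat_lit 5337) (nat_lit 407901468750873760)) (.cons (.rf (nat_lit 5337) (nat_lit 407901468851537952)) (.cons (.rf (nat_lit 5337)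 (nat_lit 407901400199170080)) (.cons (.br (nat_lit 5) (nat_lit 1) (.cons (.rf (nat_lit 5337) (nat_lit 407901468851536960)) (.cons (.rf (nat_lit 5337) (nat_lit 407901297119958048)) (.cons (.br (nat_lit 7) (nat_lit 1) (.cons (.rf (nat_lit 5337) (nat_lit 407901400199169088)) .nil)) .nil)))) .nil))))) .nil)) .nil))) .nil))) .nil))) .nil))) .nil)) .nil)) .nil)) .nil)) .nil)) .nil)) .nil))]

theorem c205 : chkAll C T R L205 (nat_lit 5336) = true := by decide +kernel

theorem l205 : (nat_lit 5336) + L205.length = (nat_lit 5339) := by decide +kernel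

end Pool.Agent.H93.Neg.Q14_6_0_0_7_1
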