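import Pool.Agent.H93.Neg.TabQ14_6_0_1_5_2

/-!
Certificates.
-/

set_option autoImplicit false
set_option maxRecDepth 100000
set_option linter.all false

namespace Pool.Agent.H93.Neg.Q14_6_0_1_5_2

/-- part of the certificates -/
def L0 : List Prf := [(.br (nat_lit 11) (nat_lit 0) (.cons (.br (nat_lit 11) (nat_lit 0) .nil) .nil)),
 (.br (nat_lit 10) (nat_lit 0) (.cons (.rf (nat_lit 0) (nat_lit 407901468851537952)) (.cons (.br (nat_lit 10) (nat_lit 0) (.cons (.rf (nat_lit 0) (nat_lit 407901468851537952)) .nil)) .nil))),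
 (.br (nat_lit 11) (nat_lit 0) (.cons (.rf (nat_lit 1) (nat_lit 407901468851537952)) (.cons (.rf (nat_lit 1) (nat_lit 407897070809221152)) (.cons (.br (nat_lit 11) (nat_lit 0) (.cons (.rf (nat_lit 1) (nat_lit 407901468851537952)) (.cons (.rf (nat_lit 1) (nat_lit 407897070809221152)) .nil))) .nil)))),
 (.br (nat_lit 9) (nat_lit 1) (.cons (.br (nat_lit 10) (nat_lit 1) (.cons (.rf (nat_lit 2) (nat_lit 407901468851537952)) .nil)) .nil)),
 (.br (nat_lit 10) (nat_lit 1) (.cons (.br (nat_lit 10) (nat_lit 1) (.cons (.br (nat_lit 10) (nat_lit 1) .nil) .nil)) .nil)),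
 (.br (nat_lit 6) (nat_lit 0) (.cons (.kr (nat_lit 72057594054705152) (nat_lit 282574488338432) (nat_lit 3) (nat_lit 0)) (.cons (.rf (nat_lit 4) (nat_lit 13836501456619552)) .nil))),
 (.br (nat_lit 9) (nat_lit 1) (.cons (.rf (nat_lit 3) (nat_lit 325702574508064)) (.cons (.br (nat_lit 9) (nat_lit 1) (.cons (.rf (nat_lit 3) (nat_lit 325702574508064)) (.cons (.br (nat_lit 6) (nat_lit 0) (.cons (.rf (nat_lit 5) (nat_lit 407901468851537952)) (.cons (.rf (nat_lit 5) (nat_lit 407897070809221152)) (.cons (.rf (nat_lit 4) (nat_lit 13836501456619552)) .nil)))) .nil))) .nil))),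
 (.br (nat_lit 9) (nat_lit 0) (.cons (.br (nat_lit 5) (nat_lit 0) (.cons (.ev (nat_lit 1213648258437667346186496) (nat_lit 1)) .nil)) (.cons (.br (nat_lit 2) (nat_lit 0) (.cons (.ev (nat_lit 1213648258437667346186496) (nat_lit 1)) .nil)) .nil))),
 (.br (nat_lit 6) (nat_lit 0) (.cons (.br (nat_lit 7) (nat_lit 0) (.cons (.br (nat_lit 11) (nat_lit 0) (.cons (.br (nat_lit 12) (nat_lit 0) (.cons (.br (nat_lit 3) (nat_lit 0) (.cons (.rf (nat_lit 7) (nat_lit 493858305440582043680)) (.cons (.rf (nat_lit 7) (nat_lit 493858305440582042688)) (.cons (.ev (nat_lit 20361948460120022746787397763073) (nat_lit 1)) (.cons (.ev (nat_lit 20361948460101647778837044396033) (nat_lit 1)) .nil))))) .nil)) .nil)) .nil)) .nil)),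
 (.br (nat_lit 12) (nat_lit 0) (.cons (.rf (nat_lit 8) (nat_lit 14242959524133701664)) (.cons (.br (nat_lit 12) (nat_lit 0) (.cons (.rf (nat_lit 8) (nat_lit 14242959524133701664)) .nil)) .nil))),
 (.br (nat_lit 12) (nat_lit 0) (.cons (.rf (nat_lit 9) (nat_lit 13126066816545818656)) (.cons (.br (nat_lit 12) (nat_lit 0) (.cons (.rf (nat_lit 9) (nat_lit 13126066816545818656)) .nil)) .nil))),
 (.br (nat_lit 10) (nat_lit 1) (.cons (.rf (nat_lit 6) (nat_lit 362021926341697)) (.cons (.br (nat_lit 10) (nat_lit 1) (.cons (.rf (nat_lit 6) (nat_lit 362021926341697)) (.cons (.br (nat_lit 11) (nat_lit 1) (.cons (.br (nat_lit 11) (nat_lit 0) (.cons (.rf (nat_lit 9) (nat_lit 14242959524133701664)) (.cons (.rf (nat_lit 10) (nat_lit 14242959524133701664)) (.cons (.br (nat_lit 11) (nat_lit 0) (.cons (.rf (nat_lit 9) (nat_lit 14242959524133701664)) (.cons (.rf (nat_lit 10) (nat_lit 14242959524133701664)) .nil))) .nil)))) .nil)) .nil))) .nil))),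
 (.br (nat_lit 8) (nat_lit 0) (.cons (.br (nat_lit 10) (nat_lit 1) (.cons (.rf (nat_lit 6) (nat_lit 362021926341697)) (.cons (.rf (nat_lit 11) (nat_lit 11584701642934304)) (.cons (.br (nat_lit 10) (nat_lit 1) (.cons (.rf (nat_lit 6) (nat_lit 362021926341697)) (.cons (.rf (nat_lit 11) (nat_lit 11584701642934304)) (.cons (.br (nat_lit 10) (nat_lit 1) (.cons (.rf (nat_lit 6) (nat_lit 362021926341697)) (.cons (.rf (nat_lit 11) (nat_lit 11584701642934304)) .nil))) .nil)))) .nil)))) .nil)),
 (.br (nat_lit 11) (nat_lit 0) (.cons (.br (nat_lit 6) (nat_lit 0) (.cons (.br (nat_lit 10) (nat_lit 0) (.cons (.kr (nat_lit 309485009893402662779486208) (nat_lit 1208925819897203663044608) (nat_lit 3) (nat_lit 0)) .nil)) (.cons (.br (nat_lit 8) (nat_lit 1) (.cons (.kr (nat_lit 309485009893402662779486208) (nat_lit 1208925819897203663044608) (nat_lit 3) (nat_lit 0)) .nil)) .nil))) .nil)),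
 (.br (nat_lit 11) (nat_lit 0) (.cons (.rf (nat_lit 13) (nat_lit 407901468851537952)) (.cons (.br (nat_lit 11) (nat_lit 0) (.cons (.rf (nat_lit 13) (nat_lit 407901468851537952)) .nil)) .nil))),
 (.br (nat_lit 9) (nat_lit 1) (.cons (.br (nat_lit 9) (nat_lit 1) (.cons (.br (nat_lit 10) (nat_lit 1) (.cons (.br (nat_lit 4) (nat_lit 1) (.cons (.kr (nat_lit 72057594054705152) (nat_lit 282574488338432) (nat_lit 3) (nat_lit 0)) (.cons (.rf (nat_lit 14) (nat_lit 407901468851537952)) (.cons (.rf (nat_lit 14) (nat_lit 372998571739416608)) .nil)))) .nil)) .nil)) .nil)),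
 (.br (nat_lit 9) (nat_lit 1) (.cons (.rf (nat_lit 15) (nat_lit 325702574508064)) (.cons (.br (nat_lit 9) (nat_lit 1) (.cons (.rf (nat_lit 15) (nat_lit 325702574508064)) (.cons (.br (nat_lit 9) (nat_lit 1) (.cons (.rf (nat_lit 15) (nat_lit 325702574508064)) .nil)) .nil))) .nil))),
 (.br (nat_lit 11) (nat_lit 0) (.cons (.kr (nat_lit 309485009893402662779486208) (nat_lit 1208925819897203663044608) (nat_lit 3) (nat_lit 0)) .nil)),
 (.br (nat_lit 9) (nat_lit 1) (.cons (.br (nat_lit 4) (nat_lit 1) (.cons (.rf (nat_lit 17) (nat_lit 14242959524133701664)) (.cons (.rf (nat_lit 17) (nat_lit 14208056627021580320)) .nil))) .nil)),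
 (.br (nat_lit 9) (nat_lit 1) (.cons (.br (nat_lit 8) (nat_lit 1) (.cons (.rf (nat_lit 18) (nat_lit 14242925439273240608)) (.cons (.rf (nat_lit 18) (nat_lit 14208022542161119264)) .nil))) .nil)),
 (.br (nat_lit 9) (nat_lit 1) (.cons (.rf (nat_lit 19) (nat_lit 14242925439273240608)) (.cons (.rf (nat_lit 19) (nat_lit 14242959524133701664)) .nil))),
 (.br (nat_lit 9) (nat_lit 1) (.cons (.rf (nat_lit 19) (nat_lit 14242925439273240608)) (.cons (.rf (nat_lit 20) (nat_lit 14242959524133701664)) (.cons (.rf (nat_lit 20) (nat_lit 14208056627021580320)) .nil)))),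
 (.br (nat_lit 9) (nat_lit 1) (.cons (.rf (nat_lit 16) (nat_lit 362021926341697)) (.cons (.br (nat_lit 9) (nat_lit 1) (.cons (.rf (nat_lit 16) (nat_lit 362021926341697)) (.cons (.br (nat_lit 11) (nat_lit 1) (.cons (.br (nat_lit 6) (nat_lit 0) (.cons (.br (nat_lit 7) (nat_lit 0) (.cons (.kr (nat_lit 18446744078004518912) (nat_lit 72339069014638592) (nat_lit 4) (nat_lit 0)) (.cons (.rf (nat_lit 12) (nat_lit 465372698544160)) .nil))) (.cons (.rf (nat_lit 16) (nat_lit 327937065880641)) (.cons (.rf (nat_lit 21) (nat_lit 15433072045018188865)) .nil)))) .nil)) .nil))) .nil))),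
 (.br (nat_lit 8) (nat_lit 0) (.cons (.rf (nat_lit 12) (nat_lit 325702574508064)) (.cons (.br (nat_lit 8) (nat_lit 0) (.cons (.rf (nat_lit 12) (nat_lit 360886946596896)) (.cons (.br (nat_lit 9) (nat_lit 1) (.cons (.rf (nat_lit 16) (nat_lit 362021926341697)) (.cons (.rf (nat_lit 22) (nat_lit 11584701642934304)) (.cons (.br (nat_lit 9) (nat_lit 1) (.cons (.rf (nat_lit 16) (nat_lit 362021926341697)) (.cons (.rf (nat_lit 22) (nat_lit 11584701642934304)) (.cons (.br (nat_lit 9) (nat_lit 1) (.cons (.rf (nat_lit 16) (nat_lit 362021926341697)) (.cons (.rf (nat_lit 22) (nat_lit 11584701642934304)) .nil))) .nil)))) .nil)))) .nil))) .nil))),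
 (.br (nat_lit 10) (nat_lit 1) (.cons (.br (nat_lit 10) (nat_lit 1) (.cons (.br (nat_lit 10) (nat_lit 1) .nil) .nil)) .nil)),
 (.br (nat_lit 8) (nat_lit 1) (.cons (.rf (nat_lit 16) (nat_lit 325667110619168)) (.cons (.br (nat_lit 8) (nat_lit 1) (.cons (.rf (nat_lit 16) (nat_lit 325667110619168)) (.cons (.br (nat_lit 10) (nat_lit 1) (.cons (.br (nat_lit 4) (nat_lit 0) (.cons (.br (nat_lit 5) (nat_lit 0) (.cons (.kr (nat_lit 281474993487872) (nat_lit 1103806595072) (nat_lit 3) (nat_lit 0)) (.cons (.rf (nat_lit 24) (nat_lit 10422482393729056)) .nil))) (.cons (.rf (nat_lit 16) (nat_lit 291582250158112)) (.cons (.rf (nat_lit 21) (nat_lit 14242959488669812768)) .nil)))) .nil)) .nil))) .nil))),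
 (.br (nat_lit 8) (nat_lit 1) (.cons (.rf (nat_lit 16) (nat_lit 325667110619168)) (.cons (.rf (nat_lit 25) (nat_lit 325702574508064)) (.cons (.br (nat_lit 8) (nat_lit 1) (.cons (.rf (nat_lit 16) (nat_lit 325667110619168)) (.cons (.rf (nat_lit 25) (nat_lit 325702574508064)) (.cons (.br (nat_lit 8) (nat_lit 1) (.cons (.rf (nat_lit 16) (nat_lit 325667110619168)) (.cons (.rf (nat_lit 25) (nat_lit 325702574508064)) .nil))) .nil)))) .nil)))),
 (.br (nat_lit 8) (nat_lit 0) (.cons (.rf (nat_lit 23) (nat_lit 9043225708576)) (.cons (.br (nat_lit 8) (nat_lit 0) (.cons (.rf (nat_lit 23) (nat_lit 9043225708576)) (.cons (.rf (nat_lit 26) (nat_lit 398341278141505)) .nil))) .nil))),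
 (.br (nat_lit 3) (nat_lit 1) (.cons (.kr (nat_lit 4294967296) (nat_lit 281474976710656) (nat_lit 4) (nat_lit 0)) (.cons (.br (nat_lit 7) (nat_lit 1) (.cons (.br (nat_lit 8) (nat_lit 0) (.cons (.rf (nat_lit 23) (nat_lit 9043225708576)) (.cons (.rf (nat_lit 27) (nat_lit 325702574508064)) (.cons (.br (nat_lit 8) (nat_lit 0) (.cons (.rf (nat_lit 23) (nat_lit 9043225708576)) (.cons (.rf (nat_lit 27) (nat_lit 360886946596896)) (.cons (.br (nat_lit 8) (nat_lit 0) (.cons (.rf (nat_lit 26) (nat_lit 361919955471425)) (.cons (.rf (nat_lit 26) (nat_lit 362126113901633)) .nil))) .nil)))) .nil)))) .nil)) .nil))),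
 (.br (nat_lit 10) (nat_lit 0) (.cons (.rf (nat_lit 0) (nat_lit 404517141996478496)) (.cons (.br (nat_lit 11) (nat_lit 0) (.cons (.rf (nat_lit 26) (nat_lit 432256620535840)) (.cons (.br (nat_lit 11) (nat_lit 0) (.cons (.kr (nat_lit 1208925819614629191483392) (nat_lit 309485009821346168236408832) (nat_lit 3) (nat_lit 0)) .nil)) .nil))) .nil))),
 (.br (nat_lit 10) (nat_lit 0) (.cons (.rf (nat_lit 29) (nat_lit 407901468851537952)) (.cons (.rf (nat_lit 0) (nat_lit 404517141996478496)) (.cons (.br (nat_lit 4) (nat_lit 1) (.cons (.rf (nat_lit 4) (nat_lit 13832073343246368)) (.cons (.rf (nat_lit 4) (nat_lit 13832107702984736)) (.cons (.rf (nat_lit 29) (nat_lit 407901468851537952)) .nil)))) .nil)))),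
 (.br (nat_lit 10) (nat_lit 0) (.cons (.rf (nat_lit 30) (nat_lit 370710452582320160)) (.cons (.br (nat_lit 10) (nat_lit 0) (.cons (.rf (nat_lit 30) (nat_lit 370710452583368736)) .nil)) .nil))),
 (.br (nat_lit 8) (nat_lit 1) (.cons (.br (nat_lit 9) (nat_lit 1) (.cons (.br (nat_lit 10) (nat_lit 0) (.cons (.rf (nat_lit 31) (nat_lit 11584701642934304)) (.cons (.rf (nat_lit 30) (nat_lit 370710452582320160)) (.cons (.br (nat_lit 10) (nat_lit 0) (.cons (.rf (nat_lit 31) (nat_lit 11584701642934304)) (.cons (.rf (nat_lit 30) (nat_lit 370710452583368736)) .nil))) .nil)))) .nil)) .nil)),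
 (.br (nat_lit 10) (nat_lit 0) (.cons (.rf (nat_lit 26) (nat_lit 432256620535840)) .nil)),
 (.br (nat_lit 11) (nat_lit 0) (.cons (.rf (nat_lit 33) (nat_lit 407901468851537952)) (.cons (.br (nat_lit 11) (nat_lit 0) (.cons (.rf (nat_lit 33) (nat_lit 407901468851537952)) .nil)) .nil))),
 (.br (nat_lit 7) (nat_lit 0) (.cons (.br (nat_lit 6) (nat_lit 0) (.cons (.kr (nat_lit 281474993487872) (nat_lit 72058693549555712) (nat_lit 3) (nat_lit 0)) (.cons (.rf (nat_lit 26) (nat_lit 432183471874080)) .nil))) (.cons (.br (nat_lit 4) (nat_lit 1) (.cons (.rf (nat_lit 4) (nat_lit 13832070122020896)) (.cons (.rf (nat_lit 34) (nat_lit 407901468851537952)) (.cons (.rf (nat_lit 34) (nat_lit 372998571739416608)) .nil)))) .nil))),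
 (.br (nat_lit 5) (nat_lit 0) (.cons (.rf (nat_lit 6) (nat_lit 291548958923808)) (.cons (.rf (nat_lit 26) (nat_lit 325529735633952)) .nil))),
 (.br (nat_lit 8) (nat_lit 1) (.cons (.rf (nat_lit 32) (nat_lit 9043225708576)) (.cons (.br (nat_lit 8) (nat_lit 1) (.cons (.rf (nat_lit 32) (nat_lit 9043225708576)) (.cons (.br (nat_lit 9) (nat_lit 1) (.cons (.br (nat_lit 6) (nat_lit 0) (.cons (.rf (nat_lit 36) (nat_lit 9043225708576)) (.cons (.rf (nat_lit 35) (nat_lit 370710452582320160)) (.cons (.br (nat_lit 6) (nat_lit 0) (.cons (.rf (nat_lit 36) (nat_lit 9043225708576)) (.cons (.rf (nat_lit 35) (nat_lit 370710452583368736)) .nil))) .nil)))) .nil)) .nil))) .nil))),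
 (.br (nat_lit 8) (nat_lit 1) (.cons (.rf (nat_lit 37) (nat_lit 9043225708576)) (.cons (.rf (nat_lit 37) (nat_lit 9042185521184)) (.cons (.br (nat_lit 8) (nat_lit 1) (.cons (.rf (nat_lit 37) (nat_lit 9043225708576)) (.cons (.rf (nat_lit 37) (nat_lit 9042185521184)) (.cons (.br (nat_lit 8) (nat_lit 1) (.cons (.rf (nat_lit 37) (nat_lit 9043225708576)) (.cons (.rf (nat_lit 37) (nat_lit 9042185521184)) .nil))) .nil)))) .nil)))),
 (.br (nat_lit 7) (nat_lit 0) (.cons (.br (nat_lit 9) (nat_lit 1) (.cons (.kr (nat_lit 309485009821626543718268928) (nat_lit 1208925891673322724261888) (nat_lit 3) (nat_lit 0)) .nil)) (.cons (.br (nat_lit 8) (nat_lit 1) (.cons (.kr (nat_lit 1208925891672223229411328) (nat_lit 309485009821627643213119488) (nat_lit 3) (nat_lit 0)) .nil)) .nil))),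
 (.br (nat_lit 13) (nat_lit 1) (.cons (.br (nat_lit 5) (nat_lit 1) (.cons (.br (nat_lit 9) (nat_lit 1) (.cons (.br (nat_lit 10) (nat_lit 1) (.cons (.ev (nat_lit 20361638979814120859039615156481) (nat_lit 1)) .nil)) .nil)) (.cons (.rf (nat_lit 39) (nat_lit 15433072045018188865)) .nil))) .nil)),
 (.br (nat_lit 7) (nat_lit 0) (.cons (.rf (nat_lit 38) (nat_lit 11316406391873)) (.cons (.rf (nat_lit 36) (nat_lit 11312245642305)) (.cons (.br (nat_lit 11) (nat_lit 0) (.cons (.rf (nat_lit 36) (nat_lit 11316406389825)) (.cons (.br (nat_lit 13) (nat_lit 1) (.cons (.rf (nat_lit 40) (nat_lit 493858305440582043680)) (.cons (.br (nat_lit 13) (nat_lit 1) (.cons (.rf (nat_lit 40) (nat_lit 493858305440582043680)) .nil)) .nil))) .nil))) .nil)))),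
 (.br (nat_lit 11) (nat_lit 0) (.cons (.rf (nat_lit 36) (nat_lit 11316406389825)) (.cons (.rf (nat_lit 41) (nat_lit 14242959524133701664)) (.cons (.br (nat_lit 11) (nat_lit 0) (.cons (.rf (nat_lit 36) (nat_lit 11316406389825)) (.cons (.rf (nat_lit 41) (nat_lit 14242959524133701664)) .nil))) .nil)))),
 (.br (nat_lit 11) (nat_lit 0) (.cons (.rf (nat_lit 42) (nat_lit 14242959524133701664)) (.cons (.rf (nat_lit 36) (nat_lit 11316406389825)) (.cons (.br (nat_lit 11) (nat_lit 0) (.cons (.rf (nat_lit 42) (nat_lit 14242959524133701664)) (.cons (.rf (nat_lit 36) (nat_lit 11316406389825)) .nil))) .nil)))),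
 (.br (nat_lit 11) (nat_lit 0) (.cons (.rf (nat_lit 42) (nat_lit 14242959524133701664)) (.cons (.rf (nat_lit 36) (nat_lit 11316406389825)) (.cons (.rf (nat_lit 43) (nat_lit 14242959524133701664)) (.cons (.br (nat_lit 11) (nat_lit 0) (.cons (.rf (nat_lit 42) (nat_lit 14242959524133701664)) (.cons (.rf (nat_lit 36) (nat_lit 11316406389825)) (.cons (.rf (nat_lit 43) (nat_lit 14242959524133701664)) .nil)))) .nil))))),
 (.br (nat_lit 10) (nat_lit 1) (.cons (.rf (nat_lit 44) (nat_lit 14242959524133701664)) (.cons (.rf (nat_lit 44) (nat_lit 13126065751393929248)) (.cons (.br (nat_lit 10) (nat_lit 1) (.cons (.rf (nat_lit 44) (nat_lit 14242959524133701664)) (.cons (.rf (nat_lit 44) (nat_lit 13126065751393929248)) .nil))) .nil)))),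
 (.br (nat_lit 5) (nat_lit 0) (.cons (.br (nat_lit 10) (nat_lit 1) (.cons (.rf (nat_lit 44) (nat_lit 14242959524133701664)) (.cons (.rf (nat_lit 44) (nat_lit 13126065751393929248)) (.cons (.rf (nat_lit 45) (nat_lit 14242959524133701664)) (.cons (.rf (nat_lit 45) (nat_lit 13126065751393929248)) .nil))))) .nil)),
 (.br (nat_lit 9) (nat_lit 0) (.cons (.rf (nat_lit 46) (nat_lit 14242959524133701664)) (.cons (.br (nat_lit 2) (nat_lit 0) (.cons (.rf (nat_lit 46) (nat_lit 14242959524133701664)) .nil)) .nil))),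
 (.br (nat_lit 5) (nat_lit 1) (.cons (.rf (nat_lit 38) (nat_lit 11316406391873)) (.cons (.rf (nat_lit 47) (nat_lit 8514384130946009120)) (.cons (.rf (nat_lit 47) (nat_lit 9487162853048879136)) .nil)))),
 (.br (nat_lit 5) (nat_lit 1) (.cons (.rf (nat_lit 48) (nat_lit 14098844473496799264)) (.cons (.rf (nat_lit 48) (nat_lit 12981950700757026848)) (.cons (.rf (nat_lit 48) (nat_lit 14242959524133701664)) (.cons (.rf (nat_lit 48) (nat_lit 13126065751393929248)) .nil)))))]

theorem c0 : chkAll C T R L0 (nat_lit 0) = true := by decide +kernel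

theorem l0 : (nat_lit 0) + L0.length = (nat_lit 50) := by decide +kernel

/-- part of the certificates -/
def L1 : List Prf := [(.br (nat_lit 13) (nat_lit 1) (.cons (.br (nat_lit 5) (nat_lit 1) (.cons (.ev (nat_lit 20282719088680010571783251951616) (nat_lit 1)) (.cons (.rf (nat_lit 39) (nat_lit 15433072045018188865)) .nil))) .nil)),
 (.br (nat_lit 7) (nat_lit 0) (.cons (.rf (nat_lit 38) (nat_lit 11316406391873)) (.cons (.rf (nat_lit 36) (nat_lit 11312245642305)) (.cons (.br (nat_lit 11) (nat_lit 0) (.cons (.rf (nat_lit 36) (nat_lit 11316406389825)) (.cons (.br (nat_lit 13) (nat_lit 1) (.cons (.rf (nat_lit 50) (nat_lit 493858305440582043680)) (.cons (.br (nat_lit 13) (nat_lit 1) (.cons (.rf (nat_lit 50) (nat_lit 493858305440582043680)) .nil)) .nil))) .nil))) .nil)))),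
 (.br (nat_lit 11) (nat_lit 0) (.cons (.rf (nat_lit 36) (nat_lit 11316406389825)) (.cons (.rf (nat_lit 51) (nat_lit 14242959524133701664)) (.cons (.br (nat_lit 11) (nat_lit 0) (.cons (.rf (nat_lit 36) (nat_lit 11316406389825)) (.cons (.rf (nat_lit 51) (nat_lit 14242959524133701664)) .nil))) .nil)))),
 (.br (nat_lit 11) (nat_lit 0) (.cons (.rf (nat_lit 52) (nat_lit 14242959524133701664)) (.cons (.rf (nat_lit 36) (nat_lit 11316406389825)) (.cons (.br (nat_lit 11) (nat_lit 0) (.cons (.rf (nat_lit 52) (nat_lit 14242959524133701664)) (.cons (.rf (nat_lit 36) (nat_lit 11316406389825)) .nil))) .nil)))),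
 (.br (nat_lit 11) (nat_lit 0) (.cons (.rf (nat_lit 52) (nat_lit 14242959524133701664)) (.cons (.rf (nat_lit 36) (nat_lit 11316406389825)) (.cons (.rf (nat_lit 53) (nat_lit 14242959524133701664)) (.cons (.br (nat_lit 11) (nat_lit 0) (.cons (.rf (nat_lit 52) (nat_lit 14242959524133701664)) (.cons (.rf (nat_lit 36) (nat_lit 11316406389825)) (.cons (.rf (nat_lit 53) (nat_lit 14242959524133701664)) .nil)))) .nil))))),
 (.br (nat_lit 10) (nat_lit 1) (.cons (.rf (nat_lit 54) (nat_lit 14242959524133701664)) (.cons (.rf (nat_lit 54) (nat_lit 13126065751393929248)) (.cons (.br (nat_lit 10) (nat_lit 1) (.cons (.rf (nat_lit 54) (nat_lit 14242959524133701664)) (.cons (.rf (nat_lit 54) (nat_lit 13126065751393929248)) .nil))) .nil)))),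
 (.br (nat_lit 6) (nat_lit 0) (.cons (.rf (nat_lit 28) (nat_lit 4402087968)) (.cons (.kr (nat_lit 4294967296) (nat_lit 281474976710656) (nat_lit 4) (nat_lit 0)) (.cons (.br (nat_lit 7) (nat_lit 1) (.cons (.rf (nat_lit 38) (nat_lit 11313185164353)) (.cons (.br (nat_lit 8) (nat_lit 1) (.cons (.br (nat_lit 1) (nat_lit 0) (.cons (.kr (nat_lit 256) (nat_lit 65536) (nat_lit 1) (nat_lit 0)) (.cons (.rf (nat_lit 49) (nat_lit 14242959524066658336)) (.cons (.rf (nat_lit 49) (nat_lit 14242959524133701664)) (.cons (.br (nat_lit 2) (nat_lit 0) (.cons (.rf (nat_lit 49) (nat_lit 14242959524066657344)) (.cons (.rf (nat_lit 49) (nat_lit 14242959524133700672)) (.cons (.br (nat_lit 3) (nat_lit 0) (.cons (.br (nat_lit 10) (nat_lit 1) (.cons (.rf (nat_lit 54) (nat_lit 14242959524133701664)) (.cons (.rf (nat_lit 54) (nat_lit 13126065751393929248)) (.cons (.rf (nat_lit 55) (nat_lit 14242959524133701664)) (.cons (.rf (nat_lit 55) (nat_lit 13126065751393929248)) .nil))))) .nil)) .nil)))) .nil)))))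 .nil)) .nil))) .nil)))),
 (.br (nat_lit 9) (nat_lit 1) (.cons (.kr (nat_lit 281474976710656) (nat_lit 72057594037927936) (nat_lit 6) (nat_lit 0)) (.cons (.br (nat_lit 4) (nat_lit 1) (.cons (.br (nat_lit 10) (nat_lit 0) (.cons (.kr (nat_lit 309485009821626543718268928) (nat_lit 1208925891673322724261888) (nat_lit 3) (nat_lit 0)) .nil)) (.cons (.br (nat_lit 7) (nat_lit 0) (.cons (.kr (nat_lit 309485009821626543718268928) (nat_lit 1208925891673322724261888) (nat_lit 3) (nat_lit 0)) .nil)) .nil))) .nil))),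
 (.br (nat_lit 11) (nat_lit 0) (.cons (.br (nat_lit 9) (nat_lit 1) (.cons (.rf (nat_lit 57) (nat_lit 14242959524133701664)) (.cons (.rf (nat_lit 57) (nat_lit 14242959490847705120)) (.cons (.br (nat_lit 9) (nat_lit 1) (.cons (.rf (nat_lit 57) (nat_lit 14242959524133701664)) (.cons (.rf (nat_lit 57) (nat_lit 14242959490847705120)) .nil))) .nil)))) .nil)),
 (.br (nat_lit 11) (nat_lit 0) (.cons (.rf (nat_lit 58) (nat_lit 407901468851537952)) (.cons (.br (nat_lit 11) (nat_lit 0) (.cons (.rf (nat_lit 58) (nat_lit 407901468851537952)) .nil)) .nil))),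
 (.br (nat_lit 7) (nat_lit 1) (.cons (.br (nat_lit 9) (nat_lit 1) (.cons (.br (nat_lit 10) (nat_lit 0) (.cons (.br (nat_lit 10) (nat_lit 0) (.cons (.rf (nat_lit 59) (nat_lit 370710452582320160)) .nil)) (.cons (.rf (nat_lit 59) (nat_lit 370710452582320160)) .nil))) .nil)) .nil)),
 (.br (nat_lit 11) (nat_lit 0) (.cons (.kr (nat_lit 309485009893402662779486208) (nat_lit 1208925819897203663044608) (nat_lit 3) (nat_lit 0)) .nil)),
 (.br (nat_lit 9) (nat_lit 1) (.cons (.br (nat_lit 4) (nat_lit 1) (.cons (.rf (nat_lit 61) (nat_lit 14242959524133701664)) (.cons (.rf (nat_lit 61) (nat_lit 14208056627021580320)) .nil))) .nil)),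
 (.br (nat_lit 6) (nat_lit 0) (.cons (.kr (nat_lit 72057594054705152) (nat_lit 282574488338432) (nat_lit 3) (nat_lit 0)) (.cons (.rf (nat_lit 60) (nat_lit 9113051498528)) (.cons (.br (nat_lit 9) (nat_lit 1) (.cons (.rf (nat_lit 62) (nat_lit 14242959524133701664)) (.cons (.rf (nat_lit 62) (nat_lit 14208056627021580320)) .nil))) .nil)))),
 (.br (nat_lit 13) (nat_lit 0) (.cons (.br (nat_lit 5) (nat_lit 0) (.cons (.ev (nat_lit 20520716702158664420461337838080) (nat_lit 2)) .nil)) (.cons (.br (nat_lit 2) (nat_lit 0) (.cons (.ev (nat_lit 20520716702158664420461337838080) (nat_lit 2)) .nil)) .nil))),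
 (.br (nat_lit 3) (nat_lit 0) (.cons (.ev (nat_lit 309489732188110517153300481) (nat_lit 1)) .nil)),
 (.br (nat_lit 3) (nat_lit 0) (.cons (.ev (nat_lit 309489732188110517153300481) (nat_lit 1)) .nil)),
 (.br (nat_lit 12) (nat_lit 0) (.cons (.br (nat_lit 1) (nat_lit 0) (.cons (.kr (nat_lit 256) (nat_lit 65536) (nat_lit 1) (nat_lit 0)) (.cons (.rf (nat_lit 64) (nat_lit 493858305440582043680)) (.cons (.br (nat_lit 2) (nat_lit 0) (.cons (.rf (nat_lit 64) (nat_lit 493858305440582042688)) (.cons (.rf (nat_lit 65) (nat_lit 482283501405702176)) .nil))) (.cons (.br (nat_lit 2) (nat_lit 0) (.cons (.rf (nat_lit 64) (nat_lit 493858305440582042688)) (.cons (.rf (nat_lit 65) (nat_lit 482283501405701184)) (.cons (.rf (nat_lit 66) (nat_lit 482283501405702176)) .nil)))) .nil))))) .nil)),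
 (.br (nat_lit 10) (nat_lit 1) (.cons (.br (nat_lit 5) (nat_lit 1) (.cons (.rf (nat_lit 67) (nat_lit 493858305440582043680)) (.cons (.rf (nat_lit 67) (nat_lit 492741412732994160672)) .nil))) .nil)),
 (.br (nat_lit 8) (nat_lit 0) (.cons (.rf (nat_lit 63) (nat_lit 445092485129178177)) (.cons (.br (nat_lit 7) (nat_lit 0) (.cons (.rf (nat_lit 38) (nat_lit 10348865520803)) (.cons (.br (nat_lit 10) (nat_lit 1) (.cons (.rf (nat_lit 68) (nat_lit 493858305440582043680)) (.cons (.rf (nat_lit 68) (nat_lit 492741412732994160672)) .nil))) (.cons (.rf (nat_lit 38) (nat_lit 10073987614115)) .nil)))) .nil))),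
 (.br (nat_lit 6) (nat_lit 0) (.cons (.rf (nat_lit 63) (nat_lit 370710452582320160)) .nil)),
 (.br (nat_lit 9) (nat_lit 1) (.cons (.rf (nat_lit 60) (nat_lit 11313185164353)) (.cons (.br (nat_lit 9) (nat_lit 1) (.cons (.rf (nat_lit 60) (nat_lit 11313185164353)) (.cons (.br (nat_lit 11) (nat_lit 1) (.cons (.br (nat_lit 8) (nat_lit 0) (.cons (.rf (nat_lit 69) (nat_lit 14242959524133701664)) (.cons (.rf (nat_lit 70) (nat_lit 13909140160252993)) (.cons (.br (nat_lit 8) (nat_lit 0) (.cons (.rf (nat_lit 69) (nat_lit 14242959524133701664)) (.cons (.rf (nat_lit 70) (nat_lit 13909140160252993)) .nil))) .nil)))) .nil)) .nil))) .nil))),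
 (.br (nat_lit 9) (nat_lit 1) (.cons (.rf (nat_lit 71) (nat_lit 11584701642934304)) (.cons (.rf (nat_lit 71) (nat_lit 11583636491044896)) (.cons (.br (nat_lit 9) (nat_lit 1) (.cons (.rf (nat_lit 71) (nat_lit 11584701642934304)) (.cons (.rf (nat_lit 71) (nat_lit 11583636491044896)) (.cons (.br (nat_lit 9) (nat_lit 1) (.cons (.rf (nat_lit 71) (nat_lit 11584701642934304)) (.cons (.rf (nat_lit 71) (nat_lit 11583636491044896)) .nil))) .nil)))) .nil)))),
 (.br (nat_lit 5) (nat_lit 0) .nil),
 (.br (nat_lit 11) (nat_lit 0) (.cons (.rf (nat_lit 73) (nat_lit 407996448)) (.cons (.br (nat_lit 11) (nat_lit 0) (.cons (.rf (nat_lit 73) (nat_lit 441550880)) .nil)) .nil))),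
 (.br (nat_lit 11) (nat_lit 0) (.cons (.rf (nat_lit 74) (nat_lit 407901468851537952)) (.cons (.rf (nat_lit 73) (nat_lit 407996448)) (.cons (.br (nat_lit 11) (nat_lit 0) (.cons (.rf (nat_lit 74) (nat_lit 407901468851537952)) (.cons (.rf (nat_lit 73) (nat_lit 441550880)) .nil))) .nil)))),
 (.br (nat_lit 9) (nat_lit 1) (.cons (.kr (nat_lit 4294967296) (nat_lit 281474976710656) (nat_lit 4) (nat_lit 0)) (.cons (.rf (nat_lit 75) (nat_lit 407901468851537952)) (.cons (.rf (nat_lit 75) (nat_lit 372998571739416608)) .nil)))),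
 (.br (nat_lit 10) (nat_lit 0) (.cons (.rf (nat_lit 72) (nat_lit 10425816387258400)) (.cons (.rf (nat_lit 72) (nat_lit 10425816320215072)) (.cons (.br (nat_lit 10) (nat_lit 0) (.cons (.rf (nat_lit 72) (nat_lit 10425816387258400)) (.cons (.rf (nat_lit 72) (nat_lit 10425816320215072)) (.cons (.rf (nat_lit 73) (nat_lit 374442016)) .nil)))) (.cons (.rf (nat_lit 73) (nat_lit 374442016)) .nil))))),
 (.br (nat_lit 9) (nat_lit 1) (.cons (.rf (nat_lit 75) (nat_lit 445056165777344544)) (.cons (.br (nat_lit 8) (nat_lit 0) (.cons (.rf (nat_lit 77) (nat_lit 13872819700074528)) (.cons (.br (nat_lit 7) (nat_lit 0) (.cons (.rf (nat_lit 77) (nat_lit 12746885433493536)) (.cons (.rf (nat_lit 76) (nat_lit 445091348004046880)) (.cons (.rf (nat_lit 73) (nat_lit 441550880)) .nil)))) (.cons (.rf (nat_lit 73) (nat_lit 441550880)) .nil)))) .nil))),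
 (.br (nat_lit 9) (nat_lit 1) (.cons (.rf (nat_lit 76) (nat_lit 445056165777344544)) (.cons (.rf (nat_lit 78) (nat_lit 14242959524133701664)) (.cons (.br (nat_lit 9) (nat_lit 1) (.cons (.rf (nat_lit 75) (nat_lit 410153268665223200)) (.cons (.rf (nat_lit 78) (nat_lit 14242959524133701664)) .nil))) .nil)))),
 (.br (nat_lit 7) (nat_lit 0) (.cons (.rf (nat_lit 77) (nat_lit 12746885433493536)) (.cons (.rf (nat_lit 79) (nat_lit 14242959524133701664)) (.cons (.rf (nat_lit 79) (nat_lit 14241868806453561376)) (.cons (.rf (nat_lit 73) (nat_lit 441550880)) .nil))))),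
 (.br (nat_lit 10) (nat_lit 0) (.cons (.kr (nat_lit 309485009821626543718268928) (nat_lit 1208925891673322724261888) (nat_lit 3) (nat_lit 0)) .nil)),
 (.br (nat_lit 12) (nat_lit 0) (.cons (.br (nat_lit 8) (nat_lit 0) (.cons (.rf (nat_lit 72) (nat_lit 11589133982140448)) (.cons (.br (nat_lit 5) (nat_lit 1) (.cons (.br (nat_lit 10) (nat_lit 1) (.cons (.br (nat_lit 11) (nat_lit 0) (.cons (.ev (nat_lit 20361638979832639942186634313985) (nat_lit 1)) .nil)) .nil)) (.cons (.br (nat_lit 10) (nat_lit 1) (.cons (.rf (nat_lit 81) (nat_lit 15433072045018188865)) (.cons (.ev (nat_lit 79538861190718525338604797953) (nat_lit 1)) .nil))) .nil))) (.cons (.rf (nat_lit 70) (nat_lit 12642507093587009)) .nil)))) .nil)),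
 (.br (nat_lit 12) (nat_lit 0) (.cons (.rf (nat_lit 82) (nat_lit 493858305440582043680)) (.cons (.br (nat_lit 12) (nat_lit 0) (.cons (.rf (nat_lit 82) (nat_lit 493858305440582043680)) .nil)) .nil))),
 (.br (nat_lit 12) (nat_lit 0) (.cons (.rf (nat_lit 83) (nat_lit 493858305440582043680)) (.cons (.br (nat_lit 12) (nat_lit 0) (.cons (.rf (nat_lit 83) (nat_lit 493858305440582043680)) .nil)) .nil))),
 (.br (nat_lit 12) (nat_lit 0) (.cons (.rf (nat_lit 83) (nat_lit 493858305440582043680)) (.cons (.rf (nat_lit 84) (nat_lit 493858305440582043680)) (.cons (.br (nat_lit 12) (nat_lit 0) (.cons (.rf (nat_lit 83) (nat_lit 493858305440582043680)) (.cons (.rf (nat_lit 84) (nat_lit 493858305440582043680)) .nil))) .nil)))),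
 (.br (nat_lit 9) (nat_lit 1) (.cons (.rf (nat_lit 85) (nat_lit 493858305440582043680)) (.cons (.rf (nat_lit 85) (nat_lit 492741411667842271264)) .nil))),
 (.br (nat_lit 12) (nat_lit 0) (.cons (.rf (nat_lit 72) (nat_lit 11589133982140448)) (.cons (.br (nat_lit 5) (nat_lit 1) (.cons (.br (nat_lit 8) (nat_lit 0) (.cons (.zr (nat_lit 18446747376539402497) (nat_lit 79228162514264337593594413056) (nat_lit 5) (nat_lit 5)) (.cons (.rf (nat_lit 4) (nat_lit 11578001558090915)) .nil))) (.cons (.br (nat_lit 7) (nat_lit 0) (.cons (.br (nat_lit 8) (nat_lit 0) (.cons (.rf (nat_lit 86) (nat_lit 493857214722901903392)) (.cons (.br (nat_lit 10) (nat_lit 1) (.cons (.ev (nat_lit 20361638979814120859039615156481) (nat_lit 1)) .nil)) .nil))) (.cons (.ev (nat_lit 72058697861300481) (nat_lit 1)) .nil))) .nil))) .nil))),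
 (.br (nat_lit 12) (nat_lit 0) (.cons (.rf (nat_lit 72) (nat_lit 11589133982140448)) (.cons (.rf (nat_lit 87) (nat_lit 493858305440582043680)) (.cons (.br (nat_lit 12) (nat_lit 0) (.cons (.rf (nat_lit 72) (nat_lit 11589133982140448)) (.cons (.rf (nat_lit 87) (nat_lit 493858305440582043680)) .nil))) .nil)))),
 (.br (nat_lit 9) (nat_lit 0) (.cons (.br (nat_lit 12) (nat_lit 1) (.cons (.kr (nat_lit 4722366764344638701568) (nat_lit 1208925819615732981301248) (nat_lit 3) (nat_lit 0)) .nil)) .nil)),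
 (.br (nat_lit 10) (nat_lit 1) (.cons (.rf (nat_lit 86) (nat_lit 493857214722901903392)) (.cons (.br (nat_lit 7) (nat_lit 0) (.cons (.rf (nat_lit 88) (nat_lit 492740320950162130976)) (.cons (.rf (nat_lit 89) (nat_lit 482283501406784577)) .nil))) .nil))),
 (.br (nat_lit 8) (nat_lit 0) (.cons (.rf (nat_lit 88) (nat_lit 493858305440582043680)) (.cons (.br (nat_lit 10) (nat_lit 1) (.cons (.rf (nat_lit 86) (nat_lit 493857214722901903392)) (.cons (.rf (nat_lit 90) (nat_lit 493858305440582043680)) (.cons (.br (nat_lit 10) (nat_lit 1) (.cons (.rf (nat_lit 86) (nat_lit 493857214722901903392)) (.cons (.rf (nat_lit 90) (nat_lit 493858305440582043680)) .nil))) .nil)))) .nil))),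
 (.br (nat_lit 9) (nat_lit 1) (.cons (.rf (nat_lit 86) (nat_lit 493858305440582043680)) (.cons (.br (nat_lit 8) (nat_lit 0) (.cons (.rf (nat_lit 88) (nat_lit 493858305440582043680)) (.cons (.rf (nat_lit 91) (nat_lit 493858305440582043680)) (.cons (.br (nat_lit 8) (nat_lit 0) (.cons (.rf (nat_lit 88) (nat_lit 493858305440582043680)) (.cons (.rf (nat_lit 91) (nat_lit 493858305440582043680)) .nil))) .nil)))) .nil))),
 (.br (nat_lit 9) (nat_lit 1) (.cons (.rf (nat_lit 86) (nat_lit 493858305440582043680)) (.cons (.rf (nat_lit 92) (nat_lit 493858305440582043680)) (.cons (.br (nat_lit 9) (nat_lit 1) (.cons (.rf (nat_lit 86) (nat_lit 493858305440582043680)) (.cons (.rf (nat_lit 92) (nat_lit 493858305440582043680)) .nil))) .nil))))]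

theorem c1 : chkAll C T R L1 (nat_lit 50) = true := by decide +kernel

theorem l1 : (nat_lit 50) + L1.length = (nat_lit 94) := by decide +kernel

/-- part of the certificates -/
def L2 : List Prf := [(.br (nat_lit 9) (nat_lit 1) (.cons (.rf (nat_lit 93) (nat_lit 493858305440582043680)) (.cons (.rf (nat_lit 93) (nat_lit 492741411667842271264)) (.cons (.br (nat_lit 9) (nat_lit 1) (.cons (.rf (nat_lit 93) (nat_lit 493858305440582043680)) (.cons (.rf (nat_lit 93) (nat_lit 492741411667842271264)) .nil))) .nil)))),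
 (.br (nat_lit 2) (nat_lit 0) (.cons (.br (nat_lit 9) (nat_lit 1) (.cons (.rf (nat_lit 79) (nat_lit 14242959524133701664)) (.cons (.rf (nat_lit 79) (nat_lit 13126065751393929248)) (.cons (.rf (nat_lit 80) (nat_lit 14242959524133701664)) (.cons (.rf (nat_lit 80) (nat_lit 13126065751393929248)) .nil))))) (.cons (.br (nat_lit 5) (nat_lit 0) (.cons (.br (nat_lit 9) (nat_lit 1) (.cons (.rf (nat_lit 93) (nat_lit 493858305440582043680)) (.cons (.rf (nat_lit 93) (nat_lit 492741411667842271264)) (.cons (.rf (nat_lit 94) (nat_lit 493858305440582043680)) (.cons (.rf (nat_lit 94) (nat_lit 492741411667842271264)) .nil))))) .nil)) .nil))),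
 (.br (nat_lit 5) (nat_lit 1) (.cons (.rf (nat_lit 95) (nat_lit 9631277903685781536)) (.cons (.rf (nat_lit 72) (nat_lit 11589133982140448)) (.cons (.rf (nat_lit 95) (nat_lit 9487162853048879136)) .nil)))),
 (.br (nat_lit 5) (nat_lit 1) (.cons (.rf (nat_lit 96) (nat_lit 8514384131013052448)) (.cons (.rf (nat_lit 96) (nat_lit 9631277903752824864)) (.cons (.rf (nat_lit 96) (nat_lit 13126065751393929248)) (.cons (.rf (nat_lit 96) (nat_lit 14242959524133701664)) .nil))))),
 (.br (nat_lit 12) (nat_lit 0) (.cons (.br (nat_lit 8) (nat_lit 0) (.cons (.rf (nat_lit 72) (nat_lit 11589133982140448)) (.cons (.br (nat_lit 5) (nat_lit 1) (.cons (.br (nat_lit 13) (nat_lit 1) (.cons (.ev (nat_lit 20361637766184453564308054343681) (nat_lit 1)) .nil)) (.cons (.br (nat_lit 7) (nat_lit 0) (.cons (.rf (nat_lit 81) (nat_lit 15433072045018188865)) (.cons (.br (nat_lit 10) (nat_lit 1) (.cons (.ev (nat_lit 20282413244614891636602381140480) (nat_lit 2)) .nil)) .nil))) .nil))) (.cons (.rf (nat_lit 70)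 (nat_lit 12642507093587009)) .nil)))) .nil)),
 (.br (nat_lit 12) (nat_lit 0) (.cons (.rf (nat_lit 98) (nat_lit 493858305440582043680)) (.cons (.br (nat_lit 12) (nat_lit 0) (.cons (.rf (nat_lit 98) (nat_lit 493858305440582043680)) .nil)) .nil))),
 (.br (nat_lit 12) (nat_lit 0) (.cons (.rf (nat_lit 99) (nat_lit 493858305440582043680)) (.cons (.br (nat_lit 12) (nat_lit 0) (.cons (.rf (nat_lit 99) (nat_lit 493858305440582043680)) .nil)) .nil))),
 (.br (nat_lit 12) (nat_lit 0) (.cons (.rf (nat_lit 99) (nat_lit 493858305440582043680)) (.cons (.rf (nat_lit 100) (nat_lit 493858305440582043680)) (.cons (.br (nat_lit 12) (nat_lit 0) (.cons (.rf (nat_lit 99) (nat_lit 493858305440582043680)) (.cons (.rf (nat_lit 100) (nat_lit 493858305440582043680)) .nil))) .nil)))),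
 (.br (nat_lit 9) (nat_lit 1) (.cons (.rf (nat_lit 101) (nat_lit 493858305440582043680)) (.cons (.rf (nat_lit 101) (nat_lit 492741411667842271264)) .nil))),
 (.br (nat_lit 12) (nat_lit 0) (.cons (.br (nat_lit 7) (nat_lit 0) (.cons (.br (nat_lit 8) (nat_lit 0) (.cons (.rf (nat_lit 102) (nat_lit 493857214722901903392)) (.cons (.br (nat_lit 10) (nat_lit 1) (.cons (.ev (nat_lit 79544929468616530024313520640) (nat_lit 3)) .nil)) .nil))) (.cons (.ev (nat_lit 20361637766165935043020083691521) (nat_lit 1)) .nil))) .nil)),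
 (.br (nat_lit 5) (nat_lit 1) (.cons (.kr (nat_lit 16777216) (nat_lit 1099511627776) (nat_lit 3) (nat_lit 0)) (.cons (.br (nat_lit 12) (nat_lit 0) (.cons (.rf (nat_lit 103) (nat_lit 493858305440582043680)) (.cons (.br (nat_lit 12) (nat_lit 0) (.cons (.rf (nat_lit 103) (nat_lit 493858305440582043680)) .nil)) .nil))) (.cons (.rf (nat_lit 72) (nat_lit 11589133982140448)) .nil)))),
 (.br (nat_lit 10) (nat_lit 1) (.cons (.rf (nat_lit 102) (nat_lit 493857214722901903392)) (.cons (.br (nat_lit 7) (nat_lit 0) (.cons (.rf (nat_lit 104) (nat_lit 492740320950162130976)) (.cons (.rf (nat_lit 89) (nat_lit 482283501406784577)) .nil))) .nil))),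
 (.br (nat_lit 8) (nat_lit 0) (.cons (.rf (nat_lit 104) (nat_lit 493858305440582043680)) (.cons (.br (nat_lit 10) (nat_lit 1) (.cons (.rf (nat_lit 102) (nat_lit 493857214722901903392)) (.cons (.rf (nat_lit 105) (nat_lit 493858305440582043680)) (.cons (.br (nat_lit 10) (nat_lit 1) (.cons (.rf (nat_lit 102) (nat_lit 493857214722901903392)) (.cons (.rf (nat_lit 105) (nat_lit 493858305440582043680)) .nil))) .nil)))) .nil))),
 (.br (nat_lit 9) (nat_lit 1) (.cons (.rf (nat_lit 102) (nat_lit 493858305440582043680)) (.cons (.br (nat_lit 8) (nat_lit 0) (.cons (.rf (nat_lit 104) (nat_lit 493858305440582043680)) (.cons (.rf (nat_lit 106) (nat_lit 493858305440582043680)) (.cons (.br (nat_lit 8) (nat_lit 0) (.cons (.rf (nat_lit 104) (nat_lit 493858305440582043680)) (.cons (.rf (nat_lit 106) (nat_lit 493858305440582043680)) .nil))) .nil)))) .nil))),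
 (.br (nat_lit 9) (nat_lit 1) (.cons (.rf (nat_lit 102) (nat_lit 493858305440582043680)) (.cons (.rf (nat_lit 107) (nat_lit 493858305440582043680)) (.cons (.br (nat_lit 9) (nat_lit 1) (.cons (.rf (nat_lit 102) (nat_lit 493858305440582043680)) (.cons (.rf (nat_lit 107) (nat_lit 493858305440582043680)) .nil))) .nil)))),
 (.br (nat_lit 9) (nat_lit 1) (.cons (.rf (nat_lit 108) (nat_lit 493858305440582043680)) (.cons (.rf (nat_lit 108) (nat_lit 492741411667842271264)) (.cons (.br (nat_lit 9) (nat_lit 1) (.cons (.rf (nat_lit 108) (nat_lit 493858305440582043680)) (.cons (.rf (nat_lit 108) (nat_lit 492741411667842271264)) .nil))) .nil)))),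
 (.br (nat_lit 3) (nat_lit 1) (.cons (.rf (nat_lit 28) (nat_lit 6614517792)) (.cons (.rf (nat_lit 28) (nat_lit 4469131296)) (.cons (.br (nat_lit 3) (nat_lit 1) (.cons (.rf (nat_lit 28) (nat_lit 6614517792)) (.cons (.rf (nat_lit 28) (nat_lit 4469131296)) (.cons (.br (nat_lit 4) (nat_lit 0) (.cons (.rf (nat_lit 28) (nat_lit 6547474464)) (.cons (.rf (nat_lit 56) (nat_lit 325702574508064)) (.cons (.br (nat_lit 6) (nat_lit 0) (.cons (.rf (nat_lit 28) (nat_lit 4402087968)) (.cons (.kr (nat_lit 4294967296) (nat_lit 281474976710656) (nat_lit 4) (nat_lit 0)) (.cons (.rf (nat_lit 56) (nat_lit 360884801210400)) (.cons (.br (nat_lit 7) (nat_lit 1) (.cons (.rf (nat_lit 72) (nat_lit 11584701642934304)) (.cons (.br (nat_lit 8) (nat_lit 1) (.cons (.br (nat_lit 1) (nat_lit 0) (.cons (.kr (nat_lit 256) (nat_lit 65536) (nat_lit 1) (nat_lit 0)) (.cons (.rf (nat_lit 97) (nat_lit 14242959524066658336)) (.cons (.rf (nat_lit 97) (nat_lit 14242959524133701664)) (.cons (.br (nat_lit 2) (nat_lit 0)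 (.cons (.rf (nat_lit 97) (nat_lit 14242959524066657344)) (.cons (.rf (nat_lit 97) (nat_lit 14242959524133700672)) (.cons (.br (nat_lit 3) (nat_lit 0) (.cons (.br (nat_lit 9) (nat_lit 1) (.cons (.rf (nat_lit 108) (nat_lit 493858305440582043680)) (.cons (.rf (nat_lit 108) (nat_lit 492741411667842271264)) (.cons (.rf (nat_lit 109) (nat_lit 493858305440582043680)) (.cons (.rf (nat_lit 109) (nat_lit 492741411667842271264)) .nil))))) .nil)) .nil)))) .nil))))) .nil)) .nil))) .nil))))) .nil)))) .nil)))) .nil)))),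
 (.br (nat_lit 10) (nat_lit 0) (.cons (.br (nat_lit 10) (nat_lit 0) .nil) .nil)),
 (.br (nat_lit 5) (nat_lit 0) (.cons (.br (nat_lit 9) (nat_lit 1) (.cons (.br (nat_lit 9) (nat_lit 1) (.cons (.rf (nat_lit 111) (nat_lit 11584701642934304)) .nil)) (.cons (.rf (nat_lit 111) (nat_lit 11584701642934304)) .nil))) .nil)),
 (.br (nat_lit 10) (nat_lit 0) (.cons (.br (nat_lit 10) (nat_lit 0) (.cons (.br (nat_lit 10) (nat_lit 0) .nil) .nil)) .nil)),
 (.br (nat_lit 9) (nat_lit 1) (.cons (.rf (nat_lit 113) (nat_lit 11584701642934304)) .nil)),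
 (.br (nat_lit 8) (nat_lit 1) (.cons (.kr (nat_lit 72057594054705152) (nat_lit 282574488338432) (nat_lit 3) (nat_lit 0)) (.cons (.rf (nat_lit 114) (nat_lit 360886946596896)) .nil))),
 (.br (nat_lit 8) (nat_lit 1) (.cons (.kr (nat_lit 72057594054705152) (nat_lit 282574488338432) (nat_lit 3) (nat_lit 0)) (.cons (.rf (nat_lit 114) (nat_lit 360886946596896)) .nil))),
 (.br (nat_lit 3) (nat_lit 0) (.cons (.rf (nat_lit 112) (nat_lit 9043225708576)) (.cons (.br (nat_lit 9) (nat_lit 1) (.cons (.rf (nat_lit 115) (nat_lit 325702574508064)) (.cons (.rf (nat_lit 116) (nat_lit 325702574508064)) (.cons (.br (nat_lit 9) (nat_lit 1) (.cons (.rf (nat_lit 115) (nat_lit 325702574508064)) (.cons (.rf (nat_lit 116) (nat_lit 325702574508064)) (.cons (.br (nat_lit 9) (nat_lit 1) (.cons (.rf (nat_lit 115) (nat_lit 325702574508064)) (.cons (.rf (nat_lit 116) (nat_lit 325702574508064)) .nil))) .nil)))) .nil)))) .nil))),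
 (.br (nat_lit 10) (nat_lit 1) (.cons (.br (nat_lit 10) (nat_lit 1) (.cons (.br (nat_lit 10) (nat_lit 1) .nil) .nil)) .nil)),
 (.br (nat_lit 9) (nat_lit 1) (.cons (.rf (nat_lit 4) (nat_lit 12739086004784421)) (.cons (.br (nat_lit 10) (nat_lit 1) (.cons (.br (nat_lit 12) (nat_lit 0) (.cons (.br (nat_lit 11) (nat_lit 1) (.cons (.br (nat_lit 1) (nat_lit 0) (.cons (.br (nat_lit 3) (nat_lit 0) (.cons (.ev (nat_lit 79537647524158021731300147456) (nat_lit 1)) (.cons (.ev (nat_lit 79537647542532426740290027776) (nat_lit 1)) .nil))) (.cons (.br (nat_lit 2) (nat_lit 0) (.cons (.rf (nat_lit 73) (nat_lit 307333152)) (.cons (.br (nat_lit 5) (nat_lit 0) (.cons (.ev (nat_lit 1213648258437667362963456) (nat_lit 1)) .nil)) .nil))) (.cons (.ev (nat_lit 310693935641241177171165441) (nat_lit 1)) (.cons (.ev (nat_lit 310693954159761365646967041) (nat_lit 1)) .nil))))) .nil)) .nil)) .nil)) .nil))),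
 (.br (nat_lit 5) (nat_lit 1) (.cons (.rf (nat_lit 24) (nat_lit 12746883384673443)) (.cons (.br (nat_lit 12) (nat_lit 1) (.cons (.br (nat_lit 6) (nat_lit 0) (.cons (.rf (nat_lit 24) (nat_lit 12742485338162467)) (.cons (.rf (nat_lit 118) (nat_lit 12746920901610561)) (.cons (.br (nat_lit 10) (nat_lit 1) (.cons (.rf (nat_lit 119) (nat_lit 493858305440582043680)) (.cons (.br (nat_lit 10) (nat_lit 1) (.cons (.rf (nat_lit 119) (nat_lit 493858305440582043680)) .nil)) .nil))) .nil)))) .nil)) .nil))),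
 (.br (nat_lit 11) (nat_lit 1) (.cons (.rf (nat_lit 120) (nat_lit 372998571739416608)) (.cons (.br (nat_lit 11) (nat_lit 1) (.cons (.rf (nat_lit 120) (nat_lit 372998571739416608)) (.cons (.br (nat_lit 11) (nat_lit 1) (.cons (.rf (nat_lit 120) (nat_lit 372998571739416608)) .nil)) .nil))) .nil))),
 (.br (nat_lit 7) (nat_lit 0) (.cons (.rf (nat_lit 117) (nat_lit 10178205453377)) (.cons (.rf (nat_lit 117) (nat_lit 5780163136577)) (.cons (.br (nat_lit 7) (nat_lit 0) (.cons (.rf (nat_lit 117) (nat_lit 10178205453377)) (.cons (.rf (nat_lit 117) (nat_lit 5780163136577)) (.cons (.br (nat_lit 10) (nat_lit 1) (.cons (.rf (nat_lit 120) (nat_lit 407901468851537952)) (.cons (.rf (nat_lit 121) (nat_lit 407901468851537952)) (.cons (.br (nat_lit 10) (nat_lit 1) (.cons (.rf (nat_lit 120) (nat_lit 407901468851537952)) (.cons (.rf (nat_lit 121) (nat_lit 407901468851537952)) (.cons (.br (nat_lit 10) (nat_lit 1) (.cons (.rf (nat_lit 120) (nat_lit 407901468851537952)) (.cons (.rf (nat_lit 121)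 (nat_lit 407901468851537952)) .nil))) .nil)))) .nil)))) .nil)))) .nil)))),
 (.br (nat_lit 10) (nat_lit 0) (.cons (.br (nat_lit 10) (nat_lit 0) (.cons (.br (nat_lit 10) (nat_lit 0) .nil) .nil)) .nil)),
 (.br (nat_lit 2) (nat_lit 0) (.cons (.rf (nat_lit 73) (nat_lit 307333152)) (.cons (.br (nat_lit 5) (nat_lit 0) (.cons (.ev (nat_lit 20680409744152222612137001092100) (nat_lit 3)) .nil)) .nil))),
 (.br (nat_lit 5) (nat_lit 1) (.cons (.rf (nat_lit 4) (nat_lit 12739086004790435)) (.cons (.br (nat_lit 10) (nat_lit 1) (.cons (.br (nat_lit 12) (nat_lit 0) (.cons (.br (nat_lit 11) (nat_lit 1) (.cons (.br (nat_lit 1) (nat_lit 0) (.cons (.kr (nat_lit 2417851711568327364050946) (nat_lit 20361637766184381505618799886336) (nat_lit 0) (nat_lit 1)) (.cons (.rf (nat_lit 124) (nat_lit 493858305440582043680)) (.cons (.rf (nat_lit 124) (nat_lit 458117738797702744096)) (.cons (.ev (nat_lit 310693954159761365646967041) (nat_lit 1)) .nil))))) .nil)) .nil)) .nil)) .nil))),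
 (.br (nat_lit 6) (nat_lit 0) (.cons (.rf (nat_lit 24) (nat_lit 12740286314906917)) (.cons (.rf (nat_lit 118) (nat_lit 12742522853008449)) (.cons (.br (nat_lit 10) (nat_lit 1) (.cons (.rf (nat_lit 125) (nat_lit 493858305440582043680)) (.cons (.br (nat_lit 10) (nat_lit 1) (.cons (.rf (nat_lit 125) (nat_lit 493858305440582043680)) .nil)) .nil))) .nil)))),
 (.br (nat_lit 7) (nat_lit 0) (.cons (.rf (nat_lit 117) (nat_lit 5780156851265)) (.cons (.rf (nat_lit 117) (nat_lit 3581135692865)) (.cons (.br (nat_lit 7) (nat_lit 0) (.cons (.rf (nat_lit 117) (nat_lit 5780156851265)) (.cons (.rf (nat_lit 117) (nat_lit 3581135692865)) (.cons (.br (nat_lit 3) (nat_lit 1) (.cons (.br (nat_lit 5) (nat_lit 1) (.cons (.rf (nat_lit 122) (nat_lit 325702507464736)) (.cons (.br (nat_lit 12) (nat_lit 1) (.cons (.rf (nat_lit 123) (nat_lit 15069089459473473)) .nil)) .nil))) (.cons (.rf (nat_lit 122) (nat_lit 325702574508064)) (.cons (.br (nat_lit 12) (nat_lit 1) (.cons (.br (nat_lit 4) (nat_lit 0) (.cons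 (.rf (nat_lit 123) (nat_lit 15069089457378369)) (.cons (.rf (nat_lit 126) (nat_lit 493858305440582043680)) (.cons (.rf (nat_lit 126) (nat_lit 493823402543469922336)) .nil)))) .nil)) .nil)))) .nil)))) .nil)))),
 (.br (nat_lit 2) (nat_lit 0) (.cons (.rf (nat_lit 73) (nat_lit 307333152)) (.cons (.ev (nat_lit 310693954087985246602592513) (nat_lit 1)) .nil))),
 (.br (nat_lit 1) (nat_lit 0) (.cons (.rf (nat_lit 73) (nat_lit 238159904)) (.cons (.br (nat_lit 4) (nat_lit 0) (.cons (.ev (nat_lit 309485009893685241546014721) (nat_lit 1)) .nil)) .nil))),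
 (.br (nat_lit 5) (nat_lit 0) (.cons (.ev (nat_lit 310693935640960797427958016) (nat_lit 1)) .nil)),
 (.br (nat_lit 3) (nat_lit 0) (.cons (.rf (nat_lit 73) (nat_lit 307301408)) (.cons (.br (nat_lit 5) (nat_lit 0) (.cons (.ev (nat_lit 20282719093383858251889933090816) (nat_lit 1)) .nil)) .nil))),
 (.br (nat_lit 3) (nat_lit 0) (.cons (.ev (nat_lit 20282719093383858251889933090816) (nat_lit 1)) .nil)),
 (.br (nat_lit 10) (nat_lit 1) (.cons (.br (nat_lit 1) (nat_lit 0) (.cons (.rf (nat_lit 131) (nat_lit 493858305440582043680)) (.cons (.rf (nat_lit 128) (nat_lit 493858305440582043680)) (.cons (.ev (nat_lit 1208925891954801995940096) (nat_lit 1)) (.cons (.br (nat_lit 2) (nat_lit 0) (.cons (.br (nat_lit 5) (nat_lit 0) (.cons (.ev (nat_lit 20679171823076334822171630240768) (nat_lit 3)) .nil)) (.cons (.rf (nat_lit 132) (nat_lit 493858305440582043680)) (.cons (.br (nat_lit 3) (nat_lit 0) (.cons (.ev (nat_lit 309494473073678728562802691) (nat_lit 2)) .nil)) .nil)))) .nil))))) .nil)),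
 (.br (nat_lit 5) (nat_lit 1) (.cons (.br (nat_lit 9) (nat_lit 1) (.cons (.br (nat_lit 10) (nat_lit 1) (.cons (.br (nat_lit 3) (nat_lit 0) (.cons (.rf (nat_lit 128) (nat_lit 493858305440582043680)) (.cons (.rf (nat_lit 129) (nat_lit 482283501405702176)) (.cons (.kr (nat_lit 16777216) (nat_lit 1099511627776) (nat_lit 3) (nat_lit 0)) (.cons (.br (nat_lit 1) (nat_lit 0) (.cons (.rf (nat_lit 130) (nat_lit 15433035725666355232)) (.cons (.rf (nat_lit 128) (nat_lit 493858305440515000352)) (.cons (.ev (nat_lit 79228167236631101942477619201) (nat_lit 1)) .nil)))) .nil))))) .nil)) .nil)) (.cons (.br (nat_lit 9) (nat_lit 1) (.cons (.rf (nat_lit 133) (nat_lit 493858305440582043680)) (.cons (.rf (nat_lit 133) (nat_lit 458117738797702744096)) .nil))) .nil)))]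

theorem c2 : chkAll C T R L2 (nat_lit 94) = true := by decide +kernel

theorem l2 : (nat_lit 94) + L2.length = (nat_lit 135) := by decide +kernel

/-- part of the certificates -/
def L3 : List Prf := [(.br (nat_lit 3) (nat_lit 1) (.cons (.rf (nat_lit 134) (nat_lit 493858305440582043680)) (.cons (.rf (nat_lit 134) (nat_lit 458117738797769787424)) .nil))),
 (.br (nat_lit 9) (nat_lit 1) (.cons (.br (nat_lit 1) (nat_lit 0) (.cons (.br (nat_lit 3) (nat_lit 0) (.cons (.ev (nat_lit 79537647524158021731300212736) (nat_lit 1)) (.cons (.ev (nat_lit 79537647542532426740290093056) (nat_lit 1)) .nil))) (.cons (.kr (nat_lit 1208925819896104151416833) (nat_lit 79228162514264337597838917888) (nat_lit 0) (nat_lit 2)) (.cons (.br (nat_lit 2) (nat_lit 0) (.cons (.rf (nat_lit 73) (nat_lit 305301536)) (.cons (.br (nat_lit 3) (nat_lit 0) (.cons (.ev (nat_lit 79228167236702879161050464513) (nat_lit 1)) .nil)) .nil))) (.cons (.br (nat_lit 2) (nat_lit 0) (.cons (.br (nat_lit 5) (nat_lit 0) (.cons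 (.ev (nat_lit 1213648258437667362963456) (nat_lit 1)) .nil)) (.cons (.br (nat_lit 3) (nat_lit 0) (.cons (.ev (nat_lit 79228167255077847111403831553) (nat_lit 1)) .nil)) (.cons (.br (nat_lit 3) (nat_lit 0) (.cons (.ev (nat_lit 79228167236702879161050464513) (nat_lit 1)) .nil)) .nil)))) .nil))))) .nil)),
 (.br (nat_lit 5) (nat_lit 1) (.cons (.rf (nat_lit 136) (nat_lit 493858305440582043680)) (.cons (.rf (nat_lit 136) (nat_lit 458117738797769787424)) .nil))),
 (.br (nat_lit 5) (nat_lit 0) (.cons (.ev (nat_lit 20282409608374108965514757800193) (nat_lit 1)) .nil)),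
 (.br (nat_lit 5) (nat_lit 1) (.cons (.rf (nat_lit 137) (nat_lit 493858305440515000352)) (.cons (.br (nat_lit 7) (nat_lit 0) (.cons (.br (nat_lit 1) (nat_lit 0) (.cons (.kr (nat_lit 2417851711568327364050946) (nat_lit 20361637766184381505618799755776) (nat_lit 0) (nat_lit 2)) (.cons (.kr (nat_lit 1208925819896104151416833) (nat_lit 20282409603651670423951546253568) (nat_lit 0) (nat_lit 2)) (.cons (.kr (nat_lit 1208925819896104151416833) (nat_lit 79228162514264337597838917888) (nat_lit 0) (nat_lit 2)) (.cons (.br (nat_lit 2) (nat_lit 0) (.cons (.rf (nat_lit 138) (nat_lit 493858305440582043680)) (.cons (.rf (nat_lit 138) (nat_lit 458117738797702744096)) (.cons (.br (nat_lit 3) (nat_lit 0) (.cons (.ev (nat_lit 1213648258437667362963456) (nat_lit 1)) .nil)) .nil)))) .nil))))) .nil)) .nil))),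
 (.br (nat_lit 10) (nat_lit 1) (.cons (.rf (nat_lit 135) (nat_lit 493858305440582043680)) (.cons (.br (nat_lit 3) (nat_lit 1) (.cons (.rf (nat_lit 137) (nat_lit 493858305440582043680)) (.cons (.rf (nat_lit 139) (nat_lit 493858305440582043680)) (.cons (.rf (nat_lit 139) (nat_lit 458117738797769787424)) .nil)))) .nil))),
 (.br (nat_lit 11) (nat_lit 1) (.cons (.br (nat_lit 11) (nat_lit 1) (.cons (.br (nat_lit 12) (nat_lit 1) (.cons (.br (nat_lit 10) (nat_lit 1) (.cons (.rf (nat_lit 135) (nat_lit 493858305440582043680)) (.cons (.rf (nat_lit 140) (nat_lit 493858305440582043680)) (.cons (.rf (nat_lit 140) (nat_lit 458117738797769787424)) .nil)))) .nil)) .nil)) .nil)),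
 (.br (nat_lit 11) (nat_lit 1) (.cons (.rf (nat_lit 141) (nat_lit 407901468851537952)) (.cons (.br (nat_lit 11) (nat_lit 1) (.cons (.rf (nat_lit 141) (nat_lit 407901468851537952)) (.cons (.br (nat_lit 11) (nat_lit 1) (.cons (.rf (nat_lit 141) (nat_lit 407901468851537952)) .nil)) .nil))) .nil))),
 (.br (nat_lit 3) (nat_lit 0) (.cons (.ev (nat_lit 79229376180897179170368389121) (nat_lit 1)) .nil)),
 (.br (nat_lit 9) (nat_lit 1) (.cons (.br (nat_lit 2) (nat_lit 0) (.cons (.br (nat_lit 3) (nat_lit 0) (.cons (.ev (nat_lit 72339069031481601) (nat_lit 1)) (.cons (.ev (nat_lit 18446744078021361921) (nat_lit 1)) .nil))) (.cons (.rf (nat_lit 129) (nat_lit 482283501405702176)) (.cons (.br (nat_lit 1) (nat_lit 0) (.cons (.ev (nat_lit 310693935713017296249225473) (nat_lit 1)) (.cons (.rf (nat_lit 143) (nat_lit 15433072045018155040)) .nil))) (.cons (.br (nat_lit 1) (nat_lit 0) (.cons (.ev (nat_lit 310693954087985246602592513) (nat_lit 1)) (.cons (.rf (nat_lit 143) (nat_lit 15433072045018154048))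 (.cons (.br (nat_lit 3) (nat_lit 0) (.cons (.ev (nat_lit 79538861190790864407619436545) (nat_lit 1)) .nil)) .nil)))) .nil))))) .nil)),
 (.br (nat_lit 5) (nat_lit 1) (.cons (.rf (nat_lit 144) (nat_lit 493858305440582043680)) (.cons (.rf (nat_lit 144) (nat_lit 458117738797769787424)) .nil))),
 (.br (nat_lit 5) (nat_lit 0) (.cons (.ev (nat_lit 79537647542604484330016276481) (nat_lit 1)) .nil)),
 (.br (nat_lit 5) (nat_lit 0) (.cons (.ev (nat_lit 79228162514264620168049066241) (nat_lit 1)) (.cons (.ev (nat_lit 20282720297605830467887403368705) (nat_lit 1)) .nil))),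
 (.br (nat_lit 5) (nat_lit 0) (.cons (.ev (nat_lit 79538856468424381533696033025) (nat_lit 1)) (.cons (.rf (nat_lit 65) (nat_lit 333525105753754784)) (.cons (.rf (nat_lit 66) (nat_lit 333525105753756768)) .nil)))),
 (.br (nat_lit 4) (nat_lit 0) (.cons (.rf (nat_lit 145) (nat_lit 493858305440515000352)) (.cons (.br (nat_lit 5) (nat_lit 1) (.cons (.br (nat_lit 9) (nat_lit 0) (.cons (.br (nat_lit 2) (nat_lit 0) (.cons (.rf (nat_lit 146) (nat_lit 15433072044983552032)) (.cons (.rf (nat_lit 146) (nat_lit 14316179337328625696)) (.cons (.ev (nat_lit 310698676454468120525996033) (nat_lit 1)) .nil)))) (.cons (.br (nat_lit 1) (nat_lit 0) (.cons (.rf (nat_lit 147) (nat_lit 493858305440582043680)) (.cons (.rf (nat_lit 147) (nat_lit 458117738797702744096)) (.cons (.ev (nat_lit 310698676454468120525996033) (nat_lit 1)) .nil)))) (.cons (.rf (nat_lit 148) (nat_lit 493858305440582043680)) (.cons (.rf (nat_lit 148) (nat_lit 458117738797702744096)) .nil))))) .nil)) .nil))),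
 (.br (nat_lit 11) (nat_lit 1) (.cons (.rf (nat_lit 142) (nat_lit 372998571739416608)) (.cons (.br (nat_lit 3) (nat_lit 1) (.cons (.rf (nat_lit 145) (nat_lit 493858305440582043680)) (.cons (.rf (nat_lit 149) (nat_lit 493858305440582043680)) (.cons (.rf (nat_lit 149) (nat_lit 458117738797769787424)) .nil)))) .nil))),
 (.br (nat_lit 11) (nat_lit 1) (.cons (.rf (nat_lit 142) (nat_lit 372998571739416608)) (.cons (.br (nat_lit 10) (nat_lit 1) (.cons (.rf (nat_lit 142) (nat_lit 407901468851537952)) (.cons (.rf (nat_lit 150) (nat_lit 493823402543469922336)) (.cons (.rf (nat_lit 150) (nat_lit 458082835900657666080)) .nil)))) .nil))),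
 (.br (nat_lit 11) (nat_lit 1) (.cons (.rf (nat_lit 142) (nat_lit 372998571739416608)) (.cons (.rf (nat_lit 151) (nat_lit 493823402543469922336)) (.cons (.rf (nat_lit 151) (nat_lit 493858305440582043680)) .nil)))),
 (.br (nat_lit 10) (nat_lit 1) (.cons (.rf (nat_lit 142) (nat_lit 407901468851537952)) (.cons (.br (nat_lit 10) (nat_lit 1) (.cons (.rf (nat_lit 142) (nat_lit 407901468851537952)) (.cons (.br (nat_lit 12) (nat_lit 1) (.cons (.br (nat_lit 11) (nat_lit 1) (.cons (.rf (nat_lit 142) (nat_lit 372998571739416608)) (.cons (.rf (nat_lit 151) (nat_lit 493823402543469922336)) (.cons (.rf (nat_lit 152) (nat_lit 493858305440582043680)) (.cons (.rf (nat_lit 152) (nat_lit 458117738797769787424)) .nil))))) .nil)) .nil))) .nil))),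
 (.br (nat_lit 6) (nat_lit 0) (.cons (.rf (nat_lit 122) (nat_lit 325702574508064)) (.cons (.rf (nat_lit 122) (nat_lit 325702507464736)) (.cons (.rf (nat_lit 127) (nat_lit 325702574508064)) (.cons (.br (nat_lit 6) (nat_lit 0) (.cons (.rf (nat_lit 122) (nat_lit 325702574508064)) (.cons (.rf (nat_lit 122) (nat_lit 325702507464736)) (.cons (.rf (nat_lit 127) (nat_lit 325702574508064)) (.cons (.br (nat_lit 10) (nat_lit 1) (.cons (.rf (nat_lit 142) (nat_lit 407901468851537952)) (.cons (.rf (nat_lit 153) (nat_lit 407901468851537952)) (.cons (.br (nat_lit 10) (nat_lit 1) (.cons (.rf (nat_lit 142) (nat_lit 407901468851537952)) (.cons (.rf (nat_lit 153) (nat_lit 407901468851537952)) (.cons (.br (nat_lit 10) (nat_lit 1) (.cons (.rf (nat_lit 142) (nat_lit 407901468851537952)) (.cons (.rf (nat_lit 153) (nat_lit 407901468851537952)) .nil))) .nil)))) .nil)))) .nil))))) .nil))))),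
 (.br (nat_lit 10) (nat_lit 0) (.cons (.rf (nat_lit 73) (nat_lit 374442016)) (.cons (.br (nat_lit 10) (nat_lit 0) (.cons (.rf (nat_lit 73) (nat_lit 407996448)) .nil)) .nil))),
 (.br (nat_lit 11) (nat_lit 0) (.cons (.br (nat_lit 11) (nat_lit 0) .nil) .nil)),
 (.br (nat_lit 10) (nat_lit 0) (.cons (.rf (nat_lit 156) (nat_lit 370817140669909024)) (.cons (.br (nat_lit 10) (nat_lit 0) (.cons (.rf (nat_lit 156) (nat_lit 370852325041997856)) .nil)) .nil))),
 (.br (nat_lit 4) (nat_lit 1) (.cons (.kr (nat_lit 72057594054705152) (nat_lit 282574488338432) (nat_lit 3) (nat_lit 0)) (.cons (.br (nat_lit 9) (nat_lit 1) (.cons (.rf (nat_lit 157) (nat_lit 11584701642934304)) .nil)) .nil))),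
 (.br (nat_lit 11) (nat_lit 0) (.cons (.br (nat_lit 11) (nat_lit 0) .nil) .nil)),
 (.br (nat_lit 7) (nat_lit 0) (.cons (.kr (nat_lit 4722366482869645213697) (nat_lit 72057594037928192) (nat_lit 0) (nat_lit 2)) (.cons (.kr (nat_lit 309494454554310808015208450) (nat_lit 1208944338416296922186240) (nat_lit 0) (nat_lit 2)) .nil))),
 (.br (nat_lit 11) (nat_lit 0) (.cons (.br (nat_lit 12) (nat_lit 0) (.cons (.rf (nat_lit 160) (nat_lit 493858305440582043680)) (.cons (.br (nat_lit 12) (nat_lit 0) (.cons (.rf (nat_lit 160) (nat_lit 493858305440582043680)) .nil)) .nil))) .nil)),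
 (.br (nat_lit 2) (nat_lit 0) (.cons (.br (nat_lit 3) (nat_lit 1) (.cons (.kr (nat_lit 9444732965739290427394) (nat_lit 18446744078021361664) (nat_lit 0) (nat_lit 1)) (.cons (.rf (nat_lit 158) (nat_lit 10178205453377)) (.cons (.br (nat_lit 6) (nat_lit 0) (.cons (.rf (nat_lit 155) (nat_lit 11584668289893440)) (.cons (.rf (nat_lit 73) (nat_lit 374442016)) (.cons (.br (nat_lit 7) (nat_lit 0) (.cons (.kr (nat_lit 4722438540463683141633) (nat_lit 18446745177516146688) (nat_lit 0) (nat_lit 1)) (.cons (.br (nat_lit 10) (nat_lit 1) (.cons (.br (nat_lit 10) (nat_lit 0) (.cons (.rf (nat_lit 75) (nat_lit 440550268245939296)) (.cons (.br (nat_lit 10) (nat_lit 0) (.cons (.rf (nat_lit 75) (nat_lit 440550268245939296)) (.cons (.rf (nat_lit 73) (nat_lit 441550880)) .nil))) (.cons (.rf (nat_lit 73) (nat_lit 441550880)) .nil)))) .nil)) (.cons (.rf (nat_lit 73) (nat_lit 407996448)) .nil)))) .nil)))) .nil)))) (.cons (.br (nat_lit 5) (nat_lit 0) (.cons (.br (nat_lit 3) (nat_lit 1) (.cons (.kr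 (nat_lit 4722366764344621924353) (nat_lit 18446744078004519168) (nat_lit 0) (nat_lit 2)) (.cons (.rf (nat_lit 158) (nat_lit 10178205453377)) (.cons (.br (nat_lit 11) (nat_lit 1) (.cons (.br (nat_lit 5) (nat_lit 1) (.cons (.rf (nat_lit 157) (nat_lit 13908004138259490)) (.cons (.kr (nat_lit 4722366482869645213697) (nat_lit 72057594037928192) (nat_lit 0) (nat_lit 2)) (.cons (.br (nat_lit 12) (nat_lit 0) (.cons (.rf (nat_lit 159) (nat_lit 445092485129178177)) (.cons (.br (nat_lit 12) (nat_lit 0) (.cons (.rf (nat_lit 159) (nat_lit 445092485129178177)) .nil)) .nil))) (.cons (.br (nat_lit 11) (nat_lit 0) (.cons (.rf (nat_lit 161) (nat_lit 14242959524133701664)) (.cons (.br (nat_lit 11) (nat_lit 0) (.cons (.rf (nat_lit 161) (nat_lit 14242959524133701664)) .nil)) .nil))) .nil))))) .nil)) .nil)))) .nil)) .nil))),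
 (.br (nat_lit 10) (nat_lit 1) (.cons (.kr (nat_lit 16777216) (nat_lit 1099511627776) (nat_lit 3) (nat_lit 0)) (.cons (.br (nat_lit 10) (nat_lit 1) (.cons (.kr (nat_lit 16777216) (nat_lit 1099511627776) (nat_lit 3) (nat_lit 0)) (.cons (.br (nat_lit 10) (nat_lit 1) (.cons (.kr (nat_lit 16777216) (nat_lit 1099511627776) (nat_lit 3) (nat_lit 0)) .nil)) .nil))) .nil))),
 (.br (nat_lit 10) (nat_lit 1) (.cons (.br (nat_lit 5) (nat_lit 0) (.cons (.rf (nat_lit 157) (nat_lit 12745748413318146)) (.cons (.rf (nat_lit 157) (nat_lit 12745748413318148)) (.cons (.rf (nat_lit 163) (nat_lit 13836501456619552)) .nil)))) .nil)),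
 (.br (nat_lit 5) (nat_lit 0) (.cons (.ev (nat_lit 79229371458602753890466201856) (nat_lit 1)) .nil)),
 (.br (nat_lit 12) (nat_lit 1) (.cons (.br (nat_lit 2) (nat_lit 0) (.cons (.rf (nat_lit 165) (nat_lit 493858305440582043680)) (.cons (.rf (nat_lit 165) (nat_lit 493858305440515000352)) (.cons (.ev (nat_lit 79229376180897460645345165313) (nat_lit 1)) .nil)))) .nil)),
 (.br (nat_lit 12) (nat_lit 1) (.cons (.rf (nat_lit 166) (nat_lit 493858305440582043680)) (.cons (.rf (nat_lit 166) (nat_lit 420143386739781765152)) .nil))),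
 (.br (nat_lit 12) (nat_lit 1) (.cons (.rf (nat_lit 167) (nat_lit 493858305440582043680)) (.cons (.br (nat_lit 12) (nat_lit 1) (.cons (.rf (nat_lit 167) (nat_lit 493858305440582043680)) .nil)) .nil))),
 (.br (nat_lit 5) (nat_lit 0) (.cons (.br (nat_lit 3) (nat_lit 0) (.cons (.ev (nat_lit 79228167236703160631732207616) (nat_lit 1)) .nil)) (.cons (.br (nat_lit 2) (nat_lit 0) (.cons (.ev (nat_lit 20361637766184381788188993191936) (nat_lit 1)) .nil)) (.cons (.kr (nat_lit 1208944338416296922186240) (nat_lit 309485009821628747019714560) (nat_lit 1) (nat_lit 0)) .nil)))),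
 (.br (nat_lit 5) (nat_lit 0) (.cons (.ev (nat_lit 1213666633124147034587136) (nat_lit 1)) .nil)),
 (.br (nat_lit 5) (nat_lit 0) (.cons (.ev (nat_lit 20282410812577562378744952324096) (nat_lit 1)) .nil)),
 (.br (nat_lit 6) (nat_lit 0) (.cons (.br (nat_lit 7) (nat_lit 0) (.cons (.br (nat_lit 11) (nat_lit 0) (.cons (.br (nat_lit 12) (nat_lit 0) (.cons (.rf (nat_lit 169) (nat_lit 493858305440582043680)) (.cons (.br (nat_lit 1) (nat_lit 0) (.cons (.rf (nat_lit 170) (nat_lit 493858305440582043680)) (.cons (.ev (nat_lit 20282719088679938514193492279296) (nat_lit 1)) (.cons (.rf (nat_lit 169) (nat_lit 493858305440582043680)) .nil)))) (.cons (.br (nat_lit 1) (nat_lit 0) (.cons (.rf (nat_lit 171) (nat_lit 493858305440582043680)) (.cons (.ev (nat_lit 1213666633124147034587136) (nat_lit 1)) (.cons (.rf (nat_lit 169) (nat_lit 493858305440582043680)) .nil)))) (.cons (.br (nat_lit 1) (nat_lit 0) (.cons (.ev (nat_lit 20282410812577562378744952324096) (nat_lit 1)) (.cons (.ev (nat_lit 1213666633124147034587136)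 (nat_lit 1)) (.cons (.kr (nat_lit 1208944338416296922186240) (nat_lit 309485009821628747019714560) (nat_lit 1) (nat_lit 0)) .nil)))) .nil))))) .nil)) .nil)) .nil)),
 (.br (nat_lit 10) (nat_lit 0) (.cons (.br (nat_lit 11) (nat_lit 0) (.cons (.rf (nat_lit 172) (nat_lit 493858305440582043680)) (.cons (.br (nat_lit 11) (nat_lit 0) (.cons (.rf (nat_lit 172) (nat_lit 493858305440582043680)) .nil)) .nil))) .nil)),
 (.br (nat_lit 10) (nat_lit 0) (.cons (.rf (nat_lit 173) (nat_lit 14242959524133701664)) (.cons (.br (nat_lit 10) (nat_lit 0) (.cons (.rf (nat_lit 173) (nat_lit 15395881028740548640)) .nil)) .nil))),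
 (.br (nat_lit 2) (nat_lit 0) (.cons (.ev (nat_lit 309485009893684142051164161) (nat_lit 1)) .nil)),
 (.br (nat_lit 2) (nat_lit 0) (.cons (.ev (nat_lit 309485009893684142051164161) (nat_lit 1)) .nil))]

theorem c3 : chkAll C T R L3 (nat_lit 135) = true := by decide +kernel

theorem l3 : (nat_lit 135) + L3.length = (nat_lit 177) := by decide +kernel

/-- part of the certificates -/
def L4 : List Prf := [(.br (nat_lit 2) (nat_lit 0) (.cons (.rf (nat_lit 73) (nat_lit 407996448)) (.cons (.br (nat_lit 5) (nat_lit 0) (.cons (.ev (nat_lit 20361948460101647778837044461568) (nat_lit 1)) .nil)) .nil))),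
 (.br (nat_lit 13) (nat_lit 1) (.cons (.br (nat_lit 5) (nat_lit 1) (.cons (.br (nat_lit 11) (nat_lit 0) (.cons (.br (nat_lit 5) (nat_lit 0) (.cons (.br (nat_lit 2) (nat_lit 0) (.cons (.ev (nat_lit 1208925819897203679822081) (nat_lit 1)) (.cons (.br (nat_lit 3) (nat_lit 0) (.cons (.ev (nat_lit 20361637766184381788188993191936) (nat_lit 1)) .nil)) .nil))) (.cons (.kr (nat_lit 1218370624637962503061506) (nat_lit 309485028268372820729266176) (nat_lit 0) (nat_lit 1)) (.cons (.kr (nat_lit 4722366482869645213697) (nat_lit 1103806595072) (nat_lit 0) (nat_lit 1)) (.cons (.br (nat_lit 1) (nat_lit 0) (.cons (.ev (nat_lit 20282410817318375605688307089665) (nat_lit 1)) (.cons (.rf (nat_lit 175) (nat_lit 15433035725666355232)) (.cons (.rf (nat_lit 176) (nat_lit 15433035725666355232)) .nil)))) .nil))))) .nil)) (.cons (.br (nat_lit 10) (nat_lit 0) (.cons (.br (nat_lit 3) (nat_lit 0) (.cons (.rf (nat_lit 177) (nat_lit 493858305440582043680)) (.cons (.br (nat_lit 1) (nat_lit 0) (.cons (.rf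 (nat_lit 73) (nat_lit 405964832)) (.cons (.br (nat_lit 5) (nat_lit 0) (.cons (.ev (nat_lit 317230616455746255785599959040) (nat_lit 3)) .nil)) .nil))) (.cons (.kr (nat_lit 16777216) (nat_lit 1099511627776) (nat_lit 3) (nat_lit 0)) (.cons (.br (nat_lit 1) (nat_lit 0) (.cons (.rf (nat_lit 130) (nat_lit 11940599767756802080)) (.cons (.rf (nat_lit 177) (nat_lit 493858305440515000352)) (.cons (.br (nat_lit 2) (nat_lit 0) (.cons (.ev (nat_lit 317230616455746260183579361280) (nat_lit 3)) .nil)) .nil)))) .nil))))) .nil)) .nil))) .nil)),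
 (.br (nat_lit 13) (nat_lit 1) (.cons (.rf (nat_lit 178) (nat_lit 493858305440582043680)) (.cons (.br (nat_lit 13) (nat_lit 1) (.cons (.rf (nat_lit 178) (nat_lit 493858305440582043680)) .nil)) .nil))),
 (.br (nat_lit 13) (nat_lit 1) (.cons (.rf (nat_lit 179) (nat_lit 493858305440582043680)) (.cons (.br (nat_lit 13) (nat_lit 1) (.cons (.rf (nat_lit 179) (nat_lit 493858305440582043680)) .nil)) .nil))),
 (.br (nat_lit 7) (nat_lit 0) (.cons (.rf (nat_lit 174) (nat_lit 407901468851537952)) (.cons (.br (nat_lit 13) (nat_lit 1) (.cons (.rf (nat_lit 179) (nat_lit 493858305440582043680)) (.cons (.rf (nat_lit 180) (nat_lit 493858305440582043680)) (.cons (.br (nat_lit 13) (nat_lit 1) (.cons (.rf (nat_lit 179) (nat_lit 493858305440582043680)) (.cons (.rf (nat_lit 180) (nat_lit 493858305440582043680)) .nil))) .nil)))) .nil))),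
 (.br (nat_lit 7) (nat_lit 0) (.cons (.rf (nat_lit 174) (nat_lit 407901468851537952)) (.cons (.rf (nat_lit 181) (nat_lit 14242959524133701664)) (.cons (.br (nat_lit 7) (nat_lit 0) (.cons (.rf (nat_lit 174) (nat_lit 407901468851537952)) (.cons (.rf (nat_lit 181) (nat_lit 15395881028740548640)) .nil))) .nil)))),
 (.br (nat_lit 11) (nat_lit 0) (.cons (.rf (nat_lit 182) (nat_lit 407901468851537952)) (.cons (.rf (nat_lit 182) (nat_lit 407901468784494624)) (.cons (.br (nat_lit 11) (nat_lit 0) (.cons (.rf (nat_lit 182) (nat_lit 407901468851537952)) (.cons (.rf (nat_lit 182) (nat_lit 407901468784494624)) .nil))) .nil)))),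
 (.br (nat_lit 9) (nat_lit 1) (.cons (.br (nat_lit 1) (nat_lit 0) (.cons (.kr (nat_lit 4722366482869645213697) (nat_lit 18446744073709551872) (nat_lit 0) (nat_lit 2)) (.cons (.rf (nat_lit 162) (nat_lit 325702574508064)) (.cons (.rf (nat_lit 162) (nat_lit 325702507464736)) (.cons (.br (nat_lit 10) (nat_lit 1) (.cons (.kr (nat_lit 4722366764344621924353) (nat_lit 18446744078004519168) (nat_lit 0) (nat_lit 2)) (.cons (.br (nat_lit 10) (nat_lit 1) (.cons (.kr (nat_lit 4722366764344621924353) (nat_lit 18446744078004519168) (nat_lit 0) (nat_lit 2)) (.cons (.rf (nat_lit 164) (nat_lit 12746920901610561)) .nil))) (.cons (.br (nat_lit 7) (nat_lit 0) (.cons (.rf (nat_lit 158) (nat_lit 10178205453377)) (.cons (.rf (nat_lit 158) (nat_lit 10178203358273)) (.cons (.rf (nat_lit 164) (nat_lit 12746920901610561)) (.cons (.br (nat_lit 10) (nat_lit 1) (.cons (.kr (nat_lit 4722366764344621924353) (nat_lit 18446744078004519168) (nat_lit 0) (nat_lit 2)) (.cons (.br (nat_lit 12) (nat_lit 1) (.cons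 (.rf (nat_lit 167) (nat_lit 493858305440582043680)) (.cons (.rf (nat_lit 168) (nat_lit 493858305440582043680)) (.cons (.rf (nat_lit 168) (nat_lit 420143386739781765152)) .nil)))) .nil))) .nil))))) .nil)))) .nil))))) (.cons (.br (nat_lit 10) (nat_lit 1) (.cons (.br (nat_lit 11) (nat_lit 0) (.cons (.rf (nat_lit 182) (nat_lit 407901468851537952)) (.cons (.rf (nat_lit 182) (nat_lit 407901468784494624)) (.cons (.rf (nat_lit 183) (nat_lit 14242959524133701664)) (.cons (.br (nat_lit 11) (nat_lit 0) (.cons (.rf (nat_lit 182) (nat_lit 407901468851537952)) (.cons (.rf (nat_lit 182) (nat_lit 407901468784494624)) (.cons (.rf (nat_lit 183) (nat_lit 15395881028740548640)) .nil)))) .nil))))) .nil)) .nil))),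
 (.br (nat_lit 2) (nat_lit 0) (.cons (.rf (nat_lit 165) (nat_lit 421190473653145405472)) (.cons (.rf (nat_lit 165) (nat_lit 421190473653078362144)) (.cons (.br (nat_lit 3) (nat_lit 0) (.cons (.ev (nat_lit 1213666704899166584242176) (nat_lit 1)) .nil)) .nil)))),
 (.br (nat_lit 1) (nat_lit 0) (.cons (.br (nat_lit 5) (nat_lit 0) (.cons (.ev (nat_lit 79229380921711252746300030976) (nat_lit 2)) .nil)) (.cons (.br (nat_lit 3) (nat_lit 0) (.cons (.ev (nat_lit 79228167236703160631732207616) (nat_lit 1)) .nil)) (.cons (.rf (nat_lit 185) (nat_lit 493858305440582043680)) .nil)))),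
 (.br (nat_lit 5) (nat_lit 0) (.cons (.kr (nat_lit 18446744073709552128) (nat_lit 1103806660608) (nat_lit 1) (nat_lit 0)) (.cons (.ev (nat_lit 20282410812577562378744952258816) (nat_lit 1)) .nil))),
 (.br (nat_lit 2) (nat_lit 0) (.cons (.rf (nat_lit 187) (nat_lit 493858305440582043680)) (.cons (.ev (nat_lit 1213666704899166584242176) (nat_lit 1)) (.cons (.rf (nat_lit 186) (nat_lit 493858305440582043680)) .nil)))),
 (.br (nat_lit 6) (nat_lit 0) (.cons (.br (nat_lit 7) (nat_lit 0) (.cons (.br (nat_lit 11) (nat_lit 0) (.cons (.br (nat_lit 12) (nat_lit 0) (.cons (.rf (nat_lit 185) (nat_lit 493858305440582043680)) (.cons (.rf (nat_lit 186) (nat_lit 493858305440582043680)) (.cons (.rf (nat_lit 188) (nat_lit 493858305440582043680)) (.cons (.br (nat_lit 12) (nat_lit 0) (.cons (.rf (nat_lit 185) (nat_lit 493858305440582043680)) (.cons (.rf (nat_lit 186) (nat_lit 493858305440582043680)) (.cons (.rf (nat_lit 188) (nat_lit 493858305440582043680)) .nil)))) .nil))))) .nil)) .nil)) .nil)),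
 (.br (nat_lit 10) (nat_lit 0) (.cons (.br (nat_lit 11) (nat_lit 0) (.cons (.rf (nat_lit 189) (nat_lit 493858305440582043680)) (.cons (.br (nat_lit 11) (nat_lit 0) (.cons (.rf (nat_lit 189) (nat_lit 493858305440582043680)) .nil)) .nil))) .nil)),
 (.br (nat_lit 10) (nat_lit 0) (.cons (.rf (nat_lit 190) (nat_lit 14242959524133701664)) (.cons (.br (nat_lit 10) (nat_lit 0) (.cons (.rf (nat_lit 190) (nat_lit 15395881028740548640)) .nil)) .nil))),
 (.br (nat_lit 2) (nat_lit 0) (.cons (.ev (nat_lit 79228167236703160631732207616) (nat_lit 1)) .nil)),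
 (.br (nat_lit 5) (nat_lit 0) (.cons (.br (nat_lit 3) (nat_lit 0) (.cons (.ev (nat_lit 40723591080952849729958059181058) (nat_lit 3)) .nil)) (.cons (.rf (nat_lit 192) (nat_lit 493858305440582043680)) (.cons (.ev (nat_lit 20282719093383858252989427875841) (nat_lit 1)) .nil)))),
 (.br (nat_lit 2) (nat_lit 0) (.cons (.rf (nat_lit 73) (nat_lit 407996448)) (.cons (.ev (nat_lit 40565137183183512089805537411588) (nat_lit 3)) .nil))),
 (.br (nat_lit 2) (nat_lit 0) (.cons (.ev (nat_lit 309489732188109417658515456) (nat_lit 1)) .nil)),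
 (.br (nat_lit 13) (nat_lit 1) (.cons (.br (nat_lit 5) (nat_lit 1) (.cons (.br (nat_lit 11) (nat_lit 0) (.cons (.br (nat_lit 12) (nat_lit 0) (.cons (.rf (nat_lit 193) (nat_lit 493858305440582043680)) (.cons (.br (nat_lit 12) (nat_lit 0) (.cons (.rf (nat_lit 193) (nat_lit 493858305440582043680)) (.cons (.ev (nat_lit 1213666704899166584242176) (nat_lit 1)) (.cons (.ev (nat_lit 20282719093383858252989427875841) (nat_lit 1)) .nil)))) (.cons (.br (nat_lit 12) (nat_lit 0) (.cons (.rf (nat_lit 193) (nat_lit 493858305440582043680)) (.cons (.ev (nat_lit 1213666704899166584242176) (nat_lit 1)) (.cons (.ev (nat_lit 20282719093383858252989427875841) (nat_lit 1)) .nil)))) (.cons (.ev (nat_lit 20282719093383858252989427875841) (nat_lit 1)) .nil))))) .nil)) (.cons (.br (nat_lit 10) (nat_lit 0) (.cons (.br (nat_lit 3) (nat_lit 0) (.cons (.rf (nat_lit 194) (nat_lit 493858305440582043680)) (.cons (.br (nat_lit 5) (nat_lit 0) (.cons (.rf (nat_lit 73) (nat_lit 405964832)) (.cons (.ev (nat_lit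 1213666704900266079092736) (nat_lit 1)) .nil))) (.cons (.kr (nat_lit 16777216) (nat_lit 1099511627776) (nat_lit 3) (nat_lit 0)) (.cons (.br (nat_lit 1) (nat_lit 0) (.cons (.rf (nat_lit 130) (nat_lit 11940599767756802080)) (.cons (.rf (nat_lit 194) (nat_lit 493858305440515000352)) (.cons (.rf (nat_lit 195) (nat_lit 493858305440582043680)) .nil)))) .nil))))) .nil)) .nil))) .nil)),
 (.br (nat_lit 13) (nat_lit 1) (.cons (.rf (nat_lit 196) (nat_lit 493858305440582043680)) (.cons (.br (nat_lit 13) (nat_lit 1) (.cons (.rf (nat_lit 196) (nat_lit 493858305440582043680)) .nil)) .nil))),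
 (.br (nat_lit 13) (nat_lit 1) (.cons (.rf (nat_lit 197) (nat_lit 493858305440582043680)) (.cons (.br (nat_lit 13) (nat_lit 1) (.cons (.rf (nat_lit 197) (nat_lit 493858305440582043680)) .nil)) .nil))),
 (.br (nat_lit 6) (nat_lit 0) (.cons (.rf (nat_lit 191) (nat_lit 407901468851537952)) (.cons (.br (nat_lit 13) (nat_lit 1) (.cons (.rf (nat_lit 197) (nat_lit 493858305440582043680)) (.cons (.rf (nat_lit 198) (nat_lit 493858305440582043680)) (.cons (.br (nat_lit 13) (nat_lit 1) (.cons (.rf (nat_lit 197) (nat_lit 493858305440582043680)) (.cons (.rf (nat_lit 198) (nat_lit 493858305440582043680)) .nil))) .nil)))) .nil))),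
 (.br (nat_lit 6) (nat_lit 0) (.cons (.rf (nat_lit 191) (nat_lit 407901468851537952)) (.cons (.rf (nat_lit 199) (nat_lit 14242959524133701664)) (.cons (.br (nat_lit 6) (nat_lit 0) (.cons (.rf (nat_lit 191) (nat_lit 407901468851537952)) (.cons (.rf (nat_lit 199) (nat_lit 15395881028740548640)) .nil))) .nil)))),
 (.br (nat_lit 11) (nat_lit 0) (.cons (.rf (nat_lit 200) (nat_lit 407901468851537952)) (.cons (.rf (nat_lit 200) (nat_lit 407901468784494624)) (.cons (.br (nat_lit 11) (nat_lit 0) (.cons (.rf (nat_lit 200) (nat_lit 407901468851537952)) (.cons (.rf (nat_lit 200) (nat_lit 407901468784494624)) .nil))) .nil)))),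
 (.br (nat_lit 9) (nat_lit 1) (.cons (.rf (nat_lit 184) (nat_lit 325702574508064)) (.cons (.br (nat_lit 10) (nat_lit 1) (.cons (.br (nat_lit 11) (nat_lit 0) (.cons (.rf (nat_lit 200) (nat_lit 407901468851537952)) (.cons (.rf (nat_lit 200) (nat_lit 407901468784494624)) (.cons (.rf (nat_lit 201) (nat_lit 14242959524133701664)) (.cons (.br (nat_lit 11) (nat_lit 0) (.cons (.rf (nat_lit 200) (nat_lit 407901468851537952)) (.cons (.rf (nat_lit 200) (nat_lit 407901468784494624)) (.cons (.rf (nat_lit 201) (nat_lit 15395881028740548640)) .nil)))) .nil))))) .nil)) .nil))),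
 (.br (nat_lit 9) (nat_lit 0) (.cons (.br (nat_lit 12) (nat_lit 1) (.cons (.rf (nat_lit 163) (nat_lit 12429123486287884)) .nil)) .nil)),
 (.br (nat_lit 11) (nat_lit 1) (.cons (.rf (nat_lit 203) (nat_lit 407901468851537952)) (.cons (.rf (nat_lit 203) (nat_lit 406810753316784160)) .nil))),
 (.br (nat_lit 5) (nat_lit 0) (.cons (.rf (nat_lit 117) (nat_lit 12269882902564)) (.cons (.br (nat_lit 6) (nat_lit 0) (.cons (.rf (nat_lit 204) (nat_lit 407901468851537952)) (.cons (.rf (nat_lit 117) (nat_lit 13407919178816)) .nil))) .nil))),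
 (.br (nat_lit 2) (nat_lit 0) (.cons (.ev (nat_lit 121694775578937766020375640146948) (nat_lit 3)) (.cons (.br (nat_lit 3) (nat_lit 0) (.cons (.ev (nat_lit 20282409617874182725329913840130) (nat_lit 2)) .nil)) (.cons (.br (nat_lit 3) (nat_lit 0) (.cons (.ev (nat_lit 20282409617837432789412027236866) (nat_lit 2)) .nil)) .nil)))),
 (.br (nat_lit 1) (nat_lit 0) (.cons (.kr (nat_lit 72057594037928448) (nat_lit 281474993553408) (nat_lit 1) (nat_lit 0)) (.cons (.br (nat_lit 3) (nat_lit 0) (.cons (.ev (nat_lit 20440868360735976226965417951234) (nat_lit 2)) .nil)) (.cons (.rf (nat_lit 206) (nat_lit 493858305440582043680)) .nil)))),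
 (.br (nat_lit 1) (nat_lit 0) (.cons (.kr (nat_lit 309485028268089142434333184) (nat_lit 1208925819614633486516224) (nat_lit 1) (nat_lit 0)) (.cons (.br (nat_lit 2) (nat_lit 0) (.cons (.ev (nat_lit 20440868360735976226965417951234) (nat_lit 2)) .nil)) (.cons (.rf (nat_lit 206) (nat_lit 493858305440582043680)) .nil)))),
 (.br (nat_lit 11) (nat_lit 0) (.cons (.br (nat_lit 12) (nat_lit 0) (.cons (.rf (nat_lit 206) (nat_lit 493858305440582043680)) (.cons (.rf (nat_lit 207) (nat_lit 493858305440582043680)) (.cons (.rf (nat_lit 208) (nat_lit 493858305440582043680)) (.cons (.br (nat_lit 12) (nat_lit 0) (.cons (.rf (nat_lit 206) (nat_lit 493858305440582043680)) (.cons (.rf (nat_lit 207) (nat_lit 493858305440582043680)) (.cons (.rf (nat_lit 208) (nat_lit 493858305440582043680)) .nil)))) .nil))))) .nil)),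
 (.br (nat_lit 13) (nat_lit 1) (.cons (.br (nat_lit 5) (nat_lit 1) (.cons (.rf (nat_lit 209) (nat_lit 493858305440582043680)) (.cons (.rf (nat_lit 209) (nat_lit 493823402543469922336)) .nil))) .nil)),
 (.br (nat_lit 13) (nat_lit 1) (.cons (.rf (nat_lit 210) (nat_lit 493858305440582043680)) (.cons (.rf (nat_lit 210) (nat_lit 493823402543469922336)) .nil))),
 (.br (nat_lit 13) (nat_lit 1) (.cons (.rf (nat_lit 211) (nat_lit 493858305440582043680)) (.cons (.br (nat_lit 13) (nat_lit 1) (.cons (.rf (nat_lit 211) (nat_lit 493858305440582043680)) .nil)) .nil))),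
 (.br (nat_lit 7) (nat_lit 0) (.cons (.rf (nat_lit 117) (nat_lit 13443387295841)) (.cons (.br (nat_lit 13) (nat_lit 1) (.cons (.rf (nat_lit 211) (nat_lit 493858305440582043680)) (.cons (.rf (nat_lit 212) (nat_lit 493858305440582043680)) (.cons (.rf (nat_lit 212) (nat_lit 493823402543469922336)) .nil)))) .nil)))]

theorem c4 : chkAll C T R L4 (nat_lit 177) = true := by decide +kernel

theorem l4 : (nat_lit 177) + L4.length = (nat_lit 214) := by decide +kernel

/-- part of the certificates -/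
def L5 : List Prf := [(.br (nat_lit 7) (nat_lit 0) (.cons (.rf (nat_lit 205) (nat_lit 12746920901610561)) (.cons (.rf (nat_lit 213) (nat_lit 14242959524133701664)) (.cons (.br (nat_lit 7) (nat_lit 0) (.cons (.rf (nat_lit 205) (nat_lit 12746920901610561)) (.cons (.rf (nat_lit 213) (nat_lit 15395881028740548640)) .nil))) .nil)))),
 (.br (nat_lit 3) (nat_lit 0) (.cons (.kr (nat_lit 72057594037928192) (nat_lit 281474993487872) (nat_lit 1) (nat_lit 0)) (.cons (.kr (nat_lit 1208944338416296922186240) (nat_lit 309485009821626548030013440) (nat_lit 1) (nat_lit 0)) (.cons (.kr (nat_lit 309485028340146736472261120) (nat_lit 1208925819896108479938560) (nat_lit 1) (nat_lit 0)) .nil)))),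
 (.br (nat_lit 1) (nat_lit 0) (.cons (.ev (nat_lit 121694775578938053124851818038788) (nat_lit 3)) (.cons (.br (nat_lit 3) (nat_lit 0) (.cons (.zr (nat_lit 237685696505507244755667582976) (nat_lit 40564819216748289986420201751554) (nat_lit 10) (nat_lit 12)) .nil)) (.cons (.rf (nat_lit 215) (nat_lit 493858305440582043680)) .nil)))),
 (.br (nat_lit 1) (nat_lit 0) (.cons (.kr (nat_lit 309485028268089142434332928) (nat_lit 1208925819614633486450688) (nat_lit 1) (nat_lit 0)) (.cons (.kr (nat_lit 928455047982836873921823232) (nat_lit 3626777459125366829350912) (nat_lit 1) (nat_lit 0)) (.cons (.kr (nat_lit 309485028340146736472261120) (nat_lit 1208925819896108479938560) (nat_lit 1) (nat_lit 0)) .nil)))),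
 (.br (nat_lit 11) (nat_lit 0) (.cons (.br (nat_lit 12) (nat_lit 0) (.cons (.rf (nat_lit 215) (nat_lit 493858305440582043680)) (.cons (.rf (nat_lit 216) (nat_lit 493858305440582043680)) (.cons (.rf (nat_lit 217) (nat_lit 493858305440582043680)) (.cons (.br (nat_lit 12) (nat_lit 0) (.cons (.rf (nat_lit 215) (nat_lit 493858305440582043680)) (.cons (.rf (nat_lit 216) (nat_lit 493858305440582043680)) (.cons (.rf (nat_lit 217) (nat_lit 493858305440582043680)) .nil)))) .nil))))) .nil)),
 (.br (nat_lit 5) (nat_lit 1) (.cons (.rf (nat_lit 218) (nat_lit 493858305440582043680)) (.cons (.rf (nat_lit 218) (nat_lit 493823402543469922336)) .nil))),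
 (.br (nat_lit 5) (nat_lit 0) (.cons (.ev (nat_lit 475684523669673309430700179968) (nat_lit 3)) .nil)),
 (.br (nat_lit 2) (nat_lit 0) (.cons (.rf (nat_lit 220) (nat_lit 493858305440582043680)) (.cons (.rf (nat_lit 220) (nat_lit 493823402543402879008)) (.cons (.br (nat_lit 3) (nat_lit 0) (.cons (.ev (nat_lit 20282409613115066307646188618241) (nat_lit 2)) .nil)) .nil)))),
 (.br (nat_lit 5) (nat_lit 0) (.cons (.ev (nat_lit 475684504779918017295127282180) (nat_lit 3)) .nil)),
 (.br (nat_lit 1) (nat_lit 0) (.cons (.rf (nat_lit 222) (nat_lit 493858305440582043680)) (.cons (.rf (nat_lit 222) (nat_lit 493823402543402879008)) (.cons (.rf (nat_lit 221) (nat_lit 493858305440582043680)) .nil)))),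
 (.br (nat_lit 12) (nat_lit 0) (.cons (.rf (nat_lit 221) (nat_lit 493858305440582043680)) (.cons (.rf (nat_lit 223) (nat_lit 493858305440582043680)) (.cons (.br (nat_lit 1) (nat_lit 0) (.cons (.ev (nat_lit 81288405433626263904176077932032) (nat_lit 3)) .nil)) .nil)))),
 (.br (nat_lit 5) (nat_lit 1) (.cons (.rf (nat_lit 219) (nat_lit 493858305440515000352)) (.cons (.br (nat_lit 7) (nat_lit 0) (.cons (.br (nat_lit 12) (nat_lit 0) (.cons (.rf (nat_lit 221) (nat_lit 493858305440582043680)) (.cons (.rf (nat_lit 223) (nat_lit 493858305440582043680)) (.cons (.rf (nat_lit 224) (nat_lit 493858305440582043680)) (.cons (.rf (nat_lit 224) (nat_lit 493823402543402879008)) .nil))))) .nil)) .nil))),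
 (.br (nat_lit 13) (nat_lit 1) (.cons (.br (nat_lit 3) (nat_lit 1) (.cons (.rf (nat_lit 219) (nat_lit 493858305440582043680)) (.cons (.rf (nat_lit 225) (nat_lit 493858305440582043680)) (.cons (.rf (nat_lit 225) (nat_lit 493823402543469922336)) .nil)))) .nil)),
 (.br (nat_lit 13) (nat_lit 1) (.cons (.rf (nat_lit 226) (nat_lit 493858305440582043680)) (.cons (.rf (nat_lit 226) (nat_lit 493823402543469922336)) .nil))),
 (.br (nat_lit 13) (nat_lit 1) (.cons (.rf (nat_lit 227) (nat_lit 493858305440582043680)) (.cons (.br (nat_lit 13) (nat_lit 1) (.cons (.rf (nat_lit 227) (nat_lit 493858305440582043680)) .nil)) .nil))),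
 (.br (nat_lit 6) (nat_lit 0) (.cons (.rf (nat_lit 214) (nat_lit 407901468851537952)) (.cons (.rf (nat_lit 214) (nat_lit 407901468784494624)) (.cons (.br (nat_lit 13) (nat_lit 1) (.cons (.rf (nat_lit 227) (nat_lit 493858305440582043680)) (.cons (.rf (nat_lit 228) (nat_lit 493858305440582043680)) (.cons (.rf (nat_lit 228) (nat_lit 493823402543469922336)) .nil)))) .nil)))),
 (.br (nat_lit 9) (nat_lit 1) (.cons (.rf (nat_lit 184) (nat_lit 325702574508064)) (.cons (.rf (nat_lit 202) (nat_lit 325702574508064)) (.cons (.br (nat_lit 9) (nat_lit 1) (.cons (.rf (nat_lit 184) (nat_lit 325702574508064)) (.cons (.rf (nat_lit 202) (nat_lit 325702574508064)) (.cons (.br (nat_lit 10) (nat_lit 1) (.cons (.br (nat_lit 6) (nat_lit 0) (.cons (.rf (nat_lit 214) (nat_lit 407901468851537952)) (.cons (.rf (nat_lit 214) (nat_lit 407901468784494624)) (.cons (.rf (nat_lit 229) (nat_lit 14242959524133701664)) (.cons (.br (nat_lit 6) (nat_lit 0) (.cons (.rf (nat_lit 214) (nat_lit 407901468851537952))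 (.cons (.rf (nat_lit 214) (nat_lit 407901468784494624)) (.cons (.rf (nat_lit 229) (nat_lit 15395881028740548640)) .nil)))) .nil))))) .nil)) .nil)))) .nil)))),
 (.br (nat_lit 5) (nat_lit 0) (.cons (.ev (nat_lit 79229371440156010920563245313) (nat_lit 1)) .nil)),
 (.br (nat_lit 2) (nat_lit 0) (.cons (.rf (nat_lit 231) (nat_lit 493858305440582043680)) (.cons (.br (nat_lit 3) (nat_lit 0) (.cons (.ev (nat_lit 317228208085877597783879451138) (nat_lit 3)) .nil)) (.cons (.br (nat_lit 3) (nat_lit 0) (.cons (.ev (nat_lit 20440865928698862019293009347075) (nat_lit 2)) .nil)) .nil)))),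
 (.br (nat_lit 1) (nat_lit 0) (.cons (.br (nat_lit 5) (nat_lit 0) (.cons (.zr (nat_lit 618970038161491805197042432) (nat_lit 20282409603651670987996733177856) (nat_lit 5) (nat_lit 3)) .nil)) (.cons (.br (nat_lit 3) (nat_lit 0) (.cons (.ev (nat_lit 315558028530891150758117890) (nat_lit 3)) .nil)) (.cons (.rf (nat_lit 232) (nat_lit 493858305440582043680)) .nil)))),
 (.br (nat_lit 12) (nat_lit 0) (.cons (.rf (nat_lit 232) (nat_lit 493858305440582043680)) (.cons (.rf (nat_lit 233) (nat_lit 493858305440582043680)) (.cons (.br (nat_lit 1) (nat_lit 0) (.cons (.zr (nat_lit 310693935785074890270311168) (nat_lit 20282409603651671269471709888512) (nat_lit 5) (nat_lit 2)) .nil)) .nil)))),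
 (.br (nat_lit 5) (nat_lit 0) (.cons (.ev (nat_lit 4722366483973468586241) (nat_lit 1)) .nil)),
 (.br (nat_lit 1) (nat_lit 0) (.cons (.ev (nat_lit 79228162514264338697367388416) (nat_lit 1)) .nil)),
 (.br (nat_lit 11) (nat_lit 0) (.cons (.br (nat_lit 4) (nat_lit 0) (.cons (.br (nat_lit 6) (nat_lit 0) (.cons (.br (nat_lit 7) (nat_lit 0) (.cons (.br (nat_lit 10) (nat_lit 0) (.cons (.br (nat_lit 12) (nat_lit 0) (.cons (.rf (nat_lit 232) (nat_lit 493858305440582043680)) (.cons (.rf (nat_lit 233) (nat_lit 493858305440582043680)) (.cons (.rf (nat_lit 234) (nat_lit 493858305440582043680)) (.cons (.br (nat_lit 12) (nat_lit 0) (.cons (.rf (nat_lit 232) (nat_lit 493858305440582043680)) (.cons (.rf (nat_lit 233) (nat_lit 493858305440582043680)) (.cons (.rf (nat_lit 234) (nat_lit 493858305440582043680)) .nil)))) .nil))))) .nil)) .nil)) .nil)) (.cons (.br (nat_lit 6) (nat_lit 0) (.cons (.br (nat_lit 7) (nat_lit 0) (.cons (.br (nat_lit 10) (nat_lit 0) (.cons (.br (nat_lit 2) (nat_lit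 0) (.cons (.kr (nat_lit 40564819207303413186963517210626) (nat_lit 310693954087703775904137216) (nat_lit 0) (nat_lit 1)) (.cons (.br (nat_lit 1) (nat_lit 0) (.cons (.rf (nat_lit 73) (nat_lit 405964832)) (.cons (.br (nat_lit 5) (nat_lit 0) (.cons (.ev (nat_lit 162259602039869810978212006199810) (nat_lit 4)) .nil)) .nil))) (.cons (.ev (nat_lit 20282719093383858534460109619201) (nat_lit 1)) (.cons (.br (nat_lit 3) (nat_lit 0) (.cons (.rf (nat_lit 235) (nat_lit 482283464830322720)) (.cons (.rf (nat_lit 236) (nat_lit 15433070910038444064)) (.cons (.ev (nat_lit 79229376180897460645345099776) (nat_lit 1)) .nil)))) .nil))))) .nil)) .nil)) (.cons (.br (nat_lit 7) (nat_lit 0) (.cons (.br (nat_lit 10) (nat_lit 0) (.cons (.br (nat_lit 1) (nat_lit 0) (.cons (.kr (nat_lit 40564819207303413186963517210626) (nat_lit 310693954087703775904006656) (nat_lit 0) (nat_lit 2)) (.cons (.kr (nat_lit 20282409603651670705422227996673) (nat_lit 1208925819614633469673728) (nat_lit 0) (nat_lit 2)) (.cons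 (.br (nat_lit 3) (nat_lit 0) (.cons (.ev (nat_lit 1208925819897203679822081) (nat_lit 1)) (.cons (.ev (nat_lit 20282409603670189226718822137856) (nat_lit 1)) .nil))) (.cons (.br (nat_lit 12) (nat_lit 0) (.cons (.br (nat_lit 3) (nat_lit 0) (.cons (.ev (nat_lit 79228162514336676666870333441) (nat_lit 1)) .nil)) (.cons (.ev (nat_lit 79228162532711363146541957121) (nat_lit 1)) (.cons (.rf (nat_lit 176) (nat_lit 10821490444727322656)) .nil)))) .nil))))) .nil)) (.cons (.br (nat_lit 10) (nat_lit 0) (.cons (.br (nat_lit 1) (nat_lit 0) (.cons (.br (nat_lit 3) (nat_lit 0) (.cons (.ev (nat_lit 4740885567111881097216) (nat_lit 1)) (.cons (.br (nat_lit 5) (nat_lit 0) (.cons (.zr (nat_lit 60847231228843543992554647191555) (nat_lit 928464474269340014513095168) (nat_lit 10) (nat_lit 5)) .nil)) .nil))) (.cons (.ev (nat_lit 20282720297605758127718877102336) (nat_lit 1)) (.cons (.br (nat_lit 2) (nat_lit 0) (.cons (.ev (nat_lit 4740885567111881097216) (nat_lit 1)) (.cons (.br (nat_lit 3) (nat_lit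 0) (.cons (.ev (nat_lit 79538856449905579865948553473) (nat_lit 1)) .nil)) .nil))) (.cons (.br (nat_lit 2) (nat_lit 0) (.cons (.br (nat_lit 5) (nat_lit 0) (.cons (.ev (nat_lit 634150510770562287382346990090) (nat_lit 4)) .nil)) (.cons (.br (nat_lit 3) (nat_lit 0) (.cons (.ev (nat_lit 79229376180969237863918010368) (nat_lit 1)) .nil)) (.cons (.br (nat_lit 3) (nat_lit 0) (.cons (.ev (nat_lit 79538856449905579865948553473) (nat_lit 1)) .nil)) .nil)))) .nil))))) .nil)) .nil))) .nil))) .nil))) .nil)),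
 (.br (nat_lit 11) (nat_lit 0) (.cons (.rf (nat_lit 237) (nat_lit 14242959524133701664)) (.cons (.br (nat_lit 11) (nat_lit 0) (.cons (.rf (nat_lit 237) (nat_lit 15395881028740548640)) .nil)) .nil))),
 (.br (nat_lit 2) (nat_lit 0) (.cons (.rf (nat_lit 73) (nat_lit 407996448)) (.cons (.br (nat_lit 5) (nat_lit 0) (.cons (.zr (nat_lit 2417888676832598139340032) (nat_lit 9444734092738725806081) (nat_lit 5) (nat_lit 3)) .nil)) .nil))),
 (.br (nat_lit 5) (nat_lit 0) (.cons (.br (nat_lit 6) (nat_lit 0) (.cons (.br (nat_lit 10) (nat_lit 0) (.cons (.kr (nat_lit 4722438540463699918848) (nat_lit 1208925819897203663044608) (nat_lit 3) (nat_lit 0)) .nil)) .nil)) (.cons (.br (nat_lit 6) (nat_lit 0) (.cons (.br (nat_lit 10) (nat_lit 0) (.cons (.kr (nat_lit 4722438540463699918848) (nat_lit 1208925819897203663044608) (nat_lit 3) (nat_lit 0)) .nil)) (.cons (.br (nat_lit 10) (nat_lit 0) (.cons (.kr (nat_lit 4722438540463699918848) (nat_lit 1208925819897203663044608) (nat_lit 3) (nat_lit 0))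 .nil)) .nil))) .nil))),
 (.br (nat_lit 4) (nat_lit 0) (.cons (.br (nat_lit 6) (nat_lit 0) (.cons (.br (nat_lit 7) (nat_lit 0) (.cons (.br (nat_lit 11) (nat_lit 0) (.cons (.br (nat_lit 3) (nat_lit 0) (.cons (.rf (nat_lit 239) (nat_lit 493858305440582043680)) (.cons (.br (nat_lit 1) (nat_lit 0) (.cons (.rf (nat_lit 73) (nat_lit 405964832)) (.cons (.br (nat_lit 5) (nat_lit 0) (.cons (.ev (nat_lit 158457538732127625459668288259) (nat_lit 2)) .nil)) .nil))) (.cons (.kr (nat_lit 16777216) (nat_lit 1099511627776) (nat_lit 3) (nat_lit 0)) (.cons (.br (nat_lit 1) (nat_lit 0) (.cons (.rf (nat_lit 130) (nat_lit 11940599767756802080)) (.cons (.rf (nat_lit 239) (nat_lit 493858305440515000352)) (.cons (.br (nat_lit 2) (nat_lit 0) (.cons (.ev (nat_lit 158457538732127628758152839939) (nat_lit 2)) .nil)) .nil)))) .nil))))) .nil)) .nil)) .nil)) (.cons (.rf (nat_lit 240) (nat_lit 15433072045018188865)) .nil))),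
 (.br (nat_lit 3) (nat_lit 0) (.cons (.ev (nat_lit 79537652264898909605640273921) (nat_lit 1)) .nil)),
 (.br (nat_lit 4) (nat_lit 1) (.cons (.br (nat_lit 6) (nat_lit 0) (.cons (.kr (nat_lit 4722438540463699918848) (nat_lit 1208925819897203663044608) (nat_lit 3) (nat_lit 0)) .nil)) (.cons (.br (nat_lit 5) (nat_lit 0) (.cons (.kr (nat_lit 4722438540463699918848) (nat_lit 1208925819897203663044608) (nat_lit 3) (nat_lit 0)) .nil)) .nil))),
 (.br (nat_lit 11) (nat_lit 0) (.cons (.rf (nat_lit 241) (nat_lit 493858305440582043680)) (.cons (.br (nat_lit 4) (nat_lit 0) (.cons (.br (nat_lit 6) (nat_lit 0) (.cons (.br (nat_lit 7) (nat_lit 0) (.cons (.br (nat_lit 1) (nat_lit 0) (.cons (.br (nat_lit 3) (nat_lit 0) (.cons (.ev (nat_lit 72340168526332161) (nat_lit 1)) (.cons (.br (nat_lit 5) (nat_lit 0) (.cons (.zr (nat_lit 60847231228843543992554647191555) (nat_lit 928464474269340014513095168) (nat_lit 10) (nat_lit 5)) .nil)) .nil))) (.cons (.ev (nat_lit 20282409608374037188296184954881)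 (nat_lit 1)) (.cons (.br (nat_lit 3) (nat_lit 0) (.cons (.rf (nat_lit 73) (nat_lit 405964832)) (.cons (.ev (nat_lit 1213666633124147034587136) (nat_lit 1)) .nil))) (.cons (.br (nat_lit 2) (nat_lit 0) (.cons (.rf (nat_lit 165) (nat_lit 421190473653145405472)) (.cons (.rf (nat_lit 165) (nat_lit 421190473653078362144)) (.cons (.rf (nat_lit 242) (nat_lit 15433072045018155040)) .nil)))) .nil))))) .nil)) .nil)) (.cons (.rf (nat_lit 243) (nat_lit 15433072045018188865)) .nil))) .nil))),
 (.br (nat_lit 10) (nat_lit 0) (.cons (.rf (nat_lit 238) (nat_lit 407901468851537952)) (.cons (.br (nat_lit 11) (nat_lit 0) (.cons (.rf (nat_lit 241) (nat_lit 493858305440582043680)) (.cons (.rf (nat_lit 244) (nat_lit 493858305440582043680)) (.cons (.br (nat_lit 11) (nat_lit 0) (.cons (.rf (nat_lit 241) (nat_lit 493858305440582043680)) (.cons (.rf (nat_lit 244) (nat_lit 493858305440582043680)) .nil))) .nil)))) .nil))),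
 (.br (nat_lit 10) (nat_lit 0) (.cons (.rf (nat_lit 238) (nat_lit 407901468851537952)) (.cons (.rf (nat_lit 245) (nat_lit 14242959524133701664)) (.cons (.br (nat_lit 10) (nat_lit 0) (.cons (.rf (nat_lit 238) (nat_lit 407901468851537952)) (.cons (.rf (nat_lit 245) (nat_lit 15395881028740548640)) .nil))) .nil)))),
 (.br (nat_lit 11) (nat_lit 0) (.cons (.rf (nat_lit 246) (nat_lit 407901468851537952)) (.cons (.rf (nat_lit 246) (nat_lit 407901468784494624)) (.cons (.br (nat_lit 11) (nat_lit 0) (.cons (.rf (nat_lit 246) (nat_lit 407901468851537952)) (.cons (.rf (nat_lit 246) (nat_lit 407901468784494624)) .nil))) .nil))))]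

theorem c5 : chkAll C T R L5 (nat_lit 214) = true := by decide +kernel

theorem l5 : (nat_lit 214) + L5.length = (nat_lit 248) := by decide +kernel

/-- part of the certificates -/
def L6 : List Prf := [(.br (nat_lit 9) (nat_lit 1) (.cons (.rf (nat_lit 230) (nat_lit 325702574508064)) (.cons (.br (nat_lit 10) (nat_lit 1) (.cons (.br (nat_lit 11) (nat_lit 0) (.cons (.rf (nat_lit 246) (nat_lit 407901468851537952)) (.cons (.rf (nat_lit 246) (nat_lit 407901468784494624)) (.cons (.rf (nat_lit 247) (nat_lit 14242959524133701664)) (.cons (.br (nat_lit 11) (nat_lit 0) (.cons (.rf (nat_lit 246) (nat_lit 407901468851537952)) (.cons (.rf (nat_lit 246) (nat_lit 407901468784494624)) (.cons (.rf (nat_lit 247) (nat_lit 15395881028740548640)) .nil)))) .nil))))) .nil)) .nil))),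
 (.br (nat_lit 5) (nat_lit 0) (.cons (.br (nat_lit 9) (nat_lit 0) (.cons (.br (nat_lit 10) (nat_lit 0) (.cons (.kr (nat_lit 1208925891672223229411328) (nat_lit 4722366765444133552128) (nat_lit 3) (nat_lit 0)) .nil)) .nil)) .nil)),
 (.br (nat_lit 10) (nat_lit 0) (.cons (.rf (nat_lit 249) (nat_lit 14242959524133701664)) (.cons (.br (nat_lit 10) (nat_lit 0) (.cons (.rf (nat_lit 249) (nat_lit 14242959524133701664)) .nil)) .nil))),
 (.br (nat_lit 4) (nat_lit 1) (.cons (.rf (nat_lit 117) (nat_lit 12308405453952)) (.cons (.rf (nat_lit 250) (nat_lit 14242959524133701664)) (.cons (.rf (nat_lit 250) (nat_lit 14241868808598947872)) .nil)))),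
 (.br (nat_lit 13) (nat_lit 0) (.cons (.ev (nat_lit 79537647524158021731300212736) (nat_lit 1)) (.cons (.rf (nat_lit 171) (nat_lit 458082835900590622752)) .nil))),
 (.br (nat_lit 11) (nat_lit 0) (.cons (.br (nat_lit 4) (nat_lit 0) (.cons (.br (nat_lit 6) (nat_lit 0) (.cons (.br (nat_lit 10) (nat_lit 0) (.cons (.kr (nat_lit 309485028268089146729299968) (nat_lit 1208925891953698189344768) (nat_lit 4) (nat_lit 0)) .nil)) (.cons (.br (nat_lit 10) (nat_lit 0) (.cons (.kr (nat_lit 309485028268089146729299968) (nat_lit 1208925891953698189344768) (nat_lit 4) (nat_lit 0)) .nil)) .nil))) (.cons (.br (nat_lit 6) (nat_lit 0) (.cons (.br (nat_lit 10) (nat_lit 0) (.cons (.br (nat_lit 1) (nat_lit 0) (.cons (.rf (nat_lit 252) (nat_lit 493858305440582043680)) (.cons (.ev (nat_lit 79228167255149622130953420801) (nat_lit 1)) (.cons (.br (nat_lit 3) (nat_lit 0) (.cons (.rf (nat_lit 73) (nat_lit 439519264)) (.cons (.kr (nat_lit 928455047982836873921823232) (nat_lit 3626777459125366829350912)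 (nat_lit 1) (nat_lit 0)) .nil))) (.cons (.br (nat_lit 3) (nat_lit 0) (.cons (.br (nat_lit 5) (nat_lit 0) (.cons (.ev (nat_lit 20282409608374109246985439543296) (nat_lit 1)) .nil)) (.cons (.kr (nat_lit 1208944338416296922186240) (nat_lit 309485009821626548030013440) (nat_lit 1) (nat_lit 0)) (.cons (.kr (nat_lit 309485028340146736472261120) (nat_lit 1208925819896108479938560) (nat_lit 1) (nat_lit 0)) .nil)))) .nil))))) .nil)) .nil)) .nil))) .nil)),
 (.br (nat_lit 11) (nat_lit 0) (.cons (.rf (nat_lit 253) (nat_lit 14242959524133701664)) (.cons (.br (nat_lit 11) (nat_lit 0) (.cons (.rf (nat_lit 253) (nat_lit 14242959524133701664)) .nil)) .nil))),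
 (.br (nat_lit 10) (nat_lit 0) (.cons (.rf (nat_lit 254) (nat_lit 14242959524133701664)) (.cons (.br (nat_lit 11) (nat_lit 0) (.cons (.rf (nat_lit 254) (nat_lit 14208056627021580320)) (.cons (.br (nat_lit 11) (nat_lit 0) (.cons (.rf (nat_lit 254) (nat_lit 14208056627021580320)) (.cons (.kr (nat_lit 1208925819614629174706176) (nat_lit 309485009821345068724781056) (nat_lit 10) (nat_lit 0)) .nil))) (.cons (.br (nat_lit 11) (nat_lit 0) (.cons (.rf (nat_lit 254) (nat_lit 14208056627021580320)) (.cons (.kr (nat_lit 1208925819614629174706176) (nat_lit 309485009821345068724781056) (nat_lit 10) (nat_lit 0)) .nil))) .nil)))) .nil))),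
 (.br (nat_lit 7) (nat_lit 0) (.cons (.rf (nat_lit 110) (nat_lit 8664421472)) (.cons (.br (nat_lit 4) (nat_lit 0) (.cons (.rf (nat_lit 154) (nat_lit 430190471746592)) (.cons (.br (nat_lit 6) (nat_lit 0) (.cons (.kr (nat_lit 18446744078004518912) (nat_lit 72339069014638592) (nat_lit 4) (nat_lit 0)) (.cons (.rf (nat_lit 24) (nat_lit 14954672537439618)) .nil))) (.cons (.rf (nat_lit 251) (nat_lit 15433072045018188865)) .nil)))) (.cons (.br (nat_lit 10) (nat_lit 0) (.cons (.rf (nat_lit 254) (nat_lit 14242959524133701664)) (.cons (.rf (nat_lit 255) (nat_lit 14242959524133701664)) (.cons (.br (nat_lit 10) (nat_lit 0) (.cons (.rf (nat_lit 254) (nat_lit 14242959524133701664)) (.cons (.rf (nat_lit 255) (nat_lit 14242959524133701664)) .nil))) .nil)))) .nil)))),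
 (.br (nat_lit 11) (nat_lit 1) (.cons (.br (nat_lit 10) (nat_lit 0) (.cons (.kr (nat_lit 1208925891672223229411328) (nat_lit 4722366765444133552128) (nat_lit 3) (nat_lit 0)) .nil)) .nil)),
 (.br (nat_lit 3) (nat_lit 0) (.cons (.br (nat_lit 5) (nat_lit 0) (.cons (.ev (nat_lit 20361948464842388948182049554433) (nat_lit 1)) .nil)) (.cons (.br (nat_lit 2) (nat_lit 0) (.cons (.ev (nat_lit 20440865942902855515705111150594) (nat_lit 2)) .nil)) (.cons (.ev (nat_lit 79228162532711363146541957121) (nat_lit 1)) .nil)))),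
 (.br (nat_lit 1) (nat_lit 0) (.cons (.br (nat_lit 5) (nat_lit 0) (.cons (.ev (nat_lit 310703472681678152791097350) (nat_lit 3)) .nil)) (.cons (.ev (nat_lit 81129953953708854856146409881602) (nat_lit 3)) (.cons (.rf (nat_lit 258) (nat_lit 493858305440582043680)) .nil)))),
 (.br (nat_lit 1) (nat_lit 0) (.cons (.ev (nat_lit 4740813228042883236096) (nat_lit 1)) .nil)),
 (.br (nat_lit 11) (nat_lit 0) (.cons (.br (nat_lit 12) (nat_lit 0) (.cons (.rf (nat_lit 258) (nat_lit 493858305440582043680)) (.cons (.rf (nat_lit 259) (nat_lit 493858305440582043680)) (.cons (.br (nat_lit 12) (nat_lit 0) (.cons (.ev (nat_lit 79228162532711363146541957121) (nat_lit 1)) (.cons (.rf (nat_lit 259) (nat_lit 493858305440582043680)) (.cons (.rf (nat_lit 260) (nat_lit 14242959524133701664)) .nil)))) (.cons (.br (nat_lit 12) (nat_lit 0) (.cons (.rf (nat_lit 258) (nat_lit 493858305440582043680)) (.cons (.rf (nat_lit 259) (nat_lit 493858305440582043680)) (.cons (.rf (nat_lit 260) (nat_lit 14242959524133701664))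 .nil)))) .nil))))) .nil)),
 (.br (nat_lit 5) (nat_lit 1) (.cons (.rf (nat_lit 257) (nat_lit 15433072045018188865)) (.cons (.br (nat_lit 10) (nat_lit 0) (.cons (.rf (nat_lit 261) (nat_lit 493858305440582043680)) (.cons (.br (nat_lit 11) (nat_lit 0) (.cons (.rf (nat_lit 261) (nat_lit 493823402543402879008)) .nil)) .nil))) .nil))),
 (.br (nat_lit 3) (nat_lit 1) (.cons (.rf (nat_lit 262) (nat_lit 493858305440582043680)) (.cons (.rf (nat_lit 262) (nat_lit 493823402543469922336)) .nil))),
 (.br (nat_lit 10) (nat_lit 0) (.cons (.kr (nat_lit 1208925891672223229411328) (nat_lit 4722366765444133552128) (nat_lit 3) (nat_lit 0)) .nil)),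
 (.br (nat_lit 4) (nat_lit 1) (.cons (.rf (nat_lit 264) (nat_lit 14242959524133701664)) (.cons (.rf (nat_lit 264) (nat_lit 14241868808598947872)) .nil))),
 (.br (nat_lit 3) (nat_lit 0) (.cons (.ev (nat_lit 79228162514264338697367388416) (nat_lit 1)) .nil)),
 (.br (nat_lit 12) (nat_lit 0) (.cons (.ev (nat_lit 20361638975091754657644946653184) (nat_lit 1)) (.cons (.ev (nat_lit 79537652264899191084895174656) (nat_lit 1)) (.cons (.rf (nat_lit 260) (nat_lit 14242959524133701664)) .nil)))),
 (.br (nat_lit 5) (nat_lit 1) (.cons (.rf (nat_lit 265) (nat_lit 15433072045016093761)) (.cons (.br (nat_lit 6) (nat_lit 0) (.cons (.br (nat_lit 12) (nat_lit 0) (.cons (.br (nat_lit 12) (nat_lit 0) (.cons (.rf (nat_lit 266) (nat_lit 15433070910038444064)) (.cons (.ev (nat_lit 20361638975091754657644946653184) (nat_lit 1)) (.cons (.ev (nat_lit 20361638975110273177842012389376) (nat_lit 1)) .nil)))) (.cons (.br (nat_lit 12) (nat_lit 0) (.cons (.rf (nat_lit 266) (nat_lit 15433070910038444064))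 (.cons (.ev (nat_lit 79537652264899191084895174656) (nat_lit 1)) (.cons (.ev (nat_lit 79229376180897460645345099776) (nat_lit 1)) .nil)))) (.cons (.rf (nat_lit 267) (nat_lit 493858305440582043680)) (.cons (.rf (nat_lit 267) (nat_lit 493823402543402879008)) .nil))))) .nil)) .nil))),
 (.br (nat_lit 13) (nat_lit 1) (.cons (.rf (nat_lit 263) (nat_lit 493858305440582043680)) (.cons (.br (nat_lit 3) (nat_lit 1) (.cons (.rf (nat_lit 265) (nat_lit 15433072045018188865)) (.cons (.rf (nat_lit 268) (nat_lit 493858305440582043680)) (.cons (.rf (nat_lit 268) (nat_lit 493823402543469922336)) .nil)))) .nil))),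
 (.br (nat_lit 13) (nat_lit 1) (.cons (.rf (nat_lit 263) (nat_lit 493858305440582043680)) (.cons (.rf (nat_lit 269) (nat_lit 493858305440582043680)) (.cons (.rf (nat_lit 269) (nat_lit 493823402543469922336)) .nil)))),
 (.br (nat_lit 3) (nat_lit 0) (.cons (.ev (nat_lit 79228167255077565640722087936) (nat_lit 1)) .nil)),
 (.br (nat_lit 2) (nat_lit 0) (.cons (.br (nat_lit 5) (nat_lit 0) (.cons (.ev (nat_lit 79537647542604485429544681473) (nat_lit 1)) .nil)) (.cons (.rf (nat_lit 271) (nat_lit 14242959524133701664)) (.cons (.br (nat_lit 3) (nat_lit 0) (.cons (.ev (nat_lit 79228167236703160631732207616) (nat_lit 1)) .nil)) .nil)))),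
 (.br (nat_lit 1) (nat_lit 0) (.cons (.br (nat_lit 5) (nat_lit 0) (.cons (.ev (nat_lit 475684523743316733504562136576) (nat_lit 3)) .nil)) (.cons (.rf (nat_lit 271) (nat_lit 14242959524133700672)) (.cons (.rf (nat_lit 272) (nat_lit 493858305440582043680)) .nil)))),
 (.br (nat_lit 12) (nat_lit 0) (.cons (.rf (nat_lit 272) (nat_lit 493858305440582043680)) (.cons (.rf (nat_lit 273) (nat_lit 493858305440582043680)) (.cons (.br (nat_lit 1) (nat_lit 0) (.cons (.ev (nat_lit 475679669150860573868254561796) (nat_lit 3)) .nil)) .nil)))),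
 (.br (nat_lit 11) (nat_lit 0) (.cons (.br (nat_lit 12) (nat_lit 0) (.cons (.rf (nat_lit 272) (nat_lit 493858305440582043680)) (.cons (.rf (nat_lit 273) (nat_lit 493858305440582043680)) (.cons (.rf (nat_lit 274) (nat_lit 493858305440582043680)) (.cons (.br (nat_lit 12) (nat_lit 0) (.cons (.rf (nat_lit 272) (nat_lit 493858305440582043680)) (.cons (.rf (nat_lit 273) (nat_lit 493858305440582043680)) (.cons (.rf (nat_lit 274) (nat_lit 493858305440582043680)) .nil)))) .nil))))) .nil)),
 (.br (nat_lit 5) (nat_lit 1) (.cons (.rf (nat_lit 275) (nat_lit 493858305440582043680)) (.cons (.rf (nat_lit 275) (nat_lit 493823402543469922336)) .nil))),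
 (.br (nat_lit 5) (nat_lit 0) (.cons (.ev (nat_lit 40882047396536645441604879909888) (nat_lit 3)) .nil)),
 (.br (nat_lit 3) (nat_lit 0) (.cons (.ev (nat_lit 79538861190718525338621575168) (nat_lit 1)) .nil)),
 (.br (nat_lit 2) (nat_lit 0) (.cons (.rf (nat_lit 277) (nat_lit 493858305440582043680)) (.cons (.rf (nat_lit 277) (nat_lit 493823402543402879008)) (.cons (.rf (nat_lit 278) (nat_lit 493858305440582043680)) .nil)))),
 (.br (nat_lit 5) (nat_lit 0) (.cons (.ev (nat_lit 309489732260168106913103873) (nat_lit 1)) .nil)),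
 (.br (nat_lit 1) (nat_lit 0) (.cons (.rf (nat_lit 280) (nat_lit 15433072044983552032)) (.cons (.rf (nat_lit 280) (nat_lit 15431981329381754912)) (.cons (.rf (nat_lit 278) (nat_lit 493858305440582043680)) .nil)))),
 (.br (nat_lit 12) (nat_lit 0) (.cons (.rf (nat_lit 279) (nat_lit 493858305440582043680)) (.cons (.rf (nat_lit 281) (nat_lit 493858305440582043680)) (.cons (.rf (nat_lit 260) (nat_lit 14242959524133701664)) .nil)))),
 (.br (nat_lit 4) (nat_lit 0) (.cons (.rf (nat_lit 276) (nat_lit 493858305440515000352)) (.cons (.br (nat_lit 5) (nat_lit 1) (.cons (.br (nat_lit 12) (nat_lit 0) (.cons (.rf (nat_lit 279) (nat_lit 493858305440582043680)) (.cons (.rf (nat_lit 281) (nat_lit 493858305440582043680)) (.cons (.rf (nat_lit 282) (nat_lit 493858305440582043680)) (.cons (.rf (nat_lit 282) (nat_lit 493823402543402879008)) .nil))))) .nil)) .nil))),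
 (.br (nat_lit 13) (nat_lit 1) (.cons (.rf (nat_lit 270) (nat_lit 493858305440582043680)) (.cons (.br (nat_lit 3) (nat_lit 1) (.cons (.rf (nat_lit 276) (nat_lit 493858305440582043680)) (.cons (.rf (nat_lit 283) (nat_lit 493858305440582043680)) (.cons (.rf (nat_lit 283) (nat_lit 493823402543469922336)) .nil)))) .nil))),
 (.br (nat_lit 13) (nat_lit 1) (.cons (.rf (nat_lit 270) (nat_lit 493858305440582043680)) (.cons (.rf (nat_lit 284) (nat_lit 493858305440582043680)) (.cons (.rf (nat_lit 284) (nat_lit 493823402543469922336)) .nil)))),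
 (.br (nat_lit 13) (nat_lit 1) (.cons (.rf (nat_lit 270) (nat_lit 493858305440582043680)) (.cons (.rf (nat_lit 285) (nat_lit 493858305440582043680)) (.cons (.br (nat_lit 13) (nat_lit 1) (.cons (.rf (nat_lit 270) (nat_lit 493858305440582043680)) (.cons (.rf (nat_lit 285) (nat_lit 493858305440582043680)) .nil))) .nil)))),
 (.br (nat_lit 7) (nat_lit 0) (.cons (.rf (nat_lit 256) (nat_lit 407901468851537952)) (.cons (.rf (nat_lit 256) (nat_lit 407901468784494624)) (.cons (.br (nat_lit 13) (nat_lit 1) (.cons (.rf (nat_lit 270) (nat_lit 493858305440582043680)) (.cons (.rf (nat_lit 285) (nat_lit 493858305440582043680)) (.cons (.rf (nat_lit 286) (nat_lit 493858305440582043680)) (.cons (.rf (nat_lit 286) (nat_lit 493823402543469922336)) .nil))))) .nil)))),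
 (.br (nat_lit 9) (nat_lit 1) (.cons (.rf (nat_lit 230) (nat_lit 325702574508064)) (.cons (.rf (nat_lit 248) (nat_lit 325702574508064)) (.cons (.br (nat_lit 9) (nat_lit 1) (.cons (.rf (nat_lit 230) (nat_lit 325702574508064)) (.cons (.rf (nat_lit 248) (nat_lit 325702574508064)) (.cons (.br (nat_lit 10) (nat_lit 1) (.cons (.br (nat_lit 7) (nat_lit 0) (.cons (.rf (nat_lit 256) (nat_lit 407901468851537952)) (.cons (.rf (nat_lit 256) (nat_lit 407901468784494624)) (.cons (.rf (nat_lit 287) (nat_lit 14242959524133701664)) (.cons (.br (nat_lit 7) (nat_lit 0) (.cons (.rf (nat_lit 256) (nat_lit 407901468851537952)) (.cons (.rf (nat_lit 256) (nat_lit 407901468784494624)) (.cons (.rf (nat_lit 287) (nat_lit 15395881028740548640)) .nil)))) .nil))))) .nil)) .nil)))) .nil))))]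

theorem c6 : chkAll C T R L6 (nat_lit 248) = true := by decide +kernel

theorem l6 : (nat_lit 248) + L6.length = (nat_lit 289) := by decide +kernel

/-- part of the certificates -/
def L7 : List Prf := [(.br (nat_lit 3) (nat_lit 0) (.cons (.ev (nat_lit 20282410812577562377645457408256) (nat_lit 1)) (.cons (.ev (nat_lit 20282410812595936782654447288576) (nat_lit 1)) .nil))),
 (.br (nat_lit 5) (nat_lit 0) (.cons (.br (nat_lit 6) (nat_lit 0) (.cons (.br (nat_lit 9) (nat_lit 0) (.cons (.kr (nat_lit 1208925891672223229411328) (nat_lit 4722366765444133552128) (nat_lit 3) (nat_lit 0)) .nil)) .nil)) (.cons (.br (nat_lit 6) (nat_lit 0) (.cons (.br (nat_lit 9) (nat_lit 0) (.cons (.kr (nat_lit 1208925891672223229411328) (nat_lit 4722366765444133552128) (nat_lit 3) (nat_lit 0)) .nil)) (.cons (.br (nat_lit 9) (nat_lit 0) (.cons (.kr (nat_lit 1208925891672223229411328) (nat_lit 4722366765444133552128) (nat_lit 3) (nat_lit 0)) .nil)) .nil))) .nil))),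
 (.br (nat_lit 11) (nat_lit 0) (.cons (.br (nat_lit 4) (nat_lit 0) (.cons (.br (nat_lit 6) (nat_lit 0) (.cons (.br (nat_lit 7) (nat_lit 0) (.cons (.br (nat_lit 10) (nat_lit 0) (.cons (.br (nat_lit 2) (nat_lit 0) (.cons (.rf (nat_lit 289) (nat_lit 493858305440582043680)) (.cons (.ev (nat_lit 20282720302309749924113128947713) (nat_lit 1)) (.cons (.br (nat_lit 1) (nat_lit 0) (.cons (.rf (nat_lit 73) (nat_lit 407996448)) (.cons (.br (nat_lit 3) (nat_lit 0) (.cons (.ev (nat_lit 20520094091249876292800144933379) (nat_lit 2)) .nil)) .nil))) (.cons (.br (nat_lit 1) (nat_lit 0) (.cons (.br (nat_lit 5) (nat_lit 0) (.cons (.ev (nat_lit 79228167236703160631732207616) (nat_lit 1)) .nil)) (.cons (.br (nat_lit 3) (nat_lit 0) (.cons (.ev (nat_lit 20520096518527874082788828315649) (nat_lit 2)) .nil)) (.cons (.br (nat_lit 3) (nat_lit 0) (.cons (.ev (nat_lit 20520094091213126356882258330115) (nat_lit 2)) .nil)) .nil)))) .nil))))) .nil)) .nil)) .nil)) (.cons (.rf (nat_lit 290) (nat_lit 15433072045018188865))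 .nil))) .nil)),
 (.br (nat_lit 11) (nat_lit 0) (.cons (.rf (nat_lit 291) (nat_lit 14242959524133701664)) (.cons (.br (nat_lit 11) (nat_lit 0) (.cons (.rf (nat_lit 291) (nat_lit 15395881028740548640)) .nil)) .nil))),
 (.br (nat_lit 10) (nat_lit 0) (.cons (.rf (nat_lit 292) (nat_lit 407901468851537952)) (.cons (.br (nat_lit 11) (nat_lit 0) (.cons (.rf (nat_lit 292) (nat_lit 372998571739416608)) (.cons (.br (nat_lit 11) (nat_lit 0) (.cons (.rf (nat_lit 292) (nat_lit 372998571739416608)) (.cons (.kr (nat_lit 1208925819614629174706176) (nat_lit 309485009821345068724781056) (nat_lit 10) (nat_lit 0)) .nil))) (.cons (.br (nat_lit 11) (nat_lit 0) (.cons (.rf (nat_lit 292) (nat_lit 372998571739416608)) (.cons (.kr (nat_lit 1208925819614629174706176) (nat_lit 309485009821345068724781056) (nat_lit 10) (nat_lit 0)) .nil))) .nil)))) .nil))),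
 (.br (nat_lit 10) (nat_lit 0) (.cons (.rf (nat_lit 292) (nat_lit 407901468851537952)) (.cons (.rf (nat_lit 293) (nat_lit 14242959524133701664)) (.cons (.br (nat_lit 10) (nat_lit 0) (.cons (.rf (nat_lit 292) (nat_lit 407901468851537952)) (.cons (.rf (nat_lit 293) (nat_lit 15395881028740548640)) .nil))) .nil)))),
 (.br (nat_lit 11) (nat_lit 1) (.cons (.br (nat_lit 10) (nat_lit 0) (.cons (.kr (nat_lit 1208925891672223229411328) (nat_lit 4722366765444133552128) (nat_lit 3) (nat_lit 0)) .nil)) .nil)),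
 (.br (nat_lit 11) (nat_lit 0) (.cons (.br (nat_lit 5) (nat_lit 0) (.cons (.br (nat_lit 2) (nat_lit 0) (.cons (.rf (nat_lit 73) (nat_lit 405964832)) (.cons (.br (nat_lit 3) (nat_lit 0) (.cons (.ev (nat_lit 158767019056477389799611826180) (nat_lit 3)) .nil)) .nil))) (.cons (.ev (nat_lit 20282719093402377054657175355393) (nat_lit 1)) (.cons (.br (nat_lit 1) (nat_lit 0) (.cons (.rf (nat_lit 73) (nat_lit 407964704)) (.cons (.br (nat_lit 2) (nat_lit 0) (.cons (.ev (nat_lit 20520094100694753371528521515009) (nat_lit 2)) .nil)) .nil))) (.cons (.ev (nat_lit 20282719093402377336127857098753) (nat_lit 1)) .nil))))) .nil)),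
 (.br (nat_lit 5) (nat_lit 1) (.cons (.rf (nat_lit 295) (nat_lit 15433072045018188865)) (.cons (.br (nat_lit 10) (nat_lit 0) (.cons (.rf (nat_lit 296) (nat_lit 493858305440582043680)) (.cons (.br (nat_lit 11) (nat_lit 0) (.cons (.rf (nat_lit 296) (nat_lit 493823402543402879008)) .nil)) .nil))) .nil))),
 (.br (nat_lit 3) (nat_lit 1) (.cons (.rf (nat_lit 297) (nat_lit 493858305440582043680)) (.cons (.rf (nat_lit 297) (nat_lit 493823402543469922336)) .nil))),
 (.br (nat_lit 10) (nat_lit 0) (.cons (.kr (nat_lit 1208925891672223229411328) (nat_lit 4722366765444133552128) (nat_lit 3) (nat_lit 0)) .nil)),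
 (.br (nat_lit 4) (nat_lit 1) (.cons (.rf (nat_lit 299) (nat_lit 14242959524133701664)) (.cons (.rf (nat_lit 299) (nat_lit 14241868808598947872)) .nil))),
 (.br (nat_lit 5) (nat_lit 0) (.cons (.ev (nat_lit 20282720297587311384748974145536) (nat_lit 1)) (.cons (.ev (nat_lit 4740813228042883170304) (nat_lit 1)) (.cons (.ev (nat_lit 310698658079501261111033856) (nat_lit 1)) .nil)))),
 (.br (nat_lit 5) (nat_lit 1) (.cons (.rf (nat_lit 300) (nat_lit 15433072045016093761)) (.cons (.br (nat_lit 7) (nat_lit 0) (.cons (.br (nat_lit 3) (nat_lit 0) (.cons (.br (nat_lit 5) (nat_lit 0) (.cons (.ev (nat_lit 4740813228042883170304) (nat_lit 1)) (.cons (.ev (nat_lit 20282720297587311384748974145536) (nat_lit 1)) (.cons (.ev (nat_lit 20282720297587311666219655888896) (nat_lit 1)) .nil)))) (.cons (.rf (nat_lit 301) (nat_lit 493858305440582043680)) (.cons (.ev (nat_lit 4722438823042483224576) (nat_lit 1)) (.cons (.rf (nat_lit 301) (nat_lit 482329090392368197664)) .nil))))) .nil)) .nil))),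
 (.br (nat_lit 13) (nat_lit 1) (.cons (.rf (nat_lit 298) (nat_lit 493858305440582043680)) (.cons (.br (nat_lit 3) (nat_lit 1) (.cons (.rf (nat_lit 300) (nat_lit 15433072045018188865)) (.cons (.rf (nat_lit 302) (nat_lit 493858305440582043680)) (.cons (.rf (nat_lit 302) (nat_lit 493823402543469922336)) .nil)))) .nil))),
 (.br (nat_lit 13) (nat_lit 1) (.cons (.rf (nat_lit 298) (nat_lit 493858305440582043680)) (.cons (.rf (nat_lit 303) (nat_lit 493858305440582043680)) (.cons (.rf (nat_lit 303) (nat_lit 493823402543469922336)) .nil)))),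
 (.br (nat_lit 11) (nat_lit 0) (.cons (.ev (nat_lit 20282409603670189226718822203648) (nat_lit 1)) (.cons (.ev (nat_lit 20362259163537506052787279167489) (nat_lit 2)) .nil))),
 (.br (nat_lit 5) (nat_lit 1) (.cons (.zr (nat_lit 20523188941384910608883207176193) (nat_lit 9690296239021294092289024) (nat_lit 20) (nat_lit 5)) .nil)),
 (.br (nat_lit 5) (nat_lit 0) (.cons (.br (nat_lit 4) (nat_lit 0) (.cons (.br (nat_lit 5) (nat_lit 1) (.cons (.rf (nat_lit 305) (nat_lit 493858305440582043680)) (.cons (.rf (nat_lit 305) (nat_lit 493823402543469922336)) .nil))) (.cons (.ev (nat_lit 20282409608374108964415229460481) (nat_lit 1)) (.cons (.br (nat_lit 3) (nat_lit 1) (.cons (.rf (nat_lit 306) (nat_lit 493858305440582043680)) (.cons (.rf (nat_lit 306) (nat_lit 493823402543469922336)) .nil))) .nil)))) .nil)),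
 (.br (nat_lit 2) (nat_lit 0) (.cons (.rf (nat_lit 307) (nat_lit 493858305440582043680)) (.cons (.rf (nat_lit 307) (nat_lit 493858305440515000352)) (.cons (.ev (nat_lit 20282409608392483932365582827521) (nat_lit 1)) .nil)))),
 (.br (nat_lit 11) (nat_lit 0) (.cons (.ev (nat_lit 81605322919460531371897832734720) (nat_lit 3)) .nil)),
 (.br (nat_lit 5) (nat_lit 1) (.cons (.rf (nat_lit 309) (nat_lit 493858305440582043680)) (.cons (.rf (nat_lit 309) (nat_lit 493823402543469922336)) .nil))),
 (.br (nat_lit 5) (nat_lit 1) (.cons (.rf (nat_lit 310) (nat_lit 493858305440515000352)) (.cons (.ev (nat_lit 4740813228042883170304) (nat_lit 1)) .nil))),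
 (.br (nat_lit 12) (nat_lit 0) (.cons (.rf (nat_lit 308) (nat_lit 493858305440582043680)) (.cons (.ev (nat_lit 20282409608392483932365582827521) (nat_lit 1)) (.cons (.br (nat_lit 1) (nat_lit 0) (.cons (.br (nat_lit 3) (nat_lit 1) (.cons (.rf (nat_lit 310) (nat_lit 493858305440582043680)) (.cons (.rf (nat_lit 311) (nat_lit 493858305440582043680)) (.cons (.rf (nat_lit 311) (nat_lit 493823402543469922336)) .nil)))) .nil)) .nil)))),
 (.br (nat_lit 13) (nat_lit 1) (.cons (.rf (nat_lit 304) (nat_lit 493858305440582043680)) (.cons (.br (nat_lit 12) (nat_lit 0) (.cons (.rf (nat_lit 308) (nat_lit 493858305440582043680)) (.cons (.ev (nat_lit 20282409608392483932365582827521) (nat_lit 1)) (.cons (.rf (nat_lit 312) (nat_lit 493858305440582043680)) (.cons (.rf (nat_lit 312) (nat_lit 493858305440515000352)) .nil))))) .nil))),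
 (.br (nat_lit 13) (nat_lit 1) (.cons (.rf (nat_lit 304) (nat_lit 493858305440582043680)) (.cons (.rf (nat_lit 313) (nat_lit 493858305440582043680)) (.cons (.rf (nat_lit 313) (nat_lit 493823402543469922336)) .nil)))),
 (.br (nat_lit 13) (nat_lit 1) (.cons (.rf (nat_lit 304) (nat_lit 493858305440582043680)) (.cons (.rf (nat_lit 314) (nat_lit 493858305440582043680)) (.cons (.br (nat_lit 13) (nat_lit 1) (.cons (.rf (nat_lit 304) (nat_lit 493858305440582043680)) (.cons (.rf (nat_lit 314) (nat_lit 493858305440582043680)) .nil))) .nil)))),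
 (.br (nat_lit 6) (nat_lit 0) (.cons (.rf (nat_lit 294) (nat_lit 407901468851537952)) (.cons (.rf (nat_lit 294) (nat_lit 407901468784494624)) (.cons (.br (nat_lit 13) (nat_lit 1) (.cons (.rf (nat_lit 304) (nat_lit 493858305440582043680)) (.cons (.rf (nat_lit 314) (nat_lit 493858305440582043680)) (.cons (.rf (nat_lit 315) (nat_lit 493858305440582043680)) (.cons (.rf (nat_lit 315) (nat_lit 493823402543469922336)) .nil))))) .nil)))),
 (.br (nat_lit 9) (nat_lit 1) (.cons (.rf (nat_lit 230) (nat_lit 325702574508064)) (.cons (.rf (nat_lit 288) (nat_lit 325702574508064)) (.cons (.br (nat_lit 9) (nat_lit 1) (.cons (.rf (nat_lit 230) (nat_lit 325702574508064)) (.cons (.rf (nat_lit 288) (nat_lit 325702574508064)) (.cons (.br (nat_lit 10) (nat_lit 1) (.cons (.br (nat_lit 6) (nat_lit 0) (.cons (.rf (nat_lit 294) (nat_lit 407901468851537952)) (.cons (.rf (nat_lit 294) (nat_lit 407901468784494624)) (.cons (.rf (nat_lit 316) (nat_lit 14242959524133701664)) (.cons (.br (nat_lit 6) (nat_lit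 0) (.cons (.rf (nat_lit 294) (nat_lit 407901468851537952)) (.cons (.rf (nat_lit 294) (nat_lit 407901468784494624)) (.cons (.rf (nat_lit 316) (nat_lit 15395881028740548640)) .nil)))) .nil))))) .nil)) .nil)))) .nil)))),
 (.br (nat_lit 8) (nat_lit 0) (.cons (.rf (nat_lit 154) (nat_lit 325702574508064)) (.cons (.br (nat_lit 9) (nat_lit 1) (.cons (.rf (nat_lit 230) (nat_lit 325702574508064)) (.cons (.rf (nat_lit 288) (nat_lit 325702574508064)) (.cons (.rf (nat_lit 317) (nat_lit 325702574508064)) (.cons (.br (nat_lit 9) (nat_lit 1) (.cons (.rf (nat_lit 230) (nat_lit 325702574508064)) (.cons (.rf (nat_lit 288) (nat_lit 325702574508064)) (.cons (.rf (nat_lit 317) (nat_lit 325702574508064)) (.cons (.br (nat_lit 9) (nat_lit 1) (.cons (.rf (nat_lit 230) (nat_lit 325702574508064)) (.cons (.rf (nat_lit 288) (nat_lit 325702574508064)) (.cons (.rf (nat_lit 317) (nat_lit 325702574508064)) .nil)))) .nil))))) .nil))))) .nil))),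
 (.br (nat_lit 10) (nat_lit 1) (.cons (.br (nat_lit 10) (nat_lit 1) (.cons (.br (nat_lit 10) (nat_lit 1) .nil) .nil)) .nil)),
 (.br (nat_lit 6) (nat_lit 0) (.cons (.rf (nat_lit 117) (nat_lit 4573301508136)) (.cons (.br (nat_lit 6) (nat_lit 0) (.cons (.rf (nat_lit 117) (nat_lit 4573301508136)) (.cons (.rf (nat_lit 319) (nat_lit 12710601549776928)) .nil))) (.cons (.rf (nat_lit 319) (nat_lit 12710601549776928)) .nil)))),
 (.br (nat_lit 5) (nat_lit 0) (.cons (.ev (nat_lit 1099511693569) (nat_lit 1)) .nil)),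
 (.br (nat_lit 3) (nat_lit 0) (.cons (.rf (nat_lit 321) (nat_lit 10142737336352)) (.cons (.rf (nat_lit 321) (nat_lit 10140491289632)) (.cons (.ev (nat_lit 79228167255149622130953420801) (nat_lit 1)) .nil)))),
 (.br (nat_lit 1) (nat_lit 0) (.cons (.rf (nat_lit 321) (nat_lit 10109451338816)) (.cons (.ev (nat_lit 20361948460101647779936539312385) (nat_lit 1)) (.cons (.rf (nat_lit 322) (nat_lit 493858305440582043680)) .nil)))),
 (.br (nat_lit 6) (nat_lit 0) (.cons (.br (nat_lit 7) (nat_lit 0) (.cons (.br (nat_lit 12) (nat_lit 0) (.cons (.br (nat_lit 9) (nat_lit 0) (.cons (.rf (nat_lit 322) (nat_lit 493858305440582043680)) (.cons (.rf (nat_lit 323) (nat_lit 493858305440582043680)) (.cons (.br (nat_lit 9) (nat_lit 0) (.cons (.ev (nat_lit 309489732188109417658449921) (nat_lit 1)) (.cons (.rf (nat_lit 323) (nat_lit 493858305440582043680)) (.cons (.ev (nat_lit 20282720302309750205583827402753) (nat_lit 1)) .nil)))) (.cons (.br (nat_lit 3) (nat_lit 0) (.cons (.rf (nat_lit 321) (nat_lit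 10040633296032)) (.cons (.rf (nat_lit 321) (nat_lit 10039527049376)) (.cons (.ev (nat_lit 20282720302309750205583827402753) (nat_lit 1)) .nil)))) .nil))))) .nil)) .nil)) .nil)),
 (.br (nat_lit 11) (nat_lit 0) (.cons (.br (nat_lit 12) (nat_lit 0) (.cons (.rf (nat_lit 324) (nat_lit 493858305440582043680)) (.cons (.br (nat_lit 12) (nat_lit 0) (.cons (.rf (nat_lit 324) (nat_lit 493858305440582043680)) .nil)) .nil))) .nil)),
 (.br (nat_lit 11) (nat_lit 0) (.cons (.rf (nat_lit 325) (nat_lit 14242959524133701664)) (.cons (.br (nat_lit 11) (nat_lit 0) (.cons (.rf (nat_lit 325) (nat_lit 14242959524133701664)) .nil)) .nil))),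
 (.br (nat_lit 12) (nat_lit 0) (.cons (.rf (nat_lit 326) (nat_lit 14242959524133701664)) (.cons (.br (nat_lit 12) (nat_lit 0) (.cons (.rf (nat_lit 326) (nat_lit 14242959524133701664)) .nil)) .nil))),
 (.br (nat_lit 11) (nat_lit 0) (.cons (.br (nat_lit 11) (nat_lit 0) .nil) .nil)),
 (.br (nat_lit 10) (nat_lit 1) (.cons (.br (nat_lit 10) (nat_lit 1) (.cons (.br (nat_lit 10) (nat_lit 1) .nil) .nil)) .nil)),
 (.br (nat_lit 10) (nat_lit 0) (.cons (.rf (nat_lit 2) (nat_lit 228875548632617218)) (.cons (.rf (nat_lit 329) (nat_lit 13872820773816352)) .nil))),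
 (.br (nat_lit 9) (nat_lit 1) (.cons (.br (nat_lit 6) (nat_lit 0) (.cons (.rf (nat_lit 157) (nat_lit 12746885431402528)) (.cons (.rf (nat_lit 329) (nat_lit 13732083285461024)) .nil))) (.cons (.rf (nat_lit 157) (nat_lit 12606009496633474)) (.cons (.rf (nat_lit 330) (nat_lit 407901468851537952)) .nil)))),
 (.br (nat_lit 2) (nat_lit 0) (.cons (.br (nat_lit 5) (nat_lit 0) (.cons (.ev (nat_lit 18446745177532989441) (nat_lit 1)) .nil)) (.cons (.br (nat_lit 3) (nat_lit 0) (.cons (.ev (nat_lit 1213648258437667362963456) (nat_lit 1)) .nil)) (.cons (.br (nat_lit 3) (nat_lit 0) (.cons (.ev (nat_lit 80782860137100040440916214786) (nat_lit 3)) .nil)) .nil))))]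

theorem c7 : chkAll C T R L7 (nat_lit 289) = true := by decide +kernel

theorem l7 : (nat_lit 289) + L7.length = (nat_lit 333) := by decide +kernel

/-- part of the certificates -/
def L8 : List Prf := [(.br (nat_lit 5) (nat_lit 0) (.cons (.ev (nat_lit 20361638979814120859039615156481) (nat_lit 1)) .nil)),
 (.br (nat_lit 7) (nat_lit 0) (.cons (.br (nat_lit 12) (nat_lit 0) (.cons (.br (nat_lit 9) (nat_lit 0) (.cons (.rf (nat_lit 332) (nat_lit 493858305440582043680)) (.cons (.br (nat_lit 1) (nat_lit 0) (.cons (.rf (nat_lit 333) (nat_lit 493858305440582043680)) (.cons (.ev (nat_lit 20361948460101647779936539312385) (nat_lit 1)) (.cons (.rf (nat_lit 332) (nat_lit 493858305440582043680)) .nil)))) (.cons (.br (nat_lit 1) (nat_lit 0) (.cons (.rf (nat_lit 333) (nat_lit 493858305440582011936)) (.cons (.rf (nat_lit 333) (nat_lit 493858305440481446944)) (.cons (.rf (nat_lit 332) (nat_lit 493858305440582043680)) .nil)))) (.cons (.br (nat_lit 1) (nat_lit 0) (.cons (.rf (nat_lit 333)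 (nat_lit 493858305440514905120)) (.cons (.rf (nat_lit 333) (nat_lit 493858305440481383456)) (.cons (.rf (nat_lit 332) (nat_lit 493858305440582043680)) .nil)))) .nil))))) .nil)) .nil)),
 (.br (nat_lit 10) (nat_lit 1) (.cons (.br (nat_lit 12) (nat_lit 0) (.cons (.rf (nat_lit 334) (nat_lit 493858305440582043680)) (.cons (.br (nat_lit 12) (nat_lit 0) (.cons (.rf (nat_lit 334) (nat_lit 493858305440582043680)) .nil)) .nil))) .nil)),
 (.br (nat_lit 6) (nat_lit 0) (.cons (.rf (nat_lit 328) (nat_lit 367362480433963136)) (.cons (.rf (nat_lit 329) (nat_lit 13732083285461024)) .nil))),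
 (.br (nat_lit 11) (nat_lit 0) (.cons (.rf (nat_lit 331) (nat_lit 372991974669656096)) (.cons (.rf (nat_lit 336) (nat_lit 407901468851537952)) (.cons (.rf (nat_lit 329) (nat_lit 13908005145905184)) .nil)))),
 (.br (nat_lit 2) (nat_lit 0) (.cons (.br (nat_lit 5) (nat_lit 0) (.cons (.ev (nat_lit 20361947251175828165303086350336) (nat_lit 1)) .nil)) (.cons (.br (nat_lit 3) (nat_lit 0) (.cons (.ev (nat_lit 20361947251175828165303086350336) (nat_lit 1)) .nil)) (.cons (.ev (nat_lit 20361637770888373583483750121728) (nat_lit 1)) .nil)))),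
 (.br (nat_lit 1) (nat_lit 0) (.cons (.br (nat_lit 5) (nat_lit 0) (.cons (.ev (nat_lit 310698658007724042521477376) (nat_lit 1)) .nil)) (.cons (.br (nat_lit 3) (nat_lit 0) (.cons (.ev (nat_lit 310698658007724042521477376) (nat_lit 1)) .nil)) (.cons (.ev (nat_lit 20361637770888373583483750121728) (nat_lit 1)) .nil)))),
 (.br (nat_lit 2) (nat_lit 0) (.cons (.br (nat_lit 5) (nat_lit 0) (.cons (.ev (nat_lit 20282719093383930590958930952448) (nat_lit 1)) .nil)) (.cons (.ev (nat_lit 20361947251175828165303086350336) (nat_lit 1)) (.cons (.rf (nat_lit 339) (nat_lit 493858305440582043680)) .nil)))),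
 (.br (nat_lit 4) (nat_lit 0) (.cons (.ev (nat_lit 79538856449905578770731892736) (nat_lit 1)) .nil)),
 (.br (nat_lit 3) (nat_lit 0) (.cons (.br (nat_lit 5) (nat_lit 0) (.cons (.ev (nat_lit 20361947251175828165303086350336) (nat_lit 1)) .nil)) (.cons (.br (nat_lit 2) (nat_lit 0) (.cons (.ev (nat_lit 20283338072866680652935582581251) (nat_lit 2)) .nil)) (.cons (.ev (nat_lit 309489732188109417658449921) (nat_lit 1)) .nil)))),
 (.br (nat_lit 5) (nat_lit 0) (.cons (.ev (nat_lit 310698658007724042521477376) (nat_lit 1)) .nil)),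
 (.br (nat_lit 1) (nat_lit 0) (.cons (.rf (nat_lit 343) (nat_lit 493858305440582043680)) (.cons (.ev (nat_lit 20361948460101647779936539312385) (nat_lit 1)) (.cons (.rf (nat_lit 342) (nat_lit 493858305440582043680)) .nil)))),
 (.br (nat_lit 13) (nat_lit 1) (.cons (.br (nat_lit 7) (nat_lit 0) (.cons (.br (nat_lit 11) (nat_lit 0) (.cons (.br (nat_lit 10) (nat_lit 1) (.cons (.br (nat_lit 9) (nat_lit 0) (.cons (.rf (nat_lit 338) (nat_lit 493858305440582043680)) (.cons (.rf (nat_lit 339) (nat_lit 493858305440582043680)) (.cons (.rf (nat_lit 340) (nat_lit 493858305440582043680)) (.cons (.br (nat_lit 9) (nat_lit 0) (.cons (.rf (nat_lit 338) (nat_lit 493858305440582043680)) (.cons (.rf (nat_lit 339) (nat_lit 493858305440582043680)) (.cons (.rf (nat_lit 340) (nat_lit 493858305440582043680)) .nil)))) .nil))))) .nil)) .nil)) (.cons (.br (nat_lit 9) (nat_lit 1) (.cons (.br (nat_lit 10) (nat_lit 1) (.cons (.br (nat_lit 1) (nat_lit 0) (.cons (.rf (nat_lit 131) (nat_lit 455883953382594021408))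 (.cons (.br (nat_lit 9) (nat_lit 0) (.cons (.ev (nat_lit 121775854597437414493972546717188) (nat_lit 3)) (.cons (.ev (nat_lit 121774616657324343267718009455108) (nat_lit 3)) .nil))) (.cons (.rf (nat_lit 131) (nat_lit 267853042908429128736)) (.cons (.br (nat_lit 2) (nat_lit 0) (.cons (.rf (nat_lit 341) (nat_lit 15433072045018155040)) (.cons (.rf (nat_lit 132) (nat_lit 455883953382594021408)) (.cons (.br (nat_lit 3) (nat_lit 0) (.cons (.ev (nat_lit 310693935641241177188007936) (nat_lit 1)) .nil)) .nil)))) .nil))))) .nil)) (.cons (.br (nat_lit 10) (nat_lit 1) (.cons (.br (nat_lit 9) (nat_lit 0) (.cons (.rf (nat_lit 342) (nat_lit 493858305440582043680)) (.cons (.rf (nat_lit 344) (nat_lit 493858305440582043680)) (.cons (.ev (nat_lit 20361638975091754376174281687041) (nat_lit 1)) (.cons (.br (nat_lit 9) (nat_lit 0) (.cons (.rf (nat_lit 342) (nat_lit 493858305440582043680)) (.cons (.rf (nat_lit 344) (nat_lit 493858305440582043680)) (.cons (.ev (nat_lit 20361638975091754376174281687041)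 (nat_lit 1)) .nil)))) .nil))))) .nil)) .nil))) .nil))) .nil)),
 (.br (nat_lit 13) (nat_lit 1) (.cons (.rf (nat_lit 345) (nat_lit 493858305440582043680)) (.cons (.br (nat_lit 13) (nat_lit 1) (.cons (.rf (nat_lit 345) (nat_lit 493858305440582043680)) .nil)) .nil))),
 (.br (nat_lit 13) (nat_lit 1) (.cons (.rf (nat_lit 346) (nat_lit 493858305440582043680)) (.cons (.br (nat_lit 13) (nat_lit 1) (.cons (.rf (nat_lit 346) (nat_lit 493858305440582043680)) .nil)) .nil))),
 (.br (nat_lit 3) (nat_lit 1) (.cons (.br (nat_lit 5) (nat_lit 1) (.cons (.rf (nat_lit 318) (nat_lit 7975928400928)) (.cons (.rf (nat_lit 320) (nat_lit 12746920901610561)) .nil))) (.cons (.rf (nat_lit 318) (nat_lit 6743273801824)) (.cons (.br (nat_lit 11) (nat_lit 1) (.cons (.br (nat_lit 5) (nat_lit 1) (.cons (.br (nat_lit 12) (nat_lit 0) (.cons (.rf (nat_lit 326) (nat_lit 14242959524133701664)) (.cons (.rf (nat_lit 327) (nat_lit 14242959524133701664)) (.cons (.br (nat_lit 12) (nat_lit 0) (.cons (.rf (nat_lit 326)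 (nat_lit 14242959524133701664)) (.cons (.rf (nat_lit 327) (nat_lit 14242959524133701664)) .nil))) .nil)))) (.cons (.br (nat_lit 6) (nat_lit 0) (.cons (.rf (nat_lit 320) (nat_lit 12740323831850049)) (.cons (.rf (nat_lit 331) (nat_lit 445092485129178177)) (.cons (.br (nat_lit 11) (nat_lit 0) (.cons (.rf (nat_lit 4) (nat_lit 14990885684352291)) (.cons (.rf (nat_lit 329) (nat_lit 14858873526813987)) (.cons (.br (nat_lit 10) (nat_lit 1) (.cons (.rf (nat_lit 335) (nat_lit 493858305440582043680)) (.cons (.br (nat_lit 10) (nat_lit 1) (.cons (.rf (nat_lit 335) (nat_lit 493858305440582043680)) .nil)) .nil))) .nil)))) .nil)))) (.cons (.br (nat_lit 6) (nat_lit 0) (.cons (.rf (nat_lit 320) (nat_lit 13866223738692673)) (.cons (.rf (nat_lit 337) (nat_lit 445092485129178177)) (.cons (.br (nat_lit 13) (nat_lit 1) (.cons (.rf (nat_lit 346) (nat_lit 493858305440582043680)) (.cons (.rf (nat_lit 347) (nat_lit 493858305440582043680)) (.cons (.br (nat_lit 13) (nat_lit 1) (.cons (.rf (nat_lit 346)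 (nat_lit 493858305440582043680)) (.cons (.rf (nat_lit 347) (nat_lit 493858305440582043680)) .nil))) .nil)))) .nil)))) .nil)))) .nil)) .nil)))),
 (.br (nat_lit 10) (nat_lit 0) (.cons (.rf (nat_lit 329) (nat_lit 12605938733383938)) (.cons (.br (nat_lit 11) (nat_lit 1) (.cons (.rf (nat_lit 329) (nat_lit 10251027490209828)) (.cons (.br (nat_lit 11) (nat_lit 1) (.cons (.rf (nat_lit 329) (nat_lit 10251027490209828)) .nil)) .nil))) .nil))),
 (.br (nat_lit 6) (nat_lit 0) (.cons (.rf (nat_lit 331) (nat_lit 407901467811350529)) (.cons (.rf (nat_lit 349) (nat_lit 443930265870501920)) .nil))),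
 (.br (nat_lit 3) (nat_lit 0) (.cons (.ev (nat_lit 1208925819615732998144256) (nat_lit 1)) .nil)),
 (.br (nat_lit 5) (nat_lit 0) (.cons (.ev (nat_lit 79228162514336396287110349056) (nat_lit 1)) .nil)),
 (.br (nat_lit 3) (nat_lit 0) (.cons (.ev (nat_lit 20361947251175828165303086416128) (nat_lit 1)) .nil)),
 (.br (nat_lit 1) (nat_lit 0) (.cons (.rf (nat_lit 352) (nat_lit 15433035725666355232)) (.cons (.rf (nat_lit 353) (nat_lit 493858305440582043680)) (.cons (.rf (nat_lit 351) (nat_lit 14242959524133701664)) .nil)))),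
 (.br (nat_lit 6) (nat_lit 0) (.cons (.rf (nat_lit 328) (nat_lit 440582392514811169)) (.cons (.br (nat_lit 10) (nat_lit 1) (.cons (.br (nat_lit 11) (nat_lit 0) (.cons (.br (nat_lit 12) (nat_lit 0) (.cons (.br (nat_lit 9) (nat_lit 0) (.cons (.br (nat_lit 9) (nat_lit 0) (.cons (.rf (nat_lit 351) (nat_lit 14242959524133701664)) (.cons (.ev (nat_lit 310698676526244239587147776) (nat_lit 1)) (.cons (.ev (nat_lit 310698658007724042521411584) (nat_lit 1)) .nil)))) (.cons (.rf (nat_lit 354) (nat_lit 493858305440582043680)) (.cons (.br (nat_lit 9) (nat_lit 0) (.cons (.ev (nat_lit 310698676526244239587147776) (nat_lit 1)) (.cons (.rf (nat_lit 354) (nat_lit 493858305440582043680)) (.cons (.ev (nat_lit 20282719093402304995959330832384) (nat_lit 1)) .nil)))) (.cons (.br (nat_lit 9) (nat_lit 0) (.cons (.ev (nat_lit 310698658007724042521411584) (nat_lit 1)) (.cons (.rf (nat_lit 354) (nat_lit 493858305440582043680)) (.cons (.ev (nat_lit 20282719093402304995959330832384) (nat_lit 1)) .nil))))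 .nil))))) .nil)) .nil)) .nil)) .nil))),
 (.br (nat_lit 3) (nat_lit 1) (.cons (.rf (nat_lit 318) (nat_lit 7975928400928)) (.cons (.rf (nat_lit 117) (nat_lit 5746803804449)) (.cons (.rf (nat_lit 350) (nat_lit 445092485129178177)) (.cons (.br (nat_lit 7) (nat_lit 0) (.cons (.rf (nat_lit 337) (nat_lit 410189586976869410)) (.cons (.br (nat_lit 11) (nat_lit 0) (.cons (.rf (nat_lit 355) (nat_lit 493858305440582043680)) (.cons (.br (nat_lit 11) (nat_lit 0) (.cons (.rf (nat_lit 355) (nat_lit 493858305440582043680)) .nil)) .nil))) .nil))) .nil))))),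
 (.br (nat_lit 2) (nat_lit 0) (.cons (.rf (nat_lit 333) (nat_lit 493858305407296046144)) (.cons (.rf (nat_lit 333) (nat_lit 493858305407229002816)) (.cons (.br (nat_lit 3) (nat_lit 0) (.cons (.ev (nat_lit 20441486117125950774652136652800) (nat_lit 2)) .nil)) .nil)))),
 (.br (nat_lit 1) (nat_lit 0) (.cons (.rf (nat_lit 235) (nat_lit 370710625480968224)) (.cons (.br (nat_lit 3) (nat_lit 0) (.cons (.ev (nat_lit 1213648258437667362963456) (nat_lit 1)) .nil)) (.cons (.rf (nat_lit 357) (nat_lit 493858305440582043680)) .nil)))),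
 (.br (nat_lit 2) (nat_lit 0) (.cons (.rf (nat_lit 73) (nat_lit 307333152)) (.cons (.rf (nat_lit 352) (nat_lit 14242959524133701664)) .nil))),
 (.br (nat_lit 13) (nat_lit 1) (.cons (.br (nat_lit 3) (nat_lit 1) (.cons (.br (nat_lit 9) (nat_lit 1) (.cons (.br (nat_lit 10) (nat_lit 1) (.cons (.br (nat_lit 9) (nat_lit 0) (.cons (.rf (nat_lit 357) (nat_lit 493858305440582043680)) (.cons (.rf (nat_lit 358) (nat_lit 493858305440582043680)) (.cons (.br (nat_lit 2) (nat_lit 0) (.cons (.rf (nat_lit 333) (nat_lit 493858305407295982656)) (.cons (.rf (nat_lit 333) (nat_lit 493858305407161896000)) (.cons (.rf (nat_lit 358) (nat_lit 493858305440582043680)) .nil)))) (.cons (.br (nat_lit 1) (nat_lit 0) (.cons (.rf (nat_lit 333) (nat_lit 493858305407228875840)) (.cons (.ev (nat_lit 18446745177532924161) (nat_lit 1)) (.cons (.rf (nat_lit 357) (nat_lit 493858305440582043680)) .nil)))) .nil))))) .nil)) .nil)) (.cons (.br (nat_lit 9) (nat_lit 1) (.cons (.br (nat_lit 10) (nat_lit 1) (.cons (.br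 (nat_lit 3) (nat_lit 0) (.cons (.rf (nat_lit 359) (nat_lit 15433035725666355232)) (.cons (.br (nat_lit 1) (nat_lit 0) (.cons (.ev (nat_lit 20361948460120022747886892679425) (nat_lit 1)) (.cons (.br (nat_lit 5) (nat_lit 0) (.cons (.ev (nat_lit 310698658007724042521411584) (nat_lit 1)) .nil)) .nil))) (.cons (.kr (nat_lit 1208925819614629174706177) (nat_lit 4311744512) (nat_lit 0) (nat_lit 1)) (.cons (.br (nat_lit 1) (nat_lit 0) (.cons (.ev (nat_lit 20361638975110273459312710975745) (nat_lit 1)) (.cons (.br (nat_lit 2) (nat_lit 0) (.cons (.ev (nat_lit 1213648258437667362963456) (nat_lit 1)) .nil)) (.cons (.br (nat_lit 2) (nat_lit 0) (.cons (.ev (nat_lit 1213648258437667362963456) (nat_lit 1)) .nil)) .nil)))) .nil))))) .nil)) (.cons (.br (nat_lit 10) (nat_lit 1) (.cons (.br (nat_lit 1) (nat_lit 0) (.cons (.rf (nat_lit 131) (nat_lit 420143386739781765152)) (.cons (.rf (nat_lit 359) (nat_lit 15433035725666355232)) (.cons (.br (nat_lit 2) (nat_lit 0) (.cons (.ev (nat_lit 121774616657434590823654676104196)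 (nat_lit 3)) (.cons (.br (nat_lit 3) (nat_lit 0) (.cons (.ev (nat_lit 1213648258437667362963456) (nat_lit 1)) .nil)) .nil))) (.cons (.br (nat_lit 2) (nat_lit 0) (.cons (.br (nat_lit 5) (nat_lit 0) (.cons (.ev (nat_lit 40565128701813235673511070138880) (nat_lit 2)) .nil)) (.cons (.rf (nat_lit 132) (nat_lit 420143386739781765152)) (.cons (.br (nat_lit 3) (nat_lit 0) (.cons (.ev (nat_lit 20282413239892381598200373510146) (nat_lit 2)) .nil)) .nil)))) .nil))))) .nil)) .nil))) .nil))) .nil)),
 (.br (nat_lit 6) (nat_lit 0) (.cons (.rf (nat_lit 318) (nat_lit 7975928400928)) (.cons (.rf (nat_lit 356) (nat_lit 14242959524133701664)) (.cons (.br (nat_lit 7) (nat_lit 0) (.cons (.rf (nat_lit 319) (nat_lit 14998719675108386)) (.cons (.rf (nat_lit 319) (nat_lit 14992122605347874)) (.cons (.rf (nat_lit 329) (nat_lit 14859118205602850)) (.cons (.br (nat_lit 13) (nat_lit 1) (.cons (.rf (nat_lit 360) (nat_lit 493858305440582043680)) (.cons (.br (nat_lit 13) (nat_lit 1) (.cons (.rf (nat_lit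 360) (nat_lit 493858305440582043680)) .nil)) .nil))) .nil))))) .nil)))),
 (.br (nat_lit 5) (nat_lit 1) (.cons (.rf (nat_lit 348) (nat_lit 11584701642934304)) (.cons (.br (nat_lit 11) (nat_lit 1) (.cons (.br (nat_lit 6) (nat_lit 0) (.cons (.rf (nat_lit 318) (nat_lit 7975928400928)) (.cons (.rf (nat_lit 356) (nat_lit 14242959524133701664)) (.cons (.rf (nat_lit 361) (nat_lit 14242959524133701664)) (.cons (.br (nat_lit 6) (nat_lit 0) (.cons (.rf (nat_lit 318) (nat_lit 7975928400928)) (.cons (.rf (nat_lit 356) (nat_lit 14242959524133701664)) (.cons (.rf (nat_lit 361) (nat_lit 14242959524133701664)) .nil)))) .nil))))) .nil)) .nil))),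
 (.br (nat_lit 11) (nat_lit 0) (.cons (.rf (nat_lit 205) (nat_lit 12746885437687840)) (.cons (.br (nat_lit 11) (nat_lit 0) (.cons (.rf (nat_lit 205) (nat_lit 12746885437687840)) .nil)) .nil))),
 (.br (nat_lit 10) (nat_lit 0) (.cons (.rf (nat_lit 363) (nat_lit 407901468851537952)) (.cons (.br (nat_lit 10) (nat_lit 0) (.cons (.rf (nat_lit 363) (nat_lit 407901468851537952)) .nil)) .nil))),
 (.br (nat_lit 10) (nat_lit 1) (.cons (.br (nat_lit 1) (nat_lit 0) (.cons (.rf (nat_lit 187) (nat_lit 485790141892452976672)) (.cons (.br (nat_lit 9) (nat_lit 0) (.cons (.kr (nat_lit 309485009893402662762709504) (nat_lit 79228162514264619068537503744) (nat_lit 1) (nat_lit 0)) (.cons (.kr (nat_lit 309485009821345068724781312) (nat_lit 282574488338432) (nat_lit 1) (nat_lit 0)) .nil))) (.cons (.br (nat_lit 2) (nat_lit 0) (.cons (.ev (nat_lit 20282719088679938513093997363456) (nat_lit 1)) (.cons (.rf (nat_lit 343) (nat_lit 492741412732927117344)) .nil))) (.cons (.br (nat_lit 3) (nat_lit 0) (.cons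 (.br (nat_lit 5) (nat_lit 0) (.cons (.ev (nat_lit 1213648258437667362963456) (nat_lit 1)) .nil)) (.cons (.ev (nat_lit 40644047369873162154545082532096) (nat_lit 2)) (.cons (.br (nat_lit 2) (nat_lit 0) (.cons (.ev (nat_lit 121773997696785894688084784841220) (nat_lit 3)) .nil)) .nil)))) .nil))))) .nil))]

theorem c8 : chkAll C T R L8 (nat_lit 333) = true := by decide +kernel

theorem l8 : (nat_lit 333) + L8.length = (nat_lit 366) := by decide +kernel

/-- part of the certificates -/
def L9 : List Prf := [(.br (nat_lit 13) (nat_lit 1) (.cons (.br (nat_lit 9) (nat_lit 1) (.cons (.rf (nat_lit 365) (nat_lit 493858305440582043680)) (.cons (.rf (nat_lit 365) (nat_lit 492741412732994160672)) .nil))) .nil)),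
 (.br (nat_lit 13) (nat_lit 1) (.cons (.rf (nat_lit 366) (nat_lit 493858305440582043680)) (.cons (.rf (nat_lit 366) (nat_lit 492741412732994160672)) .nil))),
 (.br (nat_lit 13) (nat_lit 1) (.cons (.rf (nat_lit 367) (nat_lit 493858305440582043680)) (.cons (.br (nat_lit 13) (nat_lit 1) (.cons (.rf (nat_lit 367) (nat_lit 493858305440582043680)) .nil)) .nil))),
 (.br (nat_lit 7) (nat_lit 0) (.cons (.rf (nat_lit 364) (nat_lit 445092485129178177)) (.cons (.br (nat_lit 13) (nat_lit 1) (.cons (.rf (nat_lit 367) (nat_lit 493858305440582043680)) (.cons (.rf (nat_lit 368) (nat_lit 493858305440582043680)) (.cons (.rf (nat_lit 368) (nat_lit 492741412732994160672)) .nil)))) .nil))),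
 (.br (nat_lit 7) (nat_lit 0) (.cons (.rf (nat_lit 364) (nat_lit 445092485129178177)) (.cons (.rf (nat_lit 369) (nat_lit 14242959524133701664)) (.cons (.br (nat_lit 7) (nat_lit 0) (.cons (.rf (nat_lit 364) (nat_lit 445092485129178177)) (.cons (.rf (nat_lit 369) (nat_lit 14242959524133701664)) .nil))) .nil)))),
 (.br (nat_lit 5) (nat_lit 0) (.cons (.ev (nat_lit 310698658079500161599406336) (nat_lit 1)) .nil)),
 (.br (nat_lit 3) (nat_lit 0) (.cons (.rf (nat_lit 371) (nat_lit 493858305440582043680)) (.cons (.kr (nat_lit 309485009821345068724781312) (nat_lit 282574488338432) (nat_lit 1) (nat_lit 0)) (.cons (.rf (nat_lit 195) (nat_lit 490401827910947276832)) .nil)))),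
 (.br (nat_lit 1) (nat_lit 0) (.cons (.br (nat_lit 5) (nat_lit 0) (.cons (.ev (nat_lit 311912306337937828962369792) (nat_lit 2)) .nil)) (.cons (.br (nat_lit 3) (nat_lit 0) (.cons (.ev (nat_lit 121775235627417772368984073831428) (nat_lit 3)) .nil)) (.cons (.rf (nat_lit 266) (nat_lit 11867278834858559520)) .nil)))),
 (.br (nat_lit 6) (nat_lit 0) (.cons (.rf (nat_lit 157) (nat_lit 13909103649891362)) (.cons (.br (nat_lit 10) (nat_lit 1) (.cons (.rf (nat_lit 329) (nat_lit 14858873526813987)) (.cons (.br (nat_lit 11) (nat_lit 0) (.cons (.br (nat_lit 12) (nat_lit 0) (.cons (.br (nat_lit 9) (nat_lit 0) (.cons (.rf (nat_lit 372) (nat_lit 493858305440582043680)) (.cons (.rf (nat_lit 373) (nat_lit 493858305440582043680)) (.cons (.br (nat_lit 9) (nat_lit 0) (.cons (.rf (nat_lit 195) (nat_lit 490401827910947276832)) (.cons (.rf (nat_lit 373) (nat_lit 493858305440582043680)) (.cons (.ev (nat_lit 20361637770906747988484150001664) (nat_lit 1)) .nil)))) (.cons (.br (nat_lit 9) (nat_lit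 0) (.cons (.rf (nat_lit 372) (nat_lit 493858305440582043680)) (.cons (.rf (nat_lit 373) (nat_lit 493858305440582043680)) (.cons (.ev (nat_lit 20361637770906747988484150001664) (nat_lit 1)) .nil)))) .nil))))) .nil)) .nil)) .nil))) .nil))),
 (.br (nat_lit 7) (nat_lit 0) (.cons (.rf (nat_lit 364) (nat_lit 445085888059417665)) (.cons (.br (nat_lit 3) (nat_lit 1) (.cons (.rf (nat_lit 370) (nat_lit 14242959524133701664)) (.cons (.rf (nat_lit 374) (nat_lit 493858305440582043680)) (.cons (.rf (nat_lit 374) (nat_lit 492741412732994160672)) .nil)))) .nil))),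
 (.br (nat_lit 7) (nat_lit 0) (.cons (.rf (nat_lit 364) (nat_lit 445085888059417665)) (.cons (.rf (nat_lit 375) (nat_lit 14242959524133701664)) (.cons (.br (nat_lit 7) (nat_lit 0) (.cons (.rf (nat_lit 364) (nat_lit 445085888059417665)) (.cons (.rf (nat_lit 375) (nat_lit 14242959524133701664)) .nil))) .nil)))),
 (.br (nat_lit 2) (nat_lit 0) (.cons (.kr (nat_lit 79228162514336395187581878528) (nat_lit 309485009821626543718268928) (nat_lit 1) (nat_lit 0)) (.cons (.kr (nat_lit 237684487542865070378964746752) (nat_lit 309485028268935766387720192) (nat_lit 1) (nat_lit 0)) (.cons (.br (nat_lit 3) (nat_lit 0) (.cons (.ev (nat_lit 310698676454468120542707968) (nat_lit 1)) .nil)) .nil)))),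
 (.br (nat_lit 1) (nat_lit 0) (.cons (.ev (nat_lit 1213648258437667362963456) (nat_lit 1)) .nil)),
 (.br (nat_lit 10) (nat_lit 1) (.cons (.br (nat_lit 9) (nat_lit 0) (.cons (.rf (nat_lit 377) (nat_lit 493858305440582043680)) (.cons (.br (nat_lit 9) (nat_lit 0) (.cons (.rf (nat_lit 377) (nat_lit 493858305440582043680)) (.cons (.rf (nat_lit 351) (nat_lit 14066196436231555168)) (.cons (.rf (nat_lit 378) (nat_lit 493858305440582043680)) .nil)))) (.cons (.br (nat_lit 2) (nat_lit 0) (.cons (.kr (nat_lit 18446744073709551872) (nat_lit 4311744512) (nat_lit 1) (nat_lit 0)) (.cons (.kr (nat_lit 79228162514264337597855694848) (nat_lit 18447026648197890048) (nat_lit 3) (nat_lit 0)) (.cons (.rf (nat_lit 351) (nat_lit 14066196436231555168)) .nil)))) (.cons (.br (nat_lit 2) (nat_lit 0) (.cons (.kr (nat_lit 79537647542532426735978283520) (nat_lit 72341272332861440) (nat_lit 1) (nat_lit 0)) (.cons (.kr (nat_lit 309485009821345068741558272) (nat_lit 72058693549555712) (nat_lit 3) (nat_lit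 0)) (.cons (.rf (nat_lit 378) (nat_lit 493858305440582043680)) .nil)))) .nil))))) .nil)),
 (.br (nat_lit 5) (nat_lit 0) (.cons (.br (nat_lit 3) (nat_lit 0) (.cons (.ev (nat_lit 20282409608392483933465094455296) (nat_lit 1)) .nil)) (.cons (.br (nat_lit 2) (nat_lit 0) (.cons (.ev (nat_lit 1213648258437667362963456) (nat_lit 1)) .nil)) (.cons (.kr (nat_lit 79228162514264337593543950592) (nat_lit 282574488338432) (nat_lit 1) (nat_lit 0)) .nil)))),
 (.br (nat_lit 9) (nat_lit 0) (.cons (.rf (nat_lit 380) (nat_lit 493858305440582043680)) (.cons (.kr (nat_lit 309485028340146740767227904) (nat_lit 79228171958997584807811088384) (nat_lit 4) (nat_lit 0)) (.cons (.rf (nat_lit 380) (nat_lit 376011487032435084448)) .nil)))),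
 (.br (nat_lit 5) (nat_lit 0) (.cons (.ev (nat_lit 310698658079500161599406336) (nat_lit 1)) .nil)),
 (.br (nat_lit 2) (nat_lit 0) (.cons (.ev (nat_lit 310698658079500161599406336) (nat_lit 1)) .nil)),
 (.br (nat_lit 7) (nat_lit 0) (.cons (.br (nat_lit 10) (nat_lit 1) (.cons (.br (nat_lit 9) (nat_lit 0) (.cons (.rf (nat_lit 380) (nat_lit 493858305440582043680)) (.cons (.rf (nat_lit 381) (nat_lit 493858305440582043680)) (.cons (.rf (nat_lit 381) (nat_lit 376011487032435084448)) (.cons (.rf (nat_lit 380) (nat_lit 376011487032435084448)) .nil))))) .nil)) (.cons (.br (nat_lit 9) (nat_lit 1) (.cons (.br (nat_lit 1) (nat_lit 0) (.cons (.ev (nat_lit 20282720297587383722718460444673) (nat_lit 1)) (.cons (.br (nat_lit 2) (nat_lit 0) (.cons (.rf (nat_lit 73) (nat_lit 307333152)) (.cons (.br (nat_lit 5) (nat_lit 0) (.cons (.ev (nat_lit 310698676454468120542707968) (nat_lit 1)) .nil)) .nil))) (.cons (.kr (nat_lit 79230580365903848326870073346) (nat_lit 309485028340146740767228416) (nat_lit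 0) (nat_lit 2)) (.cons (.br (nat_lit 3) (nat_lit 0) (.cons (.rf (nat_lit 382) (nat_lit 493858305440582043680)) (.cons (.rf (nat_lit 383) (nat_lit 493858305440582043680)) (.cons (.ev (nat_lit 309489732188109417658449921) (nat_lit 1)) .nil)))) .nil))))) .nil)) .nil))),
 (.br (nat_lit 13) (nat_lit 1) (.cons (.br (nat_lit 3) (nat_lit 1) (.cons (.br (nat_lit 9) (nat_lit 1) (.cons (.rf (nat_lit 379) (nat_lit 493858305440582043680)) (.cons (.rf (nat_lit 379) (nat_lit 492741412732994160672)) .nil))) (.cons (.rf (nat_lit 384) (nat_lit 493858305440582043680)) (.cons (.rf (nat_lit 384) (nat_lit 492741412732994160672)) .nil)))) .nil)),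
 (.br (nat_lit 13) (nat_lit 1) (.cons (.rf (nat_lit 385) (nat_lit 493858305440582043680)) (.cons (.rf (nat_lit 385) (nat_lit 492741412732994160672)) .nil))),
 (.br (nat_lit 13) (nat_lit 1) (.cons (.rf (nat_lit 386) (nat_lit 493858305440582043680)) (.cons (.br (nat_lit 13) (nat_lit 1) (.cons (.rf (nat_lit 386) (nat_lit 493858305440582043680)) .nil)) .nil))),
 (.br (nat_lit 6) (nat_lit 0) (.cons (.rf (nat_lit 370) (nat_lit 14242959524133701664)) (.cons (.rf (nat_lit 376) (nat_lit 14242959524133701664)) (.cons (.br (nat_lit 13) (nat_lit 1) (.cons (.rf (nat_lit 386) (nat_lit 493858305440582043680)) (.cons (.rf (nat_lit 387) (nat_lit 493858305440582043680)) (.cons (.rf (nat_lit 387) (nat_lit 492741412732994160672)) .nil)))) .nil)))),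
 (.br (nat_lit 5) (nat_lit 1) (.cons (.rf (nat_lit 348) (nat_lit 11584701642934304)) (.cons (.rf (nat_lit 362) (nat_lit 11584701642934304)) (.cons (.br (nat_lit 5) (nat_lit 1) (.cons (.rf (nat_lit 348) (nat_lit 11584701642934304)) (.cons (.rf (nat_lit 362) (nat_lit 11584701642934304)) (.cons (.br (nat_lit 11) (nat_lit 1) (.cons (.br (nat_lit 6) (nat_lit 0) (.cons (.rf (nat_lit 370) (nat_lit 14242959524133701664)) (.cons (.rf (nat_lit 376) (nat_lit 14242959524133701664)) (.cons (.rf (nat_lit 388) (nat_lit 14242959524133701664)) (.cons (.br (nat_lit 6) (nat_lit 0) (.cons (.rf (nat_lit 370) (nat_lit 14242959524133701664)) (.cons (.rf (nat_lit 376) (nat_lit 14242959524133701664)) (.cons (.rf (nat_lit 388) (nat_lit 14242959524133701664)) .nil)))) .nil))))) .nil)) .nil)))) .nil)))),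
 (.br (nat_lit 3) (nat_lit 0) (.cons (.ev (nat_lit 79229376162522492686418575616) (nat_lit 1)) .nil)),
 (.br (nat_lit 1) (nat_lit 0) (.cons (.br (nat_lit 5) (nat_lit 0) (.cons (.ev (nat_lit 1213666632842676352843776) (nat_lit 1)) .nil)) (.cons (.br (nat_lit 3) (nat_lit 0) (.cons (.ev (nat_lit 20282720297587311384748974145793) (nat_lit 1)) .nil)) (.cons (.rf (nat_lit 390) (nat_lit 493858305440582043680)) .nil)))),
 (.br (nat_lit 5) (nat_lit 0) (.cons (.ev (nat_lit 20282720297587311384748974145793) (nat_lit 1)) (.cons (.rf (nat_lit 65) (nat_lit 333527304777010336)) (.cons (.rf (nat_lit 66) (nat_lit 333527304777012320)) .nil)))),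
 (.br (nat_lit 11) (nat_lit 0) (.cons (.rf (nat_lit 240) (nat_lit 13991920128795707424)) (.cons (.rf (nat_lit 243) (nat_lit 13991920128795707424)) .nil))),
 (.br (nat_lit 4) (nat_lit 0) (.cons (.br (nat_lit 6) (nat_lit 0) (.cons (.br (nat_lit 7) (nat_lit 0) (.cons (.br (nat_lit 12) (nat_lit 0) (.cons (.br (nat_lit 9) (nat_lit 0) (.cons (.br (nat_lit 2) (nat_lit 0) (.cons (.rf (nat_lit 371) (nat_lit 492741412730848774176)) (.cons (.rf (nat_lit 175) (nat_lit 11858443199020338336)) (.cons (.rf (nat_lit 390) (nat_lit 493858305440582043680)) .nil)))) (.cons (.rf (nat_lit 391) (nat_lit 493858305440582043680)) (.cons (.rf (nat_lit 392) (nat_lit 493858305440582043680)) (.cons (.br (nat_lit 9) (nat_lit 0) (.cons (.kr (nat_lit 309485009821345068724781312) (nat_lit 282574488338432) (nat_lit 1) (nat_lit 0)) (.cons (.rf (nat_lit 391) (nat_lit 493858305440582043680)) (.cons (.rf (nat_lit 66) (nat_lit 333527304777012320)) .nil)))) .nil))))) .nil)) .nil)) .nil)) (.cons (.rf (nat_lit 393)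 (nat_lit 15433072045018188865)) .nil))),
 (.br (nat_lit 3) (nat_lit 0) (.cons (.rf (nat_lit 73) (nat_lit 273746976)) (.cons (.br (nat_lit 5) (nat_lit 0) (.cons (.kr (nat_lit 18446744073709551872) (nat_lit 4311744512) (nat_lit 1) (nat_lit 0)) .nil)) .nil))),
 (.br (nat_lit 4) (nat_lit 0) (.cons (.br (nat_lit 6) (nat_lit 0) (.cons (.br (nat_lit 7) (nat_lit 0) (.cons (.br (nat_lit 12) (nat_lit 0) (.cons (.br (nat_lit 1) (nat_lit 0) (.cons (.rf (nat_lit 395) (nat_lit 432389562140704)) (.cons (.ev (nat_lit 20361948460120094522906458980353) (nat_lit 1)) (.cons (.rf (nat_lit 395) (nat_lit 432389461480480)) (.cons (.br (nat_lit 2) (nat_lit 0) (.cons (.br (nat_lit 5) (nat_lit 0) (.cons (.ev (nat_lit 40565129910702233574999490494721) (nat_lit 2)) .nil)) (.cons (.kr (nat_lit 79229371440083952222718722048) (nat_lit 20282409603670117169120472465408) (nat_lit 2) (nat_lit 0)) (.cons (.br (nat_lit 3) (nat_lit 0) (.cons (.ev (nat_lit 20282409613114850981488028156675) (nat_lit 2)) .nil))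 .nil)))) .nil))))) .nil)) .nil)) .nil)) (.cons (.rf (nat_lit 240) (nat_lit 15182032649680194625)) .nil))),
 (.br (nat_lit 11) (nat_lit 0) (.cons (.br (nat_lit 6) (nat_lit 0) (.cons (.rf (nat_lit 328) (nat_lit 437204555421550885)) (.cons (.br (nat_lit 4) (nat_lit 0) (.cons (.rf (nat_lit 118) (nat_lit 14990885784917097)) (.cons (.br (nat_lit 5) (nat_lit 1) (.cons (.rf (nat_lit 328) (nat_lit 437204521096414501)) (.cons (.br (nat_lit 7) (nat_lit 0) (.cons (.br (nat_lit 12) (nat_lit 0) (.cons (.br (nat_lit 1) (nat_lit 0) (.cons (.br (nat_lit 5) (nat_lit 0) (.cons (.kr (nat_lit 79228162514264337593543950592) (nat_lit 1103806595072) (nat_lit 1) (nat_lit 0)) (.cons (.ev (nat_lit 20361948460101648061407221055745) (nat_lit 1)) .nil))) (.cons (.ev (nat_lit 20282409603651742763020577669376) (nat_lit 1)) (.cons (.br (nat_lit 2) (nat_lit 0) (.cons (.ev (nat_lit 20361637766166007101709338279936) (nat_lit 1)) (.cons (.br (nat_lit 3) (nat_lit 0) (.cons (.ev (nat_lit 310698676526245339098841088)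 (nat_lit 1)) .nil)) .nil))) (.cons (.br (nat_lit 5) (nat_lit 0) (.cons (.br (nat_lit 3) (nat_lit 0) (.cons (.ev (nat_lit 4740885285641216065793) (nat_lit 1)) .nil)) (.cons (.br (nat_lit 2) (nat_lit 0) (.cons (.ev (nat_lit 310698676526245339098841088) (nat_lit 1)) .nil)) (.cons (.kr (nat_lit 79537647524157740256306659840) (nat_lit 18447027752004485120) (nat_lit 1) (nat_lit 0)) .nil)))) .nil))))) .nil)) .nil)) .nil))) .nil))) .nil))) (.cons (.br (nat_lit 12) (nat_lit 0) (.cons (.rf (nat_lit 394) (nat_lit 493858305440582043680)) (.cons (.rf (nat_lit 396) (nat_lit 493858305440582043680)) (.cons (.br (nat_lit 12) (nat_lit 0) (.cons (.rf (nat_lit 394) (nat_lit 493858305440582043680)) (.cons (.rf (nat_lit 396) (nat_lit 493858305440582043680)) .nil))) .nil)))) .nil))),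
 (.br (nat_lit 3) (nat_lit 0) (.cons (.rf (nat_lit 73) (nat_lit 307301408)) (.cons (.br (nat_lit 5) (nat_lit 0) (.cons (.ev (nat_lit 79538861172271780161088717056) (nat_lit 1)) .nil)) .nil))),
 (.br (nat_lit 3) (nat_lit 0) (.cons (.ev (nat_lit 20282409617837432791611050492675) (nat_lit 2)) .nil)),
 (.br (nat_lit 9) (nat_lit 0) (.cons (.rf (nat_lit 333) (nat_lit 492741412730848774176)) (.cons (.rf (nat_lit 333) (nat_lit 492741412730748113952)) .nil))),
 (.br (nat_lit 12) (nat_lit 0) (.cons (.br (nat_lit 4) (nat_lit 0) (.cons (.br (nat_lit 6) (nat_lit 0) (.cons (.br (nat_lit 7) (nat_lit 0) (.cons (.br (nat_lit 1) (nat_lit 0) (.cons (.rf (nat_lit 398) (nat_lit 493858305440582043680)) (.cons (.ev (nat_lit 20361948460120094522906458980353) (nat_lit 1)) (.cons (.br (nat_lit 2) (nat_lit 0) (.cons (.ev (nat_lit 20282719088679938514193508990976) (nat_lit 1)) (.cons (.rf (nat_lit 399) (nat_lit 493858305440582043680)) .nil))) (.cons (.br (nat_lit 2) (nat_lit 0) (.cons (.br (nat_lit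 5) (nat_lit 0) (.cons (.ev (nat_lit 309489732259886636214583553) (nat_lit 1)) .nil)) (.cons (.br (nat_lit 3) (nat_lit 0) (.cons (.zr (nat_lit 928455029464035219092930816) (nat_lit 20282410817299857088794071138305) (nat_lit 5) (nat_lit 9)) .nil)) (.cons (.br (nat_lit 3) (nat_lit 0) (.cons (.ev (nat_lit 80782860063095485071396111618) (nat_lit 3)) .nil)) .nil)))) .nil))))) .nil)) .nil)) (.cons (.br (nat_lit 5) (nat_lit 1) (.cons (.br (nat_lit 7) (nat_lit 0) (.cons (.br (nat_lit 1) (nat_lit 0) (.cons (.kr (nat_lit 20282409603651670423947251286017) (nat_lit 79228162514264337593544015872) (nat_lit 0) (nat_lit 1)) (.cons (.rf (nat_lit 400) (nat_lit 493858305440582043680)) (.cons (.rf (nat_lit 400) (nat_lit 493858305440515000352)) (.cons (.br (nat_lit 2) (nat_lit 0) (.cons (.br (nat_lit 5) (nat_lit 0) (.cons (.ev (nat_lit 80778043360182683803108641290) (nat_lit 4)) .nil)) (.cons (.ev (nat_lit 310693935713299866425753856) (nat_lit 1)) (.cons (.br (nat_lit 3) (nat_lit 0) (.cons (.ev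 (nat_lit 18447026648214732801) (nat_lit 1)) .nil)) .nil)))) .nil))))) .nil)) (.cons (.br (nat_lit 6) (nat_lit 0) (.cons (.br (nat_lit 2) (nat_lit 0) (.cons (.kr (nat_lit 20282409603651670423947251286017) (nat_lit 79228162514264337593543950592) (nat_lit 0) (nat_lit 2)) (.cons (.rf (nat_lit 400) (nat_lit 493858305407296046144)) (.cons (.rf (nat_lit 400) (nat_lit 493858305407229002816)) (.cons (.br (nat_lit 1) (nat_lit 0) (.cons (.kr (nat_lit 40564819207321787873443188834306) (nat_lit 79537647524157740260601627136) (nat_lit 0) (nat_lit 2)) (.cons (.ev (nat_lit 310693935713299866425819136) (nat_lit 1)) (.cons (.ev (nat_lit 20282720302328196668182543532033) (nat_lit 1)) .nil)))) .nil))))) .nil)) .nil))) .nil))) .nil))]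

theorem c9 : chkAll C T R L9 (nat_lit 366) = true := by decide +kernel

theorem l9 : (nat_lit 366) + L9.length = (nat_lit 402) := by decide +kernel

/-- part of the certificates -/
def L10 : List Prf := [(.br (nat_lit 11) (nat_lit 0) (.cons (.rf (nat_lit 397) (nat_lit 14242959524133701664)) (.cons (.br (nat_lit 12) (nat_lit 0) (.cons (.rf (nat_lit 401) (nat_lit 493858305440582043680)) (.cons (.br (nat_lit 12) (nat_lit 0) (.cons (.rf (nat_lit 401) (nat_lit 493858305440582043680)) .nil)) .nil))) .nil))),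
 (.br (nat_lit 11) (nat_lit 0) (.cons (.rf (nat_lit 397) (nat_lit 14242959524133701664)) (.cons (.rf (nat_lit 402) (nat_lit 14242959524133701664)) (.cons (.br (nat_lit 11) (nat_lit 0) (.cons (.rf (nat_lit 397) (nat_lit 14242959524133701664)) (.cons (.rf (nat_lit 402) (nat_lit 14242959524133701664)) .nil))) .nil)))),
 (.br (nat_lit 9) (nat_lit 0) (.cons (.br (nat_lit 3) (nat_lit 0) (.cons (.ev (nat_lit 20361949678472200362499783000321) (nat_lit 2)) .nil)) (.cons (.ev (nat_lit 79228167255149622130953420801) (nat_lit 1)) (.cons (.ev (nat_lit 20282719093402304997058842460416) (nat_lit 1)) .nil)))),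
 (.br (nat_lit 1) (nat_lit 0) (.cons (.ev (nat_lit 1208944338697771915739136) (nat_lit 1)) (.cons (.br (nat_lit 3) (nat_lit 0) (.cons (.ev (nat_lit 20282409608392699825880383553795) (nat_lit 2)) .nil)) (.cons (.rf (nat_lit 404) (nat_lit 493858305440582043680)) .nil)))),
 (.br (nat_lit 1) (nat_lit 0) (.cons (.ev (nat_lit 1208944338697771915739136) (nat_lit 1)) (.cons (.br (nat_lit 2) (nat_lit 0) (.cons (.ev (nat_lit 20282409608392699825880383553795) (nat_lit 2)) .nil)) (.cons (.ev (nat_lit 309489732188109417658449921) (nat_lit 1)) .nil)))),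
 (.br (nat_lit 1) (nat_lit 0) (.cons (.br (nat_lit 5) (nat_lit 0) (.cons (.ev (nat_lit 81401820638222225585660494338) (nat_lit 3)) .nil)) (.cons (.br (nat_lit 3) (nat_lit 0) (.cons (.ev (nat_lit 40565128701757967782545060856576) (nat_lit 2)) .nil)) (.cons (.zr (nat_lit 310698658007442576134832128) (nat_lit 40564819207321859649562250052352) (nat_lit 5) (nat_lit 2)) .nil)))),
 (.br (nat_lit 9) (nat_lit 0) (.cons (.ev (nat_lit 309489732188109417658449921) (nat_lit 1)) (.cons (.rf (nat_lit 407) (nat_lit 493858305440582043680)) (.cons (.br (nat_lit 1) (nat_lit 0) (.cons (.ev (nat_lit 20282410812595936783753942204673) (nat_lit 1)) .nil)) .nil)))),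
 (.br (nat_lit 4) (nat_lit 0) (.cons (.br (nat_lit 6) (nat_lit 0) (.cons (.br (nat_lit 7) (nat_lit 0) (.cons (.br (nat_lit 11) (nat_lit 0) (.cons (.br (nat_lit 9) (nat_lit 0) (.cons (.rf (nat_lit 404) (nat_lit 493858305440582043680)) (.cons (.rf (nat_lit 405) (nat_lit 493858305440582043680)) (.cons (.rf (nat_lit 406) (nat_lit 493858305440582043680)) (.cons (.br (nat_lit 9) (nat_lit 0) (.cons (.ev (nat_lit 20282719093402304997058842460416) (nat_lit 1)) (.cons (.rf (nat_lit 405) (nat_lit 493858305440582043680)) (.cons (.rf (nat_lit 406) (nat_lit 493858305440582043680)) .nil)))) .nil))))) .nil)) .nil)) .nil)) (.cons (.br (nat_lit 6) (nat_lit 0) (.cons (.br (nat_lit 7) (nat_lit 0) (.cons (.br (nat_lit 11) (nat_lit 0) (.cons (.br (nat_lit 9) (nat_lit 0) (.cons (.br (nat_lit 9) (nat_lit 0) (.cons (.zr (nat_lit 310698658007442576134832128) (nat_lit 40564819207321859649562250052352) (nat_lit 5) (nat_lit 2)) (.cons (.ev (nat_lit 309489732188109417658449921) (nat_lit 1)) (.cons (.ev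 (nat_lit 20282719093402304997058842460416) (nat_lit 1)) .nil)))) (.cons (.rf (nat_lit 407) (nat_lit 493858305440582043680)) (.cons (.rf (nat_lit 408) (nat_lit 493858305440582043680)) (.cons (.br (nat_lit 9) (nat_lit 0) (.cons (.ev (nat_lit 20282719093402304997058842460416) (nat_lit 1)) (.cons (.rf (nat_lit 407) (nat_lit 493858305440582043680)) (.cons (.rf (nat_lit 408) (nat_lit 493858305440582043680)) .nil)))) .nil))))) .nil)) .nil)) (.cons (.br (nat_lit 5) (nat_lit 1) (.cons (.br (nat_lit 11) (nat_lit 0) (.cons (.br (nat_lit 1) (nat_lit 0) (.cons (.br (nat_lit 5) (nat_lit 0) (.cons (.ev (nat_lit 310693935713299866425819136) (nat_lit 1)) (.cons (.ev (nat_lit 20282410812595936783753942204673) (nat_lit 1)) .nil))) (.cons (.kr (nat_lit 40564819207321787873443188834306) (nat_lit 79537647524157740260601627136) (nat_lit 0) (nat_lit 2)) (.cons (.kr (nat_lit 20282409603651670705422227996673) (nat_lit 309485009821345073019748608) (nat_lit 0) (nat_lit 2)) (.cons (.br (nat_lit 5) (nat_lit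 0) (.cons (.rf (nat_lit 383) (nat_lit 378425422026926885920)) (.cons (.rf (nat_lit 382) (nat_lit 378425422026926885920)) (.cons (.ev (nat_lit 20361637770888373584583261683968) (nat_lit 1)) .nil)))) .nil))))) .nil)) (.cons (.br (nat_lit 7) (nat_lit 0) (.cons (.br (nat_lit 1) (nat_lit 0) (.cons (.ev (nat_lit 20282720297587383722718460444673) (nat_lit 1)) (.cons (.br (nat_lit 2) (nat_lit 0) (.cons (.rf (nat_lit 73) (nat_lit 307333152)) (.cons (.ev (nat_lit 1208944338697771915739136) (nat_lit 1)) .nil))) (.cons (.br (nat_lit 2) (nat_lit 0) (.cons (.ev (nat_lit 121775238045306016858212713889798) (nat_lit 3)) (.cons (.br (nat_lit 3) (nat_lit 0) (.cons (.ev (nat_lit 80778033804622891005847404550) (nat_lit 3)) .nil)) .nil))) (.cons (.br (nat_lit 5) (nat_lit 0) (.cons (.kr (nat_lit 309485009893402662762709248) (nat_lit 18447026648197890048) (nat_lit 1) (nat_lit 0)) (.cons (.br (nat_lit 2) (nat_lit 0) (.cons (.ev (nat_lit 20282719093383930310579170836736) (nat_lit 1)) .nil)) (.cons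 (.kr (nat_lit 79537647524157740256306659840) (nat_lit 18447027752004485120) (nat_lit 1) (nat_lit 0)) .nil)))) .nil))))) .nil)) .nil))) .nil))) .nil))),
 (.br (nat_lit 5) (nat_lit 0) (.cons (.kr (nat_lit 928455029536092804507238912) (nat_lit 79228162532711928291206889472) (nat_lit 1) (nat_lit 0)) (.cons (.br (nat_lit 2) (nat_lit 0) (.cons (.ev (nat_lit 1213666632842676352843776) (nat_lit 1)) .nil)) (.cons (.kr (nat_lit 309485009821345068724781312) (nat_lit 282574488338432) (nat_lit 1) (nat_lit 0)) .nil)))),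
 (.br (nat_lit 5) (nat_lit 0) (.cons (.ev (nat_lit 79229376162522492686418575616) (nat_lit 1)) .nil)),
 (.br (nat_lit 1) (nat_lit 0) (.cons (.rf (nat_lit 411) (nat_lit 493858305440582043680)) (.cons (.br (nat_lit 3) (nat_lit 0) (.cons (.ev (nat_lit 80782869508189579898697942018) (nat_lit 3)) .nil)) (.cons (.rf (nat_lit 410) (nat_lit 493858305440582043680)) .nil)))),
 (.br (nat_lit 9) (nat_lit 0) (.cons (.rf (nat_lit 410) (nat_lit 493858305440582043680)) (.cons (.rf (nat_lit 412) (nat_lit 493858305440582043680)) (.cons (.br (nat_lit 1) (nat_lit 0) (.cons (.zr (nat_lit 216174994021941504) (nat_lit 20282410817299857084396041469953) (nat_lit 5) (nat_lit 2)) .nil)) .nil)))),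
 (.br (nat_lit 11) (nat_lit 0) (.cons (.rf (nat_lit 409) (nat_lit 493858305440582043680)) (.cons (.br (nat_lit 4) (nat_lit 0) (.cons (.br (nat_lit 6) (nat_lit 0) (.cons (.br (nat_lit 7) (nat_lit 0) (.cons (.br (nat_lit 9) (nat_lit 0) (.cons (.rf (nat_lit 410) (nat_lit 493858305440582043680)) (.cons (.rf (nat_lit 412) (nat_lit 493858305440582043680)) (.cons (.rf (nat_lit 413) (nat_lit 493858305440582043680)) (.cons (.br (nat_lit 9) (nat_lit 0) (.cons (.kr (nat_lit 309485009821345068724781312) (nat_lit 282574488338432) (nat_lit 1) (nat_lit 0)) (.cons (.rf (nat_lit 412) (nat_lit 493858305440582043680)) (.cons (.rf (nat_lit 413) (nat_lit 493858305440582043680)) .nil)))) .nil))))) .nil)) .nil)) (.cons (.rf (nat_lit 393) (nat_lit 15433065447948428353)) .nil))) .nil))),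
 (.br (nat_lit 12) (nat_lit 0) (.cons (.rf (nat_lit 403) (nat_lit 14242959524133701664)) (.cons (.br (nat_lit 11) (nat_lit 0) (.cons (.rf (nat_lit 409) (nat_lit 493858305440582043680)) (.cons (.rf (nat_lit 414) (nat_lit 493858305440582043680)) (.cons (.br (nat_lit 11) (nat_lit 0) (.cons (.rf (nat_lit 409) (nat_lit 493858305440582043680)) (.cons (.rf (nat_lit 414) (nat_lit 493858305440582043680)) .nil))) .nil)))) .nil))),
 (.br (nat_lit 12) (nat_lit 0) (.cons (.rf (nat_lit 403) (nat_lit 14242959524133701664)) (.cons (.rf (nat_lit 415) (nat_lit 14242959524133701664)) (.cons (.br (nat_lit 12) (nat_lit 0) (.cons (.rf (nat_lit 403) (nat_lit 14242959524133701664)) (.cons (.rf (nat_lit 415) (nat_lit 14242959524133701664)) .nil))) .nil)))),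
 (.br (nat_lit 12) (nat_lit 0) (.cons (.rf (nat_lit 403) (nat_lit 14242959524133701664)) (.cons (.rf (nat_lit 416) (nat_lit 14242959524133701664)) (.cons (.br (nat_lit 12) (nat_lit 0) (.cons (.rf (nat_lit 403) (nat_lit 14242959524133701664)) (.cons (.rf (nat_lit 416) (nat_lit 14242959524133701664)) .nil))) .nil)))),
 (.br (nat_lit 10) (nat_lit 1) (.cons (.rf (nat_lit 389) (nat_lit 11584701642934304)) (.cons (.br (nat_lit 11) (nat_lit 1) (.cons (.br (nat_lit 12) (nat_lit 0) (.cons (.rf (nat_lit 403) (nat_lit 14242959524133701664)) (.cons (.rf (nat_lit 416) (nat_lit 14242959524133701664)) (.cons (.rf (nat_lit 417) (nat_lit 14242959524133701664)) (.cons (.br (nat_lit 12) (nat_lit 0) (.cons (.rf (nat_lit 403) (nat_lit 14242959524133701664)) (.cons (.rf (nat_lit 416) (nat_lit 14242959524133701664)) (.cons (.rf (nat_lit 417) (nat_lit 14242959524133701664)) .nil)))) .nil))))) .nil)) .nil))),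
 (.br (nat_lit 3) (nat_lit 0) (.cons (.rf (nat_lit 117) (nat_lit 12202170057954)) (.cons (.br (nat_lit 5) (nat_lit 0) (.cons (.kr (nat_lit 281474993487872) (nat_lit 1103806595072) (nat_lit 3) (nat_lit 0)) (.cons (.rf (nat_lit 117) (nat_lit 13372483568864)) .nil))) .nil))),
 (.br (nat_lit 4) (nat_lit 1) (.cons (.rf (nat_lit 123) (nat_lit 12739153485726728)) (.cons (.rf (nat_lit 123) (nat_lit 11648437950972936)) .nil))),
 (.br (nat_lit 3) (nat_lit 0) (.cons (.rf (nat_lit 24) (nat_lit 13827637655046273)) (.cons (.rf (nat_lit 420) (nat_lit 14242959524133701664)) (.cons (.rf (nat_lit 251) (nat_lit 13991920128795707424)) .nil)))),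
 (.br (nat_lit 9) (nat_lit 1) (.cons (.br (nat_lit 1) (nat_lit 0) (.cons (.rf (nat_lit 252) (nat_lit 347474464236810373152)) (.cons (.ev (nat_lit 20282410812577490320055714447361) (nat_lit 1)) (.cons (.br (nat_lit 3) (nat_lit 0) (.cons (.rf (nat_lit 73) (nat_lit 305301536)) (.cons (.kr (nat_lit 79228162532783139261291430400) (nat_lit 309485009821626548030013440) (nat_lit 1) (nat_lit 0)) .nil))) (.cons (.br (nat_lit 3) (nat_lit 0) (.cons (.br (nat_lit 5) (nat_lit 0) (.cons (.ev (nat_lit 1213648258437667362963456) (nat_lit 1)) .nil)) (.cons (.kr (nat_lit 928455047982836873921823232) (nat_lit 237684487542793294259937083392) (nat_lit 1) (nat_lit 0)) (.cons (.kr (nat_lit 309485028340146736472261120) (nat_lit 79228162514264619072849182720) (nat_lit 1) (nat_lit 0)) .nil)))) .nil))))) .nil)),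
 (.br (nat_lit 13) (nat_lit 1) (.cons (.br (nat_lit 5) (nat_lit 1) (.cons (.rf (nat_lit 422) (nat_lit 493858305440582043680)) (.cons (.rf (nat_lit 422) (nat_lit 492741412732994160672)) .nil))) .nil)),
 (.br (nat_lit 13) (nat_lit 1) (.cons (.rf (nat_lit 423) (nat_lit 493858305440582043680)) (.cons (.rf (nat_lit 423) (nat_lit 492741412732994160672)) .nil))),
 (.br (nat_lit 10) (nat_lit 0) (.cons (.br (nat_lit 11) (nat_lit 0) (.cons (.kr (nat_lit 1208925819614629174706176) (nat_lit 309485009821345068724781056) (nat_lit 10) (nat_lit 0)) .nil)) .nil)),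
 (.br (nat_lit 11) (nat_lit 0) (.cons (.kr (nat_lit 309485009893402662779486208) (nat_lit 1208925819897203663044608) (nat_lit 3) (nat_lit 0)) .nil)),
 (.br (nat_lit 3) (nat_lit 0) (.cons (.rf (nat_lit 425) (nat_lit 407901468851537952)) (.cons (.br (nat_lit 8) (nat_lit 1) (.cons (.rf (nat_lit 426) (nat_lit 14242959524133701664)) (.cons (.rf (nat_lit 426) (nat_lit 14208056627021580320)) .nil))) .nil))),
 (.br (nat_lit 5) (nat_lit 1) (.cons (.rf (nat_lit 424) (nat_lit 493858305440582043680)) (.cons (.rf (nat_lit 427) (nat_lit 15433072045018188865)) .nil))),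
 (.br (nat_lit 6) (nat_lit 0) (.cons (.rf (nat_lit 318) (nat_lit 6743273801824)) (.cons (.rf (nat_lit 419) (nat_lit 13909140160252993)) (.cons (.br (nat_lit 7) (nat_lit 0) (.cons (.rf (nat_lit 421) (nat_lit 15433072045018188865)) (.cons (.rf (nat_lit 38) (nat_lit 11070421042467)) (.cons (.br (nat_lit 5) (nat_lit 1) (.cons (.rf (nat_lit 424) (nat_lit 493858305440582043680)) (.cons (.rf (nat_lit 428) (nat_lit 493858305440582043680)) (.cons (.rf (nat_lit 428) (nat_lit 492741412732994160672)) .nil)))) .nil)))) .nil)))),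
 (.br (nat_lit 6) (nat_lit 0) (.cons (.br (nat_lit 3) (nat_lit 0) (.cons (.rf (nat_lit 118) (nat_lit 13831965968138312)) (.cons (.br (nat_lit 4) (nat_lit 1) (.cons (.rf (nat_lit 349) (nat_lit 439420169095385096)) (.cons (.br (nat_lit 10) (nat_lit 0) (.cons (.br (nat_lit 11) (nat_lit 0) (.cons (.kr (nat_lit 309485009893402662779486208) (nat_lit 1208925819897203663044608) (nat_lit 3) (nat_lit 0)) .nil)) .nil)) .nil))) .nil))) .nil)),
 (.br (nat_lit 5) (nat_lit 0) (.cons (.ev (nat_lit 20441175427875566636885709292291) (nat_lit 2)) .nil)),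
 (.br (nat_lit 2) (nat_lit 0) (.cons (.br (nat_lit 5) (nat_lit 0) (.cons (.ev (nat_lit 310698658007443671351361536) (nat_lit 1)) .nil)) (.cons (.br (nat_lit 3) (nat_lit 0) (.cons (.ev (nat_lit 79538861190718524239110012928) (nat_lit 1)) .nil)) (.cons (.br (nat_lit 3) (nat_lit 0) (.cons (.ev (nat_lit 159076513474280351808691961859) (nat_lit 2)) .nil)) .nil)))),
 (.br (nat_lit 1) (nat_lit 0) (.cons (.ev (nat_lit 81210416420114286840778321952770) (nat_lit 3)) (.cons (.ev (nat_lit 81209178480074714360407977492482) (nat_lit 3)) (.cons (.rf (nat_lit 432) (nat_lit 493858305440582043680)) .nil)))),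
 (.br (nat_lit 2) (nat_lit 0) (.cons (.kr (nat_lit 20282409608374037469766849921025) (nat_lit 309485028268089151024267520) (nat_lit 0) (nat_lit 2)) .nil)),
 (.br (nat_lit 1) (nat_lit 0) (.cons (.ev (nat_lit 20361638975091754376174281752833) (nat_lit 1)) (.cons (.rf (nat_lit 434) (nat_lit 493858305440582043680)) (.cons (.rf (nat_lit 432) (nat_lit 493858305440582043680)) .nil)))),
 (.br (nat_lit 4) (nat_lit 0) (.cons (.br (nat_lit 11) (nat_lit 0) (.cons (.br (nat_lit 12) (nat_lit 0) (.cons (.br (nat_lit 1) (nat_lit 0) (.cons (.br (nat_lit 3) (nat_lit 0) (.cons (.ev (nat_lit 81210414002299396991050649436160) (nat_lit 3)) (.cons (.rf (nat_lit 431) (nat_lit 493858305440582043680)) .nil))) (.cons (.rf (nat_lit 359) (nat_lit 15398132828554233888)) (.cons (.br (nat_lit 9) (nat_lit 0) (.cons (.rf (nat_lit 353) (nat_lit 492741412732994160672)) (.cons (.ev (nat_lit 20361638975091754377273793315073) (nat_lit 1)) .nil))) (.cons (.br (nat_lit 2) (nat_lit 0) (.cons (.br (nat_lit 5) (nat_lit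 0) (.cons (.ev (nat_lit 1213666632842676352843776) (nat_lit 1)) .nil)) (.cons (.br (nat_lit 3) (nat_lit 0) (.cons (.ev (nat_lit 1213648258437667362963456) (nat_lit 1)) .nil)) (.cons (.br (nat_lit 3) (nat_lit 0) (.cons (.ev (nat_lit 80780442285460811156830553088) (nat_lit 3)) .nil)) .nil)))) .nil))))) .nil)) .nil)) (.cons (.br (nat_lit 9) (nat_lit 1) (.cons (.rf (nat_lit 257) (nat_lit 15182032649680194625)) (.cons (.br (nat_lit 11) (nat_lit 0) (.cons (.br (nat_lit 9) (nat_lit 0) (.cons (.rf (nat_lit 432) (nat_lit 493858305440582043680)) (.cons (.rf (nat_lit 433) (nat_lit 493858305440582043680)) (.cons (.rf (nat_lit 435) (nat_lit 493858305440582043680)) (.cons (.br (nat_lit 9) (nat_lit 0) (.cons (.rf (nat_lit 432) (nat_lit 493858305440582043680)) (.cons (.rf (nat_lit 433) (nat_lit 493858305440582043680)) (.cons (.rf (nat_lit 435) (nat_lit 493858305440582043680)) .nil)))) .nil))))) .nil)) .nil))) .nil)))]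

theorem c10 : chkAll C T R L10 (nat_lit 402) = true := by decide +kernel

theorem l10 : (nat_lit 402) + L10.length = (nat_lit 437) := by decide +kernel

/-- part of the certificates -/
def L11 : List Prf := [(.br (nat_lit 3) (nat_lit 0) (.cons (.rf (nat_lit 73) (nat_lit 307301408)) (.cons (.br (nat_lit 5) (nat_lit 0) (.cons (.ev (nat_lit 1213648258436567851401216) (nat_lit 1)) .nil)) .nil))),
 (.br (nat_lit 1) (nat_lit 0) (.cons (.rf (nat_lit 73) (nat_lit 305301536)) (.cons (.br (nat_lit 5) (nat_lit 0) (.cons (.ev (nat_lit 309489732188110517170143233) (nat_lit 1)) .nil)) .nil))),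
 (.br (nat_lit 5) (nat_lit 0) (.cons (.ev (nat_lit 20361638979814120859039615221761) (nat_lit 1)) .nil)),
 (.br (nat_lit 12) (nat_lit 0) (.cons (.rf (nat_lit 436) (nat_lit 493858305440582043680)) (.cons (.br (nat_lit 4) (nat_lit 0) (.cons (.br (nat_lit 11) (nat_lit 0) (.cons (.br (nat_lit 2) (nat_lit 0) (.cons (.rf (nat_lit 437) (nat_lit 493858305440582043680)) (.cons (.rf (nat_lit 438) (nat_lit 493858305440582043680)) (.cons (.kr (nat_lit 65536) (nat_lit 1099511627776) (nat_lit 2) (nat_lit 0)) (.cons (.br (nat_lit 5) (nat_lit 0) (.cons (.rf (nat_lit 437) (nat_lit 493858305440481383456)) (.cons (.rf (nat_lit 438) (nat_lit 493858305440481383456)) (.cons (.br (nat_lit 1) (nat_lit 0) (.cons (.ev (nat_lit 309489750706630705645944833) (nat_lit 1)) .nil)) .nil)))) .nil))))) .nil)) (.cons (.br (nat_lit 5) (nat_lit 1) (.cons (.br (nat_lit 1) (nat_lit 0) (.cons (.rf (nat_lit 437) (nat_lit 493858305440582043680)) (.cons (.br (nat_lit 2) (nat_lit 0) (.cons (.rf (nat_lit 73) (nat_lit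 307333152)) (.cons (.br (nat_lit 5) (nat_lit 0) (.cons (.ev (nat_lit 80778005433531068616280244230) (nat_lit 3)) .nil)) .nil))) (.cons (.br (nat_lit 2) (nat_lit 0) (.cons (.ev (nat_lit 72058697861300481) (nat_lit 1)) (.cons (.ev (nat_lit 81209178480074714360407977492482) (nat_lit 3)) .nil))) (.cons (.br (nat_lit 3) (nat_lit 0) (.cons (.rf (nat_lit 439) (nat_lit 493858305440582043680)) (.cons (.br (nat_lit 2) (nat_lit 0) (.cons (.ev (nat_lit 20282410822040742368933467717632) (nat_lit 2)) .nil)) (.cons (.ev (nat_lit 309489732188109417658449921) (nat_lit 1)) .nil)))) .nil))))) .nil)) .nil))) .nil))),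
 (.br (nat_lit 6) (nat_lit 0) (.cons (.rf (nat_lit 389) (nat_lit 11584699396887584)) (.cons (.rf (nat_lit 430) (nat_lit 445092485129178177)) (.cons (.br (nat_lit 7) (nat_lit 0) (.cons (.rf (nat_lit 421) (nat_lit 15433065447948428353)) (.cons (.br (nat_lit 12) (nat_lit 0) (.cons (.rf (nat_lit 436) (nat_lit 493858305440582043680)) (.cons (.rf (nat_lit 440) (nat_lit 493858305440582043680)) (.cons (.br (nat_lit 12) (nat_lit 0) (.cons (.rf (nat_lit 436) (nat_lit 493858305440582043680)) (.cons (.rf (nat_lit 440) (nat_lit 493858305440582043680)) .nil))) .nil)))) .nil))) .nil)))),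
 (.br (nat_lit 3) (nat_lit 1) (.cons (.rf (nat_lit 318) (nat_lit 7978073787424)) (.cons (.rf (nat_lit 318) (nat_lit 7975928400928)) (.cons (.rf (nat_lit 429) (nat_lit 14242959524133701664)) (.cons (.rf (nat_lit 441) (nat_lit 14242959524133701664)) (.cons (.rf (nat_lit 441) (nat_lit 13126066816545818656)) .nil)))))),
 (.br (nat_lit 4) (nat_lit 1) (.cons (.kr (nat_lit 309485009893402662779486208) (nat_lit 1208925819897203663044608) (nat_lit 3) (nat_lit 0)) .nil)),
 (.br (nat_lit 12) (nat_lit 1) (.cons (.br (nat_lit 2) (nat_lit 1) (.cons (.rf (nat_lit 443) (nat_lit 14242959524133701664)) (.cons (.rf (nat_lit 443) (nat_lit 14208056627021580320)) .nil))) .nil)),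
 (.br (nat_lit 2) (nat_lit 0) (.cons (.br (nat_lit 5) (nat_lit 0) (.cons (.ev (nat_lit 309489732188110517170143233) (nat_lit 1)) .nil)) (.cons (.br (nat_lit 3) (nat_lit 0) (.cons (.ev (nat_lit 309489732188110517170143233) (nat_lit 1)) .nil)) (.cons (.ev (nat_lit 20361948464823942485583316648193) (nat_lit 1)) .nil)))),
 (.br (nat_lit 9) (nat_lit 0) (.cons (.rf (nat_lit 445) (nat_lit 493858305440582043680)) (.cons (.kr (nat_lit 309485028340146740767227904) (nat_lit 79228171958997584807811088384) (nat_lit 4) (nat_lit 0)) (.cons (.br (nat_lit 1) (nat_lit 0) (.cons (.ev (nat_lit 20282719093383930590958930952448) (nat_lit 1)) .nil)) .nil)))),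
 (.br (nat_lit 5) (nat_lit 1) (.cons (.br (nat_lit 9) (nat_lit 0) (.cons (.rf (nat_lit 445) (nat_lit 493858305440582043680)) (.cons (.br (nat_lit 9) (nat_lit 0) (.cons (.ev (nat_lit 20361948464823942485583316648193) (nat_lit 1)) (.cons (.kr (nat_lit 309485028340146740767227904) (nat_lit 79228171958997584807811088384) (nat_lit 4) (nat_lit 0)) (.cons (.kr (nat_lit 79228162532783139265586397184) (nat_lit 309494454554592282991919104) (nat_lit 4) (nat_lit 0)) .nil)))) (.cons (.rf (nat_lit 446) (nat_lit 493858305440582043680)) (.cons (.br (nat_lit 9) (nat_lit 0) (.cons (.rf (nat_lit 445) (nat_lit 493858305440582043680)) (.cons (.kr (nat_lit 79228162532783139265586397184) (nat_lit 309494454554592282991919104) (nat_lit 4) (nat_lit 0)) (.cons (.rf (nat_lit 446) (nat_lit 493858305440582043680)) .nil)))) .nil))))) .nil)),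
 (.br (nat_lit 13) (nat_lit 1) (.cons (.br (nat_lit 3) (nat_lit 1) (.cons (.rf (nat_lit 447) (nat_lit 493858305440582043680)) (.cons (.rf (nat_lit 447) (nat_lit 492741412732994160672)) .nil))) .nil)),
 (.br (nat_lit 13) (nat_lit 1) (.cons (.rf (nat_lit 448) (nat_lit 493858305440582043680)) (.cons (.rf (nat_lit 448) (nat_lit 492741412732994160672)) .nil))),
 (.br (nat_lit 5) (nat_lit 1) (.cons (.rf (nat_lit 449) (nat_lit 493858305440582043680)) (.cons (.rf (nat_lit 427) (nat_lit 15433065447948428353)) .nil))),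
 (.br (nat_lit 7) (nat_lit 0) (.cons (.rf (nat_lit 38) (nat_lit 11070421042467)) (.cons (.rf (nat_lit 442) (nat_lit 14242959524133701664)) (.cons (.br (nat_lit 6) (nat_lit 0) (.cons (.rf (nat_lit 419) (nat_lit 13908934001828929)) (.cons (.br (nat_lit 4) (nat_lit 0) (.cons (.rf (nat_lit 319) (nat_lit 14998720645106849)) (.cons (.rf (nat_lit 110) (nat_lit 6547379232)) (.cons (.br (nat_lit 13) (nat_lit 1) (.cons (.rf (nat_lit 444) (nat_lit 15433072045018188865)) (.cons (.rf (nat_lit 444) (nat_lit 15398169147906067521)) .nil))) .nil)))) (.cons (.br (nat_lit 5) (nat_lit 1) (.cons (.rf (nat_lit 449) (nat_lit 493858305440582043680)) (.cons (.rf (nat_lit 450) (nat_lit 493858305440582043680)) (.cons (.rf (nat_lit 450) (nat_lit 492741412732994160672)) .nil)))) .nil)))) .nil)))),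
 (.br (nat_lit 10) (nat_lit 1) (.cons (.rf (nat_lit 389) (nat_lit 11584701642934304)) (.cons (.rf (nat_lit 418) (nat_lit 11584701642934304)) (.cons (.br (nat_lit 10) (nat_lit 1) (.cons (.rf (nat_lit 389) (nat_lit 11584701642934304)) (.cons (.rf (nat_lit 418) (nat_lit 11584701642934304)) (.cons (.br (nat_lit 11) (nat_lit 1) (.cons (.br (nat_lit 7) (nat_lit 0) (.cons (.rf (nat_lit 429) (nat_lit 14242959524133701664)) (.cons (.rf (nat_lit 442) (nat_lit 14242959524133701664)) (.cons (.rf (nat_lit 451) (nat_lit 14242959524133701664)) (.cons (.br (nat_lit 7) (nat_lit 0) (.cons (.rf (nat_lit 429) (nat_lit 14242959524133701664)) (.cons (.rf (nat_lit 442) (nat_lit 14242959524133701664)) (.cons (.rf (nat_lit 451) (nat_lit 14242959524133701664)) .nil)))) .nil))))) .nil)) .nil)))) .nil)))),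
 (.br (nat_lit 3) (nat_lit 0) (.cons (.rf (nat_lit 117) (nat_lit 12202170057799)) (.cons (.br (nat_lit 4) (nat_lit 0) (.cons (.kr (nat_lit 281474993487872) (nat_lit 1103806595072) (nat_lit 3) (nat_lit 0)) (.cons (.rf (nat_lit 117) (nat_lit 13335001204775)) .nil))) .nil))),
 (.br (nat_lit 11) (nat_lit 0) (.cons (.rf (nat_lit 290) (nat_lit 13991920128795707424)) .nil)),
 (.br (nat_lit 10) (nat_lit 0) (.cons (.br (nat_lit 10) (nat_lit 0) (.cons (.rf (nat_lit 454) (nat_lit 13052847003258685472)) .nil)) (.cons (.rf (nat_lit 454) (nat_lit 13052847003258685472)) .nil))),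
 (.br (nat_lit 3) (nat_lit 0) (.cons (.rf (nat_lit 113) (nat_lit 12597218708259074)) (.cons (.rf (nat_lit 455) (nat_lit 445092485129144352)) .nil))),
 (.br (nat_lit 4) (nat_lit 0) (.cons (.br (nat_lit 6) (nat_lit 0) (.cons (.br (nat_lit 12) (nat_lit 0) (.cons (.br (nat_lit 2) (nat_lit 0) (.cons (.rf (nat_lit 289) (nat_lit 485790141892654106656)) (.cons (.ev (nat_lit 20282410812577562096174758952961) (nat_lit 1)) (.cons (.br (nat_lit 1) (nat_lit 0) (.cons (.rf (nat_lit 73) (nat_lit 307333152)) (.cons (.br (nat_lit 3) (nat_lit 0) (.cons (.ev (nat_lit 20283031005727090243015291240449) (nat_lit 2)) .nil)) .nil))) (.cons (.br (nat_lit 1) (nat_lit 0) (.cons (.br (nat_lit 5) (nat_lit 0) (.cons (.ev (nat_lit 1213648258437667362963456) (nat_lit 1)) .nil)) (.cons (.rf (nat_lit 399) (nat_lit 486976805215194417312)) (.cons (.br (nat_lit 3) (nat_lit 0) (.cons (.ev (nat_lit 20283031005690052076738432794625) (nat_lit 2)) .nil)) .nil)))) .nil))))) .nil)) .nil)) (.cons (.rf (nat_lit 455)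 (nat_lit 481192785872030785)) .nil))),
 (.br (nat_lit 11) (nat_lit 0) (.cons (.rf (nat_lit 456) (nat_lit 15433072045018188865)) (.cons (.br (nat_lit 12) (nat_lit 0) (.cons (.br (nat_lit 12) (nat_lit 0) (.cons (.rf (nat_lit 456) (nat_lit 15398169147906067521)) (.cons (.kr (nat_lit 309485009821345068724781056) (nat_lit 79228162514264337593543950336) (nat_lit 11) (nat_lit 0)) .nil))) (.cons (.rf (nat_lit 457) (nat_lit 493858305440582043680)) (.cons (.br (nat_lit 12) (nat_lit 0) (.cons (.kr (nat_lit 309485009821345068724781056) (nat_lit 79228162514264337593543950336) (nat_lit 11) (nat_lit 0)) (.cons (.rf (nat_lit 457) (nat_lit 493858305440582043680)) .nil))) .nil)))) .nil))),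
 (.br (nat_lit 12) (nat_lit 0) (.cons (.rf (nat_lit 458) (nat_lit 492741412732994160672)) (.cons (.br (nat_lit 12) (nat_lit 0) (.cons (.rf (nat_lit 458) (nat_lit 492741412732994160672)) .nil)) .nil))),
 (.br (nat_lit 7) (nat_lit 0) (.cons (.rf (nat_lit 318) (nat_lit 7975928400928)) (.cons (.rf (nat_lit 453) (nat_lit 13909140160252993)) (.cons (.br (nat_lit 11) (nat_lit 0) (.cons (.rf (nat_lit 458) (nat_lit 493858305440582043680)) (.cons (.rf (nat_lit 459) (nat_lit 493858305440582043680)) (.cons (.br (nat_lit 11) (nat_lit 0) (.cons (.rf (nat_lit 458) (nat_lit 493858305440582043680)) (.cons (.rf (nat_lit 459) (nat_lit 493858305440582043680)) .nil))) .nil)))) .nil)))),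
 (.br (nat_lit 7) (nat_lit 0) (.cons (.br (nat_lit 12) (nat_lit 0) (.cons (.br (nat_lit 2) (nat_lit 0) (.cons (.br (nat_lit 3) (nat_lit 0) (.cons (.rf (nat_lit 73) (nat_lit 307301408)) (.cons (.br (nat_lit 5) (nat_lit 0) (.cons (.ev (nat_lit 79537675987918168489231253508) (nat_lit 3)) .nil)) .nil))) (.cons (.br (nat_lit 1) (nat_lit 0) (.cons (.rf (nat_lit 73) (nat_lit 305301536)) (.cons (.br (nat_lit 5) (nat_lit 0) (.cons (.ev (nat_lit 20283031005727090243015291240449) (nat_lit 2)) .nil)) .nil))) (.cons (.ev (nat_lit 20282410812577562096174758952961) (nat_lit 1)) (.cons (.ev (nat_lit 20361948460101647778837027684353) (nat_lit 1)) .nil))))) .nil)) .nil)),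
 (.br (nat_lit 11) (nat_lit 0) (.cons (.rf (nat_lit 113) (nat_lit 13759434743711013)) (.cons (.br (nat_lit 12) (nat_lit 0) (.cons (.rf (nat_lit 461) (nat_lit 493858305440582043680)) (.cons (.br (nat_lit 12) (nat_lit 0) (.cons (.rf (nat_lit 461) (nat_lit 493858305440582043680)) .nil)) .nil))) .nil))),
 (.br (nat_lit 2) (nat_lit 0) (.cons (.br (nat_lit 5) (nat_lit 0) (.cons (.ev (nat_lit 1213666632842676352843776) (nat_lit 1)) .nil)) (.cons (.br (nat_lit 3) (nat_lit 0) (.cons (.ev (nat_lit 79538861190718525338621575168) (nat_lit 1)) .nil)) (.cons (.ev (nat_lit 20361948460101647778837027684353) (nat_lit 1)) .nil)))),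
 (.br (nat_lit 1) (nat_lit 0) (.cons (.rf (nat_lit 431) (nat_lit 493858305440582043680)) (.cons (.ev (nat_lit 20361638975091754377273793315073) (nat_lit 1)) (.cons (.rf (nat_lit 463) (nat_lit 493858305440582043680)) .nil)))),
 (.br (nat_lit 5) (nat_lit 0) (.cons (.ev (nat_lit 310698658007443671351361536) (nat_lit 1)) .nil)),
 (.br (nat_lit 3) (nat_lit 0) (.cons (.rf (nat_lit 465) (nat_lit 493858305440582043680)) (.cons (.br (nat_lit 2) (nat_lit 0) (.cons (.ev (nat_lit 79229376180969237863918010368) (nat_lit 1)) .nil)) (.cons (.ev (nat_lit 20361638975091754376174281687041) (nat_lit 1)) .nil)))),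
 (.br (nat_lit 1) (nat_lit 0) (.cons (.br (nat_lit 5) (nat_lit 0) (.cons (.ev (nat_lit 20283338072866680654035094208771) (nat_lit 2)) .nil)) (.cons (.ev (nat_lit 20361948460101647779936539312385) (nat_lit 1)) (.cons (.rf (nat_lit 466) (nat_lit 493858305440582043680)) .nil)))),
 (.br (nat_lit 7) (nat_lit 0) (.cons (.br (nat_lit 11) (nat_lit 0) (.cons (.br (nat_lit 12) (nat_lit 0) (.cons (.kr (nat_lit 79228162532711081671548469248) (nat_lit 309485009893684137739419648) (nat_lit 4) (nat_lit 0)) .nil)) .nil)) (.cons (.br (nat_lit 9) (nat_lit 1) (.cons (.rf (nat_lit 295) (nat_lit 15182032649680194625)) (.cons (.br (nat_lit 11) (nat_lit 0) (.cons (.br (nat_lit 9) (nat_lit 0) (.cons (.rf (nat_lit 466) (nat_lit 493858305440582043680)) (.cons (.rf (nat_lit 467) (nat_lit 493858305440582043680)) (.cons (.ev (nat_lit 20361638975091754376174281687041) (nat_lit 1)) (.cons (.br (nat_lit 9) (nat_lit 0) (.cons (.rf (nat_lit 466) (nat_lit 493858305440582043680)) (.cons (.rf (nat_lit 467)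 (nat_lit 493858305440582043680)) (.cons (.ev (nat_lit 20361638975091754376174281687041) (nat_lit 1)) .nil)))) .nil))))) .nil)) .nil))) .nil))),
 (.br (nat_lit 3) (nat_lit 0) (.cons (.ev (nat_lit 1099511693569) (nat_lit 1)) .nil)),
 (.br (nat_lit 2) (nat_lit 0) (.cons (.rf (nat_lit 321) (nat_lit 10142737336352)) (.cons (.ev (nat_lit 18518802767259173121) (nat_lit 1)) (.cons (.rf (nat_lit 469) (nat_lit 10142737336352)) .nil)))),
 (.br (nat_lit 1) (nat_lit 0) (.cons (.rf (nat_lit 321) (nat_lit 10109451338816)) (.cons (.ev (nat_lit 20282410812595937065224623948033) (nat_lit 1)) (.cons (.rf (nat_lit 469) (nat_lit 10142737336352)) .nil)))),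
 (.br (nat_lit 2) (nat_lit 0) (.cons (.br (nat_lit 5) (nat_lit 0) (.cons (.ev (nat_lit 121775233228492204326776549147650) (nat_lit 3)) .nil)) (.cons (.br (nat_lit 3) (nat_lit 0) (.cons (.ev (nat_lit 79537675877093584460851577860) (nat_lit 3)) .nil)) (.cons (.br (nat_lit 3) (nat_lit 0) (.cons (.ev (nat_lit 121775233228492204889752272372738) (nat_lit 3)) .nil)) .nil)))),
 (.br (nat_lit 12) (nat_lit 0) (.cons (.rf (nat_lit 468) (nat_lit 493858305440582043680)) (.cons (.br (nat_lit 5) (nat_lit 1) (.cons (.br (nat_lit 11) (nat_lit 0) (.cons (.br (nat_lit 9) (nat_lit 0) (.cons (.rf (nat_lit 470) (nat_lit 11584701642934304)) (.cons (.rf (nat_lit 471) (nat_lit 493858305440582043680)) (.cons (.br (nat_lit 9) (nat_lit 0) (.cons (.rf (nat_lit 470) (nat_lit 11584701642934304)) (.cons (.rf (nat_lit 471) (nat_lit 493858305440582043680)) (.cons (.rf (nat_lit 471) (nat_lit 493858305438335996960)) .nil)))) (.cons (.rf (nat_lit 471) (nat_lit 493858305438335996960)) .nil))))) .nil)) (.cons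 (.br (nat_lit 7) (nat_lit 0) (.cons (.br (nat_lit 9) (nat_lit 0) (.cons (.rf (nat_lit 472) (nat_lit 493858305440582043680)) (.cons (.br (nat_lit 1) (nat_lit 0) (.cons (.rf (nat_lit 439) (nat_lit 493858305407296046144)) (.cons (.ev (nat_lit 20361948460101647779936539312385) (nat_lit 1)) (.cons (.rf (nat_lit 472) (nat_lit 493858305440582043680)) .nil)))) (.cons (.br (nat_lit 1) (nat_lit 0) (.cons (.rf (nat_lit 439) (nat_lit 493858305407296013408)) (.cons (.rf (nat_lit 439) (nat_lit 493858305407195448416)) (.cons (.rf (nat_lit 472) (nat_lit 493858305440582043680)) .nil)))) (.cons (.br (nat_lit 1) (nat_lit 0) (.cons (.ev (nat_lit 20361948460101648061407221055745) (nat_lit 1)) (.cons (.rf (nat_lit 439) (nat_lit 493858305407195382944)) (.cons (.rf (nat_lit 472) (nat_lit 493858305440582043680)) .nil)))) .nil))))) .nil)) .nil))) .nil)))]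

theorem c11 : chkAll C T R L11 (nat_lit 437) = true := by decide +kernel

theorem l11 : (nat_lit 437) + L11.length = (nat_lit 474) := by decide +kernel

/-- part of the certificates -/
def L12 : List Prf := [(.br (nat_lit 4) (nat_lit 0) (.cons (.rf (nat_lit 110) (nat_lit 6547379232)) (.cons (.br (nat_lit 5) (nat_lit 1) (.cons (.rf (nat_lit 319) (nat_lit 14992122500588706)) (.cons (.rf (nat_lit 113) (nat_lit 13759434750002277)) (.cons (.br (nat_lit 7) (nat_lit 0) (.cons (.br (nat_lit 11) (nat_lit 0) (.cons (.br (nat_lit 12) (nat_lit 0) (.cons (.br (nat_lit 9) (nat_lit 0) (.cons (.rf (nat_lit 463) (nat_lit 493858305440582043680)) (.cons (.ev (nat_lit 20361948460101647778837027684353) (nat_lit 1)) (.cons (.rf (nat_lit 464) (nat_lit 493858305440582043680)) (.cons (.br (nat_lit 9) (nat_lit 0) (.cons (.rf (nat_lit 463) (nat_lit 493858305440582043680)) (.cons (.ev (nat_lit 20282410812595937064125112320001) (nat_lit 1)) (.cons (.rf (nat_lit 464) (nat_lit 493858305440582043680))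 .nil)))) .nil))))) .nil)) .nil)) .nil)) .nil)))) (.cons (.br (nat_lit 12) (nat_lit 0) (.cons (.rf (nat_lit 468) (nat_lit 493858305440582043680)) (.cons (.rf (nat_lit 473) (nat_lit 493858305440582043680)) (.cons (.br (nat_lit 12) (nat_lit 0) (.cons (.rf (nat_lit 468) (nat_lit 493858305440582043680)) (.cons (.rf (nat_lit 473) (nat_lit 493858305440582043680)) .nil))) .nil)))) .nil)))),
 (.br (nat_lit 6) (nat_lit 0) (.cons (.rf (nat_lit 460) (nat_lit 14242959524133701664)) (.cons (.br (nat_lit 4) (nat_lit 0) (.cons (.br (nat_lit 5) (nat_lit 1) (.cons (.rf (nat_lit 112) (nat_lit 1314504447074)) (.cons (.rf (nat_lit 123) (nat_lit 13907936528172099)) (.cons (.rf (nat_lit 123) (nat_lit 12817220993418307)) .nil)))) (.cons (.rf (nat_lit 110) (nat_lit 6547379232)) (.cons (.br (nat_lit 3) (nat_lit 1) (.cons (.rf (nat_lit 117) (nat_lit 5708281259075)) (.cons (.rf (nat_lit 455) (nat_lit 482283295248360513)) (.cons (.rf (nat_lit 455) (nat_lit 481192579713606721)) .nil)))) .nil)))) (.cons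 (.br (nat_lit 3) (nat_lit 1) (.cons (.br (nat_lit 5) (nat_lit 1) (.cons (.rf (nat_lit 318) (nat_lit 7978073787424)) (.cons (.rf (nat_lit 462) (nat_lit 493858305440582043680)) (.cons (.rf (nat_lit 462) (nat_lit 492741412732994160672)) .nil)))) (.cons (.rf (nat_lit 318) (nat_lit 6743273801824)) (.cons (.rf (nat_lit 474) (nat_lit 493858305440582043680)) (.cons (.rf (nat_lit 474) (nat_lit 492741412732994160672)) .nil))))) .nil)))),
 (.br (nat_lit 4) (nat_lit 1) (.cons (.rf (nat_lit 4) (nat_lit 13836500414333057)) (.cons (.rf (nat_lit 455) (nat_lit 445092346647971072)) (.cons (.rf (nat_lit 455) (nat_lit 444001631113217280)) .nil)))),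
 (.br (nat_lit 5) (nat_lit 1) (.cons (.br (nat_lit 1) (nat_lit 0) (.cons (.br (nat_lit 5) (nat_lit 0) (.cons (.ev (nat_lit 20283031005727090243015291240449) (nat_lit 2)) .nil)) (.cons (.br (nat_lit 3) (nat_lit 0) (.cons (.ev (nat_lit 20282409608392699826979895181315) (nat_lit 2)) .nil)) (.cons (.br (nat_lit 3) (nat_lit 0) (.cons (.ev (nat_lit 1213648258437667362963456) (nat_lit 1)) .nil)) .nil)))) .nil)),
 (.br (nat_lit 13) (nat_lit 1) (.cons (.br (nat_lit 2) (nat_lit 0) (.cons (.br (nat_lit 3) (nat_lit 0) (.cons (.rf (nat_lit 73) (nat_lit 307301408)) (.cons (.br (nat_lit 5) (nat_lit 0) (.cons (.br (nat_lit 3) (nat_lit 1) (.cons (.ev (nat_lit 20282719093383930590958930886656) (nat_lit 1)) (.cons (.ev (nat_lit 20361637770888373583483750055936) (nat_lit 1)) .nil))) .nil)) .nil))) (.cons (.ev (nat_lit 20282410812577562096174758952961) (nat_lit 1)) (.cons (.ev (nat_lit 20282410812595937064125112320001) (nat_lit 1)) (.cons (.br (nat_lit 3) (nat_lit 1) (.cons (.rf (nat_lit 477)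 (nat_lit 493858305440582043680)) (.cons (.rf (nat_lit 477) (nat_lit 492741412732994160672)) .nil))) .nil))))) .nil)),
 (.br (nat_lit 13) (nat_lit 1) (.cons (.rf (nat_lit 478) (nat_lit 493858305440582043680)) (.cons (.rf (nat_lit 478) (nat_lit 492741412732994160672)) .nil))),
 (.br (nat_lit 2) (nat_lit 1) (.cons (.rf (nat_lit 425) (nat_lit 407894870741590017)) (.cons (.rf (nat_lit 456) (nat_lit 14242952927063941152)) (.cons (.rf (nat_lit 456) (nat_lit 14208050029951819808)) .nil)))),
 (.br (nat_lit 5) (nat_lit 1) (.cons (.rf (nat_lit 479) (nat_lit 493858305440582043680)) (.cons (.rf (nat_lit 480) (nat_lit 15433072045018188865)) .nil))),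
 (.br (nat_lit 6) (nat_lit 0) (.cons (.rf (nat_lit 460) (nat_lit 14242959524133701664)) (.cons (.rf (nat_lit 475) (nat_lit 14242959524133701664)) (.cons (.br (nat_lit 7) (nat_lit 0) (.cons (.rf (nat_lit 453) (nat_lit 13908934001828929)) (.cons (.rf (nat_lit 476) (nat_lit 15433072045018188865)) (.cons (.br (nat_lit 5) (nat_lit 1) (.cons (.rf (nat_lit 479) (nat_lit 493858305440582043680)) (.cons (.rf (nat_lit 481) (nat_lit 493858305440582043680)) (.cons (.rf (nat_lit 481) (nat_lit 492741412732994160672)) .nil)))) .nil)))) .nil)))),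
 (.br (nat_lit 10) (nat_lit 1) (.cons (.rf (nat_lit 389) (nat_lit 11584701642934304)) (.cons (.rf (nat_lit 452) (nat_lit 11584701642934304)) (.cons (.br (nat_lit 10) (nat_lit 1) (.cons (.rf (nat_lit 389) (nat_lit 11584701642934304)) (.cons (.rf (nat_lit 452) (nat_lit 11584701642934304)) (.cons (.br (nat_lit 11) (nat_lit 1) (.cons (.br (nat_lit 6) (nat_lit 0) (.cons (.rf (nat_lit 460) (nat_lit 14242959524133701664)) (.cons (.rf (nat_lit 475) (nat_lit 14242959524133701664)) (.cons (.rf (nat_lit 482) (nat_lit 14242959524133701664)) (.cons (.br (nat_lit 6) (nat_lit 0) (.cons (.rf (nat_lit 460) (nat_lit 14242959524133701664)) (.cons (.rf (nat_lit 475) (nat_lit 14242959524133701664)) (.cons (.rf (nat_lit 482) (nat_lit 14242959524133701664)) .nil)))) .nil))))) .nil)) .nil)))) .nil)))),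
 (.br (nat_lit 8) (nat_lit 0) (.cons (.rf (nat_lit 318) (nat_lit 9043225708576)) (.cons (.br (nat_lit 10) (nat_lit 1) (.cons (.rf (nat_lit 389) (nat_lit 11584701642934304)) (.cons (.rf (nat_lit 452) (nat_lit 11584701642934304)) (.cons (.rf (nat_lit 483) (nat_lit 11584701642934304)) (.cons (.br (nat_lit 10) (nat_lit 1) (.cons (.rf (nat_lit 389) (nat_lit 11584701642934304)) (.cons (.rf (nat_lit 452) (nat_lit 11584701642934304)) (.cons (.rf (nat_lit 483) (nat_lit 11584701642934304)) (.cons (.br (nat_lit 10) (nat_lit 1) (.cons (.rf (nat_lit 389) (nat_lit 11584701642934304)) (.cons (.rf (nat_lit 452) (nat_lit 11584701642934304)) (.cons (.rf (nat_lit 483) (nat_lit 11584701642934304)) .nil)))) .nil))))) .nil))))) .nil))),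
 (.br (nat_lit 13) (nat_lit 0) (.cons (.rf (nat_lit 266) (nat_lit 10857347717932353568)) (.cons (.br (nat_lit 2) (nat_lit 0) (.cons (.ev (nat_lit 4740885285641216131328) (nat_lit 1)) .nil)) (.cons (.kr (nat_lit 79537647524157740256306659840) (nat_lit 18447027752004485120) (nat_lit 1) (nat_lit 0)) .nil)))),
 (.br (nat_lit 5) (nat_lit 0) (.cons (.br (nat_lit 3) (nat_lit 0) (.cons (.ev (nat_lit 20361947251175828164203574788353) (nat_lit 1)) .nil)) (.cons (.rf (nat_lit 236) (nat_lit 10854075571328092192)) (.cons (.rf (nat_lit 378) (nat_lit 345167598580854196320)) .nil)))),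
 (.br (nat_lit 13) (nat_lit 0) (.cons (.rf (nat_lit 485) (nat_lit 493858305440582043680)) (.cons (.rf (nat_lit 486) (nat_lit 493858305440582043680)) (.cons (.br (nat_lit 1) (nat_lit 0) (.cons (.ev (nat_lit 20282410812595936783753942139136) (nat_lit 1)) .nil)) .nil)))),
 (.br (nat_lit 7) (nat_lit 0) (.cons (.br (nat_lit 6) (nat_lit 0) (.cons (.br (nat_lit 12) (nat_lit 0) (.cons (.br (nat_lit 13) (nat_lit 0) (.cons (.rf (nat_lit 485) (nat_lit 493858305440582043680)) (.cons (.rf (nat_lit 486) (nat_lit 493858305440582043680)) (.cons (.rf (nat_lit 487) (nat_lit 493858305440582043680)) (.cons (.br (nat_lit 13) (nat_lit 0) (.cons (.kr (nat_lit 79537647524157740256306659840) (nat_lit 18447027752004485120) (nat_lit 1) (nat_lit 0)) (.cons (.rf (nat_lit 378) (nat_lit 345167598580854196320)) (.cons (.rf (nat_lit 487) (nat_lit 493858305440582043680)) .nil)))) .nil))))) .nil)) .nil)) (.cons (.rf (nat_lit 484) (nat_lit 465380153822368)) .nil))),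
 (.br (nat_lit 12) (nat_lit 0) (.cons (.rf (nat_lit 488) (nat_lit 14242959524133701664)) (.cons (.br (nat_lit 5) (nat_lit 1) (.cons (.rf (nat_lit 484) (nat_lit 470973302281248)) (.cons (.br (nat_lit 6) (nat_lit 0) (.cons (.br (nat_lit 2) (nat_lit 0) (.cons (.br (nat_lit 3) (nat_lit 0) (.cons (.rf (nat_lit 73) (nat_lit 441519136)) (.cons (.br (nat_lit 5) (nat_lit 0) (.cons (.ev (nat_lit 40565131110183248167403404657152) (nat_lit 2)) .nil)) .nil))) (.cons (.ev (nat_lit 1213648258155097169592321) (nat_lit 1)) (.cons (.ev (nat_lit 310698676526245339098775553) (nat_lit 1)) (.cons (.br (nat_lit 1) (nat_lit 0) (.cons (.br (nat_lit 5) (nat_lit 0) (.cons (.ev (nat_lit 20361637766184453564308054409473) (nat_lit 1)) .nil)) (.cons (.zr (nat_lit 929663973730956859012087810) (nat_lit 237684487542937129072514302464) (nat_lit 5) (nat_lit 10)) (.cons (.rf (nat_lit 351) (nat_lit 14241974361715214368)) .nil)))) .nil))))) .nil)) .nil))) .nil))),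
 (.br (nat_lit 5) (nat_lit 1) (.cons (.br (nat_lit 9) (nat_lit 1) (.cons (.br (nat_lit 12) (nat_lit 0) (.cons (.kr (nat_lit 309485028268089146729299968) (nat_lit 79228162514336676662558588928) (nat_lit 4) (nat_lit 0)) .nil)) .nil)) (.cons (.br (nat_lit 13) (nat_lit 1) (.cons (.rf (nat_lit 484) (nat_lit 465380153822368)) (.cons (.rf (nat_lit 38) (nat_lit 11104784090533)) .nil))) .nil))),
 (.br (nat_lit 9) (nat_lit 1) (.cons (.rf (nat_lit 490) (nat_lit 493858305440582043680)) (.cons (.br (nat_lit 5) (nat_lit 1) (.cons (.br (nat_lit 12) (nat_lit 0) (.cons (.kr (nat_lit 309485028268089146729299968) (nat_lit 79228162514336676662558588928) (nat_lit 4) (nat_lit 0)) .nil)) (.cons (.br (nat_lit 6) (nat_lit 0) (.cons (.kr (nat_lit 309485028268089146729299968) (nat_lit 79228162514336676662558588928) (nat_lit 4) (nat_lit 0)) .nil)) .nil))) .nil))),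
 (.br (nat_lit 11) (nat_lit 0) (.cons (.br (nat_lit 12) (nat_lit 0) (.cons (.rf (nat_lit 488) (nat_lit 14242959524133701664)) (.cons (.rf (nat_lit 489) (nat_lit 14242959524133701664)) (.cons (.br (nat_lit 12) (nat_lit 0) (.cons (.rf (nat_lit 488) (nat_lit 14242959524133701664)) (.cons (.rf (nat_lit 489) (nat_lit 14242959524133701664)) .nil))) .nil)))) (.cons (.br (nat_lit 9) (nat_lit 1) (.cons (.rf (nat_lit 490) (nat_lit 493858305440582043680)) (.cons (.rf (nat_lit 491) (nat_lit 493858305440582043680)) (.cons (.br (nat_lit 9) (nat_lit 1) (.cons (.rf (nat_lit 490) (nat_lit 493858305440582043680)) (.cons (.rf (nat_lit 491) (nat_lit 493858305440582043680)) .nil))) .nil)))) .nil))),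
 (.br (nat_lit 2) (nat_lit 0) (.cons (.rf (nat_lit 73) (nat_lit 439519264)) (.cons (.br (nat_lit 3) (nat_lit 0) (.cons (.ev (nat_lit 20282720302309677866514795987201) (nat_lit 1)) .nil)) .nil))),
 (.br (nat_lit 3) (nat_lit 0) (.cons (.ev (nat_lit 310693954087986346097377536) (nat_lit 1)) .nil)),
 (.br (nat_lit 5) (nat_lit 1) (.cons (.br (nat_lit 9) (nat_lit 1) (.cons (.br (nat_lit 12) (nat_lit 0) (.cons (.br (nat_lit 2) (nat_lit 0) (.cons (.br (nat_lit 3) (nat_lit 0) (.cons (.rf (nat_lit 73) (nat_lit 441519136)) (.cons (.br (nat_lit 5) (nat_lit 0) (.cons (.zr (nat_lit 14167244130045499801603) (nat_lit 311902879907318405112398336) (nat_lit 10) (nat_lit 5)) .nil)) .nil))) (.cons (.ev (nat_lit 1213648258155097169592321) (nat_lit 1)) (.cons (.br (nat_lit 3) (nat_lit 0) (.cons (.rf (nat_lit 73) (nat_lit 441550880)) (.cons (.ev (nat_lit 310693954159762465175371776) (nat_lit 1)) .nil))) (.cons (.br (nat_lit 1) (nat_lit 0) (.cons (.ev (nat_lit 309489750634572016374579456) (nat_lit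 1)) (.cons (.br (nat_lit 3) (nat_lit 0) (.cons (.ev (nat_lit 20282409608392483932365582827776) (nat_lit 1)) .nil)) (.cons (.rf (nat_lit 469) (nat_lit 14540783847456)) .nil)))) .nil))))) .nil)) .nil)) (.cons (.br (nat_lit 7) (nat_lit 0) (.cons (.br (nat_lit 12) (nat_lit 0) (.cons (.br (nat_lit 1) (nat_lit 0) (.cons (.ev (nat_lit 1213666705180645839077633) (nat_lit 1)) (.cons (.ev (nat_lit 1213648186378978091598081) (nat_lit 1)) (.cons (.rf (nat_lit 493) (nat_lit 493858305440582043680)) (.cons (.br (nat_lit 2) (nat_lit 0) (.cons (.ev (nat_lit 80778043360182683803109165570) (nat_lit 4)) (.cons (.ev (nat_lit 310693935713299866425753856) (nat_lit 1)) (.cons (.rf (nat_lit 494) (nat_lit 493858305440582043680)) .nil)))) .nil))))) .nil)) (.cons (.br (nat_lit 9) (nat_lit 1) (.cons (.br (nat_lit 1) (nat_lit 0) (.cons (.rf (nat_lit 400) (nat_lit 346284492523242064928)) (.cons (.rf (nat_lit 400) (nat_lit 346284492523242096672)) (.cons (.rf (nat_lit 400) (nat_lit 346284492523175053344))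 (.cons (.br (nat_lit 2) (nat_lit 0) (.cons (.ev (nat_lit 309489750634572016374579456) (nat_lit 1)) (.cons (.br (nat_lit 3) (nat_lit 0) (.cons (.ev (nat_lit 72340168543109121) (nat_lit 1)) .nil)) (.cons (.rf (nat_lit 494) (nat_lit 493858305440582043680)) .nil)))) .nil))))) .nil)) .nil))) .nil))),
 (.br (nat_lit 1) (nat_lit 0) (.cons (.ev (nat_lit 20282409608392555708484660756736) (nat_lit 1)) .nil)),
 (.br (nat_lit 3) (nat_lit 0) (.cons (.ev (nat_lit 20282409608392555708484660756736) (nat_lit 1)) .nil)),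
 (.br (nat_lit 5) (nat_lit 1) (.cons (.rf (nat_lit 495) (nat_lit 493858305440582043680)) (.cons (.br (nat_lit 6) (nat_lit 0) (.cons (.br (nat_lit 12) (nat_lit 0) (.cons (.br (nat_lit 2) (nat_lit 0) (.cons (.ev (nat_lit 1213666705180645839142913) (nat_lit 1)) (.cons (.rf (nat_lit 493) (nat_lit 493858305407229002816)) (.cons (.rf (nat_lit 493) (nat_lit 493858305407296046144)) (.cons (.br (nat_lit 5) (nat_lit 0) (.cons (.ev (nat_lit 310693935713299866425819136) (nat_lit 1)) (.cons (.rf (nat_lit 496) (nat_lit 493858305440582043680)) (.cons (.kr (nat_lit 79537647524157740260601626624) (nat_lit 40564819207321787873443188834304) (nat_lit 4) (nat_lit 0)) .nil)))) .nil))))) .nil)) (.cons (.br (nat_lit 9) (nat_lit 1) (.cons (.br (nat_lit 2) (nat_lit 0) (.cons (.rf (nat_lit 400) (nat_lit 346284491424804146240)) (.cons (.ev (nat_lit 1213648258155097169592321) (nat_lit 1)) (.cons (.rf (nat_lit 400) (nat_lit 346284491424737166400)) (.cons (.br (nat_lit 1) (nat_lit 0) (.cons (.ev (nat_lit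 309489750634572016374579456) (nat_lit 1)) (.cons (.br (nat_lit 3) (nat_lit 0) (.cons (.ev (nat_lit 72340168543043841) (nat_lit 1)) .nil)) (.cons (.rf (nat_lit 497) (nat_lit 493858305440582043680)) .nil)))) .nil))))) .nil)) .nil))) .nil))),
 (.br (nat_lit 11) (nat_lit 0) (.cons (.rf (nat_lit 492) (nat_lit 14242959524133701664)) (.cons (.br (nat_lit 5) (nat_lit 1) (.cons (.rf (nat_lit 495) (nat_lit 493858305440582043680)) (.cons (.rf (nat_lit 498) (nat_lit 493858305440582043680)) (.cons (.br (nat_lit 5) (nat_lit 1) (.cons (.rf (nat_lit 495) (nat_lit 493858305440582043680)) (.cons (.rf (nat_lit 498) (nat_lit 493858305440582043680)) .nil))) .nil)))) .nil))),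
 (.br (nat_lit 11) (nat_lit 0) (.cons (.rf (nat_lit 492) (nat_lit 14242959524133701664)) (.cons (.rf (nat_lit 499) (nat_lit 14242959524133701664)) (.cons (.br (nat_lit 11) (nat_lit 0) (.cons (.rf (nat_lit 492) (nat_lit 14242959524133701664)) (.cons (.rf (nat_lit 499) (nat_lit 14242959524133701664)) .nil))) .nil)))),
 (.br (nat_lit 1) (nat_lit 0) (.cons (.br (nat_lit 5) (nat_lit 0) (.cons (.ev (nat_lit 620193149456089250772615170) (nat_lit 2)) .nil)) (.cons (.br (nat_lit 3) (nat_lit 0) (.cons (.ev (nat_lit 20282719093383930310579170836736) (nat_lit 1)) .nil)) (.cons (.ev (nat_lit 309489750634572016374579456) (nat_lit 1)) .nil)))),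
 (.br (nat_lit 5) (nat_lit 0) (.cons (.br (nat_lit 3) (nat_lit 0) (.cons (.ev (nat_lit 40723585026823389380739214606336) (nat_lit 2)) .nil)) (.cons (.br (nat_lit 2) (nat_lit 0) (.cons (.ev (nat_lit 20282409608392555708484660756736) (nat_lit 1)) .nil)) (.cons (.ev (nat_lit 20282719093402304997058842460416) (nat_lit 1)) .nil)))),
 (.br (nat_lit 13) (nat_lit 0) (.cons (.rf (nat_lit 502) (nat_lit 493858305440582043680)) (.cons (.kr (nat_lit 309485009821345073019748352) (nat_lit 20282409603651670705422227996672) (nat_lit 4) (nat_lit 0)) (.cons (.br (nat_lit 1) (nat_lit 0) (.cons (.ev (nat_lit 20282410812595936783753942204416) (nat_lit 1)) .nil)) .nil))))]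

theorem c12 : chkAll C T R L12 (nat_lit 474) = true := by decide +kernel

theorem l12 : (nat_lit 474) + L12.length = (nat_lit 504) := by decide +kernel

/-- part of the certificates -/
def L13 : List Prf := [(.br (nat_lit 3) (nat_lit 0) (.cons (.rf (nat_lit 73) (nat_lit 406916128)) (.cons (.br (nat_lit 4) (nat_lit 0) (.cons (.ev (nat_lit 79537652246524223125951873024) (nat_lit 1)) .nil)) .nil))),
 (.br (nat_lit 13) (nat_lit 0) (.cons (.rf (nat_lit 497) (nat_lit 492741412732994160672)) (.cons (.rf (nat_lit 390) (nat_lit 377304166455054601248)) (.cons (.rf (nat_lit 497) (nat_lit 492741412732893500448)) .nil)))),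
 (.br (nat_lit 12) (nat_lit 0) (.cons (.rf (nat_lit 500) (nat_lit 14242959524133701664)) (.cons (.br (nat_lit 3) (nat_lit 1) (.cons (.br (nat_lit 5) (nat_lit 1) (.cons (.rf (nat_lit 318) (nat_lit 7975928400928)) (.cons (.br (nat_lit 13) (nat_lit 1) (.cons (.rf (nat_lit 484) (nat_lit 465372765555744)) (.cons (.rf (nat_lit 70) (nat_lit 9263733570635173)) .nil))) .nil))) (.cons (.br (nat_lit 5) (nat_lit 1) (.cons (.rf (nat_lit 318) (nat_lit 6743273801824)) (.cons (.br (nat_lit 13) (nat_lit 1) (.cons (.rf (nat_lit 484) (nat_lit 464140110956640)) (.cons (.rf (nat_lit 60) (nat_lit 10248039796133)) .nil))) .nil))) (.cons (.br (nat_lit 5) (nat_lit 1) (.cons (.br (nat_lit 11) (nat_lit 0) (.cons (.br (nat_lit 7) (nat_lit 0) (.cons (.br (nat_lit 13) (nat_lit 0) (.cons (.br (nat_lit 13) (nat_lit 0) (.cons (.ev (nat_lit 309489750634572016374579456) (nat_lit 1)) (.cons (.zr (nat_lit 310698676454186641254253827) (nat_lit 40564819207303341692332367937536) (nat_lit 5) (nat_lit 0)) (.cons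 (.ev (nat_lit 310693954087986346097377536) (nat_lit 1)) .nil)))) (.cons (.rf (nat_lit 501) (nat_lit 493858305440582043680)) (.cons (.br (nat_lit 1) (nat_lit 0) (.cons (.rf (nat_lit 411) (nat_lit 346284492523242064928)) (.cons (.rf (nat_lit 411) (nat_lit 377304166455054601248)) (.cons (.zr (nat_lit 310698676454186641254253827) (nat_lit 40564819207303341692332367937536) (nat_lit 5) (nat_lit 0)) .nil)))) (.cons (.rf (nat_lit 501) (nat_lit 487984524279043691552)) .nil))))) .nil)) (.cons (.rf (nat_lit 484) (nat_lit 469908150391840)) .nil))) (.cons (.br (nat_lit 6) (nat_lit 0) (.cons (.br (nat_lit 11) (nat_lit 0) (.cons (.br (nat_lit 13) (nat_lit 0) (.cons (.rf (nat_lit 502) (nat_lit 493858305440582043680)) (.cons (.br (nat_lit 5) (nat_lit 0) (.cons (.ev (nat_lit 80778033878408741400711661060) (nat_lit 3)) (.cons (.rf (nat_lit 496) (nat_lit 492741412732994160672)) (.cons (.kr (nat_lit 79537647524157740260601626624) (nat_lit 40564819207321787873443188834304) (nat_lit 4) (nat_lit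 0)) .nil)))) (.cons (.rf (nat_lit 503) (nat_lit 493858305440582043680)) (.cons (.br (nat_lit 13) (nat_lit 0) (.cons (.ev (nat_lit 20361637770888373584583261683968) (nat_lit 1)) (.cons (.kr (nat_lit 79537647524157740260601626624) (nat_lit 40564819207321787873443188834304) (nat_lit 4) (nat_lit 0)) (.cons (.rf (nat_lit 503) (nat_lit 493858305440582043680)) .nil)))) .nil))))) .nil)) (.cons (.br (nat_lit 9) (nat_lit 1) (.cons (.br (nat_lit 1) (nat_lit 0) (.cons (.rf (nat_lit 504) (nat_lit 15433072045018155040)) (.cons (.kr (nat_lit 2427314819220546326102020) (nat_lit 79537647524301855448711037440) (nat_lit 0) (nat_lit 2)) (.cons (.br (nat_lit 2) (nat_lit 0) (.cons (.rf (nat_lit 73) (nat_lit 439519264)) (.cons (.br (nat_lit 3) (nat_lit 0) (.cons (.ev (nat_lit 80159063822306599729021322756) (nat_lit 3)) .nil)) .nil))) (.cons (.rf (nat_lit 505) (nat_lit 493858305440582043680)) .nil))))) .nil)) .nil))) (.cons (.br (nat_lit 7) (nat_lit 0) (.cons (.br (nat_lit 6) (nat_lit 0) (.cons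 (.br (nat_lit 1) (nat_lit 0) (.cons (.rf (nat_lit 504) (nat_lit 15433072045018155040)) (.cons (.rf (nat_lit 504) (nat_lit 15433072011732126752)) (.cons (.br (nat_lit 2) (nat_lit 0) (.cons (.rf (nat_lit 73) (nat_lit 439519264)) (.cons (.br (nat_lit 3) (nat_lit 0) (.cons (.ev (nat_lit 284036369414060870277717287109636) (nat_lit 4)) .nil)) .nil))) (.cons (.br (nat_lit 5) (nat_lit 0) (.cons (.kr (nat_lit 309485009893402662762709248) (nat_lit 18447026648197890048) (nat_lit 1) (nat_lit 0)) (.cons (.kr (nat_lit 309485009821345068724781312) (nat_lit 282574488338432) (nat_lit 1) (nat_lit 0)) (.cons (.kr (nat_lit 79537647524157740256306659840) (nat_lit 18447027752004485120) (nat_lit 1) (nat_lit 0)) .nil)))) .nil))))) .nil)) (.cons (.rf (nat_lit 484) (nat_lit 465381226515616)) .nil))) .nil)))) .nil)))) .nil))),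
 (.br (nat_lit 12) (nat_lit 0) (.cons (.rf (nat_lit 500) (nat_lit 14242959524133701664)) (.cons (.rf (nat_lit 506) (nat_lit 14242959524133701664)) (.cons (.br (nat_lit 12) (nat_lit 0) (.cons (.rf (nat_lit 500) (nat_lit 14242959524133701664)) (.cons (.rf (nat_lit 506) (nat_lit 14242959524133701664)) .nil))) .nil)))),
 (.br (nat_lit 12) (nat_lit 0) (.cons (.rf (nat_lit 500) (nat_lit 14242959524133701664)) (.cons (.rf (nat_lit 507) (nat_lit 14242959524133701664)) (.cons (.br (nat_lit 12) (nat_lit 0) (.cons (.rf (nat_lit 500) (nat_lit 14242959524133701664)) (.cons (.rf (nat_lit 507) (nat_lit 14242959524133701664)) .nil))) .nil)))),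
 (.br (nat_lit 10) (nat_lit 1) (.cons (.br (nat_lit 11) (nat_lit 1) (.cons (.br (nat_lit 12) (nat_lit 0) (.cons (.rf (nat_lit 500) (nat_lit 14242959524133701664)) (.cons (.rf (nat_lit 507) (nat_lit 14242959524133701664)) (.cons (.rf (nat_lit 508) (nat_lit 14242959524133701664)) (.cons (.br (nat_lit 12) (nat_lit 0) (.cons (.rf (nat_lit 500) (nat_lit 14242959524133701664)) (.cons (.rf (nat_lit 507) (nat_lit 14242959524133701664)) (.cons (.rf (nat_lit 508) (nat_lit 14242959524133701664)) .nil)))) .nil))))) .nil)) .nil)),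
 (.br (nat_lit 5) (nat_lit 0) (.cons (.ev (nat_lit 310693954087986346097377536) (nat_lit 1)) (.cons (.ev (nat_lit 121775238045306305651547475805696) (nat_lit 3)) .nil))),
 (.br (nat_lit 7) (nat_lit 0) (.cons (.rf (nat_lit 509) (nat_lit 10493983862133792)) (.cons (.br (nat_lit 11) (nat_lit 0) (.cons (.br (nat_lit 9) (nat_lit 1) (.cons (.br (nat_lit 12) (nat_lit 0) (.cons (.br (nat_lit 3) (nat_lit 0) (.cons (.ev (nat_lit 1213648186378978091598081) (nat_lit 1)) (.cons (.rf (nat_lit 252) (nat_lit 490436728508107491424)) (.cons (.rf (nat_lit 252) (nat_lit 491589612697937810528)) (.cons (.br (nat_lit 1) (nat_lit 0) (.cons (.rf (nat_lit 510) (nat_lit 493858305440582043680)) (.cons (.rf (nat_lit 510) (nat_lit 493857214722801243168)) (.cons (.ev (nat_lit 1213666704899166567399681) (nat_lit 1)) .nil)))) .nil))))) .nil)) .nil)) (.cons (.rf (nat_lit 319) (nat_lit 10488623906632741)) .nil))) .nil))),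
 (.br (nat_lit 7) (nat_lit 0) (.cons (.rf (nat_lit 509) (nat_lit 10493983862133792)) (.cons (.br (nat_lit 5) (nat_lit 1) (.cons (.br (nat_lit 9) (nat_lit 1) (.cons (.br (nat_lit 12) (nat_lit 0) (.cons (.br (nat_lit 1) (nat_lit 0) (.cons (.rf (nat_lit 400) (nat_lit 382059962061021056032)) (.cons (.rf (nat_lit 400) (nat_lit 382059962061021087776)) (.cons (.rf (nat_lit 400) (nat_lit 382059962060954044448)) (.cons (.br (nat_lit 3) (nat_lit 0) (.cons (.ev (nat_lit 80782860137099470868123354118) (nat_lit 3)) (.cons (.ev (nat_lit 80780451730193772523810718726) (nat_lit 3)) (.cons (.ev (nat_lit 1213648258436567851335681) (nat_lit 1)) .nil)))) .nil))))) .nil)) .nil)) (.cons (.br (nat_lit 11) (nat_lit 0) (.cons (.br (nat_lit 12) (nat_lit 0) (.cons (.kr (nat_lit 79228162532711081671548469248) (nat_lit 309485009893684137739419648) (nat_lit 4) (nat_lit 0)) .nil)) (.cons (.rf (nat_lit 484) (nat_lit 469908150391840)) .nil))) .nil))) .nil))),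
 (.br (nat_lit 7) (nat_lit 0) (.cons (.rf (nat_lit 511) (nat_lit 14242959524133701664)) (.cons (.rf (nat_lit 512) (nat_lit 14242959524133701664)) (.cons (.br (nat_lit 7) (nat_lit 0) (.cons (.rf (nat_lit 511) (nat_lit 14242959524133701664)) (.cons (.rf (nat_lit 512) (nat_lit 14242959524133701664)) .nil))) .nil)))),
 (.br (nat_lit 3) (nat_lit 1) (.cons (.rf (nat_lit 318) (nat_lit 6743273801824)) (.cons (.rf (nat_lit 513) (nat_lit 14242959524133701664)) (.cons (.rf (nat_lit 513) (nat_lit 13126066816545818656)) .nil)))),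
 (.br (nat_lit 10) (nat_lit 0) (.cons (.br (nat_lit 11) (nat_lit 0) (.cons (.kr (nat_lit 1208925891672223229411328) (nat_lit 309485009821627643213119488) (nat_lit 3) (nat_lit 0)) .nil)) .nil)),
 (.br (nat_lit 2) (nat_lit 0) (.cons (.br (nat_lit 5) (nat_lit 0) (.cons (.ev (nat_lit 20282410812595936783753942204416) (nat_lit 1)) .nil)) (.cons (.br (nat_lit 3) (nat_lit 0) (.cons (.ev (nat_lit 20282720297587311383649462583296) (nat_lit 1)) .nil)) (.cons (.br (nat_lit 3) (nat_lit 0) (.cons (.ev (nat_lit 40723895711332888236162893807619) (nat_lit 2)) .nil)) .nil)))),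
 (.br (nat_lit 1) (nat_lit 0) (.cons (.ev (nat_lit 79540084283998719898160332802) (nat_lit 3)) (.cons (.ev (nat_lit 80778024397071080865877065730) (nat_lit 3)) (.cons (.rf (nat_lit 516) (nat_lit 493858305440582043680)) .nil)))),
 (.br (nat_lit 1) (nat_lit 0) (.cons (.ev (nat_lit 1213648258436567851401473) (nat_lit 1)) (.cons (.rf (nat_lit 434) (nat_lit 340411804209788323872)) (.cons (.rf (nat_lit 516) (nat_lit 493858305440582043680)) .nil)))),
 (.br (nat_lit 7) (nat_lit 0) (.cons (.rf (nat_lit 515) (nat_lit 445092485129178177)) (.cons (.br (nat_lit 9) (nat_lit 1) (.cons (.br (nat_lit 12) (nat_lit 0) (.cons (.br (nat_lit 13) (nat_lit 0) (.cons (.rf (nat_lit 516) (nat_lit 493858305440582043680)) (.cons (.rf (nat_lit 517) (nat_lit 493858305440582043680)) (.cons (.rf (nat_lit 518) (nat_lit 493858305440582043680)) (.cons (.br (nat_lit 13) (nat_lit 0) (.cons (.rf (nat_lit 516) (nat_lit 493858305440582043680)) (.cons (.rf (nat_lit 517) (nat_lit 493858305440582043680)) (.cons (.rf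 (nat_lit 518) (nat_lit 493858305440582043680)) .nil)))) .nil))))) .nil)) (.cons (.br (nat_lit 11) (nat_lit 0) (.cons (.kr (nat_lit 309485028268089146729299968) (nat_lit 79228162514336676662558588928) (nat_lit 4) (nat_lit 0)) .nil)) .nil))) .nil))),
 (.br (nat_lit 3) (nat_lit 0) (.cons (.ev (nat_lit 20361638979814120859039615221761) (nat_lit 1)) .nil)),
 (.br (nat_lit 12) (nat_lit 0) (.cons (.rf (nat_lit 519) (nat_lit 14242959524133701664)) (.cons (.br (nat_lit 3) (nat_lit 1) (.cons (.br (nat_lit 11) (nat_lit 0) (.cons (.kr (nat_lit 309485028268089146729299968) (nat_lit 79228162514336676662558588928) (nat_lit 4) (nat_lit 0)) .nil)) (.cons (.br (nat_lit 7) (nat_lit 0) (.cons (.br (nat_lit 2) (nat_lit 0) (.cons (.br (nat_lit 3) (nat_lit 0) (.cons (.rf (nat_lit 73) (nat_lit 441519136)) (.cons (.ev (nat_lit 1213648258436567851401473) (nat_lit 1)) .nil))) (.cons (.rf (nat_lit 129) (nat_lit 445092656994913312)) (.cons (.br (nat_lit 1) (nat_lit 0) (.cons (.ev (nat_lit 18447026648214667521)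 (nat_lit 1)) (.cons (.rf (nat_lit 520) (nat_lit 493858305440582043680)) .nil))) (.cons (.br (nat_lit 1) (nat_lit 0) (.cons (.ev (nat_lit 79540084283998719898160332802) (nat_lit 3)) (.cons (.br (nat_lit 3) (nat_lit 0) (.cons (.ev (nat_lit 80778005433531068616280244230) (nat_lit 3)) .nil)) (.cons (.br (nat_lit 3) (nat_lit 0) (.cons (.ev (nat_lit 40564820420970046313309558341632) (nat_lit 2)) .nil)) .nil)))) .nil))))) .nil)) .nil))) .nil))),
 (.br (nat_lit 5) (nat_lit 0) (.cons (.ev (nat_lit 20361948460101648061407220990208) (nat_lit 1)) .nil)),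
 (.br (nat_lit 3) (nat_lit 0) (.cons (.rf (nat_lit 522) (nat_lit 493858305440582043680)) (.cons (.ev (nat_lit 309489732188109417658515456) (nat_lit 1)) (.cons (.ev (nat_lit 1213648258436567851335681) (nat_lit 1)) .nil)))),
 (.br (nat_lit 3) (nat_lit 0) (.cons (.br (nat_lit 5) (nat_lit 0) (.cons (.ev (nat_lit 310698676526526809780518913) (nat_lit 1)) .nil)) (.cons (.ev (nat_lit 80780442211960934957370573828) (nat_lit 3)) (.cons (.ev (nat_lit 1213648258436567851335681) (nat_lit 1)) .nil)))),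
 (.br (nat_lit 10) (nat_lit 0) (.cons (.kr (nat_lit 1208925891672223229411328) (nat_lit 309485009821627643213119488) (nat_lit 3) (nat_lit 0)) .nil)),
 (.br (nat_lit 1) (nat_lit 0) (.cons (.br (nat_lit 5) (nat_lit 0) (.cons (.zr (nat_lit 158459951805987519083202150405) (nat_lit 928455047911062953917416448) (nat_lit 10) (nat_lit 2)) .nil)) (.cons (.br (nat_lit 3) (nat_lit 0) (.cons (.zr (nat_lit 313111787280188964839030789) (nat_lit 158456325046975702934830973952) (nat_lit 10) (nat_lit 2)) .nil)) (.cons (.ev (nat_lit 79538861172272061640360329473) (nat_lit 1)) .nil)))),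
 (.br (nat_lit 6) (nat_lit 0) (.cons (.rf (nat_lit 318) (nat_lit 7975928400928)) (.cons (.br (nat_lit 12) (nat_lit 0) (.cons (.rf (nat_lit 519) (nat_lit 14242959524133701664)) (.cons (.rf (nat_lit 521) (nat_lit 14242959524133701664)) (.cons (.br (nat_lit 12) (nat_lit 0) (.cons (.rf (nat_lit 519) (nat_lit 14242959524133701664)) (.cons (.rf (nat_lit 521) (nat_lit 14242959524133701664)) .nil))) .nil)))) (.cons (.br (nat_lit 3) (nat_lit 1) (.cons (.rf (nat_lit 484) (nat_lit 464140110956640)) (.cons (.br (nat_lit 7) (nat_lit 0) (.cons (.br (nat_lit 9) (nat_lit 1) (.cons (.br (nat_lit 12) (nat_lit 0) (.cons (.br (nat_lit 13) (nat_lit 0) (.cons (.br (nat_lit 2) (nat_lit 0) (.cons (.rf (nat_lit 439) (nat_lit 346284491391518214176)) (.cons (.rf (nat_lit 504) (nat_lit 15208983878893147200)) (.cons (.rf (nat_lit 523) (nat_lit 493858305440582043680)) .nil)))) (.cons (.rf (nat_lit 523) (nat_lit 493858305440582043680)) (.cons (.ev (nat_lit 1213648258436567851335681) (nat_lit 1)) (.cons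 (.br (nat_lit 2) (nat_lit 0) (.cons (.rf (nat_lit 439) (nat_lit 346284491391451039904)) (.cons (.rf (nat_lit 439) (nat_lit 346284491391383996576)) (.cons (.rf (nat_lit 523) (nat_lit 493858305440582043680)) .nil)))) .nil))))) .nil)) .nil)) (.cons (.rf (nat_lit 319) (nat_lit 10488623906624557)) .nil))) (.cons (.br (nat_lit 7) (nat_lit 0) (.cons (.br (nat_lit 9) (nat_lit 1) (.cons (.br (nat_lit 12) (nat_lit 0) (.cons (.br (nat_lit 13) (nat_lit 0) (.cons (.rf (nat_lit 524) (nat_lit 493858305440582043680)) (.cons (.br (nat_lit 13) (nat_lit 0) (.cons (.rf (nat_lit 524) (nat_lit 493858305440582043680)) (.cons (.ev (nat_lit 1213648258436567851335681) (nat_lit 1)) (.cons (.ev (nat_lit 4722438541563194834944) (nat_lit 1)) .nil)))) (.cons (.ev (nat_lit 1213648258436567851335681) (nat_lit 1)) (.cons (.ev (nat_lit 310698676526526809780518913) (nat_lit 1)) .nil))))) .nil)) (.cons (.rf (nat_lit 525) (nat_lit 15433072045018188865)) .nil))) (.cons (.br (nat_lit 11) (nat_lit 0) (.cons (.br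 (nat_lit 9) (nat_lit 1) (.cons (.br (nat_lit 13) (nat_lit 0) (.cons (.ev (nat_lit 1213666704899166567399681) (nat_lit 1)) (.cons (.rf (nat_lit 526) (nat_lit 493858305440582043680)) (.cons (.br (nat_lit 13) (nat_lit 0) (.cons (.ev (nat_lit 1213666704899166567399681) (nat_lit 1)) (.cons (.rf (nat_lit 526) (nat_lit 493858305440582043680)) (.cons (.ev (nat_lit 79230589847747041257116925954) (nat_lit 2)) .nil)))) (.cons (.br (nat_lit 13) (nat_lit 0) (.cons (.ev (nat_lit 1213666704899166567399681) (nat_lit 1)) (.cons (.rf (nat_lit 526) (nat_lit 493858305440582043680)) (.cons (.ev (nat_lit 79230589847747041257116925954) (nat_lit 2)) .nil)))) .nil))))) .nil)) .nil)) .nil))) .nil)))) .nil)))),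
 (.br (nat_lit 5) (nat_lit 1) (.cons (.rf (nat_lit 514) (nat_lit 14242959524133701664)) (.cons (.rf (nat_lit 527) (nat_lit 14242959524133701664)) (.cons (.rf (nat_lit 527) (nat_lit 13126066816545818656)) .nil)))),
 (.br (nat_lit 11) (nat_lit 0) (.cons (.kr (nat_lit 309485009893402662779486208) (nat_lit 1208925819897203663044608) (nat_lit 3) (nat_lit 0)) .nil)),
 (.br (nat_lit 6) (nat_lit 0) (.cons (.kr (nat_lit 72057594054705152) (nat_lit 282574488338432) (nat_lit 3) (nat_lit 0)) (.cons (.br (nat_lit 8) (nat_lit 1) (.cons (.rf (nat_lit 529) (nat_lit 14242959524133701664)) (.cons (.rf (nat_lit 529) (nat_lit 14208056627021580320)) .nil))) .nil))),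
 (.br (nat_lit 6) (nat_lit 0) (.cons (.rf (nat_lit 530) (nat_lit 445092485129178177)) (.cons (.rf (nat_lit 484) (nat_lit 464140110956640)) .nil))),
 (.br (nat_lit 3) (nat_lit 1) (.cons (.rf (nat_lit 484) (nat_lit 430190538853408)) (.cons (.rf (nat_lit 484) (nat_lit 430188393466912)) (.cons (.rf (nat_lit 484) (nat_lit 430195779636384)) (.cons (.rf (nat_lit 484) (nat_lit 430194706943136)) .nil)))))]

theorem c13 : chkAll C T R L13 (nat_lit 504) = true := by decide +kernel

theorem l13 : (nat_lit 504) + L13.length = (nat_lit 533) := by decide +kernel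

/-- part of the certificates -/
def L14 : List Prf := [(.br (nat_lit 5) (nat_lit 1) (.cons (.rf (nat_lit 514) (nat_lit 14242959524133701664)) (.cons (.rf (nat_lit 528) (nat_lit 14242959524133701664)) (.cons (.br (nat_lit 7) (nat_lit 0) (.cons (.rf (nat_lit 531) (nat_lit 14242959524133701664)) (.cons (.br (nat_lit 7) (nat_lit 0) (.cons (.rf (nat_lit 531) (nat_lit 14242959524133701664)) (.cons (.rf (nat_lit 532) (nat_lit 15433035725666355232)) .nil))) (.cons (.br (nat_lit 3) (nat_lit 1) (.cons (.rf (nat_lit 484) (nat_lit 465372765555744)) (.cons (.rf (nat_lit 531) (nat_lit 14242959524133701664)) (.cons (.rf (nat_lit 484) (nat_lit 465381226515616)) (.cons (.rf (nat_lit 484) (nat_lit 465380153822368)) .nil))))) .nil)))) .nil)))),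
 (.br (nat_lit 10) (nat_lit 1) (.cons (.rf (nat_lit 509) (nat_lit 11584701642934304)) (.cons (.br (nat_lit 10) (nat_lit 1) (.cons (.rf (nat_lit 509) (nat_lit 11584701642934304)) (.cons (.br (nat_lit 11) (nat_lit 1) (.cons (.br (nat_lit 5) (nat_lit 1) (.cons (.rf (nat_lit 514) (nat_lit 14242959524133701664)) (.cons (.rf (nat_lit 528) (nat_lit 14242959524133701664)) (.cons (.rf (nat_lit 533) (nat_lit 14242959524133701664)) (.cons (.rf (nat_lit 533) (nat_lit 13126066816545818656)) .nil))))) .nil)) .nil))) .nil))),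
 (.br (nat_lit 10) (nat_lit 0) (.cons (.br (nat_lit 11) (nat_lit 0) (.cons (.kr (nat_lit 1208925891672223229411328) (nat_lit 309485009821627643213119488) (nat_lit 3) (nat_lit 0)) .nil)) .nil)),
 (.br (nat_lit 11) (nat_lit 0) (.cons (.rf (nat_lit 535) (nat_lit 407901468851537952)) (.cons (.br (nat_lit 11) (nat_lit 0) (.cons (.rf (nat_lit 535) (nat_lit 407901468851537952)) .nil)) .nil))),
 (.br (nat_lit 4) (nat_lit 1) (.cons (.rf (nat_lit 536) (nat_lit 407901468851537952)) (.cons (.rf (nat_lit 536) (nat_lit 372998571739416608)) .nil))),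
 (.br (nat_lit 6) (nat_lit 0) (.cons (.br (nat_lit 11) (nat_lit 0) (.cons (.kr (nat_lit 309485009893402662779486208) (nat_lit 1208925819897203663044608) (nat_lit 3) (nat_lit 0)) .nil)) .nil)),
 (.br (nat_lit 11) (nat_lit 0) (.cons (.rf (nat_lit 538) (nat_lit 445092485129178177)) (.cons (.rf (nat_lit 484) (nat_lit 469908150391840)) .nil))),
 (.br (nat_lit 8) (nat_lit 0) (.cons (.rf (nat_lit 321) (nat_lit 9009939711040)) (.cons (.rf (nat_lit 321) (nat_lit 8941121668256)) .nil))),
 (.br (nat_lit 5) (nat_lit 0) (.cons (.ev (nat_lit 20282410812595936783753942204416) (nat_lit 1)) .nil)),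
 (.br (nat_lit 3) (nat_lit 0) (.cons (.br (nat_lit 5) (nat_lit 0) (.cons (.ev (nat_lit 20361948460101648061407221055488) (nat_lit 1)) .nil)) (.cons (.rf (nat_lit 465) (nat_lit 340411804207542277152)) (.cons (.ev (nat_lit 1213648258436567851335681) (nat_lit 1)) .nil)))),
 (.br (nat_lit 12) (nat_lit 0) (.cons (.rf (nat_lit 539) (nat_lit 14242959524133701664)) (.cons (.br (nat_lit 5) (nat_lit 1) (.cons (.br (nat_lit 11) (nat_lit 0) (.cons (.br (nat_lit 3) (nat_lit 0) (.cons (.rf (nat_lit 540) (nat_lit 14540783847456)) (.cons (.ev (nat_lit 1213648258155097169592321) (nat_lit 1)) (.cons (.ev (nat_lit 1213648258436567851335681) (nat_lit 1)) (.cons (.br (nat_lit 1) (nat_lit 0) (.cons (.rf (nat_lit 541) (nat_lit 493858305440582043680)) (.cons (.rf (nat_lit 541) (nat_lit 493858305438335996960)) (.cons (.ev (nat_lit 40646216201646267075229288235522) (nat_lit 3)) .nil)))) .nil))))) .nil)) (.cons (.br (nat_lit 7) (nat_lit 0) (.cons (.br (nat_lit 13) (nat_lit 0) (.cons (.rf (nat_lit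 542) (nat_lit 493858305440582043680)) (.cons (.br (nat_lit 1) (nat_lit 0) (.cons (.rf (nat_lit 439) (nat_lit 346284492456670102592)) (.cons (.rf (nat_lit 439) (nat_lit 346284492456603059264)) (.cons (.rf (nat_lit 542) (nat_lit 493858305440582043680)) .nil)))) (.cons (.ev (nat_lit 1213648258436567851335681) (nat_lit 1)) (.cons (.br (nat_lit 1) (nat_lit 0) (.cons (.rf (nat_lit 439) (nat_lit 346284492456602961056)) (.cons (.rf (nat_lit 439) (nat_lit 346284492456569439392)) (.cons (.rf (nat_lit 542) (nat_lit 493858305440582043680)) .nil)))) .nil))))) .nil)) .nil))) .nil))),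
 (.br (nat_lit 2) (nat_lit 0) (.cons (.br (nat_lit 5) (nat_lit 0) (.cons (.ev (nat_lit 121775233228492204326776549278720) (nat_lit 3)) .nil)) (.cons (.br (nat_lit 3) (nat_lit 0) (.cons (.ev (nat_lit 79537675877093584460851708930) (nat_lit 3)) .nil)) (.cons (.br (nat_lit 3) (nat_lit 0) (.cons (.ev (nat_lit 79537675987918164091184874498) (nat_lit 3)) .nil)) .nil)))),
 (.br (nat_lit 11) (nat_lit 0) (.cons (.kr (nat_lit 309485009893402662779486208) (nat_lit 1208925819897203663044608) (nat_lit 3) (nat_lit 0)) .nil)),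
 (.br (nat_lit 5) (nat_lit 1) (.cons (.br (nat_lit 9) (nat_lit 1) (.cons (.br (nat_lit 12) (nat_lit 0) (.cons (.br (nat_lit 13) (nat_lit 0) (.cons (.rf (nat_lit 544) (nat_lit 493858305440582043680)) (.cons (.br (nat_lit 1) (nat_lit 0) (.cons (.ev (nat_lit 1213666633123047523025153) (nat_lit 1)) (.cons (.rf (nat_lit 520) (nat_lit 493858305407296046144)) (.cons (.rf (nat_lit 544) (nat_lit 493858305440582043680)) .nil)))) (.cons (.br (nat_lit 1) (nat_lit 0) (.cons (.ev (nat_lit 1213648258436567851401473) (nat_lit 1)) (.cons (.rf (nat_lit 520) (nat_lit 493858305407296013408)) (.cons (.rf (nat_lit 544) (nat_lit 493858305440582043680)) .nil)))) (.cons (.br (nat_lit 1) (nat_lit 0) (.cons (.rf (nat_lit 520) (nat_lit 493858305407195382944)) (.cons (.rf (nat_lit 520) (nat_lit 493858305407228904608)) (.cons (.rf (nat_lit 544) (nat_lit 493858305440582043680)) .nil)))) .nil))))) .nil)) .nil)) (.cons (.br (nat_lit 11) (nat_lit 0) (.cons (.rf (nat_lit 545) (nat_lit 15433072045018188865))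 (.cons (.rf (nat_lit 484) (nat_lit 469908150391840)) .nil))) .nil))),
 (.br (nat_lit 2) (nat_lit 0) (.cons (.br (nat_lit 5) (nat_lit 0) (.cons (.ev (nat_lit 20361637766166006820238656536833) (nat_lit 1)) .nil)) (.cons (.rf (nat_lit 231) (nat_lit 384184398983163089952)) (.cons (.ev (nat_lit 79228167236703159532203868416) (nat_lit 1)) .nil)))),
 (.br (nat_lit 1) (nat_lit 0) (.cons (.br (nat_lit 5) (nat_lit 0) (.cons (.ev (nat_lit 20440865942847442947717797576705) (nat_lit 2)) .nil)) (.cons (.br (nat_lit 3) (nat_lit 0) (.cons (.ev (nat_lit 20282409617837432790511538864641) (nat_lit 2)) .nil)) (.cons (.ev (nat_lit 79228167236703159532203868416) (nat_lit 1)) .nil)))),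
 (.br (nat_lit 13) (nat_lit 0) (.cons (.rf (nat_lit 547) (nat_lit 493858305440582043680)) (.cons (.rf (nat_lit 548) (nat_lit 493858305440582043680)) (.cons (.br (nat_lit 1) (nat_lit 0) (.cons (.ev (nat_lit 311912343304048732297822978) (nat_lit 2)) .nil)) .nil)))),
 (.br (nat_lit 9) (nat_lit 1) (.cons (.rf (nat_lit 546) (nat_lit 493858305440582043680)) (.cons (.br (nat_lit 5) (nat_lit 1) (.cons (.br (nat_lit 3) (nat_lit 0) (.cons (.rf (nat_lit 540) (nat_lit 14540783847456)) (.cons (.rf (nat_lit 540) (nat_lit 14507497849920)) (.cons (.rf (nat_lit 540) (nat_lit 14438679807136)) (.cons (.br (nat_lit 12) (nat_lit 0) (.cons (.br (nat_lit 1) (nat_lit 0) (.cons (.br (nat_lit 5) (nat_lit 0) (.cons (.ev (nat_lit 121775238045306305651547475936256) (nat_lit 3)) .nil)) (.cons (.br (nat_lit 2) (nat_lit 0) (.cons (.ev (nat_lit 20282719088661563827713837367553) (nat_lit 1)) .nil)) (.cons (.br (nat_lit 2) (nat_lit 0) (.cons (.ev (nat_lit 20282409617837432790511538864641) (nat_lit 2)) .nil))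 .nil)))) .nil)) .nil))))) (.cons (.br (nat_lit 7) (nat_lit 0) (.cons (.br (nat_lit 13) (nat_lit 0) (.cons (.rf (nat_lit 547) (nat_lit 493858305440582043680)) (.cons (.rf (nat_lit 548) (nat_lit 493858305440582043680)) (.cons (.rf (nat_lit 549) (nat_lit 493858305440582043680)) (.cons (.br (nat_lit 13) (nat_lit 0) (.cons (.rf (nat_lit 547) (nat_lit 493858305440582043680)) (.cons (.rf (nat_lit 548) (nat_lit 493858305440582043680)) (.cons (.rf (nat_lit 549) (nat_lit 493858305440582043680)) .nil)))) .nil))))) .nil)) .nil))) .nil))),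
 (.br (nat_lit 6) (nat_lit 0) (.cons (.br (nat_lit 12) (nat_lit 0) (.cons (.rf (nat_lit 539) (nat_lit 14242959524133701664)) (.cons (.rf (nat_lit 543) (nat_lit 14242959524133701664)) (.cons (.br (nat_lit 12) (nat_lit 0) (.cons (.rf (nat_lit 539) (nat_lit 14242959524133701664)) (.cons (.rf (nat_lit 543) (nat_lit 14242959524133701664)) .nil))) .nil)))) (.cons (.br (nat_lit 9) (nat_lit 1) (.cons (.rf (nat_lit 546) (nat_lit 493858305440582043680)) (.cons (.rf (nat_lit 550) (nat_lit 493858305440582043680)) (.cons (.br (nat_lit 9) (nat_lit 1) (.cons (.rf (nat_lit 546) (nat_lit 493858305440582043680)) (.cons (.rf (nat_lit 550) (nat_lit 493858305440582043680)) .nil))) .nil)))) .nil))),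
 (.br (nat_lit 3) (nat_lit 1) (.cons (.br (nat_lit 7) (nat_lit 0) (.cons (.rf (nat_lit 318) (nat_lit 7975928400928)) (.cons (.rf (nat_lit 537) (nat_lit 445092485129178177)) (.cons (.rf (nat_lit 484) (nat_lit 465372765555744)) .nil)))) (.cons (.rf (nat_lit 318) (nat_lit 6743273801824)) (.cons (.rf (nat_lit 551) (nat_lit 14242959524133701664)) (.cons (.rf (nat_lit 551) (nat_lit 13126066816545818656)) .nil))))),
 (.br (nat_lit 11) (nat_lit 0) (.cons (.kr (nat_lit 309485009893402662779486208) (nat_lit 1208925819897203663044608) (nat_lit 3) (nat_lit 0)) .nil)),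
 (.br (nat_lit 3) (nat_lit 0) (.cons (.ev (nat_lit 20441487330774136875440867966979) (nat_lit 2)) .nil)),
 (.br (nat_lit 5) (nat_lit 1) (.cons (.br (nat_lit 9) (nat_lit 1) (.cons (.br (nat_lit 12) (nat_lit 0) (.cons (.br (nat_lit 2) (nat_lit 0) (.cons (.rf (nat_lit 400) (nat_lit 382059960961510444096)) (.cons (.ev (nat_lit 1213648258155097169592321) (nat_lit 1)) (.cons (.rf (nat_lit 400) (nat_lit 382059960961443464256)) (.cons (.br (nat_lit 3) (nat_lit 0) (.cons (.br (nat_lit 5) (nat_lit 0) (.cons (.ev (nat_lit 40645594794885232687252466958340) (nat_lit 3)) .nil)) (.cons (.br (nat_lit 1) (nat_lit 0) (.cons (.ev (nat_lit 20282412026244195503991532093441) (nat_lit 2)) .nil)) (.cons (.ev (nat_lit 1213648258436567851335681) (nat_lit 1)) .nil)))) .nil))))) .nil)) .nil)) (.cons (.br (nat_lit 9) (nat_lit 1) (.cons (.rf (nat_lit 553) (nat_lit 15433072045018188865)) (.cons (.br (nat_lit 11) (nat_lit 0) (.cons (.br (nat_lit 13) (nat_lit 0) (.cons (.br (nat_lit 2) (nat_lit 0) (.cons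 (.ev (nat_lit 1213648258155097169592321) (nat_lit 1)) (.cons (.ev (nat_lit 310698658007725142033039361) (nat_lit 1)) (.cons (.rf (nat_lit 554) (nat_lit 493858305440582043680)) .nil)))) (.cons (.br (nat_lit 13) (nat_lit 0) (.cons (.rf (nat_lit 554) (nat_lit 493858305440582043680)) (.cons (.ev (nat_lit 1213648258436567851335681) (nat_lit 1)) (.cons (.ev (nat_lit 310698658007443671351296001) (nat_lit 1)) .nil)))) (.cons (.ev (nat_lit 1213648258436567851335681) (nat_lit 1)) (.cons (.ev (nat_lit 310698658007443671351296001) (nat_lit 1)) .nil))))) .nil)) .nil))) .nil))),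
 (.br (nat_lit 6) (nat_lit 0) (.cons (.rf (nat_lit 318) (nat_lit 7975928400928)) (.cons (.rf (nat_lit 552) (nat_lit 14242959524133701664)) (.cons (.br (nat_lit 3) (nat_lit 1) (.cons (.rf (nat_lit 555) (nat_lit 493858305440582043680)) (.cons (.rf (nat_lit 555) (nat_lit 492741412732994160672)) .nil))) .nil)))),
 (.br (nat_lit 6) (nat_lit 0) (.cons (.rf (nat_lit 318) (nat_lit 7975928400928)) (.cons (.rf (nat_lit 552) (nat_lit 14242959524133701664)) (.cons (.rf (nat_lit 556) (nat_lit 14242959524133701664)) (.cons (.br (nat_lit 6) (nat_lit 0) (.cons (.rf (nat_lit 318) (nat_lit 7975928400928)) (.cons (.rf (nat_lit 552) (nat_lit 14242959524133701664)) (.cons (.rf (nat_lit 556) (nat_lit 14242959524133701664)) .nil)))) .nil))))),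
 (.br (nat_lit 4) (nat_lit 0) (.cons (.kr (nat_lit 281474993487872) (nat_lit 1103806595072) (nat_lit 3) (nat_lit 0)) (.cons (.rf (nat_lit 537) (nat_lit 370710452582320160)) .nil))),
 (.br (nat_lit 11) (nat_lit 0) (.cons (.kr (nat_lit 309485009893402662779486208) (nat_lit 1208925819897203663044608) (nat_lit 3) (nat_lit 0)) .nil)),
 (.br (nat_lit 5) (nat_lit 0) (.cons (.kr (nat_lit 72057594054705152) (nat_lit 282574488338432) (nat_lit 3) (nat_lit 0)) (.cons (.br (nat_lit 2) (nat_lit 1) (.cons (.rf (nat_lit 559) (nat_lit 14242959524133701664)) (.cons (.rf (nat_lit 559) (nat_lit 14208056627021580320)) .nil))) .nil))),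
 (.br (nat_lit 5) (nat_lit 0) (.cons (.rf (nat_lit 558) (nat_lit 12746920901576736)) (.cons (.rf (nat_lit 560) (nat_lit 407901468851537952)) (.cons (.br (nat_lit 5) (nat_lit 0) (.cons (.rf (nat_lit 558) (nat_lit 12746920901576736)) (.cons (.rf (nat_lit 560) (nat_lit 407901468851537952)) .nil))) .nil)))),
 (.br (nat_lit 5) (nat_lit 1) (.cons (.rf (nat_lit 552) (nat_lit 14242959524133701664)) (.cons (.rf (nat_lit 557) (nat_lit 14242959524133701664)) (.cons (.br (nat_lit 7) (nat_lit 0) (.cons (.br (nat_lit 6) (nat_lit 0) (.cons (.br (nat_lit 6) (nat_lit 0) (.cons (.rf (nat_lit 484) (nat_lit 464140110956640)) .nil)) (.cons (.rf (nat_lit 484) (nat_lit 464140110956640)) .nil))) (.cons (.rf (nat_lit 561) (nat_lit 445092485129178177)) (.cons (.rf (nat_lit 532) (nat_lit 15433070910038444064)) .nil)))) .nil)))),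
 (.br (nat_lit 10) (nat_lit 1) (.cons (.rf (nat_lit 534) (nat_lit 11584701642934304)) (.cons (.br (nat_lit 10) (nat_lit 1) (.cons (.rf (nat_lit 534) (nat_lit 11584701642934304)) (.cons (.br (nat_lit 11) (nat_lit 1) (.cons (.br (nat_lit 5) (nat_lit 1) (.cons (.rf (nat_lit 552) (nat_lit 14242959524133701664)) (.cons (.rf (nat_lit 557) (nat_lit 14242959524133701664)) (.cons (.rf (nat_lit 562) (nat_lit 14242959524133701664)) (.cons (.rf (nat_lit 562) (nat_lit 13126066816545818656)) .nil))))) .nil)) .nil))) .nil))),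
 (.br (nat_lit 10) (nat_lit 1) (.cons (.rf (nat_lit 534) (nat_lit 11584701642934304)) (.cons (.rf (nat_lit 563) (nat_lit 11584701642934304)) (.cons (.br (nat_lit 10) (nat_lit 1) (.cons (.rf (nat_lit 534) (nat_lit 11584701642934304)) (.cons (.rf (nat_lit 563) (nat_lit 11584701642934304)) (.cons (.br (nat_lit 10) (nat_lit 1) (.cons (.rf (nat_lit 534) (nat_lit 11584701642934304)) (.cons (.rf (nat_lit 563) (nat_lit 11584701642934304)) .nil))) .nil)))) .nil)))),
 (.br (nat_lit 3) (nat_lit 0) (.cons (.br (nat_lit 5) (nat_lit 0) (.cons (.ev (nat_lit 309489750634854586567885056) (nat_lit 1)) .nil)) (.cons (.ev (nat_lit 310693935641241177188007936) (nat_lit 1)) (.cons (.rf (nat_lit 242) (nat_lit 12011497344879201344)) .nil)))),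
 (.br (nat_lit 3) (nat_lit 0) (.cons (.ev (nat_lit 81209183344112479946527322800128) (nat_lit 3)) .nil)),
 (.br (nat_lit 3) (nat_lit 0) (.cons (.ev (nat_lit 310693935641241177188007936) (nat_lit 1)) .nil)),
 (.br (nat_lit 12) (nat_lit 0) (.cons (.br (nat_lit 5) (nat_lit 1) (.cons (.br (nat_lit 10) (nat_lit 1) (.cons (.br (nat_lit 11) (nat_lit 0) (.cons (.br (nat_lit 13) (nat_lit 0) (.cons (.br (nat_lit 5) (nat_lit 0) (.cons (.ev (nat_lit 309489732260168106896261376) (nat_lit 1)) (.cons (.ev (nat_lit 309489750634854586567885056) (nat_lit 1)) (.cons (.ev (nat_lit 40644983097347010093804133811718) (nat_lit 3)) .nil)))) (.cons (.rf (nat_lit 565) (nat_lit 493858305440582043680)) (.cons (.rf (nat_lit 565) (nat_lit 493858304375430122528)) (.cons (.br (nat_lit 1) (nat_lit 0) (.cons (.ev (nat_lit 309489732260168106896261376) (nat_lit 1)) (.cons (.ev (nat_lit 309489750634854586567885056) (nat_lit 1)) (.cons (.ev (nat_lit 40644983097347010093804133811718) (nat_lit 3)) .nil)))) .nil)))))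 .nil)) .nil)) (.cons (.br (nat_lit 6) (nat_lit 0) (.cons (.br (nat_lit 11) (nat_lit 0) (.cons (.br (nat_lit 1) (nat_lit 0) (.cons (.rf (nat_lit 395) (nat_lit 436890620823584)) (.cons (.rf (nat_lit 395) (nat_lit 436890587270176)) (.cons (.ev (nat_lit 1213648186380077603225601) (nat_lit 1)) (.cons (.br (nat_lit 5) (nat_lit 0) (.cons (.rf (nat_lit 566) (nat_lit 493858305440582043680)) (.cons (.rf (nat_lit 566) (nat_lit 493858304375430122528)) (.cons (.ev (nat_lit 20361948464823942204112634904833) (nat_lit 1)) .nil)))) .nil))))) .nil)) (.cons (.br (nat_lit 10) (nat_lit 1) (.cons (.br (nat_lit 1) (nat_lit 0) (.cons (.rf (nat_lit 504) (nat_lit 15433037960157693984)) (.cons (.rf (nat_lit 504) (nat_lit 15433037926871665696)) (.cons (.kr (nat_lit 311902861460855802050904066) (nat_lit 79228162532783141464609652736) (nat_lit 0) (nat_lit 1)) (.cons (.br (nat_lit 5) (nat_lit 0) (.cons (.rf (nat_lit 567) (nat_lit 493858305440582043680)) (.cons (.rf (nat_lit 567) (nat_lit 493858304375430122528))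 (.cons (.ev (nat_lit 20361638979814121141618398461953) (nat_lit 1)) .nil)))) .nil))))) .nil)) .nil))) .nil))) .nil))]

theorem c14 : chkAll C T R L14 (nat_lit 533) = true := by decide +kernel

theorem l14 : (nat_lit 533) + L14.length = (nat_lit 569) := by decide +kernel

/-- part of the certificates -/
def L15 : List Prf := [(.br (nat_lit 12) (nat_lit 0) (.cons (.rf (nat_lit 568) (nat_lit 14242959524133701664)) (.cons (.br (nat_lit 12) (nat_lit 0) (.cons (.rf (nat_lit 568) (nat_lit 14242959524133701664)) .nil)) .nil))),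
 (.br (nat_lit 12) (nat_lit 0) (.cons (.rf (nat_lit 569) (nat_lit 14242959524133701664)) (.cons (.br (nat_lit 12) (nat_lit 0) (.cons (.rf (nat_lit 569) (nat_lit 14242959524133701664)) .nil)) .nil))),
 (.br (nat_lit 10) (nat_lit 0) (.cons (.rf (nat_lit 0) (nat_lit 370704989451026561)) (.cons (.br (nat_lit 10) (nat_lit 0) (.cons (.rf (nat_lit 0) (nat_lit 370704989452075137)) .nil)) .nil))),
 (.br (nat_lit 9) (nat_lit 1) (.cons (.br (nat_lit 11) (nat_lit 0) (.cons (.kr (nat_lit 1208925891672223229411328) (nat_lit 309485009821627643213119488) (nat_lit 3) (nat_lit 0)) .nil)) .nil)),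
 (.br (nat_lit 10) (nat_lit 0) (.cons (.br (nat_lit 9) (nat_lit 1) (.cons (.rf (nat_lit 572) (nat_lit 14242959524133701664)) (.cons (.br (nat_lit 9) (nat_lit 1) (.cons (.rf (nat_lit 572) (nat_lit 14242959524133701664)) .nil)) .nil))) .nil)),
 (.br (nat_lit 10) (nat_lit 0) (.cons (.rf (nat_lit 573) (nat_lit 407901468851537952)) (.cons (.br (nat_lit 10) (nat_lit 0) (.cons (.rf (nat_lit 573) (nat_lit 407901468851537952)) .nil)) .nil))),
 (.br (nat_lit 11) (nat_lit 0) (.cons (.rf (nat_lit 484) (nat_lit 434657204212768)) (.cons (.br (nat_lit 11) (nat_lit 0) (.cons (.rf (nat_lit 484) (nat_lit 469841576301600)) .nil)) .nil))),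
 (.br (nat_lit 12) (nat_lit 0) (.cons (.rf (nat_lit 484) (nat_lit 470975481189408)) (.cons (.rf (nat_lit 484) (nat_lit 470975447667744)) .nil))),
 (.br (nat_lit 11) (nat_lit 0) (.cons (.rf (nat_lit 575) (nat_lit 407901468851537952)) (.cons (.br (nat_lit 11) (nat_lit 0) (.cons (.rf (nat_lit 484) (nat_lit 434657204212768)) (.cons (.rf (nat_lit 576) (nat_lit 455779244691257657376)) .nil))) (.cons (.br (nat_lit 11) (nat_lit 0) (.cons (.rf (nat_lit 575) (nat_lit 407901468851537952)) (.cons (.rf (nat_lit 576) (nat_lit 492671606938769917984)) .nil))) .nil)))),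
 (.br (nat_lit 12) (nat_lit 0) (.cons (.ev (nat_lit 4740885566012386246656) (nat_lit 1)) (.cons (.rf (nat_lit 341) (nat_lit 10672770399075370144)) .nil))),
 (.br (nat_lit 12) (nat_lit 0) (.cons (.br (nat_lit 6) (nat_lit 0) (.cons (.br (nat_lit 7) (nat_lit 0) (.cons (.br (nat_lit 1) (nat_lit 0) (.cons (.rf (nat_lit 578) (nat_lit 15395881028740548640)) (.cons (.ev (nat_lit 310698676454468120542707713) (nat_lit 1)) (.cons (.rf (nat_lit 578) (nat_lit 15286707392381817888)) (.cons (.br (nat_lit 2) (nat_lit 0) (.cons (.br (nat_lit 5) (nat_lit 0) (.cons (.ev (nat_lit 81210421274669993064479496208390) (nat_lit 3)) .nil)) (.cons (.br (nat_lit 3) (nat_lit 0) (.cons (.ev (nat_lit 20361947251194275190851755901185) (nat_lit 1)) .nil)) (.cons (.br (nat_lit 3) (nat_lit 0) (.cons (.ev (nat_lit 81210414011744418187174580846598) (nat_lit 3)) .nil)) .nil)))) .nil))))) .nil)) (.cons (.br (nat_lit 7) (nat_lit 0) (.cons (.br (nat_lit 1) (nat_lit 0) (.cons (.rf (nat_lit 504) (nat_lit 15433037960157693984))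 (.cons (.rf (nat_lit 504) (nat_lit 15433037926871665696)) (.cons (.br (nat_lit 2) (nat_lit 0) (.cons (.ev (nat_lit 309485009893403762291179521) (nat_lit 1)) (.cons (.br (nat_lit 3) (nat_lit 0) (.cons (.ev (nat_lit 309485028268090241962803201) (nat_lit 1)) .nil)) .nil))) (.cons (.br (nat_lit 2) (nat_lit 0) (.cons (.br (nat_lit 5) (nat_lit 0) (.cons (.ev (nat_lit 121775238064121694683115682922500) (nat_lit 3)) .nil)) (.cons (.br (nat_lit 3) (nat_lit 0) (.cons (.ev (nat_lit 80780432803689116190694965250) (nat_lit 3)) .nil)) (.cons (.br (nat_lit 3) (nat_lit 0) (.cons (.ev (nat_lit 80780432841014949902341636098) (nat_lit 3)) .nil)) .nil)))) .nil))))) .nil)) .nil))) .nil)),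
 (.br (nat_lit 11) (nat_lit 0) (.cons (.br (nat_lit 12) (nat_lit 0) (.cons (.rf (nat_lit 579) (nat_lit 14242959524133701664)) (.cons (.br (nat_lit 12) (nat_lit 0) (.cons (.rf (nat_lit 579) (nat_lit 14242959524133701664)) .nil)) .nil))) (.cons (.rf (nat_lit 484) (nat_lit 469910295778336)) .nil))),
 (.br (nat_lit 6) (nat_lit 0) (.cons (.br (nat_lit 11) (nat_lit 0) (.cons (.kr (nat_lit 1208925891672223229411328) (nat_lit 309485009821627643213119488) (nat_lit 3) (nat_lit 0)) .nil)) (.cons (.br (nat_lit 9) (nat_lit 1) (.cons (.kr (nat_lit 1208925891672223229411328) (nat_lit 309485009821627643213119488) (nat_lit 3) (nat_lit 0)) .nil)) .nil))),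
 (.br (nat_lit 3) (nat_lit 1) (.cons (.rf (nat_lit 564) (nat_lit 11582401691027552)) (.cons (.rf (nat_lit 581) (nat_lit 15433072045018188865)) .nil))),
 (.br (nat_lit 9) (nat_lit 1) (.cons (.kr (nat_lit 1208925891672223229411328) (nat_lit 309485009821627643213119488) (nat_lit 3) (nat_lit 0)) .nil)),
 (.br (nat_lit 3) (nat_lit 1) (.cons (.rf (nat_lit 564) (nat_lit 11583634345626656)) (.cons (.br (nat_lit 6) (nat_lit 0) (.cons (.rf (nat_lit 581) (nat_lit 15433072045018188865)) (.cons (.rf (nat_lit 583) (nat_lit 15433072045018188865)) .nil))) .nil))),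
 (.br (nat_lit 11) (nat_lit 0) (.cons (.rf (nat_lit 580) (nat_lit 14242959524133701664)) (.cons (.br (nat_lit 10) (nat_lit 1) (.cons (.rf (nat_lit 582) (nat_lit 493858305440582043680)) (.cons (.rf (nat_lit 584) (nat_lit 493858305440582043680)) (.cons (.br (nat_lit 10) (nat_lit 1) (.cons (.rf (nat_lit 582) (nat_lit 493858305440582043680)) (.cons (.rf (nat_lit 584) (nat_lit 493858305440582043680)) .nil))) .nil)))) .nil))),
 (.br (nat_lit 7) (nat_lit 0) (.cons (.rf (nat_lit 318) (nat_lit 7975928400928)) (.cons (.rf (nat_lit 484) (nat_lit 359819649289248)) (.cons (.rf (nat_lit 564) (nat_lit 11583634345626656)) .nil)))),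
 (.br (nat_lit 5) (nat_lit 1) (.cons (.rf (nat_lit 586) (nat_lit 324637322021920)) (.cons (.rf (nat_lit 118) (nat_lit 11590098301060197)) (.cons (.rf (nat_lit 586) (nat_lit 330237959375904)) .nil)))),
 (.br (nat_lit 2) (nat_lit 0) (.cons (.br (nat_lit 5) (nat_lit 0) (.cons (.ev (nat_lit 20282719088679938513093997428993) (nat_lit 1)) .nil)) (.cons (.ev (nat_lit 309489732260168106896261376) (nat_lit 1)) (.cons (.rf (nat_lit 494) (nat_lit 493857214725047289888)) .nil)))),
 (.br (nat_lit 1) (nat_lit 0) (.cons (.rf (nat_lit 520) (nat_lit 492741412630923740224)) (.cons (.rf (nat_lit 520) (nat_lit 492741412630990783552)) (.cons (.rf (nat_lit 494) (nat_lit 493857214725047289888)) .nil)))),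
 (.br (nat_lit 10) (nat_lit 1) (.cons (.br (nat_lit 5) (nat_lit 1) (.cons (.br (nat_lit 12) (nat_lit 0) (.cons (.kr (nat_lit 309485028268089146729299968) (nat_lit 79228162514336676662558588928) (nat_lit 4) (nat_lit 0)) .nil)) (.cons (.br (nat_lit 11) (nat_lit 0) (.cons (.br (nat_lit 13) (nat_lit 0) (.cons (.rf (nat_lit 588) (nat_lit 493858305440582043680)) (.cons (.rf (nat_lit 589) (nat_lit 493858305440582043680)) (.cons (.rf (nat_lit 589) (nat_lit 493858304375430122528)) (.cons (.br (nat_lit 1) (nat_lit 0) (.cons (.ev (nat_lit 309489732260168106896261376) (nat_lit 1)) (.cons (.ev (nat_lit 309489750634854586567885056) (nat_lit 1)) (.cons (.rf (nat_lit 588) (nat_lit 493858305440582043680)) .nil)))) .nil))))) .nil)) .nil))) .nil)),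
 (.br (nat_lit 1) (nat_lit 0) (.cons (.br (nat_lit 5) (nat_lit 0) (.cons (.zr (nat_lit 79537647560979170813982802688) (nat_lit 1208925820460153633308672) (nat_lit 5) (nat_lit 3)) .nil)) (.cons (.br (nat_lit 3) (nat_lit 0) (.cons (.zr (nat_lit 158456325047047476854835380992) (nat_lit 1208925820178678656598016) (nat_lit 5) (nat_lit 5)) .nil)) (.cons (.rf (nat_lit 497) (nat_lit 492740322015314020384)) .nil)))),
 (.br (nat_lit 13) (nat_lit 0) (.cons (.rf (nat_lit 390) (nat_lit 340411804209687727136)) (.cons (.rf (nat_lit 591) (nat_lit 493858305440582043680)) (.cons (.br (nat_lit 1) (nat_lit 0) (.cons (.ev (nat_lit 20283028587856931646948807672065) (nat_lit 2)) .nil)) .nil)))),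
 (.br (nat_lit 7) (nat_lit 0) (.cons (.br (nat_lit 5) (nat_lit 1) (.cons (.rf (nat_lit 118) (nat_lit 11590096186083429)) (.cons (.br (nat_lit 11) (nat_lit 0) (.cons (.br (nat_lit 10) (nat_lit 1) (.cons (.br (nat_lit 12) (nat_lit 0) (.cons (.br (nat_lit 13) (nat_lit 0) (.cons (.rf (nat_lit 505) (nat_lit 493857214722901903392)) (.cons (.rf (nat_lit 591) (nat_lit 493858305440582043680)) (.cons (.rf (nat_lit 592) (nat_lit 493858305440582043680)) (.cons (.br (nat_lit 13) (nat_lit 0) (.cons (.rf (nat_lit 497) (nat_lit 492740322015213360160)) (.cons (.rf (nat_lit 591) (nat_lit 493858305440582043680)) (.cons (.rf (nat_lit 592) (nat_lit 493858305440582043680)) .nil)))) .nil))))) .nil)) .nil)) (.cons (.rf (nat_lit 319) (nat_lit 11579341487191202)) .nil))) .nil))) (.cons (.br (nat_lit 5) (nat_lit 1) (.cons (.br (nat_lit 5) (nat_lit 1) (.cons (.rf (nat_lit 586) (nat_lit 325707817388192)) .nil)) (.cons (.br (nat_lit 5) (nat_lit 1) (.cons (.rf (nat_lit 586) (nat_lit 325707817388192))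 .nil)) .nil))) (.cons (.rf (nat_lit 571) (nat_lit 13908005188930625)) .nil)))),
 (.br (nat_lit 1) (nat_lit 0) (.cons (.br (nat_lit 5) (nat_lit 0) (.cons (.ev (nat_lit 20282719088679938513093997428993) (nat_lit 1)) .nil)) (.cons (.ev (nat_lit 309489732260168106896326656) (nat_lit 1)) (.cons (.rf (nat_lit 497) (nat_lit 493857214722901903392)) .nil)))),
 (.br (nat_lit 10) (nat_lit 1) (.cons (.br (nat_lit 5) (nat_lit 1) (.cons (.br (nat_lit 12) (nat_lit 0) (.cons (.kr (nat_lit 309485028268089146729299968) (nat_lit 79228162514336676662558588928) (nat_lit 4) (nat_lit 0)) .nil)) (.cons (.br (nat_lit 11) (nat_lit 0) (.cons (.br (nat_lit 13) (nat_lit 0) (.cons (.br (nat_lit 2) (nat_lit 0) (.cons (.rf (nat_lit 520) (nat_lit 492741412629851047968)) (.cons (.rf (nat_lit 520) (nat_lit 492741412629918091296)) (.cons (.rf (nat_lit 497) (nat_lit 493857214722901903392)) .nil)))) (.cons (.rf (nat_lit 594) (nat_lit 493858305440582043680)) (.cons (.br (nat_lit 2) (nat_lit 0) (.cons (.rf (nat_lit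 520) (nat_lit 492741412629783939168)) (.cons (.rf (nat_lit 520) (nat_lit 492741412629918025824)) (.cons (.rf (nat_lit 594) (nat_lit 493858305440582043680)) .nil)))) (.cons (.br (nat_lit 2) (nat_lit 0) (.cons (.ev (nat_lit 309489732260168106896326656) (nat_lit 1)) (.cons (.rf (nat_lit 520) (nat_lit 492741412629850917024)) (.cons (.rf (nat_lit 594) (nat_lit 493858305440582043680)) .nil)))) .nil))))) .nil)) .nil))) .nil)),
 (.br (nat_lit 12) (nat_lit 1) (.cons (.rf (nat_lit 581) (nat_lit 5019587487287314464)) .nil)),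
 (.br (nat_lit 9) (nat_lit 1) (.cons (.rf (nat_lit 586) (nat_lit 324635277200416)) (.cons (.br (nat_lit 11) (nat_lit 1) (.cons (.br (nat_lit 4) (nat_lit 0) (.cons (.br (nat_lit 7) (nat_lit 0) (.cons (.rf (nat_lit 318) (nat_lit 7978073787424)) (.cons (.br (nat_lit 12) (nat_lit 0) (.cons (.rf (nat_lit 569) (nat_lit 14242959524133701664)) (.cons (.rf (nat_lit 570) (nat_lit 14242959524133701664)) (.cons (.br (nat_lit 12) (nat_lit 0) (.cons (.rf (nat_lit 569) (nat_lit 14242959524133701664)) (.cons (.rf (nat_lit 570) (nat_lit 14242959524133701664)) .nil))) .nil)))) (.cons (.rf (nat_lit 484) (nat_lit 465374910942240)) .nil)))) (.cons (.br (nat_lit 5) (nat_lit 1) (.cons (.rf (nat_lit 110) (nat_lit 6547379232)) (.cons (.br (nat_lit 3) (nat_lit 1) (.cons (.rf (nat_lit 318) (nat_lit 7975928400928)) (.cons (.rf (nat_lit 571) (nat_lit 13908005180542017)) (.cons (.rf (nat_lit 574) (nat_lit 445092485129178177)) .nil)))) (.cons (.rf (nat_lit 577) (nat_lit 445056165777344544)) (.cons (.br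 (nat_lit 11) (nat_lit 0) (.cons (.rf (nat_lit 580) (nat_lit 14242959524133701664)) (.cons (.rf (nat_lit 585) (nat_lit 14242959524133701664)) (.cons (.br (nat_lit 11) (nat_lit 0) (.cons (.rf (nat_lit 484) (nat_lit 469910295778336)) (.cons (.rf (nat_lit 585) (nat_lit 14242959524133701664)) .nil))) .nil)))) .nil))))) (.cons (.rf (nat_lit 586) (nat_lit 359819649289248)) (.cons (.br (nat_lit 6) (nat_lit 0) (.cons (.rf (nat_lit 586) (nat_lit 325702574508064)) (.cons (.br (nat_lit 3) (nat_lit 1) (.cons (.rf (nat_lit 318) (nat_lit 6743273801824)) (.cons (.rf (nat_lit 587) (nat_lit 493858305440582043680)) (.cons (.br (nat_lit 7) (nat_lit 0) (.cons (.rf (nat_lit 586) (nat_lit 324637322021920)) (.cons (.br (nat_lit 10) (nat_lit 1) (.cons (.rf (nat_lit 590) (nat_lit 493858305440582043680)) (.cons (.br (nat_lit 10) (nat_lit 1) (.cons (.rf (nat_lit 590) (nat_lit 493858305440582043680)) .nil)) .nil))) (.cons (.rf (nat_lit 574) (nat_lit 445092485137566785)) .nil)))) .nil)))) (.cons (.br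 (nat_lit 3) (nat_lit 1) (.cons (.rf (nat_lit 586) (nat_lit 321271246160992)) (.cons (.rf (nat_lit 593) (nat_lit 493858305440582043680)) (.cons (.br (nat_lit 7) (nat_lit 0) (.cons (.br (nat_lit 10) (nat_lit 1) (.cons (.rf (nat_lit 595) (nat_lit 493858305440582043680)) (.cons (.br (nat_lit 10) (nat_lit 1) (.cons (.rf (nat_lit 595) (nat_lit 493858305440582043680)) .nil)) .nil))) (.cons (.br (nat_lit 10) (nat_lit 1) (.cons (.br (nat_lit 5) (nat_lit 1) (.cons (.rf (nat_lit 596) (nat_lit 15433072045018188865)) (.cons (.br (nat_lit 5) (nat_lit 1) (.cons (.rf (nat_lit 596) (nat_lit 15433072045018188865)) .nil)) .nil))) (.cons (.rf (nat_lit 593) (nat_lit 492740322017459406880)) .nil))) (.cons (.rf (nat_lit 574) (nat_lit 445092485137566785)) .nil)))) .nil)))) (.cons (.rf (nat_lit 36) (nat_lit 9972115180961)) .nil))))) .nil))))) .nil)) .nil))),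
 (.br (nat_lit 11) (nat_lit 0) (.cons (.kr (nat_lit 309485009893402662779486208) (nat_lit 1208925819897203663044608) (nat_lit 3) (nat_lit 0)) .nil)),
 (.br (nat_lit 9) (nat_lit 1) (.cons (.br (nat_lit 2) (nat_lit 1) (.cons (.rf (nat_lit 598) (nat_lit 14242959524133701664)) (.cons (.rf (nat_lit 598) (nat_lit 14208056627021580320)) .nil))) .nil)),
 (.br (nat_lit 9) (nat_lit 1) (.cons (.rf (nat_lit 599) (nat_lit 14242959524133701664)) (.cons (.rf (nat_lit 599) (nat_lit 14208056627021580320)) .nil))),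
 (.br (nat_lit 9) (nat_lit 1) (.cons (.br (nat_lit 11) (nat_lit 0) (.cons (.kr (nat_lit 309485009893402662779486208) (nat_lit 1208925819897203663044608) (nat_lit 3) (nat_lit 0)) .nil)) .nil)),
 (.br (nat_lit 10) (nat_lit 0) (.cons (.br (nat_lit 9) (nat_lit 1) (.cons (.rf (nat_lit 601) (nat_lit 14242959524133701664)) (.cons (.br (nat_lit 9) (nat_lit 1) (.cons (.rf (nat_lit 601) (nat_lit 14242959524133701664)) .nil)) .nil))) (.cons (.rf (nat_lit 118) (nat_lit 10419082949361740)) .nil))),
 (.br (nat_lit 6) (nat_lit 0) (.cons (.br (nat_lit 7) (nat_lit 0) (.cons (.rf (nat_lit 586) (nat_lit 356455618249824)) (.cons (.br (nat_lit 11) (nat_lit 0) (.cons (.br (nat_lit 13) (nat_lit 1) (.cons (.rf (nat_lit 581) (nat_lit 1304154222562088355)) .nil)) (.cons (.rf (nat_lit 123) (nat_lit 13806814842980389)) .nil))) .nil))) (.cons (.rf (nat_lit 484) (nat_lit 464140110956640)) .nil))),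
 (.br (nat_lit 7) (nat_lit 0) (.cons (.rf (nat_lit 603) (nat_lit 14242959524133701664)) (.cons (.br (nat_lit 6) (nat_lit 0) (.cons (.rf (nat_lit 484) (nat_lit 465372765555744)) (.cons (.rf (nat_lit 597) (nat_lit 10493986108180512)) (.cons (.br (nat_lit 3) (nat_lit 1) (.cons (.rf (nat_lit 319) (nat_lit 11579342561940897)) (.cons (.br (nat_lit 12) (nat_lit 0) (.cons (.rf (nat_lit 597) (nat_lit 11589237027738656)) .nil)) .nil))) .nil)))) .nil)))]

theorem c15 : chkAll C T R L15 (nat_lit 569) = true := by decide +kernel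

theorem l15 : (nat_lit 569) + L15.length = (nat_lit 605) := by decide +kernel

/-- part of the certificates -/
def L16 : List Prf := [(.br (nat_lit 7) (nat_lit 0) (.cons (.rf (nat_lit 603) (nat_lit 14242959524133701664)) (.cons (.rf (nat_lit 604) (nat_lit 14242959524133701664)) (.cons (.br (nat_lit 7) (nat_lit 0) (.cons (.rf (nat_lit 603) (nat_lit 14242959524133701664)) (.cons (.rf (nat_lit 604) (nat_lit 14242959524133701664)) .nil))) .nil)))),
 (.br (nat_lit 5) (nat_lit 1) (.cons (.rf (nat_lit 110) (nat_lit 6547379232)) (.cons (.br (nat_lit 6) (nat_lit 0) (.cons (.rf (nat_lit 318) (nat_lit 7975928400928)) (.cons (.br (nat_lit 7) (nat_lit 0) (.cons (.kr (nat_lit 18446744078004518912) (nat_lit 72339069014638592) (nat_lit 4) (nat_lit 0)) (.cons (.rf (nat_lit 597) (nat_lit 10493986108180512)) (.cons (.rf (nat_lit 600) (nat_lit 15433072045018188865)) .nil)))) (.cons (.br (nat_lit 3) (nat_lit 1) (.cons (.rf (nat_lit 484) (nat_lit 464140110956640)) (.cons (.rf (nat_lit 602) (nat_lit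 15433072045018188865)) (.cons (.rf (nat_lit 602) (nat_lit 15398169147906067521)) .nil)))) .nil)))) (.cons (.rf (nat_lit 605) (nat_lit 14242959524133701664)) (.cons (.rf (nat_lit 605) (nat_lit 13126066816545818656)) .nil))))),
 (.br (nat_lit 7) (nat_lit 0) (.cons (.rf (nat_lit 606) (nat_lit 14242957224181794912)) (.cons (.rf (nat_lit 600) (nat_lit 6209700008171801665)) .nil))),
 (.br (nat_lit 5) (nat_lit 1) (.cons (.rf (nat_lit 607) (nat_lit 493858305440582043680)) (.cons (.kr (nat_lit 309485009821345068724781056) (nat_lit 79228162514264337593543950336) (nat_lit 11) (nat_lit 0)) .nil))),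
 (.br (nat_lit 10) (nat_lit 1) (.cons (.rf (nat_lit 597) (nat_lit 10493986108180512)) (.cons (.br (nat_lit 5) (nat_lit 1) (.cons (.rf (nat_lit 607) (nat_lit 493858305440582043680)) (.cons (.rf (nat_lit 608) (nat_lit 493858305440582043680)) (.cons (.rf (nat_lit 608) (nat_lit 492741412732994160672)) .nil)))) .nil))),
 (.br (nat_lit 9) (nat_lit 1) (.cons (.rf (nat_lit 586) (nat_lit 324635277200416)) (.cons (.rf (nat_lit 597) (nat_lit 11584701642934304)) (.cons (.br (nat_lit 9) (nat_lit 1) (.cons (.rf (nat_lit 586) (nat_lit 324635277200416)) (.cons (.rf (nat_lit 597) (nat_lit 11584701642934304)) (.cons (.br (nat_lit 11) (nat_lit 1) (.cons (.br (nat_lit 4) (nat_lit 0) (.cons (.br (nat_lit 7) (nat_lit 0) (.cons (.rf (nat_lit 318) (nat_lit 7978073787424)) (.cons (.br (nat_lit 7) (nat_lit 0) (.cons (.rf (nat_lit 318) (nat_lit 7978073787424)) (.cons (.rf (nat_lit 484) (nat_lit 465374910942240)) .nil))) (.cons (.rf (nat_lit 484) (nat_lit 465374910942240)) .nil)))) (.cons (.rf (nat_lit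 606) (nat_lit 14242959524133701664)) (.cons (.rf (nat_lit 586) (nat_lit 359819649289248)) (.cons (.br (nat_lit 6) (nat_lit 0) (.cons (.br (nat_lit 7) (nat_lit 0) (.cons (.rf (nat_lit 318) (nat_lit 7975928400928)) (.cons (.br (nat_lit 7) (nat_lit 0) (.cons (.rf (nat_lit 318) (nat_lit 7975928400928)) (.cons (.kr (nat_lit 18446744078004518912) (nat_lit 72339069014638592) (nat_lit 4) (nat_lit 0)) .nil))) (.cons (.rf (nat_lit 484) (nat_lit 465372765555744)) .nil)))) (.cons (.br (nat_lit 3) (nat_lit 1) (.cons (.rf (nat_lit 318) (nat_lit 6743273801824)) (.cons (.rf (nat_lit 587) (nat_lit 493858305440582043680)) (.cons (.rf (nat_lit 587) (nat_lit 492741412732994160672)) .nil)))) (.cons (.br (nat_lit 10) (nat_lit 1) (.cons (.rf (nat_lit 597) (nat_lit 10493986108180512)) (.cons (.rf (nat_lit 609) (nat_lit 493858305440582043680)) (.cons (.rf (nat_lit 609) (nat_lit 492741412732994160672)) .nil)))) (.cons (.rf (nat_lit 36) (nat_lit 9972115180961)) .nil))))) .nil))))) .nil)) .nil))))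 .nil)))),
 (.br (nat_lit 11) (nat_lit 0) (.cons (.kr (nat_lit 309485009893402662779486208) (nat_lit 1208925819897203663044608) (nat_lit 3) (nat_lit 0)) .nil)),
 (.br (nat_lit 3) (nat_lit 0) (.cons (.br (nat_lit 4) (nat_lit 0) (.cons (.kr (nat_lit 281474993487872) (nat_lit 1103806595072) (nat_lit 3) (nat_lit 0)) (.cons (.br (nat_lit 11) (nat_lit 1) (.cons (.rf (nat_lit 611) (nat_lit 14205768507864483872)) (.cons (.rf (nat_lit 611) (nat_lit 14170865610752362528)) .nil))) .nil))) .nil)),
 (.br (nat_lit 5) (nat_lit 0) (.cons (.rf (nat_lit 143) (nat_lit 14242964989547743264)) (.cons (.rf (nat_lit 143) (nat_lit 14242964989547711520)) (.cons (.ev (nat_lit 20361638979814121141618398461953) (nat_lit 1)) .nil)))),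
 (.br (nat_lit 1) (nat_lit 0) (.cons (.ev (nat_lit 1213666633123047523025153) (nat_lit 1)) (.cons (.rf (nat_lit 143) (nat_lit 14242964989547742272)) (.cons (.rf (nat_lit 613) (nat_lit 493858305440582043680)) .nil)))),
 (.br (nat_lit 12) (nat_lit 0) (.cons (.br (nat_lit 13) (nat_lit 0) (.cons (.rf (nat_lit 613) (nat_lit 493858305440582043680)) (.cons (.rf (nat_lit 614) (nat_lit 493858305440582043680)) (.cons (.rf (nat_lit 614) (nat_lit 493858304375430122528)) (.cons (.br (nat_lit 13) (nat_lit 0) (.cons (.ev (nat_lit 20282720302328196669282055094273) (nat_lit 1)) (.cons (.rf (nat_lit 614) (nat_lit 493858305440582043680)) (.cons (.rf (nat_lit 614) (nat_lit 493858304375430122528)) .nil)))) .nil))))) .nil)),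
 (.br (nat_lit 6) (nat_lit 0) (.cons (.rf (nat_lit 612) (nat_lit 13909140160252993)) (.cons (.br (nat_lit 4) (nat_lit 0) (.cons (.br (nat_lit 5) (nat_lit 1) (.cons (.rf (nat_lit 615) (nat_lit 493858305440582043680)) (.cons (.rf (nat_lit 615) (nat_lit 492741412732994160672)) .nil))) (.cons (.rf (nat_lit 110) (nat_lit 6547379232)) (.cons (.rf (nat_lit 26) (nat_lit 361851235994017)) .nil)))) .nil))),
 (.br (nat_lit 10) (nat_lit 1) (.cons (.rf (nat_lit 586) (nat_lit 359819649289248)) (.cons (.rf (nat_lit 610) (nat_lit 10493986108180512)) (.cons (.br (nat_lit 6) (nat_lit 0) (.cons (.rf (nat_lit 612) (nat_lit 13909140160252993)) (.cons (.rf (nat_lit 616) (nat_lit 14242959524133701664)) (.cons (.br (nat_lit 6) (nat_lit 0) (.cons (.rf (nat_lit 612) (nat_lit 13909140160252993)) (.cons (.rf (nat_lit 616) (nat_lit 14242959524133701664)) .nil))) .nil)))) .nil)))),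
 (.br (nat_lit 10) (nat_lit 1) (.cons (.rf (nat_lit 586) (nat_lit 359819649289248)) (.cons (.rf (nat_lit 610) (nat_lit 10493986108180512)) (.cons (.br (nat_lit 9) (nat_lit 1) (.cons (.rf (nat_lit 586) (nat_lit 324635277200416)) (.cons (.rf (nat_lit 610) (nat_lit 11584701642934304)) (.cons (.rf (nat_lit 617) (nat_lit 14241868808598947872)) (.cons (.rf (nat_lit 617) (nat_lit 13124976101011064864)) .nil))))) .nil)))),
 (.br (nat_lit 10) (nat_lit 1) (.cons (.rf (nat_lit 586) (nat_lit 359819649289248)) (.cons (.rf (nat_lit 610) (nat_lit 10493986108180512)) (.cons (.rf (nat_lit 618) (nat_lit 14241868808598947872)) (.cons (.rf (nat_lit 618) (nat_lit 14242959524133701664)) .nil))))),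
 (.br (nat_lit 9) (nat_lit 1) (.cons (.rf (nat_lit 586) (nat_lit 324635277200416)) (.cons (.rf (nat_lit 610) (nat_lit 11584701642934304)) (.cons (.br (nat_lit 9) (nat_lit 1) (.cons (.rf (nat_lit 586) (nat_lit 324635277200416)) (.cons (.rf (nat_lit 610) (nat_lit 11584701642934304)) (.cons (.br (nat_lit 11) (nat_lit 1) (.cons (.br (nat_lit 10) (nat_lit 1) (.cons (.rf (nat_lit 586) (nat_lit 359819649289248)) (.cons (.rf (nat_lit 610) (nat_lit 10493986108180512)) (.cons (.rf (nat_lit 618) (nat_lit 14241868808598947872)) (.cons (.rf (nat_lit 619) (nat_lit 14242959524133701664)) (.cons (.rf (nat_lit 619) (nat_lit 13126066816545818656)) .nil)))))) .nil)) .nil)))) .nil)))),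
 (.br (nat_lit 8) (nat_lit 0) (.cons (.rf (nat_lit 318) (nat_lit 9043225708576)) (.cons (.rf (nat_lit 484) (nat_lit 325702574508064)) (.cons (.br (nat_lit 8) (nat_lit 0) (.cons (.rf (nat_lit 318) (nat_lit 9043225708576)) (.cons (.rf (nat_lit 484) (nat_lit 360886946596896)) (.cons (.br (nat_lit 9) (nat_lit 1) (.cons (.rf (nat_lit 586) (nat_lit 324635277200416)) (.cons (.rf (nat_lit 610) (nat_lit 11584701642934304)) (.cons (.rf (nat_lit 620) (nat_lit 11584701642934304)) (.cons (.br (nat_lit 9) (nat_lit 1) (.cons (.rf (nat_lit 586) (nat_lit 324635277200416)) (.cons (.rf (nat_lit 610) (nat_lit 11584701642934304)) (.cons (.rf (nat_lit 620) (nat_lit 11584701642934304)) (.cons (.br (nat_lit 9) (nat_lit 1) (.cons (.rf (nat_lit 586) (nat_lit 324635277200416)) (.cons (.rf (nat_lit 610) (nat_lit 11584701642934304)) (.cons (.rf (nat_lit 620) (nat_lit 11584701642934304)) .nil)))) .nil))))) .nil))))) .nil)))) .nil)))),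
 (.br (nat_lit 5) (nat_lit 0) (.cons (.kr (nat_lit 237684487542865070378964746752) (nat_lit 20282409603670118014644914225152) (nat_lit 1) (nat_lit 0)) (.cons (.br (nat_lit 2) (nat_lit 0) (.cons (.ev (nat_lit 79228167236702879161050464513) (nat_lit 1)) .nil)) (.cons (.kr (nat_lit 79228162514264337593543950592) (nat_lit 282574488338432) (nat_lit 1) (nat_lit 0)) .nil)))),
 (.br (nat_lit 1) (nat_lit 0) (.cons (.br (nat_lit 5) (nat_lit 0) (.cons (.ev (nat_lit 79228167236702879161050464513) (nat_lit 1)) .nil)) (.cons (.ev (nat_lit 79538856468424100062997577985) (nat_lit 1)) (.cons (.rf (nat_lit 622) (nat_lit 493858305440582043680)) .nil)))),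
 (.br (nat_lit 9) (nat_lit 0) (.cons (.rf (nat_lit 622) (nat_lit 493858305440582043680)) (.cons (.rf (nat_lit 623) (nat_lit 493858305440582043680)) (.cons (.br (nat_lit 1) (nat_lit 0) (.cons (.zr (nat_lit 216174994021941504) (nat_lit 310698658008005517514964993) (nat_lit 5) (nat_lit 2)) .nil)) .nil)))),
 (.br (nat_lit 5) (nat_lit 1) (.cons (.br (nat_lit 10) (nat_lit 1) (.cons (.br (nat_lit 9) (nat_lit 0) (.cons (.rf (nat_lit 622) (nat_lit 493858305440582043680)) (.cons (.rf (nat_lit 623) (nat_lit 493858305440582043680)) (.cons (.rf (nat_lit 624) (nat_lit 493858305440582043680)) (.cons (.br (nat_lit 9) (nat_lit 0) (.cons (.kr (nat_lit 79228162514264337593543950592) (nat_lit 282574488338432) (nat_lit 1) (nat_lit 0)) (.cons (.rf (nat_lit 623) (nat_lit 493858305440582043680)) (.cons (.rf (nat_lit 624) (nat_lit 493858305440582043680)) .nil)))) .nil))))) .nil)) .nil)),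
 (.br (nat_lit 3) (nat_lit 1) (.cons (.rf (nat_lit 625) (nat_lit 493858305440582043680)) (.cons (.br (nat_lit 5) (nat_lit 1) (.cons (.rf (nat_lit 625) (nat_lit 493858305440515000352)) (.cons (.rf (nat_lit 110) (nat_lit 14038373472)) .nil))) .nil))),
 (.br (nat_lit 5) (nat_lit 1) (.cons (.rf (nat_lit 621) (nat_lit 12513458623520)) (.cons (.rf (nat_lit 621) (nat_lit 12511313237024)) (.cons (.rf (nat_lit 621) (nat_lit 7983316669536)) .nil)))),
 (.br (nat_lit 10) (nat_lit 1) (.cons (.rf (nat_lit 626) (nat_lit 493858305440582043680)) (.cons (.br (nat_lit 3) (nat_lit 1) (.cons (.br (nat_lit 5) (nat_lit 1) (.cons (.rf (nat_lit 621) (nat_lit 13645184666656)) .nil)) (.cons (.rf (nat_lit 627) (nat_lit 15433070910038444064)) .nil))) .nil))),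
 (.br (nat_lit 5) (nat_lit 1) (.cons (.br (nat_lit 9) (nat_lit 1) (.cons (.br (nat_lit 10) (nat_lit 1) (.cons (.br (nat_lit 1) (nat_lit 0) (.cons (.rf (nat_lit 398) (nat_lit 384367917199857387552)) (.cons (.rf (nat_lit 398) (nat_lit 414198639833712233504)) (.cons (.br (nat_lit 2) (nat_lit 0) (.cons (.ev (nat_lit 20838866069181040078451237848068) (nat_lit 3)) (.cons (.br (nat_lit 3) (nat_lit 0) (.cons (.ev (nat_lit 313111787281035584547651586) (nat_lit 2)) .nil)) .nil))) (.cons (.br (nat_lit 9) (nat_lit 0) (.cons (.ev (nat_lit 79229371458530696300723241216) (nat_lit 1)) (.cons (.ev (nat_lit 79537647542532708210971771136) (nat_lit 1)) (.cons (.br (nat_lit 2) (nat_lit 0) (.cons (.ev (nat_lit 20679181541780919998360075109380) (nat_lit 4)) .nil)) .nil)))) .nil))))) .nil)) .nil)) (.cons (.rf (nat_lit 621) (nat_lit 13645184666656)) .nil))),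
 (.br (nat_lit 10) (nat_lit 1) (.cons (.br (nat_lit 2) (nat_lit 0) (.cons (.br (nat_lit 5) (nat_lit 0) (.cons (.kr (nat_lit 20282409603651670423947251286272) (nat_lit 1103806595072) (nat_lit 1) (nat_lit 0)) (.cons (.rf (nat_lit 522) (nat_lit 341529717332819121184)) .nil))) (.cons (.rf (nat_lit 504) (nat_lit 10597334288096726080)) (.cons (.br (nat_lit 9) (nat_lit 0) (.cons (.ev (nat_lit 79229371458530696300723241216) (nat_lit 1)) (.cons (.rf (nat_lit 170) (nat_lit 416466228402317233312)) .nil))) (.cons (.br (nat_lit 1) (nat_lit 0) (.cons (.br (nat_lit 5) (nat_lit 0) (.cons (.ev (nat_lit 20838866088144294112107383752196) (nat_lit 3)) .nil)) (.cons (.ev (nat_lit 79229371458530696300723241216) (nat_lit 1)) (.cons (.br (nat_lit 3) (nat_lit 0) (.cons (.zr (nat_lit 55340234433036812544) (nat_lit 310698658008005517514964993) (nat_lit 5) (nat_lit 10)) .nil)) .nil)))) .nil))))) .nil)),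
 (.br (nat_lit 5) (nat_lit 1) (.cons (.rf (nat_lit 629) (nat_lit 493858305440515000352)) (.cons (.br (nat_lit 9) (nat_lit 1) (.cons (.rf (nat_lit 630) (nat_lit 493858305440582043680)) (.cons (.rf (nat_lit 630) (nat_lit 154899383092486671520)) .nil))) .nil))),
 (.br (nat_lit 13) (nat_lit 0) (.cons (.br (nat_lit 10) (nat_lit 1) (.cons (.rf (nat_lit 626) (nat_lit 493858305440582043680)) (.cons (.rf (nat_lit 628) (nat_lit 493858305440582043680)) (.cons (.br (nat_lit 10) (nat_lit 1) (.cons (.rf (nat_lit 626) (nat_lit 493858305440582043680)) (.cons (.rf (nat_lit 628) (nat_lit 493858305440582043680)) .nil))) .nil)))) (.cons (.br (nat_lit 3) (nat_lit 1) (.cons (.rf (nat_lit 629) (nat_lit 493858305440582043680)) (.cons (.rf (nat_lit 631) (nat_lit 493858305440582043680)) (.cons (.br (nat_lit 5) (nat_lit 1) (.cons (.rf (nat_lit 621) (nat_lit 13645184603168)) (.cons (.rf (nat_lit 631) (nat_lit 493858305440515000352)) (.cons (.rf (nat_lit 110) (nat_lit 14038373472)) .nil)))) .nil))))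 .nil))),
 (.br (nat_lit 5) (nat_lit 1) (.cons (.br (nat_lit 3) (nat_lit 0) (.cons (.rf (nat_lit 540) (nat_lit 10142737336352)) (.cons (.rf (nat_lit 540) (nat_lit 10109451338816)) (.cons (.rf (nat_lit 540) (nat_lit 10040633296032)) (.cons (.br (nat_lit 3) (nat_lit 1) (.cons (.br (nat_lit 10) (nat_lit 1) (.cons (.br (nat_lit 1) (nat_lit 0) (.cons (.kr (nat_lit 20282409603651670423947251286272) (nat_lit 4311744512) (nat_lit 1) (nat_lit 0)) (.cons (.rf (nat_lit 400) (nat_lit 414198640898797111328)) (.cons (.kr (nat_lit 20361637766166006819134833164800) (nat_lit 18447025553014784000) (nat_lit 1) (nat_lit 0)) .nil)))) .nil)) .nil)) .nil))))) (.cons (.rf (nat_lit 621) (nat_lit 14710336492576)) .nil))),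
 (.br (nat_lit 5) (nat_lit 1) (.cons (.rf (nat_lit 633) (nat_lit 493858305440582043680)) (.cons (.br (nat_lit 3) (nat_lit 1) (.cons (.rf (nat_lit 621) (nat_lit 13645184666656)) (.cons (.br (nat_lit 6) (nat_lit 0) (.cons (.kr (nat_lit 79228162532711081671548469248) (nat_lit 20282409603651742763016265924608) (nat_lit 4) (nat_lit 0)) .nil)) .nil))) .nil))),
 (.br (nat_lit 13) (nat_lit 0) (.cons (.rf (nat_lit 632) (nat_lit 493858305440582043680)) (.cons (.br (nat_lit 5) (nat_lit 1) (.cons (.rf (nat_lit 633) (nat_lit 493858305440582043680)) (.cons (.rf (nat_lit 634) (nat_lit 493858305440582043680)) (.cons (.br (nat_lit 5) (nat_lit 1) (.cons (.rf (nat_lit 621) (nat_lit 14710336492576)) (.cons (.rf (nat_lit 634) (nat_lit 493858305440582043680)) .nil))) .nil)))) .nil))),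
 (.br (nat_lit 13) (nat_lit 0) (.cons (.rf (nat_lit 632) (nat_lit 493858305440582043680)) (.cons (.rf (nat_lit 635) (nat_lit 493858305440582043680)) (.cons (.br (nat_lit 13) (nat_lit 0) (.cons (.rf (nat_lit 632) (nat_lit 493858305440582043680)) (.cons (.rf (nat_lit 635) (nat_lit 493858305440582043680)) .nil))) .nil))))]

theorem c16 : chkAll C T R L16 (nat_lit 605) = true := by decide +kernel

theorem l16 : (nat_lit 605) + L16.length = (nat_lit 637) := by decide +kernel

/-- part of the certificates -/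
def L17 : List Prf := [(.br (nat_lit 13) (nat_lit 0) (.cons (.rf (nat_lit 636) (nat_lit 493858305440582043680)) (.cons (.rf (nat_lit 636) (nat_lit 493858305440515000352)) (.cons (.br (nat_lit 13) (nat_lit 0) (.cons (.rf (nat_lit 636) (nat_lit 493858305440582043680)) (.cons (.rf (nat_lit 636) (nat_lit 493858305440515000352)) .nil))) .nil)))),
 (.br (nat_lit 11) (nat_lit 1) (.cons (.br (nat_lit 12) (nat_lit 1) (.cons (.br (nat_lit 13) (nat_lit 0) (.cons (.rf (nat_lit 636) (nat_lit 493858305440582043680)) (.cons (.rf (nat_lit 636) (nat_lit 493858305440515000352)) (.cons (.rf (nat_lit 637) (nat_lit 493858305440582043680)) (.cons (.br (nat_lit 13) (nat_lit 0) (.cons (.rf (nat_lit 636) (nat_lit 493858305440582043680)) (.cons (.rf (nat_lit 636) (nat_lit 493858305440515000352)) (.cons (.rf (nat_lit 637) (nat_lit 493858305440582043680)) .nil)))) .nil))))) .nil)) .nil)),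
 (.br (nat_lit 3) (nat_lit 0) (.cons (.ev (nat_lit 79537647524157740260618404096) (nat_lit 1)) (.cons (.ev (nat_lit 20679788384726109978016832554496) (nat_lit 3)) .nil))),
 (.br (nat_lit 13) (nat_lit 0) (.cons (.rf (nat_lit 621) (nat_lit 13645184666656)) (.cons (.br (nat_lit 7) (nat_lit 0) (.cons (.br (nat_lit 5) (nat_lit 0) (.cons (.rf (nat_lit 540) (nat_lit 10142670293024)) (.cons (.rf (nat_lit 540) (nat_lit 10109384295488)) (.cons (.rf (nat_lit 540) (nat_lit 10040633361504)) (.cons (.br (nat_lit 10) (nat_lit 1) (.cons (.br (nat_lit 1) (nat_lit 0) (.cons (.rf (nat_lit 639) (nat_lit 493858305440582043680)) (.cons (.rf (nat_lit 639) (nat_lit 493823402541324504096)) (.cons (.ev (nat_lit 310693954159761365646967041) (nat_lit 1)) .nil)))) .nil)) .nil))))) (.cons (.rf (nat_lit 525) (nat_lit 3941047979759248449)) .nil))) .nil))),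
 (.br (nat_lit 13) (nat_lit 0) (.cons (.rf (nat_lit 621) (nat_lit 13645184666656)) (.cons (.rf (nat_lit 640) (nat_lit 493858305440582043680)) (.cons (.br (nat_lit 13) (nat_lit 0) (.cons (.rf (nat_lit 621) (nat_lit 13645184666656)) (.cons (.rf (nat_lit 640) (nat_lit 493858305440582043680)) .nil))) .nil)))),
 (.br (nat_lit 5) (nat_lit 1) (.cons (.rf (nat_lit 641) (nat_lit 493858305440582043680)) (.cons (.rf (nat_lit 641) (nat_lit 458117738797769787424)) .nil))),
 (.br (nat_lit 5) (nat_lit 1) (.cons (.rf (nat_lit 642) (nat_lit 493858305440582043680)) (.cons (.br (nat_lit 3) (nat_lit 1) (.cons (.br (nat_lit 7) (nat_lit 0) (.cons (.rf (nat_lit 425) (nat_lit 482275697483809865)) (.cons (.rf (nat_lit 638) (nat_lit 372998569593998368)) .nil))) (.cons (.rf (nat_lit 621) (nat_lit 14710336556064)) (.cons (.rf (nat_lit 621) (nat_lit 13645184666656)) .nil)))) .nil))),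
 (.br (nat_lit 5) (nat_lit 1) (.cons (.rf (nat_lit 642) (nat_lit 493858305440582043680)) (.cons (.rf (nat_lit 643) (nat_lit 493858305440582043680)) (.cons (.rf (nat_lit 643) (nat_lit 458117738797769787424)) .nil)))),
 (.br (nat_lit 3) (nat_lit 0) (.cons (.rf (nat_lit 73) (nat_lit 307301408)) (.cons (.br (nat_lit 5) (nat_lit 0) (.cons (.ev (nat_lit 310698676454186641254318081) (nat_lit 1)) .nil)) .nil))),
 (.br (nat_lit 13) (nat_lit 0) (.cons (.br (nat_lit 5) (nat_lit 1) (.cons (.br (nat_lit 10) (nat_lit 1) (.cons (.br (nat_lit 2) (nat_lit 0) (.cons (.rf (nat_lit 645) (nat_lit 493858305440582043680)) (.cons (.rf (nat_lit 504) (nat_lit 10597334321382722624)) (.cons (.rf (nat_lit 504) (nat_lit 10597334288096662592)) (.cons (.br (nat_lit 1) (nat_lit 0) (.cons (.ev (nat_lit 79229371458530696300723241216) (nat_lit 1)) (.cons (.ev (nat_lit 79229371440156291291733360896) (nat_lit 1)) (.cons (.ev (nat_lit 310693954159761365646967041) (nat_lit 1)) .nil)))) .nil))))) .nil)) (.cons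 (.br (nat_lit 7) (nat_lit 0) (.cons (.kr (nat_lit 79228162532711081671548469248) (nat_lit 20282409603651742763016265924608) (nat_lit 4) (nat_lit 0)) .nil)) .nil))) .nil)),
 (.br (nat_lit 8) (nat_lit 1) (.cons (.br (nat_lit 9) (nat_lit 1) (.cons (.kr (nat_lit 309485009893402662779486208) (nat_lit 79228162514264620168032288768) (nat_lit 3) (nat_lit 0)) .nil)) .nil)),
 (.br (nat_lit 10) (nat_lit 1) (.cons (.br (nat_lit 2) (nat_lit 0) (.cons (.rf (nat_lit 645) (nat_lit 486940776419383412768)) (.cons (.rf (nat_lit 645) (nat_lit 486940776419383347296)) (.cons (.rf (nat_lit 504) (nat_lit 10823639953551955008)) (.cons (.br (nat_lit 1) (nat_lit 0) (.cons (.br (nat_lit 5) (nat_lit 0) (.cons (.ev (nat_lit 20679169405224695586324800996358) (nat_lit 3)) .nil)) (.cons (.ev (nat_lit 20679174221964434036972635422722) (nat_lit 3)) (.cons (.br (nat_lit 3) (nat_lit 0) (.cons (.ev (nat_lit 313121250532519321847005186) (nat_lit 2)) .nil)) .nil)))) .nil))))) .nil)),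
 (.br (nat_lit 5) (nat_lit 1) (.cons (.rf (nat_lit 647) (nat_lit 15433072045018188865)) (.cons (.br (nat_lit 9) (nat_lit 1) (.cons (.rf (nat_lit 648) (nat_lit 493858305440582043680)) (.cons (.rf (nat_lit 648) (nat_lit 458117738797702744096)) .nil))) .nil))),
 (.br (nat_lit 4) (nat_lit 1) (.cons (.rf (nat_lit 647) (nat_lit 14242959524133701664)) (.cons (.br (nat_lit 6) (nat_lit 0) (.cons (.rf (nat_lit 530) (nat_lit 445092449661067296)) (.cons (.br (nat_lit 8) (nat_lit 1) (.cons (.kr (nat_lit 309485009893402662779486208) (nat_lit 79228162514264620168032288768) (nat_lit 3) (nat_lit 0)) .nil)) .nil))) .nil))),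
 (.br (nat_lit 6) (nat_lit 0) (.cons (.rf (nat_lit 644) (nat_lit 493858305440515000352)) (.cons (.br (nat_lit 13) (nat_lit 0) (.cons (.rf (nat_lit 646) (nat_lit 493858305440582043680)) (.cons (.br (nat_lit 13) (nat_lit 0) (.cons (.rf (nat_lit 646) (nat_lit 493858305440582043680)) .nil)) .nil))) (.cons (.br (nat_lit 5) (nat_lit 1) (.cons (.rf (nat_lit 649) (nat_lit 493858305440582043680)) (.cons (.rf (nat_lit 650) (nat_lit 15433072045018188865)) (.cons (.br (nat_lit 5) (nat_lit 1) (.cons (.rf (nat_lit 649) (nat_lit 493858305440582043680)) (.cons (.rf (nat_lit 650) (nat_lit 15433072045018188865)) .nil))) .nil)))) .nil)))),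
 (.br (nat_lit 3) (nat_lit 1) (.cons (.rf (nat_lit 644) (nat_lit 493858305440582043680)) (.cons (.rf (nat_lit 651) (nat_lit 493858305440582043680)) (.cons (.rf (nat_lit 651) (nat_lit 458117738797769787424)) .nil)))),
 (.br (nat_lit 5) (nat_lit 1) (.cons (.rf (nat_lit 621) (nat_lit 14710336492576)) (.cons (.rf (nat_lit 652) (nat_lit 493858305440515000352)) (.cons (.kr (nat_lit 79228162514264337593543950336) (nat_lit 20282409603651670423947251286016) (nat_lit 12) (nat_lit 0)) .nil)))),
 (.br (nat_lit 3) (nat_lit 1) (.cons (.rf (nat_lit 644) (nat_lit 493858305440582043680)) (.cons (.rf (nat_lit 652) (nat_lit 493858305440582043680)) (.cons (.br (nat_lit 5) (nat_lit 1) (.cons (.rf (nat_lit 644) (nat_lit 493858305440515000352)) (.cons (.rf (nat_lit 652) (nat_lit 493858305440515000352)) (.cons (.rf (nat_lit 653) (nat_lit 493858305440582043680)) (.cons (.rf (nat_lit 653) (nat_lit 458117738797769787424)) .nil))))) .nil)))),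
 (.br (nat_lit 11) (nat_lit 1) (.cons (.rf (nat_lit 638) (nat_lit 407901468851537952)) (.cons (.br (nat_lit 11) (nat_lit 1) (.cons (.rf (nat_lit 638) (nat_lit 407901468851537952)) (.cons (.br (nat_lit 12) (nat_lit 1) (.cons (.br (nat_lit 3) (nat_lit 1) (.cons (.rf (nat_lit 644) (nat_lit 493858305440582043680)) (.cons (.rf (nat_lit 652) (nat_lit 493858305440582043680)) (.cons (.rf (nat_lit 654) (nat_lit 493858305440582043680)) (.cons (.rf (nat_lit 654) (nat_lit 458117738797769787424)) .nil))))) .nil)) .nil))) .nil))),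
 (.br (nat_lit 9) (nat_lit 1) (.cons (.br (nat_lit 1) (nat_lit 0) (.cons (.br (nat_lit 3) (nat_lit 0) (.cons (.ev (nat_lit 20679788384726109978016832685056) (nat_lit 3)) .nil)) (.cons (.br (nat_lit 2) (nat_lit 0) (.cons (.ev (nat_lit 79228167236702879161050464513) (nat_lit 1)) .nil)) (.cons (.br (nat_lit 2) (nat_lit 0) (.cons (.ev (nat_lit 158457538676859170452817510915) (nat_lit 2)) .nil)) .nil)))) .nil)),
 (.br (nat_lit 10) (nat_lit 1) (.cons (.br (nat_lit 5) (nat_lit 1) (.cons (.rf (nat_lit 656) (nat_lit 493858305440582043680)) (.cons (.rf (nat_lit 656) (nat_lit 458117738797769787424)) .nil))) .nil)),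
 (.br (nat_lit 10) (nat_lit 1) (.cons (.rf (nat_lit 657) (nat_lit 493858305440582043680)) (.cons (.rf (nat_lit 657) (nat_lit 458117738797769787424)) .nil))),
 (.br (nat_lit 10) (nat_lit 1) (.cons (.br (nat_lit 1) (nat_lit 0) (.cons (.rf (nat_lit 439) (nat_lit 378423170062864155808)) (.cons (.rf (nat_lit 439) (nat_lit 378423170062830634144)) (.cons (.ev (nat_lit 1213666705181745350705408) (nat_lit 1)) .nil)))) .nil)),
 (.br (nat_lit 5) (nat_lit 1) (.cons (.rf (nat_lit 658) (nat_lit 493858305440582043680)) (.cons (.br (nat_lit 6) (nat_lit 0) (.cons (.rf (nat_lit 425) (nat_lit 482275731843516457)) (.cons (.br (nat_lit 9) (nat_lit 1) (.cons (.rf (nat_lit 659) (nat_lit 493858305440582043680)) (.cons (.rf (nat_lit 659) (nat_lit 458117738797769787424)) .nil))) .nil))) .nil))),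
 (.br (nat_lit 5) (nat_lit 0) (.cons (.rf (nat_lit 540) (nat_lit 10142670293024)) (.cons (.rf (nat_lit 540) (nat_lit 10109384295488)) (.cons (.rf (nat_lit 540) (nat_lit 10040633361504)) (.cons (.br (nat_lit 5) (nat_lit 1) (.cons (.rf (nat_lit 658) (nat_lit 493858305440582043680)) (.cons (.rf (nat_lit 660) (nat_lit 493858305440582043680)) (.cons (.rf (nat_lit 660) (nat_lit 458117738797769787424)) .nil)))) .nil))))),
 (.br (nat_lit 13) (nat_lit 0) (.cons (.rf (nat_lit 621) (nat_lit 14710336556064)) (.cons (.br (nat_lit 6) (nat_lit 0) (.cons (.br (nat_lit 7) (nat_lit 0) (.cons (.rf (nat_lit 661) (nat_lit 493858305440515000352)) (.cons (.rf (nat_lit 545) (nat_lit 6211988091858723905)) .nil))) (.cons (.rf (nat_lit 538) (nat_lit 447380568824489025)) .nil))) .nil))),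
 (.br (nat_lit 13) (nat_lit 0) (.cons (.rf (nat_lit 621) (nat_lit 14710336556064)) (.cons (.rf (nat_lit 662) (nat_lit 493858305440582043680)) (.cons (.br (nat_lit 13) (nat_lit 0) (.cons (.rf (nat_lit 621) (nat_lit 14710336556064)) (.cons (.rf (nat_lit 662) (nat_lit 493858305440582043680)) .nil))) .nil)))),
 (.br (nat_lit 3) (nat_lit 1) (.cons (.rf (nat_lit 661) (nat_lit 493858305440582043680)) (.cons (.rf (nat_lit 663) (nat_lit 493858305440582043680)) (.cons (.rf (nat_lit 663) (nat_lit 458117738797769787424)) .nil)))),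
 (.br (nat_lit 5) (nat_lit 1) (.cons (.rf (nat_lit 664) (nat_lit 493858305440515000352)) (.cons (.br (nat_lit 6) (nat_lit 0) (.cons (.rf (nat_lit 664) (nat_lit 493858305440582043680)) (.cons (.rf (nat_lit 480) (nat_lit 12011489682561109281)) (.cons (.br (nat_lit 6) (nat_lit 0) (.cons (.rf (nat_lit 664) (nat_lit 493858305440582043680)) (.cons (.rf (nat_lit 480) (nat_lit 12011489682561109281)) .nil))) .nil)))) .nil))),
 (.br (nat_lit 5) (nat_lit 1) (.cons (.rf (nat_lit 664) (nat_lit 493858305440515000352)) (.cons (.rf (nat_lit 665) (nat_lit 493858305440582043680)) (.cons (.rf (nat_lit 665) (nat_lit 458117738797769787424)) .nil)))),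
 (.br (nat_lit 3) (nat_lit 1) (.cons (.rf (nat_lit 664) (nat_lit 493858305440582043680)) (.cons (.rf (nat_lit 666) (nat_lit 493858305440582043680)) (.cons (.br (nat_lit 7) (nat_lit 0) (.cons (.rf (nat_lit 666) (nat_lit 493858305440515000352)) (.cons (.br (nat_lit 6) (nat_lit 0) (.cons (.rf (nat_lit 664) (nat_lit 493858305440515000352)) (.cons (.br (nat_lit 6) (nat_lit 0) (.cons (.rf (nat_lit 664) (nat_lit 493858305440515000352)) .nil)) .nil))) (.cons (.rf (nat_lit 561) (nat_lit 482283465936610369)) .nil)))) .nil)))),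
 (.br (nat_lit 11) (nat_lit 1) (.cons (.rf (nat_lit 655) (nat_lit 407901468851537952)) (.cons (.br (nat_lit 11) (nat_lit 1) (.cons (.rf (nat_lit 655) (nat_lit 407901468851537952)) (.cons (.br (nat_lit 12) (nat_lit 1) (.cons (.br (nat_lit 3) (nat_lit 1) (.cons (.rf (nat_lit 664) (nat_lit 493858305440582043680)) (.cons (.rf (nat_lit 666) (nat_lit 493858305440582043680)) (.cons (.rf (nat_lit 667) (nat_lit 493858305440582043680)) (.cons (.rf (nat_lit 667) (nat_lit 458117738797769787424)) .nil))))) .nil)) .nil))) .nil))),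
 (.br (nat_lit 11) (nat_lit 1) (.cons (.rf (nat_lit 655) (nat_lit 407901468851537952)) (.cons (.rf (nat_lit 668) (nat_lit 407901468851537952)) (.cons (.br (nat_lit 11) (nat_lit 1) (.cons (.rf (nat_lit 655) (nat_lit 407901468851537952)) (.cons (.rf (nat_lit 668) (nat_lit 407901468851537952)) (.cons (.br (nat_lit 11) (nat_lit 1) (.cons (.rf (nat_lit 655) (nat_lit 407901468851537952)) (.cons (.rf (nat_lit 668) (nat_lit 407901468851537952)) .nil))) .nil)))) .nil)))),
 (.br (nat_lit 9) (nat_lit 1) (.cons (.br (nat_lit 9) (nat_lit 1) (.cons (.br (nat_lit 9) (nat_lit 1) .nil) .nil)) .nil)),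
 (.br (nat_lit 5) (nat_lit 1) (.cons (.rf (nat_lit 669) (nat_lit 407906070843954208)) (.cons (.br (nat_lit 1) (nat_lit 0) (.cons (.rf (nat_lit 540) (nat_lit 10349969443904)) (.cons (.rf (nat_lit 540) (nat_lit 10150253463648)) (.cons (.rf (nat_lit 540) (nat_lit 10047110285472)) (.cons (.br (nat_lit 6) (nat_lit 0) (.cons (.br (nat_lit 11) (nat_lit 1) (.cons (.br (nat_lit 2) (nat_lit 0) (.cons (.br (nat_lit 5) (nat_lit 0) (.cons (.ev (nat_lit 79228167255077564541210525953) (nat_lit 1)) .nil)) (.cons (.br (nat_lit 3) (nat_lit 0) (.cons (.ev (nat_lit 20679174240965011085201204707330) (nat_lit 3)) .nil)) (.cons (.br (nat_lit 3) (nat_lit 0) (.cons (.ev (nat_lit 20678557688722934106509598261250) (nat_lit 3)) .nil)) .nil)))) .nil)) .nil)) .nil))))) .nil))),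
 (.br (nat_lit 12) (nat_lit 0) (.cons (.rf (nat_lit 621) (nat_lit 13647330053152)) (.cons (.br (nat_lit 13) (nat_lit 0) (.cons (.rf (nat_lit 671) (nat_lit 493858305440582043680)) (.cons (.br (nat_lit 13) (nat_lit 0) (.cons (.rf (nat_lit 671) (nat_lit 493858305440582043680)) .nil)) .nil))) .nil))),
 (.br (nat_lit 3) (nat_lit 1) (.cons (.rf (nat_lit 110) (nat_lit 6614486048)) (.cons (.br (nat_lit 9) (nat_lit 1) (.cons (.rf (nat_lit 670) (nat_lit 398341278141505)) (.cons (.rf (nat_lit 571) (nat_lit 15070188969010241)) (.cons (.rf (nat_lit 574) (nat_lit 482283465936610369)) .nil)))) (.cons (.rf (nat_lit 577) (nat_lit 482246047008196640)) (.cons (.br (nat_lit 12) (nat_lit 0) (.cons (.rf (nat_lit 621) (nat_lit 13647330053152)) (.cons (.rf (nat_lit 672) (nat_lit 493858305440582043680)) (.cons (.br (nat_lit 12) (nat_lit 0) (.cons (.rf (nat_lit 621) (nat_lit 13647330053152)) (.cons (.rf (nat_lit 672) (nat_lit 493858305440582043680)) .nil))) .nil)))) .nil)))))]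

theorem c17 : chkAll C T R L17 (nat_lit 637) = true := by decide +kernel

theorem l17 : (nat_lit 637) + L17.length = (nat_lit 674) := by decide +kernel

/-- part of the certificates -/
def L18 : List Prf := [(.br (nat_lit 3) (nat_lit 1) (.cons (.br (nat_lit 5) (nat_lit 1) (.cons (.rf (nat_lit 669) (nat_lit 372998578090577056)) .nil)) (.cons (.br (nat_lit 5) (nat_lit 1) (.cons (.rf (nat_lit 669) (nat_lit 372998578090579040)) (.cons (.rf (nat_lit 110) (nat_lit 14038373472)) .nil))) .nil))),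
 (.br (nat_lit 11) (nat_lit 1) (.cons (.rf (nat_lit 674) (nat_lit 493858305440582043680)) (.cons (.br (nat_lit 12) (nat_lit 0) (.cons (.rf (nat_lit 627) (nat_lit 15433070910038444064)) (.cons (.rf (nat_lit 627) (nat_lit 15433070909971400736)) .nil))) .nil))),
 (.br (nat_lit 13) (nat_lit 0) (.cons (.br (nat_lit 11) (nat_lit 1) (.cons (.rf (nat_lit 674) (nat_lit 493858305440582043680)) (.cons (.rf (nat_lit 675) (nat_lit 493858305440582043680)) (.cons (.br (nat_lit 11) (nat_lit 1) (.cons (.rf (nat_lit 674) (nat_lit 493858305440582043680)) (.cons (.rf (nat_lit 675) (nat_lit 493858305440582043680)) .nil))) .nil)))) .nil)),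
 (.br (nat_lit 13) (nat_lit 0) (.cons (.rf (nat_lit 676) (nat_lit 493858305440582043680)) (.cons (.br (nat_lit 13) (nat_lit 0) (.cons (.rf (nat_lit 676) (nat_lit 493858305440582043680)) .nil)) .nil))),
 (.br (nat_lit 10) (nat_lit 1) (.cons (.rf (nat_lit 669) (nat_lit 407901468851537952)) (.cons (.br (nat_lit 12) (nat_lit 1) (.cons (.br (nat_lit 4) (nat_lit 0) (.cons (.rf (nat_lit 673) (nat_lit 493858305440582043680)) (.cons (.rf (nat_lit 673) (nat_lit 493858305440515000352)) (.cons (.br (nat_lit 13) (nat_lit 0) (.cons (.rf (nat_lit 677) (nat_lit 493858305440582043680)) (.cons (.rf (nat_lit 677) (nat_lit 493858305440515000352)) (.cons (.br (nat_lit 13) (nat_lit 0) (.cons (.rf (nat_lit 677) (nat_lit 493858305440582043680)) (.cons (.rf (nat_lit 677) (nat_lit 493858305440515000352)) .nil))) .nil)))) (.cons (.rf (nat_lit 669) (nat_lit 372998571739416608)) .nil))))) .nil)) .nil))),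
 (.br (nat_lit 7) (nat_lit 0) (.cons (.kr (nat_lit 18446744078004518912) (nat_lit 72339069014638592) (nat_lit 4) (nat_lit 0)) (.cons (.rf (nat_lit 678) (nat_lit 407901468851537952)) (.cons (.rf (nat_lit 678) (nat_lit 372998571739416608)) .nil)))),
 (.br (nat_lit 5) (nat_lit 1) (.cons (.rf (nat_lit 600) (nat_lit 6246890988970845249)) (.cons (.rf (nat_lit 679) (nat_lit 493858305440582043680)) .nil))),
 (.br (nat_lit 8) (nat_lit 1) (.cons (.rf (nat_lit 602) (nat_lit 5056778468086358048)) (.cons (.rf (nat_lit 602) (nat_lit 5021875570974236704)) .nil))),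
 (.br (nat_lit 6) (nat_lit 0) (.cons (.rf (nat_lit 681) (nat_lit 15433072045018188865)) (.cons (.kr (nat_lit 18446744078004518912) (nat_lit 72339069014638592) (nat_lit 4) (nat_lit 0)) (.cons (.rf (nat_lit 678) (nat_lit 372998571739416608)) .nil)))),
 (.br (nat_lit 12) (nat_lit 0) (.cons (.br (nat_lit 5) (nat_lit 1) (.cons (.rf (nat_lit 118) (nat_lit 12740187463746853)) (.cons (.rf (nat_lit 24) (nat_lit 12738130114483298)) (.cons (.br (nat_lit 6) (nat_lit 0) (.cons (.rf (nat_lit 679) (nat_lit 493858305440582043680)) .nil)) .nil)))) (.cons (.br (nat_lit 11) (nat_lit 1) (.cons (.rf (nat_lit 680) (nat_lit 493858305440582043680)) (.cons (.rf (nat_lit 682) (nat_lit 493858305440582043680)) (.cons (.br (nat_lit 11) (nat_lit 1) (.cons (.rf (nat_lit 680) (nat_lit 493858305440582043680)) (.cons (.rf (nat_lit 682) (nat_lit 493858305440582043680)) .nil))) .nil)))) .nil))),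
 (.br (nat_lit 5) (nat_lit 1) (.cons (.rf (nat_lit 602) (nat_lit 6246890988970845249)) (.cons (.br (nat_lit 5) (nat_lit 1) (.cons (.rf (nat_lit 669) (nat_lit 407901466639012896)) (.cons (.rf (nat_lit 24) (nat_lit 12738130114483298)) (.cons (.rf (nat_lit 683) (nat_lit 458117738797769787424)) .nil)))) (.cons (.rf (nat_lit 683) (nat_lit 493858305440582043680)) (.cons (.rf (nat_lit 683) (nat_lit 458117738797769787424)) .nil))))),
 (.br (nat_lit 10) (nat_lit 0) (.cons (.rf (nat_lit 621) (nat_lit 11310968409120)) (.cons (.rf (nat_lit 621) (nat_lit 11310867844128)) (.cons (.rf (nat_lit 678) (nat_lit 405581568036375584)) .nil)))),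
 (.br (nat_lit 9) (nat_lit 0) (.cons (.rf (nat_lit 621) (nat_lit 10177097042976)) (.cons (.rf (nat_lit 621) (nat_lit 10176996477984)) (.cons (.rf (nat_lit 685) (nat_lit 10422620931590176)) (.cons (.br (nat_lit 9) (nat_lit 0) (.cons (.rf (nat_lit 621) (nat_lit 10177097042976)) (.cons (.rf (nat_lit 621) (nat_lit 10176996477984)) (.cons (.rf (nat_lit 685) (nat_lit 10422655291328544)) .nil)))) .nil))))),
 (.br (nat_lit 3) (nat_lit 1) (.cons (.rf (nat_lit 110) (nat_lit 6614486048)) (.cons (.br (nat_lit 12) (nat_lit 0) (.cons (.rf (nat_lit 683) (nat_lit 493858305440582043680)) (.cons (.rf (nat_lit 684) (nat_lit 493858305440582043680)) (.cons (.br (nat_lit 12) (nat_lit 0) (.cons (.rf (nat_lit 683) (nat_lit 493858305440582043680)) (.cons (.rf (nat_lit 684) (nat_lit 493858305440582043680)) .nil))) .nil)))) (.cons (.rf (nat_lit 686) (nat_lit 470941188589600)) (.cons (.rf (nat_lit 686) (nat_lit 436856328128544)) .nil))))),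
 (.br (nat_lit 5) (nat_lit 0) (.cons (.ev (nat_lit 310698676454186641254318081) (nat_lit 1)) .nil)),
 (.br (nat_lit 2) (nat_lit 0) (.cons (.rf (nat_lit 688) (nat_lit 493858305440582043680)) (.cons (.rf (nat_lit 688) (nat_lit 493858305440515000352)) (.cons (.ev (nat_lit 4722438540463683207169) (nat_lit 1)) .nil)))),
 (.br (nat_lit 5) (nat_lit 0) (.cons (.ev (nat_lit 79228162514264620168049066241) (nat_lit 1)) (.cons (.ev (nat_lit 20282720297605830467887403368705) (nat_lit 1)) .nil))),
 (.br (nat_lit 1) (nat_lit 0) (.cons (.rf (nat_lit 688) (nat_lit 493858305440581978208)) (.cons (.ev (nat_lit 79538856468424381533696033025) (nat_lit 1)) (.cons (.rf (nat_lit 689) (nat_lit 493858305440582043680)) .nil)))),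
 (.br (nat_lit 5) (nat_lit 1) (.cons (.rf (nat_lit 621) (nat_lit 13645184603168)) (.cons (.br (nat_lit 6) (nat_lit 0) (.cons (.br (nat_lit 12) (nat_lit 0) (.cons (.br (nat_lit 11) (nat_lit 1) (.cons (.br (nat_lit 9) (nat_lit 0) (.cons (.rf (nat_lit 689) (nat_lit 493858305440582043680)) (.cons (.br (nat_lit 1) (nat_lit 0) (.cons (.rf (nat_lit 690) (nat_lit 493858305440582043680)) (.cons (.rf (nat_lit 690) (nat_lit 458117738797702744096)) (.cons (.ev (nat_lit 4722438540463683207169) (nat_lit 1)) .nil)))) (.cons (.rf (nat_lit 691) (nat_lit 493858305440582043680)) (.cons (.rf (nat_lit 691) (nat_lit 458117738797702744096)) .nil))))) .nil)) .nil)) .nil)) (.cons (.rf (nat_lit 669) (nat_lit 407901476275391648)) .nil)))),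
 (.br (nat_lit 13) (nat_lit 0) (.cons (.rf (nat_lit 692) (nat_lit 493858305440582043680)) (.cons (.br (nat_lit 13) (nat_lit 0) (.cons (.rf (nat_lit 692) (nat_lit 493858305440582043680)) .nil)) .nil))),
 (.br (nat_lit 3) (nat_lit 1) (.cons (.rf (nat_lit 669) (nat_lit 407901466706119712)) (.cons (.rf (nat_lit 693) (nat_lit 493858305440582043680)) (.cons (.rf (nat_lit 693) (nat_lit 458117738797769787424)) .nil)))),
 (.br (nat_lit 10) (nat_lit 1) (.cons (.rf (nat_lit 669) (nat_lit 407901468851537952)) (.cons (.rf (nat_lit 686) (nat_lit 289521769974816)) (.cons (.br (nat_lit 10) (nat_lit 1) (.cons (.rf (nat_lit 669) (nat_lit 407901468851537952)) (.cons (.rf (nat_lit 686) (nat_lit 289521769974816)) (.cons (.br (nat_lit 12) (nat_lit 1) (.cons (.br (nat_lit 4) (nat_lit 0) (.cons (.rf (nat_lit 687) (nat_lit 493858305440582043680)) (.cons (.rf (nat_lit 687) (nat_lit 493858305440515000352)) (.cons (.br (nat_lit 7) (nat_lit 0) (.cons (.rf (nat_lit 694) (nat_lit 493858305440582043680))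 (.cons (.rf (nat_lit 694) (nat_lit 493858305440515000352)) (.cons (.br (nat_lit 7) (nat_lit 0) (.cons (.rf (nat_lit 694) (nat_lit 493858305440582043680)) (.cons (.rf (nat_lit 694) (nat_lit 493858305440515000352)) .nil))) .nil)))) (.cons (.rf (nat_lit 669) (nat_lit 372998571739416608)) .nil))))) .nil)) .nil)))) .nil)))),
 (.br (nat_lit 5) (nat_lit 1) (.cons (.rf (nat_lit 621) (nat_lit 9043158665248)) (.cons (.rf (nat_lit 621) (nat_lit 13645184603168)) .nil))),
 (.br (nat_lit 6) (nat_lit 0) (.cons (.br (nat_lit 4) (nat_lit 0) (.cons (.rf (nat_lit 110) (nat_lit 6614486048)) (.cons (.rf (nat_lit 110) (nat_lit 6547379232)) (.cons (.br (nat_lit 3) (nat_lit 1) (.cons (.rf (nat_lit 696) (nat_lit 493858305440582043680)) (.cons (.rf (nat_lit 696) (nat_lit 458117738797769787424)) .nil))) .nil)))) (.cons (.rf (nat_lit 612) (nat_lit 15071358310556737)) .nil))),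
 (.br (nat_lit 11) (nat_lit 1) (.cons (.rf (nat_lit 669) (nat_lit 372998571739416608)) (.cons (.rf (nat_lit 686) (nat_lit 289556129713184)) (.cons (.br (nat_lit 6) (nat_lit 0) (.cons (.rf (nat_lit 697) (nat_lit 493858305440582043680)) (.cons (.rf (nat_lit 697) (nat_lit 493858305440515000352)) (.cons (.rf (nat_lit 612) (nat_lit 15071358310556737)) .nil)))) .nil)))),
 (.br (nat_lit 11) (nat_lit 1) (.cons (.rf (nat_lit 669) (nat_lit 372998571739416608)) (.cons (.rf (nat_lit 695) (nat_lit 372998571739416608)) (.cons (.br (nat_lit 10) (nat_lit 1) (.cons (.rf (nat_lit 669) (nat_lit 407901468851537952)) (.cons (.rf (nat_lit 686) (nat_lit 289521769974816)) (.cons (.rf (nat_lit 698) (nat_lit 493823402543469922336)) (.cons (.rf (nat_lit 698) (nat_lit 458082835900657666080)) .nil))))) .nil)))),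
 (.br (nat_lit 11) (nat_lit 1) (.cons (.rf (nat_lit 669) (nat_lit 372998571739416608)) (.cons (.rf (nat_lit 695) (nat_lit 372998571739416608)) (.cons (.rf (nat_lit 699) (nat_lit 493823402543469922336)) (.cons (.rf (nat_lit 699) (nat_lit 493858305440582043680)) .nil))))),
 (.br (nat_lit 10) (nat_lit 1) (.cons (.rf (nat_lit 669) (nat_lit 407901468851537952)) (.cons (.rf (nat_lit 686) (nat_lit 289521769974816)) (.cons (.br (nat_lit 10) (nat_lit 1) (.cons (.rf (nat_lit 669) (nat_lit 407901468851537952)) (.cons (.rf (nat_lit 686) (nat_lit 289521769974816)) (.cons (.br (nat_lit 12) (nat_lit 1) (.cons (.br (nat_lit 11) (nat_lit 1) (.cons (.rf (nat_lit 669) (nat_lit 372998571739416608)) (.cons (.rf (nat_lit 695) (nat_lit 372998571739416608)) (.cons (.rf (nat_lit 699) (nat_lit 493823402543469922336)) (.cons (.rf (nat_lit 700) (nat_lit 493858305440582043680)) (.cons (.rf (nat_lit 700) (nat_lit 458117738797769787424)) .nil)))))) .nil)) .nil)))) .nil)))),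
 (.br (nat_lit 8) (nat_lit 0) (.cons (.rf (nat_lit 621) (nat_lit 9043225708576)) (.cons (.rf (nat_lit 621) (nat_lit 9043158665248)) (.cons (.br (nat_lit 8) (nat_lit 0) (.cons (.rf (nat_lit 621) (nat_lit 9043225708576)) (.cons (.rf (nat_lit 621) (nat_lit 9043158665248)) (.cons (.br (nat_lit 10) (nat_lit 1) (.cons (.rf (nat_lit 669) (nat_lit 407901468851537952)) (.cons (.rf (nat_lit 695) (nat_lit 407901468851537952)) (.cons (.rf (nat_lit 701) (nat_lit 407901468851537952)) (.cons (.br (nat_lit 10) (nat_lit 1) (.cons (.rf (nat_lit 669) (nat_lit 407901468851537952)) (.cons (.rf (nat_lit 695) (nat_lit 407901468851537952)) (.cons (.rf (nat_lit 701) (nat_lit 407901468851537952)) (.cons (.br (nat_lit 10) (nat_lit 1) (.cons (.rf (nat_lit 669) (nat_lit 407901468851537952)) (.cons (.rf (nat_lit 695) (nat_lit 407901468851537952)) (.cons (.rf (nat_lit 701) (nat_lit 407901468851537952)) .nil)))) .nil))))) .nil))))) .nil)))) .nil)))),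
 (.br (nat_lit 2) (nat_lit 1) (.cons (.rf (nat_lit 110) (nat_lit 6614517792)) (.cons (.br (nat_lit 7) (nat_lit 1) (.cons (.br (nat_lit 8) (nat_lit 0) (.cons (.rf (nat_lit 621) (nat_lit 9043225708576)) (.cons (.rf (nat_lit 621) (nat_lit 9043158665248)) (.cons (.rf (nat_lit 702) (nat_lit 325702574508064)) (.cons (.br (nat_lit 8) (nat_lit 0) (.cons (.rf (nat_lit 621) (nat_lit 9043225708576)) (.cons (.rf (nat_lit 621) (nat_lit 9043158665248)) (.cons (.rf (nat_lit 702) (nat_lit 360886946596896)) (.cons (.br (nat_lit 8) (nat_lit 0) (.cons (.rf (nat_lit 621) (nat_lit 9043225708576)) (.cons (.rf (nat_lit 621) (nat_lit 9043158665248)) (.cons (.rf (nat_lit 702) (nat_lit 396071318685728)) .nil)))) .nil))))) .nil))))) .nil)) .nil))),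
 (.br (nat_lit 5) (nat_lit 1) (.cons (.br (nat_lit 11) (nat_lit 0) (.cons (.br (nat_lit 9) (nat_lit 0) (.cons (.br (nat_lit 9) (nat_lit 0) (.cons (.ev (nat_lit 20282720297605830466787875028993) (nat_lit 1)) (.cons (.kr (nat_lit 79228162514336676666853556224) (nat_lit 309494473001054881724760064) (nat_lit 4) (nat_lit 0)) (.cons (.ev (nat_lit 20361948460120022466416210870273) (nat_lit 1)) .nil)))) (.cons (.ev (nat_lit 20361638975091754376174264975361) (nat_lit 1)) (.cons (.br (nat_lit 9) (nat_lit 0) (.cons (.kr (nat_lit 79228162514336676666853556224) (nat_lit 309494473001054881724760064) (nat_lit 4) (nat_lit 0)) (.cons (.ev (nat_lit 20282720297605830466787875028993) (nat_lit 1)) (.cons (.ev (nat_lit 20282410812577562378744952258561) (nat_lit 1)) .nil)))) (.cons (.ev (nat_lit 20282410812577562378744952258561) (nat_lit 1)) .nil))))) .nil)) .nil)),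
 (.br (nat_lit 8) (nat_lit 0) (.cons (.rf (nat_lit 703) (nat_lit 13061097568)) (.cons (.rf (nat_lit 703) (nat_lit 12993988768)) (.cons (.br (nat_lit 12) (nat_lit 0) (.cons (.br (nat_lit 3) (nat_lit 1) (.cons (.rf (nat_lit 704) (nat_lit 493858305440582043680)) (.cons (.br (nat_lit 7) (nat_lit 0) (.cons (.rf (nat_lit 704) (nat_lit 493858305440515000352)) (.cons (.rf (nat_lit 81) (nat_lit 6209806660789209377)) .nil))) .nil))) .nil)) .nil)))),
 (.br (nat_lit 12) (nat_lit 0) (.cons (.rf (nat_lit 705) (nat_lit 493858305440582043680)) (.cons (.br (nat_lit 12) (nat_lit 0) (.cons (.rf (nat_lit 705) (nat_lit 493858305440582043680)) .nil)) .nil))),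
 (.br (nat_lit 12) (nat_lit 0) (.cons (.rf (nat_lit 706) (nat_lit 493858305440582043680)) (.cons (.rf (nat_lit 706) (nat_lit 493858305440515000352)) (.cons (.br (nat_lit 12) (nat_lit 0) (.cons (.rf (nat_lit 706) (nat_lit 493858305440582043680)) (.cons (.rf (nat_lit 706) (nat_lit 493858305440515000352)) .nil))) .nil)))),
 (.br (nat_lit 10) (nat_lit 1) (.cons (.rf (nat_lit 707) (nat_lit 493858305440582043680)) (.cons (.rf (nat_lit 707) (nat_lit 492741411667842271264)) .nil))),
 (.br (nat_lit 5) (nat_lit 1) (.cons (.rf (nat_lit 708) (nat_lit 489246623820134028320)) (.cons (.rf (nat_lit 703) (nat_lit 12993988768)) (.cons (.rf (nat_lit 708) (nat_lit 489102508769497125920)) .nil)))),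
 (.br (nat_lit 12) (nat_lit 0) (.cons (.rf (nat_lit 703) (nat_lit 13061098560)) (.cons (.rf (nat_lit 703) (nat_lit 13061097568)) (.cons (.rf (nat_lit 709) (nat_lit 493858305440582043680)) (.cons (.br (nat_lit 12) (nat_lit 0) (.cons (.rf (nat_lit 703) (nat_lit 13061098560)) (.cons (.rf (nat_lit 703) (nat_lit 13061097568)) (.cons (.rf (nat_lit 709) (nat_lit 493858305440582043680)) .nil)))) .nil))))),
 (.br (nat_lit 10) (nat_lit 1) (.cons (.rf (nat_lit 708) (nat_lit 493858305440582043680)) (.cons (.br (nat_lit 8) (nat_lit 0) (.cons (.rf (nat_lit 710) (nat_lit 493858305440582043680)) (.cons (.rf (nat_lit 710) (nat_lit 493858305440515000352)) (.cons (.br (nat_lit 8) (nat_lit 0) (.cons (.rf (nat_lit 710) (nat_lit 493858305440582043680)) (.cons (.rf (nat_lit 710) (nat_lit 493858305440515000352)) .nil))) .nil)))) .nil)))]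

theorem c18 : chkAll C T R L18 (nat_lit 674) = true := by decide +kernel

theorem l18 : (nat_lit 674) + L18.length = (nat_lit 712) := by decide +kernel

/-- part of the certificates -/
def L19 : List Prf := [(.br (nat_lit 10) (nat_lit 1) (.cons (.rf (nat_lit 708) (nat_lit 493858305440582043680)) (.cons (.rf (nat_lit 711) (nat_lit 493858305440582043680)) (.cons (.br (nat_lit 10) (nat_lit 1) (.cons (.rf (nat_lit 708) (nat_lit 493858305440582043680)) (.cons (.rf (nat_lit 711) (nat_lit 493858305440582043680)) .nil))) .nil)))),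
 (.br (nat_lit 10) (nat_lit 1) (.cons (.rf (nat_lit 712) (nat_lit 493858305440582043680)) (.cons (.rf (nat_lit 712) (nat_lit 492741411667842271264)) (.cons (.br (nat_lit 10) (nat_lit 1) (.cons (.rf (nat_lit 712) (nat_lit 493858305440582043680)) (.cons (.rf (nat_lit 712) (nat_lit 492741411667842271264)) .nil))) .nil)))),
 (.br (nat_lit 6) (nat_lit 0) (.cons (.rf (nat_lit 703) (nat_lit 4469099552)) (.cons (.rf (nat_lit 703) (nat_lit 4401992736)) (.cons (.kr (nat_lit 4294967296) (nat_lit 281474976710656) (nat_lit 4) (nat_lit 0)) (.cons (.br (nat_lit 10) (nat_lit 1) (.cons (.rf (nat_lit 712) (nat_lit 493858305440582043680)) (.cons (.rf (nat_lit 712) (nat_lit 492741411667842271264)) (.cons (.rf (nat_lit 713) (nat_lit 493858305440582043680)) (.cons (.rf (nat_lit 713) (nat_lit 492741411667842271264)) .nil))))) .nil))))),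
 (.br (nat_lit 2) (nat_lit 0) (.cons (.rf (nat_lit 192) (nat_lit 379752993254879106080)) (.cons (.br (nat_lit 3) (nat_lit 0) (.cons (.ev (nat_lit 20282719093402377054657175420928) (nat_lit 1)) .nil)) (.cons (.br (nat_lit 3) (nat_lit 0) (.cons (.ev (nat_lit 81211032991098113941559050503168) (nat_lit 3)) .nil)) .nil)))),
 (.br (nat_lit 1) (nat_lit 0) (.cons (.br (nat_lit 5) (nat_lit 0) (.cons (.zr (nat_lit 158765810038422077849850610432) (nat_lit 1208925820178678656598016) (nat_lit 5) (nat_lit 3)) .nil)) (.cons (.br (nat_lit 3) (nat_lit 0) (.cons (.zr (nat_lit 79847132552353771808998032128) (nat_lit 1208925820460153633308672) (nat_lit 5) (nat_lit 5)) .nil)) (.cons (.rf (nat_lit 715) (nat_lit 493858305440582043680)) .nil)))),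
 (.br (nat_lit 9) (nat_lit 0) (.cons (.rf (nat_lit 715) (nat_lit 493858305440582043680)) (.cons (.rf (nat_lit 716) (nat_lit 493858305440582043680)) (.cons (.br (nat_lit 1) (nat_lit 0) (.cons (.ev (nat_lit 18662917955385425922) (nat_lit 2)) .nil)) .nil)))),
 (.br (nat_lit 5) (nat_lit 1) (.cons (.br (nat_lit 9) (nat_lit 1) (.cons (.rf (nat_lit 328) (nat_lit 437310073280398405)) (.cons (.br (nat_lit 11) (nat_lit 0) (.cons (.br (nat_lit 10) (nat_lit 1) (.cons (.br (nat_lit 9) (nat_lit 0) (.cons (.rf (nat_lit 715) (nat_lit 493858305440582043680)) (.cons (.rf (nat_lit 716) (nat_lit 493858305440582043680)) (.cons (.rf (nat_lit 717) (nat_lit 493858305440582043680)) (.cons (.br (nat_lit 9) (nat_lit 0) (.cons (.rf (nat_lit 715) (nat_lit 493858305440582043680)) (.cons (.rf (nat_lit 716) (nat_lit 493858305440582043680)) (.cons (.rf (nat_lit 717) (nat_lit 493858305440582043680)) .nil)))) .nil))))) .nil)) .nil)) .nil))) (.cons (.rf (nat_lit 703) (nat_lit 12993988768)) .nil))),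
 (.br (nat_lit 2) (nat_lit 0) (.cons (.rf (nat_lit 192) (nat_lit 379752993254879106080)) (.cons (.br (nat_lit 3) (nat_lit 0) (.cons (.ev (nat_lit 81211032991098113941559083926528) (nat_lit 3)) .nil)) (.cons (.br (nat_lit 3) (nat_lit 0) (.cons (.ev (nat_lit 20282409608392483651994429423616) (nat_lit 1)) .nil)) .nil)))),
 (.br (nat_lit 1) (nat_lit 0) (.cons (.br (nat_lit 5) (nat_lit 0) (.cons (.ev (nat_lit 40565128701813235954981735170560) (nat_lit 2)) .nil)) (.cons (.br (nat_lit 3) (nat_lit 0) (.cons (.zr (nat_lit 79847132552353771808998032128) (nat_lit 1208925820460153633308672) (nat_lit 5) (nat_lit 5)) .nil)) (.cons (.rf (nat_lit 719) (nat_lit 493858305440582043680)) .nil)))),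
 (.br (nat_lit 9) (nat_lit 0) (.cons (.rf (nat_lit 719) (nat_lit 493858305440582043680)) (.cons (.rf (nat_lit 720) (nat_lit 493858305440582043680)) (.cons (.br (nat_lit 1) (nat_lit 0) (.cons (.zr (nat_lit 309485046786890818771747584) (nat_lit 1208925820741628610019328) (nat_lit 5) (nat_lit 2)) .nil)) .nil)))),
 (.br (nat_lit 5) (nat_lit 1) (.cons (.rf (nat_lit 718) (nat_lit 493858305440582043680)) (.cons (.br (nat_lit 8) (nat_lit 0) (.cons (.br (nat_lit 11) (nat_lit 0) (.cons (.br (nat_lit 10) (nat_lit 1) (.cons (.br (nat_lit 2) (nat_lit 0) (.cons (.br (nat_lit 3) (nat_lit 0) (.cons (.rf (nat_lit 73) (nat_lit 307301408)) (.cons (.br (nat_lit 5) (nat_lit 0) (.cons (.ev (nat_lit 310693954160043944447115520) (nat_lit 1)) .nil)) .nil))) (.cons (.rf (nat_lit 504) (nat_lit 10527632906674932800)) (.cons (.kr (nat_lit 311902879907318400783745026) (nat_lit 79228162514336678865876811776) (nat_lit 0) (nat_lit 1)) (.cons (.br (nat_lit 1) (nat_lit 0) (.cons (.ev (nat_lit 309485028340428211465814273)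 (nat_lit 1)) (.cons (.br (nat_lit 3) (nat_lit 0) (.cons (.ev (nat_lit 20282719093402377054657175420928) (nat_lit 1)) .nil)) (.cons (.br (nat_lit 3) (nat_lit 0) (.cons (.ev (nat_lit 20282719093402377054657175420928) (nat_lit 1)) .nil)) .nil)))) .nil))))) .nil)) .nil)) (.cons (.br (nat_lit 9) (nat_lit 1) (.cons (.br (nat_lit 10) (nat_lit 1) (.cons (.br (nat_lit 1) (nat_lit 0) (.cons (.kr (nat_lit 1208925819614629174706177) (nat_lit 79228162514264337593543950592) (nat_lit 0) (nat_lit 2)) (.cons (.br (nat_lit 2) (nat_lit 0) (.cons (.ev (nat_lit 310693935713017296249225216) (nat_lit 1)) (.cons (.ev (nat_lit 309485028340428211465814273) (nat_lit 1)) .nil))) (.cons (.kr (nat_lit 311902861460855802050904066) (nat_lit 79228162532783139265586397696) (nat_lit 0) (nat_lit 2)) (.cons (.br (nat_lit 9) (nat_lit 0) (.cons (.ev (nat_lit 20361947255916641391146912776448) (nat_lit 1)) (.cons (.rf (nat_lit 497) (nat_lit 340519886235013024800)) (.cons (.rf (nat_lit 497) (nat_lit 340519886234945917984))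 .nil)))) .nil))))) .nil)) (.cons (.br (nat_lit 10) (nat_lit 1) (.cons (.br (nat_lit 9) (nat_lit 0) (.cons (.rf (nat_lit 719) (nat_lit 493858305440582043680)) (.cons (.rf (nat_lit 720) (nat_lit 493858305440582043680)) (.cons (.rf (nat_lit 721) (nat_lit 493858305440582043680)) (.cons (.br (nat_lit 9) (nat_lit 0) (.cons (.rf (nat_lit 719) (nat_lit 493858305440582043680)) (.cons (.rf (nat_lit 720) (nat_lit 493858305440582043680)) (.cons (.rf (nat_lit 721) (nat_lit 493858305440582043680)) .nil)))) .nil))))) .nil)) .nil))) .nil))) .nil))),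
 (.br (nat_lit 5) (nat_lit 1) (.cons (.rf (nat_lit 718) (nat_lit 493858305440582043680)) (.cons (.rf (nat_lit 722) (nat_lit 493858305440582043680)) (.cons (.br (nat_lit 5) (nat_lit 1) (.cons (.rf (nat_lit 703) (nat_lit 12993988768)) (.cons (.rf (nat_lit 722) (nat_lit 493858305440582043680)) .nil))) .nil)))),
 (.br (nat_lit 2) (nat_lit 0) (.cons (.ev (nat_lit 80161453339745238530182479872) (nat_lit 3)) (.cons (.br (nat_lit 5) (nat_lit 0) (.cons (.ev (nat_lit 20282719093402377053557680570368) (nat_lit 1)) .nil)) .nil))),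
 (.br (nat_lit 1) (nat_lit 0) (.cons (.ev (nat_lit 80161453339745240729172180992) (nat_lit 3)) (.cons (.br (nat_lit 5) (nat_lit 0) (.cons (.ev (nat_lit 81129947918635240862306122401280) (nat_lit 3)) .nil)) .nil))),
 (.br (nat_lit 5) (nat_lit 1) (.cons (.rf (nat_lit 723) (nat_lit 493858305440515000352)) (.cons (.rf (nat_lit 703) (nat_lit 12993988768)) (.cons (.br (nat_lit 7) (nat_lit 0) (.cons (.br (nat_lit 8) (nat_lit 0) (.cons (.rf (nat_lit 240) (nat_lit 11615079593296399649)) .nil)) (.cons (.br (nat_lit 8) (nat_lit 0) (.cons (.br (nat_lit 10) (nat_lit 1) (.cons (.br (nat_lit 3) (nat_lit 0) (.cons (.rf (nat_lit 724) (nat_lit 493858305440582043680)) (.cons (.rf (nat_lit 725) (nat_lit 493858305440582043680)) (.cons (.kr (nat_lit 16777216) (nat_lit 1099511627776) (nat_lit 3) (nat_lit 0)) (.cons (.br (nat_lit 5) (nat_lit 0) (.cons (.rf (nat_lit 724) (nat_lit 493858305440515000352)) (.cons (.rf (nat_lit 725) (nat_lit 493858305440515000352)) (.cons (.br (nat_lit 1) (nat_lit 0)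 (.cons (.ev (nat_lit 310693954160043944447115520) (nat_lit 1)) .nil)) .nil)))) .nil))))) .nil)) (.cons (.br (nat_lit 9) (nat_lit 1) (.cons (.kr (nat_lit 309485028268089146729299968) (nat_lit 79228162514336676662558588928) (nat_lit 4) (nat_lit 0)) .nil)) .nil))) .nil))) .nil)))),
 (.br (nat_lit 12) (nat_lit 0) (.cons (.rf (nat_lit 726) (nat_lit 493858305440582043680)) (.cons (.br (nat_lit 8) (nat_lit 0) (.cons (.br (nat_lit 5) (nat_lit 1) (.cons (.rf (nat_lit 257) (nat_lit 11649947208325925153)) (.cons (.rf (nat_lit 723) (nat_lit 493714190389844481056)) .nil))) (.cons (.rf (nat_lit 515) (nat_lit 265055158028863777)) .nil))) .nil))),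
 (.br (nat_lit 3) (nat_lit 1) (.cons (.rf (nat_lit 723) (nat_lit 493858305440582043680)) (.cons (.rf (nat_lit 703) (nat_lit 13061097568)) (.cons (.br (nat_lit 12) (nat_lit 0) (.cons (.rf (nat_lit 726) (nat_lit 493858305440582043680)) (.cons (.rf (nat_lit 727) (nat_lit 493858305440582043680)) (.cons (.br (nat_lit 12) (nat_lit 0) (.cons (.rf (nat_lit 726) (nat_lit 493858305440582043680)) (.cons (.rf (nat_lit 727) (nat_lit 493858305440582043680)) .nil))) .nil)))) .nil)))),
 (.br (nat_lit 12) (nat_lit 0) (.cons (.rf (nat_lit 728) (nat_lit 493858305440582043680)) (.cons (.rf (nat_lit 728) (nat_lit 493858305440515000352)) (.cons (.br (nat_lit 12) (nat_lit 0) (.cons (.rf (nat_lit 728) (nat_lit 493858305440582043680)) (.cons (.rf (nat_lit 728) (nat_lit 493858305440515000352)) .nil))) .nil)))),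
 (.br (nat_lit 12) (nat_lit 0) (.cons (.rf (nat_lit 728) (nat_lit 493858305440582043680)) (.cons (.rf (nat_lit 728) (nat_lit 493858305440515000352)) (.cons (.rf (nat_lit 729) (nat_lit 493858305440582043680)) (.cons (.br (nat_lit 12) (nat_lit 0) (.cons (.rf (nat_lit 728) (nat_lit 493858305440582043680)) (.cons (.rf (nat_lit 728) (nat_lit 493858305440515000352)) (.cons (.rf (nat_lit 729) (nat_lit 493858305440582043680)) .nil)))) .nil))))),
 (.br (nat_lit 13) (nat_lit 1) (.cons (.rf (nat_lit 730) (nat_lit 493858305440582043680)) (.cons (.rf (nat_lit 730) (nat_lit 492741411667842271264)) .nil))),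
 (.br (nat_lit 5) (nat_lit 1) (.cons (.br (nat_lit 9) (nat_lit 1) (.cons (.rf (nat_lit 670) (nat_lit 366451151342661)) (.cons (.br (nat_lit 11) (nat_lit 0) (.cons (.br (nat_lit 10) (nat_lit 1) (.cons (.br (nat_lit 1) (nat_lit 0) (.cons (.rf (nat_lit 645) (nat_lit 413121153451066230816)) (.cons (.rf (nat_lit 645) (nat_lit 413121153451066199072)) (.cons (.ev (nat_lit 310693954159762465158594816) (nat_lit 1)) (.cons (.br (nat_lit 5) (nat_lit 0) (.cons (.rf (nat_lit 645) (nat_lit 413121153450999056544)) (.cons (.rf (nat_lit 645) (nat_lit 413121153450965503136)) (.cons (.ev (nat_lit 20282719093383858251889916248064) (nat_lit 1)) .nil)))) .nil))))) .nil)) .nil)) .nil))) (.cons (.rf (nat_lit 703) (nat_lit 12993988768)) .nil))),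
 (.br (nat_lit 5) (nat_lit 1) (.cons (.rf (nat_lit 731) (nat_lit 489246623820134028320)) (.cons (.rf (nat_lit 703) (nat_lit 12993988768)) (.cons (.rf (nat_lit 731) (nat_lit 489102508769497125920)) .nil)))),
 (.br (nat_lit 3) (nat_lit 1) (.cons (.br (nat_lit 5) (nat_lit 1) (.cons (.rf (nat_lit 732) (nat_lit 493858305440582043680)) (.cons (.br (nat_lit 5) (nat_lit 1) (.cons (.rf (nat_lit 732) (nat_lit 493858305440582043680)) (.cons (.rf (nat_lit 731) (nat_lit 489102508769497125920)) .nil))) (.cons (.rf (nat_lit 733) (nat_lit 493858305440582043680)) .nil)))) (.cons (.rf (nat_lit 703) (nat_lit 11986307168)) (.cons (.rf (nat_lit 731) (nat_lit 489246623820201135136)) .nil)))),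
 (.br (nat_lit 3) (nat_lit 1) (.cons (.rf (nat_lit 734) (nat_lit 493858305440582043680)) (.cons (.br (nat_lit 5) (nat_lit 1) (.cons (.rf (nat_lit 734) (nat_lit 493858305440515000352)) (.cons (.br (nat_lit 5) (nat_lit 1) (.cons (.rf (nat_lit 734) (nat_lit 493858305440515000352)) (.cons (.rf (nat_lit 734) (nat_lit 493714190389844544544)) (.cons (.rf (nat_lit 703) (nat_lit 12993988768)) .nil)))) (.cons (.rf (nat_lit 734) (nat_lit 493714190389844544544)) (.cons (.rf (nat_lit 733) (nat_lit 493858305440582043680)) .nil))))) (.cons (.rf (nat_lit 703) (nat_lit 13061097568)) .nil)))),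
 (.br (nat_lit 13) (nat_lit 1) (.cons (.rf (nat_lit 731) (nat_lit 493858305440582043680)) (.cons (.br (nat_lit 3) (nat_lit 1) (.cons (.rf (nat_lit 734) (nat_lit 493858305440582043680)) (.cons (.rf (nat_lit 735) (nat_lit 493858305440582043680)) (.cons (.br (nat_lit 3) (nat_lit 1) (.cons (.rf (nat_lit 703) (nat_lit 11986307168)) (.cons (.rf (nat_lit 735) (nat_lit 493858305440582043680)) (.cons (.rf (nat_lit 731) (nat_lit 489102508769564232736)) .nil)))) (.cons (.rf (nat_lit 733) (nat_lit 493858305440515000352)) .nil))))) .nil))),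
 (.br (nat_lit 13) (nat_lit 1) (.cons (.rf (nat_lit 731) (nat_lit 493858305440582043680)) (.cons (.rf (nat_lit 736) (nat_lit 493858305440582043680)) (.cons (.br (nat_lit 13) (nat_lit 1) (.cons (.rf (nat_lit 731) (nat_lit 493858305440582043680)) (.cons (.rf (nat_lit 736) (nat_lit 493858305440582043680)) .nil))) .nil)))),
 (.br (nat_lit 13) (nat_lit 1) (.cons (.rf (nat_lit 737) (nat_lit 493858305440582043680)) (.cons (.rf (nat_lit 737) (nat_lit 492741411667842271264)) (.cons (.br (nat_lit 13) (nat_lit 1) (.cons (.rf (nat_lit 737) (nat_lit 493858305440582043680)) (.cons (.rf (nat_lit 737) (nat_lit 492741411667842271264)) .nil))) .nil)))),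
 (.br (nat_lit 6) (nat_lit 0) (.cons (.rf (nat_lit 703) (nat_lit 4469099552)) (.cons (.rf (nat_lit 703) (nat_lit 4401992736)) (.cons (.kr (nat_lit 4294967296) (nat_lit 281474976710656) (nat_lit 4) (nat_lit 0)) (.cons (.br (nat_lit 13) (nat_lit 1) (.cons (.rf (nat_lit 737) (nat_lit 493858305440582043680)) (.cons (.rf (nat_lit 737) (nat_lit 492741411667842271264)) (.cons (.rf (nat_lit 738) (nat_lit 493858305440582043680)) (.cons (.rf (nat_lit 738) (nat_lit 492741411667842271264)) .nil))))) .nil))))),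
 (.br (nat_lit 4) (nat_lit 0) (.cons (.rf (nat_lit 703) (nat_lit 6614486048)) (.cons (.rf (nat_lit 703) (nat_lit 6547379232)) (.cons (.br (nat_lit 7) (nat_lit 1) (.cons (.br (nat_lit 3) (nat_lit 1) (.cons (.rf (nat_lit 703) (nat_lit 4469099552)) (.cons (.rf (nat_lit 703) (nat_lit 8765082688)) (.cons (.rf (nat_lit 703) (nat_lit 7692389440)) (.cons (.br (nat_lit 3) (nat_lit 1) (.cons (.rf (nat_lit 703) (nat_lit 4469099552)) (.cons (.rf (nat_lit 703) (nat_lit 8765082688)) (.cons (.rf (nat_lit 703) (nat_lit 7692389440)) (.cons (.br (nat_lit 11) (nat_lit 1) (.cons (.br (nat_lit 5) (nat_lit 1) (.cons (.rf (nat_lit 703) (nat_lit 4401992736)) (.cons (.rf (nat_lit 703) (nat_lit 8697975872)) (.cons (.rf (nat_lit 703) (nat_lit 7625282624)) (.cons (.rf (nat_lit 703) (nat_lit 12963583072)) (.cons (.rf (nat_lit 703) (nat_lit 11890889824)) .nil)))))) .nil)) .nil))))) .nil))))) (.cons (.br (nat_lit 8) (nat_lit 1) (.cons (.br (nat_lit 6) (nat_lit 0) (.cons (.rf (nat_lit 703) (nat_lit 4469099552))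 (.cons (.rf (nat_lit 703) (nat_lit 4401992736)) (.cons (.rf (nat_lit 714) (nat_lit 14242959524133701664)) (.cons (.rf (nat_lit 739) (nat_lit 14242959524133701664)) (.cons (.br (nat_lit 6) (nat_lit 0) (.cons (.rf (nat_lit 703) (nat_lit 4469099552)) (.cons (.rf (nat_lit 703) (nat_lit 4401992736)) (.cons (.rf (nat_lit 714) (nat_lit 14242959524133701664)) (.cons (.rf (nat_lit 739) (nat_lit 14242959524133701664)) .nil))))) .nil)))))) .nil)) .nil))) .nil)))),
 (.br (nat_lit 6) (nat_lit 0) (.cons (.rf (nat_lit 703) (nat_lit 4469099552)) (.cons (.rf (nat_lit 703) (nat_lit 4401992736)) (.cons (.kr (nat_lit 4294967296) (nat_lit 281474976710656) (nat_lit 4) (nat_lit 0)) (.cons (.rf (nat_lit 740) (nat_lit 396069173299232)) .nil)))))]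

theorem c19 : chkAll C T R L19 (nat_lit 712) = true := by decide +kernel

theorem l19 : (nat_lit 712) + L19.length = (nat_lit 742) := by decide +kernel

/-- part of the certificates -/
def L20 : List Prf := [(.br (nat_lit 2) (nat_lit 1) (.cons (.rf (nat_lit 703) (nat_lit 6614517792)) (.cons (.rf (nat_lit 703) (nat_lit 4469131296)) (.cons (.br (nat_lit 2) (nat_lit 1) (.cons (.rf (nat_lit 703) (nat_lit 6614517792)) (.cons (.rf (nat_lit 703) (nat_lit 4469131296)) (.cons (.br (nat_lit 4) (nat_lit 0) (.cons (.rf (nat_lit 703) (nat_lit 6614486048)) (.cons (.rf (nat_lit 703) (nat_lit 6547379232)) (.cons (.rf (nat_lit 740) (nat_lit 325702574508064)) (.cons (.br (nat_lit 4) (nat_lit 0) (.cons (.rf (nat_lit 703) (nat_lit 6614486048)) (.cons (.rf (nat_lit 703) (nat_lit 6547379232)) (.cons (.rf (nat_lit 740) (nat_lit 360886946596896)) (.cons (.br (nat_lit 6) (nat_lit 0) (.cons (.rf (nat_lit 703) (nat_lit 4469099552)) (.cons (.rf (nat_lit 703) (nat_lit 4401992736)) (.cons (.rf (nat_lit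 741) (nat_lit 11584701642934304)) (.cons (.rf (nat_lit 741) (nat_lit 10493986108180512)) (.cons (.rf (nat_lit 740) (nat_lit 396069173299232)) .nil)))))) .nil))))) .nil))))) .nil)))) .nil)))),
 (.br (nat_lit 9) (nat_lit 1) (.cons (.rf (nat_lit 157) (nat_lit 11584666276561922)) .nil)),
 (.br (nat_lit 10) (nat_lit 0) (.cons (.br (nat_lit 10) (nat_lit 0) (.cons (.rf (nat_lit 73) (nat_lit 441519136)) .nil)) (.cons (.rf (nat_lit 73) (nat_lit 441519136)) .nil))),
 (.br (nat_lit 8) (nat_lit 0) (.cons (.br (nat_lit 8) (nat_lit 0) (.cons (.rf (nat_lit 73) (nat_lit 441519136)) .nil)) (.cons (.rf (nat_lit 73) (nat_lit 441519136)) .nil))),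
 (.br (nat_lit 6) (nat_lit 0) (.cons (.ev (nat_lit 18889899404050900911872) (nat_lit 3)) (.cons (.rf (nat_lit 73) (nat_lit 407964704)) (.cons (.br (nat_lit 11) (nat_lit 0) (.cons (.rf (nat_lit 745) (nat_lit 14242959524133701664)) (.cons (.br (nat_lit 11) (nat_lit 0) (.cons (.rf (nat_lit 745) (nat_lit 14242959524133701664)) (.cons (.rf (nat_lit 73) (nat_lit 441519136)) .nil))) (.cons (.rf (nat_lit 73) (nat_lit 441519136)) .nil)))) .nil)))),
 (.br (nat_lit 10) (nat_lit 0) (.cons (.rf (nat_lit 73) (nat_lit 407964704)) (.cons (.br (nat_lit 10) (nat_lit 0) (.cons (.rf (nat_lit 73) (nat_lit 441519136)) .nil)) .nil))),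
 (.br (nat_lit 11) (nat_lit 0) (.cons (.rf (nat_lit 747) (nat_lit 407901468851537952)) (.cons (.rf (nat_lit 73) (nat_lit 407964704)) (.cons (.br (nat_lit 11) (nat_lit 0) (.cons (.rf (nat_lit 747) (nat_lit 407901468851537952)) (.cons (.rf (nat_lit 73) (nat_lit 441519136)) .nil))) .nil)))),
 (.br (nat_lit 8) (nat_lit 0) (.cons (.rf (nat_lit 748) (nat_lit 407901468851537952)) (.cons (.rf (nat_lit 75) (nat_lit 407899168832525376)) (.cons (.rf (nat_lit 73) (nat_lit 407964704)) (.cons (.br (nat_lit 8) (nat_lit 0) (.cons (.rf (nat_lit 748) (nat_lit 407901468851537952)) (.cons (.rf (nat_lit 75) (nat_lit 407899168832525376)) (.cons (.rf (nat_lit 73) (nat_lit 441519136)) .nil)))) .nil))))),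
 (.br (nat_lit 10) (nat_lit 0) (.cons (.br (nat_lit 10) (nat_lit 0) (.cons (.rf (nat_lit 73) (nat_lit 441519136)) .nil)) (.cons (.rf (nat_lit 73) (nat_lit 441519136)) .nil))),
 (.br (nat_lit 6) (nat_lit 0) (.cons (.kr (nat_lit 1099511628032) (nat_lit 16842752) (nat_lit 1) (nat_lit 0)) (.cons (.rf (nat_lit 73) (nat_lit 407964704)) (.cons (.br (nat_lit 11) (nat_lit 0) (.cons (.rf (nat_lit 750) (nat_lit 14242959524133701664)) (.cons (.br (nat_lit 11) (nat_lit 0) (.cons (.rf (nat_lit 750) (nat_lit 14242959524133701664)) (.cons (.rf (nat_lit 73) (nat_lit 441519136)) .nil))) (.cons (.rf (nat_lit 73) (nat_lit 441519136)) .nil)))) .nil)))),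
 (.br (nat_lit 8) (nat_lit 0) (.cons (.rf (nat_lit 748) (nat_lit 407901468851537952)) (.cons (.rf (nat_lit 751) (nat_lit 407901468851537952)) (.cons (.rf (nat_lit 73) (nat_lit 407964704)) (.cons (.br (nat_lit 8) (nat_lit 0) (.cons (.rf (nat_lit 748) (nat_lit 407901468851537952)) (.cons (.rf (nat_lit 751) (nat_lit 407901468851537952)) (.cons (.rf (nat_lit 73) (nat_lit 441519136)) .nil)))) .nil))))),
 (.br (nat_lit 8) (nat_lit 0) (.cons (.rf (nat_lit 75) (nat_lit 407899168832525376)) (.cons (.rf (nat_lit 752) (nat_lit 407901468851537952)) (.cons (.rf (nat_lit 73) (nat_lit 407964704)) (.cons (.br (nat_lit 8) (nat_lit 0) (.cons (.rf (nat_lit 75) (nat_lit 407899168832525376)) (.cons (.rf (nat_lit 752) (nat_lit 407901468851537952)) (.cons (.rf (nat_lit 73) (nat_lit 441519136)) .nil)))) .nil))))),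
 (.br (nat_lit 9) (nat_lit 1) (.cons (.br (nat_lit 2) (nat_lit 1) (.cons (.br (nat_lit 3) (nat_lit 1) (.cons (.br (nat_lit 5) (nat_lit 1) (.cons (.kr (nat_lit 1099511628032) (nat_lit 16842752) (nat_lit 1) (nat_lit 0)) (.cons (.rf (nat_lit 743) (nat_lit 362021926341697)) .nil))) (.cons (.br (nat_lit 8) (nat_lit 0) (.cons (.rf (nat_lit 743) (nat_lit 362018703119394)) (.cons (.rf (nat_lit 73) (nat_lit 374410272)) (.cons (.br (nat_lit 8) (nat_lit 0) (.cons (.rf (nat_lit 743) (nat_lit 362018703119394)) (.cons (.rf (nat_lit 73) (nat_lit 407964704)) .nil))) .nil)))) .nil))) (.cons (.br (nat_lit 3) (nat_lit 1) (.cons (.kr (nat_lit 9444732965739290427394) (nat_lit 72339069031481344) (nat_lit 0) (nat_lit 1)) (.cons (.br (nat_lit 5) (nat_lit 1) (.cons (.ev (nat_lit 18889899404050900911872) (nat_lit 3)) (.cons (.rf (nat_lit 743) (nat_lit 361953273971779)) .nil))) (.cons (.br (nat_lit 8) (nat_lit 0) (.cons (.kr (nat_lit 9444732965739290427394) (nat_lit 18446745177516146944) (nat_lit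 0) (nat_lit 2)) (.cons (.rf (nat_lit 73) (nat_lit 374410272)) (.cons (.br (nat_lit 10) (nat_lit 1) (.cons (.br (nat_lit 12) (nat_lit 0) (.cons (.rf (nat_lit 744) (nat_lit 11939366014714807360)) (.cons (.br (nat_lit 12) (nat_lit 0) (.cons (.rf (nat_lit 744) (nat_lit 11939366014714807360)) (.cons (.rf (nat_lit 73) (nat_lit 441519136)) .nil))) (.cons (.rf (nat_lit 73) (nat_lit 441519136)) .nil)))) .nil)) .nil)))) .nil)))) (.cons (.br (nat_lit 10) (nat_lit 1) (.cons (.br (nat_lit 10) (nat_lit 0) (.cons (.rf (nat_lit 748) (nat_lit 405651868061108256)) (.cons (.rf (nat_lit 75) (nat_lit 405647371166323776)) (.cons (.rf (nat_lit 73) (nat_lit 407964704)) (.cons (.br (nat_lit 10) (nat_lit 0) (.cons (.rf (nat_lit 748) (nat_lit 405651868061108256)) (.cons (.rf (nat_lit 75) (nat_lit 405647371166323776)) (.cons (.rf (nat_lit 73) (nat_lit 441519136)) .nil)))) .nil))))) .nil)) .nil)))) (.cons (.br (nat_lit 10) (nat_lit 1) (.cons (.br (nat_lit 8) (nat_lit 0) (.cons (.rf (nat_lit 749) (nat_lit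 407901468851537952)) (.cons (.rf (nat_lit 752) (nat_lit 407901468851537952)) (.cons (.rf (nat_lit 753) (nat_lit 407901468851537952)) (.cons (.rf (nat_lit 73) (nat_lit 407964704)) (.cons (.br (nat_lit 8) (nat_lit 0) (.cons (.rf (nat_lit 749) (nat_lit 407901468851537952)) (.cons (.rf (nat_lit 752) (nat_lit 407901468851537952)) (.cons (.rf (nat_lit 753) (nat_lit 407901468851537952)) (.cons (.rf (nat_lit 73) (nat_lit 441519136)) .nil))))) .nil)))))) .nil)) .nil))),
 (.br (nat_lit 8) (nat_lit 0) (.cons (.rf (nat_lit 747) (nat_lit 300945375747999776)) (.cons (.rf (nat_lit 73) (nat_lit 441519136)) .nil))),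
 (.br (nat_lit 12) (nat_lit 0) (.cons (.rf (nat_lit 755) (nat_lit 14242959524133701664)) (.cons (.br (nat_lit 12) (nat_lit 0) (.cons (.rf (nat_lit 755) (nat_lit 14242959524133701664)) (.cons (.rf (nat_lit 73) (nat_lit 441519136)) .nil))) (.cons (.rf (nat_lit 73) (nat_lit 441519136)) .nil)))),
 (.br (nat_lit 12) (nat_lit 0) (.cons (.rf (nat_lit 755) (nat_lit 14242959524133701664)) (.cons (.br (nat_lit 12) (nat_lit 0) (.cons (.rf (nat_lit 755) (nat_lit 14242959524133701664)) (.cons (.rf (nat_lit 73) (nat_lit 441519136)) .nil))) (.cons (.rf (nat_lit 73) (nat_lit 441519136)) .nil)))),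
 (.br (nat_lit 11) (nat_lit 0) (.cons (.rf (nat_lit 755) (nat_lit 13124976101011064864)) (.cons (.rf (nat_lit 75) (nat_lit 441676164968256576)) (.cons (.rf (nat_lit 73) (nat_lit 441519136)) .nil)))),
 (.br (nat_lit 11) (nat_lit 0) (.cons (.rf (nat_lit 755) (nat_lit 13124976101011064864)) (.cons (.br (nat_lit 12) (nat_lit 0) (.cons (.br (nat_lit 8) (nat_lit 0) (.cons (.rf (nat_lit 73) (nat_lit 441519136)) .nil)) (.cons (.rf (nat_lit 73) (nat_lit 441519136)) .nil))) (.cons (.rf (nat_lit 73) (nat_lit 441519136)) .nil)))),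
 (.br (nat_lit 11) (nat_lit 0) (.cons (.rf (nat_lit 758) (nat_lit 14242959524133701664)) (.cons (.rf (nat_lit 759) (nat_lit 14242959524133701664)) (.cons (.br (nat_lit 11) (nat_lit 0) (.cons (.rf (nat_lit 75) (nat_lit 441676164968256576)) (.cons (.rf (nat_lit 759) (nat_lit 14242959524133701664)) (.cons (.rf (nat_lit 73) (nat_lit 441519136)) .nil)))) (.cons (.rf (nat_lit 73) (nat_lit 441519136)) .nil))))),
 (.br (nat_lit 10) (nat_lit 1) (.cons (.br (nat_lit 12) (nat_lit 0) (.cons (.rf (nat_lit 756) (nat_lit 14242959524133701664)) (.cons (.rf (nat_lit 757) (nat_lit 14242959524133701664)) (.cons (.br (nat_lit 12) (nat_lit 0) (.cons (.rf (nat_lit 756) (nat_lit 14242959524133701664)) (.cons (.rf (nat_lit 757) (nat_lit 14242959524133701664)) (.cons (.rf (nat_lit 73) (nat_lit 441519136)) .nil)))) (.cons (.rf (nat_lit 73) (nat_lit 441519136)) .nil))))) (.cons (.rf (nat_lit 760) (nat_lit 14242959524133701664)) .nil))),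
 (.br (nat_lit 8) (nat_lit 0) (.cons (.rf (nat_lit 755) (nat_lit 9666214885725407264)) (.cons (.br (nat_lit 11) (nat_lit 0) (.cons (.kr (nat_lit 4722366483969156841473) (nat_lit 18446744073726394368) (nat_lit 0) (nat_lit 1)) (.cons (.rf (nat_lit 73) (nat_lit 441519136)) .nil))) (.cons (.rf (nat_lit 73) (nat_lit 441519136)) .nil)))),
 (.br (nat_lit 8) (nat_lit 0) (.cons (.rf (nat_lit 758) (nat_lit 14134876431611693088)) (.cons (.rf (nat_lit 762) (nat_lit 14242959524133701664)) (.cons (.br (nat_lit 8) (nat_lit 0) (.cons (.rf (nat_lit 75) (nat_lit 445053864685638720)) (.cons (.rf (nat_lit 762) (nat_lit 14242959524133701664)) (.cons (.rf (nat_lit 73) (nat_lit 441519136)) .nil)))) (.cons (.rf (nat_lit 73) (nat_lit 441519136)) .nil))))),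
 (.br (nat_lit 10) (nat_lit 1) (.cons (.rf (nat_lit 761) (nat_lit 14242959524133701664)) (.cons (.br (nat_lit 10) (nat_lit 1) (.cons (.rf (nat_lit 761) (nat_lit 14242959524133701664)) (.cons (.rf (nat_lit 763) (nat_lit 14242959524133701664)) .nil))) (.cons (.br (nat_lit 10) (nat_lit 1) (.cons (.rf (nat_lit 760) (nat_lit 14242959524133701664)) (.cons (.rf (nat_lit 763) (nat_lit 14242959524133701664)) .nil))) .nil)))),
 (.br (nat_lit 10) (nat_lit 1) (.cons (.rf (nat_lit 764) (nat_lit 14242959524133701664)) (.cons (.br (nat_lit 11) (nat_lit 0) (.cons (.rf (nat_lit 764) (nat_lit 7216257690173080640)) (.cons (.br (nat_lit 6) (nat_lit 0) (.cons (.kr (nat_lit 4722366482869645213697) (nat_lit 281474993487872) (nat_lit 0) (nat_lit 1)) (.cons (.rf (nat_lit 755) (nat_lit 7360368583244813408)) (.cons (.rf (nat_lit 73) (nat_lit 441519136)) .nil)))) (.cons (.rf (nat_lit 764) (nat_lit 7216257690105875616)) (.cons (.rf (nat_lit 73) (nat_lit 441519136)) .nil))))) .nil))),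
 (.br (nat_lit 10) (nat_lit 1) (.cons (.rf (nat_lit 764) (nat_lit 14242959524133701664)) (.cons (.rf (nat_lit 765) (nat_lit 14242959524133701664)) (.cons (.br (nat_lit 10) (nat_lit 1) (.cons (.rf (nat_lit 764) (nat_lit 14242959524133701664)) (.cons (.rf (nat_lit 765) (nat_lit 14242959524133701664)) .nil))) .nil)))),
 (.br (nat_lit 10) (nat_lit 1) (.cons (.rf (nat_lit 764) (nat_lit 14242959524133701664)) (.cons (.rf (nat_lit 766) (nat_lit 14242959524133701664)) (.cons (.br (nat_lit 10) (nat_lit 1) (.cons (.rf (nat_lit 764) (nat_lit 14242959524133701664)) (.cons (.rf (nat_lit 766) (nat_lit 14242959524133701664)) .nil))) .nil)))),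
 (.br (nat_lit 9) (nat_lit 1) (.cons (.br (nat_lit 11) (nat_lit 1) (.cons (.br (nat_lit 10) (nat_lit 1) (.cons (.rf (nat_lit 764) (nat_lit 14242959524133701664)) (.cons (.rf (nat_lit 766) (nat_lit 14242959524133701664)) (.cons (.rf (nat_lit 767) (nat_lit 14242959524133701664)) (.cons (.br (nat_lit 10) (nat_lit 1) (.cons (.rf (nat_lit 764) (nat_lit 14242959524133701664)) (.cons (.rf (nat_lit 766) (nat_lit 14242959524133701664)) (.cons (.rf (nat_lit 767) (nat_lit 14242959524133701664)) .nil)))) .nil))))) .nil)) .nil)),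
 (.br (nat_lit 8) (nat_lit 0) (.cons (.kr (nat_lit 1099511628032) (nat_lit 16842752) (nat_lit 1) (nat_lit 0)) (.cons (.rf (nat_lit 73) (nat_lit 407964704)) (.cons (.br (nat_lit 8) (nat_lit 0) (.cons (.kr (nat_lit 1099511628032) (nat_lit 16842752) (nat_lit 1) (nat_lit 0)) (.cons (.rf (nat_lit 73) (nat_lit 441519136)) .nil))) .nil)))),
 (.br (nat_lit 8) (nat_lit 0) (.cons (.rf (nat_lit 769) (nat_lit 407901468851537952)) (.cons (.rf (nat_lit 769) (nat_lit 407901468750812256)) (.cons (.rf (nat_lit 73) (nat_lit 407964704)) (.cons (.br (nat_lit 8) (nat_lit 0) (.cons (.rf (nat_lit 769) (nat_lit 407901468851537952)) (.cons (.rf (nat_lit 769) (nat_lit 407901468750812256)) (.cons (.rf (nat_lit 73) (nat_lit 441519136)) .nil)))) .nil))))),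
 (.br (nat_lit 10) (nat_lit 0) (.cons (.rf (nat_lit 747) (nat_lit 372998571739416608)) (.cons (.rf (nat_lit 73) (nat_lit 407964704)) (.cons (.rf (nat_lit 755) (nat_lit 9633527504543254560)) .nil)))),
 (.br (nat_lit 6) (nat_lit 0) (.cons (.kr (nat_lit 1099511628032) (nat_lit 16842752) (nat_lit 1) (nat_lit 0)) (.cons (.br (nat_lit 8) (nat_lit 0) (.cons (.rf (nat_lit 771) (nat_lit 445056165777344544)) (.cons (.rf (nat_lit 768) (nat_lit 10491686022089888)) (.cons (.rf (nat_lit 73) (nat_lit 441519136)) .nil)))) (.cons (.rf (nat_lit 73) (nat_lit 441519136)) .nil)))),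
 (.br (nat_lit 9) (nat_lit 1) (.cons (.rf (nat_lit 768) (nat_lit 11584701642934304)) (.cons (.br (nat_lit 9) (nat_lit 1) (.cons (.rf (nat_lit 768) (nat_lit 11584701642934304)) (.cons (.br (nat_lit 11) (nat_lit 1) (.cons (.br (nat_lit 3) (nat_lit 1) (.cons (.rf (nat_lit 770) (nat_lit 445056165777344544)) (.cons (.br (nat_lit 8) (nat_lit 0) (.cons (.rf (nat_lit 771) (nat_lit 445056165777344544)) (.cons (.rf (nat_lit 772) (nat_lit 14242959524133701664)) (.cons (.br (nat_lit 8) (nat_lit 0) (.cons (.rf (nat_lit 771) (nat_lit 445056165777344544)) (.cons (.rf (nat_lit 772) (nat_lit 14242959524133701664)) (.cons (.rf (nat_lit 73) (nat_lit 441519136)) .nil)))) (.cons (.rf (nat_lit 73) (nat_lit 441519136)) .nil))))) (.cons (.rf (nat_lit 768) (nat_lit 11589104957428832)) (.cons (.rf (nat_lit 768) (nat_lit 11588006519542880)) .nil))))) .nil)) .nil))) .nil))),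
 (.br (nat_lit 8) (nat_lit 0) (.cons (.kr (nat_lit 1099511628032) (nat_lit 16842752) (nat_lit 1) (nat_lit 0)) (.cons (.rf (nat_lit 773) (nat_lit 10491686089294912)) (.cons (.rf (nat_lit 73) (nat_lit 374410272)) .nil)))),
 (.br (nat_lit 9) (nat_lit 1) (.cons (.rf (nat_lit 773) (nat_lit 11584701642934304)) (.cons (.br (nat_lit 9) (nat_lit 1) (.cons (.rf (nat_lit 773) (nat_lit 11584701642934304)) (.cons (.br (nat_lit 11) (nat_lit 1) (.cons (.br (nat_lit 3) (nat_lit 1) (.cons (.br (nat_lit 8) (nat_lit 0) (.cons (.rf (nat_lit 774) (nat_lit 11584701642934304)) (.cons (.rf (nat_lit 774) (nat_lit 11584701542208608)) (.cons (.br (nat_lit 8) (nat_lit 0) (.cons (.rf (nat_lit 773) (nat_lit 10491686089294912)) (.cons (.rf (nat_lit 773) (nat_lit 10491686022089888)) (.cons (.rf (nat_lit 73) (nat_lit 441519136)) .nil)))) (.cons (.rf (nat_lit 73) (nat_lit 441519136)) .nil))))) (.cons (.rf (nat_lit 773) (nat_lit 11582504666436704)) (.cons (.rf (nat_lit 773) (nat_lit 11589104957428832)) (.cons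 (.rf (nat_lit 773) (nat_lit 11588006519542880)) .nil))))) .nil)) .nil))) .nil))),
 (.br (nat_lit 4) (nat_lit 0) (.cons (.rf (nat_lit 742) (nat_lit 7688258624)) (.cons (.rf (nat_lit 742) (nat_lit 7621117088)) (.cons (.rf (nat_lit 73) (nat_lit 307301408)) (.cons (.br (nat_lit 7) (nat_lit 0) (.cons (.rf (nat_lit 742) (nat_lit 7688225888)) (.cons (.br (nat_lit 9) (nat_lit 1) (.cons (.rf (nat_lit 754) (nat_lit 325702574508064)) (.cons (.br (nat_lit 8) (nat_lit 0) (.cons (.rf (nat_lit 754) (nat_lit 323402555622464)) (.cons (.rf (nat_lit 754) (nat_lit 323505598010464)) (.cons (.rf (nat_lit 754) (nat_lit 323402488417440)) (.cons (.rf (nat_lit 73) (nat_lit 340855840)) (.cons (.br (nat_lit 8) (nat_lit 0) (.cons (.rf (nat_lit 754) (nat_lit 323402555622464)) (.cons (.rf (nat_lit 754) (nat_lit 323505598010464)) (.cons (.rf (nat_lit 754) (nat_lit 323402488417440)) (.cons (.rf (nat_lit 73) (nat_lit 374410272)) .nil))))) .nil)))))) (.cons (.br (nat_lit 10) (nat_lit 1) (.cons (.br (nat_lit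 10) (nat_lit 0) (.cons (.rf (nat_lit 754) (nat_lit 328902261244992)) (.cons (.rf (nat_lit 754) (nat_lit 329005303632992)) (.cons (.rf (nat_lit 754) (nat_lit 328902194039968)) (.cons (.rf (nat_lit 73) (nat_lit 407964704)) (.cons (.br (nat_lit 10) (nat_lit 0) (.cons (.rf (nat_lit 754) (nat_lit 328902261244992)) (.cons (.rf (nat_lit 754) (nat_lit 329005303632992)) (.cons (.rf (nat_lit 754) (nat_lit 328902194039968)) (.cons (.rf (nat_lit 73) (nat_lit 441519136)) .nil))))) .nil)))))) .nil)) .nil)))) (.cons (.rf (nat_lit 73) (nat_lit 340855840)) (.cons (.br (nat_lit 9) (nat_lit 1) (.cons (.rf (nat_lit 773) (nat_lit 11584701642934304)) (.cons (.rf (nat_lit 775) (nat_lit 11584701642934304)) (.cons (.br (nat_lit 9) (nat_lit 1) (.cons (.rf (nat_lit 773) (nat_lit 11584701642934304)) (.cons (.rf (nat_lit 775) (nat_lit 11584701642934304)) (.cons (.br (nat_lit 9) (nat_lit 1) (.cons (.rf (nat_lit 773) (nat_lit 11584701642934304)) (.cons (.rf (nat_lit 775) (nat_lit 11584701642934304)) .nil)))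 .nil)))) .nil)))) .nil))))) .nil)))))]

theorem c20 : chkAll C T R L20 (nat_lit 742) = true := by decide +kernel

theorem l20 : (nat_lit 742) + L20.length = (nat_lit 777) := by decide +kernel

/-- part of the certificates -/
def L21 : List Prf := [(.br (nat_lit 11) (nat_lit 0) (.cons (.rf (nat_lit 571) (nat_lit 13908001990841378)) (.cons (.rf (nat_lit 73) (nat_lit 441519136)) .nil))),
 (.br (nat_lit 10) (nat_lit 1) (.cons (.br (nat_lit 10) (nat_lit 1) (.cons (.br (nat_lit 11) (nat_lit 1) (.cons (.br (nat_lit 11) (nat_lit 0) (.cons (.rf (nat_lit 777) (nat_lit 14242959524133701664)) (.cons (.br (nat_lit 12) (nat_lit 0) (.cons (.rf (nat_lit 777) (nat_lit 13126066816545818656)) (.cons (.rf (nat_lit 73) (nat_lit 441519136)) .nil))) (.cons (.rf (nat_lit 73) (nat_lit 441519136)) .nil)))) .nil)) .nil)) .nil)),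
 (.br (nat_lit 8) (nat_lit 0) (.cons (.br (nat_lit 9) (nat_lit 1) (.cons (.rf (nat_lit 778) (nat_lit 11584701642934304)) (.cons (.br (nat_lit 4) (nat_lit 0) (.cons (.br (nat_lit 11) (nat_lit 0) (.cons (.br (nat_lit 11) (nat_lit 0) (.cons (.rf (nat_lit 73) (nat_lit 407964704)) .nil)) (.cons (.rf (nat_lit 73) (nat_lit 407964704)) .nil))) (.cons (.rf (nat_lit 778) (nat_lit 11584701642934304)) (.cons (.rf (nat_lit 778) (nat_lit 10493986108180512)) (.cons (.rf (nat_lit 73) (nat_lit 407964704)) .nil))))) .nil))) (.cons (.rf (nat_lit 73) (nat_lit 374410272)) .nil))),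
 (.br (nat_lit 8) (nat_lit 0) (.cons (.rf (nat_lit 779) (nat_lit 11584701642934304)) (.cons (.rf (nat_lit 779) (nat_lit 10493986108180512)) (.cons (.rf (nat_lit 73) (nat_lit 374410272)) .nil)))),
 (.br (nat_lit 8) (nat_lit 0) (.cons (.rf (nat_lit 780) (nat_lit 11584701642934304)) (.cons (.br (nat_lit 8) (nat_lit 0) (.cons (.rf (nat_lit 780) (nat_lit 11584701642934304)) (.cons (.rf (nat_lit 73) (nat_lit 374410272)) .nil))) (.cons (.rf (nat_lit 73) (nat_lit 374410272)) .nil)))),
 (.br (nat_lit 8) (nat_lit 0) (.cons (.rf (nat_lit 780) (nat_lit 11584701642934304)) (.cons (.rf (nat_lit 781) (nat_lit 11584701642934304)) (.cons (.rf (nat_lit 781) (nat_lit 10493986108180512)) (.cons (.rf (nat_lit 73) (nat_lit 374410272)) .nil))))),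
 (.br (nat_lit 10) (nat_lit 0) (.cons (.rf (nat_lit 73) (nat_lit 374410272)) (.cons (.br (nat_lit 10) (nat_lit 0) (.cons (.rf (nat_lit 73) (nat_lit 407964704)) (.cons (.br (nat_lit 10) (nat_lit 0) (.cons (.rf (nat_lit 73) (nat_lit 441519136)) .nil)) .nil))) .nil))),
 (.br (nat_lit 5) (nat_lit 1) (.cons (.kr (nat_lit 16777216) (nat_lit 1099511627776) (nat_lit 3) (nat_lit 0)) (.cons (.rf (nat_lit 742) (nat_lit 8696956064)) (.cons (.kr (nat_lit 1099511628032) (nat_lit 16842752) (nat_lit 1) (nat_lit 0)) (.cons (.br (nat_lit 9) (nat_lit 1) (.cons (.rf (nat_lit 783) (nat_lit 11584701642934304)) .nil)) .nil))))),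
 (.br (nat_lit 12) (nat_lit 0) (.cons (.br (nat_lit 12) (nat_lit 0) (.cons (.rf (nat_lit 73) (nat_lit 441519136)) .nil)) (.cons (.rf (nat_lit 73) (nat_lit 441519136)) .nil))),
 (.br (nat_lit 5) (nat_lit 1) (.cons (.rf (nat_lit 782) (nat_lit 11584701575890976)) (.cons (.kr (nat_lit 16777216) (nat_lit 1099511627776) (nat_lit 3) (nat_lit 0)) (.cons (.br (nat_lit 11) (nat_lit 1) (.cons (.br (nat_lit 12) (nat_lit 0) (.cons (.rf (nat_lit 785) (nat_lit 14242959524133701664)) (.cons (.rf (nat_lit 785) (nat_lit 14241868808598947872)) (.cons (.rf (nat_lit 73) (nat_lit 441519136)) .nil)))) .nil)) .nil)))),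
 (.br (nat_lit 12) (nat_lit 0) (.cons (.br (nat_lit 12) (nat_lit 0) (.cons (.rf (nat_lit 73) (nat_lit 441519136)) .nil)) (.cons (.rf (nat_lit 73) (nat_lit 441519136)) .nil))),
 (.br (nat_lit 5) (nat_lit 1) (.cons (.rf (nat_lit 782) (nat_lit 11584701575890976)) (.cons (.br (nat_lit 11) (nat_lit 1) (.cons (.br (nat_lit 12) (nat_lit 0) (.cons (.rf (nat_lit 787) (nat_lit 14242959524133701664)) (.cons (.rf (nat_lit 787) (nat_lit 14241868808598947872)) (.cons (.rf (nat_lit 73) (nat_lit 441519136)) .nil)))) .nil)) .nil))),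
 (.br (nat_lit 9) (nat_lit 1) (.cons (.rf (nat_lit 742) (nat_lit 10847585440)) .nil)),
 (.br (nat_lit 8) (nat_lit 0) (.cons (.rf (nat_lit 784) (nat_lit 9043225708576)) (.cons (.br (nat_lit 5) (nat_lit 1) (.cons (.rf (nat_lit 786) (nat_lit 11584701642934304)) (.cons (.rf (nat_lit 788) (nat_lit 11584701642934304)) (.cons (.br (nat_lit 5) (nat_lit 1) (.cons (.rf (nat_lit 786) (nat_lit 11584701642934304)) (.cons (.rf (nat_lit 788) (nat_lit 11584701642934304)) (.cons (.rf (nat_lit 789) (nat_lit 13906870200797216)) .nil)))) .nil)))) (.cons (.rf (nat_lit 73) (nat_lit 374410272)) .nil)))),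
 (.br (nat_lit 8) (nat_lit 0) (.cons (.rf (nat_lit 784) (nat_lit 9043225708576)) (.cons (.rf (nat_lit 790) (nat_lit 11584701642934304)) (.cons (.rf (nat_lit 790) (nat_lit 10493986108180512)) (.cons (.rf (nat_lit 73) (nat_lit 374410272)) .nil))))),
 (.br (nat_lit 11) (nat_lit 0) (.cons (.ev (nat_lit 309485028268090241962737921) (nat_lit 1)) (.cons (.rf (nat_lit 73) (nat_lit 441519136)) .nil))),
 (.br (nat_lit 5) (nat_lit 1) (.cons (.rf (nat_lit 791) (nat_lit 11584701575890976)) (.cons (.rf (nat_lit 742) (nat_lit 8696956064)) (.cons (.rf (nat_lit 783) (nat_lit 13804615619414048)) (.cons (.br (nat_lit 8) (nat_lit 0) (.cons (.br (nat_lit 8) (nat_lit 0) (.cons (.br (nat_lit 11) (nat_lit 0) (.cons (.rf (nat_lit 792) (nat_lit 14242959524133701664)) (.cons (.rf (nat_lit 792) (nat_lit 14241868808598947872)) (.cons (.rf (nat_lit 73) (nat_lit 441519136)) .nil)))) (.cons (.rf (nat_lit 73) (nat_lit 441519136)) .nil))) (.cons (.br (nat_lit 8) (nat_lit 0) (.cons (.br (nat_lit 11) (nat_lit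 0) (.cons (.rf (nat_lit 792) (nat_lit 14242959524133701664)) (.cons (.rf (nat_lit 792) (nat_lit 14241868808598947872)) (.cons (.rf (nat_lit 73) (nat_lit 441519136)) .nil)))) (.cons (.rf (nat_lit 73) (nat_lit 441519136)) .nil))) (.cons (.rf (nat_lit 73) (nat_lit 441519136)) .nil)))) .nil))))),
 (.br (nat_lit 8) (nat_lit 0) (.cons (.rf (nat_lit 793) (nat_lit 14242959524133701664)) (.cons (.br (nat_lit 8) (nat_lit 0) (.cons (.rf (nat_lit 793) (nat_lit 14242959524133701664)) (.cons (.rf (nat_lit 73) (nat_lit 441519136)) .nil))) (.cons (.rf (nat_lit 73) (nat_lit 441519136)) .nil)))),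
 (.br (nat_lit 3) (nat_lit 1) (.cons (.rf (nat_lit 782) (nat_lit 11584701642934304)) (.cons (.rf (nat_lit 791) (nat_lit 11584701642934304)) (.cons (.br (nat_lit 11) (nat_lit 1) (.cons (.br (nat_lit 8) (nat_lit 0) (.cons (.rf (nat_lit 793) (nat_lit 14242959524133701664)) (.cons (.rf (nat_lit 794) (nat_lit 14242959524133701664)) (.cons (.rf (nat_lit 794) (nat_lit 14241868808598947872)) (.cons (.rf (nat_lit 73) (nat_lit 441519136)) .nil))))) .nil)) .nil)))),
 (.br (nat_lit 12) (nat_lit 0) (.cons (.br (nat_lit 6) (nat_lit 0) (.cons (.rf (nat_lit 75) (nat_lit 410153266519804960)) (.cons (.rf (nat_lit 75) (nat_lit 410188450891893792)) (.cons (.rf (nat_lit 73) (nat_lit 441519136)) .nil)))) (.cons (.rf (nat_lit 73) (nat_lit 441519136)) .nil))),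
 (.br (nat_lit 5) (nat_lit 1) (.cons (.kr (nat_lit 16777216) (nat_lit 1099511627776) (nat_lit 3) (nat_lit 0)) (.cons (.br (nat_lit 11) (nat_lit 1) (.cons (.br (nat_lit 12) (nat_lit 0) (.cons (.rf (nat_lit 796) (nat_lit 14242959524133701664)) (.cons (.rf (nat_lit 796) (nat_lit 14241868808598947872)) (.cons (.rf (nat_lit 73) (nat_lit 441519136)) .nil)))) .nil)) .nil))),
 (.br (nat_lit 8) (nat_lit 0) (.cons (.rf (nat_lit 776) (nat_lit 7975928432672)) (.cons (.br (nat_lit 5) (nat_lit 1) (.cons (.rf (nat_lit 797) (nat_lit 11584701642934304)) (.cons (.rf (nat_lit 797) (nat_lit 11583634345658400)) (.cons (.br (nat_lit 5) (nat_lit 1) (.cons (.rf (nat_lit 797) (nat_lit 11584701642934304)) (.cons (.rf (nat_lit 797) (nat_lit 11583634345658400)) (.cons (.rf (nat_lit 789) (nat_lit 13906870200797216)) .nil)))) .nil)))) (.cons (.rf (nat_lit 73) (nat_lit 374410272)) .nil)))),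
 (.br (nat_lit 10) (nat_lit 0) (.cons (.rf (nat_lit 73) (nat_lit 374410272)) (.cons (.br (nat_lit 10) (nat_lit 0) (.cons (.rf (nat_lit 73) (nat_lit 407964704)) (.cons (.br (nat_lit 10) (nat_lit 0) (.cons (.rf (nat_lit 73) (nat_lit 441519136)) .nil)) .nil))) .nil))),
 (.br (nat_lit 5) (nat_lit 1) (.cons (.ev (nat_lit 18664324260839162372) (nat_lit 3)) (.cons (.br (nat_lit 11) (nat_lit 1) (.cons (.rf (nat_lit 799) (nat_lit 13906870200797216)) .nil)) .nil))),
 (.br (nat_lit 6) (nat_lit 0) (.cons (.rf (nat_lit 776) (nat_lit 7975861389344)) (.cons (.br (nat_lit 5) (nat_lit 1) (.cons (.rf (nat_lit 800) (nat_lit 11584701642934304)) (.cons (.rf (nat_lit 800) (nat_lit 11580270314619968)) (.cons (.br (nat_lit 5) (nat_lit 1) (.cons (.rf (nat_lit 800) (nat_lit 11584701642934304)) (.cons (.rf (nat_lit 800) (nat_lit 11580270314619968)) (.cons (.rf (nat_lit 789) (nat_lit 13906870200797216)) .nil)))) .nil)))) (.cons (.rf (nat_lit 73) (nat_lit 374410272)) .nil)))),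
 (.br (nat_lit 4) (nat_lit 0) (.cons (.br (nat_lit 6) (nat_lit 0) (.cons (.rf (nat_lit 73) (nat_lit 441519136)) .nil)) (.cons (.rf (nat_lit 73) (nat_lit 441519136)) .nil))),
 (.br (nat_lit 8) (nat_lit 0) (.cons (.rf (nat_lit 802) (nat_lit 14242959524133701664)) (.cons (.rf (nat_lit 802) (nat_lit 14241868808598947872)) (.cons (.rf (nat_lit 73) (nat_lit 441519136)) .nil)))),
 (.br (nat_lit 6) (nat_lit 0) (.cons (.rf (nat_lit 803) (nat_lit 14242959524133701664)) (.cons (.br (nat_lit 4) (nat_lit 0) (.cons (.ev (nat_lit 79538861172272061648950460672) (nat_lit 2)) (.cons (.rf (nat_lit 73) (nat_lit 441519136)) .nil))) (.cons (.rf (nat_lit 73) (nat_lit 441519136)) .nil)))),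
 (.br (nat_lit 12) (nat_lit 0) (.cons (.br (nat_lit 6) (nat_lit 0) (.cons (.rf (nat_lit 803) (nat_lit 14242959524133701664)) (.cons (.rf (nat_lit 804) (nat_lit 14242959524133701664)) (.cons (.rf (nat_lit 804) (nat_lit 14241868808598947872)) (.cons (.rf (nat_lit 73) (nat_lit 441519136)) .nil))))) (.cons (.rf (nat_lit 73) (nat_lit 441519136)) .nil))),
 (.br (nat_lit 11) (nat_lit 0) (.cons (.rf (nat_lit 742) (nat_lit 12997166240)) (.cons (.br (nat_lit 12) (nat_lit 0) (.cons (.rf (nat_lit 805) (nat_lit 14242959524133701664)) (.cons (.rf (nat_lit 805) (nat_lit 14241868808598947872)) (.cons (.rf (nat_lit 73) (nat_lit 441519136)) .nil)))) (.cons (.rf (nat_lit 73) (nat_lit 441519136)) .nil)))),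
 (.br (nat_lit 11) (nat_lit 0) (.cons (.rf (nat_lit 742) (nat_lit 12997166240)) (.cons (.rf (nat_lit 806) (nat_lit 14242959524133701664)) (.cons (.rf (nat_lit 806) (nat_lit 14241868808598947872)) (.cons (.rf (nat_lit 73) (nat_lit 441519136)) .nil))))),
 (.br (nat_lit 12) (nat_lit 0) (.cons (.rf (nat_lit 807) (nat_lit 14242959524133701664)) (.cons (.br (nat_lit 12) (nat_lit 0) (.cons (.rf (nat_lit 807) (nat_lit 14242959524133701664)) (.cons (.rf (nat_lit 73) (nat_lit 441519136)) .nil))) (.cons (.rf (nat_lit 73) (nat_lit 441519136)) .nil)))),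
 (.br (nat_lit 12) (nat_lit 0) (.cons (.br (nat_lit 11) (nat_lit 0) (.cons (.rf (nat_lit 73) (nat_lit 441519136)) .nil)) (.cons (.rf (nat_lit 73) (nat_lit 441519136)) .nil))),
 (.br (nat_lit 6) (nat_lit 0) (.cons (.br (nat_lit 11) (nat_lit 0) (.cons (.rf (nat_lit 809) (nat_lit 14242959524133701664)) (.cons (.rf (nat_lit 809) (nat_lit 14241868808598947872)) (.cons (.rf (nat_lit 73) (nat_lit 441519136)) .nil)))) (.cons (.rf (nat_lit 73) (nat_lit 441519136)) .nil))),
 (.br (nat_lit 8) (nat_lit 0) (.cons (.kr (nat_lit 16777216) (nat_lit 1099511627776) (nat_lit 3) (nat_lit 0)) (.cons (.br (nat_lit 5) (nat_lit 1) (.cons (.rf (nat_lit 795) (nat_lit 11583634244930720)) (.cons (.rf (nat_lit 799) (nat_lit 13804615552370720)) (.cons (.br (nat_lit 6) (nat_lit 0) (.cons (.rf (nat_lit 810) (nat_lit 14242959524133701664)) (.cons (.rf (nat_lit 810) (nat_lit 14241868808598947872)) (.cons (.rf (nat_lit 73) (nat_lit 441519136)) .nil)))) .nil)))) (.cons (.rf (nat_lit 73) (nat_lit 441519136))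 .nil)))),
 (.br (nat_lit 8) (nat_lit 0) (.cons (.kr (nat_lit 16777216) (nat_lit 1099511627776) (nat_lit 3) (nat_lit 0)) (.cons (.rf (nat_lit 811) (nat_lit 14242959524133701664)) (.cons (.rf (nat_lit 811) (nat_lit 14241868808598947872)) (.cons (.rf (nat_lit 73) (nat_lit 441519136)) .nil))))),
 (.br (nat_lit 8) (nat_lit 0) (.cons (.rf (nat_lit 812) (nat_lit 14242959524133701664)) (.cons (.rf (nat_lit 812) (nat_lit 14242959524066658336)) (.cons (.br (nat_lit 8) (nat_lit 0) (.cons (.rf (nat_lit 812) (nat_lit 14242959524133701664)) (.cons (.rf (nat_lit 812) (nat_lit 14242959524066658336)) (.cons (.rf (nat_lit 73) (nat_lit 441519136)) .nil)))) (.cons (.rf (nat_lit 73) (nat_lit 441519136)) .nil))))),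
 (.br (nat_lit 8) (nat_lit 0) (.cons (.br (nat_lit 6) (nat_lit 0) (.cons (.rf (nat_lit 73) (nat_lit 441519136)) .nil)) (.cons (.rf (nat_lit 73) (nat_lit 441519136)) .nil))),
 (.br (nat_lit 12) (nat_lit 0) (.cons (.br (nat_lit 6) (nat_lit 0) (.cons (.rf (nat_lit 814) (nat_lit 14242959524133701664)) (.cons (.br (nat_lit 6) (nat_lit 0) (.cons (.rf (nat_lit 814) (nat_lit 14242959524133701664)) (.cons (.rf (nat_lit 73) (nat_lit 441519136)) .nil))) (.cons (.rf (nat_lit 73) (nat_lit 441519136)) .nil)))) (.cons (.rf (nat_lit 73) (nat_lit 441519136)) .nil))),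
 (.br (nat_lit 11) (nat_lit 0) (.cons (.rf (nat_lit 742) (nat_lit 12997166240)) (.cons (.br (nat_lit 12) (nat_lit 0) (.cons (.rf (nat_lit 815) (nat_lit 14242959524133701664)) (.cons (.br (nat_lit 12) (nat_lit 0) (.cons (.rf (nat_lit 815) (nat_lit 14242959524133701664)) (.cons (.rf (nat_lit 73) (nat_lit 441519136)) .nil))) (.cons (.rf (nat_lit 73) (nat_lit 441519136)) .nil)))) (.cons (.rf (nat_lit 73) (nat_lit 441519136)) .nil)))),
 (.br (nat_lit 11) (nat_lit 0) (.cons (.rf (nat_lit 742) (nat_lit 12997166240)) (.cons (.rf (nat_lit 816) (nat_lit 14242959524133701664)) (.cons (.br (nat_lit 11) (nat_lit 0) (.cons (.rf (nat_lit 742) (nat_lit 12997166240)) (.cons (.rf (nat_lit 816) (nat_lit 14242959524133701664)) (.cons (.rf (nat_lit 73) (nat_lit 441519136)) .nil)))) (.cons (.rf (nat_lit 73) (nat_lit 441519136)) .nil))))),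
 (.br (nat_lit 12) (nat_lit 0) (.cons (.rf (nat_lit 817) (nat_lit 14242959524133701664)) (.cons (.br (nat_lit 12) (nat_lit 0) (.cons (.rf (nat_lit 817) (nat_lit 14242959524133701664)) (.cons (.rf (nat_lit 73) (nat_lit 441519136)) .nil))) (.cons (.rf (nat_lit 73) (nat_lit 441519136)) .nil)))),
 (.br (nat_lit 12) (nat_lit 0) (.cons (.rf (nat_lit 817) (nat_lit 14242959524133701664)) (.cons (.rf (nat_lit 818) (nat_lit 14242959524133701664)) (.cons (.br (nat_lit 12) (nat_lit 0) (.cons (.rf (nat_lit 817) (nat_lit 14242959524133701664)) (.cons (.rf (nat_lit 818) (nat_lit 14242959524133701664)) (.cons (.rf (nat_lit 73) (nat_lit 441519136)) .nil)))) (.cons (.rf (nat_lit 73) (nat_lit 441519136)) .nil))))),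
 (.br (nat_lit 6) (nat_lit 0) (.cons (.ev (nat_lit 72340168526332161) (nat_lit 1)) (.cons (.rf (nat_lit 73) (nat_lit 441519136)) .nil))),
 (.br (nat_lit 11) (nat_lit 0) (.cons (.ev (nat_lit 4740885284541704503296) (nat_lit 1)) (.cons (.br (nat_lit 11) (nat_lit 0) (.cons (.ev (nat_lit 4740885284541704503296) (nat_lit 1)) (.cons (.rf (nat_lit 73) (nat_lit 441519136)) .nil))) (.cons (.rf (nat_lit 73) (nat_lit 441519136)) .nil)))),
 (.br (nat_lit 11) (nat_lit 0) (.cons (.ev (nat_lit 4740885284541704503296) (nat_lit 1)) (.cons (.br (nat_lit 11) (nat_lit 0) (.cons (.ev (nat_lit 4740885284541704503296) (nat_lit 1)) (.cons (.rf (nat_lit 73) (nat_lit 441519136)) .nil))) (.cons (.rf (nat_lit 73) (nat_lit 441519136)) .nil)))),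
 (.br (nat_lit 8) (nat_lit 0) (.cons (.rf (nat_lit 819) (nat_lit 14242959524133701664)) (.cons (.br (nat_lit 5) (nat_lit 1) (.cons (.rf (nat_lit 742) (nat_lit 8696956064)) (.cons (.br (nat_lit 3) (nat_lit 1) (.cons (.br (nat_lit 6) (nat_lit 0) (.cons (.rf (nat_lit 770) (nat_lit 296441913559582752)) (.cons (.br (nat_lit 11) (nat_lit 0) (.cons (.ev (nat_lit 4740885284541704503296) (nat_lit 1)) (.cons (.ev (nat_lit 1208944338698871410524416) (nat_lit 1)) (.cons (.rf (nat_lit 73) (nat_lit 441519136)) .nil)))) (.cons (.rf (nat_lit 73) (nat_lit 441519136)) .nil)))) (.cons (.rf (nat_lit 799) (nat_lit 13796885759362112)) (.cons (.br (nat_lit 6) (nat_lit 0) (.cons (.rf (nat_lit 820) (nat_lit 14242959524133701664)) (.cons (.rf (nat_lit 820) (nat_lit 14241868808598947872)) (.cons (.rf (nat_lit 73) (nat_lit 441519136)) .nil)))) .nil)))) (.cons (.br (nat_lit 6) (nat_lit 0) (.cons (.rf (nat_lit 821) (nat_lit 14242959524133701664)) (.cons (.rf (nat_lit 822) (nat_lit 14242959524133701664))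 (.cons (.br (nat_lit 6) (nat_lit 0) (.cons (.rf (nat_lit 821) (nat_lit 14242959524133701664)) (.cons (.rf (nat_lit 822) (nat_lit 14242959524133701664)) (.cons (.rf (nat_lit 73) (nat_lit 441519136)) .nil)))) (.cons (.rf (nat_lit 73) (nat_lit 441519136)) .nil))))) .nil)))) (.cons (.rf (nat_lit 73) (nat_lit 441519136)) .nil))))]

theorem c21 : chkAll C T R L21 (nat_lit 777) = true := by decide +kernel

theorem l21 : (nat_lit 777) + L21.length = (nat_lit 824) := by decide +kernel

/-- part of the certificates -/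
def L22 : List Prf := [(.br (nat_lit 8) (nat_lit 0) (.cons (.rf (nat_lit 819) (nat_lit 14242959524133701664)) (.cons (.rf (nat_lit 823) (nat_lit 14242959524133701664)) (.cons (.br (nat_lit 8) (nat_lit 0) (.cons (.rf (nat_lit 819) (nat_lit 14242959524133701664)) (.cons (.rf (nat_lit 823) (nat_lit 14242959524133701664)) (.cons (.rf (nat_lit 73) (nat_lit 441519136)) .nil)))) (.cons (.rf (nat_lit 73) (nat_lit 441519136)) .nil))))),
 (.br (nat_lit 8) (nat_lit 0) (.cons (.rf (nat_lit 819) (nat_lit 14242959524133701664)) (.cons (.rf (nat_lit 824) (nat_lit 14242959524133701664)) (.cons (.br (nat_lit 8) (nat_lit 0) (.cons (.rf (nat_lit 819) (nat_lit 14242959524133701664)) (.cons (.rf (nat_lit 824) (nat_lit 14242959524133701664)) (.cons (.rf (nat_lit 73) (nat_lit 441519136)) .nil)))) (.cons (.rf (nat_lit 73) (nat_lit 441519136)) .nil))))),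
 (.br (nat_lit 8) (nat_lit 0) (.cons (.rf (nat_lit 819) (nat_lit 14242959524133701664)) (.cons (.rf (nat_lit 824) (nat_lit 14242959524133701664)) (.cons (.rf (nat_lit 825) (nat_lit 14242959524133701664)) (.cons (.br (nat_lit 8) (nat_lit 0) (.cons (.rf (nat_lit 819) (nat_lit 14242959524133701664)) (.cons (.rf (nat_lit 824) (nat_lit 14242959524133701664)) (.cons (.rf (nat_lit 825) (nat_lit 14242959524133701664)) (.cons (.rf (nat_lit 73) (nat_lit 441519136)) .nil))))) (.cons (.rf (nat_lit 73) (nat_lit 441519136)) .nil)))))),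
 (.br (nat_lit 7) (nat_lit 0) (.cons (.rf (nat_lit 742) (nat_lit 7688225888)) (.cons (.rf (nat_lit 776) (nat_lit 9043225708576)) (.cons (.rf (nat_lit 73) (nat_lit 307301408)) (.cons (.br (nat_lit 7) (nat_lit 0) (.cons (.rf (nat_lit 742) (nat_lit 7688225888)) (.cons (.rf (nat_lit 776) (nat_lit 9043225708576)) (.cons (.rf (nat_lit 73) (nat_lit 340855840)) (.cons (.br (nat_lit 2) (nat_lit 1) (.cons (.rf (nat_lit 742) (nat_lit 7688258624)) (.cons (.rf (nat_lit 795) (nat_lit 11584701642934304)) (.cons (.br (nat_lit 3) (nat_lit 1) (.cons (.br (nat_lit 8) (nat_lit 0) (.cons (.rf (nat_lit 776) (nat_lit 7975928432672)) (.cons (.rf (nat_lit 798) (nat_lit 11584701642934304)) (.cons (.rf (nat_lit 798) (nat_lit 10493986108180512)) (.cons (.rf (nat_lit 73) (nat_lit 374410272)) .nil))))) (.cons (.br (nat_lit 6) (nat_lit 0) (.cons (.rf (nat_lit 776) (nat_lit 7975861389344)) (.cons (.rf (nat_lit 801) (nat_lit 11584701642934304)) (.cons (.rf (nat_lit 801) (nat_lit 10493986108180512)) (.cons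 (.rf (nat_lit 73) (nat_lit 374410272)) .nil))))) (.cons (.br (nat_lit 11) (nat_lit 1) (.cons (.br (nat_lit 12) (nat_lit 0) (.cons (.rf (nat_lit 807) (nat_lit 14242959524133701664)) (.cons (.rf (nat_lit 808) (nat_lit 14242959524133701664)) (.cons (.rf (nat_lit 808) (nat_lit 14241868808598947872)) (.cons (.rf (nat_lit 73) (nat_lit 441519136)) .nil))))) .nil)) .nil)))) (.cons (.br (nat_lit 11) (nat_lit 1) (.cons (.br (nat_lit 4) (nat_lit 0) (.cons (.br (nat_lit 8) (nat_lit 0) (.cons (.rf (nat_lit 812) (nat_lit 14242959524133701664)) (.cons (.rf (nat_lit 812) (nat_lit 14242959524066658336)) (.cons (.rf (nat_lit 813) (nat_lit 14242959524133701664)) (.cons (.rf (nat_lit 813) (nat_lit 14241868808598947872)) (.cons (.rf (nat_lit 73) (nat_lit 441519136)) .nil)))))) (.cons (.rf (nat_lit 826) (nat_lit 14242959524133701664)) (.cons (.rf (nat_lit 826) (nat_lit 14241868808598947872)) (.cons (.rf (nat_lit 73) (nat_lit 441519136)) .nil))))) .nil)) .nil))))) .nil))))) .nil))))),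
 (.br (nat_lit 3) (nat_lit 1) (.cons (.rf (nat_lit 742) (nat_lit 8764064864)) (.cons (.br (nat_lit 11) (nat_lit 1) (.cons (.br (nat_lit 8) (nat_lit 0) (.cons (.rf (nat_lit 827) (nat_lit 13480902038624)) (.cons (.br (nat_lit 8) (nat_lit 0) (.cons (.rf (nat_lit 827) (nat_lit 13480902038624)) (.cons (.br (nat_lit 8) (nat_lit 0) (.cons (.rf (nat_lit 827) (nat_lit 13480902038624)) (.cons (.rf (nat_lit 73) (nat_lit 441519136)) .nil))) (.cons (.rf (nat_lit 73) (nat_lit 441519136)) .nil)))) (.cons (.br (nat_lit 8) (nat_lit 0) (.cons (.rf (nat_lit 827) (nat_lit 13480902038624)) (.cons (.br (nat_lit 8) (nat_lit 0) (.cons (.rf (nat_lit 827) (nat_lit 13480902038624)) (.cons (.rf (nat_lit 73) (nat_lit 441519136)) .nil))) (.cons (.rf (nat_lit 73) (nat_lit 441519136)) .nil)))) (.cons (.rf (nat_lit 73) (nat_lit 441519136)) .nil))))) .nil)) .nil))),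
 (.br (nat_lit 5) (nat_lit 1) (.cons (.kr (nat_lit 16777216) (nat_lit 1099511627776) (nat_lit 3) (nat_lit 0)) (.cons (.br (nat_lit 8) (nat_lit 0) (.cons (.ev (nat_lit 4722438821942954885376) (nat_lit 1)) (.cons (.br (nat_lit 11) (nat_lit 0) (.cons (.br (nat_lit 12) (nat_lit 0) (.cons (.ev (nat_lit 2422611044162096083304705) (nat_lit 2)) (.cons (.rf (nat_lit 73) (nat_lit 441519136)) .nil))) (.cons (.br (nat_lit 12) (nat_lit 0) (.cons (.ev (nat_lit 2422611044163195578155265) (nat_lit 2)) (.cons (.rf (nat_lit 73) (nat_lit 441519136)) .nil))) (.cons (.rf (nat_lit 73) (nat_lit 441519136)) .nil)))) (.cons (.rf (nat_lit 73) (nat_lit 441519136)) .nil)))) .nil))),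
 (.br (nat_lit 8) (nat_lit 0) (.cons (.rf (nat_lit 829) (nat_lit 407901468851537952)) (.cons (.ev (nat_lit 4722438821942954885376) (nat_lit 1)) (.cons (.br (nat_lit 8) (nat_lit 0) (.cons (.rf (nat_lit 829) (nat_lit 407901468851537952)) (.cons (.ev (nat_lit 4722438821942954885376) (nat_lit 1)) (.cons (.rf (nat_lit 73) (nat_lit 407964704)) .nil)))) (.cons (.rf (nat_lit 73) (nat_lit 407964704)) .nil))))),
 (.br (nat_lit 3) (nat_lit 1) (.cons (.rf (nat_lit 742) (nat_lit 8764064864)) (.cons (.br (nat_lit 6) (nat_lit 0) (.cons (.rf (nat_lit 828) (nat_lit 11584701575890976)) (.cons (.rf (nat_lit 830) (nat_lit 407901468851537952)) (.cons (.rf (nat_lit 830) (nat_lit 406810753316784160)) (.cons (.rf (nat_lit 73) (nat_lit 407964704)) .nil))))) .nil))),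
 (.br (nat_lit 7) (nat_lit 0) (.cons (.rf (nat_lit 827) (nat_lit 8940149638208)) (.cons (.rf (nat_lit 827) (nat_lit 8940082594880)) (.cons (.br (nat_lit 3) (nat_lit 1) (.cons (.rf (nat_lit 828) (nat_lit 11584701642934304)) (.cons (.rf (nat_lit 831) (nat_lit 11584701642934304)) (.cons (.br (nat_lit 3) (nat_lit 1) (.cons (.rf (nat_lit 828) (nat_lit 11584701642934304)) (.cons (.rf (nat_lit 831) (nat_lit 11584701642934304)) (.cons (.rf (nat_lit 789) (nat_lit 13906870133753888)) .nil)))) .nil)))) (.cons (.rf (nat_lit 73) (nat_lit 374410272)) .nil))))),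
 (.br (nat_lit 10) (nat_lit 0) (.cons (.rf (nat_lit 827) (nat_lit 4749337396288)) (.cons (.rf (nat_lit 827) (nat_lit 6949300147296)) (.cons (.rf (nat_lit 73) (nat_lit 374410272)) (.cons (.br (nat_lit 10) (nat_lit 0) (.cons (.rf (nat_lit 827) (nat_lit 4749337396288)) (.cons (.rf (nat_lit 827) (nat_lit 6949300147296)) (.cons (.rf (nat_lit 73) (nat_lit 407964704)) (.cons (.br (nat_lit 10) (nat_lit 0) (.cons (.rf (nat_lit 827) (nat_lit 4749337396288)) (.cons (.rf (nat_lit 827) (nat_lit 6949300147296)) (.cons (.rf (nat_lit 73) (nat_lit 441519136)) .nil)))) .nil))))) .nil))))),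
 (.br (nat_lit 5) (nat_lit 1) (.cons (.rf (nat_lit 827) (nat_lit 7975827704992)) (.cons (.rf (nat_lit 827) (nat_lit 4680514047136)) (.cons (.rf (nat_lit 742) (nat_lit 8696956064)) (.cons (.rf (nat_lit 827) (nat_lit 11279731297440)) (.cons (.rf (nat_lit 827) (nat_lit 10181293411488)) .nil)))))),
 (.br (nat_lit 5) (nat_lit 1) (.cons (.rf (nat_lit 827) (nat_lit 9043158665248)) (.cons (.rf (nat_lit 827) (nat_lit 10181293411488)) (.cons (.rf (nat_lit 827) (nat_lit 11142327075904)) (.cons (.kr (nat_lit 16777216) (nat_lit 1099511627776) (nat_lit 3) (nat_lit 0)) (.cons (.rf (nat_lit 742) (nat_lit 10847585440)) .nil)))))),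
 (.br (nat_lit 3) (nat_lit 1) (.cons (.rf (nat_lit 742) (nat_lit 8764064864)) (.cons (.rf (nat_lit 827) (nat_lit 13343564858432)) (.cons (.rf (nat_lit 833) (nat_lit 13906870200797216)) (.cons (.br (nat_lit 5) (nat_lit 1) (.cons (.rf (nat_lit 834) (nat_lit 13906870200797216)) (.cons (.rf (nat_lit 827) (nat_lit 13343497815104)) (.cons (.rf (nat_lit 835) (nat_lit 9231649052132416)) (.cons (.rf (nat_lit 834) (nat_lit 9231752128201792)) (.cons (.rf (nat_lit 835) (nat_lit 13906870200797216)) .nil)))))) .nil))))),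
 (.br (nat_lit 8) (nat_lit 0) (.cons (.rf (nat_lit 836) (nat_lit 14242959524133701664)) (.cons (.rf (nat_lit 836) (nat_lit 14242959524066658336)) (.cons (.br (nat_lit 8) (nat_lit 0) (.cons (.rf (nat_lit 836) (nat_lit 14242959524133701664)) (.cons (.rf (nat_lit 836) (nat_lit 14242959524066658336)) (.cons (.rf (nat_lit 73) (nat_lit 441519136)) .nil)))) (.cons (.rf (nat_lit 73) (nat_lit 441519136)) .nil))))),
 (.br (nat_lit 4) (nat_lit 0) (.cons (.rf (nat_lit 742) (nat_lit 7688258624)) (.cons (.rf (nat_lit 827) (nat_lit 9043225708576)) (.cons (.rf (nat_lit 827) (nat_lit 9043158665248)) (.cons (.rf (nat_lit 73) (nat_lit 307301408)) (.cons (.br (nat_lit 4) (nat_lit 0) (.cons (.rf (nat_lit 742) (nat_lit 7688258624)) (.cons (.rf (nat_lit 827) (nat_lit 9043225708576)) (.cons (.rf (nat_lit 827) (nat_lit 9043158665248)) (.cons (.rf (nat_lit 73) (nat_lit 340855840)) (.cons (.br (nat_lit 2) (nat_lit 1) (.cons (.br (nat_lit 7) (nat_lit 0) (.cons (.rf (nat_lit 827) (nat_lit 8940149638208))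 (.cons (.rf (nat_lit 827) (nat_lit 8940082594880)) (.cons (.rf (nat_lit 832) (nat_lit 11584701642934304)) (.cons (.rf (nat_lit 832) (nat_lit 10493986108180512)) (.cons (.rf (nat_lit 73) (nat_lit 374410272)) .nil)))))) (.cons (.br (nat_lit 3) (nat_lit 1) (.cons (.rf (nat_lit 827) (nat_lit 7975928432672)) (.cons (.rf (nat_lit 827) (nat_lit 6743273866304)) (.cons (.rf (nat_lit 827) (nat_lit 4611897394240)) (.cons (.br (nat_lit 3) (nat_lit 1) (.cons (.rf (nat_lit 827) (nat_lit 7975928432672)) (.cons (.rf (nat_lit 827) (nat_lit 6743273866304)) (.cons (.rf (nat_lit 827) (nat_lit 4611897394240)) (.cons (.rf (nat_lit 789) (nat_lit 13906870133753888)) .nil))))) .nil))))) (.cons (.br (nat_lit 11) (nat_lit 1) (.cons (.br (nat_lit 8) (nat_lit 0) (.cons (.rf (nat_lit 836) (nat_lit 14242959524133701664)) (.cons (.rf (nat_lit 836) (nat_lit 14242959524066658336)) (.cons (.rf (nat_lit 837) (nat_lit 14242959524133701664)) (.cons (.rf (nat_lit 837) (nat_lit 14241868808598947872)) (.cons (.rf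 (nat_lit 73) (nat_lit 441519136)) .nil)))))) .nil)) .nil)))) .nil)))))) .nil)))))),
 (.br (nat_lit 8) (nat_lit 0) (.cons (.br (nat_lit 11) (nat_lit 0) (.cons (.br (nat_lit 11) (nat_lit 0) (.cons (.rf (nat_lit 73) (nat_lit 441519136)) .nil)) (.cons (.rf (nat_lit 73) (nat_lit 441519136)) .nil))) (.cons (.rf (nat_lit 73) (nat_lit 441519136)) .nil))),
 (.br (nat_lit 6) (nat_lit 0) (.cons (.rf (nat_lit 73) (nat_lit 407964704)) (.cons (.br (nat_lit 8) (nat_lit 0) (.cons (.rf (nat_lit 839) (nat_lit 14208054326969013344)) (.cons (.rf (nat_lit 839) (nat_lit 14242959524133701664)) (.cons (.rf (nat_lit 73) (nat_lit 441519136)) .nil)))) .nil))),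
 (.br (nat_lit 5) (nat_lit 1) (.cons (.rf (nat_lit 838) (nat_lit 4611796669536)) (.cons (.kr (nat_lit 16777216) (nat_lit 1099511627776) (nat_lit 3) (nat_lit 0)) (.cons (.rf (nat_lit 783) (nat_lit 12674281098085440)) (.cons (.br (nat_lit 9) (nat_lit 1) (.cons (.rf (nat_lit 840) (nat_lit 407901468851537952)) (.cons (.rf (nat_lit 840) (nat_lit 372996271686849632)) (.cons (.rf (nat_lit 840) (nat_lit 295314780930081856)) (.cons (.rf (nat_lit 840) (nat_lit 225507785124678816)) .nil))))) .nil))))),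
 (.br (nat_lit 8) (nat_lit 0) (.cons (.rf (nat_lit 841) (nat_lit 407901468851537952)) (.cons (.rf (nat_lit 841) (nat_lit 407901468784494624)) (.cons (.rf (nat_lit 73) (nat_lit 407964704)) (.cons (.br (nat_lit 8) (nat_lit 0) (.cons (.rf (nat_lit 841) (nat_lit 407901468851537952)) (.cons (.rf (nat_lit 841) (nat_lit 407901468784494624)) (.cons (.rf (nat_lit 73) (nat_lit 441519136)) .nil)))) .nil))))),
 (.br (nat_lit 8) (nat_lit 0) (.cons (.br (nat_lit 6) (nat_lit 0) (.cons (.br (nat_lit 10) (nat_lit 0) (.cons (.br (nat_lit 10) (nat_lit 0) (.cons (.ev (nat_lit 79230589810781212941171753729) (nat_lit 2)) (.cons (.rf (nat_lit 73) (nat_lit 441519136)) .nil))) (.cons (.br (nat_lit 10) (nat_lit 0) (.cons (.ev (nat_lit 79230589810781212941171753729) (nat_lit 2)) (.cons (.rf (nat_lit 73) (nat_lit 441519136)) .nil))) (.cons (.rf (nat_lit 73) (nat_lit 441519136)) .nil)))) (.cons (.rf (nat_lit 73) (nat_lit 441519136)) .nil))) (.cons (.rf (nat_lit 73) (nat_lit 441519136)) .nil))),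
 (.br (nat_lit 6) (nat_lit 0) (.cons (.br (nat_lit 8) (nat_lit 0) (.cons (.rf (nat_lit 843) (nat_lit 10749395366264738912)) (.cons (.rf (nat_lit 843) (nat_lit 14242959524133701664)) (.cons (.rf (nat_lit 73) (nat_lit 441519136)) .nil)))) (.cons (.rf (nat_lit 73) (nat_lit 441519136)) .nil))),
 (.br (nat_lit 5) (nat_lit 1) (.cons (.rf (nat_lit 838) (nat_lit 4611796669536)) (.cons (.kr (nat_lit 16777216) (nat_lit 1099511627776) (nat_lit 3) (nat_lit 0)) (.cons (.rf (nat_lit 783) (nat_lit 12674281098085440)) (.cons (.br (nat_lit 6) (nat_lit 0) (.cons (.rf (nat_lit 844) (nat_lit 14242959524133701664)) (.cons (.br (nat_lit 6) (nat_lit 0) (.cons (.rf (nat_lit 844) (nat_lit 14242959524133701664)) (.cons (.rf (nat_lit 73) (nat_lit 441519136)) .nil))) (.cons (.rf (nat_lit 73) (nat_lit 441519136)) .nil)))) .nil))))),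
 (.br (nat_lit 8) (nat_lit 0) (.cons (.rf (nat_lit 845) (nat_lit 14242959524133701664)) (.cons (.rf (nat_lit 845) (nat_lit 14242959524066658336)) (.cons (.br (nat_lit 8) (nat_lit 0) (.cons (.rf (nat_lit 845) (nat_lit 14242959524133701664)) (.cons (.rf (nat_lit 845) (nat_lit 14242959524066658336)) (.cons (.rf (nat_lit 73) (nat_lit 441519136)) .nil)))) (.cons (.rf (nat_lit 73) (nat_lit 441519136)) .nil))))),
 (.br (nat_lit 2) (nat_lit 1) (.cons (.kr (nat_lit 256) (nat_lit 65536) (nat_lit 1) (nat_lit 0)) (.cons (.rf (nat_lit 838) (nat_lit 7975928432672)) (.cons (.br (nat_lit 10) (nat_lit 1) (.cons (.br (nat_lit 4) (nat_lit 0) (.cons (.rf (nat_lit 742) (nat_lit 7688225888)) (.cons (.rf (nat_lit 742) (nat_lit 7621117088)) (.cons (.br (nat_lit 8) (nat_lit 0) (.cons (.rf (nat_lit 841) (nat_lit 407901468851537952)) (.cons (.rf (nat_lit 841) (nat_lit 407901468784494624)) (.cons (.rf (nat_lit 842) (nat_lit 407901468851537952)) (.cons (.rf (nat_lit 73) (nat_lit 407964704)) (.cons (.br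 (nat_lit 8) (nat_lit 0) (.cons (.rf (nat_lit 841) (nat_lit 407901468851537952)) (.cons (.rf (nat_lit 841) (nat_lit 407901468784494624)) (.cons (.rf (nat_lit 842) (nat_lit 407901468851537952)) (.cons (.rf (nat_lit 73) (nat_lit 441519136)) .nil))))) .nil)))))) (.cons (.rf (nat_lit 73) (nat_lit 407964704)) (.cons (.br (nat_lit 8) (nat_lit 0) (.cons (.rf (nat_lit 845) (nat_lit 14242959524133701664)) (.cons (.rf (nat_lit 845) (nat_lit 14242959524066658336)) (.cons (.rf (nat_lit 846) (nat_lit 14242959524133701664)) (.cons (.br (nat_lit 8) (nat_lit 0) (.cons (.rf (nat_lit 845) (nat_lit 14242959524133701664)) (.cons (.rf (nat_lit 845) (nat_lit 14242959524066658336)) (.cons (.rf (nat_lit 846) (nat_lit 14242959524133701664)) (.cons (.rf (nat_lit 73) (nat_lit 441519136)) .nil))))) (.cons (.rf (nat_lit 73) (nat_lit 441519136)) .nil)))))) .nil)))))) .nil)) .nil)))),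
 (.br (nat_lit 6) (nat_lit 0) (.cons (.rf (nat_lit 833) (nat_lit 9226350140426272)) (.cons (.rf (nat_lit 833) (nat_lit 9226350073382944)) (.cons (.kr (nat_lit 4722366482869645213697) (nat_lit 72057594037993472) (nat_lit 0) (nat_lit 1)) (.cons (.br (nat_lit 10) (nat_lit 0) (.cons (.rf (nat_lit 833) (nat_lit 12744649907210272)) (.cons (.rf (nat_lit 833) (nat_lit 12744649840166944)) (.cons (.br (nat_lit 3) (nat_lit 1) (.cons (.br (nat_lit 5) (nat_lit 1) (.cons (.kr (nat_lit 16777216) (nat_lit 1099511627776) (nat_lit 3) (nat_lit 0)) (.cons (.ev (nat_lit 1208925819615732981367041) (nat_lit 1)) .nil))) (.cons (.ev (nat_lit 1208925819614633486516481) (nat_lit 1)) .nil))) (.cons (.rf (nat_lit 73) (nat_lit 441519136)) .nil))))) (.cons (.rf (nat_lit 73) (nat_lit 441519136)) .nil)))))),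
 (.br (nat_lit 4) (nat_lit 0) (.cons (.rf (nat_lit 742) (nat_lit 7688225888)) (.cons (.rf (nat_lit 742) (nat_lit 7621117088)) (.cons (.rf (nat_lit 73) (nat_lit 407964704)) (.cons (.br (nat_lit 10) (nat_lit 0) (.cons (.rf (nat_lit 833) (nat_lit 12744649907210272)) (.cons (.rf (nat_lit 833) (nat_lit 12744649840166944)) (.cons (.rf (nat_lit 848) (nat_lit 14242959524133701664)) (.cons (.br (nat_lit 10) (nat_lit 0) (.cons (.rf (nat_lit 833) (nat_lit 12744649907210272)) (.cons (.rf (nat_lit 833) (nat_lit 12744649840166944)) (.cons (.rf (nat_lit 848) (nat_lit 14242959524133701664)) (.cons (.rf (nat_lit 73) (nat_lit 441519136)) .nil))))) (.cons (.rf (nat_lit 73) (nat_lit 441519136)) .nil)))))) .nil))))),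
 (.br (nat_lit 2) (nat_lit 1) (.cons (.kr (nat_lit 256) (nat_lit 65536) (nat_lit 1) (nat_lit 0)) (.cons (.rf (nat_lit 742) (nat_lit 8764097600)) (.cons (.br (nat_lit 10) (nat_lit 1) (.cons (.br (nat_lit 4) (nat_lit 0) (.cons (.rf (nat_lit 742) (nat_lit 7688225888)) (.cons (.rf (nat_lit 742) (nat_lit 7621117088)) (.cons (.rf (nat_lit 849) (nat_lit 407901468851537952)) (.cons (.rf (nat_lit 73) (nat_lit 407964704)) (.cons (.br (nat_lit 4) (nat_lit 0) (.cons (.rf (nat_lit 742) (nat_lit 7688225888)) (.cons (.rf (nat_lit 742) (nat_lit 7621117088)) (.cons (.rf (nat_lit 849) (nat_lit 407901468851537952)) (.cons (.rf (nat_lit 73) (nat_lit 441519136)) .nil))))) .nil)))))) .nil)) .nil)))),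
 (.br (nat_lit 7) (nat_lit 0) (.cons (.rf (nat_lit 838) (nat_lit 9043225708576)) (.cons (.rf (nat_lit 73) (nat_lit 307301408)) (.cons (.br (nat_lit 2) (nat_lit 1) (.cons (.rf (nat_lit 847) (nat_lit 325702574508064)) (.cons (.rf (nat_lit 850) (nat_lit 325702574508064)) (.cons (.rf (nat_lit 838) (nat_lit 7975928432672)) (.cons (.br (nat_lit 2) (nat_lit 1) (.cons (.rf (nat_lit 847) (nat_lit 325702574508064)) (.cons (.rf (nat_lit 850) (nat_lit 325702574508064)) (.cons (.rf (nat_lit 838) (nat_lit 7975928432672)) (.cons (.rf (nat_lit 789) (nat_lit 12745785821269024)) .nil))))) .nil))))) .nil)))),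
 (.br (nat_lit 2) (nat_lit 1) (.cons (.kr (nat_lit 256) (nat_lit 65536) (nat_lit 1) (nat_lit 0)) (.cons (.rf (nat_lit 742) (nat_lit 7688258624)) (.cons (.rf (nat_lit 838) (nat_lit 7975928432672)) (.cons (.br (nat_lit 9) (nat_lit 1) (.cons (.br (nat_lit 3) (nat_lit 1) (.cons (.rf (nat_lit 742) (nat_lit 7688225888)) (.cons (.rf (nat_lit 851) (nat_lit 8940048913504)) (.cons (.rf (nat_lit 851) (nat_lit 6743173141600)) (.cons (.rf (nat_lit 851) (nat_lit 11142293394528)) (.cons (.rf (nat_lit 851) (nat_lit 10043855508576)) .nil)))))) .nil)) .nil))))),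
 (.br (nat_lit 9) (nat_lit 1) (.cons (.br (nat_lit 3) (nat_lit 1) (.cons (.rf (nat_lit 742) (nat_lit 7688225888)) (.cons (.rf (nat_lit 833) (nat_lit 9226315779639328)) (.cons (.rf (nat_lit 851) (nat_lit 4611796669536)) (.cons (.rf (nat_lit 833) (nat_lit 11583565628278816)) (.cons (.br (nat_lit 5) (nat_lit 1) (.cons (.rf (nat_lit 838) (nat_lit 10043855508576)) (.cons (.br (nat_lit 5) (nat_lit 1) (.cons (.rf (nat_lit 838) (nat_lit 10043855508576)) (.cons (.rf (nat_lit 851) (nat_lit 9043225708576)) (.cons (.rf (nat_lit 742) (nat_lit 8696956064)) (.cons (.rf (nat_lit 838) (nat_lit 4714877981792)) (.cons (.rf (nat_lit 851) (nat_lit 9146310165568)) .nil)))))) (.cons (.rf (nat_lit 851) (nat_lit 9043225708576)) (.cons (.rf (nat_lit 852) (nat_lit 7975861389344)) (.cons (.rf (nat_lit 838) (nat_lit 4714877981792)) (.cons (.rf (nat_lit 851) (nat_lit 9146310165568)) .nil))))))) .nil)))))) .nil))]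

theorem c22 : chkAll C T R L22 (nat_lit 824) = true := by decide +kernel

theorem l22 : (nat_lit 824) + L22.length = (nat_lit 854) := by decide +kernel

/-- part of the certificates -/
def L23 : List Prf := [(.br (nat_lit 7) (nat_lit 0) (.cons (.rf (nat_lit 838) (nat_lit 9043225708576)) (.cons (.rf (nat_lit 851) (nat_lit 9043225708576)) (.cons (.rf (nat_lit 73) (nat_lit 307301408)) (.cons (.br (nat_lit 7) (nat_lit 0) (.cons (.rf (nat_lit 838) (nat_lit 9043225708576)) (.cons (.rf (nat_lit 851) (nat_lit 9043225708576)) (.cons (.rf (nat_lit 73) (nat_lit 340855840)) (.cons (.br (nat_lit 2) (nat_lit 1) (.cons (.rf (nat_lit 852) (nat_lit 9043225708576)) (.cons (.br (nat_lit 2) (nat_lit 1) (.cons (.kr (nat_lit 256) (nat_lit 65536) (nat_lit 1) (nat_lit 0)) (.cons (.rf (nat_lit 742) (nat_lit 8764097600)) (.cons (.rf (nat_lit 853) (nat_lit 396071318685728)) .nil)))) (.cons (.rf (nat_lit 838) (nat_lit 7975928432672)) (.cons (.br (nat_lit 2) (nat_lit 1) (.cons (.rf (nat_lit 852) (nat_lit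 9043225708576)) (.cons (.rf (nat_lit 853) (nat_lit 396071318685728)) (.cons (.rf (nat_lit 838) (nat_lit 7975928432672)) (.cons (.rf (nat_lit 789) (nat_lit 13906870100200480)) .nil))))) .nil))))) .nil))))) .nil))))),
 (.br (nat_lit 4) (nat_lit 0) (.cons (.br (nat_lit 7) (nat_lit 0) (.cons (.br (nat_lit 11) (nat_lit 0) (.cons (.br (nat_lit 12) (nat_lit 0) (.cons (.ev (nat_lit 79229371440083953322247127296) (nat_lit 1)) (.cons (.ev (nat_lit 20361637766165934762640323707136) (nat_lit 1)) .nil))) .nil)) .nil)) .nil)),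
 (.br (nat_lit 12) (nat_lit 0) (.cons (.rf (nat_lit 855) (nat_lit 14242959524133701664)) (.cons (.br (nat_lit 5) (nat_lit 1) (.cons (.rf (nat_lit 118) (nat_lit 14998657294402661)) (.cons (.rf (nat_lit 118) (nat_lit 14998657394018405)) (.cons (.rf (nat_lit 118) (nat_lit 14990960946848869)) (.cons (.rf (nat_lit 855) (nat_lit 14242959524133701664)) .nil))))) .nil))),
 (.br (nat_lit 4) (nat_lit 0) (.cons (.rf (nat_lit 328) (nat_lit 439462955459020901)) (.cons (.br (nat_lit 7) (nat_lit 0) (.cons (.rf (nat_lit 118) (nat_lit 14998648804083813)) (.cons (.br (nat_lit 5) (nat_lit 1) (.cons (.ev (nat_lit 310698658079781640854372608) (nat_lit 1)) (.cons (.br (nat_lit 11) (nat_lit 0) (.cons (.br (nat_lit 12) (nat_lit 0) (.cons (.ev (nat_lit 121774614267917294039437093897218) (nat_lit 3)) .nil)) .nil)) .nil))) .nil))) .nil))),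
 (.br (nat_lit 10) (nat_lit 1) (.cons (.br (nat_lit 11) (nat_lit 1) (.cons (.br (nat_lit 9) (nat_lit 1) (.cons (.rf (nat_lit 2) (nat_lit 445088087013525793)) (.cons (.rf (nat_lit 2) (nat_lit 445088083892962594)) (.cons (.br (nat_lit 12) (nat_lit 0) (.cons (.rf (nat_lit 856) (nat_lit 14242959524133701664)) (.cons (.rf (nat_lit 856) (nat_lit 14242959524066658336)) (.cons (.br (nat_lit 12) (nat_lit 0) (.cons (.rf (nat_lit 856) (nat_lit 14242959524133701664)) (.cons (.rf (nat_lit 856) (nat_lit 14242959524066658336)) .nil))) .nil)))) (.cons (.br (nat_lit 11) (nat_lit 0) (.cons (.rf (nat_lit 857) (nat_lit 14242959524133701664)) (.cons (.rf (nat_lit 857) (nat_lit 14242959524066658336)) (.cons (.br (nat_lit 11) (nat_lit 0) (.cons (.rf (nat_lit 857) (nat_lit 14242959524133701664)) (.cons (.rf (nat_lit 857) (nat_lit 14242959524066658336)) .nil))) .nil)))) .nil))))) .nil)) .nil)),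
 (.br (nat_lit 11) (nat_lit 0) (.cons (.rf (nat_lit 113) (nat_lit 13652854096267427)) (.cons (.br (nat_lit 4) (nat_lit 0) (.cons (.rf (nat_lit 4) (nat_lit 14994326894610721)) (.cons (.br (nat_lit 7) (nat_lit 0) (.cons (.rf (nat_lit 24) (nat_lit 14989788257160482)) (.cons (.br (nat_lit 9) (nat_lit 1) (.cons (.ev (nat_lit 1213648258156196664443136) (nat_lit 1)) .nil)) .nil))) .nil))) .nil))),
 (.br (nat_lit 12) (nat_lit 0) (.cons (.rf (nat_lit 859) (nat_lit 13126066816545818656)) (.cons (.br (nat_lit 12) (nat_lit 0) (.cons (.rf (nat_lit 859) (nat_lit 13126066816545818656)) .nil)) .nil))),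
 (.br (nat_lit 11) (nat_lit 0) (.cons (.rf (nat_lit 859) (nat_lit 14242959524133701664)) (.cons (.rf (nat_lit 860) (nat_lit 14242959524133701664)) (.cons (.br (nat_lit 9) (nat_lit 1) (.cons (.rf (nat_lit 4) (nat_lit 14994326894610721)) (.cons (.rf (nat_lit 24) (nat_lit 14990028775329058)) (.cons (.rf (nat_lit 860) (nat_lit 14242959524133701664)) (.cons (.rf (nat_lit 860) (nat_lit 13126066816545818656)) .nil))))) .nil)))),
 (.br (nat_lit 5) (nat_lit 1) (.cons (.ev (nat_lit 79544901171454670975747097602) (nat_lit 3)) .nil)),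
 (.br (nat_lit 13) (nat_lit 1) (.cons (.br (nat_lit 3) (nat_lit 1) (.cons (.rf (nat_lit 862) (nat_lit 493858305440582043680)) (.cons (.rf (nat_lit 862) (nat_lit 492741412732994160672)) .nil))) .nil)),
 (.br (nat_lit 7) (nat_lit 0) (.cons (.rf (nat_lit 861) (nat_lit 14242959524133701664)) (.cons (.rf (nat_lit 861) (nat_lit 14242959524066658336)) (.cons (.br (nat_lit 4) (nat_lit 0) (.cons (.rf (nat_lit 118) (nat_lit 14998651925693603)) (.cons (.rf (nat_lit 118) (nat_lit 14998651925693541)) (.cons (.br (nat_lit 13) (nat_lit 1) (.cons (.rf (nat_lit 863) (nat_lit 493858305440582043680)) (.cons (.rf (nat_lit 863) (nat_lit 492741412732994160672)) .nil))) .nil)))) .nil)))),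
 (.br (nat_lit 10) (nat_lit 1) (.cons (.rf (nat_lit 858) (nat_lit 11584701642934304)) (.cons (.br (nat_lit 10) (nat_lit 1) (.cons (.rf (nat_lit 858) (nat_lit 11584701642934304)) (.cons (.br (nat_lit 11) (nat_lit 1) (.cons (.br (nat_lit 7) (nat_lit 0) (.cons (.rf (nat_lit 861) (nat_lit 14242959524133701664)) (.cons (.rf (nat_lit 861) (nat_lit 14242959524066658336)) (.cons (.rf (nat_lit 864) (nat_lit 14242959524133701664)) (.cons (.br (nat_lit 7) (nat_lit 0) (.cons (.rf (nat_lit 861) (nat_lit 14242959524133701664)) (.cons (.rf (nat_lit 861) (nat_lit 14242959524066658336)) (.cons (.rf (nat_lit 864) (nat_lit 14242959524133701664)) .nil)))) .nil))))) .nil)) .nil))) .nil))),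
 (.br (nat_lit 10) (nat_lit 0) (.cons (.br (nat_lit 10) (nat_lit 0) (.cons (.rf (nat_lit 4) (nat_lit 12710571548967042)) .nil)) (.cons (.rf (nat_lit 4) (nat_lit 12710571548967042)) .nil))),
 (.br (nat_lit 6) (nat_lit 0) (.cons (.br (nat_lit 9) (nat_lit 1) (.cons (.rf (nat_lit 866) (nat_lit 11550616782473248)) .nil)) (.cons (.rf (nat_lit 670) (nat_lit 325496484237376)) .nil))),
 (.br (nat_lit 11) (nat_lit 0) (.cons (.br (nat_lit 7) (nat_lit 0) (.cons (.rf (nat_lit 118) (nat_lit 14994189522797858)) (.cons (.br (nat_lit 9) (nat_lit 1) (.cons (.rf (nat_lit 24) (nat_lit 14998685345776803)) (.cons (.zr (nat_lit 311902861460575426602598403) (nat_lit 14167172069157221957632) (nat_lit 5) (nat_lit 0)) .nil))) .nil))) .nil)),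
 (.br (nat_lit 10) (nat_lit 1) (.cons (.rf (nat_lit 867) (nat_lit 11277717081153)) (.cons (.br (nat_lit 10) (nat_lit 1) (.cons (.rf (nat_lit 867) (nat_lit 11277717081153)) (.cons (.br (nat_lit 11) (nat_lit 1) (.cons (.br (nat_lit 11) (nat_lit 0) (.cons (.rf (nat_lit 868) (nat_lit 14242959524133701664)) (.cons (.br (nat_lit 9) (nat_lit 1) (.cons (.rf (nat_lit 118) (nat_lit 14994189522797858)) (.cons (.rf (nat_lit 24) (nat_lit 14998822784730275)) (.cons (.rf (nat_lit 868) (nat_lit 14242959524133701664)) (.cons (.rf (nat_lit 868) (nat_lit 13126066816545818656)) .nil))))) .nil))) .nil)) .nil))) .nil))),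
 (.br (nat_lit 6) (nat_lit 0) (.cons (.rf (nat_lit 867) (nat_lit 9043225708576)) (.cons (.br (nat_lit 6) (nat_lit 0) (.cons (.rf (nat_lit 867) (nat_lit 9043225708576)) (.cons (.rf (nat_lit 670) (nat_lit 360680856326208)) .nil))) (.cons (.rf (nat_lit 670) (nat_lit 325496484237376)) .nil)))),
 (.br (nat_lit 9) (nat_lit 1) (.cons (.rf (nat_lit 113) (nat_lit 11584565275721857)) .nil)),
 (.br (nat_lit 9) (nat_lit 1) (.cons (.rf (nat_lit 112) (nat_lit 10144919455841)) (.cons (.ev (nat_lit 4740813228042883235841) (nat_lit 1)) (.cons (.rf (nat_lit 871) (nat_lit 397206298430529)) .nil)))),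
 (.br (nat_lit 11) (nat_lit 0) (.cons (.kr (nat_lit 1208925819614629174706176) (nat_lit 309485009821345068724781056) (nat_lit 10) (nat_lit 0)) .nil)),
 (.br (nat_lit 8) (nat_lit 1) (.cons (.rf (nat_lit 871) (nat_lit 325702574508064)) (.cons (.rf (nat_lit 871) (nat_lit 325669221467200)) (.cons (.rf (nat_lit 871) (nat_lit 325699351285761)) (.cons (.rf (nat_lit 871) (nat_lit 325667070906370)) (.cons (.br (nat_lit 9) (nat_lit 1) (.cons (.br (nat_lit 9) (nat_lit 0) (.cons (.br (nat_lit 9) (nat_lit 0) (.cons (.br (nat_lit 10) (nat_lit 0) (.cons (.rf (nat_lit 873) (nat_lit 13052988875717314592)) (.cons (.rf (nat_lit 873) (nat_lit 14205875195952072736)) .nil))) .nil)) .nil)) .nil)) .nil)))))),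
 (.br (nat_lit 11) (nat_lit 0) (.cons (.br (nat_lit 4) (nat_lit 0) (.cons (.br (nat_lit 7) (nat_lit 0) (.cons (.br (nat_lit 8) (nat_lit 0) (.cons (.ev (nat_lit 80780451730192651004703671808) (nat_lit 3)) .nil)) .nil)) (.cons (.br (nat_lit 7) (nat_lit 0) (.cons (.br (nat_lit 8) (nat_lit 0) (.cons (.ev (nat_lit 80780451730192651004703408640) (nat_lit 3)) .nil)) (.cons (.br (nat_lit 8) (nat_lit 0) (.cons (.zr (nat_lit 158459951842953064820364017668) (nat_lit 1237944761652708669002940672) (nat_lit 5) (nat_lit 3)) .nil)) .nil))) .nil))) .nil)),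
 (.br (nat_lit 11) (nat_lit 0) (.cons (.rf (nat_lit 875) (nat_lit 493858305440582043680)) (.cons (.br (nat_lit 11) (nat_lit 0) (.cons (.rf (nat_lit 875) (nat_lit 493858305440582043680)) .nil)) .nil))),
 (.br (nat_lit 4) (nat_lit 0) (.cons (.br (nat_lit 8) (nat_lit 0) (.cons (.br (nat_lit 11) (nat_lit 0) (.cons (.ev (nat_lit 80782860137098914523762656258) (nat_lit 3)) .nil)) .nil)) (.cons (.br (nat_lit 8) (nat_lit 0) (.cons (.ev (nat_lit 1213648258156196664508416) (nat_lit 1)) (.cons (.br (nat_lit 10) (nat_lit 1) (.cons (.ev (nat_lit 80159044932406627239249314822) (nat_lit 3)) .nil)) .nil))) .nil))),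
 (.br (nat_lit 11) (nat_lit 0) (.cons (.rf (nat_lit 877) (nat_lit 493858305440582043680)) (.cons (.br (nat_lit 8) (nat_lit 0) (.cons (.ev (nat_lit 79538861190718806809286606848) (nat_lit 1)) (.cons (.br (nat_lit 4) (nat_lit 0) (.cons (.ev (nat_lit 80780451730192651004703802368) (nat_lit 3)) .nil)) .nil))) .nil))),
 (.br (nat_lit 7) (nat_lit 0) (.cons (.rf (nat_lit 876) (nat_lit 493858305440582043680)) (.cons (.br (nat_lit 11) (nat_lit 0) (.cons (.rf (nat_lit 877) (nat_lit 493858305440582043680)) (.cons (.rf (nat_lit 878) (nat_lit 493858305440582043680)) (.cons (.br (nat_lit 11) (nat_lit 0) (.cons (.rf (nat_lit 877) (nat_lit 493858305440582043680)) (.cons (.rf (nat_lit 878) (nat_lit 493858305440582043680)) .nil))) .nil)))) .nil))),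
 (.br (nat_lit 12) (nat_lit 0) (.cons (.br (nat_lit 7) (nat_lit 0) (.cons (.rf (nat_lit 876) (nat_lit 493858305440582043680)) (.cons (.rf (nat_lit 879) (nat_lit 493858305440582043680)) (.cons (.br (nat_lit 7) (nat_lit 0) (.cons (.rf (nat_lit 876) (nat_lit 493858305440582043680)) (.cons (.rf (nat_lit 879) (nat_lit 493858305440582043680)) .nil))) .nil)))) .nil)),
 (.br (nat_lit 12) (nat_lit 0) (.cons (.rf (nat_lit 880) (nat_lit 14242959524133701664)) (.cons (.br (nat_lit 12) (nat_lit 0) (.cons (.rf (nat_lit 880) (nat_lit 14242959524133701664)) .nil)) .nil))),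
 (.br (nat_lit 12) (nat_lit 0) (.cons (.rf (nat_lit 881) (nat_lit 14242959524133701664)) (.cons (.br (nat_lit 12) (nat_lit 0) (.cons (.rf (nat_lit 881) (nat_lit 14242959524133701664)) .nil)) .nil))),
 (.br (nat_lit 5) (nat_lit 1) (.cons (.br (nat_lit 10) (nat_lit 1) (.cons (.rf (nat_lit 869) (nat_lit 11584701642934304)) (.cons (.rf (nat_lit 870) (nat_lit 11277717081153)) (.cons (.br (nat_lit 10) (nat_lit 1) (.cons (.rf (nat_lit 869) (nat_lit 11584701642934304)) (.cons (.rf (nat_lit 870) (nat_lit 11277717081153)) (.cons (.br (nat_lit 10) (nat_lit 1) (.cons (.rf (nat_lit 869) (nat_lit 11584701642934304)) (.cons (.rf (nat_lit 870) (nat_lit 11277717081153)) .nil))) .nil)))) .nil)))) (.cons (.br (nat_lit 9) (nat_lit 1) (.cons (.rf (nat_lit 872) (nat_lit 11584701642934304)) (.cons (.rf (nat_lit 872) (nat_lit 11584598499820608)) (.cons (.br (nat_lit 9) (nat_lit 1) (.cons (.ev (nat_lit 4740813228042883235841) (nat_lit 1)) (.cons (.ev (nat_lit 4740813228042883170561) (nat_lit 1))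 (.cons (.rf (nat_lit 874) (nat_lit 397206298430529)) .nil)))) (.cons (.rf (nat_lit 874) (nat_lit 397206298430529)) .nil))))) (.cons (.br (nat_lit 11) (nat_lit 1) (.cons (.br (nat_lit 12) (nat_lit 0) (.cons (.rf (nat_lit 881) (nat_lit 14242959524133701664)) (.cons (.rf (nat_lit 882) (nat_lit 14242959524133701664)) (.cons (.br (nat_lit 12) (nat_lit 0) (.cons (.rf (nat_lit 881) (nat_lit 14242959524133701664)) (.cons (.rf (nat_lit 882) (nat_lit 14242959524133701664)) .nil))) .nil)))) .nil)) .nil)))),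
 (.br (nat_lit 9) (nat_lit 1) (.cons (.br (nat_lit 9) (nat_lit 1) (.cons (.br (nat_lit 9) (nat_lit 1) .nil) .nil)) .nil)),
 (.br (nat_lit 7) (nat_lit 0) (.cons (.br (nat_lit 4) (nat_lit 0) (.cons (.br (nat_lit 8) (nat_lit 0) (.cons (.ev (nat_lit 121773995269453059659480906859010) (nat_lit 3)) .nil)) (.cons (.ev (nat_lit 20282719088661491770115504537856) (nat_lit 1)) .nil))) .nil)),
 (.br (nat_lit 7) (nat_lit 0) (.cons (.rf (nat_lit 885) (nat_lit 493858305440582043680)) (.cons (.br (nat_lit 7) (nat_lit 0) (.cons (.rf (nat_lit 885) (nat_lit 493858305440582043680)) .nil)) .nil))),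
 (.br (nat_lit 7) (nat_lit 0) (.cons (.rf (nat_lit 886) (nat_lit 493858305337505973312)) (.cons (.br (nat_lit 7) (nat_lit 0) (.cons (.rf (nat_lit 886) (nat_lit 493858305337505973312)) (.cons (.ev (nat_lit 20282719088661491770115504537856) (nat_lit 1)) .nil))) (.cons (.ev (nat_lit 20282719088661491770115504537856) (nat_lit 1)) .nil)))),
 (.br (nat_lit 12) (nat_lit 0) (.cons (.br (nat_lit 11) (nat_lit 0) (.cons (.kr (nat_lit 4722366482869645213696) (nat_lit 309485009821345068724781056) (nat_lit 9) (nat_lit 0)) (.cons (.br (nat_lit 10) (nat_lit 1) (.cons (.kr (nat_lit 1208925819614629174706177) (nat_lit 309485009821345068724781312) (nat_lit 0) (nat_lit 2)) (.cons (.kr (nat_lit 1208925819614629174706177) (nat_lit 309485009821345068724846592) (nat_lit 0) (nat_lit 1)) (.cons (.rf (nat_lit 884) (nat_lit 470979946122305)) .nil)))) (.cons (.br (nat_lit 4) (nat_lit 0) (.cons (.rf (nat_lit 886) (nat_lit 493858305440582043680)) (.cons (.br (nat_lit 4) (nat_lit 0) (.cons (.rf (nat_lit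 886) (nat_lit 493858305440582043680)) (.cons (.rf (nat_lit 887) (nat_lit 493858305440582043680)) .nil))) (.cons (.rf (nat_lit 887) (nat_lit 493858305440582043680)) .nil)))) .nil)))) .nil)),
 (.br (nat_lit 12) (nat_lit 0) (.cons (.rf (nat_lit 888) (nat_lit 14242959524133701664)) (.cons (.br (nat_lit 12) (nat_lit 0) (.cons (.rf (nat_lit 888) (nat_lit 14242959524133701664)) .nil)) .nil))),
 (.br (nat_lit 12) (nat_lit 0) (.cons (.rf (nat_lit 889) (nat_lit 14242959524133701664)) (.cons (.br (nat_lit 12) (nat_lit 0) (.cons (.rf (nat_lit 889) (nat_lit 14242959524133701664)) .nil)) .nil))),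
 (.br (nat_lit 12) (nat_lit 0) (.cons (.br (nat_lit 7) (nat_lit 0) (.cons (.br (nat_lit 11) (nat_lit 0) (.cons (.zr (nat_lit 4030568219561859776308576267) (nat_lit 21629288366394164727086980335616) (nat_lit 30) (nat_lit 3)) .nil)) .nil)) .nil)),
 (.br (nat_lit 11) (nat_lit 0) (.cons (.br (nat_lit 8) (nat_lit 0) (.cons (.rf (nat_lit 329) (nat_lit 15034902590393633)) (.cons (.br (nat_lit 12) (nat_lit 0) (.cons (.rf (nat_lit 891) (nat_lit 492741412732927117344)) (.cons (.rf (nat_lit 891) (nat_lit 493858305440582043680)) .nil))) .nil))) .nil))]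

theorem c23 : chkAll C T R L23 (nat_lit 854) = true := by decide +kernel

theorem l23 : (nat_lit 854) + L23.length = (nat_lit 893) := by decide +kernel

/-- part of the certificates -/
def L24 : List Prf := [(.br (nat_lit 11) (nat_lit 0) (.cons (.rf (nat_lit 892) (nat_lit 14242959524133701664)) (.cons (.br (nat_lit 11) (nat_lit 0) (.cons (.rf (nat_lit 892) (nat_lit 14242959524133701664)) .nil)) .nil))),
 (.br (nat_lit 10) (nat_lit 1) (.cons (.ev (nat_lit 40644356854920164939986739659270) (nat_lit 3)) .nil)),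
 (.br (nat_lit 13) (nat_lit 1) (.cons (.br (nat_lit 9) (nat_lit 1) (.cons (.rf (nat_lit 894) (nat_lit 493858305440582043680)) (.cons (.rf (nat_lit 894) (nat_lit 492741412732927117344)) .nil))) .nil)),
 (.br (nat_lit 7) (nat_lit 0) (.cons (.rf (nat_lit 893) (nat_lit 14242959524133701664)) (.cons (.br (nat_lit 8) (nat_lit 0) (.cons (.rf (nat_lit 118) (nat_lit 14994322599650369)) (.cons (.rf (nat_lit 329) (nat_lit 14894165102038305)) (.cons (.br (nat_lit 13) (nat_lit 1) (.cons (.rf (nat_lit 895) (nat_lit 493858305440582043680)) (.cons (.rf (nat_lit 895) (nat_lit 492741412732927117344)) .nil))) .nil)))) .nil))),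
 (.br (nat_lit 7) (nat_lit 0) (.cons (.rf (nat_lit 893) (nat_lit 14242959524133701664)) (.cons (.rf (nat_lit 896) (nat_lit 14242959524133701664)) (.cons (.br (nat_lit 7) (nat_lit 0) (.cons (.rf (nat_lit 893) (nat_lit 14242959524133701664)) (.cons (.rf (nat_lit 896) (nat_lit 14242959524133701664)) .nil))) .nil)))),
 (.br (nat_lit 10) (nat_lit 1) (.cons (.ev (nat_lit 1208944266359802412662784) (nat_lit 1)) .nil)),
 (.br (nat_lit 7) (nat_lit 0) (.cons (.rf (nat_lit 893) (nat_lit 14242959421057631296)) (.cons (.br (nat_lit 8) (nat_lit 0) (.cons (.br (nat_lit 10) (nat_lit 1) (.cons (.rf (nat_lit 898) (nat_lit 493858305440582043680)) (.cons (.rf (nat_lit 898) (nat_lit 492741412732927117344)) .nil))) (.cons (.rf (nat_lit 329) (nat_lit 11484579577859113)) .nil))) .nil))),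
 (.br (nat_lit 13) (nat_lit 1) (.cons (.br (nat_lit 9) (nat_lit 1) (.cons (.ev (nat_lit 20282719093402377053557680570368) (nat_lit 1)) (.cons (.ev (nat_lit 20361637770906820047181994590208) (nat_lit 1)) .nil))) .nil)),
 (.br (nat_lit 12) (nat_lit 0) (.cons (.ev (nat_lit 81211035399504587855107278766082) (nat_lit 3)) .nil)),
 (.br (nat_lit 10) (nat_lit 1) (.cons (.br (nat_lit 9) (nat_lit 1) (.cons (.rf (nat_lit 901) (nat_lit 493858305440582043680)) (.cons (.rf (nat_lit 901) (nat_lit 492741412732927117344)) .nil))) .nil)),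
 (.br (nat_lit 7) (nat_lit 0) (.cons (.rf (nat_lit 893) (nat_lit 14242959421057631296)) (.cons (.br (nat_lit 8) (nat_lit 0) (.cons (.ev (nat_lit 4722438821942954819841) (nat_lit 1)) (.cons (.br (nat_lit 13) (nat_lit 1) (.cons (.rf (nat_lit 900) (nat_lit 493858305440582043680)) (.cons (.rf (nat_lit 900) (nat_lit 492741412732927117344)) .nil))) (.cons (.br (nat_lit 10) (nat_lit 1) (.cons (.rf (nat_lit 902) (nat_lit 493858305440582043680)) (.cons (.rf (nat_lit 902) (nat_lit 492741412732927117344)) .nil))) .nil)))) .nil))),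
 (.br (nat_lit 4) (nat_lit 0) (.cons (.rf (nat_lit 897) (nat_lit 14242959524133701664)) (.cons (.br (nat_lit 7) (nat_lit 0) (.cons (.rf (nat_lit 899) (nat_lit 493858305440582043680)) (.cons (.rf (nat_lit 903) (nat_lit 493858305440582043680)) (.cons (.br (nat_lit 7) (nat_lit 0) (.cons (.rf (nat_lit 899) (nat_lit 493858305440582043680)) (.cons (.rf (nat_lit 903) (nat_lit 493858305440582043680)) .nil))) .nil)))) .nil))),
 (.br (nat_lit 13) (nat_lit 1) (.cons (.br (nat_lit 10) (nat_lit 1) (.cons (.ev (nat_lit 20282720297605830185317209997313) (nat_lit 1)) (.cons (.ev (nat_lit 20361638975110273178941524017153) (nat_lit 1)) .nil))) .nil)),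
 (.br (nat_lit 12) (nat_lit 0) (.cons (.ev (nat_lit 81211035399504587855107278766082) (nat_lit 3)) .nil)),
 (.br (nat_lit 9) (nat_lit 1) (.cons (.br (nat_lit 10) (nat_lit 1) (.cons (.rf (nat_lit 906) (nat_lit 493858305440582043680)) (.cons (.rf (nat_lit 906) (nat_lit 492741412732927117344)) .nil))) .nil)),
 (.br (nat_lit 7) (nat_lit 0) (.cons (.rf (nat_lit 904) (nat_lit 14242959421057631296)) (.cons (.br (nat_lit 4) (nat_lit 0) (.cons (.rf (nat_lit 904) (nat_lit 14242959524133701664)) (.cons (.br (nat_lit 8) (nat_lit 0) (.cons (.br (nat_lit 13) (nat_lit 1) (.cons (.rf (nat_lit 905) (nat_lit 493858305440582043680)) (.cons (.rf (nat_lit 905) (nat_lit 492741412732927117344)) .nil))) (.cons (.ev (nat_lit 1208925891953702484377856) (nat_lit 1)) (.cons (.br (nat_lit 9) (nat_lit 1) (.cons (.rf (nat_lit 907) (nat_lit 493858305440582043680)) (.cons (.rf (nat_lit 907) (nat_lit 492741412732927117344)) .nil))) .nil)))) .nil))) .nil))),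
 (.br (nat_lit 4) (nat_lit 0) (.cons (.rf (nat_lit 904) (nat_lit 14242959524133701664)) (.cons (.br (nat_lit 7) (nat_lit 0) (.cons (.rf (nat_lit 904) (nat_lit 14242959421057631296)) (.cons (.rf (nat_lit 908) (nat_lit 493858305337505973312)) (.cons (.rf (nat_lit 908) (nat_lit 493858305440582043680)) .nil)))) .nil))),
 (.br (nat_lit 6) (nat_lit 0) (.cons (.rf (nat_lit 742) (nat_lit 8764064864)) (.cons (.rf (nat_lit 742) (nat_lit 8696956064)) (.cons (.br (nat_lit 8) (nat_lit 0) (.cons (.kr (nat_lit 18446744073709551616) (nat_lit 4722366482869645213696) (nat_lit 8) (nat_lit 0)) (.cons (.br (nat_lit 10) (nat_lit 1) (.cons (.rf (nat_lit 865) (nat_lit 11584701642934304)) (.cons (.rf (nat_lit 865) (nat_lit 11584598566863936)) (.cons (.br (nat_lit 10) (nat_lit 1) (.cons (.rf (nat_lit 865) (nat_lit 11584701642934304)) (.cons (.rf (nat_lit 865) (nat_lit 11584598566863936)) (.cons (.br (nat_lit 10) (nat_lit 1) (.cons (.rf (nat_lit 865) (nat_lit 11584701642934304)) (.cons (.rf (nat_lit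 865) (nat_lit 11584598566863936)) .nil))) .nil)))) .nil)))) .nil))) (.cons (.br (nat_lit 3) (nat_lit 1) (.cons (.rf (nat_lit 883) (nat_lit 11584701642934304)) (.cons (.rf (nat_lit 883) (nat_lit 11584598566863936)) (.cons (.br (nat_lit 11) (nat_lit 1) (.cons (.br (nat_lit 5) (nat_lit 1) (.cons (.rf (nat_lit 883) (nat_lit 11584701575890976)) (.cons (.rf (nat_lit 883) (nat_lit 11584598499820608)) (.cons (.br (nat_lit 12) (nat_lit 0) (.cons (.rf (nat_lit 889) (nat_lit 14242959524133701664)) (.cons (.rf (nat_lit 890) (nat_lit 14242959524133701664)) (.cons (.br (nat_lit 12) (nat_lit 0) (.cons (.rf (nat_lit 889) (nat_lit 14242959524133701664)) (.cons (.rf (nat_lit 890) (nat_lit 14242959524133701664)) .nil))) .nil)))) (.cons (.br (nat_lit 4) (nat_lit 0) (.cons (.rf (nat_lit 904) (nat_lit 14242959524133701664)) (.cons (.rf (nat_lit 909) (nat_lit 14242959524133701664)) (.cons (.br (nat_lit 4) (nat_lit 0) (.cons (.rf (nat_lit 904) (nat_lit 14242959524133701664)) (.cons (.rf (nat_lit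 909) (nat_lit 14242959524133701664)) .nil))) .nil)))) .nil))))) .nil)) .nil)))) .nil))))),
 (.br (nat_lit 4) (nat_lit 1) (.cons (.rf (nat_lit 870) (nat_lit 10109384295488)) (.cons (.br (nat_lit 6) (nat_lit 0) (.cons (.rf (nat_lit 874) (nat_lit 356488904280096)) (.cons (.rf (nat_lit 118) (nat_lit 12706134713663746)) .nil))) .nil))),
 (.br (nat_lit 10) (nat_lit 0) (.cons (.rf (nat_lit 874) (nat_lit 356488904280096)) (.cons (.rf (nat_lit 118) (nat_lit 12706139008631042)) .nil))),
 (.br (nat_lit 10) (nat_lit 1) (.cons (.rf (nat_lit 911) (nat_lit 362021926341697)) (.cons (.br (nat_lit 10) (nat_lit 1) (.cons (.rf (nat_lit 911) (nat_lit 362021926341697)) (.cons (.br (nat_lit 7) (nat_lit 0) (.cons (.br (nat_lit 7) (nat_lit 0) (.cons (.ev (nat_lit 4722366765444133552129) (nat_lit 1)) (.cons (.rf (nat_lit 118) (nat_lit 14994253879182627)) .nil))) (.cons (.rf (nat_lit 912) (nat_lit 12746920901610561)) (.cons (.rf (nat_lit 118) (nat_lit 14994253879182627)) .nil)))) .nil))) .nil))),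
 (.br (nat_lit 6) (nat_lit 0) (.cons (.rf (nat_lit 328) (nat_lit 440588989651620961)) (.cons (.br (nat_lit 10) (nat_lit 1) (.cons (.br (nat_lit 11) (nat_lit 0) (.cons (.br (nat_lit 12) (nat_lit 0) (.cons (.ev (nat_lit 81210414030560098268275409945088) (nat_lit 3)) .nil)) .nil)) .nil)) .nil))),
 (.br (nat_lit 11) (nat_lit 0) (.cons (.rf (nat_lit 914) (nat_lit 493858305440582043680)) (.cons (.br (nat_lit 11) (nat_lit 0) (.cons (.rf (nat_lit 914) (nat_lit 493858305440582043680)) .nil)) .nil))),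
 (.br (nat_lit 12) (nat_lit 0) (.cons (.rf (nat_lit 915) (nat_lit 493858305440582043680)) (.cons (.br (nat_lit 12) (nat_lit 0) (.cons (.rf (nat_lit 915) (nat_lit 493858305440582043680)) .nil)) .nil))),
 (.br (nat_lit 5) (nat_lit 1) (.cons (.rf (nat_lit 913) (nat_lit 11584701642934304)) (.cons (.br (nat_lit 11) (nat_lit 1) (.cons (.br (nat_lit 7) (nat_lit 0) (.cons (.rf (nat_lit 874) (nat_lit 392808256113729)) (.cons (.br (nat_lit 11) (nat_lit 0) (.cons (.rf (nat_lit 331) (nat_lit 445084753185608739)) (.cons (.ev (nat_lit 1208944338417400728781056) (nat_lit 1)) (.cons (.rf (nat_lit 329) (nat_lit 15034901591099427)) .nil)))) (.cons (.br (nat_lit 12) (nat_lit 0) (.cons (.rf (nat_lit 915) (nat_lit 493858305440582043680)) (.cons (.rf (nat_lit 916) (nat_lit 493858305440582043680)) (.cons (.br (nat_lit 12) (nat_lit 0) (.cons (.rf (nat_lit 915) (nat_lit 493858305440582043680)) (.cons (.rf (nat_lit 916) (nat_lit 493858305440582043680)) .nil))) .nil)))) .nil)))) .nil)) .nil))),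
 (.br (nat_lit 5) (nat_lit 1) (.cons (.rf (nat_lit 913) (nat_lit 11584701642934304)) (.cons (.rf (nat_lit 917) (nat_lit 11584701642934304)) (.cons (.br (nat_lit 5) (nat_lit 1) (.cons (.rf (nat_lit 913) (nat_lit 11584701642934304)) (.cons (.rf (nat_lit 917) (nat_lit 11584701642934304)) (.cons (.rf (nat_lit 789) (nat_lit 13906870200797216)) .nil)))) .nil)))),
 (.br (nat_lit 10) (nat_lit 1) (.cons (.rf (nat_lit 918) (nat_lit 11584701642934304)) (.cons (.br (nat_lit 4) (nat_lit 0) (.cons (.br (nat_lit 7) (nat_lit 0) (.cons (.ev (nat_lit 18447026648197955841) (nat_lit 1)) (.cons (.rf (nat_lit 911) (nat_lit 361988573300833)) (.cons (.rf (nat_lit 319) (nat_lit 13872820741409857)) .nil)))) (.cons (.rf (nat_lit 870) (nat_lit 11277721275457)) (.cons (.br (nat_lit 5) (nat_lit 1) (.cons (.rf (nat_lit 329) (nat_lit 13662849554648098)) (.cons (.br (nat_lit 5) (nat_lit 1) (.cons (.rf (nat_lit 329) (nat_lit 13662849554648098)) (.cons (.rf (nat_lit 789) (nat_lit 15032770107639840)) .nil)))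 (.cons (.br (nat_lit 5) (nat_lit 1) (.cons (.rf (nat_lit 329) (nat_lit 13662849554648098)) (.cons (.rf (nat_lit 789) (nat_lit 15032770107639840)) .nil))) .nil)))) .nil)))) .nil))),
 (.br (nat_lit 8) (nat_lit 1) (.cons (.kr (nat_lit 309494454554592283008696320) (nat_lit 158457533954420348509812162560) (nat_lit 3) (nat_lit 0)) .nil)),
 (.br (nat_lit 12) (nat_lit 1) (.cons (.br (nat_lit 4) (nat_lit 1) (.cons (.rf (nat_lit 920) (nat_lit 14242959524133701664)) (.cons (.rf (nat_lit 920) (nat_lit 14208056627021580320)) .nil))) .nil)),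
 (.br (nat_lit 5) (nat_lit 0) (.cons (.rf (nat_lit 204) (nat_lit 407901433354127392)) (.cons (.br (nat_lit 11) (nat_lit 1) (.cons (.rf (nat_lit 921) (nat_lit 13052847003258685472)) (.cons (.rf (nat_lit 921) (nat_lit 13017944106146564128)) .nil))) .nil))),
 (.br (nat_lit 11) (nat_lit 1) (.cons (.rf (nat_lit 922) (nat_lit 407901468851537952)) (.cons (.br (nat_lit 11) (nat_lit 1) (.cons (.rf (nat_lit 922) (nat_lit 407901468851537952)) .nil)) .nil))),
 (.br (nat_lit 11) (nat_lit 1) (.cons (.rf (nat_lit 922) (nat_lit 407901468851537952)) (.cons (.rf (nat_lit 923) (nat_lit 407901468851537952)) (.cons (.rf (nat_lit 923) (nat_lit 406810753316784160)) .nil)))),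
 (.br (nat_lit 10) (nat_lit 1) (.cons (.rf (nat_lit 918) (nat_lit 11584701642934304)) (.cons (.rf (nat_lit 919) (nat_lit 11584701642934304)) (.cons (.br (nat_lit 10) (nat_lit 1) (.cons (.rf (nat_lit 918) (nat_lit 11584701642934304)) (.cons (.rf (nat_lit 919) (nat_lit 11584701642934304)) (.cons (.br (nat_lit 11) (nat_lit 1) (.cons (.br (nat_lit 4) (nat_lit 0) (.cons (.br (nat_lit 7) (nat_lit 0) (.cons (.ev (nat_lit 18447026648197955841) (nat_lit 1)) (.cons (.br (nat_lit 11) (nat_lit 0) (.cons (.rf (nat_lit 874) (nat_lit 392808256113729)) (.cons (.rf (nat_lit 319) (nat_lit 14998724943219777)) .nil))) (.cons (.rf (nat_lit 319) (nat_lit 14998720648252481)) .nil)))) (.cons (.rf (nat_lit 870) (nat_lit 11277721275457)) (.cons (.rf (nat_lit 924) (nat_lit 482283501406784577)) .nil)))) .nil)) .nil)))) .nil)))),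
 (.br (nat_lit 11) (nat_lit 0) (.cons (.br (nat_lit 12) (nat_lit 0) (.cons (.rf (nat_lit 742) (nat_lit 12997166240)) (.cons (.br (nat_lit 6) (nat_lit 0) (.cons (.ev (nat_lit 79538861190718806809286606848) (nat_lit 1)) (.cons (.br (nat_lit 4) (nat_lit 0) (.cons (.br (nat_lit 7) (nat_lit 0) (.cons (.ev (nat_lit 80780451730480881398102491136) (nat_lit 3)) .nil)) (.cons (.br (nat_lit 5) (nat_lit 1) (.cons (.ev (nat_lit 80780451730480881398102099456) (nat_lit 3)) .nil)) .nil))) .nil))) .nil))) .nil)),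
 (.br (nat_lit 12) (nat_lit 0) (.cons (.rf (nat_lit 742) (nat_lit 12997166240)) (.cons (.rf (nat_lit 926) (nat_lit 14242959524133701664)) (.cons (.br (nat_lit 12) (nat_lit 0) (.cons (.rf (nat_lit 742) (nat_lit 12997166240)) (.cons (.rf (nat_lit 926) (nat_lit 14242959524133701664)) .nil))) .nil)))),
 (.br (nat_lit 12) (nat_lit 0) (.cons (.rf (nat_lit 927) (nat_lit 13126066816545818656)) (.cons (.br (nat_lit 12) (nat_lit 0) (.cons (.rf (nat_lit 927) (nat_lit 13126066816545818656)) .nil)) .nil))),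
 (.br (nat_lit 10) (nat_lit 1) (.cons (.rf (nat_lit 918) (nat_lit 11584701642934304)) (.cons (.rf (nat_lit 925) (nat_lit 11584701642934304)) (.cons (.br (nat_lit 10) (nat_lit 1) (.cons (.rf (nat_lit 918) (nat_lit 11584701642934304)) (.cons (.rf (nat_lit 925) (nat_lit 11584701642934304)) (.cons (.br (nat_lit 11) (nat_lit 1) (.cons (.br (nat_lit 11) (nat_lit 0) (.cons (.rf (nat_lit 927) (nat_lit 14242959524133701664)) (.cons (.rf (nat_lit 928) (nat_lit 14242959524133701664)) (.cons (.br (nat_lit 11) (nat_lit 0) (.cons (.rf (nat_lit 927) (nat_lit 14242959524133701664)) (.cons (.rf (nat_lit 928) (nat_lit 14242959524133701664)) .nil))) .nil)))) .nil)) .nil)))) .nil)))),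
 (.br (nat_lit 10) (nat_lit 1) (.cons (.rf (nat_lit 918) (nat_lit 11584701642934304)) (.cons (.rf (nat_lit 925) (nat_lit 11584701642934304)) (.cons (.rf (nat_lit 929) (nat_lit 11584701642934304)) (.cons (.br (nat_lit 10) (nat_lit 1) (.cons (.rf (nat_lit 918) (nat_lit 11584701642934304)) (.cons (.rf (nat_lit 925) (nat_lit 11584701642934304)) (.cons (.rf (nat_lit 929) (nat_lit 11584701642934304)) (.cons (.br (nat_lit 10) (nat_lit 1) (.cons (.rf (nat_lit 918) (nat_lit 11584701642934304)) (.cons (.rf (nat_lit 925) (nat_lit 11584701642934304)) (.cons (.rf (nat_lit 929) (nat_lit 11584701642934304)) .nil)))) .nil))))) .nil)))))]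

theorem c24 : chkAll C T R L24 (nat_lit 893) = true := by decide +kernel

theorem l24 : (nat_lit 893) + L24.length = (nat_lit 931) := by decide +kernel

/-- part of the certificates -/
def L25 : List Prf := [(.br (nat_lit 13) (nat_lit 1) (.cons (.br (nat_lit 13) (nat_lit 1) .nil) .nil)),
 (.br (nat_lit 7) (nat_lit 0) (.cons (.br (nat_lit 4) (nat_lit 0) (.cons (.br (nat_lit 6) (nat_lit 0) (.cons (.ev (nat_lit 81397003824553250785664960006) (nat_lit 3)) .nil)) (.cons (.br (nat_lit 6) (nat_lit 0) (.cons (.ev (nat_lit 20282720297587311666219639111681) (nat_lit 1)) .nil)) .nil))) .nil)),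
 (.br (nat_lit 7) (nat_lit 0) (.cons (.rf (nat_lit 932) (nat_lit 493858305440582043680)) (.cons (.br (nat_lit 7) (nat_lit 0) (.cons (.rf (nat_lit 932) (nat_lit 493858305440582043680)) .nil)) .nil))),
 (.br (nat_lit 10) (nat_lit 1) (.cons (.ev (nat_lit 80160244321187499261730816257) (nat_lit 2)) .nil)),
 (.br (nat_lit 5) (nat_lit 1) (.cons (.rf (nat_lit 933) (nat_lit 493858305440582043680)) (.cons (.rf (nat_lit 934) (nat_lit 493858305440582043680)) (.cons (.rf (nat_lit 933) (nat_lit 493858305337505973312)) .nil)))),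
 (.br (nat_lit 12) (nat_lit 0) (.cons (.br (nat_lit 11) (nat_lit 0) (.cons (.rf (nat_lit 742) (nat_lit 12997166240)) (.cons (.br (nat_lit 5) (nat_lit 1) (.cons (.ev (nat_lit 309485028268090241962737921) (nat_lit 1)) (.cons (.br (nat_lit 13) (nat_lit 1) (.cons (.rf (nat_lit 931) (nat_lit 493858305440582043680)) (.cons (.rf (nat_lit 931) (nat_lit 493858305337505973312)) .nil))) (.cons (.ev (nat_lit 309485028268090241962803201) (nat_lit 1)) .nil)))) (.cons (.br (nat_lit 4) (nat_lit 0) (.cons (.rf (nat_lit 933) (nat_lit 493858305440582043680)) (.cons (.rf (nat_lit 935) (nat_lit 493858305440582043680)) (.cons (.br (nat_lit 4) (nat_lit 0) (.cons (.rf (nat_lit 933) (nat_lit 493858305440582043680)) (.cons (.rf (nat_lit 935) (nat_lit 493858305440582043680)) .nil))) .nil)))) .nil)))) .nil)),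
 (.br (nat_lit 12) (nat_lit 0) (.cons (.rf (nat_lit 936) (nat_lit 14242959524133701664)) (.cons (.br (nat_lit 12) (nat_lit 0) (.cons (.rf (nat_lit 936) (nat_lit 14242959524133701664)) .nil)) .nil))),
 (.br (nat_lit 6) (nat_lit 0) (.cons (.br (nat_lit 12) (nat_lit 0) (.cons (.ev (nat_lit 20282409608374108964415246237696) (nat_lit 1)) .nil)) .nil)),
 (.br (nat_lit 7) (nat_lit 0) (.cons (.br (nat_lit 4) (nat_lit 0) (.cons (.rf (nat_lit 938) (nat_lit 493858305440582043680)) (.cons (.br (nat_lit 12) (nat_lit 0) (.cons (.br (nat_lit 6) (nat_lit 0) (.cons (.ev (nat_lit 40644359291587196578487280730112) (nat_lit 3)) .nil)) (.cons (.ev (nat_lit 20361637770906820047181994590208) (nat_lit 1)) .nil))) .nil))) .nil)),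
 (.br (nat_lit 7) (nat_lit 0) (.cons (.rf (nat_lit 939) (nat_lit 493858305440582043680)) (.cons (.br (nat_lit 7) (nat_lit 0) (.cons (.rf (nat_lit 939) (nat_lit 493858305440582043680)) .nil)) .nil))),
 (.br (nat_lit 5) (nat_lit 1) (.cons (.rf (nat_lit 940) (nat_lit 493858305440582043680)) (.cons (.ev (nat_lit 4722366765444133552129) (nat_lit 1)) (.cons (.rf (nat_lit 940) (nat_lit 493858305337505973312)) .nil)))),
 (.br (nat_lit 9) (nat_lit 1) (.cons (.ev (nat_lit 20361637770906747988484150001664) (nat_lit 1)) (.cons (.ev (nat_lit 20361637770906747988484150067456) (nat_lit 1)) .nil))),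
 (.br (nat_lit 13) (nat_lit 1) (.cons (.rf (nat_lit 942) (nat_lit 493858305440582043680)) (.cons (.br (nat_lit 9) (nat_lit 1) (.cons (.kr (nat_lit 20282409603670117168020960837633) (nat_lit 309489732187827938370060288) (nat_lit 0) (nat_lit 1)) (.cons (.ev (nat_lit 20361637770906747988484150067456) (nat_lit 1)) (.cons (.kr (nat_lit 20282409603670117168020960837633) (nat_lit 309489732187827938369995008) (nat_lit 0) (nat_lit 2)) .nil)))) .nil))),
 (.br (nat_lit 12) (nat_lit 0) (.cons (.rf (nat_lit 941) (nat_lit 493858305440582043680)) (.cons (.br (nat_lit 13) (nat_lit 1) (.cons (.rf (nat_lit 943) (nat_lit 493858305440582043680)) (.cons (.br (nat_lit 13) (nat_lit 1) (.cons (.rf (nat_lit 942) (nat_lit 493858305440582043680)) (.cons (.rf (nat_lit 942) (nat_lit 493858305337505973312)) .nil))) (.cons (.rf (nat_lit 943) (nat_lit 493858305337505973312)) .nil)))) .nil))),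
 (.br (nat_lit 11) (nat_lit 0) (.cons (.rf (nat_lit 742) (nat_lit 12997166240)) (.cons (.rf (nat_lit 937) (nat_lit 14242959524133701664)) (.cons (.br (nat_lit 12) (nat_lit 0) (.cons (.rf (nat_lit 941) (nat_lit 493858305440582043680)) (.cons (.rf (nat_lit 944) (nat_lit 493858305440582043680)) (.cons (.br (nat_lit 12) (nat_lit 0) (.cons (.rf (nat_lit 941) (nat_lit 493858305440582043680)) (.cons (.rf (nat_lit 944) (nat_lit 493858305440582043680)) .nil))) .nil)))) .nil)))),
 (.br (nat_lit 11) (nat_lit 0) (.cons (.rf (nat_lit 742) (nat_lit 12997166240)) (.cons (.rf (nat_lit 937) (nat_lit 14242959524133701664)) (.cons (.rf (nat_lit 945) (nat_lit 14242959524133701664)) (.cons (.br (nat_lit 11) (nat_lit 0) (.cons (.rf (nat_lit 742) (nat_lit 12997166240)) (.cons (.rf (nat_lit 937) (nat_lit 14242959524133701664)) (.cons (.rf (nat_lit 945) (nat_lit 14242959524133701664)) .nil)))) .nil))))),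
 (.br (nat_lit 13) (nat_lit 1) (.cons (.br (nat_lit 4) (nat_lit 0) (.cons (.br (nat_lit 10) (nat_lit 1) (.cons (.ev (nat_lit 20361637766166006820238639824896) (nat_lit 1)) (.cons (.ev (nat_lit 20282719088679938795664174022656) (nat_lit 1)) .nil))) (.cons (.br (nat_lit 7) (nat_lit 0) (.cons (.ev (nat_lit 20361637766166006820238639759616) (nat_lit 1)) (.cons (.ev (nat_lit 1213666705180645839143168) (nat_lit 1)) .nil))) .nil))) .nil)),
 (.br (nat_lit 13) (nat_lit 1) (.cons (.rf (nat_lit 947) (nat_lit 493858305440582043680)) (.cons (.br (nat_lit 13) (nat_lit 1) (.cons (.rf (nat_lit 947) (nat_lit 493858305440582043680)) .nil)) .nil))),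
 (.br (nat_lit 13) (nat_lit 1) (.cons (.br (nat_lit 4) (nat_lit 0) (.cons (.br (nat_lit 7) (nat_lit 0) (.cons (.ev (nat_lit 18447026648197955841) (nat_lit 1)) (.cons (.ev (nat_lit 20361638979814120859039615156481) (nat_lit 1)) .nil))) (.cons (.ev (nat_lit 20361638979814120859039615221761) (nat_lit 1)) .nil))) .nil)),
 (.br (nat_lit 13) (nat_lit 1) (.cons (.rf (nat_lit 949) (nat_lit 493858305440582043680)) (.cons (.br (nat_lit 13) (nat_lit 1) (.cons (.rf (nat_lit 949) (nat_lit 493858305440582043680)) .nil)) .nil))),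
 (.br (nat_lit 12) (nat_lit 0) (.cons (.rf (nat_lit 946) (nat_lit 14242959524133701664)) (.cons (.br (nat_lit 6) (nat_lit 0) (.cons (.br (nat_lit 13) (nat_lit 1) (.cons (.rf (nat_lit 948) (nat_lit 493858305440582043680)) (.cons (.rf (nat_lit 948) (nat_lit 493858305337505973312)) (.cons (.br (nat_lit 13) (nat_lit 1) (.cons (.rf (nat_lit 948) (nat_lit 493858305440582043680)) (.cons (.rf (nat_lit 948) (nat_lit 493858305337505973312)) .nil))) .nil)))) (.cons (.br (nat_lit 13) (nat_lit 1) (.cons (.rf (nat_lit 950) (nat_lit 493858305440582043680)) (.cons (.rf (nat_lit 950) (nat_lit 493858305337505973312)) (.cons (.br (nat_lit 13) (nat_lit 1) (.cons (.rf (nat_lit 950) (nat_lit 493858305440582043680)) (.cons (.rf (nat_lit 950) (nat_lit 493858305337505973312)) .nil))) .nil)))) (.cons (.ev (nat_lit 79228167255077846011892203521) (nat_lit 1)) .nil)))) .nil))),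
 (.br (nat_lit 12) (nat_lit 0) (.cons (.rf (nat_lit 946) (nat_lit 14242959524133701664)) (.cons (.rf (nat_lit 951) (nat_lit 14242959524133701664)) (.cons (.br (nat_lit 12) (nat_lit 0) (.cons (.rf (nat_lit 946) (nat_lit 14242959524133701664)) (.cons (.rf (nat_lit 951) (nat_lit 14242959524133701664)) .nil))) .nil)))),
 (.br (nat_lit 12) (nat_lit 0) (.cons (.rf (nat_lit 946) (nat_lit 14242959524133701664)) (.cons (.rf (nat_lit 952) (nat_lit 14242959524133701664)) (.cons (.br (nat_lit 12) (nat_lit 0) (.cons (.rf (nat_lit 946) (nat_lit 14242959524133701664)) (.cons (.rf (nat_lit 952) (nat_lit 14242959524133701664)) .nil))) .nil)))),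
 (.br (nat_lit 8) (nat_lit 0) (.cons (.rf (nat_lit 910) (nat_lit 325702574508064)) (.cons (.br (nat_lit 3) (nat_lit 1) (.cons (.rf (nat_lit 930) (nat_lit 11584701642934304)) (.cons (.rf (nat_lit 742) (nat_lit 8764064864)) (.cons (.rf (nat_lit 930) (nat_lit 11584598566863936)) (.cons (.br (nat_lit 11) (nat_lit 1) (.cons (.br (nat_lit 12) (nat_lit 0) (.cons (.rf (nat_lit 946) (nat_lit 14242959524133701664)) (.cons (.rf (nat_lit 952) (nat_lit 14242959524133701664)) (.cons (.rf (nat_lit 953) (nat_lit 14242959524133701664)) (.cons (.br (nat_lit 12) (nat_lit 0) (.cons (.rf (nat_lit 946) (nat_lit 14242959524133701664)) (.cons (.rf (nat_lit 952) (nat_lit 14242959524133701664)) (.cons (.rf (nat_lit 953) (nat_lit 14242959524133701664)) .nil)))) .nil))))) .nil)) .nil))))) .nil))),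
 (.br (nat_lit 13) (nat_lit 0) (.cons (.br (nat_lit 11) (nat_lit 1) (.cons (.br (nat_lit 9) (nat_lit 1) (.cons (.br (nat_lit 10) (nat_lit 1) (.cons (.ev (nat_lit 20680407345227232726137266635266) (nat_lit 3)) .nil)) .nil)) (.cons (.ev (nat_lit 20282719088679938794564679106816) (nat_lit 1)) .nil))) .nil)),
 (.br (nat_lit 13) (nat_lit 0) (.cons (.rf (nat_lit 955) (nat_lit 493858305440582043680)) (.cons (.br (nat_lit 13) (nat_lit 0) (.cons (.rf (nat_lit 955) (nat_lit 493858305440582043680)) .nil)) .nil))),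
 (.br (nat_lit 13) (nat_lit 0) (.cons (.rf (nat_lit 956) (nat_lit 493858305440582043680)) (.cons (.br (nat_lit 13) (nat_lit 0) (.cons (.rf (nat_lit 956) (nat_lit 493858305440582043680)) .nil)) .nil))),
 (.br (nat_lit 5) (nat_lit 1) (.cons (.br (nat_lit 12) (nat_lit 1) (.cons (.br (nat_lit 13) (nat_lit 0) (.cons (.rf (nat_lit 956) (nat_lit 493858305440582043680)) (.cons (.rf (nat_lit 957) (nat_lit 493858305440582043680)) (.cons (.br (nat_lit 13) (nat_lit 0) (.cons (.rf (nat_lit 956) (nat_lit 493858305440582043680)) (.cons (.rf (nat_lit 957) (nat_lit 493858305440582043680)) .nil))) .nil)))) .nil)) .nil)),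
 (.br (nat_lit 5) (nat_lit 1) (.cons (.rf (nat_lit 958) (nat_lit 407901468851537952)) (.cons (.br (nat_lit 5) (nat_lit 1) (.cons (.rf (nat_lit 958) (nat_lit 407901468851537952)) (.cons (.rf (nat_lit 789) (nat_lit 15067954479728672)) .nil))) .nil))),
 (.br (nat_lit 13) (nat_lit 0) (.cons (.rf (nat_lit 742) (nat_lit 14071956640)) (.cons (.br (nat_lit 5) (nat_lit 1) (.cons (.br (nat_lit 7) (nat_lit 0) (.cons (.br (nat_lit 10) (nat_lit 1) (.cons (.ev (nat_lit 20837628148104574701816443307520) (nat_lit 3)) .nil)) (.cons (.br (nat_lit 9) (nat_lit 1) (.cons (.ev (nat_lit 20678557688723222343499966055426) (nat_lit 3)) .nil)) .nil))) (.cons (.br (nat_lit 6) (nat_lit 0) (.cons (.br (nat_lit 10) (nat_lit 1) (.cons (.ev (nat_lit 20837628148104574701816443307520) (nat_lit 3)) .nil)) (.cons (.br (nat_lit 9) (nat_lit 1) (.cons (.ev (nat_lit 20678557688723222343499966055426) (nat_lit 3)) .nil)) .nil))) .nil))) .nil))),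
 (.br (nat_lit 13) (nat_lit 0) (.cons (.rf (nat_lit 742) (nat_lit 14071956640)) (.cons (.rf (nat_lit 960) (nat_lit 493858305440582043680)) (.cons (.br (nat_lit 13) (nat_lit 0) (.cons (.rf (nat_lit 742) (nat_lit 14071956640)) (.cons (.rf (nat_lit 960) (nat_lit 493858305440582043680)) .nil))) .nil)))),
 (.br (nat_lit 5) (nat_lit 1) (.cons (.br (nat_lit 9) (nat_lit 1) (.cons (.br (nat_lit 10) (nat_lit 1) (.cons (.ev (nat_lit 159077722363206760864919455232) (nat_lit 3)) .nil)) .nil)) (.cons (.rf (nat_lit 961) (nat_lit 458117738797769787424)) .nil))),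
 (.br (nat_lit 12) (nat_lit 0) (.cons (.rf (nat_lit 961) (nat_lit 493858305440582043680)) (.cons (.br (nat_lit 5) (nat_lit 1) (.cons (.rf (nat_lit 962) (nat_lit 493858305440582043680)) (.cons (.br (nat_lit 5) (nat_lit 1) (.cons (.rf (nat_lit 962) (nat_lit 493858305440582043680)) (.cons (.rf (nat_lit 961) (nat_lit 458117738797769787424)) .nil))) (.cons (.rf (nat_lit 961) (nat_lit 458117738797769787424)) .nil)))) .nil))),
 (.br (nat_lit 11) (nat_lit 1) (.cons (.rf (nat_lit 959) (nat_lit 407901468851537952)) (.cons (.br (nat_lit 11) (nat_lit 1) (.cons (.rf (nat_lit 959) (nat_lit 407901468851537952)) (.cons (.br (nat_lit 12) (nat_lit 1) (.cons (.br (nat_lit 12) (nat_lit 0) (.cons (.rf (nat_lit 961) (nat_lit 493858305440582043680)) (.cons (.rf (nat_lit 963) (nat_lit 493858305440582043680)) (.cons (.br (nat_lit 12) (nat_lit 0) (.cons (.rf (nat_lit 961) (nat_lit 493858305440582043680)) (.cons (.rf (nat_lit 963) (nat_lit 493858305440582043680)) .nil))) .nil)))) .nil)) .nil))) .nil))),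
 (.br (nat_lit 11) (nat_lit 1) (.cons (.rf (nat_lit 959) (nat_lit 407901468851537952)) (.cons (.rf (nat_lit 964) (nat_lit 407901468851537952)) (.cons (.br (nat_lit 11) (nat_lit 1) (.cons (.rf (nat_lit 959) (nat_lit 407901468851537952)) (.cons (.rf (nat_lit 964) (nat_lit 407901468851537952)) (.cons (.br (nat_lit 11) (nat_lit 1) (.cons (.rf (nat_lit 959) (nat_lit 407901468851537952)) (.cons (.rf (nat_lit 964) (nat_lit 407901468851537952)) .nil))) .nil)))) .nil)))),
 (.br (nat_lit 13) (nat_lit 0) (.cons (.br (nat_lit 10) (nat_lit 1) (.cons (.br (nat_lit 9) (nat_lit 1) (.cons (.ev (nat_lit 20678557688723222343499966055426) (nat_lit 3)) .nil)) (.cons (.ev (nat_lit 20282410812595937064125129031936) (nat_lit 1)) .nil))) .nil)),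
 (.br (nat_lit 13) (nat_lit 0) (.cons (.rf (nat_lit 966) (nat_lit 493858305440582043680)) (.cons (.br (nat_lit 13) (nat_lit 0) (.cons (.rf (nat_lit 966) (nat_lit 493858305440582043680)) .nil)) .nil))),
 (.br (nat_lit 10) (nat_lit 1) (.cons (.br (nat_lit 5) (nat_lit 1) (.cons (.ev (nat_lit 79229371440156009821068329216) (nat_lit 1)) (.cons (.ev (nat_lit 20282410812577562096174775664896) (nat_lit 1)) .nil))) .nil))]

theorem c25 : chkAll C T R L25 (nat_lit 931) = true := by decide +kernel

theorem l25 : (nat_lit 931) + L25.length = (nat_lit 969) := by decide +kernel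

/-- part of the certificates -/
def L26 : List Prf := [(.br (nat_lit 10) (nat_lit 1) (.cons (.rf (nat_lit 968) (nat_lit 493858305440582043680)) (.cons (.rf (nat_lit 968) (nat_lit 458117738797769787424)) .nil))),
 (.br (nat_lit 5) (nat_lit 1) (.cons (.rf (nat_lit 969) (nat_lit 493858305440582043680)) (.cons (.rf (nat_lit 742) (nat_lit 14071956640)) .nil))),
 (.br (nat_lit 11) (nat_lit 1) (.cons (.rf (nat_lit 965) (nat_lit 372998571739416608)) (.cons (.br (nat_lit 11) (nat_lit 1) (.cons (.rf (nat_lit 965) (nat_lit 372998571739416608)) (.cons (.br (nat_lit 12) (nat_lit 1) (.cons (.br (nat_lit 4) (nat_lit 0) (.cons (.br (nat_lit 5) (nat_lit 1) (.cons (.rf (nat_lit 742) (nat_lit 7621117088)) (.cons (.rf (nat_lit 967) (nat_lit 493858305440582043680)) (.cons (.rf (nat_lit 967) (nat_lit 458117738797769787424)) .nil)))) (.cons (.br (nat_lit 5) (nat_lit 1) (.cons (.rf (nat_lit 969) (nat_lit 493858305440582043680)) (.cons (.rf (nat_lit 970) (nat_lit 493858305440582043680)) (.cons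 (.rf (nat_lit 970) (nat_lit 458117738797769787424)) .nil)))) (.cons (.rf (nat_lit 965) (nat_lit 407901468851537952)) .nil)))) .nil)) .nil))) .nil))),
 (.br (nat_lit 11) (nat_lit 1) (.cons (.rf (nat_lit 965) (nat_lit 372998571739416608)) (.cons (.rf (nat_lit 971) (nat_lit 407901468851537952)) (.cons (.br (nat_lit 11) (nat_lit 1) (.cons (.rf (nat_lit 965) (nat_lit 372998571739416608)) (.cons (.rf (nat_lit 971) (nat_lit 407901468851537952)) (.cons (.br (nat_lit 11) (nat_lit 1) (.cons (.rf (nat_lit 965) (nat_lit 372998571739416608)) (.cons (.rf (nat_lit 971) (nat_lit 407901468851537952)) .nil))) .nil)))) .nil)))),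
 (.br (nat_lit 8) (nat_lit 1) (.cons (.br (nat_lit 11) (nat_lit 0) (.cons (.br (nat_lit 10) (nat_lit 1) (.cons (.kr (nat_lit 309485009821345068724781056) (nat_lit 79228162514264337593543950336) (nat_lit 11) (nat_lit 0)) .nil)) .nil)) .nil)),
 (.br (nat_lit 8) (nat_lit 1) (.cons (.rf (nat_lit 973) (nat_lit 14242959524133701664)) (.cons (.rf (nat_lit 973) (nat_lit 13126066816545818656)) .nil))),
 (.br (nat_lit 11) (nat_lit 1) (.cons (.br (nat_lit 9) (nat_lit 1) (.cons (.br (nat_lit 10) (nat_lit 1) (.cons (.ev (nat_lit 20520715479158339645958971850752) (nat_lit 3)) .nil)) .nil)) .nil)),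
 (.br (nat_lit 12) (nat_lit 0) (.cons (.rf (nat_lit 123) (nat_lit 14893100151473253)) (.cons (.br (nat_lit 11) (nat_lit 1) (.cons (.rf (nat_lit 975) (nat_lit 493823402543469922336)) (.cons (.rf (nat_lit 975) (nat_lit 493858305440582043680)) .nil))) .nil))),
 (.br (nat_lit 10) (nat_lit 1) (.cons (.br (nat_lit 10) (nat_lit 1) (.cons (.br (nat_lit 10) (nat_lit 1) .nil) .nil)) .nil)),
 (.br (nat_lit 9) (nat_lit 1) (.cons (.ev (nat_lit 20520715479084265565170708905984) (nat_lit 3)) .nil)),
 (.br (nat_lit 11) (nat_lit 1) (.cons (.br (nat_lit 5) (nat_lit 1) (.cons (.rf (nat_lit 978) (nat_lit 493858305440582043680)) (.cons (.rf (nat_lit 978) (nat_lit 458117738797769787424)) .nil))) .nil)),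
 (.br (nat_lit 10) (nat_lit 1) (.cons (.rf (nat_lit 965) (nat_lit 407901468851537952)) (.cons (.rf (nat_lit 972) (nat_lit 407901468851537952)) (.cons (.br (nat_lit 10) (nat_lit 1) (.cons (.rf (nat_lit 965) (nat_lit 407901468851537952)) (.cons (.rf (nat_lit 972) (nat_lit 407901468851537952)) (.cons (.br (nat_lit 12) (nat_lit 1) (.cons (.br (nat_lit 4) (nat_lit 0) (.cons (.br (nat_lit 6) (nat_lit 0) (.cons (.br (nat_lit 7) (nat_lit 0) (.cons (.rf (nat_lit 24) (nat_lit 12740323768993953)) (.cons (.rf (nat_lit 974) (nat_lit 15433072045018188865)) .nil))) (.cons (.br (nat_lit 5) (nat_lit 1) (.cons (.rf (nat_lit 742) (nat_lit 7621117088)) (.cons (.rf (nat_lit 976) (nat_lit 493858305440582043680)) (.cons (.rf (nat_lit 976) (nat_lit 458117738797769787424)) .nil)))) (.cons (.rf (nat_lit 972) (nat_lit 372998571739416608)) .nil)))) (.cons (.br (nat_lit 6) (nat_lit 0) (.cons (.br (nat_lit 7) (nat_lit 0) (.cons (.rf (nat_lit 977) (nat_lit 12746920901610561)) (.cons (.rf (nat_lit 420)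 (nat_lit 13164383697363929123)) (.cons (.br (nat_lit 11) (nat_lit 1) (.cons (.rf (nat_lit 979) (nat_lit 493858305440582043680)) (.cons (.rf (nat_lit 979) (nat_lit 458117738797769787424)) .nil))) .nil)))) (.cons (.br (nat_lit 7) (nat_lit 0) (.cons (.rf (nat_lit 24) (nat_lit 12740323764799777)) (.cons (.rf (nat_lit 974) (nat_lit 15433067646975872065)) .nil))) (.cons (.rf (nat_lit 972) (nat_lit 372998571739416608)) .nil)))) (.cons (.rf (nat_lit 965) (nat_lit 372998571739416608)) .nil)))) .nil)) .nil)))) .nil)))),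
 (.br (nat_lit 10) (nat_lit 1) (.cons (.rf (nat_lit 965) (nat_lit 407901468851537952)) (.cons (.rf (nat_lit 972) (nat_lit 407901468851537952)) (.cons (.rf (nat_lit 980) (nat_lit 407901468851537952)) (.cons (.br (nat_lit 10) (nat_lit 1) (.cons (.rf (nat_lit 965) (nat_lit 407901468851537952)) (.cons (.rf (nat_lit 972) (nat_lit 407901468851537952)) (.cons (.rf (nat_lit 980) (nat_lit 407901468851537952)) (.cons (.br (nat_lit 10) (nat_lit 1) (.cons (.rf (nat_lit 965) (nat_lit 407901468851537952)) (.cons (.rf (nat_lit 972) (nat_lit 407901468851537952)) (.cons (.rf (nat_lit 980) (nat_lit 407901468851537952)) .nil)))) .nil))))) .nil))))),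
 (.br (nat_lit 11) (nat_lit 1) (.cons (.ev (nat_lit 20282719093402304995959330898176) (nat_lit 1)) .nil)),
 (.br (nat_lit 7) (nat_lit 0) (.cons (.br (nat_lit 4) (nat_lit 0) (.cons (.rf (nat_lit 938) (nat_lit 421116168657340303392)) (.cons (.br (nat_lit 6) (nat_lit 0) (.cons (.ev (nat_lit 20837009187529664975219160515590) (nat_lit 3)) .nil)) .nil))) .nil)),
 (.br (nat_lit 7) (nat_lit 0) (.cons (.rf (nat_lit 983) (nat_lit 493858305440582043680)) (.cons (.br (nat_lit 7) (nat_lit 0) (.cons (.rf (nat_lit 983) (nat_lit 493858305440582043680)) .nil)) .nil))),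
 (.br (nat_lit 4) (nat_lit 0) (.cons (.rf (nat_lit 984) (nat_lit 493858305440582043680)) (.cons (.br (nat_lit 5) (nat_lit 1) (.cons (.br (nat_lit 10) (nat_lit 1) (.cons (.br (nat_lit 7) (nat_lit 0) (.cons (.ev (nat_lit 20837009187529664975219160515590) (nat_lit 3)) .nil)) .nil)) (.cons (.rf (nat_lit 984) (nat_lit 493858305337505973312)) .nil))) .nil))),
 (.br (nat_lit 13) (nat_lit 0) (.cons (.br (nat_lit 6) (nat_lit 0) (.cons (.rf (nat_lit 118) (nat_lit 12739156905432169)) (.cons (.rf (nat_lit 329) (nat_lit 12677444672029801)) (.cons (.br (nat_lit 11) (nat_lit 1) (.cons (.rf (nat_lit 982) (nat_lit 493858305440582043680)) (.cons (.rf (nat_lit 982) (nat_lit 493858305337505973312)) .nil))) .nil)))) (.cons (.br (nat_lit 4) (nat_lit 0) (.cons (.rf (nat_lit 984) (nat_lit 493858305440582043680)) (.cons (.rf (nat_lit 985) (nat_lit 493858305440582043680)) (.cons (.br (nat_lit 4) (nat_lit 0) (.cons (.rf (nat_lit 984) (nat_lit 493858305440582043680)) (.cons (.rf (nat_lit 985) (nat_lit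 493858305440582043680)) .nil))) .nil)))) .nil))),
 (.br (nat_lit 9) (nat_lit 1) (.cons (.br (nat_lit 10) (nat_lit 1) (.cons (.br (nat_lit 7) (nat_lit 0) (.cons (.ev (nat_lit 158765824223969116061282926595) (nat_lit 2)) .nil)) .nil)) (.cons (.br (nat_lit 6) (nat_lit 0) (.cons (.br (nat_lit 7) (nat_lit 0) (.cons (.ev (nat_lit 80780456452775588144391127301) (nat_lit 3)) .nil)) (.cons (.br (nat_lit 7) (nat_lit 0) (.cons (.ev (nat_lit 20361640212444511860396971394566) (nat_lit 3)) .nil)) .nil))) .nil))),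
 (.br (nat_lit 5) (nat_lit 1) (.cons (.rf (nat_lit 987) (nat_lit 493858305440582043680)) (.cons (.rf (nat_lit 934) (nat_lit 384367917199857387552)) (.cons (.br (nat_lit 11) (nat_lit 1) (.cons (.br (nat_lit 4) (nat_lit 0) (.cons (.br (nat_lit 7) (nat_lit 0) (.cons (.ev (nat_lit 20361640212444511860396971525126) (nat_lit 3)) .nil)) (.cons (.br (nat_lit 7) (nat_lit 0) (.cons (.ev (nat_lit 20361640212444511860396971261958) (nat_lit 3)) .nil)) .nil))) (.cons (.rf (nat_lit 987) (nat_lit 493858305337505973312)) .nil))) .nil)))),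
 (.br (nat_lit 13) (nat_lit 0) (.cons (.rf (nat_lit 986) (nat_lit 493858305440582043680)) (.cons (.br (nat_lit 11) (nat_lit 1) (.cons (.rf (nat_lit 988) (nat_lit 493858305440582043680)) (.cons (.br (nat_lit 11) (nat_lit 1) (.cons (.rf (nat_lit 988) (nat_lit 493858305440582043680)) (.cons (.rf (nat_lit 988) (nat_lit 493858305337505973312)) .nil))) (.cons (.rf (nat_lit 988) (nat_lit 493858305337505973312)) .nil)))) .nil))),
 (.br (nat_lit 13) (nat_lit 0) (.cons (.rf (nat_lit 986) (nat_lit 493858305440582043680)) (.cons (.rf (nat_lit 989) (nat_lit 493858305440582043680)) (.cons (.br (nat_lit 13) (nat_lit 0) (.cons (.rf (nat_lit 986) (nat_lit 493858305440582043680)) (.cons (.rf (nat_lit 989) (nat_lit 493858305440582043680)) .nil))) .nil)))),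
 (.br (nat_lit 12) (nat_lit 0) (.cons (.rf (nat_lit 742) (nat_lit 14071956640)) (.cons (.rf (nat_lit 990) (nat_lit 493858305440582043680)) (.cons (.rf (nat_lit 990) (nat_lit 493823402543469922336)) .nil)))),
 (.br (nat_lit 11) (nat_lit 1) (.cons (.br (nat_lit 7) (nat_lit 0) (.cons (.br (nat_lit 10) (nat_lit 1) (.cons (.ev (nat_lit 79849550422656765655276060674) (nat_lit 2)) .nil)) (.cons (.br (nat_lit 9) (nat_lit 1) (.cons (.ev (nat_lit 20680407326374658591757288342018) (nat_lit 3)) .nil)) .nil))) .nil)),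
 (.br (nat_lit 11) (nat_lit 1) (.cons (.rf (nat_lit 992) (nat_lit 493858305440582043680)) (.cons (.br (nat_lit 11) (nat_lit 1) (.cons (.rf (nat_lit 992) (nat_lit 493858305440582043680)) .nil)) .nil))),
 (.br (nat_lit 4) (nat_lit 0) (.cons (.rf (nat_lit 993) (nat_lit 493858305440582043680)) (.cons (.rf (nat_lit 993) (nat_lit 493823402543469922336)) .nil))),
 (.br (nat_lit 12) (nat_lit 0) (.cons (.rf (nat_lit 742) (nat_lit 14071956640)) (.cons (.rf (nat_lit 991) (nat_lit 493858305440582043680)) (.cons (.br (nat_lit 5) (nat_lit 1) (.cons (.ev (nat_lit 79228162532711082766781907201) (nat_lit 1)) (.cons (.br (nat_lit 9) (nat_lit 1) (.cons (.rf (nat_lit 994) (nat_lit 493858305440582043680)) (.cons (.rf (nat_lit 994) (nat_lit 493858305337505973312)) (.cons (.br (nat_lit 9) (nat_lit 1) (.cons (.rf (nat_lit 994) (nat_lit 493858305440582043680)) (.cons (.rf (nat_lit 994) (nat_lit 493858305337505973312)) .nil))) .nil)))) (.cons (.ev (nat_lit 79228162532711082766781972481) (nat_lit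 1)) .nil)))) .nil)))),
 (.br (nat_lit 12) (nat_lit 0) (.cons (.rf (nat_lit 742) (nat_lit 14071956640)) (.cons (.rf (nat_lit 991) (nat_lit 493858305440582043680)) (.cons (.rf (nat_lit 995) (nat_lit 493858305440582043680)) (.cons (.rf (nat_lit 995) (nat_lit 493823402543469922336)) .nil))))),
 (.br (nat_lit 7) (nat_lit 0) (.cons (.ev (nat_lit 20361637794629766119286041216516) (nat_lit 3)) .nil)),
 (.br (nat_lit 12) (nat_lit 0) (.cons (.br (nat_lit 4) (nat_lit 0) (.cons (.rf (nat_lit 997) (nat_lit 493858305440582043680)) (.cons (.rf (nat_lit 997) (nat_lit 493823402543469922336)) .nil))) .nil)),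
 (.br (nat_lit 12) (nat_lit 0) (.cons (.rf (nat_lit 998) (nat_lit 493858305440582043680)) (.cons (.rf (nat_lit 998) (nat_lit 493823402543469922336)) .nil))),
 (.br (nat_lit 11) (nat_lit 1) (.cons (.ev (nat_lit 20520717925270103693845919170562) (nat_lit 3)) .nil)),
 (.br (nat_lit 7) (nat_lit 0) (.cons (.rf (nat_lit 999) (nat_lit 493858305440582043680)) (.cons (.br (nat_lit 9) (nat_lit 1) (.cons (.br (nat_lit 10) (nat_lit 1) (.cons (.br (nat_lit 11) (nat_lit 1) (.cons (.ev (nat_lit 20361637794629766119286041083908) (nat_lit 3)) .nil)) .nil)) (.cons (.br (nat_lit 4) (nat_lit 0) (.cons (.rf (nat_lit 1000) (nat_lit 493858305440582043680)) (.cons (.rf (nat_lit 1000) (nat_lit 493823402543469922336)) .nil))) .nil))) .nil))),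
 (.br (nat_lit 10) (nat_lit 1) (.cons (.ev (nat_lit 79229371440083953322247061504) (nat_lit 1)) (.cons (.br (nat_lit 4) (nat_lit 0) (.cons (.rf (nat_lit 319) (nat_lit 12740462281692225)) (.cons (.br (nat_lit 9) (nat_lit 1) (.cons (.br (nat_lit 7) (nat_lit 0) (.cons (.ev (nat_lit 20282720302309677866514795987201) (nat_lit 1)) .nil)) .nil)) .nil))) (.cons (.ev (nat_lit 79229371440083953322247127296) (nat_lit 1)) .nil)))),
 (.br (nat_lit 5) (nat_lit 1) (.cons (.br (nat_lit 7) (nat_lit 0) (.cons (.rf (nat_lit 999) (nat_lit 493858305440582043680)) (.cons (.rf (nat_lit 1001) (nat_lit 493858305440582043680)) (.cons (.rf (nat_lit 1001) (nat_lit 493823402543469922336)) .nil)))) (.cons (.rf (nat_lit 742) (nat_lit 7621117088)) (.cons (.br (nat_lit 12) (nat_lit 0) (.cons (.kr (nat_lit 4722366482869645213696) (nat_lit 79228162514264337593543950336) (nat_lit 9) (nat_lit 0)) (.cons (.rf (nat_lit 1002) (nat_lit 493858305440582043680)) (.cons (.rf (nat_lit 1002) (nat_lit 493823402543469922336))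 .nil)))) .nil)))),
 (.br (nat_lit 11) (nat_lit 1) (.cons (.ev (nat_lit 20679169386261586235187550749190) (nat_lit 3)) .nil)),
 (.br (nat_lit 7) (nat_lit 0) (.cons (.br (nat_lit 4) (nat_lit 0) (.cons (.rf (nat_lit 1004) (nat_lit 493858305440582043680)) (.cons (.rf (nat_lit 1004) (nat_lit 493823402543469922336)) .nil))) .nil)),
 (.br (nat_lit 5) (nat_lit 1) (.cons (.rf (nat_lit 1003) (nat_lit 493858305440582043680)) (.cons (.rf (nat_lit 1003) (nat_lit 493858305337505973312)) (.cons (.br (nat_lit 7) (nat_lit 0) (.cons (.rf (nat_lit 1005) (nat_lit 493858305440582043680)) (.cons (.rf (nat_lit 1005) (nat_lit 493823402543469922336)) .nil))) .nil))))]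

theorem c26 : chkAll C T R L26 (nat_lit 969) = true := by decide +kernel

theorem l26 : (nat_lit 969) + L26.length = (nat_lit 1007) := by decide +kernel

/-- part of the certificates -/
def L27 : List Prf := [(.br (nat_lit 5) (nat_lit 1) (.cons (.rf (nat_lit 1003) (nat_lit 493858305440582043680)) (.cons (.rf (nat_lit 1006) (nat_lit 493858305440582043680)) (.cons (.rf (nat_lit 1003) (nat_lit 493858305337505973312)) (.cons (.br (nat_lit 5) (nat_lit 1) (.cons (.rf (nat_lit 1003) (nat_lit 493858305440582043680)) (.cons (.rf (nat_lit 1006) (nat_lit 493858305440582043680)) (.cons (.rf (nat_lit 1003) (nat_lit 493858305337505973312)) .nil)))) .nil))))),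
 (.br (nat_lit 5) (nat_lit 1) (.cons (.rf (nat_lit 1003) (nat_lit 493858305440582043680)) (.cons (.rf (nat_lit 1003) (nat_lit 493858305337505973312)) (.cons (.br (nat_lit 9) (nat_lit 1) (.cons (.rf (nat_lit 1007) (nat_lit 493858305440582043680)) (.cons (.rf (nat_lit 1007) (nat_lit 493858305337505973312)) (.cons (.kr (nat_lit 4722366482869645213696) (nat_lit 79228162514264337593543950336) (nat_lit 9) (nat_lit 0)) .nil)))) .nil)))),
 (.br (nat_lit 13) (nat_lit 0) (.cons (.rf (nat_lit 996) (nat_lit 493858305440582043680)) (.cons (.br (nat_lit 5) (nat_lit 1) (.cons (.rf (nat_lit 1003) (nat_lit 493858305440582043680)) (.cons (.rf (nat_lit 1008) (nat_lit 493858305440582043680)) (.cons (.rf (nat_lit 1003) (nat_lit 493858305337505973312)) (.cons (.br (nat_lit 5) (nat_lit 1) (.cons (.rf (nat_lit 1003) (nat_lit 493858305440582043680)) (.cons (.rf (nat_lit 1008) (nat_lit 493858305440582043680)) (.cons (.rf (nat_lit 1003) (nat_lit 493858305337505973312)) .nil)))) .nil))))) .nil))),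
 (.br (nat_lit 13) (nat_lit 0) (.cons (.rf (nat_lit 996) (nat_lit 493858305440582043680)) (.cons (.rf (nat_lit 1009) (nat_lit 493858305440582043680)) (.cons (.rf (nat_lit 1009) (nat_lit 493823402543469922336)) .nil)))),
 (.br (nat_lit 13) (nat_lit 0) (.cons (.rf (nat_lit 996) (nat_lit 493858305440582043680)) (.cons (.rf (nat_lit 1010) (nat_lit 493858305440582043680)) (.cons (.br (nat_lit 13) (nat_lit 0) (.cons (.rf (nat_lit 996) (nat_lit 493858305440582043680)) (.cons (.rf (nat_lit 1010) (nat_lit 493858305440582043680)) .nil))) .nil)))),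
 (.br (nat_lit 8) (nat_lit 0) (.cons (.rf (nat_lit 910) (nat_lit 325702574508064)) (.cons (.rf (nat_lit 954) (nat_lit 325702574508064)) (.cons (.br (nat_lit 8) (nat_lit 0) (.cons (.rf (nat_lit 910) (nat_lit 325702574508064)) (.cons (.rf (nat_lit 954) (nat_lit 325702574508064)) (.cons (.br (nat_lit 3) (nat_lit 1) (.cons (.rf (nat_lit 981) (nat_lit 407901468851537952)) (.cons (.rf (nat_lit 742) (nat_lit 8764064864)) (.cons (.rf (nat_lit 981) (nat_lit 407901365775467584)) (.cons (.br (nat_lit 12) (nat_lit 1) (.cons (.br (nat_lit 13) (nat_lit 0) (.cons (.rf (nat_lit 996) (nat_lit 493858305440582043680)) (.cons (.rf (nat_lit 1010) (nat_lit 493858305440582043680)) (.cons (.rf (nat_lit 1011) (nat_lit 493858305440582043680)) (.cons (.rf (nat_lit 1011) (nat_lit 493823402543469922336)) .nil))))) .nil)) .nil))))) .nil)))) .nil)))),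
 (.br (nat_lit 5) (nat_lit 1) (.cons (.rf (nat_lit 742) (nat_lit 14071956640)) .nil)),
 (.br (nat_lit 5) (nat_lit 1) (.cons (.rf (nat_lit 1013) (nat_lit 493858305440582043680)) (.cons (.rf (nat_lit 1013) (nat_lit 458117738797769787424)) .nil))),
 (.br (nat_lit 3) (nat_lit 1) (.cons (.rf (nat_lit 1014) (nat_lit 493858305440582043680)) (.cons (.rf (nat_lit 742) (nat_lit 14139065440)) .nil))),
 (.br (nat_lit 12) (nat_lit 1) (.cons (.br (nat_lit 3) (nat_lit 1) (.cons (.rf (nat_lit 1014) (nat_lit 493858305440582043680)) (.cons (.rf (nat_lit 1015) (nat_lit 493858305440582043680)) (.cons (.rf (nat_lit 1015) (nat_lit 458117738797769787424)) .nil)))) .nil)),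
 (.br (nat_lit 11) (nat_lit 1) (.cons (.ev (nat_lit 1208925891953702484377856) (nat_lit 1)) (.cons (.rf (nat_lit 1016) (nat_lit 14242959524133701664)) .nil))),
 (.br (nat_lit 5) (nat_lit 1) (.cons (.br (nat_lit 9) (nat_lit 1) (.cons (.rf (nat_lit 319) (nat_lit 12747055152958498)) (.cons (.br (nat_lit 12) (nat_lit 0) (.cons (.br (nat_lit 11) (nat_lit 1) (.cons (.ev (nat_lit 20679174222001615751106816770050) (nat_lit 3)) .nil)) .nil)) .nil))) (.cons (.rf (nat_lit 742) (nat_lit 14071956640)) .nil))),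
 (.br (nat_lit 13) (nat_lit 0) (.cons (.rf (nat_lit 1018) (nat_lit 493858305440582043680)) (.cons (.br (nat_lit 13) (nat_lit 0) (.cons (.rf (nat_lit 1018) (nat_lit 493858305440582043680)) .nil)) .nil))),
 (.br (nat_lit 13) (nat_lit 0) (.cons (.rf (nat_lit 1018) (nat_lit 493858305440582043680)) (.cons (.rf (nat_lit 1019) (nat_lit 493858305440582043680)) (.cons (.br (nat_lit 13) (nat_lit 0) (.cons (.rf (nat_lit 1018) (nat_lit 493858305440582043680)) (.cons (.rf (nat_lit 1019) (nat_lit 493858305440582043680)) .nil))) .nil)))),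
 (.br (nat_lit 5) (nat_lit 1) (.cons (.rf (nat_lit 1020) (nat_lit 493858305440515000352)) (.cons (.rf (nat_lit 742) (nat_lit 14071956640)) .nil))),
 (.br (nat_lit 5) (nat_lit 1) (.cons (.br (nat_lit 3) (nat_lit 1) (.cons (.rf (nat_lit 1021) (nat_lit 493858305440515000352)) (.cons (.br (nat_lit 9) (nat_lit 1) (.cons (.br (nat_lit 12) (nat_lit 0) (.cons (.br (nat_lit 11) (nat_lit 1) (.cons (.ev (nat_lit 20679169386298336171088257876998) (nat_lit 3)) .nil)) .nil)) (.cons (.rf (nat_lit 24) (nat_lit 12746782619699363)) .nil))) .nil))) (.cons (.rf (nat_lit 742) (nat_lit 14071956640)) .nil))),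
 (.br (nat_lit 3) (nat_lit 1) (.cons (.rf (nat_lit 1021) (nat_lit 493858305440515000352)) (.cons (.br (nat_lit 5) (nat_lit 1) (.cons (.rf (nat_lit 1022) (nat_lit 493858305440515000352)) (.cons (.rf (nat_lit 1021) (nat_lit 493858305440582043680)) (.cons (.rf (nat_lit 1022) (nat_lit 493858305440582043680)) .nil)))) .nil))),
 (.br (nat_lit 3) (nat_lit 1) (.cons (.rf (nat_lit 1023) (nat_lit 493858305440582043680)) (.cons (.rf (nat_lit 1021) (nat_lit 493858305440515000352)) (.cons (.br (nat_lit 3) (nat_lit 1) (.cons (.rf (nat_lit 1023) (nat_lit 493858305440582043680)) (.cons (.rf (nat_lit 742) (nat_lit 14139065440)) .nil))) .nil)))),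
 (.br (nat_lit 7) (nat_lit 0) (.cons (.br (nat_lit 5) (nat_lit 1) (.cons (.br (nat_lit 9) (nat_lit 1) (.cons (.ev (nat_lit 20679169405261300844070298714630) (nat_lit 3)) .nil)) (.cons (.br (nat_lit 9) (nat_lit 1) (.cons (.ev (nat_lit 20679169386298336171088257483270) (nat_lit 3)) .nil)) .nil))) (.cons (.br (nat_lit 5) (nat_lit 1) (.cons (.ev (nat_lit 158767028408974658222627684352) (nat_lit 2)) (.cons (.ev (nat_lit 40565129910720824997224080670720) (nat_lit 2)) .nil))) .nil))),
 (.br (nat_lit 3) (nat_lit 1) (.cons (.rf (nat_lit 1025) (nat_lit 493858305440582043680)) (.cons (.br (nat_lit 4) (nat_lit 0) (.cons (.br (nat_lit 5) (nat_lit 1) (.cons (.br (nat_lit 9) (nat_lit 1) (.cons (.ev (nat_lit 20679169405261300844070298453510) (nat_lit 3)) .nil)) (.cons (.rf (nat_lit 1025) (nat_lit 493858305440515000352)) .nil))) (.cons (.br (nat_lit 5) (nat_lit 1) (.cons (.ev (nat_lit 158767028408974658222627488512) (nat_lit 2)) (.cons (.ev (nat_lit 40565129910720824997224080474880) (nat_lit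 2)) .nil))) .nil))) (.cons (.rf (nat_lit 742) (nat_lit 14139065440)) .nil)))),
 (.br (nat_lit 11) (nat_lit 1) (.cons (.rf (nat_lit 1024) (nat_lit 493858305440582043680)) (.cons (.br (nat_lit 13) (nat_lit 0) (.cons (.rf (nat_lit 1026) (nat_lit 493858305440582043680)) (.cons (.rf (nat_lit 1026) (nat_lit 493858305440515000352)) (.cons (.br (nat_lit 13) (nat_lit 0) (.cons (.rf (nat_lit 1026) (nat_lit 493858305440582043680)) (.cons (.rf (nat_lit 1026) (nat_lit 493858305440515000352)) .nil))) .nil)))) .nil))),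
 (.br (nat_lit 11) (nat_lit 1) (.cons (.rf (nat_lit 1024) (nat_lit 493858305440582043680)) (.cons (.rf (nat_lit 1027) (nat_lit 493858305440582043680)) (.cons (.br (nat_lit 11) (nat_lit 1) (.cons (.rf (nat_lit 1024) (nat_lit 493858305440582043680)) (.cons (.rf (nat_lit 1027) (nat_lit 493858305440582043680)) .nil))) .nil)))),
 (.br (nat_lit 11) (nat_lit 1) (.cons (.rf (nat_lit 1024) (nat_lit 493858305440582043680)) (.cons (.rf (nat_lit 1028) (nat_lit 493858305440582043680)) (.cons (.br (nat_lit 11) (nat_lit 1) (.cons (.rf (nat_lit 1024) (nat_lit 493858305440582043680)) (.cons (.rf (nat_lit 1028) (nat_lit 493858305440582043680)) .nil))) .nil)))),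
 (.br (nat_lit 10) (nat_lit 1) (.cons (.br (nat_lit 11) (nat_lit 1) (.cons (.rf (nat_lit 1017) (nat_lit 407901468851537952)) (.cons (.rf (nat_lit 1017) (nat_lit 407901365775467584)) (.cons (.br (nat_lit 11) (nat_lit 1) (.cons (.rf (nat_lit 1017) (nat_lit 407901468851537952)) (.cons (.rf (nat_lit 1017) (nat_lit 407901365775467584)) (.cons (.br (nat_lit 11) (nat_lit 1) (.cons (.rf (nat_lit 1017) (nat_lit 407901468851537952)) (.cons (.rf (nat_lit 1017) (nat_lit 407901365775467584)) .nil))) .nil)))) .nil)))) (.cons (.br (nat_lit 12) (nat_lit 1) (.cons (.br (nat_lit 11) (nat_lit 1) (.cons (.rf (nat_lit 1024) (nat_lit 493858305440582043680)) (.cons (.rf (nat_lit 1028) (nat_lit 493858305440582043680)) (.cons (.rf (nat_lit 1029) (nat_lit 493858305440582043680)) (.cons (.br (nat_lit 11) (nat_lit 1) (.cons (.rf (nat_lit 1024) (nat_lit 493858305440582043680)) (.cons (.rf (nat_lit 1028) (nat_lit 493858305440582043680)) (.cons (.rf (nat_lit 1029) (nat_lit 493858305440582043680)) .nil))))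 .nil))))) .nil)) .nil))),
 (.br (nat_lit 5) (nat_lit 1) (.cons (.ev (nat_lit 20361947251194202851782757974016) (nat_lit 1)) (.cons (.ev (nat_lit 20361947251194202851782758039808) (nat_lit 1)) .nil))),
 (.br (nat_lit 12) (nat_lit 0) (.cons (.rf (nat_lit 742) (nat_lit 14139065440)) (.cons (.br (nat_lit 13) (nat_lit 0) (.cons (.rf (nat_lit 742) (nat_lit 14071956640)) (.cons (.br (nat_lit 6) (nat_lit 0) (.cons (.ev (nat_lit 4722366764344638701569) (nat_lit 1)) (.cons (.ev (nat_lit 20520095300120283899080523055875) (nat_lit 2)) (.cons (.br (nat_lit 3) (nat_lit 1) (.cons (.rf (nat_lit 1031) (nat_lit 493858305440582043680)) (.cons (.rf (nat_lit 1031) (nat_lit 493858305337505973312)) .nil))) .nil)))) .nil))) .nil))),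
 (.br (nat_lit 13) (nat_lit 0) (.cons (.rf (nat_lit 742) (nat_lit 14071956640)) (.cons (.rf (nat_lit 1032) (nat_lit 493858305440582043680)) (.cons (.br (nat_lit 13) (nat_lit 0) (.cons (.rf (nat_lit 742) (nat_lit 14071956640)) (.cons (.rf (nat_lit 1032) (nat_lit 493858305440582043680)) .nil))) .nil)))),
 (.br (nat_lit 12) (nat_lit 0) (.cons (.rf (nat_lit 742) (nat_lit 14139065440)) (.cons (.rf (nat_lit 1033) (nat_lit 493858305440582043680)) (.cons (.br (nat_lit 13) (nat_lit 0) (.cons (.br (nat_lit 13) (nat_lit 0) (.cons (.ev (nat_lit 20361638979814120859039615222016) (nat_lit 1)) .nil)) (.cons (.br (nat_lit 13) (nat_lit 0) (.cons (.ev (nat_lit 20361638979814120859039615222016) (nat_lit 1)) .nil)) .nil))) .nil)))),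
 (.br (nat_lit 12) (nat_lit 0) (.cons (.rf (nat_lit 742) (nat_lit 14139065440)) (.cons (.rf (nat_lit 1033) (nat_lit 493858305440582043680)) (.cons (.rf (nat_lit 1034) (nat_lit 493858305440582043680)) (.cons (.br (nat_lit 12) (nat_lit 0) (.cons (.rf (nat_lit 742) (nat_lit 14139065440)) (.cons (.rf (nat_lit 1033) (nat_lit 493858305440582043680)) (.cons (.rf (nat_lit 1034) (nat_lit 493858305440582043680)) .nil)))) .nil))))),
 (.br (nat_lit 13) (nat_lit 0) (.cons (.rf (nat_lit 1035) (nat_lit 493858305440582043680)) (.cons (.rf (nat_lit 1035) (nat_lit 493858305440515000352)) (.cons (.br (nat_lit 13) (nat_lit 0) (.cons (.rf (nat_lit 1035) (nat_lit 493858305440582043680)) (.cons (.rf (nat_lit 1035) (nat_lit 493858305440515000352)) .nil))) .nil)))),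
 (.br (nat_lit 10) (nat_lit 1) (.cons (.rf (nat_lit 1030) (nat_lit 407901468851537952)) (.cons (.br (nat_lit 12) (nat_lit 1) (.cons (.br (nat_lit 13) (nat_lit 0) (.cons (.rf (nat_lit 1035) (nat_lit 493858305440582043680)) (.cons (.rf (nat_lit 1035) (nat_lit 493858305440515000352)) (.cons (.rf (nat_lit 1036) (nat_lit 493858305440582043680)) (.cons (.br (nat_lit 13) (nat_lit 0) (.cons (.rf (nat_lit 1035) (nat_lit 493858305440582043680)) (.cons (.rf (nat_lit 1035) (nat_lit 493858305440515000352)) (.cons (.rf (nat_lit 1036) (nat_lit 493858305440582043680)) .nil)))) .nil))))) .nil)) .nil))),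
 (.br (nat_lit 9) (nat_lit 1) (.cons (.ev (nat_lit 20361637794629766121485031048196) (nat_lit 3)) .nil)),
 (.br (nat_lit 11) (nat_lit 1) (.cons (.br (nat_lit 5) (nat_lit 1) (.cons (.rf (nat_lit 1038) (nat_lit 493858305440582043680)) (.cons (.rf (nat_lit 1038) (nat_lit 458117738797769787424)) .nil))) .nil)),
 (.br (nat_lit 9) (nat_lit 1) (.cons (.ev (nat_lit 20361637794629766121485030654468) (nat_lit 3)) .nil)),
 (.br (nat_lit 11) (nat_lit 1) (.cons (.br (nat_lit 5) (nat_lit 1) (.cons (.rf (nat_lit 1040) (nat_lit 493858305440582043680)) (.cons (.rf (nat_lit 1040) (nat_lit 458117738797769787424)) .nil))) .nil)),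
 (.br (nat_lit 4) (nat_lit 0) (.cons (.br (nat_lit 7) (nat_lit 0) (.cons (.ev (nat_lit 1099528405249) (nat_lit 1)) (.cons (.ev (nat_lit 4722366764344638701569) (nat_lit 1)) (.cons (.br (nat_lit 11) (nat_lit 1) (.cons (.rf (nat_lit 1039) (nat_lit 493858305440582043680)) (.cons (.rf (nat_lit 1039) (nat_lit 458117738797769787424)) .nil))) .nil)))) (.cons (.ev (nat_lit 4722366764344638767361) (nat_lit 1)) (.cons (.br (nat_lit 7) (nat_lit 0) (.cons (.br (nat_lit 11) (nat_lit 1) (.cons (.rf (nat_lit 1041) (nat_lit 493858305440582043680)) (.cons (.rf (nat_lit 1041) (nat_lit 458117738797769787424)) .nil))) (.cons (.ev (nat_lit 4740885284541704437761) (nat_lit 1)) (.cons (.rf (nat_lit 1037) (nat_lit 372998571739416608)) .nil)))) .nil))))]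

theorem c27 : chkAll C T R L27 (nat_lit 1007) = true := by decide +kernel

theorem l27 : (nat_lit 1007) + L27.length = (nat_lit 1043) := by decide +kernel

/-- part of the certificates -/
def L28 : List Prf := [(.br (nat_lit 11) (nat_lit 1) (.cons (.rf (nat_lit 1030) (nat_lit 372998571739416608)) (.cons (.rf (nat_lit 1030) (nat_lit 372998468663346240)) (.cons (.br (nat_lit 11) (nat_lit 1) (.cons (.rf (nat_lit 1030) (nat_lit 372998571739416608)) (.cons (.rf (nat_lit 1030) (nat_lit 372998468663346240)) .nil))) .nil)))),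
 (.br (nat_lit 12) (nat_lit 0) (.cons (.rf (nat_lit 742) (nat_lit 14071956640)) (.cons (.br (nat_lit 6) (nat_lit 0) (.cons (.kr (nat_lit 4722366482869645279232) (nat_lit 281474993487872) (nat_lit 2) (nat_lit 0)) (.cons (.rf (nat_lit 1043) (nat_lit 14242959524133701664)) .nil))) (.cons (.br (nat_lit 13) (nat_lit 0) (.cons (.br (nat_lit 6) (nat_lit 0) (.cons (.ev (nat_lit 4722366765444133552129) (nat_lit 1)) (.cons (.rf (nat_lit 1043) (nat_lit 15395881028673505312)) .nil))) (.cons (.br (nat_lit 4) (nat_lit 0) (.cons (.br (nat_lit 6) (nat_lit 0) (.cons (.br (nat_lit 7) (nat_lit 0) (.cons (.ev (nat_lit 20362259163500612847218626790912) (nat_lit 3)) .nil)) (.cons (.br (nat_lit 7) (nat_lit 0) (.cons (.zr (nat_lit 396140840905520585185591035392) (nat_lit 929663992321254278962413571) (nat_lit 5) (nat_lit 3)) .nil)) .nil))) (.cons (.br (nat_lit 7) (nat_lit 0) (.cons (.br (nat_lit 6) (nat_lit 0) (.cons (.zr (nat_lit 618974742009173019979743234) (nat_lit 1208962857219064198070528)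 (nat_lit 5) (nat_lit 1)) .nil)) (.cons (.ev (nat_lit 310698676454186641254318081) (nat_lit 1)) .nil))) (.cons (.br (nat_lit 7) (nat_lit 0) (.cons (.br (nat_lit 6) (nat_lit 0) (.cons (.ev (nat_lit 20362259163500612847218626790912) (nat_lit 3)) .nil)) (.cons (.ev (nat_lit 310698676454186641254318081) (nat_lit 1)) .nil))) .nil)))) .nil))) .nil)))),
 (.br (nat_lit 13) (nat_lit 0) (.cons (.rf (nat_lit 1044) (nat_lit 493858305440582043680)) (.cons (.br (nat_lit 4) (nat_lit 0) (.cons (.br (nat_lit 7) (nat_lit 0) (.cons (.ev (nat_lit 40564820420988636608534780510979) (nat_lit 2)) (.cons (.br (nat_lit 6) (nat_lit 0) (.cons (.br (nat_lit 11) (nat_lit 1) (.cons (.ev (nat_lit 20361637794629766119286041216516) (nat_lit 3)) .nil)) (.cons (.rf (nat_lit 1030) (nat_lit 372998468663346240)) .nil))) .nil))) (.cons (.br (nat_lit 6) (nat_lit 0) (.cons (.br (nat_lit 5) (nat_lit 1) (.cons (.rf (nat_lit 1042) (nat_lit 493858305440515000352)) (.cons (.ev (nat_lit 1099528470529) (nat_lit 1)) .nil)))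 (.cons (.rf (nat_lit 1030) (nat_lit 372998571739416608)) .nil))) .nil))) .nil))),
 (.br (nat_lit 13) (nat_lit 0) (.cons (.rf (nat_lit 1044) (nat_lit 493858305440582043680)) (.cons (.rf (nat_lit 1045) (nat_lit 493858305440582043680)) (.cons (.br (nat_lit 13) (nat_lit 0) (.cons (.rf (nat_lit 1044) (nat_lit 493858305440582043680)) (.cons (.rf (nat_lit 1045) (nat_lit 493858305440582043680)) .nil))) .nil)))),
 (.br (nat_lit 3) (nat_lit 1) (.cons (.rf (nat_lit 742) (nat_lit 7688225888)) (.cons (.rf (nat_lit 1042) (nat_lit 493858305440582043680)) (.cons (.rf (nat_lit 1046) (nat_lit 493858305440582043680)) (.cons (.rf (nat_lit 1046) (nat_lit 458117738797769787424)) .nil))))),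
 (.br (nat_lit 11) (nat_lit 1) (.cons (.rf (nat_lit 1037) (nat_lit 372998571739416608)) (.cons (.rf (nat_lit 1030) (nat_lit 372998468663346240)) (.cons (.ev (nat_lit 310698676454186641254252801) (nat_lit 1)) .nil)))),
 (.br (nat_lit 7) (nat_lit 0) (.cons (.rf (nat_lit 1047) (nat_lit 493858305440582043680)) (.cons (.rf (nat_lit 1047) (nat_lit 493858305440515000352)) (.cons (.br (nat_lit 11) (nat_lit 1) (.cons (.rf (nat_lit 1037) (nat_lit 372998571739416608)) (.cons (.rf (nat_lit 1030) (nat_lit 372998468663346240)) (.cons (.rf (nat_lit 1048) (nat_lit 493858305440582043680)) (.cons (.rf (nat_lit 1048) (nat_lit 458117738797769787424)) .nil))))) .nil)))),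
 (.br (nat_lit 10) (nat_lit 1) (.cons (.rf (nat_lit 1030) (nat_lit 407901468851537952)) (.cons (.rf (nat_lit 1037) (nat_lit 407901468851537952)) (.cons (.br (nat_lit 10) (nat_lit 1) (.cons (.rf (nat_lit 1030) (nat_lit 407901468851537952)) (.cons (.rf (nat_lit 1037) (nat_lit 407901468851537952)) (.cons (.br (nat_lit 12) (nat_lit 1) (.cons (.br (nat_lit 7) (nat_lit 0) (.cons (.rf (nat_lit 1047) (nat_lit 493858305440582043680)) (.cons (.rf (nat_lit 1047) (nat_lit 493858305440515000352)) (.cons (.rf (nat_lit 1049) (nat_lit 493858305440582043680)) (.cons (.br (nat_lit 7) (nat_lit 0) (.cons (.rf (nat_lit 1047) (nat_lit 493858305440582043680)) (.cons (.rf (nat_lit 1047) (nat_lit 493858305440515000352)) (.cons (.rf (nat_lit 1049) (nat_lit 493858305440582043680)) .nil)))) .nil))))) .nil)) .nil)))) .nil)))),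
 (.br (nat_lit 11) (nat_lit 1) (.cons (.rf (nat_lit 1050) (nat_lit 372998571739416608)) (.cons (.rf (nat_lit 1050) (nat_lit 372998468663346240)) (.cons (.br (nat_lit 11) (nat_lit 1) (.cons (.rf (nat_lit 1050) (nat_lit 372998571739416608)) (.cons (.rf (nat_lit 1050) (nat_lit 372998468663346240)) (.cons (.br (nat_lit 11) (nat_lit 1) (.cons (.rf (nat_lit 1050) (nat_lit 372998571739416608)) (.cons (.rf (nat_lit 1050) (nat_lit 372998468663346240)) .nil))) .nil)))) .nil)))),
 (.br (nat_lit 8) (nat_lit 0) (.cons (.rf (nat_lit 1012) (nat_lit 325702574508064)) (.cons (.rf (nat_lit 1012) (nat_lit 325702507464736)) (.cons (.br (nat_lit 8) (nat_lit 0) (.cons (.rf (nat_lit 1012) (nat_lit 325702574508064)) (.cons (.rf (nat_lit 1012) (nat_lit 325702507464736)) (.cons (.br (nat_lit 10) (nat_lit 1) (.cons (.rf (nat_lit 1050) (nat_lit 407901468851537952)) (.cons (.rf (nat_lit 1051) (nat_lit 407901468851537952)) (.cons (.rf (nat_lit 1050) (nat_lit 407901365775467584)) (.cons (.br (nat_lit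 10) (nat_lit 1) (.cons (.rf (nat_lit 1050) (nat_lit 407901468851537952)) (.cons (.rf (nat_lit 1051) (nat_lit 407901468851537952)) (.cons (.rf (nat_lit 1050) (nat_lit 407901365775467584)) (.cons (.br (nat_lit 10) (nat_lit 1) (.cons (.rf (nat_lit 1050) (nat_lit 407901468851537952)) (.cons (.rf (nat_lit 1051) (nat_lit 407901468851537952)) (.cons (.rf (nat_lit 1050) (nat_lit 407901365775467584)) .nil)))) .nil))))) .nil))))) .nil)))) .nil)))),
 (.br (nat_lit 7) (nat_lit 0) (.cons (.kr (nat_lit 72057594054705152) (nat_lit 282574488338432) (nat_lit 3) (nat_lit 0)) (.cons (.rf (nat_lit 977) (nat_lit 11580302453572616)) .nil))),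
 (.br (nat_lit 6) (nat_lit 0) (.cons (.ev (nat_lit 9444805307007378850306) (nat_lit 2)) (.cons (.br (nat_lit 10) (nat_lit 1) (.cons (.rf (nat_lit 1053) (nat_lit 362021926341697)) (.cons (.br (nat_lit 8) (nat_lit 0) (.cons (.br (nat_lit 11) (nat_lit 0) (.cons (.rf (nat_lit 977) (nat_lit 13868524698306601)) .nil)) (.cons (.rf (nat_lit 1053) (nat_lit 362021926341697)) (.cons (.rf (nat_lit 977) (nat_lit 13868421619091497)) .nil)))) .nil))) .nil))),
 (.br (nat_lit 3) (nat_lit 1) (.cons (.ev (nat_lit 9444805307007378850306) (nat_lit 2)) (.cons (.rf (nat_lit 112) (nat_lit 10144916313185)) (.cons (.br (nat_lit 10) (nat_lit 1) (.cons (.rf (nat_lit 123) (nat_lit 12672122969269345)) .nil)) .nil)))),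
 (.br (nat_lit 9) (nat_lit 1) (.cons (.br (nat_lit 10) (nat_lit 0) (.cons (.br (nat_lit 11) (nat_lit 1) (.cons (.kr (nat_lit 79228162514336395187598655488) (nat_lit 1208925819897203663044608) (nat_lit 3) (nat_lit 0)) .nil)) .nil)) .nil)),
 (.br (nat_lit 7) (nat_lit 0) (.cons (.br (nat_lit 9) (nat_lit 1) (.cons (.rf (nat_lit 1056) (nat_lit 14242959524133701664)) (.cons (.rf (nat_lit 1056) (nat_lit 11939368242858102785)) .nil))) .nil)),
 (.br (nat_lit 10) (nat_lit 1) (.cons (.br (nat_lit 10) (nat_lit 1) (.cons (.br (nat_lit 10) (nat_lit 1) .nil) .nil)) .nil)),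
 (.br (nat_lit 13) (nat_lit 1) (.cons (.br (nat_lit 5) (nat_lit 1) (.cons (.br (nat_lit 3) (nat_lit 1) (.cons (.kr (nat_lit 309485028268089146729299968) (nat_lit 79228162514336676662558588928) (nat_lit 4) (nat_lit 0)) .nil)) (.cons (.ev (nat_lit 20282410812595936783753942204673) (nat_lit 1)) .nil))) .nil)),
 (.br (nat_lit 10) (nat_lit 1) (.cons (.br (nat_lit 11) (nat_lit 1) (.cons (.br (nat_lit 8) (nat_lit 0) (.cons (.rf (nat_lit 911) (nat_lit 357588383565859)) (.cons (.br (nat_lit 6) (nat_lit 0) (.cons (.br (nat_lit 11) (nat_lit 0) (.cons (.ev (nat_lit 1213666705181745367482368) (nat_lit 1)) (.cons (.rf (nat_lit 884) (nat_lit 469777321724001)) .nil))) (.cons (.kr (nat_lit 36893489255520665856) (nat_lit 9444805304808305197056) (nat_lit 1) (nat_lit 0)) (.cons (.rf (nat_lit 1058) (nat_lit 14998720715295809)) .nil)))) (.cons (.rf (nat_lit 911) (nat_lit 357588377274409)) (.cons (.br (nat_lit 6) (nat_lit 0) (.cons (.rf (nat_lit 4) (nat_lit 14994289379648609)) (.cons (.rf (nat_lit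 118) (nat_lit 14998584348083269)) (.cons (.rf (nat_lit 4) (nat_lit 14994289379642657)) (.cons (.br (nat_lit 9) (nat_lit 1) (.cons (.ev (nat_lit 1213666705180645839143168) (nat_lit 1)) (.cons (.br (nat_lit 13) (nat_lit 1) (.cons (.rf (nat_lit 1059) (nat_lit 493858305440582043680)) (.cons (.br (nat_lit 13) (nat_lit 1) (.cons (.rf (nat_lit 1059) (nat_lit 493858305440582043680)) .nil)) .nil))) .nil))) .nil))))) .nil))))) .nil)) .nil)),
 (.br (nat_lit 10) (nat_lit 0) (.cons (.rf (nat_lit 866) (nat_lit 11580234948247586)) (.cons (.rf (nat_lit 4) (nat_lit 12706173435349248)) .nil))),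
 (.br (nat_lit 13) (nat_lit 1) (.cons (.ev (nat_lit 20282410812596008840244173472001) (nat_lit 1)) .nil)),
 (.br (nat_lit 6) (nat_lit 0) (.cons (.rf (nat_lit 912) (nat_lit 12739190971372641)) (.cons (.rf (nat_lit 1061) (nat_lit 12746920901610561)) (.cons (.br (nat_lit 8) (nat_lit 0) (.cons (.rf (nat_lit 977) (nat_lit 14998652062925891)) (.cons (.rf (nat_lit 24) (nat_lit 14989855835818275)) (.cons (.br (nat_lit 13) (nat_lit 1) (.cons (.rf (nat_lit 1062) (nat_lit 493858305440582043680)) (.cons (.rf (nat_lit 1062) (nat_lit 492741412732994160672)) .nil))) .nil)))) .nil)))),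
 (.br (nat_lit 5) (nat_lit 0) (.cons (.rf (nat_lit 1061) (nat_lit 11578104573173792)) (.cons (.rf (nat_lit 977) (nat_lit 12703935827640360)) .nil))),
 (.br (nat_lit 9) (nat_lit 1) (.cons (.ev (nat_lit 20362257959278496516015917236736) (nat_lit 2)) .nil)),
 (.br (nat_lit 13) (nat_lit 1) (.cons (.br (nat_lit 3) (nat_lit 1) (.cons (.rf (nat_lit 1065) (nat_lit 493858305440582043680)) (.cons (.rf (nat_lit 1065) (nat_lit 492741412732994160672)) .nil))) .nil)),
 (.br (nat_lit 8) (nat_lit 0) (.cons (.rf (nat_lit 1064) (nat_lit 12740323831850049)) (.cons (.rf (nat_lit 1064) (nat_lit 12746920901610561)) (.cons (.br (nat_lit 6) (nat_lit 0) (.cons (.rf (nat_lit 4) (nat_lit 14994289379648609)) (.cons (.rf (nat_lit 4) (nat_lit 14994289379642657)) (.cons (.br (nat_lit 13) (nat_lit 1) (.cons (.rf (nat_lit 1066) (nat_lit 493858305440582043680)) (.cons (.rf (nat_lit 1066) (nat_lit 492741412732994160672)) .nil))) .nil)))) .nil)))),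
 (.br (nat_lit 5) (nat_lit 1) (.cons (.ev (nat_lit 309489750706630705645879553) (nat_lit 1)) .nil)),
 (.br (nat_lit 13) (nat_lit 1) (.cons (.br (nat_lit 3) (nat_lit 1) (.cons (.rf (nat_lit 1068) (nat_lit 493858305440582043680)) (.cons (.rf (nat_lit 1068) (nat_lit 492741412732994160672)) .nil))) .nil)),
 (.br (nat_lit 6) (nat_lit 0) (.cons (.rf (nat_lit 1061) (nat_lit 12740323831850049)) (.cons (.rf (nat_lit 912) (nat_lit 12739190965081377)) (.cons (.br (nat_lit 8) (nat_lit 0) (.cons (.rf (nat_lit 24) (nat_lit 14989855835818275)) (.cons (.rf (nat_lit 977) (nat_lit 14992054993159241)) (.cons (.br (nat_lit 13) (nat_lit 1) (.cons (.rf (nat_lit 1069) (nat_lit 493858305440582043680)) (.cons (.rf (nat_lit 1069) (nat_lit 492741412732994160672)) .nil))) .nil)))) .nil)))),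
 (.br (nat_lit 10) (nat_lit 1) (.cons (.rf (nat_lit 1060) (nat_lit 11584701642934304)) (.cons (.br (nat_lit 10) (nat_lit 1) (.cons (.rf (nat_lit 1060) (nat_lit 11584701642934304)) (.cons (.br (nat_lit 11) (nat_lit 1) (.cons (.br (nat_lit 8) (nat_lit 0) (.cons (.rf (nat_lit 1063) (nat_lit 14242959524133701664)) (.cons (.rf (nat_lit 1067) (nat_lit 14242959524133701664)) (.cons (.rf (nat_lit 1070) (nat_lit 14242959524133701664)) (.cons (.br (nat_lit 8) (nat_lit 0) (.cons (.rf (nat_lit 1063) (nat_lit 14242959524133701664)) (.cons (.rf (nat_lit 1067) (nat_lit 14242959524133701664)) (.cons (.rf (nat_lit 1070) (nat_lit 14242959524133701664)) .nil)))) .nil))))) .nil)) .nil))) .nil))),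
 (.br (nat_lit 5) (nat_lit 0) (.cons (.br (nat_lit 7) (nat_lit 0) (.cons (.br (nat_lit 10) (nat_lit 0) (.cons (.br (nat_lit 11) (nat_lit 0) (.cons (.kr (nat_lit 1208925891672223229411328) (nat_lit 309485009821627643213119488) (nat_lit 3) (nat_lit 0)) .nil)) .nil)) .nil)) .nil)),
 (.br (nat_lit 11) (nat_lit 0) (.cons (.rf (nat_lit 1072) (nat_lit 407901468851537952)) (.cons (.br (nat_lit 11) (nat_lit 0) (.cons (.rf (nat_lit 1072) (nat_lit 407901468851537952)) .nil)) .nil))),
 (.br (nat_lit 4) (nat_lit 1) (.cons (.rf (nat_lit 24) (nat_lit 13836638825386048)) (.cons (.rf (nat_lit 1058) (nat_lit 13836501657946144)) (.cons (.rf (nat_lit 1073) (nat_lit 407901468851537952)) (.cons (.rf (nat_lit 1073) (nat_lit 372998571739416608)) .nil))))),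
 (.br (nat_lit 10) (nat_lit 0) (.cons (.rf (nat_lit 1073) (nat_lit 407901468851537952)) (.cons (.br (nat_lit 11) (nat_lit 0) (.cons (.rf (nat_lit 1073) (nat_lit 372998571739416608)) (.cons (.rf (nat_lit 1074) (nat_lit 14242959524133701664)) .nil))) (.cons (.rf (nat_lit 1074) (nat_lit 14208056627021580320)) .nil)))),
 (.br (nat_lit 13) (nat_lit 1) (.cons (.ev (nat_lit 20282410812595936783753942204673) (nat_lit 1)) .nil)),
 (.br (nat_lit 6) (nat_lit 0) (.cons (.rf (nat_lit 1075) (nat_lit 445092485129178177)) (.cons (.rf (nat_lit 1075) (nat_lit 445085888059417665)) (.cons (.br (nat_lit 8) (nat_lit 0) (.cons (.rf (nat_lit 118) (nat_lit 14998582265613474)) (.cons (.rf (nat_lit 118) (nat_lit 14991985195852962)) (.cons (.br (nat_lit 13) (nat_lit 1) (.cons (.rf (nat_lit 1076) (nat_lit 493858305440582043680)) (.cons (.rf (nat_lit 1076) (nat_lit 492741412732994160672)) .nil))) .nil)))) .nil)))),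
 (.br (nat_lit 10) (nat_lit 1) (.cons (.rf (nat_lit 1071) (nat_lit 11584701642934304)) (.cons (.br (nat_lit 10) (nat_lit 1) (.cons (.rf (nat_lit 1071) (nat_lit 11584701642934304)) (.cons (.br (nat_lit 11) (nat_lit 1) (.cons (.br (nat_lit 6) (nat_lit 0) (.cons (.rf (nat_lit 1075) (nat_lit 445092485129178177)) (.cons (.rf (nat_lit 1077) (nat_lit 14242959524133701664)) (.cons (.rf (nat_lit 1075) (nat_lit 445085888059417665)) (.cons (.br (nat_lit 6) (nat_lit 0) (.cons (.rf (nat_lit 1075) (nat_lit 445092485129178177)) (.cons (.rf (nat_lit 1077) (nat_lit 14242959524133701664)) (.cons (.rf (nat_lit 1075) (nat_lit 445085888059417665)) .nil)))) .nil))))) .nil)) .nil))) .nil))),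
 (.br (nat_lit 7) (nat_lit 0) (.cons (.rf (nat_lit 742) (nat_lit 7688225888)) (.cons (.br (nat_lit 6) (nat_lit 0) (.cons (.rf (nat_lit 1054) (nat_lit 325702574508064)) (.cons (.rf (nat_lit 1055) (nat_lit 325702574508064)) (.cons (.br (nat_lit 3) (nat_lit 1) (.cons (.rf (nat_lit 1054) (nat_lit 325702574508064)) (.cons (.rf (nat_lit 1055) (nat_lit 323402555622464)) (.cons (.br (nat_lit 6) (nat_lit 0) (.cons (.rf (nat_lit 1055) (nat_lit 325702574508064)) (.cons (.br (nat_lit 11) (nat_lit 1) (.cons (.br (nat_lit 5) (nat_lit 1) (.cons (.rf (nat_lit 1054) (nat_lit 323402555622464)) (.cons (.rf (nat_lit 123) (nat_lit 14923918655759395)) (.cons (.br (nat_lit 8) (nat_lit 0) (.cons (.rf (nat_lit 1057) (nat_lit 15433072045018188865)) (.cons (.rf (nat_lit 1057) (nat_lit 15361084819724438593)) .nil))) .nil)))) .nil)) .nil))) .nil)))) .nil)))) (.cons (.br (nat_lit 10) (nat_lit 1) (.cons (.rf (nat_lit 1071) (nat_lit 11584701642934304)) (.cons (.rf (nat_lit 1078) (nat_lit 11584701642934304))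 (.cons (.br (nat_lit 10) (nat_lit 1) (.cons (.rf (nat_lit 1071) (nat_lit 11584701642934304)) (.cons (.rf (nat_lit 1078) (nat_lit 11584701642934304)) (.cons (.br (nat_lit 10) (nat_lit 1) (.cons (.rf (nat_lit 1071) (nat_lit 11584701642934304)) (.cons (.rf (nat_lit 1078) (nat_lit 11584701642934304)) .nil))) .nil)))) .nil)))) .nil))))]

theorem c28 : chkAll C T R L28 (nat_lit 1043) = true := by decide +kernel

theorem l28 : (nat_lit 1043) + L28.length = (nat_lit 1080) := by decide +kernel

/-- part of the certificates -/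
def L29 : List Prf := [(.br (nat_lit 10) (nat_lit 0) (.cons (.br (nat_lit 10) (nat_lit 0) (.cons (.rf (nat_lit 319) (nat_lit 12706173509796866)) .nil)) (.cons (.rf (nat_lit 319) (nat_lit 12706173509796866)) .nil))),
 (.br (nat_lit 4) (nat_lit 1) (.cons (.rf (nat_lit 870) (nat_lit 10105156502536)) (.cons (.br (nat_lit 7) (nat_lit 0) (.cons (.rf (nat_lit 1080) (nat_lit 11584701642934304)) (.cons (.rf (nat_lit 164) (nat_lit 11409741853196328)) (.cons (.rf (nat_lit 329) (nat_lit 12641229242205248)) .nil)))) .nil))),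
 (.br (nat_lit 10) (nat_lit 0) (.cons (.rf (nat_lit 1080) (nat_lit 11584629767344129)) (.cons (.rf (nat_lit 319) (nat_lit 12702874907807808)) .nil))),
 (.br (nat_lit 9) (nat_lit 1) (.cons (.rf (nat_lit 1081) (nat_lit 325702574508064)) (.cons (.rf (nat_lit 1081) (nat_lit 325630698917889)) (.cons (.br (nat_lit 9) (nat_lit 1) (.cons (.rf (nat_lit 1081) (nat_lit 325702574508064)) (.cons (.rf (nat_lit 1081) (nat_lit 325630698917889)) (.cons (.br (nat_lit 10) (nat_lit 1) (.cons (.br (nat_lit 5) (nat_lit 0) (.cons (.rf (nat_lit 1061) (nat_lit 11578104506130464)) (.cons (.rf (nat_lit 1082) (nat_lit 11584701642934304)) (.cons (.rf (nat_lit 476) (nat_lit 14242950590601857064)) .nil)))) .nil)) .nil)))) .nil)))),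
 (.br (nat_lit 6) (nat_lit 0) (.cons (.rf (nat_lit 159) (nat_lit 441469564183841057)) (.cons (.br (nat_lit 8) (nat_lit 0) (.cons (.rf (nat_lit 884) (nat_lit 464279761487969)) (.cons (.br (nat_lit 10) (nat_lit 1) (.cons (.br (nat_lit 13) (nat_lit 1) (.cons (.zr (nat_lit 928455066357527764524860416) (nat_lit 2422574295349879046733825) (nat_lit 5) (nat_lit 0)) (.cons (.zr (nat_lit 237684487542793017178678363136) (nat_lit 2422592525076745712369665) (nat_lit 5) (nat_lit 0)) .nil))) .nil)) .nil))) .nil))),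
 (.br (nat_lit 11) (nat_lit 0) (.cons (.rf (nat_lit 1084) (nat_lit 14242959524133701664)) (.cons (.br (nat_lit 11) (nat_lit 0) (.cons (.rf (nat_lit 1084) (nat_lit 14242959524133701664)) .nil)) .nil))),
 (.br (nat_lit 4) (nat_lit 1) (.cons (.br (nat_lit 10) (nat_lit 0) (.cons (.br (nat_lit 11) (nat_lit 0) (.cons (.kr (nat_lit 1208925891672223229411328) (nat_lit 309485009821627643213119488) (nat_lit 3) (nat_lit 0)) .nil)) .nil)) (.cons (.rf (nat_lit 157) (nat_lit 11444931658975361)) .nil))),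
 (.br (nat_lit 8) (nat_lit 0) (.cons (.rf (nat_lit 1085) (nat_lit 14242959524133701664)) (.cons (.br (nat_lit 6) (nat_lit 0) (.cons (.rf (nat_lit 319) (nat_lit 14990990852101217)) (.cons (.rf (nat_lit 329) (nat_lit 14929348407724129)) (.cons (.br (nat_lit 10) (nat_lit 1) (.cons (.ev (nat_lit 1213666705180645839143168) (nat_lit 1)) (.cons (.rf (nat_lit 1086) (nat_lit 15433072045018188865)) .nil))) .nil)))) .nil))),
 (.br (nat_lit 8) (nat_lit 0) (.cons (.rf (nat_lit 1085) (nat_lit 14242959524133701664)) (.cons (.rf (nat_lit 1087) (nat_lit 14242959524133701664)) (.cons (.br (nat_lit 8) (nat_lit 0) (.cons (.rf (nat_lit 1085) (nat_lit 14242959524133701664)) (.cons (.rf (nat_lit 1087) (nat_lit 14242959524133701664)) .nil))) .nil)))),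
 (.br (nat_lit 13) (nat_lit 1) (.cons (.br (nat_lit 3) (nat_lit 1) (.cons (.rf (nat_lit 924) (nat_lit 374200406739387459)) (.cons (.ev (nat_lit 20361947255898194929647691497728) (nat_lit 1)) .nil))) .nil)),
 (.br (nat_lit 12) (nat_lit 0) (.cons (.rf (nat_lit 1088) (nat_lit 14242959524133701664)) (.cons (.br (nat_lit 6) (nat_lit 0) (.cons (.rf (nat_lit 4) (nat_lit 14994293607572577)) (.cons (.rf (nat_lit 329) (nat_lit 15070085896079457)) (.cons (.br (nat_lit 13) (nat_lit 1) (.cons (.rf (nat_lit 1089) (nat_lit 493858305440582043680)) (.cons (.br (nat_lit 13) (nat_lit 1) (.cons (.rf (nat_lit 1089) (nat_lit 493858305440582043680)) .nil)) .nil))) .nil)))) .nil))),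
 (.br (nat_lit 12) (nat_lit 0) (.cons (.rf (nat_lit 1088) (nat_lit 14242959524133701664)) (.cons (.rf (nat_lit 1090) (nat_lit 14242959524133701664)) (.cons (.br (nat_lit 12) (nat_lit 0) (.cons (.rf (nat_lit 1088) (nat_lit 14242959524133701664)) (.cons (.rf (nat_lit 1090) (nat_lit 14242959524133701664)) .nil))) .nil)))),
 (.br (nat_lit 12) (nat_lit 0) (.cons (.rf (nat_lit 1088) (nat_lit 14242959524133701664)) (.cons (.rf (nat_lit 1091) (nat_lit 14242959524133701664)) (.cons (.br (nat_lit 12) (nat_lit 0) (.cons (.rf (nat_lit 1088) (nat_lit 14242959524133701664)) (.cons (.rf (nat_lit 1091) (nat_lit 14242959524133701664)) .nil))) .nil)))),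
 (.br (nat_lit 9) (nat_lit 1) (.cons (.rf (nat_lit 1083) (nat_lit 362021926341697)) (.cons (.br (nat_lit 11) (nat_lit 1) (.cons (.br (nat_lit 12) (nat_lit 0) (.cons (.rf (nat_lit 1088) (nat_lit 14242959524133701664)) (.cons (.rf (nat_lit 1091) (nat_lit 14242959524133701664)) (.cons (.rf (nat_lit 1092) (nat_lit 14242959524133701664)) (.cons (.br (nat_lit 12) (nat_lit 0) (.cons (.rf (nat_lit 1088) (nat_lit 14242959524133701664)) (.cons (.rf (nat_lit 1091) (nat_lit 14242959524133701664)) (.cons (.rf (nat_lit 1092) (nat_lit 14242959524133701664)) .nil)))) .nil))))) .nil)) .nil))),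
 (.br (nat_lit 9) (nat_lit 1) (.cons (.kr (nat_lit 1208925891672223229411328) (nat_lit 309485009821627643213119488) (nat_lit 3) (nat_lit 0)) .nil)),
 (.br (nat_lit 12) (nat_lit 1) (.cons (.br (nat_lit 4) (nat_lit 1) (.cons (.rf (nat_lit 1094) (nat_lit 14242959524133701664)) (.cons (.rf (nat_lit 1094) (nat_lit 14208056627021580320)) .nil))) .nil)),
 (.br (nat_lit 7) (nat_lit 0) (.cons (.kr (nat_lit 72057594054705152) (nat_lit 282574488338432) (nat_lit 3) (nat_lit 0)) (.cons (.br (nat_lit 12) (nat_lit 1) (.cons (.rf (nat_lit 1095) (nat_lit 14242959524133701664)) (.cons (.rf (nat_lit 1095) (nat_lit 14208056627021580320)) .nil))) .nil))),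
 (.br (nat_lit 12) (nat_lit 1) (.cons (.rf (nat_lit 1096) (nat_lit 14242959524133701664)) (.cons (.br (nat_lit 12) (nat_lit 1) (.cons (.rf (nat_lit 1096) (nat_lit 14242959524133701664)) .nil)) .nil))),
 (.br (nat_lit 12) (nat_lit 1) (.cons (.rf (nat_lit 1096) (nat_lit 14242959524133701664)) (.cons (.rf (nat_lit 1097) (nat_lit 14242959524133701664)) (.cons (.rf (nat_lit 1097) (nat_lit 14208056627021580320)) .nil)))),
 (.br (nat_lit 6) (nat_lit 0) (.cons (.rf (nat_lit 870) (nat_lit 11141383390277)) (.cons (.br (nat_lit 8) (nat_lit 0) (.cons (.br (nat_lit 8) (nat_lit 0) (.cons (.kr (nat_lit 18446744078004518912) (nat_lit 72339069014638592) (nat_lit 4) (nat_lit 0)) (.cons (.rf (nat_lit 884) (nat_lit 466409967682722)) .nil))) (.cons (.br (nat_lit 8) (nat_lit 0) (.cons (.kr (nat_lit 18446744078004518912) (nat_lit 72339069014638592) (nat_lit 4) (nat_lit 0)) (.cons (.rf (nat_lit 884) (nat_lit 466409967682722)) .nil))) (.cons (.rf (nat_lit 884) (nat_lit 466409967682722)) .nil))))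 (.cons (.rf (nat_lit 1098) (nat_lit 15433072045018188865)) .nil)))),
 (.br (nat_lit 6) (nat_lit 0) (.cons (.rf (nat_lit 157) (nat_lit 13908966244582562)) (.cons (.br (nat_lit 10) (nat_lit 1) (.cons (.rf (nat_lit 329) (nat_lit 14858979831318563)) (.cons (.ev (nat_lit 1213666633123047523024896) (nat_lit 1)) .nil))) .nil))),
 (.br (nat_lit 3) (nat_lit 1) (.cons (.rf (nat_lit 870) (nat_lit 11141383390277)) (.cons (.rf (nat_lit 1100) (nat_lit 493858305440582043680)) (.cons (.rf (nat_lit 1100) (nat_lit 492741412732994160672)) .nil)))),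
 (.br (nat_lit 8) (nat_lit 0) (.cons (.rf (nat_lit 874) (nat_lit 397206295284897)) (.cons (.br (nat_lit 8) (nat_lit 0) (.cons (.ev (nat_lit 18662920154375127042) (nat_lit 2)) (.cons (.rf (nat_lit 1101) (nat_lit 493858305440582043680)) .nil))) (.cons (.br (nat_lit 8) (nat_lit 0) (.cons (.rf (nat_lit 874) (nat_lit 397206295284897)) (.cons (.rf (nat_lit 1101) (nat_lit 493858305440582043680)) .nil))) .nil)))),
 (.br (nat_lit 4) (nat_lit 1) (.cons (.kr (nat_lit 309485009893402662779486208) (nat_lit 1208925819897203663044608) (nat_lit 3) (nat_lit 0)) .nil)),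
 (.br (nat_lit 12) (nat_lit 1) (.cons (.br (nat_lit 2) (nat_lit 1) (.cons (.rf (nat_lit 1103) (nat_lit 14242959524133701664)) (.cons (.rf (nat_lit 1103) (nat_lit 14208056627021580320)) .nil))) .nil)),
 (.br (nat_lit 8) (nat_lit 0) (.cons (.rf (nat_lit 1102) (nat_lit 14242957224114816064)) (.cons (.rf (nat_lit 884) (nat_lit 464279761487969)) (.cons (.br (nat_lit 13) (nat_lit 1) (.cons (.rf (nat_lit 1104) (nat_lit 15433072045018188865)) (.cons (.rf (nat_lit 1104) (nat_lit 15398169147906067521)) .nil))) .nil)))),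
 (.br (nat_lit 6) (nat_lit 0) (.cons (.rf (nat_lit 1099) (nat_lit 14242959524133701664)) (.cons (.rf (nat_lit 1102) (nat_lit 14242959524133701664)) (.cons (.br (nat_lit 8) (nat_lit 0) (.cons (.rf (nat_lit 1102) (nat_lit 14242957224114816064)) (.cons (.rf (nat_lit 1099) (nat_lit 14242957224114816064)) (.cons (.rf (nat_lit 1105) (nat_lit 493858305440582043680)) (.cons (.br (nat_lit 8) (nat_lit 0) (.cons (.rf (nat_lit 1102) (nat_lit 14242957224114816064)) (.cons (.rf (nat_lit 1098) (nat_lit 15433071973142598690)) (.cons (.rf (nat_lit 1105) (nat_lit 493858305440582043680)) .nil)))) .nil))))) .nil)))),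
 (.br (nat_lit 11) (nat_lit 1) (.cons (.br (nat_lit 3) (nat_lit 1) (.cons (.br (nat_lit 5) (nat_lit 1) (.cons (.br (nat_lit 9) (nat_lit 1) (.cons (.ev (nat_lit 20838868496588092737882544931846) (nat_lit 3)) .nil)) .nil)) (.cons (.br (nat_lit 5) (nat_lit 1) (.cons (.br (nat_lit 9) (nat_lit 1) (.cons (.ev (nat_lit 20837632983734067305557277016580) (nat_lit 3)) .nil)) (.cons (.br (nat_lit 9) (nat_lit 1) (.cons (.ev (nat_lit 20837006741270472220237189481988) (nat_lit 3)) .nil)) .nil))) .nil))) .nil)),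
 (.br (nat_lit 11) (nat_lit 1) (.cons (.rf (nat_lit 1107) (nat_lit 493858305440582043680)) (.cons (.br (nat_lit 11) (nat_lit 1) (.cons (.rf (nat_lit 1107) (nat_lit 493858305440582043680)) .nil)) .nil))),
 (.br (nat_lit 3) (nat_lit 1) (.cons (.br (nat_lit 5) (nat_lit 1) (.cons (.kr (nat_lit 20282409603670117168025255804928) (nat_lit 79228162514336676662558588928) (nat_lit 4) (nat_lit 0)) .nil)) (.cons (.br (nat_lit 5) (nat_lit 1) (.cons (.ev (nat_lit 20362875715705367372114509824512) (nat_lit 3)) .nil)) .nil))),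
 (.br (nat_lit 3) (nat_lit 1) (.cons (.br (nat_lit 5) (nat_lit 1) (.cons (.kr (nat_lit 60847228810973458015919758376960) (nat_lit 79228171959069642401849016320) (nat_lit 4) (nat_lit 0)) .nil)) (.cons (.br (nat_lit 5) (nat_lit 1) (.cons (.ev (nat_lit 20521332031252413145661600826880) (nat_lit 3)) .nil)) .nil))),
 (.br (nat_lit 9) (nat_lit 1) (.cons (.rf (nat_lit 1108) (nat_lit 493858305440582043680)) (.cons (.br (nat_lit 11) (nat_lit 1) (.cons (.br (nat_lit 11) (nat_lit 1) (.cons (.ev (nat_lit 80470971369094921110381789700) (nat_lit 3)) (.cons (.rf (nat_lit 1109) (nat_lit 493858305440582043680)) .nil))) (.cons (.br (nat_lit 11) (nat_lit 1) (.cons (.ev (nat_lit 80470971369094921110381789700) (nat_lit 3)) (.cons (.rf (nat_lit 1110) (nat_lit 493858305440582043680)) .nil))) (.cons (.br (nat_lit 11) (nat_lit 1) (.cons (.rf (nat_lit 1109) (nat_lit 493858305440582043680)) (.cons (.rf (nat_lit 1110) (nat_lit 493858305440582043680)) .nil))) .nil)))) .nil))),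
 (.br (nat_lit 9) (nat_lit 1) (.cons (.rf (nat_lit 1108) (nat_lit 493858305440582043680)) (.cons (.rf (nat_lit 1111) (nat_lit 493858305440582043680)) (.cons (.br (nat_lit 9) (nat_lit 1) (.cons (.rf (nat_lit 1108) (nat_lit 493858305440582043680)) (.cons (.rf (nat_lit 1111) (nat_lit 493858305440582043680)) .nil))) .nil)))),
 (.br (nat_lit 4) (nat_lit 1) (.cons (.kr (nat_lit 79228162514336395187598655488) (nat_lit 309485009821627643213119488) (nat_lit 3) (nat_lit 0)) .nil)),
 (.br (nat_lit 9) (nat_lit 1) (.cons (.ev (nat_lit 81399412231459507707620819463) (nat_lit 3)) (.cons (.br (nat_lit 3) (nat_lit 1) (.cons (.rf (nat_lit 1113) (nat_lit 15433072045018188865)) (.cons (.br (nat_lit 5) (nat_lit 1) (.cons (.ev (nat_lit 20362256755130457647716350820870) (nat_lit 3)) .nil)) .nil))) .nil))),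
 (.br (nat_lit 9) (nat_lit 1) (.cons (.ev (nat_lit 81399412231459507707620819463) (nat_lit 3)) (.cons (.br (nat_lit 3) (nat_lit 1) (.cons (.br (nat_lit 5) (nat_lit 1) (.cons (.zr (nat_lit 928469288797204205182910467) (nat_lit 316915067908985938107607155200) (nat_lit 10) (nat_lit 3)) .nil)) (.cons (.br (nat_lit 5) (nat_lit 1) (.cons (.ev (nat_lit 20838244700273010508268260689408) (nat_lit 3)) .nil)) .nil))) .nil))),
 (.br (nat_lit 11) (nat_lit 1) (.cons (.rf (nat_lit 1112) (nat_lit 493858305440582043680)) (.cons (.br (nat_lit 9) (nat_lit 1) (.cons (.rf (nat_lit 1114) (nat_lit 493858305440582043680)) (.cons (.rf (nat_lit 1115) (nat_lit 493858305440582043680)) (.cons (.br (nat_lit 9) (nat_lit 1) (.cons (.rf (nat_lit 1114) (nat_lit 493858305440582043680)) (.cons (.rf (nat_lit 1115) (nat_lit 493858305440582043680)) .nil))) .nil)))) .nil))),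
 (.br (nat_lit 11) (nat_lit 1) (.cons (.rf (nat_lit 1112) (nat_lit 493858305440582043680)) (.cons (.rf (nat_lit 1116) (nat_lit 493858305440582043680)) (.cons (.br (nat_lit 11) (nat_lit 1) (.cons (.rf (nat_lit 1112) (nat_lit 493858305440582043680)) (.cons (.rf (nat_lit 1116) (nat_lit 493858305440582043680)) .nil))) .nil)))),
 (.br (nat_lit 11) (nat_lit 1) (.cons (.rf (nat_lit 1112) (nat_lit 493858305440582043680)) (.cons (.rf (nat_lit 1117) (nat_lit 493858305440582043680)) (.cons (.br (nat_lit 11) (nat_lit 1) (.cons (.rf (nat_lit 1112) (nat_lit 493858305440582043680)) (.cons (.rf (nat_lit 1117) (nat_lit 493858305440582043680)) .nil))) .nil)))),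
 (.br (nat_lit 10) (nat_lit 1) (.cons (.br (nat_lit 12) (nat_lit 1) (.cons (.br (nat_lit 11) (nat_lit 1) (.cons (.rf (nat_lit 1112) (nat_lit 493858305440582043680)) (.cons (.rf (nat_lit 1117) (nat_lit 493858305440582043680)) (.cons (.rf (nat_lit 1118) (nat_lit 493858305440582043680)) (.cons (.br (nat_lit 11) (nat_lit 1) (.cons (.rf (nat_lit 1112) (nat_lit 493858305440582043680)) (.cons (.rf (nat_lit 1117) (nat_lit 493858305440582043680)) (.cons (.rf (nat_lit 1118) (nat_lit 493858305440582043680)) .nil)))) .nil))))) .nil)) .nil))]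

theorem c29 : chkAll C T R L29 (nat_lit 1080) = true := by decide +kernel

theorem l29 : (nat_lit 1080) + L29.length = (nat_lit 1120) := by decide +kernel

end Pool.Agent.H93.Neg.Q14_6_0_1_5_2
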