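import Pool.Agent.H93.Neg.TabQ14_6_0_1_5_2

/-!
Certificates.
-/

set_option autoImplicit false
set_option maxRecDepth 100000
set_option linter.all false

namespace Pool.Agent.H93.Neg.Q14_6_0_1_5_2

/-- part of the certificates -/
def L30 : List Prf := [(.br (nat_lit 9) (nat_lit 1) (.cons (.kr (nat_lit 20282412021503381992274615336962) (nat_lit 237684487561239756858636370432) (nat_lit 0) (nat_lit 2)) .nil)),
 (.br (nat_lit 8) (nat_lit 0) (.cons (.ev (nat_lit 18951433135130543620) (nat_lit 3)) (.cons (.br (nat_lit 5) (nat_lit 1) (.cons (.rf (nat_lit 1120) (nat_lit 493858305440582043680)) (.cons (.rf (nat_lit 1120) (nat_lit 458117738797769787424)) .nil))) .nil))),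
 (.br (nat_lit 9) (nat_lit 1) (.cons (.ev (nat_lit 20837011595973753518012787458560) (nat_lit 3)) .nil)),
 (.br (nat_lit 8) (nat_lit 0) (.cons (.ev (nat_lit 18951433135130543620) (nat_lit 3)) (.cons (.br (nat_lit 3) (nat_lit 1) (.cons (.rf (nat_lit 1122) (nat_lit 493858305440582043680)) (.cons (.rf (nat_lit 1122) (nat_lit 458117738797769787424)) .nil))) .nil))),
 (.br (nat_lit 11) (nat_lit 1) (.cons (.rf (nat_lit 1119) (nat_lit 372996271720531008)) (.cons (.br (nat_lit 8) (nat_lit 0) (.cons (.rf (nat_lit 1121) (nat_lit 493858305440582043680)) (.cons (.rf (nat_lit 1123) (nat_lit 493858305440582043680)) (.cons (.br (nat_lit 8) (nat_lit 0) (.cons (.rf (nat_lit 1121) (nat_lit 493858305440582043680)) (.cons (.rf (nat_lit 1123) (nat_lit 493858305440582043680)) .nil))) .nil)))) .nil))),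
 (.br (nat_lit 11) (nat_lit 1) (.cons (.rf (nat_lit 1119) (nat_lit 372996271720531008)) (.cons (.rf (nat_lit 1124) (nat_lit 493858305440582043680)) (.cons (.rf (nat_lit 1124) (nat_lit 458117738797769787424)) .nil)))),
 (.br (nat_lit 8) (nat_lit 1) (.cons (.kr (nat_lit 309485009893402662779486208) (nat_lit 79228162514264620168032288768) (nat_lit 3) (nat_lit 0)) .nil)),
 (.br (nat_lit 7) (nat_lit 0) (.cons (.kr (nat_lit 72057594054705152) (nat_lit 282574488338432) (nat_lit 3) (nat_lit 0)) (.cons (.br (nat_lit 4) (nat_lit 1) (.cons (.rf (nat_lit 1126) (nat_lit 13052852536275470368)) (.cons (.rf (nat_lit 1126) (nat_lit 11935959828687587360)) .nil))) .nil))),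
 (.br (nat_lit 9) (nat_lit 1) (.cons (.ev (nat_lit 20838249517049498890453181924868) (nat_lit 3)) .nil)),
 (.br (nat_lit 3) (nat_lit 1) (.cons (.rf (nat_lit 1128) (nat_lit 493858305440582043680)) (.cons (.rf (nat_lit 1128) (nat_lit 458117738797769787424)) .nil))),
 (.br (nat_lit 11) (nat_lit 1) (.cons (.rf (nat_lit 1119) (nat_lit 372996271720531008)) (.cons (.br (nat_lit 6) (nat_lit 0) (.cons (.rf (nat_lit 1127) (nat_lit 482283465938701377)) (.cons (.br (nat_lit 8) (nat_lit 0) (.cons (.ev (nat_lit 282587423572482) (nat_lit 2)) (.cons (.rf (nat_lit 1129) (nat_lit 493858305440582043680)) .nil))) (.cons (.br (nat_lit 8) (nat_lit 0) (.cons (.rf (nat_lit 1129) (nat_lit 493823400243451036736)) (.cons (.rf (nat_lit 1127) (nat_lit 482249309202650146)) (.cons (.rf (nat_lit 265) (nat_lit 11652372688094300201)) .nil)))) .nil)))) .nil))),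
 (.br (nat_lit 11) (nat_lit 1) (.cons (.rf (nat_lit 1119) (nat_lit 372996271720531008)) (.cons (.rf (nat_lit 1130) (nat_lit 493858305440582043680)) (.cons (.rf (nat_lit 1130) (nat_lit 458117738797769787424)) .nil)))),
 (.br (nat_lit 11) (nat_lit 1) (.cons (.rf (nat_lit 1125) (nat_lit 493858305440582043680)) (.cons (.rf (nat_lit 1131) (nat_lit 493858305440582043680)) (.cons (.br (nat_lit 11) (nat_lit 1) (.cons (.rf (nat_lit 1125) (nat_lit 493858305440582043680)) (.cons (.rf (nat_lit 1131) (nat_lit 493858305440582043680)) .nil))) .nil)))),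
 (.br (nat_lit 10) (nat_lit 1) (.cons (.rf (nat_lit 1119) (nat_lit 407901468851537952)) (.cons (.br (nat_lit 10) (nat_lit 1) (.cons (.rf (nat_lit 1119) (nat_lit 407901468851537952)) (.cons (.br (nat_lit 12) (nat_lit 1) (.cons (.br (nat_lit 11) (nat_lit 1) (.cons (.rf (nat_lit 1125) (nat_lit 493858305440582043680)) (.cons (.rf (nat_lit 1131) (nat_lit 493858305440582043680)) (.cons (.rf (nat_lit 1132) (nat_lit 493858305440582043680)) (.cons (.rf (nat_lit 1132) (nat_lit 458117738797769787424)) .nil))))) .nil)) .nil))) .nil))),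
 (.br (nat_lit 9) (nat_lit 1) (.cons (.ev (nat_lit 79230585143682903594810474496) (nat_lit 2)) .nil)),
 (.br (nat_lit 8) (nat_lit 0) (.cons (.ev (nat_lit 313111787281035584530809346) (nat_lit 2)) (.cons (.br (nat_lit 5) (nat_lit 1) (.cons (.rf (nat_lit 1134) (nat_lit 493858305440582043680)) (.cons (.rf (nat_lit 1134) (nat_lit 458117738797769787424)) .nil))) .nil))),
 (.br (nat_lit 9) (nat_lit 1) (.cons (.ev (nat_lit 20837006741306935051661584237060) (nat_lit 3)) .nil)),
 (.br (nat_lit 8) (nat_lit 0) (.cons (.ev (nat_lit 4335208008666519282777065480) (nat_lit 4)) (.cons (.br (nat_lit 3) (nat_lit 1) (.cons (.rf (nat_lit 1136) (nat_lit 493858305440582043680)) (.cons (.rf (nat_lit 1136) (nat_lit 458117738797769787424)) .nil))) .nil))),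
 (.br (nat_lit 5) (nat_lit 1) (.cons (.ev (nat_lit 79230585088414447488414515712) (nat_lit 2)) .nil)),
 (.br (nat_lit 11) (nat_lit 1) (.cons (.rf (nat_lit 1133) (nat_lit 372996271720531008)) (.cons (.br (nat_lit 6) (nat_lit 0) (.cons (.rf (nat_lit 1135) (nat_lit 493858305440582043680)) (.cons (.rf (nat_lit 1137) (nat_lit 493858305440582043680)) (.cons (.br (nat_lit 8) (nat_lit 0) (.cons (.rf (nat_lit 1137) (nat_lit 493823400243451036736)) (.cons (.rf (nat_lit 1135) (nat_lit 493823400243451036736)) (.cons (.br (nat_lit 3) (nat_lit 1) (.cons (.rf (nat_lit 1138) (nat_lit 493858305440582043680)) (.cons (.rf (nat_lit 1138) (nat_lit 458117738797769787424)) .nil))) .nil)))) .nil)))) .nil))),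
 (.br (nat_lit 11) (nat_lit 1) (.cons (.br (nat_lit 10) (nat_lit 1) (.cons (.rf (nat_lit 1133) (nat_lit 407901468851537952)) (.cons (.rf (nat_lit 1139) (nat_lit 493823400243451036736)) (.cons (.rf (nat_lit 1139) (nat_lit 458082833600638780480)) .nil)))) (.cons (.rf (nat_lit 1133) (nat_lit 372996271720531008)) .nil))),
 (.br (nat_lit 11) (nat_lit 1) (.cons (.rf (nat_lit 1140) (nat_lit 493823400243451036736)) (.cons (.rf (nat_lit 1133) (nat_lit 372996271720531008)) (.cons (.rf (nat_lit 1140) (nat_lit 493858305440582043680)) .nil)))),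
 (.br (nat_lit 10) (nat_lit 1) (.cons (.rf (nat_lit 1133) (nat_lit 407901468851537952)) (.cons (.br (nat_lit 10) (nat_lit 1) (.cons (.rf (nat_lit 1133) (nat_lit 407901468851537952)) (.cons (.br (nat_lit 12) (nat_lit 1) (.cons (.br (nat_lit 11) (nat_lit 1) (.cons (.rf (nat_lit 1140) (nat_lit 493823400243451036736)) (.cons (.rf (nat_lit 1133) (nat_lit 372996271720531008)) (.cons (.rf (nat_lit 1141) (nat_lit 493858305440582043680)) (.cons (.rf (nat_lit 1141) (nat_lit 458117738797769787424)) .nil))))) .nil)) .nil))) .nil))),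
 (.br (nat_lit 4) (nat_lit 0) (.cons (.rf (nat_lit 742) (nat_lit 7621117088)) (.cons (.rf (nat_lit 1079) (nat_lit 325702574508064)) (.cons (.br (nat_lit 7) (nat_lit 0) (.cons (.rf (nat_lit 742) (nat_lit 7688225888)) (.cons (.rf (nat_lit 1079) (nat_lit 323402555622464)) (.cons (.br (nat_lit 9) (nat_lit 1) (.cons (.rf (nat_lit 1093) (nat_lit 11584701642934304)) (.cons (.rf (nat_lit 1093) (nat_lit 11582401624048704)) (.cons (.br (nat_lit 9) (nat_lit 1) (.cons (.rf (nat_lit 1093) (nat_lit 11584701642934304)) (.cons (.rf (nat_lit 1093) (nat_lit 11582401624048704)) (.cons (.br (nat_lit 11) (nat_lit 1) (.cons (.br (nat_lit 6) (nat_lit 0) (.cons (.rf (nat_lit 1099) (nat_lit 14242959524133701664)) (.cons (.rf (nat_lit 1102) (nat_lit 14242959524133701664)) (.cons (.rf (nat_lit 1106) (nat_lit 14242959524133701664)) (.cons (.br (nat_lit 6) (nat_lit 0) (.cons (.rf (nat_lit 1098) (nat_lit 15433072045018188865)) (.cons (.rf (nat_lit 1102) (nat_lit 14242959524133701664)) (.cons (.rf (nat_lit 1106)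 (nat_lit 14242959524133701664)) .nil)))) .nil))))) .nil)) .nil)))) .nil)))) (.cons (.br (nat_lit 10) (nat_lit 1) (.cons (.rf (nat_lit 1133) (nat_lit 407901468851537952)) (.cons (.rf (nat_lit 1142) (nat_lit 407901468851537952)) (.cons (.br (nat_lit 10) (nat_lit 1) (.cons (.rf (nat_lit 1133) (nat_lit 407901468851537952)) (.cons (.rf (nat_lit 1142) (nat_lit 407901468851537952)) (.cons (.br (nat_lit 10) (nat_lit 1) (.cons (.rf (nat_lit 1133) (nat_lit 407901468851537952)) (.cons (.rf (nat_lit 1142) (nat_lit 407901468851537952)) .nil))) .nil)))) .nil)))) .nil))))) .nil)))),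
 (.br (nat_lit 10) (nat_lit 1) (.cons (.rf (nat_lit 1075) (nat_lit 407897070809221152)) .nil)),
 (.br (nat_lit 9) (nat_lit 1) (.cons (.br (nat_lit 9) (nat_lit 1) (.cons (.rf (nat_lit 1144) (nat_lit 407901468851537952)) .nil)) .nil)),
 (.br (nat_lit 9) (nat_lit 1) (.cons (.rf (nat_lit 1145) (nat_lit 325702574508064)) (.cons (.br (nat_lit 9) (nat_lit 1) (.cons (.rf (nat_lit 1145) (nat_lit 325702574508064)) (.cons (.br (nat_lit 9) (nat_lit 1) (.cons (.rf (nat_lit 1145) (nat_lit 325702574508064)) .nil)) .nil))) .nil))),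
 (.br (nat_lit 7) (nat_lit 0) (.cons (.br (nat_lit 5) (nat_lit 0) (.cons (.rf (nat_lit 4) (nat_lit 13836468167479360)) (.cons (.br (nat_lit 9) (nat_lit 1) (.cons (.br (nat_lit 9) (nat_lit 1) (.cons (.rf (nat_lit 1144) (nat_lit 407901468851537952)) .nil)) (.cons (.br (nat_lit 9) (nat_lit 1) (.cons (.rf (nat_lit 1144) (nat_lit 407901468851537952)) .nil)) .nil))) .nil))) .nil)),
 (.br (nat_lit 7) (nat_lit 0) (.cons (.rf (nat_lit 1147) (nat_lit 407901468851537952)) (.cons (.br (nat_lit 7) (nat_lit 0) (.cons (.rf (nat_lit 1147) (nat_lit 407901468851537952)) .nil)) .nil))),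
 (.br (nat_lit 11) (nat_lit 0) (.cons (.rf (nat_lit 1148) (nat_lit 407901468851537952)) (.cons (.br (nat_lit 11) (nat_lit 0) (.cons (.rf (nat_lit 1148) (nat_lit 407901468851537952)) .nil)) .nil))),
 (.br (nat_lit 11) (nat_lit 0) (.cons (.rf (nat_lit 1148) (nat_lit 407901468851537952)) (.cons (.rf (nat_lit 1149) (nat_lit 407901468851537952)) (.cons (.br (nat_lit 11) (nat_lit 0) (.cons (.rf (nat_lit 1148) (nat_lit 407901468851537952)) (.cons (.rf (nat_lit 1149) (nat_lit 407901468851537952)) .nil))) .nil)))),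
 (.br (nat_lit 5) (nat_lit 1) (.cons (.rf (nat_lit 1146) (nat_lit 362021926341697)) (.cons (.rf (nat_lit 1143) (nat_lit 324635277232160)) (.cons (.br (nat_lit 11) (nat_lit 1) (.cons (.rf (nat_lit 1150) (nat_lit 445092485129178177)) .nil)) .nil)))),
 (.br (nat_lit 10) (nat_lit 1) (.cons (.br (nat_lit 11) (nat_lit 0) (.cons (.br (nat_lit 12) (nat_lit 0) (.cons (.ev (nat_lit 81209795032169074392849562600960) (nat_lit 3)) .nil)) .nil)) .nil)),
 (.br (nat_lit 8) (nat_lit 0) (.cons (.br (nat_lit 4) (nat_lit 0) (.cons (.rf (nat_lit 4) (nat_lit 14998687359112289)) (.cons (.br (nat_lit 10) (nat_lit 1) (.cons (.rf (nat_lit 1152) (nat_lit 493858305440582043680)) (.cons (.br (nat_lit 10) (nat_lit 1) (.cons (.rf (nat_lit 1152) (nat_lit 493858305440582043680)) .nil)) .nil))) .nil))) .nil)),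
 (.br (nat_lit 8) (nat_lit 0) (.cons (.rf (nat_lit 1153) (nat_lit 14242959524133701664)) (.cons (.br (nat_lit 8) (nat_lit 0) (.cons (.rf (nat_lit 1153) (nat_lit 14242959524133701664)) .nil)) .nil))),
 (.br (nat_lit 12) (nat_lit 0) (.cons (.rf (nat_lit 1154) (nat_lit 14242959524133701664)) (.cons (.br (nat_lit 12) (nat_lit 0) (.cons (.rf (nat_lit 1154) (nat_lit 14242959524133701664)) .nil)) .nil))),
 (.br (nat_lit 5) (nat_lit 1) (.cons (.rf (nat_lit 1146) (nat_lit 362021926341697)) (.cons (.rf (nat_lit 742) (nat_lit 8696956064)) (.cons (.br (nat_lit 11) (nat_lit 1) (.cons (.br (nat_lit 12) (nat_lit 0) (.cons (.rf (nat_lit 1154) (nat_lit 14242959524133701664)) (.cons (.rf (nat_lit 1155) (nat_lit 14242959524133701664)) (.cons (.br (nat_lit 12) (nat_lit 0) (.cons (.rf (nat_lit 1154) (nat_lit 14242959524133701664)) (.cons (.rf (nat_lit 1155) (nat_lit 14242959524133701664)) .nil))) .nil)))) .nil)) .nil)))),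
 (.br (nat_lit 9) (nat_lit 1) (.cons (.br (nat_lit 5) (nat_lit 0) (.cons (.rf (nat_lit 912) (nat_lit 11576971708506176)) (.cons (.rf (nat_lit 24) (nat_lit 12701736674493570)) .nil))) .nil)),
 (.br (nat_lit 6) (nat_lit 0) (.cons (.rf (nat_lit 874) (nat_lit 392808248773921)) (.cons (.br (nat_lit 8) (nat_lit 0) (.cons (.rf (nat_lit 977) (nat_lit 14994254020609091)) (.cons (.rf (nat_lit 118) (nat_lit 14994184219102498)) (.cons (.br (nat_lit 9) (nat_lit 1) (.cons (.rf (nat_lit 113) (nat_lit 13723154150296866)) (.cons (.br (nat_lit 10) (nat_lit 1) (.cons (.br (nat_lit 10) (nat_lit 1) (.cons (.ev (nat_lit 1213666633124147017810176) (nat_lit 1)) .nil)) (.cons (.br (nat_lit 10) (nat_lit 1) (.cons (.ev (nat_lit 1213666633124147017810176) (nat_lit 1)) .nil)) .nil))) .nil))) .nil)))) .nil))),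
 (.br (nat_lit 5) (nat_lit 1) (.cons (.rf (nat_lit 1143) (nat_lit 324635210188832)) (.cons (.br (nat_lit 10) (nat_lit 1) (.cons (.rf (nat_lit 1157) (nat_lit 362021926341697)) (.cons (.br (nat_lit 6) (nat_lit 0) (.cons (.br (nat_lit 11) (nat_lit 0) (.cons (.rf (nat_lit 24) (nat_lit 13864127731861667)) .nil)) (.cons (.rf (nat_lit 1157) (nat_lit 362021926341697)) (.cons (.rf (nat_lit 24) (nat_lit 13863955933169827)) .nil)))) .nil))) (.cons (.br (nat_lit 11) (nat_lit 1) (.cons (.br (nat_lit 6) (nat_lit 0) (.cons (.rf (nat_lit 874) (nat_lit 392808248773921)) (.cons (.rf (nat_lit 1158) (nat_lit 14242959524133701664)) (.cons (.br (nat_lit 6) (nat_lit 0) (.cons (.rf (nat_lit 874) (nat_lit 392808248773921)) (.cons (.rf (nat_lit 1158) (nat_lit 14242959524133701664)) .nil))) .nil)))) .nil)) .nil)))),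
 (.br (nat_lit 11) (nat_lit 0) (.cons (.br (nat_lit 12) (nat_lit 0) (.cons (.kr (nat_lit 40564819207303413186963517210626) (nat_lit 79537647542532426740273250816) (nat_lit 0) (nat_lit 2)) .nil)) .nil)),
 (.br (nat_lit 10) (nat_lit 1) (.cons (.br (nat_lit 12) (nat_lit 0) (.cons (.rf (nat_lit 1160) (nat_lit 493858305440582043680)) (.cons (.br (nat_lit 12) (nat_lit 0) (.cons (.rf (nat_lit 1160) (nat_lit 493858305440582043680)) .nil)) .nil))) .nil))]

theorem c30 : chkAll C T R L30 (nat_lit 1120) = true := by decide +kernel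

theorem l30 : (nat_lit 1120) + L30.length = (nat_lit 1162) := by decide +kernel

/-- part of the certificates -/
def L31 : List Prf := [(.br (nat_lit 6) (nat_lit 0) (.cons (.rf (nat_lit 874) (nat_lit 392808248773921)) (.cons (.br (nat_lit 4) (nat_lit 0) (.cons (.rf (nat_lit 123) (nat_lit 13900307558960169)) (.cons (.rf (nat_lit 319) (nat_lit 14998685348923427)) (.cons (.br (nat_lit 10) (nat_lit 1) (.cons (.rf (nat_lit 1161) (nat_lit 493858305440582043680)) (.cons (.br (nat_lit 10) (nat_lit 1) (.cons (.rf (nat_lit 1161) (nat_lit 493858305440582043680)) .nil)) .nil))) .nil)))) .nil))),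
 (.br (nat_lit 5) (nat_lit 1) (.cons (.rf (nat_lit 1159) (nat_lit 11584701642934304)) (.cons (.ev (nat_lit 1099528405249) (nat_lit 1)) (.cons (.br (nat_lit 11) (nat_lit 1) (.cons (.br (nat_lit 6) (nat_lit 0) (.cons (.rf (nat_lit 874) (nat_lit 392808248773921)) (.cons (.rf (nat_lit 1162) (nat_lit 14242959524133701664)) (.cons (.br (nat_lit 6) (nat_lit 0) (.cons (.rf (nat_lit 874) (nat_lit 392808248773921)) (.cons (.rf (nat_lit 1162) (nat_lit 14242959524133701664)) .nil))) .nil)))) .nil)) .nil)))),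
 (.br (nat_lit 4) (nat_lit 1) (.cons (.rf (nat_lit 328) (nat_lit 258149222027956482)) (.cons (.rf (nat_lit 328) (nat_lit 188342325172572232)) .nil))),
 (.br (nat_lit 13) (nat_lit 1) (.cons (.br (nat_lit 5) (nat_lit 1) (.cons (.br (nat_lit 8) (nat_lit 0) (.cons (.ev (nat_lit 81399412231172407629422133760) (nat_lit 3)) .nil)) (.cons (.br (nat_lit 6) (nat_lit 0) (.cons (.ev (nat_lit 20282410812614599701709327630336) (nat_lit 2)) .nil)) .nil))) .nil)),
 (.br (nat_lit 8) (nat_lit 0) (.cons (.br (nat_lit 13) (nat_lit 1) (.cons (.ev (nat_lit 20361947265379821102072342839555) (nat_lit 2)) (.cons (.ev (nat_lit 20361947255898194929647691497728) (nat_lit 1)) .nil))) .nil)),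
 (.br (nat_lit 8) (nat_lit 0) (.cons (.rf (nat_lit 1166) (nat_lit 493858305440582043680)) (.cons (.br (nat_lit 8) (nat_lit 0) (.cons (.rf (nat_lit 1166) (nat_lit 493858305440582043680)) .nil)) .nil))),
 (.br (nat_lit 6) (nat_lit 0) (.cons (.rf (nat_lit 1167) (nat_lit 493858305440582043680)) (.cons (.br (nat_lit 5) (nat_lit 1) (.cons (.br (nat_lit 10) (nat_lit 1) (.cons (.br (nat_lit 8) (nat_lit 0) (.cons (.ev (nat_lit 121775852207846042509715437518850) (nat_lit 3)) .nil)) .nil)) (.cons (.br (nat_lit 4) (nat_lit 0) (.cons (.br (nat_lit 8) (nat_lit 0) (.cons (.ev (nat_lit 121775854616363773913607203456516) (nat_lit 3)) .nil)) (.cons (.br (nat_lit 8) (nat_lit 0) (.cons (.zr (nat_lit 158456339232521615250567463168) (nat_lit 930872881175603533572079616) (nat_lit 10) (nat_lit 5)) .nil)) .nil))) .nil))) .nil))),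
 (.br (nat_lit 12) (nat_lit 0) (.cons (.br (nat_lit 11) (nat_lit 0) (.cons (.rf (nat_lit 742) (nat_lit 12997166240)) (.cons (.br (nat_lit 4) (nat_lit 0) (.cons (.rf (nat_lit 118) (nat_lit 14994190762216521)) (.cons (.rf (nat_lit 1164) (nat_lit 445092485129178177)) (.cons (.br (nat_lit 13) (nat_lit 1) (.cons (.rf (nat_lit 1165) (nat_lit 493858305440582043680)) (.cons (.br (nat_lit 13) (nat_lit 1) (.cons (.rf (nat_lit 1165) (nat_lit 493858305440582043680)) .nil)) .nil))) .nil)))) (.cons (.br (nat_lit 6) (nat_lit 0) (.cons (.rf (nat_lit 1167) (nat_lit 493858305440582043680)) (.cons (.rf (nat_lit 1168) (nat_lit 493858305440582043680)) (.cons (.br (nat_lit 6) (nat_lit 0) (.cons (.rf (nat_lit 1167) (nat_lit 493858305440582043680)) (.cons (.rf (nat_lit 1168) (nat_lit 493858305440582043680)) .nil))) .nil)))) .nil)))) .nil)),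
 (.br (nat_lit 12) (nat_lit 0) (.cons (.rf (nat_lit 1169) (nat_lit 14242959524133701664)) (.cons (.br (nat_lit 12) (nat_lit 0) (.cons (.rf (nat_lit 1169) (nat_lit 14242959524133701664)) .nil)) .nil))),
 (.br (nat_lit 13) (nat_lit 1) (.cons (.br (nat_lit 5) (nat_lit 1) (.cons (.br (nat_lit 8) (nat_lit 0) (.cons (.zr (nat_lit 81129638414606897868571118927876) (nat_lit 620183667829351685751374080) (nat_lit 5) (nat_lit 2)) .nil)) (.cons (.br (nat_lit 6) (nat_lit 0) (.cons (.ev (nat_lit 121775857024770680177126262440966) (nat_lit 3)) .nil)) .nil))) .nil)),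
 (.br (nat_lit 5) (nat_lit 0) (.cons (.kr (nat_lit 309485009893402662779486208) (nat_lit 1208925819897203663044608) (nat_lit 3) (nat_lit 0)) .nil)),
 (.br (nat_lit 8) (nat_lit 0) (.cons (.br (nat_lit 12) (nat_lit 0) (.cons (.rf (nat_lit 1172) (nat_lit 15433072045018188865)) (.cons (.ev (nat_lit 20361947255898194647077514969088) (nat_lit 1)) .nil))) .nil)),
 (.br (nat_lit 6) (nat_lit 0) (.cons (.br (nat_lit 10) (nat_lit 1) (.cons (.br (nat_lit 12) (nat_lit 0) (.cons (.zr (nat_lit 159075309344398022449490821376) (nat_lit 8462480809649182703878149) (nat_lit 10) (nat_lit 2)) .nil)) (.cons (.ev (nat_lit 79538861172343837759438323968) (nat_lit 1)) .nil))) .nil)),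
 (.br (nat_lit 4) (nat_lit 0) (.cons (.rf (nat_lit 1170) (nat_lit 13126066816478775328)) (.cons (.br (nat_lit 12) (nat_lit 0) (.cons (.rf (nat_lit 329) (nat_lit 15034829780517961)) (.cons (.br (nat_lit 13) (nat_lit 1) (.cons (.rf (nat_lit 1171) (nat_lit 493858305440582043680)) (.cons (.br (nat_lit 13) (nat_lit 1) (.cons (.rf (nat_lit 1171) (nat_lit 493858305440582043680)) .nil)) .nil))) .nil))) (.cons (.br (nat_lit 5) (nat_lit 1) (.cons (.br (nat_lit 8) (nat_lit 0) (.cons (.rf (nat_lit 1173) (nat_lit 493858305440582043680)) (.cons (.br (nat_lit 8) (nat_lit 0) (.cons (.rf (nat_lit 1173) (nat_lit 493858305440582043680)) .nil)) .nil))) (.cons (.br (nat_lit 6) (nat_lit 0) (.cons (.rf (nat_lit 1174) (nat_lit 493858305440582043680)) (.cons (.br (nat_lit 6) (nat_lit 0) (.cons (.rf (nat_lit 1174) (nat_lit 493858305440582043680)) .nil)) .nil))) .nil))) .nil)))),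
 (.br (nat_lit 7) (nat_lit 0) (.cons (.kr (nat_lit 309485009893402662779486208) (nat_lit 1208925819897203663044608) (nat_lit 3) (nat_lit 0)) .nil)),
 (.br (nat_lit 5) (nat_lit 1) (.cons (.br (nat_lit 9) (nat_lit 1) (.cons (.br (nat_lit 10) (nat_lit 1) (.cons (.br (nat_lit 8) (nat_lit 0) (.cons (.ev (nat_lit 284035143544279924006271333043202) (nat_lit 4)) .nil)) .nil)) (.cons (.br (nat_lit 6) (nat_lit 0) (.cons (.br (nat_lit 8) (nat_lit 0) (.cons (.ev (nat_lit 20282413230447792747649142096386) (nat_lit 2)) .nil)) (.cons (.rf (nat_lit 1176) (nat_lit 15433072045018188865)) .nil))) .nil))) (.cons (.br (nat_lit 9) (nat_lit 1) (.cons (.br (nat_lit 6) (nat_lit 0) (.cons (.ev (nat_lit 158768242057233098089030484480) (nat_lit 2)) (.cons (.br (nat_lit 8) (nat_lit 0) (.cons (.ev (nat_lit 284034526992111920545392232762372) (nat_lit 4)) .nil)) .nil))) (.cons (.br (nat_lit 10) (nat_lit 1) (.cons (.br (nat_lit 6) (nat_lit 0) (.cons (.zr (nat_lit 79537666413696292278878864128) (nat_lit 1208999606592040721252352)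 (nat_lit 5) (nat_lit 10)) .nil)) .nil)) .nil))) .nil))),
 (.br (nat_lit 5) (nat_lit 0) (.cons (.kr (nat_lit 79537647524085682662285508608) (nat_lit 1213648186098598331547648) (nat_lit 3) (nat_lit 0)) (.cons (.rf (nat_lit 924) (nat_lit 445092274710413352)) .nil))),
 (.br (nat_lit 13) (nat_lit 1) (.cons (.rf (nat_lit 1177) (nat_lit 493858305440582043680)) (.cons (.br (nat_lit 4) (nat_lit 0) (.cons (.br (nat_lit 6) (nat_lit 0) (.cons (.br (nat_lit 8) (nat_lit 0) (.cons (.ev (nat_lit 284033274544962799789567236901896) (nat_lit 4)) .nil)) (.cons (.ev (nat_lit 20282410812577490320055697670401) (nat_lit 1)) .nil))) (.cons (.br (nat_lit 5) (nat_lit 1) (.cons (.rf (nat_lit 455) (nat_lit 373109553795138633)) (.cons (.ev (nat_lit 309489750706630705645879553) (nat_lit 1)) .nil))) (.cons (.rf (nat_lit 1178) (nat_lit 15433072045018188865)) .nil)))) .nil))),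
 (.br (nat_lit 12) (nat_lit 0) (.cons (.rf (nat_lit 1175) (nat_lit 493858305440582043680)) (.cons (.br (nat_lit 13) (nat_lit 1) (.cons (.rf (nat_lit 1177) (nat_lit 493858305440582043680)) (.cons (.rf (nat_lit 1179) (nat_lit 493858305440582043680)) (.cons (.br (nat_lit 13) (nat_lit 1) (.cons (.rf (nat_lit 1177) (nat_lit 493858305440582043680)) (.cons (.rf (nat_lit 1179) (nat_lit 493858305440582043680)) .nil))) .nil)))) .nil))),
 (.br (nat_lit 11) (nat_lit 0) (.cons (.rf (nat_lit 742) (nat_lit 12997166240)) (.cons (.rf (nat_lit 1170) (nat_lit 14242959524133701664)) (.cons (.br (nat_lit 12) (nat_lit 0) (.cons (.rf (nat_lit 1175) (nat_lit 493858305440582043680)) (.cons (.rf (nat_lit 1180) (nat_lit 493858305440582043680)) (.cons (.br (nat_lit 12) (nat_lit 0) (.cons (.rf (nat_lit 1175) (nat_lit 493858305440582043680)) (.cons (.rf (nat_lit 1180) (nat_lit 493858305440582043680)) .nil))) .nil)))) .nil)))),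
 (.br (nat_lit 11) (nat_lit 0) (.cons (.rf (nat_lit 742) (nat_lit 12997166240)) (.cons (.rf (nat_lit 1170) (nat_lit 14242959524133701664)) (.cons (.rf (nat_lit 1181) (nat_lit 14242959524133701664)) (.cons (.br (nat_lit 11) (nat_lit 0) (.cons (.rf (nat_lit 742) (nat_lit 12997166240)) (.cons (.rf (nat_lit 1170) (nat_lit 14242959524133701664)) (.cons (.rf (nat_lit 1181) (nat_lit 14242959524133701664)) .nil)))) .nil))))),
 (.br (nat_lit 5) (nat_lit 1) (.cons (.rf (nat_lit 1150) (nat_lit 445092485127083073)) (.cons (.rf (nat_lit 742) (nat_lit 8696956064)) (.cons (.ev (nat_lit 1099528405249) (nat_lit 1)) .nil)))),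
 (.br (nat_lit 5) (nat_lit 1) (.cons (.ev (nat_lit 79228167236631103041989247233) (nat_lit 1)) (.cons (.br (nat_lit 11) (nat_lit 0) (.cons (.ev (nat_lit 310693935640960797427958016) (nat_lit 1)) (.cons (.br (nat_lit 4) (nat_lit 0) (.cons (.rf (nat_lit 1086) (nat_lit 15213517302740944163)) (.cons (.kr (nat_lit 20282409603651670423947251286017) (nat_lit 309485009821345068724781312) (nat_lit 0) (nat_lit 2)) .nil))) .nil))) .nil))),
 (.br (nat_lit 6) (nat_lit 0) (.cons (.rf (nat_lit 1183) (nat_lit 493858305440582043680)) (.cons (.br (nat_lit 5) (nat_lit 1) (.cons (.br (nat_lit 5) (nat_lit 1) (.cons (.ev (nat_lit 79228167236631103041989247233) (nat_lit 1)) (.cons (.rf (nat_lit 1150) (nat_lit 295340238540248355)) .nil))) (.cons (.rf (nat_lit 1184) (nat_lit 493858305440582043680)) (.cons (.br (nat_lit 5) (nat_lit 1) (.cons (.rf (nat_lit 1150) (nat_lit 295340238540248355)) (.cons (.rf (nat_lit 1184) (nat_lit 493858305440582043680)) .nil))) .nil)))) .nil))),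
 (.br (nat_lit 12) (nat_lit 0) (.cons (.rf (nat_lit 1182) (nat_lit 14242959524133701664)) (.cons (.br (nat_lit 6) (nat_lit 0) (.cons (.rf (nat_lit 1183) (nat_lit 493858305440582043680)) (.cons (.rf (nat_lit 1185) (nat_lit 493858305440582043680)) (.cons (.br (nat_lit 6) (nat_lit 0) (.cons (.rf (nat_lit 1183) (nat_lit 493858305440582043680)) (.cons (.rf (nat_lit 1185) (nat_lit 493858305440582043680)) .nil))) .nil)))) .nil))),
 (.br (nat_lit 12) (nat_lit 0) (.cons (.rf (nat_lit 1182) (nat_lit 14242959524133701664)) (.cons (.rf (nat_lit 1186) (nat_lit 14242959524133701664)) (.cons (.br (nat_lit 12) (nat_lit 0) (.cons (.rf (nat_lit 1182) (nat_lit 14242959524133701664)) (.cons (.rf (nat_lit 1186) (nat_lit 14242959524133701664)) .nil))) .nil)))),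
 (.br (nat_lit 12) (nat_lit 0) (.cons (.rf (nat_lit 1182) (nat_lit 14242959524133701664)) (.cons (.rf (nat_lit 1187) (nat_lit 14242959524133701664)) (.cons (.br (nat_lit 12) (nat_lit 0) (.cons (.rf (nat_lit 1182) (nat_lit 14242959524133701664)) (.cons (.rf (nat_lit 1187) (nat_lit 14242959524133701664)) .nil))) .nil)))),
 (.br (nat_lit 7) (nat_lit 0) (.cons (.rf (nat_lit 742) (nat_lit 7688225888)) (.cons (.rf (nat_lit 1143) (nat_lit 325702574508064)) (.cons (.br (nat_lit 3) (nat_lit 1) (.cons (.br (nat_lit 5) (nat_lit 1) (.cons (.rf (nat_lit 1151) (nat_lit 11584701642934304)) (.cons (.rf (nat_lit 1156) (nat_lit 11584701642934304)) (.cons (.rf (nat_lit 1143) (nat_lit 324635277232160)) (.cons (.br (nat_lit 5) (nat_lit 1) (.cons (.rf (nat_lit 1151) (nat_lit 11584701642934304)) (.cons (.rf (nat_lit 1156) (nat_lit 11584701642934304)) (.cons (.rf (nat_lit 1143) (nat_lit 324635277232160)) (.cons (.rf (nat_lit 789) (nat_lit 13906870200797216)) .nil))))) .nil))))) (.cons (.br (nat_lit 5)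 (nat_lit 1) (.cons (.rf (nat_lit 1159) (nat_lit 11584701642934304)) (.cons (.rf (nat_lit 1143) (nat_lit 324635210188832)) (.cons (.rf (nat_lit 1163) (nat_lit 11584701642934304)) (.cons (.br (nat_lit 5) (nat_lit 1) (.cons (.rf (nat_lit 1159) (nat_lit 11584701642934304)) (.cons (.rf (nat_lit 1143) (nat_lit 324635210188832)) (.cons (.rf (nat_lit 1163) (nat_lit 11584701642934304)) (.cons (.rf (nat_lit 789) (nat_lit 13906870200797216)) .nil))))) .nil))))) (.cons (.br (nat_lit 11) (nat_lit 1) (.cons (.br (nat_lit 12) (nat_lit 0) (.cons (.rf (nat_lit 1182) (nat_lit 14242959524133701664)) (.cons (.rf (nat_lit 1187) (nat_lit 14242959524133701664)) (.cons (.rf (nat_lit 1188) (nat_lit 14242959524133701664)) (.cons (.br (nat_lit 12) (nat_lit 0) (.cons (.rf (nat_lit 1182) (nat_lit 14242959524133701664)) (.cons (.rf (nat_lit 1187) (nat_lit 14242959524133701664)) (.cons (.rf (nat_lit 1188) (nat_lit 14242959524133701664)) .nil)))) .nil))))) .nil)) .nil)))) .nil)))),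
 (.br (nat_lit 10) (nat_lit 1) (.cons (.kr (nat_lit 79228162514336395187598655488) (nat_lit 309485009821627643213119488) (nat_lit 3) (nat_lit 0)) .nil)),
 (.br (nat_lit 12) (nat_lit 0) (.cons (.br (nat_lit 8) (nat_lit 1) (.cons (.br (nat_lit 9) (nat_lit 1) (.cons (.br (nat_lit 10) (nat_lit 1) (.cons (.kr (nat_lit 79228162514336395187598655488) (nat_lit 309485009821627643213119488) (nat_lit 3) (nat_lit 0)) .nil)) .nil)) (.cons (.br (nat_lit 5) (nat_lit 0) (.cons (.rf (nat_lit 1190) (nat_lit 14242959524133701664)) (.cons (.rf (nat_lit 1190) (nat_lit 14241868808598947872)) .nil))) .nil))) .nil)),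
 (.br (nat_lit 12) (nat_lit 0) (.cons (.rf (nat_lit 1191) (nat_lit 14242959524133701664)) (.cons (.rf (nat_lit 1191) (nat_lit 14241868808598947872)) .nil))),
 (.br (nat_lit 11) (nat_lit 0) (.cons (.br (nat_lit 11) (nat_lit 0) (.cons (.rf (nat_lit 1192) (nat_lit 13052852536275470368)) .nil)) (.cons (.rf (nat_lit 1192) (nat_lit 13052852536275470368)) .nil))),
 (.br (nat_lit 4) (nat_lit 1) (.cons (.kr (nat_lit 72057594054705152) (nat_lit 282574488338432) (nat_lit 3) (nat_lit 0)) (.cons (.br (nat_lit 10) (nat_lit 1) (.cons (.br (nat_lit 11) (nat_lit 0) (.cons (.rf (nat_lit 1193) (nat_lit 407901468851537952)) (.cons (.rf (nat_lit 1193) (nat_lit 407867383991076896)) (.cons (.rf (nat_lit 1192) (nat_lit 13052852536275470368)) .nil)))) .nil)) .nil))),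
 (.br (nat_lit 8) (nat_lit 0) (.cons (.rf (nat_lit 1143) (nat_lit 324635277232160)) (.cons (.rf (nat_lit 1189) (nat_lit 324635277232160)) (.cons (.br (nat_lit 5) (nat_lit 1) (.cons (.rf (nat_lit 1194) (nat_lit 398305810058305)) (.cons (.rf (nat_lit 1194) (nat_lit 398272457018433)) (.cons (.br (nat_lit 5) (nat_lit 1) (.cons (.rf (nat_lit 1194) (nat_lit 398305810058305)) (.cons (.rf (nat_lit 1194) (nat_lit 398272457018433)) (.cons (.rf (nat_lit 789) (nat_lit 15067954479728672)) .nil)))) .nil)))) .nil)))),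
 (.br (nat_lit 8) (nat_lit 0) (.cons (.rf (nat_lit 1143) (nat_lit 324635277232160)) (.cons (.rf (nat_lit 1189) (nat_lit 324635277232160)) (.cons (.rf (nat_lit 1195) (nat_lit 407901468851537952)) (.cons (.rf (nat_lit 1195) (nat_lit 372998571739416608)) .nil)))))]

theorem c31 : chkAll C T R L31 (nat_lit 1162) = true := by decide +kernel

theorem l31 : (nat_lit 1162) + L31.length = (nat_lit 1197) := by decide +kernel

/-- part of the certificates -/
def L32 : List Prf := [(.br (nat_lit 9) (nat_lit 1) (.cons (.ev (nat_lit 20837006741306935047263604573700) (nat_lit 3)) .nil)),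
 (.br (nat_lit 11) (nat_lit 1) (.cons (.br (nat_lit 5) (nat_lit 1) (.cons (.rf (nat_lit 1197) (nat_lit 493858305440582043680)) (.cons (.rf (nat_lit 1197) (nat_lit 458117738797769787424)) .nil))) .nil)),
 (.br (nat_lit 10) (nat_lit 1) (.cons (.br (nat_lit 10) (nat_lit 1) (.cons (.br (nat_lit 12) (nat_lit 1) (.cons (.br (nat_lit 11) (nat_lit 1) (.cons (.rf (nat_lit 1198) (nat_lit 493858305440582043680)) (.cons (.rf (nat_lit 1198) (nat_lit 458117738797769787424)) .nil))) .nil)) .nil)) .nil)),
 (.br (nat_lit 9) (nat_lit 1) (.cons (.kr (nat_lit 79537647524157740256323436544) (nat_lit 36893770721907441664) (nat_lit 3) (nat_lit 0)) .nil)),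
 (.br (nat_lit 10) (nat_lit 1) (.cons (.br (nat_lit 4) (nat_lit 1) (.cons (.rf (nat_lit 1200) (nat_lit 14242959524133701664)) (.cons (.rf (nat_lit 1200) (nat_lit 13126066816545818656)) .nil))) .nil)),
 (.br (nat_lit 10) (nat_lit 1) (.cons (.rf (nat_lit 1201) (nat_lit 14242959524133701664)) (.cons (.rf (nat_lit 1201) (nat_lit 13126066816545818656)) .nil))),
 (.br (nat_lit 7) (nat_lit 0) (.cons (.br (nat_lit 9) (nat_lit 1) (.cons (.rf (nat_lit 974) (nat_lit 14242959488633242626)) .nil)) (.cons (.rf (nat_lit 1202) (nat_lit 14242959524133701664)) (.cons (.rf (nat_lit 1202) (nat_lit 14241868808598947872)) .nil)))),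
 (.br (nat_lit 9) (nat_lit 1) (.cons (.rf (nat_lit 1199) (nat_lit 407901468851537952)) (.cons (.br (nat_lit 9) (nat_lit 1) (.cons (.rf (nat_lit 1199) (nat_lit 407901468851537952)) (.cons (.br (nat_lit 12) (nat_lit 1) (.cons (.br (nat_lit 10) (nat_lit 1) (.cons (.rf (nat_lit 1202) (nat_lit 15433072045018188865)) (.cons (.rf (nat_lit 1203) (nat_lit 15433072045018188865)) (.cons (.rf (nat_lit 1203) (nat_lit 14316179337430305857)) .nil)))) .nil)) .nil))) .nil))),
 (.br (nat_lit 6) (nat_lit 0) (.cons (.rf (nat_lit 1143) (nat_lit 324635210188832)) (.cons (.rf (nat_lit 1189) (nat_lit 321271246193728)) (.cons (.br (nat_lit 5) (nat_lit 1) (.cons (.rf (nat_lit 1204) (nat_lit 407901468851537952)) (.cons (.rf (nat_lit 1204) (nat_lit 407897037523223616)) (.cons (.br (nat_lit 5) (nat_lit 1) (.cons (.rf (nat_lit 1204) (nat_lit 407901468851537952)) (.cons (.rf (nat_lit 1204) (nat_lit 407897037523223616)) (.cons (.rf (nat_lit 789) (nat_lit 15067954479728672)) .nil)))) .nil)))) .nil)))),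
 (.br (nat_lit 6) (nat_lit 0) (.cons (.rf (nat_lit 1143) (nat_lit 324635210188832)) (.cons (.rf (nat_lit 1189) (nat_lit 321271246193728)) (.cons (.rf (nat_lit 1205) (nat_lit 407901468851537952)) (.cons (.rf (nat_lit 1205) (nat_lit 372998571739416608)) .nil))))),
 (.br (nat_lit 11) (nat_lit 1) (.cons (.br (nat_lit 8) (nat_lit 0) (.cons (.br (nat_lit 6) (nat_lit 0) (.cons (.zr (nat_lit 396140812663627465930305635072) (nat_lit 621392593649530364407840770) (nat_lit 10) (nat_lit 2)) .nil)) (.cons (.rf (nat_lit 553) (nat_lit 5990185772862802025)) .nil))) .nil)),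
 (.br (nat_lit 11) (nat_lit 1) (.cons (.rf (nat_lit 1207) (nat_lit 493858305440582043680)) (.cons (.br (nat_lit 11) (nat_lit 1) (.cons (.rf (nat_lit 1207) (nat_lit 493858305440582043680)) .nil)) .nil))),
 (.br (nat_lit 11) (nat_lit 1) (.cons (.rf (nat_lit 1208) (nat_lit 493858305440582043680)) (.cons (.br (nat_lit 11) (nat_lit 1) (.cons (.rf (nat_lit 1208) (nat_lit 493858305440582043680)) .nil)) .nil))),
 (.br (nat_lit 7) (nat_lit 0) (.cons (.br (nat_lit 3) (nat_lit 0) (.cons (.kr (nat_lit 79228162514336395187598655488) (nat_lit 309485009821627643213119488) (nat_lit 3) (nat_lit 0)) .nil)) .nil)),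
 (.br (nat_lit 8) (nat_lit 0) (.cons (.br (nat_lit 4) (nat_lit 0) (.cons (.rf (nat_lit 1210) (nat_lit 14315088588540417089)) (.cons (.ev (nat_lit 20361947255916569333557186527488) (nat_lit 1)) .nil))) .nil)),
 (.br (nat_lit 8) (nat_lit 0) (.cons (.rf (nat_lit 1211) (nat_lit 458082834833293346848)) (.cons (.rf (nat_lit 1211) (nat_lit 493858305440582043680)) .nil))),
 (.br (nat_lit 6) (nat_lit 0) (.cons (.rf (nat_lit 1212) (nat_lit 493858305440582043680)) (.cons (.br (nat_lit 5) (nat_lit 1) (.cons (.br (nat_lit 10) (nat_lit 1) (.cons (.br (nat_lit 8) (nat_lit 0) (.cons (.zr (nat_lit 18981771709441166738176) (nat_lit 621387871283047494762627074) (nat_lit 10) (nat_lit 2)) .nil)) .nil)) (.cons (.br (nat_lit 4) (nat_lit 0) (.cons (.br (nat_lit 8) (nat_lit 0) (.cons (.zr (nat_lit 396140812663627465930305635072) (nat_lit 621392593649530364407840770) (nat_lit 10) (nat_lit 2)) .nil)) (.cons (.br (nat_lit 8) (nat_lit 0) (.cons (.zr (nat_lit 932081806995221461298315272) (nat_lit 28426432617607894008320)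 (nat_lit 10) (nat_lit 0)) .nil)) .nil))) .nil))) .nil))),
 (.br (nat_lit 13) (nat_lit 0) (.cons (.br (nat_lit 11) (nat_lit 1) (.cons (.rf (nat_lit 1208) (nat_lit 493858305440582043680)) (.cons (.rf (nat_lit 1209) (nat_lit 493858305440582043680)) (.cons (.br (nat_lit 11) (nat_lit 1) (.cons (.rf (nat_lit 1208) (nat_lit 493858305440582043680)) (.cons (.rf (nat_lit 1209) (nat_lit 493858305440582043680)) .nil))) .nil)))) (.cons (.br (nat_lit 6) (nat_lit 0) (.cons (.rf (nat_lit 1212) (nat_lit 493858305440582043680)) (.cons (.rf (nat_lit 1213) (nat_lit 493858305440582043680)) (.cons (.br (nat_lit 6) (nat_lit 0) (.cons (.rf (nat_lit 1212) (nat_lit 493858305440582043680)) (.cons (.rf (nat_lit 1213) (nat_lit 493858305440582043680)) .nil))) .nil)))) .nil))),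
 (.br (nat_lit 5) (nat_lit 1) (.cons (.br (nat_lit 9) (nat_lit 1) (.cons (.br (nat_lit 8) (nat_lit 0) (.cons (.ev (nat_lit 1213648258156196664508416) (nat_lit 1)) (.cons (.ev (nat_lit 20521022550946293955903264719361) (nat_lit 2)) .nil))) (.cons (.rf (nat_lit 1189) (nat_lit 324635210188832)) .nil))) (.cons (.br (nat_lit 9) (nat_lit 1) (.cons (.rf (nat_lit 1189) (nat_lit 321271179150400)) (.cons (.br (nat_lit 10) (nat_lit 1) (.cons (.br (nat_lit 6) (nat_lit 0) (.cons (.ev (nat_lit 310693954087985246602526721) (nat_lit 1)) .nil)) .nil)) .nil))) .nil))),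
 (.br (nat_lit 7) (nat_lit 0) (.cons (.kr (nat_lit 79228162514336395187598655488) (nat_lit 309485009821627643213119488) (nat_lit 3) (nat_lit 0)) .nil)),
 (.br (nat_lit 7) (nat_lit 0) (.cons (.kr (nat_lit 79228162514336395187598655488) (nat_lit 309485009821627643213119488) (nat_lit 3) (nat_lit 0)) .nil)),
 (.br (nat_lit 11) (nat_lit 1) (.cons (.rf (nat_lit 1215) (nat_lit 493858305440582043680)) (.cons (.br (nat_lit 4) (nat_lit 0) (.cons (.br (nat_lit 6) (nat_lit 0) (.cons (.br (nat_lit 8) (nat_lit 0) (.cons (.zr (nat_lit 4849870450249493183987716) (nat_lit 396759782590964378105203065344) (nat_lit 10) (nat_lit 5)) .nil)) (.cons (.br (nat_lit 8) (nat_lit 0) (.cons (.ev (nat_lit 20837014023232943433753106318338) (nat_lit 3)) .nil)) .nil))) (.cons (.br (nat_lit 5) (nat_lit 1) (.cons (.rf (nat_lit 1216) (nat_lit 15433072045018188865)) (.cons (.br (nat_lit 6) (nat_lit 0) (.cons (.ev (nat_lit 1213666633689304618042115) (nat_lit 2)) .nil)) .nil))) (.cons (.br (nat_lit 5) (nat_lit 1) (.cons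 (.rf (nat_lit 1217) (nat_lit 15433072045018188865)) (.cons (.br (nat_lit 6) (nat_lit 0) (.cons (.ev (nat_lit 20838247127569238585870211350530) (nat_lit 3)) .nil)) .nil))) .nil)))) .nil))),
 (.br (nat_lit 13) (nat_lit 0) (.cons (.rf (nat_lit 1214) (nat_lit 493858305440582043680)) (.cons (.br (nat_lit 11) (nat_lit 1) (.cons (.rf (nat_lit 1215) (nat_lit 493858305440582043680)) (.cons (.rf (nat_lit 1218) (nat_lit 493858305440582043680)) (.cons (.br (nat_lit 11) (nat_lit 1) (.cons (.rf (nat_lit 1215) (nat_lit 493858305440582043680)) (.cons (.rf (nat_lit 1218) (nat_lit 493858305440582043680)) .nil))) .nil)))) .nil))),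
 (.br (nat_lit 13) (nat_lit 0) (.cons (.rf (nat_lit 1214) (nat_lit 493858305440582043680)) (.cons (.rf (nat_lit 1219) (nat_lit 493858305440582043680)) (.cons (.br (nat_lit 13) (nat_lit 0) (.cons (.rf (nat_lit 1214) (nat_lit 493858305440582043680)) (.cons (.rf (nat_lit 1219) (nat_lit 493858305440582043680)) .nil))) .nil)))),
 (.br (nat_lit 12) (nat_lit 0) (.cons (.rf (nat_lit 742) (nat_lit 14071956640)) (.cons (.rf (nat_lit 1220) (nat_lit 493858305440582043680)) (.cons (.rf (nat_lit 1220) (nat_lit 493823402543469922336)) .nil)))),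
 (.br (nat_lit 5) (nat_lit 1) (.cons (.rf (nat_lit 1221) (nat_lit 458117738797702744096)) (.cons (.br (nat_lit 8) (nat_lit 0) (.cons (.rf (nat_lit 1189) (nat_lit 324635210188832)) (.cons (.br (nat_lit 8) (nat_lit 0) (.cons (.rf (nat_lit 1189) (nat_lit 324635210188832)) (.cons (.rf (nat_lit 1221) (nat_lit 458117737730405468192)) .nil))) (.cons (.br (nat_lit 8) (nat_lit 0) (.cons (.rf (nat_lit 1189) (nat_lit 324635210188832)) (.cons (.rf (nat_lit 1221) (nat_lit 458117737730405468192)) .nil))) .nil)))) (.cons (.br (nat_lit 6) (nat_lit 0) (.cons (.rf (nat_lit 1189) (nat_lit 321271179150400)) (.cons (.br (nat_lit 6) (nat_lit 0) (.cons (.rf (nat_lit 1189) (nat_lit 321271179150400)) (.cons (.rf (nat_lit 1221) (nat_lit 458117734366374429760)) .nil))) (.cons (.br (nat_lit 6) (nat_lit 0) (.cons (.rf (nat_lit 1189) (nat_lit 321271179150400)) (.cons (.rf (nat_lit 1221) (nat_lit 458117734366374429760)) .nil))) .nil)))) .nil)))),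
 (.br (nat_lit 9) (nat_lit 1) (.cons (.br (nat_lit 7) (nat_lit 0) (.cons (.kr (nat_lit 79228162514336395187598655488) (nat_lit 309485009821627643213119488) (nat_lit 3) (nat_lit 0)) .nil)) .nil)),
 (.br (nat_lit 5) (nat_lit 1) (.cons (.br (nat_lit 9) (nat_lit 1) (.cons (.rf (nat_lit 1223) (nat_lit 15433072045018188865)) (.cons (.rf (nat_lit 1189) (nat_lit 324635210188832)) .nil))) (.cons (.br (nat_lit 9) (nat_lit 1) (.cons (.rf (nat_lit 1189) (nat_lit 321271179150400)) (.cons (.br (nat_lit 10) (nat_lit 1) (.cons (.br (nat_lit 6) (nat_lit 0) (.cons (.ev (nat_lit 79849564552790668522754867458) (nat_lit 2)) .nil)) .nil)) .nil))) .nil))),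
 (.br (nat_lit 8) (nat_lit 0) (.cons (.zr (nat_lit 3626961926569419656527872) (nat_lit 1856943115781680876016895745) (nat_lit 10) (nat_lit 9)) .nil)),
 (.br (nat_lit 9) (nat_lit 1) (.cons (.rf (nat_lit 1224) (nat_lit 493858305440582043680)) (.cons (.br (nat_lit 5) (nat_lit 1) (.cons (.br (nat_lit 6) (nat_lit 0) (.cons (.rf (nat_lit 1225) (nat_lit 493858305440582043680)) (.cons (.rf (nat_lit 1225) (nat_lit 493823402543469922336)) .nil))) (.cons (.rf (nat_lit 1189) (nat_lit 324635210188832)) (.cons (.ev (nat_lit 79228167255149623230465114113) (nat_lit 1)) .nil)))) .nil))),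
 (.br (nat_lit 13) (nat_lit 0) (.cons (.rf (nat_lit 1222) (nat_lit 493858305440582043680)) (.cons (.br (nat_lit 9) (nat_lit 1) (.cons (.rf (nat_lit 1224) (nat_lit 493858305440582043680)) (.cons (.rf (nat_lit 1226) (nat_lit 493858305440582043680)) (.cons (.br (nat_lit 9) (nat_lit 1) (.cons (.rf (nat_lit 1224) (nat_lit 493858305440582043680)) (.cons (.rf (nat_lit 1226) (nat_lit 493858305440582043680)) .nil))) .nil)))) .nil))),
 (.br (nat_lit 12) (nat_lit 0) (.cons (.rf (nat_lit 742) (nat_lit 14071956640)) (.cons (.rf (nat_lit 1221) (nat_lit 493858305440582043680)) (.cons (.br (nat_lit 13) (nat_lit 0) (.cons (.rf (nat_lit 1222) (nat_lit 493858305440582043680)) (.cons (.rf (nat_lit 1227) (nat_lit 493858305440582043680)) (.cons (.rf (nat_lit 1227) (nat_lit 493823402543469922336)) .nil)))) .nil)))),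
 (.br (nat_lit 12) (nat_lit 0) (.cons (.rf (nat_lit 742) (nat_lit 14071956640)) (.cons (.rf (nat_lit 1221) (nat_lit 493858305440582043680)) (.cons (.rf (nat_lit 1228) (nat_lit 493858305440582043680)) (.cons (.rf (nat_lit 1228) (nat_lit 493823402543469922336)) .nil))))),
 (.br (nat_lit 8) (nat_lit 0) (.cons (.br (nat_lit 6) (nat_lit 0) (.cons (.zr (nat_lit 81129638414606682258756138500864) (nat_lit 2427315035114052519985152) (nat_lit 10) (nat_lit 1)) (.cons (.zr (nat_lit 81129638414606682258756138500864) (nat_lit 618979483038574931620134912) (nat_lit 10) (nat_lit 1)) .nil))) .nil)),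
 (.br (nat_lit 11) (nat_lit 1) (.cons (.ev (nat_lit 20837011595899966541735062013440) (nat_lit 3)) .nil)),
 (.br (nat_lit 6) (nat_lit 0) (.cons (.br (nat_lit 8) (nat_lit 0) (.cons (.rf (nat_lit 1231) (nat_lit 493858305440582043680)) (.cons (.rf (nat_lit 1231) (nat_lit 493823402543469922336)) .nil))) .nil)),
 (.br (nat_lit 5) (nat_lit 1) (.cons (.rf (nat_lit 742) (nat_lit 8696956064)) (.cons (.ev (nat_lit 1099528405249) (nat_lit 1)) .nil))),
 (.br (nat_lit 5) (nat_lit 1) (.cons (.rf (nat_lit 742) (nat_lit 8696956064)) (.cons (.br (nat_lit 6) (nat_lit 0) (.cons (.rf (nat_lit 1189) (nat_lit 321271179150400)) (.cons (.br (nat_lit 8) (nat_lit 0) (.cons (.ev (nat_lit 1213666705180645839143168) (nat_lit 1)) (.cons (.zr (nat_lit 3626851246383132450160643) (nat_lit 20283028573671529294567690995456) (nat_lit 10) (nat_lit 3)) .nil))) .nil))) .nil))),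
 (.br (nat_lit 6) (nat_lit 0) (.cons (.rf (nat_lit 742) (nat_lit 8696956064)) (.cons (.rf (nat_lit 1189) (nat_lit 321271179150400)) (.cons (.br (nat_lit 6) (nat_lit 0) (.cons (.rf (nat_lit 742) (nat_lit 8696956064)) (.cons (.rf (nat_lit 1189) (nat_lit 321271179150400)) .nil))) .nil))))]

theorem c32 : chkAll C T R L32 (nat_lit 1197) = true := by decide +kernel

theorem l32 : (nat_lit 1197) + L32.length = (nat_lit 1236) := by decide +kernel

/-- part of the certificates -/
def L33 : List Prf := [(.br (nat_lit 10) (nat_lit 1) (.cons (.br (nat_lit 5) (nat_lit 1) (.cons (.rf (nat_lit 1233) (nat_lit 493858305440582043680)) (.cons (.rf (nat_lit 1234) (nat_lit 493858305440582043680)) (.cons (.br (nat_lit 5) (nat_lit 1) (.cons (.ev (nat_lit 1099528405249) (nat_lit 1)) (.cons (.rf (nat_lit 1234) (nat_lit 493858305440582043680)) .nil))) .nil)))) (.cons (.ev (nat_lit 20282410812577562096174775730176) (nat_lit 1)) (.cons (.br (nat_lit 5) (nat_lit 1) (.cons (.rf (nat_lit 1233) (nat_lit 493858305440582043680))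 (.cons (.rf (nat_lit 1235) (nat_lit 15431909825759512608)) (.cons (.br (nat_lit 5) (nat_lit 1) (.cons (.ev (nat_lit 1099528405249) (nat_lit 1)) (.cons (.rf (nat_lit 1235) (nat_lit 15431909825759512608)) .nil))) .nil)))) .nil)))),
 (.br (nat_lit 13) (nat_lit 0) (.cons (.rf (nat_lit 1229) (nat_lit 493858305440582043680)) (.cons (.br (nat_lit 4) (nat_lit 0) (.cons (.br (nat_lit 5) (nat_lit 1) (.cons (.rf (nat_lit 1196) (nat_lit 407901468784494624)) (.cons (.rf (nat_lit 1206) (nat_lit 407901468784494624)) (.cons (.br (nat_lit 9) (nat_lit 1) (.cons (.br (nat_lit 8) (nat_lit 0) (.cons (.rf (nat_lit 1230) (nat_lit 493858305440582043680)) (.cons (.rf (nat_lit 1230) (nat_lit 493823402543469922336)) .nil))) (.cons (.br (nat_lit 6) (nat_lit 0) (.cons (.rf (nat_lit 1232) (nat_lit 493858305440582043680)) (.cons (.rf (nat_lit 1232) (nat_lit 493823402543469922336)) .nil))) (.cons (.kr (nat_lit 4722366482869645213696) (nat_lit 79228162514264337593543950336) (nat_lit 9) (nat_lit 0)) .nil)))) .nil))))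 (.cons (.ev (nat_lit 20282409608374108964415246172161) (nat_lit 1)) (.cons (.rf (nat_lit 1236) (nat_lit 493858305440582043680)) (.cons (.rf (nat_lit 1236) (nat_lit 493823402543469922336)) .nil))))) .nil))),
 (.br (nat_lit 13) (nat_lit 0) (.cons (.rf (nat_lit 1229) (nat_lit 493858305440582043680)) (.cons (.rf (nat_lit 1237) (nat_lit 493858305440582043680)) (.cons (.rf (nat_lit 1237) (nat_lit 493823402543469922336)) .nil)))),
 (.br (nat_lit 13) (nat_lit 0) (.cons (.rf (nat_lit 1229) (nat_lit 493858305440582043680)) (.cons (.rf (nat_lit 1238) (nat_lit 493858305440582043680)) (.cons (.br (nat_lit 13) (nat_lit 0) (.cons (.rf (nat_lit 1229) (nat_lit 493858305440582043680)) (.cons (.rf (nat_lit 1238) (nat_lit 493858305440582043680)) .nil))) .nil)))),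
 (.br (nat_lit 7) (nat_lit 0) (.cons (.rf (nat_lit 742) (nat_lit 7688225888)) (.cons (.rf (nat_lit 1143) (nat_lit 325702574508064)) (.cons (.rf (nat_lit 1189) (nat_lit 325702574508064)) (.cons (.br (nat_lit 7) (nat_lit 0) (.cons (.rf (nat_lit 742) (nat_lit 7688225888)) (.cons (.rf (nat_lit 1143) (nat_lit 325702574508064)) (.cons (.rf (nat_lit 1189) (nat_lit 325702574508064)) (.cons (.br (nat_lit 3) (nat_lit 1) (.cons (.rf (nat_lit 1196) (nat_lit 407901468851537952)) (.cons (.rf (nat_lit 1206) (nat_lit 407901468851537952)) (.cons (.br (nat_lit 12) (nat_lit 1) (.cons (.br (nat_lit 13) (nat_lit 0) (.cons (.rf (nat_lit 1229) (nat_lit 493858305440582043680)) (.cons (.rf (nat_lit 1238) (nat_lit 493858305440582043680)) (.cons (.rf (nat_lit 1239) (nat_lit 493858305440582043680)) (.cons (.rf (nat_lit 1239) (nat_lit 493823402543469922336)) .nil))))) .nil)) .nil)))) .nil))))) .nil))))),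
 (.br (nat_lit 11) (nat_lit 1) (.cons (.rf (nat_lit 681) (nat_lit 11867373355342663688)) .nil)),
 (.br (nat_lit 6) (nat_lit 0) (.cons (.br (nat_lit 11) (nat_lit 1) (.cons (.rf (nat_lit 1241) (nat_lit 14242959524133701664)) (.cons (.rf (nat_lit 1241) (nat_lit 14241868808598947872)) .nil))) .nil)),
 (.br (nat_lit 6) (nat_lit 0) (.cons (.rf (nat_lit 1242) (nat_lit 14242959524133701664)) (.cons (.br (nat_lit 6) (nat_lit 0) (.cons (.rf (nat_lit 1242) (nat_lit 14242959524133701664)) .nil)) .nil))),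
 (.br (nat_lit 13) (nat_lit 1) (.cons (.br (nat_lit 10) (nat_lit 0) (.cons (.rf (nat_lit 455) (nat_lit 437109827943273577)) (.cons (.br (nat_lit 5) (nat_lit 1) (.cons (.br (nat_lit 11) (nat_lit 0) (.cons (.zr (nat_lit 81129638414698915416157552902148) (nat_lit 79230594533003016568947409152) (nat_lit 5) (nat_lit 3)) .nil)) (.cons (.br (nat_lit 7) (nat_lit 0) (.cons (.zr (nat_lit 81129638414698915416157552902148) (nat_lit 79230594533003016568947409152) (nat_lit 5) (nat_lit 3)) .nil)) .nil))) .nil))) .nil)),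
 (.br (nat_lit 13) (nat_lit 1) (.cons (.rf (nat_lit 1244) (nat_lit 493858305440582043680)) (.cons (.br (nat_lit 13) (nat_lit 1) (.cons (.rf (nat_lit 1244) (nat_lit 493858305440582043680)) .nil)) .nil))),
 (.br (nat_lit 13) (nat_lit 1) (.cons (.rf (nat_lit 1245) (nat_lit 493858305440582043680)) (.cons (.br (nat_lit 13) (nat_lit 1) (.cons (.rf (nat_lit 1245) (nat_lit 493858305440582043680)) .nil)) .nil))),
 (.br (nat_lit 4) (nat_lit 0) (.cons (.rf (nat_lit 870) (nat_lit 13343663522921)) (.cons (.br (nat_lit 13) (nat_lit 1) (.cons (.rf (nat_lit 1245) (nat_lit 493858305440582043680)) (.cons (.rf (nat_lit 1246) (nat_lit 493858305440582043680)) (.cons (.br (nat_lit 13) (nat_lit 1) (.cons (.rf (nat_lit 1245) (nat_lit 493858305440582043680)) (.cons (.rf (nat_lit 1246) (nat_lit 493858305440582043680)) .nil))) .nil)))) .nil))),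
 (.br (nat_lit 4) (nat_lit 0) (.cons (.br (nat_lit 4) (nat_lit 0) (.cons (.rf (nat_lit 870) (nat_lit 13343663522921)) (.cons (.rf (nat_lit 1243) (nat_lit 15433072045018188865)) .nil))) (.cons (.rf (nat_lit 1247) (nat_lit 14242959524133701664)) (.cons (.br (nat_lit 4) (nat_lit 0) (.cons (.rf (nat_lit 1243) (nat_lit 15433072045018188865)) (.cons (.rf (nat_lit 1247) (nat_lit 14242959524133701664)) .nil))) .nil)))),
 (.br (nat_lit 13) (nat_lit 1) (.cons (.br (nat_lit 4) (nat_lit 0) (.cons (.br (nat_lit 7) (nat_lit 0) (.cons (.br (nat_lit 10) (nat_lit 0) (.cons (.ev (nat_lit 79228167236702879161033752576) (nat_lit 1)) .nil)) .nil)) (.cons (.br (nat_lit 7) (nat_lit 0) (.cons (.br (nat_lit 10) (nat_lit 0) (.cons (.zr (nat_lit 1547425049106725343691015168) (nat_lit 20361640198184673440516181917697) (nat_lit 5) (nat_lit 0)) .nil)) (.cons (.ev (nat_lit 20361947255898194648177009754113) (nat_lit 1)) .nil))) .nil))) .nil)),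
 (.br (nat_lit 13) (nat_lit 1) (.cons (.rf (nat_lit 1249) (nat_lit 493858305440582043680)) (.cons (.br (nat_lit 13) (nat_lit 1) (.cons (.rf (nat_lit 1249) (nat_lit 493858305440582043680)) .nil)) .nil))),
 (.br (nat_lit 13) (nat_lit 1) (.cons (.rf (nat_lit 1250) (nat_lit 493858305440582043680)) (.cons (.br (nat_lit 13) (nat_lit 1) (.cons (.rf (nat_lit 1250) (nat_lit 493858305440582043680)) .nil)) .nil))),
 (.br (nat_lit 11) (nat_lit 0) (.cons (.rf (nat_lit 1248) (nat_lit 14242959524133701664)) (.cons (.br (nat_lit 13) (nat_lit 1) (.cons (.rf (nat_lit 1250) (nat_lit 493858305440582043680)) (.cons (.rf (nat_lit 1251) (nat_lit 493858305440582043680)) (.cons (.br (nat_lit 13) (nat_lit 1) (.cons (.rf (nat_lit 1250) (nat_lit 493858305440582043680)) (.cons (.rf (nat_lit 1251) (nat_lit 493858305440582043680)) .nil))) .nil)))) .nil))),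
 (.br (nat_lit 11) (nat_lit 0) (.cons (.rf (nat_lit 1248) (nat_lit 14242959524133701664)) (.cons (.rf (nat_lit 1252) (nat_lit 14242959524133701664)) (.cons (.br (nat_lit 11) (nat_lit 0) (.cons (.rf (nat_lit 1248) (nat_lit 14242959524133701664)) (.cons (.rf (nat_lit 1252) (nat_lit 14242959524133701664)) .nil))) .nil)))),
 (.br (nat_lit 11) (nat_lit 0) (.cons (.rf (nat_lit 1248) (nat_lit 14242959524133701664)) (.cons (.rf (nat_lit 1253) (nat_lit 14242959524133701664)) (.cons (.br (nat_lit 11) (nat_lit 0) (.cons (.rf (nat_lit 1248) (nat_lit 14242959524133701664)) (.cons (.rf (nat_lit 1253) (nat_lit 14242959524133701664)) .nil))) .nil)))),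
 (.br (nat_lit 9) (nat_lit 0) (.cons (.rf (nat_lit 330) (nat_lit 118611099096678472)) (.cons (.rf (nat_lit 330) (nat_lit 118606701050171464)) (.cons (.rf (nat_lit 329) (nat_lit 13839695903653928)) .nil)))),
 (.br (nat_lit 12) (nat_lit 1) (.cons (.br (nat_lit 4) (nat_lit 1) (.cons (.kr (nat_lit 309489732187827938386771968) (nat_lit 79228162514264620168032288768) (nat_lit 3) (nat_lit 0)) (.cons (.br (nat_lit 8) (nat_lit 1) (.cons (.kr (nat_lit 620183667828787636286259200) (nat_lit 158456325028601015355614167040) (nat_lit 3) (nat_lit 0)) .nil)) .nil))) .nil)),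
 (.br (nat_lit 12) (nat_lit 1) (.cons (.rf (nat_lit 1256) (nat_lit 14242959524133701664)) (.cons (.br (nat_lit 12) (nat_lit 1) (.cons (.rf (nat_lit 1256) (nat_lit 14242959524133701664)) .nil)) .nil))),
 (.br (nat_lit 7) (nat_lit 0) (.cons (.rf (nat_lit 336) (nat_lit 156932480938773573)) (.cons (.rf (nat_lit 1255) (nat_lit 445092485129178177)) (.cons (.br (nat_lit 4) (nat_lit 0) (.cons (.rf (nat_lit 884) (nat_lit 465312604652835)) (.cons (.br (nat_lit 5) (nat_lit 1) (.cons (.rf (nat_lit 328) (nat_lit 408001526591785249)) (.cons (.ev (nat_lit 79228162532711364246053584896) (nat_lit 1)) .nil))) (.cons (.rf (nat_lit 1257) (nat_lit 15433072045018188865)) .nil)))) .nil)))),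
 (.br (nat_lit 7) (nat_lit 0) (.cons (.rf (nat_lit 1255) (nat_lit 445085888059417665)) (.cons (.br (nat_lit 4) (nat_lit 0) (.cons (.br (nat_lit 11) (nat_lit 0) (.cons (.ev (nat_lit 79537652264970967203973234688) (nat_lit 1)) .nil)) (.cons (.rf (nat_lit 1257) (nat_lit 15433065447948428353)) .nil))) .nil))),
 (.br (nat_lit 11) (nat_lit 0) (.cons (.rf (nat_lit 1258) (nat_lit 14242959524133701664)) (.cons (.rf (nat_lit 1259) (nat_lit 14242959524133701664)) (.cons (.br (nat_lit 11) (nat_lit 0) (.cons (.rf (nat_lit 1258) (nat_lit 14242959524133701664)) (.cons (.rf (nat_lit 1259) (nat_lit 14242959524133701664)) .nil))) .nil)))),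
 (.br (nat_lit 11) (nat_lit 0) (.cons (.rf (nat_lit 1258) (nat_lit 14242959524133701664)) (.cons (.rf (nat_lit 1259) (nat_lit 14242959524133701664)) (.cons (.br (nat_lit 11) (nat_lit 0) (.cons (.rf (nat_lit 1258) (nat_lit 14242959524133701664)) (.cons (.rf (nat_lit 1259) (nat_lit 14242959524133701664)) .nil))) .nil)))),
 (.br (nat_lit 6) (nat_lit 0) (.cons (.rf (nat_lit 328) (nat_lit 367432913672832256)) (.cons (.br (nat_lit 6) (nat_lit 0) (.cons (.rf (nat_lit 328) (nat_lit 367432913672832256)) .nil)) .nil))),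
 (.br (nat_lit 13) (nat_lit 1) (.cons (.br (nat_lit 5) (nat_lit 1) (.cons (.br (nat_lit 9) (nat_lit 1) (.cons (.ev (nat_lit 475684514224940339301852643330) (nat_lit 3)) .nil)) (.cons (.br (nat_lit 7) (nat_lit 0) (.cons (.zr (nat_lit 310708139633896458549199616) (nat_lit 79228162514481355900116336640) (nat_lit 5) (nat_lit 3)) .nil)) .nil))) .nil)),
 (.br (nat_lit 10) (nat_lit 0) (.cons (.ev (nat_lit 79229371458530977771421696256) (nat_lit 1)) (.cons (.rf (nat_lit 1255) (nat_lit 440624139667114081)) (.cons (.br (nat_lit 4) (nat_lit 0) (.cons (.rf (nat_lit 884) (nat_lit 468611139536163)) (.cons (.rf (nat_lit 1262) (nat_lit 445092485129178177)) (.cons (.br (nat_lit 13) (nat_lit 1) (.cons (.rf (nat_lit 1263) (nat_lit 493858305440582043680)) (.cons (.br (nat_lit 13) (nat_lit 1) (.cons (.rf (nat_lit 1263) (nat_lit 493858305440582043680)) .nil)) .nil))) .nil)))) .nil)))),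
 (.br (nat_lit 4) (nat_lit 0) (.cons (.rf (nat_lit 1262) (nat_lit 445083620387984451)) (.cons (.rf (nat_lit 1262) (nat_lit 445083620381693001)) (.cons (.br (nat_lit 3) (nat_lit 1) (.cons (.br (nat_lit 7) (nat_lit 0) (.cons (.rf (nat_lit 4) (nat_lit 15064619535272227)) (.cons (.br (nat_lit 9) (nat_lit 1) (.cons (.rf (nat_lit 329) (nat_lit 14790808995890281)) (.cons (.br (nat_lit 10) (nat_lit 0) (.cons (.br (nat_lit 11) (nat_lit 0) (.cons (.ev (nat_lit 20361638975091826715243279613953) (nat_lit 1)) .nil)) .nil)) .nil))) .nil))) (.cons (.rf (nat_lit 329) (nat_lit 14790808995890467)) (.cons (.rf (nat_lit 1264) (nat_lit 14242959524133701664)) .nil)))) .nil)))),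
 (.br (nat_lit 11) (nat_lit 0) (.cons (.rf (nat_lit 1264) (nat_lit 14242959524133701664)) (.cons (.rf (nat_lit 1265) (nat_lit 14242959524133701664)) (.cons (.br (nat_lit 11) (nat_lit 0) (.cons (.rf (nat_lit 1264) (nat_lit 14242959524133701664)) (.cons (.rf (nat_lit 1265) (nat_lit 14242959524133701664)) .nil))) .nil)))),
 (.br (nat_lit 3) (nat_lit 0) (.cons (.rf (nat_lit 350) (nat_lit 370808275787288648)) (.cons (.br (nat_lit 6) (nat_lit 0) (.cons (.rf (nat_lit 4) (nat_lit 13902400276595970)) (.cons (.br (nat_lit 8) (nat_lit 1) (.cons (.rf (nat_lit 319) (nat_lit 13900270040948740)) (.cons (.rf (nat_lit 1086) (nat_lit 14205867360891674626)) .nil))) .nil))) .nil))),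
 (.br (nat_lit 7) (nat_lit 0) (.cons (.rf (nat_lit 1080) (nat_lit 4928258413169833)) (.cons (.br (nat_lit 4) (nat_lit 0) (.cons (.rf (nat_lit 884) (nat_lit 465312604652835)) (.cons (.br (nat_lit 5) (nat_lit 1) (.cons (.rf (nat_lit 319) (nat_lit 15062489299624997)) (.cons (.br (nat_lit 10) (nat_lit 0) (.cons (.br (nat_lit 11) (nat_lit 0) (.cons (.ev (nat_lit 20282410817299928860519380877568) (nat_lit 1)) .nil)) .nil)) .nil))) .nil))) .nil))),
 (.br (nat_lit 10) (nat_lit 0) (.cons (.rf (nat_lit 1267) (nat_lit 445092485129178177)) (.cons (.rf (nat_lit 1268) (nat_lit 14242959524133701664)) (.cons (.br (nat_lit 10) (nat_lit 0) (.cons (.rf (nat_lit 1267) (nat_lit 445092485129178177)) (.cons (.rf (nat_lit 1268) (nat_lit 14242959524133701664)) .nil))) .nil)))),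
 (.br (nat_lit 3) (nat_lit 1) (.cons (.ev (nat_lit 282587423572482) (nat_lit 2)) (.cons (.rf (nat_lit 1269) (nat_lit 14242959524133701664)) (.cons (.br (nat_lit 4) (nat_lit 0) (.cons (.rf (nat_lit 350) (nat_lit 408008156877360289)) (.cons (.br (nat_lit 7) (nat_lit 0) (.cons (.rf (nat_lit 319) (nat_lit 15062489198961701)) (.cons (.br (nat_lit 9) (nat_lit 1) (.cons (.rf (nat_lit 4) (nat_lit 15064619535370531)) (.cons (.br (nat_lit 10) (nat_lit 0) (.cons (.br (nat_lit 11) (nat_lit 0) (.cons (.ev (nat_lit 20282719088661563827713820590336) (nat_lit 1)) .nil)) .nil)) .nil))) .nil))) .nil))) (.cons (.br (nat_lit 4) (nat_lit 0) (.cons (.ev (nat_lit 79228162532711364246053584896) (nat_lit 1)) (.cons (.br (nat_lit 7) (nat_lit 0) (.cons (.rf (nat_lit 319) (nat_lit 15062489198961701)) (.cons (.br (nat_lit 9) (nat_lit 1) (.cons (.br (nat_lit 10) (nat_lit 0) (.cons (.br (nat_lit 11) (nat_lit 0) (.cons (.ev (nat_lit 158771883057348920406257697798) (nat_lit 3)) .nil)) .nil)) (.cons (.ev (nat_lit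 309485028268090241962803201) (nat_lit 1)) .nil))) .nil))) .nil))) .nil))))),
 (.br (nat_lit 7) (nat_lit 0) (.cons (.rf (nat_lit 1269) (nat_lit 14242959524133701664)) (.cons (.rf (nat_lit 1270) (nat_lit 14242959524133701664)) (.cons (.br (nat_lit 5) (nat_lit 1) (.cons (.rf (nat_lit 884) (nat_lit 465312604652835)) (.cons (.rf (nat_lit 1267) (nat_lit 445085888059417665)) (.cons (.br (nat_lit 3) (nat_lit 1) (.cons (.rf (nat_lit 157) (nat_lit 11518763364191269)) (.cons (.br (nat_lit 4) (nat_lit 0) (.cons (.br (nat_lit 10) (nat_lit 0) (.cons (.br (nat_lit 11) (nat_lit 0) (.cons (.zr (nat_lit 310708139633896458549199616) (nat_lit 79228162514481355900116336640) (nat_lit 5) (nat_lit 3)) .nil)) .nil)) .nil)) (.cons (.rf (nat_lit 157) (nat_lit 11518770645503137)) .nil)))) .nil)))) .nil))))]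

theorem c33 : chkAll C T R L33 (nat_lit 1236) = true := by decide +kernel

theorem l33 : (nat_lit 1236) + L33.length = (nat_lit 1272) := by decide +kernel

/-- part of the certificates -/
def L34 : List Prf := [(.br (nat_lit 12) (nat_lit 1) (.cons (.br (nat_lit 11) (nat_lit 0) (.cons (.rf (nat_lit 1258) (nat_lit 14242959524133701664)) (.cons (.rf (nat_lit 1260) (nat_lit 14242959524133701664)) (.cons (.rf (nat_lit 1261) (nat_lit 14242959524133701664)) (.cons (.br (nat_lit 11) (nat_lit 0) (.cons (.rf (nat_lit 1258) (nat_lit 14242959524133701664)) (.cons (.rf (nat_lit 1260) (nat_lit 14242959524133701664)) (.cons (.rf (nat_lit 1261) (nat_lit 14242959524133701664)) .nil)))) .nil))))) (.cons (.br (nat_lit 11) (nat_lit 0) (.cons (.rf (nat_lit 1264) (nat_lit 14242959524133701664)) (.cons (.rf (nat_lit 1265) (nat_lit 14242959524133701664)) (.cons (.rf (nat_lit 1266) (nat_lit 14242959524133701664)) (.cons (.br (nat_lit 11) (nat_lit 0) (.cons (.rf (nat_lit 1264) (nat_lit 14242959524133701664))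 (.cons (.rf (nat_lit 1265) (nat_lit 14242959524133701664)) (.cons (.rf (nat_lit 1266) (nat_lit 14242959524133701664)) .nil)))) .nil))))) (.cons (.br (nat_lit 7) (nat_lit 0) (.cons (.rf (nat_lit 1269) (nat_lit 14242959524133701664)) (.cons (.rf (nat_lit 1270) (nat_lit 14242959524133701664)) (.cons (.rf (nat_lit 1271) (nat_lit 14242959524133701664)) (.cons (.br (nat_lit 7) (nat_lit 0) (.cons (.rf (nat_lit 1269) (nat_lit 14242959524133701664)) (.cons (.rf (nat_lit 1270) (nat_lit 14242959524133701664)) (.cons (.rf (nat_lit 1271) (nat_lit 14242959524133701664)) .nil)))) .nil))))) .nil)))),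
 (.br (nat_lit 13) (nat_lit 1) (.cons (.br (nat_lit 4) (nat_lit 0) (.cons (.br (nat_lit 9) (nat_lit 1) (.cons (.zr (nat_lit 81129638414662021928010133798916) (nat_lit 79230585088270050829656981760) (nat_lit 5) (nat_lit 3)) .nil)) (.cons (.br (nat_lit 5) (nat_lit 1) (.cons (.zr (nat_lit 618984186886820182949429248) (nat_lit 40564820416284500694749134455296) (nat_lit 10) (nat_lit 5)) .nil)) .nil))) .nil)),
 (.br (nat_lit 7) (nat_lit 0) (.cons (.rf (nat_lit 336) (nat_lit 373105256644676645)) (.cons (.rf (nat_lit 336) (nat_lit 365219498047046761)) (.cons (.br (nat_lit 10) (nat_lit 0) (.cons (.rf (nat_lit 329) (nat_lit 14896501698530341)) (.cons (.rf (nat_lit 329) (nat_lit 14896362112156777)) (.cons (.br (nat_lit 13) (nat_lit 1) (.cons (.rf (nat_lit 1273) (nat_lit 493858305440582043680)) (.cons (.br (nat_lit 13) (nat_lit 1) (.cons (.rf (nat_lit 1273) (nat_lit 493858305440582043680)) .nil)) .nil))) .nil)))) .nil)))),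
 (.br (nat_lit 3) (nat_lit 1) (.cons (.br (nat_lit 4) (nat_lit 0) (.cons (.br (nat_lit 7) (nat_lit 0) (.cons (.ev (nat_lit 79228167236702879161033752576) (nat_lit 1)) .nil)) .nil)) (.cons (.rf (nat_lit 328) (nat_lit 156923616201774147)) (.cons (.rf (nat_lit 328) (nat_lit 156923612980646979)) (.cons (.rf (nat_lit 870) (nat_lit 13473523534885)) .nil))))),
 (.br (nat_lit 11) (nat_lit 0) (.cons (.rf (nat_lit 1274) (nat_lit 14242959524133701664)) (.cons (.rf (nat_lit 1275) (nat_lit 14242959524133701664)) (.cons (.br (nat_lit 11) (nat_lit 0) (.cons (.rf (nat_lit 1274) (nat_lit 14242959524133701664)) (.cons (.rf (nat_lit 1275) (nat_lit 14242959524133701664)) .nil))) .nil)))),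
 (.br (nat_lit 11) (nat_lit 0) (.cons (.rf (nat_lit 1274) (nat_lit 14242959524133701664)) (.cons (.rf (nat_lit 1276) (nat_lit 14242959524133701664)) (.cons (.br (nat_lit 11) (nat_lit 0) (.cons (.rf (nat_lit 1274) (nat_lit 14242959524133701664)) (.cons (.rf (nat_lit 1276) (nat_lit 14242959524133701664)) .nil))) .nil)))),
 (.br (nat_lit 9) (nat_lit 1) (.cons (.rf (nat_lit 4) (nat_lit 15064619535370531)) (.cons (.br (nat_lit 10) (nat_lit 0) (.cons (.br (nat_lit 11) (nat_lit 0) (.cons (.ev (nat_lit 20361947255898122589479165231361) (nat_lit 1)) .nil)) .nil)) .nil))),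
 (.br (nat_lit 4) (nat_lit 0) (.cons (.rf (nat_lit 870) (nat_lit 13411309192297)) (.cons (.br (nat_lit 7) (nat_lit 0) (.cons (.ev (nat_lit 72339069031481601) (nat_lit 1)) (.cons (.rf (nat_lit 1278) (nat_lit 493858305440582043680)) .nil))) .nil))),
 (.br (nat_lit 4) (nat_lit 0) (.cons (.rf (nat_lit 870) (nat_lit 13411309192483)) (.cons (.br (nat_lit 3) (nat_lit 1) (.cons (.rf (nat_lit 329) (nat_lit 14790808936088643)) (.cons (.rf (nat_lit 4) (nat_lit 15064619535370531)) (.cons (.br (nat_lit 7) (nat_lit 0) (.cons (.br (nat_lit 10) (nat_lit 0) (.cons (.br (nat_lit 11) (nat_lit 0) (.cons (.zr (nat_lit 40644051001317646685027329638661) (nat_lit 1237940039285382491135934464) (nat_lit 10) (nat_lit 2)) .nil)) .nil)) .nil)) .nil)))) .nil))),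
 (.br (nat_lit 4) (nat_lit 0) (.cons (.rf (nat_lit 870) (nat_lit 13479965756577)) (.cons (.br (nat_lit 10) (nat_lit 0) (.cons (.rf (nat_lit 113) (nat_lit 12633741001364577)) (.cons (.ev (nat_lit 79229371458530697400234803456) (nat_lit 1)) .nil))) .nil))),
 (.br (nat_lit 3) (nat_lit 1) (.cons (.rf (nat_lit 870) (nat_lit 13479965756577)) (.cons (.rf (nat_lit 1255) (nat_lit 437204588711748673)) (.cons (.rf (nat_lit 113) (nat_lit 12633738916793385)) (.cons (.br (nat_lit 4) (nat_lit 0) (.cons (.br (nat_lit 7) (nat_lit 0) (.cons (.br (nat_lit 10) (nat_lit 0) (.cons (.br (nat_lit 11) (nat_lit 0) (.cons (.ev (nat_lit 20283029792060312721101364068611) (nat_lit 2)) .nil)) .nil)) .nil)) .nil)) .nil))))),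
 (.br (nat_lit 12) (nat_lit 1) (.cons (.rf (nat_lit 1272) (nat_lit 14242959524133701664)) (.cons (.br (nat_lit 11) (nat_lit 0) (.cons (.rf (nat_lit 1274) (nat_lit 14242959524133701664)) (.cons (.rf (nat_lit 1276) (nat_lit 14242959524133701664)) (.cons (.rf (nat_lit 1277) (nat_lit 14242959524133701664)) (.cons (.br (nat_lit 11) (nat_lit 0) (.cons (.rf (nat_lit 1274) (nat_lit 14242959524133701664)) (.cons (.rf (nat_lit 1276) (nat_lit 14242959524133701664)) (.cons (.rf (nat_lit 1277) (nat_lit 14242959524133701664)) .nil)))) .nil))))) (.cons (.br (nat_lit 5) (nat_lit 1) (.cons (.br (nat_lit 10) (nat_lit 0) (.cons (.rf (nat_lit 1279) (nat_lit 14242959524133701664)) (.cons (.rf (nat_lit 1280) (nat_lit 14242959524133701664)) (.cons (.br (nat_lit 10) (nat_lit 0) (.cons (.rf (nat_lit 1279) (nat_lit 14242959524133701664)) (.cons (.rf (nat_lit 1280) (nat_lit 14242959524133701664)) .nil))) .nil)))) (.cons (.rf (nat_lit 1255) (nat_lit 443751045581342755)) (.cons (.br (nat_lit 4) (nat_lit 0)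 (.cons (.rf (nat_lit 1281) (nat_lit 14242959524133701664)) (.cons (.rf (nat_lit 1282) (nat_lit 14242959524133701664)) (.cons (.br (nat_lit 4) (nat_lit 0) (.cons (.rf (nat_lit 1281) (nat_lit 14242959524133701664)) (.cons (.rf (nat_lit 1282) (nat_lit 14242959524133701664)) .nil))) .nil)))) (.cons (.br (nat_lit 11) (nat_lit 0) (.cons (.rf (nat_lit 1262) (nat_lit 437101169191781443)) (.cons (.rf (nat_lit 1262) (nat_lit 437101169185489993)) (.cons (.br (nat_lit 7) (nat_lit 0) (.cons (.rf (nat_lit 329) (nat_lit 15037099540710467)) (.cons (.rf (nat_lit 329) (nat_lit 15037099534419017)) (.cons (.ev (nat_lit 309485028340429310960664833) (nat_lit 1)) .nil)))) .nil)))) .nil))))) .nil)))),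
 (.br (nat_lit 4) (nat_lit 0) (.cons (.rf (nat_lit 870) (nat_lit 13408087966825)) (.cons (.br (nat_lit 7) (nat_lit 0) (.cons (.rf (nat_lit 4) (nat_lit 15064619535272227)) (.cons (.br (nat_lit 9) (nat_lit 1) (.cons (.rf (nat_lit 329) (nat_lit 14790808995890281)) (.cons (.br (nat_lit 13) (nat_lit 1) (.cons (.zr (nat_lit 237684487598133245010350440452) (nat_lit 2422574006839127429939456) (nat_lit 5) (nat_lit 3)) (.cons (.zr (nat_lit 237684487635026733166359478276) (nat_lit 618974742154978144559366400) (nat_lit 5) (nat_lit 3)) .nil))) .nil))) .nil))) .nil))),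
 (.br (nat_lit 4) (nat_lit 0) (.cons (.rf (nat_lit 870) (nat_lit 13408087967011)) (.cons (.br (nat_lit 3) (nat_lit 1) (.cons (.rf (nat_lit 4) (nat_lit 15064619535272227)) (.cons (.rf (nat_lit 329) (nat_lit 14790808995890467)) (.cons (.br (nat_lit 13) (nat_lit 1) (.cons (.zr (nat_lit 79228167236847274720279658754) (nat_lit 36893489259832475648) (nat_lit 5) (nat_lit 2)) (.cons (.zr (nat_lit 3645666925056841081684992) (nat_lit 158456325065422164446920376321) (nat_lit 5) (nat_lit 2)) (.cons (.kr (nat_lit 79228162532711081671548469249) (nat_lit 309489732188109413346705664) (nat_lit 0) (nat_lit 2)) .nil)))) .nil)))) .nil))),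
 (.br (nat_lit 3) (nat_lit 0) (.cons (.rf (nat_lit 870) (nat_lit 12341764786304)) (.cons (.rf (nat_lit 924) (nat_lit 443933599873468544)) .nil))),
 (.br (nat_lit 3) (nat_lit 0) (.cons (.rf (nat_lit 1286) (nat_lit 407901468851537952)) (.cons (.rf (nat_lit 1286) (nat_lit 407894871781777440)) (.cons (.br (nat_lit 3) (nat_lit 0) (.cons (.rf (nat_lit 924) (nat_lit 443933599873468544)) (.cons (.rf (nat_lit 924) (nat_lit 443933393715044480)) .nil))) .nil)))),
 (.br (nat_lit 10) (nat_lit 0) (.cons (.rf (nat_lit 1262) (nat_lit 400015702809182242)) (.cons (.rf (nat_lit 1262) (nat_lit 400015702802890792)) (.cons (.br (nat_lit 9) (nat_lit 0) (.cons (.rf (nat_lit 329) (nat_lit 13874880341836034)) (.cons (.rf (nat_lit 329) (nat_lit 13874880341835848)) (.cons (.br (nat_lit 3) (nat_lit 0) (.cons (.rf (nat_lit 1257) (nat_lit 14234972674886797348)) (.cons (.rf (nat_lit 1257) (nat_lit 14234966077817036836)) (.cons (.br (nat_lit 3) (nat_lit 0) (.cons (.rf (nat_lit 1257) (nat_lit 14234972674886797348))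 (.cons (.rf (nat_lit 1257) (nat_lit 14234966077817036836)) .nil))) .nil)))) .nil)))) .nil)))),
 (.br (nat_lit 12) (nat_lit 1) (.cons (.rf (nat_lit 1272) (nat_lit 14242959524133701664)) (.cons (.rf (nat_lit 1283) (nat_lit 14242959524133701664)) (.cons (.br (nat_lit 5) (nat_lit 1) (.cons (.br (nat_lit 7) (nat_lit 0) (.cons (.rf (nat_lit 1284) (nat_lit 14242959524133701664)) (.cons (.rf (nat_lit 1285) (nat_lit 14242959524133701664)) (.cons (.br (nat_lit 7) (nat_lit 0) (.cons (.rf (nat_lit 1284) (nat_lit 14242959524133701664)) (.cons (.rf (nat_lit 1285) (nat_lit 14242959524133701664)) .nil))) .nil)))) (.cons (.rf (nat_lit 1287) (nat_lit 445092485129178177)) (.cons (.rf (nat_lit 1255) (nat_lit 440373448940029987)) (.cons (.rf (nat_lit 1288) (nat_lit 445092485129178177)) .nil))))) .nil)))),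
 (.br (nat_lit 4) (nat_lit 0) (.cons (.br (nat_lit 7) (nat_lit 0) (.cons (.br (nat_lit 10) (nat_lit 0) (.cons (.br (nat_lit 11) (nat_lit 0) (.cons (.ev (nat_lit 20361637770906820046082499674113) (nat_lit 1)) .nil)) .nil)) .nil)) (.cons (.br (nat_lit 7) (nat_lit 0) (.cons (.ev (nat_lit 4740813509522154848513) (nat_lit 1)) (.cons (.br (nat_lit 9) (nat_lit 1) (.cons (.br (nat_lit 11) (nat_lit 0) (.cons (.ev (nat_lit 20282719093402305278538130915328) (nat_lit 1)) .nil)) (.cons (.br (nat_lit 10) (nat_lit 0) (.cons (.ev (nat_lit 315539176103688890432487940) (nat_lit 3)) .nil)) .nil))) .nil))) .nil))),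
 (.br (nat_lit 11) (nat_lit 0) (.cons (.rf (nat_lit 1290) (nat_lit 493858305440582043680)) (.cons (.br (nat_lit 4) (nat_lit 0) (.cons (.br (nat_lit 7) (nat_lit 0) (.cons (.br (nat_lit 10) (nat_lit 0) (.cons (.ev (nat_lit 20282410817299856521450382950656) (nat_lit 1)) .nil)) .nil)) (.cons (.br (nat_lit 5) (nat_lit 1) (.cons (.ev (nat_lit 4740813509522154848513) (nat_lit 1)) (.cons (.br (nat_lit 7) (nat_lit 0) (.cons (.ev (nat_lit 317223353456095600072204616192) (nat_lit 3)) .nil)) .nil))) .nil))) .nil))),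
 (.br (nat_lit 11) (nat_lit 0) (.cons (.rf (nat_lit 1290) (nat_lit 493858305440582043680)) (.cons (.rf (nat_lit 1291) (nat_lit 493858305440582043680)) (.cons (.br (nat_lit 11) (nat_lit 0) (.cons (.rf (nat_lit 1290) (nat_lit 493858305440582043680)) (.cons (.rf (nat_lit 1291) (nat_lit 493858305440582043680)) .nil))) .nil)))),
 (.br (nat_lit 11) (nat_lit 0) (.cons (.rf (nat_lit 1292) (nat_lit 493858305440582043680)) (.cons (.br (nat_lit 4) (nat_lit 0) (.cons (.br (nat_lit 7) (nat_lit 0) (.cons (.br (nat_lit 10) (nat_lit 0) (.cons (.ev (nat_lit 20440868351291315035154721997569) (nat_lit 2)) .nil)) .nil)) (.cons (.br (nat_lit 3) (nat_lit 1) (.cons (.ev (nat_lit 4740813509522154848513) (nat_lit 1)) (.cons (.br (nat_lit 7) (nat_lit 0) (.cons (.ev (nat_lit 122487057213636254624542947544072) (nat_lit 4)) .nil)) .nil))) .nil))) .nil))),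
 (.br (nat_lit 11) (nat_lit 0) (.cons (.rf (nat_lit 1292) (nat_lit 493858305440582043680)) (.cons (.rf (nat_lit 1293) (nat_lit 493858305440582043680)) (.cons (.br (nat_lit 11) (nat_lit 0) (.cons (.rf (nat_lit 1292) (nat_lit 493858305440582043680)) (.cons (.rf (nat_lit 1293) (nat_lit 493858305440582043680)) .nil))) .nil)))),
 (.br (nat_lit 11) (nat_lit 0) (.cons (.rf (nat_lit 1292) (nat_lit 493858305440582043680)) (.cons (.rf (nat_lit 1294) (nat_lit 493858305440582043680)) (.cons (.br (nat_lit 11) (nat_lit 0) (.cons (.rf (nat_lit 1292) (nat_lit 493858305440582043680)) (.cons (.rf (nat_lit 1294) (nat_lit 493858305440582043680)) .nil))) .nil)))),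
 (.br (nat_lit 3) (nat_lit 1) (.cons (.br (nat_lit 5) (nat_lit 1) (.cons (.br (nat_lit 9) (nat_lit 1) (.cons (.br (nat_lit 11) (nat_lit 0) (.cons (.ev (nat_lit 317223353456095600072204616192) (nat_lit 3)) .nil)) .nil)) (.cons (.br (nat_lit 9) (nat_lit 1) (.cons (.br (nat_lit 11) (nat_lit 0) (.cons (.ev (nat_lit 20361638979832567885687813046273) (nat_lit 1)) .nil)) (.cons (.br (nat_lit 10) (nat_lit 0) (.cons (.ev (nat_lit 81605316893684221069353694659078) (nat_lit 3)) .nil)) .nil))) .nil))) (.cons (.br (nat_lit 5) (nat_lit 1) (.cons (.br (nat_lit 11) (nat_lit 0) (.cons (.br (nat_lit 10) (nat_lit 0) (.cons (.zr (nat_lit 1223111726095282009735936) (nat_lit 40723275532331869525297827151874) (nat_lit 10) (nat_lit 2)) .nil)) (.cons (.ev (nat_lit 20361947251194275189752261050625) (nat_lit 1)) .nil))) (.cons (.ev (nat_lit 79537647524085683761797202176) (nat_lit 1)) .nil))) .nil))),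
 (.br (nat_lit 13) (nat_lit 1) (.cons (.rf (nat_lit 1296) (nat_lit 493858305440582043680)) (.cons (.br (nat_lit 3) (nat_lit 1) (.cons (.br (nat_lit 11) (nat_lit 0) (.cons (.ev (nat_lit 20282409603670189508189487169536) (nat_lit 1)) (.cons (.rf (nat_lit 1113) (nat_lit 11940593067676148771)) .nil))) (.cons (.br (nat_lit 9) (nat_lit 1) (.cons (.ev (nat_lit 20361637770906820046082499674113) (nat_lit 1)) (.cons (.ev (nat_lit 20282720302328124892063499026688) (nat_lit 1)) .nil))) (.cons (.br (nat_lit 9) (nat_lit 1) (.cons (.rf (nat_lit 1113) (nat_lit 11940593067676142633)) (.cons (.ev (nat_lit 20282720302328124892063499026688) (nat_lit 1)) .nil))) .nil)))) .nil))),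
 (.br (nat_lit 13) (nat_lit 1) (.cons (.rf (nat_lit 1296) (nat_lit 493858305440582043680)) (.cons (.rf (nat_lit 1297) (nat_lit 493858305440582043680)) (.cons (.br (nat_lit 13) (nat_lit 1) (.cons (.rf (nat_lit 1296) (nat_lit 493858305440582043680)) (.cons (.rf (nat_lit 1297) (nat_lit 493858305440582043680)) .nil))) .nil)))),
 (.br (nat_lit 13) (nat_lit 1) (.cons (.rf (nat_lit 1298) (nat_lit 493858305440582043680)) (.cons (.br (nat_lit 3) (nat_lit 1) (.cons (.ev (nat_lit 20361637766165935043020066979841) (nat_lit 1)) (.cons (.br (nat_lit 4) (nat_lit 0) (.cons (.rf (nat_lit 1278) (nat_lit 493858305438436657184)) (.cons (.ev (nat_lit 20361637770906820046082499674113) (nat_lit 1)) .nil))) (.cons (.br (nat_lit 9) (nat_lit 1) (.cons (.ev (nat_lit 79228167236703159532220580096) (nat_lit 1)) (.cons (.ev (nat_lit 20283340490718320444044407406595) (nat_lit 2)) .nil))) .nil)))) .nil))),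
 (.br (nat_lit 13) (nat_lit 1) (.cons (.rf (nat_lit 1298) (nat_lit 493858305440582043680)) (.cons (.rf (nat_lit 1299) (nat_lit 493858305440582043680)) (.cons (.br (nat_lit 13) (nat_lit 1) (.cons (.rf (nat_lit 1298) (nat_lit 493858305440582043680)) (.cons (.rf (nat_lit 1299) (nat_lit 493858305440582043680)) .nil))) .nil))))]

theorem c34 : chkAll C T R L34 (nat_lit 1272) = true := by decide +kernel

theorem l34 : (nat_lit 1272) + L34.length = (nat_lit 1301) := by decide +kernel

/-- part of the certificates -/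
def L35 : List Prf := [(.br (nat_lit 13) (nat_lit 1) (.cons (.rf (nat_lit 1298) (nat_lit 493858305440582043680)) (.cons (.rf (nat_lit 1300) (nat_lit 493858305440582043680)) (.cons (.br (nat_lit 13) (nat_lit 1) (.cons (.rf (nat_lit 1298) (nat_lit 493858305440582043680)) (.cons (.rf (nat_lit 1300) (nat_lit 493858305440582043680)) .nil))) .nil)))),
 (.br (nat_lit 12) (nat_lit 1) (.cons (.br (nat_lit 11) (nat_lit 0) (.cons (.rf (nat_lit 1292) (nat_lit 493858305440582043680)) (.cons (.rf (nat_lit 1294) (nat_lit 493858305440582043680)) (.cons (.rf (nat_lit 1295) (nat_lit 493858305440582043680)) (.cons (.br (nat_lit 11) (nat_lit 0) (.cons (.rf (nat_lit 1292) (nat_lit 493858305440582043680)) (.cons (.rf (nat_lit 1294) (nat_lit 493858305440582043680)) (.cons (.rf (nat_lit 1295) (nat_lit 493858305440582043680)) .nil)))) .nil))))) (.cons (.br (nat_lit 13) (nat_lit 1) (.cons (.rf (nat_lit 1298) (nat_lit 493858305440582043680)) (.cons (.rf (nat_lit 1300) (nat_lit 493858305440582043680)) (.cons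 (.rf (nat_lit 1301) (nat_lit 493858305440582043680)) (.cons (.br (nat_lit 13) (nat_lit 1) (.cons (.rf (nat_lit 1298) (nat_lit 493858305440582043680)) (.cons (.rf (nat_lit 1300) (nat_lit 493858305440582043680)) (.cons (.rf (nat_lit 1301) (nat_lit 493858305440582043680)) .nil)))) .nil))))) .nil))),
 (.br (nat_lit 9) (nat_lit 1) (.cons (.ev (nat_lit 79228167236702879161033687296) (nat_lit 1)) (.cons (.ev (nat_lit 4740813509522154848513) (nat_lit 1)) .nil))),
 (.br (nat_lit 5) (nat_lit 1) (.cons (.rf (nat_lit 1303) (nat_lit 493823402543469922336)) (.cons (.rf (nat_lit 1303) (nat_lit 493858305440582043680)) .nil))),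
 (.br (nat_lit 13) (nat_lit 1) (.cons (.br (nat_lit 3) (nat_lit 1) (.cons (.rf (nat_lit 1304) (nat_lit 493858305440582043680)) (.cons (.br (nat_lit 5) (nat_lit 1) (.cons (.ev (nat_lit 1208925891954802012782593) (nat_lit 1)) (.cons (.br (nat_lit 7) (nat_lit 0) (.cons (.ev (nat_lit 4740813509522154848513) (nat_lit 1)) .nil)) .nil))) .nil))) (.cons (.br (nat_lit 3) (nat_lit 1) (.cons (.rf (nat_lit 1304) (nat_lit 493858305440582043680)) (.cons (.br (nat_lit 5) (nat_lit 1) (.cons (.br (nat_lit 9) (nat_lit 1) (.cons (.ev (nat_lit 40644047374576937215202955559681) (nat_lit 2)) .nil)) (.cons (.ev (nat_lit 310693954087703775920849153) (nat_lit 1)) .nil))) (.cons (.br (nat_lit 5) (nat_lit 1) (.cons (.ev (nat_lit 79228162532783420736284983296) (nat_lit 1)) (.cons (.br (nat_lit 7) (nat_lit 0) (.cons (.ev (nat_lit 158458747657947243383032446976) (nat_lit 2)) .nil)) .nil))) .nil)))) .nil))),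
 (.br (nat_lit 13) (nat_lit 1) (.cons (.rf (nat_lit 1305) (nat_lit 493858305440582043680)) (.cons (.br (nat_lit 3) (nat_lit 1) (.cons (.br (nat_lit 7) (nat_lit 0) (.cons (.br (nat_lit 9) (nat_lit 1) (.cons (.ev (nat_lit 202824423683803865878703076934146) (nat_lit 4)) .nil)) (.cons (.ev (nat_lit 79229376162450716567357358336) (nat_lit 1)) .nil))) (.cons (.br (nat_lit 5) (nat_lit 1) (.cons (.br (nat_lit 7) (nat_lit 0) (.cons (.zr (nat_lit 237684487542937694217196011525) (nat_lit 1218388999324446503339008) (nat_lit 10) (nat_lit 5)) .nil)) .nil)) .nil))) .nil))),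
 (.br (nat_lit 13) (nat_lit 1) (.cons (.rf (nat_lit 1305) (nat_lit 493858305440582043680)) (.cons (.rf (nat_lit 1306) (nat_lit 493858305440582043680)) (.cons (.br (nat_lit 13) (nat_lit 1) (.cons (.rf (nat_lit 1305) (nat_lit 493858305440582043680)) (.cons (.rf (nat_lit 1306) (nat_lit 493858305440582043680)) .nil))) .nil)))),
 (.br (nat_lit 13) (nat_lit 1) (.cons (.rf (nat_lit 1307) (nat_lit 493858305440582043680)) (.cons (.br (nat_lit 3) (nat_lit 1) (.cons (.br (nat_lit 7) (nat_lit 0) (.cons (.br (nat_lit 9) (nat_lit 1) (.cons (.ev (nat_lit 41674341101676934027592943536136) (nat_lit 4)) .nil)) (.cons (.ev (nat_lit 20282410817299928860519380811776) (nat_lit 1)) .nil))) (.cons (.br (nat_lit 4) (nat_lit 0) (.cons (.ev (nat_lit 20520094091194464283356165046786) (nat_lit 2)) (.cons (.ev (nat_lit 20361640193499417180430823064320) (nat_lit 2)) .nil))) (.cons (.br (nat_lit 7) (nat_lit 0) (.cons (.ev (nat_lit 79228162532783420736284983296) (nat_lit 1)) (.cons (.kr (nat_lit 20361637766184453563208542715906)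 (nat_lit 310703380373925437189915136) (nat_lit 0) (nat_lit 2)) .nil))) .nil)))) .nil))),
 (.br (nat_lit 13) (nat_lit 1) (.cons (.rf (nat_lit 1307) (nat_lit 493858305440582043680)) (.cons (.rf (nat_lit 1308) (nat_lit 493858305440582043680)) (.cons (.br (nat_lit 13) (nat_lit 1) (.cons (.rf (nat_lit 1307) (nat_lit 493858305440582043680)) (.cons (.rf (nat_lit 1308) (nat_lit 493858305440582043680)) .nil))) .nil)))),
 (.br (nat_lit 13) (nat_lit 1) (.cons (.rf (nat_lit 1307) (nat_lit 493858305440582043680)) (.cons (.rf (nat_lit 1309) (nat_lit 493858305440582043680)) (.cons (.br (nat_lit 13) (nat_lit 1) (.cons (.rf (nat_lit 1307) (nat_lit 493858305440582043680)) (.cons (.rf (nat_lit 1309) (nat_lit 493858305440582043680)) .nil))) .nil)))),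
 (.br (nat_lit 12) (nat_lit 1) (.cons (.rf (nat_lit 1302) (nat_lit 493858305440582043680)) (.cons (.br (nat_lit 13) (nat_lit 1) (.cons (.rf (nat_lit 1307) (nat_lit 493858305440582043680)) (.cons (.rf (nat_lit 1309) (nat_lit 493858305440582043680)) (.cons (.rf (nat_lit 1310) (nat_lit 493858305440582043680)) (.cons (.br (nat_lit 13) (nat_lit 1) (.cons (.rf (nat_lit 1307) (nat_lit 493858305440582043680)) (.cons (.rf (nat_lit 1309) (nat_lit 493858305440582043680)) (.cons (.rf (nat_lit 1310) (nat_lit 493858305440582043680)) .nil)))) .nil))))) .nil))),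
 (.br (nat_lit 12) (nat_lit 1) (.cons (.rf (nat_lit 1302) (nat_lit 493858305440582043680)) (.cons (.rf (nat_lit 1311) (nat_lit 493858305440582043680)) (.cons (.br (nat_lit 12) (nat_lit 1) (.cons (.rf (nat_lit 1302) (nat_lit 493858305440582043680)) (.cons (.rf (nat_lit 1311) (nat_lit 493858305440582043680)) .nil))) .nil)))),
 (.br (nat_lit 5) (nat_lit 1) (.cons (.ev (nat_lit 282587423572482) (nat_lit 2)) (.cons (.br (nat_lit 9) (nat_lit 1) (.cons (.ev (nat_lit 79229376162450716567357358336) (nat_lit 1)) (.cons (.ev (nat_lit 79229376162450436196170465536) (nat_lit 1)) .nil))) .nil))),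
 (.br (nat_lit 8) (nat_lit 1) (.cons (.kr (nat_lit 4722438540463699918848) (nat_lit 1208925819897203663044608) (nat_lit 3) (nat_lit 0)) .nil)),
 (.br (nat_lit 13) (nat_lit 1) (.cons (.br (nat_lit 3) (nat_lit 1) (.cons (.rf (nat_lit 1313) (nat_lit 493858305440582043680)) (.cons (.br (nat_lit 4) (nat_lit 0) (.cons (.rf (nat_lit 1314) (nat_lit 15433072045018188865)) (.cons (.br (nat_lit 5) (nat_lit 1) (.cons (.ev (nat_lit 158771854759899398338229830150) (nat_lit 3)) .nil)) .nil))) .nil))) (.cons (.br (nat_lit 9) (nat_lit 1) (.cons (.br (nat_lit 3) (nat_lit 1) (.cons (.br (nat_lit 5) (nat_lit 1) (.cons (.ev (nat_lit 122011688266884867496199554468866) (nat_lit 4)) .nil)) (.cons (.br (nat_lit 5) (nat_lit 1) (.cons (.ev (nat_lit 158767037872299890624407273990) (nat_lit 3)) .nil)) .nil))) (.cons (.br (nat_lit 3) (nat_lit 1) (.cons (.br (nat_lit 5) (nat_lit 1) (.cons (.ev (nat_lit 203458244186215426125800573632522) (nat_lit 4)) .nil)) (.cons (.ev (nat_lit 79228167236703159532220580096)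 (nat_lit 1)) .nil))) (.cons (.ev (nat_lit 20361947255898122589479165231361) (nat_lit 1)) .nil)))) .nil))),
 (.br (nat_lit 6) (nat_lit 0) (.cons (.kr (nat_lit 4722438540463699918848) (nat_lit 1208925819897203663044608) (nat_lit 3) (nat_lit 0)) .nil)),
 (.br (nat_lit 13) (nat_lit 1) (.cons (.rf (nat_lit 1315) (nat_lit 493858305440582043680)) (.cons (.br (nat_lit 3) (nat_lit 1) (.cons (.rf (nat_lit 1313) (nat_lit 493858305440582043680)) (.cons (.br (nat_lit 4) (nat_lit 0) (.cons (.rf (nat_lit 1127) (nat_lit 408012554990916705)) (.cons (.ev (nat_lit 79229376162450716567357358336) (nat_lit 1)) .nil))) (.cons (.br (nat_lit 5) (nat_lit 1) (.cons (.rf (nat_lit 1316) (nat_lit 15433072045018188865)) (.cons (.ev (nat_lit 79538856449977355985009836288) (nat_lit 1)) .nil))) .nil)))) .nil))),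
 (.br (nat_lit 13) (nat_lit 1) (.cons (.rf (nat_lit 1315) (nat_lit 493858305440582043680)) (.cons (.rf (nat_lit 1317) (nat_lit 493858305440582043680)) (.cons (.br (nat_lit 13) (nat_lit 1) (.cons (.rf (nat_lit 1315) (nat_lit 493858305440582043680)) (.cons (.rf (nat_lit 1317) (nat_lit 493858305440582043680)) .nil))) .nil)))),
 (.br (nat_lit 13) (nat_lit 1) (.cons (.rf (nat_lit 1318) (nat_lit 493858305440582043680)) (.cons (.br (nat_lit 3) (nat_lit 1) (.cons (.br (nat_lit 4) (nat_lit 0) (.cons (.br (nat_lit 9) (nat_lit 1) (.cons (.ev (nat_lit 1109507453377897370648532879878) (nat_lit 4)) .nil)) (.cons (.ev (nat_lit 20361640193499417180430823064320) (nat_lit 2)) .nil))) (.cons (.ev (nat_lit 20361947251194275189752261050625) (nat_lit 1)) .nil))) .nil))),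
 (.br (nat_lit 13) (nat_lit 1) (.cons (.rf (nat_lit 1318) (nat_lit 493858305440582043680)) (.cons (.rf (nat_lit 1319) (nat_lit 493858305440582043680)) (.cons (.br (nat_lit 13) (nat_lit 1) (.cons (.rf (nat_lit 1318) (nat_lit 493858305440582043680)) (.cons (.rf (nat_lit 1319) (nat_lit 493858305440582043680)) .nil))) .nil)))),
 (.br (nat_lit 13) (nat_lit 1) (.cons (.rf (nat_lit 1318) (nat_lit 493858305440582043680)) (.cons (.rf (nat_lit 1320) (nat_lit 493858305440582043680)) (.cons (.br (nat_lit 13) (nat_lit 1) (.cons (.rf (nat_lit 1318) (nat_lit 493858305440582043680)) (.cons (.rf (nat_lit 1320) (nat_lit 493858305440582043680)) .nil))) .nil)))),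
 (.br (nat_lit 12) (nat_lit 1) (.cons (.rf (nat_lit 1312) (nat_lit 493858305440582043680)) (.cons (.br (nat_lit 13) (nat_lit 1) (.cons (.rf (nat_lit 1318) (nat_lit 493858305440582043680)) (.cons (.rf (nat_lit 1320) (nat_lit 493858305440582043680)) (.cons (.rf (nat_lit 1321) (nat_lit 493858305440582043680)) (.cons (.br (nat_lit 13) (nat_lit 1) (.cons (.rf (nat_lit 1318) (nat_lit 493858305440582043680)) (.cons (.rf (nat_lit 1320) (nat_lit 493858305440582043680)) (.cons (.rf (nat_lit 1321) (nat_lit 493858305440582043680)) .nil)))) .nil))))) .nil))),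
 (.br (nat_lit 12) (nat_lit 1) (.cons (.rf (nat_lit 1312) (nat_lit 493858305440582043680)) (.cons (.rf (nat_lit 1322) (nat_lit 493858305440582043680)) (.cons (.br (nat_lit 12) (nat_lit 1) (.cons (.rf (nat_lit 1312) (nat_lit 493858305440582043680)) (.cons (.rf (nat_lit 1322) (nat_lit 493858305440582043680)) .nil))) .nil)))),
 (.br (nat_lit 12) (nat_lit 1) (.cons (.rf (nat_lit 1312) (nat_lit 493858305440582043680)) (.cons (.rf (nat_lit 1323) (nat_lit 493858305440582043680)) (.cons (.br (nat_lit 12) (nat_lit 1) (.cons (.rf (nat_lit 1312) (nat_lit 493858305440582043680)) (.cons (.rf (nat_lit 1323) (nat_lit 493858305440582043680)) .nil))) .nil)))),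
 (.br (nat_lit 8) (nat_lit 0) (.cons (.rf (nat_lit 742) (nat_lit 8696956064)) (.cons (.br (nat_lit 6) (nat_lit 0) (.cons (.rf (nat_lit 742) (nat_lit 8764064864)) (.cons (.br (nat_lit 11) (nat_lit 0) (.cons (.rf (nat_lit 1248) (nat_lit 14242959524133701664)) (.cons (.rf (nat_lit 1253) (nat_lit 14242959524133701664)) (.cons (.rf (nat_lit 1254) (nat_lit 14242959524133701664)) (.cons (.br (nat_lit 11) (nat_lit 0) (.cons (.rf (nat_lit 1248) (nat_lit 14242959524133701664)) (.cons (.rf (nat_lit 1253) (nat_lit 14242959524133701664)) (.cons (.rf (nat_lit 1254) (nat_lit 14242959524133701664)) .nil)))) .nil))))) (.cons (.br (nat_lit 12) (nat_lit 1) (.cons (.rf (nat_lit 1272) (nat_lit 14242959524133701664)) (.cons (.rf (nat_lit 1283) (nat_lit 14242959524133701664)) (.cons (.rf (nat_lit 1289) (nat_lit 14242959524133701664)) (.cons (.br (nat_lit 12) (nat_lit 1) (.cons (.rf (nat_lit 1272) (nat_lit 14242959524133701664)) (.cons (.rf (nat_lit 1283) (nat_lit 14242959524133701664)) (.cons (.rf (nat_lit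 1289) (nat_lit 14242959524133701664)) .nil)))) .nil))))) (.cons (.br (nat_lit 12) (nat_lit 1) (.cons (.rf (nat_lit 1312) (nat_lit 493858305440582043680)) (.cons (.rf (nat_lit 1323) (nat_lit 493858305440582043680)) (.cons (.rf (nat_lit 1324) (nat_lit 493858305440582043680)) (.cons (.br (nat_lit 12) (nat_lit 1) (.cons (.rf (nat_lit 1312) (nat_lit 493858305440582043680)) (.cons (.rf (nat_lit 1323) (nat_lit 493858305440582043680)) (.cons (.rf (nat_lit 1324) (nat_lit 493858305440582043680)) .nil)))) .nil))))) .nil))))) .nil))),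
 (.br (nat_lit 4) (nat_lit 0) (.cons (.br (nat_lit 7) (nat_lit 0) (.cons (.br (nat_lit 10) (nat_lit 0) (.cons (.br (nat_lit 11) (nat_lit 0) (.cons (.ev (nat_lit 40565134737034711571045644501510) (nat_lit 3)) .nil)) .nil)) .nil)) (.cons (.br (nat_lit 10) (nat_lit 0) (.cons (.ev (nat_lit 4777707561719055975170) (nat_lit 2)) (.cons (.br (nat_lit 7) (nat_lit 0) (.cons (.br (nat_lit 11) (nat_lit 0) (.cons (.ev (nat_lit 20282719093402305278538130915328) (nat_lit 1)) .nil)) (.cons (.br (nat_lit 9) (nat_lit 1) (.cons (.ev (nat_lit 20361637770906820046082499674113) (nat_lit 1)) .nil)) .nil))) .nil))) .nil))),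
 (.br (nat_lit 10) (nat_lit 0) (.cons (.rf (nat_lit 1325) (nat_lit 295314677921055808)) (.cons (.br (nat_lit 11) (nat_lit 0) (.cons (.rf (nat_lit 1326) (nat_lit 493858305440582043680)) (.cons (.br (nat_lit 13) (nat_lit 1) (.cons (.ev (nat_lit 20282720297587311383649462583296) (nat_lit 1)) (.cons (.ev (nat_lit 20282719093402377335028362248448) (nat_lit 1)) .nil))) .nil))) .nil))),
 (.br (nat_lit 11) (nat_lit 0) (.cons (.rf (nat_lit 1326) (nat_lit 493858305440582043680)) (.cons (.rf (nat_lit 1327) (nat_lit 493858305440582043680)) (.cons (.br (nat_lit 11) (nat_lit 0) (.cons (.rf (nat_lit 1326) (nat_lit 493858305440582043680)) (.cons (.rf (nat_lit 1327) (nat_lit 493858305440582043680)) .nil))) .nil)))),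
 (.br (nat_lit 10) (nat_lit 0) (.cons (.rf (nat_lit 1325) (nat_lit 295314677854012480)) (.cons (.br (nat_lit 11) (nat_lit 0) (.cons (.rf (nat_lit 1328) (nat_lit 493858305440582043680)) (.cons (.br (nat_lit 3) (nat_lit 1) (.cons (.br (nat_lit 7) (nat_lit 0) (.cons (.ev (nat_lit 20440868351291315035154721997569) (nat_lit 2)) .nil)) (.cons (.br (nat_lit 4) (nat_lit 0) (.cons (.ev (nat_lit 20440868351291315035154721997569) (nat_lit 2)) .nil)) .nil))) .nil))) .nil))),
 (.br (nat_lit 11) (nat_lit 0) (.cons (.rf (nat_lit 1328) (nat_lit 493858305440582043680)) (.cons (.rf (nat_lit 1329) (nat_lit 493858305440582043680)) (.cons (.br (nat_lit 11) (nat_lit 0) (.cons (.rf (nat_lit 1328) (nat_lit 493858305440582043680)) (.cons (.rf (nat_lit 1329) (nat_lit 493858305440582043680)) .nil))) .nil))))]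

theorem c35 : chkAll C T R L35 (nat_lit 1301) = true := by decide +kernel

theorem l35 : (nat_lit 1301) + L35.length = (nat_lit 1331) := by decide +kernel

/-- part of the certificates -/
def L36 : List Prf := [(.br (nat_lit 11) (nat_lit 0) (.cons (.rf (nat_lit 1328) (nat_lit 493858305440582043680)) (.cons (.rf (nat_lit 1330) (nat_lit 493858305440582043680)) (.cons (.br (nat_lit 11) (nat_lit 0) (.cons (.rf (nat_lit 1328) (nat_lit 493858305440582043680)) (.cons (.rf (nat_lit 1330) (nat_lit 493858305440582043680)) .nil))) .nil)))),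
 (.br (nat_lit 11) (nat_lit 0) (.cons (.rf (nat_lit 1328) (nat_lit 493858305440582043680)) (.cons (.rf (nat_lit 1330) (nat_lit 493858305440582043680)) (.cons (.rf (nat_lit 1331) (nat_lit 493858305440582043680)) (.cons (.br (nat_lit 11) (nat_lit 0) (.cons (.rf (nat_lit 1328) (nat_lit 493858305440582043680)) (.cons (.rf (nat_lit 1330) (nat_lit 493858305440582043680)) (.cons (.rf (nat_lit 1331) (nat_lit 493858305440582043680)) .nil)))) .nil))))),
 (.br (nat_lit 5) (nat_lit 1) (.cons (.ev (nat_lit 309485028268090241962803201) (nat_lit 1)) (.cons (.br (nat_lit 9) (nat_lit 1) (.cons (.ev (nat_lit 309489732188110517170077953) (nat_lit 1)) (.cons (.zr (nat_lit 3298551660545) (nat_lit 1218370552861843441844224) (nat_lit 5) (nat_lit 0)) .nil))) .nil))),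
 (.br (nat_lit 13) (nat_lit 1) (.cons (.rf (nat_lit 1332) (nat_lit 458117738797769787424)) (.cons (.br (nat_lit 3) (nat_lit 1) (.cons (.ev (nat_lit 20361637766166007100609826717953) (nat_lit 1)) (.cons (.rf (nat_lit 1333) (nat_lit 493858305440582043680)) .nil))) .nil))),
 (.br (nat_lit 13) (nat_lit 1) (.cons (.rf (nat_lit 1332) (nat_lit 458117738797769787424)) (.cons (.br (nat_lit 3) (nat_lit 1) (.cons (.br (nat_lit 9) (nat_lit 1) (.cons (.ev (nat_lit 40564821629895794148534055535360) (nat_lit 2)) (.cons (.ev (nat_lit 20441484912904050898823192576769) (nat_lit 2)) .nil))) (.cons (.br (nat_lit 9) (nat_lit 1) (.cons (.br (nat_lit 5) (nat_lit 1) (.cons (.ev (nat_lit 81605316893684221069353694659078) (nat_lit 3)) .nil)) (.cons (.ev (nat_lit 20282720302328124892063499026688) (nat_lit 1)) .nil))) (.cons (.rf (nat_lit 1333) (nat_lit 493858305440582043680)) .nil)))) .nil))),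
 (.br (nat_lit 13) (nat_lit 1) (.cons (.rf (nat_lit 1334) (nat_lit 493858305440582043680)) (.cons (.rf (nat_lit 1335) (nat_lit 493858305440582043680)) (.cons (.br (nat_lit 13) (nat_lit 1) (.cons (.rf (nat_lit 1334) (nat_lit 493858305440582043680)) (.cons (.rf (nat_lit 1335) (nat_lit 493858305440582043680)) .nil))) .nil)))),
 (.br (nat_lit 4) (nat_lit 1) (.cons (.kr (nat_lit 4722438540463699918848) (nat_lit 1208925819897203663044608) (nat_lit 3) (nat_lit 0)) .nil)),
 (.br (nat_lit 3) (nat_lit 0) (.cons (.rf (nat_lit 1337) (nat_lit 14242955126091384864)) (.cons (.rf (nat_lit 1337) (nat_lit 14242959524133701664)) .nil))),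
 (.br (nat_lit 13) (nat_lit 1) (.cons (.rf (nat_lit 1332) (nat_lit 458117738797769787424)) (.cons (.br (nat_lit 3) (nat_lit 1) (.cons (.ev (nat_lit 20361637766166007100609826717953) (nat_lit 1)) (.cons (.br (nat_lit 9) (nat_lit 1) (.cons (.br (nat_lit 5) (nat_lit 1) (.cons (.ev (nat_lit 81605316893684221069353694659078) (nat_lit 3)) .nil)) (.cons (.ev (nat_lit 20361947255898122589479165231361) (nat_lit 1)) .nil))) (.cons (.rf (nat_lit 1338) (nat_lit 15433072045018188865)) .nil)))) .nil))),
 (.br (nat_lit 13) (nat_lit 1) (.cons (.rf (nat_lit 1336) (nat_lit 493858305440582043680)) (.cons (.rf (nat_lit 1339) (nat_lit 493858305440582043680)) (.cons (.br (nat_lit 13) (nat_lit 1) (.cons (.rf (nat_lit 1336) (nat_lit 493858305440582043680)) (.cons (.rf (nat_lit 1339) (nat_lit 493858305440582043680)) .nil))) .nil)))),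
 (.br (nat_lit 13) (nat_lit 1) (.cons (.rf (nat_lit 1336) (nat_lit 493858305440582043680)) (.cons (.rf (nat_lit 1340) (nat_lit 493858305440582043680)) (.cons (.br (nat_lit 13) (nat_lit 1) (.cons (.rf (nat_lit 1336) (nat_lit 493858305440582043680)) (.cons (.rf (nat_lit 1340) (nat_lit 493858305440582043680)) .nil))) .nil)))),
 (.br (nat_lit 12) (nat_lit 1) (.cons (.rf (nat_lit 1332) (nat_lit 493858305440582043680)) (.cons (.br (nat_lit 13) (nat_lit 1) (.cons (.rf (nat_lit 1336) (nat_lit 493858305440582043680)) (.cons (.rf (nat_lit 1340) (nat_lit 493858305440582043680)) (.cons (.rf (nat_lit 1341) (nat_lit 493858305440582043680)) (.cons (.br (nat_lit 13) (nat_lit 1) (.cons (.rf (nat_lit 1336) (nat_lit 493858305440582043680)) (.cons (.rf (nat_lit 1340) (nat_lit 493858305440582043680)) (.cons (.rf (nat_lit 1341) (nat_lit 493858305440582043680)) .nil)))) .nil))))) .nil))),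
 (.br (nat_lit 13) (nat_lit 1) (.cons (.rf (nat_lit 1342) (nat_lit 458117738797769787424)) (.cons (.br (nat_lit 12) (nat_lit 1) (.cons (.rf (nat_lit 1342) (nat_lit 493858305440582043680)) (.cons (.br (nat_lit 3) (nat_lit 1) (.cons (.br (nat_lit 5) (nat_lit 1) (.cons (.ev (nat_lit 36966392374050685186) (nat_lit 2)) (.cons (.br (nat_lit 7) (nat_lit 0) (.cons (.ev (nat_lit 122170136105654590136026856097536) (nat_lit 3)) .nil)) .nil))) (.cons (.rf (nat_lit 1333) (nat_lit 493858305440582043680)) .nil))) .nil))) .nil))),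
 (.br (nat_lit 13) (nat_lit 1) (.cons (.rf (nat_lit 1342) (nat_lit 458117738797769787424)) (.cons (.rf (nat_lit 1343) (nat_lit 458117738797769787424)) (.cons (.rf (nat_lit 1343) (nat_lit 493858305440582043680)) .nil)))),
 (.br (nat_lit 13) (nat_lit 1) (.cons (.rf (nat_lit 1342) (nat_lit 458117738797769787424)) (.cons (.br (nat_lit 3) (nat_lit 1) (.cons (.br (nat_lit 5) (nat_lit 1) (.cons (.br (nat_lit 9) (nat_lit 1) (.cons (.ev (nat_lit 1109521903818326145437731522566) (nat_lit 4)) .nil)) (.cons (.br (nat_lit 7) (nat_lit 0) (.cons (.ev (nat_lit 243864602232638808305181808526346) (nat_lit 4)) .nil)) .nil))) (.cons (.br (nat_lit 11) (nat_lit 0) (.cons (.ev (nat_lit 20282720297587383442338717171968) (nat_lit 1)) (.cons (.ev (nat_lit 40644358077939008510650705182721) (nat_lit 2)) .nil))) (.cons (.ev (nat_lit 20361638975091754657644963496193) (nat_lit 1)) .nil)))) .nil))),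
 (.br (nat_lit 13) (nat_lit 1) (.cons (.rf (nat_lit 1342) (nat_lit 458117738797769787424)) (.cons (.rf (nat_lit 1345) (nat_lit 493858305440582043680)) (.cons (.br (nat_lit 13) (nat_lit 1) (.cons (.rf (nat_lit 1342) (nat_lit 458117738797769787424)) (.cons (.rf (nat_lit 1345) (nat_lit 493858305440582043680)) .nil))) .nil)))),
 (.br (nat_lit 13) (nat_lit 1) (.cons (.rf (nat_lit 1343) (nat_lit 458117738797769787424)) (.cons (.rf (nat_lit 1346) (nat_lit 493858305440582043680)) (.cons (.br (nat_lit 13) (nat_lit 1) (.cons (.rf (nat_lit 1343) (nat_lit 493858305440582043680)) (.cons (.rf (nat_lit 1346) (nat_lit 493858305440582043680)) .nil))) .nil)))),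
 (.br (nat_lit 12) (nat_lit 1) (.cons (.rf (nat_lit 1342) (nat_lit 493858305440582043680)) (.cons (.br (nat_lit 13) (nat_lit 1) (.cons (.rf (nat_lit 1344) (nat_lit 493858305440582043680)) (.cons (.rf (nat_lit 1346) (nat_lit 493858305440582043680)) (.cons (.rf (nat_lit 1347) (nat_lit 493858305440582043680)) (.cons (.br (nat_lit 13) (nat_lit 1) (.cons (.rf (nat_lit 1343) (nat_lit 493858305440582043680)) (.cons (.rf (nat_lit 1346) (nat_lit 493858305440582043680)) (.cons (.rf (nat_lit 1347) (nat_lit 493858305440582043680)) .nil)))) .nil))))) .nil))),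
 (.br (nat_lit 12) (nat_lit 1) (.cons (.rf (nat_lit 1342) (nat_lit 493858305440582043680)) (.cons (.rf (nat_lit 1348) (nat_lit 493858305440582043680)) (.cons (.br (nat_lit 12) (nat_lit 1) (.cons (.rf (nat_lit 1342) (nat_lit 493858305440582043680)) (.cons (.rf (nat_lit 1348) (nat_lit 493858305440582043680)) .nil))) .nil)))),
 (.br (nat_lit 3) (nat_lit 0) (.cons (.kr (nat_lit 4722438540463699918848) (nat_lit 1208925819897203663044608) (nat_lit 3) (nat_lit 0)) .nil)),
 (.br (nat_lit 13) (nat_lit 1) (.cons (.rf (nat_lit 1349) (nat_lit 458117738797769787424)) (.cons (.br (nat_lit 12) (nat_lit 1) (.cons (.rf (nat_lit 1349) (nat_lit 493858305440582043680)) (.cons (.br (nat_lit 5) (nat_lit 1) (.cons (.br (nat_lit 3) (nat_lit 1) (.cons (.br (nat_lit 9) (nat_lit 1) (.cons (.ev (nat_lit 285063241838388152545735016974852) (nat_lit 4)) .nil)) (.cons (.rf (nat_lit 1350) (nat_lit 15433072045018188865)) .nil))) (.cons (.ev (nat_lit 20361947251194275190851755901185) (nat_lit 1)) .nil))) .nil)))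 .nil))),
 (.br (nat_lit 13) (nat_lit 1) (.cons (.rf (nat_lit 1349) (nat_lit 458117738797769787424)) (.cons (.rf (nat_lit 1351) (nat_lit 493858305440582043680)) .nil))),
 (.br (nat_lit 12) (nat_lit 1) (.cons (.rf (nat_lit 1349) (nat_lit 493858305440582043680)) (.cons (.br (nat_lit 13) (nat_lit 1) (.cons (.rf (nat_lit 1349) (nat_lit 458117738797769787424)) (.cons (.br (nat_lit 13) (nat_lit 1) (.cons (.rf (nat_lit 1349) (nat_lit 458117738797769787424)) (.cons (.rf (nat_lit 1351) (nat_lit 458117738797769787424)) (.cons (.rf (nat_lit 1351) (nat_lit 493858305440582043680)) .nil)))) (.cons (.br (nat_lit 13) (nat_lit 1) (.cons (.rf (nat_lit 1349) (nat_lit 458117738797769787424)) (.cons (.rf (nat_lit 1351) (nat_lit 458117738797769787424)) (.cons (.rf (nat_lit 1352) (nat_lit 493858305440582043680)) .nil)))) (.cons (.br (nat_lit 13) (nat_lit 1) (.cons (.rf (nat_lit 1349) (nat_lit 458117738797769787424)) (.cons (.rf (nat_lit 1351) (nat_lit 493858305440582043680)) (.cons (.rf (nat_lit 1352)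 (nat_lit 493858305440582043680)) .nil)))) .nil))))) .nil))),
 (.br (nat_lit 12) (nat_lit 1) (.cons (.rf (nat_lit 1349) (nat_lit 493858305440582043680)) (.cons (.rf (nat_lit 1353) (nat_lit 493858305440582043680)) (.cons (.br (nat_lit 12) (nat_lit 1) (.cons (.rf (nat_lit 1349) (nat_lit 493858305440582043680)) (.cons (.rf (nat_lit 1353) (nat_lit 493858305440582043680)) .nil))) .nil)))),
 (.br (nat_lit 12) (nat_lit 1) (.cons (.rf (nat_lit 1349) (nat_lit 493858305440582043680)) (.cons (.rf (nat_lit 1354) (nat_lit 493858305440582043680)) (.cons (.br (nat_lit 12) (nat_lit 1) (.cons (.rf (nat_lit 1349) (nat_lit 493858305440582043680)) (.cons (.rf (nat_lit 1354) (nat_lit 493858305440582043680)) .nil))) .nil)))),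
 (.br (nat_lit 12) (nat_lit 1) (.cons (.rf (nat_lit 1349) (nat_lit 493858305440582043680)) (.cons (.rf (nat_lit 1354) (nat_lit 493858305440582043680)) (.cons (.rf (nat_lit 1355) (nat_lit 493858305440582043680)) (.cons (.br (nat_lit 12) (nat_lit 1) (.cons (.rf (nat_lit 1349) (nat_lit 493858305440582043680)) (.cons (.rf (nat_lit 1354) (nat_lit 493858305440582043680)) (.cons (.rf (nat_lit 1355) (nat_lit 493858305440582043680)) .nil)))) .nil))))),
 (.br (nat_lit 4) (nat_lit 0) (.cons (.br (nat_lit 7) (nat_lit 0) (.cons (.br (nat_lit 10) (nat_lit 0) (.cons (.br (nat_lit 11) (nat_lit 0) (.cons (.ev (nat_lit 79229376162522493785930203136) (nat_lit 1)) .nil)) .nil)) (.cons (.br (nat_lit 9) (nat_lit 1) (.cons (.br (nat_lit 11) (nat_lit 0) (.cons (.ev (nat_lit 79537652264899192184423579648) (nat_lit 1)) .nil)) (.cons (.br (nat_lit 10) (nat_lit 0) (.cons (.zr (nat_lit 2436759552186294206660608) (nat_lit 20283647543691244035697830527232) (nat_lit 5) (nat_lit 1)) .nil)) .nil))) .nil))) (.cons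 (.br (nat_lit 7) (nat_lit 0) (.cons (.br (nat_lit 9) (nat_lit 1) (.cons (.br (nat_lit 11) (nat_lit 0) (.cons (.ev (nat_lit 158771854759899398338229960710) (nat_lit 3)) .nil)) (.cons (.br (nat_lit 10) (nat_lit 0) (.cons (.ev (nat_lit 79537652264899192184423579648) (nat_lit 1)) .nil)) .nil))) (.cons (.ev (nat_lit 79228162532711364246053584896) (nat_lit 1)) .nil))) .nil))),
 (.br (nat_lit 11) (nat_lit 0) (.cons (.rf (nat_lit 1357) (nat_lit 493858305440582043680)) (.cons (.br (nat_lit 5) (nat_lit 1) (.cons (.br (nat_lit 10) (nat_lit 0) (.cons (.br (nat_lit 7) (nat_lit 0) (.cons (.ev (nat_lit 79537652264899192184423579648) (nat_lit 1)) .nil)) (.cons (.ev (nat_lit 20361948460120022465316716019713) (nat_lit 1)) .nil))) (.cons (.br (nat_lit 4) (nat_lit 0) (.cons (.br (nat_lit 10) (nat_lit 0) (.cons (.zr (nat_lit 1223111366088795386740736) (nat_lit 20283338058681350633035067818240) (nat_lit 5) (nat_lit 1)) .nil)) (.cons (.ev (nat_lit 79228162532711364246053584896) (nat_lit 1)) .nil))) (.cons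 (.rf (nat_lit 1325) (nat_lit 295314677921055808)) .nil)))) .nil))),
 (.br (nat_lit 11) (nat_lit 0) (.cons (.rf (nat_lit 1357) (nat_lit 493858305440582043680)) (.cons (.rf (nat_lit 1358) (nat_lit 493858305440582043680)) (.cons (.br (nat_lit 11) (nat_lit 0) (.cons (.rf (nat_lit 1357) (nat_lit 493858305440582043680)) (.cons (.rf (nat_lit 1358) (nat_lit 493858305440582043680)) .nil))) .nil)))),
 (.br (nat_lit 11) (nat_lit 0) (.cons (.rf (nat_lit 1359) (nat_lit 493858305440582043680)) (.cons (.br (nat_lit 10) (nat_lit 0) (.cons (.rf (nat_lit 1325) (nat_lit 295314677854012480)) (.cons (.ev (nat_lit 20282719093402304995959330898176) (nat_lit 1)) (.cons (.br (nat_lit 3) (nat_lit 1) (.cons (.br (nat_lit 7) (nat_lit 0) (.cons (.ev (nat_lit 79537652264899192184423579648) (nat_lit 1)) .nil)) (.cons (.br (nat_lit 4) (nat_lit 0) (.cons (.zr (nat_lit 1223111366088795386740736) (nat_lit 20283338058681350633035067818240) (nat_lit 5) (nat_lit 1)) .nil)) .nil))) .nil)))) .nil))),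
 (.br (nat_lit 11) (nat_lit 0) (.cons (.rf (nat_lit 1359) (nat_lit 493858305440582043680)) (.cons (.rf (nat_lit 1360) (nat_lit 493858305440582043680)) (.cons (.br (nat_lit 11) (nat_lit 0) (.cons (.rf (nat_lit 1359) (nat_lit 493858305440582043680)) (.cons (.rf (nat_lit 1360) (nat_lit 493858305440582043680)) .nil))) .nil)))),
 (.br (nat_lit 11) (nat_lit 0) (.cons (.rf (nat_lit 1359) (nat_lit 493858305440582043680)) (.cons (.rf (nat_lit 1361) (nat_lit 493858305440582043680)) (.cons (.br (nat_lit 11) (nat_lit 0) (.cons (.rf (nat_lit 1359) (nat_lit 493858305440582043680)) (.cons (.rf (nat_lit 1361) (nat_lit 493858305440582043680)) .nil))) .nil))))]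

theorem c36 : chkAll C T R L36 (nat_lit 1331) = true := by decide +kernel

theorem l36 : (nat_lit 1331) + L36.length = (nat_lit 1363) := by decide +kernel

/-- part of the certificates -/
def L37 : List Prf := [(.br (nat_lit 12) (nat_lit 1) (.cons (.ev (nat_lit 79229371458530697400234803456) (nat_lit 1)) .nil)),
 (.br (nat_lit 3) (nat_lit 1) (.cons (.br (nat_lit 5) (nat_lit 1) (.cons (.rf (nat_lit 1363) (nat_lit 493858305440582043680)) (.cons (.br (nat_lit 9) (nat_lit 1) (.cons (.br (nat_lit 11) (nat_lit 0) (.cons (.ev (nat_lit 122011679775959033242061109330438) (nat_lit 3)) .nil)) (.cons (.rf (nat_lit 1325) (nat_lit 295314677854012480)) .nil))) .nil))) (.cons (.br (nat_lit 5) (nat_lit 1) (.cons (.br (nat_lit 9) (nat_lit 1) (.cons (.ev (nat_lit 1213666704900266095869953) (nat_lit 1)) (.cons (.rf (nat_lit 1325) (nat_lit 295314677921055808)) .nil))) (.cons (.ev (nat_lit 20282719088661491770115504537856) (nat_lit 1)) .nil))) .nil))),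
 (.br (nat_lit 12) (nat_lit 1) (.cons (.rf (nat_lit 1364) (nat_lit 493858305440582043680)) (.cons (.br (nat_lit 3) (nat_lit 1) (.cons (.br (nat_lit 5) (nat_lit 1) (.cons (.rf (nat_lit 1267) (nat_lit 481121143665984675)) (.cons (.br (nat_lit 9) (nat_lit 1) (.cons (.ev (nat_lit 40564820430451816317235417317376) (nat_lit 2)) .nil)) .nil))) (.cons (.br (nat_lit 5) (nat_lit 1) (.cons (.br (nat_lit 9) (nat_lit 1) (.cons (.ev (nat_lit 20361638979832567885687813046273) (nat_lit 1)) .nil)) (.cons (.ev (nat_lit 20361638975091754377273776537601) (nat_lit 1)) .nil))) (.cons (.br (nat_lit 7) (nat_lit 0) (.cons (.ev (nat_lit 309485028268090241962803201) (nat_lit 1)) (.cons (.rf (nat_lit 538) (nat_lit 373109656838605865)) .nil))) .nil)))) .nil))),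
 (.br (nat_lit 12) (nat_lit 1) (.cons (.rf (nat_lit 1364) (nat_lit 493858305440582043680)) (.cons (.rf (nat_lit 1365) (nat_lit 493858305440582043680)) (.cons (.br (nat_lit 12) (nat_lit 1) (.cons (.rf (nat_lit 1364) (nat_lit 493858305440582043680)) (.cons (.rf (nat_lit 1365) (nat_lit 493858305440582043680)) .nil))) .nil)))),
 (.br (nat_lit 9) (nat_lit 0) (.cons (.kr (nat_lit 4722438540463699918848) (nat_lit 1208925819897203663044608) (nat_lit 3) (nat_lit 0)) .nil)),
 (.br (nat_lit 11) (nat_lit 0) (.cons (.ev (nat_lit 20282719088661491770115504537856) (nat_lit 1)) (.cons (.br (nat_lit 5) (nat_lit 1) (.cons (.rf (nat_lit 1367) (nat_lit 15433072045018188865)) (.cons (.rf (nat_lit 1356) (nat_lit 493745718649651561536)) .nil))) .nil))),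
 (.br (nat_lit 11) (nat_lit 0) (.cons (.ev (nat_lit 20282719088661491770115504537856) (nat_lit 1)) (.cons (.br (nat_lit 10) (nat_lit 0) (.cons (.ev (nat_lit 40565131129146501640317311256070) (nat_lit 3)) (.cons (.ev (nat_lit 20361947251194275190851755835393) (nat_lit 1)) .nil))) .nil))),
 (.br (nat_lit 9) (nat_lit 1) (.cons (.rf (nat_lit 1366) (nat_lit 493858305440582043680)) (.cons (.br (nat_lit 11) (nat_lit 0) (.cons (.rf (nat_lit 1368) (nat_lit 493858305440582043680)) (.cons (.rf (nat_lit 1369) (nat_lit 493858305440582043680)) (.cons (.br (nat_lit 11) (nat_lit 0) (.cons (.rf (nat_lit 1368) (nat_lit 493858305440582043680)) (.cons (.rf (nat_lit 1369) (nat_lit 493858305440582043680)) .nil))) .nil)))) (.cons (.br (nat_lit 3) (nat_lit 1) (.cons (.br (nat_lit 5) (nat_lit 1) (.cons (.br (nat_lit 10) (nat_lit 0) (.cons (.br (nat_lit 11) (nat_lit 0) (.cons (.ev (nat_lit 20361947255898122589479165231361) (nat_lit 1)) .nil)) .nil)) (.cons (.ev (nat_lit 20282719093402305278538130981120)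 (nat_lit 1)) .nil))) (.cons (.br (nat_lit 11) (nat_lit 0) (.cons (.rf (nat_lit 1325) (nat_lit 295314677854012480)) (.cons (.br (nat_lit 10) (nat_lit 0) (.cons (.br (nat_lit 4) (nat_lit 0) (.cons (.ev (nat_lit 81288410288256047021207702340610) (nat_lit 3)) .nil)) (.cons (.ev (nat_lit 20361947255898122589479165231361) (nat_lit 1)) .nil))) .nil))) (.cons (.ev (nat_lit 20282719093402377335028362313728) (nat_lit 1)) .nil)))) .nil)))),
 (.br (nat_lit 9) (nat_lit 1) (.cons (.rf (nat_lit 1366) (nat_lit 493858305440582043680)) (.cons (.rf (nat_lit 1370) (nat_lit 493858305440582043680)) (.cons (.br (nat_lit 4) (nat_lit 0) (.cons (.br (nat_lit 10) (nat_lit 0) (.cons (.ev (nat_lit 20282410812595937064125129097216) (nat_lit 1)) (.cons (.br (nat_lit 5) (nat_lit 1) (.cons (.br (nat_lit 11) (nat_lit 0) (.cons (.ev (nat_lit 243389240473293038574346271720452) (nat_lit 4)) .nil)) (.cons (.br (nat_lit 7) (nat_lit 0) (.cons (.zr (nat_lit 123095123203902492639242) (nat_lit 40571319601435628543122765775360)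 (nat_lit 60) (nat_lit 3)) .nil)) .nil))) .nil))) (.cons (.br (nat_lit 7) (nat_lit 0) (.cons (.rf (nat_lit 1098) (nat_lit 14243101396598658145)) (.cons (.br (nat_lit 11) (nat_lit 0) (.cons (.zr (nat_lit 618970019643816080423520000) (nat_lit 162259276833991142173058915172357) (nat_lit 15) (nat_lit 1)) (.cons (.ev (nat_lit 20361947255898122589479165231361) (nat_lit 1)) .nil))) .nil))) (.cons (.br (nat_lit 3) (nat_lit 1) (.cons (.br (nat_lit 5) (nat_lit 1) (.cons (.br (nat_lit 11) (nat_lit 0) (.cons (.zr (nat_lit 40723275532332231226123245060103) (nat_lit 1223203599527684713154560) (nat_lit 15) (nat_lit 5)) .nil)) (.cons (.ev (nat_lit 4740885567111881097473) (nat_lit 1)) .nil))) (.cons (.br (nat_lit 11) (nat_lit 0) (.cons (.rf (nat_lit 1325) (nat_lit 295314677854012480)) (.cons (.ev (nat_lit 79538861190718805709791691008) (nat_lit 1)) .nil))) (.cons (.br (nat_lit 10) (nat_lit 0) (.cons (.rf (nat_lit 1325) (nat_lit 295314677921055808)) (.cons (.ev (nat_lit 79538861190718805709791691008)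 (nat_lit 1)) .nil))) .nil)))) .nil)))) .nil)))),
 (.br (nat_lit 13) (nat_lit 1) (.cons (.br (nat_lit 11) (nat_lit 0) (.cons (.rf (nat_lit 1359) (nat_lit 493858305440582043680)) (.cons (.rf (nat_lit 1361) (nat_lit 493858305440582043680)) (.cons (.rf (nat_lit 1362) (nat_lit 493858305440582043680)) (.cons (.br (nat_lit 11) (nat_lit 0) (.cons (.rf (nat_lit 1359) (nat_lit 493858305440582043680)) (.cons (.rf (nat_lit 1361) (nat_lit 493858305440582043680)) (.cons (.rf (nat_lit 1362) (nat_lit 493858305440582043680)) .nil)))) .nil))))) (.cons (.br (nat_lit 9) (nat_lit 1) (.cons (.rf (nat_lit 1366) (nat_lit 493858305440582043680)) (.cons (.rf (nat_lit 1370) (nat_lit 493858305440582043680)) (.cons (.rf (nat_lit 1371) (nat_lit 493858305440582043680)) (.cons (.br (nat_lit 9) (nat_lit 1) (.cons (.rf (nat_lit 1366) (nat_lit 493858305440582043680)) (.cons (.rf (nat_lit 1370) (nat_lit 493858305440582043680)) (.cons (.rf (nat_lit 1371) (nat_lit 493858305440582043680)) .nil)))) .nil))))) .nil))),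
 (.br (nat_lit 4) (nat_lit 0) (.cons (.br (nat_lit 7) (nat_lit 0) (.cons (.br (nat_lit 10) (nat_lit 0) (.cons (.br (nat_lit 11) (nat_lit 0) (.cons (.ev (nat_lit 40723282790738569420694811443200) (nat_lit 3)) .nil)) .nil)) (.cons (.br (nat_lit 9) (nat_lit 1) (.cons (.br (nat_lit 11) (nat_lit 0) (.cons (.ev (nat_lit 158457538695378253599836602880) (nat_lit 2)) .nil)) (.cons (.br (nat_lit 10) (nat_lit 0) (.cons (.zr (nat_lit 2436759552186294206660608) (nat_lit 20283647543691244035697830527232) (nat_lit 5) (nat_lit 1)) .nil)) .nil))) .nil))) (.cons (.br (nat_lit 11) (nat_lit 0) (.cons (.br (nat_lit 12) (nat_lit 1) (.cons (.ev (nat_lit 20361947251194274908281579241473) (nat_lit 1)) (.cons (.ev (nat_lit 20361948460120022747886892613633) (nat_lit 1)) .nil))) (.cons (.ev (nat_lit 79228162532711364246053584896) (nat_lit 1)) .nil))) .nil))),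
 (.br (nat_lit 11) (nat_lit 0) (.cons (.rf (nat_lit 1373) (nat_lit 493858305440582043680)) (.cons (.br (nat_lit 4) (nat_lit 0) (.cons (.br (nat_lit 10) (nat_lit 0) (.cons (.ev (nat_lit 40565131124368794643755788403200) (nat_lit 2)) (.cons (.ev (nat_lit 20361637766165935044119595319553) (nat_lit 1)) .nil))) (.cons (.br (nat_lit 5) (nat_lit 1) (.cons (.br (nat_lit 10) (nat_lit 0) (.cons (.zr (nat_lit 1223111366088795386740736) (nat_lit 20283338058681350633035067818240) (nat_lit 5) (nat_lit 1)) .nil)) (.cons (.br (nat_lit 7) (nat_lit 0) (.cons (.ev (nat_lit 121853231894558597648715608359428) (nat_lit 3)) .nil)) .nil))) (.cons (.br (nat_lit 5) (nat_lit 1) (.cons (.br (nat_lit 9) (nat_lit 1) (.cons (.ev (nat_lit 475696641262213596270408631822) (nat_lit 4)) .nil)) (.cons (.ev (nat_lit 20361948460120022747886892613633) (nat_lit 1)) .nil))) .nil)))) .nil))),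
 (.br (nat_lit 11) (nat_lit 0) (.cons (.rf (nat_lit 1373) (nat_lit 493858305440582043680)) (.cons (.rf (nat_lit 1374) (nat_lit 493858305440582043680)) (.cons (.br (nat_lit 11) (nat_lit 0) (.cons (.rf (nat_lit 1373) (nat_lit 493858305440582043680)) (.cons (.rf (nat_lit 1374) (nat_lit 493858305440582043680)) .nil))) .nil)))),
 (.br (nat_lit 11) (nat_lit 0) (.cons (.ev (nat_lit 20282409603670189507089992318976) (nat_lit 1)) (.cons (.br (nat_lit 4) (nat_lit 0) (.cons (.ev (nat_lit 309489732188110517170143233) (nat_lit 1)) (.cons (.ev (nat_lit 20361637775647633274125349486592) (nat_lit 2)) .nil))) .nil))),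
 (.br (nat_lit 3) (nat_lit 1) (.cons (.br (nat_lit 9) (nat_lit 1) (.cons (.ev (nat_lit 1213666633124147017875713) (nat_lit 1)) .nil)) (.cons (.br (nat_lit 9) (nat_lit 1) (.cons (.ev (nat_lit 1208925891954802012782593) (nat_lit 1)) (.cons (.br (nat_lit 10) (nat_lit 0) (.cons (.zr (nat_lit 2436759552186294206660608) (nat_lit 20283647543691244035697830527232) (nat_lit 5) (nat_lit 1)) .nil)) .nil))) .nil))),
 (.br (nat_lit 9) (nat_lit 1) (.cons (.rf (nat_lit 1377) (nat_lit 493858305440582043680)) (.cons (.br (nat_lit 3) (nat_lit 1) (.cons (.br (nat_lit 11) (nat_lit 0) (.cons (.zr (nat_lit 243388915253265284439783547863052) (nat_lit 634757381976377812076198365184) (nat_lit 40) (nat_lit 5)) .nil)) (.cons (.br (nat_lit 4) (nat_lit 0) (.cons (.zr (nat_lit 60847228810955155953278318018563) (nat_lit 158457533972795033894300811776) (nat_lit 10) (nat_lit 5)) .nil)) .nil))) .nil))),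
 (.br (nat_lit 7) (nat_lit 0) (.cons (.rf (nat_lit 1375) (nat_lit 493858305440582043680)) (.cons (.br (nat_lit 11) (nat_lit 0) (.cons (.ev (nat_lit 20282409603670189507089992318976) (nat_lit 1)) (.cons (.rf (nat_lit 1376) (nat_lit 493858305440582043680)) (.cons (.br (nat_lit 11) (nat_lit 0) (.cons (.ev (nat_lit 309485028268090241962803201) (nat_lit 1)) (.cons (.rf (nat_lit 1376) (nat_lit 493858305440582043680)) .nil))) .nil)))) (.cons (.br (nat_lit 9) (nat_lit 1) (.cons (.rf (nat_lit 1377) (nat_lit 493858305440582043680)) (.cons (.rf (nat_lit 1378) (nat_lit 493858305440582043680)) (.cons (.br (nat_lit 9) (nat_lit 1) (.cons (.rf (nat_lit 1377) (nat_lit 493858305440582043680)) (.cons (.rf (nat_lit 1378) (nat_lit 493858305440582043680)) .nil))) .nil)))) .nil)))),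
 (.br (nat_lit 7) (nat_lit 0) (.cons (.rf (nat_lit 1375) (nat_lit 493858305440582043680)) (.cons (.rf (nat_lit 1379) (nat_lit 493858305440582043680)) (.cons (.br (nat_lit 3) (nat_lit 1) (.cons (.br (nat_lit 5) (nat_lit 1) (.cons (.br (nat_lit 9) (nat_lit 1) (.cons (.br (nat_lit 11) (nat_lit 0) (.cons (.ev (nat_lit 20361947255898122589479165231361) (nat_lit 1)) .nil)) .nil)) (.cons (.br (nat_lit 9) (nat_lit 1) (.cons (.ev (nat_lit 1208925819615732981367041) (nat_lit 1)) (.cons (.br (nat_lit 10) (nat_lit 0) (.cons (.ev (nat_lit 79229376162522774165673476096) (nat_lit 1)) .nil)) .nil))) .nil))) (.cons (.ev (nat_lit 72339069031481601) (nat_lit 1)) (.cons (.br (nat_lit 4) (nat_lit 0) (.cons (.br (nat_lit 10) (nat_lit 0) (.cons (.br (nat_lit 11) (nat_lit 0) (.cons (.ev (nat_lit 317225780789648389866694641152) (nat_lit 3)) .nil)) (.cons (.ev (nat_lit 20361637766165935044119595319553) (nat_lit 1)) .nil))) (.cons (.br (nat_lit 11) (nat_lit 0) (.cons (.zr (nat_lit 2785365088394357444223960832)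 (nat_lit 162259276848232028597962689019909) (nat_lit 15) (nat_lit 1)) (.cons (.ev (nat_lit 158456329769486861756367110656) (nat_lit 2)) .nil))) (.cons (.br (nat_lit 5) (nat_lit 1) (.cons (.ev (nat_lit 40644049787724657270814345855745) (nat_lit 2)) (.cons (.ev (nat_lit 79228162532711364246053584896) (nat_lit 1)) .nil))) .nil)))) .nil)))) .nil)))),
 (.br (nat_lit 13) (nat_lit 1) (.cons (.rf (nat_lit 1372) (nat_lit 493858305440582043680)) (.cons (.br (nat_lit 7) (nat_lit 0) (.cons (.rf (nat_lit 1375) (nat_lit 493858305440582043680)) (.cons (.rf (nat_lit 1379) (nat_lit 493858305440582043680)) (.cons (.rf (nat_lit 1380) (nat_lit 493858305440582043680)) (.cons (.br (nat_lit 7) (nat_lit 0) (.cons (.rf (nat_lit 1375) (nat_lit 493858305440582043680)) (.cons (.rf (nat_lit 1379) (nat_lit 493858305440582043680)) (.cons (.rf (nat_lit 1380) (nat_lit 493858305440582043680)) .nil)))) .nil))))) .nil))),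
 (.br (nat_lit 13) (nat_lit 1) (.cons (.rf (nat_lit 1372) (nat_lit 493858305440582043680)) (.cons (.rf (nat_lit 1381) (nat_lit 493858305440582043680)) (.cons (.br (nat_lit 13) (nat_lit 1) (.cons (.rf (nat_lit 1372) (nat_lit 493858305440582043680)) (.cons (.rf (nat_lit 1381) (nat_lit 493858305440582043680)) .nil))) .nil)))),
 (.br (nat_lit 4) (nat_lit 0) (.cons (.br (nat_lit 7) (nat_lit 0) (.cons (.br (nat_lit 10) (nat_lit 0) (.cons (.br (nat_lit 11) (nat_lit 0) (.cons (.ev (nat_lit 20361637766166007100609826652161) (nat_lit 1)) .nil)) .nil)) (.cons (.br (nat_lit 10) (nat_lit 0) (.cons (.br (nat_lit 11) (nat_lit 0) (.cons (.ev (nat_lit 41040506129935042770386985288708) (nat_lit 3)) .nil)) (.cons (.ev (nat_lit 20361637766166006820238639759361) (nat_lit 1)) .nil))) .nil))) (.cons (.br (nat_lit 7) (nat_lit 0) (.cons (.br (nat_lit 11) (nat_lit 0) (.cons (.br (nat_lit 10) (nat_lit 0) (.cons (.ev (nat_lit 1109507396709355461016090971142) (nat_lit 4)) .nil)) (.cons (.ev (nat_lit 20361947251194275190851755835393)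 (nat_lit 1)) .nil))) (.cons (.br (nat_lit 9) (nat_lit 1) (.cons (.ev (nat_lit 20361638975091754657644963430401) (nat_lit 1)) (.cons (.ev (nat_lit 20361947251194274908281579241473) (nat_lit 1)) .nil))) .nil))) .nil))),
 (.br (nat_lit 11) (nat_lit 0) (.cons (.rf (nat_lit 1383) (nat_lit 493858305440582043680)) (.cons (.br (nat_lit 4) (nat_lit 0) (.cons (.br (nat_lit 10) (nat_lit 0) (.cons (.br (nat_lit 7) (nat_lit 0) (.cons (.ev (nat_lit 792602047245549056033087425026) (nat_lit 4)) .nil)) (.cons (.ev (nat_lit 20361948460120022465316716019713) (nat_lit 1)) .nil))) (.cons (.br (nat_lit 5) (nat_lit 1) (.cons (.br (nat_lit 10) (nat_lit 0) (.cons (.zr (nat_lit 618984205333279483147517952) (nat_lit 20282414439354948883576363417856) (nat_lit 5) (nat_lit 5)) .nil)) (.cons (.rf (nat_lit 1363) (nat_lit 493707188699771544736)) .nil))) (.cons (.br (nat_lit 7) (nat_lit 0) (.cons (.ev (nat_lit 282587423572482) (nat_lit 2)) (.cons (.ev (nat_lit 20361947255898122589479165231361) (nat_lit 1)) .nil)))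 .nil)))) .nil))),
 (.br (nat_lit 11) (nat_lit 0) (.cons (.rf (nat_lit 1383) (nat_lit 493858305440582043680)) (.cons (.rf (nat_lit 1384) (nat_lit 493858305440582043680)) (.cons (.br (nat_lit 11) (nat_lit 0) (.cons (.rf (nat_lit 1383) (nat_lit 493858305440582043680)) (.cons (.rf (nat_lit 1384) (nat_lit 493858305440582043680)) .nil))) .nil)))),
 (.br (nat_lit 8) (nat_lit 1) (.cons (.br (nat_lit 10) (nat_lit 0) (.cons (.kr (nat_lit 4722438540463699918848) (nat_lit 1208925819897203663044608) (nat_lit 3) (nat_lit 0)) .nil)) .nil)),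
 (.br (nat_lit 8) (nat_lit 1) (.cons (.rf (nat_lit 1386) (nat_lit 14242959524133701664)) (.cons (.br (nat_lit 8) (nat_lit 1) (.cons (.rf (nat_lit 1386) (nat_lit 14242959524133701664)) .nil)) .nil))),
 (.br (nat_lit 4) (nat_lit 0) (.cons (.rf (nat_lit 1385) (nat_lit 493858305440582043680)) (.cons (.br (nat_lit 7) (nat_lit 0) (.cons (.rf (nat_lit 1144) (nat_lit 408035644742440033)) (.cons (.rf (nat_lit 1243) (nat_lit 14315088588542511201)) (.cons (.br (nat_lit 3) (nat_lit 1) (.cons (.br (nat_lit 9) (nat_lit 1) (.cons (.br (nat_lit 11) (nat_lit 0) (.cons (.ev (nat_lit 20361947255898122589479165231361) (nat_lit 1)) .nil)) .nil)) (.cons (.br (nat_lit 11) (nat_lit 0) (.cons (.rf (nat_lit 1216) (nat_lit 9454609579266671689)) (.cons (.ev (nat_lit 20361947251194274908281579241473) (nat_lit 1)) .nil))) .nil))) .nil)))) (.cons (.br (nat_lit 3) (nat_lit 1) (.cons (.rf (nat_lit 1387) (nat_lit 15433072045018188865)) (.cons (.ev (nat_lit 282578800148481) (nat_lit 1)) (.cons (.br (nat_lit 7) (nat_lit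 0) (.cons (.br (nat_lit 12) (nat_lit 1) (.cons (.ev (nat_lit 20361637766166007100609826652161) (nat_lit 1)) (.cons (.rf (nat_lit 1314) (nat_lit 14315088588542511201)) .nil))) (.cons (.br (nat_lit 10) (nat_lit 0) (.cons (.br (nat_lit 9) (nat_lit 1) (.cons (.zr (nat_lit 316916276834516194261699919876) (nat_lit 20282409608410930396072434008320) (nat_lit 5) (nat_lit 2)) .nil)) .nil)) .nil))) .nil)))) .nil))))]

theorem c37 : chkAll C T R L37 (nat_lit 1363) = true := by decide +kernel

theorem l37 : (nat_lit 1363) + L37.length = (nat_lit 1389) := by decide +kernel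

/-- part of the certificates -/
def L38 : List Prf := [(.br (nat_lit 8) (nat_lit 1) (.cons (.br (nat_lit 10) (nat_lit 0) (.cons (.kr (nat_lit 4722438540463699918848) (nat_lit 1208925819897203663044608) (nat_lit 3) (nat_lit 0)) .nil)) .nil)),
 (.br (nat_lit 4) (nat_lit 0) (.cons (.rf (nat_lit 1385) (nat_lit 493858305440582043680)) (.cons (.rf (nat_lit 1388) (nat_lit 493858305440582043680)) (.cons (.br (nat_lit 3) (nat_lit 1) (.cons (.br (nat_lit 5) (nat_lit 1) (.cons (.rf (nat_lit 1389) (nat_lit 15433072045018188865)) (.cons (.br (nat_lit 9) (nat_lit 1) (.cons (.br (nat_lit 11) (nat_lit 0) (.cons (.ev (nat_lit 244339963954280159922159947613696) (nat_lit 4)) .nil)) (.cons (.br (nat_lit 10) (nat_lit 0) (.cons (.ev (nat_lit 79229376162522774165673476096) (nat_lit 1)) .nil)) .nil))) .nil))) (.cons (.br (nat_lit 9) (nat_lit 1) (.cons (.ev (nat_lit 4740885284541704503553) (nat_lit 1)) (.cons (.br (nat_lit 5) (nat_lit 1) (.cons (.ev (nat_lit 1213666633124147017875713) (nat_lit 1)) (.cons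 (.rf (nat_lit 1325) (nat_lit 295314677854012480)) .nil))) .nil))) (.cons (.br (nat_lit 5) (nat_lit 1) (.cons (.br (nat_lit 9) (nat_lit 1) (.cons (.ev (nat_lit 1208925891954802012782593) (nat_lit 1)) (.cons (.br (nat_lit 10) (nat_lit 0) (.cons (.ev (nat_lit 41040503712083548221457064656900) (nat_lit 3)) .nil)) .nil))) (.cons (.br (nat_lit 7) (nat_lit 0) (.cons (.br (nat_lit 11) (nat_lit 0) (.cons (.zr (nat_lit 7267740465287837006365440) (nat_lit 142531464363161543332984589910028) (nat_lit 10) (nat_lit 9)) .nil)) (.cons (.zr (nat_lit 60847228810973458578882596700929) (nat_lit 316913858983093139984521101312) (nat_lit 10) (nat_lit 1)) .nil))) (.cons (.br (nat_lit 10) (nat_lit 0) (.cons (.br (nat_lit 7) (nat_lit 0) (.cons (.ev (nat_lit 40565134737034711571045644501510) (nat_lit 3)) .nil)) (.cons (.ev (nat_lit 20361948460120022465316716019713) (nat_lit 1)) .nil))) .nil)))) .nil)))) .nil)))),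
 (.br (nat_lit 13) (nat_lit 1) (.cons (.rf (nat_lit 1382) (nat_lit 493858305440582043680)) (.cons (.br (nat_lit 4) (nat_lit 0) (.cons (.rf (nat_lit 1385) (nat_lit 493858305440582043680)) (.cons (.rf (nat_lit 1388) (nat_lit 493858305440582043680)) (.cons (.rf (nat_lit 1390) (nat_lit 493858305440582043680)) (.cons (.br (nat_lit 4) (nat_lit 0) (.cons (.rf (nat_lit 1385) (nat_lit 493858305440582043680)) (.cons (.rf (nat_lit 1388) (nat_lit 493858305440582043680)) (.cons (.rf (nat_lit 1390) (nat_lit 493858305440582043680)) .nil)))) .nil))))) .nil))),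
 (.br (nat_lit 13) (nat_lit 1) (.cons (.rf (nat_lit 1382) (nat_lit 493858305440582043680)) (.cons (.rf (nat_lit 1391) (nat_lit 493858305440582043680)) (.cons (.br (nat_lit 13) (nat_lit 1) (.cons (.rf (nat_lit 1382) (nat_lit 493858305440582043680)) (.cons (.rf (nat_lit 1391) (nat_lit 493858305440582043680)) .nil))) .nil)))),
 (.br (nat_lit 13) (nat_lit 1) (.cons (.rf (nat_lit 1382) (nat_lit 493858305440582043680)) (.cons (.rf (nat_lit 1392) (nat_lit 493858305440582043680)) (.cons (.br (nat_lit 13) (nat_lit 1) (.cons (.rf (nat_lit 1382) (nat_lit 493858305440582043680)) (.cons (.rf (nat_lit 1392) (nat_lit 493858305440582043680)) .nil))) .nil)))),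
 (.br (nat_lit 13) (nat_lit 1) (.cons (.rf (nat_lit 1382) (nat_lit 493858305440582043680)) (.cons (.rf (nat_lit 1392) (nat_lit 493858305440582043680)) (.cons (.rf (nat_lit 1393) (nat_lit 493858305440582043680)) (.cons (.br (nat_lit 13) (nat_lit 1) (.cons (.rf (nat_lit 1382) (nat_lit 493858305440582043680)) (.cons (.rf (nat_lit 1392) (nat_lit 493858305440582043680)) (.cons (.rf (nat_lit 1393) (nat_lit 493858305440582043680)) .nil)))) .nil))))),
 (.br (nat_lit 8) (nat_lit 0) (.cons (.rf (nat_lit 742) (nat_lit 8696956064)) (.cons (.rf (nat_lit 1325) (nat_lit 407901468851537952)) (.cons (.br (nat_lit 8) (nat_lit 0) (.cons (.rf (nat_lit 742) (nat_lit 8696956064)) (.cons (.rf (nat_lit 1325) (nat_lit 407901468851537952)) (.cons (.br (nat_lit 6) (nat_lit 0) (.cons (.rf (nat_lit 742) (nat_lit 8764064864)) (.cons (.rf (nat_lit 1356) (nat_lit 493858305440582043680)) (.cons (.rf (nat_lit 1394) (nat_lit 493858305440582043680)) (.cons (.rf (nat_lit 1394) (nat_lit 458117738797769787424)) .nil)))))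 .nil)))) .nil)))),
 (.br (nat_lit 6) (nat_lit 0) (.cons (.rf (nat_lit 159) (nat_lit 335565698304739584)) (.cons (.br (nat_lit 3) (nat_lit 0) (.cons (.rf (nat_lit 884) (nat_lit 428993252950146)) (.cons (.rf (nat_lit 1257) (nat_lit 14242955126091384864)) .nil))) .nil))),
 (.br (nat_lit 5) (nat_lit 1) (.cons (.rf (nat_lit 1262) (nat_lit 444982537191820353)) (.cons (.rf (nat_lit 1255) (nat_lit 445088087086861377)) (.cons (.rf (nat_lit 1287) (nat_lit 437105567234098243)) (.cons (.rf (nat_lit 1396) (nat_lit 445092485129178177)) .nil))))),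
 (.br (nat_lit 13) (nat_lit 1) (.cons (.br (nat_lit 11) (nat_lit 0) (.cons (.ev (nat_lit 20361947251194202851782758039553) (nat_lit 1)) (.cons (.ev (nat_lit 310698658007724042538188801) (nat_lit 1)) .nil))) .nil)),
 (.br (nat_lit 10) (nat_lit 0) (.cons (.ev (nat_lit 79229371458530977771421696256) (nat_lit 1)) (.cons (.rf (nat_lit 336) (nat_lit 156928079671135305)) (.cons (.br (nat_lit 4) (nat_lit 0) (.cons (.rf (nat_lit 1262) (nat_lit 445088087086861377)) (.cons (.rf (nat_lit 884) (nat_lit 468611139667107)) (.cons (.br (nat_lit 13) (nat_lit 1) (.cons (.rf (nat_lit 1398) (nat_lit 493858305440582043680)) (.cons (.br (nat_lit 13) (nat_lit 1) (.cons (.rf (nat_lit 1398) (nat_lit 493858305440582043680)) .nil)) .nil))) .nil)))) .nil)))),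
 (.br (nat_lit 11) (nat_lit 0) (.cons (.rf (nat_lit 1399) (nat_lit 14242959524133701664)) (.cons (.rf (nat_lit 1399) (nat_lit 14242959524066658336)) (.cons (.br (nat_lit 11) (nat_lit 0) (.cons (.rf (nat_lit 1399) (nat_lit 14242959524133701664)) (.cons (.rf (nat_lit 1399) (nat_lit 14242959524066658336)) .nil))) .nil)))),
 (.br (nat_lit 10) (nat_lit 0) (.cons (.ev (nat_lit 1099528470529) (nat_lit 1)) (.cons (.rf (nat_lit 1267) (nat_lit 445088087086861377)) (.cons (.br (nat_lit 10) (nat_lit 0) (.cons (.ev (nat_lit 1099528470529) (nat_lit 1)) (.cons (.rf (nat_lit 1267) (nat_lit 445088087086861377)) .nil))) .nil)))),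
 (.br (nat_lit 13) (nat_lit 1) (.cons (.br (nat_lit 3) (nat_lit 1) (.cons (.br (nat_lit 5) (nat_lit 1) (.cons (.ev (nat_lit 158767019056908044314955874310) (nat_lit 3)) .nil)) (.cons (.br (nat_lit 5) (nat_lit 1) (.cons (.ev (nat_lit 158767019056908044314955874310) (nat_lit 3)) .nil)) .nil))) .nil)),
 (.br (nat_lit 13) (nat_lit 1) (.cons (.rf (nat_lit 1402) (nat_lit 493858305440582043680)) (.cons (.br (nat_lit 13) (nat_lit 1) (.cons (.rf (nat_lit 1402) (nat_lit 493858305440582043680)) .nil)) .nil))),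
 (.br (nat_lit 13) (nat_lit 1) (.cons (.rf (nat_lit 1403) (nat_lit 493858305440582043680)) (.cons (.br (nat_lit 13) (nat_lit 1) (.cons (.rf (nat_lit 1403) (nat_lit 493858305440582043680)) .nil)) .nil))),
 (.br (nat_lit 7) (nat_lit 0) (.cons (.rf (nat_lit 1401) (nat_lit 14242959524133701664)) (.cons (.rf (nat_lit 1401) (nat_lit 14242959524066658336)) (.cons (.br (nat_lit 13) (nat_lit 1) (.cons (.rf (nat_lit 1403) (nat_lit 493858305440582043680)) (.cons (.rf (nat_lit 1404) (nat_lit 493858305440582043680)) (.cons (.br (nat_lit 13) (nat_lit 1) (.cons (.rf (nat_lit 1403) (nat_lit 493858305440582043680)) (.cons (.rf (nat_lit 1404) (nat_lit 493858305440582043680)) .nil))) .nil)))) .nil)))),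
 (.br (nat_lit 12) (nat_lit 1) (.cons (.br (nat_lit 11) (nat_lit 0) (.cons (.rf (nat_lit 1397) (nat_lit 14242959524133701664)) (.cons (.rf (nat_lit 1397) (nat_lit 14242959524066658336)) (.cons (.rf (nat_lit 1288) (nat_lit 437101237835762761)) (.cons (.br (nat_lit 11) (nat_lit 0) (.cons (.rf (nat_lit 1397) (nat_lit 14242959524133701664)) (.cons (.rf (nat_lit 1397) (nat_lit 14242959524066658336)) (.cons (.rf (nat_lit 1288) (nat_lit 437101237835762761)) .nil)))) .nil))))) (.cons (.br (nat_lit 11) (nat_lit 0) (.cons (.rf (nat_lit 1399) (nat_lit 14242959524133701664)) (.cons (.rf (nat_lit 1399) (nat_lit 14242959524066658336)) (.cons (.rf (nat_lit 1400) (nat_lit 14242959524133701664)) (.cons (.br (nat_lit 11) (nat_lit 0) (.cons (.rf (nat_lit 1399) (nat_lit 14242959524133701664)) (.cons (.rf (nat_lit 1399) (nat_lit 14242959524066658336)) (.cons (.rf (nat_lit 1400) (nat_lit 14242959524133701664)) .nil)))) .nil))))) (.cons (.br (nat_lit 7) (nat_lit 0) (.cons (.rf (nat_lit 1401) (nat_lit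 14242959524133701664)) (.cons (.rf (nat_lit 1401) (nat_lit 14242959524066658336)) (.cons (.rf (nat_lit 1405) (nat_lit 14242959524133701664)) (.cons (.br (nat_lit 7) (nat_lit 0) (.cons (.rf (nat_lit 1401) (nat_lit 14242959524133701664)) (.cons (.rf (nat_lit 1401) (nat_lit 14242959524066658336)) (.cons (.rf (nat_lit 1405) (nat_lit 14242959524133701664)) .nil)))) .nil))))) .nil)))),
 (.br (nat_lit 4) (nat_lit 1) (.cons (.ev (nat_lit 4311810049) (nat_lit 1)) (.cons (.ev (nat_lit 309485009893402667074453504) (nat_lit 1)) (.cons (.rf (nat_lit 1255) (nat_lit 410147771111510081)) .nil)))),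
 (.br (nat_lit 5) (nat_lit 1) (.cons (.br (nat_lit 9) (nat_lit 1) (.cons (.ev (nat_lit 4740885285641199288321) (nat_lit 1)) (.cons (.ev (nat_lit 79228167236702879161033752576) (nat_lit 1)) .nil))) (.cons (.br (nat_lit 9) (nat_lit 1) (.cons (.ev (nat_lit 79228167236702879161033752576) (nat_lit 1)) (.cons (.ev (nat_lit 4740885285641199288321) (nat_lit 1)) .nil))) .nil))),
 (.br (nat_lit 13) (nat_lit 1) (.cons (.br (nat_lit 3) (nat_lit 1) (.cons (.rf (nat_lit 1408) (nat_lit 493858305440582043680)) (.cons (.br (nat_lit 5) (nat_lit 1) (.cons (.rf (nat_lit 1408) (nat_lit 493858305440515000352)) (.cons (.ev (nat_lit 20282720297587383442338717106176) (nat_lit 1)) .nil))) (.cons (.br (nat_lit 5) (nat_lit 1) (.cons (.rf (nat_lit 1408) (nat_lit 493858305440515000352)) (.cons (.ev (nat_lit 20282720297587383442338717106176) (nat_lit 1)) .nil))) .nil)))) .nil)),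
 (.br (nat_lit 13) (nat_lit 1) (.cons (.rf (nat_lit 1409) (nat_lit 493858305440582043680)) (.cons (.br (nat_lit 13) (nat_lit 1) (.cons (.rf (nat_lit 1409) (nat_lit 493858305440582043680)) .nil)) .nil))),
 (.br (nat_lit 13) (nat_lit 1) (.cons (.rf (nat_lit 1410) (nat_lit 493858305440582043680)) (.cons (.br (nat_lit 13) (nat_lit 1) (.cons (.rf (nat_lit 1410) (nat_lit 493858305440582043680)) .nil)) .nil))),
 (.br (nat_lit 12) (nat_lit 1) (.cons (.rf (nat_lit 1406) (nat_lit 14242959524133701664)) (.cons (.kr (nat_lit 79228162514264337593543950337) (nat_lit 18446744073709617152) (nat_lit 0) (nat_lit 1)) (.cons (.br (nat_lit 7) (nat_lit 0) (.cons (.rf (nat_lit 1407) (nat_lit 445092485129144352)) (.cons (.rf (nat_lit 1407) (nat_lit 445092485127112736)) (.cons (.rf (nat_lit 1255) (nat_lit 443755443623659555)) (.cons (.br (nat_lit 13) (nat_lit 1) (.cons (.rf (nat_lit 1410) (nat_lit 493858305440582043680)) (.cons (.rf (nat_lit 1411) (nat_lit 493858305440582043680)) (.cons (.br (nat_lit 13)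 (nat_lit 1) (.cons (.rf (nat_lit 1410) (nat_lit 493858305440582043680)) (.cons (.rf (nat_lit 1411) (nat_lit 493858305440582043680)) .nil))) .nil)))) .nil))))) .nil)))),
 (.br (nat_lit 8) (nat_lit 1) (.cons (.br (nat_lit 10) (nat_lit 0) (.cons (.rf (nat_lit 1396) (nat_lit 399910152914141218)) (.cons (.rf (nat_lit 1396) (nat_lit 399907953890885668)) (.cons (.br (nat_lit 10) (nat_lit 0) (.cons (.rf (nat_lit 1396) (nat_lit 399910152914141218)) (.cons (.rf (nat_lit 1396) (nat_lit 399907953890885668)) .nil))) .nil)))) (.cons (.rf (nat_lit 1287) (nat_lit 407897070809221152)) (.cons (.rf (nat_lit 1255) (nat_lit 403186830704706562)) (.cons (.rf (nat_lit 1288) (nat_lit 407897070809221152)) .nil))))),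
 (.br (nat_lit 3) (nat_lit 0) (.cons (.rf (nat_lit 157) (nat_lit 11517492954693889)) (.cons (.br (nat_lit 4) (nat_lit 1) (.cons (.rf (nat_lit 157) (nat_lit 11517600228082944)) (.cons (.br (nat_lit 6) (nat_lit 0) (.cons (.rf (nat_lit 1176) (nat_lit 12902113994437984328)) .nil)) .nil))) .nil))),
 (.br (nat_lit 6) (nat_lit 0) (.cons (.br (nat_lit 10) (nat_lit 0) (.cons (.kr (nat_lit 4722438540463699918848) (nat_lit 1208925819897203663044608) (nat_lit 3) (nat_lit 0)) .nil)) .nil)),
 (.br (nat_lit 4) (nat_lit 0) (.cons (.rf (nat_lit 1415) (nat_lit 15433072045018188865)) (.cons (.br (nat_lit 7) (nat_lit 0) (.cons (.ev (nat_lit 4740813509522154848513) (nat_lit 1)) (.cons (.ev (nat_lit 20282409603670117169120489308416) (nat_lit 1)) .nil))) .nil))),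
 (.br (nat_lit 10) (nat_lit 0) (.cons (.rf (nat_lit 1395) (nat_lit 295314677921055808)) (.cons (.rf (nat_lit 1414) (nat_lit 15433072045018188865)) (.cons (.br (nat_lit 11) (nat_lit 0) (.cons (.rf (nat_lit 1416) (nat_lit 493858305440582043680)) (.cons (.br (nat_lit 11) (nat_lit 0) (.cons (.rf (nat_lit 1416) (nat_lit 493858305440582043680)) (.cons (.ev (nat_lit 310698658007724042538188801) (nat_lit 1)) .nil))) (.cons (.br (nat_lit 11) (nat_lit 0) (.cons (.rf (nat_lit 1416) (nat_lit 493858305440582043680)) (.cons (.ev (nat_lit 310698658007724042538188801) (nat_lit 1)) .nil))) .nil)))) .nil)))),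
 (.br (nat_lit 11) (nat_lit 0) (.cons (.rf (nat_lit 1417) (nat_lit 493858305440582043680)) (.cons (.rf (nat_lit 1417) (nat_lit 493858305440515000352)) (.cons (.br (nat_lit 11) (nat_lit 0) (.cons (.rf (nat_lit 1417) (nat_lit 493858305440582043680)) (.cons (.rf (nat_lit 1417) (nat_lit 493858305440515000352)) .nil))) .nil)))),
 (.br (nat_lit 5) (nat_lit 1) (.cons (.rf (nat_lit 742) (nat_lit 8696956064)) (.cons (.rf (nat_lit 1395) (nat_lit 295314677921055808)) (.cons (.ev (nat_lit 79537647524085683761797202176) (nat_lit 1)) .nil)))),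
 (.br (nat_lit 3) (nat_lit 1) (.cons (.br (nat_lit 5) (nat_lit 1) (.cons (.br (nat_lit 9) (nat_lit 1) (.cons (.br (nat_lit 11) (nat_lit 0) (.cons (.ev (nat_lit 20282720302328196669282071871488) (nat_lit 1)) .nil)) .nil)) (.cons (.rf (nat_lit 1395) (nat_lit 295314677854012480)) .nil))) (.cons (.rf (nat_lit 1419) (nat_lit 493858305440582043680)) .nil))),
 (.br (nat_lit 5) (nat_lit 1) (.cons (.rf (nat_lit 742) (nat_lit 8696956064)) (.cons (.ev (nat_lit 1099528470529) (nat_lit 1)) (.cons (.rf (nat_lit 1395) (nat_lit 295314677854012480)) .nil)))),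
 (.br (nat_lit 13) (nat_lit 1) (.cons (.rf (nat_lit 1420) (nat_lit 493858305440582043680)) (.cons (.br (nat_lit 3) (nat_lit 1) (.cons (.br (nat_lit 5) (nat_lit 1) (.cons (.ev (nat_lit 1099528470529) (nat_lit 1)) (.cons (.ev (nat_lit 20282409603670117169120489308416) (nat_lit 1)) .nil))) (.cons (.rf (nat_lit 1421) (nat_lit 493858305440582043680)) (.cons (.br (nat_lit 5) (nat_lit 1) (.cons (.ev (nat_lit 20282409603670117169120489308416) (nat_lit 1)) (.cons (.rf (nat_lit 1395) (nat_lit 295314677921055808)) .nil))) .nil)))) .nil)))]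

theorem c38 : chkAll C T R L38 (nat_lit 1389) = true := by decide +kernel

theorem l38 : (nat_lit 1389) + L38.length = (nat_lit 1423) := by decide +kernel

/-- part of the certificates -/
def L39 : List Prf := [(.br (nat_lit 13) (nat_lit 1) (.cons (.rf (nat_lit 1420) (nat_lit 493858305440582043680)) (.cons (.rf (nat_lit 1422) (nat_lit 493858305440582043680)) (.cons (.br (nat_lit 13) (nat_lit 1) (.cons (.rf (nat_lit 1420) (nat_lit 493858305440582043680)) (.cons (.rf (nat_lit 1422) (nat_lit 493858305440582043680)) .nil))) .nil)))),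
 (.br (nat_lit 5) (nat_lit 1) (.cons (.ev (nat_lit 1099528405249) (nat_lit 1)) (.cons (.br (nat_lit 9) (nat_lit 1) (.cons (.ev (nat_lit 20282412026225748195881208972035) (nat_lit 2)) .nil)) (.cons (.ev (nat_lit 20282409603670117169120489308416) (nat_lit 1)) .nil)))),
 (.br (nat_lit 13) (nat_lit 1) (.cons (.rf (nat_lit 1423) (nat_lit 493858305440582043680)) (.cons (.br (nat_lit 3) (nat_lit 1) (.cons (.rf (nat_lit 1424) (nat_lit 493858305440582043680)) (.cons (.br (nat_lit 5) (nat_lit 1) (.cons (.rf (nat_lit 1424) (nat_lit 493858305440515000352)) (.cons (.rf (nat_lit 1395) (nat_lit 295314677854012480)) .nil))) (.cons (.br (nat_lit 5) (nat_lit 1) (.cons (.ev (nat_lit 20282409603670117169120489308416) (nat_lit 1)) (.cons (.rf (nat_lit 1395) (nat_lit 295314677921055808)) .nil))) .nil)))) .nil))),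
 (.br (nat_lit 13) (nat_lit 1) (.cons (.rf (nat_lit 1423) (nat_lit 493858305440582043680)) (.cons (.rf (nat_lit 1425) (nat_lit 493858305440582043680)) (.cons (.br (nat_lit 13) (nat_lit 1) (.cons (.rf (nat_lit 1423) (nat_lit 493858305440582043680)) (.cons (.rf (nat_lit 1425) (nat_lit 493858305440582043680)) .nil))) .nil)))),
 (.br (nat_lit 13) (nat_lit 1) (.cons (.rf (nat_lit 1423) (nat_lit 493858305440582043680)) (.cons (.rf (nat_lit 1426) (nat_lit 493858305440582043680)) (.cons (.br (nat_lit 13) (nat_lit 1) (.cons (.rf (nat_lit 1423) (nat_lit 493858305440582043680)) (.cons (.rf (nat_lit 1426) (nat_lit 493858305440582043680)) .nil))) .nil)))),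
 (.br (nat_lit 12) (nat_lit 1) (.cons (.br (nat_lit 11) (nat_lit 0) (.cons (.rf (nat_lit 1417) (nat_lit 493858305440582043680)) (.cons (.rf (nat_lit 1417) (nat_lit 493858305440515000352)) (.cons (.rf (nat_lit 1418) (nat_lit 493858305440582043680)) (.cons (.br (nat_lit 11) (nat_lit 0) (.cons (.rf (nat_lit 1417) (nat_lit 493858305440582043680)) (.cons (.rf (nat_lit 1417) (nat_lit 493858305440515000352)) (.cons (.rf (nat_lit 1418) (nat_lit 493858305440582043680)) .nil)))) .nil))))) (.cons (.br (nat_lit 13) (nat_lit 1) (.cons (.rf (nat_lit 1423) (nat_lit 493858305440582043680)) (.cons (.rf (nat_lit 1426) (nat_lit 493858305440582043680)) (.cons (.rf (nat_lit 1427) (nat_lit 493858305440582043680)) (.cons (.br (nat_lit 13) (nat_lit 1) (.cons (.rf (nat_lit 1423) (nat_lit 493858305440582043680)) (.cons (.rf (nat_lit 1426) (nat_lit 493858305440582043680)) (.cons (.rf (nat_lit 1427) (nat_lit 493858305440582043680)) .nil)))) .nil))))) .nil))),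
 (.br (nat_lit 5) (nat_lit 1) (.cons (.br (nat_lit 9) (nat_lit 1) (.cons (.zr (nat_lit 79228167236702878057310978051) (nat_lit 1208925819620126732911104) (nat_lit 10) (nat_lit 3)) (.cons (.br (nat_lit 10) (nat_lit 0) (.cons (.br (nat_lit 11) (nat_lit 0) (.cons (.ev (nat_lit 20440868360735975661824981008385) (nat_lit 2)) .nil)) .nil)) .nil))) (.cons (.ev (nat_lit 1099528470529) (nat_lit 1)) (.cons (.br (nat_lit 11) (nat_lit 0) (.cons (.ev (nat_lit 4740813509522154848513) (nat_lit 1)) (.cons (.br (nat_lit 10) (nat_lit 0) (.cons (.rf (nat_lit 1172) (nat_lit 15361084681242285091)) (.cons (.ev (nat_lit 20282409603670117169120489308416) (nat_lit 1)) .nil))) .nil))) .nil)))),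
 (.br (nat_lit 3) (nat_lit 1) (.cons (.rf (nat_lit 1429) (nat_lit 493858305440582043680)) (.cons (.rf (nat_lit 1421) (nat_lit 458117738797769787424)) (.cons (.br (nat_lit 5) (nat_lit 1) (.cons (.rf (nat_lit 1429) (nat_lit 493858305440515000352)) (.cons (.rf (nat_lit 1395) (nat_lit 295314677921055808)) (.cons (.kr (nat_lit 79228162514264337593543950337) (nat_lit 309485009821345068724781312) (nat_lit 0) (nat_lit 2)) .nil)))) .nil)))),
 (.br (nat_lit 5) (nat_lit 1) (.cons (.br (nat_lit 9) (nat_lit 1) (.cons (.ev (nat_lit 284112518395105451559214664124936) (nat_lit 4)) .nil)) (.cons (.ev (nat_lit 20282409603670117169120489308416) (nat_lit 1)) .nil))),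
 (.br (nat_lit 13) (nat_lit 1) (.cons (.rf (nat_lit 1430) (nat_lit 493858305440582043680)) (.cons (.br (nat_lit 3) (nat_lit 1) (.cons (.rf (nat_lit 1431) (nat_lit 493858305440582043680)) (.cons (.br (nat_lit 4) (nat_lit 0) (.cons (.rf (nat_lit 1431) (nat_lit 493858305440515000352)) (.cons (.rf (nat_lit 1127) (nat_lit 408046639851381857)) .nil))) (.cons (.br (nat_lit 4) (nat_lit 0) (.cons (.ev (nat_lit 20282409603670117169120489308416) (nat_lit 1)) (.cons (.rf (nat_lit 1316) (nat_lit 14316174939387989057)) .nil))) .nil)))) .nil))),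
 (.br (nat_lit 13) (nat_lit 1) (.cons (.rf (nat_lit 1430) (nat_lit 493858305440582043680)) (.cons (.rf (nat_lit 1432) (nat_lit 493858305440582043680)) (.cons (.br (nat_lit 13) (nat_lit 1) (.cons (.rf (nat_lit 1430) (nat_lit 493858305440582043680)) (.cons (.rf (nat_lit 1432) (nat_lit 493858305440582043680)) .nil))) .nil)))),
 (.br (nat_lit 13) (nat_lit 1) (.cons (.rf (nat_lit 1430) (nat_lit 493858305440582043680)) (.cons (.rf (nat_lit 1433) (nat_lit 493858305440582043680)) (.cons (.br (nat_lit 13) (nat_lit 1) (.cons (.rf (nat_lit 1430) (nat_lit 493858305440582043680)) (.cons (.rf (nat_lit 1433) (nat_lit 493858305440582043680)) .nil))) .nil)))),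
 (.br (nat_lit 12) (nat_lit 1) (.cons (.rf (nat_lit 1428) (nat_lit 493858305440582043680)) (.cons (.br (nat_lit 13) (nat_lit 1) (.cons (.rf (nat_lit 1430) (nat_lit 493858305440582043680)) (.cons (.rf (nat_lit 1433) (nat_lit 493858305440582043680)) (.cons (.rf (nat_lit 1434) (nat_lit 493858305440582043680)) (.cons (.br (nat_lit 13) (nat_lit 1) (.cons (.rf (nat_lit 1430) (nat_lit 493858305440582043680)) (.cons (.rf (nat_lit 1433) (nat_lit 493858305440582043680)) (.cons (.rf (nat_lit 1434) (nat_lit 493858305440582043680)) .nil)))) .nil))))) .nil))),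
 (.br (nat_lit 12) (nat_lit 1) (.cons (.rf (nat_lit 1428) (nat_lit 493858305440582043680)) (.cons (.rf (nat_lit 1435) (nat_lit 493858305440582043680)) (.cons (.br (nat_lit 12) (nat_lit 1) (.cons (.rf (nat_lit 1428) (nat_lit 493858305440582043680)) (.cons (.rf (nat_lit 1435) (nat_lit 493858305440582043680)) .nil))) .nil)))),
 (.br (nat_lit 5) (nat_lit 1) (.cons (.ev (nat_lit 20282410812595937064125129097216) (nat_lit 1)) (.cons (.br (nat_lit 9) (nat_lit 1) (.cons (.ev (nat_lit 81129951592747841297526178055692) (nat_lit 4)) .nil)) .nil))),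
 (.br (nat_lit 13) (nat_lit 1) (.cons (.br (nat_lit 3) (nat_lit 1) (.cons (.br (nat_lit 5) (nat_lit 1) (.cons (.ev (nat_lit 1208925891673322741104641) (nat_lit 1)) .nil)) (.cons (.br (nat_lit 5) (nat_lit 1) (.cons (.ev (nat_lit 1208925891673322741104641) (nat_lit 1)) (.cons (.ev (nat_lit 20282409603670117169120489308416) (nat_lit 1)) .nil))) .nil))) (.cons (.br (nat_lit 3) (nat_lit 1) (.cons (.rf (nat_lit 1437) (nat_lit 493858305440582043680)) (.cons (.br (nat_lit 5) (nat_lit 1) (.cons (.ev (nat_lit 20282410812595937065224623947776) (nat_lit 1)) (.cons (.ev (nat_lit 20282409603670117169120489308416) (nat_lit 1)) .nil))) (.cons (.br (nat_lit 5) (nat_lit 1) (.cons (.rf (nat_lit 1437) (nat_lit 493858305440515000352)) (.cons (.ev (nat_lit 20282409603670117169120489308416) (nat_lit 1)) .nil))) .nil)))) .nil))),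
 (.br (nat_lit 13) (nat_lit 1) (.cons (.rf (nat_lit 1438) (nat_lit 493858305440582043680)) (.cons (.br (nat_lit 11) (nat_lit 0) (.cons (.ev (nat_lit 79538856449905578766436990976) (nat_lit 1)) (.cons (.ev (nat_lit 79538856449905579865931841536) (nat_lit 1)) (.cons (.br (nat_lit 7) (nat_lit 0) (.cons (.ev (nat_lit 40723277959628314620098248835330) (nat_lit 2)) (.cons (.ev (nat_lit 40723277959628314623396733387010) (nat_lit 2)) .nil))) .nil)))) .nil))),
 (.br (nat_lit 13) (nat_lit 1) (.cons (.rf (nat_lit 1438) (nat_lit 493858305440582043680)) (.cons (.rf (nat_lit 1439) (nat_lit 493858305440582043680)) (.cons (.br (nat_lit 13) (nat_lit 1) (.cons (.rf (nat_lit 1438) (nat_lit 493858305440582043680)) (.cons (.rf (nat_lit 1439) (nat_lit 493858305440582043680)) .nil))) .nil)))),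
 (.br (nat_lit 13) (nat_lit 1) (.cons (.rf (nat_lit 1440) (nat_lit 493858305440582043680)) (.cons (.br (nat_lit 3) (nat_lit 1) (.cons (.br (nat_lit 5) (nat_lit 1) (.cons (.br (nat_lit 9) (nat_lit 1) (.cons (.ev (nat_lit 158779117722511324850583373834) (nat_lit 4)) .nil)) (.cons (.ev (nat_lit 1208925891673322741104641) (nat_lit 1)) .nil))) (.cons (.ev (nat_lit 79538856449905578766436990976) (nat_lit 1)) .nil))) .nil))),
 (.br (nat_lit 13) (nat_lit 1) (.cons (.rf (nat_lit 1440) (nat_lit 493858305440582043680)) (.cons (.rf (nat_lit 1441) (nat_lit 493858305440582043680)) (.cons (.br (nat_lit 13) (nat_lit 1) (.cons (.rf (nat_lit 1440) (nat_lit 493858305440582043680)) (.cons (.rf (nat_lit 1441) (nat_lit 493858305440582043680)) .nil))) .nil)))),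
 (.br (nat_lit 13) (nat_lit 1) (.cons (.rf (nat_lit 1440) (nat_lit 493858305440582043680)) (.cons (.rf (nat_lit 1442) (nat_lit 493858305440582043680)) (.cons (.br (nat_lit 13) (nat_lit 1) (.cons (.rf (nat_lit 1440) (nat_lit 493858305440582043680)) (.cons (.rf (nat_lit 1442) (nat_lit 493858305440582043680)) .nil))) .nil)))),
 (.br (nat_lit 12) (nat_lit 1) (.cons (.rf (nat_lit 1436) (nat_lit 493858305440582043680)) (.cons (.br (nat_lit 13) (nat_lit 1) (.cons (.rf (nat_lit 1440) (nat_lit 493858305440582043680)) (.cons (.rf (nat_lit 1442) (nat_lit 493858305440582043680)) (.cons (.rf (nat_lit 1443) (nat_lit 493858305440582043680)) (.cons (.br (nat_lit 13) (nat_lit 1) (.cons (.rf (nat_lit 1440) (nat_lit 493858305440582043680)) (.cons (.rf (nat_lit 1442) (nat_lit 493858305440582043680)) (.cons (.rf (nat_lit 1443) (nat_lit 493858305440582043680)) .nil)))) .nil))))) .nil))),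
 (.br (nat_lit 12) (nat_lit 1) (.cons (.rf (nat_lit 1436) (nat_lit 493858305440582043680)) (.cons (.rf (nat_lit 1444) (nat_lit 493858305440582043680)) (.cons (.br (nat_lit 12) (nat_lit 1) (.cons (.rf (nat_lit 1436) (nat_lit 493858305440582043680)) (.cons (.rf (nat_lit 1444) (nat_lit 493858305440582043680)) .nil))) .nil)))),
 (.br (nat_lit 12) (nat_lit 1) (.cons (.rf (nat_lit 1436) (nat_lit 493858305440582043680)) (.cons (.rf (nat_lit 1445) (nat_lit 493858305440582043680)) (.cons (.br (nat_lit 12) (nat_lit 1) (.cons (.rf (nat_lit 1436) (nat_lit 493858305440582043680)) (.cons (.rf (nat_lit 1445) (nat_lit 493858305440582043680)) .nil))) .nil)))),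
 (.br (nat_lit 8) (nat_lit 0) (.cons (.kr (nat_lit 18446744073709551616) (nat_lit 4722366482869645213696) (nat_lit 8) (nat_lit 0)) (.cons (.br (nat_lit 12) (nat_lit 1) (.cons (.rf (nat_lit 1406) (nat_lit 14242959524133701664)) (.cons (.rf (nat_lit 1412) (nat_lit 14242959524133701664)) (.cons (.br (nat_lit 12) (nat_lit 1) (.cons (.rf (nat_lit 1406) (nat_lit 14242959524133701664)) (.cons (.kr (nat_lit 79228162514264337593543950337) (nat_lit 18446744073709617152) (nat_lit 0) (nat_lit 1)) (.cons (.rf (nat_lit 1413) (nat_lit 445092485129178177)) .nil)))) (.cons (.br (nat_lit 12) (nat_lit 1) (.cons (.rf (nat_lit 1406) (nat_lit 14242959524133701664)) (.cons (.rf (nat_lit 1412) (nat_lit 14242959524133701664)) (.cons (.rf (nat_lit 1413) (nat_lit 445092485129178177)) .nil)))) .nil))))) (.cons (.br (nat_lit 12) (nat_lit 1) (.cons (.rf (nat_lit 1436) (nat_lit 493858305440582043680)) (.cons (.rf (nat_lit 1445) (nat_lit 493858305440582043680)) (.cons (.rf (nat_lit 1446) (nat_lit 493858305440582043680))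 (.cons (.br (nat_lit 12) (nat_lit 1) (.cons (.rf (nat_lit 1436) (nat_lit 493858305440582043680)) (.cons (.rf (nat_lit 1445) (nat_lit 493858305440582043680)) (.cons (.rf (nat_lit 1446) (nat_lit 493858305440582043680)) .nil)))) .nil))))) .nil)))),
 (.br (nat_lit 13) (nat_lit 1) (.cons (.br (nat_lit 7) (nat_lit 0) (.cons (.br (nat_lit 4) (nat_lit 0) (.cons (.rf (nat_lit 742) (nat_lit 7621117088)) (.cons (.br (nat_lit 5) (nat_lit 1) (.cons (.zr (nat_lit 81129638414606683103163888697348) (nat_lit 79230594533003016568947409152) (nat_lit 5) (nat_lit 1)) .nil)) .nil))) (.cons (.rf (nat_lit 538) (nat_lit 408046602338633769)) .nil))) .nil)),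
 (.br (nat_lit 13) (nat_lit 1) (.cons (.rf (nat_lit 1448) (nat_lit 493858305440582043680)) (.cons (.br (nat_lit 13) (nat_lit 1) (.cons (.rf (nat_lit 1448) (nat_lit 493858305440582043680)) .nil)) .nil))),
 (.br (nat_lit 13) (nat_lit 1) (.cons (.rf (nat_lit 1449) (nat_lit 493858305440582043680)) (.cons (.br (nat_lit 13) (nat_lit 1) (.cons (.rf (nat_lit 1449) (nat_lit 493858305440582043680)) .nil)) .nil))),
 (.br (nat_lit 10) (nat_lit 0) (.cons (.rf (nat_lit 337) (nat_lit 152424553058142313)) (.cons (.br (nat_lit 13) (nat_lit 1) (.cons (.rf (nat_lit 1449) (nat_lit 493858305440582043680)) (.cons (.rf (nat_lit 1450) (nat_lit 493858305440582043680)) (.cons (.br (nat_lit 13) (nat_lit 1) (.cons (.rf (nat_lit 1449) (nat_lit 493858305440582043680)) (.cons (.rf (nat_lit 1450) (nat_lit 493858305440582043680)) .nil))) .nil)))) .nil))),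
 (.br (nat_lit 10) (nat_lit 0) (.cons (.rf (nat_lit 1395) (nat_lit 295314677921055808)) (.cons (.rf (nat_lit 1451) (nat_lit 14242959524133701664)) (.cons (.br (nat_lit 10) (nat_lit 0) (.cons (.rf (nat_lit 1395) (nat_lit 295314677921055808)) (.cons (.rf (nat_lit 1451) (nat_lit 14242959524133701664)) .nil))) .nil)))),
 (.br (nat_lit 3) (nat_lit 0) (.cons (.br (nat_lit 6) (nat_lit 0) (.cons (.kr (nat_lit 4722438540463699918848) (nat_lit 1208925819897203663044608) (nat_lit 3) (nat_lit 0)) .nil)) .nil)),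
 (.br (nat_lit 11) (nat_lit 0) (.cons (.rf (nat_lit 1262) (nat_lit 437211117229704259)) (.cons (.br (nat_lit 5) (nat_lit 1) (.cons (.br (nat_lit 7) (nat_lit 0) (.cons (.rf (nat_lit 1453) (nat_lit 15433072045018188865)) (.cons (.br (nat_lit 7) (nat_lit 0) (.cons (.rf (nat_lit 1453) (nat_lit 15433072045018188865)) .nil)) .nil))) (.cons (.ev (nat_lit 79538856449905579865931841536) (nat_lit 1)) .nil))) .nil)))]

theorem c39 : chkAll C T R L39 (nat_lit 1423) = true := by decide +kernel

theorem l39 : (nat_lit 1423) + L39.length = (nat_lit 1455) := by decide +kernel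

/-- part of the certificates -/
def L40 : List Prf := [(.br (nat_lit 10) (nat_lit 0) (.cons (.rf (nat_lit 1395) (nat_lit 295314677854012480)) (.cons (.rf (nat_lit 742) (nat_lit 11922375840)) (.cons (.br (nat_lit 11) (nat_lit 0) (.cons (.rf (nat_lit 1452) (nat_lit 14242959524133701664)) (.cons (.rf (nat_lit 1454) (nat_lit 493858305440582043680)) (.cons (.br (nat_lit 11) (nat_lit 0) (.cons (.rf (nat_lit 1452) (nat_lit 14242959524133701664)) (.cons (.rf (nat_lit 1454) (nat_lit 493858305440582043680)) .nil))) .nil)))) .nil)))),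
 (.br (nat_lit 10) (nat_lit 0) (.cons (.rf (nat_lit 1395) (nat_lit 295314677854012480)) (.cons (.rf (nat_lit 742) (nat_lit 11922375840)) (.cons (.rf (nat_lit 1455) (nat_lit 14242959524133701664)) (.cons (.br (nat_lit 10) (nat_lit 0) (.cons (.rf (nat_lit 1395) (nat_lit 295314677854012480)) (.cons (.rf (nat_lit 742) (nat_lit 11922375840)) (.cons (.rf (nat_lit 1455) (nat_lit 14242959524133701664)) .nil)))) .nil))))),
 (.br (nat_lit 11) (nat_lit 0) (.cons (.rf (nat_lit 1452) (nat_lit 14242959524133701664)) (.cons (.rf (nat_lit 1456) (nat_lit 14242959524133701664)) (.cons (.br (nat_lit 11) (nat_lit 0) (.cons (.rf (nat_lit 1452) (nat_lit 14242959524133701664)) (.cons (.rf (nat_lit 1456) (nat_lit 14242959524133701664)) .nil))) .nil)))),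
 (.br (nat_lit 7) (nat_lit 0) (.cons (.br (nat_lit 11) (nat_lit 0) (.cons (.ev (nat_lit 79538861190718805709791756288) (nat_lit 1)) (.cons (.rf (nat_lit 1210) (nat_lit 9454613977313182789)) .nil))) .nil)),
 (.br (nat_lit 5) (nat_lit 1) (.cons (.rf (nat_lit 742) (nat_lit 7621117088)) (.cons (.br (nat_lit 7) (nat_lit 0) (.cons (.rf (nat_lit 1458) (nat_lit 493858305440582043680)) (.cons (.br (nat_lit 7) (nat_lit 0) (.cons (.rf (nat_lit 1458) (nat_lit 493858305440582043680)) .nil)) .nil))) .nil))),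
 (.br (nat_lit 5) (nat_lit 1) (.cons (.br (nat_lit 7) (nat_lit 0) (.cons (.br (nat_lit 11) (nat_lit 0) (.cons (.zr (nat_lit 7343279880862345686352640) (nat_lit 142135323550775052193971480559623) (nat_lit 10) (nat_lit 3)) .nil)) (.cons (.zr (nat_lit 141976868434487513434381445234698) (nat_lit 37037603352809570560) (nat_lit 15) (nat_lit 5)) .nil))) .nil)),
 (.br (nat_lit 4) (nat_lit 0) (.cons (.rf (nat_lit 1459) (nat_lit 493858305440582043680)) (.cons (.br (nat_lit 5) (nat_lit 1) (.cons (.rf (nat_lit 1460) (nat_lit 493858305440582043680)) (.cons (.br (nat_lit 5) (nat_lit 1) (.cons (.rf (nat_lit 1460) (nat_lit 493858305440582043680)) .nil)) .nil))) .nil))),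
 (.br (nat_lit 10) (nat_lit 0) (.cons (.rf (nat_lit 1395) (nat_lit 295314677921055808)) (.cons (.br (nat_lit 4) (nat_lit 0) (.cons (.rf (nat_lit 1459) (nat_lit 493858305440582043680)) (.cons (.rf (nat_lit 1461) (nat_lit 493858305440582043680)) (.cons (.br (nat_lit 4) (nat_lit 0) (.cons (.rf (nat_lit 1459) (nat_lit 493858305440582043680)) (.cons (.rf (nat_lit 1461) (nat_lit 493858305440582043680)) .nil))) .nil)))) .nil))),
 (.br (nat_lit 10) (nat_lit 0) (.cons (.rf (nat_lit 1395) (nat_lit 295314677921055808)) (.cons (.rf (nat_lit 1462) (nat_lit 493858305440582043680)) (.cons (.br (nat_lit 10) (nat_lit 0) (.cons (.rf (nat_lit 1395) (nat_lit 295314677921055808)) (.cons (.rf (nat_lit 1462) (nat_lit 493858305440582043680)) .nil))) .nil)))),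
 (.br (nat_lit 11) (nat_lit 0) (.cons (.rf (nat_lit 1463) (nat_lit 493858305440582043680)) (.cons (.br (nat_lit 3) (nat_lit 1) (.cons (.br (nat_lit 5) (nat_lit 1) (.cons (.br (nat_lit 12) (nat_lit 1) (.cons (.br (nat_lit 7) (nat_lit 0) (.cons (.ev (nat_lit 202824418885879520411208009777666) (nat_lit 4)) .nil)) .nil)) (.cons (.br (nat_lit 4) (nat_lit 0) (.cons (.br (nat_lit 7) (nat_lit 0) (.cons (.zr (nat_lit 3404372887471624821353218053) (nat_lit 20282420484131620909316208394752) (nat_lit 30) (nat_lit 5)) .nil)) (.cons (.br (nat_lit 7) (nat_lit 0) (.cons (.ev (nat_lit 202824418876471680933616138453506) (nat_lit 4)) .nil)) .nil))) .nil))) (.cons (.br (nat_lit 5) (nat_lit 1) (.cons (.br (nat_lit 4) (nat_lit 0) (.cons (.rf (nat_lit 430) (nat_lit 373096326300439657)) (.cons (.br (nat_lit 7) (nat_lit 0) (.cons (.ev (nat_lit 40564819207303413752121134285056) (nat_lit 2)) .nil)) .nil))) (.cons (.br (nat_lit 12) (nat_lit 1) (.cons (.br (nat_lit 4) (nat_lit 0) (.cons (.zr (nat_lit 3659834024223987992626176)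 (nat_lit 20361637766258530178353927880705) (nat_lit 5) (nat_lit 0)) .nil)) .nil)) .nil))) .nil))) .nil))),
 (.br (nat_lit 10) (nat_lit 0) (.cons (.rf (nat_lit 1395) (nat_lit 295314677854012480)) (.cons (.rf (nat_lit 742) (nat_lit 11922375840)) (.cons (.br (nat_lit 11) (nat_lit 0) (.cons (.rf (nat_lit 1463) (nat_lit 493858305440582043680)) (.cons (.rf (nat_lit 1464) (nat_lit 493858305440582043680)) (.cons (.br (nat_lit 11) (nat_lit 0) (.cons (.rf (nat_lit 1463) (nat_lit 493858305440582043680)) (.cons (.rf (nat_lit 1464) (nat_lit 493858305440582043680)) .nil))) .nil)))) .nil)))),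
 (.br (nat_lit 10) (nat_lit 0) (.cons (.rf (nat_lit 1395) (nat_lit 295314677854012480)) (.cons (.rf (nat_lit 742) (nat_lit 11922375840)) (.cons (.rf (nat_lit 1465) (nat_lit 493858305440582043680)) (.cons (.br (nat_lit 10) (nat_lit 0) (.cons (.rf (nat_lit 1395) (nat_lit 295314677854012480)) (.cons (.rf (nat_lit 742) (nat_lit 11922375840)) (.cons (.rf (nat_lit 1465) (nat_lit 493858305440582043680)) .nil)))) .nil))))),
 (.br (nat_lit 11) (nat_lit 0) (.cons (.rf (nat_lit 1463) (nat_lit 493858305440582043680)) (.cons (.rf (nat_lit 1466) (nat_lit 493858305440582043680)) (.cons (.br (nat_lit 11) (nat_lit 0) (.cons (.rf (nat_lit 1463) (nat_lit 493858305440582043680)) (.cons (.rf (nat_lit 1466) (nat_lit 493858305440582043680)) .nil))) .nil)))),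
 (.br (nat_lit 8) (nat_lit 0) (.cons (.kr (nat_lit 18446744073709551616) (nat_lit 4722366482869645213696) (nat_lit 8) (nat_lit 0)) (.cons (.br (nat_lit 11) (nat_lit 0) (.cons (.rf (nat_lit 1452) (nat_lit 14242959524133701664)) (.cons (.rf (nat_lit 1456) (nat_lit 14242959524133701664)) (.cons (.rf (nat_lit 1457) (nat_lit 14242959524133701664)) (.cons (.br (nat_lit 11) (nat_lit 0) (.cons (.rf (nat_lit 1452) (nat_lit 14242959524133701664)) (.cons (.rf (nat_lit 1456) (nat_lit 14242959524133701664)) (.cons (.rf (nat_lit 1457) (nat_lit 14242959524133701664)) .nil)))) .nil))))) (.cons (.br (nat_lit 11) (nat_lit 0) (.cons (.rf (nat_lit 1463) (nat_lit 493858305440582043680)) (.cons (.rf (nat_lit 1466) (nat_lit 493858305440582043680)) (.cons (.rf (nat_lit 1467) (nat_lit 493858305440582043680)) (.cons (.br (nat_lit 11) (nat_lit 0) (.cons (.rf (nat_lit 1463) (nat_lit 493858305440582043680)) (.cons (.rf (nat_lit 1466) (nat_lit 493858305440582043680)) (.cons (.rf (nat_lit 1467) (nat_lit 493858305440582043680))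 .nil)))) .nil))))) .nil)))),
 (.br (nat_lit 12) (nat_lit 1) (.cons (.ev (nat_lit 79229371458530977771421696256) (nat_lit 1)) (.cons (.ev (nat_lit 20361637766166007100609826652161) (nat_lit 1)) .nil))),
 (.br (nat_lit 10) (nat_lit 0) (.cons (.rf (nat_lit 1395) (nat_lit 295314677921055808)) (.cons (.br (nat_lit 5) (nat_lit 1) (.cons (.ev (nat_lit 40564821629895794148534055535360) (nat_lit 2)) (.cons (.br (nat_lit 5) (nat_lit 1) (.cons (.ev (nat_lit 40564821629895794148534055535360) (nat_lit 2)) (.cons (.rf (nat_lit 1447) (nat_lit 15283294237810066496)) .nil))) (.cons (.rf (nat_lit 1447) (nat_lit 15283294237810066496)) .nil)))) (.cons (.br (nat_lit 4) (nat_lit 0) (.cons (.br (nat_lit 5) (nat_lit 1) (.cons (.rf (nat_lit 742) (nat_lit 7621117088)) (.cons (.br (nat_lit 7) (nat_lit 0) (.cons (.br (nat_lit 11) (nat_lit 0) (.cons (.ev (nat_lit 79537652264899192184423579648) (nat_lit 1)) .nil)) (.cons (.br (nat_lit 9) (nat_lit 1) (.cons (.ev (nat_lit 79538861190718805709791756288) (nat_lit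 1)) .nil)) .nil))) .nil))) (.cons (.br (nat_lit 5) (nat_lit 1) (.cons (.rf (nat_lit 1469) (nat_lit 493858305440582043680)) (.cons (.br (nat_lit 5) (nat_lit 1) (.cons (.rf (nat_lit 1469) (nat_lit 493858305440582043680)) .nil)) .nil))) (.cons (.ev (nat_lit 79229371458530977771421696256) (nat_lit 1)) .nil)))) .nil)))),
 (.br (nat_lit 10) (nat_lit 0) (.cons (.rf (nat_lit 1395) (nat_lit 295314677854012480)) (.cons (.rf (nat_lit 742) (nat_lit 11922375840)) (.cons (.br (nat_lit 11) (nat_lit 0) (.cons (.rf (nat_lit 1470) (nat_lit 493858305440582043680)) (.cons (.br (nat_lit 3) (nat_lit 1) (.cons (.ev (nat_lit 79229371458530977771421696256) (nat_lit 1)) (.cons (.br (nat_lit 4) (nat_lit 0) (.cons (.zr (nat_lit 55340234420168818944) (nat_lit 20361637770888445922548469727233) (nat_lit 5) (nat_lit 0)) .nil)) .nil))) .nil))) .nil)))),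
 (.br (nat_lit 11) (nat_lit 0) (.cons (.rf (nat_lit 1470) (nat_lit 493858305440582043680)) (.cons (.rf (nat_lit 1471) (nat_lit 493858305440582043680)) (.cons (.br (nat_lit 11) (nat_lit 0) (.cons (.rf (nat_lit 1470) (nat_lit 493858305440582043680)) (.cons (.rf (nat_lit 1471) (nat_lit 493858305440582043680)) .nil))) .nil)))),
 (.br (nat_lit 11) (nat_lit 0) (.cons (.rf (nat_lit 1470) (nat_lit 493858305440582043680)) (.cons (.rf (nat_lit 1472) (nat_lit 493858305440582043680)) (.cons (.br (nat_lit 11) (nat_lit 0) (.cons (.rf (nat_lit 1470) (nat_lit 493858305440582043680)) (.cons (.rf (nat_lit 1472) (nat_lit 493858305440582043680)) .nil))) .nil)))),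
 (.br (nat_lit 11) (nat_lit 0) (.cons (.rf (nat_lit 1395) (nat_lit 295314677921055808)) (.cons (.br (nat_lit 3) (nat_lit 1) (.cons (.br (nat_lit 10) (nat_lit 0) (.cons (.ev (nat_lit 41040503721491387140505686377476) (nat_lit 3)) .nil)) (.cons (.br (nat_lit 7) (nat_lit 0) (.cons (.ev (nat_lit 79538861190718805709791756288) (nat_lit 1)) .nil)) .nil))) .nil))),
 (.br (nat_lit 3) (nat_lit 1) (.cons (.rf (nat_lit 1267) (nat_lit 477596216659904805)) (.cons (.ev (nat_lit 40564819212044154921466139312896) (nat_lit 2)) (.cons (.br (nat_lit 10) (nat_lit 0) (.cons (.rf (nat_lit 1447) (nat_lit 14130372733203219520)) .nil)) .nil)))),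
 (.br (nat_lit 5) (nat_lit 1) (.cons (.rf (nat_lit 742) (nat_lit 7621117088)) (.cons (.br (nat_lit 11) (nat_lit 0) (.cons (.rf (nat_lit 1395) (nat_lit 295314677921055808)) (.cons (.rf (nat_lit 1474) (nat_lit 493858305440582043680)) (.cons (.br (nat_lit 11) (nat_lit 0) (.cons (.ev (nat_lit 309485028268090241962737921) (nat_lit 1)) (.cons (.rf (nat_lit 1474) (nat_lit 493858305440582043680)) .nil))) .nil)))) (.cons (.br (nat_lit 10) (nat_lit 0) (.cons (.rf (nat_lit 1395) (nat_lit 295314677854012480)) (.cons (.rf (nat_lit 1475) (nat_lit 493858305440582043680)) (.cons (.br (nat_lit 10) (nat_lit 0) (.cons (.rf (nat_lit 1395) (nat_lit 295314677854012480)) (.cons (.rf (nat_lit 1475) (nat_lit 493858305440582043680)) .nil))) .nil)))) .nil)))),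
 (.br (nat_lit 11) (nat_lit 0) (.cons (.rf (nat_lit 1395) (nat_lit 295314677921055808)) (.cons (.br (nat_lit 4) (nat_lit 0) (.cons (.br (nat_lit 10) (nat_lit 0) (.cons (.ev (nat_lit 317230616492638618007241884672) (nat_lit 3)) .nil)) (.cons (.ev (nat_lit 20361947255898122589479165296641) (nat_lit 1)) .nil))) .nil))),
 (.br (nat_lit 10) (nat_lit 0) (.cons (.rf (nat_lit 1395) (nat_lit 295314677854012480)) (.cons (.br (nat_lit 3) (nat_lit 1) (.cons (.br (nat_lit 11) (nat_lit 0) (.cons (.ev (nat_lit 40723276760221014387856146236672) (nat_lit 3)) .nil)) (.cons (.rf (nat_lit 1447) (nat_lit 14130372733203219520)) .nil))) .nil))),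
 (.br (nat_lit 5) (nat_lit 1) (.cons (.rf (nat_lit 742) (nat_lit 7621117088)) (.cons (.br (nat_lit 11) (nat_lit 0) (.cons (.rf (nat_lit 1395) (nat_lit 295314677921055808)) (.cons (.rf (nat_lit 1477) (nat_lit 493858305440582043680)) (.cons (.br (nat_lit 11) (nat_lit 0) (.cons (.rf (nat_lit 1395) (nat_lit 295314677921055808)) (.cons (.rf (nat_lit 1477) (nat_lit 493858305440582043680)) .nil))) .nil)))) (.cons (.br (nat_lit 10) (nat_lit 0) (.cons (.rf (nat_lit 1395) (nat_lit 295314677854012480)) (.cons (.rf (nat_lit 1478) (nat_lit 493858305440582043680)) (.cons (.br (nat_lit 10) (nat_lit 0) (.cons (.rf (nat_lit 1395) (nat_lit 295314677854012480)) (.cons (.rf (nat_lit 1478) (nat_lit 493858305440582043680)) .nil))) .nil)))) .nil)))),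
 (.br (nat_lit 13) (nat_lit 1) (.cons (.br (nat_lit 11) (nat_lit 0) (.cons (.rf (nat_lit 1470) (nat_lit 493858305440582043680)) (.cons (.rf (nat_lit 1472) (nat_lit 493858305440582043680)) (.cons (.rf (nat_lit 1473) (nat_lit 493858305440582043680)) (.cons (.br (nat_lit 11) (nat_lit 0) (.cons (.rf (nat_lit 1470) (nat_lit 493858305440582043680)) (.cons (.rf (nat_lit 1472) (nat_lit 493858305440582043680)) (.cons (.rf (nat_lit 1473) (nat_lit 493858305440582043680)) .nil)))) .nil))))) (.cons (.br (nat_lit 5) (nat_lit 1) (.cons (.rf (nat_lit 1476) (nat_lit 493858305440582043680)) (.cons (.rf (nat_lit 1479) (nat_lit 493858305440582043680)) (.cons (.br (nat_lit 5) (nat_lit 1) (.cons (.rf (nat_lit 1476) (nat_lit 493858305440582043680)) (.cons (.rf (nat_lit 1479) (nat_lit 493858305440582043680)) (.cons (.rf (nat_lit 742) (nat_lit 11922375840)) .nil)))) (.cons (.br (nat_lit 5) (nat_lit 1) (.cons (.rf (nat_lit 1476) (nat_lit 493858305440582043680)) (.cons (.rf (nat_lit 1479) (nat_lit 493858305440582043680))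 (.cons (.rf (nat_lit 742) (nat_lit 11922375840)) .nil)))) .nil))))) .nil))),
 (.br (nat_lit 5) (nat_lit 1) (.cons (.rf (nat_lit 742) (nat_lit 7621117088)) (.cons (.br (nat_lit 3) (nat_lit 1) (.cons (.br (nat_lit 7) (nat_lit 0) (.cons (.rf (nat_lit 113) (nat_lit 12669919792597029)) (.cons (.br (nat_lit 9) (nat_lit 1) (.cons (.ev (nat_lit 40564819216785039643049300329216) (nat_lit 2)) .nil)) .nil))) (.cons (.rf (nat_lit 1395) (nat_lit 295314677921055808)) .nil))) (.cons (.br (nat_lit 3) (nat_lit 1) (.cons (.br (nat_lit 12) (nat_lit 1) (.cons (.ev (nat_lit 40564819207303413752121134285056) (nat_lit 2)) (.cons (.br (nat_lit 12) (nat_lit 1) (.cons (.ev (nat_lit 40564819207303413752121134285056) (nat_lit 2)) (.cons (.kr (nat_lit 309485009821345068741558528) (nat_lit 18446745173221244928) (nat_lit 1) (nat_lit 0)) .nil))) (.cons (.kr (nat_lit 309485009821345068741558528) (nat_lit 18446745173221244928) (nat_lit 1) (nat_lit 0)) .nil)))) (.cons (.rf (nat_lit 1395) (nat_lit 295314677854012480))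 (.cons (.ev (nat_lit 20282719088661491770115504472064) (nat_lit 1)) .nil)))) .nil)))),
 (.br (nat_lit 11) (nat_lit 0) (.cons (.rf (nat_lit 1395) (nat_lit 295314677921055808)) (.cons (.br (nat_lit 3) (nat_lit 1) (.cons (.br (nat_lit 7) (nat_lit 0) (.cons (.ev (nat_lit 20520097722712880185709692977410) (nat_lit 2)) .nil)) (.cons (.br (nat_lit 4) (nat_lit 0) (.cons (.ev (nat_lit 20282409617818770156243105415171) (nat_lit 2)) .nil)) .nil))) .nil))),
 (.br (nat_lit 5) (nat_lit 1) (.cons (.rf (nat_lit 742) (nat_lit 7621117088)) (.cons (.br (nat_lit 11) (nat_lit 0) (.cons (.rf (nat_lit 1395) (nat_lit 295314677921055808)) (.cons (.rf (nat_lit 1482) (nat_lit 493858305440582043680)) (.cons (.br (nat_lit 11) (nat_lit 0) (.cons (.rf (nat_lit 1395) (nat_lit 295314677921055808)) (.cons (.rf (nat_lit 1482) (nat_lit 493858305440582043680)) .nil))) .nil)))) (.cons (.br (nat_lit 10) (nat_lit 0) (.cons (.rf (nat_lit 1395) (nat_lit 295314677854012480)) (.cons (.br (nat_lit 11) (nat_lit 0) (.cons (.ev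 (nat_lit 20282720302328124892063499026688) (nat_lit 1)) (.cons (.br (nat_lit 3) (nat_lit 1) (.cons (.br (nat_lit 7) (nat_lit 0) (.cons (.ev (nat_lit 40723276760221014387856146236672) (nat_lit 3)) .nil)) (.cons (.br (nat_lit 4) (nat_lit 0) (.cons (.ev (nat_lit 40723591062099989621382441861632) (nat_lit 3)) .nil)) .nil))) .nil))) (.cons (.br (nat_lit 11) (nat_lit 0) (.cons (.br (nat_lit 4) (nat_lit 0) (.cons (.br (nat_lit 7) (nat_lit 0) (.cons (.zr (nat_lit 5880215187254074665265661440) (nat_lit 283953742932512036210086170853386) (nat_lit 20) (nat_lit 3)) .nil)) (.cons (.ev (nat_lit 79229371458530977771421696256) (nat_lit 1)) .nil))) (.cons (.br (nat_lit 4) (nat_lit 0) (.cons (.br (nat_lit 7) (nat_lit 0) (.cons (.ev (nat_lit 203141321836232715435512561533446) (nat_lit 4)) .nil)) (.cons (.ev (nat_lit 20283030996245319672849533960195) (nat_lit 2)) .nil))) (.cons (.ev (nat_lit 79538856449905579865931841536) (nat_lit 1)) .nil)))) .nil)))) .nil))))]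

theorem c40 : chkAll C T R L40 (nat_lit 1455) = true := by decide +kernel

theorem l40 : (nat_lit 1455) + L40.length = (nat_lit 1484) := by decide +kernel

/-- part of the certificates -/
def L41 : List Prf := [(.br (nat_lit 13) (nat_lit 1) (.cons (.rf (nat_lit 1480) (nat_lit 493858305440582043680)) (.cons (.br (nat_lit 5) (nat_lit 1) (.cons (.rf (nat_lit 1481) (nat_lit 493858305440582043680)) (.cons (.rf (nat_lit 1483) (nat_lit 493858305440582043680)) (.cons (.br (nat_lit 5) (nat_lit 1) (.cons (.rf (nat_lit 1481) (nat_lit 493858305440582043680)) (.cons (.rf (nat_lit 1483) (nat_lit 493858305440582043680)) (.cons (.rf (nat_lit 742) (nat_lit 11922375840)) .nil)))) (.cons (.br (nat_lit 5) (nat_lit 1) (.cons (.rf (nat_lit 1481) (nat_lit 493858305440582043680)) (.cons (.rf (nat_lit 1483) (nat_lit 493858305440582043680)) (.cons (.rf (nat_lit 742) (nat_lit 11922375840)) .nil)))) .nil))))) .nil))),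
 (.br (nat_lit 13) (nat_lit 1) (.cons (.rf (nat_lit 1480) (nat_lit 493858305440582043680)) (.cons (.rf (nat_lit 1484) (nat_lit 493858305440582043680)) (.cons (.br (nat_lit 13) (nat_lit 1) (.cons (.rf (nat_lit 1480) (nat_lit 493858305440582043680)) (.cons (.rf (nat_lit 1484) (nat_lit 493858305440582043680)) .nil))) .nil)))),
 (.br (nat_lit 5) (nat_lit 1) (.cons (.br (nat_lit 7) (nat_lit 0) (.cons (.br (nat_lit 10) (nat_lit 0) (.cons (.br (nat_lit 11) (nat_lit 0) (.cons (.ev (nat_lit 79537647524157740260618404096) (nat_lit 1)) .nil)) .nil)) (.cons (.br (nat_lit 9) (nat_lit 1) (.cons (.br (nat_lit 11) (nat_lit 0) (.cons (.ev (nat_lit 122170144563431479758328676353024) (nat_lit 3)) .nil)) (.cons (.br (nat_lit 10) (nat_lit 0) (.cons (.ev (nat_lit 203933613094966090377342592221696) (nat_lit 4)) .nil)) .nil))) .nil))) (.cons (.br (nat_lit 4) (nat_lit 0) (.cons (.br (nat_lit 10) (nat_lit 0) (.cons (.br (nat_lit 11) (nat_lit 0) (.cons (.ev (nat_lit 79538856449905579865931841536) (nat_lit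 1)) .nil)) .nil)) (.cons (.br (nat_lit 9) (nat_lit 1) (.cons (.br (nat_lit 11) (nat_lit 0) (.cons (.ev (nat_lit 40723276760221014387856146236672) (nat_lit 3)) .nil)) (.cons (.br (nat_lit 10) (nat_lit 0) (.cons (.ev (nat_lit 82239150684576021858300480325642) (nat_lit 4)) .nil)) .nil))) .nil))) (.cons (.rf (nat_lit 742) (nat_lit 11922375840)) .nil)))),
 (.br (nat_lit 11) (nat_lit 0) (.cons (.rf (nat_lit 1486) (nat_lit 493858305440582043680)) (.cons (.br (nat_lit 10) (nat_lit 0) (.cons (.br (nat_lit 4) (nat_lit 0) (.cons (.br (nat_lit 7) (nat_lit 0) (.cons (.ev (nat_lit 82239150665908205086099544604682) (nat_lit 4)) .nil)) (.cons (.br (nat_lit 5) (nat_lit 1) (.cons (.ev (nat_lit 285063241838388152545735017235972) (nat_lit 4)) .nil)) .nil))) (.cons (.ev (nat_lit 79229371458530977771421696256) (nat_lit 1)) .nil))) .nil))),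
 (.br (nat_lit 11) (nat_lit 0) (.cons (.rf (nat_lit 1486) (nat_lit 493858305440582043680)) (.cons (.rf (nat_lit 1487) (nat_lit 493858305440582043680)) (.cons (.br (nat_lit 11) (nat_lit 0) (.cons (.rf (nat_lit 1486) (nat_lit 493858305440582043680)) (.cons (.rf (nat_lit 1487) (nat_lit 493858305440582043680)) .nil))) .nil)))),
 (.br (nat_lit 4) (nat_lit 0) (.cons (.rf (nat_lit 1488) (nat_lit 493858305440582043680)) (.cons (.br (nat_lit 7) (nat_lit 0) (.cons (.rf (nat_lit 1144) (nat_lit 408035644738249825)) (.cons (.rf (nat_lit 742) (nat_lit 7621117088)) (.cons (.br (nat_lit 3) (nat_lit 1) (.cons (.br (nat_lit 5) (nat_lit 1) (.cons (.ev (nat_lit 20282409603670117450599760920576) (nat_lit 1)) .nil)) (.cons (.br (nat_lit 5) (nat_lit 1) (.cons (.ev (nat_lit 1208925891954802012717313) (nat_lit 1)) (.cons (.rf (nat_lit 1216) (nat_lit 9454613977313182789)) .nil))) .nil))) .nil)))) (.cons (.br (nat_lit 5) (nat_lit 1) (.cons (.rf (nat_lit 742) (nat_lit 7621117088)) (.cons (.br (nat_lit 3)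 (nat_lit 1) (.cons (.br (nat_lit 9) (nat_lit 1) (.cons (.br (nat_lit 11) (nat_lit 0) (.cons (.ev (nat_lit 320393768706789477014046216) (nat_lit 4)) .nil)) .nil)) (.cons (.rf (nat_lit 1395) (nat_lit 295314677921055808)) .nil))) (.cons (.br (nat_lit 3) (nat_lit 1) (.cons (.br (nat_lit 9) (nat_lit 1) (.cons (.kr (nat_lit 1208925819614633486450944) (nat_lit 72340168526331904) (nat_lit 1) (nat_lit 0)) (.cons (.br (nat_lit 10) (nat_lit 0) (.cons (.zr (nat_lit 55340234420168818944) (nat_lit 20361637770888445922548469727233) (nat_lit 5) (nat_lit 0)) .nil)) .nil))) (.cons (.rf (nat_lit 1395) (nat_lit 295314677854012480)) (.cons (.br (nat_lit 10) (nat_lit 0) (.cons (.rf (nat_lit 1267) (nat_lit 477596347865994274)) (.cons (.ev (nat_lit 79229371458530977771421696256) (nat_lit 1)) .nil))) .nil)))) .nil)))) .nil)))),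
 (.br (nat_lit 4) (nat_lit 0) (.cons (.rf (nat_lit 1488) (nat_lit 493858305440582043680)) (.cons (.rf (nat_lit 1489) (nat_lit 493858305440582043680)) (.cons (.br (nat_lit 3) (nat_lit 1) (.cons (.rf (nat_lit 1387) (nat_lit 15433067646975872065)) (.cons (.br (nat_lit 5) (nat_lit 1) (.cons (.br (nat_lit 11) (nat_lit 0) (.cons (.rf (nat_lit 1395) (nat_lit 295314677854012480)) (.cons (.ev (nat_lit 20361637766166007100609826652161) (nat_lit 1)) .nil))) (.cons (.rf (nat_lit 1395) (nat_lit 295314677854012480)) .nil))) (.cons (.br (nat_lit 10) (nat_lit 0) (.cons (.rf (nat_lit 1395) (nat_lit 295314677921055808)) (.cons (.ev (nat_lit 79229371458530977771421696256) (nat_lit 1)) .nil))) .nil)))) .nil)))),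
 (.br (nat_lit 13) (nat_lit 1) (.cons (.rf (nat_lit 1485) (nat_lit 493858305440582043680)) (.cons (.br (nat_lit 4) (nat_lit 0) (.cons (.rf (nat_lit 1488) (nat_lit 493858305440582043680)) (.cons (.rf (nat_lit 1489) (nat_lit 493858305440582043680)) (.cons (.rf (nat_lit 1490) (nat_lit 493858305440582043680)) (.cons (.br (nat_lit 4) (nat_lit 0) (.cons (.rf (nat_lit 1488) (nat_lit 493858305440582043680)) (.cons (.rf (nat_lit 1489) (nat_lit 493858305440582043680)) (.cons (.rf (nat_lit 1490) (nat_lit 493858305440582043680)) .nil)))) .nil))))) .nil))),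
 (.br (nat_lit 13) (nat_lit 1) (.cons (.rf (nat_lit 1485) (nat_lit 493858305440582043680)) (.cons (.rf (nat_lit 1491) (nat_lit 493858305440582043680)) (.cons (.br (nat_lit 13) (nat_lit 1) (.cons (.rf (nat_lit 1485) (nat_lit 493858305440582043680)) (.cons (.rf (nat_lit 1491) (nat_lit 493858305440582043680)) .nil))) .nil)))),
 (.br (nat_lit 13) (nat_lit 1) (.cons (.rf (nat_lit 1485) (nat_lit 493858305440582043680)) (.cons (.rf (nat_lit 1492) (nat_lit 493858305440582043680)) (.cons (.br (nat_lit 13) (nat_lit 1) (.cons (.rf (nat_lit 1485) (nat_lit 493858305440582043680)) (.cons (.rf (nat_lit 1492) (nat_lit 493858305440582043680)) .nil))) .nil)))),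
 (.br (nat_lit 8) (nat_lit 0) (.cons (.rf (nat_lit 1447) (nat_lit 14242959524133701664)) (.cons (.rf (nat_lit 1468) (nat_lit 14242959524133701664)) (.cons (.br (nat_lit 13) (nat_lit 1) (.cons (.rf (nat_lit 1485) (nat_lit 493858305440582043680)) (.cons (.rf (nat_lit 1492) (nat_lit 493858305440582043680)) (.cons (.rf (nat_lit 1493) (nat_lit 493858305440582043680)) (.cons (.br (nat_lit 13) (nat_lit 1) (.cons (.rf (nat_lit 1485) (nat_lit 493858305440582043680)) (.cons (.rf (nat_lit 1492) (nat_lit 493858305440582043680)) (.cons (.rf (nat_lit 1493) (nat_lit 493858305440582043680)) .nil)))) .nil))))) .nil)))),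
 (.br (nat_lit 6) (nat_lit 0) (.cons (.rf (nat_lit 742) (nat_lit 8764064864)) (.cons (.rf (nat_lit 1395) (nat_lit 407901468851537952)) (.cons (.br (nat_lit 8) (nat_lit 0) (.cons (.rf (nat_lit 1447) (nat_lit 14242959524133701664)) (.cons (.rf (nat_lit 1468) (nat_lit 14242959524133701664)) (.cons (.rf (nat_lit 1494) (nat_lit 14242959524133701664)) (.cons (.br (nat_lit 8) (nat_lit 0) (.cons (.rf (nat_lit 1447) (nat_lit 14242959524133701664)) (.cons (.rf (nat_lit 1468) (nat_lit 14242959524133701664)) (.cons (.rf (nat_lit 1494) (nat_lit 14242959524133701664)) .nil)))) .nil))))) .nil)))),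
 (.br (nat_lit 4) (nat_lit 0) (.cons (.ev (nat_lit 4740813228042883170561) (nat_lit 1)) (.cons (.br (nat_lit 7) (nat_lit 0) (.cons (.zr (nat_lit 2436741177499805944906496) (nat_lit 79228162569604570927085977600) (nat_lit 5) (nat_lit 2)) (.cons (.rf (nat_lit 1350) (nat_lit 15425085127123108931)) .nil))) .nil))),
 (.br (nat_lit 4) (nat_lit 0) (.cons (.ev (nat_lit 4740813228042883170561) (nat_lit 1)) (.cons (.br (nat_lit 11) (nat_lit 0) (.cons (.rf (nat_lit 1496) (nat_lit 493858305440582043680)) (.cons (.rf (nat_lit 1338) (nat_lit 14308192419535225923)) .nil))) .nil))),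
 (.br (nat_lit 10) (nat_lit 0) (.cons (.rf (nat_lit 1395) (nat_lit 295314677921055808)) (.cons (.rf (nat_lit 1495) (nat_lit 295314677921055808)) (.cons (.br (nat_lit 11) (nat_lit 0) (.cons (.rf (nat_lit 1496) (nat_lit 493858305440582043680)) (.cons (.rf (nat_lit 1497) (nat_lit 493858305440582043680)) (.cons (.br (nat_lit 11) (nat_lit 0) (.cons (.rf (nat_lit 1496) (nat_lit 493858305440582043680)) (.cons (.rf (nat_lit 1497) (nat_lit 493858305440582043680)) .nil))) .nil)))) .nil)))),
 (.br (nat_lit 11) (nat_lit 0) (.cons (.rf (nat_lit 1498) (nat_lit 493858305440582043680)) (.cons (.rf (nat_lit 1498) (nat_lit 493858305440515000352)) (.cons (.br (nat_lit 11) (nat_lit 0) (.cons (.rf (nat_lit 1498) (nat_lit 493858305440582043680)) (.cons (.rf (nat_lit 1498) (nat_lit 493858305440515000352)) .nil))) .nil)))),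
 (.br (nat_lit 11) (nat_lit 0) (.cons (.rf (nat_lit 1498) (nat_lit 493858305440582043680)) (.cons (.rf (nat_lit 1498) (nat_lit 493858305440515000352)) (.cons (.rf (nat_lit 1499) (nat_lit 493858305440582043680)) (.cons (.br (nat_lit 11) (nat_lit 0) (.cons (.rf (nat_lit 1498) (nat_lit 493858305440582043680)) (.cons (.rf (nat_lit 1498) (nat_lit 493858305440515000352)) (.cons (.rf (nat_lit 1499) (nat_lit 493858305440582043680)) .nil)))) .nil))))),
 (.br (nat_lit 3) (nat_lit 1) (.cons (.br (nat_lit 5) (nat_lit 1) (.cons (.br (nat_lit 9) (nat_lit 1) (.cons (.br (nat_lit 11) (nat_lit 0) (.cons (.ev (nat_lit 122170154234911677845402773359620) (nat_lit 4)) .nil)) .nil)) (.cons (.rf (nat_lit 1395) (nat_lit 295314677854012480)) .nil))) (.cons (.rf (nat_lit 1419) (nat_lit 493858305440582043680)) .nil))),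
 (.br (nat_lit 11) (nat_lit 0) (.cons (.ev (nat_lit 20282720302328124892063499026688) (nat_lit 1)) (.cons (.ev (nat_lit 20282720302328124893162993877248) (nat_lit 1)) .nil))),
 (.br (nat_lit 10) (nat_lit 0) (.cons (.rf (nat_lit 1421) (nat_lit 493858305440582043680)) (.cons (.rf (nat_lit 1421) (nat_lit 493858305440515000352)) (.cons (.br (nat_lit 11) (nat_lit 0) (.cons (.rf (nat_lit 1495) (nat_lit 295314677921055808)) (.cons (.rf (nat_lit 1495) (nat_lit 295314677854012480)) (.cons (.rf (nat_lit 1502) (nat_lit 493858305440582043680)) .nil)))) .nil)))),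
 (.br (nat_lit 13) (nat_lit 1) (.cons (.rf (nat_lit 1501) (nat_lit 493858305440582043680)) (.cons (.rf (nat_lit 1503) (nat_lit 493858305440582043680)) (.cons (.br (nat_lit 13) (nat_lit 1) (.cons (.rf (nat_lit 1501) (nat_lit 493858305440582043680)) (.cons (.rf (nat_lit 1503) (nat_lit 493858305440582043680)) .nil))) .nil)))),
 (.br (nat_lit 5) (nat_lit 1) (.cons (.ev (nat_lit 1099528405249) (nat_lit 1)) (.cons (.br (nat_lit 9) (nat_lit 1) (.cons (.kr (nat_lit 18446744073709551616) (nat_lit 4722366482869645213696) (nat_lit 8) (nat_lit 0)) (.cons (.ev (nat_lit 20282412026225748195881208972035) (nat_lit 2)) .nil))) (.cons (.ev (nat_lit 20282409603670189226718805426176) (nat_lit 1)) .nil)))),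
 (.br (nat_lit 13) (nat_lit 1) (.cons (.rf (nat_lit 1500) (nat_lit 458117738797769787424)) (.cons (.br (nat_lit 3) (nat_lit 1) (.cons (.rf (nat_lit 1505) (nat_lit 493858305440582043680)) (.cons (.br (nat_lit 5) (nat_lit 1) (.cons (.rf (nat_lit 1505) (nat_lit 493858305440515000352)) (.cons (.rf (nat_lit 1395) (nat_lit 295314677854012480)) .nil))) (.cons (.br (nat_lit 5) (nat_lit 1) (.cons (.ev (nat_lit 20282409603670189225619310575616) (nat_lit 1)) (.cons (.rf (nat_lit 1395) (nat_lit 295314677921055808)) .nil))) .nil)))) .nil))),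
 (.br (nat_lit 13) (nat_lit 1) (.cons (.rf (nat_lit 1504) (nat_lit 493858305440582043680)) (.cons (.rf (nat_lit 1506) (nat_lit 493858305440582043680)) (.cons (.br (nat_lit 13) (nat_lit 1) (.cons (.rf (nat_lit 1504) (nat_lit 493858305440582043680)) (.cons (.rf (nat_lit 1506) (nat_lit 493858305440582043680)) .nil))) .nil)))),
 (.br (nat_lit 13) (nat_lit 1) (.cons (.rf (nat_lit 1504) (nat_lit 493858305440582043680)) (.cons (.rf (nat_lit 1507) (nat_lit 493858305440582043680)) (.cons (.br (nat_lit 13) (nat_lit 1) (.cons (.rf (nat_lit 1504) (nat_lit 493858305440582043680)) (.cons (.rf (nat_lit 1507) (nat_lit 493858305440582043680)) .nil))) .nil)))),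
 (.br (nat_lit 12) (nat_lit 1) (.cons (.rf (nat_lit 1500) (nat_lit 493858305440582043680)) (.cons (.br (nat_lit 13) (nat_lit 1) (.cons (.rf (nat_lit 1504) (nat_lit 493858305440582043680)) (.cons (.rf (nat_lit 1507) (nat_lit 493858305440582043680)) (.cons (.rf (nat_lit 1508) (nat_lit 493858305440582043680)) (.cons (.br (nat_lit 13) (nat_lit 1) (.cons (.rf (nat_lit 1504) (nat_lit 493858305440582043680)) (.cons (.rf (nat_lit 1507) (nat_lit 493858305440582043680)) (.cons (.rf (nat_lit 1508) (nat_lit 493858305440582043680)) .nil)))) .nil))))) .nil))),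
 (.br (nat_lit 6) (nat_lit 0) (.cons (.rf (nat_lit 1194) (nat_lit 434482349019138)) (.cons (.rf (nat_lit 1194) (nat_lit 434482349023234)) .nil))),
 (.br (nat_lit 13) (nat_lit 1) (.cons (.rf (nat_lit 1509) (nat_lit 458117738797769787424)) (.cons (.br (nat_lit 7) (nat_lit 0) (.cons (.rf (nat_lit 1510) (nat_lit 15433072045018188865)) (.cons (.rf (nat_lit 1510) (nat_lit 15433072045016093761)) (.cons (.rf (nat_lit 1510) (nat_lit 15433067646969586753)) .nil)))) .nil))),
 (.br (nat_lit 13) (nat_lit 1) (.cons (.rf (nat_lit 1509) (nat_lit 458117738797769787424)) (.cons (.rf (nat_lit 1511) (nat_lit 493858305440582043680)) (.cons (.br (nat_lit 10) (nat_lit 0) (.cons (.rf (nat_lit 1421) (nat_lit 458117738797769787424)) (.cons (.rf (nat_lit 1421) (nat_lit 458117738797702744096)) (.cons (.rf (nat_lit 1502) (nat_lit 458117738797769787424)) (.cons (.rf (nat_lit 1511) (nat_lit 493858305440582043680)) .nil))))) .nil)))),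
 (.br (nat_lit 5) (nat_lit 1) (.cons (.br (nat_lit 9) (nat_lit 1) (.cons (.ev (nat_lit 158784010095196384128180029962) (nat_lit 4)) .nil)) (.cons (.br (nat_lit 7) (nat_lit 0) (.cons (.zr (nat_lit 60847231228843543989256162639877) (nat_lit 928464474269342213502796800) (nat_lit 10) (nat_lit 3)) .nil)) .nil)))]

theorem c41 : chkAll C T R L41 (nat_lit 1484) = true := by decide +kernel

theorem l41 : (nat_lit 1484) + L41.length = (nat_lit 1514) := by decide +kernel

/-- part of the certificates -/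
def L42 : List Prf := [(.br (nat_lit 13) (nat_lit 1) (.cons (.rf (nat_lit 1509) (nat_lit 458117738797769787424)) (.cons (.br (nat_lit 3) (nat_lit 1) (.cons (.rf (nat_lit 1513) (nat_lit 493858305440582043680)) (.cons (.br (nat_lit 5) (nat_lit 1) (.cons (.rf (nat_lit 1513) (nat_lit 493858305440515000352)) (.cons (.ev (nat_lit 20282720297587383442338717171968) (nat_lit 1)) .nil))) (.cons (.br (nat_lit 5) (nat_lit 1) (.cons (.rf (nat_lit 1513) (nat_lit 493858305440515000352)) (.cons (.ev (nat_lit 20282720297587383442338717171968) (nat_lit 1)) .nil))) .nil)))) .nil))),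
 (.br (nat_lit 13) (nat_lit 1) (.cons (.rf (nat_lit 1509) (nat_lit 458117738797769787424)) (.cons (.rf (nat_lit 1514) (nat_lit 493858305440582043680)) (.cons (.br (nat_lit 13) (nat_lit 1) (.cons (.rf (nat_lit 1509) (nat_lit 458117738797769787424)) (.cons (.rf (nat_lit 1514) (nat_lit 493858305440582043680)) .nil))) .nil)))),
 (.br (nat_lit 13) (nat_lit 1) (.cons (.rf (nat_lit 1512) (nat_lit 493858305440582043680)) (.cons (.rf (nat_lit 1515) (nat_lit 493858305440582043680)) (.cons (.br (nat_lit 13) (nat_lit 1) (.cons (.rf (nat_lit 1512) (nat_lit 493858305440582043680)) (.cons (.rf (nat_lit 1515) (nat_lit 493858305440582043680)) .nil))) .nil)))),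
 (.br (nat_lit 12) (nat_lit 1) (.cons (.rf (nat_lit 1509) (nat_lit 493858305440582043680)) (.cons (.br (nat_lit 13) (nat_lit 1) (.cons (.rf (nat_lit 1512) (nat_lit 493858305440582043680)) (.cons (.rf (nat_lit 1515) (nat_lit 493858305440582043680)) (.cons (.rf (nat_lit 1516) (nat_lit 493858305440582043680)) (.cons (.br (nat_lit 13) (nat_lit 1) (.cons (.rf (nat_lit 1512) (nat_lit 493858305440582043680)) (.cons (.rf (nat_lit 1515) (nat_lit 493858305440582043680)) (.cons (.rf (nat_lit 1516) (nat_lit 493858305440582043680)) .nil)))) .nil))))) .nil))),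
 (.br (nat_lit 12) (nat_lit 1) (.cons (.rf (nat_lit 1509) (nat_lit 493858305440582043680)) (.cons (.rf (nat_lit 1517) (nat_lit 493858305440582043680)) (.cons (.br (nat_lit 12) (nat_lit 1) (.cons (.rf (nat_lit 1509) (nat_lit 493858305440582043680)) (.cons (.rf (nat_lit 1517) (nat_lit 493858305440582043680)) .nil))) .nil)))),
 (.br (nat_lit 13) (nat_lit 1) (.cons (.rf (nat_lit 1518) (nat_lit 458117738797769787424)) (.cons (.br (nat_lit 12) (nat_lit 1) (.cons (.rf (nat_lit 1518) (nat_lit 493858305440582043680)) (.cons (.br (nat_lit 3) (nat_lit 1) (.cons (.br (nat_lit 5) (nat_lit 1) (.cons (.br (nat_lit 9) (nat_lit 1) (.cons (.ev (nat_lit 40723588682101644566271539806220) (nat_lit 4)) .nil)) (.cons (.ev (nat_lit 1208925891673322741104641) (nat_lit 1)) .nil))) (.cons (.br (nat_lit 5) (nat_lit 1) (.cons (.ev (nat_lit 1208925891673322741104641) (nat_lit 1)) .nil)) .nil))) .nil))) .nil))),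
 (.br (nat_lit 13) (nat_lit 1) (.cons (.rf (nat_lit 1518) (nat_lit 458117738797769787424)) (.cons (.rf (nat_lit 1519) (nat_lit 493858305440582043680)) .nil))),
 (.br (nat_lit 12) (nat_lit 1) (.cons (.rf (nat_lit 1518) (nat_lit 493858305440582043680)) (.cons (.br (nat_lit 13) (nat_lit 1) (.cons (.rf (nat_lit 1518) (nat_lit 458117738797769787424)) (.cons (.br (nat_lit 13) (nat_lit 1) (.cons (.rf (nat_lit 1518) (nat_lit 458117738797769787424)) (.cons (.rf (nat_lit 1519) (nat_lit 458117738797769787424)) (.cons (.rf (nat_lit 1519) (nat_lit 493858305440582043680)) .nil)))) (.cons (.br (nat_lit 13) (nat_lit 1) (.cons (.rf (nat_lit 1518) (nat_lit 458117738797769787424)) (.cons (.rf (nat_lit 1519) (nat_lit 458117738797769787424)) (.cons (.rf (nat_lit 1520) (nat_lit 493858305440582043680)) .nil)))) (.cons (.br (nat_lit 13) (nat_lit 1) (.cons (.rf (nat_lit 1518) (nat_lit 458117738797769787424)) (.cons (.rf (nat_lit 1519) (nat_lit 493858305440582043680)) (.cons (.rf (nat_lit 1520) (nat_lit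 493858305440582043680)) .nil)))) .nil))))) .nil))),
 (.br (nat_lit 12) (nat_lit 1) (.cons (.rf (nat_lit 1518) (nat_lit 493858305440582043680)) (.cons (.rf (nat_lit 1521) (nat_lit 493858305440582043680)) (.cons (.br (nat_lit 12) (nat_lit 1) (.cons (.rf (nat_lit 1518) (nat_lit 493858305440582043680)) (.cons (.rf (nat_lit 1521) (nat_lit 493858305440582043680)) .nil))) .nil)))),
 (.br (nat_lit 12) (nat_lit 1) (.cons (.rf (nat_lit 1518) (nat_lit 493858305440582043680)) (.cons (.rf (nat_lit 1522) (nat_lit 493858305440582043680)) (.cons (.br (nat_lit 12) (nat_lit 1) (.cons (.rf (nat_lit 1518) (nat_lit 493858305440582043680)) (.cons (.rf (nat_lit 1522) (nat_lit 493858305440582043680)) .nil))) .nil)))),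
 (.br (nat_lit 10) (nat_lit 0) (.cons (.rf (nat_lit 1395) (nat_lit 295314677921055808)) (.cons (.rf (nat_lit 1495) (nat_lit 295314677921055808)) (.cons (.br (nat_lit 7) (nat_lit 0) (.cons (.br (nat_lit 9) (nat_lit 1) (.cons (.rf (nat_lit 1086) (nat_lit 14208191830550612005)) (.cons (.br (nat_lit 9) (nat_lit 1) (.cons (.zr (nat_lit 14167100574508842680320) (nat_lit 20282412021540203142456843174144) (nat_lit 5) (nat_lit 1)) .nil)) .nil))) (.cons (.br (nat_lit 9) (nat_lit 1) (.cons (.kr (nat_lit 18446744078004518912) (nat_lit 4722366764344621924352) (nat_lit 4) (nat_lit 0)) (.cons (.br (nat_lit 11) (nat_lit 0) (.cons (.ev (nat_lit 309489732187829037898465281) (nat_lit 1)) (.cons (.ev (nat_lit 79537652264971248674654912768) (nat_lit 1)) .nil))) .nil))) (.cons (.kr (nat_lit 79228162514264337593543950337) (nat_lit 18446744073709617152) (nat_lit 0) (nat_lit 1)) .nil)))) .nil)))),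
 (.br (nat_lit 11) (nat_lit 0) (.cons (.rf (nat_lit 1524) (nat_lit 493858305440582043680)) (.cons (.rf (nat_lit 1524) (nat_lit 493858305440515000352)) (.cons (.br (nat_lit 11) (nat_lit 0) (.cons (.rf (nat_lit 1524) (nat_lit 493858305440582043680)) (.cons (.rf (nat_lit 1524) (nat_lit 493858305440515000352)) .nil))) .nil)))),
 (.br (nat_lit 11) (nat_lit 0) (.cons (.rf (nat_lit 1495) (nat_lit 295314677921055808)) (.cons (.rf (nat_lit 1495) (nat_lit 295314677854012480)) (.cons (.br (nat_lit 11) (nat_lit 0) (.cons (.rf (nat_lit 1495) (nat_lit 295314677921055808)) (.cons (.rf (nat_lit 1495) (nat_lit 295314677854012480)) .nil))) .nil)))),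
 (.br (nat_lit 5) (nat_lit 1) (.cons (.ev (nat_lit 1099528470529) (nat_lit 1)) (.cons (.br (nat_lit 7) (nat_lit 0) (.cons (.br (nat_lit 11) (nat_lit 0) (.cons (.ev (nat_lit 79228167236631103041989246976) (nat_lit 1)) .nil)) .nil)) (.cons (.ev (nat_lit 4740813509522154913793) (nat_lit 1)) .nil)))),
 (.br (nat_lit 9) (nat_lit 1) (.cons (.kr (nat_lit 18446744078004518912) (nat_lit 4722366764344621924352) (nat_lit 4) (nat_lit 0)) (.cons (.rf (nat_lit 1526) (nat_lit 15395881028740548640)) (.cons (.br (nat_lit 10) (nat_lit 0) (.cons (.rf (nat_lit 1527) (nat_lit 493858305440582043680)) (.cons (.rf (nat_lit 1527) (nat_lit 493858305440515000352)) (.cons (.br (nat_lit 10) (nat_lit 0) (.cons (.rf (nat_lit 1527) (nat_lit 493858305440582043680)) (.cons (.rf (nat_lit 1527) (nat_lit 493858305440515000352)) .nil))) .nil)))) .nil)))),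
 (.br (nat_lit 11) (nat_lit 0) (.cons (.rf (nat_lit 1495) (nat_lit 295314677921055808)) (.cons (.rf (nat_lit 1495) (nat_lit 295314677854012480)) (.cons (.br (nat_lit 11) (nat_lit 0) (.cons (.rf (nat_lit 1495) (nat_lit 295314677921055808)) (.cons (.rf (nat_lit 1495) (nat_lit 295314677854012480)) .nil))) .nil)))),
 (.br (nat_lit 11) (nat_lit 0) (.cons (.rf (nat_lit 1395) (nat_lit 295314677854012480)) (.cons (.br (nat_lit 4) (nat_lit 0) (.cons (.br (nat_lit 10) (nat_lit 0) (.cons (.ev (nat_lit 20361638979832567885687813046273) (nat_lit 1)) .nil)) (.cons (.br (nat_lit 5) (nat_lit 1) (.cons (.ev (nat_lit 122011697919327882135954975886850) (nat_lit 4)) .nil)) .nil))) .nil))),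
 (.br (nat_lit 9) (nat_lit 1) (.cons (.kr (nat_lit 18446744078004518912) (nat_lit 4722366764344621924352) (nat_lit 4) (nat_lit 0)) (.cons (.rf (nat_lit 1529) (nat_lit 15395881028740548640)) (.cons (.br (nat_lit 10) (nat_lit 0) (.cons (.rf (nat_lit 1530) (nat_lit 493858305440582043680)) (.cons (.rf (nat_lit 1530) (nat_lit 493858305440515000352)) (.cons (.br (nat_lit 10) (nat_lit 0) (.cons (.rf (nat_lit 1530) (nat_lit 493858305440582043680)) (.cons (.rf (nat_lit 1530) (nat_lit 493858305440515000352)) .nil))) .nil)))) .nil)))),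
 (.br (nat_lit 9) (nat_lit 1) (.cons (.rf (nat_lit 1526) (nat_lit 15395881028740548640)) (.cons (.rf (nat_lit 1529) (nat_lit 15395881028740548640)) (.cons (.br (nat_lit 11) (nat_lit 0) (.cons (.rf (nat_lit 1495) (nat_lit 295314677921055808)) (.cons (.rf (nat_lit 1495) (nat_lit 295314677854012480)) (.cons (.br (nat_lit 7) (nat_lit 0) (.cons (.ev (nat_lit 20282719088661564108085007548416) (nat_lit 1)) (.cons (.ev (nat_lit 20282719088661564109184502398976) (nat_lit 1)) (.cons (.br (nat_lit 3) (nat_lit 1) (.cons (.br (nat_lit 5) (nat_lit 1) (.cons (.zr (nat_lit 237684487542865079192237638403) (nat_lit 40564819212025708456664172527616) (nat_lit 10) (nat_lit 5)) .nil)) (.cons (.br (nat_lit 4) (nat_lit 0) (.cons (.zr (nat_lit 237684487542865070396278833923) (nat_lit 40564819212025708464360636481536) (nat_lit 10) (nat_lit 3)) .nil)) .nil))) .nil)))) .nil)))) .nil)))),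
 (.br (nat_lit 13) (nat_lit 1) (.cons (.br (nat_lit 11) (nat_lit 0) (.cons (.rf (nat_lit 1524) (nat_lit 493858305440582043680)) (.cons (.rf (nat_lit 1524) (nat_lit 493858305440515000352)) (.cons (.rf (nat_lit 1525) (nat_lit 493858305440582043680)) (.cons (.br (nat_lit 11) (nat_lit 0) (.cons (.rf (nat_lit 1524) (nat_lit 493858305440582043680)) (.cons (.rf (nat_lit 1524) (nat_lit 493858305440515000352)) (.cons (.rf (nat_lit 1525) (nat_lit 493858305440582043680)) .nil)))) .nil))))) (.cons (.br (nat_lit 9) (nat_lit 1) (.cons (.rf (nat_lit 1528) (nat_lit 493858305440582043680)) (.cons (.rf (nat_lit 1531) (nat_lit 493858305440582043680)) (.cons (.rf (nat_lit 1532) (nat_lit 493858305440582043680)) (.cons (.br (nat_lit 9) (nat_lit 1) (.cons (.rf (nat_lit 1528) (nat_lit 493858305440582043680)) (.cons (.rf (nat_lit 1531) (nat_lit 493858305440582043680)) (.cons (.rf (nat_lit 1532) (nat_lit 493858305440582043680)) .nil)))) .nil))))) .nil))),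
 (.br (nat_lit 5) (nat_lit 1) (.cons (.ev (nat_lit 20361637766166006820238639759361) (nat_lit 1)) .nil)),
 (.br (nat_lit 10) (nat_lit 0) (.cons (.ev (nat_lit 1099528470529) (nat_lit 1)) (.cons (.br (nat_lit 9) (nat_lit 1) (.cons (.rf (nat_lit 1526) (nat_lit 15395881028740548640)) (.cons (.rf (nat_lit 1529) (nat_lit 15395881028740548640)) (.cons (.br (nat_lit 11) (nat_lit 0) (.cons (.rf (nat_lit 1495) (nat_lit 295314677854012480)) (.cons (.br (nat_lit 4) (nat_lit 0) (.cons (.br (nat_lit 7) (nat_lit 0) (.cons (.ev (nat_lit 1109504969228516383884835687942) (nat_lit 4)) .nil)) (.cons (.rf (nat_lit 650) (nat_lit 7219728844353506377)) .nil))) .nil))) .nil)))) (.cons (.br (nat_lit 7) (nat_lit 0) (.cons (.br (nat_lit 4) (nat_lit 0) (.cons (.rf (nat_lit 1150) (nat_lit 408043269442999331)) (.cons (.rf (nat_lit 1194) (nat_lit 470801700852771)) .nil))) (.cons (.br (nat_lit 9) (nat_lit 1) (.cons (.kr (nat_lit 18446744078004518912) (nat_lit 4722366764344621924352) (nat_lit 4) (nat_lit 0)) (.cons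 (.br (nat_lit 4) (nat_lit 0) (.cons (.ev (nat_lit 1213666632841576841281793) (nat_lit 1)) (.cons (.rf (nat_lit 1534) (nat_lit 493858305440582043680)) .nil))) .nil))) (.cons (.kr (nat_lit 79228162514264337593543950337) (nat_lit 18446744073709617152) (nat_lit 0) (nat_lit 1)) .nil)))) .nil)))),
 (.br (nat_lit 4) (nat_lit 0) (.cons (.br (nat_lit 11) (nat_lit 0) (.cons (.zr (nat_lit 475368975085802198382300627466) (nat_lit 310712843555620968190574592) (nat_lit 20) (nat_lit 3)) .nil)) (.cons (.rf (nat_lit 1421) (nat_lit 493858305440582043680)) .nil))),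
 (.br (nat_lit 7) (nat_lit 0) (.cons (.rf (nat_lit 1535) (nat_lit 493858305440582043680)) (.cons (.rf (nat_lit 1535) (nat_lit 493858305440515000352)) (.cons (.br (nat_lit 9) (nat_lit 1) (.cons (.kr (nat_lit 18446744078004518912) (nat_lit 4722366764344621924352) (nat_lit 4) (nat_lit 0)) (.cons (.rf (nat_lit 1529) (nat_lit 15395881028740548640)) (.cons (.br (nat_lit 10) (nat_lit 0) (.cons (.rf (nat_lit 1536) (nat_lit 493858305440582043680)) (.cons (.rf (nat_lit 1536) (nat_lit 493858305440515000352)) (.cons (.kr (nat_lit 79228162514264337593543950337) (nat_lit 18446744073709617152) (nat_lit 0) (nat_lit 1)) .nil)))) .nil)))) .nil)))),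
 (.br (nat_lit 13) (nat_lit 1) (.cons (.rf (nat_lit 1533) (nat_lit 493858305440582043680)) (.cons (.br (nat_lit 7) (nat_lit 0) (.cons (.rf (nat_lit 1535) (nat_lit 493858305440582043680)) (.cons (.rf (nat_lit 1535) (nat_lit 493858305440515000352)) (.cons (.rf (nat_lit 1537) (nat_lit 493858305440582043680)) (.cons (.br (nat_lit 7) (nat_lit 0) (.cons (.rf (nat_lit 1535) (nat_lit 493858305440582043680)) (.cons (.rf (nat_lit 1535) (nat_lit 493858305440515000352)) (.cons (.rf (nat_lit 1537) (nat_lit 493858305440582043680)) .nil)))) .nil))))) .nil))),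
 (.br (nat_lit 13) (nat_lit 1) (.cons (.rf (nat_lit 1533) (nat_lit 493858305440582043680)) (.cons (.rf (nat_lit 1538) (nat_lit 493858305440582043680)) (.cons (.br (nat_lit 13) (nat_lit 1) (.cons (.rf (nat_lit 1533) (nat_lit 493858305440582043680)) (.cons (.rf (nat_lit 1538) (nat_lit 493858305440582043680)) .nil))) .nil)))),
 (.br (nat_lit 10) (nat_lit 0) (.cons (.rf (nat_lit 1495) (nat_lit 295314677854012480)) (.cons (.br (nat_lit 7) (nat_lit 0) (.cons (.br (nat_lit 4) (nat_lit 0) (.cons (.br (nat_lit 11) (nat_lit 0) (.cons (.zr (nat_lit 316912659501791160538396360708) (nat_lit 20282412021595543374673676927232) (nat_lit 5) (nat_lit 1)) .nil)) (.cons (.ev (nat_lit 20282409603670189226718805426176) (nat_lit 1)) .nil))) (.cons (.ev (nat_lit 1208925891673322741104641) (nat_lit 1)) .nil))) .nil))),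
 (.br (nat_lit 11) (nat_lit 0) (.cons (.rf (nat_lit 1540) (nat_lit 493858305440582043680)) (.cons (.br (nat_lit 4) (nat_lit 0) (.cons (.br (nat_lit 10) (nat_lit 0) (.cons (.zr (nat_lit 40565438177322983539131480539139) (nat_lit 3631518272352314445529088) (nat_lit 5) (nat_lit 0)) (.cons (.ev (nat_lit 20361637766165935043020066914561) (nat_lit 1)) .nil))) (.cons (.br (nat_lit 5) (nat_lit 1) (.cons (.br (nat_lit 10) (nat_lit 0) (.cons (.zr (nat_lit 618984205333279483147517952) (nat_lit 20282414439354948883576363417856) (nat_lit 5) (nat_lit 5)) .nil)) (.cons (.br (nat_lit 7) (nat_lit 0) (.cons (.ev (nat_lit 20361948460120022747886892613633) (nat_lit 1)) .nil)) .nil))) (.cons (.br (nat_lit 5) (nat_lit 1) (.cons (.br (nat_lit 9) (nat_lit 1) (.cons (.ev (nat_lit 1109521903597970640814964870662) (nat_lit 4)) .nil)) (.cons (.br (nat_lit 7) (nat_lit 0) (.cons (.ev (nat_lit 20361640184017646050605107708416) (nat_lit 2)) .nil)) .nil))) .nil)))) .nil))),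
 (.br (nat_lit 11) (nat_lit 0) (.cons (.rf (nat_lit 1540) (nat_lit 493858305440582043680)) (.cons (.rf (nat_lit 1541) (nat_lit 493858305440582043680)) (.cons (.br (nat_lit 11) (nat_lit 0) (.cons (.rf (nat_lit 1540) (nat_lit 493858305440582043680)) (.cons (.rf (nat_lit 1541) (nat_lit 493858305440582043680)) .nil))) .nil))))]

theorem c42 : chkAll C T R L42 (nat_lit 1514) = true := by decide +kernel

theorem l42 : (nat_lit 1514) + L42.length = (nat_lit 1543) := by decide +kernel

/-- part of the certificates -/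
def L43 : List Prf := [(.br (nat_lit 4) (nat_lit 0) (.cons (.rf (nat_lit 1542) (nat_lit 493858305440582043680)) (.cons (.rf (nat_lit 1542) (nat_lit 493858305440515000352)) (.cons (.br (nat_lit 9) (nat_lit 1) (.cons (.br (nat_lit 12) (nat_lit 1) (.cons (.kr (nat_lit 20361637766166006819139128131586) (nat_lit 1218370552861843441910016) (nat_lit 0) (nat_lit 3)) (.cons (.br (nat_lit 11) (nat_lit 0) (.cons (.ev (nat_lit 20361947251194275189752260984833) (nat_lit 1)) (.cons (.ev (nat_lit 20361947251194275190851755835393) (nat_lit 1)) .nil))) .nil))) (.cons (.rf (nat_lit 1526) (nat_lit 15395881028740548640)) (.cons (.br (nat_lit 3) (nat_lit 1) (.cons (.br (nat_lit 5) (nat_lit 1) (.cons (.ev (nat_lit 1099528470529) (nat_lit 1)) (.cons (.ev (nat_lit 20282409603670189226718805426176) (nat_lit 1)) .nil))) (.cons (.br (nat_lit 5) (nat_lit 1) (.cons (.ev (nat_lit 1099528470529) (nat_lit 1)) (.cons (.rf (nat_lit 1395) (nat_lit 295314677854012480)) .nil))) (.cons (.br (nat_lit 5) (nat_lit 1)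 (.cons (.ev (nat_lit 20282409603670189225619310575616) (nat_lit 1)) (.cons (.rf (nat_lit 1395) (nat_lit 295314677921055808)) .nil))) .nil)))) .nil)))) .nil)))),
 (.br (nat_lit 13) (nat_lit 1) (.cons (.rf (nat_lit 1539) (nat_lit 493858305440582043680)) (.cons (.br (nat_lit 4) (nat_lit 0) (.cons (.rf (nat_lit 1542) (nat_lit 493858305440582043680)) (.cons (.rf (nat_lit 1542) (nat_lit 493858305440515000352)) (.cons (.rf (nat_lit 1543) (nat_lit 493858305440582043680)) (.cons (.br (nat_lit 4) (nat_lit 0) (.cons (.rf (nat_lit 1542) (nat_lit 493858305440582043680)) (.cons (.rf (nat_lit 1542) (nat_lit 493858305440515000352)) (.cons (.rf (nat_lit 1543) (nat_lit 493858305440582043680)) .nil)))) .nil))))) .nil))),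
 (.br (nat_lit 13) (nat_lit 1) (.cons (.rf (nat_lit 1539) (nat_lit 493858305440582043680)) (.cons (.rf (nat_lit 1544) (nat_lit 493858305440582043680)) (.cons (.br (nat_lit 13) (nat_lit 1) (.cons (.rf (nat_lit 1539) (nat_lit 493858305440582043680)) (.cons (.rf (nat_lit 1544) (nat_lit 493858305440582043680)) .nil))) .nil)))),
 (.br (nat_lit 13) (nat_lit 1) (.cons (.rf (nat_lit 1539) (nat_lit 493858305440582043680)) (.cons (.rf (nat_lit 1545) (nat_lit 493858305440582043680)) (.cons (.br (nat_lit 13) (nat_lit 1) (.cons (.rf (nat_lit 1539) (nat_lit 493858305440582043680)) (.cons (.rf (nat_lit 1545) (nat_lit 493858305440582043680)) .nil))) .nil)))),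
 (.br (nat_lit 13) (nat_lit 1) (.cons (.rf (nat_lit 1539) (nat_lit 493858305440582043680)) (.cons (.rf (nat_lit 1545) (nat_lit 493858305440582043680)) (.cons (.rf (nat_lit 1546) (nat_lit 493858305440582043680)) (.cons (.br (nat_lit 13) (nat_lit 1) (.cons (.rf (nat_lit 1539) (nat_lit 493858305440582043680)) (.cons (.rf (nat_lit 1545) (nat_lit 493858305440582043680)) (.cons (.rf (nat_lit 1546) (nat_lit 493858305440582043680)) .nil)))) .nil))))),
 (.br (nat_lit 8) (nat_lit 0) (.cons (.br (nat_lit 12) (nat_lit 1) (.cons (.rf (nat_lit 1518) (nat_lit 493858305440582043680)) (.cons (.rf (nat_lit 1522) (nat_lit 493858305440582043680)) (.cons (.rf (nat_lit 1523) (nat_lit 493858305440582043680)) (.cons (.br (nat_lit 12) (nat_lit 1) (.cons (.rf (nat_lit 1518) (nat_lit 493858305440582043680)) (.cons (.rf (nat_lit 1522) (nat_lit 493858305440582043680)) (.cons (.rf (nat_lit 1523) (nat_lit 493858305440582043680)) .nil)))) .nil))))) (.cons (.rf (nat_lit 1547) (nat_lit 493858305440582043680)) (.cons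 (.rf (nat_lit 1547) (nat_lit 458117738797769787424)) .nil)))),
 (.br (nat_lit 5) (nat_lit 1) (.cons (.rf (nat_lit 742) (nat_lit 7621117088)) (.cons (.rf (nat_lit 1548) (nat_lit 493858305440582043680)) (.cons (.rf (nat_lit 1548) (nat_lit 493745718649651561536)) .nil)))),
 (.br (nat_lit 10) (nat_lit 0) (.cons (.rf (nat_lit 1395) (nat_lit 295314677921055808)) (.cons (.ev (nat_lit 1213666633123047522959361) (nat_lit 1)) (.cons (.br (nat_lit 5) (nat_lit 1) (.cons (.rf (nat_lit 1549) (nat_lit 493858305440582043680)) (.cons (.rf (nat_lit 1549) (nat_lit 493745718649651561536)) (.cons (.rf (nat_lit 1548) (nat_lit 493745718649651561536)) .nil)))) .nil)))),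
 (.br (nat_lit 11) (nat_lit 0) (.cons (.rf (nat_lit 1548) (nat_lit 493745718649651561536)) (.cons (.br (nat_lit 8) (nat_lit 0) (.cons (.rf (nat_lit 1548) (nat_lit 493858305440582043680)) (.cons (.br (nat_lit 3) (nat_lit 1) (.cons (.ev (nat_lit 79538861190718524239110012928) (nat_lit 1)) (.cons (.zr (nat_lit 141976879324264623205561770442754) (nat_lit 635063240190725914734897725696) (nat_lit 15) (nat_lit 13)) .nil))) .nil))) .nil))),
 (.br (nat_lit 10) (nat_lit 0) (.cons (.rf (nat_lit 1395) (nat_lit 295314677854012480)) (.cons (.rf (nat_lit 742) (nat_lit 11922375840)) (.cons (.rf (nat_lit 1495) (nat_lit 295314677854012480)) (.cons (.br (nat_lit 11) (nat_lit 0) (.cons (.rf (nat_lit 1548) (nat_lit 493745718649651561536)) (.cons (.rf (nat_lit 1551) (nat_lit 493745718649584518208)) (.cons (.rf (nat_lit 1551) (nat_lit 493858305440582043680)) .nil)))) .nil))))),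
 (.br (nat_lit 11) (nat_lit 0) (.cons (.rf (nat_lit 1550) (nat_lit 493858305440582043680)) (.cons (.rf (nat_lit 1552) (nat_lit 493858305440582043680)) (.cons (.br (nat_lit 11) (nat_lit 0) (.cons (.rf (nat_lit 1550) (nat_lit 493858305440582043680)) (.cons (.rf (nat_lit 1552) (nat_lit 493858305440582043680)) .nil))) .nil)))),
 (.br (nat_lit 11) (nat_lit 0) (.cons (.ev (nat_lit 4740813509522154913793) (nat_lit 1)) (.cons (.br (nat_lit 7) (nat_lit 0) (.cons (.ev (nat_lit 20282719088661564108085007548416) (nat_lit 1)) (.cons (.ev (nat_lit 40644047374576937215202955559681) (nat_lit 2)) .nil))) .nil))),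
 (.br (nat_lit 5) (nat_lit 1) (.cons (.rf (nat_lit 742) (nat_lit 7621117088)) (.cons (.br (nat_lit 11) (nat_lit 0) (.cons (.rf (nat_lit 1395) (nat_lit 295314677921055808)) (.cons (.rf (nat_lit 1554) (nat_lit 493858305440582043680)) (.cons (.br (nat_lit 11) (nat_lit 0) (.cons (.rf (nat_lit 1395) (nat_lit 295314677921055808)) (.cons (.rf (nat_lit 1554) (nat_lit 493858305440582043680)) .nil))) .nil)))) (.cons (.br (nat_lit 10) (nat_lit 0) (.cons (.rf (nat_lit 1395) (nat_lit 295314677854012480)) (.cons (.rf (nat_lit 1495) (nat_lit 295314677854012480)) (.cons (.br (nat_lit 10) (nat_lit 0) (.cons (.rf (nat_lit 1395) (nat_lit 295314677854012480)) (.cons (.rf (nat_lit 1495) (nat_lit 295314677854012480)) .nil))) .nil)))) .nil)))),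
 (.br (nat_lit 5) (nat_lit 1) (.cons (.rf (nat_lit 742) (nat_lit 7621117088)) (.cons (.br (nat_lit 3) (nat_lit 1) (.cons (.br (nat_lit 9) (nat_lit 1) (.cons (.ev (nat_lit 20282410812596009121723445215488) (nat_lit 1)) (.cons (.br (nat_lit 10) (nat_lit 0) (.cons (.br (nat_lit 11) (nat_lit 0) (.cons (.ev (nat_lit 79228167236703159532220645376) (nat_lit 1)) .nil)) .nil)) .nil))) (.cons (.ev (nat_lit 20282410812595937065224623882496) (nat_lit 1)) (.cons (.rf (nat_lit 1395) (nat_lit 295314677921055808)) .nil)))) (.cons (.br (nat_lit 10) (nat_lit 0) (.cons (.rf (nat_lit 1395) (nat_lit 295314677854012480)) (.cons (.rf (nat_lit 1495) (nat_lit 295314677854012480)) (.cons (.br (nat_lit 10) (nat_lit 0) (.cons (.rf (nat_lit 1395) (nat_lit 295314677854012480)) (.cons (.rf (nat_lit 1495) (nat_lit 295314677854012480)) .nil))) .nil)))) .nil)))),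
 (.br (nat_lit 13) (nat_lit 1) (.cons (.br (nat_lit 11) (nat_lit 0) (.cons (.rf (nat_lit 1550) (nat_lit 493858305440582043680)) (.cons (.rf (nat_lit 1552) (nat_lit 493858305440582043680)) (.cons (.rf (nat_lit 1553) (nat_lit 493858305440582043680)) (.cons (.br (nat_lit 11) (nat_lit 0) (.cons (.rf (nat_lit 1550) (nat_lit 493858305440582043680)) (.cons (.rf (nat_lit 1552) (nat_lit 493858305440582043680)) (.cons (.rf (nat_lit 1553) (nat_lit 493858305440582043680)) .nil)))) .nil))))) (.cons (.br (nat_lit 5) (nat_lit 1) (.cons (.rf (nat_lit 1555) (nat_lit 493858305440582043680)) (.cons (.rf (nat_lit 1556) (nat_lit 493858305440582043680)) (.cons (.br (nat_lit 5) (nat_lit 1) (.cons (.rf (nat_lit 1555) (nat_lit 493858305440582043680)) (.cons (.rf (nat_lit 1556) (nat_lit 493858305440582043680)) (.cons (.rf (nat_lit 742) (nat_lit 11922375840)) .nil)))) (.cons (.br (nat_lit 5) (nat_lit 1) (.cons (.rf (nat_lit 1555) (nat_lit 493858305440582043680)) (.cons (.rf (nat_lit 1556) (nat_lit 493858305440582043680))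 (.cons (.rf (nat_lit 742) (nat_lit 11922375840)) .nil)))) .nil))))) .nil))),
 (.br (nat_lit 6) (nat_lit 0) (.cons (.rf (nat_lit 1150) (nat_lit 370847855118852098)) (.cons (.br (nat_lit 8) (nat_lit 1) (.cons (.kr (nat_lit 4722438540463699918848) (nat_lit 1208925819897203663044608) (nat_lit 3) (nat_lit 0)) .nil)) .nil))),
 (.br (nat_lit 10) (nat_lit 0) (.cons (.rf (nat_lit 1395) (nat_lit 295314677854012480)) (.cons (.rf (nat_lit 742) (nat_lit 11922375840)) (.cons (.rf (nat_lit 1495) (nat_lit 295314677854012480)) (.cons (.br (nat_lit 3) (nat_lit 1) (.cons (.br (nat_lit 5) (nat_lit 1) (.cons (.br (nat_lit 11) (nat_lit 0) (.cons (.br (nat_lit 7) (nat_lit 0) (.cons (.zr (nat_lit 316916276834516483433375465479) (nat_lit 619007872649759774191452416) (nat_lit 15) (nat_lit 0)) .nil)) (.cons (.ev (nat_lit 79229371458530977771421696256) (nat_lit 1)) .nil))) .nil)) (.cons (.br (nat_lit 5) (nat_lit 1) (.cons (.rf (nat_lit 1558) (nat_lit 15433072045018188865)) (.cons (.br (nat_lit 4) (nat_lit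 0) (.cons (.ev (nat_lit 20282410817299928860519380811776) (nat_lit 1)) (.cons (.br (nat_lit 9) (nat_lit 1) (.cons (.ev (nat_lit 202824423721730371694249915056642) (nat_lit 4)) .nil)) .nil))) .nil))) (.cons (.kr (nat_lit 20282409603651670423947251286017) (nat_lit 309485009821345068724781312) (nat_lit 0) (nat_lit 2)) .nil)))) .nil))))),
 (.br (nat_lit 5) (nat_lit 1) (.cons (.rf (nat_lit 742) (nat_lit 7621117088)) (.cons (.br (nat_lit 3) (nat_lit 1) (.cons (.br (nat_lit 7) (nat_lit 0) (.cons (.ev (nat_lit 121694785288234512297306739574286) (nat_lit 4)) .nil)) .nil)) .nil))),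
 (.br (nat_lit 3) (nat_lit 0) (.cons (.kr (nat_lit 4722438540463699918848) (nat_lit 1208925819897203663044608) (nat_lit 3) (nat_lit 0)) .nil)),
 (.br (nat_lit 5) (nat_lit 1) (.cons (.rf (nat_lit 742) (nat_lit 7621117088)) (.cons (.br (nat_lit 3) (nat_lit 1) (.cons (.br (nat_lit 7) (nat_lit 0) (.cons (.ev (nat_lit 81922240442963339020499907905030) (nat_lit 4)) .nil)) (.cons (.rf (nat_lit 1561) (nat_lit 15433072045018188865)) .nil))) .nil))),
 (.br (nat_lit 11) (nat_lit 0) (.cons (.rf (nat_lit 1550) (nat_lit 493858305440582043680)) (.cons (.rf (nat_lit 1559) (nat_lit 493858305440582043680)) (.cons (.br (nat_lit 5) (nat_lit 1) (.cons (.rf (nat_lit 1560) (nat_lit 493858305440582043680)) (.cons (.rf (nat_lit 1562) (nat_lit 493858305440582043680)) (.cons (.br (nat_lit 5) (nat_lit 1) (.cons (.rf (nat_lit 1560) (nat_lit 493858305440582043680)) (.cons (.rf (nat_lit 1562) (nat_lit 493858305440582043680)) .nil))) .nil)))) .nil)))),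
 (.br (nat_lit 13) (nat_lit 1) (.cons (.rf (nat_lit 1557) (nat_lit 493858305440582043680)) (.cons (.br (nat_lit 11) (nat_lit 0) (.cons (.rf (nat_lit 1550) (nat_lit 493858305440582043680)) (.cons (.rf (nat_lit 1559) (nat_lit 493858305440582043680)) (.cons (.rf (nat_lit 1563) (nat_lit 493858305440582043680)) (.cons (.br (nat_lit 11) (nat_lit 0) (.cons (.rf (nat_lit 1550) (nat_lit 493858305440582043680)) (.cons (.rf (nat_lit 1559) (nat_lit 493858305440582043680)) (.cons (.rf (nat_lit 1563) (nat_lit 493858305440582043680)) .nil)))) .nil))))) .nil))),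
 (.br (nat_lit 13) (nat_lit 1) (.cons (.rf (nat_lit 1557) (nat_lit 493858305440582043680)) (.cons (.rf (nat_lit 1564) (nat_lit 493858305440582043680)) (.cons (.br (nat_lit 13) (nat_lit 1) (.cons (.rf (nat_lit 1557) (nat_lit 493858305440582043680)) (.cons (.rf (nat_lit 1564) (nat_lit 493858305440582043680)) .nil))) .nil)))),
 (.br (nat_lit 10) (nat_lit 0) (.cons (.rf (nat_lit 1395) (nat_lit 295314677854012480)) (.cons (.rf (nat_lit 742) (nat_lit 11922375840)) (.cons (.rf (nat_lit 1495) (nat_lit 295314677854012480)) (.cons (.br (nat_lit 3) (nat_lit 1) (.cons (.br (nat_lit 11) (nat_lit 0) (.cons (.br (nat_lit 7) (nat_lit 0) (.cons (.br (nat_lit 4) (nat_lit 0) (.cons (.ev (nat_lit 203933617987485484698098656083968) (nat_lit 4)) .nil)) (.cons (.rf (nat_lit 1565) (nat_lit 458005152006772261952)) .nil))) (.cons (.ev (nat_lit 79229371458530977771421696256) (nat_lit 1)) .nil))) (.cons (.br (nat_lit 5) (nat_lit 1) (.cons (.br (nat_lit 4) (nat_lit 0) (.cons (.br (nat_lit 11) (nat_lit 0) (.cons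 (.zr (nat_lit 55557257124754423808) (nat_lit 20361643815517399317577855927297) (nat_lit 5) (nat_lit 0)) .nil)) (.cons (.br (nat_lit 9) (nat_lit 1) (.cons (.zr (nat_lit 40723275532331870661076175618055) (nat_lit 1547462846557389990007932672) (nat_lit 15) (nat_lit 0)) .nil)) .nil))) .nil)) (.cons (.rf (nat_lit 1548) (nat_lit 493745718649651561536)) .nil)))) .nil))))),
 (.br (nat_lit 11) (nat_lit 0) (.cons (.rf (nat_lit 1550) (nat_lit 493858305440582043680)) (.cons (.rf (nat_lit 1566) (nat_lit 493858305440582043680)) (.cons (.br (nat_lit 10) (nat_lit 0) (.cons (.br (nat_lit 5) (nat_lit 1) (.cons (.br (nat_lit 4) (nat_lit 0) (.cons (.ev (nat_lit 79538861190718524239110012928) (nat_lit 1)) .nil)) (.cons (.rf (nat_lit 1233) (nat_lit 415499045192729723968)) .nil))) (.cons (.br (nat_lit 3) (nat_lit 1) (.cons (.br (nat_lit 4) (nat_lit 0) (.cons (.br (nat_lit 7) (nat_lit 0) (.cons (.ev (nat_lit 122803979572805304256407942465548) (nat_lit 4)) .nil)) (.cons (.br (nat_lit 5) (nat_lit 1) (.cons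 (.ev (nat_lit 1109507453377897370648532092422) (nat_lit 4)) .nil)) .nil))) (.cons (.br (nat_lit 5) (nat_lit 1) (.cons (.br (nat_lit 4) (nat_lit 0) (.cons (.ev (nat_lit 121694777987344530435942650086926) (nat_lit 4)) .nil)) .nil)) .nil))) (.cons (.ev (nat_lit 20361947255898122589479165296641) (nat_lit 1)) .nil)))) .nil)))),
 (.br (nat_lit 13) (nat_lit 1) (.cons (.rf (nat_lit 1565) (nat_lit 493858305440582043680)) (.cons (.br (nat_lit 11) (nat_lit 0) (.cons (.rf (nat_lit 1550) (nat_lit 493858305440582043680)) (.cons (.rf (nat_lit 1566) (nat_lit 493858305440582043680)) (.cons (.rf (nat_lit 1567) (nat_lit 493858305440582043680)) (.cons (.br (nat_lit 11) (nat_lit 0) (.cons (.rf (nat_lit 1550) (nat_lit 493858305440582043680)) (.cons (.rf (nat_lit 1566) (nat_lit 493858305440582043680)) (.cons (.rf (nat_lit 1567) (nat_lit 493858305440582043680)) .nil)))) .nil))))) .nil))),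
 (.br (nat_lit 13) (nat_lit 1) (.cons (.rf (nat_lit 1565) (nat_lit 493858305440582043680)) (.cons (.rf (nat_lit 1568) (nat_lit 493858305440582043680)) (.cons (.br (nat_lit 13) (nat_lit 1) (.cons (.rf (nat_lit 1565) (nat_lit 493858305440582043680)) (.cons (.rf (nat_lit 1568) (nat_lit 493858305440582043680)) .nil))) .nil)))),
 (.br (nat_lit 13) (nat_lit 1) (.cons (.rf (nat_lit 1565) (nat_lit 493858305440582043680)) (.cons (.rf (nat_lit 1569) (nat_lit 493858305440582043680)) (.cons (.br (nat_lit 13) (nat_lit 1) (.cons (.rf (nat_lit 1565) (nat_lit 493858305440582043680)) (.cons (.rf (nat_lit 1569) (nat_lit 493858305440582043680)) .nil))) .nil))))]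

theorem c43 : chkAll C T R L43 (nat_lit 1543) = true := by decide +kernel

theorem l43 : (nat_lit 1543) + L43.length = (nat_lit 1571) := by decide +kernel

/-- part of the certificates -/
def L44 : List Prf := [(.br (nat_lit 13) (nat_lit 1) (.cons (.rf (nat_lit 1565) (nat_lit 493858305440582043680)) (.cons (.rf (nat_lit 1569) (nat_lit 493858305440582043680)) (.cons (.rf (nat_lit 1570) (nat_lit 493858305440582043680)) (.cons (.br (nat_lit 13) (nat_lit 1) (.cons (.rf (nat_lit 1565) (nat_lit 493858305440582043680)) (.cons (.rf (nat_lit 1569) (nat_lit 493858305440582043680)) (.cons (.rf (nat_lit 1570) (nat_lit 493858305440582043680)) .nil)))) .nil))))),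
 (.br (nat_lit 8) (nat_lit 0) (.cons (.rf (nat_lit 1548) (nat_lit 493858305440582043680)) (.cons (.rf (nat_lit 1571) (nat_lit 493858305440582043680)) (.cons (.rf (nat_lit 1571) (nat_lit 458117738797769787424)) .nil)))),
 (.br (nat_lit 4) (nat_lit 0) (.cons (.br (nat_lit 10) (nat_lit 0) (.cons (.zr (nat_lit 237686905431325733502115119109) (nat_lit 309503899360178566307512832) (nat_lit 10) (nat_lit 5)) .nil)) (.cons (.br (nat_lit 9) (nat_lit 1) (.cons (.ev (nat_lit 202824423683951728061617163862530) (nat_lit 4)) .nil)) .nil))),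
 (.br (nat_lit 7) (nat_lit 0) (.cons (.ev (nat_lit 20361637775647633274125349486592) (nat_lit 2)) .nil)),
 (.br (nat_lit 11) (nat_lit 0) (.cons (.rf (nat_lit 1395) (nat_lit 295314677921055808)) (.cons (.br (nat_lit 3) (nat_lit 1) (.cons (.br (nat_lit 9) (nat_lit 1) (.cons (.ev (nat_lit 309489732188110517170077953) (nat_lit 1)) (.cons (.br (nat_lit 12) (nat_lit 1) (.cons (.br (nat_lit 7) (nat_lit 0) (.cons (.zr (nat_lit 618970019644097525234860288) (nat_lit 20361637766239865856322244182016) (nat_lit 10) (nat_lit 1)) .nil)) .nil)) .nil))) (.cons (.br (nat_lit 7) (nat_lit 0) (.cons (.ev (nat_lit 309489732260167007401476353) (nat_lit 1)) (.cons (.rf (nat_lit 1573) (nat_lit 493858305440582043680)) (.cons (.rf (nat_lit 1573) (nat_lit 458117738797769787424)) .nil)))) (.cons (.br (nat_lit 9) (nat_lit 1) (.cons (.ev (nat_lit 1213666633124147017809921) (nat_lit 1)) (.cons (.br (nat_lit 4) (nat_lit 0) (.cons (.rf (nat_lit 1574) (nat_lit 493858305440582043680)) (.cons (.rf (nat_lit 1574) (nat_lit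 458117738797769787424)) .nil))) .nil))) .nil)))) .nil))),
 (.br (nat_lit 11) (nat_lit 0) (.cons (.rf (nat_lit 1395) (nat_lit 295314677921055808)) (.cons (.rf (nat_lit 1575) (nat_lit 493858305440582043680)) (.cons (.rf (nat_lit 1575) (nat_lit 458117738797769787424)) .nil)))),
 (.br (nat_lit 11) (nat_lit 0) (.cons (.rf (nat_lit 1395) (nat_lit 295314677921055808)) (.cons (.rf (nat_lit 1576) (nat_lit 493858305440582043680)) (.cons (.br (nat_lit 11) (nat_lit 0) (.cons (.ev (nat_lit 309485028268090241962737921) (nat_lit 1)) (.cons (.rf (nat_lit 1576) (nat_lit 493858305440582043680)) .nil))) .nil)))),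
 (.br (nat_lit 10) (nat_lit 0) (.cons (.rf (nat_lit 1395) (nat_lit 295314677854012480)) (.cons (.rf (nat_lit 1495) (nat_lit 295314677854012480)) (.cons (.br (nat_lit 9) (nat_lit 1) (.cons (.br (nat_lit 9) (nat_lit 1) (.cons (.kr (nat_lit 18446744078004518912) (nat_lit 4722366764344621924352) (nat_lit 4) (nat_lit 0)) (.cons (.rf (nat_lit 1572) (nat_lit 493745718649584518208)) .nil))) (.cons (.br (nat_lit 9) (nat_lit 1) (.cons (.kr (nat_lit 18446744078004518912) (nat_lit 4722366764344621924352) (nat_lit 4) (nat_lit 0)) (.cons (.rf (nat_lit 1572) (nat_lit 493745718649584518208)) .nil))) (.cons (.rf (nat_lit 1572) (nat_lit 493745718649584518208)) .nil)))) .nil)))),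
 (.br (nat_lit 5) (nat_lit 1) (.cons (.rf (nat_lit 742) (nat_lit 7621117088)) (.cons (.br (nat_lit 11) (nat_lit 0) (.cons (.rf (nat_lit 1395) (nat_lit 295314677921055808)) (.cons (.rf (nat_lit 1576) (nat_lit 493858305440582043680)) (.cons (.rf (nat_lit 1577) (nat_lit 493858305440582043680)) (.cons (.rf (nat_lit 1577) (nat_lit 458117738797769787424)) .nil))))) (.cons (.br (nat_lit 10) (nat_lit 0) (.cons (.rf (nat_lit 1395) (nat_lit 295314677854012480)) (.cons (.rf (nat_lit 1495) (nat_lit 295314677854012480)) (.cons (.rf (nat_lit 1578) (nat_lit 493858305440582043680)) (.cons (.rf (nat_lit 1578) (nat_lit 458117738797769787424)) .nil))))) .nil)))),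
 (.br (nat_lit 10) (nat_lit 0) (.cons (.zr (nat_lit 40565747667055387538752435978242) (nat_lit 79234207143362411847535821056) (nat_lit 5) (nat_lit 12)) .nil)),
 (.br (nat_lit 10) (nat_lit 0) (.cons (.br (nat_lit 7) (nat_lit 0) (.cons (.ev (nat_lit 202824416458619609919570160255490) (nat_lit 4)) .nil)) (.cons (.ev (nat_lit 20361948460120022465316716085505) (nat_lit 1)) .nil))),
 (.br (nat_lit 7) (nat_lit 0) (.cons (.ev (nat_lit 20361947255898122589479165296641) (nat_lit 1)) .nil)),
 (.br (nat_lit 11) (nat_lit 0) (.cons (.rf (nat_lit 1395) (nat_lit 295314677921055808)) (.cons (.br (nat_lit 3) (nat_lit 1) (.cons (.br (nat_lit 4) (nat_lit 0) (.cons (.br (nat_lit 7) (nat_lit 0) (.cons (.rf (nat_lit 1580) (nat_lit 493858305440582043680)) (.cons (.rf (nat_lit 1580) (nat_lit 458117738797769787424)) .nil))) (.cons (.rf (nat_lit 1581) (nat_lit 493858305440582043680)) (.cons (.rf (nat_lit 1581) (nat_lit 458117738797769787424)) .nil)))) (.cons (.br (nat_lit 9) (nat_lit 1) (.cons (.br (nat_lit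 4) (nat_lit 0) (.cons (.zr (nat_lit 14167100011563184226304) (nat_lit 79847132534051144018597773568) (nat_lit 5) (nat_lit 1)) (.cons (.zr (nat_lit 14167100011563184226304) (nat_lit 20283028573671457230372305109248) (nat_lit 5) (nat_lit 1)) .nil))) (.cons (.br (nat_lit 12) (nat_lit 1) (.cons (.br (nat_lit 4) (nat_lit 0) (.cons (.zr (nat_lit 20361637766202828251891532562435) (nat_lit 9444950264421311053824) (nat_lit 5) (nat_lit 0)) .nil)) .nil)) .nil))) (.cons (.br (nat_lit 9) (nat_lit 1) (.cons (.br (nat_lit 4) (nat_lit 0) (.cons (.rf (nat_lit 1582) (nat_lit 493858305440582043680)) (.cons (.rf (nat_lit 1582) (nat_lit 458117738797769787424)) .nil))) (.cons (.ev (nat_lit 1213666633124147017809921) (nat_lit 1)) .nil))) .nil)))) .nil))),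
 (.br (nat_lit 11) (nat_lit 0) (.cons (.rf (nat_lit 1395) (nat_lit 295314677921055808)) (.cons (.rf (nat_lit 1583) (nat_lit 493858305440582043680)) (.cons (.rf (nat_lit 1583) (nat_lit 458117738797769787424)) .nil)))),
 (.br (nat_lit 11) (nat_lit 0) (.cons (.rf (nat_lit 1395) (nat_lit 295314677921055808)) (.cons (.rf (nat_lit 1584) (nat_lit 493858305440582043680)) (.cons (.br (nat_lit 11) (nat_lit 0) (.cons (.rf (nat_lit 1395) (nat_lit 295314677921055808)) (.cons (.rf (nat_lit 1584) (nat_lit 493858305440582043680)) .nil))) .nil)))),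
 (.br (nat_lit 9) (nat_lit 1) (.cons (.br (nat_lit 3) (nat_lit 1) (.cons (.br (nat_lit 12) (nat_lit 1) (.cons (.br (nat_lit 11) (nat_lit 0) (.cons (.zr (nat_lit 1227815285830881317683968) (nat_lit 40723275532332229811073254948866) (nat_lit 10) (nat_lit 0)) .nil)) .nil)) (.cons (.rf (nat_lit 1548) (nat_lit 493745718649651561536)) .nil))) (.cons (.rf (nat_lit 1572) (nat_lit 493745718649584518208)) .nil))),
 (.br (nat_lit 10) (nat_lit 0) (.cons (.rf (nat_lit 1395) (nat_lit 295314677854012480)) (.cons (.rf (nat_lit 1495) (nat_lit 295314677854012480)) (.cons (.br (nat_lit 9) (nat_lit 1) (.cons (.rf (nat_lit 1586) (nat_lit 493858305440582043680)) (.cons (.br (nat_lit 9) (nat_lit 1) (.cons (.rf (nat_lit 1586) (nat_lit 493858305440582043680)) (.cons (.rf (nat_lit 1572) (nat_lit 493745718649584518208)) .nil))) (.cons (.rf (nat_lit 1572) (nat_lit 493745718649584518208)) .nil)))) .nil)))),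
 (.br (nat_lit 5) (nat_lit 1) (.cons (.rf (nat_lit 742) (nat_lit 7621117088)) (.cons (.br (nat_lit 11) (nat_lit 0) (.cons (.rf (nat_lit 1395) (nat_lit 295314677921055808)) (.cons (.rf (nat_lit 1584) (nat_lit 493858305440582043680)) (.cons (.rf (nat_lit 1585) (nat_lit 493858305440582043680)) (.cons (.rf (nat_lit 1585) (nat_lit 458117738797769787424)) .nil))))) (.cons (.br (nat_lit 10) (nat_lit 0) (.cons (.rf (nat_lit 1395) (nat_lit 295314677854012480)) (.cons (.rf (nat_lit 1495) (nat_lit 295314677854012480)) (.cons (.rf (nat_lit 1587) (nat_lit 493858305440582043680)) (.cons (.rf (nat_lit 1587) (nat_lit 458117738797769787424)) .nil))))) .nil)))),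
 (.br (nat_lit 8) (nat_lit 0) (.cons (.rf (nat_lit 1548) (nat_lit 493858305440582043680)) (.cons (.rf (nat_lit 1572) (nat_lit 493858305440582043680)) (.cons (.br (nat_lit 5) (nat_lit 1) (.cons (.rf (nat_lit 1579) (nat_lit 493858305440582043680)) (.cons (.rf (nat_lit 1588) (nat_lit 493858305440582043680)) (.cons (.br (nat_lit 5) (nat_lit 1) (.cons (.rf (nat_lit 1579) (nat_lit 493858305440582043680)) (.cons (.rf (nat_lit 1588) (nat_lit 493858305440582043680)) (.cons (.rf (nat_lit 742) (nat_lit 11922375840)) .nil)))) (.cons (.br (nat_lit 5) (nat_lit 1) (.cons (.rf (nat_lit 1579) (nat_lit 493858305440582043680)) (.cons (.rf (nat_lit 1588) (nat_lit 493858305440582043680)) (.cons (.rf (nat_lit 742) (nat_lit 11922375840)) .nil)))) .nil))))) .nil)))),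
 (.br (nat_lit 6) (nat_lit 0) (.cons (.rf (nat_lit 742) (nat_lit 8764064864)) (.cons (.rf (nat_lit 1395) (nat_lit 407901468851537952)) (.cons (.rf (nat_lit 1495) (nat_lit 407901468851537952)) (.cons (.br (nat_lit 6) (nat_lit 0) (.cons (.rf (nat_lit 742) (nat_lit 8764064864)) (.cons (.rf (nat_lit 1395) (nat_lit 407901468851537952)) (.cons (.rf (nat_lit 1495) (nat_lit 407901468851537952)) (.cons (.br (nat_lit 8) (nat_lit 0) (.cons (.rf (nat_lit 1548) (nat_lit 493858305440582043680)) (.cons (.rf (nat_lit 1572) (nat_lit 493858305440582043680)) (.cons (.rf (nat_lit 1589) (nat_lit 493858305440582043680)) (.cons (.rf (nat_lit 1589) (nat_lit 458117738797769787424)) .nil))))) .nil))))) .nil))))),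
 (.br (nat_lit 5) (nat_lit 1) (.cons (.br (nat_lit 7) (nat_lit 0) (.cons (.rf (nat_lit 870) (nat_lit 13342554129477)) (.cons (.br (nat_lit 12) (nat_lit 1) (.cons (.br (nat_lit 10) (nat_lit 0) (.cons (.ev (nat_lit 283954047629301580325635991931398) (nat_lit 4)) .nil)) .nil)) .nil))) (.cons (.br (nat_lit 6) (nat_lit 0) (.cons (.br (nat_lit 7) (nat_lit 0) (.cons (.rf (nat_lit 1415) (nat_lit 15431974699060627745)) .nil)) (.cons (.br (nat_lit 12) (nat_lit 1) (.cons (.rf (nat_lit 1367) (nat_lit 14316174939381703745)) (.cons (.ev (nat_lit 158768242093982471048373731840) (nat_lit 2)) .nil))) .nil))) .nil))),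
 (.br (nat_lit 4) (nat_lit 0) (.cons (.rf (nat_lit 742) (nat_lit 7621117088)) (.cons (.rf (nat_lit 1591) (nat_lit 493858305440582043680)) (.cons (.rf (nat_lit 1591) (nat_lit 458117738797769787424)) .nil)))),
 (.br (nat_lit 11) (nat_lit 1) (.cons (.br (nat_lit 9) (nat_lit 0) (.cons (.kr (nat_lit 4722438540463699918848) (nat_lit 1208925819897203663044608) (nat_lit 3) (nat_lit 0)) .nil)) .nil)),
 (.br (nat_lit 10) (nat_lit 0) (.cons (.ev (nat_lit 40565142000218831921486383156746) (nat_lit 4)) .nil)),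
 (.br (nat_lit 5) (nat_lit 1) (.cons (.rf (nat_lit 1593) (nat_lit 15433072045018188865)) (.cons (.br (nat_lit 6) (nat_lit 0) (.cons (.rf (nat_lit 1594) (nat_lit 493858305440582043680)) (.cons (.rf (nat_lit 1594) (nat_lit 458117738797769787424)) .nil))) .nil))),
 (.br (nat_lit 9) (nat_lit 0) (.cons (.kr (nat_lit 4722438540463699918848) (nat_lit 1208925819897203663044608) (nat_lit 3) (nat_lit 0)) .nil)),
 (.br (nat_lit 4) (nat_lit 1) (.cons (.rf (nat_lit 1593) (nat_lit 14242959524133701664)) (.cons (.br (nat_lit 3) (nat_lit 0) (.cons (.rf (nat_lit 1596) (nat_lit 14242959524133701664)) (.cons (.rf (nat_lit 1596) (nat_lit 13126066816545818656)) .nil))) .nil))),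
 (.br (nat_lit 7) (nat_lit 0) (.cons (.rf (nat_lit 1592) (nat_lit 493858305440582043680)) (.cons (.br (nat_lit 5) (nat_lit 1) (.cons (.rf (nat_lit 1595) (nat_lit 493858305440582043680)) (.cons (.rf (nat_lit 1597) (nat_lit 15433072045018188865)) (.cons (.br (nat_lit 5) (nat_lit 1) (.cons (.rf (nat_lit 1595) (nat_lit 493858305440582043680)) (.cons (.rf (nat_lit 1597) (nat_lit 15433072045018188865)) .nil))) .nil)))) .nil))),
 (.br (nat_lit 7) (nat_lit 0) (.cons (.rf (nat_lit 1592) (nat_lit 493858305440582043680)) (.cons (.rf (nat_lit 1598) (nat_lit 493858305440582043680)) (.cons (.rf (nat_lit 1598) (nat_lit 458117738797769787424)) .nil)))),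
 (.br (nat_lit 6) (nat_lit 0) (.cons (.br (nat_lit 7) (nat_lit 0) (.cons (.br (nat_lit 10) (nat_lit 0) (.cons (.ev (nat_lit 20361638979832639662914975956992) (nat_lit 2)) .nil)) .nil)) (.cons (.br (nat_lit 7) (nat_lit 0) (.cons (.br (nat_lit 10) (nat_lit 0) (.cons (.ev (nat_lit 81763779310713737651715121348612) (nat_lit 4)) .nil)) (.cons (.br (nat_lit 10) (nat_lit 0) (.cons (.ev (nat_lit 121853236787004637340931427665920) (nat_lit 4)) .nil)) .nil))) .nil))),
 (.br (nat_lit 5) (nat_lit 1) (.cons (.rf (nat_lit 1599) (nat_lit 493858305440515000352)) (.cons (.br (nat_lit 4) (nat_lit 0) (.cons (.rf (nat_lit 1600) (nat_lit 493858305440582043680)) (.cons (.rf (nat_lit 1600) (nat_lit 458117738797769787424)) .nil))) (.cons (.ev (nat_lit 1099528405249) (nat_lit 1)) .nil)))),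
 (.br (nat_lit 5) (nat_lit 1) (.cons (.br (nat_lit 3) (nat_lit 1) (.cons (.ev (nat_lit 1099528470529) (nat_lit 1)) (.cons (.br (nat_lit 12) (nat_lit 1) (.cons (.br (nat_lit 7) (nat_lit 0) (.cons (.ev (nat_lit 40723588682101646818036993230860) (nat_lit 4)) .nil)) .nil)) .nil))) (.cons (.rf (nat_lit 1599) (nat_lit 493745718649584518208)) .nil))),
 (.br (nat_lit 6) (nat_lit 0) (.cons (.rf (nat_lit 1601) (nat_lit 493858305440582043680)) (.cons (.br (nat_lit 5) (nat_lit 1) (.cons (.rf (nat_lit 1602) (nat_lit 493858305440515000352)) (.cons (.br (nat_lit 5) (nat_lit 1) (.cons (.ev (nat_lit 1099528470529) (nat_lit 1)) (.cons (.rf (nat_lit 1599) (nat_lit 493745718649584518208)) .nil))) (.cons (.rf (nat_lit 1602) (nat_lit 493858305440582043680)) .nil)))) .nil))),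
 (.br (nat_lit 3) (nat_lit 1) (.cons (.rf (nat_lit 1599) (nat_lit 493858305440582043680)) (.cons (.rf (nat_lit 742) (nat_lit 7688225888)) (.cons (.br (nat_lit 6) (nat_lit 0) (.cons (.rf (nat_lit 1601) (nat_lit 493858305440582043680)) (.cons (.rf (nat_lit 1603) (nat_lit 493858305440582043680)) (.cons (.rf (nat_lit 1603) (nat_lit 458117738797769787424)) .nil)))) .nil))))]

theorem c44 : chkAll C T R L44 (nat_lit 1571) = true := by decide +kernel

theorem l44 : (nat_lit 1571) + L44.length = (nat_lit 1605) := by decide +kernel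

/-- part of the certificates -/
def L45 : List Prf := [(.br (nat_lit 4) (nat_lit 0) (.cons (.rf (nat_lit 1604) (nat_lit 493858305440515000352)) (.cons (.br (nat_lit 10) (nat_lit 0) (.cons (.br (nat_lit 5) (nat_lit 1) (.cons (.zr (nat_lit 1208925819614633520005121) (nat_lit 309485009821347267748102400) (nat_lit 5) (nat_lit 3)) (.cons (.rf (nat_lit 1597) (nat_lit 15429553707799516194)) .nil))) (.cons (.ev (nat_lit 79229371458530696300740018176) (nat_lit 1)) (.cons (.ev (nat_lit 20282410812595936782654447353856) (nat_lit 1)) .nil)))) .nil))),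
 (.br (nat_lit 3) (nat_lit 1) (.cons (.rf (nat_lit 1604) (nat_lit 493858305440582043680)) (.cons (.rf (nat_lit 1604) (nat_lit 493745718649651561536)) (.cons (.br (nat_lit 4) (nat_lit 0) (.cons (.rf (nat_lit 1604) (nat_lit 493858305440515000352)) (.cons (.rf (nat_lit 1605) (nat_lit 493858305440582043680)) (.cons (.rf (nat_lit 1605) (nat_lit 458117738797769787424)) .nil)))) .nil)))),
 (.br (nat_lit 11) (nat_lit 0) (.cons (.rf (nat_lit 1590) (nat_lit 295314677921055808)) (.cons (.rf (nat_lit 1590) (nat_lit 295314677854012480)) (.cons (.br (nat_lit 3) (nat_lit 1) (.cons (.rf (nat_lit 1604) (nat_lit 493858305440582043680)) (.cons (.rf (nat_lit 1606) (nat_lit 493858305440582043680)) (.cons (.rf (nat_lit 1604) (nat_lit 493745718649651561536)) (.cons (.rf (nat_lit 1606) (nat_lit 493745718649651561536)) .nil))))) .nil)))),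
 (.br (nat_lit 11) (nat_lit 0) (.cons (.rf (nat_lit 1590) (nat_lit 295314677921055808)) (.cons (.rf (nat_lit 1590) (nat_lit 295314677854012480)) (.cons (.br (nat_lit 8) (nat_lit 0) (.cons (.rf (nat_lit 1590) (nat_lit 407901468851537952)) (.cons (.rf (nat_lit 1590) (nat_lit 407901468784494624)) (.cons (.rf (nat_lit 1607) (nat_lit 493745718649651561536)) (.cons (.rf (nat_lit 1607) (nat_lit 458005152006839305280)) .nil))))) .nil)))),
 (.br (nat_lit 11) (nat_lit 0) (.cons (.rf (nat_lit 1590) (nat_lit 295314677921055808)) (.cons (.rf (nat_lit 1590) (nat_lit 295314677854012480)) (.cons (.rf (nat_lit 1608) (nat_lit 493745718649651561536)) (.cons (.rf (nat_lit 1608) (nat_lit 493858305440582043680)) .nil))))),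
 (.br (nat_lit 8) (nat_lit 0) (.cons (.rf (nat_lit 1590) (nat_lit 407901468851537952)) (.cons (.rf (nat_lit 1590) (nat_lit 407901468784494624)) (.cons (.br (nat_lit 8) (nat_lit 0) (.cons (.rf (nat_lit 1590) (nat_lit 407901468851537952)) (.cons (.rf (nat_lit 1590) (nat_lit 407901468784494624)) (.cons (.br (nat_lit 11) (nat_lit 0) (.cons (.rf (nat_lit 1590) (nat_lit 295314677921055808)) (.cons (.rf (nat_lit 1590) (nat_lit 295314677854012480)) (.cons (.rf (nat_lit 1608) (nat_lit 493745718649651561536)) (.cons (.rf (nat_lit 1609) (nat_lit 493858305440582043680)) (.cons (.rf (nat_lit 1609) (nat_lit 458117738797769787424)) .nil)))))) .nil)))) .nil)))),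
 (.br (nat_lit 2) (nat_lit 1) (.cons (.rf (nat_lit 742) (nat_lit 7688258624)) (.cons (.br (nat_lit 8) (nat_lit 0) (.cons (.rf (nat_lit 1012) (nat_lit 325702574508064)) (.cons (.rf (nat_lit 1012) (nat_lit 325702507464736)) (.cons (.rf (nat_lit 1052) (nat_lit 325702574508064)) (.cons (.br (nat_lit 8) (nat_lit 0) (.cons (.rf (nat_lit 1012) (nat_lit 325702574508064)) (.cons (.rf (nat_lit 1012) (nat_lit 325702507464736)) (.cons (.rf (nat_lit 1052) (nat_lit 325702574508064)) (.cons (.br (nat_lit 8) (nat_lit 0) (.cons (.rf (nat_lit 1012) (nat_lit 325702574508064)) (.cons (.rf (nat_lit 1012) (nat_lit 325702507464736)) (.cons (.rf (nat_lit 1052) (nat_lit 325702574508064)) .nil)))) .nil))))) .nil))))) (.cons (.br (nat_lit 3) (nat_lit 1) (.cons (.rf (nat_lit 1240) (nat_lit 325702574508064)) (.cons (.rf (nat_lit 1240) (nat_lit 324635277232160)) (.cons (.rf (nat_lit 1240) (nat_lit 323402622665792)) (.cons (.rf (nat_lit 1240) (nat_lit 321271246193728)) (.cons (.br (nat_lit 3) (nat_lit 1) (.cons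 (.rf (nat_lit 1240) (nat_lit 325702574508064)) (.cons (.rf (nat_lit 1240) (nat_lit 324635277232160)) (.cons (.rf (nat_lit 1240) (nat_lit 323402622665792)) (.cons (.rf (nat_lit 1240) (nat_lit 321271246193728)) (.cons (.rf (nat_lit 789) (nat_lit 12745785854822432)) .nil)))))) .nil)))))) (.cons (.br (nat_lit 10) (nat_lit 1) (.cons (.br (nat_lit 8) (nat_lit 0) (.cons (.rf (nat_lit 1590) (nat_lit 407901468851537952)) (.cons (.rf (nat_lit 1590) (nat_lit 407901468784494624)) (.cons (.rf (nat_lit 1610) (nat_lit 407901468851537952)) (.cons (.br (nat_lit 8) (nat_lit 0) (.cons (.rf (nat_lit 1590) (nat_lit 407901468851537952)) (.cons (.rf (nat_lit 1590) (nat_lit 407901468784494624)) (.cons (.rf (nat_lit 1610) (nat_lit 407901468851537952)) (.cons (.br (nat_lit 8) (nat_lit 0) (.cons (.rf (nat_lit 1590) (nat_lit 407901468851537952)) (.cons (.rf (nat_lit 1590) (nat_lit 407901468784494624)) (.cons (.rf (nat_lit 1610) (nat_lit 407901468851537952)) .nil)))) .nil))))) .nil))))) .nil)) .nil))))),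
 (.br (nat_lit 6) (nat_lit 0) (.cons (.rf (nat_lit 328) (nat_lit 401252827295615077)) (.cons (.br (nat_lit 5) (nat_lit 1) (.cons (.rf (nat_lit 1058) (nat_lit 15069089459472481)) (.cons (.rf (nat_lit 118) (nat_lit 15068951076898917)) (.cons (.br (nat_lit 8) (nat_lit 0) (.cons (.br (nat_lit 10) (nat_lit 0) (.cons (.br (nat_lit 11) (nat_lit 0) (.cons (.zr (nat_lit 18446746272749715712) (nat_lit 20361637770888301244419030384641) (nat_lit 5) (nat_lit 0)) .nil)) .nil)) .nil)) .nil)))) .nil))),
 (.br (nat_lit 6) (nat_lit 0) (.cons (.br (nat_lit 11) (nat_lit 0) (.cons (.rf (nat_lit 328) (nat_lit 365216368055002213)) (.cons (.rf (nat_lit 118) (nat_lit 15068956312437861)) .nil))) (.cons (.rf (nat_lit 1150) (nat_lit 408003758897898593)) (.cons (.br (nat_lit 8) (nat_lit 0) (.cons (.rf (nat_lit 1058) (nat_lit 15069089459472481)) (.cons (.rf (nat_lit 118) (nat_lit 15061254428402851)) (.cons (.br (nat_lit 13) (nat_lit 1) (.cons (.br (nat_lit 13) (nat_lit 1) (.cons (.br (nat_lit 9) (nat_lit 1)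 (.cons (.zr (nat_lit 2417851783907396429021952) (nat_lit 20361637770943641476648748974081) (nat_lit 5) (nat_lit 0)) (.cons (.ev (nat_lit 309489750634572016391356673) (nat_lit 1)) .nil))) .nil)) (.cons (.br (nat_lit 11) (nat_lit 0) (.cons (.kr (nat_lit 309485009821345068741558528) (nat_lit 18446745173221244928) (nat_lit 1) (nat_lit 0)) (.cons (.ev (nat_lit 309489750634572016391356673) (nat_lit 1)) .nil))) .nil))) .nil)))) .nil)))),
 (.br (nat_lit 11) (nat_lit 0) (.cons (.ev (nat_lit 309489750634572016391356673) (nat_lit 1)) (.cons (.ev (nat_lit 309489750634573115886207233) (nat_lit 1)) .nil))),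
 (.br (nat_lit 6) (nat_lit 0) (.cons (.rf (nat_lit 911) (nat_lit 427959267822881)) (.cons (.rf (nat_lit 911) (nat_lit 425760244569377)) (.cons (.br (nat_lit 8) (nat_lit 0) (.cons (.rf (nat_lit 118) (nat_lit 15061254428402851)) (.cons (.rf (nat_lit 118) (nat_lit 15061254428402789)) (.cons (.br (nat_lit 13) (nat_lit 1) (.cons (.br (nat_lit 13) (nat_lit 1) (.cons (.rf (nat_lit 1614) (nat_lit 493858305440582043680)) .nil)) (.cons (.rf (nat_lit 1614) (nat_lit 493858305440582043680)) .nil))) .nil)))) .nil)))),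
 (.br (nat_lit 12) (nat_lit 1) (.cons (.br (nat_lit 9) (nat_lit 1) (.cons (.rf (nat_lit 2) (nat_lit 405751927946742049)) (.cons (.br (nat_lit 6) (nat_lit 0) (.cons (.rf (nat_lit 911) (nat_lit 427959267822881)) (.cons (.rf (nat_lit 911) (nat_lit 425760244569377)) (.cons (.br (nat_lit 3) (nat_lit 1) (.cons (.rf (nat_lit 118) (nat_lit 15061254428402851)) (.cons (.rf (nat_lit 118) (nat_lit 15068951076898979)) (.cons (.br (nat_lit 5) (nat_lit 1) (.cons (.rf (nat_lit 118) (nat_lit 15061254428402789)) (.cons (.rf (nat_lit 118) (nat_lit 15068951076898917)) (.cons (.br (nat_lit 8) (nat_lit 0) (.cons (.br (nat_lit 10) (nat_lit 0) (.cons (.br (nat_lit 11) (nat_lit 0) (.cons (.ev (nat_lit 20361947251175828165303086415873) (nat_lit 1)) .nil)) .nil)) .nil)) .nil)))) .nil)))) .nil)))) (.cons (.rf (nat_lit 2) (nat_lit 405751923785991458)) (.cons (.br (nat_lit 8) (nat_lit 0) (.cons (.rf (nat_lit 1612) (nat_lit 14242959524133701664)) (.cons (.rf (nat_lit 1612) (nat_lit 14242959524066658336)) (.cons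 (.br (nat_lit 8) (nat_lit 0) (.cons (.rf (nat_lit 1612) (nat_lit 14242959524133701664)) (.cons (.rf (nat_lit 1612) (nat_lit 14242959524066658336)) .nil))) .nil)))) .nil))))) (.cons (.br (nat_lit 8) (nat_lit 0) (.cons (.rf (nat_lit 1613) (nat_lit 14242959524133701664)) (.cons (.rf (nat_lit 1613) (nat_lit 14242959524066658336)) (.cons (.rf (nat_lit 1615) (nat_lit 14242959524133701664)) (.cons (.br (nat_lit 8) (nat_lit 0) (.cons (.rf (nat_lit 1613) (nat_lit 14242959524133701664)) (.cons (.rf (nat_lit 1613) (nat_lit 14242959524066658336)) (.cons (.rf (nat_lit 1615) (nat_lit 14242959524133701664)) .nil)))) .nil))))) .nil))),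
 (.br (nat_lit 12) (nat_lit 1) (.cons (.rf (nat_lit 1616) (nat_lit 14242959524133701664)) (.cons (.br (nat_lit 12) (nat_lit 1) (.cons (.rf (nat_lit 1616) (nat_lit 14242959524133701664)) (.cons (.rf (nat_lit 1616) (nat_lit 14130372836279288896)) .nil))) (.cons (.br (nat_lit 12) (nat_lit 1) (.cons (.rf (nat_lit 1616) (nat_lit 14242959524133701664)) (.cons (.rf (nat_lit 1616) (nat_lit 14130372836279288896)) .nil))) .nil)))),
 (.br (nat_lit 12) (nat_lit 1) (.cons (.rf (nat_lit 1617) (nat_lit 14242959524133701664)) (.cons (.rf (nat_lit 1617) (nat_lit 14130372836279288896)) (.cons (.br (nat_lit 12) (nat_lit 1) (.cons (.rf (nat_lit 1617) (nat_lit 14242959524133701664)) (.cons (.rf (nat_lit 1617) (nat_lit 14130372836279288896)) .nil))) .nil)))),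
 (.br (nat_lit 10) (nat_lit 0) (.cons (.rf (nat_lit 1144) (nat_lit 258218419562942498)) (.cons (.rf (nat_lit 1144) (nat_lit 258218419558752290)) (.cons (.br (nat_lit 10) (nat_lit 0) (.cons (.rf (nat_lit 1144) (nat_lit 258218419562942498)) (.cons (.rf (nat_lit 1144) (nat_lit 258218419558752290)) .nil))) .nil)))),
 (.br (nat_lit 10) (nat_lit 0) (.cons (.rf (nat_lit 1619) (nat_lit 407901468851537952)) (.cons (.rf (nat_lit 1619) (nat_lit 407901468849442848)) (.cons (.rf (nat_lit 1619) (nat_lit 407897070802935840)) (.cons (.br (nat_lit 10) (nat_lit 0) (.cons (.rf (nat_lit 1619) (nat_lit 407901468851537952)) (.cons (.rf (nat_lit 1619) (nat_lit 407901468849442848)) (.cons (.rf (nat_lit 1619) (nat_lit 407897070802935840)) .nil)))) .nil))))),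
 (.br (nat_lit 13) (nat_lit 1) (.cons (.br (nat_lit 5) (nat_lit 1) (.cons (.br (nat_lit 9) (nat_lit 1) (.cons (.zr (nat_lit 20282409613096404234111471976449) (nat_lit 79230580402797056098840871168) (nat_lit 5) (nat_lit 1)) .nil)) (.cons (.kr (nat_lit 309485009821345068741558528) (nat_lit 18446745173221244928) (nat_lit 1) (nat_lit 0)) .nil))) .nil)),
 (.br (nat_lit 6) (nat_lit 0) (.cons (.rf (nat_lit 911) (nat_lit 424557761725541)) (.cons (.rf (nat_lit 911) (nat_lit 424557757531241)) (.cons (.br (nat_lit 8) (nat_lit 0) (.cons (.rf (nat_lit 4) (nat_lit 15061254428402851)) (.cons (.rf (nat_lit 4) (nat_lit 15061254428398883)) (.cons (.br (nat_lit 13) (nat_lit 1) (.cons (.rf (nat_lit 1621) (nat_lit 493858305440582043680)) (.cons (.br (nat_lit 13) (nat_lit 1) (.cons (.rf (nat_lit 1621) (nat_lit 493858305440582043680)) .nil)) .nil))) .nil)))) .nil)))),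
 (.br (nat_lit 13) (nat_lit 1) (.cons (.br (nat_lit 3) (nat_lit 1) (.cons (.br (nat_lit 5) (nat_lit 1) (.cons (.zr (nat_lit 40564819212081047562998161342722) (nat_lit 79228162514409861256031830016) (nat_lit 5) (nat_lit 2)) .nil)) (.cons (.br (nat_lit 5) (nat_lit 1) (.cons (.zr (nat_lit 40564819212081047562998161342722) (nat_lit 79228162514409861256031830016) (nat_lit 5) (nat_lit 2)) .nil)) .nil))) .nil)),
 (.br (nat_lit 6) (nat_lit 0) (.cons (.rf (nat_lit 911) (nat_lit 424557757531427)) (.cons (.rf (nat_lit 911) (nat_lit 424557755434277)) (.cons (.br (nat_lit 8) (nat_lit 0) (.cons (.rf (nat_lit 4) (nat_lit 15061254428398883)) (.cons (.rf (nat_lit 4) (nat_lit 15061254428396837)) (.cons (.br (nat_lit 13) (nat_lit 1) (.cons (.rf (nat_lit 1623) (nat_lit 493858305440582043680)) (.cons (.br (nat_lit 13) (nat_lit 1) (.cons (.rf (nat_lit 1623) (nat_lit 493858305440582043680)) .nil)) .nil))) .nil)))) .nil)))),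
 (.br (nat_lit 12) (nat_lit 1) (.cons (.rf (nat_lit 1620) (nat_lit 445092485129178177)) (.cons (.br (nat_lit 8) (nat_lit 0) (.cons (.rf (nat_lit 1622) (nat_lit 14242959524133701664)) (.cons (.rf (nat_lit 1622) (nat_lit 14242959524066658336)) (.cons (.rf (nat_lit 1624) (nat_lit 14242959524133701664)) (.cons (.br (nat_lit 8) (nat_lit 0) (.cons (.rf (nat_lit 1622) (nat_lit 14242959524133701664)) (.cons (.rf (nat_lit 1622) (nat_lit 14242959524066658336)) (.cons (.rf (nat_lit 1624) (nat_lit 14242959524133701664)) .nil)))) .nil))))) .nil))),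
 (.br (nat_lit 11) (nat_lit 1) (.cons (.rf (nat_lit 1620) (nat_lit 407901468851537952)) (.cons (.rf (nat_lit 1620) (nat_lit 404383134856087553)) .nil))),
 (.br (nat_lit 12) (nat_lit 1) (.cons (.rf (nat_lit 1625) (nat_lit 14242959524133701664)) (.cons (.rf (nat_lit 1626) (nat_lit 445092485129178177)) (.cons (.br (nat_lit 12) (nat_lit 1) (.cons (.rf (nat_lit 1625) (nat_lit 14242959524133701664)) (.cons (.rf (nat_lit 1620) (nat_lit 441574151133727778)) .nil))) .nil)))),
 (.br (nat_lit 12) (nat_lit 1) (.cons (.rf (nat_lit 1627) (nat_lit 14242959524133701664)) (.cons (.rf (nat_lit 1627) (nat_lit 14130372836279288896)) (.cons (.br (nat_lit 12) (nat_lit 1) (.cons (.rf (nat_lit 1627) (nat_lit 14242959524133701664)) (.cons (.rf (nat_lit 1627) (nat_lit 14130372836279288896)) .nil))) .nil)))),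
 (.br (nat_lit 13) (nat_lit 1) (.cons (.br (nat_lit 10) (nat_lit 0) (.cons (.ev (nat_lit 20282410817318375604588812238848) (nat_lit 1)) (.cons (.ev (nat_lit 20282410817318375605688307089408) (nat_lit 1)) (.cons (.kr (nat_lit 79229371440084233697695367424) (nat_lit 20282409603670117168025255870464) (nat_lit 1) (nat_lit 0)) .nil)))) .nil)),
 (.br (nat_lit 8) (nat_lit 0) (.cons (.rf (nat_lit 1083) (nat_lit 432390670518369)) (.cons (.rf (nat_lit 1083) (nat_lit 432390668421281)) (.cons (.br (nat_lit 6) (nat_lit 0) (.cons (.rf (nat_lit 319) (nat_lit 15064658131160129)) (.cons (.rf (nat_lit 319) (nat_lit 15062459107906625)) (.cons (.rf (nat_lit 329) (nat_lit 14931547430980673)) (.cons (.br (nat_lit 13) (nat_lit 1) (.cons (.rf (nat_lit 1629) (nat_lit 493858305440582043680)) (.cons (.br (nat_lit 13) (nat_lit 1) (.cons (.rf (nat_lit 1629) (nat_lit 493858305440582043680)) .nil)) .nil))) .nil))))) .nil)))),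
 (.br (nat_lit 11) (nat_lit 0) (.cons (.ev (nat_lit 79228162514336396287110283264) (nat_lit 1)) (.cons (.br (nat_lit 11) (nat_lit 0) (.cons (.ev (nat_lit 79228162514336396287110283264) (nat_lit 1)) .nil)) .nil))),
 (.br (nat_lit 5) (nat_lit 1) (.cons (.rf (nat_lit 1080) (nat_lit 9439521337902242)) (.cons (.br (nat_lit 11) (nat_lit 0) (.cons (.br (nat_lit 11) (nat_lit 0) (.cons (.br (nat_lit 11) (nat_lit 0) .nil) .nil)) (.cons (.br (nat_lit 11) (nat_lit 0) (.cons (.br (nat_lit 11) (nat_lit 0) .nil) .nil)) .nil))) (.cons (.rf (nat_lit 1080) (nat_lit 9439658642639009)) (.cons (.br (nat_lit 8) (nat_lit 0) (.cons (.rf (nat_lit 1631) (nat_lit 14242959524133701664)) (.cons (.br (nat_lit 12) (nat_lit 1) (.cons (.rf (nat_lit 329) (nat_lit 14931547430980673)) (.cons (.rf (nat_lit 1631) (nat_lit 14242959524133701664)) (.cons (.rf (nat_lit 329) (nat_lit 14931547565198370)) (.cons (.rf (nat_lit 1631) (nat_lit 14134876431544649760)) .nil))))) .nil))) .nil))))),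
 (.br (nat_lit 3) (nat_lit 1) (.cons (.rf (nat_lit 1082) (nat_lit 9439655419417667)) (.cons (.rf (nat_lit 1632) (nat_lit 14242959524133701664)) (.cons (.rf (nat_lit 1082) (nat_lit 9439518115730467)) (.cons (.rf (nat_lit 1632) (nat_lit 14130372836279288896)) .nil))))),
 (.br (nat_lit 10) (nat_lit 0) (.cons (.rf (nat_lit 1413) (nat_lit 406806216788115714)) (.cons (.br (nat_lit 10) (nat_lit 0) (.cons (.rf (nat_lit 1413) (nat_lit 406806216788115714)) .nil)) .nil))),
 (.br (nat_lit 9) (nat_lit 0) (.cons (.rf (nat_lit 1634) (nat_lit 407901468851537952)) (.cons (.br (nat_lit 9) (nat_lit 0) (.cons (.rf (nat_lit 1634) (nat_lit 407901468851537952)) .nil)) .nil)))]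

theorem c45 : chkAll C T R L45 (nat_lit 1605) = true := by decide +kernel

theorem l45 : (nat_lit 1605) + L45.length = (nat_lit 1636) := by decide +kernel

/-- part of the certificates -/
def L46 : List Prf := [(.br (nat_lit 8) (nat_lit 0) (.cons (.rf (nat_lit 1635) (nat_lit 445092485129178177)) (.cons (.br (nat_lit 6) (nat_lit 0) (.cons (.rf (nat_lit 319) (nat_lit 15062459107906625)) (.cons (.rf (nat_lit 329) (nat_lit 14931547430980673)) (.cons (.br (nat_lit 12) (nat_lit 1) (.cons (.rf (nat_lit 1086) (nat_lit 15361084819724437601)) (.cons (.br (nat_lit 5) (nat_lit 1) (.cons (.br (nat_lit 10) (nat_lit 0) (.cons (.br (nat_lit 11) (nat_lit 0) (.cons (.ev (nat_lit 20282720302309750206683322253568) (nat_lit 1)) .nil)) .nil)) (.cons (.ev (nat_lit 79228162514336396287110283264) (nat_lit 1)) .nil))) .nil))) .nil)))) .nil))),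
 (.br (nat_lit 8) (nat_lit 0) (.cons (.rf (nat_lit 1635) (nat_lit 445092485129178177)) (.cons (.rf (nat_lit 1636) (nat_lit 14242959524133701664)) (.cons (.br (nat_lit 8) (nat_lit 0) (.cons (.rf (nat_lit 1635) (nat_lit 445092485129178177)) (.cons (.rf (nat_lit 1636) (nat_lit 14242959524133701664)) .nil))) .nil)))),
 (.br (nat_lit 8) (nat_lit 0) (.cons (.rf (nat_lit 1637) (nat_lit 14242959524133701664)) (.cons (.rf (nat_lit 1637) (nat_lit 14242959524066658336)) (.cons (.br (nat_lit 8) (nat_lit 0) (.cons (.rf (nat_lit 1637) (nat_lit 14242959524133701664)) (.cons (.rf (nat_lit 1637) (nat_lit 14242959524066658336)) .nil))) .nil)))),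
 (.br (nat_lit 9) (nat_lit 1) (.cons (.br (nat_lit 8) (nat_lit 0) (.cons (.rf (nat_lit 1083) (nat_lit 432390670518369)) (.cons (.rf (nat_lit 1083) (nat_lit 432390668421281)) (.cons (.rf (nat_lit 1630) (nat_lit 14242959524133701664)) (.cons (.br (nat_lit 8) (nat_lit 0) (.cons (.rf (nat_lit 1083) (nat_lit 432390670518369)) (.cons (.rf (nat_lit 1083) (nat_lit 432390668421281)) (.cons (.rf (nat_lit 1630) (nat_lit 14242959524133701664)) .nil)))) .nil))))) (.cons (.br (nat_lit 8) (nat_lit 0) (.cons (.rf (nat_lit 1632) (nat_lit 14242959524133701664)) (.cons (.rf (nat_lit 1632) (nat_lit 14242959524066658336)) (.cons (.rf (nat_lit 1633) (nat_lit 14242959524133701664)) (.cons (.br (nat_lit 8) (nat_lit 0) (.cons (.rf (nat_lit 1632) (nat_lit 14242959524133701664)) (.cons (.rf (nat_lit 1632) (nat_lit 14242959524066658336)) (.cons (.rf (nat_lit 1633) (nat_lit 14242959524133701664)) .nil)))) .nil))))) (.cons (.br (nat_lit 8) (nat_lit 0) (.cons (.rf (nat_lit 1637) (nat_lit 14242959524133701664))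 (.cons (.rf (nat_lit 1637) (nat_lit 14242959524066658336)) (.cons (.rf (nat_lit 1638) (nat_lit 14242959524133701664)) (.cons (.br (nat_lit 8) (nat_lit 0) (.cons (.rf (nat_lit 1637) (nat_lit 14242959524133701664)) (.cons (.rf (nat_lit 1637) (nat_lit 14242959524066658336)) (.cons (.rf (nat_lit 1638) (nat_lit 14242959524133701664)) .nil)))) .nil))))) .nil)))),
 (.br (nat_lit 13) (nat_lit 1) (.cons (.br (nat_lit 8) (nat_lit 0) (.cons (.rf (nat_lit 1413) (nat_lit 481112482838189123)) (.cons (.br (nat_lit 5) (nat_lit 1) (.cons (.br (nat_lit 11) (nat_lit 0) (.cons (.ev (nat_lit 79229371440084234801518739456) (nat_lit 1)) .nil)) (.cons (.br (nat_lit 10) (nat_lit 0) (.cons (.zr (nat_lit 1208962857503837693214720) (nat_lit 159694269790180538344533918209) (nat_lit 5) (nat_lit 0)) .nil)) .nil))) .nil))) .nil)),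
 (.br (nat_lit 13) (nat_lit 1) (.cons (.rf (nat_lit 1640) (nat_lit 493858305440582043680)) (.cons (.br (nat_lit 13) (nat_lit 1) (.cons (.rf (nat_lit 1640) (nat_lit 493858305440582043680)) .nil)) .nil))),
 (.br (nat_lit 13) (nat_lit 1) (.cons (.rf (nat_lit 1641) (nat_lit 493858305440582043680)) (.cons (.br (nat_lit 13) (nat_lit 1) (.cons (.rf (nat_lit 1641) (nat_lit 493858305440582043680)) .nil)) .nil))),
 (.br (nat_lit 6) (nat_lit 0) (.cons (.rf (nat_lit 870) (nat_lit 13445534780481)) (.cons (.br (nat_lit 12) (nat_lit 1) (.cons (.rf (nat_lit 1262) (nat_lit 443887287274768675)) (.cons (.br (nat_lit 5) (nat_lit 1) (.cons (.rf (nat_lit 157) (nat_lit 12679815393053730)) (.cons (.ev (nat_lit 79228162514336396287110283264) (nat_lit 1)) (.cons (.rf (nat_lit 157) (nat_lit 9407668788792354)) .nil)))) (.cons (.rf (nat_lit 1262) (nat_lit 443992837169809699)) .nil)))) (.cons (.br (nat_lit 13) (nat_lit 1) (.cons (.rf (nat_lit 1641) (nat_lit 493858305440582043680)) (.cons (.rf (nat_lit 1642)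 (nat_lit 493858305440582043680)) (.cons (.br (nat_lit 13) (nat_lit 1) (.cons (.rf (nat_lit 1641) (nat_lit 493858305440582043680)) (.cons (.rf (nat_lit 1642) (nat_lit 493858305440582043680)) .nil))) .nil)))) .nil)))),
 (.br (nat_lit 5) (nat_lit 1) (.cons (.kr (nat_lit 309485009821345068741558528) (nat_lit 18446745173221244928) (nat_lit 1) (nat_lit 0)) .nil)),
 (.br (nat_lit 13) (nat_lit 1) (.cons (.br (nat_lit 3) (nat_lit 1) (.cons (.rf (nat_lit 1644) (nat_lit 493858305440582043680)) (.cons (.rf (nat_lit 1644) (nat_lit 493745718752727630912)) .nil))) .nil)),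
 (.br (nat_lit 10) (nat_lit 0) (.cons (.rf (nat_lit 1643) (nat_lit 14130372836279288896)) (.cons (.rf (nat_lit 1643) (nat_lit 14130372836212245568)) (.cons (.br (nat_lit 13) (nat_lit 1) (.cons (.rf (nat_lit 1645) (nat_lit 493858305440582043680)) (.cons (.rf (nat_lit 1645) (nat_lit 493745718752727630912)) .nil))) .nil)))),
 (.br (nat_lit 6) (nat_lit 0) (.cons (.rf (nat_lit 1643) (nat_lit 14242959524133701664)) (.cons (.rf (nat_lit 1643) (nat_lit 14242959524066658336)) (.cons (.br (nat_lit 10) (nat_lit 0) (.cons (.rf (nat_lit 1643) (nat_lit 14130372836279288896)) (.cons (.rf (nat_lit 1643) (nat_lit 14130372836212245568)) (.cons (.rf (nat_lit 1646) (nat_lit 493858305440582043680)) (.cons (.br (nat_lit 10) (nat_lit 0) (.cons (.rf (nat_lit 1643) (nat_lit 14130372836279288896)) (.cons (.rf (nat_lit 1643) (nat_lit 14130372836212245568)) (.cons (.rf (nat_lit 1646) (nat_lit 493858305440582043680)) .nil)))) .nil))))) .nil)))),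
 (.br (nat_lit 9) (nat_lit 1) (.cons (.rf (nat_lit 1639) (nat_lit 14242959524133701664)) (.cons (.rf (nat_lit 1639) (nat_lit 14130372836279288896)) (.cons (.br (nat_lit 6) (nat_lit 0) (.cons (.rf (nat_lit 1643) (nat_lit 14242959524133701664)) (.cons (.rf (nat_lit 1643) (nat_lit 14242959524066658336)) (.cons (.rf (nat_lit 1647) (nat_lit 14242959524133701664)) (.cons (.br (nat_lit 6) (nat_lit 0) (.cons (.rf (nat_lit 1643) (nat_lit 14242959524133701664)) (.cons (.rf (nat_lit 1643) (nat_lit 14242959524066658336)) (.cons (.rf (nat_lit 1647) (nat_lit 14242959524133701664)) .nil)))) .nil))))) .nil)))),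
 (.br (nat_lit 10) (nat_lit 0) (.cons (.rf (nat_lit 430) (nat_lit 295410332377384041)) (.cons (.br (nat_lit 11) (nat_lit 0) (.cons (.br (nat_lit 6) (nat_lit 0) (.cons (.rf (nat_lit 1389) (nat_lit 14312656567845226531)) (.cons (.br (nat_lit 8) (nat_lit 0) (.cons (.ev (nat_lit 40723277950202100177854508695810) (nat_lit 2)) .nil)) .nil))) .nil)) .nil))),
 (.br (nat_lit 11) (nat_lit 0) (.cons (.rf (nat_lit 1649) (nat_lit 493858305440582043680)) (.cons (.br (nat_lit 11) (nat_lit 0) (.cons (.rf (nat_lit 1649) (nat_lit 493858305440582043680)) .nil)) .nil))),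
 (.br (nat_lit 8) (nat_lit 0) (.cons (.rf (nat_lit 1650) (nat_lit 493858305440582043680)) (.cons (.br (nat_lit 9) (nat_lit 1) (.cons (.br (nat_lit 5) (nat_lit 1) (.cons (.rf (nat_lit 157) (nat_lit 12644731885652009)) (.cons (.br (nat_lit 13) (nat_lit 1) (.cons (.zr (nat_lit 158456325083868908507744960515) (nat_lit 2432018811298415571369984) (nat_lit 5) (nat_lit 0)) (.cons (.zr (nat_lit 158456325047047477954363785219) (nat_lit 618984186742138759270105088) (nat_lit 5) (nat_lit 0)) .nil))) .nil))) (.cons (.rf (nat_lit 1414) (nat_lit 15433064315083754785)) (.cons (.br (nat_lit 6) (nat_lit 0) (.cons (.br (nat_lit 10) (nat_lit 0) (.cons (.br (nat_lit 11) (nat_lit 0) (.cons (.ev (nat_lit 41674336303715981600368676309512) (nat_lit 4)) .nil)) .nil)) (.cons (.br (nat_lit 10) (nat_lit 0) (.cons (.br (nat_lit 11) (nat_lit 0) (.cons (.ev (nat_lit 41674336303715981600368676440072) (nat_lit 4)) .nil)) (.cons (.ev (nat_lit 20440867151791565187934020698881) (nat_lit 2)) .nil))) .nil))) .nil))))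 .nil))),
 (.br (nat_lit 8) (nat_lit 0) (.cons (.rf (nat_lit 1650) (nat_lit 493858305440582043680)) (.cons (.rf (nat_lit 1651) (nat_lit 493858305440582043680)) (.cons (.br (nat_lit 8) (nat_lit 0) (.cons (.rf (nat_lit 1650) (nat_lit 493858305440582043680)) (.cons (.rf (nat_lit 1651) (nat_lit 493858305440582043680)) .nil))) .nil)))),
 (.br (nat_lit 11) (nat_lit 0) (.cons (.rf (nat_lit 1652) (nat_lit 493858305440582043680)) (.cons (.rf (nat_lit 1652) (nat_lit 493858305440515000352)) (.cons (.br (nat_lit 11) (nat_lit 0) (.cons (.rf (nat_lit 1652) (nat_lit 493858305440582043680)) (.cons (.rf (nat_lit 1652) (nat_lit 493858305440515000352)) .nil))) .nil)))),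
 (.br (nat_lit 8) (nat_lit 0) (.cons (.br (nat_lit 10) (nat_lit 0) (.cons (.br (nat_lit 11) (nat_lit 0) (.cons (.ev (nat_lit 40564821634618304468406711223040) (nat_lit 2)) .nil)) .nil)) (.cons (.br (nat_lit 10) (nat_lit 0) (.cons (.br (nat_lit 11) (nat_lit 0) (.cons (.ev (nat_lit 40565132385444497071992117530122) (nat_lit 4)) .nil)) (.cons (.ev (nat_lit 20520095309583463042657919435266) (nat_lit 2)) .nil))) .nil))),
 (.br (nat_lit 8) (nat_lit 0) (.cons (.br (nat_lit 10) (nat_lit 0) (.cons (.br (nat_lit 11) (nat_lit 0) (.cons (.ev (nat_lit 40723277959646833141403365671170) (nat_lit 2)) .nil)) .nil)) (.cons (.br (nat_lit 5) (nat_lit 1) (.cons (.br (nat_lit 11) (nat_lit 0) (.cons (.ev (nat_lit 158779117685764766598057951754) (nat_lit 4)) .nil)) (.cons (.br (nat_lit 10) (nat_lit 0) (.cons (.ev (nat_lit 1208981376304405962358786) (nat_lit 2)) .nil)) .nil))) .nil))),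
 (.br (nat_lit 9) (nat_lit 1) (.cons (.br (nat_lit 11) (nat_lit 0) (.cons (.rf (nat_lit 1654) (nat_lit 493858305440582043680)) (.cons (.rf (nat_lit 1654) (nat_lit 493858305440515000352)) (.cons (.br (nat_lit 11) (nat_lit 0) (.cons (.rf (nat_lit 1654) (nat_lit 493858305440582043680)) (.cons (.rf (nat_lit 1654) (nat_lit 493858305440515000352)) .nil))) .nil)))) (.cons (.br (nat_lit 10) (nat_lit 0) (.cons (.rf (nat_lit 1655) (nat_lit 493858305440582043680)) (.cons (.rf (nat_lit 1655) (nat_lit 493858305440515000352)) (.cons (.br (nat_lit 10) (nat_lit 0) (.cons (.rf (nat_lit 1655) (nat_lit 493858305440582043680)) (.cons (.rf (nat_lit 1655) (nat_lit 493858305440515000352)) .nil))) .nil)))) .nil))),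
 (.br (nat_lit 8) (nat_lit 0) (.cons (.br (nat_lit 10) (nat_lit 0) (.cons (.br (nat_lit 11) (nat_lit 0) (.cons (.ev (nat_lit 20520094091213126355782763479810) (nat_lit 2)) .nil)) .nil)) (.cons (.br (nat_lit 5) (nat_lit 1) (.cons (.br (nat_lit 11) (nat_lit 0) (.cons (.ev (nat_lit 202824423683840328710127337210370) (nat_lit 4)) .nil)) (.cons (.br (nat_lit 10) (nat_lit 0) (.cons (.ev (nat_lit 158457534009904977402617070080) (nat_lit 2)) .nil)) .nil))) .nil))),
 (.br (nat_lit 9) (nat_lit 1) (.cons (.rf (nat_lit 1656) (nat_lit 493858305440582043680)) (.cons (.br (nat_lit 8) (nat_lit 0) (.cons (.rf (nat_lit 1657) (nat_lit 493858305440582043680)) (.cons (.rf (nat_lit 1657) (nat_lit 493858305440515000352)) (.cons (.br (nat_lit 8) (nat_lit 0) (.cons (.rf (nat_lit 1657) (nat_lit 493858305440582043680)) (.cons (.rf (nat_lit 1657) (nat_lit 493858305440515000352)) .nil))) .nil)))) .nil))),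
 (.br (nat_lit 9) (nat_lit 1) (.cons (.rf (nat_lit 1656) (nat_lit 493858305440582043680)) (.cons (.rf (nat_lit 1658) (nat_lit 493858305440582043680)) (.cons (.br (nat_lit 9) (nat_lit 1) (.cons (.rf (nat_lit 1656) (nat_lit 493858305440582043680)) (.cons (.rf (nat_lit 1658) (nat_lit 493858305440582043680)) .nil))) .nil)))),
 (.br (nat_lit 8) (nat_lit 0) (.cons (.br (nat_lit 10) (nat_lit 0) (.cons (.br (nat_lit 9) (nat_lit 1) (.cons (.ev (nat_lit 202824423683840328703530367976450) (nat_lit 4)) .nil)) .nil)) (.cons (.br (nat_lit 5) (nat_lit 1) (.cons (.br (nat_lit 9) (nat_lit 1) (.cons (.ev (nat_lit 158779117685764766598058347530) (nat_lit 4)) .nil)) (.cons (.br (nat_lit 9) (nat_lit 1) (.cons (.ev (nat_lit 40565132385444497074191107622922) (nat_lit 4)) .nil)) .nil))) .nil))),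
 (.br (nat_lit 5) (nat_lit 1) (.cons (.br (nat_lit 9) (nat_lit 1) (.cons (.ev (nat_lit 202824423683840328710127337997826) (nat_lit 4)) .nil)) (.cons (.kr (nat_lit 309485009821345068741558528) (nat_lit 18446745173221244928) (nat_lit 1) (nat_lit 0)) .nil))),
 (.br (nat_lit 5) (nat_lit 1) (.cons (.rf (nat_lit 1661) (nat_lit 493858305440515000352)) (.cons (.br (nat_lit 8) (nat_lit 0) (.cons (.ev (nat_lit 40565132385444497074191106966026) (nat_lit 4)) .nil)) .nil))),
 (.br (nat_lit 13) (nat_lit 1) (.cons (.rf (nat_lit 1659) (nat_lit 493858305440582043680)) (.cons (.br (nat_lit 6) (nat_lit 0) (.cons (.rf (nat_lit 1660) (nat_lit 493858305440582043680)) (.cons (.rf (nat_lit 1660) (nat_lit 493858305440515000352)) (.cons (.br (nat_lit 3) (nat_lit 1) (.cons (.rf (nat_lit 1661) (nat_lit 493858305440582043680)) (.cons (.rf (nat_lit 1662) (nat_lit 493858305440582043680)) (.cons (.br (nat_lit 5) (nat_lit 1) (.cons (.kr (nat_lit 309485009821346168236409088) (nat_lit 18446744073726394368) (nat_lit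 1) (nat_lit 0)) (.cons (.rf (nat_lit 1662) (nat_lit 493858305440515000352)) .nil))) .nil)))) .nil)))) .nil))),
 (.br (nat_lit 13) (nat_lit 1) (.cons (.rf (nat_lit 1659) (nat_lit 493858305440582043680)) (.cons (.rf (nat_lit 1663) (nat_lit 493858305440582043680)) (.cons (.br (nat_lit 13) (nat_lit 1) (.cons (.rf (nat_lit 1659) (nat_lit 493858305440582043680)) (.cons (.rf (nat_lit 1663) (nat_lit 493858305440582043680)) .nil))) .nil)))),
 (.br (nat_lit 13) (nat_lit 1) (.cons (.rf (nat_lit 1659) (nat_lit 493858305440582043680)) (.cons (.rf (nat_lit 1664) (nat_lit 493858305440582043680)) (.cons (.br (nat_lit 13) (nat_lit 1) (.cons (.rf (nat_lit 1659) (nat_lit 493858305440582043680)) (.cons (.rf (nat_lit 1664) (nat_lit 493858305440582043680)) .nil))) .nil)))),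
 (.br (nat_lit 12) (nat_lit 1) (.cons (.br (nat_lit 11) (nat_lit 0) (.cons (.rf (nat_lit 1652) (nat_lit 493858305440582043680)) (.cons (.rf (nat_lit 1652) (nat_lit 493858305440515000352)) (.cons (.rf (nat_lit 1653) (nat_lit 493858305440582043680)) (.cons (.br (nat_lit 11) (nat_lit 0) (.cons (.rf (nat_lit 1652) (nat_lit 493858305440582043680)) (.cons (.rf (nat_lit 1652) (nat_lit 493858305440515000352)) (.cons (.rf (nat_lit 1653) (nat_lit 493858305440582043680)) .nil)))) .nil))))) (.cons (.br (nat_lit 13) (nat_lit 1) (.cons (.rf (nat_lit 1659) (nat_lit 493858305440582043680)) (.cons (.rf (nat_lit 1664) (nat_lit 493858305440582043680)) (.cons (.rf (nat_lit 1665) (nat_lit 493858305440582043680)) (.cons (.br (nat_lit 13) (nat_lit 1) (.cons (.rf (nat_lit 1659) (nat_lit 493858305440582043680)) (.cons (.rf (nat_lit 1664) (nat_lit 493858305440582043680)) (.cons (.rf (nat_lit 1665) (nat_lit 493858305440582043680)) .nil)))) .nil))))) .nil)))]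

theorem c46 : chkAll C T R L46 (nat_lit 1636) = true := by decide +kernel

theorem l46 : (nat_lit 1636) + L46.length = (nat_lit 1667) := by decide +kernel

/-- part of the certificates -/
def L47 : List Prf := [(.br (nat_lit 12) (nat_lit 1) (.cons (.rf (nat_lit 1666) (nat_lit 493858305440582043680)) (.cons (.br (nat_lit 12) (nat_lit 1) (.cons (.rf (nat_lit 1666) (nat_lit 493858305440582043680)) (.cons (.rf (nat_lit 1666) (nat_lit 493745718752727630912)) .nil))) (.cons (.br (nat_lit 12) (nat_lit 1) (.cons (.rf (nat_lit 1666) (nat_lit 493858305440582043680)) (.cons (.rf (nat_lit 1666) (nat_lit 493745718752727630912)) .nil))) .nil)))),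
 (.br (nat_lit 12) (nat_lit 1) (.cons (.rf (nat_lit 1667) (nat_lit 493858305440582043680)) (.cons (.rf (nat_lit 1667) (nat_lit 493745718752727630912)) (.cons (.br (nat_lit 12) (nat_lit 1) (.cons (.rf (nat_lit 1667) (nat_lit 493858305440582043680)) (.cons (.rf (nat_lit 1667) (nat_lit 493745718752727630912)) .nil))) .nil)))),
 (.br (nat_lit 4) (nat_lit 0) (.cons (.rf (nat_lit 742) (nat_lit 7688225888)) (.cons (.rf (nat_lit 742) (nat_lit 7621117088)) (.cons (.br (nat_lit 7) (nat_lit 0) (.cons (.kr (nat_lit 72057594037927936) (nat_lit 4722366482869645213696) (nat_lit 7) (nat_lit 0)) (.cons (.br (nat_lit 12) (nat_lit 1) (.cons (.rf (nat_lit 1617) (nat_lit 14242959524133701664)) (.cons (.rf (nat_lit 1618) (nat_lit 14242959524133701664)) (.cons (.rf (nat_lit 1617) (nat_lit 14130372836279288896)) (.cons (.rf (nat_lit 1618) (nat_lit 14130372836279288896)) .nil))))) .nil))) (.cons (.br (nat_lit 7) (nat_lit 0) (.cons (.br (nat_lit 12) (nat_lit 1) (.cons (.rf (nat_lit 1627) (nat_lit 14242959524133701664))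 (.cons (.rf (nat_lit 1628) (nat_lit 14242959524133701664)) (.cons (.rf (nat_lit 1627) (nat_lit 14130372836279288896)) (.cons (.rf (nat_lit 1628) (nat_lit 14130372836279288896)) .nil))))) (.cons (.br (nat_lit 9) (nat_lit 1) (.cons (.rf (nat_lit 1639) (nat_lit 14242959524133701664)) (.cons (.rf (nat_lit 1648) (nat_lit 14242959524133701664)) (.cons (.rf (nat_lit 1639) (nat_lit 14130372836279288896)) (.cons (.rf (nat_lit 1648) (nat_lit 14130372836279288896)) .nil))))) (.cons (.br (nat_lit 12) (nat_lit 1) (.cons (.rf (nat_lit 1667) (nat_lit 493858305440582043680)) (.cons (.rf (nat_lit 1668) (nat_lit 493858305440582043680)) (.cons (.rf (nat_lit 1667) (nat_lit 493745718752727630912)) (.cons (.rf (nat_lit 1668) (nat_lit 493745718752727630912)) .nil))))) .nil)))) .nil))))),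
 (.br (nat_lit 11) (nat_lit 1) (.cons (.rf (nat_lit 157) (nat_lit 11517596138571777)) (.cons (.rf (nat_lit 1413) (nat_lit 406803023386544256)) .nil))),
 (.br (nat_lit 11) (nat_lit 0) (.cons (.br (nat_lit 8) (nat_lit 0) (.cons (.ev (nat_lit 79537652246452165536225689856) (nat_lit 1)) (.cons (.ev (nat_lit 20282719093383930309479659208704) (nat_lit 1)) .nil))) .nil)),
 (.br (nat_lit 10) (nat_lit 0) (.cons (.br (nat_lit 11) (nat_lit 0) (.cons (.rf (nat_lit 1671) (nat_lit 493858305440582043680)) (.cons (.br (nat_lit 11) (nat_lit 0) (.cons (.rf (nat_lit 1671) (nat_lit 493858305440582043680)) .nil)) .nil))) .nil)),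
 (.br (nat_lit 4) (nat_lit 0) (.cons (.ev (nat_lit 4722366483973451808769) (nat_lit 1)) (.cons (.br (nat_lit 5) (nat_lit 1) (.cons (.rf (nat_lit 742) (nat_lit 8696956064)) (.cons (.rf (nat_lit 350) (nat_lit 407999224489412899)) (.cons (.br (nat_lit 8) (nat_lit 0) (.cons (.rf (nat_lit 337) (nat_lit 407999222409037929)) (.cons (.br (nat_lit 10) (nat_lit 0) (.cons (.rf (nat_lit 1670) (nat_lit 15433072045018188865)) (.cons (.br (nat_lit 10) (nat_lit 0) (.cons (.rf (nat_lit 1670) (nat_lit 15433072045018188865)) .nil)) .nil))) .nil))) .nil)))) (.cons (.br (nat_lit 5) (nat_lit 1) (.cons (.rf (nat_lit 742) (nat_lit 8696956064)) (.cons (.br (nat_lit 8) (nat_lit 0) (.cons (.br (nat_lit 12) (nat_lit 1) (.cons (.rf (nat_lit 349) (nat_lit 480065747794727971)) (.cons (.rf (nat_lit 349) (nat_lit 475562113840254021)) (.cons (.br (nat_lit 12) (nat_lit 1) (.cons (.rf (nat_lit 349) (nat_lit 480065747794727971)) (.cons (.rf (nat_lit 349) (nat_lit 475562113840254021)) .nil))) .nil)))) (.cons (.rf (nat_lit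 349) (nat_lit 439560704823133477)) .nil))) (.cons (.br (nat_lit 10) (nat_lit 0) (.cons (.rf (nat_lit 1672) (nat_lit 493858305440582043680)) (.cons (.br (nat_lit 10) (nat_lit 0) (.cons (.rf (nat_lit 1672) (nat_lit 493858305440582043680)) .nil)) .nil))) .nil)))) .nil)))),
 (.br (nat_lit 10) (nat_lit 0) (.cons (.br (nat_lit 12) (nat_lit 1) (.cons (.br (nat_lit 11) (nat_lit 0) (.cons (.zr (nat_lit 40564819212025923503546261635074) (nat_lit 79847132533907028839111852288) (nat_lit 5) (nat_lit 3)) .nil)) .nil)) .nil)),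
 (.br (nat_lit 6) (nat_lit 0) (.cons (.ev (nat_lit 1213666633123047523025153) (nat_lit 1)) (.cons (.br (nat_lit 4) (nat_lit 0) (.cons (.br (nat_lit 12) (nat_lit 1) (.cons (.br (nat_lit 11) (nat_lit 0) (.cons (.ev (nat_lit 20361947255898122589479165231361) (nat_lit 1)) .nil)) .nil)) (.cons (.rf (nat_lit 157) (nat_lit 12645693956359237)) .nil))) .nil))),
 (.br (nat_lit 11) (nat_lit 0) (.cons (.rf (nat_lit 1675) (nat_lit 493858305440582043680)) (.cons (.br (nat_lit 11) (nat_lit 0) (.cons (.rf (nat_lit 1675) (nat_lit 493858305440582043680)) .nil)) .nil))),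
 (.br (nat_lit 11) (nat_lit 0) (.cons (.br (nat_lit 4) (nat_lit 0) (.cons (.ev (nat_lit 309485028340147840278921473) (nat_lit 1)) (.cons (.br (nat_lit 6) (nat_lit 0) (.cons (.br (nat_lit 10) (nat_lit 0) (.cons (.ev (nat_lit 20520096509046319403921634820610) (nat_lit 2)) .nil)) (.cons (.br (nat_lit 10) (nat_lit 0) (.cons (.ev (nat_lit 20520096509046319403921634951170) (nat_lit 2)) .nil)) .nil))) .nil))) .nil)),
 (.br (nat_lit 11) (nat_lit 0) (.cons (.rf (nat_lit 1677) (nat_lit 493858305440582043680)) (.cons (.br (nat_lit 11) (nat_lit 0) (.cons (.rf (nat_lit 1677) (nat_lit 493858305440582043680)) .nil)) .nil))),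
 (.br (nat_lit 4) (nat_lit 0) (.cons (.br (nat_lit 13) (nat_lit 1) (.cons (.zr (nat_lit 158457533954492686479315173891) (nat_lit 36893489259832606720) (nat_lit 5) (nat_lit 3)) (.cons (.kr (nat_lit 79537647524085682662268731649) (nat_lit 4740813226943354896384) (nat_lit 0) (nat_lit 3)) .nil))) (.cons (.br (nat_lit 11) (nat_lit 0) (.cons (.ev (nat_lit 79228167255077564541210525696) (nat_lit 1)) (.cons (.ev (nat_lit 20282409608392555708484644045056) (nat_lit 1)) .nil))) .nil))),
 (.br (nat_lit 4) (nat_lit 0) (.cons (.ev (nat_lit 79228167236702879161033752576) (nat_lit 1)) (.cons (.br (nat_lit 11) (nat_lit 0) (.cons (.ev (nat_lit 79228167255077564541210525696) (nat_lit 1)) (.cons (.ev (nat_lit 20520713061251071674818714796290) (nat_lit 2)) .nil))) .nil))),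
 (.br (nat_lit 10) (nat_lit 0) (.cons (.rf (nat_lit 1678) (nat_lit 493858305440582043680)) (.cons (.br (nat_lit 11) (nat_lit 0) (.cons (.rf (nat_lit 1679) (nat_lit 493858305440582043680)) (.cons (.rf (nat_lit 1680) (nat_lit 493858305440582043680)) (.cons (.br (nat_lit 11) (nat_lit 0) (.cons (.rf (nat_lit 1679) (nat_lit 493858305440582043680)) (.cons (.rf (nat_lit 1680) (nat_lit 493858305440582043680)) .nil))) .nil)))) .nil))),
 (.br (nat_lit 8) (nat_lit 0) (.cons (.rf (nat_lit 1673) (nat_lit 14242959524133701664)) (.cons (.br (nat_lit 5) (nat_lit 1) (.cons (.br (nat_lit 6) (nat_lit 0) (.cons (.rf (nat_lit 977) (nat_lit 15064691417155681)) (.cons (.rf (nat_lit 118) (nat_lit 15064555044701475)) (.cons (.br (nat_lit 9) (nat_lit 1) (.cons (.rf (nat_lit 113) (nat_lit 12672019890144547)) (.cons (.br (nat_lit 10) (nat_lit 0) (.cons (.rf (nat_lit 1674) (nat_lit 493858305440582043680)) (.cons (.br (nat_lit 10) (nat_lit 0) (.cons (.rf (nat_lit 1674) (nat_lit 493858305440582043680)) .nil))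 .nil))) .nil))) .nil)))) (.cons (.rf (nat_lit 742) (nat_lit 8696956064)) (.cons (.br (nat_lit 10) (nat_lit 0) (.cons (.rf (nat_lit 113) (nat_lit 12672222767548513)) (.cons (.br (nat_lit 4) (nat_lit 0) (.cons (.rf (nat_lit 319) (nat_lit 15064761134975081)) (.cons (.rf (nat_lit 329) (nat_lit 14931684999957538)) (.cons (.br (nat_lit 6) (nat_lit 0) (.cons (.rf (nat_lit 4) (nat_lit 15064756941686051)) (.cons (.rf (nat_lit 329) (nat_lit 14790813197469731)) (.cons (.br (nat_lit 9) (nat_lit 1) (.cons (.ev (nat_lit 1213666633123047523025153) (nat_lit 1)) .nil)) .nil)))) .nil)))) (.cons (.br (nat_lit 11) (nat_lit 0) (.cons (.rf (nat_lit 1675) (nat_lit 493858305440582043680)) (.cons (.rf (nat_lit 1676) (nat_lit 493858305440582043680)) (.cons (.br (nat_lit 11) (nat_lit 0) (.cons (.rf (nat_lit 1675) (nat_lit 493858305440582043680)) (.cons (.rf (nat_lit 1676) (nat_lit 493858305440582043680)) .nil))) .nil)))) .nil)))) (.cons (.br (nat_lit 10) (nat_lit 0) (.cons (.rf (nat_lit 1678) (nat_lit 493858305440582043680))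 (.cons (.rf (nat_lit 1681) (nat_lit 493858305440582043680)) (.cons (.br (nat_lit 10) (nat_lit 0) (.cons (.rf (nat_lit 1678) (nat_lit 493858305440582043680)) (.cons (.rf (nat_lit 1681) (nat_lit 493858305440582043680)) .nil))) .nil)))) .nil))))) .nil))),
 (.br (nat_lit 8) (nat_lit 0) (.cons (.rf (nat_lit 1673) (nat_lit 14242959524133701664)) (.cons (.rf (nat_lit 1682) (nat_lit 14242959524133701664)) (.cons (.br (nat_lit 8) (nat_lit 0) (.cons (.rf (nat_lit 1673) (nat_lit 14242959524133701664)) (.cons (.rf (nat_lit 1682) (nat_lit 14242959524133701664)) .nil))) .nil)))),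
 (.br (nat_lit 5) (nat_lit 1) (.cons (.rf (nat_lit 4) (nat_lit 15069054158111906)) (.cons (.br (nat_lit 10) (nat_lit 0) (.cons (.br (nat_lit 12) (nat_lit 1) (.cons (.br (nat_lit 11) (nat_lit 0) (.cons (.zr (nat_lit 20282413239873862233574065832449) (nat_lit 79847132533907591780475404288) (nat_lit 5) (nat_lit 2)) .nil)) .nil)) .nil)) .nil))),
 (.br (nat_lit 5) (nat_lit 1) (.cons (.rf (nat_lit 742) (nat_lit 11922375840)) .nil)),
 (.br (nat_lit 8) (nat_lit 0) (.cons (.rf (nat_lit 1683) (nat_lit 14242959524133701664)) (.cons (.br (nat_lit 4) (nat_lit 0) (.cons (.br (nat_lit 6) (nat_lit 0) (.cons (.rf (nat_lit 24) (nat_lit 15061392815230113)) (.cons (.rf (nat_lit 118) (nat_lit 15064555044701475)) (.cons (.br (nat_lit 12) (nat_lit 1) (.cons (.rf (nat_lit 1684) (nat_lit 493858305440582043680)) (.cons (.br (nat_lit 12) (nat_lit 1) (.cons (.rf (nat_lit 1684) (nat_lit 493858305440582043680)) .nil)) .nil))) .nil)))) (.cons (.br (nat_lit 6) (nat_lit 0) (.cons (.rf (nat_lit 319) (nat_lit 15069056173476929))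 (.cons (.rf (nat_lit 743) (nat_lit 365317236958243)) (.cons (.br (nat_lit 5) (nat_lit 1) (.cons (.rf (nat_lit 1685) (nat_lit 493823402543469922336)) (.cons (.rf (nat_lit 1685) (nat_lit 493858305440582043680)) .nil))) .nil)))) (.cons (.ev (nat_lit 4740885284541704437761) (nat_lit 1)) .nil)))) .nil))),
 (.br (nat_lit 8) (nat_lit 0) (.cons (.rf (nat_lit 1683) (nat_lit 14242959524133701664)) (.cons (.rf (nat_lit 1686) (nat_lit 14242959524133701664)) (.cons (.br (nat_lit 8) (nat_lit 0) (.cons (.rf (nat_lit 1683) (nat_lit 14242959524133701664)) (.cons (.rf (nat_lit 1686) (nat_lit 14242959524133701664)) .nil))) .nil)))),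
 (.br (nat_lit 8) (nat_lit 0) (.cons (.rf (nat_lit 1683) (nat_lit 14242959524133701664)) (.cons (.rf (nat_lit 1687) (nat_lit 14242959524133701664)) (.cons (.br (nat_lit 8) (nat_lit 0) (.cons (.rf (nat_lit 1683) (nat_lit 14242959524133701664)) (.cons (.rf (nat_lit 1687) (nat_lit 14242959524133701664)) .nil))) .nil)))),
 (.br (nat_lit 8) (nat_lit 0) (.cons (.rf (nat_lit 1683) (nat_lit 14242959524133701664)) (.cons (.rf (nat_lit 1687) (nat_lit 14242959524133701664)) (.cons (.rf (nat_lit 1688) (nat_lit 14242959524133701664)) (.cons (.br (nat_lit 8) (nat_lit 0) (.cons (.rf (nat_lit 1683) (nat_lit 14242959524133701664)) (.cons (.rf (nat_lit 1687) (nat_lit 14242959524133701664)) (.cons (.rf (nat_lit 1688) (nat_lit 14242959524133701664)) .nil)))) .nil))))),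
 (.br (nat_lit 8) (nat_lit 0) (.cons (.br (nat_lit 6) (nat_lit 0) (.cons (.ev (nat_lit 79229376180969518235104837888) (nat_lit 1)) (.cons (.ev (nat_lit 20282720302309750206683322253568) (nat_lit 1)) .nil))) .nil)),
 (.br (nat_lit 8) (nat_lit 0) (.cons (.rf (nat_lit 1690) (nat_lit 493858305440582043680)) (.cons (.br (nat_lit 8) (nat_lit 0) (.cons (.rf (nat_lit 1690) (nat_lit 493858305440582043680)) .nil)) .nil))),
 (.br (nat_lit 6) (nat_lit 0) (.cons (.rf (nat_lit 1691) (nat_lit 493858305440582043680)) (.cons (.br (nat_lit 13) (nat_lit 1) (.cons (.ev (nat_lit 20282719093383930309479659274496) (nat_lit 1)) (.cons (.br (nat_lit 4) (nat_lit 0) (.cons (.ev (nat_lit 20282720297587311666219639177216) (nat_lit 1)) (.cons (.br (nat_lit 5) (nat_lit 1) (.cons (.zr (nat_lit 237685696487203768146568871940) (nat_lit 928459751830519188232865024) (nat_lit 5) (nat_lit 3)) .nil)) .nil))) .nil))) .nil))),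
 (.br (nat_lit 11) (nat_lit 0) (.cons (.br (nat_lit 10) (nat_lit 0) (.cons (.rf (nat_lit 742) (nat_lit 11922375840)) (.cons (.br (nat_lit 4) (nat_lit 0) (.cons (.rf (nat_lit 118) (nat_lit 15064558399096937)) (.cons (.rf (nat_lit 1164) (nat_lit 408008156947548257)) (.cons (.br (nat_lit 12) (nat_lit 1) (.cons (.br (nat_lit 5) (nat_lit 1) (.cons (.rf (nat_lit 329) (nat_lit 14790808995857513)) (.cons (.br (nat_lit 6) (nat_lit 0) (.cons (.br (nat_lit 8) (nat_lit 0) (.cons (.ev (nat_lit 20361637766203044424673696874496) (nat_lit 2)) .nil)) .nil)) .nil))) (.cons (.ev (nat_lit 79537652246452165536225755136) (nat_lit 1)) .nil))) .nil)))) (.cons (.br (nat_lit 6) (nat_lit 0) (.cons (.rf (nat_lit 1691) (nat_lit 493858305440582043680)) (.cons (.rf (nat_lit 1692) (nat_lit 493858305440582043680)) (.cons (.br (nat_lit 6) (nat_lit 0) (.cons (.rf (nat_lit 1691) (nat_lit 493858305440582043680)) (.cons (.rf (nat_lit 1692) (nat_lit 493858305440582043680)) .nil))) .nil)))) .nil)))) .nil)),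
 (.br (nat_lit 11) (nat_lit 0) (.cons (.rf (nat_lit 1693) (nat_lit 14242959524133701664)) (.cons (.br (nat_lit 11) (nat_lit 0) (.cons (.rf (nat_lit 1693) (nat_lit 14242959524133701664)) .nil)) .nil))),
 (.br (nat_lit 13) (nat_lit 1) (.cons (.br (nat_lit 5) (nat_lit 1) (.cons (.kr (nat_lit 20282719088661491769020271034369) (nat_lit 1213648186378973796696064) (nat_lit 0) (nat_lit 1)) (.cons (.br (nat_lit 6) (nat_lit 0) (.cons (.zr (nat_lit 1223111510203974872662016) (nat_lit 80156617543728373912131600640) (nat_lit 5) (nat_lit 3)) .nil)) .nil))) .nil)),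
 (.br (nat_lit 7) (nat_lit 0) (.cons (.rf (nat_lit 1172) (nat_lit 12870584360381909032)) .nil)),
 (.br (nat_lit 5) (nat_lit 0) (.cons (.ev (nat_lit 309489750634854586584662016) (nat_lit 1)) (.cons (.rf (nat_lit 1696) (nat_lit 14242959524133701664)) .nil))),
 (.br (nat_lit 6) (nat_lit 0) (.cons (.br (nat_lit 13) (nat_lit 1) (.cons (.kr (nat_lit 20282409603651670423947251286017) (nat_lit 18446744073709617152) (nat_lit 0) (nat_lit 1)) (.cons (.ev (nat_lit 20282720297587311666219639177216) (nat_lit 1)) .nil))) .nil)),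
 (.br (nat_lit 4) (nat_lit 0) (.cons (.ev (nat_lit 4722366483973451808769) (nat_lit 1)) (.cons (.br (nat_lit 11) (nat_lit 0) (.cons (.rf (nat_lit 329) (nat_lit 15001810038391913)) (.cons (.br (nat_lit 13) (nat_lit 1) (.cons (.rf (nat_lit 1695) (nat_lit 493858305440582043680)) (.cons (.br (nat_lit 13) (nat_lit 1) (.cons (.rf (nat_lit 1695) (nat_lit 493858305440582043680)) .nil)) .nil))) .nil))) (.cons (.br (nat_lit 5) (nat_lit 1) (.cons (.br (nat_lit 8) (nat_lit 0) (.cons (.rf (nat_lit 1697) (nat_lit 15433072045018188865)) (.cons (.br (nat_lit 8) (nat_lit 0) (.cons (.rf (nat_lit 1697) (nat_lit 15433072045018188865)) .nil)) .nil))) (.cons (.br (nat_lit 6) (nat_lit 0) (.cons (.rf (nat_lit 1698) (nat_lit 493858305440582043680)) (.cons (.br (nat_lit 6) (nat_lit 0) (.cons (.rf (nat_lit 1698) (nat_lit 493858305440582043680)) .nil)) .nil))) .nil))) .nil))))]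

theorem c47 : chkAll C T R L47 (nat_lit 1667) = true := by decide +kernel

theorem l47 : (nat_lit 1667) + L47.length = (nat_lit 1700) := by decide +kernel

/-- part of the certificates -/
def L48 : List Prf := [(.br (nat_lit 5) (nat_lit 1) (.cons (.br (nat_lit 13) (nat_lit 1) (.cons (.rf (nat_lit 1414) (nat_lit 14312652074000911522)) (.cons (.br (nat_lit 8) (nat_lit 0) (.cons (.ev (nat_lit 20282719093383930309479659208704) (nat_lit 1)) (.cons (.br (nat_lit 6) (nat_lit 0) (.cons (.ev (nat_lit 79229376180969518235104837888) (nat_lit 1)) .nil)) .nil))) .nil))) (.cons (.br (nat_lit 12) (nat_lit 1) (.cons (.br (nat_lit 8) (nat_lit 0) (.cons (.ev (nat_lit 79537652246452165536225689856) (nat_lit 1)) (.cons (.ev (nat_lit 20361637766203044424673696809216) (nat_lit 2)) .nil))) (.cons (.ev (nat_lit 79228162532711082766781972736) (nat_lit 1)) .nil))) .nil))),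
 (.br (nat_lit 13) (nat_lit 1) (.cons (.rf (nat_lit 1700) (nat_lit 493858305440582043680)) (.cons (.br (nat_lit 4) (nat_lit 0) (.cons (.br (nat_lit 6) (nat_lit 0) (.cons (.ev (nat_lit 20282720297587311666219639177216) (nat_lit 1)) (.cons (.br (nat_lit 8) (nat_lit 0) (.cons (.ev (nat_lit 79229376162522774165673476096) (nat_lit 1)) .nil)) .nil))) (.cons (.br (nat_lit 5) (nat_lit 1) (.cons (.rf (nat_lit 455) (nat_lit 444006063554135145)) (.cons (.br (nat_lit 6) (nat_lit 0) (.cons (.zr (nat_lit 81129638424051415505953225703428) (nat_lit 79230580458137288319969591552) (nat_lit 5) (nat_lit 1)) .nil)) .nil))) (.cons (.rf (nat_lit 1178) (nat_lit 15395987716836558945)) .nil)))) .nil))),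
 (.br (nat_lit 11) (nat_lit 0) (.cons (.rf (nat_lit 1699) (nat_lit 493858305440582043680)) (.cons (.br (nat_lit 13) (nat_lit 1) (.cons (.rf (nat_lit 1700) (nat_lit 493858305440582043680)) (.cons (.rf (nat_lit 1701) (nat_lit 493858305440582043680)) (.cons (.br (nat_lit 13) (nat_lit 1) (.cons (.rf (nat_lit 1700) (nat_lit 493858305440582043680)) (.cons (.rf (nat_lit 1701) (nat_lit 493858305440582043680)) .nil))) .nil)))) .nil))),
 (.br (nat_lit 10) (nat_lit 0) (.cons (.rf (nat_lit 742) (nat_lit 11922375840)) (.cons (.rf (nat_lit 1694) (nat_lit 14242959524133701664)) (.cons (.br (nat_lit 11) (nat_lit 0) (.cons (.rf (nat_lit 1699) (nat_lit 493858305440582043680)) (.cons (.rf (nat_lit 1702) (nat_lit 493858305440582043680)) (.cons (.br (nat_lit 11) (nat_lit 0) (.cons (.rf (nat_lit 1699) (nat_lit 493858305440582043680)) (.cons (.rf (nat_lit 1702) (nat_lit 493858305440582043680)) .nil))) .nil)))) .nil)))),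
 (.br (nat_lit 10) (nat_lit 0) (.cons (.rf (nat_lit 742) (nat_lit 11922375840)) (.cons (.rf (nat_lit 1694) (nat_lit 14242959524133701664)) (.cons (.rf (nat_lit 1703) (nat_lit 14242959524133701664)) (.cons (.br (nat_lit 10) (nat_lit 0) (.cons (.rf (nat_lit 742) (nat_lit 11922375840)) (.cons (.rf (nat_lit 1694) (nat_lit 14242959524133701664)) (.cons (.rf (nat_lit 1703) (nat_lit 14242959524133701664)) .nil)))) .nil))))),
 (.br (nat_lit 8) (nat_lit 0) (.cons (.br (nat_lit 6) (nat_lit 0) (.cons (.br (nat_lit 10) (nat_lit 0) (.cons (.ev (nat_lit 20361947255898122589479165231361) (nat_lit 1)) .nil)) (.cons (.br (nat_lit 10) (nat_lit 0) (.cons (.ev (nat_lit 20361947255898122589479165231361) (nat_lit 1)) .nil)) .nil))) .nil)),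
 (.br (nat_lit 4) (nat_lit 0) (.cons (.rf (nat_lit 1150) (nat_lit 408008156944405601)) (.cons (.br (nat_lit 5) (nat_lit 1) (.cons (.rf (nat_lit 742) (nat_lit 8696956064)) (.cons (.ev (nat_lit 72058697844588801) (nat_lit 1)) .nil))) (.cons (.br (nat_lit 5) (nat_lit 1) (.cons (.rf (nat_lit 742) (nat_lit 8696956064)) (.cons (.br (nat_lit 8) (nat_lit 0) (.cons (.rf (nat_lit 1705) (nat_lit 493858305440582043680)) (.cons (.br (nat_lit 8) (nat_lit 0) (.cons (.rf (nat_lit 1705) (nat_lit 493858305440582043680)) .nil)) .nil))) .nil))) .nil)))),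
 (.br (nat_lit 5) (nat_lit 1) (.cons (.br (nat_lit 8) (nat_lit 0) (.cons (.rf (nat_lit 118) (nat_lit 15061254428398883)) (.cons (.br (nat_lit 12) (nat_lit 1) (.cons (.br (nat_lit 10) (nat_lit 0) (.cons (.zr (nat_lit 40564819212025923503546261635074) (nat_lit 79847132533907028839111852288) (nat_lit 5) (nat_lit 3)) .nil)) .nil)) .nil))) (.cons (.rf (nat_lit 1150) (nat_lit 295411672402760994)) .nil))),
 (.br (nat_lit 5) (nat_lit 1) (.cons (.rf (nat_lit 1707) (nat_lit 493858305440582043680)) (.cons (.br (nat_lit 4) (nat_lit 0) (.cons (.rf (nat_lit 1267) (nat_lit 445092451772992673)) (.cons (.br (nat_lit 8) (nat_lit 0) (.cons (.rf (nat_lit 1696) (nat_lit 14315080853440660771)) (.cons (.br (nat_lit 10) (nat_lit 0) (.cons (.ev (nat_lit 20520094091194535496533846196226) (nat_lit 2)) .nil)) .nil))) .nil))) .nil))),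
 (.br (nat_lit 6) (nat_lit 0) (.cons (.rf (nat_lit 1706) (nat_lit 493858305440582043680)) (.cons (.br (nat_lit 5) (nat_lit 1) (.cons (.rf (nat_lit 1707) (nat_lit 493858305440582043680)) (.cons (.rf (nat_lit 1708) (nat_lit 493858305440582043680)) (.cons (.br (nat_lit 5) (nat_lit 1) (.cons (.rf (nat_lit 1150) (nat_lit 295411672402760994)) (.cons (.rf (nat_lit 1708) (nat_lit 493858305440582043680)) .nil))) .nil)))) .nil))),
 (.br (nat_lit 11) (nat_lit 0) (.cons (.rf (nat_lit 1704) (nat_lit 14242959524133701664)) (.cons (.br (nat_lit 6) (nat_lit 0) (.cons (.rf (nat_lit 1706) (nat_lit 493858305440582043680)) (.cons (.rf (nat_lit 1709) (nat_lit 493858305440582043680)) (.cons (.br (nat_lit 6) (nat_lit 0) (.cons (.rf (nat_lit 1706) (nat_lit 493858305440582043680)) (.cons (.rf (nat_lit 1709) (nat_lit 493858305440582043680)) .nil))) .nil)))) .nil))),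
 (.br (nat_lit 11) (nat_lit 0) (.cons (.rf (nat_lit 1704) (nat_lit 14242959524133701664)) (.cons (.rf (nat_lit 1710) (nat_lit 14242959524133701664)) (.cons (.br (nat_lit 11) (nat_lit 0) (.cons (.rf (nat_lit 1704) (nat_lit 14242959524133701664)) (.cons (.rf (nat_lit 1710) (nat_lit 14242959524133701664)) .nil))) .nil)))),
 (.br (nat_lit 11) (nat_lit 0) (.cons (.rf (nat_lit 1704) (nat_lit 14242959524133701664)) (.cons (.rf (nat_lit 1711) (nat_lit 14242959524133701664)) (.cons (.br (nat_lit 11) (nat_lit 0) (.cons (.rf (nat_lit 1704) (nat_lit 14242959524133701664)) (.cons (.rf (nat_lit 1711) (nat_lit 14242959524133701664)) .nil))) .nil)))),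
 (.br (nat_lit 11) (nat_lit 0) (.cons (.rf (nat_lit 1704) (nat_lit 14242959524133701664)) (.cons (.rf (nat_lit 1711) (nat_lit 14242959524133701664)) (.cons (.rf (nat_lit 1712) (nat_lit 14242959524133701664)) (.cons (.br (nat_lit 11) (nat_lit 0) (.cons (.rf (nat_lit 1704) (nat_lit 14242959524133701664)) (.cons (.rf (nat_lit 1711) (nat_lit 14242959524133701664)) (.cons (.rf (nat_lit 1712) (nat_lit 14242959524133701664)) .nil)))) .nil))))),
 (.br (nat_lit 7) (nat_lit 0) (.cons (.rf (nat_lit 1669) (nat_lit 407901468851537952)) (.cons (.br (nat_lit 3) (nat_lit 1) (.cons (.rf (nat_lit 742) (nat_lit 7688225888)) (.cons (.rf (nat_lit 1689) (nat_lit 14242959524133701664)) (.cons (.rf (nat_lit 1713) (nat_lit 14242959524133701664)) (.cons (.rf (nat_lit 1689) (nat_lit 14130372836279288896)) (.cons (.rf (nat_lit 1713) (nat_lit 14130372836279288896)) .nil)))))) .nil))),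
 (.br (nat_lit 10) (nat_lit 0) (.cons (.br (nat_lit 11) (nat_lit 0) (.cons (.ev (nat_lit 121694785288123833515117474613262) (nat_lit 4)) .nil)) .nil)),
 (.br (nat_lit 12) (nat_lit 1) (.cons (.br (nat_lit 11) (nat_lit 0) (.cons (.rf (nat_lit 1715) (nat_lit 493858305440582043680)) (.cons (.br (nat_lit 11) (nat_lit 0) (.cons (.rf (nat_lit 1715) (nat_lit 493858305440582043680)) .nil)) .nil))) .nil)),
 (.br (nat_lit 11) (nat_lit 0) (.cons (.br (nat_lit 4) (nat_lit 0) (.cons (.br (nat_lit 10) (nat_lit 0) (.cons (.ev (nat_lit 20361947255898122589479165231361) (nat_lit 1)) .nil)) (.cons (.ev (nat_lit 20282719088661563826614325805056) (nat_lit 1)) .nil))) .nil)),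
 (.br (nat_lit 11) (nat_lit 0) (.cons (.rf (nat_lit 1717) (nat_lit 493858305440582043680)) (.cons (.br (nat_lit 11) (nat_lit 0) (.cons (.rf (nat_lit 1717) (nat_lit 493858305440582043680)) .nil)) .nil))),
 (.br (nat_lit 11) (nat_lit 0) (.cons (.rf (nat_lit 1718) (nat_lit 493858305440582043680)) (.cons (.br (nat_lit 11) (nat_lit 0) (.cons (.rf (nat_lit 1718) (nat_lit 493858305440582043680)) .nil)) .nil))),
 (.br (nat_lit 11) (nat_lit 0) (.cons (.br (nat_lit 4) (nat_lit 0) (.cons (.ev (nat_lit 309485028340147840278921473) (nat_lit 1)) (.cons (.br (nat_lit 6) (nat_lit 0) (.cons (.br (nat_lit 10) (nat_lit 0) (.cons (.ev (nat_lit 20361637766184381505618816598273) (nat_lit 1)) .nil)) (.cons (.br (nat_lit 10) (nat_lit 0) (.cons (.ev (nat_lit 20361637766184381505618816598273) (nat_lit 1)) .nil)) .nil))) .nil))) .nil)),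
 (.br (nat_lit 11) (nat_lit 0) (.cons (.rf (nat_lit 1720) (nat_lit 493858305440582043680)) (.cons (.br (nat_lit 11) (nat_lit 0) (.cons (.rf (nat_lit 1720) (nat_lit 493858305440582043680)) .nil)) .nil))),
 (.br (nat_lit 4) (nat_lit 0) (.cons (.br (nat_lit 13) (nat_lit 1) (.cons (.ev (nat_lit 79229376180897460645345099776) (nat_lit 1)) (.cons (.ev (nat_lit 79537652246524223125951873024) (nat_lit 1)) .nil))) (.cons (.br (nat_lit 11) (nat_lit 0) (.cons (.ev (nat_lit 79847146738116139472830661379) (nat_lit 2)) (.cons (.ev (nat_lit 20282409608392555708484644045056) (nat_lit 1)) .nil))) .nil))),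
 (.br (nat_lit 11) (nat_lit 0) (.cons (.rf (nat_lit 1722) (nat_lit 493858305440582043680)) (.cons (.br (nat_lit 4) (nat_lit 0) (.cons (.br (nat_lit 6) (nat_lit 0) (.cons (.ev (nat_lit 284904790377285554386260074562562) (nat_lit 4)) .nil)) (.cons (.ev (nat_lit 20361637766184381505618816532481) (nat_lit 1)) .nil))) .nil))),
 (.br (nat_lit 10) (nat_lit 0) (.cons (.rf (nat_lit 1721) (nat_lit 493858305440582043680)) (.cons (.br (nat_lit 11) (nat_lit 0) (.cons (.rf (nat_lit 1722) (nat_lit 493858305440582043680)) (.cons (.rf (nat_lit 1723) (nat_lit 493858305440582043680)) (.cons (.br (nat_lit 11) (nat_lit 0) (.cons (.rf (nat_lit 1722) (nat_lit 493858305440582043680)) (.cons (.rf (nat_lit 1723) (nat_lit 493858305440582043680)) .nil))) .nil)))) .nil))),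
 (.br (nat_lit 5) (nat_lit 1) (.cons (.br (nat_lit 6) (nat_lit 0) (.cons (.rf (nat_lit 123) (nat_lit 12641302352102469)) (.cons (.rf (nat_lit 319) (nat_lit 15069089389286497)) (.cons (.br (nat_lit 12) (nat_lit 1) (.cons (.rf (nat_lit 1716) (nat_lit 493858305440582043680)) (.cons (.br (nat_lit 12) (nat_lit 1) (.cons (.rf (nat_lit 1716) (nat_lit 493858305440582043680)) .nil)) .nil))) .nil)))) (.cons (.rf (nat_lit 742) (nat_lit 8696956064)) (.cons (.br (nat_lit 6) (nat_lit 0) (.cons (.rf (nat_lit 113) (nat_lit 12634703007122594)) (.cons (.br (nat_lit 4) (nat_lit 0) (.cons (.rf (nat_lit 319) (nat_lit 15064691342779489)) (.cons (.rf (nat_lit 329) (nat_lit 14896501565297729)) (.cons (.br (nat_lit 9) (nat_lit 1) (.cons (.rf (nat_lit 4) (nat_lit 15062420512114981)) (.cons (.br (nat_lit 10) (nat_lit 0) (.cons (.rf (nat_lit 329) (nat_lit 14790740276413733)) (.cons (.br (nat_lit 13) (nat_lit 1) (.cons (.ev (nat_lit 20282409608392555708484644045056) (nat_lit 1)) .nil)) .nil))) .nil))) .nil))))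 (.cons (.br (nat_lit 11) (nat_lit 0) (.cons (.rf (nat_lit 1718) (nat_lit 493858305440582043680)) (.cons (.rf (nat_lit 1719) (nat_lit 493858305440582043680)) (.cons (.br (nat_lit 11) (nat_lit 0) (.cons (.rf (nat_lit 1718) (nat_lit 493858305440582043680)) (.cons (.rf (nat_lit 1719) (nat_lit 493858305440582043680)) .nil))) .nil)))) .nil)))) (.cons (.br (nat_lit 10) (nat_lit 0) (.cons (.rf (nat_lit 1721) (nat_lit 493858305440582043680)) (.cons (.rf (nat_lit 1724) (nat_lit 493858305440582043680)) (.cons (.br (nat_lit 10) (nat_lit 0) (.cons (.rf (nat_lit 1721) (nat_lit 493858305440582043680)) (.cons (.rf (nat_lit 1724) (nat_lit 493858305440582043680)) .nil))) .nil)))) .nil))))),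
 (.br (nat_lit 8) (nat_lit 0) (.cons (.rf (nat_lit 1725) (nat_lit 493858305440582043680)) (.cons (.rf (nat_lit 1725) (nat_lit 458117738797769787424)) .nil))),
 (.br (nat_lit 10) (nat_lit 0) (.cons (.ev (nat_lit 313111787281034485035958786) (nat_lit 2)) .nil)),
 (.br (nat_lit 11) (nat_lit 0) (.cons (.br (nat_lit 9) (nat_lit 1) (.cons (.br (nat_lit 12) (nat_lit 1) (.cons (.br (nat_lit 10) (nat_lit 0) (.cons (.ev (nat_lit 40723277959646905198993159094274) (nat_lit 2)) .nil)) .nil)) (.cons (.br (nat_lit 6) (nat_lit 0) (.cons (.rf (nat_lit 1727) (nat_lit 493858305440582043680)) (.cons (.rf (nat_lit 1727) (nat_lit 458117738797769787424)) .nil))) .nil))) .nil)),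
 (.br (nat_lit 11) (nat_lit 0) (.cons (.rf (nat_lit 1728) (nat_lit 493858305440582043680)) (.cons (.rf (nat_lit 1728) (nat_lit 458117738797769787424)) .nil))),
 (.br (nat_lit 11) (nat_lit 0) (.cons (.rf (nat_lit 1729) (nat_lit 493858305440582043680)) (.cons (.br (nat_lit 11) (nat_lit 0) (.cons (.rf (nat_lit 1729) (nat_lit 493858305440582043680)) .nil)) .nil))),
 (.br (nat_lit 10) (nat_lit 0) (.cons (.ev (nat_lit 20361947255898122589479165231361) (nat_lit 1)) .nil)),
 (.br (nat_lit 6) (nat_lit 0) (.cons (.br (nat_lit 10) (nat_lit 0) (.cons (.ev (nat_lit 20361947255898122589479165231361) (nat_lit 1)) .nil)) (.cons (.br (nat_lit 9) (nat_lit 1) (.cons (.ev (nat_lit 20361947255898122589479165231361) (nat_lit 1)) .nil)) .nil))),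
 (.br (nat_lit 11) (nat_lit 0) (.cons (.br (nat_lit 4) (nat_lit 0) (.cons (.br (nat_lit 6) (nat_lit 0) (.cons (.rf (nat_lit 1731) (nat_lit 493858305440582043680)) (.cons (.rf (nat_lit 1731) (nat_lit 458117738797769787424)) .nil))) (.cons (.rf (nat_lit 1732) (nat_lit 493858305440582043680)) (.cons (.rf (nat_lit 1732) (nat_lit 458117738797769787424)) .nil)))) .nil)),
 (.br (nat_lit 11) (nat_lit 0) (.cons (.rf (nat_lit 1733) (nat_lit 493858305440582043680)) (.cons (.rf (nat_lit 1733) (nat_lit 458117738797769787424)) .nil)))]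

theorem c48 : chkAll C T R L48 (nat_lit 1700) = true := by decide +kernel

theorem l48 : (nat_lit 1700) + L48.length = (nat_lit 1735) := by decide +kernel

/-- part of the certificates -/
def L49 : List Prf := [(.br (nat_lit 11) (nat_lit 0) (.cons (.rf (nat_lit 1734) (nat_lit 493858305440582043680)) (.cons (.br (nat_lit 11) (nat_lit 0) (.cons (.rf (nat_lit 1734) (nat_lit 493858305440582043680)) .nil)) .nil))),
 (.br (nat_lit 6) (nat_lit 0) (.cons (.br (nat_lit 4) (nat_lit 0) (.cons (.zr (nat_lit 158457533954492686479315173891) (nat_lit 36893489259832606720) (nat_lit 5) (nat_lit 3)) (.cons (.br (nat_lit 12) (nat_lit 1) (.cons (.br (nat_lit 11) (nat_lit 0) (.cons (.ev (nat_lit 284904800048544539593741741982722) (nat_lit 4)) .nil)) .nil)) .nil))) (.cons (.ev (nat_lit 1208925819897203663110401) (nat_lit 1)) (.cons (.br (nat_lit 9) (nat_lit 1) (.cons (.br (nat_lit 12) (nat_lit 1) (.cons (.br (nat_lit 11) (nat_lit 0) (.cons (.ev (nat_lit 20361638975091754658744458280961) (nat_lit 1))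 .nil)) .nil)) (.cons (.br (nat_lit 4) (nat_lit 0) (.cons (.br (nat_lit 11) (nat_lit 0) (.cons (.ev (nat_lit 20361638975110273459312710909953) (nat_lit 1)) .nil)) (.cons (.br (nat_lit 11) (nat_lit 0) (.cons (.ev (nat_lit 20361638975110273459312710909953) (nat_lit 1)) .nil)) .nil))) .nil))) .nil)))),
 (.br (nat_lit 10) (nat_lit 0) (.cons (.rf (nat_lit 1736) (nat_lit 493858305440582043680)) (.cons (.rf (nat_lit 1736) (nat_lit 458117738797769787424)) .nil))),
 (.br (nat_lit 11) (nat_lit 0) (.cons (.ev (nat_lit 244498437166417877843172533865474) (nat_lit 4)) .nil)),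
 (.br (nat_lit 9) (nat_lit 1) (.cons (.br (nat_lit 12) (nat_lit 1) (.cons (.br (nat_lit 11) (nat_lit 0) (.cons (.ev (nat_lit 20361638975091754658744458346753) (nat_lit 1)) .nil)) .nil)) (.cons (.br (nat_lit 6) (nat_lit 0) (.cons (.rf (nat_lit 1738) (nat_lit 493858305440582043680)) (.cons (.rf (nat_lit 1738) (nat_lit 458117738797769787424)) .nil))) .nil))),
 (.br (nat_lit 11) (nat_lit 0) (.cons (.ev (nat_lit 20361947251175756106613831827713) (nat_lit 1)) .nil)),
 (.br (nat_lit 10) (nat_lit 0) (.cons (.rf (nat_lit 1737) (nat_lit 493858305440582043680)) (.cons (.br (nat_lit 9) (nat_lit 1) (.cons (.rf (nat_lit 1739) (nat_lit 493858305440582043680)) (.cons (.br (nat_lit 9) (nat_lit 1) (.cons (.rf (nat_lit 1739) (nat_lit 493858305440582043680)) (.cons (.br (nat_lit 4) (nat_lit 0) (.cons (.rf (nat_lit 1740) (nat_lit 493858305440582043680)) (.cons (.rf (nat_lit 1740) (nat_lit 458117738797769787424)) .nil))) .nil))) (.cons (.br (nat_lit 4) (nat_lit 0) (.cons (.rf (nat_lit 1739) (nat_lit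 493858305440582043680)) (.cons (.rf (nat_lit 1740) (nat_lit 493858305440582043680)) (.cons (.rf (nat_lit 1740) (nat_lit 458117738797769787424)) .nil)))) .nil)))) .nil))),
 (.br (nat_lit 8) (nat_lit 0) (.cons (.rf (nat_lit 1726) (nat_lit 493858305440582043680)) (.cons (.br (nat_lit 5) (nat_lit 1) (.cons (.br (nat_lit 11) (nat_lit 0) (.cons (.rf (nat_lit 1729) (nat_lit 493858305440582043680)) (.cons (.rf (nat_lit 1730) (nat_lit 493858305440582043680)) (.cons (.rf (nat_lit 1730) (nat_lit 458117738797769787424)) .nil)))) (.cons (.rf (nat_lit 742) (nat_lit 8696956064)) (.cons (.br (nat_lit 11) (nat_lit 0) (.cons (.rf (nat_lit 1734) (nat_lit 493858305440582043680)) (.cons (.rf (nat_lit 1735) (nat_lit 493858305440582043680)) (.cons (.rf (nat_lit 1735) (nat_lit 458117738797769787424)) .nil)))) (.cons (.br (nat_lit 10) (nat_lit 0) (.cons (.rf (nat_lit 1737) (nat_lit 493858305440582043680)) (.cons (.rf (nat_lit 1741) (nat_lit 493858305440582043680)) (.cons (.rf (nat_lit 1741) (nat_lit 458117738797769787424))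 .nil)))) .nil))))) .nil))),
 (.br (nat_lit 8) (nat_lit 0) (.cons (.rf (nat_lit 1726) (nat_lit 493858305440582043680)) (.cons (.rf (nat_lit 1742) (nat_lit 493858305440582043680)) (.cons (.rf (nat_lit 1742) (nat_lit 458117738797769787424)) .nil)))),
 (.br (nat_lit 10) (nat_lit 0) (.cons (.ev (nat_lit 1208981160131636716831490) (nat_lit 2)) .nil)),
 (.br (nat_lit 11) (nat_lit 0) (.cons (.br (nat_lit 6) (nat_lit 0) (.cons (.rf (nat_lit 1744) (nat_lit 493858305440582043680)) (.cons (.rf (nat_lit 1744) (nat_lit 458117738797769787424)) .nil))) .nil)),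
 (.br (nat_lit 11) (nat_lit 0) (.cons (.rf (nat_lit 1745) (nat_lit 493858305440582043680)) (.cons (.rf (nat_lit 1745) (nat_lit 458117738797769787424)) .nil))),
 (.br (nat_lit 11) (nat_lit 0) (.cons (.ev (nat_lit 1109507396672603273349930290182) (nat_lit 4)) .nil)),
 (.br (nat_lit 10) (nat_lit 0) (.cons (.rf (nat_lit 1746) (nat_lit 493858305440582043680)) (.cons (.br (nat_lit 9) (nat_lit 1) (.cons (.ev (nat_lit 1208981160131636716831490) (nat_lit 2)) (.cons (.br (nat_lit 6) (nat_lit 0) (.cons (.rf (nat_lit 1747) (nat_lit 493858305440582043680)) (.cons (.rf (nat_lit 1747) (nat_lit 458117738797769787424)) .nil))) .nil))) .nil))),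
 (.br (nat_lit 10) (nat_lit 0) (.cons (.ev (nat_lit 20361637770906747988484150001921) (nat_lit 1)) .nil)),
 (.br (nat_lit 11) (nat_lit 0) (.cons (.br (nat_lit 4) (nat_lit 0) (.cons (.rf (nat_lit 1749) (nat_lit 493858305440582043680)) (.cons (.rf (nat_lit 1749) (nat_lit 458117738797769787424)) .nil))) .nil)),
 (.br (nat_lit 11) (nat_lit 0) (.cons (.rf (nat_lit 1750) (nat_lit 493858305440582043680)) (.cons (.rf (nat_lit 1750) (nat_lit 458117738797769787424)) .nil))),
 (.br (nat_lit 10) (nat_lit 0) (.cons (.rf (nat_lit 1751) (nat_lit 493858305440582043680)) (.cons (.br (nat_lit 4) (nat_lit 0) (.cons (.br (nat_lit 12) (nat_lit 1) (.cons (.br (nat_lit 11) (nat_lit 0) (.cons (.ev (nat_lit 20361637770906747988484150001921) (nat_lit 1)) .nil)) .nil)) (.cons (.ev (nat_lit 79228162532783139265603239936) (nat_lit 1)) (.cons (.ev (nat_lit 20282409603670189225619310575616) (nat_lit 1)) .nil)))) .nil))),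
 (.br (nat_lit 5) (nat_lit 1) (.cons (.br (nat_lit 10) (nat_lit 0) (.cons (.rf (nat_lit 1746) (nat_lit 493858305440582043680)) (.cons (.rf (nat_lit 1748) (nat_lit 493858305440582043680)) (.cons (.rf (nat_lit 1748) (nat_lit 458117738797769787424)) .nil)))) (.cons (.br (nat_lit 10) (nat_lit 0) (.cons (.rf (nat_lit 1751) (nat_lit 493858305440582043680)) (.cons (.rf (nat_lit 1752) (nat_lit 493858305440582043680)) (.cons (.rf (nat_lit 1752) (nat_lit 458117738797769787424)) .nil)))) (.cons (.rf (nat_lit 742) (nat_lit 11922375840)) .nil)))),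
 (.br (nat_lit 10) (nat_lit 0) (.cons (.ev (nat_lit 40723588681917177688449937050124) (nat_lit 4)) .nil)),
 (.br (nat_lit 5) (nat_lit 1) (.cons (.br (nat_lit 12) (nat_lit 1) (.cons (.br (nat_lit 10) (nat_lit 0) (.cons (.ev (nat_lit 40723588681917177688449937311244) (nat_lit 4)) .nil)) .nil)) (.cons (.br (nat_lit 6) (nat_lit 0) (.cons (.rf (nat_lit 1754) (nat_lit 493858305440582043680)) (.cons (.rf (nat_lit 1754) (nat_lit 458117738797769787424)) .nil))) .nil))),
 (.br (nat_lit 10) (nat_lit 0) (.cons (.ev (nat_lit 79537647524157740260618404096) (nat_lit 1)) (.cons (.ev (nat_lit 20282409617818986047541669331715) (nat_lit 2)) .nil))),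
 (.br (nat_lit 5) (nat_lit 1) (.cons (.rf (nat_lit 1755) (nat_lit 493858305440582043680)) (.cons (.br (nat_lit 4) (nat_lit 0) (.cons (.rf (nat_lit 1756) (nat_lit 493858305440582043680)) (.cons (.rf (nat_lit 1756) (nat_lit 458117738797769787424)) .nil))) .nil))),
 (.br (nat_lit 11) (nat_lit 0) (.cons (.rf (nat_lit 1753) (nat_lit 493858305440582043680)) (.cons (.br (nat_lit 5) (nat_lit 1) (.cons (.rf (nat_lit 1755) (nat_lit 493858305440582043680)) (.cons (.rf (nat_lit 1757) (nat_lit 493858305440582043680)) (.cons (.br (nat_lit 5) (nat_lit 1) (.cons (.rf (nat_lit 1755) (nat_lit 493858305440582043680)) (.cons (.rf (nat_lit 1757) (nat_lit 493858305440582043680)) .nil))) .nil)))) .nil))),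
 (.br (nat_lit 11) (nat_lit 0) (.cons (.rf (nat_lit 1753) (nat_lit 493858305440582043680)) (.cons (.rf (nat_lit 1758) (nat_lit 493858305440582043680)) (.cons (.rf (nat_lit 1758) (nat_lit 458117738797769787424)) .nil)))),
 (.br (nat_lit 11) (nat_lit 0) (.cons (.rf (nat_lit 1753) (nat_lit 493858305440582043680)) (.cons (.rf (nat_lit 1759) (nat_lit 493858305440582043680)) (.cons (.br (nat_lit 11) (nat_lit 0) (.cons (.rf (nat_lit 1753) (nat_lit 493858305440582043680)) (.cons (.rf (nat_lit 1759) (nat_lit 493858305440582043680)) .nil))) .nil)))),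
 (.br (nat_lit 8) (nat_lit 0) (.cons (.rf (nat_lit 1743) (nat_lit 493858305440582043680)) (.cons (.br (nat_lit 11) (nat_lit 0) (.cons (.rf (nat_lit 1753) (nat_lit 493858305440582043680)) (.cons (.rf (nat_lit 1759) (nat_lit 493858305440582043680)) (.cons (.rf (nat_lit 1760) (nat_lit 493858305440582043680)) (.cons (.rf (nat_lit 1760) (nat_lit 458117738797769787424)) .nil))))) .nil))),
 (.br (nat_lit 8) (nat_lit 0) (.cons (.rf (nat_lit 1743) (nat_lit 493858305440582043680)) (.cons (.rf (nat_lit 1761) (nat_lit 493858305440582043680)) (.cons (.rf (nat_lit 1761) (nat_lit 458117738797769787424)) .nil)))),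
 (.br (nat_lit 8) (nat_lit 0) (.cons (.rf (nat_lit 1743) (nat_lit 493858305440582043680)) (.cons (.rf (nat_lit 1762) (nat_lit 493858305440582043680)) (.cons (.br (nat_lit 8) (nat_lit 0) (.cons (.rf (nat_lit 1743) (nat_lit 493858305440582043680)) (.cons (.rf (nat_lit 1762) (nat_lit 493858305440582043680)) .nil))) .nil)))),
 (.br (nat_lit 8) (nat_lit 0) (.cons (.rf (nat_lit 1743) (nat_lit 493858305440582043680)) (.cons (.rf (nat_lit 1762) (nat_lit 493858305440582043680)) (.cons (.rf (nat_lit 1763) (nat_lit 493858305440582043680)) (.cons (.rf (nat_lit 1763) (nat_lit 458117738797769787424)) .nil))))),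
 (.br (nat_lit 13) (nat_lit 1) (.cons (.br (nat_lit 12) (nat_lit 1) (.cons (.ev (nat_lit 20361947251175756106613831761921) (nat_lit 1)) (.cons (.rf (nat_lit 553) (nat_lit 5990258340563061833)) .nil))) .nil)),
 (.br (nat_lit 6) (nat_lit 0) (.cons (.ev (nat_lit 79538861172344120329614917888) (nat_lit 1)) (.cons (.rf (nat_lit 1210) (nat_lit 13057493610324428897)) .nil))),
 (.br (nat_lit 8) (nat_lit 0) (.cons (.rf (nat_lit 1766) (nat_lit 493858305440582043680)) (.cons (.br (nat_lit 8) (nat_lit 0) (.cons (.rf (nat_lit 1766) (nat_lit 493858305440582043680)) .nil)) .nil))),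
 (.br (nat_lit 6) (nat_lit 0) (.cons (.rf (nat_lit 1767) (nat_lit 493858305440582043680)) (.cons (.br (nat_lit 5) (nat_lit 1) (.cons (.br (nat_lit 12) (nat_lit 1) (.cons (.br (nat_lit 8) (nat_lit 0) (.cons (.ev (nat_lit 283954062117337341028506400067078) (nat_lit 4)) .nil)) .nil)) (.cons (.ev (nat_lit 310698658007725142033105153) (nat_lit 1)) .nil))) .nil))),
 (.br (nat_lit 11) (nat_lit 0) (.cons (.br (nat_lit 4) (nat_lit 0) (.cons (.br (nat_lit 13) (nat_lit 1) (.cons (.br (nat_lit 13) (nat_lit 1) (.cons (.br (nat_lit 13) (nat_lit 1) .nil) .nil)) (.cons (.br (nat_lit 13) (nat_lit 1) (.cons (.br (nat_lit 13) (nat_lit 1) .nil) .nil)) .nil))) (.cons (.rf (nat_lit 1262) (nat_lit 439349599700059241)) (.cons (.br (nat_lit 13) (nat_lit 1) (.cons (.rf (nat_lit 1765) (nat_lit 493858305440582043680)) (.cons (.br (nat_lit 13) (nat_lit 1) (.cons (.rf (nat_lit 1765) (nat_lit 493858305440582043680)) .nil)) .nil))) .nil)))) (.cons (.br (nat_lit 6) (nat_lit 0) (.cons (.rf (nat_lit 1767) (nat_lit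 493858305440582043680)) (.cons (.rf (nat_lit 1768) (nat_lit 493858305440582043680)) (.cons (.br (nat_lit 6) (nat_lit 0) (.cons (.rf (nat_lit 1767) (nat_lit 493858305440582043680)) (.cons (.rf (nat_lit 1768) (nat_lit 493858305440582043680)) .nil))) .nil)))) .nil))),
 (.br (nat_lit 5) (nat_lit 1) (.cons (.br (nat_lit 9) (nat_lit 1) (.cons (.br (nat_lit 12) (nat_lit 1) (.cons (.ev (nat_lit 79538861172344120329614917888) (nat_lit 1)) .nil)) (.cons (.br (nat_lit 6) (nat_lit 0) (.cons (.br (nat_lit 8) (nat_lit 0) (.cons (.ev (nat_lit 158458752343492292400812000000) (nat_lit 2)) .nil)) (.cons (.rf (nat_lit 1558) (nat_lit 15425077565929497701)) .nil))) .nil))) (.cons (.br (nat_lit 8) (nat_lit 0) (.cons (.kr (nat_lit 4722366482869645213952) (nat_lit 18446744073709617152) (nat_lit 1) (nat_lit 0)) (.cons (.ev (nat_lit 79228162532711082766781972736) (nat_lit 1)) (.cons (.ev (nat_lit 20282719088680010570683723612416) (nat_lit 1)) .nil)))) .nil))),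
 (.br (nat_lit 3) (nat_lit 0) (.cons (.rf (nat_lit 1216) (nat_lit 11867381089439941696)) (.cons (.rf (nat_lit 1217) (nat_lit 11867381089439941696)) .nil))),
 (.br (nat_lit 13) (nat_lit 1) (.cons (.rf (nat_lit 1770) (nat_lit 493858305440582043680)) (.cons (.br (nat_lit 5) (nat_lit 1) (.cons (.br (nat_lit 6) (nat_lit 0) (.cons (.br (nat_lit 8) (nat_lit 0) (.cons (.ev (nat_lit 122170144544615512572751668970496) (nat_lit 3)) .nil)) (.cons (.br (nat_lit 8) (nat_lit 0) (.cons (.ev (nat_lit 158458747602679065466013679616) (nat_lit 2)) .nil)) .nil))) (.cons (.rf (nat_lit 1771) (nat_lit 15433072045018188865)) (.cons (.ev (nat_lit 20282409603670117169120489242624) (nat_lit 1)) .nil)))) .nil)))]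

theorem c49 : chkAll C T R L49 (nat_lit 1735) = true := by decide +kernel

theorem l49 : (nat_lit 1735) + L49.length = (nat_lit 1773) := by decide +kernel

/-- part of the certificates -/
def L50 : List Prf := [(.br (nat_lit 11) (nat_lit 0) (.cons (.rf (nat_lit 1769) (nat_lit 493858305440582043680)) (.cons (.br (nat_lit 13) (nat_lit 1) (.cons (.rf (nat_lit 1770) (nat_lit 493858305440582043680)) (.cons (.rf (nat_lit 1772) (nat_lit 493858305440582043680)) (.cons (.br (nat_lit 13) (nat_lit 1) (.cons (.rf (nat_lit 1770) (nat_lit 493858305440582043680)) (.cons (.rf (nat_lit 1772) (nat_lit 493858305440582043680)) .nil))) .nil)))) .nil))),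
 (.br (nat_lit 11) (nat_lit 0) (.cons (.rf (nat_lit 1769) (nat_lit 493858305440582043680)) (.cons (.rf (nat_lit 1773) (nat_lit 493858305440582043680)) (.cons (.br (nat_lit 11) (nat_lit 0) (.cons (.rf (nat_lit 1769) (nat_lit 493858305440582043680)) (.cons (.rf (nat_lit 1773) (nat_lit 493858305440582043680)) .nil))) .nil)))),
 (.br (nat_lit 10) (nat_lit 0) (.cons (.rf (nat_lit 742) (nat_lit 11922375840)) (.cons (.rf (nat_lit 1774) (nat_lit 493858305440582043680)) (.cons (.rf (nat_lit 1774) (nat_lit 458117738797769787424)) .nil)))),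
 (.br (nat_lit 5) (nat_lit 1) (.cons (.br (nat_lit 9) (nat_lit 1) (.cons (.br (nat_lit 12) (nat_lit 1) (.cons (.rf (nat_lit 1561) (nat_lit 14315080786839340195)) .nil)) (.cons (.br (nat_lit 8) (nat_lit 0) (.cons (.br (nat_lit 6) (nat_lit 0) (.cons (.ev (nat_lit 20361638975110273459312710975745) (nat_lit 1)) .nil)) (.cons (.ev (nat_lit 20282719093402377053557680505088) (nat_lit 1)) .nil))) .nil))) (.cons (.br (nat_lit 12) (nat_lit 1) (.cons (.br (nat_lit 8) (nat_lit 0) (.cons (.ev (nat_lit 79228167273740483596090802435) (nat_lit 2)) (.cons (.ev (nat_lit 20361947251175756106613831827713) (nat_lit 1)) .nil))) (.cons (.ev (nat_lit 79228162532711082766781972736) (nat_lit 1)) .nil))) .nil))),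
 (.br (nat_lit 8) (nat_lit 0) (.cons (.ev (nat_lit 20282409603670189507089975542016) (nat_lit 1)) (.cons (.ev (nat_lit 20361948460120022747886892613633) (nat_lit 1)) (.cons (.ev (nat_lit 40644666344578133160162888974337) (nat_lit 2)) .nil)))),
 (.br (nat_lit 13) (nat_lit 1) (.cons (.rf (nat_lit 1776) (nat_lit 493858305440582043680)) (.cons (.br (nat_lit 4) (nat_lit 0) (.cons (.br (nat_lit 6) (nat_lit 0) (.cons (.br (nat_lit 8) (nat_lit 0) (.cons (.ev (nat_lit 1109521941413655819554497102342) (nat_lit 4)) .nil)) (.cons (.rf (nat_lit 1777) (nat_lit 493858305440582043680)) .nil))) (.cons (.br (nat_lit 12) (nat_lit 1) (.cons (.rf (nat_lit 1777) (nat_lit 493858305440582043680)) (.cons (.rf (nat_lit 1534) (nat_lit 493678164653093455968)) .nil))) (.cons (.br (nat_lit 5) (nat_lit 1) (.cons (.ev (nat_lit 20361638975091826715243279613953) (nat_lit 1)) (.cons (.br (nat_lit 6) (nat_lit 0) (.cons (.ev (nat_lit 4740885285641199288321) (nat_lit 1)) .nil)) .nil))) .nil)))) .nil))),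
 (.br (nat_lit 13) (nat_lit 1) (.cons (.rf (nat_lit 1776) (nat_lit 493858305440582043680)) (.cons (.rf (nat_lit 1778) (nat_lit 493858305440582043680)) (.cons (.br (nat_lit 13) (nat_lit 1) (.cons (.rf (nat_lit 1776) (nat_lit 493858305440582043680)) (.cons (.rf (nat_lit 1778) (nat_lit 493858305440582043680)) .nil))) .nil)))),
 (.br (nat_lit 11) (nat_lit 0) (.cons (.rf (nat_lit 1779) (nat_lit 493858305440582043680)) (.cons (.rf (nat_lit 1779) (nat_lit 458117738797769787424)) .nil))),
 (.br (nat_lit 5) (nat_lit 1) (.cons (.br (nat_lit 9) (nat_lit 1) (.cons (.rf (nat_lit 1223) (nat_lit 13057493610324428897)) (.cons (.br (nat_lit 8) (nat_lit 0) (.cons (.ev (nat_lit 79537652264970967203973169408) (nat_lit 1)) (.cons (.ev (nat_lit 20282719093402377053557680505088) (nat_lit 1)) .nil))) .nil))) (.cons (.br (nat_lit 8) (nat_lit 0) (.cons (.kr (nat_lit 309489732187827938386772224) (nat_lit 18518802767259172864) (nat_lit 1) (nat_lit 0)) (.cons (.ev (nat_lit 79228162532711082766781972736) (nat_lit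 1)) (.cons (.ev (nat_lit 20282409603670117169120489308416) (nat_lit 1)) .nil)))) .nil))),
 (.br (nat_lit 9) (nat_lit 1) (.cons (.rf (nat_lit 1781) (nat_lit 493858305440582043680)) (.cons (.br (nat_lit 5) (nat_lit 1) (.cons (.br (nat_lit 6) (nat_lit 0) (.cons (.ev (nat_lit 158458747602679065466013483776) (nat_lit 2)) (.cons (.ev (nat_lit 40564821629877491238173428155136) (nat_lit 2)) .nil))) (.cons (.br (nat_lit 8) (nat_lit 0) (.cons (.rf (nat_lit 583) (nat_lit 3611231947899209897)) (.cons (.rf (nat_lit 583) (nat_lit 3611197863038748841)) .nil))) (.cons (.kr (nat_lit 18446744073709551616) (nat_lit 4722366482869645213696) (nat_lit 8) (nat_lit 0)) .nil)))) .nil))),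
 (.br (nat_lit 11) (nat_lit 0) (.cons (.rf (nat_lit 1780) (nat_lit 493858305440582043680)) (.cons (.br (nat_lit 9) (nat_lit 1) (.cons (.rf (nat_lit 1781) (nat_lit 493858305440582043680)) (.cons (.rf (nat_lit 1782) (nat_lit 493858305440582043680)) (.cons (.br (nat_lit 9) (nat_lit 1) (.cons (.rf (nat_lit 1781) (nat_lit 493858305440582043680)) (.cons (.rf (nat_lit 1782) (nat_lit 493858305440582043680)) .nil))) .nil)))) .nil))),
 (.br (nat_lit 10) (nat_lit 0) (.cons (.rf (nat_lit 742) (nat_lit 11922375840)) (.cons (.rf (nat_lit 1775) (nat_lit 493858305440582043680)) (.cons (.br (nat_lit 11) (nat_lit 0) (.cons (.rf (nat_lit 1780) (nat_lit 493858305440582043680)) (.cons (.rf (nat_lit 1783) (nat_lit 493858305440582043680)) (.cons (.rf (nat_lit 1783) (nat_lit 458117738797769787424)) .nil)))) .nil)))),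
 (.br (nat_lit 10) (nat_lit 0) (.cons (.rf (nat_lit 742) (nat_lit 11922375840)) (.cons (.rf (nat_lit 1775) (nat_lit 493858305440582043680)) (.cons (.rf (nat_lit 1784) (nat_lit 493858305440582043680)) (.cons (.rf (nat_lit 1784) (nat_lit 458117738797769787424)) .nil))))),
 (.br (nat_lit 10) (nat_lit 0) (.cons (.rf (nat_lit 600) (nat_lit 1448378116364110921)) (.cons (.br (nat_lit 6) (nat_lit 0) (.cons (.rf (nat_lit 1771) (nat_lit 14316174939387989057)) (.cons (.br (nat_lit 8) (nat_lit 0) (.cons (.ev (nat_lit 20440868360717601256815990997505) (nat_lit 2)) .nil)) .nil))) .nil))),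
 (.br (nat_lit 10) (nat_lit 0) (.cons (.rf (nat_lit 600) (nat_lit 1448378116364110921)) (.cons (.br (nat_lit 5) (nat_lit 1) (.cons (.rf (nat_lit 650) (nat_lit 9453516558410515529)) (.cons (.br (nat_lit 6) (nat_lit 0) (.cons (.ev (nat_lit 158784010278658961354524852746) (nat_lit 4)) .nil)) .nil))) .nil))),
 (.br (nat_lit 10) (nat_lit 0) (.cons (.rf (nat_lit 1786) (nat_lit 493858305440582043680)) (.cons (.rf (nat_lit 1787) (nat_lit 493858305440582043680)) (.cons (.br (nat_lit 10) (nat_lit 0) (.cons (.rf (nat_lit 1786) (nat_lit 493858305440582043680)) (.cons (.rf (nat_lit 1787) (nat_lit 493858305440582043680)) .nil))) .nil)))),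
 (.br (nat_lit 8) (nat_lit 0) (.cons (.ev (nat_lit 18446746285634487042) (nat_lit 2)) (.cons (.br (nat_lit 6) (nat_lit 0) (.cons (.br (nat_lit 10) (nat_lit 0) (.cons (.ev (nat_lit 40565146892553471134061940311562) (nat_lit 4)) .nil)) (.cons (.rf (nat_lit 1788) (nat_lit 458117738797769787424)) .nil))) .nil))),
 (.br (nat_lit 8) (nat_lit 0) (.cons (.ev (nat_lit 18446746285634487042) (nat_lit 2)) (.cons (.br (nat_lit 13) (nat_lit 1) (.cons (.ev (nat_lit 40644666354059759614049598374401) (nat_lit 2)) (.cons (.ev (nat_lit 40644666354059759614049598504961) (nat_lit 2)) .nil))) .nil))),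
 (.br (nat_lit 12) (nat_lit 1) (.cons (.rf (nat_lit 1788) (nat_lit 493858305440582043680)) (.cons (.br (nat_lit 8) (nat_lit 0) (.cons (.rf (nat_lit 1789) (nat_lit 493858305440582043680)) (.cons (.rf (nat_lit 1790) (nat_lit 493858305440582043680)) (.cons (.br (nat_lit 8) (nat_lit 0) (.cons (.rf (nat_lit 1789) (nat_lit 493858305440582043680)) (.cons (.rf (nat_lit 1790) (nat_lit 493858305440582043680)) .nil))) .nil)))) .nil))),
 (.br (nat_lit 13) (nat_lit 1) (.cons (.rf (nat_lit 1791) (nat_lit 458117738797769787424)) (.cons (.rf (nat_lit 1194) (nat_lit 470873574347873)) (.cons (.br (nat_lit 6) (nat_lit 0) (.cons (.rf (nat_lit 1223) (nat_lit 13057489212282112097)) (.cons (.rf (nat_lit 1791) (nat_lit 458117738797769787424)) .nil))) .nil)))),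
 (.br (nat_lit 12) (nat_lit 1) (.cons (.rf (nat_lit 1791) (nat_lit 493858305440582043680)) (.cons (.br (nat_lit 6) (nat_lit 0) (.cons (.rf (nat_lit 1792) (nat_lit 493858305440582043680)) (.cons (.br (nat_lit 6) (nat_lit 0) (.cons (.rf (nat_lit 1792) (nat_lit 493858305440582043680)) (.cons (.rf (nat_lit 1791) (nat_lit 458117738797769787424)) .nil))) (.cons (.rf (nat_lit 1791) (nat_lit 458117738797769787424)) .nil)))) .nil))),
 (.br (nat_lit 12) (nat_lit 1) (.cons (.rf (nat_lit 1791) (nat_lit 493858305440582043680)) (.cons (.rf (nat_lit 1793) (nat_lit 493858305440582043680)) (.cons (.br (nat_lit 12) (nat_lit 1) (.cons (.rf (nat_lit 1791) (nat_lit 493858305440582043680)) (.cons (.rf (nat_lit 1793) (nat_lit 493858305440582043680)) .nil))) .nil)))),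
 (.br (nat_lit 8) (nat_lit 0) (.cons (.ev (nat_lit 79537647524157740260618469376) (nat_lit 1)) (.cons (.br (nat_lit 6) (nat_lit 0) (.cons (.br (nat_lit 10) (nat_lit 0) (.cons (.ev (nat_lit 20361947255898122589479165231361) (nat_lit 1)) .nil)) (.cons (.br (nat_lit 10) (nat_lit 0) (.cons (.ev (nat_lit 20361947255898122589479165231361) (nat_lit 1)) .nil)) .nil))) .nil))),
 (.br (nat_lit 4) (nat_lit 0) (.cons (.rf (nat_lit 1795) (nat_lit 493858305440582043680)) (.cons (.rf (nat_lit 1795) (nat_lit 458117738797769787424)) .nil))),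
 (.br (nat_lit 8) (nat_lit 0) (.cons (.rf (nat_lit 1796) (nat_lit 493858305440582043680)) (.cons (.ev (nat_lit 18518802767275950081) (nat_lit 1)) .nil))),
 (.br (nat_lit 5) (nat_lit 1) (.cons (.rf (nat_lit 1794) (nat_lit 493858305440582043680)) (.cons (.rf (nat_lit 742) (nat_lit 8696956064)) (.cons (.br (nat_lit 8) (nat_lit 0) (.cons (.rf (nat_lit 1796) (nat_lit 493858305440582043680)) (.cons (.rf (nat_lit 1797) (nat_lit 493858305440582043680)) (.cons (.rf (nat_lit 1797) (nat_lit 458117738797769787424)) .nil)))) .nil)))),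
 (.br (nat_lit 8) (nat_lit 0) (.cons (.ev (nat_lit 79537647524157740260618469376) (nat_lit 1)) (.cons (.br (nat_lit 6) (nat_lit 0) (.cons (.rf (nat_lit 1696) (nat_lit 14315084190492855585)) (.cons (.rf (nat_lit 1267) (nat_lit 476399982435734601)) .nil))) .nil))),
 (.br (nat_lit 4) (nat_lit 0) (.cons (.rf (nat_lit 1799) (nat_lit 493858305440582043680)) (.cons (.rf (nat_lit 1799) (nat_lit 458117738797769787424)) .nil))),
 (.br (nat_lit 10) (nat_lit 0) (.cons (.kr (nat_lit 256) (nat_lit 65536) (nat_lit 1) (nat_lit 0)) (.cons (.ev (nat_lit 20361637766166006820238639759361) (nat_lit 1)) .nil))),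
 (.br (nat_lit 9) (nat_lit 1) (.cons (.br (nat_lit 10) (nat_lit 0) (.cons (.ev (nat_lit 20282409617818986047541669331715) (nat_lit 2)) .nil)) (.cons (.rf (nat_lit 581) (nat_lit 1448378116364110921)) .nil))),
 (.br (nat_lit 6) (nat_lit 0) (.cons (.rf (nat_lit 1800) (nat_lit 493858305440582043680)) (.cons (.br (nat_lit 4) (nat_lit 0) (.cons (.br (nat_lit 8) (nat_lit 0) (.cons (.rf (nat_lit 1801) (nat_lit 493858305440582043680)) (.cons (.rf (nat_lit 1801) (nat_lit 458117738797769787424)) .nil))) (.cons (.rf (nat_lit 1802) (nat_lit 493858305440582043680)) (.cons (.rf (nat_lit 1802) (nat_lit 458117738797769787424)) .nil)))) .nil))),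
 (.br (nat_lit 5) (nat_lit 1) (.cons (.rf (nat_lit 1794) (nat_lit 493858305440582043680)) (.cons (.rf (nat_lit 742) (nat_lit 8696956064)) (.cons (.br (nat_lit 6) (nat_lit 0) (.cons (.rf (nat_lit 1800) (nat_lit 493858305440582043680)) (.cons (.rf (nat_lit 1803) (nat_lit 493858305440582043680)) (.cons (.rf (nat_lit 1803) (nat_lit 458117738797769787424)) .nil)))) .nil)))),
 (.br (nat_lit 11) (nat_lit 0) (.cons (.rf (nat_lit 1785) (nat_lit 493858305440582043680)) (.cons (.br (nat_lit 5) (nat_lit 1) (.cons (.rf (nat_lit 1794) (nat_lit 493858305440582043680)) (.cons (.rf (nat_lit 1798) (nat_lit 493858305440582043680)) (.cons (.rf (nat_lit 1804) (nat_lit 493858305440582043680)) (.cons (.br (nat_lit 5) (nat_lit 1) (.cons (.rf (nat_lit 1794) (nat_lit 493858305440582043680)) (.cons (.rf (nat_lit 1798) (nat_lit 493858305440582043680)) (.cons (.rf (nat_lit 1804) (nat_lit 493858305440582043680)) .nil)))) .nil))))) .nil))),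
 (.br (nat_lit 11) (nat_lit 0) (.cons (.rf (nat_lit 1785) (nat_lit 493858305440582043680)) (.cons (.rf (nat_lit 1805) (nat_lit 493858305440582043680)) (.cons (.rf (nat_lit 1805) (nat_lit 458117738797769787424)) .nil)))),
 (.br (nat_lit 11) (nat_lit 0) (.cons (.rf (nat_lit 1785) (nat_lit 493858305440582043680)) (.cons (.rf (nat_lit 1806) (nat_lit 493858305440582043680)) (.cons (.br (nat_lit 11) (nat_lit 0) (.cons (.rf (nat_lit 1785) (nat_lit 493858305440582043680)) (.cons (.rf (nat_lit 1806) (nat_lit 493858305440582043680)) .nil))) .nil)))),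
 (.br (nat_lit 11) (nat_lit 0) (.cons (.rf (nat_lit 1785) (nat_lit 493858305440582043680)) (.cons (.rf (nat_lit 1806) (nat_lit 493858305440582043680)) (.cons (.rf (nat_lit 1807) (nat_lit 493858305440582043680)) (.cons (.rf (nat_lit 1807) (nat_lit 458117738797769787424)) .nil)))))]

theorem c50 : chkAll C T R L50 (nat_lit 1773) = true := by decide +kernel

theorem l50 : (nat_lit 1773) + L50.length = (nat_lit 1809) := by decide +kernel

/-- part of the certificates -/
def L51 : List Prf := [(.br (nat_lit 2) (nat_lit 1) (.cons (.kr (nat_lit 256) (nat_lit 65536) (nat_lit 1) (nat_lit 0)) (.cons (.rf (nat_lit 742) (nat_lit 7688258624)) (.cons (.rf (nat_lit 1611) (nat_lit 324635277232160)) (.cons (.br (nat_lit 10) (nat_lit 1) (.cons (.br (nat_lit 7) (nat_lit 0) (.cons (.rf (nat_lit 1669) (nat_lit 407901468851537952)) (.cons (.rf (nat_lit 1714) (nat_lit 407901468851537952)) (.cons (.br (nat_lit 7) (nat_lit 0) (.cons (.rf (nat_lit 1669) (nat_lit 407901468851537952)) (.cons (.rf (nat_lit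 1714) (nat_lit 407901468851537952)) (.cons (.br (nat_lit 3) (nat_lit 1) (.cons (.rf (nat_lit 742) (nat_lit 7688225888)) (.cons (.rf (nat_lit 1764) (nat_lit 493858305440582043680)) (.cons (.rf (nat_lit 1808) (nat_lit 493858305440582043680)) (.cons (.rf (nat_lit 1764) (nat_lit 493745718752727630912)) (.cons (.rf (nat_lit 1808) (nat_lit 493745718752727630912)) .nil)))))) .nil)))) .nil)))) .nil)) .nil))))),
 (.br (nat_lit 13) (nat_lit 1) (.cons (.br (nat_lit 4) (nat_lit 0) (.cons (.br (nat_lit 10) (nat_lit 0) (.cons (.br (nat_lit 11) (nat_lit 0) (.cons (.ev (nat_lit 20520096509101443181889968013570) (nat_lit 2)) .nil)) .nil)) (.cons (.br (nat_lit 12) (nat_lit 1) (.cons (.ev (nat_lit 20361637766184381788188993126401) (nat_lit 1)) (.cons (.ev (nat_lit 20520713061232697832751088337410) (nat_lit 2)) .nil))) .nil))) .nil)),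
 (.br (nat_lit 13) (nat_lit 1) (.cons (.rf (nat_lit 1810) (nat_lit 493858305440582043680)) (.cons (.br (nat_lit 13) (nat_lit 1) (.cons (.rf (nat_lit 1810) (nat_lit 493858305440582043680)) .nil)) .nil))),
 (.br (nat_lit 13) (nat_lit 1) (.cons (.rf (nat_lit 1811) (nat_lit 493858305440582043680)) (.cons (.br (nat_lit 13) (nat_lit 1) (.cons (.rf (nat_lit 1811) (nat_lit 493858305440582043680)) .nil)) .nil))),
 (.br (nat_lit 13) (nat_lit 1) (.cons (.rf (nat_lit 1811) (nat_lit 493858305440582043680)) (.cons (.rf (nat_lit 1812) (nat_lit 493858305440582043680)) (.cons (.br (nat_lit 13) (nat_lit 1) (.cons (.rf (nat_lit 1811) (nat_lit 493858305440582043680)) (.cons (.rf (nat_lit 1812) (nat_lit 493858305440582043680)) .nil))) .nil)))),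
 (.br (nat_lit 5) (nat_lit 1) (.cons (.ev (nat_lit 1099528405249) (nat_lit 1)) (.cons (.ev (nat_lit 1099528470529) (nat_lit 1)) (.cons (.br (nat_lit 7) (nat_lit 0) (.cons (.ev (nat_lit 4722366764344638701569) (nat_lit 1)) (.cons (.rf (nat_lit 1813) (nat_lit 493858305440582043680)) (.cons (.rf (nat_lit 1813) (nat_lit 458117738797769787424)) .nil)))) .nil)))),
 (.br (nat_lit 10) (nat_lit 0) (.cons (.ev (nat_lit 1099528405249) (nat_lit 1)) (.cons (.kr (nat_lit 4722366482869645213952) (nat_lit 282574488338432) (nat_lit 1) (nat_lit 0)) (.cons (.ev (nat_lit 20361637766184381788188993126401) (nat_lit 1)) .nil)))),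
 (.br (nat_lit 11) (nat_lit 0) (.cons (.ev (nat_lit 4722366764344638701569) (nat_lit 1)) (.cons (.br (nat_lit 4) (nat_lit 0) (.cons (.ev (nat_lit 1099528470529) (nat_lit 1)) (.cons (.rf (nat_lit 1815) (nat_lit 493858305440582043680)) (.cons (.rf (nat_lit 1815) (nat_lit 458117738797769787424)) .nil)))) .nil))),
 (.br (nat_lit 10) (nat_lit 0) (.cons (.ev (nat_lit 4722366764344638701569) (nat_lit 1)) (.cons (.kr (nat_lit 4722366482869645213952) (nat_lit 282574488338432) (nat_lit 1) (nat_lit 0)) (.cons (.ev (nat_lit 20361637770906747988484150001921) (nat_lit 1)) .nil)))),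
 (.br (nat_lit 11) (nat_lit 0) (.cons (.kr (nat_lit 4722366482869645213952) (nat_lit 282574488338432) (nat_lit 1) (nat_lit 0)) (.cons (.br (nat_lit 9) (nat_lit 1) (.cons (.br (nat_lit 12) (nat_lit 1) (.cons (.br (nat_lit 10) (nat_lit 0) (.cons (.ev (nat_lit 20361637770906747988484150001921) (nat_lit 1)) .nil)) .nil)) (.cons (.br (nat_lit 4) (nat_lit 0) (.cons (.rf (nat_lit 1817) (nat_lit 493858305440582043680)) (.cons (.rf (nat_lit 1817) (nat_lit 458117738797769787424)) .nil))) .nil))) .nil))),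
 (.br (nat_lit 5) (nat_lit 1) (.cons (.br (nat_lit 9) (nat_lit 1) (.cons (.kr (nat_lit 4722366482869645279232) (nat_lit 282574488338432) (nat_lit 2) (nat_lit 0)) (.cons (.kr (nat_lit 4722366482869645213952) (nat_lit 282574488338432) (nat_lit 1) (nat_lit 0)) (.cons (.br (nat_lit 13) (nat_lit 0) (.cons (.rf (nat_lit 1816) (nat_lit 455883953382594021408)) (.cons (.rf (nat_lit 1816) (nat_lit 420143386739781765152)) .nil))) .nil)))) (.cons (.br (nat_lit 13) (nat_lit 0) (.cons (.kr (nat_lit 4722366482869645213952) (nat_lit 282574488338432) (nat_lit 1) (nat_lit 0)) (.cons (.rf (nat_lit 1818) (nat_lit 455883953382594021408)) (.cons (.rf (nat_lit 1818) (nat_lit 420143386739781765152)) .nil)))) .nil))),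
 (.br (nat_lit 7) (nat_lit 0) (.cons (.rf (nat_lit 1814) (nat_lit 493858305440582043680)) (.cons (.ev (nat_lit 4722366764344638701569) (nat_lit 1)) (.cons (.br (nat_lit 5) (nat_lit 1) (.cons (.rf (nat_lit 1819) (nat_lit 15431909825759512608)) (.cons (.rf (nat_lit 1819) (nat_lit 15425154426324747328)) (.cons (.br (nat_lit 5) (nat_lit 1) (.cons (.rf (nat_lit 1819) (nat_lit 15431909825759512608)) (.cons (.rf (nat_lit 742) (nat_lit 11922375840)) .nil))) .nil)))) .nil)))),
 (.br (nat_lit 7) (nat_lit 0) (.cons (.rf (nat_lit 1814) (nat_lit 493858305440582043680)) (.cons (.ev (nat_lit 4722366764344638701569) (nat_lit 1)) (.cons (.rf (nat_lit 1820) (nat_lit 493858305440582043680)) (.cons (.rf (nat_lit 1820) (nat_lit 458117738797769787424)) .nil))))),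
 (.br (nat_lit 6) (nat_lit 0) (.cons (.rf (nat_lit 1267) (nat_lit 404383000433068068)) (.cons (.br (nat_lit 9) (nat_lit 0) (.cons (.ev (nat_lit 310693954087985246585749504) (nat_lit 1)) (.cons (.rf (nat_lit 1696) (nat_lit 14237250959751450882)) .nil))) .nil))),
 (.br (nat_lit 10) (nat_lit 0) (.cons (.br (nat_lit 3) (nat_lit 0) (.cons (.rf (nat_lit 1822) (nat_lit 14242959524133701664)) (.cons (.rf (nat_lit 1822) (nat_lit 13126066816545818656)) .nil))) .nil)),
 (.br (nat_lit 10) (nat_lit 0) (.cons (.rf (nat_lit 1823) (nat_lit 14242959524133701664)) (.cons (.rf (nat_lit 1823) (nat_lit 13126066816545818656)) .nil))),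
 (.br (nat_lit 11) (nat_lit 0) (.cons (.rf (nat_lit 1824) (nat_lit 15428357343451354146)) (.cons (.kr (nat_lit 309485009821345068741558784) (nat_lit 72058693549686784) (nat_lit 1) (nat_lit 0)) .nil))),
 (.br (nat_lit 7) (nat_lit 0) (.cons (.rf (nat_lit 1824) (nat_lit 15433072045018188865)) (.cons (.br (nat_lit 11) (nat_lit 0) (.cons (.rf (nat_lit 1824) (nat_lit 15428357343451354146)) (.cons (.rf (nat_lit 1825) (nat_lit 493858305440582043680)) (.cons (.rf (nat_lit 1825) (nat_lit 458117738797769787424)) .nil)))) .nil))),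
 (.br (nat_lit 10) (nat_lit 0) (.cons (.ev (nat_lit 1208925819615732981367041) (nat_lit 1)) (.cons (.br (nat_lit 6) (nat_lit 0) (.cons (.br (nat_lit 7) (nat_lit 0) (.cons (.ev (nat_lit 40565134755887428688125379215878) (nat_lit 3)) .nil)) (.cons (.br (nat_lit 7) (nat_lit 0) (.cons (.ev (nat_lit 158771873612616515417964675078) (nat_lit 3)) .nil)) .nil))) .nil))),
 (.br (nat_lit 11) (nat_lit 0) (.cons (.br (nat_lit 4) (nat_lit 0) (.cons (.rf (nat_lit 1827) (nat_lit 493858305440582043680)) (.cons (.rf (nat_lit 1827) (nat_lit 458117738797769787424)) .nil))) .nil)),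
 (.br (nat_lit 11) (nat_lit 0) (.cons (.rf (nat_lit 1828) (nat_lit 493858305440582043680)) (.cons (.rf (nat_lit 1828) (nat_lit 458117738797769787424)) .nil))),
 (.br (nat_lit 7) (nat_lit 0) (.cons (.br (nat_lit 10) (nat_lit 0) (.cons (.br (nat_lit 11) (nat_lit 0) (.cons (.ev (nat_lit 20282410812595936782654447353856) (nat_lit 1)) .nil)) .nil)) (.cons (.br (nat_lit 11) (nat_lit 0) (.cons (.ev (nat_lit 79537652264971249774149828608) (nat_lit 1)) (.cons (.br (nat_lit 10) (nat_lit 0) (.cons (.ev (nat_lit 40565129901368471278805804253190) (nat_lit 3)) .nil)) .nil))) .nil))),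
 (.br (nat_lit 6) (nat_lit 0) (.cons (.rf (nat_lit 1830) (nat_lit 493858305440582043680)) (.cons (.rf (nat_lit 1830) (nat_lit 458117738797769787424)) .nil))),
 (.br (nat_lit 7) (nat_lit 0) (.cons (.ev (nat_lit 40565134755887428688125379085318) (nat_lit 3)) .nil)),
 (.br (nat_lit 11) (nat_lit 0) (.cons (.rf (nat_lit 1831) (nat_lit 493858305440582043680)) (.cons (.br (nat_lit 10) (nat_lit 0) (.cons (.br (nat_lit 6) (nat_lit 0) (.cons (.rf (nat_lit 1832) (nat_lit 493858305440582043680)) (.cons (.rf (nat_lit 1832) (nat_lit 458117738797769787424)) .nil))) (.cons (.ev (nat_lit 79229371458530696300740018176) (nat_lit 1)) (.cons (.ev (nat_lit 20282410812595936782654447353856) (nat_lit 1)) .nil)))) .nil))),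
 (.br (nat_lit 4) (nat_lit 0) (.cons (.rf (nat_lit 1829) (nat_lit 493858305440582043680)) (.cons (.br (nat_lit 11) (nat_lit 0) (.cons (.rf (nat_lit 1831) (nat_lit 493858305440582043680)) (.cons (.rf (nat_lit 1833) (nat_lit 493858305440582043680)) (.cons (.rf (nat_lit 1833) (nat_lit 458117738797769787424)) .nil)))) .nil))),
 (.br (nat_lit 5) (nat_lit 1) (.cons (.br (nat_lit 7) (nat_lit 0) (.cons (.rf (nat_lit 1824) (nat_lit 15433072045018188865)) (.cons (.rf (nat_lit 1826) (nat_lit 493858305440582043680)) (.cons (.rf (nat_lit 1826) (nat_lit 458117738797769787424)) .nil)))) (.cons (.rf (nat_lit 1821) (nat_lit 493707434990443332672)) (.cons (.br (nat_lit 4) (nat_lit 0) (.cons (.rf (nat_lit 1829) (nat_lit 493858305440582043680)) (.cons (.rf (nat_lit 1834) (nat_lit 493858305440582043680)) (.cons (.rf (nat_lit 1834) (nat_lit 458117738797769787424)) .nil)))) (.cons (.rf (nat_lit 742) (nat_lit 11922375840)) .nil))))),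
 (.br (nat_lit 6) (nat_lit 0) (.cons (.ev (nat_lit 158767037983123911676996486150) (nat_lit 3)) .nil)),
 (.br (nat_lit 7) (nat_lit 0) (.cons (.rf (nat_lit 742) (nat_lit 7621117088)) (.cons (.br (nat_lit 5) (nat_lit 1) (.cons (.rf (nat_lit 1597) (nat_lit 15433072045015045217)) (.cons (.br (nat_lit 4) (nat_lit 0) (.cons (.rf (nat_lit 1836) (nat_lit 493858305440582043680)) (.cons (.rf (nat_lit 1836) (nat_lit 458117738797769787424)) .nil))) .nil))) .nil))),
 (.br (nat_lit 7) (nat_lit 0) (.cons (.rf (nat_lit 742) (nat_lit 7621117088)) (.cons (.rf (nat_lit 1837) (nat_lit 493858305440582043680)) (.cons (.rf (nat_lit 1837) (nat_lit 458117738797769787424)) .nil)))),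
 (.br (nat_lit 4) (nat_lit 0) (.cons (.rf (nat_lit 1838) (nat_lit 493858305440582043680)) (.cons (.br (nat_lit 10) (nat_lit 0) (.cons (.br (nat_lit 5) (nat_lit 1) (.cons (.rf (nat_lit 1194) (nat_lit 470977860539682)) (.cons (.rf (nat_lit 1597) (nat_lit 15429553707798467619)) .nil))) (.cons (.ev (nat_lit 79229371458530696300740018176) (nat_lit 1)) (.cons (.ev (nat_lit 20282410812595936782654447353856) (nat_lit 1)) .nil)))) .nil))),
 (.br (nat_lit 11) (nat_lit 0) (.cons (.rf (nat_lit 1835) (nat_lit 493858305440582043680)) (.cons (.br (nat_lit 4) (nat_lit 0) (.cons (.rf (nat_lit 1838) (nat_lit 493858305440582043680)) (.cons (.rf (nat_lit 1839) (nat_lit 493858305440582043680)) (.cons (.rf (nat_lit 1839) (nat_lit 458117738797769787424)) .nil)))) .nil))),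
 (.br (nat_lit 11) (nat_lit 0) (.cons (.rf (nat_lit 1835) (nat_lit 493858305440582043680)) (.cons (.rf (nat_lit 1840) (nat_lit 493858305440582043680)) (.cons (.rf (nat_lit 1840) (nat_lit 458117738797769787424)) .nil)))),
 (.br (nat_lit 11) (nat_lit 0) (.cons (.rf (nat_lit 1835) (nat_lit 493858305440582043680)) (.cons (.rf (nat_lit 1841) (nat_lit 493858305440582043680)) (.cons (.br (nat_lit 11) (nat_lit 0) (.cons (.rf (nat_lit 1835) (nat_lit 493858305440582043680)) (.cons (.rf (nat_lit 1841) (nat_lit 493858305440582043680)) .nil))) .nil)))),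
 (.br (nat_lit 11) (nat_lit 0) (.cons (.rf (nat_lit 1835) (nat_lit 493858305440582043680)) (.cons (.rf (nat_lit 1841) (nat_lit 493858305440582043680)) (.cons (.rf (nat_lit 1842) (nat_lit 493858305440582043680)) (.cons (.rf (nat_lit 1842) (nat_lit 458117738797769787424)) .nil))))),
 (.br (nat_lit 13) (nat_lit 1) (.cons (.br (nat_lit 7) (nat_lit 0) (.cons (.br (nat_lit 11) (nat_lit 0) (.cons (.ev (nat_lit 20361637770906747988484150001921) (nat_lit 1)) .nil)) (.cons (.br (nat_lit 9) (nat_lit 1) (.cons (.ev (nat_lit 20361637770906747988484150001921) (nat_lit 1)) .nil)) .nil))) .nil)),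
 (.br (nat_lit 13) (nat_lit 1) (.cons (.rf (nat_lit 1844) (nat_lit 493858305440582043680)) (.cons (.rf (nat_lit 1844) (nat_lit 493714190389945141280)) .nil))),
 (.br (nat_lit 10) (nat_lit 0) (.cons (.ev (nat_lit 4722366765444133617921) (nat_lit 1)) (.cons (.br (nat_lit 4) (nat_lit 0) (.cons (.ev (nat_lit 4722366765444133552129) (nat_lit 1)) (.cons (.rf (nat_lit 1845) (nat_lit 493858305440582043680)) (.cons (.rf (nat_lit 1845) (nat_lit 458117738797769787424)) .nil)))) .nil))),
 (.br (nat_lit 6) (nat_lit 0) (.cons (.br (nat_lit 7) (nat_lit 0) (.cons (.kr (nat_lit 79228162514336395187581943809) (nat_lit 309489732187827938369995264) (nat_lit 0) (nat_lit 3)) .nil)) (.cons (.br (nat_lit 7) (nat_lit 0) (.cons (.br (nat_lit 10) (nat_lit 0) (.cons (.ev (nat_lit 158771873612616519815944077318) (nat_lit 3)) .nil)) (.cons (.ev (nat_lit 20282719088680010570683723612416) (nat_lit 1)) .nil))) .nil))),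
 (.br (nat_lit 11) (nat_lit 0) (.cons (.br (nat_lit 4) (nat_lit 0) (.cons (.rf (nat_lit 1847) (nat_lit 493858305440582043680)) (.cons (.rf (nat_lit 1847) (nat_lit 458117738797769787424)) .nil))) .nil))]

theorem c51 : chkAll C T R L51 (nat_lit 1809) = true := by decide +kernel

theorem l51 : (nat_lit 1809) + L51.length = (nat_lit 1849) := by decide +kernel

/-- part of the certificates -/
def L52 : List Prf := [(.br (nat_lit 11) (nat_lit 0) (.cons (.rf (nat_lit 1848) (nat_lit 493858305440582043680)) (.cons (.rf (nat_lit 1848) (nat_lit 458117738797769787424)) .nil))),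
 (.br (nat_lit 10) (nat_lit 0) (.cons (.ev (nat_lit 243547699216135303054029805716486) (nat_lit 4)) .nil)),
 (.br (nat_lit 6) (nat_lit 0) (.cons (.rf (nat_lit 1850) (nat_lit 493858305440582043680)) (.cons (.rf (nat_lit 1850) (nat_lit 458117738797769787424)) .nil))),
 (.br (nat_lit 9) (nat_lit 1) (.cons (.br (nat_lit 10) (nat_lit 0) (.cons (.ev (nat_lit 122170139737209393719267385541120) (nat_lit 3)) .nil)) (.cons (.rf (nat_lit 1851) (nat_lit 493707434990510376000)) .nil))),
 (.br (nat_lit 11) (nat_lit 0) (.cons (.rf (nat_lit 1849) (nat_lit 493707434990510376000)) (.cons (.br (nat_lit 4) (nat_lit 0) (.cons (.rf (nat_lit 1851) (nat_lit 493858305440582043680)) (.cons (.rf (nat_lit 1852) (nat_lit 493858305440582043680)) (.cons (.rf (nat_lit 1852) (nat_lit 458117738797769787424)) .nil)))) .nil))),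
 (.br (nat_lit 7) (nat_lit 0) (.cons (.rf (nat_lit 1849) (nat_lit 493858305440582043680)) (.cons (.br (nat_lit 11) (nat_lit 0) (.cons (.rf (nat_lit 1849) (nat_lit 493707434990510376000)) (.cons (.rf (nat_lit 1853) (nat_lit 493858305440582043680)) (.cons (.rf (nat_lit 1853) (nat_lit 458117738797769787424)) .nil)))) .nil))),
 (.br (nat_lit 5) (nat_lit 1) (.cons (.br (nat_lit 10) (nat_lit 0) (.cons (.ev (nat_lit 4722366765444133617921) (nat_lit 1)) (.cons (.rf (nat_lit 1846) (nat_lit 493858305440582043680)) (.cons (.rf (nat_lit 1846) (nat_lit 458117738797769787424)) .nil)))) (.cons (.rf (nat_lit 742) (nat_lit 7621117088)) (.cons (.br (nat_lit 7) (nat_lit 0) (.cons (.rf (nat_lit 1849) (nat_lit 493858305440582043680)) (.cons (.rf (nat_lit 1854) (nat_lit 493858305440582043680)) (.cons (.rf (nat_lit 1854) (nat_lit 458117738797769787424)) .nil)))) (.cons (.rf (nat_lit 1843) (nat_lit 493707434990443332672)) .nil))))),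
 (.br (nat_lit 5) (nat_lit 1) (.cons (.rf (nat_lit 1821) (nat_lit 493707434990443332672)) (.cons (.br (nat_lit 3) (nat_lit 1) (.cons (.rf (nat_lit 1821) (nat_lit 493858305440582043680)) (.cons (.br (nat_lit 6) (nat_lit 0) (.cons (.br (nat_lit 7) (nat_lit 0) (.cons (.br (nat_lit 11) (nat_lit 0) (.cons (.ev (nat_lit 243547689525986853032173303890950) (nat_lit 4)) .nil)) .nil)) (.cons (.br (nat_lit 7) (nat_lit 0) (.cons (.br (nat_lit 11) (nat_lit 0) (.cons (.ev (nat_lit 20361947251175828165303086415873) (nat_lit 1)) .nil)) (.cons (.br (nat_lit 11) (nat_lit 0) (.cons (.ev (nat_lit 20361947251175828165303086415873) (nat_lit 1)) .nil)) .nil))) .nil))) .nil))) .nil))),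
 (.br (nat_lit 5) (nat_lit 1) (.cons (.br (nat_lit 5) (nat_lit 1) (.cons (.rf (nat_lit 1821) (nat_lit 493858305440515000352)) (.cons (.rf (nat_lit 1821) (nat_lit 493707434990443332672)) .nil))) (.cons (.rf (nat_lit 1856) (nat_lit 493858305440515000352)) (.cons (.rf (nat_lit 1856) (nat_lit 493858305440582043680)) .nil)))),
 (.br (nat_lit 10) (nat_lit 0) (.cons (.rf (nat_lit 1855) (nat_lit 493707434990510376000)) (.cons (.br (nat_lit 4) (nat_lit 0) (.cons (.rf (nat_lit 1855) (nat_lit 493858305440582043680)) (.cons (.rf (nat_lit 1857) (nat_lit 493858305440582043680)) (.cons (.rf (nat_lit 1857) (nat_lit 458117738797769787424)) .nil)))) .nil))),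
 (.br (nat_lit 10) (nat_lit 0) (.cons (.rf (nat_lit 1855) (nat_lit 493707434990510376000)) (.cons (.rf (nat_lit 1858) (nat_lit 493858305440582043680)) (.cons (.rf (nat_lit 1858) (nat_lit 458117738797769787424)) .nil)))),
 (.br (nat_lit 7) (nat_lit 0) (.cons (.br (nat_lit 11) (nat_lit 0) (.cons (.kr (nat_lit 79228162514264337593543950337) (nat_lit 309485009821345068724781312) (nat_lit 0) (nat_lit 2)) (.cons (.ev (nat_lit 20282719093383930310579187613696) (nat_lit 1)) .nil))) (.cons (.kr (nat_lit 79228162514264337593543950337) (nat_lit 72057594037993472) (nat_lit 0) (nat_lit 1)) (.cons (.br (nat_lit 9) (nat_lit 1) (.cons (.ev (nat_lit 20282719093383930310579187613696) (nat_lit 1)) .nil)) .nil)))),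
 (.br (nat_lit 5) (nat_lit 1) (.cons (.rf (nat_lit 1821) (nat_lit 493858305440515000352)) (.cons (.br (nat_lit 6) (nat_lit 0) (.cons (.br (nat_lit 7) (nat_lit 0) (.cons (.zr (nat_lit 316912650204631305162909025287) (nat_lit 4859315401073583093448704) (nat_lit 15) (nat_lit 0)) (.cons (.zr (nat_lit 81129638414754255650577738368007) (nat_lit 4859315401073583093448704) (nat_lit 15) (nat_lit 0)) .nil))) (.cons (.rf (nat_lit 1860) (nat_lit 493858305440582043680)) (.cons (.rf (nat_lit 1860) (nat_lit 458117738797769787424)) .nil)))) .nil))),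
 (.br (nat_lit 10) (nat_lit 0) (.cons (.rf (nat_lit 1855) (nat_lit 493707434990510376000)) (.cons (.rf (nat_lit 1859) (nat_lit 493707434990510376000)) (.cons (.br (nat_lit 5) (nat_lit 1) (.cons (.br (nat_lit 5) (nat_lit 1) (.cons (.rf (nat_lit 1821) (nat_lit 493858305440515000352)) (.cons (.rf (nat_lit 1821) (nat_lit 493707434990443332672)) .nil))) (.cons (.rf (nat_lit 1861) (nat_lit 493858305440582043680)) (.cons (.rf (nat_lit 1861) (nat_lit 493707434990510376000)) .nil)))) .nil)))),
 (.br (nat_lit 4) (nat_lit 0) (.cons (.rf (nat_lit 1855) (nat_lit 493858305440582043680)) (.cons (.rf (nat_lit 1859) (nat_lit 493858305440582043680)) (.cons (.br (nat_lit 10) (nat_lit 0) (.cons (.rf (nat_lit 1855) (nat_lit 493707434990510376000)) (.cons (.rf (nat_lit 1859) (nat_lit 493707434990510376000)) (.cons (.rf (nat_lit 1862) (nat_lit 493858305440582043680)) (.cons (.rf (nat_lit 1862) (nat_lit 458117738797769787424)) .nil))))) .nil)))),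
 (.br (nat_lit 8) (nat_lit 0) (.cons (.rf (nat_lit 1809) (nat_lit 324635277232160)) (.cons (.rf (nat_lit 1809) (nat_lit 324635210188832)) (.cons (.br (nat_lit 8) (nat_lit 0) (.cons (.rf (nat_lit 1809) (nat_lit 324635277232160)) (.cons (.rf (nat_lit 1809) (nat_lit 324635210188832)) (.cons (.br (nat_lit 3) (nat_lit 1) (.cons (.rf (nat_lit 742) (nat_lit 7688225888)) (.cons (.rf (nat_lit 1821) (nat_lit 493858305440582043680)) (.cons (.rf (nat_lit 1843) (nat_lit 493858305440582043680)) (.cons (.br (nat_lit 4) (nat_lit 0) (.cons (.rf (nat_lit 1855) (nat_lit 493858305440582043680)) (.cons (.rf (nat_lit 1859) (nat_lit 493858305440582043680)) (.cons (.rf (nat_lit 1863) (nat_lit 493858305440582043680)) (.cons (.rf (nat_lit 1863) (nat_lit 458117738797769787424)) .nil))))) .nil))))) .nil)))) .nil)))),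
 (.br (nat_lit 2) (nat_lit 1) (.cons (.kr (nat_lit 256) (nat_lit 65536) (nat_lit 1) (nat_lit 0)) (.cons (.rf (nat_lit 1611) (nat_lit 325702574508064)) (.cons (.rf (nat_lit 742) (nat_lit 8764097600)) (.cons (.br (nat_lit 10) (nat_lit 1) (.cons (.br (nat_lit 8) (nat_lit 0) (.cons (.rf (nat_lit 1809) (nat_lit 324635277232160)) (.cons (.rf (nat_lit 1809) (nat_lit 324635210188832)) (.cons (.rf (nat_lit 1864) (nat_lit 407901468851537952)) (.cons (.br (nat_lit 8) (nat_lit 0) (.cons (.rf (nat_lit 1809) (nat_lit 324635277232160)) (.cons (.rf (nat_lit 1809) (nat_lit 324635210188832)) (.cons (.rf (nat_lit 1864) (nat_lit 407901468851537952)) (.cons (.br (nat_lit 8) (nat_lit 0) (.cons (.rf (nat_lit 1809) (nat_lit 324635277232160)) (.cons (.rf (nat_lit 1809) (nat_lit 324635210188832)) (.cons (.rf (nat_lit 1864) (nat_lit 407901468851537952)) .nil)))) .nil))))) .nil))))) .nil)) .nil))))),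
 (.br (nat_lit 2) (nat_lit 1) (.cons (.rf (nat_lit 1809) (nat_lit 325702574508064)) (.cons (.rf (nat_lit 1865) (nat_lit 325702574508064)) (.cons (.rf (nat_lit 1611) (nat_lit 325702574508064)) (.cons (.rf (nat_lit 1611) (nat_lit 324635277232160)) (.cons (.br (nat_lit 2) (nat_lit 1) (.cons (.rf (nat_lit 1809) (nat_lit 325702574508064)) (.cons (.rf (nat_lit 1865) (nat_lit 325702574508064)) (.cons (.rf (nat_lit 1611) (nat_lit 325702574508064)) (.cons (.rf (nat_lit 1611) (nat_lit 324635277232160)) (.cons (.rf (nat_lit 789) (nat_lit 12745785821269024)) .nil)))))) .nil)))))),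
 (.br (nat_lit 2) (nat_lit 1) (.cons (.kr (nat_lit 256) (nat_lit 65536) (nat_lit 1) (nat_lit 0)) (.cons (.br (nat_lit 12) (nat_lit 1) (.cons (.br (nat_lit 13) (nat_lit 0) (.cons (.rf (nat_lit 1866) (nat_lit 324807082214464)) (.cons (.rf (nat_lit 1866) (nat_lit 324807015171136)) (.cons (.br (nat_lit 13) (nat_lit 0) (.cons (.rf (nat_lit 1866) (nat_lit 324807082214464)) (.cons (.rf (nat_lit 1866) (nat_lit 324807015171136)) (.cons (.br (nat_lit 13) (nat_lit 0) (.cons (.rf (nat_lit 1866) (nat_lit 324807082214464)) (.cons (.rf (nat_lit 1866) (nat_lit 324807015171136)) .nil))) .nil)))) (.cons (.br (nat_lit 13) (nat_lit 0) (.cons (.rf (nat_lit 1866) (nat_lit 324807082214464)) (.cons (.rf (nat_lit 1866) (nat_lit 324807015171136)) (.cons (.br (nat_lit 13) (nat_lit 0) (.cons (.rf (nat_lit 1866) (nat_lit 324807082214464)) (.cons (.rf (nat_lit 1866) (nat_lit 324807015171136)) .nil))) .nil)))) .nil))))) .nil)) .nil))),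
 (.br (nat_lit 8) (nat_lit 0) (.cons (.rf (nat_lit 1611) (nat_lit 324635277232160)) (.cons (.rf (nat_lit 1866) (nat_lit 324635277232160)) (.cons (.rf (nat_lit 1866) (nat_lit 324635210188832)) (.cons (.br (nat_lit 2) (nat_lit 1) (.cons (.rf (nat_lit 1867) (nat_lit 407901468851537952)) (.cons (.rf (nat_lit 1867) (nat_lit 407900401554262048)) (.cons (.br (nat_lit 2) (nat_lit 1) (.cons (.rf (nat_lit 1867) (nat_lit 407901468851537952)) (.cons (.rf (nat_lit 1867) (nat_lit 407900401554262048)) (.cons (.rf (nat_lit 789) (nat_lit 15067954379131936)) .nil)))) .nil)))) .nil))))),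
 (.br (nat_lit 8) (nat_lit 0) (.cons (.rf (nat_lit 1611) (nat_lit 324635277232160)) (.cons (.rf (nat_lit 1866) (nat_lit 324635277232160)) (.cons (.rf (nat_lit 1866) (nat_lit 324635210188832)) (.cons (.br (nat_lit 7) (nat_lit 0) (.cons (.rf (nat_lit 1611) (nat_lit 325702574508064)) (.cons (.rf (nat_lit 1866) (nat_lit 325702574508064)) (.cons (.rf (nat_lit 1866) (nat_lit 325702507464736)) (.cons (.rf (nat_lit 1868) (nat_lit 407900401554262048)) (.cons (.rf (nat_lit 1868) (nat_lit 372997504442140704)) .nil)))))) .nil))))),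
 (.br (nat_lit 8) (nat_lit 0) (.cons (.rf (nat_lit 1611) (nat_lit 324635277232160)) (.cons (.rf (nat_lit 1866) (nat_lit 324635277232160)) (.cons (.rf (nat_lit 1866) (nat_lit 324635210188832)) (.cons (.rf (nat_lit 1869) (nat_lit 407900401554262048)) (.cons (.rf (nat_lit 1869) (nat_lit 407901468851537952)) .nil)))))),
 (.br (nat_lit 7) (nat_lit 0) (.cons (.rf (nat_lit 1611) (nat_lit 325702574508064)) (.cons (.rf (nat_lit 1866) (nat_lit 325702574508064)) (.cons (.rf (nat_lit 1866) (nat_lit 325702507464736)) (.cons (.br (nat_lit 7) (nat_lit 0) (.cons (.rf (nat_lit 1611) (nat_lit 325702574508064)) (.cons (.rf (nat_lit 1866) (nat_lit 325702574508064)) (.cons (.rf (nat_lit 1866) (nat_lit 325702507464736)) (.cons (.br (nat_lit 8) (nat_lit 0) (.cons (.rf (nat_lit 1611) (nat_lit 324635277232160)) (.cons (.rf (nat_lit 1866) (nat_lit 324635277232160)) (.cons (.rf (nat_lit 1866) (nat_lit 324635210188832)) (.cons (.rf (nat_lit 1869) (nat_lit 407900401554262048)) (.cons (.rf (nat_lit 1870) (nat_lit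 407901468851537952)) (.cons (.rf (nat_lit 1870) (nat_lit 372998571739416608)) .nil))))))) .nil))))) .nil))))),
 (.br (nat_lit 2) (nat_lit 1) (.cons (.rf (nat_lit 742) (nat_lit 6614516800)) (.cons (.br (nat_lit 7) (nat_lit 1) (.cons (.br (nat_lit 1) (nat_lit 0) (.cons (.br (nat_lit 4) (nat_lit 0) (.cons (.rf (nat_lit 854) (nat_lit 8941222267968)) (.cons (.rf (nat_lit 838) (nat_lit 8941222267968)) (.cons (.rf (nat_lit 854) (nat_lit 8941088181312)) (.cons (.rf (nat_lit 73) (nat_lit 305301536)) (.cons (.br (nat_lit 4) (nat_lit 0) (.cons (.rf (nat_lit 854) (nat_lit 8941222267968)) (.cons (.rf (nat_lit 838) (nat_lit 8941222267968)) (.cons (.rf (nat_lit 854) (nat_lit 8941088181312)) (.cons (.rf (nat_lit 73) (nat_lit 338855968)) (.cons (.br (nat_lit 4) (nat_lit 0) (.cons (.rf (nat_lit 854) (nat_lit 8941222267968)) (.cons (.rf (nat_lit 838) (nat_lit 8941222267968)) (.cons (.rf (nat_lit 854) (nat_lit 8941088181312)) (.cons (.rf (nat_lit 73) (nat_lit 372410400)) .nil))))) .nil)))))) .nil))))))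 (.cons (.br (nat_lit 5) (nat_lit 0) (.cons (.br (nat_lit 4) (nat_lit 0) (.cons (.rf (nat_lit 1866) (nat_lit 325600571067456)) (.cons (.rf (nat_lit 1611) (nat_lit 325600571067456)) (.cons (.rf (nat_lit 1866) (nat_lit 325600436980800)) (.cons (.rf (nat_lit 1871) (nat_lit 325600571067456)) (.cons (.br (nat_lit 4) (nat_lit 0) (.cons (.rf (nat_lit 1866) (nat_lit 325600571067456)) (.cons (.rf (nat_lit 1611) (nat_lit 325600571067456)) (.cons (.rf (nat_lit 1866) (nat_lit 325600436980800)) (.cons (.rf (nat_lit 1871) (nat_lit 325600571067456)) (.cons (.br (nat_lit 4) (nat_lit 0) (.cons (.rf (nat_lit 1866) (nat_lit 325600571067456)) (.cons (.rf (nat_lit 1611) (nat_lit 325600571067456)) (.cons (.rf (nat_lit 1866) (nat_lit 325600436980800)) (.cons (.rf (nat_lit 1871) (nat_lit 325600571067456)) .nil))))) .nil)))))) .nil)))))) .nil)) .nil))) .nil)) .nil))),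
 (.br (nat_lit 2) (nat_lit 1) (.cons (.rf (nat_lit 1872) (nat_lit 4470179872)) (.cons (.rf (nat_lit 1872) (nat_lit 6618712096)) (.cons (.rf (nat_lit 1872) (nat_lit 7688259616)) (.cons (.rf (nat_lit 1872) (nat_lit 8764098592)) (.cons (.br (nat_lit 2) (nat_lit 1) (.cons (.rf (nat_lit 1872) (nat_lit 4470179872)) (.cons (.rf (nat_lit 1872) (nat_lit 6618712096)) (.cons (.rf (nat_lit 1872) (nat_lit 7688259616)) (.cons (.rf (nat_lit 1872) (nat_lit 8764098592)) (.cons (.rf (nat_lit 789) (nat_lit 11584701542337568)) .nil)))))) .nil)))))),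
 (.br (nat_lit 0) (nat_lit 0) (.cons (.br (nat_lit 0) (nat_lit 0) (.cons (.br (nat_lit 0) (nat_lit 0) (.cons (.br (nat_lit 1) (nat_lit 1) (.cons (.br (nat_lit 0) (nat_lit 0) (.cons (.br (nat_lit 1) (nat_lit 1) (.cons (.br (nat_lit 4) (nat_lit 1) (.cons (.rf (nat_lit 742) (nat_lit 6614517792)) (.cons (.br (nat_lit 6) (nat_lit 1) (.cons (.br (nat_lit 1) (nat_lit 0) (.cons (.rf (nat_lit 1872) (nat_lit 4470146144)) (.cons (.rf (nat_lit 1872) (nat_lit 4470178880)) (.cons (.rf (nat_lit 1872) (nat_lit 4403135552)) (.cons (.br (nat_lit 2) (nat_lit 0) (.cons (.rf (nat_lit 1873) (nat_lit 9043225708576)) (.cons (.rf (nat_lit 1873) (nat_lit 9043158665248)) (.cons (.br (nat_lit 3) (nat_lit 0) (.cons (.rf (nat_lit 1873) (nat_lit 9043125111840)) .nil)) .nil)))) .nil))))) .nil)) .nil))) .nil)) .nil)) .nil)) .nil)) .nil)) .nil))]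

theorem c52 : chkAll C T R L52 (nat_lit 1849) = true := by decide +kernel

theorem l52 : (nat_lit 1849) + L52.length = (nat_lit 1875) := by decide +kernel

end Pool.Agent.H93.Neg.Q14_6_0_1_5_2
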