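import Pool.Agent.H93.Neg.TabQ14_8_0_0_0_6

/-!
Certificates.
-/

set_option autoImplicit false
set_option maxRecDepth 100000
set_option linter.all false

namespace Pool.Agent.H93.Neg.Q14_8_0_0_0_6

/-- part of the certificates -/
def L0 : List Prf := [(.br (nat_lit 9) (nat_lit 1) (.cons (.br (nat_lit 12) (nat_lit 0) (.cons (.br (nat_lit 10) (nat_lit 1) (.cons (.br (nat_lit 2) (nat_lit 1) (.cons (.kr (nat_lit 65536) (nat_lit 16777216) (nat_lit 2) (nat_lit 0)) (.cons (.kr (nat_lit 65536) (nat_lit 4294967296) (nat_lit 2) (nat_lit 0)) (.cons (.kr (nat_lit 309485009821345068724781312) (nat_lit 72057594037993472) (nat_lit 1) (nat_lit 0)) (.cons (.kr (nat_lit 79228162514264337593543950592) (nat_lit 72057594037993472) (nat_lit 1) (nat_lit 0)) (.cons (.kr (nat_lit 20282409603651670423947251286272) (nat_lit 72057594037993472) (nat_lit 1) (nat_lit 0)) .nil)))))) .nil)) .nil)) .nil)),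
 (.br (nat_lit 11) (nat_lit 0) (.cons (.br (nat_lit 9) (nat_lit 1) (.cons (.rf (nat_lit 0) (nat_lit 493858305440582043680)) (.cons (.rf (nat_lit 0) (nat_lit 458117738797769787424)) .nil))) .nil)),
 (.br (nat_lit 10) (nat_lit 0) (.cons (.br (nat_lit 12) (nat_lit 1) (.cons (.br (nat_lit 12) (nat_lit 1) .nil) .nil)) .nil)),
 (.br (nat_lit 9) (nat_lit 0) (.cons (.br (nat_lit 10) (nat_lit 0) (.cons (.rf (nat_lit 2) (nat_lit 14242959524133701664)) (.cons (.rf (nat_lit 2) (nat_lit 14241868808598947872)) .nil))) .nil)),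
 (.br (nat_lit 7) (nat_lit 1) (.cons (.br (nat_lit 7) (nat_lit 1) (.cons (.br (nat_lit 8) (nat_lit 0) (.cons (.br (nat_lit 9) (nat_lit 0) (.cons (.rf (nat_lit 3) (nat_lit 407901468851537952)) (.cons (.br (nat_lit 9) (nat_lit 0) (.cons (.rf (nat_lit 3) (nat_lit 407901468851537952)) .nil)) .nil))) .nil)) .nil)) .nil)),
 (.br (nat_lit 3) (nat_lit 1) (.cons (.kr (nat_lit 4722366482869645279488) (nat_lit 18446744078021296128) (nat_lit 1) (nat_lit 0)) (.cons (.kr (nat_lit 79228162514264337593544016128) (nat_lit 18446744078021296128) (nat_lit 1) (nat_lit 0)) (.cons (.kr (nat_lit 20282409603651670423947251351808) (nat_lit 18446744078021296128) (nat_lit 1) (nat_lit 0)) .nil)))),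
 (.br (nat_lit 8) (nat_lit 1) (.cons (.rf (nat_lit 5) (nat_lit 493858305440582043680)) (.cons (.rf (nat_lit 5) (nat_lit 493858305440582011936)) (.cons (.kr (nat_lit 4722366482869645213952) (nat_lit 18446744078004518912) (nat_lit 1) (nat_lit 0)) (.cons (.kr (nat_lit 79228162514264337593543950592) (nat_lit 18446744078004518912) (nat_lit 1) (nat_lit 0)) (.cons (.kr (nat_lit 20282409603651670423947251286272) (nat_lit 18446744078004518912) (nat_lit 1) (nat_lit 0)) .nil)))))),
 (.br (nat_lit 4) (nat_lit 1) (.cons (.rf (nat_lit 6) (nat_lit 493858305440582042688)) (.cons (.rf (nat_lit 6) (nat_lit 493858305440582009952)) (.cons (.kr (nat_lit 4722366482869645213952) (nat_lit 18446744078004518912) (nat_lit 1) (nat_lit 0)) (.cons (.kr (nat_lit 79228162514264337593543950592) (nat_lit 18446744078004518912) (nat_lit 1) (nat_lit 0)) (.cons (.kr (nat_lit 20282409603651670423947251286272) (nat_lit 18446744078004518912) (nat_lit 1) (nat_lit 0)) .nil)))))),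
 (.br (nat_lit 2) (nat_lit 1) (.cons (.kr (nat_lit 65536) (nat_lit 16777216) (nat_lit 2) (nat_lit 0)) (.cons (.rf (nat_lit 6) (nat_lit 493858305440582042688)) (.cons (.rf (nat_lit 7) (nat_lit 493858305440582042688)) (.cons (.kr (nat_lit 79228162514264337593543950592) (nat_lit 4722366482869645279232) (nat_lit 1) (nat_lit 0)) (.cons (.kr (nat_lit 20282409603651670423947251286272) (nat_lit 4722366482869645279232) (nat_lit 1) (nat_lit 0)) .nil)))))),
 (.br (nat_lit 10) (nat_lit 1) (.cons (.br (nat_lit 12) (nat_lit 0) (.cons (.br (nat_lit 11) (nat_lit 1) (.cons (.br (nat_lit 1) (nat_lit 1) (.cons (.kr (nat_lit 256) (nat_lit 65536) (nat_lit 1) (nat_lit 0)) (.cons (.kr (nat_lit 256) (nat_lit 16777216) (nat_lit 1) (nat_lit 0)) (.cons (.rf (nat_lit 6) (nat_lit 493858305440582043680)) (.cons (.rf (nat_lit 7) (nat_lit 493858305440582043680)) (.cons (.rf (nat_lit 8) (nat_lit 493858305440582043680)) (.cons (.rf (nat_lit 8) (nat_lit 490399646479877769248)) (.cons (.rf (nat_lit 8) (nat_lit 453506193516830754848))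 .nil)))))))) .nil)) .nil)) .nil)),
 (.br (nat_lit 8) (nat_lit 0) (.cons (.br (nat_lit 10) (nat_lit 1) (.cons (.rf (nat_lit 9) (nat_lit 493858305440582043680)) (.cons (.rf (nat_lit 9) (nat_lit 458117738797769787424)) .nil))) .nil)),
 (.br (nat_lit 4) (nat_lit 0) (.cons (.br (nat_lit 1) (nat_lit 1) (.cons (.kr (nat_lit 256) (nat_lit 65536) (nat_lit 1) (nat_lit 0)) (.cons (.kr (nat_lit 256) (nat_lit 16777216) (nat_lit 1) (nat_lit 0)) (.cons (.kr (nat_lit 256) (nat_lit 4294967296) (nat_lit 1) (nat_lit 0)) (.cons (.br (nat_lit 7) (nat_lit 0) (.cons (.br (nat_lit 7) (nat_lit 0) (.cons (.br (nat_lit 7) (nat_lit 0) (.cons (.br (nat_lit 8) (nat_lit 1) (.cons (.br (nat_lit 8) (nat_lit 1) (.cons (.br (nat_lit 8) (nat_lit 1) (.cons (.br (nat_lit 11) (nat_lit 0) (.cons (.rf (nat_lit 1) (nat_lit 493858305440582043680)) (.cons (.rf (nat_lit 1) (nat_lit 493857214725047289888)) .nil))) .nil)) .nil)) .nil)) .nil)) .nil)) .nil)) .nil))))) (.cons (.br (nat_lit 6) (nat_lit 1) (.cons (.br (nat_lit 7)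 (nat_lit 1) (.cons (.rf (nat_lit 4) (nat_lit 9043225708576)) (.cons (.br (nat_lit 9) (nat_lit 0) (.cons (.br (nat_lit 9) (nat_lit 0) (.cons (.br (nat_lit 7) (nat_lit 1) (.cons (.rf (nat_lit 4) (nat_lit 9043225708576)) (.cons (.br (nat_lit 7) (nat_lit 1) (.cons (.rf (nat_lit 4) (nat_lit 9043225708576)) (.cons (.br (nat_lit 8) (nat_lit 0) (.cons (.rf (nat_lit 10) (nat_lit 493858305440582043680)) (.cons (.rf (nat_lit 10) (nat_lit 493823402543469922336)) .nil))) .nil))) .nil))) .nil)) .nil)) .nil))) .nil)) .nil))),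
 (.br (nat_lit 12) (nat_lit 1) (.cons (.br (nat_lit 12) (nat_lit 1) .nil) .nil)),
 (.br (nat_lit 11) (nat_lit 0) (.cons (.br (nat_lit 12) (nat_lit 1) (.cons (.br (nat_lit 12) (nat_lit 1) .nil) .nil)) .nil)),
 (.br (nat_lit 8) (nat_lit 1) (.cons (.br (nat_lit 10) (nat_lit 0) (.cons (.br (nat_lit 9) (nat_lit 1) (.cons (.br (nat_lit 11) (nat_lit 0) (.cons (.rf (nat_lit 12) (nat_lit 14242959524133701664)) .nil)) (.cons (.br (nat_lit 11) (nat_lit 0) (.cons (.rf (nat_lit 12) (nat_lit 15395881028740548640)) .nil)) .nil))) (.cons (.br (nat_lit 9) (nat_lit 1) (.cons (.rf (nat_lit 13) (nat_lit 14242959524133701664)) (.cons (.br (nat_lit 9) (nat_lit 1) (.cons (.rf (nat_lit 13) (nat_lit 14242959524133701664)) .nil)) .nil))) .nil))) .nil)),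
 (.br (nat_lit 10) (nat_lit 0) (.cons (.rf (nat_lit 14) (nat_lit 11584701642934304)) (.cons (.rf (nat_lit 14) (nat_lit 11550616782473248)) (.cons (.br (nat_lit 10) (nat_lit 0) (.cons (.rf (nat_lit 14) (nat_lit 11584701642934304)) (.cons (.rf (nat_lit 14) (nat_lit 11550616782473248)) .nil))) .nil)))),
 (.br (nat_lit 10) (nat_lit 0) (.cons (.rf (nat_lit 15) (nat_lit 8207103961434144)) (.cons (.rf (nat_lit 15) (nat_lit 4899767619520549)) .nil))),
 (.br (nat_lit 10) (nat_lit 1) (.cons (.zr (nat_lit 396142021552482379242953573632) (nat_lit 618979464663888469161934850) (nat_lit 10) (nat_lit 6)) .nil)),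
 (.br (nat_lit 3) (nat_lit 1) (.cons (.ev (nat_lit 282574505181441) (nat_lit 1)) (.cons (.rf (nat_lit 17) (nat_lit 493858305440582043680)) (.cons (.rf (nat_lit 17) (nat_lit 458117738797769787424)) .nil)))),
 (.br (nat_lit 3) (nat_lit 1) (.cons (.rf (nat_lit 18) (nat_lit 493858305440582011936)) (.cons (.rf (nat_lit 18) (nat_lit 493854893758040050720)) (.cons (.kr (nat_lit 20282409603651670423947251351552) (nat_lit 79228162514264337593560727552) (nat_lit 2) (nat_lit 0)) .nil)))),
 (.br (nat_lit 2) (nat_lit 1) (.cons (.kr (nat_lit 65536) (nat_lit 16777216) (nat_lit 2) (nat_lit 0)) (.cons (.rf (nat_lit 18) (nat_lit 493858305440582043680)) (.cons (.rf (nat_lit 18) (nat_lit 493854893758040082464)) (.cons (.rf (nat_lit 19) (nat_lit 493858305440582043680)) (.cons (.rf (nat_lit 19) (nat_lit 458117738797769787424)) .nil)))))),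
 (.br (nat_lit 2) (nat_lit 1) (.cons (.kr (nat_lit 65536) (nat_lit 16777216) (nat_lit 2) (nat_lit 0)) (.cons (.rf (nat_lit 20) (nat_lit 493858305440582042688)) (.cons (.rf (nat_lit 20) (nat_lit 493786318112044450885)) (.cons (.rf (nat_lit 20) (nat_lit 493746912713745990726)) (.cons (.kr (nat_lit 20282409603651670423947251286272) (nat_lit 79228162514264337593544015872) (nat_lit 1) (nat_lit 0)) .nil)))))),
 (.br (nat_lit 9) (nat_lit 1) (.cons (.br (nat_lit 12) (nat_lit 0) (.cons (.br (nat_lit 11) (nat_lit 1) (.cons (.br (nat_lit 1) (nat_lit 1) (.cons (.kr (nat_lit 256) (nat_lit 65536) (nat_lit 1) (nat_lit 0)) (.cons (.kr (nat_lit 256) (nat_lit 16777216) (nat_lit 1) (nat_lit 0)) (.cons (.rf (nat_lit 20) (nat_lit 493858305440582043680)) (.cons (.rf (nat_lit 20) (nat_lit 493786318112044451877)) (.cons (.rf (nat_lit 20) (nat_lit 493746912713745991718)) (.cons (.rf (nat_lit 21) (nat_lit 493858305440582043680)) (.cons (.rf (nat_lit 21) (nat_lit 458117738797769787424)) .nil)))))))) .nil))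 .nil)) .nil)),
 (.br (nat_lit 10) (nat_lit 0) (.cons (.br (nat_lit 9) (nat_lit 1) (.cons (.rf (nat_lit 22) (nat_lit 493858305440582043680)) (.cons (.rf (nat_lit 22) (nat_lit 458117738797769787424)) .nil))) .nil)),
 (.br (nat_lit 7) (nat_lit 0) (.cons (.rf (nat_lit 15) (nat_lit 11584701642934304)) (.cons (.br (nat_lit 8) (nat_lit 1) (.cons (.rf (nat_lit 16) (nat_lit 407901468851537952)) (.cons (.br (nat_lit 8) (nat_lit 1) (.cons (.rf (nat_lit 16) (nat_lit 407901468851537952)) (.cons (.br (nat_lit 10) (nat_lit 0) (.cons (.rf (nat_lit 23) (nat_lit 493858305440582043680)) (.cons (.rf (nat_lit 23) (nat_lit 493786318112044451877)) .nil))) .nil))) .nil))) .nil))),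
 (.br (nat_lit 5) (nat_lit 1) (.cons (.rf (nat_lit 11) (nat_lit 6614517792)) (.cons (.br (nat_lit 4) (nat_lit 0) (.cons (.rf (nat_lit 11) (nat_lit 5574330400)) (.cons (.br (nat_lit 4) (nat_lit 0) (.cons (.rf (nat_lit 11) (nat_lit 5574330400)) (.cons (.br (nat_lit 6) (nat_lit 1) (.cons (.rf (nat_lit 11) (nat_lit 208767013)) (.cons (.br (nat_lit 7) (nat_lit 0) (.cons (.rf (nat_lit 24) (nat_lit 11584701642934304)) (.cons (.rf (nat_lit 24) (nat_lit 11550616782473248)) (.cons (.br (nat_lit 7) (nat_lit 0) (.cons (.rf (nat_lit 24) (nat_lit 11584701642934304)) (.cons (.rf (nat_lit 24) (nat_lit 11550616782473248)) .nil))) .nil)))) .nil))) .nil))) .nil))) .nil))),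
 (.br (nat_lit 11) (nat_lit 0) (.cons (.br (nat_lit 11) (nat_lit 0) .nil) .nil)),
 (.br (nat_lit 11) (nat_lit 0) (.cons (.br (nat_lit 12) (nat_lit 1) (.cons (.br (nat_lit 12) (nat_lit 1) .nil) .nil)) .nil)),
 (.br (nat_lit 9) (nat_lit 0) (.cons (.br (nat_lit 10) (nat_lit 1) (.cons (.rf (nat_lit 27) (nat_lit 14242959524133701664)) (.cons (.br (nat_lit 10) (nat_lit 1) (.cons (.rf (nat_lit 27) (nat_lit 14242959524133701664)) .nil)) .nil))) .nil)),
 (.br (nat_lit 8) (nat_lit 0) (.cons (.br (nat_lit 7) (nat_lit 1) (.cons (.br (nat_lit 9) (nat_lit 0) (.cons (.br (nat_lit 10) (nat_lit 1) (.cons (.rf (nat_lit 26) (nat_lit 407901468851537952)) .nil)) (.cons (.br (nat_lit 10) (nat_lit 1) (.cons (.rf (nat_lit 26) (nat_lit 443930265870501920)) .nil)) .nil))) (.cons (.br (nat_lit 9) (nat_lit 0) (.cons (.rf (nat_lit 28) (nat_lit 407901468851537952)) (.cons (.br (nat_lit 9) (nat_lit 0) (.cons (.rf (nat_lit 28) (nat_lit 407901468851537952)) .nil)) .nil))) .nil))) .nil)),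
 (.br (nat_lit 8) (nat_lit 1) (.cons (.br (nat_lit 4) (nat_lit 1) (.cons (.kr (nat_lit 18446744078004519168) (nat_lit 4722366482869662056448) (nat_lit 1) (nat_lit 0)) (.cons (.kr (nat_lit 79228162514264337593544015872) (nat_lit 18446744078004518912) (nat_lit 2) (nat_lit 0)) (.cons (.kr (nat_lit 20282409603651670423947251351552) (nat_lit 18446744078004518912) (nat_lit 2) (nat_lit 0)) .nil)))) (.cons (.br (nat_lit 2) (nat_lit 1) (.cons (.kr (nat_lit 4722366482873940181248) (nat_lit 18446744073726394368) (nat_lit 1) (nat_lit 0)) (.cons (.kr (nat_lit 79228162514264337597838918144) (nat_lit 18446744073743171584) (nat_lit 1) (nat_lit 0)) (.cons (.kr (nat_lit 20282409603651670423951546253824) (nat_lit 18446744073743171584) (nat_lit 1) (nat_lit 0)) .nil)))) (.cons (.kr (nat_lit 18446744073709551616) (nat_lit 4722366482869645213696) (nat_lit 8) (nat_lit 0)) (.cons (.kr (nat_lit 79228162514264337593543950592) (nat_lit 18446744073726328832) (nat_lit 1) (nat_lit 0)) (.cons (.kr (nat_lit 20282409603651670423947251286272)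 (nat_lit 18446744073726328832) (nat_lit 1) (nat_lit 0)) .nil)))))),
 (.br (nat_lit 3) (nat_lit 1) (.cons (.rf (nat_lit 30) (nat_lit 493858305440582042688)) (.cons (.kr (nat_lit 16777216) (nat_lit 4294967296) (nat_lit 3) (nat_lit 0)) (.cons (.br (nat_lit 2) (nat_lit 1) (.cons (.kr (nat_lit 4722366482873940181248) (nat_lit 18446744073726394368) (nat_lit 1) (nat_lit 0)) (.cons (.kr (nat_lit 79228167236630820463189164544) (nat_lit 36893488147435945984) (nat_lit 1) (nat_lit 0)) (.cons (.kr (nat_lit 20282409608374036906816896500224) (nat_lit 36893488147435945984) (nat_lit 1) (nat_lit 0)) .nil)))) (.cons (.kr (nat_lit 79228162514264337593543950592) (nat_lit 18446744073726328832) (nat_lit 1) (nat_lit 0)) (.cons (.kr (nat_lit 20282409603651670423947251286272) (nat_lit 18446744073726328832) (nat_lit 1) (nat_lit 0)) .nil)))))),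
 (.br (nat_lit 2) (nat_lit 1) (.cons (.rf (nat_lit 30) (nat_lit 493858305440582042688)) (.cons (.rf (nat_lit 30) (nat_lit 493858305440581026880)) (.cons (.rf (nat_lit 31) (nat_lit 493858305440582042688)) (.cons (.rf (nat_lit 31) (nat_lit 493858271355721581632)) (.cons (.kr (nat_lit 20282409603651670423947251286272) (nat_lit 79228162514264337593544015872) (nat_lit 1) (nat_lit 0)) .nil)))))),
 (.br (nat_lit 10) (nat_lit 1) (.cons (.br (nat_lit 12) (nat_lit 0) (.cons (.br (nat_lit 11) (nat_lit 1) (.cons (.br (nat_lit 1) (nat_lit 1) (.cons (.kr (nat_lit 256) (nat_lit 65536) (nat_lit 1) (nat_lit 0)) (.cons (.rf (nat_lit 30) (nat_lit 493858305440582043680)) (.cons (.rf (nat_lit 30) (nat_lit 493858305440581027872)) (.cons (.rf (nat_lit 31) (nat_lit 493858305440582043680)) (.cons (.rf (nat_lit 31) (nat_lit 493858271355721582624)) (.cons (.rf (nat_lit 32) (nat_lit 493858305440582043680)) (.cons (.rf (nat_lit 32) (nat_lit 458117738797769787424)) .nil)))))))) .nil)) .nil)) .nil)),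
 (.br (nat_lit 9) (nat_lit 0) (.cons (.br (nat_lit 10) (nat_lit 1) (.cons (.rf (nat_lit 33) (nat_lit 493858305440582043680)) (.cons (.rf (nat_lit 33) (nat_lit 458117738797769787424)) .nil))) .nil)),
 (.br (nat_lit 12) (nat_lit 1) (.cons (.br (nat_lit 12) (nat_lit 1) .nil) .nil)),
 (.br (nat_lit 11) (nat_lit 0) (.cons (.br (nat_lit 12) (nat_lit 1) (.cons (.br (nat_lit 12) (nat_lit 1) .nil) .nil)) .nil)),
 (.br (nat_lit 9) (nat_lit 0) (.cons (.br (nat_lit 10) (nat_lit 1) (.cons (.br (nat_lit 11) (nat_lit 0) (.cons (.rf (nat_lit 35) (nat_lit 14242959524133701664)) .nil)) (.cons (.br (nat_lit 11) (nat_lit 0) (.cons (.rf (nat_lit 35) (nat_lit 15395881028740548640)) .nil)) .nil))) (.cons (.br (nat_lit 10) (nat_lit 1) (.cons (.rf (nat_lit 36) (nat_lit 14242959524133701664)) (.cons (.br (nat_lit 10) (nat_lit 1) (.cons (.rf (nat_lit 36) (nat_lit 14242959524133701664)) .nil)) .nil))) .nil))),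
 (.br (nat_lit 10) (nat_lit 1) (.cons (.br (nat_lit 10) (nat_lit 1) (.cons (.br (nat_lit 10) (nat_lit 1) .nil) .nil)) .nil)),
 (.br (nat_lit 7) (nat_lit 1) (.cons (.br (nat_lit 8) (nat_lit 0) (.cons (.rf (nat_lit 37) (nat_lit 407901468851537952)) (.cons (.br (nat_lit 9) (nat_lit 0) (.cons (.rf (nat_lit 37) (nat_lit 407867383991076896)) (.cons (.rf (nat_lit 38) (nat_lit 443930265870501920)) .nil))) .nil))) .nil))]

theorem c0 : chkAll C T R L0 (nat_lit 0) = true := by decide +kernel

theorem l0 : (nat_lit 0) + L0.length = (nat_lit 40) := by decide +kernel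

/-- part of the certificates -/
def L1 : List Prf := [(.br (nat_lit 8) (nat_lit 1) (.cons (.zr (nat_lit 1227833804629250479948032) (nat_lit 60847847780974653963091599949825) (nat_lit 10) (nat_lit 6)) .nil)),
 (.br (nat_lit 4) (nat_lit 1) (.cons (.zr (nat_lit 20282409613096403389690903986181) (nat_lit 620178963981393406906598144) (nat_lit 10) (nat_lit 0)) .nil)),
 (.br (nat_lit 9) (nat_lit 1) (.cons (.br (nat_lit 11) (nat_lit 1) (.cons (.br (nat_lit 8) (nat_lit 1) (.cons (.zr (nat_lit 1239148983624078046865326080) (nat_lit 60847228820399744238693440815873) (nat_lit 10) (nat_lit 7)) .nil)) (.cons (.br (nat_lit 4) (nat_lit 1) (.cons (.zr (nat_lit 20283028573671313114088996012293) (nat_lit 1218389071669008747462656) (nat_lit 10) (nat_lit 0)) .nil)) (.cons (.kr (nat_lit 309485009821345068724781056) (nat_lit 79228162514264337593543950336) (nat_lit 11) (nat_lit 0)) .nil)))) (.cons (.br (nat_lit 2) (nat_lit 1) (.cons (.kr (nat_lit 18446744078004519168) (nat_lit 4722366482869662056448)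 (nat_lit 1) (nat_lit 0)) (.cons (.rf (nat_lit 40) (nat_lit 493858305440582043680)) (.cons (.rf (nat_lit 40) (nat_lit 492741412732994160672)) .nil)))) (.cons (.br (nat_lit 2) (nat_lit 1) (.cons (.kr (nat_lit 18446744078004519168) (nat_lit 4722366482869662056448) (nat_lit 1) (nat_lit 0)) (.cons (.rf (nat_lit 41) (nat_lit 493858305440582043680)) (.cons (.rf (nat_lit 41) (nat_lit 492741412732994160672)) .nil)))) (.cons (.kr (nat_lit 309485009821345068724781312) (nat_lit 4722366482869661990912) (nat_lit 1) (nat_lit 0)) (.cons (.kr (nat_lit 79228162514264337593543950592) (nat_lit 4722366482869661990912) (nat_lit 1) (nat_lit 0)) .nil)))))),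
 (.br (nat_lit 9) (nat_lit 1) (.cons (.zr (nat_lit 1239153687543816859913552640) (nat_lit 60847228810991904761088735117313) (nat_lit 10) (nat_lit 10)) .nil)),
 (.br (nat_lit 3) (nat_lit 1) (.cons (.zr (nat_lit 20282409603651670423955858063621) (nat_lit 1213648258442065392697344) (nat_lit 10) (nat_lit 0)) .nil)),
 (.br (nat_lit 4) (nat_lit 1) (.cons (.rf (nat_lit 42) (nat_lit 493854893759079253056)) (.cons (.br (nat_lit 2) (nat_lit 1) (.cons (.kr (nat_lit 4722366482869661991168) (nat_lit 18446744078004584448) (nat_lit 1) (nat_lit 0)) (.cons (.rf (nat_lit 43) (nat_lit 493858305440582043680)) (.cons (.rf (nat_lit 43) (nat_lit 492741412732994160672)) .nil)))) (.cons (.br (nat_lit 2) (nat_lit 1) (.cons (.kr (nat_lit 4722366482869661991168) (nat_lit 18446744078004584448) (nat_lit 1) (nat_lit 0)) (.cons (.rf (nat_lit 44) (nat_lit 493858305440582043680)) (.cons (.rf (nat_lit 44) (nat_lit 492741412732994160672)) .nil)))) (.cons (.kr (nat_lit 309485009821345068724781312) (nat_lit 18446744078004518912)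 (nat_lit 1) (nat_lit 0)) (.cons (.kr (nat_lit 79228162514264337593543950592) (nat_lit 18446744078004518912) (nat_lit 1) (nat_lit 0)) .nil)))))),
 (.br (nat_lit 2) (nat_lit 1) (.cons (.rf (nat_lit 42) (nat_lit 493858305440582042688)) (.cons (.rf (nat_lit 42) (nat_lit 493854893759079253056)) (.cons (.rf (nat_lit 45) (nat_lit 493858305440582042688)) (.cons (.rf (nat_lit 45) (nat_lit 493854893759079253056)) (.cons (.kr (nat_lit 79228162514264337593543950592) (nat_lit 309485009821345068724846592) (nat_lit 1) (nat_lit 0)) .nil)))))),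
 (.br (nat_lit 10) (nat_lit 1) (.cons (.br (nat_lit 11) (nat_lit 0) (.cons (.br (nat_lit 12) (nat_lit 0) (.cons (.br (nat_lit 1) (nat_lit 1) (.cons (.kr (nat_lit 256) (nat_lit 65536) (nat_lit 1) (nat_lit 0)) (.cons (.rf (nat_lit 42) (nat_lit 493858305440582043680)) (.cons (.rf (nat_lit 42) (nat_lit 493854893759079254048)) (.cons (.rf (nat_lit 45) (nat_lit 493858305440582043680)) (.cons (.rf (nat_lit 45) (nat_lit 493854893759079254048)) (.cons (.rf (nat_lit 46) (nat_lit 493858305440582043680)) (.cons (.rf (nat_lit 46) (nat_lit 492741412732994160672)) .nil)))))))) .nil)) .nil)) .nil)),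
 (.br (nat_lit 9) (nat_lit 0) (.cons (.br (nat_lit 10) (nat_lit 1) (.cons (.rf (nat_lit 47) (nat_lit 493858305440582043680)) (.cons (.rf (nat_lit 47) (nat_lit 492741412732994160672)) .nil))) .nil)),
 (.br (nat_lit 7) (nat_lit 1) (.cons (.rf (nat_lit 39) (nat_lit 11584701642934304)) (.cons (.br (nat_lit 7) (nat_lit 1) (.cons (.rf (nat_lit 39) (nat_lit 11584701642934304)) (.cons (.br (nat_lit 8) (nat_lit 0) (.cons (.br (nat_lit 9) (nat_lit 0) (.cons (.rf (nat_lit 39) (nat_lit 8207105000605728)) (.cons (.br (nat_lit 9) (nat_lit 0) (.cons (.rf (nat_lit 39) (nat_lit 8207105000605728)) .nil)) .nil))) (.cons (.br (nat_lit 9) (nat_lit 0) (.cons (.rf (nat_lit 48) (nat_lit 493858305440582043680)) (.cons (.br (nat_lit 9) (nat_lit 0) (.cons (.rf (nat_lit 48) (nat_lit 493858305440582043680)) .nil)) .nil))) .nil))) .nil))) .nil))),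
 (.br (nat_lit 6) (nat_lit 1) (.cons (.rf (nat_lit 25) (nat_lit 6613501984)) (.cons (.br (nat_lit 6) (nat_lit 1) (.cons (.rf (nat_lit 25) (nat_lit 6613501984)) (.cons (.br (nat_lit 4) (nat_lit 0) (.cons (.br (nat_lit 8) (nat_lit 0) (.cons (.rf (nat_lit 29) (nat_lit 325702574508064)) (.cons (.br (nat_lit 8) (nat_lit 0) (.cons (.rf (nat_lit 29) (nat_lit 325702574508064)) (.cons (.br (nat_lit 7) (nat_lit 1) (.cons (.rf (nat_lit 29) (nat_lit 291617714047008)) (.cons (.br (nat_lit 7) (nat_lit 1) (.cons (.rf (nat_lit 29) (nat_lit 291617714047008)) (.cons (.br (nat_lit 9) (nat_lit 0) (.cons (.rf (nat_lit 34) (nat_lit 493858305440582043680)) (.cons (.rf (nat_lit 34) (nat_lit 493823402543469922336)) .nil))) .nil))) .nil))) .nil))) .nil))) (.cons (.br (nat_lit 7) (nat_lit 1) (.cons (.rf (nat_lit 49) (nat_lit 11584701642934304)) (.cons (.rf (nat_lit 49) (nat_lit 11550616782473248)) (.cons (.br (nat_lit 7) (nat_lit 1) (.cons (.rf (nat_lit 49) (nat_lit 11584701642934304)) (.cons (.rf (nat_lit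 49) (nat_lit 11550616782473248)) (.cons (.br (nat_lit 7) (nat_lit 1) (.cons (.rf (nat_lit 49) (nat_lit 11584701642934304)) (.cons (.rf (nat_lit 49) (nat_lit 11550616782473248)) .nil))) .nil)))) .nil)))) .nil))) .nil))) .nil))),
 (.br (nat_lit 7) (nat_lit 1) (.cons (.br (nat_lit 9) (nat_lit 0) (.cons (.br (nat_lit 10) (nat_lit 1) (.cons (.br (nat_lit 10) (nat_lit 1) (.cons (.br (nat_lit 10) (nat_lit 1) .nil) .nil)) .nil)) .nil)) .nil)),
 (.br (nat_lit 12) (nat_lit 0) (.cons (.br (nat_lit 11) (nat_lit 1) (.cons (.br (nat_lit 11) (nat_lit 1) .nil) .nil)) .nil)),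
 (.br (nat_lit 10) (nat_lit 1) (.cons (.rf (nat_lit 52) (nat_lit 14242959524133701664)) (.cons (.br (nat_lit 10) (nat_lit 1) (.cons (.rf (nat_lit 52) (nat_lit 14242959524133701664)) .nil)) .nil))),
 (.br (nat_lit 11) (nat_lit 0) (.cons (.br (nat_lit 11) (nat_lit 0) .nil) .nil)),
 (.br (nat_lit 11) (nat_lit 0) (.cons (.br (nat_lit 12) (nat_lit 1) (.cons (.br (nat_lit 12) (nat_lit 1) .nil) .nil)) .nil)),
 (.br (nat_lit 9) (nat_lit 0) (.cons (.br (nat_lit 10) (nat_lit 1) (.cons (.rf (nat_lit 55) (nat_lit 14242959524133701664)) (.cons (.br (nat_lit 10) (nat_lit 1) (.cons (.rf (nat_lit 55) (nat_lit 14242959524133701664)) .nil)) .nil))) .nil)),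
 (.br (nat_lit 8) (nat_lit 0) (.cons (.br (nat_lit 7) (nat_lit 1) (.cons (.br (nat_lit 9) (nat_lit 0) (.cons (.br (nat_lit 10) (nat_lit 1) (.cons (.rf (nat_lit 54) (nat_lit 407901468851537952)) .nil)) (.cons (.br (nat_lit 10) (nat_lit 1) (.cons (.rf (nat_lit 54) (nat_lit 443930265870501920)) .nil)) .nil))) (.cons (.br (nat_lit 9) (nat_lit 0) (.cons (.rf (nat_lit 56) (nat_lit 407901468851537952)) (.cons (.br (nat_lit 9) (nat_lit 0) (.cons (.rf (nat_lit 56) (nat_lit 407901468851537952)) .nil)) .nil))) .nil))) .nil)),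
 (.br (nat_lit 10) (nat_lit 1) (.cons (.br (nat_lit 12) (nat_lit 0) (.cons (.br (nat_lit 11) (nat_lit 1) (.cons (.rf (nat_lit 50) (nat_lit 179693696394)) .nil)) .nil)) .nil)),
 (.br (nat_lit 9) (nat_lit 0) (.cons (.br (nat_lit 10) (nat_lit 1) (.cons (.rf (nat_lit 58) (nat_lit 493858305440582043680)) (.cons (.rf (nat_lit 58) (nat_lit 458117738797769787424)) .nil))) .nil)),
 (.br (nat_lit 6) (nat_lit 1) (.cons (.br (nat_lit 7) (nat_lit 1) (.cons (.rf (nat_lit 51) (nat_lit 9043225708576)) (.cons (.br (nat_lit 9) (nat_lit 0) (.cons (.br (nat_lit 9) (nat_lit 0) (.cons (.br (nat_lit 7) (nat_lit 1) (.cons (.rf (nat_lit 51) (nat_lit 9043225708576)) (.cons (.br (nat_lit 8) (nat_lit 0) (.cons (.rf (nat_lit 53) (nat_lit 14242959524133701664)) (.cons (.rf (nat_lit 53) (nat_lit 14208056627021580320)) .nil))) .nil))) .nil)) .nil)) .nil))) (.cons (.br (nat_lit 8) (nat_lit 0) (.cons (.rf (nat_lit 57) (nat_lit 325702574508064)) (.cons (.br (nat_lit 8) (nat_lit 0) (.cons (.rf (nat_lit 57) (nat_lit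 325702574508064)) (.cons (.br (nat_lit 7) (nat_lit 1) (.cons (.rf (nat_lit 57) (nat_lit 291616672843808)) (.cons (.br (nat_lit 7) (nat_lit 1) (.cons (.rf (nat_lit 57) (nat_lit 291616672843808)) (.cons (.br (nat_lit 9) (nat_lit 0) (.cons (.rf (nat_lit 59) (nat_lit 493858305440582043680)) (.cons (.rf (nat_lit 59) (nat_lit 493823402543469922336)) .nil))) .nil))) .nil))) .nil))) .nil))) .nil))),
 (.br (nat_lit 9) (nat_lit 1) (.cons (.br (nat_lit 11) (nat_lit 0) (.cons (.br (nat_lit 12) (nat_lit 0) (.cons (.rf (nat_lit 25) (nat_lit 14264184135)) .nil)) .nil)) .nil)),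
 (.br (nat_lit 10) (nat_lit 0) (.cons (.br (nat_lit 9) (nat_lit 1) (.cons (.rf (nat_lit 61) (nat_lit 493858305440582043680)) (.cons (.rf (nat_lit 61) (nat_lit 492741412732994160672)) .nil))) .nil)),
 (.br (nat_lit 12) (nat_lit 1) (.cons (.br (nat_lit 12) (nat_lit 1) .nil) .nil)),
 (.br (nat_lit 12) (nat_lit 1) (.cons (.br (nat_lit 12) (nat_lit 1) .nil) .nil)),
 (.br (nat_lit 11) (nat_lit 0) (.cons (.rf (nat_lit 64) (nat_lit 14242959524133701664)) .nil)),
 (.br (nat_lit 9) (nat_lit 1) (.cons (.br (nat_lit 9) (nat_lit 1) (.cons (.br (nat_lit 9) (nat_lit 1) .nil) .nil)) .nil)),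
 (.br (nat_lit 7) (nat_lit 1) (.cons (.br (nat_lit 8) (nat_lit 0) (.cons (.br (nat_lit 10) (nat_lit 0) (.cons (.br (nat_lit 9) (nat_lit 1) (.cons (.br (nat_lit 11) (nat_lit 0) (.cons (.rf (nat_lit 66) (nat_lit 335949427937216544)) .nil)) (.cons (.br (nat_lit 11) (nat_lit 0) (.cons (.rf (nat_lit 66) (nat_lit 335984612309305376)) .nil)) .nil))) (.cons (.br (nat_lit 9) (nat_lit 1) (.cons (.rf (nat_lit 65) (nat_lit 14242959524133701664)) (.cons (.br (nat_lit 9) (nat_lit 1) (.cons (.rf (nat_lit 65) (nat_lit 14242959524133701664)) .nil)) .nil))) .nil))) (.cons (.br (nat_lit 10) (nat_lit 0) (.cons (.br (nat_lit 11) (nat_lit 0) (.cons (.rf (nat_lit 65) (nat_lit 14240639622277367840)) (.cons (.rf (nat_lit 64) (nat_lit 14240639622277367840)) .nil))) (.cons (.rf (nat_lit 66) (nat_lit 443930265870501920)) .nil))) .nil))) .nil)),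
 (.br (nat_lit 8) (nat_lit 1) (.cons (.zr (nat_lit 6058814644269127137820672) (nat_lit 40566057147342770906324610843650) (nat_lit 10) (nat_lit 5)) .nil)),
 (.br (nat_lit 4) (nat_lit 1) (.cons (.zr (nat_lit 309485028485106353857101824) (nat_lit 40564819216748073815832816256002) (nat_lit 10) (nat_lit 7)) .nil)),
 (.br (nat_lit 10) (nat_lit 1) (.cons (.br (nat_lit 11) (nat_lit 1) (.cons (.br (nat_lit 8) (nat_lit 1) (.cons (.zr (nat_lit 1547439234652921324804310272) (nat_lit 40564824043006763984566477651970) (nat_lit 10) (nat_lit 5)) .nil)) (.cons (.br (nat_lit 4) (nat_lit 1) (.cons (.zr (nat_lit 60848776236004117997189689835523) (nat_lit 4845221943080887879991296) (nat_lit 10) (nat_lit 0)) .nil)) (.cons (.kr (nat_lit 309485009821345068724781056) (nat_lit 79228162514264337593543950336) (nat_lit 11) (nat_lit 0)) .nil)))) (.cons (.br (nat_lit 2) (nat_lit 1) (.cons (.kr (nat_lit 18446744078004519168) (nat_lit 1208925819614629191548928) (nat_lit 1) (nat_lit 0)) (.cons (.rf (nat_lit 68)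 (nat_lit 493858305440582043680)) (.cons (.rf (nat_lit 68) (nat_lit 492741412732994160672)) .nil)))) (.cons (.br (nat_lit 2) (nat_lit 1) (.cons (.kr (nat_lit 18446744078004519168) (nat_lit 1208925819614629191548928) (nat_lit 1) (nat_lit 0)) (.cons (.rf (nat_lit 69) (nat_lit 493858305440582043680)) (.cons (.rf (nat_lit 69) (nat_lit 492741412732994160672)) .nil)))) (.cons (.kr (nat_lit 309485009821345068724781312) (nat_lit 1208925819614629191483392) (nat_lit 1) (nat_lit 0)) (.cons (.kr (nat_lit 79228162514264337593543950592) (nat_lit 1208925819614629191483392) (nat_lit 1) (nat_lit 0)) .nil)))))),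
 (.br (nat_lit 3) (nat_lit 1) (.cons (.zr (nat_lit 60847538295964832616931970253059) (nat_lit 4845148156104593041784832) (nat_lit 10) (nat_lit 0)) .nil)),
 (.br (nat_lit 4) (nat_lit 1) (.cons (.rf (nat_lit 70) (nat_lit 493855985538725708864)) (.cons (.br (nat_lit 10) (nat_lit 1) (.cons (.kr (nat_lit 1208925819614629191483648) (nat_lit 18446744078004584448) (nat_lit 1) (nat_lit 0)) (.cons (.rf (nat_lit 70) (nat_lit 2345430039845482861)) (.cons (.rf (nat_lit 70) (nat_lit 2345430039845481869)) .nil)))) (.cons (.br (nat_lit 2) (nat_lit 1) (.cons (.kr (nat_lit 1208925819614629191483648) (nat_lit 18446744078004584448) (nat_lit 1) (nat_lit 0)) (.cons (.rf (nat_lit 71) (nat_lit 493858305440582043680)) (.cons (.rf (nat_lit 71) (nat_lit 492741412732994160672)) .nil)))) (.cons (.kr (nat_lit 309485009821345068724781312) (nat_lit 18446744078004518912) (nat_lit 1) (nat_lit 0)) (.cons (.kr (nat_lit 79228162514264337593543950592) (nat_lit 18446744078004518912) (nat_lit 1) (nat_lit 0)) .nil)))))),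
 (.br (nat_lit 2) (nat_lit 1) (.cons (.rf (nat_lit 70) (nat_lit 493858305440582042688)) (.cons (.rf (nat_lit 70) (nat_lit 493855985538725708864)) (.cons (.rf (nat_lit 72) (nat_lit 493858305440582042688)) (.cons (.rf (nat_lit 72) (nat_lit 493855985538725708864)) (.cons (.kr (nat_lit 79228162514264337593543950592) (nat_lit 309485009821345068724846592) (nat_lit 1) (nat_lit 0)) .nil)))))),
 (.br (nat_lit 9) (nat_lit 1) (.cons (.br (nat_lit 11) (nat_lit 0) (.cons (.br (nat_lit 12) (nat_lit 0) (.cons (.br (nat_lit 1) (nat_lit 1) (.cons (.kr (nat_lit 256) (nat_lit 65536) (nat_lit 1) (nat_lit 0)) (.cons (.rf (nat_lit 70) (nat_lit 493858305440582043680)) (.cons (.rf (nat_lit 70) (nat_lit 493855985538725709856)) (.cons (.rf (nat_lit 72) (nat_lit 493858305440582043680)) (.cons (.rf (nat_lit 72) (nat_lit 493855985538725709856)) (.cons (.rf (nat_lit 73) (nat_lit 493858305440582043680)) (.cons (.rf (nat_lit 73) (nat_lit 492741412732994160672)) .nil)))))))) .nil)) .nil)) .nil)),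
 (.br (nat_lit 10) (nat_lit 0) (.cons (.br (nat_lit 9) (nat_lit 1) (.cons (.rf (nat_lit 74) (nat_lit 493858305440582043680)) (.cons (.rf (nat_lit 74) (nat_lit 492741412732994160672)) .nil))) .nil)),
 (.br (nat_lit 7) (nat_lit 1) (.cons (.rf (nat_lit 67) (nat_lit 11584701642934304)) (.cons (.br (nat_lit 7) (nat_lit 1) (.cons (.rf (nat_lit 67) (nat_lit 11584701642934304)) (.cons (.br (nat_lit 8) (nat_lit 0) (.cons (.br (nat_lit 10) (nat_lit 0) (.cons (.rf (nat_lit 67) (nat_lit 9264799786600480)) (.cons (.br (nat_lit 10) (nat_lit 0) (.cons (.rf (nat_lit 67) (nat_lit 9264799786600480)) .nil)) .nil))) (.cons (.br (nat_lit 10) (nat_lit 0) (.cons (.rf (nat_lit 75) (nat_lit 493858305440582043680)) (.cons (.br (nat_lit 10) (nat_lit 0) (.cons (.rf (nat_lit 75) (nat_lit 493858305440582043680)) .nil)) .nil))) .nil))) .nil))) .nil)))]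

theorem c1 : chkAll C T R L1 (nat_lit 40) = true := by decide +kernel

theorem l1 : (nat_lit 40) + L1.length = (nat_lit 77) := by decide +kernel

/-- part of the certificates -/
def L2 : List Prf := [(.br (nat_lit 4) (nat_lit 1) (.cons (.br (nat_lit 10) (nat_lit 1) (.cons (.ev (nat_lit 80779280584100629100593351432) (nat_lit 4)) .nil)) (.cons (.br (nat_lit 8) (nat_lit 1) (.cons (.ev (nat_lit 80784059544904965008699362056) (nat_lit 4)) .nil)) (.cons (.br (nat_lit 8) (nat_lit 1) (.cons (.ev (nat_lit 121775860642029403187681094467846) (nat_lit 3)) .nil)) .nil)))),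
 (.br (nat_lit 2) (nat_lit 1) (.cons (.br (nat_lit 10) (nat_lit 1) (.cons (.zr (nat_lit 3626777458848298455531520) (nat_lit 20282409608411002734033363795969) (nat_lit 5) (nat_lit 6)) .nil)) (.cons (.br (nat_lit 8) (nat_lit 1) (.cons (.zr (nat_lit 3645666924775366155304960) (nat_lit 20282409603688636252271786590209) (nat_lit 5) (nat_lit 7)) .nil)) (.cons (.rf (nat_lit 77) (nat_lit 492741412732994160672)) .nil)))),
 (.br (nat_lit 2) (nat_lit 1) (.cons (.br (nat_lit 10) (nat_lit 1) (.cons (.zr (nat_lit 81129638414606681695801940377600) (nat_lit 2422610971540443939995649) (nat_lit 5) (nat_lit 0)) .nil)) (.cons (.rf (nat_lit 78) (nat_lit 1228572482271981933)) (.cons (.rf (nat_lit 77) (nat_lit 492741412732994160672)) .nil)))),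
 (.br (nat_lit 11) (nat_lit 1) (.cons (.rf (nat_lit 77) (nat_lit 493858305440582043680)) (.cons (.rf (nat_lit 78) (nat_lit 493858305440582043680)) (.cons (.rf (nat_lit 79) (nat_lit 493858305440582043680)) (.cons (.rf (nat_lit 79) (nat_lit 2346554842321072493)) (.cons (.kr (nat_lit 309485009821345068724781056) (nat_lit 79228162514264337593543950336) (nat_lit 11) (nat_lit 0)) .nil)))))),
 (.br (nat_lit 4) (nat_lit 1) (.cons (.zr (nat_lit 1223111581980093934011656) (nat_lit 40564819207303342825933167919104) (nat_lit 10) (nat_lit 0)) .nil)),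
 (.br (nat_lit 10) (nat_lit 1) (.cons (.br (nat_lit 4) (nat_lit 1) (.cons (.ev (nat_lit 79543739543590431100926362376) (nat_lit 4)) .nil)) (.cons (.br (nat_lit 3) (nat_lit 1) (.cons (.ev (nat_lit 79543720654416112113377018632) (nat_lit 4)) .nil)) (.cons (.rf (nat_lit 80) (nat_lit 2346554842321071501)) .nil)))),
 (.br (nat_lit 2) (nat_lit 1) (.cons (.rf (nat_lit 80) (nat_lit 493858305440582042688)) (.cons (.rf (nat_lit 80) (nat_lit 493855985538725708864)) (.cons (.br (nat_lit 11) (nat_lit 1) (.cons (.rf (nat_lit 81) (nat_lit 493858305440582043680)) (.cons (.rf (nat_lit 81) (nat_lit 493855985538725708864)) (.cons (.ev (nat_lit 310698658007443667056394241) (nat_lit 1)) .nil)))) (.cons (.rf (nat_lit 82) (nat_lit 493858305440582043680)) (.cons (.rf (nat_lit 82) (nat_lit 492741412732994160672)) .nil)))))),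
 (.br (nat_lit 2) (nat_lit 1) (.cons (.rf (nat_lit 80) (nat_lit 493858305440582042688)) (.cons (.rf (nat_lit 80) (nat_lit 493855985538725708864)) (.cons (.rf (nat_lit 83) (nat_lit 493858305440582042688)) (.cons (.rf (nat_lit 83) (nat_lit 493855985538725708864)) (.cons (.kr (nat_lit 79228162514264337593543950592) (nat_lit 309485009821345068724846592) (nat_lit 1) (nat_lit 0)) .nil)))))),
 (.br (nat_lit 9) (nat_lit 1) (.cons (.br (nat_lit 11) (nat_lit 0) (.cons (.br (nat_lit 12) (nat_lit 0) (.cons (.br (nat_lit 1) (nat_lit 1) (.cons (.kr (nat_lit 256) (nat_lit 65536) (nat_lit 1) (nat_lit 0)) (.cons (.rf (nat_lit 80) (nat_lit 493858305440582043680)) (.cons (.rf (nat_lit 80) (nat_lit 493855985538725709856)) (.cons (.rf (nat_lit 83) (nat_lit 493858305440582043680)) (.cons (.rf (nat_lit 83) (nat_lit 493855985538725709856)) (.cons (.rf (nat_lit 84) (nat_lit 493858305440582043680)) (.cons (.rf (nat_lit 84) (nat_lit 492741412732994160672)) .nil)))))))) .nil)) .nil)) .nil)),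
 (.br (nat_lit 8) (nat_lit 0) (.cons (.br (nat_lit 9) (nat_lit 1) (.cons (.rf (nat_lit 85) (nat_lit 493858305440582043680)) (.cons (.rf (nat_lit 85) (nat_lit 492741412732994160672)) .nil))) .nil)),
 (.br (nat_lit 7) (nat_lit 1) (.cons (.rf (nat_lit 76) (nat_lit 11584701642934304)) (.cons (.br (nat_lit 7) (nat_lit 1) (.cons (.rf (nat_lit 76) (nat_lit 11584701642934304)) (.cons (.br (nat_lit 10) (nat_lit 0) (.cons (.rf (nat_lit 76) (nat_lit 9264799786600480)) (.cons (.br (nat_lit 8) (nat_lit 0) (.cons (.rf (nat_lit 86) (nat_lit 493858305440582043680)) (.cons (.br (nat_lit 8) (nat_lit 0) (.cons (.rf (nat_lit 86) (nat_lit 493858305440582043680)) .nil)) .nil))) .nil))) .nil))) .nil))),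
 (.br (nat_lit 4) (nat_lit 0) (.cons (.rf (nat_lit 60) (nat_lit 9043225708576)) (.cons (.br (nat_lit 6) (nat_lit 1) (.cons (.br (nat_lit 7) (nat_lit 1) (.cons (.rf (nat_lit 60) (nat_lit 4645015619621)) (.cons (.br (nat_lit 7) (nat_lit 1) (.cons (.rf (nat_lit 60) (nat_lit 4645015619621)) (.cons (.br (nat_lit 7) (nat_lit 1) (.cons (.rf (nat_lit 60) (nat_lit 4645015619621)) (.cons (.br (nat_lit 8) (nat_lit 0) (.cons (.rf (nat_lit 60) (nat_lit 3613149759526)) (.cons (.br (nat_lit 10) (nat_lit 0) (.cons (.rf (nat_lit 62) (nat_lit 493858305440582043680)) (.cons (.rf (nat_lit 62) (nat_lit 346284489190183897125)) .nil))) .nil))) .nil))) .nil))) .nil))) (.cons (.br (nat_lit 7) (nat_lit 1) (.cons (.rf (nat_lit 76) (nat_lit 11584701642934304)) (.cons (.rf (nat_lit 87) (nat_lit 11584701642934304)) (.cons (.br (nat_lit 7) (nat_lit 1) (.cons (.rf (nat_lit 76) (nat_lit 11584701642934304)) (.cons (.rf (nat_lit 87) (nat_lit 11584701642934304)) (.cons (.br (nat_lit 7) (nat_lit 1) (.cons (.rf (nat_lit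 76) (nat_lit 11584701642934304)) (.cons (.rf (nat_lit 87) (nat_lit 11584701642934304)) .nil))) .nil)))) .nil)))) .nil))) .nil))),
 (.br (nat_lit 11) (nat_lit 1) (.cons (.br (nat_lit 11) (nat_lit 1) (.cons (.br (nat_lit 11) (nat_lit 1) .nil) .nil)) .nil)),
 (.br (nat_lit 10) (nat_lit 0) (.cons (.br (nat_lit 10) (nat_lit 0) (.cons (.rf (nat_lit 89) (nat_lit 443930265870501920)) .nil)) (.cons (.rf (nat_lit 89) (nat_lit 443930265870501920)) .nil))),
 (.br (nat_lit 10) (nat_lit 0) (.cons (.rf (nat_lit 66) (nat_lit 335945029719787557)) (.cons (.rf (nat_lit 66) (nat_lit 443930265870501920)) .nil))),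
 (.br (nat_lit 8) (nat_lit 1) (.cons (.zr (nat_lit 1547439234652921324888195072) (nat_lit 158461160731951811858995872770) (nat_lit 10) (nat_lit 5)) .nil)),
 (.br (nat_lit 11) (nat_lit 1) (.cons (.rf (nat_lit 92) (nat_lit 493858305440582043680)) (.cons (.rf (nat_lit 92) (nat_lit 490399642081667680293)) (.cons (.kr (nat_lit 20282409603651670423947251286272) (nat_lit 309485009821345068741558272) (nat_lit 1) (nat_lit 0)) .nil)))),
 (.br (nat_lit 2) (nat_lit 1) (.cons (.kr (nat_lit 18446744078004519424) (nat_lit 1208925819614629208326144) (nat_lit 1) (nat_lit 0)) (.cons (.rf (nat_lit 93) (nat_lit 493823402543469922336)) (.cons (.br (nat_lit 8) (nat_lit 1) (.cons (.zr (nat_lit 310693935857976904943469568) (nat_lit 158456334473261643125451915266) (nat_lit 10) (nat_lit 6)) .nil)) .nil)))),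
 (.br (nat_lit 10) (nat_lit 1) (.cons (.rf (nat_lit 93) (nat_lit 493858305440582043680)) (.cons (.rf (nat_lit 94) (nat_lit 493858305440582043680)) (.cons (.rf (nat_lit 94) (nat_lit 490399642081667680293)) (.cons (.kr (nat_lit 1208925819614629174706176) (nat_lit 309485009821345068724781056) (nat_lit 10) (nat_lit 0)) (.cons (.kr (nat_lit 20282409603651670423947251286272) (nat_lit 1208925819614629191483392) (nat_lit 1) (nat_lit 0)) .nil)))))),
 (.br (nat_lit 8) (nat_lit 1) (.cons (.zr (nat_lit 239231912591899738128634675203) (nat_lit 4845221943080887879991296) (nat_lit 10) (nat_lit 0)) .nil)),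
 (.br (nat_lit 3) (nat_lit 1) (.cons (.zr (nat_lit 6058814644269127137494272) (nat_lit 159694265067958733617196433410) (nat_lit 10) (nat_lit 5)) .nil)),
 (.br (nat_lit 13) (nat_lit 1) (.cons (.br (nat_lit 3) (nat_lit 1) (.cons (.kr (nat_lit 20282409603651670423947268063488) (nat_lit 18446744078004584448) (nat_lit 1) (nat_lit 0)) (.cons (.rf (nat_lit 96) (nat_lit 493858305440582043680)) (.cons (.rf (nat_lit 96) (nat_lit 493823402543469922336)) .nil)))) (.cons (.ev (nat_lit 72058693566332929) (nat_lit 1)) (.cons (.br (nat_lit 2) (nat_lit 1) (.cons (.kr (nat_lit 20282409603651670423947268063488) (nat_lit 18446744078004584448) (nat_lit 1) (nat_lit 0)) (.cons (.rf (nat_lit 97) (nat_lit 493858305440582043680)) (.cons (.rf (nat_lit 97) (nat_lit 493823402543469922336)) .nil)))) (.cons (.rf (nat_lit 95) (nat_lit 116518264502697241929)) (.cons (.rf (nat_lit 95) (nat_lit 116518264502697240937)) .nil)))))),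
 (.br (nat_lit 2) (nat_lit 1) (.cons (.rf (nat_lit 95) (nat_lit 493858305440582042688)) (.cons (.rf (nat_lit 98) (nat_lit 493858305440582042688)) (.cons (.rf (nat_lit 98) (nat_lit 490399642081667679301)) (.cons (.kr (nat_lit 309485009821345068724781312) (nat_lit 1208925819614629174771712) (nat_lit 1) (nat_lit 0)) (.cons (.br (nat_lit 11) (nat_lit 1) (.cons (.kr (nat_lit 20282719088661491769015976067584) (nat_lit 2417851639229258366255104) (nat_lit 1) (nat_lit 0)) (.cons (.rf (nat_lit 98) (nat_lit 116518264502697240937)) (.cons (.rf (nat_lit 98) (nat_lit 110753828503380470124)) .nil)))) .nil)))))),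
 (.br (nat_lit 9) (nat_lit 1) (.cons (.br (nat_lit 11) (nat_lit 0) (.cons (.br (nat_lit 12) (nat_lit 1) (.cons (.br (nat_lit 1) (nat_lit 1) (.cons (.kr (nat_lit 256) (nat_lit 65536) (nat_lit 1) (nat_lit 0)) (.cons (.rf (nat_lit 95) (nat_lit 493858305440582043680)) (.cons (.rf (nat_lit 98) (nat_lit 493858305440582043680)) (.cons (.rf (nat_lit 98) (nat_lit 490399642081667680293)) (.cons (.rf (nat_lit 99) (nat_lit 493858305440582043680)) (.cons (.rf (nat_lit 99) (nat_lit 493823402543469922336)) (.cons (.br (nat_lit 2) (nat_lit 1) (.cons (.rf (nat_lit 95) (nat_lit 493858305440582042688)) (.cons (.rf (nat_lit 98) (nat_lit 493858305440582042688)) (.cons (.rf (nat_lit 98) (nat_lit 490399642081667679301)) (.cons (.rf (nat_lit 99) (nat_lit 493858305440582042688)) (.cons (.rf (nat_lit 99) (nat_lit 493823402543469921344)) .nil)))))) .nil)))))))) .nil)) .nil)) .nil)),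
 (.br (nat_lit 10) (nat_lit 0) (.cons (.br (nat_lit 9) (nat_lit 1) (.cons (.rf (nat_lit 100) (nat_lit 493858305440582043680)) (.cons (.br (nat_lit 9) (nat_lit 1) (.cons (.rf (nat_lit 100) (nat_lit 493858305440582043680)) .nil)) .nil))) .nil)),
 (.br (nat_lit 8) (nat_lit 0) (.cons (.br (nat_lit 7) (nat_lit 1) (.cons (.rf (nat_lit 90) (nat_lit 372998571739416608)) (.cons (.rf (nat_lit 90) (nat_lit 407901468851537952)) (.cons (.rf (nat_lit 90) (nat_lit 443930265870501920)) .nil)))) (.cons (.br (nat_lit 7) (nat_lit 1) (.cons (.rf (nat_lit 91) (nat_lit 14242959524133701664)) (.cons (.rf (nat_lit 91) (nat_lit 14208056627021580320)) (.cons (.br (nat_lit 10) (nat_lit 0) (.cons (.rf (nat_lit 101) (nat_lit 493858305440582043680)) (.cons (.rf (nat_lit 101) (nat_lit 490399642081667680293)) .nil))) .nil)))) .nil))),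
 (.br (nat_lit 11) (nat_lit 1) (.cons (.br (nat_lit 4) (nat_lit 1) (.cons (.br (nat_lit 10) (nat_lit 1) (.cons (.ev (nat_lit 20283960721721506715454300687112) (nat_lit 4)) .nil)) (.cons (.br (nat_lit 8) (nat_lit 1) (.cons (.ev (nat_lit 20283965500682311051362406697736) (nat_lit 4)) .nil)) (.cons (.br (nat_lit 8) (nat_lit 1) (.cons (.ev (nat_lit 20759953436342372755912591345414) (nat_lit 3)) .nil)) .nil)))) (.cons (.br (nat_lit 2) (nat_lit 1) (.cons (.br (nat_lit 10) (nat_lit 1) (.cons (.zr (nat_lit 3626777458848298455531520) (nat_lit 79228167273596647679622906369) (nat_lit 5) (nat_lit 7)) .nil)) (.cons (.br (nat_lit 8) (nat_lit 1) (.cons (.zr (nat_lit 3645666924775366104974080) (nat_lit 79228162551230165918079254529) (nat_lit 5) (nat_lit 6)) .nil)) (.cons (.br (nat_lit 8) (nat_lit 1) (.cons (.ev (nat_lit 20758715524710928577618031739654) (nat_lit 3)) .nil)) .nil)))) (.cons (.br (nat_lit 2) (nat_lit 1) (.cons (.br (nat_lit 10) (nat_lit 1) (.cons (.zr (nat_lit 316912650057057350387060704000)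 (nat_lit 2422610971540443939995649) (nat_lit 5) (nat_lit 0)) .nil)) (.cons (.br (nat_lit 4) (nat_lit 1) (.cons (.zr (nat_lit 3645666924775366104974080) (nat_lit 79228162551230165918079254529) (nat_lit 5) (nat_lit 6)) .nil)) (.cons (.br (nat_lit 4) (nat_lit 1) (.cons (.ev (nat_lit 20286446254316300388315378680584) (nat_lit 4)) .nil)) .nil)))) (.cons (.br (nat_lit 2) (nat_lit 1) (.cons (.br (nat_lit 8) (nat_lit 1) (.cons (.zr (nat_lit 316912650057057350387060704000) (nat_lit 2422610971540443939995649) (nat_lit 5) (nat_lit 0)) .nil)) (.cons (.br (nat_lit 4) (nat_lit 1) (.cons (.zr (nat_lit 3626777458848298455531520) (nat_lit 79228167273596647679622906369) (nat_lit 5) (nat_lit 7)) .nil)) (.cons (.br (nat_lit 4) (nat_lit 1) (.cons (.ev (nat_lit 20286441399797632344085135295240) (nat_lit 4)) .nil)) .nil)))) (.cons (.kr (nat_lit 20282409603651670423947251286272) (nat_lit 309485009821345068741558272) (nat_lit 1) (nat_lit 0)) .nil)))))),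
 (.br (nat_lit 3) (nat_lit 1) (.cons (.rf (nat_lit 103) (nat_lit 493858305440582042688)) (.cons (.br (nat_lit 2) (nat_lit 1) (.cons (.ev (nat_lit 79228162532783420740563173376) (nat_lit 1)) (.cons (.br (nat_lit 10) (nat_lit 1) (.cons (.zr (nat_lit 7267832698445255466680328) (nat_lit 161551175127246536729182602496) (nat_lit 10) (nat_lit 0)) .nil)) (.cons (.zr (nat_lit 237684487561239756875833344003) (nat_lit 81129638424051559061489883022336) (nat_lit 10) (nat_lit 0)) .nil)))) (.cons (.br (nat_lit 2) (nat_lit 1) (.cons (.ev (nat_lit 79229371440156291291733360896) (nat_lit 1)) (.cons (.br (nat_lit 8) (nat_lit 1) (.cons (.zr (nat_lit 7267832698445255466680328) (nat_lit 161551175127246536729182602496) (nat_lit 10) (nat_lit 0)) .nil)) (.cons (.zr (nat_lit 237685696468612627431298498563) (nat_lit 81129638419329264916589740819456) (nat_lit 10) (nat_lit 0)) .nil)))) (.cons (.br (nat_lit 2) (nat_lit 1) (.cons (.br (nat_lit 10) (nat_lit 1) (.cons (.ev (nat_lit 20759951018527625893291143267078)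 (nat_lit 3)) .nil)) (.cons (.br (nat_lit 8) (nat_lit 1) (.cons (.ev (nat_lit 20759951018527625893291143267078) (nat_lit 3)) .nil)) (.cons (.br (nat_lit 8) (nat_lit 1) (.cons (.ev (nat_lit 20759953436342372755912591212806) (nat_lit 3)) .nil)) .nil)))) (.cons (.ev (nat_lit 20361637770888373302004478377984) (nat_lit 1)) .nil)))))),
 (.br (nat_lit 2) (nat_lit 1) (.cons (.rf (nat_lit 103) (nat_lit 493858305440582042688)) (.cons (.rf (nat_lit 104) (nat_lit 493858305440582042688)) (.cons (.br (nat_lit 3) (nat_lit 1) (.cons (.ev (nat_lit 79228162532783420740563173376) (nat_lit 1)) (.cons (.br (nat_lit 4) (nat_lit 1) (.cons (.ev (nat_lit 20758715496376873230430670096134) (nat_lit 3)) .nil)) (.cons (.ev (nat_lit 20361637770888373302004478377984) (nat_lit 1)) .nil)))) (.cons (.br (nat_lit 3) (nat_lit 1) (.cons (.br (nat_lit 10) (nat_lit 1) (.cons (.zr (nat_lit 55628462597280563200) (nat_lit 79230585088270332304616849409) (nat_lit 5) (nat_lit 5)) .nil)) (.cons (.br (nat_lit 4) (nat_lit 1)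 (.cons (.zr (nat_lit 55628462597280563200) (nat_lit 79230585088270332304616849409) (nat_lit 5) (nat_lit 5)) .nil)) (.cons (.ev (nat_lit 79537652246524223125968715776) (nat_lit 1)) .nil)))) (.cons (.br (nat_lit 3) (nat_lit 1) (.cons (.br (nat_lit 10) (nat_lit 1) (.cons (.zr (nat_lit 1554692771340037808256517379) (nat_lit 554597137673639309791746588672) (nat_lit 10) (nat_lit 6)) .nil)) (.cons (.br (nat_lit 4) (nat_lit 1) (.cons (.zr (nat_lit 314334880199533669336023808) (nat_lit 237684487579758559630207221761) (nat_lit 10) (nat_lit 6)) .nil)) (.cons (.br (nat_lit 4) (nat_lit 1) (.cons (.ev (nat_lit 20442413353729594059260768092674) (nat_lit 3)) .nil)) .nil)))) .nil))))))]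

theorem c2 : chkAll C T R L2 (nat_lit 77) = true := by decide +kernel

theorem l2 : (nat_lit 77) + L2.length = (nat_lit 106) := by decide +kernel

/-- part of the certificates -/
def L3 : List Prf := [(.br (nat_lit 2) (nat_lit 1) (.cons (.rf (nat_lit 103) (nat_lit 493858305440582042688)) (.cons (.rf (nat_lit 104) (nat_lit 493858305440582042688)) (.cons (.rf (nat_lit 105) (nat_lit 493858305440582042688)) (.cons (.br (nat_lit 3) (nat_lit 1) (.cons (.br (nat_lit 8) (nat_lit 1) (.cons (.zr (nat_lit 55341358133920399360) (nat_lit 79230585088342108415088263169) (nat_lit 5) (nat_lit 9)) .nil)) (.cons (.br (nat_lit 4) (nat_lit 1) (.cons (.zr (nat_lit 55341358133920399360) (nat_lit 79230585088342108415088263169) (nat_lit 5) (nat_lit 9)) .nil)) (.cons (.ev (nat_lit 79537652246524223125968715776) (nat_lit 1)) .nil)))) (.cons (.br (nat_lit 3) (nat_lit 1) (.cons (.br (nat_lit 8) (nat_lit 1) (.cons (.zr (nat_lit 237691755264810996913934499840) (nat_lit 1547425123398104796727608583) (nat_lit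 10) (nat_lit 7)) .nil)) (.cons (.br (nat_lit 4) (nat_lit 1) (.cons (.zr (nat_lit 4835703350519426468347904) (nat_lit 79537652283345935154309759747) (nat_lit 10) (nat_lit 7)) .nil)) (.cons (.br (nat_lit 4) (nat_lit 1) (.cons (.ev (nat_lit 20442413353729594059260768092674) (nat_lit 3)) .nil)) .nil)))) .nil)))))),
 (.br (nat_lit 2) (nat_lit 1) (.cons (.rf (nat_lit 103) (nat_lit 493858305440582042688)) (.cons (.rf (nat_lit 104) (nat_lit 493858305440582042688)) (.cons (.rf (nat_lit 105) (nat_lit 493858305440582042688)) (.cons (.rf (nat_lit 106) (nat_lit 493858305440582042688)) (.cons (.br (nat_lit 3) (nat_lit 1) (.cons (.br (nat_lit 8) (nat_lit 1) (.cons (.ev (nat_lit 20758715505821751998000283059974) (nat_lit 3)) .nil)) (.cons (.br (nat_lit 4) (nat_lit 1) (.cons (.ev (nat_lit 20283975172236441921019839713032) (nat_lit 4)) .nil)) (.cons (.br (nat_lit 4) (nat_lit 1) (.cons (.ev (nat_lit 20283970393275637585111733702408) (nat_lit 4)) .nil)) .nil)))) .nil)))))),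
 (.br (nat_lit 9) (nat_lit 1) (.cons (.br (nat_lit 11) (nat_lit 0) (.cons (.br (nat_lit 12) (nat_lit 1) (.cons (.br (nat_lit 1) (nat_lit 1) (.cons (.kr (nat_lit 256) (nat_lit 65536) (nat_lit 1) (nat_lit 0)) (.cons (.rf (nat_lit 103) (nat_lit 493858305440582043680)) (.cons (.rf (nat_lit 104) (nat_lit 493858305440582043680)) (.cons (.rf (nat_lit 105) (nat_lit 493858305440582043680)) (.cons (.rf (nat_lit 106) (nat_lit 493858305440582043680)) (.cons (.rf (nat_lit 107) (nat_lit 493858305440582043680)) (.cons (.br (nat_lit 2) (nat_lit 1) (.cons (.rf (nat_lit 103) (nat_lit 493858305440582042688)) (.cons (.rf (nat_lit 104) (nat_lit 493858305440582042688)) (.cons (.rf (nat_lit 105) (nat_lit 493858305440582042688)) (.cons (.rf (nat_lit 106) (nat_lit 493858305440582042688)) (.cons (.rf (nat_lit 107) (nat_lit 493858305440582042688)) .nil)))))) .nil)))))))) .nil)) .nil)) .nil)),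
 (.br (nat_lit 10) (nat_lit 0) (.cons (.rf (nat_lit 66) (nat_lit 335945029719787557)) (.cons (.br (nat_lit 7) (nat_lit 1) (.cons (.br (nat_lit 11) (nat_lit 0) (.cons (.rf (nat_lit 66) (nat_lit 337070929626630181)) (.cons (.rf (nat_lit 38) (nat_lit 442876933731092512)) .nil))) (.cons (.br (nat_lit 9) (nat_lit 1) (.cons (.rf (nat_lit 108) (nat_lit 493858305440582043680)) (.cons (.br (nat_lit 9) (nat_lit 1) (.cons (.rf (nat_lit 108) (nat_lit 493858305440582043680)) .nil)) .nil))) .nil))) .nil))),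
 (.br (nat_lit 8) (nat_lit 0) (.cons (.rf (nat_lit 102) (nat_lit 407901468851537952)) (.cons (.br (nat_lit 7) (nat_lit 1) (.cons (.rf (nat_lit 109) (nat_lit 14242959524133701664)) (.cons (.rf (nat_lit 109) (nat_lit 14208056627021580320)) (.cons (.br (nat_lit 7) (nat_lit 1) (.cons (.rf (nat_lit 109) (nat_lit 14242959524133701664)) (.cons (.rf (nat_lit 109) (nat_lit 14208056627021580320)) .nil))) .nil)))) .nil))),
 (.br (nat_lit 4) (nat_lit 0) (.cons (.rf (nat_lit 88) (nat_lit 9043225708576)) (.cons (.br (nat_lit 6) (nat_lit 1) (.cons (.rf (nat_lit 88) (nat_lit 4645015619621)) (.cons (.br (nat_lit 6) (nat_lit 1) (.cons (.rf (nat_lit 88) (nat_lit 4645015619621)) (.cons (.br (nat_lit 8) (nat_lit 0) (.cons (.rf (nat_lit 102) (nat_lit 407901468851537952)) (.cons (.rf (nat_lit 110) (nat_lit 407901468851537952)) (.cons (.br (nat_lit 8) (nat_lit 0) (.cons (.rf (nat_lit 102) (nat_lit 407901468851537952)) (.cons (.rf (nat_lit 110) (nat_lit 407901468851537952)) .nil))) .nil)))) .nil))) .nil)))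 .nil))),
 (.br (nat_lit 8) (nat_lit 1) (.cons (.ev (nat_lit 309489732260167007384699136) (nat_lit 1)) (.cons (.ev (nat_lit 79229371440156291291733360896) (nat_lit 1)) (.cons (.ev (nat_lit 20282409603651742764120072585216) (nat_lit 1)) .nil)))),
 (.br (nat_lit 12) (nat_lit 1) (.cons (.ev (nat_lit 1213648186097503114952961) (nat_lit 1)) (.cons (.ev (nat_lit 1213666632842672041165056) (nat_lit 1)) (.cons (.ev (nat_lit 20282720297587311384744662466561) (nat_lit 1)) .nil)))),
 (.br (nat_lit 2) (nat_lit 1) (.cons (.rf (nat_lit 112) (nat_lit 493858305440582043680)) (.cons (.rf (nat_lit 112) (nat_lit 493858301042371954725)) (.cons (.rf (nat_lit 113) (nat_lit 493858305440582043680)) (.cons (.rf (nat_lit 113) (nat_lit 492740322017459406880)) (.cons (.ev (nat_lit 40564821634599785381961173893632) (nat_lit 2)) .nil)))))),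
 (.br (nat_lit 8) (nat_lit 1) (.cons (.ev (nat_lit 309489732260167007384699136) (nat_lit 1)) (.cons (.br (nat_lit 2) (nat_lit 1) (.cons (.ev (nat_lit 20837942459410196720964652304134) (nat_lit 3)) .nil)) (.cons (.ev (nat_lit 20282409603651742764120072519936) (nat_lit 1)) .nil)))),
 (.br (nat_lit 3) (nat_lit 1) (.cons (.rf (nat_lit 112) (nat_lit 493858305440582042688)) (.cons (.br (nat_lit 13) (nat_lit 1) (.cons (.zr (nat_lit 365083372865730068194000694676736) (nat_lit 1213777385368049821876225) (nat_lit 30) (nat_lit 7)) (.cons (.ev (nat_lit 309489750634573115902918913) (nat_lit 1)) (.cons (.ev (nat_lit 79229371458530697400251580673) (nat_lit 1)) .nil)))) (.cons (.rf (nat_lit 115) (nat_lit 493858305440582043680)) (.cons (.rf (nat_lit 115) (nat_lit 492740322017459406880)) (.cons (.ev (nat_lit 20282410817299928579040109133824) (nat_lit 1)) .nil)))))),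
 (.br (nat_lit 8) (nat_lit 1) (.cons (.ev (nat_lit 20839180418264872826064322233094) (nat_lit 3)) .nil)),
 (.br (nat_lit 2) (nat_lit 1) (.cons (.rf (nat_lit 113) (nat_lit 493858305440582042688)) (.cons (.rf (nat_lit 116) (nat_lit 493858305440582042688)) (.cons (.rf (nat_lit 116) (nat_lit 493858301042371953733)) (.cons (.br (nat_lit 3) (nat_lit 1) (.cons (.ev (nat_lit 1213648186097503114952961) (nat_lit 1)) (.cons (.ev (nat_lit 1213666632842672041165056) (nat_lit 1)) (.cons (.ev (nat_lit 20282410817299928579040109133824) (nat_lit 1)) .nil)))) (.cons (.br (nat_lit 3) (nat_lit 1) (.cons (.rf (nat_lit 117) (nat_lit 493858305440582043680)) (.cons (.rf (nat_lit 117) (nat_lit 493858301042371954725)) (.cons (.zr (nat_lit 1033060972228382805142610575360) (nat_lit 243388916452746153214946947630849) (nat_lit 30) (nat_lit 6)) .nil)))) .nil)))))),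
 (.br (nat_lit 9) (nat_lit 1) (.cons (.rf (nat_lit 38) (nat_lit 335952726464759840)) (.cons (.br (nat_lit 12) (nat_lit 0) (.cons (.br (nat_lit 10) (nat_lit 1) (.cons (.br (nat_lit 1) (nat_lit 1) (.cons (.kr (nat_lit 256) (nat_lit 65536) (nat_lit 1) (nat_lit 0)) (.cons (.rf (nat_lit 114) (nat_lit 493858305440582043680)) (.cons (.rf (nat_lit 116) (nat_lit 493858305440582043680)) (.cons (.rf (nat_lit 116) (nat_lit 493858301042371954725)) (.cons (.rf (nat_lit 118) (nat_lit 493858305440582043680)) (.cons (.rf (nat_lit 118) (nat_lit 492740322017459406880)) (.cons (.br (nat_lit 2) (nat_lit 1) (.cons (.ev (nat_lit 40564821634599785381961173958912) (nat_lit 2)) (.cons (.rf (nat_lit 116) (nat_lit 493858305440582042688)) (.cons (.rf (nat_lit 116) (nat_lit 493858301042371953733)) (.cons (.rf (nat_lit 118) (nat_lit 493858305440582042688)) (.cons (.rf (nat_lit 118) (nat_lit 492740322017459405888)) .nil)))))) .nil)))))))) .nil)) .nil)) .nil))),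
 (.br (nat_lit 7) (nat_lit 1) (.cons (.br (nat_lit 11) (nat_lit 0) (.cons (.rf (nat_lit 119) (nat_lit 493858305440582043680)) (.cons (.rf (nat_lit 119) (nat_lit 493857214725047289888)) .nil))) .nil)),
 (.br (nat_lit 7) (nat_lit 1) (.cons (.rf (nat_lit 120) (nat_lit 14242959524133701664)) (.cons (.br (nat_lit 7) (nat_lit 1) (.cons (.rf (nat_lit 120) (nat_lit 14242959524133701664)) .nil)) .nil))),
 (.br (nat_lit 8) (nat_lit 0) (.cons (.rf (nat_lit 111) (nat_lit 4645015619621)) (.cons (.br (nat_lit 7) (nat_lit 1) (.cons (.rf (nat_lit 121) (nat_lit 14242959524133701664)) (.cons (.rf (nat_lit 121) (nat_lit 13126066816545818656)) (.cons (.br (nat_lit 7) (nat_lit 1) (.cons (.rf (nat_lit 121) (nat_lit 14242959524133701664)) (.cons (.rf (nat_lit 121) (nat_lit 13126066816545818656)) .nil))) .nil)))) .nil))),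
 (.br (nat_lit 3) (nat_lit 1) (.cons (.br (nat_lit 5) (nat_lit 0) (.cons (.rf (nat_lit 25) (nat_lit 4301424675)) (.cons (.br (nat_lit 4) (nat_lit 1) (.cons (.rf (nat_lit 50) (nat_lit 240658843683)) (.cons (.br (nat_lit 6) (nat_lit 0) (.cons (.rf (nat_lit 88) (nat_lit 9036751865891)) (.cons (.rf (nat_lit 111) (nat_lit 9036751865891)) (.cons (.br (nat_lit 6) (nat_lit 0) (.cons (.rf (nat_lit 88) (nat_lit 9036751865891)) (.cons (.rf (nat_lit 111) (nat_lit 9036751865891)) (.cons (.br (nat_lit 0) (nat_lit 1) (.cons (.rf (nat_lit 88) (nat_lit 6837697153060)) (.cons (.br (nat_lit 0) (nat_lit 1) (.cons (.rf (nat_lit 88) (nat_lit 6837697153060)) (.cons (.br (nat_lit 8) (nat_lit 0) (.cons (.rf (nat_lit 111) (nat_lit 6837697153060)) (.cons (.rf (nat_lit 122) (nat_lit 14242959517659858979)) (.cons (.rf (nat_lit 122) (nat_lit 14241868802125105187)) .nil)))) .nil))) .nil))) .nil)))) .nil)))) .nil))) .nil))) .nil)),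
 (.br (nat_lit 10) (nat_lit 1) (.cons (.zr (nat_lit 2441463905678042171703296) (nat_lit 81130566869709932711688064401412) (nat_lit 20) (nat_lit 7)) .nil)),
 (.br (nat_lit 4) (nat_lit 1) (.cons (.kr (nat_lit 4722366482873940181248) (nat_lit 1208925819614629191548928) (nat_lit 1) (nat_lit 0)) (.cons (.rf (nat_lit 124) (nat_lit 493858305440582043680)) (.cons (.rf (nat_lit 124) (nat_lit 492741412732994160672)) .nil)))),
 (.br (nat_lit 2) (nat_lit 1) (.cons (.kr (nat_lit 4294967552) (nat_lit 16842752) (nat_lit 1) (nat_lit 0)) (.cons (.rf (nat_lit 125) (nat_lit 493858305440582043680)) (.cons (.rf (nat_lit 125) (nat_lit 493857214725047289888)) (.cons (.rf (nat_lit 125) (nat_lit 491482725939696207904)) (.cons (.rf (nat_lit 125) (nat_lit 491481635224161454112)) .nil)))))),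
 (.br (nat_lit 8) (nat_lit 1) (.cons (.br (nat_lit 11) (nat_lit 0) (.cons (.br (nat_lit 12) (nat_lit 0) (.cons (.br (nat_lit 1) (nat_lit 1) (.cons (.kr (nat_lit 256) (nat_lit 65536) (nat_lit 1) (nat_lit 0)) (.cons (.rf (nat_lit 126) (nat_lit 493858305440582043680)) (.cons (.rf (nat_lit 126) (nat_lit 493858305440581027872)) (.cons (.rf (nat_lit 126) (nat_lit 309383903695209793573)) (.cons (.rf (nat_lit 126) (nat_lit 309383903695208777765)) (.cons (.rf (nat_lit 126) (nat_lit 270112514977827227686)) (.cons (.rf (nat_lit 126) (nat_lit 270112514977826211878)) .nil)))))))) .nil)) .nil)) .nil)),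
 (.br (nat_lit 11) (nat_lit 1) (.cons (.zr (nat_lit 81129638438218515236058612892928) (nat_lit 2168812938907453004273811457) (nat_lit 5) (nat_lit 0)) .nil)),
 (.br (nat_lit 4) (nat_lit 1) (.cons (.rf (nat_lit 128) (nat_lit 493858305440582043680)) (.cons (.rf (nat_lit 128) (nat_lit 491587432366542458976)) (.cons (.ev (nat_lit 20282409608392483932369877729536) (nat_lit 1)) .nil)))),
 (.br (nat_lit 2) (nat_lit 1) (.cons (.kr (nat_lit 4294967552) (nat_lit 16842752) (nat_lit 1) (nat_lit 0)) (.cons (.rf (nat_lit 129) (nat_lit 493858305440582043680)) (.cons (.rf (nat_lit 129) (nat_lit 492740320952307517472)) (.cons (.rf (nat_lit 129) (nat_lit 491482727004848097312)) (.cons (.rf (nat_lit 129) (nat_lit 490364742516573571104)) .nil)))))),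
 (.br (nat_lit 4) (nat_lit 1) (.cons (.zr (nat_lit 928455029464039617105756160) (nat_lit 20282412021521828736348324889089) (nat_lit 5) (nat_lit 7)) .nil)),
 (.br (nat_lit 4) (nat_lit 1) (.cons (.zr (nat_lit 928455103251011501012550400) (nat_lit 20282412021503381993382716899329) (nat_lit 5) (nat_lit 6)) .nil)),
 (.br (nat_lit 4) (nat_lit 1) (.cons (.ev (nat_lit 81215391230567011069004040833804) (nat_lit 5)) .nil)),
 (.br (nat_lit 2) (nat_lit 1) (.cons (.rf (nat_lit 130) (nat_lit 493858305440582042688)) (.cons (.rf (nat_lit 130) (nat_lit 493858305440581026880)) (.cons (.br (nat_lit 3) (nat_lit 1) (.cons (.kr (nat_lit 16777216) (nat_lit 4294967296) (nat_lit 3) (nat_lit 0)) (.cons (.rf (nat_lit 131) (nat_lit 493858305440582043680)) (.cons (.rf (nat_lit 131) (nat_lit 492740320952307516480)) .nil)))) (.cons (.br (nat_lit 3) (nat_lit 1) (.cons (.kr (nat_lit 16777216) (nat_lit 4294967296) (nat_lit 3) (nat_lit 0)) (.cons (.rf (nat_lit 132) (nat_lit 493858305440582043680)) (.cons (.rf (nat_lit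 132) (nat_lit 491482727004848096320)) .nil)))) (.cons (.br (nat_lit 3) (nat_lit 1) (.cons (.ev (nat_lit 20282409608392483932365599604736) (nat_lit 1)) (.cons (.rf (nat_lit 133) (nat_lit 493858305440582043680)) (.cons (.rf (nat_lit 133) (nat_lit 490364742516573570112)) .nil)))) .nil)))))),
 (.br (nat_lit 8) (nat_lit 1) (.cons (.br (nat_lit 10) (nat_lit 0) (.cons (.br (nat_lit 12) (nat_lit 0) (.cons (.br (nat_lit 1) (nat_lit 1) (.cons (.kr (nat_lit 256) (nat_lit 65536) (nat_lit 1) (nat_lit 0)) (.cons (.rf (nat_lit 130) (nat_lit 493858305440582043680)) (.cons (.rf (nat_lit 130) (nat_lit 493858305440581027872)) (.cons (.rf (nat_lit 134) (nat_lit 493858305440582043680)) (.cons (.rf (nat_lit 134) (nat_lit 492740320952307517472)) (.cons (.rf (nat_lit 134) (nat_lit 491482727004848097312)) (.cons (.rf (nat_lit 134) (nat_lit 490364742516573571104)) .nil)))))))) .nil)) .nil)) .nil)),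
 (.br (nat_lit 11) (nat_lit 0) (.cons (.rf (nat_lit 123) (nat_lit 377720928)) (.cons (.br (nat_lit 8) (nat_lit 1) (.cons (.rf (nat_lit 135) (nat_lit 493858305440582043680)) (.cons (.rf (nat_lit 135) (nat_lit 491482727004848097312)) .nil))) .nil))),
 (.br (nat_lit 9) (nat_lit 0) (.cons (.rf (nat_lit 123) (nat_lit 310612064)) (.cons (.br (nat_lit 7) (nat_lit 1) (.cons (.br (nat_lit 10) (nat_lit 0) (.cons (.rf (nat_lit 123) (nat_lit 344166496)) (.cons (.br (nat_lit 8) (nat_lit 1) (.cons (.rf (nat_lit 127) (nat_lit 493858305440582043680)) (.cons (.rf (nat_lit 127) (nat_lit 492741412732994160672)) .nil))) .nil))) (.cons (.rf (nat_lit 136) (nat_lit 493858305440582043680)) (.cons (.rf (nat_lit 136) (nat_lit 492741412732994160672)) .nil)))) .nil)))]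

theorem c3 : chkAll C T R L3 (nat_lit 106) = true := by decide +kernel

theorem l3 : (nat_lit 106) + L3.length = (nat_lit 138) := by decide +kernel

/-- part of the certificates -/
def L4 : List Prf := [(.br (nat_lit 9) (nat_lit 0) (.cons (.rf (nat_lit 137) (nat_lit 14242959524133701664)) (.cons (.rf (nat_lit 137) (nat_lit 14242958458981812256)) (.cons (.br (nat_lit 9) (nat_lit 0) (.cons (.rf (nat_lit 137) (nat_lit 14242959524133701664)) (.cons (.rf (nat_lit 137) (nat_lit 14242958458981812256)) .nil))) .nil)))),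
 (.br (nat_lit 8) (nat_lit 1) (.cons (.br (nat_lit 11) (nat_lit 0) (.cons (.br (nat_lit 12) (nat_lit 0) (.cons (.rf (nat_lit 138) (nat_lit 11858097945893505062)) .nil)) .nil)) .nil)),
 (.br (nat_lit 12) (nat_lit 0) (.cons (.br (nat_lit 12) (nat_lit 0) .nil) .nil)),
 (.br (nat_lit 11) (nat_lit 1) (.cons (.ev (nat_lit 20282719088679938514189214089216) (nat_lit 1)) (.cons (.ev (nat_lit 20282719088661564108084990771456) (nat_lit 1)) (.cons (.ev (nat_lit 310693954159761365646967041) (nat_lit 1)) .nil)))),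
 (.br (nat_lit 2) (nat_lit 1) (.cons (.br (nat_lit 9) (nat_lit 1) (.cons (.zr (nat_lit 3640944558855446413180932) (nat_lit 20282409603670189230021635211776) (nat_lit 5) (nat_lit 8)) (.cons (.br (nat_lit 10) (nat_lit 1) (.cons (.zr (nat_lit 932081806922879093698461700) (nat_lit 20282409603670189508189520789504) (nat_lit 5) (nat_lit 13)) .nil)) (.cons (.ev (nat_lit 20282409608392483932369877729536) (nat_lit 1)) .nil)))) (.cons (.br (nat_lit 4) (nat_lit 1) (.cons (.br (nat_lit 11) (nat_lit 1) (.cons (.zr (nat_lit 81129638414606681695789055672320) (nat_lit 621387889801003638034792449) (nat_lit 5) (nat_lit 0)) .nil)) (.cons (.zr (nat_lit 81129638428773853201991978713856) (nat_lit 618970074983204941656489985) (nat_lit 5) (nat_lit 5)) (.cons (.ev (nat_lit 20282409608392483932369877729536) (nat_lit 1)) .nil)))) (.cons (.rf (nat_lit 141) (nat_lit 493858305440582043680)) (.cons (.rf (nat_lit 141) (nat_lit 305888013276852618310)) (.cons (.br (nat_lit 4) (nat_lit 1) (.cons (.ev (nat_lit 40644047374539972233510997131776)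 (nat_lit 2)) (.cons (.br (nat_lit 9) (nat_lit 1) (.cons (.zr (nat_lit 141976872061265475837002456301568) (nat_lit 309508769229963849390620680) (nat_lit 15) (nat_lit 5)) .nil)) (.cons (.br (nat_lit 9) (nat_lit 1) (.cons (.zr (nat_lit 81129642041384428770052731502592) (nat_lit 618970130323437175670046721) (nat_lit 5) (nat_lit 5)) .nil)) .nil)))) .nil)))))),
 (.br (nat_lit 10) (nat_lit 0) (.cons (.br (nat_lit 8) (nat_lit 1) (.cons (.rf (nat_lit 140) (nat_lit 14242959524133701664)) (.cons (.br (nat_lit 11) (nat_lit 0) (.cons (.br (nat_lit 12) (nat_lit 0) (.cons (.br (nat_lit 1) (nat_lit 1) (.cons (.kr (nat_lit 256) (nat_lit 65536) (nat_lit 1) (nat_lit 0)) (.cons (.rf (nat_lit 142) (nat_lit 493858305440582043680)) (.cons (.rf (nat_lit 142) (nat_lit 307015291765309704224)) (.cons (.rf (nat_lit 142) (nat_lit 492734445162007398437)) (.cons (.rf (nat_lit 142) (nat_lit 262987011121598498853)) (.cons (.rf (nat_lit 142) (nat_lit 305888013276852619302)) (.cons (.rf (nat_lit 142) (nat_lit 261867790919661914150))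 .nil)))))))) .nil)) .nil)) .nil))) .nil)),
 (.br (nat_lit 10) (nat_lit 0) (.cons (.rf (nat_lit 143) (nat_lit 493858305440582043680)) (.cons (.br (nat_lit 10) (nat_lit 0) (.cons (.rf (nat_lit 143) (nat_lit 493858305440582043680)) .nil)) .nil))),
 (.br (nat_lit 7) (nat_lit 1) (.cons (.br (nat_lit 10) (nat_lit 0) (.cons (.rf (nat_lit 123) (nat_lit 109291813)) (.cons (.br (nat_lit 8) (nat_lit 1) (.cons (.rf (nat_lit 139) (nat_lit 493858305440582043680)) (.cons (.rf (nat_lit 139) (nat_lit 492741412732994160672)) .nil))) .nil))) (.cons (.rf (nat_lit 144) (nat_lit 493858305440582043680)) (.cons (.rf (nat_lit 144) (nat_lit 492741412732994160672)) .nil)))),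
 (.br (nat_lit 9) (nat_lit 0) (.cons (.rf (nat_lit 145) (nat_lit 493858305440582043680)) (.cons (.rf (nat_lit 145) (nat_lit 309390870201043650592)) .nil))),
 (.br (nat_lit 4) (nat_lit 0) (.cons (.rf (nat_lit 138) (nat_lit 14242959524133701664)) (.cons (.br (nat_lit 7) (nat_lit 1) (.cons (.rf (nat_lit 146) (nat_lit 493858305440582043680)) (.cons (.rf (nat_lit 146) (nat_lit 493857214725047289888)) (.cons (.rf (nat_lit 146) (nat_lit 491482727004848097312)) (.cons (.rf (nat_lit 146) (nat_lit 491481636289313343520)) .nil))))) .nil))),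
 (.br (nat_lit 3) (nat_lit 0) (.cons (.rf (nat_lit 123) (nat_lit 105908262)) (.cons (.rf (nat_lit 123) (nat_lit 106956837)) (.cons (.br (nat_lit 3) (nat_lit 0) (.cons (.rf (nat_lit 123) (nat_lit 105908262)) (.cons (.rf (nat_lit 123) (nat_lit 106956837)) (.cons (.br (nat_lit 5) (nat_lit 1) (.cons (.rf (nat_lit 123) (nat_lit 139462694)) (.cons (.br (nat_lit 5) (nat_lit 1) (.cons (.rf (nat_lit 123) (nat_lit 139462694)) (.cons (.br (nat_lit 6) (nat_lit 1) (.cons (.rf (nat_lit 123) (nat_lit 140511269)) (.cons (.rf (nat_lit 123) (nat_lit 308447264)) (.cons (.rf (nat_lit 123) (nat_lit 342001696)) (.cons (.br (nat_lit 6) (nat_lit 1) (.cons (.rf (nat_lit 123) (nat_lit 140511269)) (.cons (.rf (nat_lit 123) (nat_lit 308447264)) (.cons (.rf (nat_lit 123) (nat_lit 342001696)) (.cons (.br (nat_lit 4) (nat_lit 0) (.cons (.rf (nat_lit 147) (nat_lit 14242959524133701664)) (.cons (.rf (nat_lit 147) (nat_lit 14242958458981812256)) (.cons (.br (nat_lit 4) (nat_lit 0) (.cons (.rf (nat_lit 147) (nat_lit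 14242959524133701664)) (.cons (.rf (nat_lit 147) (nat_lit 14242958458981812256)) .nil))) .nil)))) .nil))))) .nil))))) .nil))) .nil))) .nil)))) .nil)))),
 (.br (nat_lit 4) (nat_lit 1) (.cons (.br (nat_lit 10) (nat_lit 1) (.cons (.ev (nat_lit 80157826525105239069007282434) (nat_lit 2)) .nil)) (.cons (.br (nat_lit 9) (nat_lit 1) (.cons (.zr (nat_lit 6044702885049440711738624) (nat_lit 79847141978712333647400271873) (nat_lit 5) (nat_lit 6)) .nil)) (.cons (.zr (nat_lit 72339086261616647) (nat_lit 20441175413726913941146576093184) (nat_lit 15) (nat_lit 0)) .nil)))),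
 (.br (nat_lit 13) (nat_lit 1) (.cons (.rf (nat_lit 149) (nat_lit 420143386706495767616)) (.cons (.rf (nat_lit 149) (nat_lit 415530614370579121216)) (.cons (.br (nat_lit 3) (nat_lit 1) (.cons (.zr (nat_lit 79228162532783420757776663814) (nat_lit 932081806922894486861250560) (nat_lit 20) (nat_lit 0)) .nil)) .nil)))),
 (.br (nat_lit 11) (nat_lit 1) (.cons (.rf (nat_lit 149) (nat_lit 493858305440582043680)) (.cons (.rf (nat_lit 149) (nat_lit 489245533104665397280)) (.cons (.rf (nat_lit 150) (nat_lit 493858305440582043680)) (.cons (.rf (nat_lit 150) (nat_lit 489245533104665397280)) (.cons (.kr (nat_lit 20282409603651670423947251286272) (nat_lit 309485009821345068724846592) (nat_lit 1) (nat_lit 0)) .nil)))))),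
 (.br (nat_lit 3) (nat_lit 1) (.cons (.rf (nat_lit 151) (nat_lit 377344621924638036064)) (.cons (.ev (nat_lit 18663482004850409986) (nat_lit 2)) (.cons (.br (nat_lit 4) (nat_lit 1) (.cons (.ev (nat_lit 79228162532927538136302551810) (nat_lit 2)) .nil)) .nil)))),
 (.br (nat_lit 2) (nat_lit 1) (.cons (.rf (nat_lit 151) (nat_lit 420038675884855561280)) (.cons (.rf (nat_lit 151) (nat_lit 415390996391219204160)) (.cons (.zr (nat_lit 79228162532711081667253765127) (nat_lit 1213648330784432942219264) (nat_lit 15) (nat_lit 0)) (.cons (.rf (nat_lit 152) (nat_lit 493858305440582043680)) (.cons (.br (nat_lit 3) (nat_lit 1) (.cons (.rf (nat_lit 151) (nat_lit 377344621924638036064)) (.cons (.rf (nat_lit 152) (nat_lit 493823401478318001184)) (.cons (.zr (nat_lit 79228162514336395187648988167) (nat_lit 309489769081887831835541504) (nat_lit 15) (nat_lit 0)) .nil)))) .nil)))))),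
 (.br (nat_lit 8) (nat_lit 1) (.cons (.br (nat_lit 11) (nat_lit 0) (.cons (.br (nat_lit 12) (nat_lit 1) (.cons (.br (nat_lit 1) (nat_lit 1) (.cons (.rf (nat_lit 151) (nat_lit 493858305440582043680)) (.cons (.rf (nat_lit 151) (nat_lit 493823401478318001184)) (.cons (.rf (nat_lit 151) (nat_lit 489175721984681644064)) (.cons (.rf (nat_lit 153) (nat_lit 493858305440582043680)) (.cons (.rf (nat_lit 153) (nat_lit 489245533104665397280)) (.cons (.rf (nat_lit 153) (nat_lit 488056618021770365984)) (.cons (.br (nat_lit 2) (nat_lit 1) (.cons (.rf (nat_lit 151) (nat_lit 420038675884855561280)) (.cons (.rf (nat_lit 151) (nat_lit 415390996391219204160)) (.cons (.rf (nat_lit 153) (nat_lit 420143386706495767616)) (.cons (.rf (nat_lit 153) (nat_lit 415530614370579121216)) (.cons (.br (nat_lit 3) (nat_lit 1) (.cons (.ev (nat_lit 20283957028701210060012702990594) (nat_lit 3)) (.cons (.ev (nat_lit 36966392365444169986) (nat_lit 2)) (.cons (.br (nat_lit 4) (nat_lit 1) (.cons (.ev (nat_lit 79228162569821589233641521410)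 (nat_lit 2)) .nil)) .nil)))) .nil)))))) .nil)))))))) .nil)) .nil)) .nil)),
 (.br (nat_lit 10) (nat_lit 0) (.cons (.rf (nat_lit 148) (nat_lit 8836393254)) (.cons (.br (nat_lit 7) (nat_lit 1) (.cons (.br (nat_lit 11) (nat_lit 0) (.cons (.rf (nat_lit 123) (nat_lit 343092520)) (.cons (.rf (nat_lit 123) (nat_lit 309538124)) .nil))) (.cons (.br (nat_lit 8) (nat_lit 1) (.cons (.rf (nat_lit 154) (nat_lit 493858305440582043680)) (.cons (.rf (nat_lit 154) (nat_lit 420143386706495767616)) .nil))) .nil))) .nil))),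
 (.br (nat_lit 7) (nat_lit 1) (.cons (.rf (nat_lit 155) (nat_lit 14242959524133701664)) (.cons (.rf (nat_lit 155) (nat_lit 14208056627021580320)) (.cons (.br (nat_lit 7) (nat_lit 1) (.cons (.rf (nat_lit 155) (nat_lit 14242959524133701664)) (.cons (.rf (nat_lit 155) (nat_lit 14208056627021580320)) .nil))) .nil)))),
 (.br (nat_lit 9) (nat_lit 0) (.cons (.rf (nat_lit 156) (nat_lit 14242959524133701664)) (.cons (.rf (nat_lit 156) (nat_lit 9631277903751809056)) .nil))),
 (.br (nat_lit 11) (nat_lit 0) (.cons (.br (nat_lit 11) (nat_lit 0) .nil) .nil)),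
 (.br (nat_lit 11) (nat_lit 0) (.cons (.br (nat_lit 12) (nat_lit 1) (.cons (.br (nat_lit 12) (nat_lit 1) .nil) .nil)) .nil)),
 (.br (nat_lit 10) (nat_lit 0) (.cons (.br (nat_lit 8) (nat_lit 1) (.cons (.rf (nat_lit 159) (nat_lit 14242959524133701664)) (.cons (.br (nat_lit 8) (nat_lit 1) (.cons (.rf (nat_lit 159) (nat_lit 14242959524133701664)) .nil)) .nil))) .nil)),
 (.br (nat_lit 7) (nat_lit 1) (.cons (.br (nat_lit 8) (nat_lit 1) (.cons (.br (nat_lit 8) (nat_lit 1) (.cons (.rf (nat_lit 158) (nat_lit 407901468851537952)) .nil)) (.cons (.rf (nat_lit 158) (nat_lit 407901468851537952)) .nil))) (.cons (.br (nat_lit 10) (nat_lit 0) (.cons (.rf (nat_lit 160) (nat_lit 407901468851537952)) (.cons (.br (nat_lit 10) (nat_lit 0) (.cons (.rf (nat_lit 160) (nat_lit 407901468851537952)) .nil)) .nil))) .nil))),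
 (.br (nat_lit 11) (nat_lit 0) (.cons (.br (nat_lit 11) (nat_lit 0) .nil) .nil)),
 (.br (nat_lit 7) (nat_lit 1) (.cons (.rf (nat_lit 161) (nat_lit 11584701642934304)) (.cons (.br (nat_lit 9) (nat_lit 0) (.cons (.br (nat_lit 10) (nat_lit 0) (.cons (.br (nat_lit 8) (nat_lit 1) (.cons (.br (nat_lit 11) (nat_lit 0) (.cons (.br (nat_lit 12) (nat_lit 1) (.cons (.rf (nat_lit 140) (nat_lit 15034252519901572423)) .nil)) .nil)) (.cons (.rf (nat_lit 162) (nat_lit 14242959524133701664)) .nil))) (.cons (.br (nat_lit 8) (nat_lit 1) (.cons (.br (nat_lit 8) (nat_lit 1) (.cons (.rf (nat_lit 162) (nat_lit 13161918626389888037)) .nil)) (.cons (.rf (nat_lit 162) (nat_lit 13161918626389888037)) .nil))) .nil))) (.cons (.br (nat_lit 10) (nat_lit 0) (.cons (.br (nat_lit 8) (nat_lit 1) (.cons (.br (nat_lit 8) (nat_lit 1) (.cons (.rf (nat_lit 162) (nat_lit 13161918626389888037)) .nil)) (.cons (.rf (nat_lit 162) (nat_lit 13161918626389888037)) .nil))) (.cons (.br (nat_lit 8) (nat_lit 1) (.cons (.br (nat_lit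 8) (nat_lit 1) (.cons (.rf (nat_lit 162) (nat_lit 13161918626389888037)) .nil)) (.cons (.rf (nat_lit 162) (nat_lit 13161918626389888037)) .nil))) .nil))) .nil))) .nil))),
 (.br (nat_lit 11) (nat_lit 0) (.cons (.br (nat_lit 12) (nat_lit 0) (.cons (.rf (nat_lit 123) (nat_lit 349450599)) .nil)) .nil)),
 (.br (nat_lit 8) (nat_lit 1) (.cons (.rf (nat_lit 164) (nat_lit 493858305440582043680)) .nil)),
 (.br (nat_lit 10) (nat_lit 0) (.cons (.br (nat_lit 8) (nat_lit 1) (.cons (.rf (nat_lit 165) (nat_lit 493858305440582043680)) (.cons (.rf (nat_lit 165) (nat_lit 492741412732994160672)) .nil))) .nil)),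
 (.br (nat_lit 7) (nat_lit 1) (.cons (.rf (nat_lit 161) (nat_lit 11584701642934304)) (.cons (.rf (nat_lit 163) (nat_lit 11584701642934304)) (.cons (.br (nat_lit 7) (nat_lit 1) (.cons (.rf (nat_lit 161) (nat_lit 11584701642934304)) (.cons (.rf (nat_lit 163) (nat_lit 11584701642934304)) (.cons (.br (nat_lit 9) (nat_lit 0) (.cons (.br (nat_lit 10) (nat_lit 0) (.cons (.rf (nat_lit 163) (nat_lit 11407714468039717)) (.cons (.br (nat_lit 10) (nat_lit 0) (.cons (.rf (nat_lit 163) (nat_lit 11407714468039717)) .nil)) .nil))) (.cons (.br (nat_lit 10) (nat_lit 0) (.cons (.rf (nat_lit 166) (nat_lit 493858305440582043680)) (.cons (.br (nat_lit 10) (nat_lit 0) (.cons (.rf (nat_lit 166) (nat_lit 493858305440582043680)) .nil)) .nil))) .nil))) .nil)))) .nil)))),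
 (.br (nat_lit 8) (nat_lit 1) (.cons (.br (nat_lit 12) (nat_lit 0) (.cons (.br (nat_lit 11) (nat_lit 1) (.cons (.rf (nat_lit 123) (nat_lit 344176011)) .nil)) .nil)) .nil)),
 (.br (nat_lit 8) (nat_lit 1) (.cons (.rf (nat_lit 164) (nat_lit 421260278382217758752)) .nil)),
 (.br (nat_lit 7) (nat_lit 1) (.cons (.br (nat_lit 7) (nat_lit 1) (.cons (.br (nat_lit 10) (nat_lit 0) (.cons (.br (nat_lit 8) (nat_lit 1) (.cons (.rf (nat_lit 168) (nat_lit 493858305440582043680)) (.cons (.rf (nat_lit 168) (nat_lit 458117738797769787424)) .nil))) (.cons (.br (nat_lit 8) (nat_lit 1) (.cons (.rf (nat_lit 169) (nat_lit 493858305440582043680)) (.cons (.rf (nat_lit 169) (nat_lit 458117738797769787424)) .nil))) .nil))) .nil)) .nil)),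
 (.br (nat_lit 8) (nat_lit 0) (.cons (.rf (nat_lit 123) (nat_lit 240263264)) (.cons (.rf (nat_lit 123) (nat_lit 106045670)) (.cons (.br (nat_lit 0) (nat_lit 1) (.cons (.br (nat_lit 1) (nat_lit 0) (.cons (.rf (nat_lit 167) (nat_lit 11339469744774244)) (.cons (.rf (nat_lit 167) (nat_lit 11336274289074276)) (.cons (.br (nat_lit 2) (nat_lit 0) (.cons (.rf (nat_lit 167) (nat_lit 11304285340179557)) (.cons (.rf (nat_lit 167) (nat_lit 11301089884479589)) (.cons (.br (nat_lit 6) (nat_lit 1) (.cons (.rf (nat_lit 170) (nat_lit 407656236953377892)) (.cons (.br (nat_lit 6) (nat_lit 1) (.cons (.rf (nat_lit 170) (nat_lit 407656236953377892)) (.cons (.br (nat_lit 6) (nat_lit 1) (.cons (.rf (nat_lit 170) (nat_lit 407656236953377892)) .nil)) .nil))) .nil))) .nil)))) .nil)))) .nil)) .nil)))),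
 (.br (nat_lit 7) (nat_lit 0) (.cons (.rf (nat_lit 123) (nat_lit 274898016)) (.cons (.rf (nat_lit 171) (nat_lit 9041112827936)) (.cons (.rf (nat_lit 171) (nat_lit 9046481537056)) .nil)))),
 (.br (nat_lit 4) (nat_lit 1) (.cons (.br (nat_lit 10) (nat_lit 1) (.cons (.ev (nat_lit 20283351361624554880237594152200) (nat_lit 4)) .nil)) (.cons (.br (nat_lit 9) (nat_lit 1) (.cons (.zr (nat_lit 6044702885049440711738624) (nat_lit 79847141978712333647400271873) (nat_lit 5) (nat_lit 6)) .nil)) (.cons (.br (nat_lit 9) (nat_lit 1) (.cons (.zr (nat_lit 158462369694520236480464422151) (nat_lit 1856914781511579289425870848) (nat_lit 15) (nat_lit 0)) .nil)) .nil))))]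

theorem c4 : chkAll C T R L4 (nat_lit 138) = true := by decide +kernel

theorem l4 : (nat_lit 138) + L4.length = (nat_lit 174) := by decide +kernel

/-- part of the certificates -/
def L5 : List Prf := [(.br (nat_lit 3) (nat_lit 1) (.cons (.br (nat_lit 10) (nat_lit 1) (.cons (.zr (nat_lit 932081806922883491795304448) (nat_lit 79228186144615835084494340097) (nat_lit 5) (nat_lit 6)) .nil)) (.cons (.br (nat_lit 9) (nat_lit 1) (.cons (.ev (nat_lit 20283339319811673843430495030536) (nat_lit 4)) .nil)) (.cons (.rf (nat_lit 173) (nat_lit 420143386706495767616)) .nil)))),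
 (.br (nat_lit 13) (nat_lit 1) (.cons (.rf (nat_lit 173) (nat_lit 420143386706495767616)) (.cons (.rf (nat_lit 174) (nat_lit 420143386706495767616)) (.cons (.br (nat_lit 3) (nat_lit 1) (.cons (.zr (nat_lit 317841105086521385580400672768) (nat_lit 2441481990727848811298817) (nat_lit 5) (nat_lit 0)) .nil)) .nil)))),
 (.br (nat_lit 11) (nat_lit 1) (.cons (.rf (nat_lit 173) (nat_lit 493858305440582043680)) (.cons (.rf (nat_lit 174) (nat_lit 493858305440582043680)) (.cons (.rf (nat_lit 175) (nat_lit 493858305440582043680)) (.cons (.br (nat_lit 13) (nat_lit 1) (.cons (.rf (nat_lit 173) (nat_lit 420143386706495767616)) (.cons (.rf (nat_lit 174) (nat_lit 420143386706495767616)) (.cons (.rf (nat_lit 175) (nat_lit 420143386706495767616)) .nil)))) (.cons (.kr (nat_lit 20282409603651670423947251286272) (nat_lit 309485009821345068724846592) (nat_lit 1) (nat_lit 0)) .nil)))))),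
 (.br (nat_lit 13) (nat_lit 1) (.cons (.br (nat_lit 4) (nat_lit 1) (.cons (.br (nat_lit 10) (nat_lit 1) (.cons (.ev (nat_lit 20287057975485234498944148636936) (nat_lit 4)) .nil)) (.cons (.br (nat_lit 9) (nat_lit 1) (.cons (.zr (nat_lit 928455029752265582376386560) (nat_lit 79230580384350593500091383809) (nat_lit 5) (nat_lit 8)) .nil)) (.cons (.br (nat_lit 9) (nat_lit 1) (.cons (.zr (nat_lit 1232592993105623459954696) (nat_lit 159694265068318466316901023744) (nat_lit 10) (nat_lit 0)) .nil)) .nil)))) (.cons (.br (nat_lit 2) (nat_lit 1) (.cons (.br (nat_lit 10) (nat_lit 1) (.cons (.zr (nat_lit 239231912591899738128567828483) (nat_lit 4854629782558479751315456) (nat_lit 10) (nat_lit 0)) .nil)) (.cons (.br (nat_lit 9) (nat_lit 1) (.cons (.zr (nat_lit 239231912591899738128567828483) (nat_lit 4854629782558479751315456) (nat_lit 10) (nat_lit 0)) .nil)) (.cons (.br (nat_lit 9) (nat_lit 1) (.cons (.ev (nat_lit 20758715529304311402002186174726) (nat_lit 3)) .nil)) .nil)))) (.cons (.br (nat_lit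 2) (nat_lit 1) (.cons (.br (nat_lit 10) (nat_lit 1) (.cons (.zr (nat_lit 316912650057057350387111034880) (nat_lit 2427314891279239875657729) (nat_lit 5) (nat_lit 0)) .nil)) (.cons (.br (nat_lit 4) (nat_lit 1) (.cons (.zr (nat_lit 1237315359588497400070152) (nat_lit 160003750078139811385625804800) (nat_lit 10) (nat_lit 0)) .nil)) (.cons (.br (nat_lit 4) (nat_lit 1) (.cons (.ev (nat_lit 20759946187491518365751457547526) (nat_lit 3)) .nil)) .nil)))) (.cons (.kr (nat_lit 20282409603651670423947251286272) (nat_lit 1208925819614629191483392) (nat_lit 1) (nat_lit 0)) (.cons (.rf (nat_lit 176) (nat_lit 73827619989398795628)) .nil)))))),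
 (.br (nat_lit 9) (nat_lit 1) (.cons (.br (nat_lit 11) (nat_lit 1) (.cons (.br (nat_lit 10) (nat_lit 1) (.cons (.zr (nat_lit 7258332625247290769342472) (nat_lit 160003750078139811402738565120) (nat_lit 10) (nat_lit 0)) .nil)) (.cons (.br (nat_lit 3) (nat_lit 1) (.cons (.zr (nat_lit 239231912591899738128567828483) (nat_lit 4854629782558479751315456) (nat_lit 10) (nat_lit 0)) .nil)) (.cons (.rf (nat_lit 176) (nat_lit 73827619989398795628)) .nil)))) (.cons (.br (nat_lit 11) (nat_lit 1) (.cons (.br (nat_lit 10) (nat_lit 1) (.cons (.ev (nat_lit 20759946187565018233189117134086) (nat_lit 3)) .nil)) (.cons (.br (nat_lit 2) (nat_lit 1) (.cons (.zr (nat_lit 14167100574508842680320) (nat_lit 79847132552425830506842554369) (nat_lit 5) (nat_lit 5)) .nil)) (.cons (.rf (nat_lit 176) (nat_lit 73827619989398795628)) .nil)))) (.cons (.br (nat_lit 2) (nat_lit 1) (.cons (.rf (nat_lit 177) (nat_lit 420143386706495767616)) (.cons (.br (nat_lit 3) (nat_lit 1) (.cons (.ev (nat_lit 20758715529304311402002186174726)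 (nat_lit 3)) .nil)) (.cons (.br (nat_lit 3) (nat_lit 1) (.cons (.zr (nat_lit 6049406805632661577924616) (nat_lit 159694265068318466334013784064) (nat_lit 10) (nat_lit 0)) .nil)) .nil)))) (.cons (.rf (nat_lit 177) (nat_lit 73827619989398795628)) (.cons (.kr (nat_lit 20282409603651670423947251286272) (nat_lit 4722366482873940180992) (nat_lit 1) (nat_lit 0)) .nil)))))),
 (.br (nat_lit 13) (nat_lit 1) (.cons (.br (nat_lit 10) (nat_lit 1) (.cons (.br (nat_lit 4) (nat_lit 1) (.cons (.ev (nat_lit 20287053158818995915750952865032) (nat_lit 4)) .nil)) (.cons (.br (nat_lit 3) (nat_lit 1) (.cons (.zr (nat_lit 928455029752265582326056192) (nat_lit 79228171977444329989622333441) (nat_lit 5) (nat_lit 6)) .nil)) (.cons (.rf (nat_lit 178) (nat_lit 73827619989398795628)) .nil)))) (.cons (.br (nat_lit 2) (nat_lit 1) (.cons (.rf (nat_lit 178) (nat_lit 420143386706495767616)) (.cons (.br (nat_lit 4) (nat_lit 1) (.cons (.zr (nat_lit 158456325065422163334507332871) (nat_lit 1213648403123506268602368)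 (nat_lit 15) (nat_lit 0)) .nil)) (.cons (.br (nat_lit 4) (nat_lit 1) (.cons (.ev (nat_lit 20759951042084262755763849987334) (nat_lit 3)) .nil)) .nil)))) (.cons (.kr (nat_lit 20282409603651670423947251286272) (nat_lit 4722366482873940180992) (nat_lit 1) (nat_lit 0)) (.cons (.rf (nat_lit 178) (nat_lit 36970160605712657836)) (.cons (.rf (nat_lit 176) (nat_lit 73827619989398795628)) .nil)))))),
 (.br (nat_lit 2) (nat_lit 1) (.cons (.rf (nat_lit 177) (nat_lit 420143386706495767616)) (.cons (.rf (nat_lit 178) (nat_lit 420143386706495767616)) (.cons (.rf (nat_lit 179) (nat_lit 420143386706495767616)) (.cons (.br (nat_lit 13) (nat_lit 1) (.cons (.kr (nat_lit 20282409603651670423947251286272) (nat_lit 1208925819614629191483392) (nat_lit 1) (nat_lit 0)) (.cons (.br (nat_lit 3) (nat_lit 1) (.cons (.ev (nat_lit 20759951042157762623167284053254) (nat_lit 3)) .nil)) (.cons (.rf (nat_lit 177) (nat_lit 36970160605712657836)) .nil)))) (.cons (.br (nat_lit 11) (nat_lit 1) (.cons (.rf (nat_lit 179)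 (nat_lit 73827619989398795628)) (.cons (.br (nat_lit 3) (nat_lit 1) (.cons (.zr (nat_lit 23611833540248133107712) (nat_lit 79849550404065059756635586561) (nat_lit 5) (nat_lit 5)) .nil)) (.cons (.rf (nat_lit 177) (nat_lit 73827619989398795628)) .nil)))) .nil)))))),
 (.br (nat_lit 8) (nat_lit 1) (.cons (.br (nat_lit 11) (nat_lit 0) (.cons (.br (nat_lit 12) (nat_lit 1) (.cons (.br (nat_lit 1) (nat_lit 1) (.cons (.rf (nat_lit 176) (nat_lit 493858305440582043680)) (.cons (.rf (nat_lit 177) (nat_lit 493858305440582043680)) (.cons (.rf (nat_lit 178) (nat_lit 493858305440582043680)) (.cons (.rf (nat_lit 179) (nat_lit 493858305440582043680)) (.cons (.rf (nat_lit 180) (nat_lit 493858305440582043680)) (.cons (.br (nat_lit 2) (nat_lit 1) (.cons (.rf (nat_lit 177) (nat_lit 420143386706495767616)) (.cons (.rf (nat_lit 178) (nat_lit 420143386706495767616)) (.cons (.rf (nat_lit 179) (nat_lit 420143386706495767616)) (.cons (.rf (nat_lit 180) (nat_lit 420143386706495767616)) (.cons (.kr (nat_lit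 20282409603651670423947251286272) (nat_lit 309485009821345068724846592) (nat_lit 1) (nat_lit 0)) .nil)))))) (.cons (.br (nat_lit 2) (nat_lit 1) (.cons (.rf (nat_lit 177) (nat_lit 420143386706495767616)) (.cons (.rf (nat_lit 178) (nat_lit 420143386706495767616)) (.cons (.rf (nat_lit 179) (nat_lit 420143386706495767616)) (.cons (.rf (nat_lit 180) (nat_lit 420143386706495767616)) (.cons (.br (nat_lit 3) (nat_lit 1) (.cons (.ev (nat_lit 72902027558060802) (nat_lit 2)) (.cons (.br (nat_lit 4) (nat_lit 1) (.cons (.ev (nat_lit 20442413353729594059260784869634) (nat_lit 3)) .nil)) (.cons (.br (nat_lit 4) (nat_lit 1) (.cons (.ev (nat_lit 20442413353729594059260784869634) (nat_lit 3)) .nil)) .nil)))) .nil)))))) .nil)))))))) .nil)) .nil)) .nil)),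
 (.br (nat_lit 7) (nat_lit 1) (.cons (.rf (nat_lit 172) (nat_lit 12445948184608)) (.cons (.br (nat_lit 10) (nat_lit 0) (.cons (.br (nat_lit 8) (nat_lit 1) (.cons (.rf (nat_lit 140) (nat_lit 15070281311551794502)) (.cons (.rf (nat_lit 140) (nat_lit 12728409504245429575)) .nil))) (.cons (.br (nat_lit 8) (nat_lit 1) (.cons (.rf (nat_lit 181) (nat_lit 493858305440582043680)) (.cons (.rf (nat_lit 181) (nat_lit 420143386706495767616)) .nil))) .nil))) .nil))),
 (.br (nat_lit 9) (nat_lit 0) (.cons (.rf (nat_lit 171) (nat_lit 3339504919687)) (.cons (.br (nat_lit 7) (nat_lit 1) (.cons (.rf (nat_lit 182) (nat_lit 14242959524133701664)) (.cons (.rf (nat_lit 182) (nat_lit 14208056627021580320)) (.cons (.br (nat_lit 7) (nat_lit 1) (.cons (.rf (nat_lit 182) (nat_lit 14242959524133701664)) (.cons (.rf (nat_lit 182) (nat_lit 14208056627021580320)) .nil))) .nil)))) .nil))),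
 (.br (nat_lit 9) (nat_lit 0) (.cons (.rf (nat_lit 171) (nat_lit 3339504919687)) (.cons (.rf (nat_lit 183) (nat_lit 407901468851537952)) (.cons (.br (nat_lit 9) (nat_lit 0) (.cons (.rf (nat_lit 171) (nat_lit 3339504919687)) (.cons (.rf (nat_lit 183) (nat_lit 407901468851537952)) .nil))) .nil)))),
 (.br (nat_lit 7) (nat_lit 1) (.cons (.rf (nat_lit 171) (nat_lit 3339504919687)) (.cons (.rf (nat_lit 184) (nat_lit 407723383238724677)) (.cons (.rf (nat_lit 184) (nat_lit 443752180257688645)) .nil)))),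
 (.br (nat_lit 8) (nat_lit 1) (.cons (.rf (nat_lit 148) (nat_lit 8829054278)) (.cons (.rf (nat_lit 140) (nat_lit 15106274925238857030)) .nil))),
 (.br (nat_lit 11) (nat_lit 1) (.cons (.br (nat_lit 10) (nat_lit 1) (.cons (.ev (nat_lit 1213666632842676336066561) (nat_lit 1)) .nil)) (.cons (.br (nat_lit 9) (nat_lit 1) (.cons (.ev (nat_lit 1213666632842676336066561) (nat_lit 1)) .nil)) (.cons (.kr (nat_lit 20282409603651670423947251286272) (nat_lit 309485009821345068724846592) (nat_lit 1) (nat_lit 0)) .nil)))),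
 (.br (nat_lit 9) (nat_lit 1) (.cons (.ev (nat_lit 1213666632842676336066561) (nat_lit 1)) .nil)),
 (.br (nat_lit 2) (nat_lit 1) (.cons (.br (nat_lit 9) (nat_lit 1) (.cons (.ev (nat_lit 4740885566016681148416) (nat_lit 1)) (.cons (.br (nat_lit 10) (nat_lit 1) (.cons (.zr (nat_lit 3640944558292496459759620) (nat_lit 79228162532783421844403257344) (nat_lit 5) (nat_lit 7)) .nil)) (.cons (.br (nat_lit 10) (nat_lit 1) (.cons (.zr (nat_lit 3640944558292496459759620) (nat_lit 79228162532783421844403257344) (nat_lit 5) (nat_lit 7)) .nil)) .nil)))) (.cons (.br (nat_lit 4) (nat_lit 1) (.cons (.ev (nat_lit 4740885566016681148416) (nat_lit 1)) (.cons (.zr (nat_lit 928455029608151493761827584) (nat_lit 79228171977444328881554194433) (nat_lit 5) (nat_lit 6)) (.cons (.br (nat_lit 10) (nat_lit 1) (.cons (.zr (nat_lit 3626777458848298455531520) (nat_lit 79228171977516386475592122369) (nat_lit 5) (nat_lit 6)) .nil)) .nil)))) (.cons (.br (nat_lit 11) (nat_lit 1) (.cons (.kr (nat_lit 309485009893402662762708992)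 (nat_lit 79229371440083952222718656512) (nat_lit 7) (nat_lit 0)) (.cons (.br (nat_lit 4) (nat_lit 1) (.cons (.zr (nat_lit 316916276834516194261750251520) (nat_lit 9463252049990116179969) (nat_lit 5) (nat_lit 8)) .nil)) (.cons (.ev (nat_lit 79538856449905298390955130881) (nat_lit 1)) .nil)))) (.cons (.br (nat_lit 4) (nat_lit 1) (.cons (.br (nat_lit 10) (nat_lit 1) (.cons (.zr (nat_lit 864691171623240448) (nat_lit 79859254867115595052106121217) (nat_lit 30) (nat_lit 0)) .nil)) (.cons (.ev (nat_lit 79541274301760699340496699906) (nat_lit 2)) (.cons (.br (nat_lit 9) (nat_lit 1) (.cons (.ev (nat_lit 20443040800471005719997582869254) (nat_lit 3)) .nil)) .nil)))) (.cons (.br (nat_lit 4) (nat_lit 1) (.cons (.br (nat_lit 10) (nat_lit 1) (.cons (.ev (nat_lit 79229371440156010920579956736) (nat_lit 1)) .nil)) (.cons (.ev (nat_lit 20282410812595937064129423999233) (nat_lit 1)) (.cons (.br (nat_lit 9) (nat_lit 1) (.cons (.ev (nat_lit 79229371440156010920579956736) (nat_lit 1)) .nil)) .nil))))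 .nil)))))),
 (.br (nat_lit 9) (nat_lit 1) (.cons (.ev (nat_lit 309494454699270425366496001) (nat_lit 2)) .nil)),
 (.br (nat_lit 3) (nat_lit 1) (.cons (.rf (nat_lit 189) (nat_lit 420143210784472794181)) (.cons (.br (nat_lit 11) (nat_lit 1) (.cons (.br (nat_lit 10) (nat_lit 1) (.cons (.ev (nat_lit 158458742898831386458844234240) (nat_lit 2)) .nil)) (.cons (.ev (nat_lit 79229371440156010920579956736) (nat_lit 1)) (.cons (.ev (nat_lit 20361637770888301245514263822593) (nat_lit 1)) .nil)))) (.cons (.br (nat_lit 2) (nat_lit 1) (.cons (.ev (nat_lit 4740885566016681148416) (nat_lit 1)) (.cons (.rf (nat_lit 190) (nat_lit 493858305440582043680)) (.cons (.ev (nat_lit 20282410812595937064129423999233) (nat_lit 1)) .nil)))) (.cons (.br (nat_lit 9) (nat_lit 1) (.cons (.kr (nat_lit 18446744073709617152) (nat_lit 72057594054705152) (nat_lit 2) (nat_lit 0)) (.cons (.ev (nat_lit 79229371440156010920579956736) (nat_lit 1)) (.cons (.br (nat_lit 2) (nat_lit 1) (.cons (.zr (nat_lit 288230389086945280)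 (nat_lit 79230589829083559239381680129) (nat_lit 5) (nat_lit 0)) .nil)) .nil)))) (.cons (.kr (nat_lit 18446744073709551872) (nat_lit 281474993487872) (nat_lit 1) (nat_lit 0)) .nil)))))),
 (.br (nat_lit 10) (nat_lit 1) (.cons (.zr (nat_lit 14240886424916658749440) (nat_lit 79230580365975907020453183489) (nat_lit 5) (nat_lit 12)) .nil)),
 (.br (nat_lit 2) (nat_lit 1) (.cons (.rf (nat_lit 189) (nat_lit 420143210784472794181)) (.cons (.br (nat_lit 3) (nat_lit 1) (.cons (.ev (nat_lit 4740885566016681148416) (nat_lit 1)) (.cons (.rf (nat_lit 192) (nat_lit 493858305440582043680)) (.cons (.rf (nat_lit 192) (nat_lit 420143210784472794181)) .nil)))) (.cons (.br (nat_lit 11) (nat_lit 1) (.cons (.br (nat_lit 4) (nat_lit 1) (.cons (.zr (nat_lit 1213648186950745713541120) (nat_lit 160003750114673003866206766343) (nat_lit 10) (nat_lit 5)) .nil)) (.cons (.kr (nat_lit 309485009893402662762708992) (nat_lit 79229371440083952222718656512) (nat_lit 7) (nat_lit 0)) (.cons (.ev (nat_lit 79538856449905298390955130881)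 (nat_lit 1)) .nil)))) (.cons (.br (nat_lit 3) (nat_lit 1) (.cons (.br (nat_lit 10) (nat_lit 1) (.cons (.ev (nat_lit 20283965496014705516398478951170) (nat_lit 3)) .nil)) (.cons (.ev (nat_lit 158767023723429887377028546817) (nat_lit 2)) (.cons (.br (nat_lit 4) (nat_lit 1) (.cons (.ev (nat_lit 80157835951390614106339934720) (nat_lit 2)) .nil)) .nil)))) (.cons (.ev (nat_lit 20282409608392483932365582762241) (nat_lit 1)) .nil)))))),
 (.br (nat_lit 2) (nat_lit 1) (.cons (.rf (nat_lit 189) (nat_lit 420143210784472794181)) (.cons (.rf (nat_lit 193) (nat_lit 420143210784472794181)) (.cons (.rf (nat_lit 191) (nat_lit 420143210784472794181)) (.cons (.br (nat_lit 9) (nat_lit 1) (.cons (.ev (nat_lit 18663482004850409986) (nat_lit 2)) (.cons (.br (nat_lit 3) (nat_lit 1) (.cons (.ev (nat_lit 20285832096259553557592888378120) (nat_lit 4)) .nil)) (.cons (.kr (nat_lit 20282409603651670705422227996672) (nat_lit 79229371440083952222718656512) (nat_lit 6) (nat_lit 0)) .nil)))) (.cons (.br (nat_lit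 3) (nat_lit 1) (.cons (.ev (nat_lit 20282410812595937064129423999233) (nat_lit 1)) (.cons (.br (nat_lit 4) (nat_lit 1) (.cons (.ev (nat_lit 79229371440156010920579956736) (nat_lit 1)) .nil)) (.cons (.br (nat_lit 4) (nat_lit 1) (.cons (.ev (nat_lit 79229371440156010920579956736) (nat_lit 1)) .nil)) .nil)))) .nil)))))),
 (.br (nat_lit 9) (nat_lit 1) (.cons (.ev (nat_lit 20283965495904313845282292957442) (nat_lit 3)) .nil)),
 (.br (nat_lit 8) (nat_lit 1) (.cons (.br (nat_lit 11) (nat_lit 0) (.cons (.br (nat_lit 12) (nat_lit 1) (.cons (.br (nat_lit 1) (nat_lit 1) (.cons (.br (nat_lit 3) (nat_lit 1) (.cons (.rf (nat_lit 187) (nat_lit 493858305440582043680)) (.cons (.rf (nat_lit 187) (nat_lit 420143210784472794181)) (.cons (.br (nat_lit 4) (nat_lit 1) (.cons (.kr (nat_lit 158457533954348289816279384064) (nat_lit 4759259971021359284224) (nat_lit 3) (nat_lit 0)) (.cons (.rf (nat_lit 188) (nat_lit 493858305440582043680)) (.cons (.rf (nat_lit 188) (nat_lit 420143386739781765152)) .nil))))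 (.cons (.ev (nat_lit 79537647524158021731300212736) (nat_lit 1)) (.cons (.ev (nat_lit 20361637766166007100609826652416) (nat_lit 1)) .nil)))))) (.cons (.rf (nat_lit 189) (nat_lit 493858305440582043680)) (.cons (.rf (nat_lit 191) (nat_lit 493858305440582043680)) (.cons (.rf (nat_lit 193) (nat_lit 493858305440582043680)) (.cons (.rf (nat_lit 194) (nat_lit 493858305440582043680)) (.cons (.br (nat_lit 2) (nat_lit 1) (.cons (.rf (nat_lit 189) (nat_lit 420143210784472794181)) (.cons (.ev (nat_lit 309485028340147840278921216) (nat_lit 1)) (.cons (.rf (nat_lit 191) (nat_lit 420143210784472794181)) (.cons (.rf (nat_lit 194) (nat_lit 420143210784472794181)) (.cons (.kr (nat_lit 20282409603651670423947251286272) (nat_lit 309485009821345068724846592) (nat_lit 1) (nat_lit 0)) .nil)))))) (.cons (.br (nat_lit 2) (nat_lit 1) (.cons (.rf (nat_lit 189) (nat_lit 420143210784472794181)) (.cons (.rf (nat_lit 193) (nat_lit 420143210784472794181)) (.cons (.rf (nat_lit 191) (nat_lit 420143210784472794181))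 (.cons (.rf (nat_lit 194) (nat_lit 420143210784472794181)) (.cons (.br (nat_lit 3) (nat_lit 1) (.cons (.rf (nat_lit 195) (nat_lit 493858305440582043680)) (.cons (.rf (nat_lit 195) (nat_lit 420143210784472794181)) (.cons (.zr (nat_lit 320967387256044816626140321536) (nat_lit 344800963262226115840030236147714) (nat_lit 60) (nat_lit 6)) .nil)))) .nil)))))) .nil)))))))) .nil)) .nil)) .nil))]

theorem c5 : chkAll C T R L5 (nat_lit 174) = true := by decide +kernel

theorem l5 : (nat_lit 174) + L5.length = (nat_lit 197) := by decide +kernel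

/-- part of the certificates -/
def L6 : List Prf := [(.br (nat_lit 8) (nat_lit 1) (.cons (.br (nat_lit 8) (nat_lit 1) (.cons (.br (nat_lit 8) (nat_lit 1) .nil) .nil)) .nil)),
 (.br (nat_lit 7) (nat_lit 1) (.cons (.br (nat_lit 8) (nat_lit 1) (.cons (.rf (nat_lit 186) (nat_lit 14242959524133701664)) (.cons (.rf (nat_lit 186) (nat_lit 14208056627021580320)) (.cons (.rf (nat_lit 140) (nat_lit 15106274925238857030)) .nil)))) (.cons (.br (nat_lit 10) (nat_lit 0) (.cons (.br (nat_lit 8) (nat_lit 1) (.cons (.rf (nat_lit 196) (nat_lit 493858305440582043680)) (.cons (.rf (nat_lit 196) (nat_lit 420143210784472794181)) .nil))) (.cons (.rf (nat_lit 197) (nat_lit 443930265870501920)) .nil))) .nil))),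
 (.br (nat_lit 9) (nat_lit 0) (.cons (.br (nat_lit 7) (nat_lit 1) (.cons (.rf (nat_lit 185) (nat_lit 407901468851537952)) (.cons (.rf (nat_lit 185) (nat_lit 372998571739416608)) (.cons (.br (nat_lit 7) (nat_lit 1) (.cons (.rf (nat_lit 184) (nat_lit 479780977276652613)) (.cons (.rf (nat_lit 184) (nat_lit 480906877183495237)) .nil))) .nil)))) (.cons (.br (nat_lit 7) (nat_lit 1) (.cons (.rf (nat_lit 198) (nat_lit 14242959524133701664)) (.cons (.rf (nat_lit 198) (nat_lit 14208056627021580320)) (.cons (.br (nat_lit 7) (nat_lit 1) (.cons (.rf (nat_lit 198) (nat_lit 14242959524133701664)) (.cons (.rf (nat_lit 198) (nat_lit 14208056627021580320)) .nil))) .nil)))) .nil))),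
 (.br (nat_lit 6) (nat_lit 1) (.cons (.rf (nat_lit 171) (nat_lit 3374938367110)) (.cons (.br (nat_lit 6) (nat_lit 1) (.cons (.rf (nat_lit 171) (nat_lit 3374938367110)) (.cons (.br (nat_lit 4) (nat_lit 0) (.cons (.rf (nat_lit 184) (nat_lit 407901468851537952)) (.cons (.rf (nat_lit 184) (nat_lit 407900403699616800)) (.cons (.br (nat_lit 9) (nat_lit 0) (.cons (.rf (nat_lit 199) (nat_lit 14242959524133701664)) (.cons (.rf (nat_lit 199) (nat_lit 14242958458981780512)) (.cons (.br (nat_lit 9) (nat_lit 0) (.cons (.rf (nat_lit 199) (nat_lit 14242959524133701664)) (.cons (.rf (nat_lit 199) (nat_lit 14242958458981780512)) .nil))) .nil)))) .nil)))) .nil))) .nil))),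
 (.br (nat_lit 3) (nat_lit 0) (.cons (.rf (nat_lit 123) (nat_lit 72354854)) (.cons (.rf (nat_lit 123) (nat_lit 38800455)) (.cons (.br (nat_lit 5) (nat_lit 1) (.cons (.br (nat_lit 6) (nat_lit 1) (.cons (.rf (nat_lit 123) (nat_lit 72355878)) (.cons (.br (nat_lit 6) (nat_lit 1) (.cons (.rf (nat_lit 123) (nat_lit 72355878)) (.cons (.br (nat_lit 6) (nat_lit 1) (.cons (.rf (nat_lit 123) (nat_lit 72355878)) (.cons (.br (nat_lit 4) (nat_lit 0) (.cons (.rf (nat_lit 123) (nat_lit 38801479)) (.cons (.rf (nat_lit 123) (nat_lit 38801512)) (.cons (.br (nat_lit 9) (nat_lit 0) (.cons (.rf (nat_lit 157) (nat_lit 14242959524133701664)) (.cons (.rf (nat_lit 157) (nat_lit 14242958458981780512)) (.cons (.rf (nat_lit 157) (nat_lit 9631272577992298528)) .nil)))) .nil)))) .nil))) .nil))) .nil))) (.cons (.br (nat_lit 4) (nat_lit 0) (.cons (.rf (nat_lit 200) (nat_lit 325702574508064)) (.cons (.rf (nat_lit 200) (nat_lit 325669288510528)) (.cons (.rf (nat_lit 200) (nat_lit 324570850591840)) (.cons (.br (nat_lit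 4) (nat_lit 0) (.cons (.rf (nat_lit 200) (nat_lit 325702574508064)) (.cons (.rf (nat_lit 200) (nat_lit 325669288510528)) (.cons (.rf (nat_lit 200) (nat_lit 324570850591840)) .nil)))) .nil))))) .nil))) .nil)))),
 (.br (nat_lit 9) (nat_lit 1) (.cons (.br (nat_lit 11) (nat_lit 0) (.cons (.rf (nat_lit 201) (nat_lit 210624677920)) (.cons (.rf (nat_lit 201) (nat_lit 206295112741)) (.cons (.rf (nat_lit 201) (nat_lit 137641696325)) (.cons (.rf (nat_lit 201) (nat_lit 172147092585)) .nil))))) .nil)),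
 (.br (nat_lit 9) (nat_lit 0) (.cons (.br (nat_lit 10) (nat_lit 1) (.cons (.rf (nat_lit 202) (nat_lit 445092485129178144)) (.cons (.rf (nat_lit 202) (nat_lit 481121281107954752)) .nil))) .nil)),
 (.br (nat_lit 11) (nat_lit 1) (.cons (.br (nat_lit 11) (nat_lit 1) .nil) .nil)),
 (.br (nat_lit 11) (nat_lit 1) (.cons (.rf (nat_lit 204) (nat_lit 14242959524133701664)) .nil)),
 (.br (nat_lit 10) (nat_lit 1) (.cons (.br (nat_lit 12) (nat_lit 0) (.cons (.br (nat_lit 11) (nat_lit 1) (.cons (.rf (nat_lit 201) (nat_lit 172181823626)) (.cons (.rf (nat_lit 201) (nat_lit 206536355978)) .nil))) .nil)) .nil)),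
 (.br (nat_lit 7) (nat_lit 1) (.cons (.br (nat_lit 9) (nat_lit 0) (.cons (.rf (nat_lit 205) (nat_lit 407901468851537952)) (.cons (.br (nat_lit 12) (nat_lit 0) (.cons (.rf (nat_lit 205) (nat_lit 408007020927585312)) (.cons (.rf (nat_lit 205) (nat_lit 373105189000875072)) .nil))) .nil))) (.cons (.br (nat_lit 9) (nat_lit 0) (.cons (.rf (nat_lit 205) (nat_lit 407901468851537952)) (.cons (.br (nat_lit 10) (nat_lit 1) (.cons (.rf (nat_lit 206) (nat_lit 493858305440582043680)) (.cons (.br (nat_lit 10) (nat_lit 1) (.cons (.rf (nat_lit 206) (nat_lit 493858305440582043680)) .nil)) .nil))) .nil))) .nil))),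
 (.br (nat_lit 7) (nat_lit 1) (.cons (.rf (nat_lit 207) (nat_lit 14242959524133701664)) (.cons (.rf (nat_lit 207) (nat_lit 10784300562389208096)) (.cons (.br (nat_lit 7) (nat_lit 1) (.cons (.rf (nat_lit 207) (nat_lit 14242959524133701664)) (.cons (.rf (nat_lit 207) (nat_lit 10784300562389208096)) .nil))) .nil)))),
 (.br (nat_lit 6) (nat_lit 1) (.cons (.rf (nat_lit 172) (nat_lit 10177100155968)) (.cons (.br (nat_lit 8) (nat_lit 0) (.cons (.br (nat_lit 7) (nat_lit 1) (.cons (.rf (nat_lit 201) (nat_lit 206394662981)) (.cons (.rf (nat_lit 201) (nat_lit 172035022950)) (.cons (.br (nat_lit 9) (nat_lit 0) (.cons (.rf (nat_lit 203) (nat_lit 493858305440582043680)) (.cons (.rf (nat_lit 203) (nat_lit 493823402543469922336)) .nil))) .nil)))) (.cons (.rf (nat_lit 208) (nat_lit 14242959524133701664)) (.cons (.rf (nat_lit 208) (nat_lit 14208056627021580320)) .nil)))) .nil))),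
 (.br (nat_lit 4) (nat_lit 0) (.cons (.rf (nat_lit 201) (nat_lit 246090435616)) (.cons (.rf (nat_lit 201) (nat_lit 211763203136)) (.cons (.br (nat_lit 4) (nat_lit 0) (.cons (.rf (nat_lit 201) (nat_lit 246090435616)) (.cons (.rf (nat_lit 201) (nat_lit 211763203136)) (.cons (.br (nat_lit 6) (nat_lit 1) (.cons (.rf (nat_lit 209) (nat_lit 407901468851537952)) (.cons (.rf (nat_lit 209) (nat_lit 407867383991076896)) (.cons (.br (nat_lit 6) (nat_lit 1) (.cons (.rf (nat_lit 209) (nat_lit 407901468851537952)) (.cons (.rf (nat_lit 209) (nat_lit 407867383991076896)) (.cons (.br (nat_lit 7) (nat_lit 1) (.cons (.rf (nat_lit 209) (nat_lit 407901435565540416)) (.cons (.rf (nat_lit 209) (nat_lit 407867350705079360)) (.cons (.rf (nat_lit 209) (nat_lit 408046536774190176)) (.cons (.rf (nat_lit 209) (nat_lit 408012451913729120)) .nil))))) .nil)))) .nil)))) .nil)))) .nil)))),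
 (.br (nat_lit 4) (nat_lit 1) (.cons (.kr (nat_lit 4722366482869661990912) (nat_lit 18446744078004518912) (nat_lit 3) (nat_lit 0)) (.cons (.br (nat_lit 9) (nat_lit 1) (.cons (.zr (nat_lit 237684492265159495671768679683) (nat_lit 1240357891069289870301331456) (nat_lit 10) (nat_lit 0)) .nil)) (.cons (.br (nat_lit 9) (nat_lit 1) (.cons (.zr (nat_lit 237684511154625427133236774147) (nat_lit 1240357964856266165139537920) (nat_lit 10) (nat_lit 0)) .nil)) .nil)))),
 (.br (nat_lit 4) (nat_lit 1) (.cons (.kr (nat_lit 4722366482873940181504) (nat_lit 18446744073726459904) (nat_lit 1) (nat_lit 0)) (.cons (.br (nat_lit 8) (nat_lit 1) (.cons (.zr (nat_lit 309485028485106349495026688) (nat_lit 158458742880167906644460765186) (nat_lit 10) (nat_lit 6)) .nil)) (.cons (.br (nat_lit 8) (nat_lit 1) (.cons (.zr (nat_lit 237684487635026733153558790147) (nat_lit 1240376780535221348881925120) (nat_lit 10) (nat_lit 0)) .nil)) .nil)))),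
 (.br (nat_lit 3) (nat_lit 1) (.cons (.kr (nat_lit 4294967552) (nat_lit 16842752) (nat_lit 1) (nat_lit 0)) (.cons (.rf (nat_lit 211) (nat_lit 493858305440582043680)) (.cons (.rf (nat_lit 212) (nat_lit 493858305440582043680)) (.cons (.br (nat_lit 4) (nat_lit 1) (.cons (.rf (nat_lit 212) (nat_lit 420143352621634290752)) (.cons (.rf (nat_lit 211) (nat_lit 420143352621634290752)) (.cons (.kr (nat_lit 20282409603651670423947268063232) (nat_lit 309485009821345073019748352) (nat_lit 3) (nat_lit 0)) .nil)))) (.cons (.br (nat_lit 4) (nat_lit 1) (.cons (.rf (nat_lit 212) (nat_lit 420143352621634290752)) (.cons (.rf (nat_lit 211) (nat_lit 420143352621634290752)) (.cons (.kr (nat_lit 20282409603651670423951546253824) (nat_lit 309485009821345068741689344) (nat_lit 1) (nat_lit 0)) .nil)))) .nil)))))),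
 (.br (nat_lit 11) (nat_lit 1) (.cons (.rf (nat_lit 213) (nat_lit 340189993160136502374)) (.cons (.br (nat_lit 3) (nat_lit 1) (.cons (.zr (nat_lit 1547425086434247905164395776) (nat_lit 316917499927435261910741680132) (nat_lit 20) (nat_lit 6)) .nil)) (.cons (.rf (nat_lit 213) (nat_lit 79587938317700805994)) .nil)))),
 (.br (nat_lit 8) (nat_lit 1) (.cons (.rf (nat_lit 214) (nat_lit 493858305440582043680)) (.cons (.rf (nat_lit 214) (nat_lit 493782940617606761504)) (.cons (.rf (nat_lit 213) (nat_lit 159211723765632247045)) (.cons (.rf (nat_lit 213) (nat_lit 155716928357776010502)) (.cons (.kr (nat_lit 20282409603651670423947251286272) (nat_lit 18446744078004518912) (nat_lit 1) (nat_lit 0)) .nil)))))),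
 (.br (nat_lit 10) (nat_lit 1) (.cons (.br (nat_lit 11) (nat_lit 0) (.cons (.br (nat_lit 12) (nat_lit 1) (.cons (.br (nat_lit 1) (nat_lit 1) (.cons (.rf (nat_lit 213) (nat_lit 493858305440582043680)) (.cons (.rf (nat_lit 213) (nat_lit 493782940617606761504)) (.cons (.rf (nat_lit 215) (nat_lit 493858305440582043680)) (.cons (.rf (nat_lit 213) (nat_lit 491296948189096124453)) (.cons (.rf (nat_lit 215) (nat_lit 491554532811601086501)) (.cons (.rf (nat_lit 215) (nat_lit 488023709706238561318)) (.cons (.br (nat_lit 2) (nat_lit 1) (.cons (.rf (nat_lit 215) (nat_lit 420143352621634290752)) (.cons (.rf (nat_lit 213) (nat_lit 419958881094131028032)) (.cons (.rf (nat_lit 215) (nat_lit 417839579992653333573)) (.cons (.rf (nat_lit 213) (nat_lit 417472888665620390981)) (.cons (.br (nat_lit 3) (nat_lit 1) (.cons (.kr (nat_lit 309485009821345077314715904) (nat_lit 20282409603651670423947284905984) (nat_lit 1) (nat_lit 0)) (.cons (.ev (nat_lit 21395644109014886689001060109066) (nat_lit 4)) (.cons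 (.br (nat_lit 4) (nat_lit 1) (.cons (.zr (nat_lit 475368975085586025569937850886) (nat_lit 933304900131303005913874432) (nat_lit 20) (nat_lit 0)) .nil)) .nil)))) .nil)))))) .nil)))))))) .nil)) .nil)) .nil)),
 (.br (nat_lit 9) (nat_lit 0) (.cons (.rf (nat_lit 205) (nat_lit 439207965271298119)) (.cons (.br (nat_lit 7) (nat_lit 1) (.cons (.br (nat_lit 11) (nat_lit 0) (.cons (.rf (nat_lit 205) (nat_lit 438046778986958954)) (.cons (.rf (nat_lit 205) (nat_lit 360359685577352460)) .nil))) (.cons (.br (nat_lit 10) (nat_lit 1) (.cons (.rf (nat_lit 216) (nat_lit 493858305440582043680)) (.cons (.rf (nat_lit 216) (nat_lit 420143352621634290752)) .nil))) .nil))) .nil))),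
 (.br (nat_lit 4) (nat_lit 1) (.cons (.br (nat_lit 11) (nat_lit 1) (.cons (.zr (nat_lit 237688119135069077113393512704) (nat_lit 2785365088392113332284293127) (nat_lit 10) (nat_lit 5)) .nil)) (.cons (.ev (nat_lit 79228167236703159536498770176) (nat_lit 1)) (.cons (.br (nat_lit 8) (nat_lit 1) (.cons (.zr (nat_lit 933290732742493722873168640) (nat_lit 79228171959069643509950578689) (nat_lit 5) (nat_lit 6)) .nil)) .nil)))),
 (.br (nat_lit 3) (nat_lit 1) (.cons (.kr (nat_lit 4294967552) (nat_lit 16842752) (nat_lit 1) (nat_lit 0)) (.cons (.br (nat_lit 4) (nat_lit 1) (.cons (.br (nat_lit 11) (nat_lit 1) (.cons (.zr (nat_lit 237688119135069077113393251584) (nat_lit 2785365088392113315171532807) (nat_lit 10) (nat_lit 5)) .nil)) (.cons (.br (nat_lit 9) (nat_lit 1) (.cons (.zr (nat_lit 309536956069677140501594115) (nat_lit 554605600172821385927578617088) (nat_lit 10) (nat_lit 10)) .nil)) (.cons (.br (nat_lit 9) (nat_lit 1) (.cons (.ev (nat_lit 20759944988102521878412142249734) (nat_lit 3))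 .nil)) .nil)))) (.cons (.rf (nat_lit 218) (nat_lit 493858305440582043680)) (.cons (.br (nat_lit 9) (nat_lit 1) (.cons (.ev (nat_lit 79228167236703159532220645376) (nat_lit 1)) (.cons (.br (nat_lit 4) (nat_lit 1) (.cons (.zr (nat_lit 928455029464039617105756160) (nat_lit 79229380884889257031023723009) (nat_lit 5) (nat_lit 7)) .nil)) (.cons (.rf (nat_lit 218) (nat_lit 36972411271720052140)) .nil)))) (.cons (.br (nat_lit 4) (nat_lit 1) (.cons (.br (nat_lit 9) (nat_lit 1) (.cons (.ev (nat_lit 20759944988102521878420698497286) (nat_lit 3)) .nil)) (.cons (.br (nat_lit 8) (nat_lit 1) (.cons (.zr (nat_lit 933290732742493722873364480) (nat_lit 79228171959069643501394198529) (nat_lit 5) (nat_lit 7)) .nil)) (.cons (.br (nat_lit 8) (nat_lit 1) (.cons (.zr (nat_lit 928455029464039604271185920) (nat_lit 79229380884889257031023853569) (nat_lit 5) (nat_lit 6)) .nil)) .nil)))) .nil)))))),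
 (.br (nat_lit 11) (nat_lit 1) (.cons (.br (nat_lit 3) (nat_lit 1) (.cons (.zr (nat_lit 237684487542793012784943662083) (nat_lit 2417907124141816530599936) (nat_lit 10) (nat_lit 0)) .nil)) (.cons (.br (nat_lit 2) (nat_lit 1) (.cons (.zr (nat_lit 237684487542793012784943662083) (nat_lit 2417907124141816530599936) (nat_lit 10) (nat_lit 0)) .nil)) (.cons (.rf (nat_lit 219) (nat_lit 37007279021940321708)) .nil)))),
 (.br (nat_lit 4) (nat_lit 1) (.cons (.rf (nat_lit 219) (nat_lit 309314379311762999424)) (.cons (.rf (nat_lit 219) (nat_lit 309385240668389051520)) (.cons (.rf (nat_lit 220) (nat_lit 493858305440582043680)) (.cons (.rf (nat_lit 220) (nat_lit 493782940617606761504)) (.cons (.kr (nat_lit 20282409603651670423947251286272) (nat_lit 18446744078004518912) (nat_lit 1) (nat_lit 0)) .nil)))))),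
 (.br (nat_lit 4) (nat_lit 1) (.cons (.rf (nat_lit 219) (nat_lit 309314379311762999424)) (.cons (.rf (nat_lit 219) (nat_lit 309385240668389051520)) (.cons (.br (nat_lit 11) (nat_lit 1) (.cons (.br (nat_lit 3) (nat_lit 1) (.cons (.zr (nat_lit 950737950171172051152710076172) (nat_lit 60848166951614050626259600277504) (nat_lit 40) (nat_lit 0)) .nil)) (.cons (.br (nat_lit 2) (nat_lit 1) (.cons (.zr (nat_lit 950737950171172051152710076172) (nat_lit 60848166951614050626259600277504) (nat_lit 40) (nat_lit 0)) .nil)) (.cons (.rf (nat_lit 219) (nat_lit 37007279021940321708)) .nil)))) (.cons (.br (nat_lit 8) (nat_lit 1) (.cons (.br (nat_lit 3) (nat_lit 1) (.cons (.zr (nat_lit 928455029464039604271185920) (nat_lit 79229380884889257031023853569) (nat_lit 5) (nat_lit 6)) .nil)) (.cons (.br (nat_lit 2) (nat_lit 1) (.cons (.zr (nat_lit 14167387678985137684480) (nat_lit 79848341459726924934656688129) (nat_lit 5) (nat_lit 10)) .nil)) (.cons (.ev (nat_lit 1213666632842672041099521) (nat_lit 1))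 .nil)))) (.cons (.rf (nat_lit 221) (nat_lit 309314379311762999424)) .nil)))))),
 (.br (nat_lit 9) (nat_lit 0) (.cons (.br (nat_lit 10) (nat_lit 1) (.cons (.br (nat_lit 12) (nat_lit 1) (.cons (.br (nat_lit 1) (nat_lit 1) (.cons (.rf (nat_lit 219) (nat_lit 493858305440582043680)) (.cons (.rf (nat_lit 219) (nat_lit 493782940617606761504)) (.cons (.br (nat_lit 8) (nat_lit 1) (.cons (.ev (nat_lit 79229371458530977775699951616) (nat_lit 1)) (.cons (.ev (nat_lit 79228162532783140365114802176) (nat_lit 1)) (.cons (.ev (nat_lit 1218407662526075804582146) (nat_lit 2)) (.cons (.ev (nat_lit 620178982572250482553651970) (nat_lit 2)) (.cons (.kr (nat_lit 20282409603651670423947251286272) (nat_lit 18446744078004518912) (nat_lit 1) (nat_lit 0)) .nil)))))) (.cons (.rf (nat_lit 221) (nat_lit 493858305440582043680)) (.cons (.rf (nat_lit 222) (nat_lit 493858305440582043680)) (.cons (.rf (nat_lit 222) (nat_lit 493782940617606761504)) (.cons (.br (nat_lit 4) (nat_lit 1) (.cons (.rf (nat_lit 219) (nat_lit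 309314379311762999424)) (.cons (.rf (nat_lit 219) (nat_lit 309385240668389051520)) (.cons (.br (nat_lit 2) (nat_lit 1) (.cons (.ev (nat_lit 20916251828857398570137331960576) (nat_lit 4)) (.cons (.zr (nat_lit 237684492265159495663162032899) (nat_lit 40564821625192017965261858537472) (nat_lit 10) (nat_lit 0)) (.cons (.zr (nat_lit 237993972552614357862241600259) (nat_lit 40564820416266270688602186842112) (nat_lit 10) (nat_lit 0)) .nil)))) (.cons (.rf (nat_lit 222) (nat_lit 309385240668389051520)) (.cons (.rf (nat_lit 222) (nat_lit 309314379311762999424)) .nil)))))) .nil)))))))) .nil)) .nil)) .nil)),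
 (.br (nat_lit 7) (nat_lit 1) (.cons (.rf (nat_lit 217) (nat_lit 14242959524133701664)) (.cons (.br (nat_lit 11) (nat_lit 0) (.cons (.rf (nat_lit 205) (nat_lit 438046778986958954)) (.cons (.br (nat_lit 9) (nat_lit 0) (.cons (.rf (nat_lit 223) (nat_lit 493858305440582043680)) (.cons (.br (nat_lit 9) (nat_lit 0) (.cons (.rf (nat_lit 223) (nat_lit 493858305440582043680)) .nil)) .nil))) .nil))) .nil)))]

theorem c6 : chkAll C T R L6 (nat_lit 197) = true := by decide +kernel

theorem l6 : (nat_lit 197) + L6.length = (nat_lit 225) := by decide +kernel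

/-- part of the certificates -/
def L7 : List Prf := [(.br (nat_lit 6) (nat_lit 1) (.cons (.rf (nat_lit 172) (nat_lit 10177100155968)) (.cons (.br (nat_lit 8) (nat_lit 0) (.cons (.rf (nat_lit 210) (nat_lit 144282993559589)) (.cons (.rf (nat_lit 210) (nat_lit 143285489503270)) (.cons (.br (nat_lit 7) (nat_lit 1) (.cons (.rf (nat_lit 217) (nat_lit 14242959524133701664)) (.cons (.rf (nat_lit 224) (nat_lit 14242959524133701664)) (.cons (.br (nat_lit 7) (nat_lit 1) (.cons (.rf (nat_lit 217) (nat_lit 14242959524133701664)) (.cons (.rf (nat_lit 224) (nat_lit 14242959524133701664)) .nil))) .nil)))) .nil)))) .nil))),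
 (.br (nat_lit 8) (nat_lit 0) (.cons (.rf (nat_lit 225) (nat_lit 11584668355920960)) (.cons (.br (nat_lit 10) (nat_lit 1) (.cons (.br (nat_lit 9) (nat_lit 0) (.cons (.rf (nat_lit 225) (nat_lit 11550583495459904)) (.cons (.rf (nat_lit 148) (nat_lit 14296327429)) .nil))) (.cons (.rf (nat_lit 225) (nat_lit 8315789180535904)) (.cons (.rf (nat_lit 225) (nat_lit 8281704320074848)) .nil)))) .nil))),
 (.br (nat_lit 6) (nat_lit 1) (.cons (.rf (nat_lit 225) (nat_lit 11584701642934304)) (.cons (.rf (nat_lit 225) (nat_lit 11550616782473248)) (.cons (.br (nat_lit 6) (nat_lit 1) (.cons (.rf (nat_lit 225) (nat_lit 11584701642934304)) (.cons (.rf (nat_lit 225) (nat_lit 11550616782473248)) (.cons (.br (nat_lit 8) (nat_lit 0) (.cons (.rf (nat_lit 225) (nat_lit 11584668355920960)) (.cons (.rf (nat_lit 226) (nat_lit 14242959524133701664)) (.cons (.br (nat_lit 8) (nat_lit 0) (.cons (.rf (nat_lit 225) (nat_lit 11584668355920960)) (.cons (.rf (nat_lit 226) (nat_lit 14242959524133701664)) .nil))) .nil))))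 .nil)))) .nil)))),
 (.br (nat_lit 12) (nat_lit 0) (.cons (.rf (nat_lit 227) (nat_lit 12528184465820710)) .nil)),
 (.br (nat_lit 9) (nat_lit 0) (.cons (.br (nat_lit 7) (nat_lit 1) (.cons (.br (nat_lit 12) (nat_lit 0) (.cons (.rf (nat_lit 197) (nat_lit 374127770180126752)) (.cons (.rf (nat_lit 197) (nat_lit 410120250030392384)) .nil))) (.cons (.br (nat_lit 10) (nat_lit 1) (.cons (.rf (nat_lit 228) (nat_lit 493858305440582043680)) (.cons (.rf (nat_lit 228) (nat_lit 458117523260041364549)) .nil))) .nil))) (.cons (.rf (nat_lit 227) (nat_lit 12529181968828453)) .nil))),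
 (.br (nat_lit 4) (nat_lit 1) (.cons (.br (nat_lit 9) (nat_lit 1) (.cons (.kr (nat_lit 18446744073709617153) (nat_lit 1103806595328) (nat_lit 0) (nat_lit 3)) (.cons (.ev (nat_lit 79538856449905298395250032896) (nat_lit 1)) (.cons (.br (nat_lit 8) (nat_lit 1) (.cons (.zr (nat_lit 237684501709892461389567492100) (nat_lit 310693935713299875015688704) (nat_lit 5) (nat_lit 10)) .nil)) .nil)))) (.cons (.br (nat_lit 9) (nat_lit 1) (.cons (.br (nat_lit 12) (nat_lit 1) (.cons (.zr (nat_lit 4835703278458529583727360) (nat_lit 158765819483155326163629375489) (nat_lit 5) (nat_lit 0)) .nil)) (.cons (.ev (nat_lit 1213648258436572129526016) (nat_lit 1)) (.cons (.zr (nat_lit 311902861460574339959096064) (nat_lit 40564819207340306676210447941633) (nat_lit 5) (nat_lit 0)) .nil)))) (.cons (.br (nat_lit 3) (nat_lit 1) (.cons (.rf (nat_lit 190) (nat_lit 486831673075697847360)) (.cons (.ev (nat_lit 79538856449905298395250032896) (nat_lit 1)) (.cons (.ev (nat_lit 20282719093383858252989427875841) (nat_lit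 1)) .nil)))) (.cons (.br (nat_lit 8) (nat_lit 1) (.cons (.br (nat_lit 9) (nat_lit 1) (.cons (.ev (nat_lit 313121232157835036937224960) (nat_lit 2)) .nil)) (.cons (.ev (nat_lit 1213648258436572129526016) (nat_lit 1)) (.cons (.ev (nat_lit 20361637766166007100614104842241) (nat_lit 1)) .nil)))) (.cons (.kr (nat_lit 309485009821345068724846592) (nat_lit 1103806595072) (nat_lit 2) (nat_lit 0)) .nil)))))),
 (.br (nat_lit 2) (nat_lit 1) (.cons (.br (nat_lit 9) (nat_lit 1) (.cons (.ev (nat_lit 79228167273668426002035901186) (nat_lit 2)) .nil)) (.cons (.br (nat_lit 8) (nat_lit 1) (.cons (.ev (nat_lit 21475169691095380963397259297548) (nat_lit 4)) .nil)) (.cons (.br (nat_lit 8) (nat_lit 1) (.cons (.zr (nat_lit 792591110392272393962438788352) (nat_lit 1265594433864430109655041) (nat_lit 30) (nat_lit 6)) .nil)) .nil)))),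
 (.br (nat_lit 13) (nat_lit 1) (.cons (.ev (nat_lit 20282720297587311665120127549696) (nat_lit 1)) (.cons (.rf (nat_lit 231) (nat_lit 493858305440582043680)) (.cons (.rf (nat_lit 231) (nat_lit 39415622865661339051)) (.cons (.rf (nat_lit 230) (nat_lit 39415622865661339051)) (.cons (.rf (nat_lit 230) (nat_lit 46122564668806705578)) .nil)))))),
 (.br (nat_lit 8) (nat_lit 1) (.cons (.br (nat_lit 9) (nat_lit 1) (.cons (.ev (nat_lit 20838870937977416842363315618054) (nat_lit 3)) .nil)) (.cons (.ev (nat_lit 20283029787319643608246590177792) (nat_lit 2)) (.cons (.br (nat_lit 4) (nat_lit 1) (.cons (.ev (nat_lit 20838866102274427735724695683334) (nat_lit 3)) .nil)) .nil)))),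
 (.br (nat_lit 3) (nat_lit 1) (.cons (.ev (nat_lit 20282721506531721858639934259712) (nat_lit 2)) (.cons (.br (nat_lit 8) (nat_lit 1) (.cons (.zr (nat_lit 37871165583325710451456) (nat_lit 158767018964241975105137147905) (nat_lit 30) (nat_lit 5)) .nil)) (.cons (.br (nat_lit 8) (nat_lit 1) (.cons (.zr (nat_lit 932081806923726843017494784) (nat_lit 316912669039261405379569909767) (nat_lit 10) (nat_lit 0)) .nil)) .nil)))),
 (.br (nat_lit 3) (nat_lit 1) (.cons (.br (nat_lit 8) (nat_lit 1) (.cons (.zr (nat_lit 79228167236847840994537767168) (nat_lit 621387963515639764346732551) (nat_lit 10) (nat_lit 7)) .nil)) (.cons (.rf (nat_lit 233) (nat_lit 490256369221508533286)) (.cons (.rf (nat_lit 234) (nat_lit 490256369221508533286)) .nil)))),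
 (.br (nat_lit 9) (nat_lit 0) (.cons (.br (nat_lit 10) (nat_lit 1) (.cons (.br (nat_lit 11) (nat_lit 1) (.cons (.br (nat_lit 1) (nat_lit 1) (.cons (.rf (nat_lit 230) (nat_lit 493858305440582043680)) (.cons (.rf (nat_lit 230) (nat_lit 490256369221508533286)) (.cons (.rf (nat_lit 232) (nat_lit 493858305440582043680)) (.cons (.rf (nat_lit 230) (nat_lit 484595627093581176869)) (.cons (.rf (nat_lit 232) (nat_lit 484595627093581176869)) (.cons (.rf (nat_lit 232) (nat_lit 490256369221508533286)) (.cons (.br (nat_lit 2) (nat_lit 1) (.cons (.rf (nat_lit 233) (nat_lit 493858305440582043680)) (.cons (.rf (nat_lit 234) (nat_lit 493858305440582043680)) (.cons (.rf (nat_lit 233) (nat_lit 484595627093581176869)) (.cons (.rf (nat_lit 235) (nat_lit 493858305440582043680)) (.cons (.rf (nat_lit 235) (nat_lit 46122564668806705578)) .nil)))))) .nil)))))))) .nil)) .nil)) .nil)),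
 (.br (nat_lit 7) (nat_lit 1) (.cons (.rf (nat_lit 229) (nat_lit 14242959524133701664)) (.cons (.br (nat_lit 12) (nat_lit 0) (.cons (.br (nat_lit 9) (nat_lit 0) (.cons (.rf (nat_lit 236) (nat_lit 493858305440582043680)) (.cons (.br (nat_lit 9) (nat_lit 0) (.cons (.rf (nat_lit 236) (nat_lit 493858305440582043680)) .nil)) .nil))) (.cons (.rf (nat_lit 197) (nat_lit 410120250030392384)) .nil))) .nil))),
 (.br (nat_lit 6) (nat_lit 1) (.cons (.rf (nat_lit 172) (nat_lit 10177100155968)) (.cons (.br (nat_lit 8) (nat_lit 0) (.cons (.rf (nat_lit 210) (nat_lit 144282993559589)) (.cons (.rf (nat_lit 210) (nat_lit 143285490551846)) (.cons (.br (nat_lit 7) (nat_lit 1) (.cons (.rf (nat_lit 229) (nat_lit 14242959524133701664)) (.cons (.rf (nat_lit 237) (nat_lit 14242959524133701664)) (.cons (.br (nat_lit 7) (nat_lit 1) (.cons (.rf (nat_lit 229) (nat_lit 14242959524133701664)) (.cons (.rf (nat_lit 237) (nat_lit 14242959524133701664)) .nil))) .nil)))) .nil)))) .nil))),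
 (.br (nat_lit 9) (nat_lit 0) (.cons (.rf (nat_lit 148) (nat_lit 12148843781)) .nil)),
 (.br (nat_lit 7) (nat_lit 1) (.cons (.rf (nat_lit 238) (nat_lit 372964453591942208)) (.cons (.br (nat_lit 9) (nat_lit 0) (.cons (.rf (nat_lit 239) (nat_lit 493858305440582043680)) (.cons (.rf (nat_lit 239) (nat_lit 493823402543469922336)) .nil))) .nil))),
 (.br (nat_lit 8) (nat_lit 0) (.cons (.rf (nat_lit 238) (nat_lit 372998538452403264)) (.cons (.br (nat_lit 7) (nat_lit 1) (.cons (.rf (nat_lit 238) (nat_lit 372964453591942208)) (.cons (.rf (nat_lit 240) (nat_lit 493858305440582043680)) (.cons (.rf (nat_lit 240) (nat_lit 458117738797769787424)) .nil)))) .nil))),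
 (.br (nat_lit 4) (nat_lit 0) (.cons (.rf (nat_lit 201) (nat_lit 349169650720)) (.cons (.rf (nat_lit 227) (nat_lit 11584701642934304)) (.cons (.br (nat_lit 6) (nat_lit 1) (.cons (.rf (nat_lit 238) (nat_lit 407901468851537952)) (.cons (.rf (nat_lit 238) (nat_lit 407867383991076896)) (.cons (.br (nat_lit 6) (nat_lit 1) (.cons (.rf (nat_lit 238) (nat_lit 407901468851537952)) (.cons (.rf (nat_lit 238) (nat_lit 407867383991076896)) (.cons (.br (nat_lit 8) (nat_lit 0) (.cons (.rf (nat_lit 238) (nat_lit 372998538452403264)) (.cons (.rf (nat_lit 241) (nat_lit 493858305440582043680)) (.cons (.br (nat_lit 8) (nat_lit 0) (.cons (.rf (nat_lit 238) (nat_lit 372998538452403264)) (.cons (.rf (nat_lit 241) (nat_lit 493858305440582043680)) .nil))) .nil)))) .nil)))) .nil)))) .nil)))),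
 (.br (nat_lit 6) (nat_lit 1) (.cons (.br (nat_lit 6) (nat_lit 1) (.cons (.rf (nat_lit 242) (nat_lit 8279603009358880)) .nil)) .nil)),
 (.br (nat_lit 3) (nat_lit 0) (.cons (.rf (nat_lit 210) (nat_lit 325702574508064)) (.cons (.br (nat_lit 4) (nat_lit 0) (.cons (.rf (nat_lit 201) (nat_lit 349169650720)) (.cons (.rf (nat_lit 242) (nat_lit 11584701642934304)) (.cons (.br (nat_lit 4) (nat_lit 0) (.cons (.rf (nat_lit 123) (nat_lit 39850090)) (.cons (.rf (nat_lit 242) (nat_lit 11584701642934304)) (.cons (.rf (nat_lit 243) (nat_lit 398270341941280)) .nil)))) (.cons (.br (nat_lit 4) (nat_lit 0) (.cons (.rf (nat_lit 201) (nat_lit 349169650720)) (.cons (.rf (nat_lit 243) (nat_lit 395073846053920)) (.cons (.rf (nat_lit 243) (nat_lit 398270341941280)) .nil)))) .nil))))) .nil))),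
 (.br (nat_lit 2) (nat_lit 0) (.cons (.rf (nat_lit 148) (nat_lit 6614517792)) (.cons (.br (nat_lit 5) (nat_lit 1) (.cons (.rf (nat_lit 201) (nat_lit 247132686368)) (.cons (.rf (nat_lit 201) (nat_lit 247131670560)) (.cons (.br (nat_lit 5) (nat_lit 1) (.cons (.rf (nat_lit 201) (nat_lit 247132686368)) (.cons (.rf (nat_lit 201) (nat_lit 247131670560)) (.cons (.br (nat_lit 6) (nat_lit 1) (.cons (.rf (nat_lit 244) (nat_lit 325702574508064)) (.cons (.rf (nat_lit 244) (nat_lit 325702573492256)) (.cons (.rf (nat_lit 244) (nat_lit 144282993559589)) (.cons (.rf (nat_lit 244) (nat_lit 144282992543781)) (.cons (.br (nat_lit 6) (nat_lit 1) (.cons (.rf (nat_lit 244) (nat_lit 325702574508064)) (.cons (.rf (nat_lit 244) (nat_lit 325702573492256)) (.cons (.rf (nat_lit 244) (nat_lit 144282993559589)) (.cons (.rf (nat_lit 244) (nat_lit 144282992543781)) (.cons (.br (nat_lit 6) (nat_lit 1) (.cons (.rf (nat_lit 244) (nat_lit 325702574508064)) (.cons (.rf (nat_lit 244) (nat_lit 325702573492256)) (.cons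 (.rf (nat_lit 244) (nat_lit 144282993559589)) (.cons (.rf (nat_lit 244) (nat_lit 144282992543781)) .nil))))) .nil)))))) .nil)))))) .nil)))) .nil)))) .nil))),
 (.br (nat_lit 0) (nat_lit 1) (.cons (.br (nat_lit 0) (nat_lit 1) (.cons (.br (nat_lit 0) (nat_lit 1) (.cons (.br (nat_lit 0) (nat_lit 1) (.cons (.br (nat_lit 1) (nat_lit 0) (.cons (.br (nat_lit 1) (nat_lit 0) (.cons (.br (nat_lit 2) (nat_lit 0) (.cons (.rf (nat_lit 245) (nat_lit 6614517792)) (.cons (.rf (nat_lit 245) (nat_lit 5574330400)) (.cons (.br (nat_lit 2) (nat_lit 0) (.cons (.rf (nat_lit 245) (nat_lit 6614517792)) (.cons (.rf (nat_lit 245) (nat_lit 5574330400)) (.cons (.br (nat_lit 3) (nat_lit 0) (.cons (.rf (nat_lit 245) (nat_lit 6614486048)) (.cons (.rf (nat_lit 245) (nat_lit 5574298656)) (.cons (.rf (nat_lit 245) (nat_lit 8829045824)) (.cons (.rf (nat_lit 245) (nat_lit 7788858432)) (.cons (.br (nat_lit 3) (nat_lit 0) (.cons (.rf (nat_lit 245) (nat_lit 6614486048)) (.cons (.rf (nat_lit 245) (nat_lit 5574298656))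 (.cons (.rf (nat_lit 245) (nat_lit 8829045824)) (.cons (.rf (nat_lit 245) (nat_lit 7788858432)) .nil))))) .nil)))))) .nil)))) .nil)))) .nil)) .nil)) .nil)) .nil)) .nil)) .nil))]

theorem c7 : chkAll C T R L7 (nat_lit 225) = true := by decide +kernel

theorem l7 : (nat_lit 225) + L7.length = (nat_lit 247) := by decide +kernel

end Pool.Agent.H93.Neg.Q14_8_0_0_0_6
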