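import Pool.Agent.H93.Neg.Fin
import Pool.Agent.H93.Neg.PrfQ14_0_8_2_4_0_0
import Pool.Agent.H93.Neg.PrfQ14_2_4_3_5_0_0
import Pool.Agent.H93.Neg.PrfQ14_2_4_3_5_0_1
import Pool.Agent.H93.Neg.PrfQ14_4_0_4_6_0_0
import Pool.Agent.H93.Neg.PrfQ14_4_0_4_6_0_1
import Pool.Agent.H93.Neg.PrfQ14_4_0_4_6_0_2
import Pool.Agent.H93.Neg.PrfQ14_4_0_4_6_0_3
import Pool.Agent.H93.Neg.PrfQ14_4_0_4_6_0_4
import Pool.Agent.H93.Neg.PrfQ14_4_0_4_6_0_5
import Pool.Agent.H93.Neg.PrfQ14_4_0_4_6_0_6
import Pool.Agent.H93.Neg.PrfQ14_4_0_5_4_1_0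
import Pool.Agent.H93.Neg.PrfQ14_4_4_0_4_2_0
import Pool.Agent.H93.Neg.PrfQ14_4_4_0_4_2_1
import Pool.Agent.H93.Neg.PrfQ14_4_4_0_4_2_2
import Pool.Agent.H93.Neg.PrfQ14_4_4_0_4_2_3
import Pool.Agent.H93.Neg.PrfQ14_4_4_0_4_2_4
import Pool.Agent.H93.Neg.PrfQ14_4_4_0_4_2_5
import Pool.Agent.H93.Neg.PrfQ14_4_4_0_4_2_6
import Pool.Agent.H93.Neg.PrfQ14_4_4_0_4_2_7
import Pool.Agent.H93.Neg.PrfQ14_6_0_0_7_1_0
import Pool.Agent.H93.Neg.PrfQ14_6_0_0_7_1_1
import Pool.Agent.H93.Neg.PrfQ14_6_0_0_7_1_2
import Pool.Agent.H93.Neg.PrfQ14_6_0_0_7_1_3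
import Pool.Agent.H93.Neg.PrfQ14_6_0_0_7_1_4
import Pool.Agent.H93.Neg.PrfQ14_6_0_0_7_1_5
import Pool.Agent.H93.Neg.PrfQ14_6_0_0_7_1_6
import Pool.Agent.H93.Neg.PrfQ14_6_0_1_5_2_0
import Pool.Agent.H93.Neg.PrfQ14_6_0_1_5_2_1
import Pool.Agent.H93.Neg.PrfQ14_8_0_0_0_6_0

/-!
The cases for degree 4 and order 14.
-/

set_option autoImplicit false
set_option maxRecDepth 100000
set_option linter.all false

namespace Pool.Agent.H93.Neg

namespace Q14_0_4_8_2_0

open Finset Classical

/-- degree, order and types -/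
def C : Cl := ⟨nat_lit 4,nat_lit 14,[nat_lit 3,nat_lit 7,nat_lit 0,nat_lit 4,nat_lit 8]⟩

/-- the numbers of vertices of each type -/
def R : ℕ := nat_lit 1073872904

/-- part of the table -/
noncomputable def T0 : Tr := (.node (.node (lf (nat_lit 5) (nat_lit 554597836510208891788839616663)) (lf (nat_lit 1) (nat_lit 7))) (lf (nat_lit 5) (nat_lit 554597836510208891779981246615)))

/-- the table -/
noncomputable def T : Tr := T0

/-- part of the certificates -/
def L0 : List Prf := [(.br (nat_lit 2) (nat_lit 1) (.cons (.kr (nat_lit 1) (nat_lit 65536) (nat_lit 0) (nat_lit 1)) .nil)),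
 (.br (nat_lit 2) (nat_lit 1) (.cons (.rf (nat_lit 0) (nat_lit 4294688)) (.cons (.rf (nat_lit 0) (nat_lit 3278880)) .nil))),
 (.br (nat_lit 0) (nat_lit 0) (.cons (.br (nat_lit 0) (nat_lit 1) (.cons (.br (nat_lit 0) (nat_lit 1) (.cons (.br (nat_lit 0) (nat_lit 1) (.cons (.br (nat_lit 1) (nat_lit 1) (.cons (.rf (nat_lit 1) (nat_lit 4294688)) (.cons (.rf (nat_lit 1) (nat_lit 4262944)) (.cons (.rf (nat_lit 1) (nat_lit 3215392)) .nil)))) .nil)) .nil)) .nil)) .nil))]

theorem c0 : chkAll C T R L0 (nat_lit 0) = true := by decide +kernel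

theorem l0 : (nat_lit 0) + L0.length = (nat_lit 3) := by decide +kernel

theorem r : isRoot (T.get (nat_lit 2)) (nat_lit 7) = true := by decide +kernel

theorem no {V : Type} [Fintype V] {Nb : V → Finset V} {x : V → ℤ} (H : Hyp C Nb x)
    (hR : ∀ t, (univ.filter (fun w => ty Nb x w = t)).card ≤ R / 16 ^ t % 16) (v : V)
    (hv : ty Nb x v = 7) : False := by
  have h0 : ∀ i < (nat_lit 0), ∀ φ, ¬ PEmb Nb x (T.get i) φ := fun i hi => absurd hi (Nat.not_lt_zero i)
  have h1 := chkAll_sound H hR c0 h0
  rw [l0] at h1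
  exact no_root h1 (Nat.lt_succ_self (nat_lit 2)) r v hv

end Q14_0_4_8_2_0

namespace Q14_0_4_9_0_1

open Finset Classical

/-- degree, order and types -/
def C : Cl := ⟨nat_lit 4,nat_lit 14,[nat_lit 3,nat_lit 7,nat_lit 0,nat_lit 4,nat_lit 8]⟩

/-- the numbers of vertices of each type -/
def R : ℕ := nat_lit 5368709129

/-- part of the table -/
noncomputable def T0 : Tr := (lf (nat_lit 1) (nat_lit 7))

/-- the table -/
noncomputable def T : Tr := T0

/-- part of the certificates -/
def L0 : List Prf := [(.br (nat_lit 0) (nat_lit 0) (.cons (.br (nat_lit 0) (nat_lit 1) (.cons (.br (nat_lit 0) (nat_lit 1) (.cons (.br (nat_lit 0) (nat_lit 1) (.cons (.br (nat_lit 2) (nat_lit 0) (.cons (.br (nat_lit 3) (nat_lit 0) (.cons (.br (nat_lit 1) (nat_lit 1) (.cons (.kr (nat_lit 1) (nat_lit 256) (nat_lit 0) (nat_lit 2)) .nil)) .nil)) .nil)) .nil)) .nil)) .nil)) .nil))]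

theorem c0 : chkAll C T R L0 (nat_lit 0) = true := by decide +kernel

theorem l0 : (nat_lit 0) + L0.length = (nat_lit 1) := by decide +kernel

theorem r : isRoot (T.get (nat_lit 0)) (nat_lit 7) = true := by decide +kernel

theorem no {V : Type} [Fintype V] {Nb : V → Finset V} {x : V → ℤ} (H : Hyp C Nb x)
    (hR : ∀ t, (univ.filter (fun w => ty Nb x w = t)).card ≤ R / 16 ^ t % 16) (v : V)
    (hv : ty Nb x v = 7) : False := by
  have h0 : ∀ i < (nat_lit 0), ∀ φ, ¬ PEmb Nb x (T.get i) φ := fun i hi => absurd hi (Nat.not_lt_zero i)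
  have h1 := chkAll_sound H hR c0 h0
  rw [l0] at h1
  exact no_root h1 (Nat.lt_succ_self (nat_lit 0)) r v hv

end Q14_0_4_9_0_1

namespace Q14_0_8_2_4_0

open Finset Classical

theorem r : isRoot (T.get (nat_lit 352)) (nat_lit 0) = true := by decide +kernel

theorem no {V : Type} [Fintype V] {Nb : V → Finset V} {x : V → ℤ} (H : Hyp C Nb x)
    (hR : ∀ t, (univ.filter (fun w => ty Nb x w = t)).card ≤ R / 16 ^ t % 16) (v : V)
    (hv : ty Nb x v = 0) : False := by
  have h0 : ∀ i < (nat_lit 0), ∀ φ, ¬ PEmb Nb x (T.get i) φ := fun i hi => absurd hi (Nat.not_lt_zero i)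
  have h1 := chkAll_sound H hR c0 h0
  rw [l0] at h1
  have h2 := chkAll_sound H hR c1 h1
  rw [l1] at h2
  have h3 := chkAll_sound H hR c2 h2
  rw [l2] at h3
  have h4 := chkAll_sound H hR c3 h3
  rw [l3] at h4
  have h5 := chkAll_sound H hR c4 h4
  rw [l4] at h5
  have h6 := chkAll_sound H hR c5 h5
  rw [l5] at h6
  have h7 := chkAll_sound H hR c6 h6
  rw [l6] at h7
  have h8 := chkAll_sound H hR c7 h7
  rw [l7] at h8
  have h9 := chkAll_sound H hR c8 h8
  rw [l8] at h9
  have h10 := chkAll_sound H hR c9 h9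
  rw [l9] at h10
  have h11 := chkAll_sound H hR c10 h10
  rw [l10] at h11
  exact no_root h11 (Nat.lt_succ_self (nat_lit 352)) r v hv

end Q14_0_8_2_4_0

namespace Q14_0_8_3_2_1

open Finset Classical

/-- degree, order and types -/
def C : Cl := ⟨nat_lit 4,nat_lit 14,[nat_lit 3,nat_lit 7,nat_lit 0,nat_lit 4,nat_lit 8]⟩

/-- the numbers of vertices of each type -/
def R : ℕ := nat_lit 6442582019

/-- part of the table -/
noncomputable def T0 : Tr := (.node (.node (.node (lf (nat_lit 5) (nat_lit 680020890626826268835988)) (lf (nat_lit 2) (nat_lit 144))) (lf (nat_lit 5) (nat_lit 680020814065632603537556))) (.node (.node (lf (nat_lit 5) (nat_lit 680020890626821705433236)) (lf (nat_lit 1) (nat_lit 0))) (lf (nat_lit 3) (nat_lit 2415919248))))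

/-- the table -/
noncomputable def T : Tr := T0

/-- part of the certificates -/
def L0 : List Prf := [(.br (nat_lit 1) (nat_lit 0) (.cons (.kr (nat_lit 1) (nat_lit 256) (nat_lit 0) (nat_lit 2)) .nil)),
 (.br (nat_lit 1) (nat_lit 0) (.cons (.rf (nat_lit 0) (nat_lit 4294688)) (.cons (.rf (nat_lit 0) (nat_lit 3278880)) .nil))),
 (.br (nat_lit 1) (nat_lit 0) (.cons (.rf (nat_lit 1) (nat_lit 4294688)) (.cons (.br (nat_lit 1) (nat_lit 0) (.cons (.kr (nat_lit 1) (nat_lit 256) (nat_lit 0) (nat_lit 2)) .nil)) .nil))),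
 (.br (nat_lit 0) (nat_lit 0) (.cons (.br (nat_lit 0) (nat_lit 0) (.cons (.br (nat_lit 1) (nat_lit 0) (.cons (.rf (nat_lit 1) (nat_lit 4294688)) (.cons (.rf (nat_lit 2) (nat_lit 4294688)) (.cons (.rf (nat_lit 2) (nat_lit 3278880)) .nil)))) .nil)) .nil)),
 (.br (nat_lit 0) (nat_lit 0) (.cons (.rf (nat_lit 3) (nat_lit 2080)) (.cons (.br (nat_lit 0) (nat_lit 0) (.cons (.rf (nat_lit 3) (nat_lit 3104)) (.cons (.br (nat_lit 0) (nat_lit 0) (.cons (.rf (nat_lit 3) (nat_lit 4128)) .nil)) .nil))) .nil))),
 (.br (nat_lit 0) (nat_lit 0) (.cons (.rf (nat_lit 4) (nat_lit 32)) (.cons (.br (nat_lit 0) (nat_lit 0) (.cons (.rf (nat_lit 4) (nat_lit 64)) (.cons (.br (nat_lit 0) (nat_lit 0) (.cons (.rf (nat_lit 4) (nat_lit 96)) .nil)) .nil))) .nil)))]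

theorem c0 : chkAll C T R L0 (nat_lit 0) = true := by decide +kernel

theorem l0 : (nat_lit 0) + L0.length = (nat_lit 6) := by decide +kernel

theorem r : isRoot (T.get (nat_lit 5)) (nat_lit 0) = true := by decide +kernel

theorem no {V : Type} [Fintype V] {Nb : V → Finset V} {x : V → ℤ} (H : Hyp C Nb x)
    (hR : ∀ t, (univ.filter (fun w => ty Nb x w = t)).card ≤ R / 16 ^ t % 16) (v : V)
    (hv : ty Nb x v = 0) : False := by
  have h0 : ∀ i < (nat_lit 0), ∀ φ, ¬ PEmb Nb x (T.get i) φ := fun i hi => absurd hi (Nat.not_lt_zero i)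
  have h1 := chkAll_sound H hR c0 h0
  rw [l0] at h1
  exact no_root h1 (Nat.lt_succ_self (nat_lit 5)) r v hv

end Q14_0_8_3_2_1

namespace Q14_0_8_4_0_2

open Finset Classical

/-- degree, order and types -/
def C : Cl := ⟨nat_lit 4,nat_lit 14,[nat_lit 3,nat_lit 7,nat_lit 0,nat_lit 4,nat_lit 8]⟩

/-- the numbers of vertices of each type -/
def R : ℕ := nat_lit 10737418244

/-- part of the table -/
noncomputable def T0 : Tr := (lf (nat_lit 1) (nat_lit 0))

/-- the table -/
noncomputable def T : Tr := T0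

/-- part of the certificates -/
def L0 : List Prf := [(.br (nat_lit 0) (nat_lit 0) (.cons (.br (nat_lit 0) (nat_lit 0) (.cons (.br (nat_lit 0) (nat_lit 0) (.cons (.br (nat_lit 0) (nat_lit 0) .nil) .nil)) .nil)) .nil))]

theorem c0 : chkAll C T R L0 (nat_lit 0) = true := by decide +kernel

theorem l0 : (nat_lit 0) + L0.length = (nat_lit 1) := by decide +kernel

theorem r : isRoot (T.get (nat_lit 0)) (nat_lit 0) = true := by decide +kernel

theorem no {V : Type} [Fintype V] {Nb : V → Finset V} {x : V → ℤ} (H : Hyp C Nb x)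
    (hR : ∀ t, (univ.filter (fun w => ty Nb x w = t)).card ≤ R / 16 ^ t % 16) (v : V)
    (hv : ty Nb x v = 0) : False := by
  have h0 : ∀ i < (nat_lit 0), ∀ φ, ¬ PEmb Nb x (T.get i) φ := fun i hi => absurd hi (Nat.not_lt_zero i)
  have h1 := chkAll_sound H hR c0 h0
  rw [l0] at h1
  exact no_root h1 (Nat.lt_succ_self (nat_lit 0)) r v hv

end Q14_0_8_4_0_2

namespace Q14_2_0_9_3_0

open Finset Classical

/-- degree, order and types -/
def C : Cl := ⟨nat_lit 4,nat_lit 14,[nat_lit 3,nat_lit 7,nat_lit 0,nat_lit 4,nat_lit 8]⟩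

/-- the numbers of vertices of each type -/
def R : ℕ := nat_lit 204809

/-- part of the table -/
noncomputable def T0 : Tr := (lf (nat_lit 1) (nat_lit 3))

/-- the table -/
noncomputable def T : Tr := T0

/-- part of the certificates -/
def L0 : List Prf := [(.br (nat_lit 0) (nat_lit 0) (.cons (.br (nat_lit 0) (nat_lit 0) (.cons (.br (nat_lit 0) (nat_lit 0) (.cons (.br (nat_lit 0) (nat_lit 1) (.cons (.br (nat_lit 1) (nat_lit 1) (.cons (.br (nat_lit 2) (nat_lit 1) (.cons (.br (nat_lit 3) (nat_lit 1) (.cons (.kr (nat_lit 1) (nat_lit 4294967296) (nat_lit 0) (nat_lit 1)) .nil)) .nil)) .nil)) .nil)) .nil)) .nil)) .nil))]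

theorem c0 : chkAll C T R L0 (nat_lit 0) = true := by decide +kernel

theorem l0 : (nat_lit 0) + L0.length = (nat_lit 1) := by decide +kernel

theorem r : isRoot (T.get (nat_lit 0)) (nat_lit 3) = true := by decide +kernel

theorem no {V : Type} [Fintype V] {Nb : V → Finset V} {x : V → ℤ} (H : Hyp C Nb x)
    (hR : ∀ t, (univ.filter (fun w => ty Nb x w = t)).card ≤ R / 16 ^ t % 16) (v : V)
    (hv : ty Nb x v = 3) : False := by
  have h0 : ∀ i < (nat_lit 0), ∀ φ, ¬ PEmb Nb x (T.get i) φ := fun i hi => absurd hi (Nat.not_lt_zero i)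
  have h1 := chkAll_sound H hR c0 h0
  rw [l0] at h1
  exact no_root h1 (Nat.lt_succ_self (nat_lit 0)) r v hv

end Q14_2_0_9_3_0

namespace Q14_2_0_10_1_1

open Finset Classical

/-- degree, order and types -/
def C : Cl := ⟨nat_lit 4,nat_lit 14,[nat_lit 3,nat_lit 7,nat_lit 0,nat_lit 4,nat_lit 8]⟩

/-- the numbers of vertices of each type -/
def R : ℕ := nat_lit 4295041034

/-- part of the table -/
noncomputable def T0 : Tr := (lf (nat_lit 1) (nat_lit 8))

/-- the table -/
noncomputable def T : Tr := T0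

/-- part of the certificates -/
def L0 : List Prf := [(.br (nat_lit 0) (nat_lit 1) (.cons (.br (nat_lit 0) (nat_lit 1) (.cons (.br (nat_lit 0) (nat_lit 1) .nil) .nil)) .nil))]

theorem c0 : chkAll C T R L0 (nat_lit 0) = true := by decide +kernel

theorem l0 : (nat_lit 0) + L0.length = (nat_lit 1) := by decide +kernel

theorem r : isRoot (T.get (nat_lit 0)) (nat_lit 8) = true := by decide +kernel

theorem no {V : Type} [Fintype V] {Nb : V → Finset V} {x : V → ℤ} (H : Hyp C Nb x)
    (hR : ∀ t, (univ.filter (fun w => ty Nb x w = t)).card ≤ R / 16 ^ t % 16) (v : V)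
    (hv : ty Nb x v = 8) : False := by
  have h0 : ∀ i < (nat_lit 0), ∀ φ, ¬ PEmb Nb x (T.get i) φ := fun i hi => absurd hi (Nat.not_lt_zero i)
  have h1 := chkAll_sound H hR c0 h0
  rw [l0] at h1
  exact no_root h1 (Nat.lt_succ_self (nat_lit 0)) r v hv

end Q14_2_0_10_1_1

namespace Q14_2_4_3_5_0

open Finset Classical

theorem r : isRoot (T.get (nat_lit 1031)) (nat_lit 0) = true := by decide +kernel

theorem no {V : Type} [Fintype V] {Nb : V → Finset V} {x : V → ℤ} (H : Hyp C Nb x)
    (hR : ∀ t, (univ.filter (fun w => ty Nb x w = t)).card ≤ R / 16 ^ t % 16) (v : V)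
    (hv : ty Nb x v = 0) : False := by
  have h0 : ∀ i < (nat_lit 0), ∀ φ, ¬ PEmb Nb x (T.get i) φ := fun i hi => absurd hi (Nat.not_lt_zero i)
  have h1 := chkAll_sound H hR c0 h0
  rw [l0] at h1
  have h2 := chkAll_sound H hR c1 h1
  rw [l1] at h2
  have h3 := chkAll_sound H hR c2 h2
  rw [l2] at h3
  have h4 := chkAll_sound H hR c3 h3
  rw [l3] at h4
  have h5 := chkAll_sound H hR c4 h4
  rw [l4] at h5
  have h6 := chkAll_sound H hR c5 h5
  rw [l5] at h6
  have h7 := chkAll_sound H hR c6 h6
  rw [l6] at h7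
  have h8 := chkAll_sound H hR c7 h7
  rw [l7] at h8
  have h9 := chkAll_sound H hR c8 h8
  rw [l8] at h9
  have h10 := chkAll_sound H hR c9 h9
  rw [l9] at h10
  have h11 := chkAll_sound H hR c10 h10
  rw [l10] at h11
  have h12 := chkAll_sound H hR c11 h11
  rw [l11] at h12
  have h13 := chkAll_sound H hR c12 h12
  rw [l12] at h13
  have h14 := chkAll_sound H hR c13 h13
  rw [l13] at h14
  have h15 := chkAll_sound H hR c14 h14
  rw [l14] at h15
  have h16 := chkAll_sound H hR c15 h15
  rw [l15] at h16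
  have h17 := chkAll_sound H hR c16 h16
  rw [l16] at h17
  have h18 := chkAll_sound H hR c17 h17
  rw [l17] at h18
  have h19 := chkAll_sound H hR c18 h18
  rw [l18] at h19
  have h20 := chkAll_sound H hR c19 h19
  rw [l19] at h20
  have h21 := chkAll_sound H hR c20 h20
  rw [l20] at h21
  have h22 := chkAll_sound H hR c21 h21
  rw [l21] at h22
  have h23 := chkAll_sound H hR c22 h22
  rw [l22] at h23
  have h24 := chkAll_sound H hR c23 h23
  rw [l23] at h24
  have h25 := chkAll_sound H hR c24 h24
  rw [l24] at h25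
  have h26 := chkAll_sound H hR c25 h25
  rw [l25] at h26
  have h27 := chkAll_sound H hR c26 h26
  rw [l26] at h27
  have h28 := chkAll_sound H hR c27 h27
  rw [l27] at h28
  have h29 := chkAll_sound H hR c28 h28
  rw [l28] at h29
  have h30 := chkAll_sound H hR c29 h29
  rw [l29] at h30
  have h31 := chkAll_sound H hR c30 h30
  rw [l30] at h31
  have h32 := chkAll_sound H hR c31 h31
  rw [l31] at h32
  exact no_root h32 (Nat.lt_succ_self (nat_lit 1031)) r v hv

end Q14_2_4_3_5_0

namespace Q14_2_4_4_3_1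

open Finset Classical

/-- degree, order and types -/
def C : Cl := ⟨nat_lit 4,nat_lit 14,[nat_lit 3,nat_lit 7,nat_lit 0,nat_lit 4,nat_lit 8]⟩

/-- the numbers of vertices of each type -/
def R : ℕ := nat_lit 5368913924

/-- part of the table -/
noncomputable def T0 : Tr := (.node (.node (.node (.node (.node (.node (lf (nat_lit 3) (nat_lit 1970327303225491)) (lf (nat_lit 14) (nat_lit 58405969117305731202080886489921073304850543711240475508480437890300898420272889231265532740120))) (.node (lf (nat_lit 7) (nat_lit 89203172202986844509653395039601602030732832)) (lf (nat_lit 10) (nat_lit 737186970691013639936614111758081887008238029501409481007967543332)))) (.node (.node (lf (nat_lit 10) (nat_lit 737186970690958266547592816841663276276005922918702297460523434003)) (lf (nat_lit 12) (nat_lit 207499685406651690307743104177692832851855597593415138775152996243802055086445092))) (lf (nat_lit 12) (nat_lit 207499685406651690307743104177692832851854890443999448982850479146710849105821987)))) (.node (.node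 (.node (lf (nat_lit 10) (nat_lit 737186970691113910629173317561234570240388328463264662718678829076)) (lf (nat_lit 7) (nat_lit 89203172202965611363365166413409705919513104))) (.node (lf (nat_lit 8) (nat_lit 1496577743529271592675244584019941031661094846857744)) (lf (nat_lit 1) (nat_lit 7)))) (.node (.node (lf (nat_lit 7) (nat_lit 89203172202965294450733998602440319833213984)) (lf (nat_lit 9) (nat_lit 43939767521084078749845188386990680265914953042607441199123))) (lf (nat_lit 14) (nat_lit 58405969117305731202080886489921073304850932821436398488073381089655828281113410466070143224392))))) (.node (.node (.node (.node (lf (nat_lit 8) (nat_lit 2619014234607632949652623616549588928344425735653400)) (lf (nat_lit 14) (nat_lit 58405897502759688192804416099712370162377723471204458923302871057032014772909128734134971203600))) (.node (lf (nat_lit 12) (nat_lit 207499685406651690307743104177692832851860356229518116556919860182308173593674051)) (lf (nat_lit 10) (nat_lit 737186970691013639936614111758082133249362212571800510173078904868))))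 (.node (.node (lf (nat_lit 7) (nat_lit 89203172202986844510937878430208182634676752)) (lf (nat_lit 10) (nat_lit 737186970691012143347162692129234190658788235456574129285812457488))) (lf (nat_lit 6) (nat_lit 5316923391997048939679208178116985872)))) (.node (.node (.node (lf (nat_lit 5) (nat_lit 554597836510207765880074403991)) (lf (nat_lit 13) (nat_lit 3481267041999443245058112531299655038407500554408812432770334508380339193550598154748440))) (lf (nat_lit 14) (nat_lit 58405897502759688192804416099712370162377135316280953129568439850917182603411860462015919165456))) (.node (.node (lf (nat_lit 13) (nat_lit 3481267041999443245058112531299655038407557198305036803557593120954845744546247308480528)) (lf (nat_lit 3) (nat_lit 1970327320002707))) (lf (nat_lit 7) (nat_lit 89203172202965611363365166120675712625017364)))))) (.node (.node (.node (.node (.node (lf (nat_lit 8) (nat_lit 2619014234607632949652623616549588928344460363825159)) (lf (nat_lit 12) (nat_lit 207499685406651690307743104177692832851855597593415138775152996243802055086444560)))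 (.node (lf (nat_lit 12) (nat_lit 207499685406651690307743104177692832851860356229518116576338231159868154712392003)) (lf (nat_lit 7) (nat_lit 156105413115469701614045358471331296678248723)))) (.node (.node (lf (nat_lit 6) (nat_lit 5316923391997030050363021365201603104)) (lf (nat_lit 12) (nat_lit 207499685406651690307743104177692832851854895761033364339572103033674227064508964))) (lf (nat_lit 9) (nat_lit 43939767521084078749845188304593388738779765888835366421012)))) (.node (.node (.node (lf (nat_lit 7) (nat_lit 156105413115490934759105772103585169563189784)) (lf (nat_lit 7) (nat_lit 89203172202965611363365166120675730140430864))) (lf (nat_lit 14) (nat_lit 58405897502759688192804416099712370162377135316280953140478743240319772088206308812796987445264))) (.node (.node (lf (nat_lit 7) (nat_lit 89203172202986844509653394818925228879514144)) (lf (nat_lit 7) (nat_lit 156105413115469384698901892203759721313734948))) (lf (nat_lit 7) (nat_lit 89203172202965611363365166413409701289001492))))) (.node (.node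 (.node (.node (lf (nat_lit 5) (nat_lit 554597831787765847716670734867)) (lf (nat_lit 6) (nat_lit 5316923391995764455995867634618860324))) (.node (lf (nat_lit 7) (nat_lit 89203172202965294453227407956776739430990624)) (lf (nat_lit 2) (nat_lit 117440660)))) (.node (.node (lf (nat_lit 7) (nat_lit 89202984781817888779465976585595166797070864)) (lf (nat_lit 6) (nat_lit 9304607696263157409364097828330144016))) (lf (nat_lit 6) (nat_lit 5316923391997048939679208160668681232)))) (.node (.node (.node (lf (nat_lit 10) (nat_lit 737186970690958266553658619535663686900142052895544347574591848467)) (lf (nat_lit 13) (nat_lit 3481262773439865600633884435874961028240760228693994042552723401628996867772090654181960))) (lf (nat_lit 14) (nat_lit 58405969117305731202080886489921073304850344666375163275297721127960337898903222052691394957328))) (.node (.node (lf (nat_lit 12) (nat_lit 207499685406651690307743104177692832851860356229843902761178515138492826317455683)) (lf (nat_lit 5) (nat_lit 554597836510208891779981246615)))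 (lf (nat_lit 14) (nat_lit 58405969117305731202080886489921073304850543711240475519390741930008555382716705620838393629256)))))))

/-- part of the table -/
noncomputable def T1 : Tr := (.node (.node (.node (.node (.node (.node (lf (nat_lit 5) (nat_lit 554597831787765847725529104915)) (lf (nat_lit 13) (nat_lit 3481267041999443245058112531299655038407477361633805960900717251029455739429179055145492))) (.node (lf (nat_lit 13) (nat_lit 3481267041999443245058112531299655038407557198299571017714406993227038563131218511015968)) (lf (nat_lit 9) (nat_lit 43939767521084167953527814850692861497892923250214296358931)))) (.node (.node (lf (nat_lit 10) (nat_lit 737186970690958266550804125724057550620438445033160123655680720915)) (lf (nat_lit 12) (nat_lit 207499685406651690307743104177692832851855597593415138775152996243802055086444564))) (lf (nat_lit 10) (nat_lit 737186970691012143347162692129234190658788216566382273576023622168)))) (.node (.node (.node (lf (nat_lit 9) (nat_lit 43939767521090144552539188716485176696800489929971356155923))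 (lf (nat_lit 7) (nat_lit 89203172202965611363365166413409688471208464))) (lf (nat_lit 14) (nat_lit 58405897502759688192804416099712370162377135316280953140478743240319772088206308813072133787664))) (.node (.node (lf (nat_lit 7) (nat_lit 89203172202986844510937878794999730708414992)) (lf (nat_lit 9) (nat_lit 43939767521084078749845188386990680265914804423819737972755))) (lf (nat_lit 14) (nat_lit 58405969117305731202080886489921073304850932821436398488073381089655518720545725395087095024200))))) (.node (.node (.node (.node (lf (nat_lit 7) (nat_lit 156105413115490934759105771810851211232412180)) (lf (nat_lit 13) (nat_lit 3481267041999443245058112531299655038407500554408812432770334547141523284945196093065800))) (.node (lf (nat_lit 4) (nat_lit 18889506463879857701140)) (lf (nat_lit 10) (nat_lit 737186970691013639936614111056249751474926631678590382345056968740)))) (.node (.node (lf (nat_lit 5) (nat_lit 316913330077947977198028718356)) (lf (nat_lit 7) (nat_lit 156105413115469384698901892203759721246621972)))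 (lf (nat_lit 5) (nat_lit 316913330077949103097868453152)))) (.node (.node (.node (lf (nat_lit 8) (nat_lit 2619014234607271399659320179636039132261061952020503)) (lf (nat_lit 13) (nat_lit 3481262773439865600633884435874961028240760228693994042552723401629015319019763991104072))) (lf (nat_lit 12) (nat_lit 207499685406651690307743104177692832851854890444325235187109134683860953540559171))) (.node (.node (lf (nat_lit 13) (nat_lit 3481267041999443245058112531299655038407557198305036802907288363037764061578438564130848)) (lf (nat_lit 5) (nat_lit 554597836510208891788839616663))) (lf (nat_lit 14) (nat_lit 58405969117305731202080886489921073304850932821436398488073380439350760803464042426728326365720)))))) (.node (.node (.node (.node (.node (lf (nat_lit 7) (nat_lit 156105413115479525903023697372680427591962643)) (lf (nat_lit 13) (nat_lit 3481267041999443245058112531299655038407465586840341136731698520170207781094303897485844))) (.node (lf (nat_lit 14) (nat_lit 58405969117305731202080886489921073304851883148226735666068646918612988944601634670640497692688))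 (lf (nat_lit 6) (nat_lit 9304607696263176298830029306910999060)))) (.node (.node (lf (nat_lit 5) (nat_lit 316913330077947977206887088404)) (lf (nat_lit 11) (nat_lit 12367945039668779987558311472993661931267672524513802787040001334766997520))) (lf (nat_lit 8) (nat_lit 2619014234607462808480572003399931713269935005237780)))) (.node (.node (.node (lf (nat_lit 6) (nat_lit 9304607696264441893047438371828269588)) (lf (nat_lit 7) (nat_lit 89203172202965611363365166120675712692126224))) (lf (nat_lit 14) (nat_lit 58405897502759688192804416099712370162377135316280953140478743240319772088206308812659280056336))) (.node (.node (lf (nat_lit 7) (nat_lit 89203172202965294450733998602440310974843936)) (lf (nat_lit 5) (nat_lit 316913348967338473382784009760))) (lf (nat_lit 7) (nat_lit 89203172202965611363365166413409688404099604))))) (.node (.node (.node (.node (lf (nat_lit 6) (nat_lit 9304607696263761872233372770111586307)) (lf (nat_lit 6) (nat_lit 5316923391995764455995867617170555684))) (.node (lf (nat_lit 8)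 (nat_lit 1496577743529271592675244584019941031661112295162384)) (lf (nat_lit 3) (nat_lit 1970327387111571)))) (.node (.node (lf (nat_lit 6) (nat_lit 5316923391995745566531062060306924320)) (lf (nat_lit 10) (nat_lit 737186970690958266547592818415469244835427223171802646890206462488))) (lf (nat_lit 3) (nat_lit 1125902322762148)))) (.node (.node (.node (lf (nat_lit 10) (nat_lit 737186970691012143353228494823234540752609413460557074278008258579)) (lf (nat_lit 13) (nat_lit 3481267041999443245058112531299655038407477361633805960922267311233335639254649383420440))) (lf (nat_lit 12) (nat_lit 207499685406651690307743104177692832851854890443999449002268850705236281935495491))) (.node (.node (lf (nat_lit 14) (nat_lit 58405969117305731202080886489921073304851883148226735671534432437280563013982089302788420935696)) (lf (nat_lit 8) (nat_lit 2619014234607468125434387615364364474886234000327700))) (lf (nat_lit 14) (nat_lit 58405969117305731202080886489921073304850543711240475519390741930008245822149020549855345429064)))))))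

/-- the table -/
noncomputable def T : Tr := (.node T0 T1)

/-- part of the certificates -/
def L0 : List Prf := [(.br (nat_lit 0) (nat_lit 1) (.cons (.br (nat_lit 3) (nat_lit 1) (.cons (.br (nat_lit 4) (nat_lit 1) (.cons (.br (nat_lit 4) (nat_lit 1) .nil) .nil)) .nil)) .nil)),
 (.br (nat_lit 3) (nat_lit 1) (.cons (.br (nat_lit 5) (nat_lit 1) .nil) .nil)),
 (.br (nat_lit 7) (nat_lit 0) (.cons (.br (nat_lit 8) (nat_lit 1) (.cons (.br (nat_lit 8) (nat_lit 1) .nil) .nil)) .nil)),
 (.br (nat_lit 6) (nat_lit 0) (.cons (.br (nat_lit 6) (nat_lit 0) .nil) .nil)),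
 (.br (nat_lit 6) (nat_lit 1) (.cons (.rf (nat_lit 3) (nat_lit 8796604448)) (.cons (.rf (nat_lit 2) (nat_lit 144057665568)) .nil))),
 (.br (nat_lit 4) (nat_lit 0) (.cons (.br (nat_lit 3) (nat_lit 1) (.cons (.br (nat_lit 3) (nat_lit 1) (.cons (.rf (nat_lit 1) (nat_lit 7474240)) (.cons (.rf (nat_lit 2) (nat_lit 247132686368)) .nil))) (.cons (.br (nat_lit 3) (nat_lit 1) (.cons (.rf (nat_lit 1) (nat_lit 7474240)) (.cons (.rf (nat_lit 2) (nat_lit 281492424736)) .nil))) (.cons (.rf (nat_lit 2) (nat_lit 247132686368)) .nil)))) (.cons (.rf (nat_lit 4) (nat_lit 247132686368)) .nil))),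
 (.br (nat_lit 2) (nat_lit 1) (.cons (.rf (nat_lit 1) (nat_lit 4294688)) (.cons (.br (nat_lit 3) (nat_lit 1) (.cons (.br (nat_lit 3) (nat_lit 1) .nil) .nil)) .nil))),
 (.br (nat_lit 5) (nat_lit 0) (.cons (.rf (nat_lit 3) (nat_lit 5574330400)) (.cons (.br (nat_lit 5) (nat_lit 0) (.cons (.rf (nat_lit 3) (nat_lit 5607884832)) .nil)) .nil))),
 (.br (nat_lit 6) (nat_lit 1) (.cons (.br (nat_lit 8) (nat_lit 0) (.cons (.kr (nat_lit 18446744073726328833) (nat_lit 72057598332960768) (nat_lit 0) (nat_lit 1)) .nil)) .nil)),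
 (.br (nat_lit 4) (nat_lit 0) (.cons (.rf (nat_lit 7) (nat_lit 273811488)) (.cons (.kr (nat_lit 16777216) (nat_lit 4294967296) (nat_lit 3) (nat_lit 0)) (.cons (.br (nat_lit 5) (nat_lit 1) (.cons (.rf (nat_lit 7) (nat_lit 273909792)) (.cons (.br (nat_lit 6) (nat_lit 1) (.cons (.rf (nat_lit 8) (nat_lit 325702574508064)) (.cons (.br (nat_lit 6) (nat_lit 1) (.cons (.rf (nat_lit 8) (nat_lit 325702574508064)) .nil)) .nil))) .nil))) .nil)))),
 (.br (nat_lit 3) (nat_lit 1) (.cons (.rf (nat_lit 6) (nat_lit 7474240)) (.cons (.br (nat_lit 4) (nat_lit 1) (.cons (.br (nat_lit 7) (nat_lit 1) (.cons (.br (nat_lit 3) (nat_lit 0) (.cons (.rf (nat_lit 7) (nat_lit 273778720)) (.cons (.rf (nat_lit 9) (nat_lit 9043225708576)) (.cons (.br (nat_lit 4) (nat_lit 0) (.cons (.rf (nat_lit 7) (nat_lit 273811488)) (.cons (.rf (nat_lit 9) (nat_lit 9043224692768)) (.cons (.kr (nat_lit 16777216) (nat_lit 4294967296) (nat_lit 3) (nat_lit 0)) .nil)))) .nil)))) .nil)) (.cons (.rf (nat_lit 6) (nat_lit 8491072)) .nil))) .nil))),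
 (.br (nat_lit 2) (nat_lit 0) (.cons (.br (nat_lit 3) (nat_lit 0) (.cons (.rf (nat_lit 5) (nat_lit 6614517792)) (.cons (.rf (nat_lit 5) (nat_lit 5574330400)) (.cons (.br (nat_lit 4) (nat_lit 0) (.cons (.rf (nat_lit 4) (nat_lit 247131670560)) (.cons (.rf (nat_lit 4) (nat_lit 246091483168)) (.cons (.br (nat_lit 5) (nat_lit 1) (.cons (.br (nat_lit 6) (nat_lit 1) (.cons (.br (nat_lit 8) (nat_lit 0) (.cons (.br (nat_lit 7) (nat_lit 1) (.cons (.br (nat_lit 8) (nat_lit 1) (.cons (.rf (nat_lit 6) (nat_lit 8522816)) (.cons (.rf (nat_lit 6) (nat_lit 8491072)) (.cons (.kr (nat_lit 18446744073709551617) (nat_lit 72057594037993472) (nat_lit 0) (nat_lit 1)) .nil)))) .nil)) .nil)) (.cons (.rf (nat_lit 7) (nat_lit 275023904)) .nil))) (.cons (.rf (nat_lit 4) (nat_lit 247131801632)) .nil))) .nil)))) .nil)))) (.cons (.br (nat_lit 3) (nat_lit 1) (.cons (.rf (nat_lit 10) (nat_lit 6614517792)) (.cons (.rf (nat_lit 6) (nat_lit 7474240)) (.cons (.br (nat_lit 3) (nat_lit 1) (.cons (.rf (nat_lit 10) (nat_lit 6614517792))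 (.cons (.rf (nat_lit 6) (nat_lit 8522816)) .nil))) .nil)))) .nil))),
 (.br (nat_lit 2) (nat_lit 0) (.cons (.rf (nat_lit 11) (nat_lit 172066848)) (.cons (.br (nat_lit 2) (nat_lit 0) (.cons (.rf (nat_lit 11) (nat_lit 205621280)) .nil)) .nil))),
 (.br (nat_lit 6) (nat_lit 1) (.cons (.br (nat_lit 6) (nat_lit 1) .nil) .nil)),
 (.br (nat_lit 6) (nat_lit 1) (.cons (.rf (nat_lit 7) (nat_lit 308545700)) (.cons (.br (nat_lit 8) (nat_lit 0) (.cons (.rf (nat_lit 13) (nat_lit 282566166560)) .nil)) .nil))),
 (.br (nat_lit 4) (nat_lit 0) (.cons (.rf (nat_lit 14) (nat_lit 325702574508064)) (.cons (.rf (nat_lit 14) (nat_lit 325701534320672)) (.cons (.br (nat_lit 5) (nat_lit 1) (.cons (.rf (nat_lit 13) (nat_lit 145131407392)) (.cons (.br (nat_lit 6) (nat_lit 1) (.cons (.rf (nat_lit 13) (nat_lit 145164961824)) (.cons (.br (nat_lit 8) (nat_lit 0) (.cons (.br (nat_lit 7) (nat_lit 1) (.cons (.kr (nat_lit 4722366482873940180993) (nat_lit 18446744073726394368) (nat_lit 0) (nat_lit 1)) .nil)) .nil)) .nil))) .nil))) .nil)))),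
 (.br (nat_lit 4) (nat_lit 0) (.cons (.rf (nat_lit 7) (nat_lit 308414627)) (.cons (.rf (nat_lit 13) (nat_lit 145126328352)) .nil))),
 (.br (nat_lit 3) (nat_lit 0) (.cons (.rf (nat_lit 16) (nat_lit 325702574508064)) (.cons (.rf (nat_lit 16) (nat_lit 325701534320672)) (.cons (.br (nat_lit 4) (nat_lit 0) (.cons (.rf (nat_lit 13) (nat_lit 110767638560)) (.cons (.rf (nat_lit 13) (nat_lit 110801192992)) (.cons (.kr (nat_lit 16777216) (nat_lit 4294967296) (nat_lit 3) (nat_lit 0)) .nil)))) .nil)))),
 (.br (nat_lit 5) (nat_lit 0) (.cons (.kr (nat_lit 256) (nat_lit 65536) (nat_lit 1) (nat_lit 0)) (.cons (.br (nat_lit 5) (nat_lit 0) (.cons (.kr (nat_lit 256) (nat_lit 65536) (nat_lit 1) (nat_lit 0)) .nil)) .nil))),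
 (.br (nat_lit 2) (nat_lit 0) (.cons (.kr (nat_lit 256) (nat_lit 65536) (nat_lit 1) (nat_lit 0)) (.cons (.br (nat_lit 4) (nat_lit 0) (.cons (.rf (nat_lit 18) (nat_lit 172066848)) (.cons (.br (nat_lit 5) (nat_lit 0) (.cons (.br (nat_lit 5) (nat_lit 0) .nil) .nil)) .nil))) .nil))),
 (.br (nat_lit 4) (nat_lit 0) (.cons (.br (nat_lit 5) (nat_lit 0) (.cons (.br (nat_lit 6) (nat_lit 0) .nil) .nil)) (.cons (.br (nat_lit 5) (nat_lit 0) (.cons (.br (nat_lit 5) (nat_lit 0) .nil) .nil)) .nil))),
 (.br (nat_lit 2) (nat_lit 0) (.cons (.rf (nat_lit 19) (nat_lit 4294688)) (.cons (.rf (nat_lit 19) (nat_lit 3278880)) (.cons (.br (nat_lit 2) (nat_lit 0) (.cons (.rf (nat_lit 19) (nat_lit 4294688)) (.cons (.rf (nat_lit 19) (nat_lit 3278880)) (.cons (.br (nat_lit 3) (nat_lit 0) (.cons (.br (nat_lit 5) (nat_lit 0) (.cons (.br (nat_lit 5) (nat_lit 0) .nil) .nil)) (.cons (.rf (nat_lit 20) (nat_lit 6614517792)) (.cons (.rf (nat_lit 20) (nat_lit 5574330400)) .nil)))) .nil)))) .nil)))),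
 (.br (nat_lit 3) (nat_lit 0) (.cons (.rf (nat_lit 21) (nat_lit 5376096)) (.cons (.kr (nat_lit 65536) (nat_lit 16777216) (nat_lit 2) (nat_lit 0)) (.cons (.br (nat_lit 5) (nat_lit 0) (.cons (.rf (nat_lit 18) (nat_lit 206702688)) (.cons (.rf (nat_lit 18) (nat_lit 240258112)) .nil))) .nil)))),
 (.br (nat_lit 5) (nat_lit 0) (.cons (.br (nat_lit 5) (nat_lit 0) .nil) .nil)),
 (.br (nat_lit 5) (nat_lit 0) (.cons (.br (nat_lit 5) (nat_lit 0) .nil) .nil)),
 (.br (nat_lit 5) (nat_lit 0) (.cons (.br (nat_lit 5) (nat_lit 0) .nil) .nil)),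
 (.br (nat_lit 5) (nat_lit 0) (.cons (.br (nat_lit 5) (nat_lit 0) .nil) .nil)),
 (.br (nat_lit 5) (nat_lit 0) (.cons (.rf (nat_lit 24) (nat_lit 6614517792)) (.cons (.rf (nat_lit 24) (nat_lit 2319456291)) .nil))),
 (.br (nat_lit 6) (nat_lit 0) (.cons (.rf (nat_lit 21) (nat_lit 8623297)) (.cons (.br (nat_lit 7) (nat_lit 0) (.cons (.rf (nat_lit 23) (nat_lit 411277473)) (.cons (.br (nat_lit 8) (nat_lit 0) (.cons (.zr (nat_lit 1227815576028283737801728) (nat_lit 928455140144506258386321411) (nat_lit 10) (nat_lit 5)) (.cons (.br (nat_lit 12) (nat_lit 0) (.cons (.ev (nat_lit 79228167255149622130953486336) (nat_lit 1)) .nil)) .nil))) (.cons (.br (nat_lit 8) (nat_lit 0) (.cons (.br (nat_lit 12) (nat_lit 0) (.cons (.ev (nat_lit 79228167255149904705441824768) (nat_lit 1)) .nil)) (.cons (.rf (nat_lit 27) (nat_lit 14369921185)) .nil))) .nil)))) (.cons (.br (nat_lit 7) (nat_lit 0) (.cons (.rf (nat_lit 25) (nat_lit 14369921185)) (.cons (.br (nat_lit 8) (nat_lit 0) (.cons (.rf (nat_lit 27) (nat_lit 13328716993))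 (.cons (.rf (nat_lit 26) (nat_lit 13328716993)) .nil))) (.cons (.br (nat_lit 8) (nat_lit 0) (.cons (.br (nat_lit 12) (nat_lit 0) (.cons (.br (nat_lit 12) (nat_lit 0) .nil) .nil)) (.cons (.rf (nat_lit 27) (nat_lit 14369921185)) .nil))) .nil)))) .nil)))),
 (.br (nat_lit 6) (nat_lit 0) (.cons (.kr (nat_lit 1099511627776) (nat_lit 281474976710656) (nat_lit 5) (nat_lit 0)) (.cons (.rf (nat_lit 28) (nat_lit 14242959524133701664)) (.cons (.br (nat_lit 7) (nat_lit 0) (.cons (.br (nat_lit 8) (nat_lit 0) (.cons (.ev (nat_lit 18446745177532989696) (nat_lit 1)) (.cons (.kr (nat_lit 1208925819896104168259584) (nat_lit 18446745181811113984) (nat_lit 2) (nat_lit 0)) .nil))) (.cons (.br (nat_lit 13) (nat_lit 0) (.cons (.rf (nat_lit 26) (nat_lit 13328716993)) (.cons (.kr (nat_lit 158765810038350020260107649025) (nat_lit 1208925820177579144970240) (nat_lit 0) (nat_lit 1)) .nil))) (.cons (.br (nat_lit 8) (nat_lit 0) (.cons (.br (nat_lit 8) (nat_lit 0) (.cons (.ev (nat_lit 18447025552998072576) (nat_lit 1)) .nil))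 (.cons (.br (nat_lit 8) (nat_lit 0) (.cons (.ev (nat_lit 18447025552998072576) (nat_lit 1)) .nil)) .nil))) .nil)))) .nil)))),
 (.br (nat_lit 5) (nat_lit 0) (.cons (.rf (nat_lit 21) (nat_lit 8624289)) (.cons (.br (nat_lit 6) (nat_lit 0) (.cons (.rf (nat_lit 22) (nat_lit 13160879169)) (.cons (.rf (nat_lit 28) (nat_lit 14242959524133701664)) (.cons (.rf (nat_lit 29) (nat_lit 14242959524133701664)) (.cons (.br (nat_lit 6) (nat_lit 0) (.cons (.rf (nat_lit 22) (nat_lit 13160879169)) (.cons (.rf (nat_lit 28) (nat_lit 14242959524133701664)) (.cons (.rf (nat_lit 29) (nat_lit 14242959524133701664)) .nil)))) .nil))))) .nil))),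
 (.br (nat_lit 12) (nat_lit 0) (.cons (.kr (nat_lit 158765810038350020260107649025) (nat_lit 1208925819616828214804480) (nat_lit 0) (nat_lit 1)) (.cons (.kr (nat_lit 158765810038350020260107649025) (nat_lit 1208925820177579144970240) (nat_lit 0) (nat_lit 1)) .nil))),
 (.br (nat_lit 5) (nat_lit 0) (.cons (.br (nat_lit 5) (nat_lit 0) .nil) .nil)),
 (.br (nat_lit 6) (nat_lit 0) (.cons (.rf (nat_lit 30) (nat_lit 407901467811350560)) (.cons (.kr (nat_lit 1099511627776) (nat_lit 281474976710656) (nat_lit 5) (nat_lit 0)) (.cons (.br (nat_lit 7) (nat_lit 0) (.cons (.br (nat_lit 7) (nat_lit 0) (.cons (.rf (nat_lit 31) (nat_lit 493858305440582043680)) (.cons (.rf (nat_lit 32) (nat_lit 14369921185)) .nil))) (.cons (.rf (nat_lit 31) (nat_lit 493858305440582043680)) (.cons (.br (nat_lit 7) (nat_lit 0) (.cons (.rf (nat_lit 32) (nat_lit 14369921185)) (.cons (.rf (nat_lit 31) (nat_lit 493858305440582043680)) .nil))) .nil)))) .nil)))),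
 (.br (nat_lit 5) (nat_lit 0) (.cons (.rf (nat_lit 21) (nat_lit 8624289)) (.cons (.br (nat_lit 6) (nat_lit 0) (.cons (.rf (nat_lit 30) (nat_lit 407901467811350560)) (.cons (.rf (nat_lit 22) (nat_lit 13128373313)) (.cons (.rf (nat_lit 33) (nat_lit 14242959524133701664)) (.cons (.br (nat_lit 6) (nat_lit 0) (.cons (.rf (nat_lit 30) (nat_lit 407901467811350560)) (.cons (.rf (nat_lit 22) (nat_lit 13128373313)) (.cons (.rf (nat_lit 33) (nat_lit 14242959524133701664)) .nil)))) .nil))))) .nil))),
 (.br (nat_lit 6) (nat_lit 0) (.cons (.rf (nat_lit 30) (nat_lit 407901467811350560)) (.cons (.rf (nat_lit 34) (nat_lit 407901467811350560)) (.cons (.kr (nat_lit 1099511627776) (nat_lit 281474976710656) (nat_lit 5) (nat_lit 0)) .nil)))),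
 (.br (nat_lit 5) (nat_lit 0) (.cons (.rf (nat_lit 30) (nat_lit 407901468851537952)) (.cons (.rf (nat_lit 34) (nat_lit 407901468851537952)) (.cons (.br (nat_lit 5) (nat_lit 0) (.cons (.rf (nat_lit 30) (nat_lit 407901468851537952)) (.cons (.rf (nat_lit 34) (nat_lit 407901468851537952)) (.cons (.br (nat_lit 6) (nat_lit 0) (.cons (.rf (nat_lit 30) (nat_lit 407901467811350560)) (.cons (.rf (nat_lit 34) (nat_lit 407901467811350560)) (.cons (.rf (nat_lit 35) (nat_lit 493858305440582043680)) (.cons (.rf (nat_lit 35) (nat_lit 458117738797769787424)) .nil))))) .nil)))) .nil)))),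
 (.br (nat_lit 1) (nat_lit 0) (.cons (.br (nat_lit 4) (nat_lit 0) (.cons (.rf (nat_lit 21) (nat_lit 3215392)) (.cons (.rf (nat_lit 21) (nat_lit 3149858)) (.cons (.rf (nat_lit 21) (nat_lit 2101283)) (.cons (.br (nat_lit 4) (nat_lit 0) (.cons (.rf (nat_lit 21) (nat_lit 3215392)) (.cons (.rf (nat_lit 21) (nat_lit 3149858)) (.cons (.rf (nat_lit 21) (nat_lit 2101283)) (.cons (.br (nat_lit 4) (nat_lit 0) (.cons (.rf (nat_lit 21) (nat_lit 3215392)) (.cons (.rf (nat_lit 21) (nat_lit 3149858)) (.cons (.rf (nat_lit 21) (nat_lit 2101283)) .nil)))) .nil))))) .nil))))) .nil)),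
 (.br (nat_lit 4) (nat_lit 0) (.cons (.br (nat_lit 5) (nat_lit 0) (.cons (.kr (nat_lit 1099511627776) (nat_lit 281474976710656) (nat_lit 5) (nat_lit 0)) .nil)) .nil)),
 (.br (nat_lit 3) (nat_lit 0) (.cons (.rf (nat_lit 37) (nat_lit 168032)) (.cons (.br (nat_lit 5) (nat_lit 0) (.cons (.rf (nat_lit 38) (nat_lit 7722896448)) (.cons (.rf (nat_lit 38) (nat_lit 6682709056)) .nil))) .nil))),
 (.br (nat_lit 3) (nat_lit 0) (.cons (.rf (nat_lit 37) (nat_lit 168032)) (.cons (.rf (nat_lit 39) (nat_lit 247132686368)) (.cons (.rf (nat_lit 39) (nat_lit 213846689824)) .nil)))),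
 (.br (nat_lit 8) (nat_lit 0) (.cons (.rf (nat_lit 27) (nat_lit 13329733793)) (.cons (.br (nat_lit 12) (nat_lit 0) (.cons (.ev (nat_lit 79228167255149622130953486336) (nat_lit 1)) .nil)) .nil))),
 (.br (nat_lit 6) (nat_lit 0) (.cons (.rf (nat_lit 37) (nat_lit 269505)) (.cons (.br (nat_lit 7) (nat_lit 0) (.cons (.rf (nat_lit 23) (nat_lit 411277473)) (.cons (.rf (nat_lit 41) (nat_lit 493858305440582043680)) (.cons (.rf (nat_lit 41) (nat_lit 458117738797769787424)) .nil)))) .nil))),
 (.br (nat_lit 6) (nat_lit 0) (.cons (.rf (nat_lit 37) (nat_lit 269505)) (.cons (.rf (nat_lit 42) (nat_lit 493858305440582043680)) (.cons (.rf (nat_lit 42) (nat_lit 458117738797769787424)) .nil)))),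
 (.br (nat_lit 6) (nat_lit 0) (.cons (.rf (nat_lit 40) (nat_lit 459837477953)) (.cons (.rf (nat_lit 43) (nat_lit 493858305440582043680)) (.cons (.br (nat_lit 6) (nat_lit 0) (.cons (.rf (nat_lit 40) (nat_lit 459837477953)) (.cons (.rf (nat_lit 43) (nat_lit 493858305440582043680)) .nil))) .nil)))),
 (.br (nat_lit 5) (nat_lit 0) (.cons (.rf (nat_lit 36) (nat_lit 407901468851537952)) (.cons (.rf (nat_lit 37) (nat_lit 269473)) (.cons (.br (nat_lit 5) (nat_lit 0) (.cons (.rf (nat_lit 36) (nat_lit 407901468851537952)) (.cons (.rf (nat_lit 37) (nat_lit 269473)) (.cons (.br (nat_lit 6) (nat_lit 0) (.cons (.rf (nat_lit 40) (nat_lit 459837477953)) (.cons (.rf (nat_lit 43) (nat_lit 493858305440582043680)) (.cons (.rf (nat_lit 44) (nat_lit 493858305440582043680)) (.cons (.rf (nat_lit 44) (nat_lit 458117738797769787424)) .nil))))) .nil)))) .nil)))),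
 (.br (nat_lit 6) (nat_lit 0) (.cons (.rf (nat_lit 45) (nat_lit 407901467811350560)) (.cons (.rf (nat_lit 40) (nat_lit 459804972097)) (.cons (.br (nat_lit 6) (nat_lit 0) (.cons (.rf (nat_lit 45) (nat_lit 407901467811350560)) (.cons (.rf (nat_lit 40) (nat_lit 459804972097)) .nil))) .nil)))),
 (.br (nat_lit 5) (nat_lit 0) (.cons (.rf (nat_lit 36) (nat_lit 407901468851537952)) (.cons (.rf (nat_lit 37) (nat_lit 269473)) (.cons (.br (nat_lit 5) (nat_lit 0) (.cons (.rf (nat_lit 36) (nat_lit 407901468851537952)) (.cons (.rf (nat_lit 37) (nat_lit 269473)) (.cons (.br (nat_lit 6) (nat_lit 0) (.cons (.rf (nat_lit 45) (nat_lit 407901467811350560)) (.cons (.rf (nat_lit 40) (nat_lit 459804972097)) (.cons (.rf (nat_lit 46) (nat_lit 493858305440582043680)) (.cons (.rf (nat_lit 46) (nat_lit 458117738797769787424)) .nil))))) .nil)))) .nil)))),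
 (.br (nat_lit 4) (nat_lit 0) (.cons (.rf (nat_lit 7) (nat_lit 377620707)) (.cons (.br (nat_lit 8) (nat_lit 1) (.cons (.rf (nat_lit 7) (nat_lit 377817315)) (.cons (.br (nat_lit 10) (nat_lit 0) (.cons (.br (nat_lit 9) (nat_lit 1) (.cons (.br (nat_lit 5) (nat_lit 0) (.cons (.rf (nat_lit 36) (nat_lit 407901468851537952)) (.cons (.rf (nat_lit 45) (nat_lit 407901468851537952)) (.cons (.rf (nat_lit 47) (nat_lit 407901468851537952)) (.cons (.br (nat_lit 5) (nat_lit 0) (.cons (.rf (nat_lit 36) (nat_lit 407901468851537952)) (.cons (.rf (nat_lit 45) (nat_lit 407901468851537952)) (.cons (.rf (nat_lit 47) (nat_lit 407901468851537952)) (.cons (.br (nat_lit 5) (nat_lit 0) (.cons (.rf (nat_lit 36) (nat_lit 407901468851537952)) (.cons (.rf (nat_lit 45) (nat_lit 407901468851537952)) (.cons (.rf (nat_lit 47) (nat_lit 407901468851537952)) .nil)))) .nil))))) .nil))))) .nil)) .nil)) .nil))) .nil))),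
 (.br (nat_lit 3) (nat_lit 1) (.cons (.rf (nat_lit 6) (nat_lit 10619968)) (.cons (.br (nat_lit 4) (nat_lit 1) (.cons (.br (nat_lit 10) (nat_lit 1) (.cons (.br (nat_lit 1) (nat_lit 1) (.cons (.rf (nat_lit 15) (nat_lit 398341276010528)) (.cons (.rf (nat_lit 15) (nat_lit 398341274994720)) (.cons (.rf (nat_lit 17) (nat_lit 398341276010528)) (.cons (.br (nat_lit 3) (nat_lit 0) (.cons (.rf (nat_lit 48) (nat_lit 407901468851537952)) (.cons (.rf (nat_lit 48) (nat_lit 407900403699648544)) (.cons (.br (nat_lit 4) (nat_lit 0) (.cons (.rf (nat_lit 48) (nat_lit 407901468850522144)) (.cons (.rf (nat_lit 48) (nat_lit 407900403698632736)) (.cons (.kr (nat_lit 16777216) (nat_lit 4294967296) (nat_lit 3) (nat_lit 0)) .nil)))) .nil)))) .nil))))) .nil)) (.cons (.rf (nat_lit 6) (nat_lit 11636800)) .nil))) .nil))),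
 (.br (nat_lit 2) (nat_lit 0) (.cons (.rf (nat_lit 12) (nat_lit 4294688)) (.cons (.br (nat_lit 3) (nat_lit 1) (.cons (.rf (nat_lit 49) (nat_lit 325702574508064)) (.cons (.rf (nat_lit 6) (nat_lit 10619968)) (.cons (.br (nat_lit 3) (nat_lit 1) (.cons (.rf (nat_lit 49) (nat_lit 325702574508064)) (.cons (.rf (nat_lit 6) (nat_lit 11668544)) .nil))) .nil)))) .nil))),
 (.br (nat_lit 2) (nat_lit 0) (.cons (.rf (nat_lit 12) (nat_lit 4294688)) (.cons (.rf (nat_lit 50) (nat_lit 9043225708576)) (.cons (.br (nat_lit 2) (nat_lit 0) (.cons (.rf (nat_lit 12) (nat_lit 4294688)) (.cons (.rf (nat_lit 50) (nat_lit 10142737336352)) .nil))) .nil)))),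
 (.br (nat_lit 3) (nat_lit 0) (.cons (.br (nat_lit 4) (nat_lit 0) (.cons (.br (nat_lit 4) (nat_lit 0) (.cons (.kr (nat_lit 16777216) (nat_lit 4294967296) (nat_lit 3) (nat_lit 0)) .nil)) (.cons (.br (nat_lit 4) (nat_lit 0) (.cons (.kr (nat_lit 16777216) (nat_lit 4294967296) (nat_lit 3) (nat_lit 0)) .nil)) .nil))) .nil)),
 (.br (nat_lit 3) (nat_lit 0) (.cons (.rf (nat_lit 52) (nat_lit 172066848)) (.cons (.br (nat_lit 3) (nat_lit 0) (.cons (.rf (nat_lit 52) (nat_lit 205621280)) .nil)) .nil))),
 (.br (nat_lit 3) (nat_lit 0) (.cons (.rf (nat_lit 53) (nat_lit 4294688)) (.cons (.br (nat_lit 3) (nat_lit 0) (.cons (.rf (nat_lit 53) (nat_lit 4294688)) .nil)) .nil))),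
 (.br (nat_lit 1) (nat_lit 0) (.cons (.br (nat_lit 1) (nat_lit 0) (.cons (.br (nat_lit 3) (nat_lit 0) (.cons (.rf (nat_lit 53) (nat_lit 4294688)) (.cons (.rf (nat_lit 54) (nat_lit 172066848)) (.cons (.br (nat_lit 3) (nat_lit 0) (.cons (.rf (nat_lit 53) (nat_lit 4294688)) (.cons (.rf (nat_lit 54) (nat_lit 205621280)) .nil))) .nil)))) (.cons (.rf (nat_lit 37) (nat_lit 133152)) .nil))) (.cons (.rf (nat_lit 37) (nat_lit 100384)) .nil))),
 (.br (nat_lit 9) (nat_lit 0) (.cons (.kr (nat_lit 9463179709817294946305) (nat_lit 72059793078026240) (nat_lit 0) (nat_lit 1)) (.cons (.br (nat_lit 10) (nat_lit 0) (.cons (.br (nat_lit 10) (nat_lit 0) (.cons (.ev (nat_lit 79229376162450436196187308288) (nat_lit 1)) .nil)) (.cons (.br (nat_lit 10) (nat_lit 0) (.cons (.ev (nat_lit 79229376162450436196187308288) (nat_lit 1)) .nil)) .nil))) .nil))),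
 (.br (nat_lit 9) (nat_lit 0) (.cons (.rf (nat_lit 56) (nat_lit 493858305440582043680)) (.cons (.rf (nat_lit 56) (nat_lit 493823402543469922336)) (.cons (.br (nat_lit 9) (nat_lit 0) (.cons (.rf (nat_lit 56) (nat_lit 493858305440582043680)) (.cons (.rf (nat_lit 56) (nat_lit 493823402543469922336)) .nil))) .nil)))),
 (.br (nat_lit 3) (nat_lit 0) (.cons (.br (nat_lit 4) (nat_lit 0) (.cons (.br (nat_lit 4) (nat_lit 0) .nil) .nil)) .nil)),
 (.br (nat_lit 3) (nat_lit 0) (.cons (.rf (nat_lit 58) (nat_lit 6614517792)) (.cons (.rf (nat_lit 58) (nat_lit 172001382)) .nil))),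
 (.br (nat_lit 3) (nat_lit 0) (.cons (.rf (nat_lit 59) (nat_lit 6614517792)) (.cons (.rf (nat_lit 59) (nat_lit 6582011936)) (.cons (.br (nat_lit 3) (nat_lit 0) (.cons (.rf (nat_lit 58) (nat_lit 172001382)) (.cons (.rf (nat_lit 58) (nat_lit 139495526)) .nil))) .nil)))),
 (.br (nat_lit 4) (nat_lit 0) (.cons (.rf (nat_lit 7) (nat_lit 281151683)) (.cons (.br (nat_lit 7) (nat_lit 0) (.cons (.rf (nat_lit 7) (nat_lit 281249987)) (.cons (.br (nat_lit 12) (nat_lit 1) (.cons (.br (nat_lit 8) (nat_lit 0) (.cons (.br (nat_lit 6) (nat_lit 0) (.cons (.rf (nat_lit 57) (nat_lit 493858305440582043680)) (.cons (.rf (nat_lit 57) (nat_lit 493857214725047289888)) (.cons (.rf (nat_lit 57) (nat_lit 493821221112400414752)) (.cons (.rf (nat_lit 60) (nat_lit 13264787617)) .nil))))) .nil)) .nil)) .nil))) .nil)))]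

theorem c0 : chkAll C T R L0 (nat_lit 0) = true := by decide +kernel

theorem l0 : (nat_lit 0) + L0.length = (nat_lit 62) := by decide +kernel

/-- part of the certificates -/
def L1 : List Prf := [(.br (nat_lit 10) (nat_lit 0) (.cons (.br (nat_lit 10) (nat_lit 0) (.cons (.kr (nat_lit 2417870085973336353931265) (nat_lit 72059793078026240) (nat_lit 0) (nat_lit 1)) .nil)) (.cons (.br (nat_lit 10) (nat_lit 0) (.cons (.kr (nat_lit 2417870085973336353931265) (nat_lit 72059793078026240) (nat_lit 0) (nat_lit 1)) .nil)) .nil))),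
 (.br (nat_lit 9) (nat_lit 0) (.cons (.rf (nat_lit 62) (nat_lit 493858305440582043680)) (.cons (.rf (nat_lit 62) (nat_lit 493823402543469922336)) (.cons (.br (nat_lit 9) (nat_lit 0) (.cons (.rf (nat_lit 62) (nat_lit 493858305440582043680)) (.cons (.rf (nat_lit 62) (nat_lit 493823402543469922336)) .nil))) .nil)))),
 (.br (nat_lit 4) (nat_lit 0) (.cons (.rf (nat_lit 7) (nat_lit 281118916)) (.cons (.br (nat_lit 6) (nat_lit 1) (.cons (.rf (nat_lit 7) (nat_lit 281118919)) (.cons (.br (nat_lit 7) (nat_lit 0) (.cons (.br (nat_lit 8) (nat_lit 0) (.cons (.br (nat_lit 6) (nat_lit 0) (.cons (.rf (nat_lit 63) (nat_lit 493858305440582043680)) (.cons (.rf (nat_lit 63) (nat_lit 493857214725047289888)) (.cons (.rf (nat_lit 63) (nat_lit 493821221112400414752)) (.cons (.kr (nat_lit 18518801667764322305) (nat_lit 562962838323200) (nat_lit 0) (nat_lit 1)) .nil))))) .nil)) .nil)) .nil))) .nil))),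
 (.br (nat_lit 2) (nat_lit 0) (.cons (.rf (nat_lit 12) (nat_lit 4294688)) (.cons (.br (nat_lit 1) (nat_lit 1) (.cons (.rf (nat_lit 15) (nat_lit 289631325227040)) (.cons (.rf (nat_lit 15) (nat_lit 289631324211232)) (.cons (.rf (nat_lit 17) (nat_lit 289631325227040)) (.cons (.br (nat_lit 3) (nat_lit 0) (.cons (.rf (nat_lit 61) (nat_lit 493858305440582043680)) (.cons (.rf (nat_lit 64) (nat_lit 493858305440582043680)) (.cons (.br (nat_lit 4) (nat_lit 0) (.cons (.rf (nat_lit 61) (nat_lit 493858305440581027872)) (.cons (.rf (nat_lit 64) (nat_lit 493858305440581027872)) (.cons (.kr (nat_lit 16777216) (nat_lit 4294967296) (nat_lit 3) (nat_lit 0)) .nil)))) .nil)))) .nil))))) .nil))),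
 (.br (nat_lit 2) (nat_lit 0) (.cons (.rf (nat_lit 12) (nat_lit 4294688)) (.cons (.rf (nat_lit 65) (nat_lit 14242959524133701664)) (.cons (.br (nat_lit 2) (nat_lit 0) (.cons (.rf (nat_lit 12) (nat_lit 4294688)) (.cons (.rf (nat_lit 65) (nat_lit 15395881028740548640)) .nil))) .nil)))),
 (.br (nat_lit 2) (nat_lit 0) (.cons (.rf (nat_lit 12) (nat_lit 4294688)) (.cons (.rf (nat_lit 66) (nat_lit 407901468851537952)) (.cons (.br (nat_lit 2) (nat_lit 0) (.cons (.rf (nat_lit 12) (nat_lit 4294688)) (.cons (.rf (nat_lit 66) (nat_lit 407901468851537952)) .nil))) .nil)))),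
 (.br (nat_lit 10) (nat_lit 0) (.cons (.br (nat_lit 10) (nat_lit 0) (.cons (.ev (nat_lit 79538861172272062735593832448) (nat_lit 1)) .nil)) (.cons (.br (nat_lit 10) (nat_lit 0) (.cons (.ev (nat_lit 79538861172272062735593832448) (nat_lit 1)) .nil)) .nil))),
 (.br (nat_lit 9) (nat_lit 0) (.cons (.br (nat_lit 9) (nat_lit 0) (.cons (.kr (nat_lit 9463179709817294946305) (nat_lit 72059793078026240) (nat_lit 0) (nat_lit 1)) (.cons (.rf (nat_lit 68) (nat_lit 493858305440582043680)) .nil))) (.cons (.br (nat_lit 9) (nat_lit 0) (.cons (.kr (nat_lit 9463179709817294946305) (nat_lit 72059793078026240) (nat_lit 0) (nat_lit 1)) (.cons (.rf (nat_lit 25) (nat_lit 14300521643)) .nil))) (.cons (.br (nat_lit 9) (nat_lit 0) (.cons (.rf (nat_lit 68) (nat_lit 493858305440582043680)) (.cons (.rf (nat_lit 25) (nat_lit 14300521643)) .nil))) .nil)))),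
 (.br (nat_lit 3) (nat_lit 0) (.cons (.rf (nat_lit 58) (nat_lit 5574330400)) .nil)),
 (.br (nat_lit 3) (nat_lit 0) (.cons (.rf (nat_lit 70) (nat_lit 172066848)) (.cons (.br (nat_lit 3) (nat_lit 0) (.cons (.rf (nat_lit 70) (nat_lit 172066848)) .nil)) .nil))),
 (.br (nat_lit 3) (nat_lit 0) (.cons (.rf (nat_lit 32) (nat_lit 6576737317)) .nil)),
 (.br (nat_lit 3) (nat_lit 0) (.cons (.rf (nat_lit 72) (nat_lit 6614517792)) (.cons (.br (nat_lit 3) (nat_lit 0) (.cons (.rf (nat_lit 72) (nat_lit 6614517792)) .nil)) .nil))),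
 (.br (nat_lit 3) (nat_lit 0) (.cons (.rf (nat_lit 73) (nat_lit 6614517792)) (.cons (.br (nat_lit 3) (nat_lit 0) (.cons (.rf (nat_lit 73) (nat_lit 6614517792)) .nil)) .nil))),
 (.br (nat_lit 3) (nat_lit 0) (.cons (.rf (nat_lit 73) (nat_lit 6614517792)) (.cons (.rf (nat_lit 74) (nat_lit 6614517792)) (.cons (.br (nat_lit 3) (nat_lit 0) (.cons (.rf (nat_lit 73) (nat_lit 6614517792)) (.cons (.rf (nat_lit 74) (nat_lit 6614517792)) .nil))) .nil)))),
 (.br (nat_lit 4) (nat_lit 0) (.cons (.rf (nat_lit 7) (nat_lit 280103107)) (.cons (.br (nat_lit 7) (nat_lit 0) (.cons (.rf (nat_lit 7) (nat_lit 280201411)) (.cons (.br (nat_lit 11) (nat_lit 1) (.cons (.br (nat_lit 8) (nat_lit 0) (.cons (.br (nat_lit 6) (nat_lit 0) (.cons (.rf (nat_lit 69) (nat_lit 14242959524133701664)) (.cons (.rf (nat_lit 69) (nat_lit 14241868808598947872)) (.cons (.rf (nat_lit 71) (nat_lit 379885729)) (.cons (.rf (nat_lit 75) (nat_lit 14338529441)) .nil))))) .nil)) .nil)) .nil))) .nil))),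
 (.br (nat_lit 10) (nat_lit 0) (.cons (.ev (nat_lit 79537647524085965236773912576) (nat_lit 1)) (.cons (.br (nat_lit 10) (nat_lit 0) (.cons (.ev (nat_lit 79537647524085965236773912576) (nat_lit 1)) .nil)) .nil))),
 (.br (nat_lit 10) (nat_lit 0) (.cons (.rf (nat_lit 77) (nat_lit 14242959524133701664)) (.cons (.ev (nat_lit 79537647524085965236773912576) (nat_lit 1)) (.cons (.br (nat_lit 10) (nat_lit 0) (.cons (.rf (nat_lit 77) (nat_lit 14242959524133701664)) (.cons (.ev (nat_lit 79537647524085965236773912576) (nat_lit 1)) .nil))) .nil)))),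
 (.br (nat_lit 4) (nat_lit 0) (.cons (.rf (nat_lit 7) (nat_lit 280070340)) (.cons (.br (nat_lit 6) (nat_lit 1) (.cons (.rf (nat_lit 7) (nat_lit 280070343)) (.cons (.br (nat_lit 7) (nat_lit 0) (.cons (.br (nat_lit 8) (nat_lit 0) (.cons (.br (nat_lit 6) (nat_lit 0) (.cons (.rf (nat_lit 78) (nat_lit 14242959524133701664)) (.cons (.rf (nat_lit 78) (nat_lit 14241868808598947872)) (.cons (.kr (nat_lit 18518801667764322305) (nat_lit 562962838323200) (nat_lit 0) (nat_lit 1)) (.cons (.rf (nat_lit 75) (nat_lit 14338529441)) .nil))))) .nil)) .nil)) .nil))) .nil))),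
 (.br (nat_lit 2) (nat_lit 0) (.cons (.rf (nat_lit 12) (nat_lit 4294688)) (.cons (.br (nat_lit 1) (nat_lit 1) (.cons (.rf (nat_lit 15) (nat_lit 289595891746848)) (.cons (.rf (nat_lit 15) (nat_lit 289595890731040)) (.cons (.rf (nat_lit 17) (nat_lit 289595891746848)) (.cons (.br (nat_lit 3) (nat_lit 0) (.cons (.rf (nat_lit 76) (nat_lit 14242959524133701664)) (.cons (.rf (nat_lit 79) (nat_lit 14242959524133701664)) (.cons (.br (nat_lit 4) (nat_lit 0) (.cons (.rf (nat_lit 76) (nat_lit 14242959524132685856)) (.cons (.rf (nat_lit 79) (nat_lit 14242959524132685856)) (.cons (.kr (nat_lit 16777216) (nat_lit 4294967296) (nat_lit 3) (nat_lit 0)) .nil)))) .nil)))) .nil))))) .nil))),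
 (.br (nat_lit 2) (nat_lit 0) (.cons (.rf (nat_lit 12) (nat_lit 4294688)) (.cons (.rf (nat_lit 80) (nat_lit 407901468851537952)) (.cons (.br (nat_lit 2) (nat_lit 0) (.cons (.rf (nat_lit 12) (nat_lit 4294688)) (.cons (.rf (nat_lit 80) (nat_lit 407901468851537952)) .nil))) .nil)))),
 (.br (nat_lit 2) (nat_lit 0) (.cons (.rf (nat_lit 12) (nat_lit 4294688)) (.cons (.rf (nat_lit 81) (nat_lit 407901468851537952)) (.cons (.br (nat_lit 2) (nat_lit 0) (.cons (.rf (nat_lit 12) (nat_lit 4294688)) (.cons (.rf (nat_lit 81) (nat_lit 407901468851537952)) .nil))) .nil)))),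
 (.br (nat_lit 5) (nat_lit 0) (.cons (.rf (nat_lit 55) (nat_lit 6305)) (.cons (.br (nat_lit 2) (nat_lit 0) (.cons (.rf (nat_lit 12) (nat_lit 4294688)) (.cons (.rf (nat_lit 66) (nat_lit 407901468851537952)) (.cons (.rf (nat_lit 67) (nat_lit 14242959524133701664)) (.cons (.br (nat_lit 2) (nat_lit 0) (.cons (.rf (nat_lit 12) (nat_lit 4294688)) (.cons (.rf (nat_lit 66) (nat_lit 407901468851537952)) (.cons (.rf (nat_lit 67) (nat_lit 15395881028740548640)) .nil)))) .nil))))) (.cons (.br (nat_lit 2) (nat_lit 0) (.cons (.rf (nat_lit 12) (nat_lit 4294688)) (.cons (.rf (nat_lit 81) (nat_lit 407901468851537952)) (.cons (.rf (nat_lit 82) (nat_lit 407901468851537952)) (.cons (.br (nat_lit 2) (nat_lit 0) (.cons (.rf (nat_lit 12) (nat_lit 4294688)) (.cons (.rf (nat_lit 81) (nat_lit 407901468851537952)) (.cons (.rf (nat_lit 82) (nat_lit 407901468851537952)) .nil)))) .nil))))) .nil)))),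
 (.br (nat_lit 5) (nat_lit 0) (.cons (.rf (nat_lit 55) (nat_lit 6305)) (.cons (.rf (nat_lit 83) (nat_lit 11584701642934304)) (.cons (.br (nat_lit 5) (nat_lit 0) (.cons (.rf (nat_lit 55) (nat_lit 6305)) (.cons (.rf (nat_lit 83) (nat_lit 12710601549776928)) .nil))) .nil)))),
 (.br (nat_lit 3) (nat_lit 1) (.cons (.rf (nat_lit 6) (nat_lit 7474240)) (.cons (.br (nat_lit 4) (nat_lit 1) (.cons (.br (nat_lit 7) (nat_lit 1) (.cons (.br (nat_lit 5) (nat_lit 0) (.cons (.rf (nat_lit 55) (nat_lit 6305)) (.cons (.rf (nat_lit 84) (nat_lit 325702574508064)) (.cons (.br (nat_lit 5) (nat_lit 0) (.cons (.rf (nat_lit 55) (nat_lit 6305)) (.cons (.rf (nat_lit 84) (nat_lit 360886946596896)) .nil))) .nil)))) .nil)) (.cons (.rf (nat_lit 6) (nat_lit 8491072)) .nil))) .nil))),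
 (.br (nat_lit 1) (nat_lit 0) (.cons (.br (nat_lit 2) (nat_lit 0) (.cons (.rf (nat_lit 12) (nat_lit 4294688)) (.cons (.rf (nat_lit 51) (nat_lit 247132686368)) (.cons (.br (nat_lit 2) (nat_lit 0) (.cons (.rf (nat_lit 12) (nat_lit 4294688)) (.cons (.rf (nat_lit 51) (nat_lit 281492424736)) .nil))) .nil)))) (.cons (.br (nat_lit 3) (nat_lit 1) (.cons (.rf (nat_lit 85) (nat_lit 6614517792)) (.cons (.rf (nat_lit 6) (nat_lit 7474240)) (.cons (.br (nat_lit 3) (nat_lit 1) (.cons (.rf (nat_lit 85) (nat_lit 6614517792)) (.cons (.rf (nat_lit 6) (nat_lit 8522816)) .nil))) .nil)))) .nil))),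
 (.br (nat_lit 4) (nat_lit 0) (.cons (.rf (nat_lit 7) (nat_lit 274860195)) (.cons (.br (nat_lit 6) (nat_lit 1) (.cons (.rf (nat_lit 7) (nat_lit 274958499)) (.cons (.br (nat_lit 7) (nat_lit 0) (.cons (.br (nat_lit 8) (nat_lit 0) (.cons (.kr (nat_lit 4722366483969156841728) (nat_lit 562954248388608) (nat_lit 1) (nat_lit 0)) .nil)) .nil)) .nil))) .nil))),
 (.br (nat_lit 2) (nat_lit 0) (.cons (.kr (nat_lit 256) (nat_lit 65536) (nat_lit 1) (nat_lit 0)) (.cons (.br (nat_lit 1) (nat_lit 1) (.cons (.rf (nat_lit 15) (nat_lit 289487410268192)) (.cons (.rf (nat_lit 15) (nat_lit 289487409252384)) (.cons (.rf (nat_lit 17) (nat_lit 289487410268192)) (.cons (.br (nat_lit 3) (nat_lit 0) (.cons (.rf (nat_lit 87) (nat_lit 325702574508064)) (.cons (.rf (nat_lit 87) (nat_lit 325701534320672)) (.cons (.br (nat_lit 4) (nat_lit 0) (.cons (.rf (nat_lit 87) (nat_lit 325702573492256)) (.cons (.rf (nat_lit 87) (nat_lit 325701533304864)) (.cons (.kr (nat_lit 16777216) (nat_lit 4294967296) (nat_lit 3) (nat_lit 0)) .nil))))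 .nil)))) .nil))))) .nil))),
 (.br (nat_lit 2) (nat_lit 0) (.cons (.rf (nat_lit 12) (nat_lit 4294688)) (.cons (.rf (nat_lit 88) (nat_lit 9043225708576)) (.cons (.br (nat_lit 2) (nat_lit 0) (.cons (.rf (nat_lit 12) (nat_lit 4294688)) (.cons (.rf (nat_lit 88) (nat_lit 9043225708576)) .nil))) .nil)))),
 (.br (nat_lit 3) (nat_lit 1) (.cons (.rf (nat_lit 6) (nat_lit 7474240)) (.cons (.br (nat_lit 4) (nat_lit 1) (.cons (.br (nat_lit 7) (nat_lit 1) (.cons (.br (nat_lit 2) (nat_lit 0) (.cons (.rf (nat_lit 12) (nat_lit 4294688)) (.cons (.rf (nat_lit 89) (nat_lit 9043225708576)) (.cons (.rf (nat_lit 89) (nat_lit 9042185521184)) (.cons (.br (nat_lit 2) (nat_lit 0) (.cons (.rf (nat_lit 12) (nat_lit 4294688)) (.cons (.rf (nat_lit 89) (nat_lit 9043225708576)) (.cons (.rf (nat_lit 89) (nat_lit 9042185521184)) .nil)))) .nil))))) .nil)) (.cons (.rf (nat_lit 6) (nat_lit 8491072)) .nil))) .nil))),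
 (.br (nat_lit 3) (nat_lit 0) (.cons (.br (nat_lit 3) (nat_lit 0) (.cons (.rf (nat_lit 60) (nat_lit 2354184289)) .nil)) .nil)),
 (.br (nat_lit 0) (nat_lit 1) (.cons (.rf (nat_lit 0) (nat_lit 3136)) (.cons (.br (nat_lit 0) (nat_lit 1) (.cons (.rf (nat_lit 0) (nat_lit 4160)) (.cons (.br (nat_lit 1) (nat_lit 0) (.cons (.rf (nat_lit 86) (nat_lit 172066848)) (.cons (.br (nat_lit 1) (nat_lit 0) (.cons (.rf (nat_lit 86) (nat_lit 205621280)) (.cons (.br (nat_lit 5) (nat_lit 0) (.cons (.br (nat_lit 3) (nat_lit 1) (.cons (.rf (nat_lit 90) (nat_lit 6614517792)) (.cons (.rf (nat_lit 6) (nat_lit 7474240)) (.cons (.br (nat_lit 3) (nat_lit 1) (.cons (.rf (nat_lit 90) (nat_lit 6614517792)) (.cons (.rf (nat_lit 6) (nat_lit 8522816)) .nil))) .nil)))) (.cons (.br (nat_lit 6) (nat_lit 0) (.cons (.br (nat_lit 7) (nat_lit 0) (.cons (.br (nat_lit 7) (nat_lit 0) (.cons (.rf (nat_lit 71) (nat_lit 211027173)) .nil)) .nil)) (.cons (.br (nat_lit 7) (nat_lit 0) (.cons (.rf (nat_lit 91) (nat_lit 8624289)) (.cons (.br (nat_lit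 7) (nat_lit 0) (.cons (.rf (nat_lit 91) (nat_lit 8624289)) (.cons (.br (nat_lit 7) (nat_lit 0) (.cons (.rf (nat_lit 91) (nat_lit 8624289)) .nil)) .nil))) .nil))) .nil))) .nil))) .nil))) .nil))) .nil))) .nil))),
 (.br (nat_lit 2) (nat_lit 1) (.cons (.kr (nat_lit 1) (nat_lit 65536) (nat_lit 0) (nat_lit 1)) (.cons (.rf (nat_lit 92) (nat_lit 5154)) .nil))),
 (.br (nat_lit 2) (nat_lit 1) (.cons (.rf (nat_lit 93) (nat_lit 4294688)) (.cons (.rf (nat_lit 93) (nat_lit 3278880)) (.cons (.rf (nat_lit 92) (nat_lit 5154)) .nil)))),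
 (.br (nat_lit 3) (nat_lit 1) (.cons (.br (nat_lit 6) (nat_lit 1) (.cons (.br (nat_lit 5) (nat_lit 1) (.cons (.kr (nat_lit 65536) (nat_lit 4294967296) (nat_lit 2) (nat_lit 0)) (.cons (.rf (nat_lit 7) (nat_lit 273750048)) (.cons (.br (nat_lit 7) (nat_lit 1) (.cons (.kr (nat_lit 16777216) (nat_lit 4294967296) (nat_lit 3) (nat_lit 0)) (.cons (.rf (nat_lit 7) (nat_lit 275879968)) (.cons (.rf (nat_lit 7) (nat_lit 208773282)) .nil)))) .nil)))) .nil)) (.cons (.rf (nat_lit 92) (nat_lit 6371)) (.cons (.rf (nat_lit 92) (nat_lit 8419)) .nil)))),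
 (.br (nat_lit 4) (nat_lit 1) (.cons (.kr (nat_lit 18446744073726328833) (nat_lit 281479271743488) (nat_lit 0) (nat_lit 1)) .nil)),
 (.br (nat_lit 6) (nat_lit 0) (.cons (.br (nat_lit 7) (nat_lit 1) (.cons (.br (nat_lit 8) (nat_lit 0) (.cons (.br (nat_lit 3) (nat_lit 1) (.cons (.kr (nat_lit 16777216) (nat_lit 4294967296) (nat_lit 3) (nat_lit 0)) (.cons (.rf (nat_lit 96) (nat_lit 325702574508064)) (.cons (.rf (nat_lit 96) (nat_lit 323505564516514)) .nil)))) .nil)) .nil)) .nil)),
 (.br (nat_lit 2) (nat_lit 1) (.cons (.br (nat_lit 3) (nat_lit 0) (.cons (.rf (nat_lit 94) (nat_lit 4197538)) (.cons (.rf (nat_lit 95) (nat_lit 247132686368)) (.cons (.br (nat_lit 4) (nat_lit 0) (.cons (.rf (nat_lit 94) (nat_lit 3149986)) (.cons (.br (nat_lit 5) (nat_lit 1) (.cons (.br (nat_lit 6) (nat_lit 0) (.cons (.br (nat_lit 7) (nat_lit 1) (.cons (.rf (nat_lit 7) (nat_lit 273750048)) .nil)) (.cons (.rf (nat_lit 4) (nat_lit 249279092768)) .nil))) (.cons (.br (nat_lit 6) (nat_lit 0) (.cons (.rf (nat_lit 97) (nat_lit 9043225708576))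 (.cons (.br (nat_lit 6) (nat_lit 0) (.cons (.rf (nat_lit 97) (nat_lit 9043225708576)) .nil)) .nil))) .nil))) (.cons (.rf (nat_lit 95) (nat_lit 281491408928)) .nil)))) .nil)))) (.cons (.rf (nat_lit 92) (nat_lit 6306)) (.cons (.rf (nat_lit 92) (nat_lit 7330)) .nil)))),
 (.br (nat_lit 1) (nat_lit 1) (.cons (.rf (nat_lit 94) (nat_lit 4262944)) (.cons (.rf (nat_lit 94) (nat_lit 3215392)) (.cons (.br (nat_lit 2) (nat_lit 1) (.cons (.rf (nat_lit 98) (nat_lit 6614517792)) (.cons (.rf (nat_lit 98) (nat_lit 6613501984)) (.cons (.rf (nat_lit 92) (nat_lit 6306)) (.cons (.rf (nat_lit 92) (nat_lit 7330)) .nil))))) .nil)))),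
 (.br (nat_lit 3) (nat_lit 1) (.cons (.kr (nat_lit 65536) (nat_lit 4294967296) (nat_lit 2) (nat_lit 0)) (.cons (.br (nat_lit 4) (nat_lit 1) (.cons (.kr (nat_lit 72057594054705153) (nat_lit 281479271743488) (nat_lit 0) (nat_lit 1)) .nil)) (.cons (.br (nat_lit 4) (nat_lit 1) (.cons (.kr (nat_lit 72057598332895233) (nat_lit 281474993553408) (nat_lit 0) (nat_lit 1)) .nil)) .nil)))),
 (.br (nat_lit 2) (nat_lit 1) (.cons (.rf (nat_lit 100) (nat_lit 325702574508064)) (.cons (.br (nat_lit 3) (nat_lit 1) (.cons (.rf (nat_lit 100) (nat_lit 325702574476320)) (.cons (.rf (nat_lit 6) (nat_lit 7343298)) .nil))) (.cons (.br (nat_lit 3) (nat_lit 1) (.cons (.rf (nat_lit 100) (nat_lit 325702574476320)) (.cons (.rf (nat_lit 6) (nat_lit 6294754)) .nil))) .nil)))),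
 (.br (nat_lit 0) (nat_lit 1) (.cons (.rf (nat_lit 92) (nat_lit 2080)) (.cons (.br (nat_lit 0) (nat_lit 1) (.cons (.rf (nat_lit 92) (nat_lit 3104)) (.cons (.br (nat_lit 0) (nat_lit 1) (.cons (.rf (nat_lit 92) (nat_lit 4128)) (.cons (.br (nat_lit 2) (nat_lit 0) (.cons (.rf (nat_lit 94) (nat_lit 4294688)) (.cons (.rf (nat_lit 99) (nat_lit 172066848)) (.cons (.br (nat_lit 1) (nat_lit 1) (.cons (.rf (nat_lit 94) (nat_lit 4262944)) (.cons (.rf (nat_lit 94) (nat_lit 3215392)) (.cons (.br (nat_lit 3) (nat_lit 0) (.cons (.br (nat_lit 4) (nat_lit 0) (.cons (.br (nat_lit 5) (nat_lit 1) (.cons (.br (nat_lit 6) (nat_lit 0) (.cons (.br (nat_lit 7) (nat_lit 1) (.cons (.br (nat_lit 8) (nat_lit 0) (.cons (.br (nat_lit 8) (nat_lit 0) .nil) .nil)) .nil)) .nil)) (.cons (.br (nat_lit 6) (nat_lit 0) (.cons (.br (nat_lit 6) (nat_lit 0) (.cons (.br (nat_lit 8) (nat_lit 1) (.cons (.br (nat_lit 7) (nat_lit 0) (.cons (.br (nat_lit 2) (nat_lit 1) (.cons (.rf (nat_lit 101) (nat_lit 325702574508064)) (.cons (.rf (nat_lit 101)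 (nat_lit 325702573492256)) (.cons (.br (nat_lit 2) (nat_lit 1) (.cons (.rf (nat_lit 101) (nat_lit 325702574508064)) (.cons (.rf (nat_lit 101) (nat_lit 325702573492256)) (.cons (.rf (nat_lit 0) (nat_lit 7362)) .nil)))) (.cons (.br (nat_lit 2) (nat_lit 1) (.cons (.rf (nat_lit 101) (nat_lit 325702574508064)) (.cons (.rf (nat_lit 101) (nat_lit 325702573492256)) (.cons (.rf (nat_lit 0) (nat_lit 7362)) .nil)))) .nil))))) .nil)) .nil)) .nil)) .nil)) .nil))) (.cons (.rf (nat_lit 99) (nat_lit 238096416)) .nil))) (.cons (.rf (nat_lit 99) (nat_lit 239143968)) .nil))) .nil)))) .nil)))) .nil))) .nil))) .nil))),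
 (.br (nat_lit 0) (nat_lit 1) (.cons (.rf (nat_lit 0) (nat_lit 3136)) (.cons (.br (nat_lit 0) (nat_lit 1) (.cons (.rf (nat_lit 0) (nat_lit 4160)) (.cons (.br (nat_lit 3) (nat_lit 0) (.cons (.br (nat_lit 4) (nat_lit 0) (.cons (.br (nat_lit 2) (nat_lit 0) (.cons (.kr (nat_lit 1) (nat_lit 256) (nat_lit 0) (nat_lit 2)) (.cons (.br (nat_lit 2) (nat_lit 0) (.cons (.kr (nat_lit 1) (nat_lit 256) (nat_lit 0) (nat_lit 2)) (.cons (.br (nat_lit 2) (nat_lit 0) (.cons (.kr (nat_lit 1) (nat_lit 256) (nat_lit 0) (nat_lit 2)) (.cons (.br (nat_lit 5) (nat_lit 1) (.cons (.br (nat_lit 6) (nat_lit 1) (.cons (.br (nat_lit 7) (nat_lit 1) (.cons (.br (nat_lit 1) (nat_lit 1) (.cons (.br (nat_lit 8) (nat_lit 1) (.cons (.rf (nat_lit 6) (nat_lit 8522816)) (.cons (.rf (nat_lit 6) (nat_lit 8491072)) (.cons (.br (nat_lit 3) (nat_lit 1) (.cons (.br (nat_lit 3) (nat_lit 1) (.cons (.kr (nat_lit 256) (nat_lit 16777216) (nat_lit 1) (nat_lit 0)) .nil)) (.cons (.br (nat_lit 3) (nat_lit 1) (.cons (.kr (nat_lit 256) (nat_lit 16777216)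 (nat_lit 1) (nat_lit 0)) .nil)) .nil))) .nil)))) .nil)) (.cons (.rf (nat_lit 102) (nat_lit 233)) .nil))) (.cons (.rf (nat_lit 102) (nat_lit 201)) .nil))) (.cons (.rf (nat_lit 102) (nat_lit 168)) .nil))) .nil))) .nil))) .nil))) (.cons (.rf (nat_lit 102) (nat_lit 164)) .nil))) (.cons (.rf (nat_lit 102) (nat_lit 163)) .nil))) .nil))) .nil))),
 (.br (nat_lit 0) (nat_lit 0) (.cons (.rf (nat_lit 102) (nat_lit 32)) (.cons (.br (nat_lit 0) (nat_lit 1) (.cons (.rf (nat_lit 103) (nat_lit 2080)) (.cons (.br (nat_lit 0) (nat_lit 1) (.cons (.rf (nat_lit 103) (nat_lit 3104)) (.cons (.br (nat_lit 0) (nat_lit 1) (.cons (.rf (nat_lit 103) (nat_lit 4128)) (.cons (.br (nat_lit 2) (nat_lit 0) (.cons (.br (nat_lit 3) (nat_lit 0) (.cons (.br (nat_lit 4) (nat_lit 0) (.cons (.kr (nat_lit 1) (nat_lit 256) (nat_lit 0) (nat_lit 2)) (.cons (.rf (nat_lit 102) (nat_lit 164)) .nil))) (.cons (.rf (nat_lit 102) (nat_lit 163)) .nil))) (.cons (.rf (nat_lit 102) (nat_lit 162)) .nil))) .nil))) .nil))) .nil))) .nil)))]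

theorem c1 : chkAll C T R L1 (nat_lit 62) = true := by decide +kernel

theorem l1 : (nat_lit 62) + L1.length = (nat_lit 105) := by decide +kernel

theorem r : isRoot (T.get (nat_lit 104)) (nat_lit 7) = true := by decide +kernel

theorem no {V : Type} [Fintype V] {Nb : V → Finset V} {x : V → ℤ} (H : Hyp C Nb x)
    (hR : ∀ t, (univ.filter (fun w => ty Nb x w = t)).card ≤ R / 16 ^ t % 16) (v : V)
    (hv : ty Nb x v = 7) : False := by
  have h0 : ∀ i < (nat_lit 0), ∀ φ, ¬ PEmb Nb x (T.get i) φ := fun i hi => absurd hi (Nat.not_lt_zero i)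
  have h1 := chkAll_sound H hR c0 h0
  rw [l0] at h1
  have h2 := chkAll_sound H hR c1 h1
  rw [l1] at h2
  exact no_root h2 (Nat.lt_succ_self (nat_lit 104)) r v hv

end Q14_2_4_4_3_1

namespace Q14_2_4_5_1_2

open Finset Classical

/-- degree, order and types -/
def C : Cl := ⟨nat_lit 4,nat_lit 14,[nat_lit 3,nat_lit 7,nat_lit 0,nat_lit 4,nat_lit 8]⟩

/-- the numbers of vertices of each type -/
def R : ℕ := nat_lit 9663750149

/-- part of the table -/
noncomputable def T0 : Tr := (.node (.node (.node (.node (lf (nat_lit 5) (nat_lit 316913330077947977206819980576)) (lf (nat_lit 5) (nat_lit 633826013191572677987024240791))) (lf (nat_lit 6) (nat_lit 5316923391995745566678554935151296784))) (.node (.node (lf (nat_lit 3) (nat_lit 1125902322762144)) (lf (nat_lit 1) (nat_lit 8))) (lf (nat_lit 1) (nat_lit 4)))) (.node (.node (.node (lf (nat_lit 5) (nat_lit 316913330077947977206819979536)) (lf (nat_lit 5) (nat_lit 633826013191572677982460838039))) (lf (nat_lit 6) (nat_lit 5316923391995745566678554926292926736)))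 (.node (lf (nat_lit 5) (nat_lit 316913330077871416013154682672)) (lf (nat_lit 1) (nat_lit 3)))))

/-- the table -/
noncomputable def T : Tr := T0

/-- part of the certificates -/
def L0 : List Prf := [(.br (nat_lit 3) (nat_lit 0) (.cons (.br (nat_lit 4) (nat_lit 0) (.cons (.kr (nat_lit 256) (nat_lit 65536) (nat_lit 1) (nat_lit 0)) (.cons (.br (nat_lit 4) (nat_lit 0) (.cons (.kr (nat_lit 256) (nat_lit 65536) (nat_lit 1) (nat_lit 0)) .nil)) .nil))) .nil)),
 (.br (nat_lit 2) (nat_lit 0) (.cons (.kr (nat_lit 256) (nat_lit 65536) (nat_lit 1) (nat_lit 0)) (.cons (.br (nat_lit 3) (nat_lit 0) (.cons (.rf (nat_lit 0) (nat_lit 4294688)) (.cons (.rf (nat_lit 0) (nat_lit 5342272)) .nil))) .nil))),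
 (.br (nat_lit 1) (nat_lit 0) (.cons (.br (nat_lit 1) (nat_lit 0) (.cons (.br (nat_lit 2) (nat_lit 0) (.cons (.rf (nat_lit 1) (nat_lit 4294688)) (.cons (.rf (nat_lit 1) (nat_lit 3278880)) (.cons (.br (nat_lit 2) (nat_lit 0) (.cons (.rf (nat_lit 1) (nat_lit 4294688)) (.cons (.rf (nat_lit 1) (nat_lit 3278880)) .nil))) .nil)))) .nil)) .nil)),
 (.br (nat_lit 3) (nat_lit 0) (.cons (.br (nat_lit 4) (nat_lit 0) (.cons (.kr (nat_lit 16777216) (nat_lit 4294967296) (nat_lit 3) (nat_lit 0)) .nil)) .nil)),
 (.br (nat_lit 2) (nat_lit 0) (.cons (.br (nat_lit 3) (nat_lit 0) (.cons (.rf (nat_lit 3) (nat_lit 4294688)) (.cons (.rf (nat_lit 3) (nat_lit 5343264)) .nil))) .nil)),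
 (.br (nat_lit 2) (nat_lit 0) (.cons (.rf (nat_lit 4) (nat_lit 172066848)) (.cons (.rf (nat_lit 4) (nat_lit 139560992)) .nil))),
 (.br (nat_lit 0) (nat_lit 0) (.cons (.br (nat_lit 0) (nat_lit 0) (.cons (.br (nat_lit 1) (nat_lit 0) (.cons (.rf (nat_lit 2) (nat_lit 2080)) (.cons (.br (nat_lit 1) (nat_lit 0) (.cons (.rf (nat_lit 2) (nat_lit 2080)) (.cons (.br (nat_lit 1) (nat_lit 0) (.cons (.rf (nat_lit 2) (nat_lit 2080)) (.cons (.br (nat_lit 2) (nat_lit 0) (.cons (.rf (nat_lit 5) (nat_lit 172066848)) (.cons (.rf (nat_lit 5) (nat_lit 171051040)) (.cons (.rf (nat_lit 5) (nat_lit 137529376)) .nil)))) .nil))) .nil))) .nil))) .nil)) .nil)),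
 (.br (nat_lit 0) (nat_lit 0) (.cons (.rf (nat_lit 6) (nat_lit 1)) (.cons (.br (nat_lit 0) (nat_lit 0) (.cons (.rf (nat_lit 6) (nat_lit 2)) (.cons (.br (nat_lit 0) (nat_lit 0) (.cons (.rf (nat_lit 6) (nat_lit 3)) .nil)) .nil))) .nil))),
 (.br (nat_lit 1) (nat_lit 1) (.cons (.kr (nat_lit 1) (nat_lit 256) (nat_lit 0) (nat_lit 2)) (.cons (.rf (nat_lit 7) (nat_lit 5)) .nil))),
 (.br (nat_lit 1) (nat_lit 1) (.cons (.rf (nat_lit 8) (nat_lit 4294688)) (.cons (.rf (nat_lit 8) (nat_lit 3278880)) (.cons (.rf (nat_lit 7) (nat_lit 5)) .nil)))),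
 (.br (nat_lit 0) (nat_lit 1) (.cons (.rf (nat_lit 7) (nat_lit 1)) (.cons (.br (nat_lit 0) (nat_lit 1) (.cons (.rf (nat_lit 7) (nat_lit 2)) (.cons (.br (nat_lit 0) (nat_lit 1) (.cons (.rf (nat_lit 7) (nat_lit 3)) (.cons (.br (nat_lit 0) (nat_lit 1) (.cons (.rf (nat_lit 7) (nat_lit 4)) (.cons (.br (nat_lit 1) (nat_lit 1) (.cons (.rf (nat_lit 9) (nat_lit 4294688)) (.cons (.rf (nat_lit 9) (nat_lit 4262944)) (.cons (.rf (nat_lit 9) (nat_lit 3215392)) (.cons (.rf (nat_lit 7) (nat_lit 5)) .nil))))) .nil))) .nil))) .nil))) .nil)))]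

theorem c0 : chkAll C T R L0 (nat_lit 0) = true := by decide +kernel

theorem l0 : (nat_lit 0) + L0.length = (nat_lit 11) := by decide +kernel

theorem r : isRoot (T.get (nat_lit 10)) (nat_lit 8) = true := by decide +kernel

theorem no {V : Type} [Fintype V] {Nb : V → Finset V} {x : V → ℤ} (H : Hyp C Nb x)
    (hR : ∀ t, (univ.filter (fun w => ty Nb x w = t)).card ≤ R / 16 ^ t % 16) (v : V)
    (hv : ty Nb x v = 8) : False := by
  have h0 : ∀ i < (nat_lit 0), ∀ φ, ¬ PEmb Nb x (T.get i) φ := fun i hi => absurd hi (Nat.not_lt_zero i)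
  have h1 := chkAll_sound H hR c0 h0
  rw [l0] at h1
  exact no_root h1 (Nat.lt_succ_self (nat_lit 10)) r v hv

end Q14_2_4_5_1_2

namespace Q14_2_8_0_1_3

open Finset Classical

/-- degree, order and types -/
def C : Cl := ⟨nat_lit 4,nat_lit 14,[nat_lit 3,nat_lit 7,nat_lit 0,nat_lit 4,nat_lit 8]⟩

/-- the numbers of vertices of each type -/
def R : ℕ := nat_lit 15032459264

/-- part of the table -/
noncomputable def T0 : Tr := (lf (nat_lit 1) (nat_lit 4))

/-- the table -/
noncomputable def T : Tr := T0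

/-- part of the certificates -/
def L0 : List Prf := [(.br (nat_lit 0) (nat_lit 0) .nil)]

theorem c0 : chkAll C T R L0 (nat_lit 0) = true := by decide +kernel

theorem l0 : (nat_lit 0) + L0.length = (nat_lit 1) := by decide +kernel

theorem r : isRoot (T.get (nat_lit 0)) (nat_lit 4) = true := by decide +kernel

theorem no {V : Type} [Fintype V] {Nb : V → Finset V} {x : V → ℤ} (H : Hyp C Nb x)
    (hR : ∀ t, (univ.filter (fun w => ty Nb x w = t)).card ≤ R / 16 ^ t % 16) (v : V)
    (hv : ty Nb x v = 4) : False := by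
  have h0 : ∀ i < (nat_lit 0), ∀ φ, ¬ PEmb Nb x (T.get i) φ := fun i hi => absurd hi (Nat.not_lt_zero i)
  have h1 := chkAll_sound H hR c0 h0
  rw [l0] at h1
  exact no_root h1 (Nat.lt_succ_self (nat_lit 0)) r v hv

end Q14_2_8_0_1_3

namespace Q14_4_0_4_6_0

open Finset Classical

theorem r : isRoot (T.get (nat_lit 5154)) (nat_lit 0) = true := by decide +kernel

theorem no {V : Type} [Fintype V] {Nb : V → Finset V} {x : V → ℤ} (H : Hyp C Nb x)
    (hR : ∀ t, (univ.filter (fun w => ty Nb x w = t)).card ≤ R / 16 ^ t % 16) (v : V)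
    (hv : ty Nb x v = 0) : False := by
  have h0 : ∀ i < (nat_lit 0), ∀ φ, ¬ PEmb Nb x (T.get i) φ := fun i hi => absurd hi (Nat.not_lt_zero i)
  have h1 := chkAll_sound H hR c0 h0
  rw [l0] at h1
  have h2 := chkAll_sound H hR c1 h1
  rw [l1] at h2
  have h3 := chkAll_sound H hR c2 h2
  rw [l2] at h3
  have h4 := chkAll_sound H hR c3 h3
  rw [l3] at h4
  have h5 := chkAll_sound H hR c4 h4
  rw [l4] at h5
  have h6 := chkAll_sound H hR c5 h5
  rw [l5] at h6
  have h7 := chkAll_sound H hR c6 h6
  rw [l6] at h7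
  have h8 := chkAll_sound H hR c7 h7
  rw [l7] at h8
  have h9 := chkAll_sound H hR c8 h8
  rw [l8] at h9
  have h10 := chkAll_sound H hR c9 h9
  rw [l9] at h10
  have h11 := chkAll_sound H hR c10 h10
  rw [l10] at h11
  have h12 := chkAll_sound H hR c11 h11
  rw [l11] at h12
  have h13 := chkAll_sound H hR c12 h12
  rw [l12] at h13
  have h14 := chkAll_sound H hR c13 h13
  rw [l13] at h14
  have h15 := chkAll_sound H hR c14 h14
  rw [l14] at h15
  have h16 := chkAll_sound H hR c15 h15
  rw [l15] at h16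
  have h17 := chkAll_sound H hR c16 h16
  rw [l16] at h17
  have h18 := chkAll_sound H hR c17 h17
  rw [l17] at h18
  have h19 := chkAll_sound H hR c18 h18
  rw [l18] at h19
  have h20 := chkAll_sound H hR c19 h19
  rw [l19] at h20
  have h21 := chkAll_sound H hR c20 h20
  rw [l20] at h21
  have h22 := chkAll_sound H hR c21 h21
  rw [l21] at h22
  have h23 := chkAll_sound H hR c22 h22
  rw [l22] at h23
  have h24 := chkAll_sound H hR c23 h23
  rw [l23] at h24
  have h25 := chkAll_sound H hR c24 h24
  rw [l24] at h25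
  have h26 := chkAll_sound H hR c25 h25
  rw [l25] at h26
  have h27 := chkAll_sound H hR c26 h26
  rw [l26] at h27
  have h28 := chkAll_sound H hR c27 h27
  rw [l27] at h28
  have h29 := chkAll_sound H hR c28 h28
  rw [l28] at h29
  have h30 := chkAll_sound H hR c29 h29
  rw [l29] at h30
  have h31 := chkAll_sound H hR c30 h30
  rw [l30] at h31
  have h32 := chkAll_sound H hR c31 h31
  rw [l31] at h32
  have h33 := chkAll_sound H hR c32 h32
  rw [l32] at h33
  have h34 := chkAll_sound H hR c33 h33
  rw [l33] at h34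
  have h35 := chkAll_sound H hR c34 h34
  rw [l34] at h35
  have h36 := chkAll_sound H hR c35 h35
  rw [l35] at h36
  have h37 := chkAll_sound H hR c36 h36
  rw [l36] at h37
  have h38 := chkAll_sound H hR c37 h37
  rw [l37] at h38
  have h39 := chkAll_sound H hR c38 h38
  rw [l38] at h39
  have h40 := chkAll_sound H hR c39 h39
  rw [l39] at h40
  have h41 := chkAll_sound H hR c40 h40
  rw [l40] at h41
  have h42 := chkAll_sound H hR c41 h41
  rw [l41] at h42
  have h43 := chkAll_sound H hR c42 h42
  rw [l42] at h43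
  have h44 := chkAll_sound H hR c43 h43
  rw [l43] at h44
  have h45 := chkAll_sound H hR c44 h44
  rw [l44] at h45
  have h46 := chkAll_sound H hR c45 h45
  rw [l45] at h46
  have h47 := chkAll_sound H hR c46 h46
  rw [l46] at h47
  have h48 := chkAll_sound H hR c47 h47
  rw [l47] at h48
  have h49 := chkAll_sound H hR c48 h48
  rw [l48] at h49
  have h50 := chkAll_sound H hR c49 h49
  rw [l49] at h50
  have h51 := chkAll_sound H hR c50 h50
  rw [l50] at h51
  have h52 := chkAll_sound H hR c51 h51
  rw [l51] at h52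
  have h53 := chkAll_sound H hR c52 h52
  rw [l52] at h53
  have h54 := chkAll_sound H hR c53 h53
  rw [l53] at h54
  have h55 := chkAll_sound H hR c54 h54
  rw [l54] at h55
  have h56 := chkAll_sound H hR c55 h55
  rw [l55] at h56
  have h57 := chkAll_sound H hR c56 h56
  rw [l56] at h57
  have h58 := chkAll_sound H hR c57 h57
  rw [l57] at h58
  have h59 := chkAll_sound H hR c58 h58
  rw [l58] at h59
  have h60 := chkAll_sound H hR c59 h59
  rw [l59] at h60
  have h61 := chkAll_sound H hR c60 h60
  rw [l60] at h61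
  have h62 := chkAll_sound H hR c61 h61
  rw [l61] at h62
  have h63 := chkAll_sound H hR c62 h62
  rw [l62] at h63
  have h64 := chkAll_sound H hR c63 h63
  rw [l63] at h64
  have h65 := chkAll_sound H hR c64 h64
  rw [l64] at h65
  have h66 := chkAll_sound H hR c65 h65
  rw [l65] at h66
  have h67 := chkAll_sound H hR c66 h66
  rw [l66] at h67
  have h68 := chkAll_sound H hR c67 h67
  rw [l67] at h68
  have h69 := chkAll_sound H hR c68 h68
  rw [l68] at h69
  have h70 := chkAll_sound H hR c69 h69
  rw [l69] at h70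
  have h71 := chkAll_sound H hR c70 h70
  rw [l70] at h71
  have h72 := chkAll_sound H hR c71 h71
  rw [l71] at h72
  have h73 := chkAll_sound H hR c72 h72
  rw [l72] at h73
  have h74 := chkAll_sound H hR c73 h73
  rw [l73] at h74
  have h75 := chkAll_sound H hR c74 h74
  rw [l74] at h75
  have h76 := chkAll_sound H hR c75 h75
  rw [l75] at h76
  have h77 := chkAll_sound H hR c76 h76
  rw [l76] at h77
  have h78 := chkAll_sound H hR c77 h77
  rw [l77] at h78
  have h79 := chkAll_sound H hR c78 h78
  rw [l78] at h79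
  have h80 := chkAll_sound H hR c79 h79
  rw [l79] at h80
  have h81 := chkAll_sound H hR c80 h80
  rw [l80] at h81
  have h82 := chkAll_sound H hR c81 h81
  rw [l81] at h82
  have h83 := chkAll_sound H hR c82 h82
  rw [l82] at h83
  have h84 := chkAll_sound H hR c83 h83
  rw [l83] at h84
  have h85 := chkAll_sound H hR c84 h84
  rw [l84] at h85
  have h86 := chkAll_sound H hR c85 h85
  rw [l85] at h86
  have h87 := chkAll_sound H hR c86 h86
  rw [l86] at h87
  have h88 := chkAll_sound H hR c87 h87
  rw [l87] at h88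
  have h89 := chkAll_sound H hR c88 h88
  rw [l88] at h89
  have h90 := chkAll_sound H hR c89 h89
  rw [l89] at h90
  have h91 := chkAll_sound H hR c90 h90
  rw [l90] at h91
  have h92 := chkAll_sound H hR c91 h91
  rw [l91] at h92
  have h93 := chkAll_sound H hR c92 h92
  rw [l92] at h93
  have h94 := chkAll_sound H hR c93 h93
  rw [l93] at h94
  have h95 := chkAll_sound H hR c94 h94
  rw [l94] at h95
  have h96 := chkAll_sound H hR c95 h95
  rw [l95] at h96
  have h97 := chkAll_sound H hR c96 h96
  rw [l96] at h97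
  have h98 := chkAll_sound H hR c97 h97
  rw [l97] at h98
  have h99 := chkAll_sound H hR c98 h98
  rw [l98] at h99
  have h100 := chkAll_sound H hR c99 h99
  rw [l99] at h100
  have h101 := chkAll_sound H hR c100 h100
  rw [l100] at h101
  have h102 := chkAll_sound H hR c101 h101
  rw [l101] at h102
  have h103 := chkAll_sound H hR c102 h102
  rw [l102] at h103
  have h104 := chkAll_sound H hR c103 h103
  rw [l103] at h104
  have h105 := chkAll_sound H hR c104 h104
  rw [l104] at h105
  have h106 := chkAll_sound H hR c105 h105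
  rw [l105] at h106
  have h107 := chkAll_sound H hR c106 h106
  rw [l106] at h107
  have h108 := chkAll_sound H hR c107 h107
  rw [l107] at h108
  have h109 := chkAll_sound H hR c108 h108
  rw [l108] at h109
  have h110 := chkAll_sound H hR c109 h109
  rw [l109] at h110
  have h111 := chkAll_sound H hR c110 h110
  rw [l110] at h111
  have h112 := chkAll_sound H hR c111 h111
  rw [l111] at h112
  have h113 := chkAll_sound H hR c112 h112
  rw [l112] at h113
  have h114 := chkAll_sound H hR c113 h113
  rw [l113] at h114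
  have h115 := chkAll_sound H hR c114 h114
  rw [l114] at h115
  have h116 := chkAll_sound H hR c115 h115
  rw [l115] at h116
  have h117 := chkAll_sound H hR c116 h116
  rw [l116] at h117
  have h118 := chkAll_sound H hR c117 h117
  rw [l117] at h118
  have h119 := chkAll_sound H hR c118 h118
  rw [l118] at h119
  have h120 := chkAll_sound H hR c119 h119
  rw [l119] at h120
  have h121 := chkAll_sound H hR c120 h120
  rw [l120] at h121
  have h122 := chkAll_sound H hR c121 h121
  rw [l121] at h122
  have h123 := chkAll_sound H hR c122 h122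
  rw [l122] at h123
  have h124 := chkAll_sound H hR c123 h123
  rw [l123] at h124
  have h125 := chkAll_sound H hR c124 h124
  rw [l124] at h125
  have h126 := chkAll_sound H hR c125 h125
  rw [l125] at h126
  have h127 := chkAll_sound H hR c126 h126
  rw [l126] at h127
  have h128 := chkAll_sound H hR c127 h127
  rw [l127] at h128
  have h129 := chkAll_sound H hR c128 h128
  rw [l128] at h129
  have h130 := chkAll_sound H hR c129 h129
  rw [l129] at h130
  have h131 := chkAll_sound H hR c130 h130
  rw [l130] at h131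
  have h132 := chkAll_sound H hR c131 h131
  rw [l131] at h132
  have h133 := chkAll_sound H hR c132 h132
  rw [l132] at h133
  have h134 := chkAll_sound H hR c133 h133
  rw [l133] at h134
  have h135 := chkAll_sound H hR c134 h134
  rw [l134] at h135
  have h136 := chkAll_sound H hR c135 h135
  rw [l135] at h136
  have h137 := chkAll_sound H hR c136 h136
  rw [l136] at h137
  have h138 := chkAll_sound H hR c137 h137
  rw [l137] at h138
  have h139 := chkAll_sound H hR c138 h138
  rw [l138] at h139
  have h140 := chkAll_sound H hR c139 h139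
  rw [l139] at h140
  have h141 := chkAll_sound H hR c140 h140
  rw [l140] at h141
  have h142 := chkAll_sound H hR c141 h141
  rw [l141] at h142
  have h143 := chkAll_sound H hR c142 h142
  rw [l142] at h143
  have h144 := chkAll_sound H hR c143 h143
  rw [l143] at h144
  have h145 := chkAll_sound H hR c144 h144
  rw [l144] at h145
  have h146 := chkAll_sound H hR c145 h145
  rw [l145] at h146
  have h147 := chkAll_sound H hR c146 h146
  rw [l146] at h147
  have h148 := chkAll_sound H hR c147 h147
  rw [l147] at h148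
  have h149 := chkAll_sound H hR c148 h148
  rw [l148] at h149
  have h150 := chkAll_sound H hR c149 h149
  rw [l149] at h150
  have h151 := chkAll_sound H hR c150 h150
  rw [l150] at h151
  have h152 := chkAll_sound H hR c151 h151
  rw [l151] at h152
  have h153 := chkAll_sound H hR c152 h152
  rw [l152] at h153
  have h154 := chkAll_sound H hR c153 h153
  rw [l153] at h154
  have h155 := chkAll_sound H hR c154 h154
  rw [l154] at h155
  have h156 := chkAll_sound H hR c155 h155
  rw [l155] at h156
  have h157 := chkAll_sound H hR c156 h156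
  rw [l156] at h157
  have h158 := chkAll_sound H hR c157 h157
  rw [l157] at h158
  have h159 := chkAll_sound H hR c158 h158
  rw [l158] at h159
  have h160 := chkAll_sound H hR c159 h159
  rw [l159] at h160
  have h161 := chkAll_sound H hR c160 h160
  rw [l160] at h161
  have h162 := chkAll_sound H hR c161 h161
  rw [l161] at h162
  have h163 := chkAll_sound H hR c162 h162
  rw [l162] at h163
  have h164 := chkAll_sound H hR c163 h163
  rw [l163] at h164
  have h165 := chkAll_sound H hR c164 h164
  rw [l164] at h165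
  have h166 := chkAll_sound H hR c165 h165
  rw [l165] at h166
  have h167 := chkAll_sound H hR c166 h166
  rw [l166] at h167
  have h168 := chkAll_sound H hR c167 h167
  rw [l167] at h168
  have h169 := chkAll_sound H hR c168 h168
  rw [l168] at h169
  have h170 := chkAll_sound H hR c169 h169
  rw [l169] at h170
  have h171 := chkAll_sound H hR c170 h170
  rw [l170] at h171
  have h172 := chkAll_sound H hR c171 h171
  rw [l171] at h172
  have h173 := chkAll_sound H hR c172 h172
  rw [l172] at h173
  have h174 := chkAll_sound H hR c173 h173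
  rw [l173] at h174
  have h175 := chkAll_sound H hR c174 h174
  rw [l174] at h175
  have h176 := chkAll_sound H hR c175 h175
  rw [l175] at h176
  have h177 := chkAll_sound H hR c176 h176
  rw [l176] at h177
  have h178 := chkAll_sound H hR c177 h177
  rw [l177] at h178
  have h179 := chkAll_sound H hR c178 h178
  rw [l178] at h179
  have h180 := chkAll_sound H hR c179 h179
  rw [l179] at h180
  have h181 := chkAll_sound H hR c180 h180
  rw [l180] at h181
  have h182 := chkAll_sound H hR c181 h181
  rw [l181] at h182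
  have h183 := chkAll_sound H hR c182 h182
  rw [l182] at h183
  have h184 := chkAll_sound H hR c183 h183
  rw [l183] at h184
  have h185 := chkAll_sound H hR c184 h184
  rw [l184] at h185
  have h186 := chkAll_sound H hR c185 h185
  rw [l185] at h186
  have h187 := chkAll_sound H hR c186 h186
  rw [l186] at h187
  have h188 := chkAll_sound H hR c187 h187
  rw [l187] at h188
  exact no_root h188 (Nat.lt_succ_self (nat_lit 5154)) r v hv

end Q14_4_0_4_6_0

namespace Q14_4_0_5_4_1

open Finset Classical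

theorem r : isRoot (T.get (nat_lit 308)) (nat_lit 0) = true := by decide +kernel

theorem no {V : Type} [Fintype V] {Nb : V → Finset V} {x : V → ℤ} (H : Hyp C Nb x)
    (hR : ∀ t, (univ.filter (fun w => ty Nb x w = t)).card ≤ R / 16 ^ t % 16) (v : V)
    (hv : ty Nb x v = 0) : False := by
  have h0 : ∀ i < (nat_lit 0), ∀ φ, ¬ PEmb Nb x (T.get i) φ := fun i hi => absurd hi (Nat.not_lt_zero i)
  have h1 := chkAll_sound H hR c0 h0
  rw [l0] at h1
  have h2 := chkAll_sound H hR c1 h1
  rw [l1] at h2
  have h3 := chkAll_sound H hR c2 h2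
  rw [l2] at h3
  have h4 := chkAll_sound H hR c3 h3
  rw [l3] at h4
  have h5 := chkAll_sound H hR c4 h4
  rw [l4] at h5
  have h6 := chkAll_sound H hR c5 h5
  rw [l5] at h6
  have h7 := chkAll_sound H hR c6 h6
  rw [l6] at h7
  have h8 := chkAll_sound H hR c7 h7
  rw [l7] at h8
  have h9 := chkAll_sound H hR c8 h8
  rw [l8] at h9
  exact no_root h9 (Nat.lt_succ_self (nat_lit 308)) r v hv

end Q14_4_0_5_4_1

namespace Q14_4_0_6_2_2

open Finset Classical

/-- degree, order and types -/
def C : Cl := ⟨nat_lit 4,nat_lit 14,[nat_lit 3,nat_lit 7,nat_lit 0,nat_lit 4,nat_lit 8]⟩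

/-- the numbers of vertices of each type -/
def R : ℕ := nat_lit 8590082054

/-- part of the table -/
noncomputable def T0 : Tr := (.node (.node (.node (.node (lf (nat_lit 7) (nat_lit 178405965575929210172215095892713502211573028)) (lf (nat_lit 1) (nat_lit 8))) (lf (nat_lit 8) (nat_lit 2993158631463790307024628768399326641936351428084244))) (.node (lf (nat_lit 7) (nat_lit 178405965575962169087821029564418431857459476)) (lf (nat_lit 7) (nat_lit 178406156984793562115706727712635112227078424)))) (.node (.node (lf (nat_lit 7) (nat_lit 178405965575929210172215095892713502211571988)) (lf (nat_lit 7) (nat_lit 178406156984793562115706728005369088073269780))) (.node (lf (nat_lit 7) (nat_lit 178405965575940619027617149664592987902968084)) (lf (nat_lit 6) (nat_lit 10633835612819910768002441395092586772)))))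

/-- the table -/
noncomputable def T : Tr := T0

/-- part of the certificates -/
def L0 : List Prf := [(.br (nat_lit 3) (nat_lit 0) (.cons (.br (nat_lit 4) (nat_lit 0) (.cons (.br (nat_lit 4) (nat_lit 0) .nil) .nil)) .nil)),
 (.br (nat_lit 3) (nat_lit 0) (.cons (.rf (nat_lit 0) (nat_lit 6614517792)) (.cons (.br (nat_lit 3) (nat_lit 0) (.cons (.rf (nat_lit 0) (nat_lit 6614517792)) .nil)) .nil))),
 (.br (nat_lit 3) (nat_lit 1) (.cons (.br (nat_lit 2) (nat_lit 0) (.cons (.rf (nat_lit 1) (nat_lit 6614517792)) (.cons (.rf (nat_lit 1) (nat_lit 5574330400)) (.cons (.br (nat_lit 2) (nat_lit 0) (.cons (.rf (nat_lit 1) (nat_lit 6614517792)) (.cons (.rf (nat_lit 1) (nat_lit 5574330400)) .nil))) .nil)))) .nil)),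
 (.br (nat_lit 1) (nat_lit 1) (.cons (.rf (nat_lit 2) (nat_lit 6614517792)) (.cons (.rf (nat_lit 2) (nat_lit 6614486048)) (.cons (.rf (nat_lit 2) (nat_lit 6613438496)) .nil)))),
 (.br (nat_lit 3) (nat_lit 0) (.cons (.br (nat_lit 6) (nat_lit 1) (.cons (.br (nat_lit 4) (nat_lit 0) (.cons (.kr (nat_lit 4294967552) (nat_lit 16842752) (nat_lit 1) (nat_lit 0)) .nil)) .nil)) (.cons (.rf (nat_lit 3) (nat_lit 7688225888)) .nil))),
 (.br (nat_lit 2) (nat_lit 0) (.cons (.br (nat_lit 1) (nat_lit 0) (.cons (.kr (nat_lit 256) (nat_lit 65536) (nat_lit 1) (nat_lit 0)) (.cons (.br (nat_lit 7) (nat_lit 1) (.cons (.rf (nat_lit 4) (nat_lit 211766315040)) (.cons (.rf (nat_lit 4) (nat_lit 211765299232)) .nil))) .nil))) (.cons (.rf (nat_lit 3) (nat_lit 7721813056)) .nil))),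
 (.br (nat_lit 3) (nat_lit 1) (.cons (.br (nat_lit 2) (nat_lit 0) (.cons (.rf (nat_lit 5) (nat_lit 5574330400)) (.cons (.rf (nat_lit 5) (nat_lit 5574329408)) (.cons (.rf (nat_lit 5) (nat_lit 7721814048)) .nil)))) .nil)),
 (.br (nat_lit 1) (nat_lit 0) (.cons (.rf (nat_lit 3) (nat_lit 6614517792)) (.cons (.br (nat_lit 1) (nat_lit 1) (.cons (.rf (nat_lit 6) (nat_lit 6614517792)) (.cons (.rf (nat_lit 6) (nat_lit 6614486048)) (.cons (.rf (nat_lit 6) (nat_lit 6613438496)) .nil)))) .nil))),
 (.br (nat_lit 0) (nat_lit 1) (.cons (.br (nat_lit 0) (nat_lit 1) (.cons (.br (nat_lit 0) (nat_lit 1) (.cons (.br (nat_lit 0) (nat_lit 1) (.cons (.br (nat_lit 1) (nat_lit 0) (.cons (.rf (nat_lit 7) (nat_lit 172066848)) (.cons (.br (nat_lit 1) (nat_lit 0) (.cons (.rf (nat_lit 7) (nat_lit 205621280)) .nil)) .nil))) .nil)) .nil)) .nil)) .nil))]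

theorem c0 : chkAll C T R L0 (nat_lit 0) = true := by decide +kernel

theorem l0 : (nat_lit 0) + L0.length = (nat_lit 9) := by decide +kernel

theorem r : isRoot (T.get (nat_lit 8)) (nat_lit 8) = true := by decide +kernel

theorem no {V : Type} [Fintype V] {Nb : V → Finset V} {x : V → ℤ} (H : Hyp C Nb x)
    (hR : ∀ t, (univ.filter (fun w => ty Nb x w = t)).card ≤ R / 16 ^ t % 16) (v : V)
    (hv : ty Nb x v = 8) : False := by
  have h0 : ∀ i < (nat_lit 0), ∀ φ, ¬ PEmb Nb x (T.get i) φ := fun i hi => absurd hi (Nat.not_lt_zero i)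
  have h1 := chkAll_sound H hR c0 h0
  rw [l0] at h1
  exact no_root h1 (Nat.lt_succ_self (nat_lit 8)) r v hv

end Q14_4_0_6_2_2

namespace Q14_4_0_7_0_3

open Finset Classical

/-- degree, order and types -/
def C : Cl := ⟨nat_lit 4,nat_lit 14,[nat_lit 3,nat_lit 7,nat_lit 0,nat_lit 4,nat_lit 8]⟩

/-- the numbers of vertices of each type -/
def R : ℕ := nat_lit 12884918279

/-- part of the table -/
noncomputable def T0 : Tr := (.node (.node (lf (nat_lit 5) (nat_lit 237685205342541193165714490291)) (lf (nat_lit 1) (nat_lit 3))) (lf (nat_lit 5) (nat_lit 237685205342541193165714489763)))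

/-- the table -/
noncomputable def T : Tr := T0

/-- part of the certificates -/
def L0 : List Prf := [(.br (nat_lit 4) (nat_lit 0) (.cons (.kr (nat_lit 1) (nat_lit 4294967296) (nat_lit 0) (nat_lit 1)) .nil)),
 (.br (nat_lit 4) (nat_lit 0) (.cons (.rf (nat_lit 0) (nat_lit 4294688)) (.cons (.rf (nat_lit 0) (nat_lit 4262944)) .nil))),
 (.br (nat_lit 0) (nat_lit 0) (.cons (.br (nat_lit 0) (nat_lit 0) (.cons (.br (nat_lit 0) (nat_lit 0) (.cons (.br (nat_lit 0) (nat_lit 1) (.cons (.br (nat_lit 4) (nat_lit 0) (.cons (.rf (nat_lit 1) (nat_lit 4294688)) (.cons (.rf (nat_lit 1) (nat_lit 4293696)) (.cons (.rf (nat_lit 1) (nat_lit 4260960)) .nil)))) .nil)) .nil)) .nil)) .nil))]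

theorem c0 : chkAll C T R L0 (nat_lit 0) = true := by decide +kernel

theorem l0 : (nat_lit 0) + L0.length = (nat_lit 3) := by decide +kernel

theorem r : isRoot (T.get (nat_lit 2)) (nat_lit 3) = true := by decide +kernel

theorem no {V : Type} [Fintype V] {Nb : V → Finset V} {x : V → ℤ} (H : Hyp C Nb x)
    (hR : ∀ t, (univ.filter (fun w => ty Nb x w = t)).card ≤ R / 16 ^ t % 16) (v : V)
    (hv : ty Nb x v = 3) : False := by
  have h0 : ∀ i < (nat_lit 0), ∀ φ, ¬ PEmb Nb x (T.get i) φ := fun i hi => absurd hi (Nat.not_lt_zero i)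
  have h1 := chkAll_sound H hR c0 h0
  rw [l0] at h1
  exact no_root h1 (Nat.lt_succ_self (nat_lit 2)) r v hv

end Q14_4_0_7_0_3

namespace Q14_4_4_0_4_2

open Finset Classical

theorem r : isRoot (T.get (nat_lit 6510)) (nat_lit 8) = true := by decide +kernel

theorem no {V : Type} [Fintype V] {Nb : V → Finset V} {x : V → ℤ} (H : Hyp C Nb x)
    (hR : ∀ t, (univ.filter (fun w => ty Nb x w = t)).card ≤ R / 16 ^ t % 16) (v : V)
    (hv : ty Nb x v = 8) : False := by
  have h0 : ∀ i < (nat_lit 0), ∀ φ, ¬ PEmb Nb x (T.get i) φ := fun i hi => absurd hi (Nat.not_lt_zero i)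
  have h1 := chkAll_sound H hR c0 h0
  rw [l0] at h1
  have h2 := chkAll_sound H hR c1 h1
  rw [l1] at h2
  have h3 := chkAll_sound H hR c2 h2
  rw [l2] at h3
  have h4 := chkAll_sound H hR c3 h3
  rw [l3] at h4
  have h5 := chkAll_sound H hR c4 h4
  rw [l4] at h5
  have h6 := chkAll_sound H hR c5 h5
  rw [l5] at h6
  have h7 := chkAll_sound H hR c6 h6
  rw [l6] at h7
  have h8 := chkAll_sound H hR c7 h7
  rw [l7] at h8
  have h9 := chkAll_sound H hR c8 h8
  rw [l8] at h9
  have h10 := chkAll_sound H hR c9 h9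
  rw [l9] at h10
  have h11 := chkAll_sound H hR c10 h10
  rw [l10] at h11
  have h12 := chkAll_sound H hR c11 h11
  rw [l11] at h12
  have h13 := chkAll_sound H hR c12 h12
  rw [l12] at h13
  have h14 := chkAll_sound H hR c13 h13
  rw [l13] at h14
  have h15 := chkAll_sound H hR c14 h14
  rw [l14] at h15
  have h16 := chkAll_sound H hR c15 h15
  rw [l15] at h16
  have h17 := chkAll_sound H hR c16 h16
  rw [l16] at h17
  have h18 := chkAll_sound H hR c17 h17
  rw [l17] at h18
  have h19 := chkAll_sound H hR c18 h18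
  rw [l18] at h19
  have h20 := chkAll_sound H hR c19 h19
  rw [l19] at h20
  have h21 := chkAll_sound H hR c20 h20
  rw [l20] at h21
  have h22 := chkAll_sound H hR c21 h21
  rw [l21] at h22
  have h23 := chkAll_sound H hR c22 h22
  rw [l22] at h23
  have h24 := chkAll_sound H hR c23 h23
  rw [l23] at h24
  have h25 := chkAll_sound H hR c24 h24
  rw [l24] at h25
  have h26 := chkAll_sound H hR c25 h25
  rw [l25] at h26
  have h27 := chkAll_sound H hR c26 h26
  rw [l26] at h27
  have h28 := chkAll_sound H hR c27 h27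
  rw [l27] at h28
  have h29 := chkAll_sound H hR c28 h28
  rw [l28] at h29
  have h30 := chkAll_sound H hR c29 h29
  rw [l29] at h30
  have h31 := chkAll_sound H hR c30 h30
  rw [l30] at h31
  have h32 := chkAll_sound H hR c31 h31
  rw [l31] at h32
  have h33 := chkAll_sound H hR c32 h32
  rw [l32] at h33
  have h34 := chkAll_sound H hR c33 h33
  rw [l33] at h34
  have h35 := chkAll_sound H hR c34 h34
  rw [l34] at h35
  have h36 := chkAll_sound H hR c35 h35
  rw [l35] at h36
  have h37 := chkAll_sound H hR c36 h36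
  rw [l36] at h37
  have h38 := chkAll_sound H hR c37 h37
  rw [l37] at h38
  have h39 := chkAll_sound H hR c38 h38
  rw [l38] at h39
  have h40 := chkAll_sound H hR c39 h39
  rw [l39] at h40
  have h41 := chkAll_sound H hR c40 h40
  rw [l40] at h41
  have h42 := chkAll_sound H hR c41 h41
  rw [l41] at h42
  have h43 := chkAll_sound H hR c42 h42
  rw [l42] at h43
  have h44 := chkAll_sound H hR c43 h43
  rw [l43] at h44
  have h45 := chkAll_sound H hR c44 h44
  rw [l44] at h45
  have h46 := chkAll_sound H hR c45 h45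
  rw [l45] at h46
  have h47 := chkAll_sound H hR c46 h46
  rw [l46] at h47
  have h48 := chkAll_sound H hR c47 h47
  rw [l47] at h48
  have h49 := chkAll_sound H hR c48 h48
  rw [l48] at h49
  have h50 := chkAll_sound H hR c49 h49
  rw [l49] at h50
  have h51 := chkAll_sound H hR c50 h50
  rw [l50] at h51
  have h52 := chkAll_sound H hR c51 h51
  rw [l51] at h52
  have h53 := chkAll_sound H hR c52 h52
  rw [l52] at h53
  have h54 := chkAll_sound H hR c53 h53
  rw [l53] at h54
  have h55 := chkAll_sound H hR c54 h54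
  rw [l54] at h55
  have h56 := chkAll_sound H hR c55 h55
  rw [l55] at h56
  have h57 := chkAll_sound H hR c56 h56
  rw [l56] at h57
  have h58 := chkAll_sound H hR c57 h57
  rw [l57] at h58
  have h59 := chkAll_sound H hR c58 h58
  rw [l58] at h59
  have h60 := chkAll_sound H hR c59 h59
  rw [l59] at h60
  have h61 := chkAll_sound H hR c60 h60
  rw [l60] at h61
  have h62 := chkAll_sound H hR c61 h61
  rw [l61] at h62
  have h63 := chkAll_sound H hR c62 h62
  rw [l62] at h63
  have h64 := chkAll_sound H hR c63 h63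
  rw [l63] at h64
  have h65 := chkAll_sound H hR c64 h64
  rw [l64] at h65
  have h66 := chkAll_sound H hR c65 h65
  rw [l65] at h66
  have h67 := chkAll_sound H hR c66 h66
  rw [l66] at h67
  have h68 := chkAll_sound H hR c67 h67
  rw [l67] at h68
  have h69 := chkAll_sound H hR c68 h68
  rw [l68] at h69
  have h70 := chkAll_sound H hR c69 h69
  rw [l69] at h70
  have h71 := chkAll_sound H hR c70 h70
  rw [l70] at h71
  have h72 := chkAll_sound H hR c71 h71
  rw [l71] at h72
  have h73 := chkAll_sound H hR c72 h72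
  rw [l72] at h73
  have h74 := chkAll_sound H hR c73 h73
  rw [l73] at h74
  have h75 := chkAll_sound H hR c74 h74
  rw [l74] at h75
  have h76 := chkAll_sound H hR c75 h75
  rw [l75] at h76
  have h77 := chkAll_sound H hR c76 h76
  rw [l76] at h77
  have h78 := chkAll_sound H hR c77 h77
  rw [l77] at h78
  have h79 := chkAll_sound H hR c78 h78
  rw [l78] at h79
  have h80 := chkAll_sound H hR c79 h79
  rw [l79] at h80
  have h81 := chkAll_sound H hR c80 h80
  rw [l80] at h81
  have h82 := chkAll_sound H hR c81 h81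
  rw [l81] at h82
  have h83 := chkAll_sound H hR c82 h82
  rw [l82] at h83
  have h84 := chkAll_sound H hR c83 h83
  rw [l83] at h84
  have h85 := chkAll_sound H hR c84 h84
  rw [l84] at h85
  have h86 := chkAll_sound H hR c85 h85
  rw [l85] at h86
  have h87 := chkAll_sound H hR c86 h86
  rw [l86] at h87
  have h88 := chkAll_sound H hR c87 h87
  rw [l87] at h88
  have h89 := chkAll_sound H hR c88 h88
  rw [l88] at h89
  have h90 := chkAll_sound H hR c89 h89
  rw [l89] at h90
  have h91 := chkAll_sound H hR c90 h90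
  rw [l90] at h91
  have h92 := chkAll_sound H hR c91 h91
  rw [l91] at h92
  have h93 := chkAll_sound H hR c92 h92
  rw [l92] at h93
  have h94 := chkAll_sound H hR c93 h93
  rw [l93] at h94
  have h95 := chkAll_sound H hR c94 h94
  rw [l94] at h95
  have h96 := chkAll_sound H hR c95 h95
  rw [l95] at h96
  have h97 := chkAll_sound H hR c96 h96
  rw [l96] at h97
  have h98 := chkAll_sound H hR c97 h97
  rw [l97] at h98
  have h99 := chkAll_sound H hR c98 h98
  rw [l98] at h99
  have h100 := chkAll_sound H hR c99 h99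
  rw [l99] at h100
  have h101 := chkAll_sound H hR c100 h100
  rw [l100] at h101
  have h102 := chkAll_sound H hR c101 h101
  rw [l101] at h102
  have h103 := chkAll_sound H hR c102 h102
  rw [l102] at h103
  have h104 := chkAll_sound H hR c103 h103
  rw [l103] at h104
  have h105 := chkAll_sound H hR c104 h104
  rw [l104] at h105
  have h106 := chkAll_sound H hR c105 h105
  rw [l105] at h106
  have h107 := chkAll_sound H hR c106 h106
  rw [l106] at h107
  have h108 := chkAll_sound H hR c107 h107
  rw [l107] at h108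
  have h109 := chkAll_sound H hR c108 h108
  rw [l108] at h109
  have h110 := chkAll_sound H hR c109 h109
  rw [l109] at h110
  have h111 := chkAll_sound H hR c110 h110
  rw [l110] at h111
  have h112 := chkAll_sound H hR c111 h111
  rw [l111] at h112
  have h113 := chkAll_sound H hR c112 h112
  rw [l112] at h113
  have h114 := chkAll_sound H hR c113 h113
  rw [l113] at h114
  have h115 := chkAll_sound H hR c114 h114
  rw [l114] at h115
  have h116 := chkAll_sound H hR c115 h115
  rw [l115] at h116
  have h117 := chkAll_sound H hR c116 h116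
  rw [l116] at h117
  have h118 := chkAll_sound H hR c117 h117
  rw [l117] at h118
  have h119 := chkAll_sound H hR c118 h118
  rw [l118] at h119
  have h120 := chkAll_sound H hR c119 h119
  rw [l119] at h120
  have h121 := chkAll_sound H hR c120 h120
  rw [l120] at h121
  have h122 := chkAll_sound H hR c121 h121
  rw [l121] at h122
  have h123 := chkAll_sound H hR c122 h122
  rw [l122] at h123
  have h124 := chkAll_sound H hR c123 h123
  rw [l123] at h124
  have h125 := chkAll_sound H hR c124 h124
  rw [l124] at h125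
  have h126 := chkAll_sound H hR c125 h125
  rw [l125] at h126
  have h127 := chkAll_sound H hR c126 h126
  rw [l126] at h127
  have h128 := chkAll_sound H hR c127 h127
  rw [l127] at h128
  have h129 := chkAll_sound H hR c128 h128
  rw [l128] at h129
  have h130 := chkAll_sound H hR c129 h129
  rw [l129] at h130
  have h131 := chkAll_sound H hR c130 h130
  rw [l130] at h131
  have h132 := chkAll_sound H hR c131 h131
  rw [l131] at h132
  have h133 := chkAll_sound H hR c132 h132
  rw [l132] at h133
  have h134 := chkAll_sound H hR c133 h133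
  rw [l133] at h134
  have h135 := chkAll_sound H hR c134 h134
  rw [l134] at h135
  have h136 := chkAll_sound H hR c135 h135
  rw [l135] at h136
  have h137 := chkAll_sound H hR c136 h136
  rw [l136] at h137
  have h138 := chkAll_sound H hR c137 h137
  rw [l137] at h138
  have h139 := chkAll_sound H hR c138 h138
  rw [l138] at h139
  have h140 := chkAll_sound H hR c139 h139
  rw [l139] at h140
  have h141 := chkAll_sound H hR c140 h140
  rw [l140] at h141
  have h142 := chkAll_sound H hR c141 h141
  rw [l141] at h142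
  have h143 := chkAll_sound H hR c142 h142
  rw [l142] at h143
  have h144 := chkAll_sound H hR c143 h143
  rw [l143] at h144
  have h145 := chkAll_sound H hR c144 h144
  rw [l144] at h145
  have h146 := chkAll_sound H hR c145 h145
  rw [l145] at h146
  have h147 := chkAll_sound H hR c146 h146
  rw [l146] at h147
  have h148 := chkAll_sound H hR c147 h147
  rw [l147] at h148
  have h149 := chkAll_sound H hR c148 h148
  rw [l148] at h149
  have h150 := chkAll_sound H hR c149 h149
  rw [l149] at h150
  have h151 := chkAll_sound H hR c150 h150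
  rw [l150] at h151
  have h152 := chkAll_sound H hR c151 h151
  rw [l151] at h152
  have h153 := chkAll_sound H hR c152 h152
  rw [l152] at h153
  have h154 := chkAll_sound H hR c153 h153
  rw [l153] at h154
  have h155 := chkAll_sound H hR c154 h154
  rw [l154] at h155
  have h156 := chkAll_sound H hR c155 h155
  rw [l155] at h156
  have h157 := chkAll_sound H hR c156 h156
  rw [l156] at h157
  have h158 := chkAll_sound H hR c157 h157
  rw [l157] at h158
  have h159 := chkAll_sound H hR c158 h158
  rw [l158] at h159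
  have h160 := chkAll_sound H hR c159 h159
  rw [l159] at h160
  have h161 := chkAll_sound H hR c160 h160
  rw [l160] at h161
  have h162 := chkAll_sound H hR c161 h161
  rw [l161] at h162
  have h163 := chkAll_sound H hR c162 h162
  rw [l162] at h163
  have h164 := chkAll_sound H hR c163 h163
  rw [l163] at h164
  have h165 := chkAll_sound H hR c164 h164
  rw [l164] at h165
  have h166 := chkAll_sound H hR c165 h165
  rw [l165] at h166
  have h167 := chkAll_sound H hR c166 h166
  rw [l166] at h167
  have h168 := chkAll_sound H hR c167 h167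
  rw [l167] at h168
  have h169 := chkAll_sound H hR c168 h168
  rw [l168] at h169
  have h170 := chkAll_sound H hR c169 h169
  rw [l169] at h170
  have h171 := chkAll_sound H hR c170 h170
  rw [l170] at h171
  have h172 := chkAll_sound H hR c171 h171
  rw [l171] at h172
  have h173 := chkAll_sound H hR c172 h172
  rw [l172] at h173
  have h174 := chkAll_sound H hR c173 h173
  rw [l173] at h174
  have h175 := chkAll_sound H hR c174 h174
  rw [l174] at h175
  have h176 := chkAll_sound H hR c175 h175
  rw [l175] at h176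
  have h177 := chkAll_sound H hR c176 h176
  rw [l176] at h177
  have h178 := chkAll_sound H hR c177 h177
  rw [l177] at h178
  have h179 := chkAll_sound H hR c178 h178
  rw [l178] at h179
  have h180 := chkAll_sound H hR c179 h179
  rw [l179] at h180
  have h181 := chkAll_sound H hR c180 h180
  rw [l180] at h181
  have h182 := chkAll_sound H hR c181 h181
  rw [l181] at h182
  have h183 := chkAll_sound H hR c182 h182
  rw [l182] at h183
  have h184 := chkAll_sound H hR c183 h183
  rw [l183] at h184
  have h185 := chkAll_sound H hR c184 h184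
  rw [l184] at h185
  have h186 := chkAll_sound H hR c185 h185
  rw [l185] at h186
  have h187 := chkAll_sound H hR c186 h186
  rw [l186] at h187
  have h188 := chkAll_sound H hR c187 h187
  rw [l187] at h188
  have h189 := chkAll_sound H hR c188 h188
  rw [l188] at h189
  have h190 := chkAll_sound H hR c189 h189
  rw [l189] at h190
  have h191 := chkAll_sound H hR c190 h190
  rw [l190] at h191
  have h192 := chkAll_sound H hR c191 h191
  rw [l191] at h192
  have h193 := chkAll_sound H hR c192 h192
  rw [l192] at h193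
  have h194 := chkAll_sound H hR c193 h193
  rw [l193] at h194
  have h195 := chkAll_sound H hR c194 h194
  rw [l194] at h195
  have h196 := chkAll_sound H hR c195 h195
  rw [l195] at h196
  have h197 := chkAll_sound H hR c196 h196
  rw [l196] at h197
  have h198 := chkAll_sound H hR c197 h197
  rw [l197] at h198
  have h199 := chkAll_sound H hR c198 h198
  rw [l198] at h199
  have h200 := chkAll_sound H hR c199 h199
  rw [l199] at h200
  have h201 := chkAll_sound H hR c200 h200
  rw [l200] at h201
  have h202 := chkAll_sound H hR c201 h201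
  rw [l201] at h202
  have h203 := chkAll_sound H hR c202 h202
  rw [l202] at h203
  have h204 := chkAll_sound H hR c203 h203
  rw [l203] at h204
  have h205 := chkAll_sound H hR c204 h204
  rw [l204] at h205
  have h206 := chkAll_sound H hR c205 h205
  rw [l205] at h206
  have h207 := chkAll_sound H hR c206 h206
  rw [l206] at h207
  have h208 := chkAll_sound H hR c207 h207
  rw [l207] at h208
  have h209 := chkAll_sound H hR c208 h208
  rw [l208] at h209
  have h210 := chkAll_sound H hR c209 h209
  rw [l209] at h210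
  have h211 := chkAll_sound H hR c210 h210
  rw [l210] at h211
  have h212 := chkAll_sound H hR c211 h211
  rw [l211] at h212
  have h213 := chkAll_sound H hR c212 h212
  rw [l212] at h213
  have h214 := chkAll_sound H hR c213 h213
  rw [l213] at h214
  have h215 := chkAll_sound H hR c214 h214
  rw [l214] at h215
  have h216 := chkAll_sound H hR c215 h215
  rw [l215] at h216
  have h217 := chkAll_sound H hR c216 h216
  rw [l216] at h217
  have h218 := chkAll_sound H hR c217 h217
  rw [l217] at h218
  have h219 := chkAll_sound H hR c218 h218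
  rw [l218] at h219
  have h220 := chkAll_sound H hR c219 h219
  rw [l219] at h220
  have h221 := chkAll_sound H hR c220 h220
  rw [l220] at h221
  have h222 := chkAll_sound H hR c221 h221
  rw [l221] at h222
  have h223 := chkAll_sound H hR c222 h222
  rw [l222] at h223
  have h224 := chkAll_sound H hR c223 h223
  rw [l223] at h224
  exact no_root h224 (Nat.lt_succ_self (nat_lit 6510)) r v hv

end Q14_4_4_0_4_2

namespace Q14_4_4_1_2_3

open Finset Classical

/-- degree, order and types -/
def C : Cl := ⟨nat_lit 4,nat_lit 14,[nat_lit 3,nat_lit 7,nat_lit 0,nat_lit 4,nat_lit 8]⟩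

/-- the numbers of vertices of each type -/
def R : ℕ := nat_lit 13958791169

/-- part of the table -/
noncomputable def T0 : Tr := (lf (nat_lit 1) (nat_lit 0))

/-- the table -/
noncomputable def T : Tr := T0

/-- part of the certificates -/
def L0 : List Prf := [(.br (nat_lit 0) (nat_lit 0) (.cons (.br (nat_lit 0) (nat_lit 0) (.cons (.br (nat_lit 0) (nat_lit 0) .nil) .nil)) .nil))]

theorem c0 : chkAll C T R L0 (nat_lit 0) = true := by decide +kernel

theorem l0 : (nat_lit 0) + L0.length = (nat_lit 1) := by decide +kernel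

theorem r : isRoot (T.get (nat_lit 0)) (nat_lit 0) = true := by decide +kernel

theorem no {V : Type} [Fintype V] {Nb : V → Finset V} {x : V → ℤ} (H : Hyp C Nb x)
    (hR : ∀ t, (univ.filter (fun w => ty Nb x w = t)).card ≤ R / 16 ^ t % 16) (v : V)
    (hv : ty Nb x v = 0) : False := by
  have h0 : ∀ i < (nat_lit 0), ∀ φ, ¬ PEmb Nb x (T.get i) φ := fun i hi => absurd hi (Nat.not_lt_zero i)
  have h1 := chkAll_sound H hR c0 h0
  rw [l0] at h1
  exact no_root h1 (Nat.lt_succ_self (nat_lit 0)) r v hv

end Q14_4_4_1_2_3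

namespace Q14_4_4_2_0_4

open Finset Classical

/-- degree, order and types -/
def C : Cl := ⟨nat_lit 4,nat_lit 14,[nat_lit 3,nat_lit 7,nat_lit 0,nat_lit 4,nat_lit 8]⟩

/-- the numbers of vertices of each type -/
def R : ℕ := nat_lit 18253627394

/-- part of the table -/
noncomputable def T0 : Tr := (lf (nat_lit 1) (nat_lit 0))

/-- the table -/
noncomputable def T : Tr := T0

/-- part of the certificates -/
def L0 : List Prf := [(.br (nat_lit 0) (nat_lit 0) (.cons (.br (nat_lit 0) (nat_lit 0) .nil) .nil))]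

theorem c0 : chkAll C T R L0 (nat_lit 0) = true := by decide +kernel

theorem l0 : (nat_lit 0) + L0.length = (nat_lit 1) := by decide +kernel

theorem r : isRoot (T.get (nat_lit 0)) (nat_lit 0) = true := by decide +kernel

theorem no {V : Type} [Fintype V] {Nb : V → Finset V} {x : V → ℤ} (H : Hyp C Nb x)
    (hR : ∀ t, (univ.filter (fun w => ty Nb x w = t)).card ≤ R / 16 ^ t % 16) (v : V)
    (hv : ty Nb x v = 0) : False := by
  have h0 : ∀ i < (nat_lit 0), ∀ φ, ¬ PEmb Nb x (T.get i) φ := fun i hi => absurd hi (Nat.not_lt_zero i)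
  have h1 := chkAll_sound H hR c0 h0
  rw [l0] at h1
  exact no_root h1 (Nat.lt_succ_self (nat_lit 0)) r v hv

end Q14_4_4_2_0_4

namespace Q14_6_0_0_7_1

open Finset Classical

theorem r : isRoot (T.get (nat_lit 5338)) (nat_lit 8) = true := by decide +kernel

theorem no {V : Type} [Fintype V] {Nb : V → Finset V} {x : V → ℤ} (H : Hyp C Nb x)
    (hR : ∀ t, (univ.filter (fun w => ty Nb x w = t)).card ≤ R / 16 ^ t % 16) (v : V)
    (hv : ty Nb x v = 8) : False := by
  have h0 : ∀ i < (nat_lit 0), ∀ φ, ¬ PEmb Nb x (T.get i) φ := fun i hi => absurd hi (Nat.not_lt_zero i)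
  have h1 := chkAll_sound H hR c0 h0
  rw [l0] at h1
  have h2 := chkAll_sound H hR c1 h1
  rw [l1] at h2
  have h3 := chkAll_sound H hR c2 h2
  rw [l2] at h3
  have h4 := chkAll_sound H hR c3 h3
  rw [l3] at h4
  have h5 := chkAll_sound H hR c4 h4
  rw [l4] at h5
  have h6 := chkAll_sound H hR c5 h5
  rw [l5] at h6
  have h7 := chkAll_sound H hR c6 h6
  rw [l6] at h7
  have h8 := chkAll_sound H hR c7 h7
  rw [l7] at h8
  have h9 := chkAll_sound H hR c8 h8
  rw [l8] at h9
  have h10 := chkAll_sound H hR c9 h9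
  rw [l9] at h10
  have h11 := chkAll_sound H hR c10 h10
  rw [l10] at h11
  have h12 := chkAll_sound H hR c11 h11
  rw [l11] at h12
  have h13 := chkAll_sound H hR c12 h12
  rw [l12] at h13
  have h14 := chkAll_sound H hR c13 h13
  rw [l13] at h14
  have h15 := chkAll_sound H hR c14 h14
  rw [l14] at h15
  have h16 := chkAll_sound H hR c15 h15
  rw [l15] at h16
  have h17 := chkAll_sound H hR c16 h16
  rw [l16] at h17
  have h18 := chkAll_sound H hR c17 h17
  rw [l17] at h18
  have h19 := chkAll_sound H hR c18 h18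
  rw [l18] at h19
  have h20 := chkAll_sound H hR c19 h19
  rw [l19] at h20
  have h21 := chkAll_sound H hR c20 h20
  rw [l20] at h21
  have h22 := chkAll_sound H hR c21 h21
  rw [l21] at h22
  have h23 := chkAll_sound H hR c22 h22
  rw [l22] at h23
  have h24 := chkAll_sound H hR c23 h23
  rw [l23] at h24
  have h25 := chkAll_sound H hR c24 h24
  rw [l24] at h25
  have h26 := chkAll_sound H hR c25 h25
  rw [l25] at h26
  have h27 := chkAll_sound H hR c26 h26
  rw [l26] at h27
  have h28 := chkAll_sound H hR c27 h27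
  rw [l27] at h28
  have h29 := chkAll_sound H hR c28 h28
  rw [l28] at h29
  have h30 := chkAll_sound H hR c29 h29
  rw [l29] at h30
  have h31 := chkAll_sound H hR c30 h30
  rw [l30] at h31
  have h32 := chkAll_sound H hR c31 h31
  rw [l31] at h32
  have h33 := chkAll_sound H hR c32 h32
  rw [l32] at h33
  have h34 := chkAll_sound H hR c33 h33
  rw [l33] at h34
  have h35 := chkAll_sound H hR c34 h34
  rw [l34] at h35
  have h36 := chkAll_sound H hR c35 h35
  rw [l35] at h36
  have h37 := chkAll_sound H hR c36 h36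
  rw [l36] at h37
  have h38 := chkAll_sound H hR c37 h37
  rw [l37] at h38
  have h39 := chkAll_sound H hR c38 h38
  rw [l38] at h39
  have h40 := chkAll_sound H hR c39 h39
  rw [l39] at h40
  have h41 := chkAll_sound H hR c40 h40
  rw [l40] at h41
  have h42 := chkAll_sound H hR c41 h41
  rw [l41] at h42
  have h43 := chkAll_sound H hR c42 h42
  rw [l42] at h43
  have h44 := chkAll_sound H hR c43 h43
  rw [l43] at h44
  have h45 := chkAll_sound H hR c44 h44
  rw [l44] at h45
  have h46 := chkAll_sound H hR c45 h45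
  rw [l45] at h46
  have h47 := chkAll_sound H hR c46 h46
  rw [l46] at h47
  have h48 := chkAll_sound H hR c47 h47
  rw [l47] at h48
  have h49 := chkAll_sound H hR c48 h48
  rw [l48] at h49
  have h50 := chkAll_sound H hR c49 h49
  rw [l49] at h50
  have h51 := chkAll_sound H hR c50 h50
  rw [l50] at h51
  have h52 := chkAll_sound H hR c51 h51
  rw [l51] at h52
  have h53 := chkAll_sound H hR c52 h52
  rw [l52] at h53
  have h54 := chkAll_sound H hR c53 h53
  rw [l53] at h54
  have h55 := chkAll_sound H hR c54 h54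
  rw [l54] at h55
  have h56 := chkAll_sound H hR c55 h55
  rw [l55] at h56
  have h57 := chkAll_sound H hR c56 h56
  rw [l56] at h57
  have h58 := chkAll_sound H hR c57 h57
  rw [l57] at h58
  have h59 := chkAll_sound H hR c58 h58
  rw [l58] at h59
  have h60 := chkAll_sound H hR c59 h59
  rw [l59] at h60
  have h61 := chkAll_sound H hR c60 h60
  rw [l60] at h61
  have h62 := chkAll_sound H hR c61 h61
  rw [l61] at h62
  have h63 := chkAll_sound H hR c62 h62
  rw [l62] at h63
  have h64 := chkAll_sound H hR c63 h63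
  rw [l63] at h64
  have h65 := chkAll_sound H hR c64 h64
  rw [l64] at h65
  have h66 := chkAll_sound H hR c65 h65
  rw [l65] at h66
  have h67 := chkAll_sound H hR c66 h66
  rw [l66] at h67
  have h68 := chkAll_sound H hR c67 h67
  rw [l67] at h68
  have h69 := chkAll_sound H hR c68 h68
  rw [l68] at h69
  have h70 := chkAll_sound H hR c69 h69
  rw [l69] at h70
  have h71 := chkAll_sound H hR c70 h70
  rw [l70] at h71
  have h72 := chkAll_sound H hR c71 h71
  rw [l71] at h72
  have h73 := chkAll_sound H hR c72 h72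
  rw [l72] at h73
  have h74 := chkAll_sound H hR c73 h73
  rw [l73] at h74
  have h75 := chkAll_sound H hR c74 h74
  rw [l74] at h75
  have h76 := chkAll_sound H hR c75 h75
  rw [l75] at h76
  have h77 := chkAll_sound H hR c76 h76
  rw [l76] at h77
  have h78 := chkAll_sound H hR c77 h77
  rw [l77] at h78
  have h79 := chkAll_sound H hR c78 h78
  rw [l78] at h79
  have h80 := chkAll_sound H hR c79 h79
  rw [l79] at h80
  have h81 := chkAll_sound H hR c80 h80
  rw [l80] at h81
  have h82 := chkAll_sound H hR c81 h81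
  rw [l81] at h82
  have h83 := chkAll_sound H hR c82 h82
  rw [l82] at h83
  have h84 := chkAll_sound H hR c83 h83
  rw [l83] at h84
  have h85 := chkAll_sound H hR c84 h84
  rw [l84] at h85
  have h86 := chkAll_sound H hR c85 h85
  rw [l85] at h86
  have h87 := chkAll_sound H hR c86 h86
  rw [l86] at h87
  have h88 := chkAll_sound H hR c87 h87
  rw [l87] at h88
  have h89 := chkAll_sound H hR c88 h88
  rw [l88] at h89
  have h90 := chkAll_sound H hR c89 h89
  rw [l89] at h90
  have h91 := chkAll_sound H hR c90 h90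
  rw [l90] at h91
  have h92 := chkAll_sound H hR c91 h91
  rw [l91] at h92
  have h93 := chkAll_sound H hR c92 h92
  rw [l92] at h93
  have h94 := chkAll_sound H hR c93 h93
  rw [l93] at h94
  have h95 := chkAll_sound H hR c94 h94
  rw [l94] at h95
  have h96 := chkAll_sound H hR c95 h95
  rw [l95] at h96
  have h97 := chkAll_sound H hR c96 h96
  rw [l96] at h97
  have h98 := chkAll_sound H hR c97 h97
  rw [l97] at h98
  have h99 := chkAll_sound H hR c98 h98
  rw [l98] at h99
  have h100 := chkAll_sound H hR c99 h99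
  rw [l99] at h100
  have h101 := chkAll_sound H hR c100 h100
  rw [l100] at h101
  have h102 := chkAll_sound H hR c101 h101
  rw [l101] at h102
  have h103 := chkAll_sound H hR c102 h102
  rw [l102] at h103
  have h104 := chkAll_sound H hR c103 h103
  rw [l103] at h104
  have h105 := chkAll_sound H hR c104 h104
  rw [l104] at h105
  have h106 := chkAll_sound H hR c105 h105
  rw [l105] at h106
  have h107 := chkAll_sound H hR c106 h106
  rw [l106] at h107
  have h108 := chkAll_sound H hR c107 h107
  rw [l107] at h108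
  have h109 := chkAll_sound H hR c108 h108
  rw [l108] at h109
  have h110 := chkAll_sound H hR c109 h109
  rw [l109] at h110
  have h111 := chkAll_sound H hR c110 h110
  rw [l110] at h111
  have h112 := chkAll_sound H hR c111 h111
  rw [l111] at h112
  have h113 := chkAll_sound H hR c112 h112
  rw [l112] at h113
  have h114 := chkAll_sound H hR c113 h113
  rw [l113] at h114
  have h115 := chkAll_sound H hR c114 h114
  rw [l114] at h115
  have h116 := chkAll_sound H hR c115 h115
  rw [l115] at h116
  have h117 := chkAll_sound H hR c116 h116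
  rw [l116] at h117
  have h118 := chkAll_sound H hR c117 h117
  rw [l117] at h118
  have h119 := chkAll_sound H hR c118 h118
  rw [l118] at h119
  have h120 := chkAll_sound H hR c119 h119
  rw [l119] at h120
  have h121 := chkAll_sound H hR c120 h120
  rw [l120] at h121
  have h122 := chkAll_sound H hR c121 h121
  rw [l121] at h122
  have h123 := chkAll_sound H hR c122 h122
  rw [l122] at h123
  have h124 := chkAll_sound H hR c123 h123
  rw [l123] at h124
  have h125 := chkAll_sound H hR c124 h124
  rw [l124] at h125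
  have h126 := chkAll_sound H hR c125 h125
  rw [l125] at h126
  have h127 := chkAll_sound H hR c126 h126
  rw [l126] at h127
  have h128 := chkAll_sound H hR c127 h127
  rw [l127] at h128
  have h129 := chkAll_sound H hR c128 h128
  rw [l128] at h129
  have h130 := chkAll_sound H hR c129 h129
  rw [l129] at h130
  have h131 := chkAll_sound H hR c130 h130
  rw [l130] at h131
  have h132 := chkAll_sound H hR c131 h131
  rw [l131] at h132
  have h133 := chkAll_sound H hR c132 h132
  rw [l132] at h133
  have h134 := chkAll_sound H hR c133 h133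
  rw [l133] at h134
  have h135 := chkAll_sound H hR c134 h134
  rw [l134] at h135
  have h136 := chkAll_sound H hR c135 h135
  rw [l135] at h136
  have h137 := chkAll_sound H hR c136 h136
  rw [l136] at h137
  have h138 := chkAll_sound H hR c137 h137
  rw [l137] at h138
  have h139 := chkAll_sound H hR c138 h138
  rw [l138] at h139
  have h140 := chkAll_sound H hR c139 h139
  rw [l139] at h140
  have h141 := chkAll_sound H hR c140 h140
  rw [l140] at h141
  have h142 := chkAll_sound H hR c141 h141
  rw [l141] at h142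
  have h143 := chkAll_sound H hR c142 h142
  rw [l142] at h143
  have h144 := chkAll_sound H hR c143 h143
  rw [l143] at h144
  have h145 := chkAll_sound H hR c144 h144
  rw [l144] at h145
  have h146 := chkAll_sound H hR c145 h145
  rw [l145] at h146
  have h147 := chkAll_sound H hR c146 h146
  rw [l146] at h147
  have h148 := chkAll_sound H hR c147 h147
  rw [l147] at h148
  have h149 := chkAll_sound H hR c148 h148
  rw [l148] at h149
  have h150 := chkAll_sound H hR c149 h149
  rw [l149] at h150
  have h151 := chkAll_sound H hR c150 h150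
  rw [l150] at h151
  have h152 := chkAll_sound H hR c151 h151
  rw [l151] at h152
  have h153 := chkAll_sound H hR c152 h152
  rw [l152] at h153
  have h154 := chkAll_sound H hR c153 h153
  rw [l153] at h154
  have h155 := chkAll_sound H hR c154 h154
  rw [l154] at h155
  have h156 := chkAll_sound H hR c155 h155
  rw [l155] at h156
  have h157 := chkAll_sound H hR c156 h156
  rw [l156] at h157
  have h158 := chkAll_sound H hR c157 h157
  rw [l157] at h158
  have h159 := chkAll_sound H hR c158 h158
  rw [l158] at h159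
  have h160 := chkAll_sound H hR c159 h159
  rw [l159] at h160
  have h161 := chkAll_sound H hR c160 h160
  rw [l160] at h161
  have h162 := chkAll_sound H hR c161 h161
  rw [l161] at h162
  have h163 := chkAll_sound H hR c162 h162
  rw [l162] at h163
  have h164 := chkAll_sound H hR c163 h163
  rw [l163] at h164
  have h165 := chkAll_sound H hR c164 h164
  rw [l164] at h165
  have h166 := chkAll_sound H hR c165 h165
  rw [l165] at h166
  have h167 := chkAll_sound H hR c166 h166
  rw [l166] at h167
  have h168 := chkAll_sound H hR c167 h167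
  rw [l167] at h168
  have h169 := chkAll_sound H hR c168 h168
  rw [l168] at h169
  have h170 := chkAll_sound H hR c169 h169
  rw [l169] at h170
  have h171 := chkAll_sound H hR c170 h170
  rw [l170] at h171
  have h172 := chkAll_sound H hR c171 h171
  rw [l171] at h172
  have h173 := chkAll_sound H hR c172 h172
  rw [l172] at h173
  have h174 := chkAll_sound H hR c173 h173
  rw [l173] at h174
  have h175 := chkAll_sound H hR c174 h174
  rw [l174] at h175
  have h176 := chkAll_sound H hR c175 h175
  rw [l175] at h176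
  have h177 := chkAll_sound H hR c176 h176
  rw [l176] at h177
  have h178 := chkAll_sound H hR c177 h177
  rw [l177] at h178
  have h179 := chkAll_sound H hR c178 h178
  rw [l178] at h179
  have h180 := chkAll_sound H hR c179 h179
  rw [l179] at h180
  have h181 := chkAll_sound H hR c180 h180
  rw [l180] at h181
  have h182 := chkAll_sound H hR c181 h181
  rw [l181] at h182
  have h183 := chkAll_sound H hR c182 h182
  rw [l182] at h183
  have h184 := chkAll_sound H hR c183 h183
  rw [l183] at h184
  have h185 := chkAll_sound H hR c184 h184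
  rw [l184] at h185
  have h186 := chkAll_sound H hR c185 h185
  rw [l185] at h186
  have h187 := chkAll_sound H hR c186 h186
  rw [l186] at h187
  have h188 := chkAll_sound H hR c187 h187
  rw [l187] at h188
  have h189 := chkAll_sound H hR c188 h188
  rw [l188] at h189
  have h190 := chkAll_sound H hR c189 h189
  rw [l189] at h190
  have h191 := chkAll_sound H hR c190 h190
  rw [l190] at h191
  have h192 := chkAll_sound H hR c191 h191
  rw [l191] at h192
  have h193 := chkAll_sound H hR c192 h192
  rw [l192] at h193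
  have h194 := chkAll_sound H hR c193 h193
  rw [l193] at h194
  have h195 := chkAll_sound H hR c194 h194
  rw [l194] at h195
  have h196 := chkAll_sound H hR c195 h195
  rw [l195] at h196
  have h197 := chkAll_sound H hR c196 h196
  rw [l196] at h197
  have h198 := chkAll_sound H hR c197 h197
  rw [l197] at h198
  have h199 := chkAll_sound H hR c198 h198
  rw [l198] at h199
  have h200 := chkAll_sound H hR c199 h199
  rw [l199] at h200
  have h201 := chkAll_sound H hR c200 h200
  rw [l200] at h201
  have h202 := chkAll_sound H hR c201 h201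
  rw [l201] at h202
  have h203 := chkAll_sound H hR c202 h202
  rw [l202] at h203
  have h204 := chkAll_sound H hR c203 h203
  rw [l203] at h204
  have h205 := chkAll_sound H hR c204 h204
  rw [l204] at h205
  have h206 := chkAll_sound H hR c205 h205
  rw [l205] at h206
  exact no_root h206 (Nat.lt_succ_self (nat_lit 5338)) r v hv

end Q14_6_0_0_7_1

namespace Q14_6_0_1_5_2

open Finset Classical

theorem r : isRoot (T.get (nat_lit 1874)) (nat_lit 0) = true := by decide +kernel

theorem no {V : Type} [Fintype V] {Nb : V → Finset V} {x : V → ℤ} (H : Hyp C Nb x)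
    (hR : ∀ t, (univ.filter (fun w => ty Nb x w = t)).card ≤ R / 16 ^ t % 16) (v : V)
    (hv : ty Nb x v = 0) : False := by
  have h0 : ∀ i < (nat_lit 0), ∀ φ, ¬ PEmb Nb x (T.get i) φ := fun i hi => absurd hi (Nat.not_lt_zero i)
  have h1 := chkAll_sound H hR c0 h0
  rw [l0] at h1
  have h2 := chkAll_sound H hR c1 h1
  rw [l1] at h2
  have h3 := chkAll_sound H hR c2 h2
  rw [l2] at h3
  have h4 := chkAll_sound H hR c3 h3
  rw [l3] at h4
  have h5 := chkAll_sound H hR c4 h4
  rw [l4] at h5
  have h6 := chkAll_sound H hR c5 h5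
  rw [l5] at h6
  have h7 := chkAll_sound H hR c6 h6
  rw [l6] at h7
  have h8 := chkAll_sound H hR c7 h7
  rw [l7] at h8
  have h9 := chkAll_sound H hR c8 h8
  rw [l8] at h9
  have h10 := chkAll_sound H hR c9 h9
  rw [l9] at h10
  have h11 := chkAll_sound H hR c10 h10
  rw [l10] at h11
  have h12 := chkAll_sound H hR c11 h11
  rw [l11] at h12
  have h13 := chkAll_sound H hR c12 h12
  rw [l12] at h13
  have h14 := chkAll_sound H hR c13 h13
  rw [l13] at h14
  have h15 := chkAll_sound H hR c14 h14
  rw [l14] at h15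
  have h16 := chkAll_sound H hR c15 h15
  rw [l15] at h16
  have h17 := chkAll_sound H hR c16 h16
  rw [l16] at h17
  have h18 := chkAll_sound H hR c17 h17
  rw [l17] at h18
  have h19 := chkAll_sound H hR c18 h18
  rw [l18] at h19
  have h20 := chkAll_sound H hR c19 h19
  rw [l19] at h20
  have h21 := chkAll_sound H hR c20 h20
  rw [l20] at h21
  have h22 := chkAll_sound H hR c21 h21
  rw [l21] at h22
  have h23 := chkAll_sound H hR c22 h22
  rw [l22] at h23
  have h24 := chkAll_sound H hR c23 h23
  rw [l23] at h24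
  have h25 := chkAll_sound H hR c24 h24
  rw [l24] at h25
  have h26 := chkAll_sound H hR c25 h25
  rw [l25] at h26
  have h27 := chkAll_sound H hR c26 h26
  rw [l26] at h27
  have h28 := chkAll_sound H hR c27 h27
  rw [l27] at h28
  have h29 := chkAll_sound H hR c28 h28
  rw [l28] at h29
  have h30 := chkAll_sound H hR c29 h29
  rw [l29] at h30
  have h31 := chkAll_sound H hR c30 h30
  rw [l30] at h31
  have h32 := chkAll_sound H hR c31 h31
  rw [l31] at h32
  have h33 := chkAll_sound H hR c32 h32
  rw [l32] at h33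
  have h34 := chkAll_sound H hR c33 h33
  rw [l33] at h34
  have h35 := chkAll_sound H hR c34 h34
  rw [l34] at h35
  have h36 := chkAll_sound H hR c35 h35
  rw [l35] at h36
  have h37 := chkAll_sound H hR c36 h36
  rw [l36] at h37
  have h38 := chkAll_sound H hR c37 h37
  rw [l37] at h38
  have h39 := chkAll_sound H hR c38 h38
  rw [l38] at h39
  have h40 := chkAll_sound H hR c39 h39
  rw [l39] at h40
  have h41 := chkAll_sound H hR c40 h40
  rw [l40] at h41
  have h42 := chkAll_sound H hR c41 h41
  rw [l41] at h42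
  have h43 := chkAll_sound H hR c42 h42
  rw [l42] at h43
  have h44 := chkAll_sound H hR c43 h43
  rw [l43] at h44
  have h45 := chkAll_sound H hR c44 h44
  rw [l44] at h45
  have h46 := chkAll_sound H hR c45 h45
  rw [l45] at h46
  have h47 := chkAll_sound H hR c46 h46
  rw [l46] at h47
  have h48 := chkAll_sound H hR c47 h47
  rw [l47] at h48
  have h49 := chkAll_sound H hR c48 h48
  rw [l48] at h49
  have h50 := chkAll_sound H hR c49 h49
  rw [l49] at h50
  have h51 := chkAll_sound H hR c50 h50
  rw [l50] at h51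
  have h52 := chkAll_sound H hR c51 h51
  rw [l51] at h52
  have h53 := chkAll_sound H hR c52 h52
  rw [l52] at h53
  exact no_root h53 (Nat.lt_succ_self (nat_lit 1874)) r v hv

end Q14_6_0_1_5_2

namespace Q14_6_0_2_3_3

open Finset Classical

/-- degree, order and types -/
def C : Cl := ⟨nat_lit 4,nat_lit 14,[nat_lit 3,nat_lit 7,nat_lit 0,nat_lit 4,nat_lit 8]⟩

/-- the numbers of vertices of each type -/
def R : ℕ := nat_lit 12885123074

/-- part of the table -/
noncomputable def T0 : Tr := (.node (.node (lf (nat_lit 5) (nat_lit 680020891752726175678612)) (lf (nat_lit 2) (nat_lit 144))) (.node (lf (nat_lit 5) (nat_lit 680020891752721612275860)) (lf (nat_lit 1) (nat_lit 0))))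

/-- the table -/
noncomputable def T : Tr := T0

/-- part of the certificates -/
def L0 : List Prf := [(.br (nat_lit 1) (nat_lit 0) (.cons (.kr (nat_lit 1) (nat_lit 256) (nat_lit 0) (nat_lit 2)) .nil)),
 (.br (nat_lit 1) (nat_lit 0) (.cons (.rf (nat_lit 0) (nat_lit 4294688)) (.cons (.rf (nat_lit 0) (nat_lit 3278880)) .nil))),
 (.br (nat_lit 0) (nat_lit 0) (.cons (.br (nat_lit 0) (nat_lit 0) (.cons (.br (nat_lit 0) (nat_lit 0) (.cons (.br (nat_lit 1) (nat_lit 0) (.cons (.rf (nat_lit 1) (nat_lit 4294688)) (.cons (.rf (nat_lit 1) (nat_lit 4262944)) (.cons (.rf (nat_lit 1) (nat_lit 3215392)) .nil)))) .nil)) .nil)) .nil)),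
 (.br (nat_lit 0) (nat_lit 0) (.cons (.rf (nat_lit 2) (nat_lit 32)) (.cons (.br (nat_lit 0) (nat_lit 0) (.cons (.rf (nat_lit 2) (nat_lit 64)) (.cons (.br (nat_lit 0) (nat_lit 0) (.cons (.rf (nat_lit 2) (nat_lit 96)) (.cons (.br (nat_lit 0) (nat_lit 0) (.cons (.rf (nat_lit 2) (nat_lit 128)) .nil)) .nil))) .nil))) .nil)))]

theorem c0 : chkAll C T R L0 (nat_lit 0) = true := by decide +kernel

theorem l0 : (nat_lit 0) + L0.length = (nat_lit 4) := by decide +kernel

theorem r : isRoot (T.get (nat_lit 3)) (nat_lit 0) = true := by decide +kernel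

theorem no {V : Type} [Fintype V] {Nb : V → Finset V} {x : V → ℤ} (H : Hyp C Nb x)
    (hR : ∀ t, (univ.filter (fun w => ty Nb x w = t)).card ≤ R / 16 ^ t % 16) (v : V)
    (hv : ty Nb x v = 0) : False := by
  have h0 : ∀ i < (nat_lit 0), ∀ φ, ¬ PEmb Nb x (T.get i) φ := fun i hi => absurd hi (Nat.not_lt_zero i)
  have h1 := chkAll_sound H hR c0 h0
  rw [l0] at h1
  exact no_root h1 (Nat.lt_succ_self (nat_lit 3)) r v hv

end Q14_6_0_2_3_3

namespace Q14_6_0_3_1_4

open Finset Classical

/-- degree, order and types -/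
def C : Cl := ⟨nat_lit 4,nat_lit 14,[nat_lit 3,nat_lit 7,nat_lit 0,nat_lit 4,nat_lit 8]⟩

/-- the numbers of vertices of each type -/
def R : ℕ := nat_lit 17179959299

/-- part of the table -/
noncomputable def T0 : Tr := (.node (.node (lf (nat_lit 3) (nat_lit 2415919248)) (lf (nat_lit 1) (nat_lit 0))) (lf (nat_lit 2) (nat_lit 144)))

/-- the table -/
noncomputable def T : Tr := T0

/-- part of the certificates -/
def L0 : List Prf := [(.br (nat_lit 0) (nat_lit 0) (.cons (.br (nat_lit 0) (nat_lit 0) .nil) .nil)),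
 (.br (nat_lit 0) (nat_lit 0) (.cons (.rf (nat_lit 0) (nat_lit 2080)) (.cons (.br (nat_lit 0) (nat_lit 0) (.cons (.rf (nat_lit 0) (nat_lit 3104)) .nil)) .nil))),
 (.br (nat_lit 0) (nat_lit 0) (.cons (.rf (nat_lit 1) (nat_lit 32)) (.cons (.br (nat_lit 0) (nat_lit 0) (.cons (.rf (nat_lit 1) (nat_lit 64)) .nil)) .nil)))]

theorem c0 : chkAll C T R L0 (nat_lit 0) = true := by decide +kernel

theorem l0 : (nat_lit 0) + L0.length = (nat_lit 3) := by decide +kernel

theorem r : isRoot (T.get (nat_lit 2)) (nat_lit 0) = true := by decide +kernel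

theorem no {V : Type} [Fintype V] {Nb : V → Finset V} {x : V → ℤ} (H : Hyp C Nb x)
    (hR : ∀ t, (univ.filter (fun w => ty Nb x w = t)).card ≤ R / 16 ^ t % 16) (v : V)
    (hv : ty Nb x v = 0) : False := by
  have h0 : ∀ i < (nat_lit 0), ∀ φ, ¬ PEmb Nb x (T.get i) φ := fun i hi => absurd hi (Nat.not_lt_zero i)
  have h1 := chkAll_sound H hR c0 h0
  rw [l0] at h1
  exact no_root h1 (Nat.lt_succ_self (nat_lit 2)) r v hv

end Q14_6_0_3_1_4

namespace Q14_8_0_0_0_6

open Finset Classical

theorem r : isRoot (T.get (nat_lit 246)) (nat_lit 8) = true := by decide +kernel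

theorem no {V : Type} [Fintype V] {Nb : V → Finset V} {x : V → ℤ} (H : Hyp C Nb x)
    (hR : ∀ t, (univ.filter (fun w => ty Nb x w = t)).card ≤ R / 16 ^ t % 16) (v : V)
    (hv : ty Nb x v = 8) : False := by
  have h0 : ∀ i < (nat_lit 0), ∀ φ, ¬ PEmb Nb x (T.get i) φ := fun i hi => absurd hi (Nat.not_lt_zero i)
  have h1 := chkAll_sound H hR c0 h0
  rw [l0] at h1
  have h2 := chkAll_sound H hR c1 h1
  rw [l1] at h2
  have h3 := chkAll_sound H hR c2 h2
  rw [l2] at h3
  have h4 := chkAll_sound H hR c3 h3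
  rw [l3] at h4
  have h5 := chkAll_sound H hR c4 h4
  rw [l4] at h5
  have h6 := chkAll_sound H hR c5 h5
  rw [l5] at h6
  have h7 := chkAll_sound H hR c6 h6
  rw [l6] at h7
  have h8 := chkAll_sound H hR c7 h7
  rw [l7] at h8
  exact no_root h8 (Nat.lt_succ_self (nat_lit 246)) r v hv

end Q14_8_0_0_0_6

end Pool.Agent.H93.Neg
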