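import Pool.Agent.H93.Neg.Check

/-!
The last step of a chain of checks.
-/

set_option autoImplicit false
set_option linter.unusedSectionVars false

namespace Pool.Agent.H93.Neg

open Finset Classical

variable {V : Type} [Fintype V] {C : Cl} {Nb : V → Finset V} {x : V → ℤ}

/-- the pattern is one vertex of type `t` -/
noncomputable def isRoot (P : List Pv) (t : ℕ) : Bool :=
  List.rec false (fun v r _ => List.rec (List.rec (Nat.beq v.t t) (fun _ _ _ => false) v.n)
    (fun _ _ _ => false) r) P

theorem isRoot_spec {P : List Pv} {t : ℕ} (h : isRoot P t = true) : P = [⟨t, []⟩] := by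
  cases P with
  | nil => exact absurd h (by simp [isRoot])
  | cons v r =>
    cases r with
    | cons a b => exact absurd h (by simp [isRoot])
    | nil =>
      obtain ⟨s, n⟩ := v
      cases n with
      | cons a b => exact absurd h (by simp [isRoot])
      | nil =>
        have h' : Nat.beq s t = true := h
        rw [Nat.eq_of_beq_eq_true h']

theorem no_root {T : Tr} {L j t : ℕ} (h : ∀ i < L, ∀ φ, ¬ PEmb Nb x (T.get i) φ) (hj : j < L)
    (hr : isRoot (T.get j) t = true) (v : V) (hv : ty Nb x v = t) : False := by
  refine h j hj (fun _ => v) ?_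
  rw [isRoot_spec hr]
  refine ⟨fun a ha b hb _ => ?_, fun a ha => ?_⟩
  · simp only [List.length_singleton] at ha hb
    omega
  · have : a = 0 := by simpa using ha
    subst this
    exact ⟨hv, fun b hb => absurd hb List.not_mem_nil⟩

end Pool.Agent.H93.Neg
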