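import Pool.Agent.H93.Neg.Cub
import Pool.Agent.H93.Neg.Fam3_14

/-!
No regular graph of degree three on 14 vertices has the property.
-/

set_option autoImplicit false

namespace Pool.Agent.H93.Neg

theorem no_3_14 {V : Type} [Fintype V] {Nb : V → Finset V} {z : V → ℤ}
    (h : Dat V 3 14 Nb z) : False := by
  obtain ⟨h1, h2, h3, h4, h5⟩ := cub h
  have H := hyp_of h (by norm_num) (cub_ty h)
  obtain ⟨a3, e3⟩ : ∃ a, cnt Nb z 3 = a := ⟨_, rfl⟩
  obtain ⟨a7, e7⟩ : ∃ a, cnt Nb z 7 = a := ⟨_, rfl⟩
  obtain ⟨a4, e4⟩ : ∃ a, cnt Nb z 4 = a := ⟨_, rfl⟩
  obtain ⟨a0, e0⟩ : ∃ a, cnt Nb z 0 = a := ⟨_, rfl⟩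
  simp only [e3, e7, e4, e0] at h1 h2 h3 h4 h5
  rcases (show a3 = 2 ∨ a3 = 4 ∨ a3 = 6 by omega) with r | r | r
  · subst r
    obtain rfl : a4 = 2 := by omega
    rcases (show a7 = 0 ∨ a7 = 4 ∨ a7 = 8 by omega) with r | r | r
    · subst r
      obtain rfl : a0 = 10 := by omega
      obtain ⟨v, hv⟩ := exists_of_cnt e3 (by norm_num)
      refine N14_2_0.no H (hR_of H ?_) v hv
      intro t ht
      rcases List.mem_cons.1 ht with e | ht
      · subst e
        exact e3.trans (by decide +kernel)
      rcases List.mem_cons.1 ht with e | ht
      · subst e
        exact e7.trans (by decide +kernel)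
      rcases List.mem_cons.1 ht with e | ht
      · subst e
        exact e4.trans (by decide +kernel)
      rcases List.mem_cons.1 ht with e | ht
      · subst e
        exact e0.trans (by decide +kernel)
      exact absurd ht List.not_mem_nil
    · subst r
      obtain rfl : a0 = 6 := by omega
      obtain ⟨v, hv⟩ := exists_of_cnt e4 (by norm_num)
      refine N14_2_4.no H (hR_of H ?_) v hv
      intro t ht
      rcases List.mem_cons.1 ht with e | ht
      · subst e
        exact e3.trans (by decide +kernel)
      rcases List.mem_cons.1 ht with e | ht
      · subst e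
        exact e7.trans (by decide +kernel)
      rcases List.mem_cons.1 ht with e | ht
      · subst e
        exact e4.trans (by decide +kernel)
      rcases List.mem_cons.1 ht with e | ht
      · subst e
        exact e0.trans (by decide +kernel)
      exact absurd ht List.not_mem_nil
    · subst r
      obtain rfl : a0 = 2 := by omega
      obtain ⟨v, hv⟩ := exists_of_cnt e3 (by norm_num)
      refine N14_2_8.no H (hR_of H ?_) v hv
      intro t ht
      rcases List.mem_cons.1 ht with e | ht
      · subst e
        exact e3.trans (by decide +kernel)
      rcases List.mem_cons.1 ht with e | ht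
      · subst e
        exact e7.trans (by decide +kernel)
      rcases List.mem_cons.1 ht with e | ht
      · subst e
        exact e4.trans (by decide +kernel)
      rcases List.mem_cons.1 ht with e | ht
      · subst e
        exact e0.trans (by decide +kernel)
      exact absurd ht List.not_mem_nil
  · subst r
    obtain rfl : a4 = 4 := by omega
    rcases (show a7 = 0 ∨ a7 = 4 by omega) with r | r
    · subst r
      obtain rfl : a0 = 6 := by omega
      obtain ⟨v, hv⟩ := exists_of_cnt e3 (by norm_num)
      refine N14_4_0.no H (hR_of H ?_) v hv
      intro t ht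
      rcases List.mem_cons.1 ht with e | ht
      · subst e
        exact e3.trans (by decide +kernel)
      rcases List.mem_cons.1 ht with e | ht
      · subst e
        exact e7.trans (by decide +kernel)
      rcases List.mem_cons.1 ht with e | ht
      · subst e
        exact e4.trans (by decide +kernel)
      rcases List.mem_cons.1 ht with e | ht
      · subst e
        exact e0.trans (by decide +kernel)
      exact absurd ht List.not_mem_nil
    · subst r
      obtain rfl : a0 = 2 := by omega
      obtain ⟨v, hv⟩ := exists_of_cnt e7 (by norm_num)
      refine N14_4_4.no H (hR_of H ?_) v hv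
      intro t ht
      rcases List.mem_cons.1 ht with e | ht
      · subst e
        exact e3.trans (by decide +kernel)
      rcases List.mem_cons.1 ht with e | ht
      · subst e
        exact e7.trans (by decide +kernel)
      rcases List.mem_cons.1 ht with e | ht
      · subst e
        exact e4.trans (by decide +kernel)
      rcases List.mem_cons.1 ht with e | ht
      · subst e
        exact e0.trans (by decide +kernel)
      exact absurd ht List.not_mem_nil
  · subst r
    obtain rfl : a4 = 6 := by omega
    have r : a7 = 0 := by omega
    subst r
    obtain rfl : a0 = 2 := by omega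
    obtain ⟨v, hv⟩ := exists_of_cnt e0 (by norm_num)
    refine N14_6_0.no H (hR_of H ?_) v hv
    intro t ht
    rcases List.mem_cons.1 ht with e | ht
    · subst e
      exact e3.trans (by decide +kernel)
    rcases List.mem_cons.1 ht with e | ht
    · subst e
      exact e7.trans (by decide +kernel)
    rcases List.mem_cons.1 ht with e | ht
    · subst e
      exact e4.trans (by decide +kernel)
    rcases List.mem_cons.1 ht with e | ht
    · subst e
      exact e0.trans (by decide +kernel)
    exact absurd ht List.not_mem_nil

end Pool.Agent.H93.Neg
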