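import Pool.Agent.H93.Neg.Cub
import Pool.Agent.H93.Neg.Fam4_13

/-!
No regular graph of degree four on 13 vertices has the property.
-/

set_option autoImplicit false

namespace Pool.Agent.H93.Neg

theorem no_4_13 {V : Type} [Fintype V] {Nb : V → Finset V} {z : V → ℤ}
    (h : Dat V 4 13 Nb z) : False := by
  obtain ⟨h1, h2, h3, h4, h5⟩ := qua h
  have H := hyp_of h (by norm_num) (qua_ty h)
  obtain ⟨a3, e3⟩ : ∃ a, cnt Nb z 3 = a := ⟨_, rfl⟩
  obtain ⟨a7, e7⟩ : ∃ a, cnt Nb z 7 = a := ⟨_, rfl⟩
  obtain ⟨a0, e0⟩ : ∃ a, cnt Nb z 0 = a := ⟨_, rfl⟩
  obtain ⟨a4, e4⟩ : ∃ a, cnt Nb z 4 = a := ⟨_, rfl⟩
  obtain ⟨a8, e8⟩ : ∃ a, cnt Nb z 8 = a := ⟨_, rfl⟩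
  simp only [e3, e7, e0, e4, e8] at h1 h2 h3 h4 h5
  rcases (show a3 = 0 ∨ a3 = 2 ∨ a3 = 4 ∨ a3 = 6 by omega) with r | r | r | r
  · subst r
    rcases (show a7 = 4 ∨ a7 = 8 by omega) with r | r
    · subst r
      rcases (show a8 = 0 ∨ a8 = 1 by omega) with r | r
      · subst r
        obtain rfl : a4 = 2 := by omega
        obtain rfl : a0 = 7 := by omega
        obtain ⟨v, hv⟩ := exists_of_cnt e7 (by norm_num)
        refine Q13_0_4_7_2_0.no H (hR_of H ?_) v hv
        intro t ht
        rcases List.mem_cons.1 ht with e | ht
        · subst e
          exact e3.trans (by decide +kernel)
        rcases List.mem_cons.1 ht with e | ht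
        · subst e
          exact e7.trans (by decide +kernel)
        rcases List.mem_cons.1 ht with e | ht
        · subst e
          exact e0.trans (by decide +kernel)
        rcases List.mem_cons.1 ht with e | ht
        · subst e
          exact e4.trans (by decide +kernel)
        rcases List.mem_cons.1 ht with e | ht
        · subst e
          exact e8.trans (by decide +kernel)
        exact absurd ht List.not_mem_nil
      · subst r
        obtain rfl : a4 = 0 := by omega
        obtain rfl : a0 = 8 := by omega
        obtain ⟨v, hv⟩ := exists_of_cnt e7 (by norm_num)
        refine Q13_0_4_8_0_1.no H (hR_of H ?_) v hv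
        intro t ht
        rcases List.mem_cons.1 ht with e | ht
        · subst e
          exact e3.trans (by decide +kernel)
        rcases List.mem_cons.1 ht with e | ht
        · subst e
          exact e7.trans (by decide +kernel)
        rcases List.mem_cons.1 ht with e | ht
        · subst e
          exact e0.trans (by decide +kernel)
        rcases List.mem_cons.1 ht with e | ht
        · subst e
          exact e4.trans (by decide +kernel)
        rcases List.mem_cons.1 ht with e | ht
        · subst e
          exact e8.trans (by decide +kernel)
        exact absurd ht List.not_mem_nil
    · subst r
      rcases (show a8 = 0 ∨ a8 = 1 ∨ a8 = 2 by omega) with r | r | r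
      · subst r
        obtain rfl : a4 = 4 := by omega
        obtain rfl : a0 = 1 := by omega
        obtain ⟨v, hv⟩ := exists_of_cnt e0 (by norm_num)
        refine Q13_0_8_1_4_0.no H (hR_of H ?_) v hv
        intro t ht
        rcases List.mem_cons.1 ht with e | ht
        · subst e
          exact e3.trans (by decide +kernel)
        rcases List.mem_cons.1 ht with e | ht
        · subst e
          exact e7.trans (by decide +kernel)
        rcases List.mem_cons.1 ht with e | ht
        · subst e
          exact e0.trans (by decide +kernel)
        rcases List.mem_cons.1 ht with e | ht
        · subst e
          exact e4.trans (by decide +kernel)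
        rcases List.mem_cons.1 ht with e | ht
        · subst e
          exact e8.trans (by decide +kernel)
        exact absurd ht List.not_mem_nil
      · subst r
        obtain rfl : a4 = 2 := by omega
        obtain rfl : a0 = 2 := by omega
        obtain ⟨v, hv⟩ := exists_of_cnt e0 (by norm_num)
        refine Q13_0_8_2_2_1.no H (hR_of H ?_) v hv
        intro t ht
        rcases List.mem_cons.1 ht with e | ht
        · subst e
          exact e3.trans (by decide +kernel)
        rcases List.mem_cons.1 ht with e | ht
        · subst e
          exact e7.trans (by decide +kernel)
        rcases List.mem_cons.1 ht with e | ht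
        · subst e
          exact e0.trans (by decide +kernel)
        rcases List.mem_cons.1 ht with e | ht
        · subst e
          exact e4.trans (by decide +kernel)
        rcases List.mem_cons.1 ht with e | ht
        · subst e
          exact e8.trans (by decide +kernel)
        exact absurd ht List.not_mem_nil
      · subst r
        obtain rfl : a4 = 0 := by omega
        obtain rfl : a0 = 3 := by omega
        obtain ⟨v, hv⟩ := exists_of_cnt e0 (by norm_num)
        refine Q13_0_8_3_0_2.no H (hR_of H ?_) v hv
        intro t ht
        rcases List.mem_cons.1 ht with e | ht
        · subst e
          exact e3.trans (by decide +kernel)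
        rcases List.mem_cons.1 ht with e | ht
        · subst e
          exact e7.trans (by decide +kernel)
        rcases List.mem_cons.1 ht with e | ht
        · subst e
          exact e0.trans (by decide +kernel)
        rcases List.mem_cons.1 ht with e | ht
        · subst e
          exact e4.trans (by decide +kernel)
        rcases List.mem_cons.1 ht with e | ht
        · subst e
          exact e8.trans (by decide +kernel)
        exact absurd ht List.not_mem_nil
  · subst r
    rcases (show a7 = 0 ∨ a7 = 4 by omega) with r | r
    · subst r
      rcases (show a8 = 0 ∨ a8 = 1 by omega) with r | r
      · subst r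
        obtain rfl : a4 = 3 := by omega
        obtain rfl : a0 = 8 := by omega
        obtain ⟨v, hv⟩ := exists_of_cnt e3 (by norm_num)
        refine Q13_2_0_8_3_0.no H (hR_of H ?_) v hv
        intro t ht
        rcases List.mem_cons.1 ht with e | ht
        · subst e
          exact e3.trans (by decide +kernel)
        rcases List.mem_cons.1 ht with e | ht
        · subst e
          exact e7.trans (by decide +kernel)
        rcases List.mem_cons.1 ht with e | ht
        · subst e
          exact e0.trans (by decide +kernel)
        rcases List.mem_cons.1 ht with e | ht
        · subst e
          exact e4.trans (by decide +kernel)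
        rcases List.mem_cons.1 ht with e | ht
        · subst e
          exact e8.trans (by decide +kernel)
        exact absurd ht List.not_mem_nil
      · subst r
        obtain rfl : a4 = 1 := by omega
        obtain rfl : a0 = 9 := by omega
        obtain ⟨v, hv⟩ := exists_of_cnt e8 (by norm_num)
        refine Q13_2_0_9_1_1.no H (hR_of H ?_) v hv
        intro t ht
        rcases List.mem_cons.1 ht with e | ht
        · subst e
          exact e3.trans (by decide +kernel)
        rcases List.mem_cons.1 ht with e | ht
        · subst e
          exact e7.trans (by decide +kernel)
        rcases List.mem_cons.1 ht with e | ht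
        · subst e
          exact e0.trans (by decide +kernel)
        rcases List.mem_cons.1 ht with e | ht
        · subst e
          exact e4.trans (by decide +kernel)
        rcases List.mem_cons.1 ht with e | ht
        · subst e
          exact e8.trans (by decide +kernel)
        exact absurd ht List.not_mem_nil
    · subst r
      rcases (show a8 = 0 ∨ a8 = 1 ∨ a8 = 2 by omega) with r | r | r
      · subst r
        obtain rfl : a4 = 5 := by omega
        obtain rfl : a0 = 2 := by omega
        obtain ⟨v, hv⟩ := exists_of_cnt e0 (by norm_num)
        refine Q13_2_4_2_5_0.no H (hR_of H ?_) v hv
        intro t ht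
        rcases List.mem_cons.1 ht with e | ht
        · subst e
          exact e3.trans (by decide +kernel)
        rcases List.mem_cons.1 ht with e | ht
        · subst e
          exact e7.trans (by decide +kernel)
        rcases List.mem_cons.1 ht with e | ht
        · subst e
          exact e0.trans (by decide +kernel)
        rcases List.mem_cons.1 ht with e | ht
        · subst e
          exact e4.trans (by decide +kernel)
        rcases List.mem_cons.1 ht with e | ht
        · subst e
          exact e8.trans (by decide +kernel)
        exact absurd ht List.not_mem_nil
      · subst r
        obtain rfl : a4 = 3 := by omega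
        obtain rfl : a0 = 3 := by omega
        obtain ⟨v, hv⟩ := exists_of_cnt e8 (by norm_num)
        refine Q13_2_4_3_3_1.no H (hR_of H ?_) v hv
        intro t ht
        rcases List.mem_cons.1 ht with e | ht
        · subst e
          exact e3.trans (by decide +kernel)
        rcases List.mem_cons.1 ht with e | ht
        · subst e
          exact e7.trans (by decide +kernel)
        rcases List.mem_cons.1 ht with e | ht
        · subst e
          exact e0.trans (by decide +kernel)
        rcases List.mem_cons.1 ht with e | ht
        · subst e
          exact e4.trans (by decide +kernel)
        rcases List.mem_cons.1 ht with e | ht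
        · subst e
          exact e8.trans (by decide +kernel)
        exact absurd ht List.not_mem_nil
      · subst r
        obtain rfl : a4 = 1 := by omega
        obtain rfl : a0 = 4 := by omega
        obtain ⟨v, hv⟩ := exists_of_cnt e4 (by norm_num)
        refine Q13_2_4_4_1_2.no H (hR_of H ?_) v hv
        intro t ht
        rcases List.mem_cons.1 ht with e | ht
        · subst e
          exact e3.trans (by decide +kernel)
        rcases List.mem_cons.1 ht with e | ht
        · subst e
          exact e7.trans (by decide +kernel)
        rcases List.mem_cons.1 ht with e | ht
        · subst e
          exact e0.trans (by decide +kernel)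
        rcases List.mem_cons.1 ht with e | ht
        · subst e
          exact e4.trans (by decide +kernel)
        rcases List.mem_cons.1 ht with e | ht
        · subst e
          exact e8.trans (by decide +kernel)
        exact absurd ht List.not_mem_nil
  · subst r
    rcases (show a7 = 0 ∨ a7 = 4 by omega) with r | r
    · subst r
      rcases (show a8 = 0 ∨ a8 = 1 ∨ a8 = 2 ∨ a8 = 3 by omega) with r | r | r | r
      · subst r
        obtain rfl : a4 = 6 := by omega
        obtain rfl : a0 = 3 := by omega
        obtain ⟨v, hv⟩ := exists_of_cnt e0 (by norm_num)
        refine Q13_4_0_3_6_0.no H (hR_of H ?_) v hv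
        intro t ht
        rcases List.mem_cons.1 ht with e | ht
        · subst e
          exact e3.trans (by decide +kernel)
        rcases List.mem_cons.1 ht with e | ht
        · subst e
          exact e7.trans (by decide +kernel)
        rcases List.mem_cons.1 ht with e | ht
        · subst e
          exact e0.trans (by decide +kernel)
        rcases List.mem_cons.1 ht with e | ht
        · subst e
          exact e4.trans (by decide +kernel)
        rcases List.mem_cons.1 ht with e | ht
        · subst e
          exact e8.trans (by decide +kernel)
        exact absurd ht List.not_mem_nil
      · subst r
        obtain rfl : a4 = 4 := by omega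
        obtain rfl : a0 = 4 := by omega
        obtain ⟨v, hv⟩ := exists_of_cnt e0 (by norm_num)
        refine Q13_4_0_4_4_1.no H (hR_of H ?_) v hv
        intro t ht
        rcases List.mem_cons.1 ht with e | ht
        · subst e
          exact e3.trans (by decide +kernel)
        rcases List.mem_cons.1 ht with e | ht
        · subst e
          exact e7.trans (by decide +kernel)
        rcases List.mem_cons.1 ht with e | ht
        · subst e
          exact e0.trans (by decide +kernel)
        rcases List.mem_cons.1 ht with e | ht
        · subst e
          exact e4.trans (by decide +kernel)
        rcases List.mem_cons.1 ht with e | ht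
        · subst e
          exact e8.trans (by decide +kernel)
        exact absurd ht List.not_mem_nil
      · subst r
        obtain rfl : a4 = 2 := by omega
        obtain rfl : a0 = 5 := by omega
        obtain ⟨v, hv⟩ := exists_of_cnt e8 (by norm_num)
        refine Q13_4_0_5_2_2.no H (hR_of H ?_) v hv
        intro t ht
        rcases List.mem_cons.1 ht with e | ht
        · subst e
          exact e3.trans (by decide +kernel)
        rcases List.mem_cons.1 ht with e | ht
        · subst e
          exact e7.trans (by decide +kernel)
        rcases List.mem_cons.1 ht with e | ht
        · subst e
          exact e0.trans (by decide +kernel)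
        rcases List.mem_cons.1 ht with e | ht
        · subst e
          exact e4.trans (by decide +kernel)
        rcases List.mem_cons.1 ht with e | ht
        · subst e
          exact e8.trans (by decide +kernel)
        exact absurd ht List.not_mem_nil
      · subst r
        obtain rfl : a4 = 0 := by omega
        obtain rfl : a0 = 6 := by omega
        obtain ⟨v, hv⟩ := exists_of_cnt e3 (by norm_num)
        refine Q13_4_0_6_0_3.no H (hR_of H ?_) v hv
        intro t ht
        rcases List.mem_cons.1 ht with e | ht
        · subst e
          exact e3.trans (by decide +kernel)
        rcases List.mem_cons.1 ht with e | ht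
        · subst e
          exact e7.trans (by decide +kernel)
        rcases List.mem_cons.1 ht with e | ht
        · subst e
          exact e0.trans (by decide +kernel)
        rcases List.mem_cons.1 ht with e | ht
        · subst e
          exact e4.trans (by decide +kernel)
        rcases List.mem_cons.1 ht with e | ht
        · subst e
          exact e8.trans (by decide +kernel)
        exact absurd ht List.not_mem_nil
    · subst r
      rcases (show a8 = 3 ∨ a8 = 4 by omega) with r | r
      · subst r
        obtain rfl : a4 = 2 := by omega
        obtain rfl : a0 = 0 := by omega
        obtain ⟨v, hv⟩ := exists_of_cnt e4 (by norm_num)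
        refine Q13_4_4_0_2_3.no H (hR_of H ?_) v hv
        intro t ht
        rcases List.mem_cons.1 ht with e | ht
        · subst e
          exact e3.trans (by decide +kernel)
        rcases List.mem_cons.1 ht with e | ht
        · subst e
          exact e7.trans (by decide +kernel)
        rcases List.mem_cons.1 ht with e | ht
        · subst e
          exact e0.trans (by decide +kernel)
        rcases List.mem_cons.1 ht with e | ht
        · subst e
          exact e4.trans (by decide +kernel)
        rcases List.mem_cons.1 ht with e | ht
        · subst e
          exact e8.trans (by decide +kernel)
        exact absurd ht List.not_mem_nil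
      · subst r
        obtain rfl : a4 = 0 := by omega
        obtain rfl : a0 = 1 := by omega
        obtain ⟨v, hv⟩ := exists_of_cnt e0 (by norm_num)
        refine Q13_4_4_1_0_4.no H (hR_of H ?_) v hv
        intro t ht
        rcases List.mem_cons.1 ht with e | ht
        · subst e
          exact e3.trans (by decide +kernel)
        rcases List.mem_cons.1 ht with e | ht
        · subst e
          exact e7.trans (by decide +kernel)
        rcases List.mem_cons.1 ht with e | ht
        · subst e
          exact e0.trans (by decide +kernel)
        rcases List.mem_cons.1 ht with e | ht
        · subst e
          exact e4.trans (by decide +kernel)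
        rcases List.mem_cons.1 ht with e | ht
        · subst e
          exact e8.trans (by decide +kernel)
        exact absurd ht List.not_mem_nil
  · subst r
    obtain rfl : a7 = 0 := by omega
    rcases (show a8 = 2 ∨ a8 = 3 ∨ a8 = 4 by omega) with r | r | r
    · subst r
      obtain rfl : a4 = 5 := by omega
      obtain rfl : a0 = 0 := by omega
      obtain ⟨v, hv⟩ := exists_of_cnt e8 (by norm_num)
      refine Q13_6_0_0_5_2.no H (hR_of H ?_) v hv
      intro t ht
      rcases List.mem_cons.1 ht with e | ht
      · subst e
        exact e3.trans (by decide +kernel)
      rcases List.mem_cons.1 ht with e | ht
      · subst e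
        exact e7.trans (by decide +kernel)
      rcases List.mem_cons.1 ht with e | ht
      · subst e
        exact e0.trans (by decide +kernel)
      rcases List.mem_cons.1 ht with e | ht
      · subst e
        exact e4.trans (by decide +kernel)
      rcases List.mem_cons.1 ht with e | ht
      · subst e
        exact e8.trans (by decide +kernel)
      exact absurd ht List.not_mem_nil
    · subst r
      obtain rfl : a4 = 3 := by omega
      obtain rfl : a0 = 1 := by omega
      obtain ⟨v, hv⟩ := exists_of_cnt e0 (by norm_num)
      refine Q13_6_0_1_3_3.no H (hR_of H ?_) v hv
      intro t ht
      rcases List.mem_cons.1 ht with e | ht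
      · subst e
        exact e3.trans (by decide +kernel)
      rcases List.mem_cons.1 ht with e | ht
      · subst e
        exact e7.trans (by decide +kernel)
      rcases List.mem_cons.1 ht with e | ht
      · subst e
        exact e0.trans (by decide +kernel)
      rcases List.mem_cons.1 ht with e | ht
      · subst e
        exact e4.trans (by decide +kernel)
      rcases List.mem_cons.1 ht with e | ht
      · subst e
        exact e8.trans (by decide +kernel)
      exact absurd ht List.not_mem_nil
    · subst r
      obtain rfl : a4 = 1 := by omega
      obtain rfl : a0 = 2 := by omega
      obtain ⟨v, hv⟩ := exists_of_cnt e0 (by norm_num)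
      refine Q13_6_0_2_1_4.no H (hR_of H ?_) v hv
      intro t ht
      rcases List.mem_cons.1 ht with e | ht
      · subst e
        exact e3.trans (by decide +kernel)
      rcases List.mem_cons.1 ht with e | ht
      · subst e
        exact e7.trans (by decide +kernel)
      rcases List.mem_cons.1 ht with e | ht
      · subst e
        exact e0.trans (by decide +kernel)
      rcases List.mem_cons.1 ht with e | ht
      · subst e
        exact e4.trans (by decide +kernel)
      rcases List.mem_cons.1 ht with e | ht
      · subst e
        exact e8.trans (by decide +kernel)
      exact absurd ht List.not_mem_nil

end Pool.Agent.H93.Neg
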